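import Mathlib
import Pool.Agent.M0n.Defs

/-! Parts: M0n.Basic, M0n.Cross, M0n.Poly, M0n.Arc, M0n.Dvd, M0n.Sep, M0n.Key, M0n.Scale, M0n.Fin, M0n.Van, M0n.Main -/

section

/-!
# MP_cc45c1_ag: evaluation of the tensors of `Reg m` in a valuation ring
-/

set_option autoImplicit false

open MvPolynomial

namespace M0n

noncomputable section

/-- A polynomial family in a vector space over `ℂ` with values in a subspace has its coefficients
in the subspace. -/
theorem vf {σ V : Type*} [Fintype σ] [AddCommGroup V] [Module ℂ V] (O : Submodule ℂ V)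
    (s : Finset (σ →₀ ℕ)) (v : (σ →₀ ℕ) → V)
    (h : ∀ a : σ → ℂ, ∑ α ∈ s, (∏ i, a i ^ α i) • v α ∈ O) : ∀ α ∈ s, v α ∈ O := by
  classical
  intro α hα
  by_contra hn
  obtain ⟨φ, hφ, hO⟩ := O.exists_le_ker_of_notMem hn
  let P : MvPolynomial σ ℂ := ∑ α ∈ s, monomial α (φ (v α))
  have hP : P = 0 := by
    apply MvPolynomial.funext
    intro a
    have h1 : eval a P = φ (∑ α ∈ s, (∏ i, a i ^ α i) • v α) := by
      simp only [P, map_sum, eval_monomial, map_smul, smul_eq_mul]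
      refine Finset.sum_congr rfl fun α _ => ?_
      rw [mul_comm, Finsupp.prod_fintype _ _ (fun i => pow_zero _)]
    rw [h1, map_zero]
    exact hO (h a)
  have h2 : coeff α P = φ (v α) := by
    simp only [P, coeff_sum, coeff_monomial]
    rw [Finset.sum_ite_eq' s α]
    simp [hα]
  rw [hP, coeff_zero] at h2
  exact hφ h2.symm

/-- The algebra generated by the cross ratios in `O`. -/
def gens {m : ℕ} (O : Subalgebra ℂ (Fld m)) : Subalgebra ℂ (Fld m) :=
  Algebra.adjoin ℂ (cr '' {q | cr q ∈ O})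

variable {m : ℕ} {O : Subalgebra ℂ (Fld m)}

theorem reg_eval (hO : ∀ x : Fld m, x ∈ O ∨ x⁻¹ ∈ O) {f : MvPolynomial (Fin m) (Fld m)}
    (hf : f ∈ Reg m) {g : Fld m} (hg : g ∈ gens O) : eval (fun i => pd i g) f ∈ O := by
  have h1 : g ∈ chart m {q | cr q ∈ O} :=
    Algebra.adjoin_mono Set.subset_union_left hg
  have h2 : chart m {q | cr q ∈ O} ≤ O := by
    apply Algebra.adjoin_le
    rintro x (⟨q, hq, rfl⟩ | ⟨q, hq, rfl⟩)
    · exact hq
    · exact (hO (cr q)).resolve_left hq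
  exact h2 (hf _ g h1)

theorem reg_coeff (hO : ∀ x : Fld m, x ∈ O ∨ x⁻¹ ∈ O) {f : MvPolynomial (Fin m) (Fld m)}
    (hf : f ∈ Reg m) {l : Fin m → Fld m} (hl : ∀ i, l i ∈ gens O) (α : Fin m →₀ ℕ) :
    coeff α (bind₁ (fun k => ∑ i, X i * C (pd k (l i))) f) ∈ O := by
  classical
  set F : MvPolynomial (Fin m) (Fld m) := bind₁ (fun k => ∑ i, X i * C (pd k (l i))) f with hF
  by_cases hα : α ∈ F.support
  · refine vf (Subalgebra.toSubmodule O) F.support (fun α => coeff α F) ?_ α hα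
    intro a
    have h1 : eval (fun i => algebraMap ℂ (Fld m) (a i)) F ∈ O := by
      rw [hF, ← coe_aeval_eq_eval, RingHom.coe_coe, aeval_bind₁]
      have h2 : ∀ k, (aeval fun i => algebraMap ℂ (Fld m) (a i))
          (∑ i, X i * C (pd k (l i)) : MvPolynomial (Fin m) (Fld m)) =
          pd k (∑ i, a i • l i) := by
        intro k
        rw [map_sum, map_sum]
        refine Finset.sum_congr rfl fun i _ => ?_
        rw [map_mul, aeval_X, Derivation.map_smul, Algebra.smul_def]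
        simp
      simp only [h2]
      have h3 := reg_eval hO hf (g := ∑ i, a i • l i)
        (sum_mem fun i _ => (gens O).smul_mem (hl i) (a i))
      rwa [← coe_aeval_eq_eval] at h3
    rw [eval_eq'] at h1
    rw [Subalgebra.mem_toSubmodule]
    have h4 : ∑ α ∈ F.support, (∏ i, a i ^ α i) • coeff α F =
        ∑ d ∈ F.support, coeff d F * ∏ i, (algebraMap ℂ (Fld m)) (a i) ^ d i := by
      refine Finset.sum_congr rfl fun α _ => ?_
      rw [Algebra.smul_def, map_prod, mul_comm]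
      simp only [map_pow]
    rw [h4]
    exact h1
  · rw [notMem_support_iff.mp hα]
    exact zero_mem O

/-- A tensor of `Reg m` takes a value in `O` at a combination, with coefficients in `O`, of
differentials of cross ratios in `O`. -/
theorem reg_eval' (hO : ∀ x : Fld m, x ∈ O ∨ x⁻¹ ∈ O) {f : MvPolynomial (Fin m) (Fld m)}
    (hf : f ∈ Reg m) {l : Fin m → Fld m} (hl : ∀ i, l i ∈ gens O) {w : Fin m → Fld m}
    (hw : ∀ i, w i ∈ O) : eval (fun k => ∑ i, w i * pd k (l i)) f ∈ O := by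
  have h1 : eval (fun k => ∑ i, w i * pd k (l i)) f =
      eval w (bind₁ (fun k => ∑ i, X i * C (pd k (l i))) f) := by
    rw [← coe_aeval_eq_eval w, RingHom.coe_coe, aeval_bind₁, ← coe_aeval_eq_eval,
      RingHom.coe_coe]
    congr 2
    ext k
    rw [map_sum]
    refine Finset.sum_congr rfl fun i _ => ?_
    rw [map_mul, aeval_X]
    simp
  rw [h1, eval_eq']
  refine sum_mem fun α _ => mul_mem (reg_coeff hO hf hl α) (prod_mem fun i _ => pow_mem (hw i) _)

end

end M0n


end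

section

/-!
# MP_cc45c1_ag: cross ratios centered at the marked points `0` and `1`
-/

set_option autoImplicit false

open MvPolynomial

namespace M0n

noncomputable section

variable {m : ℕ}

/-- The coordinate `t_i - c`. -/
def s (c : ℂ) (i : Fin m) : Fld m := t i - algebraMap ℂ (Fld m) c

/-- The marked point with coordinate `c = 0, 1`. -/
def quad {α : Type*} (a b c d : α) (h : [a, b, c, d].Nodup) : Fin 4 ↪ α :=
  ⟨![a, b, c, d], by
    have h' := List.nodup_ofFn.mp (show (List.ofFn ![a, b, c, d]).Nodup by simpa using h)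
    exact h'⟩

theorem cr_quad (a b c d : Fin m ⊕ Fin 3) (h : [a, b, c, d].Nodup) :
    cr (quad a b c d h) = br a c * br b d / (br a d * br b c) := rfl

theorem s_ne_zero (c : ℂ) (i : Fin m) : s c i ≠ 0 := by
  intro h
  have h1 : algebraMap (MvPolynomial (Fin m) ℂ) (Fld m) (X i - C c) = 0 := by
    rw [map_sub]
    exact h
  rw [map_eq_zero_iff _ (IsFractionRing.injective _ _)] at h1
  have h2 := congrArg (eval fun _ => c + 1) h1
  simp at h2

theorem pd_s (c : ℂ) (i j : Fin m) : pd i (s c j) = if j = i then 1 else 0 := by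
  rw [s, map_sub, pd_t, Derivation.map_algebraMap, sub_zero]

theorem mem_gens {O : Subalgebra ℂ (Fld m)} (a b c d : Fin m ⊕ Fin 3) (h : [a, b, c, d].Nodup)
    {x : Fld m} (u : ℂ) (hu : u ≠ 0)
    (hx : br a c * br b d / (br a d * br b c) = algebraMap ℂ (Fld m) u * x) (hO : x ∈ O) :
    x ∈ gens O := by
  have h1 : cr (quad a b c d h) = algebraMap ℂ (Fld m) u * x := by
    rw [cr_quad, hx]
  have h2 : cr (quad a b c d h) ∈ gens O := by
    apply Algebra.subset_adjoin
    refine ⟨_, ?_, rfl⟩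
    show cr (quad a b c d h) ∈ O
    rw [h1]
    exact mul_mem (O.algebraMap_mem u) hO
  have h3 : x = algebraMap ℂ (Fld m) u⁻¹ * cr (quad a b c d h) := by
    rw [h1, ← mul_assoc, ← map_mul, inv_mul_cancel₀ hu, map_one, one_mul]
  rw [h3]
  exact mul_mem ((gens O).algebraMap_mem _) h2

theorem s_mem_gens {O : Subalgebra ℂ (Fld m)} {c : ℂ} (hc : c = 0 ∨ c = 1) {i : Fin m}
    (hO : s c i ∈ O) : s c i ∈ gens O := by
  rcases hc with rfl | rfl
  · refine mem_gens (.inl i) (.inr 1) (.inr 0) (.inr 2) (by simp) 1 one_ne_zero ?_ hO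
    simp [br, pt, s]
  · refine mem_gens (.inl i) (.inr 0) (.inr 1) (.inr 2) (by simp) (-1) (by simp) ?_ hO
    simp [br, pt, s]

theorem s_inv_mem_gens {O : Subalgebra ℂ (Fld m)} {c : ℂ} (hc : c = 0 ∨ c = 1) {i : Fin m}
    (hO : (s c i)⁻¹ ∈ O) : (s c i)⁻¹ ∈ gens O := by
  rcases hc with rfl | rfl
  · refine mem_gens (.inr 1) (.inl i) (.inr 0) (.inr 2) (by simp) 1 one_ne_zero ?_ hO
    simp [br, pt, s]
  · refine mem_gens (.inr 0) (.inl i) (.inr 1) (.inr 2) (by simp) (-1) (by simp) ?_ hO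
    simp only [br, pt, s, Sum.elim_inl, Sum.elim_inr]
    simp
    rw [← inv_neg, neg_sub]

theorem s_div_mem_gens {O : Subalgebra ℂ (Fld m)} {c : ℂ} (hc : c = 0 ∨ c = 1) {i j : Fin m}
    (hij : i ≠ j) (hO : s c i / s c j ∈ O) : s c i / s c j ∈ gens O := by
  rcases hc with rfl | rfl
  · refine mem_gens (.inl i) (.inl j) (.inr 0) (.inr 2) (by simpa using hij) 1 one_ne_zero ?_ hO
    simp [br, pt, s]
  · refine mem_gens (.inl i) (.inl j) (.inr 1) (.inr 2) (by simpa using hij) 1 one_ne_zero ?_ hO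
    simp [br, pt, s]
    rw [← neg_sub (t i), ← neg_sub (t j)]
    exact neg_div_neg_eq _ _

theorem pd_s_zpow (c : ℂ) (i k : Fin m) {δ : ℤ} (hδ : δ = 1 ∨ δ = -1) :
    (δ : Fld m) * pd k (s c i ^ δ) = if i = k then s c i ^ δ / s c i else 0 := by
  have h0 := s_ne_zero c i
  rcases hδ with rfl | rfl
  · simp only [Int.cast_one, one_mul, zpow_one, pd_s]
    split_ifs
    · field_simp
    · rfl
  · rw [zpow_neg_one, Derivation.leibniz_inv, pd_s]
    split_ifs
    · simp
      field_simp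
    · simp

theorem pd_s_div (c : ℂ) (i j k : Fin m) (hij : i ≠ j) :
    pd k (s c i / s c j) = (if i = k then (s c j)⁻¹ else 0) -
      (if j = k then s c i / s c j ^ 2 else 0) := by
  have h0 := s_ne_zero c j
  rw [div_eq_mul_inv, Derivation.leibniz, Derivation.leibniz_inv, pd_s, pd_s]
  split_ifs with h1 h2
  · exact (hij (by simp_all)).elim
  all_goals simp
  all_goals field_simp

theorem reg_arc {O : Subalgebra ℂ (Fld m)} (hO : ∀ x : Fld m, x ∈ O ∨ x⁻¹ ∈ O)
    {f : MvPolynomial (Fin m) (Fld m)} (hf : f ∈ Reg m) {c : ℂ} (hc : c = 0 ∨ c = 1)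
    (I : Finset (Fin m)) {i₀ : Fin m} (hi₀ : i₀ ∈ I) {δ : ℤ} (hδ : δ = 1 ∨ δ = -1)
    (h0 : s c i₀ ^ δ ∈ O) (hI : ∀ i ∈ I, s c i / s c i₀ ∈ O ∧ s c i₀ / s c i ∈ O)
    (hJ : ∀ j, j ∉ I → s c j ∈ O ∧ (s c j)⁻¹ ∈ O) (y : Fin m → ℂ) (h : ℂ) :
    eval (fun k => (if k = i₀ then algebraMap ℂ (Fld m) h * s c i₀ ^ δ -
      ∑ i ∈ I.erase i₀, algebraMap ℂ (Fld m) (y i) else algebraMap ℂ (Fld m) (y k)) / s c k) f
      ∈ O := by
  have hs := s_ne_zero (m := m) c
  let l : Fin m → Fld m := fun i => if i = i₀ then s c i₀ ^ δ else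
    if i ∈ I then s c i / s c i₀ else s c i
  let w : Fin m → Fld m := fun i => if i = i₀ then algebraMap ℂ (Fld m) h * δ else
    if i ∈ I then algebraMap ℂ (Fld m) (y i) * (s c i₀ / s c i) else
      algebraMap ℂ (Fld m) (y i) * (s c i)⁻¹
  have hl : ∀ i, l i ∈ gens O := by
    intro i
    by_cases h1 : i = i₀
    · simp only [l, h1, if_true]
      rcases hδ with rfl | rfl
      · rw [zpow_one] at h0 ⊢
        exact s_mem_gens hc h0
      · rw [zpow_neg_one] at h0 ⊢
        exact s_inv_mem_gens hc h0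
    · by_cases h2 : i ∈ I
      · simp only [l, h1, h2, if_true, if_false]
        exact s_div_mem_gens hc h1 (hI i h2).1
      · simp only [l, h1, h2, if_false]
        exact s_mem_gens hc (hJ i h2).1
  have hw : ∀ i, w i ∈ O := by
    intro i
    by_cases h1 : i = i₀
    · simp only [w, h1, if_true]
      refine mul_mem (O.algebraMap_mem h) ?_
      rw [← map_intCast (algebraMap ℂ (Fld m))]
      exact O.algebraMap_mem _
    · by_cases h2 : i ∈ I
      · simp only [w, h1, h2, if_true, if_false]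
        exact mul_mem (O.algebraMap_mem _) (hI i h2).2
      · simp only [w, h1, h2, if_false]
        exact mul_mem (O.algebraMap_mem _) (hJ i h2).2
  have h1 := reg_eval' hO hf hl hw
  convert h1 using 3
  ext k
  have h2 : ∀ i, w i * pd k (l i) =
      (if i = i₀ then (if i₀ = k then algebraMap ℂ (Fld m) h * s c i₀ ^ δ / s c i₀ else 0)
        else 0) +
      ((if i ∈ I.erase i₀ then (if i₀ = k then - (algebraMap ℂ (Fld m) (y i) / s c i₀) else 0)
        else 0) +
      (if i = k then (if k = i₀ then 0 else algebraMap ℂ (Fld m) (y k) / s c k) else 0)) := by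
    intro i
    by_cases h1 : i = i₀
    · subst h1
      simp only [w, l, if_true, Finset.mem_erase, ne_eq, not_true_eq_false, false_and, if_false,
        zero_add]
      rw [mul_assoc, pd_s_zpow c i k hδ]
      by_cases h3 : i = k
      · subst h3
        simp [mul_div_assoc]
      · simp [h3]
    · by_cases h2 : i ∈ I
      · simp only [w, l, h1, h2, if_true, if_false, Finset.mem_erase, ne_eq, not_false_eq_true,
          true_and, zero_add]
        rw [pd_s_div c i i₀ k h1]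
        by_cases h3 : i = k
        · subst h3
          have h4 : ¬ i₀ = i := fun h => h1 h.symm
          simp only [h4, h1, if_true, if_false]
          have := hs i
          have := hs i₀
          field_simp
          ring
        · by_cases h4 : i₀ = k
          · subst h4
            simp only [h1, if_true, if_false]
            have := hs i
            have := hs i₀
            field_simp
            ring
          · simp [h3, h4]
      · simp only [w, l, h1, h2, if_false, Finset.mem_erase, and_false, zero_add]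
        rw [pd_s]
        by_cases h3 : i = k
        · subst h3
          simp [h1, div_eq_mul_inv]
        · simp [h3]
  simp only [h2]
  rw [Finset.sum_add_distrib, Finset.sum_add_distrib, Finset.sum_ite_eq' Finset.univ i₀,
    Finset.sum_ite_eq' Finset.univ k, Finset.sum_ite_mem, Finset.univ_inter]
  simp only [Finset.mem_univ, if_true]
  by_cases h3 : k = i₀
  · subst h3
    simp only [if_true, add_zero]
    rw [Finset.sum_neg_distrib, ← Finset.sum_div, sub_div, sub_eq_add_neg]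
  · have h4 : ¬ i₀ = k := fun h => h3 h.symm
    simp [h3, h4]

end

end M0n


end

section

/-!
# MP_cc45c1_ag: the coefficients of the tensors of `Reg m` are polynomials in `t`
-/

set_option autoImplicit false

open MvPolynomial

namespace M0n

noncomputable section

variable {m : ℕ}

theorem exists_valuationSubring {x : Fld m}
    (hx : ∀ a, algebraMap (MvPolynomial (Fin m) ℂ) (Fld m) a ≠ x) :
    ∃ V : ValuationSubring (Fld m),
      (∀ a, algebraMap (MvPolynomial (Fin m) ℂ) (Fld m) a ∈ V) ∧ x ∉ V := by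
  let R : Subring (Fld m) := (⊥ : Subalgebra (MvPolynomial (Fin m) ℂ) (Fld m)).toSubring
  have hR : IsIntegrallyClosedIn R (Fld m) := by
    rw [isIntegrallyClosedIn_iff]
    refine ⟨Subtype.val_injective, fun {x} hx => ?_⟩
    have h1 : Algebra.IsIntegral (MvPolynomial (Fin m) ℂ)
      (⊥ : Subalgebra (MvPolynomial (Fin m) ℂ) (Fld m)) := inferInstance
    have h2 : IsIntegral (⊥ : Subalgebra (MvPolynomial (Fin m) ℂ) (Fld m)) x := hx
    have h3 : IsIntegral (MvPolynomial (Fin m) ℂ) x := isIntegral_trans x h2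
    obtain ⟨y, hy⟩ := IsIntegrallyClosed.isIntegral_iff.mp h3
    exact ⟨⟨x, ⟨y, hy⟩⟩, rfl⟩
  obtain ⟨V, hV, hxV⟩ := Subring.exists_le_valuationSubring_of_isIntegrallyClosedIn (x := x)
    (R := R) (by
      rintro ⟨a, ha⟩
      exact hx a ha)
  exact ⟨V, fun a => hV ⟨a, rfl⟩, hxV⟩

theorem coeff_mem_range {f : MvPolynomial (Fin m) (Fld m)} (hf : f ∈ Reg m) (α : Fin m →₀ ℕ) :
    ∃ a, algebraMap (MvPolynomial (Fin m) ℂ) (Fld m) a = coeff α f := by
  by_contra hn
  push Not at hn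
  obtain ⟨V, hV, hx⟩ := exists_valuationSubring hn
  let O : Subalgebra ℂ (Fld m) :=
    { V.toSubring with
      algebraMap_mem' := fun c => by
        have := hV (C c)
        exact this }
  have hO : ∀ x : Fld m, x ∈ O ∨ x⁻¹ ∈ O := fun x => V.mem_or_inv_mem x
  have hl : ∀ i, t i ∈ gens O := by
    intro i
    have h1 : t i = s 0 i := by simp [s]
    rw [h1]
    apply s_mem_gens (Or.inl rfl)
    rw [← h1]
    exact hV (X i)
  have h1 := reg_coeff hO hf hl α
  have h2 : bind₁ (fun k => ∑ i, X i * C (pd k (t i))) f = f := by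
    have h3 : (fun k => ∑ i, X i * C (pd k (t i))) =
        (X : Fin m → MvPolynomial (Fin m) (Fld m)) := by
      ext1 k
      simp only [pd_t]
      rw [Finset.sum_eq_single k]
      · simp
      · intro b _ hb
        simp [hb]
      · simp
    rw [h3, bind₁_X_left]
    rfl
  rw [h2] at h1
  exact hx h1

/-- `f` is a polynomial in `t` and in the fibre coordinates. -/
theorem exists_poly {f : MvPolynomial (Fin m) (Fld m)} (hf : f ∈ Reg m) :
    ∃ G : MvPolynomial (Fin m ⊕ Fin m) ℂ, ∀ p : Fin m → Fld m,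
      aeval (Sum.elim (s 0) p) G = eval p f := by
  choose a ha using coeff_mem_range hf
  refine ⟨∑ α ∈ f.support, rename Sum.inl (a α) * rename Sum.inr (monomial α 1), fun p => ?_⟩
  rw [map_sum, eval_eq']
  refine Finset.sum_congr rfl fun α _ => ?_
  rw [map_mul, aeval_rename, aeval_rename, Sum.elim_comp_inl, Sum.elim_comp_inr, ← ha]
  congr 1
  · have h1 : (aeval (s 0) : MvPolynomial (Fin m) ℂ →ₐ[ℂ] Fld m) =
        IsScalarTower.toAlgHom ℂ (MvPolynomial (Fin m) ℂ) (Fld m) := by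
      ext i
      rw [aeval_X]
      simp [s, t]
    rw [h1]
    rfl
  · rw [aeval_monomial, map_one, one_mul, Finsupp.prod_fintype _ _ (fun i => pow_zero _)]

/-- The translation `t ↦ t + 1` of a polynomial in `t` and in the fibre coordinates. -/
def shift (c : ℂ) : MvPolynomial (Fin m ⊕ Fin m) ℂ →ₐ[ℂ] MvPolynomial (Fin m ⊕ Fin m) ℂ :=
  aeval (Sum.elim (fun i => X (Sum.inl i) + C c) (fun i => X (Sum.inr i)))

theorem aeval_shift (c : ℂ) (G : MvPolynomial (Fin m ⊕ Fin m) ℂ) (p : Fin m → Fld m) :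
    aeval (Sum.elim (s c) p) (shift c G) = aeval (Sum.elim (s 0) p) G := by
  have h1 : ((aeval (Sum.elim (s c) p)).comp (shift c) :
      MvPolynomial (Fin m ⊕ Fin m) ℂ →ₐ[ℂ] Fld m) = aeval (Sum.elim (s 0) p) := by
    ext i
    rcases i with i | i
    · simp [shift, s]
    · simp [shift]
  exact DFunLike.congr_fun h1 G

theorem aeval_s_injective (c : ℂ) :
    Function.Injective (aeval (s c) : MvPolynomial (Fin m) ℂ →ₐ[ℂ] Fld m) := by
  have h1 : (aeval (s c) : MvPolynomial (Fin m) ℂ →ₐ[ℂ] Fld m) =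
      (IsScalarTower.toAlgHom ℂ (MvPolynomial (Fin m) ℂ) (Fld m)).comp
        (aeval fun i => X i - C c) := by
    ext i
    simp [s, t]
    rfl
  rw [h1]
  apply (IsFractionRing.injective (MvPolynomial (Fin m) ℂ) (Fld m)).comp
  apply Function.LeftInverse.injective (g := aeval fun i => X i + C c)
  intro a
  have h2 : ((aeval fun i => X i + C c : MvPolynomial (Fin m) ℂ →ₐ[ℂ] _).comp
      (aeval fun i => X i - C c)) = AlgHom.id ℂ (MvPolynomial (Fin m) ℂ) := by
    ext1 i
    simp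
  exact DFunLike.congr_fun h2 a

end

end M0n


end

section

/-!
# MP_cc45c1_ag: the arcs `t_i ↦ c + r^{±1} (t_i - c)`, `i ∈ I`
-/

set_option autoImplicit false

open MvPolynomial

namespace M0n

noncomputable section

variable {m : ℕ}

/-- The exponent of the parameter `r` of the arc. -/
def dl (I : Finset (Fin m)) (δ : ℤ) (i : Fin m) : ℤ := if i ∈ I then δ else 0

theorem prod_single {ι : Type*} (S : Finset ι) (a : ι → ℤ) (x : ι → Fld m) :
    ∏ i ∈ S, HahnSeries.single (a i) (x i) =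
      (HahnSeries.single (∑ i ∈ S, a i) (∏ i ∈ S, x i) : HahnSeries ℤ (Fld m)) := by
  classical
  induction S using Finset.induction_on with
  | empty => rfl
  | insert i S hi ih =>
    rw [Finset.prod_insert hi, ih, HahnSeries.single_mul_single, Finset.sum_insert hi,
      Finset.prod_insert hi]

theorem coeff_sum_single {ι : Type*} (S : Finset ι) (a : ι → ℤ) (x : ι → Fld m) (n : ℤ) :
    (∑ i ∈ S, HahnSeries.single (a i) (x i) : HahnSeries ℤ (Fld m)).coeff n =
      ∑ i ∈ S with a i = n, x i := by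
  rw [HahnSeries.coeff_sum, Finset.sum_filter]
  refine Finset.sum_congr rfl fun i _ => ?_
  rw [HahnSeries.coeff_single]
  by_cases h : a i = n
  · simp [h]
  · rw [if_neg h, if_neg (fun h' => h h'.symm)]

/-- The constants. -/
def cst (m : ℕ) : ℂ →+* HahnSeries ℤ (Fld m) := HahnSeries.C.comp (algebraMap ℂ (Fld m))

theorem cst_apply (a : ℂ) : cst m a = HahnSeries.single 0 (algebraMap ℂ (Fld m) a) := rfl

/-- The arc in the coordinates `t_i - c`. -/
def arcS (c : ℂ) (I : Finset (Fin m)) (δ : ℤ) :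
    MvPolynomial (Fin m) ℂ →+* HahnSeries ℤ (Fld m) :=
  eval₂Hom (cst m) fun i => HahnSeries.single (dl I δ i) (s c i)

theorem arcS_apply (c : ℂ) (I : Finset (Fin m)) (δ : ℤ) (Q : MvPolynomial (Fin m) ℂ) :
    arcS c I δ Q = ∑ β ∈ Q.support, HahnSeries.single (∑ i, (β i : ℤ) * dl I δ i)
      (algebraMap ℂ (Fld m) (coeff β Q) * ∏ i, s c i ^ β i) := by
  conv_lhs => rw [arcS, Q.as_sum, map_sum]
  refine Finset.sum_congr rfl fun β _ => ?_
  rw [coe_eval₂Hom, eval₂_monomial, Finsupp.prod_fintype _ _ (fun i => pow_zero _)]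
  simp only [HahnSeries.single_pow]
  rw [prod_single, cst_apply, HahnSeries.single_mul_single, zero_add]
  simp only [nsmul_eq_mul]

theorem arcS_injective (c : ℂ) (I : Finset (Fin m)) (δ : ℤ) :
    Function.Injective (arcS (m := m) c I δ) := by
  classical
  rw [injective_iff_map_eq_zero]
  intro Q hQ
  ext β
  rw [coeff_zero]
  by_contra hβ
  have h1 := congrArg (fun e => HahnSeries.coeff e (∑ i, (β i : ℤ) * dl I δ i)) hQ
  simp only [arcS_apply, coeff_sum_single, HahnSeries.coeff_zero] at h1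
  let Q' : MvPolynomial (Fin m) ℂ := ∑ γ ∈ Q.support with
    (∑ i, (γ i : ℤ) * dl I δ i) = (∑ i, (β i : ℤ) * dl I δ i), monomial γ (coeff γ Q)
  have h2 : aeval (s c) Q' = 0 := by
    rw [← h1, map_sum]
    refine Finset.sum_congr rfl fun γ _ => ?_
    rw [aeval_monomial, Finsupp.prod_fintype _ _ (fun i => pow_zero _)]
  have h3 : Q' = 0 := aeval_s_injective c (by rw [h2, map_zero])
  have h4 : coeff β Q' = coeff β Q := by
    simp only [Q', coeff_sum, coeff_monomial]
    rw [Finset.sum_ite_eq']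
    simp [hβ]
  rw [h3, coeff_zero] at h4
  exact hβ h4.symm

theorem trans_injective (c : ℂ) :
    Function.Injective (aeval fun i => X i + C c : MvPolynomial (Fin m) ℂ →ₐ[ℂ] _) := by
  apply Function.LeftInverse.injective (g := aeval fun i => X i - C c)
  intro a
  have h2 : ((aeval fun i => X i - C c : MvPolynomial (Fin m) ℂ →ₐ[ℂ] _).comp
      (aeval fun i => X i + C c)) = AlgHom.id ℂ (MvPolynomial (Fin m) ℂ) := by
    ext1 i
    simp
  exact DFunLike.congr_fun h2 a

/-- The arc on polynomials in `t`. -/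
def arc0 (c : ℂ) (I : Finset (Fin m)) (δ : ℤ) :
    MvPolynomial (Fin m) ℂ →+* HahnSeries ℤ (Fld m) :=
  (arcS c I δ).comp (aeval fun i => X i + C c : MvPolynomial (Fin m) ℂ →ₐ[ℂ] _).toRingHom

theorem arc0_injective (c : ℂ) (I : Finset (Fin m)) (δ : ℤ) :
    Function.Injective (arc0 (m := m) c I δ) :=
  (arcS_injective c I δ).comp (trans_injective c)

theorem isUnit_arc0 (c : ℂ) (I : Finset (Fin m)) (δ : ℤ)
    (a : nonZeroDivisors (MvPolynomial (Fin m) ℂ)) : IsUnit (arc0 c I δ a) := by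
  have h0 : arc0 c I δ a ≠ 0 := by
    intro h
    have h1 := (injective_iff_map_eq_zero _).mp (arc0_injective c I δ) _ h
    exact nonZeroDivisors.coe_ne_zero a h1
  rw [HahnSeries.isUnit_iff, isUnit_iff_ne_zero]
  exact HahnSeries.leadingCoeff_ne_zero.mpr h0

/-- The arc `t_i ↦ c + r^δ (t_i - c)`, `i ∈ I`. -/
def arc (c : ℂ) (I : Finset (Fin m)) (δ : ℤ) : Fld m →+* HahnSeries ℤ (Fld m) :=
  IsLocalization.lift (M := nonZeroDivisors (MvPolynomial (Fin m) ℂ)) (isUnit_arc0 c I δ)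

theorem arc_algebraMap (c : ℂ) (I : Finset (Fin m)) (δ : ℤ) (a : MvPolynomial (Fin m) ℂ) :
    arc c I δ (algebraMap (MvPolynomial (Fin m) ℂ) (Fld m) a) = arc0 c I δ a :=
  IsLocalization.lift_eq _ a

theorem arc_const (c : ℂ) (I : Finset (Fin m)) (δ : ℤ) (a : ℂ) :
    arc c I δ (algebraMap ℂ (Fld m) a) = HahnSeries.single 0 (algebraMap ℂ (Fld m) a) := by
  have h1 : algebraMap ℂ (Fld m) a = algebraMap (MvPolynomial (Fin m) ℂ) (Fld m) (C a) := rfl
  conv_lhs => rw [h1, arc_algebraMap]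
  rw [arc0, RingHom.comp_apply, arcS]
  simp
  rfl

theorem arc_s (c : ℂ) (I : Finset (Fin m)) (δ : ℤ) (i : Fin m) :
    arc c I δ (s c i) = HahnSeries.single (dl I δ i) (s c i) := by
  have h1 : s c i = algebraMap (MvPolynomial (Fin m) ℂ) (Fld m) (X i - C c) := by
    rw [map_sub]
    rfl
  conv_lhs => rw [h1, arc_algebraMap]
  rw [arc0, RingHom.comp_apply, arcS]
  simp

theorem arc_s_zpow (c : ℂ) (I : Finset (Fin m)) (δ : ℤ) (i : Fin m) (n : ℤ) :
    arc c I δ (s c i ^ n) = HahnSeries.single (n * dl I δ i) (s c i ^ n) := by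
  rw [map_zpow₀, arc_s]
  rcases n with n | n
  · simp only [Int.ofNat_eq_natCast, zpow_natCast]
    rw [HahnSeries.single_pow]
    simp
  · rw [zpow_negSucc, zpow_negSucc, HahnSeries.single_pow, HahnSeries.inv_single]
    congr 1
    rw [Int.negSucc_eq, nsmul_eq_mul]
    have h1 : -(((n + 1 : ℕ) : ℤ) * dl I δ i) = (-↑(n + 1 : ℕ) : ℤ) * dl I δ i := by ring
    push_cast at h1
    rw [Nat.cast_add, Nat.cast_one, h1]

/-- The valuation ring of the arc. -/
def ring (c : ℂ) (I : Finset (Fin m)) (δ : ℤ) : Subalgebra ℂ (Fld m) where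
  carrier := {x | 0 ≤ (arc c I δ x).orderTop}
  mul_mem' {a b} ha hb := by
    simp only [Set.mem_ofPred_eq] at ha hb ⊢
    rw [map_mul, HahnSeries.orderTop_mul]
    exact add_nonneg ha hb
  add_mem' {a b} ha hb := by
    simp only [Set.mem_ofPred_eq] at ha hb ⊢
    rw [map_add]
    exact (le_min ha hb).trans HahnSeries.min_orderTop_le_orderTop_add
  algebraMap_mem' c' := by
    simp only [Set.mem_ofPred_eq]
    rw [arc_const]
    exact HahnSeries.orderTop_single_le

theorem mem_ring {c : ℂ} {I : Finset (Fin m)} {δ : ℤ} {x : Fld m} :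
    x ∈ ring c I δ ↔ 0 ≤ (arc c I δ x).orderTop := Iff.rfl

theorem ring_mem_or (c : ℂ) (I : Finset (Fin m)) (δ : ℤ) (x : Fld m) :
    x ∈ ring c I δ ∨ x⁻¹ ∈ ring c I δ := by
  by_cases hx : x = 0
  · left
    rw [hx]
    exact zero_mem _
  have h1 : (arc c I δ x).orderTop + (arc c I δ x⁻¹).orderTop = 0 := by
    rw [← HahnSeries.orderTop_mul, ← map_mul, mul_inv_cancel₀ hx, map_one, HahnSeries.orderTop_one]
  rw [mem_ring, mem_ring]
  by_contra hn
  push Not at hn
  generalize (arc c I δ x).orderTop = a at *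
  generalize (arc c I δ x⁻¹).orderTop = b at *
  induction a with
  | top => simp at hn
  | coe a =>
    induction b with
    | top => simp at hn
    | coe b =>
      norm_cast at h1 hn
      omega

theorem zpow_mem_ring (c : ℂ) (I : Finset (Fin m)) (δ : ℤ) (i : Fin m) (n : ℤ)
    (h : 0 ≤ n * dl I δ i) : s c i ^ n ∈ ring c I δ := by
  rw [mem_ring, arc_s_zpow]
  refine le_trans ?_ HahnSeries.orderTop_single_le
  exact_mod_cast h

end

end M0n


end

section

/-!
# MP_cc45c1_ag: the divisibility relations given by the boundary divisors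
-/

set_option autoImplicit false

open MvPolynomial

namespace M0n

noncomputable section

variable {m : ℕ}

theorem arc_prod (c : ℂ) (I : Finset (Fin m)) (δ : ℤ) (χ : Fin m → ℤ) :
    arc c I δ (∏ i, s c i ^ χ i) =
      HahnSeries.single (∑ i, χ i * dl I δ i) (∏ i, s c i ^ χ i) := by
  rw [map_prod, ← prod_single]
  exact Finset.prod_congr rfl fun i _ => arc_s_zpow c I δ i (χ i)

/-- The Laurent monomials in `t_i - c` are linearly independent. -/
theorem indep (c : ℂ) (T : Finset (Fin m → ℤ)) (b : (Fin m → ℤ) → ℂ)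
    (h : ∑ χ ∈ T, algebraMap ℂ (Fld m) (b χ) * ∏ i, s c i ^ χ i = 0) : ∀ χ ∈ T, b χ = 0 := by
  classical
  intro χ hχ
  obtain ⟨N, hN⟩ : ∃ N : ℕ, ∀ χ ∈ T, ∀ i, 0 ≤ χ i + N := by
    refine ⟨∑ χ ∈ T, ∑ i, (χ i).natAbs, fun χ hχ i => ?_⟩
    have h1 : (χ i).natAbs ≤ ∑ i, (χ i).natAbs :=
      Finset.single_le_sum (f := fun i => (χ i).natAbs) (fun _ _ => Nat.zero_le _)
        (Finset.mem_univ i)
    have h2 : ∑ i, (χ i).natAbs ≤ ∑ χ ∈ T, ∑ i, (χ i).natAbs :=
      Finset.single_le_sum (f := fun χ : Fin m → ℤ => ∑ i, (χ i).natAbs)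
        (fun _ _ => Nat.zero_le _) hχ
    omega
  let e : (Fin m → ℤ) → (Fin m →₀ ℕ) := fun χ => Finsupp.equivFunOnFinite.symm
    fun i => (χ i + N).toNat
  have he : ∀ χ₁ ∈ T, ∀ χ₂ ∈ T, e χ₁ = e χ₂ → χ₁ = χ₂ := by
    intro χ₁ h₁ χ₂ h₂ h₁₂
    ext i
    have h3 := DFunLike.congr_fun h₁₂ i
    simp only [e, Finsupp.equivFunOnFinite_symm_apply_apply] at h3
    have := hN χ₁ h₁ i
    have := hN χ₂ h₂ i
    omega
  let P : MvPolynomial (Fin m) ℂ := ∑ χ ∈ T, monomial (e χ) (b χ)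
  have hP : aeval (s c) P = 0 := by
    have h1 : aeval (s c) P = (∏ i, s c i ^ N) *
        ∑ χ ∈ T, algebraMap ℂ (Fld m) (b χ) * ∏ i, s c i ^ χ i := by
      rw [Finset.mul_sum, map_sum]
      refine Finset.sum_congr rfl fun χ hχ => ?_
      rw [aeval_monomial, Finsupp.prod_fintype _ _ (fun i => pow_zero _), mul_left_comm,
        ← Finset.prod_mul_distrib]
      congr 1
      refine Finset.prod_congr rfl fun i _ => ?_
      rw [← zpow_natCast, ← zpow_natCast, ← zpow_add₀ (s_ne_zero c i)]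
      congr 1
      simp only [e, Finsupp.equivFunOnFinite_symm_apply_apply]
      have := hN χ hχ i
      omega
    rw [h1, h, mul_zero]
  have hP' : P = 0 := aeval_s_injective c (by rw [hP, map_zero])
  have h2 : coeff (e χ) P = b χ := by
    simp only [P, coeff_sum, coeff_monomial]
    rw [Finset.sum_eq_single_of_mem χ hχ]
    · simp
    · intro χ' h' hne
      rw [if_neg]
      intro h3
      exact hne (he _ h' _ hχ h3)
  rw [hP', coeff_zero] at h2
  exact h2.symm

theorem extract (c : ℂ) (I : Finset (Fin m)) (δ : ℤ) (T : Finset (Fin m → ℤ))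
    (b : (Fin m → ℤ) → ℂ) (N : ℤ)
    (h : (N : WithTop ℤ) ≤ (arc c I δ
      (∑ χ ∈ T, algebraMap ℂ (Fld m) (b χ) * ∏ i, s c i ^ χ i)).orderTop) :
    ∀ χ ∈ T, (∑ i, χ i * dl I δ i) < N → b χ = 0 := by
  classical
  intro χ hχ hlt
  have h1 : (arc c I δ (∑ χ ∈ T, algebraMap ℂ (Fld m) (b χ) * ∏ i, s c i ^ χ i)) =
      ∑ χ ∈ T, HahnSeries.single (∑ i, χ i * dl I δ i)
        (algebraMap ℂ (Fld m) (b χ) * ∏ i, s c i ^ χ i) := by
    rw [map_sum]
    refine Finset.sum_congr rfl fun χ _ => ?_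
    rw [map_mul, arc_prod, arc_const, HahnSeries.single_mul_single, zero_add]
  have h2 : (arc c I δ (∑ χ ∈ T, algebraMap ℂ (Fld m) (b χ) *
      ∏ i, s c i ^ χ i)).coeff (∑ i, χ i * dl I δ i) = 0 := by
    apply HahnSeries.coeff_eq_zero_of_lt_orderTop
    exact lt_of_lt_of_le (by exact_mod_cast hlt) h
  rw [h1, coeff_sum_single] at h2
  exact indep c _ b h2 χ (by simp [hχ])

theorem vf1 {V : Type*} [AddCommGroup V] [Module ℂ V] (O : Submodule ℂ V) (D : ℕ) (v : ℕ → V)
    (h : ∀ a : ℂ, ∑ k ∈ Finset.range D, a ^ k • v k ∈ O) : ∀ k < D, v k ∈ O := by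
  intro k hk
  by_contra hn
  obtain ⟨φ, hφ, hO⟩ := O.exists_le_ker_of_notMem hn
  let P : Polynomial ℂ := ∑ k ∈ Finset.range D, Polynomial.monomial k (φ (v k))
  have hP : P = 0 := by
    apply Polynomial.funext
    intro a
    have h1 : P.eval a = φ (∑ k ∈ Finset.range D, a ^ k • v k) := by
      simp only [P, Polynomial.eval_finsetSum, Polynomial.eval_monomial, map_sum, map_smul,
        smul_eq_mul]
      exact Finset.sum_congr rfl fun k _ => mul_comm _ _
    rw [h1, Polynomial.eval_zero]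
    exact hO (h a)
  have h2 : P.coeff k = φ (v k) := by
    simp only [P, Polynomial.finsetSum_coeff, Polynomial.coeff_monomial]
    rw [Finset.sum_ite_eq' (Finset.range D) k]
    simp [hk]
  rw [hP, Polynomial.coeff_zero] at h2
  exact hφ h2.symm

/-- The weight of a monomial. -/
def chi (γ : Fin m ⊕ Fin m →₀ ℕ) : Fin m → ℤ := fun i => (γ (Sum.inl i) : ℤ) - γ (Sum.inr i)

/-- The exponent in the fibre coordinates. -/
def fib (γ : Fin m ⊕ Fin m →₀ ℕ) : Fin m →₀ ℕ :=
  Finsupp.equivFunOnFinite.symm fun i => γ (Sum.inr i)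

theorem fib_apply (γ : Fin m ⊕ Fin m →₀ ℕ) (i : Fin m) : fib γ i = γ (Sum.inr i) := rfl

open Classical in
/-- The part of weight `χ`, as a polynomial in `y_i = t_i p_i`. -/
def gchi (G : MvPolynomial (Fin m ⊕ Fin m) ℂ) (χ : Fin m → ℤ) : MvPolynomial (Fin m) ℂ :=
  ∑ γ ∈ G.support with chi γ = χ, monomial (fib γ) (coeff γ G)

open Classical in
theorem expand {L : Type*} [Field L] [Algebra ℂ L] (G : MvPolynomial (Fin m ⊕ Fin m) ℂ)
    (s y : Fin m → L) (hs : ∀ i, s i ≠ 0) :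
    aeval (Sum.elim s fun k => y k / s k) G =
      ∑ χ ∈ G.support.image chi, (∏ i, s i ^ χ i) * aeval y (gchi G χ) := by
  have h1 : ∀ γ ∈ G.support, chi γ ∈ G.support.image chi := fun γ hγ =>
    Finset.mem_image_of_mem _ hγ
  conv_lhs => rw [G.as_sum, map_sum]
  rw [← Finset.sum_fiberwise_of_maps_to h1]
  refine Finset.sum_congr rfl fun χ _ => ?_
  rw [gchi, map_sum, Finset.mul_sum]
  refine Finset.sum_congr rfl fun γ hγ => ?_
  have h2 := (Finset.mem_filter.mp hγ).2
  rw [aeval_monomial, aeval_monomial, Finsupp.prod_fintype _ _ (fun i => pow_zero _),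
    Finsupp.prod_fintype _ _ (fun i => pow_zero _), Fintype.prod_sum_type]
  have h3 : (∏ i, Sum.elim s (fun k => y k / s k) (Sum.inl i) ^ γ (Sum.inl i)) *
      (∏ i, Sum.elim s (fun k => y k / s k) (Sum.inr i) ^ γ (Sum.inr i)) =
      (∏ i, s i ^ χ i) * ∏ i, y i ^ (fib γ) i := by
    rw [← Finset.prod_mul_distrib, ← Finset.prod_mul_distrib]
    refine Finset.prod_congr rfl fun i _ => ?_
    rw [← h2]
    simp only [Sum.elim_inl, Sum.elim_inr, chi, fib_apply]
    rw [zpow_sub₀ (hs i), zpow_natCast, zpow_natCast, div_pow]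
    have := pow_ne_zero (γ (Sum.inr i)) (hs i)
    field_simp
  rw [h3, mul_left_comm]

/-- `g` as a polynomial in the variable `i₀`, for numerical values `y` of the other ones. -/
def ghat (g : MvPolynomial (Fin m) ℂ) (i₀ : Fin m) (y : Fin m → ℂ) : Polynomial ℂ :=
  aeval (fun k => if k = i₀ then Polynomial.X else Polynomial.C (y k)) g

theorem aeval_ghat {L : Type*} [Field L] [Algebra ℂ L] (g : MvPolynomial (Fin m) ℂ)
    (i₀ : Fin m) (y : Fin m → ℂ) (z : L) :
    aeval (fun k => if k = i₀ then z else algebraMap ℂ L (y k)) g =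
      Polynomial.aeval z (ghat g i₀ y) := by
  have h1 : (aeval (fun k => if k = i₀ then z else algebraMap ℂ L (y k)) :
      MvPolynomial (Fin m) ℂ →ₐ[ℂ] L) = (Polynomial.aeval z).comp
        (aeval (fun k => if k = i₀ then Polynomial.X else Polynomial.C (y k))) := by
    ext k
    by_cases hk : k = i₀
    · simp [hk]
    · simp [hk]
  exact DFunLike.congr_fun h1 g

theorem dl_sq {I : Finset (Fin m)} {δ : ℤ} (hδ : δ = 1 ∨ δ = -1) {i : Fin m} (hi : i ∈ I) :
    δ * dl I δ i = 1 := by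
  rw [dl, if_pos hi]
  rcases hδ with rfl | rfl <;> norm_num

theorem div_mem_ring (c : ℂ) (I : Finset (Fin m)) (δ : ℤ) (i j : Fin m)
    (h : 0 ≤ dl I δ i - dl I δ j) : s c i / s c j ∈ ring c I δ := by
  have h1 : arc c I δ (s c i / s c j) =
      HahnSeries.single (dl I δ i - dl I δ j) (s c i / s c j) := by
    rw [div_eq_mul_inv, map_mul]
    have h2 := arc_s_zpow c I δ j (-1)
    rw [zpow_neg_one] at h2
    rw [h2, arc_s, HahnSeries.single_mul_single, neg_one_mul, ← sub_eq_add_neg]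
  rw [mem_ring, h1]
  refine le_trans ?_ HahnSeries.orderTop_single_le
  exact_mod_cast h

open Classical in
/-- The divisibility relation given by a boundary divisor. -/
theorem arc_dvd {f : MvPolynomial (Fin m) (Fld m)} (hf : f ∈ Reg m) {c : ℂ}
    (hc : c = 0 ∨ c = 1) {G : MvPolynomial (Fin m ⊕ Fin m) ℂ}
    (hG : ∀ p, aeval (Sum.elim (s c) p) G = eval p f) (I : Finset (Fin m)) {i₀ : Fin m}
    (hi₀ : i₀ ∈ I) {δ : ℤ} (hδ : δ = 1 ∨ δ = -1) (y : Fin m → ℂ) (χ : Fin m → ℤ) :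
    (Polynomial.X - Polynomial.C (-∑ i ∈ I.erase i₀, y i)) ^ (-(δ * ∑ i ∈ I, χ i)).toNat ∣
      ghat (gchi G χ) i₀ y := by
  by_cases hχ : χ ∈ G.support.image chi
  swap
  · have h1 : gchi G χ = 0 := by
      rw [gchi, Finset.filter_eq_empty_iff.mpr, Finset.sum_empty]
      intro γ hγ h2
      exact hχ (Finset.mem_image.mpr ⟨γ, hγ, h2⟩)
    rw [h1, ghat, map_zero]
    exact dvd_zero _
  set ℓ : ℂ := ∑ i ∈ I.erase i₀, y i with hℓ
  let q : (Fin m → ℤ) → Polynomial ℂ := fun χ =>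
    (ghat (gchi G χ) i₀ y).comp (Polynomial.X + Polynomial.C (-ℓ))
  let D : ℕ := (G.support.image chi).sup (fun χ => (q χ).natDegree) + 1
  have hD : ∀ χ ∈ G.support.image chi, (q χ).natDegree < D := fun χ hχ =>
    Nat.lt_succ_of_le (Finset.le_sup (f := fun χ => (q χ).natDegree) hχ)
  let u : ℕ → Fld m := fun k => ∑ χ ∈ G.support.image chi,
    (∏ i, s c i ^ χ i) * (algebraMap ℂ (Fld m) ((q χ).coeff k) * (s c i₀ ^ δ) ^ k)
  have hu : ∀ k < D, u k ∈ Subalgebra.toSubmodule (ring c I δ) := by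
    apply vf1
    intro h
    have h1 := reg_arc (ring_mem_or c I δ) hf hc I hi₀ hδ
      (zpow_mem_ring c I δ i₀ δ (by rw [dl_sq hδ hi₀]; norm_num))
      (fun i hi => ⟨div_mem_ring c I δ i i₀ (by simp [dl, hi, hi₀]),
        div_mem_ring c I δ i₀ i (by simp [dl, hi, hi₀])⟩)
      (fun j hj => by
        have h2 := zpow_mem_ring c I δ j 1 (by simp [dl, hj])
        have h3 := zpow_mem_ring c I δ j (-1) (by simp [dl, hj])
        rw [zpow_one] at h2
        rw [zpow_neg_one] at h3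
        exact ⟨h2, h3⟩) y h
    rw [← hG, expand G (s c) _ (s_ne_zero c)] at h1
    rw [Subalgebra.mem_toSubmodule]
    convert h1 using 1
    simp only [u, Finset.smul_sum]
    rw [Finset.sum_comm]
    refine Finset.sum_congr rfl fun χ hχ => ?_
    rw [aeval_ghat]
    have h2 : Polynomial.aeval (algebraMap ℂ (Fld m) h * s c i₀ ^ δ -
        ∑ i ∈ I.erase i₀, algebraMap ℂ (Fld m) (y i)) (ghat (gchi G χ) i₀ y) =
        Polynomial.aeval (algebraMap ℂ (Fld m) h * s c i₀ ^ δ) (q χ) := by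
      simp only [q]
      rw [Polynomial.aeval_comp]
      congr 2
      rw [map_add, Polynomial.aeval_X, Polynomial.aeval_C, map_neg, hℓ, map_sum, sub_eq_add_neg]
    rw [h2, Polynomial.aeval_eq_sum_range' (hD χ hχ), Finset.mul_sum]
    refine Finset.sum_congr rfl fun k _ => ?_
    rw [Algebra.smul_def, Algebra.smul_def, map_pow, mul_pow]
    ring
  rw [Polynomial.X_sub_C_pow_dvd_iff, Polynomial.X_pow_dvd_iff]
  intro k hk
  by_cases hkD : k < D
  swap
  · exact Polynomial.coeff_eq_zero_of_natDegree_lt (lt_of_lt_of_le (hD χ hχ) (not_lt.mp hkD))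
  have h3 := hu k hkD
  rw [Subalgebra.mem_toSubmodule, mem_ring] at h3
  refine extract c I δ (G.support.image chi) (fun χ => (q χ).coeff k) (-k) ?_ χ hχ ?_
  · have h4 : ∑ χ ∈ G.support.image chi, algebraMap ℂ (Fld m) ((q χ).coeff k) *
        ∏ i, s c i ^ χ i = u k * s c i₀ ^ (-(δ * k)) := by
      simp only [u]
      rw [Finset.sum_mul]
      refine Finset.sum_congr rfl fun χ _ => ?_
      rw [zpow_neg, zpow_mul, zpow_natCast]
      have := pow_ne_zero k (zpow_ne_zero δ (s_ne_zero c i₀))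
      field_simp
    rw [h4, map_mul, HahnSeries.orderTop_mul, arc_s_zpow]
    have h5 : -(δ * (k : ℤ)) * dl I δ i₀ = -k := by
      have := dl_sq hδ hi₀
      linear_combination (-(k : ℤ)) * this
    rw [h5]
    have h6 : ((-(k : ℤ) : ℤ) : WithTop ℤ) ≤
      (HahnSeries.single (-(k : ℤ)) (s c i₀ ^ (-(δ * (k : ℤ))))).orderTop :=
      HahnSeries.orderTop_single_le
    calc ((-(k : ℤ) : ℤ) : WithTop ℤ) = 0 + ((-(k : ℤ) : ℤ) : WithTop ℤ) := (zero_add _).symm
      _ ≤ _ := add_le_add h3 h6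
  · have h7 : ∑ i, χ i * dl I δ i = δ * ∑ i ∈ I, χ i := by
      simp only [dl, mul_ite, mul_zero]
      rw [Finset.sum_ite_mem, Finset.univ_inter, Finset.mul_sum]
      exact Finset.sum_congr rfl fun i _ => mul_comm _ _
    rw [h7]
    omega

end

end M0n


end

section

/-!
# MP_cc45c1_ag: separation of a variable
-/

set_option autoImplicit false

open MvPolynomial

namespace M0n

noncomputable section

variable {m : ℕ}

/-- Separate the variable `v`. -/
def sep (v : Fin m ⊕ Fin m) : MvPolynomial (Fin m ⊕ Fin m) ℂ →ₐ[ℂ]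
    Polynomial (MvPolynomial (Fin m ⊕ Fin m) ℂ) :=
  aeval fun w => if w = v then Polynomial.X else Polynomial.C (X w)

/-- Separate the variable `v` and give the other ones the values `u`. -/
def num (v : Fin m ⊕ Fin m) (u : Fin m ⊕ Fin m → ℂ) :
    MvPolynomial (Fin m ⊕ Fin m) ℂ →ₐ[ℂ] Polynomial ℂ :=
  aeval fun w => if w = v then Polynomial.X else Polynomial.C (u w)

theorem prod_erase_split {R : Type*} [CommMonoid R] (v : Fin m ⊕ Fin m)
    (γ : Fin m ⊕ Fin m →₀ ℕ) (f : Fin m ⊕ Fin m → R) (x : R) :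
    ∏ w, (if w = v then x else f w) ^ γ w = x ^ γ v * ∏ w, f w ^ (γ.erase v) w := by
  classical
  rw [← Finset.mul_prod_erase Finset.univ _ (Finset.mem_univ v),
    ← Finset.mul_prod_erase Finset.univ (fun w => f w ^ (γ.erase v) w) (Finset.mem_univ v)]
  simp only [if_true, Finsupp.erase_same, pow_zero, one_mul]
  congr 1
  refine Finset.prod_congr rfl fun w hw => ?_
  have h1 : w ≠ v := (Finset.mem_erase.mp hw).1
  rw [if_neg h1, Finsupp.erase_ne h1]

theorem sep_monomial (v : Fin m ⊕ Fin m) (γ : Fin m ⊕ Fin m →₀ ℕ) (a : ℂ) :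
    sep v (monomial γ a) = Polynomial.monomial (γ v) (monomial (γ.erase v) a) := by
  rw [sep, aeval_monomial, Finsupp.prod_fintype _ _ (fun i => pow_zero _), prod_erase_split]
  rw [← Polynomial.C_mul_X_pow_eq_monomial]
  have h1 : monomial (γ.erase v) a = C a * ∏ w, X w ^ (γ.erase v) w := by
    rw [monomial_eq, Finsupp.prod_fintype _ _ (fun i => pow_zero _)]
  rw [h1, map_mul, map_prod]
  simp only [map_pow]
  have h2 : algebraMap ℂ (Polynomial (MvPolynomial (Fin m ⊕ Fin m) ℂ)) a =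
    Polynomial.C (C a) := rfl
  rw [h2]
  ring

theorem num_monomial (v : Fin m ⊕ Fin m) (u : Fin m ⊕ Fin m → ℂ) (γ : Fin m ⊕ Fin m →₀ ℕ)
    (a : ℂ) : num v u (monomial γ a) =
      Polynomial.monomial (γ v) (a * ∏ w, u w ^ (γ.erase v) w) := by
  rw [num, aeval_monomial, Finsupp.prod_fintype _ _ (fun i => pow_zero _), prod_erase_split]
  rw [← Polynomial.C_mul_X_pow_eq_monomial, map_mul, map_prod]
  simp only [map_pow]
  have h2 : algebraMap ℂ (Polynomial ℂ) a = Polynomial.C a := rfl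
  rw [h2]
  ring

theorem num_eq_map (v : Fin m ⊕ Fin m) (u : Fin m ⊕ Fin m → ℂ)
    (G : MvPolynomial (Fin m ⊕ Fin m) ℂ) : num v u G = (sep v G).map (eval u) := by
  conv_lhs => rw [G.as_sum, map_sum]
  conv_rhs => rw [G.as_sum, map_sum, Polynomial.map_sum]
  refine Finset.sum_congr rfl fun γ _ => ?_
  rw [num_monomial, sep_monomial, Polynomial.map_monomial, eval_monomial,
    Finsupp.prod_fintype _ _ (fun i => pow_zero _)]

theorem num_coeff (v : Fin m ⊕ Fin m) (u : Fin m ⊕ Fin m → ℂ)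
    (G : MvPolynomial (Fin m ⊕ Fin m) ℂ) (n : ℕ) :
    (num v u G).coeff n = eval u ((sep v G).coeff n) := by
  rw [num_eq_map, Polynomial.coeff_map]

open Classical in
theorem num_eval (v : Fin m ⊕ Fin m) (u : Fin m ⊕ Fin m → ℂ)
    (G : MvPolynomial (Fin m ⊕ Fin m) ℂ) (x : ℂ) :
    (num v u G).eval x = eval (Function.update u v x) G := by
  have h1 : (Polynomial.aeval x).comp (num v u) =
      (aeval (Function.update u v x) : MvPolynomial (Fin m ⊕ Fin m) ℂ →ₐ[ℂ] ℂ) := by
    ext w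
    by_cases hw : w = v
    · subst hw
      simp [num]
    · simp [num, hw]
  have h2 := DFunLike.congr_fun h1 G
  simpa using h2

open Classical in
theorem sep_coeff (v : Fin m ⊕ Fin m) (G : MvPolynomial (Fin m ⊕ Fin m) ℂ) (n : ℕ) :
    (sep v G).coeff n =
      ∑ γ ∈ G.support with γ v = n, monomial (γ.erase v) (coeff γ G) := by
  conv_lhs => rw [G.as_sum, map_sum, Polynomial.finsetSum_coeff]
  rw [Finset.sum_filter]
  refine Finset.sum_congr rfl fun γ _ => ?_
  rw [sep_monomial, Polynomial.coeff_monomial]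

theorem erase_inj (v : Fin m ⊕ Fin m) {γ γ' : Fin m ⊕ Fin m →₀ ℕ} (h : γ.erase v = γ'.erase v)
    (h' : γ v = γ' v) : γ = γ' := by
  rw [← Finsupp.single_add_erase v γ, ← Finsupp.single_add_erase v γ', h, h']

theorem coeff_sep (v : Fin m ⊕ Fin m) (G : MvPolynomial (Fin m ⊕ Fin m) ℂ)
    (γ : Fin m ⊕ Fin m →₀ ℕ) :
    coeff (γ.erase v) ((sep v G).coeff (γ v)) = coeff γ G := by
  classical
  rw [sep_coeff, coeff_sum]
  simp only [coeff_monomial]
  by_cases hγ : γ ∈ G.support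
  · rw [Finset.sum_eq_single_of_mem γ (by simpa using hγ)]
    · simp
    · intro γ' h' hne
      rw [if_neg]
      intro h3
      exact hne (erase_inj v h3 (Finset.mem_filter.mp h').2)
  · rw [notMem_support_iff.mp hγ]
    apply Finset.sum_eq_zero
    intro γ' h'
    rw [if_neg]
    intro h3
    obtain ⟨h4, h5⟩ := Finset.mem_filter.mp h'
    exact hγ (erase_inj v h3 h5 ▸ h4)

theorem exists_of_mem_sep (v : Fin m ⊕ Fin m) (G : MvPolynomial (Fin m ⊕ Fin m) ℂ) (n : ℕ)
    {ρ : Fin m ⊕ Fin m →₀ ℕ} (h : ρ ∈ ((sep v G).coeff n).support) :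
    ∃ γ ∈ G.support, γ v = n ∧ ρ = γ.erase v := by
  classical
  rw [sep_coeff] at h
  obtain ⟨γ, hγ, h2⟩ := Finset.mem_biUnion.mp (support_sum h)
  obtain ⟨h3, h4⟩ := Finset.mem_filter.mp hγ
  refine ⟨γ, h3, h4, ?_⟩
  have h5 := support_monomial_subset h2
  exact Finset.mem_singleton.mp h5

theorem le_natDegree_sep (v : Fin m ⊕ Fin m) {G : MvPolynomial (Fin m ⊕ Fin m) ℂ}
    {γ : Fin m ⊕ Fin m →₀ ℕ} (h : γ ∈ G.support) : γ v ≤ (sep v G).natDegree := by
  apply Polynomial.le_natDegree_of_ne_zero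
  intro h0
  have h1 := coeff_sep v G γ
  rw [h0, coeff_zero] at h1
  exact (mem_support_iff.mp h) h1.symm

theorem sep_ne_zero (v : Fin m ⊕ Fin m) {G : MvPolynomial (Fin m ⊕ Fin m) ℂ} (hG : G ≠ 0) :
    sep v G ≠ 0 := by
  intro h
  apply hG
  ext γ
  rw [← coeff_sep v G γ, h]
  simp

theorem sep_shift (c : ℂ) (i₀ : Fin m) (G : MvPolynomial (Fin m ⊕ Fin m) ℂ) :
    sep (Sum.inr i₀) (shift c G) =
      (sep (Sum.inr i₀) G).map (shift c : MvPolynomial (Fin m ⊕ Fin m) ℂ →ₐ[ℂ] _).toRingHom := by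
  have h1 : (sep (Sum.inr i₀)).comp (shift c) =
      (Polynomial.mapAlgHom (shift c)).comp (sep (m := m) (Sum.inr i₀)) := by
    ext1 w
    rcases w with i | i
    · simp [sep, shift]
    · by_cases hi : i = i₀
      · subst hi
        simp [sep, shift]
      · simp [sep, shift, hi]
  exact DFunLike.congr_fun h1 G

theorem shift_shift (c d : ℂ) (G : MvPolynomial (Fin m ⊕ Fin m) ℂ) :
    shift c (shift d G) = shift (c + d) G := by
  have h1 : (shift c).comp (shift d) =
      (shift (c + d) : MvPolynomial (Fin m ⊕ Fin m) ℂ →ₐ[ℂ] _) := by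
    ext1 w
    rcases w with i | i
    · simp [shift, add_assoc]
    · simp [shift]
  exact DFunLike.congr_fun h1 G

theorem shift_zero (G : MvPolynomial (Fin m ⊕ Fin m) ℂ) : shift 0 G = G := by
  have h1 : (shift 0 : MvPolynomial (Fin m ⊕ Fin m) ℂ →ₐ[ℂ] _) =
      AlgHom.id ℂ (MvPolynomial (Fin m ⊕ Fin m) ℂ) := by
    ext1 w
    rcases w with i | i
    · simp [shift]
    · simp [shift]
  exact DFunLike.congr_fun h1 G

theorem eval_shift (c : ℂ) (G : MvPolynomial (Fin m ⊕ Fin m) ℂ) (u : Fin m ⊕ Fin m → ℂ) :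
    eval u (shift c G) = eval (Sum.elim (fun i => u (Sum.inl i) + c) fun i => u (Sum.inr i)) G := by
  have h1 : (aeval u).comp (shift c) =
      (aeval (Sum.elim (fun i => u (Sum.inl i) + c) fun i => u (Sum.inr i)) :
        MvPolynomial (Fin m ⊕ Fin m) ℂ →ₐ[ℂ] ℂ) := by
    ext w
    rcases w with i | i
    · simp [shift]
    · simp [shift]
  exact DFunLike.congr_fun h1 G

end

end M0n


end

section

/-!
# MP_cc45c1_ag: the weights of a tensor
-/

set_option autoImplicit false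

open MvPolynomial

namespace M0n

noncomputable section

variable {m : ℕ}

/-- The divisibility relations of all the boundary divisors `{t_i = 0, i ∈ I}` and
`{t_i = ∞, i ∈ I}`. -/
def DvdProp (G : MvPolynomial (Fin m ⊕ Fin m) ℂ) : Prop :=
  ∀ (I : Finset (Fin m)) (i₀ : Fin m), i₀ ∈ I → ∀ δ : ℤ, (δ = 1 ∨ δ = -1) →
    ∀ (y : Fin m → ℂ) (χ : Fin m → ℤ),
      (Polynomial.X - Polynomial.C (-∑ i ∈ I.erase i₀, y i)) ^ (-(δ * ∑ i ∈ I, χ i)).toNat ∣
        ghat (gchi G χ) i₀ y

theorem dvd_natAbs {G : MvPolynomial (Fin m ⊕ Fin m) ℂ} (h : DvdProp G) {I : Finset (Fin m)}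
    {i₀ : Fin m} (hi : i₀ ∈ I) (y : Fin m → ℂ) (χ : Fin m → ℤ) {a : ℂ}
    (ha : a = -∑ i ∈ I.erase i₀, y i) :
    (Polynomial.X - Polynomial.C a) ^ (∑ i ∈ I, χ i).natAbs ∣ ghat (gchi G χ) i₀ y := by
  subst ha
  rcases le_total 0 (∑ i ∈ I, χ i) with h1 | h1
  · have h2 := h I i₀ hi (-1) (Or.inr rfl) y χ
    have h3 : (-(-1 * ∑ i ∈ I, χ i)).toNat = (∑ i ∈ I, χ i).natAbs := by omega
    rwa [h3] at h2
  · have h2 := h I i₀ hi 1 (Or.inl rfl) y χ
    have h3 : (-(1 * ∑ i ∈ I, χ i)).toNat = (∑ i ∈ I, χ i).natAbs := by omega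
    rwa [h3] at h2

/-- The sum of the multiplicities of roots is at most the degree. -/
theorem sum_mult_le {P : Polynomial ℂ} (hP : P ≠ 0) (S : Finset ℂ) (n : ℂ → ℕ)
    (h : ∀ a ∈ S, (Polynomial.X - Polynomial.C a) ^ n a ∣ P) : ∑ a ∈ S, n a ≤ P.natDegree := by
  classical
  calc ∑ a ∈ S, n a ≤ ∑ a ∈ S, P.roots.count a := by
        refine Finset.sum_le_sum fun a ha => ?_
        rw [Polynomial.count_roots]
        exact (Polynomial.le_rootMultiplicity_iff hP).mpr (h a ha)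
    _ ≤ ∑ a ∈ P.roots.toFinset, P.roots.count a := by
        apply Finset.sum_le_sum_of_ne_zero
        intro a _ h1
        rw [Multiset.mem_toFinset]
        exact Multiset.count_ne_zero.mp h1
    _ = P.roots.card := Multiset.toFinset_sum_count_eq _
    _ ≤ P.natDegree := Polynomial.card_roots' P

theorem chi_fib_inj {γ γ' : Fin m ⊕ Fin m →₀ ℕ} (h : chi γ = chi γ') (h' : fib γ = fib γ') :
    γ = γ' := by
  ext w
  rcases w with i | i
  · have h1 := congrFun h i
    have h2 := DFunLike.congr_fun h' i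
    simp only [chi, fib_apply] at h1 h2
    omega
  · exact DFunLike.congr_fun h' i

theorem gchi_ne_zero {G : MvPolynomial (Fin m ⊕ Fin m) ℂ} {γ : Fin m ⊕ Fin m →₀ ℕ}
    (hγ : γ ∈ G.support) : gchi G (chi γ) ≠ 0 := by
  classical
  intro h
  have h1 : coeff (fib γ) (gchi G (chi γ)) = coeff γ G := by
    rw [gchi, coeff_sum]
    simp only [coeff_monomial]
    rw [Finset.sum_eq_single_of_mem γ (by simpa using hγ)]
    · simp
    · intro γ' h' hne
      rw [if_neg]
      intro h3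
      exact hne (chi_fib_inj (Finset.mem_filter.mp h').2 h3)
  rw [h, coeff_zero] at h1
  exact (mem_support_iff.mp hγ) h1.symm

theorem natDegree_ghat_le (G : MvPolynomial (Fin m ⊕ Fin m) ℂ) (χ : Fin m → ℤ) (i₀ : Fin m)
    (y : Fin m → ℂ) :
    (ghat (gchi G χ) i₀ y).natDegree ≤ (sep (Sum.inr i₀) G).natDegree := by
  classical
  rw [ghat, gchi, map_sum]
  apply Polynomial.natDegree_sum_le_of_forall_le
  intro γ hγ
  have h1 : γ ∈ G.support := (Finset.mem_filter.mp hγ).1
  refine le_trans ?_ (le_natDegree_sep (Sum.inr i₀) h1)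
  rw [aeval_monomial, Finsupp.prod_fintype _ _ (fun i => pow_zero _),
    ← Finset.mul_prod_erase Finset.univ _ (Finset.mem_univ i₀)]
  simp only [if_true]
  have h2 : (∏ x ∈ Finset.univ.erase i₀,
      (if x = i₀ then Polynomial.X else Polynomial.C (y x)) ^ (fib γ) x) =
      Polynomial.C (∏ x ∈ Finset.univ.erase i₀, y x ^ (fib γ) x) := by
    rw [map_prod]
    refine Finset.prod_congr rfl fun x hx => ?_
    rw [if_neg (Finset.mem_erase.mp hx).1, map_pow]
  rw [h2]
  have h3 : algebraMap ℂ (Polynomial ℂ) (coeff γ G) = Polynomial.C (coeff γ G) := rfl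
  rw [h3]
  refine (Polynomial.natDegree_C_mul_le _ _).trans ?_
  refine (Polynomial.natDegree_mul_C_le _ _).trans ?_
  rw [Polynomial.natDegree_X_pow]
  rfl

theorem eval_ghat (g : MvPolynomial (Fin m) ℂ) (i₀ : Fin m) (y : Fin m → ℂ) :
    (ghat g i₀ y).eval (y i₀) = eval y g := by
  have h1 := aeval_ghat (L := ℂ) g i₀ y (y i₀)
  have h2 : (fun k => if k = i₀ then y i₀ else algebraMap ℂ ℂ (y k)) = y := by
    ext k
    by_cases hk : k = i₀
    · simp [hk]
    · simp [hk]
  rw [h2] at h1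
  simpa using h1.symm

theorem exists_generic {g : MvPolynomial (Fin m) ℂ} (hg : g ≠ 0) {i₁ : Fin m}
    {J : Finset (Fin m)} (hJ : J.Nonempty) (h1 : i₁ ∉ J) :
    ∃ y : Fin m → ℂ, eval y g ≠ 0 ∧ y i₁ ≠ 0 ∧ ∑ j ∈ J, y j ≠ 0 ∧ y i₁ ≠ ∑ j ∈ J, y j ∧
      y i₁ + ∑ j ∈ J, y j ≠ 0 := by
  classical
  let σ : MvPolynomial (Fin m) ℂ := ∑ j ∈ J, X j
  have hσ : σ ≠ 0 := by
    intro h
    have h2 := congrArg (eval fun _ => (1 : ℂ)) h
    simp only [σ, map_sum, eval_X, map_zero, Finset.sum_const, nsmul_eq_mul, mul_one] at h2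
    exact hJ.card_ne_zero (by exact_mod_cast h2)
  have hX : ∀ ε : ℂ, X i₁ + C ε * σ ≠ 0 := by
    intro ε h
    have h2 := congrArg (eval fun k => if k = i₁ then (1 : ℂ) else 0) h
    simp only [σ, map_add, map_mul, map_sum, eval_X, eval_C, map_zero, if_true] at h2
    rw [Finset.sum_eq_zero (fun j hj => if_neg (fun h3 : j = i₁ => h1 (h3 ▸ hj)))] at h2
    simp at h2
  have hP : g * (X i₁ + C 0 * σ) * σ * (X i₁ + C (-1) * σ) * (X i₁ + C 1 * σ) ≠ 0 :=
    mul_ne_zero (mul_ne_zero (mul_ne_zero (mul_ne_zero hg (hX 0)) hσ) (hX (-1))) (hX 1)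
  have h3 : ∃ y, eval y (g * (X i₁ + C 0 * σ) * σ * (X i₁ + C (-1) * σ) * (X i₁ + C 1 * σ)) ≠ 0 := by
    by_contra hn
    push Not at hn
    exact hP (MvPolynomial.funext fun y => by rw [hn y, map_zero])
  obtain ⟨y, hy⟩ := h3
  refine ⟨y, ?_⟩
  simp only [σ, map_mul, map_add, map_sum, eval_X, eval_C, mul_ne_zero_iff, zero_mul, add_zero,
    one_mul, neg_one_mul, ← sub_eq_add_neg] at hy
  obtain ⟨⟨⟨⟨h4, h5⟩, h6⟩, h7⟩, h8⟩ := hy
  exact ⟨h4, h5, h6, fun h => h7 (sub_eq_zero.mpr h), h8⟩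

/-- The indices other than `i₀, i₁`. -/
def rest (i₀ i₁ : Fin m) : Finset (Fin m) := (Finset.univ.erase i₀).erase i₁

theorem weight_le {G : MvPolynomial (Fin m ⊕ Fin m) ℂ} (h : DvdProp G) {i₀ i₁ : Fin m}
    (h01 : i₁ ≠ i₀) (hJ : (rest i₀ i₁).Nonempty) {γ : Fin m ⊕ Fin m →₀ ℕ}
    (hγ : γ ∈ G.support) :
    (chi γ i₀).natAbs + (chi γ i₀ + chi γ i₁).natAbs +
      (chi γ i₀ + ∑ j ∈ rest i₀ i₁, chi γ j).natAbs +
      (chi γ i₀ + chi γ i₁ + ∑ j ∈ rest i₀ i₁, chi γ j).natAbs ≤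
      (sep (Sum.inr i₀) G).natDegree := by
  classical
  have hi₀ : i₀ ∉ rest i₀ i₁ := by simp [rest]
  have hi₁ : i₁ ∉ rest i₀ i₁ := by simp [rest]
  have huniv : (Finset.univ : Finset (Fin m)) = insert i₀ (insert i₁ (rest i₀ i₁)) := by
    ext k
    simp only [rest, Finset.mem_univ, Finset.mem_insert, Finset.mem_erase, true_iff]
    tauto
  have hi₀' : i₀ ∉ insert i₁ (rest i₀ i₁) := by
    simp only [Finset.mem_insert, not_or]
    exact ⟨h01.symm, hi₀⟩
  obtain ⟨y, hy0, hy1, hy2, hy3, hy4⟩ := exists_generic (gchi_ne_zero hγ) hJ hi₁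
  set P := ghat (gchi G (chi γ)) i₀ y with hP
  have hP0 : P ≠ 0 := by
    intro h0
    have h1 := eval_ghat (gchi G (chi γ)) i₀ y
    rw [← hP, h0, Polynomial.eval_zero] at h1
    exact hy0 h1.symm
  refine le_trans ?_ (natDegree_ghat_le G (chi γ) i₀ y)
  rw [← hP]
  set Y1 := y i₁ with hY1
  set Y2 := ∑ j ∈ rest i₀ i₁, y j with hY2
  have d1 : (Polynomial.X - Polynomial.C (0 : ℂ)) ^ (chi γ i₀).natAbs ∣ P := by
    have := dvd_natAbs h (I := {i₀}) (i₀ := i₀) (by simp) y (chi γ) (a := 0) (by simp)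
    simpa using this
  have d2 : (Polynomial.X - Polynomial.C (-Y1)) ^ (chi γ i₀ + chi γ i₁).natAbs ∣ P := by
    have := dvd_natAbs h (I := {i₀, i₁}) (i₀ := i₀) (by simp) y (chi γ) (a := -Y1) (by
      rw [Finset.erase_insert (by simpa using h01.symm), Finset.sum_singleton])
    rwa [Finset.sum_pair h01.symm] at this
  have d3 : (Polynomial.X - Polynomial.C (-Y2)) ^
      (chi γ i₀ + ∑ j ∈ rest i₀ i₁, chi γ j).natAbs ∣ P := by
    have := dvd_natAbs h (I := insert i₀ (rest i₀ i₁)) (i₀ := i₀) (by simp) y (chi γ)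
      (a := -Y2) (by rw [Finset.erase_insert hi₀])
    rwa [Finset.sum_insert hi₀] at this
  have d4 : (Polynomial.X - Polynomial.C (-(Y1 + Y2))) ^
      (chi γ i₀ + chi γ i₁ + ∑ j ∈ rest i₀ i₁, chi γ j).natAbs ∣ P := by
    have := dvd_natAbs h (I := insert i₀ (insert i₁ (rest i₀ i₁))) (i₀ := i₀) (by simp) y (chi γ)
      (a := -(Y1 + Y2)) (by rw [Finset.erase_insert hi₀', Finset.sum_insert hi₁])
    rwa [Finset.sum_insert hi₀', Finset.sum_insert hi₁, ← add_assoc] at this
  let n : ℂ → ℕ := fun a => if a = 0 then (chi γ i₀).natAbs else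
    if a = -Y1 then (chi γ i₀ + chi γ i₁).natAbs else
    if a = -Y2 then (chi γ i₀ + ∑ j ∈ rest i₀ i₁, chi γ j).natAbs else
    (chi γ i₀ + chi γ i₁ + ∑ j ∈ rest i₀ i₁, chi γ j).natAbs
  have e1 : ¬ (-Y1 = 0) := by simpa using hy1
  have e2 : ¬ (-Y2 = 0) := by simpa using hy2
  have e3 : ¬ (-Y2 = -Y1) := fun h => hy3 (neg_injective h).symm
  have e4 : ¬ (-(Y1 + Y2) = 0) := by
    intro h
    exact hy4 (neg_eq_zero.mp h)
  have e5 : ¬ (-(Y1 + Y2) = -Y1) := by
    intro h
    have := neg_injective h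
    exact hy2 (by linear_combination this)
  have e6 : ¬ (-(Y1 + Y2) = -Y2) := by
    intro h
    have := neg_injective h
    exact hy1 (by linear_combination this)
  have h5 := sum_mult_le hP0 {0, -Y1, -Y2, -(Y1 + Y2)} n (by
    intro a ha
    simp only [Finset.mem_insert, Finset.mem_singleton] at ha
    rcases ha with rfl | rfl | rfl | rfl
    · simpa only [n, if_true] using d1
    · simpa only [n, if_neg e1, if_true] using d2
    · simpa only [n, if_neg e2, if_neg e3, if_true] using d3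
    · simpa only [n, if_neg e4, if_neg e5, if_neg e6] using d4)
  rw [Finset.sum_insert, Finset.sum_insert, Finset.sum_insert, Finset.sum_singleton] at h5
  · simp only [n, if_true, if_neg e1, if_neg e2, if_neg e3, if_neg e4, if_neg e5, if_neg e6] at h5
    omega
  · simp only [Finset.mem_singleton]
    exact fun h => e6 h.symm
  · simp only [Finset.mem_insert, Finset.mem_singleton, not_or]
    exact ⟨fun h => e3 h.symm, fun h => e5 h.symm⟩
  · simp only [Finset.mem_insert, Finset.mem_singleton, not_or]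
    exact ⟨fun h => e1 h.symm, fun h => e2 h.symm, fun h => e4 h.symm⟩

end

end M0n


end

section

/-!
# MP_cc45c1_ag: the functional equations of the leading coefficient
-/

set_option autoImplicit false

open MvPolynomial

namespace M0n

noncomputable section

variable {m : ℕ}

/-- The possible weights. -/
def WOk (κ : ℕ) (i₀ i₁ : Fin m) (γ : Fin m ⊕ Fin m →₀ ℕ) : Prop :=
  ((γ (Sum.inl i₀) : ℤ) - κ).natAbs + ((γ (Sum.inl i₀) : ℤ) - κ + chi γ i₁).natAbs +
    ((γ (Sum.inl i₀) : ℤ) - κ + ∑ j ∈ rest i₀ i₁, chi γ j).natAbs +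
    ((γ (Sum.inl i₀) : ℤ) - κ + chi γ i₁ + ∑ j ∈ rest i₀ i₁, chi γ j).natAbs ≤ κ

/-- The properties of the leading coefficient. -/
structure Good (κ : ℕ) (i₀ i₁ : Fin m) (B : MvPolynomial (Fin m ⊕ Fin m) ℂ) : Prop where
  w : ∀ γ ∈ B.support, WOk κ i₀ i₁ γ
  z : ∀ γ ∈ B.support, γ (Sum.inr i₀) = 0

theorem good_sep {G : MvPolynomial (Fin m ⊕ Fin m) ℂ} (h : DvdProp G) {i₀ i₁ : Fin m}
    (h01 : i₁ ≠ i₀) (hJ : (rest i₀ i₁).Nonempty) :
    Good (sep (Sum.inr i₀) G).natDegree i₀ i₁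
      ((sep (Sum.inr i₀) G).coeff (sep (Sum.inr i₀) G).natDegree) := by
  constructor
  · intro γ hγ
    obtain ⟨γ', h1, h2, rfl⟩ := exists_of_mem_sep _ _ _ hγ
    have h3 := weight_le h h01 hJ h1
    have h4 : ∀ j, j ≠ i₀ → chi (γ'.erase (Sum.inr i₀)) j = chi γ' j := by
      intro j hj
      rw [chi, chi, Finsupp.erase_ne (by simp), Finsupp.erase_ne (by simpa using hj)]
    have h5 : chi γ' i₀ = (γ' (Sum.inl i₀) : ℤ) - (sep (Sum.inr i₀) G).natDegree := by
      rw [chi, h2]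
    have h6 : ∑ j ∈ rest i₀ i₁, chi (γ'.erase (Sum.inr i₀)) j =
        ∑ j ∈ rest i₀ i₁, chi γ' j := by
      refine Finset.sum_congr rfl fun j hj => h4 j ?_
      simp only [rest, Finset.mem_erase] at hj
      exact hj.2.1
    rw [WOk, h4 i₁ h01, h6, Finsupp.erase_ne (by simp), ← h5]
    exact h3
  · intro γ hγ
    obtain ⟨γ', h1, h2, rfl⟩ := exists_of_mem_sep _ _ _ hγ
    exact Finsupp.erase_same

/-- A polynomial in one variable with few exponents and a multiple root. -/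
theorem uni {P : Polynomial ℂ} (hP : P ≠ 0) {M κ : ℕ} (hκ : κ ≤ 2 * M) {ε : ℂ} (hε : ε ≠ 0)
    (hd : (Polynomial.X - Polynomial.C ε) ^ M ∣ P) (b c : ℤ)
    (hw : ∀ n ∈ P.support, ((n : ℤ) - κ).natAbs + ((n : ℤ) - κ + b).natAbs +
      ((n : ℤ) - κ + c).natAbs + ((n : ℤ) - κ + b + c).natAbs ≤ κ) :
    κ = 2 * M ∧ ∃ (a : ℂ) (l : ℕ), P = Polynomial.C a * Polynomial.X ^ l *
      (Polynomial.X - Polynomial.C ε) ^ M ∧ 4 * (l : ℤ) + 2 * (b + c) = 3 * κ := by
  set l := P.natTrailingDegree with hl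
  have h1 : Polynomial.X ^ l ∣ P := by
    rw [Polynomial.X_pow_dvd_iff]
    intro d hd
    exact Polynomial.coeff_eq_zero_of_lt_natTrailingDegree hd
  obtain ⟨P', hP'⟩ := h1
  have hP'0 : P' ≠ 0 := by
    rintro rfl
    exact hP (by rw [hP', mul_zero])
  have h2 : IsCoprime ((Polynomial.X - Polynomial.C ε) ^ M) (Polynomial.X ^ l) := by
    apply IsCoprime.pow
    have h3 : (Polynomial.X : Polynomial ℂ) = Polynomial.X - Polynomial.C 0 := by simp
    conv_rhs => rw [h3]
    apply Polynomial.isCoprime_X_sub_C_of_isUnit_sub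
    simpa using hε
  rw [hP'] at hd
  have h3 : (Polynomial.X - Polynomial.C ε) ^ M ∣ P' := h2.dvd_of_dvd_mul_left hd
  obtain ⟨Q, hQ⟩ := h3
  have hQ0 : Q ≠ 0 := by
    rintro rfl
    exact hP'0 (by rw [hQ, mul_zero])
  have hX0 : ((Polynomial.X - Polynomial.C ε) ^ M : Polynomial ℂ) ≠ 0 :=
    pow_ne_zero _ (Polynomial.X_sub_C_ne_zero ε)
  have h4 : P.natDegree = l + (M + Q.natDegree) := by
    rw [hP', Polynomial.natDegree_mul (pow_ne_zero _ Polynomial.X_ne_zero) hP'0, hQ,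
      Polynomial.natDegree_mul hX0 hQ0, Polynomial.natDegree_X_pow, Polynomial.natDegree_pow,
      Polynomial.natDegree_X_sub_C, mul_one]
  have h5 := hw P.natDegree (Polynomial.natDegree_mem_support_of_nonzero hP)
  have h6 := hw l (by
    rw [hl]
    exact Polynomial.natTrailingDegree_mem_support_of_nonzero hP)
  rw [h4] at h5
  have h7 : Q.natDegree = 0 ∧ κ = 2 * M ∧ 4 * (l : ℤ) + 2 * (b + c) = 3 * κ := by
    push_cast at h5
    omega
  refine ⟨h7.2.1, Q.coeff 0, l, ?_, h7.2.2⟩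
  rw [hP', hQ, Polynomial.eq_C_of_natDegree_eq_zero h7.1]
  simp only [Polynomial.coeff_C_zero]
  ring

open Classical in
/-- The coefficient of a monomial `ρ` in the other variables. -/
def slice (v : Fin m ⊕ Fin m) (B : MvPolynomial (Fin m ⊕ Fin m) ℂ)
    (ρ : Fin m ⊕ Fin m →₀ ℕ) : Polynomial ℂ :=
  ∑ γ ∈ B.support with γ.erase v = ρ, Polynomial.monomial (γ v) (coeff γ B)

theorem exists_of_mem_slice {v : Fin m ⊕ Fin m} {B : MvPolynomial (Fin m ⊕ Fin m) ℂ}
    {ρ : Fin m ⊕ Fin m →₀ ℕ} {n : ℕ} (h : n ∈ (slice v B ρ).support) :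
    ∃ γ ∈ B.support, γ.erase v = ρ ∧ γ v = n := by
  classical
  by_contra hn
  push Not at hn
  apply Polynomial.mem_support_iff.mp h
  rw [slice, Polynomial.finsetSum_coeff]
  apply Finset.sum_eq_zero
  intro γ hγ
  obtain ⟨h1, h2⟩ := Finset.mem_filter.mp hγ
  rw [Polynomial.coeff_monomial, if_neg (hn γ h1 h2)]

theorem coeff_slice (v : Fin m ⊕ Fin m) (B : MvPolynomial (Fin m ⊕ Fin m) ℂ)
    (γ : Fin m ⊕ Fin m →₀ ℕ) :
    (slice v B (γ.erase v)).coeff (γ v) = coeff γ B := by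
  classical
  rw [slice, Polynomial.finsetSum_coeff]
  simp only [Polynomial.coeff_monomial]
  by_cases hγ : γ ∈ B.support
  · rw [Finset.sum_eq_single_of_mem γ (by simpa using hγ)]
    · simp
    · intro γ' h' hne
      rw [if_neg]
      intro h3
      exact hne (erase_inj v (Finset.mem_filter.mp h').2 h3)
  · rw [notMem_support_iff.mp hγ]
    apply Finset.sum_eq_zero
    intro γ' h'
    rw [if_neg]
    intro h3
    obtain ⟨h4, h5⟩ := Finset.mem_filter.mp h'
    exact hγ (erase_inj v h5 h3 ▸ h4)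

open Classical in
theorem num_eq_sum (v : Fin m ⊕ Fin m) (u : Fin m ⊕ Fin m → ℂ)
    (B : MvPolynomial (Fin m ⊕ Fin m) ℂ) :
    num v u B = ∑ ρ ∈ B.support.image (fun γ => γ.erase v), (∏ w, u w ^ ρ w) • slice v B ρ := by
  have h1 : ∀ γ ∈ B.support, (fun γ => γ.erase v) γ ∈ B.support.image (fun γ => γ.erase v) :=
    fun γ hγ => Finset.mem_image_of_mem _ hγ
  conv_lhs => rw [B.as_sum, map_sum]
  rw [← Finset.sum_fiberwise_of_maps_to h1]
  refine Finset.sum_congr rfl fun ρ _ => ?_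
  rw [slice, Finset.smul_sum]
  refine Finset.sum_congr rfl fun γ hγ => ?_
  have h2 := (Finset.mem_filter.mp hγ).2
  rw [num_monomial, Polynomial.smul_monomial, h2, smul_eq_mul, mul_comm]

/-- All the slices are in a subspace if all the specialisations are. -/
theorem slice_mem (v : Fin m ⊕ Fin m) (B : MvPolynomial (Fin m ⊕ Fin m) ℂ)
    (O : Submodule ℂ (Polynomial ℂ)) (h : ∀ u, num v u B ∈ O) (ρ : Fin m ⊕ Fin m →₀ ℕ) :
    slice v B ρ ∈ O := by
  classical
  by_cases hρ : ρ ∈ B.support.image (fun γ => γ.erase v)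
  · refine vf O (B.support.image (fun γ => γ.erase v)) (fun ρ => slice v B ρ) ?_ ρ hρ
    intro u
    rw [← num_eq_sum]
    exact h u
  · have h1 : slice v B ρ = 0 := by
      rw [slice, Finset.filter_eq_empty_iff.mpr, Finset.sum_empty]
      intro γ hγ h2
      exact hρ (Finset.mem_image.mpr ⟨γ, hγ, h2⟩)
    rw [h1]
    exact zero_mem O

/-- The scaling of a point. -/
def scl (l : ℂ) (u : Fin m ⊕ Fin m → ℂ) : Fin m ⊕ Fin m → ℂ :=
  Sum.elim (fun i => l * u (Sum.inl i)) (fun i => l⁻¹ * u (Sum.inr i))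

theorem prod_scl {l : ℂ} (hl : l ≠ 0) (u : Fin m ⊕ Fin m → ℂ) (ρ : Fin m ⊕ Fin m →₀ ℕ) :
    ∏ w, scl l u w ^ ρ w = l ^ (∑ j, chi ρ j) * ∏ w, u w ^ ρ w := by
  rw [Fintype.prod_sum_type, Fintype.prod_sum_type]
  simp only [scl, Sum.elim_inl, Sum.elim_inr, mul_pow, Finset.prod_mul_distrib, chi]
  rw [Finset.sum_sub_distrib, zpow_sub₀ hl, Finset.prod_pow_eq_pow_sum,
    Finset.prod_pow_eq_pow_sum]
  have h1 : l ^ (∑ j, (ρ (Sum.inl j) : ℤ)) = l ^ (∑ j, ρ (Sum.inl j)) := by
    rw [← zpow_natCast]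
    push_cast
    rfl
  have h2 : l ^ (∑ j, (ρ (Sum.inr j) : ℤ)) = l ^ (∑ j, ρ (Sum.inr j)) := by
    rw [← zpow_natCast]
    push_cast
    rfl
  rw [h1, h2, inv_pow]
  have := pow_ne_zero (∑ j, ρ (Sum.inr j)) hl
  field_simp

theorem sum_chi_erase {i₀ i₁ : Fin m} (h01 : i₁ ≠ i₀) {γ : Fin m ⊕ Fin m →₀ ℕ}
    (hz : γ (Sum.inr i₀) = 0) :
    ∑ j, chi (γ.erase (Sum.inl i₀)) j = chi γ i₁ + ∑ j ∈ rest i₀ i₁, chi γ j := by
  classical
  have hi₀ : i₀ ∉ rest i₀ i₁ := by simp [rest]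
  have hi₁ : i₁ ∉ rest i₀ i₁ := by simp [rest]
  have huniv : (Finset.univ : Finset (Fin m)) = insert i₀ (insert i₁ (rest i₀ i₁)) := by
    ext k
    simp only [rest, Finset.mem_univ, Finset.mem_insert, Finset.mem_erase, true_iff]
    tauto
  have hi₀' : i₀ ∉ insert i₁ (rest i₀ i₁) := by
    simp only [Finset.mem_insert, not_or]
    exact ⟨h01.symm, hi₀⟩
  have h4 : ∀ j, j ≠ i₀ → chi (γ.erase (Sum.inl i₀)) j = chi γ j := by
    intro j hj
    rw [chi, chi, Finsupp.erase_ne (by simpa using hj), Finsupp.erase_ne (by simp)]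
  have h5 : chi (γ.erase (Sum.inl i₀)) i₀ = 0 := by
    rw [chi, Finsupp.erase_same, Finsupp.erase_ne (by simp), hz]
    simp
  rw [huniv, Finset.sum_insert hi₀', Finset.sum_insert hi₁, h5, zero_add, h4 i₁ h01]
  congr 1
  refine Finset.sum_congr rfl fun j hj => h4 j ?_
  simp only [rest, Finset.mem_erase] at hj
  exact hj.2.1

/-- The structure of the slices. -/
theorem slice_eq {κ M : ℕ} {i₀ i₁ : Fin m} (h01 : i₁ ≠ i₀)
    {B : MvPolynomial (Fin m ⊕ Fin m) ℂ} (hB : Good κ i₀ i₁ B) (hκ : κ ≤ 2 * M) {ε : ℂ}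
    (hε : ε ≠ 0)
    (hd : ∀ u, (Polynomial.X - Polynomial.C ε) ^ M ∣ num (Sum.inl i₀) u B)
    {ρ : Fin m ⊕ Fin m →₀ ℕ} (hρ : slice (Sum.inl i₀) B ρ ≠ 0) :
    κ = 2 * M ∧ ∃ (a : ℂ) (l : ℕ), slice (Sum.inl i₀) B ρ = Polynomial.C a *
      Polynomial.X ^ l * (Polynomial.X - Polynomial.C ε) ^ M ∧
        2 * (l : ℤ) + ∑ j, chi ρ j = 3 * M := by
  have h1 : slice (Sum.inl i₀) B ρ ∈
      (Ideal.span {(Polynomial.X - Polynomial.C ε) ^ M}).restrictScalars ℂ :=
    slice_mem _ B _ (fun u => Ideal.mem_span_singleton.mpr (hd u)) ρ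
  have h2 := Ideal.mem_span_singleton.mp h1
  obtain ⟨n, hn⟩ := Polynomial.support_nonempty.mpr hρ
  obtain ⟨γ₀, hγ₀, hρ₀, -⟩ := exists_of_mem_slice hn
  have h3 := uni hρ hκ hε h2 (chi γ₀ i₁) (∑ j ∈ rest i₀ i₁, chi γ₀ j) (by
    intro n hn
    obtain ⟨γ, hγ, hρ', rfl⟩ := exists_of_mem_slice hn
    have h4 := hB.w γ hγ
    have h5 : ∀ j, j ≠ i₀ → chi γ j = chi γ₀ j := by
      intro j hj
      have h6 : γ.erase (Sum.inl i₀) = γ₀.erase (Sum.inl i₀) := by rw [hρ', hρ₀]
      have h7 := DFunLike.congr_fun h6 (Sum.inl j)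
      have h8 := DFunLike.congr_fun h6 (Sum.inr j)
      rw [Finsupp.erase_ne (by simpa using hj), Finsupp.erase_ne (by simpa using hj)] at h7
      rw [Finsupp.erase_ne (by simp), Finsupp.erase_ne (by simp)] at h8
      rw [chi, chi, h7, h8]
    have h9 : ∑ j ∈ rest i₀ i₁, chi γ j = ∑ j ∈ rest i₀ i₁, chi γ₀ j := by
      refine Finset.sum_congr rfl fun j hj => h5 j ?_
      simp only [rest, Finset.mem_erase] at hj
      exact hj.2.1
    rw [WOk, h5 i₁ h01, h9] at h4
    exact h4)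
  obtain ⟨h6, a, l, h7, h8⟩ := h3
  refine ⟨h6, a, l, h7, ?_⟩
  rw [← hρ₀, sum_chi_erase h01 (hB.z γ₀ hγ₀)]
  omega

/-- The functional equation of the leading coefficient. -/
theorem scaling {κ M : ℕ} {i₀ i₁ : Fin m} (h01 : i₁ ≠ i₀)
    {B : MvPolynomial (Fin m ⊕ Fin m) ℂ} (hB : Good κ i₀ i₁ B) (hκ : κ ≤ 2 * M) {ε : ℂ}
    (hε : ε ≠ 0)
    (hd : ∀ u, (Polynomial.X - Polynomial.C ε) ^ M ∣ num (Sum.inl i₀) u B)
    (u : Fin m ⊕ Fin m → ℂ) {l : ℂ} (hl : l ≠ 0) (x : ℂ) :
    (num (Sum.inl i₀) (scl l u) B).eval (l ^ 2 * x) * (x - ε) ^ M =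
      l ^ (3 * M) * (l ^ 2 * x - ε) ^ M * (num (Sum.inl i₀) u B).eval x := by
  classical
  rw [num_eq_sum, num_eq_sum, Polynomial.eval_finsetSum, Polynomial.eval_finsetSum,
    Finset.sum_mul, Finset.mul_sum]
  refine Finset.sum_congr rfl fun ρ _ => ?_
  rw [Polynomial.eval_smul, Polynomial.eval_smul, prod_scl hl]
  by_cases hρ : slice (Sum.inl i₀) B ρ = 0
  · simp [hρ]
  obtain ⟨-, a, k, h1, h2⟩ := slice_eq h01 hB hκ hε hd hρ
  rw [h1]
  simp only [Polynomial.eval_mul, Polynomial.eval_C, Polynomial.eval_pow, Polynomial.eval_X,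
    Polynomial.eval_sub, smul_eq_mul, mul_pow]
  have h3 : l ^ (∑ j, chi ρ j) * (l ^ 2) ^ k = l ^ (3 * M) := by
    rw [← zpow_natCast, ← zpow_natCast, ← zpow_natCast, ← zpow_mul, ← zpow_add₀ hl]
    congr 1
    push_cast
    linarith
  rw [← h3]
  ring

end

end M0n


end

section

/-!
# MP_cc45c1_ag: the leading coefficient vanishes
-/

set_option autoImplicit false

open MvPolynomial

namespace M0n

noncomputable section

variable {m : ℕ}

/-- The translation of a point. -/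
def trl (c : ℂ) (u : Fin m ⊕ Fin m → ℂ) : Fin m ⊕ Fin m → ℂ :=
  Sum.elim (fun i => u (Sum.inl i) + c) (fun i => u (Sum.inr i))

theorem num_shift (c : ℂ) (i₀ : Fin m) (B : MvPolynomial (Fin m ⊕ Fin m) ℂ)
    (u : Fin m ⊕ Fin m → ℂ) :
    num (Sum.inl i₀) u (shift c B) =
      (num (Sum.inl i₀) (trl c u) B).comp (Polynomial.X + Polynomial.C c) := by
  classical
  apply Polynomial.funext
  intro x
  rw [Polynomial.eval_comp, num_eval, num_eval, eval_shift]
  simp only [Polynomial.eval_add, Polynomial.eval_X, Polynomial.eval_C]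
  congr 2
  ext w
  rcases w with i | i
  · by_cases hi : i = i₀
    · subst hi
      simp
    · simp [hi, trl]
  · simp [trl]

theorem X_pow_dvd {κ M : ℕ} {i₀ i₁ : Fin m} {B : MvPolynomial (Fin m ⊕ Fin m) ℂ}
    (hB : Good κ i₀ i₁ B) (hM : 2 * M ≤ κ + 1) (u : Fin m ⊕ Fin m → ℂ) :
    Polynomial.X ^ M ∣ num (Sum.inl i₀) u B := by
  rw [B.as_sum, map_sum]
  apply Finset.dvd_sum
  intro γ hγ
  rw [num_monomial, ← Polynomial.C_mul_X_pow_eq_monomial]
  apply Dvd.dvd.mul_left
  apply pow_dvd_pow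
  have h1 := hB.w γ hγ
  rw [WOk] at h1
  omega

theorem sub_pow_dvd {κ M : ℕ} {i₀ i₁ : Fin m} {B : MvPolynomial (Fin m ⊕ Fin m) ℂ} {c : ℂ}
    (hB : Good κ i₀ i₁ (shift c B)) (hM : 2 * M ≤ κ + 1) (u : Fin m ⊕ Fin m → ℂ) :
    (Polynomial.X - Polynomial.C c) ^ M ∣ num (Sum.inl i₀) u B := by
  have h1 : B = shift (-c) (shift c B) := by
    rw [shift_shift, neg_add_cancel, shift_zero]
  rw [h1, num_shift]
  obtain ⟨Q, hQ⟩ := X_pow_dvd hB hM (trl (-c) u)
  rw [hQ, Polynomial.mul_comp, Polynomial.X_pow_comp, map_neg, ← sub_eq_add_neg]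
  exact dvd_mul_right _ _

/-- The invariance of the leading coefficient under translations. -/
theorem translation {κ M : ℕ} {i₀ i₁ : Fin m} (h01 : i₁ ≠ i₀)
    {B : MvPolynomial (Fin m ⊕ Fin m) ℂ} (hB : Good κ i₀ i₁ B)
    (hB' : Good κ i₀ i₁ (shift 1 B)) (hκ : κ ≤ 2 * M) (hM : 2 * M ≤ κ + 1)
    (u : Fin m ⊕ Fin m → ℂ) {s : ℂ} (hs : s ≠ 1) (x : ℂ) :
    (num (Sum.inl i₀) (trl s u) B).eval (x + 2 * s - s ^ 2) * (x * (x - 1)) ^ M =
      ((x + 2 * s - s ^ 2) * (x + 2 * s - s ^ 2 - 1)) ^ M *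
        (num (Sum.inl i₀) u B).eval x := by
  have h1s : 1 - s ≠ 0 := sub_ne_zero.mpr hs.symm
  set l : ℂ := (1 - s)⁻¹ with hl
  have hl0 : l ≠ 0 := inv_ne_zero h1s
  have hls : l * (1 - s) = 1 := inv_mul_cancel₀ h1s
  -- the scaling at the point `0`
  have e0 := scaling h01 hB hκ one_ne_zero (sub_pow_dvd hB' hM) u hl0 x
  -- the scaling at the point `1`
  have hB0 : Good κ i₀ i₁ (shift (-1) (shift 1 B)) := by
    rwa [shift_shift, neg_add_cancel, shift_zero]
  have e1 := scaling h01 hB' hκ (neg_ne_zero.mpr one_ne_zero) (sub_pow_dvd hB0 hM)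
    (trl (-1) (scl l u)) (inv_ne_zero hl0) (l ^ 2 * x - 1)
  rw [num_shift, num_shift, Polynomial.eval_comp, Polynomial.eval_comp] at e1
  simp only [Polynomial.eval_add, Polynomial.eval_X, Polynomial.eval_C] at e1
  have h2 : trl 1 (trl (-1) (scl l u)) = scl l u := by
    ext w
    rcases w with i | i
    · simp [trl]
    · simp [trl]
  have h3 : trl 1 (scl l⁻¹ (trl (-1) (scl l u))) = trl s u := by
    ext w
    rcases w with i | i
    · simp only [trl, scl, Sum.elim_inl]
      have : l⁻¹ = 1 - s := by rw [hl, inv_inv]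
      rw [this]
      linear_combination (u (Sum.inl i)) * hls
    · simp only [trl, scl, Sum.elim_inr]
      rw [inv_inv]
      field_simp
  have h4 : l⁻¹ ^ 2 * (l ^ 2 * x - 1) + 1 = x + 2 * s - s ^ 2 := by
    have : l⁻¹ = 1 - s := by rw [hl, inv_inv]
    rw [this]
    linear_combination x * (l * (1 - s) + 1) * hls
  have h5 : l ^ 2 * x - 1 + 1 = l ^ 2 * x := by ring
  have h6 : l⁻¹ ^ 2 * (l ^ 2 * x - 1) - -1 = x + 2 * s - s ^ 2 := by
    rw [sub_neg_eq_add, h4]
  have h7 : l ^ 2 * x - 1 - -1 = l ^ 2 * x := by ring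
  rw [h2, h3, h4, h5, h6, h7] at e1
  have h8 : l ^ 2 * x - 1 = l ^ 2 * (x + 2 * s - s ^ 2 - 1) := by
    linear_combination (l * (1 - s) + 1) * hls
  rw [h8] at e0
  -- combine
  have hlM : l ^ (2 * M) ≠ 0 := pow_ne_zero _ hl0
  apply mul_left_cancel₀ hlM
  generalize (num (Sum.inl i₀) (trl s u) B).eval (x + 2 * s - s ^ 2) = A at *
  generalize (num (Sum.inl i₀) (scl l u) B).eval (l ^ 2 * x) = A' at *
  generalize (num (Sum.inl i₀) u B).eval x = A'' at *
  generalize x + 2 * s - s ^ 2 = x₂ at *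
  have h9 : l⁻¹ ^ (3 * M) * l ^ (3 * M) = 1 := by
    rw [← mul_pow, inv_mul_cancel₀ hl0, one_pow]
  calc l ^ (2 * M) * (A * (x * (x - 1)) ^ M)
      = (A * (l ^ 2 * x) ^ M) * (x - 1) ^ M := by
        rw [mul_pow, mul_pow, pow_mul]
        ring
    _ = l⁻¹ ^ (3 * M) * x₂ ^ M * (A' * (x - 1) ^ M) := by
        rw [e1]
        ring
    _ = (l⁻¹ ^ (3 * M) * l ^ (3 * M)) * (x₂ ^ M * (l ^ 2 * (x₂ - 1)) ^ M * A'') := by
        rw [e0]
        ring
    _ = l ^ (2 * M) * ((x₂ * (x₂ - 1)) ^ M * A'') := by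
        rw [h9, one_mul, mul_pow, mul_pow, pow_mul]
        ring

end

end M0n


end

section

/-!
# MP_cc45c1_ag: the leading coefficient vanishes
-/

set_option autoImplicit false

open MvPolynomial

namespace M0n

noncomputable section

variable {m : ℕ}

/-- The leading coefficient is a multiple of `(x (x - 1)) ^ M`. -/
theorem xindep {κ M : ℕ} {i₀ i₁ : Fin m} (h01 : i₁ ≠ i₀)
    {B : MvPolynomial (Fin m ⊕ Fin m) ℂ} (hB : Good κ i₀ i₁ B)
    (hB' : Good κ i₀ i₁ (shift 1 B)) (hκ : κ ≤ 2 * M) (hM : 2 * M ≤ κ + 1)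
    (u : Fin m ⊕ Fin m → ℂ) :
    Polynomial.C (2 ^ M) * num (Sum.inl i₀) u B =
      Polynomial.C ((num (Sum.inl i₀) u B).eval 2) *
        (Polynomial.X * (Polynomial.X - 1)) ^ M := by
  rw [← sub_eq_zero]
  set D : Polynomial ℂ := Polynomial.C (2 ^ M) * num (Sum.inl i₀) u B -
    Polynomial.C ((num (Sum.inl i₀) u B).eval 2) *
        (Polynomial.X * (Polynomial.X - 1)) ^ M with hD
  let X₁ : Polynomial ℂ := Polynomial.C 2 + Polynomial.C 2 * Polynomial.X - Polynomial.X ^ 2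
  have key : D.comp (Polynomial.C 2 - Polynomial.C 2 * Polynomial.X ^ 2) *
      ((X₁ * (X₁ - 1)) ^ M * ((Polynomial.X - Polynomial.C 1) *
        (Polynomial.X - Polynomial.C (-1)))) = 0 := by
    apply Polynomial.funext
    intro s
    simp only [Polynomial.eval_mul, Polynomial.eval_comp, Polynomial.eval_sub, Polynomial.eval_C,
      Polynomial.eval_X, Polynomial.eval_pow, Polynomial.eval_one, Polynomial.eval_zero, X₁,
      Polynomial.eval_add]
    by_cases hs1 : s = 1
    · simp [hs1]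
    by_cases hs2 : s = -1
    · simp [hs2]
    have hs3 : -s ≠ 1 := fun h => hs2 (by rw [← h, neg_neg])
    have e1 := translation h01 hB hB' hκ hM u hs1 2
    have e2 := translation h01 hB hB' hκ hM (trl s u) hs3 (2 + 2 * s - s ^ 2)
    have h1 : trl (-s) (trl s u) = u := by
      ext w
      rcases w with i | i
      · simp [trl]
      · simp [trl]
    have h2 : (2 : ℂ) + 2 * s - s ^ 2 + 2 * -s - (-s) ^ 2 = 2 - 2 * s ^ 2 := by ring
    rw [h1, h2] at e2
    have h3 : (2 : ℂ) + 2 * 2 - 2 ^ 2 = 2 := by norm_num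
    have h4 : (((2 : ℂ) + 2 * s - s ^ 2) * (2 + 2 * s - s ^ 2 - 1)) ^ M *
        D.eval (2 - 2 * s ^ 2) = 0 := by
      rw [hD]
      simp only [Polynomial.eval_mul, Polynomial.eval_sub, Polynomial.eval_C,
        Polynomial.eval_X, Polynomial.eval_pow, Polynomial.eval_one]
      generalize (num (Sum.inl i₀) (trl s u) B).eval (2 + 2 * s - s ^ 2) = A at *
      generalize (num (Sum.inl i₀) u B).eval (2 - 2 * s ^ 2) = A' at *
      generalize (num (Sum.inl i₀) u B).eval 2 = A'' at *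
      have h5 : (2 : ℂ) * (2 - 1) = 2 := by norm_num
      rw [h5] at e1
      linear_combination (2 : ℂ) ^ M * e2 + ((2 - 2 * s ^ 2) * (2 - 2 * s ^ 2 - 1)) ^ M * e1
    linear_combination ((s - 1) * (s - (-1))) * h4
  have hX1 : X₁ ≠ 0 := by
    intro h
    have := congrArg (Polynomial.eval 0) h
    simp [X₁] at this
  have hX2 : X₁ - 1 ≠ 0 := by
    intro h
    have := congrArg (Polynomial.eval 0) h
    simp [X₁] at this
    norm_num at this
  have h6 : D.comp (Polynomial.C 2 - Polynomial.C 2 * Polynomial.X ^ 2) = 0 := by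
    rcases mul_eq_zero.mp key with h | h
    · exact h
    · exact absurd h (mul_ne_zero (pow_ne_zero _ (mul_ne_zero hX1 hX2))
        (mul_ne_zero (Polynomial.X_sub_C_ne_zero _) (Polynomial.X_sub_C_ne_zero _)))
  apply Polynomial.funext
  intro x
  obtain ⟨s, hs⟩ := IsAlgClosed.exists_pow_nat_eq ((2 - x) / 2) (n := 2) (by norm_num)
  have h7 := congrArg (Polynomial.eval s) h6
  rw [Polynomial.eval_comp] at h7
  simp only [Polynomial.eval_sub, Polynomial.eval_mul, Polynomial.eval_C, Polynomial.eval_pow,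
    Polynomial.eval_X, Polynomial.eval_zero] at h7
  have h8 : (2 : ℂ) - 2 * s ^ 2 = x := by
    rw [hs]
    ring
  rw [h8] at h7
  rw [h7, Polynomial.eval_zero]

/-- The weight of the leading coefficient. -/
theorem weight_eq {κ M : ℕ} {i₀ i₁ : Fin m} (h01 : i₁ ≠ i₀)
    {B : MvPolynomial (Fin m ⊕ Fin m) ℂ} (hB : Good κ i₀ i₁ B)
    (hB' : Good κ i₀ i₁ (shift 1 B)) (hκ : κ ≤ 2 * M) (hM : 2 * M ≤ κ + 1)
    {γ : Fin m ⊕ Fin m →₀ ℕ} (hγ : γ ∈ B.support) :
    ∑ j, chi (γ.erase (Sum.inl i₀)) j = M := by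
  have h1 : slice (Sum.inl i₀) B (γ.erase (Sum.inl i₀)) ≠ 0 := by
    intro h
    have h2 := coeff_slice (Sum.inl i₀) B γ
    rw [h, Polynomial.coeff_zero] at h2
    exact (mem_support_iff.mp hγ) h2.symm
  obtain ⟨h2, a, l, h3, h4⟩ := slice_eq h01 hB hκ one_ne_zero (sub_pow_dvd hB' hM) h1
  have h5 : slice (Sum.inl i₀) B (γ.erase (Sum.inl i₀)) ∈
      Submodule.span ℂ {((Polynomial.X * (Polynomial.X - 1)) ^ M : Polynomial ℂ)} := by
    apply slice_mem
    intro u
    have h6 := xindep h01 hB hB' hκ hM u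
    rw [Submodule.mem_span_singleton]
    refine ⟨(2 ^ M)⁻¹ * (num (Sum.inl i₀) u B).eval 2, ?_⟩
    rw [Polynomial.smul_eq_C_mul, map_mul, mul_assoc, ← h6, ← mul_assoc, ← map_mul,
      inv_mul_cancel₀ (pow_ne_zero _ two_ne_zero), map_one, one_mul]
  obtain ⟨b, h6⟩ := Submodule.mem_span_singleton.mp h5
  have hb : b ≠ 0 := by
    rintro rfl
    exact h1 (by rw [← h6, zero_smul])
  have ha : a ≠ 0 := by
    rintro rfl
    exact h1 (by rw [h3]; simp)
  have h7 := congrArg Polynomial.natDegree h6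
  have h8 : (Polynomial.X - 1 : Polynomial ℂ) = Polynomial.X - Polynomial.C 1 := by simp
  rw [h3, Polynomial.natDegree_smul _ hb, h8, mul_pow, Polynomial.natDegree_mul,
    Polynomial.natDegree_mul, Polynomial.natDegree_mul] at h7
  · simp only [Polynomial.natDegree_pow, Polynomial.natDegree_X,
      Polynomial.natDegree_X_sub_C, Polynomial.natDegree_C, mul_one] at h7
    omega
  · exact Polynomial.C_ne_zero.mpr ha
  · exact pow_ne_zero _ Polynomial.X_ne_zero
  · exact mul_ne_zero (Polynomial.C_ne_zero.mpr ha) (pow_ne_zero _ Polynomial.X_ne_zero)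
  · exact pow_ne_zero _ (Polynomial.X_sub_C_ne_zero _)
  · exact pow_ne_zero _ Polynomial.X_ne_zero
  · exact pow_ne_zero _ (Polynomial.X_sub_C_ne_zero _)

/-- The sum of the weights other than `i₀`. -/
def wt (i₀ : Fin m) (χ : Fin m → ℤ) : ℤ := ∑ j ∈ Finset.univ.erase i₀, χ j

/-- The leading coefficient vanishes on the hypersurface `∑ t_j p_j = 0`. -/
theorem vanish {G : MvPolynomial (Fin m ⊕ Fin m) ℂ} (h : DvdProp G) {i₀ i₁ : Fin m}
    (h01 : i₁ ≠ i₀) (n : ℕ)
    (hw : ∀ γ ∈ ((sep (Sum.inr i₀) G).coeff n).support, 0 < wt i₀ (chi γ))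
    {u : Fin m ⊕ Fin m → ℂ} (hu : ∀ j, u (Sum.inl j) ≠ 0)
    (hu' : ∑ j ∈ Finset.univ.erase i₀, u (Sum.inl j) * u (Sum.inr j) = 0) :
    eval u ((sep (Sum.inr i₀) G).coeff n) = 0 := by
  classical
  let G₁ : MvPolynomial (Fin m ⊕ Fin m) ℂ :=
    ∑ γ ∈ G.support with 0 < wt i₀ (chi γ), monomial γ (coeff γ G)
  let G₂ : MvPolynomial (Fin m ⊕ Fin m) ℂ :=
    ∑ γ ∈ G.support with ¬ 0 < wt i₀ (chi γ), monomial γ (coeff γ G)
  have hG : G = G₁ + G₂ := by
    conv_lhs => rw [G.as_sum]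
    exact (Finset.sum_filter_add_sum_filter_not _ _ _).symm
  have hc₁ : ∀ γ, coeff γ G₁ = if 0 < wt i₀ (chi γ) then coeff γ G else 0 := by
    intro γ
    simp only [G₁, coeff_sum, coeff_monomial]
    rw [Finset.sum_ite_eq']
    by_cases h1 : 0 < wt i₀ (chi γ)
    · by_cases h2 : γ ∈ G.support
      · simp [h1, h2]
      · simp [h1, notMem_support_iff.mp h2]
    · simp [h1]
  have hc₂ : ∀ γ, coeff γ G₂ = if 0 < wt i₀ (chi γ) then 0 else coeff γ G := by
    intro γ
    have h1 : coeff γ G = coeff γ G₁ + coeff γ G₂ := by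
      conv_lhs => rw [hG, coeff_add]
    rw [hc₁] at h1
    split_ifs at h1 ⊢ with h2
    · linear_combination -h1
    · linear_combination -h1
  -- `G₂` does not contribute
  have h2 : (sep (Sum.inr i₀) G₂).coeff n = 0 := by
    ext ρ
    rw [coeff_zero]
    by_contra hρ
    obtain ⟨γ, h3, h4, rfl⟩ := exists_of_mem_sep _ _ _ (mem_support_iff.mpr hρ)
    rw [mem_support_iff, hc₂] at h3
    split_ifs at h3 with h5
    · exact h3 rfl
    have h6 : γ.erase (Sum.inr i₀) ∈ ((sep (Sum.inr i₀) G).coeff n).support := by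
      rw [mem_support_iff, ← h4, coeff_sep]
      exact h3
    have h7 := hw _ h6
    have h8 : wt i₀ (chi (γ.erase (Sum.inr i₀))) = wt i₀ (chi γ) := by
      refine Finset.sum_congr rfl fun j hj => ?_
      have hj' : j ≠ i₀ := (Finset.mem_erase.mp hj).1
      rw [chi, chi, Finsupp.erase_ne (by simp), Finsupp.erase_ne (by simpa using hj')]
    exact h5 (h8 ▸ h7)
  -- `G₁` vanishes
  have h3 : num (Sum.inr i₀) u G₁ = 0 := by
    apply Polynomial.funext
    intro Y
    rw [num_eval, Polynomial.eval_zero]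
    set u' := Function.update u (Sum.inr i₀) Y with hu'2
    have hui : ∀ j, u' (Sum.inl j) = u (Sum.inl j) := fun j => by simp [u']
    let y : Fin m → ℂ := fun k => u' (Sum.inl k) * u' (Sum.inr k)
    have h4 : u' = Sum.elim (fun k => u (Sum.inl k)) (fun k => y k / u (Sum.inl k)) := by
      ext w
      rcases w with k | k
      · exact hui k
      · simp only [Sum.elim_inr, y]
        rw [hui]
        have := hu k
        field_simp
    have h5 := expand (L := ℂ) G₁ (fun k => u (Sum.inl k)) y hu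
    rw [← h4] at h5
    have h6 : eval u' G₁ = aeval u' G₁ := by
      rw [← coe_aeval_eq_eval]
      rfl
    rw [h6, h5]
    apply Finset.sum_eq_zero
    intro χ hχ
    obtain ⟨γ, h7, rfl⟩ := Finset.mem_image.mp hχ
    have h8 : 0 < wt i₀ (chi γ) := by
      rw [mem_support_iff, hc₁] at h7
      by_contra hn
      exact h7 (if_neg hn)
    have h9 : gchi G₁ (chi γ) = gchi G (chi γ) := by
      rw [gchi, gchi]
      have h10 : (G₁.support.filter fun γ' => chi γ' = chi γ) =
          G.support.filter fun γ' => chi γ' = chi γ := by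
        ext γ'
        simp only [Finset.mem_filter, mem_support_iff, and_congr_left_iff]
        intro h11
        rw [hc₁, h11, if_pos h8]
      rw [h10]
      refine Finset.sum_congr rfl fun γ' h12 => ?_
      have h13 := (Finset.mem_filter.mp h12).2
      rw [hc₁, h13, if_pos h8]
    have h14 : i₁ ∈ Finset.univ.erase i₀ := by simp [h01]
    have h15 := h (Finset.univ.erase i₀) i₁ h14 (-1) (Or.inr rfl) y (chi γ)
    have h16 : (Polynomial.X - Polynomial.C (-∑ i ∈ (Finset.univ.erase i₀).erase i₁, y i)) ∣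
        ghat (gchi G (chi γ)) i₁ y := by
      refine dvd_trans (dvd_pow_self _ ?_) h15
      have : 0 < ∑ i ∈ Finset.univ.erase i₀, chi γ i := h8
      omega
    have h17 : y i₁ = -∑ i ∈ (Finset.univ.erase i₀).erase i₁, y i := by
      have h18 : ∑ i ∈ Finset.univ.erase i₀, y i = 0 := by
        rw [← hu']
        refine Finset.sum_congr rfl fun j hj => ?_
        have hj' : j ≠ i₀ := (Finset.mem_erase.mp hj).1
        simp [y, u', hj']
      rw [← Finset.add_sum_erase _ _ h14] at h18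
      linear_combination h18
    rw [← h17, Polynomial.dvd_iff_isRoot, Polynomial.IsRoot.def, eval_ghat] at h16
    rw [h9]
    have h19 : aeval y (gchi G (chi γ)) = eval y (gchi G (chi γ)) := by
      rw [← coe_aeval_eq_eval]
      rfl
    rw [h19, h16, mul_zero]
  have h4 : (num (Sum.inr i₀) u G).coeff n = 0 := by
    rw [hG, map_add, h3, zero_add, num_coeff, h2, map_zero]
  rwa [num_coeff] at h4

end

end M0n


end

section

/-!
# MP_cc45c1_ag: `R_{0,n} = ℂ` for `n ≥ 6`
-/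

set_option autoImplicit false

open MvPolynomial

namespace M0n

noncomputable section

variable {m : ℕ}

theorem exists_point {i₀ i₁ : Fin m} (h01 : i₁ ≠ i₀) (hJ : (rest i₀ i₁).Nonempty)
    {B : MvPolynomial (Fin m ⊕ Fin m) ℂ} (hB : B ≠ 0) :
    ∃ u : Fin m ⊕ Fin m → ℂ, eval u B ≠ 0 ∧
      ∑ j ∈ Finset.univ.erase i₀, u (Sum.inr j) ≠ 0 ∧
      ∑ j ∈ Finset.univ.erase i₀, u (Sum.inr j) +
        ∑ j ∈ Finset.univ.erase i₀, u (Sum.inl j) * u (Sum.inr j) ≠ 0 ∧
      ∀ k ∈ Finset.univ.erase i₀, u (Sum.inl k) * ∑ j ∈ Finset.univ.erase i₀, u (Sum.inr j) -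
        ∑ j ∈ Finset.univ.erase i₀, u (Sum.inl j) * u (Sum.inr j) ≠ 0 := by
  classical
  let J : Finset (Fin m) := Finset.univ.erase i₀
  let P : MvPolynomial (Fin m ⊕ Fin m) ℂ := ∑ j ∈ J, X (Sum.inr j)
  let S : MvPolynomial (Fin m ⊕ Fin m) ℂ := ∑ j ∈ J, X (Sum.inl j) * X (Sum.inr j)
  have hi₁ : i₁ ∈ J := by simp [J, h01]
  have hcard : 2 ≤ J.card := by
    obtain ⟨i₂, hi₂⟩ := hJ
    have h1 : i₂ ∈ J.erase i₁ := hi₂
    have h2 := Finset.card_erase_of_mem hi₁
    have h3 := Finset.card_pos.mpr ⟨i₂, h1⟩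
    omega
  have hP : P ≠ 0 := by
    intro h
    have h2 := congrArg (eval fun _ => (1 : ℂ)) h
    simp only [P, map_sum, eval_X, map_zero, Finset.sum_const, nsmul_eq_mul, mul_one] at h2
    have h3 : J.card = 0 := by exact_mod_cast h2
    omega
  have hPS : P + S ≠ 0 := by
    intro h
    have h2 := congrArg (eval fun _ => (1 : ℂ)) h
    simp only [P, S, map_add, map_sum, map_mul, eval_X, map_zero, Finset.sum_const,
      nsmul_eq_mul, mul_one] at h2
    have h3 : J.card + J.card = 0 := by exact_mod_cast h2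
    omega
  have hk : ∀ k ∈ J, X (Sum.inl k) * P - S ≠ 0 := by
    intro k hk h
    have h2 := congrArg (eval (Sum.elim (fun i => if i = k then (1 : ℂ) else 0)
      (fun i => if i = k then 0 else 1))) h
    simp only [P, S, map_sub, map_sum, map_mul, eval_X, map_zero, Sum.elim_inl, Sum.elim_inr,
      if_true, one_mul] at h2
    rw [← Finset.add_sum_erase _ _ hk, if_pos rfl, zero_add] at h2
    have h4 : ∑ x ∈ J.erase k, (if x = k then (0 : ℂ) else 1) = ((J.card - 1 : ℕ) : ℂ) := by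
      rw [← Finset.card_erase_of_mem hk, Finset.card_eq_sum_ones, Nat.cast_sum]
      refine Finset.sum_congr rfl fun x hx => ?_
      rw [if_neg (Finset.mem_erase.mp hx).1]
      simp
    have h5 : ∑ x ∈ J, (if x = k then (1 : ℂ) else 0) * (if x = k then 0 else 1) = 0 := by
      apply Finset.sum_eq_zero
      intro x _
      by_cases hx : x = k
      · simp [hx]
      · simp [hx]
    rw [h4, h5, sub_zero] at h2
    have h6 : J.card - 1 = 0 := by exact_mod_cast h2
    omega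
  have hQQ : B * P * (P + S) * ∏ k ∈ J, (X (Sum.inl k) * P - S) ≠ 0 :=
    mul_ne_zero (mul_ne_zero (mul_ne_zero hB hP) hPS) (Finset.prod_ne_zero_iff.mpr hk)
  have h3 : ∃ u, eval u (B * P * (P + S) * ∏ k ∈ J, (X (Sum.inl k) * P - S)) ≠ 0 := by
    by_contra hn
    push Not at hn
    exact hQQ (MvPolynomial.funext fun y => by rw [hn y, map_zero])
  obtain ⟨u, hu⟩ := h3
  refine ⟨u, ?_⟩
  simp only [P, S, map_mul, map_add, map_sub, map_sum, map_prod, eval_X, mul_ne_zero_iff,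
    Finset.prod_ne_zero_iff] at hu
  exact ⟨hu.1.1.1, hu.1.1.2, hu.1.2, hu.2⟩

theorem natDegree_eq_zero {G : MvPolynomial (Fin m ⊕ Fin m) ℂ} (hG : G ≠ 0) (h : DvdProp G)
    (h' : DvdProp (shift 1 G)) {i₀ i₁ : Fin m} (h01 : i₁ ≠ i₀)
    (hJ : (rest i₀ i₁).Nonempty) : (sep (Sum.inr i₀) G).natDegree = 0 := by
  classical
  set κ := (sep (Sum.inr i₀) G).natDegree with hκ
  set B := (sep (Sum.inr i₀) G).coeff κ with hB
  have hB0 : B ≠ 0 := by
    rw [hB, hκ, Polynomial.coeff_natDegree, Polynomial.leadingCoeff_ne_zero]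
    exact sep_ne_zero _ hG
  have hinj : Function.Injective (shift 1 : MvPolynomial (Fin m ⊕ Fin m) ℂ →ₐ[ℂ] _) := by
    apply Function.LeftInverse.injective (g := shift (-1))
    intro a
    rw [shift_shift, neg_add_cancel, shift_zero]
  have g1 : Good κ i₀ i₁ B := good_sep h h01 hJ
  have g2 : Good κ i₀ i₁ (shift 1 B) := by
    have h1 := good_sep h' h01 hJ
    rw [sep_shift, Polynomial.natDegree_map_eq_of_injective hinj, Polynomial.coeff_map] at h1
    exact h1
  by_contra hne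
  have hκM : κ ≤ 2 * ((κ + 1) / 2) := by omega
  have hMκ : 2 * ((κ + 1) / 2) ≤ κ + 1 := by omega
  have hM : 0 < (κ + 1) / 2 := by omega
  generalize (κ + 1) / 2 = M at *
  have hw : ∀ γ ∈ B.support, 0 < wt i₀ (chi γ) := by
    intro γ hγ
    have h1 := weight_eq h01 g1 g2 hκM hMκ hγ
    rw [← Finset.add_sum_erase _ _ (Finset.mem_univ i₀)] at h1
    have h2 : chi (γ.erase (Sum.inl i₀)) i₀ = 0 := by
      rw [chi, Finsupp.erase_same, Finsupp.erase_ne (by simp), g1.z γ hγ]
      simp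
    have h3 : wt i₀ (chi γ) = M := by
      rw [← h1, h2, zero_add]
      refine Finset.sum_congr rfl fun j hj => ?_
      have hj' : j ≠ i₀ := (Finset.mem_erase.mp hj).1
      rw [chi, chi, Finsupp.erase_ne (by simpa using hj'), Finsupp.erase_ne (by simp)]
    rw [h3]
    exact_mod_cast hM
  obtain ⟨u, hu1, hu2, hu3, hu4⟩ := exists_point h01 hJ hB0
  set P := ∑ j ∈ Finset.univ.erase i₀, u (Sum.inr j) with hP
  set S := ∑ j ∈ Finset.univ.erase i₀, u (Sum.inl j) * u (Sum.inr j) with hS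
  set s : ℂ := -S / P with hs
  have hsP : s * P = -S := div_mul_cancel₀ _ hu2
  have hs1 : s ≠ 1 := by
    intro h1
    rw [h1, one_mul] at hsP
    exact hu3 (by linear_combination hsP)
  obtain ⟨x, hx⟩ : ∃ x : ℂ, x ∉ ({0, 1, s ^ 2 - 2 * s, s ^ 2 - 2 * s + 1} : Finset ℂ) :=
    Infinite.exists_notMem_finset _
  simp only [Finset.mem_insert, Finset.mem_singleton, not_or] at hx
  obtain ⟨hx1, hx2, hx3, hx4⟩ := hx
  have e1 := translation h01 g1 g2 hκM hMκ u hs1 x
  have hx5 : x + 2 * s - s ^ 2 ≠ 0 := fun h1 => hx3 (by linear_combination h1)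
  have hx6 : x + 2 * s - s ^ 2 - 1 ≠ 0 := fun h1 => hx4 (by linear_combination h1)
  have e2 : (num (Sum.inl i₀) (trl s u) B).eval (x + 2 * s - s ^ 2) = 0 := by
    rw [num_eval]
    apply vanish h h01 κ hw
    · intro j
      by_cases hj : j = i₀
      · subst hj
        simpa using hx5
      · rw [Function.update_of_ne (by simpa using hj)]
        simp only [trl, Sum.elim_inl]
        intro h1
        have h2 := hu4 j (by simp [hj])
        apply h2
        linear_combination P * h1 - hsP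
    · have h1 : ∀ j ∈ Finset.univ.erase i₀,
          Function.update (trl s u) (Sum.inl i₀) (x + 2 * s - s ^ 2) (Sum.inl j) *
          Function.update (trl s u) (Sum.inl i₀) (x + 2 * s - s ^ 2) (Sum.inr j) =
          u (Sum.inl j) * u (Sum.inr j) + s * u (Sum.inr j) := by
        intro j hj
        have hj' : j ≠ i₀ := (Finset.mem_erase.mp hj).1
        rw [Function.update_of_ne (by simpa using hj'), Function.update_of_ne (by simp)]
        simp only [trl, Sum.elim_inl, Sum.elim_inr]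
        ring
      rw [Finset.sum_congr rfl h1, Finset.sum_add_distrib, ← Finset.mul_sum, ← hP, ← hS, hsP,
        add_neg_cancel]
  rw [e2, zero_mul] at e1
  have e3 : (num (Sum.inl i₀) u B).eval x = 0 := by
    rcases mul_eq_zero.mp e1.symm with h1 | h1
    · exact absurd h1 (pow_ne_zero _ (mul_ne_zero hx5 hx6))
    · exact h1
  have e4 := xindep h01 g1 g2 hκM hMκ u
  have e5 := congrArg (Polynomial.eval x) e4
  simp only [Polynomial.eval_mul, Polynomial.eval_C, Polynomial.eval_pow, Polynomial.eval_sub,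
    Polynomial.eval_X, Polynomial.eval_one] at e5
  rw [e3, mul_zero] at e5
  have e6 : (num (Sum.inl i₀) u B).eval 2 = 0 := by
    rcases mul_eq_zero.mp e5.symm with h1 | h1
    · exact h1
    · exact absurd h1 (pow_ne_zero _ (mul_ne_zero hx1 (sub_ne_zero.mpr hx2)))
  rw [e6, map_zero, zero_mul] at e4
  have e7 : num (Sum.inl i₀) u B = 0 := by
    rcases mul_eq_zero.mp e4 with h1 | h1
    · exact absurd h1 (Polynomial.C_ne_zero.mpr (pow_ne_zero _ two_ne_zero))
    · exact h1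
  apply hu1
  have e8 := num_eval (Sum.inl i₀) u B (u (Sum.inl i₀))
  rw [e7, Polynomial.eval_zero, Function.update_eq_self] at e8
  exact e8.symm

/-- A polynomial with all the divisibility relations is constant. -/
theorem eq_C {G : MvPolynomial (Fin m ⊕ Fin m) ℂ} (hm : 3 ≤ m) (h : DvdProp G)
    (h' : DvdProp (shift 1 G)) : ∃ c : ℂ, G = C c := by
  classical
  by_cases hG : G = 0
  · exact ⟨0, by rw [hG, map_zero]⟩
  have key : ∀ γ ∈ G.support, γ = 0 := by
    intro γ hγ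
    have h1 : ∀ i₀ : Fin m, γ (Sum.inl i₀) = 0 ∧ γ (Sum.inr i₀) = 0 := by
      intro i₀
      obtain ⟨i₁, h01⟩ : ∃ i₁ : Fin m, i₁ ≠ i₀ := by
        have : Nontrivial (Fin m) := Fin.nontrivial_iff_two_le.mpr (by omega)
        exact exists_ne i₀
      have hJ : (rest i₀ i₁).Nonempty := by
        rw [← Finset.card_pos, rest, Finset.card_erase_of_mem (by simp [h01]),
          Finset.card_erase_of_mem (Finset.mem_univ _), Finset.card_univ, Fintype.card_fin]
        omega
      have h2 := natDegree_eq_zero hG h h' h01 hJ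
      have h3 := weight_le h h01 hJ hγ
      have h4 := le_natDegree_sep (Sum.inr i₀) hγ
      rw [h2] at h3 h4
      have h5 : (chi γ i₀).natAbs = 0 := by omega
      rw [chi] at h5
      omega
    ext w
    rcases w with i | i
    · exact (h1 i).1
    · exact (h1 i).2
  refine ⟨coeff 0 G, ?_⟩
  ext γ
  rw [coeff_C]
  split_ifs with h1
  · rw [h1]
  · by_contra h2
    exact h1 (key γ (mem_support_iff.mpr h2)).symm

theorem reg_eq_C (hm : 3 ≤ m) {f : MvPolynomial (Fin m) (Fld m)} (hf : f ∈ Reg m) :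
    ∃ c : ℂ, f = C (algebraMap ℂ (Fld m) c) := by
  obtain ⟨G, hG⟩ := exists_poly hf
  have h0 : DvdProp G := by
    intro I i₀ hi₀ δ hδ y χ
    exact arc_dvd hf (c := 0) (Or.inl rfl) hG I hi₀ hδ y χ
  have h1 : DvdProp (shift 1 G) := by
    intro I i₀ hi₀ δ hδ y χ
    exact arc_dvd hf (c := 1) (Or.inr rfl) (fun p => by rw [aeval_shift, hG]) I hi₀ hδ y χ
  obtain ⟨c, rfl⟩ := eq_C hm h0 h1
  refine ⟨c, ?_⟩
  apply MvPolynomial.funext
  intro p
  rw [← hG p, eval_C]
  simp

/-- `R_{0,n} = ℂ` for `n ≥ 6`. -/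
theorem reg_eq_bot (hm : 3 ≤ m) : Reg m = ⊥ := by
  rw [eq_bot_iff]
  intro f hf
  obtain ⟨c, rfl⟩ := reg_eq_C hm hf
  exact ⟨c, rfl⟩

theorem krull_reg (hm : 3 ≤ m) : ringKrullDim (Reg m) = 0 := by
  rw [reg_eq_bot hm]
  have e : (⊥ : Subalgebra ℂ (MvPolynomial (Fin m) (Fld m))) ≃ₐ[ℂ] ℂ :=
    Algebra.botEquiv ℂ _
  rw [ringKrullDim_eq_of_ringEquiv e.toRingEquiv]
  exact ringKrullDim_eq_zero_of_field ℂ

end

end M0n


end
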