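import Mathlib
import Pool.Agent.MG.Std

/-! Parts: MG.G0.Base, MG.G0.Low, MG.G0.Defs, MG.G0.StmtsK, MG.G0.StmtsS, MG.G0.One, MG.G0.Cut, MG.G0.Model -/

section

/-!
# Krichever rings

Curves over a ring `A` with punctures `I` (disjoint sections, every component of every fibre meets
one of them) and coordinates `τ i` at the punctures are given by the ring `P` of the functions
regular outside the punctures, as a subalgebra of the ring `KK I A` of Laurent series in the `τ i`.
-/

namespace Pool.Agent.MG.G0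

/-- The `A`-algebra `A((τ))`. (This instance comes first: Mathlib's instance search would otherwise
find `HahnSeries.powerSeriesAlgebra`, whose scalar multiplication is not the one of
`HahnSeries.instModule` by definition.) -/
noncomputable instance (priority := 5000) lsAlgebra (A : Type) [CommRing A] :
    Algebra A (LaurentSeries A) :=
  HahnSeries.instAlgebra

/-- Laurent series in the local coordinates at the punctures. -/
abbrev KK (I A : Type) [CommRing A] : Type := I → LaurentSeries A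

section

variable {I : Type} {A B : Type} [CommRing A] [CommRing B]

/-- The coefficientwise map of Laurent series. -/
noncomputable def lmap (φ : A →+* B) : LaurentSeries A →+* LaurentSeries B where
  toFun f := f.map φ
  map_one' := by
    ext n
    rw [HahnSeries.map_coeff, HahnSeries.coeff_one, HahnSeries.coeff_one]
    split_ifs <;> simp
  map_zero' := by
    ext n
    rw [HahnSeries.map_coeff, HahnSeries.coeff_zero, HahnSeries.coeff_zero, map_zero]
  map_add' f g := by
    ext n
    simp only [HahnSeries.map_coeff, HahnSeries.coeff_add, map_add]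
  map_mul' f g := HahnSeries.map_mul (φ : A →ₙ+* B)

@[simp] theorem lmap_coeff (φ : A →+* B) (f : LaurentSeries A) (n : ℤ) :
    (lmap φ f).coeff n = φ (f.coeff n) := rfl

/-- The coefficientwise map. -/
noncomputable def kmap (φ : A →+* B) : KK I A →+* KK I B :=
  RingHom.pi fun i => (lmap φ).comp (Pi.evalRingHom _ i)

@[simp] theorem kmap_apply (φ : A →+* B) (f : KK I A) (i : I) : kmap φ f i = lmap φ (f i) := rfl

/-- Poles of order at most `n` at all punctures. -/
def Pol (I A : Type) [CommRing A] (n : ℤ) : Submodule A (KK I A) where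
  carrier := {f | ∀ i m, m < -n → (f i).coeff m = 0}
  add_mem' {f g} hf hg i m hm := by
    rw [Pi.add_apply, HahnSeries.coeff_add, hf i m hm, hg i m hm, add_zero]
  zero_mem' i m _ := by rw [Pi.zero_apply, HahnSeries.coeff_zero]
  smul_mem' a f hf i m hm := by
    rw [Pi.smul_apply, HahnSeries.coeff_smul, hf i m hm, smul_zero]

theorem mem_Pol {n : ℤ} {f : KK I A} : f ∈ Pol I A n ↔ ∀ i m, m < -n → (f i).coeff m = 0 :=
  Iff.rfl

/-- The sum of the residues (of `f dτ`). -/
noncomputable def res [Fintype I] : KK I A →ₗ[A] A where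
  toFun f := ∑ i, (f i).coeff (-1)
  map_add' f g := by
    simp only [Pi.add_apply, HahnSeries.coeff_add, Finset.sum_add_distrib]
  map_smul' a f := by
    simp only [Pi.smul_apply, HahnSeries.coeff_smul, smul_eq_mul, Finset.mul_sum,
      RingHom.id_apply]

/-- The derivative of a Laurent series. -/
noncomputable def ld (f : LaurentSeries A) : LaurentSeries A := LaurentSeries.derivative A f

theorem ld_coeff (f : LaurentSeries A) (n : ℤ) :
    (ld f).coeff n = ((n + 1 : ℤ) : A) * f.coeff (n + 1) := by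
  rw [ld, LaurentSeries.derivative_apply, LaurentSeries.hasseDeriv_coeff]
  simp [Ring.choose_one_right]

/-- The derivatives with respect to the coordinates. -/
noncomputable def dd (f : KK I A) : KK I A := fun i => ld (f i)

end

end Pool.Agent.MG.G0


end

section

/-!
# Laurent series: coefficients of products, pole orders, derivatives, base change
-/

namespace Pool.Agent.MG.G0

section one

variable {A B : Type} [CommRing A] [CommRing B]

/-- The coefficients of a product, for series with coefficients zero below `a` and `b`. -/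
theorem coeff_mul_Icc {f g : LaurentSeries A} {a b : ℤ} (hf : ∀ m < a, f.coeff m = 0)
    (hg : ∀ m < b, g.coeff m = 0) (n : ℤ) :
    (f * g).coeff n = ∑ i ∈ Finset.Icc a (n - b), f.coeff i * g.coeff (n - i) := by
  classical
  rw [HahnSeries.coeff_mul]
  have h0 : ∑ i ∈ Finset.Icc a (n - b), f.coeff i * g.coeff (n - i) =
      ∑ i ∈ (Finset.Icc a (n - b)).filter fun i => f.coeff i ≠ 0 ∧ g.coeff (n - i) ≠ 0,
        f.coeff i * g.coeff (n - i) := by
    symm
    refine Finset.sum_filter_of_ne fun i _ h => ?_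
    exact ⟨left_ne_zero_of_mul h, right_ne_zero_of_mul h⟩
  rw [h0]
  refine Finset.sum_nbij' (fun x => x.1) (fun i => (i, n - i)) ?_ ?_ ?_ ?_ ?_
  · rintro ⟨i, j⟩ h
    rw [Finset.mem_antidiagonal] at h
    obtain ⟨h1, h2, h3⟩ := h
    have h1' : f.coeff i ≠ 0 := h1
    have h2' : g.coeff j ≠ 0 := h2
    have h3' : i + j = n := h3
    have hj : n - i = j := by omega
    have ha : a ≤ i := by
      by_contra hc
      exact h1' (hf i (by omega))
    have hb : b ≤ j := by
      by_contra hc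
      exact h2' (hg j (by omega))
    simp only [Finset.mem_filter, Finset.mem_Icc]
    refine ⟨⟨ha, by omega⟩, h1', ?_⟩
    rw [hj]
    exact h2'
  · intro i h
    simp only [Finset.mem_filter, Finset.mem_Icc] at h
    rw [Finset.mem_antidiagonal]
    exact ⟨h.2.1, h.2.2, by change i + (n - i) = n; omega⟩
  · rintro ⟨i, j⟩ h
    rw [Finset.mem_antidiagonal] at h
    have h3 : i + j = n := h.2.2
    simp only [Prod.mk.injEq, true_and]
    omega
  · intro i _
    rfl
  · rintro ⟨i, j⟩ h
    rw [Finset.mem_antidiagonal] at h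
    have h3 : i + j = n := h.2.2
    have : n - i = j := by omega
    simp only [this]

/-- A series has coefficients zero below some integer. -/
theorem exists_low (f : LaurentSeries A) : ∃ n : ℕ, ∀ m < -(n : ℤ), f.coeff m = 0 := by
  by_cases hf : f = 0
  · exact ⟨0, fun m _ => by rw [hf, HahnSeries.coeff_zero]⟩
  · refine ⟨(-f.order).toNat, fun m hm => HahnSeries.coeff_eq_zero_of_lt_order ?_⟩
    omega

theorem mul_low {f g : LaurentSeries A} {a b : ℤ} (hf : ∀ m < a, f.coeff m = 0)
    (hg : ∀ m < b, g.coeff m = 0) (n : ℤ) (hn : n < a + b) : (f * g).coeff n = 0 := by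
  rw [coeff_mul_Icc hf hg, Finset.Icc_eq_empty (by omega), Finset.sum_empty]

theorem mul_lead {f g : LaurentSeries A} {a b : ℤ} (hf : ∀ m < a, f.coeff m = 0)
    (hg : ∀ m < b, g.coeff m = 0) : (f * g).coeff (a + b) = f.coeff a * g.coeff b := by
  rw [coeff_mul_Icc hf hg, add_sub_cancel_right, Finset.Icc_self, Finset.sum_singleton,
    add_sub_cancel_left]

theorem ld_mul (f g : LaurentSeries A) : ld (f * g) = f * ld g + ld f * g := by
  obtain ⟨a, ha⟩ := exists_low f
  obtain ⟨b, hb⟩ := exists_low g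
  have ha' : ∀ m < -(a : ℤ) - 1, (ld f).coeff m = 0 := fun m hm => by
    rw [ld_coeff, ha (m + 1) (by omega), mul_zero]
  have hb' : ∀ m < -(b : ℤ) - 1, (ld g).coeff m = 0 := fun m hm => by
    rw [ld_coeff, hb (m + 1) (by omega), mul_zero]
  ext n
  rw [HahnSeries.coeff_add, ld_coeff, coeff_mul_Icc ha hb, coeff_mul_Icc ha hb',
    mul_comm (ld f) g, coeff_mul_Icc hb ha', Finset.mul_sum]
  have h1 : ∀ i ∈ Finset.Icc (-(a : ℤ)) (n + 1 - -(b : ℤ)),
      ((n + 1 : ℤ) : A) * (f.coeff i * g.coeff (n + 1 - i)) =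
        f.coeff i * (ld g).coeff (n - i) + g.coeff (n + 1 - i) * (ld f).coeff (n - (n + 1 - i)) := by
    intro i _
    rw [ld_coeff, ld_coeff]
    have e1 : n - i + 1 = n + 1 - i := by ring
    have e2 : n - (n + 1 - i) + 1 = i := by ring
    rw [e1, e2]
    push_cast
    ring
  rw [Finset.sum_congr rfl h1, Finset.sum_add_distrib]
  congr 1
  · refine Finset.sum_congr ?_ fun _ _ => rfl
    congr 1
    ring
  · refine Finset.sum_nbij' (fun i => n + 1 - i) (fun i => n + 1 - i) ?_ ?_ ?_ ?_ ?_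
    · intro i hi
      simp only [Finset.mem_Icc] at hi ⊢
      omega
    · intro i hi
      simp only [Finset.mem_Icc] at hi ⊢
      omega
    · intro i _
      ring
    · intro i _
      ring
    · intro i _
      rfl

theorem ld_add (f g : LaurentSeries A) : ld (f + g) = ld f + ld g := map_add _ _ _

theorem ld_smul (a : A) (f : LaurentSeries A) : ld (a • f) = a • ld f := map_smul _ _ _

theorem lmap_ld (φ : A →+* B) (f : LaurentSeries A) : lmap φ (ld f) = ld (lmap φ f) := by
  ext n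
  rw [lmap_coeff, ld_coeff, ld_coeff, lmap_coeff, map_mul, map_intCast]

theorem lmap_smul (φ : A →+* B) (a : A) (f : LaurentSeries A) :
    lmap φ (a • f) = φ a • lmap φ f := by
  ext n
  simp

theorem lmap_algebraMap (φ : A →+* B) (a : A) :
    lmap φ (algebraMap A (LaurentSeries A) a) = algebraMap B (LaurentSeries B) (φ a) := by
  rw [Algebra.algebraMap_eq_smul_one, Algebra.algebraMap_eq_smul_one, lmap_smul, map_one]

theorem lmap_single (φ : A →+* B) (n : ℤ) (a : A) :
    lmap φ (HahnSeries.single n a) = HahnSeries.single n (φ a) := by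
  ext m
  rw [lmap_coeff, HahnSeries.coeff_single, HahnSeries.coeff_single]
  split_ifs <;> simp

theorem coeff_algebraMap (a : A) (n : ℤ) :
    (algebraMap A (LaurentSeries A) a).coeff n = if n = 0 then a else 0 := by
  rw [Algebra.algebraMap_eq_smul_one, HahnSeries.coeff_smul, HahnSeries.coeff_one, smul_eq_mul]
  split_ifs <;> simp

end one

section many

variable {I : Type} {A B C : Type} [CommRing A] [CommRing B] [CommRing C]

theorem exists_Pol [Finite I] (f : KK I A) : ∃ n : ℕ, f ∈ Pol I A n := by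
  classical
  cases nonempty_fintype I
  choose n hn using fun i => exists_low (f i)
  refine ⟨Finset.univ.sup n, fun i m hm => hn i m (lt_of_lt_of_le hm ?_)⟩
  have : n i ≤ Finset.univ.sup n := Finset.le_sup (Finset.mem_univ i)
  omega

theorem Pol_mono {m n : ℤ} (h : m ≤ n) : Pol I A m ≤ Pol I A n :=
  fun _ hf i k hk => hf i k (by omega)

theorem mul_mem_Pol {m n : ℤ} {f g : KK I A} (hf : f ∈ Pol I A m) (hg : g ∈ Pol I A n) :
    f * g ∈ Pol I A (m + n) := fun i k hk => by
  rw [Pi.mul_apply]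
  exact mul_low (hf i) (hg i) k (by omega)

theorem mul_Pol_lead {m n : ℤ} {f g : KK I A} (hf : f ∈ Pol I A m) (hg : g ∈ Pol I A n) (i : I) :
    ((f * g) i).coeff (-(m + n)) = (f i).coeff (-m) * (g i).coeff (-n) := by
  rw [Pi.mul_apply, neg_add]
  exact mul_lead (hf i) (hg i)

theorem mul_mem_Pol0 {f g : KK I A} (hf : f ∈ Pol I A 0) (hg : g ∈ Pol I A 0) :
    f * g ∈ Pol I A 0 := mul_mem_Pol hf hg

theorem algebraMap_mem_Pol0 (a : A) : algebraMap A (KK I A) a ∈ Pol I A 0 := fun i m hm => by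
  rw [Pi.algebraMap_apply, coeff_algebraMap, if_neg (by omega)]

theorem one_mem_Pol0 : (1 : KK I A) ∈ Pol I A 0 := by
  rw [← map_one (algebraMap A (KK I A))]
  exact algebraMap_mem_Pol0 1

theorem dd_add (f g : KK I A) : dd (f + g) = dd f + dd g := funext fun _ => ld_add _ _

theorem dd_mul (f g : KK I A) : dd (f * g) = f * dd g + dd f * g := funext fun _ => ld_mul _ _

theorem dd_smul (a : A) (f : KK I A) : dd (a • f) = a • dd f := funext fun _ => ld_smul _ _

theorem dd_algebraMap (a : A) : dd (algebraMap A (KK I A) a) = 0 := by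
  funext i
  ext n
  rw [dd, Pi.algebraMap_apply, ld_coeff, coeff_algebraMap, Pi.zero_apply, HahnSeries.coeff_zero]
  split_ifs with h
  · rw [h]
    simp
  · rw [mul_zero]

/-- `d/dτ` as a derivation. -/
noncomputable def ddD (I A : Type) [CommRing A] : Derivation A (KK I A) (KK I A) where
  toFun := dd
  map_add' := dd_add
  map_smul' := dd_smul
  map_one_eq_zero' := by
    change dd (1 : KK I A) = 0
    rw [← map_one (algebraMap A (KK I A))]
    exact dd_algebraMap 1
  leibniz' f g := by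
    change dd (f * g) = f • dd g + g • dd f
    rw [dd_mul, smul_eq_mul, smul_eq_mul, mul_comm g]

@[simp] theorem ddD_apply (f : KK I A) : ddD I A f = dd f := rfl

theorem dd_mem_Pol {n : ℤ} {f : KK I A} (hf : f ∈ Pol I A n) : dd f ∈ Pol I A (n + 1) :=
  fun i m hm => by
    change (ld (f i)).coeff m = 0
    rw [ld_coeff, hf i _ (by omega), mul_zero]

theorem dd_mem_Pol0 {f : KK I A} (hf : f ∈ Pol I A 0) : dd f ∈ Pol I A 0 := fun i m hm => by
  change (ld (f i)).coeff m = 0
  rw [ld_coeff]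
  by_cases h : m + 1 = 0
  · rw [h]
    simp
  · rw [hf i _ (by omega), mul_zero]

theorem kmap_mem_Pol (φ : A →+* B) {n : ℤ} {f : KK I A} (hf : f ∈ Pol I A n) :
    kmap φ f ∈ Pol I B n := fun i m hm => by
  rw [kmap_apply, lmap_coeff, hf i m hm, map_zero]

theorem kmap_dd (φ : A →+* B) (f : KK I A) : kmap φ (dd f) = dd (kmap φ f) :=
  funext fun _ => lmap_ld _ _

theorem kmap_smul (φ : A →+* B) (a : A) (f : KK I A) : kmap φ (a • f) = φ a • kmap φ f :=
  funext fun _ => lmap_smul _ _ _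

theorem kmap_algebraMap (φ : A →+* B) (a : A) :
    kmap φ (algebraMap A (KK I A) a) = algebraMap B (KK I B) (φ a) :=
  funext fun _ => lmap_algebraMap _ _

theorem kmap_id (f : KK I A) : kmap (RingHom.id A) f = f := rfl

theorem kmap_comp (φ : A →+* B) (ψ : B →+* C) (f : KK I A) :
    kmap (ψ.comp φ) f = kmap ψ (kmap φ f) := rfl

theorem res_kmap [Fintype I] (φ : A →+* B) (f : KK I A) : res (kmap φ f) = φ (res f) := by
  simp [res, map_sum]

theorem res_dd [Fintype I] (f : KK I A) : res (dd f) = 0 := by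
  refine Finset.sum_eq_zero fun i _ => ?_
  change (ld (f i)).coeff (-1) = 0
  rw [ld_coeff]
  simp

theorem res_Pol0 [Fintype I] {f : KK I A} (hf : f ∈ Pol I A 0) : res f = 0 :=
  Finset.sum_eq_zero fun i _ => hf i _ (by omega)

/-- The monomial `a τ_i^n`. -/
noncomputable def mon (i : I) (n : ℤ) (a : A) : KK I A :=
  open Classical in fun j => if j = i then HahnSeries.single n a else 0

theorem mon_coeff_self (i : I) (n : ℤ) (a : A) (m : ℤ) :
    (mon i n a i).coeff m = if m = n then a else 0 := by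
  rw [mon, if_pos rfl, HahnSeries.coeff_single]
  split_ifs <;> rfl

theorem mon_of_ne {i j : I} (h : j ≠ i) (n : ℤ) (a : A) : mon i n a j = 0 := by
  rw [mon, if_neg h]

theorem mon_coeff (i j : I) (n : ℤ) (a : A) (m : ℤ) :
    (mon i n a j).coeff m = open Classical in if j = i ∧ m = n then a else 0 := by
  by_cases h : j = i
  · subst h
    rw [mon_coeff_self]
    simp
  · rw [mon_of_ne h, HahnSeries.coeff_zero]
    simp [h]

theorem mon_mem_Pol (i : I) {n k : ℤ} (h : -k ≤ n) (a : A) : mon i n a ∈ Pol I A k :=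
  fun j m hm => by
    rw [mon_coeff]
    simp only [ite_eq_right_iff, and_imp]
    intro _ h2
    omega

theorem kmap_mon (φ : A →+* B) (i : I) (n : ℤ) (a : A) :
    kmap φ (mon i n a) = mon i n (φ a) := by
  funext j
  ext m
  rw [kmap_apply, lmap_coeff, mon_coeff, mon_coeff]
  split_ifs <;> simp

theorem smul_mon (i : I) (n : ℤ) (a b : A) : a • mon i n b = mon i n (a * b) := by
  funext j
  ext m
  rw [Pi.smul_apply, HahnSeries.coeff_smul, mon_coeff, mon_coeff]
  split_ifs <;> simp

/-- Removing the coefficients at `τ^m`, `-n ≤ m < k`, of a series with pole order at most `n`. -/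
theorem sub_mon_mem_Pol [Fintype I] {n : ℕ} {f : KK I A} (hf : f ∈ Pol I A n) (k : ℤ) :
    f - ∑ i, ∑ m ∈ Finset.Ico (-(n : ℤ)) k, mon i m ((f i).coeff m) ∈ Pol I A (-k) := by
  classical
  intro j l hl
  rw [neg_neg] at hl
  rw [Pi.sub_apply, HahnSeries.coeff_sub, Finset.sum_apply, HahnSeries.coeff_sum]
  have h1 : ∀ i, ((∑ m ∈ Finset.Ico (-(n : ℤ)) k, mon i m ((f i).coeff m)) j).coeff l =
      if i = j then ((if -(n : ℤ) ≤ l then (f j).coeff l else 0)) else 0 := by
    intro i
    rw [Finset.sum_apply, HahnSeries.coeff_sum]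
    by_cases h : i = j
    · subst h
      rw [if_pos rfl]
      simp only [mon_coeff_self]
      rw [Finset.sum_ite_eq]
      simp only [Finset.mem_Ico]
      split_ifs with h1 h2 h2
      · rfl
      · omega
      · omega
      · rfl
    · rw [if_neg h]
      refine Finset.sum_eq_zero fun m _ => ?_
      rw [mon_of_ne (Ne.symm h), HahnSeries.coeff_zero]
  simp only [h1, Finset.sum_ite_eq', Finset.mem_univ, if_true]
  split_ifs with h
  · exact sub_self _
  · rw [hf j l (by omega), sub_zero]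

theorem res_mul_mon [Fintype I] (f : KK I A) (i : I) (n : ℤ) (a : A) :
    res (f * mon i n a) = (f i).coeff (-1 - n) * a := by
  classical
  change ∑ j, ((f * mon i n a) j).coeff (-1) = _
  rw [Finset.sum_eq_single i]
  · rw [Pi.mul_apply, mon, if_pos rfl]
    have : (-1 : ℤ) = (-1 - n) + n := by ring
    nth_rewrite 1 [this]
    exact HahnSeries.coeff_mul_single_add
  · intro j _ hj
    rw [Pi.mul_apply, mon_of_ne hj, mul_zero, HahnSeries.coeff_zero]
  · intro h
    exact absurd (Finset.mem_univ i) h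

end many

end Pool.Agent.MG.G0


end

section

/-!
# Krichever rings: definitions
-/

namespace Pool.Agent.MG.G0

section

variable {I : Type} {A B : Type} [CommRing A] [CommRing B]

/-- `P` is a Krichever ring of genus `g`: the only elements without poles are the constants, and
`KK/(P + Pol 0)` is free of rank `g`. -/
structure IsKr (g : ℕ) (P : Subalgebra A (KK I A)) : Prop where
  k1 : ∀ f ∈ P, f ∈ Pol I A 0 → ∃ a : A, f = algebraMap A (KK I A) a
  k2 : ∃ L : KK I A →ₗ[A] (Fin g → A), Function.Surjective L ∧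
    ∀ f, L f = 0 ↔ ∃ p ∈ P, f - p ∈ Pol I A 0

/-- The base change of a Krichever ring. -/
noncomputable def bc (φ : A →+* B) (P : Subalgebra A (KK I A)) : Subalgebra B (KK I B) :=
  Algebra.adjoin B (kmap φ '' (P : Set (KK I A)))

theorem kmap_mem_bc (φ : A →+* B) {P : Subalgebra A (KK I A)} {f : KK I A} (hf : f ∈ P) :
    kmap φ f ∈ bc φ P := Algebra.subset_adjoin ⟨f, hf, rfl⟩

/-- The homomorphism `P → P_B`. -/
noncomputable def bcMap (φ : A →+* B) (P : Subalgebra A (KK I A)) : P →+* bc φ P where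
  toFun f := ⟨kmap φ f, kmap_mem_bc φ f.2⟩
  map_one' := Subtype.ext (map_one (kmap φ))
  map_zero' := Subtype.ext (map_zero (kmap φ))
  map_add' f g := Subtype.ext (map_add (kmap φ) (f : KK I A) g)
  map_mul' f g := Subtype.ext (map_mul (kmap φ) (f : KK I A) g)

@[simp] theorem bcMap_val (φ : A →+* B) (P : Subalgebra A (KK I A)) (f : P) :
    (bcMap φ P f : KK I B) = kmap φ f := rfl

/-- Every series is congruent to an element of `P` modulo series with poles of order at most
`N`. -/
def Dense (P : Subalgebra A (KK I A)) (N : ℤ) : Prop := ∀ f : KK I A, ∃ p ∈ P, f - p ∈ Pol I A N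

/-- The elements of `P` with poles of order at most `n`. -/
noncomputable def PP (P : Subalgebra A (KK I A)) (n : ℤ) : Submodule A (KK I A) :=
  Subalgebra.toSubmodule P ⊓ Pol I A n

theorem mem_PP {P : Subalgebra A (KK I A)} {n : ℤ} {f : KK I A} :
    f ∈ PP P n ↔ f ∈ P ∧ f ∈ Pol I A n := Iff.rfl

/-- `z = τ^(-d) + ...` at all punctures. -/
def Mon (d : ℤ) (z : KK I A) : Prop := z ∈ Pol I A d ∧ ∀ i, (z i).coeff (-d) = 1

/-- The constant term and the polar part are controlled by `s`: a section of the polar part on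
`P`. -/
structure IsSec (P : Subalgebra A (KK I A)) (s : KK I A →ₗ[A] KK I A) : Prop where
  mem : ∀ f, s f ∈ P
  zero : ∀ f ∈ Pol I A 0, s f = 0
  eq : ∀ p ∈ P, ∃ a : A, s p = p + algebraMap A (KK I A) a

/-! ## Differentials and vector fields -/

/-- The series `η` with `res (η p) = 0` for all `p` in `P`. -/
noncomputable def Perp [Fintype I] (P : Subalgebra A (KK I A)) : Submodule A (KK I A) where
  carrier := {η | ∀ p ∈ P, res (η * p) = 0}
  add_mem' {x y} hx hy p hp := by rw [add_mul, map_add, hx p hp, hy p hp, add_zero]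
  zero_mem' p _ := by rw [zero_mul, map_zero]
  smul_mem' a x hx p hp := by rw [smul_mul_assoc, map_smul, hx p hp, smul_zero]

theorem mem_Perp [Fintype I] {P : Subalgebra A (KK I A)} {η : KK I A} :
    η ∈ Perp P ↔ ∀ p ∈ P, res (η * p) = 0 := Iff.rfl

theorem mul_mem_Perp [Fintype I] {P : Subalgebra A (KK I A)} {η p : KK I A} (hp : p ∈ P)
    (h : η ∈ Perp P) : p * η ∈ Perp P := fun q hq => by
  rw [mul_comm p η, mul_assoc]
  exact h _ (mul_mem hp hq)

/-- The regular differentials: `res (η P) = 0` and no poles. -/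
noncomputable def EE [Fintype I] (P : Subalgebra A (KK I A)) : Submodule A (KK I A) := Perp P ⊓ Pol I A 0

/-- `ω` is a basis of the regular differentials, dual to a basis of `KK/(P + Pol 0)`. -/
structure IsForms [Fintype I] {g : ℕ} (P : Subalgebra A (KK I A)) (ω : Fin g → KK I A) : Prop where
  reg : ∀ j, ω j ∈ Pol I A 0
  surj : ∀ c : Fin g → A, ∃ f : KK I A, ∀ j, res (ω j * f) = c j
  ker : ∀ f : KK I A, (∀ j, res (ω j * f) = 0) ↔ ∃ p ∈ P, f - p ∈ Pol I A 0

/-- The vector fields on the affine curve, `D = θ d/dτ`. -/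
noncomputable def TT (P : Subalgebra A (KK I A)) : Submodule A (KK I A) where
  carrier := {θ | ∀ f ∈ P, θ * dd f ∈ P}
  add_mem' {x y} hx hy f hf := by
    rw [add_mul]
    exact add_mem (hx f hf) (hy f hf)
  zero_mem' f _ := by
    rw [zero_mul]
    exact zero_mem P
  smul_mem' a x hx f hf := by
    rw [smul_mul_assoc]
    exact P.smul_mem (hx f hf) a

theorem mem_TT {P : Subalgebra A (KK I A)} {θ : KK I A} :
    θ ∈ TT P ↔ ∀ f ∈ P, θ * dd f ∈ P := Iff.rfl

/-- The differentials `∑ p df`, `p, f ∈ P`. -/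
noncomputable def Om (P : Subalgebra A (KK I A)) : Submodule A (KK I A) :=
  Submodule.span A {η | ∃ p ∈ P, ∃ f ∈ P, η = p * dd f}

/-- Duality. -/
def Dual [Fintype I] (P : Subalgebra A (KK I A)) : Prop :=
  ∀ θ ∈ TT P, ∀ η ∈ Perp P, θ * η ∈ P

end

/-- A smoothness certificate for the algebra `R` of relative dimension one over `A`. -/
def SmC (A R : Type) [CommRing A] [CommRing R] [Algebra A R] : Prop :=
  ∃ (n : ℕ) (D : Fin n → Derivation A R R) (g : Fin n → R), ∑ i, D i (g i) = 1 ∧
    ∀ (E : Derivation A R R) (f h : R),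
      E f • KaehlerDifferential.D A R h = E h • KaehlerDifferential.D A R f

/-! ## Formal points -/

section

variable {I : Type} {A B : Type} [CommRing A] [CommRing B]

/-- A power series as a Laurent series. -/
noncomputable def psl (A : Type) [CommRing A] : PowerSeries A →+* LaurentSeries A :=
  HahnSeries.ofPowerSeries ℤ A

/-- A formal point of `P`: a homomorphism to `A[[u]]`, and an element `x` for which the coefficient
of `u` is a unit. -/
structure FPt (P : Subalgebra A (KK I A)) where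
  /-- the expansion at the point -/
  h : P →ₐ[A] PowerSeries A
  /-- a parameter -/
  x : P
  par : IsUnit (PowerSeries.coeff 1 (h x))

/-- The value at a formal point. -/
noncomputable def FPt.ev {P : Subalgebra A (KK I A)} (p : FPt P) (f : P) : A :=
  PowerSeries.constantCoeff (p.h f)

/-- The ideal of a formal point. -/
noncomputable def FPt.id {P : Subalgebra A (KK I A)} (p : FPt P) : Ideal P :=
  RingHom.ker ((PowerSeries.constantCoeff (R := A)).comp (p.h : P →+* PowerSeries A))

theorem FPt.mem_id {P : Subalgebra A (KK I A)} (p : FPt P) {f : P} : f ∈ p.id ↔ p.ev f = 0 :=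
  Iff.rfl

/-- The ideal of a family of formal points. -/
noncomputable def Ipt {J : Type} {P : Subalgebra A (KK I A)} (pt : J → FPt P) : Ideal P :=
  ⨅ j, (pt j).id

/-- The points are disjoint. -/
def Disj {J : Type} {P : Subalgebra A (KK I A)} (pt : J → FPt P) : Prop :=
  ∀ j k, j ≠ k → (pt j).id ⊔ (pt k).id = ⊤

/-- The expansions of an element of `P` at the punctures and at the formal points. -/
noncomputable def hat {J : Type} {P : Subalgebra A (KK I A)} (pt : J → FPt P) :
    P →ₐ[A] KK (I ⊕ J) A where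
  toFun r := Sum.elim (r : KK I A) fun j => psl A ((pt j).h r)
  map_one' := by
    funext k
    rcases k with i | j
    · rfl
    · exact (congrArg (psl A) (map_one (pt j).h)).trans (map_one (psl A))
  map_zero' := by
    funext k
    rcases k with i | j
    · rfl
    · exact (congrArg (psl A) (map_zero (pt j).h)).trans (map_zero (psl A))
  map_add' f g := by
    funext k
    rcases k with i | j
    · rfl
    · exact (congrArg (psl A) (map_add (pt j).h f g)).trans (map_add (psl A) _ _)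
  map_mul' f g := by
    funext k
    rcases k with i | j
    · rfl
    · exact (congrArg (psl A) (map_mul (pt j).h f g)).trans (map_mul (psl A) _ _)
  commutes' a := by
    funext k
    rcases k with i | j
    · rfl
    · change psl A ((pt j).h (algebraMap A P a)) = algebraMap A (LaurentSeries A) a
      rw [AlgHom.commutes]
      exact HahnSeries.ofPowerSeries_C a

@[simp] theorem hat_inl {J : Type} {P : Subalgebra A (KK I A)} (pt : J → FPt P) (r : P) (i : I) :
    hat pt r (Sum.inl i) = (r : KK I A) i := rfl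

@[simp] theorem hat_inr {J : Type} {P : Subalgebra A (KK I A)} (pt : J → FPt P) (r : P) (j : J) :
    hat pt r (Sum.inr j) = psl A ((pt j).h r) := rfl

/-- Functions with poles at the punctures and at additional formal points. -/
noncomputable def WJ {J : Type} {P : Subalgebra A (KK I A)} (pt : J → FPt P) :
    Subalgebra A (KK (I ⊕ J) A) where
  carrier := {w | ∃ n : ℕ, ∀ s ∈ Ipt pt ^ n, ∃ r : P, hat pt s * w = hat pt r}
  mul_mem' {w w'} hw hw' := by
    obtain ⟨n, hn⟩ := hw
    obtain ⟨m, hm⟩ := hw'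
    refine ⟨n + m, fun s hs => ?_⟩
    rw [pow_add] at hs
    refine Submodule.mul_induction_on hs ?_ ?_
    · intro a ha b hb
      obtain ⟨r, hr⟩ := hn a ha
      obtain ⟨t, ht⟩ := hm b hb
      refine ⟨r * t, ?_⟩
      rw [map_mul, map_mul, ← hr, ← ht]
      ring
    · rintro a b ⟨r, hr⟩ ⟨t, ht⟩
      exact ⟨r + t, by rw [map_add, map_add, ← hr, ← ht, add_mul]⟩
  add_mem' {w w'} hw hw' := by
    obtain ⟨n, hn⟩ := hw
    obtain ⟨m, hm⟩ := hw'
    refine ⟨n + m, fun s hs => ?_⟩
    obtain ⟨r, hr⟩ := hn s (Ideal.pow_le_pow_right (Nat.le_add_right n m) hs)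
    obtain ⟨t, ht⟩ := hm s (Ideal.pow_le_pow_right (Nat.le_add_left m n) hs)
    exact ⟨r + t, by rw [map_add, ← hr, ← ht, mul_add]⟩
  algebraMap_mem' a := ⟨0, fun s _ => ⟨a • s, by
    rw [map_smul, Algebra.smul_def, mul_comm]⟩⟩

theorem mem_WJ {J : Type} {P : Subalgebra A (KK I A)} (pt : J → FPt P) {w : KK (I ⊕ J) A} :
    w ∈ WJ pt ↔ ∃ n : ℕ, ∀ s ∈ Ipt pt ^ n, ∃ r : P, hat pt s * w = hat pt r := Iff.rfl

theorem hat_mem {J : Type} {P : Subalgebra A (KK I A)} (pt : J → FPt P) (r : P) :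
    hat pt r ∈ WJ pt := ⟨0, fun s _ => ⟨s * r, by rw [map_mul]⟩⟩

/-- Removing the punctures `J`: the functions without poles at `J`. -/
noncomputable def Rem {J : Type} (W : Subalgebra A (KK (I ⊕ J) A)) : Subalgebra A (KK I A) where
  carrier := {f | ∃ w ∈ W, (∀ j : J, ∀ m < 0, (w (Sum.inr j)).coeff m = 0) ∧
    ∀ i, w (Sum.inl i) = f i}
  mul_mem' := by
    rintro f g ⟨w, hw, h1, h2⟩ ⟨v, hv, h3, h4⟩
    refine ⟨w * v, mul_mem hw hv, fun j m hm => ?_, fun i => by
      rw [Pi.mul_apply, h2, h4, Pi.mul_apply]⟩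
    rw [Pi.mul_apply]
    exact mul_low (h1 j) (h3 j) m (by omega)
  add_mem' := by
    rintro f g ⟨w, hw, h1, h2⟩ ⟨v, hv, h3, h4⟩
    refine ⟨w + v, add_mem hw hv, fun j m hm => ?_, fun i => by
      rw [Pi.add_apply, h2, h4, Pi.add_apply]⟩
    rw [Pi.add_apply, HahnSeries.coeff_add, h1 j m hm, h3 j m hm, add_zero]
  algebraMap_mem' a := ⟨algebraMap A _ a, W.algebraMap_mem a, fun j m hm => by
    rw [Pi.algebraMap_apply, coeff_algebraMap, if_neg (by omega)], fun i => rfl⟩

/-- Change of the index set of the punctures. -/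
noncomputable def reix {I' : Type} (e : I' ≃ I) (P : Subalgebra A (KK I A)) : Subalgebra A (KK I' A) where
  carrier := {f | (fun i => f (e.symm i)) ∈ P}
  mul_mem' := fun ha hb => mul_mem (S := Subalgebra A (KK I A)) ha hb
  add_mem' := fun ha hb => add_mem (S := Subalgebra A (KK I A)) ha hb
  algebraMap_mem' a := P.algebraMap_mem a

end

end Pool.Agent.MG.G0


end

section

/-!
# Statements on Krichever rings (PAPER.md, sections K, RES, PERP)
-/

open TensorProduct

namespace Pool.Agent.MG.G0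

/-- KDU (PAPER K2): duality for Laurent series. -/
def Stmt_KDU : Prop :=
  ∀ {I A : Type} [Fintype I] [CommRing A] (M : ℤ) (l : KK I A →ₗ[A] A),
    (∀ f ∈ Pol I A (-M), l f = 0) → ∃! η : KK I A, η ∈ Pol I A M ∧ ∀ f, l f = res (η * f)

/-- KFO (K3): regular differentials. -/
def Stmt_KFO : Prop :=
  ∀ {I A : Type} [Fintype I] [CommRing A] {g : ℕ} {P : Subalgebra A (KK I A)}, IsKr g P →
    (∃ ω : Fin g → KK I A, IsForms P ω) ∧
    ∀ ω : Fin g → KK I A, IsForms P ω → (∀ j, ω j ∈ EE P) ∧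
      ∀ η ∈ EE P, ∃! c : Fin g → A, η = ∑ j, c j • ω j

/-- KNZ (K4): elements of `P` with prescribed principal parts. -/
def Stmt_KNZ : Prop :=
  ∀ {I A : Type} [Fintype I] [CommRing A] {g : ℕ} {P : Subalgebra A (KK I A)}, IsKr g P →
    (∃ N : ℕ, Dense P N) ∧
    ∀ N : ℕ, Dense P N → (∀ n : ℤ, N ≤ n → Dense P n) ∧
      (∀ n : ℤ, N < n → ∀ a : I → A, ∃ p ∈ P, p ∈ Pol I A n ∧ ∀ i, (p i).coeff (-n) = a i) ∧
      ∀ n : ℤ, N < n → ∃ z ∈ P, Mon n z

/-- KSP (K5): the section of the polar part; projectivity. -/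
def Stmt_KSP : Prop :=
  ∀ {I A : Type} [Fintype I] [Nonempty I] [CommRing A] {g : ℕ} {P : Subalgebra A (KK I A)}, IsKr g P →
    Module.Projective A P ∧
    ∀ N : ℕ, Dense P N → (∃ s : KK I A →ₗ[A] KK I A, IsSec P s ∧
      ∀ n : ℤ, N ≤ n → ∀ f ∈ Pol I A n, s f ∈ Pol I A n) ∧
      ∀ n : ℤ, N ≤ n → Module.Finite A (PP P n) ∧ Module.Projective A (PP P n)

/-- KBC (K6): base change. -/
def Stmt_KBC : Prop :=
  (∀ {I A B : Type} [CommRing A] [CommRing B] (φ : A →+* B) (P : Subalgebra A (KK I A)),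
    Subalgebra.toSubmodule (bc φ P) = Submodule.span B (kmap φ '' (P : Set (KK I A)))) ∧
  (∀ {I A B C : Type} [CommRing A] [CommRing B] [CommRing C] (φ : A →+* B) (ψ : B →+* C)
    (P : Subalgebra A (KK I A)), bc (ψ.comp φ) P = bc ψ (bc φ P)) ∧
  (∀ {I A : Type} [CommRing A] (P : Subalgebra A (KK I A)), bc (RingHom.id A) P = P) ∧
  ∀ {I A B : Type} [Fintype I] [Nonempty I] [CommRing A] [CommRing B] {g : ℕ}
    {P : Subalgebra A (KK I A)}, IsKr g P → ∀ φ : A →+* B, IsKr g (bc φ P) ∧
      (∀ ω : Fin g → KK I A, IsForms P ω → IsForms (bc φ P) fun j => kmap φ (ω j)) ∧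
      ∀ N : ℕ, Dense P N → Dense (bc φ P) N ∧ ∀ n : ℤ, N ≤ n →
        PP (bc φ P) n = Submodule.span B (kmap φ '' (PP P n : Set (KK I A)))

/-- KBT (K6 (iii)): the base change is the tensor product. -/
def Stmt_KBT : Prop :=
  ∀ {I A B : Type} [Fintype I] [Nonempty I] [CommRing A] [CommRing B] [Algebra A B] {g : ℕ}
    {P : Subalgebra A (KK I A)}, IsKr g P →
    (∀ (m : ℕ) (b : Fin m → B) (p : Fin m → P),
      ∑ k, b k • kmap (algebraMap A B) (p k : KK I A) = 0 → ∑ k, b k ⊗ₜ[A] p k = 0) ∧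
    ∃ e : (B ⊗[A] P) ≃ₐ[B] bc (algebraMap A B) P,
      ∀ (b : B) (p : P), (e (b ⊗ₜ p) : KK I B) = b • kmap (algebraMap A B) (p : KK I A)

/-- KEQ (K7): an inclusion of Krichever rings of the same genus is an equality. -/
def Stmt_KEQ : Prop :=
  ∀ {I A : Type} [CommRing A] {g : ℕ} {P P' : Subalgebra A (KK I A)}, IsKr g P → IsKr g P' →
    P ≤ P' → P = P'

/-- KFL (K8): nilpotent thickenings of Krichever rings. -/
def Stmt_KFL : Prop :=
  ∀ {I A B : Type} [Fintype I] [Nonempty I] [CommRing A] [CommRing B] (φ : A →+* B),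
    Function.Surjective φ → (∃ n : ℕ, RingHom.ker φ ^ n = ⊥) → ∀ {g : ℕ}
    (P : Subalgebra A (KK I A)), IsKr g (bc φ P) →
    (∀ p ∈ P, kmap φ p = 0 → p ∈ RingHom.ker φ • Subalgebra.toSubmodule P) → IsKr g P

/-- KAU (K9): change of coordinates and of the index set. -/
def Stmt_KAU : Prop :=
  (∀ {I A : Type} [CommRing A] {g : ℕ} (P : Subalgebra A (KK I A)) (α : KK I A ≃ₐ[A] KK I A),
    (∀ f, α f ∈ Pol I A 0 ↔ f ∈ Pol I A 0) → IsKr g P →
      IsKr g (P.map (α : KK I A →ₐ[A] KK I A))) ∧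
  ∀ {I I' A : Type} [CommRing A] {g : ℕ} (P : Subalgebra A (KK I A)) (e : I' ≃ I),
    IsKr g P → IsKr g (reix e P)

/-- KFG (K10, K11): Krichever rings are finite over `A[z]` and finitely presented. -/
def Stmt_KFG : Prop :=
  ∀ {I A : Type} [Fintype I] [Nonempty I] [CommRing A] {g : ℕ} {P : Subalgebra A (KK I A)},
    IsKr g P → Algebra.FinitePresentation A P ∧
    ∀ (N : ℕ) (d : ℤ) (z : P), Dense P N → 1 ≤ d → Mon d (z : KK I A) →
      (∀ n : ℤ, N + d < n → ∀ f ∈ PP P n, ∃ p ∈ PP P (n - d), f - z * p ∈ Pol I A (n - 1)) ∧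
      (∀ f : P, ∃ (m : ℕ) (x : Fin m → P), (∀ k, (x k : KK I A) ∈ Pol I A (N + d)) ∧
        f = ∑ k : Fin m, z ^ (k : ℕ) * x k) ∧
      (Polynomial.aeval (R := A) z).toRingHom.Finite ∧
      (∀ h : Polynomial A, h.Monic → IsUnit (Polynomial.aeval (z : KK I A) h)) ∧
      Function.Injective (Polynomial.aeval (R := A) z)

/-! ## The residue theorem -/

/-- An endomorphism of finite rank. -/
def FR {A M : Type} [CommRing A] [AddCommGroup M] [Module A M] (F : M →ₗ[A] M) : Prop :=
  ∃ (n : ℕ) (l : Fin n → (M →ₗ[A] A)) (x : Fin n → M), ∀ m, F m = ∑ k, l k m • x k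

/-- The trace of an endomorphism of finite rank. -/
noncomputable def ftr {A M S : Type} [CommRing A] [AddCommGroup M] [Module A M]
    (b : Module.Basis S A M) (F : M →ₗ[A] M) : A := ∑ᶠ i, b.repr (F (b i)) i

/-- RTR (RES0): the trace. -/
def Stmt_RTR : Prop :=
  ∀ {A M S : Type} [CommRing A] [AddCommGroup M] [Module A M] (b : Module.Basis S A M),
    (∀ (F : M →ₗ[A] M) (n : ℕ) (l : Fin n → (M →ₗ[A] A)) (x : Fin n → M),
      (∀ m, F m = ∑ k, l k m • x k) →
        (Function.support fun i => b.repr (F (b i)) i).Finite ∧ ftr b F = ∑ k, l k (x k)) ∧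
    (∀ F G : M →ₗ[A] M, FR F → FR G → FR (F + G) ∧ ftr b (F + G) = ftr b F + ftr b G) ∧
    (∀ F : M →ₗ[A] M, FR F → FR (-F) ∧ ftr b (-F) = - ftr b F) ∧
    (∀ F T : M →ₗ[A] M, FR F → FR (F ∘ₗ T) ∧ FR (T ∘ₗ F) ∧ ftr b (F ∘ₗ T) = ftr b (T ∘ₗ F))

/-- The series with only negative powers of `τ`. -/
def Neg (I A : Type) [CommRing A] : Submodule A (KK I A) where
  carrier := {f | ∀ i m, 0 ≤ m → (f i).coeff m = 0}
  add_mem' {f g} hf hg i m hm := by
    rw [Pi.add_apply, HahnSeries.coeff_add, hf i m hm, hg i m hm, add_zero]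
  zero_mem' i m _ := by rw [Pi.zero_apply, HahnSeries.coeff_zero]
  smul_mem' a f hf i m hm := by
    rw [Pi.smul_apply, HahnSeries.coeff_smul, hf i m hm, smul_zero]

/-- RTA (RES1): the polar part `π`, and Tate's formula for the residue: the commutator of the
operators `π f` and `π h` on polar parts is of finite rank with trace `res (h df)`. -/
def Stmt_RTA : Prop :=
  ∀ {I A : Type} [Fintype I] [CommRing A], ∃ (π : KK I A →ₗ[A] Neg I A)
    (b : Module.Basis (I × ℕ) A (Neg I A)),
    (∀ f : KK I A, f - π f ∈ Pol I A 0) ∧ (∀ f ∈ Pol I A 0, π f = 0) ∧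
    (∀ f : Neg I A, π f = f) ∧ (∀ i m, (b (i, m) : KK I A) = mon i (-((m : ℤ) + 1)) 1) ∧
    ∀ f h : KK I A, ∀ F H : Neg I A →ₗ[A] Neg I A, (∀ x : Neg I A, F x = π (f * x)) →
      (∀ x : Neg I A, H x = π (h * x)) →
      FR (F ∘ₗ H - H ∘ₗ F) ∧ ftr b (F ∘ₗ H - H ∘ₗ F) = res (h * dd f)

/-- RES (RES2): the residue theorem. -/
def Stmt_RES : Prop :=
  ∀ {I A : Type} [Fintype I] [Nonempty I] [CommRing A] {g : ℕ} {P : Subalgebra A (KK I A)}, IsKr g P →
    ∀ f ∈ P, ∀ h ∈ P, res (f * dd h) = 0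

/-! ## The module of differentials with `res (η P) = 0` -/

/-- PPR (PERP1): the projection to `Perp P`. -/
def Stmt_PPR : Prop :=
  ∀ {I A : Type} [Fintype I] [CommRing A] {g : ℕ} {P : Subalgebra A (KK I A)}, IsKr g P →
    ∀ i₀ : I, ∃ q : KK I A →ₗ[A] KK I A, (∀ x, q x ∈ Perp P) ∧ (∀ x ∈ Perp P, q x = x) ∧
      (∀ x, x - q x - mon i₀ (-1) (res x) ∈ Pol I A 0) ∧
      ∀ (n : ℤ), 1 ≤ n → ∀ x ∈ Pol I A n, q x ∈ Pol I A n

/-- PDP (PERP2): the double orthogonal. -/
def Stmt_PDP : Prop :=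
  ∀ {I A : Type} [Fintype I] [Nonempty I] [CommRing A] {g : ℕ} {P : Subalgebra A (KK I A)},
    IsKr g P → ∀ f : KK I A, (∀ η ∈ Perp P, res (η * f) = 0) → f ∈ P

/-- PBC (PERP3): base change of `Perp`. -/
def Stmt_PBC : Prop :=
  ∀ {I A B : Type} [Fintype I] [Nonempty I] [CommRing A] [CommRing B] {g : ℕ}
    {P : Subalgebra A (KK I A)}, IsKr g P → ∀ φ : A →+* B,
      Perp (bc φ P) = Submodule.span B (kmap φ '' (Perp P : Set (KK I A)))

/-- PNI (PERP4): elements of `Perp P` with coefficients in an ideal. -/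
def Stmt_PNI : Prop :=
  ∀ {I A : Type} [Fintype I] [Nonempty I] [CommRing A] {g : ℕ} {P : Subalgebra A (KK I A)},
    IsKr g P → ∀ J : Ideal A, J.FG → ∀ x ∈ Perp P, (∀ i m, (x i).coeff m ∈ J) →
      x ∈ J • Perp P

end Pool.Agent.MG.G0


end

section

/-!
# Statements on smooth Krichever rings and additional punctures (PAPER.md, SM, LOC, ADD, REM)
-/

open TensorProduct

namespace Pool.Agent.MG.G0

/-- A certificate of smoothness: `∑ Dᵢ(gᵢ) = 1` and `Dᵢ(f) dh = Dᵢ(h) df`. -/
structure IsCert (A R : Type) [CommRing A] [CommRing R] [Algebra A R] {n : ℕ}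
    (D : Fin n → Derivation A R R) (g : Fin n → R) : Prop where
  one : ∑ i, D i (g i) = 1
  cross : ∀ (i : Fin n) (f h : R),
    D i f • KaehlerDifferential.D A R h = D i h • KaehlerDifferential.D A R f

/-- SCO (PAPER SM, consequences, SM2). -/
def Stmt_SCO : Prop :=
  (∀ {A R : Type} [CommRing A] [CommRing R] [Algebra A R] {n : ℕ}
    (D : Fin n → Derivation A R R) (g : Fin n → R), IsCert A R D g → SmC A R ∧
      ∀ (M : Type) [AddCommGroup M] [Module A M] [Module R M] [IsScalarTower A R M]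
        (E : Derivation A R M) (f : R), E f = ∑ i, D i f • E (g i)) ∧
  (∀ {A R : Type} [CommRing A] [CommRing R] [Algebra A R], SmC A R →
    (∃ (n : ℕ) (D : Fin n → Derivation A R R) (g : Fin n → R), IsCert A R D g) ∧
    (∀ (S : Type) [CommRing S] [Algebra A S] [Algebra R S] [IsScalarTower A R S]
      (E E' : Derivation A R S) (f h : R), E f * E' h = E h * E' f) ∧
    ∀ (M N : Type) [AddCommGroup M] [Module A M] [Module R M] [IsScalarTower A R M]
      [AddCommGroup N] [Module A N] [Module R N] [IsScalarTower A R N] (π : M →ₗ[R] N),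
      Function.Surjective π → ∀ E : Derivation A R N, ∃ E' : Derivation A R M,
        ∀ f, π (E' f) = E f)

/-- `R → W` is injective and locally on `R` an isomorphism: the condition of LOC. -/
def Ep (R W : Type) [CommRing R] [CommRing W] [Algebra R W] : Prop :=
  Function.Injective (algebraMap R W) ∧ ∀ w : W, ∃ (n : ℕ) (s : Fin n → R) (a : Fin n → W),
    ∑ k, a k * algebraMap R W (s k) = 1 ∧
      ∀ k, ∃ r : R, algebraMap R W (s k) * w = algebraMap R W r

/-- LOC: extension of derivations. -/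
def Stmt_LOC : Prop :=
  ∀ {A R W : Type} [CommRing A] [CommRing R] [CommRing W] [Algebra A R] [Algebra A W]
    [Algebra R W] [IsScalarTower A R W], Ep R W →
    ∀ (M : Type) [AddCommGroup M] [Module A M] [Module R M] [Module W M] [IsScalarTower A R M]
      [IsScalarTower A W M] [IsScalarTower R W M] (D : Derivation A R M),
      ∃! E : Derivation A W M, ∀ r : R, E (algebraMap R W r) = D r

/-- SBC (SM1): base change, isomorphisms, localization of certificates. -/
def Stmt_SBC : Prop :=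
  (∀ {A B R : Type} [CommRing A] [CommRing B] [CommRing R] [Algebra A B] [Algebra A R],
    SmC A R → SmC B (B ⊗[A] R)) ∧
  (∀ {A R R' : Type} [CommRing A] [CommRing R] [CommRing R'] [Algebra A R] [Algebra A R']
    (_ : R ≃ₐ[A] R'), SmC A R → SmC A R') ∧
  ∀ {A R W : Type} [CommRing A] [CommRing R] [CommRing W] [Algebra A R] [Algebra A W]
    [Algebra R W] [IsScalarTower A R W], Ep R W → SmC A R → SmC A W

/-- SKK (SM3): derivations of `P` with values in Laurent series are `θ d/dτ`. -/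
def Stmt_SKK : Prop :=
  ∀ {I A : Type} [Fintype I] [CommRing A] {g : ℕ} {P : Subalgebra A (KK I A)}, IsKr g P →
    (∃ (m : ℕ) (c : Fin m → KK I A) (f : Fin m → P), ∑ l, c l * dd (f l : KK I A) = 1) ∧
    (SmC A P → ∀ E : Derivation A P (KK I A), ∃! θ : KK I A, ∀ f : P, E f = θ * dd (f : KK I A))

/-- STO (SM4): vector fields and differentials. -/
def Stmt_STO : Prop :=
  ∀ {I A : Type} [Fintype I] [Nonempty I] [CommRing A] {g : ℕ} {P : Subalgebra A (KK I A)},
    IsKr g P →
    (Om P ≤ Perp P) ∧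
    (∀ p ∈ P, ∀ η ∈ Om P, p * η ∈ Om P) ∧ (∀ p ∈ P, ∀ θ ∈ TT P, p * θ ∈ TT P) ∧
    (∀ θ ∈ TT P, ∃ D : Derivation A P P, ∀ f : P, (D f : KK I A) = θ * dd (f : KK I A)) ∧
    (SmC A P → (∀ D : Derivation A P P, ∃ θ ∈ TT P, ∀ f : P,
        (D f : KK I A) = θ * dd (f : KK I A)) ∧
      (∃ (n : ℕ) (θ g' : Fin n → KK I A), (∀ i, θ i ∈ TT P) ∧ (∀ i, g' i ∈ P) ∧
        ∑ i, θ i * dd (g' i) = 1) ∧
      (Dual P ↔ Perp P ≤ Om P))

/-- SCR (SM5): a criterion for smoothness. -/
def Stmt_SCR : Prop :=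
  ∀ {I A : Type} [Fintype I] [Nonempty I] [CommRing A] {g : ℕ} {P : Subalgebra A (KK I A)},
    IsKr g P → Algebra.FormallySmooth A P → ∀ (d : ℤ) (z : P), 1 ≤ d → Mon d (z : KK I A) →
    ∀ f : Polynomial A, f.Monic →
      ((algebraMap P (Localization.Away (Polynomial.aeval z f))).comp
        (Polynomial.aeval (R := A) z).toRingHom).FormallyUnramified → SmC A P

/-- SDB (SM6): base change. -/
def Stmt_SDB : Prop :=
  ∀ {I A B : Type} [Fintype I] [Nonempty I] [CommRing A] [CommRing B] {g : ℕ}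
    {P : Subalgebra A (KK I A)}, IsKr g P → SmC A P → ∀ φ : A →+* B,
      SmC B (bc φ P) ∧ (Dual P → Dual (bc φ P)) ∧
      TT (bc φ P) = Submodule.span B (kmap φ '' (TT P : Set (KK I A)))

/-- SDN (SM7): duality lifts along nilpotent thickenings. -/
def Stmt_SDN : Prop :=
  ∀ {I A B : Type} [Fintype I] [Nonempty I] [CommRing A] [CommRing B] {g : ℕ}
    {P : Subalgebra A (KK I A)}, IsKr g P → SmC A P → ∀ φ : A →+* B,
      Function.Surjective φ → (RingHom.ker φ).FG → (∃ n : ℕ, RingHom.ker φ ^ n = ⊥) →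
      Dual (bc φ P) → Dual P

/-- SDF (SM8): duality over algebraically closed fields. -/
def Stmt_SDF : Prop :=
  ∀ {I κ : Type} [Fintype I] [Nonempty I] [Field κ] [IsAlgClosed κ] {g : ℕ}
    {P : Subalgebra κ (KK I κ)}, IsKr g P → Algebra.FormallySmooth κ P → SmC κ P → Dual P

/-! ## Formal points and additional punctures -/

/-- APT (ADD0): formal points over fields. -/
def Stmt_APT : Prop :=
  ∀ {I κ : Type} [Field κ] {P : Subalgebra κ (KK I κ)}, Algebra.FormallySmooth κ P → SmC κ P →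
    ∀ p : P →ₐ[κ] κ, ∃ pt : FPt P, ∀ f, pt.ev f = p f

/-- AID (ADD1): the powers of the ideal of a formal point. -/
def Stmt_AID : Prop :=
  ∀ {I A : Type} [Fintype I] [Nonempty I] [CommRing A] {g : ℕ} {P : Subalgebra A (KK I A)},
    IsKr g P → SmC A P → ∀ pt : FPt P, pt.id.FG ∧
      (∀ (n : ℕ) (r : P), r ∈ pt.id ^ n →
        ∃ a : A, r - a • (pt.x - algebraMap A P (pt.ev pt.x)) ^ n ∈ pt.id ^ (n + 1)) ∧
      (∀ (n : ℕ) (r : P), r ∈ pt.id ^ n ↔ ∀ m < n, PowerSeries.coeff m (pt.h r) = 0) ∧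
      ∀ (n : ℕ) (f : PowerSeries A), ∃ r : P,
        ∀ m < n, PowerSeries.coeff m (pt.h r) = PowerSeries.coeff m f

/-- AYE (ADD2): several disjoint formal points. -/
def Stmt_AYE : Prop :=
  ∀ {I J A : Type} [Fintype I] [Nonempty I] [Fintype J] [CommRing A] {g : ℕ}
    {P : Subalgebra A (KK I A)}, IsKr g P → SmC A P → ∀ pt : J → FPt P, Disj pt →
      (Ipt pt).FG ∧ (∀ (n : ℕ) (r : P), r ∈ Ipt pt ^ n ↔ ∀ j, r ∈ (pt j).id ^ n) ∧
      (∀ (n : ℕ) (f : J → PowerSeries A), ∃ r : P,
        ∀ j, ∀ m < n, PowerSeries.coeff m ((pt j).h r) = PowerSeries.coeff m (f j)) ∧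
      ∃ (y e : P) (d : ℤ), y ∈ Ipt pt ∧ e ∈ Ipt pt ∧ 1 ≤ d ∧ Mon d (y : KK I A) ∧
        (∀ j, IsUnit (PowerSeries.coeff 1 ((pt j).h y))) ∧
        ∀ s ∈ Ipt pt, ∃ r : P, (1 - e) * s = y * r

/-- AWK (ADD3, ADD4): the ring `WJ pt` is a Krichever ring of the same genus. -/
def Stmt_AWK : Prop :=
  ∀ {I J A : Type} [Fintype I] [Nonempty I] [Fintype J] [CommRing A] {g : ℕ}
    {P : Subalgebra A (KK I A)}, IsKr g P → SmC A P → ∀ pt : J → FPt P, Disj pt →
      IsKr g (WJ pt) ∧ SmC A (WJ pt) ∧ Rem (WJ pt) = P ∧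
      (∀ w ∈ WJ pt, (∀ i, w (Sum.inl i) = 0) → w = 0) ∧
      (∀ w ∈ WJ pt, (∀ j, ∀ m < 0, (w (Sum.inr j)).coeff m = 0) → ∃ r : P, w = hat pt r) ∧
      (∀ (f : J → LaurentSeries A) (M : ℤ), ∃ w ∈ WJ pt,
        ∀ j, ∀ m < M, (w (Sum.inr j)).coeff m = (f j).coeff m) ∧
      (∀ n : ℕ, ∃ (m : ℕ) (s : Fin m → P) (a : Fin m → KK (I ⊕ J) A),
        (∀ k, s k ∈ Ipt pt ^ n) ∧ (∀ k, a k ∈ WJ pt) ∧ ∑ k, a k * hat pt (s k) = 1)

/-- AWD (ADD5): duality for `WJ pt`. -/
def Stmt_AWD : Prop :=
  ∀ {I J A : Type} [Fintype I] [Nonempty I] [Fintype J] [CommRing A] {g : ℕ}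
    {P : Subalgebra A (KK I A)}, IsKr g P → SmC A P → ∀ pt : J → FPt P, Disj pt →
      Dual P → Dual (WJ pt)

/-- `pt'` is the base change of the formal point `pt`. -/
def FPt.Bc {I A B : Type} [CommRing A] [CommRing B] (φ : A →+* B) {P : Subalgebra A (KK I A)}
    (pt : FPt P) (pt' : FPt (bc φ P)) : Prop :=
  (∀ f : P, pt'.h (bcMap φ P f) = PowerSeries.map φ (pt.h f)) ∧ pt'.x = bcMap φ P pt.x

/-- AWB (ADD6): base change of formal points and of `WJ pt`. -/
def Stmt_AWB : Prop :=
  ∀ {I A B : Type} [Fintype I] [Nonempty I] [CommRing A] [CommRing B] {g : ℕ}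
    {P : Subalgebra A (KK I A)}, IsKr g P → ∀ φ : A →+* B,
      (∀ pt : FPt P, ∃! pt' : FPt (bc φ P), pt.Bc φ pt') ∧
      (SmC A P → ∀ {J : Type} [Fintype J] (pt : J → FPt P) (pt' : J → FPt (bc φ P)),
        (∀ j, (pt j).Bc φ (pt' j)) → Disj pt → Disj pt' ∧ WJ pt' = bc φ (WJ pt) ∧
        Ipt pt' = (Ipt pt).map (bcMap φ P))

/-! ## Removing punctures -/

/-- The elements of `W` have arbitrary principal parts at the puncture `inr ()`. -/
def Dns {I A : Type} [CommRing A] (W : Subalgebra A (KK (I ⊕ Unit) A)) : Prop :=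
  ∀ f : LaurentSeries A, ∃ w ∈ W, ∀ m < 0, (w (Sum.inr ())).coeff m = f.coeff m

/-- REM: removing a puncture. -/
def Stmt_REM : Prop :=
  (∀ {I A : Type} [Fintype I] [Nonempty I] [CommRing A] {h : ℕ}
    {W : Subalgebra A (KK (I ⊕ Unit) A)}, IsKr h W → Dns W → IsKr h (Rem W) ∧
      ∀ {B : Type} [CommRing B] (φ : A →+* B), Dns (bc φ W) ∧ Rem (bc φ W) = bc φ (Rem W)) ∧
  (∀ {I κ : Type} [Fintype I] [Nonempty I] [Field κ] {h : ℕ}
    {W : Subalgebra κ (KK (I ⊕ Unit) κ)}, IsKr h W → (∀ w ∈ W, w (Sum.inr ()) = 0 → w = 0) →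
      Dns W) ∧
  ∀ {I A B : Type} [Fintype I] [Nonempty I] [CommRing A] [CommRing B] {h : ℕ}
    {W : Subalgebra A (KK (I ⊕ Unit) A)}, IsKr h W → ∀ φ : A →+* B, Function.Surjective φ →
      (∃ n : ℕ, RingHom.ker φ ^ n = ⊥) → Dns (bc φ W) → Dns W

end Pool.Agent.MG.G0


end

section

/-!
# One puncture: subalgebras of `A((τ))`, the element `z = τ^(-d)`, discriminants
-/

namespace Pool.Agent.MG.G0

section

variable {A B : Type} [CommRing A] [CommRing B]

/-- A subalgebra of `A((τ))` as a subalgebra of `KK Unit A`. -/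
noncomputable def uno (R : Subalgebra A (LaurentSeries A)) : Subalgebra A (KK Unit A) :=
  R.comap (Pi.evalAlgHom A (fun _ : Unit => LaurentSeries A) ())

@[simp] theorem mem_uno {R : Subalgebra A (LaurentSeries A)} {f : KK Unit A} :
    f ∈ uno R ↔ f () ∈ R := Iff.rfl

/-- A subalgebra of `KK Unit A` as a subalgebra of `A((τ))`. -/
noncomputable def duo (P : Subalgebra A (KK Unit A)) : Subalgebra A (LaurentSeries A) where
  carrier := {f | (fun _ => f) ∈ P}
  mul_mem' := fun ha hb => mul_mem (S := Subalgebra A (KK Unit A)) ha hb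
  add_mem' := fun ha hb => add_mem (S := Subalgebra A (KK Unit A)) ha hb
  algebraMap_mem' a := P.algebraMap_mem a

theorem mem_duo {P : Subalgebra A (KK Unit A)} {f : LaurentSeries A} :
    f ∈ duo P ↔ (fun _ => f) ∈ P := Iff.rfl

theorem uno_duo (P : Subalgebra A (KK Unit A)) : uno (duo P) = P := by
  ext f
  rfl

theorem duo_uno (R : Subalgebra A (LaurentSeries A)) : duo (uno R) = R := by
  ext f
  rfl

/-- The series with poles of order at most `n`. -/
noncomputable def Po (A : Type) [CommRing A] (n : ℤ) : Submodule A (LaurentSeries A) where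
  carrier := {f | ∀ m < -n, f.coeff m = 0}
  add_mem' {f g} hf hg m hm := by rw [HahnSeries.coeff_add, hf m hm, hg m hm, add_zero]
  zero_mem' m _ := by rw [HahnSeries.coeff_zero]
  smul_mem' a f hf m hm := by rw [HahnSeries.coeff_smul, hf m hm, smul_zero]

theorem mem_Po {n : ℤ} {f : LaurentSeries A} : f ∈ Po A n ↔ ∀ m < -n, f.coeff m = 0 := Iff.rfl

theorem mem_Pol_unit {n : ℤ} {f : KK Unit A} : f ∈ Pol Unit A n ↔ f () ∈ Po A n :=
  ⟨fun h => h (), fun h _ => h⟩

/-- Krichever rings with one puncture. -/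
def Kr (g : ℕ) (R : Subalgebra A (LaurentSeries A)) : Prop := IsKr g (uno R)

theorem Kr_iff {g : ℕ} {R : Subalgebra A (LaurentSeries A)} : Kr g R ↔
    (∀ f ∈ R, f ∈ Po A 0 → ∃ a : A, f = algebraMap A (LaurentSeries A) a) ∧
    ∃ L : LaurentSeries A →ₗ[A] (Fin g → A), Function.Surjective L ∧
      ∀ f, L f = 0 ↔ ∃ p ∈ R, f - p ∈ Po A 0 := by
  constructor
  · rintro ⟨h1, L, h2, h3⟩
    refine ⟨fun f hf hf0 => ?_, L ∘ₗ LinearMap.pi fun _ => LinearMap.id, fun c => ?_, fun f => ?_⟩
    · obtain ⟨a, ha⟩ := h1 (fun _ => f) hf (mem_Pol_unit.2 hf0)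
      exact ⟨a, congrFun ha ()⟩
    · obtain ⟨f, hf⟩ := h2 c
      exact ⟨f (), hf⟩
    · have := h3 (fun _ => f)
      refine (Iff.trans (Iff.of_eq rfl) this).trans ?_
      constructor
      · rintro ⟨p, hp, hq⟩
        exact ⟨p (), hp, mem_Pol_unit.1 hq⟩
      · rintro ⟨p, hp, hq⟩
        exact ⟨fun _ => p, hp, mem_Pol_unit.2 hq⟩
  · rintro ⟨h1, L, h2, h3⟩
    refine ⟨fun f hf hf0 => ?_, L ∘ₗ LinearMap.proj (), fun c => ?_, fun f => ?_⟩
    · obtain ⟨a, ha⟩ := h1 (f ()) hf (mem_Pol_unit.1 hf0)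
      exact ⟨a, funext fun _ => ha⟩
    · obtain ⟨f, hf⟩ := h2 c
      exact ⟨fun _ => f, hf⟩
    · have := h3 (f ())
      refine (Iff.trans (Iff.of_eq rfl) this).trans ?_
      constructor
      · rintro ⟨p, hp, hq⟩
        exact ⟨fun _ => p, hp, mem_Pol_unit.2 hq⟩
      · rintro ⟨p, hp, hq⟩
        exact ⟨p (), hp, mem_Pol_unit.1 hq⟩

/-- Base change of subalgebras of `A((τ))`. -/
noncomputable def bc1 (φ : A →+* B) (R : Subalgebra A (LaurentSeries A)) :
    Subalgebra B (LaurentSeries B) :=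
  Algebra.adjoin B (lmap φ '' (R : Set (LaurentSeries A)))

theorem bc_uno (φ : A →+* B) (R : Subalgebra A (LaurentSeries A)) :
    bc φ (uno R) = uno (bc1 φ R) := by
  apply le_antisymm
  · refine Algebra.adjoin_le ?_
    rintro _ ⟨f, hf, rfl⟩
    exact Algebra.subset_adjoin ⟨f (), hf, rfl⟩
  · have h : bc1 φ R ≤ duo (bc φ (uno R)) := by
      refine Algebra.adjoin_le ?_
      rintro _ ⟨f, hf, rfl⟩
      exact Algebra.subset_adjoin ⟨fun _ => f, hf, rfl⟩
    intro f hf
    exact h hf

/-! ## The element `z` -/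

/-- `z = τ^(-d)`. -/
noncomputable def zz (A : Type) [CommRing A] (d : ℕ) : LaurentSeries A :=
  HahnSeries.single (-(d : ℤ)) 1

/-- `A[z] → A((τ))`. -/
noncomputable def zpol (A : Type) [CommRing A] (d : ℕ) : Polynomial A →ₐ[A] LaurentSeries A :=
  Polynomial.aeval (zz A d)

theorem lmap_zz (φ : A →+* B) (d : ℕ) : lmap φ (zz A d) = zz B d := by
  rw [zz, lmap_single, map_one]
  rfl

theorem zz_mul_coeff (d : ℕ) (f : LaurentSeries A) (m : ℤ) :
    (zz A d * f).coeff m = f.coeff (m + d) := by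
  have h : m = (m + d) + -(d : ℤ) := by ring
  rw [zz, mul_comm]
  nth_rewrite 1 [h]
  rw [HahnSeries.coeff_mul_single_add, mul_one]

theorem lmap_zpol (φ : A →+* B) (d : ℕ) (p : Polynomial A) :
    lmap φ (zpol A d p) = zpol B d (p.map φ) := by
  have h : (lmap φ).comp (zpol A d : Polynomial A →+* LaurentSeries A) =
      ((zpol B d : Polynomial B →+* LaurentSeries B)).comp (Polynomial.mapRingHom φ) := by
    refine Polynomial.ringHom_ext ?_ ?_
    · intro a
      simp only [RingHom.comp_apply, RingHom.coe_coe, zpol, Polynomial.aeval_C,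
        Polynomial.coe_mapRingHom, Polynomial.map_C, lmap_algebraMap]
    · simp only [RingHom.comp_apply, RingHom.coe_coe, zpol, Polynomial.aeval_X,
        Polynomial.coe_mapRingHom, Polynomial.map_X, lmap_zz]
  exact congrArg (fun F => F p) h

/-- The projection to the series in `τ^d`. -/
noncomputable def pr0 (A : Type) [CommRing A] (d : ℕ) : LaurentSeries A →ₗ[A] LaurentSeries A where
  toFun f :=
    { coeff := fun m => if (d : ℤ) ∣ m then f.coeff m else 0
      isPWO_support' := f.isPWO_support.mono fun m hm => by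
        simp only [Function.mem_support, ne_eq, ite_eq_right_iff, Classical.not_imp] at hm
        exact hm.2 }
  map_add' f g := by
    ext m
    simp only [HahnSeries.coeff_add]
    split_ifs <;> simp
  map_smul' a f := by
    ext m
    simp only [HahnSeries.coeff_smul, RingHom.id_apply]
    split_ifs <;> simp

theorem pr0_coeff (d : ℕ) (f : LaurentSeries A) (m : ℤ) :
    (pr0 A d f).coeff m = if (d : ℤ) ∣ m then f.coeff m else 0 := rfl

theorem pr0_zz_mul (d : ℕ) (f : LaurentSeries A) : pr0 A d (zz A d * f) = zz A d * pr0 A d f := by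
  ext m
  rw [pr0_coeff, zz_mul_coeff, zz_mul_coeff, pr0_coeff]
  have h : (d : ℤ) ∣ m + d ↔ (d : ℤ) ∣ m := by
    rw [dvd_add_left (dvd_refl _)]
  simp only [h]

theorem pr0_zpol_mul (d : ℕ) (p : Polynomial A) (f : LaurentSeries A) :
    pr0 A d (zpol A d p * f) = zpol A d p * pr0 A d f := by
  induction p using Polynomial.induction_on' with
  | add p q hp hq => rw [map_add, add_mul, map_add, hp, hq, add_mul]
  | monomial n a =>
    have h : ∀ (n : ℕ) (f : LaurentSeries A), pr0 A d (zz A d ^ n * f) =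
        zz A d ^ n * pr0 A d f := by
      intro n
      induction n with
      | zero => intro f; rw [pow_zero, one_mul, one_mul]
      | succ n ih => intro f; rw [pow_succ, mul_assoc, ih, pr0_zz_mul, ← mul_assoc]
    rw [zpol, Polynomial.aeval_monomial, ← Algebra.smul_def, smul_mul_assoc, map_smul, h,
      smul_mul_assoc]

theorem lmap_pr0 (φ : A →+* B) (d : ℕ) (f : LaurentSeries A) :
    lmap φ (pr0 A d f) = pr0 B d (lmap φ f) := by
  ext m
  rw [lmap_coeff, pr0_coeff, pr0_coeff, lmap_coeff]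
  split_ifs <;> simp

/-- `e` is a basis of `R` over `A[z]`. -/
structure ZBas (d : ℕ) (R : Subalgebra A (LaurentSeries A)) {ι : Type} [Fintype ι]
    (e : ι → LaurentSeries A) : Prop where
  mem : ∀ i, e i ∈ R
  uni : ∀ x ∈ R, ∃! c : ι → Polynomial A, x = ∑ i, zpol A d (c i) * e i

/-- `G` is the Gram matrix `(pr₀(eᵢ eⱼ))` of `e`. -/
def ZGram (d : ℕ) {ι : Type} (e : ι → LaurentSeries A) (G : Matrix ι ι (Polynomial A)) : Prop :=
  ∀ i j, zpol A d (G i j) = pr0 A d (e i * e j)

/-- `Disc(R, f)`: `R` has a basis over `A[z]` with Gram determinant a unit times `f`. -/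
def Disc (d : ℕ) (R : Subalgebra A (LaurentSeries A)) (f : Polynomial A) : Prop :=
  ∃ (e : Fin d → LaurentSeries A) (G : Matrix (Fin d) (Fin d) (Polynomial A)),
    ZBas d R e ∧ ZGram d e G ∧ ∃ u : Polynomial A, IsUnit u ∧ G.det = u * f

end

/-! ## One puncture: differentials and vector fields -/

section

variable {A : Type} [CommRing A]

/-- The regular differentials of a Krichever ring with one puncture. -/
noncomputable def EE1 (R : Subalgebra A (LaurentSeries A)) : Submodule A (LaurentSeries A) where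
  carrier := {η | (∀ p ∈ R, (η * p).coeff (-1) = 0) ∧ η ∈ Po A 0}
  add_mem' {x y} hx hy := ⟨fun p hp => by
    rw [add_mul, HahnSeries.coeff_add, hx.1 p hp, hy.1 p hp, add_zero], add_mem hx.2 hy.2⟩
  zero_mem' := ⟨fun p _ => by rw [zero_mul, HahnSeries.coeff_zero], zero_mem _⟩
  smul_mem' a x hx := ⟨fun p hp => by
    rw [smul_mul_assoc, HahnSeries.coeff_smul, hx.1 p hp, smul_zero], Submodule.smul_mem _ a hx.2⟩

theorem mem_EE1 {R : Subalgebra A (LaurentSeries A)} {η : LaurentSeries A} :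
    η ∈ EE1 R ↔ (∀ p ∈ R, (η * p).coeff (-1) = 0) ∧ η ∈ Po A 0 := Iff.rfl

/-- The vector fields of a Krichever ring with one puncture. -/
noncomputable def TT1 (R : Subalgebra A (LaurentSeries A)) : Submodule A (LaurentSeries A) where
  carrier := {θ | ∀ f ∈ R, θ * ld f ∈ R}
  add_mem' {x y} hx hy f hf := by
    rw [add_mul]
    exact add_mem (hx f hf) (hy f hf)
  zero_mem' f _ := by
    rw [zero_mul]
    exact zero_mem R
  smul_mem' a x hx f hf := by
    rw [smul_mul_assoc]
    exact R.smul_mem (hx f hf) a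

theorem mem_TT1 {R : Subalgebra A (LaurentSeries A)} {θ : LaurentSeries A} :
    θ ∈ TT1 R ↔ ∀ f ∈ R, θ * ld f ∈ R := Iff.rfl

theorem mem_TT_uno {R : Subalgebra A (LaurentSeries A)} {θ : KK Unit A} :
    θ ∈ TT (uno R) ↔ θ () ∈ TT1 R :=
  ⟨fun h f hf => h (fun _ => f) hf, fun h f hf => h (f ()) hf⟩

theorem res_unit (f : KK Unit A) : res f = (f ()).coeff (-1) :=
  Fintype.sum_unique fun i => (f i).coeff (-1)

theorem mem_EE_uno {R : Subalgebra A (LaurentSeries A)} {η : KK Unit A} :
    η ∈ EE (uno R) ↔ η () ∈ EE1 R := by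
  constructor
  · rintro ⟨h1, h2⟩
    exact ⟨fun p hp => (res_unit _).symm.trans (h1 (fun _ => p) hp), mem_Pol_unit.1 h2⟩
  · rintro ⟨h1, h2⟩
    exact ⟨fun p hp => (res_unit _).trans (h1 (p ()) hp), mem_Pol_unit.2 h2⟩

end

end Pool.Agent.MG.G0


end

section

/-!
# Scaling of the coordinate, and subrings of the ring of coefficients
-/

namespace Pool.Agent.MG.G0

section

variable {A B : Type} [CommRing A] [CommRing B]

/-- Scaling: the series `f` written in the coordinate `c τ`, `f_m τ^m = f_m c^(-m) (c τ)^m`. -/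
noncomputable def sc (c : Aˣ) : LaurentSeries A →ₐ[A] LaurentSeries A where
  toFun f :=
    { coeff := fun m => ((c ^ (-m) : Aˣ) : A) * f.coeff m
      isPWO_support' := f.isPWO_support.mono fun m hm => by
        simp only [Function.mem_support, ne_eq] at hm ⊢
        exact fun h => hm (by rw [h, mul_zero]) }
  map_one' := by
    ext m
    change ((c ^ (-m) : Aˣ) : A) * (1 : LaurentSeries A).coeff m = (1 : LaurentSeries A).coeff m
    rw [HahnSeries.coeff_one]
    split_ifs with h
    · rw [h]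
      simp
    · rw [mul_zero]
  map_zero' := by
    ext m
    change ((c ^ (-m) : Aˣ) : A) * (0 : LaurentSeries A).coeff m = (0 : LaurentSeries A).coeff m
    rw [HahnSeries.coeff_zero, mul_zero]
  map_add' f g := by
    ext m
    change ((c ^ (-m) : Aˣ) : A) * (f + g).coeff m = _
    rw [HahnSeries.coeff_add, mul_add]
    rfl
  map_mul' f g := by
    obtain ⟨a, ha⟩ := exists_low f
    obtain ⟨b, hb⟩ := exists_low g
    ext m
    rw [coeff_mul_Icc (f := ⟨fun m => ((c ^ (-m) : Aˣ) : A) * f.coeff m, _⟩)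
      (g := ⟨fun m => ((c ^ (-m) : Aˣ) : A) * g.coeff m, _⟩) (a := -(a : ℤ)) (b := -(b : ℤ))
      (fun m hm => by
        change ((c ^ (-m) : Aˣ) : A) * f.coeff m = 0
        rw [ha m hm, mul_zero])
      (fun m hm => by
        change ((c ^ (-m) : Aˣ) : A) * g.coeff m = 0
        rw [hb m hm, mul_zero])]
    change ((c ^ (-m) : Aˣ) : A) * (f * g).coeff m = _
    rw [coeff_mul_Icc ha hb, Finset.mul_sum]
    refine Finset.sum_congr rfl fun i _ => ?_
    have h : c ^ (-m) = c ^ (-i) * c ^ (-(m - i)) := by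
      rw [← zpow_add]
      congr 1
      ring
    rw [h, Units.val_mul]
    ring
  commutes' a := by
    ext m
    change ((c ^ (-m) : Aˣ) : A) * (algebraMap A (LaurentSeries A) a).coeff m = _
    rw [coeff_algebraMap]
    split_ifs with h
    · rw [h]
      simp
    · rw [mul_zero]

@[simp] theorem sc_coeff (c : Aˣ) (f : LaurentSeries A) (m : ℤ) :
    (sc c f).coeff m = ((c ^ (-m) : Aˣ) : A) * f.coeff m := rfl

theorem sc_sc (c c' : Aˣ) (f : LaurentSeries A) : sc c (sc c' f) = sc (c * c') f := by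
  ext m
  rw [sc_coeff, sc_coeff, sc_coeff, mul_zpow, Units.val_mul, mul_assoc]

theorem sc_one (f : LaurentSeries A) : sc (1 : Aˣ) f = f := by
  ext m
  rw [sc_coeff, one_zpow, Units.val_one, one_mul]

theorem sc_mem_Po (c : Aˣ) {n : ℤ} {f : LaurentSeries A} (hf : f ∈ Po A n) : sc c f ∈ Po A n :=
  fun m hm => by rw [sc_coeff, hf m hm, mul_zero]

/-- Scaling as an automorphism. -/
noncomputable def scE (c : Aˣ) : LaurentSeries A ≃ₐ[A] LaurentSeries A :=
  AlgEquiv.ofAlgHom (sc c) (sc c⁻¹)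
    (AlgHom.ext fun f => by rw [AlgHom.comp_apply, sc_sc, mul_inv_cancel, sc_one]; rfl)
    (AlgHom.ext fun f => by rw [AlgHom.comp_apply, sc_sc, inv_mul_cancel, sc_one]; rfl)

@[simp] theorem scE_apply (c : Aˣ) (f : LaurentSeries A) : scE c f = sc c f := rfl

theorem lmap_sc (φ : A →+* B) (c : Aˣ) (f : LaurentSeries A) :
    lmap φ (sc c f) = sc (Units.map (φ : A →* B) c) (lmap φ f) := by
  ext m
  rw [lmap_coeff, sc_coeff, map_mul, sc_coeff, lmap_coeff, ← map_zpow, Units.coe_map]
  rfl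

theorem sc_zz (c : Aˣ) (d : ℕ) : sc c (zz A d) = ((c ^ (d : ℤ) : Aˣ) : A) • zz A d := by
  ext m
  rw [sc_coeff, HahnSeries.coeff_smul, zz, HahnSeries.coeff_single, smul_eq_mul]
  split_ifs with h
  · rw [h, neg_neg]
  · rw [mul_zero, mul_zero]

/-- `dτ = c⁻¹ d(cτ)`. -/
theorem sc_ld (c : Aˣ) (f : LaurentSeries A) : ld (sc c f) = ((c⁻¹ : Aˣ) : A) • sc c (ld f) := by
  ext m
  rw [ld_coeff, sc_coeff, HahnSeries.coeff_smul, sc_coeff, ld_coeff, smul_eq_mul]
  have h : c ^ (-(m + 1)) = c⁻¹ * c ^ (-m) := by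
    rw [neg_add, zpow_add, zpow_neg_one, mul_comm]
  rw [h, Units.val_mul]
  ring

/-- The series over `A` whose images over `B` belong to `R`. -/
noncomputable def cut (φ : A →+* B) (R : Subalgebra B (LaurentSeries B)) :
    Subalgebra A (LaurentSeries A) where
  carrier := {f | lmap φ f ∈ R}
  mul_mem' {a b} ha hb := by
    change lmap φ (a * b) ∈ R
    rw [map_mul]
    exact mul_mem ha hb
  add_mem' {a b} ha hb := by
    change lmap φ (a + b) ∈ R
    rw [map_add]
    exact add_mem ha hb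
  algebraMap_mem' a := by
    change lmap φ (algebraMap A (LaurentSeries A) a) ∈ R
    rw [lmap_algebraMap]
    exact R.algebraMap_mem _

@[simp] theorem mem_cut {φ : A →+* B} {R : Subalgebra B (LaurentSeries B)}
    {f : LaurentSeries A} : f ∈ cut φ R ↔ lmap φ f ∈ R := Iff.rfl

end

end Pool.Agent.MG.G0


end

section

/-!
# Models of a Krichever ring at a place
-/

open Polynomial

namespace Pool.Agent.MG.G0

section

variable {κ : Type} [Field κ]

/-- The Gram matrix of `R` over `κ[z]` has rank `r` at `z = c`. -/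
def GRk (d : ℕ) (R : Subalgebra κ (LaurentSeries κ)) (c : κ) (r : ℕ) : Prop :=
  ∃ (e : Fin d → LaurentSeries κ) (G : Matrix (Fin d) (Fin d) κ[X]),
    ZBas d R e ∧ ZGram d e G ∧ (G.map (Polynomial.eval c)).rank = r

/-- `f` has the double root `c`, and no other multiple root. -/
def Dbl (f : κ[X]) (c : κ) : Prop :=
  ∃ h : κ[X], f = (X - C c) ^ 2 * h ∧ h.eval c ≠ 0 ∧ h.Separable

end

/-- A local domain `O` with residue field `κ ⊂ O`, and a generator `π` of the maximal ideal. -/
structure LD (κ O : Type) [Field κ] [CommRing O] [Algebra κ O] where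
  /-- the residue map -/
  rs : O →ₐ[κ] κ
  /-- the uniformizer -/
  π : O
  ne : π ≠ 0
  ker : ∀ x, rs x = 0 → π ∣ x
  rsπ : rs π = 0
  unit : ∀ x, rs x ≠ 0 → IsUnit x

/-- A model over `O` of the Krichever ring `R` over the field of fractions `L` of `O`: a Krichever
ring `P` over `O` with base change `R`, and the discriminant `f` of `R`, with coefficients in
`O`. -/
structure Mdl (κ O L : Type) [Field κ] [CommRing O] [IsDomain O] [Field L] [Algebra κ O]
    [Algebra O L] (g d : ℕ) (R : Subalgebra L (LaurentSeries L)) extends LD κ O where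
  /-- the Krichever ring over `O` -/
  P : Subalgebra O (LaurentSeries O)
  /-- the discriminant -/
  f : O[X]
  val : ValuationRing O
  frac : IsFractionRing O L
  kr : Kr g P
  z : zz O d ∈ P
  bc : bc1 (algebraMap O L) P = R
  monic : f.Monic
  deg : f.natDegree + 1 = 2 * g + d
  disc : Disc d R (f.map (algebraMap O L))
  sep : (f.map (algebraMap O L)).Separable

section

variable {κ O L : Type} [Field κ] [CommRing O] [IsDomain O] [Field L] [Algebra κ O]
  [Algebra O L] {g d : ℕ} {R : Subalgebra L (LaurentSeries L)}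

/-- The reduction. -/
noncomputable def Mdl.Pb (M : Mdl κ O L g d R) : Subalgebra κ (LaurentSeries κ) :=
  bc1 (M.rs : O →+* κ) M.P

/-- The discriminant of the reduction. -/
noncomputable def Mdl.fb (M : Mdl κ O L g d R) : κ[X] := M.f.map (M.rs : O →+* κ)

/-- The discriminant of the reduction has no multiple root, or one double root at which the Gram
matrix has corank two. (Then the reduction is smooth.) -/
def Mdl.Smo (M : Mdl κ O L g d R) : Prop :=
  M.fb.Separable ∨ ∃ c : κ, Dbl M.fb c ∧ GRk d M.Pb c (d - 2)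

/-- The discriminant of the reduction has one double root, the Gram matrix has corank one there,
and the discriminant of the two colliding branch points is a unit times `π²`. (Then the reduction
has one node.) -/
def Mdl.Nod (M : Mdl κ O L g d R) : Prop :=
  ∃ (c : κ) (s₀ u : O) (h : O[X]), Dbl M.fb c ∧ GRk d M.Pb c (d - 1) ∧ M.rs s₀ = c ∧ IsUnit u ∧
    M.f = ((X - C s₀) ^ 2 - C (M.π ^ 2 * u)) * h ∧ (h.map (M.rs : O →+* κ)).eval c ≠ 0

end

end Pool.Agent.MG.G0


end
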