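import Mathlib
import Pool.Agent.KDM.C02

/-! Parts: MG.G0.Ev, MG.G0.DefsX, MG.G0.Tg -/

section

/-!
# Covectors at Krichever rings, and the functions given by a regular function on `T^*M̄_g`
(PAPER.md, sections EV and COVQ)
-/

open TensorProduct

namespace Pool.Agent.MG.G0

section

variable {I : Type} {A B : Type} [CommRing A] [CommRing B]

/-- The algebra `P` as a `P`-submodule of the Laurent series. -/
noncomputable def psub (P : Subalgebra A (KK I A)) : Submodule P (KK I A) :=
  LinearMap.range (Algebra.linearMap P (KK I A))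

theorem mem_psub {P : Subalgebra A (KK I A)} {f : KK I A} : f ∈ psub P ↔ f ∈ P := by
  constructor
  · rintro ⟨p, rfl⟩
    exact p.2
  · intro h
    exact ⟨⟨f, h⟩, rfl⟩

/-- Laurent series modulo `P`. -/
def MM (P : Subalgebra A (KK I A)) : Type := KK I A ⧸ psub P

noncomputable instance (P : Subalgebra A (KK I A)) : AddCommGroup (MM P) :=
  inferInstanceAs (AddCommGroup (KK I A ⧸ psub P))

noncomputable instance (P : Subalgebra A (KK I A)) : Module P (MM P) :=
  inferInstanceAs (Module P (KK I A ⧸ psub P))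

noncomputable instance (P : Subalgebra A (KK I A)) : Module A (MM P) :=
  inferInstanceAs (Module A (KK I A ⧸ psub P))

instance (P : Subalgebra A (KK I A)) : IsScalarTower A P (MM P) :=
  inferInstanceAs (IsScalarTower A P (KK I A ⧸ psub P))

/-- The class modulo `P`. -/
noncomputable def mk (P : Subalgebra A (KK I A)) : KK I A →ₗ[P] MM P := (psub P).mkQ

theorem mk_surj (P : Subalgebra A (KK I A)) : Function.Surjective (mk P) :=
  (psub P).mkQ_surjective

theorem mk_eq {P : Subalgebra A (KK I A)} {f h : KK I A} : mk P f = mk P h ↔ f - h ∈ P :=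
  (Submodule.Quotient.eq (psub P)).trans mem_psub

theorem mk_smulA (P : Subalgebra A (KK I A)) (a : A) (f : KK I A) : mk P (a • f) = a • mk P f :=
  rfl

/-- First order deformations of `P` in the Laurent series (`f + ε h`, `D f = mk h`). -/
abbrev DD (P : Subalgebra A (KK I A)) : Type := Derivation A P (MM P)

/-- The derivation `θ d/dτ` from `P` to Laurent series. -/
noncomputable def dth (P : Subalgebra A (KK I A)) (θ : KK I A) : Derivation A P (KK I A) where
  toFun f := θ * dd (f : KK I A)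
  map_add' f g := by
    change θ * dd ((f : KK I A) + (g : KK I A)) = _
    rw [dd_add, mul_add]
  map_smul' a f := by
    change θ * dd (a • (f : KK I A)) = a • (θ * dd (f : KK I A))
    rw [dd_smul, mul_smul_comm]
  map_one_eq_zero' := by
    change θ * dd ((1 : P) : KK I A) = 0
    have h := dd_algebraMap (I := I) (1 : A)
    rw [map_one] at h
    rw [OneMemClass.coe_one, h, mul_zero]
  leibniz' f g := by
    change θ * dd ((f : KK I A) * (g : KK I A)) =
      (f : KK I A) * (θ * dd (g : KK I A)) + (g : KK I A) * (θ * dd (f : KK I A))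
    rw [dd_mul]
    ring

@[simp] theorem dth_apply (P : Subalgebra A (KK I A)) (θ : KK I A) (f : P) :
    dth P θ f = θ * dd (f : KK I A) := rfl

/-- The class of the derivation `θ d/dτ`. -/
noncomputable def tder (P : Subalgebra A (KK I A)) (θ : KK I A) : DD P := (mk P).compDer (dth P θ)

@[simp] theorem tder_apply (P : Subalgebra A (KK I A)) (θ : KK I A) (f : P) :
    tder P θ f = mk P (θ * dd (f : KK I A)) := rfl

/-- The covectors at `P`: functionals on the first order deformations which vanish on changes of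
the coordinates. -/
noncomputable def CovL (P : Subalgebra A (KK I A)) : Submodule A (DD P →ₗ[A] A) where
  carrier := {L | ∀ θ ∈ Pol I A 0, L (tder P θ) = 0}
  add_mem' {x y} hx hy θ hθ := by rw [LinearMap.add_apply, hx θ hθ, hy θ hθ, add_zero]
  zero_mem' _ _ := rfl
  smul_mem' a x hx θ hθ := by rw [LinearMap.smul_apply, hx θ hθ, smul_zero]

/-- `D'` is the base change of `D`. -/
def Rel (φ : A →+* B) {P : Subalgebra A (KK I A)} (D : DD P) (D' : DD (bc φ P)) : Prop :=
  ∀ (f : P) (h : KK I A), D f = mk P h → D' (bcMap φ P f) = mk (bc φ P) (kmap φ h)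

/-- `L'` is the base change of `L`. -/
def CompatL (φ : A →+* B) {P : Subalgebra A (KK I A)} (L : CovL P) (L' : CovL (bc φ P)) : Prop :=
  ∀ (D : DD P) (D' : DD (bc φ P)), Rel φ D D' → L'.1 D' = φ (L.1 D)

end

/-! ## Quadratic differentials as covectors -/

section

variable {I : Type} [Fintype I] {A B : Type} [CommRing A] [CommRing B]

/-- The residue pairing of `x ∈ Perp P` with the Laurent series modulo `P`. -/
noncomputable def rq {P : Subalgebra A (KK I A)} : Perp P →ₗ[A] MM P →ₗ[A] A where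
  toFun x :=
    { toFun := fun y => Quotient.liftOn' y (fun h => res ((x : KK I A) * h)) (fun a b hab => by
        have h1 : a - b ∈ psub P := (Submodule.quotientRel_def _).1 hab
        have h2 : res ((x : KK I A) * (a - b)) = 0 := x.2 _ (mem_psub.1 h1)
        rw [mul_sub, map_sub, sub_eq_zero] at h2
        exact h2)
      map_add' := by
        intro y z
        obtain ⟨a, rfl⟩ := mk_surj P y
        obtain ⟨b, rfl⟩ := mk_surj P z
        change res ((x : KK I A) * (a + b)) = res ((x : KK I A) * a) + res ((x : KK I A) * b)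
        rw [mul_add, map_add]
      map_smul' := by
        intro c y
        obtain ⟨a, rfl⟩ := mk_surj P y
        change res ((x : KK I A) * (c • a)) = c • res ((x : KK I A) * a)
        rw [mul_smul_comm, map_smul] }
  map_add' x y := by
    refine LinearMap.ext fun z => ?_
    obtain ⟨a, rfl⟩ := mk_surj P z
    change res (((x : KK I A) + (y : KK I A)) * a) = res ((x : KK I A) * a) + res ((y : KK I A) * a)
    rw [add_mul, map_add]
  map_smul' c x := by
    refine LinearMap.ext fun z => ?_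
    obtain ⟨a, rfl⟩ := mk_surj P z
    change res ((c • (x : KK I A)) * a) = c • res ((x : KK I A) * a)
    rw [smul_mul_assoc, map_smul]

@[simp] theorem rq_mk {P : Subalgebra A (KK I A)} (x : Perp P) (h : KK I A) :
    rq x (mk P h) = res ((x : KK I A) * h) := rfl

/-- Data for quadratic differentials: sums of `x ⊗ g` with `x ∈ Perp P`, `g ∈ P` (`x dg`). -/
abbrev QD (P : Subalgebra A (KK I A)) : Type := Perp P ⊗[A] P

/-- The quadratic differential `∑ x dg`. -/
noncomputable def qk (P : Subalgebra A (KK I A)) : QD P →ₗ[A] KK I A :=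
  TensorProduct.lift
    { toFun := fun x =>
        { toFun := fun g => (x : KK I A) * dd (g : KK I A)
          map_add' := fun g h => by
            change (x : KK I A) * dd ((g : KK I A) + (h : KK I A)) = _
            rw [dd_add, mul_add]
          map_smul' := fun c g => by
            change (x : KK I A) * dd (c • (g : KK I A)) = c • ((x : KK I A) * dd (g : KK I A))
            rw [dd_smul, mul_smul_comm] }
      map_add' := fun x y => LinearMap.ext fun g => by
        change ((x : KK I A) + (y : KK I A)) * dd (g : KK I A) = _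
        rw [add_mul]
        rfl
      map_smul' := fun c x => LinearMap.ext fun g => by
        change (c • (x : KK I A)) * dd (g : KK I A) = c • ((x : KK I A) * dd (g : KK I A))
        rw [smul_mul_assoc] }

@[simp] theorem qk_tmul (P : Subalgebra A (KK I A)) (x : Perp P) (g : P) :
    qk P (x ⊗ₜ g) = (x : KK I A) * dd (g : KK I A) := rfl

/-- The functional `D ↦ ∑ res (x D(g))`. -/
noncomputable def Lq (P : Subalgebra A (KK I A)) : QD P →ₗ[A] DD P →ₗ[A] A :=
  TensorProduct.lift
    { toFun := fun x =>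
        { toFun := fun g =>
            { toFun := fun D => rq x (D g)
              map_add' := fun D E => by rw [Derivation.add_apply, map_add]
              map_smul' := fun c D => by
                rw [Derivation.smul_apply, map_smul]
                rfl }
          map_add' := fun g h => LinearMap.ext fun D => by
            change rq x (D (g + h)) = rq x (D g) + rq x (D h)
            rw [map_add, map_add]
          map_smul' := fun c g => LinearMap.ext fun D => by
            change rq x (D (c • g)) = c • rq x (D g)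
            rw [Derivation.map_smul, map_smul] }
      map_add' := fun x y => LinearMap.ext fun g => LinearMap.ext fun D => by
        change rq (x + y) (D g) = rq x (D g) + rq y (D g)
        rw [map_add, LinearMap.add_apply]
      map_smul' := fun c x => LinearMap.ext fun g => LinearMap.ext fun D => by
        change rq (c • x) (D g) = c • rq x (D g)
        rw [map_smul, LinearMap.smul_apply] }

@[simp] theorem Lq_tmul (P : Subalgebra A (KK I A)) (x : Perp P) (g : P) (D : DD P) :
    Lq P (x ⊗ₜ g) D = rq x (D g) := rfl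

theorem Lq_tder (P : Subalgebra A (KK I A)) (q : QD P) (θ : KK I A) :
    Lq P q (tder P θ) = res (θ * qk P q) := by
  induction q using TensorProduct.induction_on with
  | zero => rw [map_zero, map_zero, LinearMap.zero_apply, mul_zero, map_zero]
  | tmul x g =>
    rw [Lq_tmul, tder_apply, rq_mk, qk_tmul]
    congr 1
    ring
  | add a b ha hb => rw [map_add, map_add, LinearMap.add_apply, ha, hb, mul_add, map_add]

/-- Regular quadratic differentials. -/
noncomputable def QR (P : Subalgebra A (KK I A)) : Submodule A (QD P) :=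
  (Pol I A 0).comap (qk P)

theorem mem_QR {P : Subalgebra A (KK I A)} {q : QD P} : q ∈ QR P ↔ qk P q ∈ Pol I A 0 := Iff.rfl

/-- The covector of a regular quadratic differential. -/
noncomputable def cov (P : Subalgebra A (KK I A)) : QR P →ₗ[A] CovL P :=
  LinearMap.codRestrict (CovL P) ((Lq P).comp (QR P).subtype) fun q θ hθ => by
    rw [LinearMap.comp_apply, Submodule.subtype_apply, Lq_tder]
    exact res_Pol0 (mul_mem_Pol0 hθ q.2)

@[simp] theorem cov_apply (P : Subalgebra A (KK I A)) (q : QR P) (D : DD P) :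
    (cov P q).1 D = Lq P q D := rfl

omit [Fintype I] in
/-- Elements of the base change are linear combinations. -/
theorem mem_bc_span (φ : A →+* B) (P : Subalgebra A (KK I A)) {f : KK I B} (hf : f ∈ bc φ P) :
    f ∈ Submodule.span B (kmap φ '' (P : Set (KK I A))) := by
  have h : bc φ P ≤ ({ Submodule.span B (kmap φ '' (P : Set (KK I A))) with
      mul_mem' := fun {a b} ha hb => by
        refine Submodule.span_induction₂ (p := fun a b _ _ => a * b ∈
          Submodule.span B (kmap φ '' (P : Set (KK I A)))) ?_ ?_ ?_ ?_ ?_ ?_ ?_ ha hb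
        · rintro _ _ ⟨x, hx, rfl⟩ ⟨y, hy, rfl⟩
          rw [← map_mul]
          exact Submodule.subset_span ⟨x * y, P.mul_mem hx hy, rfl⟩
        · intro y _
          rw [zero_mul]
          exact zero_mem _
        · intro x _
          rw [mul_zero]
          exact zero_mem _
        · intro x y z _ _ _ h1 h2
          rw [add_mul]
          exact add_mem h1 h2
        · intro x y z _ _ _ h1 h2
          rw [mul_add]
          exact add_mem h1 h2
        · intro r x y _ _ h1
          rw [smul_mul_assoc]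
          exact Submodule.smul_mem _ _ h1
        · intro r x y _ _ h1
          rw [mul_smul_comm]
          exact Submodule.smul_mem _ _ h1
      algebraMap_mem' := fun b => by
        have h1 : algebraMap B (KK I B) b = b • kmap φ (1 : KK I A) := by
          rw [map_one, Algebra.algebraMap_eq_smul_one]
        rw [h1]
        exact Submodule.smul_mem _ _ (Submodule.subset_span ⟨1, P.one_mem, rfl⟩) } :
      Subalgebra B (KK I B)) :=
    Algebra.adjoin_le Submodule.subset_span
  exact h hf

theorem kmap_mem_Perp (φ : A →+* B) {P : Subalgebra A (KK I A)} {x : KK I A} (hx : x ∈ Perp P) :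
    kmap φ x ∈ Perp (bc φ P) := by
  intro p hp
  refine Submodule.span_induction (p := fun p _ => res (kmap φ x * p) = 0) ?_ ?_ ?_ ?_
    (mem_bc_span φ P hp)
  · rintro _ ⟨y, hy, rfl⟩
    rw [← map_mul, res_kmap, hx y hy, map_zero]
  · rw [mul_zero, map_zero]
  · intro y z _ _ h1 h2
    rw [mul_add, map_add, h1, h2, add_zero]
  · intro b y _ h1
    rw [mul_smul_comm, map_smul, h1, smul_zero]

/-- The base change of the data of quadratic differentials. -/
noncomputable def bcQ (φ : A →+* B) (P : Subalgebra A (KK I A)) : QD P →ₛₗ[φ] QD (bc φ P) :=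
  TensorProduct.map
    { toFun := fun x => (⟨kmap φ x, kmap_mem_Perp φ x.2⟩ : Perp (bc φ P))
      map_add' := fun x y => Subtype.ext (map_add (kmap φ) (x : KK I A) y)
      map_smul' := fun a x => Subtype.ext (kmap_smul φ a (x : KK I A)) }
    { toFun := fun g => bcMap φ P g
      map_add' := fun x y => map_add _ x y
      map_smul' := fun a x => Subtype.ext (kmap_smul φ a (x : KK I A)) }

@[simp] theorem bcQ_tmul (φ : A →+* B) (P : Subalgebra A (KK I A)) (x : Perp P) (g : P) :
    bcQ φ P (x ⊗ₜ g) = (⟨kmap φ x, kmap_mem_Perp φ x.2⟩ : Perp (bc φ P)) ⊗ₜ bcMap φ P g := rfl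

theorem qk_bcQ (φ : A →+* B) (P : Subalgebra A (KK I A)) (q : QD P) :
    qk (bc φ P) (bcQ φ P q) = kmap φ (qk P q) := by
  induction q using TensorProduct.induction_on with
  | zero => rw [map_zero, map_zero, map_zero, map_zero]
  | tmul x g => rw [bcQ_tmul, qk_tmul, qk_tmul, map_mul, kmap_dd, bcMap_val]
  | add a b ha hb => rw [map_add, map_add, map_add, map_add, ha, hb]

/-- The base change of regular quadratic differentials. -/
noncomputable def bcR (φ : A →+* B) (P : Subalgebra A (KK I A)) : QR P →ₛₗ[φ] QR (bc φ P) where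
  toFun q := ⟨bcQ φ P q, by rw [mem_QR, qk_bcQ]; exact kmap_mem_Pol φ q.2⟩
  map_add' x y := Subtype.ext (map_add (bcQ φ P) (x : QD P) y)
  map_smul' a x := Subtype.ext (map_smulₛₗ (bcQ φ P) a (x : QD P))

/-- The quadratic differential `ω ∑ p dg` of `ω ∈ EE P` and `∑ p ⊗ g`. -/
noncomputable def tw (P : Subalgebra A (KK I A)) : EE P →ₗ[A] (P ⊗[A] P) →ₗ[A] QD P where
  toFun ω := TensorProduct.map
    { toFun := fun p => (⟨(p : KK I A) * ω, mul_mem_Perp p.2 ω.2.1⟩ : Perp P)
      map_add' := fun x y => Subtype.ext (add_mul (x : KK I A) y ω)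
      map_smul' := fun a x => Subtype.ext (smul_mul_assoc a (x : KK I A) (ω : KK I A)) }
    LinearMap.id
  map_add' ω ω' := by
    refine TensorProduct.ext' fun p g => ?_
    rw [TensorProduct.map_tmul, LinearMap.add_apply, TensorProduct.map_tmul,
      TensorProduct.map_tmul, ← TensorProduct.add_tmul]
    congr 1
    exact Subtype.ext (mul_add (p : KK I A) ω ω')
  map_smul' a ω := by
    refine TensorProduct.ext' fun p g => ?_
    rw [RingHom.id_apply, TensorProduct.map_tmul, LinearMap.smul_apply, TensorProduct.map_tmul,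
      TensorProduct.smul_tmul']
    congr 1
    exact Subtype.ext (mul_smul_comm a (p : KK I A) (ω : KK I A))

/-- The differential `∑ p dg`. -/
noncomputable def dk (P : Subalgebra A (KK I A)) : P ⊗[A] P →ₗ[A] KK I A :=
  TensorProduct.lift
    { toFun := fun p =>
        { toFun := fun g => (p : KK I A) * dd (g : KK I A)
          map_add' := fun g h => by
            change (p : KK I A) * dd ((g : KK I A) + (h : KK I A)) = _
            rw [dd_add, mul_add]
          map_smul' := fun c g => by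
            change (p : KK I A) * dd (c • (g : KK I A)) = c • ((p : KK I A) * dd (g : KK I A))
            rw [dd_smul, mul_smul_comm] }
      map_add' := fun x y => LinearMap.ext fun g => by
        change ((x : KK I A) + (y : KK I A)) * dd (g : KK I A) = _
        rw [add_mul]
        rfl
      map_smul' := fun c x => LinearMap.ext fun g => by
        change (c • (x : KK I A)) * dd (g : KK I A) = c • ((x : KK I A) * dd (g : KK I A))
        rw [smul_mul_assoc] }

omit [Fintype I] in
@[simp] theorem dk_tmul (P : Subalgebra A (KK I A)) (p g : P) :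
    dk P (p ⊗ₜ g) = (p : KK I A) * dd (g : KK I A) := rfl

theorem qk_tw (P : Subalgebra A (KK I A)) (ω : EE P) (η : P ⊗[A] P) :
    qk P (tw P ω η) = (ω : KK I A) * dk P η := by
  induction η using TensorProduct.induction_on with
  | zero => rw [map_zero, map_zero, map_zero, mul_zero]
  | tmul p g =>
    change ((p : KK I A) * (ω : KK I A)) * dd (g : KK I A) = _
    rw [dk_tmul]
    ring
  | add a b ha hb => rw [map_add, map_add, map_add, ha, hb, mul_add]

/-- The differentials `∑ p dg` without poles. -/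
noncomputable def DR (P : Subalgebra A (KK I A)) : Submodule A (P ⊗[A] P) :=
  (Pol I A 0).comap (dk P)

/-- The regular quadratic differential `ω η`. -/
noncomputable def twR (P : Subalgebra A (KK I A)) (ω : EE P) (η : DR P) : QR P :=
  ⟨tw P ω η, by
    rw [mem_QR, qk_tw]
    exact mul_mem_Pol0 ω.2.2 η.2⟩

end

/-! ## Types of fibres -/

section

/-- A smooth curve. -/
def TypeS {I κ : Type} [Field κ] (P : Subalgebra κ (KK I κ)) : Prop :=
  Algebra.FormallySmooth κ P ∧ SmC κ P

/-- An irreducible curve with one node, of genus `g`. -/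
def TypeN {I κ : Type} [Field κ] (g : ℕ) (P : Subalgebra κ (KK I κ)) : Prop :=
  ∃ (h : ℕ) (R : Subalgebra κ (KK I κ)) (p q : R →ₐ[κ] κ), g = h + 1 ∧ IsKr h R ∧ TypeS R ∧
    p ≠ q ∧ ∀ f : KK I κ, f ∈ P ↔ ∃ hf : f ∈ R, p ⟨f, hf⟩ = q ⟨f, hf⟩

/-- A Krichever ring of genus `g` whose geometric fibres are smooth or irreducible with one
node. -/
def Good {I A : Type} [CommRing A] (g : ℕ) (P : Subalgebra A (KK I A)) : Prop :=
  IsKr g P ∧ ∀ (κ : Type) [Field κ] [IsAlgClosed κ] (φ : A →+* κ),
    TypeS (bc φ P) ∨ TypeN g (bc φ P)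

/-- Density at the punctures `J`. -/
def Dn {I J A : Type} [CommRing A] (W : Subalgebra A (KK (I ⊕ J) A)) : Prop :=
  ∀ (f : J → LaurentSeries A) (M : ℤ), ∃ w ∈ W, ∀ j, ∀ m < M,
    (w (Sum.inr j)).coeff m = (f j).coeff m

/-- Compatibility of a deformation `D` of `P = Rem W` and a deformation `E` of `W`: the same
deformation of the curve, after forgetting the punctures `J`. -/
def RelF {I J A : Type} [CommRing A] {P : Subalgebra A (KK I A)}
    {W : Subalgebra A (KK (I ⊕ J) A)} (D : DD P) (E : DD W) : Prop :=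
  ∀ (f : P) (w : W), (∀ i, (w : KK (I ⊕ J) A) (Sum.inl i) = (f : KK I A) i) →
    (∀ j, ∀ m < 0, ((w : KK (I ⊕ J) A) (Sum.inr j)).coeff m = 0) →
    ∃ h : KK (I ⊕ J) A, E w = mk W h ∧ (∀ j, ∀ m < 0, (h (Sum.inr j)).coeff m = 0) ∧
      D f = mk P fun i => h (Sum.inl i)

/-- Compatibility of deformations under a change of coordinates `α` (`P' = α P`). -/
def RelA {I A : Type} [CommRing A] (α : KK I A ≃ₐ[A] KK I A) {P P' : Subalgebra A (KK I A)}
    (D : DD P) (E : DD P') : Prop :=
  ∀ (f : P) (f' : P') (h : KK I A), (f' : KK I A) = α f → D f = mk P h → E f' = mk P' (α h)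

/-- Compatibility of deformations under a change of the index set. -/
def RelI {I I' A : Type} [CommRing A] (e : I' ≃ I) {P : Subalgebra A (KK I A)}
    {P' : Subalgebra A (KK I' A)} (D : DD P) (E : DD P') : Prop :=
  ∀ (f : P) (f' : P') (h : KK I A), (∀ i, (f' : KK I' A) i = (f : KK I A) (e i)) →
    D f = mk P h → E f' = mk P' fun i => h (e i)

end

/-- The functions given by a regular function on `T^*M̄_g`, `g ≥ 3`. -/
structure Ev (g : ℕ) where
  /-- the value at the curve of `P` and the covector `L` -/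
  Φ : ∀ (A I : Type) [CommRing A] [Algebra ℂ A] [Fintype I] (P : Subalgebra A (KK I A)),
    CovL P → A
  /-- base change -/
  nat : ∀ {A B I : Type} [CommRing A] [CommRing B] [Algebra ℂ A] [Algebra ℂ B] [Fintype I]
    [Nonempty I] (φ : A →ₐ[ℂ] B) (P : Subalgebra A (KK I A)), Good g P →
    ∀ (L : CovL P) (L' : CovL (bc (φ : A →+* B) P)), CompatL (φ : A →+* B) L L' →
      Φ B I (bc (φ : A →+* B) P) L' = φ (Φ A I P L)
  /-- change of coordinates -/
  aut : ∀ {A I : Type} [CommRing A] [Algebra ℂ A] [Fintype I] [Nonempty I]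
    (α : KK I A ≃ₐ[A] KK I A), (∀ (n : ℤ) (f : KK I A), α f ∈ Pol I A n ↔ f ∈ Pol I A n) →
    ∀ P P' : Subalgebra A (KK I A), Good g P → Good g P' → (∀ f, f ∈ P ↔ α f ∈ P') →
    ∀ (L : CovL P) (L' : CovL P'), (∀ (D : DD P) (E : DD P'), RelA α D E → L'.1 E = L.1 D) →
      Φ A I P' L' = Φ A I P L
  /-- change of the index set -/
  rix : ∀ {A I I' : Type} [CommRing A] [Algebra ℂ A] [Fintype I] [Nonempty I] [Fintype I']
    [Nonempty I'] (e : I' ≃ I) (P : Subalgebra A (KK I A)) (P' : Subalgebra A (KK I' A)),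
    Good g P → Good g P' → P' = reix e P → ∀ (L : CovL P) (L' : CovL P'),
      (∀ (D : DD P) (E : DD P'), RelI e D E → L'.1 E = L.1 D) → Φ A I' P' L' = Φ A I P L
  /-- forgetting punctures -/
  forget : ∀ {A I J : Type} [CommRing A] [Algebra ℂ A] [Fintype I] [Nonempty I] [Fintype J]
    (P : Subalgebra A (KK I A)) (W : Subalgebra A (KK (I ⊕ J) A)), Good g W → Good g P →
    P = Rem W → Dn W → ∀ (L : CovL P) (L' : CovL W),
      (∀ (D : DD P) (E : DD W), RelF D E → L'.1 E = L.1 D) → Φ A (I ⊕ J) W L' = Φ A I P L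

end Pool.Agent.MG.G0


end

section

/-!
# Interface with the schemes: forgetting punctures, marked points, genericity

The classes of deformations, covectors and the structure `Ev g` are in `Ev.lean`.
-/

namespace Pool.Agent.MG.G0

section

variable {I J : Type} {A B : Type} [CommRing A] [CommRing B]

/-- `P` consists of the functions in `W` without poles at the punctures `J`; `W` is dense at
`J`. -/
structure Forget (W : Subalgebra A (KK (I ⊕ J) A)) (P : Subalgebra A (KK I A)) : Prop where
  eq : P = Rem W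
  inj : ∀ w ∈ W, (∀ i, w (Sum.inl i) = 0) → w = 0
  dns : ∀ (f : J → LaurentSeries A) (M : ℤ), ∃ w ∈ W, ∀ j, ∀ m < M,
    (w (Sum.inr j)).coeff m = (f j).coeff m

/-- Disjoint marked points in the smooth locus. -/
structure Marks {n : ℕ} (P : Subalgebra A (KK I A)) (p : Fin n → (P →ₐ[A] A)) : Prop where
  dis : ∀ i j, i ≠ j → RingHom.ker (p i) ⊔ RingHom.ker (p j) = ⊤
  sm : ∀ i, ∃ t ∈ RingHom.ker (p i), ∀ f ∈ RingHom.ker (p i), ∃ c : A,
    f - c • t ∈ RingHom.ker (p i) ^ 2

end

/-- Functions of Krichever rings with marked points. -/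
def Ev0Fun (n : ℕ) : Type 1 :=
  ∀ (A I : Type) [CommRing A] [Algebra ℂ A] [Fintype I] (P : Subalgebra A (KK I A)),
    (Fin n → (P →ₐ[A] A)) → A

/-- Naturality. -/
def Ev0Fun.Nat {n : ℕ} (g : ℕ) (Φ : Ev0Fun n) : Prop :=
  ∀ {A B I : Type} [CommRing A] [Algebra ℂ A] [CommRing B] [Algebra ℂ B] [Fintype I]
    [Nonempty I] (φ : A →ₐ[ℂ] B) {P : Subalgebra A (KK I A)} (p : Fin n → (P →ₐ[A] A))
    (p' : Fin n → (bc (φ : A →+* B) P →ₐ[B] B)), Good g P → Marks P p →
    (∀ i f, p' i (bcMap (φ : A →+* B) P f) = φ (p i f)) →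
    Φ B I (bc (φ : A →+* B) P) p' = φ (Φ A I P p)

/-- Independence of the coordinates. -/
def Ev0Fun.Aut {n : ℕ} (g : ℕ) (Φ : Ev0Fun n) : Prop :=
  ∀ {A I : Type} [CommRing A] [Algebra ℂ A] [Fintype I] [Nonempty I]
    (α : KK I A ≃ₐ[A] KK I A), (∀ (n : ℤ) (f : KK I A), α f ∈ Pol I A n ↔ f ∈ Pol I A n) →
    ∀ {P : Subalgebra A (KK I A)} (p : Fin n → (P →ₐ[A] A))
      (p' : Fin n → (P.map (α : KK I A →ₐ[A] KK I A) →ₐ[A] A)), Good g P → Marks P p →
    Good g (P.map (α : KK I A →ₐ[A] KK I A)) → Marks (P.map (α : KK I A →ₐ[A] KK I A)) p' →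
    (∀ i (f : P), p' i ⟨α f, ⟨f, f.2, rfl⟩⟩ = p i f) →
    Φ A I (P.map (α : KK I A →ₐ[A] KK I A)) p' = Φ A I P p

/-- Independence of the punctures. -/
def Ev0Fun.Frg {n : ℕ} (g : ℕ) (Φ : Ev0Fun n) : Prop :=
  ∀ {A I : Type} [CommRing A] [Algebra ℂ A] [Fintype I] [Nonempty I]
    (W : Subalgebra A (KK (I ⊕ Unit) A)) (q : Fin n → (W →ₐ[A] A))
    (p : Fin n → (Rem W →ₐ[A] A)), Good g W → Good g (Rem W) → Marks W q → Marks (Rem W) p →
    Dn W →
    (∀ i (f : Rem W) (w : W), (∀ k, (w : KK (I ⊕ Unit) A) (Sum.inl k) = (f : KK I A) k) →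
      (∀ m < 0, ((w : KK (I ⊕ Unit) A) (Sum.inr ())).coeff m = 0) → q i w = p i f) →
    Φ A (I ⊕ Unit) W q = Φ A I (Rem W) p

/-- Independence of the positions of the points. -/
def Ev0Fun.Pos {n : ℕ} (g : ℕ) (Φ : Ev0Fun n) : Prop :=
  ∀ {K I : Type} [Field K] [IsAlgClosed K] [Algebra ℂ K] [Fintype I] [Nonempty I]
    {P : Subalgebra K (KK I K)} (p p' : Fin n → (P →ₐ[K] K)), IsKr g P → TypeS P → Marks P p →
    Marks P p' → Φ K I P p = Φ K I P p'

/-- The functions given by a regular function on `T^*M̄_{g,n}` at the zero covector. -/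
structure Ev0 (g n : ℕ) where
  /-- the function -/
  Φ : Ev0Fun n
  nat : Φ.Nat g
  aut : Φ.Aut g
  forget : Φ.Frg g
  pos : Φ.Pos g

/-- The coefficientwise application of an additive map. -/
noncomputable def kadd {I A : Type} [CommRing A] (D : A →+ A) (f : KK I A) : KK I A :=
  fun i => HahnSeries.map (f i) D

/-- The curve of `P` over `K` is generic: every first order deformation comes from a derivation of
`K`. -/
def Gnr {I K : Type} [Field K] [Algebra ℂ K] (P : Subalgebra K (KK I K)) : Prop :=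
  ∀ δ : DD P, ∃ (D : Derivation ℂ K K) (θ : KK I K), θ ∈ Pol I K 0 ∧
    ∀ f : P, δ f = mk P (kadd (D : K →+ K) (f : KK I K)) + mk P (θ * dd (f : KK I K))

end Pool.Agent.MG.G0


end

section

/-!
# Functions of pairs of formal points (PAPER.md, TG): definitions and the form of Theorem G
-/

namespace Pool.Agent.MG.G0

section

variable {B₀ R : Type} [CommRing B₀] [CommRing R] [Algebra B₀ R]

/-- The homomorphism `p : R → A[[u]]` is a formal point: the coefficients of `u` generate the unit
ideal of `A`. -/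
def FPm {A : Type} [CommRing A] [Algebra B₀ A] (p : R →ₐ[B₀] PowerSeries A) : Prop :=
  Ideal.span (Set.range fun r : R => PowerSeries.coeff 1 (p r)) = ⊤

/-- The formal points `p`, `q` are disjoint. -/
def DJm {A : Type} [CommRing A] [Algebra B₀ A] (p q : R →ₐ[B₀] PowerSeries A) : Prop :=
  Ideal.span (Set.range fun r : R =>
    PowerSeries.constantCoeff (p r) - PowerSeries.constantCoeff (q r)) = ⊤

variable (B₀ R) in
/-- Functions of pairs of formal points of `R` over `B₀`-algebras `A`, with values in `A`. -/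
def CF : Type 1 :=
  ∀ (A : Type) [CommRing A] [Algebra B₀ A], (R →ₐ[B₀] PowerSeries A) →
    (R →ₐ[B₀] PowerSeries A) → A

/-- The formal points `p` and `q` lie in the open set where `b` is invertible. -/
def UnP {A : Type} [CommRing A] [Algebra B₀ A] (b : R) (p q : R →ₐ[B₀] PowerSeries A) : Prop :=
  IsUnit (PowerSeries.constantCoeff (p b)) ∧ IsUnit (PowerSeries.constantCoeff (q b))

/-- Naturality (for disjoint formal points in the open set where `b` is invertible). -/
def CF.Nat (b : R) (c : CF B₀ R) : Prop :=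
  ∀ {A A' : Type} [CommRing A] [Algebra B₀ A] [CommRing A'] [Algebra B₀ A'] (φ : A →ₐ[B₀] A')
    (p q : R →ₐ[B₀] PowerSeries A) (p' q' : R →ₐ[B₀] PowerSeries A'), FPm p → FPm q → DJm p q →
    UnP b p q → (∀ r, p' r = PowerSeries.map (φ : A →+* A') (p r)) →
    (∀ r, q' r = PowerSeries.map (φ : A →+* A') (q r)) → c A' p' q' = φ (c A p q)

/-- Weight `-w` under rescaling of the parameters. -/
def CF.Wt (b : R) (w : ℕ) (c : CF B₀ R) : Prop :=
  ∀ {A : Type} [CommRing A] [Algebra B₀ A] (x y : Aˣ) (p q p' q' : R →ₐ[B₀] PowerSeries A),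
    FPm p → FPm q → DJm p q → UnP b p q →
    (∀ r, p' r = PowerSeries.rescale (x : A) (p r)) →
    (∀ r, q' r = PowerSeries.rescale (y : A) (q r)) →
    ((x : A) * (y : A)) ^ w * c A p' q' = c A p q

end

section

variable {B₀ R₁ R₂ R₁₂ : Type} [CommRing B₀] [CommRing R₁] [CommRing R₂] [CommRing R₁₂]
  [Algebra B₀ R₁] [Algebra B₀ R₂] [Algebra B₀ R₁₂]

/-- Agreement on the pairs of formal points of `R₁₂` in the open set where `b₁ b₂` is
invertible. -/
def CF.Agr (b₁ : R₁) (b₂ : R₂) (ι₁ : R₁ →ₐ[B₀] R₁₂) (ι₂ : R₂ →ₐ[B₀] R₁₂) (c₁ : CF B₀ R₁)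
    (c₂ : CF B₀ R₂) : Prop :=
  ∀ {A : Type} [CommRing A] [Algebra B₀ A] (p q : R₁₂ →ₐ[B₀] PowerSeries A), FPm p → FPm q →
    DJm p q → FPm (p.comp ι₁) → FPm (q.comp ι₁) → DJm (p.comp ι₁) (q.comp ι₁) →
    FPm (p.comp ι₂) → FPm (q.comp ι₂) → DJm (p.comp ι₂) (q.comp ι₂) →
    UnP b₁ (p.comp ι₁) (q.comp ι₁) → UnP b₂ (p.comp ι₂) (q.comp ι₂) →
    c₁ A (p.comp ι₁) (q.comp ι₁) = c₂ A (p.comp ι₂) (q.comp ι₂)

/-- THEOREM G: functions of positive weight vanish. -/
def ThmG (b₁ : R₁) (b₂ : R₂) (ι₁ : R₁ →ₐ[B₀] R₁₂) (ι₂ : R₂ →ₐ[B₀] R₁₂) : Prop :=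
  ∀ (w : ℕ), 1 ≤ w → ∀ (c₁ : CF B₀ R₁) (c₂ : CF B₀ R₂), c₁.Nat b₁ → c₂.Nat b₂ →
    c₁.Wt b₁ w → c₂.Wt b₂ w → CF.Agr b₁ b₂ ι₁ ι₂ c₁ c₂ →
    (∀ {A : Type} [CommRing A] [Algebra B₀ A] (p q : R₁ →ₐ[B₀] PowerSeries A), FPm p → FPm q →
      DJm p q → UnP b₁ p q → c₁ A p q = 0) ∧
    ∀ {A : Type} [CommRing A] [Algebra B₀ A] (p q : R₂ →ₐ[B₀] PowerSeries A), FPm p → FPm q →
      DJm p q → UnP b₂ p q → c₂ A p q = 0

end

section

variable {B₀ I₁ I₂ : Type} [Fintype I₁] [Fintype I₂] [CommRing B₀]

/-- A smooth Krichever ring. -/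
structure SKr {I : Type} [Fintype I] (h : ℕ) (R : Subalgebra B₀ (KK I B₀)) : Prop where
  kr : IsKr h R
  fs : Algebra.FormallySmooth B₀ R
  smc : SmC B₀ R
  dual : Dual R

/-- The rings of two charts of a smooth curve: the complements of the disjoint sets of punctures
`I₁` and `I₂`, and their intersection. -/
structure Chp (h : ℕ) (R₁ : Subalgebra B₀ (KK I₁ B₀)) (R₂ : Subalgebra B₀ (KK I₂ B₀))
    (R₁₂ : Subalgebra B₀ (KK (I₁ ⊕ I₂) B₀)) : Prop where
  s1 : SKr h R₁
  s2 : SKr h R₂
  s12 : SKr h R₁₂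
  f1 : R₁ = Rem R₁₂
  f2 : R₂ = Rem (reix (Equiv.sumComm I₂ I₁) R₁₂)
  d1 : Dn R₁₂
  d2 : Dn (reix (Equiv.sumComm I₂ I₁) R₁₂)
  i1 : ∀ w ∈ R₁₂, (∀ i, w (Sum.inl i) = 0) → w = 0
  i2 : ∀ w ∈ R₁₂, (∀ i, w (Sum.inr i) = 0) → w = 0

/-- `ι₁`, `ι₂` are the inclusions of the rings of the charts. -/
structure Inc {R₁ : Subalgebra B₀ (KK I₁ B₀)} {R₂ : Subalgebra B₀ (KK I₂ B₀)}
    {R₁₂ : Subalgebra B₀ (KK (I₁ ⊕ I₂) B₀)} (ι₁ : R₁ →ₐ[B₀] R₁₂) (ι₂ : R₂ →ₐ[B₀] R₁₂) : Prop where
  e1 : ∀ (f : R₁) (i : I₁), (ι₁ f : KK (I₁ ⊕ I₂) B₀) (Sum.inl i) = (f : KK I₁ B₀) i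
  e2 : ∀ (f : R₂) (i : I₂), (ι₂ f : KK (I₁ ⊕ I₂) B₀) (Sum.inr i) = (f : KK I₂ B₀) i
  r1 : ∀ (f : R₁) (i : I₂), ∀ m < 0, ((ι₁ f : KK (I₁ ⊕ I₂) B₀) (Sum.inr i)).coeff m = 0
  r2 : ∀ (f : R₂) (i : I₁), ∀ m < 0, ((ι₂ f : KK (I₁ ⊕ I₂) B₀) (Sum.inl i)).coeff m = 0

end

end Pool.Agent.MG.G0


end
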