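import Mathlib
import Pool.Agent.MG.Defs0

/-! Parts: MG.Defs, MG.DefsA, MG.Top -/

section

/-!
# Stable curves, covectors and regular functions, as used in the proofs

The statement uses the equivalent definitions of `Std.lean`, which print more briefly.
-/

open CategoryTheory AlgebraicGeometry

namespace Pool.Agent.MG

section Curves

variable {n : ℕ} {k : Type} [Field k]

/-- The arithmetic genus of a (separated, connected) curve over `k`: the dimension of `H¹(X, O)` is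
`g`, where `H¹(X, O) = Γ(U ∩ V)/(Γ(U) + Γ(V))` for affine open `U`, `V` which cover `X`. -/
def HasGenus {X : Scheme.{0}} (π : X ⟶ Sp k) (g : ℕ) : Prop :=
  ∃ U V : X.Opens, IsAffineOpen U ∧ IsAffineOpen V ∧ U ⊔ V = ⊤ ∧
    ∃ L : Γ(X, U ⊓ V) →+ (Fin g → k), Function.Surjective L ∧
      (∀ (c : k) (s : Γ(X, U ⊓ V)), L (coef π (U ⊓ V) c * s) = c • L s) ∧
      ∀ s : Γ(X, U ⊓ V), L s = 0 ↔ ∃ (a : Γ(X, U)) (b : Γ(X, V)),
        s = X.presheaf.map (homOfLE inf_le_left).op a + X.presheaf.map (homOfLE inf_le_right).op b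

/-- A vector field on a pointed curve over `k` which vanishes at the marked points (an
infinitesimal automorphism). -/
structure VField (z : Fam n k) where
  /-- the derivation of the functions on `U` -/
  D : ∀ U : z.X.Opens, Γ(z.X, U) →+ Γ(z.X, U)
  mul : ∀ (U : z.X.Opens) (a b : Γ(z.X, U)), D U (a * b) = a * D U b + b * D U a
  const : ∀ (U : z.X.Opens) (c : k), D U (coef z.π U c) = 0
  res : ∀ (U V : z.X.Opens) (h : U ≤ V) (a : Γ(z.X, V)),
    D U (z.X.presheaf.map (homOfLE h).op a) = z.X.presheaf.map (homOfLE h).op (D V a)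
  sec : ∀ (U : z.X.Opens) (i : Fin n) (a : Γ(z.X, U)), (z.σ i).app U (D U a) = 0

/-- The conditions on the fibres of a stable `n`-pointed curve of genus `g`, over an algebraically
closed field: connected nodal curve of arithmetic genus `g`, distinct marked points in the smooth
locus, no infinitesimal automorphisms. -/
structure StableCurve (g : ℕ) (z : Fam n k) : Prop where
  connected : ConnectedSpace z.X
  nodal : Nodal z.π
  genus : HasGenus z.π g
  distinct : ∀ i j, i ≠ j → z.σ i ≠ z.σ j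
  smooth : ∀ (i : Fin n) (s : Sp k), ∃ U : z.X.Opens, z.σ i s ∈ U ∧ Smooth (U.ι ≫ z.π)
  rigid : ∀ v : VField z, ∀ U, v.D U = 0

end Curves

section Families

variable {n : ℕ} {A B : Type} [CommRing A] [CommRing B]

/-- Stable `n`-pointed curves of genus `g` over `Spec A`: proper, flat, of finite presentation,
with stable geometric fibres. -/
structure IsStable (g : ℕ) (x : Fam n A) : Prop where
  proper : IsProper x.π
  flat : Flat x.π
  fp : LocallyOfFinitePresentation x.π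
  fib : ∀ (k : Type) [Field k] [IsAlgClosed k] (s : A →+* k) (z : Fam n k),
    Nonempty (Arrow s z x) → StableCurve g z

/-- A first order deformation of a stable pointed curve `x` over `A`: a stable pointed curve over
`A[ε]` with restriction `x`. -/
structure Defo (g : ℕ) (x : Fam n A) where
  /-- the curve over `A[ε]` -/
  y : Fam n (Eps A)
  stable : IsStable g y
  /-- the identification of `x` with the restriction to `ε = 0` -/
  r : Arrow (eps0 A) x y

/-- A covector at `x`: an `A`-linear functional on the isomorphism classes of first order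
deformations. The sum of two deformations is the restriction to the diagonal `ε₁ = ε₂ = ε` of a
deformation over `A[ε₁, ε₂]` which restricts to the two given ones on the axes. -/
structure Cov (g : ℕ) (x : Fam n A) where
  /-- the functional -/
  l : Defo g x → A
  iso : ∀ (d d' : Defo g x) (f : Arrow (RingHom.id (Eps A)) d.y d'.y), d.r.f ≫ f.f = d'.r.f →
    l d = l d'
  scale : ∀ (a : A) (d d' : Defo g x) (f : Arrow (epsScale a) d'.y d.y), d'.r.f ≫ f.f = d.r.f →
    l d' = a * l d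
  add : ∀ (z : Fam n (Eps2 A)), IsStable g z → ∀ (r : Arrow (eps20 A) x z) (d₁ d₂ d : Defo g x)
    (f₁ : Arrow (epsPair 1 0) d₁.y z) (f₂ : Arrow (epsPair 0 1) d₂.y z)
    (f : Arrow (epsPair 1 1) d.y z), d₁.r.f ≫ f₁.f = r.f → d₂.r.f ≫ f₂.f = r.f →
    d.r.f ≫ f.f = r.f → l d = l d₁ + l d₂

/-- The zero covector. -/
instance (g : ℕ) (x : Fam n A) : Zero (Cov g x) :=
  ⟨{ l := fun _ => 0
     iso := fun _ _ _ _ => rfl
     scale := fun _ _ _ _ _ => (mul_zero _).symm
     add := fun _ _ _ _ _ _ _ _ _ _ _ _ => (add_zero _).symm }⟩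

/-- For an arrow `y → x` over `φ : A → B`: the covector `l'` at `y` is the pull back of the
covector `l` at `x`. -/
def Compat {g : ℕ} {φ : A →+* B} {y : Fam n B} {x : Fam n A} (a : Arrow φ y x) (l' : Cov g y)
    (l : Cov g x) : Prop :=
  ∀ (d' : Defo g y) (d : Defo g x) (f : Arrow (epsMap φ) d'.y d.y), d'.r.f ≫ f.f = a.f ≫ d.r.f →
    l'.l d' = φ (l.l d)

end Families

/-- A regular function on the cotangent bundle of `M̄_{g,n}`. -/
structure Reg (g n : ℕ) where
  /-- the value at `(x, l)` -/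
  F : ∀ (A : Type) [CommRing A] [Algebra ℂ A] (x : Fam n A), IsStable g x → Cov g x → A
  nat : ∀ (A B : Type) [CommRing A] [Algebra ℂ A] [CommRing B] [Algebra ℂ B] (φ : A →ₐ[ℂ] B)
    (x : Fam n A) (y : Fam n B) (hx : IsStable g x) (hy : IsStable g y)
    (a : Arrow (φ : A →+* B) y x) (l : Cov g x) (l' : Cov g y), Compat a l' l →
    F B y hy l' = φ (F A x hx l)

end Pool.Agent.MG


end

section

/-!
# Square zero thickenings, two-chart data, Kodaira–Spencer classes

Definitions used in the proofs (not in the statement) of the theorem on pointed curves.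
-/

open CategoryTheory AlgebraicGeometry TensorProduct

namespace Pool.Agent.MG

/-! ## Square zero extensions of the base ring -/

/-- A square zero extension `E → B` of rings with a section, with kernel free on the `ε j`. -/
structure SqE (B E J : Type) [CommRing B] [CommRing E] [Fintype J] where
  /-- the projection -/
  p : E →+* B
  /-- the section -/
  i : B →+* E
  pi : ∀ b, p (i b) = b
  /-- the generators of the kernel -/
  ε : J → E
  pe : ∀ j, p (ε j) = 0
  mul : ∀ a b, ε a * ε b = 0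
  ex : ∀ a, p a = 0 → ∃ b : J → B, a = ∑ j, ε j * i (b j)
  un : ∀ b : J → B, ∑ j, ε j * i (b j) = 0 → b = 0

/-- `B[ε] → B`. -/
noncomputable def sqEps (B : Type) [CommRing B] : SqE B (Eps B) Unit where
  p := eps0 B
  i := (TrivSqZeroExt.inlHom B B)
  pi b := by simp
  ε _ := TrivSqZeroExt.inr 1
  pe _ := by simp
  mul _ _ := by simp
  ex a ha := by
    refine ⟨fun _ => a.snd, ?_⟩
    have h : a.fst = 0 := by simpa using ha
    ext <;> simp [h]
  un b hb := by
    funext j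
    have := congrArg TrivSqZeroExt.snd hb
    simpa using this

/-- `B[ε₁, ε₂]/(ε₁, ε₂)² → B`; `ε true = ε₁`, `ε false = ε₂`. -/
noncomputable def sqEps2 (B : Type) [CommRing B] : SqE B (Eps2 B) Bool where
  p := eps20 B
  i := (TrivSqZeroExt.inlHom B (B × B))
  pi b := by simp
  ε j := TrivSqZeroExt.inr (if j then (1, 0) else (0, 1))
  pe _ := by simp
  mul _ _ := by simp
  ex a ha := by
    refine ⟨fun j => if j then a.snd.1 else a.snd.2, ?_⟩
    have h : a.fst = 0 := by simpa using ha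
    ext <;> simp [h]
  un b hb := by
    have h := congrArg TrivSqZeroExt.snd hb
    have h1 := congrArg Prod.fst h
    have h2 := congrArg Prod.snd h
    funext j
    cases j
    · simpa using h2
    · simpa using h1

/-- A morphism of square zero extensions over `φ : B → B'`: `ε j ↦ ∑ l, m j l ε' l`. -/
structure SqHom {B E J B' E' J' : Type} [CommRing B] [CommRing E] [Fintype J] [CommRing B']
    [CommRing E'] [Fintype J'] (S : SqE B E J) (S' : SqE B' E' J') (φ : B →+* B')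
    (m : J → J' → B') where
  /-- the ring homomorphism -/
  Φ : E →+* E'
  hi : ∀ b, Φ (S.i b) = S'.i (φ b)
  he : ∀ j, Φ (S.ε j) = ∑ l, S'.ε l * S'.i (m j l)

/-! ## Flat thickenings of families -/

section Thk

variable {n : ℕ} {B E J : Type} [CommRing B] [CommRing E] [Fintype J]

/-- A flat thickening over `E` of a family over `B`. -/
structure Thk (S : SqE B E J) (x : Fam n B) where
  /-- the family over `E` -/
  y : Fam n E
  flat : Flat y.π
  /-- the identification of `x` with the restriction to `B` -/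
  r : Arrow S.p x y

/-- A first order deformation of a stable curve as a flat thickening. -/
noncomputable def Defo.thk {g : ℕ} {x : Fam n B} (d : Defo g x) : Thk (sqEps B) x :=
  ⟨d.y, d.stable.flat, d.r⟩

/-- The open subset of the thickening which corresponds to `U`. -/
noncomputable def Thk.op {S : SqE B E J} {x : Fam n B} (t : Thk S x) (U : x.X.Opens) :
    t.y.X.Opens :=
  sSup {W | t.r.f ⁻¹ᵁ W ≤ U}

end Thk

/-- Restriction of functions. -/
noncomputable abbrev rs (X : Scheme.{0}) {U V : X.Opens} (h : U ≤ V) : Γ(X, V) →+* Γ(X, U) :=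
  (X.presheaf.map (homOfLE h).op).hom

/-- `U` is the union of two affine opens with affine intersection, and `H¹(U, O) = 0`. -/
def Acyc {X : Scheme.{0}} (U : X.Opens) : Prop :=
  ∃ W W' : X.Opens, IsAffineOpen W ∧ IsAffineOpen W' ∧ IsAffineOpen (W ⊓ W') ∧ W ⊔ W' = U ∧
    ∀ s : Γ(X, W ⊓ W'), ∃ (a : Γ(X, W)) (b : Γ(X, W')),
      s = rs X inf_le_left a + rs X inf_le_right b

/-- `A → Γ(Spec A, ⊤)`. -/
noncomputable def gl (A : Type) [CommRing A] : A →+* Γ(Sp A, ⊤) :=
  (Scheme.ΓSpecIso (CommRingCat.of A)).inv.hom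

/-! ## Two-chart data -/

/-- Ring data of a curve `C = V₁ ∪ V₂` over `k` with étale coordinates `x` on `V₁`, `y` on `V₂`;
`dd = d/dx` on `V₁ ∩ V₂` and `e dd = d/dy`. -/
structure TC (k : Type) [Field k] where
  /-- `Γ(V₁)` -/
  R1 : Type
  /-- `Γ(V₂)` -/
  R2 : Type
  /-- `Γ(V₁ ∩ V₂)` -/
  R12 : Type
  [cr1 : CommRing R1]
  [cr2 : CommRing R2]
  [cr12 : CommRing R12]
  [al1 : Algebra k R1]
  [al2 : Algebra k R2]
  [al12 : Algebra k R12]
  /-- restriction -/
  j1 : R1 →ₐ[k] R12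
  /-- restriction -/
  j2 : R2 →ₐ[k] R12
  /-- the coordinate on `V₁` -/
  x : R1
  /-- the coordinate on `V₂` -/
  y : R2
  etx : (Polynomial.aeval x : Polynomial k →ₐ[k] R1).toRingHom.Etale
  ety : (Polynomial.aeval y : Polynomial k →ₐ[k] R2).toRingHom.Etale
  et1 : j1.toRingHom.Etale
  et2 : j2.toRingHom.Etale
  /-- `d/dx` -/
  dd : Derivation k R12 R12
  ddx : dd (j1 x) = 1
  /-- `dx/dy` -/
  e : R12
  ey : e * dd (j2 y) = 1

attribute [instance] TC.cr1 TC.cr2 TC.cr12 TC.al1 TC.al2 TC.al12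

section

variable {n : ℕ} {k : Type} [Field k] {T : TC k}

/-- A point of one of the charts with values in `B`. -/
inductive Pt (T : TC k) (B : Type) [CommRing B] [Algebra k B]
  | one (φ : T.R1 →ₐ[k] B)
  | two (ψ : T.R2 →ₐ[k] B)

section

variable {B : Type} [CommRing B] [Algebra k B]

/-- Base change of points. -/
def Pt.map {B' : Type} [CommRing B'] [Algebra k B'] (f : B →ₐ[k] B') : Pt T B → Pt T B'
  | .one φ => .one (f.comp φ)
  | .two ψ => .two (f.comp ψ)

/-- Evaluation of functions on `V₁` at points in the first chart, `0` in the second. -/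
def Pt.l1 : Pt T B → (T.R1 →ₗ[k] B)
  | .one φ => φ.toLinearMap
  | .two _ => 0

/-- Evaluation of functions on `V₂` at points in the second chart, `0` in the first. -/
def Pt.l2 : Pt T B → (T.R2 →ₗ[k] B)
  | .one _ => 0
  | .two ψ => ψ.toLinearMap

/-- Covector data. -/
structure CovData (s : Fin n → Pt T B) where
  /-- the functional on vector fields on `V₁ ∩ V₂` -/
  μ : T.R12 →ₗ[k] B
  /-- the weights of the sections -/
  ν : Fin n → B
  m1 : ∀ a : T.R1, μ (T.j1 a) + ∑ i, ν i * (s i).l1 a = 0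
  m2 : ∀ a : T.R2, μ (T.e * T.j2 a) = ∑ i, ν i * (s i).l2 a

/-- `B`-linear extension of a functional on `R₁₂`. -/
noncomputable def ext {R : Type} [CommRing R] [Algebra k R] (μ : R →ₗ[k] B) : B ⊗[k] R →ₗ[k] B :=
  LinearMap.mul' k B ∘ₗ TensorProduct.map LinearMap.id μ

/-- `B`-linear extension of a homomorphism. -/
noncomputable def extA {R : Type} [CommRing R] [Algebra k R] (φ : R →ₐ[k] B) : B ⊗[k] R →ₐ[k] B :=
  Algebra.TensorProduct.lift (AlgHom.id k B) φ (fun _ _ => Commute.all _ _)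

/-! ## Ring data of a thickening of a charted family -/

/-- Ring data of a flat thickening over `E` of a family with charts `B ⊗ R₁`, `B ⊗ R₂`. -/
structure RData (T : TC k) {E J : Type} [CommRing E] [Fintype J] (S : SqE B E J) where
  /-- functions on the first chart of the thickening -/
  G1 : Type
  /-- functions on the second chart of the thickening -/
  G2 : Type
  /-- functions on the intersection -/
  G12 : Type
  [c1 : CommRing G1]
  [c2 : CommRing G2]
  [c12 : CommRing G12]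
  /-- structure map -/
  a1 : E →+* G1
  /-- structure map -/
  a2 : E →+* G2
  /-- structure map -/
  a12 : E →+* G12
  /-- restriction -/
  f1 : G1 →+* G12
  /-- restriction -/
  f2 : G2 →+* G12
  fa1 : ∀ z, f1 (a1 z) = a12 z
  fa2 : ∀ z, f2 (a2 z) = a12 z
  /-- reduction -/
  q1 : G1 →+* B ⊗[k] T.R1
  /-- reduction -/
  q2 : G2 →+* B ⊗[k] T.R2
  /-- reduction -/
  q12 : G12 →+* B ⊗[k] T.R12
  qa1 : ∀ z, q1 (a1 z) = S.p z ⊗ₜ 1
  qa2 : ∀ z, q2 (a2 z) = S.p z ⊗ₜ 1
  qa12 : ∀ z, q12 (a12 z) = S.p z ⊗ₜ 1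
  qf1 : ∀ v, q12 (f1 v) = Algebra.TensorProduct.map (AlgHom.id k B) T.j1 (q1 v)
  qf2 : ∀ v, q12 (f2 v) = Algebra.TensorProduct.map (AlgHom.id k B) T.j2 (q2 v)
  sur1 : Function.Surjective q1
  sur2 : Function.Surjective q2
  sur12 : Function.Surjective q12
  ker1 : ∀ v, q1 v = 0 → ∃ w : J → G1, v = ∑ j, a1 (S.ε j) * w j
  ker2 : ∀ v, q2 v = 0 → ∃ w : J → G2, v = ∑ j, a2 (S.ε j) * w j
  ker12 : ∀ v, q12 v = 0 → ∃ w : J → G12, v = ∑ j, a12 (S.ε j) * w j
  un1 : ∀ w : J → G1, ∑ j, a1 (S.ε j) * w j = 0 → ∀ j, q1 (w j) = 0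
  un2 : ∀ w : J → G2, ∑ j, a2 (S.ε j) * w j = 0 → ∀ j, q2 (w j) = 0
  un12 : ∀ w : J → G12, ∑ j, a12 (S.ε j) * w j = 0 → ∀ j, q12 (w j) = 0

attribute [instance] RData.c1 RData.c2 RData.c12

variable {E J : Type} [CommRing E] [Fintype J] {S : SqE B E J}

/-- A section of the thickening which lifts the point `φ` in the first chart. -/
structure RData.Sec1 (D : RData T S) (φ : T.R1 →ₐ[k] B) where
  /-- the section -/
  g : D.G1 →+* E
  ga : ∀ z, g (D.a1 z) = z
  gq : ∀ v, S.p (g v) = extA φ (D.q1 v)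

/-- A section of the thickening which lifts the point `ψ` in the second chart. -/
structure RData.Sec2 (D : RData T S) (ψ : T.R2 →ₐ[k] B) where
  /-- the section -/
  g : D.G2 →+* E
  ga : ∀ z, g (D.a2 z) = z
  gq : ∀ v, S.p (g v) = extA ψ (D.q2 v)

/-- A section of the thickening which lifts the point `s`. -/
def RData.Sec (D : RData T S) : Pt T B → Type
  | .one φ => D.Sec1 φ
  | .two ψ => D.Sec2 ψ

/-- The value at the coordinate of a section of the thickening: `x ↦ φ(x) + ∑ ε j δ j` in the first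
chart, `y ↦ ψ(y) + ∑ ε j δ j` in the second. -/
def RData.Dlt (D : RData T S) (u1 : D.G1) (u2 : D.G2) :
    (s : Pt T B) → D.Sec s → (J → B) → Prop
  | .one φ, γ, δ => RData.Sec1.g γ u1 = S.i (φ T.x) + ∑ j, S.ε j * S.i (δ j)
  | .two ψ, γ, δ => RData.Sec2.g γ u2 = S.i (ψ T.y) + ∑ j, S.ε j * S.i (δ j)

/-- `(h, δ)` is a Kodaira–Spencer class: there are lifts `θ₁ : R₁ → G₁`, `θ₂ : R₂ → G₂` of the
charts with extensions `t₁`, `t₂` to `R₁₂`, `t₁ = t₂ + ∑ ε j h j dd`, and the sections are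
`x ↦ sᵢ(x) + ∑ ε j δ j i` (first chart), `y ↦ sᵢ(y) + ∑ ε j δ j i` (second chart). -/
structure RKS (D : RData T S) (s : Fin n → Pt T B) (γ : ∀ i, D.Sec (s i))
    (h : J → B ⊗[k] T.R12) (δ : J → Fin n → B) where
  /-- the lift on the first chart -/
  θ1 : T.R1 →+* D.G1
  /-- the lift on the second chart -/
  θ2 : T.R2 →+* D.G2
  k1 : ∀ c : k, θ1 (algebraMap k T.R1 c) = D.a1 (S.i (algebraMap k B c))
  k2 : ∀ c : k, θ2 (algebraMap k T.R2 c) = D.a2 (S.i (algebraMap k B c))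
  l1 : ∀ a, D.q1 (θ1 a) = 1 ⊗ₜ a
  l2 : ∀ a, D.q2 (θ2 a) = 1 ⊗ₜ a
  /-- the extension of `θ1` to the intersection -/
  t1 : T.R12 →+* D.G12
  /-- the extension of `θ2` to the intersection -/
  t2 : T.R12 →+* D.G12
  e1 : ∀ a, t1 (T.j1 a) = D.f1 (θ1 a)
  e2 : ∀ a, t2 (T.j2 a) = D.f2 (θ2 a)
  lt1 : ∀ a, D.q12 (t1 a) = 1 ⊗ₜ a
  lt2 : ∀ a, D.q12 (t2 a) = 1 ⊗ₜ a
  diff : ∀ a : T.R12, ∃ v : J → D.G12, (∀ j, D.q12 (v j) = h j * (1 ⊗ₜ T.dd a)) ∧
    t1 a = t2 a + ∑ j, D.a12 (S.ε j) * v j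
  dl : ∀ i, D.Dlt (θ1 T.x) (θ2 T.y) (s i) (γ i) (fun j => δ j i)

end

/-! ## Charted families -/

section

variable {B : Type} [CommRing B] [Algebra k B]

/-- Two charts of a family `x` over a `k`-algebra `B`: acyclic opens `U₁`, `U₂` with acyclic
intersection, with functions `B ⊗ R₁`, `B ⊗ R₂`, `B ⊗ R₁₂`. -/
structure Charted (T : TC k) (x : Fam n B) where
  /-- the first chart -/
  U1 : x.X.Opens
  /-- the second chart -/
  U2 : x.X.Opens
  cover : U1 ⊔ U2 = ⊤
  ac1 : Acyc U1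
  ac2 : Acyc U2
  ac12 : Acyc (U1 ⊓ U2)
  /-- functions on `U₁` -/
  t1 : B ⊗[k] T.R1 →+* Γ(x.X, U1)
  /-- functions on `U₂` -/
  t2 : B ⊗[k] T.R2 →+* Γ(x.X, U2)
  /-- functions on `U₁ ∩ U₂` -/
  t12 : B ⊗[k] T.R12 →+* Γ(x.X, U1 ⊓ U2)
  b1 : Function.Bijective t1
  b2 : Function.Bijective t2
  b12 : Function.Bijective t12
  c1 : ∀ b : B, t1 (b ⊗ₜ 1) = coef x.π U1 b
  c2 : ∀ b : B, t2 (b ⊗ₜ 1) = coef x.π U2 b
  c12 : ∀ b : B, t12 (b ⊗ₜ 1) = coef x.π (U1 ⊓ U2) b
  r1 : ∀ a : T.R1, rs x.X inf_le_left (t1 (1 ⊗ₜ a)) = t12 (1 ⊗ₜ T.j1 a)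
  r2 : ∀ a : T.R2, rs x.X inf_le_right (t2 (1 ⊗ₜ a)) = t12 (1 ⊗ₜ T.j2 a)

/-- The section `σ` lies in the first chart and is given there by `φ`. -/
def Charted.Is1 {x : Fam n B} (ct : Charted T x) (σ : Sp B ⟶ x.X) (φ : T.R1 →ₐ[k] B) : Prop :=
  ∃ h : ⊤ ≤ σ ⁻¹ᵁ ct.U1, ∀ a : T.R1, (σ.appLE ct.U1 ⊤ h).hom (ct.t1 (1 ⊗ₜ a)) = gl B (φ a)

/-- The section `σ` lies in the second chart and is given there by `ψ`. -/
def Charted.Is2 {x : Fam n B} (ct : Charted T x) (σ : Sp B ⟶ x.X) (ψ : T.R2 →ₐ[k] B) : Prop :=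
  ∃ h : ⊤ ≤ σ ⁻¹ᵁ ct.U2, ∀ a : T.R2, (σ.appLE ct.U2 ⊤ h).hom (ct.t2 (1 ⊗ₜ a)) = gl B (ψ a)

/-- The section `σ` lies in a chart and is given there by the point `s`. -/
def Charted.Is {x : Fam n B} (ct : Charted T x) (σ : Sp B ⟶ x.X) : Pt T B → Prop
  | .one φ => ct.Is1 σ φ
  | .two ψ => ct.Is2 σ ψ

end

end

end Pool.Agent.MG


end

section

/-!
# The topology of a thickening
-/

open CategoryTheory AlgebraicGeometry TensorProduct

namespace Pool.Agent.MG

section SqE

variable {B E J : Type} [CommRing B] [CommRing E] [Fintype J] (S : SqE B E J)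

theorem SqE.p_surjective : Function.Surjective S.p := fun b => ⟨S.i b, S.pi b⟩

theorem SqE.mul_of_p_eq_zero {a b : E} (ha : S.p a = 0) (hb : S.p b = 0) : a * b = 0 := by
  obtain ⟨u, rfl⟩ := S.ex a ha
  obtain ⟨v, rfl⟩ := S.ex b hb
  rw [Finset.sum_mul_sum]
  refine Finset.sum_eq_zero fun i _ => Finset.sum_eq_zero fun j _ => ?_
  calc S.ε i * S.i (u i) * (S.ε j * S.i (v j)) = (S.ε i * S.ε j) * (S.i (u i) * S.i (v j)) := by
        ring
    _ = 0 := by rw [S.mul, zero_mul]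

theorem SqE.isNilpotent_of_p_eq_zero {a : E} (ha : S.p a = 0) : IsNilpotent a :=
  ⟨2, by rw [pow_two]; exact S.mul_of_p_eq_zero ha ha⟩

instance SqE.closed : IsClosedImmersion (spMap S.p) :=
  IsClosedImmersion.spec_of_surjective _ S.p_surjective

instance SqE.surj : Surjective (spMap S.p) := by
  constructor
  change Function.Surjective (PrimeSpectrum.comap S.p)
  rw [← Set.range_eq_univ, range_comap_of_surjective _ _ S.p_surjective,
    PrimeSpectrum.zeroLocus_eq_univ_iff]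
  intro a ha
  exact (mem_nilradical).2 (S.isNilpotent_of_p_eq_zero ha)

end SqE

section Thk

variable {n : ℕ} {B E J : Type} [CommRing B] [CommRing E] [Fintype J] {S : SqE B E J}
  {x : Fam n B} (t : Thk S x)

instance Thk.closed : IsClosedImmersion t.r.f :=
  MorphismProperty.of_isPullback t.r.cart.flip inferInstance

instance Thk.surj : Surjective t.r.f :=
  MorphismProperty.of_isPullback t.r.cart.flip inferInstance

theorem Thk.injective : Function.Injective t.r.f :=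
  t.r.f.isClosedEmbedding.injective

theorem Thk.pre (U : x.X.Opens) : t.r.f ⁻¹ᵁ (t.op U) = U := by
  apply le_antisymm
  · intro a ha
    obtain ⟨W, hW, haW⟩ : ∃ W ∈ {W : t.y.X.Opens | t.r.f ⁻¹ᵁ W ≤ U}, t.r.f a ∈ W := by
      have ha' : t.r.f a ∈ t.op U := ha
      unfold Thk.op at ha'
      simpa using ha'
    exact hW haW
  · intro a ha
    obtain ⟨V, hV, hVU⟩ := t.r.f.isClosedEmbedding.isInducing.isOpen_iff.1 U.isOpen
    have h1 : t.r.f ⁻¹ᵁ ⟨V, hV⟩ ≤ U := by
      intro b hb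
      have : b ∈ t.r.f ⁻¹' V := hb
      rw [hVU] at this
      exact this
    have h2 : t.r.f a ∈ V := by
      have : a ∈ t.r.f ⁻¹' V := by
        rw [hVU]
        exact ha
      exact this
    have h3 : (⟨V, hV⟩ : t.y.X.Opens) ≤ t.op U := le_sSup h1
    exact h3 h2

theorem Thk.le_op_iff (W : t.y.X.Opens) (U : x.X.Opens) : W ≤ t.op U ↔ t.r.f ⁻¹ᵁ W ≤ U := by
  constructor
  · intro h a ha
    have : a ∈ t.r.f ⁻¹ᵁ (t.op U) := h ha
    rwa [t.pre U] at this
  · intro h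
    exact le_sSup h

theorem Thk.op_pre (W : t.y.X.Opens) : t.op (t.r.f ⁻¹ᵁ W) = W := by
  apply le_antisymm
  · intro a ha
    obtain ⟨b, rfl⟩ := t.r.f.surjective a
    have : b ∈ t.r.f ⁻¹ᵁ (t.op (t.r.f ⁻¹ᵁ W)) := ha
    rw [t.pre] at this
    exact this
  · rw [t.le_op_iff]

theorem Thk.pre_inj {W W' : t.y.X.Opens} (h : t.r.f ⁻¹ᵁ W = t.r.f ⁻¹ᵁ W') : W = W' := by
  rw [← t.op_pre W, h, t.op_pre]

theorem Thk.op_mono {U U' : x.X.Opens} (h : U ≤ U') : t.op U ≤ t.op U' := by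
  rw [t.le_op_iff, t.pre]
  exact h

theorem Thk.op_top : t.op ⊤ = ⊤ := t.pre_inj (by rw [t.pre]; rfl)

theorem Thk.op_inf (U U' : x.X.Opens) : t.op (U ⊓ U') = t.op U ⊓ t.op U' := by
  apply t.pre_inj
  rw [t.pre]
  change _ = t.r.f ⁻¹ᵁ (t.op U) ⊓ t.r.f ⁻¹ᵁ (t.op U')
  rw [t.pre, t.pre]

theorem Thk.op_sup (U U' : x.X.Opens) : t.op (U ⊔ U') = t.op U ⊔ t.op U' := by
  apply t.pre_inj
  rw [t.pre]
  change _ = t.r.f ⁻¹ᵁ (t.op U) ⊔ t.r.f ⁻¹ᵁ (t.op U')
  rw [t.pre, t.pre]

/-- Reduction of functions. -/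
noncomputable def Thk.q (U : x.X.Opens) : Γ(t.y.X, t.op U) →+* Γ(x.X, U) :=
  (t.r.f.appLE (t.op U) U (t.pre U).ge).hom

theorem Thk.q_rs {U U' : x.X.Opens} (h : U ≤ U') (v : Γ(t.y.X, t.op U')) :
    t.q U (rs t.y.X (t.op_mono h) v) = rs x.X h (t.q U' v) := by
  change (t.y.X.presheaf.map (homOfLE (t.op_mono h)).op ≫ t.r.f.appLE (t.op U) U
    (t.pre U).ge) v = (t.r.f.appLE (t.op U') U' (t.pre U').ge ≫
      x.X.presheaf.map (homOfLE h).op) v
  rw [Scheme.Hom.map_appLE, Scheme.Hom.appLE_map]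

theorem coef_rs {A : Type} [CommRing A] {X : Scheme.{0}} (π : X ⟶ Sp A) {U V : X.Opens}
    (h : U ≤ V) (a : A) : rs X h (coef π V a) = coef π U a := by
  unfold coef
  change (((Scheme.ΓSpecIso (CommRingCat.of A)).inv ≫ π.appTop ≫
    X.presheaf.map (homOfLE le_top).op) ≫ X.presheaf.map (homOfLE h).op) a =
      ((Scheme.ΓSpecIso (CommRingCat.of A)).inv ≫ π.appTop ≫
    X.presheaf.map (homOfLE le_top).op) a
  simp only [Category.assoc, ← Functor.map_comp, ← op_comp]
  rfl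

theorem coef_eq {A : Type} [CommRing A] {X : Scheme.{0}} (π : X ⟶ Sp A) (U : X.Opens) :
    coef π U = ((Scheme.ΓSpecIso (CommRingCat.of A)).inv ≫
      π.appLE ⊤ U (show U ≤ π ⁻¹ᵁ ⊤ from le_top)).hom := rfl

theorem coef_comp {A : Type} [CommRing A] {X X' : Scheme.{0}} (π : X ⟶ Sp A) (f : X' ⟶ X)
    (W : X.Opens) (U : X'.Opens) (hU : U ≤ f ⁻¹ᵁ W) (a : A) :
    (f.appLE W U hU).hom (coef π W a) = coef (f ≫ π) U a := by
  rw [coef_eq, coef_eq]
  have := Scheme.Hom.appLE_comp_appLE f π ⊤ W U (show W ≤ π ⁻¹ᵁ ⊤ from le_top) hU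
  have h2 : ((Scheme.ΓSpecIso (CommRingCat.of A)).inv ≫
      π.appLE ⊤ W (show W ≤ π ⁻¹ᵁ ⊤ from le_top)) ≫ f.appLE W U hU =
      (Scheme.ΓSpecIso (CommRingCat.of A)).inv ≫ (f ≫ π).appLE ⊤ U
        (show U ≤ (f ≫ π) ⁻¹ᵁ ⊤ from le_top) := by
    rw [Category.assoc, this]
  exact ConcreteCategory.congr_hom h2 a

theorem coef_spMap {A A' : Type} [CommRing A] [CommRing A'] (φ : A →+* A') {X' : Scheme.{0}}
    (π' : X' ⟶ Sp A') (U : X'.Opens) (a : A) :
    coef (π' ≫ spMap φ) U a = coef π' U (φ a) := by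
  have h1 : (Scheme.ΓSpecIso (CommRingCat.of A)).inv ≫ (spMap φ).appTop =
      CommRingCat.ofHom φ ≫ (Scheme.ΓSpecIso (CommRingCat.of A')).inv :=
    (Scheme.ΓSpecIso_inv_naturality (CommRingCat.ofHom φ)).symm
  rw [coef_eq, coef_eq]
  have h2 : (Scheme.ΓSpecIso (CommRingCat.of A)).inv ≫ (π' ≫ spMap φ).appLE ⊤ U
        (show U ≤ (π' ≫ spMap φ) ⁻¹ᵁ ⊤ from le_top) =
      CommRingCat.ofHom φ ≫ (Scheme.ΓSpecIso (CommRingCat.of A')).inv ≫ π'.appLE ⊤ U
        (show U ≤ π' ⁻¹ᵁ ⊤ from le_top) := by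
    have h3 := Scheme.Hom.appLE_comp_appLE π' (spMap φ) ⊤ ⊤ U
      (show ⊤ ≤ (spMap φ) ⁻¹ᵁ ⊤ from le_top) (show U ≤ π' ⁻¹ᵁ ⊤ from le_top)
    rw [← h3, ← reassoc_of% h1]
    rfl
  exact ConcreteCategory.congr_hom h2 a

/-- The structure map and an arrow. -/
theorem coef_arrow {A A' : Type} [CommRing A] [CommRing A'] {φ : A →+* A'} {X X' : Scheme.{0}}
    {π : X ⟶ Sp A} {π' : X' ⟶ Sp A'} {f : X' ⟶ X} (h : f ≫ π = π' ≫ spMap φ) (W : X.Opens)
    (U : X'.Opens) (hU : U ≤ f ⁻¹ᵁ W) (a : A) :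
    (f.appLE W U hU).hom (coef π W a) = coef π' U (φ a) := by
  rw [coef_comp, h, coef_spMap]

theorem Thk.q_coef (U : x.X.Opens) (a : E) :
    t.q U (coef t.y.π (t.op U) a) = coef x.π U (S.p a) :=
  coef_arrow t.r.cart.w _ _ _ a

end Thk

end Pool.Agent.MG


end
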