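import Mathlib

/-! Parts: MG.Bub.Ring, MG.TwoCoord -/

section

/-!
# The two charts of the blow up of a ring in two elements

`NR z s = R[w]/(z w - s)`; the second chart is `NR s z`.
-/

open Polynomial

namespace Pool.Agent.MG

variable {R : Type*} [CommRing R]

theorem lin_coeff_succ (a b : R) (P : R[X]) (i : ℕ) :
    ((C a * X - C b) * P).coeff (i + 1) = a * P.coeff i - b * P.coeff (i + 1) := by
  rw [sub_mul, coeff_sub, mul_assoc, coeff_C_mul, coeff_C_mul, coeff_X_mul]

theorem lin_coeff_zero (a b : R) (P : R[X]) :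
    ((C a * X - C b) * P).coeff 0 = - (b * P.coeff 0) := by
  rw [sub_mul, coeff_sub, mul_assoc, coeff_C_mul, coeff_C_mul, coeff_X_mul_zero]
  ring

theorem bub_key (z s : R) (n : ℕ) (F G H : R[X]) (hG : G.natDegree ≤ n + 1)
    (h : X ^ (n + 1) * F - reflect (n + 1) G = (C z * X - C s) * H) :
    ∃ (r : R) (H1 H2 : R[X]), F = C r + (C z * X - C s) * H1 ∧ G = C r + (C s * X - C z) * H2 := by
  have hm : (X ^ (n + 1) : R[X]).Monic := monic_X_pow _
  obtain ⟨H0, H1, hdec, hdeg⟩ : ∃ H0 H1 : R[X], H0 + X ^ (n + 1) * H1 = H ∧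
      ∀ i, n + 1 ≤ i → H0.coeff i = 0 := by
    refine ⟨H %ₘ X ^ (n + 1), H /ₘ X ^ (n + 1), modByMonic_add_div H (X ^ (n + 1)), ?_⟩
    intro i hi
    nontriviality R
    apply coeff_eq_zero_of_degree_lt
    refine lt_of_lt_of_le (degree_modByMonic_lt H hm) ?_
    rw [degree_X_pow]
    exact_mod_cast hi
  obtain ⟨A, hA⟩ : ∃ A, A = F - (C z * X - C s) * H1 := ⟨_, rfl⟩
  have hXA : X ^ (n + 1) * A = reflect (n + 1) G + (C z * X - C s) * H0 := by
    rw [hA, mul_sub]
    rw [← hdec] at h
    linear_combination h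
  have hA0 : A = C (A.coeff 0) := by
    ext i
    rcases i with _ | i
    · simp
    · rw [coeff_C_succ]
      have h1 := congrArg (fun p => p.coeff (i + 1 + (n + 1))) hXA
      simp only [coeff_X_pow_mul, coeff_add, coeff_reflect] at h1
      rw [h1]
      have h2 : revAt (n + 1) (i + 1 + (n + 1)) = i + 1 + (n + 1) := by
        rw [revAt_eq_self_of_lt]
        omega
      have h3 : i + 1 + (n + 1) = (i + (n + 1)) + 1 := by ring
      rw [h2, coeff_eq_zero_of_natDegree_lt (lt_of_le_of_lt hG (by omega)), h3, lin_coeff_succ,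
        hdeg _ (by omega), hdeg _ (by omega)]
      ring
  obtain ⟨r, hr⟩ : ∃ r, r = A.coeff 0 := ⟨_, rfl⟩
  rw [← hr] at hA0
  refine ⟨r, H1, reflect n H0, ?_, ?_⟩
  · rw [← hA0, hA]
    ring
  · have hrG : ∀ i, (reflect (n + 1) G).coeff i =
        (if i = n + 1 then r else 0) - ((C z * X - C s) * H0).coeff i := by
      intro i
      have h1 : reflect (n + 1) G = X ^ (n + 1) * C r - (C z * X - C s) * H0 := by
        rw [← hA0, hXA]
        ring
      rw [h1, coeff_sub, coeff_mul_C, coeff_X_pow]
      split_ifs <;> ring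
    ext i
    by_cases hi : i ≤ n + 1
    · have h1 : G.coeff i = (reflect (n + 1) G).coeff (n + 1 - i) := by
        rw [coeff_reflect, revAt_le (by omega)]
        congr 1
        omega
      rw [h1, hrG]
      rcases i with _ | i
      · have h2 : n + 1 - 0 = n + 1 := rfl
        have h3 : n - 0 = n := rfl
        rw [coeff_add, coeff_C_zero, lin_coeff_zero, coeff_reflect, revAt_le (Nat.zero_le _), h2,
          if_pos rfl, lin_coeff_succ, hdeg (n + 1) le_rfl, h3]
        ring
      · have h2 : n + 1 - (i + 1) = n - i := by omega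
        rw [coeff_add, coeff_C_succ, lin_coeff_succ s z, coeff_reflect, coeff_reflect,
          if_neg (by omega), h2, revAt_le (show i ≤ n by omega)]
        rcases Nat.lt_or_ge i n with hin | hin
        · rw [revAt_le (show i + 1 ≤ n by omega)]
          have h4 : n - i = (n - (i + 1)) + 1 := by omega
          rw [h4, lin_coeff_succ]
          ring
        · have h6 : i = n := by omega
          subst h6
          have h7 : i - i = 0 := by omega
          rw [revAt_eq_self_of_lt (by omega), hdeg (i + 1) le_rfl, h7, lin_coeff_zero]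
          ring
    · push Not at hi
      rw [coeff_eq_zero_of_natDegree_lt (lt_of_le_of_lt hG hi)]
      obtain ⟨j, rfl⟩ : ∃ j, i = j + 1 := ⟨i - 1, by omega⟩
      rw [coeff_add, coeff_C_succ, lin_coeff_succ, coeff_reflect, coeff_reflect,
        revAt_eq_self_of_lt (by omega), revAt_eq_self_of_lt (by omega), hdeg j (by omega),
        hdeg (j + 1) (by omega)]
      ring

/-- `R[w]/(z w - s)`. -/
abbrev NR (z s : R) : Type _ := AdjoinRoot (C z * X - C s : R[X])

/-- The coordinate `w`. -/
noncomputable abbrev nw (z s : R) : NR z s := AdjoinRoot.root (C z * X - C s : R[X])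

theorem nw_rel (z s : R) : algebraMap R (NR z s) z * nw z s = algebraMap R (NR z s) s := by
  have h := AdjoinRoot.mk_self (f := (C z * X - C s : R[X]))
  rw [map_sub, map_mul, AdjoinRoot.mk_C, AdjoinRoot.mk_C, AdjoinRoot.mk_X, sub_eq_zero] at h
  exact h

/-- The universal property of `R[w]/(z w - s)`. -/
noncomputable def nrLift {z s : R} {S : Type*} [CommRing S] (i : R →+* S) (w : S)
    (h : i z * w = i s) : NR z s →+* S :=
  AdjoinRoot.lift i w (by simp [h])

@[simp] theorem nrLift_of {z s : R} {S : Type*} [CommRing S] (i : R →+* S) (w : S)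
    (h : i z * w = i s) (r : R) : nrLift i w h (algebraMap R (NR z s) r) = i r :=
  AdjoinRoot.lift_of _

@[simp] theorem nrLift_w {z s : R} {S : Type*} [CommRing S] (i : R →+* S) (w : S)
    (h : i z * w = i s) : nrLift i w h (nw z s) = w :=
  AdjoinRoot.lift_root _

theorem nr_hom_ext {z s : R} {S : Type*} [CommRing S] {f g : NR z s →+* S}
    (h1 : ∀ r : R, f (algebraMap R (NR z s) r) = g (algebraMap R (NR z s) r))
    (h2 : f (nw z s) = g (nw z s)) : f = g :=
  AdjoinRoot.ringHom_ext (RingHom.ext h1) h2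

/-- The ring of the intersection of the two charts. -/
abbrev MR (z s : R) : Type _ := Localization.Away (nw z s)

/-- The inverse of the coordinate `w`. -/
noncomputable def mInv (z s : R) : MR z s := IsLocalization.Away.invSelf (nw z s)

theorem mInv_rel (z s : R) : algebraMap (NR z s) (MR z s) (nw z s) * mInv z s = 1 :=
  IsLocalization.Away.mul_invSelf _

theorem algebraMap_MR (z s : R) (r : R) :
    algebraMap R (MR z s) r = algebraMap (NR z s) (MR z s) (algebraMap R (NR z s) r) :=
  IsScalarTower.algebraMap_apply R (NR z s) (MR z s) r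

/-- The inclusion of the second chart ring into the ring of the intersection. -/
noncomputable def swapN (z s : R) : NR s z →+* MR z s :=
  nrLift (algebraMap R (MR z s)) (mInv z s) (by
    rw [algebraMap_MR, algebraMap_MR, ← nw_rel, map_mul, mul_assoc, mInv_rel, mul_one])

@[simp] theorem swapN_of (z s r : R) :
    swapN z s (algebraMap R (NR s z) r) = algebraMap R (MR z s) r :=
  nrLift_of _ _ _ _

@[simp] theorem swapN_w (z s : R) : swapN z s (nw s z) = mInv z s :=
  nrLift_w _ _ _

/-- The rings of the intersection, computed in the two charts, agree. -/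
noncomputable def swapM (z s : R) : MR s z →+* MR z s :=
  IsLocalization.Away.lift (nw s z) (g := swapN z s) (by
    rw [swapN_w]
    exact IsUnit.of_mul_eq_one_right _ (mInv_rel z s))

@[simp] theorem swapM_apply (z s : R) (a : NR s z) :
    swapM z s (algebraMap (NR s z) (MR s z) a) = swapN z s a :=
  IsLocalization.Away.lift_eq _ _ _

theorem swapM_mInv (z s : R) :
    swapM z s (mInv s z) = algebraMap (NR z s) (MR z s) (nw z s) := by
  have h1 : swapM z s (algebraMap (NR s z) (MR s z) (nw s z)) * swapM z s (mInv s z) = 1 := by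
    rw [← map_mul, mInv_rel, map_one]
  rw [swapM_apply, swapN_w] at h1
  calc swapM z s (mInv s z) = (algebraMap (NR z s) (MR z s) (nw z s) * mInv z s) *
        swapM z s (mInv s z) := by rw [mInv_rel, one_mul]
    _ = algebraMap (NR z s) (MR z s) (nw z s) * (mInv z s * swapM z s (mInv s z)) := by ring
    _ = _ := by rw [h1, mul_one]

theorem swapM_swapM (z s : R) (m : MR z s) : swapM z s (swapM s z m) = m := by
  have h : (swapM z s).comp (swapM s z) = RingHom.id _ := by
    apply IsLocalization.ringHom_ext (Submonoid.powers (nw z s))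
    apply nr_hom_ext
    · intro r
      simp only [RingHom.comp_apply, RingHom.id_apply]
      rw [swapM_apply, swapN_of, algebraMap_MR, swapM_apply, swapN_of, algebraMap_MR]
    · simp only [RingHom.comp_apply, RingHom.id_apply]
      rw [swapM_apply, swapN_w, swapM_mInv]
  exact congrArg (fun f => f m) h

/-- The two computations of the intersection ring agree. -/
noncomputable def swapE (z s : R) : MR s z ≃+* MR z s where
  toFun := swapM z s
  invFun := swapM s z
  left_inv := swapM_swapM s z
  right_inv := swapM_swapM z s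
  map_mul' := map_mul _
  map_add' := map_add _

theorem w_pow_mul_swapN (z s : R) (N : ℕ) (G : R[X]) (hG : G.natDegree ≤ N) :
    algebraMap (NR z s) (MR z s) (nw z s) ^ N * swapN z s (AdjoinRoot.mk _ G) =
      algebraMap (NR z s) (MR z s) (AdjoinRoot.mk _ (reflect N G)) := by
  have h1 : swapN z s (AdjoinRoot.mk _ G) = eval₂ (algebraMap R (MR z s)) (mInv z s) G := by
    unfold swapN nrLift
    rw [AdjoinRoot.lift_mk]
  have h2 : algebraMap (NR z s) (MR z s) (AdjoinRoot.mk _ (reflect N G)) =
      eval₂ (algebraMap R (MR z s)) (algebraMap (NR z s) (MR z s) (nw z s)) (reflect N G) := by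
    have h3 : (AdjoinRoot.mk (C z * X - C s) (reflect N G) : NR z s) =
        eval₂ (algebraMap R (NR z s)) (nw z s) (reflect N G) := by
      rw [← AdjoinRoot.aeval_eq, aeval_def]
    rw [h3, hom_eval₂]
    congr 1
  let _ : Invertible (mInv z s) := ⟨algebraMap (NR z s) (MR z s) (nw z s), mInv_rel z s, by
    rw [mul_comm]; exact mInv_rel z s⟩
  have h4 := eval₂_reflect_mul_pow (algebraMap R (MR z s)) (mInv z s) N G hG
  rw [h1, h2, ← h4]
  change _ * (eval₂ (algebraMap R (MR z s)) (algebraMap (NR z s) (MR z s) (nw z s))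
    (reflect N G) * mInv z s ^ N) = _
  have h5 : algebraMap (NR z s) (MR z s) (nw z s) ^ N * mInv z s ^ N = 1 := by
    rw [← mul_pow, mInv_rel, one_pow]
  calc _ = (algebraMap (NR z s) (MR z s) (nw z s) ^ N * mInv z s ^ N) *
      eval₂ (algebraMap R (MR z s)) (algebraMap (NR z s) (MR z s) (nw z s)) (reflect N G) := by
        ring
    _ = _ := by rw [h5, one_mul]

/-- `H¹ = 0`: every function on the intersection of the charts is a sum. -/
theorem bub_H1 (z s : R) (m : MR z s) :
    ∃ (f : NR z s) (g : NR s z), m = algebraMap (NR z s) (MR z s) f + swapN z s g := by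
  obtain ⟨n, a, ha⟩ := IsLocalization.Away.surj (nw z s) m
  obtain ⟨F, rfl⟩ := AdjoinRoot.mk_surjective a
  have hm : (X ^ n : R[X]).Monic := monic_X_pow _
  have hdec : F %ₘ X ^ n + X ^ n * (F /ₘ X ^ n) = F := modByMonic_add_div F (X ^ n)
  have hdeg : (F %ₘ X ^ n).natDegree ≤ n := by
    nontriviality R
    have := degree_modByMonic_lt F hm
    rw [degree_X_pow] at this
    exact natDegree_le_of_degree_le this.le
  have hw := w_pow_mul_swapN z s n (reflect n (F %ₘ X ^ n)) ?_
  · refine ⟨AdjoinRoot.mk _ (F /ₘ X ^ n), AdjoinRoot.mk _ (reflect n (F %ₘ X ^ n)), ?_⟩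
    have hu : IsUnit (algebraMap (NR z s) (MR z s) (nw z s) ^ n) :=
      (IsUnit.of_mul_eq_one _ (mInv_rel z s)).pow n
    apply hu.mul_left_cancel
    rw [mul_add, hw, mul_comm, ha, ← map_pow, ← map_mul, ← map_add, reflect_reflect]
    congr 1
    have h1 : (nw z s) ^ n = AdjoinRoot.mk (C z * X - C s) (X ^ n) := by
      rw [map_pow, AdjoinRoot.mk_X]
    rw [h1, ← map_mul, ← map_add, add_comm, hdec]
  · refine (natDegree_le_iff_coeff_eq_zero).2 ?_
    intro i hi
    rw [coeff_reflect, revAt_eq_self_of_lt hi]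
    exact coeff_eq_zero_of_natDegree_lt (lt_of_le_of_lt hdeg hi)

/-- `H⁰`: the functions which agree on the intersection come from the base ring. -/
theorem bub_H0 (z s : R) (f : NR z s) (g : NR s z)
    (h : algebraMap (NR z s) (MR z s) f = swapN z s g) :
    ∃ r : R, f = algebraMap R (NR z s) r ∧ g = algebraMap R (NR s z) r := by
  obtain ⟨F, rfl⟩ := AdjoinRoot.mk_surjective f
  obtain ⟨G, rfl⟩ := AdjoinRoot.mk_surjective g
  obtain ⟨N, hN⟩ : ∃ N, N = G.natDegree + 1 := ⟨_, rfl⟩
  have hw := w_pow_mul_swapN z s N G (by omega)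
  rw [← h, ← map_pow, ← map_mul] at hw
  obtain ⟨e, he⟩ := IsLocalization.Away.exists_of_eq (nw z s) hw
  have h1 : (nw z s) = AdjoinRoot.mk (C z * X - C s) X := by
    rw [AdjoinRoot.mk_X]
  rw [h1, ← map_pow, ← map_pow, ← map_mul, ← map_mul, ← map_mul, AdjoinRoot.mk_eq_mk] at he
  obtain ⟨H, hH⟩ := he
  have hrefl : X ^ e * reflect N G = reflect (e + G.natDegree + 1) G := by
    ext i
    rw [coeff_X_pow_mul', coeff_reflect]
    split_ifs with hi
    · rw [coeff_reflect]
      by_cases h2 : i ≤ e + G.natDegree + 1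
      · rw [revAt_le h2, revAt_le (by omega)]
        congr 1
        omega
      · push Not at h2
        rw [revAt_eq_self_of_lt (by omega), revAt_eq_self_of_lt (by omega),
          coeff_eq_zero_of_natDegree_lt (by omega), coeff_eq_zero_of_natDegree_lt (by omega)]
    · rw [coeff_reflect, revAt_le (by omega), coeff_eq_zero_of_natDegree_lt (by omega)]
  have hkey : X ^ (e + G.natDegree + 1) * F - reflect (e + G.natDegree + 1) G =
      (C z * X - C s) * H := by
    rw [← hH, hrefl, hN, ← mul_assoc, ← pow_add]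
    ring_nf
  obtain ⟨r, H1, H2, hF, hG⟩ := bub_key z s _ F G H (by omega) hkey
  refine ⟨r, ?_, ?_⟩
  · rw [hF, map_add, map_mul, AdjoinRoot.mk_self, zero_mul, add_zero, AdjoinRoot.mk_C]
    rfl
  · rw [hG, map_add, map_mul, AdjoinRoot.mk_self, zero_mul, add_zero, AdjoinRoot.mk_C]
    rfl

/-- The base ring injects into the first chart if `z` is a non zero divisor. -/
theorem bub_inj (z s : R) (hz : ∀ a : R, z * a = 0 → a = 0) (r : R)
    (h : algebraMap R (NR z s) r = 0) : r = 0 := by
  have h1 : AdjoinRoot.mk (C z * X - C s) (C r) = 0 := h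
  rw [AdjoinRoot.mk_eq_zero] at h1
  obtain ⟨H, hH⟩ := h1
  have h2 : H = 0 := by
    by_contra hne
    have h3 := congrArg (fun p => p.coeff (H.natDegree + 1)) hH
    simp only [coeff_C_succ] at h3
    rw [lin_coeff_succ, coeff_eq_zero_of_natDegree_lt (Nat.lt_succ_self _), mul_zero, sub_zero]
      at h3
    exact hne (leadingCoeff_eq_zero.1 (hz _ h3.symm))
  rw [h2, mul_zero] at hH
  exact C_eq_zero.1 hH

end Pool.Agent.MG


end

section

universe u

namespace Pool.Agent.MG.Two

open Polynomial

section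
variable {k A : Type u} [Field k] [IsAlgClosed k] [CommRing A] [IsDomain A] [Algebra k A]
  [Algebra.FiniteType k A]

omit [IsDomain A] in
lemma exists_sub_mem (M : Ideal A) [M.IsMaximal] (a : A) : ∃ c : k, a - algebraMap k A c ∈ M := by
  let _ : Field (A ⧸ M) := Ideal.Quotient.field M
  have : Algebra.FiniteType k (A ⧸ M) := inferInstance
  have hfin : Module.Finite k (A ⧸ M) := finite_of_finite_type_of_isJacobsonRing k (A ⧸ M)
  obtain ⟨c, hc⟩ := (IsAlgClosed.algebraMap_bijective_of_isIntegral (k := k) (K := A ⧸ M)).2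
    (Ideal.Quotient.mk M a)
  refine ⟨c, ?_⟩
  rw [← Ideal.Quotient.eq_zero_iff_mem, map_sub, sub_eq_zero]
  exact hc.symm

variable [Algebra k[X] A] [IsScalarTower k k[X] A]

omit [IsAlgClosed k] [Algebra k A] [Algebra.FiniteType k A] [IsScalarTower k k[X] A] in
lemma flat_of_injective (hinj : Function.Injective (algebraMap k[X] A)) :
    Module.Flat k[X] A := by
  have : FaithfulSMul k[X] A := (faithfulSMul_iff_algebraMap_injective _ _).mpr hinj
  have : Module.IsTorsionFree k[X] A := inferInstance
  infer_instance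

omit [IsAlgClosed k] [IsDomain A] [Algebra.FiniteType k A] in
lemma algebraMap_X_sub_C (c : k) : algebraMap k[X] A (X - C c) =
    algebraMap k[X] A X - algebraMap k A c := by
  rw [map_sub, IsScalarTower.algebraMap_apply k k[X] A]
  rfl

/-- If `x - c` generates the maximal ideal locally, then `k[x] → A` is étale at `M`. -/
lemma isEtaleAt (hinj : Function.Injective (algebraMap k[X] A)) (M : Ideal A) [hM : M.IsMaximal]
    (c : k) (hc : algebraMap k[X] A (X - C c) ∈ M)
    (hgen : (Ideal.span {algebraMap k[X] A (X - C c)}).map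
      (algebraMap A (Localization.AtPrime M)) = IsLocalRing.maximalIdeal _) :
    Algebra.IsEtaleAt k[X] M := by
  have hft : Algebra.FiniteType k[X] A := Algebra.FiniteType.of_restrictScalars_finiteType k _ _
  have hfp : Algebra.FinitePresentation k[X] A :=
    Algebra.FinitePresentation.of_finiteType.mp hft
  have := flat_of_injective (k := k) hinj
  set p : Ideal k[X] := M.under k[X] with hp
  have hpp : p.IsPrime := inferInstance
  have hmemp : X - C c ∈ p := hc
  have hpe : p = Ideal.span {X - C c} := by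
    have hmax : (Ideal.span {(X - C c : k[X])}).IsMaximal := by
      apply PrincipalIdealRing.isMaximal_of_irreducible
      exact irreducible_X_sub_C c
    symm
    apply hmax.eq_of_le hpp.ne_top
    rw [Ideal.span_singleton_le_iff_mem]
    exact hmemp
  let := Localization.AtPrime.algebraOfLiesOver p M
  have hur : Algebra.IsUnramifiedAt k[X] M := by
    rw [Algebra.isUnramifiedAt_iff_map_eq k[X] p M]
    constructor
    · have hsurj : Function.Surjective (algebraMap p.ResidueField M.ResidueField) := by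
        intro z
        obtain ⟨a, rfl⟩ := Ideal.algebraMap_residueField_surjective M z
        obtain ⟨d, hd⟩ := exists_sub_mem (k := k) M a
        refine ⟨algebraMap k[X] p.ResidueField (C d), ?_⟩
        rw [← IsScalarTower.algebraMap_apply k[X] p.ResidueField M.ResidueField,
          IsScalarTower.algebraMap_apply k[X] A M.ResidueField, ← sub_eq_zero, ← map_sub,
          Ideal.algebraMap_residueField_eq_zero]
        have : algebraMap k[X] A (C d) = algebraMap k A d := by
          rw [IsScalarTower.algebraMap_apply k k[X] A]; rfl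
        rw [this, ← neg_sub, neg_mem_iff]
        exact hd
      refine ⟨fun z => ?_⟩
      obtain ⟨w, rfl⟩ := hsurj z
      exact isSeparable_algebraMap w
    · rw [hpe, Ideal.map_span, Set.image_singleton, ← hgen, Ideal.map_span, Set.image_singleton,
        ← IsScalarTower.algebraMap_apply]
  exact Algebra.IsEtaleAt.of_isUnramifiedAt_of_flat M

end

section
variable {k A : Type u} [Field k] [IsAlgClosed k] [CommRing A] [Algebra k A]
  [Algebra.FiniteType k A]

omit [Algebra.FiniteType k A] in
lemma exists_algebraMap_eq_of_isAlgebraic [IsDomain A] (x : A) (hx : IsAlgebraic k x) :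
    ∃ d : k, algebraMap k A d = x := by
  have hxi : IsIntegral k x := hx.isIntegral
  obtain ⟨d, hd⟩ := (IsAlgClosed.algebraMap_bijective_of_isIntegral (k := k)
    (K := integralClosure k A)).2 ⟨x, hxi⟩
  exact ⟨d, congrArg Subtype.val hd⟩

omit [IsAlgClosed k] [Algebra.FiniteType k A] in
lemma eq_of_algebraMap_sub_mem (M : Ideal A) [hM : M.IsMaximal] {a b : k}
    (h : algebraMap k A (a - b) ∈ M) : a = b := by
  by_contra hne
  have hu : IsUnit (algebraMap k A (a - b)) := (sub_ne_zero.mpr hne).isUnit.map _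
  exact hM.ne_top (M.eq_top_of_isUnit_mem h hu)

lemma exists_mem_forall_notMem {A : Type u} [CommRing A] {ι κ : Type*} [Finite ι] [Nonempty ι]
    [Fintype κ] (M : ι → Ideal A) (hM : ∀ i, (M i).IsPrime) (I J : Ideal A) (K : κ → Ideal A)
    (hI : ∀ i, ¬ I ≤ M i) (hJ : ∀ i, ¬ J ≤ M i) (hK : ∀ j i, ¬ K j ≤ M i) :
    ∃ b ∈ I, b ∈ J ∧ (∀ j, b ∈ K j) ∧ ∀ i, b ∉ M i := by
  classical
  let _ := Fintype.ofFinite ι
  set N : Ideal A := I * (J * ∏ i, K i) with hN
  have hNI : N ≤ I := Ideal.mul_le_left
  have hN2 : N ≤ J * ∏ i, K i := Ideal.mul_le_right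
  have hNJ : N ≤ J := hN2.trans Ideal.mul_le_left
  have hNP : N ≤ ∏ i, K i := hN2.trans Ideal.mul_le_right
  have hNK : ∀ j, N ≤ K j := fun j =>
    (hNP.trans Ideal.prod_le_inf).trans (Finset.inf_le (Finset.mem_univ j))
  have hb : ∃ b ∈ N, ∀ i, b ∉ M i := by
    by_contra hcon
    push Not at hcon
    have h1 : (N : Set A) ⊆ ⋃ i ∈ ((Finset.univ : Finset ι) : Set ι), (M i : Set A) := by
      intro b hb
      obtain ⟨i, hi⟩ := hcon b hb
      simp only [Finset.coe_univ, Set.mem_univ, Set.iUnion_true, Set.mem_iUnion]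
      exact ⟨i, hi⟩
    obtain ⟨i0⟩ := ‹Nonempty ι›
    obtain ⟨i, -, hi⟩ := (Ideal.subset_union_prime (s := Finset.univ) (f := M) i0 i0
      (fun i _ _ _ => hM i)).mp h1
    have hpr := hM i
    rcases hpr.mul_le.mp hi with h2 | h2
    · exact hI i h2
    rcases hpr.mul_le.mp h2 with h3 | h3
    · exact hJ i h3
    obtain ⟨j, -, hj⟩ := hpr.prod_le.mp h3
    exact hK j i hj
  obtain ⟨b, hb, hbM⟩ := hb
  exact ⟨b, hNI hb, hNJ hb, fun j => hNK j hb, hbM⟩

theorem exists_etale_coord [IsDedekindDomain A] {ι : Type*} [Finite ι] [Nonempty ι]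
    (M : ι → Ideal A) (hM : ∀ i, (M i).IsMaximal) (hMinj : Function.Injective M)
    (hbot : ∀ i, M i ≠ ⊥) (I : Ideal A) (hI : ∀ i, ¬ I ≤ M i) :
    ∃ (x b : A) (c : ι → k), b ∈ I ∧ (∀ i, b ∉ M i) ∧ Function.Injective c ∧
      (∀ i, x - algebraMap k A (c i) ∈ M i) ∧
      (∀ i, ∀ r ∈ M i, ∃ s, b * r = (x - algebraMap k A (c i)) * s) ∧
      ((algebraMap A (Localization.Away b)).comp (aeval x : k[X] →ₐ[k] A).toRingHom).Etale := by
  classical
  have hinf : Infinite k := IsAlgClosed.instInfinite
  let _ := Fintype.ofFinite ι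
  obtain ⟨c, hc⟩ : ∃ c : ι → k, Function.Injective c := by
    refine ⟨fun i => Infinite.natEmbedding k (Finite.equivFin ι i), ?_⟩
    intro i j hij
    exact (Finite.equivFin ι).injective (Fin.val_injective ((Infinite.natEmbedding k).injective hij))
  have hpi : ∀ i, ∃ z ∈ M i, z ∉ (M i) ^ 2 := by
    intro i
    obtain ⟨z, hz, hz2⟩ := Ideal.exists_mem_pow_notMem_pow_succ (M i) (hbot i) (hM i).ne_top 1
    exact ⟨z, by simpa using hz, hz2⟩
  choose z hz hz2 using hpi
  obtain ⟨x, hx⟩ := IsDedekindDomain.exists_forall_sub_mem_ideal (s := Finset.univ) M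
    (fun _ => 2) (fun i _ => Ideal.prime_of_isPrime (hbot i) (hM i).isPrime)
    (fun i _ j _ hij h => hij (hMinj h)) (fun i => algebraMap k A (c i) + z i)
  have hx' : ∀ i, x - (algebraMap k A (c i) + z i) ∈ (M i) ^ 2 := fun i => hx i (Finset.mem_univ i)
  have hxM : ∀ i, x - algebraMap k A (c i) ∈ M i := by
    intro i
    have h1 := (M i).add_mem (Ideal.pow_le_self (two_ne_zero) (hx' i)) (hz i)
    rwa [show x - (algebraMap k A (c i) + z i) + z i = x - algebraMap k A (c i) by ring] at h1
  have hxM2 : ∀ i, x - algebraMap k A (c i) ∉ (M i) ^ 2 := by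
    intro i h
    apply hz2 i
    have h1 := ((M i) ^ 2).sub_mem h (hx' i)
    rwa [show x - algebraMap k A (c i) - (x - (algebraMap k A (c i) + z i)) = z i by ring] at h1
  let _ : Algebra k[X] A := (aeval x : k[X] →ₐ[k] A).toRingHom.toAlgebra
  have hst : IsScalarTower k k[X] A := IsScalarTower.of_algebraMap_eq' (by
    ext a
    change algebraMap k A a = aeval x (C a)
    simp)
  have hX : algebraMap k[X] A X = x := by
    change aeval x X = x
    simp
  have hinj : Function.Injective (algebraMap k[X] A) := by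
    rw [injective_iff_map_eq_zero]
    intro p hp
    by_contra hp0
    have halg : IsAlgebraic k x := ⟨p, hp0, hp⟩
    obtain ⟨d, hd⟩ := exists_algebraMap_eq_of_isAlgebraic x halg
    obtain ⟨i⟩ := ‹Nonempty ι›
    have h1 : algebraMap k A (d - c i) ∈ M i := by
      rw [map_sub, hd]; exact hxM i
    have := hM i
    have h2 := eq_of_algebraMap_sub_mem (M i) h1
    apply hxM2 i
    rw [← hd, h2, sub_self]
    exact zero_mem _
  have hK : ∀ i, ∃ K : Ideal A, Ideal.span {x - algebraMap k A (c i)} = M i * K := by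
    intro i
    have h1 : M i ∣ Ideal.span {x - algebraMap k A (c i)} := by
      rw [Ideal.dvd_iff_le, Ideal.span_singleton_le_iff_mem]
      exact hxM i
    obtain ⟨K, hK⟩ := h1
    exact ⟨K, hK⟩
  choose K hK using hK
  have hKi : ∀ i, ¬ K i ≤ M i := by
    intro i h
    apply hxM2 i
    rw [← Ideal.span_singleton_le_iff_mem, hK, pow_two]
    exact Ideal.mul_mono_right h
  have hKj : ∀ i j, ¬ K i ≤ M j := by
    intro i j h
    by_cases hij : i = j
    · subst hij; exact hKi i h
    · have h1 : x - algebraMap k A (c i) ∈ M j := by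
        apply h
        have h0 : M i * K i ≤ K i := Ideal.mul_le_right
        apply h0
        rw [← hK]
        exact Ideal.mem_span_singleton_self _
      have h2 := (M j).sub_mem h1 (hxM j)
      rw [show x - algebraMap k A (c i) - (x - algebraMap k A (c j)) =
        algebraMap k A (c j - c i) by rw [map_sub]; ring] at h2
      have := hM j
      exact hij (hc (eq_of_algebraMap_sub_mem (M j) h2).symm)
  have hgen : ∀ i, (Ideal.span {algebraMap k[X] A (X - C (c i))}).map
      (algebraMap A (Localization.AtPrime (M i))) = IsLocalRing.maximalIdeal _ := by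
    intro i
    rw [algebraMap_X_sub_C, hX, hK, Ideal.map_mul, Localization.AtPrime.map_eq_maximalIdeal]
    have h1 : (K i).map (algebraMap A (Localization.AtPrime (M i))) = ⊤ := by
      obtain ⟨a, haK, haM⟩ := Set.not_subset.mp (hKi i)
      apply Ideal.eq_top_of_isUnit_mem _ (Ideal.mem_map_of_mem _ haK)
      exact IsLocalization.map_units (Localization.AtPrime (M i)) (⟨a, haM⟩ : (M i).primeCompl)
    rw [h1, Ideal.mul_top]
  have hft : Algebra.FiniteType k[X] A := Algebra.FiniteType.of_restrictScalars_finiteType k _ _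
  have hfp : Algebra.FinitePresentation k[X] A :=
    Algebra.FinitePresentation.of_finiteType.mp hft
  have hloc : ∀ i, (⟨M i, (hM i).isPrime⟩ : PrimeSpectrum A) ∈ Algebra.etaleLocus k[X] A := by
    intro i
    have := hM i
    rw [Algebra.mem_etaleLocus_iff]
    refine isEtaleAt (k := k) hinj (M i) (c i) ?_ (hgen i)
    rw [algebraMap_X_sub_C, hX]
    exact hxM i
  set J : Ideal A := PrimeSpectrum.vanishingIdeal (Algebra.etaleLocus k[X] A)ᶜ with hJ
  have hJz : PrimeSpectrum.zeroLocus (J : Set A) = (Algebra.etaleLocus k[X] A)ᶜ := by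
    rw [hJ, PrimeSpectrum.zeroLocus_vanishingIdeal_eq_closure]
    exact (Algebra.isOpen_etaleLocus.isClosed_compl).closure_eq
  have hJi : ∀ i, ¬ J ≤ M i := by
    intro i h
    have h1 : (⟨M i, (hM i).isPrime⟩ : PrimeSpectrum A) ∈ PrimeSpectrum.zeroLocus (J : Set A) := h
    rw [hJz] at h1
    exact h1 (hloc i)
  obtain ⟨b, hbI, hbJ, hbK, hbM⟩ := exists_mem_forall_notMem M (fun i => (hM i).isPrime) I J K
    hI hJi hKj
  refine ⟨x, b, c, hbI, hbM, hc, hxM, ?_, ?_⟩
  · intro i r hr
    have h1 : b * r ∈ Ideal.span {x - algebraMap k A (c i)} := by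
      rw [hK, mul_comm b r]
      exact Ideal.mul_mem_mul hr (hbK i)
    obtain ⟨s, hs⟩ := Ideal.mem_span_singleton'.mp h1
    exact ⟨s, by rw [← hs, mul_comm]⟩
  · have h1 : ↑(PrimeSpectrum.basicOpen b) ⊆ Algebra.etaleLocus k[X] A := by
      intro q hq
      by_contra hq2
      have h2 : q ∈ PrimeSpectrum.zeroLocus (J : Set A) := by rw [hJz]; exact hq2
      exact hq (h2 hbJ)
    have h2 : Algebra.Etale k[X] (Localization.Away b) :=
      Algebra.basicOpen_subset_etaleLocus_iff_etale.mp h1
    rw [← RingHom.etale_algebraMap, IsScalarTower.algebraMap_eq k[X] A (Localization.Away b)] at h2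
    exact h2

end

end Pool.Agent.MG.Two


end
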