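import Mathlib
import Pool.Agent.KDM.C04
import Pool.Agent.KDM.C05

/-! Parts: MG.Glue2, MG.Local2, MG.GlueBC, MG.Bub.Bl, MG.Bub.BlBC, MG.Bub.Glue, MG.Bub.BubBC, MG.KX.Duo, MG.KX.StmtsD, MG.KX.DCO, MG.KX.DFL, MG.KX.DSS -/

section

/-!
# Gluing two schemes along an open subscheme

The push out of two open immersions.
-/

open CategoryTheory CategoryTheory.Limits AlgebraicGeometry

universe u

namespace Pool.Agent.MG

variable {W X Y : Scheme.{u}} (f : W ⟶ X) (g : W ⟶ Y) [IsOpenImmersion f] [IsOpenImmersion g]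

instance glue2_map (i j : WalkingSpan) (h : i ⟶ j) : IsOpenImmersion ((span f g).map h) := by
  rcases h with _ | j
  · simp only [span_map_id]
    infer_instance
  · rcases j with _ | _
    · change IsOpenImmersion f
      infer_instance
    · change IsOpenImmersion g
      infer_instance

instance glue2_loc : ((span f g) ⋙ Scheme.forget).IsLocallyDirected := by
  infer_instance

instance glue2_has : HasPushout f g := by
  unfold HasPushout
  infer_instance

instance glue2_inl : IsOpenImmersion (pushout.inl f g) :=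
  inferInstanceAs (IsOpenImmersion (colimit.ι (span f g) WalkingSpan.left))

instance glue2_inr : IsOpenImmersion (pushout.inr f g) :=
  inferInstanceAs (IsOpenImmersion (colimit.ι (span f g) WalkingSpan.right))

theorem glue2_surj (x : (pushout f g : Scheme.{u})) :
    x ∈ Set.range (pushout.inl f g) ∨ x ∈ Set.range (pushout.inr f g) := by
  obtain ⟨i, xi, h⟩ := Scheme.IsLocallyDirected.ι_jointly_surjective (span f g) x
  rcases i with _ | i
  · left
    have hc : f ≫ pushout.inl f g = colimit.ι (span f g) WalkingSpan.zero :=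
      colimit.w (span f g) WalkingSpan.Hom.fst
    let xi' : W := xi
    refine ⟨f xi', ?_⟩
    have h1 : (f ≫ pushout.inl f g) xi' = (pushout.inl f g) (f xi') := by simp
    rw [← h1, ← h]
    exact congrArg (fun (φ : W ⟶ pushout f g) => φ xi') hc
  · rcases i with _ | _
    · left
      exact ⟨xi, h⟩
    · right
      exact ⟨xi, h⟩

theorem glue2_eq (x : X) (y : Y) (h : pushout.inl f g x = pushout.inr f g y) :
    ∃ w : W, f w = x ∧ g w = y := by
  have h' := (Scheme.IsLocallyDirected.ι_eq_ι_iff (F := span f g) (i := WalkingSpan.left)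
    (j := WalkingSpan.right) (xi := x) (xj := y)).1 h
  obtain ⟨k, fi, fj, w, h1, h2⟩ := h'
  rcases k with _ | k
  · refine ⟨w, ?_, ?_⟩
    · rw [← h1]
      have : fi = WalkingSpan.Hom.fst := Subsingleton.elim _ _
      subst this
      rfl
    · rw [← h2]
      have : fj = WalkingSpan.Hom.snd := Subsingleton.elim _ _
      subst this
      rfl
  · rcases k with _ | _
    · nomatch fj
    · nomatch fi

theorem glue2_range :
    (pushout.inl f g).opensRange ⊔ (pushout.inr f g).opensRange = ⊤ := by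
  ext x
  simp only [TopologicalSpace.Opens.coe_sup, Scheme.Hom.coe_opensRange, Set.mem_union,
    TopologicalSpace.Opens.coe_top, Set.mem_univ, iff_true]
  exact glue2_surj f g x

theorem glue2_inter :
    (pushout.inl f g).opensRange ⊓ (pushout.inr f g).opensRange =
      (f ≫ pushout.inl f g).opensRange := by
  ext x
  simp only [TopologicalSpace.Opens.coe_inf, Scheme.Hom.coe_opensRange, Set.mem_inter_iff]
  constructor
  · rintro ⟨⟨a, rfl⟩, ⟨b, h⟩⟩
    obtain ⟨w, rfl, -⟩ := glue2_eq f g a b h.symm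
    exact ⟨w, by simp⟩
  · rintro ⟨w, rfl⟩
    refine ⟨⟨f w, by simp⟩, ⟨g w, ?_⟩⟩
    rw [← Scheme.Hom.comp_apply, ← pushout.condition]

theorem glue2_isPullback : IsPullback f g (pushout.inl f g) (pushout.inr f g) := by
  refine (IsOpenImmersion.isPullback g f (pushout.inr f g) (pushout.inl f g)
    pushout.condition ?_).flip
  ext x
  simp only [TopologicalSpace.Opens.map_coe, Scheme.Hom.coe_opensRange, Set.mem_preimage]
  constructor
  · rintro ⟨y, h⟩
    obtain ⟨w, hw, -⟩ := glue2_eq f g x y h.symm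
    exact ⟨w, hw⟩
  · rintro ⟨w, rfl⟩
    refine ⟨g w, ?_⟩
    rw [← Scheme.Hom.comp_apply, ← pushout.condition]
    rfl

end Pool.Agent.MG


end

section

/-!
# Local properties of morphisms on a cover by two open subschemes
-/

open CategoryTheory CategoryTheory.Limits AlgebraicGeometry

universe u

namespace Pool.Agent.MG

/-- A property which is local on the source can be checked on two open subschemes. -/
theorem two_source (P : MorphismProperty Scheme.{u}) [IsZariskiLocalAtSource P]
    {X Y U V : Scheme.{u}} (i : U ⟶ X) (j : V ⟶ X) [IsOpenImmersion i] [IsOpenImmersion j]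
    (h : ∀ x : X, x ∈ Set.range i ∨ x ∈ Set.range j) (f : X ⟶ Y) (h1 : P (i ≫ f))
    (h2 : P (j ≫ f)) : P f := by
  refine IsZariskiLocalAtSource.of_iSup_eq_top (fun b : Bool => if b then i.opensRange else
    j.opensRange) ?_ ?_
  · rw [iSup_bool_eq]
    ext x
    simp only [if_true, Bool.false_eq_true, if_false, TopologicalSpace.Opens.coe_sup,
      Scheme.Hom.coe_opensRange, Set.mem_union, TopologicalSpace.Opens.coe_top, Set.mem_univ,
      iff_true]
    exact h x
  · rintro (_ | _)
    · change P (j.opensRange.ι ≫ f)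
      rw [← IsOpenImmersion.isoOfRangeEq_inv_fac j (Scheme.Opens.ι _)
        (congr_arg TopologicalSpace.Opens.carrier j.opensRange.opensRange_ι.symm), Category.assoc,
        P.cancel_left_of_respectsIso]
      exact h2
    · change P (i.opensRange.ι ≫ f)
      rw [← IsOpenImmersion.isoOfRangeEq_inv_fac i (Scheme.Opens.ι _)
        (congr_arg TopologicalSpace.Opens.carrier i.opensRange.opensRange_ι.symm), Category.assoc,
        P.cancel_left_of_respectsIso]
      exact h1

/-- A property which is local on the target can be checked on two open subschemes. -/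
theorem two_target (P : MorphismProperty Scheme.{u}) [IsZariskiLocalAtTarget P]
    {X Y U V XU XV : Scheme.{u}} (f : X ⟶ Y) (i : U ⟶ Y) (j : V ⟶ Y) [IsOpenImmersion i]
    [IsOpenImmersion j] (h : ∀ y : Y, y ∈ Set.range i ∨ y ∈ Set.range j)
    {i' : XU ⟶ X} {j' : XV ⟶ X} {fU : XU ⟶ U} {fV : XV ⟶ V} (hU : IsPullback i' fU f i)
    (hV : IsPullback j' fV f j) (h1 : P fU) (h2 : P fV) : P f := by
  refine IsZariskiLocalAtTarget.of_iSup_eq_top (fun b : Bool => if b then i.opensRange else
    j.opensRange) ?_ ?_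
  · rw [iSup_bool_eq]
    ext x
    simp only [if_true, Bool.false_eq_true, if_false, TopologicalSpace.Opens.coe_sup,
      Scheme.Hom.coe_opensRange, Set.mem_union, TopologicalSpace.Opens.coe_top, Set.mem_univ,
      iff_true]
    exact h x
  · rintro (_ | _)
    · change P (f ∣_ j.opensRange)
      refine (P.arrow_mk_iso_iff (morphismRestrictOpensRange f _)).mpr ?_
      have e := hV.isoPullback_hom_snd
      rw [← e, P.cancel_left_of_respectsIso] at h2
      exact h2
    · change P (f ∣_ i.opensRange)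
      refine (P.arrow_mk_iso_iff (morphismRestrictOpensRange f _)).mpr ?_
      have e := hU.isoPullback_hom_snd
      rw [← e, P.cancel_left_of_respectsIso] at h1
      exact h1

end Pool.Agent.MG


end

section

/-!
# Cartesian squares over a scheme covered by two open pieces
-/

open CategoryTheory CategoryTheory.Limits AlgebraicGeometry

universe u

namespace Pool.Agent.MG

variable {S S' X Y Z X' Y' Z' : Scheme.{u}}

/-- The preimage of an open piece. -/
theorem piece_isPullback {i : X ⟶ Z} {j : Y ⟶ Z} {i' : X' ⟶ Z'} {j' : Y' ⟶ Z'}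
    [IsOpenImmersion i] [IsOpenImmersion i'] {hX : X' ⟶ X} {hY : Y' ⟶ Y} {m : Z' ⟶ Z}
    (hi : i' ≫ m = hX ≫ i) (hj : j' ≫ m = hY ≫ j)
    (cov' : ∀ z : Z', z ∈ Set.range i' ∨ z ∈ Set.range j')
    (pre : ∀ y : Y', j (hY y) ∈ Set.range i → j' y ∈ Set.range i') :
    IsPullback i' hX m i := by
  refine (IsOpenImmersion.isPullback hX i' i m hi ?_).flip
  ext z
  simp only [TopologicalSpace.Opens.map_coe, Scheme.Hom.coe_opensRange, Set.mem_preimage]
  constructor
  · intro hz
    rcases cov' z with h | ⟨y, rfl⟩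
    · exact h
    · apply pre
      rw [← Scheme.Hom.comp_apply, ← hj]
      exact hz
  · rintro ⟨x, rfl⟩
    refine ⟨hX x, ?_⟩
    rw [← Scheme.Hom.comp_apply, ← hi]
    rfl

/-- A square is cartesian if it is so over two open pieces. -/
theorem cart_two {i : X ⟶ Z} {j : Y ⟶ Z} {i' : X' ⟶ Z'} {j' : Y' ⟶ Z'}
    [IsOpenImmersion i] [IsOpenImmersion j] [IsOpenImmersion i'] [IsOpenImmersion j']
    {hX : X' ⟶ X} {hY : Y' ⟶ Y} {m : Z' ⟶ Z} {p : Z ⟶ S} {p' : Z' ⟶ S'} {b : S' ⟶ S}
    (hi : i' ≫ m = hX ≫ i) (hj : j' ≫ m = hY ≫ j)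
    (cov : ∀ z : Z, z ∈ Set.range i ∨ z ∈ Set.range j)
    (cov' : ∀ z : Z', z ∈ Set.range i' ∨ z ∈ Set.range j')
    (pre : ∀ y : Y', j (hY y) ∈ Set.range i → j' y ∈ Set.range i')
    (pre' : ∀ x : X', i (hX x) ∈ Set.range j → i' x ∈ Set.range j')
    (sX : IsPullback hX (i' ≫ p') (i ≫ p) b) (sY : IsPullback hY (j' ≫ p') (j ≫ p) b)
    (w : m ≫ p = p' ≫ b) : IsPullback m p' p b := by
  have qi : IsPullback i' hX m i := piece_isPullback hi hj cov' pre
  have qj : IsPullback j' hY m j := piece_isPullback hj hi (fun z => (cov' z).symm) pre'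
  let h : Z' ⟶ pullback p b := pullback.lift m p' w
  have hf : h ≫ pullback.fst p b = m := pullback.lift_fst _ _ _
  have hs : h ≫ pullback.snd p b = p' := pullback.lift_snd _ _ _
  let jX : X' ⟶ pullback p b := pullback.lift (hX ≫ i) (i' ≫ p') (by
    rw [Category.assoc]; exact sX.w)
  let jY : Y' ⟶ pullback p b := pullback.lift (hY ≫ j) (j' ≫ p') (by
    rw [Category.assoc]; exact sY.w)
  have hX1 : jX ≫ pullback.fst p b = hX ≫ i := pullback.lift_fst _ _ _
  have hX2 : jX ≫ pullback.snd p b = i' ≫ p' := pullback.lift_snd _ _ _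
  have hY1 : jY ≫ pullback.fst p b = hY ≫ j := pullback.lift_fst _ _ _
  have hY2 : jY ≫ pullback.snd p b = j' ≫ p' := pullback.lift_snd _ _ _
  have tb : IsPullback (pullback.snd p b) (pullback.fst p b) b p :=
    (IsPullback.of_hasPullback p b).flip
  have qX : IsPullback jX hX (pullback.fst p b) i :=
    IsPullback.of_right (by rw [hX2]; exact sX.flip) hX1 tb
  have qY : IsPullback jY hY (pullback.fst p b) j :=
    IsPullback.of_right (by rw [hY2]; exact sY.flip) hY1 tb
  have oX : IsOpenImmersion jX := MorphismProperty.of_isPullback qX.flip inferInstance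
  have oY : IsOpenImmersion jY := MorphismProperty.of_isPullback qY.flip inferInstance
  have e1 : i' ≫ h = jX := by
    apply pullback.hom_ext
    · rw [Category.assoc, hf, hi, hX1]
    · rw [Category.assoc, hs, hX2]
  have e2 : j' ≫ h = jY := by
    apply pullback.hom_ext
    · rw [Category.assoc, hf, hj, hY1]
    · rw [Category.assoc, hs, hY2]
  have rX : IsPullback (𝟙 X') i' jX h :=
    IsPullback.of_right (h₁₂ := hX) (h₂₂ := pullback.fst p b) (v₁₃ := i)
      (by rw [Category.id_comp, hf]; exact qi.flip) (by rw [Category.id_comp, e1]) qX.flip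
  have rY : IsPullback (𝟙 Y') j' jY h :=
    IsPullback.of_right (h₁₂ := hY) (h₂₂ := pullback.fst p b) (v₁₃ := j)
      (by rw [Category.id_comp, hf]; exact qj.flip) (by rw [Category.id_comp, e2]) qY.flip
  have hiso : IsIso h := by
    refine two_target (MorphismProperty.isomorphisms Scheme) h jX jY ?_ rX.flip rY.flip
      (MorphismProperty.isomorphisms.infer_property _) (MorphismProperty.isomorphisms.infer_property _)
    intro t
    rcases cov (pullback.fst p b t) with ⟨x, hx⟩ | ⟨y, hy⟩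
    · left
      obtain ⟨o, ho, -⟩ := Scheme.exists_preimage_of_isPullback qX t x hx.symm
      exact ⟨o, ho⟩
    · right
      obtain ⟨o, ho, -⟩ := Scheme.exists_preimage_of_isPullback qY t y hy.symm
      exact ⟨o, ho⟩
  exact IsPullback.of_iso_pullback ⟨w⟩ (asIso h) (by simp [hf]) (by simp [hs])

end Pool.Agent.MG


end

section

/-!
# The blow up of an affine scheme in two functions
-/

open CategoryTheory CategoryTheory.Limits AlgebraicGeometry

namespace Pool.Agent.MG

variable {R : Type} [CommRing R] (z s : R)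

/-- The inclusion of the overlap in the first chart. -/
noncomputable def blf : Sp (MR z s) ⟶ Sp (NR z s) := spMap (algebraMap (NR z s) (MR z s))

/-- The inclusion of the overlap in the second chart. -/
noncomputable def blg : Sp (MR z s) ⟶ Sp (NR s z) := spMap (swapN z s)

instance : IsOpenImmersion (blf z s) :=
  inferInstanceAs (IsOpenImmersion (Spec.map (CommRingCat.ofHom (algebraMap (NR z s)
    (Localization.Away (nw z s))))))

theorem blg_eq : blg z s = spMap ((swapE z s : MR s z ≃+* MR z s) : MR s z →+* MR z s) ≫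
    blf s z := by
  unfold blg blf spMap
  rw [← Spec.map_comp, ← CommRingCat.ofHom_comp]
  congr 2
  exact RingHom.ext fun a => (swapM_apply z s a).symm

instance : IsOpenImmersion (blg z s) := by
  rw [blg_eq]
  have : IsIso (spMap ((swapE z s : MR s z ≃+* MR z s) : MR s z →+* MR z s)) :=
    inferInstanceAs (IsIso (Scheme.Spec.mapIso (swapE z s).toCommRingCatIso.op).hom)
  infer_instance

/-- The blow up `{z Y₀ = s Y₁} ⊆ ℙ¹_R`, glued from its two charts. -/
noncomputable def Bl : Scheme.{0} := pushout (blf z s) (blg z s)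

/-- The first chart. -/
noncomputable def bl1 : Sp (NR z s) ⟶ Bl z s := pushout.inl (blf z s) (blg z s)

/-- The second chart. -/
noncomputable def bl2 : Sp (NR s z) ⟶ Bl z s := pushout.inr (blf z s) (blg z s)

instance : IsOpenImmersion (bl1 z s) := glue2_inl _ _

instance : IsOpenImmersion (bl2 z s) := glue2_inr _ _

theorem bl_cond : blf z s ≫ bl1 z s = blg z s ≫ bl2 z s := pushout.condition

theorem bl_isPullback : IsPullback (blf z s) (blg z s) (bl1 z s) (bl2 z s) :=
  glue2_isPullback _ _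

theorem bl_cover (x : Bl z s) : x ∈ Set.range (bl1 z s) ∨ x ∈ Set.range (bl2 z s) :=
  glue2_surj _ _ x

/-- The projection to `Spec R`. -/
noncomputable def blπ : Bl z s ⟶ Sp R :=
  pushout.desc (spMap (algebraMap R (NR z s))) (spMap (algebraMap R (NR s z))) (by
    unfold blf blg spMap
    rw [← Spec.map_comp, ← Spec.map_comp, ← CommRingCat.ofHom_comp, ← CommRingCat.ofHom_comp]
    congr 2
    ext a
    simp only [RingHom.comp_apply]
    rw [swapN_of, algebraMap_MR])

@[reassoc (attr := simp)] theorem bl1_π : bl1 z s ≫ blπ z s = spMap (algebraMap R (NR z s)) :=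
  pushout.inl_desc _ _ _

@[reassoc (attr := simp)] theorem bl2_π : bl2 z s ≫ blπ z s = spMap (algebraMap R (NR s z)) :=
  pushout.inr_desc _ _ _

/-- A morphism of spectra is given by a ring homomorphism. -/
theorem sp_hom {A B : Type} [CommRing A] [CommRing B] (f : Sp B ⟶ Sp A) :
    ∃ φ : A →+* B, f = spMap φ :=
  ⟨(Spec.preimage f).hom, (Spec.map_preimage f).symm⟩

theorem spMap_inj {A B : Type} [CommRing A] [CommRing B] {φ ψ : A →+* B}
    (h : spMap φ = spMap ψ) : φ = ψ := by
  have := Spec.map_injective h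
  exact congrArg CommRingCat.Hom.hom this

theorem spMap_comp {A B C : Type} [CommRing A] [CommRing B] [CommRing C] (φ : A →+* B)
    (ψ : B →+* C) : spMap (ψ.comp φ) = spMap ψ ≫ spMap φ := by
  unfold spMap
  rw [CommRingCat.ofHom_comp, Spec.map_comp]

/-- A morphism from the spectrum of a local ring which maps the closed point into an open subscheme
factors through it. -/
theorem local_factor {O : Type} [CommRing O] [IsLocalRing O] {X U : Scheme.{0}} (j : U ⟶ X)
    [IsOpenImmersion j] (f : Sp O ⟶ X) (h : f (IsLocalRing.closedPoint O) ∈ Set.range j) :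
    ∃ f' : Sp O ⟶ U, f = f' ≫ j := by
  refine ⟨IsOpenImmersion.lift j f ?_, (IsOpenImmersion.lift_fac _ _ _).symm⟩
  rintro _ ⟨x, rfl⟩
  have h1 : f x ⤳ f (IsLocalRing.closedPoint O) :=
    (IsLocalRing.specializes_closedPoint x).map f.continuous
  exact h1.mem_open j.isOpenEmbedding.isOpen_range h

theorem bl_local {O : Type} [CommRing O] [IsLocalRing O] (f : Sp O ⟶ Bl z s) :
    (∃ α : NR z s →+* O, f = spMap α ≫ bl1 z s) ∨ (∃ α : NR s z →+* O, f = spMap α ≫ bl2 z s) := by
  rcases bl_cover z s (f (IsLocalRing.closedPoint O)) with h | h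
  · left
    obtain ⟨f', hf⟩ := local_factor _ f h
    obtain ⟨α, rfl⟩ := sp_hom f'
    exact ⟨α, hf⟩
  · right
    obtain ⟨f', hf⟩ := local_factor _ f h
    obtain ⟨α, rfl⟩ := sp_hom f'
    exact ⟨α, hf⟩

/-- Pass from the first to the second chart when `w` is invertible. -/
theorem bl_swap12 {O : Type} [CommRing O] (α : NR z s →+* O) (y : O) (h : α (nw z s) * y = 1) :
    ∃ β : NR s z →+* O, spMap α ≫ bl1 z s = spMap β ≫ bl2 z s ∧ β (nw s z) = y ∧
      ∀ r, β (algebraMap R _ r) = α (algebraMap R _ r) := by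
  let γ : MR z s →+* O := IsLocalization.Away.lift (nw z s) (g := α) (IsUnit.of_mul_eq_one _ h)
  have hγ : ∀ a, γ (algebraMap _ _ a) = α a := fun a => IsLocalization.Away.lift_eq _ _ a
  refine ⟨γ.comp (swapN z s), ?_, ?_, ?_⟩
  · have h1 : spMap α = spMap γ ≫ blf z s := by
      unfold blf
      rw [← spMap_comp]
      congr 1
      exact RingHom.ext fun a => (hγ a).symm
    rw [h1, Category.assoc, bl_cond, ← Category.assoc]
    congr 1
    exact (spMap_comp _ _).symm
  · rw [RingHom.comp_apply, swapN_w]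
    have h1 : γ (algebraMap _ _ (nw z s)) * γ (mInv z s) = 1 := by
      rw [← map_mul, mInv_rel, map_one]
    rw [hγ] at h1
    calc γ (mInv z s) = (α (nw z s) * y) * γ (mInv z s) := by rw [h, one_mul]
      _ = (α (nw z s) * γ (mInv z s)) * y := by ring
      _ = y := by rw [h1, one_mul]
  · intro r
    rw [RingHom.comp_apply, swapN_of, algebraMap_MR, hγ]

/-- Pass from the second to the first chart when `Y` is invertible. -/
theorem bl_swap21 {O : Type} [CommRing O] (β : NR s z →+* O) (w : O) (h : β (nw s z) * w = 1) :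
    ∃ α : NR z s →+* O, spMap β ≫ bl2 z s = spMap α ≫ bl1 z s ∧ α (nw z s) = w ∧
      ∀ r, α (algebraMap R _ r) = β (algebraMap R _ r) := by
  let δ : MR s z →+* O := IsLocalization.Away.lift (nw s z) (g := β) (IsUnit.of_mul_eq_one _ h)
  have hδ : ∀ a, δ (algebraMap _ _ a) = β a := fun a => IsLocalization.Away.lift_eq _ _ a
  let γ : MR z s →+* O := δ.comp (swapM s z)
  have hγ : ∀ a, γ (swapN z s a) = β a := by
    intro a
    change δ (swapM s z (swapN z s a)) = β a
    rw [← swapM_apply, swapM_swapM, hδ]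
  refine ⟨γ.comp (algebraMap _ _), ?_, ?_, ?_⟩
  · have h1 : spMap β = spMap γ ≫ blg z s := by
      unfold blg
      rw [← spMap_comp]
      congr 1
      exact RingHom.ext fun a => (hγ a).symm
    rw [h1, Category.assoc, ← bl_cond, ← Category.assoc]
    congr 1
    exact (spMap_comp _ _).symm
  · rw [RingHom.comp_apply]
    have h1 : γ (algebraMap _ _ (nw z s)) * γ (mInv z s) = 1 := by
      rw [← map_mul, mInv_rel, map_one]
    rw [← swapN_w, hγ] at h1
    calc γ (algebraMap _ _ (nw z s)) = γ (algebraMap _ _ (nw z s)) * (β (nw s z) * w) := by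
          rw [h, mul_one]
      _ = (γ (algebraMap _ _ (nw z s)) * β (nw s z)) * w := by ring
      _ = w := by rw [h1, one_mul]
  · intro r
    rw [RingHom.comp_apply, ← algebraMap_MR, ← swapN_of, hγ]

theorem bl_existence : ValuativeCriterion.Existence (blπ z s) := by
  intro S
  obtain ⟨ρ, hρ⟩ := sp_hom (A := R) (B := S.R) S.i₂
  have hinj : Function.Injective (algebraMap S.R S.K) := IsFractionRing.injective S.R S.K
  have hw := S.commSq.w
  rw [hρ] at hw
  -- the two charts
  have key1 : ∀ (o : S.R) (ho : ρ z * o = ρ s) (α : NR z s →+* S.K), S.i₁ = spMap α ≫ bl1 z s →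
      (∀ r, α (algebraMap R _ r) = algebraMap S.R S.K (ρ r)) →
      α (nw z s) = algebraMap S.R S.K o → S.commSq.HasLift := by
    intro o ho α h1 h2 h3
    refine ⟨⟨⟨spMap (nrLift ρ o ho) ≫ bl1 z s, ?_, ?_⟩⟩⟩
    · rw [h1]
      change spMap _ ≫ spMap _ ≫ _ = _
      rw [← Category.assoc, ← spMap_comp]
      congr 2
      apply nr_hom_ext
      · intro r
        rw [RingHom.comp_apply, nrLift_of, h2]
      · rw [RingHom.comp_apply, nrLift_w, h3]
    · rw [Category.assoc, bl1_π, ← spMap_comp, hρ]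
      congr 1
      exact RingHom.ext fun r => by rw [RingHom.comp_apply, nrLift_of]
  have key2 : ∀ (o : S.R) (ho : ρ s * o = ρ z) (α : NR s z →+* S.K), S.i₁ = spMap α ≫ bl2 z s →
      (∀ r, α (algebraMap R _ r) = algebraMap S.R S.K (ρ r)) →
      α (nw s z) = algebraMap S.R S.K o → S.commSq.HasLift := by
    intro o ho α h1 h2 h3
    refine ⟨⟨⟨spMap (nrLift ρ o ho) ≫ bl2 z s, ?_, ?_⟩⟩⟩
    · rw [h1]
      change spMap _ ≫ spMap _ ≫ _ = _
      rw [← Category.assoc, ← spMap_comp]
      congr 2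
      apply nr_hom_ext
      · intro r
        rw [RingHom.comp_apply, nrLift_of, h2]
      · rw [RingHom.comp_apply, nrLift_w, h3]
    · rw [Category.assoc, bl2_π, ← spMap_comp, hρ]
      congr 1
      exact RingHom.ext fun r => by rw [RingHom.comp_apply, nrLift_of]
  have left : ∀ α : NR z s →+* S.K, S.i₁ = spMap α ≫ bl1 z s →
      (∀ r, α (algebraMap R _ r) = algebraMap S.R S.K (ρ r)) → S.commSq.HasLift := by
    intro α h1 h2
    have hrel : algebraMap S.R S.K (ρ z) * α (nw z s) = algebraMap S.R S.K (ρ s) := by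
      rw [← h2, ← h2, ← map_mul, nw_rel]
    rcases ValuationRing.isInteger_or_isInteger S.R (α (nw z s)) with ⟨o, ho⟩ | ⟨o, ho⟩
    · refine key1 o (hinj ?_) α h1 h2 ho.symm
      rw [map_mul, ho, hrel]
    · by_cases h0 : α (nw z s) = 0
      · refine key1 0 (hinj ?_) α h1 h2 (by rw [h0, map_zero])
        rw [mul_zero, map_zero, ← hrel, h0, mul_zero]
      · obtain ⟨β, hβ1, hβ2, hβ3⟩ := bl_swap12 z s α (α (nw z s))⁻¹ (mul_inv_cancel₀ h0)
        refine key2 o (hinj ?_) β (h1.trans hβ1) (fun r => by rw [hβ3, h2]) (by rw [hβ2, ho])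
        rw [map_mul, ho, ← hrel]
        field_simp
  rcases bl_local z s (O := S.K) S.i₁ with ⟨α, h1⟩ | ⟨α, h1⟩
  · refine left α h1 ?_
    rw [h1, Category.assoc, bl1_π] at hw
    change spMap _ ≫ spMap _ = spMap _ ≫ spMap _ at hw
    rw [← spMap_comp, ← spMap_comp] at hw
    intro r
    exact congrArg (fun f => f r) (spMap_inj hw)
  · have h2 : ∀ r, α (algebraMap R _ r) = algebraMap S.R S.K (ρ r) := by
      rw [h1, Category.assoc, bl2_π] at hw
      change spMap _ ≫ spMap _ = spMap _ ≫ spMap _ at hw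
      rw [← spMap_comp, ← spMap_comp] at hw
      intro r
      exact congrArg (fun f => f r) (spMap_inj hw)
    by_cases h0 : α (nw s z) = 0
    · refine key2 0 (hinj ?_) α h1 h2 (by rw [h0, map_zero])
      rw [mul_zero, map_zero, ← h2, ← nw_rel, map_mul, h0, mul_zero]
    · obtain ⟨β, hβ1, hβ2, hβ3⟩ := bl_swap21 z s α (α (nw s z))⁻¹ (mul_inv_cancel₀ h0)
      exact left β (h1.trans hβ1) fun r => by rw [hβ3, h2]

theorem bl_uniqueness : ValuativeCriterion.Uniqueness (blπ z s) := by
  intro S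
  constructor
  rintro ⟨l₁, hl₁, hl₁'⟩ ⟨l₂, hl₂, hl₂'⟩
  ext : 1
  dsimp only at *
  have hinj : Function.Injective (algebraMap S.R S.K) := IsFractionRing.injective S.R S.K
  have hw : spMap (algebraMap S.R S.K) ≫ l₁ = spMap (algebraMap S.R S.K) ≫ l₂ := hl₁.trans hl₂.symm
  have both1 : ∀ β₁ β₂ : NR z s →+* S.R, l₁ = spMap β₁ ≫ bl1 z s → l₂ = spMap β₂ ≫ bl1 z s →
      l₁ = l₂ := by
    intro β₁ β₂ h1 h2
    rw [h1, h2, ← Category.assoc, ← Category.assoc, cancel_mono, ← spMap_comp, ← spMap_comp] at hw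
    have h3 := spMap_inj hw
    rw [h1, h2]
    congr 2
    exact RingHom.ext fun a => hinj (congrArg (fun f => f a) h3)
  have both2 : ∀ β₁ β₂ : NR s z →+* S.R, l₁ = spMap β₁ ≫ bl2 z s → l₂ = spMap β₂ ≫ bl2 z s →
      l₁ = l₂ := by
    intro β₁ β₂ h1 h2
    rw [h1, h2, ← Category.assoc, ← Category.assoc, cancel_mono, ← spMap_comp, ← spMap_comp] at hw
    have h3 := spMap_inj hw
    rw [h1, h2]
    congr 2
    exact RingHom.ext fun a => hinj (congrArg (fun f => f a) h3)
  have mixed : ∀ (β₁ : NR z s →+* S.R) (β₂ : NR s z →+* S.R) (_ : spMap (algebraMap S.R S.K) ≫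
      spMap β₁ ≫ bl1 z s = spMap (algebraMap S.R S.K) ≫ spMap β₂ ≫ bl2 z s),
      β₁ (nw z s) * β₂ (nw s z) = 1 := by
    intro β₁ β₂ h
    rw [← Category.assoc, ← Category.assoc, ← spMap_comp, ← spMap_comp] at h
    obtain ⟨γ, hγ⟩ := sp_hom ((bl_isPullback z s).lift _ _ h)
    have h1 := (bl_isPullback z s).lift_fst _ _ h
    have h2 := (bl_isPullback z s).lift_snd _ _ h
    rw [hγ] at h1 h2
    unfold blf at h1
    unfold blg at h2
    rw [← spMap_comp] at h1 h2
    have h3 := congrArg (fun f => f (nw z s)) (spMap_inj h1)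
    have h4 := congrArg (fun f => f (nw s z)) (spMap_inj h2)
    simp only [RingHom.comp_apply] at h3 h4
    apply hinj
    rw [map_mul, ← h3, ← h4, swapN_w, ← map_mul, mInv_rel, map_one, map_one]
  rcases bl_local z s (O := S.R) l₁ with ⟨β₁, h1⟩ | ⟨β₁, h1⟩ <;>
    rcases bl_local z s (O := S.R) l₂ with ⟨β₂, h2⟩ | ⟨β₂, h2⟩
  · exact both1 β₁ β₂ h1 h2
  · obtain ⟨β, hβ, -⟩ := bl_swap12 z s β₁ _ (mixed β₁ β₂ (by rw [← h1, ← h2]; exact hw))
    exact both2 β β₂ (h1.trans hβ) h2
  · obtain ⟨β, hβ, -⟩ := bl_swap12 z s β₂ _ (mixed β₂ β₁ (by rw [← h1, ← h2]; exact hw.symm))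
    exact both2 β₁ β h1 (h2.trans hβ)
  · exact both2 β₁ β₂ h1 h2

instance : CompactSpace (Bl z s) := by
  rw [← isCompact_univ_iff]
  have h1 : (Set.univ : Set (Bl z s)) = Set.range (bl1 z s) ∪ Set.range (bl2 z s) := by
    ext x
    simpa using bl_cover z s x
  rw [h1]
  exact (isCompact_range (bl1 z s).continuous).union (isCompact_range (bl2 z s).continuous)

theorem lfp_algebraMap {A B : Type} [CommRing A] [CommRing B] [Algebra A B]
    [h : Algebra.FinitePresentation A B] : LocallyOfFinitePresentation (spMap (algebraMap A B)) :=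
  (LocallyOfFinitePresentation.SpecMap_iff _).2 (RingHom.finitePresentation_algebraMap.2 h)

instance blπ_lfp : LocallyOfFinitePresentation (blπ z s) := by
  apply two_source @LocallyOfFinitePresentation (bl1 z s) (bl2 z s) (bl_cover z s)
  · rw [bl1_π]
    exact lfp_algebraMap
  · rw [bl2_π]
    exact lfp_algebraMap

theorem bl_inter_range :
    Set.range (bl1 z s) ∩ Set.range (bl2 z s) = Set.range (blf z s ≫ bl1 z s) := by
  exact congrArg (fun U : (Bl z s).Opens => (U : Set (Bl z s)))
    (glue2_inter (blf z s) (blg z s))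

instance bl_qs : QuasiSeparatedSpace (Bl z s) := by
  have h12 : IsCompact (Set.range (bl1 z s) ∩ Set.range (bl2 z s)) := by
    rw [bl_inter_range]
    exact isCompact_range (blf z s ≫ bl1 z s).continuous
  refine Scheme.quasiSeparatedSpace_of_isOpenCover
    (fun b : Bool => if b then (bl1 z s).opensRange else (bl2 z s).opensRange) ?_ ?_ ?_
  · rw [TopologicalSpace.IsOpenCover, iSup_bool_eq]
    ext x
    simp only [if_true, Bool.false_eq_true, if_false, TopologicalSpace.Opens.coe_sup,
      Scheme.Hom.coe_opensRange, Set.mem_union, TopologicalSpace.Opens.coe_top, Set.mem_univ,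
      iff_true]
    exact bl_cover z s x
  · rintro (_ | _)
    · exact isAffineOpen_opensRange (bl2 z s)
    · exact isAffineOpen_opensRange (bl1 z s)
  · rintro (_ | _) (_ | _)
    · change IsCompact (Set.range (bl2 z s) ∩ Set.range (bl2 z s))
      rw [Set.inter_self]
      exact isCompact_range (bl2 z s).continuous
    · change IsCompact (Set.range (bl2 z s) ∩ Set.range (bl1 z s))
      rw [Set.inter_comm]
      exact h12
    · exact h12
    · change IsCompact (Set.range (bl1 z s) ∩ Set.range (bl1 z s))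
      rw [Set.inter_self]
      exact isCompact_range (bl1 z s).continuous

instance blπ_proper : IsProper (blπ z s) :=
  IsProper.of_valuativeCriterion _
    (ValuativeCriterion.iff.2 ⟨bl_existence z s, bl_uniqueness z s⟩)

end Pool.Agent.MG


end

section

/-!
# Base change of the blow up
-/

open CategoryTheory CategoryTheory.Limits AlgebraicGeometry

namespace Pool.Agent.MG

/-- A square of spectra is cartesian if the ring has the universal property of the tensor
product. -/
theorem spec_isPullback {A B C D : Type} [CommRing A] [CommRing B] [CommRing C] [CommRing D]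
    (a : A →+* B) (b : A →+* C) (c : B →+* D) (d : C →+* D) (h : c.comp a = d.comp b)
    (ex : ∀ (T : Type) [CommRing T] (f : B →+* T) (g : C →+* T), f.comp a = g.comp b →
      ∃ k : D →+* T, k.comp c = f ∧ k.comp d = g)
    (un : ∀ (T : Type) [CommRing T] (k k' : D →+* T), k.comp c = k'.comp c →
      k.comp d = k'.comp d → k = k') :
    IsPullback (spMap c) (spMap d) (spMap a) (spMap b) := by
  apply isPullback_SpecMap_of_isPushout
  refine ⟨⟨?_⟩, ⟨PushoutCocone.IsColimit.mk _ (fun s => ?_) (fun s => ?_) (fun s => ?_)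
    (fun s m h1 h2 => ?_)⟩⟩
  · rw [← CommRingCat.ofHom_comp, ← CommRingCat.ofHom_comp, h]
  · have hs : s.inl.hom.comp a = s.inr.hom.comp b := by
      have := congrArg CommRingCat.Hom.hom s.condition
      simpa using this
    exact CommRingCat.ofHom (ex s.pt s.inl.hom s.inr.hom hs).choose
  · ext1
    have hs : s.inl.hom.comp a = s.inr.hom.comp b := by
      have := congrArg CommRingCat.Hom.hom s.condition
      simpa using this
    exact (ex s.pt s.inl.hom s.inr.hom hs).choose_spec.1
  · ext1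
    have hs : s.inl.hom.comp a = s.inr.hom.comp b := by
      have := congrArg CommRingCat.Hom.hom s.condition
      simpa using this
    exact (ex s.pt s.inl.hom s.inr.hom hs).choose_spec.2
  · have hs : s.inl.hom.comp a = s.inr.hom.comp b := by
      have := congrArg CommRingCat.Hom.hom s.condition
      simpa using this
    ext1
    apply un
    · rw [CommRingCat.hom_ofHom, (ex s.pt s.inl.hom s.inr.hom hs).choose_spec.1, ← h1]
      rfl
    · rw [CommRingCat.hom_ofHom, (ex s.pt s.inl.hom s.inr.hom hs).choose_spec.2, ← h2]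
      rfl

variable {R R' : Type} [CommRing R] [CommRing R'] (ψ : R →+* R') (z s : R)

/-- The map of the first charts. -/
noncomputable def nrMap : NR z s →+* NR (ψ z) (ψ s) :=
  nrLift ((algebraMap R' (NR (ψ z) (ψ s))).comp ψ) (nw (ψ z) (ψ s)) (by
    rw [RingHom.comp_apply, RingHom.comp_apply]
    exact nw_rel (ψ z) (ψ s))

@[simp] theorem nrMap_of (r : R) :
    nrMap ψ z s (algebraMap R (NR z s) r) = algebraMap R' (NR (ψ z) (ψ s)) (ψ r) :=
  nrLift_of _ _ _ _

@[simp] theorem nrMap_w : nrMap ψ z s (nw z s) = nw (ψ z) (ψ s) := nrLift_w _ _ _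

theorem nrMap_isPullback :
    IsPullback (spMap (nrMap ψ z s)) (spMap (algebraMap R' (NR (ψ z) (ψ s))))
      (spMap (algebraMap R (NR z s))) (spMap ψ) := by
  apply spec_isPullback
  · ext r
    simp only [RingHom.comp_apply]
    rw [nrMap_of]
  · intro T _ f g h
    have h' : ∀ r, f (algebraMap R (NR z s) r) = g (ψ r) := fun r => congrArg (fun k => k r) h
    refine ⟨nrLift g (f (nw z s)) ?_, ?_, ?_⟩
    · rw [← h', ← h', ← map_mul, nw_rel]
    · apply nr_hom_ext
      · intro r
        rw [RingHom.comp_apply, nrMap_of, nrLift_of, h']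
      · rw [RingHom.comp_apply, nrMap_w, nrLift_w]
    · exact RingHom.ext fun r => by rw [RingHom.comp_apply, nrLift_of]
  · intro T _ k k' h1 h2
    apply nr_hom_ext
    · intro r
      exact congrArg (fun f => f r) h2
    · have := congrArg (fun f => f (nw z s)) h1
      simpa using this

/-- The map of the intersections. -/
noncomputable def mrMap : MR z s →+* MR (ψ z) (ψ s) :=
  IsLocalization.Away.lift (nw z s) (g := (algebraMap (NR (ψ z) (ψ s))
    (MR (ψ z) (ψ s))).comp (nrMap ψ z s)) (by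
    rw [RingHom.comp_apply, nrMap_w]
    exact IsUnit.of_mul_eq_one _ (mInv_rel (ψ z) (ψ s)))

@[simp] theorem mrMap_of (a : NR z s) :
    mrMap ψ z s (algebraMap (NR z s) (MR z s) a) =
      algebraMap (NR (ψ z) (ψ s)) (MR (ψ z) (ψ s)) (nrMap ψ z s a) :=
  IsLocalization.Away.lift_eq _ _ _

theorem mrMap_mInv : mrMap ψ z s (mInv z s) = mInv (ψ z) (ψ s) := by
  have h1 : mrMap ψ z s (algebraMap (NR z s) (MR z s) (nw z s)) * mrMap ψ z s (mInv z s) = 1 := by
    rw [← map_mul, mInv_rel, map_one]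
  rw [mrMap_of, nrMap_w] at h1
  calc mrMap ψ z s (mInv z s) = (algebraMap (NR (ψ z) (ψ s)) (MR (ψ z) (ψ s)) (nw (ψ z) (ψ s)) *
        mInv (ψ z) (ψ s)) * mrMap ψ z s (mInv z s) := by rw [mInv_rel, one_mul]
    _ = mInv (ψ z) (ψ s) * (algebraMap (NR (ψ z) (ψ s)) (MR (ψ z) (ψ s)) (nw (ψ z) (ψ s)) *
        mrMap ψ z s (mInv z s)) := by ring
    _ = _ := by rw [h1, mul_one]

theorem mrMap_swapN (a : NR s z) :
    mrMap ψ z s (swapN z s a) = swapN (ψ z) (ψ s) (nrMap ψ s z a) := by
  have h : (mrMap ψ z s).comp (swapN z s) = (swapN (ψ z) (ψ s)).comp (nrMap ψ s z) := by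
    apply nr_hom_ext
    · intro r
      simp only [RingHom.comp_apply]
      rw [swapN_of, nrMap_of, swapN_of, algebraMap_MR, algebraMap_MR, mrMap_of, nrMap_of]
    · simp only [RingHom.comp_apply]
      rw [swapN_w, nrMap_w, swapN_w, mrMap_mInv]
  exact congrArg (fun f => f a) h

/-- The map of the blow ups. -/
noncomputable def blMap : Bl (ψ z) (ψ s) ⟶ Bl z s :=
  pushout.map _ _ _ _ (spMap (nrMap ψ z s)) (spMap (nrMap ψ s z)) (spMap (mrMap ψ z s))
    (by
      unfold blf
      rw [← spMap_comp, ← spMap_comp]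
      congr 1
      exact RingHom.ext fun a => (mrMap_of ψ z s a).symm)
    (by
      unfold blg
      rw [← spMap_comp, ← spMap_comp]
      congr 1
      exact RingHom.ext fun a => (mrMap_swapN ψ z s a).symm)

@[reassoc] theorem bl1_blMap : bl1 (ψ z) (ψ s) ≫ blMap ψ z s = spMap (nrMap ψ z s) ≫ bl1 z s :=
  pushout.inl_desc _ _ _

@[reassoc] theorem bl2_blMap : bl2 (ψ z) (ψ s) ≫ blMap ψ z s = spMap (nrMap ψ s z) ≫ bl2 z s :=
  pushout.inr_desc _ _ _

theorem range_blf : Set.range (blf z s) =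
    ((PrimeSpectrum.basicOpen (nw z s) : TopologicalSpace.Opens _) : Set (PrimeSpectrum _)) :=
  PrimeSpectrum.localization_away_comap_range (Localization.Away (nw z s)) (nw z s)

theorem bl1_mem_range_bl2 (x : Sp (NR z s)) :
    bl1 z s x ∈ Set.range (bl2 z s) ↔ nw z s ∉ x.asIdeal := by
  have h1 : bl1 z s x ∈ Set.range (bl2 z s) ↔ x ∈ Set.range (blf z s) := by
    constructor
    · rintro ⟨y, hy⟩
      obtain ⟨w, hw, -⟩ := glue2_eq (blf z s) (blg z s) x y hy.symm
      exact ⟨w, hw⟩
    · rintro ⟨w, rfl⟩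
      refine ⟨blg z s w, ?_⟩
      rw [← Scheme.Hom.comp_apply, ← bl_cond]
      rfl
  rw [h1, range_blf]
  rfl

theorem range_blg : Set.range (blg z s) =
    ((PrimeSpectrum.basicOpen (nw s z) : TopologicalSpace.Opens _) : Set (PrimeSpectrum _)) := by
  rw [blg_eq, ← range_blf]
  have : IsIso (spMap ((swapE z s : MR s z ≃+* MR z s) : MR s z →+* MR z s)) :=
    inferInstanceAs (IsIso (Scheme.Spec.mapIso (swapE z s).toCommRingCatIso.op).hom)
  ext x
  constructor
  · rintro ⟨y, rfl⟩
    exact ⟨_, (Scheme.Hom.comp_apply _ _ _).symm⟩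
  · rintro ⟨y, rfl⟩
    refine ⟨(inv (spMap ((swapE z s : MR s z ≃+* MR z s) : MR s z →+* MR z s))) y, ?_⟩
    rw [← Scheme.Hom.comp_apply, IsIso.inv_hom_id_assoc]

theorem bl2_mem_range_bl1 (y : Sp (NR s z)) :
    bl2 z s y ∈ Set.range (bl1 z s) ↔ nw s z ∉ y.asIdeal := by
  have h1 : bl2 z s y ∈ Set.range (bl1 z s) ↔ y ∈ Set.range (blg z s) := by
    constructor
    · rintro ⟨x, hx⟩
      obtain ⟨w, -, hw⟩ := glue2_eq (blf z s) (blg z s) x y hx
      exact ⟨w, hw⟩
    · rintro ⟨w, rfl⟩
      refine ⟨blf z s w, ?_⟩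
      rw [← Scheme.Hom.comp_apply, bl_cond]
      rfl
  rw [h1, range_blg]
  rfl

theorem blMap_isPullback : IsPullback (blMap ψ z s) (blπ (ψ z) (ψ s)) (blπ z s) (spMap ψ) := by
  refine cart_two (bl1_blMap ψ z s) (bl2_blMap ψ z s) (bl_cover z s) (bl_cover (ψ z) (ψ s)) ?_ ?_ ?_ ?_ ?_
  · intro y hy
    rw [bl2_mem_range_bl1] at hy ⊢
    intro h
    exact hy (by
      change nrMap ψ s z (nw s z) ∈ y.asIdeal
      rw [nrMap_w]
      exact h)
  · intro x hx
    rw [bl1_mem_range_bl2] at hx ⊢
    intro h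
    exact hx (by
      change nrMap ψ z s (nw z s) ∈ x.asIdeal
      rw [nrMap_w]
      exact h)
  · rw [bl1_π, bl1_π]
    exact nrMap_isPullback ψ z s
  · rw [bl2_π, bl2_π]
    exact nrMap_isPullback ψ s z
  · have e1 : bl1 (ψ z) (ψ s) ≫ blMap ψ z s ≫ blπ z s =
        bl1 (ψ z) (ψ s) ≫ blπ (ψ z) (ψ s) ≫ spMap ψ := by
      rw [bl1_blMap_assoc, bl1_π, ← Category.assoc, bl1_π]
      exact (nrMap_isPullback ψ z s).w
    have e2 : bl2 (ψ z) (ψ s) ≫ blMap ψ z s ≫ blπ z s =
        bl2 (ψ z) (ψ s) ≫ blπ (ψ z) (ψ s) ≫ spMap ψ := by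
      rw [bl2_blMap_assoc, bl2_π, ← Category.assoc, bl2_π]
      exact (nrMap_isPullback ψ s z).w
    exact pushout.hom_ext e1 e2

end Pool.Agent.MG


end

section

/-!
# The glued bubble over a scheme with two affine charts
-/

set_option linter.unusedSectionVars false

open CategoryTheory CategoryTheory.Limits AlgebraicGeometry

namespace Pool.Agent.MG

section

variable {R : Type} [CommRing R] (z s : R)

theorem isIso_spMap {A B : Type} [CommRing A] [CommRing B] (f : A →+* B)
    (hf : Function.Bijective f) : IsIso (spMap f) := by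
  let e := RingEquiv.ofBijective f hf
  exact inferInstanceAs (IsIso (Scheme.Spec.mapIso e.toCommRingCatIso.op).hom)

theorem nr_bijective (hz : IsUnit z) : Function.Bijective (algebraMap R (NR z s)) := by
  obtain ⟨u, rfl⟩ := hz
  let f : NR (u : R) s →+* R := nrLift (RingHom.id R) ((↑u⁻¹ : R) * s) (by
    simp only [RingHom.id_apply]
    rw [← mul_assoc, Units.mul_inv, one_mul])
  have h1 : ∀ r, f (algebraMap R _ r) = r := fun r => nrLift_of _ _ _ _
  refine ⟨fun a b hab => ?_, fun n => ⟨f n, ?_⟩⟩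
  · rw [← h1 a, hab, h1]
  · have h2 : (algebraMap R (NR (u : R) s)).comp f = RingHom.id _ := by
      apply nr_hom_ext
      · intro r
        simp only [RingHom.comp_apply, RingHom.id_apply, h1]
      · simp only [RingHom.comp_apply, RingHom.id_apply]
        have h3 : f (nw (u : R) s) = (↑u⁻¹ : R) * s := nrLift_w _ _ _
        rw [h3, map_mul, ← nw_rel, ← mul_assoc, ← map_mul, Units.inv_mul, map_one, one_mul]
    exact congrArg (fun g => g n) h2

/-- A surjective open immersion is an isomorphism. -/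
theorem isIso_of_surj {X Y : Scheme.{0}} (f : X ⟶ Y) [IsOpenImmersion f]
    (h : ∀ y : Y, y ∈ Set.range f) : IsIso f := by
  apply isIso_of_isOpenImmersion_of_opensRange_eq_top
  ext y
  simpa using h y

theorem isIso_blπ_left (hz : IsUnit z) : IsIso (blπ z s) := by
  have h1 : IsIso (bl1 z s) := by
    apply isIso_of_surj
    intro x
    rcases bl_cover z s x with h | ⟨y, rfl⟩
    · exact h
    · rw [bl2_mem_range_bl1]
      intro hy
      have h2 : algebraMap R (NR s z) z ∈ y.asIdeal := by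
        rw [← nw_rel]
        exact Ideal.mul_mem_left _ _ hy
      exact y.2.ne_top (Ideal.eq_top_of_isUnit_mem _ h2 (hz.map _))
  have h2 : IsIso (bl1 z s ≫ blπ z s) := by
    rw [bl1_π]
    exact isIso_spMap _ (nr_bijective z s hz)
  exact IsIso.of_isIso_comp_left (bl1 z s) (blπ z s)

theorem isIso_blπ_right (hs : IsUnit s) : IsIso (blπ z s) := by
  have h1 : IsIso (bl2 z s) := by
    apply isIso_of_surj
    intro x
    rcases bl_cover z s x with ⟨y, rfl⟩ | h
    · rw [bl1_mem_range_bl2]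
      intro hy
      have h2 : algebraMap R (NR z s) s ∈ y.asIdeal := by
        rw [← nw_rel]
        exact Ideal.mul_mem_left _ _ hy
      exact y.2.ne_top (Ideal.eq_top_of_isUnit_mem _ h2 (hs.map _))
    · exact h
  have h2 : IsIso (bl2 z s ≫ blπ z s) := by
    rw [bl2_π]
    exact isIso_spMap _ (nr_bijective s z hs)
  exact IsIso.of_isIso_comp_left (bl2 z s) (blπ z s)

end

section

variable {A1 A2 A12 : Type} [CommRing A1] [CommRing A2] [CommRing A12]
  (α1 : A1 →+* A12) (α2 : A2 →+* A12) [IsOpenImmersion (spMap α1)] [IsOpenImmersion (spMap α2)]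
  (z s : A1) (hz : IsUnit (α1 z))

/-- The open subscheme of the blow up over the intersection of the charts. -/
noncomputable def blj : Sp A12 ⟶ Bl z s :=
  have := isIso_blπ_left (α1 z) (α1 s) hz
  inv (blπ (α1 z) (α1 s)) ≫ blMap α1 z s

theorem blj_isPullback : IsPullback (blj α1 z s hz) (𝟙 (Sp A12)) (blπ z s) (spMap α1) := by
  have := isIso_blπ_left (α1 z) (α1 s) hz
  have h := blMap_isPullback α1 z s
  have h' : IsPullback (inv (blπ (α1 z) (α1 s))) (𝟙 (Sp A12)) (blπ (α1 z) (α1 s)) (𝟙 (Sp A12)) :=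
    IsPullback.of_horiz_isIso ⟨by simp⟩
  have h2 := h'.paste_horiz h
  rw [Category.id_comp] at h2
  exact h2

instance : IsOpenImmersion (blj α1 z s hz) :=
  MorphismProperty.of_isPullback (blj_isPullback α1 z s hz).flip inferInstance

@[reassoc] theorem blj_π : blj α1 z s hz ≫ blπ z s = spMap α1 := by
  rw [(blj_isPullback α1 z s hz).w, Category.id_comp]

/-- The bubble: the blow up of the union of `Spec A₁` and `Spec A₂` in two functions `z`, `s` on
`Spec A₁`, `z` invertible on the intersection `Spec A₁₂`. -/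
noncomputable def Bub : Scheme.{0} := pushout (blj α1 z s hz) (spMap α2)

/-- The blown up chart. -/
noncomputable def bubl : Bl z s ⟶ Bub α1 α2 z s hz := pushout.inl (blj α1 z s hz) (spMap α2)

/-- The second chart. -/
noncomputable def bubr : Sp A2 ⟶ Bub α1 α2 z s hz := pushout.inr (blj α1 z s hz) (spMap α2)

instance : IsOpenImmersion (bubl α1 α2 z s hz) := glue2_inl _ _

instance : IsOpenImmersion (bubr α1 α2 z s hz) := glue2_inr _ _

@[reassoc] theorem bub_cond : blj α1 z s hz ≫ bubl α1 α2 z s hz = spMap α2 ≫ bubr α1 α2 z s hz :=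
  pushout.condition

theorem bub_isPullback : IsPullback (blj α1 z s hz) (spMap α2) (bubl α1 α2 z s hz)
    (bubr α1 α2 z s hz) := glue2_isPullback _ _

theorem bub_cover (x : Bub α1 α2 z s hz) :
    x ∈ Set.range (bubl α1 α2 z s hz) ∨ x ∈ Set.range (bubr α1 α2 z s hz) :=
  glue2_surj _ _ x

variable {X : Scheme.{0}} (i1 : Sp A1 ⟶ X) (i2 : Sp A2 ⟶ X)

/-- The projection of the bubble to the union of the charts. -/
noncomputable def bubc (hi : spMap α1 ≫ i1 = spMap α2 ≫ i2) : Bub α1 α2 z s hz ⟶ X :=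
  pushout.desc (blπ z s ≫ i1) i2 (by rw [blj_π_assoc, hi])

@[reassoc (attr := simp)] theorem bubl_c (hi : spMap α1 ≫ i1 = spMap α2 ≫ i2) :
    bubl α1 α2 z s hz ≫ bubc α1 α2 z s hz i1 i2 hi = blπ z s ≫ i1 :=
  pushout.inl_desc _ _ _

@[reassoc (attr := simp)] theorem bubr_c (hi : spMap α1 ≫ i1 = spMap α2 ≫ i2) :
    bubr α1 α2 z s hz ≫ bubc α1 α2 z s hz i1 i2 hi = i2 :=
  pushout.inr_desc _ _ _

variable [IsOpenImmersion i1] [IsOpenImmersion i2]
  (hi : IsPullback (spMap α1) (spMap α2) i1 i2)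

theorem bubc_isPullback1 : IsPullback (bubl α1 α2 z s hz) (blπ z s)
    (bubc α1 α2 z s hz i1 i2 hi.w) i1 := by
  refine piece_isPullback (j := i2) (j' := bubr α1 α2 z s hz) (hY := 𝟙 (Sp A2)) (by simp)
    (by simp) (bub_cover α1 α2 z s hz) ?_
  rintro y ⟨x, hx⟩
  obtain ⟨w, -, hw⟩ := Scheme.exists_preimage_of_isPullback hi x y hx
  refine ⟨blj α1 z s hz w, ?_⟩
  rw [← Scheme.Hom.comp_apply, bub_cond, Scheme.Hom.comp_apply]
  congr 1

theorem bubc_isPullback2 : IsPullback (bubr α1 α2 z s hz) (𝟙 (Sp A2))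
    (bubc α1 α2 z s hz i1 i2 hi.w) i2 := by
  refine piece_isPullback (j := i1) (j' := bubl α1 α2 z s hz) (hY := blπ z s) (by simp)
    (by simp) (fun x => (bub_cover α1 α2 z s hz x).symm) ?_
  rintro y ⟨x, hx⟩
  obtain ⟨w, hw, -⟩ := Scheme.exists_preimage_of_isPullback hi (blπ z s y) x hx.symm
  obtain ⟨w', hw', -⟩ := Scheme.exists_preimage_of_isPullback (blj_isPullback α1 z s hz) y w
    hw.symm
  refine ⟨spMap α2 w', ?_⟩
  rw [← hw', ← Scheme.Hom.comp_apply, ← bub_cond, Scheme.Hom.comp_apply]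

variable (cov : ∀ x : X, x ∈ Set.range i1 ∨ x ∈ Set.range i2)

include cov in
theorem bubc_proper : IsProper (bubc α1 α2 z s hz i1 i2 hi.w) :=
  two_target @IsProper _ i1 i2 cov (bubc_isPullback1 α1 α2 z s hz i1 i2 hi)
    (bubc_isPullback2 α1 α2 z s hz i1 i2 hi) inferInstance inferInstance

include cov in
theorem bubc_isIso (hs : IsUnit s) : IsIso (bubc α1 α2 z s hz i1 i2 hi.w) :=
  two_target (MorphismProperty.isomorphisms Scheme) _ i1 i2 cov
    (bubc_isPullback1 α1 α2 z s hz i1 i2 hi) (bubc_isPullback2 α1 α2 z s hz i1 i2 hi)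
    (isIso_blπ_right z s hs) (MorphismProperty.isomorphisms.infer_property _)

end

end Pool.Agent.MG


end

section

/-!
# Base change of the bubble
-/

set_option linter.unusedSectionVars false

open CategoryTheory CategoryTheory.Limits AlgebraicGeometry

namespace Pool.Agent.MG

section

variable {R R' : Type} [CommRing R] [CommRing R'] (χ : R →+* R') (z s : R) (z' s' : R')
  (hz : z' = χ z) (hs : s' = χ s)

/-- The map of chart rings. -/
noncomputable def nrE : NR z s →+* NR z' s' :=
  nrLift ((algebraMap R' (NR z' s')).comp χ) (nw z' s') (by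
    rw [RingHom.comp_apply, RingHom.comp_apply, ← hz, ← hs]
    exact nw_rel z' s')

@[simp] theorem nrE_of (r : R) :
    nrE χ z s z' s' hz hs (algebraMap R (NR z s) r) = algebraMap R' (NR z' s') (χ r) :=
  nrLift_of _ _ _ _

@[simp] theorem nrE_w : nrE χ z s z' s' hz hs (nw z s) = nw z' s' := nrLift_w _ _ _

/-- The map of blow ups. -/
noncomputable def blE : Bl z' s' ⟶ Bl z s := by
  subst hz hs
  exact blMap χ z s

@[reassoc] theorem bl1_blE :
    bl1 z' s' ≫ blE χ z s z' s' hz hs = spMap (nrE χ z s z' s' hz hs) ≫ bl1 z s := by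
  subst hz hs
  exact bl1_blMap χ z s

@[reassoc] theorem bl2_blE :
    bl2 z' s' ≫ blE χ z s z' s' hz hs = spMap (nrE χ s z s' z' hs hz) ≫ bl2 z s := by
  subst hz hs
  exact bl2_blMap χ z s

theorem blE_isPullback :
    IsPullback (blE χ z s z' s' hz hs) (blπ z' s') (blπ z s) (spMap χ) := by
  subst hz hs
  exact blMap_isPullback χ z s

end

section

variable {A1 A2 A12 : Type} [CommRing A1] [CommRing A2] [CommRing A12]
  {α1 : A1 →+* A12} {α2 : A2 →+* A12} [IsOpenImmersion (spMap α1)] [IsOpenImmersion (spMap α2)]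
  {z s : A1} {hu : IsUnit (α1 z)}
  {A1' A2' A12' : Type} [CommRing A1'] [CommRing A2'] [CommRing A12']
  {α1' : A1' →+* A12'} {α2' : A2' →+* A12'} [IsOpenImmersion (spMap α1')]
  [IsOpenImmersion (spMap α2')] {z' s' : A1'} {hu' : IsUnit (α1' z')}
  {χ1 : A1 →+* A1'} {χ2 : A2 →+* A2'} {χ12 : A12 →+* A12'}
  (hz : z' = χ1 z) (hs : s' = χ1 s)
  (sq1 : IsPullback (spMap χ12) (spMap α1') (spMap α1) (spMap χ1))
  (sq2 : IsPullback (spMap χ12) (spMap α2') (spMap α2) (spMap χ2))

include sq1 in
theorem blj_blE : blj α1' z' s' hu' ≫ blE χ1 z s z' s' hz hs = spMap χ12 ≫ blj α1 z s hu := by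
  have h1 : (blj α1' z' s' hu' ≫ blE χ1 z s z' s' hz hs) ≫ blπ z s = spMap χ12 ≫ spMap α1 := by
    rw [Category.assoc, (blE_isPullback χ1 z s z' s' hz hs).w, blj_π_assoc, sq1.w]
  have h2 := (blj_isPullback α1 z s hu).lift_fst _ _ h1
  have h3 := (blj_isPullback α1 z s hu).lift_snd _ _ h1
  rw [Category.comp_id] at h3
  rw [← h2, h3]

/-- The base change map of bubbles. -/
noncomputable def bubE : Bub α1' α2' z' s' hu' ⟶ Bub α1 α2 z s hu :=
  pushout.desc (blE χ1 z s z' s' hz hs ≫ bubl α1 α2 z s hu) (spMap χ2 ≫ bubr α1 α2 z s hu) (by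
    rw [← Category.assoc, blj_blE hz hs sq1 (hu := hu), Category.assoc, bub_cond,
      ← Category.assoc, ← Category.assoc, sq2.w])

@[reassoc] theorem bubl_bubE : bubl α1' α2' z' s' hu' ≫ bubE (hu := hu) hz hs sq1 sq2 =
    blE χ1 z s z' s' hz hs ≫ bubl α1 α2 z s hu := pushout.inl_desc _ _ _

@[reassoc] theorem bubr_bubE : bubr α1' α2' z' s' hu' ≫ bubE (hu := hu) hz hs sq1 sq2 =
    spMap χ2 ≫ bubr α1 α2 z s hu := pushout.inr_desc _ _ _

/-- Base change of bubbles. -/
theorem bubE_isPullback {S S' : Scheme.{0}} {b : S' ⟶ S} {p : Bub α1 α2 z s hu ⟶ S}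
    {p' : Bub α1' α2' z' s' hu' ⟶ S'} {q1 : Sp A1 ⟶ S} {q2 : Sp A2 ⟶ S} {q1' : Sp A1' ⟶ S'}
    {q2' : Sp A2' ⟶ S'} (h1 : bubl α1 α2 z s hu ≫ p = blπ z s ≫ q1)
    (h2 : bubr α1 α2 z s hu ≫ p = q2) (h1' : bubl α1' α2' z' s' hu' ≫ p' = blπ z' s' ≫ q1')
    (h2' : bubr α1' α2' z' s' hu' ≫ p' = q2') (t1 : IsPullback (spMap χ1) q1' q1 b)
    (t2 : IsPullback (spMap χ2) q2' q2 b) :
    IsPullback (bubE (hu := hu) hz hs sq1 sq2) p' p b := by
  have e1 : bubl α1' α2' z' s' hu' ≫ bubE (hu := hu) hz hs sq1 sq2 ≫ p =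
      bubl α1' α2' z' s' hu' ≫ p' ≫ b := by
    rw [bubl_bubE_assoc, h1, ← Category.assoc, (blE_isPullback χ1 z s z' s' hz hs).w,
      Category.assoc, t1.w, ← Category.assoc, ← Category.assoc, h1']
  have e2 : bubr α1' α2' z' s' hu' ≫ bubE (hu := hu) hz hs sq1 sq2 ≫ p =
      bubr α1' α2' z' s' hu' ≫ p' ≫ b := by
    rw [bubr_bubE_assoc, h2, t2.w, ← Category.assoc, h2']
  refine cart_two (bubl_bubE hz hs sq1 sq2) (bubr_bubE hz hs sq1 sq2) (bub_cover α1 α2 z s hu)
    (bub_cover α1' α2' z' s' hu') ?_ ?_ ?_ ?_ (pushout.hom_ext e1 e2)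
  · rintro y ⟨x, hx⟩
    obtain ⟨w, -, hw⟩ := Scheme.exists_preimage_of_isPullback (bub_isPullback α1 α2 z s hu) x
      (spMap χ2 y) hx
    obtain ⟨w', -, hw'⟩ := Scheme.exists_preimage_of_isPullback sq2 w y hw
    refine ⟨blj α1' z' s' hu' w', ?_⟩
    rw [← Scheme.Hom.comp_apply, bub_cond, Scheme.Hom.comp_apply]
    exact congrArg _ hw'
  · rintro x ⟨y, hy⟩
    obtain ⟨w, hw, -⟩ := Scheme.exists_preimage_of_isPullback (bub_isPullback α1 α2 z s hu)
      (blE χ1 z s z' s' hz hs x) y hy.symm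
    have h3 : spMap α1 w = spMap χ1 (blπ z' s' x) := by
      have h4 := congrArg (fun f => f x) (blE_isPullback χ1 z s z' s' hz hs).w
      have h5 : blπ z s (blE χ1 z s z' s' hz hs x) = spMap χ1 (blπ z' s' x) := by
        rw [← Scheme.Hom.comp_apply, ← Scheme.Hom.comp_apply,
          (blE_isPullback χ1 z s z' s' hz hs).w]
      rw [← h5, ← hw]
      have h6 := congrArg (fun (f : Sp A12 ⟶ Sp A1) => f w) (blj_π α1 z s hu)
      exact h6.symm
    obtain ⟨w1, -, hw1⟩ := Scheme.exists_preimage_of_isPullback sq1 w (blπ z' s' x) h3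
    obtain ⟨w2, hw2, -⟩ := Scheme.exists_preimage_of_isPullback (blj_isPullback α1' z' s' hu') x w1
      hw1.symm
    refine ⟨spMap α2' w2, ?_⟩
    rw [← Scheme.Hom.comp_apply, ← bub_cond, Scheme.Hom.comp_apply]
    exact congrArg _ hw2
  · rw [h1, h1']
    exact (blE_isPullback χ1 z s z' s' hz hs).paste_vert t1
  · rw [h2, h2']
    exact t2

end

end Pool.Agent.MG


end

section

/-!
# Schemes with two affine charts

A duo over `A` consists of `A`-algebras `R1`, `R2`, `R12` where `R12` is the localisation of `R1` at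
`z` and the localisation of `R2` at `w`, and `z w = 1` in `R12`.
-/

open CategoryTheory CategoryTheory.Limits AlgebraicGeometry TensorProduct

namespace Pool.Agent.MG.KX

/-- Two affine charts. -/
structure Duo (A : Type) [CommRing A] where
  /-- the ring of the first chart -/
  R1 : Type
  /-- the ring of the second chart -/
  R2 : Type
  /-- the ring of the intersection -/
  R12 : Type
  [c1 : CommRing R1]
  [c2 : CommRing R2]
  [c12 : CommRing R12]
  [a1 : Algebra A R1]
  [a2 : Algebra A R2]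
  [a12 : Algebra A R12]
  /-- restriction -/
  j1 : R1 →ₐ[A] R12
  /-- restriction -/
  j2 : R2 →ₐ[A] R12
  /-- the equation of the complement of the intersection in the first chart -/
  z : R1
  /-- the equation of the complement of the intersection in the second chart -/
  w : R2
  zw : j1 z * j2 w = 1
  ker1 : ∀ r, j1 r = 0 → ∃ n : ℕ, z ^ n * r = 0
  ker2 : ∀ r, j2 r = 0 → ∃ n : ℕ, w ^ n * r = 0
  sur1 : ∀ s, ∃ (n : ℕ) (r : R1), j1 z ^ n * s = j1 r
  sur2 : ∀ s, ∃ (n : ℕ) (r : R2), j2 w ^ n * s = j2 r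

attribute [instance] Duo.c1 Duo.c2 Duo.c12 Duo.a1 Duo.a2 Duo.a12

section

variable {A : Type} [CommRing A] (D : Duo A)

/-- A localisation criterion. -/
theorem away_of {R S : Type} [CommRing R] [CommRing S] (j : R →+* S) (z : R) (h1 : IsUnit (j z))
    (h2 : ∀ r, j r = 0 → ∃ n : ℕ, z ^ n * r = 0)
    (h3 : ∀ s, ∃ (n : ℕ) (r : R), j z ^ n * s = j r) :
    letI := j.toAlgebra
    IsLocalization.Away z S := by
  let _ := j.toAlgebra
  refine ⟨?_, ?_, ?_⟩
  · rintro ⟨_, n, rfl⟩
    change IsUnit (j (z ^ n))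
    rw [map_pow]
    exact h1.pow n
  · intro s
    obtain ⟨n, r, hr⟩ := h3 s
    refine ⟨⟨r, ⟨z ^ n, n, rfl⟩⟩, ?_⟩
    change s * j (z ^ n) = j r
    rw [← hr, map_pow, mul_comm]
  · intro x y hxy
    have h4 : j (x - y) = 0 := by
      rw [map_sub, sub_eq_zero]
      exact hxy
    obtain ⟨n, hn⟩ := h2 _ h4
    refine ⟨⟨z ^ n, n, rfl⟩, ?_⟩
    rw [mul_sub, sub_eq_zero] at hn
    exact hn

/-- A localisation gives an open immersion. -/
theorem open_of {R S : Type} [CommRing R] [CommRing S] (j : R →+* S) (z : R) (h1 : IsUnit (j z))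
    (h2 : ∀ r, j r = 0 → ∃ n : ℕ, z ^ n * r = 0)
    (h3 : ∀ s, ∃ (n : ℕ) (r : R), j z ^ n * s = j r) : IsOpenImmersion (spMap j) := by
  let _ := j.toAlgebra
  have := away_of j z h1 h2 h3
  exact IsOpenImmersion.of_isLocalization (S := S) z

theorem Duo.unit1 : IsUnit (D.j1 D.z) := IsUnit.of_mul_eq_one _ D.zw

theorem Duo.unit2 : IsUnit (D.j2 D.w) := IsUnit.of_mul_eq_one _ ((mul_comm _ _).trans D.zw)

instance Duo.open1 : IsOpenImmersion (spMap (D.j1 : D.R1 →+* D.R12)) :=
  open_of _ D.z D.unit1 D.ker1 D.sur1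

instance Duo.open2 : IsOpenImmersion (spMap (D.j2 : D.R2 →+* D.R12)) :=
  open_of _ D.w D.unit2 D.ker2 D.sur2

/-- The glued scheme. -/
noncomputable def Duo.X : Scheme.{0} :=
  pushout (spMap (D.j1 : D.R1 →+* D.R12)) (spMap (D.j2 : D.R2 →+* D.R12))

/-- The first chart. -/
noncomputable def Duo.in1 : Sp D.R1 ⟶ D.X := pushout.inl _ _

/-- The second chart. -/
noncomputable def Duo.in2 : Sp D.R2 ⟶ D.X := pushout.inr _ _

instance : IsOpenImmersion D.in1 :=
  inferInstanceAs (IsOpenImmersion (pushout.inl (spMap (D.j1 : D.R1 →+* D.R12))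
    (spMap (D.j2 : D.R2 →+* D.R12))))

instance : IsOpenImmersion D.in2 :=
  inferInstanceAs (IsOpenImmersion (pushout.inr (spMap (D.j1 : D.R1 →+* D.R12))
    (spMap (D.j2 : D.R2 →+* D.R12))))

@[reassoc]
theorem Duo.cond : spMap (D.j1 : D.R1 →+* D.R12) ≫ D.in1 =
    spMap (D.j2 : D.R2 →+* D.R12) ≫ D.in2 := pushout.condition

theorem Duo.cov (x : D.X) : x ∈ Set.range D.in1 ∨ x ∈ Set.range D.in2 :=
  glue2_surj (spMap (D.j1 : D.R1 →+* D.R12)) (spMap (D.j2 : D.R2 →+* D.R12)) x

theorem Duo.meet (x : Sp D.R1) (y : Sp D.R2) (h : D.in1 x = D.in2 y) :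
    ∃ p : Sp D.R12, spMap (D.j1 : D.R1 →+* D.R12) p = x ∧
      spMap (D.j2 : D.R2 →+* D.R12) p = y :=
  glue2_eq (spMap (D.j1 : D.R1 →+* D.R12)) (spMap (D.j2 : D.R2 →+* D.R12)) x y h

variable {D} in
theorem Duo.ext {Y : Scheme.{0}} {f g : D.X ⟶ Y} (h1 : D.in1 ≫ f = D.in1 ≫ g)
    (h2 : D.in2 ≫ f = D.in2 ≫ g) : f = g := pushout.hom_ext h1 h2

theorem spMap_comp'' {A B C : Type} [CommRing A] [CommRing B] [CommRing C] (f : A →+* B)
    (g : B →+* C) : spMap g ≫ spMap f = spMap (g.comp f) := by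
  change _ = Spec.map (CommRingCat.ofHom (g.comp f))
  rw [CommRingCat.ofHom_comp, Spec.map_comp]

/-- The projection. -/
noncomputable def Duo.pr : D.X ⟶ Sp A :=
  pushout.desc (spMap (algebraMap A D.R1)) (spMap (algebraMap A D.R2)) (by
    rw [spMap_comp'', spMap_comp'', AlgHom.comp_algebraMap, AlgHom.comp_algebraMap])

@[reassoc (attr := simp)]
theorem Duo.in1_pr : D.in1 ≫ D.pr = spMap (algebraMap A D.R1) := pushout.inl_desc _ _ _

@[reassoc (attr := simp)]
theorem Duo.in2_pr : D.in2 ≫ D.pr = spMap (algebraMap A D.R2) := pushout.inr_desc _ _ _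

/-- The family, with sections in the first chart. -/
noncomputable def Duo.fam {n : ℕ} (s : Fin n → (D.R1 →ₐ[A] A)) : Fam n A where
  X := D.X
  π := D.pr
  σ i := spMap (s i : D.R1 →+* A) ≫ D.in1
  sec i := by
    rw [Category.assoc, D.in1_pr, spMap_comp'', AlgHom.comp_algebraMap]
    exact Spec.map_id _

end

/-- A homomorphism of duos over `φ`. -/
structure Duo.Hom {A B : Type} [CommRing A] [CommRing B] (φ : A →+* B) (D : Duo A)
    (E : Duo B) where
  /-- first chart -/
  f1 : D.R1 →+* E.R1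
  /-- second chart -/
  f2 : D.R2 →+* E.R2
  /-- intersection -/
  f12 : D.R12 →+* E.R12
  fa1 : ∀ a, f1 (algebraMap A D.R1 a) = algebraMap B E.R1 (φ a)
  fa2 : ∀ a, f2 (algebraMap A D.R2 a) = algebraMap B E.R2 (φ a)
  fj1 : ∀ r, f12 (D.j1 r) = E.j1 (f1 r)
  fj2 : ∀ r, f12 (D.j2 r) = E.j2 (f2 r)
  fz : f1 D.z = E.z
  fw : f2 D.w = E.w

section

variable {A B : Type} [CommRing A] [CommRing B] {φ : A →+* B} {D : Duo A} {E : Duo B}
  (h : Duo.Hom φ D E)

/-- The morphism of a homomorphism of duos. -/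
noncomputable def Duo.Hom.map : E.X ⟶ D.X :=
  pushout.desc (spMap h.f1 ≫ D.in1) (spMap h.f2 ≫ D.in2) (by
    have h1 : (E.j1 : E.R1 →+* E.R12).comp h.f1 = h.f12.comp (D.j1 : D.R1 →+* D.R12) :=
      RingHom.ext fun r => (h.fj1 r).symm
    have h2 : (E.j2 : E.R2 →+* E.R12).comp h.f2 = h.f12.comp (D.j2 : D.R2 →+* D.R12) :=
      RingHom.ext fun r => (h.fj2 r).symm
    rw [← Category.assoc, ← Category.assoc, spMap_comp'', spMap_comp'', h1, h2, ← spMap_comp'',
      ← spMap_comp'', Category.assoc, Category.assoc, D.cond])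

@[reassoc]
theorem Duo.Hom.in1_map : E.in1 ≫ h.map = spMap h.f1 ≫ D.in1 := pushout.inl_desc _ _ _

@[reassoc]
theorem Duo.Hom.in2_map : E.in2 ≫ h.map = spMap h.f2 ≫ D.in2 := pushout.inr_desc _ _ _

@[reassoc]
theorem Duo.Hom.map_pr : h.map ≫ D.pr = E.pr ≫ spMap φ := by
  refine Duo.ext ?_ ?_
  · rw [h.in1_map_assoc, D.in1_pr, E.in1_pr_assoc, spMap_comp'', spMap_comp'']
    exact congrArg (fun f => spMap f) (RingHom.ext h.fa1)
  · rw [h.in2_map_assoc, D.in2_pr, E.in2_pr_assoc, spMap_comp'', spMap_comp'']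
    exact congrArg (fun f => spMap f) (RingHom.ext h.fa2)

end

end Pool.Agent.MG.KX


end

section

/-!
# Statements on schemes with two affine charts (duos)

See `Pool/Agent/MG/KX/PAPER.md` for the proofs.
-/

open CategoryTheory CategoryTheory.Limits AlgebraicGeometry TensorProduct

namespace Pool.Agent.MG.KX

/-- DBC: the square of a homomorphism of duos is cartesian if it is so on both charts. -/
def Stmt_DBC : Prop :=
  ∀ {A B : Type} [CommRing A] [CommRing B] {φ : A →+* B} {D : Duo A} {E : Duo B}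
    (h : Duo.Hom φ D E),
    IsPullback (spMap h.f1) (spMap (algebraMap B E.R1)) (spMap (algebraMap A D.R1)) (spMap φ) →
    IsPullback (spMap h.f2) (spMap (algebraMap B E.R2)) (spMap (algebraMap A D.R2)) (spMap φ) →
    IsPullback h.map E.pr D.pr (spMap φ)

/-- DPR: a duo is proper if the charts are integral over `A[z]`, `A[w]`, and of finite type. -/
def Stmt_DPR : Prop :=
  ∀ {A : Type} [CommRing A] (D : Duo A), Algebra.FiniteType A D.R1 → Algebra.FiniteType A D.R2 →
    (∀ r : D.R1, ((Polynomial.aeval D.z : Polynomial A →ₐ[A] D.R1) :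
      Polynomial A →+* D.R1).IsIntegralElem r) →
    (∀ r : D.R2, ((Polynomial.aeval D.w : Polynomial A →ₐ[A] D.R2) :
      Polynomial A →+* D.R2).IsIntegralElem r) →
    IsProper D.pr

/-- DFL: flatness and finite presentation of a duo. -/
def Stmt_DFL : Prop :=
  (∀ {A : Type} [CommRing A] (D : Duo A), Module.Flat A D.R1 → Module.Flat A D.R2 → Flat D.pr) ∧
  (∀ {A : Type} [CommRing A] (D : Duo A), Algebra.FinitePresentation A D.R1 →
    Algebra.FinitePresentation A D.R2 → LocallyOfFinitePresentation D.pr)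

/-- DGE: the genus of a duo over a field. -/
def Stmt_DGE : Prop :=
  ∀ {K : Type} [Field K] (D : Duo K) (g : ℕ) (L : D.R12 →ₗ[K] (Fin g → K)),
    Function.Surjective L → (∀ t, L t = 0 ↔ ∃ p q, t = D.j1 p + D.j2 q) → HasGenus D.pr g

/-- DCO: a duo with constant global functions is connected. -/
def Stmt_DCO : Prop :=
  ∀ {K : Type} [Field K] (D : Duo K), Nontrivial D.R12 →
    (∀ p q, D.j1 p = D.j2 q → ∃ c : K, p = algebraMap K D.R1 c ∧ q = algebraMap K D.R2 c) →
    ConnectedSpace D.X

/-- DNO: nodal duos: the first chart is nodal, the second chart has étale coordinates at the points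
outside the intersection. -/
def Stmt_DNO : Prop :=
  ∀ {K : Type} [Field K] [IsAlgClosed K] (D : Duo K), Nodal (spMap (algebraMap K D.R1)) →
    (∀ q : PrimeSpectrum D.R2, D.w ∈ q.asIdeal → ∃ h t : D.R2, h ∉ q.asIdeal ∧
      ((algebraMap D.R2 (Localization.Away h)).comp
        (Polynomial.eval₂RingHom (algebraMap K D.R2) t)).Etale) →
    Nodal D.pr

/-- DVF: vector fields on a duo with sections in the first chart. -/
def Stmt_DVF : Prop :=
  ∀ {K : Type} [Field K] (D : Duo K) {n : ℕ} (s : Fin n → (D.R1 →ₐ[K] K)),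
    (∀ (E1 : Derivation K D.R1 D.R1) (E2 : Derivation K D.R2 D.R2)
      (E12 : Derivation K D.R12 D.R12), (∀ r, E12 (D.j1 r) = D.j1 (E1 r)) →
      (∀ r, E12 (D.j2 r) = D.j2 (E2 r)) → (∀ i r, s i (E1 r) = 0) → E1 = 0 ∧ E2 = 0) →
    ∀ (v : VField (D.fam s)) (U), v.D U = 0

/-- DSM: smoothness at the sections. -/
def Stmt_DSM : Prop :=
  ∀ {K : Type} [Field K] (D : Duo K) {n : ℕ} (s : Fin n → (D.R1 →ₐ[K] K)) (i : Fin n),
    (∃ h t : D.R1, s i h ≠ 0 ∧ ((algebraMap D.R1 (Localization.Away h)).comp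
        (Polynomial.eval₂RingHom (algebraMap K D.R1) t)).Etale) →
    ∀ p : Sp K, ∃ U : (D.fam s).X.Opens, (D.fam s).σ i p ∈ U ∧ Smooth (U.ι ≫ (D.fam s).π)

/-- DSS: smooth duos. -/
def Stmt_DSS : Prop :=
  ∀ {K : Type} [Field K] [IsAlgClosed K] (D : Duo K), Algebra.FinitePresentation K D.R1 →
    Algebra.FormallySmooth K D.R1 →
    (∀ q : PrimeSpectrum D.R2, D.w ∈ q.asIdeal → ∃ h t : D.R2, h ∉ q.asIdeal ∧
      ((algebraMap D.R2 (Localization.Away h)).comp
        (Polynomial.eval₂RingHom (algebraMap K D.R2) t)).Etale) →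
    Smooth D.pr

/-- DST: stability of duos, from the geometric fibres (which are given by duos). -/
def Stmt_DST : Prop :=
  ∀ {A : Type} [CommRing A] (g : ℕ) (D : Duo A) {n : ℕ} (s : Fin n → (D.R1 →ₐ[A] A)),
    IsProper D.pr → Flat D.pr → LocallyOfFinitePresentation D.pr →
    (∀ (K : Type) [Field K] [IsAlgClosed K] (φ : A →+* K), ∃ (E : Duo K)
      (s' : Fin n → (E.R1 →ₐ[K] K)) (h : Duo.Hom φ D E),
      IsPullback h.map E.pr D.pr (spMap φ) ∧ (∀ i r, s' i (h.f1 r) = φ (s i r)) ∧
      StableCurve g (E.fam s')) →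
    IsStable g (D.fam s)

end Pool.Agent.MG.KX


end

section

/-!
# DCO: a duo with constant global functions is connected
-/

open CategoryTheory CategoryTheory.Limits AlgebraicGeometry TensorProduct

namespace Pool.Agent.MG.KX

namespace DCO

/-- Clopen sets in the spectrum. -/
theorem exists_idem {R : Type} [CommRing R] (s : Set (Sp R)) (hs : IsClopen s) :
    ∃ e : R, IsIdempotentElem e ∧ ∀ x : Sp R, x ∈ s ↔ e ∉ x.asIdeal := by
  obtain ⟨e, he, h⟩ := PrimeSpectrum.exists_idempotent_basicOpen_eq_of_isClopen (R := R) (s := s) hs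
  exact ⟨e, he, fun x => by rw [h]; rfl⟩

theorem mem_spMap {R S : Type} [CommRing R] [CommRing S] (f : R →+* S) (x : Sp S) (r : R) :
    r ∈ (spMap f x).asIdeal ↔ f r ∈ x.asIdeal := Iff.rfl

end DCO

open _root_.Pool.Agent.MG.KX.DCO in
theorem t_DCO : Stmt_DCO := by
  intro K _ D hnt hc
  have hn1 : Nontrivial D.R1 := (D.j1 : D.R1 →+* D.R12).domain_nontrivial
  have hX : Nonempty D.X := by
    obtain ⟨m, hm⟩ := Ideal.exists_maximal D.R1
    exact ⟨D.in1 ⟨m, hm.isPrime⟩⟩
  have hpre : PreconnectedSpace D.X := by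
    rw [preconnectedSpace_iff_clopen]
    intro s hs
    obtain ⟨e1, h1, hs1⟩ := exists_idem (D.in1 ⁻¹' s) (hs.preimage D.in1.continuous)
    obtain ⟨e2, h2, hs2⟩ := exists_idem (D.in2 ⁻¹' s) (hs.preimage D.in2.continuous)
    have he : D.j1 e1 = D.j2 e2 := by
      apply PrimeSpectrum.basicOpen_injOn_isIdempotentElem (R := D.R12)
      · exact h1.map D.j1
      · exact h2.map D.j2
      · ext x
        change (D.j1 e1 ∉ x.asIdeal) ↔ (D.j2 e2 ∉ x.asIdeal)
        have hx : D.in1 (spMap (D.j1 : D.R1 →+* D.R12) x) =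
            D.in2 (spMap (D.j2 : D.R2 →+* D.R12) x) := by
          have h := congrArg (fun f => f x) D.cond
          simpa only [Scheme.Hom.comp_apply] using h
        have k1 := hs1 (spMap (D.j1 : D.R1 →+* D.R12) x)
        have k2 := hs2 (spMap (D.j2 : D.R2 →+* D.R12) x)
        rw [Set.mem_preimage, mem_spMap] at k1 k2
        rw [hx] at k1
        exact k1.symm.trans k2
    obtain ⟨c, hc1, hc2⟩ := hc e1 e2 he
    have hcc : c * c = c := by
      apply FaithfulSMul.algebraMap_injective K D.R1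
      rw [map_mul, ← hc1]
      exact h1
    have hcase : c = 0 ∨ c = 1 := by
      rcases eq_or_ne c 0 with h | h
      · exact Or.inl h
      · exact Or.inr (mul_left_cancel₀ h (by rw [hcc, mul_one]))
    rcases hcase with rfl | rfl
    · left
      rw [Set.eq_empty_iff_forall_notMem]
      intro x hx
      rcases D.cov x with ⟨y, rfl⟩ | ⟨y, rfl⟩
      · apply (hs1 y).1 hx
        rw [hc1, map_zero]
        exact y.asIdeal.zero_mem
      · apply (hs2 y).1 hx
        rw [hc2, map_zero]
        exact y.asIdeal.zero_mem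
    · right
      rw [Set.eq_univ_iff_forall]
      intro x
      rcases D.cov x with ⟨y, rfl⟩ | ⟨y, rfl⟩
      · apply (hs1 y).2
        rw [hc1, map_one]
        exact (Ideal.ne_top_iff_one _).1 y.isPrime.ne_top
      · apply (hs2 y).2
        rw [hc2, map_one]
        exact (Ideal.ne_top_iff_one _).1 y.isPrime.ne_top
  exact { toPreconnectedSpace := hpre, toNonempty := hX }

end Pool.Agent.MG.KX


end

section

/-!
# DFL: flatness and finite presentation of a scheme with two affine charts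
-/

open CategoryTheory CategoryTheory.Limits AlgebraicGeometry TensorProduct

namespace Pool.Agent.MG.KX

namespace DFL

variable {A : Type} [CommRing A] (D : Duo A)

/-- A property which is local on the source holds if it holds on the charts. -/
theorem loc2 (P : MorphismProperty Scheme.{0}) [IsZariskiLocalAtSource P]
    (h1 : P (spMap (algebraMap A D.R1))) (h2 : P (spMap (algebraMap A D.R2))) : P D.pr := by
  refine IsZariskiLocalAtSource.of_iSup_eq_top
    (fun i : Bool => if i then D.in1.opensRange else D.in2.opensRange) ?_ ?_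
  · rw [iSup_bool_eq]
    exact glue2_range (spMap (D.j1 : D.R1 →+* D.R12)) (spMap (D.j2 : D.R2 →+* D.R12))
  · intro i
    cases i
    · change P (D.in2.opensRange.ι ≫ D.pr)
      rw [← IsOpenImmersion.isoOfRangeEq_inv_fac D.in2 (Scheme.Opens.ι _)
        (congr_arg TopologicalSpace.Opens.carrier D.in2.opensRange.opensRange_ι.symm),
        Category.assoc, P.cancel_left_of_respectsIso, D.in2_pr]
      exact h2
    · change P (D.in1.opensRange.ι ≫ D.pr)
      rw [← IsOpenImmersion.isoOfRangeEq_inv_fac D.in1 (Scheme.Opens.ι _)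
        (congr_arg TopologicalSpace.Opens.carrier D.in1.opensRange.opensRange_ι.symm),
        Category.assoc, P.cancel_left_of_respectsIso, D.in1_pr]
      exact h1

end DFL

/-- DFL: flatness and finite presentation of a duo. -/
theorem t_DFL : Stmt_DFL := by
  refine ⟨fun {A} _ D h1 h2 => ?_, fun {A} _ D h1 h2 => ?_⟩
  · refine DFL.loc2 D @Flat ?_ ?_
    · rw [Flat.SpecMap_iff]
      exact RingHom.flat_algebraMap_iff.2 h1
    · rw [Flat.SpecMap_iff]
      exact RingHom.flat_algebraMap_iff.2 h2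
  · refine DFL.loc2 D @LocallyOfFinitePresentation ?_ ?_
    · rw [LocallyOfFinitePresentation.SpecMap_iff]
      exact RingHom.finitePresentation_algebraMap.2 h1
    · rw [LocallyOfFinitePresentation.SpecMap_iff]
      exact RingHom.finitePresentation_algebraMap.2 h2

end Pool.Agent.MG.KX


end

section

/-!
# DSS: smooth schemes with two affine charts
-/

open CategoryTheory CategoryTheory.Limits AlgebraicGeometry TensorProduct

namespace Pool.Agent.MG.KX

namespace DSS

/-- A property which is local on the source, from open neighbourhoods of the points. -/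
theorem loc_pt (P : MorphismProperty Scheme.{0}) [IsZariskiLocalAtSource P] {X Y : Scheme.{0}}
    (f : X ⟶ Y) (h : ∀ x : X, ∃ (U : Scheme.{0}) (i : U ⟶ X), IsOpenImmersion i ∧
      x ∈ Set.range i ∧ P (i ≫ f)) : P f := by
  choose U i hi hx hP using h
  refine IsZariskiLocalAtSource.of_iSup_eq_top
    (fun x : X => (i x).opensRange) ?_ ?_
  · rw [eq_top_iff]
    rintro x -
    exact TopologicalSpace.Opens.mem_iSup.2 ⟨x, hx x⟩
  · intro x
    rw [← IsOpenImmersion.isoOfRangeEq_inv_fac (i x) (Scheme.Opens.ι _)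
      (congr_arg TopologicalSpace.Opens.carrier (i x).opensRange.opensRange_ι.symm),
      Category.assoc, P.cancel_left_of_respectsIso]
    exact hP x

variable {A : Type} [CommRing A]

theorem in2_mem (D : Duo A) (q : PrimeSpectrum D.R2) (hq : D.w ∉ q.asIdeal) :
    ∃ y : Sp D.R1, D.in1 y = D.in2 q := by
  let _ := (D.j2 : D.R2 →+* D.R12).toAlgebra
  have := away_of (D.j2 : D.R2 →+* D.R12) D.w D.unit2 D.ker2 D.sur2
  have h1 : q ∈ Set.range (PrimeSpectrum.comap (algebraMap D.R2 D.R12)) := by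
    rw [PrimeSpectrum.localization_away_comap_range D.R12 D.w]
    exact hq
  obtain ⟨p, hp⟩ := h1
  refine ⟨spMap (D.j1 : D.R1 →+* D.R12) p, ?_⟩
  have h2 : spMap (D.j2 : D.R2 →+* D.R12) p = q := hp
  rw [← h2, ← Scheme.Hom.comp_apply, ← Scheme.Hom.comp_apply, D.cond]

/-- A map which has an etale coordinate is smooth. -/
theorem smooth_coord {K R S : Type} [CommRing K] [CommRing R] [CommRing S] [Algebra K R]
    (f : R →+* S) (t : R)
    (h : (f.comp (Polynomial.eval₂RingHom (algebraMap K R) t)).Etale) :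
    (f.comp (algebraMap K R)).Smooth := by
  have h1 : (f.comp (Polynomial.eval₂RingHom (algebraMap K R) t)).Smooth :=
    ((RingHom.etale_iff_formallyUnramified_and_smooth _).1 h).2
  have h2 : (algebraMap K (Polynomial K)).Smooth := by
    rw [RingHom.smooth_algebraMap]
    exact ⟨inferInstance, inferInstance⟩
  have h3 := RingHom.Smooth.comp h2 h1
  have h4 : (f.comp (Polynomial.eval₂RingHom (algebraMap K R) t)).comp
      (algebraMap K (Polynomial K)) = f.comp (algebraMap K R) := by
    ext a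
    change f ((Polynomial.eval₂RingHom (algebraMap K R) t) (Polynomial.C a)) = _
    rw [Polynomial.coe_eval₂RingHom, Polynomial.eval₂_C]
    rfl
  rwa [h4] at h3

end DSS

open _root_.Pool.Agent.MG.KX.DSS in
/-- DSS: smooth duos. -/
theorem t_DSS : Stmt_DSS := by
  intro K _ _ D hfp hfs h2
  have hin1 : Smooth (D.in1 ≫ D.pr) := by
    rw [D.in1_pr]
    refine (HasRingHomProperty.Spec_iff (P := @Smooth)).2 ?_
    change (algebraMap K D.R1).Smooth
    rw [RingHom.smooth_algebraMap]
    exact ⟨hfs, hfp⟩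
  refine loc_pt @Smooth D.pr fun x => ?_
  rcases D.cov x with hx | ⟨q, rfl⟩
  · exact ⟨_, D.in1, inferInstance, hx, hin1⟩
  · by_cases hq : D.w ∈ q.asIdeal
    · obtain ⟨h, t, hh, ht⟩ := h2 q hq
      have ho : IsOpenImmersion (spMap (algebraMap D.R2 (Localization.Away h))) :=
        IsOpenImmersion.of_isLocalization (S := Localization.Away h) h
      refine ⟨_, spMap (algebraMap D.R2 (Localization.Away h)) ≫ D.in2, inferInstance, ?_, ?_⟩
      · have h1 : q ∈ Set.range (PrimeSpectrum.comap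
            (algebraMap D.R2 (Localization.Away h))) := by
          rw [PrimeSpectrum.localization_away_comap_range (Localization.Away h) h]
          exact hh
        obtain ⟨p, hp⟩ := h1
        refine ⟨p, ?_⟩
        have h3 : spMap (algebraMap D.R2 (Localization.Away h)) p = q := hp
        rw [Scheme.Hom.comp_apply, h3]
      · rw [Category.assoc, D.in2_pr, spMap_comp'']
        refine (HasRingHomProperty.Spec_iff (P := @Smooth)).2 ?_
        exact smooth_coord _ t ht
    · obtain ⟨y, hy⟩ := in2_mem D q hq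
      exact ⟨_, D.in1, inferInstance, ⟨y, hy⟩, hin1⟩

end Pool.Agent.MG.KX


end
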