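import Mathlib
import Pool.Agent.KDM.C04

/-! Parts: MG.Geo, MG.StmtsA, MG.StmtsB, MG.StmtsC, MG.CST, MG.AN, MG.EllLem, MG.ALG1, MG.REP -/

section

/-!
# From geometry to ring data
-/

open CategoryTheory AlgebraicGeometry TensorProduct

namespace Pool.Agent.MG

section Thk

variable {n : ℕ} {B E J : Type} [CommRing B] [CommRing E] [Fintype J] {S : SqE B E J}
  {x : Fam n B} (t : Thk S x)

/-- The reduction of functions over `U` is surjective, with kernel free on the `ε j`. -/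
structure Good (U : x.X.Opens) : Prop where
  sur : Function.Surjective (t.q U)
  ker : ∀ v, t.q U v = 0 → ∃ w : J → Γ(t.y.X, t.op U),
    v = ∑ j, coef t.y.π (t.op U) (S.ε j) * w j
  un : ∀ w : J → Γ(t.y.X, t.op U),
    ∑ j, coef t.y.π (t.op U) (S.ε j) * w j = 0 → ∀ j, t.q U (w j) = 0

end Thk

section

variable {n : ℕ} {k : Type} [Field k] {T : TC k} {B : Type} [CommRing B] [Algebra k B]
  {x : Fam n B} (ct : Charted T x)

/-- Functions on the first chart. -/
noncomputable def Charted.eq1 : B ⊗[k] T.R1 ≃+* Γ(x.X, ct.U1) := RingEquiv.ofBijective ct.t1 ct.b1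

/-- Functions on the second chart. -/
noncomputable def Charted.eq2 : B ⊗[k] T.R2 ≃+* Γ(x.X, ct.U2) := RingEquiv.ofBijective ct.t2 ct.b2

/-- Functions on the intersection. -/
noncomputable def Charted.eq12 : B ⊗[k] T.R12 ≃+* Γ(x.X, ct.U1 ⊓ ct.U2) :=
  RingEquiv.ofBijective ct.t12 ct.b12

theorem tensor_ind {R R' : Type} [CommRing R] [CommRing R'] [Algebra k R]
    {f g : B ⊗[k] R →+* R'} (h1 : ∀ b, f (b ⊗ₜ 1) = g (b ⊗ₜ 1)) (h2 : ∀ r, f (1 ⊗ₜ r) = g (1 ⊗ₜ r))
    (v : B ⊗[k] R) : f v = g v := by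
  induction v with
  | zero => simp
  | tmul b r =>
    have : b ⊗ₜ[k] r = (b ⊗ₜ 1) * (1 ⊗ₜ r) := by simp
    rw [this, map_mul, map_mul, h1, h2]
  | add u v hu hv => rw [map_add, map_add, hu, hv]

theorem Charted.rs1 (v : B ⊗[k] T.R1) : rs x.X inf_le_left (ct.t1 v) =
    ct.t12 (Algebra.TensorProduct.map (AlgHom.id k B) T.j1 v) := by
  refine tensor_ind (f := (rs x.X inf_le_left).comp ct.t1)
    (g := ct.t12.comp (Algebra.TensorProduct.map (AlgHom.id k B) T.j1).toRingHom) ?_ ?_ v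
  · intro b
    have : Algebra.TensorProduct.map (AlgHom.id k B) T.j1 (b ⊗ₜ[k] 1) = b ⊗ₜ 1 := by simp
    change rs x.X inf_le_left (ct.t1 (b ⊗ₜ 1)) =
      ct.t12 (Algebra.TensorProduct.map (AlgHom.id k B) T.j1 (b ⊗ₜ[k] 1))
    rw [this, ct.c1, ct.c12, coef_rs]
  · intro a
    have : Algebra.TensorProduct.map (AlgHom.id k B) T.j1 (1 ⊗ₜ[k] a) = 1 ⊗ₜ T.j1 a := by simp
    change rs x.X inf_le_left (ct.t1 (1 ⊗ₜ a)) =
      ct.t12 (Algebra.TensorProduct.map (AlgHom.id k B) T.j1 (1 ⊗ₜ[k] a))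
    rw [this, ct.r1]

theorem Charted.rs2 (v : B ⊗[k] T.R2) : rs x.X inf_le_right (ct.t2 v) =
    ct.t12 (Algebra.TensorProduct.map (AlgHom.id k B) T.j2 v) := by
  refine tensor_ind (f := (rs x.X inf_le_right).comp ct.t2)
    (g := ct.t12.comp (Algebra.TensorProduct.map (AlgHom.id k B) T.j2).toRingHom) ?_ ?_ v
  · intro b
    have : Algebra.TensorProduct.map (AlgHom.id k B) T.j2 (b ⊗ₜ[k] 1) = b ⊗ₜ 1 := by simp
    change rs x.X inf_le_right (ct.t2 (b ⊗ₜ 1)) =
      ct.t12 (Algebra.TensorProduct.map (AlgHom.id k B) T.j2 (b ⊗ₜ[k] 1))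
    rw [this, ct.c2, ct.c12, coef_rs]
  · intro a
    have : Algebra.TensorProduct.map (AlgHom.id k B) T.j2 (1 ⊗ₜ[k] a) = 1 ⊗ₜ T.j2 a := by simp
    change rs x.X inf_le_right (ct.t2 (1 ⊗ₜ a)) =
      ct.t12 (Algebra.TensorProduct.map (AlgHom.id k B) T.j2 (1 ⊗ₜ[k] a))
    rw [this, ct.r2]

variable {E J : Type} [CommRing E] [Fintype J] {S : SqE B E J} (t : Thk S x)

/-- All three charts are good. -/
structure Good3 : Prop where
  g1 : Good t ct.U1
  g2 : Good t ct.U2
  g12 : Good t (ct.U1 ⊓ ct.U2)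

variable (H : Good3 ct t)

/-- The ring data of a flat thickening. -/
noncomputable def rd : RData T S where
  G1 := Γ(t.y.X, t.op ct.U1)
  G2 := Γ(t.y.X, t.op ct.U2)
  G12 := Γ(t.y.X, t.op (ct.U1 ⊓ ct.U2))
  a1 := coef t.y.π (t.op ct.U1)
  a2 := coef t.y.π (t.op ct.U2)
  a12 := coef t.y.π (t.op (ct.U1 ⊓ ct.U2))
  f1 := rs t.y.X (t.op_mono inf_le_left)
  f2 := rs t.y.X (t.op_mono inf_le_right)
  fa1 z := coef_rs _ _ z
  fa2 z := coef_rs _ _ z
  q1 := ct.eq1.symm.toRingHom.comp (t.q ct.U1)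
  q2 := ct.eq2.symm.toRingHom.comp (t.q ct.U2)
  q12 := ct.eq12.symm.toRingHom.comp (t.q (ct.U1 ⊓ ct.U2))
  qa1 z := by
    change ct.eq1.symm (t.q ct.U1 (coef t.y.π (t.op ct.U1) z)) = _
    rw [t.q_coef, RingEquiv.symm_apply_eq]
    exact (ct.c1 _).symm
  qa2 z := by
    change ct.eq2.symm (t.q ct.U2 (coef t.y.π (t.op ct.U2) z)) = _
    rw [t.q_coef, RingEquiv.symm_apply_eq]
    exact (ct.c2 _).symm
  qa12 z := by
    change ct.eq12.symm (t.q _ (coef t.y.π (t.op _) z)) = _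
    rw [t.q_coef, RingEquiv.symm_apply_eq]
    exact (ct.c12 _).symm
  qf1 v := by
    change ct.eq12.symm (t.q _ (rs t.y.X (t.op_mono inf_le_left) v)) =
      Algebra.TensorProduct.map (AlgHom.id k B) T.j1 (ct.eq1.symm (t.q ct.U1 v))
    rw [t.q_rs inf_le_left, RingEquiv.symm_apply_eq]
    have := ct.rs1 (ct.eq1.symm (t.q ct.U1 v))
    refine Eq.trans ?_ this
    congr 1
    exact (ct.eq1.apply_symm_apply (t.q ct.U1 v)).symm
  qf2 v := by
    change ct.eq12.symm (t.q _ (rs t.y.X (t.op_mono inf_le_right) v)) =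
      Algebra.TensorProduct.map (AlgHom.id k B) T.j2 (ct.eq2.symm (t.q ct.U2 v))
    rw [t.q_rs inf_le_right, RingEquiv.symm_apply_eq]
    have := ct.rs2 (ct.eq2.symm (t.q ct.U2 v))
    refine Eq.trans ?_ this
    congr 1
    exact (ct.eq2.apply_symm_apply (t.q ct.U2 v)).symm
  sur1 := ct.eq1.symm.surjective.comp H.g1.sur
  sur2 := ct.eq2.symm.surjective.comp H.g2.sur
  sur12 := ct.eq12.symm.surjective.comp H.g12.sur
  ker1 v hv := by
    refine H.g1.ker v ?_
    change ct.eq1.symm (t.q ct.U1 v) = 0 at hv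
    exact (map_eq_zero_iff _ ct.eq1.symm.injective).1 hv
  ker2 v hv := by
    refine H.g2.ker v ?_
    change ct.eq2.symm (t.q ct.U2 v) = 0 at hv
    exact (map_eq_zero_iff _ ct.eq2.symm.injective).1 hv
  ker12 v hv := by
    refine H.g12.ker v ?_
    change ct.eq12.symm (t.q _ v) = 0 at hv
    exact (map_eq_zero_iff _ ct.eq12.symm.injective).1 hv
  un1 w hw j := by
    change ct.eq1.symm (t.q ct.U1 (w j)) = 0
    rw [H.g1.un w hw j, map_zero]
  un2 w hw j := by
    change ct.eq2.symm (t.q ct.U2 (w j)) = 0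
    rw [H.g2.un w hw j, map_zero]
  un12 w hw j := by
    change ct.eq12.symm (t.q _ (w j)) = 0
    rw [H.g12.un w hw j, map_zero]

theorem Thk.sec_le (i : Fin n) {U : x.X.Opens} (h : ⊤ ≤ x.σ i ⁻¹ᵁ U) :
    ⊤ ≤ t.y.σ i ⁻¹ᵁ (t.op U) := by
  intro a _
  obtain ⟨b, rfl⟩ := (spMap S.p).surjective a
  have h1 : x.σ i b ∈ t.r.f ⁻¹ᵁ (t.op U) := by
    rw [t.pre]
    exact h (by trivial)
  have h2 : t.r.f (x.σ i b) = t.y.σ i (spMap S.p b) := by
    have := t.r.sec i
    rw [← Scheme.Hom.comp_apply, this, Scheme.Hom.comp_apply]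
  have h3 : t.r.f (x.σ i b) ∈ t.op U := h1
  rw [h2] at h3
  exact h3

/-- Evaluation of functions on the thickening at a section. -/
noncomputable def Thk.ev (i : Fin n) {U : x.X.Opens} (h : ⊤ ≤ x.σ i ⁻¹ᵁ U) :
    Γ(t.y.X, t.op U) →+* E :=
  (Scheme.ΓSpecIso (CommRingCat.of E)).hom.hom.comp
    ((t.y.σ i).appLE (t.op U) ⊤ (t.sec_le i h)).hom

/-- Evaluation of functions at a section. -/
noncomputable def ev0 (i : Fin n) {U : x.X.Opens} (h : ⊤ ≤ x.σ i ⁻¹ᵁ U) : Γ(x.X, U) →+* B :=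
  (Scheme.ΓSpecIso (CommRingCat.of B)).hom.hom.comp ((x.σ i).appLE U ⊤ h).hom

theorem gl_inv {A : Type} [CommRing A] (a : A) :
    (Scheme.ΓSpecIso (CommRingCat.of A)).hom.hom (gl A a) = a := by
  change ((Scheme.ΓSpecIso (CommRingCat.of A)).inv ≫ (Scheme.ΓSpecIso (CommRingCat.of A)).hom) a = a
  rw [Iso.inv_hom_id]
  rfl

theorem coef_id {A : Type} [CommRing A] (a : A) : coef (𝟙 (Sp A)) ⊤ a = gl A a := by
  rw [coef_eq]
  change ((Scheme.ΓSpecIso (CommRingCat.of A)).inv ≫ (𝟙 (Sp A) : Sp A ⟶ Sp A).appLE ⊤ ⊤ _) a =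
    (Scheme.ΓSpecIso (CommRingCat.of A)).inv a
  have : (𝟙 (Sp A) : Sp A ⟶ Sp A).appLE ⊤ ⊤ le_top = 𝟙 _ := Scheme.Hom.appLE_eq_app _
  rw [this, Category.comp_id]

theorem Thk.ev_coef (i : Fin n) {U : x.X.Opens} (h : ⊤ ≤ x.σ i ⁻¹ᵁ U) (z : E) :
    t.ev i h (coef t.y.π (t.op U) z) = z := by
  change (Scheme.ΓSpecIso (CommRingCat.of E)).hom.hom
    (((t.y.σ i).appLE (t.op U) ⊤ (t.sec_le i h)).hom (coef t.y.π (t.op U) z)) = z
  rw [coef_comp, t.y.sec, coef_id, gl_inv]

theorem gs_spMap {A A' : Type} [CommRing A] [CommRing A'] (φ : A →+* A') (v : Γ(Sp A, ⊤)) :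
    (Scheme.ΓSpecIso (CommRingCat.of A')).hom.hom ((spMap φ).appTop.hom v) =
      φ ((Scheme.ΓSpecIso (CommRingCat.of A)).hom.hom v) :=
  ConcreteCategory.congr_hom (Scheme.ΓSpecIso_naturality (CommRingCat.ofHom φ)) v

theorem Thk.p_ev (i : Fin n) {U : x.X.Opens} (h : ⊤ ≤ x.σ i ⁻¹ᵁ U) (v : Γ(t.y.X, t.op U)) :
    S.p (t.ev i h v) = ev0 i h (t.q U v) := by
  have h1 := Scheme.Hom.appLE_comp_appLE (x.σ i) t.r.f (t.op U) U ⊤ (t.pre U).ge h
  have h2 := Scheme.Hom.appLE_comp_appLE (spMap S.p) (t.y.σ i) (t.op U) ⊤ ⊤ (t.sec_le i h) le_top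
  have h3 : t.r.f.appLE (t.op U) U (t.pre U).ge ≫ (x.σ i).appLE U ⊤ h =
      (t.y.σ i).appLE (t.op U) ⊤ (t.sec_le i h) ≫ (spMap S.p).appLE ⊤ ⊤ le_top := by
    rw [h1, h2]
    simp only [t.r.sec i]
  have h4 := ConcreteCategory.congr_hom h3 v
  change S.p ((Scheme.ΓSpecIso (CommRingCat.of E)).hom.hom
    (((t.y.σ i).appLE (t.op U) ⊤ (t.sec_le i h)).hom v)) = _
  rw [← gs_spMap]
  change _ = (Scheme.ΓSpecIso (CommRingCat.of B)).hom.hom
    ((t.r.f.appLE (t.op U) U (t.pre U).ge ≫ (x.σ i).appLE U ⊤ h) v)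
  rw [h4]
  change _ = (Scheme.ΓSpecIso (CommRingCat.of B)).hom.hom ((spMap S.p).appLE ⊤ ⊤ le_top
    ((t.y.σ i).appLE (t.op U) ⊤ (t.sec_le i h) v))
  congr 2

theorem ev0_coef (i : Fin n) {U : x.X.Opens} (h : ⊤ ≤ x.σ i ⁻¹ᵁ U) (b : B) :
    ev0 i h (coef x.π U b) = b := by
  change (Scheme.ΓSpecIso (CommRingCat.of B)).hom.hom
    (((x.σ i).appLE U ⊤ h).hom (coef x.π U b)) = _
  rw [coef_comp, x.sec, coef_id, gl_inv]

/-- The sections of the ring data, first chart. -/
noncomputable def rsec1 (i : Fin n) (φ : T.R1 →ₐ[k] B) (hs : ct.Is1 (x.σ i) φ) :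
    (rd ct t H).Sec1 φ where
  g := t.ev i hs.1
  ga z := t.ev_coef i hs.1 z
  gq v := by
    refine (t.p_ev i hs.1 v).trans ?_
    have hv : t.q ct.U1 v = ct.t1 ((rd ct t H).q1 v) :=
      (ct.eq1.apply_symm_apply (t.q ct.U1 v)).symm
    rw [hv]
    refine tensor_ind (f := (ev0 i hs.1).comp ct.t1) (g := (extA φ).toRingHom) ?_ ?_ _
    · intro b
      change ev0 i hs.1 (ct.t1 (b ⊗ₜ 1)) = extA φ (b ⊗ₜ 1)
      rw [ct.c1, ev0_coef]
      simp [extA]
    · intro a
      change (Scheme.ΓSpecIso (CommRingCat.of B)).hom.hom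
        (((x.σ i).appLE ct.U1 ⊤ hs.1).hom (ct.t1 (1 ⊗ₜ a))) = extA φ (1 ⊗ₜ a)
      rw [hs.2, gl_inv]
      simp [extA]

/-- The sections of the ring data, second chart. -/
noncomputable def rsec2 (i : Fin n) (ψ : T.R2 →ₐ[k] B) (hs : ct.Is2 (x.σ i) ψ) :
    (rd ct t H).Sec2 ψ where
  g := t.ev i hs.1
  ga z := t.ev_coef i hs.1 z
  gq v := by
    refine (t.p_ev i hs.1 v).trans ?_
    have hv : t.q ct.U2 v = ct.t2 ((rd ct t H).q2 v) :=
      (ct.eq2.apply_symm_apply (t.q ct.U2 v)).symm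
    rw [hv]
    refine tensor_ind (f := (ev0 i hs.1).comp ct.t2) (g := (extA ψ).toRingHom) ?_ ?_ _
    · intro b
      change ev0 i hs.1 (ct.t2 (b ⊗ₜ 1)) = extA ψ (b ⊗ₜ 1)
      rw [ct.c2, ev0_coef]
      simp [extA]
    · intro a
      change (Scheme.ΓSpecIso (CommRingCat.of B)).hom.hom
        (((x.σ i).appLE ct.U2 ⊤ hs.1).hom (ct.t2 (1 ⊗ₜ a))) = extA ψ (1 ⊗ₜ a)
      rw [hs.2, gl_inv]
      simp [extA]

/-- The sections of the ring data. -/
noncomputable def rsec (i : Fin n) : (s : Pt T B) → ct.Is (x.σ i) s → (rd ct t H).Sec s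
  | .one φ, hs => rsec1 ct t H i φ hs
  | .two ψ, hs => rsec2 ct t H i ψ hs

/-- `(h, δ)` is a Kodaira–Spencer class of the thickening `t`. -/
def KS (s : Fin n → Pt T B) (hs : ∀ i, ct.Is (x.σ i) (s i)) (h : J → B ⊗[k] T.R12)
    (δ : J → Fin n → B) : Prop :=
  ∃ H : Good3 ct t, Nonempty (RKS (rd ct t H) s (fun i => rsec ct t H i (s i) (hs i)) h δ)

/-- `l` is the covector `h, δ ↦ μ(h) + ∑ νᵢ δᵢ`. -/
def IsCov (s : Fin n → Pt T B) (hs : ∀ i, ct.Is (x.σ i) (s i)) (D : CovData s) {g : ℕ}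
    (l : Cov g x) : Prop :=
  ∀ (d : Defo g x) (h : B ⊗[k] T.R12) (δ : Fin n → B),
    KS ct d.thk s hs (fun _ => h) (fun _ => δ) → l.l d = ext D.μ h + ∑ i, D.ν i * δ i

/-- An arrow which respects the charts. -/
structure ChArrow {B' : Type} [CommRing B'] [Algebra k B'] {φ : B →ₐ[k] B'} {y : Fam n B'}
    (a : Arrow (φ : B →+* B') y x) (ct' : Charted T y) (ct : Charted T x) : Prop where
  h1 : a.f ⁻¹ᵁ ct.U1 = ct'.U1
  h2 : a.f ⁻¹ᵁ ct.U2 = ct'.U2
  f1 : ∀ r : T.R1, (a.f.appLE ct.U1 ct'.U1 h1.ge).hom (ct.t1 (1 ⊗ₜ r)) = ct'.t1 (1 ⊗ₜ r)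
  f2 : ∀ r : T.R2, (a.f.appLE ct.U2 ct'.U2 h2.ge).hom (ct.t2 (1 ⊗ₜ r)) = ct'.t2 (1 ⊗ₜ r)
  f12 : ∀ (h : ct'.U1 ⊓ ct'.U2 ≤ a.f ⁻¹ᵁ (ct.U1 ⊓ ct.U2)) (r : T.R12),
    (a.f.appLE (ct.U1 ⊓ ct.U2) (ct'.U1 ⊓ ct'.U2) h).hom (ct.t12 (1 ⊗ₜ r)) = ct'.t12 (1 ⊗ₜ r)

end

end Pool.Agent.MG


end

section

/-!
# The market: statements of the blocks of the proof for pointed curves
-/

open CategoryTheory CategoryTheory.Limits AlgebraicGeometry TensorProduct

namespace Pool.Agent.MG

/-! ## Block KS: Kodaira–Spencer classes -/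

/-- AFF: flat thickenings of affine opens are affine. -/
def Stmt_AFF : Prop :=
  ∀ {n : ℕ} {B E J : Type} [CommRing B] [CommRing E] [Fintype J] {S : SqE B E J} {x : Fam n B}
    (t : Thk S x) (U : x.X.Opens), IsAffineOpen U → IsAffineOpen (t.op U)

/-- SQZ: flat thickenings of acyclic opens. -/
def Stmt_SQZ : Prop :=
  ∀ {n : ℕ} {B E J : Type} [CommRing B] [CommRing E] [Fintype J] {S : SqE B E J} {x : Fam n B}
    (t : Thk S x) (U : x.X.Opens), Acyc U → Good t U

/-- AX: every ring datum has a Kodaira–Spencer class. -/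
def Stmt_AX : Prop :=
  ∀ {n : ℕ} {k : Type} [Field k] {T : TC k} {B : Type} [CommRing B] [Algebra k B] {E J : Type}
    [CommRing E] [Fintype J] {S : SqE B E J} (D : RData T S) (s : Fin n → Pt T B)
    (γ : ∀ i, D.Sec (s i)), ∃ h δ, Nonempty (RKS D s γ h δ)

/-- AI: the value of a covector does not depend on the choices. -/
def Stmt_AI : Prop :=
  ∀ {n : ℕ} {k : Type} [Field k] {T : TC k} {B : Type} [CommRing B] [Algebra k B] {E J : Type}
    [CommRing E] [Fintype J] {S : SqE B E J} (D : RData T S) (s : Fin n → Pt T B)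
    (γ : ∀ i, D.Sec (s i)) (C : CovData s) (h h' : J → B ⊗[k] T.R12) (δ δ' : J → Fin n → B),
    Nonempty (RKS D s γ h δ) → Nonempty (RKS D s γ h' δ') →
    ∀ j, ext C.μ (h j) + ∑ i, C.ν i * δ j i = ext C.μ (h' j) + ∑ i, C.ν i * δ' j i

section

variable {n : ℕ} {k : Type} [Field k] {T : TC k} {B : Type} [CommRing B] [Algebra k B]
  {E J : Type} [CommRing E] [Fintype J] {S : SqE B E J}
  {B' : Type} [CommRing B'] [Algebra k B'] {E' J' : Type} [CommRing E'] [Fintype J']
  {S' : SqE B' E' J'} {φ : B →ₐ[k] B'} {m : J → J' → B'}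

/-- A morphism of ring data. -/
structure RHom (Φ : SqHom S S' (φ : B →+* B') m) (D : RData T S) (D' : RData T S') where
  /-- first chart -/
  u1 : D.G1 →+* D'.G1
  /-- second chart -/
  u2 : D.G2 →+* D'.G2
  /-- intersection -/
  u12 : D.G12 →+* D'.G12
  ua1 : ∀ z, u1 (D.a1 z) = D'.a1 (Φ.Φ z)
  ua2 : ∀ z, u2 (D.a2 z) = D'.a2 (Φ.Φ z)
  ua12 : ∀ z, u12 (D.a12 z) = D'.a12 (Φ.Φ z)
  uf1 : ∀ v, u12 (D.f1 v) = D'.f1 (u1 v)
  uf2 : ∀ v, u12 (D.f2 v) = D'.f2 (u2 v)
  uq1 : ∀ v, D'.q1 (u1 v) = Algebra.TensorProduct.map φ (AlgHom.id k T.R1) (D.q1 v)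
  uq2 : ∀ v, D'.q2 (u2 v) = Algebra.TensorProduct.map φ (AlgHom.id k T.R2) (D.q2 v)
  uq12 : ∀ v, D'.q12 (u12 v) = Algebra.TensorProduct.map φ (AlgHom.id k T.R12) (D.q12 v)

/-- A morphism of ring data respects sections. -/
def RHom.Sec {Φ : SqHom S S' (φ : B →+* B') m} {D : RData T S} {D' : RData T S'}
    (u : RHom Φ D D') : (s : Pt T B) → D.Sec s → D'.Sec (s.map φ) → Prop
  | .one _, γ, γ' => ∀ v, RData.Sec1.g γ' (u.u1 v) = Φ.Φ (RData.Sec1.g γ v)
  | .two _, γ, γ' => ∀ v, RData.Sec2.g γ' (u.u2 v) = Φ.Φ (RData.Sec2.g γ v)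

/-- Push forward of classes. -/
noncomputable def pushh (φ : B →ₐ[k] B') (m : J → J' → B') (h : J → B ⊗[k] T.R12) :
    J' → B' ⊗[k] T.R12 :=
  fun l => ∑ j, (m j l) • Algebra.TensorProduct.map φ (AlgHom.id k T.R12) (h j)

/-- Push forward of classes. -/
def pushd (φ : B →ₐ[k] B') (m : J → J' → B') (δ : J → Fin n → B) : J' → Fin n → B' :=
  fun l i => ∑ j, m j l * φ (δ j i)

/-- Base change of covector data. -/
structure CovData.Map (φ : B →ₐ[k] B') {s : Fin n → Pt T B} (C : CovData s)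
    {s' : Fin n → Pt T B'} (C' : CovData s') : Prop where
  hs : ∀ i, s' i = (s i).map φ
  hμ : ∀ r, C'.μ r = φ (C.μ r)
  hν : ∀ i, C'.ν i = φ (C.ν i)

end

/-- AN: classes and morphisms of ring data. -/
def Stmt_AN : Prop :=
  ∀ {n : ℕ} {k : Type} [Field k] {T : TC k} {B : Type} [CommRing B] [Algebra k B]
    {E J : Type} [CommRing E] [Fintype J] {S : SqE B E J}
    {B' : Type} [CommRing B'] [Algebra k B'] {E' J' : Type} [CommRing E'] [Fintype J']
    {S' : SqE B' E' J'} {φ : B →ₐ[k] B'} {m : J → J' → B'} {Φ : SqHom S S' (φ : B →+* B') m}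
    {D : RData T S} {D' : RData T S'} (u : RHom Φ D D') (s : Fin n → Pt T B)
    (γ : ∀ i, D.Sec (s i)) (γ' : ∀ i, D'.Sec ((s i).map φ))
    (_ : ∀ i, u.Sec (s i) (γ i) (γ' i)) (h : J → B ⊗[k] T.R12) (δ : J → Fin n → B),
    Nonempty (RKS D s γ h δ) → Nonempty (RKS D' (fun i => (s i).map φ) γ' (pushh φ m h)
      (pushd φ m δ))

/-- AC: change of the chart of the section `i₀`, given on the intersection by `χ`. -/
def Stmt_AC : Prop :=
  ∀ {n : ℕ} {k : Type} [Field k] {T : TC k} {B : Type} [CommRing B] [Algebra k B] {E J : Type}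
    [CommRing E] [Fintype J] {S : SqE B E J} (D : RData T S) (s s' : Fin n → Pt T B)
    (γ : ∀ i, D.Sec (s i)) (γ' : ∀ i, D.Sec (s' i)) (i₀ : Fin n) (χ : T.R12 →ₐ[k] B)
    (g12 : D.G12 →+* E) (_ : ∀ v, S.p (g12 v) = extA χ (D.q12 v))
    (hs : s i₀ = .one (χ.comp T.j1)) (hs' : s' i₀ = .two (χ.comp T.j2))
    (_ : ∀ v, RData.Sec1.g (hs ▸ γ i₀ : D.Sec (.one (χ.comp T.j1))) v = g12 (D.f1 v))
    (_ : ∀ v, RData.Sec2.g (hs' ▸ γ' i₀ : D.Sec (.two (χ.comp T.j2))) v = g12 (D.f2 v))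
    (_ : ∀ i, i ≠ i₀ → s i = s' i) (_ : ∀ i, i ≠ i₀ → HEq (γ i) (γ' i))
    (C : CovData s) (C' : CovData s')
    (_ : ∀ r, C'.μ r = C.μ r + C.ν i₀ * χ r) (_ : C'.ν i₀ = χ T.e * C.ν i₀)
    (_ : ∀ i, i ≠ i₀ → C'.ν i = C.ν i)
    (h : J → B ⊗[k] T.R12) (δ : J → Fin n → B), Nonempty (RKS D s γ h δ) →
    ∃ δ' : J → Fin n → B, Nonempty (RKS D s' γ' h δ') ∧
      ∀ j, ext C.μ (h j) + ∑ i, C.ν i * δ j i = ext C'.μ (h j) + ∑ i, C'.ν i * δ' j i

/-- KSN: Kodaira–Spencer classes and arrows. -/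
def Stmt_KSN : Prop :=
  ∀ {n : ℕ} {k : Type} [Field k] {T : TC k} {B : Type} [CommRing B] [Algebra k B]
    {E J : Type} [CommRing E] [Fintype J] {S : SqE B E J}
    {B' : Type} [CommRing B'] [Algebra k B'] {E' J' : Type} [CommRing E'] [Fintype J']
    {S' : SqE B' E' J'} {φ : B →ₐ[k] B'} {m : J → J' → B'} (Φ : SqHom S S' (φ : B →+* B') m)
    {x : Fam n B} {x' : Fam n B'} {ct : Charted T x} {ct' : Charted T x'}
    (a : Arrow (φ : B →+* B') x' x) (_ : ChArrow a ct' ct) (t : Thk S x) (t' : Thk S' x')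
    (f : Arrow Φ.Φ t'.y t.y) (_ : t'.r.f ≫ f.f = a.f ≫ t.r.f)
    (s : Fin n → Pt T B) (hs : ∀ i, ct.Is (x.σ i) (s i))
    (hs' : ∀ i, ct'.Is (x'.σ i) ((s i).map φ)) (h : J → B ⊗[k] T.R12) (δ : J → Fin n → B),
    KS ct t s hs h δ → KS ct' t' (fun i => (s i).map φ) hs' (pushh φ m h) (pushd φ m δ)

/-- COV: covector data give a covector. -/
def Stmt_COV : Prop :=
  ∀ {n : ℕ} {k : Type} [Field k] {T : TC k} {B : Type} [CommRing B] [Algebra k B]
    {x : Fam n B} (ct : Charted T x) (s : Fin n → Pt T B) (hs : ∀ i, ct.Is (x.σ i) (s i))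
    (C : CovData s) (g : ℕ), ∃ l : Cov g x, IsCov ct s hs C l

/-- COU: the covector is determined by the data (every deformation has a class). -/
def Stmt_COU : Prop :=
  ∀ {n : ℕ} {k : Type} [Field k] {T : TC k} {B : Type} [CommRing B] [Algebra k B]
    {x : Fam n B} (ct : Charted T x) (s : Fin n → Pt T B) (hs : ∀ i, ct.Is (x.σ i) (s i))
    (C : CovData s) (g : ℕ) (l l' : Cov g x), IsCov ct s hs C l → IsCov ct s hs C l' → l = l'

/-- NAT: base change of covectors. -/
def Stmt_NAT : Prop :=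
  ∀ {n : ℕ} {k : Type} [Field k] {T : TC k} {B : Type} [CommRing B] [Algebra k B]
    {B' : Type} [CommRing B'] [Algebra k B'] {φ : B →ₐ[k] B'}
    {x : Fam n B} {x' : Fam n B'} {ct : Charted T x} {ct' : Charted T x'}
    (a : Arrow (φ : B →+* B') x' x) (_ : ChArrow a ct' ct)
    (s : Fin n → Pt T B) (hs : ∀ i, ct.Is (x.σ i) (s i))
    (s' : Fin n → Pt T B') (hs' : ∀ i, ct'.Is (x'.σ i) (s' i))
    (C : CovData s) (C' : CovData s') (_ : C.Map φ C') (g : ℕ) (l : Cov g x) (l' : Cov g x'),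
    IsCov ct s hs C l → IsCov ct' s' hs' C' l' → Compat a l' l

/-- CHG: change of the chart of the section `i₀`. -/
def Stmt_CHG : Prop :=
  ∀ {n : ℕ} {k : Type} [Field k] {T : TC k} {B : Type} [CommRing B] [Algebra k B]
    {x : Fam n B} (ct : Charted T x) (s s' : Fin n → Pt T B)
    (hs : ∀ i, ct.Is (x.σ i) (s i)) (hs' : ∀ i, ct.Is (x.σ i) (s' i))
    (i₀ : Fin n) (χ : T.R12 →ₐ[k] B)
    (_ : s i₀ = .one (χ.comp T.j1)) (_ : s' i₀ = .two (χ.comp T.j2))
    (_ : ∃ h : ⊤ ≤ x.σ i₀ ⁻¹ᵁ (ct.U1 ⊓ ct.U2), ∀ a : T.R12,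
      ((x.σ i₀).appLE (ct.U1 ⊓ ct.U2) ⊤ h).hom (ct.t12 (1 ⊗ₜ a)) = gl B (χ a))
    (_ : ∀ i, i ≠ i₀ → s i = s' i) (C : CovData s) (C' : CovData s')
    (_ : ∀ r, C'.μ r = C.μ r + C.ν i₀ * χ r) (_ : C'.ν i₀ = χ T.e * C.ν i₀)
    (_ : ∀ i, i ≠ i₀ → C'.ν i = C.ν i) (g : ℕ) (l l' : Cov g x),
    IsCov ct s hs C l → IsCov ct s' hs' C' l' → l = l'

/-! ## Block CLS: all covectors over the field `k` -/

section

variable {n : ℕ} {k : Type} [Field k] {T : TC k} {C : Fam n k}

/-- The charts are affine. -/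
structure Charted.Aff (ct : Charted T C) : Prop where
  aff1 : IsAffineOpen ct.U1
  aff2 : IsAffineOpen ct.U2
  aff12 : IsAffineOpen (ct.U1 ⊓ ct.U2)

end

/-- GLU: over a field, every class is the class of a stable thickening. -/
def Stmt_GLU : Prop :=
  ∀ {n : ℕ} {k : Type} [Field k] {T : TC k} {C : Fam n k} (g : ℕ) (_ : IsStable g C)
    (ct : Charted T C) (_ : ct.Aff) (s : Fin n → Pt T k) (hs : ∀ i, ct.Is (C.σ i) (s i))
    {E J : Type} [CommRing E] [Fintype J] (S : SqE k E J) (h : J → k ⊗[k] T.R12)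
    (δ : J → Fin n → k), ∃ t : Thk S C, IsStable g t.y ∧ KS ct t s hs h δ

/-- KSU: over a field, thickenings with the same class are isomorphic. -/
def Stmt_KSU : Prop :=
  ∀ {n : ℕ} {k : Type} [Field k] {T : TC k} {C : Fam n k}
    (ct : Charted T C) (_ : ct.Aff) (s : Fin n → Pt T k) (hs : ∀ i, ct.Is (C.σ i) (s i))
    {E J : Type} [CommRing E] [Fintype J] (S : SqE k E J) (h : J → k ⊗[k] T.R12)
    (δ : J → Fin n → k) (t t' : Thk S C), KS ct t s hs h δ → KS ct t' s hs h δ →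
    ∃ f : Arrow (RingHom.id E) t.y t'.y, t.r.f ≫ f.f = t'.r.f

/-- PBS: stable families and their thickenings can be pulled back. -/
def Stmt_PBS : Prop :=
  ∀ {n : ℕ} {B E J E' J' : Type} [CommRing B] [CommRing E] [Fintype J] [CommRing E']
    [Fintype J'] {S : SqE B E J} {S' : SqE B E' J'} {m : J → J' → B}
    (Φ : SqHom S S' (RingHom.id B) m) {x : Fam n B} (t : Thk S x) (g : ℕ) (_ : IsStable g t.y),
    ∃ (t' : Thk S' x) (f : Arrow Φ.Φ t'.y t.y), IsStable g t'.y ∧ t'.r.f ≫ f.f = t.r.f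

/-- CLS: over a field, every covector is given by covector data. -/
def Stmt_CLS : Prop :=
  ∀ {n : ℕ} {k : Type} [Field k] {T : TC k} {C : Fam n k} (g : ℕ) (_ : IsStable g C)
    (ct : Charted T C) (_ : ct.Aff) (s : Fin n → Pt T k) (hs : ∀ i, ct.Is (C.σ i) (s i))
    (l : Cov g C), ∃ D : CovData s, IsCov ct s hs D l

/-! ## Block OBJ: constant families -/

section

variable {n : ℕ} {k : Type} [Field k] (C : Fam n k)

/-- The constant family with fibre `C` and arbitrary sections. -/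
noncomputable def constFam (B : Type) [CommRing B] [Algebra k B] (τ : Fin n → (Sp B ⟶ C.X))
    (hτ : ∀ i, τ i ≫ C.π = spMap (algebraMap k B)) : Fam n B where
  X := pullback C.π (spMap (algebraMap k B))
  π := pullback.snd _ _
  σ i := pullback.lift (τ i) (𝟙 _) (by rw [hτ, Category.id_comp])
  sec i := pullback.lift_snd _ _ _

/-- The `B`-valued point of `C` given by a point of one of the (affine) charts. -/
noncomputable def tau {C : Fam n k} {T : TC k} {ct : Charted T C} (ha : ct.Aff) {B : Type}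
    [CommRing B] [Algebra k B] : Pt T B → (Sp B ⟶ C.X)
  | .one φ => spMap ((φ : T.R1 →+* B).comp ((Algebra.TensorProduct.lid k T.R1 :
      k ⊗[k] T.R1 →+* T.R1).comp (ct.eq1.symm : Γ(C.X, ct.U1) →+* k ⊗[k] T.R1))) ≫ ha.aff1.fromSpec
  | .two ψ => spMap ((ψ : T.R2 →+* B).comp ((Algebra.TensorProduct.lid k T.R2 :
      k ⊗[k] T.R2 →+* T.R2).comp (ct.eq2.symm : Γ(C.X, ct.U2) →+* k ⊗[k] T.R2))) ≫ ha.aff2.fromSpec

end

section

variable {n : ℕ} {k : Type} [Field k] {T : TC k} {C : Fam n k}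

/-- The charts `c` of the constant family are the pull backs of the charts `ct` of `C`. -/
structure IsBC (ct : Charted T C) {B : Type} [CommRing B] [Algebra k B]
    {τ : Fin n → (Sp B ⟶ C.X)} {hτ : ∀ i, τ i ≫ C.π = spMap (algebraMap k B)}
    (c : Charted T (constFam C B τ hτ)) : Prop where
  h1 : (pullback.fst C.π (spMap (algebraMap k B))) ⁻¹ᵁ ct.U1 = c.U1
  h2 : (pullback.fst C.π (spMap (algebraMap k B))) ⁻¹ᵁ ct.U2 = c.U2
  f1 : ∀ r : T.R1, ((pullback.fst C.π (spMap (algebraMap k B))).appLE ct.U1 c.U1 h1.ge).hom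
    (ct.t1 (1 ⊗ₜ r)) = c.t1 (1 ⊗ₜ r)
  f2 : ∀ r : T.R2, ((pullback.fst C.π (spMap (algebraMap k B))).appLE ct.U2 c.U2 h2.ge).hom
    (ct.t2 (1 ⊗ₜ r)) = c.t2 (1 ⊗ₜ r)
  f12 : ∀ (h : c.U1 ⊓ c.U2 ≤ (pullback.fst C.π (spMap (algebraMap k B))) ⁻¹ᵁ (ct.U1 ⊓ ct.U2))
    (r : T.R12), ((pullback.fst C.π (spMap (algebraMap k B))).appLE (ct.U1 ⊓ ct.U2)
      (c.U1 ⊓ c.U2) h).hom (ct.t12 (1 ⊗ₜ r)) = c.t12 (1 ⊗ₜ r)

end

/-- CHB: the charts of a constant family. -/
def Stmt_CHB : Prop :=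
  ∀ {n : ℕ} {k : Type} [Field k] {T : TC k} {C : Fam n k} (ct : Charted T C) (_ : ct.Aff)
    (B : Type) [CommRing B] [Algebra k B] (τ : Fin n → (Sp B ⟶ C.X))
    (hτ : ∀ i, τ i ≫ C.π = spMap (algebraMap k B)),
    ∃ c : Charted T (constFam C B τ hτ), IsBC ct c

/-- CHA: arrows between constant families. -/
def Stmt_CHA : Prop :=
  ∀ {n : ℕ} {k : Type} [Field k] {T : TC k} {C : Fam n k} (ct : Charted T C) (_ : ct.Aff)
    (B : Type) [CommRing B] [Algebra k B] (B' : Type) [CommRing B'] [Algebra k B']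
    (ψ : B →ₐ[k] B') (τ : Fin n → (Sp B ⟶ C.X))
    (hτ : ∀ i, τ i ≫ C.π = spMap (algebraMap k B)) (τ' : Fin n → (Sp B' ⟶ C.X))
    (hτ' : ∀ i, τ' i ≫ C.π = spMap (algebraMap k B'))
    (c : Charted T (constFam C B τ hτ)) (c' : Charted T (constFam C B' τ' hτ')),
    IsBC ct c → IsBC ct c' → (∀ i, τ' i = spMap (ψ : B →+* B') ≫ τ i) →
    ∃ a : Arrow (ψ : B →+* B') (constFam C B' τ' hτ') (constFam C B τ hτ), ChArrow a c' c

/-- CHK: the curve itself as a member of a constant family. -/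
def Stmt_CHK : Prop :=
  ∀ {n : ℕ} {k : Type} [Field k] {T : TC k} {C : Fam n k} (ct : Charted T C) (_ : ct.Aff)
    (B : Type) [CommRing B] [Algebra k B] (ψ : B →ₐ[k] k) (τ : Fin n → (Sp B ⟶ C.X))
    (hτ : ∀ i, τ i ≫ C.π = spMap (algebraMap k B))
    (c : Charted T (constFam C B τ hτ)), IsBC ct c →
    (∀ i, C.σ i = spMap (ψ : B →+* k) ≫ τ i) →
    ∃ a : Arrow (ψ : B →+* k) C (constFam C B τ hτ), ChArrow a ct c

/-- CHI: the sections of a constant family. -/
def Stmt_CHI : Prop :=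
  ∀ {n : ℕ} {k : Type} [Field k] {T : TC k} {C : Fam n k} (ct : Charted T C) (ha : ct.Aff)
    (B : Type) [CommRing B] [Algebra k B] (τ : Fin n → (Sp B ⟶ C.X))
    (hτ : ∀ i, τ i ≫ C.π = spMap (algebraMap k B))
    (c : Charted T (constFam C B τ hτ)), IsBC ct c → ∀ (i : Fin n),
    (∀ s : Pt T B, τ i = tau ha s → c.Is ((constFam C B τ hτ).σ i) s) ∧
    (∀ χ : T.R12 →ₐ[k] B, τ i = tau ha (.one (χ.comp T.j1)) →
      ∃ h : ⊤ ≤ (constFam C B τ hτ).σ i ⁻¹ᵁ (c.U1 ⊓ c.U2), ∀ a : T.R12,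
        (((constFam C B τ hτ).σ i).appLE _ ⊤ h).hom (c.t12 (1 ⊗ₜ a)) = gl B (χ a))

/-- TAU: properties of `tau`. -/
def Stmt_TAU : Prop :=
  ∀ {n : ℕ} {k : Type} [Field k] {T : TC k} {C : Fam n k} (ct : Charted T C) (ha : ct.Aff),
    (∀ (B : Type) [CommRing B] [Algebra k B] (s : Pt T B),
      tau ha s ≫ C.π = spMap (algebraMap k B)) ∧
    (∀ (B : Type) [CommRing B] [Algebra k B] (B' : Type) [CommRing B'] [Algebra k B']
      (ψ : B →ₐ[k] B') (s : Pt T B), tau ha (s.map ψ) = spMap (ψ : B →+* B') ≫ tau ha s) ∧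
    (∀ (B : Type) [CommRing B] [Algebra k B] (χ : T.R12 →ₐ[k] B),
      tau ha (.one (χ.comp T.j1)) = tau ha (.two (χ.comp T.j2))) ∧
    (∀ (σ : Sp k ⟶ C.X) (s : Pt T k), σ ≫ C.π = 𝟙 _ → ct.Is σ s → σ = tau ha s)

/-! ## The two-chart structure of a smooth pointed curve -/

/-- The two-chart structure of a smooth pointed curve `C` over `k`: the marked points lie in `V₁`
and not in `V₂`, and `x - x(pᵢ)` generates the ideal of `pᵢ` in `R₁`. -/
structure Cht {n : ℕ} {k : Type} [Field k] (C : Fam n k) (T : TC k) where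
  /-- the charts -/
  ct : Charted T C
  aff : ct.Aff
  /-- the marked points -/
  pt : Fin n → (T.R1 →ₐ[k] k)
  is : ∀ i, ct.Is1 (C.σ i) (pt i)
  off : ∀ i (p : Sp k), C.σ i p ∉ ct.U2
  gen : ∀ i (a : T.R1), pt i a = 0 → ∃ b, a = (T.x - algebraMap k T.R1 (pt i T.x)) * b
  ne : ∀ i j, i ≠ j → pt i T.x ≠ pt j T.x
  dom : IsDomain T.R12
  inj1 : Function.Injective T.j1
  inj2 : Function.Injective T.j2
  h0 : ∀ a b, T.j1 a = T.j2 b → ∃ c : k, a = algebraMap k T.R1 c
  unit : ∀ i, IsUnit (T.j1 (T.x - algebraMap k T.R1 (pt i T.x)))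

/-- TWO: existence of the two-chart structure. -/
def Stmt_TWO : Prop :=
  ∀ {n : ℕ} {k : Type} [Field k] [IsAlgClosed k] (g : ℕ) (C : Fam n k), IsStable g C →
    SmoothOfRelativeDimension 1 C.π → 1 ≤ n → ∃ T : TC k, Nonempty (Cht C T)

/-- NOT: no vector fields and no symmetric tensors in genus at least two. -/
def Stmt_NOT : Prop :=
  ∀ {n : ℕ} {k : Type} [Field k] [IsAlgClosed k] [CharZero k] (g : ℕ) (C : Fam n k),
    IsStable g C → SmoothOfRelativeDimension 1 C.π → 2 ≤ g → ∀ (T : TC k) (_ : Cht C T) (j : ℕ), 1 ≤ j →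
    ∀ (a : T.R1) (b : T.R2), T.j1 a = T.e ^ j * T.j2 b → a = 0

/-- FIS: the fibres of a constant family; stability is invariant under isomorphism. -/
def Stmt_FIS : Prop :=
  (∀ {n : ℕ} {k : Type} [Field k] (C : Fam n k) (B : Type) [CommRing B] [Algebra k B]
    (K : Type) [Field K] [Algebra k K] (ψ : B →ₐ[k] K) (τ : Fin n → (Sp B ⟶ C.X))
    (hτ : ∀ i, τ i ≫ C.π = spMap (algebraMap k B)) (τ' : Fin n → (Sp K ⟶ C.X))
    (hτ' : ∀ i, τ' i ≫ C.π = spMap (algebraMap k K)) (_ : ∀ i, τ' i = spMap (ψ : B →+* K) ≫ τ i)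
    (z : Fam n K), Nonempty (Arrow (ψ : B →+* K) z (constFam C B τ hτ)) →
      ∃ (f : Arrow (RingHom.id K) z (constFam C K τ' hτ')), IsIso f.f) ∧
  (∀ {n : ℕ} {K : Type} [Field K] (g : ℕ) (z z' : Fam n K) (f : Arrow (RingHom.id K) z z'),
    IsIso f.f → StableCurve g z' → StableCurve g z)

/-- CON: constant families over fields are connected. -/
def Stmt_CON : Prop :=
  ∀ {n : ℕ} {k : Type} [Field k] (C : Fam n k) (T : TC k) (_ : Cht C T) (_ : Nonempty C.X)
    (K : Type) [Field K] [Algebra k K] (τ : Fin n → (Sp K ⟶ C.X))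
    (hτ : ∀ i, τ i ≫ C.π = spMap (algebraMap k K)), ConnectedSpace (constFam C K τ hτ).X

/-- NOD: constant families over algebraically closed fields are nodal. -/
def Stmt_NOD : Prop :=
  ∀ {n : ℕ} {k : Type} [Field k] (C : Fam n k) (T : TC k) (_ : Cht C T)
    (K : Type) [Field K] [IsAlgClosed K] [Algebra k K] (τ : Fin n → (Sp K ⟶ C.X))
    (hτ : ∀ i, τ i ≫ C.π = spMap (algebraMap k K)), Nodal (constFam C K τ hτ).π

/-- GEN: the genus does not change under extension of the field. -/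
def Stmt_GEN : Prop :=
  ∀ {n : ℕ} {k : Type} [Field k] (C : Fam n k) (g : ℕ) (_ : IsProper C.π) (_ : HasGenus C.π g)
    (K : Type) [Field K] [Algebra k K] (τ : Fin n → (Sp K ⟶ C.X))
    (hτ : ∀ i, τ i ≫ C.π = spMap (algebraMap k K)), HasGenus (constFam C K τ hτ).π g

/-- RIG: no vector fields. -/
def Stmt_RIG : Prop :=
  ∀ {n : ℕ} {k : Type} [Field k] (C : Fam n k) (T : TC k) (_ : Cht C T),
    (∀ (a : T.R1) (b : T.R2), T.j1 a = T.e * T.j2 b → a = 0) →
    ∀ (K : Type) [Field K] [Algebra k K] (τ : Fin n → (Sp K ⟶ C.X))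
      (hτ : ∀ i, τ i ≫ C.π = spMap (algebraMap k K)) (v : VField (constFam C K τ hτ)) (U),
      v.D U = 0

/-- CST: constant families with disjoint sections are stable. -/
def Stmt_CST : Prop :=
  ∀ {n : ℕ} {k : Type} [Field k] [IsAlgClosed k] (g : ℕ) (C : Fam n k), IsStable g C →
    SmoothOfRelativeDimension 1 C.π → ∀ (T : TC k) (_ : Cht C T),
    (∀ (a : T.R1) (b : T.R2), T.j1 a = T.e * T.j2 b → a = 0) →
    ∀ (B : Type) [CommRing B] [Algebra k B] (τ : Fin n → (Sp B ⟶ C.X))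
      (hτ : ∀ i, τ i ≫ C.π = spMap (algebraMap k B)),
      (∀ (K : Type) [Field K] [IsAlgClosed K] (s : B →+* K) (i j : Fin n), i ≠ j →
        spMap s ≫ τ i ≠ spMap s ≫ τ j) → IsStable g (constFam C B τ hτ)

/-- DIS: disjoint points of the charts. -/
def Stmt_DIS : Prop :=
  ∀ {n : ℕ} {k : Type} [Field k] {C : Fam n k} {T : TC k} (ch : Cht C T)
    (B : Type) [CommRing B] [Algebra k B] (i : Fin n),
    (∀ φ : T.R1 →ₐ[k] B, IsUnit (φ (T.x - algebraMap k T.R1 (ch.pt i T.x))) →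
      ∀ (K : Type) [Field K] [IsAlgClosed K] (s : B →+* K),
        spMap s ≫ tau ch.aff (.one φ) ≠
          spMap s ≫ tau ch.aff (.one ((Algebra.ofId k B).comp (ch.pt i)))) ∧
    (∀ ψ : T.R2 →ₐ[k] B, ∀ (K : Type) [Field K] [IsAlgClosed K] (s : B →+* K),
        spMap s ≫ tau ch.aff (.two ψ) ≠
          spMap s ≫ tau ch.aff (.one ((Algebra.ofId k B).comp (ch.pt i))))

/-! ## Block BUB: the bubble -/

/-- The points of the family with moving section `i₀` given by `φ`. -/
def mv {n : ℕ} {k : Type} [Field k] {C : Fam n k} {T : TC k} (ch : Cht C T) {B : Type}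
    [CommRing B] [Algebra k B] (i₀ : Fin n) (s : Pt T B) : Fin n → Pt T B :=
  fun i => if i = i₀ then s else .one ((Algebra.ofId k B).comp (ch.pt i))

/-- BUB: the family over `B` in which the moving section meets `p_j`. -/
def Stmt_BUB : Prop :=
  ∀ {n : ℕ} {k : Type} [Field k] [IsAlgClosed k] (g : ℕ) (C : Fam n k), IsStable g C →
    SmoothOfRelativeDimension 1 C.π → ∀ (T : TC k) (ch : Cht C T),
    (∀ (a : T.R1) (b : T.R2), T.j1 a = T.e * T.j2 b → a = 0) →
    ∀ (i₀ j : Fin n), j ≠ i₀ → ∀ (B : Type) [CommRing B] [Algebra k B] (φ : T.R1 →ₐ[k] B),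
    (∀ i, i ≠ i₀ → i ≠ j → IsUnit (φ (T.x - algebraMap k T.R1 (ch.pt i T.x)))) →
    ∃ (x : Fam n B) (ct : Charted T x), IsStable g x ∧
      (∀ i, ct.Is (x.σ i) (mv ch i₀ (.one φ) i)) ∧
      ∀ (B' : Type) [CommRing B'] [Algebra k B'] (ψ : B →ₐ[k] B'),
        IsUnit (ψ (φ (T.x - algebraMap k T.R1 (ch.pt j T.x)))) →
        ∀ (hτ : ∀ i, tau ch.aff ((mv ch i₀ (.one φ) i).map ψ) ≫ C.π =
          spMap (algebraMap k B')) (c : Charted T (constFam C B' _ hτ)), IsBC ch.ct c →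
        ∃ a : Arrow (ψ : B →+* B') (constFam C B' _ hτ) x, ChArrow a c ct

end Pool.Agent.MG


end

section

/-!
# Statements of the algebraic end of the proof
-/

open CategoryTheory CategoryTheory.Limits AlgebraicGeometry TensorProduct

namespace Pool.Agent.MG

/-- `D` is a basis of a complement of `R₁ + e R₂` in `R₁₂`. -/
structure Cpl {k : Type} [Field k] (T : TC k) {ι : Type} (D : ι → T.R12) : Prop where
  gen : ∀ r : T.R12, ∃ (a : T.R1) (b : T.R2) (c : ι →₀ k),
    r = T.j1 a + T.e * T.j2 b + c.sum fun i t => t • D i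
  ind : ∀ (a : T.R1) (b : T.R2) (c : ι →₀ k),
    T.j1 a + T.e * T.j2 b + (c.sum fun i t => t • D i) = 0 →
      T.j1 a = 0 ∧ T.e * T.j2 b = 0 ∧ c = 0

/-- UNI: universal covector data. -/
def Stmt_UNI : Prop :=
  ∀ {k : Type} [Field k] (T : TC k), Function.Injective T.j1 → Function.Injective T.j2 →
    (∀ (a : T.R1) (b : T.R2), T.j1 a = T.e * T.j2 b → a = 0) →
    ∃ (ι : Type) (D : ι → T.R12), Cpl T D ∧
      ∀ {n : ℕ} (B : Type) [CommRing B] [Algebra k B] (s : Fin n → Pt T B),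
        (∀ (ν : Fin n → B) (w : ι → B), ∃ C : CovData s, C.ν = ν ∧ ∀ a, C.μ (D a) = w a) ∧
        (∀ C C' : CovData s, C.ν = C'.ν → (∀ a, C.μ (D a) = C'.μ (D a)) → C = C')

/-- The substitution `ν i₀ ↦ e ν i₀`, `w a ↦ w a + D a ν i₀` (change of the chart of the moving
section). -/
noncomputable def chgV {n : ℕ} {k : Type} [Field k] (T : TC k) {ι : Type} (D : ι → T.R12)
    (i₀ : Fin n) : Fin n ⊕ ι → MvPolynomial (Fin n ⊕ ι) T.R12
  | .inl i => if i = i₀ then MvPolynomial.C T.e * MvPolynomial.X (.inl i) else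
      MvPolynomial.X (.inl i)
  | .inr a => MvPolynomial.X (.inr a) + MvPolynomial.C (D a) * MvPolynomial.X (.inl i₀)

/-- ALG: functions which extend over both charts of the moving section do not depend on it. -/
def Stmt_ALG : Prop :=
  ∀ {k : Type} [Field k] [CharZero k] (T : TC k), IsDomain T.R12 →
    Function.Injective T.j1 → Function.Injective T.j2 →
    (∀ a b, T.j1 a = T.j2 b → ∃ c : k, a = algebraMap k T.R1 c) →
    (∀ (j : ℕ), 1 ≤ j → ∀ (a : T.R1) (b : T.R2), T.j1 a = T.e ^ j * T.j2 b → a = 0) →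
    ∀ {ι : Type} (D : ι → T.R12), Cpl T D → ∀ {n : ℕ} (i₀ : Fin n)
      (f : MvPolynomial (Fin n ⊕ ι) T.R1) (g : MvPolynomial (Fin n ⊕ ι) T.R2),
      MvPolynomial.map (T.j1 : T.R1 →+* T.R12) f =
        MvPolynomial.aeval (chgV T D i₀) (MvPolynomial.map (T.j2 : T.R2 →+* T.R12) g) →
      ∃ p : MvPolynomial {i : Fin n // i ≠ i₀} k,
        f = MvPolynomial.rename (fun i => Sum.inl i.1)
          (MvPolynomial.map (algebraMap k T.R1) p)

/-- LOC: an element of `R₁[1/∏ z_i]` which has no pole at each `p_j` is in `R₁`, with polynomial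
coefficients: `f/∏_{i ∈ s} z_i^N` equal to `f_j / ∏_{i ∈ s, i ≠ j} z_i^N` for every `j ∈ s`. -/
def Stmt_LOC : Prop :=
  ∀ {k : Type} [Field k] {n : ℕ} {C : Fam n k} (T : TC k) (ch : Cht C T) (ι : Type)
    (s : Finset (Fin n)) (N : ℕ) (f : MvPolynomial (Fin n ⊕ ι) T.R1)
    (_ : ∀ j ∈ s, ∃ (M : ℕ) (q : MvPolynomial (Fin n ⊕ ι) T.R1),
      (MvPolynomial.C ((∏ i ∈ s.erase j, (T.x - algebraMap k T.R1 (ch.pt i T.x))) ^ M)) * f =
        MvPolynomial.C ((T.x - algebraMap k T.R1 (ch.pt j T.x)) ^ N) * q),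
    ∃ q : MvPolynomial (Fin n ⊕ ι) T.R1,
      f = MvPolynomial.C ((∏ i ∈ s, (T.x - algebraMap k T.R1 (ch.pt i T.x))) ^ N) * q

end Pool.Agent.MG


end

section

/-!
# Curves of genus one: the argument along the fibres, statements
-/

open CategoryTheory CategoryTheory.Limits AlgebraicGeometry TensorProduct

namespace Pool.Agent.MG

/-- A nowhere vanishing vector field on the curve with charts `T`: `r₀ d/dx = s₀ d/dy` with units
`r₀`, `s₀`; inverses `ri`, `si`. -/
structure Ell {k : Type} [Field k] (T : TC k) where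
  /-- the field on the first chart -/
  r0 : T.R1
  /-- the inverse of `r0` -/
  ri : T.R1
  /-- the field on the second chart -/
  s0 : T.R2
  /-- the inverse of `s0` -/
  si : T.R2
  hr : r0 * ri = 1
  hs : s0 * si = 1
  h : T.j1 r0 = T.e * T.j2 s0

/-- CSTW: constant families with disjoint sections are stable, if the section `j` is constant and
there are no vector fields which vanish at `p_j`. -/
def Stmt_CSTW : Prop :=
  ∀ {n : ℕ} {k : Type} [Field k] [IsAlgClosed k] (g : ℕ) (C : Fam n k), IsStable g C →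
    SmoothOfRelativeDimension 1 C.π → ∀ (T : TC k) (ch : Cht C T) (j : Fin n),
    (∀ (a : T.R1) (b : T.R2), T.j1 a = T.e * T.j2 b → ch.pt j a = 0 → a = 0) →
    ∀ (B : Type) [CommRing B] [Algebra k B] (τ : Fin n → (Sp B ⟶ C.X))
      (hτ : ∀ i, τ i ≫ C.π = spMap (algebraMap k B)), τ j = spMap (algebraMap k B) ≫ C.σ j →
      (∀ (K : Type) [Field K] [IsAlgClosed K] (s : B →+* K) (i j : Fin n), i ≠ j →
        spMap s ≫ τ i ≠ spMap s ≫ τ j) → IsStable g (constFam C B τ hτ)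

/-- `D` is a basis of a complement of `R₁ + e R₂` in `R₁₂`, and `R₁ ∩ e R₂ = k r₀`. -/
structure Cpl1 {k : Type} [Field k] {T : TC k} (E : Ell T) {ι : Type} (D : ι → T.R12) : Prop where
  gen : ∀ r : T.R12, ∃ (a : T.R1) (b : T.R2) (c : ι →₀ k),
    r = T.j1 a + T.e * T.j2 b + c.sum fun i t => t • D i
  ind : ∀ (a : T.R1) (b : T.R2) (c : ι →₀ k),
    T.j1 a + T.e * T.j2 b + (c.sum fun i t => t • D i) = 0 →
      c = 0 ∧ ∃ t : k, a = t • E.r0 ∧ b = -(t • E.s0)

/-- UNI1: universal covector data in genus one; the weight of the section `i₀` is determined by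
`∑ νᵢ r₀(pᵢ) = 0`. -/
def Stmt_UNI1 : Prop :=
  ∀ {k : Type} [Field k] (T : TC k) (E : Ell T), Function.Injective T.j1 →
    Function.Injective T.j2 → (∀ a b, T.j1 a = T.j2 b → ∃ c : k, a = algebraMap k T.R1 c) →
    ∃ (ι : Type) (D : ι → T.R12), Cpl1 E D ∧
      ∀ {n : ℕ} (B : Type) [CommRing B] [Algebra k B] (s : Fin n → Pt T B) (i₀ : Fin n),
        (∀ (ν : {i : Fin n // i ≠ i₀} → B) (w : ι → B),
          ∃ C : CovData s, (∀ i, C.ν i.1 = ν i) ∧ ∀ a, C.μ (D a) = w a) ∧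
        (∀ C C' : CovData s, (∀ i, i ≠ i₀ → C.ν i = C'.ν i) →
          (∀ a, C.μ (D a) = C'.μ (D a)) → C = C')

/-- The weight of the moving section in the first chart: `-(∑ c i ν i) / r₀`. -/
noncomputable def nuv {n : ℕ} {k : Type} [Field k] {T : TC k} (E : Ell T) (ι : Type) (i₀ : Fin n)
    (c : Fin n → k) : MvPolynomial ({i : Fin n // i ≠ i₀} ⊕ ι) T.R12 :=
  -∑ i : {i : Fin n // i ≠ i₀}, MvPolynomial.C (algebraMap k T.R12 (c i.1) * T.j1 E.ri) *
    MvPolynomial.X (.inl i)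

/-- The substitution `w a ↦ w a + D a ν i₀` (change of the chart of the moving section). -/
noncomputable def chgW {n : ℕ} {k : Type} [Field k] {T : TC k} (E : Ell T) {ι : Type}
    (D : ι → T.R12) (i₀ : Fin n) (c : Fin n → k) :
    {i : Fin n // i ≠ i₀} ⊕ ι → MvPolynomial ({i : Fin n // i ≠ i₀} ⊕ ι) T.R12
  | .inl i => MvPolynomial.X (.inl i)
  | .inr a => MvPolynomial.X (.inr a) + MvPolynomial.C (D a) * nuv E ι i₀ c

/-- ALG1: functions which extend over both charts of the moving section do not depend on it. -/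
def Stmt_ALG1 : Prop :=
  ∀ {k : Type} [Field k] [CharZero k] (T : TC k) (E : Ell T), IsDomain T.R12 →
    Function.Injective T.j1 → Function.Injective T.j2 →
    (∀ a b, T.j1 a = T.j2 b → ∃ c : k, a = algebraMap k T.R1 c) →
    ∀ {ι : Type} (D : ι → T.R12), Cpl1 E D → ∀ {n : ℕ} (i₀ : Fin n) (c : Fin n → k),
      (∃ i, i ≠ i₀ ∧ c i ≠ 0) →
      ∀ (f : MvPolynomial ({i : Fin n // i ≠ i₀} ⊕ ι) T.R1)
      (g : MvPolynomial ({i : Fin n // i ≠ i₀} ⊕ ι) T.R2),
      MvPolynomial.map (T.j1 : T.R1 →+* T.R12) f =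
        MvPolynomial.aeval (chgW E D i₀ c) (MvPolynomial.map (T.j2 : T.R2 →+* T.R12) g) →
      ∃ p : MvPolynomial {i : Fin n // i ≠ i₀} k,
        f = MvPolynomial.rename Sum.inl (MvPolynomial.map (algebraMap k T.R1) p)

/-! ## Replacing a marked point -/

section

variable {n : ℕ} {k : Type} [Field k]

/-- The curve with the marked point `i₀` replaced by `q`. -/
noncomputable def Fam.rep (C : Fam n k) (i₀ : Fin n) (q : Sp k ⟶ C.X) (hq : q ≫ C.π = 𝟙 _) :
    Fam n k where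
  X := C.X
  π := C.π
  σ := Function.update C.σ i₀ q
  sec i := by
    by_cases h : i = i₀
    · subst h
      rw [Function.update_self, hq]
    · rw [Function.update_of_ne h, C.sec]

/-- The charts of the curve with a marked point replaced. -/
def Charted.rep {T : TC k} {C : Fam n k} (ct : Charted T C) (i₀ : Fin n) (q : Sp k ⟶ C.X)
    (hq : q ≫ C.π = 𝟙 _) : Charted T (C.rep i₀ q hq) where
  U1 := ct.U1
  U2 := ct.U2
  cover := ct.cover
  ac1 := ct.ac1
  ac2 := ct.ac2
  ac12 := ct.ac12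
  t1 := ct.t1
  t2 := ct.t2
  t12 := ct.t12
  b1 := ct.b1
  b2 := ct.b2
  b12 := ct.b12
  c1 := ct.c1
  c2 := ct.c2
  c12 := ct.c12
  r1 := ct.r1
  r2 := ct.r2

/-- The constant thickening of `X` over `k[ε]`. -/
noncomputable abbrev XE {X : Scheme.{0}} (π : X ⟶ Sp k) : Scheme.{0} :=
  pullback π (spMap (algebraMap k (Eps k)))

/-- A vector field, as an automorphism of `X[ε]` composed with the projection to `X`. -/
structure Flow {X : Scheme.{0}} (π : X ⟶ Sp k) where
  /-- the morphism `X[ε] → X` -/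
  θ : XE π ⟶ X
  hπ : θ ≫ π = pullback.snd _ _ ≫ spMap (algebraMap k (Eps k))
  h0 : ∀ z : X ⟶ XE π, z ≫ pullback.fst _ _ = 𝟙 _ → z ≫ pullback.snd _ _ = π ≫ spMap (eps0 k) →
    z ≫ θ = 𝟙 _

/-- The point moved by the vector field. -/
noncomputable def Flow.mov {X : Scheme.{0}} {π : X ⟶ Sp k} (Φ : Flow π) (σ : Sp k ⟶ X)
    (hσ : σ ≫ π = 𝟙 _) : Sp (Eps k) ⟶ X :=
  pullback.lift (spMap (algebraMap k (Eps k)) ≫ σ) (𝟙 _) (by
    rw [Category.assoc, hσ, Category.comp_id, Category.id_comp]) ≫ Φ.θ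

/-- In the coordinates `s`, the vector field is `s ↦ w`: `θ* s = s + ε w`. -/
def Flow.Has {X : Scheme.{0}} {π : X ⟶ Sp k} (Φ : Flow π) (U : X.Opens) (s w : Γ(X, U)) : Prop :=
  ∃ h : pullback.fst π (spMap (algebraMap k (Eps k))) ⁻¹ᵁ U ≤ Φ.θ ⁻¹ᵁ U,
    (Φ.θ.appLE U _ h).hom s =
      ((pullback.fst π (spMap (algebraMap k (Eps k)))).appLE U _ le_rfl).hom s +
      coef (pullback.snd π (spMap (algebraMap k (Eps k)))) _ (TrivSqZeroExt.inr 1) *
      ((pullback.fst π (spMap (algebraMap k (Eps k)))).appLE U _ le_rfl).hom w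

/-- The vector field vanishes nowhere. -/
def Flow.NV {X : Scheme.{0}} {π : X ⟶ Sp k} (Φ : Flow π) : Prop :=
  ∀ p : X, ∃ (U : X.Opens) (s w : Γ(X, U)), p ∈ U ∧ IsUnit w ∧ Φ.Has U s w

/-- The deformation `d` of `C` moves the marked point `i` along the vector field and nothing
else. -/
def IsMv {g : ℕ} {C : Fam n k} (Φ : Flow C.π) (i : Fin n) (d : Defo g C) : Prop :=
  ∃ f : d.y.X ⟶ C.X, IsPullback f d.y.π C.π (spMap (algebraMap k (Eps k))) ∧
    d.r.f ≫ f = 𝟙 _ ∧ (∀ j, j ≠ i → d.y.σ j ≫ f = spMap (algebraMap k (Eps k)) ≫ C.σ j) ∧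
    d.y.σ i ≫ f = Φ.mov (C.σ i) (C.sec i)

end

/-- REP: stability of curves with a marked point replaced, if another one is kept. -/
def Stmt_REP : Prop :=
  ∀ {n : ℕ} {k : Type} [Field k] [IsAlgClosed k] (g : ℕ) (C : Fam n k), IsStable g C →
    SmoothOfRelativeDimension 1 C.π → ∀ (T : TC k) (_ : Cht C T) (_ : Ell T) (i₀ j : Fin n),
    j ≠ i₀ → ∀ (q : Sp k ⟶ C.X) (hq : q ≫ C.π = 𝟙 _), (∀ i, i ≠ i₀ → q ≠ C.σ i) →
    IsStable g (C.rep i₀ q hq)

/-- MVX: existence of the deformation which moves one marked point. -/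
def Stmt_MVX : Prop :=
  ∀ {n : ℕ} {k : Type} [Field k] [IsAlgClosed k] (g : ℕ) (C : Fam n k), IsStable g C →
    SmoothOfRelativeDimension 1 C.π → ∀ (T : TC k) (_ : Cht C T) (_ : Ell T) (i j : Fin n),
    j ≠ i → ∀ Φ : Flow C.π, ∃ d : Defo g C, IsMv Φ i d

/-- MVV: the value of a covector at the deformation which moves one marked point. -/
def Stmt_MVV : Prop :=
  ∀ {n : ℕ} {k : Type} [Field k] {T : TC k} {C : Fam n k} (ct : Charted T C) (_ : ct.Aff)
    (s : Fin n → (T.R1 →ₐ[k] k)) (hs : ∀ i, ct.Is (C.σ i) (.one (s i)))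
    (E : CovData (fun i => Pt.one (s i))) (g : ℕ) (l : Cov g C),
    IsCov ct (fun i => .one (s i)) hs E l → ∀ (Φ : Flow C.π) (r0 : T.R1),
    Φ.Has ct.U1 (ct.t1 (1 ⊗ₜ T.x)) (ct.t1 (1 ⊗ₜ r0)) → ∀ (i : Fin n) (d : Defo g C),
    IsMv Φ i d → l.l d = E.ν i * s i r0

/-- VFE: the charts of a nowhere vanishing vector field. -/
def Stmt_VFE : Prop :=
  ∀ {n : ℕ} {k : Type} [Field k] {T : TC k} {C : Fam n k} (_ : Cht C T) (ct : Charted T C)
    (_ : ct.Aff) (Φ : Flow C.π), Φ.NV →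
    ∃ E : Ell T, Φ.Has ct.U1 (ct.t1 (1 ⊗ₜ T.x)) (ct.t1 (1 ⊗ₜ E.r0))

/-- GQ: a point in general position with respect to two charts. -/
def Stmt_GQ : Prop :=
  ∀ {n : ℕ} {k : Type} [Field k] [IsAlgClosed k] (C : Fam n k) (_ : IsProper C.π)
    (_ : SmoothOfRelativeDimension 1 C.π) (_ : ConnectedSpace C.X) (T T' : TC k)
    (ch : Cht C T) (C' : Fam n k) (f : C.X ⟶ C'.X) (_ : IsIso f) (_ : f ≫ C'.π = C.π)
    (ch' : Cht C' T'),
    ∃ q : Sp k ⟶ C.X, q ≫ C.π = 𝟙 _ ∧
      (∃ φ : T.R1 →ₐ[k] k, q = tau ch.aff (.one φ) ∧ ∀ i, φ T.x ≠ ch.pt i T.x) ∧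
      ∃ φ' : T'.R1 →ₐ[k] k, q ≫ f = tau ch'.aff (.one φ') ∧ ∀ i, φ' T'.x ≠ ch'.pt i T'.x

end Pool.Agent.MG


end

section

/-!
# CST: constant families with disjoint sections are stable
-/

open CategoryTheory CategoryTheory.Limits AlgebraicGeometry TensorProduct

namespace Pool.Agent.MG

namespace CST

/-- The identity arrow. -/
def idArrow {n : ℕ} {A : Type} [CommRing A] (x : Fam n A) : Arrow (RingHom.id A) x x where
  f := 𝟙 _
  cart := by
    have h : spMap (RingHom.id A) = 𝟙 (Sp A) := Spec.map_id _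
    rw [h]
    exact IsPullback.of_horiz_isIso ⟨by simp⟩
  sec i := by
    have h : spMap (RingHom.id A) = 𝟙 (Sp A) := Spec.map_id _
    rw [h, Category.comp_id, Category.id_comp]

/-- A stable curve over an algebraically closed field is a stable curve. -/
theorem stableCurve {n : ℕ} {k : Type} [Field k] [IsAlgClosed k] {g : ℕ} {C : Fam n k}
    (h : IsStable g C) : StableCurve g C :=
  h.fib k (RingHom.id k) C ⟨idArrow C⟩

theorem spMap_comp {A B D : Type} [CommRing A] [CommRing B] [CommRing D] (f : A →+* B)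
    (g : B →+* D) : spMap (g.comp f) = spMap g ≫ spMap f := by
  change Spec.map (CommRingCat.ofHom (g.comp f)) = _
  rw [CommRingCat.ofHom_comp, Spec.map_comp]

end CST

open _root_.Pool.Agent.MG.CST in
theorem t_CST (hFIS : Stmt_FIS) (hCON : Stmt_CON) (hNOD : Stmt_NOD) (hGEN : Stmt_GEN)
    (hRIG : Stmt_RIG) : Stmt_CST := by
  intro n k _ _ g C hC hsm T ch hvf B _ _ τ hτ hdis
  have hSC := stableCurve hC
  have hprop := hC.proper
  have hflat := hC.flat
  have hfp := hC.fp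
  refine ⟨?_, ?_, ?_, ?_⟩
  · change IsProper (pullback.snd C.π (spMap (algebraMap k B)))
    infer_instance
  · change Flat (pullback.snd C.π (spMap (algebraMap k B)))
    infer_instance
  · change LocallyOfFinitePresentation (pullback.snd C.π (spMap (algebraMap k B)))
    infer_instance
  · intro K _ _ s z hz
    let _ : Algebra k K := (s.comp (algebraMap k B)).toAlgebra
    let ψ : B →ₐ[k] K := { s with commutes' := fun _ => rfl }
    have hτ' : ∀ i, (spMap s ≫ τ i) ≫ C.π = spMap (algebraMap k K) := by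
      intro i
      rw [Category.assoc, hτ, ← spMap_comp]
    obtain ⟨f, hf⟩ := hFIS.1 C B K ψ τ hτ (fun i => spMap s ≫ τ i) hτ' (fun i => rfl) z hz
    refine hFIS.2 g z _ f hf ?_
    refine ⟨?_, ?_, ?_, ?_, ?_, ?_⟩
    · have : Nonempty C.X := hSC.connected.toNonempty
      exact hCON C T ch this K _ hτ'
    · exact hNOD C T ch K _ hτ'
    · exact hGEN C g hprop hSC.genus K _ hτ'
    · intro i j hij h
      refine hdis K s i j hij ?_
      have h1 := congrArg (fun q => q ≫ pullback.fst C.π (spMap (algebraMap k K))) h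
      have h2 : ∀ i, (constFam C K (fun i => spMap s ≫ τ i) hτ').σ i ≫
          pullback.fst C.π (spMap (algebraMap k K)) = spMap s ≫ τ i :=
        fun i => pullback.lift_fst _ _ _
      exact (h2 i).symm.trans (h1.trans (h2 j))
    · intro i p
      refine ⟨⊤, trivial, ?_⟩
      have h1 : Smooth C.π := SmoothOfRelativeDimension.smooth 1 C.π
      have h2 : Smooth (pullback.snd C.π (spMap (algebraMap k K))) :=
        MorphismProperty.pullback_snd _ _ h1
      change Smooth ((⊤ : (pullback C.π (spMap (algebraMap k K))).Opens).ι ≫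
        pullback.snd C.π (spMap (algebraMap k K)))
      infer_instance
    · intro v U
      exact hRIG C T ch hvf K _ hτ' v U

end Pool.Agent.MG


end

section

/-!
# Classes and morphisms of ring data
-/

open CategoryTheory CategoryTheory.Limits AlgebraicGeometry TensorProduct

namespace Pool.Agent.MG

namespace AN

variable {k : Type} [Field k] {T : TC k} {B : Type} [CommRing B] [Algebra k B]
  {E J : Type} [CommRing E] [Fintype J] {S : SqE B E J}
  {B' : Type} [CommRing B'] [Algebra k B'] {E' J' : Type} [CommRing E'] [Fintype J']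
  {S' : SqE B' E' J'} {φ : B →ₐ[k] B'} {m : J → J' → B'}

theorem sum_swap (Φ : SqHom S S' (φ : B →+* B') m) {G : Type} [CommRing G] (a : E' →+* G)
    (w : J → G) : ∑ j, a (Φ.Φ (S.ε j)) * w j =
      ∑ l, a (S'.ε l) * ∑ j, a (S'.i (m j l)) * w j := by
  simp_rw [Φ.he, map_sum, map_mul, Finset.mul_sum, Finset.sum_mul]
  rw [Finset.sum_comm]
  refine Finset.sum_congr rfl fun l _ => Finset.sum_congr rfl fun j _ => ?_
  ring

theorem val_push (Φ : SqHom S S' (φ : B →+* B') m) (b : B) (δ : J → B) :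
    Φ.Φ (S.i b + ∑ j, S.ε j * S.i (δ j)) =
      S'.i (φ b) + ∑ l, S'.ε l * S'.i (∑ j, m j l * φ (δ j)) := by
  rw [map_add, Φ.hi, map_sum]
  have h := sum_swap Φ (RingHom.id E') (fun j => S'.i (φ (δ j)))
  simp only [RingHom.id_apply] at h
  have h2 : ∑ j, Φ.Φ (S.ε j * S.i (δ j)) = ∑ j, Φ.Φ (S.ε j) * S'.i (φ (δ j)) := by
    refine Finset.sum_congr rfl fun j _ => ?_
    rw [map_mul, Φ.hi]
    rfl
  rw [h2, h]
  congr 1
  refine Finset.sum_congr rfl fun l _ => ?_
  rw [map_sum]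
  congr 1
  refine Finset.sum_congr rfl fun j _ => ?_
  rw [map_mul]

theorem dlt_push {Φ : SqHom S S' (φ : B →+* B') m} {D : RData T S} {D' : RData T S'}
    (u : RHom Φ D D') (s : Pt T B) (γ : D.Sec s) (γ' : D'.Sec (s.map φ)) (hγ : u.Sec s γ γ')
    (v1 : D.G1) (v2 : D.G2) (δ : J → B) (hd : D.Dlt v1 v2 s γ δ) :
    D'.Dlt (u.u1 v1) (u.u2 v2) (s.map φ) γ' (fun l => ∑ j, m j l * φ (δ j)) := by
  cases s with
  | one ψ =>
    have h1 : RData.Sec1.g γ' (u.u1 v1) = Φ.Φ (RData.Sec1.g γ v1) := hγ v1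
    have h2 : RData.Sec1.g γ v1 = S.i (ψ T.x) + ∑ j, S.ε j * S.i (δ j) := hd
    show RData.Sec1.g γ' (u.u1 v1) = S'.i (φ (ψ T.x)) + ∑ l, S'.ε l * S'.i (∑ j, m j l * φ (δ j))
    rw [h1, h2, val_push]
  | two ψ =>
    have h1 : RData.Sec2.g γ' (u.u2 v2) = Φ.Φ (RData.Sec2.g γ v2) := hγ v2
    have h2 : RData.Sec2.g γ v2 = S.i (ψ T.y) + ∑ j, S.ε j * S.i (δ j) := hd
    show RData.Sec2.g γ' (u.u2 v2) = S'.i (φ (ψ T.y)) + ∑ l, S'.ε l * S'.i (∑ j, m j l * φ (δ j))
    rw [h1, h2, val_push]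

end AN

theorem t_AN : Stmt_AN := by
  intro n k _ T B _ _ E J _ _ S B' _ _ E' J' _ _ S' φ m Φ D D' u s γ γ' hγ h δ ⟨R⟩
  refine ⟨{
    θ1 := u.u1.comp R.θ1
    θ2 := u.u2.comp R.θ2
    k1 := fun c => ?_
    k2 := fun c => ?_
    l1 := fun a => ?_
    l2 := fun a => ?_
    t1 := u.u12.comp R.t1
    t2 := u.u12.comp R.t2
    e1 := fun a => ?_
    e2 := fun a => ?_
    lt1 := fun a => ?_
    lt2 := fun a => ?_
    diff := fun a => ?_
    dl := fun i => ?_ }⟩
  · show u.u1 (R.θ1 _) = _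
    rw [R.k1, u.ua1, Φ.hi]
    congr 2
    exact φ.commutes c
  · show u.u2 (R.θ2 _) = _
    rw [R.k2, u.ua2, Φ.hi]
    congr 2
    exact φ.commutes c
  · show D'.q1 (u.u1 (R.θ1 a)) = _
    rw [u.uq1, R.l1, Algebra.TensorProduct.map_tmul, map_one]
    rfl
  · show D'.q2 (u.u2 (R.θ2 a)) = _
    rw [u.uq2, R.l2, Algebra.TensorProduct.map_tmul, map_one]
    rfl
  · show u.u12 (R.t1 _) = D'.f1 (u.u1 (R.θ1 a))
    rw [R.e1, u.uf1]
  · show u.u12 (R.t2 _) = D'.f2 (u.u2 (R.θ2 a))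
    rw [R.e2, u.uf2]
  · show D'.q12 (u.u12 (R.t1 a)) = _
    rw [u.uq12, R.lt1, Algebra.TensorProduct.map_tmul, map_one]
    rfl
  · show D'.q12 (u.u12 (R.t2 a)) = _
    rw [u.uq12, R.lt2, Algebra.TensorProduct.map_tmul, map_one]
    rfl
  · obtain ⟨v, hv, hd⟩ := R.diff a
    refine ⟨fun l => ∑ j, D'.a12 (S'.i (m j l)) * u.u12 (v j), fun l => ?_, ?_⟩
    · rw [map_sum]
      unfold pushh
      rw [Finset.sum_mul]
      refine Finset.sum_congr rfl fun j _ => ?_
      rw [map_mul, D'.qa12, S'.pi, u.uq12, hv, map_mul, Algebra.TensorProduct.map_tmul, map_one,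
        ← mul_assoc]
      congr 1
      rw [Algebra.smul_def]
      rfl
    · show u.u12 (R.t1 a) = u.u12 (R.t2 a) + _
      rw [hd, map_add, map_sum]
      congr 1
      rw [← AN.sum_swap Φ D'.a12 (fun j => u.u12 (v j))]
      refine Finset.sum_congr rfl fun j _ => ?_
      rw [map_mul, u.ua12]
  · exact AN.dlt_push u (s i) (γ i) (γ' i) (hγ i) _ _ (fun j => δ j i) (R.dl i)

end Pool.Agent.MG


end

section

/-!
# Vector fields in the two charts
-/

open CategoryTheory CategoryTheory.Limits AlgebraicGeometry TensorProduct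

namespace Pool.Agent.MG

namespace Ell

variable {k : Type} [Field k] {T : TC k} (E : Ell T)


include E in
theorem one (h0 : ∀ a b, T.j1 a = T.j2 b → ∃ c : k, a = algebraMap k T.R1 c) (a : T.R1) (b : T.R2)
    (h : T.j1 a = T.e * T.j2 b) : ∃ c : k, a = algebraMap k T.R1 c * E.r0 := by
  have hr : T.j1 E.r0 * T.j1 E.ri = 1 := by rw [← map_mul, E.hr, map_one]
  have hs : T.j2 E.s0 * T.j2 E.si = 1 := by rw [← map_mul, E.hs, map_one]
  have h1 : T.j1 (a * E.ri) = T.j2 (b * E.si) := by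
    rw [map_mul, map_mul, h]
    have h2 := E.h
    calc T.e * T.j2 b * T.j1 E.ri = T.e * (T.j2 E.s0 * T.j2 E.si) * T.j2 b * T.j1 E.ri := by
          rw [hs, mul_one]
      _ = (T.e * T.j2 E.s0) * T.j1 E.ri * (T.j2 b * T.j2 E.si) := by ring
      _ = T.j2 b * T.j2 E.si := by rw [← h2, hr, one_mul]
  obtain ⟨c, hc⟩ := h0 _ _ h1
  refine ⟨c, ?_⟩
  rw [← hc, mul_assoc, mul_comm E.ri, E.hr, mul_one]

include E in
theorem hv (h0 : ∀ a b, T.j1 a = T.j2 b → ∃ c : k, a = algebraMap k T.R1 c)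
    (p : T.R1 →ₐ[k] k) (a : T.R1) (b : T.R2) (h : T.j1 a = T.e * T.j2 b) (hp : p a = 0) :
    a = 0 := by
  obtain ⟨c, rfl⟩ := one E h0 a b h
  rw [map_mul, AlgHom.commutes] at hp
  have h1 : p E.r0 * p E.ri = 1 := by rw [← map_mul, E.hr, map_one]
  have h2 : algebraMap k k c = 0 := by
    calc algebraMap k k c = algebraMap k k c * p E.r0 * p E.ri := by rw [mul_assoc, h1, mul_one]
      _ = 0 := by rw [hp, zero_mul]
  have h3 : c = 0 := h2
  rw [h3, map_zero, zero_mul]

end Ell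

end Pool.Agent.MG


end

section

/-!
# ALG1: functions which extend over both charts of the moving section do not depend on it

Induction on the degree by means of the derivatives with respect to the variables `w`, which
commute with the change of charts.
-/

namespace Pool.Agent.MG.ALG1

open MvPolynomial

variable {k R1 R2 R12 : Type*} [Field k] [CommRing R1] [CommRing R2] [CommRing R12]
  [Algebra k R1] [Algebra k R2] [Algebra k R12]
  {J I : Type*}

/-- coefficient of a derivative -/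
theorem coeff_pd {R σ : Type*} [CommRing R] (v : σ) (q : MvPolynomial σ R) :
    ∀ m, coeff m (pderiv v q) = (m v + 1) * coeff (m + Finsupp.single v 1) q := by
  classical
  induction q using MvPolynomial.induction_on' with
  | monomial s a =>
    intro m
    rw [pderiv_monomial, coeff_monomial, coeff_monomial]
    by_cases h : s = m + Finsupp.single v 1
    · subst h
      simp
      ring
    · rw [if_neg h, mul_zero]
      split_ifs with h'
      · by_cases hs : s v = 0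
        · rw [hs]; simp
        · exfalso
          apply h
          rw [← h']
          ext w
          by_cases hw : v = w
          · subst hw
            simp
            omega
          · simp [hw]
      · rfl
  | add p q hp hq =>
    intro m
    rw [map_add, coeff_add, coeff_add, hp, hq]
    ring

/-- A polynomial with vanishing derivatives with respect to `w`. -/
theorem of_pd_zero {R : Type*} [CommRing R] [IsDomain R] [CharZero R]
    (q : MvPolynomial (J ⊕ I) R) (h : ∀ i : I, pderiv (Sum.inr i) q = 0) :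
    ∃ r : MvPolynomial J R, q = rename Sum.inl r := by
  have h1 : ∀ m ∈ q.support, ∀ i : I, m (Sum.inr i) = 0 := by
    intro m hm i
    by_contra hne
    have h2 := coeff_pd (Sum.inr i) q (m - Finsupp.single (Sum.inr i) 1)
    rw [h i, coeff_zero] at h2
    have h3 : m - Finsupp.single (Sum.inr i) 1 + Finsupp.single (Sum.inr i) 1 = m := by
      apply tsub_add_cancel_of_le
      rw [Finsupp.single_le_iff]
      omega
    rw [h3] at h2
    have h4 := (mul_eq_zero.mp h2.symm).resolve_right (mem_support_iff.mp hm)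
    exact Nat.cast_add_one_ne_zero _ h4
  obtain ⟨r, hr⟩ := exists_rename_eq_of_vars_subset_range q (Sum.inl : J → J ⊕ I)
    Sum.inl_injective (by
      intro v hv
      rcases v with j | i
      · exact ⟨j, rfl⟩
      · exfalso
        obtain ⟨m, hm, hvm⟩ := (MvPolynomial.mem_vars_iff_mem_support _).mp hv
        exact (Finsupp.mem_support_iff.mp hvm) (h1 m hm i))
  exact ⟨r, hr.symm⟩

theorem pd_ren {R : Type*} [CommRing R] (q : MvPolynomial J R) (i : I) :
    pderiv (Sum.inr i) (rename Sum.inl q : MvPolynomial (J ⊕ I) R) = 0 := by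
  classical
  apply pderiv_eq_zero_of_notMem_vars
  intro h
  have := vars_rename (Sum.inl : J → J ⊕ I) q h
  simp at this

/-- linear in `w` -/
theorem lin {R : Type*} [CommRing R] [IsDomain R] [CharZero R]
    (q : MvPolynomial (J ⊕ I) R) (p : I → MvPolynomial J R)
    (h : ∀ i : I, pderiv (Sum.inr i) q = rename Sum.inl (p i)) (S : Finset I)
    (hS : ∀ i, i ∉ S → p i = 0) :
    ∃ r : MvPolynomial J R, q = rename Sum.inl r +
      ∑ i ∈ S, rename Sum.inl (p i) * X (Sum.inr i) := by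
  classical
  obtain ⟨r, hr⟩ := of_pd_zero (q - ∑ i ∈ S, rename Sum.inl (p i) * X (Sum.inr i)) (by
    intro i
    rw [map_sub, h i, map_sum]
    have : ∀ j ∈ S, pderiv (Sum.inr i : J ⊕ I)
        (rename Sum.inl (p j) * X (Sum.inr j)) = if j = i then rename Sum.inl (p i) else 0 := by
      intro j _
      rw [Derivation.leibniz, pd_ren, smul_zero, add_zero, pderiv_X]
      by_cases hji : j = i
      · subst hji
        simp
      · rw [if_neg hji, Pi.single_apply, if_neg (by simpa using hji), smul_zero]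
    rw [Finset.sum_congr rfl this, Finset.sum_ite_eq' S i]
    split_ifs with hi
    · rw [sub_self]
    · rw [hS i hi, map_zero, sub_zero])
  exact ⟨r, by rw [← hr, sub_add_cancel]⟩

/-- the change of charts -/
noncomputable def chg (D : I → R12) (nu : MvPolynomial J R12) :
    J ⊕ I → MvPolynomial (J ⊕ I) R12
  | .inl j => X (.inl j)
  | .inr a => X (.inr a) + C (D a) * rename Sum.inl nu

theorem pd_chg (D : I → R12) (nu : MvPolynomial J R12) (i : I) (G : MvPolynomial (J ⊕ I) R12) :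
    pderiv (Sum.inr i) (aeval (chg D nu) G) = aeval (chg D nu) (pderiv (Sum.inr i) G) := by
  classical
  have hv : ∀ v : J ⊕ I, pderiv (Sum.inr i) (chg D nu v) =
      aeval (chg D nu) (pderiv (Sum.inr i) (X v : MvPolynomial (J ⊕ I) R12)) := by
    rintro (j | a)
    · simp only [chg]
      rw [pderiv_X_of_ne (by simp), map_zero]
    · simp only [chg]
      rw [map_add, pderiv_C_mul, pd_ren, mul_zero, add_zero, pderiv_X]
      by_cases h : a = i
      · subst h
        simp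
      · rw [Pi.single_apply, if_neg (by simpa using h), map_zero]
  induction G using MvPolynomial.induction_on with
  | C a => rw [aeval_C, pderiv_C, map_zero, algebraMap_eq, pderiv_C]
  | add p q hp hq => rw [map_add, map_add, map_add, map_add, hp, hq]
  | mul_X p v hp =>
    rw [map_mul, aeval_X, Derivation.leibniz, Derivation.leibniz, hp, hv, map_add, smul_eq_mul,
      smul_eq_mul, smul_eq_mul, smul_eq_mul, map_mul, map_mul, aeval_X]

theorem tdeg_pd {R σ : Type*} [CommRing R] (v : σ) (q : MvPolynomial σ R) (h : pderiv v q ≠ 0) :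
    (pderiv v q).totalDegree < q.totalDegree := by
  classical
  have h1 : ∀ m ∈ (pderiv v q).support, m.degree + 1 ≤ q.totalDegree := by
    intro m hm
    have h2 : m + Finsupp.single v 1 ∈ q.support := by
      rw [mem_support_iff] at hm ⊢
      intro h3
      rw [coeff_pd, h3, mul_zero] at hm
      exact hm rfl
    have h3 := le_totalDegree h2
    have h4 : ((m + Finsupp.single v 1).sum fun _ e => e) = m.degree + 1 := by
      have : ((m + Finsupp.single v 1).sum fun _ e => e) = (m + Finsupp.single v 1).degree := rfl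
      rw [this, map_add, Finsupp.degree_single]
    omega
  obtain ⟨m, hm⟩ := support_nonempty.mpr h
  have hpos : 0 < q.totalDegree := by
    have := h1 m hm
    omega
  rw [totalDegree, Finset.sup_lt_iff hpos]
  intro m hm
  have := h1 m hm
  have h5 : (m.sum fun _ e => e) = m.degree := rfl
  rw [h5]
  omega

variable (i1 : R1 →ₐ[k] R12) (i2 : R2 →ₐ[k] R12) in
theorem main_alg [CharZero k] [IsDomain R12] (h1 : Function.Injective i1)
    (h2 : Function.Injective i2) (e : R12) (D : I → R12) (r0 ri : R1) (s0 si : R2)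
    (hr : r0 * ri = 1) (hs : s0 * si = 1) (h : i1 r0 = e * i2 s0)
    (ind : ∀ (a : R1) (b : R2) (c : I →₀ k),
      i1 a + e * i2 b + (c.sum fun i t => t • D i) = 0 →
        c = 0 ∧ ∃ t : k, a = t • r0 ∧ b = -(t • s0))
    (lam : MvPolynomial J k) (hlam : lam ≠ 0) (nu : MvPolynomial J R12)
    (hnu : C (i1 r0) * nu = - map (algebraMap k R12) lam) :
    ∀ (N : ℕ) (f : MvPolynomial (J ⊕ I) R1) (g : MvPolynomial (J ⊕ I) R2), g.totalDegree < N →
      map (i1 : R1 →+* R12) f = aeval (chg D nu) (map (i2 : R2 →+* R12) g) →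
      ∃ q : MvPolynomial J k, f = rename Sum.inl (map (algebraMap k R1) q) ∧
        g = rename Sum.inl (map (algebraMap k R2) q) := by
  classical
  have : IsDomain R1 := h1.isDomain (i1 : R1 →+* R12)
  have : IsDomain R2 := h2.isDomain (i2 : R2 →+* R12)
  have ik1 : Function.Injective (algebraMap k R1) := (algebraMap k R1).injective
  have ik2 : Function.Injective (algebraMap k R2) := (algebraMap k R2).injective
  have : CharZero R1 := charZero_of_injective_algebraMap ik1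
  have : CharZero R2 := charZero_of_injective_algebraMap ik2
  intro N
  induction N with
  | zero => intro f g hg; omega
  | succ N ih =>
    intro f g hg hfg
    -- the derivatives
    have hp : ∀ i : I, ∃ q : MvPolynomial J k,
        pderiv (Sum.inr i) f = rename Sum.inl (map (algebraMap k R1) q) ∧
        pderiv (Sum.inr i) g = rename Sum.inl (map (algebraMap k R2) q) := by
      intro i
      have h3 : map (i1 : R1 →+* R12) (pderiv (Sum.inr i) f) =
          aeval (chg D nu) (map (i2 : R2 →+* R12) (pderiv (Sum.inr i) g)) := by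
        rw [← pderiv_map, ← pderiv_map, hfg, pd_chg]
      by_cases h4 : pderiv (Sum.inr i) g = 0
      · refine ⟨0, ?_, ?_⟩
        · rw [h4, map_zero, map_zero] at h3
          have h5 : pderiv (Sum.inr i) f = 0 := map_injective (i1 : R1 →+* R12) h1 (by
            rw [h3, map_zero])
          rw [h5, map_zero, map_zero]
        · rw [h4, map_zero, map_zero]
      · exact ih _ _ (lt_of_lt_of_le (tdeg_pd _ _ h4) (Nat.lt_succ_iff.mp hg)) h3
    choose p hp1 hp2 using hp
    let S : Finset I := g.vars.toRight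
    have hS : ∀ i, i ∉ S → p i = 0 := by
      intro i hi
      have h3 : pderiv (Sum.inr i) g = 0 := by
        apply pderiv_eq_zero_of_notMem_vars
        intro h4
        exact hi (by simpa [S] using h4)
      have h5 := hp2 i
      rw [h3] at h5
      have h6 : map (algebraMap k R2) (p i) = 0 := rename_injective _ Sum.inl_injective (by
        rw [← h5, map_zero])
      exact map_injective _ ik2 (by rw [h6, map_zero])
    obtain ⟨f0, hf0⟩ := lin f (fun i => map (algebraMap k R1) (p i)) hp1 S (fun i hi => by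
      simp only [hS i hi, map_zero])
    obtain ⟨g0, hg0⟩ := lin g (fun i => map (algebraMap k R2) (p i)) hp2 S (fun i hi => by
      simp only [hS i hi, map_zero])
    -- the equation
    have hcm : ∀ (q : MvPolynomial J R12), aeval (chg D nu) (rename Sum.inl q) =
        rename (Sum.inl : J → J ⊕ I) q := by
      intro q
      rw [aeval_rename]
      induction q using MvPolynomial.induction_on with
      | C a => simp
      | add p q hp hq => rw [map_add, map_add, hp, hq]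
      | mul_X p v hp => rw [map_mul, map_mul, hp, aeval_X, rename_X]; rfl
    have e1 : map (i1 : R1 →+* R12) f0 = map (i2 : R2 →+* R12) g0 +
        ∑ i ∈ S, map (algebraMap k R12) (p i) * (C (D i) * nu) := by
      apply rename_injective (Sum.inl : J → J ⊕ I) Sum.inl_injective
      have e2 := hfg
      rw [hf0, hg0] at e2
      simp only [map_add, map_sum, map_mul, map_rename, hcm, map_X, aeval_X, chg, map_map,
        AlgHom.comp_algebraMap] at e2 ⊢
      simp only [mul_add, Finset.sum_add_distrib] at e2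
      simp only [rename_C]
      linear_combination e2
    have e3 : ∀ m : J →₀ ℕ, (∀ i ∈ S, coeff m (p i * lam) = 0) ∧ ∃ t : k,
        coeff m f0 = algebraMap k R1 t ∧ coeff m g0 = algebraMap k R2 t := by
      intro m
      let c : I →₀ k := ∑ i ∈ S, Finsupp.single i (coeff m (p i * lam))
      have hc : (c.sum fun i t => t • D i) = ∑ i ∈ S, coeff m (p i * lam) • D i := by
        have : (c.sum fun i t => t • D i) = Finsupp.linearCombination k D c := rfl
        rw [this, map_sum]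
        apply Finset.sum_congr rfl
        intro i _
        rw [Finsupp.linearCombination_single]
      have h3 := congrArg (fun F => C (i1 r0) * F) e1
      rw [mul_add, Finset.mul_sum] at h3
      have h4 : ∀ i ∈ S, C (i1 r0) * (map (algebraMap k R12) (p i) * (C (D i) * nu)) =
          - (C (D i) * map (algebraMap k R12) (p i * lam)) := by
        intro i _
        rw [map_mul]
        linear_combination (map (algebraMap k R12) (p i) * C (D i)) * hnu
      rw [Finset.sum_congr rfl h4] at h3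
      have h5 := congrArg (coeff m) h3
      rw [coeff_C_mul, coeff_map, coeff_add, coeff_C_mul, coeff_map, coeff_sum] at h5
      simp only [coeff_neg, coeff_C_mul, coeff_map] at h5
      have h6 : i1 (r0 * coeff m f0) + e * i2 (-(s0 * coeff m g0)) +
          (c.sum fun i t => t • D i) = 0 := by
        rw [hc, map_mul, map_neg, map_mul]
        have h7 : ∀ i ∈ S, coeff m (p i * lam) • D i =
            D i * algebraMap k R12 (coeff m (p i * lam)) := by
          intro i _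
          rw [Algebra.smul_def, mul_comm]
        rw [Finset.sum_congr rfl h7]
        rw [Finset.sum_neg_distrib] at h5
        have h8 : ∀ x : R1, (i1 : R1 →+* R12) x = i1 x := fun _ => rfl
        have h9 : ∀ x : R2, (i2 : R2 →+* R12) x = i2 x := fun _ => rfl
        rw [h8, h9] at h5
        linear_combination h5 + i2 (coeff m g0) * h
      obtain ⟨hc0, t, ht1, ht2⟩ := ind _ _ _ h6
      refine ⟨fun i hi => ?_, t, ?_, ?_⟩
      · have h8 := DFunLike.congr_fun hc0 i
        simp only [c, Finsupp.coe_finsetSum, Finset.sum_apply, Finsupp.coe_zero,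
          Pi.zero_apply] at h8
        rw [Finset.sum_eq_single i] at h8
        · simpa using h8
        · intro j _ hji
          rw [Finsupp.single_apply, if_neg hji]
        · intro h9
          exact absurd hi h9
      · rw [Algebra.smul_def] at ht1
        linear_combination ri * ht1 + (algebraMap k R1 t - coeff m f0) * hr
      · rw [Algebra.smul_def] at ht2
        linear_combination (-si) * ht2 + (algebraMap k R2 t - coeff m g0) * hs
    have hp0 : ∀ i, p i = 0 := by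
      intro i
      by_cases hi : i ∈ S
      · have h3 : p i * lam = 0 := by
          ext m
          rw [(e3 m).1 i hi, coeff_zero]
        exact (mul_eq_zero.mp h3).resolve_right hlam
      · exact hS i hi
    have h3 : f0 ∈ Set.range (map (algebraMap k R1)) := by
      rw [mem_range_map_iff_coeffs_subset]
      intro x hx
      obtain ⟨m, _, rfl⟩ := (mem_coeffs_iff).mp hx
      obtain ⟨t, ht, _⟩ := (e3 m).2
      exact ⟨t, ht.symm⟩
    obtain ⟨q, hq⟩ := h3
    have hg : g0 = map (algebraMap k R2) q := by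
      ext m
      obtain ⟨t, ht1, ht2⟩ := (e3 m).2
      rw [ht2, coeff_map]
      rw [← hq, coeff_map] at ht1
      rw [ik1 ht1]
    refine ⟨q, ?_, ?_⟩
    · rw [hf0, hq]
      simp [hp0]
    · rw [hg0, hg]
      simp [hp0]

end Pool.Agent.MG.ALG1

open CategoryTheory CategoryTheory.Limits AlgebraicGeometry TensorProduct

namespace Pool.Agent.MG

open MvPolynomial in
theorem t_ALG1 : Stmt_ALG1 := by
  classical
  intro k _ _ T E hdom h1 h2 _ ι D hD n i₀ c hc f g hfg
  let J := {i : Fin n // i ≠ i₀}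
  let lam : MvPolynomial J k := ∑ i : J, C (c i.1) * X i
  have hlam : lam ≠ 0 := by
    obtain ⟨i, hi, hci⟩ := hc
    intro h0
    have h3 := congrArg (coeff (Finsupp.single (⟨i, hi⟩ : J) 1)) h0
    simp only [lam] at h3
    rw [coeff_sum, Finset.sum_eq_single (⟨i, hi⟩ : J), coeff_C_mul, coeff_X, coeff_zero] at h3
    · simp at h3
      exact hci h3
    · intro b _ hb
      rw [coeff_C_mul, coeff_X', if_neg, mul_zero]
      intro h4
      exact hb (Finsupp.single_left_injective one_ne_zero h4)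
    · intro h4
      exact absurd (Finset.mem_univ _) h4
  let nu : MvPolynomial J T.R12 := -∑ i : J, C (algebraMap k T.R12 (c i.1) * T.j1 E.ri) * X i
  have hnu : C (T.j1 E.r0) * nu = - map (algebraMap k T.R12) lam := by
    have h3 : T.j1 E.r0 * T.j1 E.ri = 1 := by rw [← map_mul, E.hr, map_one]
    simp only [nu, lam]
    rw [mul_neg, Finset.mul_sum, map_sum]
    congr 1
    apply Finset.sum_congr rfl
    intro i _
    have h4 : MvPolynomial.map (algebraMap k T.R12) (C (c i.1) * X i : MvPolynomial J k) =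
        C (algebraMap k T.R12 (c i.1)) * X i := by
      rw [_root_.map_mul, MvPolynomial.map_C, MvPolynomial.map_X]
    have h5 : (C (T.j1 E.r0) : MvPolynomial J T.R12) * C (T.j1 E.ri) = 1 := by
      rw [← MvPolynomial.C_mul, h3, MvPolynomial.C_1]
    rw [h4, MvPolynomial.C_mul]
    linear_combination (C (algebraMap k T.R12 (c i.1)) * X i) * h5
  have hchg : chgW E D i₀ c = ALG1.chg D nu := by
    funext v
    rcases v with j | a
    · rfl
    · simp only [chgW, ALG1.chg, nuv, nu]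
      rw [map_neg, map_sum]
      simp only [map_mul, rename_C, rename_X, C_mul]
      rfl
  rw [hchg] at hfg
  obtain ⟨q, hq, _⟩ := ALG1.main_alg T.j1 T.j2 h1 h2 T.e D E.r0 E.ri E.s0 E.si E.hr E.hs E.h
    hD.ind lam hlam nu hnu (g.totalDegree + 1) f g (Nat.lt_succ_self _) hfg
  exact ⟨q, hq⟩

end Pool.Agent.MG


end

section

/-!
# REP: stability of curves with a marked point replaced
-/

open CategoryTheory CategoryTheory.Limits AlgebraicGeometry TensorProduct

namespace Pool.Agent.MG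

namespace REP

theorem spMap_id {k : Type} [Field k] : spMap (algebraMap k k) = 𝟙 (Sp k) := by
  exact Spec.map_id _

/-- Arrows to constant families. -/
theorem arrow_const {n : ℕ} {k : Type} [Field k] (C : Fam n k) (B : Type) [CommRing B]
    [Algebra k B] (τ : Fin n → (Sp B ⟶ C.X)) (hτ : ∀ i, τ i ≫ C.π = spMap (algebraMap k B))
    (B' : Type) [CommRing B'] (s : B →+* B') (y : Fam n B') (g : y.X ⟶ C.X)
    (hg : IsPullback g y.π C.π (spMap s ≫ spMap (algebraMap k B)))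
    (hs : ∀ i, y.σ i ≫ g = spMap s ≫ τ i) : Nonempty (Arrow s y (constFam C B τ hτ)) := by
  have hw : g ≫ C.π = (y.π ≫ spMap s) ≫ spMap (algebraMap k B) := by
    rw [hg.w, Category.assoc]
  have hfst : pullback.lift g (y.π ≫ spMap s) hw ≫
      pullback.fst C.π (spMap (algebraMap k B)) = g := pullback.lift_fst _ _ _
  have hsnd : pullback.lift g (y.π ≫ spMap s) hw ≫
      pullback.snd C.π (spMap (algebraMap k B)) = y.π ≫ spMap s :=
    pullback.lift_snd _ _ _
  refine ⟨{ f := pullback.lift g (y.π ≫ spMap s) hw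
            cart := ?_
            sec := ?_ }⟩
  · refine IsPullback.of_right (h₁₂ := pullback.fst C.π (spMap (algebraMap k B)))
      (v₁₃ := C.π) (h₂₂ := spMap (algebraMap k B)) ?_ hsnd (IsPullback.of_hasPullback _ _)
    rw [hfst]
    exact hg
  · intro i
    have hsec : y.σ i ≫ pullback.lift g (y.π ≫ spMap s) hw =
        spMap s ≫ pullback.lift (f := C.π) (g := spMap (algebraMap k B)) (τ i)
          (𝟙 (Sp B)) (by rw [hτ, Category.id_comp]) := by
      apply pullback.hom_ext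
      · rw [Category.assoc, hfst, hs, Category.assoc, pullback.lift_fst]
      · rw [Category.assoc, hsnd, ← Category.assoc, y.sec, Category.id_comp, Category.assoc,
          pullback.lift_snd, Category.comp_id]
    exact hsec

instance epi_spMap {k K : Type} [Field k] [Field K] (s : k →+* K) : Epi (spMap s) := by
  have hff : (CommRingCat.ofHom s).hom.FaithfullyFlat := by
    algebraize [s]
    change Module.FaithfullyFlat k K
    infer_instance
  obtain ⟨h1, h2⟩ := (AlgebraicGeometry.flat_and_surjective_SpecMap_iff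
    (CommRingCat.ofHom s)).mpr hff
  exact Flat.epi_of_flat_of_surjective _

end REP

theorem t_REP (hCSTW : Stmt_CSTW) : Stmt_REP := by
  intro n k _ _ g C hC hsm T ch E i₀ j hj q hq hne
  have hid : spMap (algebraMap k k) = 𝟙 (Sp k) := REP.spMap_id
  have hdis : ∀ i i' : Fin n, i ≠ i' → C.σ i ≠ C.σ i' := by
    have := hC.fib k (RingHom.id k) C ⟨{ f := 𝟙 _, cart := ?_, sec := ?_ }⟩
    · exact this.distinct
    · have h1 : spMap (RingHom.id k) = 𝟙 (Sp k) := Spec.map_id _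
      rw [h1]
      exact IsPullback.of_id_fst
    · intro i
      have h1 : spMap (RingHom.id k) = 𝟙 (Sp k) := Spec.map_id _
      rw [h1, Category.comp_id, Category.id_comp]
  have hdis2 : ∀ i i' : Fin n, i ≠ i' → (C.rep i₀ q hq).σ i ≠ (C.rep i₀ q hq).σ i' := by
    intro i i' hii'
    change Function.update C.σ i₀ q i ≠ Function.update C.σ i₀ q i'
    by_cases h1 : i = i₀
    · subst h1
      rw [Function.update_self, Function.update_of_ne (Ne.symm hii')]
      exact hne i' (Ne.symm hii')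
    · rw [Function.update_of_ne h1]
      by_cases h2 : i' = i₀
      · subst h2
        rw [Function.update_self]
        exact (hne i hii').symm
      · rw [Function.update_of_ne h2]
        exact hdis i i' hii'
  have hτ : ∀ i, (C.rep i₀ q hq).σ i ≫ C.π = spMap (algebraMap k k) := by
    intro i
    rw [hid]
    exact (C.rep i₀ q hq).sec i
  have hst : IsStable g (constFam C k (C.rep i₀ q hq).σ hτ) := by
    refine hCSTW g C hC hsm T ch j (E.hv ch.h0 (ch.pt j)) k (C.rep i₀ q hq).σ hτ ?_ ?_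
    · rw [hid, Category.id_comp]
      change Function.update C.σ i₀ q j = C.σ j
      rw [Function.update_of_ne hj]
    · intro K _ _ s i i' hii' h
      exact hdis2 i i' hii' ((cancel_epi (spMap s)).mp h)
  refine { proper := hC.proper, flat := hC.flat, fp := hC.fp, fib := ?_ }
  intro K _ _ s z ⟨a⟩
  refine hst.fib K s z ?_
  refine REP.arrow_const C k (C.rep i₀ q hq).σ hτ K s z a.f ?_ a.sec
  rw [hid, Category.comp_id]
  exact a.cart

end Pool.Agent.MG


end
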