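import Mathlib
import Pool.Agent.KDM.C01
import Pool.Agent.KDM.C02
import Pool.Agent.KDM.C03
import Pool.Agent.KDM.C06
import Pool.Agent.KDM.C07

/-! Parts: MG.GLUR, MG.GLUT, MG.PBS, MG.CONN, MG.Bub.Conn, M0n.Dim, M0n.Quad, MG.WL.ARW, MG.WL.Tools, MG.G0.KAU, MG.G0.KDU, MG.KX.DefsK, MG.KX.StmtsK, MG.KX.KAR, MG.KX.KGC, MG.KX.KPX -/

section

/-!
# GLU, ring part
-/

open CategoryTheory CategoryTheory.Limits AlgebraicGeometry TensorProduct

namespace Pool.Agent.MG.GLU

section

variable {k E J : Type} [Field k] [CommRing E] [Algebra k E] [Fintype J] (S : SqE k E J)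
  (hS : ∀ c, algebraMap k E c = S.i c)

/-- The projection as a homomorphism of algebras. -/
def pA : E →ₐ[k] k :=
  { S.p with
    commutes' := fun c => by
      change S.p (algebraMap k E c) = c
      rw [hS, S.pi] }

variable (R : Type) [CommRing R] [Algebra k R]

/-- Reduction modulo the kernel of the extension. -/
noncomputable def red : E ⊗[k] R →ₐ[k] R :=
  (Algebra.TensorProduct.lid k R : k ⊗[k] R →ₐ[k] R).comp
    (Algebra.TensorProduct.map (pA S hS) (AlgHom.id k R))

theorem red_tmul (e : E) (r : R) : red S hS R (e ⊗ₜ r) = S.p e • r := by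
  simp [red, pA]

theorem decompE (e : E) : ∃ b : J → k, e = S.i (S.p e) + ∑ j, S.ε j * S.i (b j) := by
  obtain ⟨b, hb⟩ := S.ex (e - S.i (S.p e)) (by rw [map_sub, S.pi, sub_self])
  exact ⟨b, by rw [← hb]; ring⟩

include hS in
theorem decomp (v : E ⊗[k] R) : ∃ b : J → R,
    v = 1 ⊗ₜ red S hS R v + ∑ j, (S.ε j) ⊗ₜ[k] (b j) := by
  induction v with
  | zero => exact ⟨0, by simp⟩
  | tmul e r =>
    obtain ⟨b, hb⟩ := decompE S e
    refine ⟨fun j => b j • r, ?_⟩
    rw [red_tmul]
    conv_lhs => rw [hb]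
    rw [TensorProduct.add_tmul, TensorProduct.sum_tmul]
    congr 1
    · rw [← hS, TensorProduct.tmul_smul, TensorProduct.smul_tmul', Algebra.algebraMap_eq_smul_one]
    · refine Finset.sum_congr rfl fun j _ => ?_
      rw [← hS, TensorProduct.tmul_smul, TensorProduct.smul_tmul', Algebra.smul_def, mul_comm]
  | add u v hu hv =>
    obtain ⟨b, hb⟩ := hu
    obtain ⟨c, hc⟩ := hv
    refine ⟨b + c, ?_⟩
    conv_lhs => rw [hb, hc]
    simp only [map_add, TensorProduct.tmul_add, Pi.add_apply, Finset.sum_add_distrib]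
    abel

include hS in
theorem eps_un (c : J → R) (h : ∑ j, (S.ε j) ⊗ₜ[k] (c j) = 0) (l : J) : c l = 0 := by
  classical
  let f : (J → k) →ₗ[k] E := ∑ j, (LinearMap.proj j).smulRight (S.ε j)
  have hf : ∀ a, f a = ∑ j, S.ε j * S.i (a j) := by
    intro a
    simp only [f, LinearMap.sum_apply, LinearMap.smulRight_apply, LinearMap.proj_apply]
    refine Finset.sum_congr rfl fun j _ => ?_
    rw [Algebra.smul_def, hS, mul_comm]
  obtain ⟨g, hg⟩ := f.exists_leftInverse_of_injective (by
    rw [LinearMap.ker_eq_bot']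
    intro a ha
    rw [hf] at ha
    exact S.un a ha)
  have h1 : ∀ j, g (S.ε j) = Pi.single j 1 := by
    intro j
    have h2 : f (Pi.single j 1) = S.ε j := by
      rw [hf, Finset.sum_eq_single j]
      · simp
      · intro i _ hi
        simp [Pi.single_apply, hi]
      · simp
    rw [← h2]
    exact LinearMap.congr_fun hg (Pi.single j 1)
  let L : E ⊗[k] R →ₗ[k] R := (TensorProduct.lid k R).toLinearMap ∘ₗ
    TensorProduct.map ((LinearMap.proj l) ∘ₗ g) LinearMap.id
  have h3 : L (∑ j, (S.ε j) ⊗ₜ[k] (c j)) = c l := by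
    rw [map_sum, Finset.sum_eq_single l]
    · simp [L, h1]
    · intro j _ hj
      have : (Pi.single j 1 : J → k) l = 0 := by
        simp [Pi.single_apply, hj.symm]
      simp [L, h1, this]
    · simp
  rw [← h3, h, map_zero]

include hS in
theorem red_surjective : Function.Surjective (red S hS R) := by
  intro r
  exact ⟨1 ⊗ₜ r, by rw [red_tmul]; simp⟩

theorem eps_mul (j : J) (v : E ⊗[k] R) :
    (S.ε j ⊗ₜ[k] (1 : R)) * v = (S.ε j) ⊗ₜ[k] red S hS R v := by
  obtain ⟨b, hb⟩ := decomp S hS R v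
  conv_lhs => rw [hb]
  rw [mul_add, Finset.mul_sum, Finset.sum_eq_zero, add_zero]
  · simp
  · intro i _
    rw [Algebra.TensorProduct.tmul_mul_tmul, S.mul, TensorProduct.zero_tmul]

include hS in
theorem red_ker (v : E ⊗[k] R) (hv : red S hS R v = 0) :
    ∃ w : J → E ⊗[k] R, v = ∑ j, (S.ε j ⊗ₜ[k] (1 : R)) * w j := by
  obtain ⟨b, hb⟩ := decomp S hS R v
  refine ⟨fun j => 1 ⊗ₜ b j, ?_⟩
  rw [hv, TensorProduct.tmul_zero, zero_add] at hb
  rw [hb]
  refine Finset.sum_congr rfl fun j _ => ?_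
  simp

include hS in
theorem red_un (w : J → E ⊗[k] R) (hw : ∑ j, (S.ε j ⊗ₜ[k] (1 : R)) * w j = 0) (j : J) :
    red S hS R (w j) = 0 := by
  refine eps_un S hS R (fun j => red S hS R (w j)) ?_ j
  rw [← hw]
  exact Finset.sum_congr rfl fun j _ => (eps_mul S hS R j (w j)).symm

include hS in
theorem red_nil (v : E ⊗[k] R) (hv : red S hS R v = 0) : v * v = 0 := by
  obtain ⟨w, hw⟩ := red_ker S hS R v hv
  conv_lhs => arg 1; rw [hw]
  rw [Finset.sum_mul]
  refine Finset.sum_eq_zero fun j _ => ?_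
  rw [mul_assoc, mul_comm (w j) v, ← mul_assoc, eps_mul S hS, hv]
  simp

end

section

variable {k E J : Type} [Field k] [CommRing E] [Algebra k E] [Fintype J] (S : SqE k E J)
  (hS : ∀ c, algebraMap k E c = S.i c)
  {R : Type} [CommRing R] [Algebra k R] (dd : Derivation k R R) (h : J → R)

/-- The twist on `R`. -/
noncomputable def tw0 : R →ₐ[k] E ⊗[k] R where
  toFun a := 1 ⊗ₜ a + ∑ j, (S.ε j) ⊗ₜ[k] (h j * dd a)
  map_one' := by simp [Algebra.TensorProduct.one_def]
  map_mul' a b := by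
    have h1 : (∑ j, (S.ε j) ⊗ₜ[k] (h j * dd a)) * (∑ j, (S.ε j) ⊗ₜ[k] (h j * dd b)) = 0 := by
      rw [Finset.sum_mul_sum]
      refine Finset.sum_eq_zero fun i _ => Finset.sum_eq_zero fun j _ => ?_
      rw [Algebra.TensorProduct.tmul_mul_tmul, S.mul, TensorProduct.zero_tmul]
    have h2 : (1 ⊗ₜ[k] a + ∑ j, (S.ε j) ⊗ₜ[k] (h j * dd a)) *
        (1 ⊗ₜ[k] b + ∑ j, (S.ε j) ⊗ₜ[k] (h j * dd b)) =
        1 ⊗ₜ[k] (a * b) + (1 ⊗ₜ[k] a * ∑ j, (S.ε j) ⊗ₜ[k] (h j * dd b) +
          (∑ j, (S.ε j) ⊗ₜ[k] (h j * dd a)) * 1 ⊗ₜ[k] b) := by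
      have h3 : (1 : E) ⊗ₜ[k] a * 1 ⊗ₜ[k] b = 1 ⊗ₜ[k] (a * b) := by simp
      rw [← h3]
      linear_combination h1
    rw [h2]
    congr 1
    rw [Finset.mul_sum, Finset.sum_mul, ← Finset.sum_add_distrib]
    refine Finset.sum_congr rfl fun j _ => ?_
    rw [Algebra.TensorProduct.tmul_mul_tmul, Algebra.TensorProduct.tmul_mul_tmul, one_mul, mul_one,
      ← TensorProduct.tmul_add, Derivation.leibniz]
    congr 1
    simp only [smul_eq_mul]
    ring
  map_zero' := by simp
  map_add' a b := by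
    simp only [map_add, mul_add, TensorProduct.tmul_add, Finset.sum_add_distrib]
    abel
  commutes' c := by
    simp only [Derivation.map_algebraMap, mul_zero, TensorProduct.tmul_zero,
      Finset.sum_const_zero, add_zero, Algebra.TensorProduct.algebraMap_apply]
    rw [Algebra.algebraMap_eq_smul_one, Algebra.algebraMap_eq_smul_one, TensorProduct.tmul_smul,
      TensorProduct.smul_tmul']

theorem tw0_apply (a : R) : tw0 S dd h a = 1 ⊗ₜ a + ∑ j, (S.ε j) ⊗ₜ[k] (h j * dd a) := rfl

/-- The twist. -/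
noncomputable def tw : E ⊗[k] R →ₐ[k] E ⊗[k] R :=
  Algebra.TensorProduct.lift Algebra.TensorProduct.includeLeft (tw0 S dd h)
    (fun _ _ => Commute.all _ _)

theorem tw_tmul (e : E) (a : R) : tw S dd h (e ⊗ₜ a) = (e ⊗ₜ 1) * tw0 S dd h a := by
  simp [tw]

theorem tw_left (e : E) : tw S dd h (e ⊗ₜ 1) = e ⊗ₜ 1 := by
  rw [tw_tmul, map_one, mul_one]

theorem tw_right (a : R) : tw S dd h (1 ⊗ₜ a) = 1 ⊗ₜ a + ∑ j, (S.ε j) ⊗ₜ[k] (h j * dd a) := by
  rw [tw_tmul, ← Algebra.TensorProduct.one_def, one_mul, tw0_apply]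

theorem tw_eps (j : J) (a : R) : tw S dd h ((S.ε j) ⊗ₜ a) = (S.ε j) ⊗ₜ a := by
  rw [tw_tmul, tw0_apply, mul_add, Finset.mul_sum, Finset.sum_eq_zero]
  · simp
  · intro i _
    rw [Algebra.TensorProduct.tmul_mul_tmul, S.mul, TensorProduct.zero_tmul]

theorem tw_neg (v : E ⊗[k] R) : tw S dd h (tw S dd (-h) v) = v := by
  have : (tw S dd h).comp (tw S dd (-h)) = AlgHom.id k _ := by
    apply Algebra.TensorProduct.ext
    · ext e
      simp only [AlgHom.comp_apply, Algebra.TensorProduct.includeLeft_apply, tw_left,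
        AlgHom.id_apply, AlgHom.coe_comp, Function.comp_apply]
    · ext a
      simp only [AlgHom.comp_apply, AlgHom.restrictScalars_apply,
        Algebra.TensorProduct.includeRight_apply, tw_right, map_add, map_sum, map_neg, tw_eps,
        AlgHom.id_apply, Pi.neg_apply, neg_mul, TensorProduct.tmul_neg, Finset.sum_neg_distrib,
        add_neg_cancel_right, AlgHom.coe_comp, Function.comp_apply]
  exact DFunLike.congr_fun this v

/-- The twist as an automorphism. -/
noncomputable def twE : E ⊗[k] R ≃ₐ[k] E ⊗[k] R :=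
  AlgEquiv.ofAlgHom (tw S dd h) (tw S dd (-h)) (AlgHom.ext fun v => tw_neg S dd h v)
    (AlgHom.ext fun v => by
      have := tw_neg S dd (-h) v
      rw [neg_neg] at this
      exact this)

theorem red_tw (v : E ⊗[k] R) : red S hS R (tw S dd h v) = red S hS R v := by
  have : (red S hS R).comp (tw S dd h) = red S hS R := by
    apply Algebra.TensorProduct.ext
    · ext e
      simp [tw_left]
    · ext a
      have hp : ∀ j, S.p (S.ε j) = 0 := S.pe
      simp only [AlgHom.comp_apply, AlgHom.restrictScalars_apply,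
        Algebra.TensorProduct.includeRight_apply, tw_right, map_add, map_sum, red_tmul, hp,
        zero_smul, Finset.sum_const_zero, add_zero, AlgHom.coe_comp, Function.comp_apply]
  exact DFunLike.congr_fun this v

end

/-! ## Lifting points -/

section

variable {k E J : Type} [Field k] [CommRing E] [Algebra k E] [Fintype J] (S : SqE k E J)
  (hS : ∀ c, algebraMap k E c = S.i c)
  {R : Type} [CommRing R] [Algebra k R] (x : R)
  (et : (Polynomial.aeval x : Polynomial k →ₐ[k] R).toRingHom.Etale)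

include et hS in
theorem lift_pt (φ : R →ₐ[k] k) (z : E) (hz : S.p z = φ x) :
    ∃ φ' : R →ₐ[k] E, (∀ a, S.p (φ' a) = φ a) ∧ φ' x = z := by
  letI : Algebra (Polynomial k) R := (Polynomial.aeval x : Polynomial k →ₐ[k] R).toRingHom.toAlgebra
  letI : Algebra (Polynomial k) E := (Polynomial.aeval z : Polynomial k →ₐ[k] E).toRingHom.toAlgebra
  letI : Algebra (Polynomial k) k :=
    (Polynomial.aeval (φ x) : Polynomial k →ₐ[k] k).toRingHom.toAlgebra
  haveI : Algebra.Etale (Polynomial k) R := et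
  have hR : ∀ f : Polynomial k, algebraMap (Polynomial k) R f = Polynomial.aeval x f := fun _ => rfl
  have hE : ∀ f : Polynomial k, algebraMap (Polynomial k) E f = Polynomial.aeval z f := fun _ => rfl
  have hk : ∀ f : Polynomial k, algebraMap (Polynomial k) k f = Polynomial.aeval (φ x) f :=
    fun _ => rfl
  let F : R →ₐ[Polynomial k] k :=
    { (φ : R →+* k) with
      commutes' := fun f => by
        change φ (algebraMap (Polynomial k) R f) = algebraMap (Polynomial k) k f
        rw [hR, hk, Polynomial.aeval_algHom_apply] }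
  let G : E →ₐ[Polynomial k] k :=
    { (S.p : E →+* k) with
      commutes' := fun f => by
        change S.p (algebraMap (Polynomial k) E f) = algebraMap (Polynomial k) k f
        rw [hE, hk, ← hz]
        exact (Polynomial.aeval_algHom_apply (pA S hS) z f).symm }
  have hG : Function.Surjective G := S.p_surjective
  have hN : IsNilpotent (RingHom.ker (G : E →+* k)) := by
    refine ⟨2, ?_⟩
    rw [pow_two, Ideal.zero_eq_bot, eq_bot_iff, Ideal.mul_le]
    intro a ha b hb
    rw [RingHom.mem_ker] at ha hb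
    exact S.mul_of_p_eq_zero ha hb
  let L : R →ₐ[Polynomial k] E := Algebra.FormallySmooth.liftOfSurjective F G hG hN
  have hL : ∀ a, S.p (L a) = φ a := fun a =>
    Algebra.FormallySmooth.liftOfSurjective_apply F G hG hN a
  have hL2 : ∀ f : Polynomial k, L (Polynomial.aeval x f) = Polynomial.aeval z f := fun f => by
    rw [← hR, ← hE]
    exact L.commutes f
  refine ⟨{ (L : R →+* E) with commutes' := fun c => ?_ }, hL, ?_⟩
  · change L (algebraMap k R c) = algebraMap k E c
    have := hL2 (Polynomial.C c)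
    simpa using this
  · change L x = z
    have := hL2 Polynomial.X
    simpa using this

end

end Pool.Agent.MG.GLU


end

section

/-!
# GLU, geometric tools
-/

open CategoryTheory CategoryTheory.Limits AlgebraicGeometry TensorProduct

namespace Pool.Agent.MG.GLU

/-- Functions on an affine piece. -/
noncomputable def gm {A : Type} [CommRing A] {X : Scheme.{0}} (i : Sp A ⟶ X) (W : X.Opens)
    (h : ⊤ ≤ i ⁻¹ᵁ W) : Γ(X, W) →+* A :=
  (Scheme.ΓSpecIso (CommRingCat.of A)).hom.hom.comp (i.appLE W ⊤ h).hom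

theorem gm_bij {A : Type} [CommRing A] {X : Scheme.{0}} (i : Sp A ⟶ X) [IsOpenImmersion i]
    (W : X.Opens) (h : ⊤ ≤ i ⁻¹ᵁ W) (hW : i.opensRange = W) : Function.Bijective (gm i W h) := by
  have h1 : IsIso (i.appLE W ⊤ h) := by
    have hW' : W = i ''ᵁ ⊤ := by
      rw [← hW, Scheme.Hom.image_top_eq_opensRange]
    subst hW'
    rw [← Scheme.Hom.appIso_hom' i ⊤]
    infer_instance
  have h2 : Function.Bijective (i.appLE W ⊤ h).hom := ConcreteCategory.bijective_of_isIso _
  have h3 : Function.Bijective (Scheme.ΓSpecIso (CommRingCat.of A)).hom.hom :=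
    ConcreteCategory.bijective_of_isIso _
  exact h3.comp h2

theorem gm_nat {A A' : Type} [CommRing A] [CommRing A'] {X X' : Scheme.{0}} (f : X' ⟶ X)
    (i : Sp A ⟶ X) (i' : Sp A' ⟶ X') (u : A →+* A') (hc : i' ≫ f = spMap u ≫ i) (W : X.Opens)
    (W' : X'.Opens) (h : ⊤ ≤ i ⁻¹ᵁ W) (h' : ⊤ ≤ i' ⁻¹ᵁ W') (hf : W' ≤ f ⁻¹ᵁ W) (v : Γ(X, W)) :
    gm i' W' h' ((f.appLE W W' hf).hom v) = u (gm i W h v) := by
  have h1 := Scheme.Hom.appLE_comp_appLE i' f W W' ⊤ hf h'
  have h2 := Scheme.Hom.appLE_comp_appLE (spMap u) i W ⊤ ⊤ h le_top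
  have h3 : f.appLE W W' hf ≫ i'.appLE W' ⊤ h' =
      i.appLE W ⊤ h ≫ (spMap u).appLE ⊤ ⊤ le_top := by
    rw [h1, h2]
    simp only [hc]
  have h4 := ConcreteCategory.congr_hom h3 v
  change (Scheme.ΓSpecIso (CommRingCat.of A')).hom.hom
    ((f.appLE W W' hf ≫ i'.appLE W' ⊤ h') v) = _
  rw [h4]
  change _ = u ((Scheme.ΓSpecIso (CommRingCat.of A)).hom.hom ((i.appLE W ⊤ h).hom v))
  rw [← gs_spMap]
  congr 2

theorem gm_comp {A A' : Type} [CommRing A] [CommRing A'] {X : Scheme.{0}}
    (i : Sp A ⟶ X) (u : A →+* A') (i' : Sp A' ⟶ X) (hc : i' = spMap u ≫ i) (W : X.Opens)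
    (h : ⊤ ≤ i ⁻¹ᵁ W) (h' : ⊤ ≤ i' ⁻¹ᵁ W) (v : Γ(X, W)) :
    gm i' W h' v = u (gm i W h v) := by
  have := gm_nat (𝟙 X) i i' u (by rw [Category.comp_id, hc]) W W h h' le_rfl v
  rw [← this]
  congr 1
  have h1 : (𝟙 X : X ⟶ X).appLE W W le_rfl = 𝟙 _ := Scheme.Hom.appLE_eq_app _
  rw [h1]
  rfl

theorem gm_rs {A A' : Type} [CommRing A] [CommRing A'] {X : Scheme.{0}}
    (i : Sp A ⟶ X) (u : A →+* A') (i' : Sp A' ⟶ X) (hc : i' = spMap u ≫ i) {W W' : X.Opens}
    (hW : W' ≤ W) (h : ⊤ ≤ i ⁻¹ᵁ W) (h' : ⊤ ≤ i' ⁻¹ᵁ W') (v : Γ(X, W)) :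
    gm i' W' h' (rs X hW v) = u (gm i W h v) := by
  rw [← gm_comp i u i' hc W h (h'.trans (fun _ hx => hW hx)) v]
  change (Scheme.ΓSpecIso (CommRingCat.of A')).hom.hom
    ((X.presheaf.map (homOfLE hW).op ≫ i'.appLE W' ⊤ h') v) = _
  rw [Scheme.Hom.map_appLE]
  rfl

theorem gm_coef {A R : Type} [CommRing A] [CommRing R] {X : Scheme.{0}}
    (i : Sp R ⟶ X) (π : X ⟶ Sp A) (u : A →+* R) (hc : i ≫ π = spMap u) (W : X.Opens)
    (h : ⊤ ≤ i ⁻¹ᵁ W) (a : A) : gm i W h (coef π W a) = u a := by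
  change (Scheme.ΓSpecIso (CommRingCat.of R)).hom.hom
    ((i.appLE W ⊤ h).hom (coef π W a)) = _
  have h1 := coef_spMap u (𝟙 (Sp R)) ⊤ a
  rw [Category.id_comp] at h1
  rw [coef_comp, hc, h1, coef_id, gl_inv]

theorem eq_fromSpec {A : Type} [CommRing A] {X : Scheme.{0}} (f : Sp A ⟶ X) (U : X.Opens)
    (hU : IsAffineOpen U) (h : ⊤ ≤ f ⁻¹ᵁ U) :
    f = spMap (gm f U h) ≫ hU.fromSpec := by
  have h1 := hU.SpecMap_appLE_fromSpec f (isAffineOpen_top (Sp A)) h
  have h2 : spMap (gm f U h) = Spec.map (Scheme.ΓSpecIso (CommRingCat.of A)).hom ≫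
      Spec.map (f.appLE U ⊤ h) := by
    rw [← Spec.map_comp]
    rfl
  rw [h2, Category.assoc, h1, IsAffineOpen.fromSpec_top, Scheme.isoSpec_Spec_inv,
    ← Category.assoc, ← Spec.map_comp, Iso.inv_hom_id, Spec.map_id, Category.id_comp]

theorem gm_fromSpec {X : Scheme.{0}} (U : X.Opens) (hU : IsAffineOpen U)
    (h : ⊤ ≤ hU.fromSpec ⁻¹ᵁ U) (v : Γ(X, U)) :
    gm (A := Γ(X, U)) hU.fromSpec U h v = v := by
  have h1 := eq_fromSpec (A := Γ(X, U)) hU.fromSpec U hU h
  have h2 : spMap (gm (A := Γ(X, U)) hU.fromSpec U h) = 𝟙 _ := by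
    rw [← cancel_mono hU.fromSpec, Category.id_comp]
    exact h1.symm
  have h3 : CommRingCat.ofHom (gm (A := Γ(X, U)) hU.fromSpec U h) = 𝟙 _ := by
    apply Spec.map_injective
    rw [Spec.map_id]
    exact h2
  exact ConcreteCategory.congr_hom h3 v

/-- Separatedness of an infinitesimal thickening. -/
theorem sep_of_surj {X Y Z : Scheme.{0}} (m : X ⟶ Y) (p : Y ⟶ Z) [IsClosedImmersion m]
    [Surjective m] [IsSeparated (m ≫ p)] : IsSeparated p := by
  constructor
  refine IsClosedImmersion.of_isPreimmersion _ ?_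
  let M := pullback.map (m ≫ p) (m ≫ p) p p m m (𝟙 Z) (Category.comp_id _) (Category.comp_id _)
  have hM : IsClosedImmersion M :=
    MorphismProperty.pullbackMap (P := @IsClosedImmersion) (f := m ≫ p) (g := m ≫ p) (f' := p)
      (g' := p) inferInstance inferInstance rfl rfl
  have hMf : M ≫ pullback.fst p p = pullback.fst (m ≫ p) (m ≫ p) ≫ m := pullback.lift_fst _ _ _
  have hMs : M ≫ pullback.snd p p = pullback.snd (m ≫ p) (m ≫ p) ≫ m := pullback.lift_snd _ _ _
  have h1 : pullback.diagonal (m ≫ p) ≫ M = m ≫ pullback.diagonal p := by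
    apply pullback.hom_ext
    · rw [Category.assoc, hMf, ← Category.assoc, pullback.diagonal_fst, Category.id_comp,
        Category.assoc, pullback.diagonal_fst, Category.comp_id]
    · rw [Category.assoc, hMs, ← Category.assoc, pullback.diagonal_snd, Category.id_comp,
        Category.assoc, pullback.diagonal_snd, Category.comp_id]
  have h2 : Set.range (pullback.diagonal p) = M '' Set.range (pullback.diagonal (m ≫ p)) := by
    ext y
    constructor
    · rintro ⟨a, rfl⟩
      obtain ⟨b, rfl⟩ := m.surjective a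
      refine ⟨pullback.diagonal (m ≫ p) b, ⟨b, rfl⟩, ?_⟩
      rw [← Scheme.Hom.comp_apply, h1, Scheme.Hom.comp_apply]
    · rintro ⟨_, ⟨b, rfl⟩, rfl⟩
      refine ⟨m b, ?_⟩
      rw [← Scheme.Hom.comp_apply, ← h1, Scheme.Hom.comp_apply]
  rw [h2]
  exact M.isClosedEmbedding.isClosedMap _
    (pullback.diagonal (m ≫ p)).isClosedEmbedding.isClosed_range

/-- A scheme covered by two open pieces is their push out. -/
theorem glue_push {W X Y Z : Scheme.{0}} {f : W ⟶ X} {g : W ⟶ Y} [IsOpenImmersion f]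
    [IsOpenImmersion g] {i : X ⟶ Z} {j : Y ⟶ Z} [IsOpenImmersion i] [IsOpenImmersion j]
    (h : f ≫ i = g ≫ j) (cov : ∀ z : Z, z ∈ Set.range i ∨ z ∈ Set.range j)
    (inter : ∀ x y, i x = j y → ∃ w, f w = x ∧ g w = y) : IsPushout f g i j := by
  let p : (pushout f g : Scheme) ⟶ Z := pushout.desc i j h
  have hi : pushout.inl f g ≫ p = i := pushout.inl_desc _ _ _
  have hj : pushout.inr f g ≫ p = j := pushout.inr_desc _ _ _
  have q1 : IsPullback (pushout.inl f g) (𝟙 X) p i := by
    refine piece_isPullback (hY := 𝟙 Y) (j := j) (j' := pushout.inr f g)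
      (by rw [hi, Category.id_comp]) (by rw [hj, Category.id_comp]) (glue2_surj f g) ?_
    rintro y ⟨x, hx⟩
    obtain ⟨w, rfl, rfl⟩ := inter x y hx
    refine ⟨f w, ?_⟩
    rw [← Scheme.Hom.comp_apply, pushout.condition, Scheme.Hom.comp_apply]
  have q2 : IsPullback (pushout.inr f g) (𝟙 Y) p j := by
    refine piece_isPullback (hY := 𝟙 X) (j := i) (j' := pushout.inl f g)
      (by rw [hj, Category.id_comp]) (by rw [hi, Category.id_comp])
      (fun z => (glue2_surj f g z).symm) ?_
    rintro x ⟨y, hy⟩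
    obtain ⟨w, rfl, rfl⟩ := inter x y hy.symm
    refine ⟨g w, ?_⟩
    rw [← Scheme.Hom.comp_apply, ← pushout.condition, Scheme.Hom.comp_apply]
  have hiso : IsIso p := by
    refine two_target (MorphismProperty.isomorphisms Scheme) p i j cov q1 q2
      (MorphismProperty.isomorphisms.infer_property _)
      (MorphismProperty.isomorphisms.infer_property _)
  exact IsPushout.of_iso_pushout ⟨h⟩ (asIso p).symm (by simp [← hi]) (by simp [← hj])

section Alg

variable {k E : Type} [Field k] [CommRing E] [Algebra k E]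

/-- Base change of a homomorphism of algebras. -/
noncomputable def mE {R R' : Type} [CommRing R] [Algebra k R] [CommRing R'] [Algebra k R']
    (j : R →ₐ[k] R') : E ⊗[k] R →+* E ⊗[k] R' :=
  (Algebra.TensorProduct.map (AlgHom.id k E) j : E ⊗[k] R →ₐ[k] E ⊗[k] R')

theorem mE_tmul {R R' : Type} [CommRing R] [Algebra k R] [CommRing R'] [Algebra k R']
    (j : R →ₐ[k] R') (e : E) (r : R) : mE j (e ⊗ₜ[k] r) = e ⊗ₜ j r := rfl

/-- The structure map. -/
noncomputable def iL (E R : Type) [CommRing E] [Algebra k E] [CommRing R] [Algebra k R] :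
    E →+* E ⊗[k] R := Algebra.TensorProduct.includeLeftRingHom

theorem iL_apply {R : Type} [CommRing R] [Algebra k R] (e : E) : iL (k := k) E R e = e ⊗ₜ 1 := rfl

/-- The constant functions. -/
noncomputable def iR (E R : Type) [CommRing E] [Algebra k E] [CommRing R] [Algebra k R] :
    R →+* E ⊗[k] R := (Algebra.TensorProduct.includeRight : R →ₐ[k] E ⊗[k] R)

theorem iR_apply {R : Type} [CommRing R] [Algebra k R] (r : R) : iR (k := k) E R r = 1 ⊗ₜ r := rfl

theorem push0 (R : Type) [CommRing R] [Algebra k R] :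
    IsPushout (CommRingCat.ofHom (algebraMap k E)) (CommRingCat.ofHom (algebraMap k R))
      (CommRingCat.ofHom (iL (k := k) E R)) (CommRingCat.ofHom (iR (k := k) E R)) :=
  CommRingCat.isPushout_tensorProduct k E R

theorem push1 {R R' : Type} [CommRing R] [Algebra k R] [CommRing R'] [Algebra k R']
    (j : R →ₐ[k] R') :
    IsPushout (CommRingCat.ofHom (j : R →+* R')) (CommRingCat.ofHom (iR (k := k) E R))
      (CommRingCat.ofHom (iR (k := k) E R')) (CommRingCat.ofHom (mE (E := E) j)) := by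
  refine IsPushout.of_left (h₁₁ := CommRingCat.ofHom (algebraMap k R))
    (h₂₁ := CommRingCat.ofHom (iL (k := k) E R)) (v₁₁ := CommRingCat.ofHom (algebraMap k E))
    ?_ ?_ (push0 R).flip
  · have e1 : CommRingCat.ofHom (algebraMap k R) ≫ CommRingCat.ofHom (j : R →+* R') =
        CommRingCat.ofHom (algebraMap k R') := by
      rw [← CommRingCat.ofHom_comp]
      congr 1
      exact j.comp_algebraMap
    have e2 : CommRingCat.ofHom (iL (k := k) E R) ≫ CommRingCat.ofHom (mE (E := E) j) =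
        CommRingCat.ofHom (iL (k := k) E R') := by
      rw [← CommRingCat.ofHom_comp]
      congr 1
      ext e
      change mE j (e ⊗ₜ[k] (1 : R)) = e ⊗ₜ 1
      rw [mE_tmul, map_one]
    rw [e1, e2]
    exact (push0 R').flip
  · rw [← CommRingCat.ofHom_comp, ← CommRingCat.ofHom_comp]
    congr 1

theorem open1 {R R' : Type} [CommRing R] [Algebra k R] [CommRing R'] [Algebra k R']
    (j : R →ₐ[k] R') (hj : IsOpenImmersion (spMap (j : R →+* R'))) :
    IsOpenImmersion (spMap (mE (E := E) j)) :=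
  MorphismProperty.of_isPullback (isPullback_SpecMap_of_isPushout _ _ _ _ (push1 (E := E) j)) hj

variable {J : Type} [Fintype J] (S : SqE k E J) (hS : ∀ c, algebraMap k E c = S.i c)

include hS in
theorem push2 (R : Type) [CommRing R] [Algebra k R] :
    IsPushout (CommRingCat.ofHom S.p) (CommRingCat.ofHom (iL (k := k) E R))
      (CommRingCat.ofHom (algebraMap k R))
      (CommRingCat.ofHom (red S hS R : E ⊗[k] R →+* R)) := by
  refine IsPushout.of_left (h₁₁ := CommRingCat.ofHom (algebraMap k E))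
    (h₂₁ := CommRingCat.ofHom (iR (k := k) E R)) (v₁₁ := CommRingCat.ofHom (algebraMap k R))
    ?_ ?_ (push0 R)
  · have e1 : CommRingCat.ofHom (algebraMap k E) ≫ CommRingCat.ofHom S.p = 𝟙 _ := by
      rw [← CommRingCat.ofHom_comp, ← CommRingCat.ofHom_id]
      congr 1
      ext c
      change S.p (algebraMap k E c) = c
      rw [hS, S.pi]
    have e2 : CommRingCat.ofHom (iR (k := k) E R) ≫
        CommRingCat.ofHom (red S hS R : E ⊗[k] R →+* R) = 𝟙 _ := by
      rw [← CommRingCat.ofHom_comp, ← CommRingCat.ofHom_id]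
      congr 1
      ext r
      change red S hS R (1 ⊗ₜ r) = r
      rw [red_tmul, map_one, one_smul]
    rw [e1, e2]
    exact IsPushout.of_horiz_isIso ⟨by simp⟩
  · rw [← CommRingCat.ofHom_comp, ← CommRingCat.ofHom_comp]
    congr 1
    ext e
    change algebraMap k R (S.p e) = red S hS R (e ⊗ₜ 1)
    rw [red_tmul, Algebra.algebraMap_eq_smul_one]

end Alg

end Pool.Agent.MG.GLU


end

section

/-!
# PBS: stable families and their thickenings can be pulled back
-/

open CategoryTheory CategoryTheory.Limits AlgebraicGeometry TensorProduct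

namespace Pool.Agent.MG

namespace PBS

theorem spMap_comp {A B C : Type} [CommRing A] [CommRing B] [CommRing C] (φ : A →+* B)
    (ψ : B →+* C) : spMap (ψ.comp φ) = spMap ψ ≫ spMap φ := by
  unfold spMap
  rw [← Spec.map_comp]
  rfl

/-- Composition of arrows. -/
noncomputable def comp {n : ℕ} {A B C : Type} [CommRing A] [CommRing B] [CommRing C]
    {φ : A →+* B} {ψ : B →+* C} {z : Fam n C} {y : Fam n B} {x : Fam n A} (a : Arrow ψ z y)
    (b : Arrow φ y x) : Arrow (ψ.comp φ) z x where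
  f := a.f ≫ b.f
  cart := by
    rw [spMap_comp]
    exact a.cart.paste_horiz b.cart
  sec i := by
    rw [spMap_comp, reassoc_of% a.sec i, b.sec i, Category.assoc]

section

variable {n : ℕ} {A B : Type} [CommRing A] [CommRing B] (φ : A →+* B) (x : Fam n A)

/-- The base change of a family. -/
noncomputable def bc : Fam n B where
  X := pullback x.π (spMap φ)
  π := pullback.snd _ _
  σ i := pullback.lift (spMap φ ≫ x.σ i) (𝟙 _) (by
    rw [Category.assoc, x.sec, Category.comp_id, Category.id_comp])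
  sec i := pullback.lift_snd _ _ _

/-- The arrow of a base change. -/
noncomputable def bcArrow : Arrow φ (bc φ x) x where
  f := pullback.fst _ _
  cart := IsPullback.of_hasPullback x.π (spMap φ)
  sec _ := pullback.lift_fst _ _ _

theorem bc_stable {g : ℕ} (h : IsStable g x) : IsStable g (bc φ x) where
  proper := by
    have := h.proper
    change IsProper (pullback.snd x.π (spMap φ))
    infer_instance
  flat := by
    have := h.flat
    change Flat (pullback.snd x.π (spMap φ))
    infer_instance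
  fp := by
    have := h.fp
    change LocallyOfFinitePresentation (pullback.snd x.π (spMap φ))
    infer_instance
  fib k _ _ s z := by
    rintro ⟨a⟩
    exact h.fib k (s.comp φ) z ⟨comp a (bcArrow φ x)⟩

end

theorem p_comp {B E J E' J' : Type} [CommRing B] [CommRing E] [Fintype J] [CommRing E']
    [Fintype J'] {S : SqE B E J} {S' : SqE B E' J'} {m : J → J' → B}
    (Φ : SqHom S S' (RingHom.id B) m) : S'.p.comp Φ.Φ = S.p := by
  ext z
  have h0 : S.p (z - S.i (S.p z)) = 0 := by rw [map_sub, S.pi, sub_self]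
  obtain ⟨b, hb⟩ := S.ex _ h0
  have hz : z = S.i (S.p z) + ∑ j, S.ε j * S.i (b j) := by rw [← hb]; abel
  change S'.p (Φ.Φ z) = S.p z
  have h1 : S'.p (Φ.Φ (S.i (S.p z) + ∑ j, S.ε j * S.i (b j))) = S.p z := by
    rw [map_add, map_add, Φ.hi, S'.pi, RingHom.id_apply, map_sum, map_sum, Finset.sum_eq_zero,
      add_zero]
    intro j _
    rw [map_mul, map_mul, Φ.he, map_sum, Finset.sum_eq_zero, zero_mul]
    intro l _
    rw [map_mul, S'.pe, zero_mul]
  rw [← hz] at h1
  exact h1

end PBS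

open _root_.Pool.Agent.MG.PBS in
theorem t_PBS : Stmt_PBS := by
  intro n B E J E' J' _ _ _ _ _ S S' m Φ x t g hg
  have hp : spMap S.p = spMap S'.p ≫ spMap Φ.Φ := by rw [← spMap_comp, p_comp]
  have hw : t.r.f ≫ t.y.π = (x.π ≫ spMap S'.p) ≫ spMap Φ.Φ := by
    rw [t.r.cart.w, hp, Category.assoc]
  have hst := bc_stable Φ.Φ t.y hg
  let r : Arrow S'.p x (bc Φ.Φ t.y) :=
    { f := pullback.lift t.r.f (x.π ≫ spMap S'.p) hw
      cart := by
        refine IsPullback.of_right (h₁₂ := pullback.fst t.y.π (spMap Φ.Φ)) (v₁₃ := t.y.π)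
          (h₂₂ := spMap Φ.Φ) ?_ (pullback.lift_snd _ _ _) (bcArrow Φ.Φ t.y).cart
        rw [pullback.lift_fst, ← hp]
        exact t.r.cart
      sec := fun i => by
        apply pullback.hom_ext
        · change (x.σ i ≫ pullback.lift t.r.f (x.π ≫ spMap S'.p) hw) ≫ pullback.fst _ _ =
            (spMap S'.p ≫ pullback.lift (spMap Φ.Φ ≫ t.y.σ i) (𝟙 _) _) ≫ pullback.fst _ _
          rw [Category.assoc, Category.assoc, pullback.lift_fst, pullback.lift_fst, t.r.sec i, hp,
            Category.assoc]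
        · change (x.σ i ≫ pullback.lift t.r.f (x.π ≫ spMap S'.p) hw) ≫ pullback.snd _ _ =
            (spMap S'.p ≫ pullback.lift (spMap Φ.Φ ≫ t.y.σ i) (𝟙 _) _) ≫ pullback.snd _ _
          rw [Category.assoc, Category.assoc, pullback.lift_snd, pullback.lift_snd,
            reassoc_of% x.sec i, Category.comp_id] }
  exact ⟨⟨bc Φ.Φ t.y, hst.flat, r⟩, bcArrow Φ.Φ t.y, hst, pullback.lift_fst _ _ _⟩

end Pool.Agent.MG


end

section

/-!
# CON: constant families over fields are connected
-/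

open CategoryTheory CategoryTheory.Limits AlgebraicGeometry TensorProduct

namespace Pool.Agent.MG

namespace CON

open Classical in
/-- Functions on both charts with coefficients in `K` are constant. -/
theorem const_of_eq {k : Type} [Field k] {R1 R2 R12 : Type} [CommRing R1] [CommRing R2]
    [CommRing R12] [Algebra k R1] [Algebra k R2] [Algebra k R12] (j1 : R1 →ₐ[k] R12)
    (j2 : R2 →ₐ[k] R12) (hi : Function.Injective j2)
    (h0 : ∀ a b, j1 a = j2 b → ∃ c : k, a = algebraMap k R1 c)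
    (K : Type) [Field K] [Algebra k K] (u : K ⊗[k] R1) (v : K ⊗[k] R2)
    (h : Algebra.TensorProduct.map (AlgHom.id k K) j1 u =
      Algebra.TensorProduct.map (AlgHom.id k K) j2 v) :
    ∃ c : K, u = c ⊗ₜ 1 ∧ v = c ⊗ₜ 1 := by
  let b := Module.Basis.ofVectorSpace k K
  have key : ∀ (R R' : Type) [CommRing R] [CommRing R'] [Algebra k R] [Algebra k R']
      (j : R →ₐ[k] R') (w : K ⊗[k] R) (i : _),
      TensorProduct.equivFinsuppOfBasisLeft b (Algebra.TensorProduct.map (AlgHom.id k K) j w) i =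
        j (TensorProduct.equivFinsuppOfBasisLeft b w i) := by
    intro R R' _ _ _ _ j w i
    induction w with
    | zero => simp
    | tmul a r => simp
    | add x y hx hy => rw [map_add, map_add, map_add, Finsupp.add_apply, Finsupp.add_apply, hx, hy,
        map_add]
  have h1 : ∀ i, ∃ c : k, TensorProduct.equivFinsuppOfBasisLeft b u i = algebraMap k R1 c := by
    intro i
    refine h0 _ (TensorProduct.equivFinsuppOfBasisLeft b v i) ?_
    rw [← key, ← key, h]
  choose c hc using h1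
  have h2 : u = (∑ i ∈ (TensorProduct.equivFinsuppOfBasisLeft b u).support, c i • b i) ⊗ₜ 1 := by
    have h3 : u = (TensorProduct.equivFinsuppOfBasisLeft b).symm
        (TensorProduct.equivFinsuppOfBasisLeft b u) := by simp
    conv_lhs => rw [h3]
    rw [TensorProduct.equivFinsuppOfBasisLeft_symm_apply, Finsupp.sum, TensorProduct.sum_tmul]
    refine Finset.sum_congr rfl fun i _ => ?_
    rw [hc, TensorProduct.smul_tmul, Algebra.algebraMap_eq_smul_one]
  have hinj : Function.Injective (Algebra.TensorProduct.map (AlgHom.id k K) j2) :=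
    Module.Flat.lTensor_preserves_injective_linearMap (M := K) j2.toLinearMap hi
  generalize (∑ i ∈ (TensorProduct.equivFinsuppOfBasisLeft b u).support, c i • b i) = w at h2
  refine ⟨w, h2, ?_⟩
  apply hinj
  rw [← h, h2]
  simp

/-- A clopen set gives an idempotent function. -/
theorem exists_fun (X : Scheme.{0}) (A B : X.Opens) (h1 : A ⊔ B = ⊤) (h2 : A ⊓ B = ⊥) :
    ∃ e : Γ(X, ⊤), rs X (le_top : A ≤ ⊤) e = 1 ∧ rs X (le_top : B ≤ ⊤) e = 0 := by
  have hsub : Subsingleton Γ(X, A ⊓ B) := by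
    rw [h2]
    infer_instance
  let F : TopCat.Sheaf CommRingCat X := X.sheaf
  let e : Γ(X, A ⊔ B) := (F.objSupIsoProdEqLocus A B).inv
    (⟨((1 : Γ(X, A)), (0 : Γ(X, B))), hsub.elim _ _⟩ : RingHom.eqLocus _ _)
  have e1 : X.presheaf.map (homOfLE (le_sup_left : A ≤ A ⊔ B)).op e = 1 :=
    TopCat.Sheaf.objSupIsoProdEqLocus_inv_fst F A B _
  have e2 : X.presheaf.map (homOfLE (le_sup_right : B ≤ A ⊔ B)).op e = 0 :=
    TopCat.Sheaf.objSupIsoProdEqLocus_inv_snd F A B _
  refine ⟨rs X h1.ge e, ?_, ?_⟩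
  · change (X.presheaf.map (homOfLE _).op ≫ X.presheaf.map (homOfLE _).op) e = 1
    rw [← Functor.map_comp, ← op_comp]
    exact e1
  · change (X.presheaf.map (homOfLE _).op ≫ X.presheaf.map (homOfLE _).op) e = 0
    rw [← Functor.map_comp, ← op_comp]
    exact e2

theorem germ_rs (X : Scheme.{0}) (U : X.Opens) (x : X) (hx : x ∈ U) (e : Γ(X, ⊤)) :
    X.presheaf.germ ⊤ x trivial e = X.presheaf.germ U x hx (rs X le_top e) :=
  (X.presheaf.germ_res_apply (homOfLE le_top) x hx e).symm

theorem rs_rs (X : Scheme.{0}) {U V W : X.Opens} (h : U ≤ V) (h' : V ≤ W) (h'' : U ≤ W)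
    (e : Γ(X, W)) : rs X h (rs X h' e) = rs X h'' e := by
  change (X.presheaf.map (homOfLE _).op ≫ X.presheaf.map (homOfLE _).op) e = _
  rw [← Functor.map_comp, ← op_comp]
  rfl

end CON

open _root_.Pool.Agent.MG.CON in
theorem t_CON (hCHB : Stmt_CHB) : Stmt_CON := by
  intro n k _ C T ch hne K _ _ τ hτ
  obtain ⟨c, hc⟩ := hCHB ch.ct ch.aff K τ hτ
  have hdom := ch.dom
  have hnt12 : Nontrivial T.R12 := inferInstance
  have hnt1 : Nontrivial T.R1 := (T.j1 : T.R1 →+* T.R12).domain_nontrivial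
  have hn1 : Nontrivial (K ⊗[k] T.R1) := inferInstance
  have hG : Nontrivial Γ((constFam C K τ hτ).X, c.U1) := c.b1.1.nontrivial
  have hX : Nonempty (constFam C K τ hτ).X := by
    by_contra hemp
    rw [not_nonempty_iff] at hemp
    have h0 : c.U1 = ⊥ := by
      ext x
      exact hemp.elim x
    rw [h0] at hG
    exact not_subsingleton Γ((constFam C K τ hτ).X, ⊥) inferInstance
  have hpre : PreconnectedSpace (constFam C K τ hτ).X := by
    rw [preconnectedSpace_iff_clopen]
    intro s hs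
    obtain ⟨e, he1, he2⟩ := exists_fun (constFam C K τ hτ).X ⟨s, hs.isOpen⟩ ⟨sᶜ, hs.compl.isOpen⟩
      (by ext x; simp) (by ext x; simp)
    have hee : e * e = e := by
      refine (constFam C K τ hτ).X.sheaf.eq_of_locally_eq₂
        (homOfLE (le_top : (⟨s, hs.isOpen⟩ : (constFam C K τ hτ).X.Opens) ≤ ⊤))
        (homOfLE (le_top : (⟨sᶜ, hs.compl.isOpen⟩ : (constFam C K τ hτ).X.Opens) ≤ ⊤))
        ?_ _ _ ?_ ?_
      · intro x _
        by_cases hx : x ∈ s
        · exact Or.inl hx
        · exact Or.inr hx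
      · change rs _ _ (e * e) = rs _ _ e
        rw [map_mul, he1, one_mul]
      · change rs _ _ (e * e) = rs _ _ e
        rw [map_mul, he2, zero_mul]
    have hu : c.t1 (c.eq1.symm (rs _ le_top e)) = rs (constFam C K τ hτ).X le_top e :=
      c.eq1.apply_symm_apply _
    have hv : c.t2 (c.eq2.symm (rs _ le_top e)) = rs (constFam C K τ hτ).X le_top e :=
      c.eq2.apply_symm_apply _
    have hj : Algebra.TensorProduct.map (AlgHom.id k K) T.j1 (c.eq1.symm (rs _ le_top e)) =
        Algebra.TensorProduct.map (AlgHom.id k K) T.j2 (c.eq2.symm (rs _ le_top e)) := by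
      apply c.b12.1
      rw [← c.rs1, ← c.rs2, hu, hv, rs_rs _ _ _ le_top, rs_rs _ _ _ le_top]
    obtain ⟨a, ha1, ha2⟩ := const_of_eq T.j1 T.j2 ch.inj2 ch.h0 K _ _ hj
    rw [ha1] at hu
    rw [ha2] at hv
    have haa : a * a = a := by
      have h3 : c.t1 ((a * a) ⊗ₜ 1) = c.t1 (a ⊗ₜ 1) := by
        have h4 : ((a * a) ⊗ₜ[k] (1 : T.R1)) = (a ⊗ₜ 1) * (a ⊗ₜ 1) := by simp
        rw [h4, map_mul, hu, ← map_mul, hee]
      have h5 := c.b1.1 h3
      exact Algebra.TensorProduct.includeLeft_injective (S := k)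
        (FaithfulSMul.algebraMap_injective k T.R1) h5
    have hcase : a = 0 ∨ a = 1 := by
      rcases eq_or_ne a 0 with h | h
      · exact Or.inl h
      · exact Or.inr (mul_left_cancel₀ h (by rw [haa, mul_one]))
    have hcov : ∀ x : (constFam C K τ hτ).X, x ∈ c.U1 ∨ x ∈ c.U2 := by
      intro x
      have : x ∈ c.U1 ⊔ c.U2 := by rw [c.cover]; trivial
      exact this
    rcases hcase with rfl | rfl
    · left
      rw [Set.eq_empty_iff_forall_notMem]
      intro x hx
      have g1 := germ_rs (constFam C K τ hτ).X ⟨s, hs.isOpen⟩ x hx e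
      rw [he1, map_one] at g1
      rcases hcov x with h | h
      · have g2 := germ_rs (constFam C K τ hτ).X c.U1 x h e
        rw [← hu, TensorProduct.zero_tmul, map_zero, map_zero] at g2
        exact zero_ne_one (g2.symm.trans g1)
      · have g2 := germ_rs (constFam C K τ hτ).X c.U2 x h e
        rw [← hv, TensorProduct.zero_tmul, map_zero, map_zero] at g2
        exact zero_ne_one (g2.symm.trans g1)
    · right
      rw [Set.eq_univ_iff_forall]
      intro x
      by_contra hx
      have g1 := germ_rs (constFam C K τ hτ).X ⟨sᶜ, hs.compl.isOpen⟩ x hx e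
      rw [he2, map_zero] at g1
      rcases hcov x with h | h
      · have g2 := germ_rs (constFam C K τ hτ).X c.U1 x h e
        have h6 : ((1 : K) ⊗ₜ[k] (1 : T.R1)) = 1 := rfl
        rw [← hu, h6, map_one, map_one] at g2
        exact zero_ne_one (g1.symm.trans g2)
      · have g2 := germ_rs (constFam C K τ hτ).X c.U2 x h e
        have h6 : ((1 : K) ⊗ₜ[k] (1 : T.R2)) = 1 := rfl
        rw [← hv, h6, map_one, map_one] at g2
        exact zero_ne_one (g1.symm.trans g2)
  exact { toPreconnectedSpace := hpre, toNonempty := hX }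

end Pool.Agent.MG


end

section

/-!
# Charted families over fields are connected
-/

open CategoryTheory CategoryTheory.Limits AlgebraicGeometry TensorProduct

namespace Pool.Agent.MG

open CON in
/-- Every charted family over a field is connected. -/
theorem charted_connected {n : ℕ} {k : Type} [Field k] {C : Fam n k} {T : TC k} (ch : Cht C T)
    {K : Type} [Field K] [Algebra k K] {fm : Fam n K} (c : Charted T fm) : ConnectedSpace fm.X := by
  have hdom := ch.dom
  have hnt12 : Nontrivial T.R12 := inferInstance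
  have hnt1 : Nontrivial T.R1 := (T.j1 : T.R1 →+* T.R12).domain_nontrivial
  have hn1 : Nontrivial (K ⊗[k] T.R1) := inferInstance
  have hG : Nontrivial Γ(fm.X, c.U1) := c.b1.1.nontrivial
  have hX : Nonempty fm.X := by
    by_contra hemp
    rw [not_nonempty_iff] at hemp
    have h0 : c.U1 = ⊥ := by
      ext x
      exact hemp.elim x
    rw [h0] at hG
    exact not_subsingleton Γ(fm.X, ⊥) inferInstance
  have hpre : PreconnectedSpace fm.X := by
    rw [preconnectedSpace_iff_clopen]
    intro s hs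
    obtain ⟨e, he1, he2⟩ := exists_fun fm.X ⟨s, hs.isOpen⟩ ⟨sᶜ, hs.compl.isOpen⟩
      (by ext x; simp) (by ext x; simp)
    have hee : e * e = e := by
      refine fm.X.sheaf.eq_of_locally_eq₂
        (homOfLE (le_top : (⟨s, hs.isOpen⟩ : fm.X.Opens) ≤ ⊤))
        (homOfLE (le_top : (⟨sᶜ, hs.compl.isOpen⟩ : fm.X.Opens) ≤ ⊤))
        ?_ _ _ ?_ ?_
      · intro x _
        by_cases hx : x ∈ s
        · exact Or.inl hx
        · exact Or.inr hx
      · change rs _ _ (e * e) = rs _ _ e
        rw [map_mul, he1, one_mul]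
      · change rs _ _ (e * e) = rs _ _ e
        rw [map_mul, he2, zero_mul]
    have hu : c.t1 (c.eq1.symm (rs _ le_top e)) = rs fm.X le_top e :=
      c.eq1.apply_symm_apply _
    have hv : c.t2 (c.eq2.symm (rs _ le_top e)) = rs fm.X le_top e :=
      c.eq2.apply_symm_apply _
    have hj : Algebra.TensorProduct.map (AlgHom.id k K) T.j1 (c.eq1.symm (rs _ le_top e)) =
        Algebra.TensorProduct.map (AlgHom.id k K) T.j2 (c.eq2.symm (rs _ le_top e)) := by
      apply c.b12.1
      rw [← c.rs1, ← c.rs2, hu, hv, rs_rs _ _ _ le_top, rs_rs _ _ _ le_top]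
    obtain ⟨a, ha1, ha2⟩ := const_of_eq T.j1 T.j2 ch.inj2 ch.h0 K _ _ hj
    rw [ha1] at hu
    rw [ha2] at hv
    have haa : a * a = a := by
      have h3 : c.t1 ((a * a) ⊗ₜ 1) = c.t1 (a ⊗ₜ 1) := by
        have h4 : ((a * a) ⊗ₜ[k] (1 : T.R1)) = (a ⊗ₜ 1) * (a ⊗ₜ 1) := by simp
        rw [h4, map_mul, hu, ← map_mul, hee]
      have h5 := c.b1.1 h3
      exact Algebra.TensorProduct.includeLeft_injective (S := k)
        (FaithfulSMul.algebraMap_injective k T.R1) h5
    have hcase : a = 0 ∨ a = 1 := by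
      rcases eq_or_ne a 0 with h | h
      · exact Or.inl h
      · exact Or.inr (mul_left_cancel₀ h (by rw [haa, mul_one]))
    have hcov : ∀ x : fm.X, x ∈ c.U1 ∨ x ∈ c.U2 := by
      intro x
      have : x ∈ c.U1 ⊔ c.U2 := by rw [c.cover]; trivial
      exact this
    rcases hcase with rfl | rfl
    · left
      rw [Set.eq_empty_iff_forall_notMem]
      intro x hx
      have g1 := germ_rs fm.X ⟨s, hs.isOpen⟩ x hx e
      rw [he1, map_one] at g1
      rcases hcov x with h | h
      · have g2 := germ_rs fm.X c.U1 x h e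
        rw [← hu, TensorProduct.zero_tmul, map_zero, map_zero] at g2
        exact zero_ne_one (g2.symm.trans g1)
      · have g2 := germ_rs fm.X c.U2 x h e
        rw [← hv, TensorProduct.zero_tmul, map_zero, map_zero] at g2
        exact zero_ne_one (g2.symm.trans g1)
    · right
      rw [Set.eq_univ_iff_forall]
      intro x
      by_contra hx
      have g1 := germ_rs fm.X ⟨sᶜ, hs.compl.isOpen⟩ x hx e
      rw [he2, map_zero] at g1
      rcases hcov x with h | h
      · have g2 := germ_rs fm.X c.U1 x h e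
        have h6 : ((1 : K) ⊗ₜ[k] (1 : T.R1)) = 1 := rfl
        rw [← hu, h6, map_one, map_one] at g2
        exact zero_ne_one (g1.symm.trans g2)
      · have g2 := germ_rs fm.X c.U2 x h e
        have h6 : ((1 : K) ⊗ₜ[k] (1 : T.R2)) = 1 := rfl
        rw [← hv, h6, map_one, map_one] at g2
        exact zero_ne_one (g1.symm.trans g2)
  exact { toPreconnectedSpace := hpre, toNonempty := hX }

end Pool.Agent.MG


end

section

/-!
# MP_cc45c1_ag: the Krull dimension is at most the transcendence degree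
-/

set_option autoImplicit false

open MvPolynomial

namespace M0n

noncomputable section

/-- The evaluation of a polynomial in one more variable. -/
theorem aeval_cons {k R : Type*} [Field k] [CommRing R] [Algebra k R] {d : ℕ} (y : R)
    (x : Fin d → R) (P : MvPolynomial (Fin (d + 1)) k) :
    aeval (Fin.cons y x : Fin (d + 1) → R) P =
      (finSuccEquiv k d P).eval₂ (aeval x : MvPolynomial (Fin d) k →ₐ[k] R).toRingHom y := by
  induction P using MvPolynomial.induction_on with
  | C a =>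
    rw [finSuccEquiv_apply]
    simp
  | add P Q hP hQ => rw [map_add, hP, hQ, map_add, Polynomial.eval₂_add]
  | mul_X P i hP =>
    rw [map_mul, hP, map_mul, Polynomial.eval₂_mul, aeval_X]
    congr 1
    refine Fin.cases ?_ (fun i => ?_) i
    · rw [finSuccEquiv_X_zero]
      simp
    · rw [finSuccEquiv_X_succ]
      simp

/-- A chain of `d + 1` prime ideals gives `d` elements which are independent modulo the first
one. -/
theorem exists_indep {k R : Type*} [Field k] [CommRing R] [Algebra k R] :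
    ∀ (d : ℕ) (p : Fin (d + 1) → Ideal R), (∀ i, (p i).IsPrime) → StrictMono p →
      ∃ x : Fin d → R, ∀ P : MvPolynomial (Fin d) k, aeval x P ∈ p 0 → P = 0 := by
  intro d
  induction d with
  | zero =>
    intro p hp _
    refine ⟨Fin.elim0, fun P hP => ?_⟩
    obtain ⟨c, rfl⟩ := C_surjective (Fin 0) P
    by_contra hc
    have hc' : c ≠ 0 := by
      rintro rfl
      exact hc (map_zero _)
    apply (hp 0).ne_top
    rw [algHom_C] at hP
    exact Ideal.eq_top_of_isUnit_mem _ hP ((IsUnit.mk0 c hc').map (algebraMap k R))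
  | succ d ih =>
    intro p hp hlt
    obtain ⟨x', hx'⟩ := ih (fun i => p i.succ) (fun i => hp i.succ)
      (fun i j hij => hlt (Fin.succ_lt_succ_iff.mpr hij))
    have h01 : p 0 < p 1 := hlt (by simp)
    obtain ⟨y, hy1, hy0⟩ := Set.exists_of_ssubset h01
    refine ⟨Fin.cons y x', fun P hP => ?_⟩
    rw [aeval_cons] at hP
    have h1 : (Fin.succ 0 : Fin (d + 2)) = 1 := rfl
    simp only [h1] at hx'
    set Q := finSuccEquiv k d P with hQ
    by_contra hP0
    have hQ0 : Q ≠ 0 := by
      intro h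
      apply hP0
      rw [hQ] at h
      exact (map_eq_zero_iff _ (finSuccEquiv k d).injective).mp h
    set f := (aeval x' : MvPolynomial (Fin d) k →ₐ[k] R).toRingHom with hf
    have h2 : Polynomial.X ^ Q.natTrailingDegree ∣ Q := by
      rw [Polynomial.X_pow_dvd_iff]
      intro e he
      exact Polynomial.coeff_eq_zero_of_lt_natTrailingDegree he
    obtain ⟨Q', hQ'⟩ := h2
    have h3 : Q'.coeff 0 ≠ 0 := by
      have h4 : Q.coeff Q.natTrailingDegree ≠ 0 := by
        exact Polynomial.trailingCoeff_nonzero_iff_nonzero.mpr hQ0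
      intro h5
      apply h4
      generalize Q.natTrailingDegree = e at *
      rw [hQ', Polynomial.coeff_X_pow_mul', if_pos le_rfl, Nat.sub_self, h5]
    have h6 : Q'.eval₂ f y ∈ p 0 := by
      rw [hQ', Polynomial.eval₂_mul, Polynomial.eval₂_X_pow] at hP
      rcases (hp 0).mem_or_mem hP with h | h
      · exact absurd ((hp 0).mem_of_pow_mem _ h) hy0
      · exact h
    have h7 : Q'.eval₂ f y ∈ p 1 := h01.le h6
    have h8 : Q'.eval₂ f y = Q'.divX.eval₂ f y * y + f (Q'.coeff 0) := by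
      conv_lhs => rw [← Polynomial.divX_mul_X_add Q']
      rw [Polynomial.eval₂_add, Polynomial.eval₂_mul, Polynomial.eval₂_X, Polynomial.eval₂_C]
    rw [h8] at h7
    have h9 : f (Q'.coeff 0) ∈ p 1 :=
      (Ideal.add_mem_iff_right _ (Ideal.mul_mem_left _ _ hy1)).mp h7
    exact h3 (hx' _ h9)

/-- The Krull dimension of a subalgebra of a polynomial ring. -/
theorem krull_le {σ : Type} [Fintype σ] {R : Type} [CommRing R] [Algebra ℂ R]
    (φ : R →ₐ[ℂ] MvPolynomial σ ℂ) (hφ : Function.Injective φ) :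
    ringKrullDim R ≤ Fintype.card σ := by
  refine iSup_le fun s => ?_
  obtain ⟨x, hx⟩ := exists_indep (k := ℂ) s.length (fun i => (s i).asIdeal)
    (fun i => (s i).isPrime) (fun i j hij => s.strictMono hij)
  have h1 : AlgebraicIndependent ℂ x := by
    rw [algebraicIndependent_iff]
    intro P hP
    exact hx P (by rw [hP]; exact zero_mem _)
  have h2 : AlgebraicIndependent ℂ (φ ∘ x) := h1.map' hφ
  have h3 := h2.cardinalMk_le_trdeg
  rw [MvPolynomial.trdeg_of_isDomain] at h3
  simp only [Cardinal.lift_id, Cardinal.mk_fintype, Nat.cast_le, Fintype.card_fin] at h3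
  exact_mod_cast h3

theorem krull_le' {σ : Type} [Fintype σ] {A : Type} [CommRing A] [Algebra ℂ A]
    (R : Subalgebra ℂ A) (φ : R →ₐ[ℂ] MvPolynomial σ ℂ) (hφ : Function.Injective φ) :
    ringKrullDim R ≤ Fintype.card σ :=
  krull_le φ hφ

variable {m : ℕ}

/-- The polynomials in `t` and in the fibre coordinates, as tensors. -/
def Lam (m : ℕ) : MvPolynomial (Fin m ⊕ Fin m) ℂ →ₐ[ℂ] MvPolynomial (Fin m) (Fld m) :=
  aeval (Sum.elim (fun i => C (t i)) X)

theorem eval_Lam (G : MvPolynomial (Fin m ⊕ Fin m) ℂ) (p : Fin m → Fld m) :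
    eval p (Lam m G) = aeval (Sum.elim (s 0) p) G := by
  have h1 : ((aeval p : MvPolynomial (Fin m) (Fld m) →ₐ[Fld m] Fld m).restrictScalars ℂ).comp
      (Lam m) = (aeval (Sum.elim (s 0) p) : MvPolynomial (Fin m ⊕ Fin m) ℂ →ₐ[ℂ] Fld m) := by
    ext w
    rcases w with i | i
    · simp [Lam, s]
    · simp [Lam]
  exact DFunLike.congr_fun h1 G

theorem Lam_injective : Function.Injective (Lam m) := by
  have h1 : Lam m = (MvPolynomial.mapAlgHom (IsScalarTower.toAlgHom ℂ
      (MvPolynomial (Fin m) ℂ) (Fld m))).comp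
        ((sumAlgEquiv ℂ (Fin m) (Fin m)).toAlgHom.comp (rename Sum.swap)) := by
    ext1 w
    rcases w with i | i
    · simp [Lam, t]
    · simp [Lam]
  rw [h1]
  have h2 : Function.Injective (MvPolynomial.mapAlgHom (σ := Fin m)
      (IsScalarTower.toAlgHom ℂ (MvPolynomial (Fin m) ℂ) (Fld m))) :=
    map_injective _ (IsFractionRing.injective (MvPolynomial (Fin m) ℂ) (Fld m))
  exact h2.comp ((sumAlgEquiv ℂ (Fin m) (Fin m)).injective.comp
    (rename_injective _ Sum.swap_leftInverse.injective))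

theorem Reg_le : Reg m ≤ (Lam m).range := by
  intro f hf
  obtain ⟨G, hG⟩ := exists_poly hf
  refine ⟨G, ?_⟩
  apply MvPolynomial.funext
  intro p
  rw [← hG p]
  exact eval_Lam G p

/-- The tensors of `Reg m` as polynomials. -/
def toPoly (m : ℕ) : Reg m →ₐ[ℂ] MvPolynomial (Fin m ⊕ Fin m) ℂ :=
  ((AlgEquiv.ofInjective (Lam m) Lam_injective).symm.toAlgHom).comp (Subalgebra.inclusion Reg_le)

theorem Lam_toPoly (f : Reg m) : Lam m (toPoly m f) = f := by
  have h1 := (AlgEquiv.ofInjective (Lam m) Lam_injective).apply_symm_apply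
    (Subalgebra.inclusion Reg_le f)
  exact congrArg Subtype.val h1

theorem toPoly_injective : Function.Injective (toPoly m) := by
  intro f g h
  apply Subtype.ext
  rw [← Lam_toPoly f, ← Lam_toPoly g, h]

theorem toPoly_eq {G : MvPolynomial (Fin m ⊕ Fin m) ℂ} (hG : Lam m G ∈ Reg m) :
    toPoly m ⟨Lam m G, hG⟩ = G := by
  apply Lam_injective
  rw [Lam_toPoly]

/-- The standard bound `dim R_{0,n} ≤ 2 (n - 3)`. -/
theorem krull_reg_le (m : ℕ) : ringKrullDim (Reg m) ≤ (2 * m : ℕ) := by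
  have h1 : ringKrullDim (Reg m) ≤ Fintype.card (Fin m ⊕ Fin m) :=
    krull_le' (A := MvPolynomial (Fin m) (Fld m)) (Reg m) (toPoly m) toPoly_injective
  rw [Fintype.card_sum, Fintype.card_fin, ← two_mul] at h1
  exact h1

end

end M0n


end

section

/-!
# MP_cc45c1_ag: tensors of degree one and two
-/

set_option autoImplicit false

open MvPolynomial

namespace M0n

noncomputable section

variable {m : ℕ}

theorem br_swap (a b : Fin m ⊕ Fin 3) : br b a = -br a b := by
  simp only [br]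
  ring

theorem br_ne_zero {a b : Fin m ⊕ Fin 3} (h : a ≠ b) : br a b ≠ 0 := by
  have h0 : ∀ i : Fin m, t i ≠ 0 := fun i => by
    have := s_ne_zero 0 i
    simpa [s] using this
  have h1 : ∀ i : Fin m, t i - 1 ≠ 0 := fun i => by
    have := s_ne_zero 1 i
    simpa [s] using this
  have h2 : ∀ i j : Fin m, i ≠ j → t i - t j ≠ 0 := by
    intro i j hij h
    rw [t, t, ← map_sub, map_eq_zero_iff _ (IsFractionRing.injective _ _)] at h
    exact hij (X_injective (sub_eq_zero.mp h))
  rcases a with i | a <;> rcases b with j | b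
  · have h3 : i ≠ j := fun h' => h (by rw [h'])
    simpa [br, pt] using h2 i j h3
  · fin_cases b
    · simpa [br, pt] using h0 i
    · simpa [br, pt] using h1 i
    · simp [br, pt]
  · fin_cases a
    · simpa [br, pt] using h0 j
    · have h3 := h1 j
      simp only [br, pt, Sum.elim_inl, Sum.elim_inr]
      simp
      intro h4
      apply h3
      linear_combination -h4
    · simp [br, pt]
  · fin_cases a <;> fin_cases b
    · exact absurd rfl h
    · simp [br, pt]
    · simp [br, pt]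
    · simp [br, pt]
    · exact absurd rfl h
    · simp [br, pt]
    · simp [br, pt]
    · simp [br, pt]
    · exact absurd rfl h

theorem cr_ne_zero (q : Fin 4 ↪ Fin m ⊕ Fin 3) : cr q ≠ 0 := by
  have h : ∀ i j : Fin 4, i ≠ j → br (q i) (q j) ≠ 0 := fun i j hij =>
    br_ne_zero (q.injective.ne hij)
  exact div_ne_zero (mul_ne_zero (h 0 2 (by decide)) (h 1 3 (by decide)))
    (mul_ne_zero (h 0 3 (by decide)) (h 1 2 (by decide)))

/-- The permuted quadruple. -/
def per (σ : Equiv.Perm (Fin 4)) (q : Fin 4 ↪ Fin m ⊕ Fin 3) : Fin 4 ↪ Fin m ⊕ Fin 3 :=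
  σ.toEmbedding.trans q

theorem cr_per_01 (q : Fin 4 ↪ Fin m ⊕ Fin 3) : cr (per (Equiv.swap 0 1) q) = (cr q)⁻¹ := by
  have h0 : Equiv.swap (0 : Fin 4) 1 0 = 1 := by decide
  have h1 : Equiv.swap (0 : Fin 4) 1 1 = 0 := by decide
  have h2 : Equiv.swap (0 : Fin 4) 1 2 = 2 := by decide
  have h3 : Equiv.swap (0 : Fin 4) 1 3 = 3 := by decide
  simp only [cr, per, Function.Embedding.trans_apply, Equiv.coe_toEmbedding, h0, h1, h2, h3]
  rw [inv_div]
  ring

theorem cr_per_23 (q : Fin 4 ↪ Fin m ⊕ Fin 3) : cr (per (Equiv.swap 2 3) q) = (cr q)⁻¹ := by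
  have h0 : Equiv.swap (2 : Fin 4) 3 0 = 0 := by decide
  have h1 : Equiv.swap (2 : Fin 4) 3 1 = 1 := by decide
  have h2 : Equiv.swap (2 : Fin 4) 3 2 = 3 := by decide
  have h3 : Equiv.swap (2 : Fin 4) 3 3 = 2 := by decide
  simp only [cr, per, Function.Embedding.trans_apply, Equiv.coe_toEmbedding, h0, h1, h2, h3]
  rw [inv_div]

theorem cr_per_12 (q : Fin 4 ↪ Fin m ⊕ Fin 3) : cr (per (Equiv.swap 1 2) q) = 1 - cr q := by
  have h0 : Equiv.swap (1 : Fin 4) 2 0 = 0 := by decide
  have h1 : Equiv.swap (1 : Fin 4) 2 1 = 2 := by decide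
  have h2 : Equiv.swap (1 : Fin 4) 2 2 = 1 := by decide
  have h3 : Equiv.swap (1 : Fin 4) 2 3 = 3 := by decide
  have h : ∀ i j : Fin 4, i ≠ j → br (q i) (q j) ≠ 0 := fun i j hij =>
    br_ne_zero (q.injective.ne hij)
  have e1 := h 0 3 (by decide)
  have e2 := h 1 2 (by decide)
  simp only [cr, per, Function.Embedding.trans_apply, Equiv.coe_toEmbedding, h0, h1, h2, h3]
  rw [br_swap (q 1) (q 2)]
  have e3 : br (q 0) (q 1) * br (q 2) (q 3) - br (q 0) (q 2) * br (q 1) (q 3) +
      br (q 0) (q 3) * br (q 1) (q 2) = 0 := by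
    simp only [br]
    ring
  field_simp
  linear_combination -e3

theorem per_mul (σ τ : Equiv.Perm (Fin 4)) (q : Fin 4 ↪ Fin m ⊕ Fin 3) :
    per (σ * τ) q = per τ (per σ q) := by
  ext1 i
  rfl

theorem per_one (q : Fin 4 ↪ Fin m ⊕ Fin 3) : per 1 q = q := by
  ext1 i
  rfl

/-- A property of rational functions which is stable under `u ↦ u⁻¹` and `u ↦ 1 - u` and holds
for one cross ratio holds for all the cross ratios of the same four points. -/
theorem per_induction {P : Fld m → Prop} (h1 : ∀ u, u ≠ 0 → P u → P u⁻¹)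
    (h2 : ∀ u, P u → P (1 - u)) (σ : Equiv.Perm (Fin 4)) :
    ∀ q : Fin 4 ↪ Fin m ⊕ Fin 3, P (cr q) → P (cr (per σ q)) := by
  have hσ : σ ∈ Submonoid.closure
      (Set.range fun i : Fin 3 => Equiv.swap (i.castSucc) (i.succ)) := by
    rw [Equiv.Perm.mclosure_swap_castSucc_succ]
    trivial
  induction hσ using Submonoid.closure_induction with
  | mem σ hσ =>
    obtain ⟨i, rfl⟩ := hσ
    intro q hq
    fin_cases i
    · show P (cr (per (Equiv.swap 0 1) q))
      rw [cr_per_01]
      exact h1 _ (cr_ne_zero q) hq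
    · show P (cr (per (Equiv.swap 1 2) q))
      rw [cr_per_12]
      exact h2 _ hq
    · show P (cr (per (Equiv.swap 2 3) q))
      rw [cr_per_23]
      exact h1 _ (cr_ne_zero q) hq
  | one =>
    intro q hq
    rw [per_one]
    exact hq
  | mul σ τ _ _ hσ hτ =>
    intro q hq
    rw [per_mul]
    exact hτ _ (hσ q hq)

theorem exists_per {q q' : Fin 4 ↪ Fin m ⊕ Fin 3} (h : Set.range q = Set.range q') :
    ∃ σ, q = per σ q' := by
  let σ : Equiv.Perm (Fin 4) := (Equiv.ofInjective q q.injective).trans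
    ((Equiv.setCongr h).trans (Equiv.ofInjective q' q'.injective).symm)
  refine ⟨σ, ?_⟩
  ext1 i
  have h1 := (Equiv.ofInjective q' q'.injective).apply_symm_apply
    ((Equiv.setCongr h) ((Equiv.ofInjective q q.injective) i))
  exact (congrArg Subtype.val h1).symm

/-- The bilinear form on differentials given by a matrix. -/
def bil (T : Fin m → Fin m → Fld m) (g h : Fld m) : Fld m :=
  ∑ i, ∑ j, T i j * pd i g * pd j h

theorem bil_symm {T : Fin m → Fin m → Fld m} (hT : ∀ i j, T i j = T j i) (g h : Fld m) :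
    bil T g h = bil T h g := by
  rw [bil, bil, Finset.sum_comm]
  refine Finset.sum_congr rfl fun i _ => Finset.sum_congr rfl fun j _ => ?_
  rw [hT j i]
  ring

theorem bil_add (T : Fin m → Fin m → Fld m) (g g' h : Fld m) :
    bil T (g + g') h = bil T g h + bil T g' h := by
  simp only [bil, map_add, ← Finset.sum_add_distrib]
  refine Finset.sum_congr rfl fun i _ => Finset.sum_congr rfl fun j _ => ?_
  ring

theorem bil_mul (T : Fin m → Fin m → Fld m) (g g' h : Fld m) :
    bil T (g * g') h = g * bil T g' h + g' * bil T g h := by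
  simp only [bil, Derivation.leibniz, smul_eq_mul, Finset.mul_sum, ← Finset.sum_add_distrib]
  refine Finset.sum_congr rfl fun i _ => Finset.sum_congr rfl fun j _ => ?_
  ring

theorem bil_algebraMap (T : Fin m → Fin m → Fld m) (c : ℂ) (h : Fld m) :
    bil T (algebraMap ℂ (Fld m) c) h = 0 := by
  simp only [bil, Derivation.map_algebraMap, mul_zero, zero_mul, Finset.sum_const_zero]

theorem bil_inv (T : Fin m → Fin m → Fld m) (g h : Fld m) :
    bil T g⁻¹ h = -(g⁻¹ ^ 2) * bil T g h := by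
  simp only [bil, Derivation.leibniz_inv, smul_eq_mul, Finset.mul_sum]
  refine Finset.sum_congr rfl fun i _ => Finset.sum_congr rfl fun j _ => ?_
  ring

theorem bil_one_sub (T : Fin m → Fin m → Fld m) (g h : Fld m) :
    bil T (1 - g) h = -bil T g h := by
  have h1 := bil_add T (1 - g) g h
  have h2 := bil_algebraMap T 1 h
  rw [sub_add_cancel] at h1
  rw [map_one] at h2
  linear_combination h2 - h1

/-- The bilinear form is a polynomial of degree at most two in `u` and in `v`. -/
def Quad (T : Fin m → Fin m → Fld m) (u v : Fld m) : Prop :=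
  ∃ c : Fin 3 → Fin 3 → ℂ, bil T u v =
    ∑ i : Fin 3, ∑ j : Fin 3, algebraMap ℂ (Fld m) (c i j) * u ^ (i : ℕ) * v ^ (j : ℕ)

theorem Quad.inv {T : Fin m → Fin m → Fld m} {u v : Fld m} (h0 : u ≠ 0) (h : Quad T u v) :
    Quad T u⁻¹ v := by
  obtain ⟨c, hc⟩ := h
  refine ⟨fun i j => -c (Fin.rev i) j, ?_⟩
  rw [bil_inv, hc]
  simp only [Fin.sum_univ_three]
  have e0 : Fin.rev (0 : Fin 3) = 2 := rfl
  have e1 : Fin.rev (1 : Fin 3) = 1 := rfl
  have e2 : Fin.rev (2 : Fin 3) = 0 := rfl
  simp only [e0, e1, e2, map_neg, Fin.val_zero, Fin.val_one, Fin.val_two, pow_zero, pow_one,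
    mul_one]
  field_simp
  ring

theorem Quad.one_sub {T : Fin m → Fin m → Fld m} {u v : Fld m} (h : Quad T u v) :
    Quad T (1 - u) v := by
  obtain ⟨c, hc⟩ := h
  refine ⟨fun i j => ![-(c 0 j + c 1 j + c 2 j), c 1 j + 2 * c 2 j, -c 2 j] i, ?_⟩
  rw [bil_one_sub, hc]
  simp only [Fin.sum_univ_three, Matrix.cons_val_zero, Matrix.cons_val_one, Matrix.cons_val,
    map_neg, map_add, map_mul, map_ofNat, Fin.val_zero, Fin.val_one, Fin.val_two, pow_zero,
    pow_one, mul_one]
  ring

theorem Quad.symm {T : Fin m → Fin m → Fld m} (hT : ∀ i j, T i j = T j i) {u v : Fld m}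
    (h : Quad T u v) : Quad T v u := by
  obtain ⟨c, hc⟩ := h
  refine ⟨fun i j => c j i, ?_⟩
  rw [bil_symm hT, hc, Finset.sum_comm]
  refine Finset.sum_congr rfl fun i _ => Finset.sum_congr rfl fun j _ => ?_
  ring

theorem Quad.mem {T : Fin m → Fin m → Fld m} {u v : Fld m} (h : Quad T u v)
    {A : Subalgebra ℂ (Fld m)} (hu : u ∈ A) (hv : v ∈ A) : bil T u v ∈ A := by
  obtain ⟨c, hc⟩ := h
  rw [hc]
  exact sum_mem fun i _ => sum_mem fun j _ =>
    mul_mem (mul_mem (A.algebraMap_mem _) (pow_mem hu _)) (pow_mem hv _)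

/-- The tensor of degree two with matrix `T`. -/
def tensor (T : Fin m → Fin m → Fld m) : MvPolynomial (Fin m) (Fld m) :=
  ∑ i, ∑ j, C (T i j) * X i * X j

theorem tensor_mem {T : Fin m → Fin m → Fld m} (hT : ∀ i j, T i j = T j i)
    (h : ∀ q q', Quad T (cr q) (cr q')) : tensor T ∈ Reg m := by
  intro S g hg
  have h1 : eval (fun i => pd i g) (tensor T) = bil T g g := by
    rw [tensor, bil, map_sum]
    refine Finset.sum_congr rfl fun i _ => ?_
    rw [map_sum]
    refine Finset.sum_congr rfl fun j _ => ?_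
    simp
  rw [h1]
  have key : ∀ u v, u ∈ (cr '' S ∪ (fun q => (cr q)⁻¹) '' Sᶜ : Set (Fld m)) →
      v ∈ (cr '' S ∪ (fun q => (cr q)⁻¹) '' Sᶜ : Set (Fld m)) → bil T u v ∈ chart m S := by
    intro u v hu hv
    refine Quad.mem ?_ (Algebra.subset_adjoin hu) (Algebra.subset_adjoin hv)
    have h2 : ∀ u, u ∈ (cr '' S ∪ (fun q => (cr q)⁻¹) '' Sᶜ : Set (Fld m)) →
        ∃ q, u = cr q := by
      rintro u (⟨q, -, rfl⟩ | ⟨q, -, rfl⟩)
      · exact ⟨q, rfl⟩
      · exact ⟨per (Equiv.swap 0 1) q, (cr_per_01 q).symm⟩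
    obtain ⟨q, rfl⟩ := h2 u hu
    obtain ⟨q', rfl⟩ := h2 v hv
    exact h q q'
  have key2 : ∀ g ∈ chart m S, ∀ v,
      v ∈ (cr '' S ∪ (fun q => (cr q)⁻¹) '' Sᶜ : Set (Fld m)) → bil T g v ∈ chart m S := by
    intro g hg v hv
    induction hg using Algebra.adjoin_induction with
    | mem u hu => exact key u v hu hv
    | algebraMap c =>
      rw [bil_algebraMap]
      exact zero_mem _
    | add a b _ _ ha hb =>
      rw [bil_add]
      exact add_mem ha hb
    | mul a b ha' hb' ha hb =>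
      rw [bil_mul]
      exact add_mem (mul_mem ha' hb) (mul_mem hb' ha)
  have key3 : ∀ g ∈ chart m S, ∀ h ∈ chart m S, bil T h g ∈ chart m S := by
    intro g hg h hh
    induction hh using Algebra.adjoin_induction with
    | mem u hu =>
      rw [bil_symm hT]
      exact key2 g hg u hu
    | algebraMap c =>
      rw [bil_algebraMap]
      exact zero_mem _
    | add a b _ _ ha hb =>
      rw [bil_add]
      exact add_mem ha hb
    | mul a b ha' hb' ha hb =>
      rw [bil_mul]
      exact add_mem (mul_mem ha' hb) (mul_mem hb' ha)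
  exact key3 g hg g hg

end

end M0n


end

section

/-!
# Arrows into stable curves, lifting of arrows
-/

open CategoryTheory CategoryTheory.Limits AlgebraicGeometry TensorProduct

namespace Pool.Agent.MG.WL

section

variable {n : ℕ} {A B D : Type} [CommRing A] [CommRing B] [CommRing D] {φ : A →+* B}
  {C : Fam n A} {y : Fam n B}

theorem arrow_stable {g : ℕ} (a : Arrow φ y C) (h : IsStable g C) : IsStable g y where
  proper := by
    have := h.proper
    exact MorphismProperty.of_isPullback (P := @IsProper) a.cart h.proper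
  flat := by
    have := h.flat
    exact MorphismProperty.of_isPullback (P := @Flat) a.cart h.flat
  fp := by
    have := h.fp
    exact MorphismProperty.of_isPullback (P := @LocallyOfFinitePresentation) a.cart h.fp
  fib k _ _ s z := by
    rintro ⟨b⟩
    exact h.fib k (s.comp φ) z ⟨PBS.comp b a⟩

/-- The lift of an arrow. -/
noncomputable def arrowLift {ψ : B →+* D} {z : Fam n D} (e : Arrow (ψ.comp φ) z C)
    (g : Arrow φ y C) : Arrow ψ z y where
  f := g.cart.lift e.f (z.π ≫ spMap ψ) (by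
    rw [e.cart.w, PBS.spMap_comp, Category.assoc])
  cart := by
    have h : IsPullback (g.cart.lift e.f (z.π ≫ spMap ψ) (by
        rw [e.cart.w, PBS.spMap_comp, Category.assoc]) ≫ g.f) z.π C.π (spMap ψ ≫ spMap φ) := by
      rw [g.cart.lift_fst, ← PBS.spMap_comp]
      exact e.cart
    exact IsPullback.of_right h (g.cart.lift_snd _ _ _) g.cart
  sec i := by
    apply g.cart.hom_ext
    · rw [Category.assoc, g.cart.lift_fst, e.sec, PBS.spMap_comp, Category.assoc, Category.assoc,
        g.sec]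
    · rw [Category.assoc, g.cart.lift_snd, Category.assoc, y.sec, ← Category.assoc, z.sec,
        Category.id_comp, Category.comp_id]

theorem arrowLift_f {ψ : B →+* D} {z : Fam n D} (e : Arrow (ψ.comp φ) z C)
    (g : Arrow φ y C) : (arrowLift e g).f ≫ g.f = e.f :=
  g.cart.lift_fst _ _ _

theorem arrow_ext {ψ : B →+* D} {z : Fam n D} (e e' : Arrow ψ z y) (g : Arrow φ y C)
    (h : e.f ≫ g.f = e'.f ≫ g.f) : e.f = e'.f :=
  g.cart.hom_ext h (by rw [e.cart.w, e'.cart.w])

end

/-- An arrow over the identity is an isomorphism. -/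
theorem arrow_id_iso {n : ℕ} {A : Type} [CommRing A] {C y : Fam n A}
    (a : Arrow (RingHom.id A) y C) : IsIso a.f := by
  have h : IsIso (spMap (RingHom.id A)) := by
    have : spMap (RingHom.id A) = 𝟙 _ := Spec.map_id _
    rw [this]; infer_instance
  exact a.cart.isIso_fst_of_isIso

end Pool.Agent.MG.WL


end

section

/-!
# Sections of base changes
-/

open CategoryTheory CategoryTheory.Limits AlgebraicGeometry TensorProduct

namespace Pool.Agent.MG.WL

open Pool.Agent.MG.GLU

section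

variable {n : ℕ} {A B : Type} [CommRing A] [CommRing B] {φ : A →+* B}
  {C : Fam n A} {y : Fam n B}

theorem arrow_push (a : Arrow φ y C) (V : C.X.Opens)
    (H : IsIso (pushoutSection a.cart (US := ⊤) (UT := ⊤) (UX := V) (UY := a.f ⁻¹ᵁ V) le_top le_top
      (by simp))) :
    IsPushout (CommRingCat.ofHom (coef C.π V)) (CommRingCat.ofHom φ)
      (a.f.appLE V (a.f ⁻¹ᵁ V) le_rfl) (CommRingCat.ofHom (coef y.π (a.f ⁻¹ᵁ V))) := by
  have h1 := (isIso_pushoutSection_iff a.cart (US := ⊤) (UT := ⊤) (UX := V) (UY := a.f ⁻¹ᵁ V)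
    le_top le_top (by simp)).1 H
  refine h1.of_iso (Scheme.ΓSpecIso (CommRingCat.of A)) (Iso.refl _)
    (Scheme.ΓSpecIso (CommRingCat.of B)) (Iso.refl _) ?_ ?_ ?_ ?_
  · rw [coef_eq, CommRingCat.ofHom_hom, Iso.hom_inv_id_assoc]
    simp
  · exact Scheme.ΓSpecIso_naturality (CommRingCat.ofHom φ)
  · simp
  · rw [coef_eq, CommRingCat.ofHom_hom, Iso.hom_inv_id_assoc]
    simp

/-- The sections over the preimage of `V` are the tensor product. -/
def TP (a : Arrow φ y C) (V : C.X.Opens) : Prop :=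
  letI := φ.toAlgebra
  letI := (coef C.π V).toAlgebra
  ∃ e : B ⊗[A] Γ(C.X, V) ≃+* Γ(y.X, a.f ⁻¹ᵁ V), ∀ b r, e (b ⊗ₜ r) =
    coef y.π (a.f ⁻¹ᵁ V) b * (a.f.appLE V (a.f ⁻¹ᵁ V) le_rfl).hom r

theorem tp_of (a : Arrow φ y C) (V : C.X.Opens)
    (H : IsIso (pushoutSection a.cart (US := ⊤) (UT := ⊤) (UX := V) (UY := a.f ⁻¹ᵁ V) le_top le_top
      (by simp))) : TP a V := by
  let _ := φ.toAlgebra
  let _ := (coef C.π V).toAlgebra
  have h2 := arrow_push a V H
  have h3 := CommRingCat.isPushout_tensorProduct A B Γ(C.X, V)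
  let i := h3.isoIsPushout _ _ h2.flip
  refine ⟨i.commRingCatIsoToRingEquiv, ?_⟩
  intro b r
  have e1 : i.commRingCatIsoToRingEquiv (b ⊗ₜ 1) = coef y.π (a.f ⁻¹ᵁ V) b :=
    ConcreteCategory.congr_hom (IsPushout.inl_isoIsPushout_hom _ _ h3 h2.flip) b
  have e2 : i.commRingCatIsoToRingEquiv (1 ⊗ₜ r) =
      (a.f.appLE V (a.f ⁻¹ᵁ V) le_rfl).hom r :=
    ConcreteCategory.congr_hom (IsPushout.inr_isoIsPushout_hom _ _ h3 h2.flip) r
  have e3 : b ⊗ₜ[A] r = (b ⊗ₜ 1) * (1 ⊗ₜ r) := by simp
  rw [e3, map_mul, e1, e2]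

/-- Base change of the sections over an affine open set. -/
theorem tp_affine (a : Arrow φ y C) {V : C.X.Opens} (hV : IsAffineOpen V) : TP a V :=
  tp_of a V (isIso_pushoutSection_of_isAffineOpen _ _ _ _ (isAffineOpen_top _)
    (isAffineOpen_top _) hV)

/-- Flat base change of the sections over a quasi-compact and quasi-separated open set. -/
theorem tp_flat (a : Arrow φ y C) (hφ : φ.Flat) {V : C.X.Opens} (hV : IsCompact (V : Set C.X))
    (hs : IsQuasiSeparated (V : Set C.X)) : TP a V := by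
  have : Flat (spMap φ) := Flat.SpecMap_iff.2 hφ
  exact tp_of a V (isIso_pushoutSection_of_isQuasiSeparated_of_flat_right _ _ _ _
    (isAffineOpen_top _) (isAffineOpen_top _) hV hs)

/-- The preimage of an affine open set under an arrow is affine. -/
theorem pre_affine (a : Arrow φ y C) {V : C.X.Opens} (hV : IsAffineOpen V) :
    IsAffineOpen (a.f ⁻¹ᵁ V) := by
  have : IsAffineHom a.f := MorphismProperty.of_isPullback (P := @IsAffineHom) a.cart.flip
    inferInstance
  exact hV.preimage a.f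

/-- The total space over an affine base is separated, compact. -/
theorem sep_of_proper (hC : IsProper C.π) : C.X.IsSeparated := by
  have := hC
  have : IsSeparated C.π := inferInstance
  have h : terminal.from C.X = C.π ≫ terminal.from (Sp A) := Subsingleton.elim _ _
  exact ⟨by rw [h]; infer_instance⟩

theorem inf_affine (hC : IsProper C.π) {U V : C.X.Opens} (hU : IsAffineOpen U)
    (hV : IsAffineOpen V) : IsAffineOpen (U ⊓ V) := by
  have := sep_of_proper hC
  exact hU.inf hV

end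

end Pool.Agent.MG.WL


end

section

/-!
# Change of coordinates and of the index set (PAPER.md, K9)
-/

namespace Pool.Agent.MG.G0

theorem KAU.coord {I A : Type} [CommRing A] {g : ℕ} (P : Subalgebra A (KK I A))
    (α : KK I A ≃ₐ[A] KK I A) (hα : ∀ f, α f ∈ Pol I A 0 ↔ f ∈ Pol I A 0) (hP : IsKr g P) :
    IsKr g (P.map (α : KK I A →ₐ[A] KK I A)) := by
  constructor
  · rintro f ⟨p, hp, rfl⟩ hf
    obtain ⟨a, ha⟩ := hP.k1 p hp ((hα p).1 hf)
    refine ⟨a, ?_⟩
    change α p = _
    rw [ha]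
    exact α.commutes a
  · obtain ⟨L, hL, hk⟩ := hP.k2
    refine ⟨L ∘ₗ α.symm.toLinearMap, ?_, ?_⟩
    · intro c
      obtain ⟨f, hf⟩ := hL c
      refine ⟨α f, ?_⟩
      change L (α.symm (α f)) = c
      rw [α.symm_apply_apply, hf]
    · intro f
      change L (α.symm f) = 0 ↔ _
      rw [hk]
      constructor
      · rintro ⟨p, hp, h⟩
        refine ⟨α p, ⟨p, hp, rfl⟩, ?_⟩
        have h1 : α (α.symm f - p) = f - α p := by
          rw [map_sub, α.apply_symm_apply]
        rw [← h1]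
        exact (hα _).2 h
      · rintro ⟨q, ⟨p, hp, rfl⟩, h⟩
        refine ⟨p, hp, ?_⟩
        have h1 : α (α.symm f - p) = f - α p := by
          rw [map_sub, α.apply_symm_apply]
        rw [← hα, h1]
        exact h

theorem KAU.ind {I I' A : Type} [CommRing A] {g : ℕ} (P : Subalgebra A (KK I A)) (e : I' ≃ I)
    (hP : IsKr g P) : IsKr g (reix e P) := by
  have hmem : ∀ f : KK I' A, f ∈ reix e P ↔ (fun i => f (e.symm i) : KK I A) ∈ P := fun _ => Iff.rfl
  have hpol : ∀ f : KK I' A, f ∈ Pol I' A 0 ↔ (fun i => f (e.symm i) : KK I A) ∈ Pol I A 0 := by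
    intro f
    constructor
    · intro h i m hm
      exact h (e.symm i) m hm
    · intro h i m hm
      have := h (e i) m hm
      simpa using this
  constructor
  · intro f hf hf0
    obtain ⟨a, ha⟩ := hP.k1 _ ((hmem f).1 hf) ((hpol f).1 hf0)
    refine ⟨a, ?_⟩
    funext i'
    have := congrFun ha (e i')
    simp only [Equiv.symm_apply_apply] at this
    rw [this]
    rfl
  · obtain ⟨L, hL, hk⟩ := hP.k2
    refine ⟨L ∘ₗ LinearMap.funLeft A (LaurentSeries A) e.symm, ?_, ?_⟩
    · intro c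
      obtain ⟨f, hf⟩ := hL c
      refine ⟨fun i' => f (e i'), ?_⟩
      have h1 : LinearMap.funLeft A (LaurentSeries A) e.symm (fun i' => f (e i')) = f := by
        funext i
        change f (e (e.symm i)) = f i
        rw [e.apply_symm_apply]
      rw [LinearMap.comp_apply, h1, hf]
    · intro f
      change L (fun i => f (e.symm i)) = 0 ↔ _
      rw [hk]
      constructor
      · rintro ⟨p, hp, h⟩
        refine ⟨fun i' => p (e i'), ?_, ?_⟩
        · rw [hmem]
          simpa using hp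
        · rw [hpol]
          have h1 : (fun i => (f - fun i' => p (e i')) (e.symm i) : KK I A)
              = (fun i => f (e.symm i)) - p := by
            funext i
            simp
          rw [h1]
          exact h
      · rintro ⟨q, hq, h⟩
        exact ⟨_, (hmem q).1 hq, (hpol _).1 h⟩

/-- KAU (K9): change of coordinates and of the index set. -/
theorem t_KAU : Stmt_KAU :=
  ⟨fun P α hα hP => KAU.coord P α hα hP, fun P e hP => KAU.ind P e hP⟩

end Pool.Agent.MG.G0


end

section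

/-!
# Duality for Laurent series (PAPER.md, K2)
-/

namespace Pool.Agent.MG.G0

namespace KDU

variable {I A : Type} [CommRing A]

theorem supp_bdd (M : ℤ) (c : ℤ → A) (h : ∀ m < -M, c m = 0) :
    BddBelow (Function.support c) := by
  refine ⟨-M, fun m hm => ?_⟩
  by_contra hc
  exact hm (h m (by omega))

variable [Fintype I]

/-- The dual series of a functional. -/
noncomputable def eta (M : ℤ) (l : KK I A →ₗ[A] A) (h : ∀ f ∈ Pol I A (-M), l f = 0) : KK I A :=
  fun i => HahnSeries.ofSuppBddBelow (fun k => l (mon i (-1 - k) 1))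
    (supp_bdd M _ fun _ hm => h _ (mon_mem_Pol i (by omega) 1))

theorem eta_coeff (M : ℤ) (l : KK I A →ₗ[A] A) (h : ∀ f ∈ Pol I A (-M), l f = 0) (i : I)
    (k : ℤ) : (eta M l h i).coeff k = l (mon i (-1 - k) 1) := rfl

theorem eta_mem (M : ℤ) (l : KK I A →ₗ[A] A) (h : ∀ f ∈ Pol I A (-M), l f = 0) :
    eta M l h ∈ Pol I A M := fun i k hk => by
  rw [eta_coeff]
  exact h _ (mon_mem_Pol i (by omega) 1)

theorem eta_mon (M : ℤ) (l : KK I A →ₗ[A] A) (h : ∀ f ∈ Pol I A (-M), l f = 0) (i : I)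
    (m : ℤ) (a : A) : l (mon i m a) = res (eta M l h * mon i m a) := by
  rw [res_mul_mon, eta_coeff]
  have e : -1 - (-1 - m) = m := by ring
  rw [e]
  have e2 : mon i m a = a • mon i m (1 : A) := by rw [smul_mon, mul_one]
  rw [e2, map_smul, smul_eq_mul, mul_comm]

/-- Multiplication by a series followed by the residue, as a linear map. -/
noncomputable def resmul (η : KK I A) : KK I A →ₗ[A] A where
  toFun f := res (η * f)
  map_add' f g := by rw [mul_add, map_add]
  map_smul' a f := by rw [mul_smul_comm, map_smul, RingHom.id_apply]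

theorem eta_eq (M : ℤ) (l : KK I A →ₗ[A] A) (h : ∀ f ∈ Pol I A (-M), l f = 0) (f : KK I A) :
    l f = res (eta M l h * f) := by
  obtain ⟨n, hn⟩ := exists_Pol f
  have h1 := sub_mon_mem_Pol hn M
  generalize hS : ∑ i, ∑ m ∈ Finset.Ico (-(n : ℤ)) M, mon i m ((f i).coeff m) = S at h1
  have h2 : l (f - S) = 0 := h _ h1
  have h3 : res (eta M l h * (f - S)) = 0 := by
    have := mul_mem_Pol (eta_mem M l h) h1
    rw [add_neg_cancel] at this
    exact res_Pol0 this
  have h4 : l S = res (eta M l h * S) := by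
    have : l S = resmul (eta M l h) S := by
      rw [← hS, map_sum, map_sum]
      refine Finset.sum_congr rfl fun i _ => ?_
      rw [map_sum, map_sum]
      exact Finset.sum_congr rfl fun m _ => eta_mon M l h i m _
    exact this
  rw [mul_sub, map_sub, sub_eq_zero] at h3
  rw [map_sub, sub_eq_zero] at h2
  rw [h2, h4, h3]

end KDU

open _root_.Pool.Agent.MG.G0.KDU in
theorem t_KDU : Stmt_KDU := by
  intro I A _ _ M l h
  refine ⟨eta M l h, ⟨eta_mem M l h, eta_eq M l h⟩, ?_⟩
  rintro η ⟨_, h2⟩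
  funext i
  ext k
  have e := h2 (mon i (-1 - k) 1)
  rw [res_mul_mon, mul_one] at e
  rw [eta_coeff, e]
  congr 1
  ring

end Pool.Agent.MG.G0


end

section

/-!
# The curve of a Krichever ring

`kDuo z`: the duo `Spec P ∪ Spec P'`, `P' = P[1/z] ∩ O`. `xfam z p`: the curve with the marked points
`p`. `xsh z i`: the formal coordinate at the puncture `i`.
-/

open CategoryTheory CategoryTheory.Limits AlgebraicGeometry TensorProduct

namespace Pool.Agent.MG.KX

open Pool.Agent.MG.G0 Pool.Agent.MG.GLU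

section

variable {I : Type} {A B : Type} [CommRing A] [CommRing B]

/-! ## Rings -/

/-- The series without poles. -/
noncomputable def OO (I A : Type) [CommRing A] : Subalgebra A (KK I A) where
  carrier := {f | f ∈ Pol I A 0}
  mul_mem' hf hg := mul_mem_Pol0 hf hg
  add_mem' hf hg := (Pol I A 0).add_mem hf hg
  algebraMap_mem' a := algebraMap_mem_Pol0 a

theorem mem_OO {f : KK I A} : f ∈ OO I A ↔ f ∈ Pol I A 0 := Iff.rfl

/-- `P[1/z]`. -/
noncomputable def Rz (P : Subalgebra A (KK I A)) (z : P) : Subalgebra A (KK I A) where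
  carrier := {f | ∃ n : ℕ, (z : KK I A) ^ n * f ∈ P}
  mul_mem' := by
    rintro f g ⟨n, hn⟩ ⟨m, hm⟩
    refine ⟨n + m, ?_⟩
    have e : (z : KK I A) ^ (n + m) * (f * g) = ((z : KK I A) ^ n * f) * ((z : KK I A) ^ m * g) := by
      ring
    rw [e]
    exact mul_mem hn hm
  add_mem' := by
    rintro f g ⟨n, hn⟩ ⟨m, hm⟩
    refine ⟨n + m, ?_⟩
    have e : (z : KK I A) ^ (n + m) * (f + g) = (z : KK I A) ^ m * ((z : KK I A) ^ n * f) +
      (z : KK I A) ^ n * ((z : KK I A) ^ m * g) := by
      ring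
    rw [e]
    exact add_mem (mul_mem (pow_mem z.2 m) hn) (mul_mem (pow_mem z.2 n) hm)
  algebraMap_mem' a := ⟨0, by
    rw [pow_zero, one_mul]
    exact P.algebraMap_mem a⟩

theorem mem_Rz {P : Subalgebra A (KK I A)} {z : P} {f : KK I A} :
    f ∈ Rz P z ↔ ∃ n : ℕ, (z : KK I A) ^ n * f ∈ P := Iff.rfl

theorem le_Rz (P : Subalgebra A (KK I A)) (z : P) : P ≤ Rz P z := fun f hf => ⟨0, by
  rwa [pow_zero, one_mul]⟩

/-- `P[1/z] ∩ O`. -/
noncomputable def Rw (P : Subalgebra A (KK I A)) (z : P) : Subalgebra A (KK I A) := Rz P z ⊓ OO I A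

/-- An element of `P` with `z = τ^(-d) + ...` at all punctures, and its inverse. -/
structure Pole (P : Subalgebra A (KK I A)) where
  /-- the element -/
  z : P
  /-- the order of its poles -/
  d : ℕ
  pos : 1 ≤ d
  mon : Mon d (z : KK I A)
  /-- the inverse -/
  w : KK I A
  zw : (z : KK I A) * w = 1
  mem : w ∈ Pol I A (-d)

theorem Pole.mem_Rw {P : Subalgebra A (KK I A)} (z : Pole P) : z.w ∈ Rw P z.z :=
  ⟨⟨1, by rw [pow_one, z.zw]; exact one_mem P⟩,
    Pol_mono (show -(z.d : ℤ) ≤ 0 by omega) z.mem⟩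

theorem Pole.pow_mem {P : Subalgebra A (KK I A)} (z : Pole P) (m : ℕ) :
    z.w ^ m ∈ Pol I A (-(m : ℤ)) := by
  induction m with
  | zero =>
    rw [pow_zero, Nat.cast_zero, neg_zero]
    exact one_mem_Pol0
  | succ m ih =>
    have h := mul_mem_Pol ih z.mem
    rw [← pow_succ] at h
    have := z.pos
    exact Pol_mono (by push_cast; omega) h

theorem Pole.lift_mem [Finite I] {P : Subalgebra A (KK I A)} (z : Pole P) {s : KK I A}
    (hs : s ∈ Rz P z.z) : ∃ n : ℕ, z.w ^ n * s ∈ Rw P z.z := by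
  obtain ⟨k, hk⟩ := exists_Pol s
  obtain ⟨n, hn⟩ := hs
  refine ⟨k, ⟨n + k, ?_⟩, ?_⟩
  · have e : (z.z : KK I A) ^ (n + k) * (z.w ^ k * s) =
        ((z.z : KK I A) * z.w) ^ k * ((z.z : KK I A) ^ n * s) := by
      rw [mul_pow]
      ring
    rw [e, z.zw, one_pow, one_mul]
    exact hn
  · have h := mul_mem_Pol (z.pow_mem k) hk
    rw [neg_add_cancel] at h
    exact h

/-- The duo of a Krichever ring. -/
noncomputable def kDuo [Finite I] {P : Subalgebra A (KK I A)} (z : Pole P) : Duo A where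
  R1 := P
  R2 := Rw P z.z
  R12 := Rz P z.z
  j1 := Subalgebra.inclusion (le_Rz P z.z)
  j2 := Subalgebra.inclusion inf_le_left
  z := z.z
  w := ⟨z.w, z.mem_Rw⟩
  zw := Subtype.ext z.zw
  ker1 r h := ⟨0, by
    have h1 : (r : KK I A) = 0 := congrArg Subtype.val h
    rw [pow_zero, one_mul]
    exact Subtype.ext h1⟩
  ker2 r h := ⟨0, by
    have h1 : (r : KK I A) = 0 := congrArg Subtype.val h
    rw [pow_zero, one_mul]
    exact Subtype.ext h1⟩
  sur1 s := by
    obtain ⟨n, hn⟩ := s.2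
    exact ⟨n, ⟨_, hn⟩, Subtype.ext rfl⟩
  sur2 s := by
    obtain ⟨n, hn⟩ := z.lift_mem s.2
    exact ⟨n, ⟨_, hn⟩, Subtype.ext rfl⟩

/-- A Laurent series without pole as a power series. -/
noncomputable def tops (A : Type) [CommRing A] (f : LaurentSeries A) : PowerSeries A :=
  PowerSeries.mk fun m => f.coeff m

theorem psl_coeff (f : PowerSeries A) (m : ℕ) : (psl A f).coeff m = PowerSeries.coeff m f :=
  HahnSeries.ofPowerSeries_apply_coeff f m

theorem psl_coeff_neg (f : PowerSeries A) (m : ℤ) (hm : m < 0) : (psl A f).coeff m = 0 := by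
  rw [psl, HahnSeries.ofPowerSeries_apply]
  refine HahnSeries.embDomain_of_notMem_range ?_
  rintro ⟨n, hn⟩
  have h : ((n : ℕ) : ℤ) = m := hn
  omega

theorem psl_tops {f : LaurentSeries A} (hf : ∀ m < 0, f.coeff m = 0) : psl A (tops A f) = f := by
  ext m
  rcases lt_or_ge m 0 with h | h
  · rw [psl_coeff_neg _ _ h, hf m h]
  · obtain ⟨k, rfl⟩ := Int.eq_ofNat_of_zero_le h
    rw [psl_coeff, tops, PowerSeries.coeff_mk]

theorem psl_inj {f g : PowerSeries A} (h : psl A f = psl A g) : f = g :=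
  HahnSeries.ofPowerSeries_injective h

/-- The expansion at the puncture `i` of the elements without poles. -/
noncomputable def rsh {P : Subalgebra A (KK I A)} (z : P) (i : I) : Rw P z →+* PowerSeries A where
  toFun f := tops A ((f : KK I A) i)
  map_one' := psl_inj (by
    rw [psl_tops (fun m hm => f_one m hm), map_one]
    rfl)
  map_zero' := by
    ext m
    rw [tops, PowerSeries.coeff_mk, map_zero]
    exact HahnSeries.coeff_zero
  map_add' f g := by
    ext m
    rw [tops, tops, tops, map_add, PowerSeries.coeff_mk, PowerSeries.coeff_mk, PowerSeries.coeff_mk]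
    exact HahnSeries.coeff_add
  map_mul' f g := psl_inj (by
    rw [map_mul, psl_tops (fun m hm => f.2.2 i m (by omega)),
      psl_tops (fun m hm => g.2.2 i m (by omega)),
      psl_tops (fun m hm => (f * g).2.2 i m (by omega))]
    rfl)
where
  f_one (m : ℤ) (hm : m < 0) : ((((1 : Rw P z) : KK I A) i)).coeff m = 0 :=
    (1 : Rw P z).2.2 i m (by omega)

theorem psl_rsh {P : Subalgebra A (KK I A)} {z : P} (i : I) (f : Rw P z) :
    psl A (rsh z i f) = (f : KK I A) i := psl_tops fun m hm => f.2.2 i m (by omega)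

/-- The evaluation of the elements of `P` at the puncture `i`. -/
noncomputable def pev (P : Subalgebra A (KK I A)) (i : I) : P →+* LaurentSeries A :=
  (Pi.evalRingHom _ i).comp P.val.toRingHom

@[simp] theorem pev_apply (P : Subalgebra A (KK I A)) (i : I) (f : P) :
    pev P i f = (f : KK I A) i := rfl

/-! ## The curve -/

/-- The curve of a Krichever ring with marked points. -/
noncomputable def xfam [Finite I] {P : Subalgebra A (KK I A)} (z : Pole P) {n : ℕ}
    (p : Fin n → (P →ₐ[A] A)) : Fam n A := (kDuo z).fam p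

/-- The chart `Spec P` of the curve. -/
noncomputable def xin [Finite I] {P : Subalgebra A (KK I A)} (z : Pole P) {n : ℕ}
    (p : Fin n → (P →ₐ[A] A)) : Sp P ⟶ (xfam z p).X := (kDuo z).in1

/-- The second chart of the curve. -/
noncomputable def xin2 [Finite I] {P : Subalgebra A (KK I A)} (z : Pole P) {n : ℕ}
    (p : Fin n → (P →ₐ[A] A)) : Sp (Rw P z.z) ⟶ (xfam z p).X := (kDuo z).in2

instance [Finite I] {P : Subalgebra A (KK I A)} (z : Pole P) {n : ℕ} (p : Fin n → (P →ₐ[A] A)) :
    IsOpenImmersion (xin z p) := inferInstanceAs (IsOpenImmersion (kDuo z).in1)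

instance [Finite I] {P : Subalgebra A (KK I A)} (z : Pole P) {n : ℕ} (p : Fin n → (P →ₐ[A] A)) :
    IsOpenImmersion (xin2 z p) := inferInstanceAs (IsOpenImmersion (kDuo z).in2)

/-- The formal coordinate at the puncture `i`. -/
noncomputable def xsh [Finite I] {P : Subalgebra A (KK I A)} (z : Pole P) {n : ℕ}
    (p : Fin n → (P →ₐ[A] A)) (i : I) : Sp (PowerSeries A) ⟶ (xfam z p).X :=
  spMap (rsh z.z i) ≫ xin2 z p

/-- `p'` is the base change of the points `p`. -/
def BcP (φ : A →+* B) {P : Subalgebra A (KK I A)} {P' : Subalgebra B (KK I B)} {n : ℕ}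
    (p : Fin n → (P →ₐ[A] A)) (p' : Fin n → (P' →ₐ[B] B)) : Prop :=
  ∀ (i : Fin n) (f : P) (f' : P'), (f' : KK I B) = kmap φ (f : KK I A) → p' i f' = φ (p i f)

/-- The homomorphism `P → P'` induced by the coefficientwise map. -/
noncomputable def kres (φ : A →+* B) {P : Subalgebra A (KK I A)} {P' : Subalgebra B (KK I B)}
    (h : ∀ f ∈ P, kmap φ f ∈ P') : P →+* P' where
  toFun f := ⟨kmap φ f, h f f.2⟩
  map_one' := Subtype.ext (map_one (kmap φ))
  map_zero' := Subtype.ext (map_zero (kmap φ))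
  map_add' f g := Subtype.ext (map_add (kmap φ) (f : KK I A) g)
  map_mul' f g := Subtype.ext (map_mul (kmap φ) (f : KK I A) g)

@[simp] theorem kres_val (φ : A →+* B) {P : Subalgebra A (KK I A)} {P' : Subalgebra B (KK I B)}
    (h : ∀ f ∈ P, kmap φ f ∈ P') (f : P) : (kres φ h f : KK I B) = kmap φ f := rfl

/-- The base change of a pole. -/
noncomputable def Pole.bc (φ : A →+* B) {P : Subalgebra A (KK I A)} (z : Pole P) :
    Pole (G0.bc φ P) where
  z := bcMap φ P z.z
  d := z.d
  pos := z.pos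
  mon := ⟨kmap_mem_Pol φ z.mon.1, fun i => by
    change φ (((z.z : KK I A) i).coeff (-(z.d : ℤ))) = 1
    rw [z.mon.2 i, map_one]⟩
  w := kmap φ z.w
  zw := by
    change kmap φ (z.z : KK I A) * kmap φ z.w = 1
    rw [← map_mul, z.zw, map_one]
  mem := kmap_mem_Pol φ z.mem

theorem kmap_mem_Rz (φ : A →+* B) {P : Subalgebra A (KK I A)} (z : Pole P) {f : KK I A}
    (hf : f ∈ Rz P z.z) : kmap φ f ∈ Rz (G0.bc φ P) (z.bc φ).z := by
  obtain ⟨n, hn⟩ := hf
  refine ⟨n, ?_⟩
  change kmap φ (z.z : KK I A) ^ n * kmap φ f ∈ G0.bc φ P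
  rw [← map_pow, ← map_mul]
  exact kmap_mem_bc φ hn

theorem kmap_mem_Rw (φ : A →+* B) {P : Subalgebra A (KK I A)} (z : Pole P) {f : KK I A}
    (hf : f ∈ Rw P z.z) : kmap φ f ∈ Rw (G0.bc φ P) (z.bc φ).z :=
  ⟨kmap_mem_Rz φ z hf.1, kmap_mem_Pol φ hf.2⟩

/-- The base change of the duo of a Krichever ring. -/
noncomputable def kHom [Finite I] (φ : A →+* B) {P : Subalgebra A (KK I A)} (z : Pole P) :
    Duo.Hom φ (kDuo z) (kDuo (z.bc φ)) where
  f1 := kres φ (P' := G0.bc φ P) (fun _ hf => kmap_mem_bc φ hf)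
  f2 := kres φ (P := Rw P z.z) (P' := Rw (G0.bc φ P) (z.bc φ).z) (fun _ hf => kmap_mem_Rw φ z hf)
  f12 := kres φ (P := Rz P z.z) (P' := Rz (G0.bc φ P) (z.bc φ).z)
    (fun _ hf => kmap_mem_Rz φ z hf)
  fa1 a := Subtype.ext (kmap_algebraMap φ a)
  fa2 a := Subtype.ext (kmap_algebraMap φ a)
  fj1 _ := rfl
  fj2 _ := rfl
  fz := rfl
  fw := rfl

/-! ## Stability -/

/-- No infinitesimal automorphisms. -/
def RigP (P : Subalgebra A (KK I A)) : Prop := ∀ θ ∈ TT P, θ ∈ Pol I A 0 → θ = 0

/-- The Krichever ring of a stable curve. -/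
structure KS (g : ℕ) {n : ℕ} (P : Subalgebra A (KK I A)) (p : Fin n → (P →ₐ[A] A)) : Prop where
  kr : IsKr g P
  mks : Marks P p
  fib : ∀ (K : Type) [Field K] [IsAlgClosed K] (φ : A →+* K), IsDomain (bc φ P) ∧
    Nodal (spMap (algebraMap K (bc φ P))) ∧ RigP (bc φ P)

end

end Pool.Agent.MG.KX


end

section

/-!
# Statements on the curve of a Krichever ring

See `Pool/Agent/MG/KX/PAPER.md` for the proofs.
-/

open CategoryTheory CategoryTheory.Limits AlgebraicGeometry TensorProduct

namespace Pool.Agent.MG.KX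

open Pool.Agent.MG.G0 Pool.Agent.MG.GLU

/-- PLE: poles exist. -/
def Stmt_PLE : Prop :=
  ∀ {I A : Type} [Fintype I] [CommRing A] {g : ℕ} {P : Subalgebra A (KK I A)}, IsKr g P →
    Nonempty (Pole P) ∧ ∀ (d : ℕ) (z : P), 1 ≤ d → Mon d (z : KK I A) → ∃ y : Pole P, y.z = z

/-- DEN: `P[1/z]` is dense in the Laurent series, `P[1/z] ∩ O` is dense in `O`. -/
def Stmt_DEN : Prop :=
  ∀ {I A : Type} [Fintype I] [CommRing A] {g : ℕ} {P : Subalgebra A (KK I A)}, IsKr g P →
    ∀ z : Pole P, (∀ (f : KK I A) (M : ℤ), ∃ r ∈ Rz P z.z, f - r ∈ Pol I A (-M)) ∧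
      (∀ f ∈ Pol I A 0, ∀ M : ℤ, ∃ r ∈ Rw P z.z, f - r ∈ Pol I A (-M)) ∧
      ∀ (f : I → PowerSeries A) (M : ℕ), ∃ r : Rw P z.z, ∀ i, ∀ m < M,
        PowerSeries.coeff m (rsh z.z i r) = PowerSeries.coeff m (f i)

/-- KCO: functions and cohomology of the duo. -/
def Stmt_KCO : Prop :=
  ∀ {I A : Type} [Fintype I] [CommRing A] {g : ℕ} {P : Subalgebra A (KK I A)}, IsKr g P →
    ∀ z : Pole P,
      (∀ (p : (kDuo z).R1) (q : (kDuo z).R2), (kDuo z).j1 p = (kDuo z).j2 q →
        ∃ c : A, p = algebraMap A (kDuo z).R1 c ∧ q = algebraMap A (kDuo z).R2 c) ∧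
      ∃ L : (kDuo z).R12 →ₗ[A] (Fin g → A), Function.Surjective L ∧
        ∀ t, L t = 0 ↔ ∃ p q, t = (kDuo z).j1 p + (kDuo z).j2 q

/-- KFP: finiteness of the first chart. -/
def Stmt_KFP : Prop :=
  ∀ {I A : Type} [Fintype I] [Nonempty I] [CommRing A] {g : ℕ} {P : Subalgebra A (KK I A)},
    IsKr g P → ∀ z : Pole P, Algebra.FinitePresentation A (kDuo z).R1 ∧
      Module.Flat A (kDuo z).R1 ∧ ∀ r : (kDuo z).R1,
        ((Polynomial.aeval (kDuo z).z : Polynomial A →ₐ[A] (kDuo z).R1) :
          Polynomial A →+* (kDuo z).R1).IsIntegralElem r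

/-- KFW: finiteness of the second chart. -/
def Stmt_KFW : Prop :=
  ∀ {I A : Type} [Fintype I] [Nonempty I] [CommRing A] {g : ℕ} {P : Subalgebra A (KK I A)},
    IsKr g P → ∀ z : Pole P, Algebra.FinitePresentation A (kDuo z).R2 ∧
      Module.Flat A (kDuo z).R2 ∧ ∀ r : (kDuo z).R2,
        ((Polynomial.aeval (kDuo z).w : Polynomial A →ₐ[A] (kDuo z).R2) :
          Polynomial A →+* (kDuo z).R2).IsIntegralElem r

/-- KBW: the charts are compatible with base change. -/
def Stmt_KBW : Prop :=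
  ∀ {I A B : Type} [Fintype I] [Nonempty I] [CommRing A] [CommRing B] {g : ℕ}
    {P : Subalgebra A (KK I A)}, IsKr g P → ∀ (z : Pole P) (φ : A →+* B),
      IsPullback (spMap (kHom φ z).f1) (spMap (algebraMap B (kDuo (z.bc φ)).R1))
        (spMap (algebraMap A (kDuo z).R1)) (spMap φ) ∧
      IsPullback (spMap (kHom φ z).f2) (spMap (algebraMap B (kDuo (z.bc φ)).R2))
        (spMap (algebraMap A (kDuo z).R2)) (spMap φ)

/-- KBP: base change of points and marks. -/
def Stmt_KBP : Prop :=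
  (∀ {I A B : Type} [Fintype I] [Nonempty I] [CommRing A] [CommRing B] {g : ℕ}
    {P : Subalgebra A (KK I A)}, IsKr g P → ∀ (φ : A →+* B) {n : ℕ} (p : Fin n → (P →ₐ[A] A)),
      ∃ p' : Fin n → (bc φ P →ₐ[B] B), BcP φ p p') ∧
  ∀ {I A B : Type} [Fintype I] [Nonempty I] [CommRing A] [CommRing B] {g : ℕ}
    {P : Subalgebra A (KK I A)}, IsKr g P → ∀ (φ : A →+* B) {n : ℕ} (p : Fin n → (P →ₐ[A] A))
      (p' : Fin n → (bc φ P →ₐ[B] B)), BcP φ p p' → Marks P p → Marks (bc φ P) p'

/-- KAR: base change of the curve. -/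
def Stmt_KAR : Prop :=
  ∀ {I A B : Type} [Fintype I] [Nonempty I] [CommRing A] [CommRing B] {g : ℕ}
    {P : Subalgebra A (KK I A)}, IsKr g P → ∀ (z : Pole P) (φ : A →+* B) {n : ℕ}
      (p : Fin n → (P →ₐ[A] A)) (p' : Fin n → (bc φ P →ₐ[B] B)), BcP φ p p' →
      ∃ a : Arrow φ (xfam (z.bc φ) p') (xfam z p), a.f = (kHom φ z).map

/-- KPT: étale coordinates at the points of the second chart with `w = 0`. -/
def Stmt_KPT : Prop :=
  ∀ {I K : Type} [Fintype I] [Nonempty I] [Field K] {g : ℕ} {P : Subalgebra K (KK I K)},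
    IsKr g P → ∀ (z : Pole P) (q : PrimeSpectrum (kDuo z).R2), (kDuo z).w ∈ q.asIdeal →
      ∃ h t : (kDuo z).R2, h ∉ q.asIdeal ∧
        ((algebraMap (kDuo z).R2 (Localization.Away h)).comp
          (Polynomial.eval₂RingHom (algebraMap K (kDuo z).R2) t)).Etale

/-- KMK: étale coordinates at the marked points. -/
def Stmt_KMK : Prop :=
  ∀ {I K : Type} [Fintype I] [Nonempty I] [Field K] [IsAlgClosed K] {g : ℕ}
    {P : Subalgebra K (KK I K)}, IsKr g P → IsDomain P → ∀ {n : ℕ} (p : Fin n → (P →ₐ[K] K)),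
      Marks P p → ∀ i, ∃ h t : P, p i h ≠ 0 ∧ ((algebraMap P (Localization.Away h)).comp
        (Polynomial.eval₂RingHom (algebraMap K P) t)).Etale

/-- KRV: vector fields. -/
def Stmt_KRV : Prop :=
  ∀ {I K : Type} [Fintype I] [Nonempty I] [Field K] {g : ℕ} {P : Subalgebra K (KK I K)},
    IsKr g P → RigP P → ∀ (z : Pole P)
    (E1 : Derivation K (kDuo z).R1 (kDuo z).R1) (E2 : Derivation K (kDuo z).R2 (kDuo z).R2)
    (E12 : Derivation K (kDuo z).R12 (kDuo z).R12),
      (∀ r, E12 ((kDuo z).j1 r) = (kDuo z).j1 (E1 r)) →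
      (∀ r, E12 ((kDuo z).j2 r) = (kDuo z).j2 (E2 r)) → E1 = 0 ∧ E2 = 0

/-- KSB: base change. -/
def Stmt_KSB : Prop :=
  ∀ {I A B : Type} [Fintype I] [Nonempty I] [CommRing A] [CommRing B] {g n : ℕ}
    {P : Subalgebra A (KK I A)} {p : Fin n → (P →ₐ[A] A)}, KS g P p → ∀ (φ : A →+* B)
      (p' : Fin n → (bc φ P →ₐ[B] B)), BcP φ p p' → KS g (bc φ P) p'

/-- KGC: the curve over an algebraically closed field is stable. -/
def Stmt_KGC : Prop :=
  ∀ {I K : Type} [Fintype I] [Nonempty I] [Field K] [IsAlgClosed K] {g n : ℕ}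
    {P : Subalgebra K (KK I K)} {p : Fin n → (P →ₐ[K] K)}, IsKr g P → IsDomain P →
      Nodal (spMap (algebraMap K P)) → RigP P → Marks P p → ∀ z : Pole P,
      StableCurve g (xfam z p)

/-- KST: the curve is stable. -/
def Stmt_KST : Prop :=
  ∀ {I A : Type} [Fintype I] [Nonempty I] [CommRing A] {g n : ℕ} {P : Subalgebra A (KK I A)}
    {p : Fin n → (P →ₐ[A] A)}, KS g P p → ∀ z : Pole P, IsStable g (xfam z p)

/-- KPX: the curve is proper, flat, of finite presentation. -/
def Stmt_KPX : Prop :=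
  ∀ {I A : Type} [Fintype I] [Nonempty I] [CommRing A] {g n : ℕ} {P : Subalgebra A (KK I A)}
    (p : Fin n → (P →ₐ[A] A)), IsKr g P → ∀ z : Pole P, IsProper (xfam z p).π ∧
      Flat (xfam z p).π ∧ LocallyOfFinitePresentation (xfam z p).π

/-- KSX: smoothness. -/
def Stmt_KSX : Prop :=
  ∀ {I K : Type} [Fintype I] [Nonempty I] [Field K] [IsAlgClosed K] {g n : ℕ}
    {P : Subalgebra K (KK I K)} (p : Fin n → (P →ₐ[K] K)), IsKr g P →
      Algebra.FormallySmooth K P → ∀ z : Pole P, Smooth (xfam z p).π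

end Pool.Agent.MG.KX


end

section

/-!
# KAR: base change of the curve of a Krichever ring
-/

open CategoryTheory CategoryTheory.Limits AlgebraicGeometry TensorProduct

namespace Pool.Agent.MG.KX

open Pool.Agent.MG.G0 Pool.Agent.MG.GLU

namespace KAR_

/-- Homomorphisms of duos are compatible with sections in the first chart. -/
theorem sec_of {A B : Type} [CommRing A] [CommRing B] {φ : A →+* B} {D : Duo A} {E : Duo B}
    (h : Duo.Hom φ D E) (s : D.R1 →ₐ[A] A) (s' : E.R1 →ₐ[B] B)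
    (hs : ∀ f, s' (h.f1 f) = φ (s f)) :
    (spMap (s' : E.R1 →+* B) ≫ E.in1) ≫ h.map =
      spMap φ ≫ spMap (s : D.R1 →+* A) ≫ D.in1 := by
  have e3 : (s' : E.R1 →+* B).comp h.f1 = φ.comp (s : D.R1 →+* A) := RingHom.ext hs
  rw [Category.assoc, h.in1_map, ← Category.assoc, ← Category.assoc, spMap_comp'',
    spMap_comp'', e3]

/-- The arrow of a cartesian homomorphism of duos. -/
noncomputable def arrow_of {A B : Type} [CommRing A] [CommRing B] {φ : A →+* B} {D : Duo A}
    {E : Duo B} (h : Duo.Hom φ D E) {n : ℕ} (s : Fin n → (D.R1 →ₐ[A] A))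
    (s' : Fin n → (E.R1 →ₐ[B] B)) (hs : ∀ i f, s' i (h.f1 f) = φ (s i f))
    (hc : IsPullback h.map E.pr D.pr (spMap φ)) : Arrow φ (E.fam s') (D.fam s) where
  f := h.map
  cart := hc
  sec i := sec_of h (s i) (s' i) (hs i)

end KAR_

open _root_.Pool.Agent.MG.KX.KAR_ in
/-- KAR: base change of the curve. -/
theorem t_KAR (hDBC : Stmt_DBC) (hKBW : Stmt_KBW) : Stmt_KAR := by
  intro I A B _ _ _ _ g P hP z φ n p p' hp
  obtain ⟨h1, h2⟩ := hKBW hP z φ
  have hc : IsPullback (kHom φ z).map (kDuo (z.bc φ)).pr (kDuo z).pr (spMap φ) :=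
    hDBC (kHom φ z) h1 h2
  exact ⟨arrow_of (kHom φ z) p p' (fun i f => hp i f _ rfl) hc, rfl⟩

end Pool.Agent.MG.KX


end

section

/-!
# KGC: the curve of a Krichever ring over an algebraically closed field is stable
-/

open CategoryTheory CategoryTheory.Limits AlgebraicGeometry TensorProduct

namespace Pool.Agent.MG.KX

open Pool.Agent.MG.G0 Pool.Agent.MG.GLU

/-- KGC: stability over an algebraically closed field. -/
theorem t_KGC (hDCO : Stmt_DCO) (hDNO : Stmt_DNO) (hDGE : Stmt_DGE) (hDSM : Stmt_DSM)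
    (hDVF : Stmt_DVF) (hKCO : Stmt_KCO) (hKPT : Stmt_KPT) (hKMK : Stmt_KMK)
    (hKRV : Stmt_KRV) : Stmt_KGC := by
  intro I K _ _ _ _ g n P p hP hdom hnod hrig hmk z
  obtain ⟨c1, L, hL, hk⟩ := hKCO hP z
  have nt : Nontrivial (kDuo z).R12 := inferInstanceAs (Nontrivial (Rz P z.z))
  refine ⟨?_, ?_, ?_, ?_, ?_, ?_⟩
  · exact hDCO (kDuo z) nt c1
  · exact hDNO (kDuo z) hnod (hKPT hP z)
  · exact hDGE (kDuo z) g L hL hk
  · intro i j hij h
    have h0 : spMap (p i : P →+* K) ≫ xin z p = spMap (p j : P →+* K) ≫ xin z p := h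
    have h1 : spMap (p i : P →+* K) = spMap (p j : P →+* K) := (cancel_mono _).1 h0
    have h2 : (p i : P →+* K) = (p j : P →+* K) :=
      congrArg CommRingCat.Hom.hom (Spec.map_injective h1)
    have h3 := hmk.dis i j hij
    have h4 : RingHom.ker (p i) = RingHom.ker (p j) :=
      congrArg (fun f : P →+* K => RingHom.ker f) h2
    rw [h4, sup_idem] at h3
    exact RingHom.ker_ne_top (p j) h3
  · intro i s
    exact hDSM (kDuo z) p i (hKMK hP hdom p hmk i) s
  · exact hDVF (kDuo z) p (fun E1 E2 E12 h1 h2 _ => hKRV hP hrig z E1 E2 E12 h1 h2)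

end Pool.Agent.MG.KX


end

section

/-!
# KPX: the curve of a Krichever ring is proper, flat and of finite presentation
-/

open CategoryTheory CategoryTheory.Limits AlgebraicGeometry TensorProduct

namespace Pool.Agent.MG.KX

open Pool.Agent.MG.G0 Pool.Agent.MG.GLU

/-- KPX: properness, flatness. -/
theorem t_KPX (hDPR : Stmt_DPR) (hDFL : Stmt_DFL) (hKFP : Stmt_KFP) (hKFW : Stmt_KFW) :
    Stmt_KPX := by
  intro I A _ _ _ g n P p hP z
  obtain ⟨f1, l1, i1⟩ := hKFP hP z
  obtain ⟨f2, l2, i2⟩ := hKFW hP z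
  have t1 : Algebra.FiniteType A (kDuo z).R1 := inferInstance
  have t2 : Algebra.FiniteType A (kDuo z).R2 := inferInstance
  exact ⟨hDPR (kDuo z) t1 t2 i1 i2, hDFL.1 (kDuo z) l1 l2, hDFL.2 (kDuo z) f1 f2⟩

end Pool.Agent.MG.KX


end
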