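import Mathlib
import Pool.Agent.KDM.C08

/-! Parts: M0n.Five, M0n.Low, M0n.Chain, MG.One.Alg -/

section

/-!
# MP_cc45c1_ag: the quadratic tensors of `M̄_{0,5}`
-/

set_option autoImplicit false

open MvPolynomial

namespace M0n

noncomputable section

/-- The reference quadruples. -/
def ref : Fin 5 → (Fin 4 ↪ Fin 2 ⊕ Fin 3) :=
  ![quad (.inl 0) (.inr 1) (.inr 0) (.inr 2) (by decide),
    quad (.inl 1) (.inr 1) (.inr 0) (.inr 2) (by decide),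
    quad (.inl 0) (.inl 1) (.inr 0) (.inr 2) (by decide),
    quad (.inl 0) (.inl 1) (.inr 1) (.inr 2) (by decide),
    quad (.inl 0) (.inl 1) (.inr 0) (.inr 1) (by decide)]

/-- Their cross ratios. -/
def lam : Fin 5 → Fld 2 :=
  ![t 0, t 1, t 0 / t 1, (t 0 - 1) / (t 1 - 1), t 0 * (t 1 - 1) / ((t 0 - 1) * t 1)]

theorem t_ne (i : Fin 2) : (t i : Fld 2) ≠ 0 := by
  have := s_ne_zero 0 i
  simpa [s] using this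

theorem t_sub_one_ne (i : Fin 2) : (t i : Fld 2) - 1 ≠ 0 := by
  have := s_ne_zero 1 i
  simpa [s] using this

theorem cr_ref (k : Fin 5) : cr (ref k) = lam k := by
  have h0 := t_ne 0
  have h1 := t_ne 1
  have h2 := t_sub_one_ne 0
  have h3 := t_sub_one_ne 1
  fin_cases k
  · refine (cr_quad (.inl 0) (.inr 1) (.inr 0) (.inr 2) (by decide)).trans ?_
    simp [br, pt, lam]
  · refine (cr_quad (.inl 1) (.inr 1) (.inr 0) (.inr 2) (by decide)).trans ?_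
    simp [br, pt, lam]
  · refine (cr_quad (.inl 0) (.inl 1) (.inr 0) (.inr 2) (by decide)).trans ?_
    simp [br, pt, lam]
  · refine (cr_quad (.inl 0) (.inl 1) (.inr 1) (.inr 2) (by decide)).trans ?_
    simp [br, pt, lam]
    rw [← neg_sub (t 0), ← neg_sub (t 1)]
    exact neg_div_neg_eq _ _
  · refine (cr_quad (.inl 0) (.inl 1) (.inr 0) (.inr 1) (by decide)).trans ?_
    simp [br, pt, lam]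

/-- The gradients of the cross ratios. -/
def grad : Fin 5 → Fin 2 → Fld 2 :=
  ![![1, 0], ![0, 1], ![1 / t 1, -t 0 / t 1 ^ 2], ![1 / (t 1 - 1), -(t 0 - 1) / (t 1 - 1) ^ 2],
    ![-(t 1 - 1) / (t 1 * (t 0 - 1) ^ 2), t 0 / ((t 0 - 1) * t 1 ^ 2)]]

theorem pd_lam (k : Fin 5) (i : Fin 2) : pd i (lam k) = grad k i := by
  have h0 := t_ne 0
  have h1 := t_ne 1
  have h2 := t_sub_one_ne 0
  have h3 := t_sub_one_ne 1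
  have d : ∀ (i : Fin 2) (a b : Fld 2), pd i (a / b) = (b * pd i a - a * pd i b) / b ^ 2 := by
    intro i a b
    rw [Derivation.leibniz_div]
    simp
    ring
  fin_cases k <;> fin_cases i
  · show pd 0 (t 0) = 1
    simp [pd_t]
  · show pd 1 (t 0) = 0
    simp [pd_t]
  · show pd 0 (t 1) = 0
    simp [pd_t]
  · show pd 1 (t 1) = 1
    simp [pd_t]
  · show pd 0 (t 0 / t 1) = 1 / t 1
    rw [d, pd_t, pd_t]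
    simp
    field_simp
  · show pd 1 (t 0 / t 1) = -t 0 / t 1 ^ 2
    rw [d, pd_t, pd_t]
    simp
  · show pd 0 ((t 0 - 1) / (t 1 - 1)) = 1 / (t 1 - 1)
    rw [d, map_sub, map_sub, pd_t, pd_t]
    simp
    field_simp
  · show pd 1 ((t 0 - 1) / (t 1 - 1)) = -(t 0 - 1) / (t 1 - 1) ^ 2
    rw [d, map_sub, map_sub, pd_t, pd_t]
    simp
  · show pd 0 (t 0 * (t 1 - 1) / ((t 0 - 1) * t 1)) = -(t 1 - 1) / (t 1 * (t 0 - 1) ^ 2)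
    rw [d, Derivation.leibniz, Derivation.leibniz, map_sub, map_sub, pd_t, pd_t]
    simp
    field_simp
    ring
  · show pd 1 (t 0 * (t 1 - 1) / ((t 0 - 1) * t 1)) = t 0 / ((t 0 - 1) * t 1 ^ 2)
    rw [d, Derivation.leibniz, Derivation.leibniz, map_sub, map_sub, pd_t, pd_t]
    simp
    field_simp
    ring

theorem bil_lam (T : Fin 2 → Fin 2 → Fld 2) (k l : Fin 5) :
    bil T (lam k) (lam l) = T 0 0 * grad k 0 * grad l 0 + T 0 1 * grad k 0 * grad l 1 +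
      (T 1 0 * grad k 1 * grad l 0 + T 1 1 * grad k 1 * grad l 1) := by
  simp only [bil, pd_lam, Fin.sum_univ_two]

theorem quad_of {T : Fin 2 → Fin 2 → Fld 2} {k l : Fin 5} (a₀ a₁ a₂ b₀ b₁ b₂ c₀ c₁ c₂ : ℤ)
    (h : bil T (lam k) (lam l) =
      (a₀ : Fld 2) + a₁ * lam l + a₂ * lam l ^ 2 +
      (b₀ * lam k + b₁ * lam k * lam l + b₂ * lam k * lam l ^ 2) +
      (c₀ * lam k ^ 2 + c₁ * lam k ^ 2 * lam l + c₂ * lam k ^ 2 * lam l ^ 2)) :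
    Quad T (lam k) (lam l) := by
  refine ⟨fun i j => (![![a₀, a₁, a₂], ![b₀, b₁, b₂], ![c₀, c₁, c₂]] i j : ℤ), ?_⟩
  rw [h]
  simp [Fin.sum_univ_three]

/-- The matrix of a quadratic tensor. -/
def Txy : Fin 2 → Fin 2 → Fld 2 := ![![0, (t 0 - t 1) ^ 2], ![(t 0 - t 1) ^ 2, 0]]

theorem Txy_symm (i j : Fin 2) : Txy i j = Txy j i := by
  fin_cases i <;> fin_cases j <;> rfl

theorem Txy_00 : Quad Txy (lam 0) (lam 0) := by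
  have h0 := t_ne 0
  have h1 := t_ne 1
  have h2 := t_sub_one_ne 0
  have h3 := t_sub_one_ne 1
  refine quad_of 0 0 0 0 0 0 0 0 0 ?_
  rw [bil_lam]
  show (0) * 1 * 1 + ((t 0 - t 1) ^ 2) * 1 * 0 + (((t 0 - t 1) ^ 2) * 0 * 1 + (0) * 0 * 0) =
    ((0 : ℤ) : Fld 2) + ((0 : ℤ) : Fld 2) * (t 0) + ((0 : ℤ) : Fld 2) * (t 0) ^ 2 +
      (((0 : ℤ) : Fld 2) * (t 0) + ((0 : ℤ) : Fld 2) * (t 0) * (t 0) + ((0 : ℤ) : Fld 2) * (t 0) * (t 0) ^ 2) +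
      (((0 : ℤ) : Fld 2) * (t 0) ^ 2 + ((0 : ℤ) : Fld 2) * (t 0) ^ 2 * (t 0) + ((0 : ℤ) : Fld 2) * (t 0) ^ 2 * (t 0) ^ 2)
  push_cast
  try field_simp
  try ring

theorem Txy_01 : Quad Txy (lam 0) (lam 1) := by
  have h0 := t_ne 0
  have h1 := t_ne 1
  have h2 := t_sub_one_ne 0
  have h3 := t_sub_one_ne 1
  refine quad_of 0 0 1 0 (-2) 0 1 0 0 ?_
  rw [bil_lam]
  show (0) * 1 * 0 + ((t 0 - t 1) ^ 2) * 1 * 1 + (((t 0 - t 1) ^ 2) * 0 * 0 + (0) * 0 * 1) =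
    ((0 : ℤ) : Fld 2) + ((0 : ℤ) : Fld 2) * (t 1) + ((1 : ℤ) : Fld 2) * (t 1) ^ 2 +
      (((0 : ℤ) : Fld 2) * (t 0) + ((-2 : ℤ) : Fld 2) * (t 0) * (t 1) + ((0 : ℤ) : Fld 2) * (t 0) * (t 1) ^ 2) +
      (((1 : ℤ) : Fld 2) * (t 0) ^ 2 + ((0 : ℤ) : Fld 2) * (t 0) ^ 2 * (t 1) + ((0 : ℤ) : Fld 2) * (t 0) ^ 2 * (t 1) ^ 2)
  push_cast
  try field_simp
  try ring

theorem Txy_02 : Quad Txy (lam 0) (lam 2) := by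
  have h0 := t_ne 0
  have h1 := t_ne 1
  have h2 := t_sub_one_ne 0
  have h3 := t_sub_one_ne 1
  refine quad_of 0 0 0 (-1) 2 (-1) 0 0 0 ?_
  rw [bil_lam]
  show (0) * 1 * (1 / t 1) + ((t 0 - t 1) ^ 2) * 1 * (-t 0 / t 1 ^ 2) + (((t 0 - t 1) ^ 2) * 0 * (1 / t 1) + (0) * 0 * (-t 0 / t 1 ^ 2)) =
    ((0 : ℤ) : Fld 2) + ((0 : ℤ) : Fld 2) * (t 0 / t 1) + ((0 : ℤ) : Fld 2) * (t 0 / t 1) ^ 2 +
      (((-1 : ℤ) : Fld 2) * (t 0) + ((2 : ℤ) : Fld 2) * (t 0) * (t 0 / t 1) + ((-1 : ℤ) : Fld 2) * (t 0) * (t 0 / t 1) ^ 2) +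
      (((0 : ℤ) : Fld 2) * (t 0) ^ 2 + ((0 : ℤ) : Fld 2) * (t 0) ^ 2 * (t 0 / t 1) + ((0 : ℤ) : Fld 2) * (t 0) ^ 2 * (t 0 / t 1) ^ 2)
  push_cast
  try field_simp
  try ring

theorem Txy_03 : Quad Txy (lam 0) (lam 3) := by
  have h0 := t_ne 0
  have h1 := t_ne 1
  have h2 := t_sub_one_ne 0
  have h3 := t_sub_one_ne 1
  refine quad_of 1 (-2) 1 (-1) 2 (-1) 0 0 0 ?_
  rw [bil_lam]
  show (0) * 1 * (1 / (t 1 - 1)) + ((t 0 - t 1) ^ 2) * 1 * (-(t 0 - 1) / (t 1 - 1) ^ 2) + (((t 0 - t 1) ^ 2) * 0 * (1 / (t 1 - 1)) + (0) * 0 * (-(t 0 - 1) / (t 1 - 1) ^ 2)) =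
    ((1 : ℤ) : Fld 2) + ((-2 : ℤ) : Fld 2) * ((t 0 - 1) / (t 1 - 1)) + ((1 : ℤ) : Fld 2) * ((t 0 - 1) / (t 1 - 1)) ^ 2 +
      (((-1 : ℤ) : Fld 2) * (t 0) + ((2 : ℤ) : Fld 2) * (t 0) * ((t 0 - 1) / (t 1 - 1)) + ((-1 : ℤ) : Fld 2) * (t 0) * ((t 0 - 1) / (t 1 - 1)) ^ 2) +
      (((0 : ℤ) : Fld 2) * (t 0) ^ 2 + ((0 : ℤ) : Fld 2) * (t 0) ^ 2 * ((t 0 - 1) / (t 1 - 1)) + ((0 : ℤ) : Fld 2) * (t 0) ^ 2 * ((t 0 - 1) / (t 1 - 1)) ^ 2)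
  push_cast
  try field_simp
  try ring

theorem Txy_04 : Quad Txy (lam 0) (lam 4) := by
  have h0 := t_ne 0
  have h1 := t_ne 1
  have h2 := t_sub_one_ne 0
  have h3 := t_sub_one_ne 1
  refine quad_of 0 0 0 (-1) 2 (-1) 1 (-2) 1 ?_
  rw [bil_lam]
  show (0) * 1 * (-(t 1 - 1) / (t 1 * (t 0 - 1) ^ 2)) + ((t 0 - t 1) ^ 2) * 1 * (t 0 / ((t 0 - 1) * t 1 ^ 2)) + (((t 0 - t 1) ^ 2) * 0 * (-(t 1 - 1) / (t 1 * (t 0 - 1) ^ 2)) + (0) * 0 * (t 0 / ((t 0 - 1) * t 1 ^ 2))) =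
    ((0 : ℤ) : Fld 2) + ((0 : ℤ) : Fld 2) * (t 0 * (t 1 - 1) / ((t 0 - 1) * t 1)) + ((0 : ℤ) : Fld 2) * (t 0 * (t 1 - 1) / ((t 0 - 1) * t 1)) ^ 2 +
      (((-1 : ℤ) : Fld 2) * (t 0) + ((2 : ℤ) : Fld 2) * (t 0) * (t 0 * (t 1 - 1) / ((t 0 - 1) * t 1)) + ((-1 : ℤ) : Fld 2) * (t 0) * (t 0 * (t 1 - 1) / ((t 0 - 1) * t 1)) ^ 2) +
      (((1 : ℤ) : Fld 2) * (t 0) ^ 2 + ((-2 : ℤ) : Fld 2) * (t 0) ^ 2 * (t 0 * (t 1 - 1) / ((t 0 - 1) * t 1)) + ((1 : ℤ) : Fld 2) * (t 0) ^ 2 * (t 0 * (t 1 - 1) / ((t 0 - 1) * t 1)) ^ 2)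
  push_cast
  try field_simp
  try ring

theorem Txy_11 : Quad Txy (lam 1) (lam 1) := by
  have h0 := t_ne 0
  have h1 := t_ne 1
  have h2 := t_sub_one_ne 0
  have h3 := t_sub_one_ne 1
  refine quad_of 0 0 0 0 0 0 0 0 0 ?_
  rw [bil_lam]
  show (0) * 0 * 0 + ((t 0 - t 1) ^ 2) * 0 * 1 + (((t 0 - t 1) ^ 2) * 1 * 0 + (0) * 1 * 1) =
    ((0 : ℤ) : Fld 2) + ((0 : ℤ) : Fld 2) * (t 1) + ((0 : ℤ) : Fld 2) * (t 1) ^ 2 +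
      (((0 : ℤ) : Fld 2) * (t 1) + ((0 : ℤ) : Fld 2) * (t 1) * (t 1) + ((0 : ℤ) : Fld 2) * (t 1) * (t 1) ^ 2) +
      (((0 : ℤ) : Fld 2) * (t 1) ^ 2 + ((0 : ℤ) : Fld 2) * (t 1) ^ 2 * (t 1) + ((0 : ℤ) : Fld 2) * (t 1) ^ 2 * (t 1) ^ 2)
  push_cast
  try field_simp
  try ring

theorem Txy_12 : Quad Txy (lam 1) (lam 2) := by
  have h0 := t_ne 0
  have h1 := t_ne 1
  have h2 := t_sub_one_ne 0
  have h3 := t_sub_one_ne 1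
  refine quad_of 0 0 0 1 (-2) 1 0 0 0 ?_
  rw [bil_lam]
  show (0) * 0 * (1 / t 1) + ((t 0 - t 1) ^ 2) * 0 * (-t 0 / t 1 ^ 2) + (((t 0 - t 1) ^ 2) * 1 * (1 / t 1) + (0) * 1 * (-t 0 / t 1 ^ 2)) =
    ((0 : ℤ) : Fld 2) + ((0 : ℤ) : Fld 2) * (t 0 / t 1) + ((0 : ℤ) : Fld 2) * (t 0 / t 1) ^ 2 +
      (((1 : ℤ) : Fld 2) * (t 1) + ((-2 : ℤ) : Fld 2) * (t 1) * (t 0 / t 1) + ((1 : ℤ) : Fld 2) * (t 1) * (t 0 / t 1) ^ 2) +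
      (((0 : ℤ) : Fld 2) * (t 1) ^ 2 + ((0 : ℤ) : Fld 2) * (t 1) ^ 2 * (t 0 / t 1) + ((0 : ℤ) : Fld 2) * (t 1) ^ 2 * (t 0 / t 1) ^ 2)
  push_cast
  try field_simp
  try ring

theorem Txy_13 : Quad Txy (lam 1) (lam 3) := by
  have h0 := t_ne 0
  have h1 := t_ne 1
  have h2 := t_sub_one_ne 0
  have h3 := t_sub_one_ne 1
  refine quad_of (-1) 2 (-1) 1 (-2) 1 0 0 0 ?_
  rw [bil_lam]
  show (0) * 0 * (1 / (t 1 - 1)) + ((t 0 - t 1) ^ 2) * 0 * (-(t 0 - 1) / (t 1 - 1) ^ 2) + (((t 0 - t 1) ^ 2) * 1 * (1 / (t 1 - 1)) + (0) * 1 * (-(t 0 - 1) / (t 1 - 1) ^ 2)) =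
    ((-1 : ℤ) : Fld 2) + ((2 : ℤ) : Fld 2) * ((t 0 - 1) / (t 1 - 1)) + ((-1 : ℤ) : Fld 2) * ((t 0 - 1) / (t 1 - 1)) ^ 2 +
      (((1 : ℤ) : Fld 2) * (t 1) + ((-2 : ℤ) : Fld 2) * (t 1) * ((t 0 - 1) / (t 1 - 1)) + ((1 : ℤ) : Fld 2) * (t 1) * ((t 0 - 1) / (t 1 - 1)) ^ 2) +
      (((0 : ℤ) : Fld 2) * (t 1) ^ 2 + ((0 : ℤ) : Fld 2) * (t 1) ^ 2 * ((t 0 - 1) / (t 1 - 1)) + ((0 : ℤ) : Fld 2) * (t 1) ^ 2 * ((t 0 - 1) / (t 1 - 1)) ^ 2)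
  push_cast
  try field_simp
  try ring

theorem Txy_14 : Quad Txy (lam 1) (lam 4) := by
  have h0 := t_ne 0
  have h1 := t_ne 1
  have h2 := t_sub_one_ne 0
  have h3 := t_sub_one_ne 1
  refine quad_of 0 0 0 1 (-2) 1 (-1) 2 (-1) ?_
  rw [bil_lam]
  show (0) * 0 * (-(t 1 - 1) / (t 1 * (t 0 - 1) ^ 2)) + ((t 0 - t 1) ^ 2) * 0 * (t 0 / ((t 0 - 1) * t 1 ^ 2)) + (((t 0 - t 1) ^ 2) * 1 * (-(t 1 - 1) / (t 1 * (t 0 - 1) ^ 2)) + (0) * 1 * (t 0 / ((t 0 - 1) * t 1 ^ 2))) =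
    ((0 : ℤ) : Fld 2) + ((0 : ℤ) : Fld 2) * (t 0 * (t 1 - 1) / ((t 0 - 1) * t 1)) + ((0 : ℤ) : Fld 2) * (t 0 * (t 1 - 1) / ((t 0 - 1) * t 1)) ^ 2 +
      (((1 : ℤ) : Fld 2) * (t 1) + ((-2 : ℤ) : Fld 2) * (t 1) * (t 0 * (t 1 - 1) / ((t 0 - 1) * t 1)) + ((1 : ℤ) : Fld 2) * (t 1) * (t 0 * (t 1 - 1) / ((t 0 - 1) * t 1)) ^ 2) +
      (((-1 : ℤ) : Fld 2) * (t 1) ^ 2 + ((2 : ℤ) : Fld 2) * (t 1) ^ 2 * (t 0 * (t 1 - 1) / ((t 0 - 1) * t 1)) + ((-1 : ℤ) : Fld 2) * (t 1) ^ 2 * (t 0 * (t 1 - 1) / ((t 0 - 1) * t 1)) ^ 2)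
  push_cast
  try field_simp
  try ring

theorem Txy_22 : Quad Txy (lam 2) (lam 2) := by
  have h0 := t_ne 0
  have h1 := t_ne 1
  have h2 := t_sub_one_ne 0
  have h3 := t_sub_one_ne 1
  refine quad_of 0 (-2) 4 0 0 (-2) 0 0 0 ?_
  rw [bil_lam]
  show (0) * (1 / t 1) * (1 / t 1) + ((t 0 - t 1) ^ 2) * (1 / t 1) * (-t 0 / t 1 ^ 2) + (((t 0 - t 1) ^ 2) * (-t 0 / t 1 ^ 2) * (1 / t 1) + (0) * (-t 0 / t 1 ^ 2) * (-t 0 / t 1 ^ 2)) =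
    ((0 : ℤ) : Fld 2) + ((-2 : ℤ) : Fld 2) * (t 0 / t 1) + ((4 : ℤ) : Fld 2) * (t 0 / t 1) ^ 2 +
      (((0 : ℤ) : Fld 2) * (t 0 / t 1) + ((0 : ℤ) : Fld 2) * (t 0 / t 1) * (t 0 / t 1) + ((-2 : ℤ) : Fld 2) * (t 0 / t 1) * (t 0 / t 1) ^ 2) +
      (((0 : ℤ) : Fld 2) * (t 0 / t 1) ^ 2 + ((0 : ℤ) : Fld 2) * (t 0 / t 1) ^ 2 * (t 0 / t 1) + ((0 : ℤ) : Fld 2) * (t 0 / t 1) ^ 2 * (t 0 / t 1) ^ 2)
  push_cast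
  try field_simp
  try ring

theorem Txy_23 : Quad Txy (lam 2) (lam 3) := by
  have h0 := t_ne 0
  have h1 := t_ne 1
  have h2 := t_sub_one_ne 0
  have h3 := t_sub_one_ne 1
  refine quad_of 0 (-1) 1 (-1) 2 (-1) 1 (-1) 0 ?_
  rw [bil_lam]
  show (0) * (1 / t 1) * (1 / (t 1 - 1)) + ((t 0 - t 1) ^ 2) * (1 / t 1) * (-(t 0 - 1) / (t 1 - 1) ^ 2) + (((t 0 - t 1) ^ 2) * (-t 0 / t 1 ^ 2) * (1 / (t 1 - 1)) + (0) * (-t 0 / t 1 ^ 2) * (-(t 0 - 1) / (t 1 - 1) ^ 2)) =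
    ((0 : ℤ) : Fld 2) + ((-1 : ℤ) : Fld 2) * ((t 0 - 1) / (t 1 - 1)) + ((1 : ℤ) : Fld 2) * ((t 0 - 1) / (t 1 - 1)) ^ 2 +
      (((-1 : ℤ) : Fld 2) * (t 0 / t 1) + ((2 : ℤ) : Fld 2) * (t 0 / t 1) * ((t 0 - 1) / (t 1 - 1)) + ((-1 : ℤ) : Fld 2) * (t 0 / t 1) * ((t 0 - 1) / (t 1 - 1)) ^ 2) +
      (((1 : ℤ) : Fld 2) * (t 0 / t 1) ^ 2 + ((-1 : ℤ) : Fld 2) * (t 0 / t 1) ^ 2 * ((t 0 - 1) / (t 1 - 1)) + ((0 : ℤ) : Fld 2) * (t 0 / t 1) ^ 2 * ((t 0 - 1) / (t 1 - 1)) ^ 2)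
  push_cast
  try field_simp
  try ring

theorem Txy_24 : Quad Txy (lam 2) (lam 4) := by
  have h0 := t_ne 0
  have h1 := t_ne 1
  have h2 := t_sub_one_ne 0
  have h3 := t_sub_one_ne 1
  refine quad_of 0 (-1) 1 (-1) 2 (-1) 1 (-1) 0 ?_
  rw [bil_lam]
  show (0) * (1 / t 1) * (-(t 1 - 1) / (t 1 * (t 0 - 1) ^ 2)) + ((t 0 - t 1) ^ 2) * (1 / t 1) * (t 0 / ((t 0 - 1) * t 1 ^ 2)) + (((t 0 - t 1) ^ 2) * (-t 0 / t 1 ^ 2) * (-(t 1 - 1) / (t 1 * (t 0 - 1) ^ 2)) + (0) * (-t 0 / t 1 ^ 2) * (t 0 / ((t 0 - 1) * t 1 ^ 2))) =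
    ((0 : ℤ) : Fld 2) + ((-1 : ℤ) : Fld 2) * (t 0 * (t 1 - 1) / ((t 0 - 1) * t 1)) + ((1 : ℤ) : Fld 2) * (t 0 * (t 1 - 1) / ((t 0 - 1) * t 1)) ^ 2 +
      (((-1 : ℤ) : Fld 2) * (t 0 / t 1) + ((2 : ℤ) : Fld 2) * (t 0 / t 1) * (t 0 * (t 1 - 1) / ((t 0 - 1) * t 1)) + ((-1 : ℤ) : Fld 2) * (t 0 / t 1) * (t 0 * (t 1 - 1) / ((t 0 - 1) * t 1)) ^ 2) +
      (((1 : ℤ) : Fld 2) * (t 0 / t 1) ^ 2 + ((-1 : ℤ) : Fld 2) * (t 0 / t 1) ^ 2 * (t 0 * (t 1 - 1) / ((t 0 - 1) * t 1)) + ((0 : ℤ) : Fld 2) * (t 0 / t 1) ^ 2 * (t 0 * (t 1 - 1) / ((t 0 - 1) * t 1)) ^ 2)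
  push_cast
  try field_simp
  try ring

theorem Txy_33 : Quad Txy (lam 3) (lam 3) := by
  have h0 := t_ne 0
  have h1 := t_ne 1
  have h2 := t_sub_one_ne 0
  have h3 := t_sub_one_ne 1
  refine quad_of 0 (-2) 4 0 0 (-2) 0 0 0 ?_
  rw [bil_lam]
  show (0) * (1 / (t 1 - 1)) * (1 / (t 1 - 1)) + ((t 0 - t 1) ^ 2) * (1 / (t 1 - 1)) * (-(t 0 - 1) / (t 1 - 1) ^ 2) + (((t 0 - t 1) ^ 2) * (-(t 0 - 1) / (t 1 - 1) ^ 2) * (1 / (t 1 - 1)) + (0) * (-(t 0 - 1) / (t 1 - 1) ^ 2) * (-(t 0 - 1) / (t 1 - 1) ^ 2)) =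
    ((0 : ℤ) : Fld 2) + ((-2 : ℤ) : Fld 2) * ((t 0 - 1) / (t 1 - 1)) + ((4 : ℤ) : Fld 2) * ((t 0 - 1) / (t 1 - 1)) ^ 2 +
      (((0 : ℤ) : Fld 2) * ((t 0 - 1) / (t 1 - 1)) + ((0 : ℤ) : Fld 2) * ((t 0 - 1) / (t 1 - 1)) * ((t 0 - 1) / (t 1 - 1)) + ((-2 : ℤ) : Fld 2) * ((t 0 - 1) / (t 1 - 1)) * ((t 0 - 1) / (t 1 - 1)) ^ 2) +
      (((0 : ℤ) : Fld 2) * ((t 0 - 1) / (t 1 - 1)) ^ 2 + ((0 : ℤ) : Fld 2) * ((t 0 - 1) / (t 1 - 1)) ^ 2 * ((t 0 - 1) / (t 1 - 1)) + ((0 : ℤ) : Fld 2) * ((t 0 - 1) / (t 1 - 1)) ^ 2 * ((t 0 - 1) / (t 1 - 1)) ^ 2)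
  push_cast
  try field_simp
  try ring

theorem Txy_34 : Quad Txy (lam 3) (lam 4) := by
  have h0 := t_ne 0
  have h1 := t_ne 1
  have h2 := t_sub_one_ne 0
  have h3 := t_sub_one_ne 1
  refine quad_of (-1) 1 0 1 (-2) 1 0 1 (-1) ?_
  rw [bil_lam]
  show (0) * (1 / (t 1 - 1)) * (-(t 1 - 1) / (t 1 * (t 0 - 1) ^ 2)) + ((t 0 - t 1) ^ 2) * (1 / (t 1 - 1)) * (t 0 / ((t 0 - 1) * t 1 ^ 2)) + (((t 0 - t 1) ^ 2) * (-(t 0 - 1) / (t 1 - 1) ^ 2) * (-(t 1 - 1) / (t 1 * (t 0 - 1) ^ 2)) + (0) * (-(t 0 - 1) / (t 1 - 1) ^ 2) * (t 0 / ((t 0 - 1) * t 1 ^ 2))) =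
    ((-1 : ℤ) : Fld 2) + ((1 : ℤ) : Fld 2) * (t 0 * (t 1 - 1) / ((t 0 - 1) * t 1)) + ((0 : ℤ) : Fld 2) * (t 0 * (t 1 - 1) / ((t 0 - 1) * t 1)) ^ 2 +
      (((1 : ℤ) : Fld 2) * ((t 0 - 1) / (t 1 - 1)) + ((-2 : ℤ) : Fld 2) * ((t 0 - 1) / (t 1 - 1)) * (t 0 * (t 1 - 1) / ((t 0 - 1) * t 1)) + ((1 : ℤ) : Fld 2) * ((t 0 - 1) / (t 1 - 1)) * (t 0 * (t 1 - 1) / ((t 0 - 1) * t 1)) ^ 2) +
      (((0 : ℤ) : Fld 2) * ((t 0 - 1) / (t 1 - 1)) ^ 2 + ((1 : ℤ) : Fld 2) * ((t 0 - 1) / (t 1 - 1)) ^ 2 * (t 0 * (t 1 - 1) / ((t 0 - 1) * t 1)) + ((-1 : ℤ) : Fld 2) * ((t 0 - 1) / (t 1 - 1)) ^ 2 * (t 0 * (t 1 - 1) / ((t 0 - 1) * t 1)) ^ 2)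
  push_cast
  try field_simp
  try ring

theorem Txy_44 : Quad Txy (lam 4) (lam 4) := by
  have h0 := t_ne 0
  have h1 := t_ne 1
  have h2 := t_sub_one_ne 0
  have h3 := t_sub_one_ne 1
  refine quad_of 0 (-2) 4 0 0 (-2) 0 0 0 ?_
  rw [bil_lam]
  show (0) * (-(t 1 - 1) / (t 1 * (t 0 - 1) ^ 2)) * (-(t 1 - 1) / (t 1 * (t 0 - 1) ^ 2)) + ((t 0 - t 1) ^ 2) * (-(t 1 - 1) / (t 1 * (t 0 - 1) ^ 2)) * (t 0 / ((t 0 - 1) * t 1 ^ 2)) + (((t 0 - t 1) ^ 2) * (t 0 / ((t 0 - 1) * t 1 ^ 2)) * (-(t 1 - 1) / (t 1 * (t 0 - 1) ^ 2)) + (0) * (t 0 / ((t 0 - 1) * t 1 ^ 2)) * (t 0 / ((t 0 - 1) * t 1 ^ 2))) =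
    ((0 : ℤ) : Fld 2) + ((-2 : ℤ) : Fld 2) * (t 0 * (t 1 - 1) / ((t 0 - 1) * t 1)) + ((4 : ℤ) : Fld 2) * (t 0 * (t 1 - 1) / ((t 0 - 1) * t 1)) ^ 2 +
      (((0 : ℤ) : Fld 2) * (t 0 * (t 1 - 1) / ((t 0 - 1) * t 1)) + ((0 : ℤ) : Fld 2) * (t 0 * (t 1 - 1) / ((t 0 - 1) * t 1)) * (t 0 * (t 1 - 1) / ((t 0 - 1) * t 1)) + ((-2 : ℤ) : Fld 2) * (t 0 * (t 1 - 1) / ((t 0 - 1) * t 1)) * (t 0 * (t 1 - 1) / ((t 0 - 1) * t 1)) ^ 2) +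
      (((0 : ℤ) : Fld 2) * (t 0 * (t 1 - 1) / ((t 0 - 1) * t 1)) ^ 2 + ((0 : ℤ) : Fld 2) * (t 0 * (t 1 - 1) / ((t 0 - 1) * t 1)) ^ 2 * (t 0 * (t 1 - 1) / ((t 0 - 1) * t 1)) + ((0 : ℤ) : Fld 2) * (t 0 * (t 1 - 1) / ((t 0 - 1) * t 1)) ^ 2 * (t 0 * (t 1 - 1) / ((t 0 - 1) * t 1)) ^ 2)
  push_cast
  try field_simp
  try ring

/-- The matrix of a quadratic tensor. -/
def TxI : Fin 2 → Fin 2 → Fld 2 := ![![2 * (t 0 * (t 0 - 1)), t 1 * (t 1 - 1)], ![t 1 * (t 1 - 1), 0]]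

theorem TxI_symm (i j : Fin 2) : TxI i j = TxI j i := by
  fin_cases i <;> fin_cases j <;> rfl

theorem TxI_00 : Quad TxI (lam 0) (lam 0) := by
  have h0 := t_ne 0
  have h1 := t_ne 1
  have h2 := t_sub_one_ne 0
  have h3 := t_sub_one_ne 1
  refine quad_of 0 (-2) 2 0 0 0 0 0 0 ?_
  rw [bil_lam]
  show (2 * (t 0 * (t 0 - 1))) * 1 * 1 + (t 1 * (t 1 - 1)) * 1 * 0 + ((t 1 * (t 1 - 1)) * 0 * 1 + (0) * 0 * 0) =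
    ((0 : ℤ) : Fld 2) + ((-2 : ℤ) : Fld 2) * (t 0) + ((2 : ℤ) : Fld 2) * (t 0) ^ 2 +
      (((0 : ℤ) : Fld 2) * (t 0) + ((0 : ℤ) : Fld 2) * (t 0) * (t 0) + ((0 : ℤ) : Fld 2) * (t 0) * (t 0) ^ 2) +
      (((0 : ℤ) : Fld 2) * (t 0) ^ 2 + ((0 : ℤ) : Fld 2) * (t 0) ^ 2 * (t 0) + ((0 : ℤ) : Fld 2) * (t 0) ^ 2 * (t 0) ^ 2)
  push_cast
  try field_simp
  try ring

theorem TxI_01 : Quad TxI (lam 0) (lam 1) := by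
  have h0 := t_ne 0
  have h1 := t_ne 1
  have h2 := t_sub_one_ne 0
  have h3 := t_sub_one_ne 1
  refine quad_of 0 (-1) 1 0 0 0 0 0 0 ?_
  rw [bil_lam]
  show (2 * (t 0 * (t 0 - 1))) * 1 * 0 + (t 1 * (t 1 - 1)) * 1 * 1 + ((t 1 * (t 1 - 1)) * 0 * 0 + (0) * 0 * 1) =
    ((0 : ℤ) : Fld 2) + ((-1 : ℤ) : Fld 2) * (t 1) + ((1 : ℤ) : Fld 2) * (t 1) ^ 2 +
      (((0 : ℤ) : Fld 2) * (t 0) + ((0 : ℤ) : Fld 2) * (t 0) * (t 1) + ((0 : ℤ) : Fld 2) * (t 0) * (t 1) ^ 2) +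
      (((0 : ℤ) : Fld 2) * (t 0) ^ 2 + ((0 : ℤ) : Fld 2) * (t 0) ^ 2 * (t 1) + ((0 : ℤ) : Fld 2) * (t 0) ^ 2 * (t 1) ^ 2)
  push_cast
  try field_simp
  try ring

theorem TxI_02 : Quad TxI (lam 0) (lam 2) := by
  have h0 := t_ne 0
  have h1 := t_ne 1
  have h2 := t_sub_one_ne 0
  have h3 := t_sub_one_ne 1
  refine quad_of 0 (-1) 0 (-1) 2 0 0 0 0 ?_
  rw [bil_lam]
  show (2 * (t 0 * (t 0 - 1))) * 1 * (1 / t 1) + (t 1 * (t 1 - 1)) * 1 * (-t 0 / t 1 ^ 2) + ((t 1 * (t 1 - 1)) * 0 * (1 / t 1) + (0) * 0 * (-t 0 / t 1 ^ 2)) =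
    ((0 : ℤ) : Fld 2) + ((-1 : ℤ) : Fld 2) * (t 0 / t 1) + ((0 : ℤ) : Fld 2) * (t 0 / t 1) ^ 2 +
      (((-1 : ℤ) : Fld 2) * (t 0) + ((2 : ℤ) : Fld 2) * (t 0) * (t 0 / t 1) + ((0 : ℤ) : Fld 2) * (t 0) * (t 0 / t 1) ^ 2) +
      (((0 : ℤ) : Fld 2) * (t 0) ^ 2 + ((0 : ℤ) : Fld 2) * (t 0) ^ 2 * (t 0 / t 1) + ((0 : ℤ) : Fld 2) * (t 0) ^ 2 * (t 0 / t 1) ^ 2)
  push_cast
  try field_simp
  try ring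

theorem TxI_03 : Quad TxI (lam 0) (lam 3) := by
  have h0 := t_ne 0
  have h1 := t_ne 1
  have h2 := t_sub_one_ne 0
  have h3 := t_sub_one_ne 1
  refine quad_of 1 (-1) 0 (-1) 2 0 0 0 0 ?_
  rw [bil_lam]
  show (2 * (t 0 * (t 0 - 1))) * 1 * (1 / (t 1 - 1)) + (t 1 * (t 1 - 1)) * 1 * (-(t 0 - 1) / (t 1 - 1) ^ 2) + ((t 1 * (t 1 - 1)) * 0 * (1 / (t 1 - 1)) + (0) * 0 * (-(t 0 - 1) / (t 1 - 1) ^ 2)) =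
    ((1 : ℤ) : Fld 2) + ((-1 : ℤ) : Fld 2) * ((t 0 - 1) / (t 1 - 1)) + ((0 : ℤ) : Fld 2) * ((t 0 - 1) / (t 1 - 1)) ^ 2 +
      (((-1 : ℤ) : Fld 2) * (t 0) + ((2 : ℤ) : Fld 2) * (t 0) * ((t 0 - 1) / (t 1 - 1)) + ((0 : ℤ) : Fld 2) * (t 0) * ((t 0 - 1) / (t 1 - 1)) ^ 2) +
      (((0 : ℤ) : Fld 2) * (t 0) ^ 2 + ((0 : ℤ) : Fld 2) * (t 0) ^ 2 * ((t 0 - 1) / (t 1 - 1)) + ((0 : ℤ) : Fld 2) * (t 0) ^ 2 * ((t 0 - 1) / (t 1 - 1)) ^ 2)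
  push_cast
  try field_simp
  try ring

theorem TxI_04 : Quad TxI (lam 0) (lam 4) := by
  have h0 := t_ne 0
  have h1 := t_ne 1
  have h2 := t_sub_one_ne 0
  have h3 := t_sub_one_ne 1
  refine quad_of 0 (-1) 0 0 0 0 0 0 0 ?_
  rw [bil_lam]
  show (2 * (t 0 * (t 0 - 1))) * 1 * (-(t 1 - 1) / (t 1 * (t 0 - 1) ^ 2)) + (t 1 * (t 1 - 1)) * 1 * (t 0 / ((t 0 - 1) * t 1 ^ 2)) + ((t 1 * (t 1 - 1)) * 0 * (-(t 1 - 1) / (t 1 * (t 0 - 1) ^ 2)) + (0) * 0 * (t 0 / ((t 0 - 1) * t 1 ^ 2))) =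
    ((0 : ℤ) : Fld 2) + ((-1 : ℤ) : Fld 2) * (t 0 * (t 1 - 1) / ((t 0 - 1) * t 1)) + ((0 : ℤ) : Fld 2) * (t 0 * (t 1 - 1) / ((t 0 - 1) * t 1)) ^ 2 +
      (((0 : ℤ) : Fld 2) * (t 0) + ((0 : ℤ) : Fld 2) * (t 0) * (t 0 * (t 1 - 1) / ((t 0 - 1) * t 1)) + ((0 : ℤ) : Fld 2) * (t 0) * (t 0 * (t 1 - 1) / ((t 0 - 1) * t 1)) ^ 2) +
      (((0 : ℤ) : Fld 2) * (t 0) ^ 2 + ((0 : ℤ) : Fld 2) * (t 0) ^ 2 * (t 0 * (t 1 - 1) / ((t 0 - 1) * t 1)) + ((0 : ℤ) : Fld 2) * (t 0) ^ 2 * (t 0 * (t 1 - 1) / ((t 0 - 1) * t 1)) ^ 2)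
  push_cast
  try field_simp
  try ring

theorem TxI_11 : Quad TxI (lam 1) (lam 1) := by
  have h0 := t_ne 0
  have h1 := t_ne 1
  have h2 := t_sub_one_ne 0
  have h3 := t_sub_one_ne 1
  refine quad_of 0 0 0 0 0 0 0 0 0 ?_
  rw [bil_lam]
  show (2 * (t 0 * (t 0 - 1))) * 0 * 0 + (t 1 * (t 1 - 1)) * 0 * 1 + ((t 1 * (t 1 - 1)) * 1 * 0 + (0) * 1 * 1) =
    ((0 : ℤ) : Fld 2) + ((0 : ℤ) : Fld 2) * (t 1) + ((0 : ℤ) : Fld 2) * (t 1) ^ 2 +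
      (((0 : ℤ) : Fld 2) * (t 1) + ((0 : ℤ) : Fld 2) * (t 1) * (t 1) + ((0 : ℤ) : Fld 2) * (t 1) * (t 1) ^ 2) +
      (((0 : ℤ) : Fld 2) * (t 1) ^ 2 + ((0 : ℤ) : Fld 2) * (t 1) ^ 2 * (t 1) + ((0 : ℤ) : Fld 2) * (t 1) ^ 2 * (t 1) ^ 2)
  push_cast
  try field_simp
  try ring

theorem TxI_12 : Quad TxI (lam 1) (lam 2) := by
  have h0 := t_ne 0
  have h1 := t_ne 1
  have h2 := t_sub_one_ne 0
  have h3 := t_sub_one_ne 1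
  refine quad_of (-1) 0 0 1 0 0 0 0 0 ?_
  rw [bil_lam]
  show (2 * (t 0 * (t 0 - 1))) * 0 * (1 / t 1) + (t 1 * (t 1 - 1)) * 0 * (-t 0 / t 1 ^ 2) + ((t 1 * (t 1 - 1)) * 1 * (1 / t 1) + (0) * 1 * (-t 0 / t 1 ^ 2)) =
    ((-1 : ℤ) : Fld 2) + ((0 : ℤ) : Fld 2) * (t 0 / t 1) + ((0 : ℤ) : Fld 2) * (t 0 / t 1) ^ 2 +
      (((1 : ℤ) : Fld 2) * (t 1) + ((0 : ℤ) : Fld 2) * (t 1) * (t 0 / t 1) + ((0 : ℤ) : Fld 2) * (t 1) * (t 0 / t 1) ^ 2) +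
      (((0 : ℤ) : Fld 2) * (t 1) ^ 2 + ((0 : ℤ) : Fld 2) * (t 1) ^ 2 * (t 0 / t 1) + ((0 : ℤ) : Fld 2) * (t 1) ^ 2 * (t 0 / t 1) ^ 2)
  push_cast
  try field_simp
  try ring

theorem TxI_13 : Quad TxI (lam 1) (lam 3) := by
  have h0 := t_ne 0
  have h1 := t_ne 1
  have h2 := t_sub_one_ne 0
  have h3 := t_sub_one_ne 1
  refine quad_of 0 0 0 1 0 0 0 0 0 ?_
  rw [bil_lam]
  show (2 * (t 0 * (t 0 - 1))) * 0 * (1 / (t 1 - 1)) + (t 1 * (t 1 - 1)) * 0 * (-(t 0 - 1) / (t 1 - 1) ^ 2) + ((t 1 * (t 1 - 1)) * 1 * (1 / (t 1 - 1)) + (0) * 1 * (-(t 0 - 1) / (t 1 - 1) ^ 2)) =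
    ((0 : ℤ) : Fld 2) + ((0 : ℤ) : Fld 2) * ((t 0 - 1) / (t 1 - 1)) + ((0 : ℤ) : Fld 2) * ((t 0 - 1) / (t 1 - 1)) ^ 2 +
      (((1 : ℤ) : Fld 2) * (t 1) + ((0 : ℤ) : Fld 2) * (t 1) * ((t 0 - 1) / (t 1 - 1)) + ((0 : ℤ) : Fld 2) * (t 1) * ((t 0 - 1) / (t 1 - 1)) ^ 2) +
      (((0 : ℤ) : Fld 2) * (t 1) ^ 2 + ((0 : ℤ) : Fld 2) * (t 1) ^ 2 * ((t 0 - 1) / (t 1 - 1)) + ((0 : ℤ) : Fld 2) * (t 1) ^ 2 * ((t 0 - 1) / (t 1 - 1)) ^ 2)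
  push_cast
  try field_simp
  try ring

theorem TxI_14 : Quad TxI (lam 1) (lam 4) := by
  have h0 := t_ne 0
  have h1 := t_ne 1
  have h2 := t_sub_one_ne 0
  have h3 := t_sub_one_ne 1
  refine quad_of (-1) 0 0 2 (-2) 0 (-1) 2 (-1) ?_
  rw [bil_lam]
  show (2 * (t 0 * (t 0 - 1))) * 0 * (-(t 1 - 1) / (t 1 * (t 0 - 1) ^ 2)) + (t 1 * (t 1 - 1)) * 0 * (t 0 / ((t 0 - 1) * t 1 ^ 2)) + ((t 1 * (t 1 - 1)) * 1 * (-(t 1 - 1) / (t 1 * (t 0 - 1) ^ 2)) + (0) * 1 * (t 0 / ((t 0 - 1) * t 1 ^ 2))) =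
    ((-1 : ℤ) : Fld 2) + ((0 : ℤ) : Fld 2) * (t 0 * (t 1 - 1) / ((t 0 - 1) * t 1)) + ((0 : ℤ) : Fld 2) * (t 0 * (t 1 - 1) / ((t 0 - 1) * t 1)) ^ 2 +
      (((2 : ℤ) : Fld 2) * (t 1) + ((-2 : ℤ) : Fld 2) * (t 1) * (t 0 * (t 1 - 1) / ((t 0 - 1) * t 1)) + ((0 : ℤ) : Fld 2) * (t 1) * (t 0 * (t 1 - 1) / ((t 0 - 1) * t 1)) ^ 2) +
      (((-1 : ℤ) : Fld 2) * (t 1) ^ 2 + ((2 : ℤ) : Fld 2) * (t 1) ^ 2 * (t 0 * (t 1 - 1) / ((t 0 - 1) * t 1)) + ((-1 : ℤ) : Fld 2) * (t 1) ^ 2 * (t 0 * (t 1 - 1) / ((t 0 - 1) * t 1)) ^ 2)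
  push_cast
  try field_simp
  try ring

theorem TxI_22 : Quad TxI (lam 2) (lam 2) := by
  have h0 := t_ne 0
  have h1 := t_ne 1
  have h2 := t_sub_one_ne 0
  have h3 := t_sub_one_ne 1
  refine quad_of 0 (-2) 2 0 0 0 0 0 0 ?_
  rw [bil_lam]
  show (2 * (t 0 * (t 0 - 1))) * (1 / t 1) * (1 / t 1) + (t 1 * (t 1 - 1)) * (1 / t 1) * (-t 0 / t 1 ^ 2) + ((t 1 * (t 1 - 1)) * (-t 0 / t 1 ^ 2) * (1 / t 1) + (0) * (-t 0 / t 1 ^ 2) * (-t 0 / t 1 ^ 2)) =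
    ((0 : ℤ) : Fld 2) + ((-2 : ℤ) : Fld 2) * (t 0 / t 1) + ((2 : ℤ) : Fld 2) * (t 0 / t 1) ^ 2 +
      (((0 : ℤ) : Fld 2) * (t 0 / t 1) + ((0 : ℤ) : Fld 2) * (t 0 / t 1) * (t 0 / t 1) + ((0 : ℤ) : Fld 2) * (t 0 / t 1) * (t 0 / t 1) ^ 2) +
      (((0 : ℤ) : Fld 2) * (t 0 / t 1) ^ 2 + ((0 : ℤ) : Fld 2) * (t 0 / t 1) ^ 2 * (t 0 / t 1) + ((0 : ℤ) : Fld 2) * (t 0 / t 1) ^ 2 * (t 0 / t 1) ^ 2)
  push_cast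
  try field_simp
  try ring

theorem TxI_23 : Quad TxI (lam 2) (lam 3) := by
  have h0 := t_ne 0
  have h1 := t_ne 1
  have h2 := t_sub_one_ne 0
  have h3 := t_sub_one_ne 1
  refine quad_of 0 (-1) 0 (-1) 2 0 0 0 0 ?_
  rw [bil_lam]
  show (2 * (t 0 * (t 0 - 1))) * (1 / t 1) * (1 / (t 1 - 1)) + (t 1 * (t 1 - 1)) * (1 / t 1) * (-(t 0 - 1) / (t 1 - 1) ^ 2) + ((t 1 * (t 1 - 1)) * (-t 0 / t 1 ^ 2) * (1 / (t 1 - 1)) + (0) * (-t 0 / t 1 ^ 2) * (-(t 0 - 1) / (t 1 - 1) ^ 2)) =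
    ((0 : ℤ) : Fld 2) + ((-1 : ℤ) : Fld 2) * ((t 0 - 1) / (t 1 - 1)) + ((0 : ℤ) : Fld 2) * ((t 0 - 1) / (t 1 - 1)) ^ 2 +
      (((-1 : ℤ) : Fld 2) * (t 0 / t 1) + ((2 : ℤ) : Fld 2) * (t 0 / t 1) * ((t 0 - 1) / (t 1 - 1)) + ((0 : ℤ) : Fld 2) * (t 0 / t 1) * ((t 0 - 1) / (t 1 - 1)) ^ 2) +
      (((0 : ℤ) : Fld 2) * (t 0 / t 1) ^ 2 + ((0 : ℤ) : Fld 2) * (t 0 / t 1) ^ 2 * ((t 0 - 1) / (t 1 - 1)) + ((0 : ℤ) : Fld 2) * (t 0 / t 1) ^ 2 * ((t 0 - 1) / (t 1 - 1)) ^ 2)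
  push_cast
  try field_simp
  try ring

theorem TxI_24 : Quad TxI (lam 2) (lam 4) := by
  have h0 := t_ne 0
  have h1 := t_ne 1
  have h2 := t_sub_one_ne 0
  have h3 := t_sub_one_ne 1
  refine quad_of 0 (-1) 1 0 0 0 0 0 0 ?_
  rw [bil_lam]
  show (2 * (t 0 * (t 0 - 1))) * (1 / t 1) * (-(t 1 - 1) / (t 1 * (t 0 - 1) ^ 2)) + (t 1 * (t 1 - 1)) * (1 / t 1) * (t 0 / ((t 0 - 1) * t 1 ^ 2)) + ((t 1 * (t 1 - 1)) * (-t 0 / t 1 ^ 2) * (-(t 1 - 1) / (t 1 * (t 0 - 1) ^ 2)) + (0) * (-t 0 / t 1 ^ 2) * (t 0 / ((t 0 - 1) * t 1 ^ 2))) =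
    ((0 : ℤ) : Fld 2) + ((-1 : ℤ) : Fld 2) * (t 0 * (t 1 - 1) / ((t 0 - 1) * t 1)) + ((1 : ℤ) : Fld 2) * (t 0 * (t 1 - 1) / ((t 0 - 1) * t 1)) ^ 2 +
      (((0 : ℤ) : Fld 2) * (t 0 / t 1) + ((0 : ℤ) : Fld 2) * (t 0 / t 1) * (t 0 * (t 1 - 1) / ((t 0 - 1) * t 1)) + ((0 : ℤ) : Fld 2) * (t 0 / t 1) * (t 0 * (t 1 - 1) / ((t 0 - 1) * t 1)) ^ 2) +
      (((0 : ℤ) : Fld 2) * (t 0 / t 1) ^ 2 + ((0 : ℤ) : Fld 2) * (t 0 / t 1) ^ 2 * (t 0 * (t 1 - 1) / ((t 0 - 1) * t 1)) + ((0 : ℤ) : Fld 2) * (t 0 / t 1) ^ 2 * (t 0 * (t 1 - 1) / ((t 0 - 1) * t 1)) ^ 2)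
  push_cast
  try field_simp
  try ring

theorem TxI_33 : Quad TxI (lam 3) (lam 3) := by
  have h0 := t_ne 0
  have h1 := t_ne 1
  have h2 := t_sub_one_ne 0
  have h3 := t_sub_one_ne 1
  refine quad_of 0 (-2) 2 0 0 0 0 0 0 ?_
  rw [bil_lam]
  show (2 * (t 0 * (t 0 - 1))) * (1 / (t 1 - 1)) * (1 / (t 1 - 1)) + (t 1 * (t 1 - 1)) * (1 / (t 1 - 1)) * (-(t 0 - 1) / (t 1 - 1) ^ 2) + ((t 1 * (t 1 - 1)) * (-(t 0 - 1) / (t 1 - 1) ^ 2) * (1 / (t 1 - 1)) + (0) * (-(t 0 - 1) / (t 1 - 1) ^ 2) * (-(t 0 - 1) / (t 1 - 1) ^ 2)) =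
    ((0 : ℤ) : Fld 2) + ((-2 : ℤ) : Fld 2) * ((t 0 - 1) / (t 1 - 1)) + ((2 : ℤ) : Fld 2) * ((t 0 - 1) / (t 1 - 1)) ^ 2 +
      (((0 : ℤ) : Fld 2) * ((t 0 - 1) / (t 1 - 1)) + ((0 : ℤ) : Fld 2) * ((t 0 - 1) / (t 1 - 1)) * ((t 0 - 1) / (t 1 - 1)) + ((0 : ℤ) : Fld 2) * ((t 0 - 1) / (t 1 - 1)) * ((t 0 - 1) / (t 1 - 1)) ^ 2) +
      (((0 : ℤ) : Fld 2) * ((t 0 - 1) / (t 1 - 1)) ^ 2 + ((0 : ℤ) : Fld 2) * ((t 0 - 1) / (t 1 - 1)) ^ 2 * ((t 0 - 1) / (t 1 - 1)) + ((0 : ℤ) : Fld 2) * ((t 0 - 1) / (t 1 - 1)) ^ 2 * ((t 0 - 1) / (t 1 - 1)) ^ 2)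
  push_cast
  try field_simp
  try ring

theorem TxI_34 : Quad TxI (lam 3) (lam 4) := by
  have h0 := t_ne 0
  have h1 := t_ne 1
  have h2 := t_sub_one_ne 0
  have h3 := t_sub_one_ne 1
  refine quad_of (-1) 1 0 0 0 0 0 0 0 ?_
  rw [bil_lam]
  show (2 * (t 0 * (t 0 - 1))) * (1 / (t 1 - 1)) * (-(t 1 - 1) / (t 1 * (t 0 - 1) ^ 2)) + (t 1 * (t 1 - 1)) * (1 / (t 1 - 1)) * (t 0 / ((t 0 - 1) * t 1 ^ 2)) + ((t 1 * (t 1 - 1)) * (-(t 0 - 1) / (t 1 - 1) ^ 2) * (-(t 1 - 1) / (t 1 * (t 0 - 1) ^ 2)) + (0) * (-(t 0 - 1) / (t 1 - 1) ^ 2) * (t 0 / ((t 0 - 1) * t 1 ^ 2))) =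
    ((-1 : ℤ) : Fld 2) + ((1 : ℤ) : Fld 2) * (t 0 * (t 1 - 1) / ((t 0 - 1) * t 1)) + ((0 : ℤ) : Fld 2) * (t 0 * (t 1 - 1) / ((t 0 - 1) * t 1)) ^ 2 +
      (((0 : ℤ) : Fld 2) * ((t 0 - 1) / (t 1 - 1)) + ((0 : ℤ) : Fld 2) * ((t 0 - 1) / (t 1 - 1)) * (t 0 * (t 1 - 1) / ((t 0 - 1) * t 1)) + ((0 : ℤ) : Fld 2) * ((t 0 - 1) / (t 1 - 1)) * (t 0 * (t 1 - 1) / ((t 0 - 1) * t 1)) ^ 2) +
      (((0 : ℤ) : Fld 2) * ((t 0 - 1) / (t 1 - 1)) ^ 2 + ((0 : ℤ) : Fld 2) * ((t 0 - 1) / (t 1 - 1)) ^ 2 * (t 0 * (t 1 - 1) / ((t 0 - 1) * t 1)) + ((0 : ℤ) : Fld 2) * ((t 0 - 1) / (t 1 - 1)) ^ 2 * (t 0 * (t 1 - 1) / ((t 0 - 1) * t 1)) ^ 2)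
  push_cast
  try field_simp
  try ring

theorem TxI_44 : Quad TxI (lam 4) (lam 4) := by
  have h0 := t_ne 0
  have h1 := t_ne 1
  have h2 := t_sub_one_ne 0
  have h3 := t_sub_one_ne 1
  refine quad_of 0 0 0 0 0 0 0 0 0 ?_
  rw [bil_lam]
  show (2 * (t 0 * (t 0 - 1))) * (-(t 1 - 1) / (t 1 * (t 0 - 1) ^ 2)) * (-(t 1 - 1) / (t 1 * (t 0 - 1) ^ 2)) + (t 1 * (t 1 - 1)) * (-(t 1 - 1) / (t 1 * (t 0 - 1) ^ 2)) * (t 0 / ((t 0 - 1) * t 1 ^ 2)) + ((t 1 * (t 1 - 1)) * (t 0 / ((t 0 - 1) * t 1 ^ 2)) * (-(t 1 - 1) / (t 1 * (t 0 - 1) ^ 2)) + (0) * (t 0 / ((t 0 - 1) * t 1 ^ 2)) * (t 0 / ((t 0 - 1) * t 1 ^ 2))) =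
    ((0 : ℤ) : Fld 2) + ((0 : ℤ) : Fld 2) * (t 0 * (t 1 - 1) / ((t 0 - 1) * t 1)) + ((0 : ℤ) : Fld 2) * (t 0 * (t 1 - 1) / ((t 0 - 1) * t 1)) ^ 2 +
      (((0 : ℤ) : Fld 2) * (t 0 * (t 1 - 1) / ((t 0 - 1) * t 1)) + ((0 : ℤ) : Fld 2) * (t 0 * (t 1 - 1) / ((t 0 - 1) * t 1)) * (t 0 * (t 1 - 1) / ((t 0 - 1) * t 1)) + ((0 : ℤ) : Fld 2) * (t 0 * (t 1 - 1) / ((t 0 - 1) * t 1)) * (t 0 * (t 1 - 1) / ((t 0 - 1) * t 1)) ^ 2) +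
      (((0 : ℤ) : Fld 2) * (t 0 * (t 1 - 1) / ((t 0 - 1) * t 1)) ^ 2 + ((0 : ℤ) : Fld 2) * (t 0 * (t 1 - 1) / ((t 0 - 1) * t 1)) ^ 2 * (t 0 * (t 1 - 1) / ((t 0 - 1) * t 1)) + ((0 : ℤ) : Fld 2) * (t 0 * (t 1 - 1) / ((t 0 - 1) * t 1)) ^ 2 * (t 0 * (t 1 - 1) / ((t 0 - 1) * t 1)) ^ 2)
  push_cast
  try field_simp
  try ring

/-- The matrix of a quadratic tensor. -/
def TyI : Fin 2 → Fin 2 → Fld 2 := ![![0, t 0 * (t 0 - 1)], ![t 0 * (t 0 - 1), 2 * (t 1 * (t 1 - 1))]]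

theorem TyI_symm (i j : Fin 2) : TyI i j = TyI j i := by
  fin_cases i <;> fin_cases j <;> rfl

theorem TyI_00 : Quad TyI (lam 0) (lam 0) := by
  have h0 := t_ne 0
  have h1 := t_ne 1
  have h2 := t_sub_one_ne 0
  have h3 := t_sub_one_ne 1
  refine quad_of 0 0 0 0 0 0 0 0 0 ?_
  rw [bil_lam]
  show (0) * 1 * 1 + (t 0 * (t 0 - 1)) * 1 * 0 + ((t 0 * (t 0 - 1)) * 0 * 1 + (2 * (t 1 * (t 1 - 1))) * 0 * 0) =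
    ((0 : ℤ) : Fld 2) + ((0 : ℤ) : Fld 2) * (t 0) + ((0 : ℤ) : Fld 2) * (t 0) ^ 2 +
      (((0 : ℤ) : Fld 2) * (t 0) + ((0 : ℤ) : Fld 2) * (t 0) * (t 0) + ((0 : ℤ) : Fld 2) * (t 0) * (t 0) ^ 2) +
      (((0 : ℤ) : Fld 2) * (t 0) ^ 2 + ((0 : ℤ) : Fld 2) * (t 0) ^ 2 * (t 0) + ((0 : ℤ) : Fld 2) * (t 0) ^ 2 * (t 0) ^ 2)
  push_cast
  try field_simp
  try ring

theorem TyI_01 : Quad TyI (lam 0) (lam 1) := by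
  have h0 := t_ne 0
  have h1 := t_ne 1
  have h2 := t_sub_one_ne 0
  have h3 := t_sub_one_ne 1
  refine quad_of 0 0 0 (-1) 0 0 1 0 0 ?_
  rw [bil_lam]
  show (0) * 1 * 0 + (t 0 * (t 0 - 1)) * 1 * 1 + ((t 0 * (t 0 - 1)) * 0 * 0 + (2 * (t 1 * (t 1 - 1))) * 0 * 1) =
    ((0 : ℤ) : Fld 2) + ((0 : ℤ) : Fld 2) * (t 1) + ((0 : ℤ) : Fld 2) * (t 1) ^ 2 +
      (((-1 : ℤ) : Fld 2) * (t 0) + ((0 : ℤ) : Fld 2) * (t 0) * (t 1) + ((0 : ℤ) : Fld 2) * (t 0) * (t 1) ^ 2) +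
      (((1 : ℤ) : Fld 2) * (t 0) ^ 2 + ((0 : ℤ) : Fld 2) * (t 0) ^ 2 * (t 1) + ((0 : ℤ) : Fld 2) * (t 0) ^ 2 * (t 1) ^ 2)
  push_cast
  try field_simp
  try ring

theorem TyI_02 : Quad TyI (lam 0) (lam 2) := by
  have h0 := t_ne 0
  have h1 := t_ne 1
  have h2 := t_sub_one_ne 0
  have h3 := t_sub_one_ne 1
  refine quad_of 0 0 1 0 0 (-1) 0 0 0 ?_
  rw [bil_lam]
  show (0) * 1 * (1 / t 1) + (t 0 * (t 0 - 1)) * 1 * (-t 0 / t 1 ^ 2) + ((t 0 * (t 0 - 1)) * 0 * (1 / t 1) + (2 * (t 1 * (t 1 - 1))) * 0 * (-t 0 / t 1 ^ 2)) =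
    ((0 : ℤ) : Fld 2) + ((0 : ℤ) : Fld 2) * (t 0 / t 1) + ((1 : ℤ) : Fld 2) * (t 0 / t 1) ^ 2 +
      (((0 : ℤ) : Fld 2) * (t 0) + ((0 : ℤ) : Fld 2) * (t 0) * (t 0 / t 1) + ((-1 : ℤ) : Fld 2) * (t 0) * (t 0 / t 1) ^ 2) +
      (((0 : ℤ) : Fld 2) * (t 0) ^ 2 + ((0 : ℤ) : Fld 2) * (t 0) ^ 2 * (t 0 / t 1) + ((0 : ℤ) : Fld 2) * (t 0) ^ 2 * (t 0 / t 1) ^ 2)
  push_cast
  try field_simp
  try ring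

theorem TyI_03 : Quad TyI (lam 0) (lam 3) := by
  have h0 := t_ne 0
  have h1 := t_ne 1
  have h2 := t_sub_one_ne 0
  have h3 := t_sub_one_ne 1
  refine quad_of 0 0 0 0 0 (-1) 0 0 0 ?_
  rw [bil_lam]
  show (0) * 1 * (1 / (t 1 - 1)) + (t 0 * (t 0 - 1)) * 1 * (-(t 0 - 1) / (t 1 - 1) ^ 2) + ((t 0 * (t 0 - 1)) * 0 * (1 / (t 1 - 1)) + (2 * (t 1 * (t 1 - 1))) * 0 * (-(t 0 - 1) / (t 1 - 1) ^ 2)) =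
    ((0 : ℤ) : Fld 2) + ((0 : ℤ) : Fld 2) * ((t 0 - 1) / (t 1 - 1)) + ((0 : ℤ) : Fld 2) * ((t 0 - 1) / (t 1 - 1)) ^ 2 +
      (((0 : ℤ) : Fld 2) * (t 0) + ((0 : ℤ) : Fld 2) * (t 0) * ((t 0 - 1) / (t 1 - 1)) + ((-1 : ℤ) : Fld 2) * (t 0) * ((t 0 - 1) / (t 1 - 1)) ^ 2) +
      (((0 : ℤ) : Fld 2) * (t 0) ^ 2 + ((0 : ℤ) : Fld 2) * (t 0) ^ 2 * ((t 0 - 1) / (t 1 - 1)) + ((0 : ℤ) : Fld 2) * (t 0) ^ 2 * ((t 0 - 1) / (t 1 - 1)) ^ 2)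
  push_cast
  try field_simp
  try ring

theorem TyI_04 : Quad TyI (lam 0) (lam 4) := by
  have h0 := t_ne 0
  have h1 := t_ne 1
  have h2 := t_sub_one_ne 0
  have h3 := t_sub_one_ne 1
  refine quad_of 0 0 1 0 2 (-2) 1 (-2) 1 ?_
  rw [bil_lam]
  show (0) * 1 * (-(t 1 - 1) / (t 1 * (t 0 - 1) ^ 2)) + (t 0 * (t 0 - 1)) * 1 * (t 0 / ((t 0 - 1) * t 1 ^ 2)) + ((t 0 * (t 0 - 1)) * 0 * (-(t 1 - 1) / (t 1 * (t 0 - 1) ^ 2)) + (2 * (t 1 * (t 1 - 1))) * 0 * (t 0 / ((t 0 - 1) * t 1 ^ 2))) =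
    ((0 : ℤ) : Fld 2) + ((0 : ℤ) : Fld 2) * (t 0 * (t 1 - 1) / ((t 0 - 1) * t 1)) + ((1 : ℤ) : Fld 2) * (t 0 * (t 1 - 1) / ((t 0 - 1) * t 1)) ^ 2 +
      (((0 : ℤ) : Fld 2) * (t 0) + ((2 : ℤ) : Fld 2) * (t 0) * (t 0 * (t 1 - 1) / ((t 0 - 1) * t 1)) + ((-2 : ℤ) : Fld 2) * (t 0) * (t 0 * (t 1 - 1) / ((t 0 - 1) * t 1)) ^ 2) +
      (((1 : ℤ) : Fld 2) * (t 0) ^ 2 + ((-2 : ℤ) : Fld 2) * (t 0) ^ 2 * (t 0 * (t 1 - 1) / ((t 0 - 1) * t 1)) + ((1 : ℤ) : Fld 2) * (t 0) ^ 2 * (t 0 * (t 1 - 1) / ((t 0 - 1) * t 1)) ^ 2)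
  push_cast
  try field_simp
  try ring

theorem TyI_11 : Quad TyI (lam 1) (lam 1) := by
  have h0 := t_ne 0
  have h1 := t_ne 1
  have h2 := t_sub_one_ne 0
  have h3 := t_sub_one_ne 1
  refine quad_of 0 (-2) 2 0 0 0 0 0 0 ?_
  rw [bil_lam]
  show (0) * 0 * 0 + (t 0 * (t 0 - 1)) * 0 * 1 + ((t 0 * (t 0 - 1)) * 1 * 0 + (2 * (t 1 * (t 1 - 1))) * 1 * 1) =
    ((0 : ℤ) : Fld 2) + ((-2 : ℤ) : Fld 2) * (t 1) + ((2 : ℤ) : Fld 2) * (t 1) ^ 2 +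
      (((0 : ℤ) : Fld 2) * (t 1) + ((0 : ℤ) : Fld 2) * (t 1) * (t 1) + ((0 : ℤ) : Fld 2) * (t 1) * (t 1) ^ 2) +
      (((0 : ℤ) : Fld 2) * (t 1) ^ 2 + ((0 : ℤ) : Fld 2) * (t 1) ^ 2 * (t 1) + ((0 : ℤ) : Fld 2) * (t 1) ^ 2 * (t 1) ^ 2)
  push_cast
  try field_simp
  try ring

theorem TyI_12 : Quad TyI (lam 1) (lam 2) := by
  have h0 := t_ne 0
  have h1 := t_ne 1
  have h2 := t_sub_one_ne 0
  have h3 := t_sub_one_ne 1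
  refine quad_of 0 1 0 0 (-2) 1 0 0 0 ?_
  rw [bil_lam]
  show (0) * 0 * (1 / t 1) + (t 0 * (t 0 - 1)) * 0 * (-t 0 / t 1 ^ 2) + ((t 0 * (t 0 - 1)) * 1 * (1 / t 1) + (2 * (t 1 * (t 1 - 1))) * 1 * (-t 0 / t 1 ^ 2)) =
    ((0 : ℤ) : Fld 2) + ((1 : ℤ) : Fld 2) * (t 0 / t 1) + ((0 : ℤ) : Fld 2) * (t 0 / t 1) ^ 2 +
      (((0 : ℤ) : Fld 2) * (t 1) + ((-2 : ℤ) : Fld 2) * (t 1) * (t 0 / t 1) + ((1 : ℤ) : Fld 2) * (t 1) * (t 0 / t 1) ^ 2) +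
      (((0 : ℤ) : Fld 2) * (t 1) ^ 2 + ((0 : ℤ) : Fld 2) * (t 1) ^ 2 * (t 0 / t 1) + ((0 : ℤ) : Fld 2) * (t 1) ^ 2 * (t 0 / t 1) ^ 2)
  push_cast
  try field_simp
  try ring

theorem TyI_13 : Quad TyI (lam 1) (lam 3) := by
  have h0 := t_ne 0
  have h1 := t_ne 1
  have h2 := t_sub_one_ne 0
  have h3 := t_sub_one_ne 1
  refine quad_of 0 1 (-1) 0 (-2) 1 0 0 0 ?_
  rw [bil_lam]
  show (0) * 0 * (1 / (t 1 - 1)) + (t 0 * (t 0 - 1)) * 0 * (-(t 0 - 1) / (t 1 - 1) ^ 2) + ((t 0 * (t 0 - 1)) * 1 * (1 / (t 1 - 1)) + (2 * (t 1 * (t 1 - 1))) * 1 * (-(t 0 - 1) / (t 1 - 1) ^ 2)) =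
    ((0 : ℤ) : Fld 2) + ((1 : ℤ) : Fld 2) * ((t 0 - 1) / (t 1 - 1)) + ((-1 : ℤ) : Fld 2) * ((t 0 - 1) / (t 1 - 1)) ^ 2 +
      (((0 : ℤ) : Fld 2) * (t 1) + ((-2 : ℤ) : Fld 2) * (t 1) * ((t 0 - 1) / (t 1 - 1)) + ((1 : ℤ) : Fld 2) * (t 1) * ((t 0 - 1) / (t 1 - 1)) ^ 2) +
      (((0 : ℤ) : Fld 2) * (t 1) ^ 2 + ((0 : ℤ) : Fld 2) * (t 1) ^ 2 * ((t 0 - 1) / (t 1 - 1)) + ((0 : ℤ) : Fld 2) * (t 1) ^ 2 * ((t 0 - 1) / (t 1 - 1)) ^ 2)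
  push_cast
  try field_simp
  try ring

theorem TyI_14 : Quad TyI (lam 1) (lam 4) := by
  have h0 := t_ne 0
  have h1 := t_ne 1
  have h2 := t_sub_one_ne 0
  have h3 := t_sub_one_ne 1
  refine quad_of 0 1 0 0 0 0 0 0 0 ?_
  rw [bil_lam]
  show (0) * 0 * (-(t 1 - 1) / (t 1 * (t 0 - 1) ^ 2)) + (t 0 * (t 0 - 1)) * 0 * (t 0 / ((t 0 - 1) * t 1 ^ 2)) + ((t 0 * (t 0 - 1)) * 1 * (-(t 1 - 1) / (t 1 * (t 0 - 1) ^ 2)) + (2 * (t 1 * (t 1 - 1))) * 1 * (t 0 / ((t 0 - 1) * t 1 ^ 2))) =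
    ((0 : ℤ) : Fld 2) + ((1 : ℤ) : Fld 2) * (t 0 * (t 1 - 1) / ((t 0 - 1) * t 1)) + ((0 : ℤ) : Fld 2) * (t 0 * (t 1 - 1) / ((t 0 - 1) * t 1)) ^ 2 +
      (((0 : ℤ) : Fld 2) * (t 1) + ((0 : ℤ) : Fld 2) * (t 1) * (t 0 * (t 1 - 1) / ((t 0 - 1) * t 1)) + ((0 : ℤ) : Fld 2) * (t 1) * (t 0 * (t 1 - 1) / ((t 0 - 1) * t 1)) ^ 2) +
      (((0 : ℤ) : Fld 2) * (t 1) ^ 2 + ((0 : ℤ) : Fld 2) * (t 1) ^ 2 * (t 0 * (t 1 - 1) / ((t 0 - 1) * t 1)) + ((0 : ℤ) : Fld 2) * (t 1) ^ 2 * (t 0 * (t 1 - 1) / ((t 0 - 1) * t 1)) ^ 2)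
  push_cast
  try field_simp
  try ring

theorem TyI_22 : Quad TyI (lam 2) (lam 2) := by
  have h0 := t_ne 0
  have h1 := t_ne 1
  have h2 := t_sub_one_ne 0
  have h3 := t_sub_one_ne 1
  refine quad_of 0 0 2 0 0 (-2) 0 0 0 ?_
  rw [bil_lam]
  show (0) * (1 / t 1) * (1 / t 1) + (t 0 * (t 0 - 1)) * (1 / t 1) * (-t 0 / t 1 ^ 2) + ((t 0 * (t 0 - 1)) * (-t 0 / t 1 ^ 2) * (1 / t 1) + (2 * (t 1 * (t 1 - 1))) * (-t 0 / t 1 ^ 2) * (-t 0 / t 1 ^ 2)) =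
    ((0 : ℤ) : Fld 2) + ((0 : ℤ) : Fld 2) * (t 0 / t 1) + ((2 : ℤ) : Fld 2) * (t 0 / t 1) ^ 2 +
      (((0 : ℤ) : Fld 2) * (t 0 / t 1) + ((0 : ℤ) : Fld 2) * (t 0 / t 1) * (t 0 / t 1) + ((-2 : ℤ) : Fld 2) * (t 0 / t 1) * (t 0 / t 1) ^ 2) +
      (((0 : ℤ) : Fld 2) * (t 0 / t 1) ^ 2 + ((0 : ℤ) : Fld 2) * (t 0 / t 1) ^ 2 * (t 0 / t 1) + ((0 : ℤ) : Fld 2) * (t 0 / t 1) ^ 2 * (t 0 / t 1) ^ 2)
  push_cast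
  try field_simp
  try ring

theorem TyI_23 : Quad TyI (lam 2) (lam 3) := by
  have h0 := t_ne 0
  have h1 := t_ne 1
  have h2 := t_sub_one_ne 0
  have h3 := t_sub_one_ne 1
  refine quad_of 0 0 0 0 2 (-1) 0 (-1) 0 ?_
  rw [bil_lam]
  show (0) * (1 / t 1) * (1 / (t 1 - 1)) + (t 0 * (t 0 - 1)) * (1 / t 1) * (-(t 0 - 1) / (t 1 - 1) ^ 2) + ((t 0 * (t 0 - 1)) * (-t 0 / t 1 ^ 2) * (1 / (t 1 - 1)) + (2 * (t 1 * (t 1 - 1))) * (-t 0 / t 1 ^ 2) * (-(t 0 - 1) / (t 1 - 1) ^ 2)) =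
    ((0 : ℤ) : Fld 2) + ((0 : ℤ) : Fld 2) * ((t 0 - 1) / (t 1 - 1)) + ((0 : ℤ) : Fld 2) * ((t 0 - 1) / (t 1 - 1)) ^ 2 +
      (((0 : ℤ) : Fld 2) * (t 0 / t 1) + ((2 : ℤ) : Fld 2) * (t 0 / t 1) * ((t 0 - 1) / (t 1 - 1)) + ((-1 : ℤ) : Fld 2) * (t 0 / t 1) * ((t 0 - 1) / (t 1 - 1)) ^ 2) +
      (((0 : ℤ) : Fld 2) * (t 0 / t 1) ^ 2 + ((-1 : ℤ) : Fld 2) * (t 0 / t 1) ^ 2 * ((t 0 - 1) / (t 1 - 1)) + ((0 : ℤ) : Fld 2) * (t 0 / t 1) ^ 2 * ((t 0 - 1) / (t 1 - 1)) ^ 2)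
  push_cast
  try field_simp
  try ring

theorem TyI_24 : Quad TyI (lam 2) (lam 4) := by
  have h0 := t_ne 0
  have h1 := t_ne 1
  have h2 := t_sub_one_ne 0
  have h3 := t_sub_one_ne 1
  refine quad_of 0 0 0 0 0 0 1 (-1) 0 ?_
  rw [bil_lam]
  show (0) * (1 / t 1) * (-(t 1 - 1) / (t 1 * (t 0 - 1) ^ 2)) + (t 0 * (t 0 - 1)) * (1 / t 1) * (t 0 / ((t 0 - 1) * t 1 ^ 2)) + ((t 0 * (t 0 - 1)) * (-t 0 / t 1 ^ 2) * (-(t 1 - 1) / (t 1 * (t 0 - 1) ^ 2)) + (2 * (t 1 * (t 1 - 1))) * (-t 0 / t 1 ^ 2) * (t 0 / ((t 0 - 1) * t 1 ^ 2))) =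
    ((0 : ℤ) : Fld 2) + ((0 : ℤ) : Fld 2) * (t 0 * (t 1 - 1) / ((t 0 - 1) * t 1)) + ((0 : ℤ) : Fld 2) * (t 0 * (t 1 - 1) / ((t 0 - 1) * t 1)) ^ 2 +
      (((0 : ℤ) : Fld 2) * (t 0 / t 1) + ((0 : ℤ) : Fld 2) * (t 0 / t 1) * (t 0 * (t 1 - 1) / ((t 0 - 1) * t 1)) + ((0 : ℤ) : Fld 2) * (t 0 / t 1) * (t 0 * (t 1 - 1) / ((t 0 - 1) * t 1)) ^ 2) +
      (((1 : ℤ) : Fld 2) * (t 0 / t 1) ^ 2 + ((-1 : ℤ) : Fld 2) * (t 0 / t 1) ^ 2 * (t 0 * (t 1 - 1) / ((t 0 - 1) * t 1)) + ((0 : ℤ) : Fld 2) * (t 0 / t 1) ^ 2 * (t 0 * (t 1 - 1) / ((t 0 - 1) * t 1)) ^ 2)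
  push_cast
  try field_simp
  try ring

theorem TyI_33 : Quad TyI (lam 3) (lam 3) := by
  have h0 := t_ne 0
  have h1 := t_ne 1
  have h2 := t_sub_one_ne 0
  have h3 := t_sub_one_ne 1
  refine quad_of 0 0 2 0 0 (-2) 0 0 0 ?_
  rw [bil_lam]
  show (0) * (1 / (t 1 - 1)) * (1 / (t 1 - 1)) + (t 0 * (t 0 - 1)) * (1 / (t 1 - 1)) * (-(t 0 - 1) / (t 1 - 1) ^ 2) + ((t 0 * (t 0 - 1)) * (-(t 0 - 1) / (t 1 - 1) ^ 2) * (1 / (t 1 - 1)) + (2 * (t 1 * (t 1 - 1))) * (-(t 0 - 1) / (t 1 - 1) ^ 2) * (-(t 0 - 1) / (t 1 - 1) ^ 2)) =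
    ((0 : ℤ) : Fld 2) + ((0 : ℤ) : Fld 2) * ((t 0 - 1) / (t 1 - 1)) + ((2 : ℤ) : Fld 2) * ((t 0 - 1) / (t 1 - 1)) ^ 2 +
      (((0 : ℤ) : Fld 2) * ((t 0 - 1) / (t 1 - 1)) + ((0 : ℤ) : Fld 2) * ((t 0 - 1) / (t 1 - 1)) * ((t 0 - 1) / (t 1 - 1)) + ((-2 : ℤ) : Fld 2) * ((t 0 - 1) / (t 1 - 1)) * ((t 0 - 1) / (t 1 - 1)) ^ 2) +
      (((0 : ℤ) : Fld 2) * ((t 0 - 1) / (t 1 - 1)) ^ 2 + ((0 : ℤ) : Fld 2) * ((t 0 - 1) / (t 1 - 1)) ^ 2 * ((t 0 - 1) / (t 1 - 1)) + ((0 : ℤ) : Fld 2) * ((t 0 - 1) / (t 1 - 1)) ^ 2 * ((t 0 - 1) / (t 1 - 1)) ^ 2)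
  push_cast
  try field_simp
  try ring

theorem TyI_34 : Quad TyI (lam 3) (lam 4) := by
  have h0 := t_ne 0
  have h1 := t_ne 1
  have h2 := t_sub_one_ne 0
  have h3 := t_sub_one_ne 1
  refine quad_of 0 0 0 0 0 0 0 1 (-1) ?_
  rw [bil_lam]
  show (0) * (1 / (t 1 - 1)) * (-(t 1 - 1) / (t 1 * (t 0 - 1) ^ 2)) + (t 0 * (t 0 - 1)) * (1 / (t 1 - 1)) * (t 0 / ((t 0 - 1) * t 1 ^ 2)) + ((t 0 * (t 0 - 1)) * (-(t 0 - 1) / (t 1 - 1) ^ 2) * (-(t 1 - 1) / (t 1 * (t 0 - 1) ^ 2)) + (2 * (t 1 * (t 1 - 1))) * (-(t 0 - 1) / (t 1 - 1) ^ 2) * (t 0 / ((t 0 - 1) * t 1 ^ 2))) =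
    ((0 : ℤ) : Fld 2) + ((0 : ℤ) : Fld 2) * (t 0 * (t 1 - 1) / ((t 0 - 1) * t 1)) + ((0 : ℤ) : Fld 2) * (t 0 * (t 1 - 1) / ((t 0 - 1) * t 1)) ^ 2 +
      (((0 : ℤ) : Fld 2) * ((t 0 - 1) / (t 1 - 1)) + ((0 : ℤ) : Fld 2) * ((t 0 - 1) / (t 1 - 1)) * (t 0 * (t 1 - 1) / ((t 0 - 1) * t 1)) + ((0 : ℤ) : Fld 2) * ((t 0 - 1) / (t 1 - 1)) * (t 0 * (t 1 - 1) / ((t 0 - 1) * t 1)) ^ 2) +
      (((0 : ℤ) : Fld 2) * ((t 0 - 1) / (t 1 - 1)) ^ 2 + ((1 : ℤ) : Fld 2) * ((t 0 - 1) / (t 1 - 1)) ^ 2 * (t 0 * (t 1 - 1) / ((t 0 - 1) * t 1)) + ((-1 : ℤ) : Fld 2) * ((t 0 - 1) / (t 1 - 1)) ^ 2 * (t 0 * (t 1 - 1) / ((t 0 - 1) * t 1)) ^ 2)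
  push_cast
  try field_simp
  try ring

theorem TyI_44 : Quad TyI (lam 4) (lam 4) := by
  have h0 := t_ne 0
  have h1 := t_ne 1
  have h2 := t_sub_one_ne 0
  have h3 := t_sub_one_ne 1
  refine quad_of 0 0 0 0 0 0 0 0 0 ?_
  rw [bil_lam]
  show (0) * (-(t 1 - 1) / (t 1 * (t 0 - 1) ^ 2)) * (-(t 1 - 1) / (t 1 * (t 0 - 1) ^ 2)) + (t 0 * (t 0 - 1)) * (-(t 1 - 1) / (t 1 * (t 0 - 1) ^ 2)) * (t 0 / ((t 0 - 1) * t 1 ^ 2)) + ((t 0 * (t 0 - 1)) * (t 0 / ((t 0 - 1) * t 1 ^ 2)) * (-(t 1 - 1) / (t 1 * (t 0 - 1) ^ 2)) + (2 * (t 1 * (t 1 - 1))) * (t 0 / ((t 0 - 1) * t 1 ^ 2)) * (t 0 / ((t 0 - 1) * t 1 ^ 2))) =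
    ((0 : ℤ) : Fld 2) + ((0 : ℤ) : Fld 2) * (t 0 * (t 1 - 1) / ((t 0 - 1) * t 1)) + ((0 : ℤ) : Fld 2) * (t 0 * (t 1 - 1) / ((t 0 - 1) * t 1)) ^ 2 +
      (((0 : ℤ) : Fld 2) * (t 0 * (t 1 - 1) / ((t 0 - 1) * t 1)) + ((0 : ℤ) : Fld 2) * (t 0 * (t 1 - 1) / ((t 0 - 1) * t 1)) * (t 0 * (t 1 - 1) / ((t 0 - 1) * t 1)) + ((0 : ℤ) : Fld 2) * (t 0 * (t 1 - 1) / ((t 0 - 1) * t 1)) * (t 0 * (t 1 - 1) / ((t 0 - 1) * t 1)) ^ 2) +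
      (((0 : ℤ) : Fld 2) * (t 0 * (t 1 - 1) / ((t 0 - 1) * t 1)) ^ 2 + ((0 : ℤ) : Fld 2) * (t 0 * (t 1 - 1) / ((t 0 - 1) * t 1)) ^ 2 * (t 0 * (t 1 - 1) / ((t 0 - 1) * t 1)) + ((0 : ℤ) : Fld 2) * (t 0 * (t 1 - 1) / ((t 0 - 1) * t 1)) ^ 2 * (t 0 * (t 1 - 1) / ((t 0 - 1) * t 1)) ^ 2)
  push_cast
  try field_simp
  try ring

/-- The matrix of a quadratic tensor. -/
def Tx0 : Fin 2 → Fin 2 → Fld 2 := ![![2 * (t 0 ^ 2 * (t 0 - 1)), t 0 ^ 2 * (t 1 - 1)], ![t 0 ^ 2 * (t 1 - 1), 0]]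

theorem Tx0_symm (i j : Fin 2) : Tx0 i j = Tx0 j i := by
  fin_cases i <;> fin_cases j <;> rfl

theorem Tx0_00 : Quad Tx0 (lam 0) (lam 0) := by
  have h0 := t_ne 0
  have h1 := t_ne 1
  have h2 := t_sub_one_ne 0
  have h3 := t_sub_one_ne 1
  refine quad_of 0 0 (-2) 0 0 2 0 0 0 ?_
  rw [bil_lam]
  show (2 * (t 0 ^ 2 * (t 0 - 1))) * 1 * 1 + (t 0 ^ 2 * (t 1 - 1)) * 1 * 0 + ((t 0 ^ 2 * (t 1 - 1)) * 0 * 1 + (0) * 0 * 0) =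
    ((0 : ℤ) : Fld 2) + ((0 : ℤ) : Fld 2) * (t 0) + ((-2 : ℤ) : Fld 2) * (t 0) ^ 2 +
      (((0 : ℤ) : Fld 2) * (t 0) + ((0 : ℤ) : Fld 2) * (t 0) * (t 0) + ((2 : ℤ) : Fld 2) * (t 0) * (t 0) ^ 2) +
      (((0 : ℤ) : Fld 2) * (t 0) ^ 2 + ((0 : ℤ) : Fld 2) * (t 0) ^ 2 * (t 0) + ((0 : ℤ) : Fld 2) * (t 0) ^ 2 * (t 0) ^ 2)
  push_cast
  try field_simp
  try ring

theorem Tx0_01 : Quad Tx0 (lam 0) (lam 1) := by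
  have h0 := t_ne 0
  have h1 := t_ne 1
  have h2 := t_sub_one_ne 0
  have h3 := t_sub_one_ne 1
  refine quad_of 0 0 0 0 0 0 (-1) 1 0 ?_
  rw [bil_lam]
  show (2 * (t 0 ^ 2 * (t 0 - 1))) * 1 * 0 + (t 0 ^ 2 * (t 1 - 1)) * 1 * 1 + ((t 0 ^ 2 * (t 1 - 1)) * 0 * 0 + (0) * 0 * 1) =
    ((0 : ℤ) : Fld 2) + ((0 : ℤ) : Fld 2) * (t 1) + ((0 : ℤ) : Fld 2) * (t 1) ^ 2 +
      (((0 : ℤ) : Fld 2) * (t 0) + ((0 : ℤ) : Fld 2) * (t 0) * (t 1) + ((0 : ℤ) : Fld 2) * (t 0) * (t 1) ^ 2) +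
      (((-1 : ℤ) : Fld 2) * (t 0) ^ 2 + ((1 : ℤ) : Fld 2) * (t 0) ^ 2 * (t 1) + ((0 : ℤ) : Fld 2) * (t 0) ^ 2 * (t 1) ^ 2)
  push_cast
  try field_simp
  try ring

theorem Tx0_02 : Quad Tx0 (lam 0) (lam 2) := by
  have h0 := t_ne 0
  have h1 := t_ne 1
  have h2 := t_sub_one_ne 0
  have h3 := t_sub_one_ne 1
  refine quad_of 0 0 0 0 (-2) 1 0 1 0 ?_
  rw [bil_lam]
  show (2 * (t 0 ^ 2 * (t 0 - 1))) * 1 * (1 / t 1) + (t 0 ^ 2 * (t 1 - 1)) * 1 * (-t 0 / t 1 ^ 2) + ((t 0 ^ 2 * (t 1 - 1)) * 0 * (1 / t 1) + (0) * 0 * (-t 0 / t 1 ^ 2)) =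
    ((0 : ℤ) : Fld 2) + ((0 : ℤ) : Fld 2) * (t 0 / t 1) + ((0 : ℤ) : Fld 2) * (t 0 / t 1) ^ 2 +
      (((0 : ℤ) : Fld 2) * (t 0) + ((-2 : ℤ) : Fld 2) * (t 0) * (t 0 / t 1) + ((1 : ℤ) : Fld 2) * (t 0) * (t 0 / t 1) ^ 2) +
      (((0 : ℤ) : Fld 2) * (t 0) ^ 2 + ((1 : ℤ) : Fld 2) * (t 0) ^ 2 * (t 0 / t 1) + ((0 : ℤ) : Fld 2) * (t 0) ^ 2 * (t 0 / t 1) ^ 2)
  push_cast
  try field_simp
  try ring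

theorem Tx0_03 : Quad Tx0 (lam 0) (lam 3) := by
  have h0 := t_ne 0
  have h1 := t_ne 1
  have h2 := t_sub_one_ne 0
  have h3 := t_sub_one_ne 1
  refine quad_of 0 0 0 0 0 0 0 1 0 ?_
  rw [bil_lam]
  show (2 * (t 0 ^ 2 * (t 0 - 1))) * 1 * (1 / (t 1 - 1)) + (t 0 ^ 2 * (t 1 - 1)) * 1 * (-(t 0 - 1) / (t 1 - 1) ^ 2) + ((t 0 ^ 2 * (t 1 - 1)) * 0 * (1 / (t 1 - 1)) + (0) * 0 * (-(t 0 - 1) / (t 1 - 1) ^ 2)) =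
    ((0 : ℤ) : Fld 2) + ((0 : ℤ) : Fld 2) * ((t 0 - 1) / (t 1 - 1)) + ((0 : ℤ) : Fld 2) * ((t 0 - 1) / (t 1 - 1)) ^ 2 +
      (((0 : ℤ) : Fld 2) * (t 0) + ((0 : ℤ) : Fld 2) * (t 0) * ((t 0 - 1) / (t 1 - 1)) + ((0 : ℤ) : Fld 2) * (t 0) * ((t 0 - 1) / (t 1 - 1)) ^ 2) +
      (((0 : ℤ) : Fld 2) * (t 0) ^ 2 + ((1 : ℤ) : Fld 2) * (t 0) ^ 2 * ((t 0 - 1) / (t 1 - 1)) + ((0 : ℤ) : Fld 2) * (t 0) ^ 2 * ((t 0 - 1) / (t 1 - 1)) ^ 2)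
  push_cast
  try field_simp
  try ring

theorem Tx0_04 : Quad Tx0 (lam 0) (lam 4) := by
  have h0 := t_ne 0
  have h1 := t_ne 1
  have h2 := t_sub_one_ne 0
  have h3 := t_sub_one_ne 1
  refine quad_of 0 0 0 0 (-2) 1 0 1 (-1) ?_
  rw [bil_lam]
  show (2 * (t 0 ^ 2 * (t 0 - 1))) * 1 * (-(t 1 - 1) / (t 1 * (t 0 - 1) ^ 2)) + (t 0 ^ 2 * (t 1 - 1)) * 1 * (t 0 / ((t 0 - 1) * t 1 ^ 2)) + ((t 0 ^ 2 * (t 1 - 1)) * 0 * (-(t 1 - 1) / (t 1 * (t 0 - 1) ^ 2)) + (0) * 0 * (t 0 / ((t 0 - 1) * t 1 ^ 2))) =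
    ((0 : ℤ) : Fld 2) + ((0 : ℤ) : Fld 2) * (t 0 * (t 1 - 1) / ((t 0 - 1) * t 1)) + ((0 : ℤ) : Fld 2) * (t 0 * (t 1 - 1) / ((t 0 - 1) * t 1)) ^ 2 +
      (((0 : ℤ) : Fld 2) * (t 0) + ((-2 : ℤ) : Fld 2) * (t 0) * (t 0 * (t 1 - 1) / ((t 0 - 1) * t 1)) + ((1 : ℤ) : Fld 2) * (t 0) * (t 0 * (t 1 - 1) / ((t 0 - 1) * t 1)) ^ 2) +
      (((0 : ℤ) : Fld 2) * (t 0) ^ 2 + ((1 : ℤ) : Fld 2) * (t 0) ^ 2 * (t 0 * (t 1 - 1) / ((t 0 - 1) * t 1)) + ((-1 : ℤ) : Fld 2) * (t 0) ^ 2 * (t 0 * (t 1 - 1) / ((t 0 - 1) * t 1)) ^ 2)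
  push_cast
  try field_simp
  try ring

theorem Tx0_11 : Quad Tx0 (lam 1) (lam 1) := by
  have h0 := t_ne 0
  have h1 := t_ne 1
  have h2 := t_sub_one_ne 0
  have h3 := t_sub_one_ne 1
  refine quad_of 0 0 0 0 0 0 0 0 0 ?_
  rw [bil_lam]
  show (2 * (t 0 ^ 2 * (t 0 - 1))) * 0 * 0 + (t 0 ^ 2 * (t 1 - 1)) * 0 * 1 + ((t 0 ^ 2 * (t 1 - 1)) * 1 * 0 + (0) * 1 * 1) =
    ((0 : ℤ) : Fld 2) + ((0 : ℤ) : Fld 2) * (t 1) + ((0 : ℤ) : Fld 2) * (t 1) ^ 2 +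
      (((0 : ℤ) : Fld 2) * (t 1) + ((0 : ℤ) : Fld 2) * (t 1) * (t 1) + ((0 : ℤ) : Fld 2) * (t 1) * (t 1) ^ 2) +
      (((0 : ℤ) : Fld 2) * (t 1) ^ 2 + ((0 : ℤ) : Fld 2) * (t 1) ^ 2 * (t 1) + ((0 : ℤ) : Fld 2) * (t 1) ^ 2 * (t 1) ^ 2)
  push_cast
  try field_simp
  try ring

theorem Tx0_12 : Quad Tx0 (lam 1) (lam 2) := by
  have h0 := t_ne 0
  have h1 := t_ne 1
  have h2 := t_sub_one_ne 0
  have h3 := t_sub_one_ne 1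
  refine quad_of 0 0 0 0 0 (-1) 0 0 1 ?_
  rw [bil_lam]
  show (2 * (t 0 ^ 2 * (t 0 - 1))) * 0 * (1 / t 1) + (t 0 ^ 2 * (t 1 - 1)) * 0 * (-t 0 / t 1 ^ 2) + ((t 0 ^ 2 * (t 1 - 1)) * 1 * (1 / t 1) + (0) * 1 * (-t 0 / t 1 ^ 2)) =
    ((0 : ℤ) : Fld 2) + ((0 : ℤ) : Fld 2) * (t 0 / t 1) + ((0 : ℤ) : Fld 2) * (t 0 / t 1) ^ 2 +
      (((0 : ℤ) : Fld 2) * (t 1) + ((0 : ℤ) : Fld 2) * (t 1) * (t 0 / t 1) + ((-1 : ℤ) : Fld 2) * (t 1) * (t 0 / t 1) ^ 2) +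
      (((0 : ℤ) : Fld 2) * (t 1) ^ 2 + ((0 : ℤ) : Fld 2) * (t 1) ^ 2 * (t 0 / t 1) + ((1 : ℤ) : Fld 2) * (t 1) ^ 2 * (t 0 / t 1) ^ 2)
  push_cast
  try field_simp
  try ring

theorem Tx0_13 : Quad Tx0 (lam 1) (lam 3) := by
  have h0 := t_ne 0
  have h1 := t_ne 1
  have h2 := t_sub_one_ne 0
  have h3 := t_sub_one_ne 1
  refine quad_of 1 (-2) 1 0 2 (-2) 0 0 1 ?_
  rw [bil_lam]
  show (2 * (t 0 ^ 2 * (t 0 - 1))) * 0 * (1 / (t 1 - 1)) + (t 0 ^ 2 * (t 1 - 1)) * 0 * (-(t 0 - 1) / (t 1 - 1) ^ 2) + ((t 0 ^ 2 * (t 1 - 1)) * 1 * (1 / (t 1 - 1)) + (0) * 1 * (-(t 0 - 1) / (t 1 - 1) ^ 2)) =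
    ((1 : ℤ) : Fld 2) + ((-2 : ℤ) : Fld 2) * ((t 0 - 1) / (t 1 - 1)) + ((1 : ℤ) : Fld 2) * ((t 0 - 1) / (t 1 - 1)) ^ 2 +
      (((0 : ℤ) : Fld 2) * (t 1) + ((2 : ℤ) : Fld 2) * (t 1) * ((t 0 - 1) / (t 1 - 1)) + ((-2 : ℤ) : Fld 2) * (t 1) * ((t 0 - 1) / (t 1 - 1)) ^ 2) +
      (((0 : ℤ) : Fld 2) * (t 1) ^ 2 + ((0 : ℤ) : Fld 2) * (t 1) ^ 2 * ((t 0 - 1) / (t 1 - 1)) + ((1 : ℤ) : Fld 2) * (t 1) ^ 2 * ((t 0 - 1) / (t 1 - 1)) ^ 2)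
  push_cast
  try field_simp
  try ring

theorem Tx0_14 : Quad Tx0 (lam 1) (lam 4) := by
  have h0 := t_ne 0
  have h1 := t_ne 1
  have h2 := t_sub_one_ne 0
  have h3 := t_sub_one_ne 1
  refine quad_of 0 0 0 0 0 (-1) 0 0 0 ?_
  rw [bil_lam]
  show (2 * (t 0 ^ 2 * (t 0 - 1))) * 0 * (-(t 1 - 1) / (t 1 * (t 0 - 1) ^ 2)) + (t 0 ^ 2 * (t 1 - 1)) * 0 * (t 0 / ((t 0 - 1) * t 1 ^ 2)) + ((t 0 ^ 2 * (t 1 - 1)) * 1 * (-(t 1 - 1) / (t 1 * (t 0 - 1) ^ 2)) + (0) * 1 * (t 0 / ((t 0 - 1) * t 1 ^ 2))) =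
    ((0 : ℤ) : Fld 2) + ((0 : ℤ) : Fld 2) * (t 0 * (t 1 - 1) / ((t 0 - 1) * t 1)) + ((0 : ℤ) : Fld 2) * (t 0 * (t 1 - 1) / ((t 0 - 1) * t 1)) ^ 2 +
      (((0 : ℤ) : Fld 2) * (t 1) + ((0 : ℤ) : Fld 2) * (t 1) * (t 0 * (t 1 - 1) / ((t 0 - 1) * t 1)) + ((-1 : ℤ) : Fld 2) * (t 1) * (t 0 * (t 1 - 1) / ((t 0 - 1) * t 1)) ^ 2) +
      (((0 : ℤ) : Fld 2) * (t 1) ^ 2 + ((0 : ℤ) : Fld 2) * (t 1) ^ 2 * (t 0 * (t 1 - 1) / ((t 0 - 1) * t 1)) + ((0 : ℤ) : Fld 2) * (t 1) ^ 2 * (t 0 * (t 1 - 1) / ((t 0 - 1) * t 1)) ^ 2)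
  push_cast
  try field_simp
  try ring

theorem Tx0_22 : Quad Tx0 (lam 2) (lam 2) := by
  have h0 := t_ne 0
  have h1 := t_ne 1
  have h2 := t_sub_one_ne 0
  have h3 := t_sub_one_ne 1
  refine quad_of 0 0 (-2) 0 0 2 0 0 0 ?_
  rw [bil_lam]
  show (2 * (t 0 ^ 2 * (t 0 - 1))) * (1 / t 1) * (1 / t 1) + (t 0 ^ 2 * (t 1 - 1)) * (1 / t 1) * (-t 0 / t 1 ^ 2) + ((t 0 ^ 2 * (t 1 - 1)) * (-t 0 / t 1 ^ 2) * (1 / t 1) + (0) * (-t 0 / t 1 ^ 2) * (-t 0 / t 1 ^ 2)) =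
    ((0 : ℤ) : Fld 2) + ((0 : ℤ) : Fld 2) * (t 0 / t 1) + ((-2 : ℤ) : Fld 2) * (t 0 / t 1) ^ 2 +
      (((0 : ℤ) : Fld 2) * (t 0 / t 1) + ((0 : ℤ) : Fld 2) * (t 0 / t 1) * (t 0 / t 1) + ((2 : ℤ) : Fld 2) * (t 0 / t 1) * (t 0 / t 1) ^ 2) +
      (((0 : ℤ) : Fld 2) * (t 0 / t 1) ^ 2 + ((0 : ℤ) : Fld 2) * (t 0 / t 1) ^ 2 * (t 0 / t 1) + ((0 : ℤ) : Fld 2) * (t 0 / t 1) ^ 2 * (t 0 / t 1) ^ 2)
  push_cast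
  try field_simp
  try ring

theorem Tx0_23 : Quad Tx0 (lam 2) (lam 3) := by
  have h0 := t_ne 0
  have h1 := t_ne 1
  have h2 := t_sub_one_ne 0
  have h3 := t_sub_one_ne 1
  refine quad_of 0 0 0 0 0 0 (-1) 1 0 ?_
  rw [bil_lam]
  show (2 * (t 0 ^ 2 * (t 0 - 1))) * (1 / t 1) * (1 / (t 1 - 1)) + (t 0 ^ 2 * (t 1 - 1)) * (1 / t 1) * (-(t 0 - 1) / (t 1 - 1) ^ 2) + ((t 0 ^ 2 * (t 1 - 1)) * (-t 0 / t 1 ^ 2) * (1 / (t 1 - 1)) + (0) * (-t 0 / t 1 ^ 2) * (-(t 0 - 1) / (t 1 - 1) ^ 2)) =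
    ((0 : ℤ) : Fld 2) + ((0 : ℤ) : Fld 2) * ((t 0 - 1) / (t 1 - 1)) + ((0 : ℤ) : Fld 2) * ((t 0 - 1) / (t 1 - 1)) ^ 2 +
      (((0 : ℤ) : Fld 2) * (t 0 / t 1) + ((0 : ℤ) : Fld 2) * (t 0 / t 1) * ((t 0 - 1) / (t 1 - 1)) + ((0 : ℤ) : Fld 2) * (t 0 / t 1) * ((t 0 - 1) / (t 1 - 1)) ^ 2) +
      (((-1 : ℤ) : Fld 2) * (t 0 / t 1) ^ 2 + ((1 : ℤ) : Fld 2) * (t 0 / t 1) ^ 2 * ((t 0 - 1) / (t 1 - 1)) + ((0 : ℤ) : Fld 2) * (t 0 / t 1) ^ 2 * ((t 0 - 1) / (t 1 - 1)) ^ 2)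
  push_cast
  try field_simp
  try ring

theorem Tx0_24 : Quad Tx0 (lam 2) (lam 4) := by
  have h0 := t_ne 0
  have h1 := t_ne 1
  have h2 := t_sub_one_ne 0
  have h3 := t_sub_one_ne 1
  refine quad_of 0 0 0 0 (-2) 1 0 1 0 ?_
  rw [bil_lam]
  show (2 * (t 0 ^ 2 * (t 0 - 1))) * (1 / t 1) * (-(t 1 - 1) / (t 1 * (t 0 - 1) ^ 2)) + (t 0 ^ 2 * (t 1 - 1)) * (1 / t 1) * (t 0 / ((t 0 - 1) * t 1 ^ 2)) + ((t 0 ^ 2 * (t 1 - 1)) * (-t 0 / t 1 ^ 2) * (-(t 1 - 1) / (t 1 * (t 0 - 1) ^ 2)) + (0) * (-t 0 / t 1 ^ 2) * (t 0 / ((t 0 - 1) * t 1 ^ 2))) =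
    ((0 : ℤ) : Fld 2) + ((0 : ℤ) : Fld 2) * (t 0 * (t 1 - 1) / ((t 0 - 1) * t 1)) + ((0 : ℤ) : Fld 2) * (t 0 * (t 1 - 1) / ((t 0 - 1) * t 1)) ^ 2 +
      (((0 : ℤ) : Fld 2) * (t 0 / t 1) + ((-2 : ℤ) : Fld 2) * (t 0 / t 1) * (t 0 * (t 1 - 1) / ((t 0 - 1) * t 1)) + ((1 : ℤ) : Fld 2) * (t 0 / t 1) * (t 0 * (t 1 - 1) / ((t 0 - 1) * t 1)) ^ 2) +
      (((0 : ℤ) : Fld 2) * (t 0 / t 1) ^ 2 + ((1 : ℤ) : Fld 2) * (t 0 / t 1) ^ 2 * (t 0 * (t 1 - 1) / ((t 0 - 1) * t 1)) + ((0 : ℤ) : Fld 2) * (t 0 / t 1) ^ 2 * (t 0 * (t 1 - 1) / ((t 0 - 1) * t 1)) ^ 2)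
  push_cast
  try field_simp
  try ring

theorem Tx0_33 : Quad Tx0 (lam 3) (lam 3) := by
  have h0 := t_ne 0
  have h1 := t_ne 1
  have h2 := t_sub_one_ne 0
  have h3 := t_sub_one_ne 1
  refine quad_of 0 0 0 0 0 0 0 0 0 ?_
  rw [bil_lam]
  show (2 * (t 0 ^ 2 * (t 0 - 1))) * (1 / (t 1 - 1)) * (1 / (t 1 - 1)) + (t 0 ^ 2 * (t 1 - 1)) * (1 / (t 1 - 1)) * (-(t 0 - 1) / (t 1 - 1) ^ 2) + ((t 0 ^ 2 * (t 1 - 1)) * (-(t 0 - 1) / (t 1 - 1) ^ 2) * (1 / (t 1 - 1)) + (0) * (-(t 0 - 1) / (t 1 - 1) ^ 2) * (-(t 0 - 1) / (t 1 - 1) ^ 2)) =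
    ((0 : ℤ) : Fld 2) + ((0 : ℤ) : Fld 2) * ((t 0 - 1) / (t 1 - 1)) + ((0 : ℤ) : Fld 2) * ((t 0 - 1) / (t 1 - 1)) ^ 2 +
      (((0 : ℤ) : Fld 2) * ((t 0 - 1) / (t 1 - 1)) + ((0 : ℤ) : Fld 2) * ((t 0 - 1) / (t 1 - 1)) * ((t 0 - 1) / (t 1 - 1)) + ((0 : ℤ) : Fld 2) * ((t 0 - 1) / (t 1 - 1)) * ((t 0 - 1) / (t 1 - 1)) ^ 2) +
      (((0 : ℤ) : Fld 2) * ((t 0 - 1) / (t 1 - 1)) ^ 2 + ((0 : ℤ) : Fld 2) * ((t 0 - 1) / (t 1 - 1)) ^ 2 * ((t 0 - 1) / (t 1 - 1)) + ((0 : ℤ) : Fld 2) * ((t 0 - 1) / (t 1 - 1)) ^ 2 * ((t 0 - 1) / (t 1 - 1)) ^ 2)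
  push_cast
  try field_simp
  try ring

theorem Tx0_34 : Quad Tx0 (lam 3) (lam 4) := by
  have h0 := t_ne 0
  have h1 := t_ne 1
  have h2 := t_sub_one_ne 0
  have h3 := t_sub_one_ne 1
  refine quad_of 0 0 0 0 0 (-1) 0 0 1 ?_
  rw [bil_lam]
  show (2 * (t 0 ^ 2 * (t 0 - 1))) * (1 / (t 1 - 1)) * (-(t 1 - 1) / (t 1 * (t 0 - 1) ^ 2)) + (t 0 ^ 2 * (t 1 - 1)) * (1 / (t 1 - 1)) * (t 0 / ((t 0 - 1) * t 1 ^ 2)) + ((t 0 ^ 2 * (t 1 - 1)) * (-(t 0 - 1) / (t 1 - 1) ^ 2) * (-(t 1 - 1) / (t 1 * (t 0 - 1) ^ 2)) + (0) * (-(t 0 - 1) / (t 1 - 1) ^ 2) * (t 0 / ((t 0 - 1) * t 1 ^ 2))) =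
    ((0 : ℤ) : Fld 2) + ((0 : ℤ) : Fld 2) * (t 0 * (t 1 - 1) / ((t 0 - 1) * t 1)) + ((0 : ℤ) : Fld 2) * (t 0 * (t 1 - 1) / ((t 0 - 1) * t 1)) ^ 2 +
      (((0 : ℤ) : Fld 2) * ((t 0 - 1) / (t 1 - 1)) + ((0 : ℤ) : Fld 2) * ((t 0 - 1) / (t 1 - 1)) * (t 0 * (t 1 - 1) / ((t 0 - 1) * t 1)) + ((-1 : ℤ) : Fld 2) * ((t 0 - 1) / (t 1 - 1)) * (t 0 * (t 1 - 1) / ((t 0 - 1) * t 1)) ^ 2) +
      (((0 : ℤ) : Fld 2) * ((t 0 - 1) / (t 1 - 1)) ^ 2 + ((0 : ℤ) : Fld 2) * ((t 0 - 1) / (t 1 - 1)) ^ 2 * (t 0 * (t 1 - 1) / ((t 0 - 1) * t 1)) + ((1 : ℤ) : Fld 2) * ((t 0 - 1) / (t 1 - 1)) ^ 2 * (t 0 * (t 1 - 1) / ((t 0 - 1) * t 1)) ^ 2)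
  push_cast
  try field_simp
  try ring

theorem Tx0_44 : Quad Tx0 (lam 4) (lam 4) := by
  have h0 := t_ne 0
  have h1 := t_ne 1
  have h2 := t_sub_one_ne 0
  have h3 := t_sub_one_ne 1
  refine quad_of 0 0 (-2) 0 0 2 0 0 0 ?_
  rw [bil_lam]
  show (2 * (t 0 ^ 2 * (t 0 - 1))) * (-(t 1 - 1) / (t 1 * (t 0 - 1) ^ 2)) * (-(t 1 - 1) / (t 1 * (t 0 - 1) ^ 2)) + (t 0 ^ 2 * (t 1 - 1)) * (-(t 1 - 1) / (t 1 * (t 0 - 1) ^ 2)) * (t 0 / ((t 0 - 1) * t 1 ^ 2)) + ((t 0 ^ 2 * (t 1 - 1)) * (t 0 / ((t 0 - 1) * t 1 ^ 2)) * (-(t 1 - 1) / (t 1 * (t 0 - 1) ^ 2)) + (0) * (t 0 / ((t 0 - 1) * t 1 ^ 2)) * (t 0 / ((t 0 - 1) * t 1 ^ 2))) =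
    ((0 : ℤ) : Fld 2) + ((0 : ℤ) : Fld 2) * (t 0 * (t 1 - 1) / ((t 0 - 1) * t 1)) + ((-2 : ℤ) : Fld 2) * (t 0 * (t 1 - 1) / ((t 0 - 1) * t 1)) ^ 2 +
      (((0 : ℤ) : Fld 2) * (t 0 * (t 1 - 1) / ((t 0 - 1) * t 1)) + ((0 : ℤ) : Fld 2) * (t 0 * (t 1 - 1) / ((t 0 - 1) * t 1)) * (t 0 * (t 1 - 1) / ((t 0 - 1) * t 1)) + ((2 : ℤ) : Fld 2) * (t 0 * (t 1 - 1) / ((t 0 - 1) * t 1)) * (t 0 * (t 1 - 1) / ((t 0 - 1) * t 1)) ^ 2) +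
      (((0 : ℤ) : Fld 2) * (t 0 * (t 1 - 1) / ((t 0 - 1) * t 1)) ^ 2 + ((0 : ℤ) : Fld 2) * (t 0 * (t 1 - 1) / ((t 0 - 1) * t 1)) ^ 2 * (t 0 * (t 1 - 1) / ((t 0 - 1) * t 1)) + ((0 : ℤ) : Fld 2) * (t 0 * (t 1 - 1) / ((t 0 - 1) * t 1)) ^ 2 * (t 0 * (t 1 - 1) / ((t 0 - 1) * t 1)) ^ 2)
  push_cast
  try field_simp
  try ring

end

end M0n


end

section

/-!
# MP_cc45c1_ag: the Krull dimensions of `R_{0,4}` and `R_{0,5}`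
-/

set_option autoImplicit false

open MvPolynomial

namespace M0n

noncomputable section

theorem range_eq {q : Fin 4 ↪ Fin 2 ⊕ Fin 3} {z : Fin 2 ⊕ Fin 3} (hz : ∀ i, q i ≠ z) :
    Set.range q = {z}ᶜ := by
  have h1 : Finset.univ.map q = Finset.univ.erase z := by
    apply Finset.eq_of_subset_of_card_le
    · intro w hw
      obtain ⟨i, -, rfl⟩ := Finset.mem_map.mp hw
      simp [hz i]
    · rw [Finset.card_map, Finset.card_erase_of_mem (Finset.mem_univ _)]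
      simp
  ext w
  constructor
  · rintro ⟨i, rfl⟩
    exact hz i
  · intro hw
    have h2 : w ∈ Finset.univ.map q := by
      rw [h1]
      simpa using hw
    obtain ⟨i, -, rfl⟩ := Finset.mem_map.mp h2
    exact ⟨i, rfl⟩

theorem exists_ref (q : Fin 4 ↪ Fin 2 ⊕ Fin 3) : ∃ k σ, q = per σ (ref k) := by
  obtain ⟨z, hz⟩ : ∃ z, ∀ i, q i ≠ z := by
    by_contra hn
    push Not at hn
    have h1 : Function.Surjective q := hn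
    have h2 := Fintype.card_le_of_surjective q h1
    simp at h2
  obtain ⟨k, hk⟩ : ∃ k, ∀ i, ref k i ≠ z := by
    rcases z with z | z <;> fin_cases z
    · exact ⟨1, by decide⟩
    · exact ⟨0, by decide⟩
    · exact ⟨3, by decide⟩
    · exact ⟨2, by decide⟩
    · exact ⟨4, by decide⟩
  obtain ⟨σ, hσ⟩ := exists_per ((range_eq hz).trans (range_eq hk).symm)
  exact ⟨k, σ, hσ⟩

theorem quad_all {T : Fin 2 → Fin 2 → Fld 2} (hT : ∀ i j, T i j = T j i)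
    (h : ∀ k l, Quad T (lam k) (lam l)) (q q' : Fin 4 ↪ Fin 2 ⊕ Fin 3) :
    Quad T (cr q) (cr q') := by
  obtain ⟨k, σ, rfl⟩ := exists_ref q
  obtain ⟨l, τ, rfl⟩ := exists_ref q'
  have h1 : Quad T (cr (per σ (ref k))) (lam l) := by
    refine per_induction (P := fun u => Quad T u (lam l)) (fun u hu h => h.inv hu)
      (fun u h => h.one_sub) σ (ref k) ?_
    show Quad T (cr (ref k)) (lam l)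
    rw [cr_ref]
    exact h k l
  have h2 : Quad T (cr (per τ (ref l))) (cr (per σ (ref k))) := by
    refine per_induction (P := fun u => Quad T u (cr (per σ (ref k)))) (fun u hu h => h.inv hu)
      (fun u h => h.one_sub) τ (ref l) ?_
    show Quad T (cr (ref l)) (cr (per σ (ref k)))
    rw [cr_ref]
    exact h1.symm hT
  exact h2.symm hT

theorem Txy_mem : tensor Txy ∈ Reg 2 := by
  refine tensor_mem Txy_symm (quad_all Txy_symm fun k l => ?_)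
  fin_cases k <;> fin_cases l
  · exact Txy_00
  · exact Txy_01
  · exact Txy_02
  · exact Txy_03
  · exact Txy_04
  · exact Quad.symm Txy_symm Txy_01
  · exact Txy_11
  · exact Txy_12
  · exact Txy_13
  · exact Txy_14
  · exact Quad.symm Txy_symm Txy_02
  · exact Quad.symm Txy_symm Txy_12
  · exact Txy_22
  · exact Txy_23
  · exact Txy_24
  · exact Quad.symm Txy_symm Txy_03
  · exact Quad.symm Txy_symm Txy_13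
  · exact Quad.symm Txy_symm Txy_23
  · exact Txy_33
  · exact Txy_34
  · exact Quad.symm Txy_symm Txy_04
  · exact Quad.symm Txy_symm Txy_14
  · exact Quad.symm Txy_symm Txy_24
  · exact Quad.symm Txy_symm Txy_34
  · exact Txy_44

theorem TxI_mem : tensor TxI ∈ Reg 2 := by
  refine tensor_mem TxI_symm (quad_all TxI_symm fun k l => ?_)
  fin_cases k <;> fin_cases l
  · exact TxI_00
  · exact TxI_01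
  · exact TxI_02
  · exact TxI_03
  · exact TxI_04
  · exact Quad.symm TxI_symm TxI_01
  · exact TxI_11
  · exact TxI_12
  · exact TxI_13
  · exact TxI_14
  · exact Quad.symm TxI_symm TxI_02
  · exact Quad.symm TxI_symm TxI_12
  · exact TxI_22
  · exact TxI_23
  · exact TxI_24
  · exact Quad.symm TxI_symm TxI_03
  · exact Quad.symm TxI_symm TxI_13
  · exact Quad.symm TxI_symm TxI_23
  · exact TxI_33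
  · exact TxI_34
  · exact Quad.symm TxI_symm TxI_04
  · exact Quad.symm TxI_symm TxI_14
  · exact Quad.symm TxI_symm TxI_24
  · exact Quad.symm TxI_symm TxI_34
  · exact TxI_44

theorem TyI_mem : tensor TyI ∈ Reg 2 := by
  refine tensor_mem TyI_symm (quad_all TyI_symm fun k l => ?_)
  fin_cases k <;> fin_cases l
  · exact TyI_00
  · exact TyI_01
  · exact TyI_02
  · exact TyI_03
  · exact TyI_04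
  · exact Quad.symm TyI_symm TyI_01
  · exact TyI_11
  · exact TyI_12
  · exact TyI_13
  · exact TyI_14
  · exact Quad.symm TyI_symm TyI_02
  · exact Quad.symm TyI_symm TyI_12
  · exact TyI_22
  · exact TyI_23
  · exact TyI_24
  · exact Quad.symm TyI_symm TyI_03
  · exact Quad.symm TyI_symm TyI_13
  · exact Quad.symm TyI_symm TyI_23
  · exact TyI_33
  · exact TyI_34
  · exact Quad.symm TyI_symm TyI_04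
  · exact Quad.symm TyI_symm TyI_14
  · exact Quad.symm TyI_symm TyI_24
  · exact Quad.symm TyI_symm TyI_34
  · exact TyI_44

theorem Tx0_mem : tensor Tx0 ∈ Reg 2 := by
  refine tensor_mem Tx0_symm (quad_all Tx0_symm fun k l => ?_)
  fin_cases k <;> fin_cases l
  · exact Tx0_00
  · exact Tx0_01
  · exact Tx0_02
  · exact Tx0_03
  · exact Tx0_04
  · exact Quad.symm Tx0_symm Tx0_01
  · exact Tx0_11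
  · exact Tx0_12
  · exact Tx0_13
  · exact Tx0_14
  · exact Quad.symm Tx0_symm Tx0_02
  · exact Quad.symm Tx0_symm Tx0_12
  · exact Tx0_22
  · exact Tx0_23
  · exact Tx0_24
  · exact Quad.symm Tx0_symm Tx0_03
  · exact Quad.symm Tx0_symm Tx0_13
  · exact Quad.symm Tx0_symm Tx0_23
  · exact Tx0_33
  · exact Tx0_34
  · exact Quad.symm Tx0_symm Tx0_04
  · exact Quad.symm Tx0_symm Tx0_14
  · exact Quad.symm Tx0_symm Tx0_24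
  · exact Quad.symm Tx0_symm Tx0_34
  · exact Tx0_44

end

end M0n


end

section

/-!
# MP_cc45c1_ag: the Krull dimensions of `R_{0,4}` and `R_{0,5}`
-/

set_option autoImplicit false

open MvPolynomial

namespace M0n

noncomputable section

theorem le_krull {A B : Type} [CommRing A] [Algebra ℂ A] [CommRing B] [IsDomain B] [Algebra ℂ B]
    (R : Subalgebra ℂ A) (d : ℕ) (φ : Fin (d + 1) → (R →ₐ[ℂ] B))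
    (hle : ∀ (i : Fin d) (f : R), φ i.castSucc f = 0 → φ i.succ f = 0)
    (hne : ∀ i : Fin d, ∃ f : R, φ i.succ f = 0 ∧ φ i.castSucc f ≠ 0) :
    (d : WithBot ℕ∞) ≤ ringKrullDim R := by
  let P : Fin (d + 1) → PrimeSpectrum R := fun i =>
    ⟨RingHom.ker (φ i).toRingHom, RingHom.ker_isPrime _⟩
  have hP : StrictMono P := by
    rw [Fin.strictMono_iff_lt_succ]
    intro i
    refine lt_of_le_of_ne (fun f hf => hle i f hf) ?_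
    intro h
    obtain ⟨f, h1, h2⟩ := hne i
    have h3 : f ∈ (P i.succ).asIdeal := h1
    rw [← h] at h3
    exact h2 h3
  exact Order.LTSeries.length_le_krullDim (LTSeries.mk d P hP)

theorem exists_sep {m : ℕ} {B : Type} [CommRing B] [Algebra ℂ B]
    (σ τ : MvPolynomial (Fin m ⊕ Fin m) ℂ →ₐ[ℂ] B) (G : MvPolynomial (Fin m ⊕ Fin m) ℂ)
    (hG : Lam m G ∈ Reg m) (h1 : τ G = 0) (h2 : σ G ≠ 0) :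
    ∃ f : Reg m, (τ.comp (toPoly m)) f = 0 ∧ (σ.comp (toPoly m)) f ≠ 0 := by
  refine ⟨⟨Lam m G, hG⟩, ?_, ?_⟩
  · rw [AlgHom.comp_apply, toPoly_eq]
    exact h1
  · rw [AlgHom.comp_apply, toPoly_eq]
    exact h2

/-- The lower bound given by a chain of substitutions. -/
theorem le_krull_reg (m : ℕ) (d : ℕ)
    (φ : Fin (d + 1) → (MvPolynomial (Fin m ⊕ Fin m) ℂ →ₐ[ℂ] MvPolynomial (Fin m ⊕ Fin m) ℂ))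
    (hle : ∀ i : Fin d, (φ i.succ).comp (φ i.castSucc) = φ i.succ)
    (hne : ∀ i : Fin d, ∃ G, Lam m G ∈ Reg m ∧ φ i.succ G = 0 ∧ φ i.castSucc G ≠ 0) :
    (d : WithBot ℕ∞) ≤ ringKrullDim (Reg m) := by
  refine le_krull (A := MvPolynomial (Fin m) (Fld m)) (B := MvPolynomial (Fin m ⊕ Fin m) ℂ)
    (Reg m) d (fun i => (φ i).comp (toPoly m)) ?_ ?_
  · intro i f hf
    have h1 : φ i.castSucc (toPoly m f) = 0 := hf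
    have h2 := DFunLike.congr_fun (hle i) (toPoly m f)
    rw [AlgHom.comp_apply, h1, map_zero] at h2
    exact h2.symm
  · intro i
    obtain ⟨G, hG, h1, h2⟩ := hne i
    exact exists_sep (φ i.castSucc) (φ i.succ) G hG h1 h2

/-- The substitutions which define the chain of prime ideals of `R_{0,5}`. -/
def sub5 : Fin 5 → (MvPolynomial (Fin 2 ⊕ Fin 2) ℂ →ₐ[ℂ] MvPolynomial (Fin 2 ⊕ Fin 2) ℂ) :=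
  ![AlgHom.id ℂ _,
    aeval (Sum.elim ![X (.inl 0), X (.inl 0)] ![X (.inr 0), X (.inr 1)]),
    aeval (Sum.elim ![C 2, C 2] ![X (.inr 0), X (.inr 1)]),
    aeval (Sum.elim ![C 2, C 2] ![0, X (.inr 1)]),
    aeval (Sum.elim ![C 2, C 2] ![0, 0])]

theorem sub5_comp (i : Fin 4) : (sub5 i.succ).comp (sub5 i.castSucc) = sub5 i.succ := by
  fin_cases i
  · rfl
  · apply algHom_ext
    rintro (k | k) <;> fin_cases k <;> simp [sub5]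
  · apply algHom_ext
    rintro (k | k) <;> fin_cases k <;> simp [sub5]
  · apply algHom_ext
    rintro (k | k) <;> fin_cases k <;> simp [sub5]

/-- The coordinates. -/
abbrev vx : MvPolynomial (Fin 2 ⊕ Fin 2) ℂ := X (.inl 0)
abbrev vy : MvPolynomial (Fin 2 ⊕ Fin 2) ℂ := X (.inl 1)
abbrev vp : MvPolynomial (Fin 2 ⊕ Fin 2) ℂ := X (.inr 0)
abbrev vq : MvPolynomial (Fin 2 ⊕ Fin 2) ℂ := X (.inr 1)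

/-- The polynomials of the four quadratic tensors. -/
def Gxy : MvPolynomial (Fin 2 ⊕ Fin 2) ℂ := C 2 * ((vx - vy) ^ 2 * vp * vq)
def GxI : MvPolynomial (Fin 2 ⊕ Fin 2) ℂ :=
  C 2 * (vx * (vx - 1) * vp ^ 2 + vy * (vy - 1) * vp * vq)
def GyI : MvPolynomial (Fin 2 ⊕ Fin 2) ℂ :=
  C 2 * (vx * (vx - 1) * vp * vq + vy * (vy - 1) * vq ^ 2)
def Gx0 : MvPolynomial (Fin 2 ⊕ Fin 2) ℂ :=
  C 2 * (vx ^ 2 * (vx - 1) * vp ^ 2 + vx ^ 2 * (vy - 1) * vp * vq)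

theorem two_alg : (algebraMap ℂ (Fld 2)) 2 = 2 := map_ofNat _ 2

theorem two_C : (C (2 : Fld 2) : MvPolynomial (Fin 2) (Fld 2)) = 2 := map_ofNat C 2

theorem Lam_Gxy : Lam 2 Gxy = tensor Txy := by
  simp [tensor, Txy, Fin.sum_univ_two, Lam, Gxy]
  try simp only [two_alg, two_C]
  ring

theorem Lam_GxI : Lam 2 GxI = tensor TxI := by
  simp [tensor, TxI, Fin.sum_univ_two, Lam, GxI]
  try simp only [two_alg, two_C]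
  ring

theorem Lam_GyI : Lam 2 GyI = tensor TyI := by
  simp [tensor, TyI, Fin.sum_univ_two, Lam, GyI]
  try simp only [two_alg, two_C]
  ring

theorem Lam_Gx0 : Lam 2 Gx0 = tensor Tx0 := by
  simp [tensor, Tx0, Fin.sum_univ_two, Lam, Gx0]
  try simp only [two_alg, two_C]
  ring

theorem Gxy_mem : Lam 2 Gxy ∈ Reg 2 := by
  rw [Lam_Gxy]
  exact Txy_mem

theorem GxI_mem : Lam 2 GxI ∈ Reg 2 := by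
  rw [Lam_GxI]
  exact TxI_mem

theorem GyI_mem : Lam 2 GyI ∈ Reg 2 := by
  rw [Lam_GyI]
  exact TyI_mem

theorem Gx0_mem : Lam 2 Gx0 ∈ Reg 2 := by
  rw [Lam_Gx0]
  exact Tx0_mem


theorem sep5_0 : ∃ G, Lam 2 G ∈ Reg 2 ∧ sub5 1 G = 0 ∧ sub5 0 G ≠ 0 := by
  refine ⟨Gxy, Gxy_mem, ?_, ?_⟩
  · simp [sub5, Gxy]
  · show Gxy ≠ 0
    intro h
    have := congrArg (eval (Sum.elim ![2, 1] ![1, 1])) h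
    simp [Gxy] at this
    norm_num at this

theorem sep5_1 : ∃ G, Lam 2 G ∈ Reg 2 ∧ sub5 2 G = 0 ∧ sub5 1 G ≠ 0 := by
  refine ⟨Gx0 - (GxI + GxI), ?_, ?_, ?_⟩
  · rw [map_sub, map_add]
    exact sub_mem Gx0_mem (add_mem GxI_mem GxI_mem)
  · have h2 : (C 2 : MvPolynomial (Fin 2 ⊕ Fin 2) ℂ) = 2 := rfl
    simp [sub5, Gx0, GxI]
    rw [h2]
    ring
  · intro h
    have := congrArg (eval (Sum.elim ![3, 3] ![1, 0])) h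
    simp [sub5, Gx0, GxI] at this
    norm_num at this

theorem sep5_2 : ∃ G, Lam 2 G ∈ Reg 2 ∧ sub5 3 G = 0 ∧ sub5 2 G ≠ 0 := by
  refine ⟨GxI, GxI_mem, ?_, ?_⟩
  · simp [sub5, GxI]
  · intro h
    have := congrArg (eval (Sum.elim ![3, 3] ![1, 0])) h
    simp [sub5, GxI] at this
    norm_num at this

theorem sep5_3 : ∃ G, Lam 2 G ∈ Reg 2 ∧ sub5 4 G = 0 ∧ sub5 3 G ≠ 0 := by
  refine ⟨GyI, GyI_mem, ?_, ?_⟩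
  · simp [sub5, GyI]
  · intro h
    have := congrArg (eval (Sum.elim ![3, 3] ![1, 1])) h
    simp [sub5, GyI] at this
    norm_num at this

theorem sep5 (i : Fin 4) :
    ∃ G, Lam 2 G ∈ Reg 2 ∧ sub5 i.succ G = 0 ∧ sub5 i.castSucc G ≠ 0 := by
  match i with
  | 0 => exact sep5_0
  | 1 => exact sep5_1
  | 2 => exact sep5_2
  | 3 => exact sep5_3

theorem four_le_krull : (4 : WithBot ℕ∞) ≤ ringKrullDim (Reg 2) :=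
  le_krull_reg 2 4 sub5 sub5_comp sep5

theorem krull_two : ringKrullDim (Reg 2) = 4 :=
  le_antisymm (krull_reg_le 2) four_le_krull

end

end M0n


end

section

/-!
# The ring of functions on `T^*[(𝔸² ∖ 0)/𝔾_m]`, weights `4` and `6`
-/

set_option autoImplicit false

open MvPolynomial

namespace Pool.Agent.MG.One

/-- The polynomials `f(a, b, τ)` which are invariant under `(a, b, τ) ↦ (u⁴ a, u⁶ b, u⁻¹⁰ τ)`. -/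
noncomputable def Inv : Subalgebra ℂ (MvPolynomial (Fin 3) ℂ) where
  carrier := {f | ∀ u a b τ : ℂ, u ≠ 0 → eval ![u ^ 4 * a, u ^ 6 * b, τ] f =
    eval ![a, b, u ^ 10 * τ] f}
  mul_mem' {f g} hf hg u a b τ hu := by
    rw [map_mul, map_mul, hf u a b τ hu, hg u a b τ hu]
  add_mem' {f g} hf hg u a b τ hu := by
    rw [map_add, map_add, hf u a b τ hu, hg u a b τ hu]
  algebraMap_mem' c u a b τ hu := by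
    simp

theorem mem_Inv (f : MvPolynomial (Fin 3) ℂ) : f ∈ Inv ↔ ∀ u a b τ : ℂ, u ≠ 0 →
    eval ![u ^ 4 * a, u ^ 6 * b, τ] f = eval ![a, b, u ^ 10 * τ] f := Iff.rfl

/-- The substitution `τ = 1`. -/
noncomputable def one : MvPolynomial (Fin 3) ℂ →ₐ[ℂ] MvPolynomial (Fin 2) ℂ :=
  aeval ![X 0, X 1, 1]

theorem eval_one (f : MvPolynomial (Fin 3) ℂ) (a b : ℂ) :
    eval ![a, b] (one f) = eval ![a, b, 1] f := by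
  have h : ((aeval ![a, b] : MvPolynomial (Fin 2) ℂ →ₐ[ℂ] ℂ)).comp one =
      (aeval ![a, b, 1] : MvPolynomial (Fin 3) ℂ →ₐ[ℂ] ℂ) := by
    ext i
    fin_cases i <;> simp [one]
  exact DFunLike.congr_fun h f

theorem one_inj : Function.Injective (one.comp Inv.val) := by
  rw [injective_iff_map_eq_zero]
  rintro ⟨f, hf⟩ h
  have h1 : one f = 0 := h
  have h2 : ∀ a b τ : ℂ, τ ≠ 0 → eval ![a, b, τ] f = 0 := by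
    intro a b τ hτ
    obtain ⟨u, hu⟩ := IsAlgClosed.exists_pow_nat_eq τ (n := 10) (by norm_num)
    have hu0 : u ≠ 0 := by
      rintro rfl
      apply hτ
      rw [← hu]
      norm_num
    have h3 := hf u a b 1 hu0
    rw [mul_one, hu, ← eval_one, h1, map_zero] at h3
    exact h3.symm
  have h3 : X 2 * f = 0 := by
    refine MvPolynomial.funext fun v => ?_
    have hv : v = ![v 0, v 1, v 2] := by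
      funext i
      fin_cases i <;> rfl
    rw [map_mul, eval_X, map_zero]
    by_cases h4 : v 2 = 0
    · rw [h4, zero_mul]
    · rw [hv, h2 _ _ _ h4, mul_zero]
  have h4 : f = 0 := by
    rcases mul_eq_zero.1 h3 with h5 | h5
    · exact absurd h5 (X_ne_zero 2)
    · exact h5
  exact Subtype.ext h4

theorem krull_le : ringKrullDim Inv ≤ 2 := by
  have h := M0n.krull_le (σ := Fin 2) (R := Inv) (one.comp Inv.val) one_inj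
  simpa using h

theorem mem1 : (X 0 ^ 5 * X 2 ^ 2 : MvPolynomial (Fin 3) ℂ) ∈ Inv := by
  intro u a b τ _
  simp
  ring

theorem mem2 : (X 1 ^ 5 * X 2 ^ 3 : MvPolynomial (Fin 3) ℂ) ∈ Inv := by
  intro u a b τ _
  simp
  ring

/-- `b = 0` -/
noncomputable def c1 : MvPolynomial (Fin 3) ℂ →ₐ[ℂ] MvPolynomial (Fin 3) ℂ :=
  aeval ![X 0, 0, X 2]

/-- `a = b = 0` -/
noncomputable def c2 : MvPolynomial (Fin 3) ℂ →ₐ[ℂ] MvPolynomial (Fin 3) ℂ :=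
  aeval ![0, 0, X 2]

theorem c2_c1 (f : MvPolynomial (Fin 3) ℂ) : c2 (c1 f) = c2 f := by
  have h2 : c2.comp c1 = c2 := by
    ext j
    fin_cases j <;> simp [c1, c2]
  exact DFunLike.congr_fun h2 f

theorem c1_mem2 : c1 (X 1 ^ 5 * X 2 ^ 3) = 0 := by
  simp [c1]

theorem c2_mem1 : c2 (X 0 ^ 5 * X 2 ^ 2) = 0 := by
  simp [c2]

theorem c1_mem1 : c1 (X 0 ^ 5 * X 2 ^ 2) ≠ 0 := by
  have h : c1 (X 0 ^ 5 * X 2 ^ 2) = X 0 ^ 5 * X 2 ^ 2 := by simp [c1]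
  rw [h]
  exact mul_ne_zero (pow_ne_zero _ (X_ne_zero _)) (pow_ne_zero _ (X_ne_zero _))

theorem mem2_ne : (X 1 ^ 5 * X 2 ^ 3 : MvPolynomial (Fin 3) ℂ) ≠ 0 :=
  mul_ne_zero (pow_ne_zero _ (X_ne_zero _)) (pow_ne_zero _ (X_ne_zero _))

/-- The chain of substitutions. -/
noncomputable def chain (i : Fin 3) : Inv →ₐ[ℂ] MvPolynomial (Fin 3) ℂ :=
  if i = 0 then Inv.val else if i = 1 then c1.comp Inv.val else c2.comp Inv.val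

theorem chain0 (f : Inv) : chain 0 f = f.1 := rfl

theorem chain1 (f : Inv) : chain 1 f = c1 f.1 := by
  unfold chain
  rw [if_neg (by decide), if_pos rfl]
  rfl

theorem chain2 (f : Inv) : chain 2 f = c2 f.1 := by
  unfold chain
  rw [if_neg (by decide), if_neg (by decide)]
  rfl

theorem le_krull : 2 ≤ ringKrullDim Inv := by
  have h1 : ∀ (i : Fin 2) (f : Inv), chain i.castSucc f = 0 → chain i.succ f = 0 := by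
    refine Fin.forall_fin_two.2 ⟨fun f h => ?_, fun f h => ?_⟩
    · rw [Fin.castSucc_zero, chain0] at h
      rw [Fin.succ_zero_eq_one, chain1, h, map_zero]
    · have h' : chain 1 f = 0 := h
      have h'' : chain 2 f = 0 := by
        rw [chain1] at h'
        rw [chain2, ← c2_c1, h', map_zero]
      exact h''
  have h2 : ∀ i : Fin 2, ∃ f : Inv, chain i.succ f = 0 ∧ chain i.castSucc f ≠ 0 := by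
    refine Fin.forall_fin_two.2 ⟨⟨⟨_, mem2⟩, ?_, ?_⟩, ⟨⟨_, mem1⟩, ?_, ?_⟩⟩
    · rw [Fin.succ_zero_eq_one, chain1]
      exact c1_mem2
    · rw [Fin.castSucc_zero, chain0]
      exact mem2_ne
    · have h : chain 2 ⟨_, mem1⟩ = 0 := by
        rw [chain2]
        exact c2_mem1
      exact h
    · have h : chain 1 ⟨_, mem1⟩ ≠ 0 := by
        rw [chain1]
        exact c1_mem1
      exact h
  exact M0n.le_krull (B := MvPolynomial (Fin 3) ℂ) Inv 2 chain h1 h2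

/-- The Krull dimension of the ring of functions on `T^*[(𝔸² ∖ 0)/𝔾_m]` is `2`. -/
theorem krull_Inv : ringKrullDim Inv = 2 := le_antisymm krull_le le_krull

end Pool.Agent.MG.One


end
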