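import Mathlib
import Pool.Agent.KDM.C02
import Pool.Agent.KDM.C06
import Pool.Agent.KDM.C07

/-! Parts: MG.FIS, MG.Lift, MG.AX, MG.AI, MG.AC, MG.KX.DST, MG.G0.DefsB, MG.G0.StmtsB, MG.G0.StmtsZL, MG.G0.BPA, MG.G0.BPB, MG.G0.PSK, MG.G0.ZBL -/

section

/-!
# Fibres of a constant family; stability is invariant under isomorphism
-/

set_option autoImplicit false

open CategoryTheory CategoryTheory.Limits AlgebraicGeometry TensorProduct

namespace Pool.Agent.MG.FIS

lemma spMap_id (K : Type) [CommRing K] : spMap (RingHom.id K) = 𝟙 (Sp K) := by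
  show Spec.map (CommRingCat.ofHom (RingHom.id K)) = _
  rw [CommRingCat.ofHom_id, Spec.map_id]

lemma spMap_comp {A B C : Type} [CommRing A] [CommRing B] [CommRing C] (φ : A →+* B)
    (ψ : B →+* C) : spMap (ψ.comp φ) = spMap ψ ≫ spMap φ := by
  show Spec.map (CommRingCat.ofHom (ψ.comp φ)) = _
  rw [CommRingCat.ofHom_comp, Spec.map_comp]

section one

/-- The pull back diagram, without families. -/
lemma core {Z X S B K : Scheme.{0}} (π : X ⟶ S) (sB : B ⟶ S) (sK : K ⟶ S) (u : K ⟶ B)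
    (hu : u ≫ sB = sK) (p : Z ⟶ K) (g : Z ⟶ pullback π sB)
    (h : IsPullback g p (pullback.snd π sB) u) :
    ∃ e : Z ≅ pullback π sK, e.hom ≫ pullback.fst π sK = g ≫ pullback.fst π sB ∧
      e.hom ≫ pullback.snd π sK = p := by
  have h2 := h.flip.paste_vert (IsPullback.of_hasPullback π sB).flip
  rw [hu] at h2
  have h4 := h2.flip
  exact ⟨h4.isoPullback, h4.isoPullback_hom_fst, h4.isoPullback_hom_snd⟩

variable {n : ℕ} {k : Type} [Field k] (C : Fam n k) (B : Type) [CommRing B] [Algebra k B]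
    (K : Type) [Field K] [Algebra k K] (ψ : B →ₐ[k] K) (τ : Fin n → (Sp B ⟶ C.X))
    (hτ : ∀ i, τ i ≫ C.π = spMap (algebraMap k B)) (τ' : Fin n → (Sp K ⟶ C.X))
    (hτ' : ∀ i, τ' i ≫ C.π = spMap (algebraMap k K)) (hc : ∀ i, τ' i = spMap (ψ : B →+* K) ≫ τ i)
    (z : Fam n K)

include hc in
lemma fibre (h : Nonempty (Arrow (ψ : B →+* K) z (constFam C B τ hτ))) :
    ∃ (f : Arrow (RingHom.id K) z (constFam C K τ' hτ')), IsIso f.f := by
  obtain ⟨a⟩ := h
  let g : z.X ⟶ pullback C.π (spMap (algebraMap k B)) := a.f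
  have hg : ∀ i, z.σ i ≫ g = spMap (ψ : B →+* K) ≫ pullback.lift (τ i) (𝟙 _)
    (by rw [hτ, Category.id_comp]) := a.sec
  have h3 : spMap (ψ : B →+* K) ≫ spMap (algebraMap k B) = spMap (algebraMap k K) := by
    rw [← spMap_comp]
    congr 1
    ext x
    exact ψ.commutes x
  obtain ⟨e, e1, e2⟩ := core C.π (spMap (algebraMap k B)) (spMap (algebraMap k K))
    (spMap (ψ : B →+* K)) h3 z.π g a.cart
  let ee : z.X ⟶ (constFam C K τ' hτ').X := e.hom
  have hee : IsIso ee := by
    show IsIso e.hom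
    infer_instance
  have e2' : ee ≫ (constFam C K τ' hτ').π = z.π := e2
  refine ⟨⟨ee, ?_, ?_⟩, hee⟩
  · have : IsIso (spMap (RingHom.id K)) := by
      rw [spMap_id]
      infer_instance
    refine IsPullback.of_horiz_isIso ⟨?_⟩
    rw [e2', spMap_id, Category.comp_id]
  · intro i
    rw [spMap_id, Category.id_comp]
    show z.σ i ≫ e.hom = pullback.lift (τ' i) (𝟙 _) (by rw [hτ', Category.id_comp])
    refine pullback.hom_ext ?_ ?_
    · rw [pullback.lift_fst, Category.assoc, e1, ← Category.assoc, hg i, Category.assoc,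
        pullback.lift_fst, hc]
    · rw [pullback.lift_snd, Category.assoc, e2, z.sec]

end one

section two

variable {n : ℕ} {K : Type} [Field K] {z z' : Fam n K} (f : Arrow (RingHom.id K) z z') [IsIso f.f]

omit [IsIso f.f] in
lemma ov : f.f ≫ z'.π = z.π := by
  have h := f.cart.w
  rwa [spMap_id, Category.comp_id] at h

omit [IsIso f.f] in
lemma sec (i : Fin n) : z.σ i ≫ f.f = z'.σ i := by
  rw [f.sec i, spMap_id, Category.id_comp]

lemma ov' : inv f.f ≫ z.π = z'.π := by
  rw [IsIso.inv_comp_eq, ov]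

omit [IsIso f.f] in
lemma coef_app (U : z'.X.Opens) (c : K) :
    (f.f.app U).hom (coef z'.π U c) = coef z.π (f.f ⁻¹ᵁ U) c := by
  have h : (z'.π.appTop ≫ z'.X.presheaf.map (homOfLE le_top).op) ≫ f.f.app U =
      z.π.appTop ≫ z.X.presheaf.map (homOfLE (le_top : f.f ⁻¹ᵁ U ≤ ⊤)).op := by
    rw [Category.assoc, Scheme.Hom.naturality]
    rw [← ov f]
    simp
  have h2 := congrArg (fun w => ((Scheme.ΓSpecIso (CommRingCat.of K)).inv ≫ w).hom c) h
  exact h2

lemma exists_pre (W : z.X.Opens) : ∃ U : z'.X.Opens, f.f ⁻¹ᵁ U = W := by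
  refine ⟨inv f.f ⁻¹ᵁ W, ?_⟩
  rw [← Scheme.Hom.comp_preimage]
  simp

/-- The inverse of the ring isomorphism on functions. -/
noncomputable def ia (U : z'.X.Opens) : Γ(z.X, f.f ⁻¹ᵁ U) →+* Γ(z'.X, U) :=
  (inv (f.f.app U)).hom

lemma ia_app (U : z'.X.Opens) (a : Γ(z'.X, U)) : ia f U ((f.f.app U).hom a) = a := by
  have h := congrArg (fun w => w.hom a) (IsIso.hom_inv_id (f.f.app U))
  exact h

lemma app_ia (U : z'.X.Opens) (a : Γ(z.X, f.f ⁻¹ᵁ U)) : (f.f.app U).hom (ia f U a) = a := by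
  have h := congrArg (fun w => w.hom a) (IsIso.inv_hom_id (f.f.app U))
  exact h

omit [IsIso f.f] in
lemma app_res {U V : z'.X.Opens} (h : U ≤ V) (a : Γ(z'.X, V)) :
    (f.f.app U).hom (z'.X.presheaf.map (homOfLE h).op a) =
      z.X.presheaf.map (homOfLE (show f.f ⁻¹ᵁ U ≤ f.f ⁻¹ᵁ V from fun _ hx => h hx)).op
        ((f.f.app V).hom a) := by
  have h1 := congrArg (fun w => w.hom a) (Scheme.Hom.naturality f.f (homOfLE h).op)
  exact h1

lemma app_inj (U : z'.X.Opens) {a b : Γ(z'.X, U)} (h : (f.f.app U).hom a = (f.f.app U).hom b) :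
    a = b := by
  rw [← ia_app f U a, h, ia_app]

omit [IsIso f.f] in
lemma sec_app (i : Fin n) (U : z'.X.Opens) (b : Γ(z'.X, U)) :
    (z'.σ i).app U b = 0 ↔ (z.σ i).app (f.f ⁻¹ᵁ U) ((f.f.app U).hom b) = 0 := by
  rw [← sec f i]
  exact Iff.rfl

/-- The derivation on `U`. -/
noncomputable def pD (v : VField z) (U : z'.X.Opens) : Γ(z'.X, U) →+ Γ(z'.X, U) where
  toFun a := ia f U (v.D (f.f ⁻¹ᵁ U) ((f.f.app U).hom a))
  map_zero' := by rw [map_zero, map_zero, map_zero]
  map_add' a b := by rw [map_add, map_add, map_add]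

lemma app_pD (v : VField z) (U : z'.X.Opens) (a : Γ(z'.X, U)) :
    (f.f.app U).hom (pD f v U a) = v.D (f.f ⁻¹ᵁ U) ((f.f.app U).hom a) :=
  app_ia f U _

/-- Push forward of vector fields. -/
noncomputable def push (v : VField z) : VField z' where
  D := pD f v
  mul U a b := by
    apply app_inj f
    have h1 : (f.f.app U).hom (a * b) = (f.f.app U).hom a * (f.f.app U).hom b := map_mul _ _ _
    have h2 : (f.f.app U).hom (a * pD f v U b + b * pD f v U a) =
        (f.f.app U).hom a * (f.f.app U).hom (pD f v U b) +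
        (f.f.app U).hom b * (f.f.app U).hom (pD f v U a) := by
      rw [map_add, map_mul, map_mul]
    rw [app_pD, h1, h2, app_pD, app_pD]
    exact v.mul _ _ _
  const U c := by
    apply app_inj f
    rw [app_pD, coef_app, v.const, map_zero]
  res U V h a := by
    apply app_inj f
    rw [app_pD]
    have h1 := app_res f h a
    have h2 := app_res f h (pD f v V a)
    rw [app_pD] at h2
    refine Eq.trans ?_ h2.symm
    refine Eq.trans (congrArg (v.D (f.f ⁻¹ᵁ U)) h1) ?_
    exact v.res _ _ _ _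
  sec U i a := by
    rw [sec_app f, app_pD]
    exact v.sec _ _ _

include f
lemma rigid (h : ∀ v : VField z', ∀ U, v.D U = 0) (v : VField z) (W : z.X.Opens) :
    v.D W = 0 := by
  obtain ⟨U, rfl⟩ := exists_pre f W
  ext a
  have h1 : pD f v U (ia f U a) = 0 := DFunLike.congr_fun (h (push f v) U) (ia f U a)
  have h3 := congrArg (f.f.app U).hom h1
  rw [app_pD, app_ia, map_zero] at h3
  exact h3

lemma genus (g : ℕ) (h : HasGenus z'.π g) : HasGenus z.π g := by
  obtain ⟨U, V, hU, hV, hUV, L, hL, hc, hk⟩ := h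
  refine ⟨f.f ⁻¹ᵁ U, f.f ⁻¹ᵁ V, hU.preimage_of_isIso f.f, hV.preimage_of_isIso f.f, ?_,
    L.comp (ia f (U ⊓ V)).toAddMonoidHom, ?_, ?_, ?_⟩
  · have := congrArg (fun W => f.f ⁻¹ᵁ W) hUV
    exact this
  · intro y
    obtain ⟨a, ha⟩ := hL y
    refine ⟨(f.f.app (U ⊓ V)).hom a, ?_⟩
    show L (ia f (U ⊓ V) ((f.f.app (U ⊓ V)).hom a)) = y
    rw [ia_app, ha]
  · intro c (s : Γ(z.X, f.f ⁻¹ᵁ (U ⊓ V)))
    show L (ia f (U ⊓ V) (coef z.π (f.f ⁻¹ᵁ (U ⊓ V)) c * s)) = c • L (ia f (U ⊓ V) s)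
    rw [← coef_app, map_mul, ia_app, hc]
  · intro (s : Γ(z.X, f.f ⁻¹ᵁ (U ⊓ V)))
    show L (ia f (U ⊓ V) s) = 0 ↔ _
    rw [hk]
    constructor
    · rintro ⟨a, b, hab⟩
      refine ⟨(f.f.app U).hom a, (f.f.app V).hom b, ?_⟩
      have h1 := congrArg (f.f.app (U ⊓ V)).hom hab
      rw [app_ia, map_add] at h1
      have h2 := app_res f (inf_le_left : U ⊓ V ≤ U) a
      have h3 := app_res f (inf_le_right : U ⊓ V ≤ V) b
      refine h1.trans ?_
      exact congrArg₂ (· + ·) h2 h3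
    · rintro ⟨a, b, hab⟩
      refine ⟨ia f U a, ia f V b, ?_⟩
      apply app_inj f
      rw [app_ia, map_add]
      have h2 := app_res f (inf_le_left : U ⊓ V ≤ U) (ia f U a)
      have h3 := app_res f (inf_le_right : U ⊓ V ≤ V) (ia f V b)
      rw [app_ia] at h2 h3
      refine hab.trans ?_
      exact (congrArg₂ (· + ·) h2 h3).symm

lemma nodal (h : Nodal z'.π) : Nodal z.π := by
  intro x
  obtain ⟨U, p, q, hp, hq, hpq, hx⟩ := h (f.f x)
  refine ⟨U, p ≫ inv f.f, q, ?_, hq, ?_, ?_⟩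
  · infer_instance
  · rw [Category.assoc, ov', hpq]
  · obtain ⟨u, hu⟩ := hx
    refine ⟨u, ?_⟩
    rw [Scheme.Hom.comp_apply, hu, ← Scheme.Hom.comp_apply, IsIso.hom_inv_id]
    rfl

lemma connected (h : ConnectedSpace z'.X) : ConnectedSpace z.X := by
  have e : z'.X ≃ₜ z.X := (inv f.f).homeomorph
  exact e.surjective.connectedSpace e.continuous

lemma smooth (i : Fin n) (s : Sp K) (h : ∃ U : z'.X.Opens, z'.σ i s ∈ U ∧
    Smooth (U.ι ≫ z'.π)) : ∃ U : z.X.Opens, z.σ i s ∈ U ∧ Smooth (U.ι ≫ z.π) := by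
  obtain ⟨U, hU, hs⟩ := h
  refine ⟨f.f ⁻¹ᵁ U, ?_, ?_⟩
  · rw [← sec f i, Scheme.Hom.comp_apply] at hU
    exact hU
  · have h1 : (f.f ⁻¹ᵁ U).ι ≫ z.π = (f.f ∣_ U) ≫ U.ι ≫ z'.π := by
      rw [← ov f, ← Category.assoc, ← Category.assoc, morphismRestrict_ι]
    rw [h1]
    infer_instance

lemma stable (g : ℕ) (h : StableCurve g z') : StableCurve g z where
  connected := connected f h.connected
  nodal := nodal f h.nodal
  genus := genus f g h.genus
  distinct i j hij he := h.distinct i j hij (by rw [← sec f i, ← sec f j, he])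
  smooth i s := smooth f i s (h.smooth i s)
  rigid := rigid f h.rigid

end two

end Pool.Agent.MG.FIS

namespace Pool.Agent.MG

theorem t_FIS : Stmt_FIS :=
  ⟨fun C B _ _ K _ _ ψ τ hτ τ' hτ' hc z h => FIS.fibre C B K ψ τ hτ τ' hτ' hc z h,
    fun g _ _ f _ h => FIS.stable f g h⟩

end Pool.Agent.MG


end

section

/-!
# Lifting along etale homomorphisms, derivations of etale algebras
-/

open CategoryTheory CategoryTheory.Limits AlgebraicGeometry TensorProduct

namespace Pool.Agent.MG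

namespace Lift

/-! ## Etale homomorphisms and surjections with square zero kernel -/

section

variable {R R' G G' : Type} [CommRing R] [CommRing R'] [CommRing G] [CommRing G']

lemma nilp (q : G →+* G') (hk : ∀ v w, q v = 0 → q w = 0 → v * w = 0) :
    IsNilpotent (RingHom.ker q) := by
  refine ⟨2, ?_⟩
  rw [pow_two, Ideal.zero_eq_bot, eq_bot_iff, Ideal.mul_le]
  intro r hr s hs
  rw [RingHom.mem_ker] at hr hs
  simp [hk r s hr hs]

/-- Lifting of a homomorphism along an etale homomorphism `f` through a surjection `q` with square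
zero kernel. -/
theorem exists_lift (f : R →+* R') (hf : f.Etale) (g : R →+* G) (q : G →+* G')
    (hq : Function.Surjective q) (hk : ∀ v w, q v = 0 → q w = 0 → v * w = 0) (u : R' →+* G')
    (h : ∀ r, u (f r) = q (g r)) :
    ∃ v : R' →+* G, (∀ r, v (f r) = g r) ∧ ∀ a, q (v a) = u a := by
  let : Algebra R R' := f.toAlgebra
  let : Algebra R G := g.toAlgebra
  let : Algebra R G' := (q.comp g).toAlgebra
  have : Algebra.Etale R R' := hf
  let q' : G →ₐ[R] G' := { q with commutes' := fun r => rfl }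
  let u' : R' →ₐ[R] G' := { u with commutes' := fun r => h r }
  have hn : IsNilpotent (RingHom.ker (q' : G →+* G')) := nilp q hk
  let v := Algebra.FormallySmooth.liftOfSurjective u' q' hq hn
  refine ⟨(v : R' →+* G), fun r => v.commutes r, fun a => ?_⟩
  exact Algebra.FormallySmooth.liftOfSurjective_apply u' q' hq hn a

/-- Uniqueness of lifts along an etale homomorphism. -/
theorem lift_unique (f : R →+* R') (hf : f.Etale) (q : G →+* G')
    (hk : ∀ v w, q v = 0 → q w = 0 → v * w = 0) (v v' : R' →+* G)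
    (h : ∀ r, v (f r) = v' (f r)) (h' : ∀ a, q (v a) = q (v' a)) : v = v' := by
  let : Algebra R R' := f.toAlgebra
  let : Algebra R G := (v.comp f).toAlgebra
  have : Algebra.Etale R R' := hf
  let w : R' →ₐ[R] G := { v with commutes' := fun r => rfl }
  let w' : R' →ₐ[R] G := { v' with commutes' := fun r => (h r).symm }
  have := Algebra.FormallyUnramified.ext' (R := R) (A := R') q (nilp q hk) w w' h'
  ext a
  exact congrArg (fun z : R' →ₐ[R] G => z a) this

/-- The same, with the values of `v'` in another form. -/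
theorem lift_unique' (f : R →+* R') (hf : f.Etale) (q : G →+* G')
    (hk : ∀ v w, q v = 0 → q w = 0 → v * w = 0) (v v' : R' →+* G)
    (h : ∀ r, v (f r) = v' (f r)) (h' : ∀ a, q (v a) = q (v' a)) (a : R') : v a = v' a := by
  rw [lift_unique f hf q hk v v' h h']

end

/-! ## Etale algebras over `k[x]` -/

section

variable {k : Type} [Field k] {R : Type} [CommRing R] [Algebra k R]

/-- `z` is an etale coordinate on `R`. -/
def EtCo (k : Type) [Field k] {R : Type} [CommRing R] [Algebra k R] (z : R) : Prop :=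
  (Polynomial.aeval z : Polynomial k →ₐ[k] R).toRingHom.Etale

/-- Lifting: a homomorphism from an etale algebra `R` over `k[z]` through a surjection `q` with
square zero kernel; the value at `z` may be prescribed. -/
theorem exists_lift_co {z : R} (hz : EtCo k z) {G G' : Type} [CommRing G] [CommRing G']
    (κ : k →+* G) (q : G →+* G') (hq : Function.Surjective q)
    (hk : ∀ v w, q v = 0 → q w = 0 → v * w = 0) (u : R →+* G')
    (hκ : ∀ c, u (algebraMap k R c) = q (κ c)) (z' : G) (hz' : q z' = u z) :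
    ∃ v : R →+* G, v z = z' ∧ (∀ c, v (algebraMap k R c) = κ c) ∧ ∀ a, q (v a) = u a := by
  have h : ∀ r : Polynomial k, u ((Polynomial.aeval z : Polynomial k →ₐ[k] R).toRingHom r) =
      q ((Polynomial.eval₂RingHom κ z') r) := by
    intro r
    have : u.comp (Polynomial.aeval z : Polynomial k →ₐ[k] R).toRingHom =
        q.comp (Polynomial.eval₂RingHom κ z') := by
      refine Polynomial.ringHom_ext (fun c => ?_) ?_
      · simp [hκ]
      · simp [hz']
    exact congrArg (fun w : Polynomial k →+* G' => w r) this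
  obtain ⟨v, hv, hv'⟩ := exists_lift _ hz (Polynomial.eval₂RingHom κ z') q hq hk u h
  refine ⟨v, ?_, fun c => ?_, hv'⟩
  · simpa using hv Polynomial.X
  · simpa using hv (Polynomial.C c)

/-- Uniqueness of lifts from an etale algebra over `k[z]`. -/
theorem unique_co {z : R} (hz : EtCo k z) {G G' : Type} [CommRing G] [CommRing G']
    (q : G →+* G') (hk : ∀ v w, q v = 0 → q w = 0 → v * w = 0) (v v' : R →+* G)
    (h1 : v z = v' z) (h2 : ∀ c, v (algebraMap k R c) = v' (algebraMap k R c))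
    (h3 : ∀ a, q (v a) = q (v' a)) : v = v' := by
  refine lift_unique _ hz q hk v v' (fun r => ?_) h3
  have : v.comp (Polynomial.aeval z : Polynomial k →ₐ[k] R).toRingHom =
      v'.comp (Polynomial.aeval z : Polynomial k →ₐ[k] R).toRingHom := by
    refine Polynomial.ringHom_ext (fun c => ?_) ?_
    · simp [h2]
    · simp [h1]
  exact congrArg (fun w : Polynomial k →+* G => w r) this

/-- The composition of etale homomorphisms. -/
theorem EtCo.comp {z : R} (hz : EtCo k z) {R' : Type} [CommRing R'] [Algebra k R']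
    (f : R →ₐ[k] R') (hf : f.toRingHom.Etale) : EtCo k (f z) := by
  have h : (Polynomial.aeval (f z) : Polynomial k →ₐ[k] R').toRingHom =
      f.toRingHom.comp (Polynomial.aeval z : Polynomial k →ₐ[k] R).toRingHom := by
    refine Polynomial.ringHom_ext (fun c => ?_) ?_
    · simp
    · simp
  unfold EtCo
  rw [h]
  exact RingHom.Etale.stableUnderComposition _ _ hz hf

/-- A derivation of an etale algebra over `k[z]` which vanishes at `z` is zero. -/
theorem deriv_zero {z : R} (hz : EtCo k z) {M : Type*} [AddCommGroup M] [Module k M] [Module R M]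
    [IsScalarTower k R M] (D : Derivation k R M) (h : D z = 0) : D = 0 := by
  let : Algebra (Polynomial k) R := (Polynomial.aeval z : Polynomial k →ₐ[k] R).toRingHom.toAlgebra
  have : Algebra.Etale (Polynomial k) R := hz
  let : Module (Polynomial k) M := Module.compHom M
    (Polynomial.aeval z : Polynomial k →ₐ[k] R).toRingHom
  have : IsScalarTower (Polynomial k) R M := ⟨fun p r m => by
    change (((Polynomial.aeval z : Polynomial k →ₐ[k] R) p) * r) • m =
      ((Polynomial.aeval z : Polynomial k →ₐ[k] R) p) • r • m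
    rw [mul_smul]⟩
  have hp : ∀ p : Polynomial k, D ((Polynomial.aeval z : Polynomial k →ₐ[k] R) p) = 0 := by
    intro p
    induction p using Polynomial.induction_on' with
    | add p q hp hq => rw [map_add, map_add, hp, hq, add_zero]
    | monomial n c =>
      rw [Polynomial.aeval_monomial, Derivation.leibniz, Derivation.leibniz_pow, h]
      simp
  let D' : Derivation (Polynomial k) R M :=
    { toFun := D
      map_add' := map_add D
      map_smul' := fun p r => by
        change D (((Polynomial.aeval z : Polynomial k →ₐ[k] R) p) * r) =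
          ((Polynomial.aeval z : Polynomial k →ₐ[k] R) p) • D r
        rw [Derivation.leibniz, hp, smul_zero, add_zero]
      map_one_eq_zero' := D.map_one_eq_zero
      leibniz' := D.leibniz }
  have hD' : D' = 0 := by
    have h1 := (KaehlerDifferential.linearMapEquivDerivation (Polynomial k) R).surjective D'
    obtain ⟨l, hl⟩ := h1
    have : l = 0 := LinearMap.ext fun x => by
      rw [Subsingleton.elim x 0, map_zero, map_zero]
    rw [← hl, this, map_zero]
  ext a
  exact congrArg (fun d : Derivation (Polynomial k) R M => d a) hD'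

/-- Derivations of an etale algebra over `k[z]` are determined by the value at `z`. -/
theorem deriv_ext {z : R} (hz : EtCo k z) {M : Type*} [AddCommGroup M] [Module k M] [Module R M]
    [IsScalarTower k R M] (D D' : Derivation k R M) (h : D z = D' z) : D = D' := by
  have := deriv_zero hz (D - D') (by rw [Derivation.sub_apply, h, sub_self])
  exact sub_eq_zero.mp this

/-- The derivation `d/dz` of an etale algebra over `k[z]`. -/
theorem exists_deriv {z : R} (hz : EtCo k z) : ∃ d : Derivation k R R, d z = 1 := by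
  have hq : Function.Surjective (TrivSqZeroExt.fstHom R R R).toRingHom :=
    fun a => ⟨TrivSqZeroExt.inl a, rfl⟩
  obtain ⟨v, hv1, hv2, hv3⟩ := exists_lift_co hz (G := TrivSqZeroExt R R) (G' := R)
    ((TrivSqZeroExt.inlHom R R).comp (algebraMap k R)) (TrivSqZeroExt.fstHom R R R).toRingHom hq
    (fun v w hv hw => by
      have hv' : v.fst = 0 := hv
      have hw' : w.fst = 0 := hw
      ext <;> simp [hv', hw']) (RingHom.id R) (fun c => rfl)
    (TrivSqZeroExt.inl z + TrivSqZeroExt.inr 1) (by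
      change (TrivSqZeroExt.inl z + TrivSqZeroExt.inr 1 : TrivSqZeroExt R R).fst = z
      simp)
  have hf : ∀ a, (v a).fst = a := hv3
  refine ⟨{ toFun := fun a => (v a).snd
            map_add' := fun a b => by rw [map_add, TrivSqZeroExt.snd_add]
            map_smul' := fun c a => by
              rw [Algebra.smul_def, map_mul, TrivSqZeroExt.snd_mul, hv2, hf]
              simp [Algebra.smul_def]
            map_one_eq_zero' := by
              change (v 1).snd = 0
              rw [map_one, TrivSqZeroExt.snd_one]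
            leibniz' := fun a b => by
              change (v (a * b)).snd = a • (v b).snd + b • (v a).snd
              rw [map_mul, TrivSqZeroExt.snd_mul, hf, hf]
              simp [mul_comm] }, ?_⟩
  change (v z).snd = 1
  rw [hv1]
  simp

end

/-! ## Two-chart data -/

section

variable {k : Type} [Field k] (T : TC k)

theorem etx : EtCo k T.x := T.etx

theorem ety : EtCo k T.y := T.ety

theorem etjx : EtCo k (T.j1 T.x) := (etx T).comp T.j1 T.et1

theorem etjy : EtCo k (T.j2 T.y) := (ety T).comp T.j2 T.et2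

/-- A derivation of `R₁₂` which vanishes at `x` is zero. -/
theorem deriv12_zero {M : Type*} [AddCommGroup M] [Module k M] [Module T.R12 M]
    [IsScalarTower k T.R12 M] (D : Derivation k T.R12 M) (h : D (T.j1 T.x) = 0) : D = 0 :=
  deriv_zero (etjx T) D h

/-- The derivation `d/dx` of `R₁`. -/
theorem exists_d1 : ∃ d : Derivation k T.R1 T.R1, d T.x = 1 ∧
    ∀ a, T.j1 (d a) = T.dd (T.j1 a) := by
  obtain ⟨d, hd⟩ := exists_deriv (etx T)
  refine ⟨d, hd, ?_⟩
  let : Module T.R1 T.R12 := Module.compHom T.R12 (T.j1 : T.R1 →+* T.R12)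
  have : IsScalarTower k T.R1 T.R12 := ⟨fun c a b => by
    change T.j1 (c • a) * b = c • (T.j1 a * b)
    rw [map_smul, smul_mul_assoc]⟩
  let D1 : Derivation k T.R1 T.R12 :=
    { toFun := fun a => T.j1 (d a)
      map_add' := fun a b => by rw [map_add, map_add]
      map_smul' := fun c a => by
        rw [Derivation.map_smul, map_smul, RingHom.id_apply]
      map_one_eq_zero' := by
        change T.j1 (d 1) = 0
        rw [Derivation.map_one_eq_zero, map_zero]
      leibniz' := fun a b => by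
        change T.j1 (d (a * b)) = T.j1 a * T.j1 (d b) + T.j1 b * T.j1 (d a)
        rw [Derivation.leibniz, map_add, smul_eq_mul, smul_eq_mul, map_mul, map_mul] }
  let D2 : Derivation k T.R1 T.R12 :=
    { toFun := fun a => T.dd (T.j1 a)
      map_add' := fun a b => by rw [map_add, map_add]
      map_smul' := fun c a => by
        rw [map_smul, Derivation.map_smul, RingHom.id_apply]
      map_one_eq_zero' := by
        change T.dd (T.j1 1) = 0
        rw [map_one, Derivation.map_one_eq_zero]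
      leibniz' := fun a b => by
        change T.dd (T.j1 (a * b)) = T.j1 a * T.dd (T.j1 b) + T.j1 b * T.dd (T.j1 a)
        rw [map_mul, Derivation.leibniz, smul_eq_mul, smul_eq_mul] }
  have h : D1 = D2 := by
    refine deriv_ext (etx T) D1 D2 ?_
    change T.j1 (d T.x) = T.dd (T.j1 T.x)
    rw [hd, map_one, T.ddx]
  intro a
  exact congrArg (fun D : Derivation k T.R1 T.R12 => D a) h

/-- The derivation `d/dy` of `R₂`; on `R₁₂` it is `e d/dx`. -/
theorem exists_d2 : ∃ d : Derivation k T.R2 T.R2, d T.y = 1 ∧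
    ∀ a, T.j2 (d a) = T.e * T.dd (T.j2 a) := by
  obtain ⟨d, hd⟩ := exists_deriv (ety T)
  refine ⟨d, hd, ?_⟩
  let : Module T.R2 T.R12 := Module.compHom T.R12 (T.j2 : T.R2 →+* T.R12)
  have : IsScalarTower k T.R2 T.R12 := ⟨fun c a b => by
    change T.j2 (c • a) * b = c • (T.j2 a * b)
    rw [map_smul, smul_mul_assoc]⟩
  let D1 : Derivation k T.R2 T.R12 :=
    { toFun := fun a => T.j2 (d a)
      map_add' := fun a b => by rw [map_add, map_add]
      map_smul' := fun c a => by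
        rw [Derivation.map_smul, map_smul, RingHom.id_apply]
      map_one_eq_zero' := by
        change T.j2 (d 1) = 0
        rw [Derivation.map_one_eq_zero, map_zero]
      leibniz' := fun a b => by
        change T.j2 (d (a * b)) = T.j2 a * T.j2 (d b) + T.j2 b * T.j2 (d a)
        rw [Derivation.leibniz, map_add, smul_eq_mul, smul_eq_mul, map_mul, map_mul] }
  let D2 : Derivation k T.R2 T.R12 :=
    { toFun := fun a => T.e * T.dd (T.j2 a)
      map_add' := fun a b => by rw [map_add, map_add, mul_add]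
      map_smul' := fun c a => by
        rw [map_smul, Derivation.map_smul, RingHom.id_apply, mul_smul_comm]
      map_one_eq_zero' := by
        change T.e * T.dd (T.j2 1) = 0
        rw [map_one, Derivation.map_one_eq_zero, mul_zero]
      leibniz' := fun a b => by
        change T.e * T.dd (T.j2 (a * b)) =
          T.j2 a * (T.e * T.dd (T.j2 b)) + T.j2 b * (T.e * T.dd (T.j2 a))
        rw [map_mul, Derivation.leibniz, smul_eq_mul, smul_eq_mul]
        ring }
  have h : D1 = D2 := by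
    refine deriv_ext (ety T) D1 D2 ?_
    change T.j2 (d T.y) = T.e * T.dd (T.j2 T.y)
    rw [hd, map_one, T.ey]
  intro a
  exact congrArg (fun D : Derivation k T.R2 T.R12 => D a) h

end

end Lift

end Pool.Agent.MG


end

section

/-!
# Every ring datum has a Kodaira-Spencer class
-/

open CategoryTheory CategoryTheory.Limits AlgebraicGeometry TensorProduct

namespace Pool.Agent.MG

namespace AX

section

variable {k : Type} [Field k] {T : TC k} {B : Type} [CommRing B] [Algebra k B] {E J : Type}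
  [CommRing E] [Fintype J] {S : SqE B E J}

lemma sq_aux {G : Type} [CommRing G] (S : SqE B E J) (a : E →+* G) (w w' : J → G) :
    (∑ j, a (S.ε j) * w j) * (∑ j, a (S.ε j) * w' j) = 0 := by
  rw [Finset.sum_mul_sum]
  refine Finset.sum_eq_zero fun i _ => Finset.sum_eq_zero fun j _ => ?_
  have : a (S.ε i) * a (S.ε j) = 0 := by rw [← map_mul, S.mul, map_zero]
  calc a (S.ε i) * w i * (a (S.ε j) * w' j) = a (S.ε i) * a (S.ε j) * (w i * w' j) := by ring
    _ = 0 := by rw [this, zero_mul]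

lemma sq1 (D : RData T S) (v w : D.G1) (hv : D.q1 v = 0) (hw : D.q1 w = 0) : v * w = 0 := by
  obtain ⟨a, rfl⟩ := D.ker1 v hv
  obtain ⟨b, rfl⟩ := D.ker1 w hw
  exact sq_aux S D.a1 a b

lemma sq2 (D : RData T S) (v w : D.G2) (hv : D.q2 v = 0) (hw : D.q2 w = 0) : v * w = 0 := by
  obtain ⟨a, rfl⟩ := D.ker2 v hv
  obtain ⟨b, rfl⟩ := D.ker2 w hw
  exact sq_aux S D.a2 a b

lemma sq12 (D : RData T S) (v w : D.G12) (hv : D.q12 v = 0) (hw : D.q12 w = 0) : v * w = 0 := by
  obtain ⟨a, rfl⟩ := D.ker12 v hv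
  obtain ⟨b, rfl⟩ := D.ker12 w hw
  exact sq_aux S D.a12 a b

/-- Constants of a square zero extension. -/
def kap (k : Type) [Field k] [Algebra k B] (S : SqE B E J) : k →+* E := S.i.comp (algebraMap k B)

lemma p_kap (c : k) : S.p (kap k S c) = algebraMap k B c := S.pi _

lemma tmul_alg {R : Type} [CommRing R] [Algebra k R] (c : k) :
    (1 : B) ⊗ₜ[k] (algebraMap k R c) = (algebraMap k B c) ⊗ₜ[k] (1 : R) := by
  rw [Algebra.algebraMap_eq_smul_one, Algebra.algebraMap_eq_smul_one, TensorProduct.tmul_smul,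
    TensorProduct.smul_tmul']

/-- `ε j` times a function on the intersection. -/
noncomputable def mm (D : RData T S) (j : J) (z : B ⊗[k] T.R12) : D.G12 :=
  D.a12 (S.ε j) * Function.surjInv D.sur12 z

lemma eps_mul (D : RData T S) (j : J) (v w : D.G12) (h : D.q12 v = D.q12 w) :
    D.a12 (S.ε j) * v = D.a12 (S.ε j) * w := by
  rw [← sub_eq_zero, ← mul_sub]
  refine sq12 D _ _ ?_ ?_
  · rw [D.qa12, S.pe, TensorProduct.zero_tmul]
  · rw [map_sub, h, sub_self]

lemma mm_q (D : RData T S) (j : J) (v : D.G12) : mm D j (D.q12 v) = D.a12 (S.ε j) * v :=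
  eps_mul D j _ _ (Function.surjInv_eq D.sur12 _)

lemma mm_add (D : RData T S) (j : J) (z z' : B ⊗[k] T.R12) :
    mm D j (z + z') = mm D j z + mm D j z' := by
  obtain ⟨v, rfl⟩ := D.sur12 z
  obtain ⟨v', rfl⟩ := D.sur12 z'
  rw [← map_add, mm_q, mm_q, mm_q, mul_add]

lemma mm_mul (D : RData T S) (j : J) (v : D.G12) (z : B ⊗[k] T.R12) :
    mm D j (D.q12 v * z) = v * mm D j z := by
  obtain ⟨w, rfl⟩ := D.sur12 z
  rw [← map_mul, mm_q, mm_q]
  ring

lemma mm_zero (D : RData T S) (j : J) : mm D j 0 = 0 := by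
  have := mm_q D j 0
  rwa [map_zero, mul_zero] at this

lemma q_mm (D : RData T S) (j : J) (z : B ⊗[k] T.R12) : D.q12 (mm D j z) = 0 := by
  rw [mm, map_mul, D.qa12, S.pe, TensorProduct.zero_tmul, zero_mul]

/-- The homomorphism `t₂ + ∑ ε j h j dd`. -/
noncomputable def tw (D : RData T S) (t2 : T.R12 →+* D.G12)
    (lt2 : ∀ a, D.q12 (t2 a) = 1 ⊗ₜ a) (h : J → B ⊗[k] T.R12) : T.R12 →+* D.G12 where
  toFun a := t2 a + ∑ j, mm D j (h j * (1 ⊗ₜ T.dd a))
  map_one' := by
    rw [map_one, Derivation.map_one_eq_zero]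
    simp [mm_zero]
  map_zero' := by
    rw [map_zero, map_zero]
    simp [mm_zero]
  map_add' a b := by
    rw [map_add, map_add, TensorProduct.tmul_add]
    simp only [mul_add, mm_add, Finset.sum_add_distrib]
    ring
  map_mul' a b := by
    have hsq : (∑ j, mm D j (h j * (1 ⊗ₜ T.dd a))) * (∑ j, mm D j (h j * (1 ⊗ₜ T.dd b))) = 0 := by
      refine sq12 D _ _ ?_ ?_
      · rw [map_sum]
        exact Finset.sum_eq_zero fun j _ => q_mm D j _
      · rw [map_sum]
        exact Finset.sum_eq_zero fun j _ => q_mm D j _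
    have h1 : ∀ (a b : T.R12), (∑ j, mm D j (h j * ((1 : B) ⊗ₜ[k] (a * T.dd b)))) =
        t2 a * ∑ j, mm D j (h j * (1 ⊗ₜ T.dd b)) := by
      intro a b
      rw [Finset.mul_sum]
      refine Finset.sum_congr rfl fun j _ => ?_
      rw [← mm_mul, lt2]
      congr 1
      have : (1 : B) ⊗ₜ[k] (a * T.dd b) = ((1 : B) ⊗ₜ[k] a) * ((1 : B) ⊗ₜ[k] T.dd b) := by
        rw [Algebra.TensorProduct.tmul_mul_tmul, one_mul]
      rw [this]
      ring
    have h2 : (∑ j, mm D j (h j * ((1 : B) ⊗ₜ[k] (T.dd (a * b))))) =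
        t2 a * (∑ j, mm D j (h j * (1 ⊗ₜ T.dd b))) +
          t2 b * (∑ j, mm D j (h j * (1 ⊗ₜ T.dd a))) := by
      rw [← h1, ← h1, ← Finset.sum_add_distrib]
      refine Finset.sum_congr rfl fun j _ => ?_
      rw [← mm_add, ← mul_add, ← TensorProduct.tmul_add, Derivation.leibniz, smul_eq_mul,
        smul_eq_mul]
    change t2 (a * b) + _ = (t2 a + _) * (t2 b + _)
    rw [h2, map_mul]
    linear_combination -hsq

lemma tw_apply (D : RData T S) (t2 : T.R12 →+* D.G12)
    (lt2 : ∀ a, D.q12 (t2 a) = 1 ⊗ₜ a) (h : J → B ⊗[k] T.R12) (a : T.R12) :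
    tw D t2 lt2 h a = t2 a + ∑ j, mm D j (h j * (1 ⊗ₜ T.dd a)) := rfl

/-- Two lifts `t₁`, `t₂` on the intersection differ by a vector field. -/
theorem diff_aux (D : RData T S) (t1 t2 : T.R12 →+* D.G12)
    (lt1 : ∀ a, D.q12 (t1 a) = 1 ⊗ₜ a) (lt2 : ∀ a, D.q12 (t2 a) = 1 ⊗ₜ a)
    (hk1 : ∀ c : k, t1 (algebraMap k T.R12 c) = D.a12 (S.i (algebraMap k B c)))
    (hk2 : ∀ c : k, t2 (algebraMap k T.R12 c) = D.a12 (S.i (algebraMap k B c))) :
    ∃ h : J → B ⊗[k] T.R12, ∀ a : T.R12, ∃ v : J → D.G12,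
      (∀ j, D.q12 (v j) = h j * (1 ⊗ₜ T.dd a)) ∧ t1 a = t2 a + ∑ j, D.a12 (S.ε j) * v j := by
  obtain ⟨w, hw⟩ := D.ker12 (t1 (T.j1 T.x) - t2 (T.j1 T.x)) (by rw [map_sub, lt1, lt2, sub_self])
  refine ⟨fun j => D.q12 (w j), ?_⟩
  have key : t1 = tw D t2 lt2 (fun j => D.q12 (w j)) := by
    refine Lift.unique_co (Lift.etjx T) D.q12 (sq12 D) _ _ ?_ ?_ ?_
    · rw [tw_apply, T.ddx]
      have : ∑ j, mm D j (D.q12 (w j) * ((1 : B) ⊗ₜ[k] (1 : T.R12))) =
          t1 (T.j1 T.x) - t2 (T.j1 T.x) := by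
        rw [hw]
        refine Finset.sum_congr rfl fun j _ => ?_
        rw [← Algebra.TensorProduct.one_def, mul_one, mm_q]
      rw [this]
      ring
    · intro c
      rw [tw_apply, hk1, hk2, Derivation.map_algebraMap]
      simp [mm_zero]
    · intro a
      rw [tw_apply, lt1, map_add, lt2, map_sum, Finset.sum_eq_zero (fun j _ => q_mm D j _),
        add_zero]
  intro a
  refine ⟨fun j => Function.surjInv D.sur12 (D.q12 (w j) * (1 ⊗ₜ T.dd a)), fun j => ?_, ?_⟩
  · exact Function.surjInv_eq D.sur12 _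
  · conv_lhs => rw [key]
    rfl

/-- The values of the sections. -/
theorem dlt_aux (D : RData T S) (u1 : D.G1) (u2 : D.G2) (h1 : D.q1 u1 = 1 ⊗ₜ T.x)
    (h2 : D.q2 u2 = 1 ⊗ₜ T.y) : ∀ (s : Pt T B) (γ : D.Sec s), ∃ δ : J → B, D.Dlt u1 u2 s γ δ
  | .one φ, γ => by
    have h : S.p (RData.Sec1.g γ u1 - S.i (φ T.x)) = 0 := by
      rw [map_sub, RData.Sec1.gq γ, h1, S.pi]
      simp [extA]
    obtain ⟨b, hb⟩ := S.ex _ h
    exact ⟨b, sub_eq_iff_eq_add'.mp hb⟩
  | .two ψ, γ => by
    have h : S.p (RData.Sec2.g γ u2 - S.i (ψ T.y)) = 0 := by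
      rw [map_sub, RData.Sec2.gq γ, h2, S.pi]
      simp [extA]
    obtain ⟨b, hb⟩ := S.ex _ h
    exact ⟨b, sub_eq_iff_eq_add'.mp hb⟩

end

end AX

/-- AX: every ring datum has a Kodaira-Spencer class. -/
theorem t_AX : Stmt_AX := by
  intro n k _ T B _ _ E J _ _ S D s γ
  -- lifts of the charts
  obtain ⟨x', hx'⟩ := D.sur1 (1 ⊗ₜ T.x)
  obtain ⟨y', hy'⟩ := D.sur2 (1 ⊗ₜ T.y)
  obtain ⟨θ1, -, k1, l1⟩ := Lift.exists_lift_co (Lift.etx T) (D.a1.comp (AX.kap k S)) D.q1 D.sur1
    (AX.sq1 D) (Algebra.TensorProduct.includeRight : T.R1 →ₐ[k] B ⊗[k] T.R1).toRingHom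
    (fun c => by
      change (1 : B) ⊗ₜ[k] (algebraMap k T.R1 c) = D.q1 (D.a1 (AX.kap k S c))
      rw [D.qa1, AX.p_kap, AX.tmul_alg]) x' hx'
  obtain ⟨θ2, -, k2, l2⟩ := Lift.exists_lift_co (Lift.ety T) (D.a2.comp (AX.kap k S)) D.q2 D.sur2
    (AX.sq2 D) (Algebra.TensorProduct.includeRight : T.R2 →ₐ[k] B ⊗[k] T.R2).toRingHom
    (fun c => by
      change (1 : B) ⊗ₜ[k] (algebraMap k T.R2 c) = D.q2 (D.a2 (AX.kap k S c))
      rw [D.qa2, AX.p_kap, AX.tmul_alg]) y' hy'
  have l1' : ∀ a, D.q1 (θ1 a) = 1 ⊗ₜ a := l1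
  have l2' : ∀ a, D.q2 (θ2 a) = 1 ⊗ₜ a := l2
  -- extensions to the intersection
  obtain ⟨t1, e1, lt1⟩ := Lift.exists_lift T.j1.toRingHom T.et1 (D.f1.comp θ1) D.q12 D.sur12
    (AX.sq12 D) (Algebra.TensorProduct.includeRight : T.R12 →ₐ[k] B ⊗[k] T.R12).toRingHom
    (fun a => by
      change (1 : B) ⊗ₜ[k] (T.j1 a) = D.q12 (D.f1 (θ1 a))
      rw [D.qf1, l1']
      simp)
  obtain ⟨t2, e2, lt2⟩ := Lift.exists_lift T.j2.toRingHom T.et2 (D.f2.comp θ2) D.q12 D.sur12
    (AX.sq12 D) (Algebra.TensorProduct.includeRight : T.R12 →ₐ[k] B ⊗[k] T.R12).toRingHom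
    (fun a => by
      change (1 : B) ⊗ₜ[k] (T.j2 a) = D.q12 (D.f2 (θ2 a))
      rw [D.qf2, l2']
      simp)
  have lt1' : ∀ a, D.q12 (t1 a) = 1 ⊗ₜ a := lt1
  have lt2' : ∀ a, D.q12 (t2 a) = 1 ⊗ₜ a := lt2
  have e1' : ∀ a, t1 (T.j1 a) = D.f1 (θ1 a) := e1
  have e2' : ∀ a, t2 (T.j2 a) = D.f2 (θ2 a) := e2
  have k1' : ∀ c : k, θ1 (algebraMap k T.R1 c) = D.a1 (S.i (algebraMap k B c)) := k1
  have k2' : ∀ c : k, θ2 (algebraMap k T.R2 c) = D.a2 (S.i (algebraMap k B c)) := k2
  have hk1 : ∀ c : k, t1 (algebraMap k T.R12 c) = D.a12 (S.i (algebraMap k B c)) := by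
    intro c
    rw [← T.j1.commutes c, e1', k1', D.fa1]
  have hk2 : ∀ c : k, t2 (algebraMap k T.R12 c) = D.a12 (S.i (algebraMap k B c)) := by
    intro c
    rw [← T.j2.commutes c, e2', k2', D.fa2]
  obtain ⟨h, hh⟩ := AX.diff_aux D t1 t2 lt1' lt2' hk1 hk2
  choose δ hδ using fun i => AX.dlt_aux D (θ1 T.x) (θ2 T.y) (l1' T.x) (l2' T.y) (s i) (γ i)
  exact ⟨h, fun j i => δ i j, ⟨{
    θ1 := θ1
    θ2 := θ2
    k1 := k1'
    k2 := k2'
    l1 := l1'
    l2 := l2'
    t1 := t1
    t2 := t2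
    e1 := e1'
    e2 := e2'
    lt1 := lt1'
    lt2 := lt2'
    diff := hh
    dl := hδ }⟩⟩

end Pool.Agent.MG


end

section

/-!
# AI: the value of a covector on a Kodaira-Spencer class does not depend on the choices
-/

open CategoryTheory CategoryTheory.Limits AlgebraicGeometry TensorProduct

namespace Pool.Agent.MG

namespace AI

/-- Derivations are determined by their restriction along an etale homomorphism. -/
theorem uniq {P R Q : Type} [CommRing P] [CommRing R] [CommRing Q] (f : P →+* R) (hf : f.Etale)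
    (α : R →+* Q) (F : R → Q) (hadd : ∀ a b, F (a + b) = F a + F b)
    (hmul : ∀ a b, F (a * b) = α a * F b + α b * F a) (h0 : ∀ p, F (f p) = 0) :
    ∀ r, F r = 0 := by
  let _ : Algebra P R := f.toAlgebra
  let _ : Algebra R Q := α.toAlgebra
  let _ : Algebra P Q := (α.comp f).toAlgebra
  have ht : IsScalarTower P R Q := IsScalarTower.of_algebraMap_eq' rfl
  have he : Algebra.Etale P R := hf
  have hsub : Subsingleton (Derivation P R Q) :=
    (KaehlerDifferential.linearMapEquivDerivation P R).toEquiv.symm.injective.subsingleton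
  let E : Derivation P R Q :=
    { toFun := F
      map_add' := hadd
      map_smul' := fun p r => by
        show F (p • r) = p • F r
        rw [Algebra.smul_def, hmul, Algebra.smul_def]
        show α (f p) * F r + α r * F (f p) = α (f p) * F r
        rw [h0, mul_zero, add_zero]
      map_one_eq_zero' := by
        show F 1 = 0
        rw [← map_one f, h0]
      leibniz' := fun a b => by
        show F (a * b) = a • F b + b • F a
        rw [hmul]
        rfl }
  intro r
  have h := congrArg (fun D : Derivation P R Q => D r) (Subsingleton.elim E 0)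
  exact h

/-- Derivations are determined by their value at an etale coordinate. -/
theorem zero_of_coord {k R R' Q : Type} [Field k] [CommRing R] [CommRing R'] [CommRing Q]
    [Algebra k R] [Algebra k R'] (j : R →ₐ[k] R') (hj : j.toRingHom.Etale) (x : R)
    (hx : (Polynomial.aeval x : Polynomial k →ₐ[k] R).toRingHom.Etale) (α : R' →+* Q)
    (F : R' → Q) (hadd : ∀ a b, F (a + b) = F a + F b)
    (hmul : ∀ a b, F (a * b) = α a * F b + α b * F a) (hc : ∀ c, F (algebraMap k R' c) = 0)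
    (h0 : F (j x) = 0) : ∀ a, F a = 0 := by
  refine uniq j.toRingHom hj α F hadd hmul ?_
  refine uniq (Polynomial.aeval x : Polynomial k →ₐ[k] R).toRingHom hx
    (α.comp j.toRingHom) (fun r => F (j r)) (fun a b => ?_) (fun a b => ?_) ?_
  · show F (j (a + b)) = _
    rw [map_add, hadd]
  · show F (j (a * b)) = _
    rw [map_mul, hmul]
    rfl
  · intro p
    show F (j (Polynomial.aeval x p)) = 0
    induction p using Polynomial.induction_on with
    | C c => rw [Polynomial.aeval_C, AlgHom.commutes, hc]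
    | add p q hp hq => rw [map_add, map_add, hadd, hp, hq, add_zero]
    | monomial n c ih =>
      rw [pow_succ, ← mul_assoc, map_mul, map_mul, hmul, ih, Polynomial.aeval_X, h0, mul_zero,
        mul_zero, add_zero]

/-- The difference of two lifts. -/
theorem dif {R G Q E J : Type} [CommRing R] [CommRing G] [CommRing Q] [CommRing E] [Fintype J]
    (q : G →+* Q) (a : E →+* G) (ε : J → E)
    (ker : ∀ v, q v = 0 → ∃ w : J → G, v = ∑ j, a (ε j) * w j)
    (un : ∀ w : J → G, ∑ j, a (ε j) * w j = 0 → ∀ j, q (w j) = 0) (α : R →+* Q)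
    (θ θ' : R →+* G) (h : ∀ r, q (θ r) = α r) (h' : ∀ r, q (θ' r) = α r) :
    ∃ w : R → J → G, (∀ r, θ r = θ' r + ∑ j, a (ε j) * w r j) ∧
      ∀ j, (∀ r r', q (w (r + r') j) = q (w r j) + q (w r' j)) ∧
        (∀ r r', q (w (r * r') j) = α r * q (w r' j) + α r' * q (w r j)) ∧
        ∀ r, θ r = θ' r → q (w r j) = 0 := by
  have hw : ∀ r, ∃ w : J → G, θ r - θ' r = ∑ j, a (ε j) * w j := fun r =>
    ker _ (by rw [map_sub, h, h', sub_self])
  choose w hw using hw
  refine ⟨w, fun r => by rw [← hw r, add_sub_cancel], fun j => ⟨fun r r' => ?_, fun r r' => ?_,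
    fun r hr => ?_⟩⟩
  · have h1 : ∑ j, a (ε j) * (w (r + r') j - w r j - w r' j) = 0 := by
      have h2 : ∑ j, a (ε j) * (w (r + r') j - w r j - w r' j) =
          ∑ j, a (ε j) * w (r + r') j - ∑ j, a (ε j) * w r j - ∑ j, a (ε j) * w r' j := by
        rw [← Finset.sum_sub_distrib, ← Finset.sum_sub_distrib]
        exact Finset.sum_congr rfl fun j _ => by ring
      rw [h2, ← hw, ← hw, ← hw, map_add, map_add]
      ring
    have h3 := un _ h1 j
    rw [map_sub, map_sub] at h3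
    linear_combination h3
  · have h1 : ∑ j, a (ε j) * (w (r * r') j - θ r * w r' j - θ' r' * w r j) = 0 := by
      have h2 : ∑ j, a (ε j) * (w (r * r') j - θ r * w r' j - θ' r' * w r j) =
          ∑ j, a (ε j) * w (r * r') j - θ r * (∑ j, a (ε j) * w r' j) -
            θ' r' * ∑ j, a (ε j) * w r j := by
        rw [Finset.mul_sum, Finset.mul_sum, ← Finset.sum_sub_distrib, ← Finset.sum_sub_distrib]
        exact Finset.sum_congr rfl fun j _ => by ring
      rw [h2, ← hw, ← hw, ← hw, map_mul, map_mul]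
      ring
    have h3 := un _ h1 j
    rw [map_sub, map_sub, map_mul, map_mul, h, h'] at h3
    linear_combination h3
  · refine un (w r) ?_ j
    rw [← hw r, hr, sub_self]

section

variable {n : ℕ} {k : Type} [Field k] {T : TC k} {B : Type} [CommRing B] [Algebra k B]

theorem ext_tmul {R : Type} [CommRing R] [Algebra k R] (μ : R →ₗ[k] B) (b : B) (r : R) :
    ext μ (b ⊗ₜ r) = b * μ r := by
  simp [ext]

theorem extA_eq {R : Type} [CommRing R] [Algebra k R] (φ : R →ₐ[k] B) (v : B ⊗[k] R) :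
    extA φ v = ext φ.toLinearMap v := by
  induction v using TensorProduct.induction_on with
  | zero => rw [map_zero, map_zero]
  | tmul b r => simp [extA, ext]
  | add x y hx hy => rw [map_add, map_add, hx, hy]

theorem ext_zero {R : Type} [CommRing R] [Algebra k R] (v : B ⊗[k] R) :
    ext (0 : R →ₗ[k] B) v = 0 := by
  induction v using TensorProduct.induction_on with
  | zero => rw [map_zero]
  | tmul b r => simp [ext]
  | add x y hx hy => rw [map_add, hx, hy, add_zero]

theorem m1x {s : Fin n → Pt T B} (C : CovData s) (v : B ⊗[k] T.R1) :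
    ext C.μ (Algebra.TensorProduct.map (AlgHom.id k B) T.j1 v) +
      ∑ i, C.ν i * ext ((s i).l1) v = 0 := by
  induction v using TensorProduct.induction_on with
  | zero => simp
  | tmul b r =>
    rw [Algebra.TensorProduct.map_tmul, ext_tmul, AlgHom.id_apply]
    have h := C.m1 r
    have e : ∑ i, C.ν i * ext ((s i).l1) (b ⊗ₜ r) = b * ∑ i, C.ν i * (s i).l1 r := by
      rw [Finset.mul_sum]
      exact Finset.sum_congr rfl fun i _ => by rw [ext_tmul]; ring
    rw [e, ← mul_add, h, mul_zero]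
  | add x y hx hy =>
    have e : ∑ i, C.ν i * ext ((s i).l1) (x + y) =
        ∑ i, C.ν i * ext ((s i).l1) x + ∑ i, C.ν i * ext ((s i).l1) y := by
      rw [← Finset.sum_add_distrib]
      exact Finset.sum_congr rfl fun i _ => by rw [map_add]; ring
    rw [map_add, map_add, e]
    linear_combination hx + hy

theorem m2x {s : Fin n → Pt T B} (C : CovData s) (v : B ⊗[k] T.R2) :
    ext C.μ ((1 ⊗ₜ T.e) * Algebra.TensorProduct.map (AlgHom.id k B) T.j2 v) =
      ∑ i, C.ν i * ext ((s i).l2) v := by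
  induction v using TensorProduct.induction_on with
  | zero => simp
  | tmul b r =>
    rw [Algebra.TensorProduct.map_tmul, Algebra.TensorProduct.tmul_mul_tmul, ext_tmul,
      AlgHom.id_apply, one_mul, C.m2 r, Finset.mul_sum]
    exact Finset.sum_congr rfl fun i _ => by rw [ext_tmul]; ring
  | add x y hx hy =>
    rw [map_add, mul_add, map_add, hx, hy, ← Finset.sum_add_distrib]
    exact Finset.sum_congr rfl fun i _ => by rw [map_add]; ring

variable {E J : Type} [CommRing E] [Fintype J] {S : SqE B E J}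

theorem eps_mul (S : SqE B E J) (j : J) (u : E) : S.ε j * u = S.ε j * S.i (S.p u) := by
  obtain ⟨b, hb⟩ := S.ex (u - S.i (S.p u)) (by rw [map_sub, S.pi, sub_self])
  have h : S.ε j * (u - S.i (S.p u)) = 0 := by
    rw [hb, Finset.mul_sum]
    refine Finset.sum_eq_zero fun l _ => ?_
    rw [← mul_assoc, S.mul, zero_mul]
  rw [mul_sub, sub_eq_zero] at h
  exact h

/-- The difference of the values of a section at the coordinate. -/
theorem sec_dif {G : Type} [CommRing G] (S : SqE B E J) (g : G →+* E) (a : E →+* G)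
    (ga : ∀ z, g (a z) = z) (u u' : G) (w : J → G) (hw : u = u' + ∑ j, a (S.ε j) * w j) (c : E)
    (d d' : J → B) (hd : g u = c + ∑ j, S.ε j * S.i (d j))
    (hd' : g u' = c + ∑ j, S.ε j * S.i (d' j)) (j : J) : d j - d' j = S.p (g (w j)) := by
  have h1 : g u - g u' = ∑ j, S.ε j * S.i (S.p (g (w j))) := by
    rw [hw, map_add, add_sub_cancel_left, map_sum]
    exact Finset.sum_congr rfl fun j _ => by rw [map_mul, ga, eps_mul]
  have h2 : ∑ j, S.ε j * S.i ((d j - d' j) - S.p (g (w j))) = 0 := by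
    have h3 : ∑ j, S.ε j * S.i ((d j - d' j) - S.p (g (w j))) =
        ∑ j, S.ε j * S.i (d j) - ∑ j, S.ε j * S.i (d' j) -
          ∑ j, S.ε j * S.i (S.p (g (w j))) := by
      rw [← Finset.sum_sub_distrib, ← Finset.sum_sub_distrib]
      exact Finset.sum_congr rfl fun j _ => by rw [map_sub, map_sub]; ring
    rw [h3, ← h1, hd, hd']
    ring
  have h4 := congrFun (S.un _ h2) j
  exact sub_eq_zero.1 h4

theorem dlt_dif (D : RData T S) (x1 x1' : D.G1) (x2 x2' : D.G2) (w1 : J → D.G1) (w2 : J → D.G2)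
    (h1 : x1 = x1' + ∑ j, D.a1 (S.ε j) * w1 j) (h2 : x2 = x2' + ∑ j, D.a2 (S.ε j) * w2 j) :
    ∀ (s : Pt T B) (γ : D.Sec s) (d d' : J → B), D.Dlt x1 x2 s γ d → D.Dlt x1' x2' s γ d' →
      ∀ j, d j - d' j = ext s.l1 (D.q1 (w1 j)) + ext s.l2 (D.q2 (w2 j))
  | .one φ, γ, d, d', hd, hd', j => by
    have h := sec_dif S (RData.Sec1.g γ) D.a1 (RData.Sec1.ga γ) x1 x1' w1 h1 (S.i (φ T.x)) d d'
      hd hd' j
    rw [h, RData.Sec1.gq γ, extA_eq]
    show _ = ext φ.toLinearMap _ + ext 0 _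
    rw [ext_zero, add_zero]
  | .two ψ, γ, d, d', hd, hd', j => by
    have h := sec_dif S (RData.Sec2.g γ) D.a2 (RData.Sec2.ga γ) x2 x2' w2 h2 (S.i (ψ T.y)) d d'
      hd hd' j
    rw [h, RData.Sec2.gq γ, extA_eq]
    show _ = ext 0 _ + ext ψ.toLinearMap _
    rw [ext_zero, zero_add]

/-- The change of the class. -/
theorem change (D : RData T S) (s : Fin n → Pt T B) (γ : ∀ i, D.Sec (s i))
    (h h' : J → B ⊗[k] T.R12) (δ δ' : J → Fin n → B) (K : RKS D s γ h δ)
    (K' : RKS D s γ h' δ') : ∃ (r : J → B ⊗[k] T.R1) (t : J → B ⊗[k] T.R2),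
      (∀ j, h j - h' j = Algebra.TensorProduct.map (AlgHom.id k B) T.j1 (r j) -
        (1 ⊗ₜ T.e) * Algebra.TensorProduct.map (AlgHom.id k B) T.j2 (t j)) ∧
      ∀ j i, δ j i - δ' j i = ext ((s i).l1) (r j) + ext ((s i).l2) (t j) := by
  obtain ⟨w1, hw1⟩ : ∃ w : J → D.G1, K.θ1 T.x = K'.θ1 T.x + ∑ j, D.a1 (S.ε j) * w j := by
    obtain ⟨w, hw⟩ := D.ker1 (K.θ1 T.x - K'.θ1 T.x) (by rw [map_sub, K.l1, K'.l1, sub_self])
    exact ⟨w, by rw [← hw]; ring⟩
  obtain ⟨w2, hw2⟩ : ∃ w : J → D.G2, K.θ2 T.y = K'.θ2 T.y + ∑ j, D.a2 (S.ε j) * w j := by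
    obtain ⟨w, hw⟩ := D.ker2 (K.θ2 T.y - K'.θ2 T.y) (by rw [map_sub, K.l2, K'.l2, sub_self])
    exact ⟨w, by rw [← hw]; ring⟩
  refine ⟨fun j => D.q1 (w1 j), fun j => D.q2 (w2 j), fun j => ?_, fun j i => ?_⟩
  · -- the derivations on the intersection
    have hι : ∀ a : T.R12, (Algebra.TensorProduct.includeRight : T.R12 →ₐ[k] B ⊗[k] T.R12) a =
        1 ⊗ₜ a := fun _ => rfl
    obtain ⟨W2, hW2, hW2'⟩ := dif D.q12 D.a12 S.ε D.ker12 D.un12
      (Algebra.TensorProduct.includeRight : T.R12 →ₐ[k] B ⊗[k] T.R12).toRingHom K.t2 K'.t2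
      (fun r => K.lt2 r) (fun r => K'.lt2 r)
    obtain ⟨a1, a2, a3⟩ := hW2' j
    have key : ∀ a : T.R12, D.q12 (W2 a j) - Algebra.TensorProduct.map (AlgHom.id k B) T.j2
        (D.q2 (w2 j)) * (1 ⊗ₜ (T.e * T.dd a)) = 0 := by
      refine zero_of_coord T.j2 T.et2 T.y T.ety
        (Algebra.TensorProduct.includeRight : T.R12 →ₐ[k] B ⊗[k] T.R12).toRingHom _
        (fun a b => ?_) (fun a b => ?_) (fun c => ?_) ?_
      · rw [a1, map_add, mul_add, TensorProduct.tmul_add]
        ring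
      · rw [a2]
        show (1 ⊗ₜ a) * _ + (1 ⊗ₜ b) * _ - _ = (1 ⊗ₜ a) * _ + (1 ⊗ₜ b) * _
        have e : (1 : B) ⊗ₜ[k] (T.e * T.dd (a * b)) = (1 ⊗ₜ a) * (1 ⊗ₜ (T.e * T.dd b)) +
            (1 ⊗ₜ b) * (1 ⊗ₜ (T.e * T.dd a)) := by
          rw [Algebra.TensorProduct.tmul_mul_tmul, Algebra.TensorProduct.tmul_mul_tmul, one_mul,
            ← TensorProduct.tmul_add, Derivation.leibniz]
          congr 1
          simp only [smul_eq_mul]
          ring
        rw [e]
        ring
      · have h1 : K.t2 (algebraMap k T.R12 c) = K'.t2 (algebraMap k T.R12 c) := by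
          rw [← T.j2.commutes, K.e2, K'.e2, K.k2, K'.k2]
        rw [a3 _ h1, Derivation.map_algebraMap, mul_zero, TensorProduct.tmul_zero, mul_zero,
          sub_zero]
      · rw [T.ey]
        have h1 : ∑ l, D.a12 (S.ε l) * (W2 (T.j2 T.y) l - D.f2 (w2 l)) = 0 := by
          have h2 := hW2 (T.j2 T.y)
          rw [K.e2, K'.e2, hw2, map_add, map_sum] at h2
          have h3 : ∑ l, D.a12 (S.ε l) * (W2 (T.j2 T.y) l - D.f2 (w2 l)) =
              ∑ l, D.a12 (S.ε l) * W2 (T.j2 T.y) l - ∑ l, D.f2 (D.a2 (S.ε l) * w2 l) := by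
            rw [← Finset.sum_sub_distrib]
            exact Finset.sum_congr rfl fun l _ => by rw [map_mul, D.fa2]; ring
          rw [h3]
          linear_combination -h2
        have h4 := D.un12 _ h1 j
        rw [map_sub, D.qf2] at h4
        have e : (1 : B) ⊗ₜ[k] (1 : T.R12) = 1 := rfl
        rw [e, mul_one]
        exact h4
    obtain ⟨v, hv, hv1⟩ := K.diff (T.j1 T.x)
    obtain ⟨v', hv', hv1'⟩ := K'.diff (T.j1 T.x)
    have h1 : ∑ l, D.a12 (S.ε l) * (D.f1 (w1 l) - W2 (T.j1 T.x) l - v l + v' l) = 0 := by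
      have h2 : ∑ l, D.a12 (S.ε l) * (D.f1 (w1 l) - W2 (T.j1 T.x) l - v l + v' l) =
          ∑ l, D.f1 (D.a1 (S.ε l) * w1 l) - ∑ l, D.a12 (S.ε l) * W2 (T.j1 T.x) l -
            ∑ l, D.a12 (S.ε l) * v l + ∑ l, D.a12 (S.ε l) * v' l := by
        rw [← Finset.sum_sub_distrib, ← Finset.sum_sub_distrib, ← Finset.sum_add_distrib]
        exact Finset.sum_congr rfl fun l _ => by rw [map_mul, D.fa1]; ring
      rw [h2]
      have h3 := hW2 (T.j1 T.x)
      rw [K.e1, hw1, map_add, map_sum] at hv1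
      rw [K'.e1] at hv1'
      linear_combination hv1 - hv1' + h3
    have h4 := D.un12 _ h1 j
    rw [map_add, map_sub, map_sub, D.qf1, hv, hv', T.ddx] at h4
    have h5 := key (T.j1 T.x)
    rw [T.ddx, mul_one] at h5
    have e : (1 : B) ⊗ₜ[k] (1 : T.R12) = 1 := rfl
    rw [e, mul_one, mul_one] at h4
    linear_combination -h4 - h5
  · exact dlt_dif D _ _ _ _ w1 w2 hw1 hw2 (s i) (γ i) (fun j => δ j i) (fun j => δ' j i)
      (K.dl i) (K'.dl i) j

end

end AI

theorem t_AI : Stmt_AI := by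
  intro n k _ T B _ _ E J _ _ S D s γ C h h' δ δ' hK hK' j
  obtain ⟨K⟩ := hK
  obtain ⟨K'⟩ := hK'
  obtain ⟨r, t, h1, h2⟩ := AI.change D s γ h h' δ δ' K K'
  have e1 : ext C.μ (h j) - ext C.μ (h' j) =
      ext C.μ (Algebra.TensorProduct.map (AlgHom.id k B) T.j1 (r j)) -
        ext C.μ ((1 ⊗ₜ T.e) * Algebra.TensorProduct.map (AlgHom.id k B) T.j2 (t j)) := by
    rw [← map_sub, h1, map_sub]
  have e2 : ∑ i, C.ν i * δ j i - ∑ i, C.ν i * δ' j i =
      ∑ i, C.ν i * ext ((s i).l1) (r j) + ∑ i, C.ν i * ext ((s i).l2) (t j) := by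
    rw [← Finset.sum_sub_distrib, ← Finset.sum_add_distrib]
    exact Finset.sum_congr rfl fun i _ => by rw [← mul_sub, h2]; ring
  have e3 := AI.m1x C (r j)
  have e4 := AI.m2x C (t j)
  linear_combination e1 + e2 + e3 - e4

end Pool.Agent.MG


end

section

/-!
# AC: change of the chart of a section
-/

open CategoryTheory CategoryTheory.Limits AlgebraicGeometry TensorProduct

namespace Pool.Agent.MG

namespace AC

variable {n : ℕ} {k : Type} [Field k] {T : TC k} {B : Type} [CommRing B] [Algebra k B]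
  {E J : Type} [CommRing E] [Fintype J] {S : SqE B E J}

theorem dlt_congr (D : RData T S) (u1 : D.G1) (u2 : D.G2) (d : J → B) :
    ∀ (s s' : Pt T B) (_ : s = s') (γ : D.Sec s) (γ' : D.Sec s'), HEq γ γ' →
      D.Dlt u1 u2 s γ d → D.Dlt u1 u2 s' γ' d := by
  intro s s' h γ γ' hγ hd
  subst h
  obtain rfl := eq_of_heq hγ
  exact hd

theorem dlt_one (D : RData T S) (u1 : D.G1) (u2 : D.G2) (d : J → B) (s : Pt T B) (γ : D.Sec s)
    (φ : T.R1 →ₐ[k] B) (h : s = .one φ) (hd : D.Dlt u1 u2 s γ d) :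
    RData.Sec1.g (h ▸ γ : D.Sec (.one φ)) u1 = S.i (φ T.x) + ∑ j, S.ε j * S.i (d j) := by
  subst h
  exact hd

theorem dlt_two (D : RData T S) (u1 : D.G1) (u2 : D.G2) (d : J → B) (s : Pt T B) (γ : D.Sec s)
    (ψ : T.R2 →ₐ[k] B) (h : s = .two ψ)
    (hd : RData.Sec2.g (h ▸ γ : D.Sec (.two ψ)) u2 = S.i (ψ T.y) + ∑ j, S.ε j * S.i (d j)) :
    D.Dlt u1 u2 s γ d := by
  subst h
  exact hd

/-- The kernel of the projection. -/
theorem un' (S : SqE B E J) (w : J → E) (h : ∑ j, S.ε j * w j = 0) (j : J) : S.p (w j) = 0 := by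
  have h1 : ∑ j, S.ε j * S.i (S.p (w j)) = 0 := by
    rw [← h]
    exact Finset.sum_congr rfl fun j _ => (AI.eps_mul S j (w j)).symm
  exact congrFun (S.un _ h1) j

/-- The value of a section on the intersection of the charts. -/
theorem val (D : RData T S) (χ : T.R12 →ₐ[k] B) (t : T.R12 →+* E)
    (ht : ∀ a, S.p (t a) = χ a) (hc : ∀ c : k, t (algebraMap k T.R12 c) = S.i (algebraMap k B c))
    (d : J → B) (hx : t (T.j1 T.x) = S.i (χ (T.j1 T.x)) + ∑ j, S.ε j * S.i (d j)) (a : T.R12) :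
    t a = S.i (χ a) + ∑ j, S.ε j * S.i (d j * χ (T.dd a)) := by
  obtain ⟨W, hW, hW'⟩ := AI.dif S.p (RingHom.id E) S.ε
    (fun v hv => by
      obtain ⟨b, hb⟩ := S.ex v hv
      exact ⟨fun j => S.i (b j), hb⟩) (fun w hw => un' S w hw)
    (χ : T.R12 →+* B) t (S.i.comp (χ : T.R12 →+* B)) (fun r => ht r) (fun r => S.pi _)
  have key : ∀ (j : J) (a : T.R12), S.p (W a j) - d j * χ (T.dd a) = 0 := by
    intro j
    obtain ⟨a1, a2, a3⟩ := hW' j
    refine AI.zero_of_coord T.j1 T.et1 T.x T.etx (χ : T.R12 →+* B)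
      (fun a => S.p (W a j) - d j * χ (T.dd a)) (fun a b => ?_) (fun a b => ?_) (fun c => ?_) ?_
    · show S.p (W (a + b) j) - d j * χ (T.dd (a + b)) = _
      rw [a1, map_add, map_add]
      ring
    · show S.p (W (a * b) j) - d j * χ (T.dd (a * b)) = _
      rw [a2, Derivation.leibniz, smul_eq_mul, smul_eq_mul, map_add, map_mul, map_mul]
      show χ a * _ + χ b * _ - _ = χ a * _ + χ b * _
      ring
    · show S.p (W (algebraMap k T.R12 c) j) - d j * χ (T.dd (algebraMap k T.R12 c)) = 0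
      rw [Derivation.map_algebraMap, map_zero, mul_zero, sub_zero]
      refine a3 _ ?_
      rw [hc]
      show _ = S.i (χ (algebraMap k T.R12 c))
      rw [AlgHom.commutes]
    · show S.p (W (T.j1 T.x) j) - d j * χ (T.dd (T.j1 T.x)) = 0
      rw [T.ddx, map_one, mul_one]
      have h1 : ∑ l, S.ε l * (W (T.j1 T.x) l - S.i (d l)) = 0 := by
        have h2 := hW (T.j1 T.x)
        rw [hx] at h2
        have h3 : ∑ l, S.ε l * (W (T.j1 T.x) l - S.i (d l)) =
            ∑ l, S.ε l * W (T.j1 T.x) l - ∑ l, S.ε l * S.i (d l) := by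
          rw [← Finset.sum_sub_distrib]
          exact Finset.sum_congr rfl fun l _ => by ring
        rw [h3]
        have h4 : S.i (χ (T.j1 T.x)) + ∑ l, S.ε l * S.i (d l) =
          S.i (χ (T.j1 T.x)) + ∑ l, S.ε l * W (T.j1 T.x) l := h2
        linear_combination -h4
      have h5 := un' S _ h1 j
      rw [map_sub, S.pi] at h5
      exact h5
  have h1 : t a = S.i (χ a) + ∑ j, S.ε j * W a j := hW a
  rw [h1]
  congr 1
  refine Finset.sum_congr rfl fun j _ => ?_
  rw [AI.eps_mul, sub_eq_zero.1 (key j a)]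

theorem ext_add {R : Type} [CommRing R] [Algebra k R] (μ μ' : R →ₗ[k] B) (χ : R →ₐ[k] B) (c : B)
    (h : ∀ r, μ' r = μ r + c * χ r) (v : B ⊗[k] R) : ext μ' v = ext μ v + c * extA χ v := by
  induction v using TensorProduct.induction_on with
  | zero => simp
  | tmul b r =>
    rw [AI.extA_eq, AI.ext_tmul, AI.ext_tmul, AI.ext_tmul, h]
    show _ = b * μ r + c * (b * χ r)
    ring
  | add x y hx hy =>
    rw [map_add, map_add, map_add, hx, hy]
    ring

end AC

open _root_.Pool.Agent.MG.AC in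
theorem t_AC : Stmt_AC := by
  intro n k _ T B _ _ E J _ _ S D s s' γ γ' i₀ χ g12 hg hs hs' h1 h2 h3 h4 C C' hμ hν hν' h δ hK
  classical
  obtain ⟨K⟩ := hK
  -- the section is linear
  have ga : ∀ z, g12 (D.a12 z) = z := by
    intro z
    rw [← D.fa1, ← h1, RData.Sec1.ga]
  -- the value at the coordinate of the first chart
  have hx : g12 (K.t1 (T.j1 T.x)) = S.i (χ (T.j1 T.x)) + ∑ j, S.ε j * S.i (δ j i₀) := by
    have := dlt_one D _ _ _ _ _ _ hs (K.dl i₀)
    rw [h1, ← K.e1] at this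
    exact this
  have hv := AC.val D χ (g12.comp K.t1) (fun a => by
      show S.p (g12 (K.t1 a)) = χ a
      rw [hg, K.lt1, AI.extA_eq, AI.ext_tmul, one_mul]
      rfl) (fun c => by
      show g12 (K.t1 (algebraMap k T.R12 c)) = _
      rw [← T.j1.commutes, K.e1, K.k1, D.fa1, ga]) (fun j => δ j i₀) hx (T.j2 T.y)
  obtain ⟨v, hv1, hv2⟩ := K.diff (T.j2 T.y)
  have hv3 : g12 (K.t1 (T.j2 T.y)) = S.i (χ (T.j2 T.y)) +
    ∑ j, S.ε j * S.i (δ j i₀ * χ (T.dd (T.j2 T.y))) := hv
  have hy : g12 (K.t2 (T.j2 T.y)) = S.i (χ (T.j2 T.y)) +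
      ∑ j, S.ε j * S.i (χ (T.dd (T.j2 T.y)) * (δ j i₀ - extA χ (h j))) := by
    have e1 : ∑ j, S.ε j * S.i (χ (T.dd (T.j2 T.y)) * (δ j i₀ - extA χ (h j))) =
        ∑ j, S.ε j * S.i (δ j i₀ * χ (T.dd (T.j2 T.y))) - ∑ j, S.ε j * g12 (v j) := by
      rw [← Finset.sum_sub_distrib]
      refine Finset.sum_congr rfl fun j _ => ?_
      have e0 : extA χ (h j * (1 ⊗ₜ T.dd (T.j2 T.y))) = extA χ (h j) * χ (T.dd (T.j2 T.y)) := by
        rw [map_mul, AI.extA_eq χ ((1 : B) ⊗ₜ[k] T.dd (T.j2 T.y)), AI.ext_tmul, one_mul]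
        rfl
      rw [AI.eps_mul S j (g12 (v j)), hg, hv1, e0, ← mul_sub, ← map_sub]
      congr 2
      ring
    have e2 : g12 (∑ j, D.a12 (S.ε j) * v j) = ∑ j, S.ε j * g12 (v j) := by
      rw [map_sum]
      exact Finset.sum_congr rfl fun j _ => by rw [map_mul, ga]
    rw [hv2, map_add, e2] at hv3
    rw [e1]
    linear_combination hv3
  refine ⟨fun j i => if i = i₀ then χ (T.dd (T.j2 T.y)) * (δ j i₀ - extA χ (h j)) else δ j i,
    ⟨{ θ1 := K.θ1, θ2 := K.θ2, k1 := K.k1, k2 := K.k2, l1 := K.l1, l2 := K.l2, t1 := K.t1,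
       t2 := K.t2, e1 := K.e1, e2 := K.e2, lt1 := K.lt1, lt2 := K.lt2, diff := K.diff,
       dl := fun i => ?_ }⟩, fun j => ?_⟩
  · by_cases hi : i = i₀
    · subst hi
      refine dlt_two D _ _ _ _ _ _ hs' ?_
      rw [h2, ← K.e2, hy]
      simp
    · have := dlt_congr D _ _ _ _ _ (h3 i hi) _ _ (h4 i hi) (K.dl i)
      simp only [hi, if_false]
      exact this
  · have e1 : ∑ i, C.ν i * δ j i = C.ν i₀ * δ j i₀ + ∑ i ∈ Finset.univ.erase i₀, C.ν i * δ j i :=
      (Finset.add_sum_erase _ _ (Finset.mem_univ i₀)).symm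
    have e2 : ∑ i, C'.ν i * (if i = i₀ then χ (T.dd (T.j2 T.y)) * (δ j i₀ - extA χ (h j))
        else δ j i) = C'.ν i₀ * (χ (T.dd (T.j2 T.y)) * (δ j i₀ - extA χ (h j))) +
          ∑ i ∈ Finset.univ.erase i₀, C.ν i * δ j i := by
      rw [← Finset.add_sum_erase _ _ (Finset.mem_univ i₀), if_pos rfl]
      congr 1
      refine Finset.sum_congr rfl fun i hi => ?_
      have hi' := Finset.ne_of_mem_erase hi
      rw [if_neg hi', hν' i hi']
    have e3 : χ T.e * χ (T.dd (T.j2 T.y)) = 1 := by rw [← map_mul, T.ey, map_one]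
    rw [e1, e2, ext_add C.μ C'.μ χ (C.ν i₀) hμ, hν]
    linear_combination (-(C.ν i₀) * (δ j i₀ - extA χ (h j))) * e3

end Pool.Agent.MG


end

section

/-!
# DST: stability of duos
-/

open CategoryTheory CategoryTheory.Limits AlgebraicGeometry TensorProduct

namespace Pool.Agent.MG.KX

namespace DST

variable {A K : Type} [CommRing A] [Field K]

/-- The sections of the fibre. -/
theorem sec_map {D : Duo A} {n : ℕ} {s : Fin n → (D.R1 →ₐ[A] A)} {φ : A →+* K} {E : Duo K}
    {s' : Fin n → (E.R1 →ₐ[K] K)} (h : Duo.Hom φ D E) (hs : ∀ i r, s' i (h.f1 r) = φ (s i r))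
    (i : Fin n) : (E.fam s').σ i ≫ h.map = spMap φ ≫ (D.fam s).σ i := by
  change (spMap (s' i : E.R1 →+* K) ≫ E.in1) ≫ h.map =
    spMap φ ≫ spMap (s i : D.R1 →+* A) ≫ D.in1
  rw [Category.assoc, h.in1_map, ← Category.assoc, ← Category.assoc, spMap_comp'', spMap_comp'']
  have e : (s' i : E.R1 →+* K).comp h.f1 = φ.comp (s i : D.R1 →+* A) :=
    RingHom.ext fun r => hs i r
  rw [e]

/-- A fibre of a family given by a duo is isomorphic to the family of the duo over the field. -/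
theorem fibre {D : Duo A} {n : ℕ} {s : Fin n → (D.R1 →ₐ[A] A)} {φ : A →+* K} {E : Duo K}
    {s' : Fin n → (E.R1 →ₐ[K] K)} (h : Duo.Hom φ D E) (hs : ∀ i r, s' i (h.f1 r) = φ (s i r))
    (h1 : IsPullback h.map E.pr D.pr (spMap φ)) (z : Fam n K) (a : Arrow φ z (D.fam s)) :
    ∃ f : Arrow (RingHom.id K) z (E.fam s'), IsIso f.f := by
  have h1' : IsPullback h.map (E.fam s').π (D.fam s).π (spMap φ) := h1
  let e : z.X ≅ (E.fam s').X := a.cart.isoIsPullback _ _ h1'
  have e1 : e.hom ≫ h.map = a.f := a.cart.isoIsPullback_hom_fst _ _ h1'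
  have e2 : e.hom ≫ (E.fam s').π = z.π := a.cart.isoIsPullback_hom_snd _ _ h1'
  refine ⟨⟨e.hom, ?_, ?_⟩, ?_⟩
  · have : IsIso (spMap (RingHom.id K)) := by
      rw [FIS.spMap_id]
      infer_instance
    refine IsPullback.of_horiz_isIso ⟨?_⟩
    rw [e2, FIS.spMap_id, Category.comp_id]
  · intro i
    rw [FIS.spMap_id, Category.id_comp]
    refine h1'.hom_ext ?_ ?_
    · exact (Category.assoc _ _ _).trans ((congrArg (fun t => z.σ i ≫ t) e1).trans
        ((a.sec i).trans (sec_map h hs i).symm))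
    · exact (Category.assoc _ _ _).trans ((congrArg (fun t => z.σ i ≫ t) e2).trans
        ((z.sec i).trans ((E.fam s').sec i).symm))
  · show IsIso e.hom
    infer_instance

end DST

theorem t_DST : Stmt_DST := by
  intro A _ g D n s hp hf hfp hfib
  refine ⟨hp, hf, hfp, ?_⟩
  rintro K _ _ φ z ⟨a⟩
  obtain ⟨E, s', h, h1, hs, hst⟩ := hfib K φ
  obtain ⟨f, hfi⟩ := DST.fibre h hs h1 z a
  exact t_FIS.2 g z (E.fam s') f hfi hst

end Pool.Agent.MG.KX


end

section

/-!
# Gap sections, translations of `z`, cyclic duals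
-/

open Polynomial

namespace Pool.Agent.MG.G0

section

variable {A B : Type} [CommRing A] [CommRing B]

/-- `Γ` is a set of gaps for `R`: for every series `f` there is exactly one element of `R` with the
same coefficients at `τ^(-n)`, `n ∉ Γ`. -/
def GS (Γ : Finset ℕ) (R : Subalgebra A (LaurentSeries A)) : Prop :=
  0 ∉ Γ ∧ ∀ f : LaurentSeries A, ∃! p : LaurentSeries A, p ∈ R ∧
    ∀ n : ℕ, n ∉ Γ → (f - p).coeff (-(n : ℤ)) = 0

/-- The element of `R` with coefficients `δ` at the `τ^(-m)`, `m ∉ Γ`. -/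
structure IsEch (Γ : Finset ℕ) (R : Subalgebra A (LaurentSeries A)) (n : ℕ)
    (h : LaurentSeries A) : Prop where
  mem : h ∈ R
  co : ∀ m : ℕ, m ∉ Γ → h.coeff (-(m : ℤ)) = if m = n then 1 else 0

theorem GS.ech {Γ : Finset ℕ} {R : Subalgebra A (LaurentSeries A)} (h : GS Γ R) (n : ℕ) :
    ∃! x, IsEch Γ R n x := by
  obtain ⟨p, ⟨hp, hq⟩, hu⟩ := h.2 (HahnSeries.single (-(n : ℤ)) (1 : A))
  have key : ∀ m : ℕ, (HahnSeries.single (-(n : ℤ)) (1 : A) : LaurentSeries A).coeff (-(m : ℤ)) =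
      if m = n then 1 else 0 := by
    intro m
    rw [HahnSeries.coeff_single]
    have : (-(m : ℤ) = -(n : ℤ)) ↔ (m = n) := by omega
    simp only [this]
  refine ⟨p, ⟨hp, fun m hm => ?_⟩, fun y hy => hu y ⟨hy.mem, fun m hm => ?_⟩⟩
  · have := hq m hm
    rw [HahnSeries.coeff_sub, key, sub_eq_zero] at this
    exact this.symm
  · rw [HahnSeries.coeff_sub, key, hy.co m hm, sub_self]

/-! ## Translations of `z` -/

open Classical in
/-- The series `(1 + y)^(-1/d)`. -/
noncomputable def rt (A : Type) [CommRing A] (d : ℕ) : PowerSeries A :=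
  if h : ∃ r : PowerSeries A, PowerSeries.constantCoeff r = 1 ∧ r ^ d * (1 + PowerSeries.X) = 1 then
    h.choose else 1

open Classical in
/-- The coefficient of `yⁿ` in the power `(1 + y)^(-m/d)`. -/
noncomputable def rtc (A : Type) [CommRing A] (d : ℕ) (m : ℤ) (n : ℕ) : A :=
  if h : IsUnit (rt A d) then PowerSeries.coeff n ((h.unit ^ m : (PowerSeries A)ˣ) : PowerSeries A)
  else 0

/-- The divided power of order `n` of the derivation `d/dz`, `z = τ^(-d)`:
`τᵐ ↦ binom(-m/d, n) τ^(m + dn)`. -/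
noncomputable def dz (A : Type) [CommRing A] (d n : ℕ) : LaurentSeries A →ₗ[A] LaurentSeries A where
  toFun f :=
    { coeff := fun m => rtc A d (m - d * n) n * f.coeff (m - d * n)
      isPWO_support' := by
        have h : (f.support : Set ℤ).IsPWO := f.isPWO_support
        have h2 := h.image_of_monotone (f := fun m : ℤ => m + d * n)
          (fun a b hab => by simpa using hab)
        refine h2.mono fun m hm => ⟨m - d * n, ?_, by ring⟩
        intro h0
        apply hm
        change rtc A d (m - d * n) n * f.coeff (m - d * n) = 0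
        rw [h0, mul_zero] }
  map_add' f g := by
    ext m
    simp only [HahnSeries.coeff_add, mul_add]
  map_smul' a f := by
    ext m
    simp only [HahnSeries.coeff_smul, smul_eq_mul, RingHom.id_apply]
    ring

theorem dz_coeff (d n : ℕ) (f : LaurentSeries A) (m : ℤ) :
    (dz A d n f).coeff m = rtc A d (m - d * n) n * f.coeff (m - d * n) := rfl

/-- The translation `z ↦ z + a`, for `a` nilpotent. -/
noncomputable def psi (d : ℕ) (a : LaurentSeries A) : LaurentSeries A →ₗ[A] LaurentSeries A :=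
  ∑ n ∈ Finset.range (nilpotencyClass a), (LinearMap.mulLeft A (a ^ n)) ∘ₗ dz A d n

theorem psi_apply (d : ℕ) (a f : LaurentSeries A) :
    psi d a f = ∑ n ∈ Finset.range (nilpotencyClass a), a ^ n * dz A d n f := by
  simp [psi]

/-- The image of `R` under the translation. -/
noncomputable def psiR (d : ℕ) (a : LaurentSeries A) (R : Subalgebra A (LaurentSeries A)) :
    Subalgebra A (LaurentSeries A) :=
  Algebra.adjoin A (psi d a '' (R : Set (LaurentSeries A)))

/-! ## Duals -/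

/-- `x` is in the dual of `R` for the form `pr₀(x y)`. -/
def IsDl (d : ℕ) (R : Subalgebra A (LaurentSeries A)) (x : LaurentSeries A) : Prop :=
  ∀ p ∈ R, ∃ a : A[X], pr0 A d (x * p) = zpol A d a

/-- The dual of `R` is `R + A[z] w`. -/
def Cyc (d : ℕ) (R : Subalgebra A (LaurentSeries A)) : Prop :=
  ∃ w, IsDl d R w ∧ ∀ x, IsDl d R x → ∃ p ∈ R, ∃ a : A[X], x = p + zpol A d a * w

/-! ## Coefficientwise derivations -/

/-- A derivation applied to the coefficients. -/
noncomputable def cder (δ : Derivation ℤ A A) (f : LaurentSeries A) : LaurentSeries A where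
  coeff m := δ (f.coeff m)
  isPWO_support' := f.isPWO_support.mono fun m hm h0 => hm (by
    change δ (f.coeff m) = 0
    rw [h0, map_zero])

theorem cder_coeff (δ : Derivation ℤ A A) (f : LaurentSeries A) (m : ℤ) :
    (cder δ f).coeff m = δ (f.coeff m) := rfl

/-- A derivation applied to the coefficients of a polynomial. -/
noncomputable def pder (δ : Derivation ℤ A A) (p : A[X]) : A[X] :=
  ∑ n ∈ p.support, monomial n (δ (p.coeff n))

theorem pder_coeff (δ : Derivation ℤ A A) (p : A[X]) (n : ℕ) :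
    (pder δ p).coeff n = δ (p.coeff n) := by
  rw [pder, finsetSum_coeff]
  simp only [coeff_monomial]
  rw [Finset.sum_ite_eq' p.support n fun n => δ (p.coeff n)]
  split_ifs with h
  · rfl
  · rw [notMem_support_iff.1 h, map_zero]

end

/-- The branch points `βₗ + tᵈ αₗ`. -/
noncomputable def ft {k R : Type} [Field k] [CommRing R] [Algebra k R] {b : ℕ} (d : ℕ)
    (β α : Fin b → k) (t : R) : R[X] :=
  ∏ l, (X - C (algebraMap k R (β l) + t ^ d * algebraMap k R (α l)))

/-- The branch point `βₗ + tᵈ αₗ` over `k[[t]]`. -/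
noncomputable def bpt {k : Type} [Field k] {b : ℕ} (d : ℕ) (β α : Fin b → k) (l : Fin b) :
    PowerSeries k :=
  PowerSeries.C (β l) + PowerSeries.X ^ d * PowerSeries.C (α l)

/-- The ring `k[[t]]/tᵐ`. -/
abbrev Tr (k : Type) [Field k] (m : ℕ) : Type :=
  PowerSeries k ⧸ Ideal.span {(PowerSeries.X : PowerSeries k) ^ m}

/-- The class of a power series. -/
noncomputable abbrev tmk (k : Type) [Field k] (m : ℕ) : PowerSeries k →+* Tr k m :=
  Ideal.Quotient.mk _

end Pool.Agent.MG.G0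


end

section

/-!
# Uniqueness and families of covers: statements (PAPER_B.md)
-/

open Polynomial IsLocalRing

namespace Pool.Agent.MG.G0

/-! ## Gap sections -/

/-- BGA: gap sections. -/
def Stmt_BGA : Prop :=
  (∀ {A : Type} [CommRing A] (Γ : Finset ℕ) (R : Subalgebra A (LaurentSeries A)), GS Γ R →
    Kr Γ.card R ∧ ∀ x : LaurentSeries A, x ∈ R ↔ ∃ (N : ℕ) (c : ℕ → A) (h : ℕ → LaurentSeries A),
      (∀ n ∉ Γ, IsEch Γ R n (h n)) ∧ x = ∑ n ∈ Finset.range N \ Γ, c n • h n) ∧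
  (∀ {A B : Type} [CommRing A] [CommRing B] (φ : A →+* B) (Γ : Finset ℕ)
    (R : Subalgebra A (LaurentSeries A)), GS Γ R → GS Γ (bc1 φ R) ∧
      ∀ n h, IsEch Γ R n h → IsEch Γ (bc1 φ R) n (lmap φ h))

/-- BGL: gap sections and base change. -/
def Stmt_BGL : Prop :=
  (∀ {A B : Type} [CommRing A] [CommRing B] [Nontrivial B] (φ : A →+* B) [IsLocalHom φ] {g : ℕ}
    (R : Subalgebra A (LaurentSeries A)) (Γ : Finset ℕ), Kr g R → GS Γ (bc1 φ R) → GS Γ R) ∧
  (∀ {κ : Type} [Field κ] {g : ℕ} (R : Subalgebra κ (LaurentSeries κ)), Kr g R →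
    ∃ Γ : Finset ℕ, Γ.card = g ∧ GS Γ R ∧ ∀ n ∉ Γ, ∀ h, IsEch Γ R n h → h ∈ Po κ n) ∧
  (∀ {A : Type} [CommRing A] [Nontrivial A] {g g' : ℕ} (R : Subalgebra A (LaurentSeries A)),
    Kr g R → Kr g' R → g = g')

/-! ## Translations of `z` -/

/-- PSI: translations of `z`. -/
def Stmt_PSI : Prop :=
  ∀ {A : Type} [CommRing A] (d : ℕ), 0 < d → IsUnit (d : A) →
    (∀ f : LaurentSeries A, (d : A) • dz A d 1 f =
      -(HahnSeries.single ((d : ℤ) + 1) (1 : A) * ld f)) ∧
    (∀ f h : LaurentSeries A, dz A d 1 (f * h) = f * dz A d 1 h + h * dz A d 1 f) ∧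
    (∀ f : LaurentSeries A, dz A d 1 (pr0 A d f) = pr0 A d (dz A d 1 f)) ∧
    (∀ p : A[X], dz A d 1 (zpol A d p) = zpol A d (derivative p)) ∧
    ∀ a : LaurentSeries A, IsNilpotent a →
    (∀ f h, psi d a (f * h) = psi d a f * psi d a h) ∧ psi d a 1 = 1 ∧
    psi d a (zz A d) = zz A d + a ∧ Function.Bijective (psi d a) ∧
    (∀ J : Ideal A, (∀ m, a.coeff m ∈ J) → ∀ f m, (psi d a f - f).coeff m ∈ J) ∧
    (pr0 A d a = a → ∀ f, pr0 A d (psi d a f) = psi d a (pr0 A d f)) ∧
    (∀ {B : Type} [CommRing B] (φ : A →+* B) (f : LaurentSeries A),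
      lmap φ (psi d a f) = psi d (lmap φ a) (lmap φ f)) ∧
    (a * a = 0 → ∀ f, psi d a f = f + a * dz A d 1 f)

/-- PSK: Krichever rings and translations. -/
def Stmt_PSK : Prop :=
  ∀ {A : Type} [CommRing A] (d : ℕ), 0 < d → IsUnit (d : A) → ∀ J : Ideal A,
    (∃ n : ℕ, J ^ n = ⊥) →
    (∀ a : LaurentSeries A, (∀ m, a.coeff m ∈ J) → IsNilpotent a ∧
      ∀ (R : Subalgebra A (LaurentSeries A)),
        (∀ x, x ∈ psiR d a R ↔ ∃ y ∈ R, x = psi d a y) ∧
        (∀ Γ : Finset ℕ, GS Γ R → GS Γ (psiR d a R)) ∧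
        (∀ {B : Type} [CommRing B] (φ : A →+* B),
          bc1 φ (psiR d a R) = psiR d (lmap φ a) (bc1 φ R)) ∧
        (∀ {B : Type} [CommRing B] (φ : A →+* B), (∀ x ∈ J, φ x = 0) →
          bc1 φ (psiR d a R) = bc1 φ R)) ∧
    (∀ α : A[X], (∀ i, α.coeff i ∈ J) → ∀ (R : Subalgebra A (LaurentSeries A)), zz A d ∈ R →
      zz A d ∈ psiR d (zpol A d α) R ∧
      ∀ f : A[X], Disc d R f → Disc d (psiR d (zpol A d α) R) (f.comp (X + α)))

/-! ## The core lemma -/

/-- BCO: the core lemma. `t` is a normalised trace, `e` a basis of `P`, `es` the dual basis, `w`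
generates the dual modulo `P`, `D` is a derivation modulo `P`. -/
def Stmt_BCO : Prop :=
  ∀ {Λ K ι : Type} [CommRing Λ] [IsDomain Λ] [IsPrincipalIdealRing Λ] [CommRing K] [Algebra Λ K]
    [Fintype ι] [DecidableEq ι] (P : Subalgebra Λ K) (t : K →ₗ[Λ] K) (e es : ι → K),
    (∀ (a : Λ) (x : K), a ≠ 0 → algebraMap Λ K a * x = 0 → x = 0) →
    (∀ x y, t (t x * y) = t x * t y) → t 1 = 1 →
    (∀ i, e i ∈ P) → (∀ i j, t (e i * es j) = if i = j then 1 else 0) →
    (∀ x, x = ∑ j, t (x * es j) * e j) → (∀ p ∈ P, ∃ a : Λ, t p = algebraMap Λ K a) →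
    (∀ p ∈ P, ∀ j, ∃ a : Λ, t (p * es j) = algebraMap Λ K a) →
    (∀ x ∈ P, ∑ j, t (x * e j * es j) = (Fintype.card ι : K) * t x) →
    IsUnit ((2 * Fintype.card ι : ℕ) : Λ) →
    (∃ f : Λ, f ≠ 0 ∧ ∀ j, algebraMap Λ K f * es j ∈ P) →
    ∀ w : K, (∀ p ∈ P, ∃ a : Λ, t (w * p) = algebraMap Λ K a) →
    (∀ x : K, (∀ p ∈ P, ∃ a : Λ, t (x * p) = algebraMap Λ K a) →
      ∃ p ∈ P, ∃ a : Λ, x = p + algebraMap Λ K a * w) →
    ∀ D : K → K, (∀ x ∈ P, ∀ y ∈ P, D (x + y) - D x - D y ∈ P) →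
    (∀ x ∈ P, ∀ y ∈ P, D (x * y) - x * D y - y * D x ∈ P) →
    (∀ a : Λ, D (algebraMap Λ K a) ∈ P) →
    (∀ x ∈ P, ∃ a : Λ, t (D x) = algebraMap Λ K a) →
    (∃ a : Λ, ∑ j, t (es j * D (e j)) = algebraMap Λ K a) → ∀ x ∈ P, D x ∈ P

/-- ZDU: the dual basis (over fields; from ZD1). -/
def Stmt_ZDU : Prop :=
  ∀ {κ : Type} [Field κ] {g d : ℕ}, 0 < d → ((d : ℕ) : κ) ≠ 0 →
    ∀ R : Subalgebra κ (LaurentSeries κ), Kr g R → zz κ d ∈ R →
    (∀ x ∈ R, ∃ a : κ[X], pr0 κ d x = zpol κ d a) ∧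
    ∀ (e : Fin d → LaurentSeries κ) (G : Matrix (Fin d) (Fin d) κ[X]), ZBas d R e → ZGram d e G →
      G.det ≠ 0 ∧ ∃ es : Fin d → LaurentSeries κ,
      (∀ i j, pr0 κ d (e i * es j) = if i = j then 1 else 0) ∧
      (∀ x, x = ∑ j, pr0 κ d (x * es j) * e j) ∧
      (∀ x, ∑ j, pr0 κ d (x * e j * es j) = (d : LaurentSeries κ) * pr0 κ d x) ∧
      ∀ j, zpol κ d G.det * es j = ∑ i, zpol κ d (G.adjugate j i) * e i

/-- CYC: cyclic duals. -/
def Stmt_CYC : Prop :=
  ∀ {κ : Type} [Field κ] {g d : ℕ}, 0 < d → ((d : ℕ) : κ) ≠ 0 →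
    ∀ R : Subalgebra κ (LaurentSeries κ), Kr g R → zz κ d ∈ R →
    (∀ (e : Fin d → LaurentSeries κ) (G : Matrix (Fin d) (Fin d) κ[X]), ZBas d R e →
      ZGram d e G → ∀ (u : κ) (s : Multiset κ), G.det = C u * (s.map fun c => X - C c).prod →
      (∀ c : κ, G.det.eval c = 0 → d ≤ (G.map (eval c)).rank + 1) → Cyc d R) ∧
    ∀ (b : ℕ) (r : Fin b → κ), Function.Injective r → Disc d R (∏ l, (X - C (r l))) → Cyc d R

/-- BPD: derivations of `R` modulo `R` with values in Laurent series. -/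
def Stmt_BPD : Prop :=
  ∀ {κ : Type} [Field κ] {g d : ℕ}, 0 < d → ((2 * d : ℕ) : κ) ≠ 0 →
    ∀ R : Subalgebra κ (LaurentSeries κ), Kr g R → zz κ d ∈ R → Cyc d R →
    ∀ (e : Fin d → LaurentSeries κ) (G : Matrix (Fin d) (Fin d) κ[X]), ZBas d R e → ZGram d e G →
    ∀ D : LaurentSeries κ → LaurentSeries κ, (∀ x ∈ R, ∀ y ∈ R, D (x + y) - D x - D y ∈ R) →
    (∀ x ∈ R, ∀ y ∈ R, D (x * y) - x * D y - y * D x ∈ R) →
    (∀ a : κ, D (algebraMap κ _ a) ∈ R) → D (zz κ d) ∈ R →
    (∀ x ∈ R, ∃ a : κ[X], pr0 κ d (D x) = zpol κ d a) →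
    (∃ v : κ[X], ∑ i, ∑ j, zpol κ d (G.adjugate i j) * pr0 κ d (e j * D (e i)) =
      zpol κ d (v * G.det)) → ∀ x ∈ R, D x ∈ R

/-! ## Uniqueness -/

/-- BPX: uniqueness, small extensions. -/
def Stmt_BPX : Prop :=
  ∀ {A κ : Type} [CommRing A] [IsLocalRing A] [Field κ] (ρ : A →+* κ), Function.Surjective ρ →
    ∀ {g d : ℕ}, 0 < d → IsUnit ((2 * d : ℕ) : A) →
    ∀ (R₁ R₂ : Subalgebra A (LaurentSeries A)) (f : A[X]), Kr g R₁ → Kr g R₂ → zz A d ∈ R₁ →
    zz A d ∈ R₂ → f.Monic → Disc d R₁ f → Disc d R₂ f → ∀ j : A, ρ j = 0 →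
    (∀ m : A, ρ m = 0 → m * j = 0) → bc1 (Ideal.Quotient.mk (Ideal.span {j})) R₁ =
      bc1 (Ideal.Quotient.mk (Ideal.span {j})) R₂ → Cyc d (bc1 ρ R₁) → R₁ = R₂

/-- BPA: uniqueness over local artinian rings. -/
def Stmt_BPA : Prop :=
  ∀ {A κ : Type} [CommRing A] [IsLocalRing A] [IsArtinianRing A] [Field κ] (ρ : A →+* κ),
    Function.Surjective ρ → ∀ {g d : ℕ}, 0 < d → IsUnit ((2 * d : ℕ) : A) →
    ∀ (R₁ R₂ : Subalgebra A (LaurentSeries A)) (f : A[X]), Kr g R₁ → Kr g R₂ → zz A d ∈ R₁ →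
    zz A d ∈ R₂ → f.Monic → Disc d R₁ f → Disc d R₂ f → bc1 ρ R₁ = bc1 ρ R₂ →
    Cyc d (bc1 ρ R₁) → R₁ = R₂

/-- BPB: derivations of the base field. -/
def Stmt_BPB : Prop :=
  ∀ {E : Type} [Field E] {g d : ℕ}, 0 < d → ((2 * d : ℕ) : E) ≠ 0 →
    ∀ R : Subalgebra E (LaurentSeries E), Kr g R → zz E d ∈ R → Cyc d R → ∀ f : E[X],
    Disc d R f → ∀ (δ : Derivation ℤ E E) (a : E[X]),
    (∃ v : E[X], pder δ f + a * derivative f = v * f) →
    (∀ x ∈ R, cder δ x + zpol E d a * dz E d 1 x ∈ R) ∧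
    (a = 0 → ∀ (Γ : Finset ℕ) (n : ℕ) (h : LaurentSeries E), GS Γ R → IsEch Γ R n h → n ∉ Γ →
      ∀ m, δ (h.coeff m) = 0)

/-! ## Families -/

/-- ZBA: the family over a ring with a nilpotent `t`. -/
def Stmt_ZBA : Prop :=
  ∀ {k A : Type} [Field k] [CommRing A] [Algebra k A] {g d b : ℕ}, 0 < d → ((d : ℕ) : k) ≠ 0 →
    ∀ R : Subalgebra k (LaurentSeries k), Kr g R → zz k d ∈ R → ∀ β α : Fin b → k,
    Function.Injective β → Disc d R (∏ l, (X - C (β l))) → ∀ t : A, IsNilpotent t → ∀ a : A[X],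
    (∀ i, a.coeff i ∈ Ideal.span {t}) →
    (∀ l, a.eval (algebraMap k A (β l) + t ^ d * algebraMap k A (α l)) =
      -(t ^ d * algebraMap k A (α l))) →
    zz A d ∈ psiR d (zpol A d a) (bc1 (algebraMap k A) R) ∧
    Disc d (psiR d (zpol A d a) (bc1 (algebraMap k A) R)) (ft d β α t) ∧
    ∀ Γ : Finset ℕ, GS Γ R → GS Γ (psiR d (zpol A d a) (bc1 (algebraMap k A) R))

/-- ZBL: limits. -/
def Stmt_ZBL : Prop :=
  ∀ {k : Type} [Field k] (Γ : Finset ℕ) (P : ∀ m, Subalgebra (Tr k m) (LaurentSeries (Tr k m))),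
    (∀ m, GS Γ (P m)) → (∀ (m : ℕ) (x : LaurentSeries (PowerSeries k)),
      lmap (tmk k (m + 1)) x ∈ P (m + 1) → lmap (tmk k m) x ∈ P m) →
    ∃ Q : Subalgebra (PowerSeries k) (LaurentSeries (PowerSeries k)), GS Γ Q ∧
      (∀ x, x ∈ Q ↔ ∀ m, lmap (tmk k m) x ∈ P m) ∧ ∀ m, bc1 (tmk k m) Q = P m

/-- ZBT: the family over `k[[t]]`. -/
def Stmt_ZBT : Prop :=
  ∀ {k : Type} [Field k] {g d b : ℕ}, 0 < d → ((2 * d : ℕ) : k) ≠ 0 →
    ∀ R : Subalgebra k (LaurentSeries k), Kr g R → zz k d ∈ R → ∀ β α : Fin b → k,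
    Function.Injective β → Disc d R (∏ l, (X - C (β l))) →
    ∃ (a : (PowerSeries k)[X]) (P : Subalgebra (PowerSeries k) (LaurentSeries (PowerSeries k))),
      (∀ i, (PowerSeries.X : PowerSeries k) ^ d ∣ a.coeff i) ∧
      (∀ l, a.eval (bpt d β α l) = -(PowerSeries.X ^ d * PowerSeries.C (α l))) ∧
      zz _ d ∈ P ∧ (∀ Γ : Finset ℕ, GS Γ R → GS Γ P) ∧
      (∀ m, bc1 (tmk k m) P = psiR d (zpol _ d (a.map (tmk k m))) (bc1 (algebraMap k (Tr k m)) R)) ∧
      bc1 (PowerSeries.constantCoeff (R := k)) P = R ∧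
      ∀ m, Disc d (bc1 (tmk k m) P) (ft d β α (tmk k m PowerSeries.X))

/-- ZBO: the discriminant over `k((t))`. -/
def Stmt_ZBO : Prop :=
  ∀ {k : Type} [Field k] {g d b : ℕ}, 0 < d → ((2 * d : ℕ) : k) ≠ 0 → ∀ β α : Fin b → k,
    Function.Injective β →
    ∀ P : Subalgebra (PowerSeries k) (LaurentSeries (PowerSeries k)), Kr g P → zz _ d ∈ P →
    (∀ m, Disc d (bc1 (tmk k m) P) (ft d β α (tmk k m PowerSeries.X))) →
    Disc d (bc1 (HahnSeries.ofPowerSeries ℤ k) P)
      (∏ l, (X - C (HahnSeries.ofPowerSeries ℤ k (bpt d β α l))))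

/-- ZBE: a Krichever ring is defined over a finite separable extension of the field of definition
of its branch points. -/
def Stmt_ZBE : Prop :=
  ∀ {F Ω : Type} [Field F] [Field Ω] [Algebra F Ω] {g d b : ℕ}, 0 < d → ((2 * d : ℕ) : F) ≠ 0 →
    ∀ R : Subalgebra Ω (LaurentSeries Ω), Kr g R → zz Ω d ∈ R → ∀ r : Fin b → F,
    Function.Injective r → Disc d R (∏ l, (X - C (algebraMap F Ω (r l)))) →
    ∃ (L : IntermediateField F Ω) (S : Subalgebra L (LaurentSeries L)),
      FiniteDimensional F L ∧ Algebra.IsSeparable F L ∧ Kr g S ∧ zz L d ∈ S ∧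
      bc1 (algebraMap L Ω) S = R ∧ Disc d S (∏ l, (X - C (algebraMap F L (r l)))) ∧
      ∀ M : Subfield L, (∀ x : F, algebraMap F L x ∈ M) →
        ∀ T : Subalgebra M (LaurentSeries M), Kr g T → zz M d ∈ T → bc1 M.subtype T = S → M = ⊤

/-- ZRT: the truncated double `O ⊗ O` over `k[t]`. -/
def Stmt_ZRT : Prop :=
  ∀ {k O : Type} [Field k] [CommRing O] [IsDomain O] [IsDiscreteValuationRing O] [Algebra k O]
    (ρ : O →ₐ[k] k) (t : O), ρ t = 0 → t ≠ 0 → ∀ m : ℕ, 0 < m →
    ∃ (A : Type) (_ : CommRing A) (_ : IsLocalRing A) (_ : IsArtinianRing A) (p q : O →+* A)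
      (σ : A →+* k), (∀ c : k, p (algebraMap k O c) = q (algebraMap k O c)) ∧ p t = q t ∧
      p t ^ m = 0 ∧ (∀ x, σ (p x) = ρ x) ∧ (∀ x, σ (q x) = ρ x) ∧
      ∀ x, p x = q x → ∃ c : k[X], x - aeval t c ∈ Ideal.span {t ^ m}

/-- ZRV: values of series in `t`. -/
def Stmt_ZRV : Prop :=
  ∀ {k O L : Type} [Field k] [CommRing O] [IsDomain O] [IsDiscreteValuationRing O] [Algebra k O]
    [Field L] [Algebra O L] [IsFractionRing O L] (t : O), t ∈ maximalIdeal O → t ≠ 0 →
    ∃ M : Subfield L, (∀ c : k, algebraMap O L (algebraMap k O c) ∈ M) ∧ algebraMap O L t ∈ M ∧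
      (∀ x : O, (∀ m, ∃ c : k[X], x - aeval t c ∈ Ideal.span {t ^ m}) → algebraMap O L x ∈ M) ∧
      (M = ⊤ → maximalIdeal O = Ideal.span {t})

/-- ZBR: the family is unramified over `k[t]` at places with cyclic dual. -/
def Stmt_ZBR : Prop :=
  ∀ {k O L : Type} [Field k] [CommRing O] [IsDomain O] [IsDiscreteValuationRing O] [Algebra k O]
    [Field L] [Algebra O L] [IsFractionRing O L] {g d : ℕ}, 0 < d → ((2 * d : ℕ) : k) ≠ 0 →
    ∀ (ρ : O →ₐ[k] k) (t : O), ρ t = 0 → t ≠ 0 → ∀ F : (k[X])[X], F.Monic →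
    ∀ R : Subalgebra O (LaurentSeries O), Kr g R → zz O d ∈ R →
    (∀ m, Disc d (bc1 (Ideal.Quotient.mk (Ideal.span {t ^ m})) R)
      ((F.map (aeval (R := k) t).toRingHom).map (Ideal.Quotient.mk (Ideal.span {t ^ m})))) →
    Cyc d (bc1 (ρ : O →+* k) R) →
    (∀ M : Subfield L, (∀ c : k, algebraMap O L (algebraMap k O c) ∈ M) → algebraMap O L t ∈ M →
      ∀ T : Subalgebra M (LaurentSeries M), Kr g T → zz M d ∈ T →
        bc1 M.subtype T = bc1 (algebraMap O L) R → M = ⊤) →
    maximalIdeal O = Ideal.span {t}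

end Pool.Agent.MG.G0


end

section

/-!
# Sections ZD and ZL: discriminants, reduction of covers. Statements
-/

namespace Pool.Agent.MG.G0

/-- ZD1: the trace of the multiplication by `x` on `R` over `A[z]` is `d pr₀(x)`. -/
def Stmt_ZD1 : Prop :=
  ∀ (A : Type) [CommRing A] (g d : ℕ) (R : Subalgebra A (LaurentSeries A)), 0 < d → Kr g R →
    ∀ (e : Fin d → LaurentSeries A), ZBas d R e → ∀ x ∈ R,
      (∀ m : Matrix (Fin d) (Fin d) (Polynomial A),
        (∀ i, x * e i = ∑ j, zpol A d (m i j) * e j) →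
          (d : LaurentSeries A) * pr0 A d x = zpol A d m.trace) ∧
      (IsUnit (d : A) → ∃ q : Polynomial A, pr0 A d x = zpol A d q)

/-- ZD2: over a field there are a basis over `κ[z]` and a monic discriminant; every discriminant
has degree `2g + d - 1`; there are monic elements of all orders `n ≥ 2g`. -/
def Stmt_ZD2 : Prop :=
  ∀ (κ : Type) [Field κ] (g d : ℕ) (R : Subalgebra κ (LaurentSeries κ)), 0 < d → (d : κ) ≠ 0 →
    Kr g R → zz κ d ∈ R →
    (∃ f : Polynomial κ, f.Monic ∧ Disc d R f) ∧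
    (∀ f : Polynomial κ, Disc d R f → f ≠ 0 ∧ f.natDegree = 2 * g + (d - 1)) ∧
    ∀ n : ℕ, 2 * g ≤ n → ∃ p ∈ R, p ∈ Po κ n ∧ p.coeff (-(n : ℤ)) = 1

/-- ZDB: base change of bases over `A[z]` and of discriminants. -/
def Stmt_ZDB : Prop :=
  ∀ (A B : Type) [CommRing A] [CommRing B] (φ : A →+* B) (g d : ℕ)
    (R : Subalgebra A (LaurentSeries A)), 0 < d → Kr g R → zz A d ∈ R →
    zz B d ∈ bc1 φ R ∧ (∀ e : Fin d → LaurentSeries A, ZBas d R e →
      ZBas d (bc1 φ R) fun i => lmap φ (e i)) ∧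
    ∀ f : Polynomial A, Disc d R f → Disc d (bc1 φ R) (f.map φ)

/-- ZINT (ZL1): integrality of the coefficients. -/
def Stmt_ZINT : Prop :=
  ∀ (E : Type) [CommRing E] (E₀ : Subring E) (d : ℕ) (R : Subring (LaurentSeries E)) (n₀ : ℕ),
    0 < d → (∃ c ∈ E₀, c * (d : E) = 1) → (∀ a ∈ E₀, algebraMap E (LaurentSeries E) a ∈ R) →
    zz E d ∈ R → (∀ n : ℕ, n₀ ≤ n → ∃ h ∈ R, h ∈ Po E n ∧ h.coeff (-(n : ℤ)) = 1) →
    (∀ n : ℕ, n₀ ≤ n → ∀ x ∈ R, x ∈ Po E n → x.coeff (-(n : ℤ)) ∈ E₀) →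
    ∀ x ∈ R, ∀ m : ℤ, x.coeff m ∈ E₀

/-- ZL: the reduction of a cover of `P¹` over a discrete valuation ring. -/
def Stmt_ZL : Prop :=
  ∀ (O L : Type) [CommRing O] [IsDomain O] [IsDiscreteValuationRing O] [Field L] [Algebra O L]
    [IsFractionRing O L] [IsAlgClosed (IsLocalRing.ResidueField O)] (g d : ℕ)
    (R : Subalgebra L (LaurentSeries L)) (f : Polynomial O), 0 < d →
    IsUnit ((d.factorial : ℕ) : O) → Kr g R → zz L d ∈ R → f.Monic →
    Disc d R (f.map (algebraMap O L)) →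
    Kr g (cut (algebraMap O L) R) ∧ zz O d ∈ cut (algebraMap O L) R ∧
    bc1 (algebraMap O L) (cut (algebraMap O L) R) = R ∧
    ∀ (B : Type) [CommRing B] (φ : O →+* B),
      (∀ x ∈ IsLocalRing.maximalIdeal O, IsNilpotent (φ x)) →
      Disc d (bc1 φ (cut (algebraMap O L) R)) (f.map φ)

end Pool.Agent.MG.G0


end

section

/-!
# BPA: uniqueness over local artinian rings (PAPER_B.md)
-/

open Polynomial IsLocalRing

namespace Pool.Agent.MG.G0

namespace BPAx

theorem bc1_comp (hKBC : Stmt_KBC) {A B C : Type} [CommRing A] [CommRing B] [CommRing C]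
    (φ : A →+* B) (ψ : B →+* C) (R : Subalgebra A (LaurentSeries A)) :
    bc1 (ψ.comp φ) R = bc1 ψ (bc1 φ R) := by
  have h := hKBC.2.1 (I := Unit) φ ψ (uno R)
  rw [bc_uno, bc_uno, bc_uno] at h
  have h2 := congrArg duo h
  rwa [duo_uno, duo_uno] at h2

theorem bc1_id (hKBC : Stmt_KBC) {A : Type} [CommRing A] (R : Subalgebra A (LaurentSeries A)) :
    bc1 (RingHom.id A) R = R := by
  have h := hKBC.2.2.1 (I := Unit) (uno R)
  rw [bc_uno] at h
  have h2 := congrArg duo h
  rwa [duo_uno, duo_uno] at h2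

theorem kr_bc1 (hKBC : Stmt_KBC) {A B : Type} [CommRing A] [CommRing B] {g : ℕ}
    {R : Subalgebra A (LaurentSeries A)} (h : Kr g R) (φ : A →+* B) : Kr g (bc1 φ R) := by
  have h1 := (hKBC.2.2.2 (P := uno R) h φ).1
  rw [bc_uno] at h1
  exact h1

/-- if `χ` kills `I`, equality modulo `I` gives equality after `χ` -/
theorem bc1_eq_of_le (hKBC : Stmt_KBC) {A B : Type} [CommRing A] [CommRing B]
    {R₁ R₂ : Subalgebra A (LaurentSeries A)} {I : Ideal A}
    (h : bc1 (Ideal.Quotient.mk I) R₁ = bc1 (Ideal.Quotient.mk I) R₂) (χ : A →+* B)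
    (hχ : ∀ a ∈ I, χ a = 0) : bc1 χ R₁ = bc1 χ R₂ := by
  have h1 : χ = (Ideal.Quotient.lift I χ hχ).comp (Ideal.Quotient.mk I) :=
    (Ideal.Quotient.lift_comp_mk I χ hχ).symm
  rw [h1, bc1_comp hKBC, bc1_comp hKBC, h]

end BPAx

open _root_.Pool.Agent.MG.G0.BPAx in
theorem t_BPA (hBPX : Stmt_BPX) (hKBC : Stmt_KBC) (hZDB : Stmt_ZDB) : Stmt_BPA := by
  intro A κ _ _ _ _ ρ hρ g d hd hu R₁ R₂ f hR₁ hR₂ hz₁ hz₂ hf hD₁ hD₂ hbc hCyc
  have : IsNoetherianRing A := inferInstance
  -- a minimal ideal with equality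
  obtain ⟨I, ⟨hI1, hI2⟩, hmin⟩ := WellFounded.has_min (wellFounded_lt (α := Ideal A))
    {I : Ideal A | I ≤ RingHom.ker ρ ∧
      bc1 (Ideal.Quotient.mk I) R₁ = bc1 (Ideal.Quotient.mk I) R₂}
    ⟨RingHom.ker ρ, le_refl _, by
      have h1 : Ideal.Quotient.mk (RingHom.ker ρ) =
          ((RingHom.quotientKerEquivOfSurjective hρ).symm : κ →+* A ⧸ RingHom.ker ρ).comp ρ := by
        ext a
        rw [RingHom.comp_apply, RingHom.coe_coe, RingEquiv.eq_symm_apply]
        rfl
      rw [h1, bc1_comp hKBC, bc1_comp hKBC, hbc]⟩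
  by_cases hI : I = ⊥
  · have h1 := bc1_eq_of_le hKBC hI2 (RingHom.id A) (fun a ha => by
      rw [hI] at ha
      exact (Ideal.mem_bot).1 ha)
    rwa [bc1_id hKBC, bc1_id hKBC] at h1
  · exfalso
    have hnak : ¬ I ≤ RingHom.ker ρ • I := by
      intro h
      refine hI (Submodule.eq_bot_of_le_smul_of_le_jacobson_bot (RingHom.ker ρ) I
        (IsNoetherian.noetherian I) h ?_)
      rw [IsLocalRing.jacobson_eq_maximalIdeal ⊥ bot_ne_top]
      exact IsLocalRing.le_maximalIdeal (RingHom.ker_ne_top ρ)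
    obtain ⟨I', ⟨hI'1, hI'2⟩, hmax⟩ := WellFounded.has_min (wellFounded_gt (α := Ideal A))
      {I' : Ideal A | RingHom.ker ρ • I ≤ I' ∧ I' < I}
      ⟨RingHom.ker ρ • I, le_refl _, lt_of_le_not_ge Submodule.smul_le_right hnak⟩
    obtain ⟨j, hjI, hjI'⟩ := SetLike.exists_of_lt hI'2
    have hsup : I' ⊔ Ideal.span {j} = I := by
      have hle : I' ⊔ Ideal.span {j} ≤ I :=
        sup_le hI'2.le ((Ideal.span_singleton_le_iff_mem _).2 hjI)
      by_contra hne
      refine hmax (I' ⊔ Ideal.span {j}) ⟨hI'1.trans le_sup_left, lt_of_le_of_ne hle hne⟩ ?_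
      refine lt_of_le_of_ne le_sup_left fun h => hjI' ?_
      rw [h]
      exact Ideal.mem_sup_right (Ideal.mem_span_singleton_self j)
    have hI'ρ : I' ≤ RingHom.ker ρ := hI'2.le.trans hI1
    have hI't : I' ≠ ⊤ := fun h => RingHom.ker_ne_top ρ (top_le_iff.1 (h ▸ hI'ρ))
    have : Nontrivial (A ⧸ I') := Ideal.Quotient.nontrivial_iff.2 hI't
    have : IsLocalRing (A ⧸ I') :=
      IsLocalRing.of_surjective' (Ideal.Quotient.mk I') Ideal.Quotient.mk_surjective
    have hρ0 : ∀ a ∈ I', ρ a = 0 := fun a ha => hI'ρ ha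
    have hρ' : Function.Surjective (Ideal.Quotient.lift I' ρ hρ0) := by
      intro x
      obtain ⟨a, rfl⟩ := hρ x
      exact ⟨Ideal.Quotient.mk I' a, Ideal.Quotient.lift_mk _ _ _⟩
    have hu' : IsUnit ((2 * d : ℕ) : A ⧸ I') := by
      have := hu.map (Ideal.Quotient.mk I')
      rwa [map_natCast] at this
    have hz1' := hZDB A (A ⧸ I') (Ideal.Quotient.mk I') g d R₁ hd hR₁ hz₁
    have hz2' := hZDB A (A ⧸ I') (Ideal.Quotient.mk I') g d R₂ hd hR₂ hz₂
    refine hmin I' ⟨hI'ρ, hBPX (Ideal.Quotient.lift I' ρ hρ0) hρ' hd hu' _ _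
      (f.map (Ideal.Quotient.mk I')) (kr_bc1 hKBC hR₁ _) (kr_bc1 hKBC hR₂ _) hz1'.1 hz2'.1
      (hf.map _) (hz1'.2.2 f hD₁) (hz2'.2.2 f hD₂) (Ideal.Quotient.mk I' j) ?_ ?_ ?_ ?_⟩ hI'2
    · rw [Ideal.Quotient.lift_mk]
      exact hI1 hjI
    · intro m hm
      obtain ⟨m, rfl⟩ := Ideal.Quotient.mk_surjective m
      rw [Ideal.Quotient.lift_mk] at hm
      rw [← map_mul, Ideal.Quotient.eq_zero_iff_mem]
      exact hI'1 (Submodule.smul_mem_smul (show m ∈ RingHom.ker ρ from hm) hjI)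
    · rw [← bc1_comp hKBC, ← bc1_comp hKBC]
      refine bc1_eq_of_le hKBC hI2 _ ?_
      intro a ha
      have h2 : I ≤ RingHom.ker ((Ideal.Quotient.mk (Ideal.span
          {Ideal.Quotient.mk I' j})).comp (Ideal.Quotient.mk I')) := by
        rw [← hsup]
        refine sup_le ?_ ((Ideal.span_singleton_le_iff_mem _).2 ?_)
        · intro b hb
          rw [RingHom.mem_ker, RingHom.comp_apply, Ideal.Quotient.eq_zero_iff_mem.2 hb, map_zero]
        · rw [RingHom.mem_ker, RingHom.comp_apply, Ideal.Quotient.eq_zero_iff_mem]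
          exact Ideal.mem_span_singleton_self _
      exact h2 ha
    · rw [← bc1_comp hKBC, Ideal.Quotient.lift_comp_mk]
      exact hCyc

end Pool.Agent.MG.G0


end

section

/-!
# Derivations of the base field (PAPER_B.md, section BPB)
-/

open Polynomial

namespace Pool.Agent.MG.G0

namespace BPB

/-! ## Determinants and derivations -/

section

variable {K : Type} [CommRing K] (D : K → K) (hadd : ∀ x y, D (x + y) = D x + D y)
  (hmul : ∀ x y, D (x * y) = x * D y + y * D x)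

include hadd in
theorem d_zero : D 0 = 0 := by
  have h := hadd 0 0
  rw [add_zero] at h
  exact left_eq_add.mp h

include hmul in
theorem d_one : D 1 = 0 := by
  have h := hmul 1 1
  rw [mul_one, one_mul] at h
  exact left_eq_add.mp h

include hadd in
theorem d_neg (x : K) : D (-x) = - D x := by
  have h := hadd x (-x)
  rw [add_neg_cancel, d_zero D hadd] at h
  exact (neg_eq_of_add_eq_zero_right h.symm).symm

include hadd in
theorem d_sum {ι : Type} (s : Finset ι) (f : ι → K) : D (∑ i ∈ s, f i) = ∑ i ∈ s, D (f i) := by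
  classical
  induction s using Finset.induction_on with
  | empty => simp [d_zero D hadd]
  | insert a s ha ih => rw [Finset.sum_insert ha, Finset.sum_insert ha, hadd, ih]

include hmul in
theorem d_prod {ι : Type} [DecidableEq ι] (s : Finset ι) (f : ι → K) :
    D (∏ i ∈ s, f i) = ∑ i ∈ s, (∏ j ∈ s.erase i, f j) * D (f i) := by
  induction s using Finset.induction_on with
  | empty => simp [d_one D hmul]
  | insert a s ha ih =>
    rw [Finset.prod_insert ha, hmul, ih, Finset.sum_insert ha, Finset.erase_insert ha,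
      Finset.mul_sum, add_comm]
    congr 1
    refine Finset.sum_congr rfl fun i hi => ?_
    have hne : a ≠ i := fun h => ha (h ▸ hi)
    rw [Finset.erase_insert_of_ne hne, Finset.prod_insert (fun h => ha (Finset.mem_of_mem_erase h)),
      mul_assoc]

include hadd hmul in
theorem d_det {n : Type} [Fintype n] [DecidableEq n] (N : Matrix n n K) :
    D N.det = ∑ i, ∑ j, N.adjugate i j * D (N j i) := by
  have h0 : D N.det = ∑ i, (N.updateCol i fun k => D (N k i)).det := by
    simp only [Matrix.det_apply, d_sum D hadd]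
    rw [Finset.sum_comm]
    refine Finset.sum_congr rfl fun σ _ => ?_
    have h1 : D (Equiv.Perm.sign σ • ∏ i, N (σ i) i) =
        Equiv.Perm.sign σ • D (∏ i, N (σ i) i) := by
      rcases Int.units_eq_one_or (Equiv.Perm.sign σ) with h | h
      · rw [h, one_smul, one_smul]
      · rw [h, Units.neg_smul, one_smul, Units.neg_smul, one_smul, d_neg D hadd]
    rw [h1, d_prod D hmul, Finset.smul_sum]
    refine Finset.sum_congr rfl fun i _ => ?_
    congr 1
    rw [← Finset.mul_prod_erase Finset.univ _ (Finset.mem_univ i), Matrix.updateCol_self, mul_comm]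
    congr 1
    refine Finset.prod_congr rfl fun j hj => ?_
    rw [Matrix.updateCol_ne (Finset.ne_of_mem_erase hj)]
  rw [h0]
  refine Finset.sum_congr rfl fun i _ => ?_
  rw [← Matrix.cramer_apply, Matrix.cramer_eq_adjugate_mulVec]
  rfl

include hadd hmul in
/-- The derivative of the determinant of a symmetric matrix `(t (e i * e j))`. -/
theorem d_gram {n : Type} [Fintype n] [DecidableEq n] (t : K → K)
    (ht : ∀ x y, t (x + y) = t x + t y) (htD : ∀ x, D (t x) = t (D x)) (e : n → K)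
    (N : Matrix n n K) (hN : ∀ i j, N i j = t (e i * e j)) :
    D N.det = 2 * ∑ i, ∑ j, N.adjugate i j * t (e j * D (e i)) := by
  have hs : N.transpose = N := by
    ext i j
    rw [Matrix.transpose_apply, hN, hN, mul_comm]
  have hadj : ∀ i j, N.adjugate j i = N.adjugate i j := by
    intro i j
    have := congrFun (congrFun (Matrix.adjugate_transpose N) i) j
    rw [hs, Matrix.transpose_apply] at this
    exact this
  have h1 : ∀ i j, D (N j i) = t (e j * D (e i)) + t (e i * D (e j)) := by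
    intro i j
    rw [hN, htD, hmul, ht]
  rw [d_det D hadd hmul, two_mul]
  simp only [h1, mul_add, Finset.sum_add_distrib]
  congr 1
  rw [Finset.sum_comm]
  refine Finset.sum_congr rfl fun i _ => Finset.sum_congr rfl fun j _ => ?_
  rw [hadj]

end

/-! ## Coefficientwise derivations -/

section

variable {A : Type} [CommRing A] (δ : Derivation ℤ A A)

theorem cder_add (f h : LaurentSeries A) : cder δ (f + h) = cder δ f + cder δ h := by
  ext m
  rw [HahnSeries.coeff_add, cder_coeff, cder_coeff, cder_coeff, HahnSeries.coeff_add, map_add]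

theorem cder_mul (f h : LaurentSeries A) : cder δ (f * h) = f * cder δ h + h * cder δ f := by
  obtain ⟨a, ha⟩ := exists_low f
  obtain ⟨b, hb⟩ := exists_low h
  have ha' : ∀ m < -(a : ℤ), (cder δ f).coeff m = 0 := fun m hm => by
    rw [cder_coeff, ha m hm, map_zero]
  have hb' : ∀ m < -(b : ℤ), (cder δ h).coeff m = 0 := fun m hm => by
    rw [cder_coeff, hb m hm, map_zero]
  ext n
  rw [HahnSeries.coeff_add, cder_coeff, coeff_mul_Icc ha hb, coeff_mul_Icc ha hb',
    mul_comm h, coeff_mul_Icc ha' hb, map_sum, ← Finset.sum_add_distrib]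
  refine Finset.sum_congr rfl fun i _ => ?_
  rw [Derivation.leibniz, smul_eq_mul, smul_eq_mul, cder_coeff, cder_coeff]
  ring

theorem cder_single (k : ℤ) (c : A) : cder δ (HahnSeries.single k c) = HahnSeries.single k (δ c) := by
  ext m
  rw [cder_coeff, HahnSeries.coeff_single, HahnSeries.coeff_single]
  split_ifs
  · rfl
  · exact map_zero _

theorem cder_algebraMap (c : A) :
    cder δ (algebraMap A (LaurentSeries A) c) = algebraMap A (LaurentSeries A) (δ c) := by
  ext m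
  rw [cder_coeff, coeff_algebraMap, coeff_algebraMap]
  split_ifs
  · rfl
  · exact map_zero _

theorem cder_zz (d : ℕ) : cder δ (zz A d) = 0 := by
  rw [zz, cder_single, Derivation.map_one_eq_zero, HahnSeries.single_eq_zero]

theorem cder_zz_pow (d n : ℕ) : cder δ (zz A d ^ n) = 0 := by
  induction n with
  | zero =>
    rw [pow_zero, ← map_one (algebraMap A (LaurentSeries A)), cder_algebraMap,
      Derivation.map_one_eq_zero, map_zero]
  | succ n ih => rw [pow_succ, cder_mul, ih, cder_zz, mul_zero, mul_zero, add_zero]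

theorem pder_add (p q : A[X]) : pder δ (p + q) = pder δ p + pder δ q := by
  ext n
  rw [coeff_add, pder_coeff, pder_coeff, pder_coeff, coeff_add, map_add]

theorem pder_monomial (n : ℕ) (c : A) : pder δ (monomial n c) = monomial n (δ c) := by
  ext m
  rw [pder_coeff, coeff_monomial, coeff_monomial]
  split_ifs
  · rfl
  · exact map_zero _

theorem cder_zpol (d : ℕ) (p : A[X]) : cder δ (zpol A d p) = zpol A d (pder δ p) := by
  induction p using Polynomial.induction_on' with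
  | add p q hp hq => rw [map_add, cder_add, hp, hq, pder_add, map_add]
  | monomial n c =>
    rw [pder_monomial, zpol, aeval_monomial, aeval_monomial, cder_mul, cder_zz_pow, mul_zero,
      zero_add, cder_algebraMap, mul_comm]

theorem cder_pr0 (d : ℕ) (f : LaurentSeries A) : cder δ (pr0 A d f) = pr0 A d (cder δ f) := by
  ext m
  rw [cder_coeff, pr0_coeff, pr0_coeff, cder_coeff]
  split_ifs
  · rfl
  · exact map_zero _

end

theorem zpol_mem {A : Type} [CommRing A] {d : ℕ} {R : Subalgebra A (LaurentSeries A)}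
    (hz : zz A d ∈ R) (p : A[X]) : zpol A d p ∈ R := by
  rw [zpol]
  exact (Polynomial.aeval_mem_adjoin_singleton A (zz A d) : _) |> Algebra.adjoin_le (by
    simpa using hz)

end BPB

/-- BPB: derivations of the base field. -/
theorem t_BPB (hBPD : Stmt_BPD) (hPSI : Stmt_PSI) (hZD1 : Stmt_ZD1) : Stmt_BPB := by
  intro E _ g d hd h2d R hR hz hC f hf δ a hv
  obtain ⟨v, hv⟩ := hv
  have h2d' : (2 : E) * (d : E) ≠ 0 := by
    have := h2d
    push_cast at this
    exact this
  have h2 : (2 : E) ≠ 0 := left_ne_zero_of_mul h2d'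
  have hdE : IsUnit (d : E) := (right_ne_zero_of_mul h2d').isUnit
  obtain ⟨-, hdz, hpr, hzp, -⟩ := hPSI (A := E) d hd hdE
  set D : LaurentSeries E → LaurentSeries E := fun x => cder δ x + zpol E d a * dz E d 1 x with hD
  have hDx : ∀ x, D x = cder δ x + zpol E d a * dz E d 1 x := fun _ => rfl
  have hadd : ∀ x y, D (x + y) = D x + D y := by
    intro x y
    rw [hDx, hDx, hDx, BPB.cder_add, map_add]
    ring
  have hmul : ∀ x y, D (x * y) = x * D y + y * D x := by
    intro x y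
    rw [hDx, hDx, hDx, BPB.cder_mul, hdz]
    ring
  have hdz1 : dz E d 1 (1 : LaurentSeries E) = 0 := BPB.d_one _ hdz
  have hDc : ∀ c : E, D (algebraMap E (LaurentSeries E) c) = algebraMap E (LaurentSeries E) (δ c) := by
    intro c
    rw [hDx, BPB.cder_algebraMap, Algebra.algebraMap_eq_smul_one c, map_smul, hdz1, smul_zero,
      mul_zero, add_zero]
  have hDp : ∀ p : E[X], D (zpol E d p) = zpol E d (pder δ p + a * derivative p) := by
    intro p
    rw [hDx, BPB.cder_zpol, hzp, map_add, map_mul]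
  have hDpr : ∀ x, D (pr0 E d x) = pr0 E d (D x) := by
    intro x
    rw [hDx, hDx, BPB.cder_pr0, hpr, map_add, pr0_zpol_mul]
  have hDz : D (zz E d) = zpol E d a := by
    have h1 := hDp X
    have h3 : zpol E d X = zz E d := by rw [zpol, aeval_X]
    rw [h3] at h1
    rw [h1]
    congr 1
    have h4 : pder δ (X : E[X]) = 0 := by
      rw [← monomial_one_one_eq_X, BPB.pder_monomial, Derivation.map_one_eq_zero, monomial_zero_right]
    rw [h4, derivative_X, mul_one, zero_add]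
  obtain ⟨e, G, he, hG, u, hu, hdet⟩ := hf
  have hmain : ∀ x ∈ R, D x ∈ R := by
    refine hBPD hd h2d R hR hz hC e G he hG D (fun x _ y _ => ?_) (fun x _ y _ => ?_) (fun c => ?_)
      ?_ (fun x hx => ?_) ?_
    · rw [hadd]
      have : D x + D y - D x - D y = 0 := by ring
      rw [this]
      exact zero_mem R
    · rw [hmul]
      have : x * D y + y * D x - x * D y - y * D x = 0 := by ring
      rw [this]
      exact zero_mem R
    · rw [hDc]
      exact R.algebraMap_mem _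
    · rw [hDz]
      exact BPB.zpol_mem hz a
    · obtain ⟨q, hq⟩ := (hZD1 E g d R hd hR e he x hx).2 hdE
      exact ⟨pder δ q + a * derivative q, by rw [← hDpr, hq, hDp]⟩
    · obtain ⟨u₀, hu₀, rfl⟩ := Polynomial.isUnit_iff.mp hu
      have hu₀' : u₀ ≠ 0 := hu₀.ne_zero
      set N : Matrix (Fin d) (Fin d) (LaurentSeries E) := fun i j => zpol E d (G i j) with hN
      have hNG : N = (zpol E d).mapMatrix G := rfl
      have h1 := BPB.d_gram D hadd hmul (fun x => pr0 E d x) (fun x y => map_add _ x y) hDpr e N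
        (fun i j => hG i j)
      have hadj : ∀ i j, N.adjugate i j = zpol E d (G.adjugate i j) := by
        intro i j
        rw [hNG, ← AlgHom.map_adjugate]
        rfl
      have hNdet : N.det = zpol E d G.det := by
        rw [hNG, ← AlgHom.map_det]
      have hfG : f = C u₀⁻¹ * G.det := by
        rw [hdet, ← mul_assoc, ← C_mul, inv_mul_cancel₀ hu₀', C_1, one_mul]
      have hDf : D (zpol E d f) = zpol E d (v * f) := by
        rw [hDp, hv]
      have h3 : D (zpol E d G.det) = zpol E d ((C (δ u₀ * u₀⁻¹) + v) * G.det) := by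
        have h4 : zpol E d G.det = algebraMap E (LaurentSeries E) u₀ * zpol E d f := by
          rw [hdet, map_mul, zpol, aeval_C]
        have h5 : ∀ c : E, algebraMap E (LaurentSeries E) c = zpol E d (C c) := by
          intro c
          rw [zpol, aeval_C]
        rw [h4, hmul, hDf, hDc, h5, h5, ← map_mul, ← map_mul, ← map_add]
        congr 1
        rw [hdet, C_mul]
        have h6 : (C u₀⁻¹ : E[X]) * C u₀ = 1 := by
          rw [← C_mul, inv_mul_cancel₀ hu₀', C_1]
        linear_combination (-(C (δ u₀) * f)) * h6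
      refine ⟨C (2⁻¹ : E) * (C (δ u₀ * u₀⁻¹) + v), ?_⟩
      have h7 : (2 : LaurentSeries E) * ∑ i, ∑ j, zpol E d (G.adjugate i j) * pr0 E d (e j * D (e i)) =
          zpol E d ((C (δ u₀ * u₀⁻¹) + v) * G.det) := by
        rw [← h3, ← hNdet, h1]
        congr 1
        refine Finset.sum_congr rfl fun i _ => Finset.sum_congr rfl fun j _ => ?_
        rw [hadj]
      have h8 : zpol E d (C (2⁻¹ : E)) * (2 : LaurentSeries E) = 1 := by
        have h9 : (2 : LaurentSeries E) = zpol E d (C (2 : E)) := by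
          rw [zpol, aeval_C]
          exact (map_ofNat (algebraMap E (LaurentSeries E)) 2).symm
        rw [h9, ← map_mul, ← C_mul, inv_mul_cancel₀ h2, C_1, map_one]
      rw [mul_assoc, map_mul, ← h7, ← mul_assoc, h8, one_mul]
  refine ⟨hmain, ?_⟩
  intro ha Γ n h hΓ hh hn m
  have h1 : cder δ h ∈ R := by
    have := hmain h hh.mem
    rw [hDx, ha, map_zero, zero_mul, add_zero] at this
    exact this
  have h2 : ∀ k : ℕ, k ∉ Γ → (0 - cder δ h).coeff (-(k : ℤ)) = 0 := by
    intro k hk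
    rw [HahnSeries.coeff_sub, cder_coeff, hh.co k hk, HahnSeries.coeff_zero]
    split_ifs
    · rw [Derivation.map_one_eq_zero, sub_zero]
    · rw [map_zero, sub_zero]
  have h3 : cder δ h = 0 := by
    obtain ⟨p, -, hp⟩ := hΓ.2 0
    rw [hp (cder δ h) ⟨h1, h2⟩]
    exact (hp 0 ⟨zero_mem R, fun k _ => by rw [sub_zero, HahnSeries.coeff_zero]⟩).symm
  rw [← cder_coeff, h3, HahnSeries.coeff_zero]

end Pool.Agent.MG.G0


end

section

/-!
# Gap sections, discriminants and translations of `z`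
-/

open Polynomial

namespace Pool.Agent.MG.G0

namespace PSK_

section

variable {A B : Type} [CommRing A] [CommRing B]

/-! ### Series with coefficients in an ideal -/

theorem mul_coeff_mem {I J : Ideal A} {f h : LaurentSeries A} (hf : ∀ m, f.coeff m ∈ I)
    (hh : ∀ m, h.coeff m ∈ J) (m : ℤ) : (f * h).coeff m ∈ I * J := by
  rw [HahnSeries.coeff_mul]
  exact Ideal.sum_mem _ fun ij _ => Ideal.mul_mem_mul (hf _) (hh _)

theorem pow_coeff_mem {J : Ideal A} {a : LaurentSeries A} (ha : ∀ m, a.coeff m ∈ J) (n : ℕ) :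
    ∀ m, (a ^ n).coeff m ∈ J ^ n := by
  induction n with
  | zero =>
    intro m
    rw [pow_zero, Ideal.one_eq_top]
    exact Submodule.mem_top
  | succ n ih =>
    intro m
    rw [pow_succ, pow_succ]
    exact mul_coeff_mem ih ha m

theorem nilp {J : Ideal A} (hJ : ∃ n : ℕ, J ^ n = ⊥) {a : LaurentSeries A}
    (ha : ∀ m, a.coeff m ∈ J) : IsNilpotent a := by
  obtain ⟨n, hn⟩ := hJ
  refine ⟨n, ?_⟩
  ext m
  have h := pow_coeff_mem ha n m
  rw [hn] at h
  rw [HahnSeries.coeff_zero]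
  exact h

/-! ### Gap sections -/

/-- Elements of `R` with the same coefficients outside of the gaps are equal. -/
theorem GS.eq_of {Γ : Finset ℕ} {R : Subalgebra A (LaurentSeries A)} (h : GS Γ R)
    {p q : LaurentSeries A} (hp : p ∈ R) (hq : q ∈ R)
    (hpq : ∀ n : ℕ, n ∉ Γ → p.coeff (-(n : ℤ)) = q.coeff (-(n : ℤ))) : p = q := by
  obtain ⟨r, -, hr⟩ := h.2 p
  have h1 := hr p ⟨hp, fun n _ => by rw [sub_self, HahnSeries.coeff_zero]⟩
  have h2 := hr q ⟨hq, fun n hn => by rw [HahnSeries.coeff_sub, hpq n hn, sub_self]⟩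
  rw [h1, h2]

/-- The element of `R` with given coefficients outside of the gaps. -/
theorem GS.exists_sum {Γ : Finset ℕ} {R : Subalgebra A (LaurentSeries A)} (h : GS Γ R) :
    ∃ e : ℕ → LaurentSeries A, (∀ n, e n ∈ R) ∧ ∀ f : LaurentSeries A, ∃ N : ℕ,
      (∀ n : ℕ, n ∉ Γ → (f - ∑ i ∈ Finset.range N \ Γ, f.coeff (-(i : ℤ)) • e i).coeff
        (-(n : ℤ)) = 0) := by
  choose e he _ using fun n => h.ech n
  refine ⟨e, fun n => (he n).mem, fun f => ?_⟩
  obtain ⟨N, hN⟩ := exists_low f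
  refine ⟨N + 1, fun n hn => ?_⟩
  rw [HahnSeries.coeff_sub, HahnSeries.coeff_sum]
  have h1 : ∀ i ∈ Finset.range (N + 1) \ Γ, (f.coeff (-(i : ℤ)) • e i).coeff (-(n : ℤ)) =
      if n = i then f.coeff (-(n : ℤ)) else 0 := by
    intro i _
    rw [HahnSeries.coeff_smul, (he i).co n hn, smul_eq_mul]
    split_ifs with h2
    · rw [mul_one, h2]
    · rw [mul_zero]
  rw [Finset.sum_congr rfl h1, Finset.sum_ite_eq]
  split_ifs with h2
  · rw [sub_self]
  · have h3 : N + 1 ≤ n := by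
      by_contra hc
      exact h2 (Finset.mem_sdiff.2 ⟨Finset.mem_range.2 (by omega), hn⟩)
    rw [hN _ (by omega), sub_zero]

theorem sum_mem_R {R : Subalgebra A (LaurentSeries A)} {e : ℕ → LaurentSeries A}
    (he : ∀ n, e n ∈ R) (S : Finset ℕ) (c : ℕ → A) : ∑ i ∈ S, c i • e i ∈ R :=
  Subalgebra.sum_mem _ fun i _ => R.smul_mem (he i) _

theorem sum_coeff_mem {I : Ideal A} {e : ℕ → LaurentSeries A} (S : Finset ℕ) (c : ℕ → A)
    (hc : ∀ i ∈ S, c i ∈ I) (m : ℤ) : (∑ i ∈ S, c i • e i).coeff m ∈ I := by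
  rw [HahnSeries.coeff_sum]
  refine Ideal.sum_mem _ fun i hi => ?_
  rw [HahnSeries.coeff_smul, smul_eq_mul]
  exact I.mul_mem_right _ (hc i hi)

/-- An `A`-linear map which is congruent to the identity modulo `J` on series with coefficients
in `J ^ i`. -/
theorem near_id {I J : Ideal A} (ψ : LaurentSeries A →ₗ[A] LaurentSeries A)
    (hψ : ∀ f m, (ψ f - f).coeff m ∈ J) {e : ℕ → LaurentSeries A} (S : Finset ℕ) (c : ℕ → A)
    (hc : ∀ i ∈ S, c i ∈ I) (m : ℤ) :
    (ψ (∑ i ∈ S, c i • e i) - ∑ i ∈ S, c i • e i).coeff m ∈ I * J := by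
  rw [map_sum, ← Finset.sum_sub_distrib, HahnSeries.coeff_sum]
  refine Ideal.sum_mem _ fun i hi => ?_
  rw [map_smul, ← smul_sub, HahnSeries.coeff_smul, smul_eq_mul]
  exact Ideal.mul_mem_mul (hc i hi) (hψ _ _)

theorem gs_map {J : Ideal A} (hJ : ∃ n : ℕ, J ^ n = ⊥)
    (ψ : LaurentSeries A →ₗ[A] LaurentSeries A) (hψ : ∀ f m, (ψ f - f).coeff m ∈ J)
    {Γ : Finset ℕ} {R R' : Subalgebra A (LaurentSeries A)}
    (hR' : ∀ x, x ∈ R' ↔ ∃ y ∈ R, x = ψ y) (h : GS Γ R) : GS Γ R' := by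
  obtain ⟨n₀, hn₀⟩ := hJ
  obtain ⟨e, he, hsum⟩ := GS.exists_sum h
  refine ⟨h.1, fun f => ?_⟩
  have hex : ∀ i : ℕ, ∃ y ∈ R, ∃ f' : LaurentSeries A, (∀ m, f'.coeff m ∈ J ^ i) ∧
      ∀ n : ℕ, n ∉ Γ → (f - ψ y - f').coeff (-(n : ℤ)) = 0 := by
    intro i
    induction i with
    | zero =>
      refine ⟨0, zero_mem R, f, fun m => ?_, fun n _ => ?_⟩
      · rw [pow_zero, Ideal.one_eq_top]
        exact Submodule.mem_top
      · rw [map_zero, sub_zero, sub_self, HahnSeries.coeff_zero]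
    | succ i ih =>
      obtain ⟨y, hy, f', hf', hn⟩ := ih
      obtain ⟨N, hN⟩ := hsum f'
      set p := ∑ i ∈ Finset.range N \ Γ, f'.coeff (-(i : ℤ)) • e i with hp
      refine ⟨y + p, add_mem hy (sum_mem_R he _ _), -(ψ p - p), fun m => ?_, fun n hnΓ => ?_⟩
      · rw [HahnSeries.coeff_neg, pow_succ]
        exact neg_mem (near_id ψ hψ _ _ (fun i _ => hf' _) m)
      · have h1 : f - ψ (y + p) - -(ψ p - p) = (f - ψ y - f') + (f' - p) := by
          rw [map_add]
          abel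
        rw [h1, HahnSeries.coeff_add, hn n hnΓ, hN n hnΓ, add_zero]
  have huni : ∀ y ∈ R, (∀ n : ℕ, n ∉ Γ → (ψ y).coeff (-(n : ℤ)) = 0) → y = 0 := by
    intro y hy hyn
    have key : ∀ i : ℕ, ∀ m, y.coeff m ∈ J ^ i := by
      intro i
      induction i with
      | zero =>
        intro m
        rw [pow_zero, Ideal.one_eq_top]
        exact Submodule.mem_top
      | succ i ih =>
        obtain ⟨N, hN⟩ := hsum y
        have hyp : y = ∑ i ∈ Finset.range N \ Γ, y.coeff (-(i : ℤ)) • e i := by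
          refine GS.eq_of h hy (sum_mem_R he _ _) fun n hn => ?_
          have h1 := hN n hn
          rw [HahnSeries.coeff_sub, sub_eq_zero] at h1
          exact h1
        have h2 : ∀ n : ℕ, n ∉ Γ → y.coeff (-(n : ℤ)) ∈ J ^ (i + 1) := by
          intro n hn
          have h3 := near_id (I := J ^ i) ψ hψ (e := e) (Finset.range N \ Γ)
            (fun i => y.coeff (-(i : ℤ))) (fun j _ => ih _) (-(n : ℤ))
          rw [← hyp, HahnSeries.coeff_sub, hyn n hn, zero_sub, ← pow_succ] at h3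
          exact neg_mem_iff.1 h3
        intro m
        rw [hyp]
        refine sum_coeff_mem _ _ (fun j hj => h2 j ?_) m
        exact (Finset.mem_sdiff.1 hj).2
    ext m
    have h1 := key n₀ m
    rw [hn₀] at h1
    rw [HahnSeries.coeff_zero]
    exact h1
  obtain ⟨y, hy, f', hf', hn⟩ := hex n₀
  have hf0 : f' = 0 := by
    ext m
    have h1 := hf' m
    rw [hn₀] at h1
    rw [HahnSeries.coeff_zero]
    exact h1
  rw [hf0] at hn
  refine ⟨ψ y, ⟨(hR' _).2 ⟨y, hy, rfl⟩, fun n hnΓ => ?_⟩, ?_⟩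
  · have h1 := hn n hnΓ
    rwa [sub_zero] at h1
  · rintro q ⟨hq, hqn⟩
    obtain ⟨y', hy', rfl⟩ := (hR' _).1 hq
    have h1 : y' - y = 0 := by
      refine huni _ (sub_mem hy' hy) fun n hnΓ => ?_
      have h2 := hn n hnΓ
      have h3 := hqn n hnΓ
      rw [sub_zero, HahnSeries.coeff_sub, sub_eq_zero] at h2
      rw [HahnSeries.coeff_sub, sub_eq_zero] at h3
      rw [map_sub, HahnSeries.coeff_sub, ← h2, ← h3, sub_self]
    rw [sub_eq_zero.1 h1]

/-! ### The translation as a homomorphism -/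

/-- The translation as an algebra homomorphism. -/
noncomputable def psiA (d : ℕ) (a : LaurentSeries A) (h1 : psi d a 1 = 1)
    (hm : ∀ f h, psi d a (f * h) = psi d a f * psi d a h) :
    LaurentSeries A →ₐ[A] LaurentSeries A :=
  AlgHom.ofLinearMap (psi d a) h1 hm

theorem psiA_apply (d : ℕ) (a : LaurentSeries A) (h1 : psi d a 1 = 1)
    (hm : ∀ f h, psi d a (f * h) = psi d a f * psi d a h) (f : LaurentSeries A) :
    psiA d a h1 hm f = psi d a f := rfl

theorem psiR_eq (d : ℕ) (a : LaurentSeries A) (h1 : psi d a 1 = 1)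
    (hm : ∀ f h, psi d a (f * h) = psi d a f * psi d a h) (R : Subalgebra A (LaurentSeries A)) :
    psiR d a R = R.map (psiA d a h1 hm) := by
  apply le_antisymm
  · refine Algebra.adjoin_le ?_
    rintro _ ⟨y, hy, rfl⟩
    exact Subalgebra.mem_map.2 ⟨y, hy, rfl⟩
  · intro x hx
    obtain ⟨y, hy, hyx⟩ := Subalgebra.mem_map.1 hx
    exact Algebra.subset_adjoin ⟨y, hy, hyx⟩

theorem mem_psiR (d : ℕ) (a : LaurentSeries A) (h1 : psi d a 1 = 1)
    (hm : ∀ f h, psi d a (f * h) = psi d a f * psi d a h) (R : Subalgebra A (LaurentSeries A))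
    (x : LaurentSeries A) : x ∈ psiR d a R ↔ ∃ y ∈ R, x = psi d a y := by
  rw [psiR_eq d a h1 hm, Subalgebra.mem_map]
  exact ⟨fun ⟨y, hy, h⟩ => ⟨y, hy, h.symm⟩, fun ⟨y, hy, h⟩ => ⟨y, hy, h.symm⟩⟩

/-- Base change of the image: generators. -/
theorem bc1_psiR (d : ℕ) (a : LaurentSeries A) (h1 : psi d a 1 = 1)
    (hm : ∀ f h, psi d a (f * h) = psi d a f * psi d a h) (φ : A →+* B)
    (R : Subalgebra A (LaurentSeries A)) :
    bc1 φ (psiR d a R) = Algebra.adjoin B ((fun y => lmap φ (psi d a y)) ''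
      (R : Set (LaurentSeries A))) := by
  unfold bc1
  congr 1
  ext x
  constructor
  · rintro ⟨z, hz, rfl⟩
    obtain ⟨y, hy, rfl⟩ := (mem_psiR d a h1 hm R z).1 hz
    exact ⟨y, hy, rfl⟩
  · rintro ⟨y, hy, rfl⟩
    exact ⟨psi d a y, (mem_psiR d a h1 hm R _).2 ⟨y, hy, rfl⟩, rfl⟩

/-! ### Translations of polynomials -/

/-- `p ↦ p(X + α)`. -/
noncomputable def TA (α : A[X]) : A[X] →ₐ[A] A[X] := Polynomial.aeval (X + α)

theorem TA_apply (α p : A[X]) : TA α p = p.comp (X + α) := by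
  rw [TA, Polynomial.aeval_def, Polynomial.comp, Polynomial.algebraMap_eq]

theorem TA_X (α : A[X]) : TA α X = X + α := by
  rw [TA, Polynomial.aeval_X]

theorem pol_coeff_mul {J : Ideal A} (p q : A[X]) (hp : ∀ i, p.coeff i ∈ J) :
    ∀ i, (p * q).coeff i ∈ J := by
  intro i
  rw [Polynomial.coeff_mul]
  exact Ideal.sum_mem _ fun x _ => J.mul_mem_right _ (hp _)

theorem TA_sub {J : Ideal A} {α : A[X]} (hα : ∀ i, α.coeff i ∈ J) (p : A[X]) :
    ∀ i, (TA α p - p).coeff i ∈ J := by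
  induction p using Polynomial.induction_on' with
  | add p q hp hq =>
    intro i
    have h1 : TA α (p + q) - (p + q) = (TA α p - p) + (TA α q - q) := by
      rw [map_add]
      ring
    rw [h1, Polynomial.coeff_add]
    exact add_mem (hp i) (hq i)
  | monomial n c =>
    intro i
    have h1 : TA α (monomial n c) - monomial n c = C c * ((X + α) ^ n - X ^ n) := by
      rw [TA, Polynomial.aeval_monomial, ← Polynomial.C_mul_X_pow_eq_monomial,
        Polynomial.algebraMap_eq]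
      ring
    obtain ⟨q, hq⟩ : (X + α) - X ∣ (X + α) ^ n - X ^ n := sub_dvd_pow_sub_pow _ _ n
    have h2 : (X + α) - X = α := by ring
    rw [h2] at hq
    rw [h1, hq, Polynomial.coeff_C_mul]
    exact J.mul_mem_left _ (pol_coeff_mul α q hα i)

theorem TA_near {I J : Ideal A} {α : A[X]} (hα : ∀ i, α.coeff i ∈ J) (p : A[X])
    (hp : ∀ i, p.coeff i ∈ I) : ∀ i, (TA α p - p).coeff i ∈ I * J := by
  intro i
  have h1 : TA α p - p = ∑ n ∈ p.support, p.coeff n • (TA α (X ^ n) - X ^ n) := by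
    conv_lhs => rw [p.as_sum_support]
    rw [map_sum, ← Finset.sum_sub_distrib]
    refine Finset.sum_congr rfl fun n _ => ?_
    have h2 : (monomial n (p.coeff n) : A[X]) = p.coeff n • X ^ n := by
      rw [Polynomial.smul_X_eq_monomial]
    rw [h2, map_smul, smul_sub]
  rw [h1, Polynomial.finsetSum_coeff]
  refine Ideal.sum_mem _ fun n _ => ?_
  rw [Polynomial.coeff_smul, smul_eq_mul]
  exact Ideal.mul_mem_mul (hp n) (TA_sub hα _ i)

theorem TA_bij {J : Ideal A} (hJ : ∃ n : ℕ, J ^ n = ⊥) {α : A[X]} (hα : ∀ i, α.coeff i ∈ J) :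
    Function.Bijective (TA α) := by
  obtain ⟨n₀, hn₀⟩ := hJ
  constructor
  · rw [injective_iff_map_eq_zero]
    intro p hp
    have key : ∀ i : ℕ, ∀ j, p.coeff j ∈ J ^ i := by
      intro i
      induction i with
      | zero =>
        intro j
        rw [pow_zero, Ideal.one_eq_top]
        exact Submodule.mem_top
      | succ i ih =>
        intro j
        have h1 := TA_near hα p ih j
        rw [hp, zero_sub, Polynomial.coeff_neg, ← pow_succ] at h1
        exact neg_mem_iff.1 h1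
    ext j
    have h1 := key n₀ j
    rw [hn₀] at h1
    rw [Polynomial.coeff_zero]
    exact h1
  · intro p
    have key : ∀ i : ℕ, ∃ q : A[X], ∀ j, (p - TA α q).coeff j ∈ J ^ i := by
      intro i
      induction i with
      | zero =>
        refine ⟨0, fun j => ?_⟩
        rw [pow_zero, Ideal.one_eq_top]
        exact Submodule.mem_top
      | succ i ih =>
        obtain ⟨q, hq⟩ := ih
        refine ⟨q + (p - TA α q), fun j => ?_⟩
        have h1 := TA_near hα (p - TA α q) hq j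
        have h2 : p - TA α (q + (p - TA α q)) = -(TA α (p - TA α q) - (p - TA α q)) := by
          rw [map_add]
          ring
        rw [h2, Polynomial.coeff_neg, pow_succ]
        exact neg_mem h1
    obtain ⟨q, hq⟩ := key n₀
    refine ⟨q, ?_⟩
    have h1 : p - TA α q = 0 := by
      ext j
      have h2 := hq j
      rw [hn₀] at h2
      rw [Polynomial.coeff_zero]
      exact h2
    exact (sub_eq_zero.1 h1).symm

theorem zpol_coeff_mem {J : Ideal A} (d : ℕ) {α : A[X]} (hα : ∀ i, α.coeff i ∈ J) (m : ℤ) :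
    (zpol A d α).coeff m ∈ J := by
  have h1 : zpol A d α = ∑ n ∈ α.support, α.coeff n • zz A d ^ n := by
    rw [zpol, Polynomial.aeval_eq_sum_range]
    rw [Finset.sum_subset (Polynomial.supp_subset_range_natDegree_succ (p := α)) ?_]
    intro n _ hn
    rw [Polynomial.notMem_support_iff.1 hn, zero_smul]
  rw [h1, HahnSeries.coeff_sum]
  refine Ideal.sum_mem _ fun n _ => ?_
  rw [HahnSeries.coeff_smul, smul_eq_mul]
  exact J.mul_mem_right _ (hα n)

theorem pr0_one (d : ℕ) : pr0 A d 1 = 1 := by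
  ext m
  rw [pr0_coeff, HahnSeries.coeff_one]
  split_ifs with h1 h2 h3
  · rfl
  · rfl
  · rw [h3] at h1
    exact absurd (dvd_zero _) h1
  · rfl

theorem pr0_zpol (d : ℕ) (p : A[X]) : pr0 A d (zpol A d p) = zpol A d p := by
  have h1 := pr0_zpol_mul (A := A) d p 1
  rw [mul_one, pr0_one, mul_one] at h1
  exact h1

/-- Discriminants. -/
theorem disc_map {d : ℕ} {J : Ideal A} (hJ : ∃ n : ℕ, J ^ n = ⊥) {α : A[X]}
    (hα : ∀ i, α.coeff i ∈ J) (ψ : LaurentSeries A →ₐ[A] LaurentSeries A)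
    (hz : ψ (zz A d) = zz A d + zpol A d α) (hinj : Function.Injective ψ)
    (hpr : ∀ f, pr0 A d (ψ f) = ψ (pr0 A d f)) (R : Subalgebra A (LaurentSeries A))
    (hR : zz A d ∈ R) :
    zz A d ∈ R.map ψ ∧ ∀ f : A[X], Disc d R f → Disc d (R.map ψ) (f.comp (X + α)) := by
  have hψz : ∀ p : A[X], ψ (zpol A d p) = zpol A d (TA α p) := by
    intro p
    have h1 : ψ.comp (zpol A d) = (zpol A d).comp (TA α) := by
      apply Polynomial.algHom_ext
      rw [AlgHom.comp_apply, AlgHom.comp_apply, TA_X, map_add, zpol, Polynomial.aeval_X, hz]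
      rfl
    exact congrArg (fun F => F p) h1
  have hzp : ∀ p : A[X], zpol A d p ∈ R := by
    intro p
    rw [zpol]
    exact (Algebra.adjoin_le (Set.singleton_subset_iff.2 hR))
      (Polynomial.aeval_mem_adjoin_singleton A (zz A d))
  obtain ⟨hTi, hTs⟩ := TA_bij hJ hα
  constructor
  · obtain ⟨q, hq⟩ := hTs X
    refine Subalgebra.mem_map.2 ⟨zpol A d q, hzp q, ?_⟩
    have h1 := hψz q
    rw [hq, zpol, Polynomial.aeval_X] at h1
    exact h1
  · rintro f ⟨e, G, he, hG, u, hu, hdet⟩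
    refine ⟨fun i => ψ (e i), G.map (TA α), ⟨fun i => Subalgebra.mem_map.2 ⟨e i, he.mem i, rfl⟩, ?_⟩,
      ?_, TA α u, hu.map (TA α), ?_⟩
    · intro x hx
      obtain ⟨y, hy, hyx⟩ := Subalgebra.mem_map.1 hx
      obtain ⟨c, hc, hcu⟩ := he.uni y hy
      refine ⟨fun i => TA α (c i), ?_, ?_⟩
      · change x = ∑ i, zpol A d (TA α (c i)) * ψ (e i)
        have hyx' : ψ y = x := hyx
        rw [← hyx', hc, map_sum]
        refine Finset.sum_congr rfl fun i _ => ?_
        rw [map_mul, hψz]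
      · intro c' hc'
        choose b hb using fun i => hTs (c' i)
        have h1 : x = ψ (∑ i, zpol A d (b i) * e i) := by
          rw [map_sum]
          rw [hc']
          refine Finset.sum_congr rfl fun i _ => ?_
          rw [map_mul, hψz, hb]
        have h2 : y = ∑ i, zpol A d (b i) * e i := by
          apply hinj
          rw [← h1]
          exact hyx
        have h3 := hcu b h2
        funext i
        rw [← hb i, h3]
    · intro i j
      rw [Matrix.map_apply, ← hψz, hG i j, ← hpr, map_mul]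
    · have h1 : (G.map (TA α)).det = TA α G.det := by
        have := (TA α).map_det G
        rw [this]
        rfl
      rw [h1, hdet, map_mul, TA_apply α f]

end

end PSK_

open _root_.Pool.Agent.MG.G0.PSK_ in
theorem t_PSK (hPSI : Stmt_PSI) : Stmt_PSK := by
  intro A _ d hd hdu J hJ
  obtain ⟨-, -, -, -, h5⟩ := hPSI d hd hdu
  constructor
  · intro a ha
    have hnil := nilp hJ ha
    obtain ⟨hmul, hone, hzz, hbij, hcoef, hpr, hbc, -⟩ := h5 a hnil
    refine ⟨hnil, fun R => ⟨mem_psiR d a hone hmul R, fun Γ hΓ => ?_, ?_, ?_⟩⟩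
    · exact gs_map hJ (psi d a) (hcoef J ha) (mem_psiR d a hone hmul R) hΓ
    · intro B _ φ
      have hdB : IsUnit ((d : ℕ) : B) := by
        have := hdu.map φ
        rwa [map_natCast] at this
      obtain ⟨-, -, -, -, h5B⟩ := hPSI (A := B) d hd hdB
      obtain ⟨hmulB, honeB, -⟩ := h5B (lmap φ a) (hnil.map (lmap φ))
      rw [bc1_psiR d a hone hmul, psiR_eq d (lmap φ a) honeB hmulB]
      unfold bc1
      rw [AlgHom.map_adjoin, ← Set.image_comp]
      congr 1
      ext x
      constructor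
      · rintro ⟨y, hy, rfl⟩
        exact ⟨y, hy, (hbc φ y).symm⟩
      · rintro ⟨y, hy, rfl⟩
        exact ⟨y, hy, hbc φ y⟩
    · intro B _ φ hφ
      rw [bc1_psiR d a hone hmul]
      unfold bc1
      congr 1
      have h1 : ∀ y, lmap φ (psi d a y) = lmap φ y := by
        intro y
        ext m
        rw [lmap_coeff, lmap_coeff]
        have h2 := hφ _ (hcoef J ha y m)
        rw [HahnSeries.coeff_sub, map_sub, sub_eq_zero] at h2
        exact h2
      ext x
      constructor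
      · rintro ⟨y, hy, rfl⟩
        exact ⟨y, hy, (h1 y).symm⟩
      · rintro ⟨y, hy, rfl⟩
        exact ⟨y, hy, h1 y⟩
  · intro α hα R hR
    have ha : ∀ m, (zpol A d α).coeff m ∈ J := zpol_coeff_mem d hα
    have hnil := nilp hJ ha
    obtain ⟨hmul, hone, hzz, hbij, hcoef, hpr, hbc, -⟩ := h5 (zpol A d α) hnil
    rw [psiR_eq d (zpol A d α) hone hmul]
    exact disc_map hJ hα (psiA d (zpol A d α) hone hmul) hzz hbij.1
      (hpr (pr0_zpol d α)) R hR

end Pool.Agent.MG.G0


end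

section

/-!
# Limits of gap sections over `k[[t]]/tᵐ` (ZBL)
-/

open Polynomial IsLocalRing

namespace Pool.Agent.MG.G0

namespace ZBL

variable {k : Type} [Field k]

theorem tmk_surj (m : ℕ) : Function.Surjective (tmk k m) := Ideal.Quotient.mk_surjective

theorem tmk_eq {m : ℕ} {a b : PowerSeries k} :
    tmk k m a = tmk k m b ↔ ∀ i < m, PowerSeries.coeff i a = PowerSeries.coeff i b := by
  rw [tmk, Ideal.Quotient.eq, Ideal.mem_span_singleton, PowerSeries.X_pow_dvd_iff]
  refine forall_congr' fun i => forall_congr' fun _ => ?_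
  rw [map_sub, sub_eq_zero]

theorem tmk_mono {m n : ℕ} (h : m ≤ n) {a b : PowerSeries k} (e : tmk k n a = tmk k n b) :
    tmk k m a = tmk k m b :=
  tmk_eq.2 fun i hi => tmk_eq.1 e i (hi.trans_le h)

/-- Lifts of Laurent series along a surjection. -/
theorem exists_lift {A B : Type} [CommRing A] [CommRing B] (φ : A →+* B)
    (hφ : Function.Surjective φ) (x : LaurentSeries B) : ∃ y : LaurentSeries A, lmap φ y = x := by
  classical
  choose g hg using hφ
  refine ⟨{ coeff := fun n => if x.coeff n = 0 then 0 else g (x.coeff n)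
            isPWO_support' := x.isPWO_support.mono fun n hn h0 => hn (if_pos h0) }, ?_⟩
  ext n
  rw [lmap_coeff]
  change φ (if x.coeff n = 0 then 0 else g (x.coeff n)) = x.coeff n
  split_ifs with h
  · rw [map_zero, h]
  · exact hg _

/-- The limit of the subalgebras. -/
noncomputable def QQ (P : ∀ m, Subalgebra (Tr k m) (LaurentSeries (Tr k m))) :
    Subalgebra (PowerSeries k) (LaurentSeries (PowerSeries k)) where
  carrier := {x | ∀ m, lmap (tmk k m) x ∈ P m}
  mul_mem' := fun {x y} hx hy m => by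
    rw [map_mul]
    exact mul_mem (hx m) (hy m)
  add_mem' := fun {x y} hx hy m => by
    rw [map_add]
    exact add_mem (hx m) (hy m)
  algebraMap_mem' a m := by
    rw [lmap_algebraMap]
    exact (P m).algebraMap_mem _

theorem mem_QQ {P : ∀ m, Subalgebra (Tr k m) (LaurentSeries (Tr k m))}
    {x : LaurentSeries (PowerSeries k)} : x ∈ QQ P ↔ ∀ m, lmap (tmk k m) x ∈ P m := Iff.rfl

variable {Γ : Finset ℕ} {P : ∀ m, Subalgebra (Tr k m) (LaurentSeries (Tr k m))}

theorem gs_uniq {A : Type} [CommRing A] {R : Subalgebra A (LaurentSeries A)} (h : GS Γ R)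
    {x y : LaurentSeries A} (hx : x ∈ R) (hy : y ∈ R)
    (e : ∀ n : ℕ, n ∉ Γ → x.coeff (-(n : ℤ)) = y.coeff (-(n : ℤ))) : x = y := by
  obtain ⟨p, _, hu⟩ := h.2 x
  rw [hu x ⟨hx, fun n _ => by rw [sub_self, HahnSeries.coeff_zero]⟩,
    hu y ⟨hy, fun n hn => by rw [HahnSeries.coeff_sub, e n hn, sub_self]⟩]

theorem eq_of_all {x y : PowerSeries k} (h : ∀ m, tmk k m x = tmk k m y) : x = y := by
  ext i
  exact tmk_eq.1 (h (i + 1)) i (Nat.lt_succ_self i)

/-- The limit of a compatible sequence of elements. -/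
theorem exists_limit (hP : ∀ m, GS Γ (P m))
    (hc : ∀ (m : ℕ) (x : LaurentSeries (PowerSeries k)),
      lmap (tmk k (m + 1)) x ∈ P (m + 1) → lmap (tmk k m) x ∈ P m)
    (f : LaurentSeries (PowerSeries k)) :
    ∃ p ∈ QQ P, ∀ n : ℕ, n ∉ Γ → (f - p).coeff (-(n : ℤ)) = 0 := by
  classical
  choose p hp _ using fun m => (hP m).2 (lmap (tmk k m) f)
  choose L hL using fun m => exists_lift (tmk k m) (tmk_surj m) (p m)
  have hgap : ∀ m (n : ℕ), n ∉ Γ →
      tmk k m ((L m).coeff (-(n : ℤ))) = tmk k m (f.coeff (-(n : ℤ))) := by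
    intro m n hn
    have h1 := (hp m).2 n hn
    rw [HahnSeries.coeff_sub, ← hL m, lmap_coeff, lmap_coeff, sub_eq_zero] at h1
    exact h1.symm
  have hstep : ∀ m (j : ℤ), tmk k m ((L (m + 1)).coeff j) = tmk k m ((L m).coeff j) := by
    intro m j
    have h1 : lmap (tmk k m) (L (m + 1)) ∈ P m := hc m _ (by rw [hL]; exact (hp (m + 1)).1)
    have h2 : lmap (tmk k m) (L m) ∈ P m := by rw [hL]; exact (hp m).1
    have h3 := gs_uniq (hP m) h1 h2 fun n hn => by
      rw [lmap_coeff, lmap_coeff, hgap m n hn]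
      exact tmk_mono (Nat.le_succ m) (hgap (m + 1) n hn)
    have h4 := congrArg (fun x : LaurentSeries (Tr k m) => x.coeff j) h3
    exact h4
  have hmono : ∀ m l (j : ℤ), tmk k m ((L (m + l)).coeff j) = tmk k m ((L m).coeff j) := by
    intro m l j
    induction l with
    | zero => rfl
    | succ l ih =>
      rw [← ih]
      exact tmk_mono (Nat.le_add_right m l) (hstep (m + l) j)
  let c : ℤ → PowerSeries k := fun j => PowerSeries.mk fun i =>
    PowerSeries.coeff i ((L (i + 1)).coeff j)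
  have hcm : ∀ m (j : ℤ), tmk k m (c j) = tmk k m ((L m).coeff j) := by
    intro m j
    rw [tmk_eq]
    intro i hi
    obtain ⟨l, rfl⟩ : ∃ l, m = (i + 1) + l := ⟨m - (i + 1), by omega⟩
    change PowerSeries.coeff i (PowerSeries.mk fun i =>
      PowerSeries.coeff i ((L (i + 1)).coeff j)) = _
    rw [PowerSeries.coeff_mk]
    exact (tmk_eq.1 (hmono (i + 1) l j) i (Nat.lt_succ_self i)).symm
  have hcg : ∀ n : ℕ, n ∉ Γ → c (-(n : ℤ)) = f.coeff (-(n : ℤ)) := by
    intro n hn
    refine eq_of_all fun m => ?_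
    rw [hcm, hgap m n hn]
  obtain ⟨N, hN⟩ := exists_low f
  have hbdd : BddBelow (Function.support c) := by
    refine ⟨-((N : ℤ) + (Γ.sup id : ℕ) + 1), fun j hj => ?_⟩
    by_contra hlt
    push Not at hlt
    obtain ⟨n, rfl⟩ : ∃ n : ℕ, j = -(n : ℤ) := ⟨(-j).toNat, by omega⟩
    apply hj
    have hn : n ∉ Γ := by
      intro hmem
      have : n ≤ Γ.sup id := Finset.le_sup (f := id) hmem
      omega
    rw [hcg n hn]
    exact hN _ (by omega)
  let q : LaurentSeries (PowerSeries k) := HahnSeries.ofSuppBddBelow c hbdd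
  have hq : ∀ j, q.coeff j = c j := fun _ => rfl
  refine ⟨q, fun m => ?_, fun n hn => ?_⟩
  · have h1 : lmap (tmk k m) q = p m := by
      ext j
      rw [lmap_coeff, hq, hcm, ← hL m, lmap_coeff]
    rw [h1]
    exact (hp m).1
  · rw [HahnSeries.coeff_sub, hq, hcg n hn, sub_self]

end ZBL

theorem t_ZBL : Stmt_ZBL := by
  intro k _ Γ P hP hc
  have hu : ∀ x ∈ ZBL.QQ P, ∀ y ∈ ZBL.QQ P,
      (∀ n : ℕ, n ∉ Γ → x.coeff (-(n : ℤ)) = y.coeff (-(n : ℤ))) → x = y := by
    intro x hx y hy e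
    ext j
    refine congrArg _ (ZBL.eq_of_all fun m => ?_)
    have h := ZBL.gs_uniq (hP m) (hx m) (hy m) fun n hn => by
      rw [lmap_coeff, lmap_coeff, e n hn]
    have h4 := congrArg (fun x : LaurentSeries (Tr k m) => x.coeff j) h
    exact h4
  refine ⟨ZBL.QQ P, ⟨(hP 0).1, fun f => ?_⟩, fun x => ZBL.mem_QQ, fun m => ?_⟩
  · obtain ⟨p, hp, hn⟩ := ZBL.exists_limit hP hc f
    refine ⟨p, ⟨hp, hn⟩, fun y hy => hu y hy.1 p hp fun n h => ?_⟩
    have h1 := hn n h
    have h2 := hy.2 n h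
    rw [HahnSeries.coeff_sub, sub_eq_zero] at h1 h2
    rw [← h1, ← h2]
  · apply le_antisymm
    · refine Algebra.adjoin_le ?_
      rintro _ ⟨x, hx, rfl⟩
      exact hx m
    · intro x hx
      obtain ⟨f, hf⟩ := ZBL.exists_lift (tmk k m) (ZBL.tmk_surj m) x
      obtain ⟨p, hp, hn⟩ := ZBL.exists_limit hP hc f
      have h1 : x = lmap (tmk k m) p := by
        refine ZBL.gs_uniq (hP m) hx (hp m) fun n h => ?_
        have h1 := hn n h
        rw [HahnSeries.coeff_sub, sub_eq_zero] at h1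
        rw [← hf, lmap_coeff, lmap_coeff, h1]
      rw [h1]
      exact Algebra.subset_adjoin ⟨p, hp, rfl⟩

end Pool.Agent.MG.G0


end
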