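import Mathlib
import Pool.Agent.KDM.C02
import Pool.Agent.KDM.C07

/-! Parts: MG.AffLem, MG.AFF, MG.SqzLem, MG.SQZ, MG.CLS, MG.GEN, MG.MVV, MG.G0.Ultra, MG.G0.StmtsU, MG.G0.TRZ, MG.G0.UKR -/

section

/-!
# Affine opens of a thickening
-/

open CategoryTheory CategoryTheory.Limits AlgebraicGeometry TensorProduct

namespace Pool.Agent.MG

namespace AffLem

section

variable {n : ℕ} {B E J : Type} [CommRing B] [CommRing E] [Fintype J] {S : SqE B E J}
  {x : Fam n B} (t : Thk S x)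

/-- Reduction of functions is surjective over affine opens. -/
theorem sur (U : x.X.Opens) (h : IsAffineOpen (t.op U)) : Function.Surjective (t.q U) := by
  intro b
  have h1 := t.r.f.app_surjective (t.op U) h
  obtain ⟨a, ha⟩ := h1 (x.X.presheaf.map (homOfLE (t.pre U).le).op b)
  refine ⟨a, ?_⟩
  have h2 : t.q U a = (x.X.presheaf.map (homOfLE (t.pre U).ge).op).hom (t.r.f.app (t.op U) a) := by
    rfl
  rw [h2, ha]
  change (x.X.presheaf.map (homOfLE (t.pre U).le).op ≫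
    x.X.presheaf.map (homOfLE (t.pre U).ge).op) b = b
  rw [← Functor.map_comp, ← op_comp]
  have : homOfLE (t.pre U).ge ≫ homOfLE (t.pre U).le = 𝟙 U := rfl
  rw [this, op_id, CategoryTheory.Functor.map_id]
  rfl

theorem isPushout (U : x.X.Opens) (h : IsAffineOpen (t.op U)) :
    IsPushout (t.y.π.appLE ⊤ (t.op U) le_top) ((spMap S.p).appLE ⊤ ⊤ le_top)
      (t.r.f.appLE (t.op U) U (t.pre U).ge) (x.π.appLE ⊤ U le_top) := by
  have hU : U = t.r.f ⁻¹ᵁ (t.op U) ⊓ x.π ⁻¹ᵁ ⊤ := by rw [t.pre]; simp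
  exact (isIso_pushoutSection_iff t.r.cart (US := ⊤) (UT := ⊤) (UX := t.op U) le_top le_top
    hU).1 (isIso_pushoutSection_of_isAffineOpen _ _ _ _ (isAffineOpen_top _)
      (isAffineOpen_top _) h)

/-- The ideal generated by the kernel of `p`. -/
theorem ker_span (U : x.X.Opens) (h : IsAffineOpen (t.op U)) (v : Γ(t.y.X, t.op U))
    (hv : t.q U v = 0) : v ∈ Ideal.map (coef t.y.π (t.op U)) (RingHom.ker S.p) := by
  set I := Ideal.map (coef t.y.π (t.op U)) (RingHom.ker S.p) with hI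
  have H := isPushout t U h
  let a : Γ(t.y.X, t.op U) ⟶ CommRingCat.of (Γ(t.y.X, t.op U) ⧸ I) :=
    CommRingCat.ofHom (Ideal.Quotient.mk I)
  let b : Γ(Sp B, ⊤) ⟶ CommRingCat.of (Γ(t.y.X, t.op U) ⧸ I) :=
    (Scheme.ΓSpecIso (CommRingCat.of B)).hom ≫
      CommRingCat.ofHom ((Ideal.Quotient.mk I).comp ((coef t.y.π (t.op U)).comp S.i))
  have hab : t.y.π.appLE ⊤ (t.op U) le_top ≫ a = (spMap S.p).appLE ⊤ ⊤ le_top ≫ b := by
    rw [← Iso.cancel_iso_inv_left (Scheme.ΓSpecIso (CommRingCat.of E))]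
    ext e
    have h1 : ((Scheme.ΓSpecIso (CommRingCat.of E)).inv ≫ t.y.π.appLE ⊤ (t.op U) le_top ≫ a) e =
        Ideal.Quotient.mk I (coef t.y.π (t.op U) e) := rfl
    have h2 : ((Scheme.ΓSpecIso (CommRingCat.of E)).inv ≫
        (spMap S.p).appLE ⊤ ⊤ le_top ≫ b) e =
        Ideal.Quotient.mk I (coef t.y.π (t.op U) (S.i (S.p e))) := by
      have h3 : (Scheme.ΓSpecIso (CommRingCat.of E)).inv ≫ (spMap S.p).appTop =
        CommRingCat.ofHom S.p ≫ (Scheme.ΓSpecIso (CommRingCat.of B)).inv :=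
        (Scheme.ΓSpecIso_inv_naturality (CommRingCat.ofHom S.p)).symm
      have h4 : (spMap S.p).appLE ⊤ ⊤ le_top = (spMap S.p).appTop :=
        Scheme.Hom.appLE_eq_app _
      rw [h4, reassoc_of% h3]
      change ((CommRingCat.ofHom S.p ≫ (Scheme.ΓSpecIso (CommRingCat.of B)).inv ≫
        (Scheme.ΓSpecIso (CommRingCat.of B)).hom ≫ _) : _ ⟶ _) e = _
      rw [Iso.inv_hom_id_assoc]
      rfl
    refine h1.trans (Eq.trans ?_ h2.symm)
    rw [Ideal.Quotient.eq, ← map_sub]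
    refine Ideal.mem_map_of_mem _ ?_
    rw [RingHom.mem_ker, map_sub, S.pi, sub_self]
  have h1 : Ideal.Quotient.mk I v = 0 := by
    have h2 : a v = H.desc a b hab (t.r.f.appLE (t.op U) U (t.pre U).ge v) := by
      have := H.inl_desc a b hab
      exact (ConcreteCategory.congr_hom this v).symm
    have h3 : t.r.f.appLE (t.op U) U (t.pre U).ge v = 0 := hv
    rw [h3, map_zero] at h2
    exact h2
  exact Ideal.Quotient.eq_zero_iff_mem.1 h1

theorem ker (U : x.X.Opens) (h : IsAffineOpen (t.op U)) (v : Γ(t.y.X, t.op U))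
    (hv : t.q U v = 0) : ∃ w : J → Γ(t.y.X, t.op U),
      v = ∑ j, coef t.y.π (t.op U) (S.ε j) * w j := by
  have h1 := ker_span t U h v hv
  unfold Ideal.map at h1
  refine Submodule.span_induction (p := fun v _ => ∃ w : J → Γ(t.y.X, t.op U),
      v = ∑ j, coef t.y.π (t.op U) (S.ε j) * w j) ?_ ?_ ?_ ?_ h1
  · rintro _ ⟨a, ha, rfl⟩
    obtain ⟨b, rfl⟩ := S.ex a ha
    refine ⟨fun j => coef t.y.π (t.op U) (S.i (b j)), ?_⟩
    rw [map_sum]
    exact Finset.sum_congr rfl fun j _ => map_mul _ _ _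
  · exact ⟨0, by simp⟩
  · rintro _ _ _ _ ⟨w, rfl⟩ ⟨w', rfl⟩
    exact ⟨w + w', by simp [mul_add, Finset.sum_add_distrib]⟩
  · rintro a _ _ ⟨w, rfl⟩
    refine ⟨fun j => a * w j, ?_⟩
    rw [smul_eq_mul, Finset.mul_sum]
    exact Finset.sum_congr rfl fun j _ => by ring

theorem flat (W : t.y.X.Opens) (h : IsAffineOpen W) : (coef t.y.π W).Flat := by
  have := t.flat
  have h1 : (t.y.π.appLE ⊤ W le_top).hom.Flat := t.y.π.flat_appLE (isAffineOpen_top _) h le_top
  have h2 : (Scheme.ΓSpecIso (CommRingCat.of E)).inv.hom.Flat :=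
    RingHom.Flat.of_bijective (ConcreteCategory.bijective_of_isIso _)
  have h3 : coef t.y.π W = (t.y.π.appLE ⊤ W le_top).hom.comp
    (Scheme.ΓSpecIso (CommRingCat.of E)).inv.hom := rfl
  rw [h3]
  exact RingHom.Flat.comp h2 h1

theorem un (U : x.X.Opens) (h : IsAffineOpen (t.op U)) (w : J → Γ(t.y.X, t.op U))
    (hw : ∑ j, coef t.y.π (t.op U) (S.ε j) * w j = 0) (j : J) : t.q U (w j) = 0 := by
  algebraize [coef t.y.π (t.op U)]
  have hfl : Module.Flat E Γ(t.y.X, t.op U) := flat t (t.op U) h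
  have h1 : ∑ j, S.ε j • w j = 0 := by
    rw [← hw]
    exact Finset.sum_congr rfl fun j _ => Algebra.smul_def _ _
  obtain ⟨k, a, y, ha, hb⟩ := Module.Flat.isTrivialRelation_of_sum_smul_eq_zero
    (R := E) (M := Γ(t.y.X, t.op U)) (f := S.ε) (x := w) h1
  have h2 : ∀ i j, S.p (a j i) = 0 := by
    intro i j
    have h3 : ∑ j, S.ε j * S.i (S.p (a j i)) = 0 := by
      rw [← hb i]
      refine Finset.sum_congr rfl fun j _ => ?_
      rw [← sub_eq_zero, ← mul_sub]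
      exact S.mul_of_p_eq_zero (S.pe j) (by rw [map_sub, S.pi, sub_self])
    exact congrFun (S.un _ h3) j
  rw [ha j, map_sum]
  refine Finset.sum_eq_zero fun i _ => ?_
  rw [Algebra.smul_def, map_mul]
  have h4 : t.q U (algebraMap E Γ(t.y.X, t.op U) (a j i)) = coef x.π U (S.p (a j i)) :=
    t.q_coef U (a j i)
  rw [h4, h2, map_zero, zero_mul]

end

end AffLem

section

variable {n : ℕ} {B E J : Type} [CommRing B] [CommRing E] [Fintype J] {S : SqE B E J}
  {x : Fam n B} (t : Thk S x)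

/-- Opens with affine thickening are good. -/
theorem goodAff (U : x.X.Opens) (h : IsAffineOpen (t.op U)) : Good t U where
  sur := AffLem.sur t U h
  ker := AffLem.ker t U h
  un := AffLem.un t U h

end

end Pool.Agent.MG


end

section

/-!
# A flat thickening of an affine open is affine
-/

open CategoryTheory CategoryTheory.Limits AlgebraicGeometry TensorProduct

namespace Pool.Agent.MG

namespace AFF

theorem rs_rs {X : Scheme.{0}} {U V W : X.Opens} (h : U ≤ V) (h' : V ≤ W) (a : Γ(X, W)) :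
    rs X h (rs X h' a) = rs X (h.trans h') a := by
  change (X.presheaf.map (homOfLE h').op ≫ X.presheaf.map (homOfLE h).op) a = _
  rw [← Functor.map_comp, ← op_comp]
  rfl

/-- Gluing of two functions. -/
theorem glue {X : Scheme.{0}} {U V W I : X.Opens} (h1 : U ≤ W) (h2 : V ≤ W) (hc : W ≤ U ⊔ V)
    (i1 : I ≤ U) (i2 : I ≤ V) (hI : U ⊓ V ≤ I)
    (a : Γ(X, U)) (b : Γ(X, V)) (hab : rs X i1 a = rs X i2 b) :
    ∃ c : Γ(X, W), rs X h1 c = a ∧ rs X h2 c = b := by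
  have hle : ∀ i : Bool, (Bool.rec V U i : X.Opens) ≤ W := by
    intro i
    cases i
    · exact h2
    · exact h1
  have key : ∀ (Z : X.Opens) (z1 : Z ≤ U) (z2 : Z ≤ V), rs X z1 a = rs X z2 b := by
    intro Z z1 z2
    have hZ : Z ≤ I := (le_inf z1 z2).trans hI
    have e1 : rs X z1 a = rs X hZ (rs X i1 a) := (rs_rs _ _ _).symm
    have e2 : rs X z2 b = rs X hZ (rs X i2 b) := (rs_rs _ _ _).symm
    rw [e1, e2, hab]
  obtain ⟨c, hc1, -⟩ := X.sheaf.existsUnique_gluing' (fun i : Bool => (Bool.rec V U i : X.Opens)) W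
    (fun i => homOfLE (hle i))
    (by
      refine hc.trans (sup_le ?_ ?_)
      · exact le_iSup (fun i : Bool => (Bool.rec V U i : X.Opens)) true
      · exact le_iSup (fun i : Bool => (Bool.rec V U i : X.Opens)) false)
    (fun i => match i with
      | true => a
      | false => b)
    (by
      intro i j
      rcases i with _ | _ <;> rcases j with _ | _
      · rfl
      · exact (key _ _ _).symm
      · exact key _ _ _
      · rfl)
  exact ⟨c, hc1 true, hc1 false⟩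

section

variable {n : ℕ} {B E J : Type} [CommRing B] [CommRing E] [Fintype J] {S : SqE B E J}
  {x : Fam n B} (t : Thk S x)

theorem op_basicOpen (V : x.X.Opens) (G : Γ(t.y.X, t.op V)) :
    t.op (x.X.basicOpen (t.q V G)) = t.y.X.basicOpen G := by
  have h : x.X.basicOpen (t.q V G) = t.r.f ⁻¹ᵁ (t.y.X.basicOpen G) := by
    have h1 := Scheme.basicOpen_appLE t.r.f V (t.op V) (t.pre V).ge G
    refine Eq.trans h1 (inf_eq_right.2 ?_)
    have h2 : t.r.f ⁻¹ᵁ (t.y.X.basicOpen G) ≤ t.r.f ⁻¹ᵁ (t.op V) :=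
      fun a ha => t.y.X.basicOpen_le G ha
    exact h2.trans (t.pre V).le
  rw [h, t.op_pre]

theorem aff_basicOpen (V : x.X.Opens) (h : IsAffineOpen (t.op V)) (g : Γ(x.X, V)) :
    IsAffineOpen (t.op (x.X.basicOpen g)) := by
  obtain ⟨G, rfl⟩ := AffLem.sur t V h g
  rw [op_basicOpen]
  exact h.basicOpen G

theorem eps_mul (V : x.X.Opens) (h : IsAffineOpen (t.op V)) (j : J) (v : Γ(t.y.X, t.op V))
    (hv : t.q V v = 0) : coef t.y.π (t.op V) (S.ε j) * v = 0 := by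
  obtain ⟨w, rfl⟩ := AffLem.ker t V h v hv
  rw [Finset.mul_sum]
  refine Finset.sum_eq_zero fun l _ => ?_
  rw [← mul_assoc, ← map_mul, S.mul, map_zero, zero_mul]

/-- Functions on `D(h) ∩ D(1 - h)`. -/
theorem split {X : Scheme.{0}} {U : X.Opens} (hU : IsAffineOpen U) (h : Γ(X, U))
    (u : Γ(X, X.basicOpen h ⊓ X.basicOpen (1 - h))) :
    ∃ (a : Γ(X, X.basicOpen h)) (b : Γ(X, X.basicOpen (1 - h))),
      u = rs X inf_le_left a - rs X inf_le_right b := by
  have hV1 : X.basicOpen h ≤ U := X.basicOpen_le _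
  have hV2 : X.basicOpen (1 - h) ≤ U := X.basicOpen_le _
  have hV : X.basicOpen h ⊓ X.basicOpen (1 - h) ≤ U := inf_le_left.trans hV1
  have hloc := hU.isLocalization_of_eq_basicOpen (f := h * (1 - h)) (homOfLE hV)
    (X.basicOpen_mul h (1 - h)).symm
  let _ : Algebra Γ(X, U) Γ(X, X.basicOpen h ⊓ X.basicOpen (1 - h)) := (rs X hV).toAlgebra
  have hloc' : IsLocalization.Away (h * (1 - h)) Γ(X, X.basicOpen h ⊓ X.basicOpen (1 - h)) := hloc
  obtain ⟨N, r, hr⟩ := IsLocalization.Away.surj (h * (1 - h)) u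
  have hr' : u * rs X hV (h * (1 - h)) ^ N = rs X hV r := hr
  have hu1 : IsUnit (rs X hV1 h) := X.toRingedSpace.isUnit_res_basicOpen h
  have hu2 : IsUnit (rs X hV2 (1 - h)) := X.toRingedSpace.isUnit_res_basicOpen (1 - h)
  obtain ⟨i1, hi1⟩ := hu1.exists_right_inv
  obtain ⟨i2, hi2⟩ := hu2.exists_right_inv
  have hcop : IsCoprime (h ^ N) ((1 - h) ^ N) := IsCoprime.pow ⟨1, 1, by ring⟩
  obtain ⟨α, β, hαβ⟩ := hcop
  have e1 : rs X (inf_le_left : X.basicOpen h ⊓ X.basicOpen (1 - h) ≤ _) i1 * rs X hV h = 1 := by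
    have := congrArg (rs X (inf_le_left : X.basicOpen h ⊓ X.basicOpen (1 - h) ≤ _)) hi1
    rw [map_mul, rs_rs, map_one] at this
    rw [mul_comm]
    exact this
  have e2 : rs X (inf_le_right : X.basicOpen h ⊓ X.basicOpen (1 - h) ≤ _) i2 *
      rs X hV (1 - h) = 1 := by
    have := congrArg (rs X (inf_le_right : X.basicOpen h ⊓ X.basicOpen (1 - h) ≤ _)) hi2
    rw [map_mul, rs_rs, map_one] at this
    rw [mul_comm]
    exact this
  refine ⟨rs X hV1 (β * r) * i1 ^ N, - (rs X hV2 (α * r) * i2 ^ N), ?_⟩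
  simp only [map_mul, map_neg, map_pow, rs_rs]
  rw [map_mul] at hr'
  rw [← hr']
  set H := rs X hV h with hH
  set K := rs X hV (1 - h) with hK
  set I1 := rs X (inf_le_left : X.basicOpen h ⊓ X.basicOpen (1 - h) ≤ _) i1
  set I2 := rs X (inf_le_right : X.basicOpen h ⊓ X.basicOpen (1 - h) ≤ _) i2
  have h3 : rs X hV α * H ^ N + rs X hV β * K ^ N = 1 := by
    have := congrArg (rs X hV) hαβ
    rw [map_add, map_mul, map_mul, map_pow, map_pow, map_one] at this
    exact this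
  have h4 : I1 ^ N * H ^ N = 1 := by rw [← mul_pow, e1, one_pow]
  have h5 : I2 ^ N * K ^ N = 1 := by rw [← mul_pow, e2, one_pow]
  calc u = u * (rs X hV α * H ^ N + rs X hV β * K ^ N) := by rw [h3, mul_one]
    _ = rs X hV β * (u * (H * K) ^ N) * I1 ^ N - -(rs X hV α * (u * (H * K) ^ N) * I2 ^ N) := by
      rw [mul_pow]
      have e4 : rs X hV β * (u * (H ^ N * K ^ N)) * I1 ^ N =
        rs X hV β * u * K ^ N * (I1 ^ N * H ^ N) := by ring
      have e5 : rs X hV α * (u * (H ^ N * K ^ N)) * I2 ^ N =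
        rs X hV α * u * H ^ N * (I2 ^ N * K ^ N) := by ring
      rw [e4, e5, h4, h5]
      ring

/-- The main step. -/
theorem two (U : x.X.Opens) (hU : IsAffineOpen U) (h : Γ(x.X, U))
    (h1 : IsAffineOpen (t.op (x.X.basicOpen h)))
    (h2 : IsAffineOpen (t.op (x.X.basicOpen (1 - h)))) : IsAffineOpen (t.op U) := by
  have hV1 : x.X.basicOpen h ≤ U := x.X.basicOpen_le _
  have hV2 : x.X.basicOpen (1 - h) ≤ U := x.X.basicOpen_le _
  set V1 := x.X.basicOpen h with hV1d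
  set V2 := x.X.basicOpen (1 - h) with hV2d
  have h12 : IsAffineOpen (t.op (V1 ⊓ V2)) := by
    have := aff_basicOpen t V1 h1 (rs x.X hV1 (1 - h))
    rwa [show x.X.basicOpen (rs x.X hV1 (1 - h)) = V1 ⊓ V2 from
      x.X.basicOpen_res (1 - h) (homOfLE hV1).op] at this
  have hcov : U ≤ V1 ⊔ V2 := by
    have := x.X.basicOpen_add_le h (1 - h)
    rwa [add_sub_cancel, x.X.basicOpen_one] at this
  obtain ⟨A1, hA1⟩ := AffLem.sur t V1 h1 (rs x.X hV1 h)
  obtain ⟨A2, hA2⟩ := AffLem.sur t V2 h2 (rs x.X hV2 h)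
  have l12 : V1 ⊓ V2 ≤ V1 := inf_le_left
  have r12 : V1 ⊓ V2 ≤ V2 := inf_le_right
  have hd : t.q (V1 ⊓ V2) (rs t.y.X (t.op_mono l12) A1 - rs t.y.X (t.op_mono r12) A2) = 0 := by
    rw [map_sub, t.q_rs l12, t.q_rs r12, hA1, hA2, rs_rs, rs_rs, sub_self]
  obtain ⟨v, hv⟩ := AffLem.ker t _ h12 _ hd
  have hs := fun j => split hU h (t.q (V1 ⊓ V2) (v j))
  choose c1 c2 hc using hs
  have hs1 := fun j => AffLem.sur t V1 h1 (c1 j)
  have hs2 := fun j => AffLem.sur t V2 h2 (c2 j)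
  choose C1 hC1 using hs1
  choose C2 hC2 using hs2
  obtain ⟨H, hH1, hH2⟩ := glue (t.op_mono hV1) (t.op_mono hV2)
    (show t.op U ≤ t.op V1 ⊔ t.op V2 by rw [← t.op_sup]; exact t.op_mono hcov)
    (t.op_mono l12) (t.op_mono r12) (t.op_inf V1 V2).ge
    (A1 - ∑ j, coef t.y.π (t.op V1) (S.ε j) * C1 j)
    (A2 - ∑ j, coef t.y.π (t.op V2) (S.ε j) * C2 j) (by
      rw [← sub_eq_zero, map_sub, map_sub, map_sum, map_sum]
      have e0 : ∀ (a b c d : Γ(t.y.X, t.op (V1 ⊓ V2))), a - b - (c - d) = (a - c) - (b - d) := by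
        intro a b c d
        ring
      rw [e0, hv, ← Finset.sum_sub_distrib, ← Finset.sum_sub_distrib]
      refine Finset.sum_eq_zero fun j _ => ?_
      rw [map_mul, map_mul, coef_rs, coef_rs, ← mul_sub, ← mul_sub]
      apply eps_mul t _ h12
      rw [map_sub, map_sub, t.q_rs l12, t.q_rs r12, hC1, hC2, ← hc, sub_self])
  have hq : t.q U H = h := by
    refine x.X.sheaf.eq_of_locally_eq₂ (homOfLE hV1) (homOfLE hV2) hcov _ _ ?_ ?_
    · change rs x.X hV1 (t.q U H) = rs x.X hV1 h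
      rw [← t.q_rs, hH1, map_sub, hA1, map_sum, Finset.sum_eq_zero, sub_zero]
      intro j _
      rw [map_mul, t.q_coef, S.pe, map_zero, zero_mul]
    · change rs x.X hV2 (t.q U H) = rs x.X hV2 h
      rw [← t.q_rs, hH2, map_sub, hA2, map_sum, Finset.sum_eq_zero, sub_zero]
      intro j _
      rw [map_mul, t.q_coef, S.pe, map_zero, zero_mul]
  refine isAffineOpen_of_isAffineOpen_basicOpen (t.op U) {H, 1 - H} ?_ ?_
  · rw [Ideal.eq_top_iff_one]
    have : (1 : Γ(t.y.X, t.op U)) = H + (1 - H) := by ring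
    rw [this]
    exact Ideal.add_mem _ (Ideal.subset_span (by simp)) (Ideal.subset_span (by simp))
  · intro i hi
    rcases hi with rfl | hi
    · rw [← op_basicOpen, hq]
      exact h1
    · rw [Set.mem_singleton_iff] at hi
      subst hi
      rw [← op_basicOpen, map_sub, hq, map_one]
      exact h2

/-- The functions `f` such that the thickening of `D(f)` is affine. -/
def idl (U : x.X.Opens) (hU : IsAffineOpen U) : Ideal Γ(x.X, U) where
  carrier := {f | IsAffineOpen (t.op (x.X.basicOpen f))}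
  zero_mem' := by
    change IsAffineOpen (t.op (x.X.basicOpen 0))
    rw [x.X.basicOpen_zero]
    have : t.op ⊥ = ⊥ := t.pre_inj (by rw [t.pre]; rfl)
    rw [this]
    exact isAffineOpen_bot _
  add_mem' := by
    intro f g hf hg
    change IsAffineOpen (t.op (x.X.basicOpen f)) at hf
    change IsAffineOpen (t.op (x.X.basicOpen g)) at hg
    change IsAffineOpen (t.op (x.X.basicOpen (f + g)))
    have hle : x.X.basicOpen (f + g) ≤ U := x.X.basicOpen_le _
    have hu : IsUnit (rs x.X hle (f + g)) := x.X.toRingedSpace.isUnit_res_basicOpen (f + g)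
    obtain ⟨i, hi⟩ := hu.exists_right_inv
    have hiu : IsUnit i := IsUnit.of_mul_eq_one _ (by rw [mul_comm]; exact hi)
    have e1 : x.X.basicOpen (rs x.X hle f * i) = x.X.basicOpen (f + g) ⊓ x.X.basicOpen f := by
      rw [x.X.basicOpen_mul, x.X.basicOpen_of_isUnit hiu]
      rw [show x.X.basicOpen (rs x.X hle f) = x.X.basicOpen (f + g) ⊓ x.X.basicOpen f from
        x.X.basicOpen_res f (homOfLE hle).op]
      exact inf_eq_left.2 inf_le_left
    have e2 : x.X.basicOpen (rs x.X hle g * i) = x.X.basicOpen (f + g) ⊓ x.X.basicOpen g := by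
      rw [x.X.basicOpen_mul, x.X.basicOpen_of_isUnit hiu]
      rw [show x.X.basicOpen (rs x.X hle g) = x.X.basicOpen (f + g) ⊓ x.X.basicOpen g from
        x.X.basicOpen_res g (homOfLE hle).op]
      exact inf_eq_left.2 inf_le_left
    have e3 : 1 - rs x.X hle f * i = rs x.X hle g * i := by
      rw [map_add, add_mul] at hi
      rw [← hi]
      ring
    refine two t _ (hU.basicOpen _) (rs x.X hle f * i) ?_ ?_
    · rw [e1]
      have h3 : x.X.basicOpen (f + g) ⊓ x.X.basicOpen f =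
        x.X.basicOpen (rs x.X (x.X.basicOpen_le f) (f + g)) := by
        rw [inf_comm]
        exact (x.X.basicOpen_res (f + g) (homOfLE (x.X.basicOpen_le f)).op).symm
      rw [h3]
      exact aff_basicOpen t _ hf _
    · rw [e3, e2]
      have h3 : x.X.basicOpen (f + g) ⊓ x.X.basicOpen g =
        x.X.basicOpen (rs x.X (x.X.basicOpen_le g) (f + g)) := by
        rw [inf_comm]
        exact (x.X.basicOpen_res (f + g) (homOfLE (x.X.basicOpen_le g)).op).symm
      rw [h3]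
      exact aff_basicOpen t _ hg _
  smul_mem' := by
    intro c f hf
    change IsAffineOpen (t.op (x.X.basicOpen f)) at hf
    change IsAffineOpen (t.op (x.X.basicOpen (c * f)))
    have h3 : x.X.basicOpen (c * f) = x.X.basicOpen (rs x.X (x.X.basicOpen_le f) c) := by
      rw [x.X.basicOpen_mul, inf_comm]
      exact (x.X.basicOpen_res c (homOfLE (x.X.basicOpen_le f)).op).symm
    rw [h3]
    exact aff_basicOpen t _ hf _

theorem main (U : x.X.Opens) (hU : IsAffineOpen U) : IsAffineOpen (t.op U) := by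
  refine of_affine_open_cover (P := fun V => IsAffineOpen (t.op V.1))
    (fun W : t.y.X.affineOpens => ⟨t.r.f ⁻¹ᵁ W.1, W.2.preimage t.r.f⟩) ?_ ⟨U, hU⟩ ?_ ?_ ?_
  · have h := iSup_affineOpens_eq_top t.y.X
    ext a
    simp only [TopologicalSpace.Opens.coe_iSup, Set.mem_iUnion, SetLike.mem_coe,
      TopologicalSpace.Opens.coe_top, Set.mem_univ, iff_true]
    have h2 : t.r.f a ∈ (⨆ i : t.y.X.affineOpens, (i : t.y.X.Opens)) := by
      rw [h]
      trivial
    rw [TopologicalSpace.Opens.mem_iSup] at h2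
    exact h2
  · intro V f hV
    exact aff_basicOpen t V.1 hV f
  · intro V s hs hsV
    have h1 : (⊤ : Ideal Γ(x.X, V.1)) ≤ idl t V.1 V.2 := by
      rw [← hs, Ideal.span_le]
      intro f hf
      exact hsV ⟨f, hf⟩
    have h2 : (1 : Γ(x.X, V.1)) ∈ idl t V.1 V.2 := h1 trivial
    have h3 : IsAffineOpen (t.op (x.X.basicOpen (1 : Γ(x.X, V.1)))) := h2
    rw [x.X.basicOpen_one] at h3
    exact h3
  · intro W
    change IsAffineOpen (t.op (t.r.f ⁻¹ᵁ W.1))
    rw [t.op_pre]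
    exact W.2

end

end AFF

theorem t_AFF : Stmt_AFF := by
  intro n B E J _ _ _ S x t U hU
  exact AFF.main t U hU

end Pool.Agent.MG


end

section

/-!
# Flat thickenings of a union of two good opens (module SQZ)
-/

open CategoryTheory AlgebraicGeometry TensorProduct

namespace Pool.Agent.MG

namespace SQZ

theorem rs_rs (X : Scheme.{0}) {U V W : X.Opens} (h : U ≤ V) (k : V ≤ W) (a : Γ(X, W)) :
    rs X h (rs X k a) = rs X (h.trans k) a := by
  change (X.presheaf.map (homOfLE k).op ≫ X.presheaf.map (homOfLE h).op) a =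
    X.presheaf.map (homOfLE (h.trans k)).op a
  rw [← Functor.map_comp]
  rfl

/-- Gluing of functions on two opens. -/
theorem glueO (X : Scheme.{0}) {V1 V2 V : X.Opens} (hV : V1 ⊔ V2 = V) (h1 : V1 ≤ V)
    (h2 : V2 ≤ V) {V12 : X.Opens} (h12 : V1 ⊓ V2 = V12) (k1 : V12 ≤ V1) (k2 : V12 ≤ V2)
    (a : Γ(X, V1)) (b : Γ(X, V2)) (e : rs X k1 a = rs X k2 b) :
    ∃ c : Γ(X, V), rs X h1 c = a ∧ rs X h2 c = b := by
  subst hV h12
  refine ⟨(X.sheaf.objSupIsoProdEqLocus V1 V2).inv ⟨(a, b), e⟩, ?_, ?_⟩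
  · exact X.sheaf.objSupIsoProdEqLocus_inv_fst V1 V2 ⟨(a, b), e⟩
  · exact X.sheaf.objSupIsoProdEqLocus_inv_snd V1 V2 ⟨(a, b), e⟩

/-- Separation for functions on two opens. -/
theorem sepO (X : Scheme.{0}) {V1 V2 V : X.Opens} (hV : V1 ⊔ V2 = V) (h1 : V1 ≤ V)
    (h2 : V2 ≤ V) (c c' : Γ(X, V)) (e1 : rs X h1 c = rs X h1 c')
    (e2 : rs X h2 c = rs X h2 c') : c = c' := by
  subst hV
  exact X.sheaf.eq_of_locally_eq₂ (homOfLE h1) (homOfLE h2) le_rfl c c' e1 e2

variable {n : ℕ} {B E J : Type} [CommRing B] [CommRing E] [Fintype J] {S : SqE B E J}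
  {x : Fam n B} {t : Thk S x}

theorem q_eps {U : x.X.Opens} (j : J) (w : Γ(t.y.X, t.op U)) :
    t.q U (coef t.y.π (t.op U) (S.ε j) * w) = 0 := by
  rw [map_mul, t.q_coef, S.pe, map_zero, zero_mul]

theorem q_sum {U : x.X.Opens} (w : J → Γ(t.y.X, t.op U)) :
    t.q U (∑ j, coef t.y.π (t.op U) (S.ε j) * w j) = 0 := by
  rw [map_sum]
  exact Finset.sum_eq_zero fun j _ => q_eps j (w j)

theorem eps_mul_ker {U : x.X.Opens} (g : Good t U) (j : J) {v : Γ(t.y.X, t.op U)}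
    (hv : t.q U v = 0) : coef t.y.π (t.op U) (S.ε j) * v = 0 := by
  obtain ⟨w, rfl⟩ := g.ker v hv
  rw [Finset.mul_sum]
  refine Finset.sum_eq_zero fun l _ => ?_
  rw [← mul_assoc, ← map_mul, S.mul, map_zero, zero_mul]

theorem rs_sum {U V : x.X.Opens} (h : U ≤ V) (w : J → Γ(t.y.X, t.op V)) :
    rs t.y.X (t.op_mono h) (∑ j, coef t.y.π (t.op V) (S.ε j) * w j) =
      ∑ j, coef t.y.π (t.op U) (S.ε j) * rs t.y.X (t.op_mono h) (w j) := by
  rw [map_sum]
  refine Finset.sum_congr rfl fun j _ => ?_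
  rw [map_mul, coef_rs]

/-- The union of two good opens with good intersection and `H¹ = 0` is good. -/
theorem goodSup {U W W' : x.X.Opens} (hU : W ⊔ W' = U) (g1 : Good t W) (g2 : Good t W')
    (g12 : Good t (W ⊓ W'))
    (hac : ∀ s : Γ(x.X, W ⊓ W'), ∃ (a : Γ(x.X, W)) (b : Γ(x.X, W')),
      s = rs x.X inf_le_left a + rs x.X inf_le_right b) : Good t U := by
  have hW : W ≤ U := by rw [← hU]; exact le_sup_left
  have hW' : W' ≤ U := by rw [← hU]; exact le_sup_right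
  have hO : t.op W ⊔ t.op W' = t.op U := by rw [← t.op_sup, hU]
  have hI : t.op W ⊓ t.op W' = t.op (W ⊓ W') := (t.op_inf W W').symm
  have m1 : t.op (W ⊓ W') ≤ t.op W := t.op_mono inf_le_left
  have m2 : t.op (W ⊓ W') ≤ t.op W' := t.op_mono inf_le_right
  have hsur : Function.Surjective (t.q U) := by
    intro s
    obtain ⟨s1, hs1⟩ := g1.sur (rs x.X hW s)
    obtain ⟨s2, hs2⟩ := g2.sur (rs x.X hW' s)
    have hd : t.q (W ⊓ W') (rs t.y.X m1 s1 - rs t.y.X m2 s2) = 0 := by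
      rw [map_sub, t.q_rs inf_le_left, t.q_rs inf_le_right, hs1, hs2, rs_rs, rs_rs, sub_self]
    obtain ⟨v, hv⟩ := g12.ker _ hd
    choose a b hab using fun j => hac (t.q (W ⊓ W') (v j))
    choose α hα using fun j => g1.sur (a j)
    choose β hβ using fun j => g2.sur (b j)
    have hz : ∀ j, coef t.y.π (t.op (W ⊓ W')) (S.ε j) *
        (v j - rs t.y.X m1 (α j) - rs t.y.X m2 (β j)) = 0 := by
      intro j
      apply eps_mul_ker g12
      rw [map_sub, map_sub, t.q_rs inf_le_left, t.q_rs inf_le_right, hα, hβ, hab j]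
      ring
    have hglue : rs t.y.X m1 (s1 - ∑ j, coef t.y.π (t.op W) (S.ε j) * α j) =
        rs t.y.X m2 (s2 + ∑ j, coef t.y.π (t.op W') (S.ε j) * β j) := by
      rw [map_sub, map_add, rs_sum inf_le_left, rs_sum inf_le_right, sub_eq_iff_eq_add]
      have h1 : rs t.y.X m1 s1 = rs t.y.X m2 s2 +
          ∑ j, coef t.y.π (t.op (W ⊓ W')) (S.ε j) * v j := by
        rw [← hv]
        ring
      rw [h1, add_assoc, ← Finset.sum_add_distrib]
      congr 1
      refine Finset.sum_congr rfl fun j _ => ?_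
      have := hz j
      rw [mul_sub, mul_sub, sub_sub, sub_eq_zero] at this
      rw [this, add_comm]
    obtain ⟨c, hc1, hc2⟩ := glueO t.y.X hO (t.op_mono hW) (t.op_mono hW') hI m1 m2 _ _ hglue
    refine ⟨c, sepO x.X hU hW hW' _ _ ?_ ?_⟩
    · rw [← t.q_rs hW, hc1, map_sub, hs1, q_sum, sub_zero]
    · rw [← t.q_rs hW', hc2, map_add, hs2, q_sum, add_zero]
  refine ⟨hsur, ?_, ?_⟩
  · intro v hv
    have hv1 : t.q W (rs t.y.X (t.op_mono hW) v) = 0 := by rw [t.q_rs hW, hv, map_zero]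
    have hv2 : t.q W' (rs t.y.X (t.op_mono hW') v) = 0 := by rw [t.q_rs hW', hv, map_zero]
    obtain ⟨w, hw⟩ := g1.ker _ hv1
    obtain ⟨w', hw'⟩ := g2.ker _ hv2
    have hun : ∀ j, t.q (W ⊓ W') (rs t.y.X m1 (w j) - rs t.y.X m2 (w' j)) = 0 := by
      refine g12.un (fun j => rs t.y.X m1 (w j) - rs t.y.X m2 (w' j)) ?_
      have h1 : rs t.y.X m1 (rs t.y.X (t.op_mono hW) v) =
          rs t.y.X m2 (rs t.y.X (t.op_mono hW') v) := by rw [rs_rs, rs_rs]
      rw [hw, hw', rs_sum inf_le_left, rs_sum inf_le_right] at h1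
      simp only [mul_sub, Finset.sum_sub_distrib]
      rw [h1, sub_self]
    have hr : ∀ j, ∃ r : Γ(x.X, U), rs x.X hW r = t.q W (w j) ∧ rs x.X hW' r = t.q W' (w' j) := by
      intro j
      refine glueO x.X hU hW hW' rfl inf_le_left inf_le_right _ _ ?_
      have := hun j
      rw [map_sub, t.q_rs inf_le_left, t.q_rs inf_le_right, sub_eq_zero] at this
      exact this
    choose r hr1 hr2 using hr
    choose ρ hρ using fun j => hsur (r j)
    refine ⟨ρ, sepO t.y.X hO (t.op_mono hW) (t.op_mono hW') _ _ ?_ ?_⟩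
    · rw [rs_sum hW, hw]
      refine Finset.sum_congr rfl fun j _ => ?_
      rw [← sub_eq_zero, ← mul_sub]
      apply eps_mul_ker g1
      rw [map_sub, t.q_rs hW, hρ, hr1, sub_self]
    · rw [rs_sum hW', hw']
      refine Finset.sum_congr rfl fun j _ => ?_
      rw [← sub_eq_zero, ← mul_sub]
      apply eps_mul_ker g2
      rw [map_sub, t.q_rs hW', hρ, hr2, sub_self]
  · intro w hw j
    have h1 := g1.un (fun j => rs t.y.X (t.op_mono hW) (w j)) (by
      rw [← rs_sum hW, hw, map_zero]) j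
    have h2 := g2.un (fun j => rs t.y.X (t.op_mono hW') (w j)) (by
      rw [← rs_sum hW', hw, map_zero]) j
    refine sepO x.X hU hW hW' _ _ ?_ ?_
    · rw [← t.q_rs hW, h1, map_zero]
    · rw [← t.q_rs hW', h2, map_zero]

end SQZ

end Pool.Agent.MG


end

section

/-!
# MG_SQZ: flat thickenings of acyclic opens
-/

open CategoryTheory CategoryTheory.Limits AlgebraicGeometry TensorProduct

namespace Pool.Agent.MG

/-- Flat thickenings of acyclic opens. -/
theorem t_SQZ (hAFF : Stmt_AFF) : Stmt_SQZ := by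
  intro n B E J _ _ _ S x t U hac
  obtain ⟨W, W', hW, hW', hWW', hU, hac⟩ := hac
  exact SQZ.goodSup hU (goodAff t _ (hAFF t _ hW)) (goodAff t _ (hAFF t _ hW'))
    (goodAff t _ (hAFF t _ hWW')) hac

end Pool.Agent.MG


end

section

/-!
# CLS: over a field, every covector is given by covector data
-/

open CategoryTheory CategoryTheory.Limits AlgebraicGeometry TensorProduct

namespace Pool.Agent.MG

namespace CLS

section
variable {R S A A' : Type} [CommRing R] [CommRing S] [CommRing A] [CommRing A']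

theorem ker_nil (q : A →+* A') (hk : ∀ a b, q a = 0 → q b = 0 → a * b = 0) :
    IsNilpotent (RingHom.ker q) := by
  refine ⟨2, ?_⟩
  rw [pow_two, Ideal.zero_eq_bot, eq_bot_iff, Ideal.mul_le]
  intro a ha b hb
  rw [Ideal.mem_bot]
  exact hk a b ha hb

theorem et_uniq (f : R →+* S) (hf : f.Etale) (q : A →+* A')
    (hk : ∀ a b, q a = 0 → q b = 0 → a * b = 0) (w w' : S →+* A)
    (h1 : ∀ r, w (f r) = w' (f r)) (h2 : ∀ s, q (w s) = q (w' s)) : w = w' := by
  let : Algebra R S := f.toAlgebra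
  have : Algebra.Etale R S := hf
  let : Algebra R A := (w.comp f).toAlgebra
  let g1 : S →ₐ[R] A := { w with commutes' := fun r => rfl }
  let g2 : S →ₐ[R] A := { w' with commutes' := fun r => (h1 r).symm }
  have h3 : g1 = g2 := Algebra.FormallyUnramified.ext' q (ker_nil q hk) g1 g2 h2
  ext s
  exact congrArg (fun g : S →ₐ[R] A => g s) h3

theorem et_lift (f : R →+* S) (hf : f.Etale) (q : A →+* A') (hq : Function.Surjective q)
    (hk : ∀ a b, q a = 0 → q b = 0 → a * b = 0) (u : R →+* A) (v : S →+* A')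
    (h : ∀ r, v (f r) = q (u r)) :
    ∃ w : S →+* A, (∀ r, w (f r) = u r) ∧ ∀ s, q (w s) = v s := by
  let : Algebra R S := f.toAlgebra
  have : Algebra.Etale R S := hf
  let : Algebra R A := u.toAlgebra
  let : Algebra R A' := (q.comp u).toAlgebra
  let q' : A →ₐ[R] A' := { q with commutes' := fun r => rfl }
  let v' : S →ₐ[R] A' := { v with commutes' := h }
  have hn : IsNilpotent (RingHom.ker (q' : A →+* A')) := ker_nil q hk
  let w := Algebra.FormallySmooth.liftOfSurjective v' q' hq hn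
  refine ⟨w.toRingHom, fun r => w.commutes r, fun s => ?_⟩
  exact Algebra.FormallySmooth.liftOfSurjective_apply v' q' hq hn s

end

/-- a ring homomorphism plus a square zero multiple of a derivation -/
def addDer {k R G : Type} [Field k] [CommRing R] [Algebra k R] [CommRing G] (t : R →+* G)
    (d : Derivation k R R) (c : G) (hc : c * c = 0) : R →+* G where
  toFun a := t a + c * t (d a)
  map_one' := by simp
  map_mul' a b := by
    have : t (a * b) + c * t (d (a * b)) = t a * t b + c * (t a * t (d b) + t b * t (d a)) := by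
      simp [Derivation.leibniz, mul_add]
    rw [this]
    linear_combination (-(t (d a) * t (d b))) * hc
  map_zero' := by simp
  map_add' a b := by
    simp only [map_add]
    ring

theorem addDer_apply {k R G : Type} [Field k] [CommRing R] [Algebra k R] [CommRing G] (t : R →+* G)
    (d : Derivation k R R) (c : G) (hc : c * c = 0) (a : R) :
    addDer t d c hc a = t a + c * t (d a) := rfl


section

variable {n : ℕ} {k : Type} [Field k] {T : TC k} {B : Type} [CommRing B] [Algebra k B]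
  {E J : Type} [CommRing E] [Fintype J] {S : SqE B E J}

section ring

variable {G R : Type} [CommRing G] [CommRing R]

/-- products of elements which reduce to zero vanish -/
theorem sq_zero (S : SqE B E J) (a : E →+* G) (q : G →+* R)
    (hker : ∀ v, q v = 0 → ∃ w : J → G, v = ∑ j, a (S.ε j) * w j) (x y : G) (hx : q x = 0)
    (hy : q y = 0) : x * y = 0 := by
  obtain ⟨u, rfl⟩ := hker x hx
  obtain ⟨v, rfl⟩ := hker y hy
  rw [Finset.sum_mul_sum]
  refine Finset.sum_eq_zero fun i _ => Finset.sum_eq_zero fun j _ => ?_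
  calc a (S.ε i) * u i * (a (S.ε j) * v j) = a (S.ε i * S.ε j) * (u i * v j) := by
        rw [map_mul]; ring
    _ = 0 := by rw [S.mul, map_zero, zero_mul]

end ring

/-- `ε j` kills the kernel of `S.p`. -/
theorem eps_mul_eq (S : SqE B E J) {a b : E} (j : J) (h : S.p a = S.p b) :
    S.ε j * a = S.ε j * b := by
  have h1 : S.p (a - b) = 0 := by rw [map_sub, h, sub_self]
  have h2 := S.mul_of_p_eq_zero (S.pe j) h1
  rw [mul_sub, sub_eq_zero] at h2
  exact h2

theorem dlt1a (D : RData T S) (u1 : D.G1) (w : J → D.G1) (r : J → T.R1)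
    (hw : ∀ j, D.q1 (w j) = 1 ⊗ₜ r j) (φ : T.R1 →ₐ[k] B) (γ : D.Sec1 φ) (δ : J → B)
    (h : γ.g u1 = S.i (φ T.x) + ∑ j, S.ε j * S.i (δ j)) :
    γ.g (u1 + ∑ j, D.a1 (S.ε j) * w j) =
      S.i (φ T.x) + ∑ j, S.ε j * S.i (δ j + φ (r j)) := by
  rw [map_add, h, map_sum, add_assoc, ← Finset.sum_add_distrib]
  congr 1
  refine Finset.sum_congr rfl fun j _ => ?_
  rw [map_mul, γ.ga, map_add, mul_add]
  congr 1
  refine eps_mul_eq S j ?_
  rw [γ.gq, hw, S.pi]
  simp [extA]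

theorem dlt2a (D : RData T S) (u2 : D.G2) (w : J → D.G2) (r : J → T.R2)
    (hw : ∀ j, D.q2 (w j) = 1 ⊗ₜ r j) (ψ : T.R2 →ₐ[k] B) (γ : D.Sec2 ψ) (δ : J → B)
    (h : γ.g u2 = S.i (ψ T.y) + ∑ j, S.ε j * S.i (δ j)) :
    γ.g (u2 + ∑ j, D.a2 (S.ε j) * w j) =
      S.i (ψ T.y) + ∑ j, S.ε j * S.i (δ j + ψ (r j)) := by
  rw [map_add, h, map_sum, add_assoc, ← Finset.sum_add_distrib]
  congr 1
  refine Finset.sum_congr rfl fun j _ => ?_
  rw [map_mul, γ.ga, map_add, mul_add]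
  congr 1
  refine eps_mul_eq S j ?_
  rw [γ.gq, hw, S.pi]
  simp [extA]

theorem dlt1 (D : RData T S) (u1 : D.G1) (u2 : D.G2) (w : J → D.G1) (r : J → T.R1)
    (hw : ∀ j, D.q1 (w j) = 1 ⊗ₜ r j) (p : Pt T B) (γ : D.Sec p) (δ : J → B)
    (h : D.Dlt u1 u2 p γ δ) :
    D.Dlt (u1 + ∑ j, D.a1 (S.ε j) * w j) u2 p γ (fun j => δ j + p.l1 (r j)) := by
  cases p with
  | one φ => exact dlt1a D u1 w r hw φ γ δ h
  | two ψ =>
    have h' : RData.Sec2.g γ u2 = S.i (ψ T.y) + ∑ j, S.ε j * S.i (δ j) := h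
    show RData.Sec2.g γ u2 = S.i (ψ T.y) + ∑ j, S.ε j * S.i (δ j + 0)
    simp only [add_zero]
    exact h'

theorem dlt2 (D : RData T S) (u1 : D.G1) (u2 : D.G2) (w : J → D.G2) (r : J → T.R2)
    (hw : ∀ j, D.q2 (w j) = 1 ⊗ₜ r j) (p : Pt T B) (γ : D.Sec p) (δ : J → B)
    (h : D.Dlt u1 u2 p γ δ) :
    D.Dlt u1 (u2 + ∑ j, D.a2 (S.ε j) * w j) p γ (fun j => δ j + p.l2 (r j)) := by
  cases p with
  | one φ =>
    have h' : RData.Sec1.g γ u1 = S.i (φ T.x) + ∑ j, S.ε j * S.i (δ j) := h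
    show RData.Sec1.g γ u1 = S.i (φ T.x) + ∑ j, S.ε j * S.i (δ j + 0)
    simp only [add_zero]
    exact h'
  | two ψ => exact dlt2a D u2 w r hw ψ γ δ h

/-- change of the lift on the first chart -/
theorem change1 {D : RData T S} {s : Fin n → Pt T B} {γ : ∀ i, D.Sec (s i)}
    {h : J → B ⊗[k] T.R12} {δ : J → Fin n → B} (K : RKS D s γ h δ) (r : J → T.R1) :
    Nonempty (RKS D s γ (fun j => h j + 1 ⊗ₜ T.j1 (r j))
      (fun j i => δ j i + (s i).l1 (r j))) := by
  choose w hw using fun j => D.sur1 (1 ⊗ₜ r j)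
  let c1 : D.G1 := ∑ j, D.a1 (S.ε j) * w j
  let c : D.G12 := ∑ j, D.a12 (S.ε j) * D.f1 (w j)
  have hqc1 : D.q1 c1 = 0 := by
    simp only [c1, map_sum, map_mul, D.qa1, S.pe, TensorProduct.zero_tmul, zero_mul,
      Finset.sum_const_zero]
  have hqc : D.q12 c = 0 := by
    simp only [c, map_sum, map_mul, D.qa12, S.pe, TensorProduct.zero_tmul, zero_mul,
      Finset.sum_const_zero]
  have hfc : D.f1 c1 = c := by
    simp only [c1, c, map_sum, map_mul, D.fa1]
  have hk1 := sq_zero S D.a1 D.q1 D.ker1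
  have hk12 := sq_zero S D.a12 D.q12 D.ker12
  have hcc : c * c = 0 := hk12 c c hqc hqc
  -- the new lift on the first chart
  let u : Polynomial k →+* D.G1 :=
    Polynomial.eval₂RingHom (K.θ1.comp (algebraMap k T.R1)) (K.θ1 T.x + c1)
  let v : T.R1 →+* B ⊗[k] T.R1 :=
    (Algebra.TensorProduct.includeRight : T.R1 →ₐ[k] B ⊗[k] T.R1).toRingHom
  have hv : ∀ a, v a = 1 ⊗ₜ a := fun a => rfl
  let f : Polynomial k →+* T.R1 := (Polynomial.aeval T.x : Polynomial k →ₐ[k] T.R1).toRingHom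
  have hfC : ∀ a, f (Polynomial.C a) = algebraMap k T.R1 a := fun a =>
    Polynomial.aeval_C (R := k) T.x a
  have hfX : f Polynomial.X = T.x := Polynomial.aeval_X (R := k) T.x
  have huC : ∀ a, u (Polynomial.C a) = K.θ1 (algebraMap k T.R1 a) := fun a => by
    simp [u]
  have huX : u Polynomial.X = K.θ1 T.x + c1 := by simp [u]
  have hcomp : ∀ p, v (f p) = D.q1 (u p) := by
    intro p
    have : v.comp f = D.q1.comp u := by
      refine Polynomial.ringHom_ext (fun a => ?_) ?_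
      · show v (f (Polynomial.C a)) = D.q1 (u (Polynomial.C a))
        rw [hfC, huC, hv, K.l1]
      · show v (f Polynomial.X) = D.q1 (u Polynomial.X)
        rw [hfX, huX, hv, map_add, K.l1, hqc1, add_zero]
    exact congrArg (fun g : Polynomial k →+* B ⊗[k] T.R1 => g p) this
  obtain ⟨θ, hθ1, hθ2⟩ := et_lift f T.etx D.q1 D.sur1 hk1 u v hcomp
  have hθC : ∀ a, θ (algebraMap k T.R1 a) = K.θ1 (algebraMap k T.R1 a) := fun a => by
    rw [← hfC, hθ1, huC, hfC]
  have hθX : θ T.x = K.θ1 T.x + c1 := by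
    rw [← hfX, hθ1, huX, hfX]
  let t : T.R12 →+* D.G12 := addDer K.t1 T.dd c hcc
  have ht : ∀ a, t a = K.t1 a + c * K.t1 (T.dd a) := fun a => rfl
  have hqt : ∀ a, D.q12 (t a) = 1 ⊗ₜ a := by
    intro a
    rw [ht, map_add, map_mul, hqc, zero_mul, add_zero, K.lt1]
  have he : t.comp (T.j1 : T.R1 →+* T.R12) = D.f1.comp θ := by
    refine et_uniq f T.etx D.q12 hk12 _ _ ?_ ?_
    · intro p
      have : (t.comp (T.j1 : T.R1 →+* T.R12)).comp f = (D.f1.comp θ).comp f := by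
        refine Polynomial.ringHom_ext (fun a => ?_) ?_
        · show t (T.j1 (f (Polynomial.C a))) = D.f1 (θ (f (Polynomial.C a)))
          rw [hfC, hθC, ht, K.e1, AlgHom.commutes, Derivation.map_algebraMap, map_zero, mul_zero,
            add_zero]
        · show t (T.j1 (f Polynomial.X)) = D.f1 (θ (f Polynomial.X))
          rw [hfX, hθX, ht, K.e1, T.ddx, map_one, mul_one, map_add, hfc]
      exact congrArg (fun g : Polynomial k →+* D.G12 => g p) this
    · intro a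
      show D.q12 (t (T.j1 a)) = D.q12 (D.f1 (θ a))
      rw [hqt, D.qf1, hθ2, hv]
      simp
  refine ⟨{
    θ1 := θ
    θ2 := K.θ2
    k1 := fun a => by rw [hθC, K.k1]
    k2 := K.k2
    l1 := fun a => by rw [hθ2, hv]
    l2 := K.l2
    t1 := t
    t2 := K.t2
    e1 := fun a => congrArg (fun g : T.R1 →+* D.G12 => g a) he
    e2 := K.e2
    lt1 := hqt
    lt2 := K.lt2
    diff := fun a => ?_
    dl := fun i => ?_ }⟩
  · obtain ⟨v', hv', hva⟩ := K.diff a
    refine ⟨fun j => v' j + D.f1 (w j) * K.t1 (T.dd a), fun j => ?_, ?_⟩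
    · rw [map_add, hv', map_mul, D.qf1, hw, K.lt1, add_mul]
      simp
    · rw [ht, hva, add_assoc]
      congr 1
      simp only [c, mul_add, Finset.sum_add_distrib, Finset.sum_mul, mul_assoc]
  · have h1 := dlt1 D (K.θ1 T.x) (K.θ2 T.y) w r hw (s i) (γ i) (fun j => δ j i) (K.dl i)
    rw [hθX]
    exact h1

/-- change of the lift on the second chart -/
theorem change2 {D : RData T S} {s : Fin n → Pt T B} {γ : ∀ i, D.Sec (s i)}
    {h : J → B ⊗[k] T.R12} {δ : J → Fin n → B} (K : RKS D s γ h δ) (r : J → T.R2) :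
    Nonempty (RKS D s γ (fun j => h j - 1 ⊗ₜ (T.e * T.j2 (r j)))
      (fun j i => δ j i + (s i).l2 (r j))) := by
  choose w hw using fun j => D.sur2 (1 ⊗ₜ r j)
  let c1 : D.G2 := ∑ j, D.a2 (S.ε j) * w j
  let c : D.G12 := ∑ j, D.a12 (S.ε j) * D.f2 (w j)
  have hqc1 : D.q2 c1 = 0 := by
    simp only [c1, map_sum, map_mul, D.qa2, S.pe, TensorProduct.zero_tmul, zero_mul,
      Finset.sum_const_zero]
  have hqc : D.q12 c = 0 := by
    simp only [c, map_sum, map_mul, D.qa12, S.pe, TensorProduct.zero_tmul, zero_mul,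
      Finset.sum_const_zero]
  have hfc : D.f2 c1 = c := by
    simp only [c1, c, map_sum, map_mul, D.fa2]
  have hk1 := sq_zero S D.a2 D.q2 D.ker2
  have hk12 := sq_zero S D.a12 D.q12 D.ker12
  have hcc : c * c = 0 := hk12 c c hqc hqc
  -- the new lift on the second chart
  let u : Polynomial k →+* D.G2 :=
    Polynomial.eval₂RingHom (K.θ2.comp (algebraMap k T.R2)) (K.θ2 T.y + c1)
  let v : T.R2 →+* B ⊗[k] T.R2 :=
    (Algebra.TensorProduct.includeRight : T.R2 →ₐ[k] B ⊗[k] T.R2).toRingHom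
  have hv : ∀ a, v a = 1 ⊗ₜ a := fun a => rfl
  let f : Polynomial k →+* T.R2 := (Polynomial.aeval T.y : Polynomial k →ₐ[k] T.R2).toRingHom
  have hfC : ∀ a, f (Polynomial.C a) = algebraMap k T.R2 a := fun a =>
    Polynomial.aeval_C (R := k) T.y a
  have hfX : f Polynomial.X = T.y := Polynomial.aeval_X (R := k) T.y
  have huC : ∀ a, u (Polynomial.C a) = K.θ2 (algebraMap k T.R2 a) := fun a => by
    simp [u]
  have huX : u Polynomial.X = K.θ2 T.y + c1 := by simp [u]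
  have hcomp : ∀ p, v (f p) = D.q2 (u p) := by
    intro p
    have : v.comp f = D.q2.comp u := by
      refine Polynomial.ringHom_ext (fun a => ?_) ?_
      · show v (f (Polynomial.C a)) = D.q2 (u (Polynomial.C a))
        rw [hfC, huC, hv, K.l2]
      · show v (f Polynomial.X) = D.q2 (u Polynomial.X)
        rw [hfX, huX, hv, map_add, K.l2, hqc1, add_zero]
    exact congrArg (fun g : Polynomial k →+* B ⊗[k] T.R2 => g p) this
  obtain ⟨θ, hθ1, hθ2⟩ := et_lift f T.ety D.q2 D.sur2 hk1 u v hcomp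
  have hθC : ∀ a, θ (algebraMap k T.R2 a) = K.θ2 (algebraMap k T.R2 a) := fun a => by
    rw [← hfC, hθ1, huC, hfC]
  have hθX : θ T.y = K.θ2 T.y + c1 := by
    rw [← hfX, hθ1, huX, hfX]
  let t : T.R12 →+* D.G12 := addDer K.t2 (T.e • T.dd) c hcc
  have ht : ∀ a, t a = K.t2 a + c * K.t2 (T.e * T.dd a) := fun a => rfl
  have hqt : ∀ a, D.q12 (t a) = 1 ⊗ₜ a := by
    intro a
    rw [ht, map_add, map_mul, hqc, zero_mul, add_zero, K.lt2]
  have he : t.comp (T.j2 : T.R2 →+* T.R12) = D.f2.comp θ := by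
    refine et_uniq f T.ety D.q12 hk12 _ _ ?_ ?_
    · intro p
      have : (t.comp (T.j2 : T.R2 →+* T.R12)).comp f = (D.f2.comp θ).comp f := by
        refine Polynomial.ringHom_ext (fun a => ?_) ?_
        · show t (T.j2 (f (Polynomial.C a))) = D.f2 (θ (f (Polynomial.C a)))
          rw [hfC, hθC, ht, K.e2, AlgHom.commutes, Derivation.map_algebraMap, mul_zero, map_zero,
            mul_zero, add_zero]
        · show t (T.j2 (f Polynomial.X)) = D.f2 (θ (f Polynomial.X))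
          rw [hfX, hθX, ht, K.e2, T.ey, map_one, mul_one, map_add, hfc]
      exact congrArg (fun g : Polynomial k →+* D.G12 => g p) this
    · intro a
      show D.q12 (t (T.j2 a)) = D.q12 (D.f2 (θ a))
      rw [hqt, D.qf2, hθ2, hv]
      simp
  refine ⟨{
    θ1 := K.θ1
    θ2 := θ
    k1 := K.k1
    k2 := fun a => by rw [hθC, K.k2]
    l1 := K.l1
    l2 := fun a => by rw [hθ2, hv]
    t1 := K.t1
    t2 := t
    e1 := K.e1
    e2 := fun a => congrArg (fun g : T.R2 →+* D.G12 => g a) he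
    lt1 := K.lt1
    lt2 := hqt
    diff := fun a => ?_
    dl := fun i => ?_ }⟩
  · obtain ⟨v', hv', hva⟩ := K.diff a
    refine ⟨fun j => v' j - D.f2 (w j) * K.t2 (T.e * T.dd a), fun j => ?_, ?_⟩
    · rw [map_sub, hv', map_mul, D.qf2, hw, K.lt2, sub_mul]
      congr 1
      simp only [Algebra.TensorProduct.map_tmul, map_one, Algebra.TensorProduct.tmul_mul_tmul,
        mul_one]
      congr 1
      ring
    · rw [ht, hva, add_assoc]
      congr 1
      simp only [c, mul_sub, Finset.sum_sub_distrib, Finset.sum_mul, mul_assoc]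
      ring
  · have h1 := dlt2 D (K.θ1 T.x) (K.θ2 T.y) w r hw (s i) (γ i) (fun j => δ j i) (K.dl i)
    rw [hθX]
    exact h1

end

/-! ### The identity arrow -/

section

variable {n : ℕ}

theorem spMap_id (B : Type) [CommRing B] : spMap (RingHom.id B) = 𝟙 (Sp B) := by
  simp [spMap]

/-- The identity arrow. -/
noncomputable def idArrow {B : Type} [CommRing B] (x : Fam n B) : Arrow (RingHom.id B) x x where
  f := 𝟙 _
  cart := by
    have h : IsIso (spMap (RingHom.id B)) := by rw [spMap_id]; infer_instance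
    exact IsPullback.of_horiz_isIso ⟨by rw [spMap_id, Category.comp_id, Category.id_comp]⟩
  sec i := by rw [spMap_id, Category.comp_id, Category.id_comp]

theorem id_appLE {X : Scheme.{0}} (U : X.Opens) (h : U ≤ (𝟙 X : X ⟶ X) ⁻¹ᵁ U) (v : Γ(X, U)) :
    ((𝟙 X : X ⟶ X).appLE U U h).hom v = v := by
  have : (𝟙 X : X ⟶ X).appLE U U h = 𝟙 _ := Scheme.Hom.appLE_eq_app _
  rw [this]
  rfl

variable {k : Type} [Field k] {T : TC k} {C : Fam n k}

theorem idCh (ct : Charted T C) :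
    ChArrow (φ := AlgHom.id k k) (idArrow C) ct ct where
  h1 := rfl
  h2 := rfl
  f1 _ := id_appLE _ _ _
  f2 _ := id_appLE _ _ _
  f12 _ _ := id_appLE _ _ _

theorem pt_map_id {B : Type} [CommRing B] [Algebra k B] (p : Pt T B) (f : B →ₐ[k] B)
    (hf : f = AlgHom.id k B) : p.map f = p := by
  subst hf
  cases p <;> rfl

theorem ks_congr {E J : Type} [CommRing E] [Fintype J] {S : SqE k E J} {ct : Charted T C}
    {t : Thk S C} {s s' : Fin n → Pt T k} (e : s = s') {hs : ∀ i, ct.Is (C.σ i) (s i)}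
    {hs' : ∀ i, ct.Is (C.σ i) (s' i)} {h h' : J → k ⊗[k] T.R12} (eh : h = h')
    {δ δ' : J → Fin n → k} (ed : δ = δ') (H : KS ct t s hs h δ) : KS ct t s' hs' h' δ' := by
  subst e; subst eh; subst ed
  exact H

theorem push (hPBS : Stmt_PBS) (hKSN : Stmt_KSN) {g : ℕ} (ct : Charted T C)
    (s : Fin n → Pt T k) (hs : ∀ i, ct.Is (C.σ i) (s i)) {E J E' J' : Type} [CommRing E]
    [Fintype J] [CommRing E'] [Fintype J'] {S : SqE k E J} {S' : SqE k E' J'} {m : J → J' → k}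
    (Φ : SqHom S S' (RingHom.id k) m) (h : J → k ⊗[k] T.R12) (δ : J → Fin n → k) (t : Thk S C)
    (hst : IsStable g t.y) (hK : KS ct t s hs h δ) :
    ∃ (t' : Thk S' C) (f : Arrow Φ.Φ t'.y t.y), IsStable g t'.y ∧ t'.r.f ≫ f.f = t.r.f ∧
      KS ct t' s hs (fun l => ∑ j, m j l • h j) (fun l i => ∑ j, m j l * δ j i) := by
  obtain ⟨t', f, h1, h2⟩ := hPBS Φ t g hst
  refine ⟨t', f, h1, h2, ?_⟩
  have hs' : ∀ i, ct.Is (C.σ i) ((s i).map (AlgHom.id k k)) := fun i => by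
    rw [pt_map_id _ _ rfl]
    exact hs i
  have h3 := hKSN (φ := AlgHom.id k k) Φ (idArrow C) (idCh ct) t t' f
    (by rw [h2]; exact (Category.id_comp _).symm) s hs hs' h δ hK
  refine ks_congr (funext fun i => pt_map_id _ _ rfl) ?_ rfl h3
  funext l
  simp [pushh]

/-- `ε ↦ a ε` -/
noncomputable def scaleHom (a : k) :
    SqHom (sqEps k) (sqEps k) (RingHom.id k) (fun _ _ => a) where
  Φ := epsScale a
  hi b := by
    show epsScale a (TrivSqZeroExt.inl b) = TrivSqZeroExt.inl b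
    simp [epsScale]
  he j := by
    show TrivSqZeroExt.map (a • (LinearMap.id : k →ₗ[k] k)) (TrivSqZeroExt.inr 1) =
      ∑ _l : Unit, TrivSqZeroExt.inr 1 * TrivSqZeroExt.inl a
    rw [Finset.univ_unique, Finset.sum_singleton, TrivSqZeroExt.map_inr,
      TrivSqZeroExt.inr_mul_inl]
    congr 1
    simp

/-- `ε₁ ↦ a ε`, `ε₂ ↦ b ε` -/
noncomputable def pairHom (a b : k) :
    SqHom (sqEps2 k) (sqEps k) (RingHom.id k) (fun j _ => if j then a else b) where
  Φ := epsPair a b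
  hi c := by
    show epsPair a b (TrivSqZeroExt.inl c) = TrivSqZeroExt.inl c
    simp [epsPair]
  he j := by
    show TrivSqZeroExt.map (a • LinearMap.fst k k k + b • LinearMap.snd k k k)
      (TrivSqZeroExt.inr (if j then (1, 0) else (0, 1))) =
      ∑ _l : Unit, TrivSqZeroExt.inr 1 * TrivSqZeroExt.inl (if j then a else b)
    rw [Finset.univ_unique, Finset.sum_singleton, TrivSqZeroExt.map_inr,
      TrivSqZeroExt.inr_mul_inl]
    congr 1
    cases j <;> simp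

/-- The value of a covector on a class. -/
structure Val (ct : Charted T C) (s : Fin n → Pt T k) (hs : ∀ i, ct.Is (C.σ i) (s i)) {g : ℕ}
    (l : Cov g C) (Λ : k ⊗[k] T.R12 → (Fin n → k) → k) : Prop where
  val : ∀ (d : Defo g C) (h : k ⊗[k] T.R12) (δ : Fin n → k),
    KS ct d.thk s hs (fun _ => h) (fun _ => δ) → l.l d = Λ h δ
  add : ∀ h h' δ δ', Λ (h + h') (δ + δ') = Λ h δ + Λ h' δ'
  smul : ∀ (a : k) h δ, Λ (a • h) (a • δ) = a * Λ h δ
  rel1 : ∀ a : T.R1, Λ (1 ⊗ₜ T.j1 a) (fun i => (s i).l1 a) = 0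
  rel2 : ∀ a : T.R2, Λ (-(1 ⊗ₜ (T.e * T.j2 a))) (fun i => (s i).l2 a) = 0

theorem exists_val (hGLU : Stmt_GLU) (hKSU : Stmt_KSU) (hPBS : Stmt_PBS) (hKSN : Stmt_KSN)
    {g : ℕ} (hC : IsStable g C) (ct : Charted T C) (ha : ct.Aff) (s : Fin n → Pt T k)
    (hs : ∀ i, ct.Is (C.σ i) (s i)) (l : Cov g C) : ∃ Λ, Val ct s hs l Λ := by
  choose t hst hK using fun (h : k ⊗[k] T.R12) (δ : Fin n → k) =>
    hGLU g hC ct ha s hs (sqEps k) (fun _ : Unit => h) (fun _ => δ)
  let df : k ⊗[k] T.R12 → (Fin n → k) → Defo g C := fun h δ => ⟨(t h δ).y, hst h δ, (t h δ).r⟩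
  have val : ∀ (d : Defo g C) (h : k ⊗[k] T.R12) (δ : Fin n → k),
      KS ct d.thk s hs (fun _ => h) (fun _ => δ) → l.l d = l.l (df h δ) := by
    intro d h δ hd
    obtain ⟨f, hf⟩ := hKSU ct ha s hs (sqEps k) (fun _ => h) (fun _ => δ) d.thk (t h δ) hd
      (hK h δ)
    exact l.iso d (df h δ) f hf
  have smul : ∀ (a : k) h δ, l.l (df (a • h) (a • δ)) = a * l.l (df h δ) := by
    intro a h δ
    obtain ⟨t', f, h1, h2, h3⟩ := push hPBS hKSN ct s hs (scaleHom a) _ _ (t h δ) (hst h δ)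
      (hK h δ)
    rw [← l.scale a (df h δ) ⟨t'.y, h1, t'.r⟩ f h2]
    refine (val ⟨t'.y, h1, t'.r⟩ _ _ ?_).symm
    refine ks_congr rfl ?_ ?_ h3
    · funext j
      simp
    · funext j i
      simp
  have zero : l.l (df 0 0) = 0 := by
    have := smul 0 0 0
    rwa [zero_smul, zero_smul, zero_mul] at this
  refine ⟨fun h δ => l.l (df h δ), val, ?_, smul, ?_, ?_⟩
  · intro h h' δ δ'
    obtain ⟨z, hz, hzK⟩ := hGLU g hC ct ha s hs (sqEps2 k) (fun j : Bool => if j then h else h')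
      (fun j => if j then δ else δ')
    obtain ⟨t1, f1, h11, h12, h13⟩ := push hPBS hKSN ct s hs (pairHom (k := k) 1 0) _ _ z hz hzK
    obtain ⟨t2, f2, h21, h22, h23⟩ := push hPBS hKSN ct s hs (pairHom (k := k) 0 1) _ _ z hz hzK
    obtain ⟨t3, f3, h31, h32, h33⟩ := push hPBS hKSN ct s hs (pairHom (k := k) 1 1) _ _ z hz hzK
    have h4 := l.add z.y hz z.r ⟨t1.y, h11, t1.r⟩ ⟨t2.y, h21, t2.r⟩ ⟨t3.y, h31, t3.r⟩ f1 f2 f3
      h12 h22 h32
    have e1 : l.l ⟨t1.y, h11, t1.r⟩ = l.l (df h δ) := by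
      refine val ⟨t1.y, h11, t1.r⟩ _ _ (ks_congr rfl ?_ ?_ h13)
      · funext j
        simp
      · funext j i
        simp
    have e2 : l.l ⟨t2.y, h21, t2.r⟩ = l.l (df h' δ') := by
      refine val ⟨t2.y, h21, t2.r⟩ _ _ (ks_congr rfl ?_ ?_ h23)
      · funext j
        simp
      · funext j i
        simp
    have e3 : l.l ⟨t3.y, h31, t3.r⟩ = l.l (df (h + h') (δ + δ')) := by
      refine val ⟨t3.y, h31, t3.r⟩ _ _ (ks_congr rfl ?_ ?_ h33)
      · funext j
        simp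
      · funext j i
        simp
    rw [← e1, ← e2, ← e3]
    exact h4
  · intro a
    obtain ⟨H, ⟨K⟩⟩ := hK 0 0
    have h1 : KS ct (df 0 0).thk s hs (fun _ => (0 : k ⊗[k] T.R12) + 1 ⊗ₜ T.j1 a)
      (fun _ i => (0 : Fin n → k) i + (s i).l1 a) := ⟨H, change1 K fun _ => a⟩
    have h2 := val (df 0 0) _ _ h1
    rw [zero] at h2
    rw [h2]
    congr 2
    simp
  · intro a
    obtain ⟨H, ⟨K⟩⟩ := hK 0 0
    have h1 : KS ct (df 0 0).thk s hs (fun _ => (0 : k ⊗[k] T.R12) - 1 ⊗ₜ (T.e * T.j2 a))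
      (fun _ i => (0 : Fin n → k) i + (s i).l2 a) := ⟨H, change2 K fun _ => a⟩
    have h2 := val (df 0 0) _ _ h1
    rw [zero] at h2
    rw [h2]
    congr 2
    simp

end

end CLS

open _root_.Pool.Agent.MG.CLS in
/-- over a field, every covector is given by covector data -/
theorem t_CLS' (hGLU : Stmt_GLU) (hKSU : Stmt_KSU) (hPBS : Stmt_PBS) (hKSN : Stmt_KSN) :
    Stmt_CLS := by
  intro n k _ T C g hC ct ha s hs l
  obtain ⟨Λ, H⟩ := exists_val hGLU hKSU hPBS hKSN hC ct ha s hs l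
  have hz : Λ 0 0 = 0 := by
    have := H.smul 0 0 0
    rwa [zero_smul, zero_smul, zero_mul] at this
  let μ : T.R12 →ₗ[k] k :=
    { toFun := fun r => Λ (1 ⊗ₜ r) 0
      map_add' := fun r r' => by
        rw [TensorProduct.tmul_add, ← H.add, add_zero]
      map_smul' := fun a r => by
        rw [TensorProduct.tmul_smul, RingHom.id_apply, smul_eq_mul, ← H.smul, smul_zero] }
  let N : (Fin n → k) →ₗ[k] k :=
    { toFun := fun δ => Λ 0 δ
      map_add' := fun δ δ' => by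
        rw [← H.add, add_zero]
      map_smul' := fun a δ => by
        rw [RingHom.id_apply, smul_eq_mul, ← H.smul, smul_zero] }
  have hμ : ∀ h, Λ h 0 = ext μ h := by
    intro h
    induction h using TensorProduct.induction_on with
    | zero => rw [hz, map_zero]
    | tmul c r =>
      have h1 : c ⊗ₜ[k] r = c • ((1 : k) ⊗ₜ[k] r) := by
        rw [TensorProduct.smul_tmul', smul_eq_mul, mul_one]
      rw [h1]
      have h2 := H.smul c (1 ⊗ₜ r) 0
      rw [smul_zero] at h2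
      rw [h2, map_smul, smul_eq_mul]
      congr 1
      show Λ (1 ⊗ₜ r) 0 = ext μ (1 ⊗ₜ r)
      simp [ext, μ]
    | add u v hu hv =>
      have h1 := H.add u v 0 0
      rw [add_zero] at h1
      rw [h1, hu, hv, map_add]
  let ν : Fin n → k := fun i => Λ 0 (fun j => if i = j then 1 else 0)
  have hN : ∀ δ, Λ 0 δ = ∑ i, ν i * δ i := by
    intro δ
    have h1 := LinearMap.pi_apply_eq_sum_univ N δ
    show N δ = _
    rw [h1]
    refine Finset.sum_congr rfl fun i _ => ?_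
    rw [smul_eq_mul, mul_comm]
    rfl
  have hall : ∀ h δ, Λ h δ = ext μ h + ∑ i, ν i * δ i := by
    intro h δ
    have h1 := H.add h 0 0 δ
    rw [add_zero, zero_add] at h1
    rw [h1, hμ, hN]
  have hμ1 : ∀ r, ext μ (1 ⊗ₜ r) = μ r := by
    intro r
    simp [ext]
  refine ⟨{
    μ := μ
    ν := ν
    m1 := fun a => ?_
    m2 := fun a => ?_ }, fun d h δ hd => ?_⟩
  · have h1 := H.rel1 a
    rw [hall, hμ1] at h1
    exact h1
  · have h1 := H.rel2 a
    rw [hall, map_neg, hμ1] at h1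
    exact (neg_add_eq_zero.1 h1)
  · rw [H.val d h δ hd, hall]

theorem t_CLS (hGLU : Stmt_GLU) (hKSU : Stmt_KSU) (hPBS : Stmt_PBS) (hKSN : Stmt_KSN)
    (_hSQZ : Stmt_SQZ) (_hAX : Stmt_AX) : Stmt_CLS :=
  t_CLS' hGLU hKSU hPBS hKSN

end Pool.Agent.MG


end

section

/-!
# The arithmetic genus is invariant under extension of the field
-/

open CategoryTheory CategoryTheory.Limits AlgebraicGeometry TensorProduct

namespace Pool.Agent.MG

namespace GEN

variable {k K : Type} [Field k] [Field K] [Algebra k K]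

/-- Linear algebra: the cokernel after extension of the field. -/
theorem lin {A1 A2 A12 : Type} [AddCommGroup A1] [AddCommGroup A2] [AddCommGroup A12]
    [Module k A1] [Module k A2] [Module k A12] (r1 : A1 →ₗ[k] A12) (r2 : A2 →ₗ[k] A12) {g : ℕ}
    (L : A12 →ₗ[k] (Fin g → k)) (hL : Function.Surjective L)
    (hk : ∀ s, L s = 0 ↔ ∃ a b, s = r1 a + r2 b) :
    ∃ L' : K ⊗[k] A12 →ₗ[K] (Fin g → K), Function.Surjective L' ∧
      ∀ s, L' s = 0 ↔ ∃ a b, s = r1.lTensor K a + r2.lTensor K b := by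
  classical
  let e := TensorProduct.piScalarRight k K K (Fin g)
  have hex : Function.Exact (r1.coprod r2) L := by
    intro s
    rw [hk]
    constructor
    · rintro ⟨a, b, rfl⟩
      exact ⟨(a, b), by simp⟩
    · rintro ⟨⟨a, b⟩, rfl⟩
      exact ⟨a, b, by simp⟩
  have hex' : Function.Exact ((r1.coprod r2).lTensor K) (L.lTensor K) :=
    lTensor_exact K hex hL
  have key : ∀ s, (L.lTensor K) s = 0 ↔ ∃ a b, s = r1.lTensor K a + r2.lTensor K b := by
    intro s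
    constructor
    · intro hs
      obtain ⟨x, rfl⟩ := (hex' s).1 hs
      refine ⟨(LinearMap.fst k A1 A2).lTensor K x, (LinearMap.snd k A1 A2).lTensor K x, ?_⟩
      have h1 : r1.coprod r2 = r1 ∘ₗ LinearMap.fst k A1 A2 + r2 ∘ₗ LinearMap.snd k A1 A2 := by
        ext <;> simp
      rw [h1, LinearMap.lTensor_add, LinearMap.lTensor_comp, LinearMap.lTensor_comp]
      rfl
    · rintro ⟨a, b, rfl⟩
      have h1 : L ∘ₗ r1 = 0 := by
        ext1 x
        exact (hk (r1 x)).2 ⟨x, 0, by simp⟩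
      have h2 : L ∘ₗ r2 = 0 := by
        ext1 x
        exact (hk (r2 x)).2 ⟨0, x, by simp⟩
      rw [map_add, ← LinearMap.comp_apply, ← LinearMap.comp_apply, ← LinearMap.lTensor_comp,
        ← LinearMap.lTensor_comp, h1, h2]
      simp
  refine ⟨e.toLinearMap ∘ₗ L.baseChange K, ?_, ?_⟩
  · exact e.surjective.comp (LinearMap.lTensor_surjective K hL)
  · intro s
    rw [← key s]
    change e ((L.baseChange K) s) = 0 ↔ _
    rw [LinearEquiv.map_eq_zero_iff]
    rfl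

variable {X : Scheme.{0}} (π : X ⟶ Sp k)

/-- The sections of the base change over an affine open subset. -/
theorem iso (W : X.Opens) (hW : IsAffineOpen W) [Algebra k Γ(X, W)]
    (hA : algebraMap k Γ(X, W) = coef π W) :
    ∃ e : K ⊗[k] Γ(X, W) ≃+* Γ(pullback π (spMap (algebraMap k K)),
        (pullback.fst π (spMap (algebraMap k K))) ⁻¹ᵁ W),
      ∀ (c : K) (a : Γ(X, W)), e (c ⊗ₜ a) =
        coef (pullback.snd π (spMap (algebraMap k K)))
          ((pullback.fst π (spMap (algebraMap k K))) ⁻¹ᵁ W) c *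
        ((pullback.fst π (spMap (algebraMap k K))).appLE W
          ((pullback.fst π (spMap (algebraMap k K))) ⁻¹ᵁ W) le_rfl).hom a := by
  set f := pullback.fst π (spMap (algebraMap k K)) with hf
  set p := pullback.snd π (spMap (algebraMap k K)) with hp
  have H : IsPullback f p π (spMap (algebraMap k K)) := IsPullback.of_hasPullback _ _
  have hUY : f ⁻¹ᵁ W = f ⁻¹ᵁ W ⊓ p ⁻¹ᵁ ⊤ := by
    change _ = f ⁻¹ᵁ W ⊓ ⊤
    rw [inf_top_eq]
  have h1 := (isIso_pushoutSection_iff H (US := ⊤) (UT := ⊤) (UX := W) (UY := f ⁻¹ᵁ W)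
    (show (⊤ : (Sp K).Opens) ≤ (spMap (algebraMap k K)) ⁻¹ᵁ ⊤ from le_top)
    (show W ≤ π ⁻¹ᵁ ⊤ from le_top) hUY).1
    (isIso_pushoutSection_of_isAffineOpen H _ _ hUY (isAffineOpen_top _) (isAffineOpen_top _) hW)
  have h2 : IsPushout (CommRingCat.ofHom (algebraMap k Γ(X, W)))
      (CommRingCat.ofHom (algebraMap k K)) (f.appLE W (f ⁻¹ᵁ W) le_rfl)
      (CommRingCat.ofHom (coef p (f ⁻¹ᵁ W))) := by
    refine h1.of_iso (Scheme.ΓSpecIso (CommRingCat.of k)) (Iso.refl _)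
      (Scheme.ΓSpecIso (CommRingCat.of K)) (Iso.refl _) ?_ ?_ ?_ ?_
    · rw [hA, coef_eq, CommRingCat.ofHom_hom, Iso.hom_inv_id_assoc]
      simp
    · exact Scheme.ΓSpecIso_naturality (CommRingCat.ofHom (algebraMap k K))
    · simp
    · rw [coef_eq, CommRingCat.ofHom_hom, Iso.hom_inv_id_assoc]
      simp
  have h3 := CommRingCat.isPushout_tensorProduct k K Γ(X, W)
  let i := h3.isoIsPushout _ _ h2.flip
  refine ⟨i.commRingCatIsoToRingEquiv, ?_⟩
  intro c a
  have e1 : i.commRingCatIsoToRingEquiv (c ⊗ₜ 1) = coef p (f ⁻¹ᵁ W) c := by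
    have := ConcreteCategory.congr_hom (IsPushout.inl_isoIsPushout_hom _ _ h3 h2.flip) c
    exact this
  have e2 : i.commRingCatIsoToRingEquiv (1 ⊗ₜ a) = (f.appLE W (f ⁻¹ᵁ W) le_rfl).hom a := by
    have := ConcreteCategory.congr_hom (IsPushout.inr_isoIsPushout_hom _ _ h3 h2.flip) a
    exact this
  have e3 : c ⊗ₜ[k] a = (c ⊗ₜ 1) * (1 ⊗ₜ a) := by simp
  rw [e3, map_mul, e1, e2]


/-- The base change of a restriction map. -/
theorem nat {U V : X.Opens} (h : U ≤ V) [Algebra k Γ(X, U)] [Algebra k Γ(X, V)]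
    (r : Γ(X, V) →ₗ[k] Γ(X, U)) (hr : ∀ a, r a = rs X h a)
    (eU : K ⊗[k] Γ(X, U) ≃+* Γ(pullback π (spMap (algebraMap k K)),
        (pullback.fst π (spMap (algebraMap k K))) ⁻¹ᵁ U))
    (eV : K ⊗[k] Γ(X, V) ≃+* Γ(pullback π (spMap (algebraMap k K)),
        (pullback.fst π (spMap (algebraMap k K))) ⁻¹ᵁ V))
    (hU : ∀ (c : K) (a : Γ(X, U)), eU (c ⊗ₜ a) =
        coef (pullback.snd π (spMap (algebraMap k K)))
          ((pullback.fst π (spMap (algebraMap k K))) ⁻¹ᵁ U) c *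
        ((pullback.fst π (spMap (algebraMap k K))).appLE U
          ((pullback.fst π (spMap (algebraMap k K))) ⁻¹ᵁ U) le_rfl).hom a)
    (hV : ∀ (c : K) (a : Γ(X, V)), eV (c ⊗ₜ a) =
        coef (pullback.snd π (spMap (algebraMap k K)))
          ((pullback.fst π (spMap (algebraMap k K))) ⁻¹ᵁ V) c *
        ((pullback.fst π (spMap (algebraMap k K))).appLE V
          ((pullback.fst π (spMap (algebraMap k K))) ⁻¹ᵁ V) le_rfl).hom a)
    (h' : (pullback.fst π (spMap (algebraMap k K))) ⁻¹ᵁ U ≤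
      (pullback.fst π (spMap (algebraMap k K))) ⁻¹ᵁ V) (x : K ⊗[k] Γ(X, V)) :
    rs _ h' (eV x) = eU (r.lTensor K x) := by
  induction x with
  | zero => simp
  | tmul c a =>
    rw [hV, LinearMap.lTensor_tmul, hU, map_mul, coef_rs, hr]
    congr 1
    change ((pullback.fst π (spMap (algebraMap k K))).appLE V _ le_rfl ≫
      (pullback π (spMap (algebraMap k K))).presheaf.map (homOfLE h').op) a =
      (X.presheaf.map (homOfLE h).op ≫ (pullback.fst π (spMap (algebraMap k K))).appLE U _ le_rfl) a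
    rw [Scheme.Hom.appLE_map, Scheme.Hom.map_appLE]
  | add u v hu hv => rw [map_add, map_add, map_add, map_add, hu, hv]

/-- Scalars. -/
theorem scal {U : X.Opens} [Algebra k Γ(X, U)]
    (eU : K ⊗[k] Γ(X, U) ≃+* Γ(pullback π (spMap (algebraMap k K)),
        (pullback.fst π (spMap (algebraMap k K))) ⁻¹ᵁ U))
    (hU : ∀ (c : K) (a : Γ(X, U)), eU (c ⊗ₜ a) =
        coef (pullback.snd π (spMap (algebraMap k K)))
          ((pullback.fst π (spMap (algebraMap k K))) ⁻¹ᵁ U) c *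
        ((pullback.fst π (spMap (algebraMap k K))).appLE U
          ((pullback.fst π (spMap (algebraMap k K))) ⁻¹ᵁ U) le_rfl).hom a)
    (c : K) (x : K ⊗[k] Γ(X, U)) :
    eU (c • x) = coef (pullback.snd π (spMap (algebraMap k K)))
          ((pullback.fst π (spMap (algebraMap k K))) ⁻¹ᵁ U) c * eU x := by
  have h1 : c • x = (c ⊗ₜ 1) * x := by
    rw [Algebra.smul_def]
    rfl
  rw [h1, map_mul, hU, map_one, mul_one]

end GEN

open _root_.Pool.Agent.MG.GEN in
theorem t_GEN : Stmt_GEN := by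
  intro n k _ C g hC hg K _ _ τ hτ
  obtain ⟨U, V, hU, hV, hUV, L, hL, hlin, hker⟩ := hg
  have hsep : C.X.IsSeparated := by
    constructor
    rw [← terminal.comp_from C.π]
    infer_instance
  have hI : IsAffineOpen (U ⊓ V) := hU.inf hV
  let a1 : Algebra k Γ(C.X, U) := (coef C.π U).toAlgebra
  let a2 : Algebra k Γ(C.X, V) := (coef C.π V).toAlgebra
  let a12 : Algebra k Γ(C.X, U ⊓ V) := (coef C.π (U ⊓ V)).toAlgebra
  let Ll : Γ(C.X, U ⊓ V) →ₗ[k] (Fin g → k) :=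
    { toFun := L
      map_add' := L.map_add
      map_smul' := fun c s => hlin c s }
  let r1 : Γ(C.X, U) →ₗ[k] Γ(C.X, U ⊓ V) :=
    { toFun := rs C.X inf_le_left
      map_add' := map_add _
      map_smul' := fun c s => by
        change rs C.X inf_le_left (coef C.π U c * s) = coef C.π (U ⊓ V) c * rs C.X inf_le_left s
        rw [map_mul, coef_rs] }
  let r2 : Γ(C.X, V) →ₗ[k] Γ(C.X, U ⊓ V) :=
    { toFun := rs C.X inf_le_right
      map_add' := map_add _
      map_smul' := fun c s => by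
        change rs C.X inf_le_right (coef C.π V c * s) = coef C.π (U ⊓ V) c * rs C.X inf_le_right s
        rw [map_mul, coef_rs] }
  obtain ⟨L', hL', hk'⟩ := lin (K := K) r1 r2 Ll hL hker
  obtain ⟨e1, he1⟩ := GEN.iso (K := K) C.π U hU rfl
  obtain ⟨e2, he2⟩ := GEN.iso (K := K) C.π V hV rfl
  obtain ⟨e12, he12⟩ := GEN.iso (K := K) C.π (U ⊓ V) hI rfl
  change HasGenus (pullback.snd C.π (spMap (algebraMap k K))) g
  let f := pullback.fst C.π (spMap (algebraMap k K))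
  have hfa : IsAffineHom f :=
    MorphismProperty.pullback_fst (P := @IsAffineHom) C.π (spMap (algebraMap k K)) inferInstance
  have hi1 : f ⁻¹ᵁ (U ⊓ V) ≤ f ⁻¹ᵁ U := fun x hx => hx.1
  have hi2 : f ⁻¹ᵁ (U ⊓ V) ≤ f ⁻¹ᵁ V := fun x hx => hx.2
  refine ⟨f ⁻¹ᵁ U, f ⁻¹ᵁ V, hU.preimage f, hV.preimage f, ?_,
    L'.toAddMonoidHom.comp e12.symm.toAddMonoidHom, ?_, ?_, ?_⟩
  · rw [← Scheme.Hom.preimage_sup, hUV]
    rfl
  · exact hL'.comp e12.symm.surjective
  · intro c (s : Γ(pullback C.π (spMap (algebraMap k K)), f ⁻¹ᵁ (U ⊓ V)))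
    change L' (e12.symm (coef _ (f ⁻¹ᵁ (U ⊓ V)) c * s)) = c • L' (e12.symm s)
    rw [← map_smul]
    congr 1
    rw [RingEquiv.symm_apply_eq, scal C.π e12 he12, RingEquiv.apply_symm_apply]
  · intro (s : Γ(pullback C.π (spMap (algebraMap k K)), f ⁻¹ᵁ (U ⊓ V)))
    change L' (e12.symm s) = 0 ↔ _
    rw [hk']
    constructor
    · rintro ⟨a, b, hab⟩
      refine ⟨e1 a, e2 b, ?_⟩
      have h1 := GEN.nat (K := K) C.π inf_le_left r1 (fun _ => rfl) e12 e1 he12 he1 hi1 a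
      have h2 := GEN.nat (K := K) C.π inf_le_right r2 (fun _ => rfl) e12 e2 he12 he2 hi2 b
      rw [RingEquiv.symm_apply_eq, map_add, ← h1, ← h2] at hab
      exact hab
    · rintro ⟨a, b, hab⟩
      refine ⟨e1.symm a, e2.symm b, ?_⟩
      have h1 := GEN.nat (K := K) C.π inf_le_left r1 (fun _ => rfl) e12 e1 he12 he1 hi1
        (e1.symm a)
      have h2 := GEN.nat (K := K) C.π inf_le_right r2 (fun _ => rfl) e12 e2 he12 he2 hi2
        (e2.symm b)
      rw [RingEquiv.apply_symm_apply] at h1 h2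
      rw [RingEquiv.symm_apply_eq, map_add, ← h1, ← h2]
      exact hab

end Pool.Agent.MG


end

section

/-!
# MVV: the value of a covector at the deformation which moves one marked point
-/

open CategoryTheory CategoryTheory.Limits AlgebraicGeometry TensorProduct

namespace Pool.Agent.MG

namespace MVV

section

variable {n : ℕ} {k : Type} [Field k] {C : Fam n k}

/-- functions on the base and a section -/
theorem lift_coef {A : Type} [CommRing A] {X : Scheme.{0}} (π : X ⟶ Sp A) (σ : Sp A ⟶ X)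
    (hσ : σ ≫ π = 𝟙 _) (U : X.Opens) (h : ⊤ ≤ σ ⁻¹ᵁ U) (a : A) :
    (Scheme.ΓSpecIso (CommRingCat.of A)).hom.hom ((σ.appLE U ⊤ h).hom (coef π U a)) = a := by
  rw [coef_comp, hσ, coef_id, gl_inv]

/-- a constant section -/
theorem const_sec (σ : Sp k ⟶ C.X) (τ : Sp (Eps k) ⟶ C.X)
    (hτ : τ = spMap (algebraMap k (Eps k)) ≫ σ) (U : C.X.Opens) (h : ⊤ ≤ σ ⁻¹ᵁ U)
    (h' : ⊤ ≤ τ ⁻¹ᵁ U) (v : Γ(C.X, U)) :
    (Scheme.ΓSpecIso (CommRingCat.of (Eps k))).hom.hom ((τ.appLE U ⊤ h').hom v) =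
      algebraMap k (Eps k)
        ((Scheme.ΓSpecIso (CommRingCat.of k)).hom.hom ((σ.appLE U ⊤ h).hom v)) := by
  subst hτ
  rw [← gs_spMap]
  have h1 := Scheme.Hom.appLE_comp_appLE (spMap (algebraMap k (Eps k))) σ U ⊤ ⊤ h le_top
  have h2 := ConcreteCategory.congr_hom h1 v
  have h3 : ((spMap (algebraMap k (Eps k)) ≫ σ).appLE U ⊤ h').hom v =
      ((spMap (algebraMap k (Eps k))).appLE ⊤ ⊤ le_top).hom ((σ.appLE U ⊤ h).hom v) := h2.symm
  have h4 : (spMap (algebraMap k (Eps k))).appLE ⊤ ⊤ le_top =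
      (spMap (algebraMap k (Eps k))).appTop := Scheme.Hom.appLE_eq_app _
  rw [h3, h4]

/-- the moved section -/
theorem mov_sec (Φ : Flow C.π) (σ : Sp k ⟶ C.X) (hσ : σ ≫ C.π = 𝟙 _) (U : C.X.Opens)
    (h : ⊤ ≤ σ ⁻¹ᵁ U) (s w : Γ(C.X, U)) (hs : Φ.Has U s w) (h' : ⊤ ≤ (Φ.mov σ hσ) ⁻¹ᵁ U) :
    (Scheme.ΓSpecIso (CommRingCat.of (Eps k))).hom.hom (((Φ.mov σ hσ).appLE U ⊤ h').hom s) =
      algebraMap k (Eps k)
        ((Scheme.ΓSpecIso (CommRingCat.of k)).hom.hom ((σ.appLE U ⊤ h).hom s)) +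
      TrivSqZeroExt.inr 1 * algebraMap k (Eps k)
        ((Scheme.ΓSpecIso (CommRingCat.of k)).hom.hom ((σ.appLE U ⊤ h).hom w)) := by
  obtain ⟨hU, hsw⟩ := hs
  set L : Sp (Eps k) ⟶ XE C.π := pullback.lift (spMap (algebraMap k (Eps k)) ≫ σ) (𝟙 _) (by
    rw [Category.assoc, hσ, Category.comp_id, Category.id_comp]) with hL
  have hL1 : L ≫ pullback.fst _ _ = spMap (algebraMap k (Eps k)) ≫ σ := pullback.lift_fst _ _ _
  have hL2 : L ≫ pullback.snd _ _ = 𝟙 _ := pullback.lift_snd _ _ _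
  set V := pullback.fst C.π (spMap (algebraMap k (Eps k))) ⁻¹ᵁ U with hV
  have hLV : ⊤ ≤ L ⁻¹ᵁ V := by
    have h1 : ⊤ ≤ (L ≫ pullback.fst _ _) ⁻¹ᵁ U := by
      rw [hL1]
      intro x _
      exact h (by trivial)
    exact h1
  have h1 : ((Φ.mov σ hσ).appLE U ⊤ h').hom s =
      (L.appLE V ⊤ hLV).hom ((Φ.θ.appLE U V hU).hom s) := by
    have h2 := Scheme.Hom.appLE_comp_appLE L Φ.θ U V ⊤ hU hLV
    exact (ConcreteCategory.congr_hom h2 s).symm
  have h3 : ∀ v : Γ(C.X, U), (L.appLE V ⊤ hLV).hom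
      (((pullback.fst C.π (spMap (algebraMap k (Eps k)))).appLE U V le_rfl).hom v) =
      ((L ≫ pullback.fst C.π (spMap (algebraMap k (Eps k)))).appLE U ⊤ hLV).hom v := fun v =>
    ConcreteCategory.congr_hom (Scheme.Hom.appLE_comp_appLE L
      (pullback.fst C.π (spMap (algebraMap k (Eps k)))) U V ⊤ le_rfl hLV) v
  rw [h1, hsw, map_add, map_mul, map_add, map_mul, h3, h3, lift_coef _ _ hL2,
    const_sec σ _ hL1 U h hLV, const_sec σ _ hL1 U h hLV]

end

section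

variable {n : ℕ} {k : Type} [Field k] {T : TC k} {C : Fam n k} (ct : Charted T C)
  (t : Thk (sqEps k) C) (f : t.y.X ⟶ C.X) (hf : f ≫ C.π = t.y.π ≫ spMap (algebraMap k (Eps k)))
  (hr : t.r.f ≫ f = 𝟙 _)

include hr in
theorem pre_eq (U : C.X.Opens) : f ⁻¹ᵁ U = t.op U := by
  apply t.pre_inj
  rw [t.pre]
  change (t.r.f ≫ f) ⁻¹ᵁ U = U
  rw [hr]
  rfl

/-- the lift of functions -/
noncomputable def up (U : C.X.Opens) : Γ(C.X, U) →+* Γ(t.y.X, t.op U) :=
  (f.appLE U (t.op U) (pre_eq t f hr U).ge).hom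

theorem up_q (U : C.X.Opens) (v : Γ(C.X, U)) : t.q U (up t f hr U v) = v := by
  have h1 := Scheme.Hom.appLE_comp_appLE t.r.f f U (t.op U) U (pre_eq t f hr U).ge (t.pre U).ge
  have h2 := ConcreteCategory.congr_hom h1 v
  refine Eq.trans h2 ?_
  have h3 : (t.r.f ≫ f).appLE U U ((t.pre U).ge.trans (by
      exact fun x hx => (pre_eq t f hr U).ge hx)) = 𝟙 _ := by
    have h4 : ∀ (g : C.X ⟶ C.X) (hg : g = 𝟙 _) (hU : U ≤ g ⁻¹ᵁ U), g.appLE U U hU = 𝟙 _ := by
      rintro g rfl hU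
      exact (Scheme.Hom.appLE_eq_app _).trans (Scheme.Hom.id_app _)
    exact h4 _ hr _
  exact ConcreteCategory.congr_hom h3 v

include hf in
theorem up_coef (U : C.X.Opens) (c : k) :
    up t f hr U (coef C.π U c) = coef t.y.π (t.op U) (algebraMap k (Eps k) c) :=
  coef_arrow hf _ _ _ c

theorem up_rs {U V : C.X.Opens} (h : U ≤ V) (v : Γ(C.X, V)) :
    rs t.y.X (t.op_mono h) (up t f hr V v) = up t f hr U (rs C.X h v) := by
  change (f.appLE V (t.op V) (pre_eq t f hr V).ge ≫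
    t.y.X.presheaf.map (homOfLE (t.op_mono h)).op) v =
    (C.X.presheaf.map (homOfLE h).op ≫ f.appLE U (t.op U) (pre_eq t f hr U).ge) v
  rw [Scheme.Hom.map_appLE, Scheme.Hom.appLE_map]

theorem up_ev (i : Fin n) {U : C.X.Opens} (h : ⊤ ≤ C.σ i ⁻¹ᵁ U) (h' : ⊤ ≤ (t.y.σ i ≫ f) ⁻¹ᵁ U)
    (v : Γ(C.X, U)) : t.ev i h (up t f hr U v) =
      (Scheme.ΓSpecIso (CommRingCat.of (Eps k))).hom.hom
        (((t.y.σ i ≫ f).appLE U ⊤ h').hom v) := by
  have h1 := Scheme.Hom.appLE_comp_appLE (t.y.σ i) f U (t.op U) ⊤ (pre_eq t f hr U).ge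
    (t.sec_le i h)
  have h2 := ConcreteCategory.congr_hom h1 v
  exact congrArg (Scheme.ΓSpecIso (CommRingCat.of (Eps k))).hom.hom h2

end

end MVV

theorem t_MVV : Stmt_MVV := by
  intro n k _ T C ct ha s hs E g l hl Φ r0 hΦ i d hd
  obtain ⟨f, hpb, hr, hσ, hi⟩ := hd
  have hf : f ≫ C.π = d.thk.y.π ≫ spMap (algebraMap k (Eps k)) := hpb.w
  have hr' : d.thk.r.f ≫ f = 𝟙 _ := hr
  have H : Good3 ct d.thk := ⟨t_SQZ t_AFF _ _ ct.ac1, t_SQZ t_AFF _ _ ct.ac2,
    t_SQZ t_AFF _ _ ct.ac12⟩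
  have hKS : KS ct d.thk (fun i => .one (s i)) hs (fun _ => 0)
      (fun _ j => if j = i then s i r0 else 0) := by
    refine ⟨H, ⟨?_⟩⟩
    refine
      { θ1 := (MVV.up d.thk f hr' ct.U1).comp
          (ct.t1.comp (Algebra.TensorProduct.includeRight : T.R1 →ₐ[k] k ⊗[k] T.R1).toRingHom)
        θ2 := (MVV.up d.thk f hr' ct.U2).comp
          (ct.t2.comp (Algebra.TensorProduct.includeRight : T.R2 →ₐ[k] k ⊗[k] T.R2).toRingHom)
        k1 := ?_
        k2 := ?_
        l1 := ?_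
        l2 := ?_
        t1 := (MVV.up d.thk f hr' (ct.U1 ⊓ ct.U2)).comp
          (ct.t12.comp (Algebra.TensorProduct.includeRight : T.R12 →ₐ[k] k ⊗[k] T.R12).toRingHom)
        t2 := (MVV.up d.thk f hr' (ct.U1 ⊓ ct.U2)).comp
          (ct.t12.comp (Algebra.TensorProduct.includeRight : T.R12 →ₐ[k] k ⊗[k] T.R12).toRingHom)
        e1 := ?_
        e2 := ?_
        lt1 := ?_
        lt2 := ?_
        diff := ?_
        dl := ?_ }
    · intro c
      change MVV.up d.thk f hr' ct.U1 (ct.t1 (1 ⊗ₜ algebraMap k T.R1 c)) =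
        coef d.thk.y.π (d.thk.op ct.U1) ((sqEps k).i (algebraMap k k c))
      have h1 : (1 : k) ⊗ₜ[k] algebraMap k T.R1 c = c ⊗ₜ 1 := by
        rw [Algebra.algebraMap_eq_smul_one, ← TensorProduct.smul_tmul, smul_eq_mul, mul_one]
      rw [h1, ct.c1, MVV.up_coef d.thk f hf hr']
      rfl
    · intro c
      change MVV.up d.thk f hr' ct.U2 (ct.t2 (1 ⊗ₜ algebraMap k T.R2 c)) =
        coef d.thk.y.π (d.thk.op ct.U2) ((sqEps k).i (algebraMap k k c))
      have h1 : (1 : k) ⊗ₜ[k] algebraMap k T.R2 c = c ⊗ₜ 1 := by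
        rw [Algebra.algebraMap_eq_smul_one, ← TensorProduct.smul_tmul, smul_eq_mul, mul_one]
      rw [h1, ct.c2, MVV.up_coef d.thk f hf hr']
      rfl
    · intro a
      change ct.eq1.symm (d.thk.q ct.U1 (MVV.up d.thk f hr' ct.U1 (ct.t1 (1 ⊗ₜ a)))) = _
      rw [MVV.up_q, RingEquiv.symm_apply_eq]
      rfl
    · intro a
      change ct.eq2.symm (d.thk.q ct.U2 (MVV.up d.thk f hr' ct.U2 (ct.t2 (1 ⊗ₜ a)))) = _
      rw [MVV.up_q, RingEquiv.symm_apply_eq]
      rfl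
    · intro a
      change MVV.up d.thk f hr' (ct.U1 ⊓ ct.U2) (ct.t12 (1 ⊗ₜ T.j1 a)) =
        rs d.thk.y.X (d.thk.op_mono inf_le_left) (MVV.up d.thk f hr' ct.U1 (ct.t1 (1 ⊗ₜ a)))
      rw [MVV.up_rs d.thk f hr' inf_le_left, ct.r1]
    · intro a
      change MVV.up d.thk f hr' (ct.U1 ⊓ ct.U2) (ct.t12 (1 ⊗ₜ T.j2 a)) =
        rs d.thk.y.X (d.thk.op_mono inf_le_right) (MVV.up d.thk f hr' ct.U2 (ct.t2 (1 ⊗ₜ a)))
      rw [MVV.up_rs d.thk f hr' inf_le_right, ct.r2]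
    · intro a
      change ct.eq12.symm (d.thk.q (ct.U1 ⊓ ct.U2)
        (MVV.up d.thk f hr' (ct.U1 ⊓ ct.U2) (ct.t12 (1 ⊗ₜ a)))) = _
      rw [MVV.up_q, RingEquiv.symm_apply_eq]
      rfl
    · intro a
      change ct.eq12.symm (d.thk.q (ct.U1 ⊓ ct.U2)
        (MVV.up d.thk f hr' (ct.U1 ⊓ ct.U2) (ct.t12 (1 ⊗ₜ a)))) = _
      rw [MVV.up_q, RingEquiv.symm_apply_eq]
      rfl
    · intro a
      refine ⟨fun _ => 0, fun _ => ?_, ?_⟩
      · rw [map_zero, zero_mul]
      · simp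
    · intro j
      change d.thk.ev j (hs j).1 (MVV.up d.thk f hr' ct.U1 (ct.t1 (1 ⊗ₜ T.x))) =
        (sqEps k).i (s j T.x) +
          ∑ m, (sqEps k).ε m * (sqEps k).i (if j = i then s i r0 else 0)
      have hle : ⊤ ≤ (d.thk.y.σ j ≫ f) ⁻¹ᵁ ct.U1 := by
        have h1 := d.thk.sec_le j (hs j).1
        rw [← MVV.pre_eq d.thk f hr'] at h1
        exact h1
      rw [MVV.up_ev d.thk f hr' j (hs j).1 hle]
      have hval : ∀ a : T.R1, (Scheme.ΓSpecIso (CommRingCat.of k)).hom.hom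
          (((C.σ j).appLE ct.U1 ⊤ (hs j).1).hom (ct.t1 (1 ⊗ₜ a))) = s j a := fun a => by
        rw [(hs j).2, gl_inv]
      by_cases hji : j = i
      · subst hji
        have h2 : ∀ (τ : Sp (Eps k) ⟶ C.X) (hτ : τ = Φ.mov (C.σ j) (C.sec j))
            (h' : ⊤ ≤ τ ⁻¹ᵁ ct.U1),
            (Scheme.ΓSpecIso (CommRingCat.of (Eps k))).hom.hom
              ((τ.appLE ct.U1 ⊤ h').hom (ct.t1 (1 ⊗ₜ T.x))) =
            algebraMap k (Eps k) (s j T.x) + TrivSqZeroExt.inr 1 * algebraMap k (Eps k) (s j r0) := by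
          rintro τ rfl h'
          rw [MVV.mov_sec Φ (C.σ j) (C.sec j) ct.U1 (hs j).1 _ _ hΦ h', hval, hval]
        refine Eq.trans (h2 _ hi hle) ?_
        rw [if_pos rfl]
        simp [sqEps]
        rfl
      · have h2 := MVV.const_sec (C.σ j) _ (hσ j hji) ct.U1 (hs j).1 hle (ct.t1 (1 ⊗ₜ T.x))
        refine Eq.trans h2 ?_
        rw [hval, if_neg hji]
        simp [sqEps]
        rfl
  have h := hl d 0 (fun j => if j = i then s i r0 else 0) hKS
  rw [h, map_zero, zero_add]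
  simp

end Pool.Agent.MG


end

section

/-!
# Ultraproducts of rings and of Krichever rings: definitions
-/

open Polynomial

namespace Pool.Agent.MG.G0

section rings

variable (𝒰 : Ultrafilter ℕ) (R : ℕ → Type) [∀ n, CommRing (R n)]

/-- The ideal of the families which are zero almost everywhere. -/
def ulI : Ideal (∀ n, R n) where
  carrier := {f | ∀ᶠ n in (𝒰 : Filter ℕ), f n = 0}
  add_mem' {f g} hf hg := by
    filter_upwards [hf, hg] with n h1 h2
    rw [Pi.add_apply, h1, h2, add_zero]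
  zero_mem' := Filter.Eventually.of_forall fun _ => rfl
  smul_mem' c f hf := by
    filter_upwards [hf] with n h
    rw [Pi.smul_apply', h, smul_zero]

/-- The ultraproduct. -/
abbrev Ul : Type := (∀ n, R n) ⧸ ulI 𝒰 R

variable {R}

/-- The class of a family. -/
def umk : (∀ n, R n) →+* Ul 𝒰 R := Ideal.Quotient.mk (ulI 𝒰 R)

theorem umk_surj : Function.Surjective (umk 𝒰 : (∀ n, R n) →+* Ul 𝒰 R) :=
  Ideal.Quotient.mk_surjective

theorem umk_eq {f g : ∀ n, R n} : umk 𝒰 f = umk 𝒰 g ↔ ∀ᶠ n in (𝒰 : Filter ℕ), f n = g n := by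
  rw [umk, Ideal.Quotient.eq]
  change (∀ᶠ n in (𝒰 : Filter ℕ), f n - g n = 0) ↔ _
  simp only [sub_eq_zero]

theorem umk_eq_zero {f : ∀ n, R n} : umk 𝒰 f = 0 ↔ ∀ᶠ n in (𝒰 : Filter ℕ), f n = 0 := by
  rw [← map_zero (umk 𝒰), umk_eq]
  rfl

/-- The homomorphism of ultraproducts. -/
def umap {S : ℕ → Type} [∀ n, CommRing (S n)] (φ : ∀ n, R n →+* S n) : Ul 𝒰 R →+* Ul 𝒰 S :=
  Ideal.Quotient.lift (ulI 𝒰 R) ((umk 𝒰).comp (RingHom.pi fun n => (φ n).comp (Pi.evalRingHom R n)))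
    fun f hf => by
      rw [RingHom.comp_apply, umk_eq_zero]
      filter_upwards [show ∀ᶠ n in (𝒰 : Filter ℕ), f n = 0 from hf] with n h
      change φ n (f n) = 0
      rw [h, map_zero]

@[simp] theorem umap_umk {S : ℕ → Type} [∀ n, CommRing (S n)] (φ : ∀ n, R n →+* S n)
    (f : ∀ n, R n) : umap 𝒰 φ (umk 𝒰 f) = umk 𝒰 (fun n => φ n (f n)) := rfl

end rings

section fields

variable (𝒰 : Ultrafilter ℕ) (K : ℕ → Type) [∀ n, Field (K n)]

instance ulI_max : (ulI 𝒰 K).IsMaximal := by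
  refine Ideal.Quotient.maximal_of_isField _ ⟨⟨0, 1, ?_⟩, mul_comm, ?_⟩
  · intro h
    have h1 : umk 𝒰 (0 : ∀ n, K n) = umk 𝒰 1 := h
    rw [umk_eq] at h1
    obtain ⟨n, hn⟩ := h1.exists
    exact zero_ne_one hn
  · intro a ha
    obtain ⟨f, rfl⟩ := umk_surj 𝒰 a
    refine ⟨umk 𝒰 fun n => (f n)⁻¹, ?_⟩
    rw [← map_mul, ← map_one (umk 𝒰), umk_eq]
    have h1 : ¬ ∀ᶠ n in (𝒰 : Filter ℕ), f n = 0 := fun h => ha ((umk_eq_zero 𝒰).2 h)
    rw [← Ultrafilter.eventually_not] at h1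
    filter_upwards [h1] with n hn
    exact mul_inv_cancel₀ hn

noncomputable instance ulField : Field (Ul 𝒰 K) := Ideal.Quotient.field (ulI 𝒰 K)

end fields

section series

variable (𝒰 : Ultrafilter ℕ) {R : ℕ → Type} [∀ n, CommRing (R n)]

/-- The series `F` over the ultraproduct is the class of the family `f` of series. -/
def USer (F : LaurentSeries (Ul 𝒰 R)) (f : ∀ n, LaurentSeries (R n)) : Prop :=
  (∃ N : ℤ, ∀ n, f n ∈ Po (R n) N) ∧ ∀ m : ℤ, F.coeff m = umk 𝒰 fun n => (f n).coeff m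

theorem USer.exists (F : LaurentSeries (Ul 𝒰 R)) : ∃ f : ∀ n, LaurentSeries (R n),
    USer 𝒰 F f := by
  obtain ⟨N, hN⟩ := exists_low F
  choose c hc using fun m : ℤ => umk_surj 𝒰 (F.coeff m)
  refine ⟨fun n => ⟨fun m => if m < -(N : ℤ) then 0 else c m n, ?_⟩, ⟨N, fun n m hm => ?_⟩,
    fun m => ?_⟩
  · refine (Set.IsPWO.mono (t := Set.Ici (-(N : ℤ))) ?_ fun m hm => ?_)
    · exact (BddBelow.isWF ⟨_, fun _ h => h⟩).isPWO
    · by_contra h
      rw [Set.mem_Ici, not_le] at h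
      exact hm (if_pos h)
  · exact if_pos hm
  · by_cases h : m < -(N : ℤ)
    · rw [hN m h]
      symm
      rw [umk_eq_zero]
      exact Filter.Eventually.of_forall fun n => if_pos h
    · rw [← hc m, umk_eq]
      exact Filter.Eventually.of_forall fun n => (if_neg h).symm

theorem USer.add {F G : LaurentSeries (Ul 𝒰 R)} {f g : ∀ n, LaurentSeries (R n)}
    (h : USer 𝒰 F f) (k : USer 𝒰 G g) : USer 𝒰 (F + G) (fun n => f n + g n) := by
  obtain ⟨⟨N, hN⟩, h1⟩ := h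
  obtain ⟨⟨M, hM⟩, k1⟩ := k
  refine ⟨⟨max N M, fun n m hm => ?_⟩, fun m => ?_⟩
  · rw [HahnSeries.coeff_add, hN n m (by omega), hM n m (by omega), add_zero]
  · rw [HahnSeries.coeff_add, h1, k1, ← map_add]
    rfl

theorem USer.mul {F G : LaurentSeries (Ul 𝒰 R)} {f g : ∀ n, LaurentSeries (R n)}
    (h : USer 𝒰 F f) (k : USer 𝒰 G g) : USer 𝒰 (F * G) (fun n => f n * g n) := by
  obtain ⟨⟨N, hN⟩, h1⟩ := h
  obtain ⟨⟨M, hM⟩, k1⟩ := k
  have hF : ∀ m < -N, F.coeff m = 0 := fun m hm => by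
    rw [h1, umk_eq_zero]
    exact Filter.Eventually.of_forall fun n => hN n m hm
  have hG : ∀ m < -M, G.coeff m = 0 := fun m hm => by
    rw [k1, umk_eq_zero]
    exact Filter.Eventually.of_forall fun n => hM n m hm
  refine ⟨⟨N + M, fun n m hm => mul_low (hN n) (hM n) m (by omega)⟩, fun m => ?_⟩
  rw [coeff_mul_Icc hF hG]
  simp only [h1, k1, ← map_mul, ← map_sum]
  congr 1
  funext n
  rw [coeff_mul_Icc (hN n) (hM n), Finset.sum_apply]
  rfl

/-- The ultraproduct of subalgebras of `R((τ))`: the classes of families with bounded poles. -/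
def UP (P : ∀ n, Subalgebra (R n) (LaurentSeries (R n))) :
    Subalgebra (Ul 𝒰 R) (LaurentSeries (Ul 𝒰 R)) where
  carrier := {F | ∃ f : ∀ n, LaurentSeries (R n), USer 𝒰 F f ∧ ∀ n, f n ∈ P n}
  mul_mem' := by
    rintro F G ⟨f, h, hf⟩ ⟨g, k, hg⟩
    exact ⟨_, h.mul 𝒰 k, fun n => mul_mem (hf n) (hg n)⟩
  add_mem' := by
    rintro F G ⟨f, h, hf⟩ ⟨g, k, hg⟩
    exact ⟨_, h.add 𝒰 k, fun n => add_mem (hf n) (hg n)⟩
  algebraMap_mem' a := by
    obtain ⟨c, rfl⟩ := umk_surj 𝒰 a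
    refine ⟨fun n => algebraMap (R n) _ (c n), ⟨⟨0, fun n m hm => ?_⟩, fun m => ?_⟩,
      fun n => (P n).algebraMap_mem _⟩
    · rw [coeff_algebraMap, if_neg (by omega)]
    · rw [coeff_algebraMap]
      simp only [coeff_algebraMap]
      split_ifs with h
      · rfl
      · exact (map_zero (umk 𝒰)).symm

theorem mem_UP {P : ∀ n, Subalgebra (R n) (LaurentSeries (R n))}
    {F : LaurentSeries (Ul 𝒰 R)} : F ∈ UP 𝒰 P ↔
      ∃ f : ∀ n, LaurentSeries (R n), USer 𝒰 F f ∧ ∀ n, f n ∈ P n := Iff.rfl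

/-- The polynomial `F` over the ultraproduct is the class of the family `f` of polynomials. -/
def UPol (F : (Ul 𝒰 R)[X]) (f : ∀ n, (R n)[X]) : Prop :=
  (∃ N : ℕ, ∀ n, (f n).natDegree ≤ N) ∧ ∀ m : ℕ, F.coeff m = umk 𝒰 fun n => (f n).coeff m

end series

end Pool.Agent.MG.G0


end

section

/-!
# Statements on ultraproducts
-/

open Polynomial

namespace Pool.Agent.MG.G0

/-- KGP: poles of order at most `2 g - 1` are enough. -/
def Stmt_KGP : Prop :=
  ∀ {A : Type} [CommRing A] {g : ℕ} {R : Subalgebra A (LaurentSeries A)}, 1 ≤ g → Kr g R →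
    Dense (uno R) (2 * g - 1)

/-- INT (PAPER U, INTS): membership descends along injective base change. -/
def Stmt_INT : Prop :=
  ∀ {I A B : Type} [Fintype I] [Nonempty I] [CommRing A] [CommRing B] {g : ℕ}
    {P : Subalgebra A (KK I A)}, IsKr g P → ∀ φ : A →+* B, Function.Injective φ →
      ∀ x : KK I A, kmap φ x ∈ bc φ P → x ∈ P

/-- `f(z) P^⊥ ⊂ P ∂z`. -/
def Kil {A : Type} [CommRing A] (d : ℕ) (R : Subalgebra A (LaurentSeries A)) (f : A[X]) : Prop :=
  ∀ x : LaurentSeries A, (∀ p ∈ R, (x * p).coeff (-1) = 0) →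
    ∃ y ∈ R, zpol A d f * x = y * ld (zz A d)

/-- KIL (PAPER U, KIL (1), (2), (3)). -/
def Stmt_KIL : Prop :=
  (∀ {A : Type} [CommRing A] {g d : ℕ} {R : Subalgebra A (LaurentSeries A)} {f : A[X]},
    1 ≤ d → IsUnit (d : A) → Kr g R → zz A d ∈ R → Disc d R f → Kil d R f) ∧
  (∀ {A B : Type} [CommRing A] [CommRing B] {g d : ℕ} {R : Subalgebra A (LaurentSeries A)}
    {f : A[X]} (φ : A →+* B), Kr g R → Kil d R f → Kil d (bc1 φ R) (f.map φ)) ∧
  ∀ {A B : Type} [CommRing A] [CommRing B] {g d : ℕ} {R : Subalgebra A (LaurentSeries A)}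
    {f : A[X]} (φ : A →+* B), Function.Injective φ → 1 ≤ d → IsUnit (d : A) → Kr g R →
    zz A d ∈ R → f.Monic → Kil d (bc1 φ R) (f.map φ) → Kil d R f

/-- KIS (PAPER U, KIL (4)): smoothness from a separable multiple of the different. -/
def Stmt_KIS : Prop :=
  ∀ {κ : Type} [Field κ] [IsAlgClosed κ] {g d : ℕ} {R : Subalgebra κ (LaurentSeries κ)}
    {f : κ[X]}, 1 ≤ d → ((d.factorial : ℕ) : κ) ≠ 0 → Kr g R → zz κ d ∈ R → Kil d R f →
    f.Separable → Algebra.FormallySmooth κ (uno R) ∧ SmC κ (uno R)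

/-- DSC: discriminants of reductions of a Krichever ring over an integrally closed local
domain. -/
def Stmt_DSC : Prop :=
  ∀ {O L : Type} [CommRing O] [IsDomain O] [IsLocalRing O] [IsIntegrallyClosed O] [Field L]
    [Algebra O L] [IsFractionRing O L] {g d : ℕ} {R : Subalgebra O (LaurentSeries O)} {f : O[X]},
    1 ≤ d → IsUnit (d : O) → Kr g R → zz O d ∈ R → f.Monic → f.natDegree + 1 = 2 * g + d →
    Disc d (bc1 (algebraMap O L) R) (f.map (algebraMap O L)) →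
    ∀ {B : Type} [CommRing B] (φ : O →+* B),
      (∃ m : ℕ, ∀ x ∈ IsLocalRing.maximalIdeal O ^ m, φ x = 0) → Disc d (bc1 φ R) (f.map φ)

/-- KRK: corank two at a double root. -/
def Stmt_KRK : Prop :=
  ∀ {κ : Type} [Field κ] {g d : ℕ} {R : Subalgebra κ (LaurentSeries κ)} {f h : κ[X]} {c : κ},
    2 ≤ d → (d : κ) ≠ 0 → Kr g R → zz κ d ∈ R → Disc d R f → f = (X - C c) ^ 2 * h →
    GRk d R c (d - 2) → Kil d R ((X - C c) * h)

/-- MSM: models: the different, the discriminant of reductions, smoothness. -/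
def Stmt_MSM : Prop :=
  ∀ {κ O L : Type} [Field κ] [CommRing O] [IsDomain O] [Field L] [Algebra κ O] [Algebra O L]
    {g d : ℕ} {R : Subalgebra L (LaurentSeries L)} (M : Mdl κ O L g d R), 2 ≤ d →
    ((d.factorial : ℕ) : κ) ≠ 0 → Kil d M.P M.f ∧
    (∀ {B : Type} [CommRing B] (φ : O →+* B), (∃ m : ℕ, φ (M.π ^ m) = 0) →
      Disc d (bc1 φ M.P) (M.f.map φ)) ∧
    (IsAlgClosed κ → M.Smo → Algebra.FormallySmooth κ (uno M.Pb) ∧ SmC κ (uno M.Pb))

/-- ULR: first order properties of ultraproducts of rings. -/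
def Stmt_ULR : Prop :=
  ∀ (𝒰 : Ultrafilter ℕ),
    (∀ (R : ℕ → Type) [∀ n, CommRing (R n)], (∀ n, IsDomain (R n)) → IsDomain (Ul 𝒰 R)) ∧
    (∀ (R : ℕ → Type) [∀ n, CommRing (R n)] (f : ∀ n, R n),
      IsUnit (umk 𝒰 f) ↔ ∀ᶠ n in (𝒰 : Filter ℕ), IsUnit (f n)) ∧
    (∀ (R : ℕ → Type) [∀ n, CommRing (R n)] [∀ n, IsDomain (R n)],
      (∀ n, ValuationRing (R n)) → ∀ _ : IsDomain (Ul 𝒰 R), ValuationRing (Ul 𝒰 R)) ∧
    (∀ (K : ℕ → Type) [∀ n, Field (K n)], (∀ n, IsAlgClosed (K n)) → IsAlgClosed (Ul 𝒰 K)) ∧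
    (∀ (R : ℕ → Type) [∀ n, CommRing (R n)],
      (∀ m : ℕ, m ≠ 0 → ∀ᶠ n in (𝒰 : Filter ℕ), (m : R n) ≠ 0) → CharZero (Ul 𝒰 R)) ∧
    (∀ (R S : ℕ → Type) [∀ n, CommRing (R n)] [∀ n, CommRing (S n)] (φ : ∀ n, R n →+* S n),
      (∀ n, Function.Injective (φ n)) → Function.Injective (umap 𝒰 φ)) ∧
    ∀ (O L : ℕ → Type) [∀ n, CommRing (O n)] [∀ n, IsDomain (O n)] [∀ n, Field (L n)]
      [∀ n, Algebra (O n) (L n)], (∀ n, IsFractionRing (O n) (L n)) →
      @IsFractionRing (Ul 𝒰 O) _ (Ul 𝒰 L) _ (umap 𝒰 fun n => algebraMap (O n) (L n)).toAlgebra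

/-- UEM: ultraproducts of algebraically closed fields of characteristic `p → ∞` which contain the
complex numbers and algebraically independent elements over them. -/
def Stmt_UEM : Prop :=
  ∀ (𝒰 : Ultrafilter ℕ) (b : ℕ) (p : ℕ → ℕ), (∀ n, (p n).Prime) →
    (∀ N : ℕ, ∀ᶠ n in (𝒰 : Filter ℕ), N < p n) →
    ∃ (k : ℕ → Type) (_ : ∀ n, Field (k n)) (_ : ∀ n, CharP (k n) (p n))
      (_ : ∀ n, IsAlgClosed (k n)) (v : ∀ n, Fin b → k n) (i : ℂ →+* Ul 𝒰 k),
      (∀ n, @AlgebraicIndependent (Fin b) (ZMod (p n)) (k n) (v n) _ _ (ZMod.algebra _ _)) ∧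
      @AlgebraicIndependent (Fin b) ℂ (Ul 𝒰 k) (fun j => umk 𝒰 fun n => v n j) _ _ i.toAlgebra

/-- UKR: ultraproducts of Krichever rings. -/
def Stmt_UKR : Prop :=
  ∀ (𝒰 : Ultrafilter ℕ) {R : ℕ → Type} [∀ n, CommRing (R n)] {g : ℕ}
    (P : ∀ n, Subalgebra (R n) (LaurentSeries (R n))), 1 ≤ g → (∀ n, Kr g (P n)) →
    Kr g (UP 𝒰 P) ∧
    (∀ F : LaurentSeries (Ul 𝒰 R), F ∈ EE1 (UP 𝒰 P) ↔
      ∃ f : ∀ n, LaurentSeries (R n), USer 𝒰 F f ∧ ∀ n, f n ∈ EE1 (P n)) ∧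
    (∀ (Q : ∀ n, Subalgebra (R n) (LaurentSeries (R n))), (∀ᶠ n in (𝒰 : Filter ℕ), P n = Q n) →
      UP 𝒰 P = UP 𝒰 Q) ∧
    (∀ {S : ℕ → Type} [∀ n, CommRing (S n)] (φ : ∀ n, R n →+* S n),
      UP 𝒰 (fun n => bc1 (φ n) (P n)) = bc1 (umap 𝒰 φ) (UP 𝒰 P)) ∧
    (∀ c : ∀ n, (R n)ˣ, ∀ c' : (Ul 𝒰 R)ˣ, (c' : Ul 𝒰 R) = umk 𝒰 (fun n => (c n : R n)) →
      UP 𝒰 (fun n => (P n).map (sc (c n))) = (UP 𝒰 P).map (sc c')) ∧
    ∀ d : ℕ, (∀ n, zz (R n) d ∈ P n) → zz (Ul 𝒰 R) d ∈ UP 𝒰 P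

/-- A place of `L` over `k`, with a model of `R` in the coordinate `c τ`. -/
structure Plc (k L : Type) [Field k] [Field L] [Algebra k L] (g d : ℕ)
    (R : Subalgebra L (LaurentSeries L)) where
  /-- the valuation ring -/
  O : Type
  [i1 : CommRing O]
  [i2 : IsDomain O]
  [i3 : Algebra k O]
  [i4 : Algebra O L]
  [i5 : IsScalarTower k O L]
  /-- the scaling of the coordinate -/
  c : Lˣ
  /-- the model -/
  M : Mdl k O L g d (R.map (sc c))

attribute [instance] Plc.i1 Plc.i2 Plc.i3 Plc.i4 Plc.i5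

/-- The multilinear form `S` on the regular differentials is integral at the place `v`. -/
def Plc.Int {k L : Type} [Field k] [Field L] [Algebra k L] {g d : ℕ}
    {R : Subalgebra L (LaurentSeries L)} (v : Plc k L g d R) {r : ℕ}
    (S : MultilinearMap L (fun _ : Fin r => EE1 R) L) : Prop :=
  ∀ (ω : Fin r → EE1 R) (η : Fin r → EE1 v.M.P),
    (∀ i, lmap (algebraMap v.O L) (η i : LaurentSeries v.O) =
      ((v.c⁻¹ : Lˣ) : L) • sc v.c (ω i : LaurentSeries L)) → ∃ x : v.O, algebraMap v.O L x = S ω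

section

variable (𝒰 : Ultrafilter ℕ) {k L : ℕ → Type} [∀ n, Field (k n)] [∀ n, Field (L n)]
  [∀ n, Algebra (k n) (L n)] {g d : ℕ} {R : ∀ n, Subalgebra (L n) (LaurentSeries (L n))}

/-- The ring of the ultraproduct of places. -/
abbrev UO (v : ∀ n, Plc (k n) (L n) g d (R n)) : Type := Ul 𝒰 fun n => (v n).O

/-- The inclusion in the field of fractions. -/
noncomputable def uOL (v : ∀ n, Plc (k n) (L n) g d (R n)) : UO 𝒰 v →+* Ul 𝒰 L :=
  umap 𝒰 fun n => algebraMap (v n).O (L n)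

/-- The ultraproduct of the models. -/
noncomputable def uOP (v : ∀ n, Plc (k n) (L n) g d (R n)) :
    Subalgebra (UO 𝒰 v) (LaurentSeries (UO 𝒰 v)) := UP 𝒰 fun n => (v n).M.P

/-- The scaling of the coordinate. -/
noncomputable def uc (v : ∀ n, Plc (k n) (L n) g d (R n)) : (Ul 𝒰 L)ˣ where
  val := umk 𝒰 fun n => ((v n).c : L n)
  inv := umk 𝒰 fun n => (((v n).c⁻¹ : (L n)ˣ) : L n)
  val_inv := by
    rw [← map_mul, ← map_one (umk 𝒰)]
    congr 1
    funext n
    exact (v n).c.mul_inv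
  inv_val := by
    rw [← map_mul, ← map_one (umk 𝒰)]
    congr 1
    funext n
    exact (v n).c.inv_mul

/-- A multilinear form over the ultraproduct is integral at an ultraproduct of places. -/
def UInt (v : ∀ n, Plc (k n) (L n) g d (R n)) {r : ℕ}
    (S : MultilinearMap (Ul 𝒰 L) (fun _ : Fin r => EE1 (UP 𝒰 R)) (Ul 𝒰 L)) : Prop :=
  ∀ (ω : Fin r → EE1 (UP 𝒰 R)) (η : Fin r → EE1 (uOP 𝒰 v)),
    (∀ i, lmap (uOL 𝒰 v) (η i : LaurentSeries (UO 𝒰 v)) =
      (((uc 𝒰 v)⁻¹ : (Ul 𝒰 L)ˣ) : Ul 𝒰 L) • sc (uc 𝒰 v) (ω i : LaurentSeries (Ul 𝒰 L))) →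
    ∃ x : UO 𝒰 v, uOL 𝒰 v x = S ω

end

/-- TRA: the transfer of the vanishing theorem. If over all `L n` a multilinear form which is
integral at all places (of the class `T`) is zero, and the multilinear form `S` over the
ultraproduct is integral at all ultraproducts of places, then `S = 0`. -/
def Stmt_TRA : Prop :=
  ∀ (𝒰 : Ultrafilter ℕ) {k L : ℕ → Type} [∀ n, Field (k n)] [∀ n, Field (L n)]
    [∀ n, Algebra (k n) (L n)] {g d r : ℕ} (R : ∀ n, Subalgebra (L n) (LaurentSeries (L n)))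
    (T : ∀ n, Plc (k n) (L n) g d (R n) → Prop), 1 ≤ g → (∀ n, Kr g (R n)) →
    (∀ n, ∃ v, T n v) →
    (∀ n, ∀ S : MultilinearMap (L n) (fun _ : Fin r => EE1 (R n)) (L n),
      (∀ v, T n v → v.Int S) → S = 0) →
    ∀ S : MultilinearMap (Ul 𝒰 L) (fun _ : Fin r => EE1 (UP 𝒰 R)) (Ul 𝒰 L),
      (∀ v : ∀ n, Plc (k n) (L n) g d (R n), (∀ n, T n (v n)) → UInt 𝒰 v S) → S = 0

/-- TRZ: the same for scalars: an element which is integral at all ultraproducts of places is a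
constant. -/
def Stmt_TRZ : Prop :=
  ∀ (𝒰 : Ultrafilter ℕ) {k L : ℕ → Type} [∀ n, Field (k n)] [∀ n, Field (L n)]
    [∀ n, Algebra (k n) (L n)] {g d : ℕ} (R : ∀ n, Subalgebra (L n) (LaurentSeries (L n)))
    (T : ∀ n, Plc (k n) (L n) g d (R n) → Prop), (∀ n, ∃ v, T n v) →
    (∀ n, ∀ s : L n, (∀ v, T n v → ∃ x : v.O, algebraMap v.O (L n) x = s) →
      ∃ a : k n, algebraMap (k n) (L n) a = s) →
    ∀ s : Ul 𝒰 L, (∀ v : ∀ n, Plc (k n) (L n) g d (R n), (∀ n, T n (v n)) →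
      ∃ x : UO 𝒰 v, uOL 𝒰 v x = s) →
      ∃ a : Ul 𝒰 k, umap 𝒰 (fun n => algebraMap (k n) (L n)) a = s

/-- UMD: the ultraproduct of models is a model, of the same type. -/
def Stmt_UMD : Prop :=
  ∀ (𝒰 : Ultrafilter ℕ) {k O L : ℕ → Type} [∀ n, Field (k n)] [∀ n, CommRing (O n)]
    [∀ n, IsDomain (O n)] [∀ n, Field (L n)] [∀ n, Algebra (k n) (O n)]
    [∀ n, Algebra (O n) (L n)] {g d : ℕ} {R : ∀ n, Subalgebra (L n) (LaurentSeries (L n))}
    (M : ∀ n, Mdl (k n) (O n) (L n) g d (R n)), 1 ≤ g → 1 ≤ d →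
    letI : Algebra (Ul 𝒰 k) (Ul 𝒰 O) := (umap 𝒰 fun n => algebraMap (k n) (O n)).toAlgebra
    letI : Algebra (Ul 𝒰 O) (Ul 𝒰 L) := (umap 𝒰 fun n => algebraMap (O n) (L n)).toAlgebra
    ∃ (_ : IsDomain (Ul 𝒰 O)) (M' : Mdl (Ul 𝒰 k) (Ul 𝒰 O) (Ul 𝒰 L) g d (UP 𝒰 R)),
      (∀ x : ∀ n, O n, M'.rs (umk 𝒰 x) = umk 𝒰 fun n => (M n).rs (x n)) ∧
      M'.π = umk 𝒰 (fun n => (M n).π) ∧ M'.P = UP 𝒰 (fun n => (M n).P) ∧
      UPol 𝒰 M'.f (fun n => (M n).f) ∧
      ((∀ᶠ n in (𝒰 : Filter ℕ), (M n).Smo) → M'.Smo) ∧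
      ((∀ᶠ n in (𝒰 : Filter ℕ), (M n).Nod) → M'.Nod)

end Pool.Agent.MG.G0


end

section

/-!
# Elements which are integral at all ultraproducts of places (module G0_TRZ)
-/

namespace Pool.Agent.MG.G0

theorem t_TRZ : Stmt_TRZ := by
  classical
  intro 𝒰 k L _ _ _ g d R T hT hc s hs
  obtain ⟨f, rfl⟩ := umk_surj 𝒰 s
  -- places where `f n` is not integral, if there are any
  have hv : ∀ n, ∃ v : Plc (k n) (L n) g d (R n), T n v ∧
      ((∃ x : v.O, algebraMap v.O (L n) x = f n) → ∃ a : k n, algebraMap (k n) (L n) a = f n) := by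
    intro n
    by_cases h : ∀ v, T n v → ∃ x : v.O, algebraMap v.O (L n) x = f n
    · obtain ⟨v, hv⟩ := hT n
      exact ⟨v, hv, fun _ => hc n (f n) h⟩
    · rw [not_forall] at h
      obtain ⟨v, hv⟩ := h
      rw [Classical.not_imp] at hv
      exact ⟨v, hv.1, fun hx => absurd hx hv.2⟩
  choose v hv1 hv2 using hv
  obtain ⟨x, hx⟩ := hs v hv1
  obtain ⟨y, rfl⟩ := umk_surj 𝒰 x
  have h1 : umk 𝒰 (fun n => algebraMap (v n).O (L n) (y n)) = umk 𝒰 f := hx
  rw [umk_eq] at h1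
  refine ⟨umk 𝒰 fun n => if h : ∃ a : k n, algebraMap (k n) (L n) a = f n then h.choose else 0,
    ?_⟩
  rw [umap_umk, umk_eq]
  filter_upwards [h1] with n hn
  have h2 : ∃ a : k n, algebraMap (k n) (L n) a = f n := hv2 n ⟨y n, hn⟩
  rw [dif_pos h2]
  exact h2.choose_spec

end Pool.Agent.MG.G0


end

section

/-!
# UKR: ultraproducts of Krichever rings
-/

open Polynomial

namespace Pool.Agent.MG.G0

namespace UKR

section

variable (𝒰 : Ultrafilter ℕ) {R : ℕ → Type} [∀ n, CommRing (R n)]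

/-- The class of a bounded family. -/
theorem exists_ser (f : ∀ n, LaurentSeries (R n)) (h : ∃ N : ℤ, ∀ n, f n ∈ Po (R n) N) :
    ∃ F : LaurentSeries (Ul 𝒰 R), USer 𝒰 F f := by
  obtain ⟨N, hN⟩ := h
  refine ⟨⟨fun m => umk 𝒰 fun n => (f n).coeff m, ?_⟩, ⟨N, hN⟩, fun m => rfl⟩
  refine (Set.IsPWO.mono (t := Set.Ici (-N)) ?_ fun m hm => ?_)
  · exact (BddBelow.isWF ⟨_, fun _ h => h⟩).isPWO
  · by_contra h
    rw [Set.mem_Ici, not_le] at h
    apply hm
    change umk 𝒰 (fun n => (f n).coeff m) = 0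
    rw [umk_eq_zero]
    exact Filter.Eventually.of_forall fun n => hN n m h

variable {F G : LaurentSeries (Ul 𝒰 R)} {f g : ∀ n, LaurentSeries (R n)}

theorem ser_zero : USer 𝒰 (0 : LaurentSeries (Ul 𝒰 R)) (fun _ => 0) := by
  refine ⟨⟨0, fun n => zero_mem _⟩, fun m => ?_⟩
  rw [HahnSeries.coeff_zero]
  symm
  rw [umk_eq_zero]
  exact Filter.Eventually.of_forall fun n => HahnSeries.coeff_zero

theorem ser_sub (h : USer 𝒰 F f) (k : USer 𝒰 G g) : USer 𝒰 (F - G) (fun n => f n - g n) := by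
  obtain ⟨⟨N, hN⟩, h1⟩ := h
  obtain ⟨⟨M, hM⟩, k1⟩ := k
  refine ⟨⟨max N M, fun n m hm => ?_⟩, fun m => ?_⟩
  · rw [HahnSeries.coeff_sub, hN n m (by omega), hM n m (by omega), sub_zero]
  · rw [HahnSeries.coeff_sub, h1, k1, ← map_sub]
    rfl

theorem ser_smul (c : ∀ n, R n) (h : USer 𝒰 F f) :
    USer 𝒰 (umk 𝒰 c • F) (fun n => c n • f n) := by
  obtain ⟨⟨N, hN⟩, h1⟩ := h
  refine ⟨⟨N, fun n => Submodule.smul_mem _ _ (hN n)⟩, fun m => ?_⟩
  rw [HahnSeries.coeff_smul, h1, smul_eq_mul, ← map_mul]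
  rfl

theorem ser_sum {ι : Type} (s : Finset ι) {F : ι → LaurentSeries (Ul 𝒰 R)}
    {f : ι → ∀ n, LaurentSeries (R n)} (h : ∀ i ∈ s, USer 𝒰 (F i) (f i)) :
    USer 𝒰 (∑ i ∈ s, F i) (fun n => ∑ i ∈ s, f i n) := by
  classical
  induction s using Finset.induction_on with
  | empty =>
    simp only [Finset.sum_empty]
    exact ser_zero 𝒰
  | insert a s ha ih =>
    simp only [Finset.sum_insert ha]
    exact (h a (Finset.mem_insert_self a s)).add 𝒰
      (ih fun i hi => h i (Finset.mem_insert_of_mem hi))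

theorem ser_congr (h : USer 𝒰 F f) (e : ∀ᶠ n in (𝒰 : Filter ℕ), f n = g n)
    (hg : ∃ N : ℤ, ∀ n, g n ∈ Po (R n) N) : USer 𝒰 F g := by
  refine ⟨hg, fun m => ?_⟩
  rw [h.2 m, umk_eq]
  filter_upwards [e] with n hn
  rw [hn]

theorem ser_ext (h : USer 𝒰 F f) (k : USer 𝒰 G f) : F = G := by
  ext m
  rw [h.2, k.2]

theorem po_iff (h : USer 𝒰 F f) (N : ℤ) :
    F ∈ Po (Ul 𝒰 R) N ↔ ∀ᶠ n in (𝒰 : Filter ℕ), f n ∈ Po (R n) N := by
  obtain ⟨⟨M, hM⟩, h1⟩ := h
  constructor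
  · intro hF
    have h2 : ∀ᶠ n in (𝒰 : Filter ℕ), ∀ m ∈ Finset.Ico (-M) (-N), (f n).coeff m = 0 := by
      rw [Filter.eventually_all_finset]
      intro m hm
      rw [Finset.mem_Ico] at hm
      rw [← umk_eq_zero, ← h1]
      exact hF m hm.2
    filter_upwards [h2] with n hn
    intro m hm
    by_cases hm' : m < -M
    · exact hM n m hm'
    · exact hn m (Finset.mem_Ico.2 ⟨by omega, hm⟩)
  · intro hf m hm
    rw [h1, umk_eq_zero]
    filter_upwards [hf] with n hn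
    exact hn m hm

theorem coeff_mul (h : USer 𝒰 F f) (k : USer 𝒰 G g) (m : ℤ) :
    (F * G).coeff m = umk 𝒰 fun n => (f n * g n).coeff m := (h.mul 𝒰 k).2 m

/-- The constants. -/
theorem ser_alg (c : ∀ n, R n) :
    USer 𝒰 (@algebraMap (Ul 𝒰 R) (LaurentSeries (Ul 𝒰 R)) _ _ (lsAlgebra (Ul 𝒰 R)) (umk 𝒰 c))
      (fun n => @algebraMap (R n) (LaurentSeries (R n)) _ _ (lsAlgebra (R n)) (c n)) := by
  refine ⟨⟨0, fun n m hm => ?_⟩, fun m => ?_⟩
  · rw [coeff_algebraMap, if_neg (by omega)]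
  · rw [coeff_algebraMap]
    simp only [coeff_algebraMap]
    split_ifs with h
    · rfl
    · exact (map_zero (umk 𝒰)).symm

/-- The main construction. -/
theorem main (hKFO : Stmt_KFO) (hKGP : Stmt_KGP) {g : ℕ}
    (P : ∀ n, Subalgebra (R n) (LaurentSeries (R n))) (hg : 1 ≤ g) (hP : ∀ n, Kr g (P n)) :
    ∃ (w : ∀ n, Fin g → LaurentSeries (R n)) (W : Fin g → LaurentSeries (Ul 𝒰 R)),
      (∀ j, USer 𝒰 (W j) fun n => w n j) ∧ (∀ n j, w n j ∈ EE1 (P n)) ∧
      (∀ c : Fin g → Ul 𝒰 R, ∃ F, ∀ j, (W j * F).coeff (-1) = c j) ∧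
      ∀ F, (∀ j, (W j * F).coeff (-1) = 0) ↔ ∃ p ∈ UP 𝒰 P, F - p ∈ Po (Ul 𝒰 R) 0 := by
  choose ω hω using fun n => (hKFO (hP n)).1
  have hE : ∀ n j, ω n j () ∈ EE1 (P n) := fun n j =>
    mem_EE_uno.1 (((hKFO (hP n)).2 (ω n) (hω n)).1 j)
  choose W hW using fun j => exists_ser 𝒰 (fun n => ω n j ()) ⟨0, fun n => (hE n j).2⟩
  have hres : ∀ n j (f : LaurentSeries (R n)), res (ω n j * fun _ => f) =
      (ω n j () * f).coeff (-1) := fun n j f => res_unit _
  refine ⟨fun n j => ω n j (), W, hW, hE, ?_, ?_⟩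
  · intro c
    choose c' hc' using fun j => umk_surj 𝒰 (c j)
    have h1 : ∀ n, ∃ f : LaurentSeries (R n), f ∈ Po (R n) (2 * g - 1) ∧
        ∀ j, (ω n j () * f).coeff (-1) = c' j n := by
      intro n
      obtain ⟨f, hf⟩ := (hω n).surj fun j => c' j n
      obtain ⟨p, hp, hfp⟩ := hKGP hg (hP n) f
      refine ⟨f () - p (), mem_Pol_unit.1 hfp, fun j => ?_⟩
      rw [mul_sub, HahnSeries.coeff_sub, (hE n j).1 (p ()) hp, sub_zero, ← hf j]
      exact (res_unit (ω n j * f)).symm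
    choose f hf1 hf2 using h1
    obtain ⟨F, hF⟩ := exists_ser 𝒰 f ⟨_, hf1⟩
    refine ⟨F, fun j => ?_⟩
    rw [coeff_mul 𝒰 (hW j) hF, ← hc' j]
    congr 1
    funext n
    exact hf2 n j
  · intro F
    constructor
    · intro h
      obtain ⟨f, hf⟩ := USer.exists 𝒰 F
      have h1 : ∀ᶠ n in (𝒰 : Filter ℕ), ∀ j, (ω n j () * f n).coeff (-1) = 0 := by
        rw [Filter.eventually_all]
        intro j
        rw [← umk_eq_zero, ← coeff_mul 𝒰 (hW j) hf]
        exact h j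
      have h2 : ∀ n, ∃ p : LaurentSeries (R n), p ∈ P n ∧
          ((∀ j, (ω n j () * f n).coeff (-1) = 0) → f n - p ∈ Po (R n) 0) ∧
          ((¬ ∀ j, (ω n j () * f n).coeff (-1) = 0) → p = 0) := by
        intro n
        by_cases hn : ∀ j, (ω n j () * f n).coeff (-1) = 0
        · obtain ⟨p, hp, hfp⟩ := ((hω n).ker fun _ => f n).1 fun j => (hres n j (f n)).trans (hn j)
          exact ⟨p (), hp, fun _ => mem_Pol_unit.1 hfp, fun hc => absurd hn hc⟩
        · exact ⟨0, zero_mem _, fun hc => absurd hc hn, fun _ => rfl⟩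
      choose p hp1 hp2 hp3 using h2
      obtain ⟨N, hN⟩ := hf.1
      have hpN : ∀ n, p n ∈ Po (R n) (max N 0) := by
        intro n
        by_cases hn : ∀ j, (ω n j () * f n).coeff (-1) = 0
        · have h3 := hp2 n hn
          intro m hm
          have h4 := h3 m (by omega)
          rw [HahnSeries.coeff_sub, hN n m (by omega), zero_sub, neg_eq_zero] at h4
          exact h4
        · rw [hp3 n hn]
          exact zero_mem _
      obtain ⟨Q, hQ⟩ := exists_ser 𝒰 p ⟨_, hpN⟩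
      refine ⟨Q, ⟨p, hQ, hp1⟩, ?_⟩
      rw [po_iff 𝒰 (ser_sub 𝒰 hf hQ)]
      filter_upwards [h1] with n hn
      exact hp2 n hn
    · rintro ⟨Q, ⟨p, hQ, hp⟩, h0⟩ j
      obtain ⟨f, hf⟩ := USer.exists 𝒰 F
      rw [coeff_mul 𝒰 (hW j) hf, umk_eq_zero]
      filter_upwards [(po_iff 𝒰 (ser_sub 𝒰 hf hQ) 0).1 h0] with n hn
      have h3 : (ω n j () * (f n - p n)).coeff (-1) = 0 := mul_low (hE n j).2 hn (-1) (by omega)
      rw [mul_sub, HahnSeries.coeff_sub, (hE n j).1 (p n) (hp n), sub_zero] at h3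
      exact h3

/-- The linear map to the dual of the differentials. -/
noncomputable def lin {g : ℕ} {A : Type} [CommRing A] (W : Fin g → LaurentSeries A) :
    LaurentSeries A →ₗ[A] (Fin g → A) where
  toFun F j := (W j * F).coeff (-1)
  map_add' x y := by
    funext j
    rw [Pi.add_apply, mul_add, HahnSeries.coeff_add]
  map_smul' a x := by
    funext j
    rw [Pi.smul_apply, mul_smul_comm, HahnSeries.coeff_smul]
    rfl

theorem kr (hKFO : Stmt_KFO) (hKGP : Stmt_KGP) {g : ℕ}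
    (P : ∀ n, Subalgebra (R n) (LaurentSeries (R n))) (hg : 1 ≤ g) (hP : ∀ n, Kr g (P n)) :
    Kr g (UP 𝒰 P) := by
  obtain ⟨w, W, hW, hE, hs, hk⟩ := main 𝒰 hKFO hKGP P hg hP
  rw [Kr_iff]
  refine ⟨?_, lin W, fun c => ?_, fun F => ?_⟩
  · rintro F ⟨f, hf, hfP⟩ hF0
    have h1 := (po_iff 𝒰 hf 0).1 hF0
    have h2 : ∀ n, ∃ a : R n, f n ∈ Po (R n) 0 → f n = algebraMap (R n) _ a := by
      intro n
      by_cases hn : f n ∈ Po (R n) 0
      · obtain ⟨a, ha⟩ := (Kr_iff.1 (hP n)).1 (f n) (hfP n) hn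
        exact ⟨a, fun _ => ha⟩
      · exact ⟨0, fun h => absurd h hn⟩
    choose a ha using h2
    refine ⟨umk 𝒰 a, ?_⟩
    have h3 : ∀ᶠ n in (𝒰 : Filter ℕ), f n = algebraMap (R n) (LaurentSeries (R n)) (a n) := by
      filter_upwards [h1] with n hn
      exact ha n hn
    exact ser_ext 𝒰 (ser_congr 𝒰 hf h3 (ser_alg 𝒰 a).1) (ser_alg 𝒰 a)
  · obtain ⟨F, hF⟩ := hs c
    exact ⟨F, funext hF⟩
  · rw [← hk F]
    exact funext_iff

theorem units_zpow (c : ∀ n, (R n)ˣ) (c' : (Ul 𝒰 R)ˣ)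
    (h : (c' : Ul 𝒰 R) = umk 𝒰 (fun n => (c n : R n))) (k : ℤ) :
    ((c' ^ k : (Ul 𝒰 R)ˣ) : Ul 𝒰 R) = umk 𝒰 fun n => ((c n ^ k : (R n)ˣ) : R n) := by
  have h1 : c' = Units.map ((umk 𝒰 : (∀ n, R n) →+* Ul 𝒰 R) : (∀ n, R n) →* Ul 𝒰 R)
      (MulEquiv.piUnits.symm c) := Units.ext h
  rw [h1, ← map_zpow, ← map_zpow]
  rfl

end

end UKR

open _root_.Pool.Agent.MG.G0.UKR in
theorem t_UKR (hKFO : Stmt_KFO) (_hKNZ : Stmt_KNZ) (hKBC : Stmt_KBC) (hKEQ : Stmt_KEQ)
    (hKGP : Stmt_KGP) : Stmt_UKR := by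
  intro 𝒰 R _ g P hg hP
  have hKr := UKR.kr 𝒰 hKFO hKGP P hg hP
  refine ⟨hKr, ?_, ?_, ?_, ?_, ?_⟩
  · intro F
    constructor
    · intro hF
      obtain ⟨w, W, hW, hE, hs, hk⟩ := main 𝒰 hKFO hKGP P hg hP
      have hforms : IsForms (uno (UP 𝒰 P)) fun (j : Fin g) (_ : Unit) => W j := by
        refine ⟨fun j => ?_, fun c => ?_, fun f => ?_⟩
        · exact mem_Pol_unit.2 ((po_iff 𝒰 (hW j) 0).2
            (Filter.Eventually.of_forall fun n => (hE n j).2))
        · obtain ⟨F, hF⟩ := hs c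
          exact ⟨fun _ => F, fun j => (res_unit _).trans (hF j)⟩
        · have h1 : (∀ j, res ((fun _ : Unit => W j) * f) = 0) ↔
              ∀ j, (W j * f ()).coeff (-1) = 0 :=
            forall_congr' fun j => by rw [res_unit]; rfl
          rw [h1, hk]
          constructor
          · rintro ⟨p, hp, h⟩
            exact ⟨fun _ => p, hp, mem_Pol_unit.2 h⟩
          · rintro ⟨p, hp, h⟩
            exact ⟨p (), hp, mem_Pol_unit.1 h⟩
      obtain ⟨c, hc, -⟩ := ((hKFO hKr).2 _ hforms).2 (fun _ => F)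
        (mem_EE_uno.2 hF)
      have hc' : F = ∑ j, c j • W j := by
        have := congrFun hc ()
        rw [Finset.sum_apply] at this
        exact this
      choose b hb using fun j => umk_surj 𝒰 (c j)
      refine ⟨fun n => ∑ j, b j n • w n j, ?_, fun n => ?_⟩
      · rw [hc']
        refine ser_sum 𝒰 Finset.univ (F := fun j => c j • W j) (f := fun j n => b j n • w n j)
          fun j _ => ?_
        rw [← hb j]
        exact ser_smul 𝒰 (b j) (hW j)
      · exact Submodule.sum_mem _ fun j _ => Submodule.smul_mem _ _ (hE n j)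
    · rintro ⟨f, hf, hfE⟩
      refine ⟨?_, (po_iff 𝒰 hf 0).2 (Filter.Eventually.of_forall fun n => (hfE n).2)⟩
      rintro Q ⟨q, hQ, hq⟩
      rw [coeff_mul 𝒰 hf hQ, umk_eq_zero]
      exact Filter.Eventually.of_forall fun n => (hfE n).1 _ (hq n)
  · have key : ∀ P Q : ∀ n, Subalgebra (R n) (LaurentSeries (R n)),
        (∀ᶠ n in (𝒰 : Filter ℕ), P n = Q n) → UP 𝒰 P ≤ UP 𝒰 Q := by
      rintro P Q h F ⟨f, hf, hfP⟩
      classical
      refine ⟨fun n => if P n = Q n then f n else 0, ?_, fun n => ?_⟩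
      · refine ser_congr 𝒰 hf ?_ ?_
        · filter_upwards [h] with n hn
          rw [if_pos hn]
        · obtain ⟨N, hN⟩ := hf.1
          refine ⟨N, fun n => ?_⟩
          split_ifs
          · exact hN n
          · exact zero_mem _
      · change (if P n = Q n then f n else 0) ∈ Q n
        split_ifs with hn
        · rw [← hn]
          exact hfP n
        · exact zero_mem _
    intro Q h
    exact le_antisymm (key P Q h) (key Q P (h.mono fun n hn => hn.symm))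
  · intro S _ φ
    have hKbc : ∀ {A B : Type} [CommRing A] [CommRing B] (ψ : A →+* B)
        (T : Subalgebra A (LaurentSeries A)), Kr g T → Kr g (bc1 ψ T) := by
      intro A B _ _ ψ T hT
      have := (hKBC.2.2.2 hT ψ).1
      rw [bc_uno] at this
      exact this
    have h1 : Kr g (UP 𝒰 fun n => bc1 (φ n) (P n)) :=
      UKR.kr 𝒰 hKFO hKGP _ hg fun n => hKbc (φ n) (P n) (hP n)
    have h2 : Kr g (bc1 (umap 𝒰 φ) (UP 𝒰 P)) := hKbc _ _ hKr
    have h3 : bc1 (umap 𝒰 φ) (UP 𝒰 P) ≤ UP 𝒰 fun n => bc1 (φ n) (P n) := by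
      refine Algebra.adjoin_le ?_
      rintro _ ⟨F, ⟨f, hf, hfP⟩, rfl⟩
      refine ⟨fun n => lmap (φ n) (f n), ⟨?_, fun m => ?_⟩, fun n =>
        Algebra.subset_adjoin ⟨f n, hfP n, rfl⟩⟩
      · obtain ⟨N, hN⟩ := hf.1
        refine ⟨N, fun n m hm => ?_⟩
        rw [lmap_coeff, hN n m hm, map_zero]
      · rw [lmap_coeff, hf.2, umap_umk]
        rfl
    have h4 : uno (bc1 (umap 𝒰 φ) (UP 𝒰 P)) ≤ uno (UP 𝒰 fun n => bc1 (φ n) (P n)) :=
      fun x hx => h3 hx
    have h5 := hKEQ h2 h1 h4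
    rw [← duo_uno (UP 𝒰 fun n => bc1 (φ n) (P n)), ← h5, duo_uno]
  · intro c c' hc
    have hz := UKR.units_zpow 𝒰 c c' hc
    have hsc : ∀ (F : LaurentSeries (Ul 𝒰 R)) (f : ∀ n, LaurentSeries (R n)), USer 𝒰 F f →
        USer 𝒰 (sc c' F) (fun n => sc (c n) (f n)) := by
      rintro F f ⟨⟨N, hN⟩, h1⟩
      refine ⟨⟨N, fun n m hm => ?_⟩, fun m => ?_⟩
      · change ((c n ^ (-m) : (R n)ˣ) : R n) * (f n).coeff m = 0
        rw [hN n m hm, mul_zero]
      · change ((c' ^ (-m) : (Ul 𝒰 R)ˣ) : Ul 𝒰 R) * F.coeff m = _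
        rw [hz, h1, ← map_mul]
        rfl
    apply le_antisymm
    · rintro F ⟨f, hf, hfP⟩
      choose q hq hqf using fun n => (hfP n : f n ∈ (P n).map (sc (c n)))
      have hb : ∃ N : ℤ, ∀ n, q n ∈ Po (R n) N := by
        obtain ⟨N, hN⟩ := hf.1
        refine ⟨N, fun n m hm => ?_⟩
        have h1 := hN n m hm
        rw [← hqf n] at h1
        change ((c n ^ (-m) : (R n)ˣ) : R n) * (q n).coeff m = 0 at h1
        exact (Units.mul_right_eq_zero _).1 h1
      obtain ⟨Q, hQ⟩ := exists_ser 𝒰 q hb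
      refine ⟨Q, ⟨q, hQ, hq⟩, ?_⟩
      have h2 := hsc Q q hQ
      have h3 : (fun n => sc (c n) (q n)) = f := funext hqf
      rw [h3] at h2
      exact ser_ext 𝒰 h2 hf
    · rintro _ ⟨Q, ⟨q, hQ, hq⟩, rfl⟩
      exact ⟨_, hsc Q q hQ, fun n => ⟨q n, hq n, rfl⟩⟩
  · intro d hd
    refine ⟨fun n => zz (R n) d, ⟨⟨d, fun n m hm => ?_⟩, fun m => ?_⟩, hd⟩
    · change (zz (R n) d).coeff m = 0
      rw [zz, HahnSeries.coeff_single, if_neg (by omega)]
    · rw [zz, HahnSeries.coeff_single]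
      simp only [zz, HahnSeries.coeff_single]
      split_ifs with h
      · exact (map_one (umk 𝒰)).symm
      · exact (map_zero (umk 𝒰)).symm

end Pool.Agent.MG.G0


end
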