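import Mathlib
import Pool.Agent.KDM.C02
import Pool.Agent.KDM.C06
import Pool.Agent.KDM.C07

/-! Parts: MG.W.Defs, MG.W.Bc, MG.W.Stmts, MG.W.WSC, MG.W.WDM, MG.W.WFI, MG.W.WUS, MG.W.WCV, MG.W.WNA, MG.W.ROOT, MG.W.DEN, MG.G0.KNZ -/

section

/-!
# Weierstrass curves `y² = x³ + a x + b` with sections, over any ring

Charts: `A₁ = B[x, y]/(y² - x³ - a x - b)`, and near infinity, with `z = x/y`, `t = y²/x³`,
`A₂ = B[z, t]/(t - 1 - a z⁴ t² - b z⁶ t³)`; on the intersection `x = 1/(z² t)`, `y = 1/(z³ t)`.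
-/

open CategoryTheory CategoryTheory.Limits AlgebraicGeometry TensorProduct

namespace Pool.Agent.MG.W

section rings

variable (B : Type) [CommRing B] (a b : B)

/-- The equation of the affine curve. -/
noncomputable abbrev eq1 : MvPolynomial (Fin 2) B :=
  MvPolynomial.X 1 ^ 2 - MvPolynomial.X 0 ^ 3 - MvPolynomial.C a * MvPolynomial.X 0 -
    MvPolynomial.C b

/-- The equation near infinity. -/
noncomputable abbrev eq2 : MvPolynomial (Fin 2) B :=
  MvPolynomial.X 1 - 1 - MvPolynomial.C a * MvPolynomial.X 0 ^ 4 * MvPolynomial.X 1 ^ 2 -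
    MvPolynomial.C b * MvPolynomial.X 0 ^ 6 * MvPolynomial.X 1 ^ 3

/-- `B[x, y]/(y² - x³ - a x - b)`. -/
abbrev A1 : Type := MvPolynomial (Fin 2) B ⧸ Ideal.span {eq1 B a b}

/-- `B[z, t]/(t - 1 - a z⁴ t² - b z⁶ t³)`. -/
abbrev A2 : Type := MvPolynomial (Fin 2) B ⧸ Ideal.span {eq2 B a b}

/-- `x` -/
noncomputable def x1 : A1 B a b := Ideal.Quotient.mk _ (MvPolynomial.X 0)
/-- `y` -/
noncomputable def y1 : A1 B a b := Ideal.Quotient.mk _ (MvPolynomial.X 1)
/-- `z = x/y` -/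
noncomputable def z2 : A2 B a b := Ideal.Quotient.mk _ (MvPolynomial.X 0)
/-- `t = y²/x³` -/
noncomputable def t2 : A2 B a b := Ideal.Quotient.mk _ (MvPolynomial.X 1)

theorem rel1 : y1 B a b ^ 2 = x1 B a b ^ 3 + algebraMap B _ a * x1 B a b + algebraMap B _ b := by
  have h : Ideal.Quotient.mk (Ideal.span {eq1 B a b}) (eq1 B a b) = 0 :=
    Ideal.Quotient.eq_zero_iff_mem.2 (Ideal.subset_span rfl)
  have h2 : y1 B a b ^ 2 - x1 B a b ^ 3 - algebraMap B _ a * x1 B a b - algebraMap B _ b = 0 := by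
    rw [← h]
    simp only [eq1, map_sub, map_mul, map_pow]
    rfl
  linear_combination h2

theorem rel2 : t2 B a b = 1 + algebraMap B _ a * z2 B a b ^ 4 * t2 B a b ^ 2 +
    algebraMap B _ b * z2 B a b ^ 6 * t2 B a b ^ 3 := by
  have h : Ideal.Quotient.mk (Ideal.span {eq2 B a b}) (eq2 B a b) = 0 :=
    Ideal.Quotient.eq_zero_iff_mem.2 (Ideal.subset_span rfl)
  have h2 : t2 B a b - 1 - algebraMap B _ a * z2 B a b ^ 4 * t2 B a b ^ 2 -
      algebraMap B _ b * z2 B a b ^ 6 * t2 B a b ^ 3 = 0 := by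
    rw [← h]
    simp only [eq2, map_sub, map_mul, map_pow, map_one]
    rfl
  linear_combination h2

theorem t2_unit : IsUnit (t2 B a b) := by
  refine IsUnit.of_mul_eq_one (1 - algebraMap B _ a * z2 B a b ^ 4 * t2 B a b -
    algebraMap B _ b * z2 B a b ^ 6 * t2 B a b ^ 2) ?_
  have := rel2 B a b
  linear_combination this

variable {B a b}

theorem kill1 {R : Type} [CommRing R] (φ : B →+* R) (x y : R)
    (h : y ^ 2 = x ^ 3 + φ a * x + φ b) (p : MvPolynomial (Fin 2) B)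
    (hp : p ∈ Ideal.span {eq1 B a b}) : MvPolynomial.eval₂Hom φ ![x, y] p = 0 := by
  have : Ideal.span {eq1 B a b} ≤ RingHom.ker (MvPolynomial.eval₂Hom φ ![x, y]) := by
    rw [Ideal.span_le, Set.singleton_subset_iff]
    change MvPolynomial.eval₂Hom φ ![x, y] (eq1 B a b) = 0
    simp [eq1]
    linear_combination h
  exact this hp

theorem kill2 {R : Type} [CommRing R] (φ : B →+* R) (z t : R)
    (h : t = 1 + φ a * z ^ 4 * t ^ 2 + φ b * z ^ 6 * t ^ 3) (p : MvPolynomial (Fin 2) B)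
    (hp : p ∈ Ideal.span {eq2 B a b}) : MvPolynomial.eval₂Hom φ ![z, t] p = 0 := by
  have : Ideal.span {eq2 B a b} ≤ RingHom.ker (MvPolynomial.eval₂Hom φ ![z, t]) := by
    rw [Ideal.span_le, Set.singleton_subset_iff]
    change MvPolynomial.eval₂Hom φ ![z, t] (eq2 B a b) = 0
    simp [eq2]
    linear_combination h
  exact this hp

/-- Homomorphisms from `A₁`. -/
noncomputable def lift1 {R : Type} [CommRing R] (φ : B →+* R) (x y : R)
    (h : y ^ 2 = x ^ 3 + φ a * x + φ b) : A1 B a b →+* R :=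
  Ideal.Quotient.lift _ (MvPolynomial.eval₂Hom φ ![x, y]) (kill1 φ x y h)

/-- Homomorphisms from `A₂`. -/
noncomputable def lift2 {R : Type} [CommRing R] (φ : B →+* R) (z t : R)
    (h : t = 1 + φ a * z ^ 4 * t ^ 2 + φ b * z ^ 6 * t ^ 3) : A2 B a b →+* R :=
  Ideal.Quotient.lift _ (MvPolynomial.eval₂Hom φ ![z, t]) (kill2 φ z t h)

section

variable {R : Type} [CommRing R] (φ : B →+* R)

@[simp]
theorem lift1_x (x y : R) (h : y ^ 2 = x ^ 3 + φ a * x + φ b) :
    lift1 φ x y h (x1 B a b) = x :=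
  (Ideal.Quotient.lift_mk _ _ _).trans (by simp)

@[simp]
theorem lift1_y (x y : R) (h : y ^ 2 = x ^ 3 + φ a * x + φ b) :
    lift1 φ x y h (y1 B a b) = y :=
  (Ideal.Quotient.lift_mk _ _ _).trans (by simp)

@[simp]
theorem lift1_b (x y : R) (h : y ^ 2 = x ^ 3 + φ a * x + φ b) (c : B) :
    lift1 φ x y h (algebraMap B _ c) = φ c :=
  (Ideal.Quotient.lift_mk (Ideal.span {eq1 B a b}) (MvPolynomial.eval₂Hom φ ![x, y])
    (kill1 φ x y h) (a := MvPolynomial.C c)).trans (by simp)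

@[simp]
theorem lift2_z (z t : R) (h : t = 1 + φ a * z ^ 4 * t ^ 2 + φ b * z ^ 6 * t ^ 3) :
    lift2 φ z t h (z2 B a b) = z :=
  (Ideal.Quotient.lift_mk _ _ _).trans (by simp)

@[simp]
theorem lift2_t (z t : R) (h : t = 1 + φ a * z ^ 4 * t ^ 2 + φ b * z ^ 6 * t ^ 3) :
    lift2 φ z t h (t2 B a b) = t :=
  (Ideal.Quotient.lift_mk _ _ _).trans (by simp)

@[simp]
theorem lift2_b (z t : R) (h : t = 1 + φ a * z ^ 4 * t ^ 2 + φ b * z ^ 6 * t ^ 3) (c : B) :
    lift2 φ z t h (algebraMap B _ c) = φ c :=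
  (Ideal.Quotient.lift_mk (Ideal.span {eq2 B a b}) (MvPolynomial.eval₂Hom φ ![z, t])
    (kill2 φ z t h) (a := MvPolynomial.C c)).trans (by simp)

theorem hom1_ext {f g : A1 B a b →+* R} (h : ∀ c, f (algebraMap B _ c) = g (algebraMap B _ c))
    (hx : f (x1 B a b) = g (x1 B a b)) (hy : f (y1 B a b) = g (y1 B a b)) : f = g := by
  refine Ideal.Quotient.ringHom_ext ?_
  refine MvPolynomial.ringHom_ext (fun c => h c) fun i => ?_
  fin_cases i
  · exact hx
  · exact hy

theorem hom2_ext {f g : A2 B a b →+* R} (h : ∀ c, f (algebraMap B _ c) = g (algebraMap B _ c))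
    (hz : f (z2 B a b) = g (z2 B a b)) (ht : f (t2 B a b) = g (t2 B a b)) : f = g := by
  refine Ideal.Quotient.ringHom_ext ?_
  refine MvPolynomial.ringHom_ext (fun c => h c) fun i => ?_
  fin_cases i
  · exact hz
  · exact ht

end

variable (B a b)

/-- The ring of the intersection of the charts. -/
abbrev A12 : Type := Localization.Away (z2 B a b)

/-- Restriction from the chart at infinity. -/
noncomputable def g2 : A2 B a b →+* A12 B a b := algebraMap _ _

/-- `z` as a unit. -/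
noncomputable def zu : (A12 B a b)ˣ :=
  (IsLocalization.Away.algebraMap_isUnit (S := A12 B a b) (z2 B a b)).unit

/-- `t` as a unit. -/
noncomputable def tu : (A12 B a b)ˣ := ((t2_unit B a b).map (algebraMap _ (A12 B a b))).unit

theorem zu_val : (zu B a b : A12 B a b) = g2 B a b (z2 B a b) := rfl

theorem tu_val : (tu B a b : A12 B a b) = g2 B a b (t2 B a b) := rfl

theorem rel12 : ((zu B a b)⁻¹ ^ 3 * (tu B a b)⁻¹ : (A12 B a b)ˣ).val ^ 2 =
    ((zu B a b)⁻¹ ^ 2 * (tu B a b)⁻¹ : (A12 B a b)ˣ).val ^ 3 +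
    algebraMap B (A12 B a b) a * ((zu B a b)⁻¹ ^ 2 * (tu B a b)⁻¹ : (A12 B a b)ˣ).val +
    algebraMap B (A12 B a b) b := by
  have h := congrArg (g2 B a b) (rel2 B a b)
  simp only [map_add, map_mul, map_pow, map_one, ← zu_val, ← tu_val] at h
  have ha : g2 B a b (algebraMap B _ a) = algebraMap B (A12 B a b) a := rfl
  have hb : g2 B a b (algebraMap B _ b) = algebraMap B (A12 B a b) b := rfl
  rw [ha, hb] at h
  have hz : (zu B a b : A12 B a b) * ((zu B a b)⁻¹ : (A12 B a b)ˣ).val = 1 := Units.mul_inv _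
  have ht : (tu B a b : A12 B a b) * ((tu B a b)⁻¹ : (A12 B a b)ˣ).val = 1 := Units.mul_inv _
  push_cast
  generalize ((zu B a b)⁻¹ : (A12 B a b)ˣ).val = zi at *
  generalize ((tu B a b)⁻¹ : (A12 B a b)ˣ).val = ti at *
  generalize (zu B a b : A12 B a b) = z at *
  generalize (tu B a b : A12 B a b) = t at *
  generalize algebraMap B (A12 B a b) a = a' at *
  generalize algebraMap B (A12 B a b) b = b' at *
  have hz4 : z ^ 4 * zi ^ 4 = 1 := by rw [← mul_pow, hz, one_pow]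
  have hz6 : z ^ 6 * zi ^ 6 = 1 := by rw [← mul_pow, hz, one_pow]
  have ht2 : t ^ 2 * ti ^ 2 = 1 := by rw [← mul_pow, ht, one_pow]
  have ht3 : t ^ 3 * ti ^ 3 = 1 := by rw [← mul_pow, ht, one_pow]
  have h2 : t * (zi ^ 6 * ti ^ 3) = (1 + a' * z ^ 4 * t ^ 2 + b' * z ^ 6 * t ^ 3) *
    (zi ^ 6 * ti ^ 3) := by rw [← h]
  have e1 : t * (zi ^ 6 * ti ^ 3) = zi ^ 6 * ti ^ 2 := by
    calc t * (zi ^ 6 * ti ^ 3) = (t * ti) * (zi ^ 6 * ti ^ 2) := by ring
      _ = _ := by rw [ht, one_mul]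
  have e2 : (1 + a' * z ^ 4 * t ^ 2 + b' * z ^ 6 * t ^ 3) * (zi ^ 6 * ti ^ 3) =
      zi ^ 6 * ti ^ 3 + a' * (zi ^ 2 * ti) + b' := by
    calc (1 + a' * z ^ 4 * t ^ 2 + b' * z ^ 6 * t ^ 3) * (zi ^ 6 * ti ^ 3) =
        zi ^ 6 * ti ^ 3 + a' * (zi ^ 2 * ti) * ((z ^ 4 * zi ^ 4) * (t ^ 2 * ti ^ 2)) +
          b' * ((z ^ 6 * zi ^ 6) * (t ^ 3 * ti ^ 3)) := by ring
      _ = _ := by rw [hz4, hz6, ht2, ht3]; ring
  rw [e1, e2] at h2
  calc (zi ^ 3 * ti) ^ 2 = zi ^ 6 * ti ^ 2 := by ring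
    _ = _ := h2
    _ = _ := by ring

/-- Restriction from the affine chart. -/
noncomputable def g1 : A1 B a b →+* A12 B a b :=
  lift1 (algebraMap B (A12 B a b)) ((zu B a b)⁻¹ ^ 2 * (tu B a b)⁻¹ : (A12 B a b)ˣ).val
    ((zu B a b)⁻¹ ^ 3 * (tu B a b)⁻¹ : (A12 B a b)ˣ).val (rel12 B a b)

theorem g1_x : g1 B a b (x1 B a b) = ((zu B a b)⁻¹ ^ 2 * (tu B a b)⁻¹ : (A12 B a b)ˣ).val :=
  lift1_x _ _ _ _

theorem g1_y : g1 B a b (y1 B a b) = ((zu B a b)⁻¹ ^ 3 * (tu B a b)⁻¹ : (A12 B a b)ˣ).val :=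
  lift1_y _ _ _ _

theorem g1_b (c : B) : g1 B a b (algebraMap B _ c) = algebraMap B _ c := lift1_b _ _ _ _ _

theorem g2_b (c : B) : g2 B a b (algebraMap B _ c) = algebraMap B _ c := rfl

/-- The localisation of `A₁` at `x y`. -/
abbrev L1 : Type := Localization.Away (x1 B a b * y1 B a b)

/-- `x` as a unit. -/
noncomputable def xu : (L1 B a b)ˣ :=
  (isUnit_of_mul_isUnit_left (by
    have := IsLocalization.Away.algebraMap_isUnit (S := L1 B a b) (x1 B a b * y1 B a b)
    rwa [map_mul] at this) : IsUnit (algebraMap (A1 B a b) (L1 B a b) (x1 B a b))).unit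

/-- `y` as a unit. -/
noncomputable def yu : (L1 B a b)ˣ :=
  (isUnit_of_mul_isUnit_right (by
    have := IsLocalization.Away.algebraMap_isUnit (S := L1 B a b) (x1 B a b * y1 B a b)
    rwa [map_mul] at this) : IsUnit (algebraMap (A1 B a b) (L1 B a b) (y1 B a b))).unit

theorem xu_val : (xu B a b : L1 B a b) = algebraMap (A1 B a b) (L1 B a b) (x1 B a b) := rfl

theorem yu_val : (yu B a b : L1 B a b) = algebraMap (A1 B a b) (L1 B a b) (y1 B a b) := rfl

theorem relL : ((yu B a b) ^ 2 * (xu B a b)⁻¹ ^ 3 : (L1 B a b)ˣ).val =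
    1 + algebraMap B (L1 B a b) a * ((xu B a b) * (yu B a b)⁻¹ : (L1 B a b)ˣ).val ^ 4 *
      ((yu B a b) ^ 2 * (xu B a b)⁻¹ ^ 3 : (L1 B a b)ˣ).val ^ 2 +
    algebraMap B (L1 B a b) b * ((xu B a b) * (yu B a b)⁻¹ : (L1 B a b)ˣ).val ^ 6 *
      ((yu B a b) ^ 2 * (xu B a b)⁻¹ ^ 3 : (L1 B a b)ˣ).val ^ 3 := by
  have h := congrArg (algebraMap (A1 B a b) (L1 B a b)) (rel1 B a b)
  simp only [map_add, map_mul, map_pow, ← xu_val, ← yu_val] at h
  have ha : algebraMap (A1 B a b) (L1 B a b) (algebraMap B _ a) = algebraMap B (L1 B a b) a := rfl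
  have hb : algebraMap (A1 B a b) (L1 B a b) (algebraMap B _ b) = algebraMap B (L1 B a b) b := rfl
  rw [ha, hb] at h
  have hx : (xu B a b : L1 B a b) * ((xu B a b)⁻¹ : (L1 B a b)ˣ).val = 1 := Units.mul_inv _
  have hy : (yu B a b : L1 B a b) * ((yu B a b)⁻¹ : (L1 B a b)ˣ).val = 1 := Units.mul_inv _
  push_cast
  generalize ((xu B a b)⁻¹ : (L1 B a b)ˣ).val = xi at *
  generalize ((yu B a b)⁻¹ : (L1 B a b)ˣ).val = yi at *
  generalize (xu B a b : L1 B a b) = x at *
  generalize (yu B a b : L1 B a b) = y at *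
  generalize algebraMap B (L1 B a b) a = a' at *
  generalize algebraMap B (L1 B a b) b = b' at *
  have hx3 : x ^ 3 * xi ^ 3 = 1 := by rw [← mul_pow, hx, one_pow]
  have hx4 : x ^ 4 * xi ^ 4 = 1 := by rw [← mul_pow, hx, one_pow]
  have hx6 : x ^ 6 * xi ^ 6 = 1 := by rw [← mul_pow, hx, one_pow]
  have hy4 : y ^ 4 * yi ^ 4 = 1 := by rw [← mul_pow, hy, one_pow]
  have hy6 : y ^ 6 * yi ^ 6 = 1 := by rw [← mul_pow, hy, one_pow]
  have e1 : a' * (x * yi) ^ 4 * (y ^ 2 * xi ^ 3) ^ 2 = a' * x * xi ^ 3 := by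
    calc a' * (x * yi) ^ 4 * (y ^ 2 * xi ^ 3) ^ 2 =
        a' * xi ^ 2 * (x ^ 4 * xi ^ 4) * (y ^ 4 * yi ^ 4) := by ring
      _ = a' * xi ^ 2 * (x * xi) := by rw [hx4, hy4, hx]; ring
      _ = _ := by ring
  have e2 : b' * (x * yi) ^ 6 * (y ^ 2 * xi ^ 3) ^ 3 = b' * xi ^ 3 := by
    calc b' * (x * yi) ^ 6 * (y ^ 2 * xi ^ 3) ^ 3 =
        b' * xi ^ 3 * (x ^ 6 * xi ^ 6) * (y ^ 6 * yi ^ 6) := by ring
      _ = _ := by rw [hx6, hy6]; ring
  rw [e1, e2, h]
  linear_combination hx3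

/-- The inverse of the comparison. -/
noncomputable def cmpInv : A12 B a b →+* L1 B a b :=
  IsLocalization.Away.lift (z2 B a b) (g := lift2 (algebraMap B (L1 B a b))
    ((xu B a b) * (yu B a b)⁻¹ : (L1 B a b)ˣ).val
    ((yu B a b) ^ 2 * (xu B a b)⁻¹ ^ 3 : (L1 B a b)ˣ).val (relL B a b)) (by
      rw [lift2_z]
      exact Units.isUnit _)

/-- The comparison. -/
noncomputable def cmp : L1 B a b →+* A12 B a b :=
  IsLocalization.Away.lift (x1 B a b * y1 B a b) (g := g1 B a b) (by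
      rw [map_mul, g1_x, g1_y]
      exact (Units.isUnit _).mul (Units.isUnit _))

theorem cmp_alg (v : A1 B a b) : cmp B a b (algebraMap _ _ v) = g1 B a b v :=
  IsLocalization.Away.lift_eq _ _ _

theorem cmpInv_alg (v : A2 B a b) : cmpInv B a b (algebraMap _ _ v) =
    lift2 (algebraMap B (L1 B a b)) ((xu B a b) * (yu B a b)⁻¹ : (L1 B a b)ˣ).val
    ((yu B a b) ^ 2 * (xu B a b)⁻¹ ^ 3 : (L1 B a b)ˣ).val (relL B a b) v :=
  IsLocalization.Away.lift_eq _ _ _

theorem cmp_xu : Units.map (cmp B a b : L1 B a b →* A12 B a b) (xu B a b) =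
    (zu B a b)⁻¹ ^ 2 * (tu B a b)⁻¹ := by
  ext1
  change cmp B a b (algebraMap _ _ (x1 B a b)) = _
  rw [cmp_alg, g1_x]

theorem cmp_yu : Units.map (cmp B a b : L1 B a b →* A12 B a b) (yu B a b) =
    (zu B a b)⁻¹ ^ 3 * (tu B a b)⁻¹ := by
  ext1
  change cmp B a b (algebraMap _ _ (y1 B a b)) = _
  rw [cmp_alg, g1_y]

theorem cmpInv_zu : Units.map (cmpInv B a b : A12 B a b →* L1 B a b) (zu B a b) =
    (xu B a b) * (yu B a b)⁻¹ := by
  ext1
  change cmpInv B a b (algebraMap _ _ (z2 B a b)) = _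
  rw [cmpInv_alg, lift2_z]

theorem cmpInv_tu : Units.map (cmpInv B a b : A12 B a b →* L1 B a b) (tu B a b) =
    (yu B a b) ^ 2 * (xu B a b)⁻¹ ^ 3 := by
  ext1
  change cmpInv B a b (algebraMap _ _ (t2 B a b)) = _
  rw [cmpInv_alg, lift2_t]

theorem cmp_cmpInv : (cmp B a b).comp (cmpInv B a b) = RingHom.id _ := by
  refine IsLocalization.ringHom_ext (Submonoid.powers (z2 B a b)) ?_
  refine hom2_ext ?_ ?_ ?_
  · intro c
    change cmp B a b (cmpInv B a b (algebraMap _ _ (algebraMap B _ c))) = _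
    rw [cmpInv_alg, lift2_b]
    change cmp B a b (algebraMap (A1 B a b) _ (algebraMap B _ c)) = _
    rw [cmp_alg, g1_b]
    rfl
  · change cmp B a b (cmpInv B a b (algebraMap _ _ (z2 B a b))) = _
    rw [cmpInv_alg, lift2_z]
    have : ((Units.map (cmp B a b : L1 B a b →* A12 B a b)) ((xu B a b) * (yu B a b)⁻¹)) =
        zu B a b := by
      rw [map_mul, map_inv, cmp_xu, cmp_yu]
      group
    exact congrArg Units.val this
  · change cmp B a b (cmpInv B a b (algebraMap _ _ (t2 B a b))) = _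
    rw [cmpInv_alg, lift2_t]
    have : ((Units.map (cmp B a b : L1 B a b →* A12 B a b)) ((yu B a b) ^ 2 * (xu B a b)⁻¹ ^ 3)) =
        tu B a b := by
      rw [map_mul, map_pow, map_pow, map_inv, cmp_xu, cmp_yu]
      have hc : Commute (zu B a b) (tu B a b) := Commute.all _ _
      simp only [mul_inv, inv_inv, mul_pow, ← pow_mul, inv_pow]
      rw [mul_mul_mul_comm]
      group
    exact congrArg Units.val this

theorem cmpInv_cmp : (cmpInv B a b).comp (cmp B a b) = RingHom.id _ := by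
  refine IsLocalization.ringHom_ext (Submonoid.powers (x1 B a b * y1 B a b)) ?_
  refine hom1_ext ?_ ?_ ?_
  · intro c
    change cmpInv B a b (cmp B a b (algebraMap _ _ (algebraMap B _ c))) = _
    rw [cmp_alg, g1_b]
    change cmpInv B a b (algebraMap (A2 B a b) _ (algebraMap B _ c)) = _
    rw [cmpInv_alg, lift2_b]
    rfl
  · change cmpInv B a b (cmp B a b (algebraMap _ _ (x1 B a b))) = _
    rw [cmp_alg, g1_x]
    have : ((Units.map (cmpInv B a b : A12 B a b →* L1 B a b))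
        ((zu B a b)⁻¹ ^ 2 * (tu B a b)⁻¹)) = xu B a b := by
      rw [map_mul, map_pow, map_inv, map_inv, cmpInv_zu, cmpInv_tu]
      simp only [mul_inv, inv_inv, mul_pow, inv_pow]
      rw [mul_mul_mul_comm]
      group
    exact congrArg Units.val this
  · change cmpInv B a b (cmp B a b (algebraMap _ _ (y1 B a b))) = _
    rw [cmp_alg, g1_y]
    have : ((Units.map (cmpInv B a b : A12 B a b →* L1 B a b))
        ((zu B a b)⁻¹ ^ 3 * (tu B a b)⁻¹)) = yu B a b := by
      rw [map_mul, map_pow, map_inv, map_inv, cmpInv_zu, cmpInv_tu]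
      simp only [mul_inv, inv_inv, mul_pow, inv_pow]
      rw [mul_mul_mul_comm]
      group
      simp
    exact congrArg Units.val this

/-- The comparison isomorphism. -/
noncomputable def cmpEquiv : L1 B a b ≃+* A12 B a b :=
  RingEquiv.ofRingHom (cmp B a b) (cmpInv B a b) (cmp_cmpInv B a b) (cmpInv_cmp B a b)

instance open1 : IsOpenImmersion (spMap (g1 B a b)) := by
  have h1 : g1 B a b = (cmpEquiv B a b : L1 B a b →+* A12 B a b).comp
      (algebraMap (A1 B a b) (L1 B a b)) := by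
    exact RingHom.ext fun v => (cmp_alg B a b v).symm
  have h2 : spMap (g1 B a b) = spMap (cmpEquiv B a b : L1 B a b →+* A12 B a b) ≫
      spMap (algebraMap (A1 B a b) (L1 B a b)) := by
    rw [h1]
    exact Spec.map_comp (CommRingCat.ofHom (algebraMap (A1 B a b) (L1 B a b)))
      (CommRingCat.ofHom (cmpEquiv B a b : L1 B a b →+* A12 B a b))
  have h3 : IsIso (spMap (cmpEquiv B a b : L1 B a b →+* A12 B a b)) := by
    have : IsIso (CommRingCat.ofHom (cmpEquiv B a b : L1 B a b →+* A12 B a b)) :=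
      (RingEquiv.toCommRingCatIso (cmpEquiv B a b)).isIso_hom
    infer_instance
  rw [h2]
  infer_instance

instance open2 : IsOpenImmersion (spMap (g2 B a b)) := by
  unfold g2
  infer_instance

end rings

/-! ## The scheme -/

/-- Weierstrass data over `B`: an equation `y² = x³ + a x + b` and `m` affine points. -/
structure WD (m : ℕ) (B : Type) [CommRing B] where
  /-- coefficient -/
  a : B
  /-- coefficient -/
  b : B
  /-- first coordinates -/
  x : Fin m → B
  /-- second coordinates -/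
  y : Fin m → B
  eq : ∀ i, y i ^ 2 = x i ^ 3 + a * x i + b

section scheme

section

variable (B : Type) [CommRing B] (a b : B)

/-- The Weierstrass curve. -/
noncomputable def WX : Scheme.{0} := pushout (spMap (g1 B a b)) (spMap (g2 B a b))

/-- The affine chart. -/
noncomputable def WX.in1 : Sp (A1 B a b) ⟶ WX B a b := pushout.inl _ _

/-- The chart at infinity. -/
noncomputable def WX.in2 : Sp (A2 B a b) ⟶ WX B a b := pushout.inr _ _

instance : IsOpenImmersion (WX.in1 B a b) :=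
  inferInstanceAs (IsOpenImmersion (pushout.inl (spMap (g1 B a b)) (spMap (g2 B a b))))

instance : IsOpenImmersion (WX.in2 B a b) :=
  inferInstanceAs (IsOpenImmersion (pushout.inr (spMap (g1 B a b)) (spMap (g2 B a b))))

/-- The projection. -/
noncomputable def WX.pr : WX B a b ⟶ Sp B :=
  pushout.desc (spMap (algebraMap B _)) (spMap (algebraMap B _)) (by
    rw [← Spec.map_comp, ← Spec.map_comp]
    congr 1
    ext c
    exact g1_b B a b c)

@[reassoc (attr := simp)]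
theorem WX.in1_pr : WX.in1 B a b ≫ WX.pr B a b = spMap (algebraMap B _) :=
  pushout.inl_desc _ _ _

@[reassoc (attr := simp)]
theorem WX.in2_pr : WX.in2 B a b ≫ WX.pr B a b = spMap (algebraMap B _) :=
  pushout.inr_desc _ _ _

/-- The point at infinity. -/
noncomputable def inf2 : A2 B a b →+* B :=
  lift2 (RingHom.id B) 0 1 (by simp)

end

variable {m : ℕ} {B : Type} [CommRing B] (P : WD m B)

/-- The affine points. -/
noncomputable def pt1 (i : Fin m) : A1 B P.a P.b →+* B :=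
  lift1 (RingHom.id B) (P.x i) (P.y i) (P.eq i)

/-- The Weierstrass family with sections infinity and the affine points. -/
noncomputable def Wei : Fam (m + 1) B where
  X := WX B P.a P.b
  π := WX.pr B P.a P.b
  σ := Fin.cons (spMap (inf2 B P.a P.b) ≫ WX.in2 B P.a P.b)
    (fun i => spMap (pt1 P i) ≫ WX.in1 B P.a P.b)
  sec i := by
    refine Fin.cases ?_ (fun i => ?_) i
    · rw [Fin.cons_zero, Category.assoc, WX.in2_pr, ← Spec.map_comp]
      rw [← Spec.map_id]
      congr 1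
      ext c
      exact lift2_b (a := P.a) (b := P.b) (RingHom.id B) 0 1 (by simp) c
    · rw [Fin.cons_succ, Category.assoc, WX.in1_pr, ← Spec.map_comp]
      rw [← Spec.map_id]
      congr 1
      ext c
      exact lift1_b (a := P.a) (b := P.b) (RingHom.id B) (P.x i) (P.y i) (P.eq i) c

end scheme

end Pool.Agent.MG.W


end

section

/-!
# Base change of Weierstrass curves: the morphisms
-/

open CategoryTheory CategoryTheory.Limits AlgebraicGeometry TensorProduct

namespace Pool.Agent.MG.W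

section

variable {B B' : Type} [CommRing B] [CommRing B'] (φ : B →+* B') {a b : B} {a' b' : B'}

/-- Base change of the affine chart. -/
noncomputable def bc1 (ha : a' = φ a) (hb : b' = φ b) : A1 B a b →+* A1 B' a' b' :=
  lift1 ((algebraMap B' (A1 B' a' b')).comp φ) (x1 B' a' b') (y1 B' a' b') (by
    rw [rel1, ha, hb]
    rfl)

/-- Base change of the chart at infinity. -/
noncomputable def bc2 (ha : a' = φ a) (hb : b' = φ b) : A2 B a b →+* A2 B' a' b' :=
  lift2 ((algebraMap B' (A2 B' a' b')).comp φ) (z2 B' a' b') (t2 B' a' b') (by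
    have h := rel2 B' a' b'
    conv_lhs => rw [h]
    rw [ha, hb]
    rfl)

@[simp]
theorem bc1_x (ha : a' = φ a) (hb : b' = φ b) : bc1 φ ha hb (x1 B a b) = x1 B' a' b' :=
  lift1_x _ _ _ _

@[simp]
theorem bc1_y (ha : a' = φ a) (hb : b' = φ b) : bc1 φ ha hb (y1 B a b) = y1 B' a' b' :=
  lift1_y _ _ _ _

@[simp]
theorem bc1_b (ha : a' = φ a) (hb : b' = φ b) (c : B) :
    bc1 φ ha hb (algebraMap B _ c) = algebraMap B' _ (φ c) :=
  lift1_b _ _ _ _ _

@[simp]
theorem bc2_z (ha : a' = φ a) (hb : b' = φ b) : bc2 φ ha hb (z2 B a b) = z2 B' a' b' :=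
  lift2_z _ _ _ _

@[simp]
theorem bc2_t (ha : a' = φ a) (hb : b' = φ b) : bc2 φ ha hb (t2 B a b) = t2 B' a' b' :=
  lift2_t _ _ _ _

@[simp]
theorem bc2_b (ha : a' = φ a) (hb : b' = φ b) (c : B) :
    bc2 φ ha hb (algebraMap B _ c) = algebraMap B' _ (φ c) :=
  lift2_b _ _ _ _ _

/-- Base change of the intersection. -/
noncomputable def bc12 (ha : a' = φ a) (hb : b' = φ b) : A12 B a b →+* A12 B' a' b' :=
  IsLocalization.Away.lift (z2 B a b) (g := (g2 B' a' b').comp (bc2 φ ha hb)) (by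
    rw [RingHom.comp_apply, bc2_z]
    exact (zu B' a' b').isUnit)

theorem bc12_g2 (ha : a' = φ a) (hb : b' = φ b) (v : A2 B a b) :
    bc12 φ ha hb (g2 B a b v) = g2 B' a' b' (bc2 φ ha hb v) :=
  IsLocalization.Away.lift_eq _ _ _

theorem bc12_b (ha : a' = φ a) (hb : b' = φ b) (c : B) :
    bc12 φ ha hb (algebraMap B _ c) = algebraMap B' _ (φ c) := by
  rw [← g2_b B a b c, bc12_g2, bc2_b, g2_b]

theorem bc12_zu (ha : a' = φ a) (hb : b' = φ b) :
    Units.map (bc12 φ ha hb : A12 B a b →* A12 B' a' b') (zu B a b) = zu B' a' b' := by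
  ext1
  change bc12 φ ha hb (g2 B a b (z2 B a b)) = g2 B' a' b' (z2 B' a' b')
  rw [bc12_g2, bc2_z]

theorem bc12_tu (ha : a' = φ a) (hb : b' = φ b) :
    Units.map (bc12 φ ha hb : A12 B a b →* A12 B' a' b') (tu B a b) = tu B' a' b' := by
  ext1
  change bc12 φ ha hb (g2 B a b (t2 B a b)) = g2 B' a' b' (t2 B' a' b')
  rw [bc12_g2, bc2_t]

theorem bc12_g1 (ha : a' = φ a) (hb : b' = φ b) (v : A1 B a b) :
    bc12 φ ha hb (g1 B a b v) = g1 B' a' b' (bc1 φ ha hb v) := by
  have : (bc12 φ ha hb).comp (g1 B a b) = (g1 B' a' b').comp (bc1 φ ha hb) := by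
    refine hom1_ext ?_ ?_ ?_
    · intro c
      rw [RingHom.comp_apply, RingHom.comp_apply, g1_b, bc12_b, bc1_b, g1_b]
    · rw [RingHom.comp_apply, RingHom.comp_apply, bc1_x, g1_x, g1_x]
      have h := congrArg Units.val (show Units.map (bc12 φ ha hb : A12 B a b →* A12 B' a' b')
        ((zu B a b)⁻¹ ^ 2 * (tu B a b)⁻¹) = (zu B' a' b')⁻¹ ^ 2 * (tu B' a' b')⁻¹ by
          rw [map_mul, map_pow, map_inv, map_inv, bc12_zu, bc12_tu])
      exact h
    · rw [RingHom.comp_apply, RingHom.comp_apply, bc1_y, g1_y, g1_y]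
      have h := congrArg Units.val (show Units.map (bc12 φ ha hb : A12 B a b →* A12 B' a' b')
        ((zu B a b)⁻¹ ^ 3 * (tu B a b)⁻¹) = (zu B' a' b')⁻¹ ^ 3 * (tu B' a' b')⁻¹ by
          rw [map_mul, map_pow, map_inv, map_inv, bc12_zu, bc12_tu])
      exact h
  exact congrArg (fun f => f v) this

theorem spMap_comp' {A B C : Type} [CommRing A] [CommRing B] [CommRing C] (f : A →+* B)
    (g : B →+* C) : spMap g ≫ spMap f = spMap (g.comp f) := by
  change _ = Spec.map (CommRingCat.ofHom (g.comp f))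
  rw [CommRingCat.ofHom_comp, Spec.map_comp]

/-- The base change morphism. -/
noncomputable def WX.map (ha : a' = φ a) (hb : b' = φ b) : WX B' a' b' ⟶ WX B a b :=
  pushout.desc (spMap (bc1 φ ha hb) ≫ WX.in1 B a b) (spMap (bc2 φ ha hb) ≫ WX.in2 B a b) (by
    have h1 : (g1 B' a' b').comp (bc1 φ ha hb) = (bc12 φ ha hb).comp (g1 B a b) :=
      RingHom.ext fun v => (bc12_g1 φ ha hb v).symm
    have h2 : (g2 B' a' b').comp (bc2 φ ha hb) = (bc12 φ ha hb).comp (g2 B a b) :=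
      RingHom.ext fun v => (bc12_g2 φ ha hb v).symm
    rw [← Category.assoc, ← Category.assoc, spMap_comp', spMap_comp', h1, h2, ← spMap_comp',
      ← spMap_comp', Category.assoc, Category.assoc]
    congr 1
    exact pushout.condition)

@[reassoc]
theorem WX.in1_map (ha : a' = φ a) (hb : b' = φ b) :
    WX.in1 B' a' b' ≫ WX.map φ ha hb = spMap (bc1 φ ha hb) ≫ WX.in1 B a b :=
  pushout.inl_desc _ _ _

@[reassoc]
theorem WX.in2_map (ha : a' = φ a) (hb : b' = φ b) :
    WX.in2 B' a' b' ≫ WX.map φ ha hb = spMap (bc2 φ ha hb) ≫ WX.in2 B a b :=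
  pushout.inr_desc _ _ _

theorem WX.ext' {B : Type} [CommRing B] {a b : B} {Y : Scheme.{0}} {f g : WX B a b ⟶ Y}
    (h1 : WX.in1 B a b ≫ f = WX.in1 B a b ≫ g) (h2 : WX.in2 B a b ≫ f = WX.in2 B a b ≫ g) :
    f = g :=
  pushout.hom_ext h1 h2

@[reassoc]
theorem WX.map_pr (ha : a' = φ a) (hb : b' = φ b) :
    WX.map φ ha hb ≫ WX.pr B a b = WX.pr B' a' b' ≫ spMap φ := by
  refine WX.ext' ?_ ?_
  · rw [← Category.assoc, WX.in1_map, Category.assoc, WX.in1_pr, ← Category.assoc, WX.in1_pr,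
      spMap_comp', spMap_comp']
    exact congrArg (fun f => spMap f) (RingHom.ext fun c => bc1_b φ ha hb c)
  · rw [← Category.assoc, WX.in2_map, Category.assoc, WX.in2_pr, ← Category.assoc, WX.in2_pr,
      spMap_comp', spMap_comp']
    exact congrArg (fun f => spMap f) (RingHom.ext fun c => bc2_b φ ha hb c)

/-- `P'` is the base change of `P`. -/
structure WD.Bc {m : ℕ} (P : WD m B) (P' : WD m B') : Prop where
  a : P'.a = φ P.a
  b : P'.b = φ P.b
  x : ∀ i, P'.x i = φ (P.x i)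
  y : ∀ i, P'.y i = φ (P.y i)

/-- The base change of `P`. -/
def WD.map {m : ℕ} (P : WD m B) : WD m B' where
  a := φ P.a
  b := φ P.b
  x i := φ (P.x i)
  y i := φ (P.y i)
  eq i := by rw [← map_pow, P.eq i]; simp

theorem WD.map_bc {m : ℕ} (P : WD m B) : WD.Bc φ P (P.map φ) :=
  ⟨rfl, rfl, fun _ => rfl, fun _ => rfl⟩

/-- The base change morphism of Weierstrass families. -/
noncomputable def wmap {m : ℕ} {P : WD m B} {P' : WD m B'} (h : WD.Bc φ P P') :
    (Wei P').X ⟶ (Wei P).X :=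
  WX.map φ h.a h.b

/-- The base change morphism respects the sections. -/
theorem wmap_sec {m : ℕ} {P : WD m B} {P' : WD m B'} (h : WD.Bc φ P P') (i : Fin (m + 1)) :
    (Wei P').σ i ≫ wmap φ h = spMap φ ≫ (Wei P).σ i := by
  refine Fin.cases ?_ (fun i => ?_) i
  · change (spMap (inf2 B' P'.a P'.b) ≫ WX.in2 B' P'.a P'.b) ≫ WX.map φ h.a h.b =
      spMap φ ≫ spMap (inf2 B P.a P.b) ≫ WX.in2 B P.a P.b
    rw [Category.assoc, WX.in2_map, ← Category.assoc, ← Category.assoc, spMap_comp', spMap_comp']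
    congr 2
    refine hom2_ext ?_ ?_ ?_
    · intro c
      rw [RingHom.comp_apply, RingHom.comp_apply, bc2_b, inf2, lift2_b, inf2, lift2_b]
      rfl
    · rw [RingHom.comp_apply, RingHom.comp_apply, bc2_z, inf2, lift2_z, inf2, lift2_z, map_zero]
    · rw [RingHom.comp_apply, RingHom.comp_apply, bc2_t, inf2, lift2_t, inf2, lift2_t, map_one]
  · change (spMap (pt1 P' i) ≫ WX.in1 B' P'.a P'.b) ≫ WX.map φ h.a h.b =
      spMap φ ≫ spMap (pt1 P i) ≫ WX.in1 B P.a P.b
    rw [Category.assoc, WX.in1_map, ← Category.assoc, ← Category.assoc, spMap_comp', spMap_comp']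
    congr 2
    refine hom1_ext ?_ ?_ ?_
    · intro c
      rw [RingHom.comp_apply, RingHom.comp_apply, bc1_b, pt1, lift1_b, pt1, lift1_b]
      rfl
    · rw [RingHom.comp_apply, RingHom.comp_apply, bc1_x, pt1, lift1_x, pt1, lift1_x, h.x]
    · rw [RingHom.comp_apply, RingHom.comp_apply, bc1_y, pt1, lift1_y, pt1, lift1_y, h.y]

end

/-! ## Scaling -/

section

variable {B : Type} [CommRing B] {a b a' b' u v : B}

/-- Scaling on the affine chart: `x ↦ v² x`, `y ↦ v³ y`, `v = 1/u`. -/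
noncomputable def sc1 (huv : u * v = 1) (ha : a' = u ^ 4 * a) (hb : b' = u ^ 6 * b) :
    A1 B a b →+* A1 B a' b' :=
  lift1 (algebraMap B (A1 B a' b')) (algebraMap B _ v ^ 2 * x1 B a' b')
    (algebraMap B _ v ^ 3 * y1 B a' b') (by
    have h := rel1 B a' b'
    have h4 : algebraMap B (A1 B a' b') a' = algebraMap B _ u ^ 4 * algebraMap B _ a := by
      rw [ha, map_mul, map_pow]
    have h6 : algebraMap B (A1 B a' b') b' = algebraMap B _ u ^ 6 * algebraMap B _ b := by
      rw [hb, map_mul, map_pow]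
    have huv' : algebraMap B (A1 B a' b') u * algebraMap B _ v = 1 := by
      rw [← map_mul, huv, map_one]
    rw [h4, h6] at h
    generalize algebraMap B (A1 B a' b') u = U at *
    generalize algebraMap B (A1 B a' b') v = V at *
    generalize algebraMap B (A1 B a' b') a = A at *
    generalize algebraMap B (A1 B a' b') b = C at *
    generalize x1 B a' b' = x at *
    generalize y1 B a' b' = y at *
    have e4 : V ^ 6 * U ^ 4 = V ^ 2 := by
      calc V ^ 6 * U ^ 4 = V ^ 2 * (U * V) ^ 4 := by ring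
        _ = V ^ 2 := by rw [huv', one_pow, mul_one]
    have e6 : V ^ 6 * U ^ 6 = 1 := by
      calc V ^ 6 * U ^ 6 = (U * V) ^ 6 := by ring
        _ = 1 := by rw [huv', one_pow]
    calc (V ^ 3 * y) ^ 2 = V ^ 6 * y ^ 2 := by ring
      _ = V ^ 6 * x ^ 3 + (V ^ 6 * U ^ 4) * A * x + (V ^ 6 * U ^ 6) * C := by rw [h]; ring
      _ = (V ^ 2 * x) ^ 3 + A * (V ^ 2 * x) + C := by rw [e4, e6]; ring)

/-- Scaling on the chart at infinity: `z ↦ u z`, `t ↦ t`. -/
noncomputable def sc2 (ha : a' = u ^ 4 * a) (hb : b' = u ^ 6 * b) :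
    A2 B a b →+* A2 B a' b' :=
  lift2 (algebraMap B (A2 B a' b')) (algebraMap B _ u * z2 B a' b') (t2 B a' b') (by
    have h := rel2 B a' b'
    have h4 : algebraMap B (A2 B a' b') a' = algebraMap B _ u ^ 4 * algebraMap B _ a := by
      rw [ha, map_mul, map_pow]
    have h6 : algebraMap B (A2 B a' b') b' = algebraMap B _ u ^ 6 * algebraMap B _ b := by
      rw [hb, map_mul, map_pow]
    rw [h4, h6] at h
    conv_lhs => rw [h]
    ring)

@[simp]
theorem sc1_x (huv : u * v = 1) (ha : a' = u ^ 4 * a) (hb : b' = u ^ 6 * b) :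
    sc1 huv ha hb (x1 B a b) = algebraMap B _ v ^ 2 * x1 B a' b' := lift1_x _ _ _ _

@[simp]
theorem sc1_y (huv : u * v = 1) (ha : a' = u ^ 4 * a) (hb : b' = u ^ 6 * b) :
    sc1 huv ha hb (y1 B a b) = algebraMap B _ v ^ 3 * y1 B a' b' := lift1_y _ _ _ _

@[simp]
theorem sc1_b (huv : u * v = 1) (ha : a' = u ^ 4 * a) (hb : b' = u ^ 6 * b) (c : B) :
    sc1 huv ha hb (algebraMap B _ c) = algebraMap B _ c := lift1_b _ _ _ _ _

@[simp]
theorem sc2_z (ha : a' = u ^ 4 * a) (hb : b' = u ^ 6 * b) :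
    sc2 ha hb (z2 B a b) = algebraMap B _ u * z2 B a' b' := lift2_z _ _ _ _

@[simp]
theorem sc2_t (ha : a' = u ^ 4 * a) (hb : b' = u ^ 6 * b) :
    sc2 ha hb (t2 B a b) = t2 B a' b' := lift2_t _ _ _ _

@[simp]
theorem sc2_b (ha : a' = u ^ 4 * a) (hb : b' = u ^ 6 * b) (c : B) :
    sc2 ha hb (algebraMap B _ c) = algebraMap B _ c := lift2_b _ _ _ _ _

/-- Scaling on the intersection. -/
noncomputable def sc12 (huv : u * v = 1) (ha : a' = u ^ 4 * a) (hb : b' = u ^ 6 * b) :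
    A12 B a b →+* A12 B a' b' :=
  IsLocalization.Away.lift (z2 B a b) (g := (g2 B a' b').comp (sc2 ha hb)) (by
    rw [RingHom.comp_apply, sc2_z, map_mul]
    refine IsUnit.mul ?_ (zu B a' b').isUnit
    rw [g2_b]
    exact (IsUnit.of_mul_eq_one v huv).map _)

theorem sc12_g2 (huv : u * v = 1) (ha : a' = u ^ 4 * a) (hb : b' = u ^ 6 * b) (w : A2 B a b) :
    sc12 huv ha hb (g2 B a b w) = g2 B a' b' (sc2 ha hb w) :=
  IsLocalization.Away.lift_eq _ _ _

theorem sc12_b (huv : u * v = 1) (ha : a' = u ^ 4 * a) (hb : b' = u ^ 6 * b) (c : B) :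
    sc12 huv ha hb (algebraMap B _ c) = algebraMap B _ c := by
  rw [← g2_b B a b c, sc12_g2, sc2_b, g2_b]

/-- `u` as a unit of `A₁₂`. -/
noncomputable def u12 (a' b' : B) (huv : u * v = 1) : (A12 B a' b')ˣ where
  val := algebraMap B _ u
  inv := algebraMap B _ v
  val_inv := by rw [← map_mul, huv, map_one]
  inv_val := by rw [← map_mul, mul_comm, huv, map_one]

theorem sc12_zu (huv : u * v = 1) (ha : a' = u ^ 4 * a) (hb : b' = u ^ 6 * b) :
    Units.map (sc12 huv ha hb : A12 B a b →* A12 B a' b') (zu B a b) =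
      u12 a' b' huv * zu B a' b' := by
  ext1
  change sc12 huv ha hb (g2 B a b (z2 B a b)) = algebraMap B _ u * g2 B a' b' (z2 B a' b')
  rw [sc12_g2, sc2_z, map_mul, g2_b]

theorem sc12_tu (huv : u * v = 1) (ha : a' = u ^ 4 * a) (hb : b' = u ^ 6 * b) :
    Units.map (sc12 huv ha hb : A12 B a b →* A12 B a' b') (tu B a b) = tu B a' b' := by
  ext1
  change sc12 huv ha hb (g2 B a b (t2 B a b)) = g2 B a' b' (t2 B a' b')
  rw [sc12_g2, sc2_t]

theorem sc12_g1 (huv : u * v = 1) (ha : a' = u ^ 4 * a) (hb : b' = u ^ 6 * b) (w : A1 B a b) :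
    sc12 huv ha hb (g1 B a b w) = g1 B a' b' (sc1 huv ha hb w) := by
  have : (sc12 huv ha hb).comp (g1 B a b) = (g1 B a' b').comp (sc1 huv ha hb) := by
    refine hom1_ext ?_ ?_ ?_
    · intro c
      rw [RingHom.comp_apply, RingHom.comp_apply, g1_b, sc12_b, sc1_b, g1_b]
    · rw [RingHom.comp_apply, RingHom.comp_apply, sc1_x, g1_x, map_mul, map_pow, g1_b, g1_x]
      have h := congrArg Units.val (show Units.map (sc12 huv ha hb : A12 B a b →* A12 B a' b')
        ((zu B a b)⁻¹ ^ 2 * (tu B a b)⁻¹) =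
          (u12 a' b' huv)⁻¹ ^ 2 * ((zu B a' b')⁻¹ ^ 2 * (tu B a' b')⁻¹) by
          rw [map_mul, map_pow, map_inv, map_inv, sc12_zu, sc12_tu, mul_inv, mul_pow, mul_assoc])
      exact h
    · rw [RingHom.comp_apply, RingHom.comp_apply, sc1_y, g1_y, map_mul, map_pow, g1_b, g1_y]
      have h := congrArg Units.val (show Units.map (sc12 huv ha hb : A12 B a b →* A12 B a' b')
        ((zu B a b)⁻¹ ^ 3 * (tu B a b)⁻¹) =
          (u12 a' b' huv)⁻¹ ^ 3 * ((zu B a' b')⁻¹ ^ 3 * (tu B a' b')⁻¹) by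
          rw [map_mul, map_pow, map_inv, map_inv, sc12_zu, sc12_tu, mul_inv, mul_pow, mul_assoc])
      exact h
  exact congrArg (fun f => f w) this

/-- The scaling morphism. -/
noncomputable def WX.sc (huv : u * v = 1) (ha : a' = u ^ 4 * a) (hb : b' = u ^ 6 * b) :
    WX B a' b' ⟶ WX B a b :=
  pushout.desc (spMap (sc1 huv ha hb) ≫ WX.in1 B a b) (spMap (sc2 ha hb) ≫ WX.in2 B a b) (by
    have h1 : (g1 B a' b').comp (sc1 huv ha hb) = (sc12 huv ha hb).comp (g1 B a b) :=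
      RingHom.ext fun v => (sc12_g1 huv ha hb v).symm
    have h2 : (g2 B a' b').comp (sc2 ha hb) = (sc12 huv ha hb).comp (g2 B a b) :=
      RingHom.ext fun v => (sc12_g2 huv ha hb v).symm
    rw [← Category.assoc, ← Category.assoc, spMap_comp', spMap_comp', h1, h2, ← spMap_comp',
      ← spMap_comp', Category.assoc, Category.assoc]
    congr 1
    exact pushout.condition)

@[reassoc]
theorem WX.in1_sc (huv : u * v = 1) (ha : a' = u ^ 4 * a) (hb : b' = u ^ 6 * b) :
    WX.in1 B a' b' ≫ WX.sc huv ha hb = spMap (sc1 huv ha hb) ≫ WX.in1 B a b :=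
  pushout.inl_desc _ _ _

@[reassoc]
theorem WX.in2_sc (huv : u * v = 1) (ha : a' = u ^ 4 * a) (hb : b' = u ^ 6 * b) :
    WX.in2 B a' b' ≫ WX.sc huv ha hb = spMap (sc2 ha hb) ≫ WX.in2 B a b :=
  pushout.inr_desc _ _ _

@[reassoc]
theorem WX.sc_pr (huv : u * v = 1) (ha : a' = u ^ 4 * a) (hb : b' = u ^ 6 * b) :
    WX.sc huv ha hb ≫ WX.pr B a b = WX.pr B a' b' := by
  refine WX.ext' ?_ ?_
  · rw [← Category.assoc, WX.in1_sc, Category.assoc, WX.in1_pr, WX.in1_pr, spMap_comp']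
    exact congrArg (fun f => spMap f) (RingHom.ext fun c => sc1_b huv ha hb c)
  · rw [← Category.assoc, WX.in2_sc, Category.assoc, WX.in2_pr, WX.in2_pr, spMap_comp']
    exact congrArg (fun f => spMap f) (RingHom.ext fun c => sc2_b ha hb c)

/-- `P'` is the transform of `P` by the scaling `x ↦ u² x`, `y ↦ u³ y`. -/
structure WD.Sc {m : ℕ} (u : B) (P P' : WD m B) : Prop where
  a : P'.a = u ^ 4 * P.a
  b : P'.b = u ^ 6 * P.b
  x : ∀ i, P'.x i = u ^ 2 * P.x i
  y : ∀ i, P'.y i = u ^ 3 * P.y i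

end

end Pool.Agent.MG.W


end

section

/-!
# Statements on Weierstrass families
-/

open CategoryTheory CategoryTheory.Limits AlgebraicGeometry TensorProduct

namespace Pool.Agent.MG.W

/-- The Weierstrass family `P` is stable: no cuspidal fibres, affine points with invertible
`y`-coordinates, and invertible differences of the `x`-coordinates. -/
structure WD.Ok {m : ℕ} {B : Type} [CommRing B] (P : WD m B) : Prop where
  six : IsUnit (6 : B)
  ab : Ideal.span {P.a, P.b} = ⊤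
  y : ∀ i, IsUnit (P.y i)
  x : ∀ i j, i ≠ j → IsUnit (P.x i - P.x j)

/-! ## Geometry of Weierstrass curves -/

/-- WBC: the base change square. -/
def Stmt_WBC : Prop :=
  ∀ {B B' : Type} [CommRing B] [CommRing B'] (φ : B →+* B') {a b : B} {a' b' : B'}
    (ha : a' = φ a) (hb : b' = φ b),
    IsPullback (WX.map φ ha hb) (WX.pr B' a' b') (WX.pr B a b) (spMap φ)

/-- WSC: scaling is an isomorphism and respects the sections. -/
def Stmt_WSC : Prop :=
  (∀ {B : Type} [CommRing B] {a b a' b' u v : B} (huv : u * v = 1) (ha : a' = u ^ 4 * a)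
    (hb : b' = u ^ 6 * b), IsIso (WX.sc huv ha hb)) ∧
  (∀ {m : ℕ} {B : Type} [CommRing B] {u v : B} (huv : u * v = 1) (P P' : WD m B)
    (h : P.Sc u P') (i : Fin (m + 1)),
    (Wei P').σ i ≫ WX.sc huv h.a h.b = (Wei P).σ i) ∧
  (∀ {B B' : Type} [CommRing B] [CommRing B'] (φ : B →+* B') {a b a' b' u v : B}
    (huv : u * v = 1) (ha : a' = u ^ 4 * a) (hb : b' = u ^ 6 * b) {c d c' d' w s : B'}
    (hws : w * s = 1) (hc : c' = w ^ 4 * c) (hd : d' = w ^ 6 * d) (h1 : c = φ a) (h2 : d = φ b)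
    (h3 : c' = φ a') (h4 : d' = φ b') (_ : w = φ u),
    WX.sc hws hc hd ≫ WX.map φ h1 h2 = WX.map φ h3 h4 ≫ WX.sc huv ha hb)

/-- WPR: Weierstrass curves are proper, flat and of finite presentation. -/
def Stmt_WPR : Prop :=
  ∀ (B : Type) [CommRing B] (a b : B), IsProper (WX.pr B a b) ∧ Flat (WX.pr B a b) ∧
    LocallyOfFinitePresentation (WX.pr B a b)

/-- WRG: the cohomology of the Weierstrass curve from its charts: `A₁ = B[x] ⊕ B[x] y`,
`A₂/(z) = B`, `A₁₂ = (A₁ + A₂) ⊕ B z⁻¹`, `A₁ ∩ A₂ = B`; and `A₁ ∩ z⁻² A₂ = B ⊕ B x`,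
`A₁ ∩ z⁻³ A₂ = B ⊕ B x ⊕ B y`. -/
def Stmt_WRG : Prop :=
  ∀ (B : Type) [CommRing B] (a b : B),
    (∀ v : A1 B a b, ∃! pq : Polynomial B × Polynomial B,
      v = Polynomial.aeval (x1 B a b) pq.1 + Polynomial.aeval (x1 B a b) pq.2 * y1 B a b) ∧
    (∀ v : A2 B a b, v - algebraMap B _ (inf2 B a b v) ∈ Ideal.span {z2 B a b}) ∧
    Function.Injective (g2 B a b) ∧ Function.Injective (g1 B a b) ∧
    (∀ v : A12 B a b, ∃ (c : B) (v1 : A1 B a b) (v2 : A2 B a b),
      v = algebraMap B _ c * (zu B a b)⁻¹.val + g1 B a b v1 + g2 B a b v2) ∧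
    (∀ (c : B) (v1 : A1 B a b) (v2 : A2 B a b),
      algebraMap B _ c * (zu B a b)⁻¹.val + g1 B a b v1 + g2 B a b v2 = 0 →
        c = 0 ∧ ∃ d : B, v1 = algebraMap B _ d ∧ v2 = - algebraMap B _ d) ∧
    (∀ (v1 : A1 B a b) (v2 : A2 B a b), (zu B a b).val ^ 2 * g1 B a b v1 = g2 B a b v2 →
      ∃ c d : B, v1 = algebraMap B _ c + algebraMap B _ d * x1 B a b) ∧
    (∀ (v1 : A1 B a b) (v2 : A2 B a b), (zu B a b).val ^ 3 * g1 B a b v1 = g2 B a b v2 →
      ∃ c d e : B, v1 = algebraMap B _ c + algebraMap B _ d * x1 B a b +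
        algebraMap B _ e * y1 B a b)

/-- WDM: Weierstrass curves over fields are integral. -/
def Stmt_WDM : Prop :=
  ∀ (K : Type) [Field K] (a b : K), IsDomain (A1 K a b) ∧ IsDomain (A2 K a b) ∧
    ConnectedSpace (WX K a b)

/-- WND: Weierstrass curves without cusps are nodal. -/
def Stmt_WND : Prop :=
  ∀ (K : Type) [Field K] [IsAlgClosed K] (a b : K), (6 : K) ≠ 0 → (a ≠ 0 ∨ b ≠ 0) →
    Nodal (WX.pr K a b)

/-- WGN: the genus. -/
def Stmt_WGN : Prop := ∀ (K : Type) [Field K] (a b : K), HasGenus (WX.pr K a b) 1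

/-- WRI: rigidity. -/
def Stmt_WRI : Prop :=
  ∀ {m : ℕ} {K : Type} [Field K] (P : WD m K), (6 : K) ≠ 0 → (P.a ≠ 0 ∨ P.b ≠ 0) →
    ∀ (v : VField (Wei P)) (U), v.D U = 0

/-- WSM: smoothness. -/
def Stmt_WSM : Prop :=
  (∀ (K : Type) [Field K] (a b : K), (6 : K) ≠ 0 → 4 * a ^ 3 + 27 * b ^ 2 ≠ 0 →
    SmoothOfRelativeDimension 1 (WX.pr K a b)) ∧
  (∀ {m : ℕ} {K : Type} [Field K] (P : WD m K), (6 : K) ≠ 0 →
    (∀ s : Sp K, ∃ U : (Wei P).X.Opens, (Wei P).σ 0 s ∈ U ∧ Smooth (U.ι ≫ (Wei P).π)) ∧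
    ∀ i : Fin m, P.y i ≠ 0 → ∀ s : Sp K, ∃ U : (Wei P).X.Opens,
      (Wei P).σ i.succ s ∈ U ∧ Smooth (U.ι ≫ (Wei P).π))

/-- WFI: the geometric fibres of Weierstrass families without cusps are stable. -/
def Stmt_WFI : Prop :=
  ∀ {m : ℕ} {K : Type} [Field K] [IsAlgClosed K] (P : WD m K), (6 : K) ≠ 0 →
    (P.a ≠ 0 ∨ P.b ≠ 0) → (4 * P.a ^ 3 + 27 * P.b ^ 2 ≠ 0 ∨ ∀ i, P.y i ≠ 0) →
    (∀ i j, i ≠ j → P.x i ≠ P.x j ∨ P.y i ≠ P.y j) → StableCurve 1 (Wei P)

/-- WST: stable Weierstrass families. -/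
def Stmt_WST : Prop :=
  (∀ {m : ℕ} {B : Type} [CommRing B] (P : WD m B), P.Ok → IsStable 1 (Wei P)) ∧
  (∀ {m : ℕ} {K : Type} [Field K] (P : WD m K), (6 : K) ≠ 0 →
    4 * P.a ^ 3 + 27 * P.b ^ 2 ≠ 0 → (∀ i j, i ≠ j → P.x i ≠ P.x j ∨ P.y i ≠ P.y j) →
    IsStable 1 (Wei P))

/-! ## Deformations -/

/-- Ring data of a flat thickening over `E` of the Weierstrass curve over `B`. -/
structure WData {B E J : Type} [CommRing B] [CommRing E] [Fintype J] (S : SqE B E J)
    (a b : B) where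
  /-- functions on the affine chart -/
  G1 : Type
  /-- functions on the chart at infinity -/
  G2 : Type
  /-- functions on the intersection -/
  G12 : Type
  [c1 : CommRing G1]
  [c2 : CommRing G2]
  [c12 : CommRing G12]
  /-- structure map -/
  a1 : E →+* G1
  /-- structure map -/
  a2 : E →+* G2
  /-- structure map -/
  a12 : E →+* G12
  /-- restriction -/
  f1 : G1 →+* G12
  /-- restriction -/
  f2 : G2 →+* G12
  fa1 : ∀ z, f1 (a1 z) = a12 z
  fa2 : ∀ z, f2 (a2 z) = a12 z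
  /-- reduction -/
  q1 : G1 →+* A1 B a b
  /-- reduction -/
  q2 : G2 →+* A2 B a b
  /-- reduction -/
  q12 : G12 →+* A12 B a b
  qa1 : ∀ z, q1 (a1 z) = algebraMap B _ (S.p z)
  qa2 : ∀ z, q2 (a2 z) = algebraMap B _ (S.p z)
  qa12 : ∀ z, q12 (a12 z) = algebraMap B _ (S.p z)
  qf1 : ∀ v, q12 (f1 v) = g1 B a b (q1 v)
  qf2 : ∀ v, q12 (f2 v) = g2 B a b (q2 v)
  sur1 : Function.Surjective q1
  sur2 : Function.Surjective q2
  sur12 : Function.Surjective q12
  ker1 : ∀ v, q1 v = 0 → ∃ w : J → G1, v = ∑ j, a1 (S.ε j) * w j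
  ker2 : ∀ v, q2 v = 0 → ∃ w : J → G2, v = ∑ j, a2 (S.ε j) * w j
  ker12 : ∀ v, q12 v = 0 → ∃ w : J → G12, v = ∑ j, a12 (S.ε j) * w j
  un1 : ∀ w : J → G1, ∑ j, a1 (S.ε j) * w j = 0 → ∀ j, q1 (w j) = 0
  un2 : ∀ w : J → G2, ∑ j, a2 (S.ε j) * w j = 0 → ∀ j, q2 (w j) = 0
  un12 : ∀ w : J → G12, ∑ j, a12 (S.ε j) * w j = 0 → ∀ j, q12 (w j) = 0
  /-- the section at infinity -/
  inf : G2 →+* E
  infa : ∀ z, inf (a2 z) = z
  infq : ∀ v, S.p (inf v) = inf2 B a b (q2 v)

attribute [instance] WData.c1 WData.c2 WData.c12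

/-- WEA: ring data of thickenings of Weierstrass curves are Weierstrass curves. -/
def Stmt_WEA : Prop :=
  ∀ {B E J : Type} [CommRing B] [CommRing E] [Fintype J] (S : SqE B E J) (a b : B),
    IsUnit (6 : B) → ∀ D : WData S a b, ∃ (a' b' : E) (ha : a = S.p a') (hb : b = S.p b')
      (e1 : A1 E a' b' ≃+* D.G1) (e2 : A2 E a' b' ≃+* D.G2) (e12 : A12 E a' b' ≃+* D.G12),
      (∀ c, e1 (algebraMap E _ c) = D.a1 c) ∧ (∀ c, e2 (algebraMap E _ c) = D.a2 c) ∧
      (∀ v, D.f1 (e1 v) = e12 (g1 E a' b' v)) ∧ (∀ v, D.f2 (e2 v) = e12 (g2 E a' b' v)) ∧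
      (∀ v, D.q1 (e1 v) = bc1 S.p ha hb v) ∧ (∀ v, D.q2 (e2 v) = bc2 S.p ha hb v) ∧
      (∀ v, D.inf (e2 v) = inf2 E a' b' v)

/-- WE: every thickening of a Weierstrass family is a Weierstrass family. -/
def Stmt_WE : Prop :=
  ∀ {m : ℕ} {B E J : Type} [CommRing B] [CommRing E] [Fintype J] (S : SqE B E J) (P : WD m B),
    IsUnit (6 : B) → ∀ t : Thk S (Wei P), ∃ (P' : WD m E) (h : WD.Bc S.p P' P)
      (f : Arrow (RingHom.id E) t.y (Wei P')), t.r.f ≫ f.f = wmap S.p h

/-- WUA: isomorphic thickenings differ by a scaling, algebra. -/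
def Stmt_WUA : Prop :=
  ∀ {B E J : Type} [CommRing B] [CommRing E] [Fintype J] (S : SqE B E J) {a b : B}
    {a' b' a'' b'' : E} (ha : a = S.p a') (hb : b = S.p b') (ha' : a = S.p a'')
    (hb' : b = S.p b''), IsUnit (6 : B) → ∀ (h1 : A1 E a' b' →+* A1 E a'' b'')
    (h2 : A2 E a' b' →+* A2 E a'' b'') (h12 : A12 E a' b' →+* A12 E a'' b''),
    (∀ c, h1 (algebraMap E _ c) = algebraMap E _ c) →
    (∀ c, h2 (algebraMap E _ c) = algebraMap E _ c) →
    (∀ v, h12 (g1 E a' b' v) = g1 E a'' b'' (h1 v)) →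
    (∀ v, h12 (g2 E a' b' v) = g2 E a'' b'' (h2 v)) →
    (∀ v, bc1 S.p ha' hb' (h1 v) = bc1 S.p ha hb v) →
    (∀ v, bc2 S.p ha' hb' (h2 v) = bc2 S.p ha hb v) →
    (∀ v, inf2 E a'' b'' (h2 v) = inf2 E a' b' v) →
    ∃ u v : E, u * v = 1 ∧ S.p u = 1 ∧ a'' = u ^ 4 * a' ∧ b'' = u ^ 6 * b' ∧
      h1 (x1 E a' b') = algebraMap E _ v ^ 2 * x1 E a'' b'' ∧
      h1 (y1 E a' b') = algebraMap E _ v ^ 3 * y1 E a'' b''

/-- WU: isomorphic thickenings differ by a scaling. -/
def Stmt_WU : Prop :=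
  ∀ {m : ℕ} {B E J : Type} [CommRing B] [CommRing E] [Fintype J] (S : SqE B E J) (P : WD m B),
    IsUnit (6 : B) → ∀ (P' P'' : WD m E) (h' : WD.Bc S.p P' P) (h'' : WD.Bc S.p P'' P)
      (f : Arrow (RingHom.id E) (Wei P'') (Wei P')), wmap S.p h'' ≫ f.f = wmap S.p h' →
        ∃ u : E, S.p u = 1 ∧ P'.Sc u P''

/-! ## Weierstrass classes and covectors -/

section

variable {m : ℕ} {B : Type} [CommRing B] {P : WD m B}

/-- `(da, db, dx, dy)` is a Weierstrass class of the deformation `d`. -/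
def WCls (d : Defo 1 (Wei P)) (da db : B) (dx dy : Fin m → B) : Prop :=
  ∃ (P' : WD m (Eps B)) (h : WD.Bc (eps0 B) P' P), P'.a.snd = da ∧ P'.b.snd = db ∧
    (∀ i, (P'.x i).snd = dx i) ∧ (∀ i, (P'.y i).snd = dy i) ∧
    ∃ f : Arrow (RingHom.id (Eps B)) d.y (Wei P'), d.r.f ≫ f.f = wmap (eps0 B) h

variable (P) in
/-- Covector data: functionals which vanish on the infinitesimal scaling. -/
structure WCov where
  /-- the coefficient of `da` -/
  α : B
  /-- the coefficient of `db` -/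
  β : B
  /-- the coefficients of `dx i` -/
  γ : Fin m → B
  /-- the coefficients of `dy i` -/
  ρ : Fin m → B
  eul : 4 * P.a * α + 6 * P.b * β + ∑ i, (2 * P.x i * γ i + 3 * P.y i * ρ i) = 0

/-- `l` is the covector `α da + β db + ∑ (γ dx + ρ dy)`. -/
def IsWC (W : WCov P) (l : Cov 1 (Wei P)) : Prop :=
  ∀ (d : Defo 1 (Wei P)) (da db : B) (dx dy : Fin m → B), WCls d da db dx dy →
    l.l d = W.α * da + W.β * db + ∑ i, (W.γ i * dx i + W.ρ i * dy i)

end

/-- WCV: covector data give a covector, which is determined by them. -/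
def Stmt_WCV : Prop :=
  ∀ {m : ℕ} {B : Type} [CommRing B] (P : WD m B), IsUnit (6 : B) → ∀ W : WCov P,
    ∃ l : Cov 1 (Wei P), IsWC W l ∧ ∀ l' : Cov 1 (Wei P), IsWC W l' → l' = l

/-- WNA: base change and scaling of covectors. -/
def Stmt_WNA : Prop :=
  (∀ {m : ℕ} {B B' : Type} [CommRing B] [CommRing B'] (φ : B →+* B') (P : WD m B)
    (P' : WD m B') (h : WD.Bc φ P P') (W : WCov P) (W' : WCov P') (l : Cov 1 (Wei P))
    (l' : Cov 1 (Wei P')), IsUnit (6 : B) →
    W'.α = φ W.α → W'.β = φ W.β → (∀ i, W'.γ i = φ (W.γ i)) → (∀ i, W'.ρ i = φ (W.ρ i)) →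
    IsWC W l → IsWC W' l' →
    ∃ a : Arrow φ (Wei P') (Wei P), a.f = wmap φ h ∧ Compat a l' l) ∧
  (∀ {m : ℕ} {B : Type} [CommRing B] (u : B) (P P' : WD m B) (W : WCov P) (W' : WCov P')
    (l : Cov 1 (Wei P)) (l' : Cov 1 (Wei P')), IsUnit (6 : B) → IsUnit u → P.Sc u P' →
    u ^ 4 * W'.α = W.α → u ^ 6 * W'.β = W.β → (∀ i, u ^ 2 * W'.γ i = W.γ i) →
    (∀ i, u ^ 3 * W'.ρ i = W.ρ i) → IsWC W l → IsWC W' l' →
    ∃ a : Arrow (RingHom.id B) (Wei P') (Wei P), Compat a l' l)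

/-- W0: smooth pointed curves of genus one are Weierstrass curves. -/
def Stmt_W0 : Prop :=
  ∀ {m : ℕ} {k : Type} [Field k] [IsAlgClosed k] [CharZero k] (C : Fam (m + 1) k),
    IsStable 1 C → SmoothOfRelativeDimension 1 C.π →
    ∃ P : WD m k, 4 * P.a ^ 3 + 27 * P.b ^ 2 ≠ 0 ∧
      ∃ f : Arrow (RingHom.id k) C (Wei P), IsIso f.f

/-! ## The vector field -/

/-- `Φ` is the vector field `2 y d/dx = (3 x² + a) d/dy`. -/
def IsWF {k : Type} [Field k] {a b : k} (Φ : Flow (WX.pr k a b)) : Prop :=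
  ∃ h : A1 k a b →+* A1 (Eps k) (algebraMap k (Eps k) a) (algebraMap k (Eps k) b),
    (∀ c, h (algebraMap k _ c) = algebraMap (Eps k) _ (algebraMap k (Eps k) c)) ∧
    h (x1 k a b) = x1 _ _ _ + algebraMap (Eps k) _ (TrivSqZeroExt.inr 1) * (2 * y1 _ _ _) ∧
    h (y1 k a b) = y1 _ _ _ + algebraMap (Eps k) _ (TrivSqZeroExt.inr 1) *
      (3 * x1 _ _ _ ^ 2 + algebraMap (Eps k) _ (algebraMap k (Eps k) a)) ∧
    ∀ e : Sp (A1 (Eps k) (algebraMap k (Eps k) a) (algebraMap k (Eps k) b)) ⟶ XE (WX.pr k a b),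
      e ≫ pullback.fst _ _ = spMap (bc1 (algebraMap k (Eps k)) rfl rfl) ≫ WX.in1 k a b →
      e ≫ pullback.snd _ _ = spMap (algebraMap (Eps k) _) →
      e ≫ Φ.θ = spMap h ≫ WX.in1 k a b

/-- WFL: the vector field on a smooth Weierstrass curve vanishes nowhere. -/
def Stmt_WFL : Prop :=
  ∀ {k : Type} [Field k] (a b : k), (6 : k) ≠ 0 → 4 * a ^ 3 + 27 * b ^ 2 ≠ 0 →
    ∃ Φ : Flow (WX.pr k a b), IsWF Φ ∧ Φ.NV

/-- WMV: the value of a covector at the deformation which moves an affine point. -/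
def Stmt_WMV : Prop :=
  ∀ {m : ℕ} {k : Type} [Field k] (P : WD m k), (6 : k) ≠ 0 →
    ∀ (Φ : Flow (WX.pr k P.a P.b)), IsWF Φ → ∀ (W : WCov P) (l : Cov 1 (Wei P)), IsWC W l →
    ∀ (i : Fin m) (d : Defo 1 (Wei P)), IsMv (C := Wei P) Φ i.succ d →
      l.l d = W.γ i * (2 * P.y i) + W.ρ i * (3 * P.x i ^ 2 + P.a)

/-! ## Algebra for the end of the proof -/

/-- ROOT: adjoining square roots, with a retraction. -/
def Stmt_ROOT : Prop :=
  ∀ {k : Type} [Field k] (_ : (2 : k) ≠ 0) {R : Type} [CommRing R] [Algebra k R] {m : ℕ}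
    (f : Fin m → R), ∃ (R' : Type) (_ : CommRing R') (_ : Algebra k R') (ι : R →ₐ[k] R')
    (y : Fin m → R') (ρ : R' → R), (∀ i, y i ^ 2 = ι (f i)) ∧
    (∀ (ψ : R →ₐ[k] k) (y0 : Fin m → k), (∀ i, y0 i ^ 2 = ψ (f i)) →
      ∃ ψ' : R' →ₐ[k] k, ψ'.comp ι = ψ ∧ ∀ i, ψ' (y i) = y0 i) ∧
    ∀ (g : R') (ψ : R →ₐ[k] k) (c : k), (∀ ψ' : R' →ₐ[k] k, ψ'.comp ι = ψ → ψ' g = c) →
      (∃ y0 : Fin m → k, ∀ i, y0 i ^ 2 = ψ (f i)) → ψ (ρ g) = c

/-- The polynomial `h` in the variable `none`. -/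
noncomputable def hN {k : Type} [Field k] (m : ℕ) (h : Polynomial k) :
    MvPolynomial (Option (Fin m)) k :=
  Polynomial.aeval (MvPolynomial.X none) h

/-- DEN: functions with coprime denominators which agree on a dense set are polynomials. -/
def Stmt_DEN : Prop :=
  ∀ {k : Type} [Field k] [IsAlgClosed k] {m : ℕ} (h h' D : Polynomial k), IsCoprime h h' →
    h ≠ 0 → h' ≠ 0 → D ≠ 0 → ∀ (v : Localization.Away (hN m h)) (v' : Localization.Away (hN m h')),
    (∀ (ψ : Localization.Away (hN m h) →ₐ[k] k) (ψ' : Localization.Away (hN m h') →ₐ[k] k),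
      (∀ p : MvPolynomial (Option (Fin m)) k, ψ (algebraMap _ _ p) = ψ' (algebraMap _ _ p)) →
      D.eval (ψ (algebraMap (MvPolynomial (Option (Fin m)) k) _ (MvPolynomial.X none))) ≠ 0 → ψ v = ψ' v') →
    ∃ q : MvPolynomial (Option (Fin m)) k, v = algebraMap _ _ q ∧ v' = algebraMap _ _ q

/-- WTS: the weights. -/
def Stmt_WTS : Prop :=
  ∀ {k : Type} [Field k] [IsAlgClosed k] {m : ℕ} (q q' : MvPolynomial (Option (Fin m)) k)
    (D : Polynomial k), D ≠ 0 →
    (∀ (u : k) (ν : Fin m → k), u ≠ 0 → D.eval u ≠ 0 →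
      MvPolynomial.eval (fun o => o.elim (u⁻¹ ^ 6) ν) q =
        MvPolynomial.eval (fun o => o.elim (u ^ 4) (fun i => u * ν i)) q') →
    ∃ c : k, q = MvPolynomial.C c ∧ q' = MvPolynomial.C c

end Pool.Agent.MG.W


end

section

/-!
# WSC: scaling of Weierstrass families
-/

open CategoryTheory CategoryTheory.Limits AlgebraicGeometry TensorProduct

namespace Pool.Agent.MG.W

namespace WSC

section

variable {B : Type} [CommRing B] {a b a' b' u v : B}

theorem pow_cancel {R : Type} [CommRing R] {p q : R} (h : p * q = 1) (n : ℕ) (x : R) :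
    p ^ n * (q ^ n * x) = x := by
  rw [← mul_assoc, ← mul_pow, h, one_pow, one_mul]

theorem alg_mul {R : Type} [CommRing R] [Algebra B R] (huv : u * v = 1) :
    algebraMap B R u * algebraMap B R v = 1 := by
  rw [← map_mul, huv, map_one]

theorem sc1_sc1 (huv : u * v = 1) (ha : a' = u ^ 4 * a) (hb : b' = u ^ 6 * b)
    (hvu : v * u = 1) (ha' : a = v ^ 4 * a') (hb' : b = v ^ 6 * b') :
    (sc1 huv ha hb).comp (sc1 hvu ha' hb') = RingHom.id (A1 B a' b') := by
  refine hom1_ext ?_ ?_ ?_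
  · intro c
    rw [RingHom.comp_apply, sc1_b, sc1_b]
    rfl
  · rw [RingHom.comp_apply, sc1_x, map_mul, map_pow, sc1_b, sc1_x]
    exact pow_cancel (alg_mul huv) 2 _
  · rw [RingHom.comp_apply, sc1_y, map_mul, map_pow, sc1_b, sc1_y]
    exact pow_cancel (alg_mul huv) 3 _

theorem sc2_sc2 (huv : u * v = 1) (ha : a' = u ^ 4 * a) (hb : b' = u ^ 6 * b)
    (ha' : a = v ^ 4 * a') (hb' : b = v ^ 6 * b') :
    (sc2 ha hb).comp (sc2 ha' hb') = RingHom.id (A2 B a' b') := by
  refine hom2_ext ?_ ?_ ?_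
  · intro c
    rw [RingHom.comp_apply, sc2_b, sc2_b]
    rfl
  · rw [RingHom.comp_apply, sc2_z, map_mul, sc2_b, sc2_z, ← mul_assoc, mul_comm (algebraMap B _ v),
      alg_mul huv, one_mul]
    rfl
  · rw [RingHom.comp_apply, sc2_t, sc2_t]
    rfl

theorem spMap_id (A : Type) [CommRing A] : spMap (RingHom.id A) = 𝟙 (Sp A) :=
  Spec.map_id (CommRingCat.of A)

theorem sc_sc (huv : u * v = 1) (ha : a' = u ^ 4 * a) (hb : b' = u ^ 6 * b)
    (hvu : v * u = 1) (ha' : a = v ^ 4 * a') (hb' : b = v ^ 6 * b') :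
    WX.sc huv ha hb ≫ WX.sc hvu ha' hb' = 𝟙 (WX B a' b') := by
  refine WX.ext' ?_ ?_
  · rw [WX.in1_sc_assoc, WX.in1_sc, ← Category.assoc, spMap_comp', sc1_sc1, spMap_id,
      Category.id_comp, Category.comp_id]
  · rw [WX.in2_sc_assoc, WX.in2_sc, ← Category.assoc, spMap_comp', sc2_sc2 huv, spMap_id,
      Category.id_comp, Category.comp_id]

theorem inv_eq (huv : u * v = 1) {n : ℕ} {p q : B} (h : q = u ^ n * p) : p = v ^ n * q := by
  rw [h, ← mul_assoc, ← mul_pow, mul_comm v, huv, one_pow, one_mul]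

theorem isIso (huv : u * v = 1) (ha : a' = u ^ 4 * a) (hb : b' = u ^ 6 * b) :
    IsIso (WX.sc huv ha hb) := by
  have hvu : v * u = 1 := by rw [mul_comm, huv]
  exact ⟨WX.sc hvu (inv_eq huv ha) (inv_eq huv hb), sc_sc _ _ _ _ _ _, sc_sc _ _ _ _ _ _⟩

end

theorem sec {m : ℕ} {B : Type} [CommRing B] {u v : B} (huv : u * v = 1) (P P' : WD m B)
    (h : P.Sc u P') (i : Fin (m + 1)) :
    (Wei P').σ i ≫ WX.sc huv h.a h.b = (Wei P).σ i := by
  refine Fin.cases ?_ (fun i => ?_) i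
  · change (spMap (inf2 B P'.a P'.b) ≫ WX.in2 B P'.a P'.b) ≫ WX.sc huv h.a h.b =
      spMap (inf2 B P.a P.b) ≫ WX.in2 B P.a P.b
    rw [Category.assoc, WX.in2_sc, ← Category.assoc, spMap_comp']
    congr 2
    refine hom2_ext ?_ ?_ ?_
    · intro c
      rw [RingHom.comp_apply, sc2_b, inf2, lift2_b, inf2, lift2_b]
    · rw [RingHom.comp_apply, sc2_z, map_mul, inf2, lift2_z, inf2, lift2_z, mul_zero]
    · rw [RingHom.comp_apply, sc2_t, inf2, lift2_t, inf2, lift2_t]
  · change (spMap (pt1 P' i) ≫ WX.in1 B P'.a P'.b) ≫ WX.sc huv h.a h.b =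
      spMap (pt1 P i) ≫ WX.in1 B P.a P.b
    rw [Category.assoc, WX.in1_sc, ← Category.assoc, spMap_comp']
    have hvu : v * u = 1 := by rw [mul_comm, huv]
    congr 2
    refine hom1_ext ?_ ?_ ?_
    · intro c
      rw [RingHom.comp_apply, sc1_b, pt1, lift1_b, pt1, lift1_b]
    · rw [RingHom.comp_apply, sc1_x, map_mul, map_pow, pt1, lift1_b, lift1_x, pt1, lift1_x, h.x]
      exact pow_cancel hvu 2 _
    · rw [RingHom.comp_apply, sc1_y, map_mul, map_pow, pt1, lift1_b, lift1_y, pt1, lift1_y, h.y]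
      exact pow_cancel hvu 3 _

theorem base {B B' : Type} [CommRing B] [CommRing B'] (φ : B →+* B') {a b a' b' u v : B}
    (huv : u * v = 1) (ha : a' = u ^ 4 * a) (hb : b' = u ^ 6 * b) {c d c' d' w s : B'}
    (hws : w * s = 1) (hc : c' = w ^ 4 * c) (hd : d' = w ^ 6 * d) (h1 : c = φ a) (h2 : d = φ b)
    (h3 : c' = φ a') (h4 : d' = φ b') (hw : w = φ u) :
    WX.sc hws hc hd ≫ WX.map φ h1 h2 = WX.map φ h3 h4 ≫ WX.sc huv ha hb := by
  have hs : φ v = s := by
    have h5 : w * φ v = 1 := by rw [hw, ← map_mul, huv, map_one]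
    calc φ v = (w * s) * φ v := by rw [hws, one_mul]
      _ = s * (w * φ v) := by ring
      _ = s := by rw [h5, mul_one]
  refine WX.ext' ?_ ?_
  · rw [WX.in1_sc_assoc, WX.in1_map, WX.in1_map_assoc, WX.in1_sc, ← Category.assoc,
      ← Category.assoc, spMap_comp', spMap_comp']
    congr 2
    refine hom1_ext ?_ ?_ ?_
    · intro c
      rw [RingHom.comp_apply, RingHom.comp_apply, bc1_b, sc1_b, sc1_b, bc1_b]
    · rw [RingHom.comp_apply, RingHom.comp_apply, bc1_x, sc1_x, sc1_x, map_mul, map_pow, bc1_b,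
        bc1_x, hs]
    · rw [RingHom.comp_apply, RingHom.comp_apply, bc1_y, sc1_y, sc1_y, map_mul, map_pow, bc1_b,
        bc1_y, hs]
  · rw [WX.in2_sc_assoc, WX.in2_map, WX.in2_map_assoc, WX.in2_sc, ← Category.assoc,
      ← Category.assoc, spMap_comp', spMap_comp']
    congr 2
    refine hom2_ext ?_ ?_ ?_
    · intro c
      rw [RingHom.comp_apply, RingHom.comp_apply, bc2_b, sc2_b, sc2_b, bc2_b]
    · rw [RingHom.comp_apply, RingHom.comp_apply, bc2_z, sc2_z, sc2_z, map_mul, bc2_b,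
        bc2_z, hw]
    · rw [RingHom.comp_apply, RingHom.comp_apply, bc2_t, sc2_t, sc2_t, bc2_t]

end WSC

theorem t_WSC : Stmt_WSC :=
  ⟨fun huv ha hb => WSC.isIso huv ha hb, fun huv P P' h i => WSC.sec huv P P' h i,
    fun φ _ _ _ _ _ _ huv ha hb _ _ _ _ _ _ hws hc hd h1 h2 h3 h4 hw =>
      WSC.base φ huv ha hb hws hc hd h1 h2 h3 h4 hw⟩

end Pool.Agent.MG.W


end

section

/-!
# Weierstrass curves over fields are integral (module WDM)
-/

open CategoryTheory CategoryTheory.Limits AlgebraicGeometry TensorProduct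

namespace Pool.Agent.MG.W.WDM

section

variable (K : Type) [Field K] (a b : K)

/-- the Weierstrass curve of Mathlib -/
def wc : WeierstrassCurve.Affine K := ⟨0, 0, 0, a, b⟩

/-- the coordinate ring of Mathlib -/
abbrev CR : Type := (wc K a b).CoordinateRing

noncomputable def cx : CR K a b := AdjoinRoot.of _ Polynomial.X

noncomputable def cy : CR K a b := AdjoinRoot.root _

noncomputable def cc : K →+* CR K a b := (AdjoinRoot.of (wc K a b).polynomial).comp Polynomial.C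

theorem crel : cy K a b ^ 2 = cx K a b ^ 3 + cc K a b a * cx K a b + cc K a b b := by
  have h : AdjoinRoot.mk (wc K a b).polynomial (wc K a b).polynomial = 0 := AdjoinRoot.mk_self
  have e : (wc K a b).polynomial = Polynomial.X ^ 2 + Polynomial.C (Polynomial.C 0 * Polynomial.X +
    Polynomial.C 0) * Polynomial.X - Polynomial.C (Polynomial.X ^ 3 + Polynomial.C 0 *
    Polynomial.X ^ 2 + Polynomial.C a * Polynomial.X + Polynomial.C b) := rfl
  have h2 : AdjoinRoot.mk (wc K a b).polynomial (Polynomial.X ^ 2 + Polynomial.C (Polynomial.C 0 *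
    Polynomial.X + Polynomial.C 0) * Polynomial.X - Polynomial.C (Polynomial.X ^ 3 +
    Polynomial.C 0 * Polynomial.X ^ 2 + Polynomial.C a * Polynomial.X + Polynomial.C b)) = 0 := by
    rw [← e]
    exact h
  simp only [map_zero, zero_mul, add_zero, map_sub, map_add, map_mul, map_pow] at h2
  have h3 : cy K a b ^ 2 - (cx K a b ^ 3 + cc K a b a * cx K a b + cc K a b b) = 0 := h2
  linear_combination h3

/-- to the coordinate ring of Mathlib -/
noncomputable def toC : A1 K a b →+* CR K a b :=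
  lift1 (cc K a b) (cx K a b) (cy K a b) (crel K a b)

theorem back_rel : Polynomial.eval₂ (Polynomial.eval₂RingHom (algebraMap K (A1 K a b)) (x1 K a b))
    (y1 K a b) (wc K a b).polynomial = 0 := by
  have e : (wc K a b).polynomial = Polynomial.X ^ 2 + Polynomial.C (Polynomial.C 0 * Polynomial.X +
    Polynomial.C 0) * Polynomial.X - Polynomial.C (Polynomial.X ^ 3 + Polynomial.C 0 *
    Polynomial.X ^ 2 + Polynomial.C a * Polynomial.X + Polynomial.C b) := rfl
  rw [e]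
  have h := rel1 K a b
  simp only [map_zero, zero_mul, add_zero, Polynomial.eval₂_sub, Polynomial.eval₂_pow,
    Polynomial.eval₂_X, Polynomial.eval₂_C, Polynomial.coe_eval₂RingHom, Polynomial.eval₂_add,
    Polynomial.eval₂_mul]
  linear_combination h

/-- from the coordinate ring of Mathlib -/
noncomputable def back : CR K a b →+* A1 K a b :=
  AdjoinRoot.lift (Polynomial.eval₂RingHom (algebraMap K (A1 K a b)) (x1 K a b)) (y1 K a b)
    (back_rel K a b)

theorem back_to : (back K a b).comp (toC K a b) = RingHom.id _ := by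
  refine hom1_ext ?_ ?_ ?_
  · intro c
    change back K a b (toC K a b (algebraMap K _ c)) = _
    rw [toC, lift1_b]
    change back K a b (AdjoinRoot.of _ (Polynomial.C c)) = _
    rw [back, AdjoinRoot.lift_of]
    simp
  · change back K a b (toC K a b (x1 K a b)) = _
    rw [toC, lift1_x]
    change back K a b (AdjoinRoot.of _ Polynomial.X) = _
    rw [back, AdjoinRoot.lift_of]
    simp
  · change back K a b (toC K a b (y1 K a b)) = _
    rw [toC, lift1_y]
    change back K a b (AdjoinRoot.root _) = _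
    rw [back, AdjoinRoot.lift_root]
    simp

theorem to_inj : Function.Injective (toC K a b) := by
  intro u v h
  have h1 := congrArg (back K a b) h
  have h2 : ∀ w, back K a b (toC K a b w) = w := fun w => RingHom.congr_fun (back_to K a b) w
  rwa [h2, h2] at h1

theorem dom1 : IsDomain (A1 K a b) :=
  (to_inj K a b).isDomain

theorem x1_ne : x1 K a b ≠ 0 := by
  intro h
  have h1 : toC K a b (x1 K a b) = 0 := by rw [h, map_zero]
  rw [toC, lift1_x] at h1
  have h2 : (Polynomial.X : Polynomial K) • (1 : CR K a b) +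
      (0 : Polynomial K) • WeierstrassCurve.Affine.CoordinateRing.mk (wc K a b) Polynomial.X = 0 := by
    rw [zero_smul, add_zero, Algebra.smul_def, mul_one]
    exact h1
  exact Polynomial.X_ne_zero (WeierstrassCurve.Affine.CoordinateRing.smul_basis_eq_zero h2).1

theorem y1_ne : y1 K a b ≠ 0 := by
  intro h
  have h1 : toC K a b (y1 K a b) = 0 := by rw [h, map_zero]
  rw [toC, lift1_y] at h1
  have h2 : (0 : Polynomial K) • (1 : CR K a b) +
      (1 : Polynomial K) • WeierstrassCurve.Affine.CoordinateRing.mk (wc K a b) Polynomial.X = 0 := by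
    rw [zero_smul, zero_add, one_smul]
    exact h1
  exact one_ne_zero (WeierstrassCurve.Affine.CoordinateRing.smul_basis_eq_zero h2).2

theorem dom12 : IsDomain (A12 K a b) := by
  have := dom1 K a b
  have h : IsDomain (L1 K a b) := by
    refine IsLocalization.isDomain_localization ?_
    exact powers_le_nonZeroDivisors_of_noZeroDivisors (mul_ne_zero (x1_ne K a b) (y1_ne K a b))
  exact (cmpEquiv K a b).symm.injective.isDomain (cmpEquiv K a b).symm.toRingHom

/-- `z` is not a zero divisor. -/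
theorem z2_reg (v : A2 K a b) (h : z2 K a b * v = 0) : v = 0 := by
  obtain ⟨p, rfl⟩ := Ideal.Quotient.mk_surjective v
  have h1 : Ideal.Quotient.mk (Ideal.span {eq2 K a b}) (MvPolynomial.X 0 * p) = 0 := by
    rw [map_mul]
    exact h
  rw [Ideal.Quotient.eq_zero_iff_mem, Ideal.mem_span_singleton] at h1 ⊢
  obtain ⟨q, hq⟩ := h1
  have hd : (MvPolynomial.X 0 : MvPolynomial (Fin 2) K) ∣ eq2 K a b * q := ⟨p, hq.symm⟩
  rcases (MvPolynomial.X_prime (R := K) (i := (0 : Fin 2))).dvd_or_dvd hd with h2 | ⟨r, hr⟩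
  · exfalso
    obtain ⟨s, hs⟩ := h2
    have h3 := congrArg (MvPolynomial.eval ![(0 : K), 0]) hs
    simp [eq2] at h3
  · refine ⟨r, ?_⟩
    have h4 : (MvPolynomial.X 0 : MvPolynomial (Fin 2) K) * p = MvPolynomial.X 0 * (eq2 K a b * r) := by
      rw [hq, hr]
      ring
    exact mul_left_cancel₀ (MvPolynomial.X_ne_zero 0) h4

theorem g2_inj : Function.Injective (g2 K a b) := by
  refine IsLocalization.injective (A12 K a b) (M := Submonoid.powers (z2 K a b)) ?_
  rw [Submonoid.powers_le]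
  refine mem_nonZeroDivisors_iff_right.2 ?_
  intro v hv
  exact z2_reg K a b v (by rw [mul_comm]; exact hv)

theorem dom2 : IsDomain (A2 K a b) := by
  have := dom12 K a b
  exact (g2_inj K a b).isDomain (g2 K a b)

theorem pre {A : Type} [CommRing A] [IsDomain A] {X : Scheme.{0}} (f : Sp A ⟶ X) :
    _root_.IsPreconnected (Set.range f) := by
  have h1 : _root_.IsPreconnected (Set.univ : Set (Sp A)) := by
    have : IrreducibleSpace (PrimeSpectrum A) := inferInstance
    have h2 : PreconnectedSpace (PrimeSpectrum A) := inferInstance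
    exact h2.isPreconnected_univ
  rw [← Set.image_univ]
  exact h1.image _ f.continuous.continuousOn

theorem conn : ConnectedSpace (WX K a b) := by
  have := dom1 K a b
  have := dom2 K a b
  have := dom12 K a b
  have w : Sp (A12 K a b) := (⊥ : PrimeSpectrum (A12 K a b))
  have hU : Set.range (WX.in1 K a b) ∪ Set.range (WX.in2 K a b) = Set.univ := by
    rw [Set.eq_univ_iff_forall]
    intro x
    exact glue2_surj (spMap (g1 K a b)) (spMap (g2 K a b)) x
  have hcond : spMap (g1 K a b) ≫ WX.in1 K a b = spMap (g2 K a b) ≫ WX.in2 K a b :=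
    pushout.condition
  have hI : (Set.range (WX.in1 K a b) ∩ Set.range (WX.in2 K a b)).Nonempty := by
    refine ⟨(spMap (g1 K a b) ≫ WX.in1 K a b) w, ⟨spMap (g1 K a b) w, ?_⟩,
      ⟨spMap (g2 K a b) w, ?_⟩⟩
    · rw [Scheme.Hom.comp_apply]
    · rw [hcond, Scheme.Hom.comp_apply]
  have hp : _root_.IsPreconnected (Set.univ : Set (WX K a b)) := by
    rw [← hU]
    exact _root_.IsPreconnected.union' hI (pre _) (pre _)
  have : PreconnectedSpace (WX K a b) := ⟨hp⟩
  exact ⟨⟨WX.in1 K a b (spMap (g1 K a b) w)⟩⟩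

end

end Pool.Agent.MG.W.WDM

namespace Pool.Agent.MG.W

theorem t_WDM : Stmt_WDM := fun K _ a b => ⟨WDM.dom1 K a b, WDM.dom2 K a b, WDM.conn K a b⟩

end Pool.Agent.MG.W


end

section

/-!
# WFI: the geometric fibres of Weierstrass families without cusps are stable
-/

open CategoryTheory CategoryTheory.Limits AlgebraicGeometry TensorProduct

namespace Pool.Agent.MG.W

namespace WFI

variable {m : ℕ} {K : Type} [Field K] (P : WD m K)

theorem sig0 : (Wei P).σ 0 = spMap (inf2 K P.a P.b) ≫ WX.in2 K P.a P.b := rfl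

theorem sigS (i : Fin m) : (Wei P).σ i.succ = spMap (pt1 P i) ≫ WX.in1 K P.a P.b := rfl

theorem spMap_inj' {A B : Type} [CommRing A] [CommRing B] {φ ψ : A →+* B}
    (h : spMap φ = spMap ψ) : φ = ψ := by
  have h1 := Spec.map_injective h
  exact RingHom.ext fun a => congrArg (fun t => t.hom a) h1

/-- The section at infinity is not an affine point. -/
theorem inf_ne (i : Fin m) : (Wei P).σ 0 ≠ (Wei P).σ i.succ := by
  intro h0
  have h : spMap (inf2 K P.a P.b) ≫ WX.in2 K P.a P.b = spMap (pt1 P i) ≫ WX.in1 K P.a P.b := h0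
  let s : Sp K := (PrimeSpectrum.comap (RingHom.id K)) ⊥
  have h1 : WX.in1 K P.a P.b (spMap (pt1 P i) s) = WX.in2 K P.a P.b (spMap (inf2 K P.a P.b) s) := by
    rw [← Scheme.Hom.comp_apply, ← Scheme.Hom.comp_apply, h]
  obtain ⟨w, -, hw⟩ := glue2_eq (spMap (g1 K P.a P.b)) (spMap (g2 K P.a P.b)) _ _ h1
  have hu : IsUnit (g2 K P.a P.b (z2 K P.a P.b)) := (zu K P.a P.b).isUnit
  have hz : z2 K P.a P.b ∈ (spMap (inf2 K P.a P.b) s).asIdeal := by
    change inf2 K P.a P.b (z2 K P.a P.b) ∈ s.asIdeal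
    have h2 : inf2 K P.a P.b (z2 K P.a P.b) = 0 := lift2_z _ _ _ _
    rw [h2]
    exact s.asIdeal.zero_mem
  rw [← hw] at hz
  exact w.2.ne_top (Ideal.eq_top_of_isUnit_mem _ hz hu)

/-- Affine points with different coordinates are different. -/
theorem aff_ne (i j : Fin m) (h : P.x i ≠ P.x j ∨ P.y i ≠ P.y j) :
    (Wei P).σ i.succ ≠ (Wei P).σ j.succ := by
  intro he
  have he' : spMap (pt1 P i) ≫ WX.in1 K P.a P.b = spMap (pt1 P j) ≫ WX.in1 K P.a P.b := he
  have h1 := spMap_inj' ((cancel_mono (WX.in1 K P.a P.b)).1 he')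
  rcases h with h | h
  · apply h
    have h2 := congrArg (fun t => t (x1 K P.a P.b)) h1
    have e1 : pt1 P i (x1 K P.a P.b) = P.x i := lift1_x _ _ _ _
    have e2 : pt1 P j (x1 K P.a P.b) = P.x j := lift1_x _ _ _ _
    rw [← e1, ← e2]
    exact h2
  · apply h
    have h2 := congrArg (fun t => t (y1 K P.a P.b)) h1
    have e1 : pt1 P i (y1 K P.a P.b) = P.y i := lift1_y _ _ _ _
    have e2 : pt1 P j (y1 K P.a P.b) = P.y j := lift1_y _ _ _ _
    rw [← e1, ← e2]
    exact h2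

end WFI

open _root_.Pool.Agent.MG.W.WFI in
/-- WFI. -/
theorem t_WFI (hWDM : Stmt_WDM) (hWND : Stmt_WND) (hWGN : Stmt_WGN) (hWRI : Stmt_WRI)
    (hWSM : Stmt_WSM) : Stmt_WFI := by
  intro m K _ _ P h6 hab hsm hne
  refine ⟨(hWDM K P.a P.b).2.2, hWND K P.a P.b h6 hab, hWGN K P.a P.b, ?_, ?_,
    hWRI P h6 hab⟩
  · intro i j
    refine Fin.cases ?_ (fun i => ?_) i
    · refine Fin.cases ?_ (fun j => ?_) j
      · intro h
        exact absurd rfl h
      · intro _
        exact inf_ne P j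
    · refine Fin.cases ?_ (fun j => ?_) j
      · intro _
        exact (inf_ne P i).symm
      · intro h
        exact aff_ne P i j (hne i j (fun he => h (by rw [he])))
  · intro i
    refine Fin.cases ?_ (fun i => ?_) i
    · exact (hWSM.2 P h6).1
    · rcases hsm with hd | hy
      · intro s
        have h1 : SmoothOfRelativeDimension 1 (Wei P).π := hWSM.1 K P.a P.b h6 hd
        have h2 : Smooth (Wei P).π := SmoothOfRelativeDimension.smooth 1 (Wei P).π
        exact ⟨⊤, trivial, inferInstance⟩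
      · exact (hWSM.2 P h6).2 i (hy i)

end Pool.Agent.MG.W


end

section

/-!
# Isomorphic thickenings of Weierstrass families differ by a scaling: the scheme side
-/

open CategoryTheory CategoryTheory.Limits AlgebraicGeometry TensorProduct

namespace Pool.Agent.MG.W

namespace WUS

theorem surj_of_sec {R A : Type} [CommRing R] [CommRing A] (f : R →+* A)
    (g : A →+* R ⧸ nilradical R) (h : g.comp f = Ideal.Quotient.mk _) :
    Function.Surjective (spMap f) := by
  have h1 : Function.Surjective (PrimeSpectrum.comap (Ideal.Quotient.mk (nilradical R))) := by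
    rw [← Set.range_eq_univ, range_comap_of_surjective _ _ Ideal.Quotient.mk_surjective,
      PrimeSpectrum.zeroLocus_eq_univ_iff]
    intro a ha
    rw [Ideal.mk_ker] at ha
    exact ha
  intro q
  obtain ⟨r, hr⟩ := h1 q
  refine ⟨PrimeSpectrum.comap g r, ?_⟩
  change PrimeSpectrum.comap f (PrimeSpectrum.comap g r) = q
  rw [← PrimeSpectrum.comap_comp_apply, h, hr]

theorem spMap_inj {A B : Type} [CommRing A] [CommRing B] {f g : A →+* B}
    (h : spMap f = spMap g) : f = g :=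
  congrArg CommRingCat.Hom.hom (Spec.map_injective h)

theorem spMap_full {A B : Type} [CommRing A] [CommRing B] (l : Sp B ⟶ Sp A) :
    ∃ h : A →+* B, spMap h = l :=
  ⟨(Spec.preimage l).hom, Spec.map_preimage l⟩

section

variable {B E J : Type} [CommRing B] [CommRing E] [Fintype J] (S : SqE B E J)

theorem mk_alg {A : Type} [CommRing A] [Algebra E A] {c c' : E} (h : S.p c = S.p c') :
    Ideal.Quotient.mk (nilradical A) (algebraMap E A c) =
      Ideal.Quotient.mk (nilradical A) (algebraMap E A c') := by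
  rw [Ideal.Quotient.eq, ← map_sub]
  exact mem_nilradical.2 ((S.isNilpotent_of_p_eq_zero (by rw [map_sub, h, sub_self])).map
    (algebraMap E A))

variable {a b : B} {a' b' a'' b'' : E}

theorem bc1_surj (ha : a = S.p a') (hb : b = S.p b') :
    Function.Surjective (spMap (bc1 S.p ha hb)) := by
  have hsa : S.p (S.i a) = S.p a' := by rw [S.pi, ha]
  have hsb : S.p (S.i b) = S.p b' := by rw [S.pi, hb]
  refine surj_of_sec _ (lift1 ((Ideal.Quotient.mk (nilradical (A1 E a' b'))).comp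
    ((algebraMap E (A1 E a' b')).comp S.i)) (Ideal.Quotient.mk _ (x1 E a' b'))
    (Ideal.Quotient.mk _ (y1 E a' b')) ?_) ?_
  · simp only [RingHom.comp_apply]
    rw [mk_alg S hsa, mk_alg S hsb, ← map_pow, ← map_pow, ← map_mul, ← map_add, ← map_add, rel1]
  · refine hom1_ext ?_ ?_ ?_
    · intro c
      rw [RingHom.comp_apply, bc1_b, lift1_b]
      simp only [RingHom.comp_apply]
      exact mk_alg S (by rw [S.pi])
    · rw [RingHom.comp_apply, bc1_x, lift1_x]
    · rw [RingHom.comp_apply, bc1_y, lift1_y]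

theorem bc2_surj (ha : a = S.p a') (hb : b = S.p b') :
    Function.Surjective (spMap (bc2 S.p ha hb)) := by
  have hsa : S.p (S.i a) = S.p a' := by rw [S.pi, ha]
  have hsb : S.p (S.i b) = S.p b' := by rw [S.pi, hb]
  refine surj_of_sec _ (lift2 ((Ideal.Quotient.mk (nilradical (A2 E a' b'))).comp
    ((algebraMap E (A2 E a' b')).comp S.i)) (Ideal.Quotient.mk _ (z2 E a' b'))
    (Ideal.Quotient.mk _ (t2 E a' b')) ?_) ?_
  · simp only [RingHom.comp_apply]
    rw [mk_alg S hsa, mk_alg S hsb]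
    have h := congrArg (Ideal.Quotient.mk (nilradical (A2 E a' b'))) (rel2 E a' b')
    simpa only [map_add, map_mul, map_pow, map_one] using h
  · refine hom2_ext ?_ ?_ ?_
    · intro c
      rw [RingHom.comp_apply, bc2_b, lift2_b]
      simp only [RingHom.comp_apply]
      exact mk_alg S (by rw [S.pi])
    · rw [RingHom.comp_apply, bc2_z, lift2_z]
    · rw [RingHom.comp_apply, bc2_t, lift2_t]

variable {S} {ha' : a = S.p a'} {hb' : b = S.p b'} {ha'' : a = S.p a''} {hb'' : b = S.p b''}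
  {f : WX E a'' b'' ⟶ WX E a' b'}

theorem comp1 (hf : WX.map S.p ha'' hb'' ≫ f = WX.map S.p ha' hb') :
    spMap (bc1 S.p ha'' hb'') ≫ WX.in1 E a'' b'' ≫ f =
      spMap (bc1 S.p ha' hb') ≫ WX.in1 E a' b' := by
  rw [← WX.in1_map_assoc, hf, WX.in1_map]

theorem comp2 (hf : WX.map S.p ha'' hb'' ≫ f = WX.map S.p ha' hb') :
    spMap (bc2 S.p ha'' hb'') ≫ WX.in2 E a'' b'' ≫ f =
      spMap (bc2 S.p ha' hb') ≫ WX.in2 E a' b' := by
  rw [← WX.in2_map_assoc, hf, WX.in2_map]

theorem range1 (hf : WX.map S.p ha'' hb'' ≫ f = WX.map S.p ha' hb') :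
    Set.range (WX.in1 E a'' b'' ≫ f) ⊆ Set.range (WX.in1 E a' b') := by
  rintro _ ⟨q, rfl⟩
  obtain ⟨r, rfl⟩ := bc1_surj S ha'' hb'' q
  refine ⟨spMap (bc1 S.p ha' hb') r, ?_⟩
  rw [← Scheme.Hom.comp_apply, ← Scheme.Hom.comp_apply, comp1 hf]

theorem range2 (hf : WX.map S.p ha'' hb'' ≫ f = WX.map S.p ha' hb') :
    Set.range (WX.in2 E a'' b'' ≫ f) ⊆ Set.range (WX.in2 E a' b') := by
  rintro _ ⟨q, rfl⟩
  obtain ⟨r, rfl⟩ := bc2_surj S ha'' hb'' q
  refine ⟨spMap (bc2 S.p ha' hb') r, ?_⟩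
  rw [← Scheme.Hom.comp_apply, ← Scheme.Hom.comp_apply, comp2 hf]

/-- The inclusion of the intersection of the charts. -/
theorem in12 (B : Type) [CommRing B] (a b : B) :
    spMap (g1 B a b) ≫ WX.in1 B a b = spMap (g2 B a b) ≫ WX.in2 B a b := pushout.condition

theorem range12 (hf : WX.map S.p ha'' hb'' ≫ f = WX.map S.p ha' hb') :
    Set.range ((spMap (g1 E a'' b'') ≫ WX.in1 E a'' b'') ≫ f) ⊆
      Set.range (spMap (g1 E a' b') ≫ WX.in1 E a' b') := by
  rintro _ ⟨q, rfl⟩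
  have h1 : ((spMap (g1 E a'' b'') ≫ WX.in1 E a'' b'') ≫ f) q ∈ Set.range (WX.in1 E a' b') := by
    apply range1 hf
    rw [Category.assoc]
    exact ⟨spMap (g1 E a'' b'') q, (Scheme.Hom.comp_apply _ _ _).symm⟩
  have h2 : ((spMap (g1 E a'' b'') ≫ WX.in1 E a'' b'') ≫ f) q ∈ Set.range (WX.in2 E a' b') := by
    apply range2 hf
    rw [in12, Category.assoc]
    exact ⟨spMap (g2 E a'' b'') q, (Scheme.Hom.comp_apply _ _ _).symm⟩
  have h3 : ((spMap (g1 E a'' b'') ≫ WX.in1 E a'' b'') ≫ f) q ∈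
      ((WX.in1 E a' b').opensRange ⊓ (WX.in2 E a' b').opensRange : (WX E a' b').Opens) :=
    ⟨h1, h2⟩
  have h4 : (WX.in1 E a' b').opensRange ⊓ (WX.in2 E a' b').opensRange =
      (spMap (g1 E a' b') ≫ WX.in1 E a' b').opensRange :=
    glue2_inter (spMap (g1 E a' b')) (spMap (g2 E a' b'))
  rw [h4] at h3
  exact h3

end

end WUS

open _root_.Pool.Agent.MG.W.WUS in
/-- WU: isomorphic thickenings differ by a scaling. -/
theorem t_WU (hWUA : Stmt_WUA) : Stmt_WU := by
  intro m B E J _ _ _ S P h6 P' P'' h' h'' f hf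
  have hf' : WX.map S.p h''.a h''.b ≫ f.f = WX.map S.p h'.a h'.b := hf
  obtain ⟨g, cart, sec⟩ := f
  change WX E P''.a P''.b ⟶ WX E P'.a P'.b at g
  change WX.map S.p h''.a h''.b ≫ g = WX.map S.p h'.a h'.b at hf'
  obtain ⟨h1, e1⟩ := spMap_full (IsOpenImmersion.lift (WX.in1 E P'.a P'.b)
    (WX.in1 E P''.a P''.b ≫ g) (range1 hf'))
  obtain ⟨h2, e2⟩ := spMap_full (IsOpenImmersion.lift (WX.in2 E P'.a P'.b)
    (WX.in2 E P''.a P''.b ≫ g) (range2 hf'))
  obtain ⟨h12, e12⟩ := spMap_full (IsOpenImmersion.lift (spMap (g1 E P'.a P'.b) ≫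
    WX.in1 E P'.a P'.b) ((spMap (g1 E P''.a P''.b) ≫ WX.in1 E P''.a P''.b) ≫ g) (range12 hf'))
  have f1 : spMap h1 ≫ WX.in1 E P'.a P'.b = WX.in1 E P''.a P''.b ≫ g := by
    rw [e1, IsOpenImmersion.lift_fac]
  have f2 : spMap h2 ≫ WX.in2 E P'.a P'.b = WX.in2 E P''.a P''.b ≫ g := by
    rw [e2, IsOpenImmersion.lift_fac]
  have f12 : spMap h12 ≫ spMap (g1 E P'.a P'.b) ≫ WX.in1 E P'.a P'.b =
      spMap (g1 E P''.a P''.b) ≫ WX.in1 E P''.a P''.b ≫ g := by
    rw [e12, IsOpenImmersion.lift_fac, Category.assoc]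
  have hpr : g ≫ WX.pr E P'.a P'.b = WX.pr E P''.a P''.b := by
    have h := cart.w
    change g ≫ WX.pr E P'.a P'.b = WX.pr E P''.a P''.b ≫ spMap (RingHom.id E) at h
    rw [h]
    have h0 : spMap (RingHom.id E) = 𝟙 (Sp E) := Spec.map_id _
    rw [h0, Category.comp_id]
  have k1 : h1.comp (algebraMap E _) = algebraMap E _ := by
    apply spMap_inj
    rw [← spMap_comp', ← WX.in1_pr, ← Category.assoc, f1, Category.assoc, hpr, WX.in1_pr]
  have k2 : h2.comp (algebraMap E _) = algebraMap E _ := by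
    apply spMap_inj
    rw [← spMap_comp', ← WX.in2_pr, ← Category.assoc, f2, Category.assoc, hpr, WX.in2_pr]
  have k3 : h12.comp (g1 E P'.a P'.b) = (g1 E P''.a P''.b).comp h1 := by
    apply spMap_inj
    rw [← spMap_comp', ← spMap_comp', ← cancel_mono (WX.in1 E P'.a P'.b), Category.assoc,
      Category.assoc, f12, f1]
  have k4 : h12.comp (g2 E P'.a P'.b) = (g2 E P''.a P''.b).comp h2 := by
    apply spMap_inj
    rw [← spMap_comp', ← spMap_comp', ← cancel_mono (WX.in2 E P'.a P'.b), Category.assoc,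
      Category.assoc, f2, ← in12, f12, ← Category.assoc, in12, Category.assoc]
  have k5 : (bc1 S.p h''.a h''.b).comp h1 = bc1 S.p h'.a h'.b := by
    apply spMap_inj
    rw [← spMap_comp', ← cancel_mono (WX.in1 E P'.a P'.b), Category.assoc, f1, comp1 hf']
  have k6 : (bc2 S.p h''.a h''.b).comp h2 = bc2 S.p h'.a h'.b := by
    apply spMap_inj
    rw [← spMap_comp', ← cancel_mono (WX.in2 E P'.a P'.b), Category.assoc, f2, comp2 hf']
  have hid : spMap (RingHom.id E) = 𝟙 (Sp E) := Spec.map_id _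
  have k7 : (inf2 E P''.a P''.b).comp h2 = inf2 E P'.a P'.b := by
    have h := sec 0
    change (spMap (inf2 E P''.a P''.b) ≫ WX.in2 E P''.a P''.b) ≫ g =
      spMap (RingHom.id E) ≫ spMap (inf2 E P'.a P'.b) ≫ WX.in2 E P'.a P'.b at h
    rw [hid, Category.id_comp, Category.assoc, ← f2, ← Category.assoc, cancel_mono,
      spMap_comp'] at h
    exact spMap_inj h
  have k8 : ∀ i, (pt1 P'' i).comp h1 = pt1 P' i := by
    intro i
    have h := sec i.succ
    change (spMap (pt1 P'' i) ≫ WX.in1 E P''.a P''.b) ≫ g =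
      spMap (RingHom.id E) ≫ spMap (pt1 P' i) ≫ WX.in1 E P'.a P'.b at h
    rw [hid, Category.id_comp, Category.assoc, ← f1, ← Category.assoc, cancel_mono,
      spMap_comp'] at h
    exact spMap_inj h
  obtain ⟨u, v, huv, hu, e4, e6, ex, ey⟩ := hWUA S h'.a h'.b h''.a h''.b h6 h1 h2 h12
    (fun c => congrArg (fun φ => φ c) k1) (fun c => congrArg (fun φ => φ c) k2)
    (fun w => congrArg (fun φ => φ w) k3) (fun w => congrArg (fun φ => φ w) k4)
    (fun w => congrArg (fun φ => φ w) k5) (fun w => congrArg (fun φ => φ w) k6)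
    (fun w => congrArg (fun φ => φ w) k7)
  refine ⟨u, hu, ⟨e4, e6, fun i => ?_, fun i => ?_⟩⟩
  · have h : pt1 P'' i (h1 (x1 E P'.a P'.b)) = pt1 P' i (x1 E P'.a P'.b) :=
      congrArg (fun φ => φ (x1 E P'.a P'.b)) (k8 i)
    rw [ex, map_mul, map_pow, pt1, pt1, lift1_b, lift1_x, lift1_x, RingHom.id_apply] at h
    rw [← h, ← mul_assoc, ← mul_pow, huv, one_pow, one_mul]
  · have h : pt1 P'' i (h1 (y1 E P'.a P'.b)) = pt1 P' i (y1 E P'.a P'.b) :=
      congrArg (fun φ => φ (y1 E P'.a P'.b)) (k8 i)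
    rw [ey, map_mul, map_pow, pt1, pt1, lift1_b, lift1_y, lift1_y, RingHom.id_apply] at h
    rw [← h, ← mul_assoc, ← mul_pow, huv, one_pow, one_mul]

end Pool.Agent.MG.W


end

section

/-!
# WCV: Weierstrass classes and covectors (helper33)
-/

open CategoryTheory CategoryTheory.Limits AlgebraicGeometry TensorProduct

namespace Pool.Agent.MG.W

namespace WCV

/-! ### arrows -/

section arrows

variable {n : ℕ} {A B C : Type} [CommRing A] [CommRing B] [CommRing C]

theorem spMap_id (A : Type) [CommRing A] : spMap (RingHom.id A) = 𝟙 (Sp A) := Spec.map_id _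

/-- composition of arrows -/
noncomputable def comp {φ : A →+* B} {ψ : B →+* C} {χ : A →+* C} (hχ : ψ.comp φ = χ)
    {z : Fam n C} {y : Fam n B} {x : Fam n A} (g : Arrow ψ z y) (f : Arrow φ y x) :
    Arrow χ z x where
  f := g.f ≫ f.f
  cart := by
    rw [← hχ, ← spMap_comp']
    exact g.cart.paste_horiz f.cart
  sec i := by
    rw [← Category.assoc, g.sec i, Category.assoc, f.sec i, ← Category.assoc, spMap_comp', hχ]

theorem isIso_id {y x : Fam n A} (f : Arrow (RingHom.id A) y x) : IsIso f.f := by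
  have h1 : IsIso (spMap (RingHom.id A)) := by
    rw [spMap_id]
    infer_instance
  exact f.cart.isIso_fst_of_isIso

/-- the inverse of an arrow over the identity -/
noncomputable def inv {y x : Fam n A} (f : Arrow (RingHom.id A) y x) :
    Arrow (RingHom.id A) x y := by
  have hi : IsIso f.f := isIso_id f
  have hw : f.f ≫ x.π = y.π := by
    have := f.cart.w
    rw [spMap_id, Category.comp_id] at this
    exact this
  exact
  { f := CategoryTheory.inv f.f
    cart := by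
      rw [spMap_id]
      refine IsPullback.of_horiz_isIso ⟨?_⟩
      rw [Category.comp_id, IsIso.inv_comp_eq, hw]
    sec := fun i => by
      have := f.sec i
      rw [spMap_id, Category.id_comp] at this
      rw [spMap_id, Category.id_comp, ← this, Category.assoc, IsIso.hom_inv_id,
        Category.comp_id] }

theorem f_inv {y x : Fam n A} (f : Arrow (RingHom.id A) y x) : f.f ≫ (inv f).f = 𝟙 _ := by
  have hi : IsIso f.f := isIso_id f
  exact IsIso.hom_inv_id f.f

end arrows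

/-! ### functoriality of the base change -/

section functor

variable {B B' B'' : Type} [CommRing B] [CommRing B'] [CommRing B''] (φ : B →+* B')
  (ψ : B' →+* B'') {a b : B} {a' b' : B'} {a'' b'' : B''}

theorem map_comp (ha : a' = φ a) (hb : b' = φ b) (ha' : a'' = ψ a') (hb' : b'' = ψ b')
    {χ : B →+* B''} (hχ : ψ.comp φ = χ) (hc : a'' = χ a) (hd : b'' = χ b) :
    WX.map ψ ha' hb' ≫ WX.map φ ha hb = WX.map χ hc hd := by
  subst hχ
  refine WX.ext' ?_ ?_
  · rw [← Category.assoc, WX.in1_map, Category.assoc, WX.in1_map, ← Category.assoc, spMap_comp',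
      WX.in1_map]
    congr 2
    refine hom1_ext ?_ ?_ ?_
    · intro c
      rw [RingHom.comp_apply, bc1_b, bc1_b, bc1_b]
      rfl
    · rw [RingHom.comp_apply, bc1_x, bc1_x, bc1_x]
    · rw [RingHom.comp_apply, bc1_y, bc1_y, bc1_y]
  · rw [← Category.assoc, WX.in2_map, Category.assoc, WX.in2_map, ← Category.assoc, spMap_comp',
      WX.in2_map]
    congr 2
    refine hom2_ext ?_ ?_ ?_
    · intro c
      rw [RingHom.comp_apply, bc2_b, bc2_b, bc2_b]
      rfl
    · rw [RingHom.comp_apply, bc2_z, bc2_z, bc2_z]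
    · rw [RingHom.comp_apply, bc2_t, bc2_t, bc2_t]

end functor

/-! ### Weierstrass presentations of thickenings -/

section pres

variable {m : ℕ} {B : Type} [CommRing B] {P : WD m B}

/-- `P'` is a Weierstrass presentation of the thickening `t`. -/
def Pres {E J : Type} [CommRing E] [Fintype J] {S : SqE B E J} (t : Thk S (Wei P))
    (P' : WD m E) : Prop :=
  ∃ (h : WD.Bc S.p P' P) (f : Arrow (RingHom.id E) t.y (Wei P')), t.r.f ≫ f.f = wmap S.p h

/-- The push forward of a presentation. -/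
theorem push (hWBC : Stmt_WBC) {E J E' J' : Type} [CommRing E] [Fintype J] [CommRing E']
    [Fintype J'] {S : SqE B E J} {S' : SqE B E' J'} (Φ : E →+* E')
    (hΦ : ∀ z, S'.p (Φ z) = S.p z) (t : Thk S (Wei P)) (t' : Thk S' (Wei P))
    (g : Arrow Φ t'.y t.y) (hg : t'.r.f ≫ g.f = t.r.f) {P' : WD m E} (hP : Pres t P') :
    Pres t' (P'.map Φ) := by
  obtain ⟨h, f, hf⟩ := hP
  have h' : WD.Bc S'.p (P'.map Φ) P := by
    refine ⟨?_, ?_, ?_, ?_⟩
    · rw [h.a]; exact (hΦ _).symm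
    · rw [h.b]; exact (hΦ _).symm
    · intro i; rw [h.x]; exact (hΦ _).symm
    · intro i; rw [h.y]; exact (hΦ _).symm
  -- the arrow `t' → Wei P'`
  have hc : Φ.comp (RingHom.id E) = Φ := RingHom.comp_id Φ
  let k : Arrow Φ t'.y (Wei P') := comp hc g f
  have hk : k.f = g.f ≫ f.f := rfl
  have hpb : IsPullback (wmap Φ (WD.map_bc Φ P')) (Wei (P'.map Φ)).π (Wei P').π (spMap Φ) :=
    hWBC Φ _ _
  let e : t'.y.X ⟶ (Wei (P'.map Φ)).X := hpb.lift k.f t'.y.π k.cart.w
  have e1 : e ≫ wmap Φ (WD.map_bc Φ P') = k.f := hpb.lift_fst _ _ _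
  have e2 : e ≫ (Wei (P'.map Φ)).π = t'.y.π := hpb.lift_snd _ _ _
  have hcart : IsPullback e t'.y.π (Wei (P'.map Φ)).π (spMap (RingHom.id E')) := by
    have h1 : IsPullback (e ≫ wmap Φ (WD.map_bc Φ P')) t'.y.π (Wei P').π
        (spMap (RingHom.id E') ≫ spMap Φ) := by
      rw [e1, spMap_id, Category.id_comp]
      exact k.cart
    refine IsPullback.of_right h1 ?_ hpb
    rw [e2, spMap_id, Category.comp_id]
  refine ⟨h', ⟨e, hcart, ?_⟩, ?_⟩
  · intro i
    refine hpb.hom_ext ?_ ?_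
    · rw [Category.assoc, e1, k.sec i, Category.assoc, wmap_sec, spMap_id, Category.id_comp]
    · rw [Category.assoc, e2, t'.y.sec i, Category.assoc, (Wei (P'.map Φ)).sec i, spMap_id,
        Category.comp_id]
  · refine hpb.hom_ext ?_ ?_
    · rw [Category.assoc, e1, hk, ← Category.assoc, hg, hf]
      exact (map_comp Φ S'.p _ _ _ _ (RingHom.ext hΦ) _ _).symm
    · rw [Category.assoc, e2, t'.r.cart.w]
      exact (WX.map_pr S'.p h'.a h'.b).symm

/-- Two presentations of a thickening differ by a scaling. -/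
theorem uniq (hWU : Stmt_WU) (h6 : IsUnit (6 : B)) {E J : Type} [CommRing E] [Fintype J]
    {S : SqE B E J} {t : Thk S (Wei P)} {P' P'' : WD m E} (hP : Pres t P') (hP' : Pres t P'') :
    ∃ u : E, S.p u = 1 ∧ P'.Sc u P'' := by
  obtain ⟨h, f, hf⟩ := hP
  obtain ⟨h', f', hf'⟩ := hP'
  refine hWU S P h6 P' P'' h h' (comp (RingHom.comp_id _) (inv f') f) ?_
  show wmap S.p h' ≫ (inv f').f ≫ f.f = wmap S.p h
  rw [← hf', Category.assoc, ← Category.assoc f'.f, f_inv, Category.id_comp, hf]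

/-- The value of the covector data on first order Weierstrass data. -/
noncomputable def val (W : WCov P) (P' : WD m (Eps B)) : B :=
  W.α * P'.a.snd + W.β * P'.b.snd + ∑ i, (W.γ i * (P'.x i).snd + W.ρ i * (P'.y i).snd)

theorem snd_pow (u : Eps B) (hu : u.fst = 1) (k : ℕ) : (u ^ k).snd = k * u.snd := by
  induction k with
  | zero => simp
  | succ k ih =>
    have h1 : (u ^ k).fst = 1 := by rw [TrivSqZeroExt.fst_pow, hu, one_pow]
    rw [pow_succ, TrivSqZeroExt.snd_mul, ih, h1, hu]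
    simp only [one_smul, MulOpposite.op_one, Nat.cast_add, Nat.cast_one]
    ring

theorem snd_mul_pow (u z : Eps B) (hu : u.fst = 1) (k : ℕ) :
    (u ^ k * z).snd = z.snd + k * u.snd * z.fst := by
  have h1 : (u ^ k).fst = 1 := by rw [TrivSqZeroExt.fst_pow, hu, one_pow]
  rw [TrivSqZeroExt.snd_mul, snd_pow u hu, h1, one_smul]
  simp

theorem val_sc (W : WCov P) {P' P'' : WD m (Eps B)} (h : WD.Bc (eps0 B) P' P) {u : Eps B}
    (hu : u.fst = 1) (hs : P'.Sc u P'') : val W P'' = val W P' := by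
  unfold val
  have ha : P'.a.fst = P.a := h.a.symm
  have hb : P'.b.fst = P.b := h.b.symm
  have hx : ∀ i, (P'.x i).fst = P.x i := fun i => (h.x i).symm
  have hy : ∀ i, (P'.y i).fst = P.y i := fun i => (h.y i).symm
  have e1 : ∀ i, W.γ i * (P''.x i).snd + W.ρ i * (P''.y i).snd =
      (W.γ i * (P'.x i).snd + W.ρ i * (P'.y i).snd) +
        u.snd * (2 * P.x i * W.γ i + 3 * P.y i * W.ρ i) := by
    intro i
    rw [hs.x i, hs.y i, snd_mul_pow u _ hu, snd_mul_pow u _ hu, hx, hy]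
    push_cast
    ring
  rw [Finset.sum_congr rfl fun i _ => e1 i, Finset.sum_add_distrib, ← Finset.mul_sum, hs.a, hs.b,
    snd_mul_pow u _ hu, snd_mul_pow u _ hu, ha, hb]
  have h1 := W.eul
  push_cast
  linear_combination u.snd * h1

theorem val_uniq (hWU : Stmt_WU) (h6 : IsUnit (6 : B)) (W : WCov P)
    {t : Thk (sqEps B) (Wei P)} {P' P'' : WD m (Eps B)} (hP : Pres t P') (hP' : Pres t P'') :
    val W P'' = val W P' := by
  obtain ⟨u, hu, hs⟩ := uniq hWU h6 hP hP'
  obtain ⟨h, -⟩ := hP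
  exact val_sc W h hu hs

theorem Cov_ext {n : ℕ} {A : Type} [CommRing A] {g : ℕ} {x : Fam n A} (l l' : Cov g x)
    (h : ∀ d, l.l d = l'.l d) : l = l' := by
  cases l
  cases l'
  congr
  exact funext h

theorem exists_pres (hWE : Stmt_WE) (h6 : IsUnit (6 : B)) {E J : Type} [CommRing E] [Fintype J]
    {S : SqE B E J} (t : Thk S (Wei P)) : ∃ P' : WD m E, Pres t P' :=
  hWE S P h6 t

end pres

end WCV

open _root_.Pool.Agent.MG.W.WCV in
/-- WCV: covector data give a covector, which is determined by them -/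
theorem t_WCV (hWE : Stmt_WE) (hWU : Stmt_WU) (hWBC : Stmt_WBC) (_hWSC : Stmt_WSC) :
    Stmt_WCV := by
  intro m B _ P h6 W
  have hex : ∀ d : Defo 1 (Wei P), ∃ P' : WD m (Eps B), Pres d.thk P' :=
    fun d => exists_pres hWE h6 d.thk
  choose pr hpr using hex
  have key : ∀ (d : Defo 1 (Wei P)) (P' : WD m (Eps B)), Pres d.thk P' →
      val W (pr d) = val W P' := fun d P' h => val_uniq hWU h6 W h (hpr d)
  have hpush : ∀ {E J : Type} [CommRing E] [Fintype J] {S : SqE B E J} (Φ : E →+* Eps B)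
      (_ : ∀ z, (Φ z).fst = S.p z) (t : Thk S (Wei P)) (d : Defo 1 (Wei P))
      (g : Arrow Φ d.y t.y) (_ : d.r.f ≫ g.f = t.r.f) (P' : WD m E), Pres t P' →
      val W (pr d) = val W (P'.map Φ) := by
    intro E J _ _ S Φ hΦ t d g hg P' hP
    exact key d _ (push hWBC (S' := sqEps B) Φ hΦ t d.thk g hg hP)
  have hcls : ∀ (d : Defo 1 (Wei P)) (da db : B) (dx dy : Fin m → B), WCls d da db dx dy →
      ∃ P' : WD m (Eps B), Pres d.thk P' ∧
        val W P' = W.α * da + W.β * db + ∑ i, (W.γ i * dx i + W.ρ i * dy i) := by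
    rintro d da db dx dy ⟨P', h, h1, h2, h3, h4, f, hf⟩
    refine ⟨P', ⟨h, f, hf⟩, ?_⟩
    unfold val
    rw [h1, h2]
    congr 1
    exact Finset.sum_congr rfl fun i _ => by rw [h3 i, h4 i]
  have hcls' : ∀ (d : Defo 1 (Wei P)), WCls d (pr d).a.snd (pr d).b.snd
      (fun i => ((pr d).x i).snd) (fun i => ((pr d).y i).snd) := by
    intro d
    obtain ⟨h, f, hf⟩ := hpr d
    exact ⟨pr d, h, rfl, rfl, fun _ => rfl, fun _ => rfl, f, hf⟩
  refine ⟨{ l := fun d => val W (pr d)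
            iso := ?_
            scale := ?_
            add := ?_ }, ?_, ?_⟩
  · intro d d' f hf
    rw [hpush (S := sqEps B) (RingHom.id (Eps B)) (fun _ => rfl) d'.thk d f hf (pr d') (hpr d')]
    rfl
  · intro a d d' f hf
    rw [hpush (S := sqEps B) (epsScale a) (fun z => by simp [sqEps]) d.thk d' f hf (pr d) (hpr d)]
    have e : ∀ z : Eps B, (epsScale a z).snd = a * z.snd := fun z => by simp
    unfold val WD.map
    simp only [e]
    rw [mul_add, mul_add, Finset.mul_sum]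
    congr 1
    · ring
    · exact Finset.sum_congr rfl fun i _ => by ring
  · intro z hz r d₁ d₂ d f₁ f₂ f hf₁ hf₂ hf
    let t : Thk (sqEps2 B) (Wei P) := ⟨z, hz.flat, r⟩
    obtain ⟨P', hP⟩ := exists_pres hWE h6 t
    have h1 := hpush (epsPair 1 0) (fun z => by simp [sqEps2]) t d₁ f₁ hf₁ P' hP
    have h2 := hpush (epsPair 0 1) (fun z => by simp [sqEps2]) t d₂ f₂ hf₂ P' hP
    have h3 := hpush (epsPair 1 1) (fun z => by simp [sqEps2]) t d f hf P' hP
    rw [h1, h2, h3]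
    have e : ∀ (a b : B) (z : Eps2 B), (epsPair a b z).snd = a * z.snd.1 + b * z.snd.2 :=
      fun a b z => by simp
    unfold val WD.map
    simp only [e, one_mul, zero_mul, add_zero, zero_add]
    have e2 : ∑ i, (W.γ i * ((P'.x i).snd.1 + (P'.x i).snd.2) +
        W.ρ i * ((P'.y i).snd.1 + (P'.y i).snd.2)) =
        ∑ i, (W.γ i * (P'.x i).snd.1 + W.ρ i * (P'.y i).snd.1) +
        ∑ i, (W.γ i * (P'.x i).snd.2 + W.ρ i * (P'.y i).snd.2) := by
      rw [← Finset.sum_add_distrib]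
      exact Finset.sum_congr rfl fun i _ => by ring
    rw [e2]
    ring
  · intro d da db dx dy hd
    obtain ⟨P', hP, hv⟩ := hcls d da db dx dy hd
    rw [← hv]
    exact key d P' hP
  · intro l' hl'
    refine Cov_ext _ _ fun d => ?_
    rw [hl' d _ _ _ _ (hcls' d)]
    rfl

end Pool.Agent.MG.W


end

section

/-!
# Base change and scaling of covectors (module WNA)
-/

open CategoryTheory CategoryTheory.Limits AlgebraicGeometry TensorProduct

namespace Pool.Agent.MG.W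

namespace WNA

theorem spMap_id (A : Type) [CommRing A] : spMap (RingHom.id A) = 𝟙 (Sp A) := Spec.map_id _

theorem epsMap_id (A : Type) [CommRing A] : epsMap (RingHom.id A) = RingHom.id (Eps A) := by
  refine RingHom.ext fun z => ?_
  change TrivSqZeroExt.inl z.fst + TrivSqZeroExt.inr z.snd = z
  exact TrivSqZeroExt.inl_fst_add_inr_snd_eq z

theorem epsMap_fst {A A' : Type} [CommRing A] [CommRing A'] (φ : A →+* A') (z : Eps A) :
    (epsMap φ z).fst = φ z.fst := by
  change (TrivSqZeroExt.inl (φ z.fst) + TrivSqZeroExt.inr (φ z.snd) : Eps A').fst = _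
  simp

theorem epsMap_snd {A A' : Type} [CommRing A] [CommRing A'] (φ : A →+* A') (z : Eps A) :
    (epsMap φ z).snd = φ z.snd := by
  change (TrivSqZeroExt.inl (φ z.fst) + TrivSqZeroExt.inr (φ z.snd) : Eps A').snd = _
  simp

theorem eps0_apply {A : Type} [CommRing A] (z : Eps A) : eps0 A z = z.fst := rfl

/-- Pull back of an isomorphism of families. -/
theorem transfer {n : ℕ} {E E' : Type} [CommRing E] [CommRing E'] (ψ : E →+* E')
    {x y : Fam n E} {x' y' : Fam n E'} (A : Arrow ψ x' x) (f : Arrow ψ y' y)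
    (f1 : Arrow (RingHom.id E) y x) :
    ∃ g : Arrow (RingHom.id E') y' x', g.f ≫ A.f = f.f ≫ f1.f := by
  have hw : (f.f ≫ f1.f) ≫ x.π = y'.π ≫ spMap ψ := by
    rw [Category.assoc, f1.cart.w, spMap_id, Category.comp_id, f.cart.w]
  have hg : A.cart.lift (f.f ≫ f1.f) y'.π hw ≫ A.f = f.f ≫ f1.f := A.cart.lift_fst _ _ _
  have hg' : A.cart.lift (f.f ≫ f1.f) y'.π hw ≫ x'.π = y'.π := A.cart.lift_snd _ _ _
  refine ⟨⟨A.cart.lift (f.f ≫ f1.f) y'.π hw, ?_, fun i => ?_⟩, hg⟩
  · refine IsPullback.of_right (h₁₂ := A.f) (h₂₂ := spMap ψ) (v₁₃ := x.π) ?_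
      (by rw [hg', spMap_id, Category.comp_id]) A.cart
    rw [hg]
    have h1 := f.cart.paste_horiz f1.cart
    rw [spMap_id, Category.comp_id] at h1
    rw [spMap_id, Category.id_comp]
    exact h1
  · refine A.cart.hom_ext ?_ ?_
    · rw [Category.assoc, hg, spMap_id, Category.id_comp, A.sec, ← Category.assoc, f.sec,
        Category.assoc, f1.sec, spMap_id, Category.id_comp]
    · rw [Category.assoc, hg', y'.sec, spMap_id, Category.id_comp, x'.sec]

section

variable {m : ℕ} {B : Type} [CommRing B] {P : WD m B}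

theorem val {W : WCov P} {l : Cov 1 (Wei P)} (hl : IsWC W l) (d : Defo 1 (Wei P))
    (P1 : WD m (Eps B)) (h : WD.Bc (eps0 B) P1 P) (f : Arrow (RingHom.id (Eps B)) d.y (Wei P1))
    (hf : d.r.f ≫ f.f = wmap (eps0 B) h) : l.l d = W.α * P1.a.snd + W.β * P1.b.snd +
      ∑ i, (W.γ i * (P1.x i).snd + W.ρ i * (P1.y i).snd) :=
  hl d _ _ _ _ ⟨P1, h, rfl, rfl, fun _ => rfl, fun _ => rfl, f, hf⟩

/-- The main step. -/
theorem step {B' : Type} [CommRing B'] {P' : WD m B'} (φ : B →+* B') (a : Arrow φ (Wei P') (Wei P))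
    {P1 : WD m (Eps B)} {P1' : WD m (Eps B')} (h : WD.Bc (eps0 B) P1 P)
    (h' : WD.Bc (eps0 B') P1' P') (A : Arrow (epsMap φ) (Wei P1') (Wei P1))
    (hA : a.f ≫ wmap (eps0 B) h = wmap (eps0 B') h' ≫ A.f)
    (d' : Defo 1 (Wei P')) (d : Defo 1 (Wei P)) (f : Arrow (epsMap φ) d'.y d.y)
    (hf : d'.r.f ≫ f.f = a.f ≫ d.r.f) (f1 : Arrow (RingHom.id (Eps B)) d.y (Wei P1))
    (hf1 : d.r.f ≫ f1.f = wmap (eps0 B) h) :
    ∃ g : Arrow (RingHom.id (Eps B')) d'.y (Wei P1'), d'.r.f ≫ g.f = wmap (eps0 B') h' := by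
  obtain ⟨g, hg⟩ := transfer (epsMap φ) A f f1
  refine ⟨g, A.cart.hom_ext ?_ ?_⟩
  · rw [Category.assoc, hg, ← Category.assoc, hf, Category.assoc, hf1, hA]
  · rw [Category.assoc, g.cart.w, spMap_id, Category.comp_id, d'.r.cart.w]
    exact (WX.map_pr (eps0 B') h'.a h'.b).symm

end

/-- Base change of base change. -/
theorem map_comm {A1 A2 A3 A4 : Type} [CommRing A1] [CommRing A2] [CommRing A3] [CommRing A4]
    (f12 : A1 →+* A2) (f24 : A2 →+* A4) (f13 : A1 →+* A3) (f34 : A3 →+* A4)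
    (hf : f24.comp f12 = f34.comp f13) {a1 b1 : A1} {a2 b2 : A2} {a3 b3 : A3} {a4 b4 : A4}
    (h12a : a2 = f12 a1) (h12b : b2 = f12 b1) (h24a : a4 = f24 a2) (h24b : b4 = f24 b2)
    (h13a : a3 = f13 a1) (h13b : b3 = f13 b1) (h34a : a4 = f34 a3) (h34b : b4 = f34 b3) :
    WX.map f24 h24a h24b ≫ WX.map f12 h12a h12b = WX.map f34 h34a h34b ≫ WX.map f13 h13a h13b := by
  have hc : ∀ c, f24 (f12 c) = f34 (f13 c) := fun c => congrArg (fun f => f c) hf
  refine WX.ext' ?_ ?_
  · rw [WX.in1_map_assoc, WX.in1_map, WX.in1_map_assoc, WX.in1_map, ← Category.assoc,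
      ← Category.assoc, spMap_comp', spMap_comp']
    congr 2
    refine hom1_ext (fun c => ?_) ?_ ?_
    · rw [RingHom.comp_apply, RingHom.comp_apply, bc1_b, bc1_b, bc1_b, bc1_b, hc]
    · rw [RingHom.comp_apply, RingHom.comp_apply, bc1_x, bc1_x, bc1_x, bc1_x]
    · rw [RingHom.comp_apply, RingHom.comp_apply, bc1_y, bc1_y, bc1_y, bc1_y]
  · rw [WX.in2_map_assoc, WX.in2_map, WX.in2_map_assoc, WX.in2_map, ← Category.assoc,
      ← Category.assoc, spMap_comp', spMap_comp']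
    congr 2
    refine hom2_ext (fun c => ?_) ?_ ?_
    · rw [RingHom.comp_apply, RingHom.comp_apply, bc2_b, bc2_b, bc2_b, bc2_b, hc]
    · rw [RingHom.comp_apply, RingHom.comp_apply, bc2_z, bc2_z, bc2_z, bc2_z]
    · rw [RingHom.comp_apply, RingHom.comp_apply, bc2_t, bc2_t, bc2_t, bc2_t]

/-- The base change arrow. -/
theorem exists_arrow (hWBC : Stmt_WBC) {m : ℕ} {B B' : Type} [CommRing B] [CommRing B']
    (φ : B →+* B') {P : WD m B} {P' : WD m B'} (h : WD.Bc φ P P') :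
    ∃ a : Arrow φ (Wei P') (Wei P), a.f = wmap φ h :=
  ⟨⟨wmap φ h, hWBC φ h.a h.b, fun i => wmap_sec φ h i⟩, rfl⟩

theorem one (hWE : Stmt_WE) (hWBC : Stmt_WBC) {m : ℕ} {B B' : Type} [CommRing B] [CommRing B']
    (φ : B →+* B') (P : WD m B) (P' : WD m B') (h : WD.Bc φ P P') (W : WCov P) (W' : WCov P')
    (l : Cov 1 (Wei P)) (l' : Cov 1 (Wei P')) (h6 : IsUnit (6 : B))
    (hα : W'.α = φ W.α) (hβ : W'.β = φ W.β) (hγ : ∀ i, W'.γ i = φ (W.γ i))
    (hρ : ∀ i, W'.ρ i = φ (W.ρ i)) (hl : IsWC W l) (hl' : IsWC W' l') :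
    ∃ a : Arrow φ (Wei P') (Wei P), a.f = wmap φ h ∧ Compat a l' l := by
  obtain ⟨a, ha⟩ := exists_arrow hWBC φ h
  refine ⟨a, ha, fun d' d f hf => ?_⟩
  obtain ⟨P1, hP1, f1, hf1⟩ := hWE (sqEps B) P h6 d.thk
  change WD.Bc (eps0 B) P1 P at hP1
  change d.r.f ≫ f1.f = wmap (eps0 B) hP1 at hf1
  obtain ⟨A, hA⟩ := exists_arrow hWBC (epsMap φ) (WD.map_bc (epsMap φ) P1)
  have hP1' : WD.Bc (eps0 B') (P1.map (epsMap φ)) P' := by
    refine ⟨?_, ?_, fun i => ?_, fun i => ?_⟩
    · change P'.a = (epsMap φ P1.a).fst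
      rw [epsMap_fst, h.a, hP1.a, eps0_apply]
    · change P'.b = (epsMap φ P1.b).fst
      rw [epsMap_fst, h.b, hP1.b, eps0_apply]
    · change P'.x i = (epsMap φ (P1.x i)).fst
      rw [epsMap_fst, h.x, hP1.x, eps0_apply]
    · change P'.y i = (epsMap φ (P1.y i)).fst
      rw [epsMap_fst, h.y, hP1.y, eps0_apply]
  have hc : a.f ≫ wmap (eps0 B) hP1 = wmap (eps0 B') hP1' ≫ A.f := by
    rw [ha, hA]
    refine map_comm (eps0 B) φ (epsMap φ) (eps0 B') ?_ _ _ _ _ _ _ _ _
    refine RingHom.ext fun z => ?_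
    change φ z.fst = (epsMap φ z).fst
    rw [epsMap_fst]
  obtain ⟨g, hg⟩ := step φ a hP1 hP1' A hc d' d f hf f1 hf1
  rw [val hl' d' _ hP1' g hg, val hl d P1 hP1 f1 hf1, map_add, map_add, map_mul, map_mul, map_sum,
    hα, hβ]
  congr 1
  · change φ W.α * (epsMap φ P1.a).snd + φ W.β * (epsMap φ P1.b).snd = _
    rw [epsMap_snd, epsMap_snd]
  · refine Finset.sum_congr rfl fun i _ => ?_
    change W'.γ i * (epsMap φ (P1.x i)).snd + W'.ρ i * (epsMap φ (P1.y i)).snd = _
    rw [epsMap_snd, epsMap_snd, hγ, hρ, map_add, map_mul, map_mul]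

/-- The scaled Weierstrass data. -/
def scale {m : ℕ} {B : Type} [CommRing B] (u : B) (P : WD m B) : WD m B where
  a := u ^ 4 * P.a
  b := u ^ 6 * P.b
  x i := u ^ 2 * P.x i
  y i := u ^ 3 * P.y i
  eq i := by
    have := P.eq i
    calc (u ^ 3 * P.y i) ^ 2 = u ^ 6 * P.y i ^ 2 := by ring
      _ = _ := by rw [this]; ring

theorem scale_sc {m : ℕ} {B : Type} [CommRing B] (u : B) (P : WD m B) : P.Sc u (scale u P) :=
  ⟨rfl, rfl, fun _ => rfl, fun _ => rfl⟩

/-- The scaling arrow. -/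
theorem exists_scale (hWSC : Stmt_WSC) {m : ℕ} {B : Type} [CommRing B] {u v : B}
    (huv : u * v = 1) {P P' : WD m B} (h : P.Sc u P') (ψ : B →+* B) (hψ : ψ = RingHom.id B) :
    ∃ a : Arrow ψ (Wei P') (Wei P), a.f = WX.sc huv h.a h.b := by
  subst hψ
  have : IsIso (WX.sc huv h.a h.b) := hWSC.1 huv h.a h.b
  refine ⟨⟨WX.sc huv h.a h.b, ?_, fun i => ?_⟩, rfl⟩
  · rw [spMap_id]
    have hp : IsPullback (WX.sc huv h.a h.b) (WX.pr B P'.a P'.b) (WX.pr B P.a P.b) (𝟙 (Sp B)) :=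
      IsPullback.of_horiz_isIso ⟨by rw [Category.comp_id]; exact WX.sc_pr huv h.a h.b⟩
    exact hp
  · rw [spMap_id, Category.id_comp]
    exact hWSC.2.1 huv P P' h i

theorem two (hWE : Stmt_WE) (hWSC : Stmt_WSC) {m : ℕ} {B : Type} [CommRing B] (u : B)
    (P P' : WD m B) (W : WCov P) (W' : WCov P')
    (l : Cov 1 (Wei P)) (l' : Cov 1 (Wei P')) (h6 : IsUnit (6 : B)) (hu : IsUnit u)
    (h : P.Sc u P') (hα : u ^ 4 * W'.α = W.α) (hβ : u ^ 6 * W'.β = W.β)
    (hγ : ∀ i, u ^ 2 * W'.γ i = W.γ i) (hρ : ∀ i, u ^ 3 * W'.ρ i = W.ρ i)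
    (hl : IsWC W l) (hl' : IsWC W' l') :
    ∃ a : Arrow (RingHom.id B) (Wei P') (Wei P), Compat a l' l := by
  obtain ⟨v, huv⟩ := hu.exists_right_inv
  obtain ⟨a, ha⟩ := exists_scale hWSC huv h (RingHom.id B) rfl
  refine ⟨a, fun d' d f hf => ?_⟩
  obtain ⟨P1, hP1, f1, hf1⟩ := hWE (sqEps B) P h6 d.thk
  change WD.Bc (eps0 B) P1 P at hP1
  change d.r.f ≫ f1.f = wmap (eps0 B) hP1 at hf1
  have hUV : (TrivSqZeroExt.inl u : Eps B) * TrivSqZeroExt.inl v = 1 := by
    rw [← TrivSqZeroExt.inl_mul, huv, TrivSqZeroExt.inl_one]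
  obtain ⟨A, hA⟩ := exists_scale hWSC hUV (scale_sc (TrivSqZeroExt.inl u : Eps B) P1)
    (epsMap (RingHom.id B)) (epsMap_id B)
  have hP1' : WD.Bc (eps0 B) (scale (TrivSqZeroExt.inl u : Eps B) P1) P' := by
    refine ⟨?_, ?_, fun i => ?_, fun i => ?_⟩
    · change P'.a = eps0 B ((TrivSqZeroExt.inl u : Eps B) ^ 4 * P1.a)
      rw [h.a, hP1.a, map_mul, map_pow]
      rfl
    · change P'.b = eps0 B ((TrivSqZeroExt.inl u : Eps B) ^ 6 * P1.b)
      rw [h.b, hP1.b, map_mul, map_pow]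
      rfl
    · change P'.x i = eps0 B ((TrivSqZeroExt.inl u : Eps B) ^ 2 * P1.x i)
      rw [h.x, hP1.x, map_mul, map_pow]
      rfl
    · change P'.y i = eps0 B ((TrivSqZeroExt.inl u : Eps B) ^ 3 * P1.y i)
      rw [h.y, hP1.y, map_mul, map_pow]
      rfl
  have hc : a.f ≫ wmap (eps0 B) hP1 = wmap (eps0 B) hP1' ≫ A.f := by
    rw [ha, hA]
    exact hWSC.2.2 (eps0 B) hUV _ _ huv _ _ _ _ _ _ rfl
  obtain ⟨g, hg⟩ := step (RingHom.id B) a hP1 hP1' A hc d' d f hf f1 hf1
  rw [val hl' d' _ hP1' g hg, RingHom.id_apply, val hl d P1 hP1 f1 hf1, ← hα, ← hβ]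
  have key : ∀ (n : ℕ) (z : Eps B), ((TrivSqZeroExt.inl u : Eps B) ^ n * z).snd = u ^ n * z.snd := by
    intro n z
    rw [TrivSqZeroExt.inl_pow, TrivSqZeroExt.snd_mul]
    simp
  congr 1
  · change W'.α * ((TrivSqZeroExt.inl u : Eps B) ^ 4 * P1.a).snd +
      W'.β * ((TrivSqZeroExt.inl u : Eps B) ^ 6 * P1.b).snd = _
    rw [key, key]
    ring
  · refine Finset.sum_congr rfl fun i _ => ?_
    change W'.γ i * ((TrivSqZeroExt.inl u : Eps B) ^ 2 * P1.x i).snd +
      W'.ρ i * ((TrivSqZeroExt.inl u : Eps B) ^ 3 * P1.y i).snd = _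
    rw [key, key, ← hγ, ← hρ]
    ring

end WNA

theorem t_WNA (hWE : Stmt_WE) (_hWU : Stmt_WU) (hWBC : Stmt_WBC) (hWSC : Stmt_WSC) :
    Stmt_WNA := by
  refine ⟨?_, ?_⟩
  · intro m B B' _ _ φ P P' h W W' l l' h6 hα hβ hγ hρ hl hl'
    exact WNA.one hWE hWBC φ P P' h W W' l l' h6 hα hβ hγ hρ hl hl'
  · intro m B _ u P P' W W' l l' h6 hu h hα hβ hγ hρ hl hl'
    exact WNA.two hWE hWSC u P P' W W' l l' h6 hu h hα hβ hγ hρ hl hl'

end Pool.Agent.MG.W


end

section

/-!
# ROOT: adjoining square roots, with a retraction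
-/

open CategoryTheory CategoryTheory.Limits AlgebraicGeometry TensorProduct

namespace Pool.Agent.MG.W

namespace ROOT

/-- The homomorphism `re + im y ↦ ψ(re) + y0 ψ(im)`. -/
noncomputable def lft {k R : Type} [Field k] [CommRing R] [Algebra k R] (a : R) (ψ : R →ₐ[k] k)
    (y0 : k) (h : y0 ^ 2 = ψ a) : QuadraticAlgebra R a 0 →ₐ[k] k where
  toFun g := ψ g.re + ψ g.im * y0
  map_one' := by
    rw [QuadraticAlgebra.re_one, QuadraticAlgebra.im_one, map_one, map_zero, zero_mul, add_zero]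
  map_mul' x y := by
    rw [QuadraticAlgebra.re_mul, QuadraticAlgebra.im_mul]
    simp only [map_add, map_mul, zero_mul, add_zero]
    linear_combination (-(ψ x.im) * ψ y.im) * h
  map_zero' := by
    rw [QuadraticAlgebra.re_zero, QuadraticAlgebra.im_zero, map_zero, zero_mul, add_zero]
  map_add' x y := by
    rw [QuadraticAlgebra.re_add, QuadraticAlgebra.im_add, map_add, map_add]
    ring
  commutes' c := by
    show ψ (algebraMap k R c) + ψ 0 * y0 = _
    rw [map_zero, zero_mul, add_zero, AlgHom.commutes]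

/-- The inclusion. -/
noncomputable def inc {k R : Type} [Field k] [CommRing R] [Algebra k R] (a : R) :
    R →ₐ[k] QuadraticAlgebra R a 0 :=
  IsScalarTower.toAlgHom k R (QuadraticAlgebra R a 0)

theorem lft_inc {k R : Type} [Field k] [CommRing R] [Algebra k R] (a : R) (ψ : R →ₐ[k] k)
    (y0 : k) (h : y0 ^ 2 = ψ a) : (lft a ψ y0 h).comp (inc a) = ψ := by
  ext x
  show ψ x + ψ 0 * y0 = ψ x
  rw [map_zero, zero_mul, add_zero]

end ROOT

open _root_.Pool.Agent.MG.W.ROOT in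
theorem t_ROOT : Stmt_ROOT := by
  intro k _ h2 R _ _ m
  induction m with
  | zero =>
    intro f
    refine ⟨R, inferInstance, inferInstance, AlgHom.id k R, Fin.elim0, id, fun i => i.elim0,
      fun ψ y0 _ => ⟨ψ, rfl, fun i => i.elim0⟩, fun g ψ c h _ => h ψ rfl⟩
  | succ m ih =>
    intro f
    obtain ⟨R', iR, iA, ι, y, ρ, h1, hext, hret⟩ := ih (fun i => f i.castSucc)
    letI := iR
    letI := iA
    let a : R' := ι (f (Fin.last m))
    have hω : (⟨0, 1⟩ : QuadraticAlgebra R' a 0) ^ 2 = inc (k := k) a a := by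
      rw [pow_two]
      ext
      · rw [QuadraticAlgebra.re_mul]
        show 0 * 0 + a * 1 * 1 = a
        ring
      · rw [QuadraticAlgebra.im_mul]
        show (0 : R') * 1 + 1 * 0 + 0 * 1 * 1 = 0
        ring
    refine ⟨QuadraticAlgebra R' a 0, inferInstance, inferInstance, (inc a).comp ι,
      Fin.snoc (fun i => inc (k := k) a (y i)) ⟨0, 1⟩, fun g => ρ g.re, ?_, ?_, ?_⟩
    · intro i
      refine Fin.lastCases ?_ (fun j => ?_) i
      · rw [Fin.snoc_last]
        exact hω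
      · rw [Fin.snoc_castSucc, ← map_pow, h1 j]
        rfl
    · intro ψ y0 hy
      obtain ⟨ψ', hψ, hψy⟩ := hext ψ (fun i => y0 i.castSucc) (fun i => hy i.castSucc)
      have ha : y0 (Fin.last m) ^ 2 = ψ' a := by
        rw [hy (Fin.last m), ← hψ]; rfl
      refine ⟨lft a ψ' (y0 (Fin.last m)) ha, ?_, ?_⟩
      · rw [← AlgHom.comp_assoc, lft_inc, hψ]
      · intro i
        refine Fin.lastCases ?_ (fun j => ?_) i
        · rw [Fin.snoc_last]
          show ψ' 0 + ψ' 1 * y0 (Fin.last m) = _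
          rw [map_zero, map_one, zero_add, one_mul]
        · rw [Fin.snoc_castSucc]
          have := congrArg (fun φ : R' →ₐ[k] k => φ (y j)) (lft_inc a ψ' (y0 (Fin.last m)) ha)
          exact this.trans (hψy j)
    · intro g ψ c h hy
      obtain ⟨y0, hy0⟩ := hy
      refine hret g.re ψ c ?_ ⟨fun i => y0 i.castSucc, fun i => hy0 i.castSucc⟩
      intro ψ' hψ
      have ha : y0 (Fin.last m) ^ 2 = ψ' a := by
        rw [hy0 (Fin.last m), ← hψ]; rfl
      have ha' : (-y0 (Fin.last m)) ^ 2 = ψ' a := by rw [neg_sq]; exact ha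
      have e1 : ψ' g.re + ψ' g.im * y0 (Fin.last m) = c :=
        h (lft a ψ' (y0 (Fin.last m)) ha) (by rw [← AlgHom.comp_assoc, lft_inc, hψ])
      have e2 : ψ' g.re + ψ' g.im * (-y0 (Fin.last m)) = c :=
        h (lft a ψ' (-y0 (Fin.last m)) ha') (by rw [← AlgHom.comp_assoc, lft_inc, hψ])
      apply mul_left_cancel₀ h2
      linear_combination e1 + e2

end Pool.Agent.MG.W


end

section

/-!
# DEN: functions with coprime denominators which agree on a dense set are polynomials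
-/

open CategoryTheory CategoryTheory.Limits AlgebraicGeometry TensorProduct

namespace Pool.Agent.MG.W

namespace DEN

variable {k : Type} [Field k] {m : ℕ}

theorem aeval_hN (σ : Option (Fin m) → k) (h : Polynomial k) :
    MvPolynomial.aeval σ (hN m h) = h.eval (σ none) := by
  unfold hN
  rw [← Polynomial.aeval_algHom_apply, MvPolynomial.aeval_X, ← Polynomial.coe_aeval_eq_eval]

theorem hN_ne_zero [Infinite k] {h : Polynomial k} (hh : h ≠ 0) : hN m h ≠ 0 := by
  intro h0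
  apply hh
  refine Polynomial.funext fun c => ?_
  rw [← aeval_hN (m := m) (fun _ => c) h, h0, map_zero, Polynomial.eval_zero]

theorem hN_coprime {h h' : Polynomial k} (hc : IsCoprime h h') :
    IsCoprime (hN m h) (hN m h') :=
  hc.map (Polynomial.aeval (MvPolynomial.X none : MvPolynomial (Option (Fin m)) k)).toRingHom

/-- Evaluation at a point where the denominator does not vanish. -/
theorem exists_ev (σ : Option (Fin m) → k) {h : Polynomial k} (hh : h.eval (σ none) ≠ 0) :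
    ∃ ψ : Localization.Away (hN m h) →ₐ[k] k,
      ∀ p : MvPolynomial (Option (Fin m)) k, ψ (algebraMap _ _ p) = MvPolynomial.aeval σ p := by
  have hu : IsUnit ((MvPolynomial.aeval σ : MvPolynomial (Option (Fin m)) k →ₐ[k] k).toRingHom
      (hN m h)) := by
    have : (MvPolynomial.aeval σ : MvPolynomial (Option (Fin m)) k →ₐ[k] k).toRingHom
      (hN m h) = h.eval (σ none) := aeval_hN σ h
    rw [this]
    exact hh.isUnit
  let g : Localization.Away (hN m h) →+* k := IsLocalization.Away.lift (hN m h) hu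
  have hg : ∀ p : MvPolynomial (Option (Fin m)) k,
      g (algebraMap _ _ p) = MvPolynomial.aeval σ p := fun p =>
    IsLocalization.Away.lift_eq (hN m h) hu p
  refine ⟨{ g with commutes' := fun c => ?_ }, hg⟩
  have h1 := hg (algebraMap k _ c)
  rw [← IsScalarTower.algebraMap_apply] at h1
  change g _ = _
  rw [h1, AlgHom.commutes]

end DEN

open _root_.Pool.Agent.MG.W.DEN in
theorem t_DEN : Stmt_DEN := by
  intro k _ _ m h h' D hc hh hh' hD v v' hvv
  have hinf : Infinite k := IsAlgClosed.instInfinite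
  obtain ⟨N, p, hp⟩ := IsLocalization.Away.surj (hN m h) v
  obtain ⟨N', p', hp'⟩ := IsLocalization.Away.surj (hN m h') v'
  have hH := hN_ne_zero (m := m) hh
  have hH' := hN_ne_zero (m := m) hh'
  have hHD := hN_ne_zero (m := m) hD
  have key : p * hN m h' ^ N' = p' * hN m h ^ N := by
    have h0 : hN m h * hN m h' * hN m D * (p * hN m h' ^ N' - p' * hN m h ^ N) = 0 := by
      refine MvPolynomial.funext fun σ => ?_
      rw [map_zero, ← MvPolynomial.coe_aeval_eq_eval]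
      change MvPolynomial.aeval σ _ = 0
      simp only [map_mul, map_sub, map_pow, aeval_hN]
      by_cases h1 : h.eval (σ none) = 0
      · rw [h1, zero_mul, zero_mul, zero_mul]
      by_cases h2 : h'.eval (σ none) = 0
      · rw [h2, mul_zero, zero_mul, zero_mul]
      by_cases h3 : D.eval (σ none) = 0
      · rw [h3, mul_zero, zero_mul]
      obtain ⟨ψ, hψ⟩ := exists_ev σ h1
      obtain ⟨ψ', hψ'⟩ := exists_ev σ h2
      have h4 : ψ v = ψ' v' := by
        refine hvv ψ ψ' (fun q => by rw [hψ, hψ']) ?_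
        rw [hψ, MvPolynomial.aeval_X]
        exact h3
      have h5 := congrArg ψ hp
      rw [map_mul, map_pow, hψ, hψ, aeval_hN] at h5
      have h6 := congrArg ψ' hp'
      rw [map_mul, map_pow, hψ', hψ', aeval_hN] at h6
      rw [← h5, ← h6, h4]
      ring
    have h1 : hN m h * hN m h' * hN m D ≠ 0 := mul_ne_zero (mul_ne_zero hH hH') hHD
    exact sub_eq_zero.1 ((mul_eq_zero.1 h0).resolve_left h1)
  have hcop : IsCoprime (hN m h ^ N) (hN m h' ^ N') := (hN_coprime hc).pow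
  obtain ⟨q, hq⟩ : hN m h ^ N ∣ p :=
    hcop.dvd_of_dvd_mul_right ⟨p', by rw [key, mul_comm]⟩
  have hq' : p' = hN m h' ^ N' * q := by
    rw [hq] at key
    refine mul_right_cancel₀ (pow_ne_zero N hH) ?_
    rw [← key]
    ring
  refine ⟨q, ?_, ?_⟩
  · have hu : IsUnit (algebraMap (MvPolynomial (Option (Fin m)) k) (Localization.Away (hN m h))
        (hN m h) ^ N) := (IsLocalization.Away.algebraMap_isUnit (hN m h)).pow N
    refine hu.mul_right_cancel ?_
    rw [hp, hq, map_mul, map_pow, mul_comm]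
  · have hu : IsUnit (algebraMap (MvPolynomial (Option (Fin m)) k) (Localization.Away (hN m h'))
        (hN m h') ^ N') := (IsLocalization.Away.algebraMap_isUnit (hN m h')).pow N'
    refine hu.mul_right_cancel ?_
    rw [hp', hq', map_mul, map_pow, mul_comm]

end Pool.Agent.MG.W


end

section

/-!
# Module KNZ (PAPER K4): elements of a Krichever ring with prescribed leading coefficients
-/

namespace Pool.Agent.MG.G0

namespace KNZ

section

variable {I A : Type} [CommRing A]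

theorem exists_dense [Fintype I] {g : ℕ} {P : Subalgebra A (KK I A)} (h : IsKr g P) :
    ∃ N : ℕ, Dense P N := by
  classical
  obtain ⟨L, hL, hker⟩ := h.k2
  choose v hv using fun j : Fin g => hL (Pi.single j 1)
  choose n hn using fun j : Fin g => exists_Pol (v j)
  refine ⟨Finset.univ.sup n, fun f => ?_⟩
  have h0 : L (f - ∑ j, L f j • v j) = 0 := by
    rw [map_sub, map_sum]
    have h1 : ∀ j : Fin g, L (L f j • v j) = Pi.single j (L f j) := fun j => by
      rw [map_smul, hv]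
      funext k
      by_cases hk : k = j
      · subst hk
        simp
      · simp [Pi.single_eq_of_ne hk]
    rw [Finset.sum_congr rfl fun j _ => h1 j, Finset.univ_sum_single, sub_self]
  obtain ⟨p, hp, hp'⟩ := (hker _).1 h0
  refine ⟨p, hp, ?_⟩
  have h2 : f - p = (f - ∑ j, L f j • v j - p) + ∑ j, L f j • v j := by abel
  rw [h2]
  refine Submodule.add_mem _ (Pol_mono (Int.natCast_nonneg _) hp') ?_
  refine Submodule.sum_mem _ fun j _ => Submodule.smul_mem _ _ ?_
  refine Pol_mono ?_ (hn j)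
  exact_mod_cast Finset.le_sup (f := n) (Finset.mem_univ j)

theorem dense_mono {P : Subalgebra A (KK I A)} {N n : ℤ} (h : Dense P N) (hn : N ≤ n) :
    Dense P n := fun f => by
  obtain ⟨p, hp, hp'⟩ := h f
  exact ⟨p, hp, Pol_mono hn hp'⟩

theorem exists_lead {P : Subalgebra A (KK I A)} {N n : ℤ} (h : Dense P N) (hn : N < n)
    (a : I → A) : ∃ p ∈ P, p ∈ Pol I A n ∧ ∀ i, (p i).coeff (-n) = a i := by
  let f : KK I A := fun i => HahnSeries.single (-n) (a i)
  obtain ⟨p, hp, hp'⟩ := dense_mono h (show N ≤ n - 1 by omega) f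
  have hc : ∀ i m, m < -(n - 1) → (p i).coeff m = (f i).coeff m := fun i m hm => by
    have := hp' i m hm
    rw [Pi.sub_apply, HahnSeries.coeff_sub, sub_eq_zero] at this
    exact this.symm
  refine ⟨p, hp, fun i m hm => ?_, fun i => ?_⟩
  · rw [hc i m (by omega)]
    exact HahnSeries.coeff_single_of_ne (by omega)
  · rw [hc i (-n) (by omega)]
    exact HahnSeries.coeff_single_same _ _

end

end KNZ

theorem t_KNZ : Stmt_KNZ := fun {_ _} _ _ {_} {_} h =>
  ⟨KNZ.exists_dense h, fun N hN => ⟨fun n hn => KNZ.dense_mono hN hn,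
    fun n hn a => KNZ.exists_lead hN hn a, fun n hn => by
      obtain ⟨z, hz, hz', hz''⟩ := KNZ.exists_lead hN hn fun _ => 1
      exact ⟨z, hz, hz', hz''⟩⟩⟩

end Pool.Agent.MG.G0


end
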