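import Mathlib
import Pool.Agent.KDM.C06
import Pool.Agent.KDM.C07

/-! Parts: MG.Bub.Base, MG.Bub.Const, MG.Bub.Charts, MG.Bub.Fam, MG.Bub.Fam2, MG.Bub.Fam3, MG.Bub.Fam4, MG.Bub.Zero, MG.StmtsBub, MG.Bub.Open, MG.RIG, MG.COVI, MG.ALGW, MG.BRIG, MG.BSEC, MG.BGEN, MG.RIGW -/

section

/-!
# The charts of a curve and of its constant families as spectra
-/

open CategoryTheory CategoryTheory.Limits AlgebraicGeometry TensorProduct

namespace Pool.Agent.MG

section

variable {n : ℕ} {k : Type} [Field k] {C : Fam n k} {T : TC k} {ct : Charted T C}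

/-- `k ⊗ R ≅ R`. -/
noncomputable def lidE (k : Type) [Field k] (R : Type) [CommRing R] [Algebra k R] :
    k ⊗[k] R ≃+* R := (Algebra.TensorProduct.lid k R).toRingEquiv

/-- The first chart of `C` as an open immersion of a spectrum. -/
noncomputable def io1 (ha : ct.Aff) : Sp T.R1 ⟶ C.X :=
  spMap ((ct.eq1.symm.trans (lidE k T.R1) : Γ(C.X, ct.U1) ≃+* T.R1) : Γ(C.X, ct.U1) →+* T.R1) ≫
    ha.aff1.fromSpec

/-- The second chart of `C` as an open immersion of a spectrum. -/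
noncomputable def io2 (ha : ct.Aff) : Sp T.R2 ⟶ C.X :=
  spMap ((ct.eq2.symm.trans (lidE k T.R2) : Γ(C.X, ct.U2) ≃+* T.R2) : Γ(C.X, ct.U2) →+* T.R2) ≫
    ha.aff2.fromSpec

/-- The intersection of the charts of `C` as an open immersion of a spectrum. -/
noncomputable def io12 (ha : ct.Aff) : Sp T.R12 ⟶ C.X :=
  spMap ((ct.eq12.symm.trans (lidE k T.R12) : Γ(C.X, ct.U1 ⊓ ct.U2) ≃+* T.R12) :
    Γ(C.X, ct.U1 ⊓ ct.U2) →+* T.R12) ≫ ha.aff12.fromSpec

theorem isIso_spMap_equiv {A B : Type} [CommRing A] [CommRing B] (e : A ≃+* B) :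
    IsIso (spMap (e : A →+* B)) :=
  isIso_spMap _ e.bijective

instance (ha : ct.Aff) : IsOpenImmersion (io1 ha) := by
  unfold io1
  have := isIso_spMap_equiv (ct.eq1.symm.trans (lidE k T.R1))
  infer_instance

instance (ha : ct.Aff) : IsOpenImmersion (io2 ha) := by
  unfold io2
  have := isIso_spMap_equiv (ct.eq2.symm.trans (lidE k T.R2))
  infer_instance

instance (ha : ct.Aff) : IsOpenImmersion (io12 ha) := by
  unfold io12
  have := isIso_spMap_equiv (ct.eq12.symm.trans (lidE k T.R12))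
  infer_instance

theorem range_iso_comp {X Y Z : Scheme.{0}} (f : X ⟶ Y) (g : Y ⟶ Z) [IsIso f] :
    Set.range (f ≫ g) = Set.range g := by
  ext z
  constructor
  · rintro ⟨x, rfl⟩
    exact ⟨f x, by rw [← Scheme.Hom.comp_apply]⟩
  · rintro ⟨y, rfl⟩
    refine ⟨(inv f) y, ?_⟩
    rw [← Scheme.Hom.comp_apply, IsIso.inv_hom_id_assoc]

theorem range_io1 (ha : ct.Aff) : Set.range (io1 ha) = (ct.U1 : Set C.X) := by
  unfold io1
  have := isIso_spMap_equiv (ct.eq1.symm.trans (lidE k T.R1))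
  rw [range_iso_comp, ha.aff1.range_fromSpec]

theorem range_io2 (ha : ct.Aff) : Set.range (io2 ha) = (ct.U2 : Set C.X) := by
  unfold io2
  have := isIso_spMap_equiv (ct.eq2.symm.trans (lidE k T.R2))
  rw [range_iso_comp, ha.aff2.range_fromSpec]

theorem range_io12 (ha : ct.Aff) : Set.range (io12 ha) = (ct.U1 ⊓ ct.U2 : Set C.X) := by
  unfold io12
  have := isIso_spMap_equiv (ct.eq12.symm.trans (lidE k T.R12))
  rw [range_iso_comp, ha.aff12.range_fromSpec]
  rfl

theorem io12_eq1 (ha : ct.Aff) : spMap (T.j1 : T.R1 →+* T.R12) ≫ io1 ha = io12 ha := by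
  unfold io1 io12
  rw [← Category.assoc, ← spMap_comp]
  have h1 : (T.j1 : T.R1 →+* T.R12).comp
      ((ct.eq1.symm.trans (lidE k T.R1) : Γ(C.X, ct.U1) ≃+* T.R1) : Γ(C.X, ct.U1) →+* T.R1) =
      ((ct.eq12.symm.trans (lidE k T.R12) : Γ(C.X, ct.U1 ⊓ ct.U2) ≃+* T.R12) :
        Γ(C.X, ct.U1 ⊓ ct.U2) →+* T.R12).comp (rs C.X inf_le_left) := by
    ext v
    obtain ⟨w, rfl⟩ := ct.eq1.surjective v
    simp only [RingHom.comp_apply]
    change T.j1 (lidE k T.R1 (ct.eq1.symm (ct.eq1 w))) =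
      lidE k T.R12 (ct.eq12.symm (rs C.X inf_le_left (ct.t1 w)))
    rw [RingEquiv.symm_apply_apply, ct.rs1]
    have h2 : ct.eq12.symm (ct.t12 (Algebra.TensorProduct.map (AlgHom.id k k) T.j1 w)) =
        Algebra.TensorProduct.map (AlgHom.id k k) T.j1 w := ct.eq12.symm_apply_apply _
    rw [h2]
    clear h2
    induction w with
    | zero => simp
    | tmul a b =>
      change T.j1 (a • b) = a • (T.j1 b)
      rw [map_smul]
    | add u v hu hv => simp only [map_add, hu, hv]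
  rw [h1, spMap_comp, Category.assoc]
  congr 1
  exact ha.aff1.map_fromSpec ha.aff12 (homOfLE inf_le_left).op

theorem io12_eq2 (ha : ct.Aff) : spMap (T.j2 : T.R2 →+* T.R12) ≫ io2 ha = io12 ha := by
  unfold io2 io12
  rw [← Category.assoc, ← spMap_comp]
  have h1 : (T.j2 : T.R2 →+* T.R12).comp
      ((ct.eq2.symm.trans (lidE k T.R2) : Γ(C.X, ct.U2) ≃+* T.R2) : Γ(C.X, ct.U2) →+* T.R2) =
      ((ct.eq12.symm.trans (lidE k T.R12) : Γ(C.X, ct.U1 ⊓ ct.U2) ≃+* T.R12) :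
        Γ(C.X, ct.U1 ⊓ ct.U2) →+* T.R12).comp (rs C.X inf_le_right) := by
    ext v
    obtain ⟨w, rfl⟩ := ct.eq2.surjective v
    simp only [RingHom.comp_apply]
    change T.j2 (lidE k T.R2 (ct.eq2.symm (ct.eq2 w))) =
      lidE k T.R12 (ct.eq12.symm (rs C.X inf_le_right (ct.t2 w)))
    rw [RingEquiv.symm_apply_apply, ct.rs2]
    have h2 : ct.eq12.symm (ct.t12 (Algebra.TensorProduct.map (AlgHom.id k k) T.j2 w)) =
        Algebra.TensorProduct.map (AlgHom.id k k) T.j2 w := ct.eq12.symm_apply_apply _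
    rw [h2]
    clear h2
    induction w with
    | zero => simp
    | tmul a b =>
      change T.j2 (a • b) = a • (T.j2 b)
      rw [map_smul]
    | add u v hu hv => simp only [map_add, hu, hv]
  rw [h1, spMap_comp, Category.assoc]
  congr 1
  exact ha.aff2.map_fromSpec ha.aff12 (homOfLE inf_le_right).op

include C ct in
theorem j1_open (ha : ct.Aff) : IsOpenImmersion (spMap (T.j1 : T.R1 →+* T.R12)) := by
  have h : IsOpenImmersion (spMap (T.j1 : T.R1 →+* T.R12) ≫ io1 ha) := by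
    rw [io12_eq1]
    infer_instance
  exact IsOpenImmersion.of_comp _ (io1 ha)

include C ct in
theorem j2_open (ha : ct.Aff) : IsOpenImmersion (spMap (T.j2 : T.R2 →+* T.R12)) := by
  have h : IsOpenImmersion (spMap (T.j2 : T.R2 →+* T.R12) ≫ io2 ha) := by
    rw [io12_eq2]
    infer_instance
  exact IsOpenImmersion.of_comp _ (io2 ha)

theorem io_isPullback (ha : ct.Aff) : IsPullback (spMap (T.j1 : T.R1 →+* T.R12))
    (spMap (T.j2 : T.R2 →+* T.R12)) (io1 ha) (io2 ha) := by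
  have := j1_open ha
  refine (IsOpenImmersion.isPullback (spMap (T.j2 : T.R2 →+* T.R12))
    (spMap (T.j1 : T.R1 →+* T.R12)) (io2 ha) (io1 ha) (by rw [io12_eq1, io12_eq2]) ?_).flip
  ext x
  simp only [TopologicalSpace.Opens.map_coe, Scheme.Hom.coe_opensRange, Set.mem_preimage]
  constructor
  · intro hx
    have h1 : io1 ha x ∈ Set.range (io12 ha) := by
      rw [range_io12]
      refine ⟨?_, ?_⟩
      · rw [← range_io1 ha]
        exact ⟨x, rfl⟩
      · rw [← range_io2 ha]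
        exact hx
    obtain ⟨w, hw⟩ := h1
    refine ⟨w, (io1 ha).isOpenEmbedding.injective ?_⟩
    rw [← hw, ← io12_eq1, Scheme.Hom.comp_apply]
  · rintro ⟨w, rfl⟩
    refine ⟨spMap (T.j2 : T.R2 →+* T.R12) w, ?_⟩
    rw [← Scheme.Hom.comp_apply, io12_eq2, ← io12_eq1]
    rfl

theorem io_cover (ha : ct.Aff) (x : C.X) : x ∈ Set.range (io1 ha) ∨ x ∈ Set.range (io2 ha) := by
  rw [range_io1, range_io2]
  have h : x ∈ ct.U1 ⊔ ct.U2 := by
    rw [ct.cover]
    trivial
  exact h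

theorem tau_one (ha : ct.Aff) {B : Type} [CommRing B] [Algebra k B] (φ : T.R1 →ₐ[k] B) :
    tau ha (.one φ) = spMap (φ : T.R1 →+* B) ≫ io1 ha := by
  unfold tau io1
  rw [← Category.assoc, ← spMap_comp]
  rfl

theorem tau_two (ha : ct.Aff) {B : Type} [CommRing B] [Algebra k B] (φ : T.R2 →ₐ[k] B) :
    tau ha (.two φ) = spMap (φ : T.R2 →+* B) ≫ io2 ha := by
  unfold tau io2
  rw [← Category.assoc, ← spMap_comp]
  rfl

end

end Pool.Agent.MG


end

section

/-!
# The charts of constant families as spectra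
-/

set_option linter.unusedSectionVars false

open CategoryTheory CategoryTheory.Limits AlgebraicGeometry TensorProduct

namespace Pool.Agent.MG

section

theorem fromSpec_comp {A : Type} [CommRing A] {X : Scheme.{0}} (π : X ⟶ Sp A) {U : X.Opens}
    (hU : IsAffineOpen U) : hU.fromSpec ≫ π = spMap (coef π U) := by
  have h1 := IsAffineOpen.SpecMap_appLE_fromSpec π (isAffineOpen_top (Sp A)) hU
    (show U ≤ π ⁻¹ᵁ ⊤ from le_top)
  rw [← h1, coef_eq]
  change _ = Spec.map ((Scheme.ΓSpecIso (CommRingCat.of A)).inv ≫ π.appLE ⊤ U _)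
  rw [Spec.map_comp]
  congr 1
  rw [IsAffineOpen.fromSpec_top]
  exact Scheme.isoSpec_Spec_inv _

variable {n : ℕ} {k : Type} [Field k] {C : Fam n k} {T : TC k} {ct : Charted T C}

theorem io1_π (ha : ct.Aff) : io1 ha ≫ C.π = spMap (algebraMap k T.R1) := by
  unfold io1
  rw [Category.assoc, fromSpec_comp, ← spMap_comp]
  congr 1
  ext c
  simp only [RingHom.comp_apply]
  rw [← ct.c1]
  change lidE k T.R1 (ct.eq1.symm (ct.eq1 (c ⊗ₜ 1))) = _
  rw [RingEquiv.symm_apply_apply]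
  change c • (1 : T.R1) = _
  rw [Algebra.smul_def, mul_one]

theorem io2_π (ha : ct.Aff) : io2 ha ≫ C.π = spMap (algebraMap k T.R2) := by
  unfold io2
  rw [Category.assoc, fromSpec_comp, ← spMap_comp]
  congr 1
  ext c
  simp only [RingHom.comp_apply]
  rw [← ct.c2]
  change lidE k T.R2 (ct.eq2.symm (ct.eq2 (c ⊗ₜ 1))) = _
  rw [RingEquiv.symm_apply_apply]
  change c • (1 : T.R2) = _
  rw [Algebra.smul_def, mul_one]

theorem io12_π (ha : ct.Aff) : io12 ha ≫ C.π = spMap (algebraMap k T.R12) := by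
  rw [← io12_eq1, Category.assoc, io1_π, ← spMap_comp]
  congr 1
  ext c
  simp only [RingHom.comp_apply]
  exact T.j1.commutes c

variable (B : Type) [CommRing B] [Algebra k B]

variable (k) in
/-- `R → B ⊗ R`. -/
noncomputable def inR (R : Type) [CommRing R] [Algebra k R] : R →+* B ⊗[k] R :=
  (Algebra.TensorProduct.includeRight : R →ₐ[k] B ⊗[k] R).toRingHom

variable (k) in
/-- `B → B ⊗ R`. -/
noncomputable def inL (R : Type) [CommRing R] [Algebra k R] : B →+* B ⊗[k] R :=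
  algebraMap B (B ⊗[k] R)

@[simp] theorem inR_apply (R : Type) [CommRing R] [Algebra k R] (r : R) :
    inR k B R r = 1 ⊗ₜ[k] r := rfl

@[simp] theorem inL_apply (R : Type) [CommRing R] [Algebra k R] (b : B) :
    inL k B R b = b ⊗ₜ[k] 1 := rfl

variable {B} in
theorem tensor_hom_ext {R R' : Type} [CommRing R] [CommRing R'] [Algebra k R]
    {f g : B ⊗[k] R →+* R'} (h1 : ∀ b, f (b ⊗ₜ 1) = g (b ⊗ₜ 1)) (h2 : ∀ r, f (1 ⊗ₜ r) = g (1 ⊗ₜ r)) :
    f = g := RingHom.ext (tensor_ind h1 h2)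

theorem tens_isPullback (R : Type) [CommRing R] [Algebra k R] :
    IsPullback (spMap (inR k B R)) (spMap (inL k B R)) (spMap (algebraMap k R))
      (spMap (algebraMap k B)) := by
  apply spec_isPullback
  · ext c
    simp only [RingHom.comp_apply, inR_apply, inL_apply]
    rw [Algebra.algebraMap_eq_smul_one, Algebra.algebraMap_eq_smul_one, TensorProduct.smul_tmul]
  · intro S _ f g h
    let _ : Algebra k S := (f.comp (algebraMap k R)).toAlgebra
    let f' : R →ₐ[k] S := { f with commutes' := fun c => rfl }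
    let g' : B →ₐ[k] S := { g with commutes' := fun c => (congrArg (fun h => h c) h).symm }
    let L : B ⊗[k] R →ₐ[k] S := Algebra.TensorProduct.lift g' f' (fun _ _ => Commute.all _ _)
    have hL : ∀ b r, L (b ⊗ₜ r) = g b * f r := fun b r => Algebra.TensorProduct.lift_tmul _ _ _ b r
    refine ⟨L.toRingHom, ?_, ?_⟩
    · refine RingHom.ext fun r => ?_
      change L (1 ⊗ₜ r) = _
      rw [hL, map_one, one_mul]
    · refine RingHom.ext fun b => ?_
      change L (b ⊗ₜ 1) = _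
      rw [hL, map_one, mul_one]
  · intro S _ f g h1 h2
    apply tensor_hom_ext
    · intro b
      exact congrArg (fun h => h b) h2
    · intro r
      exact congrArg (fun h => h r) h1

/-- The base change of a chart. -/
noncomputable def kap {R : Type} [CommRing R] [Algebra k R] (ι : Sp R ⟶ C.X)
    (h : ι ≫ C.π = spMap (algebraMap k R)) :
    Sp (B ⊗[k] R) ⟶ pullback C.π (spMap (algebraMap k B)) :=
  pullback.lift (spMap (inR k B R) ≫ ι) (spMap (inL k B R)) (by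
    rw [Category.assoc, h]
    exact (tens_isPullback B R).w)

@[reassoc (attr := simp)] theorem kap_fst {R : Type} [CommRing R] [Algebra k R] (ι : Sp R ⟶ C.X)
    (h : ι ≫ C.π = spMap (algebraMap k R)) :
    kap B ι h ≫ pullback.fst _ _ = spMap (inR k B R) ≫ ι := pullback.lift_fst _ _ _

@[reassoc (attr := simp)] theorem kap_snd {R : Type} [CommRing R] [Algebra k R] (ι : Sp R ⟶ C.X)
    (h : ι ≫ C.π = spMap (algebraMap k R)) :
    kap B ι h ≫ pullback.snd _ _ = spMap (inL k B R) := pullback.lift_snd _ _ _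

theorem kap_isPullback {R : Type} [CommRing R] [Algebra k R] (ι : Sp R ⟶ C.X)
    (h : ι ≫ C.π = spMap (algebraMap k R)) :
    IsPullback (kap B ι h) (spMap (inR k B R)) (pullback.fst _ _) ι := by
  have h1 : IsPullback (pullback.snd C.π (spMap (algebraMap k B))) (pullback.fst _ _)
    (spMap (algebraMap k B)) C.π := (IsPullback.of_hasPullback _ _).flip
  refine IsPullback.of_right (h₁₂ := pullback.snd C.π (spMap (algebraMap k B)))
    (h₂₂ := C.π) (v₁₃ := spMap (algebraMap k B)) ?_ (by simp) h1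
  rw [kap_snd, h]
  exact (tens_isPullback B R).flip

instance {R : Type} [CommRing R] [Algebra k R] (ι : Sp R ⟶ C.X) [IsOpenImmersion ι]
    (h : ι ≫ C.π = spMap (algebraMap k R)) : IsOpenImmersion (kap B ι h) :=
  MorphismProperty.of_isPullback (kap_isPullback B ι h).flip inferInstance

end

end Pool.Agent.MG


end

section

/-!
# The charts of the bubble: flatness, étale coordinates
-/

set_option linter.unusedSectionVars false

open CategoryTheory CategoryTheory.Limits AlgebraicGeometry TensorProduct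

namespace Pool.Agent.MG

section Flat

open Polynomial

theorem flat_of_poly {k D : Type} [Field k] [CommRing D] [IsDomain D] (g : k[X] →+* D)
    (hg : Function.Injective g) : g.Flat := by
  let _ : Algebra k[X] D := g.toAlgebra
  change Module.Flat k[X] D
  rw [Module.Flat.flat_iff_torsion_eq_bot_of_isBezout, eq_bot_iff]
  intro x hx
  obtain ⟨⟨a, ha⟩, hax⟩ := hx
  have h1 : g a * x = 0 := hax
  rcases mul_eq_zero.1 h1 with h | h
  · exfalso
    have h2 : a = 0 := hg (by rw [h, map_zero])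
    exact nonZeroDivisors.ne_zero ha h2
  · exact h

variable {k : Type} [Field k] {R : Type} [CommRing R] [Algebra k R] [IsDomain R] (z0 : R)

/-- `k[X] → R[w]`, `X ↦ z w`. -/
noncomputable def zw : k[X] →ₐ[k] R[X] := aeval (C z0 * X)

theorem zw_injective (hz : z0 ≠ 0) : Function.Injective (zw (k := k) z0) := by
  rw [injective_iff_map_eq_zero]
  intro p hp
  ext i
  have h1 : (zw (k := k) z0 p).coeff i = algebraMap k R (p.coeff i) * z0 ^ i := by
    have h2 : zw (k := k) z0 p = (p.map (algebraMap k R)).comp (C z0 * X) := by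
      unfold zw
      rw [comp, eval₂_map, aeval_def]
      rfl
    rw [h2, comp_C_mul_X_coeff, coeff_map]
  rw [hp, coeff_zero] at h1
  rcases mul_eq_zero.1 h1.symm with h | h
  · rw [coeff_zero]
    exact (algebraMap k R).injective (by rw [h, map_zero])
  · exact absurd h (pow_ne_zero _ hz)

variable (k) in
/-- The universal first chart. -/
abbrev NU (z0 : R) : Type _ := NR ((1 : k[X]) ⊗ₜ[k] z0) ((X : k[X]) ⊗ₜ[k] (1 : R))

/-- The universal first chart is `R[w]`. -/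
noncomputable def nuF : NU k z0 →+* R[X] :=
  nrLift (Algebra.TensorProduct.lift (zw z0) (Algebra.ofId R R[X] |>.restrictScalars k)
    (fun _ _ => Commute.all _ _)).toRingHom X (by
      change Algebra.TensorProduct.lift _ _ _ _ * _ = Algebra.TensorProduct.lift _ _ _ _
      rw [Algebra.TensorProduct.lift_tmul, Algebra.TensorProduct.lift_tmul, map_one, map_one,
        one_mul, mul_one]
      unfold zw
      rw [aeval_X]
      rfl)

theorem nuF_of (p : k[X]) (r : R) :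
    nuF z0 (algebraMap (k[X] ⊗[k] R) (NU k z0) (p ⊗ₜ[k] r)) = zw z0 p * C r := by
  unfold nuF
  rw [nrLift_of]
  exact Algebra.TensorProduct.lift_tmul _ _ _ p r

theorem nuF_w : nuF (k := k) z0 (nw _ _) = X := nrLift_w _ _ _

theorem nuF_bijective : Function.Bijective (nuF (k := k) z0) := by
  let G : R[X] →+* NU k z0 :=
    eval₂RingHom ((algebraMap (k[X] ⊗[k] R) (NU k z0)).comp (inR k k[X] R)) (nw _ _)
  have hGC : ∀ r, G (C r) = algebraMap (k[X] ⊗[k] R) (NU k z0) ((1 : k[X]) ⊗ₜ[k] r) :=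
    fun r => eval₂_C _ _
  have hGX : G X = nw _ _ := eval₂_X _ _
  have h1 : (nuF z0).comp G = RingHom.id _ := by
    apply Polynomial.ringHom_ext
    · intro r
      rw [RingHom.comp_apply, hGC, nuF_of, map_one, one_mul]
      rfl
    · rw [RingHom.comp_apply, hGX, nuF_w]
      rfl
  have h2 : G.comp (nuF z0) = RingHom.id _ := by
    apply nr_hom_ext
    · intro t
      change ((G.comp (nuF z0)).comp (algebraMap (k[X] ⊗[k] R) (NU k z0))) t =
        (algebraMap (k[X] ⊗[k] R) (NU k z0)) t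
      have h3 : (G.comp (nuF z0)).comp (algebraMap (k[X] ⊗[k] R) (NU k z0)) =
          algebraMap (k[X] ⊗[k] R) (NU k z0) := by
        apply tensor_hom_ext
        · intro p
          change ((G.comp (nuF z0)).comp ((algebraMap (k[X] ⊗[k] R) (NU k z0)).comp
            (inL k k[X] R))) p = ((algebraMap (k[X] ⊗[k] R) (NU k z0)).comp (inL k k[X] R)) p
          congr 1
          apply Polynomial.ringHom_ext
          · intro c
            simp only [RingHom.comp_apply, inL_apply]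
            rw [nuF_of, map_one, mul_one]
            have h4 : zw z0 (C c) = C (algebraMap k R c) := (zw z0).commutes c
            rw [h4, hGC]
            congr 1
            have h5 : (C c : k[X]) = c • 1 := by rw [smul_eq_C_mul, mul_one]
            rw [h5, Algebra.algebraMap_eq_smul_one, TensorProduct.smul_tmul]
          · simp only [RingHom.comp_apply, inL_apply]
            rw [nuF_of, map_one, mul_one]
            unfold zw
            rw [aeval_X, map_mul, hGC, hGX, nw_rel]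
        · intro r
          simp only [RingHom.comp_apply]
          rw [nuF_of, map_one, one_mul, hGC]
      rw [h3]
    · rw [RingHom.comp_apply, nuF_w, hGX]
      rfl
  refine ⟨fun a b hab => ?_, fun b => ⟨G b, congrArg (fun f => f b) h1⟩⟩
  have := congrArg G hab
  have h3 : ∀ a, G (nuF z0 a) = a := fun a => congrArg (fun f => f a) h2
  rwa [h3, h3] at this

theorem nuni_flat (hz : z0 ≠ 0) :
    ((algebraMap (k[X] ⊗[k] R) (NU k z0)).comp (inL k k[X] R)).Flat := by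
  rw [← RingHom.Flat.comp_iff_of_bijective_left (nuF_bijective z0)]
  apply flat_of_poly
  intro p q hpq
  simp only [RingHom.comp_apply, inL_apply] at hpq
  rw [nuF_of, nuF_of, map_one, mul_one, mul_one] at hpq
  exact zw_injective z0 hz hpq

end Flat

section BC

variable {k : Type} [Field k] {B B' : Type} [CommRing B] [Algebra k B] [CommRing B']
  [Algebra k B'] (ψ : B →ₐ[k] B') (R : Type) [CommRing R] [Algebra k R]

/-- `B ⊗ R → B' ⊗ R`. -/
noncomputable def tmap : B ⊗[k] R →+* B' ⊗[k] R :=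
  (Algebra.TensorProduct.map ψ (AlgHom.id k R)).toRingHom

@[simp] theorem tmap_tmul (b : B) (r : R) : tmap ψ R (b ⊗ₜ r) = ψ b ⊗ₜ r :=
  Algebra.TensorProduct.map_tmul _ _ _ _

theorem tmap_isPullback :
    IsPullback (spMap (tmap ψ R)) (spMap (inL k B' R)) (spMap (inL k B R))
      (spMap (ψ : B →+* B')) := by
  refine IsPullback.of_right (h₁₂ := spMap (inR k B R)) (h₂₂ := spMap (algebraMap k B))
    (v₁₃ := spMap (algebraMap k R)) ?_ ?_ (tens_isPullback B R)
  · rw [← spMap_comp, ← spMap_comp]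
    have h1 : (tmap ψ R).comp (inR k B R) = inR k B' R := by
      ext r
      simp
    have h2 : (ψ : B →+* B').comp (algebraMap k B) = algebraMap k B' := ψ.comp_algebraMap
    rw [h1, h2]
    exact tens_isPullback B' R
  · rw [← spMap_comp, ← spMap_comp]
    congr 1

variable {ψ} in
theorem tens_scalar (c : k) :
    (1 : B) ⊗ₜ[k] (algebraMap k R c) = (algebraMap k B c) ⊗ₜ[k] (1 : R) := by
  have h1 : algebraMap k R c = c • 1 := Algebra.algebraMap_eq_smul_one c
  have h2 : algebraMap k B c = c • 1 := Algebra.algebraMap_eq_smul_one c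
  rw [h1, h2, TensorProduct.smul_tmul]

variable {ψ R} in
theorem tens_lift {S : Type} [CommRing S] (g : B →+* S) (f : R →+* S)
    (h : ∀ c : k, f (algebraMap k R c) = g (algebraMap k B c)) :
    ∃ L : B ⊗[k] R →+* S, (∀ b, L (b ⊗ₜ 1) = g b) ∧ ∀ r, L (1 ⊗ₜ r) = f r := by
  let _ : Algebra k S := (f.comp (algebraMap k R)).toAlgebra
  let f' : R →ₐ[k] S := { f with commutes' := fun c => rfl }
  let g' : B →ₐ[k] S := { g with commutes' := fun c => (h c).symm }
  let L : B ⊗[k] R →ₐ[k] S := Algebra.TensorProduct.lift g' f' (fun _ _ => Commute.all _ _)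
  have hL : ∀ b r, L (b ⊗ₜ r) = g b * f r := fun b r => Algebra.TensorProduct.lift_tmul _ _ _ b r
  refine ⟨L.toRingHom, fun b => ?_, fun r => ?_⟩
  · change L (b ⊗ₜ 1) = _
    rw [hL, map_one, mul_one]
  · change L (1 ⊗ₜ r) = _
    rw [hL, map_one, one_mul]

/-- A property of the first chart which is stable under base change can be checked on a base change
square. -/
theorem nr_bc (P : MorphismProperty Scheme.{0}) [P.IsStableUnderBaseChange] {B0 B1 A A' : Type}
    [CommRing B0] [CommRing B1] [CommRing A] [CommRing A'] (χ : A →+* A') (l : B0 →+* A)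
    (l' : B1 →+* A') (χ0 : B0 →+* B1)
    (sq : IsPullback (spMap χ) (spMap l') (spMap l) (spMap χ0)) (z s : A) (z' s' : A')
    (hz : z' = χ z) (hs : s' = χ s) (h : P (spMap ((algebraMap A (NR z s)).comp l))) :
    P (spMap ((algebraMap A' (NR z' s')).comp l')) := by
  subst hz hs
  have h1 := (nrMap_isPullback χ z s).paste_vert sq
  rw [← spMap_comp, ← spMap_comp] at h1
  exact MorphismProperty.of_isPullback h1 h

open Polynomial in
theorem nchart_flat [IsDomain R] (z0 : R) (hz : z0 ≠ 0) (b : B) :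
    Flat (spMap ((algebraMap (B ⊗[k] R) (NR ((1 : B) ⊗ₜ[k] z0) (b ⊗ₜ[k] (1 : R)))).comp
      (inL k B R))) := by
  refine nr_bc @Flat (tmap (aeval b : k[X] →ₐ[k] B) R) (inL k k[X] R) (inL k B R) _
    (tmap_isPullback (aeval b : k[X] →ₐ[k] B) R) ((1 : k[X]) ⊗ₜ[k] z0) ((X : k[X]) ⊗ₜ[k] (1 : R))
    _ _ (by simp) (by simp) ?_
  exact Flat.SpecMap_iff.2 (nuni_flat z0 hz)

end BC

section Etale

open Polynomial

variable {k : Type} [Field k] {B : Type} [CommRing B] [Algebra k B] {R : Type} [CommRing R]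
  [Algebra k R] (z0 : R) (b : B)

/-- The coordinate `Y` on the second chart. -/
noncomputable def yM : B[X] →+* NR (b ⊗ₜ[k] (1 : R)) ((1 : B) ⊗ₜ[k] z0) :=
  eval₂RingHom ((algebraMap (B ⊗[k] R) (NR (b ⊗ₜ[k] (1 : R)) ((1 : B) ⊗ₜ[k] z0))).comp
    (inL k B R)) (nw _ _)

theorem yM_C (c : B) : yM (k := k) z0 b (C c) = algebraMap (B ⊗[k] R) _ (c ⊗ₜ 1) := eval₂_C _ _

theorem yM_X : yM (k := k) z0 b X = nw _ _ := eval₂_X _ _

theorem yM_isPullback : IsPullback
    (spMap ((algebraMap (B ⊗[k] R) (NR (b ⊗ₜ[k] (1 : R)) ((1 : B) ⊗ₜ[k] z0))).comp (inR k B R)))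
    (spMap (yM (k := k) z0 b)) (spMap ((aeval z0 : k[X] →ₐ[k] R) : k[X] →+* R))
    (spMap ((aeval (C b * X) : k[X] →ₐ[k] B[X]) : k[X] →+* B[X])) := by
  apply spec_isPullback
  · apply Polynomial.ringHom_ext
    · intro c
      simp only [RingHom.comp_apply, RingHom.coe_coe, inR_apply]
      have h1 : (aeval z0 : k[X] →ₐ[k] R) (C c) = algebraMap k R c :=
        (aeval z0 : k[X] →ₐ[k] R).commutes c
      have h2 : (aeval (C b * X) : k[X] →ₐ[k] B[X]) (C c) = C (algebraMap k B c) :=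
        (aeval (C b * X) : k[X] →ₐ[k] B[X]).commutes c
      rw [h1, h2, yM_C, tens_scalar]
    · simp only [RingHom.comp_apply, RingHom.coe_coe, inR_apply]
      rw [aeval_X, aeval_X, map_mul, yM_C, yM_X, nw_rel]
  · intro S _ f g h
    have hC : ∀ c : k, f (algebraMap k R c) = (g.comp C) (algebraMap k B c) := by
      intro c
      have h1 := congrArg (fun t => t (C c)) h
      simp only [RingHom.comp_apply, RingHom.coe_coe] at h1
      have h2 : (aeval z0 : k[X] →ₐ[k] R) (C c) = algebraMap k R c :=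
        (aeval z0 : k[X] →ₐ[k] R).commutes c
      have h3 : (aeval (C b * X) : k[X] →ₐ[k] B[X]) (C c) = C (algebraMap k B c) :=
        (aeval (C b * X) : k[X] →ₐ[k] B[X]).commutes c
      rw [h2, h3] at h1
      exact h1
    obtain ⟨L, hL1, hL2⟩ := tens_lift (g.comp C) f hC
    have hX : g (C b) * g X = f z0 := by
      have h1 := congrArg (fun t => t X) h
      simp only [RingHom.comp_apply, RingHom.coe_coe, aeval_X, map_mul] at h1
      exact h1.symm
    refine ⟨nrLift L (g X) ?_, ?_, ?_⟩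
    · rw [hL1, hL2]
      exact hX
    · refine RingHom.ext fun r => ?_
      simp only [RingHom.comp_apply, inR_apply]
      rw [nrLift_of, hL2]
    · apply Polynomial.ringHom_ext
      · intro c
        rw [RingHom.comp_apply, yM_C, nrLift_of, hL1]
        rfl
      · rw [RingHom.comp_apply, yM_X, nrLift_w]
  · intro S _ f g h1 h2
    apply nr_hom_ext
    · intro t
      change (f.comp (algebraMap (B ⊗[k] R) _)) t = (g.comp (algebraMap (B ⊗[k] R) _)) t
      congr 1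
      apply tensor_hom_ext
      · intro c
        have := congrArg (fun t => t (C c)) h2
        simp only [RingHom.comp_apply] at this
        rw [yM_C] at this
        exact this
      · intro r
        exact congrArg (fun t => t r) h1
    · have := congrArg (fun t => t X) h2
      simp only [RingHom.comp_apply] at this
      rw [yM_X] at this
      exact this

theorem yM_etale (h : Etale (spMap ((aeval z0 : k[X] →ₐ[k] R) : k[X] →+* R))) :
    Etale (spMap (yM (k := k) z0 b)) :=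
  MorphismProperty.of_isPullback (yM_isPullback z0 b) h

theorem poly_smooth : Smooth (spMap (C : B →+* B[X])) := by
  rw [HasRingHomProperty.Spec_iff (P := @Smooth)]
  change RingHom.Smooth (algebraMap B B[X])
  rw [RingHom.smooth_algebraMap]
  exact ⟨inferInstance, inferInstance⟩

theorem ychart_smooth (h : Etale (spMap ((aeval z0 : k[X] →ₐ[k] R) : k[X] →+* R))) :
    Smooth (spMap ((algebraMap (B ⊗[k] R) (NR (b ⊗ₜ[k] (1 : R)) ((1 : B) ⊗ₜ[k] z0))).comp
      (inL k B R))) := by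
  have h1 : (algebraMap (B ⊗[k] R) (NR (b ⊗ₜ[k] (1 : R)) ((1 : B) ⊗ₜ[k] z0))).comp
      (inL k B R) = (yM (k := k) z0 b).comp C := by
    ext c
    simp only [RingHom.comp_apply, inL_apply]
    rw [yM_C]
  rw [h1, spMap_comp]
  have := yM_etale z0 b h
  have := poly_smooth (B := B)
  infer_instance

end Etale

end Pool.Agent.MG


end

section

/-!
# The bubble family
-/

set_option linter.unusedSectionVars false

open CategoryTheory CategoryTheory.Limits AlgebraicGeometry TensorProduct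

namespace Pool.Agent.MG

section Maps

variable {k : Type} [Field k] {T : TC k} (B : Type) [CommRing B] [Algebra k B]

/-- `B ⊗ R → B ⊗ R'`. -/
noncomputable def bmap {R R' : Type} [CommRing R] [CommRing R'] [Algebra k R] [Algebra k R']
    (j : R →ₐ[k] R') : B ⊗[k] R →+* B ⊗[k] R' :=
  (Algebra.TensorProduct.map (AlgHom.id k B) j).toRingHom

@[simp] theorem bmap_tmul {R R' : Type} [CommRing R] [CommRing R'] [Algebra k R] [Algebra k R']
    (j : R →ₐ[k] R') (b : B) (r : R) : bmap B j (b ⊗ₜ r) = b ⊗ₜ j r :=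
  Algebra.TensorProduct.map_tmul _ _ _ _

theorem bmap_inL {R R' : Type} [CommRing R] [CommRing R'] [Algebra k R] [Algebra k R']
    (j : R →ₐ[k] R') : (bmap B j).comp (inL k B R) = inL k B R' := by
  ext b
  simp

theorem bmap_inR {R R' : Type} [CommRing R] [CommRing R'] [Algebra k R] [Algebra k R']
    (j : R →ₐ[k] R') : (bmap B j).comp (inR k B R) = (inR k B R').comp (j : R →+* R') := by
  ext b
  simp

theorem bmap_isPullback {R R' : Type} [CommRing R] [CommRing R'] [Algebra k R] [Algebra k R']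
    (j : R →ₐ[k] R') {B' : Type} [CommRing B'] [Algebra k B'] (ψ : B →ₐ[k] B') :
    IsPullback (spMap (tmap ψ R')) (spMap (bmap B' j)) (spMap (bmap B j)) (spMap (tmap ψ R)) := by
  refine IsPullback.of_bot (h₃₁ := spMap (ψ : B →+* B')) (v₂₁ := spMap (inL k B' R))
    (v₂₂ := spMap (inL k B R)) ?_ ?_ (tmap_isPullback ψ R)
  · rw [← spMap_comp, ← spMap_comp, bmap_inL, bmap_inL]
    exact tmap_isPullback ψ R'
  · rw [← spMap_comp, ← spMap_comp]
    congr 1
    apply tensor_hom_ext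
    · intro b
      simp
    · intro r
      simp

variable {B} in
@[simp] theorem extA_tmul {R : Type} [CommRing R] [Algebra k R] (φ : R →ₐ[k] B) (b : B) (r : R) :
    extA φ (b ⊗ₜ r) = b * φ r := by
  unfold extA
  rw [Algebra.TensorProduct.lift_tmul]
  rfl

end Maps

section Charts

variable {n : ℕ} {k : Type} [Field k] {C : Fam n k} {T : TC k} {ct : Charted T C}
  (ha : ct.Aff) (B : Type) [CommRing B] [Algebra k B]

/-- The first chart of the constant family. -/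
noncomputable def ka1 : Sp (B ⊗[k] T.R1) ⟶ pullback C.π (spMap (algebraMap k B)) :=
  kap B (io1 ha) (io1_π ha)

/-- The second chart of the constant family. -/
noncomputable def ka2 : Sp (B ⊗[k] T.R2) ⟶ pullback C.π (spMap (algebraMap k B)) :=
  kap B (io2 ha) (io2_π ha)

/-- The intersection of the charts of the constant family. -/
noncomputable def ka12 : Sp (B ⊗[k] T.R12) ⟶ pullback C.π (spMap (algebraMap k B)) :=
  kap B (io12 ha) (io12_π ha)

instance : IsOpenImmersion (ka1 ha B) := by unfold ka1; infer_instance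

instance : IsOpenImmersion (ka2 ha B) := by unfold ka2; infer_instance

instance : IsOpenImmersion (ka12 ha B) := by unfold ka12; infer_instance

theorem ka12_eq1 : spMap (bmap B T.j1) ≫ ka1 ha B = ka12 ha B := by
  unfold ka1 ka12
  apply pullback.hom_ext
  · rw [Category.assoc, kap_fst, kap_fst, ← Category.assoc, ← spMap_comp, bmap_inR, spMap_comp,
      Category.assoc, io12_eq1]
  · rw [Category.assoc, kap_snd, kap_snd, ← spMap_comp, bmap_inL]

theorem ka12_eq2 : spMap (bmap B T.j2) ≫ ka2 ha B = ka12 ha B := by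
  unfold ka2 ka12
  apply pullback.hom_ext
  · rw [Category.assoc, kap_fst, kap_fst, ← Category.assoc, ← spMap_comp, bmap_inR, spMap_comp,
      Category.assoc, io12_eq2]
  · rw [Category.assoc, kap_snd, kap_snd, ← spMap_comp, bmap_inL]

include C ct ha in
theorem bj1_open : IsOpenImmersion (spMap (bmap B T.j1)) := by
  have h : IsOpenImmersion (spMap (bmap B T.j1) ≫ ka1 ha B) := by
    rw [ka12_eq1]
    infer_instance
  exact IsOpenImmersion.of_comp _ (ka1 ha B)

include C ct ha in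
theorem bj2_open : IsOpenImmersion (spMap (bmap B T.j2)) := by
  have h : IsOpenImmersion (spMap (bmap B T.j2) ≫ ka2 ha B) := by
    rw [ka12_eq2]
    infer_instance
  exact IsOpenImmersion.of_comp _ (ka2 ha B)

theorem ka_cover (x : (pullback C.π (spMap (algebraMap k B)) : Scheme.{0})) :
    x ∈ Set.range (ka1 ha B) ∨ x ∈ Set.range (ka2 ha B) := by
  rcases io_cover ha (pullback.fst C.π (spMap (algebraMap k B)) x) with ⟨y, hy⟩ | ⟨y, hy⟩
  · left
    obtain ⟨w, hw, -⟩ := Scheme.exists_preimage_of_isPullback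
      (kap_isPullback B (io1 ha) (io1_π ha)) x y hy.symm
    exact ⟨w, hw⟩
  · right
    obtain ⟨w, hw, -⟩ := Scheme.exists_preimage_of_isPullback
      (kap_isPullback B (io2 ha) (io2_π ha)) x y hy.symm
    exact ⟨w, hw⟩

theorem ka_isPullback : IsPullback (spMap (bmap B T.j1)) (spMap (bmap B T.j2)) (ka1 ha B)
    (ka2 ha B) := by
  have := bj1_open ha B
  refine (IsOpenImmersion.isPullback (spMap (bmap B T.j2)) (spMap (bmap B T.j1)) (ka2 ha B)
    (ka1 ha B) (by rw [ka12_eq1, ka12_eq2]) ?_).flip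
  ext x
  simp only [TopologicalSpace.Opens.map_coe, Scheme.Hom.coe_opensRange, Set.mem_preimage]
  constructor
  · rintro ⟨y, hy⟩
    have h1 : pullback.fst C.π (spMap (algebraMap k B)) (ka1 ha B x) ∈ Set.range (io12 ha) := by
      rw [range_io12]
      constructor
      · rw [← range_io1 ha]
        refine ⟨spMap (inR k B T.R1) x, ?_⟩
        have h2 : ka1 ha B ≫ pullback.fst _ _ = spMap (inR k B T.R1) ≫ io1 ha := kap_fst _ _ _
        rw [← Scheme.Hom.comp_apply, ← h2, Scheme.Hom.comp_apply]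
      · rw [← range_io2 ha, ← hy]
        refine ⟨spMap (inR k B T.R2) y, ?_⟩
        have h2 : ka2 ha B ≫ pullback.fst _ _ = spMap (inR k B T.R2) ≫ io2 ha := kap_fst _ _ _
        rw [← Scheme.Hom.comp_apply, ← h2, Scheme.Hom.comp_apply]
    obtain ⟨w, hw⟩ := h1
    obtain ⟨v, hv, -⟩ := Scheme.exists_preimage_of_isPullback
      (kap_isPullback B (io12 ha) (io12_π ha)) _ w hw.symm
    refine ⟨v, (ka1 ha B).isOpenEmbedding.injective ?_⟩
    rw [← Scheme.Hom.comp_apply, ka12_eq1]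
    exact hv
  · rintro ⟨w, rfl⟩
    refine ⟨spMap (bmap B T.j2) w, ?_⟩
    rw [← Scheme.Hom.comp_apply, ka12_eq2, ← ka12_eq1, Scheme.Hom.comp_apply]

end Charts

end Pool.Agent.MG


end

section

/-!
# The bubble family: definition, properness, flatness, base change
-/

set_option linter.unusedSectionVars false

open CategoryTheory CategoryTheory.Limits AlgebraicGeometry TensorProduct

namespace Pool.Agent.MG

section

variable {n : ℕ} {k : Type} [Field k] {C : Fam n k} {T : TC k} {ct : Charted T C}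
  (ha : ct.Aff) (z0 : T.R1) (hz0 : IsUnit (T.j1 z0)) (B : Type) [CommRing B] [Algebra k B] (b : B)

include hz0 in
theorem bz_unit : IsUnit (bmap B T.j1 ((1 : B) ⊗ₜ[k] z0)) := by
  rw [bmap_tmul]
  exact hz0.map (Algebra.TensorProduct.includeRight : T.R12 →ₐ[k] B ⊗[k] T.R12)

/-- The total space of the bubble family over `B`: the blow up of `V₁ × Spec B` in `(z, b)`, glued
with `V₂ × Spec B`. -/
noncomputable def bX : Scheme.{0} :=
  have := bj1_open ha B
  have := bj2_open ha B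
  Bub (bmap B T.j1) (bmap B T.j2) ((1 : B) ⊗ₜ[k] z0) (b ⊗ₜ[k] (1 : T.R1)) (bz_unit z0 hz0 B)

/-- The blown up chart. -/
noncomputable def bL : Bl ((1 : B) ⊗ₜ[k] z0) (b ⊗ₜ[k] (1 : T.R1)) ⟶ bX ha z0 hz0 B b :=
  have := bj1_open ha B
  have := bj2_open ha B
  bubl (bmap B T.j1) (bmap B T.j2) ((1 : B) ⊗ₜ[k] z0) (b ⊗ₜ[k] (1 : T.R1)) (bz_unit z0 hz0 B)

/-- The second chart. -/
noncomputable def bR : Sp (B ⊗[k] T.R2) ⟶ bX ha z0 hz0 B b :=
  have := bj1_open ha B
  have := bj2_open ha B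
  bubr (bmap B T.j1) (bmap B T.j2) ((1 : B) ⊗ₜ[k] z0) (b ⊗ₜ[k] (1 : T.R1)) (bz_unit z0 hz0 B)

/-- The intersection of the two charts in the blown up chart. -/
noncomputable def bJ : Sp (B ⊗[k] T.R12) ⟶ Bl ((1 : B) ⊗ₜ[k] z0) (b ⊗ₜ[k] (1 : T.R1)) :=
  blj (bmap B T.j1) ((1 : B) ⊗ₜ[k] z0) (b ⊗ₜ[k] (1 : T.R1)) (bz_unit z0 hz0 B)

/-- The contraction. -/
noncomputable def bC : bX ha z0 hz0 B b ⟶ pullback C.π (spMap (algebraMap k B)) :=
  have := bj1_open ha B
  have := bj2_open ha B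
  bubc (bmap B T.j1) (bmap B T.j2) ((1 : B) ⊗ₜ[k] z0) (b ⊗ₜ[k] (1 : T.R1)) (bz_unit z0 hz0 B)
    (ka1 ha B) (ka2 ha B) (ka_isPullback ha B).w

instance : IsOpenImmersion (bL ha z0 hz0 B b) := by
  have := bj1_open ha B
  have := bj2_open ha B
  exact inferInstanceAs (IsOpenImmersion (bubl (bmap B T.j1) (bmap B T.j2) ((1 : B) ⊗ₜ[k] z0)
    (b ⊗ₜ[k] (1 : T.R1)) (bz_unit z0 hz0 B)))

instance : IsOpenImmersion (bR ha z0 hz0 B b) := by
  have := bj1_open ha B
  have := bj2_open ha B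
  exact inferInstanceAs (IsOpenImmersion (bubr (bmap B T.j1) (bmap B T.j2) ((1 : B) ⊗ₜ[k] z0)
    (b ⊗ₜ[k] (1 : T.R1)) (bz_unit z0 hz0 B)))

include ha in
theorem bJ_open : IsOpenImmersion (bJ z0 hz0 B b) := by
  have := bj1_open ha B
  unfold bJ
  infer_instance

include ha in
theorem bJ_isPullback : IsPullback (bJ z0 hz0 B b) (𝟙 _) (blπ _ _) (spMap (bmap B T.j1)) := by
  have := bj1_open ha B
  exact blj_isPullback _ _ _ _

include ha in
@[reassoc] theorem bJ_π : bJ z0 hz0 B b ≫ blπ _ _ = spMap (bmap B T.j1) := by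
  have := bj1_open ha B
  exact blj_π _ _ _ _

@[reassoc] theorem b_cond : bJ z0 hz0 B b ≫ bL ha z0 hz0 B b =
    spMap (bmap B T.j2) ≫ bR ha z0 hz0 B b := by
  have := bj1_open ha B
  have := bj2_open ha B
  exact bub_cond _ _ _ _ _

theorem b_isPullback : IsPullback (bJ z0 hz0 B b) (spMap (bmap B T.j2)) (bL ha z0 hz0 B b)
    (bR ha z0 hz0 B b) := by
  have := bj1_open ha B
  have := bj2_open ha B
  exact bub_isPullback _ _ _ _ _

theorem b_cover (x : bX ha z0 hz0 B b) :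
    x ∈ Set.range (bL ha z0 hz0 B b) ∨ x ∈ Set.range (bR ha z0 hz0 B b) := by
  have := bj1_open ha B
  have := bj2_open ha B
  exact bub_cover _ _ _ _ _ x

@[reassoc (attr := simp)] theorem bL_C :
    bL ha z0 hz0 B b ≫ bC ha z0 hz0 B b = blπ _ _ ≫ ka1 ha B := by
  have := bj1_open ha B
  have := bj2_open ha B
  exact bubl_c _ _ _ _ _ _ _ (ka_isPullback ha B).w

@[reassoc (attr := simp)] theorem bR_C : bR ha z0 hz0 B b ≫ bC ha z0 hz0 B b = ka2 ha B := by
  have := bj1_open ha B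
  have := bj2_open ha B
  exact bubr_c _ _ _ _ _ _ _ (ka_isPullback ha B).w

theorem bC_isPullback1 : IsPullback (bL ha z0 hz0 B b) (blπ _ _) (bC ha z0 hz0 B b)
    (ka1 ha B) := by
  have := bj1_open ha B
  have := bj2_open ha B
  exact bubc_isPullback1 _ _ _ _ _ _ _ (ka_isPullback ha B)

theorem bC_isPullback2 : IsPullback (bR ha z0 hz0 B b) (𝟙 _) (bC ha z0 hz0 B b)
    (ka2 ha B) := by
  have := bj1_open ha B
  have := bj2_open ha B
  exact bubc_isPullback2 _ _ _ _ _ _ _ (ka_isPullback ha B)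

instance bC_proper : IsProper (bC ha z0 hz0 B b) := by
  have := bj1_open ha B
  have := bj2_open ha B
  exact bubc_proper _ _ _ _ _ _ _ (ka_isPullback ha B) (ka_cover ha B)

theorem bC_isIso (hb : IsUnit b) : IsIso (bC ha z0 hz0 B b) := by
  have := bj1_open ha B
  have := bj2_open ha B
  exact bubc_isIso _ _ _ _ _ _ _ (ka_isPullback ha B) (ka_cover ha B)
    (hb.map (Algebra.TensorProduct.includeLeft : B →ₐ[k] B ⊗[k] T.R1))

/-- The projection to `Spec B`. -/
noncomputable def bπ : bX ha z0 hz0 B b ⟶ Sp B := bC ha z0 hz0 B b ≫ pullback.snd _ _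

@[reassoc (attr := simp)] theorem bL_π : bL ha z0 hz0 B b ≫ bπ ha z0 hz0 B b =
    blπ _ _ ≫ spMap (inL k B T.R1) := by
  unfold bπ
  rw [bL_C_assoc]
  unfold ka1
  rw [kap_snd]

@[reassoc (attr := simp)] theorem bR_π : bR ha z0 hz0 B b ≫ bπ ha z0 hz0 B b =
    spMap (inL k B T.R2) := by
  unfold bπ
  rw [bR_C_assoc]
  unfold ka2
  rw [kap_snd]

theorem bπ_proper (h : IsProper C.π) : IsProper (bπ ha z0 hz0 B b) := by
  unfold bπ
  infer_instance

theorem et_spMap {A A' : Type} [CommRing A] [CommRing A'] {f : A →+* A'} (h : f.Etale) :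
    Etale (spMap f) := by
  rw [HasRingHomProperty.Spec_iff (P := @Etale)]
  exact h

theorem k_smooth {R : Type} [CommRing R] [Algebra k R] (x : R)
    (h : (Polynomial.aeval x : Polynomial k →ₐ[k] R).toRingHom.Etale) :
    Smooth (spMap (algebraMap k R)) := by
  have h1 : algebraMap k R = (Polynomial.aeval x : Polynomial k →ₐ[k] R).toRingHom.comp
      Polynomial.C := ((Polynomial.aeval x : Polynomial k →ₐ[k] R).comp_algebraMap).symm
  rw [h1, spMap_comp]
  have := et_spMap h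
  have := poly_smooth (B := k)
  infer_instance

theorem inL_smooth {R : Type} [CommRing R] [Algebra k R] (x : R)
    (h : (Polynomial.aeval x : Polynomial k →ₐ[k] R).toRingHom.Etale) :
    Smooth (spMap (inL k B R)) :=
  MorphismProperty.of_isPullback (tens_isPullback B R) (k_smooth x h)

theorem bπ_lfp : LocallyOfFinitePresentation (bπ ha z0 hz0 B b) := by
  have h1 : Smooth (spMap (inL k B T.R1)) := inL_smooth B T.x T.etx
  have h2 : Smooth (spMap (inL k B T.R2)) := inL_smooth B T.y T.ety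
  apply two_source @LocallyOfFinitePresentation (bL ha z0 hz0 B b) (bR ha z0 hz0 B b)
    (b_cover ha z0 hz0 B b)
  · rw [bL_π]
    infer_instance
  · rw [bR_π]
    infer_instance

theorem bπ_flat [IsDomain T.R1] (hz : z0 ≠ 0)
    (het : Etale (spMap ((Polynomial.aeval z0 : Polynomial k →ₐ[k] T.R1) :
      Polynomial k →+* T.R1))) : Flat (bπ ha z0 hz0 B b) := by
  have h2 : Smooth (spMap (inL k B T.R2)) := inL_smooth B T.y T.ety
  apply two_source @Flat (bL ha z0 hz0 B b) (bR ha z0 hz0 B b) (b_cover ha z0 hz0 B b)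
  · rw [bL_π]
    apply two_source @Flat (bl1 _ _) (bl2 _ _) (bl_cover _ _)
    · rw [← Category.assoc, bl1_π, ← spMap_comp]
      exact nchart_flat T.R1 z0 hz b
    · rw [← Category.assoc, bl2_π, ← spMap_comp]
      have := ychart_smooth z0 b het
      infer_instance
  · rw [bR_π]
    infer_instance

end

end Pool.Agent.MG


end

section

/-!
# The bubble family: sections and arrows
-/

set_option linter.unusedSectionVars false

open CategoryTheory CategoryTheory.Limits AlgebraicGeometry TensorProduct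

namespace Pool.Agent.MG

section

variable {n : ℕ} {k : Type} [Field k] {C : Fam n k} {T : TC k} (ch : Cht C T) (i₀ j : Fin n)
  {B : Type} [CommRing B] [Algebra k B] (φ : T.R1 →ₐ[k] B)

/-- The coordinate at `p_j`. -/
noncomputable def zz : T.R1 := T.x - algebraMap k T.R1 (ch.pt j T.x)

theorem zz_unit : IsUnit (T.j1 (zz ch j)) := ch.unit j

theorem pt_zz (i : Fin n) : ch.pt i (zz ch j) = ch.pt i T.x - ch.pt j T.x := by
  unfold zz
  rw [map_sub, AlgHom.commutes]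
  rfl

theorem pt_zz_self : ch.pt j (zz ch j) = 0 := by rw [pt_zz, sub_self]

theorem pt_zz_ne {i : Fin n} (h : i ≠ j) : ch.pt i (zz ch j) ≠ 0 := by
  rw [pt_zz]
  exact sub_ne_zero.2 (ch.ne i j h)

/-- The points of the sections. -/
noncomputable def spt (i : Fin n) : T.R1 →ₐ[k] B :=
  if i = i₀ then φ else (Algebra.ofId k B).comp (ch.pt i)

theorem mv_eq (i : Fin n) : mv ch i₀ (.one φ) i = .one (spt ch i₀ φ i) := by
  unfold mv spt
  split_ifs <;> rfl

theorem spt_self : spt ch i₀ φ i₀ = φ := if_pos rfl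

theorem spt_ne {i : Fin n} (h : i ≠ i₀) : spt ch i₀ φ i = (Algebra.ofId k B).comp (ch.pt i) :=
  if_neg h

/-- The section of the blown up chart. -/
noncomputable def secT (hji : j ≠ i₀) (i : Fin n) :
    Sp B ⟶ Bl ((1 : B) ⊗ₜ[k] (zz ch j)) (φ (zz ch j) ⊗ₜ[k] (1 : T.R1)) :=
  if hi : i = i₀ then
    spMap (nrLift (extA φ : B ⊗[k] T.R1 →+* B) 1 (by
      simp)) ≫ bl2 _ _
  else if hij : i = j then
    spMap (nrLift (extA ((Algebra.ofId k B).comp (ch.pt i)) : B ⊗[k] T.R1 →+* B) 0 (by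
      subst hij
      simp [pt_zz_self])) ≫ bl2 _ _
  else
    spMap (nrLift (extA ((Algebra.ofId k B).comp (ch.pt i)) : B ⊗[k] T.R1 →+* B)
      (φ (zz ch j) * algebraMap k B (ch.pt i (zz ch j))⁻¹) (by
        simp only [RingHom.coe_coe, extA_tmul, AlgHom.comp_apply, one_mul, map_one, mul_one]
        change algebraMap k B _ * _ = _
        rw [mul_comm, mul_assoc, ← map_mul, inv_mul_cancel₀ (pt_zz_ne ch j hij), map_one,
          mul_one])) ≫ bl1 _ _

theorem nrLift_comp {R S : Type} [CommRing R] [CommRing S] {z s : R} (i : R →+* S) (w : S)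
    (h : i z * w = i s) : (nrLift i w h).comp (algebraMap R (NR z s)) = i :=
  RingHom.ext fun r => nrLift_of i w h r

theorem secT_π (hji : j ≠ i₀) (i : Fin n) :
    secT ch i₀ j φ hji i ≫ blπ _ _ = spMap (extA (spt ch i₀ φ i) : B ⊗[k] T.R1 →+* B) := by
  unfold secT
  split_ifs with hi hij
  · rw [Category.assoc, bl2_π, ← spMap_comp, nrLift_comp, hi, spt_self]
  · rw [spt_ne ch i₀ φ hi, Category.assoc, bl2_π, ← spMap_comp, nrLift_comp]
  · rw [spt_ne ch i₀ φ hi, Category.assoc, bl1_π, ← spMap_comp, nrLift_comp]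

theorem extA_inL {R : Type} [CommRing R] [Algebra k R] (χ : R →ₐ[k] B) :
    (extA χ : B ⊗[k] R →+* B).comp (inL k B R) = RingHom.id B := by
  ext b
  simp

theorem extA_inR {R : Type} [CommRing R] [Algebra k R] (χ : R →ₐ[k] B) :
    (extA χ : B ⊗[k] R →+* B).comp (inR k B R) = (χ : R →+* B) := by
  ext b
  simp

theorem spMap_id (A : Type) [CommRing A] : spMap (RingHom.id A) = 𝟙 (Sp A) := by
  unfold spMap
  rw [CommRingCat.ofHom_id, Spec.map_id]

/-- The bubble family. -/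
noncomputable def bubFam (hji : j ≠ i₀) : Fam n B where
  X := bX ch.aff (zz ch j) (zz_unit ch j) B (φ (zz ch j))
  π := bπ ch.aff (zz ch j) (zz_unit ch j) B (φ (zz ch j))
  σ i := secT ch i₀ j φ hji i ≫ bL ch.aff (zz ch j) (zz_unit ch j) B (φ (zz ch j))
  sec i := by
    rw [Category.assoc, bL_π, ← Category.assoc, secT_π, ← spMap_comp, extA_inL, spMap_id]

/-- The contraction followed by the projection to `C`, on the blown up chart. -/
theorem bL_q : bL ch.aff (zz ch j) (zz_unit ch j) B (φ (zz ch j)) ≫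
    bC ch.aff (zz ch j) (zz_unit ch j) B (φ (zz ch j)) ≫ pullback.fst _ _ =
      blπ _ _ ≫ spMap (inR k B T.R1) ≫ io1 ch.aff := by
  rw [bL_C_assoc]
  unfold ka1
  rw [kap_fst]

/-- The sections of the bubble and of the constant family. -/
theorem bubFam_sec (hji : j ≠ i₀) (i : Fin n) :
    (bubFam ch i₀ j φ hji).σ i ≫ bC ch.aff (zz ch j) (zz_unit ch j) B (φ (zz ch j)) ≫
      pullback.fst _ _ = tau ch.aff (.one (spt ch i₀ φ i)) := by
  have h1 : secT ch i₀ j φ hji i ≫ (bL ch.aff (zz ch j) (zz_unit ch j) B (φ (zz ch j)) ≫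
      bC ch.aff (zz ch j) (zz_unit ch j) B (φ (zz ch j)) ≫ pullback.fst _ _) =
        tau ch.aff (.one (spt ch i₀ φ i)) := by
    rw [bL_q, ← Category.assoc, secT_π, ← Category.assoc, ← spMap_comp, extA_inR, tau_one]
  rw [← h1]
  exact Category.assoc _ _ _

end

end Pool.Agent.MG


end

section

/-!
# The bubble family: base change
-/

set_option linter.unusedSectionVars false

open CategoryTheory CategoryTheory.Limits AlgebraicGeometry TensorProduct

namespace Pool.Agent.MG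

section

variable {n : ℕ} {k : Type} [Field k] {C : Fam n k} {T : TC k} {ct : Charted T C}
  (ha : ct.Aff) (z0 : T.R1) (hz0 : IsUnit (T.j1 z0)) {B : Type} [CommRing B] [Algebra k B] (b : B)
  {B' : Type} [CommRing B'] [Algebra k B'] (ψ : B →ₐ[k] B') (b' : B') (hb : b' = ψ b)

theorem bX_hom_ext {Y : Scheme.{0}} {f g : bX ha z0 hz0 B b ⟶ Y}
    (h1 : bL ha z0 hz0 B b ≫ f = bL ha z0 hz0 B b ≫ g)
    (h2 : bR ha z0 hz0 B b ≫ f = bR ha z0 hz0 B b ≫ g) : f = g := by
  have := bj1_open ha B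
  have := bj2_open ha B
  exact pushout.hom_ext h1 h2

theorem tz (z0 : T.R1) : (1 : B') ⊗ₜ[k] z0 = tmap ψ T.R1 ((1 : B) ⊗ₜ[k] z0) := by
  rw [tmap_tmul, map_one]

include hb in
theorem tb : b' ⊗ₜ[k] (1 : T.R1) = tmap ψ T.R1 (b ⊗ₜ[k] (1 : T.R1)) := by
  rw [tmap_tmul, hb]

/-- The base change map of the blown up charts. -/
noncomputable def bE : Bl ((1 : B') ⊗ₜ[k] z0) (b' ⊗ₜ[k] (1 : T.R1)) ⟶
    Bl ((1 : B) ⊗ₜ[k] z0) (b ⊗ₜ[k] (1 : T.R1)) :=
  blE (tmap ψ T.R1) _ _ _ _ (tz ψ z0) (tb b ψ b' hb)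

/-- The base change map. -/
noncomputable def bF : bX ha z0 hz0 B' b' ⟶ bX ha z0 hz0 B b :=
  have := bj1_open ha B
  have := bj2_open ha B
  have := bj1_open ha B'
  have := bj2_open ha B'
  bubE (tz ψ z0) (tb b ψ b' hb) (bmap_isPullback B T.j1 ψ) (bmap_isPullback B T.j2 ψ)

@[reassoc] theorem bL_F : bL ha z0 hz0 B' b' ≫ bF ha z0 hz0 b ψ b' hb =
    bE z0 b ψ b' hb ≫ bL ha z0 hz0 B b := by
  have := bj1_open ha B
  have := bj2_open ha B
  have := bj1_open ha B'
  have := bj2_open ha B'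
  exact bubl_bubE _ _ (bmap_isPullback B T.j1 ψ) (bmap_isPullback B T.j2 ψ)

@[reassoc] theorem bR_F : bR ha z0 hz0 B' b' ≫ bF ha z0 hz0 b ψ b' hb =
    spMap (tmap ψ T.R2) ≫ bR ha z0 hz0 B b := by
  have := bj1_open ha B
  have := bj2_open ha B
  have := bj1_open ha B'
  have := bj2_open ha B'
  exact bubr_bubE _ _ (bmap_isPullback B T.j1 ψ) (bmap_isPullback B T.j2 ψ)

theorem bF_isPullback : IsPullback (bF ha z0 hz0 b ψ b' hb) (bπ ha z0 hz0 B' b')
    (bπ ha z0 hz0 B b) (spMap (ψ : B →+* B')) := by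
  have := bj1_open ha B
  have := bj2_open ha B
  have := bj1_open ha B'
  have := bj2_open ha B'
  exact bubE_isPullback _ _ (bmap_isPullback B T.j1 ψ) (bmap_isPullback B T.j2 ψ) (bL_π ha z0 hz0 B b) (bR_π ha z0 hz0 B b)
    (bL_π ha z0 hz0 B' b') (bR_π ha z0 hz0 B' b') (tmap_isPullback ψ T.R1)
    (tmap_isPullback ψ T.R2)

/-- The map to `C`. -/
noncomputable def bq (B : Type) [CommRing B] [Algebra k B] (b : B) :
    bX ha z0 hz0 B b ⟶ C.X := bC ha z0 hz0 B b ≫ pullback.fst _ _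

@[reassoc] theorem bL_q' : bL ha z0 hz0 B b ≫ bq ha z0 hz0 B b =
    blπ _ _ ≫ spMap (inR k B T.R1) ≫ io1 ha := by
  unfold bq
  rw [bL_C_assoc]
  unfold ka1
  rw [kap_fst]

@[reassoc] theorem bR_q : bR ha z0 hz0 B b ≫ bq ha z0 hz0 B b =
    spMap (inR k B T.R2) ≫ io2 ha := by
  unfold bq
  rw [bR_C_assoc]
  unfold ka2
  rw [kap_fst]

theorem tmap_inR (R : Type) [CommRing R] [Algebra k R] :
    (tmap ψ R).comp (inR k B R) = inR k B' R := by
  ext r
  simp

@[reassoc] theorem bF_q : bF ha z0 hz0 b ψ b' hb ≫ bq ha z0 hz0 B b = bq ha z0 hz0 B' b' := by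
  apply bX_hom_ext
  · rw [bL_F_assoc, bL_q', bL_q']
    have h1 : bE z0 b ψ b' hb ≫ blπ _ _ = blπ _ _ ≫ spMap (tmap ψ T.R1) :=
      (blE_isPullback (tmap ψ T.R1) _ _ _ _ (tz ψ z0) (tb b ψ b' hb)).w
    rw [← Category.assoc, h1, Category.assoc, ← Category.assoc (spMap (tmap ψ T.R1)),
      ← spMap_comp, tmap_inR]
  · rw [bR_F_assoc, bR_q, bR_q, ← Category.assoc, ← spMap_comp, tmap_inR]

end

section

variable {n : ℕ} {k : Type} [Field k] {C : Fam n k} {T : TC k} (ch : Cht C T) (i₀ j : Fin n)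
  {B : Type} [CommRing B] [Algebra k B] (φ : T.R1 →ₐ[k] B)
  {B' : Type} [CommRing B'] [Algebra k B'] (ψ : B →ₐ[k] B')

theorem spt_map (i : Fin n) : spt ch i₀ (ψ.comp φ) i = ψ.comp (spt ch i₀ φ i) := by
  unfold spt
  split_ifs
  · rfl
  · ext a
    exact (ψ.commutes _).symm

theorem extA_tmap {R : Type} [CommRing R] [Algebra k R] (χ : R →ₐ[k] B) :
    (extA (ψ.comp χ) : B' ⊗[k] R →+* B').comp (tmap ψ R) =
      (ψ : B →+* B').comp (extA χ : B ⊗[k] R →+* B) := by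
  apply tensor_hom_ext
  · intro b
    simp
  · intro r
    simp

theorem nrE_lift {R R' S S' : Type} [CommRing R] [CommRing R'] [CommRing S] [CommRing S']
    {z s : R} {z' s' : R'} (χ : R →+* R') (hz : z' = χ z) (hs : s' = χ s) (i : R →+* S) (w : S)
    (h : i z * w = i s) (i' : R' →+* S') (w' : S') (h' : i' z' * w' = i' s') (f : S →+* S')
    (h1 : i'.comp χ = f.comp i) (h2 : w' = f w) :
    (nrLift i' w' h').comp (nrE χ z s z' s' hz hs) = f.comp (nrLift i w h) := by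
  apply nr_hom_ext
  · intro r
    simp only [RingHom.comp_apply]
    rw [nrE_of, nrLift_of, nrLift_of]
    exact congrArg (fun g => g r) h1
  · simp only [RingHom.comp_apply]
    rw [nrE_w, nrLift_w, nrLift_w, h2]

theorem cv : (ψ.comp φ) (zz ch j) = ψ (φ (zz ch j)) := AlgHom.comp_apply _ _ _

theorem ofId_comp_map (i : Fin n) : ψ.comp ((Algebra.ofId k B).comp (ch.pt i)) =
    (Algebra.ofId k B').comp (ch.pt i) :=
  AlgHom.ext fun a => ψ.commutes (ch.pt i a)

theorem secT_E (hji : j ≠ i₀) (i : Fin n) :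
    secT ch i₀ j (ψ.comp φ) hji i ≫ bE (zz ch j) (φ (zz ch j)) ψ _ (cv ch j φ ψ) =
      spMap (ψ : B →+* B') ≫ secT ch i₀ j φ hji i := by
  unfold secT
  split_ifs with hi hij
  · have h1 := bl2_blE (tmap ψ T.R1) _ _ _ _ (tz ψ (zz ch j))
      (tb (φ (zz ch j)) ψ _ (cv ch j φ ψ))
    rw [Category.assoc]
    unfold bE
    rw [h1, ← Category.assoc, ← spMap_comp, ← Category.assoc, ← spMap_comp]
    congr 2
    exact nrE_lift _ _ _ _ _ _ _ _ _ _ (extA_tmap ψ φ) (by simp)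
  · have h1 := bl2_blE (tmap ψ T.R1) _ _ _ _ (tz ψ (zz ch j))
      (tb (φ (zz ch j)) ψ _ (cv ch j φ ψ))
    rw [Category.assoc]
    unfold bE
    rw [h1, ← Category.assoc, ← spMap_comp, ← Category.assoc, ← spMap_comp]
    congr 2
    refine nrE_lift _ _ _ _ _ _ _ _ _ _ ?_ (by simp)
    have h2 := extA_tmap ψ ((Algebra.ofId k B).comp (ch.pt i))
    rw [← h2, ofId_comp_map]
  · have h1 := bl1_blE (tmap ψ T.R1) _ _ _ _ (tz ψ (zz ch j))
      (tb (φ (zz ch j)) ψ _ (cv ch j φ ψ))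
    rw [Category.assoc]
    unfold bE
    rw [h1, ← Category.assoc, ← spMap_comp, ← Category.assoc, ← spMap_comp]
    congr 2
    refine nrE_lift _ _ _ _ _ _ _ _ _ _ ?_ ?_
    · have h2 := extA_tmap ψ ((Algebra.ofId k B).comp (ch.pt i))
      rw [← h2, ofId_comp_map]
    · rw [RingHom.coe_coe, map_mul, ψ.commutes]
      rfl

/-- The base change arrow of bubble families. -/
noncomputable def bubArrow (hji : j ≠ i₀) :
    Arrow (ψ : B →+* B') (bubFam ch i₀ j (ψ.comp φ) hji) (bubFam ch i₀ j φ hji) where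
  f := bF ch.aff (zz ch j) (zz_unit ch j) (φ (zz ch j)) ψ _ (cv ch j φ ψ)
  cart := bF_isPullback _ _ _ _ _ _ _
  sec i := by
    change (secT ch i₀ j (ψ.comp φ) hji i ≫ bL _ _ _ _ _) ≫ bF _ _ _ _ _ _ _ =
      spMap (ψ : B →+* B') ≫ secT ch i₀ j φ hji i ≫ bL _ _ _ _ _
    have h1 := bL_F ch.aff (zz ch j) (zz_unit ch j) (φ (zz ch j)) ψ _ (cv ch j φ ψ)
    have h2 := secT_E ch i₀ j φ ψ hji i
    calc _ = secT ch i₀ j (ψ.comp φ) hji i ≫ (bL ch.aff (zz ch j) (zz_unit ch j) B' _ ≫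
            bF ch.aff (zz ch j) (zz_unit ch j) (φ (zz ch j)) ψ _ (cv ch j φ ψ)) := Category.assoc _ _ _
      _ = secT ch i₀ j (ψ.comp φ) hji i ≫ (bE (zz ch j) (φ (zz ch j)) ψ _ (cv ch j φ ψ) ≫
            bL ch.aff (zz ch j) (zz_unit ch j) B _) := congrArg _ h1
      _ = (secT ch i₀ j (ψ.comp φ) hji i ≫ bE (zz ch j) (φ (zz ch j)) ψ _ (cv ch j φ ψ)) ≫
            bL ch.aff (zz ch j) (zz_unit ch j) B _ := (Category.assoc _ _ _).symm
      _ = (spMap (ψ : B →+* B') ≫ secT ch i₀ j φ hji i) ≫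
            bL ch.aff (zz ch j) (zz_unit ch j) B _ := by rw [h2]
      _ = _ := Category.assoc _ _ _

end

end Pool.Agent.MG


end

section

/-!
# The rings of the bubble over `b = 0`
-/

set_option linter.unusedSectionVars false

open CategoryTheory CategoryTheory.Limits AlgebraicGeometry TensorProduct

namespace Pool.Agent.MG

section

variable {n : ℕ} {k : Type} [Field k] {C : Fam n k} {T : TC k} (ch : Cht C T) (j : Fin n)
  (B : Type) [CommRing B] [Algebra k B]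

/-- The coordinate at `p_j` on the first chart of the constant family. -/
noncomputable abbrev zB : B ⊗[k] T.R1 := (1 : B) ⊗ₜ[k] (zz ch j)

/-- Evaluation at `p_j`. -/
noncomputable def evB : B ⊗[k] T.R1 →+* B :=
  (extA ((Algebra.ofId k B).comp (ch.pt j)) : B ⊗[k] T.R1 →+* B)

@[simp] theorem evB_tmul (b : B) (r : T.R1) :
    evB ch j B (b ⊗ₜ r) = b * algebraMap k B (ch.pt j r) := by
  unfold evB
  rw [RingHom.coe_coe, extA_tmul]
  rfl

theorem evB_z : evB ch j B (zB ch j B) = 0 := by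
  rw [evB_tmul, pt_zz_self, map_zero, mul_zero]

/-- `x - x(p_j)` generates the ideal of `p_j`, over `B`. -/
theorem evB_gen (a : B ⊗[k] T.R1) : ∃ c, a = (evB ch j B a) ⊗ₜ[k] (1 : T.R1) + zB ch j B * c := by
  induction a with
  | zero => exact ⟨0, by simp⟩
  | tmul b r =>
    have h1 : ch.pt j (r - algebraMap k T.R1 (ch.pt j r)) = 0 := by
      rw [map_sub, AlgHom.commutes]
      exact sub_self _
    obtain ⟨c, hc⟩ := ch.gen j _ h1
    refine ⟨b ⊗ₜ c, ?_⟩
    rw [evB_tmul, Algebra.TensorProduct.tmul_mul_tmul, one_mul]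
    change _ = _ + b ⊗ₜ[k] ((T.x - algebraMap k T.R1 (ch.pt j T.x)) * c)
    rw [← hc, TensorProduct.tmul_sub]
    have h2 : b ⊗ₜ[k] (algebraMap k T.R1 (ch.pt j r)) =
        (b * algebraMap k B (ch.pt j r)) ⊗ₜ[k] (1 : T.R1) := by
      have h3 : b ⊗ₜ[k] (algebraMap k T.R1 (ch.pt j r)) =
          (b ⊗ₜ[k] (1 : T.R1)) * ((1 : B) ⊗ₜ[k] (algebraMap k T.R1 (ch.pt j r))) := by simp
      rw [h3, tens_scalar]
      simp
    rw [h2]
    ring
  | add u v hu hv =>
    obtain ⟨c, hc⟩ := hu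
    obtain ⟨d, hd⟩ := hv
    refine ⟨c + d, ?_⟩
    rw [map_add, TensorProduct.add_tmul, mul_add]
    calc u + v = (evB ch j B u ⊗ₜ[k] (1 : T.R1) + zB ch j B * c) +
          (evB ch j B v ⊗ₜ[k] (1 : T.R1) + zB ch j B * d) := by rw [← hc, ← hd]
      _ = _ := by ring

theorem evB_ker (a : B ⊗[k] T.R1) (h : evB ch j B a = 0) : ∃ c, a = zB ch j B * c := by
  obtain ⟨c, hc⟩ := evB_gen ch j B a
  rw [h, TensorProduct.zero_tmul, zero_add] at hc
  exact ⟨c, hc⟩

include ch in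
theorem dom1 : IsDomain T.R1 := by
  have := ch.dom
  exact Function.Injective.isDomain (T.j1 : T.R1 →+* T.R12) ch.inj1

include ch in
theorem dom2 : IsDomain T.R2 := by
  have := ch.dom
  exact Function.Injective.isDomain (T.j2 : T.R2 →+* T.R12) ch.inj2

theorem zz_ne : zz ch j ≠ 0 := by
  intro h
  have := ch.dom
  have h1 := zz_unit ch j
  rw [h, map_zero] at h1
  exact not_isUnit_zero h1

/-- `x - x(p_j)` is a non zero divisor. -/
theorem zB_reg (a : B ⊗[k] T.R1) (h : zB ch j B * a = 0) : a = 0 := by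
  have := dom1 ch
  have h1 : Function.Injective (LinearMap.mulLeft k (zz ch j)) := by
    intro u v huv
    exact mul_left_cancel₀ (zz_ne ch j) huv
  have h2 : Function.Injective (LinearMap.lTensor B (LinearMap.mulLeft k (zz ch j))) :=
    Module.Flat.lTensor_preserves_injective_linearMap _ h1
  have h3 : ∀ a : B ⊗[k] T.R1, (LinearMap.lTensor B (LinearMap.mulLeft k (zz ch j))) a =
      zB ch j B * a := by
    intro a
    induction a with
    | zero => simp
    | tmul b r =>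
      rw [LinearMap.lTensor_tmul, Algebra.TensorProduct.tmul_mul_tmul, one_mul]
      rfl
    | add u v hu hv => rw [map_add, hu, hv, mul_add]
  apply h2
  rw [h3, h, map_zero]

end

section Zero

open Polynomial

variable {n : ℕ} {k : Type} [Field k] {Cv : Fam n k} {T : TC k} (ch : Cht Cv T) (j : Fin n)
  (B : Type) [CommRing B] [Algebra k B] (b : B) (hb : b = 0)

/-- The ring `(B ⊗ R₁)[w]/(z w - b)` of the first chart of the bubble. -/
abbrev N1 : Type := NR (zB ch j B) (b ⊗ₜ[k] (1 : T.R1))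

/-- The ring `(B ⊗ R₁)[Y]/(b Y - z)` of the second chart of the bubble. -/
abbrev N2 : Type := NR (b ⊗ₜ[k] (1 : T.R1)) (zB ch j B)

/-- For `b = 0`: restriction to the proper transform `w = 0`. -/
noncomputable def toA : N1 ch j B b →+* B ⊗[k] T.R1 :=
  nrLift (RingHom.id _) 0 (by simp [hb])

@[simp] theorem toA_of (a : B ⊗[k] T.R1) : toA ch j B b hb (algebraMap _ (N1 ch j B b) a) = a :=
  nrLift_of _ _ _ _

@[simp] theorem toA_w : toA ch j B b hb (nw _ _) = 0 := nrLift_w _ _ _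

/-- For `b = 0`: restriction to the exceptional line `z = 0`. -/
noncomputable def toW : N1 ch j B b →+* B[X] :=
  nrLift ((C : B →+* B[X]).comp (evB ch j B)) X (by
    rw [RingHom.comp_apply, RingHom.comp_apply, evB_z, hb]
    simp)

@[simp] theorem toW_of (a : B ⊗[k] T.R1) :
    toW ch j B b hb (algebraMap _ (N1 ch j B b) a) = C (evB ch j B a) :=
  nrLift_of _ _ _ _

@[simp] theorem toW_w : toW ch j B b hb (nw _ _) = X := nrLift_w _ _ _

/-- For `b = 0`: the second chart is a line. -/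
noncomputable def toY : N2 ch j B b →+* B[X] :=
  nrLift ((C : B →+* B[X]).comp (evB ch j B)) X (by
    rw [RingHom.comp_apply, RingHom.comp_apply, evB_z, hb]
    simp)

@[simp] theorem toY_of (a : B ⊗[k] T.R1) :
    toY ch j B b hb (algebraMap _ (N2 ch j B b) a) = C (evB ch j B a) :=
  nrLift_of _ _ _ _

@[simp] theorem toY_w : toY ch j B b hb (nw _ _) = X := nrLift_w _ _ _

include hb in
theorem N1_zw : algebraMap _ (N1 ch j B b) (zB ch j B) * nw _ _ = 0 := by
  rw [nw_rel]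
  have h : b ⊗ₜ[k] (1 : T.R1) = 0 := by rw [hb, TensorProduct.zero_tmul]
  exact (congrArg (algebraMap _ (N1 ch j B b)) h).trans (map_zero _)

include hb in
theorem N2_z : algebraMap _ (N2 ch j B b) (zB ch j B) = 0 := by
  rw [← nw_rel]
  have h : b ⊗ₜ[k] (1 : T.R1) = 0 := by rw [hb, TensorProduct.zero_tmul]
  rw [(congrArg (algebraMap _ (N2 ch j B b)) h).trans (map_zero _), zero_mul]

/-- Every element of the first chart ring is `a + p(w) w`. -/
theorem N1_form (u : N1 ch j B b) : ∃ (a : B ⊗[k] T.R1) (p : (B ⊗[k] T.R1)[X]),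
    u = algebraMap _ (N1 ch j B b) a +
      nw _ _ * (p.eval₂ (algebraMap _ (N1 ch j B b)) (nw _ _)) := by
  obtain ⟨F, rfl⟩ := AdjoinRoot.mk_surjective u
  refine ⟨F.coeff 0, F.divX, ?_⟩
  have h1 : (AdjoinRoot.mk _ F : N1 ch j B b) = F.eval₂ (algebraMap _ (N1 ch j B b)) (nw _ _) := by
    rw [← AdjoinRoot.aeval_eq, aeval_def]
  rw [h1]
  conv_lhs => rw [← Polynomial.divX_mul_X_add F]
  rw [eval₂_add, eval₂_mul, eval₂_X, eval₂_C]
  ring

theorem toA_ker (u : N1 ch j B b) (h : toA ch j B b hb u = 0) : ∃ v, u = nw _ _ * v := by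
  obtain ⟨a, p, hp⟩ := N1_form ch j B b u
  have h1 := h
  rw [hp, map_add, map_mul, toA_of, toA_w, zero_mul, add_zero] at h1
  rw [h1, map_zero, zero_add] at hp
  exact ⟨_, hp⟩

theorem toW_eval (p : (B ⊗[k] T.R1)[X]) :
    toW ch j B b hb (p.eval₂ (algebraMap _ (N1 ch j B b)) (nw _ _)) =
      p.map (evB ch j B) := by
  rw [hom_eval₂, toW_w, ← Polynomial.eval₂_C_X (p := p.map (evB ch j B)), eval₂_map]
  congr 1
  exact RingHom.ext fun a => toW_of ch j B b hb a

/-- The kernel of the restriction to the exceptional line. -/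
theorem toW_ker (u : N1 ch j B b) (h : toW ch j B b hb u = 0) :
    ∃ v, u = algebraMap _ (N1 ch j B b) (zB ch j B) * v := by
  obtain ⟨F, rfl⟩ := AdjoinRoot.mk_surjective u
  have h1 : (AdjoinRoot.mk _ F : N1 ch j B b) = F.eval₂ (algebraMap _ (N1 ch j B b)) (nw _ _) := by
    rw [← AdjoinRoot.aeval_eq, aeval_def]
  rw [h1, toW_eval] at h
  have h2 : ∀ i, evB ch j B (F.coeff i) = 0 := by
    intro i
    have := congrArg (fun p => p.coeff i) h
    simpa using this
  choose c hc using fun i => evB_ker ch j B _ (h2 i)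
  refine ⟨∑ i ∈ F.support, algebraMap _ (N1 ch j B b) (c i) * nw _ _ ^ i, ?_⟩
  rw [h1, eval₂_eq_sum, Polynomial.sum_def, Finset.mul_sum]
  apply Finset.sum_congr rfl
  intro i _
  rw [hc i, map_mul]
  have h3 : (zB ch j B * c i) = F.coeff i := (hc i).symm
  ring

/-- The first chart ring is contained in the product of the rings of the two components. -/
theorem toAW_injective (u : N1 ch j B b) (h1 : toA ch j B b hb u = 0)
    (h2 : toW ch j B b hb u = 0) : u = 0 := by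
  obtain ⟨v, rfl⟩ := toW_ker ch j B b hb u h2
  rw [map_mul, toA_of] at h1
  obtain ⟨w, rfl⟩ := toA_ker ch j B b hb v (zB_reg ch j B _ h1)
  rw [← mul_assoc, N1_zw ch j B b hb, zero_mul]

/-- For `b = 0`: the second chart ring is the polynomial ring. -/
theorem toY_bijective : Function.Bijective (toY ch j B b hb) := by
  let G : B[X] →+* N2 ch j B b :=
    eval₂RingHom ((algebraMap _ (N2 ch j B b)).comp (inL k B T.R1)) (nw _ _)
  have hGC : ∀ c : B, G (C c) = algebraMap _ (N2 ch j B b) (c ⊗ₜ[k] (1 : T.R1)) :=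
    fun c => eval₂_C _ _
  have hGX : G X = nw _ _ := eval₂_X _ _
  have h1 : (toY ch j B b hb).comp G = RingHom.id _ := by
    apply Polynomial.ringHom_ext
    · intro c
      rw [RingHom.comp_apply, hGC, toY_of, evB_tmul, map_one, map_one, mul_one]
      rfl
    · rw [RingHom.comp_apply, hGX, toY_w]
      rfl
  have h2 : G.comp (toY ch j B b hb) = RingHom.id _ := by
    apply nr_hom_ext
    · intro a
      rw [RingHom.comp_apply, toY_of, hGC, RingHom.id_apply]
      obtain ⟨c, hc⟩ := evB_gen ch j B a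
      conv_rhs => rw [hc]
      rw [map_add, map_mul, N2_z ch j B b hb, zero_mul, add_zero]
    · rw [RingHom.comp_apply, toY_w, hGX]
      rfl
  refine ⟨fun u v huv => ?_, fun p => ⟨G p, congrArg (fun f => f p) h1⟩⟩
  have := congrArg G huv
  have h3 : ∀ a, G (toY ch j B b hb a) = a := fun a => congrArg (fun f => f a) h2
  rwa [h3, h3] at this

end Zero

end Pool.Agent.MG


end

section

/-!
# The market: the nodal fibre of the bubble family
-/

open CategoryTheory CategoryTheory.Limits AlgebraicGeometry TensorProduct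

namespace Pool.Agent.MG

/-- COVI: the genus can be computed with every affine cover with two elements. -/
def Stmt_COVI : Prop :=
  ∀ {X : Scheme.{0}} {k : Type} [Field k] (π : X ⟶ Sp k) [IsSeparated π] (g : ℕ),
    HasGenus π g → ∀ (U V : X.Opens), IsAffineOpen U → IsAffineOpen V → U ⊔ V = ⊤ →
    ∃ L : Γ(X, U ⊓ V) →+ (Fin g → k), Function.Surjective L ∧
      (∀ (c : k) (s : Γ(X, U ⊓ V)), L (coef π (U ⊓ V) c * s) = c • L s) ∧
      ∀ s : Γ(X, U ⊓ V), L s = 0 ↔ ∃ (a : Γ(X, U)) (b : Γ(X, V)),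
        s = rs X inf_le_left a + rs X inf_le_right b

/-- BGEN: the genus of the nodal curve. -/
def Stmt_BGEN : Prop :=
  ∀ {n : ℕ} {k : Type} [Field k] {C : Fam n k} {T : TC k} (ch : Cht C T) (j : Fin n)
    (_ : IsProper C.π) (K : Type) [Field K] [Algebra k K] (b : K) (_ : b = 0) (g : ℕ),
    HasGenus (pullback.snd C.π (spMap (algebraMap k K))) g →
    HasGenus (bπ ch.aff (zz ch j) (zz_unit ch j) K b) g

/-- BNOD: the nodal curve is nodal. -/
def Stmt_BNOD : Prop :=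
  ∀ {n : ℕ} {k : Type} [Field k] {C : Fam n k} {T : TC k} (ch : Cht C T) (j : Fin n)
    (K : Type) [Field K] [IsAlgClosed K] [Algebra k K] (b : K) (_ : b = 0),
    Nodal (bπ ch.aff (zz ch j) (zz_unit ch j) K b)

/-- BSEC: the marked points of the nodal curve are distinct and smooth. -/
def Stmt_BSEC : Prop :=
  ∀ {n : ℕ} {k : Type} [Field k] {C : Fam n k} {T : TC k} (ch : Cht C T) (i₀ j : Fin n)
    (hji : j ≠ i₀) (K : Type) [Field K] [Algebra k K] (φ : T.R1 →ₐ[k] K) (_ : φ (zz ch j) = 0),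
    (∀ i i', i ≠ i' → (bubFam ch i₀ j φ hji).σ i ≠ (bubFam ch i₀ j φ hji).σ i') ∧
    ∀ (i : Fin n) (s : Sp K), ∃ U : (bubFam ch i₀ j φ hji).X.Opens,
      (bubFam ch i₀ j φ hji).σ i s ∈ U ∧ Smooth (U.ι ≫ (bubFam ch i₀ j φ hji).π)

/-- A derivation which kills the constants. -/
structure IsDer {K A : Type} [CommRing K] [CommRing A] (i : K →+* A) (D : A →+ A) : Prop where
  mul : ∀ a b, D (a * b) = a * D b + b * D a
  const : ∀ c, D (i c) = 0

/-- BRA: rigidity of the nodal curve, algebra. `D1`, `D2`, `D3` are derivations of the functions on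
the three charts, `DM`, `D12` on the intersections. -/
def Stmt_BRA : Prop :=
  ∀ {n : ℕ} {k : Type} [Field k] {C : Fam n k} {T : TC k} (ch : Cht C T),
    (∀ (a : T.R1) (b : T.R2), T.j1 a = T.e * T.j2 b → a = 0) →
    ∀ (j : Fin n) (K : Type) [Field K] [Algebra k K] (b : K) (hb : b = 0)
      (D1 : N1 ch j K b →+ N1 ch j K b) (D2 : N2 ch j K b →+ N2 ch j K b)
      (D3 : K ⊗[k] T.R2 →+ K ⊗[k] T.R2) (D12 : K ⊗[k] T.R12 →+ K ⊗[k] T.R12)
      (DM : MR (zB ch j K) (b ⊗ₜ[k] (1 : T.R1)) →+ MR (zB ch j K) (b ⊗ₜ[k] (1 : T.R1))),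
      IsDer ((algebraMap (K ⊗[k] T.R1) (N1 ch j K b)).comp (inL k K T.R1)) D1 →
      IsDer ((algebraMap (K ⊗[k] T.R1) (N2 ch j K b)).comp (inL k K T.R1)) D2 →
      IsDer (inL k K T.R2) D3 → IsDer (inL k K T.R12) D12 →
      IsDer ((algebraMap (K ⊗[k] T.R1) (MR (zB ch j K) (b ⊗ₜ[k] (1 : T.R1)))).comp
        (inL k K T.R1)) DM →
      (∀ u, DM (algebraMap (N1 ch j K b) _ u) = algebraMap (N1 ch j K b) _ (D1 u)) →
      (∀ u, DM (swapN _ _ u) = swapN _ _ (D2 u)) →
      (∀ u, D12 (bmap K T.j1 (toA ch j K b hb u)) = bmap K T.j1 (toA ch j K b hb (D1 u))) →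
      (∀ u, D12 (bmap K T.j2 u) = bmap K T.j2 (D3 u)) →
      (∀ u, (toY ch j K b hb (D2 u)).eval 0 = 0) →
      (∀ u, (toY ch j K b hb (D2 u)).eval 1 = 0) →
      D1 = 0 ∧ D2 = 0 ∧ D3 = 0

/-- BRIG: rigidity of the nodal curve. -/
def Stmt_BRIG : Prop :=
  ∀ {n : ℕ} {k : Type} [Field k] {C : Fam n k} {T : TC k} (ch : Cht C T),
    (∀ (a : T.R1) (b : T.R2), T.j1 a = T.e * T.j2 b → a = 0) →
    ∀ (i₀ j : Fin n) (hji : j ≠ i₀) (K : Type) [Field K] [Algebra k K] (φ : T.R1 →ₐ[k] K)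
      (_ : φ (zz ch j) = 0) (v : VField (bubFam ch i₀ j φ hji)) (U), v.D U = 0

/-- ALGW: rigidity of the constant family under the weaker hypothesis that the vector fields which
vanish at `p_j` are `0` (compare `RIG.alg`). -/
def Stmt_ALGW : Prop :=
  ∀ {n : ℕ} {k : Type} [Field k] {C : Fam n k} {T : TC k} (ch : Cht C T) (j : Fin n),
    (∀ (a : T.R1) (b : T.R2), T.j1 a = T.e * T.j2 b → ch.pt j a = 0 → a = 0) →
    ∀ (K : Type) [Field K] [Algebra k K]
      (D1 : K ⊗[k] T.R1 →+ K ⊗[k] T.R1) (D2 : K ⊗[k] T.R2 →+ K ⊗[k] T.R2)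
      (D12 : K ⊗[k] T.R12 →+ K ⊗[k] T.R12),
      IsDer (inL k K T.R1) D1 → IsDer (inL k K T.R2) D2 → IsDer (inL k K T.R12) D12 →
      (∀ a, D12 (bmap K T.j1 a) = bmap K T.j1 (D1 a)) →
      (∀ a, D12 (bmap K T.j2 a) = bmap K T.j2 (D2 a)) →
      (∀ a, evB ch j K (D1 a) = 0) → D1 = 0 ∧ D2 = 0

/-- BRAW: BRA under the weaker hypothesis. -/
def Stmt_BRAW : Prop :=
  ∀ {n : ℕ} {k : Type} [Field k] {C : Fam n k} {T : TC k} (ch : Cht C T) (j : Fin n),
    (∀ (a : T.R1) (b : T.R2), T.j1 a = T.e * T.j2 b → ch.pt j a = 0 → a = 0) →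
    ∀ (K : Type) [Field K] [Algebra k K] (b : K) (hb : b = 0)
      (D1 : N1 ch j K b →+ N1 ch j K b) (D2 : N2 ch j K b →+ N2 ch j K b)
      (D3 : K ⊗[k] T.R2 →+ K ⊗[k] T.R2) (D12 : K ⊗[k] T.R12 →+ K ⊗[k] T.R12)
      (DM : MR (zB ch j K) (b ⊗ₜ[k] (1 : T.R1)) →+ MR (zB ch j K) (b ⊗ₜ[k] (1 : T.R1))),
      IsDer ((algebraMap (K ⊗[k] T.R1) (N1 ch j K b)).comp (inL k K T.R1)) D1 →
      IsDer ((algebraMap (K ⊗[k] T.R1) (N2 ch j K b)).comp (inL k K T.R1)) D2 →
      IsDer (inL k K T.R2) D3 → IsDer (inL k K T.R12) D12 →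
      IsDer ((algebraMap (K ⊗[k] T.R1) (MR (zB ch j K) (b ⊗ₜ[k] (1 : T.R1)))).comp
        (inL k K T.R1)) DM →
      (∀ u, DM (algebraMap (N1 ch j K b) _ u) = algebraMap (N1 ch j K b) _ (D1 u)) →
      (∀ u, DM (swapN _ _ u) = swapN _ _ (D2 u)) →
      (∀ u, D12 (bmap K T.j1 (toA ch j K b hb u)) = bmap K T.j1 (toA ch j K b hb (D1 u))) →
      (∀ u, D12 (bmap K T.j2 u) = bmap K T.j2 (D3 u)) →
      (∀ u, (toY ch j K b hb (D2 u)).eval 0 = 0) →
      (∀ u, (toY ch j K b hb (D2 u)).eval 1 = 0) →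
      D1 = 0 ∧ D2 = 0 ∧ D3 = 0

/-- BRIGW: rigidity of the nodal curve under the weaker hypothesis. -/
def Stmt_BRIGW : Prop :=
  ∀ {n : ℕ} {k : Type} [Field k] {C : Fam n k} {T : TC k} (ch : Cht C T) (j : Fin n),
    (∀ (a : T.R1) (b : T.R2), T.j1 a = T.e * T.j2 b → ch.pt j a = 0 → a = 0) →
    ∀ (i₀ : Fin n) (hji : j ≠ i₀) (K : Type) [Field K] [Algebra k K] (φ : T.R1 →ₐ[k] K)
      (_ : φ (zz ch j) = 0) (v : VField (bubFam ch i₀ j φ hji)) (U), v.D U = 0

/-- RIGW: no vector fields on the constant family which vanish at `p_j`. -/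
def Stmt_RIGW : Prop :=
  ∀ {n : ℕ} {k : Type} [Field k] {C : Fam n k} {T : TC k} (ch : Cht C T) (j : Fin n),
    (∀ (a : T.R1) (b : T.R2), T.j1 a = T.e * T.j2 b → ch.pt j a = 0 → a = 0) →
    ∀ (K : Type) [Field K] [Algebra k K] (τ : Fin n → (Sp K ⟶ C.X))
      (hτ : ∀ i, τ i ≫ C.π = spMap (algebraMap k K)) (_ : τ j = spMap (algebraMap k K) ≫ C.σ j)
      (v : VField (constFam C K τ hτ)) (U), v.D U = 0

end Pool.Agent.MG


end

section

/-!
# Evaluation of functions along open immersions of spectra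
-/

set_option linter.unusedSectionVars false

open CategoryTheory CategoryTheory.Limits AlgebraicGeometry TensorProduct

namespace Pool.Agent.MG

section

variable {A : Type} [CommRing A] {X : Scheme.{0}} (i : Sp A ⟶ X)

/-- Evaluation of functions on `U` along a morphism `i : Spec A → X` with image in `U`. -/
noncomputable def evO (U : X.Opens) (h : ⊤ ≤ i ⁻¹ᵁ U) : Γ(X, U) →+* A :=
  (Scheme.ΓSpecIso (CommRingCat.of A)).hom.hom.comp (i.appLE U ⊤ h).hom

theorem evO_rs {U V : X.Opens} (hVU : V ≤ U) (hV : ⊤ ≤ i ⁻¹ᵁ V) (hU : ⊤ ≤ i ⁻¹ᵁ U)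
    (a : Γ(X, U)) : evO i V hV (rs X hVU a) = evO i U hU a := by
  have h1 : X.presheaf.map (homOfLE hVU).op ≫ i.appLE V ⊤ hV = i.appLE U ⊤ hU :=
    Scheme.Hom.map_appLE i hV (homOfLE hVU).op
  have h2 := ConcreteCategory.congr_hom h1 a
  exact congrArg (Scheme.ΓSpecIso (CommRingCat.of A)).hom.hom h2

theorem evO_spMap {A' : Type} [CommRing A'] (φ : A →+* A') {U : X.Opens} (h : ⊤ ≤ i ⁻¹ᵁ U)
    (h' : ⊤ ≤ (spMap φ ≫ i) ⁻¹ᵁ U) (a : Γ(X, U)) :
    evO (spMap φ ≫ i) U h' a = φ (evO i U h a) := by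
  have h1 : i.appLE U ⊤ h ≫ (spMap φ).appLE ⊤ ⊤ le_top = (spMap φ ≫ i).appLE U ⊤ h' :=
    Scheme.Hom.appLE_comp_appLE _ _ _ _ _ _ _
  have h2 : (spMap φ).appLE ⊤ ⊤ le_top = (spMap φ).appTop := Scheme.Hom.appLE_eq_app _
  unfold evO
  rw [RingHom.comp_apply, RingHom.comp_apply, ← gs_spMap, ← h1, h2]
  rfl

theorem evO_app {Y : Scheme.{0}} (q : X ⟶ Y) {V : Y.Opens} {U : X.Opens} (e : U ≤ q ⁻¹ᵁ V)
    (h : ⊤ ≤ i ⁻¹ᵁ U) (h' : ⊤ ≤ (i ≫ q) ⁻¹ᵁ V) (a : Γ(Y, V)) :
    evO i U h ((q.appLE V U e).hom a) = evO (i ≫ q) V h' a := by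
  have h1 : q.appLE V U e ≫ i.appLE U ⊤ h = (i ≫ q).appLE V ⊤ h' :=
    Scheme.Hom.appLE_comp_appLE _ _ _ _ _ _ _
  unfold evO
  rw [RingHom.comp_apply, RingHom.comp_apply, ← h1]
  rfl

theorem evO_coef {B : Type} [CommRing B] (π : X ⟶ Sp B) (ψ : B →+* A) (hψ : i ≫ π = spMap ψ)
    {U : X.Opens} (h : ⊤ ≤ i ⁻¹ᵁ U) (b : B) : evO i U h (coef π U b) = ψ b := by
  unfold evO
  rw [RingHom.comp_apply, coef_comp, hψ]
  have h1 : coef (spMap ψ) ⊤ b = coef (𝟙 (Sp A)) ⊤ (ψ b) := by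
    rw [← coef_spMap, Category.id_comp]
  rw [h1, coef_id, gl_inv]

theorem evO_gl {U : X.Opens} (h : ⊤ ≤ i ⁻¹ᵁ U) (a : Γ(X, U)) :
    (i.appLE U ⊤ h).hom a = gl A (evO i U h a) := by
  unfold evO gl
  rw [RingHom.comp_apply]
  change _ = ((Scheme.ΓSpecIso (CommRingCat.of A)).hom ≫ (Scheme.ΓSpecIso (CommRingCat.of A)).inv)
    ((i.appLE U ⊤ h).hom a)
  rw [Iso.hom_inv_id]
  rfl

theorem le_opensRange (U : X.Opens) [IsOpenImmersion i] (hU : ∀ x ∈ U, x ∈ Set.range i) :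
    U ≤ i.opensRange := fun x hx => hU x hx

theorem evO_bij [IsOpenImmersion i] {U : X.Opens} (h : ⊤ ≤ i ⁻¹ᵁ U)
    (hU : ∀ x ∈ U, x ∈ Set.range i) : Function.Bijective (evO i U h) := by
  have h1 : IsIso (i.app U) := Scheme.Hom.isIso_app i U (fun x hx => hU x hx)
  have h2 : i ⁻¹ᵁ U = ⊤ := top_le_iff.1 h
  have h3 : IsIso (i.appLE U ⊤ h) := by
    have h4 : i.appLE U ⊤ h = i.app U ≫ (Sp A).presheaf.map (homOfLE h).op := rfl
    rw [h4]
    have h5 : IsIso (homOfLE h) := by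
      have h6 : homOfLE h = eqToHom h2.symm := Subsingleton.elim _ _
      rw [h6]
      infer_instance
    infer_instance
  unfold evO
  rw [RingHom.coe_comp]
  exact (ConcreteCategory.bijective_of_isIso (Scheme.ΓSpecIso (CommRingCat.of A)).hom).comp
    (ConcreteCategory.bijective_of_isIso (i.appLE U ⊤ h))

theorem mem_pre (U : X.Opens) (h : ⊤ ≤ i ⁻¹ᵁ U) (p : Sp A) : i p ∈ U := h (show p ∈ ⊤ by trivial)

theorem le_of_range {U : X.Opens} (h : ∀ p, i p ∈ U) : ⊤ ≤ i ⁻¹ᵁ U := fun p _ => h p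

theorem range_pre [IsOpenImmersion i] : ⊤ ≤ i ⁻¹ᵁ i.opensRange := fun p _ => ⟨p, rfl⟩

end

section

variable {A1 A2 : Type} [CommRing A1] [CommRing A2] {X : Scheme.{0}} (i1 : Sp A1 ⟶ X)
  (i2 : Sp A2 ⟶ X) [IsOpenImmersion i1] [IsOpenImmersion i2]

/-- A function which vanishes on two charts is zero. -/
theorem evO_un {U : X.Opens} (h1 : ⊤ ≤ i1 ⁻¹ᵁ U) (h2 : ⊤ ≤ i2 ⁻¹ᵁ U)
    (hU : ∀ x ∈ U, x ∈ Set.range i1 ∨ x ∈ Set.range i2) (a : Γ(X, U))
    (e1 : evO i1 U h1 a = 0) (e2 : evO i2 U h2 a = 0) : a = 0 := by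
  have l1 : i1.opensRange ≤ U := by
    rintro _ ⟨p, rfl⟩
    exact mem_pre i1 U h1 p
  have l2 : i2.opensRange ≤ U := by
    rintro _ ⟨p, rfl⟩
    exact mem_pre i2 U h2 p
  have z1 : rs X l1 a = 0 := by
    apply (evO_bij i1 (range_pre i1) (fun x hx => hx)).1
    rw [evO_rs i1 l1 (range_pre i1) h1, e1, map_zero]
  have z2 : rs X l2 a = 0 := by
    apply (evO_bij i2 (range_pre i2) (fun x hx => hx)).1
    rw [evO_rs i2 l2 (range_pre i2) h2, e2, map_zero]
  apply X.sheaf.eq_of_locally_eq₂ (homOfLE l1) (homOfLE l2) (fun x hx => hU x hx)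
  · exact z1.trans (map_zero (rs X l1)).symm
  · exact z2.trans (map_zero (rs X l2)).symm

/-- Functions on a disjoint union. -/
theorem evO_ex {U : X.Opens} (h1 : ⊤ ≤ i1 ⁻¹ᵁ U) (h2 : ⊤ ≤ i2 ⁻¹ᵁ U)
    (hU : ∀ x ∈ U, x ∈ Set.range i1 ∨ x ∈ Set.range i2)
    (hd : ∀ x y, i1 x ≠ i2 y) (a1 : A1) (a2 : A2) :
    ∃ a : Γ(X, U), evO i1 U h1 a = a1 ∧ evO i2 U h2 a = a2 := by
  have l1 : i1.opensRange ≤ U := by
    rintro _ ⟨p, rfl⟩
    exact mem_pre i1 U h1 p
  have l2 : i2.opensRange ≤ U := by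
    rintro _ ⟨p, rfl⟩
    exact mem_pre i2 U h2 p
  obtain ⟨b1, hb1⟩ := (evO_bij i1 (range_pre i1) (fun x hx => hx)).2 a1
  obtain ⟨b2, hb2⟩ := (evO_bij i2 (range_pre i2) (fun x hx => hx)).2 a2
  have hbot : i1.opensRange ⊓ i2.opensRange = ⊥ := by
    rw [← le_bot_iff]
    rintro x ⟨⟨p, hp⟩, ⟨r, hr⟩⟩
    exact (hd p r (hp.trans hr.symm)).elim
  have hsub : ∀ W : X.Opens, W ≤ i1.opensRange ⊓ i2.opensRange → Subsingleton Γ(X, W) := by
    intro W hW
    have : W = ⊥ := by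
      rw [← le_bot_iff, ← hbot]
      exact hW
    rw [this]
    infer_instance
  obtain ⟨a, ha, -⟩ := X.sheaf.existsUnique_gluing' (fun t : Bool => if t then i1.opensRange
    else i2.opensRange) U (fun t => homOfLE (by cases t <;> simp [l1, l2]))
    (fun x hx => by
      rcases hU x hx with h | h
      · exact TopologicalSpace.Opens.mem_iSup.2 ⟨true, h⟩
      · exact TopologicalSpace.Opens.mem_iSup.2 ⟨false, h⟩)
    (fun t => match t with
      | true => b1
      | false => b2)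
    (by
      intro s t
      rcases s with _ | _ <;> rcases t with _ | _
      · rfl
      · exact @Subsingleton.elim _ (hsub _ (by simp [inf_comm])) _ _
      · exact @Subsingleton.elim _ (hsub _ (by simp)) _ _
      · rfl)
  refine ⟨a, ?_, ?_⟩
  · rw [← hb1, ← evO_rs i1 l1 (range_pre i1) h1]
    exact congrArg _ (ha true)
  · rw [← hb2, ← evO_rs i2 l2 (range_pre i2) h2]
    exact congrArg _ (ha false)

end

end Pool.Agent.MG


end

section

/-!
# RIG: no vector fields on constant families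
-/

open CategoryTheory CategoryTheory.Limits AlgebraicGeometry TensorProduct

namespace Pool.Agent.MG

namespace RIG

/-- A derivation over an étale algebra is zero. -/
theorem der0 {P R S : Type} [CommRing P] [CommRing R] [CommRing S] (p : P →+* R) (hp : p.Etale)
    (φ : R →+* S) (d : R →+ S) (hd : ∀ a b, d (a * b) = φ a * d b + φ b * d a)
    (h0 : ∀ q, d (p q) = 0) (a : R) : d a = 0 := by
  let _ : Algebra P R := p.toAlgebra
  let _ : Algebra R S := φ.toAlgebra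
  let _ : Algebra P S := (φ.comp p).toAlgebra
  have : IsScalarTower P R S := IsScalarTower.of_algebraMap_eq' rfl
  have : Algebra.Etale P R := hp
  have h1 : d 1 = 0 := by
    have := h0 1
    rwa [map_one] at this
  let D : Derivation P R S :=
    { toFun := d
      map_add' := map_add d
      map_smul' := fun q r => by
        change d (p q * r) = (φ (p q)) * d r
        rw [hd, h0, mul_zero, add_zero]
      map_one_eq_zero' := h1
      leibniz' := fun a b => hd a b }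
  have : Subsingleton (Ω[R⁄P]) := inferInstance
  have h2 : D.liftKaehlerDifferential (KaehlerDifferential.D P R a) = D a :=
    D.liftKaehlerDifferential_comp_D a
  rw [Subsingleton.elim (KaehlerDifferential.D P R a) 0, map_zero] at h2
  exact h2.symm

/-- A derivation of an algebra which is étale over `k[x]` is determined by its value at `x`. -/
theorem der1 {k R S : Type} [Field k] [CommRing R] [Algebra k R] [CommRing S] (x : R)
    (hp : (Polynomial.aeval x : Polynomial k →ₐ[k] R).toRingHom.Etale)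
    (φ : R →+* S) (d : R →+ S) (hd : ∀ a b, d (a * b) = φ a * d b + φ b * d a)
    (hk : ∀ c : k, d (algebraMap k R c) = 0) (hx : d x = 0) (a : R) : d a = 0 := by
  refine der0 _ hp φ d hd ?_ a
  intro q
  change d (Polynomial.aeval x q) = 0
  induction q using Polynomial.induction_on with
  | C c => rw [Polynomial.aeval_C, hk]
  | add p q hp hq => rw [map_add, map_add, hp, hq, add_zero]
  | monomial n c h =>
    rw [pow_succ, ← mul_assoc, map_mul, hd, h, Polynomial.aeval_X, hx, mul_zero, mul_zero, add_zero]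

section

variable {k : Type} [Field k] {T : TC k} {K : Type} [Field K] [Algebra k K]

/-- `K ⊗ (R₁ ∩ e R₂) = 0`. -/
theorem flat0 (h2 : Function.Injective T.j2)
    (hyp : ∀ (a : T.R1) (b : T.R2), T.j1 a = T.e * T.j2 b → a = 0) (A : K ⊗[k] T.R1)
    (B : K ⊗[k] T.R2)
    (h : Algebra.TensorProduct.map (AlgHom.id k K) T.j1 A =
      (1 ⊗ₜ T.e) * Algebra.TensorProduct.map (AlgHom.id k K) T.j2 B) : A = 0 ∧ B = 0 := by
  let L2 : T.R2 →ₗ[k] T.R12 := (LinearMap.mulLeft k T.e) ∘ₗ T.j2.toLinearMap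
  let L : T.R1 × T.R2 →ₗ[k] T.R12 := T.j1.toLinearMap ∘ₗ LinearMap.fst k T.R1 T.R2 -
    L2 ∘ₗ LinearMap.snd k T.R1 T.R2
  have hL : Function.Injective L := by
    rw [injective_iff_map_eq_zero]
    rintro ⟨a, b⟩ hab
    have h3 : T.j1 a - T.e * T.j2 b = 0 := hab
    have h4 : a = 0 := hyp a b (sub_eq_zero.1 h3)
    have h5 : T.e * T.j2 b = 0 := by
      rw [h4, map_zero, zero_sub, neg_eq_zero] at h3
      exact h3
    have h6 : T.j2 b = 0 := by
      have := congrArg (fun t => T.dd (T.j2 T.y) * t) h5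
      simp only [mul_zero] at this
      rw [← mul_assoc, mul_comm (T.dd _) T.e, T.ey, one_mul] at this
      exact this
    have h7 : b = 0 := h2 (by rw [h6, map_zero])
    rw [h4, h7]
    rfl
  have hK : Function.Injective (LinearMap.lTensor K L) :=
    Module.Flat.lTensor_preserves_injective_linearMap L hL
  let z : K ⊗[k] (T.R1 × T.R2) := LinearMap.lTensor K (LinearMap.inl k T.R1 T.R2) A +
    LinearMap.lTensor K (LinearMap.inr k T.R1 T.R2) B
  have e1 : ∀ A, Algebra.TensorProduct.map (AlgHom.id k K) T.j1 A =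
      LinearMap.lTensor K T.j1.toLinearMap A := by
    intro A
    induction A with
    | zero => simp
    | tmul a b => simp
    | add a b ha hb => rw [map_add, map_add, ha, hb]
  have e2 : ∀ B, (1 ⊗ₜ T.e) * Algebra.TensorProduct.map (AlgHom.id k K) T.j2 B =
      LinearMap.lTensor K L2 B := by
    intro B
    induction B with
    | zero => simp
    | tmul a b => simp [L2]
    | add a b ha hb => rw [map_add, map_add, mul_add, ha, hb]
  have hz : LinearMap.lTensor K L z = 0 := by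
    have i1 : L ∘ₗ LinearMap.inl k T.R1 T.R2 = T.j1.toLinearMap := by
      ext a
      simp [L]
    have i2 : L ∘ₗ LinearMap.inr k T.R1 T.R2 = -L2 := by
      ext a
      simp [L]
    change LinearMap.lTensor K L (LinearMap.lTensor K (LinearMap.inl k T.R1 T.R2) A +
      LinearMap.lTensor K (LinearMap.inr k T.R1 T.R2) B) = 0
    rw [map_add, ← LinearMap.comp_apply, ← LinearMap.comp_apply, ← LinearMap.lTensor_comp,
      ← LinearMap.lTensor_comp, i1, i2, LinearMap.lTensor_neg, LinearMap.neg_apply, ← e1, ← e2, h,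
      add_neg_cancel]
  have hz0 : z = 0 := hK (by rw [hz, map_zero])
  have f1 : LinearMap.lTensor K (LinearMap.fst k T.R1 T.R2) z = A := by
    change LinearMap.lTensor K (LinearMap.fst k T.R1 T.R2) (LinearMap.lTensor K
      (LinearMap.inl k T.R1 T.R2) A + LinearMap.lTensor K (LinearMap.inr k T.R1 T.R2) B) = A
    rw [map_add, ← LinearMap.comp_apply, ← LinearMap.comp_apply, ← LinearMap.lTensor_comp,
      ← LinearMap.lTensor_comp, LinearMap.fst_comp_inl, LinearMap.fst_comp_inr]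
    simp
  have f2 : LinearMap.lTensor K (LinearMap.snd k T.R1 T.R2) z = B := by
    change LinearMap.lTensor K (LinearMap.snd k T.R1 T.R2) (LinearMap.lTensor K
      (LinearMap.inl k T.R1 T.R2) A + LinearMap.lTensor K (LinearMap.inr k T.R1 T.R2) B) = B
    rw [map_add, ← LinearMap.comp_apply, ← LinearMap.comp_apply, ← LinearMap.lTensor_comp,
      ← LinearMap.lTensor_comp, LinearMap.snd_comp_inl, LinearMap.snd_comp_inr]
    simp
  rw [hz0, map_zero] at f1 f2
  exact ⟨f1.symm, f2.symm⟩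

/-- The composite `a ↦ D (1 ⊗ a)`. -/
noncomputable def one {R : Type} [CommRing R] [Algebra k R] {M : Type} [AddCommGroup M]
    (D : K ⊗[k] R →+ M) : R →+ M where
  toFun a := D (1 ⊗ₜ a)
  map_zero' := by rw [TensorProduct.tmul_zero, map_zero]
  map_add' a b := by rw [TensorProduct.tmul_add, map_add]

/-- A `K`-linear derivation of `K ⊗ R` which vanishes at the coordinate is zero. -/
theorem der2 {R : Type} [CommRing R] [Algebra k R] (x : R)
    (hp : (Polynomial.aeval x : Polynomial k →ₐ[k] R).toRingHom.Etale)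
    (D : K ⊗[k] R →+ K ⊗[k] R) (hD : ∀ a b, D (a * b) = a * D b + b * D a)
    (hc : ∀ c : K, D (c ⊗ₜ 1) = 0) (hx : D (1 ⊗ₜ x) = 0) : D = 0 := by
  have h := der1 x hp
    (Algebra.TensorProduct.includeRight : R →ₐ[k] K ⊗[k] R).toRingHom (one D) ?_ ?_ hx
  · ext v
    induction v with
    | zero => simp
    | tmul b r =>
      have : b ⊗ₜ[k] r = (b ⊗ₜ 1) * (1 ⊗ₜ r) := by simp
      rw [this, hD, hc, mul_zero, add_zero]
      have h3 : D (1 ⊗ₜ r) = 0 := h r
      rw [h3, mul_zero]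
      rfl
    | add u v hu hv => rw [map_add, map_add, hu, hv]
  · intro a b
    change D (1 ⊗ₜ (a * b)) = (1 ⊗ₜ a) * D (1 ⊗ₜ b) + (1 ⊗ₜ b) * D (1 ⊗ₜ a)
    rw [← hD, Algebra.TensorProduct.tmul_mul_tmul, one_mul]
  · intro c
    change D (1 ⊗ₜ algebraMap k R c) = 0
    have : (1 : K) ⊗ₜ[k] algebraMap k R c = (algebraMap k K c) ⊗ₜ 1 := by
      rw [Algebra.algebraMap_eq_smul_one, Algebra.algebraMap_eq_smul_one, TensorProduct.smul_tmul]
    rw [this, hc]

/-- Compatible derivations of `K ⊗ R₁`, `K ⊗ R₂`, `K ⊗ R₁₂` vanish. -/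
theorem alg (h2 : Function.Injective T.j2)
    (hyp : ∀ (a : T.R1) (b : T.R2), T.j1 a = T.e * T.j2 b → a = 0)
    (D1 : K ⊗[k] T.R1 →+ K ⊗[k] T.R1) (D2 : K ⊗[k] T.R2 →+ K ⊗[k] T.R2)
    (D12 : K ⊗[k] T.R12 →+ K ⊗[k] T.R12)
    (l1 : ∀ a b, D1 (a * b) = a * D1 b + b * D1 a) (c1 : ∀ c : K, D1 (c ⊗ₜ 1) = 0)
    (l2 : ∀ a b, D2 (a * b) = a * D2 b + b * D2 a) (c2 : ∀ c : K, D2 (c ⊗ₜ 1) = 0)
    (l12 : ∀ a b, D12 (a * b) = a * D12 b + b * D12 a) (c12 : ∀ c : K, D12 (c ⊗ₜ 1) = 0)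
    (r1 : ∀ a, D12 (Algebra.TensorProduct.map (AlgHom.id k K) T.j1 a) =
      Algebra.TensorProduct.map (AlgHom.id k K) T.j1 (D1 a))
    (r2 : ∀ a, D12 (Algebra.TensorProduct.map (AlgHom.id k K) T.j2 a) =
      Algebra.TensorProduct.map (AlgHom.id k K) T.j2 (D2 a)) : D1 = 0 ∧ D2 = 0 := by
  set r := D12 (1 ⊗ₜ T.j1 T.x) with hr
  have hc : ∀ c : k, D12 (1 ⊗ₜ algebraMap k T.R12 c) = 0 := by
    intro c
    have : (1 : K) ⊗ₜ[k] algebraMap k T.R12 c = (algebraMap k K c) ⊗ₜ 1 := by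
      rw [Algebra.algebraMap_eq_smul_one, Algebra.algebraMap_eq_smul_one, TensorProduct.smul_tmul]
    rw [this, c12]
  have key : ∀ a : T.R12, D12 (1 ⊗ₜ a) - r * (1 ⊗ₜ T.dd a) = 0 := by
    let d : T.R12 →+ K ⊗[k] T.R12 :=
      { toFun := fun a => D12 (1 ⊗ₜ a) - r * (1 ⊗ₜ T.dd a)
        map_zero' := by simp
        map_add' := fun a b => by
          rw [TensorProduct.tmul_add, map_add, map_add, TensorProduct.tmul_add]
          ring }
    have het : (Polynomial.aeval (T.j1 T.x) : Polynomial k →ₐ[k] T.R12).toRingHom.Etale := by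
      have h := RingHom.Etale.stableUnderComposition _ _ T.etx T.et1
      have h3 : (Polynomial.aeval (T.j1 T.x) : Polynomial k →ₐ[k] T.R12) =
          T.j1.comp (Polynomial.aeval T.x) := by
        ext
        simp
      rw [h3]
      exact h
    refine der1 (T.j1 T.x) het
      (Algebra.TensorProduct.includeRight : T.R12 →ₐ[k] K ⊗[k] T.R12).toRingHom d ?_ ?_ ?_
    · intro a b
      change D12 (1 ⊗ₜ (a * b)) - r * (1 ⊗ₜ T.dd (a * b)) =
        (1 ⊗ₜ a) * (D12 (1 ⊗ₜ b) - r * (1 ⊗ₜ T.dd b)) +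
        (1 ⊗ₜ b) * (D12 (1 ⊗ₜ a) - r * (1 ⊗ₜ T.dd a))
      have e1 : (1 : K) ⊗ₜ[k] (a * b) = (1 ⊗ₜ a) * (1 ⊗ₜ b) := by
        rw [Algebra.TensorProduct.tmul_mul_tmul, one_mul]
      have e2 : (1 : K) ⊗ₜ[k] (T.dd (a * b)) = (1 ⊗ₜ a) * (1 ⊗ₜ T.dd b) +
          (1 ⊗ₜ b) * (1 ⊗ₜ T.dd a) := by
        rw [Derivation.leibniz, smul_eq_mul, smul_eq_mul, TensorProduct.tmul_add,
          Algebra.TensorProduct.tmul_mul_tmul, Algebra.TensorProduct.tmul_mul_tmul, one_mul]
      rw [e1, l12, e2]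
      ring
    · intro c
      change D12 (1 ⊗ₜ algebraMap k T.R12 c) - r * (1 ⊗ₜ T.dd (algebraMap k T.R12 c)) = 0
      rw [hc, Derivation.map_algebraMap, TensorProduct.tmul_zero, mul_zero, sub_zero]
    · change D12 (1 ⊗ₜ T.j1 T.x) - r * (1 ⊗ₜ T.dd (T.j1 T.x)) = 0
      rw [T.ddx, ← hr, ← Algebra.TensorProduct.one_def, mul_one, sub_self]
  have hy : (1 ⊗ₜ T.e) * D12 (1 ⊗ₜ T.j2 T.y) = r := by
    have h := sub_eq_zero.1 (key (T.j2 T.y))
    rw [h, mul_left_comm, Algebra.TensorProduct.tmul_mul_tmul, one_mul, T.ey,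
      ← Algebra.TensorProduct.one_def, mul_one]
  have e1 : Algebra.TensorProduct.map (AlgHom.id k K) T.j1 (1 ⊗ₜ T.x) = 1 ⊗ₜ T.j1 T.x := by simp
  have e2 : Algebra.TensorProduct.map (AlgHom.id k K) T.j2 (1 ⊗ₜ T.y) = 1 ⊗ₜ T.j2 T.y := by simp
  have hAB := flat0 h2 hyp (D1 (1 ⊗ₜ T.x)) (D2 (1 ⊗ₜ T.y)) (by
    rw [← r1, ← r2, e1, e2, hy])
  exact ⟨der2 T.x T.etx D1 l1 c1 hAB.1, der2 T.y T.ety D2 l2 c2 hAB.2⟩

end

section geo

variable {n : ℕ} {K : Type} [Field K] {x : Fam n K} (v : VField x)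

theorem dres {U V : x.X.Opens} (h : U ≤ V) (a : Γ(x.X, V)) :
    v.D U (rs x.X h a) = rs x.X h (v.D V a) := v.res U V h a

/-- A derivation which vanishes on the functions on an affine open vanishes on the functions on its
basic opens. -/
theorem basic0 {W : x.X.Opens} (hW : IsAffineOpen W) (h0 : v.D W = 0) (f : Γ(x.X, W)) :
    v.D (x.X.basicOpen f) = 0 := by
  have := hW.isLocalization_basicOpen f
  ext s
  obtain ⟨⟨a, ⟨_, m, rfl⟩⟩, hs⟩ := IsLocalization.surj (Submonoid.powers f) s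
  have hle : x.X.basicOpen f ≤ W := x.X.basicOpen_le f
  have e : ∀ b : Γ(x.X, W), algebraMap Γ(x.X, W) Γ(x.X, x.X.basicOpen f) b = rs x.X hle b :=
    fun _ => rfl
  have hz : ∀ b : Γ(x.X, W), v.D (x.X.basicOpen f)
      (algebraMap Γ(x.X, W) Γ(x.X, x.X.basicOpen f) b) = 0 := by
    intro b
    rw [e, dres, h0]
    exact map_zero _
  have h1 := congrArg (v.D (x.X.basicOpen f)) hs
  rw [hz, v.mul, hz, mul_zero, zero_add] at h1
  have hu : IsUnit (algebraMap Γ(x.X, W) Γ(x.X, x.X.basicOpen f) (f ^ m)) :=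
    IsLocalization.map_units (M := Submonoid.powers f) _ ⟨f ^ m, m, rfl⟩
  exact (hu.mul_right_eq_zero).1 h1

theorem all0 {U1 U2 : x.X.Opens} (hc : U1 ⊔ U2 = ⊤) (a1 : IsAffineOpen U1) (a2 : IsAffineOpen U2)
    (h1 : v.D U1 = 0) (h2 : v.D U2 = 0) (U : x.X.Opens) : v.D U = 0 := by
  have hloc : ∀ p : U, ∃ (V : x.X.Opens) (_ : V ≤ U), p.1 ∈ V ∧ v.D V = 0 := by
    intro p
    have hp : p.1 ∈ U1 ⊔ U2 := by
      rw [hc]
      trivial
    rcases hp with hp | hp
    · obtain ⟨f, hf, hpf⟩ := a1.exists_basicOpen_le p hp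
      exact ⟨_, hf, hpf, basic0 v a1 h1 f⟩
    · obtain ⟨f, hf, hpf⟩ := a2.exists_basicOpen_le p hp
      exact ⟨_, hf, hpf, basic0 v a2 h2 f⟩
  choose V hV hpV hDV using hloc
  ext s
  refine x.X.sheaf.eq_of_locally_eq' V U (fun p => homOfLE (hV p)) ?_ _ _ ?_
  · intro p hp
    rw [TopologicalSpace.Opens.mem_iSup]
    exact ⟨⟨p, hp⟩, hpV ⟨p, hp⟩⟩
  · intro p
    change rs x.X (hV p) (v.D U s) = rs x.X (hV p) 0
    rw [← dres, hDV, map_zero]
    rfl

end geo

end RIG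

open _root_.Pool.Agent.MG.RIG in
theorem t_RIG (hCHB : Stmt_CHB) : Stmt_RIG := by
  intro n k _ C T ch hyp K _ _ τ hτ v U
  obtain ⟨c, hc⟩ := hCHB ch.ct ch.aff K τ hτ
  have haff : IsAffineHom (pullback.fst C.π (spMap (algebraMap k K))) :=
    MorphismProperty.pullback_fst _ _ inferInstance
  have a1 : IsAffineOpen c.U1 := by
    rw [← hc.h1]
    exact ch.aff.aff1.preimage (pullback.fst C.π (spMap (algebraMap k K)))
  have a2 : IsAffineOpen c.U2 := by
    rw [← hc.h2]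
    exact ch.aff.aff2.preimage (pullback.fst C.π (spMap (algebraMap k K)))
  let D1 : K ⊗[k] T.R1 →+ K ⊗[k] T.R1 :=
    (c.eq1.symm : _ →+ _).comp ((v.D c.U1).comp (c.eq1 : _ →+ _))
  let D2 : K ⊗[k] T.R2 →+ K ⊗[k] T.R2 :=
    (c.eq2.symm : _ →+ _).comp ((v.D c.U2).comp (c.eq2 : _ →+ _))
  let D12 : K ⊗[k] T.R12 →+ K ⊗[k] T.R12 :=
    (c.eq12.symm : _ →+ _).comp ((v.D (c.U1 ⊓ c.U2)).comp (c.eq12 : _ →+ _))
  have d1 : ∀ a, D1 a = c.eq1.symm (v.D c.U1 (c.eq1 a)) := fun _ => rfl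
  have d2 : ∀ a, D2 a = c.eq2.symm (v.D c.U2 (c.eq2 a)) := fun _ => rfl
  have d12 : ∀ a, D12 a = c.eq12.symm (v.D (c.U1 ⊓ c.U2) (c.eq12 a)) := fun _ => rfl
  have R1 : ∀ a, rs (constFam C K τ hτ).X inf_le_left (c.eq1 a) =
    c.eq12 (Algebra.TensorProduct.map (AlgHom.id k K) T.j1 a) := fun a => c.rs1 a
  have R2 : ∀ a, rs (constFam C K τ hτ).X inf_le_right (c.eq2 a) =
    c.eq12 (Algebra.TensorProduct.map (AlgHom.id k K) T.j2 a) := fun a => c.rs2 a
  have key := alg ch.inj2 hyp D1 D2 D12 ?_ ?_ ?_ ?_ ?_ ?_ ?_ ?_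
  · refine all0 v c.cover a1 a2 ?_ ?_ U
    · ext s
      have h := DFunLike.congr_fun key.1 (c.eq1.symm s)
      rw [d1, c.eq1.apply_symm_apply] at h
      exact (map_eq_zero_iff _ c.eq1.symm.injective).1 h
    · ext s
      have h := DFunLike.congr_fun key.2 (c.eq2.symm s)
      rw [d2, c.eq2.apply_symm_apply] at h
      exact (map_eq_zero_iff _ c.eq2.symm.injective).1 h
  · intro a b
    rw [d1, d1, d1, RingEquiv.symm_apply_eq, map_mul, v.mul, map_add, map_mul, map_mul,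
      c.eq1.apply_symm_apply, c.eq1.apply_symm_apply]
  · intro b
    rw [d1, RingEquiv.symm_apply_eq, map_zero]
    exact (congrArg (v.D c.U1) (c.c1 b)).trans (v.const _ _)
  · intro a b
    rw [d2, d2, d2, RingEquiv.symm_apply_eq, map_mul, v.mul, map_add, map_mul, map_mul,
      c.eq2.apply_symm_apply, c.eq2.apply_symm_apply]
  · intro b
    rw [d2, RingEquiv.symm_apply_eq, map_zero]
    exact (congrArg (v.D c.U2) (c.c2 b)).trans (v.const _ _)
  · intro a b
    rw [d12, d12, d12, RingEquiv.symm_apply_eq, map_mul, v.mul, map_add, map_mul, map_mul,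
      c.eq12.apply_symm_apply, c.eq12.apply_symm_apply]
  · intro b
    rw [d12, RingEquiv.symm_apply_eq, map_zero]
    exact (congrArg (v.D (c.U1 ⊓ c.U2)) (c.c12 b)).trans (v.const _ _)
  · intro a
    rw [d12, d1, RingEquiv.symm_apply_eq, ← R1, ← R1, c.eq1.apply_symm_apply, dres]
  · intro a
    rw [d12, d2, RingEquiv.symm_apply_eq, ← R2, ← R2, c.eq2.apply_symm_apply, dres]

end Pool.Agent.MG


end

section

/-!
# Module COVI: the genus can be computed with every affine cover with two elements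
-/

open CategoryTheory CategoryTheory.Limits AlgebraicGeometry TensorProduct

namespace Pool.Agent.MG

namespace COVI

variable {X : Scheme.{0}}

theorem rs_rs {U V W : X.Opens} (h : U ≤ V) (h' : V ≤ W) (a : Γ(X, W)) :
    rs X h (rs X h' a) = rs X (h.trans h') a := by
  change (X.presheaf.map (homOfLE h').op ≫ X.presheaf.map (homOfLE h).op) a = _
  rw [← Functor.map_comp, ← op_comp]
  rfl

theorem rs_self {U : X.Opens} (a : Γ(X, U)) : rs X (le_refl U) a = a := by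
  change X.presheaf.map (𝟙 _) a = a
  rw [CategoryTheory.Functor.map_id]
  rfl

/-- Gluing of two functions. -/
theorem glue {U V W I : X.Opens} (h1 : U ≤ W) (h2 : V ≤ W) (hc : W ≤ U ⊔ V)
    (i1 : I ≤ U) (i2 : I ≤ V) (hI : U ⊓ V ≤ I)
    (a : Γ(X, U)) (b : Γ(X, V)) (hab : rs X i1 a = rs X i2 b) :
    ∃ c : Γ(X, W), rs X h1 c = a ∧ rs X h2 c = b := by
  have hle : ∀ i : Bool, (Bool.rec V U i : X.Opens) ≤ W := by
    intro i
    cases i
    · exact h2
    · exact h1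
  have key : ∀ (Z : X.Opens) (z1 : Z ≤ U) (z2 : Z ≤ V), rs X z1 a = rs X z2 b := by
    intro Z z1 z2
    have hZ : Z ≤ I := (le_inf z1 z2).trans hI
    have e1 : rs X z1 a = rs X hZ (rs X i1 a) := (rs_rs _ _ _).symm
    have e2 : rs X z2 b = rs X hZ (rs X i2 b) := (rs_rs _ _ _).symm
    rw [e1, e2, hab]
  obtain ⟨c, hc1, -⟩ := X.sheaf.existsUnique_gluing' (fun i : Bool => (Bool.rec V U i : X.Opens)) W
    (fun i => homOfLE (hle i))
    (by
      refine hc.trans (sup_le ?_ ?_)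
      · exact le_iSup (fun i : Bool => (Bool.rec V U i : X.Opens)) true
      · exact le_iSup (fun i : Bool => (Bool.rec V U i : X.Opens)) false)
    (fun i => match i with
      | true => a
      | false => b)
    (by
      intro i j
      rcases i with _ | _ <;> rcases j with _ | _
      · rfl
      · exact (key _ _ _).symm
      · exact key _ _ _
      · rfl)
  exact ⟨c, hc1 true, hc1 false⟩

/-- Two functions which agree on the members of a cover. -/
theorem eq_of {U V W : X.Opens} (h1 : U ≤ W) (h2 : V ≤ W) (hc : W ≤ U ⊔ V) (a b : Γ(X, W))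
    (e1 : rs X h1 a = rs X h1 b) (e2 : rs X h2 a = rs X h2 b) : a = b :=
  X.sheaf.eq_of_locally_eq₂ (homOfLE h1) (homOfLE h2) hc a b e1 e2

/-! ### Acyclicity of affine schemes -/

theorem pow_mul_eq {W V1 V2 V12 : X.Opens} (l2 : V2 ≤ W) (_ : V12 ≤ V1) (i2 : V12 ≤ V2)
    (hI : V1 ⊓ V2 ≤ V12) (h2 : IsAffineOpen V2) (h12 : IsAffineOpen V12) (f : Γ(X, W))
    (hf : X.basicOpen f ≤ V1) (m : Γ(X, V12)) :
    ∃ (n : ℕ) (b : Γ(X, V2)), rs X (i2.trans l2) f ^ n * m = rs X i2 b := by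
  let D : X.Opens := V2 ⊓ X.basicOpen f
  have d2 : D ≤ V2 := inf_le_left
  have d12 : D ≤ V12 := (le_inf (inf_le_right.trans hf) inf_le_left).trans hI
  have e2 : D = X.basicOpen (rs X l2 f) := (X.basicOpen_res f (homOfLE l2).op).symm
  have e12 : D = X.basicOpen (rs X (i2.trans l2) f) := by
    have h := X.basicOpen_res f (homOfLE (i2.trans l2)).op
    refine Eq.trans ?_ h.symm
    exact le_antisymm (le_inf d12 inf_le_right) (le_inf (inf_le_left.trans i2) inf_le_right)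
  have hl2 := h2.isLocalization_of_eq_basicOpen (f := rs X l2 f) (homOfLE d2) e2
  have hl12 := h12.isLocalization_of_eq_basicOpen (f := rs X (i2.trans l2) f) (homOfLE d12) e12
  have s1 : ∃ (N : ℕ) (b : Γ(X, V2)),
      rs X d12 m * rs X d2 (rs X l2 f) ^ N = rs X d2 b := by
    let _ : Algebra Γ(X, V2) Γ(X, D) := (rs X d2).toAlgebra
    have hl : IsLocalization.Away (rs X l2 f) Γ(X, D) := hl2
    exact IsLocalization.Away.surj (rs X l2 f) (rs X d12 m)
  obtain ⟨N, b, hb⟩ := s1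
  have s2 : ∃ n : ℕ, rs X (i2.trans l2) f ^ n * (m * rs X (i2.trans l2) f ^ N) =
      rs X (i2.trans l2) f ^ n * rs X i2 b := by
    let _ : Algebra Γ(X, V12) Γ(X, D) := (rs X d12).toAlgebra
    have hl : IsLocalization.Away (rs X (i2.trans l2) f) Γ(X, D) := hl12
    refine IsLocalization.Away.exists_of_eq (S := Γ(X, D)) (rs X (i2.trans l2) f) ?_
    change rs X d12 (m * rs X (i2.trans l2) f ^ N) = rs X d12 (rs X i2 b)
    rw [map_mul, map_pow, rs_rs, rs_rs]
    rw [rs_rs] at hb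
    exact hb
  obtain ⟨n, hn⟩ := s2
  refine ⟨n + N, rs X l2 f ^ n * b, ?_⟩
  rw [map_mul, map_pow, rs_rs, ← hn, pow_add]
  ring

/-- The functions `f` such that `f m` is the sum of two functions. -/
def idl {W V1 V2 V12 : X.Opens} (l1 : V1 ≤ W) (l2 : V2 ≤ W) (i1 : V12 ≤ V1) (i2 : V12 ≤ V2)
    (m : Γ(X, V12)) : Ideal Γ(X, W) where
  carrier := {f | ∃ (a : Γ(X, V1)) (b : Γ(X, V2)),
    rs X (i2.trans l2) f * m = rs X i1 a + rs X i2 b}
  add_mem' := by
    rintro f f' ⟨a, b, h⟩ ⟨a', b', h'⟩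
    refine ⟨a + a', b + b', ?_⟩
    rw [map_add, add_mul, h, h', map_add, map_add]
    ring
  zero_mem' := ⟨0, 0, by rw [map_zero, zero_mul, map_zero, map_zero, add_zero]⟩
  smul_mem' := by
    rintro c f ⟨a, b, h⟩
    refine ⟨rs X l1 c * a, rs X l2 c * b, ?_⟩
    rw [smul_eq_mul, map_mul, mul_assoc, h, map_mul, map_mul, rs_rs, rs_rs, mul_add]

theorem acyc {W V1 V2 V12 : X.Opens} (hW : IsAffineOpen W) (l1 : V1 ≤ W) (l2 : V2 ≤ W)
    (hc : W ≤ V1 ⊔ V2) (i1 : V12 ≤ V1) (i2 : V12 ≤ V2) (hI : V1 ⊓ V2 ≤ V12)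
    (h1 : IsAffineOpen V1) (h2 : IsAffineOpen V2) (h12 : IsAffineOpen V12) (m : Γ(X, V12)) :
    ∃ (a : Γ(X, V1)) (b : Γ(X, V2)), m = rs X i1 a - rs X i2 b := by
  have htop : (idl l1 l2 i1 i2 m).radical = ⊤ := by
    rw [← Ideal.span_eq (idl l1 l2 i1 i2 m).radical, ← hW.iSup_basicOpen_eq_self_iff]
    apply le_antisymm
    · exact iSup_le fun f => X.basicOpen_le _
    · intro p hp
      have hp' : p ∈ V1 ∨ p ∈ V2 := hc hp
      rcases hp' with hp1 | hp2
      · obtain ⟨f, hf1, hf2⟩ := hW.exists_basicOpen_le ⟨p, hp1⟩ hp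
        obtain ⟨n, b, hb⟩ := pow_mul_eq l2 i1 i2 hI h2 h12 f hf1 m
        have hf : f ∈ (idl l1 l2 i1 i2 m).radical := by
          refine ⟨n, 0, b, ?_⟩
          rw [map_pow, hb, map_zero, zero_add]
        exact (le_iSup (fun f : ((idl l1 l2 i1 i2 m).radical : Set Γ(X, W)) =>
          X.basicOpen (f : Γ(X, W))) ⟨f, hf⟩) hf2
      · obtain ⟨f, hf1, hf2⟩ := hW.exists_basicOpen_le ⟨p, hp2⟩ hp
        obtain ⟨n, b, hb⟩ := pow_mul_eq l1 i2 i1 (by rw [inf_comm]; exact hI) h1 h12 f hf1 m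
        have hf : f ∈ (idl l1 l2 i1 i2 m).radical := by
          refine ⟨n, b, 0, ?_⟩
          rw [map_pow, hb, map_zero, add_zero]
        exact (le_iSup (fun f : ((idl l1 l2 i1 i2 m).radical : Set Γ(X, W)) =>
          X.basicOpen (f : Γ(X, W))) ⟨f, hf⟩) hf2
  have h1 : (1 : Γ(X, W)) ∈ idl l1 l2 i1 i2 m := by
    rw [Ideal.radical_eq_top.1 htop]
    trivial
  obtain ⟨a, b, hab⟩ := h1
  refine ⟨a, -b, ?_⟩
  rw [map_one, one_mul] at hab
  rw [hab, map_neg, sub_neg_eq_add]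

/-! ### The relation between the functions on the two intersections -/

/-- `s` on `P ∩ Q` and `t` on `U ∩ V` represent the same class. -/
def Rel (P Q U V : X.Opens) (s : Γ(X, P ⊓ Q)) (t : Γ(X, U ⊓ V)) : Prop :=
  ∃ (a1 : Γ(X, P ⊓ U)) (b1 : Γ(X, Q ⊓ U)) (a2 : Γ(X, P ⊓ V)) (b2 : Γ(X, Q ⊓ V)),
    (∀ (Z : X.Opens) (hP : Z ≤ P) (hQ : Z ≤ Q) (hU : Z ≤ U),
      rs X (le_inf hP hQ) s = rs X (le_inf hP hU) a1 - rs X (le_inf hQ hU) b1) ∧
    (∀ (Z : X.Opens) (hP : Z ≤ P) (hQ : Z ≤ Q) (hV : Z ≤ V),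
      rs X (le_inf hP hQ) s = rs X (le_inf hP hV) a2 - rs X (le_inf hQ hV) b2) ∧
    (∀ (Z : X.Opens) (hP : Z ≤ P) (hU : Z ≤ U) (hV : Z ≤ V),
      rs X (le_inf hU hV) t = rs X (le_inf hP hU) a1 - rs X (le_inf hP hV) a2) ∧
    ∀ (Z : X.Opens) (hQ : Z ≤ Q) (hU : Z ≤ U) (hV : Z ≤ V),
      rs X (le_inf hU hV) t = rs X (le_inf hQ hU) b1 - rs X (le_inf hQ hV) b2

theorem Rel.symm {P Q U V : X.Opens} {s : Γ(X, P ⊓ Q)} {t : Γ(X, U ⊓ V)} (h : Rel P Q U V s t) :
    Rel U V P Q t s := by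
  obtain ⟨a1, b1, a2, b2, h1, h2, h3, h4⟩ := h
  refine ⟨rs X (le_inf inf_le_right inf_le_left) a1, rs X (le_inf inf_le_right inf_le_left) a2,
    rs X (le_inf inf_le_right inf_le_left) b1, rs X (le_inf inf_le_right inf_le_left) b2,
    ?_, ?_, ?_, ?_⟩
  · intro Z hU hV hP
    rw [rs_rs, rs_rs]
    exact h3 Z hP hU hV
  · intro Z hU hV hQ
    rw [rs_rs, rs_rs]
    exact h4 Z hQ hU hV
  · intro Z hU hP hQ
    rw [rs_rs, rs_rs]
    exact h1 Z hP hQ hU
  · intro Z hV hP hQ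
    rw [rs_rs, rs_rs]
    exact h2 Z hP hQ hV

theorem Rel.sub {P Q U V : X.Opens} {s s' : Γ(X, P ⊓ Q)} {t t' : Γ(X, U ⊓ V)}
    (h : Rel P Q U V s t) (h' : Rel P Q U V s' t') : Rel P Q U V (s - s') (t - t') := by
  obtain ⟨a1, b1, a2, b2, h1, h2, h3, h4⟩ := h
  obtain ⟨a1', b1', a2', b2', h1', h2', h3', h4'⟩ := h'
  refine ⟨a1 - a1', b1 - b1', a2 - a2', b2 - b2', ?_, ?_, ?_, ?_⟩
  · intro Z hP hQ hU
    rw [map_sub, map_sub, map_sub, h1 Z hP hQ hU, h1' Z hP hQ hU]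
    ring
  · intro Z hP hQ hU
    rw [map_sub, map_sub, map_sub, h2 Z hP hQ hU, h2' Z hP hQ hU]
    ring
  · intro Z hP hQ hU
    rw [map_sub, map_sub, map_sub, h3 Z hP hQ hU, h3' Z hP hQ hU]
    ring
  · intro Z hP hQ hU
    rw [map_sub, map_sub, map_sub, h4 Z hP hQ hU, h4' Z hP hQ hU]
    ring

theorem Rel.zero (P Q U V : X.Opens) : Rel P Q U V 0 0 :=
  ⟨0, 0, 0, 0, fun _ _ _ _ => by simp, fun _ _ _ _ => by simp, fun _ _ _ _ => by simp,
    fun _ _ _ _ => by simp⟩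

theorem Rel.add {P Q U V : X.Opens} {s s' : Γ(X, P ⊓ Q)} {t t' : Γ(X, U ⊓ V)}
    (h : Rel P Q U V s t) (h' : Rel P Q U V s' t') : Rel P Q U V (s + s') (t + t') := by
  have h2 := h.sub ((Rel.zero P Q U V).sub h')
  rwa [zero_sub, zero_sub, sub_neg_eq_add, sub_neg_eq_add] at h2

theorem Rel.coef {k : Type} [Field k] (π : X ⟶ Sp k) {P Q U V : X.Opens} {s : Γ(X, P ⊓ Q)}
    {t : Γ(X, U ⊓ V)} (h : Rel P Q U V s t) (c : k) :
    Rel P Q U V (MG.coef π (P ⊓ Q) c * s) (MG.coef π (U ⊓ V) c * t) := by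
  obtain ⟨a1, b1, a2, b2, h1, h2, h3, h4⟩ := h
  refine ⟨MG.coef π _ c * a1, MG.coef π _ c * b1, MG.coef π _ c * a2, MG.coef π _ c * b2,
    ?_, ?_, ?_, ?_⟩
  · intro Z hP hQ hU
    rw [map_mul, map_mul, map_mul, coef_rs, coef_rs, coef_rs, h1 Z hP hQ hU, mul_sub]
  · intro Z hP hQ hU
    rw [map_mul, map_mul, map_mul, coef_rs, coef_rs, coef_rs, h2 Z hP hQ hU, mul_sub]
  · intro Z hP hQ hU
    rw [map_mul, map_mul, map_mul, coef_rs, coef_rs, coef_rs, h3 Z hP hQ hU, mul_sub]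
  · intro Z hP hQ hU
    rw [map_mul, map_mul, map_mul, coef_rs, coef_rs, coef_rs, h4 Z hP hQ hU, mul_sub]

theorem rel_zero_of {P Q U V : X.Opens} {t : Γ(X, U ⊓ V)} {a : Γ(X, U)} {b : Γ(X, V)}
    (h : t = rs X inf_le_left a + rs X inf_le_right b) : Rel P Q U V 0 t := by
  refine ⟨rs X inf_le_right a, rs X inf_le_right a, -rs X inf_le_right b, -rs X inf_le_right b,
    ?_, ?_, ?_, ?_⟩
  · intro Z hP hQ hU
    rw [map_zero, rs_rs, rs_rs, sub_self]
  · intro Z hP hQ hV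
    rw [map_zero, map_neg, map_neg, rs_rs, rs_rs, sub_self]
  · intro Z hP hU hV
    rw [h, map_add, map_neg, rs_rs, rs_rs, rs_rs, rs_rs, sub_neg_eq_add]
  · intro Z hP hU hV
    rw [h, map_add, map_neg, rs_rs, rs_rs, rs_rs, rs_rs, sub_neg_eq_add]

theorem of_rel_zero {P Q U V : X.Opens} (hPQ : P ⊔ Q = ⊤) {t : Γ(X, U ⊓ V)}
    (h : Rel P Q U V 0 t) :
    ∃ (a : Γ(X, U)) (b : Γ(X, V)), t = rs X inf_le_left a + rs X inf_le_right b := by
  obtain ⟨a1, b1, a2, b2, h1, h2, h3, h4⟩ := h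
  have cov : ∀ W : X.Opens, W ≤ P ⊓ W ⊔ Q ⊓ W := by
    intro W
    rw [← inf_sup_right, hPQ, top_inf_eq]
  have g1 := glue (X := X) (U := P ⊓ U) (V := Q ⊓ U) (W := U) (I := P ⊓ Q ⊓ U)
    inf_le_right inf_le_right (cov U)
    (le_inf (inf_le_left.trans inf_le_left) inf_le_right)
    (le_inf (inf_le_left.trans inf_le_right) inf_le_right)
    (le_inf (le_inf (inf_le_left.trans inf_le_left) (inf_le_right.trans inf_le_left))
      (inf_le_left.trans inf_le_right)) a1 b1 (by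
      have := h1 (P ⊓ Q ⊓ U) (inf_le_left.trans inf_le_left) (inf_le_left.trans inf_le_right)
        inf_le_right
      rw [map_zero] at this
      exact sub_eq_zero.1 this.symm)
  have g2 := glue (X := X) (U := P ⊓ V) (V := Q ⊓ V) (W := V) (I := P ⊓ Q ⊓ V)
    inf_le_right inf_le_right (cov V)
    (le_inf (inf_le_left.trans inf_le_left) inf_le_right)
    (le_inf (inf_le_left.trans inf_le_right) inf_le_right)
    (le_inf (le_inf (inf_le_left.trans inf_le_left) (inf_le_right.trans inf_le_left))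
      (inf_le_left.trans inf_le_right)) a2 b2 (by
      have := h2 (P ⊓ Q ⊓ V) (inf_le_left.trans inf_le_left) (inf_le_left.trans inf_le_right)
        inf_le_right
      rw [map_zero] at this
      exact sub_eq_zero.1 this.symm)
  obtain ⟨α, hα1, hα2⟩ := g1
  obtain ⟨β, hβ1, hβ2⟩ := g2
  refine ⟨α, -β, ?_⟩
  refine eq_of (U := P ⊓ (U ⊓ V)) (V := Q ⊓ (U ⊓ V)) inf_le_right inf_le_right (cov _) _ _ ?_ ?_
  · have e := h3 (P ⊓ (U ⊓ V)) inf_le_left (inf_le_right.trans inf_le_left)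
      (inf_le_right.trans inf_le_right)
    rw [← hα1, ← hβ1, rs_rs, rs_rs] at e
    rw [map_add, map_neg, map_neg, rs_rs, rs_rs, ← sub_eq_add_neg]
    exact e
  · have e := h4 (Q ⊓ (U ⊓ V)) inf_le_left (inf_le_right.trans inf_le_left)
      (inf_le_right.trans inf_le_right)
    rw [← hα2, ← hβ2, rs_rs, rs_rs] at e
    rw [map_add, map_neg, map_neg, rs_rs, rs_rs, ← sub_eq_add_neg]
    exact e

theorem exists_rel (hsep : ∀ W W' : X.Opens, IsAffineOpen W → IsAffineOpen W' →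
    IsAffineOpen (W ⊓ W')) {P Q U V : X.Opens} (hP : IsAffineOpen P) (hQ : IsAffineOpen Q)
    (hU : IsAffineOpen U) (hV : IsAffineOpen V) (hPQ : P ⊔ Q = ⊤) (s : Γ(X, P ⊓ Q)) :
    ∃ t, Rel P Q U V s t := by
  have cov : ∀ W : X.Opens, W ≤ P ⊓ W ⊔ Q ⊓ W := by
    intro W
    rw [← inf_sup_right, hPQ, top_inf_eq]
  have step : ∀ W : X.Opens, IsAffineOpen W → ∃ (a : Γ(X, P ⊓ W)) (b : Γ(X, Q ⊓ W)),
      ∀ (Z : X.Opens) (hP : Z ≤ P) (hQ : Z ≤ Q) (hU : Z ≤ W),
      rs X (le_inf hP hQ) s = rs X (le_inf hP hU) a - rs X (le_inf hQ hU) b := by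
    intro W hW
    obtain ⟨a, b, hab⟩ := acyc (X := X) (W := W) (V1 := P ⊓ W) (V2 := Q ⊓ W) (V12 := P ⊓ Q ⊓ W)
      hW inf_le_right inf_le_right (cov W)
      (le_inf (inf_le_left.trans inf_le_left) inf_le_right)
      (le_inf (inf_le_left.trans inf_le_right) inf_le_right)
      (le_inf (le_inf (inf_le_left.trans inf_le_left) (inf_le_right.trans inf_le_left))
        (inf_le_left.trans inf_le_right)) (hsep _ _ hP hW) (hsep _ _ hQ hW)
      (hsep _ _ (hsep _ _ hP hQ) hW) (rs X inf_le_left s)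
    refine ⟨a, b, ?_⟩
    intro Z hZP hZQ hZW
    have e := congrArg (rs X (le_inf (le_inf hZP hZQ) hZW)) hab
    rw [map_sub, rs_rs, rs_rs, rs_rs] at e
    exact e
  obtain ⟨a1, b1, h1⟩ := step U hU
  obtain ⟨a2, b2, h2⟩ := step V hV
  have g := glue (X := X) (U := P ⊓ (U ⊓ V)) (V := Q ⊓ (U ⊓ V)) (W := U ⊓ V)
    (I := P ⊓ Q ⊓ (U ⊓ V)) inf_le_right inf_le_right (cov _)
    (le_inf (inf_le_left.trans inf_le_left) inf_le_right)
    (le_inf (inf_le_left.trans inf_le_right) inf_le_right)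
    (le_inf (le_inf (inf_le_left.trans inf_le_left) (inf_le_right.trans inf_le_left))
      (inf_le_left.trans inf_le_right))
    (rs X (le_inf inf_le_left (inf_le_right.trans inf_le_left)) a1 -
      rs X (le_inf inf_le_left (inf_le_right.trans inf_le_right)) a2)
    (rs X (le_inf inf_le_left (inf_le_right.trans inf_le_left)) b1 -
      rs X (le_inf inf_le_left (inf_le_right.trans inf_le_right)) b2) (by
      rw [map_sub, map_sub, rs_rs, rs_rs, rs_rs, rs_rs]
      have e1 := h1 (P ⊓ Q ⊓ (U ⊓ V)) (inf_le_left.trans inf_le_left)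
        (inf_le_left.trans inf_le_right) (inf_le_right.trans inf_le_left)
      have e2 := h2 (P ⊓ Q ⊓ (U ⊓ V)) (inf_le_left.trans inf_le_left)
        (inf_le_left.trans inf_le_right) (inf_le_right.trans inf_le_right)
      have e3 := e1.symm.trans e2
      rw [sub_eq_sub_iff_add_eq_add] at e3 ⊢
      rw [e3, add_comm])
  obtain ⟨t, ht1, ht2⟩ := g
  refine ⟨t, a1, b1, a2, b2, h1, h2, ?_, ?_⟩
  · intro Z zP zU zV
    have e := congrArg (rs X (le_inf zP (le_inf zU zV))) ht1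
    rw [map_sub, rs_rs, rs_rs, rs_rs] at e
    exact e
  · intro Z zP zU zV
    have e := congrArg (rs X (le_inf zP (le_inf zU zV))) ht2
    rw [map_sub, rs_rs, rs_rs, rs_rs] at e
    exact e

end COVI

open _root_.Pool.Agent.MG.COVI in
theorem t_COVI : Stmt_COVI := by
  intro X k _ π _ g hg U V hU hV hUV
  obtain ⟨P, Q, hP, hQ, hPQ, L, hLs, hLk, hL0⟩ := hg
  have hsep : ∀ W W' : X.Opens, IsAffineOpen W → IsAffineOpen W' → IsAffineOpen (W ⊓ W') := by
    have h1 : X.IsSeparated := by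
      constructor
      rw [← Limits.terminal.comp_from π]
      infer_instance
    intro W W' hW hW'
    exact hW.inf hW'
  have ex : ∀ t : Γ(X, U ⊓ V), ∃ s : Γ(X, P ⊓ Q), Rel P Q U V s t := by
    intro t
    obtain ⟨s, hs⟩ := exists_rel hsep hU hV hP hQ hUV t
    exact ⟨s, hs.symm⟩
  have ker : ∀ s : Γ(X, P ⊓ Q), Rel P Q U V s 0 → L s = 0 := by
    intro s hs
    obtain ⟨a, b, hab⟩ := of_rel_zero hUV hs.symm
    exact (hL0 s).2 ⟨a, b, hab⟩
  choose σ hσ using ex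
  have wd : ∀ (s : Γ(X, P ⊓ Q)) (t : Γ(X, U ⊓ V)), Rel P Q U V s t → L (σ t) = L s := by
    intro s t hst
    have h1 := (hσ t).sub hst
    rw [sub_self] at h1
    have h2 := ker _ h1
    rw [map_sub] at h2
    exact sub_eq_zero.1 h2
  refine ⟨{ toFun := fun t => L (σ t), map_zero' := ?_, map_add' := ?_ }, ?_, ?_, ?_⟩
  · rw [wd 0 0 (Rel.zero P Q U V), map_zero]
  · intro t t'
    rw [wd _ _ ((hσ t).add (hσ t')), map_add]
  · intro y
    obtain ⟨s, rfl⟩ := hLs y
    obtain ⟨t, ht⟩ := exists_rel hsep hP hQ hU hV hPQ s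
    exact ⟨t, wd s t ht⟩
  · intro c t
    change L (σ (coef π (U ⊓ V) c * t)) = c • L (σ t)
    rw [wd _ _ ((hσ t).coef π c), hLk]
  · intro t
    change L (σ t) = 0 ↔ _
    constructor
    · intro h
      obtain ⟨a, b, hab⟩ := (hL0 _).1 h
      have h1 : Rel U V P Q 0 (σ t) := rel_zero_of hab
      have h2 := (hσ t).sub h1.symm
      rw [sub_self, sub_zero] at h2
      exact of_rel_zero hPQ h2
    · rintro ⟨a, b, hab⟩
      rw [wd 0 t (rel_zero_of hab), map_zero]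

end Pool.Agent.MG


end

section

/-!
# ALGW: rigidity of the constant family under the weaker hypothesis
-/

open CategoryTheory CategoryTheory.Limits AlgebraicGeometry TensorProduct

namespace Pool.Agent.MG

namespace ALGW

section

variable {k : Type} [Field k] {T : TC k} {K : Type} [Field K] [Algebra k K]

/-- `K ⊗ {a ∈ R₁ ∩ e R₂ : a(p) = 0} = 0`. -/
theorem flat0 (h2 : Function.Injective T.j2) (pt : T.R1 →ₐ[k] k)
    (hyp : ∀ (a : T.R1) (b : T.R2), T.j1 a = T.e * T.j2 b → pt a = 0 → a = 0) (A : K ⊗[k] T.R1)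
    (B : K ⊗[k] T.R2)
    (h : Algebra.TensorProduct.map (AlgHom.id k K) T.j1 A =
      (1 ⊗ₜ T.e) * Algebra.TensorProduct.map (AlgHom.id k K) T.j2 B)
    (hA : LinearMap.lTensor K pt.toLinearMap A = 0) : A = 0 ∧ B = 0 := by
  let L2 : T.R2 →ₗ[k] T.R12 := (LinearMap.mulLeft k T.e) ∘ₗ T.j2.toLinearMap
  let L0 : T.R1 × T.R2 →ₗ[k] T.R12 := T.j1.toLinearMap ∘ₗ LinearMap.fst k T.R1 T.R2 -
    L2 ∘ₗ LinearMap.snd k T.R1 T.R2
  let L : T.R1 × T.R2 →ₗ[k] T.R12 × k :=
    LinearMap.prod L0 (pt.toLinearMap ∘ₗ LinearMap.fst k T.R1 T.R2)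
  have hL : Function.Injective L := by
    rw [injective_iff_map_eq_zero]
    rintro ⟨a, b⟩ hab
    have h3 : T.j1 a - T.e * T.j2 b = 0 := congrArg Prod.fst hab
    have h3' : pt a = 0 := congrArg Prod.snd hab
    have h4 : a = 0 := hyp a b (sub_eq_zero.1 h3) h3'
    have h5 : T.e * T.j2 b = 0 := by
      rw [h4, map_zero, zero_sub, neg_eq_zero] at h3
      exact h3
    have h6 : T.j2 b = 0 := by
      have := congrArg (fun t => T.dd (T.j2 T.y) * t) h5
      simp only [mul_zero] at this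
      rw [← mul_assoc, mul_comm (T.dd _) T.e, T.ey, one_mul] at this
      exact this
    have h7 : b = 0 := h2 (by rw [h6, map_zero])
    rw [h4, h7]
    rfl
  have hK : Function.Injective (LinearMap.lTensor K L) :=
    Module.Flat.lTensor_preserves_injective_linearMap L hL
  let z : K ⊗[k] (T.R1 × T.R2) := LinearMap.lTensor K (LinearMap.inl k T.R1 T.R2) A +
    LinearMap.lTensor K (LinearMap.inr k T.R1 T.R2) B
  have e1 : ∀ A, Algebra.TensorProduct.map (AlgHom.id k K) T.j1 A =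
      LinearMap.lTensor K T.j1.toLinearMap A := by
    intro A
    induction A with
    | zero => simp
    | tmul a b => simp
    | add a b ha hb => rw [map_add, map_add, ha, hb]
  have e2 : ∀ B, (1 ⊗ₜ T.e) * Algebra.TensorProduct.map (AlgHom.id k K) T.j2 B =
      LinearMap.lTensor K L2 B := by
    intro B
    induction B with
    | zero => simp
    | tmul a b => simp [L2]
    | add a b ha hb => rw [map_add, map_add, mul_add, ha, hb]
  have hz0' : LinearMap.lTensor K L0 z = 0 := by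
    have i1 : L0 ∘ₗ LinearMap.inl k T.R1 T.R2 = T.j1.toLinearMap := by
      ext a
      simp [L0]
    have i2 : L0 ∘ₗ LinearMap.inr k T.R1 T.R2 = -L2 := by
      ext a
      simp [L0]
    change LinearMap.lTensor K L0 (LinearMap.lTensor K (LinearMap.inl k T.R1 T.R2) A +
      LinearMap.lTensor K (LinearMap.inr k T.R1 T.R2) B) = 0
    rw [map_add, ← LinearMap.comp_apply, ← LinearMap.comp_apply, ← LinearMap.lTensor_comp,
      ← LinearMap.lTensor_comp, i1, i2, LinearMap.lTensor_neg, LinearMap.neg_apply, ← e1, ← e2, h,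
      add_neg_cancel]
  have f1 : LinearMap.lTensor K (LinearMap.fst k T.R1 T.R2) z = A := by
    change LinearMap.lTensor K (LinearMap.fst k T.R1 T.R2) (LinearMap.lTensor K
      (LinearMap.inl k T.R1 T.R2) A + LinearMap.lTensor K (LinearMap.inr k T.R1 T.R2) B) = A
    rw [map_add, ← LinearMap.comp_apply, ← LinearMap.comp_apply, ← LinearMap.lTensor_comp,
      ← LinearMap.lTensor_comp, LinearMap.fst_comp_inl, LinearMap.fst_comp_inr]
    simp
  have f2 : LinearMap.lTensor K (LinearMap.snd k T.R1 T.R2) z = B := by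
    change LinearMap.lTensor K (LinearMap.snd k T.R1 T.R2) (LinearMap.lTensor K
      (LinearMap.inl k T.R1 T.R2) A + LinearMap.lTensor K (LinearMap.inr k T.R1 T.R2) B) = B
    rw [map_add, ← LinearMap.comp_apply, ← LinearMap.comp_apply, ← LinearMap.lTensor_comp,
      ← LinearMap.lTensor_comp, LinearMap.snd_comp_inl, LinearMap.snd_comp_inr]
    simp
  have g1 : LinearMap.lTensor K (LinearMap.fst k T.R12 k) (LinearMap.lTensor K L z) = 0 := by
    rw [← LinearMap.comp_apply, ← LinearMap.lTensor_comp]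
    exact hz0'
  have g2 : LinearMap.lTensor K (LinearMap.snd k T.R12 k) (LinearMap.lTensor K L z) = 0 := by
    rw [← LinearMap.comp_apply, ← LinearMap.lTensor_comp]
    change LinearMap.lTensor K (pt.toLinearMap ∘ₗ LinearMap.fst k T.R1 T.R2) z = 0
    rw [LinearMap.lTensor_comp, LinearMap.comp_apply, f1, hA]
  have hsplit : ∀ w : K ⊗[k] (T.R12 × k), w =
      LinearMap.lTensor K (LinearMap.inl k T.R12 k)
        (LinearMap.lTensor K (LinearMap.fst k T.R12 k) w) +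
      LinearMap.lTensor K (LinearMap.inr k T.R12 k)
        (LinearMap.lTensor K (LinearMap.snd k T.R12 k) w) := by
    intro w
    induction w with
    | zero => simp
    | tmul a b =>
      simp only [LinearMap.lTensor_tmul, LinearMap.fst_apply, LinearMap.snd_apply,
        LinearMap.inl_apply, LinearMap.inr_apply]
      rw [← TensorProduct.tmul_add]
      simp
    | add a b ha hb =>
      simp only [map_add]
      calc a + b = _ + _ := congrArg₂ (· + ·) ha hb
        _ = _ := by abel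
  have hz : LinearMap.lTensor K L z = 0 := by
    rw [hsplit (LinearMap.lTensor K L z), g1, g2, map_zero, map_zero, add_zero]
  have hz0 : z = 0 := hK (by rw [hz, map_zero])
  rw [hz0, map_zero] at f1 f2
  exact ⟨f1.symm, f2.symm⟩

/-- Compatible derivations of `K ⊗ R₁`, `K ⊗ R₂`, `K ⊗ R₁₂` vanish. -/
theorem alg (h2 : Function.Injective T.j2) (pt : T.R1 →ₐ[k] k)
    (hyp : ∀ (a : T.R1) (b : T.R2), T.j1 a = T.e * T.j2 b → pt a = 0 → a = 0)
    (D1 : K ⊗[k] T.R1 →+ K ⊗[k] T.R1) (D2 : K ⊗[k] T.R2 →+ K ⊗[k] T.R2)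
    (D12 : K ⊗[k] T.R12 →+ K ⊗[k] T.R12)
    (l1 : ∀ a b, D1 (a * b) = a * D1 b + b * D1 a) (c1 : ∀ c : K, D1 (c ⊗ₜ 1) = 0)
    (l2 : ∀ a b, D2 (a * b) = a * D2 b + b * D2 a) (c2 : ∀ c : K, D2 (c ⊗ₜ 1) = 0)
    (l12 : ∀ a b, D12 (a * b) = a * D12 b + b * D12 a) (c12 : ∀ c : K, D12 (c ⊗ₜ 1) = 0)
    (r1 : ∀ a, D12 (Algebra.TensorProduct.map (AlgHom.id k K) T.j1 a) =
      Algebra.TensorProduct.map (AlgHom.id k K) T.j1 (D1 a))
    (r2 : ∀ a, D12 (Algebra.TensorProduct.map (AlgHom.id k K) T.j2 a) =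
      Algebra.TensorProduct.map (AlgHom.id k K) T.j2 (D2 a))
    (hpt : ∀ a, LinearMap.lTensor K pt.toLinearMap (D1 a) = 0) : D1 = 0 ∧ D2 = 0 := by
  set r := D12 (1 ⊗ₜ T.j1 T.x) with hr
  have hc : ∀ c : k, D12 (1 ⊗ₜ algebraMap k T.R12 c) = 0 := by
    intro c
    have : (1 : K) ⊗ₜ[k] algebraMap k T.R12 c = (algebraMap k K c) ⊗ₜ 1 := by
      rw [Algebra.algebraMap_eq_smul_one, Algebra.algebraMap_eq_smul_one, TensorProduct.smul_tmul]
    rw [this, c12]
  have key : ∀ a : T.R12, D12 (1 ⊗ₜ a) - r * (1 ⊗ₜ T.dd a) = 0 := by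
    let d : T.R12 →+ K ⊗[k] T.R12 :=
      { toFun := fun a => D12 (1 ⊗ₜ a) - r * (1 ⊗ₜ T.dd a)
        map_zero' := by simp
        map_add' := fun a b => by
          rw [TensorProduct.tmul_add, map_add, map_add, TensorProduct.tmul_add]
          ring }
    have het : (Polynomial.aeval (T.j1 T.x) : Polynomial k →ₐ[k] T.R12).toRingHom.Etale := by
      have h := RingHom.Etale.stableUnderComposition _ _ T.etx T.et1
      have h3 : (Polynomial.aeval (T.j1 T.x) : Polynomial k →ₐ[k] T.R12) =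
          T.j1.comp (Polynomial.aeval T.x) := by
        ext
        simp
      rw [h3]
      exact h
    refine RIG.der1 (T.j1 T.x) het
      (Algebra.TensorProduct.includeRight : T.R12 →ₐ[k] K ⊗[k] T.R12).toRingHom d ?_ ?_ ?_
    · intro a b
      change D12 (1 ⊗ₜ (a * b)) - r * (1 ⊗ₜ T.dd (a * b)) =
        (1 ⊗ₜ a) * (D12 (1 ⊗ₜ b) - r * (1 ⊗ₜ T.dd b)) +
        (1 ⊗ₜ b) * (D12 (1 ⊗ₜ a) - r * (1 ⊗ₜ T.dd a))
      have e1 : (1 : K) ⊗ₜ[k] (a * b) = (1 ⊗ₜ a) * (1 ⊗ₜ b) := by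
        rw [Algebra.TensorProduct.tmul_mul_tmul, one_mul]
      have e2 : (1 : K) ⊗ₜ[k] (T.dd (a * b)) = (1 ⊗ₜ a) * (1 ⊗ₜ T.dd b) +
          (1 ⊗ₜ b) * (1 ⊗ₜ T.dd a) := by
        rw [Derivation.leibniz, smul_eq_mul, smul_eq_mul, TensorProduct.tmul_add,
          Algebra.TensorProduct.tmul_mul_tmul, Algebra.TensorProduct.tmul_mul_tmul, one_mul]
      rw [e1, l12, e2]
      ring
    · intro c
      change D12 (1 ⊗ₜ algebraMap k T.R12 c) - r * (1 ⊗ₜ T.dd (algebraMap k T.R12 c)) = 0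
      rw [hc, Derivation.map_algebraMap, TensorProduct.tmul_zero, mul_zero, sub_zero]
    · change D12 (1 ⊗ₜ T.j1 T.x) - r * (1 ⊗ₜ T.dd (T.j1 T.x)) = 0
      rw [T.ddx, ← hr, ← Algebra.TensorProduct.one_def, mul_one, sub_self]
  have hy : (1 ⊗ₜ T.e) * D12 (1 ⊗ₜ T.j2 T.y) = r := by
    have h := sub_eq_zero.1 (key (T.j2 T.y))
    rw [h, mul_left_comm, Algebra.TensorProduct.tmul_mul_tmul, one_mul, T.ey,
      ← Algebra.TensorProduct.one_def, mul_one]
  have e1 : Algebra.TensorProduct.map (AlgHom.id k K) T.j1 (1 ⊗ₜ T.x) = 1 ⊗ₜ T.j1 T.x := by simp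
  have e2 : Algebra.TensorProduct.map (AlgHom.id k K) T.j2 (1 ⊗ₜ T.y) = 1 ⊗ₜ T.j2 T.y := by simp
  have hAB := flat0 h2 pt hyp (D1 (1 ⊗ₜ T.x)) (D2 (1 ⊗ₜ T.y)) (by
    rw [← r1, ← r2, e1, e2, hy]) (hpt _)
  exact ⟨RIG.der2 T.x T.etx D1 l1 c1 hAB.1, RIG.der2 T.y T.ety D2 l2 c2 hAB.2⟩

end

end ALGW

theorem t_ALGW : Stmt_ALGW := by
  intro n k _ C T ch j hyp K _ _ D1 D2 D12 h1 h2 h12 r1 r2 hev
  refine ALGW.alg ch.inj2 (ch.pt j) hyp D1 D2 D12 h1.mul h1.const h2.mul h2.const h12.mul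
    h12.const r1 r2 ?_
  intro a
  have hrid : ∀ A : K ⊗[k] T.R1, TensorProduct.rid k K
      (LinearMap.lTensor K (ch.pt j).toLinearMap A) = evB ch j K A := by
    intro A
    induction A with
    | zero => simp
    | tmul b r =>
      rw [evB_tmul, LinearMap.lTensor_tmul, TensorProduct.rid_tmul, Algebra.smul_def, mul_comm]
      rfl
    | add u v hu hv => rw [map_add, map_add, map_add, hu, hv]
  have h := hrid (D1 a)
  rw [hev] at h
  exact (LinearEquiv.map_eq_zero_iff _).1 h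

end Pool.Agent.MG


end

section

/-!
# BRIG: rigidity of the nodal curve
-/

set_option linter.unusedSectionVars false

open CategoryTheory CategoryTheory.Limits AlgebraicGeometry TensorProduct

namespace Pool.Agent.MG

namespace BRIG

section gen

variable {n : ℕ} {K : Type} [Field K] {x : Fam n K} (v : VField x)

theorem dres {U V : x.X.Opens} (h : U ≤ V) (a : Γ(x.X, V)) :
    v.D U (rs x.X h a) = rs x.X h (v.D V a) := v.res U V h a

/-- A derivation which vanishes on the functions on an affine open vanishes on the functions on its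
basic opens. -/
theorem basic0 {W : x.X.Opens} (hW : IsAffineOpen W) (h0 : v.D W = 0) (f : Γ(x.X, W)) :
    v.D (x.X.basicOpen f) = 0 := by
  have := hW.isLocalization_basicOpen f
  ext s
  obtain ⟨⟨a, ⟨_, m, rfl⟩⟩, hs⟩ := IsLocalization.surj (Submonoid.powers f) s
  have hle : x.X.basicOpen f ≤ W := x.X.basicOpen_le f
  have e : ∀ b : Γ(x.X, W), algebraMap Γ(x.X, W) Γ(x.X, x.X.basicOpen f) b = rs x.X hle b :=
    fun _ => rfl
  have hz : ∀ b : Γ(x.X, W), v.D (x.X.basicOpen f)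
      (algebraMap Γ(x.X, W) Γ(x.X, x.X.basicOpen f) b) = 0 := by
    intro b
    rw [e, dres, h0]
    exact map_zero _
  have h1 := congrArg (v.D (x.X.basicOpen f)) hs
  rw [hz, v.mul, hz, mul_zero, zero_add] at h1
  have hu : IsUnit (algebraMap Γ(x.X, W) Γ(x.X, x.X.basicOpen f) (f ^ m)) :=
    IsLocalization.map_units (M := Submonoid.powers f) _ ⟨f ^ m, m, rfl⟩
  exact (hu.mul_right_eq_zero).1 h1

theorem all0 {ι : Type} (W : ι → x.X.Opens) (hc : ∀ p : x.X, ∃ i, p ∈ W i)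
    (a : ∀ i, IsAffineOpen (W i)) (h : ∀ i, v.D (W i) = 0) (U : x.X.Opens) : v.D U = 0 := by
  have hloc : ∀ p : U, ∃ (V : x.X.Opens) (_ : V ≤ U), p.1 ∈ V ∧ v.D V = 0 := by
    intro p
    obtain ⟨i, hp⟩ := hc p.1
    obtain ⟨f, hf, hpf⟩ := (a i).exists_basicOpen_le p hp
    exact ⟨_, hf, hpf, basic0 v (a i) (h i) f⟩
  choose V hV hpV hDV using hloc
  ext s
  refine x.X.sheaf.eq_of_locally_eq' V U (fun p => homOfLE (hV p)) ?_ _ _ ?_
  · intro p hp
    rw [TopologicalSpace.Opens.mem_iSup]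
    exact ⟨⟨p, hp⟩, hpV ⟨p, hp⟩⟩
  · intro p
    change rs x.X (hV p) (v.D U s) = rs x.X (hV p) 0
    rw [← dres, hDV, map_zero]
    rfl

variable {A : Type} [CommRing A] (i : Sp A ⟶ x.X) [IsOpenImmersion i]

/-- Functions on the image of an open immersion. -/
noncomputable def fe : Γ(x.X, i.opensRange) ≃+* A :=
  RingEquiv.ofBijective (evO i i.opensRange (range_pre i)) (evO_bij i (range_pre i) (fun _ h => h))

theorem fe_apply (a : Γ(x.X, i.opensRange)) :
    fe i a = evO i i.opensRange (range_pre i) a := rfl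

/-- The derivation on a chart. -/
noncomputable def DI : A →+ A :=
  (fe i : Γ(x.X, i.opensRange) →+ A).comp ((v.D i.opensRange).comp
    ((fe i).symm : A →+ Γ(x.X, i.opensRange)))

theorem DI_fe (f : Γ(x.X, i.opensRange)) : DI v i (fe i f) = fe i (v.D _ f) := by
  change fe i (v.D _ ((fe i).symm (fe i f))) = _
  rw [RingEquiv.symm_apply_apply]

theorem DI_der (ψ : K →+* A) (hψ : i ≫ x.π = spMap ψ) : IsDer ψ (DI v i) where
  mul a b := by
    obtain ⟨f, rfl⟩ := (fe i).surjective a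
    obtain ⟨g, rfl⟩ := (fe i).surjective b
    rw [← map_mul, DI_fe, DI_fe, DI_fe, v.mul, map_add, map_mul, map_mul]
  const c := by
    have h1 : ψ c = fe i (coef x.π i.opensRange c) :=
      (evO_coef i x.π ψ hψ (range_pre i) c).symm
    rw [h1, DI_fe, v.const, map_zero]

theorem DI_comp {A' : Type} [CommRing A'] (i' : Sp A' ⟶ x.X) [IsOpenImmersion i']
    (ψ : A →+* A') (h : i' = spMap ψ ≫ i) (u : A) : DI v i' (ψ u) = ψ (DI v i u) := by
  subst h
  obtain ⟨f, rfl⟩ := (fe i).surjective u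
  have hle : (spMap ψ ≫ i).opensRange ≤ i.opensRange := by
    rintro _ ⟨p, rfl⟩
    exact ⟨spMap ψ p, (Scheme.Hom.comp_apply _ _ _).symm⟩
  have hpre : ⊤ ≤ (spMap ψ ≫ i) ⁻¹ᵁ i.opensRange := fun p _ => hle ⟨p, rfl⟩
  have key : ∀ g : Γ(x.X, i.opensRange), ψ (fe i g) = fe (spMap ψ ≫ i) (rs x.X hle g) := by
    intro g
    rw [fe_apply, fe_apply, evO_rs (spMap ψ ≫ i) hle (range_pre _) hpre,
      evO_spMap i ψ (range_pre i) hpre]
  rw [DI_fe, key, key, DI_fe, dres]

theorem DI_sec (l : Fin n) (β : A →+* K) (h : x.σ l = spMap β ≫ i) (u : A) :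
    β (DI v i u) = 0 := by
  obtain ⟨f, rfl⟩ := (fe i).surjective u
  rw [DI_fe, fe_apply]
  have hpre : ⊤ ≤ (spMap β ≫ i) ⁻¹ᵁ i.opensRange := by
    intro p _
    exact ⟨spMap β p, (Scheme.Hom.comp_apply _ _ _).symm⟩
  rw [← evO_spMap i β (range_pre i) hpre]
  have h1 := v.sec i.opensRange l f
  have key : ∀ (τ : Sp K ⟶ x.X) (g : Γ(x.X, i.opensRange)) (hp : ⊤ ≤ τ ⁻¹ᵁ i.opensRange),
      τ.app i.opensRange g = 0 → evO τ i.opensRange hp g = 0 := by
    intro τ g hp hg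
    unfold evO
    rw [RingHom.comp_apply]
    have h2 : (τ.appLE i.opensRange ⊤ hp).hom g =
        ((Sp K).presheaf.map (homOfLE hp).op).hom ((τ.app i.opensRange).hom g) := rfl
    rw [h2]
    have h3 : (τ.app i.opensRange).hom g = 0 := hg
    rw [h3, map_zero, map_zero]
  apply key
  rw [h] at h1
  exact h1

theorem D_zero (h : DI v i = 0) : v.D i.opensRange = 0 := by
  ext f
  apply (fe i).injective
  rw [← DI_fe, h]
  exact (map_zero _).symm

end gen

section main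

variable {n : ℕ} {k : Type} [Field k] {C : Fam n k} {T : TC k} (ch : Cht C T) (i₀ j : Fin n)
  (hji : j ≠ i₀) {K : Type} [Field K] [Algebra k K] (φ : T.R1 →ₐ[k] K)

/-- The first chart. -/
noncomputable def i1 : Sp (N1 ch j K (φ (zz ch j))) ⟶ (bubFam ch i₀ j φ hji).X :=
  bl1 (zB ch j K) (φ (zz ch j) ⊗ₜ[k] (1 : T.R1)) ≫
    bL ch.aff (zz ch j) (zz_unit ch j) K (φ (zz ch j))

/-- The second chart. -/
noncomputable def i2 : Sp (N2 ch j K (φ (zz ch j))) ⟶ (bubFam ch i₀ j φ hji).X :=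
  bl2 (zB ch j K) (φ (zz ch j) ⊗ₜ[k] (1 : T.R1)) ≫
    bL ch.aff (zz ch j) (zz_unit ch j) K (φ (zz ch j))

/-- The third chart. -/
noncomputable def iR : Sp (K ⊗[k] T.R2) ⟶ (bubFam ch i₀ j φ hji).X :=
  bR ch.aff (zz ch j) (zz_unit ch j) K (φ (zz ch j))

/-- The intersection of the first two charts. -/
noncomputable def iM : Sp (MR (zB ch j K) (φ (zz ch j) ⊗ₜ[k] (1 : T.R1))) ⟶
    (bubFam ch i₀ j φ hji).X :=
  (blf (zB ch j K) (φ (zz ch j) ⊗ₜ[k] (1 : T.R1)) ≫
    bl1 (zB ch j K) (φ (zz ch j) ⊗ₜ[k] (1 : T.R1))) ≫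
    bL ch.aff (zz ch j) (zz_unit ch j) K (φ (zz ch j))

/-- The intersection with the third chart. -/
noncomputable def iJ : Sp (K ⊗[k] T.R12) ⟶ (bubFam ch i₀ j φ hji).X :=
  bJ (zz ch j) (zz_unit ch j) K (φ (zz ch j)) ≫
    bL ch.aff (zz ch j) (zz_unit ch j) K (φ (zz ch j))

instance : IsOpenImmersion (i1 ch i₀ j hji φ) := by
  unfold i1
  exact inferInstanceAs (IsOpenImmersion (bl1 (zB ch j K) (φ (zz ch j) ⊗ₜ[k] (1 : T.R1)) ≫
    bL ch.aff (zz ch j) (zz_unit ch j) K (φ (zz ch j))))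

instance : IsOpenImmersion (i2 ch i₀ j hji φ) := by
  unfold i2
  exact inferInstanceAs (IsOpenImmersion (bl2 (zB ch j K) (φ (zz ch j) ⊗ₜ[k] (1 : T.R1)) ≫
    bL ch.aff (zz ch j) (zz_unit ch j) K (φ (zz ch j))))

instance : IsOpenImmersion (iR ch i₀ j hji φ) := by
  unfold iR
  exact inferInstanceAs (IsOpenImmersion (bR ch.aff (zz ch j) (zz_unit ch j) K (φ (zz ch j))))

instance : IsOpenImmersion (iM ch i₀ j hji φ) := by
  unfold iM
  exact inferInstanceAs (IsOpenImmersion ((blf (zB ch j K) (φ (zz ch j) ⊗ₜ[k] (1 : T.R1)) ≫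
    bl1 (zB ch j K) (φ (zz ch j) ⊗ₜ[k] (1 : T.R1))) ≫
    bL ch.aff (zz ch j) (zz_unit ch j) K (φ (zz ch j))))

instance : IsOpenImmersion (iJ ch i₀ j hji φ) := by
  have := bJ_open ch.aff (zz ch j) (zz_unit ch j) K (φ (zz ch j))
  unfold iJ
  exact inferInstanceAs (IsOpenImmersion (bJ (zz ch j) (zz_unit ch j) K (φ (zz ch j)) ≫
    bL ch.aff (zz ch j) (zz_unit ch j) K (φ (zz ch j))))

theorem i1_π : i1 ch i₀ j hji φ ≫ (bubFam ch i₀ j φ hji).π =
    spMap ((algebraMap (K ⊗[k] T.R1) (N1 ch j K (φ (zz ch j)))).comp (inL k K T.R1)) := by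
  have h : bl1 (zB ch j K) (φ (zz ch j) ⊗ₜ[k] (1 : T.R1)) ≫
      bL ch.aff (zz ch j) (zz_unit ch j) K (φ (zz ch j)) ≫
      bπ ch.aff (zz ch j) (zz_unit ch j) K (φ (zz ch j)) =
      spMap ((algebraMap (K ⊗[k] T.R1) (N1 ch j K (φ (zz ch j)))).comp (inL k K T.R1)) := by
    rw [bL_π, ← Category.assoc, bl1_π, ← spMap_comp]
  exact (Category.assoc _ _ _).trans h

theorem i2_π : i2 ch i₀ j hji φ ≫ (bubFam ch i₀ j φ hji).π =
    spMap ((algebraMap (K ⊗[k] T.R1) (N2 ch j K (φ (zz ch j)))).comp (inL k K T.R1)) := by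
  have h : bl2 (zB ch j K) (φ (zz ch j) ⊗ₜ[k] (1 : T.R1)) ≫
      bL ch.aff (zz ch j) (zz_unit ch j) K (φ (zz ch j)) ≫
      bπ ch.aff (zz ch j) (zz_unit ch j) K (φ (zz ch j)) =
      spMap ((algebraMap (K ⊗[k] T.R1) (N2 ch j K (φ (zz ch j)))).comp (inL k K T.R1)) := by
    rw [bL_π, ← Category.assoc, bl2_π, ← spMap_comp]
  exact (Category.assoc _ _ _).trans h

theorem iR_π : iR ch i₀ j hji φ ≫ (bubFam ch i₀ j φ hji).π = spMap (inL k K T.R2) :=
  bR_π ch.aff (zz ch j) (zz_unit ch j) K (φ (zz ch j))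

theorem iM_eq1 : iM ch i₀ j hji φ = spMap (algebraMap (N1 ch j K (φ (zz ch j)))
    (MR (zB ch j K) (φ (zz ch j) ⊗ₜ[k] (1 : T.R1)))) ≫ i1 ch i₀ j hji φ :=
  Category.assoc _ _ _

theorem iM_eq2 : iM ch i₀ j hji φ = spMap (swapN (zB ch j K)
    (φ (zz ch j) ⊗ₜ[k] (1 : T.R1))) ≫ i2 ch i₀ j hji φ := by
  unfold iM
  rw [bl_cond]
  exact Category.assoc _ _ _

theorem iM_π : iM ch i₀ j hji φ ≫ (bubFam ch i₀ j φ hji).π =
    spMap ((algebraMap (K ⊗[k] T.R1) (MR (zB ch j K) (φ (zz ch j) ⊗ₜ[k] (1 : T.R1)))).comp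
      (inL k K T.R1)) := by
  rw [iM_eq1, Category.assoc, i1_π, ← spMap_comp]

theorem iJ_eq2 : iJ ch i₀ j hji φ = spMap (bmap K T.j2) ≫ iR ch i₀ j hji φ :=
  b_cond ch.aff (zz ch j) (zz_unit ch j) K (φ (zz ch j))

theorem iJ_π : iJ ch i₀ j hji φ ≫ (bubFam ch i₀ j φ hji).π = spMap (inL k K T.R12) := by
  rw [iJ_eq2, Category.assoc, iR_π, ← spMap_comp, bmap_inL]

theorem bJ_eq (hb : φ (zz ch j) = 0) : bJ (zz ch j) (zz_unit ch j) K (φ (zz ch j)) =
    spMap ((bmap K T.j1).comp (toA ch j K (φ (zz ch j)) hb)) ≫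
      bl1 (zB ch j K) (φ (zz ch j) ⊗ₜ[k] (1 : T.R1)) := by
  have h1 : (spMap ((bmap K T.j1).comp (toA ch j K (φ (zz ch j)) hb)) ≫
      bl1 (zB ch j K) (φ (zz ch j) ⊗ₜ[k] (1 : T.R1))) ≫ blπ _ _ =
      𝟙 _ ≫ spMap (bmap K T.j1) := by
    rw [Category.assoc, bl1_π, ← spMap_comp, Category.id_comp]
    congr 1
    exact RingHom.ext fun a => congrArg (bmap K T.j1) (toA_of ch j K (φ (zz ch j)) hb a)
  have h2 := (bJ_isPullback ch.aff (zz ch j) (zz_unit ch j) K (φ (zz ch j))).lift_fst _ _ h1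
  have h3 := (bJ_isPullback ch.aff (zz ch j) (zz_unit ch j) K (φ (zz ch j))).lift_snd _ _ h1
  rw [Category.comp_id] at h3
  rw [h3, Category.id_comp] at h2
  exact h2

theorem iJ_eq1 (hb : φ (zz ch j) = 0) : iJ ch i₀ j hji φ =
    spMap ((bmap K T.j1).comp (toA ch j K (φ (zz ch j)) hb)) ≫ i1 ch i₀ j hji φ := by
  unfold iJ
  rw [bJ_eq ch j φ hb]
  exact Category.assoc _ _ _

theorem sec_i0 (hb : φ (zz ch j) = 0) : (bubFam ch i₀ j φ hji).σ i₀ =
    spMap ((Polynomial.evalRingHom 1).comp (toY ch j K (φ (zz ch j)) hb)) ≫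
      i2 ch i₀ j hji φ := by
  have h1 : secT ch i₀ j φ hji i₀ =
      spMap ((Polynomial.evalRingHom 1).comp (toY ch j K (φ (zz ch j)) hb)) ≫
        bl2 (zB ch j K) (φ (zz ch j) ⊗ₜ[k] (1 : T.R1)) := by
    unfold secT
    rw [dif_pos rfl]
    congr 2
    apply nr_hom_ext
    · intro r
      rw [nrLift_of, RingHom.comp_apply, toY_of]
      change extA φ r = Polynomial.eval 1 (Polynomial.C (evB ch j K r))
      rw [Polynomial.eval_C]
      obtain ⟨c, hc⟩ := evB_gen ch j K r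
      conv_lhs => rw [hc]
      rw [map_add, map_mul, extA_tmul, extA_tmul, map_one, mul_one, hb, mul_zero, zero_mul,
        add_zero]
    · rw [nrLift_w, RingHom.comp_apply, toY_w]
      exact (Polynomial.eval_X).symm
  change secT ch i₀ j φ hji i₀ ≫ _ = _
  rw [h1]
  exact Category.assoc _ _ _

theorem sec_j (hb : φ (zz ch j) = 0) : (bubFam ch i₀ j φ hji).σ j =
    spMap ((Polynomial.evalRingHom 0).comp (toY ch j K (φ (zz ch j)) hb)) ≫
      i2 ch i₀ j hji φ := by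
  have h1 : secT ch i₀ j φ hji j =
      spMap ((Polynomial.evalRingHom 0).comp (toY ch j K (φ (zz ch j)) hb)) ≫
        bl2 (zB ch j K) (φ (zz ch j) ⊗ₜ[k] (1 : T.R1)) := by
    unfold secT
    rw [dif_neg hji, dif_pos rfl]
    congr 2
    apply nr_hom_ext
    · intro r
      rw [nrLift_of, RingHom.comp_apply, toY_of]
      change _ = Polynomial.eval 0 (Polynomial.C (evB ch j K r))
      rw [Polynomial.eval_C]
      rfl
    · rw [nrLift_w, RingHom.comp_apply, toY_w]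
      exact (Polynomial.eval_X).symm
  change secT ch i₀ j φ hji j ≫ _ = _
  rw [h1]
  exact Category.assoc _ _ _

theorem cover (p : (bubFam ch i₀ j φ hji).X) : p ∈ Set.range (i1 ch i₀ j hji φ) ∨
    p ∈ Set.range (i2 ch i₀ j hji φ) ∨ p ∈ Set.range (iR ch i₀ j hji φ) := by
  rcases b_cover ch.aff (zz ch j) (zz_unit ch j) K (φ (zz ch j)) p with ⟨y, rfl⟩ | h
  · rcases bl_cover _ _ y with ⟨w, rfl⟩ | ⟨w, rfl⟩
    · exact Or.inl ⟨w, Scheme.Hom.comp_apply _ _ _⟩
    · exact Or.inr (Or.inl ⟨w, Scheme.Hom.comp_apply _ _ _⟩)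
  · exact Or.inr (Or.inr h)

variable {ch i₀ j hji φ} in
theorem fin (v : VField (bubFam ch i₀ j φ hji)) (key : DI v (i1 ch i₀ j hji φ) = 0 ∧
    DI v (i2 ch i₀ j hji φ) = 0 ∧ DI v (iR ch i₀ j hji φ) = 0)
    (U : (bubFam ch i₀ j φ hji).X.Opens) : v.D U = 0 := by
  refine all0 v (fun t : Fin 3 => if t = 0 then (i1 ch i₀ j hji φ).opensRange else
    if t = 1 then (i2 ch i₀ j hji φ).opensRange else (iR ch i₀ j hji φ).opensRange) ?_ ?_ ?_ U
  · intro p
    rcases cover ch i₀ j hji φ p with h | h | h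
    · exact ⟨0, h⟩
    · exact ⟨1, h⟩
    · exact ⟨2, h⟩
  · intro t
    fin_cases t
    · exact isAffineOpen_opensRange _
    · exact isAffineOpen_opensRange _
    · exact isAffineOpen_opensRange _
  · intro t
    fin_cases t
    · exact D_zero v _ key.1
    · exact D_zero v _ key.2.1
    · exact D_zero v _ key.2.2

end main

end BRIG

open _root_.Pool.Agent.MG.BRIG in
/-- BRIG. -/
theorem t_BRIG (hBRA : Stmt_BRA) : Stmt_BRIG := by
  intro n k _ C T ch hyp i₀ j hji K _ _ φ hb v U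
  exact fin v (hBRA ch hyp j K (φ (zz ch j)) hb (DI v (i1 ch i₀ j hji φ))
    (DI v (i2 ch i₀ j hji φ)) (DI v (iR ch i₀ j hji φ)) (DI v (iJ ch i₀ j hji φ))
    (DI v (iM ch i₀ j hji φ)) (DI_der v _ _ (i1_π ch i₀ j hji φ))
    (DI_der v _ _ (i2_π ch i₀ j hji φ)) (DI_der v _ _ (iR_π ch i₀ j hji φ))
    (DI_der v _ _ (iJ_π ch i₀ j hji φ)) (DI_der v _ _ (iM_π ch i₀ j hji φ))
    (fun u => DI_comp v _ _ _ (iM_eq1 ch i₀ j hji φ) u)
    (fun u => DI_comp v _ _ _ (iM_eq2 ch i₀ j hji φ) u)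
    (fun u => DI_comp v _ _ _ (iJ_eq1 ch i₀ j hji φ hb) u)
    (fun u => DI_comp v _ _ _ (iJ_eq2 ch i₀ j hji φ) u)
    (fun u => DI_sec v _ _ _ (sec_j ch i₀ j hji φ hb) u)
    (fun u => DI_sec v _ _ _ (sec_i0 ch i₀ j hji φ hb) u)) U

open _root_.Pool.Agent.MG.BRIG in
/-- BRIGW. -/
theorem t_BRIGW (hBRAW : Stmt_BRAW) : Stmt_BRIGW := by
  intro n k _ C T ch j hyp i₀ hji K _ _ φ hb v U
  exact fin v (hBRAW ch j hyp K (φ (zz ch j)) hb (DI v (i1 ch i₀ j hji φ))
    (DI v (i2 ch i₀ j hji φ)) (DI v (iR ch i₀ j hji φ)) (DI v (iJ ch i₀ j hji φ))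
    (DI v (iM ch i₀ j hji φ)) (DI_der v _ _ (i1_π ch i₀ j hji φ))
    (DI_der v _ _ (i2_π ch i₀ j hji φ)) (DI_der v _ _ (iR_π ch i₀ j hji φ))
    (DI_der v _ _ (iJ_π ch i₀ j hji φ)) (DI_der v _ _ (iM_π ch i₀ j hji φ))
    (fun u => DI_comp v _ _ _ (iM_eq1 ch i₀ j hji φ) u)
    (fun u => DI_comp v _ _ _ (iM_eq2 ch i₀ j hji φ) u)
    (fun u => DI_comp v _ _ _ (iJ_eq1 ch i₀ j hji φ hb) u)
    (fun u => DI_comp v _ _ _ (iJ_eq2 ch i₀ j hji φ) u)
    (fun u => DI_sec v _ _ _ (sec_j ch i₀ j hji φ hb) u)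
    (fun u => DI_sec v _ _ _ (sec_i0 ch i₀ j hji φ hb) u)) U

end Pool.Agent.MG


end

section

/-!
# The marked points of the nodal curve are distinct and smooth
-/

set_option linter.unusedSectionVars false

open CategoryTheory CategoryTheory.Limits AlgebraicGeometry TensorProduct

namespace Pool.Agent.MG

namespace BSEC

/-- Translates of an étale coordinate. -/
theorem et_sub {k : Type} [Field k] {R : Type} [CommRing R] [Algebra k R] (x : R)
    (h : (Polynomial.aeval x : Polynomial k →ₐ[k] R).toRingHom.Etale) (c : k) :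
    Etale (spMap ((Polynomial.aeval (x - algebraMap k R c) : Polynomial k →ₐ[k] R) :
      Polynomial k →+* R)) := by
  have h1 : ((Polynomial.aeval (x - algebraMap k R c) : Polynomial k →ₐ[k] R) :
      Polynomial k →+* R) = (Polynomial.aeval x : Polynomial k →ₐ[k] R).toRingHom.comp
        ((Polynomial.algEquivAevalXAddC (-c)).toRingEquiv : Polynomial k →+* Polynomial k) := by
    apply Polynomial.ringHom_ext
    · intro a
      simp
    · simp [sub_eq_add_neg]
  rw [h1, spMap_comp]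
  have h2 := et_spMap h
  have h3 := isIso_spMap_equiv
    (Polynomial.algEquivAevalXAddC (-c) : Polynomial k ≃ₐ[k] Polynomial k).toRingEquiv
  infer_instance

/-- The first chart of the blow up away from the centre. -/
theorem chart1 {A : Type} [CommRing A] (z s : A) {B : Type} [CommRing B] (χ : A →+* B)
    (hz : IsUnit (χ z)) (w : B) (h : χ z * w = χ s) {S : Scheme.{0}} (p : Sp A ⟶ S)
    (hp : Smooth p) :
    ∃ (W : Scheme.{0}) (i : W ⟶ Sp (NR z s)) (g : Sp B ⟶ W), IsOpenImmersion i ∧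
      spMap (nrLift χ w h) = g ≫ i ∧ Smooth (i ≫ spMap (algebraMap A (NR z s)) ≫ p) := by
  let L := Localization.Away z
  let ψ : A →+* L := algebraMap A L
  have h1 : IsOpenImmersion (spMap ψ) :=
    inferInstanceAs (IsOpenImmersion (Spec.map (CommRingCat.ofHom (algebraMap A
      (Localization.Away z)))))
  have h2 : IsOpenImmersion (spMap (nrMap ψ z s)) :=
    MorphismProperty.of_isPullback (nrMap_isPullback ψ z s).flip h1
  have hL : ∀ a, (IsLocalization.Away.lift z hz : L →+* B) (ψ a) = χ a := fun a =>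
    IsLocalization.Away.lift_eq z hz a
  refine ⟨Sp (NR (ψ z) (ψ s)), spMap (nrMap ψ z s),
    spMap (nrLift (IsLocalization.Away.lift z hz : L →+* B) w (by rw [hL, hL, h])), h2, ?_, ?_⟩
  · rw [← spMap_comp]
    congr 1
    apply nr_hom_ext
    · intro r
      simp only [RingHom.comp_apply]
      rw [nrMap_of, nrLift_of, nrLift_of, hL]
    · simp only [RingHom.comp_apply]
      rw [nrMap_w, nrLift_w, nrLift_w]
  · rw [← Category.assoc, (nrMap_isPullback ψ z s).w, Category.assoc]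
    have h3 : IsUnit (ψ z) := IsLocalization.Away.algebraMap_isUnit z
    have h4 := isIso_spMap _ (nr_bijective (ψ z) (ψ s) h3)
    infer_instance

/-- An open immersion with smooth composite around a point. -/
theorem smooth_of {X W S : Scheme.{0}} (j : W ⟶ X) [IsOpenImmersion j] (p : X ⟶ S)
    (h : Smooth (j ≫ p)) (x : X) (hx : x ∈ Set.range j) :
    ∃ U : X.Opens, x ∈ U ∧ Smooth (U.ι ≫ p) := by
  refine ⟨j.opensRange, hx, ?_⟩
  rw [← Scheme.Hom.isoOpensRange_inv_comp j, Category.assoc]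
  infer_instance

section

variable {n : ℕ} {k : Type} [Field k] {C : Fam n k} {T : TC k} (ch : Cht C T) (i₀ j : Fin n)
    (hji : j ≠ i₀) (K : Type) [Field K] [Algebra k K] (φ : T.R1 →ₐ[k] K)

/-- Different points of the contraction. -/
theorem ne_of_pt {i i' : Fin n} (h : secT ch i₀ j φ hji i = secT ch i₀ j φ hji i')
    (a : T.R1) : spt ch i₀ φ i a = spt ch i₀ φ i' a := by
  have h1 := congrArg (fun f => f ≫ blπ _ _) h
  simp only [secT_π] at h1
  have h2 := congrArg (fun f => f ((1 : K) ⊗ₜ[k] a)) (spMap_inj h1)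
  simpa using h2

theorem ne_i₀_j : secT ch i₀ j φ hji i₀ ≠ secT ch i₀ j φ hji j := by
  intro h
  unfold secT at h
  rw [dif_pos rfl, dif_neg hji, dif_pos rfl, cancel_mono] at h
  have h2 := congrArg (fun f => f (nw _ _)) (spMap_inj h)
  simp only [nrLift_w] at h2
  exact one_ne_zero h2

end

end BSEC

open _root_.Pool.Agent.MG.BSEC in
theorem t_BSEC : Stmt_BSEC := by
  intro n k _ C T ch i₀ j hji K _ _ φ hφ
  have hinj : Function.Injective (algebraMap k K) := (algebraMap k K).injective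
  refine ⟨?_, ?_⟩
  · intro i i' hii h
    have h0 : secT ch i₀ j φ hji i ≫ bL ch.aff (zz ch j) (zz_unit ch j) K (φ (zz ch j)) =
      secT ch i₀ j φ hji i' ≫ bL ch.aff (zz ch j) (zz_unit ch j) K (φ (zz ch j)) := h
    rw [cancel_mono] at h0
    have key : ∀ a : Fin n, a ≠ i₀ → a ≠ j → secT ch i₀ j φ hji i₀ ≠ secT ch i₀ j φ hji a := by
      intro a ha haj he
      have h1 := ne_of_pt ch i₀ j hji K φ he (zz ch j)
      rw [spt_self, hφ, spt_ne ch i₀ φ ha, AlgHom.comp_apply] at h1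
      have h2 : algebraMap k K (ch.pt a (zz ch j)) = 0 := h1.symm
      exact pt_zz_ne ch j haj (hinj (h2.trans (map_zero _).symm))
    by_cases hi : i = i₀
    · subst hi
      by_cases hj : i' = j
      · subst hj
        exact ne_i₀_j ch i i' hji K φ h0
      · exact key i' (Ne.symm hii) hj h0
    · by_cases hi' : i' = i₀
      · subst hi'
        by_cases hj : i = j
        · subst hj
          exact ne_i₀_j ch i' i hji K φ h0.symm
        · exact key i hi hj h0.symm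
      · have h1 := ne_of_pt ch i₀ j hji K φ h0 T.x
        rw [spt_ne ch i₀ φ hi, spt_ne ch i₀ φ hi', AlgHom.comp_apply, AlgHom.comp_apply] at h1
        have h2 : algebraMap k K (ch.pt i T.x) = algebraMap k K (ch.pt i' T.x) := h1
        exact ch.ne i i' hii (hinj h2)
  · intro i s
    have hbL := bL_π ch.aff (zz ch j) (zz_unit ch j) K (φ (zz ch j))
    -- the second chart
    have second : ∀ α : NR (φ (zz ch j) ⊗ₜ[k] (1 : T.R1)) ((1 : K) ⊗ₜ[k] (zz ch j)) →+* K,
        secT ch i₀ j φ hji i = spMap α ≫ bl2 _ _ →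
        ∃ U : (bubFam ch i₀ j φ hji).X.Opens,
          (bubFam ch i₀ j φ hji).σ i s ∈ U ∧ Smooth (U.ι ≫ (bubFam ch i₀ j φ hji).π) := by
      intro α hα
      have hsm : Smooth ((bl2 ((1 : K) ⊗ₜ[k] (zz ch j)) (φ (zz ch j) ⊗ₜ[k] (1 : T.R1)) ≫
          bL ch.aff (zz ch j) (zz_unit ch j) K (φ (zz ch j))) ≫
          bπ ch.aff (zz ch j) (zz_unit ch j) K (φ (zz ch j))) := by
        rw [Category.assoc, hbL, ← Category.assoc, bl2_π, ← spMap_comp]
        exact ychart_smooth (zz ch j) (φ (zz ch j)) (et_sub T.x T.etx (ch.pt j T.x))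
      have hx : (secT ch i₀ j φ hji i ≫
          bL ch.aff (zz ch j) (zz_unit ch j) K (φ (zz ch j))) s ∈
          Set.range (bl2 ((1 : K) ⊗ₜ[k] (zz ch j)) (φ (zz ch j) ⊗ₜ[k] (1 : T.R1)) ≫
            bL ch.aff (zz ch j) (zz_unit ch j) K (φ (zz ch j))) := by
        rw [hα, Category.assoc, Scheme.Hom.comp_apply]
        exact ⟨_, rfl⟩
      exact smooth_of (bl2 _ _ ≫ bL ch.aff (zz ch j) (zz_unit ch j) K (φ (zz ch j))) _ hsm _ hx
    by_cases hi : i = i₀
    · have hE : ∃ α, secT ch i₀ j φ hji i = spMap α ≫ bl2 _ _ := by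
        unfold secT
        rw [dif_pos hi]
        exact ⟨_, rfl⟩
      obtain ⟨α, hα⟩ := hE
      exact second α hα
    · by_cases hij : i = j
      · have hE : ∃ α, secT ch i₀ j φ hji i = spMap α ≫ bl2 _ _ := by
          unfold secT
          rw [dif_neg hi, dif_pos hij]
          exact ⟨_, rfl⟩
        obtain ⟨α, hα⟩ := hE
        exact second α hα
      · have hsm := inL_smooth K T.x T.etx
        have hu : IsUnit ((extA ((Algebra.ofId k K).comp (ch.pt i)) : K ⊗[k] T.R1 →+* K)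
            ((1 : K) ⊗ₜ[k] (zz ch j))) := by
          rw [isUnit_iff_ne_zero, RingHom.coe_coe, extA_tmul, one_mul, AlgHom.comp_apply]
          intro h0
          exact pt_zz_ne ch j hij (hinj (h0.trans (map_zero _).symm))
        have hs : secT ch i₀ j φ hji i = spMap (nrLift (extA ((Algebra.ofId k K).comp (ch.pt i)) :
            K ⊗[k] T.R1 →+* K) (φ (zz ch j) * algebraMap k K (ch.pt i (zz ch j))⁻¹) (by
              simp only [RingHom.coe_coe, extA_tmul, AlgHom.comp_apply, one_mul, map_one, mul_one]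
              change algebraMap k K _ * _ = _
              rw [mul_comm, mul_assoc, ← map_mul, inv_mul_cancel₀ (pt_zz_ne ch j hij), map_one,
                mul_one])) ≫ bl1 ((1 : K) ⊗ₜ[k] (zz ch j)) (φ (zz ch j) ⊗ₜ[k] (1 : T.R1)) := by
          unfold secT
          rw [dif_neg hi, dif_neg hij]
        obtain ⟨W, i1, g, hi1, hg, hW⟩ := chart1 ((1 : K) ⊗ₜ[k] (zz ch j))
          (φ (zz ch j) ⊗ₜ[k] (1 : T.R1)) _ hu _ _ _ hsm
        rw [hg] at hs
        have hsm2 : Smooth ((i1 ≫ bl1 ((1 : K) ⊗ₜ[k] (zz ch j)) (φ (zz ch j) ⊗ₜ[k] (1 : T.R1)) ≫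
            bL ch.aff (zz ch j) (zz_unit ch j) K (φ (zz ch j))) ≫
            bπ ch.aff (zz ch j) (zz_unit ch j) K (φ (zz ch j))) := by
          rw [Category.assoc, Category.assoc, hbL, ← Category.assoc (bl1 _ _), bl1_π]
          exact hW
        have hx : (secT ch i₀ j φ hji i ≫
            bL ch.aff (zz ch j) (zz_unit ch j) K (φ (zz ch j))) s ∈
            Set.range (i1 ≫ bl1 ((1 : K) ⊗ₜ[k] (zz ch j)) (φ (zz ch j) ⊗ₜ[k] (1 : T.R1)) ≫
              bL ch.aff (zz ch j) (zz_unit ch j) K (φ (zz ch j))) := by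
          rw [hs, Category.assoc, Category.assoc, Scheme.Hom.comp_apply]
          exact ⟨_, rfl⟩
        exact smooth_of (i1 ≫ bl1 _ _ ≫ bL ch.aff (zz ch j) (zz_unit ch j) K (φ (zz ch j))) _
          hsm2 _ hx

end Pool.Agent.MG


end

section

/-!
# BGEN: the genus of the nodal curve
-/

set_option linter.unusedSectionVars false

open CategoryTheory CategoryTheory.Limits AlgebraicGeometry TensorProduct

namespace Pool.Agent.MG

namespace BGEN

theorem evO_eq {A : Type} [CommRing A] {X : Scheme.{0}} {i i' : Sp A ⟶ X} (e : i = i')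
    {U : X.Opens} (h : ⊤ ≤ i ⁻¹ᵁ U) (h' : ⊤ ≤ i' ⁻¹ᵁ U) (a : Γ(X, U)) :
    evO i U h a = evO i' U h' a := by
  subst e
  rfl

section Three

variable {K A1 A2 A3 M N : Type} [Field K] [CommRing A1] [CommRing A2] [CommRing A3]
  [CommRing M] [CommRing N] {X : Scheme.{0}} (π : X ⟶ Sp K)
  (i1 : Sp A1 ⟶ X) (i2 : Sp A2 ⟶ X) (i3 : Sp A3 ⟶ X)
  [IsOpenImmersion i1] [IsOpenImmersion i2] [IsOpenImmersion i3]
  (φ1 : A1 →+* M) (φ2 : A2 →+* M) (ψ1 : A1 →+* N) (ψ3 : A3 →+* N)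

/-- The genus of a curve with three affine charts, the second and the third one disjoint. -/
theorem genus_three (hM : spMap φ1 ≫ i1 = spMap φ2 ≫ i2) (hN : spMap ψ1 ≫ i1 = spMap ψ3 ≫ i3)
    (oM : IsOpenImmersion (spMap φ1 ≫ i1)) (oN : IsOpenImmersion (spMap ψ1 ≫ i1))
    (h12 : ∀ x y, i1 x = i2 y → i1 x ∈ Set.range (spMap φ1 ≫ i1))
    (h13 : ∀ x y, i1 x = i3 y → i1 x ∈ Set.range (spMap ψ1 ≫ i1))
    (h23 : ∀ x y, i2 x ≠ i3 y)
    (cov : ∀ x : X, x ∈ Set.range i1 ∨ x ∈ Set.range i2 ∨ x ∈ Set.range i3)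
    (κ : K →+* N) (hκ : (spMap ψ1 ≫ i1) ≫ π = spMap κ)
    (g : ℕ) (L : N →+ (Fin g → K)) (hs : Function.Surjective L)
    (hl : ∀ c t, L (κ c * t) = c • L t) (hk : ∀ t, L t = 0 ↔ ∃ p q, t = ψ1 p + ψ3 q)
    (hH : ∀ (m : M) (u : A1), ∃ (f : A1) (g : A2), ψ1 f = ψ1 u ∧ m = φ1 f + φ2 g) :
    HasGenus π g := by
  obtain ⟨U, hU⟩ : ∃ U, U = i2.opensRange ⊔ i3.opensRange := ⟨_, rfl⟩
  obtain ⟨V, hV⟩ : ∃ V, V = i1.opensRange := ⟨_, rfl⟩
  have mU : ∀ x, x ∈ U ↔ x ∈ Set.range i2 ∨ x ∈ Set.range i3 := by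
    intro x
    rw [hU]
    exact Iff.rfl
  have mV : ∀ x, x ∈ V ↔ x ∈ Set.range i1 := by
    intro x
    rw [hV]
    exact Iff.rfl
  have aU : IsAffineOpen U := by
    rw [hU]
    refine (isAffineOpen_opensRange i2).sup_of_disjoint (isAffineOpen_opensRange i3) ?_
    rw [disjoint_iff_inf_le]
    rintro x ⟨⟨p, hp⟩, ⟨q, hq⟩⟩
    exact (h23 p q (hp.trans hq.symm)).elim
  have aV : IsAffineOpen V := by
    rw [hV]
    exact isAffineOpen_opensRange i1
  have eM : ∀ p, (spMap φ1 ≫ i1) p = i2 (spMap φ2 p) := by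
    intro p
    rw [hM, Scheme.Hom.comp_apply]
  have eN : ∀ p, (spMap ψ1 ≫ i1) p = i3 (spMap ψ3 p) := by
    intro p
    rw [hN, Scheme.Hom.comp_apply]
  have hMU : ⊤ ≤ (spMap φ1 ≫ i1) ⁻¹ᵁ U := le_of_range _ fun p => (mU _).2 (Or.inl ⟨_, (eM p).symm⟩)
  have hMV : ⊤ ≤ (spMap φ1 ≫ i1) ⁻¹ᵁ V := le_of_range _ fun p => (mV _).2
    ⟨spMap φ1 p, (Scheme.Hom.comp_apply _ _ _).symm⟩
  have hNU : ⊤ ≤ (spMap ψ1 ≫ i1) ⁻¹ᵁ U := le_of_range _ fun p => (mU _).2 (Or.inr ⟨_, (eN p).symm⟩)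
  have hNV : ⊤ ≤ (spMap ψ1 ≫ i1) ⁻¹ᵁ V := le_of_range _ fun p => (mV _).2
    ⟨spMap ψ1 p, (Scheme.Hom.comp_apply _ _ _).symm⟩
  have hMUV : ⊤ ≤ (spMap φ1 ≫ i1) ⁻¹ᵁ (U ⊓ V) := fun p hp => ⟨hMU hp, hMV hp⟩
  have hNUV : ⊤ ≤ (spMap ψ1 ≫ i1) ⁻¹ᵁ (U ⊓ V) := fun p hp => ⟨hNU hp, hNV hp⟩
  have h1V : ⊤ ≤ i1 ⁻¹ᵁ V := le_of_range _ fun p => (mV _).2 ⟨p, rfl⟩
  have h2U : ⊤ ≤ i2 ⁻¹ᵁ U := le_of_range _ fun p => (mU _).2 (Or.inl ⟨p, rfl⟩)
  have h3U : ⊤ ≤ i3 ⁻¹ᵁ U := le_of_range _ fun p => (mU _).2 (Or.inr ⟨p, rfl⟩)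
  have hUV : ∀ x ∈ U ⊓ V, x ∈ Set.range (spMap φ1 ≫ i1) ∨ x ∈ Set.range (spMap ψ1 ≫ i1) := by
    rintro x ⟨hx1, hx2⟩
    obtain ⟨p, rfl⟩ := (mV x).1 hx2
    rcases (mU _).1 hx1 with ⟨q, hq⟩ | ⟨q, hq⟩
    · exact Or.inl (h12 p q hq.symm)
    · exact Or.inr (h13 p q hq.symm)
  have hd : ∀ x y, (spMap φ1 ≫ i1) x ≠ (spMap ψ1 ≫ i1) y := by
    intro x y
    rw [eM, eN]
    exact h23 _ _
  -- evaluation of restrictions
  have r1M : ∀ b : Γ(X, V), evO (spMap φ1 ≫ i1) (U ⊓ V) hMUV (rs X inf_le_right b) =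
      φ1 (evO i1 V h1V b) := by
    intro b
    rw [evO_rs _ inf_le_right hMUV hMV, evO_spMap i1 φ1 h1V hMV]
  have r1N : ∀ b : Γ(X, V), evO (spMap ψ1 ≫ i1) (U ⊓ V) hNUV (rs X inf_le_right b) =
      ψ1 (evO i1 V h1V b) := by
    intro b
    rw [evO_rs _ inf_le_right hNUV hNV, evO_spMap i1 ψ1 h1V hNV]
  have r2M : ∀ a : Γ(X, U), evO (spMap φ1 ≫ i1) (U ⊓ V) hMUV (rs X inf_le_left a) =
      φ2 (evO i2 U h2U a) := by
    intro a
    have h' : ⊤ ≤ (spMap φ2 ≫ i2) ⁻¹ᵁ U := hM ▸ hMU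
    rw [evO_rs _ inf_le_left hMUV hMU, evO_eq hM hMU h', evO_spMap i2 φ2 h2U h']
  have r3N : ∀ a : Γ(X, U), evO (spMap ψ1 ≫ i1) (U ⊓ V) hNUV (rs X inf_le_left a) =
      ψ3 (evO i3 U h3U a) := by
    intro a
    have h' : ⊤ ≤ (spMap ψ3 ≫ i3) ⁻¹ᵁ U := hN ▸ hNU
    rw [evO_rs _ inf_le_left hNUV hNU, evO_eq hN hNU h', evO_spMap i3 ψ3 h3U h']
  refine ⟨U, V, aU, aV, ?_, L.comp (evO (spMap ψ1 ≫ i1) (U ⊓ V) hNUV).toAddMonoidHom,
    ?_, ?_, ?_⟩
  · ext x
    simp only [TopologicalSpace.Opens.coe_sup, Set.mem_union, TopologicalSpace.Opens.coe_top,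
      Set.mem_univ, iff_true, SetLike.mem_coe]
    rw [mU, mV]
    have := cov x
    tauto
  · intro v
    obtain ⟨t, ht⟩ := hs v
    obtain ⟨s, -, hs2⟩ := evO_ex (spMap φ1 ≫ i1) (spMap ψ1 ≫ i1) hMUV hNUV hUV hd 0 t
    refine ⟨s, ?_⟩
    change L (evO (spMap ψ1 ≫ i1) (U ⊓ V) hNUV s) = v
    rw [hs2, ht]
  · intro c s
    change L (evO (spMap ψ1 ≫ i1) (U ⊓ V) hNUV (coef π (U ⊓ V) c * s)) =
      c • L (evO (spMap ψ1 ≫ i1) (U ⊓ V) hNUV s)
    rw [map_mul, evO_coef _ π κ hκ, hl]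
  · intro s
    change L (evO (spMap ψ1 ≫ i1) (U ⊓ V) hNUV s) = 0 ↔ ∃ (a : Γ(X, U)) (b : Γ(X, V)),
      s = rs X inf_le_left a + rs X inf_le_right b
    constructor
    · intro h0
      obtain ⟨p, q, hpq⟩ := (hk _).1 h0
      obtain ⟨f, r, hf, hm⟩ := hH (evO (spMap φ1 ≫ i1) (U ⊓ V) hMUV s) p
      obtain ⟨b, hb⟩ := (evO_bij i1 h1V (fun x hx => (mV x).1 hx)).2 f
      obtain ⟨a, ha1, ha2⟩ := evO_ex i2 i3 h2U h3U (fun x hx => (mU x).1 hx) h23 r q
      refine ⟨a, b, ?_⟩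
      rw [← sub_eq_zero]
      apply evO_un (spMap φ1 ≫ i1) (spMap ψ1 ≫ i1) hMUV hNUV hUV
      · rw [map_sub, map_add, r2M, r1M, ha1, hb, hm]
        ring
      · rw [map_sub, map_add, r3N, r1N, ha2, hb, hpq, hf]
        ring
    · rintro ⟨a, b, rfl⟩
      rw [hk]
      refine ⟨evO i1 V h1V b, evO i3 U h3U a, ?_⟩
      rw [map_add, r3N, r1N, add_comm]

end Three

section Const

variable {n : ℕ} {k : Type} [Field k] {C : Fam n k} {T : TC k} {ct : Charted T C}
  (ha : ct.Aff) (K : Type) [Field K] [Algebra k K]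

include ha in
/-- The genus of the constant family, in terms of the chart rings. -/
theorem const_L (hCOVI : Stmt_COVI) (hC : IsProper C.π) (g : ℕ)
    (hg : HasGenus (pullback.snd C.π (spMap (algebraMap k K))) g) :
    ∃ L : K ⊗[k] T.R12 →+ (Fin g → K), Function.Surjective L ∧
      (∀ c t, L (inL k K T.R12 c * t) = c • L t) ∧
      ∀ t, L t = 0 ↔ ∃ (p : K ⊗[k] T.R1) (q : K ⊗[k] T.R2),
        t = bmap K T.j1 p + bmap K T.j2 q := by
  obtain ⟨U, hU⟩ : ∃ U, U = (ka1 ha K).opensRange := ⟨_, rfl⟩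
  obtain ⟨V, hV⟩ : ∃ V, V = (ka2 ha K).opensRange := ⟨_, rfl⟩
  have mU : ∀ x, x ∈ U ↔ x ∈ Set.range (ka1 ha K) := by
    intro x
    rw [hU]
    exact Iff.rfl
  have mV : ∀ x, x ∈ V ↔ x ∈ Set.range (ka2 ha K) := by
    intro x
    rw [hV]
    exact Iff.rfl
  have aU : IsAffineOpen U := by
    rw [hU]
    exact isAffineOpen_opensRange _
  have aV : IsAffineOpen V := by
    rw [hV]
    exact isAffineOpen_opensRange _
  have hUV : U ⊔ V = ⊤ := by
    ext x
    simp only [TopologicalSpace.Opens.coe_sup, Set.mem_union, TopologicalSpace.Opens.coe_top,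
      Set.mem_univ, iff_true, SetLike.mem_coe]
    rw [mU, mV]
    exact ka_cover ha K x
  obtain ⟨L, hs, hl, hk⟩ := hCOVI (pullback.snd C.π (spMap (algebraMap k K))) g hg U V aU aV hUV
  have e1 := ka12_eq1 ha K
  have e2 := ka12_eq2 ha K
  have h1U : ⊤ ≤ (ka1 ha K) ⁻¹ᵁ U := le_of_range _ fun p => (mU _).2 ⟨p, rfl⟩
  have h2V : ⊤ ≤ (ka2 ha K) ⁻¹ᵁ V := le_of_range _ fun p => (mV _).2 ⟨p, rfl⟩
  have hxU : ⊤ ≤ (ka12 ha K) ⁻¹ᵁ U := le_of_range _ fun p => (mU _).2
    ⟨spMap (bmap K T.j1) p, by rw [← Scheme.Hom.comp_apply, e1]⟩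
  have hxV : ⊤ ≤ (ka12 ha K) ⁻¹ᵁ V := le_of_range _ fun p => (mV _).2
    ⟨spMap (bmap K T.j2) p, by rw [← Scheme.Hom.comp_apply, e2]⟩
  have hx : ⊤ ≤ (ka12 ha K) ⁻¹ᵁ (U ⊓ V) := fun p hp => ⟨hxU hp, hxV hp⟩
  have hr : ∀ x ∈ U ⊓ V, x ∈ Set.range (ka12 ha K) := by
    rintro x ⟨hx1, hx2⟩
    obtain ⟨p, rfl⟩ := (mU x).1 hx1
    obtain ⟨q, hq⟩ := (mV _).1 hx2
    obtain ⟨w, hw, -⟩ := Scheme.exists_preimage_of_isPullback (ka_isPullback ha K) p q hq.symm
    exact ⟨w, by rw [← e1, Scheme.Hom.comp_apply, hw]⟩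
  have hbij := evO_bij (ka12 ha K) hx hr
  have r1 : ∀ a, evO (ka12 ha K) (U ⊓ V) hx (rs _ inf_le_left a) =
      bmap K T.j1 (evO (ka1 ha K) U h1U a) := by
    intro a
    have h' : ⊤ ≤ (spMap (bmap K T.j1) ≫ ka1 ha K) ⁻¹ᵁ U := e1.symm ▸ hxU
    rw [evO_rs _ inf_le_left hx hxU, evO_eq e1.symm hxU h', evO_spMap (ka1 ha K) _ h1U h']
  have r2 : ∀ a, evO (ka12 ha K) (U ⊓ V) hx (rs _ inf_le_right a) =
      bmap K T.j2 (evO (ka2 ha K) V h2V a) := by
    intro a
    have h' : ⊤ ≤ (spMap (bmap K T.j2) ≫ ka2 ha K) ⁻¹ᵁ V := e2.symm ▸ hxV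
    rw [evO_rs _ inf_le_right hx hxV, evO_eq e2.symm hxV h', evO_spMap (ka2 ha K) _ h2V h']
  obtain ⟨e, he⟩ : ∃ e : Γ(pullback C.π (spMap (algebraMap k K)), U ⊓ V) ≃+* K ⊗[k] T.R12,
      ∀ s, e s = evO (ka12 ha K) (U ⊓ V) hx s := ⟨RingEquiv.ofBijective _ hbij, fun _ => rfl⟩
  refine ⟨L.comp (e.symm : K ⊗[k] T.R12 →+* _).toAddMonoidHom, ?_, ?_, ?_⟩
  · intro v
    obtain ⟨s, hs'⟩ := hs v
    refine ⟨e s, ?_⟩
    change L (e.symm (e s)) = v
    rw [e.symm_apply_apply, hs']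
  · intro c t
    change L (e.symm (inL k K T.R12 c * t)) = c • L (e.symm t)
    have h1 : e.symm (inL k K T.R12 c) =
        coef (pullback.snd C.π (spMap (algebraMap k K))) (U ⊓ V) c := by
      rw [RingEquiv.symm_apply_eq, he]
      exact (evO_coef (ka12 ha K) _ (inL k K T.R12) (kap_snd K _ _) hx c).symm
    rw [map_mul, h1, hl]
  · intro t
    change L (e.symm t) = 0 ↔ _
    rw [hk]
    constructor
    · rintro ⟨a, b, hab⟩
      refine ⟨evO (ka1 ha K) U h1U a, evO (ka2 ha K) V h2V b, ?_⟩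
      rw [← r1, ← r2, ← he, ← he, ← map_add]
      rw [RingEquiv.symm_apply_eq] at hab
      exact hab
    · rintro ⟨p, q, rfl⟩
      obtain ⟨a, rfl⟩ := (evO_bij (ka1 ha K) h1U (fun x hx => (mU x).1 hx)).2 p
      obtain ⟨b, rfl⟩ := (evO_bij (ka2 ha K) h2V (fun x hx => (mV x).1 hx)).2 q
      refine ⟨a, b, ?_⟩
      rw [RingEquiv.symm_apply_eq, map_add, he]
      refine congrArg₂ (· + ·) (r1 a).symm ?_
      exact ((he _).trans (r2 b)).symm

end Const

section Main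

variable {n : ℕ} {k : Type} [Field k] {C : Fam n k} {T : TC k} (ch : Cht C T) (j : Fin n)
  (K : Type) [Field K] [Algebra k K] (b : K) (hb : b = 0)

/-- The restriction to the intersection of the first chart with the chart at infinity. -/
noncomputable def ps : N1 ch j K b →+* K ⊗[k] T.R12 := (bmap K T.j1).comp (toA ch j K b hb)

theorem ps_bl1 : spMap (ps ch j K b hb) ≫ bl1 (zB ch j K) (b ⊗ₜ[k] (1 : T.R1)) =
    bJ (zz ch j) (zz_unit ch j) K b := by
  have hp := bJ_isPullback ch.aff (zz ch j) (zz_unit ch j) K b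
  have h1 : (spMap (ps ch j K b hb) ≫ bl1 (zB ch j K) (b ⊗ₜ[k] (1 : T.R1))) ≫ blπ _ _ =
      𝟙 _ ≫ spMap (bmap K T.j1) := by
    rw [Category.assoc, bl1_π, ← spMap_comp, Category.id_comp]
    congr 1
    refine RingHom.ext fun a => ?_
    unfold ps
    rw [RingHom.comp_apply, RingHom.comp_apply, toA_of]
  have h2 := hp.lift_fst _ _ h1
  have h3 := hp.lift_snd _ _ h1
  rw [Category.comp_id] at h3
  rw [← h2, h3, Category.id_comp]

theorem ps_w : ps ch j K b hb (nw _ _) = 0 := by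
  unfold ps
  rw [RingHom.comp_apply, toA_w, map_zero]

/-- Decomposition of the functions on the intersection of the two charts of the blow up. -/
theorem split (m : MR (zB ch j K) (b ⊗ₜ[k] (1 : T.R1))) (u : N1 ch j K b) :
    ∃ (f : N1 ch j K b) (g : N2 ch j K b), ps ch j K b hb f = ps ch j K b hb u ∧
      m = algebraMap (N1 ch j K b) _ f + swapN _ _ g := by
  obtain ⟨f0, g0, h0⟩ := bub_H1 (zB ch j K) (b ⊗ₜ[k] (1 : T.R1))
    (m - algebraMap (N1 ch j K b) _ u)
  refine ⟨u + f0 - algebraMap _ (N1 ch j K b) (toA ch j K b hb f0),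
    g0 + algebraMap _ (N2 ch j K b) (toA ch j K b hb f0), ?_, ?_⟩
  · unfold ps
    rw [RingHom.comp_apply, RingHom.comp_apply, map_sub, map_add, toA_of, add_sub_cancel_right]
  · have h1 : swapN (zB ch j K) (b ⊗ₜ[k] (1 : T.R1))
        (algebraMap _ (N2 ch j K b) (toA ch j K b hb f0)) =
        algebraMap (N1 ch j K b) (MR (zB ch j K) (b ⊗ₜ[k] (1 : T.R1)))
          (algebraMap _ (N1 ch j K b) (toA ch j K b hb f0)) :=
      (swapN_of _ _ _).trans (algebraMap_MR _ _ _)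
    rw [map_sub, map_add, map_add, h1]
    linear_combination h0

end Main

end BGEN

theorem t_BGEN (hCOVI : Stmt_COVI) : Stmt_BGEN := by
  intro n k _ C T ch j hC K _ _ b hb g hg
  obtain ⟨L, hs, hl, hk⟩ := BGEN.const_L ch.aff K hCOVI hC g hg
  have hJ := bJ_open ch.aff (zz ch j) (zz_unit ch j) K b
  have eJ := BGEN.ps_bl1 ch j K b hb
  have eM : spMap (algebraMap (N1 ch j K b) (MR (zB ch j K) (b ⊗ₜ[k] (1 : T.R1)))) ≫
      bl1 (zB ch j K) (b ⊗ₜ[k] (1 : T.R1)) ≫ bL ch.aff (zz ch j) (zz_unit ch j) K b =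
      (blf (zB ch j K) (b ⊗ₜ[k] (1 : T.R1)) ≫ bl1 (zB ch j K) (b ⊗ₜ[k] (1 : T.R1))) ≫
        bL ch.aff (zz ch j) (zz_unit ch j) K b := (Category.assoc _ _ _).symm
  have eN : spMap (BGEN.ps ch j K b hb) ≫
      bl1 (zB ch j K) (b ⊗ₜ[k] (1 : T.R1)) ≫ bL ch.aff (zz ch j) (zz_unit ch j) K b =
      bJ (zz ch j) (zz_unit ch j) K b ≫ bL ch.aff (zz ch j) (zz_unit ch j) K b := by
    rw [← Category.assoc, eJ]
  refine BGEN.genus_three (bπ ch.aff (zz ch j) (zz_unit ch j) K b)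
    (bl1 (zB ch j K) (b ⊗ₜ[k] (1 : T.R1)) ≫ bL ch.aff (zz ch j) (zz_unit ch j) K b)
    (bl2 (zB ch j K) (b ⊗ₜ[k] (1 : T.R1)) ≫ bL ch.aff (zz ch j) (zz_unit ch j) K b)
    (bR ch.aff (zz ch j) (zz_unit ch j) K b)
    (algebraMap (N1 ch j K b) (MR (zB ch j K) (b ⊗ₜ[k] (1 : T.R1))))
    (swapN (zB ch j K) (b ⊗ₜ[k] (1 : T.R1))) (BGEN.ps ch j K b hb) (bmap K T.j2)
    ?_ ?_ ?_ ?_ ?_ ?_ ?_ ?_ (inL k K T.R12) ?_ g L hs hl ?_ ?_
  · rw [eM, bl_cond, Category.assoc]
    rfl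
  · rw [eN, b_cond]
  · rw [eM]
    infer_instance
  · rw [eN]
    infer_instance
  · intro x y h
    rw [eM]
    have h1 : bl1 (zB ch j K) (b ⊗ₜ[k] (1 : T.R1)) x = bl2 _ _ y := by
      apply (bL ch.aff (zz ch j) (zz_unit ch j) K b).isOpenEmbedding.injective
      rw [← Scheme.Hom.comp_apply, ← Scheme.Hom.comp_apply]
      exact h
    have h2 : bl1 (zB ch j K) (b ⊗ₜ[k] (1 : T.R1)) x ∈
        Set.range (blf (zB ch j K) (b ⊗ₜ[k] (1 : T.R1)) ≫ bl1 _ _) := by
      rw [← bl_inter_range]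
      exact ⟨⟨x, rfl⟩, ⟨y, h1.symm⟩⟩
    obtain ⟨w, hw⟩ := h2
    exact ⟨w, by rw [Scheme.Hom.comp_apply, hw, Scheme.Hom.comp_apply]⟩
  · intro x y h
    rw [eN]
    rw [Scheme.Hom.comp_apply] at h
    obtain ⟨w, hw, -⟩ := Scheme.exists_preimage_of_isPullback
      (b_isPullback ch.aff (zz ch j) (zz_unit ch j) K b) _ y h
    exact ⟨w, by rw [Scheme.Hom.comp_apply, hw, Scheme.Hom.comp_apply]⟩
  · intro x y h
    rw [Scheme.Hom.comp_apply] at h
    obtain ⟨w, hw, -⟩ := Scheme.exists_preimage_of_isPullback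
      (b_isPullback ch.aff (zz ch j) (zz_unit ch j) K b) _ y h
    have h1 : bl1 (zB ch j K) (b ⊗ₜ[k] (1 : T.R1)) (spMap (BGEN.ps ch j K b hb) w) =
        bl2 _ _ x := by
      rw [← Scheme.Hom.comp_apply, eJ]
      exact hw
    have h2 := (bl1_mem_range_bl2 (zB ch j K) (b ⊗ₜ[k] (1 : T.R1)) _).1 ⟨x, h1.symm⟩
    apply h2
    change BGEN.ps ch j K b hb (nw _ _) ∈ w.asIdeal
    rw [BGEN.ps_w]
    exact Ideal.zero_mem _
  · intro x
    rcases b_cover ch.aff (zz ch j) (zz_unit ch j) K b x with ⟨y, rfl⟩ | h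
    · rcases bl_cover _ _ y with ⟨w, rfl⟩ | ⟨w, rfl⟩
      · exact Or.inl ⟨w, Scheme.Hom.comp_apply _ _ _⟩
      · exact Or.inr (Or.inl ⟨w, Scheme.Hom.comp_apply _ _ _⟩)
    · exact Or.inr (Or.inr h)
  · rw [eN, Category.assoc, bL_π, ← Category.assoc, bJ_π ch.aff, ← spMap_comp, bmap_inL]
  · intro t
    rw [hk]
    constructor
    · rintro ⟨p, q, rfl⟩
      refine ⟨algebraMap _ (N1 ch j K b) p, q, ?_⟩
      unfold BGEN.ps
      rw [RingHom.comp_apply, toA_of]
    · rintro ⟨p, q, rfl⟩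
      exact ⟨toA ch j K b hb p, q, rfl⟩
  · intro m u
    exact BGEN.split ch j K b hb m u

end Pool.Agent.MG


end

section

/-!
# RIGW: no vector fields on the constant family which vanish at one marked point
-/

open CategoryTheory CategoryTheory.Limits AlgebraicGeometry TensorProduct

namespace Pool.Agent.MG

namespace RIGW

/-- A section in the first chart evaluates functions by `extA`. -/
theorem ev_sec {k : Type} [Field k] {T : TC k} {n : ℕ} {K : Type} [Field K] [Algebra k K]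
    {x : Fam n K} (c : Charted T x) (i : Fin n) (φ : T.R1 →ₐ[k] K) (h : ⊤ ≤ x.σ i ⁻¹ᵁ c.U1)
    (h1 : ∀ a : T.R1, ((x.σ i).appLE c.U1 ⊤ h).hom (c.t1 (1 ⊗ₜ a)) = gl K (φ a))
    (u : K ⊗[k] T.R1) : evO (x.σ i) c.U1 h (c.t1 u) = extA φ u := by
  refine tensor_ind (f := (evO (x.σ i) c.U1 h).comp c.t1) (g := (extA φ).toRingHom) ?_ ?_ u
  · intro b
    change evO (x.σ i) c.U1 h (c.t1 (b ⊗ₜ 1)) = extA φ (b ⊗ₜ 1)
    have hs : x.σ i ≫ x.π = spMap (RingHom.id K) := by
      rw [x.sec i]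
      exact (spMap_id K).symm
    rw [c.c1, evO_coef (x.σ i) x.π (RingHom.id K) hs h b]
    simp [extA]
  · intro a
    change evO (x.σ i) c.U1 h (c.t1 (1 ⊗ₜ a)) = extA φ (1 ⊗ₜ a)
    have h2 : evO (x.σ i) c.U1 h (c.t1 (1 ⊗ₜ a)) = φ a := by
      unfold evO
      rw [RingHom.comp_apply, h1]
      exact gl_inv (φ a)
    rw [h2]
    simp [extA]

end RIGW

open RIG _root_.Pool.Agent.MG.RIGW in
/-- RIGW. -/
theorem t_RIGW (hCHB : Stmt_CHB) (hCHI : Stmt_CHI) (hTAU : Stmt_TAU) (hALGW : Stmt_ALGW) :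
    Stmt_RIGW := by
  intro n k _ C T ch j hyp K _ _ τ hτ hj v U
  obtain ⟨c, hc⟩ := hCHB ch.ct ch.aff K τ hτ
  have haff : IsAffineHom (pullback.fst C.π (spMap (algebraMap k K))) :=
    MorphismProperty.pullback_fst _ _ inferInstance
  have a1 : IsAffineOpen c.U1 := by
    rw [← hc.h1]
    exact ch.aff.aff1.preimage (pullback.fst C.π (spMap (algebraMap k K)))
  have a2 : IsAffineOpen c.U2 := by
    rw [← hc.h2]
    exact ch.aff.aff2.preimage (pullback.fst C.π (spMap (algebraMap k K)))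
  have hjt : τ j = tau ch.aff (.one ((Algebra.ofId k K).comp (ch.pt j))) := by
    obtain ⟨-, h2, -, h4⟩ := hTAU ch.ct ch.aff
    have e1 : C.σ j = tau ch.aff (.one (ch.pt j)) := h4 (C.σ j) (.one (ch.pt j)) (C.sec j) (ch.is j)
    have e2 := h2 k K (Algebra.ofId k K) (.one (ch.pt j))
    rw [hj, e1]
    exact e2.symm
  obtain ⟨hle, hev⟩ : c.Is1 ((constFam C K τ hτ).σ j) ((Algebra.ofId k K).comp (ch.pt j)) :=
    (hCHI ch.ct ch.aff K τ hτ c hc j).1 (.one ((Algebra.ofId k K).comp (ch.pt j))) hjt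
  let D1 : K ⊗[k] T.R1 →+ K ⊗[k] T.R1 :=
    (c.eq1.symm : _ →+ _).comp ((v.D c.U1).comp (c.eq1 : _ →+ _))
  let D2 : K ⊗[k] T.R2 →+ K ⊗[k] T.R2 :=
    (c.eq2.symm : _ →+ _).comp ((v.D c.U2).comp (c.eq2 : _ →+ _))
  let D12 : K ⊗[k] T.R12 →+ K ⊗[k] T.R12 :=
    (c.eq12.symm : _ →+ _).comp ((v.D (c.U1 ⊓ c.U2)).comp (c.eq12 : _ →+ _))
  have d1 : ∀ a, D1 a = c.eq1.symm (v.D c.U1 (c.eq1 a)) := fun _ => rfl
  have d2 : ∀ a, D2 a = c.eq2.symm (v.D c.U2 (c.eq2 a)) := fun _ => rfl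
  have d12 : ∀ a, D12 a = c.eq12.symm (v.D (c.U1 ⊓ c.U2) (c.eq12 a)) := fun _ => rfl
  have R1 : ∀ a, rs (constFam C K τ hτ).X inf_le_left (c.eq1 a) =
    c.eq12 (Algebra.TensorProduct.map (AlgHom.id k K) T.j1 a) := fun a => c.rs1 a
  have R2 : ∀ a, rs (constFam C K τ hτ).X inf_le_right (c.eq2 a) =
    c.eq12 (Algebra.TensorProduct.map (AlgHom.id k K) T.j2 a) := fun a => c.rs2 a
  have key := hALGW ch j hyp K D1 D2 D12 ⟨?_, ?_⟩ ⟨?_, ?_⟩ ⟨?_, ?_⟩ ?_ ?_ ?_
  · refine all0 v c.cover a1 a2 ?_ ?_ U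
    · ext s
      have h := DFunLike.congr_fun key.1 (c.eq1.symm s)
      rw [d1, c.eq1.apply_symm_apply] at h
      exact (map_eq_zero_iff _ c.eq1.symm.injective).1 h
    · ext s
      have h := DFunLike.congr_fun key.2 (c.eq2.symm s)
      rw [d2, c.eq2.apply_symm_apply] at h
      exact (map_eq_zero_iff _ c.eq2.symm.injective).1 h
  · intro a b
    rw [d1, d1, d1, RingEquiv.symm_apply_eq, map_mul, v.mul, map_add, map_mul, map_mul,
      c.eq1.apply_symm_apply, c.eq1.apply_symm_apply]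
  · intro b
    rw [d1, RingEquiv.symm_apply_eq, map_zero]
    exact (congrArg (v.D c.U1) (c.c1 b)).trans (v.const _ _)
  · intro a b
    rw [d2, d2, d2, RingEquiv.symm_apply_eq, map_mul, v.mul, map_add, map_mul, map_mul,
      c.eq2.apply_symm_apply, c.eq2.apply_symm_apply]
  · intro b
    rw [d2, RingEquiv.symm_apply_eq, map_zero]
    exact (congrArg (v.D c.U2) (c.c2 b)).trans (v.const _ _)
  · intro a b
    rw [d12, d12, d12, RingEquiv.symm_apply_eq, map_mul, v.mul, map_add, map_mul, map_mul,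
      c.eq12.apply_symm_apply, c.eq12.apply_symm_apply]
  · intro b
    rw [d12, RingEquiv.symm_apply_eq, map_zero]
    exact (congrArg (v.D (c.U1 ⊓ c.U2)) (c.c12 b)).trans (v.const _ _)
  · intro a
    change D12 (Algebra.TensorProduct.map (AlgHom.id k K) T.j1 a) =
      Algebra.TensorProduct.map (AlgHom.id k K) T.j1 (D1 a)
    rw [d12, d1, RingEquiv.symm_apply_eq, ← R1, ← R1, c.eq1.apply_symm_apply, dres]
  · intro a
    change D12 (Algebra.TensorProduct.map (AlgHom.id k K) T.j2 a) =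
      Algebra.TensorProduct.map (AlgHom.id k K) T.j2 (D2 a)
    rw [d12, d2, RingEquiv.symm_apply_eq, ← R2, ← R2, c.eq2.apply_symm_apply, dres]
  · intro a
    have h1 : evO ((constFam C K τ hτ).σ j) c.U1 hle (c.t1 (D1 a)) =
        extA ((Algebra.ofId k K).comp (ch.pt j)) (D1 a) := ev_sec c j _ hle hev (D1 a)
    have h2 : c.t1 (D1 a) = v.D c.U1 (c.eq1 a) := by
      rw [d1]
      exact c.eq1.apply_symm_apply _
    have h3 := v.sec c.U1 j (c.eq1 a)
    have h4 : evO ((constFam C K τ hτ).σ j) c.U1 hle (v.D c.U1 (c.eq1 a)) = 0 := by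
      unfold evO
      rw [RingHom.comp_apply]
      have h5 : (((constFam C K τ hτ).σ j).appLE c.U1 ⊤ hle).hom (v.D c.U1 (c.eq1 a)) =
          ((Sp K).presheaf.map (homOfLE hle).op).hom
            ((((constFam C K τ hτ).σ j).app c.U1).hom (v.D c.U1 (c.eq1 a))) := rfl
      have h6 : (((constFam C K τ hτ).σ j).app c.U1).hom (v.D c.U1 (c.eq1 a)) = 0 := h3
      rw [h5, h6, map_zero, map_zero]
    rw [h2, h4] at h1
    exact h1.symm

end Pool.Agent.MG


end
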