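import Mathlib

/-! Parts: MG.ET, MG.DER, MG.WL.LCEa, MG.H2.CKex, MG.H2.CDex -/

section

/-!
# Étale algebras over integrally closed domains (MP_cc45c1_ag)
-/

namespace MG

open TensorProduct nonZeroDivisors

section

variable (A B : Type*) [CommRing A] [IsDomain A] [CommRing B] [IsDomain B] [Algebra A B]
  [Algebra.Etale A B]

theorem faithful_of_etale : FaithfulSMul A B := by
  have : Module.Flat A B := inferInstance
  have : Module.IsTorsionFree A B := inferInstance
  infer_instance

attribute [local instance] Algebra.TensorProduct.rightAlgebra in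
theorem isField_of_etale : IsField (FractionRing A ⊗[A] B) := by
  have hf : FaithfulSMul A B := faithful_of_etale A B
  have hloc : IsLocalization (Algebra.algebraMapSubmonoid B A⁰) (FractionRing A ⊗[A] B) :=
    inferInstance
  have hle : Algebra.algebraMapSubmonoid B A⁰ ≤ B⁰ := by
    rintro _ ⟨a, ha, rfl⟩
    exact mem_nonZeroDivisors_of_ne_zero (by
      intro h
      exact nonZeroDivisors.ne_zero ha
        ((FaithfulSMul.algebraMap_injective A B) (by rw [h, map_zero])))
  have hdom : IsDomain (FractionRing A ⊗[A] B) :=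
    IsLocalization.isDomain_of_le_nonZeroDivisors (FractionRing A ⊗[A] B) hle
  have h1 : Algebra.FormallyUnramified (FractionRing A) (FractionRing A ⊗[A] B) := inferInstance
  have h2 : Algebra.EssFiniteType (FractionRing A) (FractionRing A ⊗[A] B) := inferInstance
  have h3 : Module.Finite (FractionRing A) (FractionRing A ⊗[A] B) :=
    Algebra.FormallyUnramified.finite_of_free _ _
  have h4 : Algebra.IsIntegral (FractionRing A) (FractionRing A ⊗[A] B) := inferInstance
  exact isField_of_isIntegral_of_isField' (Field.toIsField (FractionRing A))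

attribute [local instance] Algebra.TensorProduct.rightAlgebra in
theorem isAlgebraic_of_etale : Algebra.IsAlgebraic A B := by
  have hf : FaithfulSMul A B := faithful_of_etale A B
  have hle : Algebra.algebraMapSubmonoid B A⁰ ≤ B⁰ := by
    rintro _ ⟨a, ha, rfl⟩
    exact mem_nonZeroDivisors_of_ne_zero (by
      intro h
      exact nonZeroDivisors.ne_zero ha
        ((FaithfulSMul.algebraMap_injective A B) (by rw [h, map_zero])))
  have h1 : Algebra.FormallyUnramified (FractionRing A) (FractionRing A ⊗[A] B) := inferInstance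
  have h2 : Algebra.EssFiniteType (FractionRing A) (FractionRing A ⊗[A] B) := inferInstance
  have h3 : Module.Finite (FractionRing A) (FractionRing A ⊗[A] B) :=
    Algebra.FormallyUnramified.finite_of_free _ _
  have hinj : Function.Injective (algebraMap B (FractionRing A ⊗[A] B)) :=
    IsLocalization.injective _ hle
  constructor
  intro b
  have h5 : IsAlgebraic (FractionRing A) (algebraMap B (FractionRing A ⊗[A] B) b) :=
    (Algebra.IsIntegral.isIntegral _).isAlgebraic
  have h6 : IsAlgebraic A (algebraMap B (FractionRing A ⊗[A] B) b) :=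
    (IsFractionRing.isAlgebraic_iff A (FractionRing A) (FractionRing A ⊗[A] B)).mpr h5
  exact (isAlgebraic_algebraMap_iff hinj).mp h6

theorem isFractionRing_of_etale : IsFractionRing B (B ⊗[A] FractionRing A) := by
  have hf : FaithfulSMul A B := faithful_of_etale A B
  have hloc : IsLocalization (Algebra.algebraMapSubmonoid B A⁰) (B ⊗[A] FractionRing A) :=
    IsLocalization.tensor (FractionRing A) A⁰
  have hle : Algebra.algebraMapSubmonoid B A⁰ ≤ B⁰ := by
    rintro _ ⟨a, ha, rfl⟩
    exact mem_nonZeroDivisors_of_ne_zero (by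
      intro h
      exact nonZeroDivisors.ne_zero ha
        ((FaithfulSMul.algebraMap_injective A B) (by rw [h, map_zero])))
  have hF : IsField (B ⊗[A] FractionRing A) :=
    MulEquiv.isField (isField_of_etale A B)
      (Algebra.TensorProduct.comm A B (FractionRing A)).toMulEquiv
  have hinj : Function.Injective (algebraMap B (B ⊗[A] FractionRing A)) :=
    IsLocalization.injective _ hle
  refine ⟨?_, ?_, ?_⟩
  · rintro ⟨b, hb⟩
    obtain ⟨c, hc⟩ := hF.mul_inv_cancel (a := algebraMap B (B ⊗[A] FractionRing A) b) (by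
      intro h
      exact nonZeroDivisors.ne_zero hb (hinj (by rw [h, map_zero])))
    exact IsUnit.of_mul_eq_one c hc
  · intro z
    obtain ⟨⟨x, y⟩, h⟩ := IsLocalization.surj (Algebra.algebraMapSubmonoid B A⁰) z
    exact ⟨⟨x, ⟨y.1, hle y.2⟩⟩, h⟩
  · intro x y h
    exact ⟨1, by rw [hinj h]⟩

/-- Étale algebras over integrally closed domains are integrally closed. -/
theorem isIntegrallyClosed_of_etale [IsIntegrallyClosed A] : IsIntegrallyClosed B := by
  have hfr := isFractionRing_of_etale A B
  rw [isIntegrallyClosed_iff (B ⊗[A] FractionRing A)]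
  intro x hx
  obtain ⟨y, hy⟩ := (TensorProduct.toIntegralClosure_bijective_of_smooth (R := A) (S := B)
    (B := FractionRing A)).2 ⟨x, hx⟩
  have hy' : (Algebra.TensorProduct.map (AlgHom.id B B)
    (integralClosure A (FractionRing A)).val) y = x := congrArg Subtype.val hy
  rw [← hy']
  clear hy hy' hx
  induction y with
  | zero => exact ⟨0, by simp⟩
  | add u v hu hv =>
    obtain ⟨a, ha⟩ := hu
    obtain ⟨b, hb⟩ := hv
    exact ⟨a + b, by rw [map_add, map_add, ha, hb]⟩
  | tmul b c =>
    obtain ⟨a, ha⟩ := IsIntegrallyClosed.isIntegral_iff.mp c.2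
    refine ⟨algebraMap A B a * b, ?_⟩
    rw [Algebra.TensorProduct.map_tmul]
    simp only [AlgHom.coe_id, id_eq, Subalgebra.coe_val]
    rw [← ha, Algebra.TensorProduct.algebraMap_apply, Algebra.algebraMap_self, RingHom.id_apply,
      ← Algebra.smul_def, TensorProduct.smul_tmul, Algebra.smul_def, mul_one]

end

end MG


end

section

/-!
# Derivations and étale coordinates (MP_cc45c1_ag)
-/

namespace MG

open TensorProduct nonZeroDivisors

section

variable {R S T M : Type*} [CommRing R] [CommRing S] [CommRing T] [Algebra R S] [Algebra R T]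
  [Algebra S T] [IsScalarTower R S T] [AddCommGroup M] [Module R M] [Module S M] [Module T M]
  [IsScalarTower S T M] [IsScalarTower R S M] [IsScalarTower R T M]

theorem exists_derivation_of_formallyEtale [Algebra.FormallyEtale S T] (d : Derivation R S M) :
    ∃ D : Derivation R T M, ∀ s, D (algebraMap S T s) = d s := by
  let l : KaehlerDifferential R S →ₗ[S] M := d.liftKaehlerDifferential
  let l' : KaehlerDifferential R T →ₗ[T] M := (LinearMap.liftBaseChange T l).comp
    (KaehlerDifferential.tensorKaehlerEquivOfFormallyEtale R S T).symm.toLinearMap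
  refine ⟨l'.compDer (KaehlerDifferential.D R T), fun s => ?_⟩
  change l' (KaehlerDifferential.D R T (algebraMap S T s)) = d s
  simp only [l', LinearMap.comp_apply, LinearEquiv.coe_coe]
  rw [KaehlerDifferential.tensorKaehlerEquivOfFormallyEtale_symm_D_algebraMap,
    LinearMap.liftBaseChange_tmul, one_smul]
  exact d.liftKaehlerDifferential_comp_D s

theorem derivation_eq_zero_of_formallyUnramified [Algebra.FormallyUnramified S T]
    (D : Derivation R T M) (h0 : ∀ s, D (algebraMap S T s) = 0) : D = 0 := by
  let E : Derivation S T M :=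
    { toFun := D
      map_add' := map_add D
      map_smul' := fun c x => by
        rw [Algebra.smul_def, Derivation.leibniz, h0, smul_zero, add_zero, RingHom.id_apply,
          algebraMap_smul]
      map_one_eq_zero' := D.map_one_eq_zero
      leibniz' := D.leibniz }
  have hE : E = 0 := by
    have := E.liftKaehlerDifferential_comp
    rw [← this, Subsingleton.elim E.liftKaehlerDifferential 0]
    rfl
  ext x
  exact congrArg (fun F : Derivation S T M => F x) hE

theorem derivation_ext_of_formallyUnramified [Algebra.FormallyUnramified S T]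
    (D D' : Derivation R T M) (h : ∀ s, D (algebraMap S T s) = D' (algebraMap S T s)) :
    D = D' := by
  rw [← sub_eq_zero]
  apply derivation_eq_zero_of_formallyUnramified (S := S)
  intro s
  rw [Derivation.sub_apply, h s, sub_self]

end

section

variable {k A : Type*} [Field k] [CommRing A] [Algebra k A] (x : A)
  (hx : (Polynomial.aeval x : Polynomial k →ₐ[k] A).toRingHom.Etale)

include hx in
/-- Existence of the derivation `d/dx`. -/
theorem exists_ddx (N : Type*) [AddCommGroup N] [Module k N] [Module A N] [IsScalarTower k A N]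
    (m : N) : ∃ D : Derivation k A N, D x = m := by
  let _ : Algebra (Polynomial k) A := (Polynomial.aeval x : Polynomial k →ₐ[k] A).toRingHom.toAlgebra
  have _ : IsScalarTower k (Polynomial k) A := IsScalarTower.of_algebraMap_eq' (by
    ext c
    change algebraMap k A c = Polynomial.aeval x (Polynomial.C c)
    simp)
  have _ : Algebra.Etale (Polynomial k) A := hx
  let _ : Module (Polynomial k) N := Module.compHom N (algebraMap (Polynomial k) A)
  have _ : IsScalarTower (Polynomial k) A N := ⟨fun a b c => by
    rw [Algebra.smul_def, mul_smul]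
    rfl⟩
  have _ : IsScalarTower k (Polynomial k) N := ⟨fun a b c => by
    change algebraMap (Polynomial k) A (a • b) • c = a • (algebraMap (Polynomial k) A b • c)
    rw [← smul_assoc, Algebra.smul_def a b, map_mul, ← IsScalarTower.algebraMap_apply,
      ← Algebra.smul_def]⟩
  obtain ⟨D, hD⟩ := exists_derivation_of_formallyEtale (R := k) (S := Polynomial k) (T := A)
    (M := N) (Polynomial.mkDerivation k m)
  refine ⟨D, ?_⟩
  have h1 : algebraMap (Polynomial k) A Polynomial.X = x := by
    change Polynomial.aeval x Polynomial.X = x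
    simp
  rw [← h1, hD, Polynomial.mkDerivation_X]

include hx in
/-- Uniqueness. -/
theorem ddx_unique {N : Type*} [AddCommGroup N] [Module k N] [Module A N] [IsScalarTower k A N]
    (D D' : Derivation k A N) (h : D x = D' x) : D = D' := by
  let _ : Algebra (Polynomial k) A := (Polynomial.aeval x : Polynomial k →ₐ[k] A).toRingHom.toAlgebra
  have _ : IsScalarTower k (Polynomial k) A := IsScalarTower.of_algebraMap_eq' (by
    ext c
    change algebraMap k A c = Polynomial.aeval x (Polynomial.C c)
    simp)
  have _ : Algebra.Etale (Polynomial k) A := hx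
  let _ : Module (Polynomial k) N := Module.compHom N (algebraMap (Polynomial k) A)
  have _ : IsScalarTower (Polynomial k) A N := ⟨fun a b c => by
    rw [Algebra.smul_def, mul_smul]
    rfl⟩
  have _ : IsScalarTower k (Polynomial k) N := ⟨fun a b c => by
    change algebraMap (Polynomial k) A (a • b) • c = a • (algebraMap (Polynomial k) A b • c)
    rw [← smul_assoc, Algebra.smul_def a b, map_mul, ← IsScalarTower.algebraMap_apply,
      ← Algebra.smul_def]⟩
  apply derivation_ext_of_formallyUnramified (S := Polynomial k)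
  intro s
  have h1 : (D.compAlgebraMap (Polynomial k)) = (D'.compAlgebraMap (Polynomial k)) := by
    apply Polynomial.derivation_ext
    have h2 : algebraMap (Polynomial k) A Polynomial.X = x := by
      change Polynomial.aeval x Polynomial.X = x
      simp
    change D (algebraMap (Polynomial k) A Polynomial.X) =
      D' (algebraMap (Polynomial k) A Polynomial.X)
    rw [h2, h]
  exact congrArg (fun F : Derivation k (Polynomial k) N => F s) h1

end

section

variable {k A : Type} [Field k] [CommRing A] [Algebra k A] (x : A)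
  (hx : (Polynomial.aeval x : Polynomial k →ₐ[k] A).toRingHom.Etale)

include hx in
theorem trdeg_of_etale [IsDomain A] (K : Type) [Field K] [Algebra A K] [IsFractionRing A K]
    [Algebra k K] [IsScalarTower k A K] : Algebra.trdeg k K = 1 := by
  let _ : Algebra (Polynomial k) A := (Polynomial.aeval x : Polynomial k →ₐ[k] A).toRingHom.toAlgebra
  have _ : IsScalarTower k (Polynomial k) A := IsScalarTower.of_algebraMap_eq' (by
    ext c
    change algebraMap k A c = Polynomial.aeval x (Polynomial.C c)
    simp)
  have _ : Algebra.Etale (Polynomial k) A := hx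
  let _ : Algebra (Polynomial k) K := ((algebraMap A K).comp (algebraMap (Polynomial k) A)).toAlgebra
  have _ : IsScalarTower (Polynomial k) A K := IsScalarTower.of_algebraMap_eq' rfl
  have _ : IsScalarTower k (Polynomial k) K := IsScalarTower.of_algebraMap_eq' (by
    ext c
    rw [IsScalarTower.algebraMap_apply k A K, IsScalarTower.algebraMap_apply k (Polynomial k) A]
    rfl)
  have h1 : Algebra.IsAlgebraic (Polynomial k) A := isAlgebraic_of_etale _ _
  have h2 : FaithfulSMul (Polynomial k) A := faithful_of_etale _ _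
  have h4 : FaithfulSMul (Polynomial k) K := by
    rw [faithfulSMul_iff_algebraMap_injective]
    exact (IsFractionRing.injective A K).comp
      ((faithfulSMul_iff_algebraMap_injective _ _).mp h2)
  have h5 : Module.IsTorsionFree (Polynomial k) K := inferInstance
  have h3 : Algebra.IsAlgebraic (Polynomial k) K :=
    (IsFractionRing.isAlgebraic_iff' (Polynomial k) A K).mp h1
  rw [← trdeg_add_eq k (Polynomial k) (A := K), Polynomial.trdeg_of_isDomain,
    trdeg_eq_zero, add_zero]

include hx in
theorem integrallyClosed_of_etale_poly [IsDomain A] : IsIntegrallyClosed A := by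
  let _ : Algebra (Polynomial k) A := (Polynomial.aeval x : Polynomial k →ₐ[k] A).toRingHom.toAlgebra
  have _ : Algebra.Etale (Polynomial k) A := hx
  exact isIntegrallyClosed_of_etale (Polynomial k) A

end

end MG


end

section

/-!
# Local coordinates at a section: algebra
-/

open TensorProduct Algebra KaehlerDifferential
open scoped Polynomial

namespace Pool.Agent.MG.WL.LCEx

/-- Etale coordinates from a basis of the differentials. -/
theorem formallyEtale_of_basis {A S : Type} [CommRing A] [CommRing S] [Algebra A S] (t : S)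
    [Algebra A[X] S] [IsScalarTower A A[X] S] (ht : algebraMap A[X] S Polynomial.X = t)
    [Subsingleton (H1Cotangent A S)] {κ : Type} [Unique κ] (b : Module.Basis κ S Ω[S⁄A])
    (hb : b default = D A S t) : FormallyEtale A[X] S := by
  -- surjectivity and injectivity of the base change map
  have hX : ∀ x : Ω[A[X]⁄A], ∃ P : A[X], x = P • D A A[X] Polynomial.X := by
    intro x
    have h1 : Submodule.span A[X] {D A A[X] Polynomial.X} = ⊤ := by
      rw [_root_.eq_top_iff, ← span_range_derivation, Submodule.span_le]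
      rintro _ ⟨P, rfl⟩
      rw [SetLike.mem_coe, Submodule.mem_span_singleton]
      refine ⟨Polynomial.derivative P, ?_⟩
      have h2 : (D A A[X]) = (Polynomial.mkDerivation A (D A A[X] Polynomial.X)) := by
        apply Polynomial.derivation_ext
        rw [Polynomial.mkDerivation_X]
      conv_rhs => rw [h2]
      rw [Polynomial.mkDerivation_apply]
    have h2 : x ∈ Submodule.span A[X] {D A A[X] Polynomial.X} := h1 ▸ Submodule.mem_top
    obtain ⟨P, hP⟩ := Submodule.mem_span_singleton.1 h2
    exact ⟨P, hP.symm⟩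
  have hT : ∀ x : S ⊗[A[X]] Ω[A[X]⁄A], ∃ r : S, x = r ⊗ₜ D A A[X] Polynomial.X := by
    intro x
    induction x with
    | zero => exact ⟨0, (TensorProduct.zero_tmul _ _).symm⟩
    | tmul r y =>
      obtain ⟨P, rfl⟩ := hX y
      exact ⟨P • r, by rw [TensorProduct.tmul_smul, TensorProduct.smul_tmul']⟩
    | add x y hx hy =>
      obtain ⟨r, rfl⟩ := hx
      obtain ⟨r', rfl⟩ := hy
      exact ⟨r + r', by rw [TensorProduct.add_tmul]⟩
  have hmap : ∀ r : S, mapBaseChange A A[X] S (r ⊗ₜ D A A[X] Polynomial.X) = r • b default := by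
    intro r
    rw [mapBaseChange_tmul, map_D, ht, hb]
  have hinj : ∀ x, mapBaseChange A A[X] S x = 0 → x = 0 := by
    intro x hx
    obtain ⟨r, rfl⟩ := hT x
    rw [hmap] at hx
    have h1 : r = 0 := by
      have := congrArg (fun z => b.repr z default) hx
      simpa using this
    rw [h1, TensorProduct.zero_tmul]
  have hsurj : ∀ y, ∃ x, mapBaseChange A A[X] S x = y := by
    intro y
    refine ⟨(b.repr y default) ⊗ₜ D A A[X] Polynomial.X, ?_⟩
    rw [hmap]
    conv_rhs => rw [← b.sum_repr y]
    simp
  have hΩ : Subsingleton Ω[S⁄A[X]] := by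
    rw [subsingleton_iff_forall_eq 0]
    intro y
    obtain ⟨z, rfl⟩ := KaehlerDifferential.map_surjective A A[X] S y
    obtain ⟨x, rfl⟩ := hsurj z
    exact (exact_mapBaseChange_map A A[X] S _).2 ⟨x, rfl⟩
  have hH : Subsingleton (H1Cotangent A[X] S) := by
    rw [subsingleton_iff_forall_eq 0]
    intro y
    have h1 : H1Cotangent.δ A A[X] S y = 0 :=
      hinj _ ((H1Cotangent.exact_δ_mapBaseChange A A[X] S _).2 ⟨y, rfl⟩)
    obtain ⟨z, rfl⟩ := (H1Cotangent.exact_map_δ A A[X] S y).1 h1
    rw [Subsingleton.elim z 0, map_zero]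
  exact (formallyEtale_iff _ _).2 ⟨hΩ, hH⟩

section coord

variable {A R : Type} [CommRing A] [CommRing R] [Algebra A R] (s : R →ₐ[A] A) (q : Ideal R)
  [q.IsPrime]

/-- The differentials at a smooth point with a section have a basis consisting of differentials of
elements of the kernel. -/
theorem exists_basis [FinitePresentation A R] [IsSmoothAt A q] :
    ∃ (κ : Type) (a : κ → RingHom.ker s) (b : Module.Basis κ (Localization.AtPrime q)
      Ω[Localization.AtPrime q⁄A]), ∀ i, b i = D A (Localization.AtPrime q)
        (algebraMap R (Localization.AtPrime q) (a i)) := by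
  have h1 : EssFiniteType R (Localization.AtPrime q) := .of_isLocalization _ q.primeCompl
  have h2 : EssFiniteType A (Localization.AtPrime q) := .comp _ R _
  have h3 : Module.FinitePresentation (Localization.AtPrime q) Ω[Localization.AtPrime q⁄A] :=
    Module.finitePresentation_of_projective _ _
  apply Module.exists_basis_of_span_of_flat
    (fun i : RingHom.ker s => D A (Localization.AtPrime q)
      (algebraMap R (Localization.AtPrime q) (i : R)))
  rw [_root_.eq_top_iff, ← span_range_map_derivation_of_isLocalization A R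
    (Localization.AtPrime q) q.primeCompl, Submodule.span_le]
  rintro _ ⟨r, rfl⟩
  apply Submodule.subset_span
  refine ⟨⟨r - algebraMap A R (s r), ?_⟩, ?_⟩
  · rw [RingHom.mem_ker, map_sub]
    exact sub_eq_zero.2 (s.commutes (s r)).symm
  · show D A (Localization.AtPrime q) (algebraMap R (Localization.AtPrime q)
      (r - algebraMap A R (s r))) = map A A R (Localization.AtPrime q) (D A R r)
    rw [map_sub, map_sub, ← IsScalarTower.algebraMap_apply, Derivation.map_algebraMap, sub_zero,
      map_D]

/-- The coordinate generates the kernel locally. -/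
theorem exists_mul_mem [FinitePresentation A R] (t : R) (ht : s t = 0) (hq : RingHom.ker s ≤ q)
    (hΩ : ∀ ω : Ω[Localization.AtPrime q⁄A], ∃ c : Localization.AtPrime q,
      ω = c • D A (Localization.AtPrime q) (algebraMap R (Localization.AtPrime q) t)) :
    ∃ g ∉ q, ∀ r, s r = 0 → ∃ u, g * r = t * u := by
  have hs : Function.Surjective s := fun a => ⟨algebraMap A R a, s.commutes a⟩
  have hfg : (RingHom.ker s).FG := FinitePresentation.ker_fG_of_surjective s hs
  let I : Ideal R := RingHom.ker s
  let J : Ideal R := Ideal.span {t} ⊔ I * I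
  let L := Localization.AtPrime q
  have hmul : ∀ x y : R, x ∈ I → y ∈ I → x * y ∈ J := fun x y hx hy =>
    Ideal.mem_sup_right (Ideal.mul_mem_mul hx hy)
  have hsub : ∀ r : R, r - algebraMap A R (s r) ∈ I := by
    intro r
    rw [RingHom.mem_ker, map_sub]
    exact sub_eq_zero.2 (s.commutes (s r)).symm
  let JL : Ideal L := J.map (algebraMap R L)
  have hmkR : ∀ (x : R) (z : L), x • (Ideal.Quotient.mk JL z) =
      Ideal.Quotient.mk JL (algebraMap R L x * z) := by
    intro x z
    rw [← Algebra.smul_def]
    rfl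
  have hmkA : ∀ (x : A) (z : L), x • (Ideal.Quotient.mk JL z) =
      Ideal.Quotient.mk JL (algebraMap A L x * z) := by
    intro x z
    rw [← Algebra.smul_def]
    rfl
  let mk : R →ₗ[A] L ⧸ JL :=
    { toFun := fun r => Ideal.Quotient.mk JL (algebraMap R L (r - algebraMap A R (s r)))
      map_add' := fun x y => by
        rw [← map_add, ← map_add]
        congr 2
        rw [map_add, map_add]
        ring
      map_smul' := fun a x => by
        rw [RingHom.id_apply, hmkA, IsScalarTower.algebraMap_apply A R L, ← map_mul,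
          Algebra.smul_def, map_mul, AlgHom.commutes, Algebra.algebraMap_self, RingHom.id_apply,
          map_mul, mul_sub] }
  have hJL : ∀ x ∈ J, Ideal.Quotient.mk JL (algebraMap R L x) = 0 := fun x hx =>
    Ideal.Quotient.eq_zero_iff_mem.2 (Ideal.mem_map_of_mem _ hx)
  let δ : Derivation A R (L ⧸ JL) :=
    Derivation.mk' mk (fun x y => by
      have h1 := hJL _ (hmul _ _ (hsub x) (hsub y))
      have h2 : x * y - algebraMap A R (s (x * y)) =
          x * (y - algebraMap A R (s y)) + y * (x - algebraMap A R (s x)) -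
            (x - algebraMap A R (s x)) * (y - algebraMap A R (s y)) := by
        rw [map_mul, map_mul]
        ring
      show Ideal.Quotient.mk JL (algebraMap R L (x * y - algebraMap A R (s (x * y)))) =
        x • Ideal.Quotient.mk JL (algebraMap R L (y - algebraMap A R (s y))) +
          y • Ideal.Quotient.mk JL (algebraMap R L (x - algebraMap A R (s x)))
      rw [h2, map_sub, map_sub, h1, sub_zero, map_add, map_add, hmkR, hmkR, ← map_mul,
        ← map_mul])
  have hδ : ∀ x, s x = 0 → δ x = Ideal.Quotient.mk JL (algebraMap R L x) := by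
    intro x hx
    show Ideal.Quotient.mk JL (algebraMap R L (x - algebraMap A R (s x))) = _
    rw [hx, map_zero, sub_zero]
  have he : FormallyEtale R L := .of_isLocalization q.primeCompl
  obtain ⟨E, hE⟩ := _root_.MG.exists_derivation_of_formallyEtale (R := A) (S := R) (T := L) δ
  have hEt : E (algebraMap R L t) = 0 := by
    rw [hE, hδ t ht]
    exact hJL _ (Ideal.mem_sup_left (Ideal.mem_span_singleton_self t))
  have hE0 : ∀ x, E x = 0 := by
    intro x
    obtain ⟨c, hc⟩ := hΩ (D A L x)
    rw [← E.liftKaehlerDifferential_comp_D x, hc, map_smul, E.liftKaehlerDifferential_comp_D, hEt,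
      smul_zero]
  have hle : I.map (algebraMap R L) ≤ Ideal.span {algebraMap R L t} ⊔
      I.map (algebraMap R L) • I.map (algebraMap R L) := by
    rw [Ideal.map_le_iff_le_comap]
    intro x hx
    have h1 : algebraMap R L x ∈ JL := by
      rw [← Ideal.Quotient.eq_zero_iff_mem, ← hδ x hx, ← hE, hE0]
    have h2 : JL = Ideal.span {algebraMap R L t} ⊔
        I.map (algebraMap R L) • I.map (algebraMap R L) := by
      show (Ideal.span {t} ⊔ I * I).map (algebraMap R L) = _
      rw [Ideal.map_sup, Ideal.map_span, Set.image_singleton, Ideal.map_mul, smul_eq_mul]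
    rw [Ideal.mem_comap, ← h2]
    exact h1
  have hjac : I.map (algebraMap R L) ≤ Ideal.jacobson ⊥ := by
    rw [IsLocalRing.jacobson_eq_maximalIdeal ⊥ bot_ne_top, Ideal.map_le_iff_le_comap]
    intro x hx
    rw [Ideal.mem_comap]
    exact (IsLocalization.AtPrime.to_map_mem_maximal_iff L q x).2 (hq hx)
  have hNak : I.map (algebraMap R L) ≤ Ideal.span {algebraMap R L t} :=
    Submodule.le_of_le_smul_of_le_jacobson_bot (hfg.map _) hjac hle
  have hx : ∀ x ∈ I, ∃ w ∉ q, t ∣ w * x := by
    intro x hx
    have h1 := hNak (Ideal.mem_map_of_mem (algebraMap R L) hx)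
    obtain ⟨c, hc⟩ := Ideal.mem_span_singleton'.1 h1
    obtain ⟨⟨u, w⟩, hu⟩ := IsLocalization.surj q.primeCompl c
    have h2 : algebraMap R L (w * x) = algebraMap R L (u * t) := by
      rw [map_mul, map_mul, ← hc, ← hu]
      ring
    obtain ⟨v, hv⟩ := (IsLocalization.eq_iff_exists q.primeCompl L).1 h2
    refine ⟨v * w, q.primeCompl.mul_mem v.2 w.2, ⟨v * u, ?_⟩⟩
    rw [mul_assoc, hv]
    ring
  obtain ⟨S, hS⟩ := hfg
  classical
  have hS' : ∀ x, x ∈ Ideal.span (S : Set R) → x ∈ I := fun x h => hS.le h
  have hx' : ∀ x : S, ∃ w ∉ q, t ∣ w * x := fun x => hx x (hS' _ (Ideal.subset_span x.2))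
  choose w hw hdvd using hx'
  refine ⟨∏ x, w x, fun h => ?_, fun r hr => ?_⟩
  · rw [Ideal.IsPrime.prod_mem_iff] at h
    obtain ⟨x, -, h⟩ := h
    exact hw x h
  · have h1 : r ∈ Ideal.span (S : Set R) := by
      rw [hS]
      exact hr
    suffices h : t ∣ (∏ x, w x) * r from h
    clear hr
    induction h1 using Submodule.span_induction with
    | mem x hx =>
      obtain ⟨u, hu⟩ := hdvd ⟨x, hx⟩
      rw [← Finset.mul_prod_erase Finset.univ w (Finset.mem_univ ⟨x, hx⟩)]
      refine ⟨u * (Finset.univ.erase ⟨x, hx⟩).prod w, ?_⟩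
      rw [mul_right_comm, hu]
      ring
    | zero => rw [mul_zero]; exact dvd_zero _
    | add x y hx hy h1 h2 =>
      rw [mul_add]
      exact dvd_add h1 h2
    | smul a x hx h1 =>
      rw [smul_eq_mul, mul_left_comm]
      exact Dvd.dvd.mul_left h1 a

/-- Etale coordinates at the section. -/
theorem exists_coord [FinitePresentation A R] [IsSmoothAt A q] (hq : RingHom.ker s ≤ q)
    (hr : ∀ (κ : Type) (_ : Module.Basis κ (Localization.AtPrime q)
      Ω[Localization.AtPrime q⁄A]), Nonempty (Unique κ)) :
    ∃ t g : R, s t = 0 ∧ g ∉ q ∧ (∀ r, s r = 0 → ∃ u, g * r = t * u) ∧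
      ((algebraMap R (Localization.Away g)).comp
        (Polynomial.aeval t : A[X] →ₐ[A] R).toRingHom).Flat := by
  obtain ⟨κ, a, b, hb⟩ := exists_basis s q
  obtain ⟨hu⟩ := hr κ b
  let t : R := a default
  have ht : s t = 0 := (a default).2
  let _ : Algebra A[X] R := (Polynomial.aeval t : A[X] →ₐ[A] R).toRingHom.toAlgebra
  have hst : IsScalarTower A A[X] R := .of_algebraMap_eq fun x => by
    rw [RingHom.algebraMap_toAlgebra]
    exact ((Polynomial.aeval t : A[X] →ₐ[A] R).commutes x).symm
  have hX : algebraMap A[X] R Polynomial.X = t := Polynomial.aeval_X t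
  have h1 : IsEtaleAt A[X] q := by
    refine formallyEtale_of_basis (algebraMap R (Localization.AtPrime q) t) ?_ b (hb default)
    rw [IsScalarTower.algebraMap_apply A[X] R (Localization.AtPrime q), hX]
  have hfp : FinitePresentation A[X] R := .of_restrict_scalars_finitePresentation A A[X] R
  obtain ⟨g1, hg1, hg1'⟩ := exists_etale_of_isEtaleAt (R := A[X]) q
  obtain ⟨g2, hg2, hg2'⟩ := exists_mul_mem s q t ht hq (fun ω => by
    refine ⟨b.repr ω default, ?_⟩
    rw [← hb default]
    conv_lhs => rw [← b.sum_repr ω]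
    simp)
  refine ⟨t, g1 * g2, ht, q.primeCompl.mul_mem hg1 hg2, fun r hr => ?_, ?_⟩
  · obtain ⟨u, hu⟩ := hg2' r hr
    exact ⟨g1 * u, by rw [mul_assoc, hu]; ring⟩
  · have h2 : (PrimeSpectrum.basicOpen (g1 * g2) : Set (PrimeSpectrum R)) ⊆
        etaleLocus A[X] R := by
      refine subset_trans ?_ (basicOpen_subset_etaleLocus_iff_etale.2 hg1')
      exact PrimeSpectrum.basicOpen_mul_le_left g1 g2
    have h3 : Etale A[X] (Localization.Away (g1 * g2)) := basicOpen_subset_etaleLocus_iff_etale.1 h2
    have h4 : (algebraMap A[X] (Localization.Away (g1 * g2))).Flat :=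
      RingHom.flat_algebraMap_iff.2 inferInstance
    exact h4

attribute [local instance] Algebra.TensorProduct.rightAlgebra in
/-- The rank of the differentials can be computed on a geometric fibre. -/
theorem unique_of_relDim (k : Type) [Field k] [Algebra A k] (g : R) (hg : g ∉ q)
    (S : Type) [CommRing S] [Algebra R S] [Algebra A S] [IsScalarTower A R S]
    [IsLocalization.Away g S] [hss : IsStandardSmooth A S]
    (T' : Type) [CommRing T'] [Algebra k T'] [Nontrivial T']
    [IsStandardSmoothOfRelativeDimension 1 k T'] (e : T' ≃ₐ[k] k ⊗[A] S)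
    (κ : Type) (b : Module.Basis κ (Localization.AtPrime q) Ω[Localization.AtPrime q⁄A]) :
    Nonempty (Unique κ) := by
  let T := k ⊗[A] S
  have hnt : Nontrivial T := e.symm.toEquiv.nontrivial
  have hrd : IsStandardSmoothOfRelativeDimension 1 k T := .of_algEquiv 1 e
  let L := Localization.AtPrime q
  obtain ⟨-, I, c, -⟩ := IsStandardSmooth.iff_exists_basis_kaehlerDifferential.mp hss
  let c1 : Module.Basis I T (T ⊗[S] Ω[S⁄A]) := c.baseChange T
  let c2 : Module.Basis I T Ω[T⁄k] := c1.map (tensorKaehlerEquiv A k S T)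
  have hrk := IsStandardSmoothOfRelativeDimension.rank_kaehlerDifferential (R := k) (S := T) 1
  have hI : Cardinal.mk I = 1 := by
    rw [c2.mk_eq_rank'', hrk, Nat.cast_one]
  obtain ⟨hI1, hI2⟩ := Cardinal.eq_one_iff_unique.1 hI
  -- the map to the local ring
  have hunit : ∀ y : Submonoid.powers g, IsUnit (algebraMap R L y) := by
    rintro ⟨_, n, rfl⟩
    rw [map_pow]
    exact (IsLocalization.map_units L (⟨g, hg⟩ : q.primeCompl)).pow n
  let _ : Algebra S L := (IsLocalization.lift (M := Submonoid.powers g) hunit).toAlgebra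
  have h1 : IsScalarTower R S L := .of_algebraMap_eq fun x => by
    rw [RingHom.algebraMap_toAlgebra, IsLocalization.lift_eq]
  have h2 : IsScalarTower A S L := .of_algebraMap_eq fun x => by
    rw [IsScalarTower.algebraMap_apply A R L, IsScalarTower.algebraMap_apply R S L,
      ← IsScalarTower.algebraMap_apply A R S]
  have h3 : FormallyEtale R L := .of_isLocalization q.primeCompl
  have h4 : FormallyEtale R S := .of_isLocalization (Submonoid.powers g)
  have h5 : FormallyEtale S L := .of_restrictScalars (R := R) (A := S) (B := L)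
  let c3 : Module.Basis I L (L ⊗[S] Ω[S⁄A]) := c.baseChange L
  let c4 : Module.Basis I L Ω[L⁄A] := c3.map (tensorKaehlerEquivOfFormallyEtale A S L)
  let e : κ ≃ I := b.indexEquiv c4
  obtain ⟨i⟩ := hI2
  refine ⟨⟨⟨e.symm i⟩, fun a => ?_⟩⟩
  apply e.injective
  exact Subsingleton.elim _ _

end coord

section fibre

variable {A R : Type} [CommRing A] [CommRing R] [Algebra A R] (s : R →ₐ[A] A)

/-- The value at the section of a function on a base change. -/
noncomputable def ev (k : Type) [CommRing k] [Algebra A k] : k ⊗[A] R →ₐ[k] k :=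
  Algebra.TensorProduct.lift (AlgHom.id k k) ((Algebra.ofId A k).comp s)
    (fun _ _ => Commute.all _ _)

theorem ev_tmul (k : Type) [CommRing k] [Algebra A k] (x : k) (r : R) :
    ev s k (x ⊗ₜ r) = x * algebraMap A k (s r) :=
  Algebra.TensorProduct.lift_tmul _ _ _ _ _

/-- The kernel of the value is generated by the kernel of the section. -/
theorem mem_of_ev (k : Type) [CommRing k] [Algebra A k] (J : Ideal (k ⊗[A] R))
    (hJ : ∀ r, s r = 0 → (1 : k) ⊗ₜ[A] r ∈ J) (x : k ⊗[A] R) : x - ev s k x ⊗ₜ 1 ∈ J := by
  induction x with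
  | zero => rw [map_zero, TensorProduct.zero_tmul, sub_zero]; exact J.zero_mem
  | tmul a r =>
    have h1 : a ⊗ₜ[A] r - ev s k (a ⊗ₜ r) ⊗ₜ 1 =
        (a ⊗ₜ[A] 1) * ((1 : k) ⊗ₜ[A] (r - algebraMap A R (s r))) := by
      rw [ev_tmul, Algebra.TensorProduct.tmul_mul_tmul, mul_one, one_mul, TensorProduct.tmul_sub,
        Algebra.algebraMap_eq_smul_one (A := R), TensorProduct.tmul_smul, TensorProduct.smul_tmul',
        Algebra.smul_def, mul_comm a]
    rw [h1]
    refine J.mul_mem_left _ (hJ _ ?_)
    rw [map_sub]
    exact sub_eq_zero.2 (s.commutes (s r)).symm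
  | add x y hx hy =>
    rw [map_add, TensorProduct.add_tmul]
    have h1 : x + y - (ev s k x ⊗ₜ[A] 1 + ev s k y ⊗ₜ[A] 1) =
        (x - ev s k x ⊗ₜ[A] 1) + (y - ev s k y ⊗ₜ[A] 1) := by ring
    rw [h1]
    exact J.add_mem hx hy

theorem isSmoothAt (p : Ideal A) [p.IsPrime] (q : Ideal R) [q.IsPrime] (hqp : q = p.comap s)
    (k : Type) [Field k] [Algebra A k] [Algebra p.ResidueField k]
    [IsScalarTower A p.ResidueField k] [Algebra.IsAlgebraic p.ResidueField k]
    [FinitePresentation A R] [Module.Flat A R] (h : k ⊗[A] R) (hh : ev s k h ≠ 0)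
    (hs : Smooth k (Localization.Away h)) : IsSmoothAt A q := by
  let K := p.ResidueField
  let B := K ⊗[A] R
  let T := k ⊗[A] R
  let e : k ⊗[K] B ≃ₐ[k] T := Algebra.TensorProduct.cancelBaseChange A K k k R
  let j : B →+* T := (e : k ⊗[K] B →+* T).comp
    (Algebra.TensorProduct.includeRight : B →ₐ[K] k ⊗[K] B).toRingHom
  have hj : ∀ (x : K) (r : R), j (x ⊗ₜ r) = algebraMap K k x ⊗ₜ r := by
    intro x r
    show e (1 ⊗ₜ (x ⊗ₜ r)) = _
    rw [Algebra.TensorProduct.cancelBaseChange_tmul, Algebra.smul_def, mul_one]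
  have hint : j.IsIntegral := by
    let e2 : B ⊗[K] k ≃ₐ[K] k ⊗[K] B := Algebra.TensorProduct.comm K B k
    have h1 : j = ((e : k ⊗[K] B →+* T).comp (e2 : B ⊗[K] k →+* k ⊗[K] B)).comp
        (algebraMap B (B ⊗[K] k)) := by
      refine RingHom.ext fun x => ?_
      show e (1 ⊗ₜ x) = e (e2 (x ⊗ₜ 1))
      rw [Algebra.TensorProduct.comm_tmul]
    rw [h1]
    refine RingHom.IsIntegral.trans _ _ ?_ ?_
    · exact algebraMap_isIntegral_iff.2 inferInstance
    · apply RingHom.isIntegral_of_surjective
      exact e.surjective.comp e2.surjective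
  -- the point of the section in the fibre
  let evB : B →ₐ[K] K := ev s K
  let q0 : PrimeSpectrum B := ⟨RingHom.ker evB, RingHom.ker_isPrime _⟩
  let Z : Set (PrimeSpectrum B) := PrimeSpectrum.comap j '' PrimeSpectrum.zeroLocus {h}
  have hZ : IsClosed Z := PrimeSpectrum.isClosedMap_comap_of_isIntegral j hint _
    (PrimeSpectrum.isClosed_zeroLocus _)
  have hq0 : q0 ∉ Z := by
    rintro ⟨P, hP, hP'⟩
    have h1 : h ∈ P.asIdeal := hP rfl
    have h2 := mem_of_ev s k P.asIdeal (fun r hr => by
      have h3 : (1 : K) ⊗ₜ[A] r ∈ q0.asIdeal := by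
        show evB (1 ⊗ₜ r) = 0
        rw [ev_tmul, hr, map_zero, mul_zero]
      rw [← hP'] at h3
      have h4 : j (1 ⊗ₜ r) ∈ P.asIdeal := h3
      rw [hj, map_one] at h4
      exact h4) h
    have h3 : ev s k h ⊗ₜ[A] (1 : R) ∈ P.asIdeal := by
      have h4 := P.asIdeal.sub_mem h1 h2
      rwa [sub_sub_cancel] at h4
    apply P.isPrime.ne_top
    rw [Ideal.eq_top_iff_one]
    have h4 := P.asIdeal.mul_mem_left ((ev s k h)⁻¹ ⊗ₜ[A] (1 : R)) h3
    rwa [Algebra.TensorProduct.tmul_mul_tmul, inv_mul_cancel₀ hh, mul_one] at h4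
  obtain ⟨_, ⟨_, ⟨b, rfl⟩, rfl⟩, hb, hbZ⟩ :=
    PrimeSpectrum.isBasis_basic_opens.exists_subset_of_mem_open
      (show q0 ∈ Zᶜ from hq0) hZ.isOpen_compl
  obtain ⟨r, hr, c, hc⟩ := Ideal.Fiber.exists_smul_eq_one_tmul p b
  have hcq : c ∉ q := by
    intro h1
    rw [hqp, Ideal.mem_comap] at h1
    have h2 : evB (r • b) = 0 := by
      rw [hc, ev_tmul, one_mul]
      exact (Ideal.algebraMap_residueField_eq_zero).2 h1
    rw [Algebra.smul_def, map_mul] at h2
    have h3 : evB (algebraMap A B r) = algebraMap A K r := by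
      rw [IsScalarTower.algebraMap_apply A K B, AlgHom.commutes]
      rfl
    rcases mul_eq_zero.1 h2 with h4 | h4
    · rw [h3] at h4
      exact hr (Ideal.algebraMap_residueField_eq_zero.1 h4)
    · exact hb h4
  -- the geometric fibre of the localisation is smooth
  have hD : (PrimeSpectrum.basicOpen ((1 : k) ⊗ₜ[A] c) : Set (PrimeSpectrum T)) ⊆
      smoothLocus k T := by
    refine subset_trans (fun P hP => ?_) (basicOpen_subset_smoothLocus_iff_smooth.2 hs)
    intro h1
    apply hP
    have h2 : PrimeSpectrum.comap j P ∈ Z := ⟨P, by rintro _ rfl; exact h1, rfl⟩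
    have h3 : b ∈ (PrimeSpectrum.comap j P).asIdeal := by
      by_contra h3
      exact hbZ h3 h2
    have h4 : r • b ∈ (PrimeSpectrum.comap j P).asIdeal := by
      rw [Algebra.smul_def]
      exact Ideal.mul_mem_left _ _ h3
    rw [hc] at h4
    have h5 : j (1 ⊗ₜ c) ∈ P.asIdeal := h4
    rwa [hj, map_one] at h5
  have hsm : Smooth k (Localization.Away ((1 : k) ⊗ₜ[A] c)) :=
    basicOpen_subset_smoothLocus_iff_smooth.1 hD
  let Rc := Localization.Away c
  have hsm2 : Smooth k (k ⊗[A] Rc) :=
    .of_equiv (IsLocalization.Away.tensorProductEquivTMulRight A k c Rc).symm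
  have hsm3 : Smooth k (k ⊗[K] (K ⊗[A] Rc)) :=
    .of_equiv (Algebra.TensorProduct.cancelBaseChange A K k k Rc).symm
  have hsm4 : Smooth K (K ⊗[A] Rc) := .of_smooth_tensorProduct_of_faithfullyFlat k
  have hsm5 : FormallySmooth p.ResidueField (p.Fiber Rc) := hsm4.formallySmooth
  -- back to the local ring
  have hfl : Module.Flat A Rc := .trans A R Rc
  have hfp : FinitePresentation A Rc := .trans A R Rc
  have hdis : Disjoint (Submonoid.powers c : Set R) q :=
    (Ideal.disjoint_powers_iff_notMem_of_isPrime c).2 hcq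
  have hpr : (q.map (algebraMap R Rc)).IsPrime :=
    IsLocalization.isPrime_of_isPrime_disjoint (.powers c) _ _ ‹_› hdis
  have hcm : (q.map (algebraMap R Rc)).comap (algebraMap R Rc) = q :=
    IsLocalization.under_map_of_isPrime_disjoint (.powers c) _ ‹_› hdis
  have hlo : (q.map (algebraMap R Rc)).LiesOver p := ⟨by
    rw [Ideal.under_def, IsScalarTower.algebraMap_eq A R Rc, ← Ideal.comap_comap, hcm, hqp]
    ext a
    rw [Ideal.mem_comap, Ideal.mem_comap, AlgHom.commutes]
    rfl⟩
  have h1 : IsSmoothAt A (q.map (algebraMap R Rc)) := .of_formallySmooth_fiber p _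
  have h2 : (⟨q.map (algebraMap R Rc), hpr⟩ : PrimeSpectrum Rc) ∈ smoothLocus A Rc := h1
  rw [← smoothLocus_comap_of_isLocalization c] at h2
  have h3 : PrimeSpectrum.comap (algebraMap R Rc) ⟨q.map (algebraMap R Rc), hpr⟩ =
      ⟨q, ‹_›⟩ := PrimeSpectrum.ext hcm
  have h4 : PrimeSpectrum.comap (algebraMap R Rc) ⟨q.map (algebraMap R Rc), hpr⟩ ∈
    smoothLocus A R := h2
  rw [h3] at h4
  exact h4

end fibre

attribute [local instance] Polynomial.algebra Polynomial.isLocalization in
/-- Flatness over the affine line over a localisation. -/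
theorem flat_of_localization {A A' M : Type} [CommRing A] [CommRing A'] [CommRing M]
    [Algebra A A'] (S : Submonoid A) [IsLocalization S A'] (c : A' →+* M) (t : M)
    (h : (Polynomial.eval₂RingHom (c.comp (algebraMap A A')) t).Flat) :
    (Polynomial.eval₂RingHom c t).Flat := by
  let _ : Algebra A'[X] M := (Polynomial.eval₂RingHom c t).toAlgebra
  let _ : Algebra A[X] M := (Polynomial.eval₂RingHom (c.comp (algebraMap A A')) t).toAlgebra
  have hst : IsScalarTower A[X] A'[X] M := .of_algebraMap_eq' (by
    apply Polynomial.ringHom_ext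
    · intro a
      simp [RingHom.algebraMap_toAlgebra]
    · simp [RingHom.algebraMap_toAlgebra])
  exact (Module.flat_iff_of_isLocalization A'[X] (S.map Polynomial.C) M).2 h

end Pool.Agent.MG.WL.LCEx


end

section

/-!
# Derivations and the conormal sequence
-/

open TensorProduct

namespace Pool.Agent.MG.H2

/-- `δ` is a derivation over `B` along `r : R → R'`. -/
structure DerA {B R R' : Type} [CommRing B] [CommRing R] [CommRing R'] (c : B →+* R)
    (r : R →+* R') (δ : R → R') : Prop where
  add : ∀ a b, δ (a + b) = δ a + δ b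
  mul : ∀ a b, δ (a * b) = r a * δ b + r b * δ a
  const : ∀ b, δ (c b) = 0

namespace DerA

variable {B R R' : Type} [CommRing B] [CommRing R] [CommRing R'] {c : B →+* R}
  {r : R →+* R'} {δ : R → R'}

theorem zero (h : DerA c r δ) : δ 0 = 0 := by
  have := h.add 0 0
  rw [add_zero] at this
  exact (left_eq_add.1 this)

theorem sum (h : DerA c r δ) {ι : Type} (s : Finset ι) (f : ι → R) :
    δ (∑ i ∈ s, f i) = ∑ i ∈ s, δ (f i) := by
  classical
  induction s using Finset.induction_on with
  | empty => simp [h.zero]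
  | insert a s ha ih => rw [Finset.sum_insert ha, Finset.sum_insert ha, h.add, ih]

theorem neg (h : DerA c r δ) (a : R) : δ (-a) = -δ a := by
  have := h.add a (-a)
  rw [add_neg_cancel, h.zero] at this
  linear_combination -this

theorem sub (h : DerA c r δ) (a b : R) : δ (a - b) = δ a - δ b := by
  rw [sub_eq_add_neg, h.add, h.neg, sub_eq_add_neg]

theorem one (h : DerA c r δ) : δ 1 = 0 := by
  have := h.const 1
  rwa [map_one] at this

end DerA

section kex

variable {B G R : Type} [CommRing B] [CommRing G] [CommRing R] (c : B →+* G) (q : G →+* R)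
  {J : Type} [Fintype J] (ε : J → G)

/-- The kernel of `Ω[G/B] ⊗ R → Ω[R/B]` is generated by the `d ε j`. -/
theorem kex (hq : Function.Surjective q) (h0 : ∀ j, q (ε j) = 0)
    (hε : ∀ v, q v = 0 → ∃ w : J → G, v = ∑ j, ε j * w j)
    {α α' : Type} [Fintype α] [Fintype α'] (P : α → R) (L : α → G) (P' : α' → R) (L' : α' → G)
    (H : ∀ (R' : Type) [CommRing R'] (r : R →+* R') (δ : R → R'), DerA (q.comp c) r δ →
      ∑ a, r (P a) * δ (q (L a)) = ∑ a, r (P' a) * δ (q (L' a))) :
    ∃ z : J → R, ∀ (R' : Type) [CommRing R'] (r : R →+* R') (D : G → R'),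
      DerA c (r.comp q) D →
      ∑ a, r (P a) * D (L a) = ∑ a, r (P' a) * D (L' a) + ∑ j, r (z j) * D (ε j) := by
  letI : Algebra B G := c.toAlgebra
  letI : Algebra G R := q.toAlgebra
  letI : Algebra B R := (q.comp c).toAlgebra
  haveI : IsScalarTower B G R := IsScalarTower.of_algebraMap_eq fun _ => rfl
  have hs : Function.Surjective (algebraMap G R) := hq
  let ξ : R ⊗[G] Ω[G⁄B] := ∑ a, P a ⊗ₜ KaehlerDifferential.D B G (L a) -
    ∑ a, P' a ⊗ₜ KaehlerDifferential.D B G (L' a)
  have hξ : KaehlerDifferential.mapBaseChange B G R ξ = 0 := by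
    simp only [ξ, map_sub, map_sum, KaehlerDifferential.mapBaseChange_tmul,
      KaehlerDifferential.map_D]
    letI : Module Rᵐᵒᵖ Ω[R⁄B] := Module.compHom _ ((RingHom.id R).fromOpposite mul_comm)
    haveI : IsCentralScalar R Ω[R⁄B] := ⟨fun _ _ => rfl⟩
    have h1 := H (TrivSqZeroExt R Ω[R⁄B]) (TrivSqZeroExt.inlHom R _)
      (fun a => TrivSqZeroExt.inr (KaehlerDifferential.D B R a))
      { add := fun a b => by simp
        mul := fun a b => by
          ext
          · simp
          · simp [TrivSqZeroExt.snd_mul]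
        const := fun b => by
          have : KaehlerDifferential.D B R ((q.comp c) b) = 0 :=
            (KaehlerDifferential.D B R).map_algebraMap b
          simp only [this]
          simp }
    have h2 := congrArg TrivSqZeroExt.snd h1
    simp only [TrivSqZeroExt.snd_sum] at h2
    have h3 : ∀ (x y : R), TrivSqZeroExt.snd ((TrivSqZeroExt.inlHom R Ω[R⁄B]) x *
        TrivSqZeroExt.inr (KaehlerDifferential.D B R y)) = x • KaehlerDifferential.D B R y := by
      intro x y
      simp [TrivSqZeroExt.snd_mul]
    simp only [h3] at h2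
    rw [sub_eq_zero]
    exact h2
  have hex := (KaehlerDifferential.exact_kerCotangentToTensor_mapBaseChange B G R hs ξ).1 hξ
  obtain ⟨η, hη⟩ := hex
  obtain ⟨v, rfl⟩ := Ideal.toCotangent_surjective _ η
  rw [KaehlerDifferential.kerCotangentToTensor_toCotangent] at hη
  obtain ⟨w, hw⟩ := hε v.1 v.2
  refine ⟨fun j => q (w j), ?_⟩
  intro R' _ r D hD
  letI mG : Module G R' := Module.compHom R' (r.comp q)
  have hsm : ∀ (g : G) (a : R'), g • a = r (q g) * a := fun _ _ => rfl
  letI mR : Module R R' := Module.compHom R' r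
  have hsr : ∀ (g : R) (a : R'), g • a = r g * a := fun _ _ => rfl
  letI mB : Module B R' := Module.compHom R' ((r.comp q).comp c)
  have hsB : ∀ (g : B) (a : R'), g • a = r (q (c g)) * a := fun _ _ => rfl
  haveI : IsScalarTower B G R' := ⟨fun b g a => by
    rw [hsm, hsB, hsm]
    have : b • g = c b * g := Algebra.smul_def b g
    rw [this, map_mul, map_mul, mul_assoc]⟩
  let D' : Derivation B G R' := Derivation.mk'
    { toFun := D
      map_add' := hD.add
      map_smul' := fun b g => by
        have : b • g = c b * g := Algebra.smul_def b g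
        rw [this, hD.mul, hD.const, mul_zero, add_zero]
        rfl } (fun a b => hD.mul a b)
  let Λ : Ω[G⁄B] →ₗ[G] R' := D'.liftKaehlerDifferential
  have hΛ : ∀ g, Λ (KaehlerDifferential.D B G g) = D g := fun g =>
    Derivation.liftKaehlerDifferential_comp_D D' g
  let Ψ : R ⊗[G] Ω[G⁄B] →+ R' := TensorProduct.liftAddHom
    (AddMonoidHom.mk' (fun a => AddMonoidHom.mk' (fun ω => r a * Λ ω) (fun x y => by
      rw [map_add, mul_add])) (fun x y => by
      ext ω
      simp [add_mul])) (fun g a ω => by
      have h1 : g • a = q g * a := Algebra.smul_def g a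
      simp only [AddMonoidHom.mk'_apply, map_smul, hsm, h1, map_mul]
      ring)
  have hΨ : ∀ a g, Ψ (a ⊗ₜ KaehlerDifferential.D B G g) = r a * D g := by
    intro a g
    change r a * Λ _ = _
    rw [hΛ]
  have h1 : Ψ ξ = ∑ a, r (P a) * D (L a) - ∑ a, r (P' a) * D (L' a) := by
    simp only [ξ, map_sub, map_sum, hΨ]
  have h2 : Ψ ξ = ∑ j, r (q (w j)) * D (ε j) := by
    rw [← hη, hΨ, map_one, one_mul, hw, hD.sum]
    refine Finset.sum_congr rfl fun j _ => ?_
    rw [hD.mul, RingHom.comp_apply, RingHom.comp_apply, h0, map_zero, zero_mul, zero_add]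
  rw [h1] at h2
  linear_combination h2

end kex

end Pool.Agent.MG.H2


end

section

/-!
# Derivations of square zero extensions of formally smooth rings
-/

namespace Pool.Agent.MG.H2

section dex

variable {B G R : Type} [CommRing B] [CommRing G] [CommRing R] (c : B →+* G) (q : G →+* R)
  {J : Type} [Fintype J] (ε : J → G)

/-- Derivations with given values on the `ε j` exist if `R` is formally smooth over `B`. -/
theorem dex (hq : Function.Surjective q) (h0 : ∀ j, q (ε j) = 0) (hm : ∀ i j, ε i * ε j = 0)
    (hε : ∀ v, q v = 0 → ∃ w : J → G, v = ∑ j, ε j * w j)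
    (hu : ∀ w : J → G, ∑ j, ε j * w j = 0 → ∀ j, q (w j) = 0)
    (hs : (q.comp c).FormallySmooth) :
    ∃ δ : J → G → R, (∀ j, DerA c q (δ j)) ∧ (∀ j, δ j (ε j) = 1) ∧
      ∀ i j, i ≠ j → δ j (ε i) = 0 := by
  classical
  let _ : Algebra B G := c.toAlgebra
  let _ : Algebra G R := q.toAlgebra
  let _ : Algebra B R := (q.comp c).toAlgebra
  have _ : IsScalarTower B G R := IsScalarTower.of_algebraMap_eq fun _ => rfl
  have _ : Algebra.FormallySmooth B R := hs
  let g : G →ₐ[B] R := ⟨q, fun _ => rfl⟩
  have hg : Function.Surjective g := hq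
  have hk : IsNilpotent (RingHom.ker (g : G →+* R)) := by
    refine ⟨2, ?_⟩
    rw [pow_two, Ideal.zero_eq_bot, eq_bot_iff, Ideal.mul_le]
    intro a ha b hb
    obtain ⟨w, rfl⟩ := hε a ha
    obtain ⟨w', rfl⟩ := hε b hb
    rw [Ideal.mem_bot, Finset.sum_mul_sum]
    refine Finset.sum_eq_zero fun i _ => Finset.sum_eq_zero fun j _ => ?_
    linear_combination (w i * w' j) * hm i j
  let σ : R →ₐ[B] G := Algebra.FormallySmooth.liftOfSurjective (AlgHom.id B R) g hg hk
  have hσ : ∀ a, q (σ a) = a := fun a =>
    Algebra.FormallySmooth.liftOfSurjective_apply (AlgHom.id B R) g hg hk a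
  have hσc : ∀ b, σ (q (c b)) = c b := fun b => σ.commutes b
  have hw : ∀ v, ∃ w : J → G, v = σ (q v) + ∑ j, ε j * w j := by
    intro v
    obtain ⟨w, hw⟩ := hε (v - σ (q v)) (by rw [map_sub, hσ, sub_self])
    exact ⟨w, by rw [← hw]; ring⟩
  choose w hw using hw
  have key : ∀ v (w' : J → G), v = σ (q v) + ∑ j, ε j * w' j → ∀ j, q (w v j) = q (w' j) := by
    intro v w' h j
    have h1 : ∑ j, ε j * (w v j - w' j) = 0 := by
      simp only [mul_sub, Finset.sum_sub_distrib]
      have := hw v
      linear_combination h - this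
    have h2 := hu _ h1 j
    rwa [map_sub, sub_eq_zero] at h2
  refine ⟨fun j v => q (w v j), fun j => ⟨?_, ?_, ?_⟩, ?_, ?_⟩
  · intro a b
    rw [← map_add]
    refine key (a + b) (fun j => w a j + w b j) ?_ j
    simp only [mul_add, Finset.sum_add_distrib, map_add]
    linear_combination hw a + hw b
  · intro a b
    have h1 : q a * q (w b j) + q b * q (w a j) =
        q (σ (q a) * w b j + σ (q b) * w a j + ∑ i, ε i * (w a i * w b j)) := by
      rw [map_add, map_add, map_mul, map_mul, hσ, hσ, map_sum]
      simp [map_mul, h0]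
    rw [h1]
    refine key (a * b) (fun j => σ (q a) * w b j + σ (q b) * w a j + ∑ i, ε i * (w a i * w b j))
      ?_ j
    have e1 : a * b = (σ (q a) + ∑ j, ε j * w a j) * (σ (q b) + ∑ j, ε j * w b j) := by
      rw [← hw a, ← hw b]
    rw [e1, map_mul, map_mul]
    simp only [mul_add, Finset.sum_add_distrib, map_add, map_mul, map_sum, hσ, h0, zero_mul,
      Finset.sum_const_zero, add_zero]
    simp only [add_mul, mul_add, Finset.sum_add_distrib]
    have e2 : ∀ j, ε j * ∑ i, ε i * (w a i * w b j) = 0 := by
      intro j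
      rw [Finset.mul_sum]
      refine Finset.sum_eq_zero fun i _ => ?_
      linear_combination (w a i * w b j) * hm j i
    have e3 : (∑ j, ε j * w a j) * (∑ j, ε j * w b j) = 0 := by
      rw [Finset.sum_mul_sum]
      refine Finset.sum_eq_zero fun i _ => Finset.sum_eq_zero fun j _ => ?_
      linear_combination (w a i * w b j) * hm i j
    simp only [e2, Finset.sum_const_zero, add_zero]
    rw [e3]
    have e4 : ∀ (x : G) (y : J → G), x * ∑ j, ε j * y j = ∑ j, ε j * (x * y j) := by
      intro x y
      rw [Finset.mul_sum]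
      exact Finset.sum_congr rfl fun j _ => by ring
    have e5 : (∑ j, ε j * w a j) * σ (q b) = ∑ j, ε j * (σ (q b) * w a j) := by
      rw [mul_comm, e4]
    rw [e4, e5]
    ring
  · intro b
    have := key (c b) (fun _ => 0) (by simp [hσc]) j
    change q (w (c b) j) = 0
    rw [this, map_zero]
  · intro j
    have := key (ε j) (fun i => if i = j then 1 else 0) (by simp [h0]) j
    change q (w (ε j) j) = 1
    rw [this]
    simp
  · intro i j hij
    have := key (ε i) (fun l => if l = i then 1 else 0) (by simp [h0]) j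
    change q (w (ε i) j) = 0
    rw [this, if_neg (fun h => hij h.symm), map_zero]

end dex

end Pool.Agent.MG.H2


end
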