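import Mathlib
import Pool.Agent.KDM.C06
import Pool.Agent.KDM.C07

/-! Parts: MG.H2.Defs, MG.H2.StmtsH, MG.H2.YRing, MG.H2.HBC -/

section

/-!
# Curves `y² = f(x)`, `f` of degree at most six, over any ring

Charts: `A₁ = B[x, y]/(y² - f(x))` and `A₂ = B[u, v]/(v² - u⁶ f(1/u))`, which is `A₁` for the
reversed coefficients; on the intersection `u = 1/x`, `v = y/x³`.
-/

open CategoryTheory CategoryTheory.Limits AlgebraicGeometry TensorProduct

namespace Pool.Agent.MG.H2

section pol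

variable {R : Type} [CommRing R]

/-- The value at `x` of the polynomial with coefficients `f`. -/
def pol (f : Fin 7 → R) (x : R) : R :=
  f 0 + f 1 * x + f 2 * x ^ 2 + f 3 * x ^ 3 + f 4 * x ^ 4 + f 5 * x ^ 5 + f 6 * x ^ 6

/-- The reversed coefficients. -/
def rev (f : Fin 7 → R) : Fin 7 → R := fun i => f (Fin.rev i)

theorem rev_rev (f : Fin 7 → R) : rev (rev f) = f := by
  funext i
  simp [rev]

theorem pol_map {R' : Type} [CommRing R'] (φ : R →+* R') (f : Fin 7 → R) (x : R) :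
    φ (pol f x) = pol (fun i => φ (f i)) (φ x) := by
  simp [pol]

/-- `u⁶ f(1/u)`. -/
theorem pol_rev (f : Fin 7 → R) (x xi : R) (h : x * xi = 1) :
    pol (rev f) x * xi ^ 6 = pol f xi := by
  have h2 : x ^ 2 * xi ^ 2 = 1 := by rw [← mul_pow, h, one_pow]
  have h3 : x ^ 3 * xi ^ 3 = 1 := by rw [← mul_pow, h, one_pow]
  have h4 : x ^ 4 * xi ^ 4 = 1 := by rw [← mul_pow, h, one_pow]
  have h5 : x ^ 5 * xi ^ 5 = 1 := by rw [← mul_pow, h, one_pow]
  have h6 : x ^ 6 * xi ^ 6 = 1 := by rw [← mul_pow, h, one_pow]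
  have e0 : rev f 0 = f 6 := rfl
  have e1 : rev f 1 = f 5 := rfl
  have e2 : rev f 2 = f 4 := rfl
  have e3 : rev f 3 = f 3 := rfl
  have e4 : rev f 4 = f 2 := rfl
  have e5 : rev f 5 = f 1 := rfl
  have e6 : rev f 6 = f 0 := rfl
  simp only [pol, e0, e1, e2, e3, e4, e5, e6]
  linear_combination f 5 * xi ^ 5 * h + f 4 * xi ^ 4 * h2 + f 3 * xi ^ 3 * h3 + f 2 * xi ^ 2 * h4 +
    f 1 * xi * h5 + f 0 * h6

end pol

section rings

variable (B : Type) [CommRing B] (f : Fin 7 → B)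

/-- The equation of the affine curve. -/
noncomputable abbrev eq1 : MvPolynomial (Fin 2) B :=
  MvPolynomial.X 1 ^ 2 - pol (fun i => MvPolynomial.C (f i)) (MvPolynomial.X 0)

/-- `B[x, y]/(y² - f(x))`. -/
abbrev A1 : Type := MvPolynomial (Fin 2) B ⧸ Ideal.span {eq1 B f}

/-- `x` -/
noncomputable def x1 : A1 B f := Ideal.Quotient.mk _ (MvPolynomial.X 0)
/-- `y` -/
noncomputable def y1 : A1 B f := Ideal.Quotient.mk _ (MvPolynomial.X 1)

theorem rel1 : y1 B f ^ 2 = pol (fun i => algebraMap B _ (f i)) (x1 B f) := by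
  have h : Ideal.Quotient.mk (Ideal.span {eq1 B f}) (eq1 B f) = 0 :=
    Ideal.Quotient.eq_zero_iff_mem.2 (Ideal.subset_span rfl)
  have h2 : y1 B f ^ 2 - pol (fun i => algebraMap B (A1 B f) (f i)) (x1 B f) = 0 := by
    rw [← h]
    simp only [eq1, map_sub, map_pow, pol_map]
    rfl
  linear_combination h2

variable {B f}

theorem kill1 {R : Type} [CommRing R] (φ : B →+* R) (x y : R)
    (h : y ^ 2 = pol (fun i => φ (f i)) x) (p : MvPolynomial (Fin 2) B)
    (hp : p ∈ Ideal.span {eq1 B f}) : MvPolynomial.eval₂Hom φ ![x, y] p = 0 := by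
  have : Ideal.span {eq1 B f} ≤ RingHom.ker (MvPolynomial.eval₂Hom φ ![x, y]) := by
    rw [Ideal.span_le, Set.singleton_subset_iff]
    change MvPolynomial.eval₂Hom φ ![x, y] (eq1 B f) = 0
    simp only [eq1, map_sub, map_pow, pol_map]
    simp [h]
  exact this hp

/-- Homomorphisms from `A₁`. -/
noncomputable def lift1 {R : Type} [CommRing R] (φ : B →+* R) (x y : R)
    (h : y ^ 2 = pol (fun i => φ (f i)) x) : A1 B f →+* R :=
  Ideal.Quotient.lift _ (MvPolynomial.eval₂Hom φ ![x, y]) (kill1 φ x y h)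

section

variable {R : Type} [CommRing R] (φ : B →+* R)

@[simp]
theorem lift1_x (x y : R) (h : y ^ 2 = pol (fun i => φ (f i)) x) :
    lift1 φ x y h (x1 B f) = x :=
  (Ideal.Quotient.lift_mk _ _ _).trans (by simp)

@[simp]
theorem lift1_y (x y : R) (h : y ^ 2 = pol (fun i => φ (f i)) x) :
    lift1 φ x y h (y1 B f) = y :=
  (Ideal.Quotient.lift_mk _ _ _).trans (by simp)

@[simp]
theorem lift1_b (x y : R) (h : y ^ 2 = pol (fun i => φ (f i)) x) (c : B) :
    lift1 φ x y h (algebraMap B _ c) = φ c :=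
  (Ideal.Quotient.lift_mk (Ideal.span {eq1 B f}) (MvPolynomial.eval₂Hom φ ![x, y])
    (kill1 φ x y h) (a := MvPolynomial.C c)).trans (by simp)

theorem hom1_ext {g g' : A1 B f →+* R} (h : ∀ c, g (algebraMap B _ c) = g' (algebraMap B _ c))
    (hx : g (x1 B f) = g' (x1 B f)) (hy : g (y1 B f) = g' (y1 B f)) : g = g' := by
  refine Ideal.Quotient.ringHom_ext ?_
  refine MvPolynomial.ringHom_ext (fun c => h c) fun i => ?_
  fin_cases i
  · exact hx
  · exact hy

end

variable (B f)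

/-- `B[u, v]/(v² - u⁶ f(1/u))`. -/
abbrev A2 : Type := A1 B (rev f)

/-- The ring of the intersection of the charts. -/
abbrev A12 : Type := Localization.Away (x1 B f)

/-- Restriction from the first chart. -/
noncomputable def g1 : A1 B f →+* A12 B f := algebraMap _ _

/-- `x` as a unit. -/
noncomputable def xu : (A12 B f)ˣ :=
  (IsLocalization.Away.algebraMap_isUnit (S := A12 B f) (x1 B f)).unit

/-- `y` in `A₁₂`. -/
noncomputable def yv : A12 B f := g1 B f (y1 B f)

theorem xu_val : (xu B f : A12 B f) = g1 B f (x1 B f) := rfl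

theorem g1_y : g1 B f (y1 B f) = yv B f := rfl

theorem g1_b (c : B) : g1 B f (algebraMap B _ c) = algebraMap B _ c := rfl

theorem rel12 : yv B f ^ 2 = pol (fun i => algebraMap B _ (f i)) (xu B f : A12 B f) := by
  have h := congrArg (g1 B f) (rel1 B f)
  rw [map_pow, pol_map] at h
  exact h

variable {B f}

/-- Homomorphisms from `A₁₂`. -/
noncomputable def lift12 {R : Type} [CommRing R] (φ : B →+* R) (x : Rˣ) (y : R)
    (h : y ^ 2 = pol (fun i => φ (f i)) (x : R)) : A12 B f →+* R :=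
  IsLocalization.Away.lift (x1 B f) (g := lift1 φ (x : R) y h) (by
    rw [lift1_x]
    exact x.isUnit)

section

variable {R : Type} [CommRing R] (φ : B →+* R)

theorem lift12_g1 (x : Rˣ) (y : R) (h : y ^ 2 = pol (fun i => φ (f i)) (x : R)) (v : A1 B f) :
    lift12 φ x y h (g1 B f v) = lift1 φ (x : R) y h v :=
  IsLocalization.Away.lift_eq _ _ _

@[simp]
theorem lift12_x (x : Rˣ) (y : R) (h : y ^ 2 = pol (fun i => φ (f i)) (x : R)) :
    lift12 φ x y h (xu B f : A12 B f) = x := by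
  rw [xu_val, lift12_g1, lift1_x]

@[simp]
theorem lift12_y (x : Rˣ) (y : R) (h : y ^ 2 = pol (fun i => φ (f i)) (x : R)) :
    lift12 φ x y h (yv B f) = y := by
  rw [yv, lift12_g1, lift1_y]

@[simp]
theorem lift12_b (x : Rˣ) (y : R) (h : y ^ 2 = pol (fun i => φ (f i)) (x : R)) (c : B) :
    lift12 φ x y h (algebraMap B _ c) = φ c := by
  rw [← g1_b, lift12_g1, lift1_b]

theorem hom12_ext {g g' : A12 B f →+* R} (h : ∀ c, g (algebraMap B _ c) = g' (algebraMap B _ c))
    (hx : g (xu B f : A12 B f) = g' (xu B f : A12 B f)) (hy : g (yv B f) = g' (yv B f)) :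
    g = g' := by
  refine IsLocalization.ringHom_ext (Submonoid.powers (x1 B f)) ?_
  exact hom1_ext (fun c => h c) hx hy

theorem lift12_xi (x : Rˣ) (y : R) (h : y ^ 2 = pol (fun i => φ (f i)) (x : R)) :
    lift12 φ x y h ((xu B f)⁻¹ : (A12 B f)ˣ).val = (x⁻¹ : Rˣ).val := by
  have h1 : Units.map (lift12 φ x y h : A12 B f →* R) (xu B f) = x := by
    ext1
    exact lift12_x φ x y h
  have h2 := congrArg (fun u : Rˣ => (u⁻¹ : Rˣ).val) h1
  rw [← h2, ← map_inv]
  rfl

end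

theorem relinv {f f' : Fin 7 → B} (h : ∀ i, f' i = f (Fin.rev i)) :
    (yv B f' * ((xu B f')⁻¹ ^ 3 : (A12 B f')ˣ).val) ^ 2 =
      pol (fun i => algebraMap B (A12 B f') (f i)) ((xu B f')⁻¹ : (A12 B f')ˣ).val := by
  have hr : (fun i => algebraMap B (A12 B f') (f' i)) =
      rev (fun i => algebraMap B (A12 B f') (f i)) := by
    funext i
    rw [h i]
    rfl
  have h1 := rel12 B f'
  rw [hr] at h1
  have h2 := pol_rev (fun i => algebraMap B (A12 B f') (f i)) (xu B f' : A12 B f')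
    ((xu B f')⁻¹ : (A12 B f')ˣ).val (Units.mul_inv _)
  rw [mul_pow, h1, ← h2]
  push_cast
  ring

/-- The inversion `x ↦ 1/x`, `y ↦ y/x³`. -/
noncomputable def inv12 {f f' : Fin 7 → B} (h : ∀ i, f' i = f (Fin.rev i)) :
    A12 B f →+* A12 B f' :=
  lift12 (algebraMap B (A12 B f')) (xu B f')⁻¹ (yv B f' * ((xu B f')⁻¹ ^ 3 : (A12 B f')ˣ).val)
    (relinv h)

section

variable {f f' : Fin 7 → B} (h : ∀ i, f' i = f (Fin.rev i)) (h' : ∀ i, f i = f' (Fin.rev i))

@[simp]
theorem inv12_b (c : B) : inv12 h (algebraMap B _ c) = algebraMap B _ c := lift12_b _ _ _ _ _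

@[simp]
theorem inv12_x : inv12 h (xu B f : A12 B f) = ((xu B f')⁻¹ : (A12 B f')ˣ).val :=
  lift12_x _ _ _ _

@[simp]
theorem inv12_xi : inv12 h ((xu B f)⁻¹ : (A12 B f)ˣ).val = (xu B f' : A12 B f') := by
  rw [inv12, lift12_xi, inv_inv]

@[simp]
theorem inv12_y : inv12 h (yv B f) = yv B f' * ((xu B f')⁻¹ ^ 3 : (A12 B f')ˣ).val :=
  lift12_y _ _ _ _

include h h' in
theorem inv12_inv12 : (inv12 h').comp (inv12 h) = RingHom.id _ := by
  refine hom12_ext ?_ ?_ ?_
  · intro c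
    simp
  · simp
  · simp only [RingHom.comp_apply, inv12_y, map_mul, Units.val_pow_eq_pow_val, map_pow, inv12_xi,
      RingHom.id_apply]
    rw [mul_assoc, ← mul_pow, Units.inv_mul, one_pow, mul_one]

/-- The inversion is an isomorphism. -/
noncomputable def invEquiv : A12 B f ≃+* A12 B f' :=
  RingEquiv.ofRingHom (inv12 h) (inv12 h') (inv12_inv12 h' h) (inv12_inv12 h h')

end

theorem rev_h (f : Fin 7 → B) (i : Fin 7) : f i = rev f (Fin.rev i) := by
  simp [rev]

theorem rev_h' (f : Fin 7 → B) (i : Fin 7) : rev f i = f (Fin.rev i) := rfl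

variable (B f)

/-- Restriction from the chart at infinity: `u ↦ 1/x`, `v ↦ y/x³`. -/
noncomputable def g2 : A2 B f →+* A12 B f := (inv12 (rev_h f)).comp (g1 B (rev f))

theorem g2_u : g2 B f (x1 B (rev f)) = ((xu B f)⁻¹ : (A12 B f)ˣ).val :=
  inv12_x (rev_h f)

theorem g2_v : g2 B f (y1 B (rev f)) = yv B f * ((xu B f)⁻¹ ^ 3 : (A12 B f)ˣ).val :=
  inv12_y (rev_h f)

theorem g2_b (c : B) : g2 B f (algebraMap B _ c) = algebraMap B _ c :=
  inv12_b (rev_h f) c

instance open1 : IsOpenImmersion (spMap (g1 B f)) := by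
  unfold g1
  infer_instance

instance open2 : IsOpenImmersion (spMap (g2 B f)) := by
  have h2 : spMap (g2 B f) = spMap (invEquiv (rev_h f) (rev_h' f) : A12 B (rev f) →+* A12 B f) ≫
      spMap (g1 B (rev f)) :=
    Spec.map_comp (CommRingCat.ofHom (g1 B (rev f)))
      (CommRingCat.ofHom (invEquiv (rev_h f) (rev_h' f) : A12 B (rev f) →+* A12 B f))
  have h3 : IsIso (spMap (invEquiv (rev_h f) (rev_h' f) : A12 B (rev f) →+* A12 B f)) := by
    have : IsIso (CommRingCat.ofHom (invEquiv (rev_h f) (rev_h' f) : A12 B (rev f) →+* A12 B f)) :=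
      (RingEquiv.toCommRingCatIso (invEquiv (rev_h f) (rev_h' f))).isIso_hom
    infer_instance
  rw [h2]
  infer_instance

end rings

/-! ## The scheme -/

section scheme

variable (B : Type) [CommRing B] (f : Fin 7 → B)

/-- The curve `y² = f(x)`. -/
noncomputable def HX : Scheme.{0} := pushout (spMap (g1 B f)) (spMap (g2 B f))

/-- The first chart. -/
noncomputable def HX.in1 : Sp (A1 B f) ⟶ HX B f := pushout.inl _ _

/-- The chart at infinity. -/
noncomputable def HX.in2 : Sp (A2 B f) ⟶ HX B f := pushout.inr _ _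

instance : IsOpenImmersion (HX.in1 B f) :=
  inferInstanceAs (IsOpenImmersion (pushout.inl (spMap (g1 B f)) (spMap (g2 B f))))

instance : IsOpenImmersion (HX.in2 B f) :=
  inferInstanceAs (IsOpenImmersion (pushout.inr (spMap (g1 B f)) (spMap (g2 B f))))

/-- The projection. -/
noncomputable def HX.pr : HX B f ⟶ Sp B :=
  pushout.desc (spMap (algebraMap B _)) (spMap (algebraMap B _)) (by
    rw [← Spec.map_comp, ← Spec.map_comp]
    congr 1
    ext c
    exact (g2_b B f c).symm)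

@[reassoc (attr := simp)]
theorem HX.in1_pr : HX.in1 B f ≫ HX.pr B f = spMap (algebraMap B _) :=
  pushout.inl_desc _ _ _

@[reassoc (attr := simp)]
theorem HX.in2_pr : HX.in2 B f ≫ HX.pr B f = spMap (algebraMap B _) :=
  pushout.inr_desc _ _ _

/-- The curve `y² = f(x)` as a family without sections. -/
noncomputable def Hyp {B : Type} [CommRing B] (f : Fin 7 → B) : Fam 0 B where
  X := HX B f
  π := HX.pr B f
  σ := fun i => i.elim0
  sec i := i.elim0

end scheme

/-! ## Morphisms from ring data -/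

section mor

theorem spMap_comp' {A B C : Type} [CommRing A] [CommRing B] [CommRing C] (f : A →+* B)
    (g : B →+* C) : spMap g ≫ spMap f = spMap (g.comp f) := by
  change _ = Spec.map (CommRingCat.ofHom (g.comp f))
  rw [CommRingCat.ofHom_comp, Spec.map_comp]

variable {B B' : Type} [CommRing B] [CommRing B']

/-- Compatible homomorphisms of the rings of the charts over `φ`. -/
structure RHom (φ : B →+* B') (f : Fin 7 → B) (f' : Fin 7 → B') where
  /-- on the first chart -/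
  h1 : A1 B f →+* A1 B' f'
  /-- on the second chart -/
  h2 : A2 B f →+* A2 B' f'
  /-- on the intersection -/
  h12 : A12 B f →+* A12 B' f'
  b1 : ∀ c, h1 (algebraMap B _ c) = algebraMap B' _ (φ c)
  b2 : ∀ c, h2 (algebraMap B _ c) = algebraMap B' _ (φ c)
  c1 : ∀ v, h12 (g1 B f v) = g1 B' f' (h1 v)
  c2 : ∀ v, h12 (g2 B f v) = g2 B' f' (h2 v)

/-- The morphism of curves of compatible ring homomorphisms. -/
noncomputable def RHom.mor {φ : B →+* B'} {f : Fin 7 → B} {f' : Fin 7 → B'} (h : RHom φ f f') :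
    HX B' f' ⟶ HX B f :=
  pushout.desc (spMap h.h1 ≫ HX.in1 B f) (spMap h.h2 ≫ HX.in2 B f) (by
    have h1 : (g1 B' f').comp h.h1 = h.h12.comp (g1 B f) :=
      RingHom.ext fun v => (h.c1 v).symm
    have h2 : (g2 B' f').comp h.h2 = h.h12.comp (g2 B f) :=
      RingHom.ext fun v => (h.c2 v).symm
    rw [← Category.assoc, ← Category.assoc, spMap_comp', spMap_comp', h1, h2, ← spMap_comp',
      ← spMap_comp', Category.assoc, Category.assoc]
    congr 1
    exact pushout.condition)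

@[reassoc]
theorem RHom.in1_mor {φ : B →+* B'} {f : Fin 7 → B} {f' : Fin 7 → B'} (h : RHom φ f f') :
    HX.in1 B' f' ≫ h.mor = spMap h.h1 ≫ HX.in1 B f :=
  pushout.inl_desc _ _ _

@[reassoc]
theorem RHom.in2_mor {φ : B →+* B'} {f : Fin 7 → B} {f' : Fin 7 → B'} (h : RHom φ f f') :
    HX.in2 B' f' ≫ h.mor = spMap h.h2 ≫ HX.in2 B f :=
  pushout.inr_desc _ _ _

theorem HX.ext' {f : Fin 7 → B} {Y : Scheme.{0}} {g g' : HX B f ⟶ Y}
    (h1 : HX.in1 B f ≫ g = HX.in1 B f ≫ g') (h2 : HX.in2 B f ≫ g = HX.in2 B f ≫ g') :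
    g = g' :=
  pushout.hom_ext h1 h2

@[reassoc]
theorem RHom.mor_pr {φ : B →+* B'} {f : Fin 7 → B} {f' : Fin 7 → B'} (h : RHom φ f f') :
    h.mor ≫ HX.pr B f = HX.pr B' f' ≫ spMap φ := by
  refine HX.ext' ?_ ?_
  · rw [← Category.assoc, RHom.in1_mor, Category.assoc, HX.in1_pr, ← Category.assoc, HX.in1_pr,
      spMap_comp', spMap_comp']
    exact congrArg (fun f => spMap f) (RingHom.ext fun c => h.b1 c)
  · rw [← Category.assoc, RHom.in2_mor, Category.assoc, HX.in2_pr, ← Category.assoc, HX.in2_pr,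
      spMap_comp', spMap_comp']
    exact congrArg (fun f => spMap f) (RingHom.ext fun c => h.b2 c)

/-! ### Base change -/

/-- Base change of the affine chart. -/
noncomputable def bc1 (φ : B →+* B') {f : Fin 7 → B} {f' : Fin 7 → B'}
    (hf : ∀ i, f' i = φ (f i)) : A1 B f →+* A1 B' f' :=
  lift1 ((algebraMap B' (A1 B' f')).comp φ) (x1 B' f') (y1 B' f') (by
    rw [rel1]
    congr 1
    funext i
    rw [hf]
    rfl)

section

variable (φ : B →+* B') {f : Fin 7 → B} {f' : Fin 7 → B'} (hf : ∀ i, f' i = φ (f i))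

@[simp]
theorem bc1_x : bc1 φ hf (x1 B f) = x1 B' f' := lift1_x _ _ _ _

@[simp]
theorem bc1_y : bc1 φ hf (y1 B f) = y1 B' f' := lift1_y _ _ _ _

@[simp]
theorem bc1_b (c : B) : bc1 φ hf (algebraMap B _ c) = algebraMap B' _ (φ c) := lift1_b _ _ _ _ _

include hf in
theorem rev_bc (i : Fin 7) : rev f' i = φ (rev f i) := hf _

/-- Base change of the chart at infinity. -/
noncomputable def bc2 : A2 B f →+* A2 B' f' := bc1 φ (rev_bc φ hf)

@[simp]
theorem bc2_u : bc2 φ hf (x1 B (rev f)) = x1 B' (rev f') := bc1_x _ _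

@[simp]
theorem bc2_v : bc2 φ hf (y1 B (rev f)) = y1 B' (rev f') := bc1_y _ _

@[simp]
theorem bc2_b (c : B) : bc2 φ hf (algebraMap B _ c) = algebraMap B' _ (φ c) := bc1_b _ _ _

/-- Base change of the intersection. -/
noncomputable def bc12 : A12 B f →+* A12 B' f' :=
  lift12 ((algebraMap B' (A12 B' f')).comp φ) (xu B' f') (yv B' f') (by
    rw [rel12]
    congr 1
    funext i
    rw [hf]
    rfl)

@[simp]
theorem bc12_x : bc12 φ hf (xu B f : A12 B f) = (xu B' f' : A12 B' f') := lift12_x _ _ _ _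

@[simp]
theorem bc12_xi : bc12 φ hf ((xu B f)⁻¹ : (A12 B f)ˣ).val = ((xu B' f')⁻¹ : (A12 B' f')ˣ).val :=
  lift12_xi _ _ _ _

@[simp]
theorem bc12_y : bc12 φ hf (yv B f) = yv B' f' := lift12_y _ _ _ _

@[simp]
theorem bc12_b (c : B) : bc12 φ hf (algebraMap B _ c) = algebraMap B' _ (φ c) :=
  lift12_b _ _ _ _ _

theorem bc12_g1 (v : A1 B f) : bc12 φ hf (g1 B f v) = g1 B' f' (bc1 φ hf v) := by
  have : (bc12 φ hf).comp (g1 B f) = (g1 B' f').comp (bc1 φ hf) := by
    refine hom1_ext ?_ ?_ ?_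
    · intro c
      rw [RingHom.comp_apply, RingHom.comp_apply, g1_b, bc12_b, bc1_b, g1_b]
    · rw [RingHom.comp_apply, RingHom.comp_apply, bc1_x, ← xu_val, bc12_x, xu_val]
    · rw [RingHom.comp_apply, RingHom.comp_apply, bc1_y, g1_y, bc12_y, g1_y]
  exact congrArg (fun g => g v) this

theorem bc12_g2 (v : A2 B f) : bc12 φ hf (g2 B f v) = g2 B' f' (bc2 φ hf v) := by
  have : (bc12 φ hf).comp (g2 B f) = (g2 B' f').comp (bc2 φ hf) := by
    refine hom1_ext ?_ ?_ ?_
    · intro c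
      rw [RingHom.comp_apply, RingHom.comp_apply, g2_b, bc12_b, bc2_b, g2_b]
    · rw [RingHom.comp_apply, RingHom.comp_apply, bc2_u, g2_u, bc12_xi, g2_u]
    · rw [RingHom.comp_apply, RingHom.comp_apply, bc2_v, g2_v, g2_v, map_mul, bc12_y,
        Units.val_pow_eq_pow_val, map_pow, bc12_xi, Units.val_pow_eq_pow_val]
  exact congrArg (fun g => g v) this

/-- Base change. -/
noncomputable def RHom.bc : RHom φ f f' where
  h1 := bc1 φ hf
  h2 := bc2 φ hf
  h12 := bc12 φ hf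
  b1 := bc1_b φ hf
  b2 := bc2_b φ hf
  c1 := bc12_g1 φ hf
  c2 := bc12_g2 φ hf

/-- The base change morphism. -/
noncomputable def HX.map : HX B' f' ⟶ HX B f := (RHom.bc φ hf).mor

@[reassoc]
theorem HX.in1_map : HX.in1 B' f' ≫ HX.map φ hf = spMap (bc1 φ hf) ≫ HX.in1 B f :=
  RHom.in1_mor _

@[reassoc]
theorem HX.in2_map : HX.in2 B' f' ≫ HX.map φ hf = spMap (bc2 φ hf) ≫ HX.in2 B f :=
  RHom.in2_mor _

@[reassoc]
theorem HX.map_pr : HX.map φ hf ≫ HX.pr B f = HX.pr B' f' ≫ spMap φ :=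
  RHom.mor_pr _

end

end mor

end Pool.Agent.MG.H2


end

section

/-!
# Deformations of the curves `y² = f(x)`: statements
-/

open CategoryTheory CategoryTheory.Limits AlgebraicGeometry TensorProduct

namespace Pool.Agent.MG.H2

/-- HRG: the rings of the charts: `A₁ = B[x] ⊕ B[x] y`, `A₁₂ = B[x, 1/x] ⊕ B[x, 1/x] y`. -/
def Stmt_HRG : Prop :=
  ∀ (B : Type) [CommRing B] (f : Fin 7 → B),
    (∀ v : A1 B f, ∃! pq : Polynomial B × Polynomial B,
      v = Polynomial.aeval (x1 B f) pq.1 + Polynomial.aeval (x1 B f) pq.2 * y1 B f) ∧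
    Function.Injective (g1 B f) ∧ Function.Injective (g2 B f) ∧
    (∀ v : A12 B f, ∃! pq : LaurentPolynomial B × LaurentPolynomial B,
      v = LaurentPolynomial.eval₂ (algebraMap B (A12 B f)) (xu B f) pq.1 +
        LaurentPolynomial.eval₂ (algebraMap B (A12 B f)) (xu B f) pq.2 * yv B f)

/-- Ring data of a flat thickening over `E` of the curve `y² = f(x)` over `B`. -/
structure HData {B E J : Type} [CommRing B] [CommRing E] [Fintype J] (S : SqE B E J)
    (f : Fin 7 → B) where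
  /-- functions on the first chart -/
  G1 : Type
  /-- functions on the chart at infinity -/
  G2 : Type
  /-- functions on the intersection -/
  G12 : Type
  [c1 : CommRing G1]
  [c2 : CommRing G2]
  [c12 : CommRing G12]
  /-- structure map -/
  a1 : E →+* G1
  /-- structure map -/
  a2 : E →+* G2
  /-- structure map -/
  a12 : E →+* G12
  /-- restriction -/
  f1 : G1 →+* G12
  /-- restriction -/
  f2 : G2 →+* G12
  fa1 : ∀ z, f1 (a1 z) = a12 z
  fa2 : ∀ z, f2 (a2 z) = a12 z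
  /-- reduction -/
  q1 : G1 →+* A1 B f
  /-- reduction -/
  q2 : G2 →+* A2 B f
  /-- reduction -/
  q12 : G12 →+* A12 B f
  qa1 : ∀ z, q1 (a1 z) = algebraMap B _ (S.p z)
  qa2 : ∀ z, q2 (a2 z) = algebraMap B _ (S.p z)
  qa12 : ∀ z, q12 (a12 z) = algebraMap B _ (S.p z)
  qf1 : ∀ v, q12 (f1 v) = g1 B f (q1 v)
  qf2 : ∀ v, q12 (f2 v) = g2 B f (q2 v)
  sur1 : Function.Surjective q1
  sur2 : Function.Surjective q2
  sur12 : Function.Surjective q12
  ker1 : ∀ v, q1 v = 0 → ∃ w : J → G1, v = ∑ j, a1 (S.ε j) * w j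
  ker2 : ∀ v, q2 v = 0 → ∃ w : J → G2, v = ∑ j, a2 (S.ε j) * w j
  ker12 : ∀ v, q12 v = 0 → ∃ w : J → G12, v = ∑ j, a12 (S.ε j) * w j
  un1 : ∀ w : J → G1, ∑ j, a1 (S.ε j) * w j = 0 → ∀ j, q1 (w j) = 0
  un2 : ∀ w : J → G2, ∑ j, a2 (S.ε j) * w j = 0 → ∀ j, q2 (w j) = 0
  un12 : ∀ w : J → G12, ∑ j, a12 (S.ε j) * w j = 0 → ∀ j, q12 (w j) = 0

attribute [instance] HData.c1 HData.c2 HData.c12

/-- HEA: ring data of thickenings of curves `y² = f(x)` are curves `y² = f'(x)`. -/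
def Stmt_HEA : Prop :=
  ∀ {B E J : Type} [CommRing B] [CommRing E] [Fintype J] (S : SqE B E J) (f : Fin 7 → B),
    IsUnit (2 : B) → ∀ D : HData S f, ∃ (f' : Fin 7 → E) (hf : ∀ i, f i = S.p (f' i))
      (e1 : A1 E f' ≃+* D.G1) (e2 : A2 E f' ≃+* D.G2) (e12 : A12 E f' ≃+* D.G12),
      (∀ c, e1 (algebraMap E _ c) = D.a1 c) ∧ (∀ c, e2 (algebraMap E _ c) = D.a2 c) ∧
      (∀ v, D.f1 (e1 v) = e12 (g1 E f' v)) ∧ (∀ v, D.f2 (e2 v) = e12 (g2 E f' v)) ∧
      (∀ v, D.q1 (e1 v) = bc1 S.p hf v) ∧ (∀ v, D.q2 (e2 v) = bc2 S.p hf v)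

/-- HE: every thickening of a curve `y² = f(x)` is a curve `y² = f'(x)`. -/
def Stmt_HE : Prop :=
  ∀ {B E J : Type} [CommRing B] [CommRing E] [Fintype J] (S : SqE B E J) (f : Fin 7 → B),
    IsUnit (2 : B) → ∀ t : Thk S (Hyp f), ∃ (f' : Fin 7 → E) (hf : ∀ i, f i = S.p (f' i))
      (a : Arrow (RingHom.id E) t.y (Hyp f')), t.r.f ≫ a.f = HX.map S.p hf

/-- The infinitesimal change of `f` under `x ↦ x + ε (ξ₀ + ξ₁ x + ξ₂ x²)`,
`y ↦ (1 + ε (c + 3 ξ₂ x)) y`: the coefficients of `(ξ₀ + ξ₁ x + ξ₂ x²) f' - (2 c + 6 ξ₂ x) f`. -/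
def dir {R : Type} [CommRing R] (ξ0 ξ1 ξ2 c : R) (f : Fin 7 → R) : Fin 7 → R :=
  ![ξ0 * f 1 - 2 * c * f 0,
    2 * ξ0 * f 2 + (ξ1 - 2 * c) * f 1 - 6 * ξ2 * f 0,
    3 * ξ0 * f 3 + (2 * ξ1 - 2 * c) * f 2 - 5 * ξ2 * f 1,
    4 * ξ0 * f 4 + (3 * ξ1 - 2 * c) * f 3 - 4 * ξ2 * f 2,
    5 * ξ0 * f 5 + (4 * ξ1 - 2 * c) * f 4 - 3 * ξ2 * f 3,
    6 * ξ0 * f 6 + (5 * ξ1 - 2 * c) * f 5 - 2 * ξ2 * f 4,
    (6 * ξ1 - 2 * c) * f 6 - ξ2 * f 5]

/-- HTR: the infinitesimal coordinate changes are isomorphisms. -/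
def Stmt_HTR : Prop :=
  ∀ {E : Type} [CommRing E] (e ξ0 ξ1 ξ2 c : E), e * e = 0 → ∀ f : Fin 7 → E,
    ∃ a : Arrow (RingHom.id E) (Hyp fun i => f i + e * dir ξ0 ξ1 ξ2 c f i) (Hyp f),
      IsIso a.f ∧ ∀ {B : Type} [CommRing B] (p : E →+* B) (_ : p e = 0) {f0 : Fin 7 → B}
        (h1 : ∀ i, f0 i = p (f i + e * dir ξ0 ξ1 ξ2 c f i)) (h2 : ∀ i, f0 i = p (f i)),
        HX.map p h1 ≫ a.f = HX.map p h2

/-- The coefficients of `∏ (x - r i)`. -/
noncomputable def rts {R : Type} [CommRing R] (r : Fin 6 → R) : Fin 7 → R :=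
  fun j => (∏ i, (Polynomial.X - Polynomial.C (r i))).coeff j

/-- The coefficients of `-∏_{j ≠ i} (x - r j)`: the derivative of `∏ (x - r j)` with respect to
`r i`. -/
noncomputable def mvr {R : Type} [CommRing R] (r : Fin 6 → R) (i : Fin 6) : Fin 7 → R :=
  fun j => -(∏ i' ∈ Finset.univ.erase i, (Polynomial.X - Polynomial.C (r i'))).coeff j

/-- HLI: modulo the infinitesimal coordinate changes, every change of `f = ∏ (x - r i)` moves only
the roots `r 0`, `r 1`, `r 2`. -/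
def Stmt_HLI : Prop :=
  ∀ {K : Type} [Field K] [CharZero K] (r : Fin 6 → K), Function.Injective r →
    ∀ h : Fin 7 → K, ∃ (w : Fin 3 → K) (ξ0 ξ1 ξ2 c : K), ∀ j,
      h j = w 0 * mvr r 0 j + w 1 * mvr r 1 j + w 2 * mvr r 2 j + dir ξ0 ξ1 ξ2 c (rts r) j

/-- The deformation `y² = f(x) + ε h(x)`, if it is stable. -/
noncomputable def dfm {K : Type} [Field K] (f h : Fin 7 → K)
    (hs : IsStable 2 (Hyp fun i => (TrivSqZeroExt.inl (f i) + TrivSqZeroExt.inr (h i) : Eps K)))
    (hc : IsPullback (HX.map (eps0 K) (f := fun i => (TrivSqZeroExt.inl (f i) +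
      TrivSqZeroExt.inr (h i) : Eps K)) (f' := f) (fun i => by simp)) (HX.pr K f)
      (HX.pr (Eps K) fun i => (TrivSqZeroExt.inl (f i) + TrivSqZeroExt.inr (h i) : Eps K))
      (spMap (eps0 K))) : Defo 2 (Hyp f) where
  y := Hyp fun i => (TrivSqZeroExt.inl (f i) + TrivSqZeroExt.inr (h i) : Eps K)
  stable := hs
  r := { f := HX.map (eps0 K) (f := fun i => (TrivSqZeroExt.inl (f i) +
          TrivSqZeroExt.inr (h i) : Eps K)) (f' := f) (fun i => by simp)
         cart := hc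
         sec := fun i => i.elim0 }

/-- HBC: the base change square. -/
def Stmt_HBC : Prop :=
  ∀ {B B' : Type} [CommRing B] [CommRing B'] (φ : B →+* B') {f : Fin 7 → B} {f' : Fin 7 → B'}
    (hf : ∀ i, f' i = φ (f i)),
    IsPullback (HX.map φ hf) (HX.pr B' f') (HX.pr B f) (spMap φ)

/-- HCU: covectors on `y² = ∏ (x - r i)` which agree on the deformations which move `r 0`, `r 1`,
`r 2` are equal. -/
def Stmt_HCU : Prop :=
  ∀ {K : Type} [Field K] [CharZero K] (r : Fin 6 → K), Function.Injective r →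
    (∀ (E : Type) [CommRing E] (p : E →+* K) (f : Fin 7 → E), (∀ i, rts r i = p (f i)) →
      (∀ a, p a = 0 → a * a = 0) → Function.Surjective p → IsStable 2 (Hyp f)) →
    ∀ l l' : Cov 2 (Hyp (rts r)),
    (∀ (i : Fin 3) hs hc, l.l (dfm (rts r) (mvr r (i.castLE (by norm_num))) hs hc) =
      l'.l (dfm (rts r) (mvr r (i.castLE (by norm_num))) hs hc)) → l = l'

end Pool.Agent.MG.H2


end

section

/-!
# The ring of the chart around the node

`N = B[z, ξ, α, β]` with `z ξ = t²`, `α² = ξ K`, `β² = z K`, `α β = t K`, `ξ β = t α`,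
`z α = t β`, where `K = p₃ + p₂ ξ + p₁ ξ² + p₀ ξ³ + p₄ z + p₅ z² + p₆ z³`.

`T = B[X, Y]/(Y² - p_T(X))` with `p_T = (p₀, p₁, p₂, p₃, t² p₄, t⁴ p₅, t⁶ p₆)`, `Q` the same for the
reversed coefficients.  `T[1/X] = N[1/ξ]`: `ξ = 1/X`, `z = t² X`, `α = Y/X²`, `β = t Y/X`.
-/

open CategoryTheory CategoryTheory.Limits AlgebraicGeometry TensorProduct

namespace Pool.Agent.MG.H2

section basic

variable {R R' : Type} [CommRing R] [CommRing R']

/-- The coefficients of the chart `T`. -/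
def pT (p : Fin 7 → R) (t : R) : Fin 7 → R :=
  ![p 0, p 1, p 2, p 3, t ^ 2 * p 4, t ^ 4 * p 5, t ^ 6 * p 6]

theorem pT_map (φ : R →+* R') (p : Fin 7 → R) (t : R) (i : Fin 7) :
    φ (pT p t i) = pT (fun i => φ (p i)) (φ t) i := by
  fin_cases i <;> simp [pT]

theorem pT_one (p : Fin 7 → R) : pT p 1 = p := by
  funext i
  fin_cases i <;> simp [pT]

theorem pol_pT (p : Fin 7 → R) (t x : R) : pol (pT p t) x =
    p 0 + p 1 * x + p 2 * x ^ 2 + p 3 * x ^ 3 + t ^ 2 * p 4 * x ^ 4 + t ^ 4 * p 5 * x ^ 5 +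
      t ^ 6 * p 6 * x ^ 6 := rfl

/-- `K = p₃ + p₂ ξ + p₁ ξ² + p₀ ξ³ + p₄ z + p₅ z² + p₆ z³` -/
def KK (p : Fin 7 → R) (z ξ : R) : R :=
  p 3 + p 2 * ξ + p 1 * ξ ^ 2 + p 0 * ξ ^ 3 + p 4 * z + p 5 * z ^ 2 + p 6 * z ^ 3

theorem KK_map (φ : R →+* R') (p : Fin 7 → R) (z ξ : R) :
    φ (KK p z ξ) = KK (fun i => φ (p i)) (φ z) (φ ξ) := by
  simp [KK]

theorem KK_swap {p p' : Fin 7 → R} (h : ∀ i, p' i = p (Fin.rev i)) (z ξ : R) :
    KK p' ξ z = KK p z ξ := by
  have e0 : p' 0 = p 6 := h 0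
  have e1 : p' 1 = p 5 := h 1
  have e2 : p' 2 = p 4 := h 2
  have e3 : p' 3 = p 3 := h 3
  have e4 : p' 4 = p 2 := h 4
  have e5 : p' 5 = p 1 := h 5
  have e6 : p' 6 = p 0 := h 6
  simp only [KK, e0, e1, e2, e3, e4, e5, e6]
  ring

/-- The relations of the ring of the chart around the node. -/
structure NRel (p : Fin 7 → R) (t z ξ α β : R) : Prop where
  zx : z * ξ = t ^ 2
  aa : α ^ 2 = ξ * KK p z ξ
  bb : β ^ 2 = z * KK p z ξ
  ab : α * β = t * KK p z ξ
  xb : ξ * β = t * α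
  za : z * α = t * β

theorem NRel.map {p : Fin 7 → R} {t z ξ α β : R} (h : NRel p t z ξ α β) (φ : R →+* R') :
    NRel (fun i => φ (p i)) (φ t) (φ z) (φ ξ) (φ α) (φ β) where
  zx := by rw [← map_mul, h.zx, map_pow]
  aa := by rw [← map_pow, h.aa, map_mul, KK_map]
  bb := by rw [← map_pow, h.bb, map_mul, KK_map]
  ab := by rw [← map_mul, h.ab, map_mul, KK_map]
  xb := by rw [← map_mul, h.xb, map_mul]
  za := by rw [← map_mul, h.za, map_mul]

theorem NRel.swap {p p' : Fin 7 → R} (hp : ∀ i, p' i = p (Fin.rev i)) {t z ξ α β : R}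
    (h : NRel p t z ξ α β) : NRel p' t ξ z β α where
  zx := by rw [mul_comm, h.zx]
  aa := by rw [KK_swap hp, h.bb]
  bb := by rw [KK_swap hp, h.aa]
  ab := by rw [KK_swap hp, mul_comm, h.ab]
  xb := h.za
  za := h.xb

/-- From the chart `T` to the chart `N`. -/
theorem relT (p : Fin 7 → R) (t : R) {x xi y : R} (hx : x * xi = 1)
    (h : y ^ 2 = pol (pT p t) x) : NRel p t (t ^ 2 * x) xi (y * xi ^ 2) (t * (y * xi)) := by
  rw [pol_pT] at h
  have h2 : x ^ 2 * xi ^ 2 = 1 := by rw [← mul_pow, hx, one_pow]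
  have h3 : x ^ 3 * xi ^ 3 = 1 := by rw [← mul_pow, hx, one_pow]
  have hK : y ^ 2 * xi ^ 3 = KK p (t ^ 2 * x) xi := by
    rw [h]
    simp only [KK]
    linear_combination p 1 * xi ^ 2 * hx + p 2 * xi * h2 + p 3 * h3 +
      t ^ 2 * p 4 * x * h3 + t ^ 4 * p 5 * x ^ 2 * h3 + t ^ 6 * p 6 * x ^ 3 * h3
  refine ⟨?_, ?_, ?_, ?_, ?_, ?_⟩
  · linear_combination t ^ 2 * hx
  · rw [← hK]
    ring
  · rw [← hK]
    linear_combination -(t ^ 2 * y ^ 2 * xi ^ 2) * hx
  · rw [← hK]
    ring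
  · ring
  · linear_combination (t ^ 2 * y * xi) * hx

/-- From the chart `N` to the chart `T`. -/
theorem NRel.toT {p : Fin 7 → R} {t z ξ α β : R} (h : NRel p t z ξ α β) {x : R}
    (hx : x * ξ = 1) : (α * x ^ 2) ^ 2 = pol (pT p t) x := by
  have hz : z = t ^ 2 * x := by linear_combination x * h.zx - z * hx
  have h2 : x ^ 2 * ξ ^ 2 = 1 := by rw [← mul_pow, hx, one_pow]
  have h3 : x ^ 3 * ξ ^ 3 = 1 := by rw [← mul_pow, hx, one_pow]
  have h1 : (α * x ^ 2) ^ 2 = x ^ 3 * KK p z ξ := by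
    linear_combination x ^ 4 * h.aa + x ^ 3 * KK p z ξ * hx
  rw [h1, hz, pol_pT]
  simp only [KK]
  linear_combination p 2 * x ^ 2 * hx + p 1 * x * h2 + p 0 * h3

end basic

section ring

variable (B : Type) [CommRing B] (p : Fin 7 → B) (t : B)

/-- The ideal of the relations. -/
noncomputable def NI : Ideal (MvPolynomial (Fin 4) B) := Ideal.span
  {MvPolynomial.X 0 * MvPolynomial.X 1 - MvPolynomial.C t ^ 2,
    MvPolynomial.X 2 ^ 2 - MvPolynomial.X 1 *
      KK (fun i => MvPolynomial.C (p i)) (MvPolynomial.X 0) (MvPolynomial.X 1),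
    MvPolynomial.X 3 ^ 2 - MvPolynomial.X 0 *
      KK (fun i => MvPolynomial.C (p i)) (MvPolynomial.X 0) (MvPolynomial.X 1),
    MvPolynomial.X 2 * MvPolynomial.X 3 - MvPolynomial.C t *
      KK (fun i => MvPolynomial.C (p i)) (MvPolynomial.X 0) (MvPolynomial.X 1),
    MvPolynomial.X 1 * MvPolynomial.X 3 - MvPolynomial.C t * MvPolynomial.X 2,
    MvPolynomial.X 0 * MvPolynomial.X 2 - MvPolynomial.C t * MvPolynomial.X 3}

/-- The ring of the chart around the node. -/
abbrev NN : Type := MvPolynomial (Fin 4) B ⧸ NI B p t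

/-- `z` -/
noncomputable def zN : NN B p t := Ideal.Quotient.mk _ (MvPolynomial.X 0)
/-- `ξ` -/
noncomputable def xN : NN B p t := Ideal.Quotient.mk _ (MvPolynomial.X 1)
/-- `α` -/
noncomputable def aN : NN B p t := Ideal.Quotient.mk _ (MvPolynomial.X 2)
/-- `β` -/
noncomputable def bN : NN B p t := Ideal.Quotient.mk _ (MvPolynomial.X 3)

theorem relN : NRel (fun i => algebraMap B (NN B p t) (p i)) (algebraMap B (NN B p t) t)
    (zN B p t) (xN B p t) (aN B p t) (bN B p t) := by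
  have hK : Ideal.Quotient.mk (NI B p t)
      (KK (fun i => MvPolynomial.C (p i)) (MvPolynomial.X 0) (MvPolynomial.X 1)) =
      KK (fun i => algebraMap B (NN B p t) (p i)) (zN B p t) (xN B p t) := by
    rw [KK_map]
    rfl
  have key : ∀ q ∈ ({MvPolynomial.X 0 * MvPolynomial.X 1 - MvPolynomial.C t ^ 2,
    MvPolynomial.X 2 ^ 2 - MvPolynomial.X 1 *
      KK (fun i => MvPolynomial.C (p i)) (MvPolynomial.X 0) (MvPolynomial.X 1),
    MvPolynomial.X 3 ^ 2 - MvPolynomial.X 0 *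
      KK (fun i => MvPolynomial.C (p i)) (MvPolynomial.X 0) (MvPolynomial.X 1),
    MvPolynomial.X 2 * MvPolynomial.X 3 - MvPolynomial.C t *
      KK (fun i => MvPolynomial.C (p i)) (MvPolynomial.X 0) (MvPolynomial.X 1),
    MvPolynomial.X 1 * MvPolynomial.X 3 - MvPolynomial.C t * MvPolynomial.X 2,
    MvPolynomial.X 0 * MvPolynomial.X 2 - MvPolynomial.C t * MvPolynomial.X 3} :
      Set (MvPolynomial (Fin 4) B)), Ideal.Quotient.mk (NI B p t) q = 0 :=
    fun q hq => Ideal.Quotient.eq_zero_iff_mem.2 (Ideal.subset_span hq)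
  have hc : ∀ c : B, Ideal.Quotient.mk (NI B p t) (MvPolynomial.C c) = algebraMap B _ c :=
    fun c => rfl
  refine ⟨?_, ?_, ?_, ?_, ?_, ?_⟩
  · have h := key _ (by left; rfl)
    rw [map_sub, map_mul, map_pow, hc] at h
    exact sub_eq_zero.1 h
  · have h := key _ (by right; left; rfl)
    rw [map_sub, map_mul, map_pow, hK] at h
    exact sub_eq_zero.1 h
  · have h := key _ (by right; right; left; rfl)
    rw [map_sub, map_mul, map_pow, hK] at h
    exact sub_eq_zero.1 h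
  · have h := key _ (by right; right; right; left; rfl)
    rw [map_sub, map_mul, map_mul, hK, hc] at h
    exact sub_eq_zero.1 h
  · have h := key _ (by right; right; right; right; left; rfl)
    rw [map_sub, map_mul, map_mul, hc] at h
    exact sub_eq_zero.1 h
  · have h := key _ (by right; right; right; right; right; rfl)
    rw [map_sub, map_mul, map_mul, hc] at h
    exact sub_eq_zero.1 h

variable {B p t}

theorem killN {R : Type} [CommRing R] (φ : B →+* R) (z ξ α β : R)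
    (h : NRel (fun i => φ (p i)) (φ t) z ξ α β) (q : MvPolynomial (Fin 4) B)
    (hq : q ∈ NI B p t) : MvPolynomial.eval₂Hom φ ![z, ξ, α, β] q = 0 := by
  have hK : MvPolynomial.eval₂Hom φ ![z, ξ, α, β]
      (KK (fun i => MvPolynomial.C (p i)) (MvPolynomial.X 0) (MvPolynomial.X 1)) =
      KK (fun i => φ (p i)) z ξ := by
    rw [KK_map]
    simp
  have h0 : MvPolynomial.eval₂Hom φ ![z, ξ, α, β] (MvPolynomial.X 0) = z := by simp
  have h1 : MvPolynomial.eval₂Hom φ ![z, ξ, α, β] (MvPolynomial.X 1) = ξ := by simp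
  have h2 : MvPolynomial.eval₂Hom φ ![z, ξ, α, β] (MvPolynomial.X 2) = α := by simp
  have h3 : MvPolynomial.eval₂Hom φ ![z, ξ, α, β] (MvPolynomial.X 3) = β := by simp
  have hc : ∀ c : B, MvPolynomial.eval₂Hom φ ![z, ξ, α, β] (MvPolynomial.C c) = φ c :=
    fun c => by simp
  have : NI B p t ≤ RingHom.ker (MvPolynomial.eval₂Hom φ ![z, ξ, α, β]) := by
    rw [NI, Ideal.span_le]
    rintro q (rfl | rfl | rfl | rfl | rfl | rfl)
    · change MvPolynomial.eval₂Hom φ ![z, ξ, α, β] _ = 0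
      rw [map_sub, map_mul, map_pow, h0, h1, hc, h.zx, sub_self]
    · change MvPolynomial.eval₂Hom φ ![z, ξ, α, β] _ = 0
      rw [map_sub, map_mul, map_pow, hK, h1, h2, h.aa, sub_self]
    · change MvPolynomial.eval₂Hom φ ![z, ξ, α, β] _ = 0
      rw [map_sub, map_mul, map_pow, hK, h0, h3, h.bb, sub_self]
    · change MvPolynomial.eval₂Hom φ ![z, ξ, α, β] _ = 0
      rw [map_sub, map_mul, map_mul, hK, hc, h2, h3, h.ab, sub_self]
    · change MvPolynomial.eval₂Hom φ ![z, ξ, α, β] _ = 0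
      rw [map_sub, map_mul, map_mul, hc, h1, h2, h3, h.xb, sub_self]
    · change MvPolynomial.eval₂Hom φ ![z, ξ, α, β] _ = 0
      rw [map_sub, map_mul, map_mul, hc, h0, h2, h3, h.za, sub_self]
  exact this hq

/-- Homomorphisms from `N`. -/
noncomputable def liftN {R : Type} [CommRing R] (φ : B →+* R) (z ξ α β : R)
    (h : NRel (fun i => φ (p i)) (φ t) z ξ α β) : NN B p t →+* R :=
  Ideal.Quotient.lift _ (MvPolynomial.eval₂Hom φ ![z, ξ, α, β]) (killN φ z ξ α β h)

section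

variable {R : Type} [CommRing R] (φ : B →+* R)

@[simp]
theorem liftN_z (z ξ α β : R) (h : NRel (fun i => φ (p i)) (φ t) z ξ α β) :
    liftN φ z ξ α β h (zN B p t) = z :=
  (Ideal.Quotient.lift_mk _ _ _).trans (by simp)

@[simp]
theorem liftN_x (z ξ α β : R) (h : NRel (fun i => φ (p i)) (φ t) z ξ α β) :
    liftN φ z ξ α β h (xN B p t) = ξ :=
  (Ideal.Quotient.lift_mk _ _ _).trans (by simp)

@[simp]
theorem liftN_a (z ξ α β : R) (h : NRel (fun i => φ (p i)) (φ t) z ξ α β) :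
    liftN φ z ξ α β h (aN B p t) = α :=
  (Ideal.Quotient.lift_mk _ _ _).trans (by simp)

@[simp]
theorem liftN_b (z ξ α β : R) (h : NRel (fun i => φ (p i)) (φ t) z ξ α β) :
    liftN φ z ξ α β h (bN B p t) = β :=
  (Ideal.Quotient.lift_mk _ _ _).trans (by simp)

@[simp]
theorem liftN_c (z ξ α β : R) (h : NRel (fun i => φ (p i)) (φ t) z ξ α β) (c : B) :
    liftN φ z ξ α β h (algebraMap B _ c) = φ c :=
  (Ideal.Quotient.lift_mk (NI B p t) (MvPolynomial.eval₂Hom φ ![z, ξ, α, β])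
    (killN φ z ξ α β h) (a := MvPolynomial.C c)).trans (by simp)

theorem homN_ext {g g' : NN B p t →+* R} (h : ∀ c, g (algebraMap B _ c) = g' (algebraMap B _ c))
    (hz : g (zN B p t) = g' (zN B p t)) (hx : g (xN B p t) = g' (xN B p t))
    (ha : g (aN B p t) = g' (aN B p t)) (hb : g (bN B p t) = g' (bN B p t)) : g = g' := by
  refine Ideal.Quotient.ringHom_ext ?_
  refine MvPolynomial.ringHom_ext (fun c => h c) fun i => ?_
  fin_cases i
  · exact hz
  · exact hx
  · exact ha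
  · exact hb

end

/-! ### The symmetry -/

section swap

variable {p p' : Fin 7 → B} (h : ∀ i, p' i = p (Fin.rev i)) (h' : ∀ i, p i = p' (Fin.rev i))

include h' in
theorem relSw : NRel (fun i => algebraMap B (NN B p' t) (p i)) (algebraMap B (NN B p' t) t)
    (xN B p' t) (zN B p' t) (bN B p' t) (aN B p' t) :=
  (relN B p' t).swap fun i => by rw [h' i]

/-- The symmetry `z ↔ ξ`, `α ↔ β`. -/
noncomputable def swN (t : B) : NN B p t →+* NN B p' t :=
  liftN (algebraMap B (NN B p' t)) (xN B p' t) (zN B p' t) (bN B p' t) (aN B p' t) (relSw h')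

@[simp]
theorem swN_z : swN h' t (zN B p t) = xN B p' t := liftN_z _ _ _ _ _ _

@[simp]
theorem swN_x : swN h' t (xN B p t) = zN B p' t := liftN_x _ _ _ _ _ _

@[simp]
theorem swN_a : swN h' t (aN B p t) = bN B p' t := liftN_a _ _ _ _ _ _

@[simp]
theorem swN_b : swN h' t (bN B p t) = aN B p' t := liftN_b _ _ _ _ _ _

@[simp]
theorem swN_c (c : B) : swN h' t (algebraMap B _ c) = algebraMap B _ c := liftN_c _ _ _ _ _ _ _

theorem swN_swN : (swN h t).comp (swN h' t) = RingHom.id (NN B p t) := by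
  refine homN_ext ?_ ?_ ?_ ?_ ?_
  · intro c
    simp
  all_goals simp

/-- The symmetry as an isomorphism. -/
noncomputable def swEquiv (t : B) : NN B p t ≃+* NN B p' t :=
  RingEquiv.ofRingHom (swN h' t) (swN h t) (swN_swN h' h) (swN_swN h h')

end swap

/-! ### The intersections of the charts -/

variable (B p t)

theorem relnT : NRel (fun i => algebraMap B (A12 B (pT p t)) (p i))
    (algebraMap B (A12 B (pT p t)) t)
    (algebraMap B (A12 B (pT p t)) t ^ 2 * (xu B (pT p t) : A12 B (pT p t)))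
    ((xu B (pT p t))⁻¹ : (A12 B (pT p t))ˣ).val
    (yv B (pT p t) * ((xu B (pT p t))⁻¹ : (A12 B (pT p t))ˣ).val ^ 2)
    (algebraMap B (A12 B (pT p t)) t *
      (yv B (pT p t) * ((xu B (pT p t))⁻¹ : (A12 B (pT p t))ˣ).val)) := by
  refine relT _ _ (Units.mul_inv _) ?_
  rw [rel12]
  congr 1
  funext i
  exact pT_map _ _ _ _

/-- Restriction from `N` to `N ∩ T`. -/
noncomputable def nT : NN B p t →+* A12 B (pT p t) :=
  liftN (algebraMap B (A12 B (pT p t)))
    (algebraMap B (A12 B (pT p t)) t ^ 2 * (xu B (pT p t) : A12 B (pT p t)))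
    ((xu B (pT p t))⁻¹ : (A12 B (pT p t))ˣ).val
    (yv B (pT p t) * ((xu B (pT p t))⁻¹ : (A12 B (pT p t))ˣ).val ^ 2)
    (algebraMap B (A12 B (pT p t)) t *
      (yv B (pT p t) * ((xu B (pT p t))⁻¹ : (A12 B (pT p t))ˣ).val))
    (relnT B p t)

@[simp]
theorem nT_z : nT B p t (zN B p t) =
    algebraMap B (A12 B (pT p t)) t ^ 2 * (xu B (pT p t) : A12 B (pT p t)) :=
  liftN_z _ _ _ _ _ _

@[simp]
theorem nT_x : nT B p t (xN B p t) = ((xu B (pT p t))⁻¹ : (A12 B (pT p t))ˣ).val :=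
  liftN_x _ _ _ _ _ _

@[simp]
theorem nT_a : nT B p t (aN B p t) =
    yv B (pT p t) * ((xu B (pT p t))⁻¹ : (A12 B (pT p t))ˣ).val ^ 2 :=
  liftN_a _ _ _ _ _ _

@[simp]
theorem nT_b : nT B p t (bN B p t) = algebraMap B (A12 B (pT p t)) t *
    (yv B (pT p t) * ((xu B (pT p t))⁻¹ : (A12 B (pT p t))ˣ).val) :=
  liftN_b _ _ _ _ _ _

@[simp]
theorem nT_c (c : B) : nT B p t (algebraMap B _ c) = algebraMap B _ c := liftN_c _ _ _ _ _ _ _

/-- The localisation of `N` at `ξ`. -/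
abbrev LN : Type := Localization.Away (xN B p t)

/-- `1/ξ` -/
noncomputable def xiu : (LN B p t)ˣ :=
  (IsLocalization.Away.algebraMap_isUnit (S := LN B p t) (xN B p t)).unit⁻¹

theorem xiu_inv : (((xiu B p t)⁻¹ : (LN B p t)ˣ) : LN B p t) =
    algebraMap (NN B p t) (LN B p t) (xN B p t) := by
  rw [xiu, inv_inv]
  rfl

theorem relLN : (algebraMap (NN B p t) (LN B p t) (aN B p t) * (xiu B p t : LN B p t) ^ 2) ^ 2 =
    pol (fun i => algebraMap B (LN B p t) (pT p t i)) (xiu B p t : LN B p t) := by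
  have h := ((relN B p t).map (algebraMap (NN B p t) (LN B p t))).toT
    (x := (xiu B p t : LN B p t)) (by rw [← xiu_inv, Units.mul_inv])
  rw [h]
  congr 1
  funext i
  exact (pT_map (algebraMap B (LN B p t)) p t i).symm

/-- The inverse comparison. -/
noncomputable def nTi : A12 B (pT p t) →+* LN B p t :=
  lift12 (algebraMap B (LN B p t)) (xiu B p t)
    (algebraMap (NN B p t) (LN B p t) (aN B p t) * (xiu B p t : LN B p t) ^ 2) (relLN B p t)

@[simp]
theorem nTi_x : nTi B p t (xu B (pT p t) : A12 B (pT p t)) = xiu B p t := lift12_x _ _ _ _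

@[simp]
theorem nTi_xi : nTi B p t ((xu B (pT p t))⁻¹ : (A12 B (pT p t))ˣ).val =
    algebraMap (NN B p t) (LN B p t) (xN B p t) := by
  rw [nTi, lift12_xi, xiu_inv]

@[simp]
theorem nTi_y : nTi B p t (yv B (pT p t)) =
    algebraMap (NN B p t) (LN B p t) (aN B p t) * (xiu B p t : LN B p t) ^ 2 :=
  lift12_y _ _ _ _

@[simp]
theorem nTi_c (c : B) : nTi B p t (algebraMap B _ c) = algebraMap B _ c := lift12_b _ _ _ _ _

theorem nTi_nT : (nTi B p t).comp (nT B p t) = algebraMap (NN B p t) (LN B p t) := by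
  have hx : algebraMap (NN B p t) (LN B p t) (xN B p t) * (xiu B p t : LN B p t) = 1 := by
    rw [← xiu_inv, Units.inv_mul]
  have ht : algebraMap B (LN B p t) t = algebraMap (NN B p t) (LN B p t) (algebraMap B _ t) := rfl
  have hzx := congrArg (algebraMap (NN B p t) (LN B p t)) (relN B p t).zx
  have hxb := congrArg (algebraMap (NN B p t) (LN B p t)) (relN B p t).xb
  rw [map_mul, map_pow] at hzx
  rw [map_mul, map_mul] at hxb
  refine homN_ext ?_ ?_ ?_ ?_ ?_
  · intro c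
    rw [RingHom.comp_apply, nT_c, nTi_c]
    rfl
  · rw [RingHom.comp_apply, nT_z, map_mul, map_pow, nTi_c, nTi_x, ht, ← hzx, mul_assoc, hx,
      mul_one]
  · rw [RingHom.comp_apply, nT_x, nTi_xi]
  · rw [RingHom.comp_apply, nT_a, map_mul, map_pow, nTi_y, nTi_xi, mul_assoc, ← mul_pow,
      mul_comm (xiu B p t : LN B p t), hx, one_pow, mul_one]
  · rw [RingHom.comp_apply, nT_b, map_mul, map_mul, nTi_c, nTi_y, nTi_xi, ht]
    linear_combination -(xiu B p t : LN B p t) ^ 2 *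
      algebraMap (NN B p t) (LN B p t) (xN B p t) * hxb +
      algebraMap (NN B p t) (LN B p t) (bN B p t) *
        (algebraMap (NN B p t) (LN B p t) (xN B p t) * (xiu B p t : LN B p t) + 1) * hx

theorem nT_unit : IsUnit (nT B p t (xN B p t)) := by
  rw [nT_x]
  exact Units.isUnit _

/-- The comparison. -/
noncomputable def nTc : LN B p t →+* A12 B (pT p t) :=
  IsLocalization.Away.lift (xN B p t) (nT_unit B p t)

theorem nTc_alg (v : NN B p t) : nTc B p t (algebraMap (NN B p t) (LN B p t) v) = nT B p t v :=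
  IsLocalization.Away.lift_eq _ _ _

theorem nTc_xiu : nTc B p t (xiu B p t : LN B p t) = (xu B (pT p t) : A12 B (pT p t)) := by
  have h1 : nTc B p t (xiu B p t : LN B p t) *
      nTc B p t (algebraMap (NN B p t) (LN B p t) (xN B p t)) = 1 := by
    rw [← map_mul, ← xiu_inv, Units.mul_inv, map_one]
  rw [nTc_alg, nT_x] at h1
  have h2 : (xu B (pT p t) : A12 B (pT p t)) *
    ((xu B (pT p t))⁻¹ : (A12 B (pT p t))ˣ).val = 1 := Units.mul_inv _
  exact (Units.isUnit (xu B (pT p t))⁻¹).mul_left_injective (h1.trans h2.symm)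

theorem nTc_nTi : (nTc B p t).comp (nTi B p t) = RingHom.id _ := by
  refine hom12_ext ?_ ?_ ?_
  · intro c
    rw [RingHom.comp_apply, nTi_c, RingHom.id_apply]
    exact (nTc_alg B p t (algebraMap B _ c)).trans (nT_c B p t c)
  · rw [RingHom.comp_apply, nTi_x, nTc_xiu, RingHom.id_apply]
  · rw [RingHom.comp_apply, nTi_y, map_mul, map_pow, nTc_alg, nTc_xiu, nT_a, RingHom.id_apply,
      mul_assoc, ← mul_pow, Units.inv_mul, one_pow, mul_one]

theorem nTi_nTc : (nTi B p t).comp (nTc B p t) = RingHom.id _ := by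
  refine IsLocalization.ringHom_ext (Submonoid.powers (xN B p t)) ?_
  refine RingHom.ext fun v => ?_
  change nTi B p t (nTc B p t (algebraMap (NN B p t) (LN B p t) v)) = _
  rw [nTc_alg]
  exact congrArg (fun g => g v) (nTi_nT B p t)

/-- The comparison isomorphism. -/
noncomputable def nTe : LN B p t ≃+* A12 B (pT p t) :=
  RingEquiv.ofRingHom (nTc B p t) (nTi B p t) (nTc_nTi B p t) (nTi_nTc B p t)

/-- `N ∩ T` is the localisation of `N` at `ξ`. -/
theorem nT_loc : @IsLocalization.Away _ _ (xN B p t) (A12 B (pT p t)) _ (nT B p t).toAlgebra := by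
  letI := (nT B p t).toAlgebra
  refine IsLocalization.isLocalization_of_algEquiv (Submonoid.powers (xN B p t))
    (S := LN B p t) ⟨(nTe B p t).toEquiv, (nTe B p t).map_mul, (nTe B p t).map_add, ?_⟩
  intro v
  exact nTc_alg B p t v

instance openNT : IsOpenImmersion (spMap (nT B p t)) := by
  have h1 : nT B p t = (nTe B p t : LN B p t →+* A12 B (pT p t)).comp
      (algebraMap (NN B p t) (LN B p t)) :=
    RingHom.ext fun v => (nTc_alg B p t v).symm
  have h2 : spMap (nT B p t) = spMap (nTe B p t : LN B p t →+* A12 B (pT p t)) ≫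
      spMap (algebraMap (NN B p t) (LN B p t)) := by
    rw [h1]
    exact Spec.map_comp (CommRingCat.ofHom (algebraMap (NN B p t) (LN B p t)))
      (CommRingCat.ofHom (nTe B p t : LN B p t →+* A12 B (pT p t)))
  have h3 : IsIso (spMap (nTe B p t : LN B p t →+* A12 B (pT p t))) := by
    have : IsIso (CommRingCat.ofHom (nTe B p t : LN B p t →+* A12 B (pT p t))) :=
      (RingEquiv.toCommRingCatIso (nTe B p t)).isIso_hom
    infer_instance
  rw [h2]
  infer_instance

/-- The range of `N ∩ T` in `N`. -/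
theorem range_nT (x : Sp (NN B p t)) :
    x ∈ Set.range (spMap (nT B p t)) ↔ xN B p t ∉ x.asIdeal := by
  letI := (nT B p t).toAlgebra
  haveI := nT_loc B p t
  have h : Set.range (PrimeSpectrum.comap (algebraMap (NN B p t) (A12 B (pT p t)))) =
      (PrimeSpectrum.basicOpen (xN B p t) : Set _) :=
    PrimeSpectrum.localization_away_comap_range (A12 B (pT p t)) (xN B p t)
  change x ∈ Set.range (PrimeSpectrum.comap (algebraMap (NN B p t) (A12 B (pT p t)))) ↔ _
  rw [h]
  rfl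

/-- The range of `T[1/X]` in `T`. -/
theorem range_g1 {f : Fin 7 → B} (x : Sp (A1 B f)) :
    x ∈ Set.range (spMap (g1 B f)) ↔ x1 B f ∉ x.asIdeal := by
  have h : Set.range (PrimeSpectrum.comap (algebraMap (A1 B f) (A12 B f))) =
      (PrimeSpectrum.basicOpen (x1 B f) : Set _) :=
    PrimeSpectrum.localization_away_comap_range (A12 B f) (x1 B f)
  change x ∈ Set.range (PrimeSpectrum.comap (algebraMap (A1 B f) (A12 B f))) ↔ _
  rw [h]
  rfl

/-! ### The intersection of `N` and `Q` -/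

/-- Restriction from `N` to `N ∩ Q`. -/
noncomputable def nQ : NN B p t →+* A12 B (pT (rev p) t) :=
  (nT B (rev p) t).comp (swN (rev_h p) t)

@[simp]
theorem nQ_z : nQ B p t (zN B p t) =
    ((xu B (pT (rev p) t))⁻¹ : (A12 B (pT (rev p) t))ˣ).val := by
  rw [nQ, RingHom.comp_apply, swN_z, nT_x]

@[simp]
theorem nQ_x : nQ B p t (xN B p t) =
    algebraMap B (A12 B (pT (rev p) t)) t ^ 2 *
      (xu B (pT (rev p) t) : A12 B (pT (rev p) t)) := by
  rw [nQ, RingHom.comp_apply, swN_x, nT_z]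

@[simp]
theorem nQ_b : nQ B p t (bN B p t) =
    yv B (pT (rev p) t) * ((xu B (pT (rev p) t))⁻¹ : (A12 B (pT (rev p) t))ˣ).val ^ 2 := by
  rw [nQ, RingHom.comp_apply, swN_b, nT_a]

@[simp]
theorem nQ_a : nQ B p t (aN B p t) = algebraMap B (A12 B (pT (rev p) t)) t *
    (yv B (pT (rev p) t) * ((xu B (pT (rev p) t))⁻¹ : (A12 B (pT (rev p) t))ˣ).val) := by
  rw [nQ, RingHom.comp_apply, swN_a, nT_b]

@[simp]
theorem nQ_c (c : B) : nQ B p t (algebraMap B _ c) = algebraMap B _ c := by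
  rw [nQ, RingHom.comp_apply, swN_c, nT_c]

instance openNQ : IsOpenImmersion (spMap (nQ B p t)) := by
  have h2 : spMap (nQ B p t) = spMap (nT B (rev p) t) ≫
      spMap (swEquiv (rev_h' p) (rev_h p) t : NN B p t →+* NN B (rev p) t) :=
    Spec.map_comp (CommRingCat.ofHom (swEquiv (rev_h' p) (rev_h p) t :
      NN B p t →+* NN B (rev p) t)) (CommRingCat.ofHom (nT B (rev p) t))
  have h3 : IsIso (spMap (swEquiv (rev_h' p) (rev_h p) t : NN B p t →+* NN B (rev p) t)) := by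
    have : IsIso (CommRingCat.ofHom (swEquiv (rev_h' p) (rev_h p) t :
        NN B p t →+* NN B (rev p) t)) :=
      (RingEquiv.toCommRingCatIso (swEquiv (rev_h' p) (rev_h p) t)).isIso_hom
    infer_instance
  rw [h2]
  infer_instance

/-- `N ∩ Q` is the localisation of `N` at `z`. -/
theorem nQ_loc : @IsLocalization.Away _ _ (zN B p t) (A12 B (pT (rev p) t)) _
    (nQ B p t).toAlgebra := by
  letI := (nT B (rev p) t).toAlgebra
  haveI := nT_loc B (rev p) t
  have h := IsLocalization.isLocalization_of_base_ringEquiv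
    (Submonoid.powers (xN B (rev p) t)) (A12 B (pT (rev p) t))
    (swEquiv (rev_h' p) (rev_h p) t).symm
  rw [Submonoid.map_powers] at h
  have h1 : (swEquiv (rev_h' p) (rev_h p) t).symm (xN B (rev p) t) = zN B p t :=
    swN_x (rev_h' p)
  exact h1 ▸ h

/-- The range of `N ∩ Q` in `N`. -/
theorem range_nQ (x : Sp (NN B p t)) :
    x ∈ Set.range (spMap (nQ B p t)) ↔ zN B p t ∉ x.asIdeal := by
  letI := (nQ B p t).toAlgebra
  haveI := nQ_loc B p t
  have h : Set.range (PrimeSpectrum.comap (algebraMap (NN B p t) (A12 B (pT (rev p) t)))) =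
      (PrimeSpectrum.basicOpen (zN B p t) : Set _) :=
    PrimeSpectrum.localization_away_comap_range (A12 B (pT (rev p) t)) (zN B p t)
  change x ∈ Set.range (PrimeSpectrum.comap (algebraMap (NN B p t) (A12 B (pT (rev p) t)))) ↔ _
  rw [h]
  rfl

end ring

end Pool.Agent.MG.H2


end

section

/-!
# HBC: the base change square of the curves `y² = f(x)`
-/

open CategoryTheory CategoryTheory.Limits AlgebraicGeometry TensorProduct

namespace Pool.Agent.MG.H2.HBC

open PrimeSpectrum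

section

variable (B : Type) [CommRing B] (f : Fin 7 → B)

/-- The range of the intersection in the first chart. -/
theorem range_g1 (x : Sp (A1 B f)) :
    x ∈ Set.range (spMap (g1 B f)) ↔ x1 B f ∉ x.asIdeal := by
  have h : Set.range (PrimeSpectrum.comap (algebraMap (A1 B f) (A12 B f))) =
      (PrimeSpectrum.basicOpen (x1 B f) : Set _) :=
    PrimeSpectrum.localization_away_comap_range (A12 B f) (x1 B f)
  change x ∈ Set.range (PrimeSpectrum.comap (algebraMap (A1 B f) (A12 B f))) ↔ _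
  rw [h]
  rfl

/-- The range of the intersection in the chart at infinity. -/
theorem range_g2 (y : Sp (A2 B f)) :
    y ∈ Set.range (spMap (g2 B f)) ↔ x1 B (rev f) ∉ y.asIdeal := by
  rw [← range_g1 B (rev f) y]
  have h1 : g2 B f = (invEquiv (rev_h f) (rev_h' f) : A12 B (rev f) →+* A12 B f).comp
      (g1 B (rev f)) := rfl
  have h2 : Set.range (PrimeSpectrum.comap (g2 B f)) =
      Set.range (PrimeSpectrum.comap (g1 B (rev f))) := by
    rw [h1, PrimeSpectrum.comap_comp]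
    have h3 : Function.Surjective (PrimeSpectrum.comap
        (invEquiv (rev_h f) (rev_h' f) : A12 B (rev f) →+* A12 B f)) :=
      (PrimeSpectrum.comapEquiv (invEquiv (rev_h f) (rev_h' f))).symm.surjective
    exact h3.range_comp _
  change y ∈ Set.range (PrimeSpectrum.comap (g2 B f)) ↔
    y ∈ Set.range (PrimeSpectrum.comap (g1 B (rev f)))
  rw [h2]

end

section

variable {B B' : Type} [CommRing B] [CommRing B'] (φ : B →+* B') {f : Fin 7 → B}
  {f' : Fin 7 → B'}

theorem sq1 (hf : ∀ i, f' i = φ (f i)) :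
    IsPullback (spMap (bc1 φ hf)) (spMap (algebraMap B' (A1 B' f')))
      (spMap (algebraMap B (A1 B f))) (spMap φ) := by
  apply spec_isPullback
  · exact RingHom.ext fun c => bc1_b φ hf c
  · intro T _ F G h
    have hc : ∀ c, F (algebraMap B _ c) = G (φ c) := fun c => congrArg (fun H => H c) h
    have hr := congrArg F (rel1 B f)
    rw [map_pow, pol_map] at hr
    simp only [hc] at hr
    refine ⟨lift1 G (F (x1 B f)) (F (y1 B f)) (by rw [hr]; simp only [hf]), ?_, ?_⟩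
    · refine hom1_ext ?_ ?_ ?_
      · intro c
        rw [RingHom.comp_apply, bc1_b, lift1_b, hc]
      · rw [RingHom.comp_apply, bc1_x, lift1_x]
      · rw [RingHom.comp_apply, bc1_y, lift1_y]
    · refine RingHom.ext fun c => ?_
      rw [RingHom.comp_apply, lift1_b]
  · intro T _ k k' h1 h2
    refine hom1_ext ?_ ?_ ?_
    · exact fun c => congrArg (fun F => F c) h2
    · have := congrArg (fun F => F (x1 B f)) h1
      simpa using this
    · have := congrArg (fun F => F (y1 B f)) h1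
      simpa using this

theorem sq2 (hf : ∀ i, f' i = φ (f i)) :
    IsPullback (spMap (bc2 φ hf)) (spMap (algebraMap B' (A2 B' f')))
      (spMap (algebraMap B (A2 B f))) (spMap φ) :=
  sq1 φ (rev_bc φ hf)

end

end Pool.Agent.MG.H2.HBC

namespace Pool.Agent.MG.H2

/-- The base change square. -/
theorem t_HBC : Stmt_HBC := by
  intro B B' _ _ φ f f' hf
  refine cart_two (HX.in1_map φ hf) (HX.in2_map φ hf)
    (glue2_surj (spMap (g1 B f)) (spMap (g2 B f)))
    (glue2_surj (spMap (g1 B' f')) (spMap (g2 B' f'))) ?_ ?_ ?_ ?_ (HX.map_pr φ hf)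
  · intro y hy
    obtain ⟨x, hx⟩ := hy
    obtain ⟨w, -, hw⟩ := glue2_eq (spMap (g1 B f)) (spMap (g2 B f)) x _ hx
    have h1 := (HBC.range_g2 B f _).1 ⟨w, hw⟩
    have h2 : x1 B' (rev f') ∉ y.asIdeal := by
      intro h3
      apply h1
      change bc2 φ hf (x1 B (rev f)) ∈ y.asIdeal
      rwa [bc2_u]
    obtain ⟨w', hw'⟩ := (HBC.range_g2 B' f' y).2 h2
    refine ⟨spMap (g1 B' f') w', ?_⟩
    rw [← hw', ← Scheme.Hom.comp_apply, ← Scheme.Hom.comp_apply]
    exact congrArg (fun (ψ : Sp (A12 B' f') ⟶ HX B' f') => ψ w')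
      (pushout.condition (f := spMap (g1 B' f')) (g := spMap (g2 B' f')))
  · intro x hx
    obtain ⟨y, hy⟩ := hx
    obtain ⟨w, hw, -⟩ := glue2_eq (spMap (g1 B f)) (spMap (g2 B f)) _ y hy.symm
    have h1 := (HBC.range_g1 B f _).1 ⟨w, hw⟩
    have h2 : x1 B' f' ∉ x.asIdeal := by
      intro h3
      apply h1
      change bc1 φ hf (x1 B f) ∈ x.asIdeal
      rwa [bc1_x]
    obtain ⟨w', hw'⟩ := (HBC.range_g1 B' f' x).2 h2
    refine ⟨spMap (g2 B' f') w', ?_⟩
    rw [← hw', ← Scheme.Hom.comp_apply, ← Scheme.Hom.comp_apply]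
    exact congrArg (fun (ψ : Sp (A12 B' f') ⟶ HX B' f') => ψ w')
      (pushout.condition (f := spMap (g1 B' f')) (g := spMap (g2 B' f'))).symm
  · rw [HX.in1_pr, HX.in1_pr]
    exact HBC.sq1 φ hf
  · rw [HX.in2_pr, HX.in2_pr]
    exact HBC.sq2 φ hf

end Pool.Agent.MG.H2


end
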