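import Mathlib

/-! Parts: MG.Two2.AlgDefs, MG.H2.GoodLem, MG.Two2.Alg1, MG.Two2.Alg2, MG.Two2.Alg3, MG.Two2.Alg4, MG.Two2.Alg5, MG.Two2.Alg6, MG.Two2.Alg7, MG.Two2.Alg8 -/

section

/-!
# Pure algebra part of the case `(g, n) = (2, 0)`: the data and the statement

`f` is a polynomial of degree at most six without double roots on the projective line, `q` a
polynomial of degree at most two, and `S f q` is the value of a regular function at the curve
`y² = f(x)` and the covector which belongs to `q`.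
-/

open Polynomial

namespace Pool.Agent.MG.Two2

/-- `f` has degree at most six and no double root on the projective line (the point at infinity
included), at every point of `Spec B`. -/
structure Good {B : Type} [CommRing B] (f : B[X]) : Prop where
  deg : f.natDegree ≤ 6
  cop : IsCoprime f (derivative f)
  cop' : IsCoprime (f.reflect 6) (derivative (f.reflect 6))

/-- The data of `S f q` over all commutative `k`-algebras. -/
structure Dat (k : Type) [Field k] where
  /-- the value -/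
  S : ∀ (B : Type) [CommRing B] [Algebra k B], B[X] → B[X] → B
  nat : ∀ (B B' : Type) [CommRing B] [Algebra k B] [CommRing B'] [Algebra k B'] (φ : B →ₐ[k] B')
    (f q : B[X]), Good f → q.natDegree ≤ 2 →
    S B' (f.map (φ : B →+* B')) (q.map (φ : B →+* B')) = φ (S B f q)
  scal : ∀ (B : Type) [CommRing B] [Algebra k B] (u : B) (f q : B[X]), IsUnit u → Good f →
    q.natDegree ≤ 2 → S B (C (u ^ 2) * f) (C (u ^ 2) * q) = S B f q
  trans : ∀ (B : Type) [CommRing B] [Algebra k B] (t : B) (f q : B[X]), Good f →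
    q.natDegree ≤ 2 → S B (f.comp (X + C t)) (q.comp (X + C t)) = S B f q
  inv : ∀ (B : Type) [CommRing B] [Algebra k B] (f q : B[X]), Good f →
    q.natDegree ≤ 2 → S B (f.reflect 6) (q.reflect 2) = S B f q
  reg : ∀ (B K : Type) [CommRing B] [IsDomain B] [Field K] [Algebra k B] [Algebra k K]
    (φ : B →ₐ[k] K), Function.Injective φ → ∀ (s : B) (ρ r e : Fin 3 → B), s ≠ 0 →
    (∀ i j, i ≠ j → IsUnit (ρ i - ρ j)) → (∀ i j, i ≠ j → IsUnit (r i - r j)) →
    (∀ j, IsUnit (r j)) → (∀ i j, IsUnit (r j - s ^ 2 * ρ i)) →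
    ∃ b : B, S K
      (((∏ i, (X - C (s ^ 2 * ρ i))) * ∏ j, (X - C (r j)) : B[X]).map (φ : B →+* K))
      ((C (s ^ 2 * e 0) + C (s * e 1) * X + C (e 2) * X ^ 2 : B[X]).map (φ : B →+* K)) = φ b

/-- `S` is constant. -/
def Alg_Stmt : Prop :=
  ∀ (k : Type) [Field k] [Infinite k] (D : Dat k), ∃ c : k,
    ∀ (K : Type) [Field K] [IsAlgClosed K] [Algebra k K] (f q : K[X]), Good f →
      q.natDegree ≤ 2 → D.S K f q = algebraMap k K c

end Pool.Agent.MG.Two2


end

section

/-!
# Polynomials of degree at most six without double roots on the projective line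
-/

open Polynomial

namespace Pool.Agent.MG.Two2

theorem isCoprime_iff_pts {B : Type} [CommRing B] (p q : B[X]) :
    IsCoprime p q ↔ ∀ (K : Type) [Field K] (ψ : B →+* K) (a : K),
      ¬(p.eval₂ ψ a = 0 ∧ q.eval₂ ψ a = 0) := by
  constructor
  · rintro ⟨u, v, h⟩ K _ ψ a ⟨h1, h2⟩
    have := congrArg (eval₂ ψ a) h
    rw [eval₂_add, eval₂_mul, eval₂_mul, h1, h2, mul_zero, mul_zero, add_zero, eval₂_one] at this
    exact zero_ne_one this
  · intro h
    by_contra hc
    have hne : Ideal.span {p, q} ≠ ⊤ := by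
      intro ht
      have h1 : (1 : B[X]) ∈ Ideal.span {p, q} := by rw [ht]; trivial
      obtain ⟨u, v, huv⟩ := Ideal.mem_span_pair.1 h1
      exact hc ⟨u, v, huv⟩
    obtain ⟨m, hm, hle⟩ := Ideal.exists_le_maximal _ hne
    letI : Field (B[X] ⧸ m) := Ideal.Quotient.field m
    have key : ∀ r : B[X], eval₂ ((Ideal.Quotient.mk m).comp C) (Ideal.Quotient.mk m X) r =
        Ideal.Quotient.mk m r := by
      intro r
      rw [← Polynomial.hom_eval₂, eval₂_C_X]
    refine h (B[X] ⧸ m) ((Ideal.Quotient.mk m).comp C) (Ideal.Quotient.mk m X) ⟨?_, ?_⟩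
    · rw [key, Ideal.Quotient.eq_zero_iff_mem]
      exact hle (Ideal.subset_span (by simp))
    · rw [key, Ideal.Quotient.eq_zero_iff_mem]
      exact hle (Ideal.subset_span (by simp))

theorem X_mul_derivative_reflect {B : Type} [CommRing B] (g : B[X]) (hg : g.natDegree ≤ 6) :
    X * derivative (g.reflect 6) = C 6 * g.reflect 6 - (X * derivative g).reflect 6 := by
  ext n
  rw [coeff_sub, coeff_C_mul, coeff_reflect, coeff_reflect]
  by_cases hn : n ≤ 6
  · rw [revAt_le hn]
    rcases n with _ | n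
    · rw [mul_coeff_zero, coeff_X_zero, zero_mul]
      rw [show 6 - 0 = 5 + 1 from rfl, coeff_X_mul, coeff_derivative]
      push_cast
      ring
    · rw [coeff_X_mul, coeff_derivative, coeff_reflect, revAt_le hn]
      obtain ⟨m, hm⟩ : ∃ m, 6 - (n + 1) = m := ⟨_, rfl⟩
      have hn6 : (n : B) + 1 = 6 - m := by
        have : n + 1 + m = 6 := by omega
        have h2 : ((n + 1 + m : ℕ) : B) = 6 := by rw [this]; norm_num
        push_cast at h2
        rw [← h2]
        ring
      rw [hm, hn6]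
      rcases m with _ | m
      · rw [mul_coeff_zero, coeff_X_zero, zero_mul]
        push_cast
        ring
      · rw [coeff_X_mul, coeff_derivative]
        push_cast
        ring
  · have h1 : revAt 6 n = n := revAt_eq_self_of_lt (by omega)
    rw [h1]
    obtain ⟨n, rfl⟩ : ∃ k, n = k + 1 := ⟨n - 1, by omega⟩
    rw [coeff_X_mul, coeff_X_mul, coeff_derivative, coeff_derivative, coeff_reflect, h1,
      coeff_eq_zero_of_natDegree_lt (by omega)]
    ring

theorem good_iff {B : Type} [CommRing B] (f : B[X]) :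
    Good f ↔ f.natDegree ≤ 6 ∧ ∀ (K : Type) [Field K] (ψ : B →+* K),
      5 ≤ (f.map ψ).natDegree ∧ (f.map ψ).Separable := by
  constructor
  · intro h
    refine ⟨h.deg, fun K _ ψ => ⟨?_, ?_⟩⟩
    · by_contra hlt
      have h6 : ψ (f.coeff 6) = 0 := by
        rw [← coeff_map]
        exact coeff_eq_zero_of_natDegree_lt (by omega)
      have h5 : ψ (f.coeff 5) = 0 := by
        rw [← coeff_map]
        exact coeff_eq_zero_of_natDegree_lt (by omega)
      refine (isCoprime_iff_pts _ _).1 h.cop' K ψ 0 ⟨?_, ?_⟩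
      · rw [← eval_map, ← coeff_zero_eq_eval_zero, coeff_map, coeff_reflect]
        exact h6
      · rw [← eval_map, ← coeff_zero_eq_eval_zero, coeff_map, coeff_derivative, coeff_reflect,
          map_mul]
        rw [show revAt 6 (0 + 1) = 5 from rfl, h5, zero_mul]
    · have := h.cop.map (mapRingHom ψ)
      rw [coe_mapRingHom, ← derivative_map] at this
      exact this
  · rintro ⟨hd, h⟩
    refine ⟨hd, ?_, ?_⟩
    · rw [isCoprime_iff_pts]
      rintro K _ ψ a ⟨h1, h2⟩
      obtain ⟨u, v, huv⟩ := (h K ψ).2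
      have := congrArg (eval a) huv
      rw [eval_add, eval_mul, eval_mul, derivative_map, eval_map, eval_map, h1, h2, mul_zero,
        mul_zero, add_zero, eval_one] at this
      exact zero_ne_one this
    · rw [isCoprime_iff_pts]
      rintro K _ ψ a ⟨h1, h2⟩
      have hdg : (f.map ψ).natDegree ≤ 6 := natDegree_map_le.trans hd
      rw [← eval_map, ← reflect_map] at h1
      rw [← eval_map, ← derivative_map, ← reflect_map] at h2
      by_cases ha : a = 0
      · subst ha
        rw [← coeff_zero_eq_eval_zero, coeff_reflect] at h1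
        rw [← coeff_zero_eq_eval_zero, coeff_derivative, coeff_reflect] at h2
        rw [show revAt 6 0 = 6 from rfl] at h1
        rw [show revAt 6 (0 + 1) = 5 from rfl] at h2
        have h3 : (f.map ψ).coeff 5 = 0 := by simpa using h2
        have h5 := (h K ψ).1
        have h6 : (f.map ψ).natDegree = 5 ∨ (f.map ψ).natDegree = 6 := by omega
        have hne : f.map ψ ≠ 0 := (h K ψ).2.ne_zero
        rcases h6 with h6 | h6
        · have := leadingCoeff_ne_zero.2 hne
          rw [leadingCoeff, h6] at this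
          exact this h3
        · have := leadingCoeff_ne_zero.2 hne
          rw [leadingCoeff, h6] at this
          exact this h1
      · have key := congrArg (eval a) (X_mul_derivative_reflect (f.map ψ) hdg)
        rw [eval_mul, eval_X, h2, mul_zero, eval_sub, eval_mul, h1, mul_zero, zero_sub] at key
        have hX : (X * derivative (f.map ψ)).natDegree ≤ 6 := by
          refine (natDegree_mul_le).trans ?_
          have := natDegree_derivative_le (f.map ψ)
          have h8 : (X : K[X]).natDegree ≤ 1 := natDegree_X_le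
          omega
        have key' : eval a ((X * derivative (f.map ψ)).reflect 6) = 0 := by
          linear_combination key
        letI : Invertible (a⁻¹) := invertibleOfNonzero (inv_ne_zero ha)
        have hia : ⅟(a⁻¹) = a := by rw [invOf_eq_inv, inv_inv]
        have e1 := (eval₂_reflect_eq_zero_iff (RingHom.id K) a⁻¹ 6 _ hX).1 (by
          rw [hia]
          exact key')
        have e2 := (eval₂_reflect_eq_zero_iff (RingHom.id K) a⁻¹ 6 _ hdg).1 (by
          rw [hia]
          exact h1)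
        rw [← eval, eval_mul, eval_X] at e1
        rw [← eval] at e2
        have e3 : eval a⁻¹ (derivative (f.map ψ)) = 0 :=
          (mul_eq_zero.1 e1).resolve_left (inv_ne_zero ha)
        obtain ⟨u, v, huv⟩ := (h K ψ).2
        have := congrArg (eval a⁻¹) huv
        rw [eval_add, eval_mul, eval_mul, e2, e3, mul_zero, mul_zero, add_zero, eval_one] at this
        exact zero_ne_one this

theorem Good.map {B B' : Type} [CommRing B] [CommRing B'] {f : B[X]} (h : Good f)
    (φ : B →+* B') : Good (f.map φ) where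
  deg := natDegree_map_le.trans h.deg
  cop := by
    have := h.cop.map (mapRingHom φ)
    rw [coe_mapRingHom, ← derivative_map] at this
    exact this
  cop' := by
    have := h.cop'.map (mapRingHom φ)
    rw [coe_mapRingHom, ← derivative_map, ← reflect_map] at this
    exact this

theorem Good.reflect {B : Type} [CommRing B] {f : B[X]} (h : Good f) : Good (f.reflect 6) where
  deg := natDegree_reflect_le.trans (max_le le_rfl h.deg)
  cop := h.cop'
  cop' := by
    rw [reflect_reflect]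
    exact h.cop

theorem Good.cmul {B : Type} [CommRing B] {f : B[X]} (h : Good f) {u : B} (hu : IsUnit u) :
    Good (C u * f) := by
  rw [good_iff] at h ⊢
  refine ⟨(natDegree_C_mul_le _ _).trans h.1, fun K _ ψ => ?_⟩
  have hu' : ψ u ≠ 0 := (hu.map ψ).ne_zero
  rw [Polynomial.map_mul, map_C, natDegree_C_mul hu']
  refine ⟨(h.2 K ψ).1, ?_⟩
  have h2 := (h.2 K ψ).2
  have h3 : IsUnit (C (ψ u)) := isUnit_C.2 (hu.map ψ)
  rw [Separable, derivative_C_mul]
  exact (isCoprime_mul_unit_left h3 _ _).2 h2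

theorem Good.comp {B : Type} [CommRing B] {f : B[X]} (h : Good f) {p : B[X]}
    (h1 : p.natDegree ≤ 1) (h2 : IsUnit (derivative p)) : Good (f.comp p) := by
  rw [good_iff] at h ⊢
  refine ⟨natDegree_comp_le.trans (by nlinarith [h.1, h1]), fun K _ ψ => ?_⟩
  rw [Polynomial.map_comp, natDegree_comp]
  have h4 : IsUnit (derivative (p.map ψ)) := by
    rw [derivative_map]
    exact h2.map (mapRingHom ψ)
  have h3 : (p.map ψ).natDegree = 1 := by
    have h5 : (p.map ψ).natDegree ≤ 1 := natDegree_map_le.trans h1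
    have h6 : (p.map ψ).natDegree ≠ 0 := by
      intro h0
      rw [eq_C_of_natDegree_eq_zero h0, derivative_C] at h4
      exact not_isUnit_zero h4
    omega
  rw [h3, mul_one]
  refine ⟨(h.2 K ψ).1, ?_⟩
  have h5 := (h.2 K ψ).2
  have h6 : IsCoprime ((f.map ψ).comp (p.map ψ)) ((derivative (f.map ψ)).comp (p.map ψ)) := by
    have := IsCoprime.map h5 (compRingHom (p.map ψ))
    exact this
  rw [Separable, derivative_comp]
  exact (isCoprime_mul_unit_left_right h4 _ _).2 h6

theorem Good.shift {B : Type} [CommRing B] {f : B[X]} (h : Good f) (t : B) :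
    Good (f.comp (X + C t)) := by
  refine h.comp (natDegree_add_le_of_degree_le natDegree_X_le (by simp)) ?_
  simp

theorem Good.dil {B : Type} [CommRing B] {f : B[X]} (h : Good f) {a : B} (ha : IsUnit a) :
    Good (f.comp (C a * X)) := by
  refine h.comp ((natDegree_C_mul_le _ _).trans natDegree_X_le) ?_
  rw [derivative_C_mul, derivative_X, mul_one]
  exact isUnit_C.2 ha

theorem good_of_sep {K : Type} [Field K] {f : K[X]} (h : f.natDegree ≤ 6) (h5 : 5 ≤ f.natDegree)
    (hs : f.Separable) : Good f := by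
  rw [good_iff]
  refine ⟨h, fun L _ ψ => ⟨?_, hs.map⟩⟩
  rwa [natDegree_map]

theorem good_prod {K : Type} [Field K] {ι : Type} [Fintype ι] (hi : Fintype.card ι = 5 ∨
    Fintype.card ι = 6) (r : ι → K) (hr : Function.Injective r) : Good (∏ i, (X - C (r i))) := by
  have hd : (∏ i, (X - C (r i))).natDegree = Fintype.card ι := by
    rw [natDegree_prod_of_monic _ _ fun i _ => monic_X_sub_C _]
    simp
  exact good_of_sep (by omega) (by omega) (separable_prod_X_sub_C_iff.2 hr)

end Pool.Agent.MG.Two2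


end

section

/-!
# Pure algebra part of the case `(2, 0)`: products of linear factors
-/

open Polynomial

namespace Pool.Agent.MG.Two2

section basic

variable {B : Type} [CommRing B]

/-- The product of `X - a_i`. -/
noncomputable def P6 {n : ℕ} (a : Fin n → B) : B[X] := ∏ i, (X - C (a i))

/-- The polynomial with coefficients `q`. -/
noncomputable def Qp (q : Fin 3 → B) : B[X] := C (q 0) + C (q 1) * X + C (q 2) * X ^ 2

theorem natDegree_P6 {n : ℕ} (a : Fin n → B) : (P6 a).natDegree ≤ n := by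
  refine (natDegree_prod_le _ _).trans ?_
  refine (Finset.sum_le_sum fun i _ => natDegree_X_sub_C_le (a i)).trans ?_
  simp

theorem natDegree_Qp (q : Fin 3 → B) : (Qp q).natDegree ≤ 2 := by
  unfold Qp
  compute_degree

theorem P6_map {B' : Type} [CommRing B'] (φ : B →+* B') {n : ℕ} (a : Fin n → B) :
    (P6 a).map φ = P6 (fun i => φ (a i)) := by
  simp [P6, Polynomial.map_prod]

theorem Qp_map {B' : Type} [CommRing B'] (φ : B →+* B') (q : Fin 3 → B) :
    (Qp q).map φ = Qp (fun i => φ (q i)) := by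
  simp [Qp]

theorem P6_comp {n : ℕ} (a : Fin n → B) (t : B) :
    (P6 a).comp (X + C t) = P6 (fun i => a i - t) := by
  rw [P6, Polynomial.prod_comp]
  refine Finset.prod_congr rfl fun i _ => ?_
  simp only [sub_comp, X_comp, C_comp, C_sub]
  ring

/-- The coefficients of `q(x + t)`. -/
def shq (t : B) (q : Fin 3 → B) : Fin 3 → B :=
  ![q 0 + q 1 * t + q 2 * t ^ 2, q 1 + 2 * q 2 * t, q 2]

theorem Qp_comp (q : Fin 3 → B) (t : B) : (Qp q).comp (X + C t) = Qp (shq t q) := by
  simp only [Qp, shq, add_comp, mul_comp, C_comp, X_comp, pow_comp, Matrix.cons_val_zero,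
    Matrix.cons_val_one, Matrix.cons_val_two, Matrix.head_cons, Matrix.tail_cons,
    C_add, C_mul, C_pow]
  have : (C (2 : B) : B[X]) = 2 := rfl
  rw [this]
  ring

theorem Qp_reflect (q : Fin 3 → B) : (Qp q).reflect 2 = Qp ![q 2, q 1, q 0] := by
  ext n
  rw [coeff_reflect]
  simp only [Qp, coeff_add, coeff_C_mul, coeff_X_pow, coeff_X, coeff_C, Matrix.cons_val_zero,
    Matrix.cons_val_one, Matrix.cons_val]
  rcases n with _ | _ | _ | n
  · simp [revAt]
  · simp [revAt]
  · simp [revAt]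
  · rw [revAt_eq_self_of_lt (by omega)]
    simp

theorem Qp_smul (c : B) (q : Fin 3 → B) : C c * Qp q = Qp (fun i => c * q i) := by
  simp only [Qp, C_mul]
  ring

theorem Qp_coeff (q : B[X]) (h : q.natDegree ≤ 2) : Qp (fun i => q.coeff i) = q := by
  conv_rhs => rw [q.as_sum_range_C_mul_X_pow' (Nat.lt_succ_of_le h)]
  simp [Qp, Finset.sum_range_succ]

/-- `1 - a X` -/
theorem reflect_X_sub_C (a : B) : (X - C a : B[X]).reflect 1 = 1 - C a * X := by
  rw [reflect_sub, reflect_one_X, reflect_C, pow_one]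

theorem P6_reflect {n : ℕ} (a : Fin n → B) : (P6 a).reflect n = ∏ i, (1 - C (a i) * X) := by
  induction n with
  | zero => simp [P6]
  | succ n ih =>
    have e := reflect_mul (X - C (a 0)) (P6 fun i => a i.succ) (natDegree_X_sub_C_le (a 0))
      (natDegree_P6 fun i => a i.succ)
    rw [Nat.add_comm 1 n, reflect_X_sub_C, ih] at e
    rw [P6, Fin.prod_univ_succ, Fin.prod_univ_succ]
    exact e

theorem cop_X_sub_C {a b : B} (h : IsUnit (a - b)) : IsCoprime (X - C a) (X - C b) := by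
  obtain ⟨u, hu⟩ := h
  refine ⟨-C (↑u⁻¹ : B), C (↑u⁻¹ : B), ?_⟩
  have h1 : C (↑u⁻¹ : B) * (C a - C b) = (1 : B[X]) := by
    rw [← C_sub, ← hu, ← C_mul, Units.inv_mul, C_1]
  linear_combination h1

theorem sep_one_sub (a : B) : (1 - C a * X : B[X]).Separable := by
  rw [separable_def]
  refine ⟨1, -X, ?_⟩
  simp only [derivative_sub, derivative_one, derivative_mul, derivative_C, derivative_X]
  ring

theorem cop_one_sub {a b : B} (h : IsUnit (a - b)) : IsCoprime (1 - C a * X) (1 - C b * X) := by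
  obtain ⟨u, hu⟩ := h
  refine ⟨-C (↑u⁻¹ : B) * C b, C (↑u⁻¹ : B) * C a, ?_⟩
  have h1 : C (↑u⁻¹ : B) * (C a - C b) = (1 : B[X]) := by
    rw [← C_sub, ← hu, ← C_mul, Units.inv_mul, C_1]
  linear_combination h1

theorem good_P6 {n : ℕ} (hn : n = 6) (a : Fin n → B) (h : ∀ i j, i ≠ j → IsUnit (a i - a j)) :
    Good (P6 a) := by
  subst hn
  refine ⟨natDegree_P6 a, ?_, ?_⟩
  · exact separable_prod (fun i j hij => cop_X_sub_C (h i j hij)) fun i => separable_X_sub_C
  · rw [P6_reflect]
    exact separable_prod (fun i j hij => cop_one_sub (h i j hij)) fun i => sep_one_sub _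

/-- One root at infinity. -/
theorem good_P5 (a : Fin 5 → B) (h : ∀ i j, i ≠ j → IsUnit (a i - a j)) : Good (P6 a) := by
  refine ⟨(natDegree_P6 a).trans (by omega), ?_, ?_⟩
  · exact separable_prod (fun i j hij => cop_X_sub_C (h i j hij)) fun i => separable_X_sub_C
  · have h1 : (P6 a).reflect 6 = X * ∏ i, (1 - C (a i) * X) := by
      have := reflect_mul (P6 a) (1 : B[X]) (natDegree_P6 a) (G := 1) (by simp)
      rw [mul_one, P6_reflect, reflect_one, pow_one] at this
      rw [this, mul_comm]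
    rw [h1]
    have h2 : (∏ i, (1 - C (a i) * X) : B[X]).Separable :=
      separable_prod (fun i j hij => cop_one_sub (h i j hij)) fun i => sep_one_sub _
    have h3 : (X : B[X]).Separable := separable_X
    refine h3.mul h2 ?_
    refine IsCoprime.prod_right fun i _ => ?_
    exact ⟨C (a i), 1, by ring⟩

end basic

end Pool.Agent.MG.Two2


end

section

/-!
# Pure algebra part of the case `(2, 0)`: `S` at products of linear factors
-/

open Polynomial

namespace Pool.Agent.MG.Two2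

variable {k : Type} [Field k] (D : Dat k)

/-- Distinct modulo every maximal ideal. -/
def Dis {B : Type} [CommRing B] {n : ℕ} (a : Fin n → B) : Prop := ∀ i j, i ≠ j → IsUnit (a i - a j)

/-- The value at the polynomial with roots `a`. -/
noncomputable def Dat.T {B : Type} [CommRing B] [Algebra k B] {n : ℕ} (a : Fin n → B)
    (q : Fin 3 → B) : B := D.S B (P6 a) (Qp q)

section

variable {B B' : Type} [CommRing B] [CommRing B'] [Algebra k B] [Algebra k B']

theorem Dis.map {n : ℕ} {a : Fin n → B} (h : Dis a) (φ : B →+* B') : Dis (fun i => φ (a i)) := by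
  intro i j hij
  rw [← map_sub]
  exact (h i j hij).map φ

theorem Dis.sub {n : ℕ} {a : Fin n → B} (h : Dis a) (t : B) : Dis (fun i => a i - t) := by
  intro i j hij
  rw [sub_sub_sub_cancel_right]
  exact h i j hij

theorem T_nat (φ : B →ₐ[k] B') (a : Fin 6 → B) (h : Dis a) (q : Fin 3 → B) :
    D.T (fun i => φ (a i)) (fun i => φ (q i)) = φ (D.T a q) := by
  unfold Dat.T
  rw [← D.nat B B' φ _ _ (good_P6 rfl a h) (natDegree_Qp q), P6_map, Qp_map]
  rfl

theorem T_congr {a b : Fin 6 → B} (h : P6 a = P6 b) (q : Fin 3 → B) : D.T a q = D.T b q := by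
  unfold Dat.T
  rw [h]

theorem T_trans (a : Fin 6 → B) (h : Dis a) (t : B) (q : Fin 3 → B) :
    D.T (fun i => a i - t) (shq t q) = D.T a q := by
  unfold Dat.T
  rw [← D.trans B t _ _ (good_P6 rfl a h) (natDegree_Qp q), P6_comp, Qp_comp]

end

theorem scal_field {K : Type} [Field K] [Algebra k K] (c : K) (hc : c ≠ 0) (f q : K[X])
    (hf : Good f) (hf' : Good (C c * f)) (hq : q.natDegree ≤ 2) :
    D.S K (C c * f) (C c * q) = D.S K f q := by
  let L := AlgebraicClosure K
  let φ : K →ₐ[k] L := IsScalarTower.toAlgHom k K L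
  have hφ : Function.Injective φ := (algebraMap K L).injective
  apply hφ
  obtain ⟨v, hv⟩ := IsAlgClosed.exists_pow_nat_eq (algebraMap K L c) (n := 2) (by norm_num)
  have hv0 : v ≠ 0 := by
    rintro rfl
    rw [zero_pow two_ne_zero] at hv
    exact hc ((algebraMap K L).injective (by rw [← hv, map_zero]))
  have hq' : (C c * q).natDegree ≤ 2 := (natDegree_C_mul_le _ _).trans hq
  have hfL : Good (f.map (φ : K →+* L)) := by
    refine ⟨(natDegree_map_le).trans hf.deg, ?_, ?_⟩
    · have := hf.cop.map (mapRingHom (φ : K →+* L))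
      rw [coe_mapRingHom, ← derivative_map] at this
      exact this
    · have := hf.cop'.map (mapRingHom (φ : K →+* L))
      rw [coe_mapRingHom, ← derivative_map, ← reflect_map] at this
      exact this
  have hqL : (q.map (φ : K →+* L)).natDegree ≤ 2 := (natDegree_map_le).trans hq
  have e := D.scal L v _ _ (IsUnit.mk0 v hv0) hfL hqL
  rw [← D.nat K L φ _ _ hf' hq', ← D.nat K L φ _ _ hf hq, ← e]
  rw [Polynomial.map_mul, Polynomial.map_mul, map_C]
  have e2 : (φ : K →+* L) c = v ^ 2 := by rw [hv]; rfl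
  rw [e2]

theorem T_inv {K : Type} [Field K] [Algebra k K] (a : Fin 6 → K) (h : Dis a)
    (h0 : ∀ i, a i ≠ 0) (q : Fin 3 → K) :
    D.T (fun i => (a i)⁻¹) (fun i => (∏ j, a j)⁻¹ * ![q 2, q 1, q 0] i) = D.T a q := by
  have hR : (∏ j, a j) ≠ 0 := Finset.prod_ne_zero_iff.2 fun i _ => h0 i
  have hd : Dis (fun i => (a i)⁻¹) := by
    intro i j hij
    refine IsUnit.mk0 _ ?_
    rw [Ne, sub_eq_zero, inv_inj]
    exact fun e => (h i j hij).ne_zero (sub_eq_zero.2 e)
  have hg := good_P6 rfl a h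
  have e1 : (P6 a).reflect 6 = C (∏ j, a j) * P6 (fun i => (a i)⁻¹) := by
    rw [P6_reflect, P6, map_prod, ← Finset.prod_mul_distrib]
    have : ∀ i, (1 - C (a i) * X : K[X]) = (-1) * (C (a i) * (X - C (a i)⁻¹)) := by
      intro i
      have h2 : (C (a i) * C (a i)⁻¹ : K[X]) = 1 := by
        rw [← C_mul, mul_inv_cancel₀ (h0 i), C_1]
      linear_combination -h2
    simp_rw [this]
    rw [Finset.prod_mul_distrib, Finset.prod_const, Finset.card_univ, Fintype.card_fin]
    norm_num
  have hgr : Good ((P6 a).reflect 6) := by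
    refine ⟨(natDegree_reflect_le).trans (max_le le_rfl hg.deg), hg.cop', ?_⟩
    rw [reflect_reflect]
    exact hg.cop
  have e2 := D.inv K _ _ hg (natDegree_Qp q)
  unfold Dat.T
  rw [← e2, e1, Qp_reflect, ← Qp_smul]
  rw [e1] at hgr
  rw [← scal_field D _ hR _ _ (good_P6 rfl _ hd) hgr]
  · congr 1
    rw [← mul_assoc, ← C_mul, mul_inv_cancel₀ hR, C_1, one_mul]
  · exact (natDegree_C_mul_le _ _).trans (natDegree_Qp _)

end Pool.Agent.MG.Two2


end

section

/-!
# Pure algebra part of the case `(2, 0)`: the universal pair of colliding roots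
-/

open Polynomial

namespace Pool.Agent.MG.Two2

section cons

variable {B : Type} [CommRing B]

theorem P6_cons {n : ℕ} (x : B) (a : Fin n → B) :
    P6 (Fin.cons x a : Fin (n + 1) → B) = (X - C x) * P6 a := by
  rw [P6, Fin.prod_univ_succ, Fin.cons_zero]
  rfl

theorem dis_cons {n : ℕ} {x : B} {a : Fin n → B} (h : ∀ i, IsUnit (x - a i)) (ha : Dis a) :
    Dis (Fin.cons x a : Fin (n + 1) → B) := by
  intro i j hij
  refine Fin.cases ?_ (fun i' => ?_) i (motive := fun i => i ≠ j → IsUnit ((Fin.cons x a :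
    Fin (n + 1) → B) i - (Fin.cons x a : Fin (n + 1) → B) j)) hij
  · refine Fin.cases (fun e => absurd rfl e) (fun j' _ => ?_) j
    rw [Fin.cons_zero, Fin.cons_succ]
    exact h j'
  · refine Fin.cases (fun _ => ?_) (fun j' e => ?_) j
    · rw [Fin.cons_zero, Fin.cons_succ, ← neg_sub]
      exact (h i').neg
    · rw [Fin.cons_succ, Fin.cons_succ]
      exact ha i' j' fun e' => e (by rw [e'])

omit [CommRing B] in
theorem map_cons {B' : Type} (φ : B → B') {n : ℕ} (x : B) (a : Fin n → B) :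
    (fun i => φ ((Fin.cons x a : Fin (n + 1) → B) i)) =
      (Fin.cons (φ x) (fun i => φ (a i)) : Fin (n + 1) → B') := by
  funext i
  refine Fin.cases ?_ (fun i' => ?_) i
  · rfl
  · rfl

end cons

variable {K : Type} [Field K]

section ev

variable {B B' : Type} [CommRing B] [CommRing B'] [Algebra K B] [Algebra K B']

/-- The roots `0, δ, r_i - t`. -/
def rt (r : Fin 4 → K) (t δ : B) : Fin 6 → B :=
  Fin.cons 0 (Fin.cons δ fun i : Fin 4 => algebraMap K B (r i) - t)

/-- The discriminant factor of the pairs of one of the first two roots and one of the others. -/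
def DD (r : Fin 4 → K) (t δ : B) : B :=
  ∏ i, ((algebraMap K B (r i) - t) * (algebraMap K B (r i) - t - δ))

theorem DD_map (φ : B →ₐ[K] B') (r : Fin 4 → K) (t δ : B) :
    φ (DD r t δ) = DD r (φ t) (φ δ) := by
  simp [DD, map_prod]

theorem rt_map (φ : B →ₐ[K] B') (r : Fin 4 → K) (t δ : B) :
    (fun i => φ (rt r t δ i)) = rt r (φ t) (φ δ) := by
  unfold rt
  rw [map_cons, map_cons, map_zero]
  simp

theorem dis_rt (r : Fin 4 → K) (hr : Function.Injective r) (t δ : B) (hδ : IsUnit δ)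
    (hD : IsUnit (DD r t δ)) : Dis (rt r t δ) := by
  have h1 : ∀ i, IsUnit ((algebraMap K B (r i) - t) * (algebraMap K B (r i) - t - δ)) := by
    intro i
    exact isUnit_of_dvd_unit (Finset.dvd_prod_of_mem (fun i => (algebraMap K B (r i) - t) *
      (algebraMap K B (r i) - t - δ)) (Finset.mem_univ i)) hD
  refine dis_cons (fun i => ?_) (dis_cons (fun i => ?_) fun i j hij => ?_)
  · refine Fin.cases ?_ (fun j => ?_) i
    · rw [Fin.cons_zero, zero_sub]
      exact hδ.neg
    · rw [Fin.cons_succ, zero_sub]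
      exact (isUnit_of_mul_isUnit_left (h1 j)).neg
  · rw [← neg_sub]
    exact (isUnit_of_mul_isUnit_right (h1 i)).neg
  · rw [sub_sub_sub_cancel_right, ← map_sub]
    refine (IsUnit.mk0 _ ?_).map (algebraMap K B)
    rw [sub_ne_zero]
    exact fun e => hij (hr e)

/-- Evaluation at `(t, δ)`. -/
noncomputable def ev (t δ : B) : K[X][X] →ₐ[K] B :=
  eval₂AlgHom (aeval t) δ fun _ => Commute.all _ _

theorem ev_C (t δ : B) (p : K[X]) : ev t δ (C p) = aeval t p := by
  simp [ev]

theorem ev_X (t δ : B) : ev (K := K) t δ X = δ := by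
  simp [ev]

theorem ev_map (φ : B →ₐ[K] B') (t δ : B) (p : K[X][X]) : φ (ev t δ p) = ev (φ t) (φ δ) p := by
  have : φ.comp (ev t δ) = ev (K := K) (φ t) (φ δ) := by
    refine Polynomial.algHom_ext' ?_ ?_
    · ext
      simp [ev]
    · simp [ev]
  exact DFunLike.congr_fun this p

/-- Evaluation at `(t, δ)` and `q`. -/
noncomputable def evN (t δ : B) (q : Fin 3 → B) : MvPolynomial (Fin 3) K[X][X] →+* B :=
  MvPolynomial.eval₂Hom ((ev t δ : K[X][X] →ₐ[K] B) : K[X][X] →+* B) q

theorem evN_map (φ : B →ₐ[K] B') (t δ : B) (q : Fin 3 → B) (N : MvPolynomial (Fin 3) K[X][X]) :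
    φ (evN t δ q N) = evN (φ t) (φ δ) (fun i => φ (q i)) N := by
  have : (φ : B →+* B').comp (evN t δ q) = evN (K := K) (φ t) (φ δ) (fun i => φ (q i)) := by
    refine MvPolynomial.ringHom_ext (fun p => ?_) fun i => ?_
    · simp [evN, ev_map]
    · simp [evN]
  exact DFunLike.congr_fun this N

theorem evN_C (t δ : B) (q : Fin 3 → B) (p : K[X][X]) : evN t δ q (MvPolynomial.C p) = ev t δ p := by
  simp [evN]

end ev

/-- The polynomial `N` is `δ ^ w * D ^ c * S`. -/
def KI (D : Dat K) (r : Fin 4 → K) (w c : ℕ) (N : MvPolynomial (Fin 3) K[X][X]) : Prop :=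
  ∀ (B : Type) [CommRing B] [Algebra K B] (t δ : B) (q : Fin 3 → B), IsUnit δ →
    IsUnit (DD r t δ) → D.T (rt r t δ) q * (δ ^ w * DD r t δ ^ c) = evN t δ q N

attribute [local instance] MvPolynomial.algebraMvPolynomial in
theorem KI_exists (D : Dat K) (r : Fin 4 → K) (hr : Function.Injective r) :
    ∃ (n : ℕ) (N : MvPolynomial (Fin 3) K[X][X]), KI D r n n N := by
  let h : K[X][X] := X * DD r (C X : K[X][X]) X
  let L := Localization.Away h
  let M := MvPolynomial (Fin 3) L
  let ι : K[X][X] →ₐ[K] L := IsScalarTower.toAlgHom K K[X][X] L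
  let jC : L →ₐ[K] M := IsScalarTower.toAlgHom K L M
  have hu : IsUnit (ι h) := IsLocalization.Away.algebraMap_isUnit h
  let t₀ : M := jC (ι (C X))
  let δ₀ : M := jC (ι X)
  let T₀ : M := D.T (rt r t₀ δ₀) MvPolynomial.X
  have hu2 : IsUnit (δ₀ * DD r t₀ δ₀) := by
    have : δ₀ * DD r t₀ δ₀ = jC (ι h) := by
      simp only [h, t₀, δ₀, map_mul, DD_map]
    rw [this]
    exact hu.map jC
  have hδ : IsUnit δ₀ := isUnit_of_mul_isUnit_left hu2
  have hD : IsUnit (DD r t₀ δ₀) := isUnit_of_mul_isUnit_right hu2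
  have hdis := dis_rt r hr t₀ δ₀ hδ hD
  obtain ⟨⟨N, s⟩, hs⟩ := IsLocalization.surj (M := (Submonoid.powers h).map
    (MvPolynomial.C (σ := Fin 3))) T₀
  obtain ⟨_, ⟨_, ⟨n, rfl⟩, rfl⟩⟩ := s
  refine ⟨n, N, ?_⟩
  intro B _ _ t δ q h1 h2
  have h3 : IsUnit (ev (K := K) t δ h) := by
    have : ev (K := K) t δ h = δ * DD r t δ := by
      simp only [h, map_mul, DD_map, ev_X, ev_C, aeval_X]
    rw [this]
    exact h1.mul h2
  let ψ₀ : L →ₐ[K] B := IsLocalization.liftAlgHom (M := Submonoid.powers h) (f := ev (K := K) t δ)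
    (by
      rintro ⟨_, ⟨m, rfl⟩⟩
      rw [map_pow]
      exact h3.pow m)
  have hψ₀ : ∀ p, ψ₀ (ι p) = ev t δ p := fun p => IsLocalization.lift_eq _ _
  let ψ : M →ₐ[K] B :=
    { MvPolynomial.eval₂Hom (ψ₀ : L →+* B) q with
      commutes' := fun c => by
        change MvPolynomial.eval₂Hom (ψ₀ : L →+* B) q (MvPolynomial.C (algebraMap K L c)) = _
        simp }
  have hψC : ∀ x, ψ (jC x) = ψ₀ x := fun x => by
    change MvPolynomial.eval₂Hom (ψ₀ : L →+* B) q (MvPolynomial.C x) = _
    simp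
  have hψX : ∀ i, ψ (MvPolynomial.X i) = q i := fun i => by
    change MvPolynomial.eval₂Hom (ψ₀ : L →+* B) q (MvPolynomial.X i) = _
    simp
  have e1 : ψ T₀ = D.T (rt r t δ) q := by
    rw [← T_nat D ψ _ hdis, rt_map]
    simp only [hψX, t₀, δ₀, hψC, hψ₀, ev_X, ev_C, aeval_X]
  have e2 : ψ (algebraMap (MvPolynomial (Fin 3) K[X][X]) M N) = evN t δ q N := by
    rw [MvPolynomial.algebraMap_def]
    change MvPolynomial.eval₂Hom (ψ₀ : L →+* B) q (MvPolynomial.map (algebraMap K[X][X] L) N) = _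
    rw [MvPolynomial.coe_eval₂Hom, MvPolynomial.eval₂_map]
    have : ((ψ₀ : L →+* B).comp (algebraMap K[X][X] L)) = ((ev (K := K) t δ : K[X][X] →ₐ[K] B) :
        K[X][X] →+* B) := RingHom.ext hψ₀
    rw [this]
    rfl
  rw [← e1, ← e2, ← hs, map_mul]
  congr 1
  have e3 : algebraMap (MvPolynomial (Fin 3) K[X][X]) M (MvPolynomial.C (h ^ n)) = jC (ι (h ^ n)) := by
    rw [MvPolynomial.algebraMap_def, MvPolynomial.map_C]
    rfl
  change _ = ψ (algebraMap (MvPolynomial (Fin 3) K[X][X]) M (MvPolynomial.C (h ^ n)))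
  rw [e3, hψC, hψ₀, map_pow, ← mul_pow]
  simp only [h, map_mul, DD_map, ev_X, ev_C, aeval_X]

end Pool.Agent.MG.Two2


end

section

/-!
# Pure algebra part of the case `(2, 0)`: regularity when three roots collide
-/

open Polynomial

namespace Pool.Agent.MG.Two2

variable {K : Type} [Field K]

section dom

variable {R1 : Type} [CommRing R1] [IsDomain R1] [Algebra K R1]

/-- The homomorphism from polynomials over a domain to power series over its field of
fractions. -/
noncomputable def toPS (R1 : Type) [CommRing R1] [IsDomain R1] [Algebra K R1] :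
    R1[X] →ₐ[K] PowerSeries (FractionRing R1) :=
  { (Polynomial.coeToPowerSeries.ringHom (R := FractionRing R1)).comp
      (mapRingHom (algebraMap R1 (FractionRing R1))) with
    commutes' := fun c => by
      change ((Polynomial.map (algebraMap R1 (FractionRing R1)) (C (algebraMap K R1 c)) :
        (FractionRing R1)[X]) : PowerSeries (FractionRing R1)) = _
      rw [map_C, Polynomial.coe_C, ← IsScalarTower.algebraMap_apply K R1 (FractionRing R1),
        PowerSeries.algebraMap_apply] }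

theorem coeff_toPS (p : R1[X]) (n : ℕ) :
    PowerSeries.coeff n (toPS (K := K) R1 p) = algebraMap R1 (FractionRing R1) (p.coeff n) := by
  change PowerSeries.coeff n ((Polynomial.map (algebraMap R1 (FractionRing R1)) p :
        (FractionRing R1)[X]) : PowerSeries (FractionRing R1)) = _
  rw [Polynomial.coeff_coe, coeff_map]

theorem toPS_X : toPS (K := K) R1 X = PowerSeries.X := by
  change ((Polynomial.map (algebraMap R1 (FractionRing R1)) X :
        (FractionRing R1)[X]) : PowerSeries (FractionRing R1)) = _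
  rw [map_X, Polynomial.coe_X]

theorem toPS_C (c : R1) :
    toPS (K := K) R1 (C c) = PowerSeries.C (algebraMap R1 (FractionRing R1) c) := by
  change ((Polynomial.map (algebraMap R1 (FractionRing R1)) (C c) :
        (FractionRing R1)[X]) : PowerSeries (FractionRing R1)) = _
  rw [map_C, Polynomial.coe_C]

end dom

section fieldps

variable {F : Type} [Field F] [Algebra K F]

theorem alg_ps (c : K) : algebraMap K (PowerSeries F) c = PowerSeries.C (algebraMap K F c) :=
  PowerSeries.algebraMap_apply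

/-- The order of vanishing of `N` when three roots collide, over power series. -/
theorem reg_ps (D : Dat K) (r : Fin 4 → K) (hr : Function.Injective r) (w c : ℕ)
    (N : MvPolynomial (Fin 3) K[X][X]) (hN : KI D r w c N) (i : Fin 4) (d : F) (hd : d ≠ 0)
    (hd1 : d + 1 ≠ 0) (e : Fin 3 → PowerSeries F) :
    (PowerSeries.X : PowerSeries F) ^ (2 * w + 4 * c) ∣
      evN (algebraMap K (PowerSeries F) (r i) + PowerSeries.X ^ 2)
        (PowerSeries.X ^ 2 * PowerSeries.C d)
        ![PowerSeries.X ^ 2 * e 0, PowerSeries.X * e 1, e 2] N := by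
  let P := PowerSeries F
  let Q := FractionRing P
  let φ : P →ₐ[K] Q := IsScalarTower.toAlgHom K P Q
  have hφ : Function.Injective φ := IsFractionRing.injective P Q
  let s : P := PowerSeries.X
  let t : P := algebraMap K P (r i) + s ^ 2
  let δ : P := s ^ 2 * PowerSeries.C d
  let q : Fin 3 → P := ![s ^ 2 * e 0, s * e 1, e 2]
  let ρ : Fin 3 → P := ![0, PowerSeries.C d, -1]
  let r' : Fin 3 → P := fun j => algebraMap K P (r (i.succAbove j)) - t
  have hs : s ≠ 0 := PowerSeries.X_ne_zero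
  have hsc : PowerSeries.constantCoeff s = 0 := PowerSeries.constantCoeff_X
  have hC : ∀ x : F, x ≠ 0 → IsUnit (PowerSeries.C x : P) := fun x hx =>
    (IsUnit.mk0 x hx).map PowerSeries.C
  have hK : ∀ x : K, x ≠ 0 → IsUnit (algebraMap K P x) := fun x hx =>
    (IsUnit.mk0 x hx).map (algebraMap K P)
  have hne : ∀ j, r (i.succAbove j) - r i ≠ 0 := fun j =>
    sub_ne_zero.2 fun h => Fin.succAbove_ne i j (hr h)
  have hcc : ∀ x : K, PowerSeries.constantCoeff (algebraMap K P x) = algebraMap K F x := fun x => by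
    rw [alg_ps]
    simp
  have hunit : ∀ j (x : P), IsUnit (r' j - s ^ 2 * x) := by
    intro j x
    rw [PowerSeries.isUnit_iff_constantCoeff]
    have : PowerSeries.constantCoeff (r' j - s ^ 2 * x) =
        algebraMap K F (r (i.succAbove j) - r i) := by
      simp only [r', t, map_sub, map_add, map_mul, map_pow, hsc, hcc]
      ring
    rw [this]
    exact (IsUnit.mk0 _ (hne j)).map (algebraMap K F)
  have hr'u : ∀ j, IsUnit (r' j) := fun j => by
    have := hunit j 0
    rwa [mul_zero, sub_zero] at this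
  obtain ⟨b, hb⟩ := D.reg P Q φ hφ s ρ r' e hs
    (by
      have h1 : IsUnit (PowerSeries.C d : P) := hC d hd
      have h2 : IsUnit (PowerSeries.C d + 1 : P) := by
        have := hC _ hd1
        rwa [map_add, map_one] at this
      intro a b hab
      fin_cases a <;> fin_cases b
      · exact absurd rfl hab
      · change IsUnit ((0 : P) - PowerSeries.C d)
        rw [zero_sub]
        exact h1.neg
      · change IsUnit ((0 : P) - (-1))
        rw [zero_sub, neg_neg]
        exact isUnit_one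
      · change IsUnit ((PowerSeries.C d : P) - 0)
        rw [sub_zero]
        exact h1
      · exact absurd rfl hab
      · change IsUnit ((PowerSeries.C d : P) - (-1))
        rw [sub_neg_eq_add]
        exact h2
      · change IsUnit ((-1 : P) - 0)
        rw [sub_zero]
        exact isUnit_one.neg
      · change IsUnit ((-1 : P) - PowerSeries.C d)
        have : (-1 : P) - PowerSeries.C d = -(PowerSeries.C d + 1) := by ring
        rw [this]
        exact h2.neg
      · exact absurd rfl hab)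
    (by
      intro a b hab
      have : r' a - r' b = algebraMap K P (r (i.succAbove a) - r (i.succAbove b)) := by
        simp only [r', map_sub]
        ring
      rw [this]
      refine hK _ (sub_ne_zero.2 fun h => hab ?_)
      exact Fin.succAbove_right_injective (hr h))
    hr'u (fun a j => hunit j _)
  have hroots : ((∏ i, (X - C (s ^ 2 * ρ i))) * ∏ j, (X - C (r' j)) : P[X]) = P6 (rt r t δ) := by
    rw [rt, P6_cons, P6_cons, P6, Fin.prod_univ_succAbove _ i, Fin.prod_univ_three]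
    have h1 : algebraMap K P (r i) - t = s ^ 2 * ρ 2 := by
      change algebraMap K P (r i) - (algebraMap K P (r i) + s ^ 2) = s ^ 2 * (-1)
      ring
    have h0 : (0 : P) = s ^ 2 * ρ 0 := by
      change (0 : P) = s ^ 2 * 0
      rw [mul_zero]
    have h2 : δ = s ^ 2 * ρ 1 := rfl
    rw [h1, ← h0, ← h2]
    simp only [r', mul_assoc]
  have hq : (C (s ^ 2 * e 0) + C (s * e 1) * X + C (e 2) * X ^ 2 : P[X]) = Qp q := rfl
  rw [hroots, hq, P6_map, Qp_map] at hb
  have hrt : (fun i => (φ : P →+* Q) (rt r t δ i)) = rt r (φ t) (φ δ) := rt_map φ r t δ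
  rw [hrt] at hb
  have hδ0 : δ ≠ 0 := mul_ne_zero (pow_ne_zero _ hs) (hC d hd).ne_zero
  have hfac : (algebraMap K P (r i) - t) * (algebraMap K P (r i) - t - δ) =
      s ^ 4 * (PowerSeries.C d + 1) := by
    simp only [t, δ]
    ring
  have hD0 : DD r t δ ≠ 0 := by
    unfold DD
    refine Finset.prod_ne_zero_iff.2 fun l _ => ?_
    by_cases hl : l = i
    · rw [hl, hfac]
      refine mul_ne_zero (pow_ne_zero _ hs) ?_
      have := (hC _ hd1).ne_zero
      rwa [map_add, map_one] at this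
    · obtain ⟨j, rfl⟩ := Fin.exists_succAbove_eq hl
      refine mul_ne_zero (hr'u j).ne_zero ?_
      exact (hunit j (PowerSeries.C d)).ne_zero
  have hφ0 : ∀ x : P, x ≠ 0 → φ x ≠ 0 := fun x hx h => hx (hφ (by rw [h, map_zero]))
  have key := hN Q (φ t) (φ δ) (fun i => φ (q i)) (IsUnit.mk0 _ (hφ0 _ hδ0))
    (by rw [← DD_map]; exact IsUnit.mk0 _ (hφ0 _ hD0))
  have hT : D.T (rt r (φ t) (φ δ)) (fun i => φ (q i)) = φ b := hb
  rw [hT, ← DD_map, ← map_pow, ← map_pow, ← map_mul, ← map_mul, ← evN_map] at key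
  have key2 := hφ key
  change s ^ (2 * w + 4 * c) ∣ evN t δ q N
  rw [← key2, pow_add, pow_mul, pow_mul]
  refine Dvd.dvd.mul_left (mul_dvd_mul (pow_dvd_pow_of_dvd ⟨_, rfl⟩ w)
    (pow_dvd_pow_of_dvd ?_ c)) b
  refine Dvd.dvd.trans ⟨_, hfac⟩ ?_
  exact Finset.dvd_prod_of_mem (fun i => (algebraMap K P (r i) - t) *
      (algebraMap K P (r i) - t - δ)) (Finset.mem_univ i)

end fieldps

end Pool.Agent.MG.Two2


end

section

/-!
# Pure algebra part of the case `(2, 0)`: the order of the leading coefficient at a root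
-/

open Polynomial

namespace Pool.Agent.MG.Two2

variable {K : Type} [Field K]

/-- Polynomials in the three coefficients of `q`. -/
abbrev RE (K : Type) [Field K] : Type := MvPolynomial (Fin 3) K

/-- The leading coefficient: `δ = 0`. -/
noncomputable def lead (N : MvPolynomial (Fin 3) K[X][X]) : MvPolynomial (Fin 3) K[X] :=
  MvPolynomial.map (evalRingHom (0 : K[X])) N

theorem reg_poly1 (D : Dat K) (r : Fin 4 → K) (hr : Function.Injective r) (w c : ℕ)
    (N : MvPolynomial (Fin 3) K[X][X]) (hN : KI D r w c N) (i : Fin 4) :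
    (X : (RE K)[X][X]) ^ (2 * w + 4 * c) ∣
      evN (algebraMap K (RE K)[X][X] (r i) + X ^ 2) (X ^ 2 * C X)
        ![X ^ 2 * C (C (MvPolynomial.X 0)), X * C (C (MvPolynomial.X 1)),
          C (C (MvPolynomial.X 2))] N := by
  let R1 := (RE K)[X]
  let F := FractionRing R1
  let θ : R1[X] →ₐ[K] PowerSeries F := toPS R1
  let d : F := algebraMap R1 F X
  have hinj : Function.Injective (algebraMap R1 F) := IsFractionRing.injective R1 F
  have hd : d ≠ 0 := fun h => X_ne_zero (hinj (by rw [map_zero]; exact h))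
  have hd1 : d + 1 ≠ 0 := by
    intro h
    have h2 : (X + C 1 : R1) = 0 := hinj (by rw [map_add, C_1, map_one, map_zero]; exact h)
    exact X_add_C_ne_zero 1 h2
  have h1 := reg_ps (F := F) D r hr w c N hN i d hd hd1
    ![PowerSeries.C (algebraMap R1 F (C (MvPolynomial.X 0))),
      PowerSeries.C (algebraMap R1 F (C (MvPolynomial.X 1))),
      PowerSeries.C (algebraMap R1 F (C (MvPolynomial.X 2)))]
  rw [Polynomial.X_pow_dvd_iff]
  intro n hn
  apply hinj
  rw [← coeff_toPS (K := K), map_zero]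
  refine (PowerSeries.X_pow_dvd_iff.1 ?_) n hn
  rw [evN_map]
  have e1 : θ (algebraMap K R1[X] (r i) + X ^ 2) =
      algebraMap K (PowerSeries F) (r i) + PowerSeries.X ^ 2 := by
    rw [map_add, AlgHom.commutes, map_pow]
    exact congrArg _ (congrArg (· ^ 2) toPS_X)
  have e2 : θ (X ^ 2 * C X) = PowerSeries.X ^ 2 * PowerSeries.C d := by
    rw [map_mul, map_pow]
    exact congr (congrArg _ (congrArg (· ^ 2) toPS_X)) (toPS_C X)
  have e3 : (fun j => θ ((![X ^ 2 * C (C (MvPolynomial.X 0)), X * C (C (MvPolynomial.X 1)),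
      C (C (MvPolynomial.X 2))] : Fin 3 → R1[X]) j)) =
      ![PowerSeries.X ^ 2 * (![PowerSeries.C (algebraMap R1 F (C (MvPolynomial.X 0))),
        PowerSeries.C (algebraMap R1 F (C (MvPolynomial.X 1))),
        PowerSeries.C (algebraMap R1 F (C (MvPolynomial.X 2)))] : Fin 3 → PowerSeries F) 0,
        PowerSeries.X * (![PowerSeries.C (algebraMap R1 F (C (MvPolynomial.X 0))),
        PowerSeries.C (algebraMap R1 F (C (MvPolynomial.X 1))),
        PowerSeries.C (algebraMap R1 F (C (MvPolynomial.X 2)))] : Fin 3 → PowerSeries F) 1,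
        (![PowerSeries.C (algebraMap R1 F (C (MvPolynomial.X 0))),
        PowerSeries.C (algebraMap R1 F (C (MvPolynomial.X 1))),
        PowerSeries.C (algebraMap R1 F (C (MvPolynomial.X 2)))] : Fin 3 → PowerSeries F) 2] := by
    funext j
    fin_cases j
    · change θ (X ^ 2 * C (C (MvPolynomial.X 0))) = PowerSeries.X ^ 2 *
        PowerSeries.C (algebraMap R1 F (C (MvPolynomial.X 0)))
      rw [map_mul, map_pow]
      exact congr (congrArg _ (congrArg (· ^ 2) toPS_X)) (toPS_C _)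
    · change θ (X * C (C (MvPolynomial.X 1))) = PowerSeries.X *
        PowerSeries.C (algebraMap R1 F (C (MvPolynomial.X 1)))
      rw [map_mul]
      exact congr (congrArg _ toPS_X) (toPS_C _)
    · exact toPS_C _
  change PowerSeries.X ^ (2 * w + 4 * c) ∣ evN (θ (algebraMap K R1[X] (r i) + X ^ 2))
    (θ (X ^ 2 * C X)) (fun j => θ ((![X ^ 2 * C (C (MvPolynomial.X 0)),
      X * C (C (MvPolynomial.X 1)), C (C (MvPolynomial.X 2))] : Fin 3 → R1[X]) j)) N
  rw [e1, e2, e3]
  exact h1

theorem reg_poly2 (D : Dat K) (r : Fin 4 → K) (hr : Function.Injective r) (w c : ℕ)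
    (N : MvPolynomial (Fin 3) K[X][X]) (hN : KI D r w c N) (i : Fin 4) :
    (X : (RE K)[X]) ^ (2 * w + 4 * c) ∣
      MvPolynomial.eval₂ ((aeval (algebraMap K (RE K)[X] (r i) + X ^ 2) : K[X] →ₐ[K] (RE K)[X]) :
        K[X] →+* (RE K)[X])
        ![X ^ 2 * C (MvPolynomial.X 0), X * C (MvPolynomial.X 1), C (MvPolynomial.X 2)]
        (lead N) := by
  let θ : (RE K)[X][X] →ₐ[K] (RE K)[X] :=
    mapAlgHom ((aeval (0 : RE K) : (RE K)[X] →ₐ[RE K] RE K).restrictScalars K)
  have hX : θ X = X := by simp [θ]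
  have hC : ∀ p : (RE K)[X], θ (C p) = C (p.eval 0) := fun p => by
    simp [θ]
  have h1 := (reg_poly1 D r hr w c N hN i)
  have h2 := map_dvd θ h1
  rw [map_pow, hX] at h2
  replace h2 := h2.trans (dvd_of_eq (evN_map (B := (RE K)[X][X]) (B' := (RE K)[X]) θ
    (algebraMap K (RE K)[X][X] (r i) + X ^ 2)
    (X ^ 2 * C X) ![X ^ 2 * C (C (MvPolynomial.X 0)), X * C (C (MvPolynomial.X 1)),
      C (C (MvPolynomial.X 2))] N))
  have e1 : θ (algebraMap K (RE K)[X][X] (r i) + X ^ 2) = algebraMap K (RE K)[X] (r i) + X ^ 2 := by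
    rw [map_add, AlgHom.commutes, map_pow, hX]
  have e2 : θ (X ^ 2 * C X) = 0 := by
    rw [map_mul, hC, eval_X, C_0, mul_zero]
  have e3 : (fun j => θ ((![X ^ 2 * C (C (MvPolynomial.X 0)), X * C (C (MvPolynomial.X 1)),
      C (C (MvPolynomial.X 2))] : Fin 3 → (RE K)[X][X]) j)) =
      ![X ^ 2 * C (MvPolynomial.X 0), X * C (MvPolynomial.X 1), C (MvPolynomial.X 2)] := by
    funext j
    fin_cases j
    · change θ (X ^ 2 * C (C (MvPolynomial.X 0))) = X ^ 2 * C (MvPolynomial.X 0)
      rw [map_mul, map_pow, hX, hC, eval_C]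
    · change θ (X * C (C (MvPolynomial.X 1))) = X * C (MvPolynomial.X 1)
      rw [map_mul, hX, hC, eval_C]
    · change θ (C (C (MvPolynomial.X 2))) = C (MvPolynomial.X 2)
      rw [hC, eval_C]
  rw [e1, e2, e3] at h2
  refine h2.trans (dvd_of_eq ?_)
  rw [lead, MvPolynomial.eval₂_map, evN, MvPolynomial.coe_eval₂Hom]
  congr 1
  refine RingHom.ext fun p => ?_
  have : (ev (K := K) (algebraMap K (RE K)[X] (r i) + X ^ 2) 0 : K[X][X] →ₐ[K] (RE K)[X]) =
      (aeval (algebraMap K (RE K)[X] (r i) + X ^ 2) : K[X] →ₐ[K] (RE K)[X]).comp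
        ((aeval (0 : K[X]) : K[X][X] →ₐ[K[X]] K[X]).restrictScalars K) := by
    refine Polynomial.algHom_ext' ?_ ?_
    · ext
      simp [ev]
    · simp [ev]
  change (ev (K := K) (algebraMap K (RE K)[X] (r i) + X ^ 2) 0) p =
    aeval (algebraMap K (RE K)[X] (r i) + X ^ 2) (eval 0 p)
  rw [this]
  rfl

/-- The coefficients of the evaluation. -/
theorem coeff_ev (a : K) (G : MvPolynomial (Fin 3) K[X]) (m : Fin 3 →₀ ℕ) (n : ℕ) :
    MvPolynomial.coeff m ((MvPolynomial.eval₂
      ((aeval (algebraMap K (RE K)[X] a + X ^ 2) : K[X] →ₐ[K] (RE K)[X]) : K[X] →+* (RE K)[X])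
        ![X ^ 2 * C (MvPolynomial.X 0), X * C (MvPolynomial.X 1), C (MvPolynomial.X 2)]
        G).coeff n) =
      ((MvPolynomial.coeff m G).comp (C a + X ^ 2) * X ^ (2 * m 0 + m 1)).coeff n := by
  classical
  induction G using MvPolynomial.induction_on' with
  | add p q hp hq =>
    rw [MvPolynomial.eval₂_add, coeff_add, MvPolynomial.coeff_add, hp, hq,
      MvPolynomial.coeff_add, add_comp, add_mul, coeff_add]
  | monomial u p =>
    rw [MvPolynomial.eval₂_monomial, MvPolynomial.coeff_monomial]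
    have e1 : ((aeval (algebraMap K (RE K)[X] a + X ^ 2) : K[X] →ₐ[K] (RE K)[X]) :
        K[X] →+* (RE K)[X]) p = (p.comp (C a + X ^ 2)).map (algebraMap K (RE K)) := by
      change aeval (algebraMap K (RE K)[X] a + X ^ 2) p = _
      rw [map_comp, aeval_def, eval₂_eq_eval_map, comp, eval₂_eq_eval_map]
      congr 1
      · simp
      · rw [Polynomial.map_map]
        rfl
    have e2 : (u.prod fun i e => (![X ^ 2 * C (MvPolynomial.X 0), X * C (MvPolynomial.X 1),
        C (MvPolynomial.X 2)] : Fin 3 → (RE K)[X]) i ^ e) =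
        X ^ (2 * u 0 + u 1) * C (MvPolynomial.monomial u 1) := by
      rw [Finsupp.prod_fintype _ _ (fun i => pow_zero _), Fin.prod_univ_three]
      have e3 : (MvPolynomial.monomial u 1 : RE K) =
          MvPolynomial.X 0 ^ u 0 * MvPolynomial.X 1 ^ u 1 * MvPolynomial.X 2 ^ u 2 := by
        rw [MvPolynomial.monomial_eq, MvPolynomial.C_1, one_mul,
          Finsupp.prod_fintype _ _ (fun i => pow_zero _), Fin.prod_univ_three]
      rw [e3]
      simp only [Matrix.cons_val_zero, Matrix.cons_val_one, Matrix.cons_val_two,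
        Matrix.head_cons, Matrix.tail_cons, C_mul, C_pow, mul_pow]
      ring
    rw [e1, e2, ← mul_assoc]
    have e4 : (p.comp (C a + X ^ 2)).map (algebraMap K (RE K)) * X ^ (2 * u 0 + u 1) =
        ((p.comp (C a + X ^ 2)) * X ^ (2 * u 0 + u 1)).map (algebraMap K (RE K)) := by
      rw [Polynomial.map_mul, Polynomial.map_pow, map_X]
    rw [e4, coeff_mul_C, coeff_map]
    change MvPolynomial.coeff m (MvPolynomial.C _ * MvPolynomial.monomial u 1) = _
    rw [MvPolynomial.coeff_C_mul, MvPolynomial.coeff_monomial]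
    by_cases h : u = m
    · subst h
      simp
    · simp [h]

/-- `2 ord_{r_i} + 2 l + j ≥ 2 w + 4 c`. -/
theorem reg_dvd (D : Dat K) (r : Fin 4 → K) (hr : Function.Injective r) (w c : ℕ)
    (N : MvPolynomial (Fin 3) K[X][X]) (hN : KI D r w c N) (i : Fin 4) (m : Fin 3 →₀ ℕ) :
    (X : K[X]) ^ (2 * w + 4 * c) ∣
      (MvPolynomial.coeff m (lead N)).comp (C (r i) + X ^ 2) * X ^ (2 * m 0 + m 1) := by
  rw [Polynomial.X_pow_dvd_iff]
  intro n hn
  rw [← coeff_ev, Polynomial.X_pow_dvd_iff.1 (reg_poly2 D r hr w c N hN i) n hn,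
    MvPolynomial.coeff_zero]

/-- The multiplicity of the root `r_i`. -/
theorem reg_mult (D : Dat K) (r : Fin 4 → K) (hr : Function.Injective r) (w c : ℕ)
    (N : MvPolynomial (Fin 3) K[X][X]) (hN : KI D r w c N) (i : Fin 4) (m : Fin 3 →₀ ℕ)
    (h0 : MvPolynomial.coeff m (lead N) ≠ 0) :
    2 * w + 4 * c ≤ 2 * (MvPolynomial.coeff m (lead N)).rootMultiplicity (r i) + (2 * m 0 + m 1) := by
  set p := MvPolynomial.coeff m (lead N) with hp
  obtain ⟨p1, hp1, hnd⟩ := exists_eq_pow_rootMultiplicity_mul_and_not_dvd p h0 (r i)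
  have h1 := reg_dvd D r hr w c N hN i m
  rw [← hp] at h1
  set μ := p.rootMultiplicity (r i)
  have h2 : p.comp (C (r i) + X ^ 2) = X ^ (2 * μ) * p1.comp (C (r i) + X ^ 2) := by
    conv_lhs => rw [hp1]
    rw [mul_comp, pow_comp, sub_comp, X_comp, C_comp, add_sub_cancel_left, ← pow_mul]
  rw [h2, mul_assoc, mul_comm (p1.comp _), ← mul_assoc, ← pow_add] at h1
  by_contra hlt
  push Not at hlt
  have hX : (X : K[X]) ^ (2 * μ + (2 * m 0 + m 1)) ≠ 0 := pow_ne_zero _ X_ne_zero
  have h3 : (X : K[X]) ^ (2 * μ + (2 * m 0 + m 1)) * X ∣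
      X ^ (2 * μ + (2 * m 0 + m 1)) * p1.comp (C (r i) + X ^ 2) := by
    rw [← pow_succ]
    exact (pow_dvd_pow X hlt).trans h1
  have h5 : (X : K[X]) ∣ p1.comp (C (r i) + X ^ 2) := (mul_dvd_mul_iff_left hX).1 h3
  have h4 : p1.eval (r i) = 0 := by
    rw [X_dvd_iff, coeff_zero_eq_eval_zero, eval_comp] at h5
    simpa using h5
  exact hnd (dvd_iff_isRoot.2 h4)

end Pool.Agent.MG.Two2


end

section

/-!
# Pure algebra part of the case `(2, 0)`: the inversion `x ↦ 1/x`
-/

open Polynomial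

namespace Pool.Agent.MG.Two2

variable {K : Type} [Field K]

theorem shq_neg {B : Type} [CommRing B] (t : B) (q : Fin 3 → B) : shq t (shq (-t) q) = q := by
  funext i
  fin_cases i
  · change (q 0 + q 1 * -t + q 2 * (-t) ^ 2) + (q 1 + 2 * q 2 * -t) * t + q 2 * t ^ 2 = q 0
    ring
  · change (q 1 + 2 * q 2 * -t) + 2 * q 2 * t = q 1
    ring
  · rfl

/-- The new coefficients; `ti`, `v`, `R` are the inverses of `t`, `t + δ` and of the product of
the `r_i`. -/
def qh {B : Type} [CommRing B] (t ti v R : B) (q : Fin 3 → B) : Fin 3 → B :=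
  shq ti (fun i => (ti * v * R) * ![shq (-t) q 2, shq (-t) q 1, shq (-t) q 0] i)

theorem qh_map {B B' : Type} [CommRing B] [CommRing B'] (φ : B →+* B') (t ti v R : B)
    (q : Fin 3 → B) : (fun i => φ (qh t ti v R q i)) =
      qh (φ t) (φ ti) (φ v) (φ R) (fun i => φ (q i)) := by
  have h2 : φ 2 = 2 := map_ofNat φ 2
  funext i
  fin_cases i <;> simp [qh, shq, h2]

theorem map_cons2 {B B' : Type} (φ : B → B') {n : ℕ} (x y : B) (a : Fin n → B) :
    (fun i => φ ((Fin.cons x (Fin.cons y a) : Fin (n + 2) → B) i)) =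
      (Fin.cons (φ x) (Fin.cons (φ y) (fun i => φ (a i))) : Fin (n + 2) → B') := by
  rw [map_cons, map_cons]

section fieldQ

variable {Q : Type} [Field Q] [Algebra K Q]

theorem alg_inv (x : K) : algebraMap K Q x⁻¹ = (algebraMap K Q x)⁻¹ := map_inv₀ _ _

theorem T_inv_rt (D : Dat K) (r : Fin 4 → K) (hr : Function.Injective r) (hr0 : ∀ i, r i ≠ 0)
    (t δ : Q) (ht : t ≠ 0) (htδ : t + δ ≠ 0) (hδ : δ ≠ 0) (hD : DD r t δ ≠ 0) (q : Fin 3 → Q) :
    D.T (rt (fun i => (r i)⁻¹) t⁻¹ ((t + δ)⁻¹ - t⁻¹))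
      (qh t t⁻¹ (t + δ)⁻¹ (∏ i, algebraMap K Q (r i))⁻¹ q) = D.T (rt r t δ) q := by
  let a : Fin 6 → Q := Fin.cons t (Fin.cons (t + δ) fun i : Fin 4 => algebraMap K Q (r i))
  have ha : (fun i => a i - t) = rt r t δ := by
    refine (map_cons2 (fun x : Q => x - t) _ _ _).trans ?_
    unfold rt
    simp only [sub_self, add_sub_cancel_left]
  have hdis : Dis a := by
    have h1 := dis_rt r hr t δ (IsUnit.mk0 _ hδ) (IsUnit.mk0 _ hD)
    rw [← ha] at h1
    have h2 := h1.sub (-t)
    simpa only [sub_neg_eq_add, sub_add_cancel] using h2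
  have hrQ : ∀ i, algebraMap K Q (r i) ≠ 0 := fun i h =>
    hr0 i ((algebraMap K Q).injective (by rw [h, map_zero]))
  have ha0 : ∀ i, a i ≠ 0 := by
    intro i
    refine Fin.cases ht (fun j => ?_) i
    exact Fin.cases htδ (fun l => hrQ l) j
  have hai : (fun i => (a i)⁻¹) = Fin.cons t⁻¹ (Fin.cons (t + δ)⁻¹ fun i : Fin 4 =>
      (algebraMap K Q (r i))⁻¹) := by
    exact map_cons2 (fun x : Q => x⁻¹) _ _ _
  have hdi : Dis (fun i => (a i)⁻¹) := by
    intro i j hij
    refine IsUnit.mk0 _ ?_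
    rw [Ne, sub_eq_zero, inv_inj]
    exact fun e => (hdis i j hij).ne_zero (sub_eq_zero.2 e)
  have hai2 : (fun i => (a i)⁻¹ - t⁻¹) =
      rt (fun i => (r i)⁻¹) t⁻¹ ((t + δ)⁻¹ - t⁻¹) := by
    have e1 : (fun i => (a i)⁻¹ - t⁻¹) = fun i => (fun x => x - t⁻¹) ((fun i => (a i)⁻¹) i) := rfl
    rw [e1, hai]
    refine (map_cons2 (fun x : Q => x - t⁻¹) _ _ _).trans ?_
    unfold rt
    simp only [alg_inv, sub_self]
  have hprod : (∏ j, a j)⁻¹ = t⁻¹ * (t + δ)⁻¹ * (∏ i, algebraMap K Q (r i))⁻¹ := by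
    rw [Fin.prod_univ_succ, Fin.prod_univ_succ, mul_inv, mul_inv, mul_assoc]
    rfl
  have s1 := T_trans D a hdis t (shq (-t) q)
  rw [ha, shq_neg] at s1
  have s2 := T_inv D a hdis ha0 (shq (-t) q)
  have s3 := T_trans D (fun i => (a i)⁻¹) hdi t⁻¹
    (fun i => (∏ j, a j)⁻¹ * ![shq (-t) q 2, shq (-t) q 1, shq (-t) q 0] i)
  rw [hai2, s2, hprod] at s3
  rw [s1, ← s3]
  rfl

theorem DD_inv (r : Fin 4 → K) (hr0 : ∀ i, r i ≠ 0) (t δ : Q) (ht : t ≠ 0) (htδ : t + δ ≠ 0) :
    (∏ i, algebraMap K Q (r i)) ^ 2 * (t * (t + δ)) ^ 4 *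
      DD (fun i => (r i)⁻¹) t⁻¹ ((t + δ)⁻¹ - t⁻¹) = DD r t δ := by
  have hrQ : ∀ i, algebraMap K Q (r i) ≠ 0 := fun i h =>
    hr0 i ((algebraMap K Q).injective (by rw [h, map_zero]))
  have e0 : (t * (t + δ)) ^ 4 = ∏ _i : Fin 4, (t * (t + δ)) := by
    rw [Finset.prod_const, Finset.card_univ, Fintype.card_fin]
  unfold DD
  rw [e0, ← Finset.prod_pow, ← Finset.prod_mul_distrib, ← Finset.prod_mul_distrib]
  refine Finset.prod_congr rfl fun i _ => ?_
  rw [alg_inv]
  have := hrQ i
  field_simp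
  ring

theorem invQ (D : Dat K) (r : Fin 4 → K) (hr : Function.Injective r) (hr0 : ∀ i, r i ≠ 0)
    (w c : ℕ) (N N' : MvPolynomial (Fin 3) K[X][X]) (hN : KI D r w c N)
    (hN' : KI D (fun i => (r i)⁻¹) w c N')
    (t δ : Q) (ht : t ≠ 0) (htδ : t + δ ≠ 0) (hδ : δ ≠ 0) (hD : DD r t δ ≠ 0) (q : Fin 3 → Q) :
    evN t δ q N = (-1) ^ w * (∏ i, algebraMap K Q (r i)) ^ (2 * c) *
      (t * (t + δ)) ^ (w + 4 * c) * evN t⁻¹ ((t + δ)⁻¹ - t⁻¹)
        (qh t t⁻¹ (t + δ)⁻¹ (∏ i, algebraMap K Q (r i))⁻¹ q) N' := by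
  have hDD := DD_inv r hr0 t δ ht htδ
  have hδ' : (t * (t + δ)) * ((t + δ)⁻¹ - t⁻¹) = -δ := by
    field_simp
    ring
  have hδ0 : (t + δ)⁻¹ - t⁻¹ ≠ 0 := by
    intro h
    rw [h, mul_zero] at hδ'
    exact hδ (neg_eq_zero.1 hδ'.symm)
  have hD0 : DD (fun i => (r i)⁻¹) t⁻¹ ((t + δ)⁻¹ - t⁻¹) ≠ 0 := by
    intro h
    rw [h, mul_zero] at hDD
    exact hD hDD.symm
  rw [← hN Q t δ q (IsUnit.mk0 _ hδ) (IsUnit.mk0 _ hD),
    ← hN' Q _ _ _ (IsUnit.mk0 _ hδ0) (IsUnit.mk0 _ hD0), T_inv_rt D r hr hr0 t δ ht htδ hδ hD q]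
  have e1 : δ ^ w = (-1) ^ w * (t * (t + δ)) ^ w * ((t + δ)⁻¹ - t⁻¹) ^ w := by
    rw [mul_assoc, ← mul_pow, ← mul_pow, hδ', neg_one_mul, neg_neg]
  rw [e1, ← hDD, mul_pow _ _ c, mul_pow _ _ c, ← pow_mul, ← pow_mul, pow_add, pow_mul]
  ring

end fieldQ

/-- Evaluation of the leading coefficient. -/
noncomputable def evL (t : K) (q : Fin 3 → K) (G : MvPolynomial (Fin 3) K[X]) : K :=
  MvPolynomial.eval q (MvPolynomial.map (evalRingHom t) G)

theorem evN_lead (t : K) (q : Fin 3 → K) (N : MvPolynomial (Fin 3) K[X][X]) :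
    evN t 0 q N = evL t q (lead N) := by
  rw [evL, lead, MvPolynomial.map_map, MvPolynomial.eval_map, evN, MvPolynomial.coe_eval₂Hom]
  congr 1
  refine RingHom.ext fun p => ?_
  have : (ev (K := K) t 0 : K[X][X] →ₐ[K] K) =
      (aeval t : K[X] →ₐ[K] K).comp
        ((aeval (0 : K[X]) : K[X][X] →ₐ[K[X]] K[X]).restrictScalars K) := by
    refine Polynomial.algHom_ext' ?_ ?_
    · ext
      simp [ev]
    · simp [ev]
  change ev (K := K) t 0 p = eval t (eval 0 p)
  rw [this]
  change aeval t (aeval (0 : K[X]) p) = _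
  rw [coe_aeval_eq_eval, coe_aeval_eq_eval]

/-- The inversion formula for the leading coefficient. -/
theorem inv_lead (D : Dat K) (r : Fin 4 → K) (hr : Function.Injective r) (hr0 : ∀ i, r i ≠ 0)
    (w c : ℕ) (N N' : MvPolynomial (Fin 3) K[X][X]) (hN : KI D r w c N)
    (hN' : KI D (fun i => (r i)⁻¹) w c N') (t : K) (ht : t ≠ 0) (htr : ∀ i, t ≠ r i)
    (q : Fin 3 → K) :
    evL t q (lead N) = ((-1) ^ w * (∏ i, r i) ^ (2 * c) * t ^ (2 * w + 8 * c)) *
      evL t⁻¹ (qh t t⁻¹ t⁻¹ (∏ i, r i)⁻¹ q) (lead N') := by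
  let P := PowerSeries K
  let Q := FractionRing P
  let φ : P →ₐ[K] Q := IsScalarTower.toAlgHom K P Q
  have hφ : Function.Injective φ := IsFractionRing.injective P Q
  have hφ0 : ∀ x : P, x ≠ 0 → φ x ≠ 0 := fun x hx h => hx (hφ (by rw [h, map_zero]))
  let δ : P := PowerSeries.X
  let tP : P := algebraMap K P t
  have hcX : PowerSeries.constantCoeff δ = 0 := PowerSeries.constantCoeff_X
  have hcc : ∀ x : K, PowerSeries.constantCoeff (algebraMap K P x) = x := fun x => by
    rw [alg_ps]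
    simp
  have hu : IsUnit (tP + δ) := by
    rw [PowerSeries.isUnit_iff_constantCoeff, map_add, hcX, hcc, add_zero]
    exact IsUnit.mk0 t ht
  obtain ⟨v, hv⟩ := hu.exists_right_inv
  have hcv : PowerSeries.constantCoeff v = t⁻¹ := by
    have := congrArg PowerSeries.constantCoeff hv
    rw [map_mul, map_add, hcX, hcc, add_zero, map_one] at this
    exact eq_inv_of_mul_eq_one_right this
  have hφv : φ v = (φ tP + φ δ)⁻¹ := by
    have := congrArg φ hv
    rw [map_mul, map_add, map_one] at this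
    exact eq_inv_of_mul_eq_one_right this
  have hφt : φ tP = algebraMap K Q t := AlgHom.commutes φ t
  have hti : φ (algebraMap K P t⁻¹) = (φ tP)⁻¹ := by
    rw [AlgHom.commutes, hφt, alg_inv]
  have hRi : φ (algebraMap K P (∏ i, r i)⁻¹) = (∏ i, algebraMap K Q (r i))⁻¹ := by
    rw [AlgHom.commutes, alg_inv, map_prod]
  have ht0 : φ tP ≠ 0 := by
    rw [hφt]
    exact fun h => ht ((algebraMap K Q).injective (by rw [h, map_zero]))
  have hδ0 : φ δ ≠ 0 := hφ0 _ PowerSeries.X_ne_zero
  have htδ : φ tP + φ δ ≠ 0 := by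
    rw [← map_add]
    exact hφ0 _ hu.ne_zero
  have hD0 : DD r (φ tP) (φ δ) ≠ 0 := by
    rw [← DD_map]
    refine hφ0 _ ?_
    unfold DD
    refine Finset.prod_ne_zero_iff.2 fun i _ => mul_ne_zero ?_ ?_
    · intro h
      have := congrArg PowerSeries.constantCoeff h
      rw [map_sub, hcc, hcc, map_zero, sub_eq_zero] at this
      exact htr i this.symm
    · intro h
      have := congrArg PowerSeries.constantCoeff h
      rw [map_sub, map_sub, hcc, hcc, hcX, sub_zero, map_zero, sub_eq_zero] at this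
      exact htr i this.symm
  have key := invQ D r hr hr0 w c N N' hN hN' (φ tP) (φ δ) ht0 htδ hδ0 hD0
    (fun i => φ (algebraMap K P (q i)))
  have e1 : qh (φ tP) (φ tP)⁻¹ (φ tP + φ δ)⁻¹ (∏ i, algebraMap K Q (r i))⁻¹
      (fun i => φ (algebraMap K P (q i))) = fun i => φ (qh tP (algebraMap K P t⁻¹) v
        (algebraMap K P (∏ i, r i)⁻¹) (fun i => algebraMap K P (q i)) i) := by
    have := qh_map (φ : P →+* Q) tP (algebraMap K P t⁻¹) v
        (algebraMap K P (∏ i, r i)⁻¹) (fun i => algebraMap K P (q i))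
    refine Eq.trans ?_ this.symm
    change _ = qh (φ tP) (φ (algebraMap K P t⁻¹)) (φ v) (φ (algebraMap K P (∏ i, r i)⁻¹)) _
    rw [hti, hφv, hRi]
    rfl
  have e2 : (φ tP + φ δ)⁻¹ - (φ tP)⁻¹ = φ (v - algebraMap K P t⁻¹) := by
    rw [map_sub, hφv, hti]
  have e3 : (∏ i, algebraMap K Q (r i)) = φ (algebraMap K P (∏ i, r i)) := by
    rw [AlgHom.commutes, map_prod]
  rw [e1, e2, e3, ← hti, ← evN_map, ← evN_map, ← map_pow, ← map_add, ← map_mul φ tP,
    ← map_pow] at key
  have key1 : φ (evN tP δ (fun i => algebraMap K P (q i)) N) = φ ((-1) ^ w *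
      (algebraMap K P (∏ i, r i)) ^ (2 * c) * (tP * (tP + δ)) ^ (w + 4 * c) *
      evN (algebraMap K P t⁻¹) (v - algebraMap K P t⁻¹) (qh tP (algebraMap K P t⁻¹) v
        (algebraMap K P (∏ i, r i)⁻¹) (fun i => algebraMap K P (q i))) N') := by
    rw [key]
    simp only [map_mul, map_pow, map_neg, map_one]
  have key2 := hφ key1
  let cc : P →ₐ[K] K := { PowerSeries.constantCoeff with commutes' := hcc }
  have hccv : cc v = t⁻¹ := hcv
  have hccX : cc δ = 0 := hcX
  have hcca : ∀ x : K, cc (algebraMap K P x) = x := hcc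
  have key3 := congrArg cc key2
  rw [map_mul, map_mul, map_mul, evN_map, evN_map, map_pow, map_pow, map_pow, map_neg, map_one,
    map_mul, map_add, map_sub, hccX, hccv, hcca, hcca, hcca, sub_self, add_zero, evN_lead,
    evN_lead] at key3
  have e4 : (fun i => cc (qh tP (algebraMap K P t⁻¹) v (algebraMap K P (∏ i, r i)⁻¹)
      (fun i => algebraMap K P (q i)) i)) = qh t t⁻¹ t⁻¹ (∏ i, r i)⁻¹ q := by
    have := qh_map (cc : P →+* K) tP (algebraMap K P t⁻¹) v
        (algebraMap K P (∏ i, r i)⁻¹) (fun i => algebraMap K P (q i))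
    refine Eq.trans this ?_
    change qh (cc tP) (cc (algebraMap K P t⁻¹)) (cc v) (cc (algebraMap K P (∏ i, r i)⁻¹))
      (fun i => cc (algebraMap K P (q i))) = _
    rw [hcca, hcca, hccv, hcca]
    simp only [hcca]
  rw [e4] at key3
  simp only [hcca] at key3
  rw [key3]
  congr 2
  rw [← pow_two, ← pow_mul]
  congr 1
  ring

end Pool.Agent.MG.Two2


end

section

/-!
# Pure algebra part of the case `(2, 0)`: no pole when two roots collide
-/

open Polynomial

namespace Pool.Agent.MG.Two2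

variable {K : Type} [Field K]

section tri

open MvPolynomial in
/-- Substitution of `0` for one variable. -/
noncomputable def kill (i : Fin 3) : MvPolynomial (Fin 3) K →ₐ[K] MvPolynomial (Fin 3) K :=
  MvPolynomial.aeval fun j => if j = i then 0 else MvPolynomial.X j

theorem coeff_kill (i : Fin 3) (p : MvPolynomial (Fin 3) K) (m : Fin 3 →₀ ℕ) (hm : m i = 0) :
    MvPolynomial.coeff m (kill i p) = MvPolynomial.coeff m p := by
  classical
  induction p using MvPolynomial.induction_on' with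
  | add p q hp hq => rw [map_add, MvPolynomial.coeff_add, hp, hq, MvPolynomial.coeff_add]
  | monomial u c =>
    by_cases hu : u i = 0
    · have : kill i (MvPolynomial.monomial u c) = MvPolynomial.monomial u c := by
        rw [kill, MvPolynomial.aeval_monomial, MvPolynomial.monomial_eq]
        congr 1
        refine Finsupp.prod_congr fun j hj => ?_
        rw [if_neg]
        rintro rfl
        exact Finsupp.mem_support_iff.1 hj hu
      rw [this]
    · have : kill i (MvPolynomial.monomial u c) = 0 := by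
        rw [kill, MvPolynomial.aeval_monomial, Finsupp.prod,
          Finset.prod_eq_zero (Finsupp.mem_support_iff.2 hu), mul_zero]
        rw [if_pos rfl, zero_pow hu]
      rw [this, MvPolynomial.coeff_zero, MvPolynomial.coeff_monomial, if_neg]
      rintro rfl
      exact hu hm

/-- A triangular substitution. -/
noncomputable def tri (a b c d e g : K) : Fin 3 → MvPolynomial (Fin 3) K :=
  ![MvPolynomial.C a * MvPolynomial.X 0,
    MvPolynomial.C b * MvPolynomial.X 1 + MvPolynomial.C c * MvPolynomial.X 0,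
    MvPolynomial.C d * MvPolynomial.X 2 + MvPolynomial.C e * MvPolynomial.X 1 +
      MvPolynomial.C g * MvPolynomial.X 0]

theorem coeff_X_pow_mul (i : Fin 3) (n : ℕ) (p : MvPolynomial (Fin 3) K) (m : Fin 3 →₀ ℕ) :
    MvPolynomial.coeff m (MvPolynomial.X i ^ n * p) =
      if n ≤ m i then MvPolynomial.coeff (m - Finsupp.single i n) p else 0 := by
  classical
  rw [MvPolynomial.X_pow_eq_monomial, MvPolynomial.coeff_monomial_mul']
  have : Finsupp.single i n ≤ m ↔ n ≤ m i := by
    rw [Finsupp.single_le_iff]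
  simp only [this, one_mul]

theorem coeff_tri_monomial (a b c d e g : K) (u m : Fin 3 →₀ ℕ)
    (h : m 0 ≤ u 0 ∧ (u 0 = m 0 → m 1 ≤ u 1)) :
    MvPolynomial.coeff m ((tri a b c d e g 0) ^ u 0 * (tri a b c d e g 1) ^ u 1 *
      (tri a b c d e g 2) ^ u 2) =
      if u = m then a ^ m 0 * b ^ m 1 * d ^ m 2 else 0 := by
  classical
  have e0 : (tri a b c d e g 0) ^ u 0 * (tri a b c d e g 1) ^ u 1 * (tri a b c d e g 2) ^ u 2 =
      MvPolynomial.C (a ^ u 0) * (MvPolynomial.X 0 ^ u 0 *
        ((tri a b c d e g 1) ^ u 1 * (tri a b c d e g 2) ^ u 2)) := by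
    simp only [tri, Matrix.cons_val_zero, mul_pow, MvPolynomial.C_pow]
    ring
  rw [e0, MvPolynomial.coeff_C_mul, coeff_X_pow_mul]
  by_cases h0 : u 0 = m 0
  swap
  · rw [if_neg (by omega), if_neg (by rintro rfl; exact h0 rfl), mul_zero]
  rw [if_pos (by omega)]
  set m' := m - Finsupp.single 0 (u 0) with hm'
  have hm'0 : m' 0 = 0 := by simp [hm', h0]
  have hm'1 : m' 1 = m 1 := by simp [hm']
  have hm'2 : m' 2 = m 2 := by simp [hm']
  rw [← coeff_kill 0 _ m' hm'0, map_mul, map_pow, map_pow]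
  have k1 : kill (0 : Fin 3) (tri a b c d e g 1) = MvPolynomial.C b * MvPolynomial.X 1 := by
    simp [tri, kill]
  have k2 : kill (0 : Fin 3) (tri a b c d e g 2) =
      MvPolynomial.C d * MvPolynomial.X 2 + MvPolynomial.C e * MvPolynomial.X 1 := by
    simp [tri, kill]
  rw [k1, k2, mul_pow, ← MvPolynomial.C_pow, mul_assoc, MvPolynomial.coeff_C_mul, coeff_X_pow_mul]
  by_cases h1 : u 1 = m 1
  swap
  · rw [if_neg (by have := h.2 h0; omega), if_neg (by rintro rfl; exact h1 rfl), mul_zero,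
      mul_zero]
  rw [if_pos (by omega)]
  set m'' := m' - Finsupp.single 1 (u 1) with hm''
  have hm''0 : m'' 0 = 0 := by simp [hm'', hm'0]
  have hm''1 : m'' 1 = 0 := by simp [hm'', hm'1, h1]
  have hm''2 : m'' 2 = m 2 := by simp [hm'', hm'2]
  rw [← coeff_kill 1 _ m'' hm''1, map_pow]
  have k3 : kill (1 : Fin 3) (MvPolynomial.C d * MvPolynomial.X 2 +
      MvPolynomial.C e * MvPolynomial.X 1 : MvPolynomial (Fin 3) K) =
      MvPolynomial.C d * MvPolynomial.X 2 := by
    simp [kill]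
  rw [k3, mul_pow, ← MvPolynomial.C_pow, MvPolynomial.coeff_C_mul, MvPolynomial.coeff_X_pow]
  by_cases h2 : u 2 = m 2
  · have hum : u = m := by
      ext i
      fin_cases i
      · exact h0
      · exact h1
      · exact h2
    have : Finsupp.single 2 (u 2) = m'' := by
      ext i
      fin_cases i
      · simp [hm''0]
      · simp [hm''1]
      · simp [hm''2, h2]
    rw [if_pos this, if_pos hum, hum]
    ring
  · rw [if_neg, if_neg (by rintro rfl; exact h2 rfl)]
    · ring
    · intro h3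
      have := DFunLike.congr_fun h3 2
      simp only [Finsupp.single_eq_same] at this
      rw [hm''2] at this
      exact h2 this

theorem coeff_tri (a b c d e g : K) (p : MvPolynomial (Fin 3) K) (m : Fin 3 →₀ ℕ)
    (h : ∀ u ∈ p.support, m 0 ≤ u 0 ∧ (u 0 = m 0 → m 1 ≤ u 1)) :
    MvPolynomial.coeff m (MvPolynomial.bind₁ (tri a b c d e g) p) =
      MvPolynomial.coeff m p * (a ^ m 0 * b ^ m 1 * d ^ m 2) := by
  classical
  conv_lhs => rw [p.as_sum]
  rw [map_sum, MvPolynomial.coeff_sum]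
  have h1 : ∀ u ∈ p.support, MvPolynomial.coeff m (MvPolynomial.bind₁ (tri a b c d e g)
      (MvPolynomial.monomial u (MvPolynomial.coeff u p))) =
      if u = m then MvPolynomial.coeff u p * (a ^ m 0 * b ^ m 1 * d ^ m 2) else 0 := by
    intro u hu
    rw [MvPolynomial.bind₁_monomial, MvPolynomial.coeff_C_mul]
    have : (∏ i ∈ u.support, tri a b c d e g i ^ u i) =
        (tri a b c d e g 0) ^ u 0 * (tri a b c d e g 1) ^ u 1 * (tri a b c d e g 2) ^ u 2 := by
      have := Finsupp.prod_fintype u (fun i e' => tri a b c d e g i ^ e') (fun i => pow_zero _)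
      rw [Fin.prod_univ_three] at this
      exact this
    rw [this, coeff_tri_monomial a b c d e g u m (h u hu), mul_ite, mul_zero]
  rw [Finset.sum_congr rfl h1, Finset.sum_ite_eq']
  by_cases hm : m ∈ p.support
  · rw [if_pos hm]
  · rw [if_neg hm, MvPolynomial.notMem_support_iff.1 hm, zero_mul]

end tri

theorem sum_mult (r : Fin 4 → K) (hr : Function.Injective r) (p : K[X]) (hp : p ≠ 0) :
    ∑ i, p.rootMultiplicity (r i) ≤ p.natDegree := by
  have h1 : (∏ i, (X - C (r i)) ^ p.rootMultiplicity (r i)) ∣ p := by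
    refine Finset.prod_dvd_of_coprime ?_ fun i _ => p.pow_rootMultiplicity_dvd (r i)
    intro i _ j _ hij
    refine IsCoprime.pow (isCoprime_X_sub_C_of_isUnit_sub ?_)
    exact IsUnit.mk0 _ (sub_ne_zero.2 fun h => hij (hr h))
  have h2 := natDegree_le_of_dvd h1 hp
  rw [natDegree_prod_of_monic _ _ fun i _ => (monic_X_sub_C _).pow _] at h2
  simpa using h2

end Pool.Agent.MG.Two2


end

section

/-!
# Pure algebra part of the case `(2, 0)`: descent on the pole order
-/

open Polynomial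

namespace Pool.Agent.MG.Two2

variable {K : Type} [Field K]

theorem qh_eval (t R : K) (ht : t ≠ 0) (q : Fin 3 → K) (p : MvPolynomial (Fin 3) K) :
    MvPolynomial.eval (qh t t⁻¹ t⁻¹ R q) p =
      MvPolynomial.eval q (MvPolynomial.bind₁ (tri (t⁻¹ ^ 4 * R) (-(t⁻¹ ^ 2 * R))
        (2 * t⁻¹ ^ 3 * R) R (-(t⁻¹ * R)) (t⁻¹ ^ 2 * R)) p) := by
  have h1 := MvPolynomial.aeval_bind₁ (S := K) q (tri (t⁻¹ ^ 4 * R) (-(t⁻¹ ^ 2 * R))
        (2 * t⁻¹ ^ 3 * R) R (-(t⁻¹ * R)) (t⁻¹ ^ 2 * R)) p
  have ha : ∀ (f : Fin 3 → K) (p : MvPolynomial (Fin 3) K), MvPolynomial.aeval f p =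
      MvPolynomial.eval f p := fun f p => by
    rw [← MvPolynomial.coe_aeval_eq_eval]
    rfl
  rw [ha, ha] at h1
  rw [h1]
  congr 2
  funext i
  fin_cases i
  · simp [qh, shq, tri]
    field_simp
    ring
  · simp [qh, shq, tri]
    field_simp
    ring
  · simp [qh, shq, tri]
    field_simp
    ring

theorem lead_coeff_rel [Infinite K] (D : Dat K) (r : Fin 4 → K) (hr : Function.Injective r)
    (hr0 : ∀ i, r i ≠ 0) (w c : ℕ) (N N' : MvPolynomial (Fin 3) K[X][X]) (hN : KI D r w c N)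
    (hN' : KI D (fun i => (r i)⁻¹) w c N') (m : Fin 3 →₀ ℕ)
    (hm : ∀ u ∈ (lead N').support, m 0 ≤ u 0 ∧ (u 0 = m 0 → m 1 ≤ u 1)) (t : K) (ht : t ≠ 0)
    (htr : ∀ i, t ≠ r i) :
    ((MvPolynomial.coeff m (lead N)).eval t) =
      ((-1) ^ w * (∏ i, r i) ^ (2 * c) * t ^ (2 * w + 8 * c)) *
        ((MvPolynomial.coeff m (lead N')).eval t⁻¹ *
        ((t⁻¹ ^ 4 * (∏ i, r i)⁻¹) ^ m 0 * (-(t⁻¹ ^ 2 * (∏ i, r i)⁻¹)) ^ m 1 *
          (∏ i, r i)⁻¹ ^ m 2)) := by
  have h1 : MvPolynomial.map (evalRingHom t) (lead N) =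
      MvPolynomial.C ((-1) ^ w * (∏ i, r i) ^ (2 * c) * t ^ (2 * w + 8 * c)) *
        MvPolynomial.bind₁ (tri (t⁻¹ ^ 4 * (∏ i, r i)⁻¹) (-(t⁻¹ ^ 2 * (∏ i, r i)⁻¹))
        (2 * t⁻¹ ^ 3 * (∏ i, r i)⁻¹) (∏ i, r i)⁻¹ (-(t⁻¹ * (∏ i, r i)⁻¹))
        (t⁻¹ ^ 2 * (∏ i, r i)⁻¹)) (MvPolynomial.map (evalRingHom t⁻¹) (lead N')) := by
    refine MvPolynomial.funext fun q => ?_
    rw [map_mul, MvPolynomial.eval_C, ← qh_eval t _ ht]
    exact inv_lead D r hr hr0 w c N N' hN hN' t ht htr q
  have h2 := congrArg (MvPolynomial.coeff m) h1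
  rw [MvPolynomial.coeff_map, MvPolynomial.coeff_C_mul, coeff_tri, MvPolynomial.coeff_map] at h2
  · exact h2
  · intro u hu
    refine hm u ?_
    rw [MvPolynomial.mem_support_iff] at hu ⊢
    intro h
    rw [MvPolynomial.coeff_map, h, map_zero] at hu
    exact hu rfl

/-- A minimal index. -/
theorem exists_min (p : MvPolynomial (Fin 3) K[X]) (hp : p ≠ 0) :
    ∃ m ∈ p.support, ∀ u ∈ p.support, m 0 ≤ u 0 ∧ (u 0 = m 0 → m 1 ≤ u 1) := by
  classical
  have h0 : p.support.Nonempty := MvPolynomial.support_nonempty.2 hp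
  obtain ⟨m₀, hm₀, h1⟩ := p.support.exists_min_image (fun u => u 0) h0
  have h2 : (p.support.filter fun u => u 0 = m₀ 0).Nonempty :=
    ⟨m₀, Finset.mem_filter.2 ⟨hm₀, rfl⟩⟩
  obtain ⟨m, hm, h3⟩ := (p.support.filter fun u => u 0 = m₀ 0).exists_min_image (fun u => u 1) h2
  rw [Finset.mem_filter] at hm
  refine ⟨m, hm.1, fun u hu => ⟨?_, fun h => ?_⟩⟩
  · rw [hm.2]
    exact h1 u hu
  · exact h3 u (Finset.mem_filter.2 ⟨hu, by rw [h, hm.2]⟩)

theorem lead_eq_zero [Infinite K] (D : Dat K) (r : Fin 4 → K) (hr : Function.Injective r)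
    (hr0 : ∀ i, r i ≠ 0) (w c : ℕ) (N N' : MvPolynomial (Fin 3) K[X][X])
    (hN : KI D r (w + 1) c N) (hN' : KI D (fun i => (r i)⁻¹) (w + 1) c N') : lead N' = 0 := by
  by_contra h0
  obtain ⟨m, hm, hmin⟩ := exists_min (lead N') h0
  have hp' : MvPolynomial.coeff m (lead N') ≠ 0 := MvPolynomial.mem_support_iff.1 hm
  set p := MvPolynomial.coeff m (lead N) with hp
  set p' := MvPolynomial.coeff m (lead N') with hpp
  set R := ∏ i, r i with hR
  have hR0 : R ≠ 0 := Finset.prod_ne_zero_iff.2 fun i _ => hr0 i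
  set κ : K := (-1) ^ (w + 1) * R ^ (2 * c) * ((R⁻¹) ^ m 0 * (-R⁻¹) ^ m 1 * (R⁻¹) ^ m 2) with hκ
  have hκ0 : κ ≠ 0 := by
    have : R⁻¹ ≠ 0 := inv_ne_zero hR0
    have h2 : (-1 : K) ≠ 0 := by
      rw [neg_ne_zero]
      exact one_ne_zero
    exact mul_ne_zero (mul_ne_zero (pow_ne_zero _ h2) (pow_ne_zero _ hR0))
      (mul_ne_zero (mul_ne_zero (pow_ne_zero _ this) (pow_ne_zero _ (neg_ne_zero.2 this)))
        (pow_ne_zero _ this))
  have e1 : p * X ^ (4 * m 0 + 2 * m 1 + p'.natDegree) =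
      C κ * X ^ (2 * (w + 1) + 8 * c) * p'.reverse := by
    refine eq_of_infinite_eval_eq _ _ ?_
    have hfin : (Set.insert (0 : K) (Set.range r)).Finite := (Set.finite_range r).insert 0
    refine hfin.infinite_compl.mono fun t ht => ?_
    have ht0 : t ≠ 0 := fun h => ht (Or.inl h)
    have htr : ∀ i, t ≠ r i := fun i h => ht (Or.inr ⟨i, h.symm⟩)
    change eval t _ = eval t _
    have h1 := lead_coeff_rel D r hr hr0 (w + 1) c N N' hN hN' m hmin t ht0 htr
    rw [← hp, ← hpp, ← hR] at h1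
    have h2 : eval t⁻¹ p' = eval t p'.reverse * t⁻¹ ^ p'.natDegree := by
      let _ : Invertible t⁻¹ := invertibleOfNonzero (inv_ne_zero ht0)
      have h3 := eval₂_reverse_mul_pow (RingHom.id K) t⁻¹ p'
      rw [invOf_eq_inv, inv_inv] at h3
      rw [eval, ← h3]
      rfl
    rw [eval_mul, eval_mul, eval_mul, eval_C, eval_pow, eval_pow, eval_X, h1, h2, hκ]
    have h4 : t⁻¹ ^ (4 * m 0 + 2 * m 1 + p'.natDegree) * t ^ (4 * m 0 + 2 * m 1 + p'.natDegree) =
        1 := by
      rw [← mul_pow, inv_mul_cancel₀ ht0, one_pow]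
    have h5 : (t⁻¹ ^ 4 * R⁻¹) ^ m 0 * (-(t⁻¹ ^ 2 * R⁻¹)) ^ m 1 * t⁻¹ ^ p'.natDegree =
        (R⁻¹ ^ m 0 * (-R⁻¹) ^ m 1) * t⁻¹ ^ (4 * m 0 + 2 * m 1 + p'.natDegree) := by
      rw [← mul_neg, mul_pow, mul_pow, ← pow_mul, ← pow_mul, pow_add, pow_add]
      ring
    linear_combination ((-1) ^ (w + 1) * R ^ (2 * c) * t ^ (2 * (w + 1) + 8 * c) *
      eval t p'.reverse * R⁻¹ ^ m 2) * (t ^ (4 * m 0 + 2 * m 1 + p'.natDegree) * h5 +
      (R⁻¹ ^ m 0 * (-R⁻¹) ^ m 1) * h4)
  have hrev : p'.reverse ≠ 0 := by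
    rw [Ne, reverse_eq_zero]
    exact hp'
  have hp0 : p ≠ 0 := by
    intro h
    rw [h, zero_mul] at e1
    exact mul_ne_zero (mul_ne_zero (C_ne_zero.2 hκ0) (pow_ne_zero _ X_ne_zero)) hrev e1.symm
  have e2 := congrArg natDegree e1
  rw [natDegree_mul hp0 (pow_ne_zero _ X_ne_zero), natDegree_X_pow,
    natDegree_mul (mul_ne_zero (C_ne_zero.2 hκ0) (pow_ne_zero _ X_ne_zero)) hrev,
    natDegree_C_mul hκ0, natDegree_X_pow] at e2
  have e3 := reverse_natDegree_le p'
  have e4 := sum_mult r hr p hp0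
  rw [Fin.sum_univ_four] at e4
  have f0 := reg_mult D r hr (w + 1) c N hN 0 m hp0
  have f1 := reg_mult D r hr (w + 1) c N hN 1 m hp0
  have f2 := reg_mult D r hr (w + 1) c N hN 2 m hp0
  have f3 := reg_mult D r hr (w + 1) c N hN 3 m hp0
  rw [← hp] at f0 f1 f2 f3
  omega

theorem KI_raise (D : Dat K) (r : Fin 4 → K) (w c a b : ℕ) (N : MvPolynomial (Fin 3) K[X][X])
    (hN : KI D r w c N) : ∃ N', KI D r (w + a) (c + b) N' := by
  refine ⟨N * MvPolynomial.C (X ^ a * DD r (C X : K[X][X]) X ^ b), ?_⟩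
  intro B _ _ t δ q h1 h2
  rw [map_mul, ← hN B t δ q h1 h2, evN_C, map_mul, map_pow, map_pow, DD_map, ev_X, ev_C, aeval_X]
  ring

theorem KI_lower (D : Dat K) (r : Fin 4 → K) (w c : ℕ) (N : MvPolynomial (Fin 3) K[X][X])
    (hN : KI D r (w + 1) c N) (h0 : lead N = 0) : ∃ N', KI D r w c N' := by
  have h1 : (MvPolynomial.C (X : K[X][X]) : MvPolynomial (Fin 3) K[X][X]) ∣ N := by
    rw [MvPolynomial.C_dvd_iff_dvd_coeff]
    intro m
    have := congrArg (MvPolynomial.coeff m) h0
    rw [lead, MvPolynomial.coeff_map, MvPolynomial.coeff_zero] at this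
    rw [X_dvd_iff, coeff_zero_eq_eval_zero]
    exact this
  obtain ⟨N', rfl⟩ := h1
  refine ⟨N', ?_⟩
  intro B _ _ t δ q h1 h2
  have h3 := hN B t δ q h1 h2
  rw [map_mul, evN_C, ev_X] at h3
  obtain ⟨u, rfl⟩ := h1
  have h4 : (u : B) * (D.T (rt r t (u : B)) q * ((u : B) ^ w * DD r t (u : B) ^ c)) =
      u * evN t (u : B) q N' := by
    rw [← h3]
    ring
  exact (Units.mul_right_inj u).1 h4

/-- There is no pole when two roots collide. -/
theorem KI_zero [Infinite K] (D : Dat K) (r : Fin 4 → K) (hr : Function.Injective r)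
    (hr0 : ∀ i, r i ≠ 0) : ∃ (c : ℕ) (N : MvPolynomial (Fin 3) K[X][X]), KI D r 0 c N := by
  have hr' : Function.Injective fun i => (r i)⁻¹ := fun i j h => hr (inv_inj.1 h)
  have hr0' : ∀ i, (r i)⁻¹ ≠ 0 := fun i => inv_ne_zero (hr0 i)
  have hrr : (fun i => ((r i)⁻¹)⁻¹) = r := by simp
  obtain ⟨n, N, hN⟩ := KI_exists D r hr
  obtain ⟨n', N', hN'⟩ := KI_exists D _ hr'
  obtain ⟨M, hM⟩ := KI_raise D r n n n' n' N hN
  obtain ⟨M', hM'⟩ := KI_raise D _ n' n' n n N' hN'
  rw [add_comm n' n] at hM'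
  suffices H : ∀ (w c : ℕ) (N N' : MvPolynomial (Fin 3) K[X][X]), KI D r w c N →
      KI D (fun i => (r i)⁻¹) w c N' → ∃ N₀, KI D r 0 c N₀ from
    ⟨n + n', H _ _ M M' hM hM'⟩
  intro w
  induction w with
  | zero => exact fun c N _ hN _ => ⟨N, hN⟩
  | succ w ih =>
    intro c N N' hN hN'
    have h1 : lead N' = 0 := lead_eq_zero D r hr hr0 w c N N' hN hN'
    have h2 : lead N = 0 := by
      refine lead_eq_zero D (fun i => (r i)⁻¹) hr' hr0' w c N' N hN' ?_
      rw [hrr]
      exact hN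
    obtain ⟨N₁, hN₁⟩ := KI_lower D r w c N hN h2
    obtain ⟨N₂, hN₂⟩ := KI_lower D _ w c N' hN' h1
    exact ih c N₁ N₂ hN₁ hN₂

end Pool.Agent.MG.Two2


end
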