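import Mathlib
import Pool.Agent.KDM.C12
import Pool.Agent.KDM.C17
import Pool.Agent.KDM.C18
import Pool.Agent.KDM.C19

/-! Parts: MG.H2.CfDefs, MG.H2.YDefs, MG.H2.StmtsY, MG.H2.StmtsF, MG.H2.YAR, MG.H2.YOU, MG.H2.YUA, MG.H2.YVE -/

section

/-!
# Laurent coefficients of functions on the curves `y² = f(x)`: definitions

`cf j v` is the coefficient of `xʲ y` and `cg j v` is the coefficient of `xʲ` of `v` in
`A₁₂ = B[x, 1/x] ⊕ B[x, 1/x] y`.
-/

open Polynomial

namespace Pool.Agent.MG.H2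

section

variable (B : Type) [CommRing B] (f : Fin 7 → B)

/-- `f(x)` as a polynomial. -/
noncomputable def pp (f : Fin 7 → B) : B[X] := pol (fun i => C (f i)) X

/-- `f(x)` as a Laurent polynomial. -/
noncomputable def lpol : LaurentPolynomial B :=
  pol (fun i => LaurentPolynomial.C (f i)) (LaurentPolynomial.T 1)

/-- The equation `Y² - f(x)`. -/
noncomputable abbrev leq : (LaurentPolynomial B)[X] := X ^ 2 - C (lpol B f)

theorem leq_monic : (leq B f).Monic := monic_X_pow_sub_C _ two_ne_zero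

/-- `B[x, 1/x][Y]/(Y² - f(x))`. -/
abbrev LY : Type := AdjoinRoot (leq B f)

/-- `x` as a unit. -/
noncomputable def tu : (LaurentPolynomial B)ˣ where
  val := LaurentPolynomial.T 1
  inv := LaurentPolynomial.T (-1)
  val_inv := by rw [← LaurentPolynomial.T_add]; exact LaurentPolynomial.T_zero
  inv_val := by rw [← LaurentPolynomial.T_add]; exact LaurentPolynomial.T_zero

/-- The homomorphism from `A₁₂`. -/
noncomputable def toLY : A12 B f →+* LY B f :=
  lift12 ((AdjoinRoot.of (leq B f)).comp LaurentPolynomial.C)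
    (Units.map (AdjoinRoot.of (leq B f) : LaurentPolynomial B →* LY B f) (tu B))
    (AdjoinRoot.root (leq B f)) (by
      have h := AdjoinRoot.eval₂_root (leq B f)
      rw [eval₂_sub, eval₂_pow, eval₂_X, eval₂_C, sub_eq_zero] at h
      rw [h, lpol, pol_map]
      rfl)

@[simp]
theorem toLY_b (c : B) : toLY B f (algebraMap B _ c) = AdjoinRoot.of _ (LaurentPolynomial.C c) :=
  lift12_b _ _ _ _ _

@[simp]
theorem toLY_x : toLY B f (xu B f : A12 B f) = AdjoinRoot.of _ (LaurentPolynomial.T 1) :=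
  lift12_x _ _ _ _

@[simp]
theorem toLY_xi : toLY B f ((xu B f)⁻¹ : (A12 B f)ˣ).val =
    AdjoinRoot.of _ (LaurentPolynomial.T (-1)) :=
  lift12_xi _ _ _ _

@[simp]
theorem toLY_y : toLY B f (yv B f) = AdjoinRoot.root _ := lift12_y _ _ _ _

variable {B f}

/-- The part of `v` without `y` (`i = 0`) and the coefficient of `y` (`i = 1`). -/
noncomputable def lco (i : ℕ) : A12 B f →ₗ[B] LaurentPolynomial B where
  toFun v := (AdjoinRoot.modByMonicHom (leq_monic B f) (toLY B f v)).coeff i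
  map_add' v w := by rw [map_add, map_add, coeff_add]
  map_smul' b v := by
    rw [Algebra.smul_def, map_mul, toLY_b]
    have : AdjoinRoot.of (leq B f) (LaurentPolynomial.C b) * toLY B f v =
        LaurentPolynomial.C b • toLY B f v := by
      rw [Algebra.smul_def]
      rfl
    rw [this, map_smul, coeff_smul, smul_eq_mul, RingHom.id_apply, LaurentPolynomial.smul_eq_C_mul]

/-- The coefficient of `xʲ y`. -/
noncomputable def cf (j : ℤ) : A12 B f →ₗ[B] B where
  toFun v := (lco 1 v).coeff j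
  map_add' v w := by rw [map_add]; rfl
  map_smul' b v := by rw [map_smul]; rfl

/-- The coefficient of `xʲ`. -/
noncomputable def cg (j : ℤ) : A12 B f →ₗ[B] B where
  toFun v := (lco 0 v).coeff j
  map_add' v w := by rw [map_add]; rfl
  map_smul' b v := by rw [map_smul]; rfl

/-! ## Scaling -/

/-- `ν² f'(x) = f(λ x)`. -/
def IsSc (lam nu : B) (f f' : Fin 7 → B) : Prop :=
  ∀ i : Fin 7, nu ^ 2 * f' i = lam ^ (i : ℕ) * f i

theorem pol_sc {R : Type} [CommRing R] {lam nu : R} {f f' : Fin 7 → R}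
    (h : ∀ i : Fin 7, nu ^ 2 * f' i = lam ^ (i : ℕ) * f i) (x : R) :
    nu ^ 2 * pol f' x = pol f (lam * x) := by
  have h0 := h 0
  have h1 := h 1
  have h2 := h 2
  have h3 := h 3
  have h4 := h 4
  have h5 := h 5
  have h6 := h 6
  simp only [Fin.val_zero, Fin.val_one, pow_zero, pow_one, one_mul,
    show ((2 : Fin 7) : ℕ) = 2 from rfl, show ((3 : Fin 7) : ℕ) = 3 from rfl,
    show ((4 : Fin 7) : ℕ) = 4 from rfl, show ((5 : Fin 7) : ℕ) = 5 from rfl,
    show ((6 : Fin 7) : ℕ) = 6 from rfl] at h0 h1 h2 h3 h4 h5 h6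
  simp only [pol]
  linear_combination h0 + x * h1 + x ^ 2 * h2 + x ^ 3 * h3 + x ^ 4 * h4 + x ^ 5 * h5 + x ^ 6 * h6

theorem pol_sc_map {R : Type} [CommRing R] (φ : B →+* R) {lam nu : B} {f f' : Fin 7 → B}
    (h : IsSc lam nu f f') (x : R) :
    φ nu ^ 2 * pol (fun i => φ (f' i)) x = pol (fun i => φ (f i)) (φ lam * x) :=
  pol_sc (fun i => by rw [← map_pow, ← map_mul, h i, map_mul, map_pow]) x

/-- `x ↦ λ x`, `y ↦ ν y`. -/
noncomputable def sc1 {lam nu : B} {f f' : Fin 7 → B} (h : IsSc lam nu f f') :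
    A1 B f →+* A1 B f' :=
  lift1 (algebraMap B _) (algebraMap B _ lam * x1 B f') (algebraMap B _ nu * y1 B f') (by
    rw [mul_pow, rel1, pol_sc_map _ h])

@[simp]
theorem sc1_b {lam nu : B} {f f' : Fin 7 → B} (h : IsSc lam nu f f') (c : B) :
    sc1 h (algebraMap B _ c) = algebraMap B _ c := lift1_b _ _ _ _ _

@[simp]
theorem sc1_x {lam nu : B} {f f' : Fin 7 → B} (h : IsSc lam nu f f') :
    sc1 h (x1 B f) = algebraMap B _ lam * x1 B f' := lift1_x _ _ _ _

@[simp]
theorem sc1_y {lam nu : B} {f f' : Fin 7 → B} (h : IsSc lam nu f f') :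
    sc1 h (y1 B f) = algebraMap B _ nu * y1 B f' := lift1_y _ _ _ _

/-- `x ↦ λ x`, `y ↦ ν y` on the intersection. -/
noncomputable def sc12 {lam : Bˣ} {nu : B} {f f' : Fin 7 → B} (h : IsSc (lam : B) nu f f') :
    A12 B f →+* A12 B f' :=
  lift12 (algebraMap B _) (Units.map (algebraMap B (A12 B f') : B →* A12 B f') lam * xu B f')
    (algebraMap B _ nu * yv B f') (by
    rw [mul_pow, rel12, pol_sc_map _ h]
    rfl)

@[simp]
theorem sc12_b {lam : Bˣ} {nu : B} {f f' : Fin 7 → B} (h : IsSc (lam : B) nu f f') (c : B) :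
    sc12 h (algebraMap B _ c) = algebraMap B _ c := lift12_b _ _ _ _ _

@[simp]
theorem sc12_x {lam : Bˣ} {nu : B} {f f' : Fin 7 → B} (h : IsSc (lam : B) nu f f') :
    sc12 h (xu B f : A12 B f) = algebraMap B _ (lam : B) * (xu B f' : A12 B f') :=
  lift12_x _ _ _ _

@[simp]
theorem sc12_xi {lam : Bˣ} {nu : B} {f f' : Fin 7 → B} (h : IsSc (lam : B) nu f f') :
    sc12 h ((xu B f)⁻¹ : (A12 B f)ˣ).val =
      algebraMap B _ ((lam⁻¹ : Bˣ) : B) * ((xu B f')⁻¹ : (A12 B f')ˣ).val := by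
  rw [sc12, lift12_xi, mul_inv, ← map_inv]
  rfl

@[simp]
theorem sc12_y {lam : Bˣ} {nu : B} {f f' : Fin 7 → B} (h : IsSc (lam : B) nu f f') :
    sc12 h (yv B f) = algebraMap B _ nu * yv B f' := lift12_y _ _ _ _

theorem sc12_g1 {lam : Bˣ} {nu : B} {f f' : Fin 7 → B} (h : IsSc (lam : B) nu f f')
    (v : A1 B f) : sc12 h (g1 B f v) = g1 B f' (sc1 h v) := by
  have : (sc12 h).comp (g1 B f) = (g1 B f').comp (sc1 h) := by
    refine hom1_ext ?_ ?_ ?_
    · intro c
      rw [RingHom.comp_apply, RingHom.comp_apply, g1_b, sc12_b, sc1_b, g1_b]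
    · rw [RingHom.comp_apply, RingHom.comp_apply, sc1_x, ← xu_val, sc12_x, map_mul, g1_b, xu_val]
    · rw [RingHom.comp_apply, RingHom.comp_apply, sc1_y, g1_y, sc12_y, map_mul, g1_b, g1_y]
  exact congrArg (fun g => g v) this

theorem IsSc.rev {lam : Bˣ} {nu : B} {f f' : Fin 7 → B} (h : IsSc (lam : B) nu f f') :
    IsSc ((lam⁻¹ : Bˣ) : B) (nu * ((lam⁻¹ ^ 3 : Bˣ) : B)) (rev f) (rev f') := by
  intro i
  have h1 := h (Fin.rev i)
  have h2 : (lam : B) ^ (Fin.rev i : ℕ) * ((lam⁻¹ : Bˣ) : B) ^ 6 = ((lam⁻¹ : Bˣ) : B) ^ (i : ℕ) := by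
    have e : 6 = (Fin.rev i : ℕ) + (i : ℕ) := by
      rw [Fin.val_rev]
      omega
    conv_lhs => rw [e]
    rw [pow_add, ← mul_assoc, ← mul_pow, Units.mul_inv, one_pow, one_mul]
  change (nu * ((lam⁻¹ ^ 3 : Bˣ) : B)) ^ 2 * f' (Fin.rev i) =
    ((lam⁻¹ : Bˣ) : B) ^ (i : ℕ) * f (Fin.rev i)
  rw [← h2, Units.val_pow_eq_pow_val]
  linear_combination ((lam⁻¹ : Bˣ) : B) ^ 6 * h1

theorem sc12_g2 {lam : Bˣ} {nu : B} {f f' : Fin 7 → B} (h : IsSc (lam : B) nu f f')
    (v : A2 B f) : sc12 h (g2 B f v) = g2 B f' (sc1 h.rev v) := by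
  have : (sc12 h).comp (g2 B f) = (g2 B f').comp (sc1 h.rev) := by
    refine hom1_ext ?_ ?_ ?_
    · intro c
      rw [RingHom.comp_apply, RingHom.comp_apply, g2_b, sc12_b, sc1_b, g2_b]
    · rw [RingHom.comp_apply, RingHom.comp_apply, sc1_x, g2_u, sc12_xi, map_mul, g2_b, g2_u]
    · rw [RingHom.comp_apply, RingHom.comp_apply, sc1_y, g2_v, map_mul, Units.val_pow_eq_pow_val,
        map_pow, sc12_xi, sc12_y, map_mul, g2_b, g2_v, Units.val_pow_eq_pow_val,
        Units.val_pow_eq_pow_val, map_mul, map_pow]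
      ring
  exact congrArg (fun g => g v) this

theorem IsSc.inv {lam nu : Bˣ} {f f' : Fin 7 → B} (h : IsSc (lam : B) (nu : B) f f') :
    IsSc ((lam⁻¹ : Bˣ) : B) ((nu⁻¹ : Bˣ) : B) f' f := by
  intro i
  have h1 := h i
  have h2 : ((lam⁻¹ : Bˣ) : B) ^ (i : ℕ) * (lam : B) ^ (i : ℕ) = 1 := by
    rw [← mul_pow, Units.inv_mul, one_pow]
  have h3 : ((nu⁻¹ : Bˣ) : B) ^ 2 * (nu : B) ^ 2 = 1 := by rw [← mul_pow, Units.inv_mul, one_pow]
  linear_combination -(((lam⁻¹ : Bˣ) : B) ^ (i : ℕ) * ((nu⁻¹ : Bˣ) : B) ^ 2) * h1 +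
    ((lam⁻¹ : Bˣ) : B) ^ (i : ℕ) * f' i * h3 - ((nu⁻¹ : Bˣ) : B) ^ 2 * f i * h2

theorem sc1_sc1 {lam nu : Bˣ} {f f' : Fin 7 → B} (h : IsSc (lam : B) (nu : B) f f')
    (h' : IsSc ((lam⁻¹ : Bˣ) : B) ((nu⁻¹ : Bˣ) : B) f' f) :
    (sc1 h').comp (sc1 h) = RingHom.id _ := by
  refine hom1_ext ?_ ?_ ?_
  · intro c
    simp
  · rw [RingHom.comp_apply, sc1_x, map_mul, sc1_b, sc1_x, ← mul_assoc, ← map_mul, Units.mul_inv,
      map_one, one_mul, RingHom.id_apply]
  · rw [RingHom.comp_apply, sc1_y, map_mul, sc1_b, sc1_y, ← mul_assoc, ← map_mul, Units.mul_inv,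
      map_one, one_mul, RingHom.id_apply]

theorem sc12_sc12 {lam nu : Bˣ} {f f' : Fin 7 → B} (h : IsSc (lam : B) (nu : B) f f')
    (h' : IsSc ((lam⁻¹ : Bˣ) : B) ((nu⁻¹ : Bˣ) : B) f' f) :
    (sc12 h').comp (sc12 h) = RingHom.id _ := by
  refine hom12_ext ?_ ?_ ?_
  · intro c
    simp
  · rw [RingHom.comp_apply, sc12_x, map_mul, sc12_b, sc12_x, ← mul_assoc, ← map_mul,
      Units.mul_inv, map_one, one_mul, RingHom.id_apply]
  · rw [RingHom.comp_apply, sc12_y, map_mul, sc12_b, sc12_y, ← mul_assoc, ← map_mul,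
      Units.mul_inv, map_one, one_mul, RingHom.id_apply]

end

end Pool.Agent.MG.H2


end

section

/-!
# The family `YX B p t`: three charts `T`, `N`, `Q`

For `t` a unit it is the curve `y² = p_T(x)`; for `t = 0` it consists of two curves of genus one
which meet in a node.
-/

open CategoryTheory CategoryTheory.Limits AlgebraicGeometry TensorProduct

namespace Pool.Agent.MG.H2

section scheme

variable (B : Type) [CommRing B] (p : Fin 7 → B) (t : B)

/-- The ring of the chart `T`. -/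
abbrev TT : Type := A1 B (pT p t)

/-- The ring of the chart `Q`. -/
abbrev QQ : Type := A1 B (pT (rev p) t)

/-- The ring of `N ∩ T`. -/
abbrev TN : Type := A12 B (pT p t)

/-- The ring of `N ∩ Q`. -/
abbrev QN : Type := A12 B (pT (rev p) t)

/-- Restriction from `T` to `N ∩ T`. -/
noncomputable abbrev tT : TT B p t →+* TN B p t := g1 B (pT p t)

/-- Restriction from `Q` to `N ∩ Q`. -/
noncomputable abbrev qQ : QQ B p t →+* QN B p t := g1 B (pT (rev p) t)

/-- The union of the charts `N` and `T`. -/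
noncomputable def YNT : Scheme.{0} := pushout (spMap (nT B p t)) (spMap (tT B p t))

/-- The chart `N` of `N ∪ T`. -/
noncomputable def YNT.inN : Sp (NN B p t) ⟶ YNT B p t := pushout.inl _ _

/-- The chart `T` of `N ∪ T`. -/
noncomputable def YNT.inT : Sp (TT B p t) ⟶ YNT B p t := pushout.inr _ _

instance YNT.openN : IsOpenImmersion (YNT.inN B p t) :=
  inferInstanceAs (IsOpenImmersion (pushout.inl (spMap (nT B p t)) (spMap (tT B p t))))

instance YNT.openT : IsOpenImmersion (YNT.inT B p t) :=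
  inferInstanceAs (IsOpenImmersion (pushout.inr (spMap (nT B p t)) (spMap (tT B p t))))

/-- The curve. -/
noncomputable def YX : Scheme.{0} :=
  pushout (spMap (nQ B p t) ≫ YNT.inN B p t) (spMap (qQ B p t))

/-- The open piece `N ∪ T`. -/
noncomputable def YX.inNT : YNT B p t ⟶ YX B p t := pushout.inl _ _

/-- The chart `Q`. -/
noncomputable def YX.inQ : Sp (QQ B p t) ⟶ YX B p t := pushout.inr _ _

instance YX.openNT : IsOpenImmersion (YX.inNT B p t) :=
  inferInstanceAs (IsOpenImmersion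
    (pushout.inl (spMap (nQ B p t) ≫ YNT.inN B p t) (spMap (qQ B p t))))

instance YX.openQ : IsOpenImmersion (YX.inQ B p t) :=
  inferInstanceAs (IsOpenImmersion
    (pushout.inr (spMap (nQ B p t) ≫ YNT.inN B p t) (spMap (qQ B p t))))

/-- The chart `N`. -/
noncomputable def YX.inN : Sp (NN B p t) ⟶ YX B p t := YNT.inN B p t ≫ YX.inNT B p t

/-- The chart `T`. -/
noncomputable def YX.inT : Sp (TT B p t) ⟶ YX B p t := YNT.inT B p t ≫ YX.inNT B p t

instance YX.openN : IsOpenImmersion (YX.inN B p t) := by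
  unfold YX.inN
  infer_instance

instance YX.openT : IsOpenImmersion (YX.inT B p t) := by
  unfold YX.inT
  infer_instance

theorem YNT.condT : spMap (nT B p t) ≫ YNT.inN B p t = spMap (tT B p t) ≫ YNT.inT B p t :=
  pushout.condition

@[reassoc]
theorem YX.condT : spMap (nT B p t) ≫ YX.inN B p t = spMap (tT B p t) ≫ YX.inT B p t := by
  rw [YX.inN, YX.inT, ← Category.assoc, ← Category.assoc, YNT.condT]

@[reassoc]
theorem YX.condQ : spMap (nQ B p t) ≫ YX.inN B p t = spMap (qQ B p t) ≫ YX.inQ B p t := by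
  rw [YX.inN, ← Category.assoc]
  exact pushout.condition

variable {B p t}

theorem YNT.ext {Y : Scheme.{0}} {g g' : YNT B p t ⟶ Y}
    (hN : YNT.inN B p t ≫ g = YNT.inN B p t ≫ g') (hT : YNT.inT B p t ≫ g = YNT.inT B p t ≫ g') :
    g = g' :=
  pushout.hom_ext hN hT

theorem YX.ext {Y : Scheme.{0}} {g g' : YX B p t ⟶ Y}
    (hT : YX.inT B p t ≫ g = YX.inT B p t ≫ g') (hN : YX.inN B p t ≫ g = YX.inN B p t ≫ g')
    (hQ : YX.inQ B p t ≫ g = YX.inQ B p t ≫ g') : g = g' := by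
  refine pushout.hom_ext (YNT.ext ?_ ?_) hQ
  · change YNT.inN B p t ≫ YX.inNT B p t ≫ g = YNT.inN B p t ≫ YX.inNT B p t ≫ g'
    simpa [YX.inN] using hN
  · change YNT.inT B p t ≫ YX.inNT B p t ≫ g = YNT.inT B p t ≫ YX.inNT B p t ≫ g'
    simpa [YX.inT] using hT

/-- Morphisms from `N ∪ T`. -/
noncomputable def YNT.desc {Y : Scheme.{0}} (fN : Sp (NN B p t) ⟶ Y) (fT : Sp (TT B p t) ⟶ Y)
    (h : spMap (nT B p t) ≫ fN = spMap (tT B p t) ≫ fT) : YNT B p t ⟶ Y :=
  pushout.desc fN fT h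

@[reassoc (attr := simp)]
theorem YNT.inN_desc {Y : Scheme.{0}} (fN : Sp (NN B p t) ⟶ Y) (fT : Sp (TT B p t) ⟶ Y)
    (h : spMap (nT B p t) ≫ fN = spMap (tT B p t) ≫ fT) :
    YNT.inN B p t ≫ YNT.desc fN fT h = fN :=
  pushout.inl_desc _ _ _

@[reassoc (attr := simp)]
theorem YNT.inT_desc {Y : Scheme.{0}} (fN : Sp (NN B p t) ⟶ Y) (fT : Sp (TT B p t) ⟶ Y)
    (h : spMap (nT B p t) ≫ fN = spMap (tT B p t) ≫ fT) :
    YNT.inT B p t ≫ YNT.desc fN fT h = fT :=
  pushout.inr_desc _ _ _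

/-- Morphisms from the curve. -/
noncomputable def YX.desc {Y : Scheme.{0}} (fT : Sp (TT B p t) ⟶ Y) (fN : Sp (NN B p t) ⟶ Y)
    (fQ : Sp (QQ B p t) ⟶ Y) (hT : spMap (nT B p t) ≫ fN = spMap (tT B p t) ≫ fT)
    (hQ : spMap (nQ B p t) ≫ fN = spMap (qQ B p t) ≫ fQ) : YX B p t ⟶ Y :=
  pushout.desc (YNT.desc fN fT hT) fQ (by
    rw [Category.assoc, YNT.inN_desc, hQ])

section

variable {Y : Scheme.{0}} (fT : Sp (TT B p t) ⟶ Y) (fN : Sp (NN B p t) ⟶ Y)
    (fQ : Sp (QQ B p t) ⟶ Y) (hT : spMap (nT B p t) ≫ fN = spMap (tT B p t) ≫ fT)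
    (hQ : spMap (nQ B p t) ≫ fN = spMap (qQ B p t) ≫ fQ)

theorem YX.inNT_desc : YX.inNT B p t ≫ YX.desc fT fN fQ hT hQ = YNT.desc fN fT hT :=
  pushout.inl_desc _ _ _

@[reassoc (attr := simp)]
theorem YX.inQ_desc : YX.inQ B p t ≫ YX.desc fT fN fQ hT hQ = fQ :=
  pushout.inr_desc _ _ _

@[reassoc (attr := simp)]
theorem YX.inN_desc : YX.inN B p t ≫ YX.desc fT fN fQ hT hQ = fN := by
  rw [YX.inN, Category.assoc, YX.inNT_desc, YNT.inN_desc]

@[reassoc (attr := simp)]
theorem YX.inT_desc : YX.inT B p t ≫ YX.desc fT fN fQ hT hQ = fT := by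
  rw [YX.inT, Category.assoc, YX.inNT_desc, YNT.inT_desc]

end

/-! ### Points -/

theorem YNT.surj (x : YNT B p t) : x ∈ Set.range (YNT.inN B p t) ∨ x ∈ Set.range (YNT.inT B p t) :=
  glue2_surj (spMap (nT B p t)) (spMap (tT B p t)) x

theorem YX.surj (x : YX B p t) : x ∈ Set.range (YX.inNT B p t) ∨ x ∈ Set.range (YX.inQ B p t) :=
  glue2_surj (spMap (nQ B p t) ≫ YNT.inN B p t) (spMap (qQ B p t)) x

theorem YX.surj3 (x : YX B p t) : x ∈ Set.range (YX.inT B p t) ∨ x ∈ Set.range (YX.inN B p t) ∨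
    x ∈ Set.range (YX.inQ B p t) := by
  rcases YX.surj x with ⟨y, rfl⟩ | h
  · rcases YNT.surj y with ⟨z, rfl⟩ | ⟨z, rfl⟩
    · exact Or.inr (Or.inl ⟨z, by simp [YX.inN]⟩)
    · exact Or.inl ⟨z, by simp [YX.inT]⟩
  · exact Or.inr (Or.inr h)

theorem YNT.meet (x : Sp (NN B p t)) (y : Sp (TT B p t))
    (h : YNT.inN B p t x = YNT.inT B p t y) :
    ∃ w : Sp (TN B p t), spMap (nT B p t) w = x ∧ spMap (tT B p t) w = y :=
  glue2_eq (spMap (nT B p t)) (spMap (tT B p t)) x y h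

theorem YX.meet (x : YNT B p t) (y : Sp (QQ B p t)) (h : YX.inNT B p t x = YX.inQ B p t y) :
    ∃ w : Sp (QN B p t), (spMap (nQ B p t) ≫ YNT.inN B p t) w = x ∧ spMap (qQ B p t) w = y :=
  glue2_eq (spMap (nQ B p t) ≫ YNT.inN B p t) (spMap (qQ B p t)) x y h

/-- Points of `N ∩ T`. -/
theorem YX.meetNT (x : Sp (NN B p t)) (y : Sp (TT B p t)) (h : YX.inN B p t x = YX.inT B p t y) :
    ∃ w : Sp (TN B p t), spMap (nT B p t) w = x ∧ spMap (tT B p t) w = y := by
  refine YNT.meet x y ((YX.inNT B p t).isOpenEmbedding.injective ?_)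
  simpa [YX.inN, YX.inT] using h

/-- Points of `N ∩ Q`. -/
theorem YX.meetNQ (x : Sp (NN B p t)) (y : Sp (QQ B p t)) (h : YX.inN B p t x = YX.inQ B p t y) :
    ∃ w : Sp (QN B p t), spMap (nQ B p t) w = x ∧ spMap (qQ B p t) w = y := by
  obtain ⟨w, h1, h2⟩ := YX.meet (YNT.inN B p t x) y (by simpa [YX.inN] using h)
  refine ⟨w, (YNT.inN B p t).isOpenEmbedding.injective ?_, h2⟩
  simpa using h1

/-- Points of `T ∩ Q`. -/
theorem YX.meetTQ (x : Sp (TT B p t)) (y : Sp (QQ B p t)) (h : YX.inT B p t x = YX.inQ B p t y) :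
    ∃ (w : Sp (TN B p t)) (w' : Sp (QN B p t)), spMap (tT B p t) w = x ∧
      spMap (qQ B p t) w' = y ∧ spMap (nT B p t) w = spMap (nQ B p t) w' := by
  obtain ⟨w', h1, h2⟩ := YX.meet (YNT.inT B p t x) y (by simpa [YX.inT] using h)
  obtain ⟨w, h3, h4⟩ := YNT.meet (spMap (nQ B p t) w') x (by simpa using h1)
  exact ⟨w, w', h4, h2, h3⟩

variable (B p t)

/-- The projection. -/
noncomputable def YX.pr : YX B p t ⟶ Sp B :=
  YX.desc (spMap (algebraMap B _)) (spMap (algebraMap B _)) (spMap (algebraMap B _))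
    (by
      rw [spMap_comp', spMap_comp']
      exact congrArg (fun f => spMap f) (RingHom.ext fun c => nT_c B p t c))
    (by
      rw [spMap_comp', spMap_comp']
      exact congrArg (fun f => spMap f) (RingHom.ext fun c => nQ_c B p t c))

@[reassoc (attr := simp)]
theorem YX.inT_pr : YX.inT B p t ≫ YX.pr B p t = spMap (algebraMap B _) := YX.inT_desc _ _ _ _ _

@[reassoc (attr := simp)]
theorem YX.inN_pr : YX.inN B p t ≫ YX.pr B p t = spMap (algebraMap B _) := YX.inN_desc _ _ _ _ _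

@[reassoc (attr := simp)]
theorem YX.inQ_pr : YX.inQ B p t ≫ YX.pr B p t = spMap (algebraMap B _) := YX.inQ_desc _ _ _ _ _

end scheme

/-! ## Morphisms from ring data -/

section mor

variable {B B' : Type} [CommRing B] [CommRing B']

/-- Compatible homomorphisms of the rings of the charts over `φ`. -/
structure YHom (φ : B →+* B') (p : Fin 7 → B) (t : B) (p' : Fin 7 → B') (t' : B') where
  /-- on the chart `T` -/
  hT : TT B p t →+* TT B' p' t'
  /-- on the chart `N` -/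
  hN : NN B p t →+* NN B' p' t'
  /-- on the chart `Q` -/
  hQ : QQ B p t →+* QQ B' p' t'
  /-- on `N ∩ T` -/
  hTN : TN B p t →+* TN B' p' t'
  /-- on `N ∩ Q` -/
  hQN : QN B p t →+* QN B' p' t'
  bT : ∀ c, hT (algebraMap B _ c) = algebraMap B' _ (φ c)
  bN : ∀ c, hN (algebraMap B _ c) = algebraMap B' _ (φ c)
  bQ : ∀ c, hQ (algebraMap B _ c) = algebraMap B' _ (φ c)
  cT : ∀ v, hTN (tT B p t v) = tT B' p' t' (hT v)
  cTN : ∀ v, hTN (nT B p t v) = nT B' p' t' (hN v)
  cQ : ∀ v, hQN (qQ B p t v) = qQ B' p' t' (hQ v)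
  cQN : ∀ v, hQN (nQ B p t v) = nQ B' p' t' (hN v)

namespace YHom

variable {φ : B →+* B'} {p : Fin 7 → B} {t : B} {p' : Fin 7 → B'} {t' : B'}

/-- The morphism of compatible ring homomorphisms. -/
noncomputable def mor (h : YHom φ p t p' t') : YX B' p' t' ⟶ YX B p t :=
  YX.desc (spMap h.hT ≫ YX.inT B p t) (spMap h.hN ≫ YX.inN B p t) (spMap h.hQ ≫ YX.inQ B p t)
    (by
      have h1 : (nT B' p' t').comp h.hN = h.hTN.comp (nT B p t) :=
        RingHom.ext fun v => (h.cTN v).symm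
      have h2 : (tT B' p' t').comp h.hT = h.hTN.comp (tT B p t) :=
        RingHom.ext fun v => (h.cT v).symm
      rw [← Category.assoc, ← Category.assoc, spMap_comp', spMap_comp', h1, h2, ← spMap_comp',
        ← spMap_comp', Category.assoc, Category.assoc, YX.condT])
    (by
      have h1 : (nQ B' p' t').comp h.hN = h.hQN.comp (nQ B p t) :=
        RingHom.ext fun v => (h.cQN v).symm
      have h2 : (qQ B' p' t').comp h.hQ = h.hQN.comp (qQ B p t) :=
        RingHom.ext fun v => (h.cQ v).symm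
      rw [← Category.assoc, ← Category.assoc, spMap_comp', spMap_comp', h1, h2, ← spMap_comp',
        ← spMap_comp', Category.assoc, Category.assoc, YX.condQ])

@[reassoc]
theorem inT_mor (h : YHom φ p t p' t') :
    YX.inT B' p' t' ≫ h.mor = spMap h.hT ≫ YX.inT B p t := YX.inT_desc _ _ _ _ _

@[reassoc]
theorem inN_mor (h : YHom φ p t p' t') :
    YX.inN B' p' t' ≫ h.mor = spMap h.hN ≫ YX.inN B p t := YX.inN_desc _ _ _ _ _

@[reassoc]
theorem inQ_mor (h : YHom φ p t p' t') :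
    YX.inQ B' p' t' ≫ h.mor = spMap h.hQ ≫ YX.inQ B p t := YX.inQ_desc _ _ _ _ _

@[reassoc]
theorem mor_pr (h : YHom φ p t p' t') : h.mor ≫ YX.pr B p t = YX.pr B' p' t' ≫ spMap φ := by
  refine YX.ext ?_ ?_ ?_
  · rw [← Category.assoc, inT_mor, Category.assoc, YX.inT_pr, ← Category.assoc, YX.inT_pr,
      spMap_comp', spMap_comp']
    exact congrArg (fun f => spMap f) (RingHom.ext fun c => h.bT c)
  · rw [← Category.assoc, inN_mor, Category.assoc, YX.inN_pr, ← Category.assoc, YX.inN_pr,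
      spMap_comp', spMap_comp']
    exact congrArg (fun f => spMap f) (RingHom.ext fun c => h.bN c)
  · rw [← Category.assoc, inQ_mor, Category.assoc, YX.inQ_pr, ← Category.assoc, YX.inQ_pr,
      spMap_comp', spMap_comp']
    exact congrArg (fun f => spMap f) (RingHom.ext fun c => h.bQ c)

end YHom

/-! ### Base change -/

section bc

variable (φ : B →+* B') {p : Fin 7 → B} {t : B} {p' : Fin 7 → B'} {t' : B'}
  (hp : ∀ i, p' i = φ (p i)) (ht : t' = φ t)

include hp ht in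
theorem pT_bc (i : Fin 7) : pT p' t' i = φ (pT p t i) := by
  rw [pT_map, ht]
  congr 1
  funext j
  exact hp j

/-- Base change of `N`. -/
noncomputable def bcN : NN B p t →+* NN B' p' t' :=
  liftN ((algebraMap B' (NN B' p' t')).comp φ) (zN B' p' t') (xN B' p' t') (aN B' p' t')
    (bN B' p' t') (by
      have h := relN B' p' t'
      have h1 : (fun i => algebraMap B' (NN B' p' t') (p' i)) =
          fun i => ((algebraMap B' (NN B' p' t')).comp φ) (p i) := by
        funext i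
        rw [hp]
        rfl
      have h2 : algebraMap B' (NN B' p' t') t' = ((algebraMap B' (NN B' p' t')).comp φ) t := by
        rw [ht]
        rfl
      rw [← h1, ← h2]
      exact h)

@[simp]
theorem bcN_z : bcN φ hp ht (zN B p t) = zN B' p' t' := liftN_z _ _ _ _ _ _

@[simp]
theorem bcN_x : bcN φ hp ht (xN B p t) = xN B' p' t' := liftN_x _ _ _ _ _ _

@[simp]
theorem bcN_a : bcN φ hp ht (aN B p t) = aN B' p' t' := liftN_a _ _ _ _ _ _

@[simp]
theorem bcN_b : bcN φ hp ht (bN B p t) = bN B' p' t' := liftN_b _ _ _ _ _ _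

@[simp]
theorem bcN_c (c : B) : bcN φ hp ht (algebraMap B _ c) = algebraMap B' _ (φ c) :=
  liftN_c _ _ _ _ _ _ _

theorem bcN_nT (v : NN B p t) :
    bc12 φ (pT_bc φ hp ht) (nT B p t v) = nT B' p' t' (bcN φ hp ht v) := by
  have : (bc12 φ (pT_bc φ hp ht)).comp (nT B p t) = (nT B' p' t').comp (bcN φ hp ht) := by
    refine homN_ext ?_ ?_ ?_ ?_ ?_
    · intro c
      rw [RingHom.comp_apply, RingHom.comp_apply, nT_c, bc12_b, bcN_c, nT_c]
    · rw [RingHom.comp_apply, RingHom.comp_apply, nT_z, bcN_z, nT_z, map_mul, map_pow, bc12_b,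
        bc12_x, ht]
    · rw [RingHom.comp_apply, RingHom.comp_apply, nT_x, bcN_x, nT_x, bc12_xi]
    · rw [RingHom.comp_apply, RingHom.comp_apply, nT_a, bcN_a, nT_a, map_mul, map_pow, bc12_y,
        bc12_xi]
    · rw [RingHom.comp_apply, RingHom.comp_apply, nT_b, bcN_b, nT_b, map_mul, map_mul, bc12_b,
        bc12_y, bc12_xi, ht]
  exact congrArg (fun g => g v) this

theorem bcN_nQ (v : NN B p t) :
    bc12 φ (pT_bc φ (rev_bc φ hp) ht) (nQ B p t v) = nQ B' p' t' (bcN φ hp ht v) := by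
  have : (bc12 φ (pT_bc φ (rev_bc φ hp) ht)).comp (nQ B p t) =
      (nQ B' p' t').comp (bcN φ hp ht) := by
    refine homN_ext ?_ ?_ ?_ ?_ ?_
    · intro c
      rw [RingHom.comp_apply, RingHom.comp_apply, nQ_c, bc12_b, bcN_c, nQ_c]
    · rw [RingHom.comp_apply, RingHom.comp_apply, nQ_z, bcN_z, nQ_z, bc12_xi]
    · rw [RingHom.comp_apply, RingHom.comp_apply, nQ_x, bcN_x, nQ_x, map_mul, map_pow, bc12_b,
        bc12_x, ht]
    · rw [RingHom.comp_apply, RingHom.comp_apply, nQ_a, bcN_a, nQ_a, map_mul, map_mul, bc12_b,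
        bc12_y, bc12_xi, ht]
    · rw [RingHom.comp_apply, RingHom.comp_apply, nQ_b, bcN_b, nQ_b, map_mul, map_pow, bc12_y,
        bc12_xi]
  exact congrArg (fun g => g v) this

/-- Base change. -/
noncomputable def YHom.bc : YHom φ p t p' t' where
  hT := bc1 φ (pT_bc φ hp ht)
  hN := bcN φ hp ht
  hQ := bc1 φ (pT_bc φ (rev_bc φ hp) ht)
  hTN := bc12 φ (pT_bc φ hp ht)
  hQN := bc12 φ (pT_bc φ (rev_bc φ hp) ht)
  bT := bc1_b φ _
  bN := bcN_c φ hp ht
  bQ := bc1_b φ _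
  cT := bc12_g1 φ _
  cTN := bcN_nT φ hp ht
  cQ := bc12_g1 φ _
  cQN := bcN_nQ φ hp ht

/-- The base change morphism. -/
noncomputable def YX.map : YX B' p' t' ⟶ YX B p t := (YHom.bc φ hp ht).mor

@[reassoc]
theorem YX.inT_map : YX.inT B' p' t' ≫ YX.map φ hp ht =
    spMap (bc1 φ (pT_bc φ hp ht)) ≫ YX.inT B p t := YHom.inT_mor _

@[reassoc]
theorem YX.inN_map : YX.inN B' p' t' ≫ YX.map φ hp ht =
    spMap (bcN φ hp ht) ≫ YX.inN B p t := YHom.inN_mor _

@[reassoc]
theorem YX.inQ_map : YX.inQ B' p' t' ≫ YX.map φ hp ht =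
    spMap (bc1 φ (pT_bc φ (rev_bc φ hp) ht)) ≫ YX.inQ B p t := YHom.inQ_mor _

@[reassoc]
theorem YX.map_pr : YX.map φ hp ht ≫ YX.pr B p t = YX.pr B' p' t' ≫ spMap φ :=
  YHom.mor_pr _

end bc

end mor

/-- The curve as a family without sections. -/
noncomputable def Yam {B : Type} [CommRing B] (p : Fin 7 → B) (t : B) : Fam 0 B where
  X := YX B p t
  π := YX.pr B p t
  σ := fun i => i.elim0
  sec i := i.elim0

/-! ## The condition of stability -/

section ok

variable {R : Type} [CommRing R]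

/-- `E = ξ K_ξ - z K_z` -/
def EE (p : Fin 7 → R) (z ξ : R) : R :=
  p 2 * ξ + 2 * p 1 * ξ ^ 2 + 3 * p 0 * ξ ^ 3 - p 4 * z - 2 * p 5 * z ^ 2 - 3 * p 6 * z ^ 3

theorem EE_map {R' : Type} [CommRing R'] (φ : R →+* R') (p : Fin 7 → R) (z ξ : R) :
    φ (EE p z ξ) = EE (fun i => φ (p i)) (φ z) (φ ξ) := by
  have h2 : φ 2 = 2 := map_ofNat φ 2
  have h3 : φ 3 = 3 := map_ofNat φ 3
  simp only [EE, map_add, map_sub, map_mul, map_pow, h2, h3]

theorem EE_swap {p p' : Fin 7 → R} (h : ∀ i, p' i = p (Fin.rev i)) (z ξ : R) :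
    EE p' ξ z = - EE p z ξ := by
  have e0 : p' 0 = p 6 := h 0
  have e1 : p' 1 = p 5 := h 1
  have e2 : p' 2 = p 4 := h 2
  have e4 : p' 4 = p 2 := h 4
  have e5 : p' 5 = p 1 := h 5
  have e6 : p' 6 = p 0 := h 6
  simp only [EE, e0, e1, e2, e4, e5, e6]
  ring

/-- `K` in `N`. -/
noncomputable def KN (B : Type) [CommRing B] (p : Fin 7 → B) (t : B) : NN B p t :=
  KK (fun i => algebraMap B (NN B p t) (p i)) (zN B p t) (xN B p t)

/-- `E` in `N`. -/
noncomputable def EN (B : Type) [CommRing B] (p : Fin 7 → B) (t : B) : NN B p t :=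
  EE (fun i => algebraMap B (NN B p t) (p i)) (zN B p t) (xN B p t)

/-- The condition of stability. -/
structure YOk (B : Type) [CommRing B] (p : Fin 7 → B) (t : B) : Prop where
  two : IsUnit (2 : B)
  sT : IsCoprime (pp B (pT p t)) (Polynomial.derivative (pp B (pT p t)))
  sQ : IsCoprime (pp B (pT (rev p) t)) (Polynomial.derivative (pp B (pT (rev p) t)))
  sN : IsCoprime (KN B p t) (EN B p t)

end ok

end Pool.Agent.MG.H2


end

section

/-!
# The family `YX B p t` is stable: statements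
-/

open CategoryTheory CategoryTheory.Limits AlgebraicGeometry TensorProduct

namespace Pool.Agent.MG.H2

/-! ## The family over any ring -/

/-- YBC: the base change square. -/
def Stmt_YBC : Prop :=
  ∀ {B B' : Type} [CommRing B] [CommRing B'] (φ : B →+* B') {p : Fin 7 → B} {t : B}
    {p' : Fin 7 → B'} {t' : B'} (hp : ∀ i, p' i = φ (p i)) (ht : t' = φ t),
    IsPullback (YX.map φ hp ht) (YX.pr B' p' t') (YX.pr B p t) (spMap φ)

/-- YNB: a basis of `N`, and `N → N ∩ T × N ∩ Q` is injective. -/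
def Stmt_YNB : Prop :=
  ∀ (B : Type) [CommRing B] (p : Fin 7 → B) (t : B),
    (∀ v : NN B p t, ∃ c d e f : Polynomial B,
      v = Polynomial.aeval (xN B p t) c + zN B p t * Polynomial.aeval (zN B p t) d +
        Polynomial.aeval (xN B p t) e * aN B p t + Polynomial.aeval (zN B p t) f * bN B p t) ∧
    (∀ c d e f : Polynomial B,
      nT B p t (Polynomial.aeval (xN B p t) c + zN B p t * Polynomial.aeval (zN B p t) d +
        Polynomial.aeval (xN B p t) e * aN B p t + Polynomial.aeval (zN B p t) f * bN B p t) = 0 →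
      nQ B p t (Polynomial.aeval (xN B p t) c + zN B p t * Polynomial.aeval (zN B p t) d +
        Polynomial.aeval (xN B p t) e * aN B p t + Polynomial.aeval (zN B p t) f * bN B p t) = 0 →
      c = 0 ∧ d = 0 ∧ e = 0 ∧ f = 0)

/-- YFP: the charts are flat and of finite presentation. -/
def Stmt_YFP : Prop :=
  ∀ (B : Type) [CommRing B] (p : Fin 7 → B) (t : B),
    ((algebraMap B (NN B p t)).Flat ∧ (algebraMap B (NN B p t)).FinitePresentation) ∧
    ∀ f : Fin 7 → B, (algebraMap B (A1 B f)).Flat ∧ (algebraMap B (A1 B f)).FinitePresentation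

/-- YVE: existence in the valuative criterion. -/
def Stmt_YVE : Prop :=
  ∀ {B : Type} [CommRing B] (p : Fin 7 → B) (t : B) {R K : Type} [CommRing R] [IsDomain R]
    [ValuationRing R] [Field K] [Algebra R K] [IsFractionRing R K] (i₁ : Sp K ⟶ YX B p t)
    (i₂ : Sp R ⟶ Sp B), i₁ ≫ YX.pr B p t = spMap (algebraMap R K) ≫ i₂ →
    ∃ l : Sp R ⟶ YX B p t, spMap (algebraMap R K) ≫ l = i₁ ∧ l ≫ YX.pr B p t = i₂

/-- YVU: uniqueness in the valuative criterion. -/
def Stmt_YVU : Prop :=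
  ∀ {B : Type} [CommRing B] (p : Fin 7 → B) (t : B) {R K : Type} [CommRing R] [IsDomain R]
    [ValuationRing R] [Field K] [Algebra R K] [IsFractionRing R K] (l l' : Sp R ⟶ YX B p t),
    l ≫ YX.pr B p t = l' ≫ YX.pr B p t →
    spMap (algebraMap R K) ≫ l = spMap (algebraMap R K) ≫ l' → l = l'

/-- YPR: the family is proper, flat and of finite presentation. -/
def Stmt_YPR : Prop :=
  ∀ (B : Type) [CommRing B] (p : Fin 7 → B) (t : B), IsProper (YX.pr B p t) ∧
    Flat (YX.pr B p t) ∧ LocallyOfFinitePresentation (YX.pr B p t)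

/-- YHX: for `t` a unit (with inverse `w`) the curve is `y² = p_T(x)`. -/
def Stmt_YHX : Prop :=
  ∀ {B : Type} [CommRing B] (p : Fin 7 → B) (t w : B), t * w = 1 →
    ∃ (g : QQ B p t →+* A2 B (pT p t)) (m : HX B (pT p t) ⟶ YX B p t), IsIso m ∧
      (∀ c, g (algebraMap B _ c) = algebraMap B _ c) ∧
      g (x1 B (pT (rev p) t)) = algebraMap B _ w ^ 2 * x1 B (rev (pT p t)) ∧
      g (y1 B (pT (rev p) t)) = algebraMap B _ w ^ 3 * y1 B (rev (pT p t)) ∧
      HX.in1 B (pT p t) ≫ m = YX.inT B p t ∧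
      HX.in2 B (pT p t) ≫ m = spMap g ≫ YX.inQ B p t ∧
      m ≫ YX.pr B p t = HX.pr B (pT p t)

/-- YAR: the base change of the family along `φ`, if `φ t` is a unit (with inverse `w`). -/
def Stmt_YAR : Prop :=
  ∀ {B B' : Type} [CommRing B] [CommRing B'] (φ : B →+* B') (p : Fin 7 → B) (t : B) (w : B'),
    φ t * w = 1 → ∀ (f : Fin 7 → B') (hf : ∀ i, f i = φ (pT p t i)),
    ∃ (g : QQ B p t →+* A2 B' f) (a : Arrow φ (Hyp f) (Yam p t)),
      (∀ c, g (algebraMap B _ c) = algebraMap B' _ (φ c)) ∧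
      g (x1 B (pT (rev p) t)) = algebraMap B' _ w ^ 2 * x1 B' (rev f) ∧
      g (y1 B (pT (rev p) t)) = algebraMap B' _ w ^ 3 * y1 B' (rev f) ∧
      HX.in1 B' f ≫ a.f = spMap (bc1 φ hf) ≫ YX.inT B p t ∧
      HX.in2 B' f ≫ a.f = spMap g ≫ YX.inQ B p t

/-! ## The condition -/

/-- YOB: base change of the condition. -/
def Stmt_YOB : Prop :=
  ∀ {B B' : Type} [CommRing B] [CommRing B'] (φ : B →+* B') {p : Fin 7 → B} {t : B}
    {p' : Fin 7 → B'} {t' : B'} (_ : ∀ i, p' i = φ (p i)) (_ : t' = φ t), YOk B p t → YOk B' p' t'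

/-- YOU: the condition for `t` a unit. -/
def Stmt_YOU : Prop :=
  ∀ {B : Type} [CommRing B] (p : Fin 7 → B) (t : B), IsUnit t → IsUnit (2 : B) →
    (IsCoprime (pp B (pT p t)) (Polynomial.derivative (pp B (pT p t))) ∧
      IsCoprime (pp B (rev (pT p t))) (Polynomial.derivative (pp B (rev (pT p t)))) ↔ YOk B p t)

/-- YOG: the polynomial `f` as a sequence of coefficients. -/
def Stmt_YOG : Prop :=
  ∀ {B : Type} [CommRing B] (f : Polynomial B), IsUnit (2 : B) → Two2.Good f →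
    pp B (fun i : Fin 7 => f.coeff i) = f ∧ YOk B (fun i : Fin 7 => f.coeff i) 1

/-- YOR: the polynomial `∏ (X - ρ i) ∏ (s² X - r j)`. -/
def Stmt_YOR : Prop :=
  ∀ {B : Type} [CommRing B] (s : B) (ρ r : Fin 3 → B), IsUnit (2 : B) →
    (∀ i j, i ≠ j → IsUnit (ρ i - ρ j)) → (∀ i j, i ≠ j → IsUnit (r i - r j)) →
    (∀ j, IsUnit (r j)) → (∀ i j, IsUnit (r j - s ^ 2 * ρ i)) →
    ∃ p : Fin 7 → B, YOk B p s ∧ ∀ i : Fin 7, pT p s i =
      ((∏ i, (Polynomial.X - Polynomial.C (ρ i))) *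
        ∏ j, (Polynomial.C (s ^ 2) * Polynomial.X - Polynomial.C (r j))).coeff i

/-! ## Smooth charts and the curves `y² = f(x)` over fields -/

/-- The condition that `y² = f(x)` is smooth. -/
structure HSm (B : Type) [CommRing B] (f : Fin 7 → B) : Prop where
  two : IsUnit (2 : B)
  s1 : IsCoprime (pp B f) (Polynomial.derivative (pp B f))
  s2 : IsCoprime (pp B (rev f)) (Polynomial.derivative (pp B (rev f)))

/-- YSM: the chart `y² = f(x)` is smooth of relative dimension one. -/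
def Stmt_YSM : Prop :=
  ∀ (B : Type) [CommRing B] (f : Fin 7 → B), IsUnit (2 : B) →
    IsCoprime (pp B f) (Polynomial.derivative (pp B f)) →
    SmoothOfRelativeDimension 1 (spMap (algebraMap B (A1 B f)))

/-- YHS: the curve `y² = f(x)` is smooth of relative dimension one, and nodal over algebraically
closed fields. -/
def Stmt_YHS : Prop :=
  (∀ (B : Type) [CommRing B] (f : Fin 7 → B), HSm B f →
    SmoothOfRelativeDimension 1 (HX.pr B f)) ∧
  ∀ (K : Type) [Field K] [IsAlgClosed K] (f : Fin 7 → K), HSm K f → Nodal (HX.pr K f)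

/-- YDM: the ring of the curve `y² = f(x)` is a domain. -/
def Stmt_YDM : Prop :=
  ∀ (K : Type) [Field K] (f : Fin 7 → K),
    IsCoprime (pp K f) (Polynomial.derivative (pp K f)) → (∃ i, i ≠ 0 ∧ f i ≠ 0) →
    IsDomain (A1 K f)

/-- YHC: the curve `y² = f(x)` is connected. -/
def Stmt_YHC : Prop :=
  ∀ (K : Type) [Field K] (f : Fin 7 → K), HSm K f → ConnectedSpace (HX K f)

/-- YHG: the genus. -/
def Stmt_YHG : Prop := ∀ (K : Type) [Field K] (f : Fin 7 → K), HasGenus (HX.pr K f) 2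

/-- YDA: derivations of the ring of the curve `y² = f(x)`. -/
def Stmt_YDA : Prop :=
  ∀ {K : Type} [Field K] (f : Fin 7 → K), (2 : K) ≠ 0 →
    IsCoprime (pp K f) (Polynomial.derivative (pp K f)) → ∀ D : Derivation K (A1 K f) (A1 K f),
    ∃ w : A1 K f, D (x1 K f) = 2 * y1 K f * w ∧
      D (y1 K f) = Polynomial.aeval (x1 K f) (Polynomial.derivative (pp K f)) * w

/-- YHR: the curve `y² = f(x)` has no vector fields. -/
def Stmt_YHR : Prop :=
  ∀ {K : Type} [Field K] (f : Fin 7 → K), HSm K f → ∀ (v : VField (Hyp f)) (U), v.D U = 0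

/-! ## The curves `YX K p 0` -/

/-- YCN: the curve is connected. -/
def Stmt_YCN : Prop :=
  ∀ (K : Type) [Field K] (p : Fin 7 → K), YOk K p 0 → ConnectedSpace (YX K p 0)

/-- YSQ: adjoining the square root of a unit is etale. -/
def Stmt_YSQ : Prop :=
  ∀ (A : Type) [CommRing A] (u : A), IsUnit (2 : A) → IsUnit u →
    Etale (spMap (algebraMap A (AdjoinRoot (Polynomial.X ^ 2 - Polynomial.C u)))) ∧
    Function.Surjective
      (spMap (algebraMap A (AdjoinRoot (Polynomial.X ^ 2 - Polynomial.C u))))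

/-- YNN: the points of the chart `N` with `K ≠ 0` have a neighbourhood as in the definition of nodal
curves. -/
def Stmt_YNN : Prop :=
  ∀ (K : Type) [Field K] (p : Fin 7 → K), (2 : K) ≠ 0 → ∀ x : Sp (NN K p 0),
    KN K p 0 ∉ x.asIdeal → ∃ (U : Scheme.{0}) (f : U ⟶ Sp (NN K p 0)) (h : U ⟶ Sp (NodeRing K)),
    Etale f ∧ Etale h ∧ f ≫ spMap (algebraMap K (NN K p 0)) =
      h ≫ spMap (algebraMap K (NodeRing K)) ∧ x ∈ Set.range f

/-- YND: the curve is nodal. -/
def Stmt_YND : Prop :=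
  ∀ (K : Type) [Field K] [IsAlgClosed K] (p : Fin 7 → K), YOk K p 0 → Nodal (YX.pr K p 0)

/-- YUA: the union of the charts `T` and `Q` is affine. -/
def Stmt_YUA : Prop :=
  ∀ (K : Type) [Field K] (p : Fin 7 → K),
    (YX.inT K p 0).opensRange ⊓ (YX.inQ K p 0).opensRange = ⊥ ∧
    IsAffineOpen ((YX.inT K p 0).opensRange ⊔ (YX.inQ K p 0).opensRange)

/-- YGA: the cohomology of the curve in terms of its rings. -/
def Stmt_YGA : Prop :=
  ∀ (K : Type) [Field K] (p : Fin 7 → K) (a : TN K p 0) (b : QN K p 0),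
    (cf (-1) a = 0 ∧ cf (-1) b = 0) ↔ ∃ (n : NN K p 0) (r : TT K p 0) (s : QQ K p 0),
      a = nT K p 0 n + tT K p 0 r ∧ b = nQ K p 0 n + qQ K p 0 s

/-- YGN: the genus. -/
def Stmt_YGN : Prop :=
  ∀ (K : Type) [Field K] (p : Fin 7 → K), HasGenus (YX.pr K p 0) 2

/-- YRA: derivations of the rings of the charts `T`, `N`: the algebra of rigidity. -/
def Stmt_YRA : Prop :=
  ∀ {K : Type} [Field K] (p : Fin 7 → K), (2 : K) ≠ 0 → p 3 ≠ 0 →
    IsCoprime (pp K (pT p 0)) (Polynomial.derivative (pp K (pT p 0))) →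
    ∀ (DT : Derivation K (TT K p 0) (TT K p 0)) (DN : Derivation K (NN K p 0) (NN K p 0))
      (DTN : Derivation K (TN K p 0) (TN K p 0)),
      (∀ v, DTN (tT K p 0 v) = tT K p 0 (DT v)) → (∀ v, DTN (nT K p 0 v) = nT K p 0 (DN v)) →
      DT = 0

/-- YRI: the curve has no vector fields. -/
def Stmt_YRI : Prop :=
  ∀ {K : Type} [Field K] (p : Fin 7 → K), YOk K p 0 → ∀ (v : VField (Yam p 0)) (U), v.D U = 0

/-! ## Stability -/

/-- YFI: the fibres. -/
def Stmt_YFI : Prop :=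
  ∀ {K : Type} [Field K] [IsAlgClosed K] (p : Fin 7 → K) (t : K), YOk K p t →
    StableCurve 2 (Yam p t)

/-- YST: the family is stable. -/
def Stmt_YST : Prop :=
  ∀ {B : Type} [CommRing B] (p : Fin 7 → B) (t : B), YOk B p t → IsStable 2 (Yam p t)

/-- YHT: the curves `y² = f(x)` are stable. -/
def Stmt_YHT : Prop :=
  ∀ {B : Type} [CommRing B] (f : Fin 7 → B), HSm B f → IsStable 2 (Hyp f)

end Pool.Agent.MG.H2


end

section

/-!
# Functions, derivations and differentials of the curves `y² = f(x)`: statements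
-/

open Polynomial

namespace Pool.Agent.MG.H2

section

variable {B : Type} [CommRing B] {f : Fin 7 → B}

/-- A Bezout identity for `f` and `f'`. -/
def Bez (f : Fin 7 → B) (A C : B[X]) : Prop := A * pp B f + C * derivative (pp B f) = 1

/-- The differential `dx/y = A y dx + 2 C dy` on `A₁`, evaluated on `δ`. -/
noncomputable def om1 {R' : Type} [CommRing R'] (A C : B[X]) (r : A1 B f →+* R')
    (δ : A1 B f → R') : R' :=
  r (aeval (x1 B f) A) * r (y1 B f) * δ (x1 B f) + 2 * r (aeval (x1 B f) C) * δ (y1 B f)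

end

/-- CFF: `A₁` is free and smooth over `B`. -/
def Stmt_CFF : Prop :=
  ∀ (B : Type) [CommRing B] (f : Fin 7 → B),
    Module.Free B (A1 B f) ∧ Module.Free B (A12 B f) ∧
    ∀ A C : B[X], Bez f A C → IsUnit (2 : B) →
      Algebra.FormallySmooth B (A1 B f) ∧ Algebra.FormallySmooth B (A12 B f)

/-- CFD: the differential `dx/y` and the dual derivation. -/
def Stmt_CFD : Prop :=
  ∀ (B : Type) [CommRing B] (f : Fin 7 → B), ∃ D : Derivation B (A1 B f) (A1 B f),
    D (x1 B f) = 2 * y1 B f ∧ D (y1 B f) = aeval (x1 B f) (derivative (pp B f)) ∧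
    ∀ A C : B[X], Bez f A C → ∀ (R' : Type) [CommRing R'] (r : A1 B f →+* R') (δ : A1 B f → R'),
      DerA (algebraMap B (A1 B f)) r δ →
        r (y1 B f) * om1 A C r δ = δ (x1 B f) ∧
        r (aeval (x1 B f) (derivative (pp B f))) * om1 A C r δ = 2 * δ (y1 B f) ∧
        ∀ v, 2 * δ v = om1 A C r δ * r (D v)

section

variable {B : Type} [CommRing B] (f : Fin 7 → B)

/-- `x` -/
noncomputable abbrev xx : A12 B f := (xu B f : A12 B f)
/-- `1/x` -/
noncomputable abbrev xi : A12 B f := ((xu B f)⁻¹ : (A12 B f)ˣ).val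

/-- The difference of the values of `dx/y` at the two charts. -/
noncomputable def omd {B' : Type} [CommRing B'] (f : Fin 7 → B) (f' : Fin 7 → B') (A C A' C' : B[X])
    (D : A12 B' f' → A12 B f) : A12 B f :=
  (aeval (xx f) A * yv B f * D (xx f') + 2 * aeval (xx f) C * D (yv B' f')) +
    xi f * (aeval (xi f) A' * (yv B f * xi f ^ 3) * D (xi f') +
      2 * aeval (xi f) C' * D (yv B' f' * xi f' ^ 3))

end

/-- CFV: the class of the difference when the root `r` moves to `r + ε`. -/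
def Stmt_CFV : Prop :=
  ∀ {B : Type} [CommRing B] (f : Fin 7 → B) (r : B) (G : B[X]), pp B f = (X - C r) * G →
    ∀ (f' : Fin 7 → Eps B) (_ : ∀ i, f' i = TrivSqZeroExt.inl (f i) - TrivSqZeroExt.inr (G.coeff i))
      (hf : ∀ i, f i = eps0 B (f' i)) (A C₁ A' C₁' : B[X]), Bez f A C₁ → Bez (rev f) A' C₁' →
    IsUnit (2 : B) → ∀ D : A12 (Eps B) f' → A12 B f,
      DerA ((algebraMap (Eps B) (A12 (Eps B) f')).comp (TrivSqZeroExt.inlHom B B))
        (bc12 (eps0 B) hf) D →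
      D (algebraMap (Eps B) _ (TrivSqZeroExt.inr 1)) = 1 →
      ∀ j : ℕ, j ≤ 3 → cf (-1 - (j : ℤ)) (omd f f' A C₁ A' C₁' D) = -(r ^ j * C₁.eval r)

/-- CFI: the difference vanishes on derivations with `D ε = 0`. -/
def Stmt_CFI : Prop :=
  ∀ {B : Type} [CommRing B] (f : Fin 7 → B) (A C₁ A' C₁' : B[X]), Bez f A C₁ →
    Bez (rev f) A' C₁' → ∀ (B' : Type) [CommRing B'] (φ : B' →+* B) (f' : Fin 7 → B')
      (hf : ∀ i, f i = φ (f' i)) (D : A12 B' f' → A12 B f),
      DerA (algebraMap B' (A12 B' f')) (bc12 φ hf) D → omd f f' A C₁ A' C₁' D = 0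

end Pool.Agent.MG.H2


end

section

/-!
# The arrow from `y² = f(x)` to the family `Yam p t`
-/

open CategoryTheory CategoryTheory.Limits AlgebraicGeometry TensorProduct

namespace Pool.Agent.MG.H2

theorem t_YAR (hBC : Stmt_YBC) (hHX : Stmt_YHX) : Stmt_YAR := by
  intro B B' _ _ φ p t w htw f hf
  obtain rfl : f = pT (fun i => φ (p i)) (φ t) := by
    funext i
    rw [hf, pT_map]
  obtain ⟨g, m, hm, g1, g2, g3, m1, m2, m3⟩ := hHX (fun i => φ (p i)) (φ t) w htw
  have h1 : IsPullback (YX.map φ (fun _ => rfl) rfl) (YX.pr B' (fun i => φ (p i)) (φ t))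
    (YX.pr B p t) (spMap φ) := hBC φ (fun _ => rfl) rfl
  have hc : IsPullback (m ≫ YX.map φ (fun _ => rfl) rfl) (HX.pr B' (pT (fun i => φ (p i)) (φ t)))
      (YX.pr B p t) (spMap φ) :=
    IsPullback.of_iso h1 (asIso m).symm (Iso.refl _) (Iso.refl _) (Iso.refl _)
      (by simp) (by simp [← m3]) (by simp) (by simp)
  refine ⟨g.comp (bc1 φ (pT_bc φ (rev_bc φ (fun _ => rfl)) rfl)),
    ⟨m ≫ YX.map φ (fun _ => rfl) rfl, hc, fun i => i.elim0⟩, ?_, ?_, ?_, ?_, ?_⟩
  · intro c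
    rw [RingHom.comp_apply, bc1_b, g1]
  · rw [RingHom.comp_apply, bc1_x]
    exact g2
  · rw [RingHom.comp_apply, bc1_y]
    exact g3
  · change HX.in1 B' _ ≫ m ≫ YX.map φ (fun _ => rfl) rfl = _
    rw [← Category.assoc, m1, YX.inT_map]
  · change HX.in2 B' _ ≫ m ≫ YX.map φ (fun _ => rfl) rfl = _
    rw [← Category.assoc, m2, Category.assoc, YX.inQ_map, ← Category.assoc, spMap_comp']

end Pool.Agent.MG.H2


end

section

/-!
# YOU: the condition of stability for `t` a unit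
-/

open Polynomial

namespace Pool.Agent.MG.H2

namespace YOU

/-- Coprimality is checked at the points with values in fields. -/
theorem isCoprime_iff {R : Type} [CommRing R] (a b : R) :
    IsCoprime a b ↔ ∀ (K : Type) [Field K] (ψ : R →+* K), ¬(ψ a = 0 ∧ ψ b = 0) := by
  constructor
  · rintro ⟨u, v, h⟩ K _ ψ ⟨h1, h2⟩
    have := congrArg ψ h
    rw [map_add, map_mul, map_mul, h1, h2, mul_zero, mul_zero, add_zero, map_one] at this
    exact zero_ne_one this
  · intro h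
    by_contra hc
    have hne : Ideal.span {a, b} ≠ ⊤ := by
      intro ht
      have h1 : (1 : R) ∈ Ideal.span {a, b} := by rw [ht]; trivial
      obtain ⟨u, v, huv⟩ := Ideal.mem_span_pair.1 h1
      exact hc ⟨u, v, huv⟩
    obtain ⟨m, hm, hle⟩ := Ideal.exists_le_maximal _ hne
    letI : Field (R ⧸ m) := Ideal.Quotient.field m
    refine h (R ⧸ m) (Ideal.Quotient.mk m) ⟨?_, ?_⟩
    · rw [Ideal.Quotient.eq_zero_iff_mem]
      exact hle (Ideal.subset_span (by simp))
    · rw [Ideal.Quotient.eq_zero_iff_mem]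
      exact hle (Ideal.subset_span (by simp))

/-- The value of the derivative. -/
def dpol {R : Type} [CommRing R] (f : Fin 7 → R) (x : R) : R :=
  f 1 + 2 * f 2 * x + 3 * f 3 * x ^ 2 + 4 * f 4 * x ^ 3 + 5 * f 5 * x ^ 4 + 6 * f 6 * x ^ 5

section

variable {B K : Type} [CommRing B] [Field K]

theorem eval_pp (f : Fin 7 → B) (ψ : B →+* K) (a : K) :
    (pp B f).eval₂ ψ a = pol (fun i => ψ (f i)) a := by
  simp only [pp, pol, eval₂_add, eval₂_mul, eval₂_pow, eval₂_C, eval₂_X]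

theorem deriv_pp (f : Fin 7 → B) : derivative (pp B f) = C (f 1) + C (2 * f 2) * X +
    C (3 * f 3) * X ^ 2 + C (4 * f 4) * X ^ 3 + C (5 * f 5) * X ^ 4 + C (6 * f 6) * X ^ 5 := by
  have h2 : (C 2 : B[X]) = 2 := rfl
  have h3 : (C 3 : B[X]) = 3 := rfl
  have h4 : (C 4 : B[X]) = 4 := rfl
  have h5 : (C 5 : B[X]) = 5 := rfl
  have h6 : (C 6 : B[X]) = 6 := rfl
  simp only [pp, pol, derivative_add, derivative_mul, derivative_C, derivative_X_pow,
    derivative_X, zero_mul, zero_add, mul_one, C_mul, Nat.cast_ofNat, h2, h3, h4, h5, h6]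
  ring

theorem eval_deriv_pp (f : Fin 7 → B) (ψ : B →+* K) (a : K) :
    (derivative (pp B f)).eval₂ ψ a = dpol (fun i => ψ (f i)) a := by
  have h2 : ψ 2 = 2 := map_ofNat ψ 2
  have h3 : ψ 3 = 3 := map_ofNat ψ 3
  have h4 : ψ 4 = 4 := map_ofNat ψ 4
  have h5 : ψ 5 = 5 := map_ofNat ψ 5
  have h6 : ψ 6 = 6 := map_ofNat ψ 6
  rw [deriv_pp]
  simp only [dpol, eval₂_add, eval₂_mul, eval₂_pow, eval₂_C, eval₂_X, map_mul, h2, h3, h4, h5,
    h6]

theorem coprime_iff (f : Fin 7 → B) : IsCoprime (pp B f) (derivative (pp B f)) ↔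
    ∀ (K : Type) [Field K] (ψ : B →+* K) (a : K),
      ¬(pol (fun i => ψ (f i)) a = 0 ∧ dpol (fun i => ψ (f i)) a = 0) := by
  rw [Two2.isCoprime_iff_pts]
  constructor
  · intro h K _ ψ a
    have := h K ψ a
    rwa [eval_pp, eval_deriv_pp] at this
  · intro h K _ ψ a
    rw [eval_pp, eval_deriv_pp]
    exact h K ψ a

theorem map_pT (ψ : B →+* K) (p : Fin 7 → B) (t : B) :
    (fun i => ψ (pT p t i)) = pT (fun i => ψ (p i)) (ψ t) := by
  funext i
  exact pT_map ψ p t i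

theorem pol_sub (p : Fin 7 → K) (t u : K) :
    pol (rev (pT p t)) (t ^ 2 * u) = t ^ 6 * pol (pT (rev p) t) u := by
  simp only [pol]
  simp [rev, pT]
  ring

theorem dpol_sub (p : Fin 7 → K) (t u : K) :
    t ^ 2 * dpol (rev (pT p t)) (t ^ 2 * u) = t ^ 6 * dpol (pT (rev p) t) u := by
  simp only [dpol]
  simp [rev, pT]
  ring

end

theorem rev_iff {B : Type} [CommRing B] (p : Fin 7 → B) (t : B) (ht : IsUnit t) :
    IsCoprime (pp B (rev (pT p t))) (derivative (pp B (rev (pT p t)))) ↔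
      IsCoprime (pp B (pT (rev p) t)) (derivative (pp B (pT (rev p) t))) := by
  rw [coprime_iff, coprime_iff]
  have h1 : ∀ (K : Type) [Field K] (ψ : B →+* K),
      (fun i => ψ (rev (pT p t) i)) = rev (pT (fun i => ψ (p i)) (ψ t)) := by
    intro K _ ψ
    rw [← map_pT]
    rfl
  have h2 : ∀ (K : Type) [Field K] (ψ : B →+* K),
      (fun i => ψ (pT (rev p) t i)) = pT (rev fun i => ψ (p i)) (ψ t) := by
    intro K _ ψ
    rw [map_pT]
    rfl
  constructor
  · rintro h K _ ψ a ⟨h3, h4⟩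
    have hT : ψ t ≠ 0 := (ht.map ψ).ne_zero
    refine h K ψ (ψ t ^ 2 * a) ⟨?_, ?_⟩
    · rw [h1, pol_sub, ← h2, h3, mul_zero]
    · have := dpol_sub (fun i => ψ (p i)) (ψ t) a
      rw [← h1, ← h2, h4, mul_zero] at this
      exact (mul_eq_zero.1 this).resolve_left (pow_ne_zero 2 hT)
  · rintro h K _ ψ a ⟨h3, h4⟩
    have hT : ψ t ≠ 0 := (ht.map ψ).ne_zero
    have ha : ψ t ^ 2 * (a / ψ t ^ 2) = a := mul_div_cancel₀ _ (pow_ne_zero 2 hT)
    refine h K ψ (a / ψ t ^ 2) ⟨?_, ?_⟩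
    · have := pol_sub (fun i => ψ (p i)) (ψ t) (a / ψ t ^ 2)
      rw [← h1, ← h2, ha, h3] at this
      exact (mul_eq_zero.1 this.symm).resolve_left (pow_ne_zero 6 hT)
    · have := dpol_sub (fun i => ψ (p i)) (ψ t) (a / ψ t ^ 2)
      rw [← h1, ← h2, ha, h4, mul_zero] at this
      exact (mul_eq_zero.1 this.symm).resolve_left (pow_ne_zero 6 hT)

/-- The conditions in the chart `T` and in the chart `N`. -/
theorem KE {K : Type} [Field K] (p : Fin 7 → K) (t x xi : K) (hx : x * xi = 1) :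
    pol (pT p t) x = x ^ 3 * KK p (t ^ 2 * x) xi ∧
      3 * pol (pT p t) x - x * dpol (pT p t) x = x ^ 3 * EE p (t ^ 2 * x) xi := by
  have h2 : x ^ 2 * xi ^ 2 = 1 := by rw [← mul_pow, hx, one_pow]
  have h3 : x ^ 3 * xi ^ 3 = 1 := by rw [← mul_pow, hx, one_pow]
  constructor
  · rw [pol_pT]
    simp only [KK]
    linear_combination -(p 2 * x ^ 2) * hx - p 1 * x * h2 - p 0 * h3
  · have e1 : dpol (pT p t) x = p 1 + 2 * p 2 * x + 3 * p 3 * x ^ 2 +
        4 * (t ^ 2 * p 4) * x ^ 3 + 5 * (t ^ 4 * p 5) * x ^ 4 + 6 * (t ^ 6 * p 6) * x ^ 5 := rfl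
    rw [pol_pT, e1]
    simp only [EE]
    linear_combination -(p 2 * x ^ 2) * hx - 2 * p 1 * x * h2 - 3 * p 0 * h3

theorem sN {B : Type} [CommRing B] (p : Fin 7 → B) (t : B) (ht : IsUnit t)
    (h : IsCoprime (pp B (pT p t)) (derivative (pp B (pT p t)))) :
    IsCoprime (KN B p t) (EN B p t) := by
  rw [coprime_iff] at h
  rw [isCoprime_iff]
  rintro K _ ψ ⟨h1, h2⟩
  have hT : ψ (algebraMap B _ t) ≠ 0 := ((ht.map (algebraMap B (NN B p t))).map ψ).ne_zero
  have hr := (relN B p t).map ψ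
  have hξ : ψ (xN B p t) ≠ 0 := by
    intro h0
    have := hr.zx
    rw [h0, mul_zero] at this
    exact pow_ne_zero 2 hT this.symm
  rw [KN, KK_map] at h1
  rw [EN, EE_map] at h2
  have hx : (ψ (xN B p t))⁻¹ * ψ (xN B p t) = 1 := inv_mul_cancel₀ hξ
  have hz : ψ (zN B p t) = ψ (algebraMap B _ t) ^ 2 * (ψ (xN B p t))⁻¹ := by
    rw [← hr.zx, mul_assoc, mul_inv_cancel₀ hξ, mul_one]
  rw [hz] at h1 h2
  obtain ⟨e1, e2⟩ := KE (fun i => ψ (algebraMap B (NN B p t) (p i))) (ψ (algebraMap B _ t))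
    (ψ (xN B p t))⁻¹ (ψ (xN B p t)) hx
  have hm : (fun i => (ψ.comp (algebraMap B (NN B p t))) (pT p t i)) =
      pT (fun i => ψ (algebraMap B (NN B p t) (p i))) (ψ (algebraMap B _ t)) :=
    map_pT (ψ.comp (algebraMap B (NN B p t))) p t
  refine h K (ψ.comp (algebraMap B (NN B p t))) (ψ (xN B p t))⁻¹ ⟨?_, ?_⟩
  · rw [hm, e1, h1, mul_zero]
  · rw [hm]
    rw [e1, h1, h2, mul_zero, mul_zero, zero_sub, neg_eq_zero] at e2
    exact (mul_eq_zero.1 e2).resolve_left (inv_ne_zero hξ)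

end YOU

theorem t_YOU : Stmt_YOU := by
  intro B _ p t ht h2
  constructor
  · rintro ⟨h, h'⟩
    exact ⟨h2, h, (YOU.rev_iff p t ht).1 h', YOU.sN p t ht h⟩
  · intro h
    exact ⟨h.sT, (YOU.rev_iff p t ht).2 h.sQ⟩

end Pool.Agent.MG.H2


end

section

/-!
# The union of the charts `T` and `Q` is affine at `t = 0`
-/

open CategoryTheory CategoryTheory.Limits AlgebraicGeometry TensorProduct

namespace Pool.Agent.MG.H2

namespace YUA

/-- The charts `T` and `Q` are disjoint. -/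
theorem empty (K : Type) [Field K] (p : Fin 7 → K) (x : Sp (TT K p 0)) (y : Sp (QQ K p 0)) :
    YX.inT K p 0 x ≠ YX.inQ K p 0 y := by
  intro h
  obtain ⟨w, w', -, -, h3⟩ := YX.meetTQ x y h
  have h1 : xN K p 0 ∉ (spMap (nT K p 0) w).asIdeal := (range_nT K p 0 _).mp ⟨w, rfl⟩
  have h2 : zN K p 0 ∉ (spMap (nT K p 0) w).asIdeal := by
    rw [h3]
    exact (range_nQ K p 0 _).mp ⟨w', rfl⟩
  have h4 : zN K p 0 * xN K p 0 = 0 := by
    have := (relN K p 0).zx
    rw [this, map_zero, zero_pow two_ne_zero]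
  have h5 : zN K p 0 * xN K p 0 ∈ (spMap (nT K p 0) w).asIdeal := by
    rw [h4]
    exact Ideal.zero_mem _
  rcases ((spMap (nT K p 0) w).isPrime).mem_or_mem h5 with h6 | h6
  · exact h2 h6
  · exact h1 h6

end YUA

/-- The union of the charts `T` and `Q` is affine. -/
theorem t_YUA : Stmt_YUA := by
  intro K _ p
  have h : (YX.inT K p 0).opensRange ⊓ (YX.inQ K p 0).opensRange = ⊥ := by
    ext z
    constructor
    · rintro ⟨⟨x, hx⟩, ⟨y, hy⟩⟩
      exact absurd (hx.trans hy.symm) (YUA.empty K p x y)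
    · intro hz
      exact absurd hz (Set.notMem_empty z)
  exact ⟨h, (isAffineOpen_opensRange _).sup_of_disjoint (isAffineOpen_opensRange _)
    (disjoint_iff.mpr h)⟩

end Pool.Agent.MG.H2


end

section

/-!
# Existence in the valuative criterion for the family `YX B p t`
-/

open CategoryTheory CategoryTheory.Limits AlgebraicGeometry TensorProduct IsLocalRing

namespace Pool.Agent.MG.H2

namespace YVE

theorem mem_of_closed {X : Scheme.{0}} {R : Type} [CommRing R] [IsLocalRing R]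
    (l : Sp R ⟶ X) (V : X.Opens) (h : l (closedPoint R) ∈ V) (y : Sp R) : l y ∈ V :=
  ((specializes_closedPoint (R := R) y).map l.continuous).mem_open V.isOpen h

/-- A local point in a chart. -/
theorem fac1 {X : Scheme.{0}} {A R : Type} [CommRing A] [CommRing R] [IsLocalRing R]
    (i : Sp A ⟶ X) [IsOpenImmersion i] (l : Sp R ⟶ X)
    (h : l (closedPoint R) ∈ Set.range i) : ∃ g : A →+* R, l = spMap g ≫ i := by
  have hr : Set.range l ⊆ Set.range i := by
    rintro _ ⟨y, rfl⟩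
    exact mem_of_closed l i.opensRange h y
  obtain ⟨φ, hφ⟩ := Spec.map_surjective (IsOpenImmersion.lift i l hr)
  refine ⟨φ.hom, ?_⟩
  have h2 : spMap φ.hom = IsOpenImmersion.lift i l hr := hφ
  rw [h2, IsOpenImmersion.lift_fac]

theorem spMap_inj {A C : Type} [CommRing A] [CommRing C] {φ ψ : A →+* C}
    (h : spMap φ = spMap ψ) : φ = ψ := by
  have h2 := Spec.map_injective h
  exact congrArg CommRingCat.Hom.hom h2

section val

variable {R K : Type} [CommRing R] [IsDomain R] [ValuationRing R] [Field K] [Algebra R K]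
  [IsFractionRing R K]

theorem sq_int {y : K} {r : R} (h : y ^ 2 = algebraMap R K r) : ∃ s : R, y = algebraMap R K s := by
  rcases ValuationRing.isInteger_or_isInteger R y with ⟨s, hs⟩ | ⟨s, hs⟩
  · exact ⟨s, hs.symm⟩
  · by_cases hy : y = 0
    · exact ⟨0, by rw [hy, map_zero]⟩
    · refine ⟨r * s, ?_⟩
      rw [map_mul, ← h, hs]
      field_simp

/-- An element which is not integral has an integral inverse. -/
theorem inv_int {y : K} (h : ¬ ∃ s : R, y = algebraMap R K s) :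
    y ≠ 0 ∧ ∃ s : R, y⁻¹ = algebraMap R K s := by
  refine ⟨fun h0 => h ⟨0, by rw [h0, map_zero]⟩, ?_⟩
  rcases ValuationRing.isInteger_or_isInteger R y with ⟨s, hs⟩ | ⟨s, hs⟩
  · exact absurd ⟨s, hs.symm⟩ h
  · exact ⟨s, hs.symm⟩

variable {B : Type} [CommRing B] {p : Fin 7 → B} {t : B}

/-- Points of the charts `y² = f(x)` with integral `x`. -/
theorem liftF {f : Fin 7 → B} (inF : Sp (A1 B f) ⟶ YX B p t)
    (hpr : inF ≫ YX.pr B p t = spMap (algebraMap B _)) (β : B →+* R) (h : A1 B f →+* K)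
    (hβ : ∀ c, h (algebraMap B _ c) = algebraMap R K (β c))
    (hx : ∃ s : R, h (x1 B f) = algebraMap R K s) :
    ∃ l : Sp R ⟶ YX B p t, spMap (algebraMap R K) ≫ l = spMap h ≫ inF ∧
      l ≫ YX.pr B p t = spMap β := by
  obtain ⟨s, hs⟩ := hx
  have hr := congrArg h (rel1 B f)
  rw [map_pow, pol_map, hs] at hr
  have hr2 : h (y1 B f) ^ 2 = algebraMap R K (pol (fun i => β (f i)) s) := by
    rw [hr, pol_map]
    congr 1
    funext i
    exact hβ (f i)
  obtain ⟨r, hy⟩ := sq_int hr2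
  have hrel : r ^ 2 = pol (fun i => β (f i)) s := by
    apply IsFractionRing.injective R K
    rw [← hr2, hy, map_pow]
  refine ⟨spMap (lift1 β s r hrel) ≫ inF, ?_, ?_⟩
  · rw [← Category.assoc, spMap_comp']
    congr 2
    refine hom1_ext (fun c => ?_) ?_ ?_
    · rw [RingHom.comp_apply, lift1_b, hβ]
    · rw [RingHom.comp_apply, lift1_x, hs]
    · rw [RingHom.comp_apply, lift1_y, hy]
  · rw [Category.assoc, hpr, spMap_comp']
    exact congrArg (fun g => spMap g)
      (RingHom.ext fun c => lift1_b (f := f) β s r hrel c)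

theorem rel_inj {S S' : Type} [CommRing S] [CommRing S'] (φ : S →+* S')
    (hφ : Function.Injective φ) {p : Fin 7 → S} {t z ξ α β : S}
    (h : NRel (fun i => φ (p i)) (φ t) (φ z) (φ ξ) (φ α) (φ β)) : NRel p t z ξ α β where
  zx := hφ (by rw [map_mul, map_pow, h.zx])
  aa := hφ (by rw [map_mul, map_pow, KK_map, h.aa])
  bb := hφ (by rw [map_mul, map_pow, KK_map, h.bb])
  ab := hφ (by rw [map_mul, map_mul, KK_map, h.ab])
  xb := hφ (by rw [map_mul, map_mul, h.xb])
  za := hφ (by rw [map_mul, map_mul, h.za])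

/-- Integral points of the chart `N`. -/
theorem liftN' (β : B →+* R) (h : NN B p t →+* K)
    (hβ : ∀ c, h (algebraMap B _ c) = algebraMap R K (β c))
    (hz : ∃ s : R, h (zN B p t) = algebraMap R K s)
    (hx : ∃ s : R, h (xN B p t) = algebraMap R K s) :
    ∃ l : Sp R ⟶ YX B p t, spMap (algebraMap R K) ≫ l = spMap h ≫ YX.inN B p t ∧
      l ≫ YX.pr B p t = spMap β := by
  obtain ⟨z, hz⟩ := hz
  obtain ⟨x, hx⟩ := hx
  have hrel := (relN B p t).map h
  have hp : (fun i => h (algebraMap B _ (p i))) = fun i => algebraMap R K (β (p i)) := by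
    funext i
    exact hβ _
  rw [hβ, hz, hx, hp] at hrel
  have ha := hrel.aa
  have hb := hrel.bb
  rw [← KK_map, ← map_mul] at ha hb
  obtain ⟨a, ha'⟩ := sq_int ha
  obtain ⟨b, hb'⟩ := sq_int hb
  rw [ha', hb'] at hrel
  have hrel2 := rel_inj (algebraMap R K) (IsFractionRing.injective R K)
    (p := fun i => β (p i)) hrel
  refine ⟨spMap (liftN β z x a b hrel2) ≫ YX.inN B p t, ?_, ?_⟩
  · rw [← Category.assoc, spMap_comp']
    congr 2
    refine homN_ext (fun c => ?_) ?_ ?_ ?_ ?_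
    · rw [RingHom.comp_apply, liftN_c, hβ]
    · rw [RingHom.comp_apply, liftN_z, hz]
    · rw [RingHom.comp_apply, liftN_x, hx]
    · rw [RingHom.comp_apply, liftN_a, ha']
    · rw [RingHom.comp_apply, liftN_b, hb']
  · rw [Category.assoc, YX.inN_pr, spMap_comp']
    exact congrArg (fun g => spMap g)
      (RingHom.ext fun c => liftN_c (p := p) (t := t) β z x a b hrel2 c)

end val

section charts

variable {K : Type} [Field K] {B : Type} [CommRing B] {p : Fin 7 → B} {t : B}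
  {f : Fin 7 → B} (inF : Sp (A1 B f) ⟶ YX B p t) (nF : NN B p t →+* A12 B f) (e : NN B p t)
  (cond : spMap nF ≫ YX.inN B p t = spMap (g1 B f) ≫ inF)
  (nFc : ∀ c, nF (algebraMap B _ c) = algebraMap B _ c)

include cond nFc in
/-- A point of a chart with nonzero `x` is a point of `N`. -/
theorem toN (h : A1 B f →+* K) (hx : h (x1 B f) ≠ 0) :
    ∃ h' : NN B p t →+* K, spMap h ≫ inF = spMap h' ≫ YX.inN B p t ∧
      ∀ c, h' (algebraMap B _ c) = h (algebraMap B _ c) := by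
  have hg : ∀ v, (IsLocalization.Away.lift (S := A12 B f) (x1 B f) (IsUnit.mk0 _ hx))
      (g1 B f v) = h v :=
    fun v => IsLocalization.Away.lift_eq (S := A12 B f) (x1 B f) (IsUnit.mk0 _ hx) v
  refine ⟨(IsLocalization.Away.lift (S := A12 B f) (x1 B f) (IsUnit.mk0 _ hx)).comp nF, ?_, ?_⟩
  · rw [← spMap_comp', Category.assoc, cond, ← Category.assoc, spMap_comp']
    congr 2
    exact (RingHom.ext hg).symm
  · intro c
    rw [RingHom.comp_apply, nFc]
    exact hg (algebraMap B _ c)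

include cond nFc in
/-- A point of `N` with nonzero `e` is a point of the chart. -/
theorem fromN (nFe : nF e = ((xu B f)⁻¹ : (A12 B f)ˣ).val)
    (loc : @IsLocalization.Away _ _ e (A12 B f) _ nF.toAlgebra) (h : NN B p t →+* K)
    (he : h e ≠ 0) : ∃ h' : A1 B f →+* K, spMap h ≫ YX.inN B p t = spMap h' ≫ inF ∧
      h' (x1 B f) = (h e)⁻¹ ∧ ∀ c, h' (algebraMap B _ c) = h (algebraMap B _ c) := by
  letI := nF.toAlgebra
  have hg : ∀ v, (IsLocalization.Away.lift (S := A12 B f) e (IsUnit.mk0 _ he)) (nF v) = h v :=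
    fun v => IsLocalization.Away.lift_eq (S := A12 B f) e (IsUnit.mk0 _ he) v
  refine ⟨(IsLocalization.Away.lift (S := A12 B f) e (IsUnit.mk0 _ he)).comp (g1 B f), ?_, ?_, ?_⟩
  · rw [← spMap_comp', Category.assoc, ← cond, ← Category.assoc, spMap_comp']
    congr 2
    exact (RingHom.ext hg).symm
  · rw [RingHom.comp_apply, ← xu_val]
    have h1 := hg e
    rw [nFe] at h1
    have h2 : (IsLocalization.Away.lift (S := A12 B f) e (IsUnit.mk0 _ he)) (xu B f : A12 B f) *
        (IsLocalization.Away.lift (S := A12 B f) e (IsUnit.mk0 _ he))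
          ((xu B f)⁻¹ : (A12 B f)ˣ).val = 1 := by
      rw [← map_mul, Units.mul_inv, map_one]
    exact eq_inv_of_mul_eq_one_left ((congrArg _ h1.symm).trans h2)
  · intro c
    rw [RingHom.comp_apply, g1_b, ← nFc, hg]

end charts

section main

variable {R K : Type} [CommRing R] [IsDomain R] [ValuationRing R] [Field K] [Algebra R K]
  [IsFractionRing R K] {B : Type} [CommRing B] {p : Fin 7 → B} {t : B}

/-- Points of `N`. -/
theorem exN (β : B →+* R) (h : NN B p t →+* K)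
    (hβ : ∀ c, h (algebraMap B _ c) = algebraMap R K (β c)) :
    ∃ l : Sp R ⟶ YX B p t, spMap (algebraMap R K) ≫ l = spMap h ≫ YX.inN B p t ∧
      l ≫ YX.pr B p t = spMap β := by
  by_cases hx : ∃ s : R, h (xN B p t) = algebraMap R K s
  · by_cases hz : ∃ s : R, h (zN B p t) = algebraMap R K s
    · exact liftN' β h hβ hz hx
    · obtain ⟨h0, s, hs⟩ := inv_int hz
      obtain ⟨h', e1, e2, e3⟩ := fromN (YX.inQ B p t) (nQ B p t) (zN B p t) (YX.condQ B p t)
        (nQ_c B p t) (nQ_z B p t) (nQ_loc B p t) h h0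
      obtain ⟨l, hl1, hl2⟩ := liftF (YX.inQ B p t) (YX.inQ_pr B p t) β h'
        (fun c => (e3 c).trans (hβ c)) ⟨s, e2.trans hs⟩
      exact ⟨l, hl1.trans e1.symm, hl2⟩
  · obtain ⟨h0, s, hs⟩ := inv_int hx
    obtain ⟨h', e1, e2, e3⟩ := fromN (YX.inT B p t) (nT B p t) (xN B p t) (YX.condT B p t)
      (nT_c B p t) (nT_x B p t) (nT_loc B p t) h h0
    obtain ⟨l, hl1, hl2⟩ := liftF (YX.inT B p t) (YX.inT_pr B p t) β h'
      (fun c => (e3 c).trans (hβ c)) ⟨s, e2.trans hs⟩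
    exact ⟨l, hl1.trans e1.symm, hl2⟩

/-- Points of `T` and `Q`. -/
theorem exF {f : Fin 7 → B} (inF : Sp (A1 B f) ⟶ YX B p t) (nF : NN B p t →+* A12 B f)
    (hpr : inF ≫ YX.pr B p t = spMap (algebraMap B _))
    (cond : spMap nF ≫ YX.inN B p t = spMap (g1 B f) ≫ inF)
    (nFc : ∀ c, nF (algebraMap B _ c) = algebraMap B _ c) (β : B →+* R) (h : A1 B f →+* K)
    (hβ : ∀ c, h (algebraMap B _ c) = algebraMap R K (β c)) :
    ∃ l : Sp R ⟶ YX B p t, spMap (algebraMap R K) ≫ l = spMap h ≫ inF ∧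
      l ≫ YX.pr B p t = spMap β := by
  by_cases hx : ∃ s : R, h (x1 B f) = algebraMap R K s
  · exact liftF inF hpr β h hβ hx
  · obtain ⟨h0, -⟩ := inv_int hx
    obtain ⟨h', e1, e2⟩ := toN inF nF cond nFc h h0
    obtain ⟨l, hl1, hl2⟩ := exN β h' (fun c => (e2 c).trans (hβ c))
    exact ⟨l, hl1.trans e1.symm, hl2⟩

end main

/-- The compatibility of the homomorphisms with the base. -/
theorem compat {R K B A : Type} [CommRing R] [CommRing K] [Algebra R K] [CommRing B] [CommRing A]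
    [Algebra B A] {X : Scheme.{0}} (i : Sp A ⟶ X) (π : X ⟶ Sp B)
    (hi : i ≫ π = spMap (algebraMap B A)) (β : B →+* R) (h : A →+* K)
    (hw : (spMap h ≫ i) ≫ π = spMap (algebraMap R K) ≫ spMap β) (c : B) :
    h (algebraMap B A c) = algebraMap R K (β c) := by
  rw [Category.assoc, hi, spMap_comp', spMap_comp'] at hw
  exact RingHom.congr_fun (spMap_inj hw) c

end YVE

open _root_.Pool.Agent.MG.H2.YVE in
/-- **YVE** -/
theorem t_YVE : Stmt_YVE := by
  intro B _ p t R K _ _ _ _ _ _ i₁ i₂ hw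
  obtain ⟨β', hβ'⟩ := Spec.map_surjective i₂
  obtain ⟨β, rfl⟩ : ∃ β : B →+* R, i₂ = spMap β := ⟨β'.hom, hβ'.symm⟩
  rcases YX.surj3 (i₁ (closedPoint K)) with hp | hp | hp
  · obtain ⟨h, rfl⟩ := fac1 (YX.inT B p t) i₁ hp
    exact exF (YX.inT B p t) (nT B p t) (YX.inT_pr B p t) (YX.condT B p t) (nT_c B p t) β h
      (compat _ _ (YX.inT_pr B p t) β h hw)
  · obtain ⟨h, rfl⟩ := fac1 (YX.inN B p t) i₁ hp
    exact exN β h (compat _ _ (YX.inN_pr B p t) β h hw)
  · obtain ⟨h, rfl⟩ := fac1 (YX.inQ B p t) i₁ hp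
    exact exF (YX.inQ B p t) (nQ B p t) (YX.inQ_pr B p t) (YX.condQ B p t) (nQ_c B p t) β h
      (compat _ _ (YX.inQ_pr B p t) β h hw)

end Pool.Agent.MG.H2


end
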