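import Mathlib
import Pool.Agent.KDM.C12
import Pool.Agent.KDM.C15
import Pool.Agent.KDM.C16
import Pool.Agent.KDM.C20

/-! Parts: MG.W.WGN, MG.H2.Cf, MG.H2.Cf2, MG.H2.YHG, MG.G0.BGA -/

section

/-!
# WGN: Weierstrass curves have genus one
-/

set_option linter.unusedSectionVars false

open CategoryTheory CategoryTheory.Limits AlgebraicGeometry TensorProduct

namespace Pool.Agent.MG.W

namespace WGN

theorem evO_eq {A : Type} [CommRing A] {X : Scheme.{0}} {i i' : Sp A ⟶ X} (e : i = i')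
    {U : X.Opens} (h : ⊤ ≤ i ⁻¹ᵁ U) (h' : ⊤ ≤ i' ⁻¹ᵁ U) (a : Γ(X, U)) :
    evO i U h a = evO i' U h' a := by
  subst e
  rfl

section Two

variable {K R1 R2 M : Type} [Field K] [CommRing R1] [CommRing R2] [CommRing M] {X : Scheme.{0}}
  (π : X ⟶ Sp K) (i1 : Sp R1 ⟶ X) (i2 : Sp R2 ⟶ X) [IsOpenImmersion i1] [IsOpenImmersion i2]
  (φ1 : R1 →+* M) (φ2 : R2 →+* M)

/-- The genus of a curve with two affine charts. -/
theorem genus_two (hM : spMap φ1 ≫ i1 = spMap φ2 ≫ i2) (oM : IsOpenImmersion (spMap φ1 ≫ i1))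
    (h12 : ∀ x y, i1 x = i2 y → i1 x ∈ Set.range (spMap φ1 ≫ i1))
    (cov : ∀ x : X, x ∈ Set.range i1 ∨ x ∈ Set.range i2)
    (κ : K →+* M) (hκ : (spMap φ1 ≫ i1) ≫ π = spMap κ)
    (g : ℕ) (L : M →+ (Fin g → K)) (hs : Function.Surjective L)
    (hl : ∀ c t, L (κ c * t) = c • L t) (hk : ∀ t, L t = 0 ↔ ∃ p q, t = φ1 p + φ2 q) :
    HasGenus π g := by
  obtain ⟨U, hU⟩ : ∃ U, U = i1.opensRange := ⟨_, rfl⟩
  obtain ⟨V, hV⟩ : ∃ V, V = i2.opensRange := ⟨_, rfl⟩
  have mU : ∀ x, x ∈ U ↔ x ∈ Set.range i1 := by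
    intro x
    rw [hU]
    exact Iff.rfl
  have mV : ∀ x, x ∈ V ↔ x ∈ Set.range i2 := by
    intro x
    rw [hV]
    exact Iff.rfl
  have aU : IsAffineOpen U := by
    rw [hU]
    exact isAffineOpen_opensRange i1
  have aV : IsAffineOpen V := by
    rw [hV]
    exact isAffineOpen_opensRange i2
  have eM : ∀ p, (spMap φ1 ≫ i1) p = i2 (spMap φ2 p) := by
    intro p
    rw [hM, Scheme.Hom.comp_apply]
  have hMU : ⊤ ≤ (spMap φ1 ≫ i1) ⁻¹ᵁ U := le_of_range _ fun p => (mU _).2
    ⟨spMap φ1 p, (Scheme.Hom.comp_apply _ _ _).symm⟩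
  have hMV : ⊤ ≤ (spMap φ1 ≫ i1) ⁻¹ᵁ V := le_of_range _ fun p => (mV _).2 ⟨_, (eM p).symm⟩
  have hMUV : ⊤ ≤ (spMap φ1 ≫ i1) ⁻¹ᵁ (U ⊓ V) := fun p hp => ⟨hMU hp, hMV hp⟩
  have h1U : ⊤ ≤ i1 ⁻¹ᵁ U := le_of_range _ fun p => (mU _).2 ⟨p, rfl⟩
  have h2V : ⊤ ≤ i2 ⁻¹ᵁ V := le_of_range _ fun p => (mV _).2 ⟨p, rfl⟩
  have hUV : ∀ x ∈ U ⊓ V, x ∈ Set.range (spMap φ1 ≫ i1) := by
    rintro x ⟨hx1, hx2⟩
    obtain ⟨p, rfl⟩ := (mU x).1 hx1
    obtain ⟨q, hq⟩ := (mV _).1 hx2
    exact h12 p q hq.symm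
  have bij := evO_bij (spMap φ1 ≫ i1) hMUV hUV
  -- evaluation of restrictions
  have r1 : ∀ b : Γ(X, U), evO (spMap φ1 ≫ i1) (U ⊓ V) hMUV (rs X inf_le_left b) =
      φ1 (evO i1 U h1U b) := by
    intro b
    rw [evO_rs _ inf_le_left hMUV hMU, evO_spMap i1 φ1 h1U hMU]
  have r2 : ∀ b : Γ(X, V), evO (spMap φ1 ≫ i1) (U ⊓ V) hMUV (rs X inf_le_right b) =
      φ2 (evO i2 V h2V b) := by
    intro b
    have h' : ⊤ ≤ (spMap φ2 ≫ i2) ⁻¹ᵁ V := hM ▸ hMV
    rw [evO_rs _ inf_le_right hMUV hMV, evO_eq hM hMV h', evO_spMap i2 φ2 h2V h']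
  refine ⟨U, V, aU, aV, ?_, L.comp (evO (spMap φ1 ≫ i1) (U ⊓ V) hMUV).toAddMonoidHom,
    ?_, ?_, ?_⟩
  · ext x
    simp only [TopologicalSpace.Opens.coe_sup, Set.mem_union, TopologicalSpace.Opens.coe_top,
      Set.mem_univ, iff_true, SetLike.mem_coe]
    rw [mU, mV]
    exact cov x
  · intro v
    obtain ⟨t, ht⟩ := hs v
    obtain ⟨s, hs2⟩ := bij.2 t
    refine ⟨s, ?_⟩
    change L (evO (spMap φ1 ≫ i1) (U ⊓ V) hMUV s) = v
    rw [hs2, ht]
  · intro c s
    change L (evO (spMap φ1 ≫ i1) (U ⊓ V) hMUV (coef π (U ⊓ V) c * s)) =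
      c • L (evO (spMap φ1 ≫ i1) (U ⊓ V) hMUV s)
    rw [map_mul, evO_coef _ π κ hκ, hl]
  · intro s
    change L (evO (spMap φ1 ≫ i1) (U ⊓ V) hMUV s) = 0 ↔ ∃ (a : Γ(X, U)) (b : Γ(X, V)),
      s = rs X inf_le_left a + rs X inf_le_right b
    constructor
    · intro h0
      obtain ⟨p, q, hpq⟩ := (hk _).1 h0
      obtain ⟨a, ha⟩ := (evO_bij i1 h1U (fun x hx => (mU x).1 hx)).2 p
      obtain ⟨b, hb⟩ := (evO_bij i2 h2V (fun x hx => (mV x).1 hx)).2 q
      refine ⟨a, b, bij.1 ?_⟩
      rw [map_add, r1, r2, ha, hb, hpq]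
    · rintro ⟨a, b, rfl⟩
      rw [hk]
      exact ⟨evO i1 U h1U a, evO i2 V h2V b, by rw [map_add, r1, r2]⟩

end Two

section Alg

variable {K : Type} [Field K] (a b : K)

theorem uniq (hWRG : Stmt_WRG) {c c' : K} {v1 v1' : A1 K a b} {v2 v2' : A2 K a b}
    (h : algebraMap K _ c * (zu K a b)⁻¹.val + g1 K a b v1 + g2 K a b v2 =
      algebraMap K _ c' * (zu K a b)⁻¹.val + g1 K a b v1' + g2 K a b v2') : c = c' := by
  have h1 := ((hWRG K a b).2.2.2.2.2.1 (c - c') (v1 - v1') (v2 - v2') (by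
    rw [map_sub, map_sub, map_sub]
    linear_combination h)).1
  exact sub_eq_zero.1 h1

/-- The first cohomology of the Weierstrass curve. -/
theorem exists_L (hWRG : Stmt_WRG) : ∃ L : A12 K a b →+ (Fin 1 → K), Function.Surjective L ∧
    (∀ c t, L (algebraMap K (A12 K a b) c * t) = c • L t) ∧
    ∀ t, L t = 0 ↔ ∃ p q, t = g1 K a b p + g2 K a b q := by
  have hex := (hWRG K a b).2.2.2.2.1
  choose cc v1 v2 hcc using hex
  have hu : ∀ (t : A12 K a b) (c : K) (w1 : A1 K a b) (w2 : A2 K a b),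
      t = algebraMap K _ c * (zu K a b)⁻¹.val + g1 K a b w1 + g2 K a b w2 → cc t = c := by
    intro t c w1 w2 h
    exact uniq a b hWRG ((hcc t).symm.trans h)
  refine ⟨AddMonoidHom.mk' (fun t _ => cc t) ?_, ?_, ?_, ?_⟩
  · intro s t
    funext _
    change cc (s + t) = cc s + cc t
    refine hu _ _ (v1 s + v1 t) (v2 s + v2 t) ?_
    rw [map_add, map_add, map_add]
    linear_combination hcc s + hcc t
  · intro v
    refine ⟨algebraMap K _ (v 0) * (zu K a b)⁻¹.val, ?_⟩
    funext i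
    change cc _ = v i
    rw [Subsingleton.elim i 0]
    refine hu _ _ 0 0 ?_
    rw [map_zero, map_zero, add_zero, add_zero]
  · intro c t
    funext _
    change cc _ = c * cc t
    refine hu _ _ (algebraMap K _ c * v1 t) (algebraMap K _ c * v2 t) ?_
    rw [map_mul, map_mul, map_mul, g1_b, g2_b]
    linear_combination (algebraMap K (A12 K a b) c) * hcc t
  · intro t
    constructor
    · intro h
      have h0 : cc t = 0 := congrFun h 0
      refine ⟨v1 t, v2 t, ?_⟩
      have := hcc t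
      rw [h0, map_zero, zero_mul, zero_add] at this
      exact this
    · rintro ⟨p, q, h⟩
      funext _
      change cc t = 0
      refine hu _ _ p q ?_
      rw [map_zero, zero_mul, zero_add]
      exact h

end Alg

end WGN

/-- WGN: the genus. -/
theorem t_WGN (hWRG : Stmt_WRG) : Stmt_WGN := by
  intro K _ a b
  obtain ⟨L, h1, h2, h3⟩ := WGN.exists_L a b hWRG
  have hM : spMap (g1 K a b) ≫ WX.in1 K a b = spMap (g2 K a b) ≫ WX.in2 K a b :=
    pushout.condition
  refine WGN.genus_two (WX.pr K a b) (WX.in1 K a b) (WX.in2 K a b) (g1 K a b) (g2 K a b) hM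
    inferInstance ?_ ?_ (algebraMap K (A12 K a b)) ?_ 1 L h1 h2 h3
  · intro x y h
    obtain ⟨w, hw, -⟩ := glue2_eq (spMap (g1 K a b)) (spMap (g2 K a b)) x y h
    refine ⟨w, ?_⟩
    rw [Scheme.Hom.comp_apply, hw]
  · intro x
    exact glue2_surj (spMap (g1 K a b)) (spMap (g2 K a b)) x
  · rw [Category.assoc, WX.in1_pr, spMap_comp']
    exact congrArg (fun f => spMap f) (RingHom.ext fun c => g1_b K a b c)

end Pool.Agent.MG.W


end

section

/-!
# Laurent coefficients of functions on the curves `y² = f(x)`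
-/

open Polynomial

namespace Pool.Agent.MG.H2

section

variable {B : Type} [CommRing B] {f : Fin 7 → B}

theorem leq_natDegree_le (p : LY B f) :
    (AdjoinRoot.modByMonicHom (leq_monic B f) p).natDegree ≤ 1 := by
  obtain ⟨q, rfl⟩ := AdjoinRoot.mk_surjective p
  rw [AdjoinRoot.modByMonicHom_mk]
  rcases subsingleton_or_nontrivial B with h | h
  · have : Subsingleton (LaurentPolynomial B) := inferInstance
    have h2 : q %ₘ leq B f = 0 := Subsingleton.elim _ _
    rw [h2, natDegree_zero]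
    norm_num
  · have h1 : leq B f ≠ 1 := by
      intro h1
      have h2 : (leq B f).natDegree = 2 := natDegree_X_pow_sub_C
      rw [h1, natDegree_one] at h2
      exact absurd h2 (by norm_num)
    have h3 := natDegree_modByMonic_lt q (leq_monic B f) h1
    rw [natDegree_X_pow_sub_C] at h3
    omega

theorem toLY_eq (v : A12 B f) :
    toLY B f v = AdjoinRoot.of _ (lco 0 v) + AdjoinRoot.of _ (lco 1 v) * AdjoinRoot.root _ := by
  have h := AdjoinRoot.mk_leftInverse (leq_monic B f) (toLY B f v)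
  have h2 := Polynomial.eq_X_add_C_of_natDegree_le_one (leq_natDegree_le (toLY B f v))
  rw [h2] at h
  rw [← h]
  simp only [map_add, map_mul, AdjoinRoot.mk_C, AdjoinRoot.mk_X]
  rw [add_comm]
  rfl

theorem lco_of {v : A12 B f} {p q : LaurentPolynomial B}
    (h : toLY B f v = AdjoinRoot.of _ p + AdjoinRoot.of _ q * AdjoinRoot.root _) :
    lco 0 v = p ∧ lco 1 v = q := by
  have h1 : toLY B f v = AdjoinRoot.mk _ (C q * X + C p) := by
    rw [h]
    simp only [map_add, map_mul, AdjoinRoot.mk_C, AdjoinRoot.mk_X]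
    rw [add_comm]
  have h2 : AdjoinRoot.modByMonicHom (leq_monic B f) (toLY B f v) = C q * X + C p := by
    rw [h1, AdjoinRoot.modByMonicHom_mk]
    rcases subsingleton_or_nontrivial B with hB | hB
    · exact Subsingleton.elim _ _
    · rw [Polynomial.modByMonic_eq_self_iff (leq_monic B f)]
      refine lt_of_le_of_lt degree_linear_le ?_
      rw [degree_X_pow_sub_C (by norm_num)]
      norm_num
  constructor
  · change (AdjoinRoot.modByMonicHom (leq_monic B f) (toLY B f v)).coeff 0 = p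
    rw [h2]
    simp
  · change (AdjoinRoot.modByMonicHom (leq_monic B f) (toLY B f v)).coeff 1 = q
    rw [h2]
    simp

/-- A Laurent polynomial in `x`. -/
noncomputable def ev (B : Type) [CommRing B] (f : Fin 7 → B) : LaurentPolynomial B →+* A12 B f :=
  LaurentPolynomial.eval₂ (algebraMap B (A12 B f)) (xu B f)

theorem ev_C (c : B) : ev B f (LaurentPolynomial.C c) = algebraMap B _ c :=
  LaurentPolynomial.eval₂_C _ _ _

theorem ev_T (n : ℤ) : ev B f (LaurentPolynomial.T n) = ((xu B f) ^ n : (A12 B f)ˣ).val :=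
  LaurentPolynomial.eval₂_T _ _ _

theorem ev_T1 : ev B f (LaurentPolynomial.T 1) = xx f := by
  rw [ev_T, zpow_one]

theorem ev_Tm1 : ev B f (LaurentPolynomial.T (-1)) = xi f := by
  rw [ev_T, zpow_neg_one]

theorem ev_toLaurent (p : B[X]) : ev B f (toLaurent p) = aeval (xx f) p :=
  LaurentPolynomial.eval₂_toLaurent _ _ _

theorem laurent_hom_ext {R : Type} [CommRing R] {g g' : LaurentPolynomial B →+* R}
    (hC : ∀ c, g (LaurentPolynomial.C c) = g' (LaurentPolynomial.C c))
    (h1 : g (LaurentPolynomial.T 1) = g' (LaurentPolynomial.T 1)) : g = g' := by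
  refine IsLocalization.ringHom_ext (M := Submonoid.powers (X : B[X])) ?_
  refine Polynomial.ringHom_ext (fun c => ?_) ?_
  · have := hC c
    rwa [← Polynomial.toLaurent_C, ← LaurentPolynomial.algebraMap_eq_toLaurent] at this
  · have := h1
    rwa [← Polynomial.toLaurent_X, ← LaurentPolynomial.algebraMap_eq_toLaurent] at this

theorem toLY_ev (p : LaurentPolynomial B) : toLY B f (ev B f p) = AdjoinRoot.of _ p := by
  have : (toLY B f).comp (ev B f) = AdjoinRoot.of _ := by
    refine laurent_hom_ext (fun c => ?_) ?_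
    · rw [RingHom.comp_apply, ev_C, toLY_b]
    · rw [RingHom.comp_apply, ev_T1, toLY_x]
  exact congrArg (fun g => g p) this

theorem ev_lpol : ev B f (lpol B f) = yv B f ^ 2 := by
  rw [rel12, lpol, pol_map]
  congr 1
  · funext i
    exact ev_C _
  · exact ev_T1

/-- The inverse of `toLY`. -/
noncomputable def ofLY (B : Type) [CommRing B] (f : Fin 7 → B) : LY B f →+* A12 B f :=
  AdjoinRoot.lift (ev B f) (yv B f) (by
    rw [eval₂_sub, eval₂_pow, eval₂_X, eval₂_C, ev_lpol, sub_self])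

theorem ofLY_toLY (v : A12 B f) : ofLY B f (toLY B f v) = v := by
  have : (ofLY B f).comp (toLY B f) = RingHom.id _ := by
    refine hom12_ext ?_ ?_ ?_
    · intro c
      rw [RingHom.comp_apply, toLY_b, ofLY, AdjoinRoot.lift_of, ev_C]
      rfl
    · rw [RingHom.comp_apply, toLY_x, ofLY, AdjoinRoot.lift_of, ev_T1]
      rfl
    · rw [RingHom.comp_apply, toLY_y, ofLY, AdjoinRoot.lift_root]
      rfl
  exact congrArg (fun g => g v) this

/-- `A₁₂ = B[x, 1/x] + B[x, 1/x] y`. -/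
theorem eq_ev (v : A12 B f) : v = ev B f (lco 0 v) + ev B f (lco 1 v) * yv B f := by
  have h := congrArg (ofLY B f) (toLY_eq v)
  rwa [ofLY_toLY, map_add, map_mul, ofLY, AdjoinRoot.lift_of, AdjoinRoot.lift_of,
    AdjoinRoot.lift_root] at h

theorem lco_ev (p q : LaurentPolynomial B) :
    lco 0 (ev B f p + ev B f q * yv B f) = p ∧ lco 1 (ev B f p + ev B f q * yv B f) = q :=
  lco_of (by rw [map_add, map_mul, toLY_ev, toLY_ev, toLY_y])

theorem lco_ext {v w : A12 B f} (h0 : lco 0 v = lco 0 w) (h1 : lco 1 v = lco 1 w) : v = w := by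
  rw [eq_ev v, eq_ev w, h0, h1]

/-- Functions with the same coefficients are equal. -/
theorem cf_ext {v w : A12 B f} (h0 : ∀ j, cg j v = cg j w) (h1 : ∀ j, cf j v = cf j w) : v = w :=
  lco_ext (LaurentPolynomial.ext h0) (LaurentPolynomial.ext h1)

theorem lco_ev_mul (i : Fin 2) (p : LaurentPolynomial B) (v : A12 B f) :
    lco (i : ℕ) (ev B f p * v) = p * lco (i : ℕ) v := by
  have h : ev B f p * v = ev B f (p * lco 0 v) + ev B f (p * lco 1 v) * yv B f := by
    conv_lhs => rw [eq_ev v]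
    rw [map_mul, map_mul]
    ring
  fin_cases i
  · rw [h]
    exact (lco_ev _ _).1
  · rw [h]
    exact (lco_ev _ _).2

theorem CT_coeff (m j : ℤ) (a : B) :
    (LaurentPolynomial.C a * LaurentPolynomial.T m).coeff j = if m = j then a else 0 := by
  rw [← LaurentPolynomial.single_eq_C_mul_T]
  exact Finsupp.single_apply

theorem T_mul_coeff (n j : ℤ) (p : LaurentPolynomial B) :
    (LaurentPolynomial.T n * p).coeff j = p.coeff (j - n) := by
  induction p using LaurentPolynomial.induction_on' with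
  | add p q hp hq =>
    rw [mul_add]
    change (LaurentPolynomial.T n * p).coeff j + (LaurentPolynomial.T n * q).coeff j =
      p.coeff (j - n) + q.coeff (j - n)
    rw [hp, hq]
  | C_mul_T m a =>
    have : (LaurentPolynomial.T n * (LaurentPolynomial.C a * LaurentPolynomial.T m) :
        LaurentPolynomial B) = LaurentPolynomial.C a * LaurentPolynomial.T (n + m) := by
      rw [LaurentPolynomial.T_add]
      ring
    rw [this, CT_coeff, CT_coeff]
    have : (n + m = j) ↔ (m = j - n) := by omega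
    simp only [this]

theorem C_mul_coeff (c : B) (j : ℤ) (p : LaurentPolynomial B) :
    (LaurentPolynomial.C c * p).coeff j = c * p.coeff j := by
  rw [← LaurentPolynomial.smul_eq_C_mul]
  rfl

/-! ## Formulas -/

theorem cf_zpow (n j : ℤ) (v : A12 B f) :
    cf j (((xu B f) ^ n : (A12 B f)ˣ).val * v) = cf (j - n) v := by
  change (lco 1 _).coeff j = (lco 1 v).coeff (j - n)
  have := lco_ev_mul 1 (LaurentPolynomial.T n) v
  rw [ev_T] at this
  rw [Fin.val_one] at this
  rw [this, T_mul_coeff]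

theorem cg_zpow (n j : ℤ) (v : A12 B f) :
    cg j (((xu B f) ^ n : (A12 B f)ˣ).val * v) = cg (j - n) v := by
  change (lco 0 _).coeff j = (lco 0 v).coeff (j - n)
  have := lco_ev_mul 0 (LaurentPolynomial.T n) v
  rw [ev_T] at this
  rw [Fin.val_zero] at this
  rw [this, T_mul_coeff]

theorem cf_x (j : ℤ) (v : A12 B f) : cf j (xx f * v) = cf (j - 1) v := by
  have := cf_zpow 1 j v
  rwa [zpow_one] at this

theorem cg_x (j : ℤ) (v : A12 B f) : cg j (xx f * v) = cg (j - 1) v := by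
  have := cg_zpow 1 j v
  rwa [zpow_one] at this

theorem cf_xi (j : ℤ) (v : A12 B f) : cf j (xi f * v) = cf (j + 1) v := by
  have := cf_zpow (-1) j v
  rwa [zpow_neg_one, sub_neg_eq_add] at this

theorem cg_xi (j : ℤ) (v : A12 B f) : cg j (xi f * v) = cg (j + 1) v := by
  have := cg_zpow (-1) j v
  rwa [zpow_neg_one, sub_neg_eq_add] at this

theorem cf_xpow (n : ℕ) (j : ℤ) (v : A12 B f) : cf j (xx f ^ n * v) = cf (j - n) v := by
  have := cf_zpow (n : ℤ) j v
  rwa [zpow_natCast, Units.val_pow_eq_pow_val] at this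

theorem cg_xpow (n : ℕ) (j : ℤ) (v : A12 B f) : cg j (xx f ^ n * v) = cg (j - n) v := by
  have := cg_zpow (n : ℤ) j v
  rwa [zpow_natCast, Units.val_pow_eq_pow_val] at this

theorem cf_xipow (n : ℕ) (j : ℤ) (v : A12 B f) : cf j (xi f ^ n * v) = cf (j + n) v := by
  have := cf_zpow (-(n : ℤ)) j v
  rwa [zpow_neg, zpow_natCast, ← inv_pow, Units.val_pow_eq_pow_val, sub_neg_eq_add] at this

theorem cg_xipow (n : ℕ) (j : ℤ) (v : A12 B f) : cg j (xi f ^ n * v) = cg (j + n) v := by
  have := cg_zpow (-(n : ℤ)) j v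
  rwa [zpow_neg, zpow_natCast, ← inv_pow, Units.val_pow_eq_pow_val, sub_neg_eq_add] at this

theorem cf_b (c : B) (j : ℤ) (v : A12 B f) : cf j (algebraMap B _ c * v) = c * cf j v := by
  rw [← Algebra.smul_def, map_smul, smul_eq_mul]

theorem cg_b (c : B) (j : ℤ) (v : A12 B f) : cg j (algebraMap B _ c * v) = c * cg j v := by
  rw [← Algebra.smul_def, map_smul, smul_eq_mul]

theorem cf_ev (p : LaurentPolynomial B) (j : ℤ) : cf j (ev B f p) = 0 := by
  have := (lco_ev (f := f) p 0).2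
  rw [map_zero, zero_mul, add_zero] at this
  change (lco 1 _).coeff j = 0
  rw [this]
  rfl

theorem cg_ev (p : LaurentPolynomial B) (j : ℤ) : cg j (ev B f p) = p.coeff j := by
  have := (lco_ev (f := f) p 0).1
  rw [map_zero, zero_mul, add_zero] at this
  change (lco 0 _).coeff j = _
  rw [this]

theorem cf_ev_y (p : LaurentPolynomial B) (j : ℤ) : cf j (ev B f p * yv B f) = p.coeff j := by
  have := (lco_ev (f := f) 0 p).2
  rw [map_zero, zero_add] at this
  change (lco 1 _).coeff j = _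
  rw [this]

theorem cg_ev_y (p : LaurentPolynomial B) (j : ℤ) : cg j (ev B f p * yv B f) = 0 := by
  have := (lco_ev (f := f) 0 p).1
  rw [map_zero, zero_add] at this
  change (lco 0 _).coeff j = 0
  rw [this]
  rfl

/-- Induction. -/
theorem A12_ind {P : A12 B f → Prop} (v : A12 B f) (hadd : ∀ v w, P v → P w → P (v + w))
    (hx : ∀ (c : B) (m : ℤ), P (algebraMap B _ c * ((xu B f) ^ m : (A12 B f)ˣ).val))
    (hy : ∀ (c : B) (m : ℤ), P (algebraMap B _ c * ((xu B f) ^ m : (A12 B f)ˣ).val * yv B f)) :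
    P v := by
  have h1 : ∀ p, P (ev B f p) := by
    intro p
    induction p using LaurentPolynomial.induction_on' with
    | add p q hp hq =>
      rw [map_add]
      exact hadd _ _ hp hq
    | C_mul_T m a =>
      rw [map_mul, ev_C, ev_T]
      exact hx a m
  have h2 : ∀ p, P (ev B f p * yv B f) := by
    intro p
    induction p using LaurentPolynomial.induction_on' with
    | add p q hp hq =>
      rw [map_add, add_mul]
      exact hadd _ _ hp hq
    | C_mul_T m a =>
      rw [map_mul, ev_C, ev_T]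
      exact hy a m
  rw [eq_ev v]
  exact hadd _ _ (h1 _) (h2 _)

theorem cf_mono (c : B) (m j : ℤ) :
    cf j (algebraMap B (A12 B f) c * ((xu B f) ^ m : (A12 B f)ˣ).val) = 0 := by
  have := cf_ev (f := f) (LaurentPolynomial.C c * LaurentPolynomial.T m) j
  rwa [map_mul, ev_C, ev_T] at this

theorem cg_mono (c : B) (m j : ℤ) :
    cg j (algebraMap B (A12 B f) c * ((xu B f) ^ m : (A12 B f)ˣ).val) = if m = j then c else 0 := by
  have := cg_ev (f := f) (LaurentPolynomial.C c * LaurentPolynomial.T m) j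
  rwa [map_mul, ev_C, ev_T, CT_coeff] at this

theorem cf_mono_y (c : B) (m j : ℤ) :
    cf j (algebraMap B (A12 B f) c * ((xu B f) ^ m : (A12 B f)ˣ).val * yv B f) =
      if m = j then c else 0 := by
  have := cf_ev_y (f := f) (LaurentPolynomial.C c * LaurentPolynomial.T m) j
  rwa [(ev B f).map_mul, ev_C, ev_T, CT_coeff] at this

theorem cg_mono_y (c : B) (m j : ℤ) :
    cg j (algebraMap B (A12 B f) c * ((xu B f) ^ m : (A12 B f)ˣ).val * yv B f) = 0 := by
  have := cg_ev_y (f := f) (LaurentPolynomial.C c * LaurentPolynomial.T m) j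
  rwa [(ev B f).map_mul, ev_C, ev_T] at this

/-- Only finitely many coefficients are not zero. -/
theorem cf_fin (v : A12 B f) : ∃ N : ℤ, 0 ≤ N ∧ ∀ j, N < |j| → cf j v = 0 ∧ cg j v = 0 := by
  refine A12_ind (P := fun v => ∃ N : ℤ, 0 ≤ N ∧ ∀ j, N < |j| → cf j v = 0 ∧ cg j v = 0) v
    ?_ ?_ ?_
  · rintro v w ⟨N, hN, hv⟩ ⟨M, hM, hw⟩
    refine ⟨max N M, le_max_of_le_left hN, fun j hj => ?_⟩
    have h1 := hv j (lt_of_le_of_lt (le_max_left _ _) hj)
    have h2 := hw j (lt_of_le_of_lt (le_max_right _ _) hj)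
    rw [map_add, map_add, h1.1, h1.2, h2.1, h2.2, add_zero]
    exact ⟨rfl, rfl⟩
  · intro c m
    refine ⟨|m|, abs_nonneg _, fun j hj => ⟨cf_mono _ _ _, ?_⟩⟩
    rw [cg_mono, if_neg]
    rintro rfl
    exact lt_irrefl _ hj
  · intro c m
    refine ⟨|m|, abs_nonneg _, fun j hj => ⟨?_, cg_mono_y _ _ _⟩⟩
    rw [cf_mono_y, if_neg]
    rintro rfl
    exact lt_irrefl _ hj

theorem toLaurent_coeff (p : B[X]) (j : ℤ) :
    (toLaurent p).coeff j = if 0 ≤ j then p.coeff j.toNat else 0 := by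
  induction p using Polynomial.induction_on' with
  | add p q hp hq =>
    rw [map_add]
    change (toLaurent p).coeff j + (toLaurent q).coeff j = _
    rw [hp, hq, coeff_add]
    split_ifs <;> simp
  | monomial n a =>
    rw [← C_mul_X_pow_eq_monomial, Polynomial.toLaurent_C_mul_X_pow, CT_coeff, coeff_C_mul_X_pow]
    by_cases h : 0 ≤ j
    · rw [if_pos h]
      have : ((n : ℤ) = j) ↔ (j.toNat = n) := by omega
      simp only [this]
    · rw [if_neg h, if_neg]
      omega

/-- Coefficients of polynomials in `x`. -/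
theorem cf_aeval_y (p : B[X]) (j : ℤ) :
    cf j (aeval (xx f) p * yv B f) = if 0 ≤ j then p.coeff j.toNat else 0 := by
  rw [← ev_toLaurent, cf_ev_y, toLaurent_coeff]

theorem cg_aeval (p : B[X]) (j : ℤ) :
    cg j (aeval (xx f) p) = if 0 ≤ j then p.coeff j.toNat else 0 := by
  rw [← ev_toLaurent, cg_ev, toLaurent_coeff]

theorem cf_aeval (p : B[X]) (j : ℤ) : cf j (aeval (xx f) p) = 0 := by
  rw [← ev_toLaurent, cf_ev]

theorem cg_aeval_y (p : B[X]) (j : ℤ) : cg j (aeval (xx f) p * yv B f) = 0 := by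
  rw [← ev_toLaurent, cg_ev_y]

theorem map_zpow_val {R R' : Type} [CommRing R] [CommRing R'] (g : R →+* R') (u : Rˣ) (u' : R'ˣ)
    (h : g (u : R) = (u' : R')) (m : ℤ) : g ((u ^ m : Rˣ) : R) = ((u' ^ m : R'ˣ) : R') := by
  have h1 : Units.map (g : R →* R') u = u' := by
    ext1
    exact h
  rw [← h1, ← map_zpow]
  rfl

/-- Base change. -/
theorem cf_bc12 {B' : Type} [CommRing B'] (φ : B →+* B') {f' : Fin 7 → B'}
    (hf : ∀ i, f' i = φ (f i)) (v : A12 B f) (j : ℤ) :
    cf j (bc12 φ hf v) = φ (cf j v) ∧ cg j (bc12 φ hf v) = φ (cg j v) := by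
  refine A12_ind (P := fun v => cf j (bc12 φ hf v) = φ (cf j v) ∧
    cg j (bc12 φ hf v) = φ (cg j v)) v ?_ ?_ ?_
  · rintro v w ⟨h1, h2⟩ ⟨h3, h4⟩
    simp only [map_add, h1, h2, h3, h4, and_self]
  · intro c m
    rw [map_mul, bc12_b, map_zpow_val (bc12 φ hf) _ _ (bc12_x φ hf), cf_mono, cg_mono, cf_mono,
      cg_mono]
    refine ⟨(map_zero φ).symm, ?_⟩
    split_ifs
    · rfl
    · exact (map_zero φ).symm
  · intro c m
    rw [(bc12 φ hf).map_mul, (bc12 φ hf).map_mul, bc12_b,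
      map_zpow_val (bc12 φ hf) _ _ (bc12_x φ hf), bc12_y, cf_mono_y,
      cg_mono_y, cf_mono_y, cg_mono_y]
    refine ⟨?_, (map_zero φ).symm⟩
    split_ifs
    · rfl
    · exact (map_zero φ).symm

/-- Inversion. -/
theorem cf_inv12 {f' : Fin 7 → B} (h : ∀ i, f' i = f (Fin.rev i)) (v : A12 B f) (j : ℤ) :
    cf j (inv12 h v) = cf (-3 - j) v ∧ cg j (inv12 h v) = cg (-j) v := by
  refine A12_ind (P := fun v => cf j (inv12 h v) = cf (-3 - j) v ∧
    cg j (inv12 h v) = cg (-j) v) v ?_ ?_ ?_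
  · rintro v w ⟨h1, h2⟩ ⟨h3, h4⟩
    simp only [map_add, h1, h2, h3, h4, and_self]
  · intro c m
    rw [map_mul, inv12_b, map_zpow_val (inv12 h) _ _ (inv12_x h), inv_zpow', cf_mono, cg_mono,
      cf_mono, cg_mono]
    refine ⟨rfl, ?_⟩
    have : (-m = j) ↔ (m = -j) := by omega
    simp only [this]
  · intro c m
    have e : inv12 h (algebraMap B (A12 B f) c * ((xu B f) ^ m : (A12 B f)ˣ).val * yv B f) =
        algebraMap B _ c * ((xu B f') ^ (-m - 3) : (A12 B f')ˣ).val * yv B f' := by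
      rw [map_mul, map_mul, inv12_b, map_zpow_val (inv12 h) _ _ (inv12_x h), inv_zpow', inv12_y,
        sub_eq_add_neg (-m), zpow_add, Units.val_mul, zpow_neg _ (3 : ℤ), inv_pow]
      have : (xu B f') ^ (3 : ℤ) = (xu B f') ^ 3 := by
        exact zpow_natCast _ 3
      rw [this]
      ring
    rw [e, cf_mono_y, cg_mono_y, cf_mono_y, cg_mono_y]
    refine ⟨?_, rfl⟩
    have : (-m - 3 = j) ↔ (m = -3 - j) := by omega
    simp only [this]

/-- Scaling. -/
theorem cf_sc12 {lam : Bˣ} {nu : B} {f' : Fin 7 → B} (h : IsSc (lam : B) nu f f') (v : A12 B f)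
    (j : ℤ) : cf j (sc12 h v) = ((lam ^ j : Bˣ) : B) * nu * cf j v ∧
      cg j (sc12 h v) = ((lam ^ j : Bˣ) : B) * cg j v := by
  refine A12_ind (P := fun v => cf j (sc12 h v) = ((lam ^ j : Bˣ) : B) * nu * cf j v ∧
    cg j (sc12 h v) = ((lam ^ j : Bˣ) : B) * cg j v) v ?_ ?_ ?_
  · rintro v w ⟨h1, h2⟩ ⟨h3, h4⟩
    simp only [map_add, h1, h2, h3, h4, mul_add, and_self]
  all_goals
    intro c m
    have e : sc12 h ((xu B f) ^ m : (A12 B f)ˣ).val =
        algebraMap B _ ((lam ^ m : Bˣ) : B) * ((xu B f') ^ m : (A12 B f')ˣ).val := by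
      rw [map_zpow_val (sc12 h) _ (Units.map (algebraMap B (A12 B f') : B →* A12 B f') lam *
        xu B f') (sc12_x h), mul_zpow, Units.val_mul, ← map_zpow]
      rfl
  · rw [map_mul, sc12_b, e, ← mul_assoc, ← map_mul, cf_mono, cg_mono, cf_mono, cg_mono]
    refine ⟨(mul_zero _).symm, ?_⟩
    split_ifs with hm
    · rw [hm, mul_comm]
    · exact (mul_zero _).symm
  · have e2 : sc12 h (algebraMap B (A12 B f) c * ((xu B f) ^ m : (A12 B f)ˣ).val * yv B f) =
        algebraMap B _ (c * ((lam ^ m : Bˣ) : B) * nu) * ((xu B f') ^ m : (A12 B f')ˣ).val *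
          yv B f' := by
      rw [map_mul, map_mul, sc12_b, e, sc12_y, (algebraMap B (A12 B f')).map_mul,
        (algebraMap B (A12 B f')).map_mul]
      ring
    rw [e2, cf_mono_y, cg_mono_y, cf_mono_y, cg_mono_y]
    refine ⟨?_, (mul_zero _).symm⟩
    split_ifs with hm
    · rw [hm]
      ring
    · exact (mul_zero _).symm

end

end Pool.Agent.MG.H2


end

section

/-!
# Functions on the charts of the curves `y² = f(x)`
-/

open Polynomial

namespace Pool.Agent.MG.H2

section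

variable {B : Type} [CommRing B] {f : Fin 7 → B}

theorem aeval_pp (p : Fin 7 → B) {R : Type} [CommRing R] [Algebra B R] (x : R) :
    aeval x (pp B p) = pol (fun i => algebraMap B R (p i)) x := by
  simp [pp, pol]

theorem pp_coeff (p : Fin 7 → B) (j : Fin 7) : (pp B p).coeff j = p j := by
  fin_cases j <;> simp [pp, pol, coeff_X, coeff_C]

/-- `A₁ = B[x] + B[x] y`. -/
theorem span1 (v : A1 B f) : ∃ p q : B[X], v = aeval (x1 B f) p + aeval (x1 B f) q * y1 B f := by
  obtain ⟨v, rfl⟩ := Ideal.Quotient.mk_surjective v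
  induction v using MvPolynomial.induction_on with
  | C c =>
    refine ⟨C c, 0, ?_⟩
    rw [aeval_C, map_zero, zero_mul, add_zero]
    rfl
  | add v w hv hw =>
    obtain ⟨p, q, hv⟩ := hv
    obtain ⟨p', q', hw⟩ := hw
    refine ⟨p + p', q + q', ?_⟩
    rw [map_add, hv, hw, map_add, map_add]
    ring
  | mul_X v i hv =>
    obtain ⟨p, q, hv⟩ := hv
    rw [map_mul, hv]
    fin_cases i
    · refine ⟨X * p, X * q, ?_⟩
      rw [map_mul, map_mul, aeval_X]
      change _ * x1 B f = _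
      ring
    · refine ⟨q * pp B f, p, ?_⟩
      rw [map_mul, aeval_pp]
      change _ * y1 B f = _
      have := rel1 B f
      linear_combination aeval (x1 B f) q * this

theorem g1_aeval (p : B[X]) : g1 B f (aeval (x1 B f) p) = aeval (xx f) p :=
  (aeval_algebraMap_apply (A12 B f) (x1 B f) p).symm

theorem g1_eq (p q : B[X]) : g1 B f (aeval (x1 B f) p + aeval (x1 B f) q * y1 B f) =
    aeval (xx f) p + aeval (xx f) q * yv B f := by
  rw [map_add, map_mul, g1_aeval, g1_aeval, g1_y]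

theorem cf_g1_eq (p q : B[X]) (j : ℤ) :
    cf j (g1 B f (aeval (x1 B f) p + aeval (x1 B f) q * y1 B f)) =
      if 0 ≤ j then q.coeff j.toNat else 0 := by
  rw [g1_eq, map_add, cf_aeval, zero_add, cf_aeval_y]

theorem cg_g1_eq (p q : B[X]) (j : ℤ) :
    cg j (g1 B f (aeval (x1 B f) p + aeval (x1 B f) q * y1 B f)) =
      if 0 ≤ j then p.coeff j.toNat else 0 := by
  rw [g1_eq, map_add, cg_aeval_y, add_zero, cg_aeval]

theorem cf_g1 {j : ℤ} (hj : j < 0) (v : A1 B f) : cf j (g1 B f v) = 0 := by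
  obtain ⟨p, q, rfl⟩ := span1 v
  rw [cf_g1_eq, if_neg (by omega)]

theorem cg_g1 {j : ℤ} (hj : j < 0) (v : A1 B f) : cg j (g1 B f v) = 0 := by
  obtain ⟨p, q, rfl⟩ := span1 v
  rw [cg_g1_eq, if_neg (by omega)]

theorem g1_inj (B : Type) [CommRing B] (f : Fin 7 → B) : Function.Injective (g1 B f) := by
  rw [injective_iff_map_eq_zero]
  intro v hv
  obtain ⟨p, q, rfl⟩ := span1 v
  have hp : p = 0 := by
    ext n
    have := cg_g1_eq (f := f) p q (n : ℤ)
    rw [hv, map_zero, if_pos (by omega), Int.toNat_natCast] at this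
    rw [← this, coeff_zero]
  have hq : q = 0 := by
    ext n
    have := cf_g1_eq (f := f) p q (n : ℤ)
    rw [hv, map_zero, if_pos (by omega), Int.toNat_natCast] at this
    rw [← this, coeff_zero]
  rw [hp, hq, map_zero, zero_mul, add_zero]

theorem g2_eq_inv (v : A2 B f) : g2 B f v = inv12 (rev_h f) (g1 B (rev f) v) := rfl

theorem cf_g2 {j : ℤ} (hj : -2 ≤ j) (v : A2 B f) : cf j (g2 B f v) = 0 := by
  rw [g2_eq_inv, (cf_inv12 _ _ _).1, cf_g1 (by omega)]

theorem cg_g2 {j : ℤ} (hj : 0 < j) (v : A2 B f) : cg j (g2 B f v) = 0 := by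
  rw [g2_eq_inv, (cf_inv12 _ _ _).2, cg_g1 (by omega)]

theorem g2_inj (B : Type) [CommRing B] (f : Fin 7 → B) : Function.Injective (g2 B f) := by
  intro v w h
  apply g1_inj
  have h1 := congrArg (inv12 (rev_h' f)) h
  have h2 : ∀ u : A2 B f, inv12 (rev_h' f) (g2 B f u) = g1 B (rev f) u := fun u =>
    congrArg (fun g => g (g1 B (rev f) u)) (inv12_inv12 (rev_h f) (rev_h' f))
  rwa [h2, h2] at h1

/-- The functions on both charts are the constants. -/
theorem g12_const {a : A1 B f} {b : A2 B f} (h : g1 B f a = g2 B f b) :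
    ∃ c : B, a = algebraMap B _ c ∧ b = algebraMap B _ c := by
  have key : g1 B f a = algebraMap B _ (cg 0 (g1 B f a)) := by
    have e : algebraMap B (A12 B f) (cg 0 (g1 B f a)) = algebraMap B (A12 B f) (cg 0 (g1 B f a)) *
        ((xu B f) ^ (0 : ℤ) : (A12 B f)ˣ).val := by rw [zpow_zero, Units.val_one, mul_one]
    refine cf_ext (fun j => ?_) fun j => ?_
    · rw [e, cg_mono]
      split_ifs with h0
      · rw [← h0]
      · rcases lt_or_gt_of_ne (Ne.symm h0) with h1 | h1
        · exact cg_g1 h1 a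
        · rw [h]
          exact cg_g2 h1 b
    · rw [e, cf_mono]
      rcases lt_or_ge j 0 with h1 | h1
      · exact cf_g1 h1 a
      · rw [h]
        exact cf_g2 (by omega) b
  refine ⟨cg 0 (g1 B f a), g1_inj B f ?_, g2_inj B f ?_⟩
  · rw [g1_b, ← key]
  · rw [g2_b, ← key, h]

theorem xu_zpow_nat (n : ℕ) : ((xu B f) ^ (n : ℤ) : (A12 B f)ˣ).val = g1 B f (x1 B f ^ n) := by
  rw [zpow_natCast, Units.val_pow_eq_pow_val, xu_val, map_pow]

theorem xu_zpow_neg (n : ℕ) :
    ((xu B f) ^ (-(n : ℤ)) : (A12 B f)ˣ).val = g2 B f (x1 B (rev f) ^ n) := by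
  rw [zpow_neg, zpow_natCast, ← inv_pow, Units.val_pow_eq_pow_val, map_pow, g2_u]

theorem g1_bx (c : B) (w : A1 B f) : g1 B f (algebraMap B _ c * w) =
    algebraMap B (A12 B f) c * g1 B f w := by rw [map_mul, g1_b]

theorem g2_bx (c : B) (w : A2 B f) : g2 B f (algebraMap B _ c * w) =
    algebraMap B (A12 B f) c * g2 B f w := by rw [map_mul, g2_b]

/-- The decomposition of a function on the intersection of the charts. -/
theorem decomp (v : A12 B f) : ∃ (a : A1 B f) (b : A2 B f), v = g1 B f a + g2 B f b +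
    algebraMap B _ (cf (-1) v) * (xi f * yv B f) + algebraMap B _ (cf (-2) v) *
      (xi f ^ 2 * yv B f) := by
  refine A12_ind (P := fun v => ∃ (a : A1 B f) (b : A2 B f), v = g1 B f a + g2 B f b +
    algebraMap B _ (cf (-1) v) * (xi f * yv B f) + algebraMap B _ (cf (-2) v) *
      (xi f ^ 2 * yv B f)) v ?_ ?_ ?_
  · rintro v w ⟨a, b, hv⟩ ⟨a', b', hw⟩
    refine ⟨a + a', b + b', ?_⟩
    simp only [map_add]
    conv_lhs => rw [hv, hw]
    ring
  · intro c m
    rw [cf_mono, cf_mono]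
    simp only [map_zero, zero_mul, add_zero]
    rcases le_or_gt 0 m with h | h
    · obtain ⟨n, rfl⟩ := Int.eq_ofNat_of_zero_le h
      refine ⟨algebraMap B _ c * x1 B f ^ n, 0, ?_⟩
      rw [g1_bx, ← xu_zpow_nat, map_zero, add_zero]
    · obtain ⟨n, hn⟩ := Int.eq_ofNat_of_zero_le (show 0 ≤ -m by omega)
      obtain rfl : m = -(n : ℤ) := by omega
      refine ⟨0, algebraMap B _ c * x1 B (rev f) ^ n, ?_⟩
      rw [g2_bx, ← xu_zpow_neg, map_zero, zero_add]
  · intro c m
    rw [cf_mono_y, cf_mono_y]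
    rcases le_or_gt 0 m with h | h
    · obtain ⟨n, rfl⟩ := Int.eq_ofNat_of_zero_le h
      refine ⟨algebraMap B _ c * (x1 B f ^ n * y1 B f), 0, ?_⟩
      rw [if_neg (by omega), if_neg (by omega), g1_bx, map_mul, ← xu_zpow_nat, g1_y]
      simp only [map_zero, zero_mul, add_zero, mul_assoc]
    · rcases lt_or_ge m (-2) with h1 | h1
      · obtain ⟨n, hn⟩ := Int.eq_ofNat_of_zero_le (show 0 ≤ -m - 3 by omega)
        obtain rfl : m = -(n : ℤ) + -((3 : ℕ) : ℤ) := by omega
        refine ⟨0, algebraMap B _ c * (x1 B (rev f) ^ n * y1 B (rev f)), ?_⟩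
        rw [if_neg (by omega), if_neg (by omega), g2_bx, map_mul, ← xu_zpow_neg, g2_v, zpow_add,
          Units.val_mul, zpow_neg _ ((3 : ℕ) : ℤ), zpow_natCast, inv_pow]
        simp only [map_zero, zero_mul, add_zero, zero_add]
        ring
      · have h2 : m = -1 ∨ m = -2 := by omega
        rcases h2 with rfl | rfl
        · refine ⟨0, 0, ?_⟩
          rw [if_pos rfl, if_neg (by norm_num), zpow_neg_one, mul_assoc]
          simp only [map_zero, zero_mul, add_zero, zero_add]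
        · refine ⟨0, 0, ?_⟩
          have : ((xu B f) ^ (-2 : ℤ) : (A12 B f)ˣ) = ((xu B f)⁻¹) ^ 2 := by
            rw [zpow_neg, inv_pow]
            rfl
          rw [if_neg (by norm_num), if_pos rfl, this, Units.val_pow_eq_pow_val, mul_assoc]
          simp only [map_zero, zero_mul, zero_add]

end

end Pool.Agent.MG.H2


end

section

/-!
# YHG: the curves `y² = f(x)` have genus two
-/

open CategoryTheory CategoryTheory.Limits AlgebraicGeometry TensorProduct

namespace Pool.Agent.MG.H2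

namespace YHG

variable {K : Type} [Field K] (f : Fin 7 → K)

theorem cf1 (c c' : K) : cf (-1) (algebraMap K (A12 K f) c * (xi f * yv K f) +
    algebraMap K (A12 K f) c' * (xi f ^ 2 * yv K f)) = c := by
  have h1 := cf_xi (f := f) (-1) (yv K f)
  have h2 := cf_xipow (f := f) 2 (-1) (yv K f)
  have h3 : ∀ j : ℤ, cf j (yv K f) = if j = 0 then 1 else 0 := by
    intro j
    have h4 := cf_mono_y (f := f) 1 0 j
    rw [map_one, one_mul, zpow_zero, Units.val_one, one_mul] at h4
    rw [h4]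
    simp only [eq_comm]
  rw [map_add, cf_b, cf_b, h1, h2, h3, h3]
  simp

theorem cf2 (c c' : K) : cf (-2) (algebraMap K (A12 K f) c * (xi f * yv K f) +
    algebraMap K (A12 K f) c' * (xi f ^ 2 * yv K f)) = c' := by
  have h1 := cf_xi (f := f) (-2) (yv K f)
  have h2 := cf_xipow (f := f) 2 (-2) (yv K f)
  have h3 : ∀ j : ℤ, cf j (yv K f) = if j = 0 then 1 else 0 := by
    intro j
    have h4 := cf_mono_y (f := f) 1 0 j
    rw [map_one, one_mul, zpow_zero, Units.val_one, one_mul] at h4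
    rw [h4]
    simp only [eq_comm]
  rw [map_add, cf_b, cf_b, h1, h2, h3, h3]
  simp

/-- The first cohomology of the curve. -/
theorem exists_L : ∃ L : A12 K f →+ (Fin 2 → K), Function.Surjective L ∧
    (∀ c t, L (algebraMap K (A12 K f) c * t) = c • L t) ∧
    ∀ t, L t = 0 ↔ ∃ p q, t = g1 K f p + g2 K f q := by
  obtain ⟨L, hL⟩ : ∃ L : A12 K f →+ (Fin 2 → K), ∀ t, L t = ![cf (-1) t, cf (-2) t] := by
    refine ⟨AddMonoidHom.mk' (fun t => ![cf (-1) t, cf (-2) t]) ?_, fun _ => rfl⟩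
    intro s t
    funext i
    fin_cases i
    · exact map_add (cf (-1)) s t
    · exact map_add (cf (-2)) s t
  have h0 : ∀ t, L t 0 = cf (-1) t := fun t => by rw [hL]; rfl
  have h1 : ∀ t, L t 1 = cf (-2) t := fun t => by rw [hL]; rfl
  refine ⟨L, ?_, ?_, ?_⟩
  · intro v
    refine ⟨algebraMap K (A12 K f) (v 0) * (xi f * yv K f) +
      algebraMap K (A12 K f) (v 1) * (xi f ^ 2 * yv K f), ?_⟩
    funext i
    fin_cases i
    · exact (h0 _).trans (cf1 f _ _)
    · exact (h1 _).trans (cf2 f _ _)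
  · intro c t
    funext i
    fin_cases i
    · exact (h0 _).trans ((cf_b _ _ _).trans (congrArg (fun a => c * a) (h0 t).symm))
    · exact (h1 _).trans ((cf_b _ _ _).trans (congrArg (fun a => c * a) (h1 t).symm))
  · intro t
    constructor
    · intro h
      have e0 : cf (-1) t = 0 := (h0 t).symm.trans (congrFun h 0)
      have e1 : cf (-2) t = 0 := (h1 t).symm.trans (congrFun h 1)
      obtain ⟨a, b, hab⟩ := decomp t
      refine ⟨a, b, ?_⟩
      rw [e0, e1, map_zero, zero_mul, zero_mul, add_zero, add_zero] at hab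
      exact hab
    · rintro ⟨p, q, rfl⟩
      funext i
      fin_cases i
      · refine (h0 _).trans ?_
        rw [map_add, cf_g1 (by norm_num), cf_g2 (by norm_num), add_zero]
        rfl
      · refine (h1 _).trans ?_
        rw [map_add, cf_g1 (by norm_num), cf_g2 (by norm_num), add_zero]
        rfl

end YHG

/-- YHG: the genus. -/
theorem t_YHG : Stmt_YHG := by
  intro K _ f
  obtain ⟨L, h1, h2, h3⟩ := YHG.exists_L f
  have hM : spMap (g1 K f) ≫ HX.in1 K f = spMap (g2 K f) ≫ HX.in2 K f := pushout.condition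
  refine W.WGN.genus_two (HX.pr K f) (HX.in1 K f) (HX.in2 K f) (g1 K f) (g2 K f) hM
    inferInstance ?_ ?_ (algebraMap K (A12 K f)) ?_ 2 L h1 h2 h3
  · intro x y h
    obtain ⟨w, hw, -⟩ := glue2_eq (spMap (g1 K f)) (spMap (g2 K f)) x y h
    refine ⟨w, ?_⟩
    rw [Scheme.Hom.comp_apply, hw]
  · intro x
    exact glue2_surj (spMap (g1 K f)) (spMap (g2 K f)) x
  · rw [Category.assoc, HX.in1_pr, spMap_comp']
    exact congrArg (fun f => spMap f) (RingHom.ext fun c => g1_b K f c)

end Pool.Agent.MG.H2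


end

section

/-!
# BGA: gap sections
-/

open Polynomial

namespace Pool.Agent.MG.G0

namespace BGA

section

variable {A B : Type} [CommRing A] [CommRing B]

theorem uniq {Γ : Finset ℕ} {R : Subalgebra A (LaurentSeries A)} (h : GS Γ R)
    {p q : LaurentSeries A} (hp : p ∈ R) (hq : q ∈ R)
    (e : ∀ n : ℕ, n ∉ Γ → p.coeff (-(n : ℤ)) = q.coeff (-(n : ℤ))) : p = q := by
  refine (h.2 p).unique ⟨hp, fun n _ => ?_⟩ ⟨hq, fun n hn => ?_⟩
  · rw [sub_self, HahnSeries.coeff_zero]
  · rw [HahnSeries.coeff_sub, e n hn, sub_self]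

/-- The element of `R` with the same coefficients at the nongaps. -/
noncomputable def prj {Γ : Finset ℕ} {R : Subalgebra A (LaurentSeries A)} (h : GS Γ R) :
    LaurentSeries A →ₗ[A] LaurentSeries A where
  toFun f := (h.2 f).choose
  map_add' f g := by
    refine uniq h (h.2 (f + g)).choose_spec.1.1
      (add_mem (h.2 f).choose_spec.1.1 (h.2 g).choose_spec.1.1) fun n hn => ?_
    have h1 := (h.2 (f + g)).choose_spec.1.2 n hn
    have h2 := (h.2 f).choose_spec.1.2 n hn
    have h3 := (h.2 g).choose_spec.1.2 n hn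
    rw [HahnSeries.coeff_sub, sub_eq_zero] at h1 h2 h3
    rw [← h1, HahnSeries.coeff_add, HahnSeries.coeff_add, ← h2, ← h3]
  map_smul' a f := by
    refine uniq h (h.2 (a • f)).choose_spec.1.1
      (Subalgebra.smul_mem _ (h.2 f).choose_spec.1.1 a) fun n hn => ?_
    have h1 := (h.2 (a • f)).choose_spec.1.2 n hn
    have h2 := (h.2 f).choose_spec.1.2 n hn
    rw [HahnSeries.coeff_sub, sub_eq_zero] at h1 h2
    rw [← h1, RingHom.id_apply, HahnSeries.coeff_smul, HahnSeries.coeff_smul, ← h2]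

theorem prj_mem {Γ : Finset ℕ} {R : Subalgebra A (LaurentSeries A)} (h : GS Γ R)
    (f : LaurentSeries A) : prj h f ∈ R := (h.2 f).choose_spec.1.1

theorem prj_coeff {Γ : Finset ℕ} {R : Subalgebra A (LaurentSeries A)} (h : GS Γ R)
    (f : LaurentSeries A) {n : ℕ} (hn : n ∉ Γ) :
    (prj h f).coeff (-(n : ℤ)) = f.coeff (-(n : ℤ)) := by
  have h1 := (h.2 f).choose_spec.1.2 n hn
  rw [HahnSeries.coeff_sub, sub_eq_zero] at h1
  exact h1.symm

theorem prj_eq {Γ : Finset ℕ} {R : Subalgebra A (LaurentSeries A)} (h : GS Γ R)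
    {f p : LaurentSeries A} (hp : p ∈ R)
    (e : ∀ n : ℕ, n ∉ Γ → f.coeff (-(n : ℤ)) = p.coeff (-(n : ℤ))) : prj h f = p :=
  uniq h (prj_mem h f) hp fun n hn => (prj_coeff h f hn).trans (e n hn)

theorem kr {Γ : Finset ℕ} {R : Subalgebra A (LaurentSeries A)} (h : GS Γ R) :
    Kr Γ.card R := by
  classical
  rw [Kr_iff]
  refine ⟨fun f hf hf0 => ⟨f.coeff 0, ?_⟩, ?_⟩
  · refine uniq h hf (algebraMap_mem R _) fun n _ => ?_
    rw [coeff_algebraMap]
    rcases Nat.eq_zero_or_pos n with rfl | hn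
    · simp
    · rw [if_neg (by omega)]
      exact hf0 _ (by omega)
  · let e : Γ ≃ Fin Γ.card := Γ.equivFin
    let L : LaurentSeries A →ₗ[A] (Fin Γ.card → A) :=
      { toFun := fun f i => (f - prj h f).coeff (-(((e.symm i : Γ) : ℕ) : ℤ))
        map_add' := fun f g => by
          funext i
          simp only [map_add, Pi.add_apply, HahnSeries.coeff_sub, HahnSeries.coeff_add]
          ring
        map_smul' := fun a f => by
          funext i
          simp only [map_smul, Pi.smul_apply, HahnSeries.coeff_sub, HahnSeries.coeff_smul,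
            RingHom.id_apply, smul_eq_mul]
          ring }
    refine ⟨L, fun c => ?_, fun f => ?_⟩
    · refine ⟨∑ i, HahnSeries.single (-(((e.symm i : Γ) : ℕ) : ℤ)) (c i), ?_⟩
      have h0 : prj h (∑ i, HahnSeries.single (-(((e.symm i : Γ) : ℕ) : ℤ)) (c i)) = 0 := by
        refine prj_eq h (zero_mem R) fun n hn => ?_
        rw [HahnSeries.coeff_sum, HahnSeries.coeff_zero]
        refine Finset.sum_eq_zero fun i _ => ?_
        rw [HahnSeries.coeff_single, if_neg]
        intro h1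
        have h2 : n = ((e.symm i : Γ) : ℕ) := by omega
        exact hn (h2 ▸ (e.symm i).2)
      funext j
      change (_ - prj h _).coeff _ = _
      rw [h0, sub_zero, HahnSeries.coeff_sum, Finset.sum_eq_single j]
      · rw [HahnSeries.coeff_single, if_pos rfl]
      · intro i _ hi
        rw [HahnSeries.coeff_single, if_neg]
        intro h1
        apply hi
        have h2 : ((e.symm i : Γ) : ℕ) = ((e.symm j : Γ) : ℕ) := by omega
        exact e.symm.injective (Subtype.ext h2)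
      · intro hj
        exact absurd (Finset.mem_univ j) hj
    · constructor
      · intro hL
        refine ⟨prj h f, prj_mem h f, fun m hm => ?_⟩
        obtain ⟨n, rfl⟩ : ∃ n : ℕ, m = -(n : ℤ) := ⟨m.natAbs, by omega⟩
        by_cases hn : n ∈ Γ
        · have h1 := congrFun hL (e ⟨n, hn⟩)
          change (f - prj h f).coeff (-(((e.symm (e ⟨n, hn⟩) : Γ) : ℕ) : ℤ)) = 0 at h1
          rw [Equiv.symm_apply_apply] at h1
          exact h1
        · rw [HahnSeries.coeff_sub, prj_coeff h f hn, sub_self]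
      · rintro ⟨p, hp, hfp⟩
        have h1 : prj h f = p + algebraMap A (LaurentSeries A) ((f - p).coeff 0) := by
          refine prj_eq h (add_mem hp (algebraMap_mem R _)) fun n _ => ?_
          rw [HahnSeries.coeff_add, coeff_algebraMap]
          rcases Nat.eq_zero_or_pos n with rfl | hn
          · simp
          · have h2 := hfp (-(n : ℤ)) (by omega)
            rw [HahnSeries.coeff_sub, sub_eq_zero] at h2
            rw [if_neg (by omega), add_zero, h2]
        funext i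
        change (f - prj h f).coeff _ = 0
        have h3 : ((e.symm i : Γ) : ℕ) ≠ 0 := fun h4 => h.1 (h4 ▸ (e.symm i).2)
        have h5 := hfp (-(((e.symm i : Γ) : ℕ) : ℤ)) (by omega)
        rw [h1, ← sub_sub, HahnSeries.coeff_sub, h5, coeff_algebraMap, if_neg (by omega),
          sub_zero]

theorem sum_coeff {Γ : Finset ℕ} {R : Subalgebra A (LaurentSeries A)} {H : ℕ → LaurentSeries A}
    (hH : ∀ n, n ∉ Γ → IsEch Γ R n (H n)) (N : ℕ) (c : ℕ → A) {m : ℕ} (hm : m ∉ Γ) :
    (∑ n ∈ Finset.range N \ Γ, c n • H n).coeff (-(m : ℤ)) = if m < N then c m else 0 := by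
  rw [HahnSeries.coeff_sum]
  have h1 : ∀ n ∈ Finset.range N \ Γ, (c n • H n).coeff (-(m : ℤ)) =
      if m = n then c n else 0 := fun n hn => by
    rw [HahnSeries.coeff_smul, (hH n (Finset.mem_sdiff.mp hn).2).co m hm, smul_eq_mul]
    split_ifs <;> simp
  rw [Finset.sum_congr rfl h1, Finset.sum_ite_eq]
  simp [hm]

/-- The echelon expansion. -/
theorem expand {Γ : Finset ℕ} {R : Subalgebra A (LaurentSeries A)} (h : GS Γ R)
    {H : ℕ → LaurentSeries A} (hH : ∀ n, n ∉ Γ → IsEch Γ R n (H n)) {x : LaurentSeries A}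
    (hx : x ∈ R) : ∃ N : ℕ, x = ∑ n ∈ Finset.range N \ Γ, x.coeff (-(n : ℤ)) • H n := by
  obtain ⟨N, hN⟩ := exists_low x
  refine ⟨N + 1, uniq h hx (sum_mem fun n hn => Subalgebra.smul_mem _
    (hH n (Finset.mem_sdiff.mp hn).2).mem _) fun m hm => ?_⟩
  rw [sum_coeff hH (N + 1) (fun n => x.coeff (-(n : ℤ))) hm]
  split_ifs with h1
  · rfl
  · exact hN _ (by omega)

theorem bc1_span (φ : A →+* B) (R : Subalgebra A (LaurentSeries A)) :
    Subalgebra.toSubmodule (bc1 φ R) =
      Submodule.span B (lmap φ '' (R : Set (LaurentSeries A))) := by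
  rw [bc1, Algebra.adjoin_eq_span]
  have h : (Submonoid.closure (lmap φ '' (R : Set (LaurentSeries A))) :
      Set (LaurentSeries B)) = lmap φ '' (R : Set (LaurentSeries A)) := by
    have h1 : lmap φ '' (R : Set (LaurentSeries A)) = ((Submonoid.map
        (lmap φ : LaurentSeries A →+* LaurentSeries B)
        (Subalgebra.toSubsemiring R).toSubmonoid : Submonoid (LaurentSeries B)) :
        Set (LaurentSeries B)) := rfl
    rw [h1, Submonoid.closure_eq]
  rw [h]

theorem ech_map (φ : A →+* B) {Γ : Finset ℕ} {R : Subalgebra A (LaurentSeries A)} {n : ℕ}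
    {h : LaurentSeries A} (hh : IsEch Γ R n h) : IsEch Γ (bc1 φ R) n (lmap φ h) := by
  refine ⟨Algebra.subset_adjoin ⟨h, hh.mem, rfl⟩, fun m hm => ?_⟩
  rw [lmap_coeff, hh.co m hm]
  split_ifs <;> simp

theorem bc_gs (φ : A →+* B) {Γ : Finset ℕ} {R : Subalgebra A (LaurentSeries A)}
    (h : GS Γ R) : GS Γ (bc1 φ R) := by
  classical
  choose H hH _ using fun n => h.ech n
  have hH' : ∀ n, n ∉ Γ → IsEch Γ (bc1 φ R) n (lmap φ (H n)) := fun n _ => ech_map φ (hH n)
  have hsp : ∀ x ∈ bc1 φ R, x ∈ Submodule.span B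
      (Set.range fun n : {n : ℕ // n ∉ Γ} => lmap φ (H n)) := by
    intro x hx
    have h1 : x ∈ Subalgebra.toSubmodule (bc1 φ R) := hx
    rw [bc1_span] at h1
    refine Submodule.span_le.mpr ?_ h1
    rintro _ ⟨y, hy, rfl⟩
    obtain ⟨N, hN⟩ := expand h (fun n _ => hH n) hy
    rw [hN, map_sum]
    refine sum_mem fun n hn => ?_
    rw [lmap_smul]
    exact Submodule.smul_mem _ _ (Submodule.subset_span
      ⟨⟨n, (Finset.mem_sdiff.mp hn).2⟩, rfl⟩)
  have h0 : ∀ x ∈ bc1 φ R, (∀ n : ℕ, n ∉ Γ → x.coeff (-(n : ℤ)) = 0) → x = 0 := by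
    intro x hx hx0
    obtain ⟨c, hc⟩ := Finsupp.mem_span_range_iff_exists_finsupp.mp (hsp x hx)
    have h1 : c = 0 := by
      ext ⟨m, hm⟩
      have h2 := hx0 m hm
      rw [← hc, Finsupp.sum, HahnSeries.coeff_sum, Finset.sum_eq_single ⟨m, hm⟩] at h2
      · rw [HahnSeries.coeff_smul, (hH' m hm).co m hm, if_pos rfl, smul_eq_mul, mul_one] at h2
        exact h2
      · intro n _ hn
        rw [HahnSeries.coeff_smul, (hH' n n.2).co m hm, if_neg, smul_zero]
        intro h3
        exact hn (Subtype.ext h3.symm)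
      · intro h3
        rw [Finsupp.notMem_support_iff.mp h3, zero_smul, HahnSeries.coeff_zero]
    rw [← hc, h1, Finsupp.sum_zero_index]
  refine ⟨h.1, fun f => ?_⟩
  obtain ⟨N, hN⟩ := exists_low f
  refine ⟨∑ n ∈ Finset.range (N + 1) \ Γ, f.coeff (-(n : ℤ)) • lmap φ (H n),
    ⟨sum_mem fun n hn => Subalgebra.smul_mem _ (hH' n (Finset.mem_sdiff.mp hn).2).mem _,
      fun m hm => ?_⟩, fun q hq => ?_⟩
  · rw [HahnSeries.coeff_sub, sum_coeff hH' (N + 1) (fun n => f.coeff (-(n : ℤ))) hm]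
    split_ifs with h1
    · exact sub_self _
    · rw [sub_zero]
      exact hN _ (by omega)
  · rw [← sub_eq_zero]
    refine h0 _ (sub_mem hq.1 (sum_mem fun n hn => Subalgebra.smul_mem _
      (hH' n (Finset.mem_sdiff.mp hn).2).mem _)) fun m hm => ?_
    have h2 := hq.2 m hm
    rw [HahnSeries.coeff_sub, sub_eq_zero] at h2
    rw [HahnSeries.coeff_sub, sum_coeff hH' (N + 1) (fun n => f.coeff (-(n : ℤ))) hm, ← h2]
    split_ifs with h1
    · exact sub_self _
    · rw [sub_zero]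
      exact hN _ (by omega)

end

end BGA

theorem t_BGA : Stmt_BGA := by
  refine ⟨?_, ?_⟩
  · intro A _ Γ R h
    refine ⟨BGA.kr h, fun x => ⟨fun hx => ?_, ?_⟩⟩
    · choose H hH _ using fun n => h.ech n
      obtain ⟨N, hN⟩ := BGA.expand h (fun n _ => hH n) hx
      exact ⟨N, fun n => x.coeff (-(n : ℤ)), H, fun n _ => hH n, hN⟩
    · rintro ⟨N, c, H, hH, rfl⟩
      exact sum_mem fun n hn => Subalgebra.smul_mem _
        (hH n (Finset.mem_sdiff.mp hn).2).mem _
  · intro A B _ _ φ Γ R h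
    exact ⟨BGA.bc_gs φ h, fun n x hx => BGA.ech_map φ hx⟩

end Pool.Agent.MG.G0


end
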