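import Mathlib

/-! Parts: MG.GENK, MG.TwoSmA, MG.TwoSmB, MG.ALG, MG.UNI -/

section

/-!
# A large algebraically closed field with many derivations
-/

open TensorProduct

namespace Pool.Agent.MG

/-- There is an algebraically closed field with algebraically independent elements `v i` and a
derivation with any prescribed values on them. -/
theorem exists_field (N : ℕ) : ∃ (K : Type) (_ : Field K) (_ : IsAlgClosed K) (_ : Algebra ℂ K)
    (v : Fin N → K), AlgebraicIndependent ℂ v ∧
      ∀ u : Fin N → K, ∃ D : Derivation ℂ K K, ∀ i, D (v i) = u i := by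
  let R := MvPolynomial (Fin N) ℂ
  let L := FractionRing R
  let K := AlgebraicClosure L
  let v : Fin N → K := fun i => algebraMap R K (MvPolynomial.X i)
  have h1 : Algebra.FormallyEtale R L := Algebra.FormallyEtale.of_isLocalization (nonZeroDivisors R)
  have h2 : Algebra.FormallyEtale L K := Algebra.FormallyEtale.of_isSeparable L K
  have h3 : Algebra.FormallyEtale R K := Algebra.FormallyEtale.comp R L K
  have hinj : Function.Injective (algebraMap R K) := by
    rw [IsScalarTower.algebraMap_eq R L K]
    exact (algebraMap L K).injective.comp (IsFractionRing.injective R L)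
  refine ⟨K, inferInstance, inferInstance, inferInstance, v, ?_, fun u => ?_⟩
  · have e : MvPolynomial.aeval v = (IsScalarTower.toAlgHom ℂ R K) := by
      refine MvPolynomial.algHom_ext fun i => ?_
      rw [MvPolynomial.aeval_X]
      rfl
    rw [AlgebraicIndependent, e]
    exact hinj
  · let d0 : Derivation ℂ R K := MvPolynomial.mkDerivation ℂ u
    let e := KaehlerDifferential.tensorKaehlerEquivOfFormallyEtale ℂ R K
    let m : K ⊗[R] Ω[R⁄ℂ] →ₗ[K] K := d0.liftKaehlerDifferential.liftBaseChange K
    let D : Derivation ℂ K K := (m.comp e.symm.toLinearMap).compDer (KaehlerDifferential.D ℂ K)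
    refine ⟨D, fun i => ?_⟩
    have h4 : e.symm (KaehlerDifferential.D ℂ K (algebraMap R K (MvPolynomial.X i))) =
        1 ⊗ₜ KaehlerDifferential.D ℂ R (MvPolynomial.X i) :=
      KaehlerDifferential.tensorKaehlerEquivOfFormallyEtale_symm_D_algebraMap ℂ R K _
    change m (e.symm (KaehlerDifferential.D ℂ K (algebraMap R K (MvPolynomial.X i)))) = u i
    rw [h4]
    change (d0.liftKaehlerDifferential.liftBaseChange K) (1 ⊗ₜ _) = u i
    rw [LinearMap.liftBaseChange_tmul, one_smul, Derivation.liftKaehlerDifferential_comp_D]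
    exact MvPolynomial.mkDerivation_X _ _ _

end Pool.Agent.MG


end

section

universe u

namespace Pool.Agent.MG.Two

open Polynomial KaehlerDifferential TensorProduct

section
variable {k A : Type u} [Field k] [CommRing A] [Algebra k A]

lemma etale_of_basis [Algebra.FinitePresentation k A] [Subsingleton (Algebra.H1Cotangent k A)]
    (t : A) (b : Module.Basis Unit A (Ω[A⁄k])) (hb : b () = D k A t) :
    (aeval t : k[X] →ₐ[k] A).toRingHom.Etale := by
  let _ : Algebra k[X] A := (aeval t : k[X] →ₐ[k] A).toRingHom.toAlgebra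
  have hst : IsScalarTower k k[X] A := IsScalarTower.of_algebraMap_eq' (by
    ext a
    change algebraMap k A a = aeval t (C a)
    simp)
  have hX : algebraMap k[X] A X = t := by
    change aeval t X = t
    simp
  have hfp : Algebra.FinitePresentation k[X] A :=
    Algebra.FinitePresentation.of_restrict_scalars_finitePresentation k k[X] A
  -- every element of `A ⊗ Ω` is `a ⊗ dX`
  have hform : ∀ z : A ⊗[k[X]] Ω[k[X]⁄k], ∃ a : A, z = a ⊗ₜ D k k[X] X := by
    intro z
    induction z with
    | zero => exact ⟨0, by rw [TensorProduct.zero_tmul]⟩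
    | tmul a w =>
      have hw : w = ((polynomialEquiv k) w) • D k k[X] X := by
        rw [← polynomialEquiv_symm, LinearEquiv.symm_apply_apply]
      refine ⟨((polynomialEquiv k) w) • a, ?_⟩
      rw [TensorProduct.smul_tmul, ← hw]
    | add x y hx hy =>
      obtain ⟨a, rfl⟩ := hx
      obtain ⟨b, rfl⟩ := hy
      exact ⟨a + b, by rw [TensorProduct.add_tmul]⟩
  have hmap : ∀ a : A, mapBaseChange k k[X] A (a ⊗ₜ D k k[X] X) = a • b () := by
    intro a
    rw [mapBaseChange_tmul, map_D, hX, hb]
  have hinj : Function.Injective (mapBaseChange k k[X] A) := by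
    rw [injective_iff_map_eq_zero]
    intro z hz
    obtain ⟨a, rfl⟩ := hform z
    rw [hmap] at hz
    have h1 : b.repr (a • b ()) () = 0 := by rw [hz]; simp
    have h2 : a = 0 := by simpa using h1
    rw [h2, TensorProduct.zero_tmul]
  have hsurj : Function.Surjective (mapBaseChange k k[X] A) := by
    intro w
    refine ⟨(b.repr w ()) ⊗ₜ D k k[X] X, ?_⟩
    rw [hmap]
    conv_rhs => rw [← b.sum_repr w]
    simp
  have h1 : Subsingleton (Ω[A⁄k[X]]) := by
    refine subsingleton_of_forall_eq 0 fun z => ?_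
    obtain ⟨w, rfl⟩ := KaehlerDifferential.map_surjective k k[X] A z
    obtain ⟨v, rfl⟩ := hsurj w
    exact (exact_mapBaseChange_map k k[X] A _).mpr ⟨v, rfl⟩
  have h2 : Subsingleton (Algebra.H1Cotangent k[X] A) := by
    refine subsingleton_of_forall_eq 0 fun z => ?_
    have h3 : Algebra.H1Cotangent.δ k k[X] A z = 0 := by
      apply hinj
      rw [map_zero]
      exact (Algebra.H1Cotangent.exact_δ_mapBaseChange k k[X] A _).mpr ⟨z, rfl⟩
    obtain ⟨w, hw⟩ := (Algebra.H1Cotangent.exact_map_δ k k[X] A z).mp h3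
    rw [← hw, Subsingleton.elim w 0, map_zero]
  have h3 : Algebra.FormallyEtale k[X] A := (Algebra.formallyEtale_iff ..).mpr ⟨h1, h2⟩
  have h4 : Algebra.Etale k[X] A := { }
  exact RingHom.etale_algebraMap.mpr h4

theorem exists_etale_polynomial [Nontrivial A]
    [Algebra.IsStandardSmoothOfRelativeDimension 1 k A] :
    ∃ t : A, (aeval t : k[X] →ₐ[k] A).toRingHom.Etale := by
  have hss : Algebra.IsStandardSmooth k A :=
    Algebra.IsStandardSmoothOfRelativeDimension.isStandardSmooth 1
  have hrk := Algebra.IsStandardSmoothOfRelativeDimension.rank_kaehlerDifferential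
    (R := k) (S := A) 1
  obtain ⟨hsub, I, b, hb⟩ := Algebra.IsStandardSmooth.iff_exists_basis_kaehlerDifferential.mp hss
  have hI : Nonempty (I ≃ Unit) := by
    have h1 := b.mk_eq_rank
    rw [hrk] at h1
    have h2 : Cardinal.mk I = 1 := by
      simpa using h1
    obtain ⟨h3, h4⟩ := Cardinal.eq_one_iff_unique.mp h2
    obtain ⟨i⟩ := h4
    exact ⟨⟨fun _ => (), fun _ => i, fun j => Subsingleton.elim _ _, fun _ => rfl⟩⟩
  obtain ⟨e⟩ := hI
  obtain ⟨t, ht⟩ := hb ⟨e.symm (), rfl⟩
  exact ⟨t, etale_of_basis t (b.reindex e) (by simp [ht])⟩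

end

end Pool.Agent.MG.Two


end

section

universe u

namespace Pool.Agent.MG.Two

open Polynomial IsLocalRing

section
variable {R : Type u} [CommRing R] [IsNoetherianRing R] [IsLocalRing R]

lemma exists_eq_unit_mul_pow (g : R) (hg : maximalIdeal R = Ideal.span {g}) (a : R) (ha : a ≠ 0) :
    ∃ (n : ℕ) (v : Rˣ), a = v * g ^ n := by
  have hkrull : ⨅ n : ℕ, (maximalIdeal R) ^ n = ⊥ :=
    Ideal.iInf_pow_eq_bot_of_isLocalRing _ (maximalIdeal.isMaximal R).ne_top
  have h1 : ∃ n, a ∉ (maximalIdeal R) ^ n := by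
    by_contra hcon
    push Not at hcon
    have : a ∈ ⨅ n : ℕ, (maximalIdeal R) ^ n := by
      rw [Ideal.mem_iInf]; exact hcon
    rw [hkrull] at this
    exact ha this
  classical
  obtain ⟨hn, hmin⟩ := Nat.find_spec h1, fun m hm => Nat.find_min h1 (m := m) hm
  set n := Nat.find h1 with hndef
  have hn0 : n ≠ 0 := by
    intro h0
    rw [h0] at hn
    simp at hn
  obtain ⟨m, hm⟩ := Nat.exists_eq_succ_of_ne_zero hn0
  have ham : a ∈ (maximalIdeal R) ^ m := by
    by_contra h
    exact Nat.find_min h1 (m := m) (by rw [← hndef, hm]; exact Nat.lt_succ_self m) h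
  rw [hg, Ideal.span_singleton_pow, Ideal.mem_span_singleton'] at ham
  obtain ⟨v, hv⟩ := ham
  have hvu : IsUnit v := by
    by_contra h
    have h2 : v ∈ maximalIdeal R := (mem_maximalIdeal v).mpr h
    apply hn
    rw [hm, pow_succ', ← hv]
    apply Ideal.mul_mem_mul h2
    rw [hg, Ideal.span_singleton_pow]
    exact Ideal.mem_span_singleton_self _
  obtain ⟨w, rfl⟩ := hvu
  exact ⟨m, w, hv.symm⟩

lemma isDomain_of_maximalIdeal (g : R) (hg : maximalIdeal R = Ideal.span {g})
    (hreg : ∀ a, g * a = 0 → a = 0) : IsDomain R := by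
  have hpow : ∀ n, g ^ n ≠ 0 := by
    intro n
    induction n with
    | zero => simp
    | succ n ih =>
      intro h
      rw [pow_succ'] at h
      exact ih (hreg _ h)
  have : NoZeroDivisors R := by
    refine ⟨fun {a b} hab => ?_⟩
    by_contra hcon
    push Not at hcon
    obtain ⟨n, v, hv⟩ := exists_eq_unit_mul_pow g hg a hcon.1
    obtain ⟨m, w, hw⟩ := exists_eq_unit_mul_pow g hg b hcon.2
    have h1 : ((v * w : Rˣ) : R) * g ^ (n + m) = 0 := by
      rw [← hab, hv, hw, Units.val_mul, pow_add]; ring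
    exact hpow _ ((Units.mul_right_eq_zero _).mp h1)
  exact NoZeroDivisors.to_isDomain R

lemma isPrincipalIdealRing_of_maximalIdeal [IsDomain R] (g : R)
    (hg : maximalIdeal R = Ideal.span {g}) : IsPrincipalIdealRing R := by
  have h1 : (maximalIdeal R).IsPrincipal := ⟨⟨g, hg⟩⟩
  exact ((tfae_of_isNoetherianRing_of_isLocalRing_of_isDomain R).out 0 4).mpr h1

end

section
variable {k A : Type u} [Field k] [CommRing A]

theorem localization_of_etale [Algebra k[X] A] [Algebra.Etale k[X] A] (q : Ideal A) [q.IsPrime] :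
    IsDomain (Localization.AtPrime q) ∧ IsPrincipalIdealRing (Localization.AtPrime q) := by
  have hnA : IsNoetherianRing A := Algebra.FiniteType.isNoetherianRing k[X] A
  set p : Ideal k[X] := q.under k[X] with hp
  have hpp : p.IsPrime := inferInstance
  let := Localization.AtPrime.algebraOfLiesOver p q
  have hur : Algebra.IsUnramifiedAt k[X] q := inferInstance
  obtain ⟨-, hmax⟩ := (Algebra.isUnramifiedAt_iff_map_eq k[X] p q).mp hur
  have hpr : p.IsPrincipal := IsPrincipalIdealRing.principal p
  obtain ⟨g, hg⟩ := hpr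
  set G : Localization.AtPrime q := algebraMap k[X] (Localization.AtPrime q) g with hG
  have hmG : maximalIdeal (Localization.AtPrime q) = Ideal.span {G} := by
    rw [← hmax, hg, hG]
    rw [Ideal.submodule_span_eq, Ideal.map_span, Set.image_singleton]
  have hflat : Module.Flat k[X] (Localization.AtPrime q) := by
    have h1 : Module.Flat k[X] A := inferInstance
    exact Module.Flat.trans k[X] A (Localization.AtPrime q)
  by_cases hg0 : g = 0
  · have hG0 : G = 0 := by rw [hG, hg0, map_zero]
    have hbot : maximalIdeal (Localization.AtPrime q) = ⊥ := by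
      rw [hmG, hG0]; simp
    have hfield : IsField (Localization.AtPrime q) := isField_iff_maximalIdeal_eq.mpr hbot
    have hdom : IsDomain (Localization.AtPrime q) := hfield.isDomain
    exact ⟨hdom, isPrincipalIdealRing_of_maximalIdeal G hmG⟩
  · have hreg : ∀ a, G * a = 0 → a = 0 := by
      intro a ha
      have h1 : g • a = 0 := by rw [Algebra.smul_def]; exact ha
      have h2 : Module.IsTorsionFree k[X] (Localization.AtPrime q) := inferInstance
      exact (smul_eq_zero.mp h1).resolve_left hg0
    have hdom := isDomain_of_maximalIdeal G hmG hreg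
    exact ⟨hdom, isPrincipalIdealRing_of_maximalIdeal G hmG⟩

end

end Pool.Agent.MG.Two


end

section

/-!
# The algebraic lemma (MP_cc45c1_ag)

`f ∈ R1[c, ν, w]`, `g ∈ R2[c, ν, w]`, `f(c, ν, w) = g(e c, ν, w + c D)` in `R12[c, ν, w]`
implies `f ∈ k[ν]`.
-/

namespace MG.Alg

open MvPolynomial

variable {k R1 R2 R12 : Type*} [Field k] [CommRing R1] [CommRing R2] [CommRing R12]
  [Algebra k R1] [Algebra k R2] [Algebra k R12] (i1 : R1 →ₐ[k] R12) (i2 : R2 →ₐ[k] R12)
  {J I : Type*} (e : R12) (D : I → R12)

/-- The values of the variables `ν`, `w` in the other chart. -/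
noncomputable def val : J ⊕ I → Polynomial (MvPolynomial (J ⊕ I) R12)
  | Sum.inl j => Polynomial.C (X (Sum.inl j))
  | Sum.inr i => Polynomial.C (X (Sum.inr i)) + Polynomial.C (C (D i)) * Polynomial.X

/-- The substitution on polynomials without `c`. -/
noncomputable def Phi0 : MvPolynomial (J ⊕ I) R2 →+* Polynomial (MvPolynomial (J ⊕ I) R12) :=
  eval₂Hom (Polynomial.C.comp (C.comp (i2 : R2 →+* R12))) (val D)

/-- The substitution `g ↦ g(e c, ν, w + c D)`. -/
noncomputable def Phi : Polynomial (MvPolynomial (J ⊕ I) R2) →+*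
    Polynomial (MvPolynomial (J ⊕ I) R12) :=
  Polynomial.eval₂RingHom (Phi0 i2 D) (Polynomial.C (C e) * Polynomial.X)

theorem Phi_C (p : MvPolynomial (J ⊕ I) R2) : Phi i2 e D (Polynomial.C p) = Phi0 i2 D p := by
  simp [Phi]

theorem Phi_X : Phi i2 e D (Polynomial.X : Polynomial (MvPolynomial (J ⊕ I) R2)) =
    Polynomial.C (C e) * Polynomial.X := by
  simp [Phi]

theorem Phi0_coeff_zero (p : MvPolynomial (J ⊕ I) R2) :
    (Phi0 i2 D p).coeff 0 = map (i2 : R2 →+* R12) p := by
  have h : ((Polynomial.constantCoeff).comp (Phi0 i2 D) :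
      MvPolynomial (J ⊕ I) R2 →+* MvPolynomial (J ⊕ I) R12) = map (i2 : R2 →+* R12) := by
    apply MvPolynomial.ringHom_ext
    · intro r
      simp [Phi0]
    · rintro (j | i)
      · simp [Phi0, val]
      · simp [Phi0, val]
  exact RingHom.congr_fun h p

theorem Phi_coeff_zero (g : Polynomial (MvPolynomial (J ⊕ I) R2)) :
    (Phi i2 e D g).coeff 0 = map (i2 : R2 →+* R12) (g.coeff 0) := by
  have h : ((Polynomial.constantCoeff).comp (Phi i2 e D) :
      Polynomial (MvPolynomial (J ⊕ I) R2) →+* MvPolynomial (J ⊕ I) R12) =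
      (map (i2 : R2 →+* R12)).comp Polynomial.constantCoeff := by
    apply Polynomial.ringHom_ext
    · intro p
      simp [Phi_C, Phi0_coeff_zero]
    · simp [Phi_X]
  exact RingHom.congr_fun h g

/-- The first order term of the substitution on a polynomial with constant coefficients. -/
theorem lam_coeff_one [DecidableEq I] (lam : R12 →ₗ[k] k) (i : I)
    (hlam : ∀ j, lam (D j) = if j = i then 1 else 0) (q : MvPolynomial (J ⊕ I) k) :
    ∀ m, lam (coeff m ((Phi0 i2 D (map (algebraMap k R2) q)).coeff 1)) =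
      coeff m (pderiv (Sum.inr i) q) := by
  classical
  induction q using MvPolynomial.induction_on with
  | C a =>
    intro m
    simp [Phi0]
  | add p q hp hq =>
    intro m
    rw [map_add, map_add, Polynomial.coeff_add, coeff_add, map_add, hp m, hq m, map_add, coeff_add]
  | mul_X p v hp =>
    intro m
    have h0 : (Phi0 i2 D (map (algebraMap k R2) p)).coeff 0 = map (algebraMap k R12) p := by
      rw [Phi0_coeff_zero, map_map, AlgHom.comp_algebraMap]
    have hv : Phi0 i2 D (X v : MvPolynomial (J ⊕ I) R2) = val D v := by simp [Phi0]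
    rw [map_mul, map_mul, map_X, hv, Polynomial.mul_coeff_one, h0, Derivation.leibniz, coeff_add,
      coeff_add, map_add, smul_eq_mul, smul_eq_mul]
    have hX0 : (val D v).coeff 0 = X v := by
      rcases v with j | i' <;> simp [val]
    rw [hX0]
    have e1 : lam (coeff m ((Phi0 i2 D (map (algebraMap k R2) p)).coeff 1 * X v)) =
        coeff m (X v * pderiv (Sum.inr i) p) := by
      rw [mul_comm (X v), coeff_mul_X', coeff_mul_X']
      split_ifs with h
      · exact hp _
      · exact map_zero _
    have e2 : lam (coeff m (map (algebraMap k R12) p * (val D v).coeff 1)) =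
        coeff m (p * pderiv (Sum.inr i) (X v)) := by
      rcases v with j | i'
      · have : (val D (Sum.inl j : J ⊕ I)).coeff 1 = 0 := by
          simp [val, Polynomial.coeff_C]
        rw [this, pderiv_X]
        simp
      · have : (val D (Sum.inr i' : J ⊕ I)).coeff 1 = C (D i') := by
          simp [val, Polynomial.coeff_C]
        rw [this, mul_comm (map (algebraMap k R12) p), coeff_C_mul, coeff_map, mul_comm (D i'),
          ← Algebra.smul_def, map_smul, hlam, pderiv_X]
        by_cases hi : i' = i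
        · subst hi
          simp
        · simp [hi]
    rw [e1, e2, add_comm]

theorem coeff_pderiv' {σ : Type*} (v : σ) (q : MvPolynomial σ k) :
    ∀ m, coeff m (pderiv v q) = (m v + 1) * coeff (m + Finsupp.single v 1) q := by
  classical
  induction q using MvPolynomial.induction_on' with
  | monomial s a =>
    intro m
    rw [pderiv_monomial, coeff_monomial, coeff_monomial]
    by_cases h : s = m + Finsupp.single v 1
    · subst h
      simp
      ring
    · rw [if_neg h, mul_zero]
      split_ifs with h'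
      · by_cases hs : s v = 0
        · rw [hs]; simp
        · exfalso
          apply h
          rw [← h']
          ext w
          by_cases hw : v = w
          · subst hw
            simp
            omega
          · simp [hw]
      · rfl
  | add p q hp hq =>
    intro m
    rw [map_add, coeff_add, coeff_add, hp, hq]
    ring

/-- A polynomial with vanishing derivatives with respect to `w`. -/
theorem exists_of_pderiv_zero [CharZero k] (q : MvPolynomial (J ⊕ I) k)
    (h : ∀ i : I, pderiv (Sum.inr i) q = 0) :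
    ∃ r : MvPolynomial J k, q = rename Sum.inl r := by
  have h1 : ∀ m ∈ q.support, ∀ i : I, m (Sum.inr i) = 0 := by
    intro m hm i
    by_contra hne
    have h2 := coeff_pderiv' (Sum.inr i) q (m - Finsupp.single (Sum.inr i) 1)
    rw [h i, coeff_zero] at h2
    have h3 : m - Finsupp.single (Sum.inr i) 1 + Finsupp.single (Sum.inr i) 1 = m := by
      apply tsub_add_cancel_of_le
      rw [Finsupp.single_le_iff]
      omega
    rw [h3] at h2
    have h4 := (mul_eq_zero.mp h2.symm).resolve_right (mem_support_iff.mp hm)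
    exact Nat.cast_add_one_ne_zero _ h4
  obtain ⟨r, hr⟩ := exists_rename_eq_of_vars_subset_range q (Sum.inl : J → J ⊕ I)
    Sum.inl_injective (by
      intro v hv
      rcases v with j | i
      · exact ⟨j, rfl⟩
      · exfalso
        obtain ⟨m, hm, hvm⟩ := (MvPolynomial.mem_vars_iff_mem_support _).mp hv
        exact (Finsupp.mem_support_iff.mp hvm) (h1 m hm i))
  exact ⟨r, hr.symm⟩

theorem exists_map_of_coeff {σ R : Type*} [CommRing R] [Algebra k R] (f : MvPolynomial σ R)
    (h : ∀ m, coeff m f ∈ Set.range (algebraMap k R)) :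
    ∃ q : MvPolynomial σ k, f = map (algebraMap k R) q := by
  have : f ∈ Set.range (map (algebraMap k R)) := by
    rw [mem_range_map_iff_coeffs_subset]
    intro c hc
    obtain ⟨m, _, rfl⟩ := (mem_coeffs_iff).mp hc
    exact h m
  obtain ⟨q, hq⟩ := this
  exact ⟨q, hq.symm⟩

variable {i1 i2 e D} in
/-- **The algebraic lemma.** -/
theorem alg_poly [CharZero k] (hinj2 : Function.Injective i2)
    (he : ∀ a, e * a = 0 → a = 0)
    (h0 : ∀ a b, i1 a = i2 b → a ∈ Set.range (algebraMap k R1))
    (hj : ∀ j : ℕ, j ≠ 0 → ∀ a b, i1 a = e ^ j * i2 b → a = 0)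
    (hD : ∀ (a : I →₀ k) (r : R1) (s : R2), (a.sum fun i c => c • D i) = i1 r + e * i2 s → a = 0)
    (f : Polynomial (MvPolynomial (J ⊕ I) R1)) (g : Polynomial (MvPolynomial (J ⊕ I) R2))
    (h : Polynomial.map (map (i1 : R1 →+* R12)) f = Phi i2 e D g) :
    ∃ q : MvPolynomial J k, f = Polynomial.C (rename Sum.inl (map (algebraMap k R1) q)) := by
  classical
  have hc0 : map (i1 : R1 →+* R12) (f.coeff 0) = map (i2 : R2 →+* R12) (g.coeff 0) := by
    rw [← Phi_coeff_zero i2 e D, ← h, Polynomial.coeff_map]
  have hen : ∀ (n : ℕ) (x : R12), e ^ n * x = 0 → x = 0 := by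
    intro n
    induction n with
    | zero => intro x hx; rwa [pow_zero, one_mul] at hx
    | succ n ih =>
      intro x hx
      rw [pow_succ, mul_assoc] at hx
      exact he _ (ih _ hx)
  have hcm : ∀ m, i1 (coeff m (f.coeff 0)) = i2 (coeff m (g.coeff 0)) := by
    intro m
    have := congrArg (coeff m) hc0
    rwa [coeff_map, coeff_map] at this
  obtain ⟨q0, hq0⟩ := exists_map_of_coeff (f.coeff 0) (fun m => h0 _ _ (hcm m))
  have hq0' : g.coeff 0 = map (algebraMap k R2) q0 := by
    ext m
    apply hinj2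
    rw [← hcm m, hq0, coeff_map, coeff_map, AlgHom.commutes, AlgHom.commutes]
  -- the functionals
  have hpd : ∀ i : I, pderiv (Sum.inr i) q0 = 0 := by
    intro i
    obtain ⟨lam, hl1, hl2, hl3⟩ : ∃ lam : R12 →ₗ[k] k, (∀ r, lam (i1 r) = 0) ∧
        (∀ s, lam (e * i2 s) = 0) ∧ ∀ j, lam (D j) = if j = i then 1 else 0 := by
      let W : Submodule k R12 := (LinearMap.range i1.toLinearMap ⊔
        LinearMap.range ((LinearMap.mulLeft k e).comp i2.toLinearMap)) ⊔
          Submodule.span k (D '' {i}ᶜ)
      have hW : D i ∉ W := by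
        intro hi
        obtain ⟨x, hx, y, hy, e1⟩ := Submodule.mem_sup.mp hi
        obtain ⟨x1, ⟨r, rfl⟩, x2, ⟨s, rfl⟩, e2⟩ := Submodule.mem_sup.mp hx
        obtain ⟨a, ha, rfl⟩ := (Finsupp.mem_span_image_iff_linearCombination k).mp hy
        have h3 := hD (Finsupp.single i 1 - a) r s (by
          have e3 : ((Finsupp.single i 1 - a).sum fun i c => c • D i) =
            Finsupp.linearCombination k D (Finsupp.single i 1 - a) := rfl
          rw [e3, map_sub, Finsupp.linearCombination_single, one_smul, ← e1, ← e2,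
            add_sub_cancel_right]
          rfl)
        have h4 : a i = 0 := by
          by_contra hne
          have := ha (Finsupp.mem_support_iff.mpr hne)
          simp at this
        have h5 := DFunLike.congr_fun h3 i
        rw [Finsupp.sub_apply, Finsupp.single_eq_same, h4] at h5
        simp at h5
      obtain ⟨lam, hlam, hle⟩ := Submodule.exists_le_ker_of_notMem hW
      refine ⟨(lam (D i))⁻¹ • lam, ?_, ?_, ?_⟩
      · intro r
        have : lam (i1 r) = 0 := hle (Submodule.mem_sup_left (Submodule.mem_sup_left ⟨r, rfl⟩))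
        rw [LinearMap.smul_apply, this, smul_zero]
      · intro s
        have : lam (e * i2 s) = 0 :=
          hle (Submodule.mem_sup_left (Submodule.mem_sup_right ⟨s, rfl⟩))
        rw [LinearMap.smul_apply, this, smul_zero]
      · intro j
        by_cases hji : j = i
        · subst hji
          rw [if_pos rfl, LinearMap.smul_apply, smul_eq_mul, inv_mul_cancel₀ hlam]
        · have : lam (D j) = 0 :=
            hle (Submodule.mem_sup_right (Submodule.subset_span ⟨j, hji, rfl⟩))
          rw [if_neg hji, LinearMap.smul_apply, this, smul_zero]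
    ext m
    rw [← lam_coeff_one i2 D lam i hl3 q0 m, coeff_zero]
    have e1 := Polynomial.divX_mul_X_add g
    have e2 := congrArg (fun F => Polynomial.coeff F 1) h
    simp only [Polynomial.coeff_map] at e2
    rw [← e1, map_add, map_mul, Phi_X, Phi_C, Polynomial.coeff_add, ← mul_assoc,
      Polynomial.coeff_mul_X, Polynomial.coeff_mul_C, Phi_coeff_zero, Polynomial.coeff_divX, hq0',
      zero_add] at e2
    have e3 := congrArg (fun F => lam (coeff m F)) e2
    simp only [coeff_add, coeff_map, map_add] at e3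
    have e4 : lam ((i1 : R1 →+* R12) (coeff m (f.coeff 1))) = 0 := hl1 _
    have e5 : lam (coeff m (map (i2 : R2 →+* R12) (g.coeff 1) * C e)) = 0 := by
      rw [mul_comm, coeff_C_mul, coeff_map]
      exact hl2 _
    rw [e4, e5, zero_add] at e3
    exact e3.symm
  obtain ⟨r, hr⟩ := exists_of_pderiv_zero q0 hpd
  have hPhi0 : Phi0 i2 D (g.coeff 0) = Polynomial.C (map (i1 : R1 →+* R12) (f.coeff 0)) := by
    have h1 : ((Phi0 i2 D).comp ((map (algebraMap k R2)).comp (rename Sum.inl).toRingHom) :
        MvPolynomial J k →+* Polynomial (MvPolynomial (J ⊕ I) R12)) =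
        (Polynomial.C).comp ((map (i1 : R1 →+* R12)).comp
          ((map (algebraMap k R1)).comp (rename Sum.inl).toRingHom)) := by
      apply MvPolynomial.ringHom_ext
      · intro c
        simp [Phi0]
      · intro j
        simp [Phi0, val]
    have h2 := RingHom.congr_fun h1 r
    rw [hq0', hq0, hr]
    exact h2
  have key : ∀ n, n ≠ 0 → g.coeff n = 0 ∧ f.coeff n = 0 := by
    intro n
    induction n using Nat.strong_induction_on with
    | _ n ih =>
      intro hn
      have h1 : (Polynomial.X : Polynomial (MvPolynomial (J ⊕ I) R2)) ^ n ∣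
          g - Polynomial.C (g.coeff 0) := by
        rw [Polynomial.X_pow_dvd_iff]
        intro d hd
        rw [Polynomial.coeff_sub, Polynomial.coeff_C]
        by_cases hd0 : d = 0
        · subst hd0; simp
        · rw [if_neg hd0, sub_zero]
          exact (ih d hd hd0).1
      obtain ⟨G, hG⟩ := h1
      have h2 : G.coeff 0 = g.coeff n := by
        have := congrArg (fun F => Polynomial.coeff F n) hG
        simp only [Polynomial.coeff_sub, Polynomial.coeff_C, if_neg hn, sub_zero] at this
        rw [this, Polynomial.coeff_X_pow_mul', if_pos le_rfl, Nat.sub_self]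
      have h3 : Polynomial.map (map (i1 : R1 →+* R12)) f -
          Polynomial.C (map (i1 : R1 →+* R12) (f.coeff 0)) =
          (Polynomial.C (C e) * Polynomial.X) ^ n * Phi i2 e D G := by
        rw [h, ← hPhi0, ← Phi_C i2 e D, ← map_sub, hG, map_mul, map_pow, Phi_X]
      have h4 := congrArg (fun F => Polynomial.coeff F n) h3
      simp only [Polynomial.coeff_sub, Polynomial.coeff_C, if_neg hn, sub_zero,
        Polynomial.coeff_map] at h4
      rw [mul_pow, ← Polynomial.C_pow, mul_assoc, Polynomial.coeff_C_mul,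
        Polynomial.coeff_X_pow_mul', if_pos le_rfl, Nat.sub_self, Phi_coeff_zero, h2,
        ← map_pow] at h4
      have h5 : ∀ m, i1 (coeff m (f.coeff n)) = e ^ n * i2 (coeff m (g.coeff n)) := by
        intro m
        have := congrArg (coeff m) h4
        rwa [coeff_map, coeff_C_mul, coeff_map] at this
      have h6 : ∀ m, coeff m (f.coeff n) = 0 := fun m => hj n hn _ _ (h5 m)
      constructor
      · ext m
        rw [coeff_zero]
        apply hinj2
        rw [map_zero]
        have h7 : e ^ n * i2 (coeff m (g.coeff n)) = 0 := by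
          rw [← h5 m, h6 m, map_zero]
        exact hen n _ h7
      · ext m
        rw [coeff_zero]
        exact h6 m
  refine ⟨r, ?_⟩
  ext1 n
  rw [Polynomial.coeff_C]
  by_cases hn : n = 0
  · subst hn
    rw [if_pos rfl, hq0, hr, map_rename]
  · rw [if_neg hn]
    exact (key n hn).2

/-- The substitution `g ↦ g(e c, ν, w + c D)`; `c = none`, `ν_j = some (inl j)`,
`w_i = some (inr i)`. -/
noncomputable def subst : MvPolynomial (Option (J ⊕ I)) R2 →+*
    MvPolynomial (Option (J ⊕ I)) R12 :=
  eval₂Hom (C.comp (i2 : R2 →+* R12)) fun v => match v with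
    | none => C e * X none
    | some (Sum.inl j) => X (some (Sum.inl j))
    | some (Sum.inr i) => X (some (Sum.inr i)) + C (D i) * X none

variable {i1 i2 e D} in
/-- **The algebraic lemma.** -/
theorem alg [CharZero k] (hinj2 : Function.Injective i2)
    (he : ∀ a, e * a = 0 → a = 0)
    (h0 : ∀ a b, i1 a = i2 b → a ∈ Set.range (algebraMap k R1))
    (hj : ∀ j : ℕ, j ≠ 0 → ∀ a b, i1 a = e ^ j * i2 b → a = 0)
    (hD : ∀ (a : I →₀ k) (r : R1) (s : R2), (a.sum fun i c => c • D i) = i1 r + e * i2 s → a = 0)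
    (f : MvPolynomial (Option (J ⊕ I)) R1) (g : MvPolynomial (Option (J ⊕ I)) R2)
    (h : map (i1 : R1 →+* R12) f = subst i2 e D g) :
    ∃ q : MvPolynomial J k,
      f = rename (fun j => some (Sum.inl j)) (map (algebraMap k R1) q) := by
  have e1 : ((optionEquivLeft R12 (J ⊕ I)).toRingEquiv.toRingHom).comp (map (i1 : R1 →+* R12)) =
      (Polynomial.mapRingHom (map (i1 : R1 →+* R12))).comp
        (optionEquivLeft R1 (J ⊕ I)).toRingEquiv.toRingHom := by
    apply MvPolynomial.ringHom_ext
    · intro r
      simp [optionEquivLeft_C]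
    · rintro (_ | v)
      · simp [optionEquivLeft_X_none]
      · simp [optionEquivLeft_X_some]
  have e2 : ((optionEquivLeft R12 (J ⊕ I)).toRingEquiv.toRingHom).comp (subst i2 e D) =
      (Phi i2 e D).comp (optionEquivLeft R2 (J ⊕ I)).toRingEquiv.toRingHom := by
    apply MvPolynomial.ringHom_ext
    · intro r
      simp [subst, optionEquivLeft_C, Phi_C, Phi0]
    · rintro (_ | j | i)
      · simp [subst, optionEquivLeft_X_none, optionEquivLeft_C, Phi_X]
      · simp [subst, optionEquivLeft_X_some, Phi_C, Phi0, val]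
      · simp [subst, optionEquivLeft_X_none, optionEquivLeft_X_some, optionEquivLeft_C, Phi_C,
          Phi0, val]
  obtain ⟨q, hq⟩ := alg_poly hinj2 he h0 hj hD (optionEquivLeft R1 (J ⊕ I) f)
    (optionEquivLeft R2 (J ⊕ I) g) (by
      have h1 := RingHom.congr_fun e1 f
      have h2 := RingHom.congr_fun e2 g
      have h3 := congrArg (optionEquivLeft R12 (J ⊕ I)) h
      exact h1.symm.trans (h3.trans h2))
  refine ⟨q, (optionEquivLeft R1 (J ⊕ I)).injective ?_⟩
  rw [hq]
  have e3 : ((optionEquivLeft R1 (J ⊕ I)).toRingEquiv.toRingHom).comp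
      (rename (fun j => some (Sum.inl j)) : MvPolynomial J R1 →ₐ[R1] _).toRingHom =
      (Polynomial.C).comp (rename Sum.inl : MvPolynomial J R1 →ₐ[R1] _).toRingHom := by
    apply MvPolynomial.ringHom_ext
    · intro r
      simp [optionEquivLeft_C]
    · intro j
      simp [optionEquivLeft_X_some]
  exact (RingHom.congr_fun e3 (map (algebraMap k R1) q)).symm

end MG.Alg


end

section

/-!
# Covector data: linear maps on `R12 = R1 ⊕ e R2 ⊕ ⟨D_i⟩` (MP_cc45c1_ag)
-/

namespace MG.Uni

open MvPolynomial

universe u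

variable {k R1 R2 : Type*} {R12 : Type u} [Field k] [CommRing R1] [CommRing R2] [CommRing R12]
  [Algebra k R1] [Algebra k R2] [Algebra k R12]

/-- `R12 = R1 ⊕ e R2 ⊕ ⟨D_i⟩`. -/
structure Split (i1 : R1 →ₐ[k] R12) (i2 : R2 →ₐ[k] R12) (e : R12) {I : Type*} (D : I → R12) :
    Prop where
  inj1 : Function.Injective i1
  inj2 : Function.Injective i2
  he : ∀ a, e * a = 0 → a = 0
  h12 : ∀ a b, i1 a = e * i2 b → a = 0
  ind : ∀ (a : I →₀ k) (r : R1) (s : R2), (a.sum fun i c => c • D i) = i1 r + e * i2 s → a = 0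
  span : ∀ x : R12, ∃ (r : R1) (s : R2) (a : I →₀ k), x = i1 r + e * i2 s + a.sum fun i c => c • D i

section

variable {i1 : R1 →ₐ[k] R12} {i2 : R2 →ₐ[k] R12} {e : R12}

/-- Existence of `(D_i)`. -/
theorem exists_split (inj1 : Function.Injective i1) (inj2 : Function.Injective i2)
    (he : ∀ a, e * a = 0 → a = 0) (h12 : ∀ a b, i1 a = e * i2 b → a = 0) :
    ∃ (I : Type u) (D : I → R12), Split i1 i2 e D := by
  let W : Submodule k R12 := LinearMap.range i1.toLinearMap ⊔
    LinearMap.range ((LinearMap.mulLeft k e).comp i2.toLinearMap)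
  obtain ⟨W', hW'⟩ := Submodule.exists_isCompl W
  let b := Module.Basis.ofVectorSpace k W'
  refine ⟨_, fun i => (b i : R12), inj1, inj2, he, h12, ?_, ?_⟩
  · intro a r s h
    have h1 : (a.sum fun i c => c • (b i : R12)) = ((Finsupp.linearCombination k b a : W') : R12) := by
      rw [Finsupp.linearCombination_apply, Finsupp.sum, Finsupp.sum]
      simp
    have h2 : ((Finsupp.linearCombination k b a : W') : R12) ∈ W := by
      rw [← h1, h]
      exact Submodule.add_mem_sup ⟨r, rfl⟩ ⟨s, rfl⟩
    have h3 : ((Finsupp.linearCombination k b a : W') : R12) = 0 :=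
      Submodule.disjoint_def.mp hW'.disjoint _ h2 (Subtype.mem _)
    exact linearIndependent_iff.mp b.linearIndependent a (Subtype.ext h3)
  · intro x
    have hx : x ∈ W ⊔ W' := by rw [hW'.sup_eq_top]; trivial
    obtain ⟨y, hy, z, hz, e1⟩ := Submodule.mem_sup.mp hx
    obtain ⟨y1, ⟨r, rfl⟩, y2, ⟨s, rfl⟩, e2⟩ := Submodule.mem_sup.mp hy
    refine ⟨r, s, b.repr ⟨z, hz⟩, ?_⟩
    rw [← e1, ← e2]
    have h1 : z = ((Finsupp.linearCombination k b (b.repr ⟨z, hz⟩) : W') : R12) := by
      rw [b.linearCombination_repr]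
    conv_lhs => rw [h1, Finsupp.linearCombination_apply, Finsupp.sum]
    rw [Finsupp.sum]
    simp

variable {I : Type*} {D : I → R12}

/-- Linear maps on `R12` are determined by their values on the three parts. -/
theorem Split.ext (h : Split i1 i2 e D) {B : Type*} [AddCommGroup B] [Module k B]
    {mu mu' : R12 →ₗ[k] B} (h1 : ∀ r, mu (i1 r) = mu' (i1 r))
    (h2 : ∀ s, mu (e * i2 s) = mu' (e * i2 s)) (h3 : ∀ i, mu (D i) = mu' (D i)) : mu = mu' := by
  ext x
  obtain ⟨r, s, a, rfl⟩ := h.span x
  rw [map_add, map_add, map_add, map_add, h1, h2, Finsupp.sum, map_sum, map_sum]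
  congr 1
  apply Finset.sum_congr rfl
  intro i _
  rw [map_smul, map_smul, h3]

/-- The splitting as a linear equivalence. -/
noncomputable def Split.equiv (h : Split i1 i2 e D) : ((R1 × R2) × (I →₀ k)) ≃ₗ[k] R12 :=
  LinearEquiv.ofBijective
    (((i1.toLinearMap.coprod ((LinearMap.mulLeft k e).comp i2.toLinearMap))).coprod
      (Finsupp.linearCombination k D)) (by
    constructor
    · rw [injective_iff_map_eq_zero]
      rintro ⟨⟨r, s⟩, a⟩ hx
      have hx' : i1 r + e * i2 s + (a.sum fun i c => c • D i) = 0 := hx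
      have h1 : (a.sum fun i c => c • D i) = i1 (-r) + e * i2 (-s) := by
        rw [map_neg, map_neg]
        linear_combination hx'
      have ha := h.ind a _ _ h1
      subst ha
      have h2 : i1 r = e * i2 (-s) := by
        rw [Finsupp.sum_zero_index, add_zero] at hx'
        rw [map_neg]
        linear_combination hx'
      have hr := h.h12 _ _ h2
      subst hr
      rw [map_zero] at h2
      have hs : i2 (-s) = i2 0 := by rw [h.he _ h2.symm, map_zero]
      have hs' := h.inj2 hs
      rw [neg_eq_zero] at hs'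
      rw [hs']
      rfl
    · intro x
      obtain ⟨r, s, a, rfl⟩ := h.span x
      exact ⟨((r, s), a), rfl⟩)

theorem Split.equiv_apply (h : Split i1 i2 e D) (r : R1) (s : R2) (a : I →₀ k) :
    h.equiv ((r, s), a) = i1 r + e * i2 s + Finsupp.linearCombination k D a := rfl

/-- The linear map with given values on the three parts. -/
noncomputable def Split.lift (h : Split i1 i2 e D) {B : Type*} [AddCommGroup B] [Module k B]
    (F1 : R1 →ₗ[k] B) (F2 : R2 →ₗ[k] B) (w : I → B) : R12 →ₗ[k] B :=
  ((F1.coprod F2).coprod (Finsupp.linearCombination k w)).comp h.equiv.symm.toLinearMap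

section

variable (h : Split i1 i2 e D) {B : Type*} [AddCommGroup B] [Module k B]
    (F1 : R1 →ₗ[k] B) (F2 : R2 →ₗ[k] B) (w : I → B)

theorem Split.lift_one (r : R1) : h.lift F1 F2 w (i1 r) = F1 r := by
  have h1 : h.equiv ((r, 0), 0) = i1 r := by
    rw [h.equiv_apply, map_zero, map_zero, mul_zero, add_zero, add_zero]
  rw [Split.lift, ← h1]
  simp

theorem Split.lift_two (s : R2) : h.lift F1 F2 w (e * i2 s) = F2 s := by
  have h1 : h.equiv ((0, s), 0) = e * i2 s := by
    rw [h.equiv_apply, map_zero, map_zero, zero_add, add_zero]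
  rw [Split.lift, ← h1]
  simp

theorem Split.lift_D (i : I) : h.lift F1 F2 w (D i) = w i := by
  have h1 : h.equiv ((0, 0), Finsupp.single i 1) = D i := by
    rw [h.equiv_apply, map_zero, map_zero, mul_zero, add_zero, zero_add,
      Finsupp.linearCombination_single, one_smul]
  rw [Split.lift, ← h1]
  simp

theorem Split.comp_lift {B' : Type*} [AddCommGroup B'] [Module k B'] (f : B →ₗ[k] B') :
    f.comp (h.lift F1 F2 w) = h.lift (f.comp F1) (f.comp F2) (fun i => f (w i)) := by
  apply h.ext
  · intro r
    rw [LinearMap.comp_apply, h.lift_one, h.lift_one, LinearMap.comp_apply]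
  · intro r
    rw [LinearMap.comp_apply, h.lift_two, h.lift_two, LinearMap.comp_apply]
  · intro r
    rw [LinearMap.comp_apply, h.lift_D, h.lift_D]

end

section Data

variable (h : Split i1 i2 e D) {J : Type*} [Fintype J] (p : J → R1 →ₐ[k] k)
  {B : Type*} [CommRing B] [Algebra k B]

/-- The part of the constant points. -/
noncomputable def cst (nu : J → B) : R1 →ₗ[k] B :=
  -∑ j, (LinearMap.mulLeft k (nu j)).comp ((Algebra.linearMap k B).comp (p j).toLinearMap)

theorem cst_apply (nu : J → B) (r : R1) :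
    cst p nu r = -∑ j, nu j * algebraMap k B (p j r) := by
  simp [cst]

/-- The covector with weight `c` at the moving point `φ : R1 → B`, weights `ν_j` at `p_j`, and
`μ(D_i) = w_i`. -/
noncomputable def mu1 (c : B) (φ : R1 →ₐ[k] B) (nu : J → B) (w : I → B) : R12 →ₗ[k] B :=
  h.lift (cst p nu - (LinearMap.mulLeft k c).comp φ.toLinearMap) 0 w

/-- The covector with weight `c` at the moving point `ψ : R2 → B`, weights `ν_j` at `p_j`, and
`μ(D_i) = w_i`. -/
noncomputable def mu2 (c : B) (ψ : R2 →ₐ[k] B) (nu : J → B) (w : I → B) : R12 →ₗ[k] B :=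
  h.lift (cst p nu) ((LinearMap.mulLeft k c).comp ψ.toLinearMap) w

theorem mu1_one (c : B) (φ : R1 →ₐ[k] B) (nu : J → B) (w : I → B) (r : R1) :
    mu1 h p c φ nu w (i1 r) + (c * φ r + ∑ j, nu j * algebraMap k B (p j r)) = 0 := by
  rw [mu1, h.lift_one, LinearMap.sub_apply, cst_apply, LinearMap.comp_apply,
    LinearMap.mulLeft_apply, AlgHom.toLinearMap_apply]
  ring

theorem mu1_two (c : B) (φ : R1 →ₐ[k] B) (nu : J → B) (w : I → B) (s : R2) :
    mu1 h p c φ nu w (e * i2 s) = 0 := by
  rw [mu1, h.lift_two, LinearMap.zero_apply]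

theorem mu1_D (c : B) (φ : R1 →ₐ[k] B) (nu : J → B) (w : I → B) (i : I) :
    mu1 h p c φ nu w (D i) = w i := by
  rw [mu1, h.lift_D]

theorem mu2_one (c : B) (ψ : R2 →ₐ[k] B) (nu : J → B) (w : I → B) (r : R1) :
    mu2 h p c ψ nu w (i1 r) + ∑ j, nu j * algebraMap k B (p j r) = 0 := by
  rw [mu2, h.lift_one, cst_apply]
  ring

theorem mu2_two (c : B) (ψ : R2 →ₐ[k] B) (nu : J → B) (w : I → B) (s : R2) :
    mu2 h p c ψ nu w (e * i2 s) = c * ψ s := by
  rw [mu2, h.lift_two]
  rfl

theorem mu2_D (c : B) (ψ : R2 →ₐ[k] B) (nu : J → B) (w : I → B) (i : I) :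
    mu2 h p c ψ nu w (D i) = w i := by
  rw [mu2, h.lift_D]

/-- Every covector in the chart `1` has this form. -/
theorem eq_mu1 (c : B) (φ : R1 →ₐ[k] B) (nu : J → B) (mu : R12 →ₗ[k] B)
    (h1 : ∀ r, mu (i1 r) + (c * φ r + ∑ j, nu j * algebraMap k B (p j r)) = 0)
    (h2 : ∀ s, mu (e * i2 s) = 0) : mu = mu1 h p c φ nu (fun i => mu (D i)) := by
  apply h.ext
  · intro r
    rw [eq_neg_of_add_eq_zero_left (h1 r),
      eq_neg_of_add_eq_zero_left (mu1_one h p c φ nu (fun i => mu (D i)) r)]
  · intro s
    rw [h2, mu1_two]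
  · intro i
    rw [mu1_D]

/-- Every covector in the chart `2` has this form. -/
theorem eq_mu2 (c : B) (ψ : R2 →ₐ[k] B) (nu : J → B) (mu : R12 →ₗ[k] B)
    (h1 : ∀ r, mu (i1 r) + ∑ j, nu j * algebraMap k B (p j r) = 0)
    (h2 : ∀ s, mu (e * i2 s) = c * ψ s) : mu = mu2 h p c ψ nu (fun i => mu (D i)) := by
  apply h.ext
  · intro r
    rw [eq_neg_of_add_eq_zero_left (h1 r),
      eq_neg_of_add_eq_zero_left (mu2_one h p c ψ nu (fun i => mu (D i)) r)]
  · intro s
    rw [h2, mu2_two]
  · intro i
    rw [mu2_D]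

section

variable {B' : Type*} [CommRing B'] [Algebra k B'] (f : B →ₐ[k] B')

theorem comp_mu1 (c : B) (φ : R1 →ₐ[k] B) (nu : J → B) (w : I → B) :
    f.toLinearMap.comp (mu1 h p c φ nu w) =
      mu1 h p (f c) (f.comp φ) (fun j => f (nu j)) (fun i => f (w i)) := by
  apply h.ext
  · intro r
    have h1 := mu1_one h p c φ nu w r
    have h2 := mu1_one h p (f c) (f.comp φ) (fun j => f (nu j)) (fun i => f (w i)) r
    rw [LinearMap.comp_apply, AlgHom.toLinearMap_apply, eq_neg_of_add_eq_zero_left h1,
      eq_neg_of_add_eq_zero_left h2]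
    simp
  · intro s
    rw [LinearMap.comp_apply, mu1_two, mu1_two, map_zero]
  · intro i
    rw [LinearMap.comp_apply, mu1_D, mu1_D, AlgHom.toLinearMap_apply]

theorem comp_mu2 (c : B) (ψ : R2 →ₐ[k] B) (nu : J → B) (w : I → B) :
    f.toLinearMap.comp (mu2 h p c ψ nu w) =
      mu2 h p (f c) (f.comp ψ) (fun j => f (nu j)) (fun i => f (w i)) := by
  apply h.ext
  · intro r
    have h1 := mu2_one h p c ψ nu w r
    have h2 := mu2_one h p (f c) (f.comp ψ) (fun j => f (nu j)) (fun i => f (w i)) r
    rw [LinearMap.comp_apply, AlgHom.toLinearMap_apply, eq_neg_of_add_eq_zero_left h1,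
      eq_neg_of_add_eq_zero_left h2]
    simp
  · intro s
    rw [LinearMap.comp_apply, mu2_two, mu2_two, AlgHom.toLinearMap_apply, map_mul]
    rfl
  · intro i
    rw [LinearMap.comp_apply, mu2_D, mu2_D, AlgHom.toLinearMap_apply]

end

/-- Change of the chart of the moving point. -/
theorem change (χ : R12 →ₐ[k] B) (c : B) (nu : J → B) (w : I → B) :
    mu2 h p (χ e * c) (χ.comp i2) nu (fun i => w i + χ (D i) * c) =
      mu1 h p c (χ.comp i1) nu w + (LinearMap.mulLeft k c).comp χ.toLinearMap := by
  apply h.ext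
  · intro r
    have h1 := mu1_one h p c (χ.comp i1) nu w r
    have h2 := mu2_one h p (χ e * c) (χ.comp i2) nu (fun i => w i + χ (D i) * c) r
    rw [LinearMap.add_apply, eq_neg_of_add_eq_zero_left h1, eq_neg_of_add_eq_zero_left h2]
    simp
  · intro s
    rw [LinearMap.add_apply, mu1_two, mu2_two]
    simp
    ring
  · intro i
    rw [LinearMap.add_apply, mu1_D, mu2_D]
    simp
    ring

end Data

section Universal

variable (h : Split i1 i2 e D) {J : Type*} [Fintype J] (p : J → R1 →ₐ[k] k)

/-- The universal ring with variables `c`, `ν_j`, `w_i`. -/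
abbrev U (J I R : Type*) [CommRing R] : Type _ := MvPolynomial (Option (J ⊕ I)) R

/-- The map `R[c, ν, w] → B` given by `φ : R → B` and values of the variables. -/
noncomputable def ev {R B : Type*} [CommRing R] [Algebra k R] [CommRing B] [Algebra k B]
    {J I : Type*} (φ : R →ₐ[k] B) (c : B) (nu : J → B) (w : I → B) : U J I R →ₐ[k] B :=
  { eval₂Hom (φ : R →+* B) (fun v => match v with
      | none => c
      | some (Sum.inl j) => nu j
      | some (Sum.inr i) => w i) with
    commutes' := fun a => by
      have : algebraMap k (U J I R) a = C (algebraMap k R a) := rfl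
      simp [this] }

section

variable {R B : Type*} [CommRing R] [Algebra k R] [CommRing B] [Algebra k B] {J I : Type*}
  (φ : R →ₐ[k] B) (c : B) (nu : J → B) (w : I → B)

theorem ev_C (r : R) : ev φ c nu w (C r) = φ r := by
  simp [ev]

theorem ev_c : ev φ c nu w (X none) = c := by
  simp [ev]

theorem ev_nu (j : J) : ev φ c nu w (X (some (Sum.inl j))) = nu j := by
  simp [ev]

theorem ev_w (i : I) : ev φ c nu w (X (some (Sum.inr i))) = w i := by
  simp [ev]

/-- Constants. -/
noncomputable def CC (k : Type*) (R J I : Type*) [Field k] [CommRing R] [Algebra k R] :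
    R →ₐ[k] U J I R :=
  { (C : R →+* U J I R) with commutes' := fun _ => rfl }

theorem CC_apply (r : R) : CC k R J I r = C r := rfl

theorem ev_CC : (ev φ c nu w).comp (CC k R J I) = φ := by
  ext r
  rw [AlgHom.comp_apply, CC_apply, ev_C]

end

/-- The universal covector over `R1[c, ν, w]`. -/
noncomputable def uni1 : R12 →ₗ[k] U J I R1 :=
  mu1 h p (X none) (CC k R1 J I) (fun j => X (some (Sum.inl j))) (fun i => X (some (Sum.inr i)))

/-- The universal covector over `R2[c, ν, w]`. -/
noncomputable def uni2 : R12 →ₗ[k] U J I R2 :=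
  mu2 h p (X none) (CC k R2 J I) (fun j => X (some (Sum.inl j))) (fun i => X (some (Sum.inr i)))

theorem ev_uni1 {B : Type*} [CommRing B] [Algebra k B] (φ : R1 →ₐ[k] B) (c : B) (nu : J → B)
    (w : I → B) : (ev φ c nu w).toLinearMap.comp (uni1 h p) = mu1 h p c φ nu w := by
  rw [uni1, comp_mu1, ev_c, ev_CC]
  congr 1
  · funext j; rw [ev_nu]
  · funext i; rw [ev_w]

theorem ev_uni2 {B : Type*} [CommRing B] [Algebra k B] (ψ : R2 →ₐ[k] B) (c : B) (nu : J → B)
    (w : I → B) : (ev ψ c nu w).toLinearMap.comp (uni2 h p) = mu2 h p c ψ nu w := by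
  rw [uni2, comp_mu2, ev_c, ev_CC]
  congr 1
  · funext j; rw [ev_nu]
  · funext i; rw [ev_w]

variable (i1 i2 e D) in
/-- `R1[c, ν, w] → R12[c, ν, w]`. -/
noncomputable def inc1 (J : Type*) : U J I R1 →ₐ[k] U J I R12 :=
  ev ((CC k R12 J I).comp i1) (X none) (fun j => X (some (Sum.inl j)))
    (fun i => X (some (Sum.inr i)))

variable (i1 i2 e D) in
/-- `R2[c, ν, w] → R12[c, ν, w]`, `c ↦ e c`, `w ↦ w + c D`. -/
noncomputable def inc2 (J : Type*) : U J I R2 →ₐ[k] U J I R12 :=
  ev ((CC k R12 J I).comp i2) (C e * X none) (fun j => X (some (Sum.inl j)))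
    (fun i => X (some (Sum.inr i)) + C (D i) * X none)

theorem inc1_eq (f : U J I R1) : inc1 (I := I) i1 J f = map (i1 : R1 →+* R12) f := by
  have : ((inc1 (I := I) i1 J : U J I R1 →ₐ[k] U J I R12) : U J I R1 →+* U J I R12) =
      map (i1 : R1 →+* R12) := by
    apply MvPolynomial.ringHom_ext
    · intro r
      simp [inc1, ev, CC] <;> rfl
    · rintro (_ | j | i) <;> simp [inc1, ev]
  exact RingHom.congr_fun this f

theorem inc2_eq (g : U J I R2) : inc2 i2 e D J g = MG.Alg.subst i2 e D g := by
  have : ((inc2 i2 e D J : U J I R2 →ₐ[k] U J I R12) : U J I R2 →+* U J I R12) =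
      MG.Alg.subst i2 e D := by
    apply MvPolynomial.ringHom_ext
    · intro r
      simp [inc2, ev, CC, MG.Alg.subst] <;> rfl
    · rintro (_ | j | i) <;> simp [inc2, ev, MG.Alg.subst]
  exact RingHom.congr_fun this g

/-- The two universal covectors over `R12[c, ν, w]` are related by the change of charts. -/
theorem inc_change :
    (inc2 i2 e D J).toLinearMap.comp (uni2 h p) =
      (inc1 (I := I) i1 J).toLinearMap.comp (uni1 h p) +
        (LinearMap.mulLeft k (X none)).comp (CC k R12 J I).toLinearMap := by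
  rw [inc1, inc2, ev_uni1, ev_uni2]
  exact change h p (CC k R12 J I) (X none) _ _

/-- **The universal polynomial is constant.** -/
theorem uni_alg [CharZero k] (h0 : ∀ a b, i1 a = i2 b → a ∈ Set.range (algebraMap k R1))
    (hj : ∀ j : ℕ, j ≠ 0 → ∀ a b, i1 a = e ^ j * i2 b → a = 0)
    (h : Split i1 i2 e D) (f : U J I R1) (g : U J I R2)
    (hfg : inc1 (I := I) i1 J f = inc2 i2 e D J g) :
    ∃ q : MvPolynomial J k, ∀ {B : Type*} [CommRing B] [Algebra k B] (φ : R1 →ₐ[k] B) (c : B)
      (nu : J → B) (w : I → B), ev φ c nu w f = aeval nu q := by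
  rw [inc1_eq, inc2_eq] at hfg
  obtain ⟨q, hq⟩ := MG.Alg.alg h.inj2 h.he h0 hj h.ind f g hfg
  refine ⟨q, ?_⟩
  intro B _ _ φ c nu w
  rw [hq]
  have : ((ev φ c nu w : U J I R1 →ₐ[k] B) : U J I R1 →+* B).comp
      ((rename (fun j => some (Sum.inl j)) : MvPolynomial J R1 →ₐ[R1] U J I R1).toRingHom.comp
        (map (algebraMap k R1))) = (aeval nu : MvPolynomial J k →ₐ[k] B) := by
    apply MvPolynomial.ringHom_ext
    · intro r
      simp [ev]
    · intro j
      simp [ev]
  exact RingHom.congr_fun this q

end Universal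

end

end MG.Uni


end
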