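import Mathlib
import Pool.Agent.KDM.C02
import Pool.Agent.KDM.C07
import Pool.Agent.KDM.C32

/-! Parts: MG.NOD, MG.CHAK, MG.CHI, MG.DIS, MG.UNIS, MG.UNI1, MG.MVX, MG.G0.AYE, MG.G0.SBC -/

section

/-!
# NOD: constant families of smooth curves are nodal
-/

open CategoryTheory CategoryTheory.Limits AlgebraicGeometry TensorProduct
open scoped Polynomial

namespace Pool.Agent.MG

namespace NOD

/-! ### Base change of the coordinate -/

section bc

attribute [local instance] Polynomial.algebra Algebra.TensorProduct.rightAlgebra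

theorem et_bc {k K R : Type} [Field k] [Field K] [Algebra k K] [CommRing R] [Algebra k R] (x : R)
    (h : (Polynomial.aeval x : k[X] →ₐ[k] R).toRingHom.Etale) :
    (Polynomial.aeval ((1 : K) ⊗ₜ[k] x) : K[X] →ₐ[K] K ⊗[k] R).toRingHom.Etale := by
  let i1 : Algebra k[X] R := (Polynomial.aeval x : k[X] →ₐ[k] R).toRingHom.toAlgebra
  have t1 : IsScalarTower k k[X] R := .of_algebraMap_eq' (by
    ext c
    exact ((Polynomial.aeval x : k[X] →ₐ[k] R).commutes c).symm)
  let i2 : Algebra K[X] (K ⊗[k] R) :=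
    (Polynomial.aeval ((1 : K) ⊗ₜ[k] x) : K[X] →ₐ[K] K ⊗[k] R).toRingHom.toAlgebra
  have t2 : IsScalarTower K K[X] (K ⊗[k] R) := .of_algebraMap_eq' (by
    ext c
    exact ((Polynomial.aeval ((1 : K) ⊗ₜ[k] x) : K[X] →ₐ[K] K ⊗[k] R).commutes c).symm)
  let i3 : Algebra k[X] (K ⊗[k] R) :=
    ((algebraMap R (K ⊗[k] R)).comp (algebraMap k[X] R)).toAlgebra
  have t3 : IsScalarTower k[X] R (K ⊗[k] R) := .of_algebraMap_eq' rfl
  have t4 : IsScalarTower k[X] K[X] (K ⊗[k] R) := .of_algebraMap_eq' (by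
    apply Polynomial.ringHom_ext
    · intro c
      show (1 : K) ⊗ₜ[k] (Polynomial.aeval x (Polynomial.C c)) =
        Polynomial.aeval ((1 : K) ⊗ₜ[k] x) (Polynomial.mapRingHom (algebraMap k K)
          (Polynomial.C c))
      rw [Polynomial.aeval_C, Polynomial.coe_mapRingHom, Polynomial.map_C, Polynomial.aeval_C,
        Algebra.TensorProduct.algebraMap_apply, Algebra.algebraMap_eq_smul_one,
        Algebra.algebraMap_self, RingHom.id_apply, Algebra.algebraMap_eq_smul_one,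
        TensorProduct.smul_tmul]
    · show (1 : K) ⊗ₜ[k] (Polynomial.aeval x Polynomial.X) =
        Polynomial.aeval ((1 : K) ⊗ₜ[k] x) (Polynomial.mapRingHom (algebraMap k K)
          Polynomial.X)
      rw [Polynomial.aeval_X, Polynomial.coe_mapRingHom, Polynomial.map_X, Polynomial.aeval_X])
  have t5 : IsScalarTower k K[X] (K ⊗[k] R) := .to₁₃₄ k K K[X] _
  have p1 : Algebra.IsPushout k R K (K ⊗[k] R) := inferInstance
  have p2 : Algebra.IsPushout k[X] R K[X] (K ⊗[k] R) :=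
    (Algebra.IsPushout.comp_iff k k[X] K K[X]).1 p1
  exact RingHom.Etale.isStableUnderBaseChange k[X] R K[X] (K ⊗[k] R) h

end bc

/-! ### The node ring away from one branch -/

section node

variable (K : Type) [Field K]

/-- The function `u`. -/
noncomputable def uu : NodeRing K := Ideal.Quotient.mk _ (MvPolynomial.X 0)

/-- The function `v`. -/
noncomputable def vv : NodeRing K := Ideal.Quotient.mk _ (MvPolynomial.X 1)

theorem uu_vv : uu K * vv K = 0 := by
  unfold uu vv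
  rw [← map_mul, Ideal.Quotient.eq_zero_iff_mem]
  exact Ideal.subset_span rfl

/-- `u ↦ x + a`, `v ↦ 0`. -/
noncomputable def nu (a : K) : NodeRing K →ₐ[K] K[X] :=
  Ideal.Quotient.liftₐ _ (MvPolynomial.aeval ![Polynomial.X + Polynomial.C a, 0]) (by
    intro p hp
    have h : Ideal.span {(MvPolynomial.X 0 * MvPolynomial.X 1 : MvPolynomial (Fin 2) K)} ≤
        RingHom.ker (MvPolynomial.aeval ![Polynomial.X + Polynomial.C a, 0] :
          MvPolynomial (Fin 2) K →ₐ[K] K[X]) := by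
      rw [Ideal.span_le, Set.singleton_subset_iff]
      show (MvPolynomial.aeval ![Polynomial.X + Polynomial.C a, 0] :
          MvPolynomial (Fin 2) K →ₐ[K] K[X]) (MvPolynomial.X 0 * MvPolynomial.X 1) = 0
      rw [map_mul, MvPolynomial.aeval_X, MvPolynomial.aeval_X]
      simp
    exact h hp)

theorem nu_mk (a : K) (p : MvPolynomial (Fin 2) K) :
    nu K a (Ideal.Quotient.mk _ p) =
      MvPolynomial.aeval ![Polynomial.X + Polynomial.C a, 0] p := rfl

theorem nu_uu (a : K) : nu K a (uu K) = Polynomial.X + Polynomial.C a := by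
  unfold uu
  rw [nu_mk, MvPolynomial.aeval_X]
  rfl

theorem nu_vv (a : K) : nu K a (vv K) = 0 := by
  unfold vv
  rw [nu_mk, MvPolynomial.aeval_X]
  rfl

/-- `x ↦ u - a`. -/
noncomputable def mu (a : K) : K[X] →ₐ[K] NodeRing K :=
  Polynomial.aeval (uu K - algebraMap K (NodeRing K) a)

theorem nu_mu (a : K) (P : K[X]) : nu K a (mu K a P) = P := by
  have h : (nu K a).comp (mu K a) = AlgHom.id K K[X] := by
    apply Polynomial.algHom_ext
    show nu K a (mu K a Polynomial.X) = Polynomial.X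
    unfold mu
    rw [Polynomial.aeval_X, map_sub, nu_uu, AlgHom.commutes]
    show Polynomial.X + Polynomial.C a - Polynomial.C a = Polynomial.X
    ring
  exact DFunLike.congr_fun h P

theorem mu_nu_uu (a : K) : mu K a (nu K a (uu K)) = uu K := by
  rw [nu_uu]
  unfold mu
  rw [map_add, Polynomial.aeval_X, Polynomial.aeval_C]
  ring

theorem uu_mul (a : K) (z : NodeRing K) : uu K * z = uu K * mu K a (nu K a z) := by
  obtain ⟨p, rfl⟩ := Ideal.Quotient.mk_surjective z
  induction p using MvPolynomial.induction_on with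
  | C c =>
    have h : (Ideal.Quotient.mk (Ideal.span {(MvPolynomial.X 0 * MvPolynomial.X 1 :
        MvPolynomial (Fin 2) K)})) (MvPolynomial.C c) = algebraMap K (NodeRing K) c := rfl
    rw [h, AlgHom.commutes, AlgHom.commutes]
  | add p q hp hq =>
    rw [map_add, map_add, map_add, mul_add, mul_add, hp, hq]
  | mul_X p i hp =>
    rw [map_mul, map_mul, map_mul, ← mul_assoc, ← mul_assoc, hp]
    fin_cases i
    · show uu K * _ * uu K = uu K * _ * mu K a (nu K a (uu K))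
      rw [mu_nu_uu]
    · show uu K * _ * vv K = uu K * _ * mu K a (nu K a (vv K))
      rw [nu_vv, map_zero, mul_zero, mul_right_comm, uu_vv, zero_mul]

/-- The localisation of the line at `x + a`. -/
abbrev Lo (a : K) : Type := Localization.Away (Polynomial.X + Polynomial.C a : K[X])

theorem et_node (a : K) :
    ((algebraMap K[X] (Lo K a)).comp (nu K a).toRingHom).Etale := by
  let i1 : Algebra (NodeRing K) (Lo K a) :=
    ((algebraMap K[X] (Lo K a)).comp (nu K a).toRingHom).toAlgebra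
  have hs : (Polynomial.X + Polynomial.C a : K[X]) ≠ 0 := (Polynomial.monic_X_add_C a).ne_zero
  have hal : ∀ z : NodeRing K, algebraMap (NodeRing K) (Lo K a) z =
      algebraMap K[X] (Lo K a) (nu K a z) := fun _ => rfl
  have hloc : IsLocalization.Away (uu K) (Lo K a) := by
    refine (isLocalization_iff _ _).2 ⟨?_, ?_, ?_⟩
    · rintro ⟨_, m, rfl⟩
      show IsUnit (algebraMap (NodeRing K) (Lo K a) (uu K ^ m))
      rw [hal, map_pow, map_pow, nu_uu]
      exact (IsLocalization.Away.algebraMap_isUnit (S := Lo K a)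
        (Polynomial.X + Polynomial.C a : K[X])).pow m
    · intro z
      obtain ⟨m, P, hP⟩ := IsLocalization.Away.surj (Polynomial.X + Polynomial.C a : K[X]) z
      refine ⟨(mu K a P, ⟨uu K ^ m, m, rfl⟩), ?_⟩
      show z * algebraMap (NodeRing K) (Lo K a) (uu K ^ m) =
        algebraMap (NodeRing K) (Lo K a) (mu K a P)
      rw [hal, hal, nu_mu, map_pow, map_pow, nu_uu, hP]
    · intro z z' h
      rw [hal, hal] at h
      have hinj : Function.Injective (algebraMap K[X] (Lo K a)) :=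
        IsLocalization.injective (Lo K a) (powers_le_nonZeroDivisors_of_noZeroDivisors hs)
      have h1 := hinj h
      refine ⟨⟨uu K, 1, pow_one _⟩, ?_⟩
      show uu K * z = uu K * z'
      rw [uu_mul K a z, uu_mul K a z', h1]
  exact RingHom.etale_algebraMap.2 (Algebra.Etale.of_isLocalizationAway (uu K))

end node

/-! ### A chart with an étale coordinate is nodal -/

section chart

theorem etale_spMap {A B : Type} [CommRing A] [CommRing B] {φ : A →+* B} (h : φ.Etale) :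
    Etale (spMap φ) :=
  (HasRingHomProperty.Spec_iff (P := @Etale)).2 h

theorem fromSpec_coef {A : Type} [CommRing A] {X : Scheme.{0}} (π : X ⟶ Sp A) {U : X.Opens}
    (hU : IsAffineOpen U) : hU.fromSpec ≫ π = spMap (coef π U) := by
  have h := IsAffineOpen.SpecMap_appLE_fromSpec π (isAffineOpen_top (Sp A)) hU
    (show U ≤ π ⁻¹ᵁ ⊤ from le_top)
  rw [← h, IsAffineOpen.fromSpec_top, Scheme.isoSpec_Spec_inv, ← Spec.map_comp, coef_eq]
  rfl

variable {K : Type} [Field K]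

theorem nodal_chart {X : Scheme.{0}} (π : X ⟶ Sp K) {U : X.Opens} (hU : IsAffineOpen U)
    (κ : K[X] →+* Γ(X, U)) (hκ : κ.Etale) (hc : ∀ c : K, κ (Polynomial.C c) = coef π U c)
    {x : X} (hx : x ∈ U) :
    ∃ (V : Scheme.{0}) (f : V ⟶ X) (h : V ⟶ Sp (NodeRing K)),
      Etale f ∧ Etale h ∧ f ≫ π = h ≫ spMap (algebraMap K (NodeRing K)) ∧ x ∈ Set.range f := by
  -- the point of the spectrum
  obtain ⟨p, hp⟩ : x ∈ Set.range hU.fromSpec := by
    rw [hU.range_fromSpec]
    exact hx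
  -- the choice of the constant
  obtain ⟨a, ha⟩ : ∃ a : K, κ (Polynomial.X + Polynomial.C a) ∉ p.asIdeal := by
    by_cases h : κ Polynomial.X ∈ p.asIdeal
    · refine ⟨1, fun h1 => ?_⟩
      rw [map_add, Polynomial.C_1, map_one] at h1
      have h2 : (1 : Γ(X, U)) ∈ p.asIdeal := by
        have := p.asIdeal.sub_mem h1 h
        rwa [add_sub_cancel_left] at this
      exact p.isPrime.ne_top ((Ideal.eq_top_iff_one _).2 h2)
    · refine ⟨0, ?_⟩
      rwa [Polynomial.C_0, add_zero]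
  set s : Γ(X, U) := κ (Polynomial.X + Polynomial.C a) with hs
  let G : Type := Localization.Away s
  let ell : Lo K a →+* G := IsLocalization.Away.map (Lo K a) G κ (Polynomial.X + Polynomial.C a)
  have hell : ell.Etale := RingHom.Etale.propertyIsLocal.localizationAwayPreserves κ
    (Polynomial.X + Polynomial.C a) (Lo K a) G hκ
  let χ : NodeRing K →+* G := ell.comp ((algebraMap K[X] (Lo K a)).comp (nu K a).toRingHom)
  have hχ : χ.Etale := RingHom.Etale.stableUnderComposition _ _ (et_node K a) hell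
  have hχc : ∀ c : K, χ (algebraMap K (NodeRing K) c) =
      algebraMap Γ(X, U) G (coef π U c) := by
    intro c
    show ell (algebraMap K[X] (Lo K a) (nu K a (algebraMap K (NodeRing K) c))) = _
    rw [AlgHom.commutes, ← hc]
    exact IsLocalization.map_eq _ _
  have hloc : (algebraMap Γ(X, U) G).Etale :=
    RingHom.etale_algebraMap.2 (Algebra.Etale.of_isLocalizationAway s)
  refine ⟨Sp G, spMap (algebraMap Γ(X, U) G) ≫ hU.fromSpec, spMap χ, ?_, etale_spMap hχ, ?_, ?_⟩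
  · have := etale_spMap hloc
    infer_instance
  · rw [Category.assoc, fromSpec_coef, ← Spec.map_comp, ← Spec.map_comp]
    congr 1
    ext c
    exact (hχc c).symm
  · have h1 : p ∈ Set.range (PrimeSpectrum.comap (algebraMap Γ(X, U) G)) := by
      rw [PrimeSpectrum.localization_away_comap_range G s]
      exact ha
    obtain ⟨q, hq⟩ := h1
    refine ⟨q, ?_⟩
    rw [← hp, ← hq]
    rfl

end chart

end NOD

open _root_.Pool.Agent.MG.NOD in
/-- NOD: constant families over algebraically closed fields are nodal. -/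
theorem t_NOD (hCHB : Stmt_CHB) : Stmt_NOD := by
  intro n k _ C T ch K _ _ _ τ hτ x
  have haff : IsAffineHom (spMap (algebraMap k K)) := inferInstance
  have haf : IsAffineHom (pullback.fst C.π (spMap (algebraMap k K))) :=
    MorphismProperty.pullback_fst (P := @IsAffineHom) _ _ haff
  obtain ⟨c, hc⟩ := hCHB ch.ct ch.aff K τ hτ
  have hx : x ∈ c.U1 ⊔ c.U2 := by
    rw [c.cover]
    trivial
  rcases hx with hx | hx
  · have hU : IsAffineOpen c.U1 := by
      rw [← hc.h1]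
      exact @IsAffineOpen.preimage _ _ _ ch.aff.aff1 _ haf
    refine nodal_chart (constFam C K τ hτ).π hU
      (c.t1.comp (Polynomial.aeval ((1 : K) ⊗ₜ[k] T.x) : K[X] →ₐ[K] K ⊗[k] T.R1).toRingHom)
      ?_ ?_ hx
    · exact RingHom.Etale.stableUnderComposition _ _ (et_bc T.x T.etx)
        (RingHom.Etale.of_bijective c.b1)
    · intro a
      show c.t1 (Polynomial.aeval ((1 : K) ⊗ₜ[k] T.x) (Polynomial.C a)) = _
      rw [Polynomial.aeval_C, ← c.c1]
      rfl
  · have hU : IsAffineOpen c.U2 := by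
      rw [← hc.h2]
      exact @IsAffineOpen.preimage _ _ _ ch.aff.aff2 _ haf
    refine nodal_chart (constFam C K τ hτ).π hU
      (c.t2.comp (Polynomial.aeval ((1 : K) ⊗ₜ[k] T.y) : K[X] →ₐ[K] K ⊗[k] T.R2).toRingHom)
      ?_ ?_ hx
    · exact RingHom.Etale.stableUnderComposition _ _ (et_bc T.y T.ety)
        (RingHom.Etale.of_bijective c.b2)
    · intro a
      show c.t2 (Polynomial.aeval ((1 : K) ⊗ₜ[k] T.y) (Polynomial.C a)) = _
      rw [Polynomial.aeval_C, ← c.c2]
      rfl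

end Pool.Agent.MG


end

section

/-!
# CHA, CHK: arrows to constant families
-/

open CategoryTheory CategoryTheory.Limits AlgebraicGeometry TensorProduct

namespace Pool.Agent.MG

namespace CHAK

theorem spMap_comp {k B B' : Type} [Field k] [CommRing B] [Algebra k B] [CommRing B']
    [Algebra k B'] (ψ : B →ₐ[k] B') :
    spMap (ψ : B →+* B') ≫ spMap (algebraMap k B) = spMap (algebraMap k B') := by
  rw [← ψ.comp_algebraMap]
  change Spec.map _ ≫ Spec.map _ = Spec.map _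
  rw [← Spec.map_comp]
  rfl

theorem appLE_eq {X Y Z : Scheme.{0}} (f : X ⟶ Y) (g : Y ⟶ Z) (h : X ⟶ Z) (e : f ≫ g = h)
    (U : Z.Opens) (V : Y.Opens) (W : X.Opens) (e1 : V ≤ g ⁻¹ᵁ U) (e2 : W ≤ f ⁻¹ᵁ V)
    (e3 : W ≤ h ⁻¹ᵁ U) (v : Γ(Z, U)) :
    (f.appLE V W e2).hom ((g.appLE U V e1).hom v) = (h.appLE U W e3).hom v := by
  subst e
  exact ConcreteCategory.congr_hom (Scheme.Hom.appLE_comp_appLE f g U V W e1 e2) v

theorem appLE_id {X : Scheme.{0}} (U : X.Opens) (h : U ≤ (𝟙 X : X ⟶ X) ⁻¹ᵁ U) (v : Γ(X, U)) :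
    ((𝟙 X : X ⟶ X).appLE U U h).hom v = v := by
  have : (𝟙 X : X ⟶ X).appLE U U h = 𝟙 _ := by
    have := Scheme.Hom.appLE_eq_app (𝟙 X : X ⟶ X) (U := U)
    rw [Scheme.Hom.id_app] at this
    exact this
  rw [this]
  rfl

theorem main {n : ℕ} {k : Type} [Field k] {T : TC k} {C : Fam n k} (ct : Charted T C)
    (B : Type) [CommRing B] [Algebra k B] (B' : Type) [CommRing B'] [Algebra k B']
    (ψ : B →ₐ[k] B') (τ : Fin n → (Sp B ⟶ C.X))
    (hτ : ∀ i, τ i ≫ C.π = spMap (algebraMap k B))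
    (c : Charted T (constFam C B τ hτ)) (hc : IsBC ct c) (y : Fam n B') (c' : Charted T y)
    (g : y.X ⟶ C.X) (hg : IsPullback g y.π C.π (spMap (ψ : B →+* B') ≫ spMap (algebraMap k B)))
    (hs : ∀ i, y.σ i ≫ g = spMap (ψ : B →+* B') ≫ τ i)
    (h1 : g ⁻¹ᵁ ct.U1 = c'.U1) (h2 : g ⁻¹ᵁ ct.U2 = c'.U2)
    (f1 : ∀ r : T.R1, (g.appLE ct.U1 c'.U1 h1.ge).hom (ct.t1 (1 ⊗ₜ r)) = c'.t1 (1 ⊗ₜ r))
    (f2 : ∀ r : T.R2, (g.appLE ct.U2 c'.U2 h2.ge).hom (ct.t2 (1 ⊗ₜ r)) = c'.t2 (1 ⊗ₜ r))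
    (f12 : ∀ (h : c'.U1 ⊓ c'.U2 ≤ g ⁻¹ᵁ (ct.U1 ⊓ ct.U2)) (r : T.R12),
      (g.appLE (ct.U1 ⊓ ct.U2) (c'.U1 ⊓ c'.U2) h).hom (ct.t12 (1 ⊗ₜ r)) = c'.t12 (1 ⊗ₜ r)) :
    ∃ a : Arrow (ψ : B →+* B') y (constFam C B τ hτ), ChArrow a c' c := by
  have hw : g ≫ C.π = (y.π ≫ spMap (ψ : B →+* B')) ≫ spMap (algebraMap k B) := by
    rw [hg.w, Category.assoc]
  have hfst : pullback.lift g (y.π ≫ spMap (ψ : B →+* B')) hw ≫
      pullback.fst C.π (spMap (algebraMap k B)) = g := pullback.lift_fst _ _ _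
  have hsnd : pullback.lift g (y.π ≫ spMap (ψ : B →+* B')) hw ≫
      pullback.snd C.π (spMap (algebraMap k B)) = y.π ≫ spMap (ψ : B →+* B') :=
    pullback.lift_snd _ _ _
  refine ⟨{ f := pullback.lift g (y.π ≫ spMap (ψ : B →+* B')) hw
            cart := ?_
            sec := ?_ }, ?_⟩
  · refine IsPullback.of_right (h₁₂ := pullback.fst C.π (spMap (algebraMap k B)))
      (v₁₃ := C.π) (h₂₂ := spMap (algebraMap k B)) ?_ hsnd (IsPullback.of_hasPullback _ _)
    rw [hfst]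
    exact hg
  · intro i
    have hsec : y.σ i ≫ pullback.lift g (y.π ≫ spMap (ψ : B →+* B')) hw =
        spMap (ψ : B →+* B') ≫ pullback.lift (f := C.π) (g := spMap (algebraMap k B)) (τ i)
          (𝟙 (Sp B)) (by rw [hτ, Category.id_comp]) := by
      apply pullback.hom_ext
      · rw [Category.assoc, hfst, hs, Category.assoc, pullback.lift_fst]
      · rw [Category.assoc, hsnd, ← Category.assoc, y.sec, Category.id_comp, Category.assoc,
          pullback.lift_snd, Category.comp_id]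
    exact hsec
  · have k1 : (pullback.lift g (y.π ≫ spMap (ψ : B →+* B')) hw) ⁻¹ᵁ c.U1 = c'.U1 := by
      rw [← hc.h1, ← h1, ← Scheme.Hom.comp_preimage, hfst]
    have k2 : (pullback.lift g (y.π ≫ spMap (ψ : B →+* B')) hw) ⁻¹ᵁ c.U2 = c'.U2 := by
      rw [← hc.h2, ← h2, ← Scheme.Hom.comp_preimage, hfst]
    refine ⟨k1, k2, ?_, ?_, ?_⟩
    · intro r
      rw [← hc.f1 r, ← f1 r]
      exact appLE_eq _ _ _ hfst _ _ _ _ _ _ _
    · intro r
      rw [← hc.f2 r, ← f2 r]
      exact appLE_eq _ _ _ hfst _ _ _ _ _ _ _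
    · intro h r
      have e1 : c.U1 ⊓ c.U2 ≤ (pullback.fst C.π (spMap (algebraMap k B))) ⁻¹ᵁ
          (ct.U1 ⊓ ct.U2) := by
        rw [← hc.h1, ← hc.h2]
        exact le_rfl
      have e2 : c'.U1 ⊓ c'.U2 ≤ g ⁻¹ᵁ (ct.U1 ⊓ ct.U2) := by
        rw [← h1, ← h2]
        exact le_rfl
      rw [← hc.f12 e1 r, ← f12 e2 r]
      exact appLE_eq _ _ _ hfst _ _ _ _ _ _ _

end CHAK

theorem t_CHA : Stmt_CHA ∧ Stmt_CHK := by
  refine ⟨?_, ?_⟩
  · intro n k _ T C ct _ B _ _ B' _ _ ψ τ hτ τ' hτ' c c' hc hc' hh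
    refine CHAK.main ct B B' ψ τ hτ c hc (constFam C B' τ' hτ') c'
      (pullback.fst C.π (spMap (algebraMap k B'))) ?_ ?_ hc'.h1 hc'.h2 hc'.f1 hc'.f2 hc'.f12
    · rw [CHAK.spMap_comp]
      exact IsPullback.of_hasPullback _ _
    · intro i
      rw [← hh i]
      exact pullback.lift_fst _ _ _
  · intro n k _ T C ct _ B _ _ ψ τ hτ c hc hh
    have hid : spMap (ψ : B →+* k) ≫ spMap (algebraMap k B) = 𝟙 (Sp k) := by
      rw [CHAK.spMap_comp]
      exact Spec.map_id _
    refine CHAK.main ct B k ψ τ hτ c hc C ct (𝟙 C.X) ?_ ?_ rfl rfl ?_ ?_ ?_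
    · rw [hid]
      exact IsPullback.of_id_fst
    · intro i
      rw [Category.comp_id]
      exact hh i
    · intro r
      exact CHAK.appLE_id _ _ _
    · intro r
      exact CHAK.appLE_id _ _ _
    · intro h r
      exact CHAK.appLE_id _ _ _

end Pool.Agent.MG


end

section

/-!
# The sections of a constant family
-/

open CategoryTheory CategoryTheory.Limits AlgebraicGeometry TensorProduct

namespace Pool.Agent.MG

namespace CHI

section

variable {X : Scheme.{0}} {U : X.Opens} (hU : IsAffineOpen U) {A : Type} [CommRing A]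

/-- The point of an affine open given by a homomorphism. -/
noncomputable def pt (f : Γ(X, U) →+* A) : Sp A ⟶ X := spMap f ≫ hU.fromSpec

theorem top_le (f : Γ(X, U) →+* A) : ⊤ ≤ (pt hU f) ⁻¹ᵁ U := by
  have h : (pt hU f) ⁻¹ᵁ U = (spMap f) ⁻¹ᵁ (hU.fromSpec ⁻¹ᵁ U) := rfl
  rw [h, hU.fromSpec_preimage_self]
  exact le_top

theorem spMap_appLE {R : Type} [CommRing R] (f : R →+* A) :
    (Scheme.ΓSpecIso (CommRingCat.of R)).inv ≫ (spMap f).appLE ⊤ ⊤ le_top =
      CommRingCat.ofHom f ≫ (Scheme.ΓSpecIso (CommRingCat.of A)).inv := by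
  have h := (Scheme.ΓSpecIso_inv_naturality (CommRingCat.ofHom f)).symm
  rw [← h]
  congr 1

theorem pt_val (f : Γ(X, U) →+* A) (h : ⊤ ≤ (pt hU f) ⁻¹ᵁ U) (v : Γ(X, U)) :
    ((pt hU f).appLE U ⊤ h).hom v = gl A (f v) := by
  have h1 : (pt hU f).appLE U ⊤ h = CommRingCat.ofHom f ≫
      (Scheme.ΓSpecIso (CommRingCat.of A)).inv := by
    unfold pt
    rw [Scheme.Hom.comp_appLE, hU.fromSpec_app_self, Category.assoc, Scheme.Hom.map_appLE]
    exact spMap_appLE f
  rw [h1]
  rfl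

theorem eq_pt (f : Γ(X, U) →+* A) (σ : Sp A ⟶ X) (h : ⊤ ≤ σ ⁻¹ᵁ U)
    (hv : ∀ v, (σ.appLE U ⊤ h).hom v = gl A (f v)) : σ = pt hU f := by
  have h1 := hU.SpecMap_appLE_fromSpec σ (isAffineOpen_top (Sp A)) h
  rw [IsAffineOpen.fromSpec_top] at h1
  have h2 : σ.appLE U ⊤ h = CommRingCat.ofHom f ≫ (Scheme.ΓSpecIso (CommRingCat.of A)).inv := by
    ext v
    exact hv v
  rw [h2, Spec.map_comp, Category.assoc, ← Scheme.isoSpec_Spec_inv] at h1
  exact ((cancel_epi _).1 h1).symm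

theorem pt_comp {R : Type} [CommRing R] (f : Γ(X, U) →+* A) (π : X ⟶ Sp R) :
    pt hU f ≫ π = spMap (f.comp (coef π U)) := by
  have h1 := (isAffineOpen_top (Sp R)).SpecMap_appLE_fromSpec π hU (show U ≤ π ⁻¹ᵁ ⊤ from le_top)
  rw [IsAffineOpen.fromSpec_top, Scheme.isoSpec_Spec_inv, ← Spec.map_comp] at h1
  unfold pt
  rw [Category.assoc, ← h1, ← Spec.map_comp]
  rfl

theorem pt_map {B : Type} [CommRing B] (f : Γ(X, U) →+* A) (ψ : A →+* B) :
    pt hU (ψ.comp f) = spMap ψ ≫ pt hU f := by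
  unfold pt
  rw [← Category.assoc, ← Spec.map_comp]
  rfl

theorem pt_rs {V : X.Opens} (hV : IsAffineOpen V) (h : V ≤ U) (f : Γ(X, V) →+* A) :
    pt hV f = pt hU (f.comp (rs X h)) := by
  unfold pt
  rw [← hU.map_fromSpec hV (homOfLE h).op, ← Category.assoc, ← Spec.map_comp]
  rfl

end

section

variable {n : ℕ} {k : Type} [Field k] {T : TC k} {C : Fam n k} {ct : Charted T C}

/-- `Γ(U₁) → B`. -/
noncomputable def F1 (ct : Charted T C) {B : Type} [CommRing B] [Algebra k B]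
    (φ : T.R1 →ₐ[k] B) : Γ(C.X, ct.U1) →+* B :=
  (φ : T.R1 →+* B).comp ((Algebra.TensorProduct.lid k T.R1 :
      k ⊗[k] T.R1 →+* T.R1).comp (ct.eq1.symm : Γ(C.X, ct.U1) →+* k ⊗[k] T.R1))

/-- `Γ(U₂) → B`. -/
noncomputable def F2 (ct : Charted T C) {B : Type} [CommRing B] [Algebra k B]
    (φ : T.R2 →ₐ[k] B) : Γ(C.X, ct.U2) →+* B :=
  (φ : T.R2 →+* B).comp ((Algebra.TensorProduct.lid k T.R2 :
      k ⊗[k] T.R2 →+* T.R2).comp (ct.eq2.symm : Γ(C.X, ct.U2) →+* k ⊗[k] T.R2))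

/-- `Γ(U₁ ∩ U₂) → B`. -/
noncomputable def F12 (ct : Charted T C) {B : Type} [CommRing B] [Algebra k B]
    (χ : T.R12 →ₐ[k] B) : Γ(C.X, ct.U1 ⊓ ct.U2) →+* B :=
  (χ : T.R12 →+* B).comp ((Algebra.TensorProduct.lid k T.R12 :
      k ⊗[k] T.R12 →+* T.R12).comp (ct.eq12.symm : Γ(C.X, ct.U1 ⊓ ct.U2) →+* k ⊗[k] T.R12))

variable {B : Type} [CommRing B] [Algebra k B]

theorem F1_t (φ : T.R1 →ₐ[k] B) (w : k ⊗[k] T.R1) :
    F1 ct φ (ct.t1 w) = φ (Algebra.TensorProduct.lid k T.R1 w) := by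
  have h : ct.eq1.symm (ct.t1 w) = w := ct.eq1.symm_apply_apply w
  change φ (Algebra.TensorProduct.lid k T.R1 (ct.eq1.symm (ct.t1 w))) = _
  rw [h]

theorem F2_t (φ : T.R2 →ₐ[k] B) (w : k ⊗[k] T.R2) :
    F2 ct φ (ct.t2 w) = φ (Algebra.TensorProduct.lid k T.R2 w) := by
  have h : ct.eq2.symm (ct.t2 w) = w := ct.eq2.symm_apply_apply w
  change φ (Algebra.TensorProduct.lid k T.R2 (ct.eq2.symm (ct.t2 w))) = _
  rw [h]

theorem F12_t (χ : T.R12 →ₐ[k] B) (w : k ⊗[k] T.R12) :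
    F12 ct χ (ct.t12 w) = χ (Algebra.TensorProduct.lid k T.R12 w) := by
  have h : ct.eq12.symm (ct.t12 w) = w := ct.eq12.symm_apply_apply w
  change χ (Algebra.TensorProduct.lid k T.R12 (ct.eq12.symm (ct.t12 w))) = _
  rw [h]

theorem F1_coef (φ : T.R1 →ₐ[k] B) : (F1 ct φ).comp (coef C.π ct.U1) = algebraMap k B := by
  ext c
  rw [RingHom.comp_apply, ← ct.c1, F1_t]
  simp [Algebra.algebraMap_eq_smul_one]

theorem F2_coef (φ : T.R2 →ₐ[k] B) : (F2 ct φ).comp (coef C.π ct.U2) = algebraMap k B := by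
  ext c
  rw [RingHom.comp_apply, ← ct.c2, F2_t]
  simp [Algebra.algebraMap_eq_smul_one]

theorem lid_map {R R' : Type} [CommRing R] [CommRing R'] [Algebra k R] [Algebra k R']
    (j : R →ₐ[k] R') (w : k ⊗[k] R) : Algebra.TensorProduct.lid k R'
      (Algebra.TensorProduct.map (AlgHom.id k k) j w) = j (Algebra.TensorProduct.lid k R w) := by
  induction w with
  | zero => simp
  | tmul a b => simp
  | add u v hu hv => simp only [map_add, hu, hv]

theorem F12_rs1 (χ : T.R12 →ₐ[k] B) :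
    (F12 ct χ).comp (rs C.X inf_le_left) = F1 ct (χ.comp T.j1) := by
  ext v
  obtain ⟨w, rfl⟩ := ct.b1.2 v
  rw [RingHom.comp_apply, ct.rs1, F12_t, F1_t, lid_map]
  rfl

theorem F12_rs2 (χ : T.R12 →ₐ[k] B) :
    (F12 ct χ).comp (rs C.X inf_le_right) = F2 ct (χ.comp T.j2) := by
  ext v
  obtain ⟨w, rfl⟩ := ct.b2.2 v
  rw [RingHom.comp_apply, ct.rs2, F12_t, F2_t, lid_map]
  rfl

variable (ha : ct.Aff)

theorem tau_one (φ : T.R1 →ₐ[k] B) : tau ha (.one φ) = pt ha.aff1 (F1 ct φ) := rfl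

theorem tau_two (φ : T.R2 →ₐ[k] B) : tau ha (.two φ) = pt ha.aff2 (F2 ct φ) := rfl

theorem tau_chi1 (χ : T.R12 →ₐ[k] B) :
    tau ha (.one (χ.comp T.j1)) = pt ha.aff12 (F12 ct χ) := by
  rw [tau_one, pt_rs ha.aff1 ha.aff12 inf_le_left, F12_rs1]

theorem tau_chi2 (χ : T.R12 →ₐ[k] B) :
    tau ha (.two (χ.comp T.j2)) = pt ha.aff12 (F12 ct χ) := by
  rw [tau_two, pt_rs ha.aff2 ha.aff12 inf_le_right, F12_rs2]

theorem tau_pi (s : Pt T B) : tau ha s ≫ C.π = spMap (algebraMap k B) := by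
  cases s with
  | one φ => rw [tau_one, pt_comp, F1_coef]
  | two φ => rw [tau_two, pt_comp, F2_coef]

theorem tau_map {B' : Type} [CommRing B'] [Algebra k B'] (ψ : B →ₐ[k] B') (s : Pt T B) :
    tau ha (s.map ψ) = spMap (ψ : B →+* B') ≫ tau ha s := by
  cases s with
  | one φ =>
    rw [tau_one, ← pt_map]
    rfl
  | two φ =>
    rw [tau_two, ← pt_map]
    rfl

theorem tau_is (σ : Sp k ⟶ C.X) (s : Pt T k) (hσ : σ ≫ C.π = 𝟙 _) (hs : ct.Is σ s) :
    σ = tau ha s := by
  cases s with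
  | one φ =>
    rw [tau_one]
    obtain ⟨h, hv⟩ : ct.Is1 σ φ := hs
    refine eq_pt ha.aff1 _ σ h fun v => ?_
    obtain ⟨w, rfl⟩ := ct.b1.2 v
    rw [F1_t]
    refine tensor_ind (f := (σ.appLE ct.U1 ⊤ h).hom.comp ct.t1)
      (g := (gl k).comp ((φ : T.R1 →+* k).comp (Algebra.TensorProduct.lid k T.R1 :
      k ⊗[k] T.R1 →+* T.R1))) ?_ ?_ w
    · intro b
      change (σ.appLE ct.U1 ⊤ h).hom (ct.t1 (b ⊗ₜ 1)) =
        gl k (φ (Algebra.TensorProduct.lid k T.R1 (b ⊗ₜ 1)))
      rw [ct.c1, coef_comp, hσ, coef_id]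
      simp
    · intro r
      change (σ.appLE ct.U1 ⊤ h).hom (ct.t1 (1 ⊗ₜ r)) =
        gl k (φ (Algebra.TensorProduct.lid k T.R1 (1 ⊗ₜ r)))
      rw [hv]
      simp
  | two φ =>
    rw [tau_two]
    obtain ⟨h, hv⟩ : ct.Is2 σ φ := hs
    refine eq_pt ha.aff2 _ σ h fun v => ?_
    obtain ⟨w, rfl⟩ := ct.b2.2 v
    rw [F2_t]
    refine tensor_ind (f := (σ.appLE ct.U2 ⊤ h).hom.comp ct.t2)
      (g := (gl k).comp ((φ : T.R2 →+* k).comp (Algebra.TensorProduct.lid k T.R2 :
      k ⊗[k] T.R2 →+* T.R2))) ?_ ?_ w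
    · intro b
      change (σ.appLE ct.U2 ⊤ h).hom (ct.t2 (b ⊗ₜ 1)) =
        gl k (φ (Algebra.TensorProduct.lid k T.R2 (b ⊗ₜ 1)))
      rw [ct.c2, coef_comp, hσ, coef_id]
      simp
    · intro r
      change (σ.appLE ct.U2 ⊤ h).hom (ct.t2 (1 ⊗ₜ r)) =
        gl k (φ (Algebra.TensorProduct.lid k T.R2 (1 ⊗ₜ r)))
      rw [hv]
      simp

end

theorem lift_val {X Y : Scheme.{0}} {B : Type} [CommRing B] (p : Y ⟶ X) (σ : Sp B ⟶ Y)
    (τ : Sp B ⟶ X) (hτ : σ ≫ p = τ) {U : X.Opens} {V : Y.Opens} (hV : V ≤ p ⁻¹ᵁ U)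
    (h : ⊤ ≤ σ ⁻¹ᵁ V) (h' : ⊤ ≤ τ ⁻¹ᵁ U) (v : Γ(X, U)) :
    (σ.appLE V ⊤ h).hom ((p.appLE U V hV).hom v) = (τ.appLE U ⊤ h').hom v := by
  subst hτ
  exact ConcreteCategory.congr_hom (Scheme.Hom.appLE_comp_appLE σ p U V ⊤ hV h) v

end CHI

theorem t_TAU : Stmt_TAU := by
  intro n k _ T C ct ha
  refine ⟨fun B _ _ s => CHI.tau_pi ha s, fun B _ _ B' _ _ ψ s => CHI.tau_map ha ψ s,
    fun B _ _ χ => ?_, fun σ s hσ hs => CHI.tau_is ha σ s hσ hs⟩
  rw [CHI.tau_chi1, CHI.tau_chi2]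

theorem t_CHI0 : Stmt_CHI := by
  intro n k _ T C ct ha B _ _ τ hτ c hc i
  have hfst : (constFam C B τ hτ).σ i ≫ pullback.fst C.π (spMap (algebraMap k B)) = τ i :=
    pullback.lift_fst _ _ _
  constructor
  · intro s hs
    cases s with
    | one φ =>
      have h' : ⊤ ≤ (τ i) ⁻¹ᵁ ct.U1 := by
        rw [hs, CHI.tau_one]
        exact CHI.top_le ha.aff1 _
      have h : ⊤ ≤ (constFam C B τ hτ).σ i ⁻¹ᵁ c.U1 := by
        rw [← hc.h1]
        have h2 : ((constFam C B τ hτ).σ i ≫ pullback.fst C.π (spMap (algebraMap k B))) ⁻¹ᵁ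
          ct.U1 = (τ i) ⁻¹ᵁ ct.U1 := by rw [hfst]
        exact (h2 ▸ h' :)
      refine ⟨h, fun a => ?_⟩
      rw [← hc.f1 a]
      refine (CHI.lift_val _ _ _ hfst hc.h1.ge h h' _).trans ?_
      have h3 : ∀ (σ' : Sp B ⟶ C.X) (_ : σ' = tau ha (.one φ)) (h'' : ⊤ ≤ σ' ⁻¹ᵁ ct.U1),
          (σ'.appLE ct.U1 ⊤ h'').hom (ct.t1 (1 ⊗ₜ a)) = gl B (φ a) := by
        intro σ' hσ' h''
        subst hσ'
        refine (CHI.pt_val ha.aff1 (CHI.F1 ct φ) h'' _).trans ?_
        rw [CHI.F1_t]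
        simp
      exact h3 _ hs h'
    | two φ =>
      have h' : ⊤ ≤ (τ i) ⁻¹ᵁ ct.U2 := by
        rw [hs, CHI.tau_two]
        exact CHI.top_le ha.aff2 _
      have h : ⊤ ≤ (constFam C B τ hτ).σ i ⁻¹ᵁ c.U2 := by
        rw [← hc.h2]
        have h2 : ((constFam C B τ hτ).σ i ≫ pullback.fst C.π (spMap (algebraMap k B))) ⁻¹ᵁ
          ct.U2 = (τ i) ⁻¹ᵁ ct.U2 := by rw [hfst]
        exact (h2 ▸ h' :)
      refine ⟨h, fun a => ?_⟩
      rw [← hc.f2 a]
      refine (CHI.lift_val _ _ _ hfst hc.h2.ge h h' _).trans ?_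
      have h3 : ∀ (σ' : Sp B ⟶ C.X) (_ : σ' = tau ha (.two φ)) (h'' : ⊤ ≤ σ' ⁻¹ᵁ ct.U2),
          (σ'.appLE ct.U2 ⊤ h'').hom (ct.t2 (1 ⊗ₜ a)) = gl B (φ a) := by
        intro σ' hσ' h''
        subst hσ'
        refine (CHI.pt_val ha.aff2 (CHI.F2 ct φ) h'' _).trans ?_
        rw [CHI.F2_t]
        simp
      exact h3 _ hs h'
  · intro χ hs
    rw [CHI.tau_chi1] at hs
    have h' : ⊤ ≤ (τ i) ⁻¹ᵁ (ct.U1 ⊓ ct.U2) := by
      rw [hs]
      exact CHI.top_le ha.aff12 _
    have h0 : (pullback.fst C.π (spMap (algebraMap k B))) ⁻¹ᵁ (ct.U1 ⊓ ct.U2) =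
        c.U1 ⊓ c.U2 := by
      rw [← hc.h1, ← hc.h2]
      rfl
    have h : ⊤ ≤ (constFam C B τ hτ).σ i ⁻¹ᵁ (c.U1 ⊓ c.U2) := by
      rw [← h0]
      have h2 : ((constFam C B τ hτ).σ i ≫ pullback.fst C.π (spMap (algebraMap k B))) ⁻¹ᵁ
        (ct.U1 ⊓ ct.U2) = (τ i) ⁻¹ᵁ (ct.U1 ⊓ ct.U2) := by rw [hfst]
      exact (h2 ▸ h' :)
    refine ⟨h, fun a => ?_⟩
    rw [← hc.f12 h0.ge a]
    refine (CHI.lift_val _ _ _ hfst h0.ge h h' _).trans ?_
    have h3 : ∀ (σ' : Sp B ⟶ C.X) (_ : σ' = CHI.pt ha.aff12 (CHI.F12 ct χ))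
        (h'' : ⊤ ≤ σ' ⁻¹ᵁ (ct.U1 ⊓ ct.U2)),
        (σ'.appLE (ct.U1 ⊓ ct.U2) ⊤ h'').hom (ct.t12 (1 ⊗ₜ a)) = gl B (χ a) := by
      intro σ' hσ' h''
      subst hσ'
      refine (CHI.pt_val ha.aff12 _ h'' _).trans ?_
      rw [CHI.F12_t]
      simp
    exact h3 _ hs h'

theorem t_CHI : Stmt_CHI ∧ Stmt_TAU := ⟨t_CHI0, t_TAU⟩

end Pool.Agent.MG


end

section

/-!
# DIS: disjoint points of the charts
-/

open CategoryTheory CategoryTheory.Limits AlgebraicGeometry TensorProduct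

namespace Pool.Agent.MG

namespace DIS

variable {n : ℕ} {k : Type} [Field k] {T : TC k} {C : Fam n k}

/-- The homomorphism `Γ(V₁) → B` given by `φ`. -/
noncomputable def h1 (ct : Charted T C) {B : Type} [CommRing B] [Algebra k B]
    (φ : T.R1 →ₐ[k] B) : Γ(C.X, ct.U1) →+* B :=
  (φ : T.R1 →+* B).comp ((Algebra.TensorProduct.lid k T.R1 :
      k ⊗[k] T.R1 →+* T.R1).comp (ct.eq1.symm : Γ(C.X, ct.U1) →+* k ⊗[k] T.R1))

/-- The homomorphism `Γ(V₂) → B` given by `ψ`. -/
noncomputable def h2 (ct : Charted T C) {B : Type} [CommRing B] [Algebra k B]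
    (ψ : T.R2 →ₐ[k] B) : Γ(C.X, ct.U2) →+* B :=
  (ψ : T.R2 →+* B).comp ((Algebra.TensorProduct.lid k T.R2 :
      k ⊗[k] T.R2 →+* T.R2).comp (ct.eq2.symm : Γ(C.X, ct.U2) →+* k ⊗[k] T.R2))

theorem tau_one {ct : Charted T C} (ha : ct.Aff) {B : Type} [CommRing B] [Algebra k B]
    (φ : T.R1 →ₐ[k] B) : tau ha (.one φ) = spMap (h1 ct φ) ≫ ha.aff1.fromSpec := rfl

theorem tau_two {ct : Charted T C} (ha : ct.Aff) {B : Type} [CommRing B] [Algebra k B]
    (ψ : T.R2 →ₐ[k] B) : tau ha (.two ψ) = spMap (h2 ct ψ) ≫ ha.aff2.fromSpec := rfl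

theorem spMap_comp {A B D : Type} [CommRing A] [CommRing B] [CommRing D] (f : A →+* B)
    (g : B →+* D) : spMap g ≫ spMap f = spMap (g.comp f) := by
  rw [← Spec.map_comp]
  rfl

theorem h1_t1 (ct : Charted T C) {B : Type} [CommRing B] [Algebra k B]
    (φ : T.R1 →ₐ[k] B) (v : k ⊗[k] T.R1) :
    h1 ct φ (ct.t1 v) = φ (Algebra.TensorProduct.lid k T.R1 v) := by
  have h : ct.eq1.symm (ct.t1 v) = v := ct.eq1.symm_apply_apply v
  change φ (Algebra.TensorProduct.lid k T.R1 (ct.eq1.symm (ct.t1 v))) = _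
  rw [h]

theorem spMap_injective {A B : Type} [CommRing A] [CommRing B] {f g : A →+* B}
    (h : spMap f = spMap g) : f = g := by
  have h1 := Spec.map_injective h
  exact congrArg CommRingCat.Hom.hom h1

/-- A section in the first chart is the point given by the chart. -/
theorem sigma_eq (ct : Charted T C) (ha : ct.Aff) (σ : Sp k ⟶ C.X) (hσ : σ ≫ C.π = 𝟙 _)
    (φ : T.R1 →ₐ[k] k) (h : ct.Is1 σ φ) : σ = tau ha (.one φ) := by
  obtain ⟨hle, hφ⟩ := h
  have e1 := IsAffineOpen.SpecMap_appLE_fromSpec σ ha.aff1 (isAffineOpen_top (Sp k)) hle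
  have e2 : (σ.appLE ct.U1 ⊤ hle).hom = (gl k).comp (h1 ct φ) := by
    apply RingHom.ext
    intro v
    obtain ⟨w, rfl⟩ := ct.b1.2 v
    have e3 : ((σ.appLE ct.U1 ⊤ hle).hom.comp ct.t1) w = (((gl k).comp (h1 ct φ)).comp ct.t1) w := by
      refine tensor_ind (f := (σ.appLE ct.U1 ⊤ hle).hom.comp ct.t1)
        (g := ((gl k).comp (h1 ct φ)).comp ct.t1) ?_ ?_ w
      · intro b
        change (σ.appLE ct.U1 ⊤ hle).hom (ct.t1 (b ⊗ₜ 1)) = gl k (h1 ct φ (ct.t1 (b ⊗ₜ 1)))
        rw [h1_t1, ct.c1, coef_comp, hσ, coef_id]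
        congr 1
        simp
      · intro r
        change (σ.appLE ct.U1 ⊤ hle).hom (ct.t1 (1 ⊗ₜ r)) = gl k (h1 ct φ (ct.t1 (1 ⊗ₜ r)))
        rw [h1_t1, hφ]
        congr 1
        simp
    exact e3
  have e4 : σ.appLE ct.U1 ⊤ hle = CommRingCat.ofHom (h1 ct φ) ≫
      (Scheme.ΓSpecIso (CommRingCat.of k)).inv := by
    apply CommRingCat.hom_ext
    rw [e2]
    rfl
  rw [e4, Spec.map_comp, IsAffineOpen.fromSpec_top, Scheme.isoSpec_Spec_inv] at e1
  have e5 : Spec.map (Scheme.ΓSpecIso (CommRingCat.of k)).inv ≫ σ =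
      Spec.map (Scheme.ΓSpecIso (CommRingCat.of k)).inv ≫ tau ha (.one φ) := by
    rw [← e1, Category.assoc]
    rfl
  exact (cancel_epi _).1 e5

end DIS

open _root_.Pool.Agent.MG.DIS in
theorem t_DIS : Stmt_DIS := by
  intro n k _ C T ch B _ _ i
  refine ⟨?_, ?_⟩
  · intro φ hφ K _ _ s heq
    rw [tau_one, tau_one, ← Category.assoc, ← Category.assoc] at heq
    have e1 := (cancel_mono _).1 heq
    rw [spMap_comp, spMap_comp] at e1
    have e2 := spMap_injective e1
    have e3 := RingHom.congr_fun e2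
      (ch.ct.t1 (1 ⊗ₜ (T.x - algebraMap k T.R1 (ch.pt i T.x))))
    change s (h1 ch.ct φ _) = s (h1 ch.ct _ _) at e3
    rw [h1_t1, h1_t1] at e3
    have e4 : Algebra.TensorProduct.lid k T.R1
        ((1 : k) ⊗ₜ (T.x - algebraMap k T.R1 (ch.pt i T.x))) =
        T.x - algebraMap k T.R1 (ch.pt i T.x) := by simp
    rw [e4] at e3
    have e5 : ((Algebra.ofId k B).comp (ch.pt i)) (T.x - algebraMap k T.R1 (ch.pt i T.x)) = 0 := by
      simp
    rw [e5, map_zero] at e3
    exact (hφ.map s).ne_zero e3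
  · intro ψ K _ _ s heq
    have e1 : tau ch.aff (.one ((Algebra.ofId k B).comp (ch.pt i))) =
        spMap (algebraMap k B) ≫ C.σ i := by
      rw [sigma_eq ch.ct ch.aff (C.σ i) (C.sec i) (ch.pt i) (ch.is i), tau_one, tau_one,
        ← Category.assoc, spMap_comp]
      rfl
    rw [e1, tau_two, ← Category.assoc, ← Category.assoc] at heq
    let p : Sp K := Classical.choice inferInstance
    have e2 : (((spMap s ≫ spMap (h2 ch.ct ψ)) ≫ ch.aff.aff2.fromSpec) p : C.X) ∈ ch.ct.U2 := by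
      rw [Scheme.Hom.comp_apply]
      have := Set.mem_range_self (f := ch.aff.aff2.fromSpec) ((spMap s ≫ spMap (h2 ch.ct ψ)) p)
      rw [ch.aff.aff2.range_fromSpec] at this
      exact this
    rw [heq, Scheme.Hom.comp_apply] at e2
    exact ch.off i _ e2

end Pool.Agent.MG


end

section

/-!
# Proof of UNI
-/

open CategoryTheory CategoryTheory.Limits AlgebraicGeometry TensorProduct

namespace Pool.Agent.MG

theorem TC.e_mul {k : Type} [Field k] (T : TC k) (a : T.R12) (h : T.e * a = 0) : a = 0 := by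
  have h1 : a = T.dd (T.j2 T.y) * (T.e * a) := by
    rw [← mul_assoc, mul_comm (T.dd _), T.ey, one_mul]
  rw [h1, h, mul_zero]

theorem stmt_UNI : Stmt_UNI := by
  intro k _ T h1 h2 h12
  obtain ⟨ι, D, hs⟩ := _root_.MG.Uni.exists_split (i1 := T.j1) (i2 := T.j2) (e := T.e) h1 h2
    T.e_mul h12
  refine ⟨ι, D, ⟨hs.span, ?_⟩, ?_⟩
  · intro a b c h
    have hc : c = 0 := hs.ind c (-a) (-b) (by rw [map_neg, map_neg]; linear_combination h)
    subst hc
    rw [Finsupp.sum_zero_index, add_zero] at h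
    have ha : a = 0 := h12 a (-b) (by rw [map_neg]; linear_combination h)
    subst ha
    rw [map_zero, zero_add] at h
    exact ⟨map_zero _, h, rfl⟩
  · intro n B _ _ s
    constructor
    · intro ν w
      let F1 : T.R1 →ₗ[k] B := -∑ i, (LinearMap.mulLeft k (ν i)).comp (s i).l1
      let F2 : T.R2 →ₗ[k] B := ∑ i, (LinearMap.mulLeft k (ν i)).comp (s i).l2
      refine ⟨⟨hs.lift F1 F2 w, ν, ?_, ?_⟩, rfl, ?_⟩
      · intro a
        rw [hs.lift_one]
        simp [F1]
      · intro a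
        rw [hs.lift_two]
        simp [F2]
      · intro a
        exact hs.lift_D F1 F2 w a
    · intro C C' hν hμ
      have e1 : C.μ = C'.μ := by
        apply hs.ext
        · intro r
          rw [eq_neg_of_add_eq_zero_left (C.m1 r), eq_neg_of_add_eq_zero_left (C'.m1 r), hν]
        · intro r
          rw [C.m2 r, C'.m2 r, hν]
        · exact hμ
      rcases C with ⟨μ, ν, _, _⟩
      rcases C' with ⟨μ', ν', _, _⟩
      simp only at e1 hν
      subst e1
      subst hν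
      rfl

end Pool.Agent.MG


end

section

/-!
# Proof of UNI1: universal covector data in genus one (MP_cc45c1_ag)
-/

open CategoryTheory CategoryTheory.Limits AlgebraicGeometry TensorProduct

namespace Pool.Agent.MG

namespace UNI1

section

variable {k : Type} [Field k] {T : TC k}

/-- The map `(a, b) ↦ a + e b`. -/
noncomputable def Phi (T : TC k) : T.R1 × T.R2 →ₗ[k] T.R12 :=
  T.j1.toLinearMap.coprod ((LinearMap.mulLeft k T.e).comp T.j2.toLinearMap)

theorem Phi_apply (a : T.R1) (b : T.R2) : Phi T (a, b) = T.j1 a + T.e * T.j2 b := rfl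

/-- Its kernel. -/
theorem ker (E : Ell T) (h2 : Function.Injective T.j2)
    (h0 : ∀ a b, T.j1 a = T.j2 b → ∃ c : k, a = algebraMap k T.R1 c) (a : T.R1) (b : T.R2)
    (h : T.j1 a + T.e * T.j2 b = 0) : ∃ t : k, a = t • E.r0 ∧ b = -(t • E.s0) := by
  have h3 : T.j1 a = T.e * T.j2 (-b) := by
    rw [map_neg]
    linear_combination h
  obtain ⟨c, hc⟩ := Ell.one E h0 a (-b) h3
  have hc' : a = c • E.r0 := by rw [hc, Algebra.smul_def]
  refine ⟨c, hc', ?_⟩
  have h4 : T.e * (T.j2 (b + c • E.s0)) = 0 := by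
    have h5 : T.e * T.j2 b = -(c • T.j1 E.r0) := by
      rw [hc', map_smul] at h
      linear_combination h
    rw [map_add, map_smul, mul_add, h5, E.h, mul_smul_comm]
    exact neg_add_cancel _
  have h6 := T.e_mul _ h4
  have h7 : b + c • E.s0 = 0 := h2 (by rw [h6, map_zero])
  exact eq_neg_of_add_eq_zero_left h7

/-- Existence of the complement. -/
theorem exists_cpl (E : Ell T) (h2 : Function.Injective T.j2)
    (h0 : ∀ a b, T.j1 a = T.j2 b → ∃ c : k, a = algebraMap k T.R1 c) :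
    ∃ (ι : Type) (D : ι → T.R12), Cpl1 E D := by
  obtain ⟨W', hW'⟩ := Submodule.exists_isCompl (LinearMap.range (Phi T))
  let b := Module.Basis.ofVectorSpace k W'
  have key : ∀ c : (Module.Basis.ofVectorSpaceIndex k W') →₀ k,
      (c.sum fun i t => t • (b i : T.R12)) = ((Finsupp.linearCombination k b c : W') : T.R12) := by
    intro c
    rw [Finsupp.linearCombination_apply, Finsupp.sum, Finsupp.sum]
    simp
  refine ⟨_, fun i => (b i : T.R12), ⟨?_, ?_⟩⟩
  · intro x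
    have hx : x ∈ LinearMap.range (Phi T) ⊔ W' := by rw [hW'.sup_eq_top]; trivial
    obtain ⟨y, ⟨⟨r, s⟩, rfl⟩, z, hz, e1⟩ := Submodule.mem_sup.mp hx
    refine ⟨r, s, b.repr ⟨z, hz⟩, ?_⟩
    rw [key, b.linearCombination_repr, ← e1, Phi_apply]
  · intro r s c h
    rw [key] at h
    have h1 : ((Finsupp.linearCombination k b c : W') : T.R12) ∈ LinearMap.range (Phi T) := by
      refine ⟨(-r, -s), ?_⟩
      rw [Phi_apply, map_neg, map_neg]
      linear_combination -h
    have h3 : ((Finsupp.linearCombination k b c : W') : T.R12) = 0 :=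
      Submodule.disjoint_def.mp hW'.disjoint _ h1 (Subtype.mem _)
    refine ⟨linearIndependent_iff.mp b.linearIndependent c (Subtype.ext h3), ?_⟩
    rw [h3, add_zero] at h
    exact ker E h2 h0 r s h

/-- Functionals on `R12` with given values on the three parts. -/
theorem lift {E : Ell T} {ι : Type} {D : ι → T.R12} (hD : Cpl1 E D) {B : Type} [CommRing B]
    [Algebra k B] (F1 : T.R1 →ₗ[k] B) (F2 : T.R2 →ₗ[k] B) (w : ι → B)
    (hF : F1 E.r0 = F2 E.s0) :
    ∃ μ : T.R12 →ₗ[k] B, (∀ a, μ (T.j1 a) = F1 a) ∧ (∀ b, μ (T.e * T.j2 b) = F2 b) ∧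
      ∀ i, μ (D i) = w i := by
  let Ψ : (T.R1 × T.R2) × (ι →₀ k) →ₗ[k] T.R12 := (Phi T).coprod (Finsupp.linearCombination k D)
  let G : (T.R1 × T.R2) × (ι →₀ k) →ₗ[k] B :=
    (F1.coprod F2).coprod (Finsupp.linearCombination k w)
  have hs : Function.Surjective Ψ := by
    intro r
    obtain ⟨a, b, c, h⟩ := hD.gen r
    exact ⟨((a, b), c), h.symm⟩
  have hk : LinearMap.ker Ψ ≤ LinearMap.ker G := by
    rintro ⟨⟨a, b⟩, c⟩ h
    obtain ⟨h1, t, h2, h3⟩ := hD.ind a b c h
    rw [LinearMap.mem_ker]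
    change F1 a + F2 b + Finsupp.linearCombination k w c = 0
    rw [h1, h2, h3, map_zero, add_zero, map_smul, map_neg, map_smul, hF]
    exact add_neg_cancel _
  have hμ : ∀ x, ((LinearMap.ker Ψ).liftQ G hk).comp
      (Ψ.quotKerEquivOfSurjective hs).symm.toLinearMap (Ψ x) = G x := by
    intro x
    have h1 : (Ψ.quotKerEquivOfSurjective hs).symm (Ψ x) = (LinearMap.ker Ψ).mkQ x := by
      rw [LinearEquiv.symm_apply_eq]
      rfl
    rw [LinearMap.comp_apply, LinearEquiv.coe_coe, h1]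
    exact Submodule.liftQ_apply _ _ _
  refine ⟨((LinearMap.ker Ψ).liftQ G hk).comp
    (Ψ.quotKerEquivOfSurjective hs).symm.toLinearMap, ?_, ?_, ?_⟩
  · intro a
    have h1 : Ψ ((a, 0), 0) = T.j1 a := by
      change T.j1 a + T.e * T.j2 0 + Finsupp.linearCombination k D 0 = _
      rw [map_zero, map_zero, mul_zero, add_zero, add_zero]
    rw [← h1, hμ]
    change F1 a + F2 0 + Finsupp.linearCombination k w 0 = _
    rw [map_zero, map_zero, add_zero, add_zero]
  · intro b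
    have h1 : Ψ ((0, b), 0) = T.e * T.j2 b := by
      change T.j1 0 + T.e * T.j2 b + Finsupp.linearCombination k D 0 = _
      rw [map_zero, map_zero, zero_add, add_zero]
    rw [← h1, hμ]
    change F1 0 + F2 b + Finsupp.linearCombination k w 0 = _
    rw [map_zero, map_zero, zero_add, add_zero]
  · intro i
    have h1 : Ψ ((0, 0), Finsupp.single i 1) = D i := by
      change T.j1 0 + T.e * T.j2 0 + Finsupp.linearCombination k D (Finsupp.single i 1) = _
      rw [map_zero, map_zero, mul_zero, add_zero, zero_add, Finsupp.linearCombination_single,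
        one_smul]
    rw [← h1, hμ]
    change F1 0 + F2 0 + Finsupp.linearCombination k w (Finsupp.single i 1) = _
    rw [map_zero, map_zero, add_zero, zero_add, Finsupp.linearCombination_single, one_smul]

/-- Functionals are determined by their values on the three parts. -/
theorem ext {E : Ell T} {ι : Type} {D : ι → T.R12} (hD : Cpl1 E D) {B : Type} [CommRing B]
    [Algebra k B] {μ μ' : T.R12 →ₗ[k] B} (h1 : ∀ a, μ (T.j1 a) = μ' (T.j1 a))
    (h2 : ∀ b, μ (T.e * T.j2 b) = μ' (T.e * T.j2 b)) (h3 : ∀ i, μ (D i) = μ' (D i)) :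
    μ = μ' := by
  ext x
  obtain ⟨a, b, c, rfl⟩ := hD.gen x
  rw [map_add, map_add, map_add, map_add, h1, h2, Finsupp.sum, map_sum, map_sum]
  congr 1
  apply Finset.sum_congr rfl
  intro i _
  rw [map_smul, map_smul, h3]

/-- The value of the vector field at a point. -/
noncomputable def val (E : Ell T) {B : Type} [CommRing B] [Algebra k B] (p : Pt T B) : B :=
  p.l1 E.r0 + p.l2 E.s0

theorem val_unit (E : Ell T) {B : Type} [CommRing B] [Algebra k B] (p : Pt T B) :
    IsUnit (val E p) := by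
  cases p with
  | one φ =>
    have h : val E (Pt.one φ) = φ E.r0 := by
      change φ E.r0 + 0 = _
      rw [add_zero]
    rw [h]
    exact IsUnit.of_mul_eq_one (φ E.ri) (by rw [← map_mul, E.hr, map_one])
  | two ψ =>
    have h : val E (Pt.two ψ) = ψ E.s0 := by
      change 0 + ψ E.s0 = _
      rw [zero_add]
    rw [h]
    exact IsUnit.of_mul_eq_one (ψ E.si) (by rw [← map_mul, E.hs, map_one])

/-- The residue relation. -/
theorem res (E : Ell T) {n : ℕ} {B : Type} [CommRing B] [Algebra k B] {s : Fin n → Pt T B}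
    (C : CovData s) : ∑ i, C.ν i * val E (s i) = 0 := by
  have h1 := C.m1 E.r0
  have h2 := C.m2 E.s0
  rw [E.h, h2] at h1
  rw [← h1, ← Finset.sum_add_distrib]
  apply Finset.sum_congr rfl
  intro i _
  rw [val]
  ring

theorem sum_split {n : ℕ} {B : Type} [CommRing B] (i₀ : Fin n) (f : Fin n → B) :
    ∑ i, f i = f i₀ + ∑ i : {i : Fin n // i ≠ i₀}, f i.1 := by
  rw [Fintype.sum_eq_add_sum_subtype_ne f i₀]

end

end UNI1

open _root_.Pool.Agent.MG.UNI1 in
/-- **UNI1.** -/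
theorem t_UNI1 : Stmt_UNI1 := by
  intro k _ T E _ h2 h0
  obtain ⟨ι, D, hD⟩ := exists_cpl E h2 h0
  refine ⟨ι, D, hD, ?_⟩
  intro n B _ _ s i₀
  constructor
  · intro ν w
    obtain ⟨u, hu⟩ := val_unit E (s i₀)
    let S : B := ∑ i : {i : Fin n // i ≠ i₀}, ν i * val E (s i.1)
    let ν' : Fin n → B := fun i => if h : i = i₀ then -(S * (u⁻¹ : Bˣ)) else ν ⟨i, h⟩
    have hν0 : ν' i₀ = -(S * (u⁻¹ : Bˣ)) := dif_pos rfl
    have hν1 : ∀ i : {i : Fin n // i ≠ i₀}, ν' i.1 = ν i := fun i => dif_neg i.2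
    have hres : ∑ i, ν' i * val E (s i) = 0 := by
      rw [sum_split i₀ (fun i => ν' i * val E (s i)), hν0, ← hu]
      have h3 : (∑ i : {i : Fin n // i ≠ i₀}, ν' i.1 * val E (s i.1)) = S :=
        Finset.sum_congr rfl fun i _ => by rw [hν1]
      rw [h3]
      have h4 : ((u⁻¹ : Bˣ) : B) * (u : B) = 1 := Units.inv_mul u
      linear_combination -S * h4
    let F1 : T.R1 →ₗ[k] B := -∑ i, (LinearMap.mulLeft k (ν' i)).comp (s i).l1
    let F2 : T.R2 →ₗ[k] B := ∑ i, (LinearMap.mulLeft k (ν' i)).comp (s i).l2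
    have hF1 : ∀ a, F1 a = -∑ i, ν' i * (s i).l1 a := by
      intro a
      simp [F1]
    have hF2 : ∀ a, F2 a = ∑ i, ν' i * (s i).l2 a := by
      intro a
      simp [F2]
    have hF : F1 E.r0 = F2 E.s0 := by
      rw [hF1, hF2]
      have h5 : (∑ i, ν' i * (s i).l1 E.r0) + ∑ i, ν' i * (s i).l2 E.s0 = 0 := by
        rw [← hres, ← Finset.sum_add_distrib]
        apply Finset.sum_congr rfl
        intro i _
        rw [val]
        ring
      linear_combination -h5
    obtain ⟨μ, hμ1, hμ2, hμ3⟩ := UNI1.lift hD F1 F2 w hF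
    refine ⟨⟨μ, ν', ?_, ?_⟩, ?_, hμ3⟩
    · intro a
      rw [hμ1, hF1]
      exact neg_add_cancel _
    · intro a
      rw [hμ2, hF2]
    · exact hν1
  · intro C C' hν hμ
    have h0' : C.ν i₀ = C'.ν i₀ := by
      have r1 := res E C
      have r2 := res E C'
      rw [sum_split i₀ (fun i => C.ν i * val E (s i))] at r1
      rw [sum_split i₀ (fun i => C'.ν i * val E (s i))] at r2
      have h3 : (∑ i : {i : Fin n // i ≠ i₀}, C.ν i.1 * val E (s i.1)) =
          ∑ i : {i : Fin n // i ≠ i₀}, C'.ν i.1 * val E (s i.1) :=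
        Finset.sum_congr rfl fun i _ => by rw [hν i.1 i.2]
      rw [h3] at r1
      have h4 : C.ν i₀ * val E (s i₀) = C'.ν i₀ * val E (s i₀) := by
        linear_combination r1 - r2
      exact (val_unit E (s i₀)).mul_right_cancel h4
    have hν' : C.ν = C'.ν := by
      funext i
      by_cases h : i = i₀
      · rw [h, h0']
      · exact hν i h
    have e1 : C.μ = C'.μ := by
      apply UNI1.ext hD
      · intro r
        rw [eq_neg_of_add_eq_zero_left (C.m1 r), eq_neg_of_add_eq_zero_left (C'.m1 r), hν']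
      · intro r
        rw [C.m2 r, C'.m2 r, hν']
      · exact hμ
    rcases C with ⟨μ, ν, _, _⟩
    rcases C' with ⟨μ', ν', _, _⟩
    simp only at e1 hν'
    subst e1
    subst hν'
    rfl

end Pool.Agent.MG


end

section

/-!
# MVX: existence of the deformation which moves one marked point
-/

open CategoryTheory CategoryTheory.Limits AlgebraicGeometry TensorProduct

namespace Pool.Agent.MG

namespace MVX

theorem spMap_comp' {A B C : Type} [CommRing A] [CommRing B] [CommRing C] (f : A →+* B)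
    (g : B →+* C) : spMap g ≫ spMap f = spMap (g.comp f) := by
  change Spec.map _ ≫ Spec.map _ = Spec.map _
  rw [← Spec.map_comp]
  rfl

theorem spMap_id (A : Type) [CommRing A] : spMap (RingHom.id A) = 𝟙 (Sp A) := Spec.map_id _

section

variable {n : ℕ} {k : Type} [Field k]

theorem eps0_alg : (eps0 k).comp (algebraMap k (Eps k)) = RingHom.id k := by
  ext x
  rfl

theorem eps0_alg' : spMap (eps0 k) ≫ spMap (algebraMap k (Eps k)) = 𝟙 (Sp k) := by
  rw [spMap_comp', eps0_alg, spMap_id]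

theorem mov_pi {X : Scheme.{0}} {π : X ⟶ Sp k} (Φ : Flow π) (σ : Sp k ⟶ X) (hσ : σ ≫ π = 𝟙 _) :
    Φ.mov σ hσ ≫ π = spMap (algebraMap k (Eps k)) := by
  unfold Flow.mov
  rw [Category.assoc, Φ.hπ, ← Category.assoc, pullback.lift_snd, Category.id_comp]

/-- the zero section of the constant thickening -/
noncomputable def zs {X : Scheme.{0}} (π : X ⟶ Sp k) : X ⟶ XE π :=
  pullback.lift (𝟙 X) (π ≫ spMap (eps0 k)) (by
    rw [Category.id_comp, Category.assoc, eps0_alg', Category.comp_id])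

theorem zs_fst {X : Scheme.{0}} (π : X ⟶ Sp k) :
    zs π ≫ pullback.fst π (spMap (algebraMap k (Eps k))) = 𝟙 X := pullback.lift_fst _ _ _

theorem zs_snd {X : Scheme.{0}} (π : X ⟶ Sp k) :
    zs π ≫ pullback.snd π (spMap (algebraMap k (Eps k))) = π ≫ spMap (eps0 k) :=
  pullback.lift_snd _ _ _

theorem eps0_mov {X : Scheme.{0}} {π : X ⟶ Sp k} (Φ : Flow π) (σ : Sp k ⟶ X)
    (hσ : σ ≫ π = 𝟙 _) : spMap (eps0 k) ≫ Φ.mov σ hσ = σ := by
  have h0 := Φ.h0 (zs π) (zs_fst π) (zs_snd π)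
  have h1 : spMap (eps0 k) ≫ pullback.lift (f := π) (g := spMap (algebraMap k (Eps k)))
      (spMap (algebraMap k (Eps k)) ≫ σ) (𝟙 _) (by
        rw [Category.assoc, hσ, Category.comp_id, Category.id_comp]) = σ ≫ zs π := by
    apply pullback.hom_ext
    · rw [Category.assoc, pullback.lift_fst, ← Category.assoc, eps0_alg', Category.id_comp,
        Category.assoc, zs_fst, Category.comp_id]
    · rw [Category.assoc, pullback.lift_snd, Category.comp_id, Category.assoc, zs_snd,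
        ← Category.assoc, hσ, Category.id_comp]
  unfold Flow.mov
  rw [← Category.assoc, h1, Category.assoc, h0, Category.comp_id]

/-- A homomorphism from the dual numbers to a field kills `ε`. -/
theorem factor {K : Type} [Field K] (s : Eps k →+* K) :
    (s.comp (algebraMap k (Eps k))).comp (eps0 k) = s := by
  have h0 : ∀ a : k, s (TrivSqZeroExt.inr a) = 0 := by
    intro a
    have h : s (TrivSqZeroExt.inr a) * s (TrivSqZeroExt.inr a) = 0 := by
      rw [← map_mul, TrivSqZeroExt.inr_mul_inr, map_zero]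
    exact mul_self_eq_zero.1 h
  refine RingHom.ext fun z => ?_
  have hz : z = algebraMap k (Eps k) z.fst + TrivSqZeroExt.inr z.snd :=
    (TrivSqZeroExt.inl_fst_add_inr_snd_eq z).symm
  show s (algebraMap k (Eps k) z.fst) = s z
  conv_rhs => rw [hz]
  rw [map_add, h0, add_zero]

/-- the marked points of the deformation -/
noncomputable def tau' (C : Fam n k) (Φ : Flow C.π) (i : Fin n) (l : Fin n) :
    Sp (Eps k) ⟶ C.X :=
  if l = i then Φ.mov (C.σ i) (C.sec i) else spMap (algebraMap k (Eps k)) ≫ C.σ l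

theorem tau'_self (C : Fam n k) (Φ : Flow C.π) (i : Fin n) :
    tau' C Φ i i = Φ.mov (C.σ i) (C.sec i) := if_pos rfl

theorem tau'_ne (C : Fam n k) (Φ : Flow C.π) {i l : Fin n} (h : l ≠ i) :
    tau' C Φ i l = spMap (algebraMap k (Eps k)) ≫ C.σ l := if_neg h

theorem tau'_pi (C : Fam n k) (Φ : Flow C.π) (i l : Fin n) :
    tau' C Φ i l ≫ C.π = spMap (algebraMap k (Eps k)) := by
  by_cases h : l = i
  · subst h
    rw [tau'_self, mov_pi]
  · rw [tau'_ne C Φ h, Category.assoc, C.sec, Category.comp_id]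

theorem eps0_tau' (C : Fam n k) (Φ : Flow C.π) (i l : Fin n) :
    spMap (eps0 k) ≫ tau' C Φ i l = C.σ l := by
  by_cases h : l = i
  · subst h
    rw [tau'_self, eps0_mov]
  · rw [tau'_ne C Φ h, ← Category.assoc, eps0_alg', Category.id_comp]

theorem sp_tau' (C : Fam n k) (Φ : Flow C.π) (i l : Fin n) {K : Type} [Field K]
    (s : Eps k →+* K) :
    spMap s ≫ tau' C Φ i l = spMap (s.comp (algebraMap k (Eps k))) ≫ C.σ l := by
  conv_lhs => rw [← factor s]
  rw [← spMap_comp', Category.assoc, eps0_tau']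

/-- the marked points are distinct over every field -/
theorem ne_ext {T : TC k} {C : Fam n k} (ch : Cht C T) {K : Type} [Field K] [IsAlgClosed K]
    (t : k →+* K) {l m : Fin n} (h : l ≠ m) : spMap t ≫ C.σ l ≠ spMap t ≫ C.σ m := by
  have h1 : ∀ l, C.σ l = tau ch.aff (.one (ch.pt l)) := fun l =>
    (t_TAU ch.ct ch.aff).2.2.2 (C.σ l) (.one (ch.pt l)) (C.sec l) (ch.is l)
  have h2 := (t_DIS ch k m).1 (ch.pt l) ?_ K t
  · have h3 : (Algebra.ofId k k).comp (ch.pt m) = ch.pt m := by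
      ext a
      rfl
    rw [h3] at h2
    rw [h1 l, h1 m]
    exact h2
  · rw [map_sub, AlgHom.commutes]
    exact isUnit_iff_ne_zero.2 (sub_ne_zero.2 (ch.ne l m h))

/-- the curve as the fibre of the deformation at `ε = 0` -/
noncomputable def arr (C : Fam n k) (τ : Fin n → (Sp (Eps k) ⟶ C.X))
    (hτ : ∀ i, τ i ≫ C.π = spMap (algebraMap k (Eps k)))
    (h : ∀ i, spMap (eps0 k) ≫ τ i = C.σ i) :
    Arrow (eps0 k) C (constFam C (Eps k) τ hτ) where
  f := zs C.π
  cart := by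
    refine IsPullback.of_right (h₁₂ := pullback.fst C.π (spMap (algebraMap k (Eps k))))
      (v₁₃ := C.π) (h₂₂ := spMap (algebraMap k (Eps k))) ?_ (zs_snd C.π)
      (IsPullback.of_hasPullback _ _)
    rw [zs_fst, eps0_alg']
    exact IsPullback.of_id_fst
  sec i := by
    have hsec : C.σ i ≫ zs C.π = spMap (eps0 k) ≫ pullback.lift (f := C.π)
        (g := spMap (algebraMap k (Eps k))) (τ i) (𝟙 _) (by rw [hτ, Category.id_comp]) := by
      apply pullback.hom_ext
      · rw [Category.assoc, zs_fst, Category.comp_id, Category.assoc, pullback.lift_fst, h]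
      · rw [Category.assoc, zs_snd, ← Category.assoc, C.sec, Category.id_comp, Category.assoc,
          pullback.lift_snd, Category.comp_id]
    exact hsec

end

end MVX

theorem t_MVX (hCSTW : Stmt_CSTW) : Stmt_MVX := by
  intro n k _ _ g C hC hsm T ch E i j hj Φ
  have hst : IsStable g (constFam C (Eps k) (MVX.tau' C Φ i) (MVX.tau'_pi C Φ i)) := by
    refine hCSTW g C hC hsm T ch j ?_ (Eps k) (MVX.tau' C Φ i) (MVX.tau'_pi C Φ i)
      (MVX.tau'_ne C Φ hj) ?_
    · intro a b h hp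
      exact Ell.hv E ch.h0 (ch.pt j) a b h hp
    · intro K _ _ s l m hlm
      rw [MVX.sp_tau', MVX.sp_tau']
      exact MVX.ne_ext ch _ hlm
  refine ⟨⟨_, hst, MVX.arr C _ (MVX.tau'_pi C Φ i) (MVX.eps0_tau' C Φ i)⟩, ?_⟩
  refine ⟨pullback.fst C.π (spMap (algebraMap k (Eps k))), IsPullback.of_hasPullback _ _,
    MVX.zs_fst C.π, ?_, ?_⟩
  · intro l hl
    rw [← MVX.tau'_ne C Φ hl]
    exact pullback.lift_fst _ _ _
  · rw [← MVX.tau'_self]
    exact pullback.lift_fst _ _ _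

end Pool.Agent.MG


end

section

/-!
# AYE (ADD2): several disjoint formal points
-/

namespace Pool.Agent.MG.G0

namespace AYE

section crt

variable {R J : Type} [CommRing R] [Fintype J] {I : J → Ideal R}

omit [Fintype J] in
theorem cop (h : ∀ j k, j ≠ k → I j ⊔ I k = ⊤) (n : ℕ) :
    Pairwise (Function.onFun IsCoprime fun j => I j ^ n) := fun j k hjk =>
  (Ideal.isCoprime_iff_sup_eq.mpr (h j k hjk)).pow

theorem inf_pow_eq (h : ∀ j k, j ≠ k → I j ⊔ I k = ⊤) (n : ℕ) : (⨅ j, I j) ^ n = ⨅ j, I j ^ n := by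
  have h1 : ∏ j, I j = ⨅ j, I j := by
    have := Ideal.prod_eq_iInf_of_pairwise_isCoprime (s := Finset.univ) (J := I)
      (fun j _ k _ hjk => Ideal.isCoprime_iff_sup_eq.mpr (h j k hjk))
    simpa using this
  have h2 : ∏ j, I j ^ n = ⨅ j, I j ^ n := by
    have := Ideal.prod_eq_iInf_of_pairwise_isCoprime (s := Finset.univ) (J := fun j => I j ^ n)
      (fun j _ k _ hjk => cop h n hjk)
    simpa using this
  rw [← h1, ← h2, Finset.prod_pow]

theorem inf_fg (h : ∀ j k, j ≠ k → I j ⊔ I k = ⊤) (hfg : ∀ j, (I j).FG) : (⨅ j, I j).FG := by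
  have h1 : ∏ j, I j = ⨅ j, I j := by
    have := Ideal.prod_eq_iInf_of_pairwise_isCoprime (s := Finset.univ) (J := I)
      (fun j _ k _ hjk => Ideal.isCoprime_iff_sup_eq.mpr (h j k hjk))
    simpa using this
  rw [← h1]
  refine Finset.prod_induction I Ideal.FG (fun a b ha hb => ha.mul hb) ?_ (fun j _ => hfg j)
  rw [Ideal.one_eq_top]
  exact Ideal.fg_top R

end crt

section mon

variable {I A : Type} [CommRing A]

theorem mon_mul {a b : ℤ} {f g : KK I A} (hf : Mon a f) (hg : Mon b g) : Mon (a + b) (f * g) :=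
  ⟨mul_mem_Pol hf.1 hg.1, fun i => by rw [mul_Pol_lead hf.1 hg.1, hf.2, hg.2, mul_one]⟩

theorem mon_add {a b : ℤ} {f g : KK I A} (hf : Mon a f) (hg : g ∈ Pol I A b) (h : b < a) :
    Mon a (f + g) :=
  ⟨add_mem hf.1 (Pol_mono h.le hg), fun i => by
    rw [Pi.add_apply, HahnSeries.coeff_add, hf.2, hg i _ (by omega), add_zero]⟩

theorem mon_prod {J : Type} {d : ℤ} (s : Finset J) (f : J → KK I A) (hf : ∀ j ∈ s, Mon d (f j)) :
    Mon (s.card * d) (∏ j ∈ s, f j) := by
  classical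
  induction s using Finset.induction_on with
  | empty =>
    rw [Finset.card_empty, Finset.prod_empty]
    refine ⟨?_, fun i => ?_⟩
    · have := one_mem_Pol0 (I := I) (A := A)
      simpa using this
    · simp
  | insert a s ha ih =>
    rw [Finset.prod_insert ha, Finset.card_insert_of_notMem ha]
    have h1 := mon_mul (hf a (Finset.mem_insert_self a s))
      (ih fun j hj => hf j (Finset.mem_insert_of_mem hj))
    have e : ((s.card + 1 : ℕ) : ℤ) * d = d + s.card * d := by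
      push_cast
      ring
    rw [e]
    exact h1

end mon

/-- Nakayama. -/
theorem nak {R : Type} [CommRing R] {I : Ideal R} (hI : I.FG) (y : R)
    (h : ∀ r ∈ I, ∃ b, r - b * y ∈ I ^ 2) :
    ∃ e ∈ I, ∀ s ∈ I, ∃ r, (1 - e) * s = y * r := by
  have h1 : I ≤ Ideal.span {y} ⊔ I • I := fun r hr => by
    obtain ⟨b, hb⟩ := h r hr
    have e : r = b * y + (r - b * y) := by ring
    rw [e]
    refine Submodule.add_mem_sup (Ideal.mul_mem_left _ _ (Ideal.mem_span_singleton_self y)) ?_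
    rw [smul_eq_mul, ← pow_two]
    exact hb
  obtain ⟨r, hr1, hr2⟩ := Submodule.exists_sub_one_mem_and_smul_le_of_fg_of_le_sup
    (I := I) (N := Ideal.span {y}) (N' := I) (P := I) hI le_rfl h1
  refine ⟨1 - r, ?_, fun s hs => ?_⟩
  · have := I.neg_mem hr1
    rwa [neg_sub] at this
  · have h2 : r • s ∈ Ideal.span {y} := hr2 (Submodule.smul_mem_pointwise_smul s r I hs)
    obtain ⟨c, hc⟩ := Ideal.mem_span_singleton'.mp h2
    refine ⟨c, ?_⟩
    rw [sub_sub_cancel, mul_comm y c, hc]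
    rfl

end AYE

theorem t_AYE (hKNZ : Stmt_KNZ) (hAID : Stmt_AID) : Stmt_AYE := by
  classical
  intro I J A _ _ _ _ g P hP hS pt hpt
  have hfg : (Ipt pt).FG := AYE.inf_fg hpt fun j => (hAID hP hS (pt j)).1
  have hpow : ∀ (n : ℕ) (r : P), r ∈ Ipt pt ^ n ↔ ∀ j, r ∈ (pt j).id ^ n := fun n r => by
    have h1 : Ipt pt ^ n = ⨅ j, (pt j).id ^ n := AYE.inf_pow_eq hpt n
    rw [h1, Submodule.mem_iInf]
  have hcrt : ∀ (n : ℕ) (x : J → P), ∃ r : P, ∀ j, r - x j ∈ (pt j).id ^ n := fun n x =>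
    Ideal.exists_forall_sub_mem_ideal (AYE.cop hpt n) x
  have hco : ∀ (n : ℕ) (f : J → PowerSeries A), ∃ r : P,
      ∀ j, ∀ m < n, PowerSeries.coeff m ((pt j).h r) = PowerSeries.coeff m (f j) := by
    intro n f
    choose x hx using fun j => (hAID hP hS (pt j)).2.2.2 n (f j)
    obtain ⟨r, hr⟩ := hcrt n x
    refine ⟨r, fun j m hm => ?_⟩
    have h1 := ((hAID hP hS (pt j)).2.2.1 n (r - x j)).mp (hr j) m hm
    rw [map_sub, map_sub, sub_eq_zero] at h1
    rw [h1, hx j m hm]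
  refine ⟨hfg, hpow, hco, ?_⟩
  -- the elements `x_j`
  have hx0 : ∀ j, (pt j).x - algebraMap A P ((pt j).ev (pt j).x) ∈ (pt j).id := fun j => by
    rw [FPt.mem_id, FPt.ev, map_sub, map_sub, AlgHom.commutes]
    change _ - PowerSeries.constantCoeff (PowerSeries.C ((pt j).ev (pt j).x)) = 0
    rw [PowerSeries.constantCoeff_C]
    exact sub_self _
  obtain ⟨y1, hy1⟩ := hcrt 2 fun j => (pt j).x - algebraMap A P ((pt j).ev (pt j).x)
  have hy1I : ∀ j, y1 ∈ (pt j).id := fun j => by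
    have h1 := Ideal.pow_le_self two_ne_zero (hy1 j)
    have h2 := (pt j).id.add_mem h1 (hx0 j)
    rwa [sub_add_cancel] at h2
  -- a monic element
  obtain ⟨⟨N, hN⟩, hKN⟩ := hKNZ hP
  obtain ⟨n1, hn1⟩ := exists_Pol (y1 : KK I A)
  obtain ⟨z, hzP, hz⟩ := (hKN N hN).2.2 ((N : ℤ) + n1 + 1) (by omega)
  have hzc : ∀ j : J, Mon ((N : ℤ) + n1 + 1)
      ((⟨z, hzP⟩ - algebraMap A P ((pt j).ev ⟨z, hzP⟩) : P) : KK I A) := fun j => by
    have h1 := AYE.mon_add hz (algebraMap_mem_Pol0 (I := I) (-(pt j).ev ⟨z, hzP⟩)) (by omega)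
    rw [map_neg, ← sub_eq_add_neg] at h1
    exact h1
  have hzI : ∀ j : J, (⟨z, hzP⟩ - algebraMap A P ((pt j).ev ⟨z, hzP⟩) : P) ∈ (pt j).id :=
    fun j => by
    rw [FPt.mem_id, FPt.ev, map_sub, map_sub, AlgHom.commutes]
    change _ - PowerSeries.constantCoeff (PowerSeries.C ((pt j).ev ⟨z, hzP⟩)) = 0
    rw [PowerSeries.constantCoeff_C]
    exact sub_self _
  let w : P := ⟨z, hzP⟩ * ∏ j, (⟨z, hzP⟩ - algebraMap A P ((pt j).ev ⟨z, hzP⟩))
  have hwI : ∀ j, w ∈ (pt j).id := fun j => Ideal.mul_mem_left _ _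
    (Ideal.mem_of_dvd _ (Finset.dvd_prod_of_mem _ (Finset.mem_univ j)) (hzI j))
  have hwM : Mon (((N : ℤ) + n1 + 1) + (Finset.univ : Finset J).card * ((N : ℤ) + n1 + 1))
      (w : KK I A) := by
    have h1 := AYE.mon_mul hz (AYE.mon_prod (d := (N : ℤ) + n1 + 1) Finset.univ
      (fun j : J => ((⟨z, hzP⟩ - algebraMap A P ((pt j).ev ⟨z, hzP⟩) : P) : KK I A))
      fun j _ => hzc j)
    have e : (w : KK I A) = z * ∏ j : J, ((⟨z, hzP⟩ - algebraMap A P ((pt j).ev ⟨z, hzP⟩) : P) :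
        KK I A) := by
      change ((⟨z, hzP⟩ * ∏ j, (⟨z, hzP⟩ - algebraMap A P ((pt j).ev ⟨z, hzP⟩)) : P) : KK I A) = _
      rw [MulMemClass.coe_mul]
      congr 1
      exact map_prod P.val _ _
    rw [e]
    exact h1
  obtain ⟨d, hd, hwM⟩ : ∃ d : ℤ, (n1 : ℤ) + 1 ≤ d ∧ Mon d (w : KK I A) :=
    ⟨_, by
      have : (0 : ℤ) ≤ (Finset.univ : Finset J).card * ((N : ℤ) + n1 + 1) := by positivity
      omega, hwM⟩
  have hw2 : ∀ j, w ^ 2 ∈ (pt j).id ^ 2 := fun j => Ideal.pow_mem_pow (hwI j) 2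
  have hy2 : ∀ j, y1 + w ^ 2 - ((pt j).x - algebraMap A P ((pt j).ev (pt j).x)) ∈
      (pt j).id ^ 2 := fun j => by
    have h1 := Ideal.add_mem _ (hy1 j) (hw2 j)
    have e : y1 + w ^ 2 - ((pt j).x - algebraMap A P ((pt j).ev (pt j).x)) =
        y1 - ((pt j).x - algebraMap A P ((pt j).ev (pt j).x)) + w ^ 2 := by ring
    rw [e]
    exact h1
  have hyI : ∀ j, y1 + w ^ 2 ∈ (pt j).id := fun j =>
    Ideal.add_mem _ (hy1I j) (Ideal.pow_le_self two_ne_zero (hw2 j))
  have hyM : Mon (d + d) ((y1 + w ^ 2 : P) : KK I A) := by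
    have h1 := AYE.mon_add (AYE.mon_mul hwM hwM) hn1 (by omega)
    have e : ((y1 + w ^ 2 : P) : KK I A) = (w : KK I A) * w + y1 := by
      rw [AddMemClass.coe_add, SubmonoidClass.coe_pow, pow_two, add_comm]
    rw [e]
    exact h1
  have hyIpt : y1 + w ^ 2 ∈ Ipt pt := (Submodule.mem_iInf _).mpr hyI
  have hstep : ∀ r ∈ Ipt pt, ∃ b, r - b * (y1 + w ^ 2) ∈ Ipt pt ^ 2 := by
    intro r hr
    have hrj : ∀ j, r ∈ (pt j).id := (Submodule.mem_iInf _).mp hr
    choose a ha using fun j => (hAID hP hS (pt j)).2.1 1 r (by rw [pow_one]; exact hrj j)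
    obtain ⟨b, hb⟩ := hcrt 1 fun j => algebraMap A P (a j)
    refine ⟨b, (hpow 2 _).mpr fun j => ?_⟩
    have h1 := ha j
    rw [pow_one, Algebra.smul_def] at h1
    have h2 : algebraMap A P (a j) *
        (y1 + w ^ 2 - ((pt j).x - algebraMap A P ((pt j).ev (pt j).x))) ∈ (pt j).id ^ 2 :=
      Ideal.mul_mem_left _ _ (hy2 j)
    have h3 : (b - algebraMap A P (a j)) * (y1 + w ^ 2) ∈ (pt j).id ^ 2 := by
      have h4 := hb j
      rw [pow_one] at h4
      rw [pow_two]
      exact Ideal.mul_mem_mul h4 (hyI j)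
    have e : r - b * (y1 + w ^ 2) =
        (r - algebraMap A P (a j) * ((pt j).x - algebraMap A P ((pt j).ev (pt j).x))) -
        algebraMap A P (a j) *
          (y1 + w ^ 2 - ((pt j).x - algebraMap A P ((pt j).ev (pt j).x))) -
        (b - algebraMap A P (a j)) * (y1 + w ^ 2) := by ring
    rw [e]
    exact Ideal.sub_mem _ (Ideal.sub_mem _ h1 h2) h3
  obtain ⟨e, he, hes⟩ := AYE.nak hfg _ hstep
  refine ⟨y1 + w ^ 2, e, d + d, hyIpt, he, by omega, hyM, fun j => ?_, hes⟩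
  have h1 := ((hAID hP hS (pt j)).2.2.1 2 _).mp (hy2 j) 1 (by norm_num)
  rw [map_sub, map_sub, map_sub, map_sub, AlgHom.commutes, sub_eq_zero] at h1
  rw [h1]
  have h2 : PowerSeries.coeff 1 (algebraMap A (PowerSeries A) ((pt j).ev (pt j).x)) = 0 := by
    change PowerSeries.coeff 1 (PowerSeries.C ((pt j).ev (pt j).x)) = 0
    rw [PowerSeries.coeff_C, if_neg one_ne_zero]
  rw [h2, sub_zero]
  exact (pt j).par

end Pool.Agent.MG.G0


end

section

/-!
# SBC: base change, isomorphisms and localization of certificates of smoothness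
-/

open TensorProduct

namespace Pool.Agent.MG.G0

namespace SBC

section bc

variable {A B R : Type} [CommRing A] [CommRing B] [CommRing R] [Algebra A B] [Algebra A R]

/-- The base change of a derivation. -/
noncomputable def bD (D : Derivation A R R) : Derivation B (B ⊗[A] R) (B ⊗[A] R) :=
  Derivation.mk' ((D : R →ₗ[A] R).baseChange B) (by
    intro x y
    induction x using TensorProduct.induction_on with
    | zero => simp
    | add x x' hx hx' => rw [add_mul, map_add, hx, hx', map_add, add_smul, smul_add]; abel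
    | tmul b r =>
      induction y using TensorProduct.induction_on with
      | zero => simp
      | add y y' hy hy' => rw [mul_add, map_add, hy, hy', map_add, add_smul, smul_add]; abel
      | tmul c s =>
        rw [Algebra.TensorProduct.tmul_mul_tmul, LinearMap.baseChange_tmul,
          LinearMap.baseChange_tmul, LinearMap.baseChange_tmul, smul_eq_mul, smul_eq_mul,
          Algebra.TensorProduct.tmul_mul_tmul, Algebra.TensorProduct.tmul_mul_tmul,
          mul_comm c b, ← TensorProduct.tmul_add]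
        congr 1
        exact D.leibniz r s)

theorem bD_tmul (D : Derivation A R R) (b : B) (r : R) : bD D (b ⊗ₜ[A] r) = b ⊗ₜ[A] D r := rfl

/-- A derivation which vanishes on `1 ⊗ R` is zero. -/
theorem ext_one {M : Type} [AddCommGroup M] [Module B M] [Module (B ⊗[A] R) M]
    [IsScalarTower B (B ⊗[A] R) M] (E : Derivation B (B ⊗[A] R) M)
    (h : ∀ r : R, E ((1 : B) ⊗ₜ[A] r) = 0) (x : B ⊗[A] R) : E x = 0 := by
  induction x using TensorProduct.induction_on with
  | zero => exact map_zero E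
  | add x y hx hy => rw [map_add, hx, hy, add_zero]
  | tmul b r =>
    have : b ⊗ₜ[A] r = b • ((1 : B) ⊗ₜ[A] r) := by
      rw [TensorProduct.smul_tmul', smul_eq_mul, mul_one]
    rw [this, E.map_smul, h, smul_zero]

end bc

/-- The derivation `h ↦ E(f) dh - E(h) df`. -/
noncomputable def cr (A W : Type) [CommRing A] [CommRing W] [Algebra A W]
    (E : Derivation A W W) (f : W) : Derivation A W (Ω[W⁄A]) :=
  E f • KaehlerDifferential.D A W -
    (LinearMap.toSpanSingleton W (Ω[W⁄A]) (KaehlerDifferential.D A W f)).compDer E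

theorem cr_apply {A W : Type} [CommRing A] [CommRing W] [Algebra A W]
    (E : Derivation A W W) (f h : W) : cr A W E f h =
      E f • KaehlerDifferential.D A W h - E h • KaehlerDifferential.D A W f := rfl

theorem cr_symm {A W : Type} [CommRing A] [CommRing W] [Algebra A W]
    (E : Derivation A W W) (f h : W) : cr A W E f h = - cr A W E h f := by
  rw [cr_apply, cr_apply, neg_sub]

theorem toCert (hSCO : Stmt_SCO) {A R : Type} [CommRing A] [CommRing R] [Algebra A R] {n : ℕ}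
    (D : Fin n → Derivation A R R) (g : Fin n → R) (h1 : ∑ i, D i (g i) = 1)
    (h2 : ∀ i f h, cr A R (D i) f h = 0) : SmC A R :=
  (hSCO.1 D g ⟨h1, fun i f h => sub_eq_zero.1 (h2 i f h)⟩).1

attribute [local instance] Algebra.TensorProduct.rightAlgebra in
theorem part1 (hSCO : Stmt_SCO) {A B R : Type} [CommRing A] [CommRing B] [CommRing R]
    [Algebra A B] [Algebra A R] (h : SmC A R) : SmC B (B ⊗[A] R) := by
  obtain ⟨n, D, g, hc⟩ := (hSCO.2 h).1
  refine toCert hSCO (fun i => bD (D i)) (fun i => (1 : B) ⊗ₜ[A] g i) ?_ ?_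
  · simp only [bD_tmul]
    rw [← TensorProduct.tmul_sum, hc.one]
    rfl
  · intro i
    have key : ∀ f h : R, cr B (B ⊗[A] R) (bD (D i)) ((1 : B) ⊗ₜ[A] f) ((1 : B) ⊗ₜ[A] h) = 0 := by
      intro f h
      have e := congrArg (KaehlerDifferential.map A B R (B ⊗[A] R)) (hc.cross i f h)
      rw [map_smul, map_smul, KaehlerDifferential.map_D, KaehlerDifferential.map_D,
        ← algebraMap_smul (B ⊗[A] R) (D i f), ← algebraMap_smul (B ⊗[A] R) (D i h)] at e
      exact sub_eq_zero.2 e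
    have key2 : ∀ (f : R) (h : B ⊗[A] R),
        cr B (B ⊗[A] R) (bD (D i)) ((1 : B) ⊗ₜ[A] f) h = 0 :=
      fun f h => ext_one (cr B (B ⊗[A] R) (bD (D i)) ((1 : B) ⊗ₜ[A] f)) (key f) h
    intro f h
    rw [cr_symm, neg_eq_zero]
    refine ext_one (cr B (B ⊗[A] R) (bD (D i)) h) (fun r => ?_) f
    rw [cr_symm, neg_eq_zero]
    exact key2 r h

theorem part3 (hSCO : Stmt_SCO) (hLOC : Stmt_LOC) {A R W : Type} [CommRing A] [CommRing R]
    [CommRing W] [Algebra A R] [Algebra A W] [Algebra R W] [IsScalarTower A R W] (hE : Ep R W)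
    (h : SmC A R) : SmC A W := by
  obtain ⟨n, D, g, hc⟩ := (hSCO.2 h).1
  choose E hE1 hE2 using fun i => hLOC hE W ((Algebra.linearMap R W).compDer (D i))
  have uni : ∀ F : Derivation A W (Ω[W⁄A]), (∀ r : R, F (algebraMap R W r) = 0) →
      ∀ w, F w = 0 := by
    intro F hF w
    obtain ⟨G, hG1, hG2⟩ := hLOC hE (Ω[W⁄A]) (0 : Derivation A R (Ω[W⁄A]))
    have e1 : F = G := hG2 F (fun r => hF r)
    have e2 : (0 : Derivation A W (Ω[W⁄A])) = G := hG2 0 (fun r => rfl)
    rw [e1, ← e2]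
    rfl
  refine toCert hSCO E (fun i => algebraMap R W (g i)) ?_ ?_
  · have h1 : ∀ i, E i (algebraMap R W (g i)) = algebraMap R W (D i (g i)) :=
      fun i => hE1 i (g i)
    simp only [h1]
    rw [← map_sum, hc.one, map_one]
  · intro i
    have key : ∀ f h : R, cr A W (E i) (algebraMap R W f) (algebraMap R W h) = 0 := by
      intro f h
      have e := congrArg (KaehlerDifferential.map A A R W) (hc.cross i f h)
      rw [map_smul, map_smul, KaehlerDifferential.map_D, KaehlerDifferential.map_D,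
        ← algebraMap_smul W (D i f), ← algebraMap_smul W (D i h)] at e
      have e1 : E i (algebraMap R W f) = algebraMap R W (D i f) := hE1 i f
      have e2 : E i (algebraMap R W h) = algebraMap R W (D i h) := hE1 i h
      rw [cr_apply, e1, e2]
      exact sub_eq_zero.2 e
    have key2 : ∀ (f : R) (h : W), cr A W (E i) (algebraMap R W f) h = 0 :=
      fun f h => uni (cr A W (E i) (algebraMap R W f)) (key f) h
    intro f h
    rw [cr_symm, neg_eq_zero]
    refine uni (cr A W (E i) h) (fun r => ?_) f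
    rw [cr_symm, neg_eq_zero]
    exact key2 r h

theorem part2 (hSCO : Stmt_SCO) (hLOC : Stmt_LOC) {A R R' : Type} [CommRing A] [CommRing R]
    [CommRing R'] [Algebra A R] [Algebra A R'] (e : R ≃ₐ[A] R') (h : SmC A R) : SmC A R' := by
  letI : Algebra R R' := (e : R →+* R').toAlgebra
  have hm : ∀ r, algebraMap R R' r = e r := fun r => rfl
  haveI : IsScalarTower A R R' := IsScalarTower.of_algebraMap_eq fun a => by
    rw [hm]
    exact (e.commutes a).symm
  refine part3 hSCO hLOC (R := R) (W := R') ⟨e.injective, fun w => ?_⟩ h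
  refine ⟨1, fun _ => 1, fun _ => 1, ?_, fun _ => ⟨e.symm w, ?_⟩⟩
  · simp
  · rw [map_one, one_mul, hm, e.apply_symm_apply]

end SBC

theorem t_SBC (hSCO : Stmt_SCO) (hLOC : Stmt_LOC) : Stmt_SBC :=
  ⟨fun h => SBC.part1 hSCO h, fun e h => SBC.part2 hSCO hLOC e h,
    fun hE h => SBC.part3 hSCO hLOC hE h⟩

end Pool.Agent.MG.G0


end
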