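import Mathlib
import Pool.Agent.KDM.C02

/-! Parts: MG.G0.Plumb, MG.G0.StmtsNP, MG.G0.StmtsNB, MG.G0.NLI, MG.G0.NNK, MG.G0.NPO, MG.G0.SDN, MG.G0.StmtsTG, MG.G0.TG.TGC, MG.G0.TG.TWT -/

section

/-!
# Plumbing (PAPER.md, LOG): definitions
-/

namespace Pool.Agent.MG.G0

section

variable {A : Type} [CommRing A]

/-- `F = (f, g)` is a function on the annulus `u v = t`: `f_{-j} = t^j g_j`, `g_{-j} = t^j f_j`. -/
def InNt (t : A) (F : KK Bool A) : Prop :=
  ∀ (b : Bool) (j : ℕ), (F b).coeff (-(j : ℤ)) = t ^ j * (F (!b)).coeff j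

theorem InNt.mul {t : A} {F G : KK Bool A} (hF : InNt t F) (hG : InNt t G) : InNt t (F * G) := by
  intro b j
  obtain ⟨N, hN⟩ := exists_Pol F
  obtain ⟨M, hM⟩ := exists_Pol G
  set K : ℤ := max N M with hK
  have f1 : ∀ b, ∀ m < -K, (F b).coeff m = 0 := fun b m hm => hN b m (by omega)
  have g1 : ∀ b, ∀ m < -K, (G b).coeff m = 0 := fun b m hm => hM b m (by omega)
  have key : ∀ i : ℤ, (F b).coeff i * (G b).coeff (-(j : ℤ) - i) =
      t ^ j * ((F (!b)).coeff (-i) * (G (!b)).coeff (j - -i)) := by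
    intro i
    have e : (j : ℤ) - -i = j + i := by ring
    rw [e]
    rcases le_total 0 i with h | h
    · obtain ⟨a, rfl⟩ := Int.eq_ofNat_of_zero_le h
      have h1 := hF (!b) a
      rw [Bool.not_not] at h1
      have h2 := hG b (j + a)
      have e2 : -(j : ℤ) - (a : ℤ) = -((j + a : ℕ) : ℤ) := by push_cast; ring
      have e3 : (j : ℤ) + (a : ℤ) = ((j + a : ℕ) : ℤ) := by push_cast; ring
      rw [e2, h2, h1, e3, pow_add]
      ring
    · obtain ⟨a, ha⟩ := Int.eq_ofNat_of_zero_le (neg_nonneg.2 h)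
      have hi : i = -(a : ℤ) := by omega
      subst hi
      have h1 := hF b a
      rcases le_total (j : ℤ) a with h3 | h3
      · obtain ⟨c, hc⟩ := Int.eq_ofNat_of_zero_le (sub_nonneg.2 h3)
        have h2 := hG (!b) c
        rw [Bool.not_not] at h2
        have e2 : -(j : ℤ) - -(a : ℤ) = (c : ℤ) := by omega
        have e3 : (j : ℤ) + -(a : ℤ) = -(c : ℤ) := by omega
        have e4 : a = j + c := by omega
        rw [e2, h1, neg_neg, e3, h2, e4, pow_add]
        ring
      · obtain ⟨c, hc⟩ := Int.eq_ofNat_of_zero_le (sub_nonneg.2 h3)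
        have h2 := hG b c
        have e2 : -(j : ℤ) - -(a : ℤ) = -(c : ℤ) := by omega
        have e3 : (j : ℤ) + -(a : ℤ) = (c : ℤ) := by omega
        have e4 : j = a + c := by omega
        rw [e2, h1, neg_neg, e3, h2, e4, pow_add]
        ring
  rw [Pi.mul_apply, Pi.mul_apply, coeff_mul_Icc (f1 b) (g1 b), coeff_mul_Icc (f1 (!b)) (g1 (!b)),
    Finset.mul_sum]
  have s1 : ∑ i ∈ Finset.Icc (-K) (-(j : ℤ) - -K), (F b).coeff i * (G b).coeff (-(j : ℤ) - i) =
      ∑ i ∈ Finset.Icc (-(j : ℤ) - K) K, (F b).coeff i * (G b).coeff (-(j : ℤ) - i) := by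
    refine Finset.sum_subset (fun i hi => ?_) fun i hi hi' => ?_
    · simp only [Finset.mem_Icc] at hi ⊢
      omega
    · simp only [Finset.mem_Icc] at hi hi'
      rcases lt_or_ge i (-K) with h | h
      · rw [f1 b i h, zero_mul]
      · rw [g1 b _ (by omega), mul_zero]
  rw [s1]
  refine Finset.sum_nbij' (fun i => -i) (fun i => -i) ?_ ?_ ?_ ?_ ?_
  · intro i hi
    simp only [Finset.mem_Icc] at hi ⊢
    omega
  · intro i hi
    simp only [Finset.mem_Icc] at hi ⊢
    omega
  · intro i _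
    exact neg_neg i
  · intro i _
    exact neg_neg i
  · intro i _
    exact key i

/-- The functions on the annulus `u v = t`. -/
def Nt (t : A) : Subalgebra A (KK Bool A) where
  carrier := {F | InNt t F}
  mul_mem' hF hG := hF.mul hG
  add_mem' {F G} hF hG b j := by
    rw [Pi.add_apply, HahnSeries.coeff_add, hF b j, hG b j, Pi.add_apply, HahnSeries.coeff_add,
      mul_add]
  algebraMap_mem' a b j := by
    rw [Pi.algebraMap_apply, Pi.algebraMap_apply, coeff_algebraMap, coeff_algebraMap]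
    by_cases h : j = 0
    · subst h
      simp
    · rw [if_neg (by omega), if_neg (by omega), mul_zero]

theorem mem_Nt {t : A} {F : KK Bool A} :
    F ∈ Nt t ↔ ∀ (b : Bool) (j : ℕ), (F b).coeff (-(j : ℤ)) = t ^ j * (F (!b)).coeff j := Iff.rfl

/-- The components at the old punctures. -/
def atI {I J : Type} (w : KK (I ⊕ J) A) : KK I A := fun i => w (Sum.inl i)

/-- The components at the new punctures. -/
def atJ {I J : Type} (w : KK (I ⊕ J) A) : KK J A := fun j => w (Sum.inr j)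

/-- The plumbed ring `P_t`: the functions on the curve which is obtained by plumbing the two
formal points of `R` with the annulus `u v = t`. -/
def PT {I : Type} {R : Subalgebra A (KK I A)} (pt : Bool → FPt R) (t : A) :
    Subalgebra A (KK I A) where
  carrier := {f | ∃ w ∈ WJ pt, atI w = f ∧ atJ w ∈ Nt t}
  mul_mem' := by
    rintro f g ⟨w, hw, rfl, h⟩ ⟨v, hv, rfl, h'⟩
    exact ⟨w * v, mul_mem hw hv, rfl, mul_mem h h'⟩
  add_mem' := by
    rintro f g ⟨w, hw, rfl, h⟩ ⟨v, hv, rfl, h'⟩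
    exact ⟨w + v, add_mem hw hv, rfl, add_mem h h'⟩
  algebraMap_mem' a := ⟨algebraMap A _ a, (WJ pt).algebraMap_mem a, rfl,
    (Nt t).algebraMap_mem a⟩

theorem mem_PT {I : Type} {R : Subalgebra A (KK I A)} {pt : Bool → FPt R} {t : A} {f : KK I A} :
    f ∈ PT pt t ↔ ∃ w ∈ WJ pt, atI w = f ∧ atJ w ∈ Nt t := Iff.rfl

/-- Rescaling of the parameter of a formal point: `u ↦ c u`. -/
noncomputable def FPt.resc {I : Type} {R : Subalgebra A (KK I A)} (p : FPt R) (c : Aˣ) :
    FPt R where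
  h :=
    { toRingHom := (PowerSeries.rescale (c : A)).comp (p.h : R →+* PowerSeries A)
      commutes' := fun a => by
        change PowerSeries.rescale (c : A) (p.h (algebraMap A R a)) = _
        rw [AlgHom.commutes]
        ext n
        rw [PowerSeries.coeff_rescale, PowerSeries.algebraMap_apply, Algebra.algebraMap_self,
          RingHom.id_apply, PowerSeries.coeff_C]
        split_ifs with h
        · rw [h, pow_zero, one_mul]
        · rw [mul_zero] }
  x := p.x
  par := by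
    change IsUnit (PowerSeries.coeff 1 (PowerSeries.rescale (c : A) (p.h p.x)))
    rw [PowerSeries.coeff_rescale, pow_one]
    exact c.isUnit.mul p.par

/-- The functions `u` (`b = true`) and `v` (`b = false`) on the annulus `u v = t`. -/
noncomputable def uv (t : A) (b : Bool) : KK Bool A := fun b' =>
  if b' = b then HahnSeries.single 1 1 else HahnSeries.single (-1) t

/-- The differential `du / u = - dv / v`. -/
noncomputable def vp (A : Type) [CommRing A] : KK Bool A := fun b =>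
  HahnSeries.single (-1) (if b then 1 else -1)

/-- `G` is the derivative of the function `F` on the annulus with respect to the variable `u`
(`b = true`) or `v` (`b = false`): for `F = ∑ a_j u^j + ∑ b_j v^j` the derivatives are
`∑ j a_j u^(j-1)` and `∑ j b_j v^(j-1)`. -/
structure IsPd (t : A) (b : Bool) (F G : KK Bool A) : Prop where
  mem : G ∈ Nt t
  pos : ∀ m : ℕ, (G b).coeff m = (m + 1 : A) * (F b).coeff (m + 1)
  neg : ∀ m : ℕ, 1 ≤ m → (G (!b)).coeff m = 0

/-- A derivation of `P` with values in `KK/P`, lifted to a map with values in `KK`. -/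
structure RDer {I : Type} (P : Subalgebra A (KK I A)) (D : P → KK I A) : Prop where
  add : ∀ f g : P, D (f + g) - D f - D g ∈ P
  smul : ∀ (a : A) (f : P), D (a • f) - a • D f ∈ P
  mul : ∀ f g : P, D (f * g) - (f : KK I A) * D g - (g : KK I A) * D f ∈ P

/-- `ρ` is the residue of the differential `η` (regular on the nodal curve `u v = 0`) at the first
formal point. -/
def IsRho {I : Type} [Fintype I] {R : Subalgebra A (KK I A)} (pt : Bool → FPt R) (η : KK I A)
    (ρ : A) : Prop :=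
  ∀ r : R, res (η * (r : KK I A)) = -(ρ * ((pt true).ev r - (pt false).ev r))

/-- The formal point `p'` of `P` is the restriction of the formal point `p` of `Q`. -/
def FPt.Rs {I J : Type} {Q : Subalgebra A (KK (I ⊕ J) A)} {P : Subalgebra A (KK I A)} (p : FPt Q)
    (p' : FPt P) : Prop :=
  ∀ (w : Q) (f : P), atI (w : KK (I ⊕ J) A) = f → atJ (w : KK (I ⊕ J) A) ∈ Pol J A 0 →
    p'.h f = p.h w

end

end Pool.Agent.MG.G0


end

section

/-!
# Statements on nodal reductions (PAPER.md, NP, TC1)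
-/

open Polynomial

namespace Pool.Agent.MG.G0

/-- NPG: normalization of a node (over a field), algebraic part. -/
def Stmt_NPG : Prop :=
  ∀ {κ : Type} [Field κ] [IsAlgClosed κ] {g d : ℕ} {P : Subalgebra κ (LaurentSeries κ)}
    {f h : κ[X]} {c : κ}, 2 ≤ d → ((d.factorial : ℕ) : κ) ≠ 0 → Kr (g + 1) P → zz κ d ∈ P →
    Disc d P f → f = (X - C c) ^ 2 * h → h.eval c ≠ 0 → GRk d P c (d - 1) →
    ∃ R : Subalgebra κ (LaurentSeries κ), Kr g R ∧ P ≤ R ∧ Disc d R h ∧
      ∃ p q : R →ₐ[κ] κ, p ≠ q ∧ (∀ x : R, (x : LaurentSeries κ) ∈ P ↔ p x = q x) ∧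
        ∀ z : R, (z : LaurentSeries κ) = zz κ d → p z = c ∧ q z = c

/-- NPA: normalization of a node (over a field): formal points. -/
def Stmt_NPA : Prop :=
  ∀ {κ : Type} [Field κ] [IsAlgClosed κ] {g d : ℕ} {P : Subalgebra κ (LaurentSeries κ)}
    {f h : κ[X]} {c : κ}, 2 ≤ d → ((d.factorial : ℕ) : κ) ≠ 0 → Kr (g + 1) P → zz κ d ∈ P →
    Disc d P f → f = (X - C c) ^ 2 * h → h.Separable → h.eval c ≠ 0 → GRk d P c (d - 1) →
    ∃ R : Subalgebra κ (LaurentSeries κ), Kr g R ∧ P ≤ R ∧ Disc d R h ∧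
      Algebra.FormallySmooth κ (uno R) ∧ SmC κ (uno R) ∧ ∃ pt : Bool → FPt (uno R), Disj pt ∧
        (∀ (b : Bool) (z : uno R), (z : KK Unit κ) () = zz κ d →
          (pt b).h z = PowerSeries.C c + PowerSeries.X) ∧
        PT pt 0 = uno P

/-- NPB: the local structure at the node over an artinian base. -/
def Stmt_NPB : Prop :=
  ∀ {κ A : Type} [Field κ] [IsAlgClosed κ] [CommRing A] [Algebra κ A] (rs : A →ₐ[κ] κ) {g d : ℕ}
    {P : Subalgebra A (LaurentSeries A)} {h : A[X]} {s t : A}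
    {R : Subalgebra κ (LaurentSeries κ)} (pt : Bool → FPt (uno R)),
    (∃ n : ℕ, RingHom.ker (rs : A →+* κ) ^ n = ⊥) → 2 ≤ d → ((d.factorial : ℕ) : κ) ≠ 0 →
    Kr (g + 1) P → zz A d ∈ P → Disc d P (((X - C s) ^ 2 - C (4 * t)) * h) → rs t = 0 →
    (h.map (rs : A →+* κ)).Separable → (h.map (rs : A →+* κ)).eval (rs s) ≠ 0 →
    GRk d (bc1 (rs : A →+* κ) P) (rs s) (d - 1) →
    Kr g R → bc1 (rs : A →+* κ) P ≤ R → Disc d R (h.map (rs : A →+* κ)) →
    Algebra.FormallySmooth κ (uno R) → SmC κ (uno R) → Disj pt →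
    (∀ (b : Bool) (z : uno R), (z : KK Unit κ) () = zz κ d →
      (pt b).h z = PowerSeries.C (rs s) + PowerSeries.X) →
    PT pt 0 = uno (bc1 (rs : A →+* κ) P) →
    ∃ j : uno P →ₐ[A] KK Bool A, (∀ p, j p ∈ Nt t) ∧
      (∀ z : uno P, (z : KK Unit A) () = zz A d →
        j z = algebraMap A (KK Bool A) s + uv t true + uv t false) ∧
      ∀ (p : uno P) (r : uno R), (r : KK Unit κ) = kmap (rs : A →+* κ) (p : KK Unit A) →
        ∀ b, lmap (rs : A →+* κ) (j p b) = psl κ ((pt b).h r)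

/-- TCA (TC1): deformations of smooth Krichever rings. -/
def Stmt_TCA : Prop :=
  ∀ {I κ A : Type} [Fintype I] [Nonempty I] [Field κ] [CommRing A] [Algebra κ A]
    (rs : A →ₐ[κ] κ) {g : ℕ} {R : Subalgebra A (KK I A)},
    (∃ n : ℕ, RingHom.ker (rs : A →+* κ) ^ n = ⊥) → IsKr g R →
    Algebra.FormallySmooth κ (bc (rs : A →+* κ) R) → SmC κ (bc (rs : A →+* κ) R) →
    Algebra.FormallySmooth A R ∧ SmC A R ∧
      (IsAlgClosed κ → (RingHom.ker (rs : A →+* κ)).FG → Dual R)

/-- NPY: approximation at the node: an element `y` of `P` with `j y = (u^N a, v^N b)`, `a`, `b`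
units, and for all `L` an element `e` (zero to high order at the node) such that `(1 - e) q` is
divisible by `y^L` if `j q` is divisible by `(j y)^L`. -/
def Stmt_NPY : Prop :=
  ∀ {I κ A : Type} [Fintype I] [Nonempty I] [Field κ] [CommRing A] [Algebra κ A]
    (rs : A →ₐ[κ] κ) {g : ℕ} {P : Subalgebra A (KK I A)} {R₀ : Subalgebra κ (KK I κ)}
    (pt₀ : Bool → FPt R₀) {t : A} (j : P →ₐ[A] KK Bool A),
    (∃ n : ℕ, RingHom.ker (rs : A →+* κ) ^ n = ⊥) → IsKr (g + 1) P → IsKr g R₀ →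
    Algebra.FormallySmooth κ R₀ → SmC κ R₀ → Disj pt₀ → rs t = 0 →
    PT pt₀ 0 = bc (rs : A →+* κ) P → (∀ p, j p ∈ Nt t) →
    (∀ (p : P) (r : R₀), (r : KK I κ) = kmap (rs : A →+* κ) (p : KK I A) → ∀ b,
      lmap (rs : A →+* κ) (j p b) = psl κ ((pt₀ b).h r)) →
    (∀ F ∈ Nt t, ∀ m : ℕ, ∃ p : P, j p - F ∈ Pol Bool A (-(m : ℤ))) ∧
    ∃ (N : ℕ) (y : P), 1 ≤ N ∧ t ^ N = 0 ∧ IsUnit (y : KK I A) ∧
      (∀ b, ∃ a : PowerSeries A, IsUnit a ∧ j y b = HahnSeries.single (N : ℤ) 1 * psl A a) ∧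
      ∀ L : ℕ, ∃ e : P, (∃ F ∈ Nt t, j e = j y ^ L * F) ∧
        ∀ q : P, (∃ F ∈ Nt t, j q = j y ^ L * F) → ∃ r : P, (1 - e) * q = y ^ L * r

/-- NPC: a deformation of a nodal curve is obtained by plumbing. -/
def Stmt_NPC : Prop :=
  ∀ {I κ A : Type} [Fintype I] [Nonempty I] [Field κ] [CommRing A] [Algebra κ A]
    (rs : A →ₐ[κ] κ) {g : ℕ} {P : Subalgebra A (KK I A)} {R₀ : Subalgebra κ (KK I κ)}
    (pt₀ : Bool → FPt R₀) {t : A} (j : P →ₐ[A] KK Bool A),
    (∃ n : ℕ, RingHom.ker (rs : A →+* κ) ^ n = ⊥) → IsKr (g + 1) P → IsKr g R₀ →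
    Algebra.FormallySmooth κ R₀ → SmC κ R₀ → Disj pt₀ → rs t = 0 →
    PT pt₀ 0 = bc (rs : A →+* κ) P → (∀ p, j p ∈ Nt t) →
    (∀ (p : P) (r : R₀), (r : KK I κ) = kmap (rs : A →+* κ) (p : KK I A) → ∀ b,
      lmap (rs : A →+* κ) (j p b) = psl κ ((pt₀ b).h r)) →
    ∃ R : Subalgebra A (KK I A), IsKr g R ∧ bc (rs : A →+* κ) R = R₀ ∧
      Algebra.FormallySmooth A R ∧ SmC A R ∧ ∃ pt : Bool → FPt R, Disj pt ∧ PT pt t = P

/-- NPL: the plumbing structure of a Krichever ring with nodal reduction. -/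
def Stmt_NPL : Prop :=
  ∀ {κ A : Type} [Field κ] [IsAlgClosed κ] [CommRing A] [Algebra κ A] (rs : A →ₐ[κ] κ) {g d : ℕ}
    {P : Subalgebra A (LaurentSeries A)} {h : A[X]} {s t : A},
    (∃ n : ℕ, RingHom.ker (rs : A →+* κ) ^ n = ⊥) → (RingHom.ker (rs : A →+* κ)).FG →
    2 ≤ d → ((d.factorial : ℕ) : κ) ≠ 0 → Kr (g + 1) P → zz A d ∈ P →
    Disc d P (((X - C s) ^ 2 - C (4 * t)) * h) → rs t = 0 →
    (h.map (rs : A →+* κ)).Separable → (h.map (rs : A →+* κ)).eval (rs s) ≠ 0 →
    GRk d (bc1 (rs : A →+* κ) P) (rs s) (d - 1) →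
    ∃ R : Subalgebra A (KK Unit A), IsKr g R ∧ Algebra.FormallySmooth A R ∧ SmC A R ∧ Dual R ∧
      ∃ pt : Bool → FPt R, Disj pt ∧ PT pt t = uno P

end Pool.Agent.MG.G0


end

section

/-!
# The local structure at a node over an artinian base: statements (PAPER_NB.md)
-/

open Polynomial

namespace Pool.Agent.MG.G0

/-- `A[z] → A((s))`, `z ↦ c + s`. -/
noncomputable def zev {A : Type} [CommRing A] (c : A) : A[X] →ₐ[A] LaurentSeries A :=
  Polynomial.aeval (algebraMap A (LaurentSeries A) c + HahnSeries.single 1 1)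

/-- NEL: étale lifting. -/
def Stmt_NEL : Prop :=
  ∀ {Λ P B C ι : Type} [CommRing Λ] [CommRing P] [CommRing B] [CommRing C] [Fintype ι]
    (i : Λ →+* P) (φ : Λ →+* B) (e c : ι → P) (q : P) (ρ : B →+* C) (ψ : P →+* C),
    (∀ x : P, ∃! a : ι → Λ, x = ∑ k, i (a k) * e k) → ∑ k, e k * c k = q →
    (∀ (x : P) (H : ι → ι → Λ), (∀ k, x * e k = ∑ l, i (H l k) * e l) →
      ∀ l, x * c l = ∑ k, i (H l k) * c k) →
    Function.Surjective ρ → (∃ n : ℕ, RingHom.ker ρ ^ n = ⊥) → (∀ a : Λ, ψ (i a) = ρ (φ a)) →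
    IsUnit (ψ q) → ∃ Ψ : P →+* B, (∀ a, Ψ (i a) = φ a) ∧ ∀ x, ρ (Ψ x) = ψ x

/-- NDB: the dual basis over a ring. -/
def Stmt_NDB : Prop :=
  ∀ {A : Type} [CommRing A] {g d : ℕ}, 0 < d → ∀ P : Subalgebra A (LaurentSeries A), Kr g P →
    zz A d ∈ P → ∀ (e : Fin d → LaurentSeries A) (G : Matrix (Fin d) (Fin d) A[X]),
    ZBas d P e → ZGram d e G → ∃ c : Fin d → LaurentSeries A, (∀ k, c k ∈ P) ∧
      ∑ k, e k * c k = (d : LaurentSeries A) * zpol A d G.det ∧
      ∀ x ∈ P, ∀ H : Fin d → Fin d → A[X], (∀ k, x * e k = ∑ l, zpol A d (H l k) * e l) →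
        ∀ l, x * c l = ∑ k, zpol A d (H l k) * c k

/-- NLI: expansions over `z ↦ c + s` lift. -/
def Stmt_NLI : Prop :=
  ∀ {κ A : Type} [Field κ] [CommRing A] [Algebra κ A] (rs : A →ₐ[κ] κ) {g d : ℕ}
    {P : Subalgebra A (LaurentSeries A)} {f : A[X]} {s : A},
    (∃ n : ℕ, RingHom.ker (rs : A →+* κ) ^ n = ⊥) → 0 < d → ((d : ℕ) : κ) ≠ 0 → Kr g P →
    zz A d ∈ P → Disc d P f → f.map (rs : A →+* κ) ≠ 0 → ∀ ψ : P →+* LaurentSeries κ,
    (∀ (a : A[X]) (z : P), (z : LaurentSeries A) = zpol A d a →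
      ψ z = zev (rs s) (a.map (rs : A →+* κ))) →
    ∃ Ψ : P →+* LaurentSeries A,
      (∀ (a : A[X]) (z : P), (z : LaurentSeries A) = zpol A d a → Ψ z = zev s a) ∧
      ∀ x, lmap (rs : A →+* κ) (Ψ x) = ψ x

/-- NSG: the substitution `s ↦ u + t/u`. -/
def Stmt_NSG : Prop :=
  ∀ {A : Type} [CommRing A] (t : A), IsNilpotent t → ∃ σ : LaurentSeries A ≃ₐ[A] LaurentSeries A,
    σ (HahnSeries.single 1 1) = HahnSeries.single 1 1 + HahnSeries.single (-1) t ∧
    (∀ a : PowerSeries A, (fun _ : Bool => σ (psl A a)) ∈ Nt t) ∧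
    ∀ {B : Type} [CommRing B] (φ : A →+* B), φ t = 0 → ∀ x, lmap φ (σ x) = lmap φ x

/-- NQY: the elements `q` and `y` at the node, over a field. -/
def Stmt_NQY : Prop :=
  ∀ {I κ : Type} [Fintype I] [Nonempty I] [Field κ] {g : ℕ} {R : Subalgebra κ (KK I κ)}
    {pt : Bool → FPt R} {c : κ} (z : R), (2 : κ) ≠ 0 → IsKr g R → SmC κ R → Disj pt →
    (∀ b, (pt b).h z = PowerSeries.C c + PowerSeries.X) →
    ∃ q y : R, (∀ b, (pt b).ev q = 1) ∧ (∀ b, (pt b).ev y = 0) ∧
      PowerSeries.coeff 1 ((pt true).h y) = 1 ∧ PowerSeries.coeff 1 ((pt false).h y) = -1 ∧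
      ∀ x : R, (pt true).ev x = (pt false).ev x → ∃ (α β : κ) (r : R),
        (pt true).ev r = (pt false).ev r ∧
        q * (x - algebraMap κ R α - β • y) = (z - algebraMap κ R c) * r

/-- NKE: surjective base change: lifts, and the elements of `P` with zero reduction. -/
def Stmt_NKE : Prop :=
  ∀ {A B : Type} [CommRing A] [CommRing B] (φ : A →+* B) {g : ℕ}
    {P : Subalgebra A (LaurentSeries A)}, Function.Surjective φ → Kr g P →
    (∀ x ∈ bc1 φ P, ∃ p ∈ P, lmap φ p = x) ∧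
    ∀ p ∈ P, lmap φ p = 0 → ∃ (n : ℕ) (μ : Fin n → A) (r : Fin n → LaurentSeries A),
      (∀ k, φ (μ k) = 0) ∧ (∀ k, r k ∈ P) ∧ p = ∑ k, μ k • r k

/-- NNK: the local ring at the node has the basis `1`, `y` over `A[[s]]`. -/
def Stmt_NNK : Prop :=
  ∀ {κ A : Type} [Field κ] [CommRing A] (rs : A →+* κ) {d : ℕ}
    {P : Subalgebra A (LaurentSeries A)} {s : A} {e : Fin d → LaurentSeries A}
    (Ψ : Bool → (P →+* LaurentSeries A)) (q y z : P), Function.Surjective rs →
    (∃ n : ℕ, RingHom.ker rs ^ n = ⊥) → (2 : κ) ≠ 0 → (z : LaurentSeries A) = zz A d →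
    ZBas d P e → (∀ (b : Bool) (a : A[X]) (x : P), (x : LaurentSeries A) = zpol A d a →
      Ψ b x = zev s a) →
    (∀ x : P, ∃ a : Bool → PowerSeries κ,
      PowerSeries.constantCoeff (a true) = PowerSeries.constantCoeff (a false) ∧
      ∀ b, lmap rs (Ψ b x) = psl κ (a b)) →
    (∀ b, (lmap rs (Ψ b q)).coeff 0 = 1) → (∀ b, (lmap rs (Ψ b y)).coeff 0 = 0) →
    (lmap rs (Ψ true y)).coeff 1 = 1 → (lmap rs (Ψ false y)).coeff 1 = -1 →
    (∀ x : P, ∃ (α β : A) (r : P) (n : ℕ) (μ : Fin n → A) (p : Fin n → P),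
      (∀ k, rs (μ k) = 0) ∧ q * (x - algebraMap A P α - β • y) =
        (z - algebraMap A P s) * r + ∑ k, μ k • p k) →
    ∀ x : P, ∃ a b : PowerSeries A, ∀ β : Bool, Ψ β x = psl A a + psl A b * Ψ β y

/-- NCO: the discriminant of the local ring at the node. -/
def Stmt_NCO : Prop :=
  ∀ {P B ι : Type} [CommRing P] [CommRing B] [Fintype ι] (B₀ : Subring B) (L : Subring P)
    (Ψ : Bool → (P →+* B)) (e c : ι → P) (D y : P), (∀ x ∈ L, Ψ true x = Ψ false x) →
    (∀ x : P, ∃ a : ι → P, (∀ k, a k ∈ L) ∧ x = ∑ k, a k * e k) →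
    (∀ (x : P) (H : ι → ι → P), (∀ k l, H k l ∈ L) → (∀ k, x * e k = ∑ l, H l k * e l) →
      ∀ l, x * c l = ∑ k, H l k * c k) →
    ∑ k, e k * c k = D → D ∈ L →
    (∀ x : P, ∃ a b : B, a ∈ B₀ ∧ b ∈ B₀ ∧ ∀ β, Ψ β x = a + b * Ψ β y) →
    IsUnit (Ψ true y - Ψ false y) →
    Ψ true y + Ψ false y ∈ B₀ ∧ ∃ β ∈ B₀, 2 * Ψ true D = β * (Ψ true y - Ψ false y) ^ 2

/-- NPO: a Laurent series whose square has no pole. -/
def Stmt_NPO : Prop :=
  ∀ {A κ : Type} [CommRing A] [Field κ] (rs : A →+* κ), Function.Surjective rs →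
    (∃ n : ℕ, RingHom.ker rs ^ n = ⊥) → (2 : κ) ≠ 0 → ∀ x : LaurentSeries A,
    x * x ∈ Po A 0 → lmap rs x ∈ Po κ 0 → (lmap rs x).coeff 0 ≠ 0 → x ∈ Po A 0

end Pool.Agent.MG.G0


end

section

/-!
# NLI: expansions over `z ↦ c + s` lift
-/

open Polynomial

namespace Pool.Agent.MG.G0

namespace NLI

section

variable {A : Type} [CommRing A]

/-- The series with coefficients in an ideal. -/
noncomputable def LJ (J : Ideal A) : Ideal (LaurentSeries A) where
  carrier := {f | ∀ n, f.coeff n ∈ J}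
  add_mem' {f g} hf hg n := by
    rw [HahnSeries.coeff_add]
    exact add_mem (hf n) (hg n)
  zero_mem' n := by
    rw [HahnSeries.coeff_zero]
    exact zero_mem J
  smul_mem' f g hg n := by
    rw [smul_eq_mul, HahnSeries.coeff_mul]
    exact sum_mem fun x _ => J.mul_mem_left _ (hg _)

theorem mem_LJ {J : Ideal A} {f : LaurentSeries A} : f ∈ LJ J ↔ ∀ n, f.coeff n ∈ J := Iff.rfl

theorem mul_mem_LJ {J J' : Ideal A} {f g : LaurentSeries A} (hf : f ∈ LJ J) (hg : g ∈ LJ J') :
    f * g ∈ LJ (J * J') := fun n => by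
  rw [HahnSeries.coeff_mul]
  exact sum_mem fun x _ => Ideal.mul_mem_mul (hf _) (hg _)

theorem ker_pow {B : Type} [CommRing B] (φ : A →+* B) (n : ℕ) :
    RingHom.ker (lmap φ) ^ n ≤ LJ (RingHom.ker φ ^ n) := by
  induction n with
  | zero =>
    intro f _ m
    rw [pow_zero, Ideal.one_eq_top]
    exact Submodule.mem_top
  | succ n ih =>
    rw [pow_succ, pow_succ, Ideal.mul_le]
    intro f hf g hg
    refine mul_mem_LJ (ih hf) fun m => ?_
    rw [RingHom.mem_ker] at hg ⊢
    rw [← lmap_coeff, hg, HahnSeries.coeff_zero]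

/-- `A[X] → P`. -/
noncomputable def iP {d : ℕ} {P : Subalgebra A (LaurentSeries A)} (hz : zz A d ∈ P) :
    A[X] →ₐ[A] P := Polynomial.aeval ⟨zz A d, hz⟩

theorem iP_coe {d : ℕ} {P : Subalgebra A (LaurentSeries A)} (hz : zz A d ∈ P) (a : A[X]) :
    (iP hz a : LaurentSeries A) = zpol A d a :=
  (Polynomial.aeval_algHom_apply P.val (⟨zz A d, hz⟩ : P) a).symm

theorem lmap_zev {B : Type} [CommRing B] (φ : A →+* B) (s : A) (a : A[X]) :
    lmap φ (zev s a) = zev (φ s) (a.map φ) := by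
  have h : (lmap φ).comp (zev s : A[X] →+* LaurentSeries A) =
      ((zev (φ s) : B[X] →+* LaurentSeries B)).comp (Polynomial.mapRingHom φ) := by
    refine Polynomial.ringHom_ext ?_ ?_
    · intro a
      simp only [RingHom.comp_apply, RingHom.coe_coe, zev, Polynomial.aeval_C,
        Polynomial.coe_mapRingHom, Polynomial.map_C, lmap_algebraMap]
    · simp only [RingHom.comp_apply, RingHom.coe_coe, zev, Polynomial.aeval_X,
        Polynomial.coe_mapRingHom, Polynomial.map_X, map_add, lmap_algebraMap, lmap_single,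
        map_one]
  exact congrArg (fun F => F a) h

theorem aeval_single (p : A[X]) :
    Polynomial.aeval (HahnSeries.single 1 1 : LaurentSeries A) p = psl A (p : PowerSeries A) := by
  induction p using Polynomial.induction_on' with
  | add p q hp hq => rw [map_add, hp, hq, Polynomial.coe_add, map_add]
  | monomial n a =>
    rw [← Polynomial.C_mul_X_pow_eq_monomial, map_mul, Polynomial.aeval_C, map_pow,
      Polynomial.aeval_X, Polynomial.coe_mul, Polynomial.coe_C, Polynomial.coe_pow,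
      Polynomial.coe_X, map_mul, map_pow]
    congr 1
    · exact (HahnSeries.ofPowerSeries_C a).symm
    · exact congrArg (· ^ n) HahnSeries.ofPowerSeries_X.symm

theorem zev_eq (c : A) (p : A[X]) : zev c p =
    psl A ((Polynomial.taylor c p : A[X]) : PowerSeries A) := by
  rw [← aeval_single, Polynomial.taylor_apply, Polynomial.aeval_comp, zev, map_add,
    Polynomial.aeval_X, Polynomial.aeval_C, add_comm]

theorem zev_inj (c : A) {p : A[X]} (h : zev c p = 0) : p = 0 := by
  rw [zev_eq] at h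
  have h1 : ((Polynomial.taylor c p : A[X]) : PowerSeries A) = 0 :=
    HahnSeries.ofPowerSeries_injective (Γ := ℤ) (h.trans (map_zero (psl A)).symm)
  have h2 : Polynomial.taylor c p = 0 := Polynomial.coe_injective A (by
    rw [h1]; exact Polynomial.coe_zero.symm)
  exact Polynomial.taylor_injective c (by rw [h2, map_zero])

end

end NLI

theorem t_NLI (hNEL : Stmt_NEL) (hNDB : Stmt_NDB) : Stmt_NLI := by
  intro κ A _ _ _ rs g d P f s hn hd hdκ hP hz hD hf ψ hψ
  obtain ⟨e, G, he, hG, u, hu, hdet⟩ := hD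
  obtain ⟨c, hc, hec, hx⟩ := hNDB hd P hP hz e G he hG
  obtain ⟨n, hn⟩ := hn
  have key : ∃ Ψ : P →+* LaurentSeries A, (∀ a, Ψ (NLI.iP hz a) = zev s a) ∧
      ∀ x, lmap (rs : A →+* κ) (Ψ x) = ψ x := by
    refine hNEL (Λ := A[X]) (P := P) (B := LaurentSeries A) (C := LaurentSeries κ)
      (ι := Fin d) (NLI.iP hz : A[X] →+* P) (zev s : A[X] →+* LaurentSeries A)
      (fun k => ⟨e k, he.mem k⟩) (fun k => ⟨c k, hc k⟩)
      (NLI.iP hz ((d : A[X]) * G.det)) (lmap (rs : A →+* κ)) ψ ?_ ?_ ?_ ?_ ?_ ?_ ?_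
    · intro x
      obtain ⟨a, ha, hu⟩ := he.uni x x.2
      refine ⟨a, Subtype.ext ?_, fun b hb => hu b ?_⟩
      · rw [ha, AddSubmonoidClass.coe_finsetSum]
        refine Finset.sum_congr rfl fun k _ => ?_
        rw [Subalgebra.coe_mul, RingHom.coe_coe, NLI.iP_coe]
      · have h3 := congrArg Subtype.val hb
        rw [AddSubmonoidClass.coe_finsetSum] at h3
        refine h3.trans (Finset.sum_congr rfl fun k _ => ?_)
        rw [Subalgebra.coe_mul, RingHom.coe_coe, NLI.iP_coe]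
    · refine Subtype.ext ?_
      rw [NLI.iP_coe, map_mul, map_natCast, ← hec, AddSubmonoidClass.coe_finsetSum]
      rfl
    · intro x H hH l
      refine Subtype.ext ?_
      have h3 := hx x x.2 H (fun k => ?_) l
      · rw [AddSubmonoidClass.coe_finsetSum]
        refine h3.trans (Finset.sum_congr rfl fun k _ => ?_)
        rw [Subalgebra.coe_mul, RingHom.coe_coe, NLI.iP_coe]
      · have h4 := congrArg Subtype.val (hH k)
        rw [AddSubmonoidClass.coe_finsetSum] at h4
        refine h4.trans (Finset.sum_congr rfl fun l _ => ?_)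
        rw [Subalgebra.coe_mul, RingHom.coe_coe, NLI.iP_coe]
    · intro y
      refine ⟨lmap (algebraMap κ A) y, ?_⟩
      ext m
      rw [lmap_coeff, lmap_coeff]
      exact rs.commutes _
    · refine ⟨n, le_bot_iff.1 fun x hx => ?_⟩
      have h3 := NLI.ker_pow _ n hx
      rw [hn] at h3
      rw [Ideal.mem_bot]
      ext m
      exact h3 m
    · intro a
      rw [RingHom.coe_coe, RingHom.coe_coe, NLI.lmap_zev]
      exact hψ a _ (NLI.iP_coe hz a)
    · have h3 := hψ ((d : A[X]) * G.det) (NLI.iP hz ((d : A[X]) * G.det)) (NLI.iP_coe hz _)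
      rw [h3, isUnit_iff_ne_zero]
      intro h4
      have h5 := NLI.zev_inj _ h4
      rw [hdet, Polynomial.map_mul, Polynomial.map_mul, Polynomial.map_natCast] at h5
      have h6 : (d : κ[X]) ≠ 0 := by
        intro h7
        apply hdκ
        have h8 := congrArg (Polynomial.coeff · 0) h7
        simpa using h8
      have h7 : u.map (rs : A →+* κ) ≠ 0 :=
        (hu.map (Polynomial.mapRingHom (rs : A →+* κ))).ne_zero
      exact (mul_ne_zero h6 (mul_ne_zero h7 hf)) h5
  obtain ⟨Ψ, h1, h2⟩ := key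
  refine ⟨Ψ, fun a z hza => ?_, h2⟩
  have h3 : z = NLI.iP hz a := Subtype.ext (by rw [hza, NLI.iP_coe])
  rw [h3]
  exact h1 a

end Pool.Agent.MG.G0


end

section

/-!
# NNK: the local ring at the node has the basis `1`, `y` over `A[[s]]`
-/

open Polynomial

namespace Pool.Agent.MG.G0

namespace NNK

section core

variable {S M P ι : Type} [CommRing S] [CommRing M] [CommRing P] [Fintype ι]

theorem mul_mem_span [Algebra S M] (Ψ : P →+* M) {t u : M}
    (ht : t ∈ Submodule.span S (Set.range Ψ)) (hu : u ∈ Submodule.span S (Set.range Ψ)) :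
    t * u ∈ Submodule.span S (Set.range Ψ) := by
  have h := Submodule.mul_mem_mul ht hu
  rw [Submodule.span_mul_span] at h
  refine Submodule.span_mono ?_ h
  rintro _ ⟨_, ⟨a, rfl⟩, _, ⟨b, rfl⟩, rfl⟩
  exact ⟨a * b, map_mul Ψ a b⟩

theorem mul_mem_smul [Algebra S M] (J : Ideal S) (Ψ : P →+* M) {t w : M}
    (ht : t ∈ Submodule.span S (Set.range Ψ)) (hw : w ∈ J • Submodule.span S (Set.range Ψ)) :
    t * w ∈ J • Submodule.span S (Set.range Ψ) := by
  refine Submodule.smul_induction_on hw (fun r hr n hn => ?_) (fun x y hx hy => ?_)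
  · rw [mul_smul_comm]
    exact Submodule.smul_mem_smul hr (mul_mem_span Ψ ht hn)
  · rw [mul_add]
    exact Submodule.add_mem _ hx hy

/-- The abstract form. -/
theorem core (φ : S →+* M) (J : Ideal S) (hJ : J ≤ Ideal.jacobson ⊥) (Ψ : P →+* M) (E : ι → P)
    (hE : ∀ x, ∃ c : ι → S, Ψ x = ∑ i, φ (c i) * Ψ (E i)) (q y : P) (r₁ r₂ : S)
    (hν : IsNilpotent (Ψ q * (φ r₁ + φ r₂ * Ψ y) - 1))
    (h : ∀ x : P, ∃ (α β m : S) (r : P) (n : ℕ) (μ : Fin n → S) (p : Fin n → P), m ∈ J ∧
      (∀ k, μ k ∈ J) ∧ Ψ q * (Ψ x - φ α - φ β * Ψ y) = φ m * Ψ r + ∑ k, φ (μ k) * Ψ (p k)) :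
    ∀ x : P, ∃ a b : S, Ψ x = φ a + φ b * Ψ y := by
  letI : Algebra S M := φ.toAlgebra
  have hφ : ∀ (a : S) (m : M), φ a * m = a • m := fun a m => (Algebra.smul_def a m).symm
  have hφ1 : ∀ a : S, φ a = a • (1 : M) := fun a => by rw [← hφ, mul_one]
  have hT1 : (1 : M) ∈ Submodule.span S (Set.range Ψ) :=
    Submodule.subset_span ⟨1, map_one Ψ⟩
  have hTΨ : ∀ x, Ψ x ∈ Submodule.span S (Set.range Ψ) := fun x => Submodule.subset_span ⟨x, rfl⟩
  have hfg : (Submodule.span S (Set.range Ψ)).FG := by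
    have h1 : Submodule.span S (Set.range Ψ) = Submodule.span S (Set.range fun i => Ψ (E i)) := by
      refine le_antisymm (Submodule.span_le.2 ?_) (Submodule.span_mono ?_)
      · rintro _ ⟨x, rfl⟩
        obtain ⟨c, hc⟩ := hE x
        rw [hc]
        refine Submodule.sum_mem _ fun i _ => ?_
        rw [hφ]
        exact Submodule.smul_mem _ _ (Submodule.subset_span ⟨i, rfl⟩)
      · rintro _ ⟨i, rfl⟩
        exact ⟨E i, rfl⟩
    rw [h1]
    exact Submodule.fg_span (Set.finite_range _)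
  -- the multiplication by `Ψ q` reflects `J T`
  have hr : φ r₁ + φ r₂ * Ψ y ∈ Submodule.span S (Set.range Ψ) := by
    rw [hφ, hφ1]
    exact Submodule.add_mem _ (Submodule.smul_mem _ _ hT1) (Submodule.smul_mem _ _ (hTΨ y))
  obtain ⟨n, hn⟩ := hν
  have hνT : Ψ q * (φ r₁ + φ r₂ * Ψ y) - 1 ∈ Submodule.span S (Set.range Ψ) :=
    Submodule.sub_mem _ (mul_mem_span Ψ (hTΨ q) hr) hT1
  have hpow : ∀ k : ℕ, (-(Ψ q * (φ r₁ + φ r₂ * Ψ y) - 1)) ^ k ∈
      Submodule.span S (Set.range Ψ) := by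
    intro k
    induction k with
    | zero => rw [pow_zero]; exact hT1
    | succ k ih => rw [pow_succ]; exact mul_mem_span Ψ ih (Submodule.neg_mem _ hνT)
  have hrefl : ∀ w : M, Ψ q * w ∈ J • Submodule.span S (Set.range Ψ) →
      w ∈ J • Submodule.span S (Set.range Ψ) := by
    intro w hw
    have h1 := mul_mem_smul J Ψ hr hw
    have h2 : (∑ k ∈ Finset.range n, (-(Ψ q * (φ r₁ + φ r₂ * Ψ y) - 1)) ^ k) ∈
        Submodule.span S (Set.range Ψ) := Submodule.sum_mem _ fun k _ => hpow k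
    have h3 := mul_mem_smul J Ψ h2 h1
    have h4 := mul_neg_geom_sum (-(Ψ q * (φ r₁ + φ r₂ * Ψ y) - 1)) n
    have h5 : (-(Ψ q * (φ r₁ + φ r₂ * Ψ y) - 1)) ^ n = 0 := by
      rw [neg_pow, hn, mul_zero]
    rw [h5, sub_zero] at h4
    have h6 : (∑ k ∈ Finset.range n, (-(Ψ q * (φ r₁ + φ r₂ * Ψ y) - 1)) ^ k) *
        ((φ r₁ + φ r₂ * Ψ y) * (Ψ q * w)) = w := by
      calc (∑ k ∈ Finset.range n, (-(Ψ q * (φ r₁ + φ r₂ * Ψ y) - 1)) ^ k) *
          ((φ r₁ + φ r₂ * Ψ y) * (Ψ q * w))
          = ((1 - -(Ψ q * (φ r₁ + φ r₂ * Ψ y) - 1)) *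
            ∑ k ∈ Finset.range n, (-(Ψ q * (φ r₁ + φ r₂ * Ψ y) - 1)) ^ k) * w := by ring
        _ = w := by rw [h4, one_mul]
    rw [h6] at h3
    exact h3
  -- Nakayama
  have hle : Submodule.span S (Set.range Ψ) ≤ Submodule.span S {(1 : M), Ψ y} := by
    refine Submodule.le_of_le_smul_of_le_jacobson_bot hfg hJ (Submodule.span_le.2 ?_)
    rintro _ ⟨x, rfl⟩
    obtain ⟨α, β, m, r, k, μ, p, hm, hμ, hx⟩ := h x
    have h1 : Ψ x - φ α - φ β * Ψ y ∈ J • Submodule.span S (Set.range Ψ) := by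
      refine hrefl _ ?_
      rw [hx]
      refine Submodule.add_mem _ ?_ (Submodule.sum_mem _ fun k _ => ?_)
      · rw [hφ]
        exact Submodule.smul_mem_smul hm (hTΨ r)
      · rw [hφ]
        exact Submodule.smul_mem_smul (hμ k) (hTΨ (p k))
    have h2 : Ψ x = (φ α + φ β * Ψ y) + (Ψ x - φ α - φ β * Ψ y) := by ring
    rw [SetLike.mem_coe, h2]
    refine Submodule.add_mem_sup ?_ h1
    rw [hφ, hφ1]
    exact Submodule.add_mem _ (Submodule.smul_mem _ _ (Submodule.subset_span (by simp)))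
      (Submodule.smul_mem _ _ (Submodule.subset_span (by simp)))
  intro x
  obtain ⟨a, b, hab⟩ := Submodule.mem_span_pair.1 (hle (hTΨ x))
  exact ⟨a, b, by rw [← hab, hφ, hφ1]⟩

end core

section series

variable {A κ : Type} [CommRing A]

theorem psl_coeff (f : PowerSeries A) (n : ℕ) : (psl A f).coeff (n : ℤ) = PowerSeries.coeff n f :=
  HahnSeries.ofPowerSeries_apply_coeff f n

theorem psl_zero (f : PowerSeries A) : (psl A f).coeff 0 = PowerSeries.constantCoeff f := by
  have := psl_coeff f 0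
  rw [Nat.cast_zero] at this
  rw [this, PowerSeries.coeff_zero_eq_constantCoeff_apply]

theorem psl_one (f : PowerSeries A) : (psl A f).coeff 1 = PowerSeries.coeff 1 f := by
  have := psl_coeff f 1
  rwa [Nat.cast_one] at this

theorem psl_X : psl A PowerSeries.X = HahnSeries.single 1 1 := HahnSeries.ofPowerSeries_X

theorem psl_C (a : A) : psl A (PowerSeries.C a) = algebraMap A (LaurentSeries A) a := by
  rw [psl, HahnSeries.ofPowerSeries_C]
  rfl

theorem lmap_psl {B : Type} [CommRing B] (φ : A →+* B) (f : PowerSeries A) :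
    lmap φ (psl A f) = psl B (PowerSeries.map φ f) := by
  ext m
  rw [lmap_coeff]
  rcases lt_or_ge m 0 with hm | hm
  · have h1 : ∀ (R : Type) [CommRing R] (f : PowerSeries R), (psl R f).coeff m = 0 := by
      intro R _ f
      refine HahnSeries.embDomain_notin_range ?_
      rintro ⟨n, hn⟩
      have : (n : ℤ) = m := hn
      omega
    rw [h1, h1, map_zero]
  · obtain ⟨n, rfl⟩ := Int.eq_ofNat_of_zero_le hm
    rw [psl_coeff, psl_coeff, PowerSeries.coeff_map]

/-- `zev` has values in the power series. -/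
theorem zev_eq (s : A) (a : A[X]) :
    zev s a = psl A (Polynomial.eval₂ (PowerSeries.C) (PowerSeries.C s + PowerSeries.X) a) := by
  have h : ((zev s : A[X] →ₐ[A] LaurentSeries A) : A[X] →+* LaurentSeries A) =
      (psl A).comp (Polynomial.eval₂RingHom (PowerSeries.C) (PowerSeries.C s + PowerSeries.X)) := by
    refine Polynomial.ringHom_ext (fun c => ?_) ?_
    · rw [RingHom.comp_apply, Polynomial.coe_eval₂RingHom, Polynomial.eval₂_C, psl_C,
        RingHom.coe_coe, zev, Polynomial.aeval_C]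
    · rw [RingHom.comp_apply, Polynomial.coe_eval₂RingHom, Polynomial.eval₂_X, map_add, psl_C,
        psl_X, RingHom.coe_coe, zev, Polynomial.aeval_X]
  exact congrArg (fun F => F a) h

theorem coeff_pow_mem {I : Ideal A} {f : LaurentSeries A} (hf : ∀ m, f.coeff m ∈ I) (k : ℕ) :
    ∀ m, (f ^ k).coeff m ∈ I ^ k := by
  induction k with
  | zero => intro m; rw [pow_zero, pow_zero, Ideal.one_eq_top]; exact Submodule.mem_top
  | succ k ih =>
    intro m
    rw [pow_succ, pow_succ, HahnSeries.coeff_mul]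
    exact Ideal.sum_mem _ fun i _ => Ideal.mul_mem_mul (ih _) (hf _)

theorem pow_eq_zero [CommRing κ] {rs : A →+* κ} {n : ℕ} (hn : RingHom.ker rs ^ n = ⊥)
    {f : LaurentSeries A} (hf : lmap rs f = 0) : f ^ n = 0 := by
  have h1 : ∀ m, f.coeff m ∈ RingHom.ker rs := by
    intro m
    rw [RingHom.mem_ker, ← lmap_coeff, hf, HahnSeries.coeff_zero]
  ext m
  have h2 := coeff_pow_mem h1 n m
  rw [hn, Ideal.mem_bot] at h2
  rw [h2, HahnSeries.coeff_zero]

theorem jac [CommRing κ] {rs : A →+* κ} {n : ℕ} (hn : RingHom.ker rs ^ n = ⊥) :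
    RingHom.ker (rs.comp (PowerSeries.constantCoeff (R := A))) ≤ Ideal.jacobson ⊥ := by
  intro f hf
  rw [Ideal.mem_jacobson_bot]
  intro g
  rw [PowerSeries.isUnit_iff_constantCoeff, map_add, map_one, map_mul]
  rw [RingHom.mem_ker, RingHom.comp_apply] at hf
  have h1 : PowerSeries.constantCoeff f * PowerSeries.constantCoeff g ∈ RingHom.ker rs := by
    rw [RingHom.mem_ker, map_mul, hf, zero_mul]
  have h2 : IsNilpotent (PowerSeries.constantCoeff f * PowerSeries.constantCoeff g) :=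
    ⟨n, by
      have := Ideal.pow_mem_pow h1 n
      rwa [hn, Ideal.mem_bot] at this⟩
  exact h2.isUnit_add_one

/-- The interpolation at the node. -/
theorem interp [Field κ] (h2 : (2 : κ) ≠ 0) {Q Y : Bool → PowerSeries κ}
    (hQ : ∀ b, PowerSeries.constantCoeff (Q b) = 1) (hY : ∀ b, PowerSeries.constantCoeff (Y b) = 0)
    (hY1 : PowerSeries.coeff 1 (Y true) = 1) (hY2 : PowerSeries.coeff 1 (Y false) = -1) :
    ∃ α β : PowerSeries κ, ∀ b, Q b * (α + β * Y b) = 1 := by
  have hu : ∀ b, Q b * (Q b)⁻¹ = 1 := fun b =>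
    PowerSeries.mul_inv_cancel _ (by rw [hQ]; exact one_ne_zero)
  have hc : PowerSeries.constantCoeff ((Q true)⁻¹ - (Q false)⁻¹) = 0 := by
    rw [map_sub, PowerSeries.constantCoeff_inv, PowerSeries.constantCoeff_inv, hQ, hQ, sub_self]
  obtain ⟨W, hW⟩ := PowerSeries.X_dvd_iff.2 hc
  have hd : PowerSeries.constantCoeff (Y true - Y false) = 0 := by
    rw [map_sub, hY, hY, sub_self]
  obtain ⟨V, hV⟩ := PowerSeries.X_dvd_iff.2 hd
  have hV0 : PowerSeries.constantCoeff V = 2 := by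
    have h3 := congrArg (PowerSeries.coeff 1) hV
    rw [map_sub, hY1, hY2, show (1 : ℕ) = 0 + 1 from rfl, PowerSeries.coeff_succ_X_mul,
      PowerSeries.coeff_zero_eq_constantCoeff_apply] at h3
    rw [← h3]
    norm_num
  have hVi : V * V⁻¹ = 1 := PowerSeries.mul_inv_cancel _ (by rw [hV0]; exact h2)
  refine ⟨(Q true)⁻¹ - W * V⁻¹ * Y true, W * V⁻¹, fun b => ?_⟩
  cases b with
  | true => rw [sub_add_cancel, hu]
  | false =>
    have h3 : (Q true)⁻¹ - W * V⁻¹ * Y true + W * V⁻¹ * Y false =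
        (Q true)⁻¹ - W * V⁻¹ * (Y true - Y false) := by ring
    have h4 : W * V⁻¹ * (PowerSeries.X * V) = PowerSeries.X * W * (V * V⁻¹) := by ring
    rw [h3, hV, h4, hVi, mul_one, ← hW, sub_sub_cancel, hu]

end series

end NNK

open _root_.Pool.Agent.MG.G0.NNK

/-- NNK: the local ring at the node has the basis `1`, `y` over `A[[s]]`. -/
theorem t_NNK : Stmt_NNK := by
  intro κ A _ _ rs d P s e Ψ q y z hrs hnil h2 hz hb hzev hred hq0 hy0 hy1 hy2 hfin
  obtain ⟨n, hn⟩ := hnil
  -- the two expansions together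
  let F : P →+* (Bool → LaurentSeries A) := Pi.ringHom Ψ
  let φ : PowerSeries A →+* (Bool → LaurentSeries A) := Pi.ringHom fun _ => psl A
  have hF : ∀ x b, F x b = Ψ b x := fun _ _ => rfl
  have hφ : ∀ a b, φ a b = psl A a := fun _ _ => rfl
  have hzP : zz A d ∈ P := hz ▸ z.2
  have hpol : ∀ a : A[X], zpol A d a ∈ P := fun a => by
    rw [zpol, aeval_eq_sum_range]
    exact Subalgebra.sum_mem _ fun i _ => P.smul_mem (pow_mem hzP i) _
  have hFpol : ∀ (a : A[X]) (x : P), (x : LaurentSeries A) = zpol A d a →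
      F x = φ (Polynomial.eval₂ (PowerSeries.C) (PowerSeries.C s + PowerSeries.X) a) := by
    intro a x hx
    funext b
    rw [hF, hφ, hzev b a x hx, zev_eq]
  have hFC : ∀ a : A, F (algebraMap A P a) = φ (PowerSeries.C a) := by
    intro a
    have h3 : ((algebraMap A P a : P) : LaurentSeries A) = zpol A d (Polynomial.C a) := by
      rw [zpol, Polynomial.aeval_C]
      rfl
    rw [hFpol _ _ h3, Polynomial.eval₂_C]
  have hFs : ∀ (a : A) (x : P), F (a • x) = φ (PowerSeries.C a) * F x := by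
    intro a x
    rw [Algebra.smul_def, map_mul, hFC]
  have hFz : F (z - algebraMap A P s) = φ PowerSeries.X := by
    have h3 : (z : LaurentSeries A) = zpol A d Polynomial.X := by
      rw [hz, zpol, Polynomial.aeval_X]
    rw [map_sub, hFC, hFpol _ _ h3, Polynomial.eval₂_X, map_add, add_sub_cancel_left]
  -- the reductions of `q` and `y`
  obtain ⟨Q, -, hQ⟩ := hred q
  obtain ⟨Y, -, hY⟩ := hred y
  obtain ⟨α, β, hαβ⟩ := interp (Q := Q) (Y := Y) h2
    (fun b => by rw [← psl_zero, ← hQ, hq0])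
    (fun b => by rw [← psl_zero, ← hY, hy0])
    (by rw [← psl_one, ← hY, hy1]) (by rw [← psl_one, ← hY, hy2])
  obtain ⟨α', hα'⟩ := PowerSeries.map_surjective rs hrs α
  obtain ⟨β', hβ'⟩ := PowerSeries.map_surjective rs hrs β
  have hνb : ∀ b, lmap rs ((F q * (φ α' + φ β' * F y) - 1) b) = 0 := by
    intro b
    rw [Pi.sub_apply, Pi.mul_apply, Pi.add_apply, Pi.mul_apply, Pi.one_apply, hF, hF, hφ, hφ,
      map_sub, map_mul, map_add, map_mul, map_one, lmap_psl, lmap_psl, hα', hβ', hQ, hY,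
      ← map_mul, ← map_add, ← map_mul, hαβ, map_one, sub_self]
  have hν : IsNilpotent (F q * (φ α' + φ β' * F y) - 1) := by
    refine ⟨n, ?_⟩
    funext b
    rw [Pi.pow_apply, pow_eq_zero hn (hνb b), Pi.zero_apply]
  have hmain := core φ _ (jac hn) F (fun i => ⟨e i, hb.mem i⟩) (fun x => ?_) q y α' β' hν
    (fun x => ?_)
  · intro x
    obtain ⟨a, b, hab⟩ := hmain x
    refine ⟨a, b, fun β₀ => ?_⟩
    have := congrFun hab β₀
    rwa [Pi.add_apply, Pi.mul_apply, hF, hF, hφ, hφ] at this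
  · -- finite generation
    obtain ⟨c, hc, -⟩ := hb.uni (x : LaurentSeries A) x.2
    refine ⟨fun i => Polynomial.eval₂ (PowerSeries.C) (PowerSeries.C s + PowerSeries.X) (c i), ?_⟩
    have h3 : x = ∑ i, (⟨zpol A d (c i), hpol (c i)⟩ : P) * ⟨e i, hb.mem i⟩ := by
      apply Subtype.ext
      rw [AddSubmonoidClass.coe_finset_sum]
      exact hc
    conv_lhs => rw [h3]
    rw [map_sum]
    refine Finset.sum_congr rfl fun i _ => ?_
    rw [map_mul, hFpol (c i) ⟨zpol A d (c i), hpol (c i)⟩ rfl]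
  · -- the relation
    obtain ⟨a, b, r, k, μ, p, hμ, hx⟩ := hfin x
    refine ⟨PowerSeries.C a, PowerSeries.C b, PowerSeries.X, r, k, fun j => PowerSeries.C (μ j), p,
      ?_, fun j => ?_, ?_⟩
    · rw [RingHom.mem_ker, RingHom.comp_apply, PowerSeries.constantCoeff_X, map_zero]
    · rw [RingHom.mem_ker, RingHom.comp_apply, PowerSeries.constantCoeff_C, hμ]
    · have h3 := congrArg F hx
      rw [map_mul, map_sub, map_sub, map_add, map_mul, hFC, hFs, hFz, map_sum] at h3
      rw [h3]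
      refine congrArg _ (Finset.sum_congr rfl fun j _ => ?_)
      rw [hFs]

end Pool.Agent.MG.G0


end

section

/-!
# NPO: a Laurent series whose square has no pole
-/

namespace Pool.Agent.MG.G0

namespace NPO

section

variable {A : Type} [CommRing A]

theorem coeff_psl (f : PowerSeries A) (n : ℕ) : (psl A f).coeff n = PowerSeries.coeff n f :=
  HahnSeries.ofPowerSeries_apply_coeff f n

theorem coeff_psl_neg (f : PowerSeries A) {m : ℤ} (hm : m < 0) : (psl A f).coeff m = 0 := by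
  rw [psl, HahnSeries.ofPowerSeries_apply]
  refine HahnSeries.embDomain_of_notMem_range ?_
  rintro ⟨n, hn⟩
  have h : ((n : ℕ) : ℤ) = m := hn
  omega

theorem psl_mem (f : PowerSeries A) : psl A f ∈ Po A 0 := fun m hm =>
  coeff_psl_neg f (by omega)

theorem exists_psl {y : LaurentSeries A} (hy : y ∈ Po A 0) : ∃ Y, psl A Y = y := by
  refine ⟨PowerSeries.mk fun m => y.coeff m, ?_⟩
  ext m
  rcases lt_or_ge m 0 with h | h
  · rw [coeff_psl_neg _ h, hy m (by omega)]
  · obtain ⟨k, rfl⟩ := Int.eq_ofNat_of_zero_le h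
    rw [coeff_psl, PowerSeries.coeff_mk]

theorem mul_mem {x y : LaurentSeries A} (hx : x ∈ Po A 0) (hy : y ∈ Po A 0) :
    x * y ∈ Po A 0 := by
  obtain ⟨X, rfl⟩ := exists_psl hx
  obtain ⟨Y, rfl⟩ := exists_psl hy
  rw [← map_mul]
  exact psl_mem _

theorem coeff_mul_mem {J K : Ideal A} {x y : LaurentSeries A} (hx : ∀ n, x.coeff n ∈ J)
    (hy : ∀ n, y.coeff n ∈ K) (n : ℤ) : (x * y).coeff n ∈ J * K := by
  rw [HahnSeries.coeff_mul]
  exact Ideal.sum_mem _ fun p _ => Ideal.mul_mem_mul (hx _) (hy _)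

/-- The polar part is small. -/
theorem step {m : Ideal A} (F W : PowerSeries A) (hW : 2 * F * W = 1)
    (ν : LaurentSeries A) (h0 : ∀ n, 0 ≤ n → ν.coeff n = 0)
    (hs : (psl A F + ν) * (psl A F + ν) ∈ Po A 0) (k : ℕ) (hk : ∀ n, ν.coeff n ∈ m ^ (k + 1)) :
    ∀ n, ν.coeff n ∈ m ^ (k + 2) := by
  intro n
  rcases lt_or_ge n 0 with hn | hn
  · have e : ν = psl A W * ((psl A F + ν) * (psl A F + ν) - psl A F * psl A F) -
        psl A W * (ν * ν) := by
      have e1 : (2 : LaurentSeries A) * psl A F * psl A W = 1 := by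
        have := congrArg (psl A) hW
        rw [map_mul, map_mul, map_ofNat, map_one] at this
        exact this
      linear_combination (-ν) * e1
    have h1 : psl A W * ((psl A F + ν) * (psl A F + ν) - psl A F * psl A F) ∈ Po A 0 :=
      mul_mem (psl_mem W) (sub_mem hs (mul_mem (psl_mem F) (psl_mem F)))
    have h2 : (psl A W * (ν * ν)).coeff n ∈ (⊤ : Ideal A) * (m ^ (k + 1) * m ^ (k + 1)) :=
      coeff_mul_mem (fun _ => Submodule.mem_top) (coeff_mul_mem hk hk) n
    have h3 : (⊤ : Ideal A) * (m ^ (k + 1) * m ^ (k + 1)) ≤ m ^ (k + 2) := by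
      rw [← pow_add]
      exact le_trans Ideal.mul_le_right
        (Ideal.pow_le_pow_right (show k + 2 ≤ k + 1 + (k + 1) by omega))
    rw [e, HahnSeries.coeff_sub, h1 n (by omega), zero_sub]
    exact neg_mem (h3 h2)
  · rw [h0 n hn]
    exact zero_mem _

end

end NPO

theorem t_NPO : Stmt_NPO := by
  intro A κ _ _ rs hrs hnil h2 x hxx hx hx0
  obtain ⟨N, hN⟩ := hnil
  have hu : ∀ a : A, rs a ≠ 0 → IsUnit a := by
    intro a ha
    obtain ⟨b, hb⟩ := hrs (rs a)⁻¹
    have h3 : 1 - a * b ∈ RingHom.ker rs := by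
      rw [RingHom.mem_ker, map_sub, map_one, map_mul, hb, mul_inv_cancel₀ ha, sub_self]
    have h4 : IsNilpotent (1 - a * b) := by
      refine ⟨N, ?_⟩
      have h5 := Ideal.pow_mem_pow h3 N
      rw [hN] at h5
      exact h5
    have h5 : IsUnit (a * b) := by
      have h6 := h4.isUnit_one_sub
      rw [sub_sub_cancel] at h6
      exact h6
    exact isUnit_of_mul_isUnit_left h5
  have hF : ∃ F : PowerSeries A, ∀ n : ℕ, PowerSeries.coeff n F = x.coeff n :=
    ⟨PowerSeries.mk fun n => x.coeff n, fun n => PowerSeries.coeff_mk _ _⟩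
  obtain ⟨F, hF⟩ := hF
  have hFu : IsUnit (2 * F) := by
    rw [PowerSeries.isUnit_iff_constantCoeff, map_mul, map_ofNat]
    refine hu _ ?_
    rw [map_mul, map_ofNat]
    refine mul_ne_zero h2 ?_
    rw [← PowerSeries.coeff_zero_eq_constantCoeff_apply, hF]
    exact hx0
  obtain ⟨W, hW⟩ := hFu.exists_right_inv
  have hν0 : ∀ n, 0 ≤ n → (x - psl A F).coeff n = 0 := by
    intro n hn
    obtain ⟨k, rfl⟩ := Int.eq_ofNat_of_zero_le hn
    rw [HahnSeries.coeff_sub, NPO.coeff_psl, hF, sub_self]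
  have hs : (psl A F + (x - psl A F)) * (psl A F + (x - psl A F)) ∈ Po A 0 := by
    rw [add_sub_cancel]
    exact hxx
  have key : ∀ k : ℕ, ∀ n, (x - psl A F).coeff n ∈ RingHom.ker rs ^ (k + 1) := by
    intro k
    induction k with
    | zero =>
      intro n
      rw [zero_add, pow_one]
      rcases lt_or_ge n 0 with hn | hn
      · rw [HahnSeries.coeff_sub, NPO.coeff_psl_neg _ hn, sub_zero]
        exact hx n (by omega)
      · rw [hν0 n hn]
        exact zero_mem _
    | succ k ih => exact NPO.step F W hW _ hν0 hs k ih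
  have h0 : x = psl A F := by
    rw [← sub_eq_zero]
    ext n
    have h1 := key N n
    have h3 : RingHom.ker rs ^ (N + 1) = ⊥ := by
      rw [pow_succ, hN, Ideal.bot_mul]
    rw [h3] at h1
    rw [HahnSeries.coeff_zero]
    exact h1
  rw [h0]
  exact NPO.psl_mem F

end Pool.Agent.MG.G0


end

section

/-!
# SDN: duality lifts along nilpotent thickenings
-/

namespace Pool.Agent.MG.G0

namespace SDN

section

variable {I A B : Type} [CommRing A] [CommRing B]

theorem exists_lift (hKBC : Stmt_KBC) {φ : A →+* B} (hφ : Function.Surjective φ)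
    {P : Subalgebra A (KK I A)} {w : KK I B} (hw : w ∈ bc φ P) : ∃ p ∈ P, kmap φ p = w := by
  have h2 : w ∈ Submodule.span B (kmap φ '' (P : Set (KK I A))) := by
    rw [← hKBC.1 φ P]
    exact hw
  clear hw
  induction h2 using Submodule.span_induction with
  | mem x hx =>
    obtain ⟨p, hp, rfl⟩ := hx
    exact ⟨p, hp, rfl⟩
  | zero => exact ⟨0, zero_mem P, map_zero _⟩
  | add x y _ _ hx hy =>
    obtain ⟨p, hp, rfl⟩ := hx
    obtain ⟨q, hq, rfl⟩ := hy
    exact ⟨p + q, add_mem hp hq, map_add _ _ _⟩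
  | smul b x _ hx =>
    obtain ⟨p, hp, rfl⟩ := hx
    obtain ⟨a, rfl⟩ := hφ b
    exact ⟨a • p, P.smul_mem hp a, kmap_smul _ _ _⟩

theorem kmap_mem_TT (hKBC : Stmt_KBC) {φ : A →+* B} (hφ : Function.Surjective φ)
    {P : Subalgebra A (KK I A)} {θ : KK I A} (hθ : θ ∈ TT P) : kmap φ θ ∈ TT (bc φ P) := by
  intro f hf
  obtain ⟨p, hp, rfl⟩ := exists_lift hKBC hφ hf
  rw [← kmap_dd, ← map_mul]
  exact kmap_mem_bc φ (hθ p hp)

theorem kmap_mem_Perp [Fintype I] (hKBC : Stmt_KBC) {φ : A →+* B} (hφ : Function.Surjective φ)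
    {P : Subalgebra A (KK I A)} {η : KK I A} (hη : η ∈ Perp P) : kmap φ η ∈ Perp (bc φ P) := by
  intro f hf
  obtain ⟨p, hp, rfl⟩ := exists_lift hKBC hφ hf
  rw [← map_mul, res_kmap, hη p hp, map_zero]

theorem le_of_le_nilpotent {M : Type} [AddCommGroup M] [Module A M] (J : Ideal A)
    (K N : Submodule A M) (h : N ≤ K ⊔ J • N) (n : ℕ) : N ≤ K ⊔ J ^ n • N := by
  induction n with
  | zero =>
    rw [pow_zero, Ideal.one_eq_top, Submodule.top_smul]
    exact le_sup_right
  | succ n ih =>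
    refine ih.trans (sup_le le_sup_left ?_)
    calc J ^ n • N ≤ J ^ n • (K ⊔ J • N) := Submodule.smul_mono le_rfl h
      _ = J ^ n • K ⊔ J ^ (n + 1) • N := by
        rw [Submodule.smul_sup, ← Submodule.mul_smul, ← pow_succ]
      _ ≤ K ⊔ J ^ (n + 1) • N := sup_le_sup_right Submodule.smul_le_right _

end

end SDN

theorem t_SDN (hKBC : Stmt_KBC) (hSTO : Stmt_STO) (hPNI : Stmt_PNI) : Stmt_SDN := by
  intro I A B _ _ _ _ g P hP hS φ hφ hfg hnil hD
  obtain ⟨n, hn⟩ := hnil
  obtain ⟨hOm, -, -, -, h1⟩ := hSTO hP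
  obtain ⟨-, ⟨m, θ, γ, hθ, hγ, hsum⟩, hdual⟩ := h1 hS
  rw [hdual]
  have key : Perp P ≤ Om P ⊔ RingHom.ker φ • Perp P := by
    intro η hη
    have h2 : ∀ i, ∃ p ∈ P, kmap φ p = kmap φ (θ i) * kmap φ η := fun i =>
      SDN.exists_lift hKBC hφ
        (hD _ (SDN.kmap_mem_TT hKBC hφ (hθ i)) _ (SDN.kmap_mem_Perp hKBC hφ hη))
    choose w hw hw1 using h2
    have h3 : ∑ i, w i * dd (γ i) ∈ Om P :=
      Submodule.sum_mem _ fun i _ => Submodule.subset_span ⟨w i, hw i, γ i, hγ i, rfl⟩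
    have h4 : kmap φ (η - ∑ i, w i * dd (γ i)) = 0 := by
      have h5 : η = ∑ i, θ i * η * dd (γ i) := by
        calc η = (∑ i, θ i * dd (γ i)) * η := by rw [hsum, one_mul]
          _ = ∑ i, θ i * η * dd (γ i) := by
            rw [Finset.sum_mul]
            exact Finset.sum_congr rfl fun i _ => by ring
      have h6 : kmap φ η = ∑ i, kmap φ (θ i) * kmap φ η * kmap φ (dd (γ i)) := by
        conv_lhs => rw [h5]
        rw [map_sum]
        exact Finset.sum_congr rfl fun i _ => by rw [map_mul, map_mul]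
      rw [map_sub, map_sum, h6, sub_eq_zero]
      exact Finset.sum_congr rfl fun i _ => by rw [map_mul, hw1]
    have h5 : η - ∑ i, w i * dd (γ i) ∈ RingHom.ker φ • Perp P := by
      refine hPNI hP (RingHom.ker φ) hfg _ (Submodule.sub_mem _ hη (hOm h3)) fun i k => ?_
      rw [RingHom.mem_ker, ← lmap_coeff, ← kmap_apply, h4, Pi.zero_apply, HahnSeries.coeff_zero]
    rw [Submodule.mem_sup]
    exact ⟨_, h3, _, h5, by abel⟩
  have h2 := SDN.le_of_le_nilpotent (RingHom.ker φ) (Om P) (Perp P) key n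
  rwa [hn, Submodule.bot_smul, sup_bot_eq] at h2

end Pool.Agent.MG.G0


end

section

/-!
# Theorem G: functions of two formal points (PAPER_TG.md, abstract part)
-/

open TensorProduct

namespace Pool.Agent.MG.G0

/-- Laurent series over a `B`-algebra. -/
noncomputable instance (priority := 4500) lsB (B S : Type) [CommRing B] [CommRing S]
    [Algebra B S] : Algebra B (LaurentSeries S) :=
  HahnSeries.instAlgebra

theorem lsB_algebraMap {B S : Type} [CommRing B] [CommRing S] [Algebra B S] (b : B) :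
    algebraMap B (LaurentSeries S) b = HahnSeries.C (algebraMap B S b) := rfl

/-- The coefficientwise application of a homomorphism of `B`-algebras. -/
noncomputable def lmapB {B S T : Type} [CommRing B] [CommRing S] [CommRing T] [Algebra B S]
    [Algebra B T] (i : S →ₐ[B] T) : LaurentSeries S →ₐ[B] LaurentSeries T :=
  { toRingHom := lmap (i : S →+* T)
    commutes' := fun b => by
      change lmap (i : S →+* T) (algebraMap B _ b) = _
      rw [lsB_algebraMap, lsB_algebraMap]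
      ext n
      rw [lmap_coeff, HahnSeries.C_apply, HahnSeries.C_apply]
      by_cases h : n = 0
      · subst h
        simp
      · rw [HahnSeries.coeff_single_of_ne h, HahnSeries.coeff_single_of_ne h, map_zero] }

@[simp] theorem lmapB_coeff {B S T : Type} [CommRing B] [CommRing S] [CommRing T] [Algebra B S]
    [Algebra B T] (i : S →ₐ[B] T) (f : LaurentSeries S) (n : ℤ) :
    (lmapB i f).coeff n = i (f.coeff n) := rfl

/-! ## Charts and formal points -/

/-- `x` is a coordinate of the `B`-algebra `S`: `Δ x = 1` and `df = Δ(f) dx`. -/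
structure IsChart (B S : Type) [CommRing B] [CommRing S] [Algebra B S] (x : S)
    (Δ : Derivation B S S) : Prop where
  one : Δ x = 1
  gen : ∀ f : S, KaehlerDifferential.D B S f = Δ f • KaehlerDifferential.D B S x

/-- The extension of `q : S → A` to `A ⊗ S`. -/
noncomputable def exq {B S A : Type} [CommRing B] [CommRing S] [CommRing A] [Algebra B S]
    [Algebra B A] (q : S →ₐ[B] A) : A ⊗[B] S →ₐ[A] A :=
  Algebra.TensorProduct.lift (AlgHom.id A A) q fun _ _ => Commute.all _ _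

/-- The map `A ⊗ S → A ⊗ T` given by `i : S → T`. -/
noncomputable def tmp (A : Type) {B S T : Type} [CommRing B] [CommRing S] [CommRing T]
    [CommRing A] [Algebra B S] [Algebra B T] [Algebra B A] (i : S →ₐ[B] T) :
    A ⊗[B] S →ₐ[A] A ⊗[B] T :=
  Algebra.TensorProduct.map (AlgHom.id A A) i

/-- The coefficients of a power series in formal variables: the series
`u + α_(b,0) u^2 + α_(b,1) u^3 + ...`. -/
noncomputable def gs (A : Type) [CommRing A] (b : Bool) :
    PowerSeries (MvPolynomial (Bool × ℕ) A) :=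
  PowerSeries.mk fun n => if n = 0 then 0 else if n = 1 then 1 else MvPolynomial.X (b, n - 2)

/-- The part of the weight of a monomial which belongs to the variables `(b, i)` (of weight
`i + 1`). -/
noncomputable def wtb (b : Bool) (m : (Bool × ℕ) →₀ ℕ) : ℕ :=
  m.sum fun v k => if v.1 = b then k * (v.2 + 1) else 0

/-- The weight of a monomial. -/
noncomputable def wt (m : (Bool × ℕ) →₀ ℕ) : ℕ := wtb true m + wtb false m

/-- The points `p`, `q` are disjoint. -/
def DisjP {B S A : Type} [CommRing B] [CommRing S] [CommRing A] [Algebra B S] [Algebra B A]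
    (p q : S →ₐ[B] A) : Prop :=
  Ideal.span (Set.range fun f : S => p f - q f) = ⊤

/-- `h` is the formal point with constant part `p` and `h x = p(x) + u + α_(b,0) u^2 + ...`. -/
def IsUP {B S A : Type} [CommRing B] [CommRing S] [CommRing A] [Algebra B S] [Algebra B A]
    (x : S) (b : Bool) (p : S →ₐ[B] A)
    (h : S →ₐ[B] PowerSeries (MvPolynomial (Bool × ℕ) A)) : Prop :=
  (∀ f, PowerSeries.constantCoeff (h f) = MvPolynomial.C (p f)) ∧
    h x = PowerSeries.C (MvPolynomial.C (p x)) + gs A b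

/-- A pair of formal points with disjoint constant parts. -/
def VPair {B S A : Type} [CommRing B] [CommRing S] [CommRing A] [Algebra B S] [Algebra B A]
    (x : S) (h k : S →ₐ[B] PowerSeries A) : Prop :=
  IsUnit (PowerSeries.coeff 1 (h x)) ∧ IsUnit (PowerSeries.coeff 1 (k x)) ∧
    Ideal.span (Set.range fun f : S =>
      PowerSeries.constantCoeff (h f) - PowerSeries.constantCoeff (k f)) = ⊤

/-! ## Two charts without vector fields -/

/-- A curve of genus at least two with two charts `S true`, `S false` and their intersection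
`T`. -/
structure TGD (B : Type) [CommRing B] (S : Bool → Type) [∀ j, CommRing (S j)]
    [∀ j, Algebra B (S j)] (T : Type) [CommRing T] [Algebra B T] where
  /-- the coordinates -/
  x : ∀ j, S j
  /-- the derivations -/
  Δ : ∀ j, Derivation B (S j) (S j)
  /-- the restriction to the intersection -/
  i : ∀ j, S j →ₐ[B] T
  /-- the derivation of the first chart on the intersection -/
  ΔT : Derivation B T T
  inv : ∀ n : ℕ, n ≠ 0 → IsUnit (n : B)
  ch : ∀ j, IsChart B (S j) (x j) (Δ j)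
  chT : IsChart B T (i true (x true)) ΔT
  gu : IsUnit (ΔT (i false (x false)))
  ft : ∀ j, Algebra.FiniteType B (S j)
  inj : ∀ (j : Bool) (A : Type) [CommRing A] [Algebra B A],
    Function.Injective (tmp A (i j))
  nz : ∀ (j : Bool) (A : Type) [CommRing A] [Algebra B A] (a : A),
    ((1 : A) ⊗ₜ[B] i j (x j) - a ⊗ₜ[B] (1 : T) : A ⊗[B] T) ∈ nonZeroDivisors (A ⊗[B] T)
  ns : ∀ (A : Type) [CommRing A] [Algebra B A] (n : ℕ) (c : A) (e₁ : A ⊗[B] S true)
    (e₂ : A ⊗[B] S false), 1 ≤ n → IsUnit c →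
    tmp A (i false) e₂ = (c ⊗ₜ[B] (ΔT (i false (x false)) ^ n)) * tmp A (i true) e₁ → e₁ = 0

section

variable {B : Type} [CommRing B] {S : Bool → Type} [∀ j, CommRing (S j)]
  [∀ j, Algebra B (S j)] {T : Type} [CommRing T] [Algebra B T]

/-- The ratio of the two derivations. -/
noncomputable def TGD.g (G : TGD B S T) : T := G.ΔT (G.i false (G.x false))

/-- Functions of pairs of points. -/
structure PFun (G : TGD B S T) (a b : ℕ) where
  /-- the value -/
  e : ∀ (j : Bool) (A : Type) [CommRing A] [Algebra B A], (S j →ₐ[B] A) → (S j →ₐ[B] A) → A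
  nat : ∀ (j : Bool) {A A' : Type} [CommRing A] [CommRing A'] [Algebra B A] [Algebra B A']
    (φ : A →ₐ[B] A') (p q : S j →ₐ[B] A), DisjP p q →
      e j A' (φ.comp p) (φ.comp q) = φ (e j A p q)
  trans : ∀ {A : Type} [CommRing A] [Algebra B A] (p q : T →ₐ[B] A),
    (∀ j, IsUnit (p (G.i j (G.x j)) - q (G.i j (G.x j)))) →
      e false A (p.comp (G.i false)) (q.comp (G.i false)) =
        p G.g ^ a * q G.g ^ b * e true A (p.comp (G.i true)) (q.comp (G.i true))

/-- Functions of pairs of formal points, of weight `w`. -/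
structure GFn (G : TGD B S T) (w : ℕ) where
  /-- the value -/
  c : ∀ (j : Bool) (A : Type) [CommRing A] [Algebra B A], (S j →ₐ[B] PowerSeries A) →
    (S j →ₐ[B] PowerSeries A) → A
  nat : ∀ (j : Bool) {A A' : Type} [CommRing A] [CommRing A'] [Algebra B A] [Algebra B A']
    (φ : A →ₐ[B] A') (h k : S j →ₐ[B] PowerSeries A) (h' k' : S j →ₐ[B] PowerSeries A'),
    VPair (G.x j) h k → (∀ f, h' f = PowerSeries.map (φ : A →+* A') (h f)) →
    (∀ f, k' f = PowerSeries.map (φ : A →+* A') (k f)) → c j A' h' k' = φ (c j A h k)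
  hom : ∀ (j : Bool) {A : Type} [CommRing A] [Algebra B A]
    (h k h' k' : S j →ₐ[B] PowerSeries A) (l m : Aˣ), VPair (G.x j) h k →
    (∀ f, h' f = PowerSeries.rescale (l : A) (h f)) →
    (∀ f, k' f = PowerSeries.rescale (m : A) (k f)) →
    ((l : A) * (m : A)) ^ w * c j A h' k' = c j A h k
  agr : ∀ {A : Type} [CommRing A] [Algebra B A] (h k : T →ₐ[B] PowerSeries A),
    (∀ j, VPair (G.x j) (h.comp (G.i j)) (k.comp (G.i j))) →
    (∀ j, IsUnit (PowerSeries.constantCoeff (h (G.i j (G.x j))) -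
      PowerSeries.constantCoeff (k (G.i j (G.x j))))) →
    c true A (h.comp (G.i true)) (k.comp (G.i true)) =
      c false A (h.comp (G.i false)) (k.comp (G.i false))

end

/-! ## Statements -/

/-- TFP: formal points in a chart. -/
def Stmt_TFP : Prop :=
  ∀ {B S : Type} [CommRing B] [CommRing S] [Algebra B S] {x : S} {Δ : Derivation B S S},
    (∀ n : ℕ, n ≠ 0 → IsUnit (n : B)) → IsChart B S x Δ →
    ∀ {A : Type} [CommRing A] [Algebra B A],
    (∀ h h' : S →ₐ[B] PowerSeries A,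
      (∀ f, PowerSeries.constantCoeff (h f) = PowerSeries.constantCoeff (h' f)) →
      h x = h' x → h = h') ∧
    (∀ (p : S →ₐ[B] A) (s : PowerSeries A), PowerSeries.constantCoeff s = 0 →
      ∃ h : S →ₐ[B] PowerSeries A, (∀ f, PowerSeries.constantCoeff (h f) = p f) ∧
        h x = PowerSeries.C (p x) + s ∧
        ∀ (f : S) (n : ℕ), PowerSeries.coeff n (h f) = ∑ k ∈ Finset.range (n + 1),
          Ring.inverse ((k.factorial : ℕ) : A) * p ((⇑Δ)^[k] f) * PowerSeries.coeff n (s ^ k)) ∧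
    ∀ (h : S →ₐ[B] PowerSeries A) (f : S), PowerSeries.coeff 1 (h f) =
      PowerSeries.constantCoeff (h (Δ f)) * PowerSeries.coeff 1 (h x)

/-- TWT: weights. -/
def Stmt_TWT : Prop :=
  (∀ {A : Type} [CommRing A]
    (Ψ : MvPolynomial (Bool × ℕ) A →ₐ[A] MvPolynomial (Bool × ℕ) A) (l : Bool → A),
    (∀ (v : Bool × ℕ) (m : (Bool × ℕ) →₀ ℕ), v.2 + 1 ≤ wt m → MvPolynomial.coeff m
      (Ψ (MvPolynomial.X v) - MvPolynomial.C (l v.1 ^ (v.2 + 1)) * MvPolynomial.X v) = 0) →
    ∀ (F : MvPolynomial (Bool × ℕ) A) (J : ℕ),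
      (∀ m, J < wt m → MvPolynomial.coeff m F = 0) → ∀ m, wt m = J →
        MvPolynomial.coeff m (Ψ F) =
          l true ^ wtb true m * l false ^ wtb false m * MvPolynomial.coeff m F) ∧
  ∀ {A : Type} [CommRing A] (b : Bool) (k n : ℕ) (m : (Bool × ℕ) →₀ ℕ), n < wt m + k →
    MvPolynomial.coeff m (PowerSeries.coeff n (gs A b ^ k)) = 0

/-- TGA (TG3): vanishing at the diagonal. -/
def Stmt_TGA : Prop :=
  ∀ {B : Type} [CommRing B] {S : Bool → Type} [∀ j, CommRing (S j)] [∀ j, Algebra B (S j)]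
    {T : Type} [CommRing T] [Algebra B T] (G : TGD B S T) {a b : ℕ} (F : PFun G a b),
    1 ≤ a → 1 ≤ b → ∀ (j : Bool) (p q : S j →ₐ[B] LaurentSeries (S j))
      (h : S j →ₐ[B] PowerSeries (S j)), (∀ f, PowerSeries.constantCoeff (h f) = f) →
      h (G.x j) = PowerSeries.C (G.x j) + PowerSeries.X → (∀ f, p f = psl (S j) (h f)) →
      (∀ f, q f = HahnSeries.C f) → ∀ n : ℤ, n < a + b → (F.e j (LaurentSeries (S j)) p q).coeff n = 0

/-- TGR (REG): a section which is regular outside a point and at the formal point is regular. -/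
def Stmt_TGR : Prop :=
  ∀ {B S : Type} [CommRing B] [CommRing S] [Algebra B S] {x : S} {Δ : Derivation B S S},
    (∀ n : ℕ, n ≠ 0 → IsUnit (n : B)) → IsChart B S x Δ → Algebra.FiniteType B S →
    ∀ {A : Type} [CommRing A] [Algebra B A] (q : S →ₐ[B] A)
      (h : A ⊗[B] S →ₐ[A] PowerSeries A), (∀ r, PowerSeries.constantCoeff (h r) = exq q r) →
      h (1 ⊗ₜ[B] x) = PowerSeries.C (q x) + PowerSeries.X →
      (RingHom.ker (exq q)).FG ∧
      (∀ (n : ℕ) (r : A ⊗[B] S), (∀ m < n, PowerSeries.coeff m (h r) = 0) →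
        r ∈ RingHom.ker (exq q) ^ n) ∧
      ∀ (N : ℕ) (r : A ⊗[B] S),
        (∀ ρ ∈ RingHom.ker (exq q), ∃ (n : ℕ) (r' : A ⊗[B] S),
          ρ ^ n * r = (1 ⊗ₜ[B] x - q x ⊗ₜ[B] 1) ^ N * r') →
        (∀ m < N, PowerSeries.coeff m (h r) = 0) →
        ∃ r' : A ⊗[B] S, r = (1 ⊗ₜ[B] x - q x ⊗ₜ[B] 1) ^ N * r'

/-- TGB (TG4): vanishing if one of the points is in the intersection of the charts. -/
def Stmt_TGB : Prop :=
  ∀ {B : Type} [CommRing B] {S : Bool → Type} [∀ j, CommRing (S j)] [∀ j, Algebra B (S j)]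
    {T : Type} [CommRing T] [Algebra B T] (G : TGD B S T) {a b : ℕ} (F : PFun G a b),
    1 ≤ a → 1 ≤ b → ∀ (j : Bool) {A : Type} [CommRing A] [Algebra B A] (p : S j →ₐ[B] A)
      (q : T →ₐ[B] A), DisjP p (q.comp (G.i j)) → F.e j A p (q.comp (G.i j)) = 0

/-- TGC (TG5): functions of pairs of points vanish. -/
def Stmt_TGC : Prop :=
  ∀ {B : Type} [CommRing B] {S : Bool → Type} [∀ j, CommRing (S j)] [∀ j, Algebra B (S j)]
    {T : Type} [CommRing T] [Algebra B T] (G : TGD B S T) {a b : ℕ} (F : PFun G a b),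
    1 ≤ a → 1 ≤ b → ∀ (j : Bool) {A : Type} [CommRing A] [Algebra B A] (p q : S j →ₐ[B] A),
      DisjP p q → F.e j A p q = 0

/-- TGN: the values at the formal points with indeterminate coefficients have bounded weight. -/
def Stmt_TGN : Prop :=
  ∀ {B : Type} [CommRing B] {S : Bool → Type} [∀ j, CommRing (S j)] [∀ j, Algebra B (S j)]
    {T : Type} [CommRing T] [Algebra B T] (G : TGD B S T) {w : ℕ} (F : GFn G w),
    ∃ N : ℕ, ∀ (j : Bool) {A : Type} [CommRing A] [Algebra B A] (p q : S j →ₐ[B] A)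
      (h k : S j →ₐ[B] PowerSeries (MvPolynomial (Bool × ℕ) A)), DisjP p q →
      IsUP (G.x j) true p h → IsUP (G.x j) false q k → ∀ m, N < wt m →
        MvPolynomial.coeff m (F.c j (MvPolynomial (Bool × ℕ) A) h k) = 0

/-- TGT: the transformation of the coefficients of largest weight. -/
def Stmt_TGT : Prop :=
  ∀ {B : Type} [CommRing B] {S : Bool → Type} [∀ j, CommRing (S j)] [∀ j, Algebra B (S j)]
    {T : Type} [CommRing T] [Algebra B T] (G : TGD B S T) {w : ℕ} (F : GFn G w) {A : Type}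
    [CommRing A] [Algebra B A] (p q : T →ₐ[B] A),
    (∀ j, IsUnit (p (G.i j (G.x j)) - q (G.i j (G.x j)))) →
    ∀ h k : ∀ j, S j →ₐ[B] PowerSeries (MvPolynomial (Bool × ℕ) A),
      (∀ j, IsUP (G.x j) true (p.comp (G.i j)) (h j)) →
      (∀ j, IsUP (G.x j) false (q.comp (G.i j)) (k j)) → ∀ J : ℕ,
      (∀ j m, J < wt m →
        MvPolynomial.coeff m (F.c j (MvPolynomial (Bool × ℕ) A) (h j) (k j)) = 0) →
      ∀ m, wt m = J →
        MvPolynomial.coeff m (F.c false (MvPolynomial (Bool × ℕ) A) (h false) (k false)) =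
          p G.g ^ (w + wtb true m) * q G.g ^ (w + wtb false m) *
            MvPolynomial.coeff m (F.c true (MvPolynomial (Bool × ℕ) A) (h true) (k true))

/-- TGG: Theorem G. -/
def Stmt_TGG : Prop :=
  ∀ {B : Type} [CommRing B] {S : Bool → Type} [∀ j, CommRing (S j)] [∀ j, Algebra B (S j)]
    {T : Type} [CommRing T] [Algebra B T] (G : TGD B S T) {w : ℕ} (F : GFn G w), 1 ≤ w →
    ∀ (j : Bool) {A : Type} [CommRing A] [Algebra B A] (h k : S j →ₐ[B] PowerSeries A),
      VPair (G.x j) h k → F.c j A h k = 0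

end Pool.Agent.MG.G0


end

section

/-!
# TGC (TG5): functions of pairs of points vanish (PAPER_TG.md, TGC)
-/

open TensorProduct

namespace Pool.Agent.MG.G0

namespace TGC

section

variable {B : Type} [CommRing B]

/-- Maps from a localization of a `B`-algebra. -/
theorem lift_away {R A : Type} [CommRing R] [CommRing A] [Algebra B R] [Algebra B A]
    (π : R →ₐ[B] A) (ρ : R) (h : IsUnit (π ρ)) :
    ∃ ψ : Localization.Away ρ →ₐ[B] A, ∀ r, ψ (algebraMap R _ r) = π r := by
  have h1 : ∀ y : Submonoid.powers ρ, IsUnit (π y) := by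
    rintro ⟨_, n, rfl⟩
    simpa using h.pow n
  exact ⟨IsLocalization.liftAlgHom h1, fun r => IsLocalization.lift_eq _ r⟩

/-- The localization at `ρ`, as a homomorphism of `B`-algebras. -/
noncomputable def loc {R : Type} [CommRing R] [Algebra B R] (ρ : R) :
    R →ₐ[B] Localization.Away ρ :=
  IsScalarTower.toAlgHom B R (Localization.Away ρ)

theorem loc_apply {R : Type} [CommRing R] [Algebra B R] (ρ r : R) :
    loc (B := B) ρ r = algebraMap R (Localization.Away ρ) r := rfl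

theorem isUnit_loc {R : Type} [CommRing R] [Algebra B R] (ρ : R) :
    IsUnit (loc (B := B) ρ ρ) :=
  IsLocalization.Away.algebraMap_isUnit ρ

/-- If `p f - q f` is a unit then `p`, `q` are disjoint. -/
theorem disj_of_isUnit {S A : Type} [CommRing S] [CommRing A] [Algebra B S] [Algebra B A]
    {p q : S →ₐ[B] A} (f : S) (h : IsUnit (p f - q f)) : DisjP p q :=
  Ideal.eq_top_of_isUnit_mem _ (Ideal.subset_span ⟨f, rfl⟩) h

/-- The localization of an injective homomorphism is injective. -/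
theorem inj_away {R R' : Type} [CommRing R] [CommRing R'] [Algebra B R] [Algebra B R']
    (θ : R →ₐ[B] R') (hθ : Function.Injective θ) (ρ : R)
    (ψ : Localization.Away ρ →ₐ[B] Localization.Away (θ ρ))
    (hψ : ∀ r, ψ (algebraMap R _ r) = algebraMap R' _ (θ r)) : Function.Injective ψ := by
  rw [injective_iff_map_eq_zero]
  intro z hz
  obtain ⟨⟨r, s⟩, hs⟩ := IsLocalization.surj (Submonoid.powers ρ) z
  dsimp only at hs
  have h1 : algebraMap R' (Localization.Away (θ ρ)) (θ r) = 0 := by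
    rw [← hψ, ← hs, map_mul, hz, zero_mul]
  obtain ⟨⟨_, n, rfl⟩, hm⟩ := (IsLocalization.map_eq_zero_iff (Submonoid.powers (θ ρ)) _ _).1 h1
  dsimp only at hm
  have h2 : ρ ^ n * r = 0 := by
    apply hθ
    rw [map_mul, map_pow, map_zero]
    exact hm
  have h3 : algebraMap R (Localization.Away ρ) r = 0 :=
    (IsLocalization.map_eq_zero_iff (Submonoid.powers ρ) _ _).2 ⟨⟨ρ ^ n, n, rfl⟩, h2⟩
  rw [h3] at hs
  exact (IsLocalization.map_units (Localization.Away ρ) s).mul_left_eq_zero.1 hs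

end

section

variable {B : Type} [CommRing B] {S : Bool → Type} [∀ j, CommRing (S j)]
  [∀ j, Algebra B (S j)] {T : Type} [CommRing T] [Algebra B T]

/-- The first universal point. -/
noncomputable def up (j : Bool) : S j →ₐ[B] S j ⊗[B] S j := Algebra.TensorProduct.includeLeft

/-- The second universal point. -/
noncomputable def uq (j : Bool) : S j →ₐ[B] S j ⊗[B] S j := Algebra.TensorProduct.includeRight

/-- The functions vanish at the universal pairs. -/
theorem univ_zero (h1 : Stmt_TGB) (G : TGD B S T) {a b : ℕ} (F : PFun G a b) (ha : 1 ≤ a)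
    (hb : 1 ≤ b) (j : Bool) (f : S j) :
    F.e j (Localization.Away (up (B := B) j f - uq (B := B) j f))
      ((loc (up (B := B) j f - uq (B := B) j f)).comp (up j))
      ((loc (up (B := B) j f - uq (B := B) j f)).comp (uq j)) = 0 := by
  set ρ : S j ⊗[B] S j := up (B := B) j f - uq (B := B) j f with hρ
  set θ : S j ⊗[B] S j →ₐ[B] S j ⊗[B] T := (tmp (S j) (G.i j)).restrictScalars B with hθ
  have hinj : Function.Injective θ := G.inj j (S j)
  have hu : IsUnit (((loc (B := B) (θ ρ)).comp θ) ρ) := isUnit_loc (B := B) (θ ρ)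
  obtain ⟨ψ, hψ⟩ := lift_away ((loc (B := B) (θ ρ)).comp θ) ρ hu
  have hψi : Function.Injective ψ := inj_away θ hinj ρ ψ hψ
  apply hψi
  rw [map_zero]
  have hd : DisjP ((loc (B := B) ρ).comp (up j)) ((loc (B := B) ρ).comp (uq j)) := by
    refine disj_of_isUnit f ?_
    have h2 := isUnit_loc (B := B) ρ
    rw [hρ, map_sub] at h2
    exact h2
  rw [← F.nat j ψ _ _ hd]
  set q' : T →ₐ[B] Localization.Away (θ ρ) :=
    (loc (B := B) (θ ρ)).comp Algebra.TensorProduct.includeRight with hq'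
  have hq : ψ.comp ((loc (B := B) ρ).comp (uq j)) = q'.comp (G.i j) := by
    refine AlgHom.ext fun g => ?_
    change ψ (algebraMap _ _ (uq (B := B) j g)) = _
    rw [hψ]
    change loc (B := B) (θ ρ) (θ ((1 : S j) ⊗ₜ[B] g)) =
      loc (B := B) (θ ρ) ((1 : S j) ⊗ₜ[B] G.i j g)
    rfl
  rw [hq]
  refine h1 G F ha hb j _ q' ?_
  rw [← hq]
  refine disj_of_isUnit f ?_
  change IsUnit (ψ (algebraMap _ _ (up (B := B) j f)) - ψ (algebraMap _ _ (uq (B := B) j f)))
  rw [← map_sub, ← map_sub, ← hρ, hψ]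
  exact hu

end

end TGC

/-- TGC (TG5): functions of pairs of points vanish. -/
theorem t_TGC (h1 : Stmt_TGB) : Stmt_TGC := by
  intro B _ S _ _ T _ _ G a b F ha hb j A _ _ p q hpq
  set E := F.e j A p q with hE
  have key : ∀ f : S j, ∃ n : ℕ, (p f - q f) ^ n * E = 0 := by
    intro f
    set π : S j ⊗[B] S j →ₐ[B] A :=
      Algebra.TensorProduct.lift p q (fun _ _ => Commute.all _ _) with hπ
    have hp : ∀ g, π (TGC.up j g) = p g := by
      intro g
      change π (g ⊗ₜ[B] (1 : S j)) = p g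
      rw [hπ, Algebra.TensorProduct.lift_tmul, map_one, mul_one]
    have hq : ∀ g, π (TGC.uq j g) = q g := by
      intro g
      change π ((1 : S j) ⊗ₜ[B] g) = q g
      rw [hπ, Algebra.TensorProduct.lift_tmul, map_one, one_mul]
    set ρ : S j ⊗[B] S j := TGC.up (B := B) j f - TGC.uq (B := B) j f with hρ
    have hπρ : π ρ = p f - q f := by rw [hρ, map_sub, hp, hq]
    set al : A →ₐ[B] Localization.Away (p f - q f) := TGC.loc (B := B) (p f - q f) with hal
    have hu : IsUnit ((al.comp π) ρ) := by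
      rw [AlgHom.comp_apply, hπρ]
      exact TGC.isUnit_loc (B := B) (p f - q f)
    obtain ⟨ψ, hψ⟩ := TGC.lift_away (al.comp π) ρ hu
    have hd : DisjP ((TGC.loc (B := B) ρ).comp (TGC.up j))
        ((TGC.loc (B := B) ρ).comp (TGC.uq j)) := by
      refine TGC.disj_of_isUnit f ?_
      have h2 := TGC.isUnit_loc (B := B) ρ
      rw [hρ, map_sub] at h2
      exact h2
    have e1 : al.comp p = ψ.comp ((TGC.loc (B := B) ρ).comp (TGC.up j)) := by
      refine AlgHom.ext fun g => ?_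
      change al (p g) = ψ (algebraMap _ _ (TGC.up (B := B) j g))
      rw [hψ, AlgHom.comp_apply, hp]
    have e2 : al.comp q = ψ.comp ((TGC.loc (B := B) ρ).comp (TGC.uq j)) := by
      refine AlgHom.ext fun g => ?_
      change al (q g) = ψ (algebraMap _ _ (TGC.uq (B := B) j g))
      rw [hψ, AlgHom.comp_apply, hq]
    have h3 : al E = 0 := by
      rw [hE, ← F.nat j al p q hpq, e1, e2, F.nat j ψ _ _ hd, TGC.univ_zero h1 G F ha hb j f,
        map_zero]
    obtain ⟨⟨_, n, rfl⟩, hm⟩ :=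
      (IsLocalization.map_eq_zero_iff (Submonoid.powers (p f - q f)) _ _).1 h3
    exact ⟨n, hm⟩
  have h4 : (Ideal.span {E}).annihilator.radical = ⊤ := by
    rw [eq_top_iff, ← hpq]
    refine Ideal.span_le.2 ?_
    rintro _ ⟨f, rfl⟩
    obtain ⟨n, hn⟩ := key f
    exact ⟨n, (Submodule.mem_annihilator_span_singleton E _).2 hn⟩
  rw [Ideal.radical_eq_top] at h4
  have h5 : (1 : A) ∈ (Ideal.span {E}).annihilator := by
    rw [h4]
    exact Submodule.mem_top
  have h6 := (Submodule.mem_annihilator_span_singleton E (1 : A)).1 h5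
  rwa [one_smul] at h6

end Pool.Agent.MG.G0


end

section

/-!
# TWT: weights of polynomials in formal coefficients
-/

open TensorProduct

namespace Pool.Agent.MG.G0

namespace TWT

section

theorem wtb_zero (b : Bool) : wtb b 0 = 0 := Finsupp.sum_zero_index

theorem wt_zero : wt 0 = 0 := by
  rw [wt, wtb_zero, wtb_zero]

theorem wtb_add (b : Bool) (m m' : (Bool × ℕ) →₀ ℕ) : wtb b (m + m') = wtb b m + wtb b m' := by
  unfold wtb
  refine Finsupp.sum_add_index' (fun v => ?_) fun v k k' => ?_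
  · rw [zero_mul, ite_self]
  · split_ifs
    · rw [add_mul]
    · rfl

theorem wt_add (m m' : (Bool × ℕ) →₀ ℕ) : wt (m + m') = wt m + wt m' := by
  rw [wt, wt, wt, wtb_add, wtb_add]
  omega

theorem wtb_single (b : Bool) (v : Bool × ℕ) :
    wtb b (Finsupp.single v 1) = if v.1 = b then v.2 + 1 else 0 := by
  unfold wtb
  rw [Finsupp.sum_single_index]
  · rw [one_mul]
  · rw [zero_mul, ite_self]

theorem wt_single (v : Bool × ℕ) : wt (Finsupp.single v 1) = v.2 + 1 := by
  obtain ⟨b, i⟩ := v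
  rw [wt, wtb_single, wtb_single]
  cases b <;> simp

variable {A : Type} [CommRing A]

/-- Weight at most `J`. -/
def Wle (J : ℕ) (F : MvPolynomial (Bool × ℕ) A) : Prop :=
  ∀ m, J < wt m → MvPolynomial.coeff m F = 0

/-- Weight less than `J`. -/
def Wlt (J : ℕ) (F : MvPolynomial (Bool × ℕ) A) : Prop :=
  ∀ m, J ≤ wt m → MvPolynomial.coeff m F = 0

theorem Wlt.le {J : ℕ} {F : MvPolynomial (Bool × ℕ) A} (h : Wlt J F) : Wle J F :=
  fun m hm => h m hm.le

theorem Wle.add {J : ℕ} {F F' : MvPolynomial (Bool × ℕ) A} (h : Wle J F) (h' : Wle J F') :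
    Wle J (F + F') := fun m hm => by
  rw [MvPolynomial.coeff_add, h m hm, h' m hm, add_zero]

theorem Wlt.add {J : ℕ} {F F' : MvPolynomial (Bool × ℕ) A} (h : Wlt J F) (h' : Wlt J F') :
    Wlt J (F + F') := fun m hm => by
  rw [MvPolynomial.coeff_add, h m hm, h' m hm, add_zero]

theorem Wlt.mul {J J' : ℕ} {F F' : MvPolynomial (Bool × ℕ) A} (h : Wlt J F) (h' : Wle J' F') :
    Wlt (J + J') (F * F') := fun m hm => by
  classical
  rw [MvPolynomial.coeff_mul]
  refine Finset.sum_eq_zero fun x hx => ?_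
  rw [Finset.HasAntidiagonal.mem_antidiagonal] at hx
  rw [← hx, wt_add] at hm
  by_cases h1 : J ≤ wt x.1
  · rw [h _ h1, zero_mul]
  · rw [h' x.2 (by omega), mul_zero]

theorem Wle_monomial (m : (Bool × ℕ) →₀ ℕ) (c : A) : Wle (wt m) (MvPolynomial.monomial m c) :=
  fun m' hm => by
    classical
    rw [MvPolynomial.coeff_monomial, if_neg]
    rintro rfl
    exact lt_irrefl _ hm

/-- The leading constant of a monomial. -/
noncomputable def lc (l : Bool → A) (m : (Bool × ℕ) →₀ ℕ) : A :=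
  l true ^ wtb true m * l false ^ wtb false m

theorem lc_zero (l : Bool → A) : lc l 0 = 1 := by
  rw [lc, wtb_zero, wtb_zero, pow_zero, pow_zero, one_mul]

theorem lc_add (l : Bool → A) (m m' : (Bool × ℕ) →₀ ℕ) : lc l (m + m') = lc l m * lc l m' := by
  rw [lc, lc, lc, wtb_add, wtb_add, pow_add, pow_add]
  ring

theorem lc_single (l : Bool → A) (v : Bool × ℕ) :
    lc l (Finsupp.single v 1) = l v.1 ^ (v.2 + 1) := by
  obtain ⟨b, i⟩ := v
  rw [lc, wtb_single, wtb_single]
  cases b <;> simp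

variable (Ψ : MvPolynomial (Bool × ℕ) A →ₐ[A] MvPolynomial (Bool × ℕ) A) (l : Bool → A)

/-- The transformation of a monomial. -/
def Tr (m : (Bool × ℕ) →₀ ℕ) : Prop :=
  Wlt (wt m) (Ψ (MvPolynomial.monomial m 1) - MvPolynomial.C (lc l m) * MvPolynomial.monomial m 1)

variable {Ψ l}

theorem Tr.zero : Tr Ψ l 0 := by
  intro m hm
  have h : (MvPolynomial.monomial (0 : (Bool × ℕ) →₀ ℕ) (1 : A)) = 1 := rfl
  rw [h, map_one, lc_zero, map_one, one_mul, sub_self, MvPolynomial.coeff_zero]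

theorem Tr.add {m m' : (Bool × ℕ) →₀ ℕ} (h : Tr Ψ l m) (h' : Tr Ψ l m') : Tr Ψ l (m + m') := by
  unfold Tr at *
  rw [wt_add, lc_add]
  have e1 : (MvPolynomial.monomial (m + m') (1 : A)) =
      MvPolynomial.monomial m 1 * MvPolynomial.monomial m' 1 := by
    rw [MvPolynomial.monomial_mul, one_mul]
  have e2 : Ψ (MvPolynomial.monomial (m + m') 1) -
      MvPolynomial.C (lc l m * lc l m') * MvPolynomial.monomial (m + m') 1 =
      (Ψ (MvPolynomial.monomial m 1) - MvPolynomial.C (lc l m) * MvPolynomial.monomial m 1) *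
        Ψ (MvPolynomial.monomial m' 1) +
      (Ψ (MvPolynomial.monomial m' 1) - MvPolynomial.C (lc l m') * MvPolynomial.monomial m' 1) *
        (MvPolynomial.C (lc l m) * MvPolynomial.monomial m 1) := by
    rw [e1, map_mul, map_mul]
    ring
  rw [e2]
  have h3 : Wle (wt m') (Ψ (MvPolynomial.monomial m' 1)) := by
    have e3 : Ψ (MvPolynomial.monomial m' 1) =
        (Ψ (MvPolynomial.monomial m' 1) - MvPolynomial.C (lc l m') *
          MvPolynomial.monomial m' 1) + MvPolynomial.monomial m' (lc l m' * 1) := by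
      rw [MvPolynomial.C_mul_monomial, sub_add_cancel]
    rw [e3]
    exact h'.le.add (Wle_monomial _ _)
  have h4 : Wle (wt m) (MvPolynomial.C (lc l m) * MvPolynomial.monomial m (1 : A)) := by
    rw [MvPolynomial.C_mul_monomial]
    exact Wle_monomial _ _
  refine (h.mul h3).add ?_
  rw [add_comm (wt m)]
  exact h'.mul h4

theorem Tr.single (h : ∀ (v : Bool × ℕ) (m : (Bool × ℕ) →₀ ℕ), v.2 + 1 ≤ wt m →
    MvPolynomial.coeff m (Ψ (MvPolynomial.X v) -
      MvPolynomial.C (l v.1 ^ (v.2 + 1)) * MvPolynomial.X v) = 0) (v : Bool × ℕ) (k : ℕ) :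
    Tr Ψ l (Finsupp.single v k) := by
  induction k with
  | zero =>
    rw [Finsupp.single_zero]
    exact Tr.zero
  | succ k ih =>
    rw [Finsupp.single_add]
    refine ih.add ?_
    intro m hm
    rw [wt_single] at hm
    rw [lc_single]
    exact h v m hm

theorem Tr.all (h : ∀ (v : Bool × ℕ) (m : (Bool × ℕ) →₀ ℕ), v.2 + 1 ≤ wt m →
    MvPolynomial.coeff m (Ψ (MvPolynomial.X v) -
      MvPolynomial.C (l v.1 ^ (v.2 + 1)) * MvPolynomial.X v) = 0) (m : (Bool × ℕ) →₀ ℕ) :
    Tr Ψ l m := by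
  induction m using Finsupp.induction_linear with
  | zero => exact Tr.zero
  | add m m' ih ih' => exact ih.add ih'
  | single v k => exact Tr.single h v k

theorem coeff_Psi (h : ∀ (v : Bool × ℕ) (m : (Bool × ℕ) →₀ ℕ), v.2 + 1 ≤ wt m →
    MvPolynomial.coeff m (Ψ (MvPolynomial.X v) -
      MvPolynomial.C (l v.1 ^ (v.2 + 1)) * MvPolynomial.X v) = 0)
    (F : MvPolynomial (Bool × ℕ) A) (J : ℕ)
    (hF : ∀ m, J < wt m → MvPolynomial.coeff m F = 0) (m : (Bool × ℕ) →₀ ℕ) (hm : wt m = J) :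
    MvPolynomial.coeff m (Ψ F) = lc l m * MvPolynomial.coeff m F := by
  classical
  have e1 : Ψ F = ∑ m' ∈ F.support, MvPolynomial.C (MvPolynomial.coeff m' F) *
      Ψ (MvPolynomial.monomial m' 1) := by
    conv_lhs => rw [F.as_sum, map_sum]
    refine Finset.sum_congr rfl fun m' _ => ?_
    have e2 : MvPolynomial.monomial m' (MvPolynomial.coeff m' F) =
        MvPolynomial.coeff m' F • MvPolynomial.monomial m' (1 : A) := by
      rw [MvPolynomial.smul_monomial, smul_eq_mul, mul_one]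
    rw [e2, map_smul, MvPolynomial.smul_eq_C_mul]
  rw [e1, MvPolynomial.coeff_sum]
  have e3 : ∀ m' ∈ F.support, MvPolynomial.coeff m (MvPolynomial.C (MvPolynomial.coeff m' F) *
      Ψ (MvPolynomial.monomial m' 1)) =
      if m' = m then lc l m * MvPolynomial.coeff m F else 0 := by
    intro m' hm'
    have h1 : wt m' ≤ J := by
      by_contra hc
      exact MvPolynomial.mem_support_iff.1 hm' (hF m' (not_le.1 hc))
    have h2 := Tr.all h m' m (by omega)
    rw [MvPolynomial.coeff_sub, MvPolynomial.coeff_C_mul, MvPolynomial.coeff_monomial,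
      sub_eq_zero] at h2
    rw [MvPolynomial.coeff_C_mul, h2]
    split_ifs with h3
    · subst h3
      ring
    · ring
  rw [Finset.sum_congr rfl e3, Finset.sum_ite_eq']
  split_ifs with h4
  · rfl
  · rw [MvPolynomial.notMem_support_iff.1 h4, mul_zero]

theorem coeff_gs (b : Bool) (n : ℕ) (m : (Bool × ℕ) →₀ ℕ) (h : n < wt m + 1) :
    MvPolynomial.coeff m (PowerSeries.coeff n (gs A b)) = 0 := by
  classical
  rw [gs, PowerSeries.coeff_mk]
  split_ifs with h0 h1
  · exact MvPolynomial.coeff_zero m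
  · rw [MvPolynomial.coeff_one, if_neg]
    rintro rfl
    rw [wt_zero] at h
    omega
  · rw [MvPolynomial.coeff_X, if_neg]
    rintro rfl
    rw [wt_single] at h
    dsimp only at h
    omega

theorem coeff_gs_pow (b : Bool) (k n : ℕ) (m : (Bool × ℕ) →₀ ℕ) (h : n < wt m + k) :
    MvPolynomial.coeff m (PowerSeries.coeff n (gs A b ^ k)) = 0 := by
  classical
  induction k generalizing n m with
  | zero =>
    rw [pow_zero, PowerSeries.coeff_one]
    split_ifs with h0
    · rw [MvPolynomial.coeff_one, if_neg]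
      rintro rfl
      rw [wt_zero] at h
      omega
    · exact MvPolynomial.coeff_zero m
  | succ k ih =>
    rw [pow_succ, PowerSeries.coeff_mul, MvPolynomial.coeff_sum]
    refine Finset.sum_eq_zero fun x hx => ?_
    rw [Finset.HasAntidiagonal.mem_antidiagonal] at hx
    rw [MvPolynomial.coeff_mul]
    refine Finset.sum_eq_zero fun y hy => ?_
    rw [Finset.HasAntidiagonal.mem_antidiagonal] at hy
    rw [← hx, ← hy, wt_add] at h
    by_cases h1 : x.1 < wt y.1 + k
    · rw [ih x.1 y.1 h1, zero_mul]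
    · rw [coeff_gs b x.2 y.2 (by omega), mul_zero]

end

end TWT

theorem t_TWT : Stmt_TWT := by
  refine ⟨?_, ?_⟩
  · intro A _ Ψ l h F J hF m hm
    exact TWT.coeff_Psi h F J hF m hm
  · intro A _ b k n m h
    exact TWT.coeff_gs_pow b k n m h

end Pool.Agent.MG.G0


end
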