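import Mathlib
import Pool.Agent.KDM.C03
import Pool.Agent.KDM.C22

/-! Parts: MG.G0.Hv, MG.G0.DefsQ, MG.G0.StmtsHV, MG.G0.StmtsCQ, MG.G0.CSM, MG.G0.StmtsLOG, MG.G0.StmtsM, MG.G0.GBC, MG.G0.HV1, MG.G0.HV5, MG.G0.HV6, MG.G0.HV7, MG.G0.MEE, MG.G0.MTR, MG.G0.MVF, MG.G0.MVN, MG.G0.MVR, MG.G0.MVS, MG.G0.MVX, MG.G0.PL7, MG.G0.PLR, MG.G0.PTO, MG.G0.StmtsTC, MG.G0.TG.TCO, MG.G0.TG.TDN, MG.G0.TG.TLC, MG.G0.TG.TZU -/

section

/-!
# Polarised values of `Ev`, and values at quadratic differentials `(t ω) ω'`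
(PAPER.md, POL, LOGM)
-/

open TensorProduct

namespace Pool.Agent.MG.G0

/-- The exponent `(1, ..., 1)`. -/
noncomputable def ones (k : ℕ) : Fin k →₀ ℕ := Finsupp.equivFunOnFinite.symm fun _ => 1

/-- The polarised value: the coefficient of `y_1 ⋯ y_k` in the value at `∑ y_i q_i`. -/
noncomputable def Fk {g : ℕ} (E : Ev g) {A I : Type} [CommRing A] [Algebra ℂ A] [Fintype I]
    (P : Subalgebra A (KK I A)) {k : ℕ} (q : Fin k → QR P) : A :=
  MvPolynomial.coeff (ones k)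
    (E.Φ (MvPolynomial (Fin k) A) I (bc (MvPolynomial.C : A →+* MvPolynomial (Fin k) A) P)
      (cov _ (∑ i, (MvPolynomial.X i : MvPolynomial (Fin k) A) •
        bcR (MvPolynomial.C : A →+* MvPolynomial (Fin k) A) P (q i))))

/-- `x` is a value at the quadratic differentials `η_i u'_i`, where the `η_i` are Kähler
differentials with `η_i = t u_i`. -/
def HV {g : ℕ} (E : Ev g) {A I : Type} [CommRing A] [Algebra ℂ A] [Fintype I]
    (P : Subalgebra A (KK I A)) (t : A) {k : ℕ} (u u' : Fin k → KK I A) (x : A) : Prop :=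
  ∃ (hu : ∀ i, u' i ∈ EE P) (η : Fin k → DR P), (∀ i, dk P (η i) = t • u i) ∧
    x = Fk E P fun i => twR P ⟨u' i, hu i⟩ (η i)

/-! ## Truncated polynomials -/

/-- The ring `A[T]/T^N`. -/
abbrev TrA (A : Type) [CommRing A] (N : ℕ) : Type :=
  AdjoinRoot ((Polynomial.X : Polynomial A) ^ N)

/-- The element `T`. -/
noncomputable abbrev tt (A : Type) [CommRing A] (N : ℕ) : TrA A N :=
  AdjoinRoot.root ((Polynomial.X : Polynomial A) ^ N)

/-- The coefficient of `T^i`, `i < N`. -/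
noncomputable def co {A : Type} [CommRing A] {N : ℕ} (i : ℕ) (x : TrA A N) : A :=
  (Classical.choose (AdjoinRoot.mk_surjective x)).coeff i

theorem co_mk {A : Type} [CommRing A] {N i : ℕ} (h : i < N) (p : Polynomial A) :
    co i (AdjoinRoot.mk ((Polynomial.X : Polynomial A) ^ N) p) = p.coeff i := by
  have h1 := Classical.choose_spec (AdjoinRoot.mk_surjective
    (AdjoinRoot.mk ((Polynomial.X : Polynomial A) ^ N) p))
  rw [AdjoinRoot.mk_eq_mk] at h1
  have h2 := Polynomial.X_pow_dvd_iff.1 h1 i h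
  rw [Polynomial.coeff_sub, sub_eq_zero] at h2
  exact h2

/-- `φ` extended to truncated polynomials, `T ↦ T`. -/
def TrM {A B : Type} [CommRing A] [CommRing B] {N : ℕ} (φ : A →+* B) (σ : TrA A N →+* TrA B N) :
    Prop :=
  (∀ a, σ (algebraMap A (TrA A N) a) = algebraMap B (TrA B N) (φ a)) ∧ σ (tt A N) = tt B N

/-- `x` is a value of the plumbed curve `PT pt T` over `A[T]/T^N`. -/
def Vl {g : ℕ} (E : Ev g) {A I : Type} [CommRing A] [Algebra ℂ A] [Fintype I]
    {R : Subalgebra A (KK I A)} (pt : Bool → FPt R) {N k : ℕ} (u u' : Fin k → KK I (TrA A N))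
    (x : TrA A N) : Prop :=
  ∃ pt' : Bool → FPt (bc (algebraMap A (TrA A N)) R),
    (∀ b, (pt b).Bc (algebraMap A (TrA A N)) (pt' b)) ∧
    (∀ i, u i ∈ EE (PT pt' (tt A N))) ∧ (∀ i, u' i ∈ EE (PT pt' (tt A N))) ∧
    HV E (PT pt' (tt A N)) (tt A N) u u' x

end Pool.Agent.MG.G0


end

section

/-!
# Polarisation of the functions on the cotangent spaces: definitions (PAPER.md, COVQ, POL)
-/

open TensorProduct

namespace Pool.Agent.MG.G0

section

variable {I : Type} [Fintype I] {A B : Type} [CommRing A] [CommRing B]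

/-- The base change of regular differentials. -/
noncomputable def bcE (φ : A →+* B) (P : Subalgebra A (KK I A)) : EE P →ₛₗ[φ] EE (bc φ P) where
  toFun ω := ⟨kmap φ ω, kmap_mem_Perp φ ω.2.1, kmap_mem_Pol φ ω.2.2⟩
  map_add' x y := Subtype.ext (map_add (kmap φ) (x : KK I A) y)
  map_smul' a x := Subtype.ext (kmap_smul φ a (x : KK I A))

@[simp] theorem bcE_val (φ : A →+* B) (P : Subalgebra A (KK I A)) (ω : EE P) :
    (bcE φ P ω : KK I B) = kmap φ ω := rfl

omit [Fintype I] in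
/-- The base change of `∑ p ⊗ g`. -/
noncomputable def bcT (φ : A →+* B) (P : Subalgebra A (KK I A)) :
    P ⊗[A] P →ₛₗ[φ] (bc φ P ⊗[B] bc φ P) :=
  TensorProduct.map
    { toFun := fun g => bcMap φ P g
      map_add' := fun x y => map_add _ x y
      map_smul' := fun a x => Subtype.ext (kmap_smul φ a (x : KK I A)) }
    { toFun := fun g => bcMap φ P g
      map_add' := fun x y => map_add _ x y
      map_smul' := fun a x => Subtype.ext (kmap_smul φ a (x : KK I A)) }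

omit [Fintype I] in
@[simp] theorem bcT_tmul (φ : A →+* B) (P : Subalgebra A (KK I A)) (p g : P) :
    bcT φ P (p ⊗ₜ g) = bcMap φ P p ⊗ₜ bcMap φ P g := rfl

omit [Fintype I] in
theorem dk_bcT (φ : A →+* B) (P : Subalgebra A (KK I A)) (η : P ⊗[A] P) :
    dk (bc φ P) (bcT φ P η) = kmap φ (dk P η) := by
  induction η using TensorProduct.induction_on with
  | zero => rw [map_zero, map_zero, map_zero, map_zero]
  | tmul p g => rw [bcT_tmul, dk_tmul, dk_tmul, map_mul, kmap_dd, bcMap_val, bcMap_val]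
  | add a b ha hb => rw [map_add, map_add, map_add, map_add, ha, hb]

omit [Fintype I] in
/-- The base change of the differentials `∑ p dg` without poles. -/
noncomputable def bcDR (φ : A →+* B) (P : Subalgebra A (KK I A)) : DR P →ₛₗ[φ] DR (bc φ P) where
  toFun η := ⟨bcT φ P η, by
    rw [DR, Submodule.mem_comap, dk_bcT]
    exact kmap_mem_Pol φ η.2⟩
  map_add' x y := Subtype.ext (map_add (bcT φ P) (x : P ⊗[A] P) y)
  map_smul' a x := Subtype.ext (map_smulₛₗ (bcT φ P) a (x : P ⊗[A] P))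

omit [Fintype I] in
@[simp] theorem bcDR_val (φ : A →+* B) (P : Subalgebra A (KK I A)) (η : DR P) :
    (bcDR φ P η : bc φ P ⊗[B] bc φ P) = bcT φ P η := rfl

end

/-- The value of `Φ` at the covector of `∑ yᵢ qᵢ`, a polynomial in the `yᵢ`. -/
noncomputable def Fx {g : ℕ} (E : Ev g) {I A : Type} [Fintype I] [CommRing A] [Algebra ℂ A]
    (P : Subalgebra A (KK I A)) {ι : Type} [Fintype ι] (q : ι → QR P) : MvPolynomial ι A :=
  E.Φ (MvPolynomial ι A) I (bc (MvPolynomial.C (R := A) (σ := ι)) P)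
    (cov (bc (MvPolynomial.C (R := A) (σ := ι)) P)
      (∑ i, (MvPolynomial.X i : MvPolynomial ι A) •
        bcR (MvPolynomial.C (R := A) (σ := ι)) P (q i)))

theorem Fk_eq {g : ℕ} (E : Ev g) {I A : Type} [Fintype I] [CommRing A] [Algebra ℂ A]
    (P : Subalgebra A (KK I A)) {k : ℕ} (q : Fin k → QR P) :
    Fk E P q = MvPolynomial.coeff (ones k) (Fx E P q) := rfl

/-- `t Fk` depends only on the quadratic differentials, not on their presentations. -/
def Ivk {g : ℕ} (E : Ev g) {I A : Type} [Fintype I] [CommRing A] [Algebra ℂ A]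
    (P : Subalgebra A (KK I A)) (t : A) (k : ℕ) : Prop :=
  ∀ q q' : Fin k → QR P, (∀ i, qk P (q i : QD P) = qk P (q' i : QD P)) →
    t * Fk E P q = t * Fk E P q'

section

variable {I I' J : Type} [Fintype I] [Fintype I'] [Fintype J] {A : Type} [CommRing A]

/-- The pairs `(q, q')` of quadratic differentials of `P` and `W` such that `q'` extends `q`, with
expressions which are regular at the punctures `J`. -/
noncomputable def QF (P : Subalgebra A (KK I A)) (W : Subalgebra A (KK (I ⊕ J) A)) :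
    Submodule A (QD P × QD W) :=
  Submodule.span A {z | ∃ (x : Perp P) (g : P) (x' : Perp W) (g' : W),
    atI (x' : KK (I ⊕ J) A) = x ∧ atJ (x' : KK (I ⊕ J) A) ∈ Pol J A 0 ∧
    atI (g' : KK (I ⊕ J) A) = g ∧ atJ (g' : KK (I ⊕ J) A) ∈ Pol J A 0 ∧
    z = (x ⊗ₜ[A] g, x' ⊗ₜ[A] g')}

omit [Fintype I] [Fintype J] in
/-- The pairs `(η, η')` of differentials of `P` and `W` such that `η'` extends `η`. -/
noncomputable def TF (P : Subalgebra A (KK I A)) (W : Subalgebra A (KK (I ⊕ J) A)) :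
    Submodule A ((P ⊗[A] P) × (W ⊗[A] W)) :=
  Submodule.span A {z | ∃ (p g : P) (p' g' : W),
    atI (p' : KK (I ⊕ J) A) = p ∧ atJ (p' : KK (I ⊕ J) A) ∈ Pol J A 0 ∧
    atI (g' : KK (I ⊕ J) A) = g ∧ atJ (g' : KK (I ⊕ J) A) ∈ Pol J A 0 ∧
    z = (p ⊗ₜ[A] g, p' ⊗ₜ[A] g')}

/-- The pairs `(q, q')` of quadratic differentials which correspond to each other under the change
of coordinates `α`. -/
noncomputable def QA (α : KK I A ≃ₐ[A] KK I A) (P P' : Subalgebra A (KK I A)) :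
    Submodule A (QD P × QD P') :=
  Submodule.span A {z | ∃ (x : Perp P) (g : P) (x' : Perp P') (g' : P'),
    (∀ h : KK I A, res ((x' : KK I A) * α h) = res ((x : KK I A) * h)) ∧
    (g' : KK I A) = α g ∧ z = (x ⊗ₜ[A] g, x' ⊗ₜ[A] g')}

/-- The pairs `(q, q')` of quadratic differentials which correspond to each other under the change
`e` of the index set. -/
noncomputable def QI (e : I' ≃ I) (P : Subalgebra A (KK I A)) (P' : Subalgebra A (KK I' A)) :
    Submodule A (QD P × QD P') :=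
  Submodule.span A {z | ∃ (x : Perp P) (g : P) (x' : Perp P') (g' : P'),
    (∀ i, (x' : KK I' A) i = (x : KK I A) (e i)) ∧ (∀ i, (g' : KK I' A) i = (g : KK I A) (e i)) ∧
    z = (x ⊗ₜ[A] g, x' ⊗ₜ[A] g')}

end

end Pool.Agent.MG.G0


end

section

/-!
# Statements on the values `HV` (PAPER_M.md, section HV)
-/

open TensorProduct

namespace Pool.Agent.MG.G0

/-- HV1: existence of values. -/
def Stmt_HV1 : Prop :=
  ∀ {A I : Type} [CommRing A] [Algebra ℂ A] [Fintype I] [Nonempty I] {g : ℕ} (E : Ev g)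
    {P : Subalgebra A (KK I A)} (t : A), (∀ ω ∈ EE P, t • ω ∈ Om P) →
    ∀ {k : ℕ} (u u' : Fin k → KK I A), (∀ i, u i ∈ EE P) → (∀ i, u' i ∈ EE P) →
      ∃ x, HV E P t u u' x

/-- HV2: uniqueness up to elements killed by `t`, and multilinearity. -/
def Stmt_HV2 : Prop :=
  ∀ {A I : Type} [CommRing A] [Algebra ℂ A] [Fintype I] [Nonempty I] {g : ℕ} (E : Ev g)
    {P : Subalgebra A (KK I A)} (t : A), Good g P →
    (∀ {B : Type} [CommRing B] (φ : A →+* B) (D : DD (bc φ P)),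
      ∃ θ : KK I B, φ t • D = tder (bc φ P) θ) → ∀ k : ℕ,
    (∀ (u u' : Fin k → KK I A) (x y : A), HV E P t u u' x → HV E P t u u' y →
      t * (x - y) = 0) ∧
    ((∀ ω ∈ EE P, t • ω ∈ Om P) →
      ∃ G : MultilinearMap A (fun _ : Fin k ⊕ Fin k => EE P) A,
        ∀ (ω : Fin k ⊕ Fin k → EE P) (x : A),
          HV E P t (fun i => (ω (Sum.inl i) : KK I A)) (fun i => (ω (Sum.inr i) : KK I A)) x →
          G ω = t * x)

/-- HV4: base change. -/
def Stmt_HV4 : Prop :=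
  ∀ {A B I : Type} [CommRing A] [Algebra ℂ A] [CommRing B] [Algebra ℂ B] [Fintype I]
    [Nonempty I] {g : ℕ} (E : Ev g) {P : Subalgebra A (KK I A)} (t : A), Good g P →
    ∀ (φ : A →ₐ[ℂ] B) {k : ℕ} (u u' : Fin k → KK I A) (x : A), HV E P t u u' x →
      HV E (bc (φ : A →+* B) P) (φ t) (fun i => kmap (φ : A →+* B) (u i))
        (fun i => kmap (φ : A →+* B) (u' i)) (φ x)

/-- HV5: multiples of `t`. -/
def Stmt_HV5 : Prop :=
  ∀ {A I : Type} [CommRing A] [Algebra ℂ A] [Fintype I] [Nonempty I] {g : ℕ} (E : Ev g)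
    {P : Subalgebra A (KK I A)} (t c : A), Good g P → ∀ {k : ℕ} (u u' : Fin k → KK I A) (x : A),
      HV E P t u u' x → HV E P (c * t) u u' (c ^ k * x)

/-- HV6: forgetting punctures. -/
def Stmt_HV6 : Prop :=
  ∀ {A I J : Type} [CommRing A] [Algebra ℂ A] [Fintype I] [Nonempty I] [Fintype J] {g : ℕ}
    (E : Ev g) {W : Subalgebra A (KK (I ⊕ J) A)} {P : Subalgebra A (KK I A)} (t : A),
    Forget W P → Good g W → Good g P → ∀ {k : ℕ} (u u' : Fin k → KK (I ⊕ J) A) (x : A),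
      (∀ i, u i ∈ EE W) → (∀ i, u' i ∈ EE W) →
      HV E P t (fun i => atI (u i)) (fun i => atI (u' i)) x → HV E W t u u' x

/-- HV7: change of the index set. -/
def Stmt_HV7 : Prop :=
  ∀ {A I I' : Type} [CommRing A] [Algebra ℂ A] [Fintype I] [Nonempty I] [Fintype I']
    [Nonempty I'] {g : ℕ} (E : Ev g) {P : Subalgebra A (KK I A)} (e : I' ≃ I) (t : A),
    Good g P → Good g (reix e P) ∧ ∀ {k : ℕ} (u u' : Fin k → KK I A) (x : A),
      HV E P t u u' x →
      HV E (reix e P) t (fun j i => u j (e i)) (fun j i => u' j (e i)) x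

/-- HV8: scaling of the coordinate (one puncture). -/
def Stmt_HV8 : Prop :=
  ∀ {A : Type} [CommRing A] [Algebra ℂ A] {g : ℕ} (E : Ev g)
    {R : Subalgebra A (LaurentSeries A)} (c : Aˣ) (t : A), Good g (uno R) →
    Good g (uno (R.map (sc c))) ∧ ∀ {k : ℕ} (u u' : Fin k → KK Unit A) (x : A),
      HV E (uno R) t u u' x →
      HV E (uno (R.map (sc c))) t (fun j _ => ((c⁻¹ : Aˣ) : A) • sc c (u j ()))
        (fun j _ => ((c⁻¹ : Aˣ) : A) • sc c (u' j ())) x

/-- HV9: over smooth curves (`t = 1`) the values are a multilinear form; if the values of all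
orders `m ≥ 1` vanish then the function is constant on the covectors of quadratic differentials
which are sums of products of differentials. -/
def Stmt_HV9 : Prop :=
  ∀ {A I : Type} [CommRing A] [Algebra ℂ A] [Fintype I] [Nonempty I] {g : ℕ} (E : Ev g)
    {P : Subalgebra A (KK I A)}, Good g P → SmC A P →
    (∀ (m : ℕ) (u u' : Fin m → KK I A) (x : A), 1 ≤ m → (∀ i, u i ∈ EE P) →
      HV E P 1 u u' x → x = 0) →
    ∀ (L : CovL P) (n : ℕ) (ω ω' : Fin n → EE P), (∀ i, (ω i : KK I A) ∈ Om P) →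
      (∀ θ : KK I A, L.1 (tder P θ) = ∑ i, res (θ * ((ω i : KK I A) * (ω' i : KK I A)))) →
      E.Φ A I P L = E.Φ A I P 0

end Pool.Agent.MG.G0


end

section

/-!
# Statements on covectors and polarisation (PAPER.md, COVQ, POL; PAPER_Q.md)
-/

open TensorProduct

namespace Pool.Agent.MG.G0

/-! ## Base change, smooth curves -/

/-- CNT: base change of covectors. -/
def Stmt_CNT : Prop :=
  ∀ {I A B : Type} [Fintype I] [CommRing A] [CommRing B] (φ : A →+* B)
    (P : Subalgebra A (KK I A)),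
    (∀ q : QR P, CompatL φ (cov P q) (cov (bc φ P) (bcR φ P q))) ∧
    ∀ (ω : EE P) (η : DR P), bcR φ P (twR P ω η) = twR (bc φ P) (bcE φ P ω) (bcDR φ P η)

/-- CSM: on a smooth curve all first order deformations are given by vector fields. -/
def Stmt_CSM : Prop :=
  ∀ {I A : Type} [Fintype I] [CommRing A] {g : ℕ} {P : Subalgebra A (KK I A)}, IsKr g P →
    SmC A P → (∀ D : DD P, ∃ θ : KK I A, D = tder P θ) ∧ ∀ q : QD P, Lq P q = 0 ↔ qk P q = 0

/-- GBC: base change of good Krichever rings. -/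
def Stmt_GBC : Prop :=
  ∀ {I A B : Type} [Fintype I] [Nonempty I] [CommRing A] [CommRing B] (φ : A →+* B) (g : ℕ)
    (P : Subalgebra A (KK I A)), Good g P → Good g (bc φ P)

/-- GRX: the change of the index set and the scaling of the coordinate. -/
def Stmt_GRX : Prop :=
  (∀ {I I' A : Type} [Fintype I] [Fintype I'] [Nonempty I] [CommRing A] (e : I' ≃ I) (g : ℕ)
    (P : Subalgebra A (KK I A)), Good g P → Good g (reix e P)) ∧
  ∀ {A : Type} [CommRing A] (c : Aˣ) (g : ℕ) (R : Subalgebra A (LaurentSeries A)),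
    Good g (uno R) → Good g (uno (R.map (sc c)))

/-! ## Polarisation -/

/-- PSU: substitutions in `Fx`. -/
def Stmt_PSU : Prop :=
  ∀ {g : ℕ} (E : Ev g) {I A D : Type} [Fintype I] [Nonempty I] [CommRing A] [Algebra ℂ A]
    [CommRing D] [Algebra ℂ D] (P : Subalgebra A (KK I A)), Good g P →
    ∀ {ι : Type} [Fintype ι] (q : ι → QR P) (φ : A →+* D) (σ : MvPolynomial ι A →ₐ[ℂ] D),
      (∀ a, σ (MvPolynomial.C a) = φ a) →
      E.Φ D I (bc φ P) (cov (bc φ P) (∑ i, σ (MvPolynomial.X i) • bcR φ P (q i))) =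
        σ (Fx E P q)

/-- POL: polarisation. -/
def Stmt_POL : Prop :=
  ∀ {g : ℕ} (E : Ev g) {I A : Type} [Fintype I] [Nonempty I] [CommRing A] [Algebra ℂ A]
    (P : Subalgebra A (KK I A)), Good g P →
    (∀ {B : Type} [CommRing B] [Algebra ℂ B] (φ : A →ₐ[ℂ] B) {k : ℕ} (q : Fin k → QR P),
      Fk E (bc (φ : A →+* B) P) (fun i => bcR (φ : A →+* B) P (q i)) = φ (Fk E P q)) ∧
    (∀ k : ℕ, ∃ M : MultilinearMap A (fun _ : Fin k => QR P) A, ∀ q, M q = Fk E P q) ∧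
    (∀ {k : ℕ} (q : Fin k → QR P) (i : Fin k),
      cov (bc (MvPolynomial.C (R := A) (σ := Fin k)) P)
        (bcR (MvPolynomial.C (R := A) (σ := Fin k)) P (q i)) = 0 → Fk E P q = 0) ∧
    ∀ q : QR P, (∀ m : ℕ, 1 ≤ m → Fk E P (fun _ : Fin m => q) = 0) →
      E.Φ A I P (cov P q) = E.Φ A I P 0

/-- PTO: independence of the presentation, after multiplication by `t`. -/
def Stmt_PTO : Prop :=
  ∀ {g : ℕ} (E : Ev g) {I A : Type} [Fintype I] [Nonempty I] [CommRing A] [Algebra ℂ A]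
    (P : Subalgebra A (KK I A)), Good g P → ∀ (t : A) (k : ℕ),
    (∀ D : DD (bc (MvPolynomial.C (R := A) (σ := Fin k)) P), ∃ θ : KK I (MvPolynomial (Fin k) A),
      MvPolynomial.C (σ := Fin k) t • D = tder _ θ) → Ivk E P t k

/-- IVS: the hypothesis of PTO on smooth curves, and descent along injective maps. -/
def Stmt_IVS : Prop :=
  (∀ {g : ℕ} (E : Ev g) {I A : Type} [Fintype I] [Nonempty I] [CommRing A] [Algebra ℂ A]
    (P : Subalgebra A (KK I A)), Good g P → SmC A P → ∀ k : ℕ, Ivk E P 1 k) ∧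
  ∀ {g : ℕ} (E : Ev g) {I A B : Type} [Fintype I] [Nonempty I] [CommRing A] [Algebra ℂ A]
    [CommRing B] [Algebra ℂ B] (P : Subalgebra A (KK I A)), Good g P → ∀ φ : A →ₐ[ℂ] B,
    Function.Injective φ → ∀ (t : A) (k : ℕ), Ivk E (bc (φ : A →+* B) P) (φ t) k → Ivk E P t k

/-! ## Forgetting punctures -/

/-- PFB: forgetting punctures: the ring without poles at `J`, injectivity, base change. -/
def Stmt_PFB : Prop :=
  ∀ {I J A : Type} [Fintype I] [Nonempty I] [Fintype J] [CommRing A] {h : ℕ}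
    {W : Subalgebra A (KK (I ⊕ J) A)}, IsKr h W → Dn W →
    IsKr h (Rem W) ∧ Forget W (Rem W) ∧
    ∀ {B : Type} [CommRing B] (φ : A →+* B), Dn (bc φ W) ∧ bc φ (Rem W) = Rem (bc φ W) ∧
      Forget (bc φ W) (bc φ (Rem W))

/-- EEF: regular differentials and forgetting punctures. -/
def Stmt_EEF : Prop :=
  ∀ {I J A : Type} [Fintype I] [Nonempty I] [Fintype J] [CommRing A] {h : ℕ}
    {P : Subalgebra A (KK I A)} {W : Subalgebra A (KK (I ⊕ J) A)}, IsKr h W → Forget W P →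
    (∀ ω ∈ EE W, atI ω ∈ EE P) ∧
    (∀ ω ∈ Perp W, atI ω = 0 → atJ ω ∈ Pol J A 0 → ω = 0) ∧
    ∀ ω ∈ EE P, ∃! ω' : KK (I ⊕ J) A, ω' ∈ EE W ∧ atI ω' = ω

/-- POF: the polarisation and forgetting punctures. -/
def Stmt_POF : Prop :=
  ∀ {g : ℕ} (E : Ev g) {I J A : Type} [Fintype I] [Nonempty I] [Fintype J] [CommRing A]
    [Algebra ℂ A] (P : Subalgebra A (KK I A)) (W : Subalgebra A (KK (I ⊕ J) A)), Good g W →
    Good g P → Forget W P → ∀ {k : ℕ} (q : Fin k → QR P) (q' : Fin k → QR W),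
      (∀ i, ((q i : QD P), (q' i : QD W)) ∈ QF P W) → Fk E W q' = Fk E P q

/-- POX: the polarisation and the change of the index set. -/
def Stmt_POX : Prop :=
  ∀ {g : ℕ} (E : Ev g) {I I' A : Type} [Fintype I] [Nonempty I] [Fintype I'] [Nonempty I']
    [CommRing A] [Algebra ℂ A] (e : I' ≃ I) (P : Subalgebra A (KK I A))
    (P' : Subalgebra A (KK I' A)), Good g P → Good g P' → P' = reix e P →
    ∀ {k : ℕ} (q : Fin k → QR P) (q' : Fin k → QR P'),
      (∀ i, ((q i : QD P), (q' i : QD P')) ∈ QI e P P') → Fk E P' q' = Fk E P q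

/-- POA: the polarisation and changes of the coordinates. -/
def Stmt_POA : Prop :=
  ∀ {g : ℕ} (E : Ev g) {I A : Type} [Fintype I] [Nonempty I] [CommRing A] [Algebra ℂ A]
    {k : ℕ} (α : KK I A ≃ₐ[A] KK I A)
    (α' : KK I (MvPolynomial (Fin k) A) ≃ₐ[MvPolynomial (Fin k) A] KK I (MvPolynomial (Fin k) A)),
    (∀ (n : ℤ) (f : KK I A), α f ∈ Pol I A n ↔ f ∈ Pol I A n) →
    (∀ (n : ℤ) (f : KK I (MvPolynomial (Fin k) A)), α' f ∈ Pol I (MvPolynomial (Fin k) A) n ↔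
      f ∈ Pol I (MvPolynomial (Fin k) A) n) →
    (∀ f : KK I A, kmap (MvPolynomial.C (R := A) (σ := Fin k)) (α f) =
      α' (kmap (MvPolynomial.C (R := A) (σ := Fin k)) f)) →
    ∀ P P' : Subalgebra A (KK I A), Good g P → Good g P' → (∀ f, f ∈ P ↔ α f ∈ P') →
    ∀ (q : Fin k → QR P) (q' : Fin k → QR P'),
      (∀ i, ((q i : QD P), (q' i : QD P')) ∈ QA α P P') → Fk E P' q' = Fk E P q

end Pool.Agent.MG.G0


end

section

/-!
# CSM: on a smooth curve all first order deformations are given by vector fields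
-/

open TensorProduct

namespace Pool.Agent.MG.G0

namespace CSM

variable {I : Type} [Fintype I] {A : Type} [CommRing A]

/-- A series with vanishing residue pairings is zero. -/
theorem eq_zero {f : KK I A} (h : ∀ θ : KK I A, res (θ * f) = 0) : f = 0 := by
  classical
  funext i
  ext n
  have h1 := h (mon i (-1 - n) 1)
  rw [mul_comm, res_mul_mon] at h1
  simpa using h1

end CSM

theorem t_CSM (hSCO : Stmt_SCO) (hSKK : Stmt_SKK) : Stmt_CSM := by
  intro I A _ _ g P hP hS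
  have h1 : ∀ D : DD P, ∃ θ : KK I A, D = tder P θ := by
    intro D
    obtain ⟨E, hE⟩ := (hSCO.2 hS).2.2 (KK I A) (MM P) (mk P) (mk_surj P) D
    obtain ⟨θ, hθ, -⟩ := (hSKK hP).2 hS E
    refine ⟨θ, Derivation.ext fun f => ?_⟩
    rw [← hE f, hθ f, tder_apply]
  refine ⟨h1, fun q => ⟨fun h => ?_, fun h => ?_⟩⟩
  · refine CSM.eq_zero fun θ => ?_
    rw [← Lq_tder, h, LinearMap.zero_apply]
  · refine LinearMap.ext fun D => ?_
    obtain ⟨θ, rfl⟩ := h1 D
    rw [Lq_tder, h, mul_zero, map_zero, LinearMap.zero_apply]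

end Pool.Agent.MG.G0


end

section

/-!
# Statements on plumbing (PAPER.md, LOG, L0 to L7)
-/

namespace Pool.Agent.MG.G0

/-- PL0 (L0): the functions on the annulus `u v = t`. -/
def Stmt_PL0 : Prop :=
  ∀ {A : Type} [CommRing A] (t : A) (N : ℕ), t ^ N = 0 →
    (∀ m : ℕ, N ≤ m → ∀ F ∈ Pol Bool A (-(m : ℤ)), F ∈ Nt t) ∧
    (∀ a b : PowerSeries A, PowerSeries.constantCoeff a = PowerSeries.constantCoeff b →
      ∃! F : KK Bool A, F ∈ Nt t ∧ ∀ j : ℕ, (F true).coeff j = PowerSeries.coeff j a ∧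
        (F false).coeff j = PowerSeries.coeff j b) ∧
    (∀ b, uv t b ∈ Nt t) ∧ uv t true * uv t false = algebraMap A (KK Bool A) t ∧
    (∀ F ∈ Nt t, ∀ b, ∃ G, IsPd t b F G) ∧
    (∀ F ∈ Nt t, ∀ G G', IsPd t true F G → IsPd t false F G' →
      dd F = G * dd (uv t true) + G' * dd (uv t false)) ∧
    (∀ (M : Type) [AddCommGroup M] [Module A M] [Module (Nt t) M] [IsScalarTower A (Nt t) M]
      (δ : Derivation A (Nt t) M) (K : ℕ),
      (∀ x : Nt t, (x : KK Bool A) ∈ Pol Bool A (-(K : ℤ)) → δ x = 0) →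
      ∀ F G G' U V : Nt t, IsPd t true (F : KK Bool A) G → IsPd t false (F : KK Bool A) G' →
        (U : KK Bool A) = uv t true → (V : KK Bool A) = uv t false → δ F = G • δ U + G' • δ V) ∧
    ∀ η : KK Bool A, (∀ F ∈ Nt t, res (η * F) = 0) ↔ ∃ F ∈ Nt t, η = F * vp A

/-- PL1 (L1): plumbing increases the genus by one. -/
def Stmt_PL1 : Prop :=
  ∀ {I A : Type} [Fintype I] [Nonempty I] [CommRing A] {h : ℕ} {R : Subalgebra A (KK I A)},
    IsKr h R → SmC A R → ∀ pt : Bool → FPt R, Disj pt → ∀ t : A, IsNilpotent t →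
      IsKr (h + 1) (PT pt t)

/-- PL2 (L2): base change, rescaling of the parameters, the nodal curve. -/
def Stmt_PL2 : Prop :=
  (∀ {I A B : Type} [Fintype I] [Nonempty I] [CommRing A] [CommRing B] {h : ℕ}
    {R : Subalgebra A (KK I A)}, IsKr h R → SmC A R → ∀ pt : Bool → FPt R, Disj pt →
    ∀ t : A, IsNilpotent t → ∀ (φ : A →+* B) (pt' : Bool → FPt (bc φ R)),
      (∀ b, (pt b).Bc φ (pt' b)) → PT pt' (φ t) = bc φ (PT pt t)) ∧
  (∀ {I A : Type} [CommRing A] {R : Subalgebra A (KK I A)} (pt : Bool → FPt R) (c : Bool → Aˣ)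
    (t : A), (∀ b, ((pt b).resc (c b)).id = (pt b).id) ∧
      PT (fun b => (pt b).resc (c b)) t = PT pt ((c true : A) * (c false : A) * t)) ∧
  ∀ {I A : Type} [Fintype I] [Nonempty I] [CommRing A] {h : ℕ} {R : Subalgebra A (KK I A)},
    IsKr h R → SmC A R → ∀ pt : Bool → FPt R, Disj pt → ∀ f : KK I A,
      f ∈ PT pt 0 ↔ ∃ r : R, (r : KK I A) = f ∧ (pt true).ev r = (pt false).ev r

/-- PLF (L2, forget): restriction of formal points, and forgetting punctures of a plumbed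
curve. -/
def Stmt_PLF : Prop :=
  ∀ {I J A : Type} [Fintype I] [Nonempty I] [Fintype J] [CommRing A] {h : ℕ}
    {Q : Subalgebra A (KK (I ⊕ J) A)} {R : Subalgebra A (KK I A)}, IsKr h Q → IsKr h R →
    SmC A Q → SmC A R → Forget Q R →
    (∀ p : FPt Q, ∃ p' : FPt R, p.Rs p') ∧
    ∀ (pt : Bool → FPt Q) (pt' : Bool → FPt R), (∀ b, (pt b).Rs (pt' b)) → Disj pt →
      Disj pt' ∧ ∀ t : A, IsNilpotent t → Forget (PT pt t) (PT pt' t)

/-- PL3 (L3): approximation at the annulus. -/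
def Stmt_PL3 : Prop :=
  ∀ {I A : Type} [Fintype I] [Nonempty I] [CommRing A] {h : ℕ} {R : Subalgebra A (KK I A)},
    IsKr h R → SmC A R → ∀ pt : Bool → FPt R, Disj pt →
    (∀ (F : KK Bool A) (m : ℤ), ∃ w ∈ WJ pt, atJ w - F ∈ Pol Bool A (-m)) ∧
    (∀ w ∈ WJ pt, ∀ m : ℤ, ∃ (n : ℕ) (s a : Fin n → KK (I ⊕ Bool) A), (∀ k, s k ∈ WJ pt) ∧
      (∀ k, a k ∈ WJ pt) ∧ (∀ k, atJ (s k) ∈ Pol Bool A (-m)) ∧
      (∀ k, atJ (s k * w) ∈ Pol Bool A (-m)) ∧ ∑ k, a k * s k = 1) ∧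
    (∀ w ∈ WJ pt, ∀ a b : ℕ, atJ w ∈ Pol Bool A (-((a + b : ℕ) : ℤ)) →
      w ∈ Submodule.span A {z : KK (I ⊕ Bool) A | ∃ x ∈ WJ pt, ∃ y ∈ WJ pt,
        atJ x ∈ Pol Bool A (-(a : ℤ)) ∧ atJ y ∈ Pol Bool A (-(b : ℤ)) ∧ z = x * y}) ∧
    ∀ (ξ : KK Bool A) (m : ℤ), ∃ θ ∈ TT (WJ pt), atJ θ - ξ ∈ Pol Bool A (-m)

/-- PL4 (L4): differentials on the plumbed curve. -/
def Stmt_PL4 : Prop :=
  ∀ {I A : Type} [Fintype I] [Nonempty I] [CommRing A] {h : ℕ} {R : Subalgebra A (KK I A)},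
    IsKr h R → SmC A R → ∀ pt : Bool → FPt R, Disj pt → ∀ t : A, IsNilpotent t →
    (∀ η ∈ Perp (PT pt t), ∃! ζ : KK (I ⊕ Bool) A, ζ ∈ Perp (WJ pt) ∧ atI ζ = η ∧
      ∃ F ∈ Nt t, atJ ζ = F * vp A) ∧
    ∀ ζ ∈ Perp (WJ pt), ∀ F ∈ Nt t, atJ ζ = F * vp A → atI ζ ∈ Perp (PT pt t)

/-- PLR (L4, `t = 0`): the residue at the node of a regular differential. -/
def Stmt_PLR : Prop :=
  ∀ {I A : Type} [Fintype I] [Nonempty I] [CommRing A] {h : ℕ} {R : Subalgebra A (KK I A)},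
    IsKr h R → SmC A R → ∀ pt : Bool → FPt R, Disj pt →
    (∀ η ∈ EE (PT pt 0), ∃! ρ : A, IsRho pt η ρ) ∧
    (∀ η ∈ EE (PT pt 0), IsRho pt η 0 → η ∈ EE R) ∧
    (∀ η ∈ EE R, η ∈ EE (PT pt 0) ∧ IsRho pt η 0) ∧
    ∀ a : A, ∃ η ∈ EE (PT pt 0), IsRho pt η a

/-- PL5 (L5): the structure of derivations. -/
def Stmt_PL5 : Prop :=
  ∀ {I A : Type} [Fintype I] [Nonempty I] [CommRing A] {h : ℕ} {R : Subalgebra A (KK I A)},
    IsKr h R → SmC A R → ∀ pt : Bool → FPt R, Disj pt → ∀ t : A, IsNilpotent t →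
    ∀ D : PT pt t → KK I A, RDer (PT pt t) D →
      ∃ (θ : KK I A) (α β : KK Bool A), uv t true * β + uv t false * α ∈ Nt t ∧
        ∀ w ∈ WJ pt, atJ w ∈ Nt t → ∀ G G' : KK Bool A, IsPd t true (atJ w) G →
          IsPd t false (atJ w) G' → ∀ f : PT pt t, (f : KK I A) = atI w →
            ∃ x ∈ WJ pt, D f - θ * dd (f : KK I A) - atI x ∈ PT pt t ∧
              atJ x - (G * α + G' * β) ∈ Nt t

/-- PL6 (L6): `t D` is given by a vector field. -/
def Stmt_PL6 : Prop :=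
  ∀ {I A : Type} [Fintype I] [Nonempty I] [CommRing A] {h : ℕ} {R : Subalgebra A (KK I A)},
    IsKr h R → SmC A R → ∀ pt : Bool → FPt R, Disj pt → ∀ t : A, IsNilpotent t →
    ∀ D : PT pt t → KK I A, RDer (PT pt t) D → ∃ θ : KK I A, ∀ f : PT pt t,
      t • D f - θ * dd (f : KK I A) ∈ PT pt t

/-- PL7 (L7): `t ω` is a Kähler differential. -/
def Stmt_PL7 : Prop :=
  ∀ {I A : Type} [Fintype I] [Nonempty I] [CommRing A] {h : ℕ} {R : Subalgebra A (KK I A)},
    IsKr h R → SmC A R → Dual R → ∀ pt : Bool → FPt R, Disj pt → ∀ t : A, IsNilpotent t →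
    ∀ ω ∈ Perp (PT pt t), t • ω ∈ Om (PT pt t)

end Pool.Agent.MG.G0


end

section

/-!
# Statements: the leading coefficients of the values at plumbed curves (PAPER_M.md, LOGM)
-/

open TensorProduct

namespace Pool.Agent.MG.G0

/-- MTR: truncated polynomials `A[T]/T^N`. -/
def Stmt_MTR : Prop :=
  (∀ {A : Type} [CommRing A] {N : ℕ}, tt A N ^ N = 0 ∧
    (∀ x : TrA A N, x = ∑ i ∈ Finset.range N, co i x • tt A N ^ i) ∧
    (∀ (x y : TrA A N) (i : ℕ), i < N → co i (x + y) = co i x + co i y) ∧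
    (∀ (a : A) (x : TrA A N) (i : ℕ), i < N → co i (a • x) = a * co i x) ∧
    (∀ x : TrA A N, (∀ i, i < N → co i x = 0) → x = 0) ∧
    (∀ x : TrA A N, 0 < N → co 0 (tt A N * x) = 0) ∧
    (∀ (x : TrA A N) (i : ℕ), i + 1 < N → co (i + 1) (tt A N * x) = co i x) ∧
    (∀ (x : TrA A N) (m : ℕ), (∀ i, i < m → i < N → co i x = 0) → ∃ y, x = tt A N ^ m * y) ∧
    ∀ x : TrA A N, tt A N * x = 0 → ∀ i, i + 1 < N → co i x = 0) ∧
  (∀ {A B : Type} [CommRing A] [CommRing B] {N : ℕ} (φ : A →+* B),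
    (∃ σ : TrA A N →+* TrA B N, TrM φ σ) ∧ ∀ σ : TrA A N →+* TrA B N, TrM φ σ →
      ∀ (x : TrA A N) (i : ℕ), i < N → co i (σ x) = φ (co i x)) ∧
  (∀ {A : Type} [CommRing A] {N : ℕ} (c : A),
    (∃ ψ : TrA A N →ₐ[A] TrA A N, ψ (tt A N) = c • tt A N) ∧
    ∀ ψ : TrA A N →ₐ[A] TrA A N, ψ (tt A N) = c • tt A N →
      ∀ (x : TrA A N) (i : ℕ), i < N → co i (ψ x) = c ^ i * co i x) ∧
  (∀ {A B : Type} [CommRing A] [CommRing B] [Algebra A B] {N : ℕ} (t : B), t ^ N = 0 →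
    ∃ σ : TrA A N →ₐ[A] B, σ (tt A N) = t) ∧
  ∀ {A : Type} [CommRing A] {N : ℕ} (π : TrA A N →ₐ[A] A), π (tt A N) = 0 → 0 < N →
    ∀ x : TrA A N, π x = co 0 x ∧ (π x = 0 → ∃ y, x = tt A N * y)

/-- MEE: regular differentials and base change. -/
def Stmt_MEE : Prop :=
  ∀ {I A B : Type} [Fintype I] [Nonempty I] [CommRing A] [CommRing B] {g : ℕ}
    {P : Subalgebra A (KK I A)}, IsKr g P → ∀ φ : A →+* B,
    (∀ u ∈ EE P, kmap φ u ∈ EE (bc φ P)) ∧
    EE (bc φ P) = Submodule.span B (kmap φ '' (EE P : Set (KK I A))) ∧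
    (Function.Surjective φ → (∀ ω ∈ EE (bc φ P), ∃ u ∈ EE P, kmap φ u = ω) ∧
      ∀ t : A, φ t = 0 → (∀ a, φ a = 0 → ∃ b, a = t * b) → ∀ u ∈ EE P, kmap φ u = 0 →
        ∃ v ∈ EE P, u = t • v)

/-- MFE: regular differentials and forgetting punctures. -/
def Stmt_MFE : Prop :=
  (∀ {I J A : Type} [Fintype I] [Nonempty I] [Fintype J] [CommRing A] {h : ℕ}
    {W : Subalgebra A (KK (I ⊕ J) A)} {P : Subalgebra A (KK I A)}, IsKr h W → IsKr h P →
    Forget W P → (∀ u ∈ EE W, atI u ∈ EE P) ∧ ∀ ω ∈ EE P, ∃! u, u ∈ EE W ∧ atI u = ω) ∧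
  ∀ {I J A : Type} [Fintype I] [Nonempty I] [Fintype J] [CommRing A]
    {W : Subalgebra A (KK (I ⊕ J) A)} {P : Subalgebra A (KK I A)}, Forget W P →
    ∀ (pt : Bool → FPt W) (pt' : Bool → FPt P), (∀ b, (pt b).Rs (pt' b)) →
      ∀ (η : KK (I ⊕ J) A) (ρ : A), η ∈ Pol (I ⊕ J) A 0 → IsRho pt η ρ → IsRho pt' (atI η) ρ

/-- `p'` is the base change of the formal point `p` (`R' = bc φ R`). -/
def Bcr {I A B : Type} [CommRing A] [CommRing B] (φ : A →+* B) {R : Subalgebra A (KK I A)}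
    {R' : Subalgebra B (KK I B)} (p : FPt R) (p' : FPt R') : Prop :=
  R' = bc φ R ∧ ∀ (f : R) (f' : R'), (f' : KK I B) = kmap φ (f : KK I A) →
    p'.h f' = PowerSeries.map φ (p.h f)

/-- MPB: base change of plumbed curves, in the form with `Bcr`. -/
def Stmt_MPB : Prop :=
  ∀ {I A : Type} [Fintype I] [Nonempty I] [CommRing A] {h : ℕ} {R : Subalgebra A (KK I A)},
    IsKr h R → SmC A R → ∀ pt : Bool → FPt R, Disj pt →
    (∀ {B : Type} [CommRing B] (φ : A →+* B) (R' : Subalgebra B (KK I B))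
      (pt' : Bool → FPt R'), (∀ b, Bcr φ (pt b) (pt' b)) →
      Disj pt' ∧ ∀ t : A, IsNilpotent t → PT pt' (φ t) = bc φ (PT pt t)) ∧
    (∀ {B C : Type} [CommRing B] [CommRing C] (φ : A →+* B) (ψ : B →+* C)
      (R' : Subalgebra B (KK I B)) (R'' : Subalgebra C (KK I C)) (pt' : Bool → FPt R')
      (pt'' : Bool → FPt R''), (∀ b, Bcr φ (pt b) (pt' b)) →
      (∀ b, Bcr (ψ.comp φ) (pt b) (pt'' b)) → ∀ b, Bcr ψ (pt' b) (pt'' b)) ∧
    (∀ (R' : Subalgebra A (KK I A)) (pt' : Bool → FPt R'),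
      (∀ b, Bcr (RingHom.id A) (pt b) (pt' b)) → ∀ t, PT pt' t = PT pt t) ∧
    ∀ {B : Type} [CommRing B] (φ : A →+* B) (pt' : Bool → FPt (bc φ R)),
      (∀ b, (pt b).Bc φ (pt' b)) → ∀ b, Bcr φ (pt b) (pt' b)

/-- MPG: plumbed curves are good; the hypotheses of the polarised values. -/
def Stmt_MPG : Prop :=
  ∀ {I A : Type} [Fintype I] [Nonempty I] [CommRing A] {h : ℕ} {R : Subalgebra A (KK I A)},
    SKr h R → ∀ pt : Bool → FPt R, Disj pt → ∀ t : A, IsNilpotent t →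
    Good (h + 1) (PT pt t) ∧ (∀ ω ∈ EE (PT pt t), t • ω ∈ Om (PT pt t)) ∧
    (∀ {B : Type} [CommRing B] (φ : A →+* B) (D : DD (bc φ (PT pt t))),
      ∃ θ : KK I B, φ t • D = tder (bc φ (PT pt t)) θ) ∧
    ∀ {B : Type} [CommRing B] (φ : A →+* B), SKr h (bc φ R)

/-- The values of order `k` (over `A[T]/T^N`) vanish modulo `T^m`. -/
def IHm {g : ℕ} (E : Ev g) {A I : Type} [CommRing A] [Algebra ℂ A] [Fintype I]
    {R : Subalgebra A (KK I A)} (pt : Bool → FPt R) (N k m : ℕ) : Prop :=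
  ∀ (u u' : Fin k → KK I (TrA A N)) (x : TrA A N), Vl E pt u u' x → ∀ i < m, co i x = 0

/-- MVX: existence of values; two values agree modulo `T^(N-1)`. -/
def Stmt_MVX : Prop :=
  ∀ {I A : Type} [Fintype I] [Nonempty I] [CommRing A] [Algebra ℂ A] {h : ℕ}
    {R : Subalgebra A (KK I A)}, SKr h R → ∀ pt : Bool → FPt R, Disj pt →
    ∀ (E : Ev (h + 1)) (N k : ℕ),
    (∃ pt' : Bool → FPt (bc (algebraMap A (TrA A N)) R),
      ∀ b, (pt b).Bc (algebraMap A (TrA A N)) (pt' b)) ∧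
    (∀ pt' : Bool → FPt (bc (algebraMap A (TrA A N)) R),
      (∀ b, (pt b).Bc (algebraMap A (TrA A N)) (pt' b)) →
      IsKr (h + 1) (PT pt' (tt A N)) ∧
      (∀ u u' : Fin k → KK I (TrA A N), (∀ i, u i ∈ EE (PT pt' (tt A N))) →
        (∀ i, u' i ∈ EE (PT pt' (tt A N))) → ∃ x, Vl E pt u u' x) ∧
      ∀ (u u' : Fin k → KK I (TrA A N)) (x : TrA A N), Vl E pt u u' x →
        (∀ i, u i ∈ EE (PT pt' (tt A N))) ∧ ∀ i, u' i ∈ EE (PT pt' (tt A N))) ∧
    ∀ (u u' : Fin k → KK I (TrA A N)) (x y : TrA A N), Vl E pt u u' x → Vl E pt u u' y →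
      ∀ i, i + 1 < N → co i x = co i y

/-- MVN: naturality of the values in `A`. -/
def Stmt_MVN : Prop :=
  ∀ {I A B : Type} [Fintype I] [Nonempty I] [CommRing A] [Algebra ℂ A] [CommRing B]
    [Algebra ℂ B] {h : ℕ} {R : Subalgebra A (KK I A)}, SKr h R →
    ∀ pt : Bool → FPt R, Disj pt → ∀ (E : Ev (h + 1)) (N k : ℕ) (φ : A →ₐ[ℂ] B)
    (R' : Subalgebra B (KK I B)) (pt' : Bool → FPt R'),
    (∀ b, Bcr (φ : A →+* B) (pt b) (pt' b)) → ∀ σ : TrA A N →+* TrA B N,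
    TrM (φ : A →+* B) σ → ∀ (u u' : Fin k → KK I (TrA A N)) (x : TrA A N), Vl E pt u u' x →
      Vl E pt' (fun i => kmap σ (u i)) (fun i => kmap σ (u' i)) (σ x)

/-- MVS: rescaling of the parameters. -/
def Stmt_MVS : Prop :=
  ∀ {I A : Type} [Fintype I] [Nonempty I] [CommRing A] [Algebra ℂ A] {h : ℕ}
    {R : Subalgebra A (KK I A)}, SKr h R → ∀ pt : Bool → FPt R, Disj pt →
    ∀ (E : Ev (h + 1)) (N k : ℕ) (c : Bool → Aˣ) (ψ : TrA A N →ₐ[A] TrA A N),
    ψ (tt A N) = ((c true : A) * (c false : A)) • tt A N →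
    ∀ (u u' : Fin k → KK I (TrA A N)) (x : TrA A N), Vl E pt u u' x →
      Vl E (fun b => (pt b).resc (c b)) (fun i => kmap (ψ : TrA A N →+* TrA A N) (u i))
        (fun i => kmap (ψ : TrA A N →+* TrA A N) (u' i))
        (((((c true)⁻¹ : Aˣ) : A) * (((c false)⁻¹ : Aˣ) : A)) ^ k • ψ x)

/-- MVF: forgetting punctures. -/
def Stmt_MVF : Prop :=
  ∀ {I J A : Type} [Fintype I] [Nonempty I] [Fintype J] [CommRing A] [Algebra ℂ A] {h : ℕ}
    {W : Subalgebra A (KK (I ⊕ J) A)} {R : Subalgebra A (KK I A)}, SKr h W → SKr h R →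
    Forget W R → ∀ (pt : Bool → FPt W) (pt₁ : Bool → FPt R), (∀ b, (pt b).Rs (pt₁ b)) →
    Disj pt → ∀ (E : Ev (h + 1)),
    (∀ (N k : ℕ) (u u' : Fin k → KK (I ⊕ J) (TrA A N)) (x : TrA A N), Vl E pt u u' x →
      ∃ y : TrA A N, Vl E pt₁ (fun i => atI (u i)) (fun i => atI (u' i)) y ∧
        ∀ i, i + 1 < N → co i x = co i y) ∧
    ∀ (t : A) (k : ℕ) (u u' : Fin k → KK (I ⊕ J) A) (x : A), IsNilpotent t →
      (∀ i, u i ∈ EE (PT pt t)) → (∀ i, u' i ∈ EE (PT pt t)) →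
      HV E (PT pt₁ t) t (fun i => atI (u i)) (fun i => atI (u' i)) x →
      HV E (PT pt t) t u u' x

/-- MVR: the same, for a change of the index set of the punctures. -/
def Stmt_MVR : Prop :=
  ∀ {I I' A : Type} [Fintype I] [Nonempty I] [Fintype I'] [Nonempty I'] [CommRing A]
    [Algebra ℂ A] {h : ℕ} {R : Subalgebra A (KK I A)} (e : I' ≃ I), SKr h R →
    SKr h (reix e R) ∧ ∀ (pt : Bool → FPt R) (pt₁ : Bool → FPt (reix e R)), Disj pt →
    (∀ (b : Bool) (f : R) (f' : reix e R), (∀ i, (f' : KK I' A) i = (f : KK I A) (e i)) →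
      (pt₁ b).h f' = (pt b).h f) → ∀ (E : Ev (h + 1)) (N k : ℕ)
      (u u' : Fin k → KK I (TrA A N)) (x : TrA A N), Vl E pt u u' x →
      Vl E pt₁ (fun j i => u j (e i)) (fun j i => u' j (e i)) x

/-- MCM: the coefficient of `T^m` is a multilinear form on the regular differentials of the nodal
curve. -/
def Stmt_MCM : Prop :=
  ∀ {I A : Type} [Fintype I] [Nonempty I] [CommRing A] [Algebra ℂ A] {h : ℕ}
    {R : Subalgebra A (KK I A)}, SKr h R → ∀ pt : Bool → FPt R, Disj pt →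
    ∀ (E : Ev (h + 1)) (N k m : ℕ), m < k → k < N → IHm E pt N k m →
    ∀ π : TrA A N →ₐ[A] A, π (tt A N) = 0 →
    ∃ M : MultilinearMap A (fun _ : Fin k ⊕ Fin k => EE (PT pt (0 : A))) A,
      (∀ (ω : Fin k ⊕ Fin k → EE (PT pt (0 : A))) (u u' : Fin k → KK I (TrA A N))
        (x : TrA A N), Vl E pt u u' x →
        (∀ i, kmap (π : TrA A N →+* A) (u i) = ω (Sum.inl i)) →
        (∀ i, kmap (π : TrA A N →+* A) (u' i) = ω (Sum.inr i)) → co m x = M ω) ∧
      ∀ ω : Fin k ⊕ Fin k → EE (PT pt (0 : A)), ∃ (u u' : Fin k → KK I (TrA A N))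
        (x : TrA A N), Vl E pt u u' x ∧
        (∀ i, kmap (π : TrA A N →+* A) (u i) = ω (Sum.inl i)) ∧
        ∀ i, kmap (π : TrA A N →+* A) (u' i) = ω (Sum.inr i)

/-- MAL: an abstract lemma on families of multilinear forms. -/
def Stmt_MAL : Prop :=
  ∀ {n : Type} [Fintype n] [DecidableEq n] (S : Type 1) (A V : S → Type)
    [∀ s, CommRing (A s)] [∀ s, AddCommGroup (V s)] [∀ s, Module (A s) (V s)]
    (M : ∀ s, MultilinearMap (A s) (fun _ : n => V s) (A s)) (ρ : ∀ s, V s →ₗ[A s] A s)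
    (E₀ : Type) [Nonempty E₀] (io : ∀ s, E₀ → V s), (∀ s, ∃ v, ρ s v = 1) → (∀ s e, ρ s (io s e) = 0) →
    (∀ s v, ρ s v = 0 → v ∈ Submodule.span (A s) (Set.range (io s))) →
    (∀ (Z : Finset n) (e : n → E₀),
      (∀ (s : S) (ω ω' : n → V s), (∀ i, i ∉ Z → ω i = io s (e i) ∧ ω' i = io s (e i)) →
        (∀ i ∈ Z, ρ s (ω i) = 1 ∧ ρ s (ω' i) = 1) → M s ω = M s ω') →
      ∀ (s : S) (ω : n → V s), (∀ i, i ∉ Z → ω i = io s (e i)) →
        (∀ i ∈ Z, ρ s (ω i) = 1) → M s ω = 0) → ∀ s, M s = 0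

/-- MEX: homomorphisms to power series and formal points. -/
def Stmt_MEX : Prop :=
  ∀ {I B₀ A : Type} [Fintype I] [Nonempty I] [CommRing B₀] [CommRing A] [Algebra B₀ A] {h : ℕ}
    {R : Subalgebra B₀ (KK I B₀)}, IsKr h R → SmC B₀ R →
    (∀ p : R →ₐ[B₀] PowerSeries A, FPm p → ∃ pt : FPt (bc (algebraMap B₀ A) R),
      ∀ r : R, pt.h (bcMap (algebraMap B₀ A) R r) = p r) ∧
    (∀ pt : FPt (bc (algebraMap B₀ A) R), ∃ p : R →ₐ[B₀] PowerSeries A, FPm p ∧
      ∀ r : R, pt.h (bcMap (algebraMap B₀ A) R r) = p r) ∧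
    (∀ pt pt' : FPt (bc (algebraMap B₀ A) R), (∀ r : R, pt.h (bcMap (algebraMap B₀ A) R r) =
      pt'.h (bcMap (algebraMap B₀ A) R r)) → pt.h = pt'.h) ∧
    ∀ (pt : Bool → FPt (bc (algebraMap B₀ A) R)) (p : Bool → (R →ₐ[B₀] PowerSeries A)),
      (∀ (b : Bool) (r : R), (pt b).h (bcMap (algebraMap B₀ A) R r) = p b r) →
      (Disj pt ↔ DJm (p true) (p false))

/-- MCB: base change of a pair of charts. -/
def Stmt_MCB : Prop :=
  (∀ {I J A B : Type} [Fintype I] [Nonempty I] [Fintype J] [CommRing A] [CommRing B] {h : ℕ}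
    {W : Subalgebra A (KK (I ⊕ J) A)}, IsKr h W → Dn W → IsKr h (Rem W) ∧
      ∀ φ : A →+* B, Dn (bc φ W) ∧ Rem (bc φ W) = bc φ (Rem W) ∧
        ∀ w ∈ bc φ W, (∀ i, w (Sum.inl i) = 0) → w = 0) ∧
  (∀ {I I' A B : Type} [CommRing A] [CommRing B] (φ : A →+* B) (e : I' ≃ I)
    (P : Subalgebra A (KK I A)), bc φ (reix e P) = reix e (bc φ P)) ∧
  ∀ {B₀ A I₁ I₂ : Type} [CommRing B₀] [CommRing A] [Fintype I₁] [Nonempty I₁] [Fintype I₂]
    [Nonempty I₂] {h : ℕ} {R₁ : Subalgebra B₀ (KK I₁ B₀)} {R₂ : Subalgebra B₀ (KK I₂ B₀)}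
    {R₁₂ : Subalgebra B₀ (KK (I₁ ⊕ I₂) B₀)}, Chp h R₁ R₂ R₁₂ → ∀ φ : B₀ →+* A,
      Chp h (bc φ R₁) (bc φ R₂) (bc φ R₁₂)

/-- MLG: THEOREM LOG for a curve with two charts. -/
def Stmt_MLG : Prop :=
  ∀ {B₀ I₁ I₂ : Type} [CommRing B₀] [Algebra ℂ B₀] [Fintype I₁] [Nonempty I₁] [Fintype I₂]
    [Nonempty I₂] {h : ℕ} {R₁ : Subalgebra B₀ (KK I₁ B₀)} {R₂ : Subalgebra B₀ (KK I₂ B₀)}
    {R₁₂ : Subalgebra B₀ (KK (I₁ ⊕ I₂) B₀)}, Chp h R₁ R₂ R₁₂ →
    ∀ (b₁ : R₁) (b₂ : R₂) (ι₁ : R₁ →ₐ[B₀] R₁₂) (ι₂ : R₂ →ₐ[B₀] R₁₂), Inc ι₁ ι₂ →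
    ThmG b₁ b₂ ι₁ ι₂ → ∀ (E : Ev (h + 1)) (N k : ℕ), k < N →
    ∀ {A : Type} [CommRing A] [Algebra ℂ A] [Algebra B₀ A] [IsScalarTower ℂ B₀ A]
      (pt : Bool → FPt (bc (algebraMap B₀ A) R₁)), Disj pt →
      (∀ b, IsUnit ((pt b).ev (bcMap (algebraMap B₀ A) R₁ b₁))) → IHm E pt N k k

/-- LOG: THEOREM LOG, final form. -/
def Stmt_LOGF : Prop :=
  ∀ {A κ : Type} [CommRing A] [Algebra ℂ A] [Field κ] [IsAlgClosed κ] [CharZero κ]
    [Algebra κ A] (r : A →ₐ[κ] κ), (∃ n : ℕ, RingHom.ker r ^ n = ⊥) → (RingHom.ker r).FG →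
    ∀ {h : ℕ}, 2 ≤ h → ∀ (E : Ev (h + 1)) {R : Subalgebra A (KK Unit A)}, SKr h R →
    ∀ pt : Bool → FPt R, Disj pt → ∀ t : A, IsNilpotent t →
    ∀ (k : ℕ) (u u' : Fin k → KK Unit A) (x : A), (∀ i, u i ∈ EE (PT pt t)) →
      HV E (PT pt t) t u u' x → ∃ y z : A, x = t ^ k * y + z ∧ t * z = 0

end Pool.Agent.MG.G0


end

section

/-!
# GBC: base change of good Krichever rings
-/

open TensorProduct

namespace Pool.Agent.MG.G0

theorem t_GBC (hKBC : Stmt_KBC) : Stmt_GBC := by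
  intro I A B _ _ _ _ φ g P hP
  refine ⟨(hKBC.2.2.2 hP.1 φ).1, fun κ _ _ ψ => ?_⟩
  have h := hP.2 κ (ψ.comp φ)
  rw [hKBC.2.1 φ ψ P] at h
  exact h

end Pool.Agent.MG.G0


end

section

/-!
# HV1: existence of values
-/

open TensorProduct

namespace Pool.Agent.MG.G0

namespace HV1

theorem om_le {A I : Type} [CommRing A] (P : Subalgebra A (KK I A)) :
    Om P ≤ LinearMap.range (dk P) := by
  refine Submodule.span_le.2 ?_
  rintro η ⟨p, hp, f, hf, rfl⟩
  exact ⟨(⟨p, hp⟩ : P) ⊗ₜ (⟨f, hf⟩ : P), dk_tmul P _ _⟩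

end HV1

theorem t_HV1 : Stmt_HV1 := by
  intro A I _ _ _ _ g E P t ht k u u' hu hu'
  have h : ∀ i, ∃ η : DR P, dk P η = t • u i := by
    intro i
    obtain ⟨η, hη⟩ := HV1.om_le P (ht (u i) (hu i))
    refine ⟨⟨η, ?_⟩, hη⟩
    change dk P η ∈ Pol I A 0
    rw [hη]
    exact Submodule.smul_mem _ t (hu i).2
  choose η hη using h
  exact ⟨_, hu', η, hη, rfl⟩

end Pool.Agent.MG.G0


end

section

/-!
# HV5: multiples of `t`
-/

open TensorProduct

namespace Pool.Agent.MG.G0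

/-- HV5: multiples of `t`. -/
theorem t_HV5 (hPOL : Stmt_POL) : Stmt_HV5 := by
  intro A I _ _ _ _ g E P t c hP k u u' x ⟨hu, η, hη, hx⟩
  refine ⟨hu, fun i => c • η i, fun i => ?_, ?_⟩
  · change dk P (c • (η i : P ⊗[A] P)) = (c * t) • u i
    rw [map_smul, hη, mul_smul]
  · obtain ⟨M, hM⟩ := (hPOL E P hP).2.1 k
    have h1 : ∀ i, twR P ⟨u' i, hu i⟩ (c • η i) = c • twR P ⟨u' i, hu i⟩ (η i) := fun i =>
      Subtype.ext (map_smul (tw P ⟨u' i, hu i⟩) c (η i : P ⊗[A] P))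
    simp only [h1]
    rw [← hM, M.map_smul_univ (fun _ => c), hM, ← hx, Finset.prod_const, Finset.card_univ,
      Fintype.card_fin, smul_eq_mul]

end Pool.Agent.MG.G0


end

section

/-!
# HV6: the values `HV` and forgetting punctures (PAPER_Q.md)
-/

open TensorProduct

namespace Pool.Agent.MG.G0

namespace HV6m

section

variable {I J A : Type} [CommRing A] {W : Subalgebra A (KK (I ⊕ J) A)} {P : Subalgebra A (KK I A)}

/-- Every element of `P` lifts to an element of `W` which is regular at the punctures `J`. -/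
theorem exLift (h : Forget W P) (p : P) :
    ∃ w : W, atI (w : KK (I ⊕ J) A) = p ∧ atJ (w : KK (I ⊕ J) A) ∈ Pol J A 0 := by
  have h1 : (p : KK I A) ∈ Rem W := by
    rw [← h.eq]
    exact p.2
  obtain ⟨w, hw, h2, h3⟩ := h1
  exact ⟨⟨w, hw⟩, funext h3, fun j m hm => h2 j m (by omega)⟩

/-- The lift is unique. -/
theorem uniqLift (h : Forget W P) {w v : W}
    (h1 : atI (w : KK (I ⊕ J) A) = atI (v : KK (I ⊕ J) A)) : w = v := by
  have h2 : (w : KK (I ⊕ J) A) - (v : KK (I ⊕ J) A) = 0 := by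
    refine h.inj _ (sub_mem w.2 v.2) fun i => ?_
    have h3 : (w : KK (I ⊕ J) A) (Sum.inl i) = (v : KK (I ⊕ J) A) (Sum.inl i) := congrFun h1 i
    rw [Pi.sub_apply, h3, sub_self]
  exact Subtype.ext (sub_eq_zero.1 h2)

/-- The lifting map. -/
noncomputable def lam (h : Forget W P) : P →ₗ[A] W where
  toFun p := Classical.choose (exLift h p)
  map_add' p q := uniqLift h (by
    have h1 := (Classical.choose_spec (exLift h (p + q))).1
    have h2 := (Classical.choose_spec (exLift h p)).1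
    have h3 := (Classical.choose_spec (exLift h q)).1
    rw [h1]
    change (p : KK I A) + (q : KK I A) =
      atI ((Classical.choose (exLift h p) : W) : KK (I ⊕ J) A) +
        atI ((Classical.choose (exLift h q) : W) : KK (I ⊕ J) A)
    rw [h2, h3])
  map_smul' a p := uniqLift h (by
    have h1 := (Classical.choose_spec (exLift h (a • p))).1
    have h2 := (Classical.choose_spec (exLift h p)).1
    rw [h1]
    change a • (p : KK I A) = a • atI ((Classical.choose (exLift h p) : W) : KK (I ⊕ J) A)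
    rw [h2])

theorem lam_I (h : Forget W P) (p : P) : atI ((lam h p : W) : KK (I ⊕ J) A) = p :=
  (Classical.choose_spec (exLift h p)).1

theorem lam_J (h : Forget W P) (p : P) : atJ ((lam h p : W) : KK (I ⊕ J) A) ∈ Pol J A 0 :=
  (Classical.choose_spec (exLift h p)).2

/-- The lifting map on `∑ p ⊗ g`. -/
noncomputable def lam2 (h : Forget W P) : P ⊗[A] P →ₗ[A] W ⊗[A] W :=
  TensorProduct.map (lam h) (lam h)

theorem lam2_tmul (h : Forget W P) (p g : P) : lam2 h (p ⊗ₜ g) = lam h p ⊗ₜ lam h g := rfl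

theorem dk_I (h : Forget W P) (η : P ⊗[A] P) : atI (dk W (lam2 h η)) = dk P η := by
  induction η using TensorProduct.induction_on with
  | zero =>
    rw [map_zero, map_zero, map_zero]
    rfl
  | tmul p g =>
    rw [lam2_tmul, dk_tmul, dk_tmul]
    change atI ((lam h p : W) : KK (I ⊕ J) A) * dd (atI ((lam h g : W) : KK (I ⊕ J) A)) = _
    rw [lam_I, lam_I]
  | add a b ha hb =>
    rw [map_add, map_add, map_add]
    change atI (dk W (lam2 h a)) + atI (dk W (lam2 h b)) = _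
    rw [ha, hb]

theorem dk_J (h : Forget W P) (η : P ⊗[A] P) : atJ (dk W (lam2 h η)) ∈ Pol J A 0 := by
  induction η using TensorProduct.induction_on with
  | zero =>
    rw [map_zero, map_zero]
    exact zero_mem (Pol J A 0)
  | tmul p g =>
    rw [lam2_tmul, dk_tmul]
    exact mul_mem_Pol0 (lam_J h p) (dd_mem_Pol0 (lam_J h g))
  | add a b ha hb =>
    rw [map_add, map_add]
    exact add_mem ha hb

theorem dk_Om (η : W ⊗[A] W) : dk W η ∈ Om W := by
  induction η using TensorProduct.induction_on with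
  | zero =>
    rw [map_zero]
    exact zero_mem _
  | tmul p g =>
    rw [dk_tmul]
    exact Submodule.subset_span ⟨p, p.2, g, g.2, rfl⟩
  | add a b ha hb =>
    rw [map_add]
    exact add_mem ha hb

end

section

variable {I J A : Type} [Fintype I] [Fintype J] [CommRing A] {W : Subalgebra A (KK (I ⊕ J) A)}
  {P : Subalgebra A (KK I A)}

/-- The pairs `(u'_I η, u' η')` are in `QF`. -/
theorem tw_QF (h : Forget W P) (ω : EE P) (ω' : EE W)
    (h1 : atI (ω' : KK (I ⊕ J) A) = ω) (η : P ⊗[A] P) :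
    (tw P ω η, tw W ω' (lam2 h η)) ∈ QF P W := by
  induction η using TensorProduct.induction_on with
  | zero =>
    rw [map_zero, map_zero, map_zero]
    exact zero_mem _
  | tmul p g =>
    refine Submodule.subset_span ⟨⟨(p : KK I A) * ω, mul_mem_Perp p.2 ω.2.1⟩, g,
      ⟨((lam h p : W) : KK (I ⊕ J) A) * ω', mul_mem_Perp (lam h p).2 ω'.2.1⟩, lam h g,
      ?_, ?_, lam_I h g, lam_J h g, rfl⟩
    · change atI ((lam h p : W) : KK (I ⊕ J) A) * atI (ω' : KK (I ⊕ J) A) = (p : KK I A) * ω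
      rw [lam_I, h1]
    · exact mul_mem_Pol0 (lam_J h p) fun j m hm => ω'.2.2 (Sum.inr j) m hm
  | add a b ha hb =>
    rw [map_add, map_add, map_add]
    exact add_mem ha hb

end

end HV6m

open _root_.Pool.Agent.MG.G0.HV6m in
/-- HV6: forgetting punctures. -/
theorem t_HV6 (hPOF : Stmt_POF) (hEEF : Stmt_EEF) (hSTO : Stmt_STO) : Stmt_HV6 := by
  intro A I J _ _ _ _ _ g E W P t hF hW hP k u u' x hu hu' hx
  obtain ⟨hv, η, h1, h2⟩ := hx
  have key : ∀ i, dk W (lam2 hF (η i : P ⊗[A] P)) = t • u i := by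
    intro i
    have h3 : dk W (lam2 hF (η i : P ⊗[A] P)) - t • u i = 0 := by
      refine (hEEF hW.1 hF).2.1 _ ?_ ?_ ?_
      · exact sub_mem ((hSTO hW.1).1 (dk_Om _)) ((Perp W).smul_mem t (hu i).1)
      · change atI (dk W (lam2 hF (η i : P ⊗[A] P))) - t • atI (u i) = 0
        rw [dk_I, h1 i, sub_self]
      · exact sub_mem (dk_J hF (η i)) ((Pol J A 0).smul_mem t fun j m hm =>
          (hu i).2 (Sum.inr j) m hm)
    exact sub_eq_zero.1 h3
  have mem : ∀ i, lam2 hF (η i : P ⊗[A] P) ∈ DR W := by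
    intro i
    rw [DR, Submodule.mem_comap, key i]
    exact (Pol (I ⊕ J) A 0).smul_mem t (hu i).2
  refine ⟨hu', fun i => ⟨lam2 hF (η i : P ⊗[A] P), mem i⟩, key, ?_⟩
  rw [h2]
  refine (hPOF E P W hW hP hF _ _ fun i => ?_).symm
  exact tw_QF hF ⟨atI (u' i), hv i⟩ ⟨u' i, hu' i⟩ rfl (η i)

end Pool.Agent.MG.G0


end

section

/-!
# HV7: values and the change of the index set
-/

open TensorProduct

namespace Pool.Agent.MG.G0

namespace HV7

section

variable {A I I' : Type} [CommRing A] (e : I' ≃ I)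

theorem pol {f : KK I A} {n : ℤ} (hf : f ∈ Pol I A n) : (fun i => f (e i)) ∈ Pol I' A n :=
  fun i m hm => hf (e i) m hm

theorem mem {P : Subalgebra A (KK I A)} {f : KK I A} (hf : f ∈ P) :
    (fun i => f (e i)) ∈ reix e P := by
  change (fun i => f (e (e.symm i))) ∈ P
  simpa only [Equiv.apply_symm_apply] using hf

/-- The isomorphism of rings. -/
noncomputable def rho (P : Subalgebra A (KK I A)) : P →ₗ[A] reix e P where
  toFun f := ⟨fun i => (f : KK I A) (e i), mem e f.2⟩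
  map_add' _ _ := rfl
  map_smul' _ _ := rfl

/-- The map of the tensors. -/
noncomputable def rT (P : Subalgebra A (KK I A)) : P ⊗[A] P →ₗ[A] (reix e P ⊗[A] reix e P) :=
  TensorProduct.map (rho e P) (rho e P)

theorem dk_rT (P : Subalgebra A (KK I A)) (η : P ⊗[A] P) :
    dk (reix e P) (rT e P η) = fun i => dk P η (e i) := by
  induction η using TensorProduct.induction_on with
  | zero => rw [map_zero, map_zero, map_zero]; rfl
  | tmul p g => rfl
  | add a b ha hb => rw [map_add, map_add, map_add, ha, hb]; rfl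

theorem perp [Fintype I] [Fintype I'] {P : Subalgebra A (KK I A)} {f : KK I A}
    (hf : f ∈ Perp P) : (fun i => f (e i)) ∈ Perp (reix e P) := by
  intro p hp
  have h1 : res (fun i => f (e i) * p i) = res (f * fun i => p (e.symm i)) := by
    change ∑ i, (f (e i) * p i).coeff (-1) = ∑ i, (f i * p (e.symm i)).coeff (-1)
    rw [← Equiv.sum_comp e]
    refine Finset.sum_congr rfl fun i _ => ?_
    rw [Equiv.symm_apply_apply]
  exact h1.trans (hf _ hp)

theorem mem_QI [Fintype I] [Fintype I'] {P : Subalgebra A (KK I A)} (ω : EE P)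
    (ω' : EE (reix e P)) (h : ∀ i, (ω' : KK I' A) i = (ω : KK I A) (e i)) (η : P ⊗[A] P) :
    (tw P ω η, tw (reix e P) ω' (rT e P η)) ∈ QI e P (reix e P) := by
  induction η using TensorProduct.induction_on with
  | zero =>
    rw [map_zero, map_zero, map_zero]
    exact zero_mem _
  | tmul p g =>
    refine Submodule.subset_span ⟨⟨(p : KK I A) * ω, mul_mem_Perp p.2 ω.2.1⟩, g,
      ⟨(rho e P p : KK I' A) * ω', mul_mem_Perp (rho e P p).2 ω'.2.1⟩, rho e P g,
      fun i => ?_, fun i => rfl, rfl⟩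
    change (p : KK I A) (e i) * (ω' : KK I' A) i = (p : KK I A) (e i) * (ω : KK I A) (e i)
    rw [h]
  | add a b ha hb =>
    rw [map_add, map_add, map_add]
    exact add_mem ha hb

end

end HV7

theorem t_HV7 (hPOX : Stmt_POX) (hGRX : Stmt_GRX) : Stmt_HV7 := by
  intro A I I' _ _ _ _ _ _ g E P e t hP
  have hP' : Good g (reix e P) := hGRX.1 e g P hP
  refine ⟨hP', ?_⟩
  rintro k u u' x ⟨hu, η, hη, rfl⟩
  have hu' : ∀ j, (fun i => u' j (e i)) ∈ EE (reix e P) := fun j =>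
    ⟨HV7.perp e (hu j).1, HV7.pol e (hu j).2⟩
  have hd : ∀ j, dk (reix e P) (HV7.rT e P (η j)) = t • fun i => u j (e i) := by
    intro j
    rw [HV7.dk_rT, hη j]
    rfl
  have hR : ∀ j, HV7.rT e P (η j : P ⊗[A] P) ∈ DR (reix e P) := by
    intro j
    change dk (reix e P) (HV7.rT e P (η j)) ∈ Pol I' A 0
    rw [HV7.dk_rT]
    exact HV7.pol e (η j).2
  refine ⟨hu', fun j => ⟨HV7.rT e P (η j), hR j⟩, hd, ?_⟩
  exact (hPOX E e P (reix e P) hP hP' rfl _ _ fun j =>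
    HV7.mem_QI e ⟨u' j, hu j⟩ ⟨_, hu' j⟩ (fun _ => rfl) (η j)).symm

end Pool.Agent.MG.G0


end

section

/-!
# MEE: regular differentials and base change
-/

open TensorProduct

namespace Pool.Agent.MG.G0

theorem t_MEE (hKFO : Stmt_KFO) (hKBC : Stmt_KBC) : Stmt_MEE := by
  intro I A B _ _ _ _ g P hP φ
  obtain ⟨⟨ω, hω⟩, hF⟩ := hKFO hP
  obtain ⟨h1, h1'⟩ := hF ω hω
  obtain ⟨hK, hb, -⟩ := hKBC.2.2.2 hP φ
  obtain ⟨h2, h2'⟩ := (hKFO hK).2 _ (hb ω hω)
  have hm : ∀ c : Fin g → A, kmap φ (∑ j, c j • ω j) = ∑ j, φ (c j) • kmap φ (ω j) := by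
    intro c
    rw [map_sum]
    exact Finset.sum_congr rfl fun j _ => kmap_smul φ _ _
  have hA : ∀ u ∈ EE P, kmap φ u ∈ EE (bc φ P) := by
    intro u hu
    obtain ⟨c, hc, -⟩ := h1' u hu
    rw [hc, hm]
    exact Submodule.sum_mem _ fun j _ => Submodule.smul_mem _ _ (h2 j)
  refine ⟨hA, ?_, ?_⟩
  · apply le_antisymm
    · intro η hη
      obtain ⟨c, hc, -⟩ := h2' η hη
      rw [hc]
      exact Submodule.sum_mem _ fun j _ => Submodule.smul_mem _ _
        (Submodule.subset_span ⟨ω j, h1 j, rfl⟩)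
    · rw [Submodule.span_le]
      rintro _ ⟨u, hu, rfl⟩
      exact hA u hu
  · intro hφ
    refine ⟨?_, ?_⟩
    · intro η hη
      obtain ⟨c, hc, -⟩ := h2' η hη
      choose a ha using fun j => hφ (c j)
      refine ⟨∑ j, a j • ω j, Submodule.sum_mem _ fun j _ => Submodule.smul_mem _ _ (h1 j), ?_⟩
      rw [hm, hc]
      exact Finset.sum_congr rfl fun j _ => by rw [ha]
    · intro t _ hk u hu hu0
      obtain ⟨c, hc, -⟩ := h1' u hu
      obtain ⟨c0, -, hc0⟩ := h2' 0 (Submodule.zero_mem _)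
      have e1 : (fun j => φ (c j)) = c0 := hc0 _ (by
        change (0 : KK I B) = ∑ j, φ (c j) • kmap φ (ω j)
        rw [← hm, ← hc, hu0])
      have e2 : (fun _ => (0 : B)) = c0 := hc0 _ (by simp)
      have e3 : ∀ j, φ (c j) = 0 := fun j => by
        have := congrFun (e1.trans e2.symm) j
        exact this
      choose b hb' using fun j => hk (c j) (e3 j)
      refine ⟨∑ j, b j • ω j, Submodule.sum_mem _ fun j _ => Submodule.smul_mem _ _ (h1 j), ?_⟩
      rw [hc, Finset.smul_sum]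
      exact Finset.sum_congr rfl fun j _ => by rw [hb', smul_smul]

end Pool.Agent.MG.G0


end

section

/-!
# MTR: truncated polynomial rings `A[T]/T^N` (PAPER_M.md)
-/

open Polynomial

namespace Pool.Agent.MG.G0

namespace MTR

section

variable {A : Type} [CommRing A] {N : ℕ}

theorem tt_pow : tt A N ^ N = 0 := by
  have h : AdjoinRoot.mk ((X : A[X]) ^ N) (X ^ N) = 0 := AdjoinRoot.mk_self
  rw [map_pow, AdjoinRoot.mk_X] at h
  exact h

theorem mk_tt : AdjoinRoot.mk ((X : A[X]) ^ N) X = tt A N := AdjoinRoot.mk_X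

theorem eq_mk (x : TrA A N) : ∃ p : A[X], AdjoinRoot.mk ((X : A[X]) ^ N) p = x :=
  AdjoinRoot.mk_surjective x

theorem co_add (x y : TrA A N) (i : ℕ) (hi : i < N) : co i (x + y) = co i x + co i y := by
  obtain ⟨p, rfl⟩ := eq_mk x
  obtain ⟨q, rfl⟩ := eq_mk y
  rw [← map_add, co_mk hi, co_mk hi, co_mk hi, coeff_add]

theorem co_smul (a : A) (x : TrA A N) (i : ℕ) (hi : i < N) : co i (a • x) = a * co i x := by
  obtain ⟨p, rfl⟩ := eq_mk x
  have h : a • AdjoinRoot.mk ((X : A[X]) ^ N) p = AdjoinRoot.mk ((X : A[X]) ^ N) (a • p) := rfl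
  rw [h, co_mk hi, co_mk hi, coeff_smul, smul_eq_mul]

theorem co_zero (x : TrA A N) (h : ∀ i, i < N → co i x = 0) : x = 0 := by
  obtain ⟨p, rfl⟩ := eq_mk x
  rw [AdjoinRoot.mk_eq_zero, X_pow_dvd_iff]
  intro i hi
  have := h i hi
  rwa [co_mk hi] at this

theorem co_tt_zero (x : TrA A N) (hN : 0 < N) : co 0 (tt A N * x) = 0 := by
  obtain ⟨p, rfl⟩ := eq_mk x
  rw [← mk_tt, ← map_mul, co_mk hN, mul_comm, coeff_mul_X_zero]

theorem co_tt_succ (x : TrA A N) (i : ℕ) (hi : i + 1 < N) :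
    co (i + 1) (tt A N * x) = co i x := by
  obtain ⟨p, rfl⟩ := eq_mk x
  rw [← mk_tt, ← map_mul, co_mk hi, co_mk (Nat.lt_of_succ_lt hi), mul_comm, coeff_mul_X]

theorem ext_co (x y : TrA A N) (h : ∀ i, i < N → co i x = co i y) : x = y := by
  obtain ⟨p, rfl⟩ := eq_mk x
  obtain ⟨q, rfl⟩ := eq_mk y
  rw [AdjoinRoot.mk_eq_mk, X_pow_dvd_iff]
  intro i hi
  have := h i hi
  rw [co_mk hi, co_mk hi] at this
  rw [coeff_sub, this, sub_self]

theorem sum_mk (a : ℕ → A) : ∑ i ∈ Finset.range N, a i • tt A N ^ i =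
    AdjoinRoot.mk ((X : A[X]) ^ N) (∑ i ∈ Finset.range N, a i • X ^ i) := by
  rw [map_sum]
  refine Finset.sum_congr rfl fun i _ => ?_
  rw [← mk_tt, ← map_pow]
  rfl

theorem co_sum (x : TrA A N) : x = ∑ i ∈ Finset.range N, co i x • tt A N ^ i := by
  refine ext_co _ _ fun i hi => ?_
  rw [sum_mk, co_mk hi, finsetSum_coeff, Finset.sum_eq_single i]
  · rw [coeff_smul, coeff_X_pow_self, smul_eq_mul, mul_one]
  · intro j _ hj
    rw [coeff_smul, coeff_X_pow, if_neg (fun h => hj h.symm), smul_zero]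
  · intro h
    exact absurd (Finset.mem_range.2 hi) h

theorem co_dvd (x : TrA A N) (m : ℕ) (h : ∀ i, i < m → i < N → co i x = 0) :
    ∃ y, x = tt A N ^ m * y := by
  by_cases hm : m ≤ N
  · obtain ⟨p, rfl⟩ := eq_mk x
    have h1 : (X : A[X]) ^ m ∣ p := by
      rw [X_pow_dvd_iff]
      intro i hi
      have := h i hi (lt_of_lt_of_le hi hm)
      rwa [co_mk (lt_of_lt_of_le hi hm)] at this
    obtain ⟨q, rfl⟩ := h1
    exact ⟨AdjoinRoot.mk ((X : A[X]) ^ N) q, by rw [map_mul, map_pow, mk_tt]⟩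
  · refine ⟨0, ?_⟩
    rw [mul_zero]
    exact co_zero x fun i hi => h i (lt_trans hi (not_le.1 hm)) hi

theorem ttmul (x : TrA A N) (h : tt A N * x = 0) (i : ℕ) (hi : i + 1 < N) : co i x = 0 := by
  rw [← co_tt_succ x i hi, h, ← map_zero (AdjoinRoot.mk ((X : A[X]) ^ N)), co_mk hi, coeff_zero]

end

theorem p2a {A B : Type} [CommRing A] [CommRing B] {N : ℕ} (φ : A →+* B) :
    ∃ σ : TrA A N →+* TrA B N, TrM φ σ := by
  have h : ((X : A[X]) ^ N).eval₂ ((algebraMap B (TrA B N)).comp φ) (tt B N) = 0 := by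
    rw [eval₂_pow, eval₂_X, tt_pow]
  refine ⟨AdjoinRoot.lift ((algebraMap B (TrA B N)).comp φ) (tt B N) h, fun a => ?_, ?_⟩
  · exact AdjoinRoot.lift_of h
  · exact AdjoinRoot.lift_root h

theorem p2b {A B : Type} [CommRing A] [CommRing B] {N : ℕ} (φ : A →+* B)
    (σ : TrA A N →+* TrA B N) (hσ : TrM φ σ) (x : TrA A N) (i : ℕ) (hi : i < N) :
    co i (σ x) = φ (co i x) := by
  have h : σ.comp (AdjoinRoot.mk ((X : A[X]) ^ N)) =
      (AdjoinRoot.mk ((X : B[X]) ^ N)).comp (mapRingHom φ) := by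
    refine ringHom_ext (fun a => ?_) ?_
    · have := hσ.1 a
      rw [AdjoinRoot.algebraMap_eq, AdjoinRoot.algebraMap_eq] at this
      simpa using this
    · have := hσ.2
      simpa using this
  obtain ⟨p, rfl⟩ := eq_mk x
  have h1 := DFunLike.congr_fun h p
  rw [RingHom.comp_apply, RingHom.comp_apply, coe_mapRingHom] at h1
  rw [h1, co_mk hi, co_mk hi, coeff_map]

theorem p4 {A B : Type} [CommRing A] [CommRing B] [Algebra A B] {N : ℕ} (t : B)
    (ht : t ^ N = 0) : ∃ σ : TrA A N →ₐ[A] B, σ (tt A N) = t := by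
  have h : ((X : A[X]) ^ N).eval₂ (Algebra.ofId A B : A →+* B) t = 0 := by
    rw [eval₂_pow, eval₂_X, ht]
  exact ⟨AdjoinRoot.liftAlgHom _ (Algebra.ofId A B) t h, AdjoinRoot.liftAlgHom_root _ _ _ _⟩

theorem alg_mk {A B : Type} [CommRing A] [CommRing B] [Algebra A B] {N : ℕ}
    (σ : TrA A N →ₐ[A] B) (p : A[X]) :
    σ (AdjoinRoot.mk ((X : A[X]) ^ N) p) = aeval (σ (tt A N)) p := by
  have h : σ.comp (AdjoinRoot.mkₐ ((X : A[X]) ^ N)) = aeval (σ (tt A N)) := by
    refine algHom_ext ?_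
    rw [aeval_X]
    rfl
  exact DFunLike.congr_fun h p

theorem p3b {A : Type} [CommRing A] {N : ℕ} (c : A) (ψ : TrA A N →ₐ[A] TrA A N)
    (hψ : ψ (tt A N) = c • tt A N) (x : TrA A N) (i : ℕ) (hi : i < N) :
    co i (ψ x) = c ^ i * co i x := by
  obtain ⟨p, rfl⟩ := eq_mk x
  have h : aeval (c • tt A N) p = AdjoinRoot.mk ((X : A[X]) ^ N) (p.comp (C c * X)) := by
    have h1 : (AdjoinRoot.mkₐ ((X : A[X]) ^ N)).comp (aeval (C c * X : A[X])) =
        aeval (c • tt A N) := by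
      refine algHom_ext ?_
      rw [aeval_X, AlgHom.comp_apply, aeval_X, ← smul_eq_C_mul, map_smul]
      rfl
    rw [← h1, AlgHom.comp_apply]
    rfl
  rw [alg_mk, hψ, h, co_mk hi, co_mk hi, comp_C_mul_X_coeff, mul_comm]

theorem p5 {A : Type} [CommRing A] {N : ℕ} (π : TrA A N →ₐ[A] A) (hπ : π (tt A N) = 0)
    (hN : 0 < N) (x : TrA A N) : π x = co 0 x ∧ (π x = 0 → ∃ y, x = tt A N * y) := by
  have h : π x = co 0 x := by
    obtain ⟨p, rfl⟩ := eq_mk x
    rw [alg_mk, hπ, co_mk hN, coeff_zero_eq_aeval_zero]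
  refine ⟨h, fun h0 => ?_⟩
  obtain ⟨y, hy⟩ := co_dvd x 1 fun i hi _ => by
    obtain rfl : i = 0 := by omega
    rw [← h, h0]
  exact ⟨y, by rwa [pow_one] at hy⟩

end MTR

theorem t_MTR : Stmt_MTR := by
  refine ⟨fun {A} _ {N} => ⟨MTR.tt_pow, MTR.co_sum, MTR.co_add, MTR.co_smul, MTR.co_zero,
    MTR.co_tt_zero, MTR.co_tt_succ, MTR.co_dvd, fun x h i hi => MTR.ttmul x h i hi⟩,
    fun φ => ⟨MTR.p2a φ, MTR.p2b φ⟩, fun {A} _ {N} c => ⟨?_, MTR.p3b c⟩,
    fun t ht => MTR.p4 t ht, fun π hπ hN x => MTR.p5 π hπ hN x⟩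
  have h : (c • tt A N) ^ N = 0 := by
    rw [_root_.smul_pow, MTR.tt_pow, smul_zero]
  exact MTR.p4 _ h

end Pool.Agent.MG.G0


end

section

/-!
# MVF: forgetting punctures and the values at plumbed curves
-/

open TensorProduct

namespace Pool.Agent.MG.G0

namespace MVF

variable {I J A B : Type} [Fintype I] [Nonempty I] [Fintype J] [CommRing A] [CommRing B]

omit [Fintype I] [Nonempty I] [Fintype J] in
/-- `atI` and `atJ` commute with base change. -/
theorem atI_kmap (φ : A →+* B) (w : KK (I ⊕ J) A) : atI (kmap φ w) = kmap φ (atI w) := rfl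

omit [Fintype I] [Nonempty I] [Fintype J] in
theorem atJ_kmap (φ : A →+* B) (w : KK (I ⊕ J) A) : atJ (kmap φ w) = kmap φ (atJ w) := rfl

omit [Fintype I] [Nonempty I] [Fintype J] in
/-- Regularity at the forgotten punctures. -/
theorem atJ_mem {w : KK (I ⊕ J) A} (h : ∀ j, ∀ m < 0, (w (Sum.inr j)).coeff m = 0) :
    atJ w ∈ Pol J A 0 := fun j m hm => h j m (by simpa using hm)

/-- The base change of a restriction of formal points is a restriction. -/
theorem rs_bc (hPLF : Stmt_PLF) {h : ℕ} {W : Subalgebra A (KK (I ⊕ J) A)}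
    {R : Subalgebra A (KK I A)} (hF : Forget W R) (φ : A →+* B) (k1 : IsKr h (bc φ W))
    (k2 : IsKr h (bc φ R)) (s1 : SmC B (bc φ W)) (s2 : SmC B (bc φ R))
    (hF' : Forget (bc φ W) (bc φ R)) (p : FPt W) (p₁ : FPt R) (hr : p.Rs p₁)
    (p' : FPt (bc φ W)) (p₁' : FPt (bc φ R)) (h1 : p.Bc φ p') (h2 : p₁.Bc φ p₁') :
    p'.Rs p₁' := by
  obtain ⟨p'', h3⟩ := (hPLF k1 k2 s1 s2 hF').1 p'
  have hh : p₁'.h = p''.h := by
    refine AlgHom.adjoin_ext (R := B) (s := kmap φ '' (R : Set (KK I A))) ?_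
    rintro _ ⟨r, hr', rfl⟩
    have hr2 : r ∈ Rem W := hF.eq ▸ hr'
    obtain ⟨w, hw, hreg, hwr⟩ := hr2
    have e1 : atI w = r := funext hwr
    have e2 : p₁'.h ⟨kmap φ r, kmap_mem_bc φ hr'⟩ = PowerSeries.map φ (p₁.h ⟨r, hr'⟩) :=
      h2.1 ⟨r, hr'⟩
    have e3 : p'.h ⟨kmap φ w, kmap_mem_bc φ hw⟩ = PowerSeries.map φ (p.h ⟨w, hw⟩) := h1.1 ⟨w, hw⟩
    have e4 : p₁.h ⟨r, hr'⟩ = p.h ⟨w, hw⟩ := hr ⟨w, hw⟩ ⟨r, hr'⟩ e1 (atJ_mem hreg)
    have e5 : p''.h ⟨kmap φ r, kmap_mem_bc φ hr'⟩ = p'.h ⟨kmap φ w, kmap_mem_bc φ hw⟩ := by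
      refine h3 ⟨kmap φ w, kmap_mem_bc φ hw⟩ ⟨kmap φ r, kmap_mem_bc φ hr'⟩ ?_ ?_
      · change atI (kmap φ w) = kmap φ r
        rw [atI_kmap, e1]
      · change atJ (kmap φ w) ∈ Pol J B 0
        rw [atJ_kmap]
        exact kmap_mem_Pol φ (atJ_mem hreg)
    exact e2.trans ((congrArg (PowerSeries.map φ) e4).trans (e3.symm.trans e5.symm))
  intro w f hwf hreg
  rw [hh]
  exact h3 w f hwf hreg

end MVF

theorem t_MVF (hKBC : Stmt_KBC) (hAWB : Stmt_AWB) (hPLF : Stmt_PLF) (hMEE : Stmt_MEE)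
    (hMFE : Stmt_MFE) (hMPB : Stmt_MPB) (hMPG : Stmt_MPG) (hMCB : Stmt_MCB) (hMTR : Stmt_MTR)
    (hMVX : Stmt_MVX) (hHV6 : Stmt_HV6) : Stmt_MVF := by
  intro I J A _ _ _ _ _ h W R hW hR hF pt pt₁ hrs hdis E
  have hd1 : Disj pt₁ := ((hPLF hW.kr hR.kr hW.smc hR.smc hF).2 pt pt₁ hrs hdis).1
  constructor
  · rintro N k u u' x ⟨pt', hbc, hu, hu', hx⟩
    have hT : IsNilpotent (tt A N) := ⟨N, (hMTR.1 (A := A) (N := N)).1⟩
    have hW' : SKr h (bc (algebraMap A (TrA A N)) W) :=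
      (hMPG hW pt hdis 0 IsNilpotent.zero).2.2.2 _
    have hR' : SKr h (bc (algebraMap A (TrA A N)) R) :=
      (hMPG hR pt₁ hd1 0 IsNilpotent.zero).2.2.2 _
    have hF' : Forget (bc (algebraMap A (TrA A N)) W) (bc (algebraMap A (TrA A N)) R) := by
      obtain ⟨-, h2⟩ := hMCB.1 (B := TrA A N) hW.kr hF.dns
      obtain ⟨h3, h4, h5⟩ := h2 (algebraMap A (TrA A N))
      exact ⟨by rw [h4, ← hF.eq], h5, h3⟩
    have hd' : Disj pt' := ((hAWB hW.kr (algebraMap A (TrA A N))).2 hW.smc pt pt' hbc hdis).1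
    obtain ⟨pt₁', hbc1⟩ := (hMVX hR pt₁ hd1 E N k).1
    have hrs' : ∀ b, (pt' b).Rs (pt₁' b) := fun b =>
      MVF.rs_bc hPLF hF _ hW'.kr hR'.kr hW'.smc hR'.smc hF' (pt b) (pt₁ b) (hrs b) (pt' b)
        (pt₁' b) (hbc b) (hbc1 b)
    obtain ⟨hd1', hFT⟩ := (hPLF hW'.kr hR'.kr hW'.smc hR'.smc hF').2 pt' pt₁' hrs' hd'
    have hF2 := hFT (tt A N) hT
    obtain ⟨k1, -, -⟩ := (hMVX hW pt hdis E N k).2.1 pt' hbc
    obtain ⟨k2, hex, -⟩ := (hMVX hR pt₁ hd1 E N k).2.1 pt₁' hbc1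
    have hE := (hMFE.1 k1 k2 hF2).1
    obtain ⟨y, hy⟩ := hex (fun i => atI (u i)) (fun i => atI (u' i)) (fun i => hE _ (hu i))
      (fun i => hE _ (hu' i))
    refine ⟨y, hy, ?_⟩
    obtain ⟨pt₁'', hbc2, -, -, hy2⟩ := hy
    have hpt : pt₁'' = pt₁' := by
      funext b
      exact ((hAWB hR.kr (algebraMap A (TrA A N))).1 (pt₁ b)).unique (hbc2 b) (hbc1 b)
    subst hpt
    have hy3 : HV E (PT pt' (tt A N)) (tt A N) u u' y :=
      hHV6 E (tt A N) hF2 (hMPG hW' pt' hd' (tt A N) hT).1 (hMPG hR' pt₁'' hd1' (tt A N) hT).1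
        u u' y hu hu' hy2
    exact (hMVX hW pt hdis E N k).2.2 u u' x y ⟨pt', hbc, hu, hu', hx⟩
      ⟨pt', hbc, hu, hu', hy3⟩
  · intro t k u u' x ht hu hu' hx
    have hFT := ((hPLF hW.kr hR.kr hW.smc hR.smc hF).2 pt pt₁ hrs hdis).2 t ht
    exact hHV6 E t hFT (hMPG hW pt hdis t ht).1 (hMPG hR pt₁ hd1 t ht).1 u u' x hu hu' hx

end Pool.Agent.MG.G0


end

section

/-!
# MVN: naturality of the values at plumbed curves
-/

open TensorProduct

namespace Pool.Agent.MG.G0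

namespace MVN

/-- Composition of base changes of formal points. -/
theorem bcr_comp (hKBC : Stmt_KBC) {I A B C : Type} [CommRing A] [CommRing B] [CommRing C]
    (φ : A →+* B) (ψ : B →+* C) {R : Subalgebra A (KK I A)} {R' : Subalgebra B (KK I B)}
    {R'' : Subalgebra C (KK I C)} {p : FPt R} {p' : FPt R'} {p'' : FPt R''}
    (h : Bcr φ p p') (h' : Bcr ψ p' p'') : Bcr (ψ.comp φ) p p'' := by
  obtain ⟨h1, h2⟩ := h
  obtain ⟨h3, h4⟩ := h'
  refine ⟨?_, fun f f'' hf => ?_⟩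
  · rw [h3, h1, hKBC.2.1]
  · have hm : kmap φ (f : KK I A) ∈ R' := by
      rw [h1]
      exact kmap_mem_bc φ f.2
    rw [h4 ⟨kmap φ (f : KK I A), hm⟩ f'' (by rw [hf, kmap_comp]), h2 f ⟨_, hm⟩ rfl,
      PowerSeries.map_comp]
    rfl

end MVN

open _root_.Pool.Agent.MG.G0.MVN in
theorem t_MVN (hKBC : Stmt_KBC) (hAWB : Stmt_AWB) (hMEE : Stmt_MEE) (hMPB : Stmt_MPB)
    (hMPG : Stmt_MPG) (hMTR : Stmt_MTR) (hHV4 : Stmt_HV4) : Stmt_MVN := by
  intro I A B _ _ _ _ _ _ h R hR pt hpt E N k φ R' pt' hpt' σ hσ u u' x hV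
  obtain ⟨qt, hqt, hu, hu', hHV⟩ := hV
  obtain ⟨hR', -⟩ := hpt' true
  subst hR'
  -- the curves over the two rings
  have hKB : SKr h (bc (φ : A →+* B) R) := (hMPG hR pt hpt 0 (IsNilpotent.zero)).2.2.2 _
  have hKA : SKr h (bc (algebraMap A (TrA A N)) R) :=
    (hMPG hR pt hpt 0 (IsNilpotent.zero)).2.2.2 _
  have hA := hMPB hR.kr hR.smc pt hpt
  have hpt'D : Disj pt' := (hA.1 (φ : A →+* B) _ pt' hpt').1
  have hB := hMPB hKB.kr hKB.smc pt' hpt'D
  have h1 : ∀ b, Bcr (algebraMap A (TrA A N)) (pt b) (qt b) := hA.2.2.2 _ qt hqt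
  have hqtD : Disj qt := (hA.1 _ _ qt h1).1
  have hAW := (hAWB hKB.1 (algebraMap B (TrA B N))).1
  choose qt' hqt' _ using fun b => hAW (pt' b)
  have h2 : ∀ b, Bcr (algebraMap B (TrA B N)) (pt' b) (qt' b) := hB.2.2.2 _ qt' hqt'
  have e1 : σ.comp (algebraMap A (TrA A N)) = (algebraMap B (TrA B N)).comp (φ : A →+* B) :=
    RingHom.ext hσ.1
  have h3 : ∀ b, Bcr (σ.comp (algebraMap A (TrA A N))) (pt b) (qt' b) := by
    intro b
    rw [e1]
    exact bcr_comp hKBC _ _ (hpt' b) (h2 b)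
  have h4 : ∀ b, Bcr σ (qt b) (qt' b) := hA.2.1 _ σ _ _ qt qt' h1 h3
  have hC := hMPB hKA.kr hKA.smc qt hqtD
  have hT : IsNilpotent (tt A N) := ⟨N, hMTR.1.1⟩
  have e2 : PT qt' (tt B N) = bc σ (PT qt (tt A N)) := by
    rw [← (hC.1 σ _ qt' h4).2 _ hT, hσ.2]
  have hG := (hMPG hKA qt hqtD _ hT).1
  -- the ring homomorphism as an algebra homomorphism
  let σ' : TrA A N →ₐ[ℂ] TrA B N :=
    { σ with
      commutes' := fun c => by
        change σ (algebraMap ℂ (TrA A N) c) = _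
        rw [IsScalarTower.algebraMap_apply ℂ A (TrA A N), hσ.1,
          IsScalarTower.algebraMap_apply ℂ B (TrA B N)]
        congr 1
        exact φ.commutes c }
  have e3 : (σ' : TrA A N →+* TrA B N) = σ := rfl
  have hH := hHV4 E (tt A N) hG σ' u u' x hHV
  have hE := (hMEE hG.1 σ).1
  refine ⟨qt', hqt', fun i => ?_, fun i => ?_, ?_⟩
  · rw [e2]
    exact hE _ (hu i)
  · rw [e2]
    exact hE _ (hu' i)
  · have e4 : σ' (tt A N) = tt B N := hσ.2
    rw [e4, e3, ← e2] at hH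
    exact hH

end Pool.Agent.MG.G0


end

section

/-!
# MVR: values of plumbed curves and change of the index set (PAPER_M.md)
-/

open TensorProduct

namespace Pool.Agent.MG.G0

namespace MVR

/-- A smoothness certificate is transported by an isomorphism. -/
theorem smC_equiv {A R R' : Type} [CommRing A] [CommRing R] [CommRing R'] [Algebra A R]
    [Algebra A R'] (e : R ≃ₐ[A] R') (h : SmC A R) : SmC A R' := by
  obtain ⟨n, D, g, h1, h2⟩ := h
  letI : Algebra R R' := (e : R →+* R').toAlgebra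
  have hm : ∀ r, algebraMap R R' r = e r := fun r => rfl
  have : IsScalarTower A R R' := IsScalarTower.of_algebraMap_eq fun a => by
    rw [hm]
    exact (e.commutes a).symm
  let D' : Fin n → Derivation A R' R' := fun i =>
    { toFun := fun f => e (D i (e.symm f))
      map_add' := fun f g => by rw [map_add, map_add, map_add]
      map_smul' := fun a f => by
        rw [map_smul, Derivation.map_smul, map_smul, RingHom.id_apply]
      map_one_eq_zero' := by
        change e (D i (e.symm 1)) = 0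
        rw [map_one, Derivation.map_one_eq_zero, map_zero]
      leibniz' := fun f g => by
        change e (D i (e.symm (f * g))) = f • e (D i (e.symm g)) + g • e (D i (e.symm f))
        rw [map_mul, Derivation.leibniz, smul_eq_mul, smul_eq_mul, smul_eq_mul, smul_eq_mul,
          map_add, map_mul, map_mul, e.apply_symm_apply, e.apply_symm_apply] }
  refine ⟨n, D', fun i => e (g i), ?_, ?_⟩
  · have h3 : ∀ i, D' i (e (g i)) = e (D i (g i)) := fun i => by
      change e (D i (e.symm (e (g i)))) = _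
      rw [e.symm_apply_apply]
    simp only [h3]
    rw [← map_sum, h1, map_one]
  · intro E' f' k'
    let E : Derivation A R R :=
      { toFun := fun f => e.symm (E' (e f))
        map_add' := fun f g => by rw [map_add, map_add, map_add]
        map_smul' := fun a f => by
          rw [map_smul, Derivation.map_smul, map_smul, RingHom.id_apply]
        map_one_eq_zero' := by
          change e.symm (E' (e 1)) = 0
          rw [map_one, Derivation.map_one_eq_zero, map_zero]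
        leibniz' := fun f g => by
          change e.symm (E' (e (f * g))) = f • e.symm (E' (e g)) + g • e.symm (E' (e f))
          rw [map_mul, Derivation.leibniz, smul_eq_mul, smul_eq_mul, smul_eq_mul, smul_eq_mul,
            map_add, map_mul, map_mul, e.symm_apply_apply, e.symm_apply_apply] }
    have key := congrArg (KaehlerDifferential.map A A R R') (h2 E (e.symm f') (e.symm k'))
    rw [map_smul, map_smul, KaehlerDifferential.map_D, KaehlerDifferential.map_D,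
      ← algebraMap_smul R' (E (e.symm f')), ← algebraMap_smul R' (E (e.symm k')), hm, hm, hm,
      hm, e.apply_symm_apply, e.apply_symm_apply] at key
    have a1 : e (E (e.symm f')) = E' f' := by
      change e (e.symm (E' (e (e.symm f')))) = E' f'
      rw [e.apply_symm_apply, e.apply_symm_apply]
    have a2 : e (E (e.symm k')) = E' k' := by
      change e (e.symm (E' (e (e.symm k')))) = E' k'
      rw [e.apply_symm_apply, e.apply_symm_apply]
    rw [a1, a2] at key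
    exact key

variable {I I' : Type} {A B : Type} [CommRing A] [CommRing B]

theorem mem_reix (e : I' ≃ I) {P : Subalgebra A (KK I A)} {f : KK I' A} :
    f ∈ reix e P ↔ (fun i => f (e.symm i) : KK I A) ∈ P := Iff.rfl

theorem comp_mem (e : I' ≃ I) {P : Subalgebra A (KK I A)} {f : KK I A} (hf : f ∈ P) :
    (fun i => f (e i) : KK I' A) ∈ reix e P := by
  rw [mem_reix]
  have h : (fun i => (fun i => f (e i) : KK I' A) (e.symm i) : KK I A) = f := by
    funext i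
    change f (e (e.symm i)) = f i
    rw [e.apply_symm_apply]
  rw [h]
  exact hf

/-- The isomorphism of `P` and `reix e P`. -/
noncomputable def eqv (e : I' ≃ I) (P : Subalgebra A (KK I A)) : P ≃ₐ[A] reix e P where
  toFun f := ⟨fun i => (f : KK I A) (e i), comp_mem e f.2⟩
  invFun f := ⟨fun i => (f : KK I' A) (e.symm i), f.2⟩
  left_inv f := Subtype.ext (funext fun i => by
    change (f : KK I A) (e (e.symm i)) = _
    rw [e.apply_symm_apply])
  right_inv f := Subtype.ext (funext fun i => by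
    change (f : KK I' A) (e.symm (e i)) = _
    rw [e.symm_apply_apply])
  map_mul' _ _ := rfl
  map_add' _ _ := rfl
  commutes' _ := rfl

theorem eqv_apply (e : I' ≃ I) (P : Subalgebra A (KK I A)) (f : P) (i : I') :
    (eqv e P f : KK I' A) i = (f : KK I A) (e i) := rfl

theorem reix_symm (e : I' ≃ I) (P : Subalgebra A (KK I A)) : reix e.symm (reix e P) = P := by
  ext f
  rw [mem_reix, mem_reix]
  have h : (fun i => (fun i => f (e.symm.symm i) : KK I' A) (e.symm i) : KK I A) = f := by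
    funext i
    change f (e (e.symm i)) = f i
    rw [e.apply_symm_apply]
  rw [h]

theorem res_comp [Fintype I] [Fintype I'] (e : I' ≃ I) (f : KK I A) :
    res (fun i => f (e i) : KK I' A) = res f :=
  Fintype.sum_equiv e _ _ fun _ => rfl

theorem comp_Pol (e : I' ≃ I) {n : ℤ} {f : KK I A} (hf : f ∈ Pol I A n) :
    (fun i => f (e i) : KK I' A) ∈ Pol I' A n := fun i m hm => hf (e i) m hm

theorem comp_EE [Fintype I] [Fintype I'] (e : I' ≃ I) {P : Subalgebra A (KK I A)} {f : KK I A}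
    (hf : f ∈ EE P) : (fun i => f (e i) : KK I' A) ∈ EE (reix e P) := by
  refine ⟨fun p hp => ?_, comp_Pol e hf.2⟩
  have h1 := hf.1 _ ((mem_reix e).1 hp)
  rw [← res_comp e] at h1
  have h2 : (fun i => (f * (fun i => p (e.symm i) : KK I A)) (e i) : KK I' A) =
      (fun i => f (e i) : KK I' A) * p := by
    funext i
    change f (e i) * p (e.symm (e i)) = f (e i) * p i
    rw [e.symm_apply_apply]
  rw [h2] at h1
  exact h1

theorem dual_reix [Fintype I] [Fintype I'] (e : I' ≃ I) {P : Subalgebra A (KK I A)}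
    (hP : Dual P) : Dual (reix e P) := by
  intro θ hθ η hη
  rw [mem_reix]
  have h1 : (fun i => θ (e.symm i) : KK I A) ∈ TT P := by
    intro f hf
    have h2 := hθ _ (comp_mem e hf)
    rw [mem_reix] at h2
    have h3 : (fun i => (θ * dd (fun i => f (e i) : KK I' A)) (e.symm i) : KK I A) =
        (fun i => θ (e.symm i) : KK I A) * dd f := by
      funext i
      change θ (e.symm i) * ld (f (e (e.symm i))) = θ (e.symm i) * ld (f i)
      rw [e.apply_symm_apply]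
    rw [h3] at h2
    exact h2
  have h4 : (fun i => η (e.symm i) : KK I A) ∈ Perp P := by
    intro p hp
    have h5 := hη _ (comp_mem e hp)
    rw [← res_comp e.symm] at h5
    have h6 : (fun i => (η * (fun i => p (e i) : KK I' A)) (e.symm i) : KK I A) =
        (fun i => η (e.symm i) : KK I A) * p := by
      funext i
      change η (e.symm i) * p (e (e.symm i)) = η (e.symm i) * p i
      rw [e.apply_symm_apply]
    rw [h6] at h5
    exact h5
  exact hP _ h1 _ h4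

theorem skr_reix (hKAU : Stmt_KAU) [Fintype I] [Fintype I'] (e : I' ≃ I) {h : ℕ}
    {R : Subalgebra A (KK I A)} (hR : SKr h R) : SKr h (reix e R) where
  kr := hKAU.2 R e hR.kr
  fs := by
    have := hR.fs
    exact Algebra.FormallySmooth.of_equiv (eqv e R)
  smc := smC_equiv (eqv e R) hR.smc
  dual := dual_reix e hR.dual

/-! ## The plumbed rings -/

/-- The expansions correspond. -/
def Cmp (e : I' ≃ I) {Q : Subalgebra A (KK I A)} {Q' : Subalgebra A (KK I' A)}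
    (qt : Bool → FPt Q) (qt' : Bool → FPt Q') : Prop :=
  ∀ (b : Bool) (f : Q) (f' : Q'), (∀ i, (f' : KK I' A) i = (f : KK I A) (e i)) →
    (qt' b).h f' = (qt b).h f

theorem Cmp.symm {e : I' ≃ I} {Q : Subalgebra A (KK I A)} {Q' : Subalgebra A (KK I' A)}
    {qt : Bool → FPt Q} {qt' : Bool → FPt Q'} (h : Cmp e qt qt') : Cmp e.symm qt' qt :=
  fun b f f' hf => (h b f' f fun i => by rw [hf, e.symm_apply_apply]).symm

/-- The index change on series with additional components. -/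
def rx {J : Type} (e : I' ≃ I) (w : KK (I ⊕ J) A) : KK (I' ⊕ J) A :=
  Sum.elim (fun i => w (Sum.inl (e i))) fun j => w (Sum.inr j)

theorem rx_WJ {e : I' ≃ I} {Q : Subalgebra A (KK I A)} {Q' : Subalgebra A (KK I' A)}
    {qt : Bool → FPt Q} {qt' : Bool → FPt Q'} (hQ : Q' = reix e Q) (h : Cmp e qt qt')
    {w : KK (I ⊕ Bool) A} (hw : w ∈ WJ qt) : rx e w ∈ WJ qt' := by
  subst hQ
  obtain ⟨n, hn⟩ := hw
  refine ⟨n, fun s hs => ?_⟩
  let ψ : reix e Q →+* Q := ((eqv e Q).symm : reix e Q →+* Q)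
  have hψ : ∀ x : reix e Q, ∀ i, (x : KK I' A) i = (ψ x : KK I A) (e i) := fun x i => by
    change _ = (x : KK I' A) (e.symm (e i))
    rw [e.symm_apply_apply]
  have h1 : ψ s ∈ Ipt qt ^ n := by
    have h2 : ψ s ∈ Ideal.map ψ (Ipt qt' ^ n) := Ideal.mem_map_of_mem ψ hs
    rw [Ideal.map_pow] at h2
    refine Ideal.pow_right_mono ?_ n h2
    rw [Ideal.map_le_iff_le_comap]
    intro x hx
    rw [Ideal.mem_comap]
    rw [Ipt, Ideal.mem_iInf] at hx ⊢
    intro b
    have h3 := hx b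
    rw [FPt.mem_id] at h3 ⊢
    rw [FPt.ev, h b (ψ x) x (hψ x)] at h3
    exact h3
  obtain ⟨r, hr⟩ := hn _ h1
  refine ⟨eqv e Q r, ?_⟩
  funext k
  rcases k with i | b
  · have h4 := congrFun hr (Sum.inl (e i))
    change (ψ s : KK I A) (e i) * w (Sum.inl (e i)) = (r : KK I A) (e i) at h4
    change (s : KK I' A) i * w (Sum.inl (e i)) = (r : KK I A) (e i)
    rw [hψ s i]
    exact h4
  · have h4 := congrFun hr (Sum.inr b)
    change psl A ((qt b).h (ψ s)) * w (Sum.inr b) = psl A ((qt b).h r) at h4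
    change psl A ((qt' b).h s) * w (Sum.inr b) = psl A ((qt' b).h (eqv e Q r))
    rw [h b (ψ s) s (hψ s), h b r (eqv e Q r) fun i => rfl]
    exact h4

theorem PT_reix {e : I' ≃ I} {Q : Subalgebra A (KK I A)} {Q' : Subalgebra A (KK I' A)}
    {qt : Bool → FPt Q} {qt' : Bool → FPt Q'} (hQ : Q' = reix e Q) (h : Cmp e qt qt') (t : A) :
    PT qt' t = reix e (PT qt t) := by
  ext f
  rw [mem_reix, mem_PT, mem_PT]
  constructor
  · rintro ⟨w, hw, rfl, h2⟩
    refine ⟨rx e.symm w, rx_WJ ?_ h.symm hw, rfl, h2⟩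
    rw [hQ, reix_symm]
  · rintro ⟨w, hw, h1, h2⟩
    refine ⟨rx e w, rx_WJ hQ h hw, ?_, h2⟩
    funext i
    have h3 := congrFun h1 (e i)
    change w (Sum.inl (e i)) = f (e.symm (e i)) at h3
    rw [e.symm_apply_apply] at h3
    exact h3

theorem cmp_bc {e : I' ≃ I} (φ : A →+* B) {R : Subalgebra A (KK I A)} {pt : Bool → FPt R}
    {pt₁ : Bool → FPt (reix e R)} (h : Cmp e pt pt₁) {pt' : Bool → FPt (bc φ R)}
    {pt₁' : Bool → FPt (bc φ (reix e R))} (hpt : ∀ b, (pt b).Bc φ (pt' b))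
    (hpt₁ : ∀ b, (pt₁ b).Bc φ (pt₁' b)) (hbc : bc φ (reix e R) = reix e (bc φ R)) :
    Cmp e pt' pt₁' := by
  intro b
  let ψ : bc φ R →ₐ[B] bc φ (reix e R) :=
    (Subalgebra.equivOfEq _ _ hbc.symm : reix e (bc φ R) →ₐ[B] bc φ (reix e R)).comp
      (eqv e (bc φ R) : bc φ R →ₐ[B] reix e (bc φ R))
  have hψ : ∀ (f : bc φ R) (i : I'), (ψ f : KK I' B) i = (f : KK I B) (e i) := fun f i => rfl
  have key : (pt₁' b).h.comp ψ = (pt' b).h := by
    refine AlgHom.adjoin_ext ?_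
    rintro x ⟨r, hr, hx⟩
    have h1 := (hpt b).1 ⟨r, hr⟩
    have h2 := (hpt₁ b).1 (eqv e R ⟨r, hr⟩)
    rw [h b ⟨r, hr⟩ (eqv e R ⟨r, hr⟩) fun i => rfl, ← h1] at h2
    subst hx
    have e1 : (⟨kmap φ r, Algebra.subset_adjoin ⟨r, hr, rfl⟩⟩ : bc φ R) = bcMap φ R ⟨r, hr⟩ :=
      rfl
    have e2 : ψ (bcMap φ R ⟨r, hr⟩) = bcMap φ (reix e R) (eqv e R ⟨r, hr⟩) := rfl
    change (pt₁' b).h (ψ (bcMap φ R ⟨r, hr⟩)) = (pt' b).h (bcMap φ R ⟨r, hr⟩)
    rw [e2]
    exact h2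
  intro f f' hf
  have h3 : f' = ψ f := Subtype.ext (funext fun i => by rw [hf, hψ])
  rw [h3, ← key]
  rfl

theorem nilp (N : ℕ) : IsNilpotent (tt A N) := by
  refine ⟨N, ?_⟩
  have h : (AdjoinRoot.mk ((Polynomial.X : Polynomial A) ^ N)) (Polynomial.X ^ N) = 0 :=
    AdjoinRoot.mk_self
  rw [map_pow, AdjoinRoot.mk_X] at h
  exact h

end MVR

theorem t_MVR (hKAU : Stmt_KAU) (hKBC : Stmt_KBC) (hAWB : Stmt_AWB) (hMPB : Stmt_MPB)
    (hMPG : Stmt_MPG) (hMCB : Stmt_MCB) (hHV7 : Stmt_HV7) : Stmt_MVR := by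
  intro I I' A _ _ _ _ _ _ h R e hR
  have hR' : SKr h (reix e R) := MVR.skr_reix hKAU e hR
  refine ⟨hR', ?_⟩
  intro pt pt₁ hd hc E N k u u' x hx
  obtain ⟨pt', h1, h2, h3, h4⟩ := hx
  have hbc : bc (algebraMap A (TrA A N)) (reix e R) = reix e (bc (algebraMap A (TrA A N)) R) := hMCB.2.1 (algebraMap A (TrA A N)) e R
  have hA := hAWB hR'.kr (algebraMap A (TrA A N))
  choose pt₁' hp1 _ using fun b => hA.1 (pt₁ b)
  have hcmp : MVR.Cmp e pt' pt₁' := MVR.cmp_bc _ hc h1 hp1 hbc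
  have hPT : PT pt₁' (tt A N) = reix e (PT pt' (tt A N)) := MVR.PT_reix hbc hcmp _
  have hB : SKr h (bc (algebraMap A (TrA A N)) R) := (hMPG hR pt hd 0 IsNilpotent.zero).2.2.2 _
  have hM := hMPB hR.kr hR.smc pt hd
  have hd' : Disj pt' := (hM.1 _ _ pt' (hM.2.2.2 _ pt' h1)).1
  have hG : Good (h + 1) (PT pt' (tt A N)) := (hMPG hB pt' hd' (tt A N) (MVR.nilp N)).1
  have hH := (hHV7 E e (tt A N) hG).2 u u' x h4
  refine ⟨pt₁', hp1, fun i => ?_, fun i => ?_, ?_⟩
  · rw [hPT]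
    exact MVR.comp_EE e (h2 i)
  · rw [hPT]
    exact MVR.comp_EE e (h3 i)
  · rw [hPT]
    exact hH

end Pool.Agent.MG.G0


end

section

/-!
# MVS: rescaling of the parameters and the values at plumbed curves
-/

open TensorProduct

namespace Pool.Agent.MG.G0

namespace MVS

/-- Rescaling commutes with base change. -/
theorem resc_bc {I A B : Type} [CommRing A] [CommRing B] (φ : A →+* B)
    {R : Subalgebra A (KK I A)} (p : FPt R) (p' : FPt (bc φ R)) (h : p.Bc φ p') (c : Aˣ)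
    (c' : Bˣ) (hc : (c' : B) = φ c) : (p.resc c).Bc φ (p'.resc c') := by
  refine ⟨fun f => ?_, h.2⟩
  change PowerSeries.rescale (c' : B) (p'.h (bcMap φ R f)) =
    PowerSeries.map φ (PowerSeries.rescale (c : A) (p.h f))
  rw [h.1 f, hc]
  ext n
  rw [PowerSeries.coeff_rescale, PowerSeries.coeff_map, PowerSeries.coeff_map,
    PowerSeries.coeff_rescale, map_mul, map_pow]

end MVS

theorem t_MVS (hKBC : Stmt_KBC) (hAWB : Stmt_AWB) (hPL2 : Stmt_PL2) (hMEE : Stmt_MEE)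
    (hMPB : Stmt_MPB) (hMPG : Stmt_MPG) (hMTR : Stmt_MTR) (hHV4 : Stmt_HV4)
    (hHV5 : Stmt_HV5) : Stmt_MVS := by
  intro I A _ _ _ _ h R hR pt hdis E N k c ψ hψ u u' x ⟨pt', hbc, hu, hu', hx⟩
  have hT : IsNilpotent (tt A N) := ⟨N, (hMTR.1 (A := A) (N := N)).1⟩
  have hT' : IsNilpotent (ψ (tt A N)) := hT.map ψ
  have hR' : SKr h (bc (algebraMap A (TrA A N)) R) :=
    (hMPG hR pt hdis 0 IsNilpotent.zero).2.2.2 _
  have hd' : Disj pt' := ((hAWB hR.kr (algebraMap A (TrA A N))).2 hR.smc pt pt' hbc hdis).1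
  have hB := hMPB hR.kr hR.smc pt hdis
  have b1 : ∀ b, Bcr (algebraMap A (TrA A N)) (pt b) (pt' b) := hB.2.2.2 _ pt' hbc
  have e1 : (ψ : TrA A N →+* TrA A N).comp (algebraMap A (TrA A N)) =
      algebraMap A (TrA A N) := ψ.comp_algebraMap
  have b2 : ∀ b, Bcr (ψ : TrA A N →+* TrA A N) (pt' b) (pt' b) := by
    refine hB.2.1 (algebraMap A (TrA A N)) (ψ : TrA A N →+* TrA A N) _ _ pt' pt' b1 ?_
    rw [e1]
    exact b1
  have e2 : PT pt' (ψ (tt A N)) = bc (ψ : TrA A N →+* TrA A N) (PT pt' (tt A N)) :=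
    ((hMPB hR'.kr hR'.smc pt' hd').1 (ψ : TrA A N →+* TrA A N) _ pt' b2).2 (tt A N) hT
  let c' : Bool → (TrA A N)ˣ := fun b => Units.map (algebraMap A (TrA A N) : A →* TrA A N) (c b)
  have hc' : ∀ b, (c' b : TrA A N) = algebraMap A (TrA A N) (c b) := fun b => rfl
  have e3 : ψ (tt A N) = (c' true : TrA A N) * (c' false : TrA A N) * tt A N := by
    rw [hψ, hc', hc', ← map_mul, Algebra.smul_def]
  have e4 : PT (fun b => (pt' b).resc (c' b)) (tt A N) =
      bc (ψ : TrA A N →+* TrA A N) (PT pt' (tt A N)) := by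
    rw [(hPL2.2.1 pt' c' (tt A N)).2, ← e3, e2]
  have g1 : Good (h + 1) (PT pt' (tt A N)) := (hMPG hR' pt' hd' (tt A N) hT).1
  have g2 : Good (h + 1) (bc (ψ : TrA A N →+* TrA A N) (PT pt' (tt A N))) := by
    rw [← e2]
    exact (hMPG hR' pt' hd' _ hT').1
  refine ⟨fun b => (pt' b).resc (c' b), fun b => MVS.resc_bc _ _ _ (hbc b) _ _ (hc' b),
    fun i => ?_, fun i => ?_, ?_⟩
  · rw [e4]
    exact (hMEE g1.1 (ψ : TrA A N →+* TrA A N)).1 _ (hu i)
  · rw [e4]
    exact (hMEE g1.1 (ψ : TrA A N →+* TrA A N)).1 _ (hu' i)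
  · rw [e4]
    have h1 : HV E (bc (ψ : TrA A N →+* TrA A N) (PT pt' (tt A N))) (ψ (tt A N))
        (fun i => kmap (ψ : TrA A N →+* TrA A N) (u i))
        (fun i => kmap (ψ : TrA A N →+* TrA A N) (u' i)) (ψ x) :=
      hHV4 E (tt A N) g1 (ψ.restrictScalars ℂ) u u' x hx
    have h2 := hHV5 E (ψ (tt A N)) ((((c' true)⁻¹ : (TrA A N)ˣ) : TrA A N) *
      (((c' false)⁻¹ : (TrA A N)ˣ) : TrA A N)) g2 _ _ _ h1
    have e5 : (((c' true)⁻¹ : (TrA A N)ˣ) : TrA A N) * (((c' false)⁻¹ : (TrA A N)ˣ) : TrA A N) *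
        ψ (tt A N) = tt A N := by
      rw [e3]
      calc _ = (((c' true)⁻¹ : (TrA A N)ˣ) : TrA A N) * (c' true : TrA A N) *
            ((((c' false)⁻¹ : (TrA A N)ˣ) : TrA A N) * (c' false : TrA A N)) * tt A N := by ring
        _ = tt A N := by rw [Units.inv_mul, Units.inv_mul, one_mul, one_mul]
    have e6 : ((((c' true)⁻¹ : (TrA A N)ˣ) : TrA A N) *
        (((c' false)⁻¹ : (TrA A N)ˣ) : TrA A N)) ^ k * ψ x =
        ((((c true)⁻¹ : Aˣ) : A) * (((c false)⁻¹ : Aˣ) : A)) ^ k • ψ x := by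
      have e7 : ∀ b, (((c' b)⁻¹ : (TrA A N)ˣ) : TrA A N) =
          algebraMap A (TrA A N) (((c b)⁻¹ : Aˣ) : A) := fun b => by
        change (((Units.map (algebraMap A (TrA A N) : A →* TrA A N) (c b))⁻¹ : (TrA A N)ˣ) :
          TrA A N) = _
        rw [← map_inv]
        rfl
      rw [e7, e7, ← map_mul, ← map_pow, Algebra.smul_def]
    rw [e5, e6] at h2
    exact h2

end Pool.Agent.MG.G0


end

section

/-!
# MVX: existence of values at plumbed curves; two values agree modulo `T^(N-1)`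
-/

open TensorProduct

namespace Pool.Agent.MG.G0

namespace MVX

/-- The base change of formal points is unique. -/
theorem bc_unique (hAWB : Stmt_AWB) {I A B : Type} [Fintype I] [Nonempty I] [CommRing A]
    [CommRing B] {h : ℕ} {R : Subalgebra A (KK I A)} (hR : IsKr h R) (φ : A →+* B)
    {pt : Bool → FPt R} {pt' pt'' : Bool → FPt (bc φ R)} (h1 : ∀ b, (pt b).Bc φ (pt' b))
    (h2 : ∀ b, (pt b).Bc φ (pt'' b)) : pt' = pt'' :=
  funext fun b => ((hAWB hR φ).1 (pt b)).unique (h1 b) (h2 b)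

end MVX

theorem t_MVX (hKBC : Stmt_KBC) (hAWB : Stmt_AWB) (hPL1 : Stmt_PL1) (hPL2 : Stmt_PL2)
    (hMPB : Stmt_MPB) (hMPG : Stmt_MPG) (hMTR : Stmt_MTR) (hMFE : Stmt_MFE) (hHV1 : Stmt_HV1)
    (hHV2 : Stmt_HV2) : Stmt_MVX := by
  intro I A _ _ _ _ h R hR pt hD E N k
  have hT : IsNilpotent (tt A N) := ⟨N, (hMTR.1 (A := A) (N := N)).1⟩
  have hbc : SKr h (bc (algebraMap A (TrA A N)) R) :=
    (hMPG hR pt hD 0 IsNilpotent.zero).2.2.2 (algebraMap A (TrA A N))
  have hDj : ∀ pt' : Bool → FPt (bc (algebraMap A (TrA A N)) R),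
      (∀ b, (pt b).Bc (algebraMap A (TrA A N)) (pt' b)) → Disj pt' := fun pt' h' =>
    ((hAWB hR.kr (algebraMap A (TrA A N))).2 hR.smc pt pt' h' hD).1
  refine ⟨?_, fun pt' h' => ⟨?_, fun u u' hu hu' => ?_, fun u u' x hx => ?_⟩,
    fun u u' x y hx hy i hi => ?_⟩
  · choose pt' h' using fun b => ((hAWB hR.kr (algebraMap A (TrA A N))).1 (pt b)).exists
    exact ⟨pt', h'⟩
  · exact hPL1 hbc.kr hbc.smc pt' (hDj pt' h') (tt A N) hT
  · obtain ⟨x, hx⟩ := hHV1 E (tt A N) (hMPG hbc pt' (hDj pt' h') (tt A N) hT).2.1 u u' hu hu'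
    exact ⟨x, pt', h', hu, hu', hx⟩
  · obtain ⟨pt'', h'', hu, hu', -⟩ := hx
    rw [MVX.bc_unique hAWB hR.kr _ h' h'']
    exact ⟨hu, hu'⟩
  · obtain ⟨pt', h', hu, hu', hx⟩ := hx
    obtain ⟨pt'', h'', -, -, hy⟩ := hy
    obtain rfl := MVX.bc_unique hAWB hR.kr _ h' h''
    obtain ⟨hG, -, hθ, -⟩ := hMPG hbc pt' (hDj pt' h') (tt A N) hT
    have h0 : tt A N * (x - y) = 0 := (hHV2 E (tt A N) hG hθ k).1 u u' x y hx hy
    obtain ⟨-, -, hadd, -, -, -, -, -, hker⟩ := hMTR.1 (A := A) (N := N)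
    have h1 : co i (x - y) = 0 := hker _ h0 i hi
    have h2 := hadd (x - y) y i (by omega)
    rw [sub_add_cancel, h1, zero_add] at h2
    exact h2

end Pool.Agent.MG.G0


end

section

/-!
# PL7: `t ω` is a Kähler differential
-/

namespace Pool.Agent.MG.G0

namespace PL7

section

variable {A : Type} [CommRing A]

theorem ld_single (n : ℤ) (c : A) :
    ld (HahnSeries.single n c) = HahnSeries.single (n - 1) ((n : A) * c) := by
  ext m
  rw [ld_coeff, HahnSeries.coeff_single, HahnSeries.coeff_single]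
  by_cases h : m = n - 1
  · subst h
    rw [if_pos rfl, if_pos (by ring)]
    push_cast
    ring
  · rw [if_neg h, if_neg (by omega), mul_zero]

theorem smul_sgl (n : ℤ) (t c : A) :
    t • (HahnSeries.single n c : LaurentSeries A) = HahnSeries.single n (t * c) := by
  ext m
  rw [HahnSeries.coeff_smul, HahnSeries.coeff_single, HahnSeries.coeff_single]
  split_ifs <;> simp

/-- `v du = t du/u`. -/
theorem v_du (t : A) : uv t false * dd (uv t true) = t • vp A := by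
  funext b
  cases b
  · change HahnSeries.single 1 1 * ld (HahnSeries.single (-1) t) =
      t • (HahnSeries.single (-1) (-1) : LaurentSeries A)
    rw [ld_single, HahnSeries.single_mul_single, smul_sgl]
    congr 1
    push_cast
    ring
  · change HahnSeries.single (-1) t * ld (HahnSeries.single 1 1) =
      t • (HahnSeries.single (-1) 1 : LaurentSeries A)
    rw [ld_single, HahnSeries.single_mul_single, smul_sgl]
    congr 1
    push_cast
    ring

theorem single_low (n : ℤ) (c : A) (m : ℤ) (h : m < n) :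
    (HahnSeries.single n c : LaurentSeries A).coeff m = 0 := by
  rw [HahnSeries.coeff_single, if_neg (by omega)]

theorem uv_mem_Pol (t : A) (b : Bool) : uv t b ∈ Pol Bool A 1 := by
  intro b' m hm
  rw [uv]
  split_ifs
  · exact single_low _ _ _ (by omega)
  · exact single_low _ _ _ (by omega)

theorem atJ_Pol {I : Type} {w : KK (I ⊕ Bool) A} {n : ℤ} (h : w ∈ Pol (I ⊕ Bool) A n) :
    atJ w ∈ Pol Bool A n := fun j m hm => h (Sum.inr j) m hm

end

end PL7

open _root_.Pool.Agent.MG.G0.PL7 in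
theorem t_PL7 (hSTO : Stmt_STO) (hSCO : Stmt_SCO) (hAWK : Stmt_AWK) (hAWD : Stmt_AWD)
    (hPL0 : Stmt_PL0) (hPL3 : Stmt_PL3) (hPL4 : Stmt_PL4) : Stmt_PL7 := by
  intro I A _ _ _ h R hR hS hD pt hdis t ht ω hω
  obtain ⟨N, hN⟩ := ht
  obtain ⟨n1, -, n3, -⟩ := hPL0 t N hN
  obtain ⟨w1, w2, -⟩ := hAWK hR hS pt hdis
  have hDW : Dual (WJ pt) := hAWD hR hS pt hdis hD
  obtain ⟨s1, -, -, -, s5⟩ := hSTO w1
  obtain ⟨-, ⟨n, θ, g, hθ, hg, hone⟩, -⟩ := s5 w2
  obtain ⟨l1, -, l3, -⟩ := hPL3 hR hS pt hdis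
  obtain ⟨ζ0, ⟨hζ0, hζI, F, hF, hζJ⟩, -⟩ := (hPL4 hR hS pt hdis t ⟨N, hN⟩).1 ω hω
  -- bounds for the orders of the poles
  obtain ⟨k0, hk0⟩ := exists_Pol F
  choose k1 hk1 using fun i => exists_Pol (θ i)
  choose k2 hk2 using fun i => exists_Pol (g i)
  obtain ⟨K, hKF, hKθ, hKg⟩ : ∃ K : ℕ, F ∈ Pol Bool A K ∧ (∀ i, atJ (θ i) ∈ Pol Bool A K) ∧
      ∀ i, atJ (g i) ∈ Pol Bool A K := by
    have b1 : ∀ i, k1 i ≤ ∑ i, k1 i := fun i =>
      Finset.single_le_sum (fun _ _ => Nat.zero_le _) (Finset.mem_univ i)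
    have b2 : ∀ i, k2 i ≤ ∑ i, k2 i := fun i =>
      Finset.single_le_sum (fun _ _ => Nat.zero_le _) (Finset.mem_univ i)
    refine ⟨k0 + ∑ i, k1 i + ∑ i, k2 i, Pol_mono (by omega) hk0,
      fun i => ?_, fun i => ?_⟩
    · refine Pol_mono ?_ (atJ_Pol (hk1 i))
      have := b1 i
      omega
    · refine Pol_mono ?_ (atJ_Pol (hk2 i))
      have := b2 i
      omega
  -- the approximation
  obtain ⟨M, hM⟩ : ∃ M : ℕ, M = 2 * N + 4 * K + 2 := ⟨_, rfl⟩
  obtain ⟨p, hp, hpJ⟩ := l1 (F * uv t false) (M : ℤ)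
  obtain ⟨q, hq, hqJ⟩ := l1 (uv t true) (M : ℤ)
  have hFv : F * uv t false ∈ Pol Bool A (K + 1) := mul_mem_Pol hKF (uv_mem_Pol t false)
  have hpP : atJ p ∈ Pol Bool A (K + 1) := by
    have h1 := add_mem (Pol_mono (by omega) hpJ) hFv
    rwa [sub_add_cancel] at h1
  have hpN : atJ p ∈ Nt t := by
    have h1 := add_mem (n1 M (by omega) _ hpJ) (mul_mem hF (n3 false))
    rwa [sub_add_cancel] at h1
  have hqN : atJ q ∈ Nt t := by
    have h1 := add_mem (n1 M (by omega) _ hqJ) (n3 true)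
    rwa [sub_add_cancel] at h1
  -- the difference
  obtain ⟨ζ, hζ⟩ : ∃ ζ, ζ = t • ζ0 - p * dd q := ⟨_, rfl⟩
  have hζW : ζ ∈ Perp (WJ pt) := by
    rw [hζ]
    refine sub_mem (Submodule.smul_mem _ _ hζ0) (s1 ?_)
    exact Submodule.subset_span ⟨p, hp, q, hq, rfl⟩
  have hζP : atJ ζ ∈ Pol Bool A (K + 2 - M) := by
    have e : atJ ζ = -((atJ p - F * uv t false) * dd (uv t true)) -
        atJ p * dd (atJ q - uv t true) := by
      have e1 : atJ ζ = t • atJ ζ0 - atJ p * dd (atJ q) := by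
        rw [hζ]
        rfl
      have e2 : dd (atJ q) = dd (atJ q - uv t true) + dd (uv t true) := by
        rw [← dd_add, sub_add_cancel]
      rw [e1, hζJ, e2]
      have e3 := v_du t
      have e4 : t • (F * vp A) = F * (t • vp A) := (mul_smul_comm _ _ _).symm
      rw [e4, ← e3]
      ring
    rw [e]
    refine sub_mem (neg_mem ?_) ?_
    · refine Pol_mono ?_ (mul_mem_Pol hpJ (dd_mem_Pol (uv_mem_Pol t true)))
      omega
    · refine Pol_mono ?_ (mul_mem_Pol hpP (dd_mem_Pol hqJ))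
      omega
  -- Kähler differentials of the plumbed curve
  have hOm : ∀ x ∈ WJ pt, atJ x ∈ Nt t → ∀ y ∈ WJ pt, atJ y ∈ Nt t →
      atI (x * dd y) ∈ Om (PT pt t) := by
    intro x hx hxN y hy hyN
    exact Submodule.subset_span ⟨atI x, ⟨x, hx, rfl, hxN⟩, atI y, ⟨y, hy, rfl, hyN⟩, rfl⟩
  have hsum : ζ = ∑ i, θ i * ζ * dd (g i) := by
    have e : ∀ i, θ i * ζ * dd (g i) = ζ * (θ i * dd (g i)) := fun i => by ring
    rw [Finset.sum_congr rfl fun i _ => e i, ← Finset.mul_sum, hone, mul_one]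
  have hterm : ∀ i, atI (θ i * ζ * dd (g i)) ∈ Om (PT pt t) := by
    intro i
    have h1 : θ i * ζ ∈ WJ pt := hDW (θ i) (hθ i) ζ hζW
    have h2 : atJ (θ i * ζ) ∈ Pol Bool A (-((N + K + (N + K) : ℕ) : ℤ)) := by
      refine Pol_mono ?_ (mul_mem_Pol (hKθ i) hζP)
      push_cast
      omega
    have h3 := l3 (θ i * ζ) h1 (N + K) (N + K) h2
    clear h1 h2
    generalize θ i * ζ = w at h3 ⊢
    induction h3 using Submodule.span_induction with
    | mem z hz =>
      obtain ⟨x, hx, y, hy, hxJ, hyJ, rfl⟩ := hz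
      have hyg : atJ (y * g i) ∈ Pol Bool A (-(N : ℤ)) := by
        refine Pol_mono ?_ (mul_mem_Pol hyJ (hKg i))
        push_cast
        omega
      have hxg : atJ (x * g i) ∈ Pol Bool A (-(N : ℤ)) := by
        refine Pol_mono ?_ (mul_mem_Pol hxJ (hKg i))
        push_cast
        omega
      have hx' : atJ x ∈ Pol Bool A (-(N : ℤ)) := Pol_mono (by push_cast; omega) hxJ
      have hy' : atJ y ∈ Pol Bool A (-(N : ℤ)) := Pol_mono (by push_cast; omega) hyJ
      have e : x * y * dd (g i) = x * dd (y * g i) - (x * g i) * dd y := by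
        rw [dd_mul]
        ring
      rw [e]
      exact sub_mem
        (hOm x hx (n1 N le_rfl _ hx') (y * g i) (mul_mem hy (hg i)) (n1 N le_rfl _ hyg))
        (hOm (x * g i) (mul_mem hx (hg i)) (n1 N le_rfl _ hxg) y hy (n1 N le_rfl _ hy'))
    | zero =>
      rw [zero_mul]
      exact zero_mem _
    | add a b _ _ ha hb =>
      rw [add_mul]
      exact add_mem ha hb
    | smul c a _ ha =>
      rw [smul_mul_assoc]
      exact Submodule.smul_mem _ c ha
  have hfin : t • ω = atI ζ + atI (p * dd q) := by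
    have e : t • ζ0 = ζ + p * dd q := by
      rw [hζ]
      ring
    have e2 := congrArg atI e
    rw [← hζI]
    exact e2
  rw [hfin]
  refine add_mem ?_ (hOm p hp hpN q hq hqN)
  rw [hsum]
  have e : atI (∑ i, θ i * ζ * dd (g i)) = ∑ i, atI (θ i * ζ * dd (g i)) := by
    funext j
    simp only [atI, Finset.sum_apply]
  rw [e]
  exact Submodule.sum_mem _ fun i _ => hterm i

end Pool.Agent.MG.G0


end

section

/-!
# PLR: the residue at the node of a regular differential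
-/

namespace Pool.Agent.MG.G0

namespace PLRx

section

variable {I A : Type} [CommRing A] {R : Subalgebra A (KK I A)}

/-- The value at a formal point as a linear map. -/
noncomputable def evl (p : FPt R) : R →ₗ[A] A where
  toFun := p.ev
  map_add' f g := by
    simp only [FPt.ev, map_add]
  map_smul' a f := by
    simp only [FPt.ev, map_smul, RingHom.id_apply]
    rw [PowerSeries.smul_eq_C_mul, map_mul, PowerSeries.constantCoeff_C, smul_eq_mul]

theorem evl_apply (p : FPt R) (f : R) : evl p f = p.ev f := rfl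

theorem ev_algebraMap (p : FPt R) (a : A) : p.ev (algebraMap A R a) = a := by
  rw [FPt.ev, AlgHom.commutes]
  exact PowerSeries.constantCoeff_C a

theorem ev_one (p : FPt R) : p.ev 1 = 1 := by
  rw [FPt.ev, map_one, map_one]

/-- The difference of the values. -/
noncomputable def del (pt : Bool → FPt R) : R →ₗ[A] A := evl (pt true) - evl (pt false)

theorem del_apply (pt : Bool → FPt R) (r : R) : del pt r = (pt true).ev r - (pt false).ev r := rfl

theorem exists_r0 (pt : Bool → FPt R) (hd : Disj pt) : ∃ r₀ : R, del pt r₀ = 1 := by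
  have h := hd true false (by decide)
  have h1 : (1 : R) ∈ (pt true).id ⊔ (pt false).id := by
    rw [h]
    trivial
  obtain ⟨a, ha, b, hb, hab⟩ := Submodule.mem_sup.1 h1
  have ha' : (pt true).ev a = 0 := ha
  have hb' : (pt false).ev b = 0 := hb
  refine ⟨b, ?_⟩
  have h2 : evl (pt true) a + evl (pt true) b = 1 := by
    rw [← map_add, hab, evl_apply, ev_one]
  rw [evl_apply, evl_apply, ha', zero_add] at h2
  rw [del_apply, h2, hb', sub_zero]

theorem del_const {h : ℕ} (hR : IsKr h R) (pt : Bool → FPt R) (r : R)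
    (hr : (r : KK I A) ∈ Pol I A 0) : del pt r = 0 := by
  obtain ⟨a, ha⟩ := hR.k1 _ r.2 hr
  have h1 : r = algebraMap A R a := Subtype.ext ha
  rw [h1, del_apply, ev_algebraMap, ev_algebraMap, sub_self]

/-- The functional on `KK`. -/
theorem exists_fun {h : ℕ} (hR : IsKr h R) (pt : Bool → FPt R) :
    ∃ l : KK I A →ₗ[A] A, (∀ f ∈ Pol I A 0, l f = 0) ∧ ∀ r : R, l (r : KK I A) = del pt r := by
  obtain ⟨L, hL, hker⟩ := hR.k2
  choose v hv using fun j => hL (Pi.single j (1 : A))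
  set T : KK I A →ₗ[A] KK I A := LinearMap.id - ∑ j, (LinearMap.proj j ∘ₗ L).smulRight (v j)
    with hT
  have hTa : ∀ f, T f = f - ∑ j, L f j • v j := by
    intro f
    simp [hT]
  have hLT : ∀ f, L (T f) = 0 := by
    intro f
    rw [hTa, map_sub, map_sum, sub_eq_zero]
    funext i
    simp [hv, Pi.single_apply]
  have hex : ∀ f, ∃ r : R, T f - (r : KK I A) ∈ Pol I A 0 := by
    intro f
    obtain ⟨p, hp, h1⟩ := (hker (T f)).1 (hLT f)
    exact ⟨⟨p, hp⟩, h1⟩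
  have huniq : ∀ (x : KK I A) (r r' : R), x - (r : KK I A) ∈ Pol I A 0 →
      x - (r' : KK I A) ∈ Pol I A 0 → del pt r = del pt r' := by
    intro x r r' h1 h2
    have h3 := sub_mem h1 h2
    rw [sub_sub_sub_cancel_left] at h3
    have h4 := del_const hR pt (r' - r) h3
    rw [map_sub, sub_eq_zero] at h4
    exact h4.symm
  choose ch hch using hex
  refine ⟨{ toFun := fun f => del pt (ch f), map_add' := ?_, map_smul' := ?_ }, ?_, ?_⟩
  · intro f g
    rw [← map_add]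
    refine huniq (T (f + g)) _ _ (hch _) ?_
    have := add_mem (hch f) (hch g)
    rw [map_add]
    have e : T f + T g - ((ch f + ch g : R) : KK I A) =
        T f - (ch f : KK I A) + (T g - (ch g : KK I A)) := by
      push_cast
      ring
    rwa [e]
  · intro a f
    rw [RingHom.id_apply, ← map_smul]
    refine huniq (T (a • f)) _ _ (hch _) ?_
    have := (Pol I A 0).smul_mem a (hch f)
    rw [map_smul]
    have e : a • T f - ((a • ch f : R) : KK I A) = a • (T f - (ch f : KK I A)) := by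
      rw [smul_sub]
      rfl
    rwa [e]
  · intro f hf
    change del pt (ch f) = 0
    rw [← map_zero (del pt)]
    refine huniq (T f) _ _ (hch f) ?_
    have h0 : L f = 0 := (hker f).2 ⟨0, zero_mem R, by rwa [sub_zero]⟩
    rw [hTa, h0]
    simpa using hf
  · intro r
    refine huniq (T r) _ _ (hch _) ?_
    have h0 : L (r : KK I A) = 0 := (hker _).2 ⟨r, r.2, by
      rw [sub_self]
      exact zero_mem _⟩
    rw [hTa, h0]
    simp

end

end PLRx

open _root_.Pool.Agent.MG.G0.PLRx in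
/-- PLR -/
theorem t_PLR (hKDU : Stmt_KDU) (hKFO : Stmt_KFO) (hAYE : Stmt_AYE) (hAWK : Stmt_AWK)
    (hPL1 : Stmt_PL1) (hPL2 : Stmt_PL2) : Stmt_PLR := by
  intro I A _ _ _ h R hR hs pt hd
  have hP := hPL2.2.2 hR hs pt hd
  obtain ⟨r₀, hr₀⟩ := exists_r0 pt hd
  have hmem : ∀ r : R, del pt r = 0 → (r : KK I A) ∈ PT pt 0 := by
    intro r hr
    rw [hP]
    exact ⟨r, rfl, sub_eq_zero.1 hr⟩
  have hle : ∀ f ∈ PT pt 0, f ∈ R := by
    intro f hf
    obtain ⟨r, rfl, -⟩ := (hP f).1 hf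
    exact r.2
  refine ⟨?_, ?_, ?_, ?_⟩
  · rintro η ⟨hη, -⟩
    refine ⟨-res (η * (r₀ : KK I A)), ?_, ?_⟩
    · intro r
      have h1 : (((r - del pt r • r₀ : R)) : KK I A) ∈ PT pt 0 := by
        apply hmem
        rw [map_sub, map_smul, hr₀, smul_eq_mul, mul_one, sub_self]
      have h2 := mem_Perp.1 hη _ h1
      have e : η * (((r - del pt r • r₀ : R)) : KK I A) =
          η * (r : KK I A) - del pt r • (η * (r₀ : KK I A)) := by
        rw [← mul_smul_comm, ← mul_sub]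
        rfl
      rw [e, map_sub, map_smul, sub_eq_zero, smul_eq_mul] at h2
      rw [h2, del_apply]
      ring
    · intro ρ hρ
      have h1 := hρ r₀
      rw [← del_apply, hr₀, mul_one] at h1
      rw [h1, neg_neg]
  · rintro η ⟨-, h0⟩ hρ
    refine ⟨?_, h0⟩
    intro r hr
    have := hρ ⟨r, hr⟩
    rwa [zero_mul, neg_zero] at this
  · rintro η ⟨hη, h0⟩
    refine ⟨⟨fun p hp => hη p (hle p hp), h0⟩, fun r => ?_⟩
    rw [zero_mul, neg_zero]
    exact hη _ r.2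
  · intro a
    obtain ⟨l, hl0, hlr⟩ := exists_fun hR pt
    obtain ⟨η, ⟨hη0, hη⟩, -⟩ := hKDU 0 l (by
      rw [neg_zero]
      exact hl0)
    have hres : ∀ r : R, res (η * (r : KK I A)) = del pt r := fun r => by
      rw [← hη, hlr]
    refine ⟨(-a) • η, ⟨?_, (Pol I A 0).smul_mem _ hη0⟩, ?_⟩
    · refine (Perp (PT pt 0)).smul_mem _ ?_
      intro p hp
      obtain ⟨r, rfl, hr⟩ := (hP p).1 hp
      rw [hres, del_apply, hr, sub_self]
    · intro r
      rw [smul_mul_assoc, map_smul, hres, del_apply, smul_eq_mul, neg_mul]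

end Pool.Agent.MG.G0


end

section

/-!
# PTO: independence of the presentation after multiplication by `t` (PAPER_Q.md)
-/

open TensorProduct

namespace Pool.Agent.MG.G0

namespace PTO

/-- The covector of the base change of `t • q` vanishes if `qk q = 0`. -/
theorem cov_zero {I A B : Type} [Fintype I] [CommRing A] [CommRing B] (φ : A →+* B)
    (P : Subalgebra A (KK I A)) (t : A)
    (H : ∀ D : DD (bc φ P), ∃ θ : KK I B, φ t • D = tder (bc φ P) θ) (q : QR P)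
    (hq : qk P (q : QD P) = 0) : cov (bc φ P) (bcR φ P (t • q)) = 0 := by
  refine Subtype.ext (LinearMap.ext fun D => ?_)
  obtain ⟨θ, hθ⟩ := H D
  rw [map_smulₛₗ, map_smul]
  change φ t • (cov (bc φ P) (bcR φ P q)).1 D = 0
  rw [← map_smul, hθ, cov_apply]
  change Lq (bc φ P) (bcQ φ P (q : QD P)) (tder (bc φ P) θ) = 0
  rw [Lq_tder, qk_bcQ, hq, map_zero, mul_zero, map_zero]

end PTO

theorem t_PTO (hPOL : Stmt_POL) : Stmt_PTO := by
  intro g E I A _ _ _ _ P hG t k H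
  obtain ⟨_, h2, h3, _⟩ := hPOL E P hG
  obtain ⟨M, hM⟩ := h2 k
  have key : ∀ (q : Fin k → QR P) (i : Fin k) (x : QR P), qk P (x : QD P) = 0 →
      t * M (Function.update q i x) = 0 := by
    intro q i x hx
    rw [← smul_eq_mul, ← M.map_update_smul, hM]
    refine h3 _ i ?_
    rw [Function.update_self]
    exact PTO.cov_zero _ P t H x hx
  intro q q' hq
  rw [← hM, ← hM]
  have ind : ∀ s : Finset (Fin k), t * M (s.piecewise q' q) = t * M q := by
    intro s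
    induction s using Finset.induction_on with
    | empty => rw [Finset.piecewise_empty]
    | insert i s hi ih =>
      rw [Finset.piecewise_insert, ← ih]
      have e1 : Function.update (s.piecewise q' q) i (q i) = s.piecewise q' q := by
        rw [Function.update_eq_self_iff]
        exact (Finset.piecewise_eq_of_notMem _ _ _ hi).symm
      have e3 : qk P ((q' i + (-1 : A) • q i : QR P) : QD P) = 0 := by
        change qk P ((q' i : QD P) + (-1 : A) • (q i : QD P)) = 0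
        rw [map_add, map_smul, hq i, neg_smul, one_smul, add_neg_cancel]
      have e4 := key (s.piecewise q' q) i (q' i + (-1 : A) • q i) e3
      rw [M.map_update_add, M.map_update_smul, e1, neg_smul, one_smul, mul_add, mul_neg,
        add_neg_eq_zero] at e4
      exact e4
  have h := ind Finset.univ
  rw [Finset.piecewise_univ] at h
  exact h.symm

end Pool.Agent.MG.G0


end

section

/-!
# Construction of two charts (PAPER_TG.md, section TC)
-/

open TensorProduct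

namespace Pool.Agent.MG.G0

/-! ## Removing a puncture -/

/-- TLC: the chart of a localization. -/
def Stmt_TLC : Prop :=
  ∀ {B R S : Type} [CommRing B] [CommRing R] [CommRing S] [Algebra B R] [Algebra B S]
    [Algebra R S] [IsScalarTower B R S] (M : Submonoid R) [IsLocalization M S]
    (D : Derivation B R R) (g : R),
    (∀ f h : R, D f • KaehlerDifferential.D B R h = D h • KaehlerDifferential.D B R f) →
    IsUnit (algebraMap R S (D g)) → ∃ Δ : Derivation B S S,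
      (∀ f : R, algebraMap R S (D g) * Δ (algebraMap R S f) = algebraMap R S (D f)) ∧
      IsChart B S (algebraMap R S g) Δ

/-- TEP: functions without poles at a puncture. -/
def Stmt_TEP : Prop :=
  ∀ {I A : Type} [Fintype I] [Nonempty I] [CommRing A] {h : ℕ}
    {W : Subalgebra A (KK (I ⊕ Unit) A)} {R : Subalgebra A (KK I A)}, IsKr h W → Dn W →
    R = Rem W → ∃ ι : R →ₐ[A] W, Function.Injective ι ∧
      (∀ (f : R) (i : I), (ι f : KK (I ⊕ Unit) A) (Sum.inl i) = (f : KK I A) i) ∧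
      (∀ f : R, ∀ m < 0, ((ι f : KK (I ⊕ Unit) A) (Sum.inr ())).coeff m = 0) ∧
      (∀ w : W, (∀ m < 0, ((w : KK (I ⊕ Unit) A) (Sum.inr ())).coeff m = 0) →
        ∃ f, ι f = w) ∧
      ∀ M : ℕ, ∃ (n : ℕ) (s : Fin n → R) (a : Fin n → W), ∑ k, a k * ι (s k) = 1 ∧
        ∀ k, ∀ m < (M : ℤ), ((ι (s k) : KK (I ⊕ Unit) A) (Sum.inr ())).coeff m = 0

/-- TCH: vector fields of `Rem W` as vector fields of `W`. -/
def Stmt_TCH : Prop :=
  ∀ {I A : Type} [Fintype I] [Nonempty I] [CommRing A] {h : ℕ}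
    {W : Subalgebra A (KK (I ⊕ Unit) A)} {R : Subalgebra A (KK I A)}, IsKr h W → SmC A W →
    Dn W → R = Rem W → ∀ ι : R →ₐ[A] W,
    (∀ (f : R) (i : I), (ι f : KK (I ⊕ Unit) A) (Sum.inl i) = (f : KK I A) i) →
    (∀ f : R, ∀ m < 0, ((ι f : KK (I ⊕ Unit) A) (Sum.inr ())).coeff m = 0) →
    ∀ D : Derivation A R R, ∃ θ ∈ TT W, (∀ m < 0, (θ (Sum.inr ())).coeff m = 0) ∧
      ∀ f : R, θ * dd (ι f : KK (I ⊕ Unit) A) = (ι (D f) : KK (I ⊕ Unit) A)

/-- TCO: differentials of `Rem W`. -/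
def Stmt_TCO : Prop :=
  ∀ {I A : Type} [Fintype I] [Nonempty I] [CommRing A] {h : ℕ}
    {W : Subalgebra A (KK (I ⊕ Unit) A)}, IsKr h W → SmC A W → Dual W → Dn W →
    Perp (Rem W) ≤ Om (Rem W)

/-- TCY: smoothness from `Perp R ≤ Om R`. -/
def Stmt_TCY : Prop :=
  ∀ {κ : Type} [Field κ] [IsAlgClosed κ] [CharZero κ] {h : ℕ}
    {R : Subalgebra κ (KK Unit κ)}, IsKr h R → Perp R ≤ Om R → TypeS R

/-! ## Choices -/

/-- TRX: base change and change of the index set of smooth Krichever rings. -/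
def Stmt_TRX : Prop :=
  (∀ {I A B : Type} [Fintype I] [Nonempty I] [CommRing A] [CommRing B] {h : ℕ}
    {R : Subalgebra A (KK I A)}, SKr h R → ∀ φ : A →+* B, SKr h (bc φ R)) ∧
  ∀ {I I' A : Type} [Fintype I] [Nonempty I] [Fintype I'] [Nonempty I'] [CommRing A] {h : ℕ}
    {R : Subalgebra A (KK I A)} (e : I' ≃ I), SKr h R → SKr h (reix e R)

/-- TNS: formal smoothness with an additional puncture. -/
def Stmt_TNS : Prop :=
  ∀ {I κ : Type} [Fintype I] [Nonempty I] [Field κ] {h : ℕ}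
    {W : Subalgebra κ (KK (I ⊕ Unit) κ)}, IsKr h W → Dn W →
    Algebra.FormallySmooth κ (Rem W) → Algebra.FormallySmooth κ W

/-- TDN: density at the first puncture. -/
def Stmt_TDN : Prop :=
  ∀ {A κ : Type} [CommRing A] [Field κ] [Algebra κ A] (r : A →ₐ[κ] κ),
    (∃ n : ℕ, RingHom.ker r ^ n = ⊥) → ∀ {h : ℕ} {P : Subalgebra A (KK (Unit ⊕ Unit) A)},
    IsKr h P → Dn P → Dn (reix (Equiv.sumComm Unit Unit) P)

/-- TCN: a second puncture. -/
def Stmt_TCN : Prop :=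
  ∀ {A κ : Type} [CommRing A] [Field κ] [IsAlgClosed κ] [CharZero κ] [Algebra κ A]
    (r : A →ₐ[κ] κ), (∃ n : ℕ, RingHom.ker r ^ n = ⊥) → (RingHom.ker r).FG →
    ∀ {h : ℕ} {R : Subalgebra A (KK Unit A)}, SKr h R →
    ∃ (P : Subalgebra A (KK (Unit ⊕ Unit) A)) (ι : R →ₐ[A] P) (p : FPt R), SKr h P ∧
      R = Rem P ∧ Dn P ∧
      ∀ f : R, (ι f : KK (Unit ⊕ Unit) A) (Sum.inl ()) = (f : KK Unit A) () ∧
        (ι f : KK (Unit ⊕ Unit) A) (Sum.inr ()) = psl A (p.h f)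

/-- TCR: the second chart. -/
def Stmt_TCR : Prop :=
  ∀ {A κ : Type} [CommRing A] [Field κ] [IsAlgClosed κ] [CharZero κ] [Algebra κ A]
    (r : A →ₐ[κ] κ), (∃ n : ℕ, RingHom.ker r ^ n = ⊥) → (RingHom.ker r).FG →
    ∀ {h : ℕ} {R : Subalgebra A (KK Unit A)} {P : Subalgebra A (KK (Unit ⊕ Unit) A)},
      SKr h R → SKr h P → R = Rem P → Dn P → ∃ R₂ : Subalgebra A (KK Unit A), Chp h R R₂ P

/-- TCQ: a derivation and a function whose derivative does not vanish at given points. -/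
def Stmt_TCQ : Prop :=
  ∀ {κ A R : Type} [Field κ] [Infinite κ] [CommRing A] [CommRing R] [Algebra κ A]
    [Algebra A R] (r : A →ₐ[κ] κ), SmC A R → ∃ (m : ℕ) (y : Fin m → R),
      ∀ (n : ℕ) (e : Fin n → (R →+* κ)), (∀ l a, e l (algebraMap A R a) = r a) → ∀ z : R,
        ∃ (D : Derivation A R R) (μ : Fin m → κ),
          ∀ l, e l (D (z + ∑ k, algebraMap κ A (μ k) • y k)) ≠ 0

/-- TCF: the zeros of a function. -/
def Stmt_TCF : Prop :=
  ∀ {I κ : Type} [Fintype I] [Nonempty I] [Field κ] [IsAlgClosed κ] {h : ℕ}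
    {P : Subalgebra κ (KK I κ)}, IsKr h P → ∀ f : P, IsUnit (f : KK I κ) →
    {e : P →ₐ[κ] κ | e f = 0}.Finite ∧
    ∀ b : P, (∀ e : P →ₐ[κ] κ, e f = 0 → e b ≠ 0) → ∃ u v : P, u * f + v * b = 1

/-- Two charts of a smooth curve with coordinates `g₁`, `g₂`. -/
structure TCD {A : Type} [CommRing A] (h : ℕ) {R₁ R₂ : Subalgebra A (KK Unit A)}
    {P : Subalgebra A (KK (Unit ⊕ Unit) A)} (ι₁ : R₁ →ₐ[A] P) (ι₂ : R₂ →ₐ[A] P)
    (D₁ : Derivation A R₁ R₁) (g₁ : R₁) (D₂ : Derivation A R₂ R₂) (g₂ : R₂) : Prop where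
  chp : Chp h R₁ R₂ P
  inc : Inc ι₁ ι₂
  inv : ∀ n : ℕ, n ≠ 0 → IsUnit (n : A)
  m1 : ∃ d : ℤ, 1 ≤ d ∧ Mon d (g₁ : KK Unit A)
  m2 : ∃ d : ℤ, 1 ≤ d ∧ Mon d (g₂ : KK Unit A)
  u1 : IsUnit (ι₁ (D₁ g₁) : KK (Unit ⊕ Unit) A)
  u2 : IsUnit (ι₂ (D₂ g₂) : KK (Unit ⊕ Unit) A)
  v1 : IsUnit (((ι₁ (D₁ g₁) : KK (Unit ⊕ Unit) A) (Sum.inr ())).coeff 0)
  v2 : IsUnit (((ι₂ (D₂ g₂) : KK (Unit ⊕ Unit) A) (Sum.inl ())).coeff 0)
  cov : ∃ u v : P, u * ι₁ (D₁ g₁) + v * ι₂ (D₂ g₂) = 1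
  frm : ∃ ω ω' : KK (Unit ⊕ Unit) A, ω ∈ EE P ∧ ω' ∈ EE P ∧ IsUnit ω ∧
    ∀ {B : Type} [CommRing B] (φ : A →+* B) (a a' : B),
      a • kmap φ ω' = a' • kmap φ ω → a = 0 ∧ a' = 0

/-- TZU: units modulo nilpotent elements. -/
def Stmt_TZU : Prop :=
  ∀ {A κ : Type} [CommRing A] [Field κ] [Algebra κ A] (r : A →ₐ[κ] κ),
    (∃ n : ℕ, RingHom.ker r ^ n = ⊥) →
    (∀ x : A, r x ≠ 0 → IsUnit x) ∧
    (∀ {I : Type} (f : KK I A), (∀ i, kmap (r : A →+* κ) f i ≠ 0) → IsUnit f) ∧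
    (∀ {I : Type} [Finite I] (f : KK I A), (∀ i, ∀ m < 0, (f i).coeff m = 0) →
      (∀ i, r ((f i).coeff 0) ≠ 0) → IsUnit f) ∧
    ∀ {I : Type} (P : Subalgebra A (KK I A)) (f : P),
      kmap (r : A →+* κ) (f : KK I A) = 1 → IsUnit f

/-- TZF: two independent forms. -/
def Stmt_TZF : Prop :=
  ∀ {A κ : Type} [CommRing A] [Field κ] [Algebra κ A] (r : A →ₐ[κ] κ),
    (∃ n : ℕ, RingHom.ker r ^ n = ⊥) → ∀ {h : ℕ}, 2 ≤ h →
    ∀ {R₁ R₂ : Subalgebra A (KK Unit A)} {P : Subalgebra A (KK (Unit ⊕ Unit) A)},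
    Chp h R₁ R₂ P → ∃ ω ω' : KK (Unit ⊕ Unit) A, ω ∈ EE P ∧ ω' ∈ EE P ∧ IsUnit ω ∧
      ∀ {B : Type} [CommRing B] (φ : A →+* B) (a a' : B),
        a • kmap φ ω' = a' • kmap φ ω → a = 0 ∧ a' = 0

/-- TCZ: existence of the charts. -/
def Stmt_TCZ : Prop :=
  ∀ {A κ : Type} [CommRing A] [Field κ] [IsAlgClosed κ] [CharZero κ] [Algebra κ A]
    (r : A →ₐ[κ] κ), (∃ n : ℕ, RingHom.ker r ^ n = ⊥) → (RingHom.ker r).FG →
    ∀ {h : ℕ}, 2 ≤ h → ∀ {R : Subalgebra A (KK Unit A)}, SKr h R → ∀ pt : Bool → FPt R,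
    ∃ (R₂ : Subalgebra A (KK Unit A)) (P : Subalgebra A (KK (Unit ⊕ Unit) A))
      (ι₁ : R →ₐ[A] P) (ι₂ : R₂ →ₐ[A] P) (D₁ : Derivation A R R) (g₁ : R)
      (D₂ : Derivation A R₂ R₂) (g₂ : R₂), TCD h ι₁ ι₂ D₁ g₁ D₂ g₂ ∧
        ∀ b, IsUnit ((pt b).ev (D₁ g₁))

/-! ## The data of Theorem G -/

/-- TCI: the base change of `R[1/b]` in the Laurent series. -/
def Stmt_TCI : Prop :=
  ∀ {I A B : Type} [Fintype I] [Nonempty I] [CommRing A] [CommRing B] [Algebra A B] {h : ℕ}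
    {R : Subalgebra A (KK I A)}, IsKr h R → ∀ b : R, IsUnit (b : KK I A) →
    ∃ E : (B ⊗[A] Localization.Away b) →ₐ[B] KK I B, Function.Injective E ∧
      (∀ (a : B) (f : R), E (a ⊗ₜ[A] algebraMap R (Localization.Away b) f) =
        a • kmap (algebraMap A B) (f : KK I A)) ∧
      ∀ y : B ⊗[A] Localization.Away b, ∃ (n m : ℕ) (a : Fin m → B) (f : Fin m → R),
        ((1 : B) ⊗ₜ[A] algebraMap R (Localization.Away b) (b ^ n)) * y =
          ∑ k, a k ⊗ₜ[A] algebraMap R (Localization.Away b) (f k)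

/-- TCM: there are no vector fields. -/
def Stmt_TCM : Prop :=
  ∀ {A : Type} [CommRing A] {h : ℕ} {R₁ R₂ : Subalgebra A (KK Unit A)}
    {P : Subalgebra A (KK (Unit ⊕ Unit) A)} {ι₁ : R₁ →ₐ[A] P} {ι₂ : R₂ →ₐ[A] P}
    {D₁ : Derivation A R₁ R₁} {g₁ : R₁} {D₂ : Derivation A R₂ R₂} {g₂ : R₂},
    TCD h ι₁ ι₂ D₁ g₁ D₂ g₂ → ∀ {B : Type} [CommRing B] (φ : A →+* B)
    (F₁ F₂ : KK (Unit ⊕ Unit) B) (c : B) (n : ℕ), 1 ≤ n → IsUnit c →
    (∃ N : ℕ, kmap φ (ι₁ (D₁ g₁) : KK (Unit ⊕ Unit) A) ^ N * F₁ ∈ bc φ P ∧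
      ∀ m < 0, ((kmap φ (ι₁ (D₁ g₁) : KK (Unit ⊕ Unit) A) ^ N * F₁) (Sum.inr ())).coeff m = 0) →
    (∃ N : ℕ, kmap φ (ι₂ (D₂ g₂) : KK (Unit ⊕ Unit) A) ^ N * F₂ ∈ bc φ P ∧
      ∀ m < 0, ((kmap φ (ι₂ (D₂ g₂) : KK (Unit ⊕ Unit) A) ^ N * F₂) (Sum.inl ())).coeff m = 0) →
    kmap φ (dd (ι₁ g₁ : KK (Unit ⊕ Unit) A)) ^ n * F₂ =
      c • (kmap φ (dd (ι₂ g₂ : KK (Unit ⊕ Unit) A)) ^ n * F₁) → F₁ = 0

/-- TCG: the data of Theorem G. -/
def Stmt_TCG : Prop :=
  ∀ {A : Type} [CommRing A] {h : ℕ} {R₁ R₂ : Subalgebra A (KK Unit A)}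
    {P : Subalgebra A (KK (Unit ⊕ Unit) A)} {ι₁ : R₁ →ₐ[A] P} {ι₂ : R₂ →ₐ[A] P}
    {D₁ : Derivation A R₁ R₁} {g₁ : R₁} {D₂ : Derivation A R₂ R₂} {g₂ : R₂},
    TCD h ι₁ ι₂ D₁ g₁ D₂ g₂ → ∃ (S : Bool → Type) (_ : ∀ j, CommRing (S j))
      (_ : ∀ j, Algebra A (S j)) (T : Type) (_ : CommRing T) (_ : Algebra A T) (G : TGD A S T)
      (l₁ : R₁ →ₐ[A] S true) (l₂ : R₂ →ₐ[A] S false) (l : P →ₐ[A] T),
      l₁ g₁ = G.x true ∧ l₂ g₂ = G.x false ∧ (∀ f, G.i true (l₁ f) = l (ι₁ f)) ∧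
      (∀ f, G.i false (l₂ f) = l (ι₂ f)) ∧ IsUnit (l₁ (D₁ g₁)) ∧ IsUnit (l₂ (D₂ g₂)) ∧
      (∀ {B : Type} [CommRing B] [Algebra A B] (p : R₁ →ₐ[A] B), IsUnit (p (D₁ g₁)) →
        ∃! p' : S true →ₐ[A] B, p'.comp l₁ = p) ∧
      ∀ {B : Type} [CommRing B] [Algebra A B] (p : R₂ →ₐ[A] B), IsUnit (p (D₂ g₂)) →
        ∃! p' : S false →ₐ[A] B, p'.comp l₂ = p

/-- TCX: Theorem G for Krichever rings. -/
def Stmt_TCX : Prop :=
  ∀ {A : Type} [CommRing A] {h : ℕ} {R₁ R₂ : Subalgebra A (KK Unit A)}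
    {P : Subalgebra A (KK (Unit ⊕ Unit) A)} {ι₁ : R₁ →ₐ[A] P} {ι₂ : R₂ →ₐ[A] P}
    {D₁ : Derivation A R₁ R₁} {g₁ : R₁} {D₂ : Derivation A R₂ R₂} {g₂ : R₂},
    TCD h ι₁ ι₂ D₁ g₁ D₂ g₂ → ThmG (D₁ g₁) (D₂ g₂) ι₁ ι₂

end Pool.Agent.MG.G0


end

section

/-!
# TCO: differentials of the ring of a curve with one puncture less (PAPER_TG.md, TCO)
-/

namespace Pool.Agent.MG.G0

namespace TCO

section

variable {I A : Type} [CommRing A]

/-- The components at the punctures `I`. -/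
noncomputable def pI : KK (I ⊕ Unit) A →ₐ[A] KK I A where
  toFun w i := w (Sum.inl i)
  map_one' := rfl
  map_mul' _ _ := rfl
  map_zero' := rfl
  map_add' _ _ := rfl
  commutes' _ := rfl

theorem pI_apply (w : KK (I ⊕ Unit) A) (i : I) : pI w i = w (Sum.inl i) := rfl

theorem pI_dd (w : KK (I ⊕ Unit) A) : pI (dd w) = dd (pI w) := rfl

/-- Vanishing of order at least `M` at the last puncture. -/
def Vn (M : ℤ) (w : KK (I ⊕ Unit) A) : Prop := ∀ m < M, (w (Sum.inr ())).coeff m = 0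

theorem Vn.mul {a b : ℤ} {v w : KK (I ⊕ Unit) A} (hv : Vn a v) (hw : Vn b w) :
    Vn (a + b) (v * w) := fun m hm => by
  rw [Pi.mul_apply]
  exact mul_low hv hw m hm

theorem Vn.mono {a b : ℤ} (h : a ≤ b) {w : KK (I ⊕ Unit) A} (hw : Vn b w) : Vn a w :=
  fun m hm => hw m (lt_of_lt_of_le hm h)

theorem Vn.add {a : ℤ} {v w : KK (I ⊕ Unit) A} (hv : Vn a v) (hw : Vn a w) : Vn a (v + w) :=
  fun m hm => by rw [Pi.add_apply, HahnSeries.coeff_add, hv m hm, hw m hm, add_zero]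

theorem Vn.sub {a : ℤ} {v w : KK (I ⊕ Unit) A} (hv : Vn a v) (hw : Vn a w) : Vn a (v - w) :=
  fun m hm => by rw [Pi.sub_apply, HahnSeries.coeff_sub, hv m hm, hw m hm, sub_zero]

theorem Vn.smul {a : ℤ} (c : A) {w : KK (I ⊕ Unit) A} (hw : Vn a w) : Vn a (c • w) :=
  fun m hm => by rw [Pi.smul_apply, HahnSeries.coeff_smul, hw m hm, smul_zero]

theorem Vn.sum {n : ℕ} {a : ℤ} {w : Fin n → KK (I ⊕ Unit) A} (hw : ∀ k, Vn a (w k)) :
    Vn a (∑ k, w k) := fun m hm => by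
  rw [Finset.sum_apply, HahnSeries.coeff_sum]
  exact Finset.sum_eq_zero fun k _ => hw k m hm

theorem exists_Vn (w : KK (I ⊕ Unit) A) : ∃ n : ℕ, Vn (-(n : ℤ)) w := exists_low _

theorem exists_Vn_fin {n : ℕ} (w : Fin n → KK (I ⊕ Unit) A) :
    ∃ N : ℕ, ∀ k, Vn (-(N : ℤ)) (w k) := by
  choose l hl using fun k => exists_Vn (w k)
  refine ⟨Finset.univ.sup l, fun k => (hl k).mono ?_⟩
  have : l k ≤ Finset.univ.sup l := Finset.le_sup (Finset.mem_univ k)
  omega

theorem pI_mem {W : Subalgebra A (KK (I ⊕ Unit) A)} {w : KK (I ⊕ Unit) A} (hw : w ∈ W)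
    (h : Vn 0 w) : pI w ∈ Rem W := ⟨w, hw, fun _ m hm => h m hm, fun _ => rfl⟩

theorem om_mul {P : Subalgebra A (KK I A)} {p η : KK I A} (hp : p ∈ P) (h : η ∈ Om P) :
    p * η ∈ Om P := by
  induction h using Submodule.span_induction with
  | mem x hx =>
    obtain ⟨q, hq, f, hf, rfl⟩ := hx
    exact Submodule.subset_span ⟨p * q, mul_mem hp hq, f, hf, by rw [mul_assoc]⟩
  | zero => rw [mul_zero]; exact zero_mem _
  | add x y _ _ hx hy => rw [mul_add]; exact add_mem hx hy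
  | smul a x _ hx => rw [mul_smul_comm]; exact Submodule.smul_mem _ a hx

theorem om_gen {P : Subalgebra A (KK I A)} {p f : KK I A} (hp : p ∈ P) (hf : f ∈ P) :
    p * dd f ∈ Om P := Submodule.subset_span ⟨p, hp, f, hf, rfl⟩

/-- Step 2. -/
theorem step2 {W : Subalgebra A (KK (I ⊕ Unit) A)} {ζ : KK (I ⊕ Unit) A} (h : ζ ∈ Om W) :
    ∃ M : ℕ, ∀ s ∈ W, ∀ s' ∈ W, Vn M s → Vn M s' → pI (s * s' * ζ) ∈ Om (Rem W) := by
  induction h using Submodule.span_induction with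
  | mem x hx =>
    obtain ⟨p, hp, g, hg, rfl⟩ := hx
    obtain ⟨a, ha⟩ := exists_Vn p
    obtain ⟨b, hb⟩ := exists_Vn g
    refine ⟨a + b, fun s hs s' hs' h1 h2 => ?_⟩
    have e1 : Vn 0 (s * p) := (h1.mul ha).mono (by push_cast; omega)
    have e2 : Vn 0 (s' * g) := (h2.mul hb).mono (by push_cast; omega)
    have e3 : Vn 0 (s * p * g) := ((h1.mul ha).mul hb).mono (by push_cast; omega)
    have e4 : Vn 0 s' := h2.mono (by push_cast; omega)
    have e5 : s * s' * (p * dd g) = (s * p) * dd (s' * g) - (s * p * g) * dd s' := by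
      rw [dd_mul]
      ring
    have e6 : pI ((s * p) * dd (s' * g)) = pI (s * p) * dd (pI (s' * g)) := rfl
    have e7 : pI ((s * p * g) * dd s') = pI (s * p * g) * dd (pI s') := rfl
    rw [e5, map_sub, e6, e7]
    exact sub_mem (om_gen (pI_mem (mul_mem hs hp) e1) (pI_mem (mul_mem hs' hg) e2))
      (om_gen (pI_mem (mul_mem (mul_mem hs hp) hg) e3) (pI_mem hs' e4))
  | zero => exact ⟨0, fun s _ s' _ _ _ => by rw [mul_zero, map_zero]; exact zero_mem _⟩
  | add x y _ _ hx hy =>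
    obtain ⟨M, hM⟩ := hx
    obtain ⟨N, hN⟩ := hy
    refine ⟨M + N, fun s hs s' hs' h1 h2 => ?_⟩
    rw [mul_add, map_add]
    exact add_mem (hM s hs s' hs' (h1.mono (by push_cast; omega)) (h2.mono (by push_cast; omega)))
      (hN s hs s' hs' (h1.mono (by push_cast; omega)) (h2.mono (by push_cast; omega)))
  | smul a x _ hx =>
    obtain ⟨M, hM⟩ := hx
    refine ⟨M, fun s hs s' hs' h1 h2 => ?_⟩
    rw [mul_smul_comm, map_smul]
    exact Submodule.smul_mem _ a (hM s hs s' hs' h1 h2)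

/-- Step 3. -/
theorem step3 {W : Subalgebra A (KK (I ⊕ Unit) A)} {ζ : KK (I ⊕ Unit) A} {M : ℕ}
    (hM : ∀ s ∈ W, ∀ s' ∈ W, Vn M s → Vn M s' → pI (s * s' * ζ) ∈ Om (Rem W)) {n : ℕ}
    (s a : Fin n → KK (I ⊕ Unit) A) (hs : ∀ k, s k ∈ W) (ha : ∀ k, a k ∈ W)
    (h1 : ∑ k, a k * s k = 1) (hv : ∀ k, Vn M (s k)) :
    ∃ L : ℕ, ∀ f ∈ W, Vn L f → pI (f * ζ) ∈ Om (Rem W) := by
  obtain ⟨N, hN⟩ := exists_Vn_fin a
  refine ⟨N + N, fun f hf hfv => ?_⟩
  have e1 : f * ζ = ∑ k, ∑ l, (f * a k * a l) * (s k * s l * ζ) := by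
    have e2 : f * ζ = (∑ k, a k * s k) * (∑ l, a l * s l) * (f * ζ) := by
      rw [h1, one_mul, one_mul]
    rw [e2, Finset.sum_mul_sum, Finset.sum_mul]
    refine Finset.sum_congr rfl fun k _ => ?_
    rw [Finset.sum_mul]
    refine Finset.sum_congr rfl fun l _ => ?_
    ring
  rw [e1, map_sum]
  refine Submodule.sum_mem _ fun k _ => ?_
  rw [map_sum]
  refine Submodule.sum_mem _ fun l _ => ?_
  rw [map_mul]
  refine om_mul (pI_mem (mul_mem (mul_mem hf (ha k)) (ha l)) ?_)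
    (hM _ (hs k) _ (hs l) (hv k) (hv l))
  exact ((hfv.mul (hN k)).mul (hN l)).mono (by push_cast; omega)

/-- A series without poles and with constant term `1` has an inverse without poles. -/
theorem exists_inv {f : LaurentSeries A} (h0 : ∀ m < 0, f.coeff m = 0) (h1 : f.coeff 0 = 1) :
    ∃ x : LaurentSeries A, (∀ m < 0, x.coeff m = 0) ∧ x * f = 1 := by
  set g : PowerSeries A := PowerSeries.mk fun n => f.coeff n with hg
  have e1 : psl A g = f := by
    ext m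
    rw [psl, PowerSeries.coeff_coe]
    split_ifs with hm
    · rw [h0 m hm]
    · rw [hg, PowerSeries.coeff_mk, Int.natAbs_of_nonneg (not_lt.1 hm)]
  have e2 : IsUnit g := by
    rw [PowerSeries.isUnit_iff_constantCoeff, hg, ← PowerSeries.coeff_zero_eq_constantCoeff_apply,
      PowerSeries.coeff_mk, Nat.cast_zero, h1]
    exact isUnit_one
  obtain ⟨g', hg'⟩ := e2.exists_left_inv
  refine ⟨psl A g', fun m hm => ?_, ?_⟩
  · rw [psl, PowerSeries.coeff_coe, if_pos hm]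
  · rw [← e1, ← map_mul, hg', map_one]

end

section

variable {I A : Type} [Fintype I] [CommRing A]

theorem res_sum (w : KK (I ⊕ Unit) A) :
    res w = res (pI w) + (w (Sum.inr ())).coeff (-1) := by
  change ∑ k, (w k).coeff (-1) = ∑ i, (w (Sum.inl i)).coeff (-1) + _
  rw [Fintype.sum_sum_type]
  simp

/-- Step 1. -/
theorem step1 (hK : Stmt_KDU) {W : Subalgebra A (KK (I ⊕ Unit) A)} (hD : Dn W) {η : KK I A}
    (hη : η ∈ Perp (Rem W)) : ∃ ζ ∈ Perp W, pI ζ = η ∧ Vn 0 ζ := by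
  have hD' : ∀ f : KK Unit A, ∃ w ∈ W, ∀ m < 0, (w (Sum.inr ())).coeff m = (f ()).coeff m := by
    intro f
    obtain ⟨w, hw, h⟩ := hD f 0
    exact ⟨w, hw, h ()⟩
  choose w hw hwf using hD'
  have key : ∀ v v' : KK (I ⊕ Unit) A, v ∈ W → v' ∈ W →
      (∀ m < 0, (v (Sum.inr ())).coeff m = (v' (Sum.inr ())).coeff m) →
      res (η * pI v) = res (η * pI v') := by
    intro v v' hv hv' h
    have h1 : Vn 0 (v - v') := fun m hm => by
      rw [Pi.sub_apply, HahnSeries.coeff_sub, h m hm, sub_self]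
    have h2 := hη _ (pI_mem (sub_mem hv hv') h1)
    rwa [map_sub, mul_sub, map_sub, sub_eq_zero] at h2
  let l : KK Unit A →ₗ[A] A :=
    { toFun := fun f => -res (η * pI (w f))
      map_add' := fun f g => by
        have h := key (w (f + g)) (w f + w g) (hw _) (add_mem (hw _) (hw _)) (fun m hm => by
          rw [hwf _ m hm, Pi.add_apply, Pi.add_apply, HahnSeries.coeff_add, HahnSeries.coeff_add,
            hwf _ m hm, hwf _ m hm])
        rw [h, map_add, mul_add, map_add, neg_add]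
      map_smul' := fun a f => by
        have h := key (w (a • f)) (a • w f) (hw _) (W.smul_mem (hw _) a) (fun m hm => by
          rw [hwf _ m hm, Pi.smul_apply, Pi.smul_apply, HahnSeries.coeff_smul,
            HahnSeries.coeff_smul, hwf _ m hm])
        rw [h, map_smul, mul_smul_comm, map_smul, RingHom.id_apply, smul_neg] }
  have hl : ∀ f : KK Unit A, l f = -res (η * pI (w f)) := fun _ => rfl
  obtain ⟨ξ, ⟨hξ, hlξ⟩, _⟩ := hK (I := Unit) (0 : ℤ) l (by
    intro f hf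
    rw [hl, key (w f) 0 (hw f) (zero_mem W) (fun m hm => by
      rw [hwf _ m hm, hf () m (by simpa using hm), Pi.zero_apply, HahnSeries.coeff_zero]),
      map_zero, mul_zero, map_zero, neg_zero])
  refine ⟨Sum.elim η ξ, fun v hv => ?_, rfl, fun m hm => hξ () m (by omega)⟩
  rw [res_sum, map_mul]
  have h1 : pI (I := I) (A := A) (Sum.elim η ξ) = η := rfl
  have h2 := hlξ (fun _ => v (Sum.inr ()))
  have h3 : res (ξ * (fun _ => v (Sum.inr ()) : KK Unit A)) =
      ((Sum.elim η ξ * v : KK (I ⊕ Unit) A) (Sum.inr ())).coeff (-1) := by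
    change ∑ k : Unit, _ = _
    simp
  have h4 := key (w (fun _ => v (Sum.inr ()))) v (hw _) hv (hwf _)
  rw [h1, ← h3, ← h2, hl, h4, add_neg_cancel]

end

end TCO

open _root_.Pool.Agent.MG.G0.TCO in
theorem t_TCO (h1 : Stmt_TEP) (h2 : Stmt_KDU) (h3 : Stmt_STO) : Stmt_TCO := by
  intro I A _ _ _ h W hW hS hDu hDn η hη
  obtain ⟨ζ, hζ, hζη, hζ0⟩ := step1 h2 hDn hη
  obtain ⟨-, -, sT, -, sS⟩ := h3 hW
  obtain ⟨-, ⟨n, θ, g, hθ, hg, hθg⟩, sD⟩ := sS hS
  have hζO : ζ ∈ Om W := (sD.1 hDu) hζ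
  obtain ⟨M, hM⟩ := step2 hζO
  obtain ⟨ι, -, -, -, -, hι⟩ := h1 hW hDn rfl
  obtain ⟨k, s, a, ha1, has⟩ := hι M
  obtain ⟨L, hL⟩ := step3 hM (fun j => (ι (s j) : KK (I ⊕ Unit) A))
    (fun j => (a j : KK (I ⊕ Unit) A)) (fun j => (ι (s j)).2) (fun j => (a j).2) (by
      have := congrArg (fun z : W => (z : KK (I ⊕ Unit) A)) ha1
      simpa using this) (fun j => has j)
  -- the function `x`
  obtain ⟨x, hx, hx1⟩ := hDn (fun _ => HahnSeries.single (1 : ℤ) (1 : A)) 3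
  have hx2 : ∀ m < 3, (x (Sum.inr ())).coeff m = if m = 1 then 1 else 0 := fun m hm => by
    rw [hx1 () m hm, HahnSeries.coeff_single]
    split_ifs <;> rfl
  have hx0 : Vn 0 x := fun m hm => by rw [hx2 m (by omega), if_neg (by omega)]
  have hdx : ∀ m < 0, (ld (x (Sum.inr ()))).coeff m = 0 := fun m hm => by
    rw [ld_coeff, hx2 (m + 1) (by omega), if_neg (by omega), mul_zero]
  have hdx0 : (ld (x (Sum.inr ()))).coeff 0 = 1 := by
    rw [ld_coeff, hx2 (0 + 1) (by omega), if_pos (by omega)]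
    simp
  obtain ⟨ξ, hξ0, hξ⟩ := exists_inv hdx hdx0
  -- the approximation of the vector field
  obtain ⟨N, hN⟩ := exists_Vn_fin θ
  choose w hw hwa using fun i : Fin n =>
    hDn (fun _ => ξ * ld (g i (Sum.inr ()))) ((L : ℤ) + N)
  set Θ : KK (I ⊕ Unit) A := ∑ i, w i * θ i with hΘ
  have hΘT : Θ ∈ TT W := Submodule.sum_mem _ fun i _ => sT _ (hw i) _ (hθ i)
  have hΘa : ∀ m < (L : ℤ), (Θ (Sum.inr ()) - ξ).coeff m = 0 := by
    have e1 : Θ (Sum.inr ()) - ξ =
        ∑ i, (w i (Sum.inr ()) - ξ * ld (g i (Sum.inr ()))) * θ i (Sum.inr ()) := by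
      have e2 := congrFun hθg (Sum.inr ())
      rw [Finset.sum_apply] at e2
      have e3 : ∑ i, θ i (Sum.inr ()) * ld (g i (Sum.inr ())) = 1 := e2
      have e4 : ξ = ∑ i, ξ * ld (g i (Sum.inr ())) * θ i (Sum.inr ()) := by
        calc ξ = ξ * ∑ i, θ i (Sum.inr ()) * ld (g i (Sum.inr ())) := by rw [e3, mul_one]
          _ = _ := by
            rw [Finset.mul_sum]
            exact Finset.sum_congr rfl fun i _ => by ring
      rw [hΘ, Finset.sum_apply]
      conv_lhs => rw [e4]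
      rw [← Finset.sum_sub_distrib]
      exact Finset.sum_congr rfl fun i _ => by rw [Pi.mul_apply, sub_mul]
    intro m hm
    rw [e1, HahnSeries.coeff_sum]
    refine Finset.sum_eq_zero fun i _ => ?_
    refine mul_low (a := (L : ℤ) + N) (b := -(N : ℤ)) (fun q hq => ?_) (hN i) m (by omega)
    rw [HahnSeries.coeff_sub, hwa i () q hq, sub_self]
  have hΘ0 : Vn 0 Θ := fun m hm => by
    have e1 := hΘa m (by omega)
    rwa [HahnSeries.coeff_sub, hξ0 m hm, sub_zero] at e1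
  -- the function `e`
  have he : Θ * dd x ∈ W := hΘT x hx
  have he1 : Vn L (1 - Θ * dd x) := by
    intro m hm
    have e1 : (1 - Θ * dd x : KK (I ⊕ Unit) A) (Sum.inr ()) =
        -((Θ (Sum.inr ()) - ξ) * ld (x (Sum.inr ()))) := by
      change 1 - Θ (Sum.inr ()) * ld (x (Sum.inr ())) = _
      rw [← hξ]
      ring
    rw [e1, HahnSeries.coeff_neg, mul_low hΘa hdx m (by omega), neg_zero]
  have e2 : pI (Θ * dd x * ζ) ∈ Om (Rem W) := by
    have e3 : Θ * dd x * ζ = (Θ * ζ) * dd x := by ring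
    rw [e3, map_mul, pI_dd]
    exact om_gen (pI_mem (hDu Θ hΘT ζ hζ) ((hΘ0.mul hζ0).mono (by omega))) (pI_mem hx hx0)
  have e3 := hL _ (sub_mem (one_mem W) he) he1
  have e4 : ζ = Θ * dd x * ζ + (1 - Θ * dd x) * ζ := by ring
  rw [← hζη, e4, map_add]
  exact add_mem e2 e3

end Pool.Agent.MG.G0


end

section

/-!
# Density at the first puncture (PAPER_TG.md, TDN)
-/

namespace Pool.Agent.MG.G0

namespace TDN

section field

variable {κ : Type} [Field κ]

/-- `f` has exact order `a`. -/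
def XO (f : LaurentSeries κ) (a : ℤ) : Prop := (∀ m < a, f.coeff m = 0) ∧ f.coeff a ≠ 0

theorem XO.mul {f g : LaurentSeries κ} {a b : ℤ} (hf : XO f a) (hg : XO g b) :
    XO (f * g) (a + b) :=
  ⟨fun m hm => mul_low hf.1 hg.1 m hm, by
    rw [mul_lead hf.1 hg.1]
    exact mul_ne_zero hf.2 hg.2⟩

theorem XO.one : XO (1 : LaurentSeries κ) 0 :=
  ⟨fun m hm => by rw [HahnSeries.coeff_one, if_neg (by omega)], by
    rw [HahnSeries.coeff_one, if_pos rfl]
    exact one_ne_zero⟩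

theorem XO.pow {f : LaurentSeries κ} {a : ℤ} (hf : XO f a) (n : ℕ) : XO (f ^ n) (n * a) := by
  induction n with
  | zero =>
    rw [pow_zero, Nat.cast_zero, zero_mul]
    exact XO.one
  | succ n ih =>
    have h := ih.mul hf
    rw [← pow_succ] at h
    have e : (n : ℤ) * a + a = ((n + 1 : ℕ) : ℤ) * a := by
      push_cast
      ring
    rw [e] at h
    exact h

theorem XO.ne {f : LaurentSeries κ} {a : ℤ} (hf : XO f a) : f ≠ 0 := fun h0 => by
  apply hf.2
  rw [h0, HahnSeries.coeff_zero]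

/-- The exact order of a series without constant term. -/
theorem exists_XO {f : LaurentSeries κ} (hf : ∀ m < 1, f.coeff m = 0) (h0 : f ≠ 0) :
    ∃ k : ℕ, XO f ((k : ℤ) + 1) := by
  have h1 : f.coeff f.order ≠ 0 := fun h => h0 (HahnSeries.coeff_order_eq_zero.1 h)
  have h2 : 1 ≤ f.order := by
    by_contra hc
    exact h1 (hf _ (by omega))
  refine ⟨(f.order - 1).toNat, fun m hm => HahnSeries.coeff_eq_zero_of_lt_order (by omega), ?_⟩
  have e : (((f.order - 1).toNat : ℕ) : ℤ) + 1 = f.order := by omega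
  rw [e]
  exact h1

theorem reix_swap {P : Subalgebra κ (KK (Unit ⊕ Unit) κ)} {w : KK (Unit ⊕ Unit) κ} :
    w ∈ reix (Equiv.sumComm Unit Unit) P ↔
      (fun i => w ((Equiv.sumComm Unit Unit).symm i)) ∈ P := Iff.rfl

/-- Density over a field. -/
theorem field_dn (hMCB : Stmt_MCB) (hREM : Stmt_REM) (hKAU : Stmt_KAU) (hKNZ : Stmt_KNZ)
    (hKBC : Stmt_KBC) {h : ℕ} {P : Subalgebra κ (KK (Unit ⊕ Unit) κ)} (hP : IsKr h P)
    (hD : Dn P) (f : LaurentSeries κ) (M : ℤ) :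
    ∃ w ∈ P, ∀ m < M, (w (Sum.inl ())).coeff m = f.coeff m := by
  have hinj : ∀ w ∈ P, w (Sum.inl ()) = 0 → w = 0 := by
    intro w hw h0
    have h1 := (hMCB.1 hP hD).2 (RingHom.id κ)
    rw [hKBC.2.2.1 P] at h1
    exact h1.2.2 w hw fun _ => h0
  obtain ⟨W, hWd⟩ : ∃ W, W = reix (Equiv.sumComm Unit Unit) P := ⟨_, rfl⟩
  have hW : IsKr h W := by
    rw [hWd]
    exact hKAU.2 P (Equiv.sumComm Unit Unit) hP
  have hWinj : ∀ w ∈ W, w (Sum.inr ()) = 0 → w = 0 := by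
    intro w hw h0
    rw [hWd, reix_swap] at hw
    have h2 := hinj _ hw h0
    funext i
    have h3 := congrFun h2 (Equiv.sumComm Unit Unit i)
    rw [Equiv.symm_apply_apply] at h3
    exact h3
  have hDns : Dns W := hREM.2.1 hW hWinj
  have hR : IsKr h (Rem W) := (hREM.1 hW hDns).1
  obtain ⟨⟨N, hN⟩, hz⟩ := hKNZ hR
  obtain ⟨z, ⟨w, hw, hreg, hinl⟩, hzM⟩ := (hz N hN).2.2 (N + 1) (by omega)
  -- an element with a zero at `inr`
  obtain ⟨w', hw'd⟩ : ∃ w', w' = w - algebraMap κ (KK (Unit ⊕ Unit) κ)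
    ((w (Sum.inr ())).coeff 0) := ⟨_, rfl⟩
  have hw' : w' ∈ W := by
    rw [hw'd]
    exact sub_mem hw (W.algebraMap_mem _)
  have hlow : ∀ m < 1, (w' (Sum.inr ())).coeff m = 0 := by
    intro m hm
    rw [hw'd, Pi.sub_apply, HahnSeries.coeff_sub, Pi.algebraMap_apply, coeff_algebraMap]
    by_cases h0 : m = 0
    · rw [if_pos h0, h0, sub_self]
    · rw [if_neg h0, sub_zero]
      exact hreg () m (by omega)
  have hne : w' (Sum.inr ()) ≠ 0 := by
    intro h0
    have h1 := hWinj w' hw' h0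
    have h2 : (w' (Sum.inl ())).coeff (-((N : ℤ) + 1)) = 1 := by
      rw [hw'd, Pi.sub_apply, HahnSeries.coeff_sub, Pi.algebraMap_apply, coeff_algebraMap,
        if_neg (by omega), sub_zero, hinl ()]
      exact hzM.2 ()
    rw [h1, Pi.zero_apply, HahnSeries.coeff_zero] at h2
    exact zero_ne_one h2
  obtain ⟨k, hk⟩ := exists_XO hlow hne
  -- an element with a simple pole at `inr`
  obtain ⟨v, hv, hv1⟩ := hDns (HahnSeries.single (-1) 1)
  have hvX : XO (v (Sum.inr ())) (-1) := by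
    refine ⟨fun m hm => ?_, ?_⟩
    · rw [hv1 m (by omega), HahnSeries.coeff_single_of_ne (by omega)]
    · rw [hv1 (-1) (by omega), HahnSeries.coeff_single_same]
      exact one_ne_zero
  -- an element with a zero of order `K`
  obtain ⟨K, hK⟩ : ∃ K : ℕ, M ≤ (K : ℤ) := ⟨M.toNat, by omega⟩
  obtain ⟨s, hsd⟩ : ∃ s, s = w' ^ K * v ^ (k * K) := ⟨_, rfl⟩
  have hs : s ∈ W := by
    rw [hsd]
    exact mul_mem (pow_mem hw' K) (pow_mem hv _)
  have hsX : XO (s (Sum.inr ())) (K : ℤ) := by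
    have h1 := (hk.pow K).mul (hvX.pow (k * K))
    have e : (K : ℤ) * ((k : ℤ) + 1) + ((k * K : ℕ) : ℤ) * (-1) = K := by
      push_cast
      ring
    rw [e] at h1
    rw [hsd]
    exact h1
  obtain ⟨u, hu, hu1⟩ := hDns ((s (Sum.inr ()))⁻¹ * f)
  have hsu : s * u ∈ W := mul_mem hs hu
  rw [hWd, reix_swap] at hsu
  refine ⟨_, hsu, fun m hm => ?_⟩
  change ((s * u) (Sum.inr ())).coeff m = f.coeff m
  have e : (s * u) (Sum.inr ()) = f + s (Sum.inr ()) * (u (Sum.inr ()) -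
      (s (Sum.inr ()))⁻¹ * f) := by
    rw [Pi.mul_apply, mul_sub, ← mul_assoc, mul_inv_cancel₀ hsX.ne, one_mul]
    ring
  have h3 : (s (Sum.inr ()) * (u (Sum.inr ()) - (s (Sum.inr ()))⁻¹ * f)).coeff m = 0 := by
    refine mul_low (a := K) (b := 0) hsX.1 (fun l hl => ?_) m (by omega)
    rw [HahnSeries.coeff_sub, hu1 l hl, sub_self]
  rw [e, HahnSeries.coeff_add, h3, add_zero]

end field

section nil

variable {A κ : Type} [CommRing A] [Field κ] [Algebra κ A]

/-- The elements of the base change are images of elements of `P`. -/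
theorem lift_bc (hKBC : Stmt_KBC) {I : Type} (r : A →ₐ[κ] κ) {P : Subalgebra A (KK I A)}
    {x : KK I κ} (hx : x ∈ bc (r : A →+* κ) P) : ∃ p ∈ P, kmap (r : A →+* κ) p = x := by
  have h1 : x ∈ Subalgebra.toSubmodule (bc (r : A →+* κ) P) := hx
  rw [hKBC.1] at h1
  clear hx
  induction h1 using Submodule.span_induction with
  | mem x hx => exact hx
  | zero => exact ⟨0, zero_mem P, map_zero _⟩
  | add x y _ _ hx hy =>
    obtain ⟨p, hp, rfl⟩ := hx
    obtain ⟨q, hq, rfl⟩ := hy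
    exact ⟨p + q, add_mem hp hq, map_add _ _ _⟩
  | smul c x _ hx =>
    obtain ⟨p, hp, rfl⟩ := hx
    refine ⟨algebraMap κ A c • p, P.smul_mem hp _, ?_⟩
    rw [kmap_smul]
    congr 1
    exact r.commutes c

theorem coeff_comb {I : Type} (i : I) (s : Finset ℤ) (c : ℤ → A) (w : ℤ → KK I A) (l : ℤ) :
    ((∑ m ∈ s, c m • w m) i).coeff l = ∑ m ∈ s, c m * ((w m) i).coeff l := by
  rw [Finset.sum_apply, HahnSeries.coeff_sum]
  refine Finset.sum_congr rfl fun m _ => ?_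
  rw [Pi.smul_apply, HahnSeries.coeff_smul, smul_eq_mul]

/-- Density modulo powers of an ideal. -/
theorem pow_dn {I : Type} (i : I) (J : Ideal A) {P : Subalgebra A (KK I A)}
    (h1 : ∀ (f : LaurentSeries A) (M : ℤ), ∃ w ∈ P, ∀ m < M,
      (w i).coeff m - f.coeff m ∈ J) (k : ℕ) (f : LaurentSeries A) (M : ℤ) :
    ∃ w ∈ P, ∀ m < M, (w i).coeff m - f.coeff m ∈ J ^ k := by
  induction k with
  | zero => exact ⟨0, zero_mem P, fun m _ => by rw [pow_zero, Ideal.one_eq_top]; trivial⟩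
  | succ k ih =>
    obtain ⟨w, hw, hw1⟩ := ih
    choose u hu hu1 using fun m : ℤ => h1 (HahnSeries.single m 1) M
    obtain ⟨a, ha⟩ := exists_low (w i - f)
    refine ⟨w - ∑ m ∈ Finset.Ico (-(a : ℤ)) M, ((w i).coeff m - f.coeff m) • u m,
      sub_mem hw (sum_mem fun m _ => P.smul_mem (hu m) _), fun l hl => ?_⟩
    rw [Pi.sub_apply, HahnSeries.coeff_sub, coeff_comb]
    have e : (w i).coeff l - f.coeff l = ∑ m ∈ Finset.Ico (-(a : ℤ)) M,
        ((w i).coeff m - f.coeff m) * (HahnSeries.single m (1 : A)).coeff l := by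
      by_cases hla : -(a : ℤ) ≤ l
      · rw [Finset.sum_eq_single l]
        · rw [HahnSeries.coeff_single_same, mul_one]
        · intro m _ hm
          rw [HahnSeries.coeff_single_of_ne (Ne.symm hm), mul_zero]
        · intro h
          exact absurd (Finset.mem_Ico.2 ⟨hla, hl⟩) h
      · rw [Finset.sum_eq_zero]
        · rw [← HahnSeries.coeff_sub]
          exact ha l (by omega)
        · intro m hm
          rw [Finset.mem_Ico] at hm
          rw [HahnSeries.coeff_single_of_ne (by omega), mul_zero]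
    have e2 : (w i).coeff l - ∑ m ∈ Finset.Ico (-(a : ℤ)) M,
        ((w i).coeff m - f.coeff m) * ((u m) i).coeff l - f.coeff l =
        - ∑ m ∈ Finset.Ico (-(a : ℤ)) M, ((w i).coeff m - f.coeff m) *
          (((u m) i).coeff l - (HahnSeries.single m (1 : A)).coeff l) := by
      simp only [mul_sub, Finset.sum_sub_distrib]
      rw [← e]
      ring
    rw [e2]
    refine neg_mem (sum_mem fun m hm => ?_)
    rw [Finset.mem_Ico] at hm
    rw [pow_succ]
    exact Ideal.mul_mem_mul (hw1 m hm.2) (hu1 m l hl)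

end nil

end TDN

theorem t_TDN (hMCB : Stmt_MCB) (hREM : Stmt_REM) (hKAU : Stmt_KAU) (hKNZ : Stmt_KNZ)
    (hKBC : Stmt_KBC) : Stmt_TDN := by
  intro A κ _ _ _ r hn h P hP hD
  obtain ⟨n, hn⟩ := hn
  have hP' : IsKr h (bc (r : A →+* κ) P) := (hKBC.2.2.2 hP (r : A →+* κ)).1
  have hD' : Dn (bc (r : A →+* κ) P) := ((hMCB.1 hP hD).2 (r : A →+* κ)).1
  have h1 : ∀ (f : LaurentSeries A) (M : ℤ), ∃ w ∈ P, ∀ m < M,
      (w (Sum.inl ())).coeff m - f.coeff m ∈ RingHom.ker r := by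
    intro f M
    obtain ⟨x, hx, hx1⟩ := TDN.field_dn hMCB hREM hKAU hKNZ hKBC hP' hD'
      (lmap (r : A →+* κ) f) M
    obtain ⟨p, hp, rfl⟩ := TDN.lift_bc hKBC r hx
    refine ⟨p, hp, fun m hm => ?_⟩
    have h2 := hx1 m hm
    rw [kmap_apply, lmap_coeff, lmap_coeff] at h2
    rw [RingHom.mem_ker, map_sub, sub_eq_zero]
    exact h2
  intro f M
  obtain ⟨w, hw, hw1⟩ := TDN.pow_dn (Sum.inl ()) (RingHom.ker r) h1 n (f ()) M
  refine ⟨fun i => w (Equiv.sumComm Unit Unit i), ?_, fun j m hm => ?_⟩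
  · change (fun i => w (Equiv.sumComm Unit Unit ((Equiv.sumComm Unit Unit).symm i))) ∈ P
    simpa only [Equiv.apply_symm_apply] using hw
  · have h2 := hw1 m hm
    rw [hn] at h2
    have h3 : (w (Sum.inl ())).coeff m - (f ()).coeff m = 0 := h2
    exact sub_eq_zero.1 h3

end Pool.Agent.MG.G0


end

section

/-!
# TLC: the chart of a localization
-/

open TensorProduct

namespace Pool.Agent.MG.G0

namespace TLC

section

variable {B R S : Type} [CommRing B] [CommRing R] [CommRing S] [Algebra B R] [Algebra B S]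
  [Algebra R S] [IsScalarTower B R S]

/-- The extension of a derivation to a localization. -/
theorem exists_ext (M : Submonoid R) [IsLocalization M S] (D : Derivation B R R) :
    ∃ E : Derivation B S S, ∀ f : R, E (algebraMap R S f) = algebraMap R S (D f) := by
  have : Algebra.FormallyEtale R S := Algebra.FormallyEtale.of_isLocalization M
  let L : Ω[R⁄B] →ₗ[R] S := (Algebra.linearMap R S).comp D.liftKaehlerDifferential
  let L' : S ⊗[R] Ω[R⁄B] →ₗ[S] S := LinearMap.liftBaseChange S L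
  let e := KaehlerDifferential.tensorKaehlerEquivOfFormallyEtale B R S
  refine ⟨(L'.comp e.symm.toLinearMap).compDer (KaehlerDifferential.D B S), fun f => ?_⟩
  show L' (e.symm (KaehlerDifferential.D B S (algebraMap R S f))) = _
  rw [KaehlerDifferential.tensorKaehlerEquivOfFormallyEtale_symm_D_algebraMap]
  show LinearMap.liftBaseChange S L ((1 : S) ⊗ₜ KaehlerDifferential.D B R f) = _
  rw [LinearMap.liftBaseChange_tmul, one_smul]
  show Algebra.linearMap R S (D.liftKaehlerDifferential (KaehlerDifferential.D B R f)) = _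
  rw [Derivation.liftKaehlerDifferential_comp_D, Algebra.linearMap_apply]

/-- Derivations of a localization that agree on the ring are equal. -/
theorem ext_der (M : Submonoid R) [IsLocalization M S] {N : Type} [AddCommGroup N] [Module B N]
    [Module S N] [IsScalarTower B S N] (d₁ d₂ : Derivation B S N)
    (h : ∀ f : R, d₁ (algebraMap R S f) = d₂ (algebraMap R S f)) (s : S) : d₁ s = d₂ s := by
  obtain ⟨⟨r, m⟩, hs⟩ := IsLocalization.surj M s
  dsimp only at hs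
  have h1 := congrArg d₁ hs
  have h2 := congrArg d₂ hs
  rw [Derivation.leibniz] at h1 h2
  rw [h (m : R), h r, ← h2] at h1
  have h3 : algebraMap R S (m : R) • d₁ s = algebraMap R S (m : R) • d₂ s :=
    add_left_cancel h1
  exact ((IsLocalization.map_units S m).smul_left_cancel).mp h3

end

end TLC

theorem t_TLC : Stmt_TLC := by
  intro B R S _ _ _ _ _ _ _ M _ D g hex hu
  obtain ⟨E, hE⟩ := TLC.exists_ext (B := B) (S := S) M D
  obtain ⟨v, hv⟩ := hu.exists_left_inv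
  have hform : ∀ f : R, algebraMap R S (D f) • KaehlerDifferential.D B S (algebraMap R S g) =
      algebraMap R S (D g) • KaehlerDifferential.D B S (algebraMap R S f) := by
    intro f
    have h := congrArg (KaehlerDifferential.map B B R S) (hex f g)
    rw [map_smul, map_smul, KaehlerDifferential.map_D, KaehlerDifferential.map_D] at h
    rw [algebraMap_smul, algebraMap_smul]
    exact h
  have hΔ : ∀ f : R, (v • E) (algebraMap R S f) = v * algebraMap R S (D f) := by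
    intro f
    rw [Derivation.smul_apply, hE, smul_eq_mul]
  refine ⟨v • E, fun f => ?_, ⟨?_, ?_⟩⟩
  · rw [hΔ, ← mul_assoc, mul_comm (algebraMap R S (D g)) v, hv, one_mul]
  · rw [hΔ, hv]
  · intro f
    let d₂ : Derivation B S (Ω[S⁄B]) :=
      (LinearMap.toSpanSingleton S (Ω[S⁄B])
        (KaehlerDifferential.D B S (algebraMap R S g))).compDer (v • E)
    have h := TLC.ext_der M (KaehlerDifferential.D B S) d₂ (fun f => ?_) f
    · exact h
    · show KaehlerDifferential.D B S (algebraMap R S f) =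
        (v • E) (algebraMap R S f) • KaehlerDifferential.D B S (algebraMap R S g)
      rw [hΔ, mul_smul, hform, ← mul_smul, hv, one_smul]

end Pool.Agent.MG.G0


end

section

/-!
# TZU: units modulo nilpotent elements
-/

namespace Pool.Agent.MG.G0

namespace TZU

/-- The powers of a series with coefficients in an ideal. -/
theorem pow_coeff_mem {A : Type} [CommRing A] (J : Ideal A) (f : LaurentSeries A)
    (hf : ∀ m, f.coeff m ∈ J) (n : ℕ) : ∀ m, (f ^ n).coeff m ∈ J ^ n := by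
  induction n with
  | zero =>
    intro m
    rw [pow_zero J, Ideal.one_eq_top]
    exact Submodule.mem_top
  | succ n ih =>
    intro m
    rw [pow_succ f, HahnSeries.coeff_mul, pow_succ J]
    exact Submodule.sum_mem _ fun ij _ => Ideal.mul_mem_mul (ih ij.1) (hf ij.2)

/-- A series with coefficients in a nilpotent ideal is nilpotent. -/
theorem pow_eq_zero {A : Type} [CommRing A] {J : Ideal A} {n : ℕ} (hJ : J ^ n = ⊥)
    (f : LaurentSeries A) (hf : ∀ m, f.coeff m ∈ J) : f ^ n = 0 := by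
  ext m
  have h := pow_coeff_mem J f hf n m
  rw [hJ, Ideal.mem_bot] at h
  rw [h, HahnSeries.coeff_zero]

/-- The kernel of `lmap`. -/
theorem pow_eq_zero_of_lmap {A B : Type} [CommRing A] [CommRing B] (r : A →+* B) {n : ℕ}
    (hJ : RingHom.ker r ^ n = ⊥) (f : LaurentSeries A) (hf : lmap r f = 0) : f ^ n = 0 := by
  refine pow_eq_zero hJ f fun m => ?_
  rw [RingHom.mem_ker, ← lmap_coeff, hf, HahnSeries.coeff_zero]

end TZU

theorem t_TZU : Stmt_TZU := by
  rintro A κ _ _ _ r ⟨n, hn⟩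
  have hn' : RingHom.ker (r : A →+* κ) ^ n = ⊥ := hn
  have hsec : ∀ c : κ, (r : A →+* κ) (algebraMap κ A c) = c := fun c => by
    change r (algebraMap κ A c) = c
    rw [AlgHom.commutes]
    rfl
  have h2 : ∀ {I : Type} (f : KK I A), (∀ i, kmap (r : A →+* κ) f i ≠ 0) → IsUnit f := by
    intro I f hf
    rw [Pi.isUnit_iff]
    intro i
    have hi := hf i
    rw [kmap_apply] at hi
    obtain ⟨g, hg⟩ := (isUnit_iff_ne_zero.2 hi).exists_right_inv
    have hlift : lmap (r : A →+* κ) (lmap (algebraMap κ A) g) = g := by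
      ext m
      rw [lmap_coeff, lmap_coeff, hsec]
    have h0 : (f i * lmap (algebraMap κ A) g - 1) ^ n = 0 := by
      refine TZU.pow_eq_zero_of_lmap (r : A →+* κ) hn' _ ?_
      rw [map_sub, map_mul, hlift, hg, map_one, sub_self]
    have hu : IsUnit (f i * lmap (algebraMap κ A) g) := by
      have h := IsNilpotent.isUnit_one_add (r := f i * lmap (algebraMap κ A) g - 1) ⟨n, h0⟩
      rwa [add_sub_cancel] at h
    exact isUnit_of_mul_isUnit_left hu
  refine ⟨fun x hx => ?_, h2, fun {I} _ f _ hf => h2 f fun i hi => ?_, fun {I} P f hf => ?_⟩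
  · have h0 : (x * algebraMap κ A (r x)⁻¹ - 1) ^ n = 0 := by
      have h : (x * algebraMap κ A (r x)⁻¹ - 1) ^ n ∈ RingHom.ker (r : A →+* κ) ^ n := by
        refine Ideal.pow_mem_pow ?_ n
        rw [RingHom.mem_ker, map_sub, map_mul, hsec, map_one]
        change r x * (r x)⁻¹ - 1 = 0
        rw [mul_inv_cancel₀ hx, sub_self]
      rwa [hn', Ideal.mem_bot] at h
    have hu : IsUnit (x * algebraMap κ A (r x)⁻¹) := by
      have h := IsNilpotent.isUnit_one_add (r := x * algebraMap κ A (r x)⁻¹ - 1) ⟨n, h0⟩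
      rwa [add_sub_cancel] at h
    exact isUnit_of_mul_isUnit_left hu
  · refine hf i ?_
    have h := congrArg (fun g : LaurentSeries κ => g.coeff 0) hi
    rw [kmap_apply] at h
    exact h
  · have h0 : (f - 1) ^ n = 0 := by
      refine Subtype.ext ?_
      funext i
      have h : lmap (r : A →+* κ) ((f : KK I A) i - 1) = 0 := by
        rw [map_sub, map_one, ← kmap_apply, hf, Pi.one_apply, sub_self]
      exact TZU.pow_eq_zero_of_lmap (r : A →+* κ) hn' _ h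
    have h := IsNilpotent.isUnit_one_add (r := f - 1) ⟨n, h0⟩
    rwa [add_sub_cancel] at h

end Pool.Agent.MG.G0


end
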