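import Mathlib
import Pool.Agent.KDM.C02
import Pool.Agent.KDM.C06
import Pool.Agent.KDM.C15
import Pool.Agent.KDM.C22
import Pool.Agent.KDM.C24

/-! Parts: MG.W.WSM, MG.G0.AID, MG.KX.DSM, MG.G0.PFB, MG.G0.GRX, MG.G0.MLG, MG.G0.TG.TGN -/

section

/-!
# WSM: smoothness of Weierstrass curves
-/

open CategoryTheory CategoryTheory.Limits AlgebraicGeometry TensorProduct

namespace Pool.Agent.MG.W

namespace WSM

section alg

variable {K : Type} [CommRing K]

/-- The presentation of a plane curve. -/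
noncomputable def pre (F : MvPolynomial (Fin 2) K) (j : Fin 2) :
    Algebra.PreSubmersivePresentation K (MvPolynomial (Fin 2) K ⧸ Ideal.span {F}) (Fin 2) Unit where
  __ := Algebra.Generators.naive (I := Ideal.span {F})
  relation := fun _ => F
  span_range_relation_eq_ker := by
    rw [Set.range_const]
    exact (Algebra.Generators.ker_naive _ _).symm
  map := fun _ => j
  map_inj := fun _ _ _ => rfl

theorem pre_jacobian (F : MvPolynomial (Fin 2) K) (j : Fin 2) :
    (pre F j).jacobian = Ideal.Quotient.mk (Ideal.span {F}) (MvPolynomial.pderiv j F) := by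
  rw [Algebra.PreSubmersivePresentation.jacobian_eq_jacobiMatrix_det, Matrix.det_unique,
    Algebra.PreSubmersivePresentation.jacobiMatrix_apply]
  rfl

/-- Plane curves are standard smooth of relative dimension one where a derivative is
invertible. -/
theorem std (F : MvPolynomial (Fin 2) K) (j : Fin 2) (T : Type) [CommRing T]
    [Algebra (MvPolynomial (Fin 2) K ⧸ Ideal.span {F}) T] [Algebra K T]
    [IsScalarTower K (MvPolynomial (Fin 2) K ⧸ Ideal.span {F}) T]
    [IsLocalization.Away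
      (Ideal.Quotient.mk (Ideal.span {F}) (MvPolynomial.pderiv j F)) T] :
    Algebra.IsStandardSmoothOfRelativeDimension 1 K T := by
  set g := Ideal.Quotient.mk (Ideal.span {F}) (MvPolynomial.pderiv j F) with hg
  have hΔ : IsUnit (algebraMap (MvPolynomial (Fin 2) K ⧸ Ideal.span {F}) T g) :=
    IsLocalization.Away.algebraMap_isUnit _
  let P : Algebra.SubmersivePresentation K T _ _ :=
    { toPreSubmersivePresentation :=
        .comp (.localizationAway T g) (pre F j),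
      jacobian_isUnit := by
        rw [Algebra.PreSubmersivePresentation.comp_jacobian_eq_jacobian_smul_jacobian,
          Algebra.PreSubmersivePresentation.localizationAway_jacobian, pre_jacobian, ← hg,
          Algebra.smul_def]
        exact hΔ.mul hΔ }
  exact ⟨_, _, _, inferInstance, P, by
      simp only [Algebra.PreSubmersivePresentation.dimension_comp_eq_dimension_add_dimension, P]
      simp [Algebra.Presentation.dimension]⟩

theorem loc (F : MvPolynomial (Fin 2) K)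
    (h : Ideal.span {Ideal.Quotient.mk (Ideal.span {F}) (MvPolynomial.pderiv 0 F),
      Ideal.Quotient.mk (Ideal.span {F}) (MvPolynomial.pderiv 1 F)} = ⊤) :
    SmoothOfRelativeDimension 1
      (spMap (algebraMap K (MvPolynomial (Fin 2) K ⧸ Ideal.span {F}))) := by
  refine (HasRingHomProperty.Spec_iff (P := @SmoothOfRelativeDimension 1)).2
    ⟨_, h, fun t ht => ?_⟩
  have key : ∀ j : Fin 2, t = Ideal.Quotient.mk (Ideal.span {F}) (MvPolynomial.pderiv j F) →
      RingHom.IsStandardSmoothOfRelativeDimension 1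
        ((algebraMap (MvPolynomial (Fin 2) K ⧸ Ideal.span {F}) (Localization.Away t)).comp
          (algebraMap K (MvPolynomial (Fin 2) K ⧸ Ideal.span {F}))) := by
    rintro j rfl
    rw [← IsScalarTower.algebraMap_eq, RingHom.isStandardSmoothOfRelativeDimension_algebraMap]
    exact std F j _
  rcases ht with rfl | ht
  · exact key 0 rfl
  · exact key 1 ht

theorem smooth_away (F : MvPolynomial (Fin 2) K) (j : Fin 2) :
    Smooth (spMap (algebraMap K (Localization.Away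
      (Ideal.Quotient.mk (Ideal.span {F}) (MvPolynomial.pderiv j F))))) := by
  refine (HasRingHomProperty.Spec_iff (P := @Smooth)).2 ?_
  have h := std F j (Localization.Away
    (Ideal.Quotient.mk (Ideal.span {F}) (MvPolynomial.pderiv j F)))
  rw [← RingHom.isStandardSmoothOfRelativeDimension_algebraMap] at h
  exact h.isStandardSmooth.smooth

end alg

section eqs

variable {K : Type} [CommRing K] (a b : K)

theorem d10 : Ideal.Quotient.mk (Ideal.span {eq1 K a b}) (MvPolynomial.pderiv 0 (eq1 K a b)) =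
    -(3 * x1 K a b ^ 2 + algebraMap K _ a) := by
  have h : MvPolynomial.pderiv 0 (eq1 K a b) =
      -(3 * MvPolynomial.X 0 ^ 2 + MvPolynomial.C a) := by
    simp [eq1, MvPolynomial.pderiv_X]
    ring
  rw [h, map_neg, map_add, map_mul, map_pow]
  rfl

theorem d11 : Ideal.Quotient.mk (Ideal.span {eq1 K a b}) (MvPolynomial.pderiv 1 (eq1 K a b)) =
    2 * y1 K a b := by
  have h : MvPolynomial.pderiv 1 (eq1 K a b) = 2 * MvPolynomial.X 1 := by
    simp [eq1, MvPolynomial.pderiv_X]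
  rw [h, map_mul]
  rfl

theorem d20 : Ideal.Quotient.mk (Ideal.span {eq2 K a b}) (MvPolynomial.pderiv 0 (eq2 K a b)) =
    -(4 * algebraMap K _ a * z2 K a b ^ 3 * t2 K a b ^ 2 +
      6 * algebraMap K _ b * z2 K a b ^ 5 * t2 K a b ^ 3) := by
  have h : MvPolynomial.pderiv 0 (eq2 K a b) =
      -(4 * MvPolynomial.C a * MvPolynomial.X 0 ^ 3 * MvPolynomial.X 1 ^ 2 +
        6 * MvPolynomial.C b * MvPolynomial.X 0 ^ 5 * MvPolynomial.X 1 ^ 3) := by
    simp [eq2, MvPolynomial.pderiv_X]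
    ring
  rw [h]
  simp only [map_neg, map_add, map_mul, map_pow]
  rfl

theorem d21 : Ideal.Quotient.mk (Ideal.span {eq2 K a b}) (MvPolynomial.pderiv 1 (eq2 K a b)) =
    1 - 2 * algebraMap K _ a * z2 K a b ^ 4 * t2 K a b -
      3 * algebraMap K _ b * z2 K a b ^ 6 * t2 K a b ^ 2 := by
  have h : MvPolynomial.pderiv 1 (eq2 K a b) =
      1 - 2 * MvPolynomial.C a * MvPolynomial.X 0 ^ 4 * MvPolynomial.X 1 -
        3 * MvPolynomial.C b * MvPolynomial.X 0 ^ 6 * MvPolynomial.X 1 ^ 2 := by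
    simp [eq2, MvPolynomial.pderiv_X]
    ring
  rw [h]
  simp only [map_sub, map_mul, map_pow, map_one]
  rfl

end eqs

section field

variable {K : Type} [Field K] (a b : K)

theorem span1 (h6 : (6 : K) ≠ 0) (hD : 4 * a ^ 3 + 27 * b ^ 2 ≠ 0) :
    Ideal.span {Ideal.Quotient.mk (Ideal.span {eq1 K a b}) (MvPolynomial.pderiv 0 (eq1 K a b)),
      Ideal.Quotient.mk (Ideal.span {eq1 K a b}) (MvPolynomial.pderiv 1 (eq1 K a b))} = ⊤ := by
  rw [Ideal.eq_top_iff_one, Ideal.mem_span_pair, d10, d11]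
  have h2 : (2 : K) ≠ 0 := by
    intro h
    apply h6
    rw [show (6 : K) = 2 * 3 by norm_num, h, zero_mul]
  have h := rel1 K a b
  have hi : algebraMap K (A1 K a b) ((2 * (4 * a ^ 3 + 27 * b ^ 2))⁻¹) *
      (2 * (4 * algebraMap K (A1 K a b) a ^ 3 + 27 * algebraMap K (A1 K a b) b ^ 2)) = 1 := by
    have h3 : (2 * (4 * algebraMap K (A1 K a b) a ^ 3 + 27 * algebraMap K (A1 K a b) b ^ 2)) =
        algebraMap K (A1 K a b) (2 * (4 * a ^ 3 + 27 * b ^ 2)) := by
      simp only [map_mul, map_add, map_pow, map_ofNat]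
    rw [h3, ← map_mul, inv_mul_cancel₀ (mul_ne_zero h2 hD), map_one]
  generalize algebraMap K (A1 K a b) ((2 * (4 * a ^ 3 + 27 * b ^ 2))⁻¹) = i at *
  generalize algebraMap K (A1 K a b) a = α at *
  generalize algebraMap K (A1 K a b) b = β at *
  generalize x1 K a b = x at *
  generalize y1 K a b = y at *
  refine ⟨-(2 * (6 * α * x ^ 2 - 9 * β * x + 4 * α ^ 2) * i), -((18 * α * x - 27 * β) * y * i), ?_⟩
  linear_combination (-2 * i * (18 * α * x - 27 * β)) * h + hi

theorem span2 (h6 : (6 : K) ≠ 0) (hD : 4 * a ^ 3 + 27 * b ^ 2 ≠ 0) :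
    Ideal.span {Ideal.Quotient.mk (Ideal.span {eq2 K a b}) (MvPolynomial.pderiv 0 (eq2 K a b)),
      Ideal.Quotient.mk (Ideal.span {eq2 K a b}) (MvPolynomial.pderiv 1 (eq2 K a b))} = ⊤ := by
  rw [Ideal.eq_top_iff_one, Ideal.mem_span_pair, d20, d21]
  have h2 : (2 : K) ≠ 0 := by
    intro h
    apply h6
    rw [show (6 : K) = 2 * 3 by norm_num, h, zero_mul]
  have h := rel2 K a b
  have hi : algebraMap K (A2 K a b) ((2 * (4 * a ^ 3 + 27 * b ^ 2))⁻¹) *
      (2 * (4 * algebraMap K (A2 K a b) a ^ 3 + 27 * algebraMap K (A2 K a b) b ^ 2)) = 1 := by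
    have h3 : (2 * (4 * algebraMap K (A2 K a b) a ^ 3 + 27 * algebraMap K (A2 K a b) b ^ 2)) =
        algebraMap K (A2 K a b) (2 * (4 * a ^ 3 + 27 * b ^ 2)) := by
      simp only [map_mul, map_add, map_pow, map_ofNat]
    rw [h3, ← map_mul, inv_mul_cancel₀ (mul_ne_zero h2 hD), map_one]
  generalize algebraMap K (A2 K a b) ((2 * (4 * a ^ 3 + 27 * b ^ 2))⁻¹) = i at *
  generalize algebraMap K (A2 K a b) a = α at *
  generalize algebraMap K (A2 K a b) b = β at *
  generalize z2 K a b = z at *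
  generalize t2 K a b = t at *
  refine ⟨-(i * z * (18 * β ^ 2 * (z ^ 2 * t) ^ 2 - 3 * α * β * (z ^ 2 * t) + 2 * α ^ 2) *
    (α + 2 * β * (z ^ 2 * t))),
    2 * i * (4 * α ^ 3 + 27 * β ^ 2 + 27 * β ^ 2 * (z ^ 2 * t) ^ 2 * (α + 2 * β * (z ^ 2 * t))) * t,
    ?_⟩
  linear_combination (2 * i * (4 * α ^ 3 + 27 * β ^ 2 +
    27 * β ^ 2 * (z ^ 2 * t) ^ 2 * (α + 2 * β * (z ^ 2 * t)))) * h + hi

end field

/-- A smooth open neighbourhood of a section. -/
theorem exists_open {K R : Type} [CommRing K] [CommRing R] [Algebra K R] {X : Scheme.{0}}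
    (π : X ⟶ Sp K) (j : Sp R ⟶ X) [IsOpenImmersion j] (hj : j ≫ π = spMap (algebraMap K R))
    (g : R) (hg : Smooth (spMap (algebraMap K (Localization.Away g)))) (φ : R →+* K)
    (hφ : IsUnit (φ g)) (s : Sp K) : ∃ U : X.Opens, (spMap φ ≫ j) s ∈ U ∧ Smooth (U.ι ≫ π) := by
  let l : Localization.Away g →+* K := IsLocalization.Away.lift g hφ
  have hl : l.comp (algebraMap R (Localization.Away g)) = φ :=
    IsLocalization.Away.lift_comp (x := g) hφ
  let i : Sp (Localization.Away g) ⟶ X := spMap (algebraMap R (Localization.Away g)) ≫ j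
  have hi : IsOpenImmersion i := inferInstance
  have h1 : spMap φ ≫ j = spMap l ≫ i := by
    have : spMap φ = spMap l ≫ spMap (algebraMap R (Localization.Away g)) := by
      rw [← Spec.map_comp]
      congr 1
      rw [← hl]
      rfl
    rw [this, Category.assoc]
  refine ⟨i.opensRange, ⟨(spMap l) s, ?_⟩, ?_⟩
  · rw [h1]
    rfl
  · rw [← IsOpenImmersion.isoOfRangeEq_inv_fac i (Scheme.Opens.ι _)
        (congr_arg TopologicalSpace.Opens.carrier i.opensRange.opensRange_ι.symm), Category.assoc,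
        MorphismProperty.cancel_left_of_respectsIso @Smooth]
    have h2 : i ≫ π = spMap (algebraMap K (Localization.Away g)) := by
      change (spMap (algebraMap R (Localization.Away g)) ≫ j) ≫ π = _
      rw [Category.assoc, hj, ← Spec.map_comp]
      rfl
    rw [h2]
    exact hg

end WSM

open _root_.Pool.Agent.MG.W.WSM

theorem t_WSM : Stmt_WSM := by
  refine ⟨?_, ?_⟩
  · intro K _ a b h6 hD
    refine two_source (@SmoothOfRelativeDimension 1) (WX.in1 K a b) (WX.in2 K a b)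
      (glue2_surj _ _) _ ?_ ?_
    · rw [WX.in1_pr]
      exact loc _ (span1 a b h6 hD)
    · rw [WX.in2_pr]
      exact loc _ (span2 a b h6 hD)
  · intro m K _ P h6
    refine ⟨fun s => ?_, fun i hy s => ?_⟩
    · exact exists_open (WX.pr K P.a P.b) (WX.in2 K P.a P.b) (WX.in2_pr K P.a P.b) _
        (smooth_away (eq2 K P.a P.b) 1) (inf2 K P.a P.b) (by
          rw [d21]
          simp only [map_sub, map_mul, map_pow, map_one]
          unfold inf2
          rw [lift2_z]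
          simp) s
    · exact exists_open (WX.pr K P.a P.b) (WX.in1 K P.a P.b) (WX.in1_pr K P.a P.b) _
        (smooth_away (eq1 K P.a P.b) 1) (pt1 P i) (by
          rw [d11, map_mul]
          unfold pt1
          rw [lift1_y, map_ofNat]
          refine (mul_ne_zero ?_ hy).isUnit
          intro h
          apply h6
          rw [show (6 : K) = 2 * 3 by norm_num, h, zero_mul]) s

end Pool.Agent.MG.W


end

section

/-!
# AID (ADD1): the powers of the ideal of a formal point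
-/

open TensorProduct

namespace Pool.Agent.MG.G0

namespace AID

section

variable {A R : Type} [CommRing A] [CommRing R] [Algebra A R] (h : R →ₐ[A] PowerSeries A)

/-- The value at a formal point. -/
noncomputable def ev (r : R) : A := PowerSeries.constantCoeff (h r)

/-- The ideal of a formal point. -/
noncomputable def idl : Ideal R :=
  RingHom.ker ((PowerSeries.constantCoeff (R := A)).comp (h : R →+* PowerSeries A))

theorem mem_idl {r : R} : r ∈ idl h ↔ ev h r = 0 := Iff.rfl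

/-- `r - r(p)` -/
noncomputable def er (r : R) : R := r - algebraMap A R (ev h r)

theorem ev_algebraMap (a : A) : ev h (algebraMap A R a) = a := by
  rw [ev, AlgHom.commutes, PowerSeries.algebraMap_apply]
  simp

theorem ev_sub (r s : R) : ev h (r - s) = ev h r - ev h s := by
  rw [ev, map_sub, map_sub]
  rfl

theorem ev_add (r s : R) : ev h (r + s) = ev h r + ev h s := by
  rw [ev, map_add, map_add]
  rfl

theorem ev_mul (r s : R) : ev h (r * s) = ev h r * ev h s := by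
  rw [ev, map_mul, map_mul]
  rfl

theorem er_mem (r : R) : er h r ∈ idl h := by
  rw [mem_idl, er, ev_sub, ev_algebraMap, sub_self]

theorem er_of_mem {r : R} (hr : r ∈ idl h) : er h r = r := by
  rw [er, (mem_idl h).1 hr, map_zero, sub_zero]

theorem mul_mem_sq {r s : R} (hr : r ∈ idl h) (hs : s ∈ idl h) : r * s ∈ idl h ^ 2 := by
  rw [pow_two]
  exact Ideal.mul_mem_mul hr hs

theorem coeff_one_mul (f g : PowerSeries A) : PowerSeries.coeff 1 (f * g) =
    PowerSeries.constantCoeff f * PowerSeries.coeff 1 g +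
      PowerSeries.constantCoeff g * PowerSeries.coeff 1 f := by
  rw [PowerSeries.coeff_mul]
  simp [Finset.Nat.antidiagonal_succ]
  ring

theorem coeff_one_algebraMap (a : A) :
    PowerSeries.coeff 1 (h (algebraMap A R a)) = 0 := by
  rw [AlgHom.commutes, PowerSeries.algebraMap_apply]
  simp

theorem eps_expand {n : ℕ} {D : Fin n → Derivation A R R} {g : Fin n → R} (hS : Stmt_SCO)
    (hc : IsCert A R D g) (r : R) :
    PowerSeries.coeff 1 (h r) = ∑ i, ev h (D i r) * PowerSeries.coeff 1 (h (g i)) := by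
  let _ : Algebra R A := RingHom.toAlgebra
    ((PowerSeries.constantCoeff (R := A)).comp (h : R →+* PowerSeries A))
  have hsm : ∀ (r : R) (a : A), r • a = ev h r * a := fun r a => rfl
  have _ : IsScalarTower A R A := ⟨fun a r b => by
    rw [hsm, hsm, Algebra.smul_def, ev_mul, ev_algebraMap, smul_eq_mul, mul_assoc]⟩
  let E : Derivation A R A := Derivation.mk'
    ((PowerSeries.coeff (R := A) 1).comp h.toLinearMap) (fun r s => by
      rw [hsm, hsm]
      change PowerSeries.coeff 1 (h (r * s)) = _ * PowerSeries.coeff 1 (h s) +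
        _ * PowerSeries.coeff 1 (h r)
      rw [map_mul, coeff_one_mul]
      rfl)
  exact (hS.1 D g hc).2 A E r

/-- `r ↦ r - r(p)` as a derivation. -/
noncomputable def delta : Derivation A R (R ⧸ idl h ^ 2) := Derivation.mk'
    { toFun := fun r => Ideal.Quotient.mk (idl h ^ 2) (er h r)
      map_add' := fun r s => by
        rw [← map_add]
        congr 1
        rw [er, er, er, ev_add, map_add]
        ring
      map_smul' := fun a r => by
        rw [RingHom.id_apply, Algebra.smul_def a (Ideal.Quotient.mk (idl h ^ 2) (er h r))]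
        change _ = Ideal.Quotient.mk (idl h ^ 2) (algebraMap A R a) * _
        rw [← map_mul]
        congr 1
        rw [er, er, Algebra.smul_def, ev_mul, ev_algebraMap, map_mul]
        ring }
    (fun r s => by
      change Ideal.Quotient.mk (idl h ^ 2) (er h (r * s)) =
        Ideal.Quotient.mk (idl h ^ 2) (r * er h s) + Ideal.Quotient.mk (idl h ^ 2) (s * er h r)
      rw [← map_add, Ideal.Quotient.mk_eq_mk_iff_sub_mem]
      have e : er h (r * s) - (r * er h s + s * er h r) = - (er h r * er h s) := by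
        rw [er, er, er, ev_mul, map_mul]
        ring
      rw [e]
      exact neg_mem (mul_mem_sq h (er_mem h r) (er_mem h s)))

theorem delta_apply (r : R) : delta h r = Ideal.Quotient.mk (idl h ^ 2) (er h r) := rfl

theorem cross {n : ℕ} {D : Fin n → Derivation A R R} {g : Fin n → R}
    (hc : IsCert A R D g) (i : Fin n) (f k : R) :
    D i f * er h k - D i k * er h f ∈ idl h ^ 2 := by
  have h1 := congrArg (delta h).liftKaehlerDifferential (hc.cross i f k)
  rw [map_smul, map_smul, Derivation.liftKaehlerDifferential_comp_D,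
    Derivation.liftKaehlerDifferential_comp_D] at h1
  exact (Ideal.Quotient.mk_eq_mk_iff_sub_mem _ _).1 h1

theorem key (hS : Stmt_SCO) (hc : SmC A R) (x r : R) :
    PowerSeries.coeff 1 (h x) • er h r - PowerSeries.coeff 1 (h r) • er h x ∈ idl h ^ 2 := by
  obtain ⟨⟨n, D, g, hD⟩, -⟩ := hS.2 hc
  have e1 := eps_expand h hS hD x
  have e2 := eps_expand h hS hD r
  have e3 : PowerSeries.coeff 1 (h x) • er h r - PowerSeries.coeff 1 (h r) • er h x =
      ∑ i, algebraMap A R (PowerSeries.coeff 1 (h (g i))) *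
        ((D i x * er h r - D i r * er h x) - er h (D i x) * er h r + er h (D i r) * er h x) := by
    rw [e1, e2, Finset.sum_smul, Finset.sum_smul, ← Finset.sum_sub_distrib]
    refine Finset.sum_congr rfl fun i _ => ?_
    rw [Algebra.smul_def, Algebra.smul_def, map_mul, map_mul]
    have e4 : er h (D i x) = D i x - algebraMap A R (ev h (D i x)) := rfl
    have e5 : er h (D i r) = D i r - algebraMap A R (ev h (D i r)) := rfl
    rw [e4, e5]
    ring
  rw [e3]
  refine Ideal.sum_mem _ fun i _ => Ideal.mul_mem_left _ _ ?_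
  exact add_mem (sub_mem (cross h hD i x r) (mul_mem_sq h (er_mem h _) (er_mem h _)))
    (mul_mem_sq h (er_mem h _) (er_mem h _))

variable {x : R} (hx : IsUnit (PowerSeries.coeff 1 (h x)))

include hx in
theorem one_step (hS : Stmt_SCO) (hc : SmC A R) {r : R} (hr : r ∈ idl h) :
    ∃ a : A, r - a • er h x ∈ idl h ^ 2 := by
  obtain ⟨w, hw⟩ := hx.exists_left_inv
  refine ⟨w * PowerSeries.coeff 1 (h r), ?_⟩
  have h1 := Ideal.mul_mem_left _ (algebraMap A R w) (key h hS hc x r)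
  rw [← Algebra.smul_def, smul_sub, smul_smul, smul_smul, hw, one_smul, er_of_mem h hr] at h1
  exact h1

include hx in
theorem step (hS : Stmt_SCO) (hc : SmC A R) (n : ℕ) (r : R) (hr : r ∈ idl h ^ n) :
    ∃ a : A, r - a • er h x ^ n ∈ idl h ^ (n + 1) := by
  induction n generalizing r with
  | zero =>
    refine ⟨ev h r, ?_⟩
    rw [zero_add, pow_one, pow_zero, ← Algebra.algebraMap_eq_smul_one]
    exact er_mem h r
  | succ n ih =>
    rw [pow_succ] at hr
    refine Submodule.mul_induction_on hr ?_ ?_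
    · intro s hs t ht
      obtain ⟨a, ha⟩ := ih s hs
      obtain ⟨b, hb⟩ := one_step h hx hS hc ht
      refine ⟨a * b, ?_⟩
      have e : s * t - (a * b) • er h x ^ (n + 1) =
          (s - a • er h x ^ n) * t + (a • er h x ^ n) * (t - b • er h x) := by
        simp only [Algebra.smul_def, map_mul]
        ring
      rw [e]
      refine add_mem ?_ ?_
      · rw [pow_succ (idl h) (n + 1)]
        exact Ideal.mul_mem_mul ha ht
      · have e2 : n + 1 + 1 = n + 2 := rfl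
        rw [e2, pow_add]
        refine Ideal.mul_mem_mul ?_ hb
        rw [Algebra.smul_def]
        exact Ideal.mul_mem_left _ _ (Ideal.pow_mem_pow (er_mem h x) n)
    · rintro s t ⟨a, ha⟩ ⟨b, hb⟩
      refine ⟨a + b, ?_⟩
      have e : s + t - (a + b) • er h x ^ (n + 1) =
          (s - a • er h x ^ (n + 1)) + (t - b • er h x ^ (n + 1)) := by
        rw [add_smul]
        abel
      rw [e]
      exact add_mem ha hb

theorem coeff_of_mem (n : ℕ) (r : R) (hr : r ∈ idl h ^ n) :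
    ∀ m < n, PowerSeries.coeff m (h r) = 0 := by
  rw [← PowerSeries.X_pow_dvd_iff, ← Ideal.mem_span_singleton, ← Ideal.span_singleton_pow]
  have h1 : (idl h).map (h : R →+* PowerSeries A) ≤ Ideal.span {PowerSeries.X} := by
    rw [Ideal.map_le_iff_le_comap]
    intro s hs
    rw [Ideal.mem_comap, Ideal.mem_span_singleton, PowerSeries.X_dvd_iff]
    exact hs
  have h2 : h r ∈ ((idl h) ^ n).map (h : R →+* PowerSeries A) := Ideal.mem_map_of_mem _ hr
  rw [Ideal.map_pow] at h2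
  exact Ideal.pow_right_mono h1 n h2

theorem coeff_er_pow (x : R) (n : ℕ) :
    (∀ m < n, PowerSeries.coeff m (h (er h x ^ n)) = 0) ∧
      PowerSeries.coeff n (h (er h x ^ n)) = PowerSeries.coeff 1 (h x) ^ n := by
  refine ⟨coeff_of_mem h n _ (Ideal.pow_mem_pow (er_mem h x) n), ?_⟩
  obtain ⟨s, hs⟩ : PowerSeries.X ∣ h (er h x) := by
    rw [PowerSeries.X_dvd_iff]
    exact er_mem h x
  have h1 : PowerSeries.coeff 1 (h (er h x)) = PowerSeries.coeff 1 (h x) := by
    rw [er, map_sub, map_sub, coeff_one_algebraMap, sub_zero]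
  have h2 : PowerSeries.coeff 1 (PowerSeries.X * s) = PowerSeries.constantCoeff s := by
    have := PowerSeries.coeff_succ_X_mul 0 s
    rwa [zero_add, PowerSeries.coeff_zero_eq_constantCoeff_apply] at this
  rw [map_pow, hs, mul_pow, PowerSeries.coeff_X_pow_mul', if_pos le_rfl, Nat.sub_self,
    PowerSeries.coeff_zero_eq_constantCoeff_apply, map_pow, ← h2, ← hs, h1]

include hx in
theorem mem_of_coeff (hS : Stmt_SCO) (hc : SmC A R) (n : ℕ) (r : R)
    (hr : ∀ m < n, PowerSeries.coeff m (h r) = 0) : r ∈ idl h ^ n := by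
  induction n with
  | zero =>
    rw [pow_zero, Ideal.one_eq_top]
    exact Submodule.mem_top
  | succ n ih =>
    have h1 := ih fun m hm => hr m (by omega)
    obtain ⟨a, ha⟩ := step h hx hS hc n r h1
    have h2 := coeff_of_mem h (n + 1) _ ha n (by omega)
    rw [map_sub, map_sub, map_smul, map_smul, hr n (by omega), (coeff_er_pow h x n).2, zero_sub,
      neg_eq_zero, smul_eq_mul] at h2
    have h3 : a = 0 := ((hx.pow n).mul_left_eq_zero).1 h2
    rw [h3, zero_smul, sub_zero] at ha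
    exact ha

include hx in
theorem approx (n : ℕ) (f : PowerSeries A) :
    ∃ r : R, ∀ m < n, PowerSeries.coeff m (h r) = PowerSeries.coeff m f := by
  induction n with
  | zero => exact ⟨0, fun m hm => absurd hm (Nat.not_lt_zero m)⟩
  | succ n ih =>
    obtain ⟨r, hr⟩ := ih
    obtain ⟨w, hw⟩ := (hx.pow n).exists_left_inv
    refine ⟨r + ((PowerSeries.coeff n f - PowerSeries.coeff n (h r)) * w) • er h x ^ n,
      fun m hm => ?_⟩
    rw [map_add, map_add, map_smul, map_smul, smul_eq_mul]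
    rcases Nat.lt_or_ge m n with h1 | h1
    · rw [hr m h1, (coeff_er_pow h x n).1 m h1, mul_zero, add_zero]
    · have h2 : m = n := by omega
      rw [h2, (coeff_er_pow h x n).2, mul_assoc, hw, mul_one]
      ring

/-- The value as a homomorphism of algebras. -/
noncomputable def evA : R →ₐ[A] A :=
  { (PowerSeries.constantCoeff (R := A)).comp (h : R →+* PowerSeries A) with
    commutes' := fun a => ev_algebraMap h a }

theorem fg [Algebra.FinitePresentation A R] : (idl h).FG := by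
  have h1 : Function.Surjective (evA h) := fun a => ⟨algebraMap A R a, ev_algebraMap h a⟩
  exact Algebra.FinitePresentation.ker_fG_of_surjective (evA h) h1

end

end AID

theorem t_AID (hSCO : Stmt_SCO) (hKFG : Stmt_KFG) : Stmt_AID := by
  intro I A _ _ _ g P hP hS pt
  have hfp : Algebra.FinitePresentation A P := (hKFG hP).1
  refine ⟨AID.fg pt.h, ?_, ?_, ?_⟩
  · intro n r hr
    exact AID.step pt.h pt.par hSCO hS n r hr
  · intro n r
    exact ⟨fun hr => AID.coeff_of_mem pt.h n r hr,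
      fun hr => AID.mem_of_coeff pt.h pt.par hSCO hS n r hr⟩
  · intro n f
    exact AID.approx pt.h pt.par n f

end Pool.Agent.MG.G0


end

section

/-!
# DSM: smoothness at the sections
-/

open CategoryTheory CategoryTheory.Limits AlgebraicGeometry TensorProduct

namespace Pool.Agent.MG.KX

namespace DSM

/-- Etale over the affine line implies smooth. -/
theorem smooth_of {K R S : Type} [CommRing K] [CommRing R] [CommRing S] [Algebra K R]
    [Algebra K S] [Algebra R S] [IsScalarTower K R S] (t : R)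
    (h : ((algebraMap R S).comp (Polynomial.eval₂RingHom (algebraMap K R) t)).Etale) :
    Smooth (spMap (algebraMap K S)) := by
  refine (HasRingHomProperty.Spec_iff (P := @Smooth)).2 ?_
  have h1 : algebraMap K S =
      ((algebraMap R S).comp (Polynomial.eval₂RingHom (algebraMap K R) t)).comp
        (algebraMap K (Polynomial K)) := by
    ext a
    change _ = algebraMap R S (Polynomial.eval₂ (algebraMap K R) t (Polynomial.C a))
    rw [Polynomial.eval₂_C, ← IsScalarTower.algebraMap_apply]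
  change (algebraMap K S).Smooth
  rw [h1]
  refine RingHom.Smooth.comp ?_ ?_
  · rw [RingHom.smooth_algebraMap]
    exact ⟨inferInstance, inferInstance⟩
  · rw [RingHom.Etale.eq_formallyUnramified_and_smooth] at h
    exact h.2

end DSM

theorem t_DSM : Stmt_DSM := by
  intro K _ D n s i ⟨h, t, hs, ht⟩ p
  exact W.WSM.exists_open D.pr D.in1 D.in1_pr h (DSM.smooth_of t ht) (s i : D.R1 →+* K)
    (Ne.isUnit hs) p

end Pool.Agent.MG.KX


end

section

/-!
# PFB: forgetting punctures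
-/

namespace Pool.Agent.MG.G0

namespace PFB

section

variable {I J A B : Type} [CommRing A] [CommRing B]

/-- Extension by zero at the additional punctures. -/
noncomputable def ext (I J A : Type) [CommRing A] : KK I A →ₗ[A] KK (I ⊕ J) A where
  toFun f := Sum.elim f fun _ => 0
  map_add' f g := by
    funext k
    rcases k with i | j
    · rfl
    · change (0 : LaurentSeries A) = 0 + 0
      rw [add_zero]
  map_smul' a f := by
    funext k
    rcases k with i | j
    · rfl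
    · change (0 : LaurentSeries A) = a • 0
      rw [smul_zero]

theorem ext_inl (f : KK I A) (i : I) : ext I J A f (Sum.inl i) = f i := rfl

theorem ext_inr (f : KK I A) (j : J) : ext I J A f (Sum.inr j) = 0 := rfl

theorem L_Pol0 {h : ℕ} {W : Subalgebra A (KK (I ⊕ J) A)}
    {L : KK (I ⊕ J) A →ₗ[A] (Fin h → A)}
    (hL : ∀ f, L f = 0 ↔ ∃ p ∈ W, f - p ∈ Pol (I ⊕ J) A 0) {f : KK (I ⊕ J) A}
    (hf : f ∈ Pol (I ⊕ J) A 0) : L f = 0 :=
  (hL f).2 ⟨0, zero_mem W, by rwa [sub_zero]⟩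

theorem L_W {h : ℕ} {W : Subalgebra A (KK (I ⊕ J) A)}
    {L : KK (I ⊕ J) A →ₗ[A] (Fin h → A)}
    (hL : ∀ f, L f = 0 ↔ ∃ p ∈ W, f - p ∈ Pol (I ⊕ J) A 0) {f : KK (I ⊕ J) A}
    (hf : f ∈ W) : L f = 0 :=
  (hL f).2 ⟨f, hf, by rw [sub_self]; exact zero_mem _⟩

theorem isKr_Rem {h : ℕ} {W : Subalgebra A (KK (I ⊕ J) A)} (hW : IsKr h W) (hD : Dn W) :
    IsKr h (Rem W) := by
  refine ⟨?_, ?_⟩
  · rintro f ⟨w, hw, h1, h2⟩ hf
    obtain ⟨a, ha⟩ := hW.k1 w hw (by
      intro k m hm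
      rcases k with i | j
      · rw [h2]
        exact hf i m hm
      · exact h1 j m (by omega))
    refine ⟨a, ?_⟩
    funext i
    rw [← h2, ha]
    rfl
  · obtain ⟨L, hs, hL⟩ := hW.k2
    refine ⟨L ∘ₗ ext I J A, ?_, ?_⟩
    · intro c
      obtain ⟨F, hF⟩ := hs c
      obtain ⟨w, hw, hwF⟩ := hD (fun j => F (Sum.inr j)) 0
      refine ⟨fun i => (F - w) (Sum.inl i), ?_⟩
      rw [LinearMap.comp_apply]
      have h1 : (F - w) - ext I J A (fun i => (F - w) (Sum.inl i)) ∈ Pol (I ⊕ J) A 0 := by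
        intro k m hm
        rcases k with i | j
        · rw [Pi.sub_apply, ext_inl, sub_self, HahnSeries.coeff_zero]
        · rw [Pi.sub_apply, ext_inr, sub_zero, Pi.sub_apply, HahnSeries.coeff_sub]
          rw [hwF j m (by omega), sub_self]
      have h2 := L_Pol0 hL h1
      rw [map_sub, map_sub, L_W hL hw, sub_zero, hF, sub_eq_zero] at h2
      exact h2.symm
    · intro f
      rw [LinearMap.comp_apply, hL]
      constructor
      · rintro ⟨p, hp, hfp⟩
        refine ⟨fun i => p (Sum.inl i), ⟨p, hp, fun j m hm => ?_, fun i => rfl⟩, fun i m hm => ?_⟩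
        · have h3 := hfp (Sum.inr j) m (by omega)
          rw [Pi.sub_apply, ext_inr, zero_sub, HahnSeries.coeff_neg, neg_eq_zero] at h3
          exact h3
        · exact hfp (Sum.inl i) m hm
      · rintro ⟨p, ⟨w, hw, h1, h2⟩, hfp⟩
        refine ⟨w, hw, ?_⟩
        intro k m hm
        rcases k with i | j
        · rw [Pi.sub_apply, ext_inl, h2]
          exact hfp i m hm
        · rw [Pi.sub_apply, ext_inr, zero_sub, HahnSeries.coeff_neg, h1 j m (by omega), neg_zero]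

/-- A series with leading coefficient one is not a zero divisor. -/
theorem eq_zero_of_mul {f v : LaurentSeries A} {a b : ℤ} (hf : ∀ m < a, f.coeff m = 0)
    (hv : ∀ m < b, v.coeff m = 0) (hv1 : v.coeff b = 1) (h : f * v = 0) : f = 0 := by
  have key : ∀ n : ℕ, ∀ m < a + n, f.coeff m = 0 := by
    intro n
    induction n with
    | zero =>
      intro m hm
      exact hf m (by push_cast at hm; omega)
    | succ n ih =>
      intro m hm
      rcases lt_or_ge m (a + n) with h1 | h1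
      · exact ih m h1
      · have h2 : m = a + n := by push_cast at hm; omega
        have h3 := mul_lead ih hv
        rw [h, HahnSeries.coeff_zero, hv1, mul_one] at h3
        rw [h2, ← h3]
  ext m
  rw [HahnSeries.coeff_zero]
  exact key (m - a + 1).toNat m (by omega)

/-- The restriction to the punctures `I` is injective. -/
theorem inj [Finite I] [Finite J] [Nonempty I] {h : ℕ} {W : Subalgebra A (KK (I ⊕ J) A)}
    (hW : IsKr h W) (hD : Dn W) : ∀ w ∈ W, (∀ i, w (Sum.inl i) = 0) → w = 0 := by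
  classical
  intro w hw h0
  obtain ⟨i₀⟩ := ‹Nonempty I›
  obtain ⟨N, hN⟩ := exists_Pol w
  funext k
  rcases k with i | j
  · exact h0 i
  · obtain ⟨v, hv, hvc⟩ := hD (fun j' => if j' = j then HahnSeries.single (N : ℤ) 1 else 0)
      ((N : ℤ) + 1)
    have hv0 : ∀ j', ∀ m < (N : ℤ), (v (Sum.inr j')).coeff m = 0 := by
      intro j' m hm
      rw [hvc j' m (by omega)]
      by_cases hj : j' = j
      · rw [if_pos hj]
        exact HahnSeries.coeff_single_of_ne (by omega)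
      · rw [if_neg hj, HahnSeries.coeff_zero]
    have hv1 : (v (Sum.inr j)).coeff (N : ℤ) = 1 := by
      rw [hvc j N (by omega), if_pos rfl]
      exact HahnSeries.coeff_single_same _ _
    have h1 : w * v ∈ Pol (I ⊕ J) A 0 := by
      intro k m hm
      rcases k with i | j'
      · rw [Pi.mul_apply, h0, zero_mul, HahnSeries.coeff_zero]
      · rw [Pi.mul_apply]
        exact mul_low (hN (Sum.inr j')) (hv0 j') m (by omega)
    obtain ⟨a, ha⟩ := hW.k1 _ (mul_mem hw hv) h1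
    have h2 : w * v = 0 := by
      have h3 := congrArg (fun f : KK (I ⊕ J) A => (f (Sum.inl i₀)).coeff 0) ha
      simp only [Pi.mul_apply, h0, zero_mul, HahnSeries.coeff_zero, Pi.algebraMap_apply,
        coeff_algebraMap, if_true] at h3
      rw [ha, ← h3, map_zero]
    have h4 : w (Sum.inr j) * v (Sum.inr j) = 0 := congrFun h2 (Sum.inr j)
    exact eq_zero_of_mul (hN (Sum.inr j)) (hv0 j) hv1 h4

theorem Dn_bc [Finite J] {W : Subalgebra A (KK (I ⊕ J) A)} (hD : Dn W) (φ : A →+* B) :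
    Dn (bc φ W) := by
  classical
  cases nonempty_fintype J
  intro f M
  obtain ⟨n, hn⟩ := exists_Pol (f : KK J B)
  choose w hw hwc using fun x : J × ℤ =>
    hD (fun j => if j = x.1 then HahnSeries.single x.2 (1 : A) else 0) M
  refine ⟨∑ j : J, ∑ m ∈ Finset.Ico (-(n : ℤ)) M, (f j).coeff m • kmap φ (w (j, m)), ?_, ?_⟩
  · refine Subalgebra.sum_mem _ fun j _ => Subalgebra.sum_mem _ fun m _ => ?_
    exact Subalgebra.smul_mem _ (kmap_mem_bc φ (hw _)) _
  · intro j l hl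
    rw [Finset.sum_apply, HahnSeries.coeff_sum]
    have h1 : ∀ j' : J, ((∑ m ∈ Finset.Ico (-(n : ℤ)) M, (f j').coeff m • kmap φ (w (j', m)))
        (Sum.inr j)).coeff l = if j' = j then (f j).coeff l else 0 := by
      intro j'
      rw [Finset.sum_apply, HahnSeries.coeff_sum]
      have h2 : ∀ m ∈ Finset.Ico (-(n : ℤ)) M,
          ((((f j').coeff m • kmap φ (w (j', m)) : KK (I ⊕ J) B)) (Sum.inr j)).coeff l =
          if m = l then (if j' = j then (f j).coeff l else 0) else 0 := by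
        intro m _
        rw [Pi.smul_apply, HahnSeries.coeff_smul, kmap_apply, lmap_coeff, hwc (j', m) j l hl,
          smul_eq_mul]
        by_cases h3 : j' = j
        · subst h3
          rw [if_pos rfl, if_pos rfl]
          by_cases h4 : m = l
          · subst h4
            rw [if_pos rfl, HahnSeries.coeff_single_same, map_one, mul_one]
          · rw [if_neg h4, HahnSeries.coeff_single_of_ne (Ne.symm h4), map_zero, mul_zero]
        · rw [if_neg (Ne.symm h3), if_neg h3, HahnSeries.coeff_zero, map_zero, mul_zero, ite_self]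
      rw [Finset.sum_congr rfl h2, Finset.sum_ite_eq']
      by_cases h5 : l ∈ Finset.Ico (-(n : ℤ)) M
      · rw [if_pos h5]
      · rw [if_neg h5]
        rw [Finset.mem_Ico] at h5
        have h6 : (f j).coeff l = 0 := hn j l (by omega)
        rw [h6, ite_self]
    rw [Finset.sum_congr rfl fun j' _ => h1 j', Finset.sum_ite_eq']
    rw [if_pos (Finset.mem_univ j)]

theorem bc_Rem_le (W : Subalgebra A (KK (I ⊕ J) A)) (φ : A →+* B) :
    bc φ (Rem W) ≤ Rem (bc φ W) := by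
  refine Algebra.adjoin_le ?_
  rintro _ ⟨f, ⟨w, hw, h1, h2⟩, rfl⟩
  refine ⟨kmap φ w, kmap_mem_bc φ hw, fun j m hm => ?_, fun i => ?_⟩
  · rw [kmap_apply, lmap_coeff, h1 j m hm, map_zero]
  · rw [kmap_apply, kmap_apply, h2]

end

end PFB

/-- PFB: forgetting punctures. -/
theorem t_PFB (hKBC : Stmt_KBC) (hKEQ : Stmt_KEQ) : Stmt_PFB := by
  intro I J A _ _ _ _ h W hW hD
  refine ⟨PFB.isKr_Rem hW hD, ⟨rfl, PFB.inj hW hD, hD⟩, ?_⟩
  intro B _ φ
  have hDB := PFB.Dn_bc hD φ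
  have hWB := (hKBC.2.2.2 hW φ).1
  have h1 : IsKr h (bc φ (Rem W)) := (hKBC.2.2.2 (PFB.isKr_Rem hW hD) φ).1
  have h2 : bc φ (Rem W) = Rem (bc φ W) :=
    hKEQ h1 (PFB.isKr_Rem hWB hDB) (PFB.bc_Rem_le W φ)
  exact ⟨hDB, h2, ⟨h2, PFB.inj hWB hDB, hDB⟩⟩

end Pool.Agent.MG.G0


end

section

/-!
# GRX: good Krichever rings, change of the index set and scaling of the coordinate
-/

namespace Pool.Agent.MG.G0

namespace GRX

section

variable {I I' A B : Type} [CommRing A] [CommRing B]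

/-- Smooth curves: isomorphic rings. -/
theorem typeS_equiv {κ : Type} [Field κ] (hSBC : Stmt_SBC) {P : Subalgebra κ (KK I κ)}
    {P' : Subalgebra κ (KK I' κ)} (i : P ≃ₐ[κ] P') (h : TypeS P) : TypeS P' := by
  obtain ⟨h1, h2⟩ := h
  exact ⟨Algebra.FormallySmooth.of_equiv i, hSBC.2.1 i h2⟩

/-! ### The change of the index set -/

theorem mem_reix {e : I' ≃ I} {P : Subalgebra A (KK I A)} {f : KK I' A} :
    f ∈ reix e P ↔ (fun i => f (e.symm i) : KK I A) ∈ P := Iff.rfl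

/-- The isomorphism of `P` and `reix e P`. -/
noncomputable def reE (e : I' ≃ I) (P : Subalgebra A (KK I A)) : P ≃ₐ[A] reix e P where
  toFun f := ⟨fun i' => (f : KK I A) (e i'), by
    rw [mem_reix]
    have h : (fun i => (f : KK I A) (e (e.symm i)) : KK I A) = f := by
      funext i
      rw [e.apply_symm_apply]
    rw [h]
    exact f.2⟩
  invFun f := ⟨fun i => (f : KK I' A) (e.symm i), f.2⟩
  left_inv f := Subtype.ext (by
    funext i
    change (f : KK I A) (e (e.symm i)) = _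
    rw [e.apply_symm_apply])
  right_inv f := Subtype.ext (by
    funext i
    change (f : KK I' A) (e.symm (e i)) = _
    rw [e.symm_apply_apply])
  map_mul' _ _ := rfl
  map_add' _ _ := rfl
  commutes' _ := rfl

/-- The change of the index set as an algebra homomorphism. -/
noncomputable def reH (e : I' ≃ I) : KK I A →ₐ[A] KK I' A where
  toFun f := fun i' => f (e i')
  map_one' := rfl
  map_mul' _ _ := rfl
  map_zero' := rfl
  map_add' _ _ := rfl
  commutes' _ := rfl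

theorem bc_reix (φ : A →+* B) (e : I' ≃ I) (P : Subalgebra A (KK I A)) :
    bc φ (reix e P) = reix e (bc φ P) := by
  apply le_antisymm
  · refine Algebra.adjoin_le ?_
    rintro _ ⟨f, hf, rfl⟩
    exact kmap_mem_bc φ (P := P) hf
  · have h : bc φ P ≤ (bc φ (reix e P)).comap (reH (A := B) e) := by
      refine Algebra.adjoin_le ?_
      rintro _ ⟨f, hf, rfl⟩
      exact kmap_mem_bc φ (P := reix e P) (f := fun i' => f (e i')) (reE e P ⟨f, hf⟩).2
    intro f hf
    have h1 := h hf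
    rw [Subalgebra.mem_comap] at h1
    have h2 : reH e (fun i => f (e.symm i)) = f := by
      funext i
      change f (e.symm (e i)) = f i
      rw [e.symm_apply_apply]
    rw [h2] at h1
    exact h1

theorem typeN_reix {κ : Type} [Field κ] (hKAU : Stmt_KAU) (hSBC : Stmt_SBC) (e : I' ≃ I) {g : ℕ}
    {P : Subalgebra κ (KK I κ)} (h : TypeN g P) : TypeN g (reix e P) := by
  obtain ⟨k, R, p, q, hg, hR, hS, hpq, hP⟩ := h
  refine ⟨k, reix e R, p.comp (reE e R).symm, q.comp (reE e R).symm, hg, hKAU.2 R e hR,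
    typeS_equiv hSBC (reE e R) hS, ?_, ?_⟩
  · intro h
    apply hpq
    refine AlgHom.ext fun r => ?_
    have h1 := DFunLike.congr_fun h (reE e R r)
    change p ((reE e R).symm (reE e R r)) = q ((reE e R).symm (reE e R r)) at h1
    rwa [AlgEquiv.symm_apply_apply] at h1
  · intro f
    rw [mem_reix, hP]
    exact Iff.rfl

/-! ### Changes of the coordinates -/

/-- The isomorphism of `P` and `α P`. -/
noncomputable def mapE (α : KK I A ≃ₐ[A] KK I A) (P : Subalgebra A (KK I A)) :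
    P ≃ₐ[A] P.map (α : KK I A →ₐ[A] KK I A) :=
  AlgEquiv.subalgebraMap α P

theorem mapE_val (α : KK I A ≃ₐ[A] KK I A) (P : Subalgebra A (KK I A)) (f : P) :
    (mapE α P f : KK I A) = α f := rfl

theorem bc_map (φ : A →+* B) (α : KK I A ≃ₐ[A] KK I A) (α' : KK I B ≃ₐ[B] KK I B)
    (h : ∀ f, kmap φ (α f) = α' (kmap φ f)) (P : Subalgebra A (KK I A)) :
    bc φ (P.map (α : KK I A →ₐ[A] KK I A)) = (bc φ P).map (α' : KK I B →ₐ[B] KK I B) := by
  apply le_antisymm
  · refine Algebra.adjoin_le ?_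
    rintro _ ⟨_, ⟨f, hf, rfl⟩, rfl⟩
    exact ⟨kmap φ f, kmap_mem_bc φ hf, (h f).symm⟩
  · rw [Subalgebra.map_le]
    refine Algebra.adjoin_le ?_
    rintro _ ⟨f, hf, rfl⟩
    change α' (kmap φ f) ∈ bc φ (P.map (α : KK I A →ₐ[A] KK I A))
    rw [← h]
    exact kmap_mem_bc φ ⟨f, hf, rfl⟩

theorem typeN_map {κ : Type} [Field κ] (hKAU : Stmt_KAU) (hSBC : Stmt_SBC)
    (α : KK I κ ≃ₐ[κ] KK I κ) (hα : ∀ f, α f ∈ Pol I κ 0 ↔ f ∈ Pol I κ 0) {g : ℕ}
    {P : Subalgebra κ (KK I κ)} (h : TypeN g P) :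
    TypeN g (P.map (α : KK I κ →ₐ[κ] KK I κ)) := by
  obtain ⟨k, R, p, q, hg, hR, hS, hpq, hP⟩ := h
  refine ⟨k, R.map (α : KK I κ →ₐ[κ] KK I κ), p.comp (mapE α R).symm, q.comp (mapE α R).symm, hg,
    hKAU.1 R α hα hR, typeS_equiv hSBC (mapE α R) hS, ?_, ?_⟩
  · intro h
    apply hpq
    refine AlgHom.ext fun r => ?_
    have h1 := DFunLike.congr_fun h (mapE α R r)
    change p ((mapE α R).symm (mapE α R r)) = q ((mapE α R).symm (mapE α R r)) at h1
    rwa [AlgEquiv.symm_apply_apply] at h1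
  · have key : ∀ r : R, ∀ hr : α r ∈ R.map (α : KK I κ →ₐ[κ] KK I κ),
        (mapE α R).symm ⟨α r, hr⟩ = r := fun r hr =>
      (mapE α R).symm_apply_eq.2 (Subtype.ext rfl)
    intro f
    rw [Subalgebra.mem_map]
    constructor
    · rintro ⟨f, hf, rfl⟩
      obtain ⟨hf1, hf2⟩ := (hP f).1 hf
      refine ⟨⟨f, hf1, rfl⟩, ?_⟩
      change p ((mapE α R).symm ⟨α (⟨f, hf1⟩ : R), _⟩) = q ((mapE α R).symm ⟨α (⟨f, hf1⟩ : R), _⟩)
      rw [key]
      exact hf2
    · rintro ⟨⟨r, hr, rfl⟩, h1⟩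
      refine ⟨r, (hP r).2 ⟨hr, ?_⟩, rfl⟩
      change p ((mapE α R).symm ⟨α (⟨r, hr⟩ : R), _⟩) =
        q ((mapE α R).symm ⟨α (⟨r, hr⟩ : R), _⟩) at h1
      rwa [key] at h1

/-! ### Scaling -/

/-- The scaling of `KK Unit A`. -/
noncomputable def ks (c : Aˣ) : KK Unit A ≃ₐ[A] KK Unit A := AlgEquiv.piCongrRight fun _ => scE c

theorem ks_apply (c : Aˣ) (f : KK Unit A) : ks c f () = sc c (f ()) := rfl

theorem uno_map (c : Aˣ) (R : Subalgebra A (LaurentSeries A)) :
    (uno R).map (ks c : KK Unit A →ₐ[A] KK Unit A) = uno (R.map (sc c)) := by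
  ext f
  rw [mem_uno, Subalgebra.mem_map, Subalgebra.mem_map]
  constructor
  · rintro ⟨g, hg, rfl⟩
    exact ⟨g (), hg, rfl⟩
  · rintro ⟨g, hg, hf⟩
    exact ⟨fun _ => g, hg, funext fun _ => hf⟩

theorem ks_mem (c : Aˣ) (f : KK Unit A) : ks c f ∈ Pol Unit A 0 ↔ f ∈ Pol Unit A 0 := by
  rw [mem_Pol_unit, mem_Pol_unit, ks_apply]
  constructor
  · intro h
    have h1 := sc_mem_Po c⁻¹ h
    rwa [sc_sc, inv_mul_cancel, sc_one] at h1
  · exact sc_mem_Po c

theorem kmap_ks (φ : A →+* B) (c : Aˣ) (f : KK Unit A) :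
    kmap φ (ks c f) = ks (Units.map (φ : A →* B) c) (kmap φ f) :=
  funext fun _ => lmap_sc φ c (f ())

end

end GRX

open _root_.Pool.Agent.MG.G0.GRX in
/-- GRX: the change of the index set and the scaling of the coordinate. -/
theorem t_GRX (hKAU : Stmt_KAU) (_hKBC : Stmt_KBC) (hSBC : Stmt_SBC) : Stmt_GRX := by
  refine ⟨?_, ?_⟩
  · intro I I' A _ _ _ _ e g P hP
    refine ⟨hKAU.2 P e hP.1, fun κ _ _ φ => ?_⟩
    rw [bc_reix]
    rcases hP.2 κ φ with h | h
    · exact Or.inl (typeS_equiv hSBC (reE e _) h)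
    · exact Or.inr (typeN_reix hKAU hSBC e h)
  · intro A _ c g R hR
    rw [← uno_map]
    refine ⟨hKAU.1 _ (ks c) (ks_mem c) hR.1, fun κ _ _ φ => ?_⟩
    rw [bc_map φ (ks c) (ks (Units.map (φ : A →* κ) c)) (kmap_ks φ c)]
    rcases hR.2 κ φ with h | h
    · exact Or.inl (typeS_equiv hSBC (mapE _ _) h)
    · exact Or.inr (typeN_map hKAU hSBC _ (ks_mem _) h)

end Pool.Agent.MG.G0


end

section

/-!
# MLG: THEOREM LOG for a curve with two charts (PAPER_M.md, item MLG)
-/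

open TensorProduct

namespace Pool.Agent.MG.G0

namespace MLG

/-- The results used in this file. -/
structure Hy : Prop where
  kbc : Stmt_KBC
  awb : Stmt_AWB
  pl2 : Stmt_PL2
  plr : Stmt_PLR
  plf : Stmt_PLF
  mtr : Stmt_MTR
  mee : Stmt_MEE
  mfe : Stmt_MFE
  mpb : Stmt_MPB
  mpg : Stmt_MPG
  mcb : Stmt_MCB
  mvx : Stmt_MVX
  mvn : Stmt_MVN
  mvs : Stmt_MVS
  mvf : Stmt_MVF
  mvr : Stmt_MVR
  mcm : Stmt_MCM
  mal : Stmt_MAL
  mex : Stmt_MEX

/-! ## Values and their coefficients -/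

section

variable {I A B : Type} [CommRing A] [CommRing B]

/-- `v` is the reduction modulo `T` of `u`. -/
def Rd {N : ℕ} (u : KK I (TrA A N)) (v : KK I A) : Prop :=
  ∀ i n, co 0 ((u i).coeff n) = (v i).coeff n

theorem rd_iff (H : Hy) {N : ℕ} (hN : 0 < N) {π : TrA A N →ₐ[A] A} (hπ : π (tt A N) = 0)
    {u : KK I (TrA A N)} {v : KK I A} : kmap (π : TrA A N →+* A) u = v ↔ Rd u v := by
  have e : ∀ i n, ((kmap (π : TrA A N →+* A) u) i).coeff n = co 0 ((u i).coeff n) := fun i n =>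
    (H.mtr.2.2.2.2 π hπ hN _).1
  constructor
  · rintro rfl i n
    exact (e i n).symm
  · intro h
    funext i
    ext n
    rw [e, h i n]

theorem exi_pi (H : Hy) (A : Type) [CommRing A] {N : ℕ} (hN : 0 < N) :
    ∃ π : TrA A N →ₐ[A] A, π (tt A N) = 0 :=
  H.mtr.2.2.2.1 (A := A) (B := A) (N := N) 0 (zero_pow hN.ne')

/-- `y` is the coefficient of `T^m` of a value at lifts of `ω`. -/
def Cv {g : ℕ} (E : Ev g) [Algebra ℂ A] [Fintype I] {R : Subalgebra A (KK I A)}
    (pt : Bool → FPt R) (N k m : ℕ) (ω : Fin k ⊕ Fin k → KK I A) (y : A) : Prop :=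
  ∃ (u u' : Fin k → KK I (TrA A N)) (x : TrA A N), Vl E pt u u' x ∧
    (∀ i, Rd (u i) (ω (Sum.inl i))) ∧ (∀ i, Rd (u' i) (ω (Sum.inr i))) ∧ y = co m x

theorem bcr_id (H : Hy) {R : Subalgebra A (KK I A)} (p p' : FPt R) (h : p'.h = p.h) :
    Bcr (RingHom.id A) p p' := by
  refine ⟨(H.kbc.2.2.1 R).symm, fun f f' hf => ?_⟩
  rw [kmap_id] at hf
  have : f' = f := Subtype.ext hf
  rw [this, PowerSeries.map_id, h]
  rfl

/-- The nodal curve is the reduction of the plumbed curve. -/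
theorem bc_pi (H : Hy) [Fintype I] [Nonempty I] {h : ℕ} {R : Subalgebra A (KK I A)}
    (hR : SKr h R) (pt : Bool → FPt R) (hd : Disj pt) {N : ℕ} {π : TrA A N →ₐ[A] A}
    (hπ : π (tt A N) = 0) (q : Bool → FPt (bc (algebraMap A (TrA A N)) R))
    (hq : ∀ b, (pt b).Bc (algebraMap A (TrA A N)) (q b)) :
    bc (π : TrA A N →+* A) (PT q (tt A N)) = PT pt 0 := by
  have hR' : SKr h (bc (algebraMap A (TrA A N)) R) :=
    (H.mpg hR pt hd 0 IsNilpotent.zero).2.2.2 _
  have hsc : ((π : TrA A N →+* A).comp (algebraMap A (TrA A N))) = RingHom.id A :=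
    RingHom.ext fun a => π.commutes a
  have hTn : IsNilpotent (tt A N) := ⟨N, (H.mtr.1 (A := A) (N := N)).1⟩
  obtain ⟨m1, m2, m3, m4⟩ := H.mpb hR.kr hR.smc pt hd
  have b1 := m4 _ q hq
  have hdq := (m1 _ _ q b1).1
  have b2 : ∀ b, Bcr ((π : TrA A N →+* A).comp (algebraMap A (TrA A N))) (pt b) (pt b) := by
    rw [hsc]
    exact fun b => bcr_id H (pt b) (pt b) rfl
  have b3 := m2 _ (π : TrA A N →+* A) _ _ q pt b1 b2
  have := ((H.mpb hR'.kr hR'.smc q hdq).1 (π : TrA A N →+* A) R pt b3).2 (tt A N) hTn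
  rw [← this]
  change PT pt (π (tt A N)) = _
  rw [hπ]

/-- LFT: values at lifts exist. -/
theorem lft (H : Hy) [Algebra ℂ A] [Fintype I] [Nonempty I] {h : ℕ} {R : Subalgebra A (KK I A)}
    (hR : SKr h R) (pt : Bool → FPt R) (hd : Disj pt) (E : Ev (h + 1)) {N : ℕ} (hN : 0 < N)
    (k m : ℕ) (ω : Fin k ⊕ Fin k → KK I A) (hω : ∀ i, ω i ∈ EE (PT pt (0 : A))) :
    ∃ y, Cv E pt N k m ω y := by
  obtain ⟨π, hπ⟩ := exi_pi H A hN
  obtain ⟨⟨q, hq⟩, hX, -⟩ := H.mvx hR pt hd E N k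
  obtain ⟨hk1, hex, -⟩ := hX q hq
  have hsurj : Function.Surjective (π : TrA A N →+* A) := fun a =>
    ⟨algebraMap A (TrA A N) a, π.commutes a⟩
  have hlift := ((H.mee hk1 (π : TrA A N →+* A)).2.2 hsurj).1
  rw [bc_pi H hR pt hd hπ q hq] at hlift
  choose V hV hVe using fun i => hlift (ω i) (hω i)
  obtain ⟨x, hx⟩ := hex (fun i => V (Sum.inl i)) (fun i => V (Sum.inr i)) (fun i => hV _)
    fun i => hV _
  exact ⟨co m x, _, _, x, hx, fun i => (rd_iff H hN hπ).1 (hVe _),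
    fun i => (rd_iff H hN hπ).1 (hVe _), rfl⟩

/-- NAT: naturality. -/
theorem nat (H : Hy) [Algebra ℂ A] [Algebra ℂ B] [Fintype I] [Nonempty I] {h : ℕ}
    {R : Subalgebra A (KK I A)} (hR : SKr h R) (pt : Bool → FPt R) (hd : Disj pt)
    (E : Ev (h + 1)) {N k m : ℕ} (hm : m < N) (φ : A →ₐ[ℂ] B) {R' : Subalgebra B (KK I B)}
    (pt' : Bool → FPt R') (hp : ∀ b, Bcr (φ : A →+* B) (pt b) (pt' b))
    {ω : Fin k ⊕ Fin k → KK I A} {y : A} (hy : Cv E pt N k m ω y) :
    Cv E pt' N k m (fun i => kmap (φ : A →+* B) (ω i)) (φ y) := by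
  obtain ⟨u, u', x, hx, h1, h2, rfl⟩ := hy
  obtain ⟨⟨σ, hσ⟩, hc⟩ := H.mtr.2.1 (N := N) (φ : A →+* B)
  have hN : 0 < N := by omega
  have hc' := hc σ hσ
  have hr : ∀ {u : KK I (TrA A N)} {v : KK I A}, Rd u v → Rd (kmap σ u) (kmap (φ : A →+* B) v) := by
    intro u v huv i n
    change co 0 (σ ((u i).coeff n)) = φ ((v i).coeff n)
    rw [hc' _ 0 hN, huv i n]
    rfl
  exact ⟨_, _, _, H.mvn hR pt hd E N k φ R' pt' hp σ hσ u u' x hx, fun i => hr (h1 i),
    fun i => hr (h2 i), (hc' x m hm).symm⟩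

/-- SCL: rescaling. -/
theorem scl (H : Hy) [Algebra ℂ A] [Fintype I] [Nonempty I] {h : ℕ}
    {R : Subalgebra A (KK I A)} (hR : SKr h R) (pt : Bool → FPt R) (hd : Disj pt)
    (E : Ev (h + 1)) {N k m : ℕ} (hm : m < N) (c : Bool → Aˣ)
    {ω : Fin k ⊕ Fin k → KK I A} {y : A} (hy : Cv E pt N k m ω y) :
    Cv E (fun b => (pt b).resc (c b)) N k m ω
      (((((c true)⁻¹ : Aˣ) : A) * (((c false)⁻¹ : Aˣ) : A)) ^ k *
        (((c true : A) * (c false : A)) ^ m * y)) := by
  obtain ⟨u, u', x, hx, h1, h2, rfl⟩ := hy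
  obtain ⟨⟨ψ, hψ⟩, hc⟩ := H.mtr.2.2.1 (A := A) (N := N) ((c true : A) * (c false : A))
  have hN : 0 < N := by omega
  have hc' := hc ψ hψ
  have hr : ∀ {u : KK I (TrA A N)} {v : KK I A}, Rd u v →
      Rd (kmap (ψ : TrA A N →+* TrA A N) u) v := by
    intro u v huv i n
    change co 0 (ψ ((u i).coeff n)) = (v i).coeff n
    rw [hc' _ 0 hN, huv i n, pow_zero, one_mul]
  refine ⟨_, _, _, H.mvs hR pt hd E N k c ψ hψ u u' x hx, fun i => hr (h1 i),
    fun i => hr (h2 i), ?_⟩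
  rw [(H.mtr.1 (A := A) (N := N)).2.2.2.1 _ _ m hm, hc' x m hm]

/-- FGT: forgetting punctures. -/
theorem fgt (H : Hy) {J : Type} [Algebra ℂ A] [Fintype I] [Nonempty I] [Fintype J] {h : ℕ}
    {W : Subalgebra A (KK (I ⊕ J) A)} {R : Subalgebra A (KK I A)} (hW : SKr h W) (hR : SKr h R)
    (hF : Forget W R) (pt : Bool → FPt W) (pt₁ : Bool → FPt R) (hp : ∀ b, (pt b).Rs (pt₁ b))
    (hd : Disj pt) (E : Ev (h + 1)) {N k m : ℕ} (hm : m + 1 < N)
    {ω : Fin k ⊕ Fin k → KK (I ⊕ J) A} {y : A} (hy : Cv E pt N k m ω y) :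
    Cv E pt₁ N k m (fun i => atI (ω i)) y := by
  obtain ⟨u, u', x, hx, h1, h2, rfl⟩ := hy
  obtain ⟨y, hy, hxy⟩ := (H.mvf hW hR hF pt pt₁ hp hd E).1 N k u u' x hx
  exact ⟨_, _, y, hy, fun i j n => h1 i (Sum.inl j) n, fun i j n => h2 i (Sum.inl j) n,
    hxy m hm⟩

/-- RIX: change of the index set. -/
theorem rix (H : Hy) {I' : Type} [Algebra ℂ A] [Fintype I] [Nonempty I] [Fintype I']
    [Nonempty I'] {h : ℕ} {R : Subalgebra A (KK I A)} (e : I' ≃ I) (hR : SKr h R)
    (pt : Bool → FPt R) (pt₁ : Bool → FPt (reix e R)) (hd : Disj pt)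
    (hp : ∀ (b : Bool) (f : R) (f' : reix e R), (∀ i, (f' : KK I' A) i = (f : KK I A) (e i)) →
      (pt₁ b).h f' = (pt b).h f) (E : Ev (h + 1)) {N k m : ℕ}
    {ω : Fin k ⊕ Fin k → KK I A} {y : A} (hy : Cv E pt N k m ω y) :
    Cv E pt₁ N k m (fun j i => ω j (e i)) y := by
  obtain ⟨u, u', x, hx, h1, h2, rfl⟩ := hy
  exact ⟨_, _, x, (H.mvr e hR).2 pt pt₁ hd hp E N k u u' x hx, fun i j n => h1 i (e j) n,
    fun i j n => h2 i (e j) n, rfl⟩

/-- The entries of a family with a value are regular differentials of the nodal curve. -/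
theorem cv_mem (H : Hy) [Algebra ℂ A] [Fintype I] [Nonempty I] {h : ℕ}
    {R : Subalgebra A (KK I A)} (hR : SKr h R) (pt : Bool → FPt R) (hd : Disj pt)
    (E : Ev (h + 1)) {N k m : ℕ} (hN : 0 < N) {ω : Fin k ⊕ Fin k → KK I A} {y : A}
    (hy : Cv E pt N k m ω y) (i : Fin k ⊕ Fin k) : ω i ∈ EE (PT pt (0 : A)) := by
  obtain ⟨u, u', x, ⟨q, hq, hu, hu', -⟩, h1, h2, -⟩ := hy
  obtain ⟨π, hπ⟩ := exi_pi H A hN
  obtain ⟨-, hX, -⟩ := H.mvx hR pt hd E N k
  obtain ⟨hk1, -, -⟩ := hX q hq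
  have hm := (H.mee hk1 (π : TrA A N →+* A)).1
  rw [bc_pi H hR pt hd hπ q hq] at hm
  rcases i with i | i
  · rw [← (rd_iff H hN hπ).2 (h1 i)]
    exact hm _ (hu i)
  · rw [← (rd_iff H hN hπ).2 (h2 i)]
    exact hm _ (hu' i)

/-- The coefficients of `T^m` are given by a multilinear form. -/
theorem mlt (H : Hy) [Algebra ℂ A] [Fintype I] [Nonempty I] {h : ℕ}
    {R : Subalgebra A (KK I A)} (hR : SKr h R) (pt : Bool → FPt R) (hd : Disj pt)
    (E : Ev (h + 1)) {N k m : ℕ} (hm : m < k) (hk : k < N) (hI : IHm E pt N k m) :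
    ∃ M : MultilinearMap A (fun _ : Fin k ⊕ Fin k => EE (PT pt (0 : A))) A,
      ∀ (ω : Fin k ⊕ Fin k → EE (PT pt (0 : A))) (y : A),
        Cv E pt N k m (fun i => (ω i : KK I A)) y → y = M ω := by
  have hN : 0 < N := by omega
  obtain ⟨π, hπ⟩ := exi_pi H A hN
  obtain ⟨M, hM, -⟩ := H.mcm hR pt hd E N k m hm hk hI π hπ
  refine ⟨M, fun ω y hy => ?_⟩
  obtain ⟨u, u', x, hx, h1, h2, rfl⟩ := hy
  exact hM ω u u' x hx (fun i => (rd_iff H hN hπ).2 (h1 i)) fun i => (rd_iff H hN hπ).2 (h2 i)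

end

/-! ## Families -/

section

variable {I A B n : Type} [CommRing A] [CommRing B]

/-- A family of differentials on the nodal curve: `f` outside `Z`, with residue one in `Z`. -/
def Fm [Fintype I] {R : Subalgebra A (KK I A)} (pt : Bool → FPt R) (Z : Finset n)
    (f ω : n → KK I A) : Prop :=
  (∀ i, i ∉ Z → ω i = f i) ∧ ∀ i ∈ Z, ω i ∈ EE (PT pt (0 : A)) ∧ IsRho pt (ω i) 1

theorem fm_mem (H : Hy) [Fintype I] [Nonempty I] {h : ℕ} {R : Subalgebra A (KK I A)}
    (hR : SKr h R) (pt : Bool → FPt R) (hd : Disj pt) {Z : Finset n} {f ω : n → KK I A}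
    (hf : ∀ i, f i ∈ EE R) (hω : Fm pt Z f ω) (i : n) : ω i ∈ EE (PT pt (0 : A)) := by
  by_cases hi : i ∈ Z
  · exact (hω.2 i hi).1
  · rw [hω.1 i hi]
    exact ((H.plr hR.kr hR.smc pt hd).2.2.1 _ (hf i)).1

theorem fm_exi (H : Hy) [Fintype I] [Nonempty I] {h : ℕ} {R : Subalgebra A (KK I A)}
    (hR : SKr h R) (pt : Bool → FPt R) (hd : Disj pt) (Z : Finset n) (f : n → KK I A) :
    ∃ ω, Fm pt Z f ω := by
  classical
  obtain ⟨η, h1, h2⟩ := (H.plr hR.kr hR.smc pt hd).2.2.2 1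
  refine ⟨fun i => if i ∈ Z then η else f i, fun i hi => if_neg hi, fun i hi => ?_⟩
  simp only [if_pos hi]
  exact ⟨h1, h2⟩

theorem ev_eq {R : Subalgebra A (KK I A)} (p : FPt R) (f : R) :
    p.ev f = PowerSeries.coeff 0 (p.h f) :=
  (PowerSeries.coeff_zero_eq_constantCoeff_apply _).symm

/-- The value of the base change of a formal point. -/
theorem ev_bcr {φ : A →+* B} {R : Subalgebra A (KK I A)} {R' : Subalgebra B (KK I B)}
    {p : FPt R} {p' : FPt R'} (hp : Bcr φ p p') (f : R) (f' : R')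
    (hf : (f' : KK I B) = kmap φ (f : KK I A)) : p'.ev f' = φ (p.ev f) := by
  rw [ev_eq, ev_eq, hp.2 f f' hf, PowerSeries.coeff_map]

/-- The residue is compatible with base change. -/
theorem rho_bcr [Fintype I] {φ : A →+* B} {R : Subalgebra A (KK I A)}
    {R' : Subalgebra B (KK I B)} {pt : Bool → FPt R} {pt' : Bool → FPt R'}
    (hp : ∀ b, Bcr φ (pt b) (pt' b)) {η : KK I A} {ρ : A} (hη : IsRho pt η ρ) :
    IsRho pt' (kmap φ η) (φ ρ) := by
  intro r'
  have hr : (r' : KK I B) ∈ bc φ R := by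
    rw [← (hp true).1]
    exact r'.2
  have key : ∀ f ∈ Submodule.span B (kmap φ '' (R : Set (KK I A))), ∀ hf : f ∈ R',
      res (kmap φ η * f) =
        -(φ ρ * ((pt' true).ev ⟨f, hf⟩ - (pt' false).ev ⟨f, hf⟩)) := by
    intro f hf
    have hsub : ∀ g ∈ Submodule.span B (kmap φ '' (R : Set (KK I A))), g ∈ R' := by
      intro g hg
      rw [(hp true).1]
      change g ∈ Subalgebra.toSubmodule (bc φ R)
      revert g
      refine Submodule.span_le.2 ?_
      rintro _ ⟨x, hx, rfl⟩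
      exact kmap_mem_bc φ hx
    have hadd : ∀ (b : Bool) (x y : R'), (pt' b).ev (x + y) = (pt' b).ev x + (pt' b).ev y :=
      fun b x y => by rw [FPt.ev, FPt.ev, FPt.ev, map_add, map_add]
    have hsmul : ∀ (b : Bool) (c : B) (x : R'), (pt' b).ev (c • x) = c * (pt' b).ev x :=
      fun b c x => by
        rw [ev_eq, ev_eq, map_smul, map_smul, smul_eq_mul]
    refine Submodule.span_induction (p := fun f _ => ∀ hf : f ∈ R', res (kmap φ η * f) =
        -(φ ρ * ((pt' true).ev ⟨f, hf⟩ - (pt' false).ev ⟨f, hf⟩))) ?_ ?_ ?_ ?_ hf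
    · rintro _ ⟨x, hx, rfl⟩ hf
      rw [← map_mul, res_kmap, hη ⟨x, hx⟩, ev_bcr (hp true) ⟨x, hx⟩ ⟨_, hf⟩ rfl,
        ev_bcr (hp false) ⟨x, hx⟩ ⟨_, hf⟩ rfl, map_neg, map_mul, map_sub]
    · intro hf
      have e : (⟨0, hf⟩ : R') = 0 := rfl
      have h0 : ∀ b, (pt' b).ev (0 : R') = 0 := fun b => by
        rw [FPt.ev, map_zero, map_zero]
      rw [e, h0, h0, mul_zero, map_zero, sub_zero, mul_zero, neg_zero]
    · intro x y hx hy h1 h2 hf
      have e : (⟨x + y, hf⟩ : R') = ⟨x, hsub x hx⟩ + ⟨y, hsub y hy⟩ := rfl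
      rw [e, hadd, hadd, mul_add, map_add, h1 (hsub x hx), h2 (hsub y hy)]
      ring
    · intro c x hx h1 hf
      have e : (⟨c • x, hf⟩ : R') = c • ⟨x, hsub x hx⟩ := rfl
      rw [e, hsmul, hsmul, mul_smul_comm, map_smul, h1 (hsub x hx), smul_eq_mul]
      ring
  exact key _ (mem_bc_span φ R hr) r'.2

/-- Families are compatible with base change. -/
theorem fm_nat (H : Hy) [Fintype I] [Nonempty I] {h : ℕ} {R : Subalgebra A (KK I A)}
    (hR : SKr h R) (pt : Bool → FPt R) (hd : Disj pt) (φ : A →+* B)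
    {R' : Subalgebra B (KK I B)} (pt' : Bool → FPt R') (hp : ∀ b, Bcr φ (pt b) (pt' b))
    {Z : Finset n} {f ω : n → KK I A} (hω : Fm pt Z f ω) :
    Fm pt' Z (fun i => kmap φ (f i)) fun i => kmap φ (ω i) := by
  have hb : PT pt' (0 : B) = bc φ (PT pt 0) := by
    rw [← ((H.mpb hR.kr hR.smc pt hd).1 φ R' pt' hp).2 0 IsNilpotent.zero, map_zero]
  refine ⟨fun i hi => ?_, fun i hi => ⟨?_, ?_⟩⟩
  · exact congrArg (kmap φ) (hω.1 i hi)
  · rw [hb]
    exact (H.mee (H.mpg hR pt hd 0 IsNilpotent.zero).1.1 φ).1 _ (hω.2 i hi).1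
  · have := rho_bcr hp (hω.2 i hi).2
    rwa [map_one] at this

/-- Families and rescaling. -/
theorem fm_scl (H : Hy) [Fintype I] {R : Subalgebra A (KK I A)} (pt : Bool → FPt R)
    (c : Bool → Aˣ) {Z : Finset n} {f ω : n → KK I A} (hω : Fm pt Z f ω) :
    Fm (fun b => (pt b).resc (c b)) Z f ω := by
  refine ⟨hω.1, fun i hi => ⟨?_, ?_⟩⟩
  · rw [(H.pl2.2.1 pt c 0).2, mul_zero]
    exact (hω.2 i hi).1
  · intro r
    have hev : ∀ b, ((pt b).resc (c b)).ev r = (pt b).ev r := fun b => by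
      rw [ev_eq, ev_eq]
      change PowerSeries.coeff 0 (PowerSeries.rescale (c b : A) ((pt b).h r)) = _
      rw [PowerSeries.coeff_rescale, pow_zero, one_mul]
    rw [hev, hev]
    exact (hω.2 i hi).2 r

/-- Families and forgetting punctures. -/
theorem fm_fgt (H : Hy) {J : Type} [Fintype I] [Nonempty I] [Fintype J] {h : ℕ}
    {W : Subalgebra A (KK (I ⊕ J) A)} {R : Subalgebra A (KK I A)} (hW : SKr h W) (hR : SKr h R)
    (hF : Forget W R) (pt : Bool → FPt W) (pt₁ : Bool → FPt R) (hp : ∀ b, (pt b).Rs (pt₁ b))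
    (hd : Disj pt) {Z : Finset n} {f ω : n → KK (I ⊕ J) A} (hω : Fm pt Z f ω) :
    Fm pt₁ Z (fun i => atI (f i)) fun i => atI (ω i) := by
  obtain ⟨hd₁, hF'⟩ := (H.plf hW.kr hR.kr hW.smc hR.smc hF).2 pt pt₁ hp hd
  have g1 := (H.mpg hW pt hd 0 IsNilpotent.zero).1.1
  have g2 := (H.mpg hR pt₁ hd₁ 0 IsNilpotent.zero).1.1
  refine ⟨fun i hi => ?_, fun i hi => ⟨?_, ?_⟩⟩
  · exact congrArg atI (hω.1 i hi)
  · exact (H.mfe.1 g1 g2 (hF' 0 IsNilpotent.zero)).1 _ (hω.2 i hi).1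
  · exact H.mfe.2 hF pt pt₁ hp _ _ (hω.2 i hi).1.2 (hω.2 i hi).2

end

/-! ## Values at pairs of formal points -/

section

variable {B₀ I : Type} [CommRing B₀] [Fintype I]

/-- `y` is the value for a family `f`, `Z` at the formal points `p`. -/
def Rc {g : ℕ} (E : Ev g) (N k m : ℕ) (Z : Finset (Fin k ⊕ Fin k))
    {R : Subalgebra B₀ (KK I B₀)} (f : Fin k ⊕ Fin k → KK I B₀) {A : Type} [CommRing A]
    [Algebra B₀ A] [Algebra ℂ A] (p : Bool → (R →ₐ[B₀] PowerSeries A)) (y : A) : Prop :=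
  ∃ pt : Bool → FPt (bc (algebraMap B₀ A) R),
    (∀ b r, (pt b).h (bcMap (algebraMap B₀ A) R r) = p b r) ∧ Disj pt ∧
    ∃ ω, Fm pt Z (fun i => kmap (algebraMap B₀ A) (f i)) ω ∧ Cv E pt N k m ω y

/-- The values do not depend on the family. -/
def Ind {g : ℕ} (E : Ev g) (N k m : ℕ) (Z : Finset (Fin k ⊕ Fin k))
    {R : Subalgebra B₀ (KK I B₀)} (c : R) (f : Fin k ⊕ Fin k → KK I B₀) (A : Type) [CommRing A]
    [Algebra B₀ A] [Algebra ℂ A] : Prop :=
  ∀ pt : Bool → FPt (bc (algebraMap B₀ A) R), Disj pt →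
    (∀ x, IsUnit ((pt x).ev (bcMap (algebraMap B₀ A) R c))) → ∀ ω ω' y y',
    Fm pt Z (fun i => kmap (algebraMap B₀ A) (f i)) ω →
    Fm pt Z (fun i => kmap (algebraMap B₀ A) (f i)) ω' →
    Cv E pt N k m ω y → Cv E pt N k m ω' y' → y = y'

variable [Nonempty I] {h : ℕ} (E : Ev (h + 1)) {N k m : ℕ} {Z : Finset (Fin k ⊕ Fin k)}
  {R : Subalgebra B₀ (KK I B₀)} {f : Fin k ⊕ Fin k → KK I B₀}
  {A : Type} [CommRing A] [Algebra B₀ A] [Algebra ℂ A]

theorem rc_uniq (H : Hy) (hR : SKr h R) (hRA : SKr h (bc (algebraMap B₀ A) R)) (hm : m < N)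
    {c : R} (hi : Ind E N k m Z c f A) {p : Bool → (R →ₐ[B₀] PowerSeries A)}
    (hu : ∀ x, IsUnit (PowerSeries.constantCoeff (p x c))) {y y' : A}
    (hy : Rc E N k m Z f p y) (hy' : Rc E N k m Z f p y') : y = y' := by
  obtain ⟨pt, hp, hd, ω, hω, hc⟩ := hy
  obtain ⟨pt', hp', hd', ω', hω', hc'⟩ := hy'
  have hh : ∀ b, (pt' b).h = (pt b).h := fun b =>
    (H.mex (A := A) hR.kr hR.smc).2.2.1 (pt' b) (pt b) fun r => by rw [hp', hp]
  have hb : ∀ b, Bcr (RingHom.id A) (pt b) (pt' b) := fun b => bcr_id H (pt b) (pt' b) (hh b)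
  have h1 := nat H hRA pt hd E hm (AlgHom.id ℂ A) pt' hb hc
  have h2 := fm_nat H hRA pt hd (RingHom.id A) pt' hb hω
  refine hi pt' hd' (fun x => ?_) ω ω' y y' h2 hω' h1 hc'
  rw [FPt.ev, hp']
  exact hu x

theorem rc_exi (H : Hy) (hR : SKr h R) (hRA : SKr h (bc (algebraMap B₀ A) R)) (hN : 0 < N)
    (m : ℕ) (Z : Finset (Fin k ⊕ Fin k)) (hf : ∀ i, f i ∈ EE R)
    {p : Bool → (R →ₐ[B₀] PowerSeries A)} (hp : ∀ b, FPm (p b))
    (hd : DJm (p true) (p false)) : ∃ y, Rc E N k m Z f p y := by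
  obtain ⟨m1, -, -, m4⟩ := H.mex (A := A) hR.kr hR.smc
  choose pt hpt using fun b => m1 (p b) (hp b)
  have hdp : Disj pt := (m4 pt p hpt).2 hd
  obtain ⟨ω, hω⟩ := fm_exi H hRA pt hdp Z fun i => kmap (algebraMap B₀ A) (f i)
  have hf' : ∀ i, kmap (algebraMap B₀ A) (f i) ∈ EE (bc (algebraMap B₀ A) R) := fun i =>
    (H.mee hR.kr (algebraMap B₀ A)).1 _ (hf i)
  obtain ⟨y, hy⟩ := lft H hRA pt hdp E hN k m ω fun i => fm_mem H hRA pt hdp hf' hω i
  exact ⟨y, pt, hpt, hdp, ω, hω, hy⟩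

omit [Fintype I] [Nonempty I] in
/-- Base change of formal points. -/
theorem bcr_exi [Fintype I] [Nonempty I] (H : Hy) {A B : Type} [CommRing A] [CommRing B] {g : ℕ}
    {P : Subalgebra A (KK I A)} (hP : IsKr g P) (pt : FPt P) (φ : A →+* B)
    {Q : Subalgebra B (KK I B)} (hQ : Q = bc φ P) : ∃ pt' : FPt Q, Bcr φ pt pt' := by
  subst hQ
  obtain ⟨pt', hp, -⟩ := (H.awb hP φ).1 pt
  refine ⟨pt', rfl, fun f f' hf => ?_⟩
  have e : f' = bcMap φ P f := Subtype.ext hf
  rw [e]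
  exact hp.1 f

theorem rc_nat (H : Hy) (hRA : SKr h (bc (algebraMap B₀ A) R)) (hm : m < N) {B : Type}
    [CommRing B] [Algebra B₀ B] [Algebra ℂ B] (φ : A →ₐ[ℂ] B)
    (hφ : ∀ b, φ (algebraMap B₀ A b) = algebraMap B₀ B b)
    {p : Bool → (R →ₐ[B₀] PowerSeries A)} {p' : Bool → (R →ₐ[B₀] PowerSeries B)}
    (hp : ∀ b r, p' b r = PowerSeries.map (φ : A →+* B) (p b r)) {y : A}
    (hy : Rc E N k m Z f p y) : Rc E N k m Z f p' (φ y) := by
  obtain ⟨pt, hpt, hd, ω, hω, hc⟩ := hy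
  have hcm : algebraMap B₀ B = (φ : A →+* B).comp (algebraMap B₀ A) :=
    RingHom.ext fun b => (hφ b).symm
  have hQ : bc (algebraMap B₀ B) R = bc (φ : A →+* B) (bc (algebraMap B₀ A) R) := by
    rw [hcm]
    exact H.kbc.2.1 _ _ R
  choose pt' hpt' using fun b => bcr_exi H hRA.kr (pt b) (φ : A →+* B) hQ
  have hk : ∀ x : KK I B₀, kmap (algebraMap B₀ B) x =
      kmap (φ : A →+* B) (kmap (algebraMap B₀ A) x) := fun x => by
    rw [hcm]
    rfl
  refine ⟨pt', fun b r => ?_, ((H.mpb hRA.kr hRA.smc pt hd).1 _ _ pt' hpt').1,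
    fun i => kmap (φ : A →+* B) (ω i), ?_, nat H hRA pt hd E hm φ pt' hpt' hc⟩
  · rw [(hpt' b).2 (bcMap (algebraMap B₀ A) R r) (bcMap (algebraMap B₀ B) R r) (hk r), hpt, hp]
  · have := fm_nat H hRA pt hd (φ : A →+* B) pt' hpt' hω
    simpa only [hk] using this

theorem rc_wt (H : Hy) (hRA : SKr h (bc (algebraMap B₀ A) R)) (hm : m < N) (c : Bool → Aˣ)
    {p p' : Bool → (R →ₐ[B₀] PowerSeries A)}
    (hp : ∀ b r, p' b r = PowerSeries.rescale (c b : A) (p b r)) {y : A}
    (hy : Rc E N k m Z f p y) : Rc E N k m Z f p'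
      (((((c true)⁻¹ : Aˣ) : A) * (((c false)⁻¹ : Aˣ) : A)) ^ k *
        (((c true : A) * (c false : A)) ^ m * y)) := by
  obtain ⟨pt, hpt, hd, ω, hω, hc⟩ := hy
  refine ⟨fun b => (pt b).resc (c b), fun b r => ?_, fun i j hij => ?_, ω,
    fm_scl H pt c hω, scl H hRA pt hd E hm c hc⟩
  · change PowerSeries.rescale (c b : A) ((pt b).h (bcMap (algebraMap B₀ A) R r)) = _
    rw [hpt, hp]
  · have := (H.pl2.2.1 pt c 0).1
    rw [this, this]
    exact hd i j hij

/-- Values and forgetting punctures. -/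
theorem rc_fgt (H : Hy) {J : Type} [Fintype J] {W : Subalgebra B₀ (KK (I ⊕ J) B₀)}
    {f : Fin k ⊕ Fin k → KK (I ⊕ J) B₀}
    (hWA : SKr h (bc (algebraMap B₀ A) W)) (hRA : SKr h (bc (algebraMap B₀ A) R))
    (hF : Forget (bc (algebraMap B₀ A) W) (bc (algebraMap B₀ A) R)) (hm : m + 1 < N)
    (ι : R →ₐ[B₀] W)
    (he : ∀ (r : R) (i : I), (ι r : KK (I ⊕ J) B₀) (Sum.inl i) = (r : KK I B₀) i)
    (hr : ∀ (r : R) (i : J), ∀ m < 0, ((ι r : KK (I ⊕ J) B₀) (Sum.inr i)).coeff m = 0)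
    {p : Bool → (W →ₐ[B₀] PowerSeries A)} {y : A} (hy : Rc E N k m Z f p y) :
    Rc E N k m Z (fun i => atI (f i)) (fun b => (p b).comp ι) y := by
  obtain ⟨pt, hpt, hd, ω, hω, hc⟩ := hy
  obtain ⟨l1, l2⟩ := H.plf hWA.kr hRA.kr hWA.smc hRA.smc hF
  choose pt₁ hpt₁ using fun b => l1 (pt b)
  refine ⟨pt₁, fun b r => ?_, (l2 pt pt₁ hpt₁ hd).1, fun i => atI (ω i),
    fm_fgt H hWA hRA hF pt pt₁ hpt₁ hd hω, fgt H hWA hRA hF pt pt₁ hpt₁ hd E hm hc⟩
  have e1 : atI ((bcMap (algebraMap B₀ A) W (ι r) : bc (algebraMap B₀ A) W) :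
      KK (I ⊕ J) A) = (bcMap (algebraMap B₀ A) R r : bc (algebraMap B₀ A) R) := by
    funext i
    change lmap (algebraMap B₀ A) ((ι r : KK (I ⊕ J) B₀) (Sum.inl i)) = _
    rw [he]
    rfl
  have e2 : atJ ((bcMap (algebraMap B₀ A) W (ι r) : bc (algebraMap B₀ A) W) :
      KK (I ⊕ J) A) ∈ Pol J A 0 := by
    intro i n hn
    change (algebraMap B₀ A) (((ι r : KK (I ⊕ J) B₀) (Sum.inr i)).coeff n) = 0
    rw [hr r i n (by simpa using hn), map_zero]
  rw [hpt₁ b _ _ e1 e2, hpt]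
  rfl

end

/-! ## Change of the index set -/

section

variable {I I' A : Type} [CommRing A]

/-- The isomorphism of `reix e P` with `P`. -/
noncomputable def toP (e : I' ≃ I) (P : Subalgebra A (KK I A)) : reix e P →ₐ[A] P where
  toFun f := ⟨fun i => (f : KK I' A) (e.symm i), f.2⟩
  map_one' := rfl
  map_zero' := rfl
  map_add' _ _ := rfl
  map_mul' _ _ := rfl
  commutes' _ := rfl

/-- The isomorphism of `P` with `reix e P`. -/
noncomputable def ofP (e : I' ≃ I) (P : Subalgebra A (KK I A)) : P →ₐ[A] reix e P where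
  toFun f := ⟨fun i => (f : KK I A) (e i), by
    change (fun i => (f : KK I A) (e (e.symm i))) ∈ P
    simpa only [Equiv.apply_symm_apply] using f.2⟩
  map_one' := rfl
  map_zero' := rfl
  map_add' _ _ := rfl
  map_mul' _ _ := rfl
  commutes' _ := rfl

theorem toP_ofP (e : I' ≃ I) (P : Subalgebra A (KK I A)) (f : P) : toP e P (ofP e P f) = f :=
  Subtype.ext (funext fun i => by
    change (f : KK I A) (e (e.symm i)) = _
    rw [Equiv.apply_symm_apply])

theorem toP_eq (e : I' ≃ I) (P : Subalgebra A (KK I A)) (f : P) (f' : reix e P)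
    (h : ∀ i, (f' : KK I' A) i = (f : KK I A) (e i)) : toP e P f' = f :=
  Subtype.ext (funext fun i => by
    change (f' : KK I' A) (e.symm i) = _
    rw [h, Equiv.apply_symm_apply])

/-- The formal point of `reix e P`. -/
noncomputable def rpt (e : I' ≃ I) {P : Subalgebra A (KK I A)} (pt : FPt P) :
    FPt (reix e P) where
  h := pt.h.comp (toP e P)
  x := ofP e P pt.x
  par := by
    rw [AlgHom.comp_apply, toP_ofP]
    exact pt.par

theorem res_idx [Fintype I] [Fintype I'] (e : I' ≃ I) (f : KK I A) :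
    res (fun i => f (e i) : KK I' A) = res f :=
  Equiv.sum_comp e fun i => (f i).coeff (-1)

theorem disj_rpt (e : I' ≃ I) {P : Subalgebra A (KK I A)} {pt : Bool → FPt P}
    (hd : Disj pt) : Disj fun b => rpt e (pt b) := by
  intro i j hij
  have h := hd i j hij
  rw [Ideal.eq_top_iff_one, Submodule.mem_sup] at h ⊢
  obtain ⟨a, ha, b, hb, hab⟩ := h
  refine ⟨ofP e P a, ?_, ofP e P b, ?_, by rw [← map_add, hab, map_one]⟩
  · change PowerSeries.constantCoeff ((pt i).h (toP e P (ofP e P a))) = 0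
    rw [toP_ofP]
    exact ha
  · change PowerSeries.constantCoeff ((pt j).h (toP e P (ofP e P b))) = 0
    rw [toP_ofP]
    exact hb

theorem ee_idx [Fintype I] [Fintype I'] (e : I' ≃ I) {P : Subalgebra A (KK I A)} {u : KK I A}
    (hu : u ∈ EE P) : (fun i => u (e i) : KK I' A) ∈ EE (reix e P) := by
  refine ⟨fun p hp => ?_, fun i m hm => hu.2 (e i) m hm⟩
  have h := hu.1 _ hp
  rw [← res_idx e] at h
  have e1 : (fun i => (u * fun i => p (e.symm i) : KK I A) (e i) : KK I' A) =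
      (fun i => u (e i) : KK I' A) * p := by
    funext i
    change u (e i) * p (e.symm (e i)) = u (e i) * p i
    rw [Equiv.symm_apply_apply]
  rwa [e1] at h

theorem ee_idx' [Fintype I] [Fintype I'] (e : I' ≃ I) {P : Subalgebra A (KK I A)} {u : KK I' A}
    (hu : u ∈ EE (reix e P)) : (fun i => u (e.symm i) : KK I A) ∈ EE P := by
  refine ⟨fun p hp => ?_, fun i m hm => hu.2 (e.symm i) m hm⟩
  have hp' : (fun i => p (e i) : KK I' A) ∈ reix e P := (ofP e P ⟨p, hp⟩).2
  have h := hu.1 _ hp'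
  rw [← res_idx e]
  have e1 : (fun i => ((fun i => u (e.symm i) : KK I A) * p) (e i) : KK I' A) =
      u * (fun i => p (e i) : KK I' A) := by
    funext i
    change u (e.symm (e i)) * p (e i) = u i * p (e i)
    rw [Equiv.symm_apply_apply]
  rwa [e1]

theorem rix_aux (H : Hy) [Algebra ℂ A] [Fintype I] [Nonempty I] [Fintype I'] [Nonempty I']
    {h : ℕ} (E : Ev (h + 1)) {N k m : ℕ} {Z : Finset (Fin k ⊕ Fin k)} (hN : 0 < N)
    (e : I' ≃ I) {P : Subalgebra A (KK I A)} (hP : SKr h P) {Q : Subalgebra A (KK I' A)}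
    (hQ : Q = reix e P) (pt : Bool → FPt P) (hd : Disj pt) {f ω : Fin k ⊕ Fin k → KK I A}
    (hω : Fm pt Z f ω) {y : A} (hc : Cv E pt N k m ω y) :
    ∃ pt₁ : Bool → FPt Q, (∀ (b : Bool) (f : P) (f' : Q),
      (∀ i, (f' : KK I' A) i = (f : KK I A) (e i)) → (pt₁ b).h f' = (pt b).h f) ∧
      Disj pt₁ ∧ Fm pt₁ Z (fun j i => f j (e i)) (fun j i => ω j (e i)) ∧
      Cv E pt₁ N k m (fun j i => ω j (e i)) y := by
  subst hQ
  have hp : ∀ (b : Bool) (f : P) (f' : reix e P),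
      (∀ i, (f' : KK I' A) i = (f : KK I A) (e i)) → (rpt e (pt b)).h f' = (pt b).h f := by
    intro b f f' hf
    change (pt b).h (toP e P f') = _
    rw [toP_eq e P f f' hf]
  have hc' := rix H e hP pt (fun b => rpt e (pt b)) hd hp E hc
  have hd' := disj_rpt e hd
  refine ⟨fun b => rpt e (pt b), hp, hd', ⟨fun i hi => ?_, fun i hi => ⟨?_, ?_⟩⟩, hc'⟩
  · funext j
    exact congrFun (hω.1 i hi) (e j)
  · exact cv_mem H (H.mvr e hP).1 _ hd' E hN hc' i
  · intro r'
    have h := (hω.2 i hi).2 (toP e P r')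
    rw [← res_idx e] at h
    have e1 : (fun j => (ω i * (toP e P r' : KK I A)) (e j) : KK I' A) =
        (fun j => ω i (e j) : KK I' A) * (r' : KK I' A) := by
      funext j
      change ω i (e j) * (r' : KK I' A) (e.symm (e j)) = ω i (e j) * (r' : KK I' A) j
      rw [Equiv.symm_apply_apply]
    rw [e1] at h
    exact h

theorem rc_rix {B₀ : Type} [CommRing B₀] (H : Hy) [Algebra B₀ A] [Algebra ℂ A] [Fintype I]
    [Nonempty I] [Fintype I'] [Nonempty I'] {h : ℕ} (E : Ev (h + 1)) {N k m : ℕ}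
    {Z : Finset (Fin k ⊕ Fin k)} (hN : 0 < N) (e : I' ≃ I) {R : Subalgebra B₀ (KK I B₀)}
    (hRA : SKr h (bc (algebraMap B₀ A) R)) {f : Fin k ⊕ Fin k → KK I B₀}
    {p : Bool → (R →ₐ[B₀] PowerSeries A)} {y : A} (hy : Rc E N k m Z f p y) :
    Rc E N k m Z (fun j i => f j (e i)) (fun b => (p b).comp (toP e R)) y := by
  obtain ⟨pt, hpt, hd, ω, hω, hc⟩ := hy
  obtain ⟨pt₁, h1, h2, h3, h4⟩ := rix_aux H E hN e hRA (H.mcb.2.1 (algebraMap B₀ A) e R) pt hd
    hω hc
  refine ⟨pt₁, fun b r => ?_, h2, _, h3, h4⟩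
  rw [h1 b (bcMap (algebraMap B₀ A) R (toP e R r)) (bcMap (algebraMap B₀ A) (reix e R) r), hpt]
  · rfl
  · intro i
    change lmap (algebraMap B₀ A) ((r : KK I' B₀) i) =
      lmap (algebraMap B₀ A) ((r : KK I' B₀) (e.symm (e i)))
    rw [Equiv.symm_apply_apply]

end

/-! ## The induction step -/

section

/-- A situation: one of the two charts, an algebra `A` and two formal points. -/
structure Sit {B₀ : Type} [CommRing B₀] [Algebra ℂ B₀] (I : Bool → Type)
    (R : ∀ j, Subalgebra B₀ (KK (I j) B₀)) (bb : ∀ j, R j) : Type 1 where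
  /-- the chart -/
  j : Bool
  /-- the algebra -/
  A : Type
  [cr : CommRing A]
  [al : Algebra B₀ A]
  [cl : Algebra ℂ A]
  [tw : IsScalarTower ℂ B₀ A]
  /-- the formal points -/
  pt : Bool → FPt (bc (algebraMap B₀ A) (R j))
  dj : Disj pt
  un : ∀ x, IsUnit ((pt x).ev (bcMap (algebraMap B₀ A) (R j) (bb j)))

attribute [instance] Sit.cr Sit.al Sit.cl Sit.tw

theorem rho_lin (H : Hy) {I A : Type} [Fintype I] [Nonempty I] [CommRing A] {h : ℕ}
    {R : Subalgebra A (KK I A)} (hR : SKr h R) (pt : Bool → FPt R) (hd : Disj pt) :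
    ∃ ρ : EE (PT pt (0 : A)) →ₗ[A] A, ∀ v : EE (PT pt (0 : A)), IsRho pt (v : KK I A) (ρ v) := by
  have hu := (H.plr hR.kr hR.smc pt hd).1
  choose ρ hρ hρ' using fun v : EE (PT pt (0 : A)) => hu v v.2
  refine ⟨{ toFun := ρ, map_add' := fun v w => ?_, map_smul' := fun a v => ?_ }, hρ⟩
  · refine (hρ' (v + w) _ fun r => ?_).symm
    change res (((v : KK I A) + (w : KK I A)) * _) = _
    rw [add_mul, map_add, hρ v r, hρ w r]
    ring
  · refine (hρ' (a • v) _ fun r => ?_).symm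
    change res ((a • (v : KK I A)) * _) = _
    rw [smul_mul_assoc, map_smul, hρ v r, smul_eq_mul, RingHom.id_apply, smul_eq_mul]
    ring

variable {B₀ : Type} [CommRing B₀] [Algebra ℂ B₀] {I : Bool → Type} [∀ j, Fintype (I j)]
  [∀ j, Nonempty (I j)] {h : ℕ}

theorem step (H : Hy) (R : ∀ j, Subalgebra B₀ (KK (I j) B₀)) (bb : ∀ j, R j)
    (hR : ∀ j, SKr h (R j))
    (hRA : ∀ (j : Bool) (A : Type) [CommRing A] [Algebra B₀ A],
      SKr h (bc (algebraMap B₀ A) (R j)))
    (E₀ : Type) [Nonempty E₀] (rs : ∀ j, E₀ → KK (I j) B₀) (hrs : ∀ j e, rs j e ∈ EE (R j))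
    (hrs' : ∀ j, ∀ v ∈ EE (R j), ∃ e, rs j e = v) (E : Ev (h + 1)) {N k m : ℕ} (hm : m < k)
    (hk : k < N)
    (hG : ∀ (Z : Finset (Fin k ⊕ Fin k)) (e : Fin k ⊕ Fin k → E₀),
      (∀ (j : Bool) (A : Type) [CommRing A] [Algebra B₀ A] [Algebra ℂ A]
        [IsScalarTower ℂ B₀ A], Ind E N k m Z (bb j) (fun i => rs j (e i)) A) →
      ∀ (j : Bool) (A : Type) [CommRing A] [Algebra B₀ A] [Algebra ℂ A] [IsScalarTower ℂ B₀ A]
        (p : Bool → (R j →ₐ[B₀] PowerSeries A)), (∀ b, FPm (p b)) → DJm (p true) (p false) →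
        (∀ x, IsUnit (PowerSeries.constantCoeff (p x (bb j)))) →
        Rc E N k m Z (fun i => rs j (e i)) p 0)
    (hI : ∀ s : Sit I R bb, IHm E s.pt N k m) (s : Sit I R bb) : IHm E s.pt N k (m + 1) := by
  have hN : 0 < N := by omega
  choose M hM using fun s : Sit I R bb => mlt H (hRA s.j s.A) s.pt s.dj E hm hk (hI s)
  choose ρ hρ using fun s : Sit I R bb => rho_lin H (hRA s.j s.A) s.pt s.dj
  -- uniqueness of the residue
  have hun : ∀ (s : Sit I R bb) (v : EE (PT s.pt (0 : s.A))) (r : s.A),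
      IsRho s.pt (v : KK (I s.j) s.A) r → ρ s v = r := fun s v r hr =>
    ((H.plr (hRA s.j s.A).kr (hRA s.j s.A).smc s.pt s.dj).1 v v.2).unique (hρ s v) hr
  have hmem : ∀ (s : Sit I R bb) (x : KK (I s.j) B₀), x ∈ EE (R s.j) →
      kmap (algebraMap B₀ s.A) x ∈ EE (bc (algebraMap B₀ s.A) (R s.j)) := fun s x hx =>
    (H.mee (hR s.j).kr (algebraMap B₀ s.A)).1 _ hx
  have hmem0 : ∀ (s : Sit I R bb) (x : KK (I s.j) s.A),
      x ∈ EE (bc (algebraMap B₀ s.A) (R s.j)) → x ∈ EE (PT s.pt (0 : s.A)) ∧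
        IsRho s.pt x 0 := fun s x hx =>
    (H.plr (hRA s.j s.A).kr (hRA s.j s.A).smc s.pt s.dj).2.2.1 x hx
  let io : ∀ s : Sit I R bb, E₀ → EE (PT s.pt (0 : s.A)) := fun s e =>
    ⟨kmap (algebraMap B₀ s.A) (rs s.j e), (hmem0 s _ (hmem s _ (hrs s.j e))).1⟩
  have hzero : ∀ s : Sit I R bb, M s = 0 := by
    refine H.mal (n := Fin k ⊕ Fin k) (Sit I R bb) (fun s => s.A)
      (fun s => EE (PT s.pt (0 : s.A))) M ρ E₀ io ?_ ?_ ?_ ?_
    · intro s
      obtain ⟨η, h1, h2⟩ := (H.plr (hRA s.j s.A).kr (hRA s.j s.A).smc s.pt s.dj).2.2.2 1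
      exact ⟨⟨η, h1⟩, hun s ⟨η, h1⟩ 1 h2⟩
    · intro s e
      exact hun s (io s e) 0 (hmem0 s _ (hmem s _ (hrs s.j e))).2
    · intro s v hv
      have h1 : (v : KK (I s.j) s.A) ∈ EE (bc (algebraMap B₀ s.A) (R s.j)) := by
        refine (H.plr (hRA s.j s.A).kr (hRA s.j s.A).smc s.pt s.dj).2.1 _ v.2 ?_
        have := hρ s v
        rwa [hv] at this
      rw [(H.mee (hR s.j).kr (algebraMap B₀ s.A)).2.1] at h1
      have h2 : Submodule.span s.A (kmap (algebraMap B₀ s.A) '' (EE (R s.j) :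
          Set (KK (I s.j) B₀))) ≤ (Submodule.span s.A (Set.range (io s))).map
            (Submodule.subtype (EE (PT s.pt (0 : s.A)))) := by
        rw [Submodule.span_le]
        rintro _ ⟨x, hx, rfl⟩
        obtain ⟨e, rfl⟩ := hrs' s.j x hx
        exact ⟨io s e, Submodule.subset_span ⟨e, rfl⟩, rfl⟩
      obtain ⟨v', hv', he⟩ := h2 h1
      have : v' = v := Subtype.ext he
      rwa [this] at hv'
    · intro Z e hind s ω hω1 hω2
      have hInd : ∀ (j : Bool) (A : Type) [CommRing A] [Algebra B₀ A] [Algebra ℂ A]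
          [IsScalarTower ℂ B₀ A], Ind E N k m Z (bb j) (fun i => rs j (e i)) A := by
        intro j A _ _ _ _ pt hd hu ω ω' y y' hω hω' hc hc'
        let s : Sit I R bb := ⟨j, A, pt, hd, hu⟩
        have m1 := cv_mem H (hRA j A) pt hd E hN hc
        have m2 := cv_mem H (hRA j A) pt hd E hN hc'
        have e1 := hM s (fun i => ⟨ω i, m1 i⟩) y hc
        have e2 := hM s (fun i => ⟨ω' i, m2 i⟩) y' hc'
        rw [e1, e2]
        refine hind s _ _ (fun i hi => ⟨Subtype.ext (hω.1 i hi), Subtype.ext (hω'.1 i hi)⟩)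
          fun i hi => ⟨?_, ?_⟩
        · exact hun s ⟨ω i, m1 i⟩ 1 (hω.2 i hi).2
        · exact hun s ⟨ω' i, m2 i⟩ 1 (hω'.2 i hi).2
      obtain ⟨-, x2, -, x4⟩ := H.mex (A := s.A) (hR s.j).kr (hR s.j).smc
      choose p hp hp' using fun b => x2 (s.pt b)
      have hup : ∀ x, IsUnit (PowerSeries.constantCoeff (p x (bb s.j))) := fun x => by
        rw [← hp']
        exact s.un x
      have hz := hG Z e hInd s.j s.A p hp ((x4 s.pt p hp').1 s.dj) hup
      obtain ⟨y, hy⟩ := lft H (hRA s.j s.A) s.pt s.dj E hN k m (fun i => (ω i : KK (I s.j) s.A))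
        fun i => (ω i).2
      have hfm : Fm s.pt Z (fun i => kmap (algebraMap B₀ s.A) (rs s.j (e i)))
          fun i => (ω i : KK (I s.j) s.A) := by
        refine ⟨fun i hi => ?_, fun i hi => ⟨(ω i).2, ?_⟩⟩
        · exact congrArg Subtype.val (hω1 i hi)
        · rw [← hω2 i hi]
          exact hρ s (ω i)
      have hrc : Rc E N k m Z (fun i => rs s.j (e i)) p y := ⟨s.pt, hp', s.dj, _, hfm, hy⟩
      rw [← hM s ω y hy]
      exact rc_uniq E H (hR s.j) (hRA s.j s.A) (by omega) (hInd s.j s.A) hup hrc hz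
  intro u u' x hx i hi
  rcases Nat.lt_succ_iff_lt_or_eq.1 hi with hi | rfl
  · exact hI s u u' x hx i hi
  · obtain ⟨π, hπ⟩ := exi_pi H s.A hN
    have hc : Cv E s.pt N k i (fun j => Sum.elim (fun a => kmap (π : TrA s.A N →+* s.A) (u a))
        (fun a => kmap (π : TrA s.A N →+* s.A) (u' a)) j) (co i x) :=
      ⟨u, u', x, hx, fun a => (rd_iff H hN hπ).1 rfl, fun a => (rd_iff H hN hπ).1 rfl, rfl⟩
    have m1 := cv_mem H (hRA s.j s.A) s.pt s.dj E hN hc
    have e1 := hM s (fun j => ⟨_, m1 j⟩) _ hc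
    rw [e1, hzero s]
    rfl

end

/-! ## The functions of pairs of formal points -/

section

/-- The `ℂ`-algebra structure of a `B₀`-algebra. -/
@[reducible] noncomputable def cal (B₀ A : Type) [CommRing B₀] [Algebra ℂ B₀] [CommRing A]
    [Algebra B₀ A] : Algebra ℂ A :=
  Algebra.compHom A (algebraMap ℂ B₀)

theorem cal_tower (B₀ A : Type) [CommRing B₀] [Algebra ℂ B₀] [CommRing A] [Algebra B₀ A] :
    letI := cal B₀ A
    IsScalarTower ℂ B₀ A :=
  letI := cal B₀ A
  IsScalarTower.of_algebraMap_eq' rfl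

theorem cal_eq (B₀ A : Type) [CommRing B₀] [Algebra ℂ B₀] [CommRing A] [Algebra B₀ A]
    (i : Algebra ℂ A) (ht : IsScalarTower ℂ B₀ A) : i = cal B₀ A := by
  refine Algebra.algebra_ext _ _ fun r => ?_
  exact IsScalarTower.algebraMap_apply ℂ B₀ A r

variable {B₀ I : Type} [CommRing B₀] [Algebra ℂ B₀] [Fintype I] {h : ℕ}

/-- Two formal points. -/
def two {R A : Type} [CommRing R] [Algebra B₀ R] [CommRing A] [Algebra B₀ A]
    (p q : R →ₐ[B₀] PowerSeries A) : Bool → (R →ₐ[B₀] PowerSeries A) :=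
  fun b => cond b p q

/-- The function of pairs of formal points given by a family. -/
noncomputable def cc (E : Ev (h + 1)) (N k m : ℕ) (Z : Finset (Fin k ⊕ Fin k))
    (R : Subalgebra B₀ (KK I B₀)) (f : Fin k ⊕ Fin k → KK I B₀) : CF B₀ R :=
  fun A _ _ p q =>
    letI := cal B₀ A
    Classical.epsilon fun y => Rc E N k m Z f (two p q) y

variable [Nonempty I] (E : Ev (h + 1)) {N k m : ℕ} {Z : Finset (Fin k ⊕ Fin k)}
  {R : Subalgebra B₀ (KK I B₀)} {f : Fin k ⊕ Fin k → KK I B₀}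

/-- The independence of the family, for all algebras. -/
def IndA (E : Ev (h + 1)) (N k m : ℕ) (Z : Finset (Fin k ⊕ Fin k))
    {R : Subalgebra B₀ (KK I B₀)} (c : R) (f : Fin k ⊕ Fin k → KK I B₀) : Prop :=
  ∀ (A : Type) [CommRing A] [Algebra B₀ A] [Algebra ℂ A] [IsScalarTower ℂ B₀ A],
    Ind E N k m Z c f A

theorem cc_eq (H : Hy) (hR : SKr h R)
    (hRA : ∀ (A : Type) [CommRing A] [Algebra B₀ A], SKr h (bc (algebraMap B₀ A) R))
    (hm : m < N) {c : R} (hi : IndA E N k m Z c f) {A : Type} [CommRing A] [Algebra B₀ A]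
    {p q : R →ₐ[B₀] PowerSeries A} (hu : UnP c p q) {y : A}
    (hy : letI := cal B₀ A; Rc E N k m Z f (two p q) y) : cc E N k m Z R f A p q = y := by
  let i1 := cal B₀ A
  have i2 : IsScalarTower ℂ B₀ A := cal_tower B₀ A
  have h1 : Rc E N k m Z f (two p q) (cc E N k m Z R f A p q) :=
    Classical.epsilon_spec (p := fun y => Rc E N k m Z f (two p q) y) ⟨y, hy⟩
  exact rc_uniq E H hR (hRA A) hm (hi A) (fun x => by cases x <;> [exact hu.2; exact hu.1]) h1 hy

theorem cc_spec (H : Hy) (hR : SKr h R)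
    (hRA : ∀ (A : Type) [CommRing A] [Algebra B₀ A], SKr h (bc (algebraMap B₀ A) R))
    (hm : m < N) (hf : ∀ i, f i ∈ EE R) {A : Type} [CommRing A] [Algebra B₀ A]
    {p q : R →ₐ[B₀] PowerSeries A} (hp : FPm p) (hq : FPm q) (hd : DJm p q) :
    letI := cal B₀ A
    Rc E N k m Z f (two p q) (cc E N k m Z R f A p q) := by
  let i1 := cal B₀ A
  obtain ⟨y, hy⟩ := rc_exi E H hR (hRA A) (show 0 < N by omega) m Z hf (p := two p q)
    (fun b => by cases b <;> assumption) hd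
  exact Classical.epsilon_spec (p := fun y => Rc E N k m Z f (two p q) y) ⟨y, hy⟩

theorem cc_nat (H : Hy) (hR : SKr h R)
    (hRA : ∀ (A : Type) [CommRing A] [Algebra B₀ A], SKr h (bc (algebraMap B₀ A) R))
    (hm : m < N) {c : R} (hi : IndA E N k m Z c f) (hf : ∀ i, f i ∈ EE R) :
    (cc E N k m Z R f).Nat c := by
  intro A A' _ _ _ _ φ p q p' q' hp hq hd hu h1 h2
  let i1 := cal B₀ A
  let i2 := cal B₀ A'
  have i3 : IsScalarTower ℂ B₀ A := cal_tower B₀ A
  have i4 : IsScalarTower ℂ B₀ A' := cal_tower B₀ A'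
  have hs := cc_spec E H hR hRA hm hf (Z := Z) hp hq hd
  have hu' : UnP c p' q' := by
    constructor
    · rw [h1, ← PowerSeries.coeff_zero_eq_constantCoeff_apply, PowerSeries.coeff_map,
        PowerSeries.coeff_zero_eq_constantCoeff_apply]
      exact hu.1.map _
    · rw [h2, ← PowerSeries.coeff_zero_eq_constantCoeff_apply, PowerSeries.coeff_map,
        PowerSeries.coeff_zero_eq_constantCoeff_apply]
      exact hu.2.map _
  refine cc_eq E H hR hRA hm hi hu' ?_
  exact rc_nat E H (hRA A) hm (φ.restrictScalars ℂ) (fun b => φ.commutes b)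
    (p' := two p' q') (fun b r => by cases b <;> [exact h2 r; exact h1 r]) hs

theorem cc_wt (H : Hy) (hR : SKr h R)
    (hRA : ∀ (A : Type) [CommRing A] [Algebra B₀ A], SKr h (bc (algebraMap B₀ A) R))
    (hm : m < k) (hk : k < N) {c : R} (hi : IndA E N k m Z c f) (hf : ∀ i, f i ∈ EE R) :
    (cc E N k m Z R f).Wt c (k - m) := by
  intro A _ _ a b p q p' q' hp hq hd hu h1 h2
  let i1 := cal B₀ A
  have hs := cc_spec E H hR hRA (show m < N by omega) hf (Z := Z) hp hq hd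
  have ht := rc_wt E H (hRA A) (show m < N by omega) (fun x => cond x a b) (p' := two p' q')
    (fun x r => by cases x <;> [exact h2 r; exact h1 r]) hs
  have hu' : UnP c p' q' := by
    constructor
    · rw [h1, ← PowerSeries.coeff_zero_eq_constantCoeff_apply, PowerSeries.coeff_rescale,
        PowerSeries.coeff_zero_eq_constantCoeff_apply, pow_zero, one_mul]
      exact hu.1
    · rw [h2, ← PowerSeries.coeff_zero_eq_constantCoeff_apply, PowerSeries.coeff_rescale,
        PowerSeries.coeff_zero_eq_constantCoeff_apply, pow_zero, one_mul]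
      exact hu.2
  rw [cc_eq E H hR hRA (by omega) hi hu' ht]
  simp only [cond_true, cond_false]
  have e1 : ((a : A) * (b : A)) ^ k * ((((a⁻¹ : Aˣ) : A) * ((b⁻¹ : Aˣ) : A)) ^ k) = 1 := by
    rw [← mul_pow]
    have : (a : A) * (b : A) * (((a⁻¹ : Aˣ) : A) * ((b⁻¹ : Aˣ) : A)) = 1 := by
      rw [mul_mul_mul_comm, Units.mul_inv, Units.mul_inv, one_mul]
    rw [this, one_pow]
  have e2 : ((a : A) * (b : A)) ^ k = ((a : A) * (b : A)) ^ (k - m) * ((a : A) * (b : A)) ^ m := by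
    rw [← pow_add, Nat.sub_add_cancel hm.le]
  calc _ = ((a : A) * (b : A)) ^ (k - m) * ((a : A) * (b : A)) ^ m *
        ((((a⁻¹ : Aˣ) : A) * ((b⁻¹ : Aˣ) : A)) ^ k) * cc E N k m Z R f A p q := by ring
    _ = _ := by rw [← e2, e1, one_mul]

end

/-! ## Two charts -/

section

theorem rc_two {B₀ I : Type} [CommRing B₀] [Fintype I] {g : ℕ} {E : Ev g} {N k m : ℕ}
    {Z : Finset (Fin k ⊕ Fin k)} {R : Subalgebra B₀ (KK I B₀)} {f : Fin k ⊕ Fin k → KK I B₀}
    {A : Type} [CommRing A] [Algebra B₀ A] [Algebra ℂ A] {p : Bool → (R →ₐ[B₀] PowerSeries A)}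
    {y : A} (h : Rc E N k m Z f (two (p true) (p false)) y) : Rc E N k m Z f p y := by
  have t : two (p true) (p false) = p := funext fun b => by cases b <;> rfl
  rwa [t] at h

variable {B₀ I₁ I₂ : Type} [CommRing B₀] [Fintype I₁] [Fintype I₂] {h : ℕ}
  {R₁ : Subalgebra B₀ (KK I₁ B₀)} {R₂ : Subalgebra B₀ (KK I₂ B₀)}
  {R₁₂ : Subalgebra B₀ (KK (I₁ ⊕ I₂) B₀)}

theorem fgt1 (hC : Chp h R₁ R₂ R₁₂) : Forget R₁₂ R₁ := ⟨hC.f1, hC.i1, hC.d1⟩

theorem fgt2 (hC : Chp h R₁ R₂ R₁₂) : Forget (reix (Equiv.sumComm I₂ I₁) R₁₂) R₂ := by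
  refine ⟨hC.f2, fun w hw h0 => ?_, hC.d2⟩
  have h1 := hC.i2 _ hw fun i => h0 i
  funext i
  have h2 : w ((Equiv.sumComm I₂ I₁).symm (Equiv.sumComm I₂ I₁ i)) = 0 :=
    congrFun h1 (Equiv.sumComm I₂ I₁ i)
  rwa [Equiv.symm_apply_apply] at h2

/-- The index sets of the two charts. -/
def II (I₁ I₂ : Type) : Bool → Type
  | true => I₁
  | false => I₂

instance (I₁ I₂ : Type) [Fintype I₁] [Fintype I₂] (j : Bool) : Fintype (II I₁ I₂ j) :=
  match j with
  | true => inferInstanceAs (Fintype I₁)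
  | false => inferInstanceAs (Fintype I₂)

instance (I₁ I₂ : Type) [Nonempty I₁] [Nonempty I₂] (j : Bool) : Nonempty (II I₁ I₂ j) :=
  match j with
  | true => inferInstanceAs (Nonempty I₁)
  | false => inferInstanceAs (Nonempty I₂)

/-- The rings of the two charts. -/
def RR (R₁ : Subalgebra B₀ (KK I₁ B₀)) (R₂ : Subalgebra B₀ (KK I₂ B₀)) :
    ∀ j, Subalgebra B₀ (KK (II I₁ I₂ j) B₀)
  | true => R₁
  | false => R₂

/-- The elements which are invertible at the formal points. -/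
def bbb {R₁ : Subalgebra B₀ (KK I₁ B₀)} {R₂ : Subalgebra B₀ (KK I₂ B₀)} (b₁ : R₁) (b₂ : R₂) :
    ∀ j, RR R₁ R₂ j
  | true => b₁
  | false => b₂

/-- The restriction of differentials to the two charts. -/
noncomputable def rst (R₁₂ : Subalgebra B₀ (KK (I₁ ⊕ I₂) B₀)) :
    ∀ j, EE R₁₂ → KK (II I₁ I₂ j) B₀
  | true => fun e i => (e : KK (I₁ ⊕ I₂) B₀) (Sum.inl i)
  | false => fun e i => (e : KK (I₁ ⊕ I₂) B₀) (Sum.inr i)

theorem rr_skr0 (hC : Chp h R₁ R₂ R₁₂) (j : Bool) : SKr h (RR R₁ R₂ j) := by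
  cases j with
  | true => exact hC.s1
  | false => exact hC.s2

variable [Nonempty I₁] [Nonempty I₂] [Algebra ℂ B₀]

theorem rst_mem (H : Hy) (hC : Chp h R₁ R₂ R₁₂) (j : Bool) (e : EE R₁₂) :
    rst R₁₂ j e ∈ EE (RR R₁ R₂ j) := by
  cases j with
  | true => exact (H.mfe.1 hC.s12.kr hC.s1.kr (fgt1 hC)).1 _ e.2
  | false =>
    have h1 : (fun i => (e : KK (I₁ ⊕ I₂) B₀) (Equiv.sumComm I₂ I₁ i) : KK (I₂ ⊕ I₁) B₀) ∈
        EE (reix (Equiv.sumComm I₂ I₁) R₁₂) := ee_idx (Equiv.sumComm I₂ I₁) e.2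
    have h2 := (H.mvr (Equiv.sumComm I₂ I₁) hC.s12).1.kr
    have h3 := (H.mfe.1 h2 hC.s2.kr (fgt2 hC)).1 _ h1
    exact h3

theorem rst_surj (H : Hy) (hC : Chp h R₁ R₂ R₁₂) (j : Bool) :
    ∀ v ∈ EE (RR R₁ R₂ j), ∃ e, rst R₁₂ j e = v := by
  cases j with
  | true =>
    intro v hv
    obtain ⟨u, ⟨hu, hu'⟩, -⟩ := (H.mfe.1 hC.s12.kr hC.s1.kr (fgt1 hC)).2 v hv
    exact ⟨⟨u, hu⟩, hu'⟩
  | false =>
    intro v hv
    have h2 := (H.mvr (Equiv.sumComm I₂ I₁) hC.s12).1.kr
    obtain ⟨u, ⟨hu, hu'⟩, -⟩ := (H.mfe.1 h2 hC.s2.kr (fgt2 hC)).2 v hv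
    have h3 : (fun i => u ((Equiv.sumComm I₂ I₁).symm i) : KK (I₁ ⊕ I₂) B₀) ∈ EE R₁₂ :=
      ee_idx' (Equiv.sumComm I₂ I₁) hu
    exact ⟨⟨_, h3⟩, hu'⟩

omit [Algebra ℂ B₀] in
theorem rr_skr (H : Hy) (hC : Chp h R₁ R₂ R₁₂) (j : Bool) (A : Type) [CommRing A]
    [Algebra B₀ A] : SKr h (bc (algebraMap B₀ A) (RR R₁ R₂ j)) := by
  have hC' := H.mcb.2.2 hC (algebraMap B₀ A)
  cases j with
  | true => exact hC'.s1
  | false => exact hC'.s2

theorem agr (H : Hy) (hC : Chp h R₁ R₂ R₁₂) {ι₁ : R₁ →ₐ[B₀] R₁₂} {ι₂ : R₂ →ₐ[B₀] R₁₂}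
    (hI : Inc ι₁ ι₂) (E : Ev (h + 1)) {N k m : ℕ} (hm : m + 1 < N) {Z : Finset (Fin k ⊕ Fin k)}
    (e : Fin k ⊕ Fin k → EE R₁₂) {b₁ : R₁} {b₂ : R₂}
    (h1 : IndA E N k m Z b₁ fun i => (fun j => (e i : KK (I₁ ⊕ I₂) B₀) (Sum.inl j) : KK I₁ B₀))
    (h2 : IndA E N k m Z b₂ fun i => (fun j => (e i : KK (I₁ ⊕ I₂) B₀) (Sum.inr j) : KK I₂ B₀)) :
    CF.Agr b₁ b₂ ι₁ ι₂
      (cc E N k m Z R₁ fun i => (fun j => (e i : KK (I₁ ⊕ I₂) B₀) (Sum.inl j) : KK I₁ B₀))
      (cc E N k m Z R₂ fun i => (fun j => (e i : KK (I₁ ⊕ I₂) B₀) (Sum.inr j) : KK I₂ B₀)) := by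
  intro A _ _ p q hp hq hd _ _ _ _ _ _ hu1 hu2
  let i1 := cal B₀ A
  have hC' := H.mcb.2.2 hC (algebraMap B₀ A)
  have hmN : m < N := by omega
  have hN : 0 < N := by omega
  obtain ⟨y, hy⟩ := rc_exi E H hC.s12 hC'.s12 hN m Z
    (f := fun i => (e i : KK (I₁ ⊕ I₂) B₀)) (fun i => (e i).2) (p := two p q)
    (fun b => by cases b <;> assumption) hd
  have y1 := rc_fgt E H hC'.s12 hC'.s1 (fgt1 hC') hm ι₁ hI.e1 hI.r1 hy
  have t1 : (fun b => (two p q b).comp ι₁) = two (p.comp ι₁) (q.comp ι₁) :=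
    funext fun b => by cases b <;> rfl
  rw [t1] at y1
  have y2 := rc_rix H E hN (Equiv.sumComm I₂ I₁) hC'.s12 hy
  have hQ := H.mcb.2.1 (algebraMap B₀ A) (Equiv.sumComm I₂ I₁) R₁₂
  have s2 : SKr h (bc (algebraMap B₀ A) (reix (Equiv.sumComm I₂ I₁) R₁₂)) := by
    rw [hQ]
    exact (H.mvr (Equiv.sumComm I₂ I₁) hC'.s12).1
  have f2 : Forget (bc (algebraMap B₀ A) (reix (Equiv.sumComm I₂ I₁) R₁₂))
      (bc (algebraMap B₀ A) R₂) := by
    rw [hQ]
    exact fgt2 hC'
  have y3 := rc_fgt E H s2 hC'.s2 f2 hm ((ofP (Equiv.sumComm I₂ I₁) R₁₂).comp ι₂)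
    (fun r i => hI.e2 r i) (fun r i => hI.r2 r i) y2
  have t2 : (fun b => ((two p q b).comp (toP (Equiv.sumComm I₂ I₁) R₁₂)).comp
      ((ofP (Equiv.sumComm I₂ I₁) R₁₂).comp ι₂)) = two (p.comp ι₂) (q.comp ι₂) := by
    funext b
    refine AlgHom.ext fun r => ?_
    change two p q b (toP (Equiv.sumComm I₂ I₁) R₁₂ (ofP (Equiv.sumComm I₂ I₁) R₁₂ (ι₂ r))) = _
    rw [toP_ofP]
    cases b <;> rfl
  rw [t2] at y3
  rw [cc_eq E H hC.s1 (fun A _ _ => (H.mcb.2.2 hC (algebraMap B₀ A)).s1) hmN h1 hu1 y1]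
  exact (cc_eq E H hC.s2 (fun A _ _ => (H.mcb.2.2 hC (algebraMap B₀ A)).s2) hmN h2 hu2
    y3).symm

theorem main (H : Hy) (hC : Chp h R₁ R₂ R₁₂) {ι₁ : R₁ →ₐ[B₀] R₁₂} {ι₂ : R₂ →ₐ[B₀] R₁₂}
    (hI : Inc ι₁ ι₂) {b₁ : R₁} {b₂ : R₂} (hG : ThmG b₁ b₂ ι₁ ι₂) (E : Ev (h + 1)) {N k : ℕ}
    (hk : k < N) (m : ℕ) (hm : m ≤ k) :
    ∀ s : Sit (II I₁ I₂) (RR R₁ R₂) (bbb b₁ b₂), IHm E s.pt N k m := by
  induction m with
  | zero =>
    intro s u u' x _ i hi
    omega
  | succ m ih =>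
    have hm' : m < k := hm
    have hne : Nonempty (EE R₁₂) := ⟨0⟩
    refine step H (RR R₁ R₂) (bbb b₁ b₂) (rr_skr0 hC) (rr_skr H hC) (EE R₁₂) (rst R₁₂)
      (rst_mem H hC) (rst_surj H hC) E hm' hk ?_ (ih hm'.le)
    intro Z e hInd
    have i1 : IndA E N k m Z b₁ fun i =>
        (fun j => (e i : KK (I₁ ⊕ I₂) B₀) (Sum.inl j) : KK I₁ B₀) := fun A _ _ _ _ =>
      hInd true A
    have i2 : IndA E N k m Z b₂ fun i =>
        (fun j => (e i : KK (I₁ ⊕ I₂) B₀) (Sum.inr j) : KK I₂ B₀) := fun A _ _ _ _ =>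
      hInd false A
    have r1 : ∀ (A : Type) [CommRing A] [Algebra B₀ A], SKr h (bc (algebraMap B₀ A) R₁) :=
      fun A _ _ => rr_skr H hC true A
    have r2 : ∀ (A : Type) [CommRing A] [Algebra B₀ A], SKr h (bc (algebraMap B₀ A) R₂) :=
      fun A _ _ => rr_skr H hC false A
    have f1 : ∀ i, (fun j => (e i : KK (I₁ ⊕ I₂) B₀) (Sum.inl j) : KK I₁ B₀) ∈ EE R₁ :=
      fun i => rst_mem H hC true (e i)
    have f2 : ∀ i, (fun j => (e i : KK (I₁ ⊕ I₂) B₀) (Sum.inr j) : KK I₂ B₀) ∈ EE R₂ :=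
      fun i => rst_mem H hC false (e i)
    have hmN : m < N := by omega
    obtain ⟨z1, z2⟩ := hG (k - m) (by omega) _ _ (cc_nat E H hC.s1 r1 hmN i1 f1)
      (cc_nat E H hC.s2 r2 hmN i2 f2) (cc_wt E H hC.s1 r1 hm' hk i1 f1)
      (cc_wt E H hC.s2 r2 hm' hk i2 f2) (agr H hC hI E (by omega) e i1 i2)
    intro j A _ _ i ht p hp hd hu
    obtain rfl := cal_eq B₀ A i ht
    let i3 := cal B₀ A
    cases j with
    | true =>
      have h3 := cc_spec E H hC.s1 r1 hmN f1 (Z := Z) (hp true) (hp false) hd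
      rw [z1 _ _ (hp true) (hp false) hd ⟨hu true, hu false⟩] at h3
      exact rc_two (R := R₁) h3
    | false =>
      have h3 := cc_spec E H hC.s2 r2 hmN f2 (Z := Z) (hp true) (hp false) hd
      rw [z2 _ _ (hp true) (hp false) hd ⟨hu true, hu false⟩] at h3
      exact rc_two (R := R₂) h3

end

end MLG

open _root_.Pool.Agent.MG.G0.MLG in
theorem t_MLG (hKBC : Stmt_KBC) (hAWB : Stmt_AWB) (hPL2 : Stmt_PL2) (hPLR : Stmt_PLR)
    (hPLF : Stmt_PLF) (hMTR : Stmt_MTR) (hMEE : Stmt_MEE) (hMFE : Stmt_MFE) (hMPB : Stmt_MPB)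
    (hMPG : Stmt_MPG) (hMCB : Stmt_MCB) (hMVX : Stmt_MVX) (hMVN : Stmt_MVN) (hMVS : Stmt_MVS)
    (hMVF : Stmt_MVF) (hMVR : Stmt_MVR) (hMCM : Stmt_MCM) (hMAL : Stmt_MAL)
    (hMEX : Stmt_MEX) : Stmt_MLG := by
  intro B₀ I₁ I₂ _ _ _ _ _ _ h R₁ R₂ R₁₂ hC b₁ b₂ ι₁ ι₂ hI hG E N k hk A _ _ _ _ pt hd hu
  have H : Hy := ⟨hKBC, hAWB, hPL2, hPLR, hPLF, hMTR, hMEE, hMFE, hMPB, hMPG, hMCB, hMVX, hMVN,
    hMVS, hMVF, hMVR, hMCM, hMAL, hMEX⟩
  exact main H hC hI hG E hk k le_rfl
    (⟨true, A, pt, hd, hu⟩ : Sit (II I₁ I₂) (RR R₁ R₂) (bbb b₁ b₂))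

end Pool.Agent.MG.G0


end

section

/-!
# TGN: the values at the formal points with indeterminate coefficients have bounded weight
-/

open TensorProduct

namespace Pool.Agent.MG.G0

namespace TGN

section

variable {B S A A' : Type} [CommRing B] [CommRing S] [CommRing A] [CommRing A'] [Algebra B S]
  [Algebra B A] [Algebra B A']

/-- The formal point with indeterminate coefficients. -/
theorem exists_up (h1 : Stmt_TFP) {x : S} {Δ : Derivation B S S}
    (hn : ∀ n : ℕ, n ≠ 0 → IsUnit (n : B)) (hc : IsChart B S x Δ) (b : Bool) (p : S →ₐ[B] A) :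
    ∃ h : S →ₐ[B] PowerSeries (MvPolynomial (Bool × ℕ) A), IsUP x b p h := by
  let c : A →ₐ[B] MvPolynomial (Bool × ℕ) A := IsScalarTower.toAlgHom B A _
  have hg : PowerSeries.constantCoeff (gs A b) = 0 := by
    rw [gs, ← PowerSeries.coeff_zero_eq_constantCoeff_apply, PowerSeries.coeff_mk]
    simp
  obtain ⟨h, ha, hb, -⟩ := (h1 hn hc (A := MvPolynomial (Bool × ℕ) A)).2.1 (c.comp p) (gs A b) hg
  exact ⟨h, ha, hb⟩

theorem gs_map (φ : A →+* A') (b : Bool) :
    PowerSeries.map (MvPolynomial.map φ : MvPolynomial (Bool × ℕ) A →+* _) (gs A b) = gs A' b := by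
  ext1 n
  rw [PowerSeries.coeff_map, gs, gs, PowerSeries.coeff_mk, PowerSeries.coeff_mk]
  split_ifs
  · rw [map_zero]
  · rw [map_one]
  · rw [MvPolynomial.map_X]

/-- The formal point is natural. -/
theorem up_map (h1 : Stmt_TFP) {x : S} {Δ : Derivation B S S}
    (hn : ∀ n : ℕ, n ≠ 0 → IsUnit (n : B)) (hc : IsChart B S x Δ) (b : Bool) (φ : A →ₐ[B] A')
    (p : S →ₐ[B] A) (h : S →ₐ[B] PowerSeries (MvPolynomial (Bool × ℕ) A))
    (h' : S →ₐ[B] PowerSeries (MvPolynomial (Bool × ℕ) A')) (hh : IsUP x b p h)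
    (hh' : IsUP x b (φ.comp p) h') (f : S) :
    h' f = PowerSeries.map
      ((MvPolynomial.mapAlgHom φ : MvPolynomial (Bool × ℕ) A →ₐ[B] MvPolynomial (Bool × ℕ) A') :
        MvPolynomial (Bool × ℕ) A →+* MvPolynomial (Bool × ℕ) A') (h f) := by
  let ψ : MvPolynomial (Bool × ℕ) A →ₐ[B] MvPolynomial (Bool × ℕ) A' := MvPolynomial.mapAlgHom φ
  have key : h' = (PowerSeries.mapAlgHom ψ).comp h := by
    refine (h1 hn hc (A := MvPolynomial (Bool × ℕ) A')).1 _ _ (fun f => ?_) ?_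
    · rw [hh'.1]
      change (MvPolynomial.C (φ (p f)) : MvPolynomial (Bool × ℕ) A') =
        PowerSeries.constantCoeff (PowerSeries.map
          (ψ : MvPolynomial (Bool × ℕ) A →+* MvPolynomial (Bool × ℕ) A') (h f))
      have h2 : PowerSeries.constantCoeff (PowerSeries.map
          (ψ : MvPolynomial (Bool × ℕ) A →+* MvPolynomial (Bool × ℕ) A') (h f)) =
          ψ (PowerSeries.constantCoeff (h f)) := by
        rw [← PowerSeries.coeff_zero_eq_constantCoeff_apply, PowerSeries.coeff_map,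
          PowerSeries.coeff_zero_eq_constantCoeff_apply]
        rfl
      rw [h2, hh.1]
      change _ = MvPolynomial.map _ _
      rw [MvPolynomial.map_C]
      rfl
    · rw [hh'.2]
      change PowerSeries.C (MvPolynomial.C (φ (p x))) + gs A' b =
        PowerSeries.map (ψ : MvPolynomial (Bool × ℕ) A →+* MvPolynomial (Bool × ℕ) A') (h x)
      rw [hh.2, map_add, PowerSeries.map_C]
      congr 1
      · change _ = PowerSeries.C (MvPolynomial.map _ _)
        rw [MvPolynomial.map_C]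
        rfl
      · exact (gs_map (φ : A →+* A') b).symm
  rw [key]
  rfl

end

section

variable {B : Type} [CommRing B] {S : Bool → Type} [∀ j, CommRing (S j)]
  [∀ j, Algebra B (S j)] {T : Type} [CommRing T] [Algebra B T]

theorem vpair (G : TGD B S T) (j : Bool) {A : Type} [CommRing A] [Algebra B A]
    {p q : S j →ₐ[B] A} {h k : S j →ₐ[B] PowerSeries (MvPolynomial (Bool × ℕ) A)}
    (hd : DisjP p q) (hh : IsUP (G.x j) true p h) (hk : IsUP (G.x j) false q k) :
    VPair (G.x j) h k := by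
  have hc : ∀ (b : Bool) (a : A), PowerSeries.coeff 1
      (PowerSeries.C (MvPolynomial.C (σ := Bool × ℕ) a) + gs A b) = 1 := by
    intro b a
    rw [map_add, PowerSeries.coeff_C, gs, PowerSeries.coeff_mk]
    simp
  refine ⟨?_, ?_, ?_⟩
  · rw [hh.2, hc]
    exact isUnit_one
  · rw [hk.2, hc]
    exact isUnit_one
  · have h2 : (Set.range fun f : S j =>
        PowerSeries.constantCoeff (h f) - PowerSeries.constantCoeff (k f)) =
        (MvPolynomial.C (R := A) (σ := Bool × ℕ)) '' (Set.range fun f : S j => p f - q f) := by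
      rw [← Set.range_comp]
      congr 1
      funext f
      rw [hh.1, hk.1, Function.comp_apply, map_sub]
    rw [h2, ← Ideal.map_span]
    have h3 : Ideal.span (Set.range fun f : S j => p f - q f) = ⊤ := hd
    rw [h3, Ideal.map_top]

/-- The values are natural. -/
theorem nat_val (h1 : Stmt_TFP) (G : TGD B S T) {w : ℕ} (F : GFn G w) (j : Bool) {A A' : Type}
    [CommRing A] [Algebra B A] [CommRing A'] [Algebra B A'] (φ : A →ₐ[B] A')
    {p q : S j →ₐ[B] A} {h k : S j →ₐ[B] PowerSeries (MvPolynomial (Bool × ℕ) A)}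
    (hd : DisjP p q) (hh : IsUP (G.x j) true p h) (hk : IsUP (G.x j) false q k)
    {h' k' : S j →ₐ[B] PowerSeries (MvPolynomial (Bool × ℕ) A')}
    (hh' : IsUP (G.x j) true (φ.comp p) h') (hk' : IsUP (G.x j) false (φ.comp q) k')
    (m : (Bool × ℕ) →₀ ℕ) :
    MvPolynomial.coeff m (F.c j (MvPolynomial (Bool × ℕ) A') h' k') =
      φ (MvPolynomial.coeff m (F.c j (MvPolynomial (Bool × ℕ) A) h k)) := by
  rw [F.nat j (MvPolynomial.mapAlgHom φ) h k h' k' (vpair G j hd hh hk)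
    (fun f => up_map h1 G.inv (G.ch j) true φ p h h' hh hh' f)
    (fun f => up_map h1 G.inv (G.ch j) false φ q k k' hk hk' f)]
  rw [MvPolynomial.mapAlgHom_apply, MvPolynomial.coeff_map]
  rfl

/-- The universal pair. -/
noncomputable def pu (S : Type) {B : Type} [CommRing B] [CommRing S] [Algebra B S]
    (ρ : S ⊗[B] S) : S →ₐ[B] Localization.Away ρ :=
  (IsScalarTower.toAlgHom B (S ⊗[B] S) (Localization.Away ρ)).comp
    Algebra.TensorProduct.includeRight

/-- The universal pair. -/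
noncomputable def qu (S : Type) {B : Type} [CommRing B] [CommRing S] [Algebra B S]
    (ρ : S ⊗[B] S) : S →ₐ[B] Localization.Away ρ :=
  (IsScalarTower.toAlgHom B (S ⊗[B] S) (Localization.Away ρ)).comp
    Algebra.TensorProduct.includeLeft

theorem disj_u (S : Type) {B : Type} [CommRing B] [CommRing S] [Algebra B S]
    {ρ : S ⊗[B] S} (hρ : ρ ∈ KaehlerDifferential.ideal B S) : DisjP (pu S ρ) (qu S ρ) := by
  rw [← KaehlerDifferential.span_range_eq_ideal] at hρ
  have h2 := Ideal.mem_map_of_mem (algebraMap (S ⊗[B] S) (Localization.Away ρ)) hρ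
  rw [Ideal.map_span, ← Set.range_comp] at h2
  have h3 : (Set.range fun f : S => pu S ρ f - qu S ρ f) =
      Set.range (⇑(algebraMap (S ⊗[B] S) (Localization.Away ρ)) ∘
        fun s : S => (1 : S) ⊗ₜ[B] s - s ⊗ₜ[B] (1 : S)) := by
    congr 1
    funext f
    rw [Function.comp_apply, map_sub]
    rfl
  change Ideal.span (Set.range fun f : S => pu S ρ f - qu S ρ f) = ⊤
  rw [h3]
  exact Ideal.eq_top_of_isUnit_mem _ h2 (IsLocalization.Away.algebraMap_isUnit ρ)

end

end TGN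

theorem t_TGN (h1 : Stmt_TFP) : Stmt_TGN := by
  intro B _ S _ _ T _ _ G w F
  classical
  -- generators of the ideal of the diagonal
  have hfg : ∀ j : Bool, ∃ s : Finset (S j ⊗[B] S j),
      Ideal.span (s : Set (S j ⊗[B] S j)) = KaehlerDifferential.ideal B (S j) := by
    intro j
    have := G.ft j
    exact KaehlerDifferential.ideal_fg B (S j)
  choose s hs using hfg
  have hup : ∀ (j : Bool) (ρ : S j ⊗[B] S j), ∃ h : S j →ₐ[B]
      PowerSeries (MvPolynomial (Bool × ℕ) (Localization.Away ρ)),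
      IsUP (G.x j) true (TGN.pu (S j) ρ) h :=
    fun j ρ => TGN.exists_up h1 G.inv (G.ch j) true _
  have huq : ∀ (j : Bool) (ρ : S j ⊗[B] S j), ∃ h : S j →ₐ[B]
      PowerSeries (MvPolynomial (Bool × ℕ) (Localization.Away ρ)),
      IsUP (G.x j) false (TGN.qu (S j) ρ) h :=
    fun j ρ => TGN.exists_up h1 G.inv (G.ch j) false _
  choose hu hhu using hup
  choose ku hku using huq
  -- the bound
  have hb : ∀ (j : Bool), ∃ N : ℕ, ∀ ρ ∈ s j, ∀ m, N < wt m → MvPolynomial.coeff m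
      (F.c j (MvPolynomial (Bool × ℕ) (Localization.Away ρ)) (hu j ρ) (ku j ρ)) = 0 := by
    intro j
    refine ⟨(s j).sup fun ρ =>
      (F.c j (MvPolynomial (Bool × ℕ) (Localization.Away ρ)) (hu j ρ) (ku j ρ)).support.sup wt,
      fun ρ hρ m hm => ?_⟩
    by_contra hne
    have h2 : wt m ≤ (F.c j (MvPolynomial (Bool × ℕ) (Localization.Away ρ)) (hu j ρ)
        (ku j ρ)).support.sup wt := Finset.le_sup (f := wt) (MvPolynomial.mem_support_iff.2 hne)
    have h3 := Finset.le_sup (f := fun ρ =>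
      (F.c j (MvPolynomial (Bool × ℕ) (Localization.Away ρ)) (hu j ρ) (ku j ρ)).support.sup wt) hρ
    exact absurd (lt_of_lt_of_le hm (h2.trans h3)) (lt_irrefl _)
  choose N hN using hb
  refine ⟨N true + N false, ?_⟩
  intro j A _ _ p q h k hd hh hk m hm
  have hNj : N j < wt m := lt_of_le_of_lt (by cases j <;> omega) hm
  set x := MvPolynomial.coeff m (F.c j (MvPolynomial (Bool × ℕ) A) h k) with hx
  -- the classifying map
  let π : S j ⊗[B] S j →ₐ[B] A := Algebra.TensorProduct.lift q p fun _ _ => Commute.all _ _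
  have hloc : ∀ ρ ∈ s j, ∃ n : ℕ, (π ρ) ^ n * x = 0 := by
    intro ρ hρ
    have hρK : ρ ∈ KaehlerDifferential.ideal B (S j) := by
      rw [← hs j]
      exact Ideal.subset_span hρ
    let φ : A →ₐ[B] Localization.Away (π ρ) := IsScalarTower.toAlgHom B A _
    have hunit : IsUnit ((φ.comp π) ρ) := IsLocalization.Away.algebraMap_isUnit (π ρ)
    let ψ₀ : Localization.Away ρ →+* Localization.Away (π ρ) :=
      IsLocalization.Away.lift ρ (g := ((φ.comp π : S j ⊗[B] S j →ₐ[B] _) :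
        S j ⊗[B] S j →+* Localization.Away (π ρ))) hunit
    have hψ₀ : ∀ r : S j ⊗[B] S j, ψ₀ (algebraMap _ _ r) = φ (π r) := fun r =>
      IsLocalization.Away.lift_eq ρ hunit r
    let ψ : Localization.Away ρ →ₐ[B] Localization.Away (π ρ) :=
      { toRingHom := ψ₀
        commutes' := fun b => by
          change ψ₀ _ = _
          rw [IsScalarTower.algebraMap_apply B (S j ⊗[B] S j) (Localization.Away ρ), hψ₀,
            AlgHom.commutes, AlgHom.commutes] }
    have hψ : ∀ r : S j ⊗[B] S j, ψ (algebraMap _ _ r) = φ (π r) := hψ₀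
    have hp : ψ.comp (TGN.pu (S j) ρ) = φ.comp p := by
      ext f
      change ψ (algebraMap _ _ ((1 : S j) ⊗ₜ[B] f)) = φ (p f)
      rw [hψ]
      change φ (Algebra.TensorProduct.lift q p _ _) = _
      rw [Algebra.TensorProduct.lift_tmul, map_one, one_mul]
    have hq : ψ.comp (TGN.qu (S j) ρ) = φ.comp q := by
      ext f
      change ψ (algebraMap _ _ (f ⊗ₜ[B] (1 : S j))) = φ (q f)
      rw [hψ]
      change φ (Algebra.TensorProduct.lift q p _ _) = _
      rw [Algebra.TensorProduct.lift_tmul, map_one, mul_one]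
    obtain ⟨h', hh'⟩ := TGN.exists_up h1 G.inv (G.ch j) true (φ.comp p)
    obtain ⟨k', hk'⟩ := TGN.exists_up h1 G.inv (G.ch j) false (φ.comp q)
    have e1 := TGN.nat_val h1 G F j φ hd hh hk hh' hk' m
    have e2 := TGN.nat_val h1 G F j ψ (TGN.disj_u (S j) hρK) (hhu j ρ) (hku j ρ)
      (h' := h') (k' := k') (by rw [hp]; exact hh') (by rw [hq]; exact hk') m
    rw [hN j ρ hρ m hNj, map_zero] at e2
    rw [e2] at e1
    have e3 : algebraMap A (Localization.Away (π ρ)) x = 0 := e1.symm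
    obtain ⟨⟨_, n, rfl⟩, hc⟩ := (IsLocalization.map_eq_zero_iff (Submonoid.powers (π ρ))
      (Localization.Away (π ρ)) x).1 e3
    exact ⟨n, hc⟩
  -- the conclusion
  let I : Ideal A := Ideal.span {x} |>.annihilator
  have hI : ∀ a : A, a * x = 0 → a ∈ (Ideal.span {x} : Ideal A).annihilator := by
    intro a ha
    rw [Submodule.mem_annihilator_span_singleton]
    exact ha
  have h2 : Ideal.span (Set.range fun f : S j => p f - q f) ≤
      (Ideal.span {x} : Ideal A).annihilator.radical := by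
    rw [Ideal.span_le]
    rintro _ ⟨f, rfl⟩
    have h3 : (1 : S j) ⊗ₜ[B] f - f ⊗ₜ[B] (1 : S j) ∈ Ideal.span (s j : Set (S j ⊗[B] S j)) := by
      rw [hs j, ← KaehlerDifferential.span_range_eq_ideal]
      exact Ideal.subset_span ⟨f, rfl⟩
    have h4 := Ideal.mem_map_of_mem (π : S j ⊗[B] S j →+* A) h3
    rw [Ideal.map_span] at h4
    have h5 : Ideal.span ((π : S j ⊗[B] S j →+* A) '' (s j : Set (S j ⊗[B] S j))) ≤
        (Ideal.span {x} : Ideal A).annihilator.radical := by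
      rw [Ideal.span_le]
      rintro _ ⟨ρ, hρ, rfl⟩
      obtain ⟨n, hn⟩ := hloc ρ hρ
      exact ⟨n, hI _ hn⟩
    have h6 := h5 h4
    have h7 : (π : S j ⊗[B] S j →+* A) ((1 : S j) ⊗ₜ[B] f - f ⊗ₜ[B] (1 : S j)) = p f - q f := by
      change π _ = _
      rw [map_sub]
      change Algebra.TensorProduct.lift q p _ _ - Algebra.TensorProduct.lift q p _ _ = _
      rw [Algebra.TensorProduct.lift_tmul, Algebra.TensorProduct.lift_tmul, map_one, map_one,
        one_mul, mul_one]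
    rw [h7] at h6
    exact h6
  have h3 : Ideal.span (Set.range fun f : S j => p f - q f) = ⊤ := hd
  rw [h3, top_le_iff, Ideal.radical_eq_top] at h2
  have h4 : (1 : A) ∈ (Ideal.span {x} : Ideal A).annihilator := by rw [h2]; trivial
  rw [Submodule.mem_annihilator_span_singleton, one_smul] at h4
  exact h4

end Pool.Agent.MG.G0


end
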