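import Mathlib

/-! Parts: MG.SD, MG.SDB -/

section

/-!
# Trace duality on a curve (MP_cc45c1_ag)

`k` algebraically closed of characteristic zero, `K` a finite extension of `k(t)`; `R1`, `R2` the
integral closures of `k[t]`, `k[t⁻¹]`.
-/

namespace MG

open Algebra

attribute [local instance] FractionRing.liftAlgebra FractionRing.isScalarTower_liftAlgebra
  Ideal.Quotient.field

section Different

variable {A B : Type*} [CommRing A] [CommRing B] [Algebra A B]
  [IsDedekindDomain A] [IsDedekindDomain B] [Module.IsTorsionFree A B] [Module.Finite A B]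
  [Algebra.IsSeparable (FractionRing A) (FractionRing B)]

/-- Tame ramification: if `P * Q = pB` with `P`, `Q` coprime, then `P` does not divide the
different. -/
theorem not_dvd_different {p : Ideal A} [p.IsMaximal] [CharZero (A ⧸ p)] (P Q : Ideal B)
    (hPQ : IsCoprime P Q) (hP : P * Q = Ideal.map (algebraMap A B) p) (hne : P ≠ ⊤) :
    ¬ P ∣ differentIdeal A B := by
  let : Algebra (A ⧸ p) (B ⧸ Q) := Ideal.Quotient.algebraQuotientOfLEComap (by
      rw [← Ideal.map_le_iff_le_comap, ← hP]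
      exact Ideal.mul_le_right)
  let : Algebra (A ⧸ p) (B ⧸ P) := Ideal.Quotient.algebraQuotientOfLEComap (by
      rw [← Ideal.map_le_iff_le_comap, ← hP]
      exact Ideal.mul_le_left)
  have : IsScalarTower A (A ⧸ p) (B ⧸ Q) := .of_algebraMap_eq' rfl
  have : IsScalarTower A (A ⧸ p) (B ⧸ P) := .of_algebraMap_eq' rfl
  have : Module.Finite (A ⧸ p) (B ⧸ Q) :=
    Module.Finite.of_restrictScalars_finite A (A ⧸ p) (B ⧸ Q)
  have : Module.Finite (A ⧸ p) (B ⧸ P) :=
    Module.Finite.of_restrictScalars_finite A (A ⧸ p) (B ⧸ P)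
  let e : (B ⧸ p.map (algebraMap A B)) ≃ₐ[A ⧸ p] ((B ⧸ P) × B ⧸ Q) :=
    { __ := (Ideal.quotEquivOfEq hP.symm).trans (Ideal.quotientMulEquivQuotientProd P Q hPQ),
      commutes' := Quotient.ind fun _ ↦ rfl }
  have : Nontrivial (B ⧸ P) := Ideal.Quotient.nontrivial_iff.mpr hne
  obtain ⟨y, hy⟩ := Ideal.Quotient.mk_surjective (e.symm (1, 0))
  refine not_dvd_differentIdeal_of_intTrace_not_mem A P Q hP y ?_ ?_
  · have := congr((e $hy).2)
    simp at this
    simpa [e, Ideal.Quotient.eq_zero_iff_mem] using this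
  · rw [← Ideal.Quotient.eq_zero_iff_mem, ← Algebra.trace_quotient_eq_of_isDedekindDomain,
      hy, Algebra.trace_eq_of_algEquiv, Algebra.trace_prod_apply]
    have h1 : Algebra.trace (A ⧸ p) (B ⧸ P) 1 = (Module.finrank (A ⧸ p) (B ⧸ P) : A ⧸ p) := by
      rw [← map_one (algebraMap (A ⧸ p) (B ⧸ P)), Algebra.trace_algebraMap]
      simp
    have h2 : Module.finrank (A ⧸ p) (B ⧸ P) ≠ 0 := (Module.finrank_pos).ne'
    simp only [map_zero, add_zero]
    rw [h1]
    exact_mod_cast h2

omit [Algebra.IsSeparable (FractionRing A) (FractionRing B)] [IsDedekindDomain A]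
  [IsDedekindDomain B] [Module.IsTorsionFree A B] [Module.Finite A B] [Algebra A B] [CommRing A] in
/-- A derivation lowers the `I`-adic order by at most one. -/
theorem derivation_pow_mem {k : Type*} [CommRing k] [Algebra k B] (D : Derivation k B B)
    (I : Ideal B) (n : ℕ) : ∀ y ∈ I ^ (n + 1), D y ∈ I ^ n := by
  induction n with
  | zero => intro y _; simp
  | succ n ih =>
    intro y hy
    rw [pow_succ] at hy
    refine Submodule.mul_induction_on hy ?_ ?_
    · intro a ha b hb
      rw [D.leibniz]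
      refine add_mem ?_ ?_
      · exact Ideal.mul_mem_right _ _ ha
      · rw [smul_eq_mul, mul_comm, pow_succ]
        exact Ideal.mul_mem_mul (ih a ha) hb
    · intro a b ha hb
      rw [map_add]
      exact add_mem ha hb

/-- The different contains the derivatives of the coordinate. -/
theorem derivation_mem_different {k : Type*} [Field k] [CharZero k] [Algebra k A] [Algebra k B]
    [IsScalarTower k A B] (x : A)
    (hx : ∀ p : Ideal A, p.IsMaximal → ∃ c : k, p = Ideal.span {x - algebraMap k A c})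
    (D : Derivation k B B) : D (algebraMap A B x) ∈ differentIdeal A B := by
  rw [← Ideal.dvd_span_singleton, UniqueFactorizationMonoid.dvd_iff_emultiplicity_le
    (by simpa using differentIdeal_ne_bot)]
  intro P hP
  rw [emultiplicity_le_emultiplicity_iff]
  intro n hn
  have hPb : P ≠ ⊥ := by simpa using hP.ne_zero
  have hPp : P.IsPrime := Ideal.isPrime_of_prime hP
  have hPm : P.IsMaximal := hPp.isMaximal hPb
  have hpm : (P.comap (algebraMap A B)).IsMaximal :=
    Ideal.isMaximal_comap_of_isIntegral_of_isMaximal P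
  obtain ⟨c, hc⟩ := hx _ hpm
  have hpb : P.comap (algebraMap A B) ≠ ⊥ := mt Ideal.eq_bot_of_comap_eq_bot hPb
  have hpb' := (Ideal.map_eq_bot_iff_of_injective
    (FaithfulSMul.algebraMap_injective A B)).not.mpr hpb
  obtain ⟨e, Q, h1, h2⟩ : ∃ (e : ℕ) (Q : Ideal B), P ⊔ Q = ⊤ ∧
      Ideal.map (algebraMap A B) (P.comap (algebraMap A B)) = P ^ e * Q := by
    obtain ⟨Q, h1, h2⟩ := Ideal.eq_prime_pow_mul_coprime hpb' P
    exact ⟨_, Q, h1, h2⟩
  have h3 : IsCoprime (P ^ e) Q := (Ideal.isCoprime_iff_sup_eq.mpr h1).pow_left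
  have he0 : e ≠ 0 := by
    intro h0
    rw [h0, pow_zero, one_mul] at h2
    have h4 : Ideal.map (algebraMap A B) (P.comap (algebraMap A B)) ≤ P := Ideal.map_comap_le
    rw [h2] at h4
    apply hPm.ne_top
    rw [_root_.eq_top_iff, ← h1]
    exact sup_le le_rfl h4
  have hpe : P ^ e ≠ ⊤ := by
    intro h
    apply hPm.ne_top
    rw [_root_.eq_top_iff, ← h]
    exact Ideal.pow_le_self he0
  have : CharZero (A ⧸ P.comap (algebraMap A B)) :=
    have : Nontrivial (A ⧸ P.comap (algebraMap A B)) := Ideal.Quotient.nontrivial_iff.mpr hpm.ne_top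
    charZero_of_injective_algebraMap (R := k)
      (algebraMap k (A ⧸ P.comap (algebraMap A B))).injective
  have h5 : ¬ P ^ e ∣ differentIdeal A B := not_dvd_different (P ^ e) Q h3 h2.symm hpe
  have h6 : n < e := by
    by_contra h
    exact h5 ((pow_dvd_pow P (not_lt.mp h)).trans hn)
  rw [Ideal.dvd_span_singleton]
  have h7 : D (algebraMap A B x) = D (algebraMap A B (x - algebraMap k A c)) := by
    rw [map_sub, map_sub, ← IsScalarTower.algebraMap_apply, D.map_algebraMap, sub_zero]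
  have h8 : algebraMap A B (x - algebraMap k A c) ∈ P ^ (e - 1 + 1) := by
    rw [Nat.sub_add_cancel (Nat.one_le_iff_ne_zero.mpr he0)]
    have h9 : algebraMap A B (x - algebraMap k A c) ∈
        Ideal.map (algebraMap A B) (P.comap (algebraMap A B)) := by
      apply Ideal.mem_map_of_mem
      rw [hc]
      exact Ideal.mem_span_singleton_self _
    rw [h2] at h9
    have h12 : P ^ e * Q ≤ P ^ e := Ideal.mul_le_left
    exact h12 h9
  have h10 := derivation_pow_mem D P (e - 1) _ h8
  rw [h7]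
  have h11 : n ≤ e - 1 := by omega
  exact Ideal.pow_le_pow_right h11 h10

end Different

open scoped IntermediateField

section Coord

variable (k : Type*) {K : Type*} [Field k] [Field K] [Algebra k K] (t : K)

/-- The coordinate in `k[t]`. -/
noncomputable def tt : Algebra.adjoin k {t} := ⟨t, Algebra.self_mem_adjoin_singleton k t⟩

/-- `k[X] → k[t]`. -/
noncomputable def evt : Polynomial k →ₐ[k] Algebra.adjoin k {t} := Polynomial.aeval (tt k t)

theorem evt_surjective : Function.Surjective (evt k t) := by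
  intro ⟨x, hx⟩
  rw [Algebra.adjoin_singleton_eq_range_aeval] at hx
  obtain ⟨p, rfl⟩ := hx
  refine ⟨p, Subtype.ext ?_⟩
  have h := Polynomial.aeval_algebraMap_apply K (tt k t) p
  rw [evt]
  exact h.symm

theorem adjoin_pid : IsPrincipalIdealRing (Algebra.adjoin k {t}) :=
  IsPrincipalIdealRing.of_surjective (evt k t : Polynomial k →+* Algebra.adjoin k {t}) (evt_surjective k t)

theorem adjoin_maximal [IsAlgClosed k] (p : Ideal (Algebra.adjoin k {t})) (hp : p.IsMaximal) :
    ∃ c : k, p = Ideal.span {tt k t - algebraMap k _ c} := by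
  have hq : (p.comap (evt k t)).IsMaximal := Ideal.comap_isMaximal_of_surjective _ (evt_surjective k t)
  obtain ⟨f, hf⟩ := (IsPrincipalIdealRing.principal (p.comap (evt k t))).principal
  have hf0 : f ≠ 0 := by
    rintro rfl
    have h1 : p.comap (evt k t) = ⊥ := by rw [hf]; simp
    rw [h1] at hq
    exact Polynomial.not_isField k (Ring.isField_iff_maximal_bot.mpr hq)
  have hirr : Irreducible f := by
    have h2 : (Ideal.span {f}).IsPrime := by
      have := hq.isPrime
      rw [hf] at this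
      exact this
    exact ((Ideal.span_singleton_prime hf0).mp h2).irreducible
  obtain ⟨c, hc⟩ := IsAlgClosed.exists_root f (by
    rw [IsAlgClosed.degree_eq_one_of_irreducible k hirr]; exact one_ne_zero)
  have h3 : Polynomial.X - Polynomial.C c ∣ f := Polynomial.dvd_iff_isRoot.mpr hc
  have h4 : Associated (Polynomial.X - Polynomial.C c) f :=
    (Polynomial.irreducible_X_sub_C c).associated_of_dvd hirr h3
  refine ⟨c, ?_⟩
  have h5 : p = Ideal.map (evt k t : Polynomial k →+* Algebra.adjoin k {t}) (p.comap (evt k t)) :=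
    (Ideal.map_comap_of_surjective _ (evt_surjective k t) p).symm
  rw [h5, hf, ← Ideal.span, ← Ideal.span_singleton_eq_span_singleton.mpr h4, Ideal.map_span]
  simp [evt]


/-- The trace with values in `K`. -/
noncomputable def trK {k K : Type*} [Field k] [Field K] [Algebra k K] (F : IntermediateField k K)
    (x : K) : K := algebraMap F K (Algebra.trace F K x)

open scoped nonZeroDivisors in
omit [Field K] [Algebra k K] in
/-- Trace duality and derivations, abstract form. -/
theorem exists_mul_derivation [CharZero k] {A F B L : Type*} [CommRing A] [Field F] [CommRing B]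
    [Field L] [Algebra A B] [Algebra A F] [Algebra A L] [Algebra B L] [Algebra F L]
    [IsScalarTower A F L] [IsScalarTower A B L] [Algebra k A] [Algebra k B] [IsScalarTower k A B]
    [IsDedekindDomain A] [IsDedekindDomain B] [Module.Finite A B] [Module.IsTorsionFree A B]
    [IsFractionRing A F] [IsFractionRing B L] [IsIntegralClosure B A L]
    [FiniteDimensional F L] [Algebra.IsSeparable F L]
    (x : A) (hx : ∀ p : Ideal A, p.IsMaximal → ∃ c : k, p = Ideal.span {x - algebraMap k A c})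
    (u : L) (hu : ∀ b : B, ∃ c : A, algebraMap A F c = Algebra.trace F L (u * algebraMap B L b))
    (DB : Derivation k B B) :
    ∃ b : B, algebraMap B L b = u * algebraMap B L (DB (algebraMap A B x)) := by
  have : Algebra.IsSeparable (FractionRing A) (FractionRing B) := by
    have : IsLocalization (Algebra.algebraMapSubmonoid B A⁰) (FractionRing B) :=
      IsIntegralClosure.isLocalization _ (FractionRing A) _ _
    have : FiniteDimensional (FractionRing A) (FractionRing B) :=
      .of_isLocalization A B A⁰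
    have : CharZero A :=
      charZero_of_injective_algebraMap (algebraMap k A).injective
    have : CharZero (FractionRing A) :=
      charZero_of_injective_algebraMap (IsFractionRing.injective A (FractionRing A))
    infer_instance
  have h1 := derivation_mem_different (A := A) (B := B) (k := k) x hx DB
  have h2 : algebraMap B L (DB (algebraMap A B x)) ∈
      (1 / Submodule.traceDual A F 1 : Submodule B L) := by
    rw [← coeSubmodule_differentIdeal]
    exact ⟨_, h1, rfl⟩
  have h3 : u ∈ Submodule.traceDual A F (1 : Submodule B L) := by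
    rw [Submodule.mem_traceDual]
    rintro a ⟨b, rfl⟩
    obtain ⟨c, hc⟩ := hu b
    refine ⟨c, ?_⟩
    rw [hc]
    simp [Algebra.traceForm_apply, Algebra.smul_def]
  obtain ⟨b, hb⟩ := Submodule.mem_div_iff_forall_mul_mem.mp h2 u h3
  refine ⟨b, ?_⟩
  rw [mul_comm, ← hb]
  simp [Algebra.smul_def]

open scoped IntermediateField.algebraAdjoinAdjoin nonZeroDivisors in
/-- Trace duality and derivations. -/
theorem mul_derivation_mem [CharZero k] [IsAlgClosed k] [FiniteDimensional k⟮t⟯ K] (u : K)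
    (hu : ∀ a, IsIntegral (Algebra.adjoin k {t}) a → trK k⟮t⟯ (u * a) ∈ Algebra.adjoin k {t})
    (D : Derivation k K K)
    (hD : ∀ a, IsIntegral (Algebra.adjoin k {t}) a → IsIntegral (Algebra.adjoin k {t}) (D a)) :
    IsIntegral (Algebra.adjoin k {t}) (u * D t) := by
  have : IsPrincipalIdealRing (Algebra.adjoin k {t}) := adjoin_pid k t
  have : IsIntegrallyClosed (Algebra.adjoin k {t}) := inferInstance
  have : IsDedekindDomain (Algebra.adjoin k {t}) := inferInstance
  have : CharZero k⟮t⟯ := charZero_of_injective_algebraMap (algebraMap k k⟮t⟯).injective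
  have : Algebra.IsSeparable k⟮t⟯ K := inferInstance
  have : IsDedekindDomain (integralClosure (Algebra.adjoin k {t}) K) :=
    integralClosure.isDedekindDomain (Algebra.adjoin k {t}) k⟮t⟯ K
  have : Module.Finite (Algebra.adjoin k {t}) (integralClosure (Algebra.adjoin k {t}) K) :=
    IsIntegralClosure.finite (Algebra.adjoin k {t}) k⟮t⟯ K _
  have : IsFractionRing (integralClosure (Algebra.adjoin k {t}) K) K :=
    integralClosure.isFractionRing_of_finite_extension k⟮t⟯ K
  let DB : Derivation k (integralClosure (Algebra.adjoin k {t}) K)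
      (integralClosure (Algebra.adjoin k {t}) K) :=
    { toFun := fun b => ⟨D b, hD b b.2⟩
      map_add' := fun a b => Subtype.ext (by simp)
      map_smul' := fun c b => Subtype.ext (by simp)
      map_one_eq_zero' := Subtype.ext (by simp)
      leibniz' := fun a b => Subtype.ext (by simp) }
  obtain ⟨b, hb⟩ := exists_mul_derivation (k := k) (A := Algebra.adjoin k {t}) (F := k⟮t⟯)
    (B := integralClosure (Algebra.adjoin k {t}) K) (L := K) (tt k t)
    (fun p hp => adjoin_maximal k t p hp) u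
    (fun b => ⟨⟨_, hu b b.2⟩, (algebraMap k⟮t⟯ K).injective rfl⟩) DB
  have h5 : (b : K) = u * D t := hb
  rw [← h5]
  exact b.2

open scoped nonZeroDivisors in
omit [Field k] [Field K] [Algebra k K] in
/-- Every `A`-linear functional on `B` is the trace form with an element of `L`. -/
theorem exists_trace_eq {A F B L : Type*} [CommRing A] [Field F] [CommRing B]
    [Field L] [Algebra A B] [Algebra A F] [Algebra A L] [Algebra B L] [Algebra F L]
    [IsScalarTower A F L] [IsScalarTower A B L] [IsDomain A] [IsPrincipalIdealRing A]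
    [IsDomain B] [Module.Finite A B] [Module.IsTorsionFree A B]
    [IsFractionRing A F] [IsIntegralClosure B A L]
    [FiniteDimensional F L] [Algebra.IsSeparable F L] (lam : B →ₗ[A] F) :
    ∃ u : L, ∀ b : B, Algebra.trace F L (u * algebraMap B L b) = lam b := by
  have : IsLocalization (Algebra.algebraMapSubmonoid B A⁰) L :=
    IsIntegralClosure.isLocalization A F L B
  let b := Module.Free.chooseBasis A B
  let bK := b.localizationLocalization F A⁰ L
  let lamF : L →ₗ[F] F := bK.constr F (fun i => lam (b i))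
  have h1 : (lamF.restrictScalars A) ∘ₗ (IsScalarTower.toAlgHom A B L).toLinearMap = lam := by
    apply b.ext
    intro i
    have h2 : algebraMap B L (b i) = bK i :=
      (Module.Basis.localizationLocalization_apply F A⁰ L b i).symm
    simp only [LinearMap.comp_apply, LinearMap.restrictScalars_apply, AlgHom.toLinearMap_apply,
      IsScalarTower.coe_toAlgHom', lamF]
    rw [h2, Module.Basis.constr_basis]
  refine ⟨((Algebra.traceForm F L).toDual (traceForm_nondegenerate F L)).symm lamF, fun c => ?_⟩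
  rw [← h1, ← Algebra.traceForm_apply, ← LinearMap.BilinForm.toDual_def
    (traceForm_nondegenerate F L), LinearEquiv.apply_symm_apply]
  rfl

end Coord
end MG


end

section

/-!
# Serre duality for the structure sheaf of a curve, and `H⁰(T^j) = 0` (MP_cc45c1_ag)
-/

namespace MG
open scoped IntermediateField
open Algebra

variable {k K : Type*} [Field k] [Field K] [Algebra k K]

/-- The affine coordinate rings `R1`, `R2` (integral closures of `k[t]`, `k[t⁻¹]`) of a curve with
`R1 ∩ R2 = k` and the ring `R12` of the intersection. -/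
structure TwoCharts (t : K) (R1 R2 R12 : Subalgebra k K) : Prop where
  int1 : ∀ a, a ∈ R1 ↔ IsIntegral (Algebra.adjoin k {t}) a
  int2 : ∀ a, a ∈ R2 ↔ IsIntegral (Algebra.adjoin k {t⁻¹}) a
  le1 : R1 ≤ R12
  le2 : R2 ≤ R12
  den1 : ∀ a ∈ R12, ∃ N : ℕ, t ^ N * a ∈ R1
  den2 : ∀ a ∈ R12, ∃ N : ℕ, t⁻¹ ^ N * a ∈ R2
  inter : ∀ a, a ∈ R1 → a ∈ R2 → a ∈ Set.range (algebraMap k K)

section Lam

variable {t : K} {R1 R2 R12 : Subalgebra k K}

theorem TwoCharts.t_mem (h : TwoCharts t R1 R2 R12) : t ∈ R1 := by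
  rw [h.int1]
  exact isIntegral_algebraMap (R := Algebra.adjoin k {t}) (A := K)
    (x := ⟨t, Algebra.self_mem_adjoin_singleton k t⟩)

theorem TwoCharts.inv_mem (h : TwoCharts t R1 R2 R12) : t⁻¹ ∈ R2 := by
  rw [h.int2]
  exact isIntegral_algebraMap (R := Algebra.adjoin k {t⁻¹}) (A := K)
    (x := ⟨t⁻¹, Algebra.self_mem_adjoin_singleton k t⁻¹⟩)

/-- The coefficients of the functional. -/
noncomputable def cf (t : K) (L : K →ₗ[k] k) (a : K) (n : ℕ) : k := L (a * t⁻¹ ^ (n + 1))

/-- The functional with values in `k(t)`. -/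
noncomputable def lam (t : K) (L : K →ₗ[k] k) (a : K) : k⟮t⟯ :=
  ∑ᶠ n : ℕ, algebraMap k k⟮t⟯ (cf t L a n) * IntermediateField.AdjoinSimple.gen k t ^ n

theorem lam_eq (L : K →ₗ[k] k) (a : K) (N : ℕ) (hN : ∀ n, N ≤ n → cf t L a n = 0) :
    lam t L a = ∑ n ∈ Finset.range N,
      algebraMap k k⟮t⟯ (cf t L a n) * IntermediateField.AdjoinSimple.gen k t ^ n := by
  apply finsum_eq_sum_of_support_subset
  intro n hn
  simp only [Finset.coe_range, Set.mem_Iio]
  by_contra h
  exact hn (by simp [hN n (not_lt.mp h)])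

theorem TwoCharts.cf_zero (h : TwoCharts t R1 R2 R12) (L : K →ₗ[k] k) (h2 : ∀ a ∈ R2, L a = 0)
    (a : K) (ha : a ∈ R12) : ∃ N, ∀ n, N ≤ n → cf t L a n = 0 := by
  obtain ⟨N, hN⟩ := h.den2 a ha
  refine ⟨N, fun n hn => h2 _ ?_⟩
  have h3 : a * t⁻¹ ^ (n + 1) = t⁻¹ ^ (n + 1 - N) * (t⁻¹ ^ N * a) := by
    rw [← mul_assoc, ← pow_add, mul_comm]
    congr 2
    omega
  rw [h3]
  exact R2.mul_mem (R2.pow_mem h.inv_mem _) hN

theorem TwoCharts.lam_add (h : TwoCharts t R1 R2 R12) (L : K →ₗ[k] k) (h2 : ∀ a ∈ R2, L a = 0)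
    {a b : K} (ha : a ∈ R12) (hb : b ∈ R12) : lam t L (a + b) = lam t L a + lam t L b := by
  obtain ⟨N, hN⟩ := h.cf_zero L h2 a ha
  obtain ⟨M, hM⟩ := h.cf_zero L h2 b hb
  have h3 : ∀ n, cf t L (a + b) n = cf t L a n + cf t L b n := fun n => by
    simp [cf, add_mul]
  rw [lam_eq L a (max N M) (fun n hn => hN n ((le_max_left _ _).trans hn)),
    lam_eq L b (max N M) (fun n hn => hM n ((le_max_right _ _).trans hn)),
    lam_eq L (a + b) (max N M) (fun n hn => by
      rw [h3, hN n ((le_max_left _ _).trans hn), hM n ((le_max_right _ _).trans hn), add_zero]),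
    ← Finset.sum_add_distrib]
  apply Finset.sum_congr rfl
  intro n _
  rw [h3, map_add, add_mul]

theorem TwoCharts.lam_smul (h : TwoCharts t R1 R2 R12) (L : K →ₗ[k] k) (h2 : ∀ a ∈ R2, L a = 0)
    {a : K} (ha : a ∈ R12) (c : k) :
    lam t L (algebraMap k K c * a) = algebraMap k k⟮t⟯ c * lam t L a := by
  obtain ⟨N, hN⟩ := h.cf_zero L h2 a ha
  have h3 : ∀ n, cf t L (algebraMap k K c * a) n = c * cf t L a n := fun n => by
    rw [cf, mul_assoc, ← Algebra.smul_def, map_smul, smul_eq_mul, cf]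
  rw [lam_eq L a N hN, lam_eq L _ N (fun n hn => by rw [h3, hN n hn, mul_zero]), Finset.mul_sum]
  apply Finset.sum_congr rfl
  intro n _
  rw [h3, map_mul, mul_assoc]

theorem TwoCharts.lam_t (h : TwoCharts t R1 R2 R12) (ht : t ≠ 0) (L : K →ₗ[k] k)
    (h1 : ∀ a ∈ R1, L a = 0) (h2 : ∀ a ∈ R2, L a = 0) {a : K} (ha : a ∈ R1) :
    lam t L (t * a) = IntermediateField.AdjoinSimple.gen k t * lam t L a := by
  obtain ⟨N, hN⟩ := h.cf_zero L h2 a (h.le1 ha)
  have h3 : ∀ n, cf t L (t * a) (n + 1) = cf t L a n := fun n => by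
    rw [cf, cf, pow_succ (t⁻¹) (n + 1)]
    congr 1
    field_simp
  have h4 : cf t L (t * a) 0 = 0 := by
    rw [cf]
    apply h1
    have h5 : t * a * t⁻¹ ^ (0 + 1) = a := by
      rw [zero_add, pow_one, mul_comm t a, mul_assoc, mul_inv_cancel₀ ht, mul_one]
    rw [h5]
    exact ha
  rw [lam_eq L a N hN, lam_eq L (t * a) (N + 1) (fun n hn => by
    obtain ⟨m, rfl⟩ : ∃ m, n = m + 1 := ⟨n - 1, by omega⟩
    rw [h3, hN m (by omega)]), Finset.sum_range_succ', h4, Finset.mul_sum]
  simp only [map_zero, zero_mul, add_zero]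
  apply Finset.sum_congr rfl
  intro n _
  rw [h3, pow_succ]
  ring

open scoped IntermediateField.algebraAdjoinAdjoin in
theorem TwoCharts.lam_adjoin (h : TwoCharts t R1 R2 R12) (ht : t ≠ 0) (L : K →ₗ[k] k)
    (h1 : ∀ a ∈ R1, L a = 0) (h2 : ∀ a ∈ R2, L a = 0) (c : Algebra.adjoin k {t}) :
    ∀ a ∈ R1, lam t L (c * a) = algebraMap (Algebra.adjoin k {t}) k⟮t⟯ c * lam t L a := by
  have hA : Algebra.adjoin k {t} ≤ R1 := Algebra.adjoin_le (by simpa using h.t_mem)
  obtain ⟨c, hc⟩ := c
  refine Algebra.adjoin_induction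
    (p := fun x hx => ∀ a ∈ R1, lam t L (x * a) =
      algebraMap (Algebra.adjoin k {t}) k⟮t⟯ ⟨x, hx⟩ * lam t L a) ?_ ?_ ?_ ?_ hc
  · rintro x rfl a ha
    exact h.lam_t ht L h1 h2 ha
  · intro x a ha
    rw [h.lam_smul L h2 (h.le1 ha)]
    congr 1
  · intro x y hx hy ihx ihy a ha
    rw [add_mul, h.lam_add L h2 (h.le1 (R1.mul_mem (hA hx) ha)) (h.le1 (R1.mul_mem (hA hy) ha)),
      ihx a ha, ihy a ha, ← add_mul, ← map_add]
    rfl
  · intro x y hx hy ihx ihy a ha
    rw [mul_assoc, ihx _ (R1.mul_mem (hA hy) ha), ihy a ha, ← mul_assoc, ← map_mul]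
    rfl

open scoped IntermediateField.algebraAdjoinAdjoin in
/-- The element representing the functional. -/
theorem TwoCharts.exists_u (h : TwoCharts t R1 R2 R12) (ht : t ≠ 0) [CharZero k]
    [FiniteDimensional k⟮t⟯ K] (L : K →ₗ[k] k)
    (h1 : ∀ a ∈ R1, L a = 0) (h2 : ∀ a ∈ R2, L a = 0) :
    ∃ u : K, ∀ a ∈ R1, Algebra.trace k⟮t⟯ K (u * a) = lam t L a := by
  have : IsPrincipalIdealRing (Algebra.adjoin k {t}) := adjoin_pid k t
  have : IsIntegrallyClosed (Algebra.adjoin k {t}) := inferInstance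
  have : CharZero k⟮t⟯ := charZero_of_injective_algebraMap (algebraMap k k⟮t⟯).injective
  have : Algebra.IsSeparable k⟮t⟯ K := inferInstance
  have : Module.Finite (Algebra.adjoin k {t}) (integralClosure (Algebra.adjoin k {t}) K) :=
    IsIntegralClosure.finite (Algebra.adjoin k {t}) k⟮t⟯ K _
  have hR : ∀ b : integralClosure (Algebra.adjoin k {t}) K, (b : K) ∈ R1 := fun b =>
    (h.int1 b).mpr b.2
  let lamB : integralClosure (Algebra.adjoin k {t}) K →ₗ[Algebra.adjoin k {t}] k⟮t⟯ :=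
    { toFun := fun b => lam t L b
      map_add' := fun a b => h.lam_add L h2 (h.le1 (hR a)) (h.le1 (hR b))
      map_smul' := fun c b => by
        have h3 := h.lam_adjoin ht L h1 h2 c b (hR b)
        have h4 : c • lam t L (b : K) =
          algebraMap (Algebra.adjoin k {t}) k⟮t⟯ c * lam t L (b : K) := Algebra.smul_def _ _
        rw [RingHom.id_apply, h4, ← h3]
        rfl }
  obtain ⟨u, hu⟩ := exists_trace_eq (A := Algebra.adjoin k {t}) (F := k⟮t⟯)
    (B := integralClosure (Algebra.adjoin k {t}) K) (L := K) lamB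
  exact ⟨u, fun a ha => hu ⟨a, (h.int1 a).mp ha⟩⟩

theorem trK_smul {F : IntermediateField k K} (c : F) (x : K) :
    trK F ((c : K) * x) = c * trK F x := by
  rw [trK, trK]
  have h : (c : K) * x = c • x := (Algebra.smul_def c x).symm
  rw [h, map_smul, smul_eq_mul, map_mul]
  rfl

theorem TwoCharts.trK_one (h : TwoCharts t R1 R2 R12) (L : K →ₗ[k] k)
    (h2 : ∀ a ∈ R2, L a = 0) {u : K}
    (hu : ∀ a ∈ R1, Algebra.trace k⟮t⟯ K (u * a) = lam t L a) (a : K) (ha : a ∈ R1) :
    trK k⟮t⟯ (u * a) ∈ Algebra.adjoin k {t} := by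
  obtain ⟨N, hN⟩ := h.cf_zero L h2 a (h.le1 ha)
  rw [trK, hu a ha, lam_eq L a N hN, map_sum]
  apply Subalgebra.sum_mem
  intro n _
  rw [map_mul, map_pow]
  apply Subalgebra.mul_mem
  · rw [← IsScalarTower.algebraMap_apply]
    exact Subalgebra.algebraMap_mem _ _
  · exact Subalgebra.pow_mem _ (Algebra.self_mem_adjoin_singleton k t) _

theorem TwoCharts.trK_two (h : TwoCharts t R1 R2 R12) (ht : t ≠ 0) (L : K →ₗ[k] k)
    (h2 : ∀ a ∈ R2, L a = 0) {u : K}
    (hu : ∀ a ∈ R1, Algebra.trace k⟮t⟯ K (u * a) = lam t L a) (a : K) (ha : a ∈ R2) :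
    trK k⟮t⟯ ((u * t ^ 2) * a) ∈ Algebra.adjoin k {t⁻¹} := by
  obtain ⟨N, hN⟩ := h.den1 a (h.le2 ha)
  have hN1 : t ^ (N + 1) * a ∈ R1 := by
    rw [pow_succ', mul_assoc]
    exact R1.mul_mem h.t_mem hN
  have hc : ∀ n, N ≤ n → cf t L (t ^ (N + 1) * a) n = 0 := by
    intro n hn
    rw [cf]
    apply h2
    have h3 : t ^ (N + 1) * a * t⁻¹ ^ (n + 1) = t⁻¹ ^ (n - N) * a := by
      obtain ⟨m, rfl⟩ : ∃ m, n = N + m := ⟨n - N, by omega⟩
      have h4 : t⁻¹ ^ (N + m + 1) = t⁻¹ ^ (N + 1) * t⁻¹ ^ m := by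
        rw [← pow_add]; congr 1; omega
      have h5 : t ^ (N + 1) * t⁻¹ ^ (N + 1) = 1 := by
        rw [← mul_pow, mul_inv_cancel₀ ht, one_pow]
      rw [h4, show N + m - N = m by omega]
      calc t ^ (N + 1) * a * (t⁻¹ ^ (N + 1) * t⁻¹ ^ m)
          = (t ^ (N + 1) * t⁻¹ ^ (N + 1)) * (t⁻¹ ^ m * a) := by ring
        _ = _ := by rw [h5, one_mul]
    rw [h3]
    exact R2.mul_mem (R2.pow_mem h.inv_mem _) ha
  let g : k⟮t⟯ := IntermediateField.AdjoinSimple.gen k t
  have hg : (g : K) = t := rfl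
  have e1 : (u * t ^ 2) * a = ((g⁻¹ ^ (N + 1) * g ^ 2 : k⟮t⟯) : K) * (u * (t ^ (N + 1) * a)) := by
    have h5 : t⁻¹ ^ (N + 1) * t ^ (N + 1) = 1 := by
      rw [← mul_pow, inv_mul_cancel₀ ht, one_pow]
    push_cast
    rw [hg]
    calc (u * t ^ 2) * a = (t⁻¹ ^ (N + 1) * t ^ (N + 1)) * ((u * t ^ 2) * a) := by
          rw [h5, one_mul]
      _ = _ := by ring
  rw [e1, trK_smul, trK, hu _ hN1, lam_eq L _ N hc, map_sum, Finset.mul_sum]
  apply Subalgebra.sum_mem
  intro n hn
  rw [Finset.mem_range] at hn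
  rw [map_mul, map_pow, ← IsScalarTower.algebraMap_apply, mul_left_comm]
  apply Subalgebra.mul_mem
  · exact Subalgebra.algebraMap_mem _ _
  · have e2 : ((g⁻¹ ^ (N + 1) * g ^ 2 : k⟮t⟯) : K) *
        algebraMap k⟮t⟯ K (IntermediateField.AdjoinSimple.gen k t) ^ n = t⁻¹ ^ (N - 1 - n) := by
      push_cast
      rw [hg, IntermediateField.AdjoinSimple.algebraMap_gen]
      obtain ⟨m, rfl⟩ : ∃ m, N = m + 1 + n := ⟨N - 1 - n, by omega⟩
      rw [show m + 1 + n - 1 - n = m by omega, show m + 1 + n + 1 = m + (n + 2) by ring, pow_add]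
      have h5 : t⁻¹ ^ (n + 2) * t ^ (n + 2) = 1 := by
        rw [← mul_pow, inv_mul_cancel₀ ht, one_pow]
      calc t⁻¹ ^ m * t⁻¹ ^ (n + 2) * t ^ 2 * t ^ n
          = t⁻¹ ^ m * (t⁻¹ ^ (n + 2) * t ^ (n + 2)) := by ring
        _ = _ := by rw [h5, mul_one]
    rw [e2]
    exact Subalgebra.pow_mem _ (Algebra.self_mem_adjoin_singleton k t⁻¹) _

theorem adjoin_inv : k⟮t⁻¹⟯ = k⟮t⟯ := by
  apply le_antisymm
  · rw [IntermediateField.adjoin_simple_le_iff]
    exact k⟮t⟯.inv_mem (IntermediateField.mem_adjoin_simple_self k t)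
  · rw [IntermediateField.adjoin_simple_le_iff]
    have h := k⟮t⁻¹⟯.inv_mem (IntermediateField.mem_adjoin_simple_self k t⁻¹)
    rwa [inv_inv] at h

/-- The differential `u dt` is regular on both charts. -/
theorem TwoCharts.regular (h : TwoCharts t R1 R2 R12) (ht : t ≠ 0) [CharZero k] [IsAlgClosed k]
    [FiniteDimensional k⟮t⟯ K] (L : K →ₗ[k] k) (h2 : ∀ a ∈ R2, L a = 0) {u : K}
    (hu : ∀ a ∈ R1, Algebra.trace k⟮t⟯ K (u * a) = lam t L a) :
    (∀ D : Derivation k K K, (∀ a ∈ R1, D a ∈ R1) → u * D t ∈ R1) ∧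
    (∀ D : Derivation k K K, (∀ a ∈ R2, D a ∈ R2) → u * D t ∈ R2) := by
  constructor
  · intro D hD
    rw [h.int1]
    apply mul_derivation_mem k t u
    · intro a ha
      exact h.trK_one L h2 hu a ((h.int1 a).mpr ha)
    · intro a ha
      exact (h.int1 _).mp (hD a ((h.int1 a).mpr ha))
  · intro D hD
    have hf : FiniteDimensional k⟮t⁻¹⟯ K := by rw [adjoin_inv]; infer_instance
    have h3 : u * D t = - ((u * t ^ 2) * D t⁻¹) := by
      have h4 : D t⁻¹ = - (t⁻¹ ^ 2 * D t) := by
        have h5 : D (t * t⁻¹) = 0 := by rw [mul_inv_cancel₀ ht, D.map_one_eq_zero]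
        rw [D.leibniz, smul_eq_mul, smul_eq_mul] at h5
        have h6 : D t⁻¹ = t⁻¹ * (t * D t⁻¹) := by
          rw [← mul_assoc, inv_mul_cancel₀ ht, one_mul]
        rw [h6, eq_neg_of_add_eq_zero_left h5]
        ring
      rw [h4]
      field_simp
    rw [h3]
    apply R2.neg_mem
    rw [h.int2]
    apply mul_derivation_mem k t⁻¹ (u * t ^ 2)
    · intro a ha
      rw [adjoin_inv]
      exact h.trK_two ht L h2 hu a ((h.int2 a).mpr ha)
    · intro a ha
      exact (h.int2 _).mp (hD a ((h.int2 a).mpr ha))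

theorem sum_gen_zero (htr : Transcendental k t) (c : ℕ → k) (N : ℕ)
    (h : ∑ n ∈ Finset.range N, algebraMap k k⟮t⟯ (c n) *
      IntermediateField.AdjoinSimple.gen k t ^ n = 0) : ∀ n < N, c n = 0 := by
  have h1 : Polynomial.aeval t (∑ n ∈ Finset.range N, Polynomial.C (c n) * Polynomial.X ^ n)
      = 0 := by
    have h2 := congrArg (algebraMap k⟮t⟯ K) h
    rw [map_sum, map_zero] at h2
    rw [map_sum, ← h2]
    apply Finset.sum_congr rfl
    intro n _
    rw [map_mul, map_mul, map_pow, map_pow, Polynomial.aeval_X, Polynomial.aeval_C,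
      ← IsScalarTower.algebraMap_apply, IntermediateField.AdjoinSimple.algebraMap_gen]
  have h3 := (transcendental_iff.mp htr) _ h1
  intro n hn
  have h4 := congrArg (fun p => Polynomial.coeff p n) h3
  simp only [Polynomial.finsetSum_coeff, Polynomial.coeff_C_mul_X_pow, Polynomial.coeff_zero] at h4
  rw [Finset.sum_ite_eq] at h4
  simpa [hn] using h4

/-- `H⁰(Ω)` has dimension at least two if `H¹(O)` has. -/
theorem TwoCharts.exists_two (h : TwoCharts t R1 R2 R12) (ht : t ≠ 0) [CharZero k]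
    [IsAlgClosed k] [FiniteDimensional k⟮t⟯ K] {x y : K} (hx : x ∈ R12) (hy : y ∈ R12)
    (hxy : ∀ α β : k, α • x + β • y ∈ Subalgebra.toSubmodule R1 ⊔ Subalgebra.toSubmodule R2 →
      α = 0 ∧ β = 0) :
    ∃ u u' : K, (∀ α β : k, α • u + β • u' = 0 → α = 0 ∧ β = 0) ∧
      ((∀ D : Derivation k K K, (∀ a ∈ R1, D a ∈ R1) → u * D t ∈ R1) ∧
      (∀ D : Derivation k K K, (∀ a ∈ R2, D a ∈ R2) → u * D t ∈ R2)) ∧
      ((∀ D : Derivation k K K, (∀ a ∈ R1, D a ∈ R1) → u' * D t ∈ R1) ∧
      (∀ D : Derivation k K K, (∀ a ∈ R2, D a ∈ R2) → u' * D t ∈ R2)) := by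
  have htr : Transcendental k t := by
    intro halg
    obtain ⟨c, hc⟩ : t ∈ (algebraMap k K).range :=
      minpoly.mem_range_of_degree_eq_one k t
        (IsAlgClosed.degree_eq_one_of_irreducible k (minpoly.irreducible halg.isIntegral))
    obtain ⟨N, hN⟩ := h.den1 x hx
    have hc0 : c ≠ 0 := by
      rintro rfl
      exact ht (by rw [← hc, map_zero])
    have h1 : x ∈ R1 := by
      have h2 : x = algebraMap k K (c⁻¹ ^ N) * (t ^ N * x) := by
        rw [← hc, ← mul_assoc, ← map_pow, ← map_mul, ← mul_pow, inv_mul_cancel₀ hc0, one_pow,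
          map_one, one_mul]
      rw [h2]
      exact R1.mul_mem (R1.algebraMap_mem _) hN
    have h2 := hxy 1 0 (by
      rw [one_smul, zero_smul, add_zero]
      exact Submodule.mem_sup_left h1)
    exact one_ne_zero h2.1
  set W := Subalgebra.toSubmodule R1 ⊔ Subalgebra.toSubmodule R2 with hW
  have hx1 : x ∉ W ⊔ Submodule.span k {y} := by
    intro h1
    obtain ⟨w, hw, z, hz, e⟩ := Submodule.mem_sup.mp h1
    obtain ⟨b, rfl⟩ := Submodule.mem_span_singleton.mp hz
    have h2 := hxy 1 (-b) (by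
      rw [one_smul, neg_smul, ← e, add_neg_cancel_right]
      exact hw)
    exact one_ne_zero h2.1
  have hy1 : y ∉ W ⊔ Submodule.span k {x} := by
    intro h1
    obtain ⟨w, hw, z, hz, e⟩ := Submodule.mem_sup.mp h1
    obtain ⟨b, rfl⟩ := Submodule.mem_span_singleton.mp hz
    have h2 := hxy (-b) 1 (by
      rw [one_smul, neg_smul, ← e, add_comm (-(b • x)), add_neg_cancel_right]
      exact hw)
    exact one_ne_zero h2.2
  obtain ⟨L, hLx, hL⟩ := Submodule.exists_le_ker_of_notMem hx1
  obtain ⟨L', hLy, hL'⟩ := Submodule.exists_le_ker_of_notMem hy1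
  have a1 : ∀ a ∈ R1, L a = 0 := fun a ha => hL (Submodule.mem_sup_left (Submodule.mem_sup_left ha))
  have a2 : ∀ a ∈ R2, L a = 0 := fun a ha => hL (Submodule.mem_sup_left (Submodule.mem_sup_right ha))
  have a3 : L y = 0 := hL (Submodule.mem_sup_right (Submodule.mem_span_singleton_self y))
  have b1 : ∀ a ∈ R1, L' a = 0 := fun a ha =>
    hL' (Submodule.mem_sup_left (Submodule.mem_sup_left ha))
  have b2 : ∀ a ∈ R2, L' a = 0 := fun a ha =>
    hL' (Submodule.mem_sup_left (Submodule.mem_sup_right ha))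
  have b3 : L' x = 0 := hL' (Submodule.mem_sup_right (Submodule.mem_span_singleton_self x))
  obtain ⟨u, hu⟩ := h.exists_u ht L a1 a2
  obtain ⟨u', hu'⟩ := h.exists_u ht L' b1 b2
  refine ⟨u, u', ?_, h.regular ht L a2 hu, h.regular ht L' b2 hu'⟩
  intro α β hαβ
  have key : ∀ z ∈ R12, α * L z + β * L' z = 0 := by
    intro z hz
    obtain ⟨N, hN⟩ := h.den1 z hz
    have hz1 : t ^ (N + 1) * z ∈ R1 := by
      rw [pow_succ', mul_assoc]
      exact R1.mul_mem h.t_mem hN
    obtain ⟨M, hM⟩ := h.cf_zero L a2 _ (h.le1 hz1)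
    obtain ⟨M', hM'⟩ := h.cf_zero L' b2 _ (h.le1 hz1)
    have e1 : algebraMap k k⟮t⟯ α * lam t L (t ^ (N + 1) * z) +
        algebraMap k k⟮t⟯ β * lam t L' (t ^ (N + 1) * z) = 0 := by
      rw [← hu _ hz1, ← hu' _ hz1, ← Algebra.smul_def, ← Algebra.smul_def,
        ← LinearMap.map_smul_of_tower, ← LinearMap.map_smul_of_tower, ← map_add,
        ← smul_mul_assoc, ← smul_mul_assoc, ← add_mul, hαβ, zero_mul, map_zero]
    set P := max (N + 1) (max M M') with hP
    have c1 : N + 1 ≤ P := le_max_left _ _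
    have c2 : M ≤ P := (le_max_left _ _).trans (le_max_right _ _)
    have c3 : M' ≤ P := (le_max_right _ _).trans (le_max_right _ _)
    rw [lam_eq L _ P (fun n hn => hM n (c2.trans hn)),
      lam_eq L' _ P (fun n hn => hM' n (c3.trans hn)), Finset.mul_sum, Finset.mul_sum,
      ← Finset.sum_add_distrib] at e1
    have e2 := sum_gen_zero htr
      (fun n => α * cf t L (t ^ (N + 1) * z) n + β * cf t L' (t ^ (N + 1) * z) n) P (by
        rw [← e1]
        apply Finset.sum_congr rfl
        intro n _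
        rw [map_add, map_mul, map_mul]
        ring) N (by omega)
    have e3 : t ^ (N + 1) * z * t⁻¹ ^ (N + 1) = z := by
      rw [mul_comm, ← mul_assoc, ← mul_pow, inv_mul_cancel₀ ht, one_pow, one_mul]
    simp only [cf, e3] at e2
    exact e2
  constructor
  · have := key x hx
    rw [b3, mul_zero, add_zero] at this
    exact (mul_eq_zero.mp this).resolve_right hLx
  · have := key y hy
    rw [a3, mul_zero, zero_add] at this
    exact (mul_eq_zero.mp this).resolve_right hLy

/-- Vector fields on the chart `R`, in terms of the coordinate `t`. -/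
noncomputable def TD (R : Subalgebra k K) (t : K) : Submodule R K where
  carrier := {x | ∃ D : Derivation k K K, (∀ a ∈ R, D a ∈ R) ∧ D t = x}
  add_mem' := by
    rintro _ _ ⟨D, hD, rfl⟩ ⟨E, hE, rfl⟩
    exact ⟨D + E, fun a ha => R.add_mem (hD a ha) (hE a ha), rfl⟩
  zero_mem' := ⟨0, fun a _ => R.zero_mem, rfl⟩
  smul_mem' := by
    rintro c _ ⟨D, hD, rfl⟩
    exact ⟨(c : K) • D, fun a ha => R.mul_mem c.2 (hD a ha), rfl⟩

theorem pow_mul_mem (R : Subalgebra k K) {u : K} (hu : ∀ D : Derivation k K K,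
    (∀ a ∈ R, D a ∈ R) → u * D t ∈ R) (j : ℕ) : ∀ z ∈ (TD R t) ^ j, u ^ j * z ∈ R := by
  induction j with
  | zero =>
    intro z hz
    rw [pow_zero, Submodule.mem_one] at hz
    obtain ⟨r, rfl⟩ := hz
    rw [pow_zero, one_mul]
    exact r.2
  | succ j ih =>
    intro z hz
    rw [pow_succ] at hz
    refine Submodule.mul_induction_on hz ?_ ?_
    · rintro a ha b ⟨D, hD, rfl⟩
      have e : u ^ (j + 1) * (a * D t) = (u ^ j * a) * (u * D t) := by ring
      rw [e]
      exact R.mul_mem (ih a ha) (hu D hD)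
    · intro a b ha hb
      rw [mul_add]
      exact R.add_mem ha hb

theorem pow_mul_mem' (R : Subalgebra k K) {u u' : K} (hu : ∀ D : Derivation k K K,
    (∀ a ∈ R, D a ∈ R) → u * D t ∈ R) (hu' : ∀ D : Derivation k K K,
    (∀ a ∈ R, D a ∈ R) → u' * D t ∈ R) (j : ℕ) :
    ∀ z ∈ (TD R t) ^ (j + 1), u ^ j * u' * z ∈ R := by
  intro z hz
  rw [pow_succ] at hz
  refine Submodule.mul_induction_on hz ?_ ?_
  · rintro a ha b ⟨D, hD, rfl⟩
    have e : u ^ j * u' * (a * D t) = (u ^ j * a) * (u' * D t) := by ring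
    rw [e]
    exact R.mul_mem (pow_mul_mem R hu j a ha) (hu' D hD)
  · intro a b ha hb
    rw [mul_add]
    exact R.add_mem ha hb

/-- `H⁰(T^j) = 0` for `j ≥ 1` on a curve with `h¹(O) ≥ 2`. -/
theorem TwoCharts.vector_fields (h : TwoCharts t R1 R2 R12) (ht : t ≠ 0) [CharZero k]
    [IsAlgClosed k] [FiniteDimensional k⟮t⟯ K] {x y : K} (hx : x ∈ R12) (hy : y ∈ R12)
    (hxy : ∀ α β : k, α • x + β • y ∈ Subalgebra.toSubmodule R1 ⊔ Subalgebra.toSubmodule R2 →
      α = 0 ∧ β = 0) (j : ℕ) (hj : j ≠ 0) (z : K) (h1 : z ∈ (TD R1 t) ^ j)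
    (h2 : z ∈ (TD R2 t) ^ j) : z = 0 := by
  obtain ⟨u, u', hi, ⟨p1, p2⟩, ⟨q1, q2⟩⟩ := h.exists_two ht hx hy hxy
  obtain ⟨i, rfl⟩ : ∃ i, j = i + 1 := ⟨j - 1, by omega⟩
  obtain ⟨c, hc⟩ := h.inter _ (pow_mul_mem R1 p1 (i + 1) z h1) (pow_mul_mem R2 p2 (i + 1) z h2)
  obtain ⟨c', hc'⟩ := h.inter _ (pow_mul_mem' R1 p1 q1 i z h1) (pow_mul_mem' R2 p2 q2 i z h2)
  by_contra hz
  have hu0 : u ≠ 0 := by
    rintro rfl
    exact one_ne_zero (hi 1 0 (by simp)).1
  have e1 : u ^ i * z * (c' • u + (-c) • u') = 0 := by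
    rw [Algebra.smul_def, Algebra.smul_def, map_neg, hc, hc']
    ring
  have e2 : u ^ i * z ≠ 0 := mul_ne_zero (pow_ne_zero _ hu0) hz
  have e3 := hi c' (-c) ((mul_eq_zero.mp e1).resolve_left e2)
  have e4 : c = 0 := by simpa using e3.2
  rw [e4, map_zero] at hc
  exact mul_ne_zero (pow_ne_zero _ hu0) hz hc.symm

end Lam

end MG


end
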