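import Mathlib
import Pool.Agent.KDM.C04
import Pool.Agent.KDM.C05
import Pool.Agent.KDM.C07
import Pool.Agent.KDM.C17
import Pool.Agent.KDM.C18
import Pool.Agent.KDM.C32
import Pool.Agent.KDM.C33
import Pool.Agent.KDM.C38

/-! Parts: MG.TwoDom, MG.TwoMor, MG.TwoPhi, MG.TwoProper, MG.TwoAlg, MG.TwoQF, MG.TwoAff, MG.TwoReg, MG.TwoPts, MG.TwoSmC, MG.TwoChart, MG.TwoH0, MG.TwoSec, MG.TwoTwo, MG.TWO, MG.SDC, MG.SDD, MG.SDE, MG.NOT, MG.SEP, MG.SCH, MG.NOTS, MG.NOTF, MG.SmNodA, MG.SmNod, MG.WL.CL.Loc, MG.H2.StmtsE, MG.H2.EPD0, MG.H2.EIC -/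

section

open AlgebraicGeometry CategoryTheory TopologicalSpace Opposite

universe u

namespace Pool.Agent.MG.Two

variable (X : Scheme.{u}) [IsIntegral X]

/-- The points at which a rational function is regular. -/
def domSet (f : X.functionField) : Set X :=
  {x | f ∈ (algebraMap (X.presheaf.stalk x) X.functionField).range}

variable {X}

lemma mem_domSet_iff (f : X.functionField) (x : X) :
    x ∈ domSet X f ↔ ∃ (U : X.Opens) (_ : x ∈ U) (_ : Nonempty U) (s : Γ(X, U)),
      X.germToFunctionField U s = f := by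
  constructor
  · rintro ⟨g, hg⟩
    obtain ⟨U, hU, s, hs⟩ := X.presheaf.exists_germ_eq g
    have : Nonempty U := ⟨⟨x, hU⟩⟩
    refine ⟨U, hU, inferInstance, s, ?_⟩
    rw [← Scheme.algebraMap_germ_eq_germToFunctionField (X := X) hU s, hs, hg]
  · rintro ⟨U, hU, hne, s, hs⟩
    have := hne
    refine ⟨X.presheaf.germ U x hU s, ?_⟩
    rw [Scheme.algebraMap_germ_eq_germToFunctionField (X := X) hU s, hs]

lemma isOpen_domSet (f : X.functionField) : IsOpen (domSet X f) := by
  rw [isOpen_iff_forall_mem_open]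
  intro x hx
  obtain ⟨U, hU, hne, s, hs⟩ := (mem_domSet_iff f x).mp hx
  refine ⟨U, ?_, U.isOpen, hU⟩
  intro y hy
  exact (mem_domSet_iff f y).mpr ⟨U, hy, hne, s, hs⟩

/-- The domain of a rational function. -/
def dom (f : X.functionField) : X.Opens := ⟨domSet X f, isOpen_domSet f⟩

lemma mem_dom_iff (f : X.functionField) (x : X) :
    x ∈ dom f ↔ f ∈ (algebraMap (X.presheaf.stalk x) X.functionField).range := Iff.rfl

lemma mem_dom_iff' (f : X.functionField) (x : X) :
    x ∈ dom f ↔ ∃ (U : X.Opens) (_ : x ∈ U) (_ : Nonempty U) (s : Γ(X, U)),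
      X.germToFunctionField U s = f := mem_domSet_iff f x

lemma genericPoint_mem_dom (f : X.functionField) : genericPoint X ∈ dom f := by
  obtain ⟨U, hU, s, hs⟩ := X.presheaf.exists_germ_eq (x := genericPoint X) f
  have : Nonempty U := ⟨⟨_, hU⟩⟩
  exact (mem_dom_iff' f _).mpr ⟨U, hU, inferInstance, s, hs⟩

instance (f : X.functionField) : Nonempty (dom f) := ⟨⟨_, genericPoint_mem_dom f⟩⟩

lemma nonempty_inf {U V : X.Opens} (hU : Nonempty U) (hV : Nonempty V) :
    Nonempty (U ⊓ V : X.Opens) := by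
  have hU' := ((genericPoint_spec X).mem_open_set_iff U.isOpen).mpr (by simpa using hU)
  have hV' := ((genericPoint_spec X).mem_open_set_iff V.isOpen).mpr (by simpa using hV)
  exact ⟨⟨_, ⟨hU', hV'⟩⟩⟩

lemma germToFunctionField_res {U V : X.Opens} (h : U ≤ V) [Nonempty U] [Nonempty V]
    (s : Γ(X, V)) : X.germToFunctionField U (X.presheaf.map (homOfLE h).op s) =
      X.germToFunctionField V s :=
  X.presheaf.germ_res_apply (homOfLE h) (genericPoint X) _ s

lemma exists_section (f : X.functionField) :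
    ∃ s : Γ(X, dom f), X.germToFunctionField (dom f) s = f := by
  have h := fun x : dom f => (mem_dom_iff' f x.1).mp x.2
  choose U hxU hne s hs using h
  have hgl := X.sheaf.existsUnique_gluing' U (dom f)
    (fun x => homOfLE (fun y hy => (mem_dom_iff' f y).mpr ⟨U x, hy, hne x, s x, hs x⟩))
    (fun y hy => by
      simp only [Opens.mem_iSup]
      exact ⟨⟨y, hy⟩, hxU ⟨y, hy⟩⟩) s
    (fun x y => by
      have := hne x
      have := hne y
      have := nonempty_inf (hne x) (hne y)
      apply X.germToFunctionField_injective (U x ⊓ U y)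
      change X.germToFunctionField (U x ⊓ U y)
          (X.presheaf.map (homOfLE (inf_le_left : U x ⊓ U y ≤ U x)).op (s x)) =
        X.germToFunctionField (U x ⊓ U y)
          (X.presheaf.map (homOfLE (inf_le_right : U x ⊓ U y ≤ U y)).op (s y))
      rw [germToFunctionField_res, germToFunctionField_res, hs, hs])
  obtain ⟨t, ht, -⟩ := hgl
  refine ⟨t, ?_⟩
  set x : dom f := ⟨_, genericPoint_mem_dom f⟩
  have := hne x
  have h1 := ht x
  refine Eq.trans ?_ (hs x)
  refine Eq.trans ?_ (congrArg (X.germToFunctionField (U x)) h1)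
  exact (germToFunctionField_res (U := U x) (V := dom f) _ t).symm

/-- The rational function as a section over its domain. -/
noncomputable def sec (f : X.functionField) : Γ(X, dom f) := (exists_section f).choose

@[simp] lemma germ_sec (f : X.functionField) : X.germToFunctionField (dom f) (sec f) = f :=
  (exists_section f).choose_spec

end Pool.Agent.MG.Two


end

section

open AlgebraicGeometry CategoryTheory TopologicalSpace Opposite

universe u

namespace Pool.Agent.MG.Two

variable {X : Scheme.{u}} [IsIntegral X]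

/-- Valuation ring stalks: a rational function or its inverse is regular. -/
lemma mem_dom_or_mem_dom_inv (hv : ∀ x : X, ValuationRing (X.presheaf.stalk x))
    (f : X.functionField) (x : X) : x ∈ dom f ∨ x ∈ dom f⁻¹ := by
  have := hv x
  have h := (ValuationRing.iff_isInteger_or_isInteger (X.presheaf.stalk x)
    X.functionField).mp (hv x) f
  rcases h with h | h
  · exact Or.inl ((mem_dom_iff f x).mpr h)
  · exact Or.inr ((mem_dom_iff f⁻¹ x).mpr h)

/-- A morphism landing in the domain pulls back the rational function. -/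
noncomputable def pb {T : Scheme.{u}} (m : T ⟶ X) (f : X.functionField) (U : T.Opens)
    (h : U ≤ m ⁻¹ᵁ (dom f)) : Γ(T, U) := m.appLE (dom f) U h (sec f)

lemma sec_mul_inv (f : X.functionField) (hf : f ≠ 0) (U : X.Opens) (h1 : U ≤ dom f)
    (h2 : U ≤ dom f⁻¹) [Nonempty U] :
    X.presheaf.map (homOfLE h1).op (sec f) * X.presheaf.map (homOfLE h2).op (sec f⁻¹) = 1 := by
  apply X.germToFunctionField_injective U
  rw [map_mul, germToFunctionField_res, germToFunctionField_res, germ_sec, germ_sec, map_one]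
  exact mul_inv_cancel₀ hf

lemma pb_mul_inv {T : Scheme.{u}} (m : T ⟶ X) (f : X.functionField) (hf : f ≠ 0) (U : T.Opens)
    (h1 : U ≤ m ⁻¹ᵁ (dom f)) (h2 : U ≤ m ⁻¹ᵁ (dom f⁻¹)) :
    pb m f U h1 * pb m f⁻¹ U h2 = 1 := by
  have hne : Nonempty (dom f ⊓ dom f⁻¹ : X.Opens) := nonempty_inf inferInstance inferInstance
  have h12 : U ≤ m ⁻¹ᵁ (dom f ⊓ dom f⁻¹) := le_inf h1 h2
  have e1 : pb m f U h1 = m.appLE (dom f ⊓ dom f⁻¹) U h12
      (X.presheaf.map (homOfLE (inf_le_left : dom f ⊓ dom f⁻¹ ≤ dom f)).op (sec f)) := by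
    rw [pb, ← ConcreteCategory.comp_apply, Scheme.Hom.map_appLE]
  have e2 : pb m f⁻¹ U h2 = m.appLE (dom f ⊓ dom f⁻¹) U h12
      (X.presheaf.map (homOfLE (inf_le_right : dom f ⊓ dom f⁻¹ ≤ dom f⁻¹)).op (sec f⁻¹)) := by
    rw [pb, ← ConcreteCategory.comp_apply, Scheme.Hom.map_appLE]
  rw [e1, e2, ← map_mul, sec_mul_inv f hf, map_one]

lemma mem_dom_of_isUnit (f : X.functionField) (x : X) (hx : x ∈ dom f⁻¹)
    (hu : IsUnit (X.presheaf.germ (dom f⁻¹) x hx (sec f⁻¹))) : x ∈ dom f := by
  obtain ⟨g, hg⟩ := hu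
  refine (mem_dom_iff f x).mpr ⟨(↑(g⁻¹) : X.presheaf.stalk x), ?_⟩
  have h1 : algebraMap (X.presheaf.stalk x) X.functionField (g : X.presheaf.stalk x) = f⁻¹ := by
    rw [hg, Scheme.algebraMap_germ_eq_germToFunctionField (X := X) hx, germ_sec]
  have h2 : algebraMap (X.presheaf.stalk x) X.functionField (↑(g⁻¹) : X.presheaf.stalk x) *
      f⁻¹ = 1 := by
    rw [← h1, ← map_mul, Units.inv_mul, map_one]
  have hf : f ≠ 0 := fun h => by
    rw [h, inv_zero, mul_zero] at h2
    exact zero_ne_one h2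
  exact (mul_inv_eq_one₀ hf).mp h2

end Pool.Agent.MG.Two


end

section

open AlgebraicGeometry CategoryTheory TopologicalSpace Opposite

universe u

namespace Pool.Agent.MG.Two

section kmap

variable {X : Scheme.{u}} {k : Type u} [Field k] (π : X ⟶ Spec (.of k))

lemma le_pre_top {X Y : Scheme.{u}} (f : X ⟶ Y) (U : X.Opens) : U ≤ f ⁻¹ᵁ ⊤ := fun _ _ => trivial

/-- The structure map of the sections. -/
noncomputable def kmap (U : X.Opens) : k →+* Γ(X, U) :=
  ((Scheme.ΓSpecIso (.of k)).inv ≫ π.appLE ⊤ U (le_pre_top π U)).hom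

lemma kmap_res {U V : X.Opens} (h : U ≤ V) (a : k) :
    X.presheaf.map (homOfLE h).op (kmap π V a) = kmap π U a := by
  simp only [kmap, CommRingCat.hom_comp, RingHom.comp_apply]
  rw [← ConcreteCategory.comp_apply, Scheme.Hom.appLE_map]

end kmap

variable {X : Scheme.{u}} [IsIntegral X] {k : Type u} [Field k] (π : X ⟶ Spec (.of k))

/-- The polynomial ring mapping to the sections over the domain of `f`. -/
noncomputable def polyMap (f : X.functionField) : Polynomial k →+* Γ(X, dom f) :=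
  Polynomial.eval₂RingHom (kmap π (dom f)) (sec f)

/-- The morphism from the domain of `f` to the affine line. -/
noncomputable def phi (f : X.functionField) :
    (dom f).toScheme ⟶ Spec (.of (Polynomial k)) :=
  (dom f).toSpecΓ ≫ Spec.map (CommRingCat.ofHom (polyMap π f))

lemma phi_comp (f : X.functionField) :
    phi π f ≫ Spec.map (CommRingCat.ofHom (Polynomial.C : k →+* Polynomial k)) =
      (dom f).ι ≫ π := by
  have h1 : CommRingCat.ofHom (Polynomial.C : k →+* Polynomial k) ≫
      CommRingCat.ofHom (polyMap π f) =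
      (Scheme.ΓSpecIso (.of k)).inv ≫ π.appTop ≫ X.presheaf.map (homOfLE le_top).op := by
    ext a
    simp only [polyMap, CommRingCat.hom_comp, CommRingCat.hom_ofHom, RingHom.comp_apply,
      Polynomial.coe_eval₂RingHom, Polynomial.eval₂_C, kmap, Scheme.Hom.appLE]
    rfl
  rw [phi, Category.assoc, ← Spec.map_comp, h1, Spec.map_comp, Spec.map_comp,
    Category.assoc, Scheme.Opens.toSpecΓ_SpecMap_presheaf_map_top_assoc,
    ← Scheme.toSpecΓ_naturality_assoc, ← SpecMap_ΓSpecIso_hom, ← Spec.map_comp]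
  simp

lemma phi_appTop (f : X.functionField) :
    (phi π f).appTop = (Scheme.ΓSpecIso (.of (Polynomial k))).hom ≫
      CommRingCat.ofHom (polyMap π f) ≫ (dom f).topIso.inv := by
  rw [phi, Scheme.Hom.comp_appTop, Scheme.Opens.toSpecΓ_appTop, Scheme.ΓSpecIso_naturality_assoc]

lemma comp_phi_X {T : Scheme.{u}} (f : X.functionField) (m : T ⟶ (dom f).toScheme) :
    (m ≫ phi π f).appTop ((Scheme.ΓSpecIso (.of (Polynomial k))).inv Polynomial.X) =
      pb (m ≫ (dom f).ι) f ⊤ (by
        rw [Scheme.Hom.comp_preimage, Scheme.Opens.ι_preimage_self]; exact le_pre_top m ⊤) := by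
  rw [Scheme.Hom.comp_appTop, phi_appTop, pb]
  have e1 : (⊤ : (dom f).toScheme.Opens) ≤ (dom f).ι ⁻¹ᵁ (dom f) := by
    rw [Scheme.Opens.ι_preimage_self]
  have h2 := Scheme.Hom.appLE_comp_appLE (U := dom f) (V := ⊤) (W := ⊤) (f := m)
    (g := (dom f).ι) (e₁ := e1) (e₂ := le_pre_top m ⊤)
  have h3 : m.appLE ⊤ ⊤ (le_pre_top m ⊤) = m.appTop := Scheme.Hom.appLE_eq_app m
  have h4 : (dom f).ι.appLE (dom f) ⊤ e1 = (dom f).topIso.inv := by
    rw [Scheme.Opens.ι_appLE, Scheme.Opens.topIso_inv]; rfl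
  rw [← h2, h3, h4]
  have h5 : (Scheme.ΓSpecIso (.of (Polynomial k))).hom
      ((Scheme.ΓSpecIso (.of (Polynomial k))).inv Polynomial.X) = Polynomial.X := by
    simp
  have h6 : polyMap π f Polynomial.X = sec f := by
    simp [polyMap]
  change m.appTop ((dom f).topIso.inv (polyMap π f ((Scheme.ΓSpecIso (.of (Polynomial k))).hom
      ((Scheme.ΓSpecIso (.of (Polynomial k))).inv Polynomial.X)))) = 
    m.appTop ((dom f).topIso.inv (sec f))
  rw [h5, h6]

end Pool.Agent.MG.Two


end

section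

open AlgebraicGeometry CategoryTheory TopologicalSpace Opposite IsLocalRing

universe u

namespace Pool.Agent.MG.Two

variable {X : Scheme.{u}} [IsIntegral X] {k : Type u} [Field k] (π : X ⟶ Spec (.of k))

lemma forall_mem_of_closedPoint_mem {X : Scheme.{u}} {R : Type u} [CommRing R] [IsLocalRing R]
    (l : Spec (.of R) ⟶ X) (V : X.Opens) (h : l (closedPoint R) ∈ V) (y : Spec (.of R)) :
    l y ∈ V :=
  ((specializes_closedPoint (R := R) y).map l.continuous).mem_open V.isOpen h

lemma pb_congr {T : Scheme.{u}} {m m' : T ⟶ X} (h : m = m') (f : X.functionField) (U : T.Opens)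
    (h1 : U ≤ m ⁻¹ᵁ (dom f)) (h2 : U ≤ m' ⁻¹ᵁ (dom f)) : pb m f U h1 = pb m' f U h2 := by
  subst h; rfl

lemma pb_comp {T T' : Scheme.{u}} (j : T' ⟶ T) (m : T ⟶ X) (f : X.functionField)
    (h1 : ⊤ ≤ m ⁻¹ᵁ (dom f)) (h2 : ⊤ ≤ (j ≫ m) ⁻¹ᵁ (dom f)) :
    j.appTop (pb m f ⊤ h1) = pb (j ≫ m) f ⊤ h2 := by
  rw [pb, pb, ← Scheme.Hom.appLE_comp_appLE (U := dom f) (V := ⊤) (W := ⊤) (f := j)
    (g := m) (e₁ := h1) (e₂ := le_pre_top j ⊤)]
  have h3 : j.appLE ⊤ ⊤ (le_pre_top j ⊤) = j.appTop := Scheme.Hom.appLE_eq_app j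
  rw [h3]
  rfl

lemma forall_mem_dom (hv : ∀ x : X, ValuationRing (X.presheaf.stalk x)) (f : X.functionField)
    (hf : f ≠ 0) {R : Type u} [CommRing R] [IsLocalRing R] {K : Type u} [Field K] [Algebra R K]
    (hinj : Function.Injective (algebraMap R K))
    (l : Spec (.of R) ⟶ X) (i₁ : Spec (.of K) ⟶ (dom f).toScheme)
    (i₂ : Spec (.of R) ⟶ Spec (.of (Polynomial k)))
    (h1 : Spec.map (CommRingCat.ofHom (algebraMap R K)) ≫ l = i₁ ≫ (dom f).ι)
    (h2 : i₁ ≫ phi π f = Spec.map (CommRingCat.ofHom (algebraMap R K)) ≫ i₂)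
    (y : Spec (.of R)) : l y ∈ dom f := by
  apply forall_mem_of_closedPoint_mem
  rcases mem_dom_or_mem_dom_inv hv f (l (closedPoint R)) with hx | hx
  · exact hx
  set j : Spec (.of K) ⟶ Spec (.of R) := Spec.map (CommRingCat.ofHom (algebraMap R K)) with hj
  have hV2 : (⊤ : (Spec (.of R)).Opens) ≤ l ⁻¹ᵁ (dom f⁻¹) := fun y _ =>
    forall_mem_of_closedPoint_mem l _ hx y
  have hjV2 : (⊤ : (Spec (.of K)).Opens) ≤ (j ≫ l) ⁻¹ᵁ (dom f⁻¹) := fun y _ => by
    rw [Scheme.Hom.comp_preimage]
    exact hV2 trivial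
  have hjV2' : (⊤ : (Spec (.of K)).Opens) ≤ (i₁ ≫ (dom f).ι) ⁻¹ᵁ (dom f⁻¹) := h1 ▸ hjV2
  have hV1' : (⊤ : (Spec (.of K)).Opens) ≤ (i₁ ≫ (dom f).ι) ⁻¹ᵁ (dom f) := by
    rw [Scheme.Hom.comp_preimage, Scheme.Opens.ι_preimage_self]; exact le_pre_top i₁ ⊤
  set b := pb l f⁻¹ ⊤ hV2 with hb
  set a := i₂.appTop ((Scheme.ΓSpecIso (.of (Polynomial k))).inv Polynomial.X) with ha
  have hja : j.appTop a = pb (i₁ ≫ (dom f).ι) f ⊤ hV1' := by
    rw [← comp_phi_X π f i₁, h2, ha, Scheme.Hom.comp_appTop]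
    rfl
  have hjb : j.appTop b = pb (i₁ ≫ (dom f).ι) f⁻¹ ⊤ hjV2' := by
    rw [hb, pb_comp j l f⁻¹ hV2 hjV2]
    exact pb_congr h1 _ _ _ _
  have hab : a * b = 1 := by
    have hinj' : Function.Injective j.appTop := by
      have e1 := Scheme.ΓSpecIso_inv_naturality (CommRingCat.ofHom (algebraMap R K))
      have e2 : j.appTop = (Scheme.ΓSpecIso (.of R)).hom ≫ CommRingCat.ofHom (algebraMap R K) ≫
          (Scheme.ΓSpecIso (.of K)).inv := by
        rw [e1, Iso.hom_inv_id_assoc]
      rw [e2]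
      intro x y hxy
      have h3 : (Scheme.ΓSpecIso (.of K)).inv (algebraMap R K ((Scheme.ΓSpecIso (.of R)).hom x)) =
        (Scheme.ΓSpecIso (.of K)).inv (algebraMap R K ((Scheme.ΓSpecIso (.of R)).hom y)) := hxy
      have h4 := (ConcreteCategory.bijective_of_isIso (Scheme.ΓSpecIso (.of K)).inv).1 h3
      exact (ConcreteCategory.bijective_of_isIso (Scheme.ΓSpecIso (.of R)).hom).1 (hinj h4)
    apply hinj'
    rw [map_mul, hja, hjb, map_one]
    exact pb_mul_inv _ f hf _ _ _
  have hu : IsUnit b := IsUnit.of_mul_eq_one_right a hab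
  have hbo := Scheme.basicOpen_appLE l ⊤ (dom f⁻¹) hV2 (sec f⁻¹)
  have hbo' : (Spec (.of R)).basicOpen b = ⊤ := by
    simpa using Scheme.basicOpen_of_isUnit _ hu
  have hmem : closedPoint R ∈ (Spec (.of R)).basicOpen b := by
    rw [hbo']; trivial
  rw [hb, pb, hbo] at hmem
  have hmem2 : l (closedPoint R) ∈ X.basicOpen (sec f⁻¹) := hmem.2
  have hmem3 := (Scheme.mem_basicOpen X (sec f⁻¹) _ hx).mp hmem2
  exact mem_dom_of_isUnit f _ hx hmem3

lemma cancel_Spec_map {R K : Type u} [CommRing R] [CommRing K] [Algebra R K]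
    (hinj : Function.Injective (algebraMap R K)) {A : CommRingCat.{u}}
    (u v : Spec (.of R) ⟶ Spec A)
    (h : Spec.map (CommRingCat.ofHom (algebraMap R K)) ≫ u =
      Spec.map (CommRingCat.ofHom (algebraMap R K)) ≫ v) : u = v := by
  obtain ⟨u', rfl⟩ := Spec.map_surjective u
  obtain ⟨v', rfl⟩ := Spec.map_surjective v
  rw [← Spec.map_comp, ← Spec.map_comp] at h
  have h2 := Spec.map_injective h
  congr 1
  ext a
  apply hinj
  have := congrArg (fun g => g.hom a) h2
  exact this

theorem phi_existence (hv : ∀ x : X, ValuationRing (X.presheaf.stalk x)) (f : X.functionField)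
    (hf : f ≠ 0) [UniversallyClosed π] : ValuativeCriterion.Existence (phi π f) := by
  have hπ : ValuativeCriterion.Existence π := by
    have : (@UniversallyClosed) π := inferInstance
    rw [UniversallyClosed.eq_valuativeCriterion] at this
    exact this.1
  intro S
  have hsq : CommSq (S.i₁ ≫ (dom f).ι) (Spec.map (CommRingCat.ofHom (algebraMap S.R S.K))) π
      (S.i₂ ≫ Spec.map (CommRingCat.ofHom (Polynomial.C : k →+* Polynomial k))) := ⟨by
    rw [Category.assoc, ← phi_comp, ← Category.assoc, S.commSq.w, Category.assoc]⟩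
  obtain ⟨⟨l, hl1, hl2⟩⟩ := hπ { R := S.R, K := S.K, commSq := hsq, .. }
  have hmem := forall_mem_dom π hv f hf (IsFractionRing.injective S.R S.K) l S.i₁ S.i₂ hl1
    S.commSq.w
  have hr : Set.range l ⊆ Set.range (dom f).ι := by
    rintro _ ⟨y, rfl⟩
    rw [Scheme.Opens.range_ι]
    exact hmem y
  have hfst : Spec.map (CommRingCat.ofHom (algebraMap S.R S.K)) ≫
      IsOpenImmersion.lift (dom f).ι l hr = S.i₁ := by
    rw [← cancel_mono (dom f).ι, Category.assoc, IsOpenImmersion.lift_fac, hl1]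
  refine ⟨⟨IsOpenImmersion.lift (dom f).ι l hr, hfst, ?_⟩⟩
  apply cancel_Spec_map (IsFractionRing.injective S.R S.K)
  rw [← Category.assoc, hfst]
  exact S.commSq.w

end Pool.Agent.MG.Two


end

section

universe u v

namespace Pool.Agent.MG.Two

open Polynomial

section
variable {k : Type u} {A : Type v} [Field k] [CommRing A] [IsDomain A] [Algebra k[X] A]
  [Algebra k A] [IsScalarTower k k[X] A] [Algebra.FiniteType k A] [Ring.DimensionLEOne A]

lemma eq_bot_of_comap_eq_bot (Q : Ideal A) [hQ : Q.IsPrime]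
    (h : Q.comap (algebraMap k[X] A) = ⊥) : Q = ⊥ := by
  by_contra hne
  have hmax : Q.IsMaximal := Ring.DimensionLEOne.maximalOfPrime hne hQ
  let _ : Field (A ⧸ Q) := Ideal.Quotient.field Q
  have : Algebra.FiniteType k (A ⧸ Q) := inferInstance
  have hfin : Module.Finite k (A ⧸ Q) := finite_of_finite_type_of_isJacobsonRing k (A ⧸ Q)
  set t : A ⧸ Q := Ideal.Quotient.mk Q (algebraMap k[X] A X) with ht
  have halg : IsAlgebraic k t := Algebra.IsAlgebraic.isAlgebraic t
  obtain ⟨p, hp, hpt⟩ := halg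
  have h1 : aeval t p = Ideal.Quotient.mk Q (algebraMap k[X] A p) := by
    have h2 : (aeval t : k[X] →ₐ[k] A ⧸ Q) =
        (IsScalarTower.toAlgHom k A (A ⧸ Q)).comp (IsScalarTower.toAlgHom k k[X] A) := by
      apply Polynomial.algHom_ext
      simp [ht]
    rw [h2]; rfl
  rw [h1, Ideal.Quotient.eq_zero_iff_mem] at hpt
  have : p ∈ Q.comap (algebraMap k[X] A) := hpt
  rw [h] at this
  exact hp this

lemma finite_primes_containing [IsNoetherianRing A] (a : A) (ha : a ≠ 0) :
    {Q : PrimeSpectrum A | a ∈ Q.asIdeal}.Finite := by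
  have hfin := Ideal.finite_minimalPrimes_of_isNoetherianRing A (Ideal.span {a})
  refine (hfin.preimage (f := PrimeSpectrum.asIdeal) ?_).subset ?_
  · intro x _ y _ h
    exact PrimeSpectrum.ext h
  · intro Q hQ
    refine ⟨⟨Q.isPrime, by simpa [Ideal.span_le] using hQ⟩, ?_⟩
    rintro Q' ⟨hQ', haQ'⟩ hle
    have hne : Q' ≠ ⊥ := by
      rintro rfl
      exact ha (by simpa using haQ' (Ideal.mem_span_singleton_self a))
    have := Ring.DimensionLEOne.maximalOfPrime hne hQ'
    exact (this.eq_of_le Q.isPrime.ne_top hle).ge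

lemma quasiFinite_of_dimensionLEOne (hinj : Function.Injective (algebraMap k[X] A)) :
    Algebra.QuasiFinite k[X] A := by
  have hft : Algebra.FiniteType k[X] A := Algebra.FiniteType.of_restrictScalars_finiteType k _ _
  have : IsNoetherianRing A := Algebra.FiniteType.isNoetherianRing k A
  rw [Algebra.QuasiFinite.iff_finite_comap_preimage_singleton]
  intro P
  by_cases hP : P.asIdeal = ⊥
  · refine (Set.finite_singleton (⊥ : PrimeSpectrum A)).subset ?_
    intro Q hQ
    have h1 : PrimeSpectrum.comap (algebraMap k[X] A) Q = P := hQ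
    have h2 : Q.asIdeal.comap (algebraMap k[X] A) = ⊥ := by
      rw [← hP, ← h1]; rfl
    have h3 := eq_bot_of_comap_eq_bot (k := k) Q.asIdeal h2
    exact PrimeSpectrum.ext h3
  · obtain ⟨q, hq, hq0⟩ := Submodule.exists_mem_ne_zero_of_ne_bot hP
    refine (finite_primes_containing (algebraMap k[X] A q) ?_).subset ?_
    · intro h
      exact hq0 (hinj (by rw [h, map_zero]))
    · intro Q hQ
      have h1 : PrimeSpectrum.comap (algebraMap k[X] A) Q = P := hQ
      have h2 : q ∈ Q.asIdeal.comap (algebraMap k[X] A) := by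
        rw [← h1] at hq; exact hq
      exact h2

end

/-- A domain all of whose local rings are principal has dimension at most one. -/
lemma dimensionLEOne_of_localization (A : Type u) [CommRing A] [IsDomain A]
    (h : ∀ (p : Ideal A) [p.IsPrime], IsPrincipalIdealRing (Localization.AtPrime p)) :
    Ring.DimensionLEOne A := by
  refine ⟨fun {P} hP hPp => ?_⟩
  obtain ⟨M, hM, hPM⟩ := P.exists_le_maximal hPp.ne_top
  have hMp : M.IsPrime := hM.isPrime
  have := h M
  have hdisj : Disjoint (M.primeCompl : Set A) (P : Set A) := by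
    rw [Set.disjoint_left]
    intro x hx hx'
    exact hx (hPM hx')
  have hPp' : (P.map (algebraMap A (Localization.AtPrime M))).IsPrime :=
    IsLocalization.isPrime_of_isPrime_disjoint M.primeCompl _ P hPp hdisj
  have hcomap : (P.map (algebraMap A (Localization.AtPrime M))).comap
      (algebraMap A (Localization.AtPrime M)) = P :=
    IsLocalization.under_map_of_isPrime_disjoint M.primeCompl _ hPp hdisj
  have hne : P.map (algebraMap A (Localization.AtPrime M)) ≠ ⊥ := by
    intro h0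
    rw [h0] at hcomap
    have hinj : Function.Injective (algebraMap A (Localization.AtPrime M)) :=
      IsLocalization.injective _ M.primeCompl_le_nonZeroDivisors
    apply hP
    rw [← hcomap]
    exact (RingHom.injective_iff_ker_eq_bot _).mp hinj
  have hmax : (P.map (algebraMap A (Localization.AtPrime M))).IsMaximal :=
    IsPrime.to_maximal_ideal hne
  have := IsLocalRing.eq_maximalIdeal hmax
  have h5 : (IsLocalRing.maximalIdeal (Localization.AtPrime M)).comap
      (algebraMap A (Localization.AtPrime M)) = M :=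
    IsLocalization.AtPrime.under_maximalIdeal (Localization.AtPrime M) M
  rw [this, h5] at hcomap
  rwa [← hcomap]

end Pool.Agent.MG.Two


end

section

open AlgebraicGeometry CategoryTheory TopologicalSpace Opposite IsLocalRing

universe u

namespace Pool.Agent.MG.Two

open Polynomial

lemma pir_localization {Y : Scheme.{u}}
    (hpir : ∀ x : Y, IsPrincipalIdealRing (Y.presheaf.stalk x)) {V : Y.Opens}
    (hV : IsAffineOpen V) (P : Ideal Γ(Y, V)) [hP : P.IsPrime] :
    IsPrincipalIdealRing (Localization.AtPrime P) := by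
  have hx : hV.fromSpec ⟨P, hP⟩ ∈ V := (hV.isoSpec.inv _).2
  let := TopCat.Presheaf.algebra_section_stalk Y.presheaf ⟨hV.fromSpec ⟨P, hP⟩, hx⟩
  have hloc : IsLocalization.AtPrime (Y.presheaf.stalk (hV.fromSpec ⟨P, hP⟩)) P :=
    hV.isLocalization_stalk' ⟨P, hP⟩ hx
  let e := IsLocalization.algEquiv P.primeCompl (Y.presheaf.stalk (hV.fromSpec ⟨P, hP⟩))
    (Localization.AtPrime P)
  have := hpir (hV.fromSpec ⟨P, hP⟩)
  exact IsPrincipalIdealRing.of_surjective e.toRingEquiv.toRingHom e.surjective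

lemma dimensionLEOne_of_isAffineOpen {Y : Scheme.{u}} [IsIntegral Y]
    (hpir : ∀ x : Y, IsPrincipalIdealRing (Y.presheaf.stalk x)) {V : Y.Opens}
    (hV : IsAffineOpen V) [Nonempty V] : Ring.DimensionLEOne Γ(Y, V) :=
  dimensionLEOne_of_localization _ fun P _ => pir_localization hpir hV P

variable {Y : Scheme.{u}} [IsIntegral Y] {k : Type u} [Field k]

theorem locallyQuasiFinite_of_injective (p : Y ⟶ Spec (.of k)) [LocallyOfFiniteType p]
    (hpir : ∀ x : Y, IsPrincipalIdealRing (Y.presheaf.stalk x))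
    (g : Y ⟶ Spec (.of k[X])) (hg : g ≫ Spec.map (CommRingCat.ofHom (C : k →+* k[X])) = p)
    (hinj : Function.Injective g.appTop) : LocallyQuasiFinite g := by
  rw [HasRingHomProperty.iff_of_iSup_eq_top (P := @LocallyQuasiFinite)
    (fun V : Y.affineOpens => V) (iSup_affineOpens_eq_top Y)]
  intro V
  by_cases hne : Nonempty V.1
  swap
  · have hbot : V.1 = ⊥ := by
      ext x
      simp only [Opens.coe_bot, Set.mem_empty_iff_false, iff_false]
      intro hx
      exact hne ⟨⟨x, hx⟩⟩
    have hs : Subsingleton Γ(Y, V.1) := by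
      rw [hbot]; infer_instance
    apply RingHom.QuasiFinite.of_finite
    exact RingHom.Finite.of_surjective _ (fun y => ⟨0, Subsingleton.elim _ _⟩)
  · have hV := V.2
    have hd : Ring.DimensionLEOne Γ(Y, V.1) := dimensionLEOne_of_isAffineOpen hpir hV
    have hψinj : Function.Injective (g.appLE ⊤ V.1 (le_pre_top g V.1)) := by
      have h1 : g.appLE ⊤ V.1 (le_pre_top g V.1) =
          g.appTop ≫ Y.presheaf.map (homOfLE le_top).op := rfl
      rw [h1]
      intro a b hab
      apply hinj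
      apply map_injective_of_isIntegral Y (homOfLE le_top : V.1 ⟶ ⊤)
      exact hab
    let ψ : k[X] →+* Γ(Y, V.1) :=
      (g.appLE ⊤ V.1 (le_pre_top g V.1)).hom.comp (Scheme.ΓSpecIso (.of k[X])).inv.hom
    have hψ : ψ.QuasiFinite := by
      have hft := p.finiteType_appLE (isAffineOpen_top _) hV (le_pre_top p V.1)
      have hft2 : (ψ.comp C).FiniteType := by
        have h2 : ψ.comp C = (p.appLE ⊤ V.1 (le_pre_top p V.1)).hom.comp
            (Scheme.ΓSpecIso (.of k)).inv.hom := by
          have h3 : CommRingCat.ofHom (C : k →+* k[X]) ≫ (Scheme.ΓSpecIso (.of k[X])).inv ≫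
              g.appLE ⊤ V.1 (le_pre_top g V.1) =
              (Scheme.ΓSpecIso (.of k)).inv ≫ p.appLE ⊤ V.1 (le_pre_top p V.1) := by
            subst hg
            rw [← Category.assoc, Scheme.ΓSpecIso_inv_naturality, Category.assoc,
              ← Scheme.Hom.appLE_comp_appLE (U := ⊤) (V := ⊤) (W := V.1) (f := g)
                (g := Spec.map (CommRingCat.ofHom (C : k →+* k[X])))
                (e₁ := le_pre_top _ _) (e₂ := le_pre_top g V.1)]
            rfl
          exact congrArg CommRingCat.Hom.hom h3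
        rw [h2]
        exact hft.comp (RingHom.FiniteType.of_surjective _
          (ConcreteCategory.bijective_of_isIso (Scheme.ΓSpecIso (.of k)).inv).2)
      algebraize [ψ, ψ.comp C]
      have hinj' : Function.Injective (algebraMap k[X] Γ(Y, V.1)) := by
        intro a b hab
        exact (ConcreteCategory.bijective_of_isIso (Scheme.ΓSpecIso (.of k[X])).inv).1
          (hψinj hab)
      exact quasiFinite_of_dimensionLEOne (k := k) hinj'
    exact RingHom.QuasiFinite.of_comp hψ

end Pool.Agent.MG.Two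


end

section

open AlgebraicGeometry CategoryTheory TopologicalSpace Opposite IsLocalRing

universe u

namespace Pool.Agent.MG.Two

open Polynomial

variable {X : Scheme.{u}} [IsIntegral X] {k : Type u} [Field k] (π : X ⟶ Spec (.of k))

lemma valuationRing_stalk (hpir : ∀ x : X, IsPrincipalIdealRing (X.presheaf.stalk x)) (x : X) :
    ValuationRing (X.presheaf.stalk x) := by
  have := hpir x
  exact ValuationRing.iff_local_bezout_domain.mpr ⟨inferInstance, inferInstance⟩

/-- The map from the ground field to the function field. -/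
noncomputable def kfun : k →+* X.functionField :=
  (X.presheaf.germ ⊤ (genericPoint X) trivial).hom.comp (kmap π ⊤)

lemma germ_kmap (U : X.Opens) [Nonempty U] (a : k) :
    X.germToFunctionField U (kmap π U a) = kfun π a := by
  rw [← kmap_res π (le_top : U ≤ ⊤) a]
  exact X.presheaf.germ_res_apply (homOfLE le_top) (genericPoint X) _ _

/-- `f` is transcendental over the ground field. -/
def Transc (f : X.functionField) : Prop :=
  Function.Injective (Polynomial.eval₂RingHom (kfun π) f)

lemma germ_polyMap (f : X.functionField) (p : k[X]) :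
    X.germToFunctionField (dom f) (polyMap π f p) = Polynomial.eval₂RingHom (kfun π) f p := by
  have h : ((X.germToFunctionField (dom f)).hom.comp (polyMap π f)) =
      Polynomial.eval₂RingHom (kfun π) f := by
    apply Polynomial.ringHom_ext
    · intro a
      simp only [RingHom.comp_apply, polyMap, Polynomial.coe_eval₂RingHom, Polynomial.eval₂_C]
      exact germ_kmap π (dom f) a
    · simp only [RingHom.comp_apply, polyMap, Polynomial.coe_eval₂RingHom, Polynomial.eval₂_X]
      exact germ_sec f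
  exact congrArg (fun g => g p) h

lemma polyMap_injective {f : X.functionField} (hf : Transc π f) :
    Function.Injective (polyMap π f) := by
  intro a b hab
  apply hf
  rw [← germ_polyMap, ← germ_polyMap, hab]

lemma Transc.ne_zero {f : X.functionField} (hf : Transc π f) : f ≠ 0 := by
  rintro rfl
  have : (Polynomial.X : k[X]) = 0 := hf (by
    simp only [Polynomial.coe_eval₂RingHom, Polynomial.eval₂_X, Polynomial.eval₂_zero])
  exact Polynomial.X_ne_zero this

theorem isFinite_phi [IsProper π]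
    (hpir : ∀ x : X, IsPrincipalIdealRing (X.presheaf.stalk x)) {f : X.functionField}
    (hf : Transc π f) : IsFinite (phi π f) := by
  have hln : IsLocallyNoetherian X := LocallyOfFiniteType.isLocallyNoetherian π
  have hcomp := phi_comp π f
  have h1 : LocallyOfFiniteType (phi π f ≫ Spec.map (CommRingCat.ofHom (C : k →+* k[X]))) := by
    rw [hcomp]; infer_instance
  have h2 : QuasiCompact (phi π f ≫ Spec.map (CommRingCat.ofHom (C : k →+* k[X]))) := by
    rw [hcomp]; infer_instance
  have h3 : IsSeparated (phi π f ≫ Spec.map (CommRingCat.ofHom (C : k →+* k[X]))) := by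
    rw [hcomp]; infer_instance
  have h4 : LocallyOfFiniteType (phi π f) := locallyOfFiniteType_of_comp _
    (Spec.map (CommRingCat.ofHom (C : k →+* k[X])))
  have h5 : QuasiCompact (phi π f) := QuasiCompact.of_comp _
    (Spec.map (CommRingCat.ofHom (C : k →+* k[X])))
  have h6 : IsSeparated (phi π f) := IsSeparated.of_comp _
    (Spec.map (CommRingCat.ofHom (C : k →+* k[X])))
  have h7 : UniversallyClosed (phi π f) := UniversallyClosed.of_valuativeCriterion _
    (phi_existence π (valuationRing_stalk hpir) f (hf.ne_zero π))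
  have h8 : IsProper (phi π f) := { }
  have h9 : LocallyQuasiFinite (phi π f) := by
    refine locallyQuasiFinite_of_injective ((dom f).ι ≫ π) ?_ (phi π f) hcomp ?_
    · intro x
      have := hpir x.1
      exact IsPrincipalIdealRing.of_surjective
        ((dom f).stalkIso x).commRingCatIsoToRingEquiv.symm.toRingHom
        ((dom f).stalkIso x).commRingCatIsoToRingEquiv.symm.surjective
    · rw [phi_appTop]
      intro a b hab
      have e1 := (ConcreteCategory.bijective_of_isIso (dom f).topIso.inv).1 hab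
      have e2 := polyMap_injective π hf e1
      exact (ConcreteCategory.bijective_of_isIso (Scheme.ΓSpecIso (.of k[X])).hom).1 e2
  exact IsFinite.of_isProper_of_locallyQuasiFinite _

theorem isAffineOpen_dom [IsProper π]
    (hpir : ∀ x : X, IsPrincipalIdealRing (X.presheaf.stalk x)) {f : X.functionField}
    (hf : Transc π f) : IsAffineOpen (dom f) := by
  have := isFinite_phi π hpir hf
  exact isAffine_of_isAffineHom (phi π f)

end Pool.Agent.MG.Two


end

section

open AlgebraicGeometry CategoryTheory TopologicalSpace Opposite IsLocalRing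

universe u

namespace Pool.Agent.MG.Two

open Polynomial

variable {X : Scheme.{u}} [IsIntegral X] {k : Type u} [Field k] (π : X ⟶ Spec (.of k))

lemma transc_iff (f : X.functionField) :
    Transc π f ↔ @Transcendental k X.functionField _ _ (kfun π).toAlgebra f := by
  let _ := (kfun π).toAlgebra
  rw [transcendental_iff_injective]
  rfl

lemma transc_inv_sub {f : X.functionField} (hf : Transc π f) (c : k) :
    Transc π (f - kfun π c)⁻¹ := by
  rw [transc_iff] at hf ⊢
  let _ := (kfun π).toAlgebra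
  intro h
  apply hf
  have h1 : IsAlgebraic k (f - kfun π c) := by
    have := h.inv
    rwa [inv_inv] at this
  have h2 : IsAlgebraic k (kfun π c) := isAlgebraic_algebraMap (A := X.functionField) c
  have h3 := h1.add h2
  rwa [sub_add_cancel] at h3

lemma kfun_eq (x : X) (c : k) : kfun π c =
    algebraMap (X.presheaf.stalk x) X.functionField (X.presheaf.germ ⊤ x trivial (kmap π ⊤ c)) := by
  have : Nonempty (⊤ : X.Opens) := ⟨⟨x, trivial⟩⟩
  rw [Scheme.algebraMap_germ_eq_germToFunctionField (X := X) (U := ⊤) (x := x) trivial]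
  exact (germ_kmap π ⊤ c).symm

lemma bad_subsingleton (hv : ∀ x : X, ValuationRing (X.presheaf.stalk x))
    (f : X.functionField) (x : X) :
    {c : k | x ∉ dom (f - kfun π c)⁻¹}.Subsingleton := by
  have key : ∀ c : k, x ∉ dom (f - kfun π c)⁻¹ →
      ∃ a : X.presheaf.stalk x, a ∈ nonunits (X.presheaf.stalk x) ∧
        algebraMap (X.presheaf.stalk x) X.functionField a = f - kfun π c := by
    intro c hc
    rcases mem_dom_or_mem_dom_inv hv (f - kfun π c)⁻¹ x with h | h
    · exact absurd h hc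
    · rw [inv_inv] at h
      obtain ⟨a, ha⟩ := (mem_dom_iff _ x).mp h
      refine ⟨a, ?_, ha⟩
      intro hu
      apply hc
      obtain ⟨u, hu⟩ := hu
      refine (mem_dom_iff _ x).mpr ⟨(↑(u⁻¹) : X.presheaf.stalk x), ?_⟩
      rw [← ha, ← hu]
      refine eq_inv_of_mul_eq_one_left ?_
      rw [← map_mul, Units.inv_mul, map_one]
  intro c hc c' hc'
  by_contra hne
  obtain ⟨a, ha, ha'⟩ := key c hc
  obtain ⟨b, hb, hb'⟩ := key c' hc'
  have h1 : algebraMap (X.presheaf.stalk x) X.functionField (b - a) =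
      algebraMap (X.presheaf.stalk x) X.functionField
        (X.presheaf.germ ⊤ x trivial (kmap π ⊤ (c - c'))) := by
    rw [map_sub, ha', hb', ← kfun_eq, map_sub]
    ring
  have h2 := IsFractionRing.injective (X.presheaf.stalk x) X.functionField h1
  have h3 : IsUnit (b - a) := by
    rw [h2]
    exact ((sub_ne_zero.mpr hne).isUnit.map (kmap π ⊤)).map (X.presheaf.germ ⊤ x trivial).hom
  have h4 : b - a ∈ nonunits (X.presheaf.stalk x) := by
    rw [← mem_maximalIdeal] at ha hb ⊢
    exact sub_mem hb ha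
  exact h4 h3

/-- There is a transcendental function which is regular at finitely many given points. -/
lemma exists_transc_regular [Infinite k] (hv : ∀ x : X, ValuationRing (X.presheaf.stalk x))
    (hT : ∃ f : X.functionField, Transc π f) (S : Set X) (hS : S.Finite) :
    ∃ f : X.functionField, Transc π f ∧ ∀ x ∈ S, x ∈ dom f := by
  obtain ⟨f, hf⟩ := hT
  have hfin : (⋃ x ∈ S, {c : k | x ∉ dom (f - kfun π c)⁻¹}).Finite :=
    hS.biUnion fun x _ => (bad_subsingleton π hv f x).finite
  obtain ⟨c, hc⟩ := hfin.infinite_compl.nonempty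
  refine ⟨(f - kfun π c)⁻¹, transc_inv_sub π hf c, ?_⟩
  intro x hx
  by_contra hcon
  exact hc (Set.mem_biUnion hx hcon)

end Pool.Agent.MG.Two


end

section

open AlgebraicGeometry CategoryTheory TopologicalSpace Opposite IsLocalRing

universe u

namespace Pool.Agent.MG.Two

open Polynomial

variable {X : Scheme.{u}} {k : Type u} [Field k] (π : X ⟶ Spec (.of k))

lemma mem_primeIdealOf_iff {V : X.Opens} (hV : IsAffineOpen V) (x : X) (hx : x ∈ V)
    (a : Γ(X, V)) : a ∈ (hV.primeIdealOf ⟨x, hx⟩).asIdeal ↔ x ∉ X.basicOpen a := by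
  have h1 := hV.fromSpec_primeIdealOf ⟨x, hx⟩
  have h2 := hV.fromSpec_preimage_basicOpen a
  rw [← not_iff_not, not_not]
  have h3 : (hV.primeIdealOf ⟨x, hx⟩) ∈ hV.fromSpec ⁻¹ᵁ X.basicOpen a ↔
      hV.fromSpec (hV.primeIdealOf ⟨x, hx⟩) ∈ X.basicOpen a := Iff.rfl
  rw [h1, h2] at h3
  exact h3

lemma primeIdealOf_injective {V : X.Opens} (hV : IsAffineOpen V) :
    Function.Injective hV.primeIdealOf := by
  intro x y h
  apply Subtype.ext
  rw [← hV.fromSpec_primeIdealOf x, ← hV.fromSpec_primeIdealOf y, h]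

lemma primeIdealOf_ne_bot [IsIntegral X] {V : X.Opens} (hV : IsAffineOpen V) (x : X) (hx : x ∈ V)
    (hgen : x ≠ genericPoint X) : (hV.primeIdealOf ⟨x, hx⟩).asIdeal ≠ ⊥ := by
  intro h
  have hne : Nonempty V := ⟨⟨x, hx⟩⟩
  have h1 : hV.primeIdealOf ⟨x, hx⟩ = (⊥ : PrimeSpectrum Γ(X, V)) := PrimeSpectrum.ext h
  have h2 := hV.primeIdealOf_genericPoint
  rw [genericPoint_eq_bot_of_affine] at h2
  rw [← h2] at h1
  have h3 := primeIdealOf_injective hV h1
  exact hgen (congrArg Subtype.val h3)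

lemma isMaximal_primeIdealOf [IsIntegral X]
    (hpir : ∀ x : X, IsPrincipalIdealRing (X.presheaf.stalk x)) {V : X.Opens}
    (hV : IsAffineOpen V) (x : X) (hx : x ∈ V)
    (hgen : x ≠ genericPoint X) : (hV.primeIdealOf ⟨x, hx⟩).asIdeal.IsMaximal := by
  have hne : Nonempty V := ⟨⟨x, hx⟩⟩
  have := dimensionLEOne_of_isAffineOpen hpir hV
  exact Ring.DimensionLEOne.maximalOfPrime (primeIdealOf_ne_bot hV x hx hgen)
    (hV.primeIdealOf ⟨x, hx⟩).isPrime

lemma noetherian_sections [LocallyOfFiniteType π] {V : X.Opens} (hV : IsAffineOpen V) :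
    IsNoetherianRing Γ(X, V) := by
  have hln : IsLocallyNoetherian X := LocallyOfFiniteType.isLocallyNoetherian π
  exact hln.component_noetherian ⟨V, hV⟩

lemma finite_inter_compl [IsIntegral X] [LocallyOfFiniteType π]
    (hpir : ∀ x : X, IsPrincipalIdealRing (X.presheaf.stalk x)) (V : X.Opens)
    [hne : Nonempty V] {U : X.Opens} (hU : IsAffineOpen U) :
    ((U : Set X) ∩ (V : Set X)ᶜ).Finite := by
  by_cases hUne : Nonempty U
  swap
  · have : (U : Set X) = ∅ := by
      rw [Set.eq_empty_iff_forall_notMem]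
      intro x hx
      exact hUne ⟨⟨x, hx⟩⟩
    rw [this, Set.empty_inter]
    exact Set.finite_empty
  have := dimensionLEOne_of_isAffineOpen hpir hU
  have := noetherian_sections π hU
  set Z : Set (PrimeSpectrum Γ(X, U)) := {Q | hU.fromSpec Q ∉ V} with hZ
  have hZc : IsClosed Z :=
    (V.isOpen.preimage hU.fromSpec.continuous).isClosed_compl
  obtain ⟨I, hI⟩ := (PrimeSpectrum.isClosed_iff_zeroLocus_ideal Z).mp hZc
  have hIne : I ≠ ⊥ := by
    rintro rfl
    have hgV : genericPoint X ∈ V := ((genericPoint_spec X).mem_open_set_iff V.isOpen).mpr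
      (by simpa using hne)
    have hgU : genericPoint X ∈ U := ((genericPoint_spec X).mem_open_set_iff U.isOpen).mpr
      (by simpa using hUne)
    have h1 : hU.primeIdealOf ⟨_, hgU⟩ ∈ Z := by
      rw [hI]
      intro a ha
      have : a = 0 := ha
      rw [this]
      exact zero_mem _
    apply h1
    have h2 := hU.fromSpec_primeIdealOf ⟨_, hgU⟩
    rw [h2]
    exact hgV
  obtain ⟨a, haI, ha⟩ := Submodule.exists_mem_ne_zero_of_ne_bot hIne
  have hfin := finite_primes_containing a ha
  refine (hfin.image (fun Q => hU.fromSpec Q)).subset ?_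
  rintro x ⟨hxU, hxV⟩
  refine ⟨hU.primeIdealOf ⟨x, hxU⟩, ?_, hU.fromSpec_primeIdealOf ⟨x, hxU⟩⟩
  have h1 : hU.primeIdealOf ⟨x, hxU⟩ ∈ Z := by
    intro h
    apply hxV
    have h2 : hU.fromSpec (hU.primeIdealOf ⟨x, hxU⟩) ∈ V := h
    rwa [hU.fromSpec_primeIdealOf] at h2
  rw [hI] at h1
  exact h1 haI

lemma finite_compl [IsIntegral X] [LocallyOfFiniteType π] [CompactSpace X]
    (hpir : ∀ x : X, IsPrincipalIdealRing (X.presheaf.stalk x)) (V : X.Opens)
    [hne : Nonempty V] : ((V : Set X)ᶜ).Finite := by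
  obtain ⟨s, hs, he⟩ := isCompact_iff_finite_and_eq_biUnion_affineOpens.mp
    (show IsCompact ((⊤ : X.Opens) : Set X) from isCompact_univ)
  have h1 : (V : Set X)ᶜ ⊆ ⋃ U ∈ s, ((U : X.Opens) : Set X) ∩ (V : Set X)ᶜ := by
    intro x hx
    have hxt : x ∈ (⊤ : X.Opens) := trivial
    rw [he] at hxt
    simp only [Opens.mem_iSup] at hxt
    obtain ⟨U, hU, hxU⟩ := hxt
    simp only [Set.mem_iUnion]
    exact ⟨U, hU, hxU, hx⟩
  exact (hs.biUnion fun U _ => finite_inter_compl π hpir V U.2).subset h1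

lemma isDedekindDomain_sections [IsIntegral X] [LocallyOfFiniteType π]
    (hpir : ∀ x : X, IsPrincipalIdealRing (X.presheaf.stalk x)) {V : X.Opens}
    (hV : IsAffineOpen V) [Nonempty V] : IsDedekindDomain Γ(X, V) := by
  have hn := noetherian_sections π hV
  have hd : IsDedekindDomainDvr Γ(X, V) :=
    { is_dvr_at_nonzero_prime := by
        intro P hP hPp
        have h1 := pir_localization hpir hV P
        refine { not_a_field' := ?_ }
        intro h
        apply hP
        have h2 : (IsLocalRing.maximalIdeal (Localization.AtPrime P)).comap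
            (algebraMap Γ(X, V) (Localization.AtPrime P)) = P :=
          IsLocalization.AtPrime.under_maximalIdeal (Localization.AtPrime P) P
        rw [← h2, h]
        exact (RingHom.injective_iff_ker_eq_bot _).mp
          (IsLocalization.injective _ P.primeCompl_le_nonZeroDivisors) }
  infer_instance

end Pool.Agent.MG.Two


end

section

open AlgebraicGeometry CategoryTheory TopologicalSpace Opposite IsLocalRing

universe u

namespace Pool.Agent.MG.Two

open Polynomial

section irred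
variable {X : Scheme.{u}}

lemma exists_common_generization (x : X) [IsDomain (X.presheaf.stalk x)] :
    ∃ ξ : X, ∀ y : X, y ⤳ x → ξ ⤳ y := by
  refine ⟨X.fromSpecStalk x (⊥ : PrimeSpectrum (X.presheaf.stalk x)), fun y hy => ?_⟩
  have h1 : y ∈ Set.range (X.fromSpecStalk x) := by
    rw [Scheme.range_fromSpecStalk]; exact hy
  obtain ⟨z, rfl⟩ := h1
  have h2 := (PrimeSpectrum.le_iff_specializes (⊥ : PrimeSpectrum (X.presheaf.stalk x)) z).mp bot_le
  exact h2.map (X.fromSpecStalk x).continuous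

lemma irreducibleComponents_eq_of_mem [∀ x : X, IsDomain (X.presheaf.stalk x)] {Z Z' : Set X}
    (hZ : Z ∈ irreducibleComponents X) (hZ' : Z' ∈ irreducibleComponents X) {x : X}
    (hx : x ∈ Z) (hx' : x ∈ Z') : Z = Z' := by
  obtain ⟨ξ, hξ⟩ := exists_common_generization x
  have key : ∀ {W : Set X}, W ∈ irreducibleComponents X → x ∈ W → W = closure {ξ} := by
    intro W hW hxW
    have hWi : IsIrreducible W := hW.1
    have hWc : IsClosed W := isClosed_of_mem_irreducibleComponents W hW
    obtain ⟨η, hη⟩ := QuasiSober.sober hWi hWc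
    have h1 : η ⤳ x := by
      rw [specializes_iff_mem_closure, hη]
      exact hxW
    have h2 : ξ ⤳ η := hξ η h1
    have h3 : W ⊆ closure {ξ} := by
      rw [← hη]
      exact h2.closure_subset
    have h4 : IsIrreducible (closure {ξ} : Set X) := isIrreducible_singleton.closure
    exact Set.Subset.antisymm h3 (hW.2 h4 h3)
  rw [key hZ hx, key hZ' hx']

theorem irreducibleSpace_of_stalks [∀ x : X, IsDomain (X.presheaf.stalk x)] [ConnectedSpace X]
    [NoetherianSpace X] : IrreducibleSpace X := by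
  obtain ⟨x0⟩ : Nonempty X := inferInstance
  set Z := irreducibleComponent x0 with hZdef
  have hZ : Z ∈ irreducibleComponents X := irreducibleComponent_mem_irreducibleComponents x0
  have hfin : (irreducibleComponents X).Finite := NoetherianSpace.finite_irreducibleComponents
  have hcompl : Zᶜ = ⋃ W ∈ (irreducibleComponents X \ {Z}), W := by
    ext y
    simp only [Set.mem_compl_iff, Set.mem_iUnion]
    constructor
    · intro hy
      refine ⟨irreducibleComponent y, ⟨irreducibleComponent_mem_irreducibleComponents y, ?_⟩,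
        mem_irreducibleComponent⟩
      intro h
      apply hy
      have : irreducibleComponent y = Z := h
      rw [← this]
      exact mem_irreducibleComponent
    · rintro ⟨W, ⟨hW, hne⟩, hyW⟩ hyZ
      exact hne (irreducibleComponents_eq_of_mem hW hZ hyW hyZ)
  have hopen : IsOpen Z := by
    rw [← isClosed_compl_iff, hcompl]
    exact (hfin.subset Set.sdiff_subset).isClosed_biUnion
      (fun W hW => isClosed_of_mem_irreducibleComponents W hW.1)
  have hclopen : IsClopen Z := ⟨isClosed_of_mem_irreducibleComponents Z hZ, hopen⟩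
  have huniv : Z = Set.univ := hclopen.eq_univ ⟨x0, mem_irreducibleComponent⟩
  have hirr : IsIrreducible (Set.univ : Set X) := huniv ▸ hZ.1
  exact (irreducibleSpace_def X).mpr hirr

end irred

variable {X : Scheme.{u}} {k : Type u} [Field k] (π : X ⟶ Spec (.of k))

/-- Around every point of a smooth curve there is an étale coordinate. -/
theorem exists_local_coord [SmoothOfRelativeDimension 1 π] (x : X) :
    ∃ (V : X.Opens) (_ : x ∈ V) (_ : IsAffineOpen V) (t : Γ(X, V)),
      (Polynomial.eval₂RingHom (kmap π V) t).Etale := by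
  obtain ⟨U, hU, V, hV, hx, e, h⟩ :=
    SmoothOfRelativeDimension.exists_isStandardSmoothOfRelativeDimension (n := 1) (f := π) x
  have hUtop : U = ⊤ := by
    ext y
    simp only [SetLike.mem_coe, Opens.coe_top, Set.mem_univ, iff_true]
    have h1 : y = π x := Subsingleton.elim _ _
    rw [h1]
    exact e hx
  subst hUtop
  have h1 : (kmap π V).IsStandardSmoothOfRelativeDimension 1 := by
    have h2 := (RingHom.isStandardSmoothOfRelativeDimension_respectsIso (n := 1)).2
      (π.appLE ⊤ V e).hom (Scheme.ΓSpecIso (.of k)).symm.commRingCatIsoToRingEquiv h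
    exact h2
  let _ : Algebra k Γ(X, V) := (kmap π V).toAlgebra
  have h2 : Algebra.IsStandardSmoothOfRelativeDimension 1 k Γ(X, V) := h1
  have hne : Nonempty V := ⟨⟨x, hx⟩⟩
  have hnt : Nontrivial Γ(X, V) := inferInstance
  obtain ⟨t, ht⟩ := exists_etale_polynomial (k := k) (A := Γ(X, V))
  exact ⟨V, hx, hV, t, ht⟩

theorem stalk_of_local_coord {V : X.Opens} (hV : IsAffineOpen V) (t : Γ(X, V))
    (ht : (Polynomial.eval₂RingHom (kmap π V) t).Etale) (x : X) (hx : x ∈ V) :
    IsDomain (X.presheaf.stalk x) ∧ IsPrincipalIdealRing (X.presheaf.stalk x) := by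
  let _ : Algebra k[X] Γ(X, V) := (Polynomial.eval₂RingHom (kmap π V) t).toAlgebra
  have h1 : Algebra.Etale k[X] Γ(X, V) := ht
  let := TopCat.Presheaf.algebra_section_stalk X.presheaf ⟨x, hx⟩
  have hloc := hV.isLocalization_stalk ⟨x, hx⟩
  obtain ⟨h2, h3⟩ := localization_of_etale (k := k) (hV.primeIdealOf ⟨x, hx⟩).asIdeal
  let e := IsLocalization.algEquiv (hV.primeIdealOf ⟨x, hx⟩).asIdeal.primeCompl
    (Localization.AtPrime (hV.primeIdealOf ⟨x, hx⟩).asIdeal) (X.presheaf.stalk x)
  constructor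
  · exact e.symm.toRingEquiv.toMulEquiv.isDomain _
  · exact IsPrincipalIdealRing.of_surjective e.toRingEquiv.toRingHom e.surjective

theorem isDomain_stalk [SmoothOfRelativeDimension 1 π] (x : X) :
    IsDomain (X.presheaf.stalk x) := by
  obtain ⟨V, hx, hV, t, ht⟩ := exists_local_coord π x
  exact (stalk_of_local_coord π hV t ht x hx).1

theorem pir_stalk [SmoothOfRelativeDimension 1 π] (x : X) :
    IsPrincipalIdealRing (X.presheaf.stalk x) := by
  obtain ⟨V, hx, hV, t, ht⟩ := exists_local_coord π x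
  exact (stalk_of_local_coord π hV t ht x hx).2

/-- A smooth connected proper curve is integral. -/
theorem isIntegral_of_smooth [SmoothOfRelativeDimension 1 π] [ConnectedSpace X] [IsProper π] :
    IsIntegral X := by
  have hd : ∀ x : X, IsDomain (X.presheaf.stalk x) := isDomain_stalk π
  have hln : IsLocallyNoetherian X := LocallyOfFiniteType.isLocallyNoetherian π
  have hc : CompactSpace X := QuasiCompact.compactSpace_of_compactSpace π
  have hn : IsNoetherian X := { }
  have hns : NoetherianSpace X := inferInstance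
  have hirr : IrreducibleSpace X := irreducibleSpace_of_stalks
  have hred : IsReduced X := by
    have : ∀ x : X, _root_.IsReduced (X.presheaf.stalk x) := fun x => inferInstance
    exact isReduced_of_isReduced_stalk X
  exact isIntegral_of_irreducibleSpace_of_isReduced X

theorem exists_transc [SmoothOfRelativeDimension 1 π] [IsIntegral X] :
    ∃ f : X.functionField, Transc π f := by
  obtain ⟨V, hx, hV, t, ht⟩ := exists_local_coord π (genericPoint X)
  have hne : Nonempty V := ⟨⟨_, hx⟩⟩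
  refine ⟨X.germToFunctionField V t, ?_⟩
  have h1 : Polynomial.eval₂RingHom (kfun π) (X.germToFunctionField V t) =
      (X.germToFunctionField V).hom.comp (Polynomial.eval₂RingHom (kmap π V) t) := by
    apply Polynomial.ringHom_ext
    · intro a
      simp only [RingHom.comp_apply, Polynomial.coe_eval₂RingHom, Polynomial.eval₂_C]
      exact (germ_kmap π V a).symm
    · simp only [RingHom.comp_apply, Polynomial.coe_eval₂RingHom, Polynomial.eval₂_X]
  rw [Transc, h1]
  let _ : Algebra k[X] Γ(X, V) := (Polynomial.eval₂RingHom (kmap π V) t).toAlgebra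
  have h2 : Algebra.Etale k[X] Γ(X, V) := ht
  have h3 : Module.Flat k[X] Γ(X, V) := inferInstance
  have h4 : Module.IsTorsionFree k[X] Γ(X, V) := inferInstance
  refine (X.germToFunctionField_injective V).comp ?_
  rw [injective_iff_map_eq_zero]
  intro p hp
  have h5 : p • (1 : Γ(X, V)) = 0 := by
    rw [Algebra.smul_def, mul_one]; exact hp
  exact (smul_eq_zero.mp h5).resolve_right one_ne_zero

end Pool.Agent.MG.Two


end

section

open AlgebraicGeometry CategoryTheory TopologicalSpace Opposite IsLocalRing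

universe u

namespace Pool.Agent.MG.Two

open Polynomial

variable {X : Scheme.{u}} {k : Type u} [Field k] (π : X ⟶ Spec (.of k))

lemma kmap_finiteType [LocallyOfFiniteType π] {V : X.Opens} (hV : IsAffineOpen V) :
    (kmap π V).FiniteType := by
  have hft := π.finiteType_appLE (isAffineOpen_top _) hV (le_pre_top π V)
  exact hft.comp (RingHom.FiniteType.of_surjective _
    (ConcreteCategory.bijective_of_isIso (Scheme.ΓSpecIso (.of k)).inv).2)

lemma etale_transfer {k A L : Type u} [Field k] [CommRing A] [Algebra k A] [CommRing L]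
    [Algebra A L] (b : A) [IsLocalization.Away b L] (x : A)
    (h : ((algebraMap A L).comp (aeval x : k[X] →ₐ[k] A).toRingHom).Etale)
    (B : Type u) [CommRing B] [Algebra A B] [IsLocalization.Away b B] :
    ((algebraMap A B).comp (aeval x : k[X] →ₐ[k] A).toRingHom).Etale := by
  let e : L ≃ₐ[A] B := IsLocalization.algEquiv (Submonoid.powers b) _ _
  have h1 := RingHom.Etale.respectsIso.1 _ e.toRingEquiv h
  have h2 : e.toRingEquiv.toRingHom.comp ((algebraMap A L).comp
      (aeval x : k[X] →ₐ[k] A).toRingHom) =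
      (algebraMap A B).comp (aeval x : k[X] →ₐ[k] A).toRingHom := by
    ext a
    · exact e.commutes _
    · exact e.commutes _
  rw [← h2]
  exact h1

/-- The affine chart with an étale coordinate inside an affine open set. -/
theorem exists_chart_aux [IsAlgClosed k] [IsIntegral X] [LocallyOfFiniteType π]
    (hpir : ∀ x : X, IsPrincipalIdealRing (X.presheaf.stalk x)) {W : X.Opens}
    (hW : IsAffineOpen W) {ι : Type*} [Finite ι] [Nonempty ι] (p : ι → X)
    (hp : Function.Injective p) (hgen : ∀ i, p i ≠ genericPoint X) (hpW : ∀ i, p i ∈ W)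
    (Z : Set X) (hZ : Z.Finite) (hpZ : ∀ i, p i ∉ Z) (hZgen : genericPoint X ∉ Z) :
    ∃ (V : X.Opens) (x : Γ(X, V)) (c : ι → k), IsAffineOpen V ∧ V ≤ W ∧ (∀ i, p i ∈ V) ∧
      (∀ z ∈ Z, z ∉ V) ∧ Function.Injective c ∧
      (Polynomial.eval₂RingHom (kmap π V) x).Etale ∧
      ∀ i, ∀ r : Γ(X, V), p i ∉ X.basicOpen r ↔ ∃ s, r = (x - kmap π V (c i)) * s := by
  classical
  have hne : Nonempty W := ⟨⟨p (Classical.arbitrary ι), hpW _⟩⟩
  let _ : Algebra k Γ(X, W) := (kmap π W).toAlgebra
  have hft : Algebra.FiniteType k Γ(X, W) := kmap_finiteType π hW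
  have hdd := isDedekindDomain_sections π hpir hW
  let M : ι → Ideal Γ(X, W) := fun i => (hW.primeIdealOf ⟨p i, hpW i⟩).asIdeal
  have hM : ∀ i, (M i).IsMaximal := fun i => isMaximal_primeIdealOf hpir hW _ _ (hgen i)
  have hMinj : Function.Injective M := by
    intro i j hij
    have h1 := primeIdealOf_injective hW (PrimeSpectrum.ext hij)
    exact hp (congrArg Subtype.val h1)
  have hbot : ∀ i, M i ≠ ⊥ := fun i => primeIdealOf_ne_bot hW _ _ (hgen i)
  have hκ : Finite {z : X // z ∈ Z ∧ z ∈ W} :=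
    (hZ.subset (fun z (hz : z ∈ Z ∧ z ∈ W) => hz.1)).to_subtype
  let _ := Fintype.ofFinite {z : X // z ∈ Z ∧ z ∈ W}
  let I : Ideal Γ(X, W) := ∏ z : {z : X // z ∈ Z ∧ z ∈ W},
    (hW.primeIdealOf ⟨z.1, z.2.2⟩).asIdeal
  have hI : ∀ i, ¬ I ≤ M i := by
    intro i hle
    obtain ⟨z, -, hz⟩ := (hM i).isPrime.prod_le.mp hle
    have hzm : (hW.primeIdealOf ⟨z.1, z.2.2⟩).asIdeal.IsMaximal :=
      isMaximal_primeIdealOf hpir hW _ _ (fun h => hZgen (h ▸ z.2.1))
    have h1 := hzm.eq_of_le (hM i).ne_top hz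
    have h2 := primeIdealOf_injective hW (PrimeSpectrum.ext h1)
    have h3 : z.1 = p i := congrArg Subtype.val h2
    exact hpZ i (h3 ▸ z.2.1)
  obtain ⟨x, b, c, hbI, hbM, hc, hxM, hdiv, het⟩ := exists_etale_coord (k := k) M hM hMinj hbot I hI
  have hloc : IsLocalization.Away b Γ(X, X.basicOpen b) := hW.isLocalization_basicOpen b
  obtain ⟨ρ, hρ⟩ : ∃ ρ : Γ(X, W) →+* Γ(X, X.basicOpen b), ρ = algebraMap _ _ := ⟨_, rfl⟩
  have hρk : ∀ a, ρ (kmap π W a) = kmap π (X.basicOpen b) a := fun a => by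
    rw [hρ]; exact kmap_res π (X.basicOpen_le b) a
  refine ⟨X.basicOpen b, ρ x, c, hW.basicOpen b, X.basicOpen_le b, ?_, ?_, hc, ?_, ?_⟩
  · intro i
    by_contra h
    exact hbM i ((mem_primeIdealOf_iff hW (p i) (hpW i) b).mpr h)
  · intro z hz hzb
    have hzW : z ∈ W := X.basicOpen_le b hzb
    have h0 := Finset.inf_le (f := fun z : {z : X // z ∈ Z ∧ z ∈ W} =>
      (hW.primeIdealOf ⟨z.1, z.2.2⟩).asIdeal) (Finset.mem_univ (⟨z, hz, hzW⟩ :
        {z : X // z ∈ Z ∧ z ∈ W}))
    have h1 : I ≤ (hW.primeIdealOf ⟨z, hzW⟩).asIdeal := Ideal.prod_le_inf.trans h0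
    exact (mem_primeIdealOf_iff hW z hzW b).mp (h1 hbI) hzb
  · have h1 := etale_transfer (k := k) b x het Γ(X, X.basicOpen b)
    have h2 : Polynomial.eval₂RingHom (kmap π (X.basicOpen b)) (ρ x) =
        ρ.comp (aeval x : k[X] →ₐ[k] Γ(X, W)).toRingHom := by
      apply Polynomial.ringHom_ext
      · intro a
        rw [Polynomial.coe_eval₂RingHom, Polynomial.eval₂_C, ← hρk a]
        exact (congrArg ρ (Polynomial.aeval_C x a)).symm
      · rw [Polynomial.coe_eval₂RingHom, Polynomial.eval₂_X]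
        exact (congrArg ρ (Polynomial.aeval_X x)).symm
    rw [h2, hρ]
    exact h1
  · intro i r
    have hpb : p i ∈ X.basicOpen b := by
      by_contra h
      exact hbM i ((mem_primeIdealOf_iff hW (p i) (hpW i) b).mpr h)
    have hres : ∀ a : Γ(X, W), X.basicOpen (ρ a) = X.basicOpen b ⊓ X.basicOpen a := fun a => by
      rw [hρ]; exact X.basicOpen_res a (homOfLE (X.basicOpen_le b)).op
    constructor
    · intro hr
      obtain ⟨⟨a, ⟨_, n, rfl⟩⟩, ha⟩ := IsLocalization.surj (Submonoid.powers b) r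
      have ha' : r * ρ (b ^ n) = ρ a := by rw [hρ]; exact ha
      have haM : a ∈ M i := by
        rw [mem_primeIdealOf_iff hW (p i) (hpW i) a]
        intro h
        apply hr
        have h1 : p i ∈ X.basicOpen (ρ a) := by rw [hres]; exact ⟨hpb, h⟩
        rw [← ha', X.basicOpen_mul] at h1
        exact h1.1
      obtain ⟨s, hs⟩ := hdiv i a haM
      have hbu : IsUnit (ρ b) := by rw [hρ]; exact IsLocalization.Away.algebraMap_isUnit b
      obtain ⟨v, hv⟩ := hbu
      have h2 : ρ b * ρ a = (ρ x - kmap π (X.basicOpen b) (c i)) * ρ s := by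
        rw [← map_mul, hs, map_mul, map_sub]
        congr 2
        exact hρk (c i)
      have h3 : r * (ρ b) ^ (n + 1) = (ρ x - kmap π (X.basicOpen b) (c i)) * ρ s := by
        rw [← h2, ← ha', map_pow]; ring
      refine ⟨ρ s * (↑(v⁻¹) : Γ(X, X.basicOpen b)) ^ (n + 1), ?_⟩
      rw [← mul_assoc, ← h3, ← hv, mul_assoc, ← mul_pow, Units.mul_inv, one_pow, mul_one]
    · rintro ⟨s, rfl⟩ h
      rw [X.basicOpen_mul] at h
      have h1 : p i ∈ X.basicOpen (ρ (x - kmap π W (c i))) := by
        rw [map_sub, hρk]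
        exact h.1
      rw [hres] at h1
      exact (mem_primeIdealOf_iff hW (p i) (hpW i) _).mp (hxM i) h1.2

end Pool.Agent.MG.Two


end

section

open AlgebraicGeometry CategoryTheory TopologicalSpace Opposite IsLocalRing

universe u

namespace Pool.Agent.MG.Two

open Polynomial KaehlerDifferential TensorProduct

section alg
variable {k R : Type u} [Field k] [CommRing R] [Algebra k R]

/-- Differentials of a ring which is étale over `k[x]`. -/
theorem exists_kaehler_equiv (x : R) (h : (aeval x : k[X] →ₐ[k] R).toRingHom.Etale) :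
    ∃ Φ : Ω[R⁄k] ≃ₗ[R] R, Φ (D k R x) = 1 := by
  let _ : Algebra k[X] R := (aeval x : k[X] →ₐ[k] R).toRingHom.toAlgebra
  have hst : IsScalarTower k k[X] R := IsScalarTower.of_algebraMap_eq' (by
    ext a
    change algebraMap k R a = aeval x (C a)
    simp)
  have hX : algebraMap k[X] R X = x := by
    change aeval x X = x
    simp
  have h1 : Algebra.Etale k[X] R := h
  have h2 : Algebra.FormallyEtale k[X] R := inferInstance
  let Ψ := (tensorKaehlerEquivOfFormallyEtale k k[X] R).symm ≪≫ₗ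
    (AlgebraTensorModule.congr (LinearEquiv.refl R R) (polynomialEquiv k)) ≪≫ₗ
    (AlgebraTensorModule.rid k[X] R R)
  refine ⟨Ψ, ?_⟩
  have h3 := tensorKaehlerEquivOfFormallyEtale_symm_D_algebraMap k k[X] R X
  rw [hX] at h3
  simp only [Ψ, LinearEquiv.trans_apply, h3, AlgebraTensorModule.congr_tmul,
    LinearEquiv.refl_apply, polynomialEquiv_D, derivative_X, AlgebraTensorModule.rid_tmul,
    one_smul]

/-- The derivation `d/dx` and the function `dx/dy`. -/
theorem exists_derivation (x y : R) (hx : (aeval x : k[X] →ₐ[k] R).toRingHom.Etale)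
    (hy : (aeval y : k[X] →ₐ[k] R).toRingHom.Etale) :
    ∃ (dd : Derivation k R R) (e : R), dd x = 1 ∧ e * dd y = 1 := by
  obtain ⟨Φ, hΦ⟩ := exists_kaehler_equiv x hx
  obtain ⟨Ψ, hΨ⟩ := exists_kaehler_equiv y hy
  refine ⟨Φ.toLinearMap.compDer (D k R), Ψ (D k R x), hΦ, ?_⟩
  have h1 : D k R x = (Ψ (D k R x)) • D k R y := by
    apply Ψ.injective
    rw [map_smul, hΨ, smul_eq_mul, mul_one]
  have h2 : Φ (D k R x) = Ψ (D k R x) • Φ (D k R y) := by
    conv_lhs => rw [h1]
    rw [map_smul]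
  rw [hΦ] at h2
  exact h2.symm

end alg

variable {X : Scheme.{u}} {k : Type u} [Field k] (π : X ⟶ Spec (.of k))

theorem exists_const [IsAlgClosed k] [IsIntegral X] [IsProper π] (s : Γ(X, ⊤)) :
    ∃ c : k, s = kmap π ⊤ c := by
  have h1 := finite_appTop_of_universallyClosed k π
  have h2 : (kmap π ⊤).Finite := by
    have h3 : (kmap π ⊤) = π.appTop.hom.comp (Scheme.ΓSpecIso (.of k)).inv.hom := by
      have h4 : π.appLE ⊤ ⊤ (le_pre_top π ⊤) = π.appTop := Scheme.Hom.appLE_eq_app π
      rw [kmap, h4]; rfl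
    rw [h3]
    exact h1.comp (RingHom.Finite.of_surjective _
      (ConcreteCategory.bijective_of_isIso (Scheme.ΓSpecIso (.of k)).inv).2)
  let _ : Algebra k Γ(X, ⊤) := (kmap π ⊤).toAlgebra
  have h3 : Module.Finite k Γ(X, ⊤) := h2
  have h4 : Algebra.IsIntegral k Γ(X, ⊤) := inferInstance
  obtain ⟨c, hc⟩ := (IsAlgClosed.algebraMap_bijective_of_isIntegral (k := k)
    (K := Γ(X, ⊤))).2 s
  exact ⟨c, hc.symm⟩

lemma isAffineOpen_inf [IsSeparated π] {U V : X.Opens} (hU : IsAffineOpen U)
    (hV : IsAffineOpen V) : IsAffineOpen (U ⊓ V) := by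
  have h1 : X.IsSeparated := by
    constructor
    rw [← Limits.terminal.comp_from π]
    infer_instance
  exact hU.inf hV

end Pool.Agent.MG.Two


end

section

open AlgebraicGeometry CategoryTheory TopologicalSpace Opposite IsLocalRing

universe u

namespace Pool.Agent.MG.Two

open Polynomial

variable {X : Scheme.{u}} {k : Type u} [Field k] (π : X ⟶ Spec (.of k))

/-- Evaluation of functions at a rational point. -/
noncomputable def evs (σ : Spec (.of k) ⟶ X) (U : X.Opens) (h : ⊤ ≤ σ ⁻¹ᵁ U) : Γ(X, U) →+* k :=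
  (Scheme.ΓSpecIso (.of k)).hom.hom.comp (σ.appLE U ⊤ h).hom

lemma evs_kmap (σ : Spec (.of k) ⟶ X) (hσ : σ ≫ π = 𝟙 _) (U : X.Opens) (h : ⊤ ≤ σ ⁻¹ᵁ U)
    (a : k) : evs σ U h (kmap π U a) = a := by
  have h1 : π.appLE ⊤ U (le_pre_top π U) ≫ σ.appLE U ⊤ h = 𝟙 _ := by
    rw [Scheme.Hom.appLE_comp_appLE]
    have h2 : (𝟙 (Spec (.of k)) : Spec (.of k) ⟶ Spec (.of k)).appLE ⊤ ⊤ le_top = 𝟙 _ :=
      Scheme.Hom.appLE_eq_app _
    simp only [hσ]
    exact h2
  have h3 : (Scheme.ΓSpecIso (.of k)).inv ≫ π.appLE ⊤ U (le_pre_top π U) ≫ σ.appLE U ⊤ h ≫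
      (Scheme.ΓSpecIso (.of k)).hom = 𝟙 _ := by
    rw [reassoc_of% h1, Iso.inv_hom_id]
  exact ConcreteCategory.congr_hom h3 a

lemma evs_eq_zero_iff (σ : Spec (.of k) ⟶ X) (U : X.Opens) (h : ⊤ ≤ σ ⁻¹ᵁ U) (r : Γ(X, U))
    (q : Spec (.of k)) : evs σ U h r = 0 ↔ σ q ∉ X.basicOpen r := by
  have h1 := Scheme.basicOpen_appLE σ ⊤ U h r
  have h2 := basicOpen_eq_of_affine' (σ.appLE U ⊤ h r)
  rw [h1] at h2
  have h3 : σ q ∈ X.basicOpen r ↔ q ∈ (⊤ ⊓ σ ⁻¹ᵁ X.basicOpen r : (Spec (.of k)).Opens) :=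
    ⟨fun h => ⟨trivial, h⟩, fun h => h.2⟩
  have h4 : ∀ (q : PrimeSpectrum k) (a : k), a ∈ q.asIdeal ↔ a = 0 := by
    intro q a
    constructor
    · intro ha
      by_contra hne
      exact q.isPrime.ne_top (q.asIdeal.eq_top_of_isUnit_mem ha (isUnit_iff_ne_zero.mpr hne))
    · rintro rfl
      exact zero_mem _
  rw [h3, h2]
  have h5 : ∀ a : k, a = 0 ↔ ¬ (a ∉ (show PrimeSpectrum k from q).asIdeal) := fun a =>
    (h4 q a).symm.trans not_not.symm
  exact h5 _

lemma top_le_of_mem (σ : Spec (.of k) ⟶ X) (U : X.Opens) (q : Spec (.of k)) (hq : σ q ∈ U) :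
    ⊤ ≤ σ ⁻¹ᵁ U := by
  intro q' _
  have : q' = q := Subsingleton.elim _ _
  rw [this]
  exact hq

lemma section_ext (σ τ : Spec (.of k) ⟶ X) (hσ : σ ≫ π = 𝟙 _) (hτ : τ ≫ π = 𝟙 _)
    (q : Spec (.of k)) (h : σ q = τ q) : σ = τ := by
  obtain ⟨_, ⟨V, hV, rfl⟩, hxV, -⟩ :=
    X.isBasis_affineOpens.exists_subset_of_mem_open (Set.mem_univ (σ q)) isOpen_univ
  have h1 : ⊤ ≤ σ ⁻¹ᵁ V := top_le_of_mem σ V q hxV
  have h2 : ⊤ ≤ τ ⁻¹ᵁ V := top_le_of_mem τ V q (h ▸ hxV)
  have h3 : ∀ r : Γ(X, V), evs σ V h1 r = evs τ V h2 r := by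
    intro r
    have h4 : evs σ V h1 (r - kmap π V (evs σ V h1 r)) = 0 := by
      rw [map_sub, evs_kmap π σ hσ, sub_self]
    rw [evs_eq_zero_iff σ V h1 _ q, h, ← evs_eq_zero_iff τ V h2 _ q, map_sub,
      evs_kmap π τ hτ, sub_eq_zero] at h4
    exact h4.symm
  have h5 : σ.appLE V ⊤ h1 = τ.appLE V ⊤ h2 := by
    ext r
    exact (ConcreteCategory.bijective_of_isIso (Scheme.ΓSpecIso (.of k)).hom).1 (h3 r)
  have h6 := hV.SpecMap_appLE_fromSpec σ (isAffineOpen_top _) h1
  have h7 := hV.SpecMap_appLE_fromSpec τ (isAffineOpen_top _) h2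
  rw [h5, h7] at h6
  rw [← cancel_epi (isAffineOpen_top (Spec (.of k))).fromSpec]
  exact h6.symm

lemma mem_basicOpen_genericPoint [IsIntegral X] (U : X.Opens) [hU : Nonempty U] (r : Γ(X, U))
    (hr : r ≠ 0) : genericPoint X ∈ X.basicOpen r := by
  have hg : genericPoint X ∈ U := ((genericPoint_spec X).mem_open_set_iff U.isOpen).mpr
      (by simpa using hU)
  rw [Scheme.mem_basicOpen X r _ hg]
  have h1 : X.germToFunctionField U r ≠ 0 := by
    intro h
    apply hr
    apply X.germToFunctionField_injective U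
    rw [h, map_zero]
  exact isUnit_iff_ne_zero.mpr h1

lemma section_ne_genericPoint [IsIntegral X] {f : X.functionField} (hf : Transc π f)
    (σ : Spec (.of k) ⟶ X) (hσ : σ ≫ π = 𝟙 _) (q : Spec (.of k)) : σ q ≠ genericPoint X := by
  intro h
  have h1 : ⊤ ≤ σ ⁻¹ᵁ dom f := top_le_of_mem σ _ q (h ▸ genericPoint_mem_dom f)
  set c := evs σ _ h1 (sec f) with hc
  have h2 : evs σ _ h1 (sec f - kmap π _ c) = 0 := by
    rw [map_sub, evs_kmap π σ hσ, sub_self]
  rw [evs_eq_zero_iff σ _ h1 _ q, h] at h2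
  have h3 : sec f - kmap π _ c = 0 := by
    by_contra hne
    exact h2 (mem_basicOpen_genericPoint _ _ hne)
  have h4 : (Polynomial.X - Polynomial.C c : k[X]) = 0 := by
    apply hf
    rw [map_zero]
    have h5 := congrArg (X.germToFunctionField (dom f)) h3
    rw [map_sub, map_zero, germ_sec, germ_kmap] at h5
    simpa using h5
  exact Polynomial.X_sub_C_ne_zero c h4

lemma etale_injective {R : Type u} [CommRing R] [Nontrivial R] (ψ : k[X] →+* R) (h : ψ.Etale) :
    Function.Injective ψ := by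
  let _ : Algebra k[X] R := ψ.toAlgebra
  have h2 : Algebra.Etale k[X] R := h
  have h3 : Module.Flat k[X] R := inferInstance
  have h4 : Module.IsTorsionFree k[X] R := inferInstance
  rw [injective_iff_map_eq_zero]
  intro p hp
  have h5 : p • (1 : R) = 0 := by
    rw [Algebra.smul_def, mul_one]; exact hp
  exact (smul_eq_zero.mp h5).resolve_right one_ne_zero

end Pool.Agent.MG.Two


end

section

open AlgebraicGeometry CategoryTheory TopologicalSpace Opposite IsLocalRing

universe u

namespace Pool.Agent.MG.Two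

open Polynomial

variable {X : Scheme.{u}} {k : Type u} [Field k] (π : X ⟶ Spec (.of k))

lemma genericPoint_mem [IsIntegral X] (V : X.Opens) (h : Nonempty V) : genericPoint X ∈ V :=
  ((genericPoint_spec X).mem_open_set_iff V.isOpen).mpr (by simpa using h)

/-- A chart with an étale coordinate is not the whole curve. -/
lemma exists_notMem_of_coord [IsAlgClosed k] [IsProper π] [IsIntegral X] (V : X.Opens)
    (x : Γ(X, V)) (hx : (Polynomial.eval₂RingHom (kmap π V) x).Etale) (hne : Nonempty V) :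
    ∃ q : X, q ∉ V := by
  by_contra hcon
  push Not at hcon
  have hV : V = ⊤ := by
    ext q
    simp [hcon q]
  subst hV
  obtain ⟨c, hc⟩ := exists_const π x
  have hinj := etale_injective _ hx
  have h1 : (Polynomial.X - Polynomial.C c : k[X]) = 0 := by
    apply hinj
    rw [map_zero, map_sub]
    simp only [Polynomial.coe_eval₂RingHom, Polynomial.eval₂_X, Polynomial.eval₂_C]
    rw [hc, sub_self]
  exact Polynomial.X_sub_C_ne_zero c h1

theorem exists_two_charts [IsAlgClosed k] [IsProper π] [SmoothOfRelativeDimension 1 π]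
    [IsIntegral X] {ι : Type*} [Finite ι] [Nonempty ι] (p : ι → X)
    (hp : Function.Injective p) (hgen : ∀ i, p i ≠ genericPoint X) :
    ∃ (V1 V2 : X.Opens) (x : Γ(X, V1)) (y : Γ(X, V2)) (c : ι → k),
      IsAffineOpen V1 ∧ IsAffineOpen V2 ∧ V1 ⊔ V2 = ⊤ ∧ (∀ i, p i ∈ V1) ∧ (∀ i, p i ∉ V2) ∧
      Function.Injective c ∧ (Polynomial.eval₂RingHom (kmap π V1) x).Etale ∧
      (Polynomial.eval₂RingHom (kmap π V2) y).Etale ∧
      (∀ i, ∀ r : Γ(X, V1), p i ∉ X.basicOpen r ↔ ∃ s, r = (x - kmap π V1 (c i)) * s) ∧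
      Nonempty V2 := by
  have hpir := pir_stalk π
  have hv := valuationRing_stalk hpir
  have hT := exists_transc π
  have hinf : Infinite k := IsAlgClosed.instInfinite
  have hcs : CompactSpace X := QuasiCompact.compactSpace_of_compactSpace π
  obtain ⟨f, hf, hfp⟩ := exists_transc_regular π hv hT (Set.range p) (Set.finite_range p)
  have hW := isAffineOpen_dom π hpir hf
  obtain ⟨V1, x, c, hV1, -, hpV1, -, hc, hx, hgen1⟩ := exists_chart_aux π hpir hW p hp hgen
    (fun i => hfp _ ⟨i, rfl⟩) ∅ Set.finite_empty (fun i => Set.notMem_empty _)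
    (Set.notMem_empty _)
  have hV1ne : Nonempty V1 := ⟨⟨p (Classical.arbitrary ι), hpV1 _⟩⟩
  have hfin : ((V1 : Set X)ᶜ).Finite := finite_compl π hpir V1
  obtain ⟨q0, hq0⟩ := exists_notMem_of_coord π V1 x hx hV1ne
  obtain ⟨f', hf', hfp'⟩ := exists_transc_regular π hv hT ((V1 : Set X)ᶜ) hfin
  have hW' := isAffineOpen_dom π hpir hf'
  have hι : Finite {q : X // q ∉ V1} := hfin.to_subtype
  have hne : Nonempty {q : X // q ∉ V1} := ⟨⟨q0, hq0⟩⟩
  obtain ⟨V2, y, c', hV2, -, hqV2, hZ, -, hy, -⟩ := exists_chart_aux π hpir hW'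
    (fun q : {q : X // q ∉ V1} => q.1) Subtype.val_injective
    (fun q h => q.2 (h ▸ genericPoint_mem V1 hV1ne)) (fun q => hfp' q.1 q.2) (Set.range p)
    (Set.finite_range p) (fun q ⟨i, hi⟩ => q.2 (by rw [← hi]; exact hpV1 i))
    (fun ⟨i, hi⟩ => hgen i hi)
  refine ⟨V1, V2, x, y, c, hV1, hV2, ?_, hpV1, fun i => hZ _ ⟨i, rfl⟩, hc, hx, hy, hgen1,
    ⟨⟨q0, hqV2 ⟨q0, hq0⟩⟩⟩⟩
  rw [eq_top_iff]
  intro q _
  by_cases hq : q ∈ V1
  · exact Or.inl hq
  · exact Or.inr (hqV2 ⟨q, hq⟩)

/-- The coordinate minus its value is invertible away from the point. -/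
lemma isUnit_sub [IsIntegral X] (hpir : ∀ x : X, IsPrincipalIdealRing (X.presheaf.stalk x))
    {V : X.Opens} (hV : IsAffineOpen V) (z : Γ(X, V)) (p : X) (hp : p ∈ V)
    (hgen : p ≠ genericPoint X) (hz : ∀ r : Γ(X, V), p ∉ X.basicOpen r ↔ ∃ s, r = z * s)
    (U : X.Opens) (hU : U ≤ V) (hpU : p ∉ U) :
    IsUnit (X.presheaf.map (homOfLE hU).op z) := by
  have h1 : X.basicOpen z ⊓ U = U := by
    apply le_antisymm inf_le_right
    intro q hq
    refine ⟨?_, hq⟩
    by_contra hqz
    have hqV : q ∈ V := hU hq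
    have hMp : (hV.primeIdealOf ⟨p, hp⟩).asIdeal.IsMaximal := isMaximal_primeIdealOf hpir hV p hp hgen
    have hle : (hV.primeIdealOf ⟨p, hp⟩).asIdeal ≤ (hV.primeIdealOf ⟨q, hqV⟩).asIdeal := by
      intro r hr
      rw [mem_primeIdealOf_iff] at hr
      obtain ⟨s, rfl⟩ := (hz r).mp hr
      rw [mem_primeIdealOf_iff, X.basicOpen_mul]
      exact fun h => hqz h.1
    have h2 := hMp.eq_of_le (hV.primeIdealOf ⟨q, hqV⟩).isPrime.ne_top hle
    have h3 := primeIdealOf_injective hV (PrimeSpectrum.ext h2)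
    have h4 : p = q := congrArg Subtype.val h3
    exact hpU (h4 ▸ hq)
  have h2 : U ≤ X.basicOpen z := by
    rw [← h1]; exact inf_le_left
  have h3 := X.toRingedSpace.isUnit_res_basicOpen z
  have h4 : X.presheaf.map (homOfLE hU).op z = X.presheaf.map (homOfLE h2).op
      (X.presheaf.map (homOfLE (X.basicOpen_le z)).op z) := by
    rw [← ConcreteCategory.comp_apply, ← X.presheaf.map_comp]
    rfl
  rw [h4]
  exact h3.map (X.presheaf.map (homOfLE h2).op).hom

/-- Functions which agree on the intersection are constant. -/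
lemma const_of_agree [IsAlgClosed k] [IsProper π] [IsIntegral X] {V1 V2 : X.Opens}
    (h12 : V1 ⊔ V2 = ⊤) (a : Γ(X, V1)) (b : Γ(X, V2))
    (h : X.presheaf.map (homOfLE (inf_le_left : V1 ⊓ V2 ≤ V1)).op a =
      X.presheaf.map (homOfLE (inf_le_right : V1 ⊓ V2 ≤ V2)).op b) :
    ∃ c : k, a = kmap π V1 c := by
  have hgl := X.sheaf.existsUnique_gluing' (fun i : Bool => if i then V1 else V2) ⊤
    (fun i => homOfLE le_top) (by
      rw [← h12]
      apply sup_le
      · exact le_iSup (fun i : Bool => if i then V1 else V2) true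
      · exact le_iSup (fun i : Bool => if i then V1 else V2) false)
    (fun i => match i with
      | true => a
      | false => b) (by
      intro i j
      rcases i with _ | _ <;> rcases j with _ | _
      · rfl
      · have h' := congrArg (X.presheaf.map (homOfLE (le_inf inf_le_right inf_le_left :
          V2 ⊓ V1 ≤ V1 ⊓ V2)).op) h
        rw [← ConcreteCategory.comp_apply, ← ConcreteCategory.comp_apply, ← X.presheaf.map_comp,
          ← X.presheaf.map_comp] at h'
        exact h'.symm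
      · exact h
      · rfl)
  obtain ⟨s, hs, -⟩ := hgl
  obtain ⟨c, hc⟩ := exists_const π s
  refine ⟨c, ?_⟩
  have h1 := hs true
  refine Eq.trans h1.symm ?_
  rw [hc]
  exact kmap_res π le_top c

end Pool.Agent.MG.Two


end

section

/-!
# The two-chart structure of a smooth pointed curve
-/

open CategoryTheory CategoryTheory.Limits AlgebraicGeometry TensorProduct

namespace Pool.Agent.MG

namespace Two

open Polynomial

section

variable {X : Scheme.{0}} {k : Type} [Field k] (π : X ⟶ Sp k)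

/-- Restriction maps between affine opens are étale. -/
lemma etale_rs {U V : X.Opens} (h : U ≤ V) (hU : IsAffineOpen U) (hV : IsAffineOpen V) :
    (rs X h).Etale := by
  have h1 := HasRingHomProperty.appLE (@Etale) (𝟙 X) inferInstance ⟨V, hV⟩ ⟨U, hU⟩ h
  have h2 : (𝟙 X : X ⟶ X).appLE V U h = X.presheaf.map (homOfLE h).op := by
    simp only [Scheme.Hom.appLE, Scheme.Hom.id_app]
    exact Category.id_comp _
  have h4 : (CommRingCat.Hom.hom ((𝟙 X : X ⟶ X).appLE V U h)).Etale := h1
  rw [h2] at h4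
  exact h4

variable {V1 V2 : X.Opens} (x : Γ(X, V1)) (y : Γ(X, V2))

/-- The ring data of two charts. -/
theorem exists_TC (hV1 : IsAffineOpen V1) (hV2 : IsAffineOpen V2)
    (hV12 : IsAffineOpen (V1 ⊓ V2))
    (hx : (Polynomial.eval₂RingHom (coef π V1) x).Etale)
    (hy : (Polynomial.eval₂RingHom (coef π V2) y).Etale) :
    ∃ (T : TC k) (e1 : T.R1 ≃+* Γ(X, V1)) (e2 : T.R2 ≃+* Γ(X, V2))
      (e12 : T.R12 ≃+* Γ(X, V1 ⊓ V2)),
      (∀ c : k, e1 (algebraMap k T.R1 c) = coef π V1 c) ∧
      (∀ c : k, e2 (algebraMap k T.R2 c) = coef π V2 c) ∧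
      (∀ c : k, e12 (algebraMap k T.R12 c) = coef π (V1 ⊓ V2) c) ∧
      (∀ a, rs X inf_le_left (e1 a) = e12 (T.j1 a)) ∧
      (∀ a, rs X inf_le_right (e2 a) = e12 (T.j2 a)) ∧ e1 T.x = x ∧ e2 T.y = y := by
  let _ : Algebra k Γ(X, V1) := (coef π V1).toAlgebra
  let _ : Algebra k Γ(X, V2) := (coef π V2).toAlgebra
  let _ : Algebra k Γ(X, V1 ⊓ V2) := (coef π (V1 ⊓ V2)).toAlgebra
  let j1 : Γ(X, V1) →ₐ[k] Γ(X, V1 ⊓ V2) :=
    { rs X inf_le_left with commutes' := fun c => coef_rs π inf_le_left c }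
  let j2 : Γ(X, V2) →ₐ[k] Γ(X, V1 ⊓ V2) :=
    { rs X inf_le_right with commutes' := fun c => coef_rs π inf_le_right c }
  have hj1 : j1.toRingHom.Etale := etale_rs inf_le_left hV12 hV1
  have hj2 : j2.toRingHom.Etale := etale_rs inf_le_right hV12 hV2
  have hx1 : (aeval x : k[X] →ₐ[k] Γ(X, V1)).toRingHom.Etale := hx
  have hy1 : (aeval y : k[X] →ₐ[k] Γ(X, V2)).toRingHom.Etale := hy
  have hx2 : (aeval (j1 x) : k[X] →ₐ[k] Γ(X, V1 ⊓ V2)).toRingHom.Etale := by
    have h1 := RingHom.Etale.stableUnderComposition _ _ hx1 hj1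
    have h2 : j1.toRingHom.comp (aeval x : k[X] →ₐ[k] Γ(X, V1)).toRingHom =
        (aeval (j1 x) : k[X] →ₐ[k] Γ(X, V1 ⊓ V2)).toRingHom := by
      have h3 : j1.comp (aeval x : k[X] →ₐ[k] Γ(X, V1)) = aeval (j1 x) := by
        apply Polynomial.algHom_ext; simp
      rw [← h3]; rfl
    rwa [h2] at h1
  have hy2 : (aeval (j2 y) : k[X] →ₐ[k] Γ(X, V1 ⊓ V2)).toRingHom.Etale := by
    have h1 := RingHom.Etale.stableUnderComposition _ _ hy1 hj2
    have h2 : j2.toRingHom.comp (aeval y : k[X] →ₐ[k] Γ(X, V2)).toRingHom =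
        (aeval (j2 y) : k[X] →ₐ[k] Γ(X, V1 ⊓ V2)).toRingHom := by
      have h3 : j2.comp (aeval y : k[X] →ₐ[k] Γ(X, V2)) = aeval (j2 y) := by
        apply Polynomial.algHom_ext; simp
      rw [← h3]; rfl
    rwa [h2] at h1
  obtain ⟨dd, e, hdd, he⟩ := exists_derivation (j1 x) (j2 y) hx2 hy2
  refine ⟨{ R1 := Γ(X, V1), R2 := Γ(X, V2), R12 := Γ(X, V1 ⊓ V2), j1 := j1, j2 := j2, x := x,
            y := y, etx := hx1, ety := hy1, et1 := hj1, et2 := hj2, dd := dd, ddx := hdd, e := e,
            ey := he }, RingEquiv.refl _, RingEquiv.refl _, RingEquiv.refl _, fun _ => rfl,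
            fun _ => rfl, fun _ => rfl, fun _ => rfl, fun _ => rfl, rfl, rfl⟩

/-- Affine opens are acyclic. -/
lemma acyc_of_affine (U : X.Opens) (hU : IsAffineOpen U) : Acyc U := by
  refine ⟨U, U, hU, hU, by rwa [inf_idem], sup_idem _, fun s => ?_⟩
  refine ⟨rs X (le_inf le_rfl le_rfl : U ≤ U ⊓ U) s, 0, ?_⟩
  have h1 : rs X (inf_le_left : U ⊓ U ≤ U) (rs X (le_inf le_rfl le_rfl : U ≤ U ⊓ U) s) = s := by
    change (X.presheaf.map (homOfLE (le_inf le_rfl le_rfl : U ≤ U ⊓ U)).op ≫
      X.presheaf.map (homOfLE (inf_le_left : U ⊓ U ≤ U)).op) s = s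
    rw [← X.presheaf.map_comp]
    exact ConcreteCategory.congr_hom (X.presheaf.map_id _) s
  rw [h1, map_zero, add_zero]

end

end Two

open _root_.Pool.Agent.MG.Two in
theorem two : Stmt_TWO := by
  intro n k _ _ g C hC hs hn
  have hprop : IsProper C.π := hC.proper
  have hid : spMap (RingHom.id k) = 𝟙 (Sp k) := by simp
  have hst : StableCurve g C := hC.fib k (RingHom.id k) C ⟨{
    f := 𝟙 C.X
    cart := by
      rw [hid]
      exact IsPullback.of_id_fst
    sec := fun i => by rw [hid, Category.comp_id, Category.id_comp] }⟩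
  have hcon : ConnectedSpace C.X := hst.connected
  have hint : IsIntegral C.X := isIntegral_of_smooth C.π
  have hpir := pir_stalk C.π
  obtain ⟨f, hf⟩ := exists_transc C.π
  let q : Sp k := (⊥ : PrimeSpectrum k)
  have : Nonempty (Fin n) := ⟨⟨0, hn⟩⟩
  let p : Fin n → C.X := fun i => C.σ i q
  have hp : Function.Injective p := by
    intro i j hij
    by_contra hne
    exact hst.distinct i j hne (section_ext C.π _ _ (C.sec i) (C.sec j) q hij)
  have hgen : ∀ i, p i ≠ genericPoint C.X := fun i =>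
    section_ne_genericPoint C.π hf (C.σ i) (C.sec i) q
  obtain ⟨V1, V2, x, y, c, hV1, hV2, hcov, hp1, hp2, hc, hx, hy, hz, hV2ne⟩ :=
    exists_two_charts C.π p hp hgen
  have hV1ne : Nonempty V1 := ⟨⟨p ⟨0, hn⟩, hp1 _⟩⟩
  have hV12 : IsAffineOpen (V1 ⊓ V2) := isAffineOpen_inf C.π hV1 hV2
  have hV12ne : Nonempty (V1 ⊓ V2 : C.X.Opens) := nonempty_inf hV1ne hV2ne
  obtain ⟨T, e1, e2, e12, hc1, hc2, hc12, hj1, hj2, hTx, hTy⟩ :=
    exists_TC C.π x y hV1 hV2 hV12 hx hy
  have hle : ∀ i, ⊤ ≤ C.σ i ⁻¹ᵁ V1 := fun i => top_le_of_mem (C.σ i) V1 q (hp1 i)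
  have hevx : ∀ i, evs (C.σ i) V1 (hle i) x = c i := by
    intro i
    have h1 : evs (C.σ i) V1 (hle i) (x - kmap C.π V1 (c i)) = 0 := by
      rw [evs_eq_zero_iff _ _ _ _ q]
      exact (hz i _).mpr ⟨1, (mul_one _).symm⟩
    rwa [map_sub, evs_kmap C.π _ (C.sec i), sub_eq_zero] at h1
  let pt : ∀ i, T.R1 →ₐ[k] k := fun i =>
    { (evs (C.σ i) V1 (hle i)).comp (e1 : T.R1 →+* Γ(C.X, V1)) with
      commutes' := fun a => by
        change evs (C.σ i) V1 (hle i) (e1 (algebraMap k T.R1 a)) = a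
        rw [hc1]
        exact evs_kmap C.π _ (C.sec i) V1 (hle i) a }
  have hpt : ∀ i a, pt i a = evs (C.σ i) V1 (hle i) (e1 a) := fun i a => rfl
  have hptx : ∀ i, pt i T.x = c i := by
    intro i
    rw [hpt, hTx, hevx]
  have hxe : ∀ i, e1 (T.x - algebraMap k T.R1 (pt i T.x)) = x - kmap C.π V1 (c i) := by
    intro i
    rw [map_sub, hTx, hc1, hptx]
    rfl
  let ct : Charted T C :=
    { U1 := V1
      U2 := V2
      cover := hcov
      ac1 := acyc_of_affine V1 hV1
      ac2 := acyc_of_affine V2 hV2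
      ac12 := acyc_of_affine _ hV12
      t1 := (e1 : T.R1 →+* Γ(C.X, V1)).comp (Algebra.TensorProduct.lid k T.R1 :
        k ⊗[k] T.R1 →+* T.R1)
      t2 := (e2 : T.R2 →+* Γ(C.X, V2)).comp (Algebra.TensorProduct.lid k T.R2 :
        k ⊗[k] T.R2 →+* T.R2)
      t12 := (e12 : T.R12 →+* Γ(C.X, V1 ⊓ V2)).comp (Algebra.TensorProduct.lid k T.R12 :
        k ⊗[k] T.R12 →+* T.R12)
      b1 := e1.bijective.comp (Algebra.TensorProduct.lid k T.R1).bijective
      b2 := e2.bijective.comp (Algebra.TensorProduct.lid k T.R2).bijective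
      b12 := e12.bijective.comp (Algebra.TensorProduct.lid k T.R12).bijective
      c1 := fun b => by
        change e1 (Algebra.TensorProduct.lid k T.R1 (b ⊗ₜ 1)) = _
        rw [Algebra.TensorProduct.lid_tmul, ← Algebra.algebraMap_eq_smul_one, hc1]
      c2 := fun b => by
        change e2 (Algebra.TensorProduct.lid k T.R2 (b ⊗ₜ 1)) = _
        rw [Algebra.TensorProduct.lid_tmul, ← Algebra.algebraMap_eq_smul_one, hc2]
      c12 := fun b => by
        change e12 (Algebra.TensorProduct.lid k T.R12 (b ⊗ₜ 1)) = _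
        rw [Algebra.TensorProduct.lid_tmul, ← Algebra.algebraMap_eq_smul_one, hc12]
      r1 := fun a => by
        change rs C.X inf_le_left (e1 (Algebra.TensorProduct.lid k T.R1 (1 ⊗ₜ a))) =
          e12 (Algebra.TensorProduct.lid k T.R12 (1 ⊗ₜ T.j1 a))
        rw [Algebra.TensorProduct.lid_tmul, Algebra.TensorProduct.lid_tmul, one_smul, one_smul,
          hj1]
      r2 := fun a => by
        change rs C.X inf_le_right (e2 (Algebra.TensorProduct.lid k T.R2 (1 ⊗ₜ a))) =
          e12 (Algebra.TensorProduct.lid k T.R12 (1 ⊗ₜ T.j2 a))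
        rw [Algebra.TensorProduct.lid_tmul, Algebra.TensorProduct.lid_tmul, one_smul, one_smul,
          hj2] }
  have hqall : ∀ q' : Sp k, q' = q := fun q' => Subsingleton.elim _ _
  refine ⟨T, ⟨{
    ct := ct
    aff := ⟨hV1, hV2, hV12⟩
    pt := pt
    is := fun i => ⟨hle i, fun a => ?_⟩
    off := fun i q' => ?_
    gen := fun i a ha => ?_
    ne := fun i j hij h => ?_
    dom := ?_
    inj1 := fun a b hab => ?_
    inj2 := fun a b hab => ?_
    h0 := fun a b hab => ?_
    unit := fun i => ?_ }⟩⟩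
  · change (C.σ i).appLE V1 ⊤ (hle i) (e1 (Algebra.TensorProduct.lid k T.R1 (1 ⊗ₜ a))) = gl k (pt i a)
    rw [Algebra.TensorProduct.lid_tmul, one_smul, hpt]
    exact (ConcreteCategory.congr_hom (Scheme.ΓSpecIso (CommRingCat.of k)).hom_inv_id
      ((C.σ i).appLE V1 ⊤ (hle i) (e1 a))).symm
  · rw [hqall q']
    exact hp2 i
  · rw [hpt, evs_eq_zero_iff _ _ _ _ q] at ha
    obtain ⟨s, hs'⟩ := (hz i _).mp ha
    refine ⟨e1.symm s, ?_⟩
    apply e1.injective
    rw [map_mul, hxe, e1.apply_symm_apply, hs']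
  · rw [hptx, hptx] at h
    exact hij (hc h)
  · exact e12.toMulEquiv.isDomain _
  · apply e1.injective
    apply map_injective_of_isIntegral C.X (homOfLE (inf_le_left : V1 ⊓ V2 ≤ V1))
    have h1 := hj1 a
    have h2 := hj1 b
    rw [hab, ← h2] at h1
    exact h1
  · apply e2.injective
    apply map_injective_of_isIntegral C.X (homOfLE (inf_le_right : V1 ⊓ V2 ≤ V2))
    have h1 := hj2 a
    have h2 := hj2 b
    rw [hab, ← h2] at h1
    exact h1
  · have h1 : rs C.X inf_le_left (e1 a) = rs C.X inf_le_right (e2 b) := by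
      rw [hj1, hj2, hab]
    obtain ⟨d, hd⟩ := const_of_agree C.π hcov (e1 a) (e2 b) h1
    refine ⟨d, ?_⟩
    apply e1.injective
    rw [hd, hc1]
    rfl
  · have h1 := isUnit_sub hpir hV1 (x - kmap C.π V1 (c i)) (p i) (hp1 i) (hgen i) (hz i)
      (V1 ⊓ V2) inf_le_left (fun h => hp2 i h.2)
    have h2 : e12 (T.j1 (T.x - algebraMap k T.R1 (pt i T.x))) =
        rs C.X inf_le_left (x - kmap C.π V1 (c i)) := by
      rw [← hj1, hxe]
    have h3 : IsUnit (e12 (T.j1 (T.x - algebraMap k T.R1 (pt i T.x)))) := by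
      rw [h2]; exact h1
    exact (MulEquiv.isUnit_map e12.toMulEquiv).mp h3

end Pool.Agent.MG


end

section

/-!
# Regular differentials on all charts, for every affine cover (MP_cc45c1_ag)
-/

namespace MG
open scoped IntermediateField
open Algebra

variable {k K : Type*} [Field k] [Field K] [Algebra k K]

section Integral

variable {t : K}

theorem exists_pow_mem_adjoin_inv (ht : t ≠ 0) {c : K} (hc : c ∈ Algebra.adjoin k {t}) :
    ∃ N : ℕ, ∀ M, N ≤ M → t⁻¹ ^ M * c ∈ Algebra.adjoin k {t⁻¹} := by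
  have hs : t⁻¹ ∈ Algebra.adjoin k {t⁻¹} := Algebra.self_mem_adjoin_singleton k t⁻¹
  refine Algebra.adjoin_induction (p := fun x _ => ∃ N : ℕ, ∀ M, N ≤ M →
    t⁻¹ ^ M * x ∈ Algebra.adjoin k {t⁻¹}) ?_ ?_ ?_ ?_ hc
  · rintro x rfl
    refine ⟨1, fun M hM => ?_⟩
    obtain ⟨m, rfl⟩ : ∃ m, M = m + 1 := ⟨M - 1, by omega⟩
    rw [pow_succ, mul_assoc, inv_mul_cancel₀ ht, mul_one]
    exact Subalgebra.pow_mem _ hs m
  · intro r
    exact ⟨0, fun M _ => Subalgebra.mul_mem _ (Subalgebra.pow_mem _ hs M)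
      (Subalgebra.algebraMap_mem _ r)⟩
  · rintro x y _ _ ⟨N, hN⟩ ⟨N', hN'⟩
    refine ⟨max N N', fun M hM => ?_⟩
    rw [mul_add]
    exact Subalgebra.add_mem _ (hN M ((le_max_left _ _).trans hM))
      (hN' M ((le_max_right _ _).trans hM))
  · rintro x y _ _ ⟨N, hN⟩ ⟨N', hN'⟩
    refine ⟨N + N', fun M hM => ?_⟩
    obtain ⟨m, rfl⟩ : ∃ m, M = N + (N' + m) := ⟨M - N - N', by omega⟩
    have e : t⁻¹ ^ (N + (N' + m)) * (x * y) = (t⁻¹ ^ N * x) * (t⁻¹ ^ (N' + m) * y) := by
      rw [pow_add]; ring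
    rw [e]
    exact Subalgebra.mul_mem _ (hN N le_rfl) (hN' (N' + m) (by omega))

open Polynomial in
/-- An element which is integral over `k[t]` becomes integral over `k[t⁻¹]` after multiplication
with a power of `t⁻¹`. -/
theorem exists_pow_integral_inv (ht : t ≠ 0) {a : K} (ha : IsIntegral (Algebra.adjoin k {t}) a) :
    ∃ N : ℕ, IsIntegral (Algebra.adjoin k {t⁻¹}) (t⁻¹ ^ N * a) := by
  obtain ⟨p, hp, hpa⟩ := ha
  set q : K[X] := p.map (algebraMap (Algebra.adjoin k {t}) K) with hq
  have hqm : q.Monic := hp.map _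
  have hc : ∀ i, ∃ N : ℕ, ∀ M, N ≤ M → t⁻¹ ^ M * q.coeff i ∈ Algebra.adjoin k {t⁻¹} := by
    intro i
    apply exists_pow_mem_adjoin_inv ht
    rw [hq, coeff_map]
    exact (p.coeff i).2
  choose N hN using hc
  set P := (Finset.range (q.natDegree + 1)).sup N with hP
  have hP' : ∀ i ≤ q.natDegree, N i ≤ P := fun i hi =>
    Finset.le_sup (f := N) (Finset.mem_range.mpr (by omega))
  set r : K[X] := scaleRoots q (t⁻¹ ^ P) with hr
  have hrm : r.Monic := (monic_scaleRoots_iff _).mpr hqm
  have hrl : r ∈ lifts (algebraMap (Algebra.adjoin k {t⁻¹}) K) := by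
    rw [lifts_iff_coeff_lifts]
    intro i
    have : r.coeff i ∈ Algebra.adjoin k {t⁻¹} := by
      rw [hr, coeff_scaleRoots]
      rcases lt_trichotomy i q.natDegree with hi | hi | hi
      · rw [mul_comm, ← pow_mul]
        apply hN
        calc N i ≤ P := hP' i hi.le
          _ ≤ P * (q.natDegree - i) := Nat.le_mul_of_pos_right _ (by omega)
      · rw [hi, hqm.coeff_natDegree, Nat.sub_self, pow_zero, mul_one]
        exact Subalgebra.one_mem _
      · rw [coeff_eq_zero_of_natDegree_lt hi, zero_mul]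
        exact Subalgebra.zero_mem _
    exact ⟨⟨_, this⟩, rfl⟩
  obtain ⟨w, hw1, _, hw3⟩ := lifts_and_natDegree_eq_and_monic hrl hrm
  refine ⟨P, w, hw3, ?_⟩
  rw [← eval_map, hw1, hr, scaleRoots_eval_mul, hq, eval_map, hpa, mul_zero]

end Integral

end MG


end

section

namespace MG
open scoped IntermediateField
open Algebra

variable {k K : Type*} [Field k] [Field K] [Algebra k K]

/-- Affine charts of a curve with function field `K`: finitely generated, integrally closed in
`K`, with field of fractions `K`. -/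
structure Chart (R : Subalgebra k K) : Prop where
  fg : R.FG
  icl : ∀ a : K, IsIntegral R a → a ∈ R
  frac : ∀ a : K, ∃ b ∈ R, b ≠ 0 ∧ b * a ∈ R

/-- Noether normalisation. -/
theorem Chart.exists_t {R : Subalgebra k K} (h : Chart R) (hd : Algebra.trdeg k K = 1) :
    ∃ t ∈ R, Transcendental k t ∧ (∀ a ∈ R, IsIntegral (Algebra.adjoin k {t}) a) ∧
      FiniteDimensional k⟮t⟯ K := by
  have : Algebra.FiniteType k R := (Subalgebra.fg_iff_finiteType R).mp h.fg
  obtain ⟨s, g, hinj, hint⟩ := exists_integral_inj_algHom_of_fg k R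
  let y : Fin s → K := fun i => (g (MvPolynomial.X i) : K)
  have hy : MvPolynomial.aeval y = R.val.comp g := by
    apply MvPolynomial.algHom_ext
    intro i
    simp [y]
  have hind : AlgebraicIndependent k y := by
    rw [algebraicIndependent_iff_injective_aeval, hy]
    exact (Subtype.val_injective).comp hinj
  have hrange : ∀ p, ((g p : R) : K) ∈ Algebra.adjoin k (Set.range y) := by
    intro p
    have : (g p : K) = MvPolynomial.aeval y p := by rw [hy]; rfl
    rw [this, Algebra.adjoin_range_eq_range_aeval]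
    exact ⟨p, rfl⟩
  have hI : ∀ a ∈ R, IsIntegral (Algebra.adjoin k (Set.range y)) a := by
    intro a ha
    obtain ⟨p, hp, hpa⟩ := hint ⟨a, ha⟩
    let ψ : MvPolynomial (Fin s) k →+* Algebra.adjoin k (Set.range y) :=
      RingHom.codRestrict ((R.val.comp g : MvPolynomial (Fin s) k →ₐ[k] K) :
        MvPolynomial (Fin s) k →+* K) (Algebra.adjoin k (Set.range y)) hrange
    refine ⟨p.map ψ, hp.map ψ, ?_⟩
    rw [Polynomial.eval₂_map]
    have h2 : (algebraMap (Algebra.adjoin k (Set.range y)) K).comp ψ =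
        (R.val : R →+* K).comp (g : MvPolynomial (Fin s) k →+* R) := by
      ext <;> rfl
    have h3 := congrArg (R.val : R →+* K) hpa
    rw [Polynomial.hom_eval₂, map_zero] at h3
    rw [h2]
    exact h3
  have halg : Algebra.IsAlgebraic (Algebra.adjoin k (Set.range y)) K := by
    constructor
    intro a
    obtain ⟨b, hb, hb0, hba⟩ := h.frac a
    have h1 : IsAlgebraic (Algebra.adjoin k (Set.range y)) b := (hI b hb).isAlgebraic
    have h2 : IsAlgebraic (Algebra.adjoin k (Set.range y)) (b * a) := (hI _ hba).isAlgebraic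
    have h3 : a = b⁻¹ * (b * a) := by rw [← mul_assoc, inv_mul_cancel₀ hb0, one_mul]
    rw [h3]
    exact h1.inv.mul h2
  have hs : Cardinal.mk (Fin s) = 1 := by
    have h1 := (hind.isTranscendenceBasis_iff_isAlgebraic.mpr halg).lift_cardinalMk_eq_trdeg
    rw [hd] at h1
    simpa using h1
  have hs1 : s = 1 := by simpa using hs
  subst hs1
  have hr : Set.range y = {y 0} := by
    rw [Set.range_unique]
    rfl
  rw [hr] at hI halg
  refine ⟨y 0, (g (MvPolynomial.X 0)).2, ?_, hI, ?_⟩
  · exact hind.transcendental 0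
  · obtain ⟨S, hS⟩ := h.fg
    have hle : ∀ a ∈ R, a ∈ IntermediateField.adjoin k⟮y 0⟯ (S : Set K) := by
      intro a ha
      rw [← hS] at ha
      refine Algebra.adjoin_induction (p := fun x _ =>
        x ∈ IntermediateField.adjoin k⟮y 0⟯ (S : Set K)) ?_ ?_ ?_ ?_ ha
      · intro x hx
        exact IntermediateField.subset_adjoin _ _ hx
      · intro c
        rw [IsScalarTower.algebraMap_apply k k⟮y 0⟯ K]
        exact IntermediateField.algebraMap_mem _ _
      · intro x z _ _ hx hz
        exact add_mem hx hz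
      · intro x z _ _ hx hz
        exact mul_mem hx hz
    have htop : IntermediateField.adjoin k⟮y 0⟯ (S : Set K) = ⊤ := by
      rw [_root_.eq_top_iff]
      intro a _
      obtain ⟨b, hb, hb0, hba⟩ := h.frac a
      have h3 : a = b⁻¹ * (b * a) := by rw [← mul_assoc, inv_mul_cancel₀ hb0, one_mul]
      rw [h3]
      exact mul_mem (inv_mem (hle b hb)) (hle _ hba)
    have hfin : FiniteDimensional k⟮y 0⟯ (IntermediateField.adjoin k⟮y 0⟯ (S : Set K)) := by
      apply IntermediateField.finiteDimensional_adjoin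
      intro x hx
      have hxR : x ∈ R := by
        rw [← hS]
        exact Algebra.subset_adjoin hx
      obtain ⟨p, hp, hpx⟩ := hI x hxR
      refine ⟨p.map (Subalgebra.inclusion
        (IntermediateField.algebra_adjoin_le_adjoin k {y 0})).toRingHom, hp.map _, ?_⟩
      rw [Polynomial.eval₂_map]
      exact hpx
    rw [htop] at hfin
    exact Module.Finite.equiv (IntermediateField.topEquiv (F := k⟮y 0⟯) (E := K)).toLinearEquiv

section Valuations

/-- Integral elements lie in every valuation ring containing the base. -/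
theorem mem_of_integral {R : Subalgebra k K} (O : ValuationSubring K) (hR : ∀ r ∈ R, r ∈ O)
    {a : K} (ha : IsIntegral R a) : a ∈ O := by
  obtain ⟨p, hp, hpa⟩ := ha
  have h1 : IsIntegral O a := by
    let ψ : R →+* O := RingHom.codRestrict (R.val : R →+* K) O (fun r => hR r r.2)
    refine ⟨p.map ψ, hp.map ψ, ?_⟩
    rw [Polynomial.eval₂_map]
    exact hpa
  obtain ⟨y, hy⟩ := (IsIntegrallyClosed.isIntegral_iff (R := O) (K := K)).mp h1
  rw [← hy]
  exact y.2

theorem Chart.mem_of_valuations {R : Subalgebra k K} (h : Chart R) {a : K}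
    (ha : ∀ O : ValuationSubring K, (∀ r ∈ R, r ∈ O) → a ∈ O) : a ∈ R := by
  by_contra hn
  have : IsIntegrallyClosedIn R.toSubring K := by
    rw [Subring.isIntegrallyClosedIn_iff]
    intro x hx
    exact h.icl x hx
  obtain ⟨V, hV, hVa⟩ := Subring.exists_le_valuationSubring_of_isIntegrallyClosedIn
    (R := R.toSubring) (x := a) hn
  exact hVa (ha V (fun r hr => hV hr))

theorem mem_range_of_valuations [IsAlgClosed k] {a : K}
    (ha : ∀ O : ValuationSubring K, (∀ c : k, algebraMap k K c ∈ O) → a ∈ O) :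
    a ∈ Set.range (algebraMap k K) := by
  by_contra hn
  have : IsIntegrallyClosedIn (⊥ : Subalgebra k K).toSubring K := by
    rw [Subring.isIntegrallyClosedIn_iff]
    intro x hx
    have h1 : IsIntegral k x := by
      have : IsIntegral (⊥ : Subalgebra k K) x := hx
      have hk : Algebra.IsIntegral k (⊥ : Subalgebra k K) :=
        ⟨fun y => by
          obtain ⟨c, hc⟩ := Algebra.mem_bot.mp y.2
          have : y = algebraMap k (⊥ : Subalgebra k K) c := Subtype.ext hc.symm
          rw [this]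
          exact isIntegral_algebraMap⟩
      exact isIntegral_trans x this
    exact Algebra.mem_bot.mpr (minpoly.mem_range_of_degree_eq_one k x
        (IsAlgClosed.degree_eq_one_of_irreducible k (minpoly.irreducible h1)))
  obtain ⟨V, hV, hVa⟩ := Subring.exists_le_valuationSubring_of_isIntegrallyClosedIn
    (R := (⊥ : Subalgebra k K).toSubring) (x := a) (fun h => hn (Algebra.mem_bot.mp h))
  exact hVa (ha V (fun c => hV (Algebra.mem_bot.mpr ⟨c, rfl⟩)))

end Valuations

/-- The integral closure of `k[t]` in `K`. -/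
noncomputable def IC (k : Type*) {K : Type*} [Field k] [Field K] [Algebra k K] (t : K) :
    Subalgebra k K :=
  (integralClosure (Algebra.adjoin k {t}) K).restrictScalars k

theorem mem_IC {t a : K} : a ∈ IC k t ↔ IsIntegral (Algebra.adjoin k {t}) a := Iff.rfl

theorem adjoin_le_IC {t : K} : Algebra.adjoin k {t} ≤ IC k t := fun x hx =>
  isIntegral_algebraMap (R := Algebra.adjoin k {t}) (A := K) (x := ⟨x, hx⟩)

theorem self_mem_IC {t : K} : t ∈ IC k t := adjoin_le_IC (Algebra.self_mem_adjoin_singleton k t)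

theorem IC_mem_valuation {t a : K} (ha : a ∈ IC k t) (O : ValuationSubring K)
    (hk : ∀ c : k, algebraMap k K c ∈ O) (ht : t ∈ O) : a ∈ O := by
  apply mem_of_integral O _ (mem_IC.mp ha)
  intro r hr
  refine Algebra.adjoin_induction (p := fun x _ => x ∈ O) ?_ ?_ ?_ ?_ hr
  · rintro x rfl
    exact ht
  · exact hk
  · intro x y _ _ hx hy
    exact O.add_mem _ _ hx hy
  · intro x y _ _ hx hy
    exact O.mul_mem _ _ hx hy

/-- The functions with a denominator `t ^ N`. -/
noncomputable def Loc (R : Subalgebra k K) (t : K) (ht : t ∈ R) : Subalgebra k K where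
  carrier := {a | ∃ N : ℕ, t ^ N * a ∈ R}
  mul_mem' := by
    rintro a b ⟨N, hN⟩ ⟨M, hM⟩
    refine ⟨N + M, ?_⟩
    have e : t ^ (N + M) * (a * b) = (t ^ N * a) * (t ^ M * b) := by rw [pow_add]; ring
    rw [e]
    exact R.mul_mem hN hM
  add_mem' := by
    rintro a b ⟨N, hN⟩ ⟨M, hM⟩
    refine ⟨N + M, ?_⟩
    have e : t ^ (N + M) * (a + b) = t ^ M * (t ^ N * a) + t ^ N * (t ^ M * b) := by
      rw [pow_add]; ring
    rw [e]
    exact R.add_mem (R.mul_mem (R.pow_mem ht M) hN) (R.mul_mem (R.pow_mem ht N) hM)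
  algebraMap_mem' := fun r => ⟨0, by rw [pow_zero, one_mul]; exact R.algebraMap_mem r⟩

theorem mem_Loc {R : Subalgebra k K} {t : K} {ht : t ∈ R} {a : K} :
    a ∈ Loc R t ht ↔ ∃ N : ℕ, t ^ N * a ∈ R := Iff.rfl

theorem twoCharts_IC [IsAlgClosed k] {t : K} (ht : t ≠ 0) :
    TwoCharts t (IC k t) (IC k t⁻¹) (Loc (IC k t) t self_mem_IC) where
  int1 a := Iff.rfl
  int2 a := Iff.rfl
  le1 a ha := ⟨0, by rwa [pow_zero, one_mul]⟩
  le2 a ha := by
    obtain ⟨N, hN⟩ := exists_pow_integral_inv (inv_ne_zero ht) (mem_IC.mp ha)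
    rw [inv_inv] at hN
    exact ⟨N, hN⟩
  den1 a ha := ha
  den2 a ha := by
    obtain ⟨N, hN⟩ := ha
    obtain ⟨M, hM⟩ := exists_pow_integral_inv ht (mem_IC.mp hN)
    refine ⟨M, ?_⟩
    have e : t⁻¹ ^ M * a = t⁻¹ ^ N * (t⁻¹ ^ M * (t ^ N * a)) := by
      have : t⁻¹ ^ N * t ^ N = 1 := by rw [← mul_pow, inv_mul_cancel₀ ht, one_pow]
      calc t⁻¹ ^ M * a = (t⁻¹ ^ N * t ^ N) * (t⁻¹ ^ M * a) := by rw [this, one_mul]
        _ = _ := by ring
    rw [e]
    exact (IC k t⁻¹).mul_mem ((IC k t⁻¹).pow_mem self_mem_IC N) hM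
  inter a h1 h2 := by
    apply mem_range_of_valuations
    intro O hO
    rcases O.mem_or_inv_mem t with h | h
    · exact IC_mem_valuation h1 O hO h
    · exact IC_mem_valuation h2 O hO h

end MG


end

section

namespace MG
open scoped IntermediateField nonZeroDivisors
open Algebra

variable {k K : Type*} [Field k] [Field K] [Algebra k K]

open scoped IntermediateField.algebraAdjoinAdjoin in
theorem chart_IC [CharZero k] {t : K} [FiniteDimensional k⟮t⟯ K] : Chart (IC k t) := by
  have : IsPrincipalIdealRing (Algebra.adjoin k {t}) := adjoin_pid k t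
  have : IsIntegrallyClosed (Algebra.adjoin k {t}) := inferInstance
  have : CharZero k⟮t⟯ := charZero_of_injective_algebraMap (algebraMap k k⟮t⟯).injective
  have : Algebra.IsSeparable k⟮t⟯ K := inferInstance
  have hf : Module.Finite (Algebra.adjoin k {t}) (integralClosure (Algebra.adjoin k {t}) K) :=
    IsIntegralClosure.finite (Algebra.adjoin k {t}) k⟮t⟯ K _
  have hfr : IsFractionRing (integralClosure (Algebra.adjoin k {t}) K) K :=
    integralClosure.isFractionRing_of_finite_extension k⟮t⟯ K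
  refine ⟨?_, ?_, ?_⟩
  · rw [Subalgebra.fg_iff_finiteType]
    have h1 : Algebra.FiniteType k (Algebra.adjoin k {t}) :=
      (Subalgebra.fg_iff_finiteType _).mp ⟨{t}, by simp⟩
    have h2 : Algebra.FiniteType (Algebra.adjoin k {t})
      (integralClosure (Algebra.adjoin k {t}) K) := inferInstance
    have h3 : Algebra.FiniteType k (integralClosure (Algebra.adjoin k {t}) K) :=
      Algebra.FiniteType.trans h1 h2
    exact h3
  · intro a ha
    rw [mem_IC]
    have h1 : IsIntegral (integralClosure (Algebra.adjoin k {t}) K) a := ha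
    exact isIntegral_trans a h1
  · intro a
    obtain ⟨⟨b, s⟩, hb⟩ := IsLocalization.surj
      (integralClosure (Algebra.adjoin k {t}) K)⁰ a
    refine ⟨s.1.1, s.1.2, ?_, ?_⟩
    · intro h
      exact nonZeroDivisors.coe_ne_zero s (Subtype.ext h)
    · have : (s.1.1 : K) * a = b.1 := by rw [mul_comm]; exact hb
      rw [this]
      exact b.2

theorem Chart.eq_IC {R : Subalgebra k K} (h : Chart R) {t : K} (ht : t ∈ R)
    (hi : ∀ a ∈ R, IsIntegral (Algebra.adjoin k {t}) a) : R = IC k t := by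
  have hle : Algebra.adjoin k {t} ≤ R := Algebra.adjoin_le (by simpa using ht)
  apply le_antisymm
  · intro a ha
    exact hi a ha
  · intro a ha
    apply h.icl
    obtain ⟨p, hp, hpa⟩ := mem_IC.mp ha
    exact ⟨p.map (Subalgebra.inclusion hle).toRingHom, hp.map _, by
      rw [Polynomial.eval₂_map]; exact hpa⟩

open scoped IntermediateField.algebraAdjoinAdjoin in
/-- Valuation rings are localisations of charts. -/
theorem exists_unit_mul_mem_IC [CharZero k] {t : K} [FiniteDimensional k⟮t⟯ K]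
    (O : ValuationSubring K) (hO : ∀ r ∈ IC k t, r ∈ O) {a : K} (ha : a ∈ O) :
    ∃ g ∈ IC k t, g ≠ 0 ∧ g⁻¹ ∈ O ∧ g * a ∈ IC k t := by
  have : IsPrincipalIdealRing (Algebra.adjoin k {t}) := adjoin_pid k t
  have : IsIntegrallyClosed (Algebra.adjoin k {t}) := inferInstance
  have : IsDedekindDomain (Algebra.adjoin k {t}) := inferInstance
  have : CharZero k⟮t⟯ := charZero_of_injective_algebraMap (algebraMap k k⟮t⟯).injective
  have : Algebra.IsSeparable k⟮t⟯ K := inferInstance
  have : IsDedekindDomain (integralClosure (Algebra.adjoin k {t}) K) :=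
    integralClosure.isDedekindDomain (Algebra.adjoin k {t}) k⟮t⟯ K
  have : IsFractionRing (integralClosure (Algebra.adjoin k {t}) K) K :=
    integralClosure.isFractionRing_of_finite_extension k⟮t⟯ K
  by_contra hcon
  push Not at hcon
  set B := integralClosure (Algebra.adjoin k {t}) K with hB
  let J : FractionalIdeal B⁰ K := 1 + FractionalIdeal.spanSingleton B⁰ a
  have hJ0 : J ≠ 0 := by
    intro h
    have h1 : (1 : K) ∈ J := by
      rw [FractionalIdeal.mem_add]
      exact ⟨1, FractionalIdeal.one_mem_one _, 0, FractionalIdeal.zero_mem _, add_zero 1⟩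
    rw [h, FractionalIdeal.mem_zero_iff] at h1
    exact one_ne_zero h1
  have h1 : (1 : K) ∈ J * J⁻¹ := by
    rw [mul_inv_cancel₀ hJ0]
    exact FractionalIdeal.one_mem_one _
  have hJO : ∀ m ∈ J, m ∈ O := by
    intro m hm
    obtain ⟨i, hi, j, hj, rfl⟩ := (FractionalIdeal.mem_add _ _ _).mp hm
    obtain ⟨b, rfl⟩ := (FractionalIdeal.mem_one_iff _).mp hi
    obtain ⟨c, rfl⟩ := (FractionalIdeal.mem_spanSingleton _).mp hj
    refine O.add_mem _ _ (hO _ b.2) ?_
    rw [Algebra.smul_def]
    exact O.mul_mem _ _ (hO _ c.2) ha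
  have hJi : ∀ g ∈ J⁻¹, O.valuation g < 1 := by
    intro g hg
    rw [FractionalIdeal.mem_inv_iff hJ0] at hg
    have g1 : g ∈ IC k t := by
      have := hg 1 (by
        rw [FractionalIdeal.mem_add]
        exact ⟨1, FractionalIdeal.one_mem_one _, 0, FractionalIdeal.zero_mem _, add_zero 1⟩)
      rw [mul_one] at this
      obtain ⟨b, hb⟩ := (FractionalIdeal.mem_one_iff _).mp this
      rw [← hb]
      exact b.2
    have g2 : g * a ∈ IC k t := by
      have := hg a (by
        rw [FractionalIdeal.mem_add]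
        exact ⟨0, FractionalIdeal.zero_mem _, a, FractionalIdeal.mem_spanSingleton_self _ _,
          zero_add a⟩)
      obtain ⟨b, hb⟩ := (FractionalIdeal.mem_one_iff _).mp this
      rw [← hb]
      exact b.2
    rw [← ValuationSubring.mem_nonunits_iff, ValuationSubring.mem_nonunits_iff_or]
    by_cases hg0 : g = 0
    · exact Or.inl hg0
    · right
      intro h2
      exact hcon g g1 hg0 h2 g2
  have key : O.valuation (1 : K) < 1 := by
    refine FractionalIdeal.mul_induction_on (C := fun x => O.valuation x < 1) h1 ?_ ?_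
    · intro i hi j hj
      rw [map_mul]
      exact lt_of_le_of_lt (mul_le_of_le_one_left' ((O.valuation_le_one_iff i).mpr (hJO i hi)))
        (hJi j hj)
    · intro x y hx hy
      exact Valuation.map_add_lt _ hx hy
  rw [map_one] at key
  exact lt_irrefl _ key

/-- Valuation rings are localisations of charts. -/
theorem Chart.exists_unit [CharZero k] {R : Subalgebra k K} (h : Chart R)
    (hd : Algebra.trdeg k K = 1) (O : ValuationSubring K) (hO : ∀ r ∈ R, r ∈ O) {a : K}
    (ha : a ∈ O) : ∃ g ∈ R, g ≠ 0 ∧ g⁻¹ ∈ O ∧ g * a ∈ R := by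
  obtain ⟨t, htR, _, hi, hf⟩ := h.exists_t hd
  have hR := h.eq_IC htR hi
  subst hR
  exact exists_unit_mul_mem_IC O hO ha

/-- A derivation of a chart is a derivation of the valuation rings above. -/
theorem Chart.derivation_valuation [CharZero k] {R : Subalgebra k K} (h : Chart R)
    (hd : Algebra.trdeg k K = 1) (O : ValuationSubring K) (hO : ∀ r ∈ R, r ∈ O)
    (D : Derivation k K K) (hD : ∀ a ∈ R, D a ∈ R) {a : K} (ha : a ∈ O) : D a ∈ O := by
  obtain ⟨g, hg, hg0, hgi, hga⟩ := h.exists_unit hd O hO ha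
  have h1 : D (g * a) = g * D a + a * D g := by rw [D.leibniz, smul_eq_mul, smul_eq_mul]
  have h2 : D a = g⁻¹ * (D (g * a) - a * D g) := by
    rw [h1, add_sub_cancel_right, ← mul_assoc, inv_mul_cancel₀ hg0, one_mul]
  rw [h2]
  exact O.mul_mem _ _ hgi (sub_mem (hO _ (hD _ hga)) (O.mul_mem _ _ ha (hO _ (hD _ hg))))

/-- A derivation of the valuation ring becomes a derivation of the chart after multiplication with
a unit. -/
theorem Chart.exists_unit_derivation [CharZero k] {R : Subalgebra k K} (h : Chart R)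
    (hd : Algebra.trdeg k K = 1) (O : ValuationSubring K) (hO : ∀ r ∈ R, r ∈ O)
    (D : Derivation k K K) (hD : ∀ a ∈ O, D a ∈ O) :
    ∃ g ∈ R, g ≠ 0 ∧ g⁻¹ ∈ O ∧ ∀ a ∈ R, g * D a ∈ R := by
  classical
  obtain ⟨S, hS⟩ := h.fg
  have h1 : ∀ T : Finset K, (∀ s ∈ T, s ∈ R) → ∃ g ∈ R, g ≠ 0 ∧ g⁻¹ ∈ O ∧ ∀ s ∈ T, g * D s ∈ R := by
    intro T
    induction T using Finset.induction_on with
    | empty =>
      intro _
      exact ⟨1, R.one_mem, one_ne_zero, by rw [inv_one]; exact O.one_mem, by simp⟩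
    | insert x T hx ih =>
      intro hT
      obtain ⟨g, hg, hg0, hgi, hgT⟩ := ih (fun s hs => hT s (Finset.mem_insert_of_mem hs))
      obtain ⟨g', hg', hg0', hgi', hgx⟩ := h.exists_unit hd O hO
        (hD x (hO x (hT x (Finset.mem_insert_self x T))))
      refine ⟨g * g', R.mul_mem hg hg', mul_ne_zero hg0 hg0', ?_, ?_⟩
      · rw [mul_inv]
        exact O.mul_mem _ _ hgi hgi'
      · intro s hs
        rcases Finset.mem_insert.mp hs with rfl | hs
        · rw [mul_assoc]
          exact R.mul_mem hg hgx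
        · rw [mul_comm g, mul_assoc]
          exact R.mul_mem hg' (hgT s hs)
  obtain ⟨g, hg, hg0, hgi, hgS⟩ := h1 S (fun s hs => by
    rw [← hS]; exact Algebra.subset_adjoin hs)
  refine ⟨g, hg, hg0, hgi, ?_⟩
  intro a ha
  rw [← hS] at ha
  have key : a ∈ R ∧ g * D a ∈ R := by
    refine Algebra.adjoin_induction (p := fun x _ => x ∈ R ∧ g * D x ∈ R) ?_ ?_ ?_ ?_ ha
    · intro x hx
      exact ⟨by rw [← hS]; exact Algebra.subset_adjoin hx, hgS x hx⟩
    · intro c
      refine ⟨R.algebraMap_mem c, ?_⟩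
      rw [D.map_algebraMap, mul_zero]
      exact R.zero_mem
    · rintro x y _ _ ⟨hx, hx'⟩ ⟨hy, hy'⟩
      refine ⟨R.add_mem hx hy, ?_⟩
      rw [map_add, mul_add]
      exact R.add_mem hx' hy'
    · rintro x y _ _ ⟨hx, hx'⟩ ⟨hy, hy'⟩
      refine ⟨R.mul_mem hx hy, ?_⟩
      have e : g * D (x * y) = x * (g * D y) + y * (g * D x) := by
        rw [D.leibniz, smul_eq_mul, smul_eq_mul]; ring
      rw [e]
      exact R.add_mem (R.mul_mem hx hy') (R.mul_mem hy hx')
  exact key.2

/-- `u dt` is regular on the chart `R`. -/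
def Reg1 (t u : K) (R : Subalgebra k K) : Prop :=
  ∀ D : Derivation k K K, (∀ a ∈ R, D a ∈ R) → u * D t ∈ R

/-- A differential which is regular on two charts covering the valuation rings is regular on
every chart. -/
theorem reg1_all [CharZero k] (hd : Algebra.trdeg k K = 1) {R1 R2 : Subalgebra k K}
    (h1 : Chart R1) (h2 : Chart R2)
    (hp : ∀ O : ValuationSubring K, (∀ c : k, algebraMap k K c ∈ O) →
      (∀ r ∈ R1, r ∈ O) ∨ (∀ r ∈ R2, r ∈ O))
    {t u : K} (hr1 : Reg1 t u R1) (hr2 : Reg1 t u R2) {R : Subalgebra k K} (h : Chart R) :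
    Reg1 t u R := by
  intro D hD
  apply h.mem_of_valuations
  intro O hO
  have hk : ∀ c : k, algebraMap k K c ∈ O := fun c => hO _ (R.algebraMap_mem c)
  have hDO : ∀ a ∈ O, D a ∈ O := fun a ha => h.derivation_valuation hd O hO D hD ha
  have main : ∀ S : Subalgebra k K, Chart S → Reg1 t u S → (∀ r ∈ S, r ∈ O) → u * D t ∈ O := by
    intro S hS hrS hSO
    obtain ⟨g, hg, hg0, hgi, hgS⟩ := hS.exists_unit_derivation hd O hSO D hDO
    have h3 := hrS (g • D) (fun a ha => by
      rw [Derivation.smul_apply, smul_eq_mul]; exact hgS a ha)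
    rw [Derivation.smul_apply, smul_eq_mul] at h3
    have h4 : u * D t = g⁻¹ * (u * (g * D t)) := by
      field_simp
    rw [h4]
    exact O.mul_mem _ _ hgi (hSO _ h3)
  rcases hp O hk with h5 | h5
  · exact main R1 h1 hr1 h5
  · exact main R2 h2 hr2 h5

end MG


end

section

/-!
# `H⁰(C, T^j) = 0` for `j ≥ 1` in terms of arbitrary charts (MP_cc45c1_ag)
-/

namespace MG
open scoped IntermediateField nonZeroDivisors
open Algebra

variable {k K : Type*} [Field k] [Field K] [Algebra k K]

open scoped IntermediateField.algebraAdjoinAdjoin in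
/-- Every element of `K` gets a multiple integral over `k[s]` by `s ^ m * c`, `c ≡ 1` modulo `s`. -/
theorem exists_one_sub_mul {s : K} [FiniteDimensional k⟮s⟯ K] (a : K) :
    ∃ b ∈ Algebra.adjoin k {s}, ∃ m : ℕ, (1 - s * b) * s ^ m * a ∈ IC k s := by
  have halg : IsAlgebraic (Algebra.adjoin k {s}) a := by
    have h1 : IsAlgebraic k⟮s⟯ a := Algebra.IsAlgebraic.isAlgebraic a
    exact (IsFractionRing.isAlgebraic_iff (Algebra.adjoin k {s}) k⟮s⟯ K).mpr h1
  obtain ⟨d, hd0, hd⟩ := halg.exists_integral_multiple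
  obtain ⟨P, hP⟩ := evt_surjective k s d
  have hP' : Polynomial.aeval s P = (d : K) := by
    rw [← hP]
    exact Polynomial.aeval_algebraMap_apply K (tt k s) P
  have hP0 : P ≠ 0 := by
    rintro rfl
    rw [map_zero] at hP
    exact hd0 hP.symm
  obtain ⟨Q, hQ, hQ0⟩ := Polynomial.exists_eq_pow_rootMultiplicity_mul_and_not_dvd P hP0 0
  set m := Polynomial.rootMultiplicity 0 P
  rw [Polynomial.C_0, sub_zero] at hQ hQ0
  have hq : Q.coeff 0 ≠ 0 := by
    intro h
    exact hQ0 (Polynomial.X_dvd_iff.mpr h)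
  have hQe : Polynomial.aeval s Q = algebraMap k K (Q.coeff 0) +
      s * Polynomial.aeval s Q.divX := by
    conv_lhs => rw [← Polynomial.divX_mul_X_add Q]
    rw [map_add, map_mul, Polynomial.aeval_X, Polynomial.aeval_C]
    ring
  refine ⟨algebraMap k K (-(Q.coeff 0)⁻¹) * Polynomial.aeval s Q.divX, ?_, m, ?_⟩
  · apply Subalgebra.mul_mem _ (Subalgebra.algebraMap_mem _ _)
    rw [Algebra.adjoin_singleton_eq_range_aeval]
    exact ⟨_, rfl⟩
  · have e : (1 - s * (algebraMap k K (-(Q.coeff 0)⁻¹) * Polynomial.aeval s Q.divX)) * s ^ m * a =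
        algebraMap k K ((Q.coeff 0)⁻¹) * ((d : K) * a) := by
      have h1 : (d : K) = s ^ m * Polynomial.aeval s Q := by
        rw [← hP', hQ, map_mul, map_pow, Polynomial.aeval_X]
      have h2 : algebraMap k K ((Q.coeff 0)⁻¹) * algebraMap k K (Q.coeff 0) = 1 := by
        rw [← map_mul, inv_mul_cancel₀ hq, map_one]
      rw [h1, hQe, map_neg]
      linear_combination (- s ^ m * a) * h2
    rw [e]
    apply (IC k s).mul_mem ((IC k s).algebraMap_mem _)
    rw [mem_IC]
    have : d • a = (d : K) * a := rfl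
    rw [← this]
    exact hd

theorem loc_mono {R : Subalgebra k K} {s : K} (hs : s ∈ R) {a : K} (ha : a ∈ R) :
    a ∈ Loc R s hs := ⟨0, by rwa [pow_zero, one_mul]⟩

/-- `H¹` of the affine curve `Spec R''` vanishes: `R''[1/s] = R1[1/t] + R''`. -/
theorem exists_decomp {t : K} (ht : t ≠ 0) [FiniteDimensional k⟮t⁻¹⟯ K] [IsAlgClosed k]
    {R : Subalgebra k K} (hR : IC k t⁻¹ ≤ R) {a : K} {N : ℕ} (ha : t⁻¹ ^ N * a ∈ R) :
    ∃ a' ∈ Loc (IC k t) t self_mem_IC, ∃ r ∈ R, a = a' + r := by
  obtain ⟨b, hb, m, hm⟩ := exists_one_sub_mul (k := k) (s := t⁻¹) a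
  have hc := twoCharts_IC (k := k) ht
  have hbS : t⁻¹ * b ∈ IC k t⁻¹ := (IC k t⁻¹).mul_mem self_mem_IC (adjoin_le_IC hb)
  refine ⟨(1 - (t⁻¹ * b) ^ N) * a, ?_, (t⁻¹ * b) ^ N * a, ?_, by ring⟩
  · have h1 : (1 - (t⁻¹ * b) ^ N) * a = (∑ i ∈ Finset.range N, (t⁻¹ * b) ^ i) *
        (t ^ m * ((1 - t⁻¹ * b) * t⁻¹ ^ m * a)) := by
      have h2 : t ^ m * t⁻¹ ^ m = 1 := by rw [← mul_pow, mul_inv_cancel₀ ht, one_pow]
      have h3 := geom_sum_mul_neg (t⁻¹ * b) N
      rw [← h3]
      calc (∑ i ∈ Finset.range N, (t⁻¹ * b) ^ i) * (1 - t⁻¹ * b) * a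
          = (∑ i ∈ Finset.range N, (t⁻¹ * b) ^ i) * ((t ^ m * t⁻¹ ^ m) * ((1 - t⁻¹ * b) * a)) := by
            rw [h2]; ring
        _ = _ := by ring
    rw [h1]
    apply Subalgebra.mul_mem
    · apply Subalgebra.sum_mem
      intro i _
      exact Subalgebra.pow_mem _ (hc.le2 hbS) i
    · exact Subalgebra.mul_mem _ (Subalgebra.pow_mem _ (loc_mono _ self_mem_IC) m) (hc.le2 hm)
  · have h1 : (t⁻¹ * b) ^ N * a = b ^ N * (t⁻¹ ^ N * a) := by rw [mul_pow]; ring
    rw [h1]
    exact R.mul_mem (R.pow_mem (hR (adjoin_le_IC hb)) N) ha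

/-- Two independent classes in `H¹(O)` for one cover give two for the cover `t`, `t⁻¹`. -/
theorem transfer_classes {t : K} (ht : t ≠ 0) [FiniteDimensional k⟮t⁻¹⟯ K] [IsAlgClosed k]
    {V : Subalgebra k K} (hV : Chart V)
    {x y : K} (hx : x ∈ IC k t ⊔ V) (hy : y ∈ IC k t ⊔ V)
    (hxy : ∀ α β : k, α • x + β • y ∈
      Subalgebra.toSubmodule (IC k t) ⊔ Subalgebra.toSubmodule V → α = 0 ∧ β = 0) :
    ∃ x' ∈ Loc (IC k t) t self_mem_IC, ∃ y' ∈ Loc (IC k t) t self_mem_IC,
      ∀ α β : k, α • x' + β • y' ∈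
        Subalgebra.toSubmodule (IC k t) ⊔ Subalgebra.toSubmodule (IC k t⁻¹) → α = 0 ∧ β = 0 := by
  set R := V ⊔ IC k t⁻¹ with hR
  have hVR : V ≤ R := le_sup_left
  have hSR : IC k t⁻¹ ≤ R := le_sup_right
  have hs : t⁻¹ ∈ R := hSR self_mem_IC
  have hle : IC k t ⊔ V ≤ Loc R t⁻¹ hs := by
    apply sup_le
    · intro a ha
      obtain ⟨N, hN⟩ := exists_pow_integral_inv ht (mem_IC.mp ha)
      exact ⟨N, hSR hN⟩
    · intro a ha
      exact loc_mono hs (hVR ha)
  obtain ⟨N, hN⟩ := hle hx
  obtain ⟨M, hM⟩ := hle hy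
  obtain ⟨x', hx', r, hr, ex⟩ := exists_decomp ht hSR hN
  obtain ⟨y', hy', r', hr', ey⟩ := exists_decomp ht hSR hM
  refine ⟨x', hx', y', hy', ?_⟩
  intro α β h
  obtain ⟨p, hp, q, hq, e⟩ := Submodule.mem_sup.mp h
  apply hxy
  set w := q + (α • r + β • r') with hw
  have hwR : w ∈ R := R.add_mem (hSR hq) (R.add_mem (R.smul_mem hr α) (R.smul_mem hr' β))
  have hsum : α • x + β • y = p + w := by
    rw [ex, ey, smul_add, smul_add, hw]
    linear_combination -e
  have hin : α • x + β • y ∈ IC k t ⊔ V :=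
    Subalgebra.add_mem _ (Subalgebra.smul_mem _ hx α) (Subalgebra.smul_mem _ hy β)
  have hwV : w ∈ V := by
    apply hV.mem_of_valuations
    intro O hO
    have hk : ∀ c : k, algebraMap k K c ∈ O := fun c => hO _ (V.algebraMap_mem c)
    have hle' : ∀ S T : Subalgebra k K, (∀ r ∈ S, r ∈ O) → (∀ r ∈ T, r ∈ O) →
        ∀ r ∈ S ⊔ T, r ∈ O := by
      intro S T hS hT
      have : S ⊔ T ≤ ({ O.toSubring with
          algebraMap_mem' := hk } : Subalgebra k K) := sup_le hS hT
      exact fun r hr => this hr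
    rcases O.mem_or_inv_mem t with h1 | h1
    · have h2 : ∀ r ∈ IC k t, r ∈ O := fun r hr => IC_mem_valuation hr O hk h1
      have h3 : w = (α • x + β • y) - p := by rw [hsum]; ring
      rw [h3]
      exact sub_mem (hle' _ _ h2 hO _ hin) (h2 p hp)
    · have h2 : ∀ r ∈ IC k t⁻¹, r ∈ O := fun r hr => IC_mem_valuation hr O hk h1
      exact hle' _ _ hO h2 _ hwR
  rw [hsum]
  exact Submodule.add_mem_sup hp hwV

/-- Two independent regular differentials on a curve with `h¹(O) ≥ 2`. -/
theorem exists_differentials [CharZero k] [IsAlgClosed k] (hd : Algebra.trdeg k K = 1)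
    {U V : Subalgebra k K} (hU : Chart U) (hV : Chart V)
    {x y : K} (hx : x ∈ U ⊔ V) (hy : y ∈ U ⊔ V)
    (hxy : ∀ α β : k, α • x + β • y ∈
      Subalgebra.toSubmodule U ⊔ Subalgebra.toSubmodule V → α = 0 ∧ β = 0) :
    ∃ t u u' : K, Transcendental k t ∧ FiniteDimensional k⟮t⟯ K ∧
      (∀ α β : k, α • u + β • u' = 0 → α = 0 ∧ β = 0) ∧
      ∀ R : Subalgebra k K, Chart R → Reg1 t u R ∧ Reg1 t u' R := by
  obtain ⟨t, htU, htr, hi, hf⟩ := hU.exists_t hd
  have hUt := hU.eq_IC htU hi
  subst hUt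
  have ht : t ≠ 0 := by
    rintro rfl
    exact htr isAlgebraic_zero
  have hf' : FiniteDimensional k⟮t⁻¹⟯ K := by rw [adjoin_inv]; exact hf
  obtain ⟨x', hx', y', hy', hxy'⟩ := transfer_classes ht hV hx hy hxy
  obtain ⟨u, u', hu, ⟨p1, p2⟩, ⟨q1, q2⟩⟩ := (twoCharts_IC ht).exists_two ht hx' hy' hxy'
  refine ⟨t, u, u', htr, hf, hu, fun R hR => ?_⟩
  have hp : ∀ O : ValuationSubring K, (∀ c : k, algebraMap k K c ∈ O) →
      (∀ r ∈ IC k t, r ∈ O) ∨ (∀ r ∈ IC k t⁻¹, r ∈ O) := by
    intro O hk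
    rcases O.mem_or_inv_mem t with h1 | h1
    · exact Or.inl (fun r hr => IC_mem_valuation hr O hk h1)
    · exact Or.inr (fun r hr => IC_mem_valuation hr O hk h1)
  exact ⟨reg1_all hd chart_IC chart_IC hp p1 p2 hR, reg1_all hd chart_IC chart_IC hp q1 q2 hR⟩

/-- A derivation of `K` which kills `t` is zero. -/
theorem derivation_eq_zero [CharZero k] {t : K} [FiniteDimensional k⟮t⟯ K]
    (D : Derivation k K K) (hD : D t = 0) : D = 0 := by
  have h1 : ∀ c ∈ k⟮t⟯, D c = 0 := by
    intro c hc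
    refine IntermediateField.adjoin_induction (F := k) (s := {t}) (p := fun x _ => D x = 0)
      ?_ ?_ ?_ ?_ ?_ hc
    · rintro x rfl
      exact hD
    · intro x
      exact D.map_algebraMap x
    · intro x y _ _ hx hy
      rw [map_add, hx, hy, add_zero]
    · intro x _ hx
      rw [D.leibniz_inv, hx, smul_zero]
    · intro x y _ _ hx hy
      rw [D.leibniz, hx, hy, smul_zero, smul_zero, add_zero]
  have : CharZero k⟮t⟯ := charZero_of_injective_algebraMap (algebraMap k k⟮t⟯).injective
  have hs : Algebra.IsSeparable k⟮t⟯ K := inferInstance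
  have hu : Algebra.FormallyUnramified k⟮t⟯ K :=
    (Algebra.FormallyUnramified.iff_isSeparable k⟮t⟯ K).mpr hs
  let E : Derivation k⟮t⟯ K K :=
    { toFun := D
      map_add' := map_add D
      map_smul' := fun c x => by
        rw [Algebra.smul_def, D.leibniz, RingHom.id_apply, Algebra.smul_def]
        rw [show D (algebraMap k⟮t⟯ K c) = 0 from h1 _ c.2, smul_zero, add_zero]
        rfl
      map_one_eq_zero' := D.map_one_eq_zero
      leibniz' := D.leibniz }
  have hE : E = 0 := by
    have hsub : Subsingleton (KaehlerDifferential k⟮t⟯ K) := inferInstance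
    have := Derivation.liftKaehlerDifferential_comp E
    rw [← this]
    ext x
    rw [Derivation.coe_comp]
    simp [Subsingleton.elim (KaehlerDifferential.D k⟮t⟯ K x) 0]
  ext x
  have := congrArg (fun F : Derivation k⟮t⟯ K K => F x) hE
  exact this

/-- **`H⁰(C, T^j) = 0` for `j ≥ 1`, `h¹(O_C) ≥ 2`**, in terms of arbitrary charts. -/
theorem not_charts [CharZero k] [IsAlgClosed k] (hd : Algebra.trdeg k K = 1)
    {U V : Subalgebra k K} (hU : Chart U) (hV : Chart V)
    {x y : K} (hx : x ∈ U ⊔ V) (hy : y ∈ U ⊔ V)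
    (hxy : ∀ α β : k, α • x + β • y ∈
      Subalgebra.toSubmodule U ⊔ Subalgebra.toSubmodule V → α = 0 ∧ β = 0)
    {R1 R2 : Subalgebra k K} (h1 : Chart R1) (h2 : Chart R2)
    (hi : ∀ a, a ∈ R1 → a ∈ R2 → a ∈ Set.range (algebraMap k K))
    (dd : Derivation k K K) (hdd : dd ≠ 0) (e : K) (D1 : ∀ a ∈ R1, dd a ∈ R1)
    (D2 : ∀ a ∈ R2, e * dd a ∈ R2) {j : ℕ} (hj : j ≠ 0) {z w : K} (hz : z ∈ R1) (hw : w ∈ R2)
    (hzw : z = e ^ j * w) : z = 0 := by
  obtain ⟨t, u, u', htr, hf, huu, hreg⟩ := exists_differentials hd hU hV hx hy hxy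
  obtain ⟨p1, q1⟩ := hreg R1 h1
  obtain ⟨p2, q2⟩ := hreg R2 h2
  have hdt : dd t ≠ 0 := fun h => hdd (derivation_eq_zero dd h)
  obtain ⟨i, rfl⟩ : ∃ i, j = i + 1 := ⟨j - 1, by omega⟩
  have a1 : u * dd t ∈ R1 := p1 dd D1
  have a2 : u' * dd t ∈ R1 := q1 dd D1
  have D2' : ∀ a ∈ R2, (e • dd) a ∈ R2 := fun a ha => by
    rw [Derivation.smul_apply, smul_eq_mul]; exact D2 a ha
  have b1 : u * (e * dd t) ∈ R2 := by
    have := p2 (e • dd) D2'
    rwa [Derivation.smul_apply, smul_eq_mul] at this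
  have b2 : u' * (e * dd t) ∈ R2 := by
    have := q2 (e • dd) D2'
    rwa [Derivation.smul_apply, smul_eq_mul] at this
  obtain ⟨c, hc⟩ := hi ((u * dd t) ^ (i + 1) * z) (R1.mul_mem (R1.pow_mem a1 _) hz) (by
    have h3 : (u * dd t) ^ (i + 1) * z = (u * (e * dd t)) ^ (i + 1) * w := by rw [hzw]; ring
    rw [h3]
    exact R2.mul_mem (R2.pow_mem b1 _) hw)
  obtain ⟨c', hc'⟩ := hi ((u * dd t) ^ i * (u' * dd t) * z)
    (R1.mul_mem (R1.mul_mem (R1.pow_mem a1 _) a2) hz) (by
    have h3 : (u * dd t) ^ i * (u' * dd t) * z = (u * (e * dd t)) ^ i * (u' * (e * dd t)) * w := by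
      rw [hzw]; ring
    rw [h3]
    exact R2.mul_mem (R2.mul_mem (R2.pow_mem b1 _) b2) hw)
  by_contra hz0
  have hu0 : u ≠ 0 := by
    rintro rfl
    exact one_ne_zero (huu 1 0 (by simp)).1
  have e1 : (u * dd t) ^ i * dd t * z * (c' • u + (-c) • u') = 0 := by
    rw [Algebra.smul_def, Algebra.smul_def, map_neg, hc, hc']
    ring
  have e2 : (u * dd t) ^ i * dd t * z ≠ 0 :=
    mul_ne_zero (mul_ne_zero (pow_ne_zero _ (mul_ne_zero hu0 hdt)) hdt) hz0
  have e3 := huu c' (-c) ((mul_eq_zero.mp e1).resolve_left e2)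
  have e4 : c = 0 := by simpa using e3.2
  rw [e4, map_zero] at hc
  exact mul_ne_zero (pow_ne_zero _ (mul_ne_zero hu0 hdt)) hz0 hc.symm

end MG


end

section

/-!
# Functions on the intersection of two affine opens of a separated scheme
-/

open CategoryTheory CategoryTheory.Limits AlgebraicGeometry

namespace Pool.Agent.MG

theorem pushout_gen {A B C D : CommRingCat.{0}} {f : A ⟶ B} {g : A ⟶ C} {i : B ⟶ D} {j : C ⟶ D}
    (h : IsPushout f g i j) (d : D) :
    d ∈ Subring.closure (Set.range i.hom ∪ Set.range j.hom) := by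
  set S := Subring.closure (Set.range i.hom ∪ Set.range j.hom) with hS
  let i' : B ⟶ CommRingCat.of S := CommRingCat.ofHom
    (i.hom.codRestrict S (fun b => Subring.subset_closure (Or.inl ⟨b, rfl⟩)))
  let j' : C ⟶ CommRingCat.of S := CommRingCat.ofHom
    (j.hom.codRestrict S (fun b => Subring.subset_closure (Or.inr ⟨b, rfl⟩)))
  let s : CommRingCat.of S ⟶ D := CommRingCat.ofHom S.subtype
  have hi : i' ≫ s = i := rfl
  have hj : j' ≫ s = j := rfl
  have hs : Mono s := ConcreteCategory.mono_of_injective _ Subtype.val_injective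
  have hc : f ≫ i' = g ≫ j' := by
    rw [← cancel_mono s, Category.assoc, Category.assoc, hi, hj, h.w]
  have h1 : h.desc i' j' hc ≫ s = 𝟙 D := by
    apply h.hom_ext
    · rw [← Category.assoc, h.inl_desc, hi, Category.comp_id]
    · rw [← Category.assoc, h.inr_desc, hj, Category.comp_id]
  have h2 : s.hom ((h.desc i' j' hc).hom d) = d := by
    have := ConcreteCategory.congr_hom h1 d
    exact this
  rw [← h2]
  exact Subtype.mem _

set_option backward.isDefEq.respectTransparency false in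
theorem homOfLE_topIso {X : Scheme.{0}} {U V : X.Opens} (e : U ≤ V) :
    (X.homOfLE e).appTop ≫ U.topIso.hom = V.topIso.hom ≫ X.presheaf.map (homOfLE e).op := by
  rw [Scheme.homOfLE_appTop, Scheme.Opens.topIso_hom, Scheme.Opens.topIso_hom,
    ← Functor.map_comp, ← Functor.map_comp]
  rfl

theorem sep_gen {A : Type} [CommRing A] {X : Scheme.{0}} (π : X ⟶ Sp A) [IsSeparated π]
    {U V : X.Opens} (hU : IsAffineOpen U) (hV : IsAffineOpen V) (s : Γ(X, U ⊓ V)) :
    s ∈ Subring.closure (Set.range (rs X (inf_le_left : U ⊓ V ≤ U)) ∪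
      Set.range (rs X (inf_le_right : U ⊓ V ≤ V))) := by
  have : IsAffine U.toScheme := hU
  have : IsAffine V.toScheme := hV
  let D := pullback (U.ι ≫ π) (V.ι ≫ π)
  let w : (U ⊓ V).toScheme ⟶ D :=
    (isPullback_opens_inf U V).isoPullback.hom ≫ pullback.mapDesc U.ι V.ι π
  have hw1 : w ≫ pullback.fst (U.ι ≫ π) (V.ι ≫ π) = X.homOfLE inf_le_left := by
    simp only [w, Category.assoc, pullback.mapDesc, pullback.map, pullback.lift_fst,
      Category.comp_id, IsPullback.isoPullback_hom_fst]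
  have hw2 : w ≫ pullback.snd (U.ι ≫ π) (V.ι ≫ π) = X.homOfLE inf_le_right := by
    simp only [w, Category.assoc, pullback.mapDesc, pullback.map, pullback.lift_snd,
      Category.comp_id, IsPullback.isoPullback_hom_snd]
  have hD : IsAffine D := inferInstance
  have hsur := (IsClosedImmersion.isAffine_surjective_of_isAffine w).2
  have hpo := isPushout_appTop_of_isPullback (IsPullback.of_hasPullback (U.ι ≫ π) (V.ι ≫ π))
  obtain ⟨d, hd⟩ := hsur ((U ⊓ V).topIso.inv.hom s)
  have h1 := pushout_gen hpo d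
  have key : ∀ d : Γ(D, ⊤), d ∈ Subring.closure
      (Set.range (pullback.fst (U.ι ≫ π) (V.ι ≫ π)).appTop.hom ∪
        Set.range (pullback.snd (U.ι ≫ π) (V.ι ≫ π)).appTop.hom) →
      (U ⊓ V).topIso.hom.hom (w.appTop.hom d) ∈
        Subring.closure (Set.range (rs X (inf_le_left : U ⊓ V ≤ U)) ∪
          Set.range (rs X (inf_le_right : U ⊓ V ≤ V))) := by
    intro d hd
    let F : Γ(D, ⊤) →+* Γ(X, U ⊓ V) := (U ⊓ V).topIso.hom.hom.comp w.appTop.hom
    have hle : Subring.closure
      (Set.range (pullback.fst (U.ι ≫ π) (V.ι ≫ π)).appTop.hom ∪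
        Set.range (pullback.snd (U.ι ≫ π) (V.ι ≫ π)).appTop.hom) ≤
        (Subring.closure (Set.range (rs X (inf_le_left : U ⊓ V ≤ U)) ∪
          Set.range (rs X (inf_le_right : U ⊓ V ≤ V)))).comap F := by
      rw [Subring.closure_le]
      rintro _ (⟨b, rfl⟩ | ⟨b, rfl⟩)
      · apply Subring.subset_closure
        left
        refine ⟨U.topIso.hom.hom b, ?_⟩
        have e1 : (pullback.fst (U.ι ≫ π) (V.ι ≫ π)).appTop ≫ w.appTop =
          (X.homOfLE inf_le_left).appTop :=
            (Scheme.Hom.comp_appTop w (pullback.fst (U.ι ≫ π) (V.ι ≫ π))).symm.trans (by rw [hw1])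
        have e2 := homOfLE_topIso (X := X) (inf_le_left : U ⊓ V ≤ U)
        rw [← e1, Category.assoc] at e2
        exact (ConcreteCategory.congr_hom e2 b).symm
      · apply Subring.subset_closure
        right
        refine ⟨V.topIso.hom.hom b, ?_⟩
        have e1 : (pullback.snd (U.ι ≫ π) (V.ι ≫ π)).appTop ≫ w.appTop =
          (X.homOfLE inf_le_right).appTop :=
            (Scheme.Hom.comp_appTop w (pullback.snd (U.ι ≫ π) (V.ι ≫ π))).symm.trans (by rw [hw2])
        have e2 := homOfLE_topIso (X := X) (inf_le_right : U ⊓ V ≤ V)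
        rw [← e1, Category.assoc] at e2
        exact (ConcreteCategory.congr_hom e2 b).symm
    exact hle hd
  have h2 := key d h1
  have h3 : (U ⊓ V).topIso.hom.hom (w.appTop.hom d) = s := by
    rw [hd]
    have := ConcreteCategory.congr_hom (U ⊓ V).topIso.inv_hom_id s
    exact this
  rwa [h3] at h2

end Pool.Agent.MG


end

section

/-!
# Charts of a curve as subalgebras of the function field
-/

open CategoryTheory CategoryTheory.Limits AlgebraicGeometry TensorProduct

namespace Pool.Agent.MG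

open Two

section

variable {X : Scheme.{0}} [IsIntegral X] {k : Type} [Field k] (π : X ⟶ Sp k)
  [Algebra k X.functionField] (hk : ∀ c, algebraMap k X.functionField c = kfun π c)

omit [Algebra k X.functionField] [IsIntegral X] in
theorem coef_eq_kmap (U : X.Opens) (c : k) : coef π U c = kmap π U c := by
  rw [coef_eq]
  rfl

/-- The functions on `W` as a subalgebra of the function field. -/
noncomputable def RW (W : X.Opens) [Nonempty W] : Subalgebra k X.functionField :=
  { (X.germToFunctionField W).hom.range with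
    algebraMap_mem' := fun c => ⟨kmap π W c, by rw [hk]; exact germ_kmap π W c⟩ }

theorem mem_RW {W : X.Opens} [Nonempty W] {a : X.functionField} :
    a ∈ RW π hk W ↔ ∃ s : Γ(X, W), (X.germToFunctionField W).hom s = a := Iff.rfl

theorem germ_mem_RW {W : X.Opens} [Nonempty W] (s : Γ(X, W)) :
    (X.germToFunctionField W).hom s ∈ RW π hk W := ⟨s, rfl⟩

theorem chart_RW [LocallyOfFiniteType π]
    (hpir : ∀ x : X, IsPrincipalIdealRing (X.presheaf.stalk x)) {W : X.Opens} [Nonempty W]
    (hW : IsAffineOpen W) : _root_.MG.Chart (RW π hk W) := by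
  have hded : IsDedekindDomain Γ(X, W) := isDedekindDomain_sections π hpir hW
  have hfrac : IsFractionRing Γ(X, W) X.functionField :=
    functionField_isFractionRing_of_isAffineOpen X W hW
  have hic : IsIntegrallyClosed Γ(X, W) := inferInstance
  refine ⟨?_, ?_, ?_⟩
  · let _ : Algebra k Γ(X, W) := (kmap π W).toAlgebra
    have h1 : Algebra.FiniteType k Γ(X, W) := kmap_finiteType π hW
    let φ : Γ(X, W) →ₐ[k] X.functionField :=
      { (X.germToFunctionField W).hom with
        commutes' := fun c => by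
          rw [hk]
          exact germ_kmap π W c }
    have h2 : RW π hk W = (⊤ : Subalgebra k Γ(X, W)).map φ := by
      ext a
      rw [mem_RW, Subalgebra.mem_map]
      constructor
      · rintro ⟨s, hs⟩
        exact ⟨s, Algebra.mem_top, hs⟩
      · rintro ⟨s, _, hs⟩
        exact ⟨s, hs⟩
    rw [h2]
    exact Subalgebra.FG.map _ h1.out
  · intro a ha
    let ψ : Γ(X, W) →+* RW π hk W :=
      (X.germToFunctionField W).hom.codRestrict (RW π hk W) (fun s => germ_mem_RW π hk s)
    have hψ : Function.Surjective ψ := by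
      rintro ⟨b, s, hs⟩
      exact ⟨s, Subtype.ext hs⟩
    let _ : Algebra Γ(X, W) (RW π hk W) := ψ.toAlgebra
    have _ : IsScalarTower Γ(X, W) (RW π hk W) X.functionField :=
      IsScalarTower.of_algebraMap_eq' rfl
    have _ : Algebra.IsIntegral Γ(X, W) (RW π hk W) :=
      ⟨RingHom.isIntegral_of_surjective ψ hψ⟩
    have h1 : IsIntegral Γ(X, W) a := isIntegral_trans a ha
    obtain ⟨b, hb⟩ := IsIntegrallyClosed.isIntegral_iff.mp h1
    exact ⟨b, hb⟩
  · intro a
    obtain ⟨⟨b, s⟩, hb⟩ := IsLocalization.surj (nonZeroDivisors Γ(X, W)) a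
    refine ⟨(X.germToFunctionField W).hom s.1, germ_mem_RW π hk _, ?_, ?_⟩
    · intro h
      exact nonZeroDivisors.coe_ne_zero s (X.germToFunctionField_injective W (by
        rw [map_zero]; exact h))
    · rw [mul_comm]
      exact ⟨b, hb.symm⟩

/-- Functions on the intersection are generated by functions on the charts. -/
theorem inter_mem_sup [IsSeparated π] {U V : X.Opens} [Nonempty U] [Nonempty V]
    [Nonempty (U ⊓ V : X.Opens)] (hU : IsAffineOpen U) (hV : IsAffineOpen V) (s : Γ(X, U ⊓ V)) :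
    (X.germToFunctionField (U ⊓ V)).hom s ∈ RW π hk U ⊔ RW π hk V := by
  have h1 := sep_gen π hU hV s
  have h2 : Subring.closure (Set.range (rs X (inf_le_left : U ⊓ V ≤ U)) ∪
      Set.range (rs X (inf_le_right : U ⊓ V ≤ V))) ≤
      (RW π hk U ⊔ RW π hk V).toSubring.comap (X.germToFunctionField (U ⊓ V)).hom := by
    rw [Subring.closure_le]
    rintro _ (⟨b, rfl⟩ | ⟨b, rfl⟩)
    · have h3 : (X.germToFunctionField (U ⊓ V)).hom (rs X (inf_le_left : U ⊓ V ≤ U) b) =
          (X.germToFunctionField U).hom b := germToFunctionField_res _ b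
      change (X.germToFunctionField (U ⊓ V)).hom (rs X (inf_le_left : U ⊓ V ≤ U) b) ∈
        RW π hk U ⊔ RW π hk V
      rw [h3]
      exact (le_sup_left : RW π hk U ≤ RW π hk U ⊔ RW π hk V) (germ_mem_RW π hk b)
    · have h3 : (X.germToFunctionField (U ⊓ V)).hom (rs X (inf_le_right : U ⊓ V ≤ V) b) =
          (X.germToFunctionField V).hom b := germToFunctionField_res _ b
      change (X.germToFunctionField (U ⊓ V)).hom (rs X (inf_le_right : U ⊓ V ≤ V) b) ∈
        RW π hk U ⊔ RW π hk V
      rw [h3]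
      exact (le_sup_right : RW π hk V ≤ RW π hk U ⊔ RW π hk V) (germ_mem_RW π hk b)
  exact h2 h1

/-- Two independent classes. -/
theorem exists_classes [IsSeparated π] {g : ℕ} (hg : 2 ≤ g) (h : HasGenus π g) :
    ∃ (U V : X.Opens) (_ : Nonempty U) (_ : Nonempty V) (_ : IsAffineOpen U) (_ : IsAffineOpen V)
      (x y : X.functionField), x ∈ RW π hk U ⊔ RW π hk V ∧ y ∈ RW π hk U ⊔ RW π hk V ∧
      ∀ α β : k, α • x + β • y ∈ Subalgebra.toSubmodule (RW π hk U) ⊔
        Subalgebra.toSubmodule (RW π hk V) → α = 0 ∧ β = 0 := by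
  obtain ⟨U, V, hU, hV, hUV, L, hL, hLm, hL0⟩ := h
  let i0 : Fin g := ⟨0, by omega⟩
  let i1 : Fin g := ⟨1, by omega⟩
  have hi01 : i0 ≠ i1 := by simp [i0, i1]
  have hne : Nonempty (U ⊓ V : X.Opens) := by
    by_contra hne
    have hsub : Subsingleton Γ(X, U ⊓ V) := by
      have h1 : U ⊓ V = ⊥ := by
        rw [← le_bot_iff]
        intro z hz
        exact (hne ⟨⟨z, hz⟩⟩).elim
      rw [h1]
      infer_instance
    obtain ⟨s, hs⟩ := hL (Pi.single i0 1)
    have h2 : s = 0 := Subsingleton.elim _ _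
    rw [h2, map_zero] at hs
    have h3 := congrFun hs i0
    simp at h3
  have hneU : Nonempty U := by
    obtain ⟨⟨z, hz⟩⟩ := hne
    exact ⟨⟨z, hz.1⟩⟩
  have hneV : Nonempty V := by
    obtain ⟨⟨z, hz⟩⟩ := hne
    exact ⟨⟨z, hz.2⟩⟩
  obtain ⟨sx, hsx⟩ := hL (Pi.single i0 1)
  obtain ⟨sy, hsy⟩ := hL (Pi.single i1 1)
  refine ⟨U, V, hneU, hneV, hU, hV, (X.germToFunctionField (U ⊓ V)).hom sx,
    (X.germToFunctionField (U ⊓ V)).hom sy, inter_mem_sup π hk hU hV sx,
    inter_mem_sup π hk hU hV sy, ?_⟩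
  intro α β hαβ
  obtain ⟨p, ⟨a, ha⟩, q, ⟨b, hb⟩, e⟩ := Submodule.mem_sup.mp hαβ
  have hres1 : (X.germToFunctionField (U ⊓ V)).hom (rs X (inf_le_left : U ⊓ V ≤ U) a) =
      (X.germToFunctionField U).hom a := germToFunctionField_res _ a
  have hres2 : (X.germToFunctionField (U ⊓ V)).hom (rs X (inf_le_right : U ⊓ V ≤ V) b) =
      (X.germToFunctionField V).hom b := germToFunctionField_res _ b
  have hc : ∀ c : k, (X.germToFunctionField (U ⊓ V)).hom (coef π (U ⊓ V) c) =
      algebraMap k X.functionField c := fun c => by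
    rw [coef_eq_kmap, hk]
    exact germ_kmap π (U ⊓ V) c
  have key : coef π (U ⊓ V) α * sx + coef π (U ⊓ V) β * sy =
      rs X inf_le_left a + rs X inf_le_right b := by
    apply X.germToFunctionField_injective (U ⊓ V)
    change (X.germToFunctionField (U ⊓ V)).hom _ = (X.germToFunctionField (U ⊓ V)).hom _
    rw [map_add, map_add, map_mul, map_mul, hc, hc, hres1, hres2, ← Algebra.smul_def,
      ← Algebra.smul_def, ← e]
    have ha' : (X.germToFunctionField U).hom a = p := ha
    have hb' : (X.germToFunctionField V).hom b = q := hb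
    rw [ha', hb']
  have h4 := (hL0 (coef π (U ⊓ V) α * sx + coef π (U ⊓ V) β * sy)).mpr ⟨a, b, key⟩
  rw [map_add, hLm, hLm, hsx, hsy] at h4
  have h5 := congrFun h4 i0
  have h6 := congrFun h4 i1
  simp [hi01, hi01.symm] at h5 h6
  exact ⟨h5, h6⟩

end

end Pool.Agent.MG


end

section

/-!
# Proof of NOT
-/

open CategoryTheory CategoryTheory.Limits AlgebraicGeometry TensorProduct

namespace Pool.Agent.MG

open Two

theorem isFractionRing_of_injective {A K : Type} [CommRing A] [IsDomain A] [Field K] [Algebra A K]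
    (hinj : Function.Injective (algebraMap A K))
    (h : ∀ z : K, ∃ a b : A, algebraMap A K b ≠ 0 ∧ algebraMap A K b * z = algebraMap A K a) :
    IsFractionRing A K := by
  refine ⟨?_, ?_, ?_⟩
  · rintro ⟨b, hb⟩
    exact isUnit_iff_ne_zero.mpr (by
      intro h
      exact nonZeroDivisors.ne_zero hb (hinj (by rw [h, map_zero])))
  · intro z
    obtain ⟨a, b, hb, hz⟩ := h z
    refine ⟨⟨a, ⟨b, mem_nonZeroDivisors_of_ne_zero ?_⟩⟩, ?_⟩
    · rintro rfl
      exact hb (map_zero _)
    · rw [mul_comm]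
      exact hz
  · intro x y h
    exact ⟨1, by rw [hinj h]⟩

section

variable {n : ℕ} {k : Type} [Field k] {C : Fam n k} {T : TC k} (ch : Cht C T)

include ch in
theorem Cht.nonempty12 : Nonempty (ch.ct.U1 ⊓ ch.ct.U2 : C.X.Opens) := by
  by_contra hne
  have hsub : Subsingleton Γ(C.X, ch.ct.U1 ⊓ ch.ct.U2) := by
    have h1 : ch.ct.U1 ⊓ ch.ct.U2 = ⊥ := by
      rw [← le_bot_iff]
      intro z hz
      exact (hne ⟨⟨z, hz⟩⟩).elim
    rw [h1]
    infer_instance
  have hd := ch.dom
  have h2 : (1 : k ⊗[k] T.R12) = 0 := ch.ct.b12.1 (Subsingleton.elim _ _)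
  have h3 := congrArg (Algebra.TensorProduct.lid k T.R12) h2
  rw [map_one, map_zero] at h3
  exact one_ne_zero h3

variable [IsIntegral C.X] [Algebra k C.X.functionField]
  (hk : ∀ c, algebraMap k C.X.functionField c = kfun C.π c)
  [Nonempty (ch.ct.U1 ⊓ ch.ct.U2 : C.X.Opens)] [Nonempty ch.ct.U1] [Nonempty ch.ct.U2]

/-- `R₁₂ → K`. -/
noncomputable def Cht.phi12 : T.R12 →ₐ[k] C.X.functionField :=
  { ((C.X.germToFunctionField (ch.ct.U1 ⊓ ch.ct.U2)).hom.comp ch.ct.t12).comp
      (Algebra.TensorProduct.includeRight : T.R12 →ₐ[k] k ⊗[k] T.R12).toRingHom with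
    commutes' := fun c => by
      change (C.X.germToFunctionField (ch.ct.U1 ⊓ ch.ct.U2)).hom
        (ch.ct.t12 (1 ⊗ₜ algebraMap k T.R12 c)) = _
      have h1 : (1 : k) ⊗ₜ[k] algebraMap k T.R12 c = c ⊗ₜ 1 := by
        rw [Algebra.algebraMap_eq_smul_one, ← TensorProduct.smul_tmul, smul_eq_mul, mul_one]
      rw [h1, ch.ct.c12, hk, coef_eq_kmap]
      exact germ_kmap C.π _ c }

theorem Cht.phi12_apply (a : T.R12) : ch.phi12 hk a =
    (C.X.germToFunctionField (ch.ct.U1 ⊓ ch.ct.U2)).hom (ch.ct.t12 (1 ⊗ₜ a)) := rfl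

theorem Cht.phi12_injective : Function.Injective (ch.phi12 hk) := by
  intro a b h
  rw [ch.phi12_apply, ch.phi12_apply] at h
  have h1 := ch.ct.b12.1 (C.X.germToFunctionField_injective _ h)
  have h3 := congrArg (Algebra.TensorProduct.lid k T.R12) h1
  simpa using h3

theorem Cht.phi12_j1 (a : T.R1) : ch.phi12 hk (T.j1 a) =
    (C.X.germToFunctionField ch.ct.U1).hom (ch.ct.t1 (1 ⊗ₜ a)) := by
  rw [ch.phi12_apply, ← ch.ct.r1]
  exact germToFunctionField_res _ _

theorem Cht.phi12_j2 (a : T.R2) : ch.phi12 hk (T.j2 a) =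
    (C.X.germToFunctionField ch.ct.U2).hom (ch.ct.t2 (1 ⊗ₜ a)) := by
  rw [ch.phi12_apply, ← ch.ct.r2]
  exact germToFunctionField_res _ _

theorem exists_one_tmul {R : Type} [CommRing R] [Algebra k R] (v : k ⊗[k] R) :
    ∃ a : R, v = 1 ⊗ₜ a :=
  ⟨Algebra.TensorProduct.lid k R v, by
    apply (Algebra.TensorProduct.lid k R).injective
    simp⟩

theorem Cht.mem_RW1 {z : C.X.functionField} : z ∈ RW C.π hk ch.ct.U1 ↔
    ∃ a : T.R1, ch.phi12 hk (T.j1 a) = z := by
  rw [mem_RW]
  constructor
  · rintro ⟨s, hs⟩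
    obtain ⟨v, rfl⟩ := ch.ct.b1.2 s
    obtain ⟨a, rfl⟩ := exists_one_tmul v
    exact ⟨a, by rw [ch.phi12_j1]; exact hs⟩
  · rintro ⟨a, ha⟩
    exact ⟨ch.ct.t1 (1 ⊗ₜ a), by rw [← ha, ch.phi12_j1]⟩

theorem Cht.mem_RW2 {z : C.X.functionField} : z ∈ RW C.π hk ch.ct.U2 ↔
    ∃ a : T.R2, ch.phi12 hk (T.j2 a) = z := by
  rw [mem_RW]
  constructor
  · rintro ⟨s, hs⟩
    obtain ⟨v, rfl⟩ := ch.ct.b2.2 s
    obtain ⟨a, rfl⟩ := exists_one_tmul v
    exact ⟨a, by rw [ch.phi12_j2]; exact hs⟩
  · rintro ⟨a, ha⟩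
    exact ⟨ch.ct.t2 (1 ⊗ₜ a), by rw [← ha, ch.phi12_j2]⟩

end

theorem not_aux {n : ℕ} {k : Type} [Field k] [IsAlgClosed k] [CharZero k] (g : ℕ) (C : Fam n k)
    [IsIntegral C.X] [IsSeparated C.π] [LocallyOfFiniteType C.π] (hgen : HasGenus C.π g)
    (hpir : ∀ x : C.X, IsPrincipalIdealRing (C.X.presheaf.stalk x))
    (hg : 2 ≤ g) (T : TC k) (ch : Cht C T) (j : ℕ) (hj : 1 ≤ j) (a : T.R1) (b : T.R2)
    (hab : T.j1 a = T.e ^ j * T.j2 b) : a = 0 := by
  let _ : Algebra k C.X.functionField := (kfun C.π).toAlgebra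
  have hk : ∀ c, algebraMap k C.X.functionField c = kfun C.π c := fun _ => rfl
  have hne := ch.nonempty12
  have hne1 : Nonempty ch.ct.U1 := by
    obtain ⟨⟨z, hz⟩⟩ := hne
    exact ⟨⟨z, hz.1⟩⟩
  have hne2 : Nonempty ch.ct.U2 := by
    obtain ⟨⟨z, hz⟩⟩ := hne
    exact ⟨⟨z, hz.2⟩⟩
  have hdom := ch.dom
  have hdom1 : IsDomain T.R1 := Function.Injective.isDomain (T.j1 : T.R1 →+* T.R12) ch.inj1
  obtain ⟨U, V, hU, hV, hUa, hVa, x, y, hx, hy, hxy⟩ := exists_classes C.π hk hg hgen
  -- the charts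
  have hc1 : _root_.MG.Chart (RW C.π hk ch.ct.U1) := chart_RW C.π hk hpir ch.aff.aff1
  have hc2 : _root_.MG.Chart (RW C.π hk ch.ct.U2) := chart_RW C.π hk hpir ch.aff.aff2
  have hcU : _root_.MG.Chart (RW C.π hk U) := chart_RW C.π hk hpir hUa
  have hcV : _root_.MG.Chart (RW C.π hk V) := chart_RW C.π hk hpir hVa
  -- transcendence degree
  have hd : Algebra.trdeg k C.X.functionField = 1 := by
    let _ : Algebra T.R1 C.X.functionField := ((ch.phi12 hk).comp T.j1).toRingHom.toAlgebra
    have _ : IsScalarTower k T.R1 C.X.functionField := IsScalarTower.of_algebraMap_eq' (by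
      ext c
      exact (((ch.phi12 hk).comp T.j1).commutes c).symm)
    have _ : IsFractionRing T.R1 C.X.functionField := by
      apply isFractionRing_of_injective
      · exact (ch.phi12_injective hk).comp ch.inj1
      · intro z
        obtain ⟨b, hb, hb0, hbz⟩ := hc1.frac z
        obtain ⟨b', rfl⟩ := (ch.mem_RW1 hk).mp hb
        obtain ⟨a', ha'⟩ := (ch.mem_RW1 hk).mp hbz
        exact ⟨a', b', hb0, ha'.symm⟩
    exact _root_.MG.trdeg_of_etale T.x T.etx C.X.functionField
  -- the derivation of the function field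
  obtain ⟨dd, hdd⟩ : ∃ dd : Derivation k C.X.functionField C.X.functionField,
      ∀ r : T.R12, dd (ch.phi12 hk r) = ch.phi12 hk (T.dd r) := by
    let _ : Algebra T.R12 C.X.functionField := (ch.phi12 hk).toRingHom.toAlgebra
    have _ : IsScalarTower k T.R12 C.X.functionField := IsScalarTower.of_algebraMap_eq' (by
      ext c
      exact ((ch.phi12 hk).commutes c).symm)
    have _ : IsFractionRing T.R12 C.X.functionField := by
      apply isFractionRing_of_injective
      · exact ch.phi12_injective hk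
      · intro z
        obtain ⟨b, hb, hb0, hbz⟩ := hc1.frac z
        obtain ⟨b', rfl⟩ := (ch.mem_RW1 hk).mp hb
        obtain ⟨a', ha'⟩ := (ch.mem_RW1 hk).mp hbz
        exact ⟨T.j1 a', T.j1 b', hb0, ha'.symm⟩
    have _ : Algebra.FormallyEtale T.R12 C.X.functionField :=
      Algebra.FormallyEtale.of_isLocalization (nonZeroDivisors T.R12)
    obtain ⟨D, hD⟩ := _root_.MG.exists_derivation_of_formallyEtale (R := k) (S := T.R12)
      (T := C.X.functionField) (M := C.X.functionField)
      ((Algebra.linearMap T.R12 C.X.functionField).compDer T.dd)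
    exact ⟨D, hD⟩
  have hder : ∀ (R : Type) [CommRing R] [Algebra k R] (t : R)
      (_ : (Polynomial.aeval t : Polynomial k →ₐ[k] R).toRingHom.Etale)
      (φ : R →ₐ[k] C.X.functionField)
      (D : Derivation k C.X.functionField C.X.functionField) (_ : D (φ t) = 1) (r : R),
      ∃ r', D (φ r) = φ r' := by
    intro R _ _ t het φ D hD r
    let _ : Algebra R C.X.functionField := φ.toRingHom.toAlgebra
    have _ : IsScalarTower k R C.X.functionField := IsScalarTower.of_algebraMap_eq' (by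
      ext c
      exact (φ.commutes c).symm)
    obtain ⟨D1, hD1⟩ := _root_.MG.exists_ddx t het R 1
    have h1 := _root_.MG.ddx_unique t het (D.compAlgebraMap R)
      ((Algebra.linearMap R C.X.functionField).compDer D1) (by
        change D (φ t) = φ (D1 t)
        rw [hD, hD1, map_one])
    exact ⟨D1 r, congrArg (fun F : Derivation k R C.X.functionField => F r) h1⟩
  have hD1 : ∀ z ∈ RW C.π hk ch.ct.U1, dd z ∈ RW C.π hk ch.ct.U1 := by
    intro z hz
    obtain ⟨r, rfl⟩ := (ch.mem_RW1 hk).mp hz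
    obtain ⟨r', hr'⟩ := hder T.R1 T.x T.etx ((ch.phi12 hk).comp T.j1) dd (by
      change dd (ch.phi12 hk (T.j1 T.x)) = 1
      rw [hdd, T.ddx, map_one]) r
    exact (ch.mem_RW1 hk).mpr ⟨r', hr'.symm⟩
  have hD2 : ∀ z ∈ RW C.π hk ch.ct.U2, ch.phi12 hk T.e * dd z ∈ RW C.π hk ch.ct.U2 := by
    intro z hz
    obtain ⟨r, rfl⟩ := (ch.mem_RW2 hk).mp hz
    obtain ⟨r', hr'⟩ := hder T.R2 T.y T.ety ((ch.phi12 hk).comp T.j2) (ch.phi12 hk T.e • dd) (by
      change ch.phi12 hk T.e * dd (ch.phi12 hk (T.j2 T.y)) = 1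
      rw [hdd, ← map_mul, T.ey, map_one]) r
    exact (ch.mem_RW2 hk).mpr ⟨r', hr'.symm⟩
  have hinter : ∀ z, z ∈ RW C.π hk ch.ct.U1 → z ∈ RW C.π hk ch.ct.U2 →
      z ∈ Set.range (algebraMap k C.X.functionField) := by
    intro z h1 h2
    obtain ⟨r, rfl⟩ := (ch.mem_RW1 hk).mp h1
    obtain ⟨s, hs⟩ := (ch.mem_RW2 hk).mp h2
    obtain ⟨c, hc⟩ := ch.h0 r s ((ch.phi12_injective hk) hs.symm)
    refine ⟨c, ?_⟩
    rw [hc]
    exact (((ch.phi12 hk).comp T.j1).commutes c).symm
  have hdd0 : dd ≠ 0 := by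
    intro h
    have h1 : dd (ch.phi12 hk (T.j1 T.x)) = 1 := by rw [hdd, T.ddx, map_one]
    rw [h] at h1
    exact zero_ne_one h1
  have hfin := _root_.MG.not_charts hd hcU hcV hx hy hxy hc1 hc2 hinter dd hdd0
    (ch.phi12 hk T.e) hD1 hD2 (Nat.one_le_iff_ne_zero.mp hj)
    ((ch.mem_RW1 hk).mpr ⟨a, rfl⟩) ((ch.mem_RW2 hk).mpr ⟨b, rfl⟩) (by
      rw [hab, map_mul, map_pow])
  apply ch.inj1
  apply ch.phi12_injective hk
  rw [hfin, map_zero, map_zero]

/-- The identity arrow. -/
noncomputable def idArrow {n : ℕ} {A : Type} [CommRing A] (x : Fam n A) :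
    Arrow (RingHom.id A) x x where
  f := 𝟙 _
  cart := by
    have h : spMap (RingHom.id A) = 𝟙 _ := by
      change Spec.map (𝟙 _) = 𝟙 _
      exact Spec.map_id _
    rw [h]
    exact IsPullback.id_horiz x.π
  sec i := by
    have h : spMap (RingHom.id A) = 𝟙 _ := by
      change Spec.map (𝟙 _) = 𝟙 _
      exact Spec.map_id _
    rw [h, Category.comp_id, Category.id_comp]

theorem stmt_NOT_of
    (H : ∀ {n : ℕ} {k : Type} [Field k] [IsAlgClosed k] (C : Fam n k), IsProper C.π →
      SmoothOfRelativeDimension 1 C.π → ConnectedSpace C.X →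
      IsIntegral C.X ∧ ∀ x : C.X, IsPrincipalIdealRing (C.X.presheaf.stalk x)) : Stmt_NOT := by
  intro n k _ _ _ g C hst hsm hg T ch j hj a b hab
  have hpr := hst.proper
  have hsc : StableCurve g C := hst.fib k (RingHom.id k) C ⟨idArrow C⟩
  obtain ⟨hint, hpir⟩ := H C hpr hsm hsc.connected
  exact not_aux g C hsc.genus hpir hg T ch j hj a b hab

end Pool.Agent.MG


end

section

/-!
# NOT, in final form
-/

open CategoryTheory CategoryTheory.Limits AlgebraicGeometry TensorProduct

namespace Pool.Agent.MG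

open Two

/-- Block NOT. -/
theorem stmt_NOT : Stmt_NOT :=
  stmt_NOT_of (fun C hp hs hc => by
    have := hp
    have := hs
    have := hc
    exact ⟨isIntegral_of_smooth C.π, fun x => pir_stalk C.π x⟩)

end Pool.Agent.MG


end

section

/-!
# A smooth nodal curve has relative dimension one: algebra
-/

open CategoryTheory CategoryTheory.Limits AlgebraicGeometry TensorProduct
open scoped Polynomial

namespace Pool.Agent.MG

namespace SmNod

open NOD

section node

variable (K : Type) [Field K]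

theorem exists_vv_mul (z : NodeRing K) : ∃ w, z = mu K 0 (nu K 0 z) + vv K * w := by
  obtain ⟨p, rfl⟩ := Ideal.Quotient.mk_surjective z
  induction p using MvPolynomial.induction_on with
  | C c =>
    have h : (Ideal.Quotient.mk (Ideal.span {(MvPolynomial.X 0 * MvPolynomial.X 1 :
        MvPolynomial (Fin 2) K)})) (MvPolynomial.C c) = algebraMap K (NodeRing K) c := rfl
    exact ⟨0, by rw [h, AlgHom.commutes, AlgHom.commutes, mul_zero, add_zero]⟩
  | add p q hp hq =>
    obtain ⟨w, hw⟩ := hp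
    obtain ⟨w', hw'⟩ := hq
    refine ⟨w + w', ?_⟩
    rw [map_add, map_add, map_add, mul_add]
    rw [hw, hw']
    simp only [map_add, map_mul, nu_mu, nu_vv, zero_mul, add_zero]
    ring
  | mul_X p i hp =>
    obtain ⟨w, hw⟩ := hp
    fin_cases i
    · refine ⟨w * uu K, ?_⟩
      have h1 : (Ideal.Quotient.mk (Ideal.span {(MvPolynomial.X 0 * MvPolynomial.X 1 :
        MvPolynomial (Fin 2) K)})) (p * MvPolynomial.X 0) =
        (Ideal.Quotient.mk _ p) * uu K := rfl
      rw [Fin.zero_eta, h1, map_mul, map_mul, mu_nu_uu]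
      conv_lhs => rw [hw]
      ring
    · refine ⟨Ideal.Quotient.mk _ p, ?_⟩
      have h1 : (Ideal.Quotient.mk (Ideal.span {(MvPolynomial.X 0 * MvPolynomial.X 1 :
        MvPolynomial (Fin 2) K)})) (p * MvPolynomial.X 1) =
        (Ideal.Quotient.mk _ p) * vv K := rfl
      rw [Fin.mk_one, h1, map_mul, map_mul, nu_vv, map_zero, mul_zero, zero_add, mul_comm]

theorem dvd_of_nu_eq_zero (z : NodeRing K) (h : nu K 0 z = 0) : ∃ w, z = vv K * w := by
  obtain ⟨w, hw⟩ := exists_vv_mul K z
  refine ⟨w, ?_⟩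
  rw [h, map_zero, zero_add] at hw
  exact hw

/-- Exchange of the branches. -/
noncomputable def sw : NodeRing K →ₐ[K] NodeRing K :=
  Ideal.Quotient.liftₐ _ (MvPolynomial.aeval ![vv K, uu K]) (by
    intro p hp
    have h : Ideal.span {(MvPolynomial.X 0 * MvPolynomial.X 1 : MvPolynomial (Fin 2) K)} ≤
        RingHom.ker (MvPolynomial.aeval ![vv K, uu K] :
          MvPolynomial (Fin 2) K →ₐ[K] NodeRing K) := by
      rw [Ideal.span_le, Set.singleton_subset_iff]
      show (MvPolynomial.aeval ![vv K, uu K] :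
          MvPolynomial (Fin 2) K →ₐ[K] NodeRing K) (MvPolynomial.X 0 * MvPolynomial.X 1) = 0
      rw [map_mul, MvPolynomial.aeval_X, MvPolynomial.aeval_X]
      show vv K * uu K = 0
      rw [mul_comm, uu_vv]
    exact h hp)

theorem sw_mk (p : MvPolynomial (Fin 2) K) :
    sw K (Ideal.Quotient.mk _ p) = MvPolynomial.aeval ![vv K, uu K] p := rfl

theorem sw_uu : sw K (uu K) = vv K := by
  unfold uu
  rw [sw_mk, MvPolynomial.aeval_X]
  rfl

theorem sw_vv : sw K (vv K) = uu K := by
  unfold vv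
  rw [sw_mk, MvPolynomial.aeval_X]
  rfl

theorem sw_sw (z : NodeRing K) : sw K (sw K z) = z := by
  obtain ⟨p, rfl⟩ := Ideal.Quotient.mk_surjective z
  induction p using MvPolynomial.induction_on with
  | C c =>
    have h : (Ideal.Quotient.mk (Ideal.span {(MvPolynomial.X 0 * MvPolynomial.X 1 :
        MvPolynomial (Fin 2) K)})) (MvPolynomial.C c) = algebraMap K (NodeRing K) c := rfl
    rw [h, AlgHom.commutes, AlgHom.commutes]
  | add p q hp hq => rw [map_add, map_add, map_add, hp, hq]
  | mul_X p i hp =>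
    rw [map_mul, map_mul, map_mul, hp]
    fin_cases i
    · show _ * sw K (sw K (uu K)) = _ * uu K
      rw [sw_uu, sw_vv]
    · show _ * sw K (sw K (vv K)) = _ * vv K
      rw [sw_vv, sw_uu]

/-- `u + v` is a nonzerodivisor. -/
theorem regular (z : NodeRing K) (h : (uu K + vv K) * z = 0) : z = 0 := by
  have h1 : nu K 0 z = 0 := by
    have h2 := congrArg (nu K 0) h
    rw [map_mul, map_add, nu_uu, nu_vv, map_zero, add_zero] at h2
    refine (mul_eq_zero.mp h2).resolve_left ?_
    rw [add_zero]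
    exact Polynomial.X_ne_zero
  obtain ⟨w, rfl⟩ := dvd_of_nu_eq_zero K z h1
  have h3 : nu K 0 (sw K w) = 0 := by
    have h2 := congrArg (fun t => nu K 0 (sw K t)) h
    simp only [map_mul, map_add, sw_uu, sw_vv, nu_uu, nu_vv, map_zero, zero_add] at h2
    have hne : ¬ (Polynomial.X + 0 : K[X]) = 0 := by
      rw [add_zero]
      exact Polynomial.X_ne_zero
    have h4 := (mul_eq_zero.mp h2).resolve_left hne
    exact (mul_eq_zero.mp h4).resolve_left hne
  obtain ⟨w', hw'⟩ := dvd_of_nu_eq_zero K _ h3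
  have h5 : w = uu K * sw K w' := by
    rw [← sw_sw K w, hw', map_mul, sw_vv]
  rw [h5, ← mul_assoc, mul_comm (vv K), uu_vv, zero_mul]

/-- In a nontrivial flat algebra `u` and `v` are not both nilpotent. -/
theorem not_nilpotent {B : Type} [CommRing B] [Nontrivial B] [Algebra (NodeRing K) B]
    [Module.Flat (NodeRing K) B] : ¬ IsNilpotent (algebraMap (NodeRing K) B (uu K)) ∨
      ¬ IsNilpotent (algebraMap (NodeRing K) B (vv K)) := by
  by_contra hcon
  push Not at hcon
  have h1 : IsNilpotent (algebraMap (NodeRing K) B (uu K + vv K)) := by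
    rw [map_add]
    exact (Commute.all _ _).isNilpotent_add hcon.1 hcon.2
  obtain ⟨m, hm⟩ := h1
  have hreg : uu K + vv K ∈ nonZeroDivisors (NodeRing K) := by
    rw [mem_nonZeroDivisors_iff_right]
    intro z hz
    exact regular K z (by rw [mul_comm]; exact hz)
  have hreg' : (uu K + vv K) ^ m ∈ nonZeroDivisors (NodeRing K) := pow_mem hreg m
  have h2 := Module.Flat.isSMulRegular_of_nonZeroDivisors (M := B) hreg'
  have h3 : (uu K + vv K) ^ m • (1 : B) = (uu K + vv K) ^ m • (0 : B) := by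
    rw [smul_zero, Algebra.smul_def, mul_one, map_pow, hm]
  exact one_ne_zero (h2 h3)

theorem loc_node : @IsLocalization.Away (NodeRing K) _ (uu K) (Lo K 0) _
    ((algebraMap K[X] (Lo K 0)).comp (nu K 0).toRingHom).toAlgebra := by
  let i1 : Algebra (NodeRing K) (Lo K 0) :=
    ((algebraMap K[X] (Lo K 0)).comp (nu K 0).toRingHom).toAlgebra
  have hs : (Polynomial.X + Polynomial.C 0 : K[X]) ≠ 0 := (Polynomial.monic_X_add_C 0).ne_zero
  have hal : ∀ z : NodeRing K, algebraMap (NodeRing K) (Lo K 0) z =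
      algebraMap K[X] (Lo K 0) (nu K 0 z) := fun _ => rfl
  refine (isLocalization_iff _ _).2 ⟨?_, ?_, ?_⟩
  · rintro ⟨_, m, rfl⟩
    show IsUnit (algebraMap (NodeRing K) (Lo K 0) (uu K ^ m))
    rw [hal, map_pow, map_pow, nu_uu]
    exact (IsLocalization.Away.algebraMap_isUnit (S := Lo K 0)
      (Polynomial.X + Polynomial.C 0 : K[X])).pow m
  · intro z
    obtain ⟨m, P, hP⟩ := IsLocalization.Away.surj (Polynomial.X + Polynomial.C 0 : K[X]) z
    refine ⟨(mu K 0 P, ⟨uu K ^ m, m, rfl⟩), ?_⟩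
    show z * algebraMap (NodeRing K) (Lo K 0) (uu K ^ m) =
      algebraMap (NodeRing K) (Lo K 0) (mu K 0 P)
    rw [hal, hal, nu_mu, map_pow, map_pow, nu_uu, hP]
  · intro z z' h
    rw [hal, hal] at h
    have hinj : Function.Injective (algebraMap K[X] (Lo K 0)) :=
      IsLocalization.injective (Lo K 0) (powers_le_nonZeroDivisors_of_noZeroDivisors hs)
    have h1 := hinj h
    refine ⟨⟨uu K, 1, pow_one _⟩, ?_⟩
    show uu K * z = uu K * z'
    rw [uu_mul K 0 z, uu_mul K 0 z', h1]

/-- Étale algebras over the node ring in which `u` is invertible. -/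
theorem etale_of_isUnit {B : Type} [CommRing B] (β : NodeRing K →+* B) (hβ : β.Etale)
    (hu : IsUnit (β (uu K))) :
    (Polynomial.eval₂RingHom (β.comp (algebraMap K (NodeRing K))) (β (uu K)) :
      K[X] →+* B).Etale := by
  let i1 : Algebra (NodeRing K) (Lo K 0) :=
    ((algebraMap K[X] (Lo K 0)).comp (nu K 0).toRingHom).toAlgebra
  have hloc : IsLocalization.Away (uu K) (Lo K 0) := loc_node K
  let β' : Lo K 0 →+* B := IsLocalization.Away.lift (uu K) hu
  have hβ' : ∀ z, β' (algebraMap (NodeRing K) (Lo K 0) z) = β z := fun z =>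
    IsLocalization.Away.lift_eq (uu K) hu z
  have hcomp : β'.comp (algebraMap (NodeRing K) (Lo K 0)) = β := RingHom.ext hβ'
  have h1 : Etale (spMap (algebraMap (NodeRing K) (Lo K 0))) := etale_spMap (et_node K 0)
  have h2 : Etale (spMap β' ≫ spMap (algebraMap (NodeRing K) (Lo K 0))) := by
    have h3 : spMap β' ≫ spMap (algebraMap (NodeRing K) (Lo K 0)) = spMap β := by
      rw [← Spec.map_comp]
      congr 1
      rw [← hcomp]
      rfl
    rw [h3]
    exact etale_spMap hβ
  have h4 : Etale (spMap β') := Etale.of_comp _ (spMap (algebraMap (NodeRing K) (Lo K 0)))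
  have h5 : β'.Etale := (HasRingHomProperty.Spec_iff (P := @Etale)).1 h4
  have h6 : (algebraMap K[X] (Lo K 0)).Etale :=
    RingHom.etale_algebraMap.2 (Algebra.Etale.of_isLocalizationAway
      (Polynomial.X + Polynomial.C 0 : K[X]))
  have h7 := RingHom.Etale.stableUnderComposition _ _ h6 h5
  have h8 : β'.comp (algebraMap K[X] (Lo K 0)) =
      Polynomial.eval₂RingHom (β.comp (algebraMap K (NodeRing K))) (β (uu K)) := by
    have h9 : ∀ P : K[X], β' (algebraMap K[X] (Lo K 0) P) = β (mu K 0 P) := by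
      intro P
      rw [← hβ' (mu K 0 P)]
      show _ = β' (algebraMap K[X] (Lo K 0) (nu K 0 (mu K 0 P)))
      rw [nu_mu]
    apply Polynomial.ringHom_ext
    · intro a
      rw [RingHom.comp_apply, h9, Polynomial.coe_eval₂RingHom, Polynomial.eval₂_C]
      unfold mu
      rw [Polynomial.aeval_C]
      rfl
    · rw [RingHom.comp_apply, h9, Polynomial.coe_eval₂RingHom, Polynomial.eval₂_X]
      unfold mu
      rw [Polynomial.aeval_X, map_zero, sub_zero]
  rw [← h8]
  exact h7

end node

end SmNod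

end Pool.Agent.MG


end

section

/-!
# A smooth nodal curve has relative dimension one
-/

open CategoryTheory CategoryTheory.Limits AlgebraicGeometry TensorProduct
open scoped Polynomial

namespace Pool.Agent.MG

namespace SmNod

open NOD KaehlerDifferential

section rank

variable {K A B : Type} [Field K] [CommRing A] [Algebra K A]

theorem relDim_of_equiv [Algebra.IsStandardSmooth K A] [CommRing B] [Nontrivial B] [Algebra K B]
    [Algebra A B] [IsScalarTower K A B] [Algebra.FormallyEtale A B]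
    (Φ : Ω[B⁄K] ≃ₗ[B] B) : Algebra.IsStandardSmoothOfRelativeDimension 1 K A := by
  have hA : Nontrivial A := (algebraMap A B).domain_nontrivial
  have hss : Algebra.IsStandardSmooth K A := inferInstance
  obtain ⟨-, I, b, -⟩ := Algebra.IsStandardSmooth.iff_exists_basis_kaehlerDifferential.mp hss
  let b1 : Module.Basis I B (B ⊗[A] Ω[A⁄K]) := b.baseChange B
  let b2 : Module.Basis I B (Ω[B⁄K]) := b1.map (tensorKaehlerEquivOfFormallyEtale K A B)
  let b3 : Module.Basis I B B := b2.map Φ
  have e : I ≃ Unit := b3.indexEquiv (Module.Basis.singleton Unit B)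
  rw [Algebra.IsStandardSmoothOfRelativeDimension.iff_of_isStandardSmooth 1]
  have h1 := (b.reindex e).mk_eq_rank
  simpa using h1.symm

theorem relDim_of_node [Algebra.IsStandardSmooth K A] [CommRing B] [Nontrivial B] [Algebra K B]
    [Algebra A B] [IsScalarTower K A B] [Algebra.Etale A B]
    (β : NodeRing K →+* B) (hβ : β.Etale)
    (hK : ∀ c, β (algebraMap K (NodeRing K) c) = algebraMap K B c)
    (hn : ¬ IsNilpotent (β (uu K))) : Algebra.IsStandardSmoothOfRelativeDimension 1 K A := by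
  let L := Localization.Away (β (uu K))
  have hnt : Nontrivial L := by
    by_contra h
    rw [not_nontrivial_iff_subsingleton] at h
    apply hn
    have h1 := IsLocalization.subsingleton_iff (R := B) (S := L) (M := Submonoid.powers (β (uu K)))
    rw [h1] at h
    obtain ⟨m, hm⟩ := h
    exact ⟨m, hm⟩
  have h1 : ((algebraMap B L).comp β).Etale :=
    RingHom.Etale.stableUnderComposition _ _ hβ
      (RingHom.etale_algebraMap.2 (Algebra.Etale.of_isLocalizationAway (β (uu K))))
  have hu : IsUnit (((algebraMap B L).comp β) (uu K)) :=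
    IsLocalization.Away.algebraMap_isUnit (β (uu K))
  have h2 := etale_of_isUnit K ((algebraMap B L).comp β) h1 hu
  have h3 : (Polynomial.eval₂RingHom (((algebraMap B L).comp β).comp
      (algebraMap K (NodeRing K))) (((algebraMap B L).comp β) (uu K)) : K[X] →+* L) =
      (Polynomial.aeval (((algebraMap B L).comp β) (uu K)) : K[X] →ₐ[K] L).toRingHom := by
    apply Polynomial.ringHom_ext
    · intro a
      rw [Polynomial.coe_eval₂RingHom, Polynomial.eval₂_C]
      show algebraMap B L (β (algebraMap K (NodeRing K) a)) =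
        Polynomial.aeval (((algebraMap B L).comp β) (uu K)) (Polynomial.C a)
      rw [hK, Polynomial.aeval_C, ← IsScalarTower.algebraMap_apply]
    · rw [Polynomial.coe_eval₂RingHom, Polynomial.eval₂_X]
      exact (Polynomial.aeval_X _).symm
  rw [h3] at h2
  obtain ⟨Φ, -⟩ := Two.exists_kaehler_equiv _ h2
  have h4 : Algebra.FormallyEtale B L := Algebra.FormallyEtale.of_isLocalization
    (Submonoid.powers (β (uu K)))
  have h5 : Algebra.FormallyEtale A L := Algebra.FormallyEtale.comp A B L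
  exact relDim_of_equiv Φ

theorem relDim [Algebra.IsStandardSmooth K A] [CommRing B] [Nontrivial B] [Algebra K B]
    [Algebra A B] [IsScalarTower K A B] [Algebra.Etale A B]
    (β : NodeRing K →+* B) (hβ : β.Etale)
    (hK : ∀ c, β (algebraMap K (NodeRing K) c) = algebraMap K B c) :
    Algebra.IsStandardSmoothOfRelativeDimension 1 K A := by
  have hflat : @Module.Flat (NodeRing K) B _ _ β.toAlgebra.toModule := by
    let _ := β.toAlgebra
    have h1 : Algebra.Etale (NodeRing K) B := hβ
    infer_instance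
  have hnil : ¬ IsNilpotent (β (uu K)) ∨ ¬ IsNilpotent (β (vv K)) := by
    let _ := β.toAlgebra
    exact not_nilpotent K (B := B)
  rcases hnil with h | h
  · exact relDim_of_node β hβ hK h
  · have hsw : (sw K).toRingHom.Etale := by
      apply RingHom.Etale.of_bijective
      exact ⟨Function.LeftInverse.injective (g := sw K) (sw_sw K),
        Function.RightInverse.surjective (g := sw K) (sw_sw K)⟩
    have h1 := RingHom.Etale.stableUnderComposition _ _ hsw hβ
    refine relDim_of_node (β.comp (sw K).toRingHom) h1 ?_ ?_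
    · intro c
      show β (sw K (algebraMap K (NodeRing K) c)) = _
      rw [AlgHom.commutes, hK]
    · show ¬ IsNilpotent (β (sw K (uu K)))
      rw [sw_uu]
      exact h

end rank

/-- A smooth nodal curve is smooth of relative dimension one. -/
theorem smoothOfRelativeDimension_one {K : Type} [Field K] {X : Scheme.{0}} (π : X ⟶ Sp K)
    [Smooth π] (hnod : Nodal π) : SmoothOfRelativeDimension 1 π := by
  refine ⟨fun x => ?_⟩
  obtain ⟨U, hU, V, hV, hx, e, hsm⟩ := Smooth.exists_isStandardSmooth π x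
  refine ⟨U, hU, V, hV, hx, e, ?_⟩
  have hUtop : U = ⊤ := by
    ext y
    simp only [SetLike.mem_coe, TopologicalSpace.Opens.coe_top, Set.mem_univ, iff_true]
    have h1 : y = π x := Subsingleton.elim _ _
    rw [h1]
    exact e hx
  subst hUtop
  obtain ⟨Y, f, h, hf, hh, hcomm, y, hy⟩ := hnod x
  have hyV : y ∈ f ⁻¹ᵁ V := by
    show f y ∈ V
    rw [hy]; exact hx
  obtain ⟨_, ⟨W, hW, rfl⟩, hyW, hWV⟩ :=
    Y.isBasis_affineOpens.exists_subset_of_mem_open hyV (f ⁻¹ᵁ V).isOpen
  have hle : W ≤ f ⁻¹ᵁ V := hWV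
  have hWne : Nonempty W := ⟨⟨y, hyW⟩⟩
  have hnt : Nontrivial Γ(Y, W) := inferInstance
  -- the algebra structures
  let _ : Algebra K Γ(X, V) := (coef π V).toAlgebra
  let _ : Algebra Γ(X, V) Γ(Y, W) := (f.appLE V W hle).hom.toAlgebra
  let _ : Algebra K Γ(Y, W) := (coef (f ≫ π) W).toAlgebra
  have hst : IsScalarTower K Γ(X, V) Γ(Y, W) := .of_algebraMap_eq' (by
    ext c
    exact (coef_comp π f V W hle c).symm)
  have het : Algebra.Etale Γ(X, V) Γ(Y, W) := f.etale_appLE hV hW hle
  have hkm : coef π V = (π.appLE ⊤ V e).hom.comp (Scheme.ΓSpecIso (.of K)).inv.hom := rfl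
  have hss : Algebra.IsStandardSmooth K Γ(X, V) := by
    have h1 : (coef π V).IsStandardSmooth := by
      rw [hkm]
      exact RingHom.isStandardSmooth_respectsIso.2
        (π.appLE ⊤ V e).hom (Scheme.ΓSpecIso (.of K)).symm.commRingCatIsoToRingEquiv hsm
    exact h1
  let β : NodeRing K →+* Γ(Y, W) := coef h W
  have hβ : β.Etale := by
    have h1 : (h.appLE ⊤ W (fun _ _ => trivial)).hom.Etale :=
      h.etale_appLE (isAffineOpen_top _) hW _
    exact RingHom.Etale.respectsIso.2 (h.appLE ⊤ W (fun _ _ => trivial)).hom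
      (Scheme.ΓSpecIso (.of (NodeRing K))).symm.commRingCatIsoToRingEquiv h1
  have hβK : ∀ c, β (algebraMap K (NodeRing K) c) = algebraMap K Γ(Y, W) c := by
    intro c
    show coef h W (algebraMap K (NodeRing K) c) = coef (f ≫ π) W c
    rw [hcomm, coef_spMap]
  have hrd : Algebra.IsStandardSmoothOfRelativeDimension 1 K Γ(X, V) := relDim β hβ hβK
  have h2 : (coef π V).IsStandardSmoothOfRelativeDimension 1 := hrd
  have h3 := (RingHom.isStandardSmoothOfRelativeDimension_respectsIso (n := 1)).2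
    (coef π V) (Scheme.ΓSpecIso (.of K)).commRingCatIsoToRingEquiv h2
  have h4 : (coef π V).comp (Scheme.ΓSpecIso (.of K)).commRingCatIsoToRingEquiv.toRingHom =
      (π.appLE ⊤ V e).hom := by
    have h5 : (Scheme.ΓSpecIso (.of K)).hom ≫ (Scheme.ΓSpecIso (.of K)).inv ≫
        π.appLE ⊤ V e = π.appLE ⊤ V e := by
      rw [Iso.hom_inv_id_assoc]
    exact congrArg CommRingCat.Hom.hom h5
  rw [← h4]
  exact h3

end SmNod

end Pool.Agent.MG


end

section

/-!
# Local rings of nodal curves: unramified flat local homomorphisms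
-/

open IsLocalRing TensorProduct

namespace Pool.Agent.MG.WL.CL

/-- Flat unramified local homomorphisms, essentially of finite type. -/
structure EU (R S : Type) [CommRing R] [IsLocalRing R] [CommRing S] [IsLocalRing S]
    [Algebra R S] : Prop where
  loc : IsLocalHom (algebraMap R S)
  flat : Module.Flat R S
  unr : Algebra.FormallyUnramified R S
  ess : Algebra.EssFiniteType R S

section EU

variable {R S : Type} [CommRing R] [IsLocalRing R] [CommRing S] [IsLocalRing S] [Algebra R S]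

theorem EU.map_max (h : EU R S) :
    (maximalIdeal R).map (algebraMap R S) = maximalIdeal S := by
  have := h.loc
  have := h.unr
  have := h.ess
  exact Algebra.FormallyUnramified.map_maximalIdeal

theorem EU.noeth (h : EU R S) [IsNoetherianRing R] : IsNoetherianRing S := by
  have := h.ess
  exact Algebra.EssFiniteType.isNoetherianRing R S

theorem EU.ff (h : EU R S) : Module.FaithfullyFlat R S := by
  have := h.flat
  have := h.loc
  exact Module.FaithfullyFlat.of_flat_of_isLocalHom

theorem EU.comap_map (h : EU R S) (I : Ideal R) :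
    (I.map (algebraMap R S)).comap (algebraMap R S) = I := by
  have := h.ff
  exact Ideal.comap_map_eq_self_of_faithfullyFlat I

theorem EU.down (h : EU R S) (P : Ideal R) [P.IsPrime] (Q : Ideal S) [Q.IsPrime]
    (hPQ : P ≤ Q.comap (algebraMap R S)) :
    ∃ Q' : Ideal S, Q'.IsPrime ∧ Q' ≤ Q ∧ Q'.comap (algebraMap R S) = P := by
  have := h.flat
  have : Q.LiesOver (Q.comap (algebraMap R S)) := ⟨rfl⟩
  obtain ⟨Q', h1, h2, h3⟩ := Ideal.exists_ideal_le_liesOver_of_le (p := P)
    (q := Q.comap (algebraMap R S)) Q hPQ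
  exact ⟨Q', h2, h1, h3.over.symm⟩

/-- Minimal primes lie over minimal primes. -/
theorem EU.min_comap (h : EU R S) (Q : Ideal S) (hQ : Q ∈ minimalPrimes S) :
    Q.comap (algebraMap R S) ∈ minimalPrimes R := by
  have hQp : Q.IsPrime := hQ.1.1
  refine ⟨⟨inferInstance, bot_le⟩, fun P hP hPQ => ?_⟩
  have hPp : P.IsPrime := hP.1
  obtain ⟨Q', h1, h2, h3⟩ := h.down P Q hPQ
  have h4 : Q ≤ Q' := hQ.2 ⟨h1, bot_le⟩ h2
  rw [← h3]
  exact Ideal.comap_mono h4

/-- Minimal primes are under minimal primes. -/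
theorem EU.exists_min (h : EU R S) (P : Ideal R) (hP : P ∈ minimalPrimes R) :
    ∃ Q ∈ minimalPrimes S, Q.comap (algebraMap R S) = P := by
  have hPp : P.IsPrime := hP.1.1
  obtain ⟨Q', h1, h2, h3⟩ := h.down P (maximalIdeal S) (by
    have := h.loc
    rw [((local_hom_TFAE (algebraMap R S)).out 0 4 rfl rfl).mp ‹_›]
    exact le_maximalIdeal hPp.ne_top)
  obtain ⟨Q, hQ, hQQ⟩ := Ideal.exists_minimalPrimes_le (I := (⊥ : Ideal S)) (J := Q') bot_le
  refine ⟨Q, hQ, le_antisymm ?_ ?_⟩
  · rw [← h3]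
    exact Ideal.comap_mono hQQ
  · have h5 := h.min_comap Q hQ
    exact hP.2 h5.1 (by rw [← h3]; exact Ideal.comap_mono hQQ)

/-- A local ring which is flat and unramified over a domain is reduced. -/
theorem EU.red (h : EU R S) [IsDomain R] : IsReduced S := by
  have := h.flat
  have := h.unr
  have := h.ess
  let K := FractionRing R
  have h1 : IsReduced (K ⊗[R] S) := by
    exact Algebra.FormallyUnramified.isReduced_of_field K (K ⊗[R] S)
  have h2 : Function.Injective (Algebra.TensorProduct.includeRight : S →ₐ[R] K ⊗[R] S) :=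
    Algebra.TensorProduct.includeRight_injective (IsFractionRing.injective R K)
  exact isReduced_of_injective _ h2

/-- A Noetherian local ring whose maximal ideal is generated by a nonzerodivisor. -/
theorem domain_of_gen {S : Type} [CommRing S] [IsLocalRing S] [IsNoetherianRing S] (t : S)
    (ht : maximalIdeal S = Ideal.span {t}) (hreg : ∀ z : S, t * z = 0 → z = 0) :
    IsDomain S ∧ ∀ Q : Ideal S, Q.IsPrime → Q = ⊥ ∨ Q = maximalIdeal S := by
  have key : ∀ x : S, x ≠ 0 → ∃ (n : ℕ) (w : S), IsUnit w ∧ x = t ^ n * w := by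
    intro x hx
    have h1 : (⨅ i : ℕ, maximalIdeal S ^ i) = ⊥ :=
      Ideal.iInf_pow_eq_bot_of_isLocalRing _ (maximalIdeal.isMaximal S).ne_top
    have h2 : ∃ n, x ∉ maximalIdeal S ^ n := by
      by_contra hcon
      push Not at hcon
      apply hx
      rw [← Ideal.mem_bot, ← h1, Ideal.mem_iInf]
      exact hcon
    classical
    have h3 := Nat.find_spec h2
    have h4 : Nat.find h2 ≠ 0 := by
      intro h0
      rw [h0, pow_zero] at h3
      exact h3 (by rw [Ideal.one_eq_top]; trivial)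
    obtain ⟨m, hm⟩ := Nat.exists_eq_succ_of_ne_zero h4
    have h5 : x ∈ maximalIdeal S ^ m := by
      by_contra hcon
      exact Nat.find_min h2 (m := m) (by omega) hcon
    rw [ht, Ideal.span_singleton_pow, Ideal.mem_span_singleton] at h5
    obtain ⟨w, hw⟩ := h5
    refine ⟨m, w, ?_, hw⟩
    by_contra hwu
    have h6 : w ∈ maximalIdeal S := hwu
    apply h3
    rw [hm, hw, Nat.succ_eq_add_one, pow_succ]
    refine Ideal.mul_mem_mul ?_ h6
    rw [ht, Ideal.span_singleton_pow]
    exact Ideal.mem_span_singleton_self _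
  have hpow : ∀ (n : ℕ) (z : S), t ^ n * z = 0 → z = 0 := by
    intro n
    induction n with
    | zero => intro z hz; rwa [pow_zero, one_mul] at hz
    | succ n ih =>
      intro z hz
      rw [pow_succ, mul_assoc] at hz
      exact hreg z (ih _ hz)
  constructor
  · have hnz : NoZeroDivisors S := by
      refine ⟨fun {a b} hab => ?_⟩
      by_contra hcon
      push Not at hcon
      obtain ⟨n, w, hw, rfl⟩ := key a hcon.1
      apply hcon.2
      refine hw.mul_right_eq_zero.1 (hpow n _ ?_)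
      rw [← mul_assoc, hab]
    exact NoZeroDivisors.to_isDomain S
  · intro Q hQ
    by_cases h : Q = ⊥
    · exact Or.inl h
    right
    obtain ⟨x, hx, hx0⟩ := Submodule.exists_mem_ne_zero_of_ne_bot h
    obtain ⟨n, w, hw, rfl⟩ := key x hx0
    have h1 : t ^ n ∈ Q := by
      obtain ⟨w', rfl⟩ := hw
      have := Q.mul_mem_right (↑w'⁻¹ : S) hx
      rwa [mul_assoc, Units.mul_inv, mul_one] at this
    have h2 : t ∈ Q := hQ.mem_of_pow_mem _ h1
    refine le_antisymm (le_maximalIdeal hQ.ne_top) ?_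
    rw [ht, Ideal.span_singleton_le_iff_mem]
    exact h2

/-- A local ring which is flat and unramified over a local principal ideal domain. -/
theorem EU.pid (h : EU R S) [IsDomain R] [IsPrincipalIdealRing R] :
    (IsDomain S ∧ ∀ Q : Ideal S, Q.IsPrime → Q = ⊥ ∨ Q = maximalIdeal S) ∧
      ∃ t, maximalIdeal S = Ideal.span {t} := by
  have := h.flat
  have hS : IsNoetherianRing S := h.noeth
  obtain ⟨t, ht⟩ := (IsPrincipalIdealRing.principal (maximalIdeal R)).principal
  have ht' : maximalIdeal S = Ideal.span {algebraMap R S t} := by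
    rw [← h.map_max, ht, Ideal.submodule_span_eq, Ideal.map_span, Set.image_singleton]
  refine ⟨?_, _, ht'⟩
  by_cases h0 : t = 0
  · have hb : maximalIdeal S = ⊥ := by
      rw [ht', h0, map_zero, Ideal.span_singleton_eq_bot]
    have hf : IsField S := isField_iff_maximalIdeal_eq.2 hb
    refine ⟨hf.isDomain, fun Q hQ => Or.inl ?_⟩
    rw [eq_bot_iff, ← hb]
    exact le_maximalIdeal hQ.ne_top
  · refine domain_of_gen _ ht' fun z hz => ?_
    have h1 := Module.Flat.isSMulRegular_of_nonZeroDivisors (M := S)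
      (mem_nonZeroDivisors_of_ne_zero h0)
    apply h1
    change t • z = t • 0
    rw [smul_zero, Algebra.smul_def, hz]

end EU

end Pool.Agent.MG.WL.CL


end

section

/-!
# Smooth curves of genus two are curves `y² = f(x)`: statements
-/

open CategoryTheory CategoryTheory.Limits AlgebraicGeometry TensorProduct

namespace Pool.Agent.MG.H2

open Pool.Agent.MG.Two

/-! ## A function of degree two -/

/-- Ring data of a curve of genus two at a point `p`: `R1` = functions away from `p`, `R2` =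
functions near `p`, `z` = a coordinate at `p`, `R12` = `R2[1/z]`. -/
structure PD (k R1 R2 R12 : Type) [Field k] [CommRing R1] [CommRing R2] [CommRing R12] where
  c1 : k →+* R1
  c2 : k →+* R2
  c12 : k →+* R12
  j1 : R1 →+* R12
  j2 : R2 →+* R12
  jc1 : ∀ c, j1 (c1 c) = c12 c
  jc2 : ∀ c, j2 (c2 c) = c12 c
  inj1 : Function.Injective j1
  inj2 : Function.Injective j2
  z : R2
  zi : R12
  hz : j2 z * zi = 1
  ev : R2 →+* k
  evc : ∀ c, ev (c2 c) = c
  evz : ev z = 0
  evk : ∀ r, ev r = 0 → ∃ s, r = z * s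
  loc : ∀ r : R12, ∃ (n : ℕ) (s : R2), j2 z ^ n * r = j2 s
  h0 : ∀ a b, j1 a = j2 b → ∃ c, a = c1 c
  L : R12 → (Fin 2 → k)
  Ladd : ∀ r s, L (r + s) = L r + L s
  Lc : ∀ c r, L (c12 c * r) = c • L r
  L0 : ∀ r, L r = 0 ↔ ∃ a b, r = j1 a + j2 b
  Ls : Function.Surjective L

/-- The field `K` is a quadratic extension of `k(x)`, `x` transcendental, generated by `y` with
`y² = f(x)`, or it is equal to `k(x)`. -/
structure Quad {k K : Type} [Field k] [Field K] (c : k →+* K) (x y : K) (f : Polynomial k) :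
    Prop where
  eq : y ^ 2 = f.eval₂ c x
  tr : Function.Injective (Polynomial.eval₂RingHom c x)
  gen : ∀ z : K, ∃ p q d : Polynomial k, d ≠ 0 ∧
    d.eval₂ c x * z = p.eval₂ c x + q.eval₂ c x * y

/-- EPD: the field of fractions of point data of genus two is quadratic over some `k(x)`. -/
def Stmt_EPD : Prop :=
  ∀ {k R1 R2 R12 : Type} [Field k] [CharZero k] [CommRing R1] [IsDomain R1] [CommRing R2]
    [CommRing R12] (D : PD k R1 R2 R12) (K : Type) [Field K] [Algebra R1 K] [IsFractionRing R1 K],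
    ∃ (x y : K) (f : Polynomial k), Quad ((algebraMap R1 K).comp D.c1) x y f

/-- EGD: point data of a curve. -/
def Stmt_EGD : Prop :=
  ∀ {X : Scheme.{0}} {k : Type} [Field k] (π : X ⟶ Sp k) [IsIntegral X] [IsAlgClosed k]
    [CharZero k] [IsProper π] [SmoothOfRelativeDimension 1 π], HasGenus π 2 →
    ∃ (V U : X.Opens) (_ : Nonempty V) (_ : IsAffineOpen V)
      (D : PD k Γ(X, V) Γ(X, U) Γ(X, V ⊓ U)), D.c1 = coef π V

/-- EQD: the function field of a curve of genus two is quadratic over some `k(x)`. -/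
def Stmt_EQD : Prop :=
  ∀ {X : Scheme.{0}} {k : Type} [Field k] (π : X ⟶ Sp k) [IsIntegral X] [IsAlgClosed k]
    [CharZero k] [IsProper π] [SmoothOfRelativeDimension 1 π], HasGenus π 2 →
    ∃ (x y : X.functionField) (f : Polynomial k), Quad (kfun π) x y f

/-- ESQ: the polynomial `f` can be made squarefree: a product of an even number of linear forms
`a x + b`, pairwise not proportional. -/
def Stmt_ESQ : Prop :=
  ∀ {k K : Type} [Field k] [IsAlgClosed k] [CharZero k] [Field K] (c : k →+* K) (x y : K)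
    (f : Polynomial k), Quad c x y f →
    ∃ (m : ℕ) (a b : Fin (2 * m) → k) (y' : K), (∀ i j, i ≠ j → a i * b j - a j * b i ≠ 0) ∧
      Quad c x y' (∏ i, (Polynomial.C (a i) * Polynomial.X + Polynomial.C (b i)))

/-- EMB: a change of the coordinate `x ↦ 1/(x - c)` moves the roots away from infinity. -/
def Stmt_EMB : Prop :=
  ∀ {k K : Type} [Field k] [IsAlgClosed k] [CharZero k] [Field K] (c : k →+* K) (x y : K) (m : ℕ)
    (a b : Fin (2 * m) → k), (∀ i j, i ≠ j → a i * b j - a j * b i ≠ 0) →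
    Quad c x y (∏ i, (Polynomial.C (a i) * Polynomial.X + Polynomial.C (b i))) →
    ∃ (x' y' : K) (r : Fin (2 * m) → k), Function.Injective r ∧
      Quad c x' y' (∏ i, (Polynomial.X - Polynomial.C (r i)))

/-! ## The rings of the charts -/

/-- EIC: the integral closure of `k[x]`. -/
def Stmt_EIC : Prop :=
  ∀ {k K : Type} [Field k] [CharZero k] [Field K] (c : k →+* K) (x y : K)
    (f : Polynomial k), Quad c x y f → Squarefree f → ∀ z : K,
    (Polynomial.eval₂RingHom c x).IsIntegralElem z ↔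
      ∃ p q : Polynomial k, z = p.eval₂ c x + q.eval₂ c x * y

/-- EIN: the chart at infinity of the field. -/
def Stmt_EIN : Prop :=
  ∀ {k K : Type} [Field k] [Field K] (c : k →+* K) (x y : K) (m : ℕ) (a b : Fin (2 * m) → k),
    (∀ i j, i ≠ j → a i * b j - a j * b i ≠ 0) →
    Quad c x y (∏ i, (Polynomial.C (a i) * Polynomial.X + Polynomial.C (b i))) →
    Squarefree (∏ i, (Polynomial.C (a i) * Polynomial.X + Polynomial.C (b i))) ∧
    Squarefree (∏ i, (Polynomial.C (b i) * Polynomial.X + Polynomial.C (a i))) ∧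
    Quad c x⁻¹ (y * x⁻¹ ^ m) (∏ i, (Polynomial.C (b i) * Polynomial.X + Polynomial.C (a i)))

/-- EUN: uniqueness of the representation. -/
def Stmt_EUN : Prop :=
  ∀ {k K : Type} [Field k] [CharZero k] [Field K] (c : k →+* K) (x y : K) (m : ℕ)
    (a b : Fin (2 * m) → k), 1 ≤ m → (∀ i j, i ≠ j → a i * b j - a j * b i ≠ 0) →
    Quad c x y (∏ i, (Polynomial.C (a i) * Polynomial.X + Polynomial.C (b i))) →
    ∀ p q : Polynomial k, p.eval₂ c x + q.eval₂ c x * y = 0 → p = 0 ∧ q = 0

/-- EDM: the rational functions which are regular on the domain of `x` are the functions which are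
integral over `k[x]`. -/
def Stmt_EDM : Prop :=
  ∀ {X : Scheme.{0}} {k : Type} [Field k] (π : X ⟶ Sp k) [IsIntegral X] [IsAlgClosed k]
    [CharZero k] [IsProper π] [SmoothOfRelativeDimension 1 π] (x : X.functionField), Transc π x →
    IsAffineOpen (dom x) ∧ IsAffineOpen (dom x⁻¹) ∧ dom x ⊔ dom x⁻¹ = ⊤ ∧
    (∀ z : X.functionField, (Polynomial.eval₂RingHom (kfun π) x).IsIntegralElem z ↔
      ∃ s : Γ(X, dom x), X.germToFunctionField (dom x) s = z) ∧
    (∀ [Nonempty (dom x ⊓ dom x⁻¹ : X.Opens)] (s : Γ(X, dom x ⊓ dom x⁻¹)),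
      ∃ (N : ℕ) (t : Γ(X, dom x)),
      x ^ N * X.germToFunctionField (dom x ⊓ dom x⁻¹) s = X.germToFunctionField (dom x) t)

/-! ## The genus -/

/-- ECN: the number of the linear forms is six. -/
def Stmt_ECN : Prop :=
  ∀ {k K : Type} [Field k] [CharZero k] [Field K] (c : k →+* K) (x y : K) (m : ℕ),
    x ≠ 0 → (m = 0 → y ^ 2 = 1) →
    (1 ≤ m → ∀ p q : Polynomial k, p.eval₂ c x + q.eval₂ c x * y = 0 → p = 0 ∧ q = 0) →
    ∀ (L : K → (Fin 2 → k))
    (_ : ∀ z w, (∃ (N : ℕ) (p q : Polynomial k), x ^ N * z = p.eval₂ c x + q.eval₂ c x * y) →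
      (∃ (N : ℕ) (p q : Polynomial k), x ^ N * w = p.eval₂ c x + q.eval₂ c x * y) →
      L (z + w) = L z + L w)
    (_ : ∀ a z, (∃ (N : ℕ) (p q : Polynomial k), x ^ N * z = p.eval₂ c x + q.eval₂ c x * y) →
      L (c a * z) = a • L z)
    (_ : ∀ z, (∃ (N : ℕ) (p q : Polynomial k), x ^ N * z = p.eval₂ c x + q.eval₂ c x * y) →
      (L z = 0 ↔ ∃ p q p' q' : Polynomial k, z = (p.eval₂ c x + q.eval₂ c x * y) +
        (p'.eval₂ c x⁻¹ + q'.eval₂ c x⁻¹ * (y * x⁻¹ ^ m))))
    (_ : ∀ v, ∃ z, (∃ (N : ℕ) (p q : Polynomial k), x ^ N * z = p.eval₂ c x + q.eval₂ c x * y) ∧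
      L z = v), m = 3

/-- The coefficients of `∏ (a i x + b i)`. -/
noncomputable def prod6 {k : Type} [CommRing k] (a b : Fin 6 → k) : Fin 7 → k :=
  fun j => (∏ i, (Polynomial.C (a i) * Polynomial.X + Polynomial.C (b i))).coeff j

/-! ## The isomorphism -/

/-- EIS: the curve is glued from its charts. -/
def Stmt_EIS : Prop :=
  ∀ {k : Type} [Field k] (C : Fam 0 k) [IsIntegral C.X] [IsSeparated C.π]
    (x y : C.X.functionField) (f : Fin 7 → k), x ≠ 0 →
    IsAffineOpen (dom x) → IsAffineOpen (dom x⁻¹) → dom x ⊔ dom x⁻¹ = ⊤ →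
    y ^ 2 = pol (fun i => kfun C.π (f i)) x → Transc C.π x →
    (∀ p q : Polynomial k, p.eval₂ (kfun C.π) x + q.eval₂ (kfun C.π) x * y = 0 →
      p = 0 ∧ q = 0) →
    (∀ z : C.X.functionField, (∃ s : Γ(C.X, dom x), C.X.germToFunctionField (dom x) s = z) ↔
      ∃ p q : Polynomial k, z = p.eval₂ (kfun C.π) x + q.eval₂ (kfun C.π) x * y) →
    (∀ z : C.X.functionField,
      (∃ s : Γ(C.X, dom x⁻¹), C.X.germToFunctionField (dom x⁻¹) s = z) ↔
      ∃ p q : Polynomial k, z = p.eval₂ (kfun C.π) x⁻¹ +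
        q.eval₂ (kfun C.π) x⁻¹ * (y * x⁻¹ ^ 3)) →
    ∃ a : Arrow (RingHom.id k) C (Hyp f), IsIso a.f

/-- E: smooth curves of genus two are curves `y² = f(x)`. -/
def Stmt_E : Prop :=
  ∀ {k : Type} [Field k] [IsAlgClosed k] [CharZero k] (C : Fam 0 k), IsStable 2 C →
    SmoothOfRelativeDimension 1 C.π →
    ∃ a b : Fin 6 → k, (∀ i j, i ≠ j → a i * b j - a j * b i ≠ 0) ∧
      ∃ f : Arrow (RingHom.id k) C (Hyp (prod6 a b)), IsIso f.f

end Pool.Agent.MG.H2


end

section

/-!
# Point data of genus two: calculus of pole orders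
-/

open Polynomial

namespace Pool.Agent.MG.H2

namespace EPD

section field

variable {k K : Type} [Field k] [Field K]

/-- The elements of `k(x) + k(x) y`. -/
def GG (c : k →+* K) (x y z : K) : Prop :=
  ∃ p q d : k[X], d ≠ 0 ∧ d.eval₂ c x * z = p.eval₂ c x + q.eval₂ c x * y

variable {c : k →+* K} {x y : K} {f : k[X]}

lemma GG.poly (p : k[X]) : GG c x y (p.eval₂ c x) := ⟨p, 0, 1, one_ne_zero, by simp⟩

lemma GG.gx : GG c x y x := by
  have := GG.poly (c := c) (x := x) (y := y) X
  rwa [eval₂_X] at this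

lemma GG.gc (a : k) : GG c x y (c a) := by
  have := GG.poly (c := c) (x := x) (y := y) (C a)
  rwa [eval₂_C] at this

lemma GG.gy : GG c x y y := ⟨0, 1, 1, one_ne_zero, by simp⟩

lemma GG.add {z w : K} (hz : GG c x y z) (hw : GG c x y w) : GG c x y (z + w) := by
  obtain ⟨p, q, d, hd, h⟩ := hz
  obtain ⟨p', q', d', hd', h'⟩ := hw
  refine ⟨d' * p + d * p', d' * q + d * q', d * d', mul_ne_zero hd hd', ?_⟩
  simp only [eval₂_add, eval₂_mul]
  linear_combination d'.eval₂ c x * h + d.eval₂ c x * h'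

lemma GG.mul (he : y ^ 2 = f.eval₂ c x) {z w : K} (hz : GG c x y z) (hw : GG c x y w) :
    GG c x y (z * w) := by
  obtain ⟨p, q, d, hd, h⟩ := hz
  obtain ⟨p', q', d', hd', h'⟩ := hw
  refine ⟨p * p' + q * q' * f, p * q' + q * p', d * d', mul_ne_zero hd hd', ?_⟩
  simp only [eval₂_add, eval₂_mul]
  linear_combination d'.eval₂ c x * w * h + (p.eval₂ c x + q.eval₂ c x * y) * h' +
    q.eval₂ c x * q'.eval₂ c x * he

lemma GG.pow (he : y ^ 2 = f.eval₂ c x) {z : K} (hz : GG c x y z) (n : ℕ) :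
    GG c x y (z ^ n) := by
  induction n with
  | zero =>
    have := GG.gc (c := c) (x := x) (y := y) 1
    rwa [map_one, ← pow_zero z] at this
  | succ n ih =>
    rw [pow_succ]
    exact ih.mul he hz

lemma GG.inv [CharZero k] (he : y ^ 2 = f.eval₂ c x)
    (tr : Function.Injective (Polynomial.eval₂RingHom c x)) {z : K} (hz : GG c x y z) :
    GG c x y z⁻¹ := by
  have hne : ∀ p : k[X], p ≠ 0 → p.eval₂ c x ≠ 0 := by
    intro p hp h
    apply hp
    apply tr
    rw [map_zero, coe_eval₂RingHom, h]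
  by_cases h0 : z = 0
  · rw [h0, inv_zero]
    have := GG.gc (c := c) (x := x) (y := y) 0
    rwa [map_zero] at this
  obtain ⟨p, q, d, hd, h⟩ := hz
  have hs : d.eval₂ c x * z ≠ 0 := mul_ne_zero (hne d hd) h0
  have hzi : z * z⁻¹ = 1 := mul_inv_cancel₀ h0
  by_cases hm : p.eval₂ c x - q.eval₂ c x * y = 0
  · have h2 : d.eval₂ c x * z = 2 * p.eval₂ c x := by linear_combination h - hm
    refine ⟨d, 0, 2 * p, ?_, ?_⟩
    · intro hp
      apply hs
      rw [h2]
      have : (2 * p).eval₂ c x = 0 := by rw [hp, eval₂_zero]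
      rwa [eval₂_mul, eval₂_ofNat] at this
    · rw [eval₂_mul, eval₂_ofNat, eval₂_zero, zero_mul, add_zero]
      linear_combination -z⁻¹ * h2 + d.eval₂ c x * hzi
  · have hN : (p ^ 2 - q ^ 2 * f).eval₂ c x =
        (p.eval₂ c x + q.eval₂ c x * y) * (p.eval₂ c x - q.eval₂ c x * y) := by
      simp only [eval₂_sub, eval₂_mul, eval₂_pow]
      linear_combination q.eval₂ c x ^ 2 * he
    refine ⟨d * p, -(d * q), p ^ 2 - q ^ 2 * f, ?_, ?_⟩
    · intro h3
      rw [h3, eval₂_zero, ← h] at hN
      exact mul_ne_zero hs hm hN.symm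
    · rw [hN]
      simp only [eval₂_neg, eval₂_mul]
      linear_combination -(p.eval₂ c x - q.eval₂ c x * y) * z⁻¹ * h +
        d.eval₂ c x * (p.eval₂ c x - q.eval₂ c x * y) * hzi

/-- The field of fractions of a ring of elements of `k(x) + k(x) y`. -/
theorem quad_of [CharZero k] {R : Type} [CommRing R] [IsDomain R] [Algebra R K]
    [IsFractionRing R K] (he : y ^ 2 = f.eval₂ c x)
    (tr : Function.Injective (Polynomial.eval₂RingHom c x))
    (hR : ∀ r : R, GG c x y (algebraMap R K r)) : Quad c x y f := by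
  refine ⟨he, tr, fun z => ?_⟩
  obtain ⟨r, s, hs, rfl⟩ := IsFractionRing.div_surjective (A := R) z
  have := (hR r).mul he ((hR s).inv he tr)
  rwa [← div_eq_mul_inv] at this

end field

/-- A vector of `k²` which is not a multiple of `v`. -/
lemma exists_not_mul {k : Type} [Field k] (v : Fin 2 → k) : ∃ w : Fin 2 → k, ∀ c : k, w ≠ c • v := by
  by_cases h : v 0 = 0
  · refine ⟨![1, 0], fun c hc => ?_⟩
    have := congrFun hc 0
    simp [h] at this
  · refine ⟨![0, 1], fun c hc => ?_⟩
    have h0 := congrFun hc 0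
    have h1 := congrFun hc 1
    simp only [Matrix.cons_val_zero, Matrix.cons_val_one, Pi.smul_apply, smul_eq_mul] at h0 h1
    have hc0 : c = 0 := by
      rcases mul_eq_zero.1 h0.symm with h2 | h2
      · exact h2
      · exact absurd h2 h
    rw [hc0, zero_mul] at h1
    exact one_ne_zero h1

/-- Two independent vectors generate `k²`. -/
lemma exists_comb {k : Type} [Field k] (v w : Fin 2 → k)
    (h : ∀ a b : k, a • v + b • w = 0 → a = 0 ∧ b = 0) (u : Fin 2 → k) :
    ∃ a b : k, u = a • v + b • w := by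
  have hd : v 0 * w 1 - v 1 * w 0 ≠ 0 := by
    intro hd
    have h1 := h (w 1) (-(v 1)) (by
      funext i
      fin_cases i
      · simp only [Fin.zero_eta, Pi.add_apply, Pi.smul_apply, smul_eq_mul, Pi.zero_apply]
        linear_combination hd
      · simp only [Fin.mk_one, Pi.add_apply, Pi.smul_apply, smul_eq_mul, Pi.zero_apply]
        ring)
    have h2 := h (w 0) (-(v 0)) (by
      funext i
      fin_cases i
      · simp only [Fin.zero_eta, Pi.add_apply, Pi.smul_apply, smul_eq_mul, Pi.zero_apply]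
        ring
      · simp only [Fin.mk_one, Pi.add_apply, Pi.smul_apply, smul_eq_mul, Pi.zero_apply]
        linear_combination -hd)
    have hv : v = 0 := by
      funext i
      fin_cases i
      · simpa using h2.2
      · simpa using h1.2
    have h3 := h 1 0 (by rw [hv, smul_zero, zero_smul, add_zero])
    exact one_ne_zero h3.1
  refine ⟨(u 0 * w 1 - u 1 * w 0) / (v 0 * w 1 - v 1 * w 0),
    (v 0 * u 1 - v 1 * u 0) / (v 0 * w 1 - v 1 * w 0), ?_⟩
  funext i
  fin_cases i
  · simp only [Fin.zero_eta, Pi.add_apply, Pi.smul_apply, smul_eq_mul]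
    rw [div_mul_eq_mul_div, div_mul_eq_mul_div, ← add_div, eq_div_iff hd]
    ring
  · simp only [Fin.mk_one, Pi.add_apply, Pi.smul_apply, smul_eq_mul]
    rw [div_mul_eq_mul_div, div_mul_eq_mul_div, ← add_div, eq_div_iff hd]
    ring

end EPD

end Pool.Agent.MG.H2


end

section

/-!
# EIC: the integral closure of `k[x]` in a quadratic extension of `k(x)`
-/

namespace Pool.Agent.MG.H2

namespace EICaux

open Polynomial

section

variable {A F K : Type} [CommRing A] [IsDomain A] [IsIntegrallyClosed A]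
  [DecompositionMonoid A] [Field F] [Field K] [Algebra A F] [IsFractionRing A F]
  [Algebra A K] [Algebra F K] [IsScalarTower A F K]

theorem coeff1 {F : Type} [Field F] (a b : F) :
    (X ^ 2 + (C a * X + C b) : F[X]).coeff 1 = a := by
  rw [coeff_add, coeff_add, coeff_X_pow, coeff_C_mul, coeff_X_one, coeff_C]
  simp

theorem coeff0 {F : Type} [Field F] (a b : F) :
    (X ^ 2 + (C a * X + C b) : F[X]).coeff 0 = b := by
  rw [coeff_add, coeff_add, coeff_X_pow, coeff_C_mul, coeff_X_zero, coeff_C]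
  simp

/-- An element of the fraction field which is integral in `K` is in `A`. -/
theorem mem_of_integral (z : F) (hi : IsIntegral A (algebraMap F K z)) :
    ∃ p : A, z = algebraMap A F p := by
  have h1 : IsIntegral A z :=
    (isIntegral_algebraMap_iff (algebraMap F K).injective).1 hi
  obtain ⟨p, hp⟩ := IsIntegrallyClosed.isIntegral_iff.1 h1
  exact ⟨p, hp.symm⟩

theorem core (i2 : A) (h2 : 2 * i2 = 1) (f : A) (hf : Squarefree f) (y : K)
    (hy : y ^ 2 = algebraMap A K f) (P Q : F) (z : K)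
    (hz : z = algebraMap F K P + algebraMap F K Q * y) (hi : IsIntegral A z) :
    ∃ p q : A, z = algebraMap A K p + algebraMap A K q * y := by
  have inF : (∃ w : F, z = algebraMap F K w) →
      ∃ p q : A, z = algebraMap A K p + algebraMap A K q * y := by
    rintro ⟨w, hw⟩
    rw [hw] at hi
    obtain ⟨p, hp⟩ := mem_of_integral w hi
    refine ⟨p, 0, ?_⟩
    rw [hw, hp, ← IsScalarTower.algebraMap_apply, map_zero, zero_mul, add_zero]
  by_cases hzF : ∃ w : F, z = algebraMap F K w
  · exact inF hzF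
  have hf0 : f ≠ 0 := hf.ne_zero
  have fF : algebraMap A F f ≠ 0 := by
    intro h
    exact hf0 ((IsFractionRing.injective A F) (by rw [h, map_zero]))
  -- the minimal polynomial
  set m : F[X] := X ^ 2 + (C (-(2 * P)) * X + C (P ^ 2 - Q ^ 2 * algebraMap A F f)) with hm
  have mdeg : (C (-(2 * P)) * X + C (P ^ 2 - Q ^ 2 * algebraMap A F f)).degree <
      ((2 : ℕ) : WithBot ℕ) := by
    refine lt_of_le_of_lt degree_linear_le ?_
    norm_num
  have mmonic : m.Monic := monic_X_pow_add (n := 2) mdeg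
  have mnat : m.natDegree = 2 := by
    rw [hm]
    exact natDegree_eq_of_degree_eq_some (by
      rw [degree_add_eq_left_of_degree_lt]
      · exact degree_X_pow 2
      · rw [degree_X_pow]
        exact mdeg)
  have mz : aeval z m = 0 := by
    have e1 : algebraMap F K (algebraMap A F f) = y ^ 2 := by
      rw [← IsScalarTower.algebraMap_apply, hy]
    rw [hm]
    simp only [map_add, map_mul, map_pow, aeval_X, aeval_C, map_neg, map_sub, e1, map_ofNat]
    rw [hz]
    ring
  have zF : IsIntegral F z := hi.tower_top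
  have hdvd : minpoly F z ∣ m := minpoly.dvd F z mz
  have hdeg : 2 ≤ (minpoly F z).natDegree := by
    rw [minpoly.two_le_natDegree_iff zF]
    rintro ⟨w, hw⟩
    exact hzF ⟨w, hw.symm⟩
  have heq : m = minpoly F z := by
    refine eq_of_monic_of_dvd_of_natDegree_le (minpoly.monic zF) mmonic hdvd ?_
    rw [mnat]
    exact hdeg
  have hmap : minpoly F z = (minpoly A z).map (algebraMap A F) :=
    minpoly.isIntegrallyClosed_eq_field_fractions' F hi
  have c1 : -(2 * P) = algebraMap A F ((minpoly A z).coeff 1) := by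
    rw [← coeff_map, ← hmap, ← heq, hm, coeff1]
  have c0 : P ^ 2 - Q ^ 2 * algebraMap A F f = algebraMap A F ((minpoly A z).coeff 0) := by
    rw [← coeff_map, ← hmap, ← heq, hm, coeff0]
  have h2' : (2 : F) * algebraMap A F i2 = 1 := by
    have := congrArg (algebraMap A F) h2
    rwa [map_mul, map_ofNat, map_one] at this
  obtain ⟨P0, hP0⟩ : ∃ P0 : A, P = algebraMap A F P0 := by
    refine ⟨-(i2 * (minpoly A z).coeff 1), ?_⟩
    rw [map_neg, map_mul, ← c1]
    linear_combination (-P) * h2'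
  obtain ⟨g, hg⟩ : ∃ g : A, Q ^ 2 * algebraMap A F f = algebraMap A F g := by
    refine ⟨P0 ^ 2 - (minpoly A z).coeff 0, ?_⟩
    rw [map_sub, map_pow, ← hP0, ← c0]
    ring
  obtain ⟨h, hh⟩ : ∃ h : A, Q * algebraMap A F f = algebraMap A F h := by
    have hint : IsIntegral A ((Q * algebraMap A F f) ^ 2) := by
      have e : (Q * algebraMap A F f) ^ 2 = algebraMap A F (g * f) := by
        rw [map_mul, ← hg]
        ring
      rw [e]
      exact isIntegral_algebraMap
    have hint2 : IsIntegral A (Q * algebraMap A F f) := hint.of_pow (by norm_num)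
    obtain ⟨p, hp⟩ := IsIntegrallyClosed.isIntegral_iff.1 hint2
    exact ⟨p, hp.symm⟩
  have hsq : h ^ 2 = g * f := by
    apply IsFractionRing.injective A F
    rw [map_pow, map_mul, ← hh, ← hg]
    ring
  have hdiv : f ∣ h := by
    rw [← hf.dvd_pow_iff_dvd (n := 2) (by norm_num), hsq]
    exact Dvd.intro_left g rfl
  obtain ⟨q, rfl⟩ := hdiv
  have hQ : Q = algebraMap A F q := by
    have : Q * algebraMap A F f = algebraMap A F q * algebraMap A F f := by
      rw [hh, map_mul, mul_comm]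
    exact mul_right_cancel₀ fF this
  refine ⟨P0, q, ?_⟩
  rw [hz, hP0, hQ, ← IsScalarTower.algebraMap_apply, ← IsScalarTower.algebraMap_apply]

end

/-- The implication from left to right. -/
theorem forward {k K : Type} [Field k] [CharZero k] [Field K] (c : k →+* K) (x y : K)
    (f : Polynomial k) (h : Quad c x y f) (hf : Squarefree f) (z : K)
    (hz : (Polynomial.eval₂RingHom c x).IsIntegralElem z) :
    ∃ p q : Polynomial k, z = p.eval₂ c x + q.eval₂ c x * y := by
  letI : Algebra k[X] K := (Polynomial.eval₂RingHom c x).toAlgebra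
  have ea : ∀ p : k[X], algebraMap k[X] K p = p.eval₂ c x := fun p => rfl
  haveI : FaithfulSMul k[X] K := (faithfulSMul_iff_algebraMap_injective _ _).2 h.tr
  letI : Algebra (FractionRing k[X]) K := FractionRing.liftAlgebra k[X] K
  haveI : IsScalarTower k[X] (FractionRing k[X]) K := FractionRing.isScalarTower_liftAlgebra k[X] K
  obtain ⟨p, q, d, hd, hpq⟩ := h.gen z
  rw [← ea, ← ea, ← ea] at hpq
  have hdF : algebraMap k[X] (FractionRing k[X]) d ≠ 0 := by
    intro h0
    exact hd ((IsFractionRing.injective k[X] (FractionRing k[X])) (by rw [h0, map_zero]))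
  have hdK : algebraMap k[X] K d ≠ 0 := by
    rw [IsScalarTower.algebraMap_apply k[X] (FractionRing k[X]) K]
    exact (_root_.map_ne_zero _).2 hdF
  obtain ⟨a, b, hab⟩ := core (A := k[X]) (F := FractionRing k[X]) (K := K) (C (2⁻¹ : k))
    (by
      have h2 : (2 : k) ≠ 0 := two_ne_zero
      rw [← C_ofNat, ← C_mul, mul_inv_cancel₀ h2, C_1])
    f hf y (by rw [ea]; exact h.eq)
    (algebraMap k[X] (FractionRing k[X]) p / algebraMap k[X] (FractionRing k[X]) d)
    (algebraMap k[X] (FractionRing k[X]) q / algebraMap k[X] (FractionRing k[X]) d) z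
    (by
      rw [map_div₀, map_div₀, ← IsScalarTower.algebraMap_apply, ← IsScalarTower.algebraMap_apply,
        ← IsScalarTower.algebraMap_apply]
      field_simp
      linear_combination hpq)
    hz
  exact ⟨a, b, hab⟩

/-- The implication from right to left. -/
theorem backward {k K : Type} [Field k] [Field K] (c : k →+* K) (x y : K)
    (f : Polynomial k) (h : Quad c x y f) (p q : Polynomial k) :
    (Polynomial.eval₂RingHom c x).IsIntegralElem (p.eval₂ c x + q.eval₂ c x * y) := by
  have hy : (Polynomial.eval₂RingHom c x).IsIntegralElem y := by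
    refine ⟨X ^ 2 - C f, monic_X_pow_sub_C f (by norm_num), ?_⟩
    rw [eval₂_sub, eval₂_pow, eval₂_X, eval₂_C, h.eq]
    simp
  have hp : ∀ r : k[X], (Polynomial.eval₂RingHom c x).IsIntegralElem (r.eval₂ c x) := fun r =>
    RingHom.isIntegralElem_map _
  exact (hp p).add _ ((hp q).mul _ hy)

end EICaux

/-- EIC: the integral closure of `k[x]`. -/
theorem t_EIC : Stmt_EIC := by
  intro k K _ _ _ c x y f h hf z
  constructor
  · exact EICaux.forward c x y f h hf z
  · rintro ⟨p, q, rfl⟩
    exact EICaux.backward c x y f h p q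

end Pool.Agent.MG.H2


end
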