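import Mathlib
import Pool.Agent.KDM.C02

/-! Parts: MG.G0.PBC, MG.G0.StmtsR, MG.G0.SCDef, MG.G0.ZL.L1, MG.G0.ZL.L2, MG.G0.ZL.L3, MG.G0.ZL.L4, MG.G0.ZL.L5, MG.G0.StmtsG, MG.G0.GFS, MG.G0.GNO, MG.G0.GTT, MG.G0.RIN, MG.G0.ZL.L6, MG.G0.ZL.L7, MG.G0.ZL.NW -/

section

/-!
# PBC: base change of `Perp`
-/

namespace Pool.Agent.MG.G0

namespace PBCx

variable {I A B : Type} [Fintype I] [CommRing A] [CommRing B]

/-- The easy inclusion. -/
theorem ge (hKBC : Stmt_KBC) {P : Subalgebra A (KK I A)} (φ : A →+* B) :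
    Submodule.span B (kmap φ '' (Perp P : Set (KK I A))) ≤ Perp (bc φ P) := by
  rw [Submodule.span_le]
  rintro _ ⟨η, hη, rfl⟩
  rw [SetLike.mem_coe, mem_Perp]
  intro p hp
  have hp' : p ∈ Submodule.span B (kmap φ '' (P : Set (KK I A))) := by
    rw [← hKBC.1 φ P]
    exact hp
  refine Submodule.span_induction ?_ ?_ ?_ ?_ hp'
  · rintro _ ⟨r, hr, rfl⟩
    rw [← map_mul, res_kmap, mem_Perp.1 hη r hr, map_zero]
  · rw [mul_zero, map_zero]
  · intro x y _ _ hx hy
    rw [mul_add, map_add, hx, hy, add_zero]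
  · intro a x _ hx
    rw [mul_smul_comm, map_smul, hx, smul_zero]

theorem mon_eq (φ : A →+* B) (i : I) (m : ℤ) (b : B) :
    mon i m b = b • kmap φ (mon i m (1 : A)) := by
  rw [kmap_mon, smul_mon, map_one, mul_one]

theorem mon_res (φ : A →+* B) (i : I) (m : ℤ) (a : A) :
    kmap φ (mon i m a) = φ a • mon i m (1 : B) := by
  rw [kmap_mon, smul_mon, mul_one]

end PBCx

open _root_.Pool.Agent.MG.G0.PBCx in
/-- PBC -/
theorem t_PBC (hKFO : Stmt_KFO) (hKBC : Stmt_KBC) (hPPR : Stmt_PPR) : Stmt_PBC := by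
  intro I A B _ _ _ _ g P hP φ
  obtain ⟨i₀⟩ := (inferInstance : Nonempty I)
  refine le_antisymm ?_ (ge hKBC φ)
  intro x hx
  obtain ⟨q, hq1, -, hq3, -⟩ := hPPR hP i₀
  obtain ⟨hPB, hfB, -⟩ := hKBC.2.2.2 hP φ
  obtain ⟨⟨ω, hω⟩, hfo⟩ := hKFO hP
  obtain ⟨-, hfoB⟩ := hKFO hPB
  obtain ⟨n, hn⟩ := exists_Pol x
  -- the polar part of `x`
  have hc := sub_mon_mem_Pol hn 0
  rw [neg_zero] at hc
  set S : Finset ℤ := Finset.Ico (-(n : ℤ)) 0 with hS
  have hres : res x = 0 := by
    have h := mem_Perp.1 hx 1 (one_mem _)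
    rwa [mul_one] at h
  have hsum : ∑ i, ∑ m ∈ S, (x i).coeff m * φ (res (mon i m (1 : A))) = 0 := by
    have h0 := res_Pol0 hc
    rw [map_sub, hres, zero_sub, neg_eq_zero, map_sum] at h0
    rw [← h0]
    refine Finset.sum_congr rfl fun i _ => ?_
    rw [map_sum]
    refine Finset.sum_congr rfl fun m _ => ?_
    rw [mon_eq φ, map_smul, res_kmap, smul_eq_mul]
  set y : KK I B := ∑ i, ∑ m ∈ S, (x i).coeff m • kmap φ (q (mon i m (1 : A))) with hy
  have hyspan : y ∈ Submodule.span B (kmap φ '' (Perp P : Set (KK I A))) := by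
    refine Submodule.sum_mem _ fun i _ => Submodule.sum_mem _ fun m _ => ?_
    exact Submodule.smul_mem _ _ (Submodule.subset_span ⟨_, hq1 _, rfl⟩)
  have hcy : (∑ i, ∑ m ∈ S, mon i m ((x i).coeff m)) - y ∈ Pol I B 0 := by
    have h1 : (∑ i, ∑ m ∈ S, mon i m ((x i).coeff m)) - y =
        ∑ i, ∑ m ∈ S, (x i).coeff m •
          kmap φ (mon i m (1 : A) - q (mon i m (1 : A)) - mon i₀ (-1) (res (mon i m (1 : A)))) := by
      have h2 : ∑ i, ∑ m ∈ S, (x i).coeff m •
          kmap φ (mon i₀ (-1) (res (mon i m (1 : A)))) = 0 := by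
        have h3 : ∀ i m, (x i).coeff m • kmap φ (mon i₀ (-1) (res (mon i m (1 : A)))) =
            ((x i).coeff m * φ (res (mon i m (1 : A)))) • mon i₀ (-1) (1 : B) := fun i m => by
          rw [mon_res, smul_smul]
        simp only [h3, ← Finset.sum_smul]
        rw [hsum, zero_smul]
      simp only [map_sub, smul_sub, Finset.sum_sub_distrib]
      rw [h2, sub_zero, hy]
      congr 1
      refine Finset.sum_congr rfl fun i _ => Finset.sum_congr rfl fun m _ => ?_
      exact mon_eq φ i m _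
    rw [h1]
    refine Submodule.sum_mem _ fun i _ => Submodule.sum_mem _ fun m _ => ?_
    exact Submodule.smul_mem _ _ (kmap_mem_Pol φ (hq3 _))
  have hxy0 : x - y ∈ Pol I B 0 := by
    have := add_mem hc hcy
    rwa [sub_add_sub_cancel] at this
  have hxyE : x - y ∈ EE (bc φ P) := ⟨sub_mem hx (ge hKBC φ hyspan), hxy0⟩
  obtain ⟨c, hc', -⟩ := (hfoB (fun j => kmap φ (ω j)) (hfB ω hω)).2 (x - y) hxyE
  have hfin : x - y ∈ Submodule.span B (kmap φ '' (Perp P : Set (KK I A))) := by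
    rw [hc']
    refine Submodule.sum_mem _ fun j _ => Submodule.smul_mem _ _ (Submodule.subset_span ?_)
    exact ⟨ω j, ((hfo ω hω).1 j).1, rfl⟩
  have := add_mem hfin hyspan
  rwa [sub_add_cancel] at this

end Pool.Agent.MG.G0


end

section

/-!
# Coordinate changes (PAPER.md, RES4, SUB, ROOT)
-/

namespace Pool.Agent.MG.G0

/-- RIN (RES4): invariance of the residue. -/
def Stmt_RIN : Prop :=
  ∀ {I A : Type} [Fintype I] [CommRing A] (α : KK I A ≃ₐ[A] KK I A),
    (∀ f, α f ∈ Pol I A 0 ↔ f ∈ Pol I A 0) → ∀ f h, res (α h * dd (α f)) = res (h * dd f)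

/-- `Φ` is the substitution `τ ↦ u`. -/
structure IsSub {A : Type} [CommRing A] (u : PowerSeries A)
    (Φ : LaurentSeries A →ₐ[A] LaurentSeries A) : Prop where
  pol : ∀ n : ℤ, ∀ f ∈ Po A n, Φ f ∈ Po A n
  tau : Φ (HahnSeries.single 1 1) = psl A u

/-- SUB: coordinate changes of Laurent series. -/
def Stmt_SUB : Prop :=
  (∀ {A : Type} [CommRing A] (u : PowerSeries A), PowerSeries.constantCoeff u = 0 →
    IsUnit (PowerSeries.coeff 1 u) → ∃ Φ : LaurentSeries A ≃ₐ[A] LaurentSeries A,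
      IsSub u (Φ : LaurentSeries A →ₐ[A] LaurentSeries A)) ∧
  (∀ {A : Type} [CommRing A] (u : PowerSeries A), PowerSeries.constantCoeff u = 0 →
    IsUnit (PowerSeries.coeff 1 u) → ∀ Φ : LaurentSeries A →ₐ[A] LaurentSeries A, IsSub u Φ →
      (∀ Ψ : LaurentSeries A →ₐ[A] LaurentSeries A, IsSub u Ψ → Ψ = Φ) ∧
      (∀ (n : ℤ) (f : LaurentSeries A), Φ f ∈ Po A n ↔ f ∈ Po A n) ∧
      (∀ n : ℤ, ∃ c : A, IsUnit c ∧ ∀ f ∈ Po A n, (Φ f).coeff (-n) = c * f.coeff (-n)) ∧
      (∀ f : PowerSeries A, ∃ h : PowerSeries A, Φ (psl A f) = psl A h ∧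
        PowerSeries.constantCoeff h = PowerSeries.constantCoeff f) ∧
      (∀ f, ld (Φ f) = Φ (ld f) * ld (psl A u)) ∧
      (∀ f, (Φ f * ld (psl A u)).coeff (-1) = f.coeff (-1)) ∧
      ∀ {g : ℕ} {R : Subalgebra A (LaurentSeries A)}, Kr g R ↔ Kr g (R.map Φ)) ∧
  ∀ {A B : Type} [CommRing A] [CommRing B] (φ : A →+* B) (u : PowerSeries A),
    PowerSeries.constantCoeff u = 0 → IsUnit (PowerSeries.coeff 1 u) →
    ∀ (Φ : LaurentSeries A →ₐ[A] LaurentSeries A) (Ψ : LaurentSeries B →ₐ[B] LaurentSeries B),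
      IsSub u Φ → IsSub (PowerSeries.map φ u) Ψ → ∀ f, lmap φ (Φ f) = Ψ (lmap φ f)

/-- ROO (ROOT): roots of power series. -/
def Stmt_ROO : Prop :=
  ∀ {A : Type} [CommRing A] (n : ℕ), IsUnit (n : A) → ∀ c : PowerSeries A,
    PowerSeries.constantCoeff c = 1 →
    (∃! r : PowerSeries A, PowerSeries.constantCoeff r = 1 ∧ r ^ n = c) ∧
    ∀ r : PowerSeries A, PowerSeries.constantCoeff r = 1 → r ^ n = c →
      ∀ m : ℕ, (∀ k : ℕ, ¬ m ∣ k → PowerSeries.coeff k c = 0) →
        ∀ k : ℕ, ¬ m ∣ k → PowerSeries.coeff k r = 0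

end Pool.Agent.MG.G0


end

section

/-!
# The special curve `Y^3 = X^(1+a)(X^g - 1)` (PAPER.md, section G): definitions

`a` is `0` or `1` with `3 ∤ g + 1 + a`; `σ` is the coordinate at infinity with `X = σ^(-3)`,
`Y = σ^(-(g+1+a)) r`, `W = σ^(-(2g+2-a)) r^2`, where `r^3 = 1 - σ^(3g)`, `r = 1 + ...`.
Then `Y^2 = X^a W`, `Y W = X^(g+1) - X`, `W^2 = (X^(g+1-a) - X^(1-a)) Y`.
-/

namespace Pool.Agent.MG.G0

/-- The data of the special curve of genus `g` over `A`. -/
structure SCD (A : Type) [CommRing A] where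
  /-- the genus -/
  g : ℕ
  /-- zero or one -/
  a : ℕ
  /-- the cube root of `1 - σ^(3g)` -/
  r : PowerSeries A
  hg : 2 ≤ g
  ha : a ≤ 1
  h3 : ¬ 3 ∣ g + 1 + a
  hd : IsUnit (((6 * g + 9).factorial : ℕ) : A)
  r1 : PowerSeries.constantCoeff r = 1
  r3 : r ^ 3 = 1 - PowerSeries.X ^ (3 * g)
  rc : ∀ k : ℕ, ¬ 3 ∣ k → PowerSeries.coeff k r = 0

namespace SCD

variable {A : Type} [CommRing A] (S : SCD A)

/-- The pole order of `Y`. -/
def n1 : ℕ := S.g + 1 + S.a

/-- The pole order of `W`. -/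
def n2 : ℕ := 2 * S.g + 2 - S.a

/-- The inverse of `r`. -/
noncomputable def ri : PowerSeries A := PowerSeries.invOfUnit S.r 1

/-- The function `Y`. -/
noncomputable def Y : LaurentSeries A := HahnSeries.single (-(S.n1 : ℤ)) 1 * psl A S.r

/-- The function `W`. -/
noncomputable def W : LaurentSeries A := HahnSeries.single (-(S.n2 : ℤ)) 1 * psl A (S.r ^ 2)

/-- The inverse of `Y`. -/
noncomputable def Yi : LaurentSeries A := HahnSeries.single (S.n1 : ℤ) 1 * psl A S.ri

/-- The inverse of `W`. -/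
noncomputable def Wi : LaurentSeries A := HahnSeries.single (S.n2 : ℤ) 1 * psl A (S.ri ^ 2)

/-- The ring of functions regular outside infinity. -/
noncomputable def R : Subalgebra A (LaurentSeries A) := Algebra.adjoin A {zz A 3, S.Y, S.W}

/-- `X` as an element of `R`. -/
noncomputable def x : S.R := ⟨zz A 3, Algebra.subset_adjoin (by simp)⟩

/-- `Y` as an element of `R`. -/
noncomputable def y : S.R := ⟨S.Y, Algebra.subset_adjoin (by simp)⟩

/-- `W` as an element of `R`. -/
noncomputable def w : S.R := ⟨S.W, Algebra.subset_adjoin (by simp)⟩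

/-- `A(X) = X^a`. -/
noncomputable def pA : Polynomial A := Polynomial.X ^ S.a

/-- `B(X) = X^(g+1-a) - X^(1-a)`. -/
noncomputable def pB : Polynomial A :=
  Polynomial.X ^ (S.g + 1 - S.a) - Polynomial.X ^ (1 - S.a)

/-- `(A B)(X) = X^(g+1) - X`. -/
noncomputable def pD : Polynomial A := Polynomial.X ^ (S.g + 1) - Polynomial.X

/-- `cY` with `3 (AB) dY = cY Y dX`. -/
noncomputable def cY : Polynomial A :=
  Polynomial.C (S.g + 1 + S.a : A) * Polynomial.X ^ S.g - Polynomial.C (1 + S.a : A)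

/-- `cW` with `3 (AB) dW = cW W dX`. -/
noncomputable def cW : Polynomial A :=
  Polynomial.C (2 * S.g + 2 - S.a : A) * Polynomial.X ^ S.g - Polynomial.C (2 - S.a : A)

end SCD

/-- Noether's theorem: a vector field with `res (θ ω ω') = 0` for all regular differentials is a
sum of one of the affine curve and a regular one. -/
def Noe {A : Type} [CommRing A] (R : Subalgebra A (LaurentSeries A)) : Prop :=
  ∀ θ : LaurentSeries A, (∀ ω ∈ EE1 R, ∀ ω' ∈ EE1 R, (θ * ω * ω').coeff (-1) = 0) →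
    ∃ θ' ∈ TT1 R, θ - θ' ∈ Po A 0

/-- There is no regular vector field. -/
def Rgd {A : Type} [CommRing A] (R : Subalgebra A (LaurentSeries A)) : Prop :=
  ∀ θ ∈ TT1 R, θ ∈ Po A 0 → θ = 0

/-- Superspecial: `f^p ∈ R + A[[τ]]` for all `f`. -/
def Ssp {A : Type} [CommRing A] (p : ℕ) (R : Subalgebra A (LaurentSeries A)) : Prop :=
  ∀ f : LaurentSeries A, ∃ h ∈ R, f ^ p - h ∈ Po A 0

/-- `R` is the ring of the special curve of genus `g` in the coordinate `τ` with
`τ^(-(6g+9)) = X^(2g+3) + ζ Y`. -/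
def RG {A : Type} [CommRing A] (g : ℕ) (ζ : A) (R : Subalgebra A (LaurentSeries A)) : Prop :=
  ∃ (S : SCD A) (u : PowerSeries A) (Φ : LaurentSeries A ≃ₐ[A] LaurentSeries A),
    S.g = g ∧ S.a = (if 3 ∣ g + 1 then 1 else 0) ∧ PowerSeries.constantCoeff u = 0 ∧
    PowerSeries.coeff 1 u = 1 ∧ IsSub u (Φ : LaurentSeries A →ₐ[A] LaurentSeries A) ∧
    psl A u ^ (6 * g + 9) * (zz A 3 ^ (2 * g + 3) + ζ • S.Y) = 1 ∧
    R = S.R.comap (Φ : LaurentSeries A →ₐ[A] LaurentSeries A)

end Pool.Agent.MG.G0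


end

section

/-!
# Laurent series: products, pole orders, the grading modulo `d`
-/

namespace Pool.Agent.MG.G0.ZL

open Polynomial

section

variable {A B : Type} [CommRing A] [CommRing B]

/-- Laurent series with a pole of order at most `n`. -/
noncomputable abbrev Pl (A : Type) [CommRing A] (n : ℤ) : Submodule A (LaurentSeries A) := Po A n

theorem mem_Pl {n : ℤ} {f : LaurentSeries A} : f ∈ Pl A n ↔ ∀ m, m < -n → f.coeff m = 0 :=
  Iff.rfl

theorem Pl_mono {n m : ℤ} (h : n ≤ m) : Pl A n ≤ Pl A m := fun _ hf k hk =>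
  hf k (lt_of_lt_of_le hk (neg_le_neg h))

theorem exists_Pl (f : LaurentSeries A) : ∃ n : ℕ, f ∈ Pl A n := by
  refine ⟨(-f.order).toNat, fun m hm => ?_⟩
  apply HahnSeries.coeff_eq_zero_of_lt_order
  omega

theorem mul_mem_Pl {a b : ℤ} {f g : LaurentSeries A} (hf : f ∈ Pl A a) (hg : g ∈ Pl A b) :
    f * g ∈ Pl A (a + b) := by
  intro m hm
  exact mul_low hf hg m (by omega)

theorem coeff_mul_Pl {a b : ℤ} {f g : LaurentSeries A} (hf : f ∈ Pl A a) (hg : g ∈ Pl A b) :
    (f * g).coeff (-(a + b)) = f.coeff (-a) * g.coeff (-b) := by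
  rw [neg_add]
  exact mul_lead hf hg

theorem single_mem_Pl {n m : ℤ} (a : A) (h : -n ≤ m) : (HahnSeries.single m a) ∈ Pl A n := by
  intro k hk
  rw [HahnSeries.coeff_single_of_ne (by omega)]

theorem one_mem_Pl {n : ℤ} (h : 0 ≤ n) : (1 : LaurentSeries A) ∈ Pl A n := by
  rw [← HahnSeries.single_zero_one]
  exact single_mem_Pl 1 (by omega)

theorem pow_mem_Pl {a : ℤ} {f : LaurentSeries A} (hf : f ∈ Pl A a) (n : ℕ) :
    f ^ n ∈ Pl A (n * a) := by
  induction n with
  | zero => simpa using one_mem_Pl (le_refl (0 : ℤ))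
  | succ n ih =>
    rw [pow_succ]
    have := mul_mem_Pl ih hf
    have h1 : (n : ℤ) * a + a = ((n + 1 : ℕ) : ℤ) * a := by push_cast; ring
    rwa [h1] at this

theorem coeff_pow_Pl {a : ℤ} {f : LaurentSeries A} (hf : f ∈ Pl A a) (n : ℕ) :
    (f ^ n).coeff (-(n * a)) = f.coeff (-a) ^ n := by
  induction n with
  | zero => simp
  | succ n ih =>
    have h1 : -(((n + 1 : ℕ) : ℤ) * a) = -((n : ℤ) * a + a) := by push_cast; ring
    rw [pow_succ, h1, coeff_mul_Pl (pow_mem_Pl hf n) hf, ih, pow_succ]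

theorem lmap_mem_Pl (φ : A →+* B) {n : ℤ} {f : LaurentSeries A} (hf : f ∈ Pl A n) :
    lmap φ f ∈ Pl B n := by
  intro m hm
  rw [lmap_coeff, hf m hm, map_zero]

/-! ### Polynomials in `z` -/

/-- Polynomials in `z`. -/
noncomputable abbrev ev (d : ℕ) : A[X] →ₐ[A] LaurentSeries A := zpol A d

theorem zz_pow (d k : ℕ) : zz A d ^ k = HahnSeries.single (-((d * k : ℕ) : ℤ)) 1 := by
  have h1 : k • (-(d : ℤ)) = -((d * k : ℕ) : ℤ) := by
    rw [nsmul_eq_mul]
    push_cast
    ring
  rw [zz, HahnSeries.single_pow, one_pow, h1]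

theorem ev_X (d : ℕ) : ev d (X : A[X]) = zz A d := by rw [ev, zpol, aeval_X]

theorem ev_C (d : ℕ) (a : A) : ev d (C a) = algebraMap A (LaurentSeries A) a := by
  rw [ev, zpol, aeval_C]

theorem algebraMap_eq (a : A) : algebraMap A (LaurentSeries A) a = HahnSeries.single 0 a := rfl

theorem algebraMap_mul_coeff (a : A) (f : LaurentSeries A) (n : ℤ) :
    (algebraMap A (LaurentSeries A) a * f).coeff n = a * f.coeff n := by
  rw [← Algebra.smul_def, HahnSeries.coeff_smul, smul_eq_mul]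

theorem ev_eq_sum (d : ℕ) (q : A[X]) :
    ev d q = ∑ k ∈ q.support, HahnSeries.single (-((d * k : ℕ) : ℤ)) (q.coeff k) := by
  rw [ev, zpol, aeval_eq_sum_range' (Nat.lt_succ_self _)]
  have h1 : ∀ k, q.coeff k • zz A d ^ k =
      HahnSeries.single (-((d * k : ℕ) : ℤ)) (q.coeff k) := by
    intro k
    rw [zz_pow]
    ext m
    rw [HahnSeries.coeff_smul, smul_eq_mul]
    by_cases h : m = -((d * k : ℕ) : ℤ)
    · rw [h, HahnSeries.coeff_single_same, HahnSeries.coeff_single_same, mul_one]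
    · rw [HahnSeries.coeff_single_of_ne h, HahnSeries.coeff_single_of_ne h, mul_zero]
  rw [Finset.sum_congr rfl fun k _ => h1 k]
  symm
  refine Finset.sum_subset ?_ ?_
  · intro k hk
    rw [Finset.mem_range]
    exact Nat.lt_succ_of_le (le_natDegree_of_mem_supp k hk)
  · intro k _ hk
    rw [notMem_support_iff] at hk
    rw [hk, HahnSeries.single_eq_zero]

theorem ev_coeff (d : ℕ) (hd : d ≠ 0) (q : A[X]) (k : ℕ) :
    (ev d q).coeff (-((d * k : ℕ) : ℤ)) = q.coeff k := by
  classical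
  rw [ev_eq_sum, HahnSeries.coeff_sum]
  have h1 : ∀ l, (HahnSeries.single (-((d * l : ℕ) : ℤ)) (q.coeff l)).coeff
      (-((d * k : ℕ) : ℤ)) = if l = k then q.coeff k else 0 := by
    intro l
    by_cases hl : l = k
    · rw [if_pos hl, hl, HahnSeries.coeff_single_same]
    · rw [if_neg hl, HahnSeries.coeff_single_of_ne]
      intro h
      apply hl
      have h2 : d * k = d * l := by
        have := neg_injective h
        exact_mod_cast this
      exact (Nat.eq_of_mul_eq_mul_left (Nat.pos_of_ne_zero hd) h2).symm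
  rw [Finset.sum_congr rfl fun l _ => h1 l, Finset.sum_ite_eq']
  split_ifs with h
  · rfl
  · rw [notMem_support_iff] at h
    exact h.symm

theorem ev_coeff_ne (d : ℕ) (q : A[X]) (n : ℤ) (hn : ∀ k : ℕ, n ≠ -((d * k : ℕ) : ℤ)) :
    (ev d q).coeff n = 0 := by
  rw [ev_eq_sum, HahnSeries.coeff_sum]
  exact Finset.sum_eq_zero fun k _ => HahnSeries.coeff_single_of_ne (hn k)

theorem ev_coeff_pos (d : ℕ) (q : A[X]) (n : ℤ) (hn : 0 < n) : (ev d q).coeff n = 0 := by
  apply ev_coeff_ne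
  intro k
  omega

theorem ev_injective (d : ℕ) (hd : d ≠ 0) : Function.Injective (ev d : A[X] →ₐ[A] _) := by
  intro p q h
  ext k
  rw [← ev_coeff d hd, h, ev_coeff d hd]

theorem ev_mem_Pl (d : ℕ) (q : A[X]) {n : ℕ} (h : q.natDegree ≤ n) :
    ev d q ∈ Pl A ((d * n : ℕ) : ℤ) := by
  intro m hm
  rw [ev_eq_sum, HahnSeries.coeff_sum]
  refine Finset.sum_eq_zero fun k hk => HahnSeries.coeff_single_of_ne ?_
  have h1 : k ≤ n := (le_natDegree_of_mem_supp k hk).trans h
  have h2 : ((d * k : ℕ) : ℤ) ≤ ((d * n : ℕ) : ℤ) := by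
    exact_mod_cast Nat.mul_le_mul_left d h1
  omega

theorem lmap_ev (φ : A →+* B) (d : ℕ) (q : A[X]) : lmap φ (ev d q) = ev d (q.map φ) :=
  lmap_zpol φ d q

theorem lmap_injective {φ : A →+* B} (hφ : Function.Injective φ) :
    Function.Injective (lmap φ) := by
  intro f g h
  ext m
  apply hφ
  rw [← lmap_coeff, h, lmap_coeff]

/-! ### The grading modulo `d` -/

variable {d : ℕ}

/-- The part with exponents congruent to `j` modulo `d`. -/
noncomputable def pr (j : ZMod d) : LaurentSeries A →ₗ[A] LaurentSeries A where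
  toFun f :=
    { coeff := fun n => if ((n : ℤ) : ZMod d) = j then f.coeff n else 0
      isPWO_support' := f.isPWO_support.mono fun n hn => by
        rw [Function.mem_support] at hn
        rw [HahnSeries.mem_support]
        intro h
        apply hn
        rw [h, ite_self] }
  map_add' f g := by
    ext n
    simp only [HahnSeries.coeff_add]
    split_ifs
    · rfl
    · rw [add_zero]
  map_smul' a f := by
    ext n
    simp only [HahnSeries.coeff_smul, RingHom.id_apply]
    split_ifs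
    · rfl
    · rw [smul_zero]

theorem pr_coeff (j : ZMod d) (f : LaurentSeries A) (n : ℤ) :
    (pr j f).coeff n = if ((n : ℤ) : ZMod d) = j then f.coeff n else 0 := rfl

theorem pr_coeff_same {j : ZMod d} (f : LaurentSeries A) {n : ℤ} (h : ((n : ℤ) : ZMod d) = j) :
    (pr j f).coeff n = f.coeff n := if_pos h

theorem pr_coeff_ne {j : ZMod d} (f : LaurentSeries A) {n : ℤ} (h : ((n : ℤ) : ZMod d) ≠ j) :
    (pr j f).coeff n = 0 := if_neg h

theorem pr_mem_Pl (j : ZMod d) {n : ℤ} {f : LaurentSeries A} (hf : f ∈ Pl A n) :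
    pr j f ∈ Pl A n := by
  intro m hm
  rw [pr_coeff, hf m hm, ite_self]

theorem pr_pr_same (j : ZMod d) (f : LaurentSeries A) : pr j (pr j f) = pr j f := by
  ext n
  rw [pr_coeff, pr_coeff]
  split_ifs <;> rfl

theorem pr_pr_ne {i j : ZMod d} (h : i ≠ j) (f : LaurentSeries A) : pr i (pr j f) = 0 := by
  ext n
  rw [pr_coeff, pr_coeff, HahnSeries.coeff_zero]
  split_ifs with h1 h2
  · exact absurd (h1.symm.trans h2) h
  · rfl
  · rfl

theorem pr_mul_of {i : ZMod d} {f : LaurentSeries A} (hf : pr i f = f) (k : ZMod d)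
    (g : LaurentSeries A) : pr k (f * g) = f * pr (k - i) g := by
  obtain ⟨a, ha⟩ := exists_Pl f
  obtain ⟨b, hb⟩ := exists_Pl g
  ext n
  rw [pr_coeff, coeff_mul_Icc ha hb, coeff_mul_Icc ha (pr_mem_Pl (k - i) hb)]
  have h1 : ∀ m, f.coeff m * (pr (k - i) g).coeff (n - m) =
      if ((n : ℤ) : ZMod d) = k then f.coeff m * g.coeff (n - m) else 0 := by
    intro m
    by_cases hm : f.coeff m = 0
    · rw [hm, zero_mul, zero_mul, ite_self]
    · have h2 : ((m : ℤ) : ZMod d) = i := by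
        by_contra hcon
        apply hm
        rw [← hf, pr_coeff_ne _ hcon]
      rw [pr_coeff]
      by_cases hn : ((n : ℤ) : ZMod d) = k
      · rw [if_pos hn, if_pos]
        push_cast
        rw [hn, h2]
      · rw [if_neg hn, if_neg, mul_zero]
        push_cast
        rw [h2]
        intro h3
        exact hn (sub_left_injective h3)
  rw [Finset.sum_congr rfl fun m _ => h1 m]
  split_ifs
  · rfl
  · rw [Finset.sum_const_zero]

theorem pr_zero_eq (f : LaurentSeries A) : pr (0 : ZMod d) f = pr0 A d f := by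
  ext n
  rw [pr_coeff, pr0_coeff]
  simp only [ZMod.intCast_zmod_eq_zero_iff_dvd]

theorem sum_pr [NeZero d] (f : LaurentSeries A) : ∑ j : ZMod d, pr j f = f := by
  ext n
  rw [HahnSeries.coeff_sum]
  simp only [pr_coeff]
  rw [Finset.sum_ite_eq, if_pos (Finset.mem_univ _)]

theorem pr_mul [NeZero d] (k : ZMod d) (f g : LaurentSeries A) :
    pr k (f * g) = ∑ i : ZMod d, pr i f * pr (k - i) g := by
  conv_lhs => rw [← sum_pr (d := d) f, Finset.sum_mul, map_sum]
  exact Finset.sum_congr rfl fun i _ => pr_mul_of (pr_pr_same i f) k g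

theorem pr_ev [NeZero d] (q : A[X]) : pr (0 : ZMod d) (ev d q) = ev d q := by
  ext n
  rw [pr_coeff]
  split_ifs with h
  · rfl
  · symm
    apply ev_coeff_ne
    rintro k rfl
    apply h
    push_cast
    simp

theorem pr_algebraMap (a : A) : pr (0 : ZMod d) (algebraMap A (LaurentSeries A) a) =
    algebraMap A (LaurentSeries A) a := by
  ext n
  rw [pr_coeff, algebraMap_eq]
  split_ifs with h
  · rfl
  · rw [HahnSeries.coeff_single_of_ne]
    rintro rfl
    simp at h

theorem pr_ev_mul [NeZero d] (k : ZMod d) (q : A[X]) (g : LaurentSeries A) :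
    pr k (ev d q * g) = ev d q * pr k g := by
  rw [pr_mul_of (pr_ev q), sub_zero]

theorem lmap_pr (φ : A →+* B) (j : ZMod d) (f : LaurentSeries A) :
    lmap φ (pr j f) = pr j (lmap φ f) := by
  ext n
  rw [lmap_coeff, pr_coeff, pr_coeff, lmap_coeff]
  split_ifs
  · rfl
  · rw [map_zero]

/-! ### The matrix of the multiplication -/

variable [NeZero d]

/-- The matrix of the multiplication by `x`. -/
noncomputable def cm (d : ℕ) [NeZero d] :
    LaurentSeries A →+* Matrix (ZMod d) (ZMod d) (LaurentSeries A) where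
  toFun x := Matrix.of fun i j => pr (j - i) x
  map_one' := by
    ext1 i j
    have h1 : (1 : LaurentSeries A) = algebraMap A _ 1 := (map_one _).symm
    rw [Matrix.of_apply, Matrix.one_apply]
    by_cases h : i = j
    · rw [if_pos h, h, sub_self, h1, pr_algebraMap]
    · rw [if_neg h, h1, ← pr_algebraMap (d := d), pr_pr_ne]
      intro h2
      exact h (sub_eq_zero.1 h2).symm
  map_zero' := by
    ext1 i j
    rw [Matrix.of_apply, map_zero]
    rfl
  map_add' x y := by
    ext1 i j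
    rw [Matrix.add_apply, Matrix.of_apply, Matrix.of_apply, Matrix.of_apply, map_add]
  map_mul' x y := by
    ext1 i k
    rw [Matrix.mul_apply, Matrix.of_apply, pr_mul]
    simp only [Matrix.of_apply]
    refine Fintype.sum_equiv (Equiv.addLeft i) _ _ fun j => ?_
    show pr j x * pr (k - i - j) y = pr (i + j - i) x * pr (k - (i + j)) y
    rw [add_sub_cancel_left, sub_sub]

theorem cm_apply (x : LaurentSeries A) (i j : ZMod d) : cm d x i j = pr (j - i) x := rfl

theorem cm_of_pr {s : LaurentSeries A} (hs : pr (0 : ZMod d) s = s) :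
    cm d s = Matrix.scalar (ZMod d) s := by
  ext1 i j
  rw [cm_apply, Matrix.scalar_apply, Matrix.diagonal_apply]
  split_ifs with h
  · rw [h, sub_self, hs]
  · rw [← hs, pr_pr_ne]
    intro h2
    exact h (sub_eq_zero.1 h2).symm

theorem trace_cm (x : LaurentSeries A) :
    (cm d x).trace = (d : LaurentSeries A) * pr (0 : ZMod d) x := by
  rw [Matrix.trace]
  simp only [Matrix.diag_apply, cm_apply, sub_self]
  rw [Finset.sum_const, Finset.card_univ, ZMod.card, nsmul_eq_mul]

theorem cm_mulVec_one (x : LaurentSeries A) :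
    (cm d x).mulVec (fun _ => 1) = fun _ => x := by
  funext i
  rw [Matrix.mulVec, dotProduct]
  simp only [cm_apply, mul_one]
  conv_rhs => rw [← sum_pr (d := d) x]
  refine Fintype.sum_equiv (Equiv.subRight i) _ _ fun j => rfl

theorem aeval_cm_mulVec (x : LaurentSeries A) (p : (LaurentSeries A)[X]) :
    (aeval (cm d x) p).mulVec (fun _ => 1) = fun _ => p.eval x := by
  induction p using Polynomial.induction_on with
  | C a =>
    rw [aeval_C, eval_C]
    funext i
    rw [Matrix.algebraMap_eq_diagonal, Matrix.mulVec_diagonal]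
    simp
  | add p q hp hq =>
    rw [map_add, Matrix.add_mulVec, hp, hq, eval_add]
    rfl
  | monomial n a h =>
    have h1 : (C a * X ^ (n + 1) : (LaurentSeries A)[X]) = (C a * X ^ n) * X := by
      rw [pow_succ, mul_assoc]
    rw [h1, map_mul, aeval_X, ← Matrix.mulVec_mulVec, cm_mulVec_one]
    have h2 : (fun _ : ZMod d => x) = x • (fun _ : ZMod d => (1 : LaurentSeries A)) := by
      funext i
      simp
    rw [h2, Matrix.mulVec_smul, h, eval_mul (q := X), eval_X]
    funext i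
    rw [Pi.smul_apply, smul_eq_mul, mul_comm]

/-- The characteristic polynomial of the multiplication annihilates the element. -/
theorem charpoly_cm_eval (x : LaurentSeries A) : (cm d x).charpoly.eval x = 0 := by
  have h1 := aeval_cm_mulVec (d := d) x (cm d x).charpoly
  rw [Matrix.aeval_self_charpoly, Matrix.zero_mulVec] at h1
  exact (congrFun h1 0).symm

theorem cm_lmap (φ : A →+* B) (x : LaurentSeries A) :
    cm d (lmap φ x) = (cm d x).map (lmap φ) := by
  ext1 i j
  rw [Matrix.map_apply, cm_apply, cm_apply, lmap_pr]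

theorem charpoly_cm_lmap (φ : A →+* B) (x : LaurentSeries A) :
    (cm d (lmap φ x)).charpoly = (cm d x).charpoly.map (lmap φ) := by
  rw [cm_lmap]
  exact Matrix.charpoly_map (cm d x) (lmap φ)

end

end Pool.Agent.MG.G0.ZL


end

section

/-!
# Leading coefficients of determinants, Gram matrices
-/

namespace Pool.Agent.MG.G0.ZL

open Polynomial

section

variable {A B : Type} [CommRing A] [CommRing B]

theorem prod_mem_Pl {ι : Type} (s : Finset ι) (f : ι → LaurentSeries A) (N : ι → ℤ)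
    (hf : ∀ i ∈ s, f i ∈ Pl A (N i)) :
    ∏ i ∈ s, f i ∈ Pl A (∑ i ∈ s, N i) ∧
      (∏ i ∈ s, f i).coeff (-∑ i ∈ s, N i) = ∏ i ∈ s, (f i).coeff (-N i) := by
  classical
  induction s using Finset.induction_on with
  | empty =>
    simp only [Finset.prod_empty, Finset.sum_empty]
    refine ⟨one_mem_Pl le_rfl, ?_⟩
    simp
  | insert i s hi ih =>
    obtain ⟨h1, h2⟩ := ih fun j hj => hf j (Finset.mem_insert_of_mem hj)
    have h3 := hf i (Finset.mem_insert_self i s)
    rw [Finset.prod_insert hi, Finset.sum_insert hi, Finset.prod_insert hi]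
    exact ⟨mul_mem_Pl h3 h1, by rw [coeff_mul_Pl h3 h1, h2]⟩

/-- The leading coefficient of a determinant. -/
theorem det_lead {ι : Type} [Fintype ι] [DecidableEq ι] (M : Matrix ι ι (LaurentSeries A))
    (N : ι → ℤ) (hM : ∀ i j, M i j ∈ Pl A (N i)) :
    M.det ∈ Pl A (∑ i, N i) ∧
      M.det.coeff (-∑ i, N i) = (Matrix.of fun i j => (M i j).coeff (-N i)).det := by
  classical
  have h1 : ∀ σ : Equiv.Perm ι, ∏ i, M (σ i) i ∈ Pl A (∑ i, N i) ∧
      (∏ i, M (σ i) i).coeff (-∑ i, N i) = ∏ i, (M (σ i) i).coeff (-N (σ i)) := by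
    intro σ
    have h2 := prod_mem_Pl Finset.univ (fun i => M (σ i) i) (fun i => N (σ i))
      fun i _ => hM _ _
    rw [Equiv.sum_comp σ N] at h2
    exact h2
  have hs : ∀ (σ : Equiv.Perm ι) (f : LaurentSeries A) (n : ℤ),
      (Equiv.Perm.sign σ • f).coeff n = Equiv.Perm.sign σ • f.coeff n := by
    intro σ f n
    rcases Int.units_eq_one_or (Equiv.Perm.sign σ) with h | h
    · rw [h, one_smul, one_smul]
    · rw [h, Units.neg_smul, one_smul, Units.neg_smul, one_smul, HahnSeries.coeff_neg]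
  refine ⟨?_, ?_⟩
  · rw [Matrix.det_apply]
    refine Submodule.sum_mem _ fun σ _ => ?_
    intro m hm
    rw [hs, (h1 σ).1 m hm, smul_zero]
  · rw [Matrix.det_apply, Matrix.det_apply, HahnSeries.coeff_sum]
    refine Finset.sum_congr rfl fun σ _ => ?_
    rw [hs, (h1 σ).2]
    rfl

theorem single_isUnit (n : ℤ) : IsUnit (HahnSeries.single n (1 : A) : LaurentSeries A) := by
  refine IsUnit.of_mul_eq_one (HahnSeries.single (-n) 1) ?_
  rw [HahnSeries.single_mul_single, add_neg_cancel, one_mul]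
  rfl

/-- A Laurent series whose leading coefficient is a unit is a unit. -/
theorem isUnit_of_lead {n : ℤ} {f : LaurentSeries A} (hf : f ∈ Pl A n)
    (hu : IsUnit (f.coeff (-n))) : IsUnit f := by
  let g : PowerSeries A := PowerSeries.mk fun k => f.coeff (k - n)
  have hg : IsUnit g := by
    rw [PowerSeries.isUnit_iff_constantCoeff, ← PowerSeries.coeff_zero_eq_constantCoeff_apply,
      PowerSeries.coeff_mk]
    simpa using hu
  have h1 : f = HahnSeries.single (-n) 1 * HahnSeries.ofPowerSeries ℤ A g := by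
    ext m
    rw [HahnSeries.coeff_single_mul, one_mul]
    by_cases hm : m < -n
    · rw [hf m hm]
      symm
      rw [PowerSeries.coeff_coe, if_pos (by omega)]
    · obtain ⟨k, hk⟩ := Int.eq_ofNat_of_zero_le (a := m - -n) (by omega)
      rw [hk, PowerSeries.coeff_coe, if_neg (by omega), Int.natAbs_natCast,
        PowerSeries.coeff_mk]
      congr 1
      omega
  rw [h1]
  exact (single_isUnit _).mul (hg.map (HahnSeries.ofPowerSeries ℤ A))

end

section

variable {A B : Type} [CommRing A] [CommRing B] {d : ℕ} [NeZero d]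

/-- The matrix of the components of a family. -/
noncomputable def cmat (e : ZMod d → LaurentSeries A) :
    Matrix (ZMod d) (ZMod d) (LaurentSeries A) := Matrix.of fun i j => pr j (e i)

/-- The Gram matrix. -/
noncomputable def gram (e : ZMod d → LaurentSeries A) :
    Matrix (ZMod d) (ZMod d) (LaurentSeries A) :=
  Matrix.of fun i j => pr (0 : ZMod d) (e i * e j)

variable (A d) in
/-- The permutation matrix of the negation. -/
noncomputable def Jm : Matrix (ZMod d) (ZMod d) A :=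
  (Equiv.neg (ZMod d)).permMatrix A

theorem Jm_apply (i j : ZMod d) : Jm A d i j = if -i = j then 1 else 0 := by
  rw [Jm, Equiv.Perm.permMatrix, Equiv.toPEquiv, PEquiv.toMatrix_apply]
  simp [eq_comm]

theorem Jm_det : (Jm A d).det = 1 ∨ (Jm A d).det = -1 := by
  rw [Jm, Matrix.det_permutation]
  rcases Int.units_eq_one_or (Equiv.Perm.sign (Equiv.neg (ZMod d))) with h | h
  · left
    rw [h]
    simp
  · right
    rw [h]
    simp

theorem gram_eq (e : ZMod d → LaurentSeries A) :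
    gram e = cmat e * Jm (LaurentSeries A) d * (cmat e).transpose := by
  ext1 i j
  rw [gram, Matrix.of_apply, pr_mul, Matrix.mul_apply]
  have h1 : ∀ k, (cmat e * Jm (LaurentSeries A) d) i k = pr (-k) (e i) := by
    intro k
    rw [Matrix.mul_apply]
    have h2 : ∀ l, cmat e i l * Jm (LaurentSeries A) d l k =
        if l = -k then pr (-k) (e i) else 0 := by
      intro l
      rw [Jm_apply]
      by_cases h : l = -k
      · rw [if_pos h, if_pos (by rw [h, neg_neg]), h, mul_one]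
        rfl
      · rw [if_neg h, if_neg, mul_zero]
        intro h3
        exact h (by rw [← h3, neg_neg])
    rw [Finset.sum_congr rfl fun l _ => h2 l, Finset.sum_ite_eq', if_pos (Finset.mem_univ _)]
  refine Fintype.sum_equiv (Equiv.neg (ZMod d)) _ _ fun k => ?_
  rw [Equiv.neg_apply, h1, neg_neg, zero_sub]
  rfl

theorem gram_det (e : ZMod d → LaurentSeries A) :
    (gram e).det = (cmat e).det ^ 2 * (Jm (LaurentSeries A) d).det := by
  rw [gram_eq, Matrix.det_mul, Matrix.det_mul, Matrix.det_transpose]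
  ring

/-- The leading coefficient of the matrix of components of elements of orders congruent to `i`. -/
theorem cmat_det_lead (e : ZMod d → LaurentSeries A) (N : ZMod d → ℤ)
    (hN : ∀ i, ((N i : ℤ) : ZMod d) = i) (he : ∀ i, e i ∈ Pl A (N i)) :
    (cmat e).det ∈ Pl A (∑ i, N i) ∧
      (cmat e).det.coeff (-∑ i, N i) = (∏ i, (e i).coeff (-N i)) * (Jm A d).det := by
  have h1 := det_lead (cmat e) N fun i j => pr_mem_Pl j (he i)
  refine ⟨h1.1, ?_⟩
  rw [h1.2]
  have h2 : (Matrix.of fun i j => (cmat e i j).coeff (-N i)) =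
      Matrix.diagonal (fun i => (e i).coeff (-N i)) * Jm A d := by
    ext1 i j
    rw [Matrix.of_apply, Matrix.diagonal_mul, Jm_apply, cmat, Matrix.of_apply, pr_coeff]
    push_cast
    rw [hN, mul_ite, mul_one, mul_zero]
  rw [h2, Matrix.det_mul, Matrix.det_diagonal]

/-- The leading coefficient of the determinant of the Gram matrix. -/
theorem gram_det_lead (e : ZMod d → LaurentSeries A) (N : ZMod d → ℤ)
    (hN : ∀ i, ((N i : ℤ) : ZMod d) = i) (he : ∀ i, e i ∈ Pl A (N i)) :
    (gram e).det ∈ Pl A (2 * ∑ i, N i) ∧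
      ((gram e).det.coeff (-(2 * ∑ i, N i)) = (∏ i, (e i).coeff (-N i)) ^ 2 ∨
        (gram e).det.coeff (-(2 * ∑ i, N i)) = -(∏ i, (e i).coeff (-N i)) ^ 2) := by
  obtain ⟨h1, h2⟩ := cmat_det_lead e N hN he
  have h3 := pow_mem_Pl h1 2
  have h4 := coeff_pow_Pl h1 2
  rw [h2, mul_pow] at h4
  have h5 : (Jm A d).det ^ 2 = 1 := by
    rcases Jm_det (A := A) (d := d) with h | h
    · rw [h, one_pow]
    · rw [h]
      ring
  rw [h5, mul_one] at h4
  rw [gram_det]
  push_cast at h3 h4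
  rcases Jm_det (A := LaurentSeries A) (d := d) with h | h
  · rw [h, mul_one]
    exact ⟨h3, Or.inl h4⟩
  · rw [h, mul_neg, mul_one]
    refine ⟨Submodule.neg_mem _ h3, Or.inr ?_⟩
    rw [HahnSeries.coeff_neg, h4]

/-- Change of the family. -/
theorem cmat_mul (a : Matrix (ZMod d) (ZMod d) A[X]) (e e' : ZMod d → LaurentSeries A)
    (h : ∀ i, e i = ∑ j, ev d (a i j) * e' j) :
    cmat e = a.map (ev d) * cmat e' := by
  ext1 i j
  rw [Matrix.mul_apply, cmat, Matrix.of_apply, h i, map_sum]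
  refine Finset.sum_congr rfl fun k _ => ?_
  rw [pr_ev_mul]
  rfl

theorem det_map_ev {ι : Type} [Fintype ι] [DecidableEq ι] (a : Matrix ι ι A[X]) :
    (a.map (ev d)).det = ev d a.det := by
  exact (RingHom.map_det (ev d : A[X] →ₐ[A] LaurentSeries A).toRingHom a).symm

theorem gram_det_mul (a : Matrix (ZMod d) (ZMod d) A[X]) (e e' : ZMod d → LaurentSeries A)
    (h : ∀ i, e i = ∑ j, ev d (a i j) * e' j) :
    (gram e).det = ev d (a.det ^ 2) * (gram e').det := by
  rw [gram_det, gram_det, cmat_mul a e e' h, Matrix.det_mul, det_map_ev, map_pow]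
  ring

theorem lmap_gram (φ : A →+* B) (e : ZMod d → LaurentSeries A) :
    gram (fun i => lmap φ (e i)) = (gram e).map (lmap φ) := by
  ext1 i j
  rw [Matrix.map_apply, gram, gram, Matrix.of_apply, Matrix.of_apply, lmap_pr,
    map_mul (lmap φ)]

theorem lmap_gram_det (φ : A →+* B) (e : ZMod d → LaurentSeries A) :
    (gram (fun i => lmap φ (e i))).det = lmap φ (gram e).det := by
  rw [lmap_gram]
  exact (RingHom.map_det (lmap φ) (gram e)).symm

end

end Pool.Agent.MG.G0.ZL


end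

section

/-!
# Krichever rings with one puncture which contain `z`: bases over `A[z]`, traces
-/

namespace Pool.Agent.MG.G0.ZL

open Polynomial

section

variable {A B : Type} [CommRing A] [CommRing B] {g : ℕ} {R : Subalgebra A (LaurentSeries A)}

/-- Approximation by elements of `R`. -/
theorem kr_dense (hR : Kr g R) :
    ∃ N : ℕ, ∀ f : LaurentSeries A, ∃ p ∈ R, f - p ∈ Pl A N := by
  classical
  obtain ⟨-, L, hL, hk⟩ := Kr_iff.1 hR
  choose v hv using fun j : Fin g => hL (Pi.single j 1)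
  choose n hn using fun j : Fin g => exists_Pl (v j)
  refine ⟨Finset.univ.sup n, fun f => ?_⟩
  have h1 : L (f - ∑ j, L f j • v j) = 0 := by
    rw [map_sub, map_sum]
    have h2 : ∀ j, L (L f j • v j) = Pi.single j (L f j) := by
      intro j
      rw [map_smul, hv, ← Pi.single_smul, smul_eq_mul, mul_one]
    rw [Finset.sum_congr rfl fun j _ => h2 j, Finset.univ_sum_single, sub_self]
  obtain ⟨p, hp, hq⟩ := (hk _).1 h1
  refine ⟨p, hp, ?_⟩
  have h3 : f - p = (f - ∑ j, L f j • v j - p) + ∑ j, L f j • v j := by abel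
  rw [h3]
  refine Submodule.add_mem _ (Pl_mono (by omega) hq) (Submodule.sum_mem _ fun j _ =>
    Submodule.smul_mem _ _ (Pl_mono ?_ (hn j)))
  exact_mod_cast Finset.le_sup (f := n) (Finset.mem_univ j)

/-- There are monic elements of all large orders. -/
theorem kr_monic (hR : Kr g R) :
    ∃ N : ℕ, ∀ n : ℕ, N < n → ∃ p ∈ R, p ∈ Pl A n ∧ p.coeff (-(n : ℤ)) = 1 := by
  obtain ⟨N, hN⟩ := kr_dense hR
  refine ⟨N, fun n hn => ?_⟩
  obtain ⟨p, hp, hq⟩ := hN (HahnSeries.single (-(n : ℤ)) 1)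
  have h1 : p = HahnSeries.single (-(n : ℤ)) 1 - (HahnSeries.single (-(n : ℤ)) 1 - p) := by abel
  refine ⟨p, hp, ?_, ?_⟩
  · rw [h1]
    exact Submodule.sub_mem _ (single_mem_Pl 1 (by omega)) (Pl_mono (by omega) hq)
  · rw [h1, HahnSeries.coeff_sub, HahnSeries.coeff_single_same, hq _ (by omega), sub_zero]

variable {d : ℕ} [NeZero d]

/-- The family `e` generates `R` over `A[z]`. -/
def Spn (R : Subalgebra A (LaurentSeries A)) (e : ZMod d → LaurentSeries A) : Prop :=
  (∀ i, e i ∈ R) ∧ ∀ x ∈ R, ∃ q : ZMod d → A[X], x = ∑ i, ev d (q i) * e i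

/-- A generating family with `d` elements is a basis of `A((τ))` over `A((τᵈ))`. -/
theorem cmat_isUnit (hR : Kr g R) {e : ZMod d → LaurentSeries A} (he : Spn R e) :
    IsUnit (cmat e).det := by
  classical
  obtain ⟨N, hN⟩ := kr_dense hR
  have hd : 0 < d := Nat.pos_of_ne_zero (NeZero.ne d)
  -- the orders
  let M : ZMod d → ℤ := fun i => ((d * (N + 2) : ℕ) : ℤ) - (i.val : ℤ)
  have hM : ∀ i, (N : ℤ) < M i := by
    intro i
    have h1 : i.val < d := ZMod.val_lt i
    have h2 : N + 2 ≤ d * (N + 2) := Nat.le_mul_of_pos_left _ hd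
    have h3 : (N + 1) + d ≤ d * (N + 2) := by nlinarith
    show (N : ℤ) < ((d * (N + 2) : ℕ) : ℤ) - (i.val : ℤ)
    omega
  have hMi : ∀ i, ((-M i : ℤ) : ZMod d) = i := by
    intro i
    show ((-(((d * (N + 2) : ℕ) : ℤ) - (i.val : ℤ)) : ℤ) : ZMod d) = i
    push_cast
    rw [ZMod.natCast_self, ZMod.natCast_zmod_val]
    ring
  choose p hp hq using fun i : ZMod d => hN (HahnSeries.single (-M i) 1)
  have hp' : ∀ i, p i = HahnSeries.single (-M i) 1 - (HahnSeries.single (-M i) 1 - p i) :=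
    fun i => by abel
  have h1 : ∀ i j, cmat p i j ∈ Pl A (M i) := by
    intro i j
    refine pr_mem_Pl j ?_
    rw [hp' i]
    exact Submodule.sub_mem _ (single_mem_Pl 1 (by omega)) (Pl_mono (hM i).le (hq i))
  have h2 : ∀ i j, (cmat p i j).coeff (-M i) = if i = j then 1 else 0 := by
    intro i j
    show (pr j (p i)).coeff (-M i) = if i = j then 1 else 0
    rw [pr_coeff, hMi]
    split_ifs with h
    · rw [hp' i, HahnSeries.coeff_sub, HahnSeries.coeff_single_same,
        hq i _ (by have := hM i; omega), sub_zero]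
    · rfl
  have h3 : IsUnit (cmat p).det := by
    obtain ⟨h4, h5⟩ := det_lead (cmat p) M h1
    refine isUnit_of_lead h4 ?_
    rw [h5]
    have h6 : (Matrix.of fun i j => (cmat p i j).coeff (-M i)) = (1 : Matrix _ _ A) := by
      ext1 i j
      rw [Matrix.of_apply, h2, Matrix.one_apply]
    rw [h6, Matrix.det_one]
    exact isUnit_one
  choose q hq' using fun i => he.2 (p i) (hp i)
  rw [cmat_mul (Matrix.of q) p e hq', Matrix.det_mul] at h3
  exact isUnit_of_mul_isUnit_right h3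

/-- Uniqueness of the coefficients. -/
theorem coef_unique {e : ZMod d → LaurentSeries A} (he : IsUnit (cmat e).det)
    {q q' : ZMod d → A[X]} (h : ∑ i, ev d (q i) * e i = ∑ i, ev d (q' i) * e i) : q = q' := by
  classical
  have h1 : Matrix.vecMul (fun i => ev d (q i) - ev d (q' i)) (cmat e) = 0 := by
    funext j
    rw [Matrix.vecMul, dotProduct]
    have h2 : ∀ i, (ev d (q i) - ev d (q' i)) * cmat e i j =
        pr j (ev d (q i) * e i) - pr j (ev d (q' i) * e i) := by
      intro i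
      rw [pr_ev_mul, pr_ev_mul, sub_mul]
      rfl
    rw [Finset.sum_congr rfl fun i _ => h2 i, Finset.sum_sub_distrib, ← map_sum, ← map_sum, h,
      sub_self]
    rfl
  have h3 : (fun i => ev d (q i) - ev d (q' i)) = 0 := by
    have h4 := congrArg (fun v => Matrix.vecMul v (cmat e)⁻¹) h1
    simp only [Matrix.vecMul_vecMul, Matrix.mul_nonsing_inv _ he, Matrix.vecMul_one,
      Matrix.zero_vecMul] at h4
    exact h4
  funext i
  apply ev_injective d (NeZero.ne d)
  exact sub_eq_zero.1 (congrFun h3 i)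

/-- The matrix of the multiplication by `x` in a basis. -/
theorem exists_mulMat (hR : Kr g R) {e : ZMod d → LaurentSeries A} (he : Spn R e)
    {x : LaurentSeries A} (hx : x ∈ R) : ∃ m : Matrix (ZMod d) (ZMod d) A[X],
      (cm d x).charpoly = m.charpoly.map (ev d : A[X] →ₐ[A] LaurentSeries A).toRingHom ∧
      (cm d x).trace = ev d m.trace := by
  classical
  have hu := cmat_isUnit hR he
  choose q hq using fun i => he.2 (x * e i) (mul_mem hx (he.1 i))
  let m : Matrix (ZMod d) (ZMod d) A[X] := Matrix.of q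
  have h1 : cmat e * cm d x = m.map (ev d) * cmat e := by
    ext1 i k
    rw [Matrix.mul_apply, Matrix.mul_apply]
    have h2 : ∑ j, cmat e i j * cm d x j k = pr k (x * e i) := by
      rw [mul_comm x, pr_mul]
      rfl
    rw [h2, hq i, map_sum]
    refine Finset.sum_congr rfl fun l _ => ?_
    rw [pr_ev_mul]
    rfl
  have hC : IsUnit (cmat e) := (Matrix.isUnit_iff_isUnit_det _).2 hu
  obtain ⟨u, hu'⟩ := hC
  have h2 : cm d x = (↑u⁻¹ : Matrix (ZMod d) (ZMod d) (LaurentSeries A)) * m.map (ev d) *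
      (u : Matrix (ZMod d) (ZMod d) (LaurentSeries A)) := by
    rw [mul_assoc, hu', ← h1, ← hu', ← mul_assoc, Units.inv_mul, one_mul]
  refine ⟨m, ?_, ?_⟩
  · rw [h2, Matrix.coe_units_inv, Matrix.charpoly_units_conj']
    exact Matrix.charpoly_map m (ev d : A[X] →ₐ[A] LaurentSeries A).toRingHom
  · rw [h2, Matrix.trace_units_conj']
    simp only [Matrix.trace, Matrix.diag_apply, Matrix.map_apply, map_sum]

/-- The coefficients of the characteristic polynomial are polynomials in `z`. -/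
theorem charpoly_coeff_mem (hR : Kr g R) {e : ZMod d → LaurentSeries A} (he : Spn R e)
    {x : LaurentSeries A} (hx : x ∈ R) (k : ℕ) : ∃ q : A[X],
      (cm d x).charpoly.coeff k = ev d q := by
  obtain ⟨m, hm, -⟩ := exists_mulMat hR he hx
  refine ⟨m.charpoly.coeff k, ?_⟩
  rw [hm, coeff_map]
  rfl

/-- The trace of an element of `R` is a polynomial in `z`. -/
theorem pr_mem_ev (hR : Kr g R) {e : ZMod d → LaurentSeries A} (he : Spn R e)
    (hd : IsUnit (d : A)) {x : LaurentSeries A} (hx : x ∈ R) : ∃ q : A[X],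
      pr (0 : ZMod d) x = ev d q := by
  obtain ⟨m, -, hm⟩ := exists_mulMat hR he hx
  obtain ⟨u, hu⟩ := hd
  refine ⟨C (↑u⁻¹ : A) * m.trace, ?_⟩
  rw [trace_cm] at hm
  rw [map_mul, ← hm, ← mul_assoc]
  have h1 : (d : LaurentSeries A) = ev d (C (d : A)) := by
    rw [map_natCast, map_natCast]
  rw [h1, ← map_mul, ← C_mul, ← hu, Units.inv_mul, C_1, map_one, one_mul]

end

end Pool.Agent.MG.G0.ZL


end

section

/-!
# Krichever rings over a field: gaps, the echelon basis, the degree of the discriminant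
-/

namespace Pool.Agent.MG.G0.ZL

open Polynomial

section

variable {A : Type} [CommRing A]

/-- Lowering the order. -/
theorem mem_Pl_pred {n : ℤ} {f : LaurentSeries A} (hf : f ∈ Pl A n) (h0 : f.coeff (-n) = 0) :
    f ∈ Pl A (n - 1) := by
  intro m hm
  by_cases h : m = -n
  · rw [h, h0]
  · exact hf m (by omega)

theorem zzpow_mul_mem_Pl {d : ℕ} (k : ℕ) {n : ℤ} {f : LaurentSeries A} (hf : f ∈ Pl A n) :
    ev d (X ^ k) * f ∈ Pl A ((d * k : ℕ) + n) := by
  rw [map_pow, ev_X, zz_pow]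
  exact mul_mem_Pl (single_mem_Pl 1 (by omega)) hf

theorem zzpow_mul_coeff {d : ℕ} (k : ℕ) {n : ℤ} {f : LaurentSeries A} (hf : f ∈ Pl A n) :
    (ev d (X ^ k) * f).coeff (-((d * k : ℕ) + n)) = f.coeff (-n) := by
  have h1 : (HahnSeries.single (-((d * k : ℕ) : ℤ)) (1 : A) : LaurentSeries A) ∈
      Pl A ((d * k : ℕ) : ℤ) := single_mem_Pl 1 (by omega)
  rw [map_pow, ev_X, zz_pow, coeff_mul_Pl h1 hf, HahnSeries.coeff_single_same, one_mul]

end

section

variable {κ : Type} [Field κ] {g : ℕ} {R : Subalgebra κ (LaurentSeries κ)} {d : ℕ} [NeZero d]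

/-- There is a monic element of order `n`. -/
def Ord (R : Subalgebra κ (LaurentSeries κ)) (n : ℕ) : Prop :=
  ∃ p ∈ R, p ∈ Pl κ n ∧ p.coeff (-(n : ℤ)) = 1

theorem ord_of_coeff {n : ℕ} {p : LaurentSeries κ} (hp : p ∈ R) (hn : p ∈ Pl κ n)
    (h : p.coeff (-(n : ℤ)) ≠ 0) : Ord R n := by
  refine ⟨(p.coeff (-(n : ℤ)))⁻¹ • p, R.smul_mem hp _, Submodule.smul_mem _ _ hn, ?_⟩
  rw [HahnSeries.coeff_smul, smul_eq_mul, inv_mul_cancel₀ h]

theorem ord_zero (R : Subalgebra κ (LaurentSeries κ)) : Ord R 0 := by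
  refine ⟨1, one_mem R, one_mem_Pl (by simp), ?_⟩
  simp

theorem ord_add {n m : ℕ} (hn : Ord R n) (hm : Ord R m) : Ord R (n + m) := by
  obtain ⟨p, hp, h1, h2⟩ := hn
  obtain ⟨q, hq, h3, h4⟩ := hm
  refine ⟨p * q, mul_mem hp hq, ?_, ?_⟩
  · push_cast
    exact mul_mem_Pl h1 h3
  · push_cast
    rw [coeff_mul_Pl h1 h3, h2, h4, one_mul]

theorem ord_d (hz : zz κ d ∈ R) : Ord R d :=
  ⟨zz κ d, hz, single_mem_Pl 1 le_rfl, HahnSeries.coeff_single_same _ _⟩

theorem ord_add_mul (hz : zz κ d ∈ R) {n : ℕ} (hn : Ord R n) (k : ℕ) : Ord R (n + d * k) := by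
  induction k with
  | zero => simpa using hn
  | succ k ih =>
    have h1 : n + d * (k + 1) = (n + d * k) + d := by ring
    rw [h1]
    exact ord_add ih (ord_d hz)

theorem eq_zero_of_neg (hR : Kr g R) {x : LaurentSeries κ} (hx : x ∈ R) (h : x ∈ Pl κ (-1)) :
    x = 0 := by
  obtain ⟨a, ha⟩ := (Kr_iff.1 hR).1 x hx (Pl_mono (by omega) h)
  have h1 := h 0 (by omega)
  rw [ha, coeff_algebraMap, if_pos rfl] at h1
  rw [ha, h1, map_zero]

/-- The least order in every class. -/
theorem exists_ech (hR : Kr g R) (hz : zz κ d ∈ R) :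
    ∃ N : ZMod d → ℕ, (∀ i, (N i : ZMod d) = i) ∧ (∀ n : ℕ, Ord R n ↔ N n ≤ n) := by
  classical
  have hd : 0 < d := Nat.pos_of_ne_zero (NeZero.ne d)
  obtain ⟨M, hM⟩ := kr_monic hR
  have h1 : ∀ i : ZMod d, ∃ n : ℕ, (n : ZMod d) = i ∧ Ord R n := by
    intro i
    refine ⟨i.val + d * (M + 1), ?_, ?_⟩
    · push_cast
      rw [ZMod.natCast_self, ZMod.natCast_zmod_val]
      ring
    · refine hM _ ?_
      have : M + 1 ≤ d * (M + 1) := Nat.le_mul_of_pos_left _ hd
      omega
  refine ⟨fun i => Nat.find (h1 i), fun i => (Nat.find_spec (h1 i)).1, fun n => ⟨fun h => ?_,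
    fun h => ?_⟩⟩
  · exact Nat.find_min' _ ⟨rfl, h⟩
  · have h' : Nat.find (h1 (n : ZMod d)) ≤ n := h
    obtain ⟨h2, h3⟩ := Nat.find_spec (h1 (n : ZMod d))
    have h4 : d ∣ n - Nat.find (h1 (n : ZMod d)) := by
      rw [← ZMod.natCast_eq_zero_iff, Nat.cast_sub h', h2, sub_self]
    obtain ⟨k, hk⟩ := h4
    have h5 : n = Nat.find (h1 (n : ZMod d)) + d * k := by omega
    rw [h5]
    exact ord_add_mul hz h3 k

/-- Elements with monic leading terms of the least orders generate. -/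
theorem spn_of_ech (hR : Kr g R) (hz : zz κ d ∈ R) (N : ZMod d → ℕ)
    (hN : ∀ i, (N i : ZMod d) = i) (hN' : ∀ n : ℕ, Ord R n ↔ N n ≤ n)
    (e : ZMod d → LaurentSeries κ) (he : ∀ i, e i ∈ R) (he1 : ∀ i, e i ∈ Pl κ (N i))
    (he2 : ∀ i, (e i).coeff (-(N i : ℤ)) = 1) : Spn R e := by
  classical
  refine ⟨he, ?_⟩
  have key : ∀ n : ℕ, ∀ x ∈ R, x ∈ Pl κ ((n : ℤ) - 1) →
      ∃ q : ZMod d → κ[X], x = ∑ i, ev d (q i) * e i := by
    intro n
    induction n with
    | zero =>
      intro x hx hx'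
      refine ⟨0, ?_⟩
      rw [eq_zero_of_neg hR hx (by simpa using hx')]
      simp
    | succ n ih =>
      intro x hx hx'
      have hx'' : x ∈ Pl κ n := by
        have h1 : ((n + 1 : ℕ) : ℤ) - 1 = n := by push_cast; ring
        rwa [h1] at hx'
      by_cases ha : x.coeff (-(n : ℤ)) = 0
      · exact ih x hx (mem_Pl_pred hx'' ha)
      · have h1 : N n ≤ n := (hN' n).1 (ord_of_coeff hx hx'' ha)
        have h2 : d ∣ n - N n := by
          rw [← ZMod.natCast_eq_zero_iff, Nat.cast_sub h1, hN, sub_self]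
        obtain ⟨k, hk⟩ := h2
        have h3 : (n : ℤ) = (d * k : ℕ) + (N n : ℤ) := by omega
        let y : LaurentSeries κ := ev d (C (x.coeff (-(n : ℤ))) * X ^ k) * e n
        have hy : y ∈ R := by
          refine mul_mem ?_ (he _)
          rw [map_mul, ev_C, map_pow, ev_X]
          exact mul_mem (R.algebraMap_mem _) (pow_mem hz k)
        have hy1 : y = x.coeff (-(n : ℤ)) • (ev d (X ^ k) * e n) := by
          show ev d (C (x.coeff (-(n : ℤ))) * X ^ k) * e n = _
          rw [map_mul, ev_C, mul_assoc, ← Algebra.smul_def]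
        have hy2 : y ∈ Pl κ n := by
          rw [hy1, h3]
          exact Submodule.smul_mem _ _ (zzpow_mul_mem_Pl k (he1 _))
        have hy3 : y.coeff (-(n : ℤ)) = x.coeff (-(n : ℤ)) := by
          have h4 := zzpow_mul_coeff (d := d) k (he1 (n : ZMod d))
          rw [← h3, he2] at h4
          rw [hy1, HahnSeries.coeff_smul, h4, smul_eq_mul, mul_one]
        obtain ⟨q, hq⟩ := ih (x - y) (sub_mem hx hy)
          (mem_Pl_pred (Submodule.sub_mem _ hx'' hy2) (by
            rw [HahnSeries.coeff_sub, hy3, sub_self]))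
        refine ⟨q + Pi.single (n : ZMod d) (C (x.coeff (-(n : ℤ))) * X ^ k), ?_⟩
        have h5 : x = (x - y) + y := by abel
        conv_lhs => rw [h5, hq]
        have h6 : ∀ i, ev d ((q + Pi.single (n : ZMod d)
            (C (x.coeff (-(n : ℤ))) * X ^ k) : ZMod d → κ[X]) i) * e i = ev d (q i) * e i + if i = (n : ZMod d) then y else 0 := by
          intro i
          rw [Pi.add_apply, map_add, add_mul]
          congr 1
          by_cases hi : i = (n : ZMod d)
          · rw [if_pos hi, hi, Pi.single_eq_same]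
          · rw [if_neg hi, Pi.single_eq_of_ne hi, map_zero, zero_mul]
        rw [Finset.sum_congr rfl fun i _ => h6 i, Finset.sum_add_distrib, Finset.sum_ite_eq',
          if_pos (Finset.mem_univ _)]
  intro x hx
  obtain ⟨n, hn⟩ := exists_Pl x
  refine key (n + 1) x hx ?_
  push_cast
  rwa [add_sub_cancel_right]

/-- The number of gaps. -/
theorem sum_ech_aux (hR : Kr g R) (N : ZMod d → ℕ)
    (hN : ∀ i, (N i : ZMod d) = i) (hN' : ∀ n : ℕ, Ord R n ↔ N n ≤ n) :
    ∑ i, N i = d * g + ∑ i : ZMod d, i.val ∧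
      ∃ s : Finset ℕ, (∀ n, n ∈ s ↔ ¬ Ord R n) ∧ s.card = g := by
  classical
  have hd : 0 < d := Nat.pos_of_ne_zero (NeZero.ne d)
  obtain ⟨-, L, hL, hk⟩ := Kr_iff.1 hR
  -- `N i = i.val + d * k i`
  have h1 : ∀ i : ZMod d, ∃ k : ℕ, N i = i.val + d * k := by
    intro i
    have h2 : (N i) % d = i.val := by
      rw [← ZMod.val_natCast, hN]
    exact ⟨N i / d, by rw [← h2, Nat.mod_add_div]⟩
  choose k hk' using h1
  let ι := (i : ZMod d) × Fin (k i)
  let ex : ι → ℕ := fun s => s.1.val + d * (s.2 : ℕ)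
  have hexi : ∀ s : ι, ((ex s : ℕ) : ZMod d) = s.1 := by
    intro s
    show ((s.1.val + d * (s.2 : ℕ) : ℕ) : ZMod d) = s.1
    push_cast
    rw [ZMod.natCast_self, ZMod.natCast_zmod_val]
    ring
  have hexlt : ∀ s : ι, ex s < N s.1 := by
    intro s
    rw [hk']
    show s.1.val + d * (s.2 : ℕ) < s.1.val + d * k s.1
    have := (Nat.mul_lt_mul_left hd).2 s.2.2
    omega
  have hexno : ∀ s : ι, ¬ Ord R (ex s) := by
    intro s
    rw [hN', hexi]
    have := hexlt s
    omega
  have hexinj : Function.Injective ex := by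
    intro s t hst
    have h2 : s.1 = t.1 := by rw [← hexi s, ← hexi t, hst]
    obtain ⟨i, a⟩ := s
    obtain ⟨j, b⟩ := t
    simp only at h2
    subst h2
    have h3 : i.val + d * (a : ℕ) = i.val + d * (b : ℕ) := hst
    have h4 : (a : ℕ) = b := Nat.eq_of_mul_eq_mul_left hd (by omega)
    rw [Fin.ext h4]
  have hexsurj : ∀ n : ℕ, ¬ Ord R n → ∃ s : ι, ex s = n := by
    intro n hn
    rw [hN', not_le, hk'] at hn
    have h2 : n = (n : ZMod d).val + d * (n / d) := by
      rw [ZMod.val_natCast, Nat.mod_add_div]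
    have h3 : n / d < k (n : ZMod d) := by
      have h4 : (n : ZMod d).val + d * (n / d) < (n : ZMod d).val + d * k (n : ZMod d) := by
        rw [← h2]
        exact hn
      exact (Nat.mul_lt_mul_left hd).1 (by omega)
    exact ⟨⟨(n : ZMod d), ⟨n / d, h3⟩⟩, h2.symm⟩
  let v : ι → (Fin g → κ) := fun s => L (HahnSeries.single (-(ex s : ℤ)) 1)
  -- independence
  have hli : LinearIndependent κ v := by
    rw [Fintype.linearIndependent_iff]
    intro c hc
    have h2 : L (∑ s, c s • (HahnSeries.single (-(ex s : ℤ)) (1 : κ))) = 0 := by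
      rw [map_sum, ← hc]
      exact Finset.sum_congr rfl fun s _ => map_smul _ _ _
    obtain ⟨p, hp, hq⟩ := (hk _).1 h2
    set f : LaurentSeries κ := ∑ s, c s • (HahnSeries.single (-(ex s : ℤ)) (1 : κ)) with hf
    have hfc : ∀ t : ι, f.coeff (-(ex t : ℤ)) = c t := by
      intro t
      rw [hf, HahnSeries.coeff_sum]
      have h3 : ∀ s, (c s • (HahnSeries.single (-(ex s : ℤ)) (1 : κ))).coeff (-(ex t : ℤ)) =
          if s = t then c t else 0 := by
        intro s
        rw [HahnSeries.coeff_smul, smul_eq_mul]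
        by_cases hs : s = t
        · rw [if_pos hs, hs, HahnSeries.coeff_single_same, mul_one]
        · rw [if_neg hs, HahnSeries.coeff_single_of_ne, mul_zero]
          intro h4
          apply hs
          apply hexinj
          omega
      rw [Finset.sum_congr rfl fun s _ => h3 s, Finset.sum_ite_eq', if_pos (Finset.mem_univ _)]
    by_contra hcon
    push Not at hcon
    obtain ⟨s0, hs0⟩ := hcon
    obtain ⟨t, ht, htmax⟩ := Finset.exists_max_image
      (Finset.univ.filter fun s => c s ≠ 0) ex ⟨s0, by simpa using hs0⟩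
    have ht0 : c t ≠ 0 := (Finset.mem_filter.1 ht).2
    have hfP : f ∈ Pl κ (ex t) := by
      rw [hf]
      refine Submodule.sum_mem _ fun s _ => ?_
      by_cases hs : c s = 0
      · rw [hs, zero_smul]
        exact Submodule.zero_mem _
      · refine Submodule.smul_mem _ _ (single_mem_Pl 1 ?_)
        have := htmax s (by simpa using hs)
        omega
    have ht1 : 0 < ex t := by
      rcases Nat.eq_zero_or_pos (ex t) with h | h
      · exact absurd (h ▸ ord_zero R) (hexno t)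
      · exact h
    have hp1 : p = f - (f - p) := by abel
    apply hexno t
    refine ord_of_coeff hp ?_ ?_
    · rw [hp1]
      exact Submodule.sub_mem _ hfP (Pl_mono (by omega) hq)
    · rw [hp1, HahnSeries.coeff_sub, hq _ (by omega), sub_zero, hfc]
      exact ht0
  -- generation
  have hsp : ⊤ ≤ Submodule.span κ (Set.range v) := by
    rintro c -
    obtain ⟨f, rfl⟩ := hL c
    obtain ⟨n, hn⟩ := exists_Pl f
    have key : ∀ n : ℕ, ∀ f : LaurentSeries κ, f ∈ Pl κ n →
        L f ∈ Submodule.span κ (Set.range v) := by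
      intro n
      induction n with
      | zero =>
        intro f hf
        have h2 : L f = 0 := (hk f).2 ⟨0, zero_mem R, by simpa using hf⟩
        rw [h2]
        exact Submodule.zero_mem _
      | succ n ih =>
        intro f hf
        by_cases ho : Ord R (n + 1)
        · obtain ⟨p, hp, hp1, hp2⟩ := ho
          have h2 : L p = 0 := (hk p).2 ⟨p, hp, by rw [sub_self]; exact Submodule.zero_mem _⟩
          have h3 : f = (f - f.coeff (-((n + 1 : ℕ) : ℤ)) • p) +
              f.coeff (-((n + 1 : ℕ) : ℤ)) • p := by abel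
          rw [h3, map_add, map_smul, h2, smul_zero, add_zero]
          refine ih _ ?_
          have h4 := mem_Pl_pred (Submodule.sub_mem _ hf (Submodule.smul_mem _
            (f.coeff (-((n + 1 : ℕ) : ℤ))) hp1)) (by
              rw [HahnSeries.coeff_sub, HahnSeries.coeff_smul, hp2, smul_eq_mul, mul_one,
                sub_self])
          have h5 : ((n + 1 : ℕ) : ℤ) - 1 = n := by push_cast; ring
          rwa [h5] at h4
        · obtain ⟨s, hs⟩ := hexsurj _ ho
          have h3 : f = (f - f.coeff (-((n + 1 : ℕ) : ℤ)) •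
              (HahnSeries.single (-((n + 1 : ℕ) : ℤ)) (1 : κ))) +
              f.coeff (-((n + 1 : ℕ) : ℤ)) •
                (HahnSeries.single (-((n + 1 : ℕ) : ℤ)) (1 : κ)) := by abel
          rw [h3, map_add, map_smul]
          refine Submodule.add_mem _ (ih _ ?_) (Submodule.smul_mem _ _
            (Submodule.subset_span ⟨s, ?_⟩))
          · have h4 := mem_Pl_pred (Submodule.sub_mem _ hf (Submodule.smul_mem _
              (f.coeff (-((n + 1 : ℕ) : ℤ)))
              (single_mem_Pl (n := ((n + 1 : ℕ) : ℤ)) (1 : κ) le_rfl))) (by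
                rw [HahnSeries.coeff_sub, HahnSeries.coeff_smul, HahnSeries.coeff_single_same,
                  smul_eq_mul, mul_one, sub_self])
            have h5 : ((n + 1 : ℕ) : ℤ) - 1 = n := by push_cast; ring
            rwa [h5] at h4
          · show L (HahnSeries.single (-(ex s : ℤ)) 1) = _
            rw [hs]
    exact key n f hn
  have hb := Module.finrank_eq_card_basis (Module.Basis.mk hli hsp)
  rw [Module.finrank_fin_fun] at hb
  have hcard : Fintype.card ι = ∑ i, k i := by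
    rw [Fintype.card_sigma]
    simp
  refine ⟨?_, Finset.univ.image ex, fun n => ⟨fun hn => ?_, fun hn => ?_⟩, ?_⟩
  · rw [hcard] at hb
    rw [Finset.sum_congr rfl fun i _ => hk' i, Finset.sum_add_distrib, ← Finset.mul_sum, ← hb,
      add_comm]
  · obtain ⟨s, -, rfl⟩ := Finset.mem_image.1 hn
    exact hexno s
  · obtain ⟨s, hs⟩ := hexsurj n hn
    exact Finset.mem_image.2 ⟨s, Finset.mem_univ _, hs⟩
  · rw [Finset.card_image_of_injective _ hexinj, Finset.card_univ, ← hb]

/-- The sum of the orders of the echelon basis. -/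
theorem sum_ech (hR : Kr g R) (N : ZMod d → ℕ)
    (hN : ∀ i, (N i : ZMod d) = i) (hN' : ∀ n : ℕ, Ord R n ↔ N n ≤ n) :
    ∑ i, N i = d * g + ∑ i : ZMod d, i.val := (sum_ech_aux hR N hN hN').1

/-- All orders `n ≥ 2g` occur. -/
theorem ord_of_two_mul_le (hR : Kr g R) (hz : zz κ d ∈ R) {n : ℕ} (hn : 2 * g ≤ n) :
    Ord R n := by
  classical
  obtain ⟨N, hN, hN'⟩ := exists_ech hR hz
  obtain ⟨s, hs, hcard⟩ := (sum_ech_aux hR N hN hN').2
  by_contra hno
  have h1 : Finset.range (n + 1) ⊆ s ∪ s.image fun m => n - m := by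
    intro m hm
    rw [Finset.mem_range] at hm
    rw [Finset.mem_union]
    by_cases h2 : Ord R m
    · right
      rw [Finset.mem_image]
      refine ⟨n - m, ?_, by omega⟩
      rw [hs]
      intro h3
      apply hno
      have h4 : n = m + (n - m) := by omega
      rw [h4]
      exact ord_add h2 h3
    · left
      exact (hs m).2 h2
  have h2 := Finset.card_le_card h1
  have h3 := Finset.card_union_le s (s.image fun m => n - m)
  have h4 : (s.image fun m => n - m).card ≤ s.card := Finset.card_image_le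
  rw [Finset.card_range] at h2
  omega

theorem two_sum_val : 2 * ∑ i : ZMod d, i.val = d * (d - 1) := by
  obtain ⟨n, hn⟩ : ∃ n, d = n + 1 := Nat.exists_eq_succ_of_ne_zero (NeZero.ne d)
  subst hn
  have h1 : ∑ i : ZMod (n + 1), i.val = ∑ i ∈ Finset.range (n + 1), i := by
    rw [← Fin.sum_univ_eq_sum_range (fun i => i) (n + 1)]
    rfl
  rw [h1, mul_comm, Finset.sum_range_id_mul_two]

end

end Pool.Agent.MG.G0.ZL


end

section

/-!
# Discriminants
-/

namespace Pool.Agent.MG.G0.ZL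

open Polynomial

section

variable {A : Type} [CommRing A] {g : ℕ} {R : Subalgebra A (LaurentSeries A)} {d : ℕ} [NeZero d]

/-- The discriminant condition in terms of families indexed by `ZMod d`. -/
def Dsc (R : Subalgebra A (LaurentSeries A)) (d : ℕ) [NeZero d] (f : A[X]) : Prop :=
  ∃ e : ZMod d → LaurentSeries A, Spn R e ∧ ∃ u : A[X], IsUnit u ∧
    (gram e).det = ev d (u * f)

/-- Change of basis. -/
theorem exists_change (hR : Kr g R) {e e' : ZMod d → LaurentSeries A} (he : Spn R e)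
    (he' : Spn R e') : ∃ a : Matrix (ZMod d) (ZMod d) A[X], IsUnit a.det ∧
      ∀ i, e i = ∑ j, ev d (a i j) * e' j := by
  classical
  choose a ha using fun i => he'.2 (e i) (he.1 i)
  choose b hb using fun i => he.2 (e' i) (he'.1 i)
  refine ⟨Matrix.of a, ?_, ha⟩
  have h1 : (Matrix.of a : Matrix (ZMod d) (ZMod d) A[X]) * Matrix.of b = 1 := by
    have h2 : ∀ i, (fun j => ((Matrix.of a : Matrix (ZMod d) (ZMod d) A[X]) *
        Matrix.of b) i j) = fun j => (1 : Matrix (ZMod d) (ZMod d) A[X]) i j := by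
      intro i
      apply coef_unique (cmat_isUnit hR he)
      have h3 : ∑ j, ev d ((1 : Matrix (ZMod d) (ZMod d) A[X]) i j) * e j = e i := by
        have h4 : ∀ j, ev d ((1 : Matrix (ZMod d) (ZMod d) A[X]) i j) * e j =
            if i = j then e i else 0 := by
          intro j
          rw [Matrix.one_apply]
          split_ifs with h
          · rw [map_one, one_mul, h]
          · rw [map_zero, zero_mul]
        rw [Finset.sum_congr rfl fun j _ => h4 j, Finset.sum_ite_eq,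
          if_pos (Finset.mem_univ _)]
      rw [h3]
      conv_rhs => rw [ha i]
      have h5 : ∀ j, ev d (((Matrix.of a : Matrix (ZMod d) (ZMod d) A[X]) *
          Matrix.of b) i j) * e j = ∑ l, ev d (a i l) * (ev d (b l j) * e j) := by
        intro j
        rw [Matrix.mul_apply, map_sum, Finset.sum_mul]
        refine Finset.sum_congr rfl fun l _ => ?_
        rw [map_mul, mul_assoc]
        rfl
      rw [Finset.sum_congr rfl fun j _ => h5 j, Finset.sum_comm]
      refine Finset.sum_congr rfl fun l _ => ?_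
      rw [← Finset.mul_sum, ← hb l]
    ext1 i j
    exact congrFun (h2 i) j
  refine IsUnit.of_mul_eq_one (Matrix.of b).det ?_
  rw [← Matrix.det_mul, h1, Matrix.det_one]

theorem disc_of_dsc (hR : Kr g R) (hd : IsUnit (d : A)) {f : A[X]}
    (h : Dsc R d f) : Disc d R f := by
  classical
  obtain ⟨e, he, u, hu, hdet⟩ := h
  let σ : Fin d ≃ ZMod d := (ZMod.finEquiv d).toEquiv
  choose G hG using fun i j : ZMod d => pr_mem_ev hR he hd (mul_mem (he.1 i) (he.1 j))
  have hsum : ∀ c : ZMod d → A[X], ∑ i, zpol A d (c (σ i)) * e (σ i) =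
      ∑ i, ev d (c i) * e i := fun c => Equiv.sum_comp σ fun i => ev d (c i) * e i
  refine ⟨fun i => e (σ i), Matrix.of fun i j => G (σ i) (σ j), ⟨fun i => he.1 _, ?_⟩, ?_, u, hu,
    ?_⟩
  · intro x hx
    obtain ⟨q, hq⟩ := he.2 x hx
    refine ⟨fun i => q (σ i), ?_, ?_⟩
    · show x = ∑ i, zpol A d (q (σ i)) * e (σ i)
      rw [hsum, hq]
    · intro c hc
      have h1 : ∑ i, ev d ((fun i => c (σ.symm i)) i) * e i = ∑ i, ev d (q i) * e i := by
        rw [← hq, ← hsum (fun i => c (σ.symm i))]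
        simp only [Equiv.symm_apply_apply]
        exact hc.symm
      have h2 := coef_unique (cmat_isUnit hR he) h1
      funext i
      rw [← h2]
      show c i = c (σ.symm (σ i))
      rw [Equiv.symm_apply_apply]
  · intro i j
    show zpol A d (G (σ i) (σ j)) = pr0 A d (e (σ i) * e (σ j))
    rw [← pr_zero_eq, hG]
  · apply ev_injective (A := A) d (NeZero.ne d)
    rw [← hdet, ← det_map_ev]
    have h1 : gram e = (Matrix.of G).map (ev d) := by
      ext1 i j
      exact hG i j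
    rw [h1, ← Matrix.det_submatrix_equiv_self σ]
    rfl

theorem dsc_of_disc {f : A[X]} (h : Disc d R f) : Dsc R d f := by
  classical
  obtain ⟨e, G, he, hG, u, hu, hdet⟩ := h
  let σ : Fin d ≃ ZMod d := (ZMod.finEquiv d).toEquiv
  refine ⟨fun i => e (σ.symm i), ⟨fun i => he.mem _, fun x hx => ?_⟩, u, hu, ?_⟩
  · obtain ⟨c, hc, -⟩ := he.uni x hx
    refine ⟨fun i => c (σ.symm i), ?_⟩
    have h1 := Equiv.sum_comp σ.symm fun i => ev d (c i) * e i
    exact hc.trans h1.symm
  · rw [← hdet, ← det_map_ev, ← Matrix.det_submatrix_equiv_self σ]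
    congr 1
    ext1 i j
    rw [Matrix.submatrix_apply, Matrix.map_apply]
    show pr (0 : ZMod d) (e (σ.symm (σ i)) * e (σ.symm (σ j))) = ev d (G i j)
    rw [Equiv.symm_apply_apply, Equiv.symm_apply_apply, pr_zero_eq]
    exact (hG i j).symm

end

section

variable {κ : Type} [Field κ] {g : ℕ} {R : Subalgebra κ (LaurentSeries κ)} {d : ℕ} [NeZero d]

/-- The degree of a polynomial from the order of its value. -/
theorem natDegree_of_lead {p : κ[X]} {b : ℕ} (h1 : ev d p ∈ Pl κ ((d * b : ℕ) : ℤ))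
    (h2 : (ev d p).coeff (-((d * b : ℕ) : ℤ)) ≠ 0) : p.natDegree = b := by
  rw [ev_coeff d (NeZero.ne d)] at h2
  apply le_antisymm
  · rw [natDegree_le_iff_coeff_eq_zero]
    intro n hn
    rw [← ev_coeff d (NeZero.ne d)]
    apply h1
    have h3 : d * b < d * n := (Nat.mul_lt_mul_left (Nat.pos_of_ne_zero (NeZero.ne d))).2 hn
    omega
  · exact le_natDegree_of_ne_zero h2

/-- Existence of the echelon basis. -/
theorem exists_echelon (hR : Kr g R) (hz : zz κ d ∈ R) :
    ∃ (N : ZMod d → ℕ) (e : ZMod d → LaurentSeries κ), (∀ i, (N i : ZMod d) = i) ∧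
      (∀ n : ℕ, Ord R n ↔ N n ≤ n) ∧ Spn R e ∧ (∀ i, e i ∈ Pl κ (N i)) ∧
      (∀ i, (e i).coeff (-(N i : ℤ)) = 1) := by
  obtain ⟨N, hN, hN'⟩ := exists_ech hR hz
  have h1 : ∀ i, Ord R (N i) := by
    intro i
    rw [hN', hN]
  choose e he he1 he2 using h1
  exact ⟨N, e, hN, hN', spn_of_ech hR hz N hN hN' e he he1 he2, he1, he2⟩

/-- The degree of the Gram determinant. -/
theorem gram_natDegree (hR : Kr g R) (hz : zz κ d ∈ R) {e : ZMod d → LaurentSeries κ}
    (he : Spn R e) {p : κ[X]} (hp : (gram e).det = ev d p) :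
    p ≠ 0 ∧ p.natDegree = 2 * g + (d - 1) := by
  classical
  obtain ⟨N, e', hN, hN', he', h1, h2⟩ := exists_echelon hR hz
  obtain ⟨a, ha, hae⟩ := exists_change hR he' he
  have h3 := gram_det_mul a e' e hae
  rw [hp, ← map_mul] at h3
  have hNZ : ∀ i, (((N i : ℕ) : ℤ) : ZMod d) = i := by
    intro i
    rw [Int.cast_natCast, hN]
  obtain ⟨h4, h5⟩ := gram_det_lead e' (fun i => (N i : ℤ)) hNZ h1
  have h6 : (2 : ℤ) * ∑ i, (N i : ℤ) = ((d * (2 * g + (d - 1)) : ℕ) : ℤ) := by
    have h7 : 2 * ∑ i, N i = d * (2 * g + (d - 1)) := by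
      rw [sum_ech hR N hN hN', mul_add, two_sum_val]
      ring
    rw [← h7]
    push_cast
    rfl
  have h8 : (gram e').det.coeff (-((d * (2 * g + (d - 1)) : ℕ) : ℤ)) ≠ 0 := by
    rw [h6] at h5
    have h9 : ∏ i, (e' i).coeff (-(N i : ℤ)) = 1 := Finset.prod_eq_one fun i _ => h2 i
    rcases h5 with h | h
    · rw [h, h9]
      simp
    · rw [h, h9]
      simp
  rw [h6, h3] at h4
  rw [h3] at h8
  have h10 := natDegree_of_lead h4 h8
  have h11 : a.det ^ 2 * p ≠ 0 := by
    intro h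
    rw [h, map_zero, HahnSeries.coeff_zero] at h8
    exact h8 rfl
  have h12 : p ≠ 0 := right_ne_zero_of_mul h11
  refine ⟨h12, ?_⟩
  rw [← h10, natDegree_mul (left_ne_zero_of_mul h11) h12, natDegree_pow,
    natDegree_eq_zero_of_isUnit ha, mul_zero, zero_add]

end

end Pool.Agent.MG.G0.ZL


end

section

/-!
# Statements on the special curve (PAPER.md, section G)
-/

namespace Pool.Agent.MG.G0

/-- GST: the structure of the ring of the special curve (G1, G2). -/
def Stmt_GST : Prop :=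
  ∀ {A : Type} [CommRing A] (S : SCD A),
    S.Y ^ 2 = zpol A 3 S.pA * S.W ∧ S.Y * S.W = zpol A 3 S.pD ∧ S.W ^ 2 = zpol A 3 S.pB * S.Y ∧
    S.pA * S.pB = S.pD ∧ S.Yi * S.Y = 1 ∧ S.Wi * S.W = 1 ∧
    (3 : A) • (zpol A 3 S.pD * ld S.Y) = zpol A 3 S.cY * S.Y * ld (zz A 3) ∧
    (3 : A) • (zpol A 3 S.pD * ld S.W) = zpol A 3 S.cW * S.W * ld (zz A 3) ∧
    (∀ f, f ∈ S.R ↔ ∃ p q s : Polynomial A,
      f = zpol A 3 p + zpol A 3 q * S.Y + zpol A 3 s * S.W) ∧
    (∀ p q s : Polynomial A, zpol A 3 p + zpol A 3 q * S.Y + zpol A 3 s * S.W = 0 →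
      p = 0 ∧ q = 0 ∧ s = 0) ∧
    (∀ f : LaurentSeries A, f = pr0 A 3 f + pr0 A 3 (f * S.Yi) * S.Y + pr0 A 3 (f * S.Wi) * S.W) ∧
    (∀ f : LaurentSeries A, (∃ p ∈ S.R, f - p ∈ Po A 0) ↔
      (∀ i : ℕ, 1 ≤ i → 3 * i < S.n1 → (f * S.Yi).coeff (3 * i) = 0) ∧
      (∀ j : ℕ, 1 ≤ j → 3 * j < S.n2 → (f * S.Wi).coeff (3 * j) = 0)) ∧
    Kr S.g S.R

/-- GLF: homomorphisms from the ring of the special curve. -/
def Stmt_GLF : Prop :=
  ∀ {A : Type} [CommRing A] (S : SCD A) (B : Type) [CommRing B] [Algebra A B] (x y w : B),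
    y ^ 2 = x ^ S.a * w → y * w = x ^ (S.g + 1) - x →
    w ^ 2 = (x ^ (S.g + 1 - S.a) - x ^ (1 - S.a)) * y →
    ∃! h : S.R →ₐ[A] B, h S.x = x ∧ h S.y = y ∧ h S.w = w

/-- GFS: the special curve is smooth. -/
def Stmt_GFS : Prop :=
  ∀ {A : Type} [CommRing A] (S : SCD A), Algebra.FormallySmooth A S.R

/-- GSM: the special curve has a smoothness certificate (G3). -/
def Stmt_GSM : Prop :=
  ∀ {A : Type} [CommRing A] (S : SCD A), SmC A S.R

/-- GTT: vector fields on the special curve (G4, G5). -/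
def Stmt_GTT : Prop :=
  ∀ {A : Type} [CommRing A] (S : SCD A),
    (∀ θ, θ ∈ TT1 S.R ↔ ∃ p q s : Polynomial A, θ * ld (zz A 3) =
      zpol A 3 (S.pD * p) + zpol A 3 (S.pB * q) * S.Y + zpol A 3 (S.pA * s) * S.W) ∧ Rgd S.R

/-- GNO: Noether's theorem for the special curve (G6). -/
def Stmt_GNO : Prop :=
  ∀ {A : Type} [CommRing A] (S : SCD A), Noe S.R

/-- GFR: the special curve is superspecial (G7). -/
def Stmt_GFR : Prop :=
  ∀ {A : Type} [CommRing A] (S : SCD A) (p : ℕ), p.Prime → CharP A p →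
    p % (3 * S.g) = 3 * S.g - 1 → Ssp p S.R

/-- GDV: the derivation `d/dζ` of the separable closure of `F(ζ)`. -/
def Stmt_GDV : Prop :=
  ∀ {F K : Type} [Field F] [Field K] [Algebra F K] (ζ : K), Transcendental F ζ →
    ∃ (L : IntermediateField F K) (hζ : ζ ∈ L) (δ : Derivation F L L), δ ⟨ζ, hζ⟩ = 1 ∧
      ∀ (q : Polynomial L) (x : K), q.Separable → Polynomial.aeval x q = 0 → x ∈ L

/-- GCV: the critical points of `X^(2g+3) + ζ Y` and their values (G8). -/
def Stmt_GCV : Prop :=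
  ∀ {F K : Type} [Field F] [Field K] [Algebra F K] [IsAlgClosed K] (g a : ℕ), 2 ≤ g → a ≤ 1 →
    ¬ 3 ∣ g + 1 + a → (((6 * g + 9).factorial : ℕ) : K) ≠ 0 → ∀ ζ : K, Transcendental F ζ →
    ∃ β : Fin (8 * g + 8) → K, Function.Injective β ∧ ∀ l, ∃ x y w : DualNumber K,
      y ^ 2 = x ^ a * w ∧ y * w = x ^ (g + 1) - x ∧
      w ^ 2 = (x ^ (g + 1 - a) - x ^ (1 - a)) * y ∧
      (x.snd ≠ 0 ∨ y.snd ≠ 0 ∨ w.snd ≠ 0) ∧
      x ^ (2 * g + 3) + TrivSqZeroExt.inl ζ * y = TrivSqZeroExt.inl (β l)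

/-- GDG: the Gram determinant vanishes at critical values. -/
def Stmt_GDG : Prop :=
  ∀ {K : Type} [Field K] (g d : ℕ), 0 < d → ((d : ℕ) : K) ≠ 0 →
    ∀ (R : Subalgebra K (LaurentSeries K)), Kr g R → ∀ z : R, (z : LaurentSeries K) = zz K d →
    ∀ (e : Fin d → LaurentSeries K) (G : Matrix (Fin d) (Fin d) (Polynomial K)),
      ZBas d R e → ZGram d e G →
      ∀ (β : K) (h : R →ₐ[K] DualNumber K), h z = TrivSqZeroExt.inl β →
        (∃ f : R, (h f).snd ≠ 0) → G.det.eval β = 0

/-- GDB: base change of discriminants. -/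
def Stmt_GDB : Prop :=
  ∀ {A B : Type} [CommRing A] [CommRing B] (φ : A →+* B) (g d : ℕ), 0 < d → IsUnit (d : A) →
    ∀ R : Subalgebra A (LaurentSeries A), Kr g R → ∀ f : Polynomial A, Disc d R f →
      Disc d (bc1 φ R) (f.map φ)

/-- GTR: transport of the properties by a change of coordinates (G9). -/
def Stmt_GTR : Prop :=
  ∀ {A : Type} [CommRing A] (u : PowerSeries A), PowerSeries.constantCoeff u = 0 →
    IsUnit (PowerSeries.coeff 1 u) → ∀ Φ : LaurentSeries A ≃ₐ[A] LaurentSeries A,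
    IsSub u (Φ : LaurentSeries A →ₐ[A] LaurentSeries A) →
    ∀ R R' : Subalgebra A (LaurentSeries A),
      R' = R.comap (Φ : LaurentSeries A →ₐ[A] LaurentSeries A) →
      (∀ g : ℕ, Kr g R → Kr g R') ∧ (SmC A R → SmC A (uno R')) ∧
      (Algebra.FormallySmooth A R → Algebra.FormallySmooth A (uno R')) ∧
      (Rgd R → Rgd R') ∧ (Noe R → Noe R') ∧ (∀ p : ℕ, Ssp p R → Ssp p R')

/-- GRA: the special curve in the coordinate `τ` (Result G, all rings). -/
def Stmt_GRA : Prop :=
  ∀ g : ℕ, 2 ≤ g →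
    (∀ {A : Type} [CommRing A] (ζ : A), IsUnit (((6 * g + 9).factorial : ℕ) : A) →
      ∃ R : Subalgebra A (LaurentSeries A), RG g ζ R) ∧
    (∀ {A : Type} [CommRing A] (ζ : A) (R : Subalgebra A (LaurentSeries A)), RG g ζ R →
      (∀ R' : Subalgebra A (LaurentSeries A), RG g ζ R' → R' = R) ∧ Kr g R ∧
      zz A (6 * g + 9) ∈ R ∧ Algebra.FormallySmooth A (uno R) ∧ SmC A (uno R) ∧ Rgd R ∧ Noe R ∧
      ∀ p : ℕ, p.Prime → CharP A p → p % (3 * g) = 3 * g - 1 → Ssp p R) ∧
    (∀ {A B : Type} [CommRing A] [CommRing B] (ζ : A) (R : Subalgebra A (LaurentSeries A)),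
      RG g ζ R → ∀ φ : A →+* B, RG g (φ ζ) (bc1 φ R))

/-- GRF: the special curve over algebraically closed fields (Result G). -/
def Stmt_GRF : Prop :=
  ∀ g : ℕ, 2 ≤ g → ∀ {K : Type} [Field K] [IsAlgClosed K] (ζ : K)
    (R : Subalgebra K (LaurentSeries K)), RG g ζ R → Dual (uno R) ∧
      ∀ {F : Type} [Field F] [Algebra F K], Transcendental F ζ →
        ∃ β : Fin (8 * g + 8) → K, Function.Injective β ∧
          Disc (6 * g + 9) R (∏ l, (Polynomial.X - Polynomial.C (β l))) ∧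
          ∀ {k : Type} [Field k] (φ : K →+* k),
            Disc (6 * g + 9) (bc1 φ R) (∏ l, (Polynomial.X - Polynomial.C (φ (β l))))

end Pool.Agent.MG.G0


end

section

/-!
# GFS: the special curve is smooth
-/

open Polynomial

namespace Pool.Agent.MG.G0

namespace GFS

/-- Correction of an approximate solution. -/
theorem solve {B : Type} [CommRing B] (I : Ideal B) (hI : ∀ p ∈ I, ∀ q ∈ I, p * q = 0)
    (pa pb : B[X]) (x y w : B) (h1 : y ^ 2 - pa.eval x * w ∈ I)
    (h2 : y * w - pa.eval x * pb.eval x ∈ I) (h3 : w ^ 2 - pb.eval x * y ∈ I) (c u v s : B)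
    (hc : 3 * c = 1)
    (hu : u * (pa.eval x * pb.eval x) + v * (pa.eval x * (2 * (derivative pa).eval x * pb.eval x +
      pa.eval x * (derivative pb).eval x)) + s * (pb.eval x * ((derivative pa).eval x * pb.eval x +
      2 * pa.eval x * (derivative pb).eval x)) = 1) :
    ∃ x' y' w' : B, x' - x ∈ I ∧ y' - y ∈ I ∧ w' - w ∈ I ∧ y' ^ 2 = pa.eval x' * w' ∧
      y' * w' = pa.eval x' * pb.eval x' ∧ w' ^ 2 = pb.eval x' * y' := by
  generalize ha : pa.eval x = a at *
  generalize hb : pb.eval x = b at *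
  generalize ha' : (derivative pa).eval x = a' at *
  generalize hb' : (derivative pb).eval x = b' at *
  have m1 : ∀ r, r * (y ^ 2 - a * w) ∈ I := fun r => I.mul_mem_left r h1
  have m2 : ∀ r, r * (y * w - a * b) ∈ I := fun r => I.mul_mem_left r h2
  have m3 : ∀ r, r * (w ^ 2 - b * y) ∈ I := fun r => I.mul_mem_left r h3
  have p11 := hI _ h1 _ h1
  have p12 := hI _ h1 _ h2
  have p13 := hI _ h1 _ h3
  have p22 := hI _ h2 _ h2
  have p23 := hI _ h2 _ h3
  have p33 := hI _ h3 _ h3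
  obtain ⟨α, hα⟩ : ∃ α, α = v * (a * (y * w - a * b) + y * (y ^ 2 - a * w)) +
    s * (b * (y * w - a * b) + w * (w ^ 2 - b * y)) := ⟨_, rfl⟩
  obtain ⟨β, hβ⟩ : ∃ β, β = -(u * c) * (y * (y * w - a * b) + w * (y ^ 2 - a * w)) +
    s * ((a' * b + a * b') * (w ^ 2 - b * y) - b' * y * (y * w - a * b)) := ⟨_, rfl⟩
  obtain ⟨γ, hγ⟩ : ∃ γ, γ = -(u * c) * (w * (y * w - a * b) + y * (w ^ 2 - b * y)) +
    v * ((a' * b + a * b') * (y ^ 2 - a * w) - a' * w * (y * w - a * b)) := ⟨_, rfl⟩
  have mα : α ∈ I := by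
    rw [hα]
    exact add_mem (I.mul_mem_left _ (add_mem (m2 _) (m1 _)))
      (I.mul_mem_left _ (add_mem (m2 _) (m3 _)))
  have mβ : β ∈ I := by
    rw [hβ]
    exact add_mem (I.mul_mem_left _ (add_mem (m2 _) (m1 _)))
      (I.mul_mem_left _ (sub_mem (m3 _) (m2 _)))
  have mγ : γ ∈ I := by
    rw [hγ]
    exact add_mem (I.mul_mem_left _ (add_mem (m2 _) (m3 _)))
      (I.mul_mem_left _ (sub_mem (m1 _) (m2 _)))
  have qαα := hI _ mα _ mα
  have qαβ := hI _ mα _ mβ
  have qαγ := hI _ mα _ mγ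
  have qββ := hI _ mβ _ mβ
  have qβγ := hI _ mβ _ mγ
  have qγγ := hI _ mγ _ mγ
  have hα2 : α ^ 2 = 0 := by rw [pow_two, qαα]
  have ta : pa.eval (x + α) = a + a' * α := by
    rw [eval_add_of_sq_eq_zero _ _ _ hα2, ha, ha']
  have tb : pb.eval (x + α) = b + b' * α := by
    rw [eval_add_of_sq_eq_zero _ _ _ hα2, hb, hb']
  refine ⟨x + α, y + β, w + γ, ?_, ?_, ?_, ?_, ?_, ?_⟩
  · rw [add_sub_cancel_left]
    exact mα
  · rw [add_sub_cancel_left]
    exact mβ
  · rw [add_sub_cancel_left]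
    exact mγ
  · rw [ta]
    have l1 : (y ^ 2 - a * w) + 2 * y * β - a * γ - a' * w * α = 0 := by
      rw [hα, hβ, hγ]
      linear_combination (-(y ^ 2 - a * w)) * hu - u * (a * b) * (y ^ 2 - a * w) * hc -
        4 * u * c * p12 - v * a' * p12 - 2 * s * b' * p12 - s * a' * p33
    linear_combination l1 + qββ - a' * qαγ
  · rw [ta, tb]
    have l2 : (y * w - a * b) + y * γ + w * β - (a' * b + a * b') * α = 0 := by
      rw [hα, hβ, hγ]
      linear_combination (-(y * w - a * b)) * hu - u * (a * b) * (y * w - a * b) * hc -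
        3 * u * c * p22 - u * c * p13 - v * a' * p22 - s * b' * p22
    linear_combination l2 + qβγ - a' * b' * qαα
  · rw [tb]
    have l3 : (w ^ 2 - b * y) + 2 * w * γ - b * β - b' * y * α = 0 := by
      rw [hα, hβ, hγ]
      linear_combination (-(w ^ 2 - b * y)) * hu - u * (a * b) * (w ^ 2 - b * y) * hc -
        4 * u * c * p23 - 2 * v * a' * p23 - v * b' * p11 - s * b' * p23
    linear_combination l3 + qγγ - b' * qαβ

theorem mulAB {B : Type} [CommRing B] (x : B) (g a : ℕ) (ha : a ≤ 1) :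
    x ^ a * (x ^ (g + 1 - a) - x ^ (1 - a)) = x ^ (g + 1) - x := by
  rw [mul_sub, ← pow_add, ← pow_add]
  have e1 : a + (g + 1 - a) = g + 1 := by omega
  have e2 : a + (1 - a) = 1 := by omega
  rw [e1, e2, pow_one]

/-- The Bezout identity. -/
theorem bez {B : Type} [CommRing B] (x gi : B) (g a : ℕ) (hg : 1 ≤ g) (ha : a ≤ 1)
    (hgi : (g : B) * gi = 1) (pa pb : B[X]) (hpa : pa = X ^ a)
    (hpb : pb = X ^ (g + 1 - a) - X ^ (1 - a)) : ∃ u v s : B,
    u * (pa.eval x * pb.eval x) + v * (pa.eval x * (2 * (derivative pa).eval x * pb.eval x +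
      pa.eval x * (derivative pb).eval x)) + s * (pb.eval x * ((derivative pa).eval x * pb.eval x +
      2 * pa.eval x * (derivative pb).eval x)) = 1 := by
  obtain ⟨n, rfl⟩ : ∃ n, g = n + 1 := ⟨g - 1, by omega⟩
  have hgi' : ((n : B) + 1) * gi = 1 := by
    rw [Nat.cast_add, Nat.cast_one] at hgi
    exact hgi
  rcases (by omega : a = 0 ∨ a = 1) with rfl | rfl
  · have e1 : pa.eval x = 1 := by rw [hpa]; simp
    have e2 : (derivative pa).eval x = 0 := by rw [hpa]; simp
    have e3 : pb.eval x = x ^ n * x ^ 2 - x := by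
      rw [hpb]
      simp only [Nat.sub_zero, eval_sub, eval_pow, eval_X, pow_one]
      ring
    have e4 : (derivative pb).eval x = ((n : B) + 2) * (x ^ n * x) - 1 := by
      rw [hpb]
      simp only [Nat.sub_zero, pow_one, derivative_sub, derivative_X_pow, derivative_X, eval_sub,
        eval_mul, eval_C, eval_pow, eval_X, eval_one, Nat.add_sub_cancel]
      push_cast
      ring
    rw [e1, e2, e3, e4]
    refine ⟨-(((n : B) + 2) ^ 2 * gi * x ^ n), ((n : B) + 2) * gi * (x ^ n * x) - 1, 0, ?_⟩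
    linear_combination (x * x ^ n * ((n : B) + 2)) * hgi'
  · have e1 : pa.eval x = x := by rw [hpa]; simp
    have e2 : (derivative pa).eval x = 1 := by rw [hpa]; simp
    have e3 : pb.eval x = x ^ n * x - 1 := by
      rw [hpb]
      simp only [Nat.add_sub_cancel, Nat.sub_self, eval_sub, eval_pow, eval_X, pow_zero, eval_one]
      ring
    have e4 : (derivative pb).eval x = ((n : B) + 1) * x ^ n := by
      rw [hpb]
      simp only [Nat.add_sub_cancel, Nat.sub_self, pow_zero, derivative_sub, derivative_X_pow,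
        derivative_one, eval_sub, eval_mul, eval_C, eval_pow, eval_X, eval_zero, sub_zero]
      push_cast
      ring
    rw [e1, e2, e3, e4]
    refine ⟨((n : B) + 3) * (x ^ n * gi) *
      ((2 * (n : B) + 3) * (x ^ n * x) - (2 * (n : B) + 4)),
      -((x ^ n * gi) * ((2 * (n : B) + 3) * (x ^ n * x) - (2 * (n : B) + 4))), 1, ?_⟩
    linear_combination (-(x ^ n * x) *
      ((2 * (n : B) + 3) * (x ^ n * x) - (2 * (n : B) + 4))) * hgi'

end GFS

theorem t_GFS (h1 : Stmt_GST) (h2 : Stmt_GLF) : Stmt_GFS := by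
  intro A _ S
  obtain ⟨r1, r2, r3, -⟩ := h1 S
  have q1 : S.y ^ 2 = S.x ^ S.a * S.w := by
    refine Subtype.ext ?_
    change S.Y ^ 2 = zz A 3 ^ S.a * S.W
    rw [r1]
    simp [zpol, SCD.pA]
  have q2 : S.y * S.w = S.x ^ (S.g + 1) - S.x := by
    refine Subtype.ext ?_
    change S.Y * S.W = zz A 3 ^ (S.g + 1) - zz A 3
    rw [r2]
    simp [zpol, SCD.pD]
  have q3 : S.w ^ 2 = (S.x ^ (S.g + 1 - S.a) - S.x ^ (1 - S.a)) * S.y := by
    refine Subtype.ext ?_
    change S.W ^ 2 = (zz A 3 ^ (S.g + 1 - S.a) - zz A 3 ^ (1 - S.a)) * S.Y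
    rw [r3]
    simp [zpol, SCD.pB]
  refine Algebra.FormallySmooth.of_comp_surjective ?_
  intro B _ _ I hI f
  have hI' : ∀ p ∈ I, ∀ q ∈ I, p * q = 0 := by
    intro p hp q hq
    have : p * q ∈ I ^ 2 := by
      rw [pow_two]
      exact Ideal.mul_mem_mul hp hq
    rw [hI] at this
    exact this
  obtain ⟨x, hx⟩ := Ideal.Quotient.mk_surjective (f S.x)
  obtain ⟨y, hy⟩ := Ideal.Quotient.mk_surjective (f S.y)
  obtain ⟨w, hw⟩ := Ideal.Quotient.mk_surjective (f S.w)
  have u3 : ∀ n : ℕ, 1 ≤ n → n ≤ 6 * S.g + 9 → ∃ c : B, (n : B) * c = 1 := by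
    intro n hn hn'
    have h3 : n ∣ (6 * S.g + 9).factorial := Nat.dvd_factorial hn hn'
    have h4 : (n : A) ∣ (((6 * S.g + 9).factorial : ℕ) : A) := Nat.cast_dvd_cast h3
    have h5 := isUnit_of_dvd_unit h4 S.hd
    obtain ⟨c, hc⟩ := h5.exists_right_inv
    refine ⟨algebraMap A B c, ?_⟩
    rw [← map_natCast (algebraMap A B) n, ← map_mul, hc, map_one]
  obtain ⟨c, hc⟩ := u3 3 (by omega) (by omega)
  obtain ⟨gi, hgi⟩ := u3 S.g (by have := S.hg; omega) (by omega)
  obtain ⟨u, v, s, hu⟩ := GFS.bez x gi S.g S.a (by have := S.hg; omega) S.ha hgi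
    (X ^ S.a) (X ^ (S.g + 1 - S.a) - X ^ (1 - S.a)) rfl rfl
  have ea : ∀ z : B, (X ^ S.a : B[X]).eval z = z ^ S.a := fun z => by simp
  have eb : ∀ z : B, (X ^ (S.g + 1 - S.a) - X ^ (1 - S.a) : B[X]).eval z =
      z ^ (S.g + 1 - S.a) - z ^ (1 - S.a) := fun z => by simp
  have m1 : y ^ 2 - (X ^ S.a : B[X]).eval x * w ∈ I := by
    rw [← Ideal.Quotient.eq_zero_iff_mem, ea]
    simp only [map_sub, map_mul, map_pow, hx, hy, hw]
    rw [← map_pow, ← map_pow, ← map_mul, ← map_sub, q1, sub_self, map_zero]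
  have m2 : y * w - (X ^ S.a : B[X]).eval x *
      (X ^ (S.g + 1 - S.a) - X ^ (1 - S.a) : B[X]).eval x ∈ I := by
    rw [← Ideal.Quotient.eq_zero_iff_mem, ea, eb, GFS.mulAB x S.g S.a S.ha]
    simp only [map_sub, map_mul, map_pow, hx, hy, hw]
    rw [← map_pow, ← map_mul, ← map_sub, ← map_sub, q2, sub_self, map_zero]
  have m3 : w ^ 2 - (X ^ (S.g + 1 - S.a) - X ^ (1 - S.a) : B[X]).eval x * y ∈ I := by
    rw [← Ideal.Quotient.eq_zero_iff_mem, eb]
    simp only [map_sub, map_mul, map_pow, hx, hy, hw]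
    rw [← map_pow, ← map_pow, ← map_pow, ← map_sub, ← map_mul, ← map_sub, q3, sub_self, map_zero]
  obtain ⟨x', y', w', d1, d2, d3, t1, t2, t3⟩ := GFS.solve I hI' _ _ x y w m1 m2 m3 c u v s
    (by exact_mod_cast hc) hu
  rw [ea] at t1
  rw [ea, eb, GFS.mulAB x' S.g S.a S.ha] at t2
  rw [eb] at t3
  obtain ⟨h, ⟨g1, g2, g3⟩, -⟩ := h2 S B x' y' w' t1 t2 t3
  refine ⟨h, ?_⟩
  have k1 : f S.y ^ 2 = f S.x ^ S.a * f S.w := by rw [← map_pow, q1, map_mul, map_pow]
  have k2 : f S.y * f S.w = f S.x ^ (S.g + 1) - f S.x := by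
    rw [← map_mul, q2, map_sub, map_pow]
  have k3 : f S.w ^ 2 = (f S.x ^ (S.g + 1 - S.a) - f S.x ^ (1 - S.a)) * f S.y := by
    rw [← map_pow, q3, map_mul, map_sub, map_pow, map_pow]
  obtain ⟨h0, -, un⟩ := h2 S (B ⧸ I) (f S.x) (f S.y) (f S.w) k1 k2 k3
  rw [un f ⟨rfl, rfl, rfl⟩]
  refine un _ ⟨?_, ?_, ?_⟩
  · change Ideal.Quotient.mk I (h S.x) = f S.x
    rw [g1, ← hx]
    exact Ideal.Quotient.eq.2 d1
  · change Ideal.Quotient.mk I (h S.y) = f S.y
    rw [g2, ← hy]
    exact Ideal.Quotient.eq.2 d2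
  · change Ideal.Quotient.mk I (h S.w) = f S.w
    rw [g3, ← hw]
    exact Ideal.Quotient.eq.2 d3

end Pool.Agent.MG.G0


end

section

/-!
# GNO: Noether's theorem for the special curve
-/

namespace Pool.Agent.MG.G0

namespace GNO

open Polynomial ZL

variable {A : Type} [CommRing A]

theorem ld_zz3 : ld (zz A 3) = HahnSeries.single (-4) (-3 : A) := by
  ext m
  rw [ld_coeff, zz]
  by_cases h : m = -4
  · subst h
    rw [HahnSeries.coeff_single_same]
    have h1 : (-4 + 1 : ℤ) = -((3 : ℕ) : ℤ) := by norm_num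
    rw [h1, HahnSeries.coeff_single_same]
    simp
  · rw [HahnSeries.coeff_single_of_ne h, HahnSeries.coeff_single_of_ne, mul_zero]
    intro h2
    apply h
    have h3 : ((3 : ℕ) : ℤ) = 3 := rfl
    omega

theorem xk_ld (k : ℕ) : zz A 3 ^ k * ld (zz A 3) = HahnSeries.single (-(3 * (k : ℤ)) - 4) (-3) := by
  rw [zz_pow, ld_zz3, HahnSeries.single_mul_single, one_mul]
  congr 1

theorem cx (f : LaurentSeries A) (k : ℕ) :
    (f * (zz A 3 ^ k * ld (zz A 3))).coeff (-1) = f.coeff (3 * ((k : ℤ) + 1)) * (-3) := by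
  rw [xk_ld]
  have h1 : (-1 : ℤ) = 3 * ((k : ℤ) + 1) + (-(3 * (k : ℤ)) - 4) := by ring
  nth_rewrite 1 [h1]
  rw [HahnSeries.coeff_mul_single_add]

theorem xk_mem (k : ℕ) : zz A 3 ^ k * ld (zz A 3) ∈ Po A (3 * (k : ℤ) + 4) := by
  rw [xk_ld]
  exact single_mem_Pl _ (by omega)

/-- A series with vanishing coefficients of `σ^3, ..., σ^(3(M-1))` is a polynomial plus a series
of order `3M`, in the degrees divisible by three. -/
theorem extract (F : LaurentSeries A) (M : ℕ)
    (h : ∀ t : ℕ, 1 ≤ t → t < M → F.coeff (3 * (t : ℤ)) = 0) :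
    ∃ p : A[X], pr0 A 3 F - zpol A 3 p ∈ Po A (-(3 * (M : ℤ))) := by
  obtain ⟨n, hn⟩ := exists_Pl F
  refine ⟨∑ k ∈ Finset.range (n + 1), monomial k (F.coeff (-((3 * k : ℕ) : ℤ))), ?_⟩
  intro m hm
  have hc : ∀ k : ℕ, (∑ k ∈ Finset.range (n + 1),
      monomial k (F.coeff (-((3 * k : ℕ) : ℤ)))).coeff k = F.coeff (-((3 * k : ℕ) : ℤ)) := by
    intro k
    rw [finsetSum_coeff]
    simp only [coeff_monomial]
    rw [Finset.sum_ite_eq']
    split_ifs with hk
    · rfl
    · symm
      apply hn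
      rw [Finset.mem_range] at hk
      omega
  rw [HahnSeries.coeff_sub, pr0_coeff]
  split_ifs with hd
  · obtain ⟨t, rfl⟩ := hd
    rcases le_or_gt t 0 with ht | ht
    · obtain ⟨k, hk⟩ : ∃ k : ℕ, t = -(k : ℤ) := ⟨(-t).toNat, by omega⟩
      have h1 : ((3 : ℕ) : ℤ) * t = -((3 * k : ℕ) : ℤ) := by
        rw [hk]
        push_cast
        ring
      rw [h1]
      have h2 := ev_coeff 3 (by norm_num) (∑ k ∈ Finset.range (n + 1),
        monomial k (F.coeff (-((3 * k : ℕ) : ℤ)))) k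
      rw [hc] at h2
      rw [← h2]
      exact sub_self _
    · obtain ⟨k, hk⟩ : ∃ k : ℕ, t = (k : ℤ) := ⟨t.toNat, by omega⟩
      have h1 : ((3 : ℕ) : ℤ) * t = 3 * (k : ℤ) := by rw [hk]; rfl
      rw [h1, h k (by omega) (by omega)]
      have h2 := ev_coeff_pos 3 (∑ k ∈ Finset.range (n + 1),
        monomial k (F.coeff (-((3 * k : ℕ) : ℤ)))) (3 * (k : ℤ)) (by omega)
      rw [zero_sub, neg_eq_zero]
      exact h2
  · have h2 := ev_coeff_ne 3 (∑ k ∈ Finset.range (n + 1),
        monomial k (F.coeff (-((3 * k : ℕ) : ℤ)))) m (by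
          intro k hk
          apply hd
          rw [hk]
          push_cast
          exact ⟨-(k : ℤ), by ring⟩)
    rw [zero_sub, neg_eq_zero]
    exact h2

theorem split_idx (n n' t : ℕ) (hn : 4 ≤ n) (hn' : 4 ≤ n') (ht : 1 ≤ t)
    (ht' : t < (n - 1) / 3 + (n' - 1) / 3) :
    ∃ i j : ℕ, i + j = t + 1 ∧ 1 ≤ i ∧ 3 * i < n ∧ 1 ≤ j ∧ 3 * j < n' := by
  rcases le_or_gt t ((n - 1) / 3) with h | h
  · exact ⟨t, 1, by omega, by omega, by omega, by omega, by omega⟩
  · exact ⟨(n - 1) / 3, t + 1 - (n - 1) / 3, by omega, by omega, by omega, by omega, by omega⟩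

theorem psl_mem (f : PowerSeries A) : psl A f ∈ Po A 0 := by
  intro m hm
  have h2 := PowerSeries.coeff_coe f m
  unfold psl
  rw [h2, if_pos (by omega)]

section

variable (S : SCD A)

theorem Y_mem : S.Y ∈ Po A (S.n1 : ℤ) := by
  have := mul_mem_Pl (single_mem_Pl (A := A) (n := (S.n1 : ℤ)) (m := -(S.n1 : ℤ)) 1 (le_refl _))
    (psl_mem S.r)
  rw [add_zero] at this
  exact this

theorem W_mem : S.W ∈ Po A (S.n2 : ℤ) := by
  have := mul_mem_Pl (single_mem_Pl (A := A) (n := (S.n2 : ℤ)) (m := -(S.n2 : ℤ)) 1 (le_refl _))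
    (psl_mem (S.r ^ 2))
  rw [add_zero] at this
  exact this

theorem Yi_mem : S.Yi ∈ Po A (-(S.n1 : ℤ)) := by
  have := mul_mem_Pl (single_mem_Pl (A := A) (n := -(S.n1 : ℤ)) (m := (S.n1 : ℤ)) 1
    (by omega)) (psl_mem S.ri)
  rw [add_zero] at this
  exact this

theorem Wi_mem : S.Wi ∈ Po A (-(S.n2 : ℤ)) := by
  have := mul_mem_Pl (single_mem_Pl (A := A) (n := -(S.n2 : ℤ)) (m := (S.n2 : ℤ)) 1
    (by omega)) (psl_mem (S.ri ^ 2))
  rw [add_zero] at this
  exact this

theorem n1_ge : 4 ≤ S.n1 := by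
  have h1 := S.hg
  have h2 := S.h3
  unfold SCD.n1
  by_contra hcon
  apply h2
  have : S.g + 1 + S.a = 3 := by omega
  rw [this]

theorem n2_ge : 4 ≤ S.n2 := by
  have h1 := S.hg
  have h2 := S.ha
  unfold SCD.n2
  omega

include S in
theorem three_unit : IsUnit (3 : A) := by
  have h : ((3 : ℕ) : A) ∣ (((6 * S.g + 9).factorial : ℕ) : A) :=
    Nat.cast_dvd_cast (Nat.dvd_factorial (by norm_num) (by omega))
  have := isUnit_of_dvd_unit h S.hd
  exact_mod_cast this

/-- The differentials `X^(i-1) E dX`. -/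
theorem mem_EE (E : LaurentSeries A) (n : ℕ) (hE : E ∈ Po A (-(n : ℤ)))
    (hr : ∀ p ∈ S.R, ∀ i : ℕ, 1 ≤ i → 3 * i < n → (p * E).coeff (3 * i) = 0)
    (i : ℕ) (h1 : 1 ≤ i) (h2 : 3 * i < n) :
    E * (zz A 3 ^ (i - 1) * ld (zz A 3)) ∈ EE1 S.R := by
  obtain ⟨k, rfl⟩ : ∃ k, i = k + 1 := ⟨i - 1, by omega⟩
  rw [Nat.add_sub_cancel]
  refine ⟨fun p hp => ?_, ?_⟩
  · have e : E * (zz A 3 ^ k * ld (zz A 3)) * p = p * E * (zz A 3 ^ k * ld (zz A 3)) := by ring
    rw [e, cx]
    have h3 := hr p hp (k + 1) h1 h2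
    push_cast at h3
    rw [h3, zero_mul]
  · have h3 := mul_mem_Pl hE (xk_mem (A := A) k)
    exact Pl_mono (by omega) h3

/-- The vanishing of the coefficients. -/
theorem vanish (θ : LaurentSeries A)
    (hθ : ∀ ω ∈ EE1 S.R, ∀ ω' ∈ EE1 S.R, (θ * ω * ω').coeff (-1) = 0)
    (E : LaurentSeries A) (n : ℕ) (hE : E ∈ Po A (-(n : ℤ)))
    (hr : ∀ p ∈ S.R, ∀ i : ℕ, 1 ≤ i → 3 * i < n → (p * E).coeff (3 * i) = 0)
    (E' : LaurentSeries A) (n' : ℕ) (hE' : E' ∈ Po A (-(n' : ℤ)))
    (hr' : ∀ p ∈ S.R, ∀ i : ℕ, 1 ≤ i → 3 * i < n' → (p * E').coeff (3 * i) = 0)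
    (hn : 4 ≤ n) (hn' : 4 ≤ n') (t : ℕ) (ht : 1 ≤ t) (ht' : t < (n - 1) / 3 + (n' - 1) / 3) :
    (θ * ld (zz A 3) * E * E').coeff (3 * (t : ℤ)) = 0 := by
  obtain ⟨i, j, h, hi, hi', hj, hj'⟩ := split_idx n n' t hn hn' ht ht'
  have h1 := hθ _ (mem_EE S E n hE hr i hi hi') _ (mem_EE S E' n' hE' hr' j hj hj')
  have h2 : zz A 3 ^ (i - 1) * zz A 3 ^ (j - 1) = zz A 3 ^ (t - 1) := by
    rw [← pow_add]
    congr 1
    omega
  have e : θ * (E * (zz A 3 ^ (i - 1) * ld (zz A 3))) * (E' * (zz A 3 ^ (j - 1) * ld (zz A 3))) =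
      (θ * ld (zz A 3) * E * E') * (zz A 3 ^ (t - 1) * ld (zz A 3)) := by
    rw [← h2]
    ring
  rw [e, cx] at h1
  have h3 : (3 : ℤ) * (((t - 1 : ℕ) : ℤ) + 1) = 3 * (t : ℤ) := by omega
  rw [h3] at h1
  have h4 : IsUnit (-3 : A) := (three_unit S).neg
  exact (h4.mul_left_eq_zero).1 h1

theorem pA_mem : zpol A 3 S.pA ∈ Po A (3 * (S.a : ℤ)) := by
  have h : S.pA.natDegree ≤ S.a := by
    unfold SCD.pA
    exact natDegree_X_pow_le _
  have := ev_mem_Pl 3 S.pA h
  push_cast at this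
  exact this

theorem pB_mem : zpol A 3 S.pB ∈ Po A (3 * ((S.g : ℤ) + 1 - S.a)) := by
  have h0 := S.ha
  have h : S.pB.natDegree ≤ S.g + 1 - S.a := by
    unfold SCD.pB
    refine (natDegree_sub_le _ _).trans (max_le (natDegree_X_pow_le _) ?_)
    exact (natDegree_X_pow_le _).trans (by omega)
  have := ev_mem_Pl 3 S.pB h
  refine Pl_mono ?_ this
  push_cast
  omega

theorem pD_mem : zpol A 3 S.pD ∈ Po A (3 * ((S.g : ℤ) + 1)) := by
  have h : S.pD.natDegree ≤ S.g + 1 := by
    unfold SCD.pD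
    refine (natDegree_sub_le _ _).trans (max_le (natDegree_X_pow_le _) ?_)
    exact natDegree_X_le.trans (by omega)
  have := ev_mem_Pl 3 S.pD h
  push_cast at this
  exact this

theorem bd0 : 3 * ((S.g : ℤ) + 1) + -(3 * (((S.n1 - 1) / 3 + (S.n2 - 1) / 3 : ℕ) : ℤ)) ≤ 4 := by
  have h1 := S.ha
  have h2 : S.n1 = S.g + 1 + S.a := rfl
  have h3 : S.n2 = 2 * S.g + 2 - S.a := rfl
  have h4 := S.h3
  omega

theorem bd1 : 3 * ((S.g : ℤ) + 1 - S.a) +
    -(3 * (((S.n2 - 1) / 3 + (S.n2 - 1) / 3 : ℕ) : ℤ)) + (S.n1 : ℤ) ≤ 4 := by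
  have h1 := S.ha
  have h2 : S.n1 = S.g + 1 + S.a := rfl
  have h3 : S.n2 = 2 * S.g + 2 - S.a := rfl
  have h4 := S.h3
  omega

theorem bd2 : 3 * (S.a : ℤ) +
    -(3 * (((S.n1 - 1) / 3 + (S.n1 - 1) / 3 : ℕ) : ℤ)) + (S.n2 : ℤ) ≤ 4 := by
  have h1 := S.ha
  have h2 : S.n1 = S.g + 1 + S.a := rfl
  have h3 : S.n2 = 2 * S.g + 2 - S.a := rfl
  have h4 := S.h3
  omega

end

end GNO

open _root_.Pool.Agent.MG.G0.GNO ZL in
theorem t_GNO (hG : Stmt_GST) (hT : Stmt_GTT) : Stmt_GNO := by
  intro A _ S θ hθ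
  obtain ⟨g1, g2, g3, -, g5, g6, -, -, -, -, g11, g12, -⟩ := hG S
  have hrY : ∀ p ∈ S.R, ∀ i : ℕ, 1 ≤ i → 3 * i < S.n1 → (p * S.Yi).coeff (3 * i) = 0 := by
    intro p hp
    refine ((g12 p).1 ⟨p, hp, ?_⟩).1
    rw [sub_self]
    exact zero_mem _
  have hrW : ∀ p ∈ S.R, ∀ i : ℕ, 1 ≤ i → 3 * i < S.n2 → (p * S.Wi).coeff (3 * i) = 0 := by
    intro p hp
    refine ((g12 p).1 ⟨p, hp, ?_⟩).2
    rw [sub_self]
    exact zero_mem _
  set Θ := θ * ld (zz A 3) with hΘ
  obtain ⟨p0, hp0⟩ := extract (Θ * S.Yi * S.Wi) _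
    (vanish S θ hθ S.Yi S.n1 (Yi_mem S) hrY S.Wi S.n2 (Wi_mem S) hrW (n1_ge S) (n2_ge S))
  obtain ⟨p1, hp1⟩ := extract (Θ * S.Wi * S.Wi) _
    (vanish S θ hθ S.Wi S.n2 (Wi_mem S) hrW S.Wi S.n2 (Wi_mem S) hrW (n2_ge S) (n2_ge S))
  obtain ⟨p2, hp2⟩ := extract (Θ * S.Yi * S.Yi) _
    (vanish S θ hθ S.Yi S.n1 (Yi_mem S) hrY S.Yi S.n1 (Yi_mem S) hrY (n1_ge S) (n1_ge S))
  have d0 : pr0 A 3 Θ = zpol A 3 S.pD * pr0 A 3 (Θ * S.Yi * S.Wi) := by
    rw [← pr0_zpol_mul, ← g2]
    congr 1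
    linear_combination (-Θ) * g5 - Θ * S.Yi * S.Y * g6
  have d1 : pr0 A 3 (Θ * S.Yi) = zpol A 3 S.pB * pr0 A 3 (Θ * S.Wi * S.Wi) := by
    rw [← pr0_zpol_mul]
    congr 1
    linear_combination (Θ * S.Yi * S.Wi ^ 2) * g3 +
      (-(Θ * S.Yi * (S.Wi * S.W + 1))) * g6 + Θ * S.Wi ^ 2 * zpol A 3 S.pB * g5
  have d2 : pr0 A 3 (Θ * S.Wi) = zpol A 3 S.pA * pr0 A 3 (Θ * S.Yi * S.Yi) := by
    rw [← pr0_zpol_mul]
    congr 1
    linear_combination (Θ * S.Wi * S.Yi ^ 2) * g1 +
      (-(Θ * S.Wi * (S.Yi * S.Y + 1))) * g5 + Θ * S.Yi ^ 2 * zpol A 3 S.pA * g6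
  obtain ⟨c, hc⟩ := (three_unit S).exists_left_inv
  have hL : ld (zz A 3) * HahnSeries.single 4 (-c) = 1 := by
    rw [ld_zz3, HahnSeries.single_mul_single]
    have h1 : (-3 : A) * -c = 1 := by
      rw [← hc]
      ring
    rw [h1]
    rfl
  have hL4 : HahnSeries.single 4 (-c) ∈ Po A (-4) := single_mem_Pl _ (by norm_num)
  refine ⟨(zpol A 3 (S.pD * p0) + zpol A 3 (S.pB * p1) * S.Y + zpol A 3 (S.pA * p2) * S.W) *
    HahnSeries.single 4 (-c), ?_, ?_⟩
  · refine ((hT S).1 _).2 ⟨p0, p1, p2, ?_⟩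
    rw [mul_assoc, mul_comm (HahnSeries.single 4 (-c)), hL, mul_one]
  · have e : θ - (zpol A 3 (S.pD * p0) + zpol A 3 (S.pB * p1) * S.Y +
        zpol A 3 (S.pA * p2) * S.W) * HahnSeries.single 4 (-c) =
        (zpol A 3 S.pD * (pr0 A 3 (Θ * S.Yi * S.Wi) - zpol A 3 p0) +
          zpol A 3 S.pB * (pr0 A 3 (Θ * S.Wi * S.Wi) - zpol A 3 p1) * S.Y +
          zpol A 3 S.pA * (pr0 A 3 (Θ * S.Yi * S.Yi) - zpol A 3 p2) * S.W) *
          HahnSeries.single 4 (-c) := by
      have h1 : θ = Θ * HahnSeries.single 4 (-c) := by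
        rw [hΘ, mul_assoc, hL, mul_one]
      have h2 := g11 Θ
      rw [d1, d2, d0] at h2
      nth_rewrite 1 [h1]
      rw [map_mul, map_mul, map_mul]
      linear_combination (HahnSeries.single 4 (-c)) * h2
    rw [e]
    have h4 : ((4 : ℤ) + -4) = 0 := by norm_num
    rw [← h4]
    refine mul_mem_Pl (add_mem (add_mem ?_ ?_) ?_) hL4
    · exact Pl_mono (bd0 S) (mul_mem_Pl (pD_mem S) hp0)
    · exact Pl_mono (bd1 S) (mul_mem_Pl (mul_mem_Pl (pB_mem S) hp1) (Y_mem S))
    · exact Pl_mono (bd2 S) (mul_mem_Pl (mul_mem_Pl (pA_mem S) hp2) (W_mem S))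

end Pool.Agent.MG.G0


end

section

/-!
# Vector fields on the special curve (GTT)
-/

namespace Pool.Agent.MG.G0

namespace GTT

open Polynomial ZL

section

variable {A : Type} [CommRing A]

/-! ### Leading coefficients -/

theorem psl_Po (f : PowerSeries A) : psl A f ∈ Po A 0 := by
  intro m hm
  rw [psl, PowerSeries.coeff_coe, if_pos (by omega)]

theorem psl_coeff_zero (f : PowerSeries A) : (psl A f).coeff 0 = PowerSeries.constantCoeff f := by
  rw [psl, PowerSeries.coeff_coe, if_neg (lt_irrefl _), Int.natAbs_zero,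
    PowerSeries.coeff_zero_eq_constantCoeff_apply]

theorem single_psl_Po (n : ℤ) (f : PowerSeries A) :
    HahnSeries.single (-n) 1 * psl A f ∈ Po A n := by
  have := mul_mem_Pl (single_mem_Pl (1 : A) (le_refl (-n))) (psl_Po f)
  rwa [add_zero] at this

theorem single_psl_lead (n : ℤ) (f : PowerSeries A) :
    (HahnSeries.single (-n) 1 * psl A f : LaurentSeries A).coeff (-n) =
      PowerSeries.constantCoeff f := by
  have := coeff_mul_Pl (single_mem_Pl (1 : A) (le_refl (-n))) (psl_Po f)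
  rw [add_zero, HahnSeries.coeff_single_same, one_mul, neg_zero, psl_coeff_zero] at this
  exact this

theorem zpol_lead {P : A[X]} (hP : P ≠ 0) {f : LaurentSeries A} {m : ℤ} (hf : f ∈ Po A m)
    (hl : f.coeff (-m) = 1) : zpol A 3 P * f ∈ Po A (3 * (P.natDegree : ℤ) + m) ∧
      (zpol A 3 P * f).coeff (-(3 * (P.natDegree : ℤ) + m)) ≠ 0 := by
  have h1 : zpol A 3 P ∈ Pl A (3 * (P.natDegree : ℤ)) := by
    have := ev_mem_Pl 3 P (le_refl P.natDegree)
    push_cast at this
    exact this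
  have h2 : (zpol A 3 P).coeff (-(3 * (P.natDegree : ℤ))) = P.leadingCoeff := by
    have := ev_coeff 3 (by norm_num) P P.natDegree
    push_cast at this
    exact this
  refine ⟨mul_mem_Pl h1 hf, ?_⟩
  rw [coeff_mul_Pl h1 hf, h2, hl, mul_one]
  exact leadingCoeff_ne_zero.2 hP

/-- A sum of series with distinct pole orders. -/
theorem three {M : ℤ} (f : Fin 3 → LaurentSeries A) (N : Fin 3 → ℤ) (hN : Function.Injective N)
    (h : ∀ i, f i ≠ 0 → M < N i ∧ f i ∈ Po A (N i) ∧ (f i).coeff (-(N i)) ≠ 0)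
    (hs : ∑ i, f i ∈ Po A M) : ∀ i, f i = 0 := by
  classical
  by_contra hcon
  push Not at hcon
  obtain ⟨i0, hi0⟩ := hcon
  obtain ⟨i, hi, hmax⟩ := Finset.exists_max_image (Finset.univ.filter fun i => f i ≠ 0) N
    ⟨i0, Finset.mem_filter.2 ⟨Finset.mem_univ _, hi0⟩⟩
  obtain ⟨h1, h2, h3⟩ := h i (Finset.mem_filter.1 hi).2
  apply h3
  have h4 := hs (-(N i)) (by omega)
  rw [HahnSeries.coeff_sum, Finset.sum_eq_single i] at h4
  · exact h4
  · intro j _ hj
    by_cases hj0 : f j = 0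
    · rw [hj0, HahnSeries.coeff_zero]
    · obtain ⟨-, h5, -⟩ := h j hj0
      have h6 := hmax j (Finset.mem_filter.2 ⟨Finset.mem_univ _, hj0⟩)
      have h7 : N j ≠ N i := fun hc => hj (hN hc)
      exact h5 _ (by omega)
  · intro hc
    exact absurd (Finset.mem_univ _) hc

/-! ### The polynomials -/

theorem unit_nat {N m : ℕ} (h : IsUnit ((N.factorial : ℕ) : A)) (h1 : 1 ≤ m) (h2 : m ≤ N) :
    IsUnit (m : A) := by
  have h3 : m ∣ N.factorial := Nat.dvd_factorial h1 h2
  obtain ⟨k, hk⟩ := h3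
  rw [hk, Nat.cast_mul] at h
  exact isUnit_of_mul_isUnit_left h

variable (S : SCD A)

theorem unit_of {m : ℕ} (h1 : 1 ≤ m) (h2 : m ≤ 6 * S.g + 9) : IsUnit (m : A) :=
  unit_nat S.hd h1 h2

theorem monic_D : S.pD.Monic := by
  rw [SCD.pD]
  refine monic_X_pow_sub ?_
  refine lt_of_le_of_lt degree_X_le ?_
  have := S.hg
  exact_mod_cast (by omega : 1 < S.g + 1)

theorem monic_B : S.pB.Monic := by
  rw [SCD.pB]
  refine monic_X_pow_sub ?_
  refine lt_of_le_of_lt (degree_X_pow_le _) ?_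
  have := S.hg
  have := S.ha
  exact_mod_cast (by omega : 1 - S.a < S.g + 1 - S.a)

theorem monic_A : S.pA.Monic := monic_X_pow _

theorem deg_D {p : A[X]} (hp : p ≠ 0) : S.pD.natDegree = S.g + 1 := by
  have h1 : Nontrivial A[X] := nontrivial_of_ne p 0 hp
  have : Nontrivial A := Polynomial.nontrivial_iff.1 h1
  have := S.hg
  rw [SCD.pD, natDegree_sub_eq_left_of_natDegree_lt, natDegree_X_pow]
  rw [natDegree_X_pow, natDegree_X]
  omega

theorem deg_B {p : A[X]} (hp : p ≠ 0) : S.pB.natDegree = S.g + 1 - S.a := by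
  have h1 : Nontrivial A[X] := nontrivial_of_ne p 0 hp
  have : Nontrivial A := Polynomial.nontrivial_iff.1 h1
  have := S.hg
  have := S.ha
  rw [SCD.pB, natDegree_sub_eq_left_of_natDegree_lt, natDegree_X_pow]
  rw [natDegree_X_pow, natDegree_X_pow]
  omega

theorem pD_eq : S.pD = X * (X ^ S.g - 1) := by
  rw [SCD.pD, pow_succ]
  ring

theorem cop_X {c : A[X]} (h : IsUnit (c.coeff 0)) : IsCoprime c X := by
  obtain ⟨u, hu⟩ := h
  refine ⟨C ((u⁻¹ : Aˣ) : A), - C ((u⁻¹ : Aˣ) : A) * c.divX, ?_⟩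
  have h1 := divX_mul_X_add c
  have h2 : C ((u⁻¹ : Aˣ) : A) * C (c.coeff 0) = 1 := by
    rw [← C_mul, ← hu, Units.inv_mul, C_1]
  linear_combination (-C ((u⁻¹ : Aˣ) : A)) * h1 + h2

theorem cop_Xg {c e : A} {n : ℕ} (h : IsUnit (c - e)) :
    IsCoprime (C c * X ^ n - C e) (X ^ n - 1 : A[X]) := by
  obtain ⟨u, hu⟩ := h
  refine ⟨C ((u⁻¹ : Aˣ) : A), - C ((u⁻¹ : Aˣ) : A) * C c, ?_⟩
  have h2 : C ((u⁻¹ : Aˣ) : A) * C (c - e) = 1 := by
    rw [← C_mul, ← hu, Units.inv_mul, C_1]
  rw [C_sub] at h2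
  linear_combination h2

theorem coeff_cY : S.cY.coeff 0 = -(1 + S.a : A) := by
  have := S.hg
  rw [SCD.cY, coeff_sub, coeff_C_zero, mul_coeff_zero, coeff_X_pow, if_neg (by omega), mul_zero,
    zero_sub]

theorem coeff_cW : S.cW.coeff 0 = -(2 - S.a : A) := by
  have := S.hg
  rw [SCD.cW, coeff_sub, coeff_C_zero, mul_coeff_zero, coeff_X_pow, if_neg (by omega), mul_zero,
    zero_sub]

theorem cop_cY_D : IsCoprime S.cY S.pD := by
  rw [pD_eq]
  have := S.hg
  have := S.ha
  refine IsCoprime.mul_right (cop_X ?_) ?_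
  · rw [coeff_cY]
    have h1 := unit_of S (m := 1 + S.a) (by omega) (by omega)
    push_cast at h1
    exact h1.neg
  · have h1 := unit_of S (m := S.g) (by omega) (by omega)
    refine cop_Xg ?_
    have h2 : (S.g + 1 + S.a : A) - (1 + S.a : A) = S.g := by ring
    rw [h2]
    exact h1

theorem cop_cY_B (hAB : S.pA * S.pB = S.pD) : IsCoprime S.cY S.pB := by
  have := cop_cY_D S
  rw [← hAB] at this
  exact this.of_mul_right_right

theorem cop_cW_A : IsCoprime S.cW S.pA := by
  have := S.ha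
  refine IsCoprime.pow_right (cop_X ?_)
  rw [coeff_cW]
  have h1 := unit_of S (m := 2 - S.a) (by omega) (by omega)
  rw [Nat.cast_sub (by omega)] at h1
  push_cast at h1
  exact h1.neg

theorem cop_cW_D : IsCoprime S.cW S.pD := by
  rw [pD_eq]
  have := S.hg
  have := S.ha
  refine IsCoprime.mul_right (cop_X ?_) ?_
  · rw [coeff_cW]
    have h1 := unit_of S (m := 2 - S.a) (by omega) (by omega)
    rw [Nat.cast_sub (by omega)] at h1
    push_cast at h1
    exact h1.neg
  · have h1 := unit_of S (m := 2 * S.g) (by omega) (by omega)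
    push_cast at h1
    refine cop_Xg ?_
    have h2 : (2 * S.g + 2 - S.a : A) - (2 - S.a : A) = 2 * S.g := by ring
    rw [h2]
    exact h1

/-! ### The derivative of `X` -/

theorem ld_zz : ld (zz A 3) = HahnSeries.single (-4) (-3 : A) := by
  ext m
  rw [ld_coeff, zz, HahnSeries.coeff_single, HahnSeries.coeff_single]
  by_cases h : m = -4
  · subst h
    norm_num
  · rw [if_neg (by push_cast; omega), if_neg h, mul_zero]

theorem ld_zz_Po : ld (zz A 3) ∈ Po A 4 := by
  rw [ld_zz]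
  exact single_mem_Pl _ (le_refl _)

include S in
theorem three_unit : IsUnit (3 : A) := by
  have h1 := unit_of S (m := 3) (by omega) (by omega)
  exact_mod_cast h1

include S in
theorem ld_zz_unit : IsUnit (ld (zz A 3)) := by
  refine isUnit_of_lead (n := 4) ld_zz_Po ?_
  rw [ld_zz, HahnSeries.coeff_single_same]
  exact (three_unit S).neg

theorem zpol_unit {P : A[X]} (hP : P.Monic) : IsUnit (zpol A 3 P) := by
  refine isUnit_of_lead (n := ((3 * P.natDegree : ℕ) : ℤ)) (ev_mem_Pl 3 P (le_refl _)) ?_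
  have := ev_coeff 3 (by norm_num) P P.natDegree
  rw [show (zpol A 3 P).coeff (-((3 * P.natDegree : ℕ) : ℤ)) = P.coeff P.natDegree from this,
    show P.coeff P.natDegree = 1 from hP]
  exact isUnit_one

theorem ld_algebraMap (a : A) : ld (algebraMap A (LaurentSeries A) a) = 0 :=
  congrFun (dd_algebraMap (I := Unit) a) ()

/-- It is enough to look at the generators. -/
theorem mem_TT1_iff (θ : LaurentSeries A) (h1 : θ * ld (zz A 3) ∈ S.R) (h2 : θ * ld S.Y ∈ S.R)
    (h3 : θ * ld S.W ∈ S.R) : θ ∈ TT1 S.R := by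
  intro f hf
  have hf' : f ∈ Algebra.adjoin A {zz A 3, S.Y, S.W} := hf
  clear hf
  induction hf' using Algebra.adjoin_induction with
  | mem f hf =>
    rcases hf with hf | hf | hf
    · rw [hf]; exact h1
    · rw [hf]; exact h2
    · rw [Set.mem_singleton_iff.1 hf]; exact h3
  | algebraMap a =>
    rw [ld_algebraMap, mul_zero]
    exact zero_mem _
  | add f g _ _ hf hg =>
    rw [ld_add, mul_add]
    exact add_mem hf hg
  | mul f g hf hg hf' hg' =>
    have e : θ * ld (f * g) = f * (θ * ld g) + g * (θ * ld f) := by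
      rw [ld_mul]
      ring
    rw [e]
    exact add_mem (mul_mem (show f ∈ S.R from hf) hg') (mul_mem (show g ∈ S.R from hg) hf')

theorem R_div3 {f : LaurentSeries A} (h : (3 : A) • f ∈ S.R) : f ∈ S.R := by
  obtain ⟨u, hu⟩ := three_unit S
  have h1 := S.R.smul_mem h ((u⁻¹ : Aˣ) : A)
  rwa [smul_smul, ← hu, Units.inv_mul, one_smul] at h1

end

end GTT

open _root_.Pool.Agent.MG.G0.GTT Polynomial ZL in
theorem t_GTT (h1 : Stmt_GST) : Stmt_GTT := by
  intro A _ S
  obtain ⟨eY2, eYW, eW2, eAB, -, -, dY, dW, hmem, hind, -, -, -⟩ := h1 S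
  have hg := S.hg
  have ha := S.ha
  have hDu := zpol_unit (monic_D S)
  have key : ∀ θ, θ ∈ TT1 S.R ↔ ∃ p q s : Polynomial A, θ * ld (zz A 3) =
      zpol A 3 (S.pD * p) + zpol A 3 (S.pB * q) * S.Y + zpol A 3 (S.pA * s) * S.W := by
    intro θ
    -- the two derivatives multiplied by D
    have fY : zpol A 3 S.pD * ((3 : A) • (θ * ld S.Y)) =
        zpol A 3 S.cY * S.Y * (θ * ld (zz A 3)) := by
      rw [mul_smul_comm]
      calc (3 : A) • (zpol A 3 S.pD * (θ * ld S.Y))
          = θ * ((3 : A) • (zpol A 3 S.pD * ld S.Y)) := by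
            rw [mul_smul_comm]
            congr 1
            ring
        _ = _ := by rw [dY]; ring
    have fW : zpol A 3 S.pD * ((3 : A) • (θ * ld S.W)) =
        zpol A 3 S.cW * S.W * (θ * ld (zz A 3)) := by
      rw [mul_smul_comm]
      calc (3 : A) • (zpol A 3 S.pD * (θ * ld S.W))
          = θ * ((3 : A) • (zpol A 3 S.pD * ld S.W)) := by
            rw [mul_smul_comm]
            congr 1
            ring
        _ = _ := by rw [dW]; ring
    constructor
    · intro hθ
      obtain ⟨p0, p1, p2, hX⟩ := (hmem _).1 (hθ (zz A 3) (Algebra.subset_adjoin (by simp)))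
      obtain ⟨a0, a1, a2, hY⟩ := (hmem _).1 (hθ S.Y (Algebra.subset_adjoin (by simp)))
      obtain ⟨b0, b1, b2, hW⟩ := (hmem _).1 (hθ S.W (Algebra.subset_adjoin (by simp)))
      have three_smul : ∀ f : LaurentSeries A, (3 : A) • f = zpol A 3 (C 3) * f := by
        intro f
        rw [zpol, aeval_C, Algebra.smul_def]
      -- coefficients of Y and W in the first relation
      have r1 : zpol A 3 (S.pD * (C 3 * a0) - S.cY * (p2 * S.pD)) +
          zpol A 3 (S.pD * (C 3 * a1) - S.cY * p0) * S.Y +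
          zpol A 3 (S.pD * (C 3 * a2) - S.cY * (p1 * S.pA)) * S.W = 0 := by
        rw [hX, hY, three_smul] at fY
        simp only [map_sub, map_mul]
        linear_combination fY + zpol A 3 S.cY * zpol A 3 p1 * eY2 + zpol A 3 S.cY * zpol A 3 p2 * eYW
      have r2 : zpol A 3 (S.pD * (C 3 * b0) - S.cW * (p1 * S.pD)) +
          zpol A 3 (S.pD * (C 3 * b1) - S.cW * (p2 * S.pB)) * S.Y +
          zpol A 3 (S.pD * (C 3 * b2) - S.cW * p0) * S.W = 0 := by
        rw [hX, hW, three_smul] at fW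
        simp only [map_sub, map_mul]
        linear_combination fW + zpol A 3 S.cW * zpol A 3 p1 * eYW + zpol A 3 S.cW * zpol A 3 p2 * eW2
      obtain ⟨-, r11, r12⟩ := hind _ _ _ r1
      obtain ⟨-, r21, -⟩ := hind _ _ _ r2
      have d0 : S.pD ∣ p0 := by
        refine (cop_cY_D S).symm.dvd_of_dvd_mul_left ⟨C 3 * a1, ?_⟩
        linear_combination -r11
      have d1 : S.pB ∣ p1 := by
        refine (cop_cY_B S eAB).symm.dvd_of_dvd_mul_left ⟨C 3 * a2, ?_⟩
        have : S.pA * (S.cY * p1) = S.pA * (S.pB * (C 3 * a2)) := by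
          rw [← eAB] at r12
          linear_combination -r12
        exact (monic_A S).isRegular.left this
      have d2 : S.pA ∣ p2 := by
        refine (cop_cW_A S).symm.dvd_of_dvd_mul_left ⟨C 3 * b1, ?_⟩
        have : S.pB * (S.cW * p2) = S.pB * (S.pA * (C 3 * b1)) := by
          rw [← eAB] at r21
          linear_combination -r21
        exact (monic_B S).isRegular.left this
      obtain ⟨p, rfl⟩ := d0
      obtain ⟨q, rfl⟩ := d1
      obtain ⟨s, rfl⟩ := d2
      exact ⟨p, q, s, hX⟩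
    · rintro ⟨p, q, s, hX⟩
      have zAB : zpol A 3 S.pA * zpol A 3 S.pB = zpol A 3 S.pD := by rw [← map_mul, eAB]
      refine mem_TT1_iff S θ ((hmem _).2 ⟨_, _, _, hX⟩) (R_div3 S ?_) (R_div3 S ?_)
      · refine (hmem _).2 ⟨S.cY * (S.pA * s), S.cY * p, S.cY * q, ?_⟩
        refine hDu.mul_left_cancel ?_
        rw [fY, hX]
        simp only [map_mul]
        linear_combination (zpol A 3 S.cY * zpol A 3 S.pB * zpol A 3 q) * eY2 +
          (zpol A 3 S.cY * zpol A 3 S.pA * zpol A 3 s) * eYW +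
          (zpol A 3 S.cY * zpol A 3 q * S.W) * zAB
      · refine (hmem _).2 ⟨S.cW * (S.pB * q), S.cW * s, S.cW * p, ?_⟩
        refine hDu.mul_left_cancel ?_
        rw [fW, hX]
        simp only [map_mul]
        linear_combination (zpol A 3 S.cW * zpol A 3 S.pB * zpol A 3 q) * eYW +
          (zpol A 3 S.cW * zpol A 3 S.pA * zpol A 3 s) * eW2 +
          (zpol A 3 S.cW * zpol A 3 s * S.Y) * zAB
  refine ⟨key, ?_⟩
  intro θ hθ hθ0
  obtain ⟨p, q, s, hX⟩ := (key θ).1 hθ
  have h4 : θ * ld (zz A 3) ∈ Po A 4 := by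
    have := mul_mem_Pl hθ0 (ld_zz_Po (A := A))
    rwa [zero_add] at this
  have hz : ∀ i, (![zpol A 3 (S.pD * p) * 1, zpol A 3 (S.pB * q) * S.Y,
      zpol A 3 (S.pA * s) * S.W] : Fin 3 → LaurentSeries A) i = 0 := by
    refine three (M := 4) _ ![3 * ((S.pD * p).natDegree : ℤ) + 0,
      3 * ((S.pB * q).natDegree : ℤ) + S.n1, 3 * ((S.pA * s).natDegree : ℤ) + S.n2] ?_ ?_ ?_
    · have h3 := S.h3
      have e1 : S.n1 = S.g + 1 + S.a := rfl
      have e2 : S.n2 = 2 * S.g + 2 - S.a := rfl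
      intro i j hij
      fin_cases i <;> fin_cases j <;> simp at hij ⊢ <;> omega
    · intro i
      fin_cases i
      · intro h0
        change zpol A 3 (S.pD * p) * 1 ≠ 0 at h0
        have hP : S.pD * p ≠ 0 := fun hc => h0 (by rw [hc, map_zero, zero_mul])
        have hp : p ≠ 0 := fun hc => hP (by rw [hc, mul_zero])
        have hd := (monic_D S).natDegree_mul' hp
        have hdD : S.pD.natDegree = S.g + 1 := deg_D S hp
        obtain ⟨h5, h6⟩ := zpol_lead hP (one_mem_Pl (A := A) (le_refl 0)) (by simp)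
        refine ⟨?_, h5, h6⟩
        change (4 : ℤ) < 3 * ((S.pD * p).natDegree : ℤ) + 0
        rw [hd, hdD]
        push_cast
        omega
      · intro h0
        change zpol A 3 (S.pB * q) * S.Y ≠ 0 at h0
        have hP : S.pB * q ≠ 0 := fun hc => h0 (by rw [hc, map_zero, zero_mul])
        have hp : q ≠ 0 := fun hc => hP (by rw [hc, mul_zero])
        have hd := (monic_B S).natDegree_mul' hp
        have hdB : S.pB.natDegree = S.g + 1 - S.a := deg_B S hp
        obtain ⟨h5, h6⟩ := zpol_lead hP (single_psl_Po (S.n1 : ℤ) S.r) (by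
          rw [single_psl_lead, S.r1])
        refine ⟨?_, h5, h6⟩
        change (4 : ℤ) < 3 * ((S.pB * q).natDegree : ℤ) + S.n1
        rw [hd, hdB]
        omega
      · intro h0
        change zpol A 3 (S.pA * s) * S.W ≠ 0 at h0
        have hP : S.pA * s ≠ 0 := fun hc => h0 (by rw [hc, map_zero, zero_mul])
        obtain ⟨h5, h6⟩ := zpol_lead hP (single_psl_Po (S.n2 : ℤ) (S.r ^ 2)) (by
          rw [single_psl_lead, map_pow, S.r1, one_pow])
        refine ⟨?_, h5, h6⟩
        change (4 : ℤ) < 3 * ((S.pA * s).natDegree : ℤ) + S.n2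
        have e2 : S.n2 = 2 * S.g + 2 - S.a := rfl
        omega
    · rw [Fin.sum_univ_three]
      change zpol A 3 (S.pD * p) * 1 + zpol A 3 (S.pB * q) * S.Y + zpol A 3 (S.pA * s) * S.W ∈ _
      rw [mul_one, ← hX]
      exact h4
  have z0 : zpol A 3 (S.pD * p) * 1 = 0 := hz 0
  have z1 : zpol A 3 (S.pB * q) * S.Y = 0 := hz 1
  have z2 : zpol A 3 (S.pA * s) * S.W = 0 := hz 2
  rw [mul_one] at z0
  rw [z0, z1, z2, add_zero, add_zero] at hX
  exact (ld_zz_unit S).mul_left_eq_zero.1 hX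

end Pool.Agent.MG.G0


end

section

/-!
# Invariance of the residue (RIN, PAPER RES4)
-/

namespace Pool.Agent.MG.G0

namespace RIN

section tr

variable {A M S : Type} [CommRing A] [AddCommGroup M] [Module A M]

theorem FR_of {σ : Type} (s : Finset σ) (l : σ → (M →ₗ[A] A)) (x : σ → M) (F : M →ₗ[A] M)
    (h : ∀ m, F m = ∑ k ∈ s, l k m • x k) : FR F := by
  refine ⟨s.card, fun k => l (s.equivFin.symm k), fun k => x (s.equivFin.symm k), fun m => ?_⟩
  rw [h m, ← Finset.sum_coe_sort s]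
  exact (Equiv.sum_comp s.equivFin.symm fun k : s => l k m • x k).symm

theorem comm0 (hRTR : Stmt_RTR) (b : Module.Basis S A M) {G : M →ₗ[A] M} (hG : FR G)
    (X : M →ₗ[A] M) : FR (G ∘ₗ X - X ∘ₗ G) ∧ ftr b (G ∘ₗ X - X ∘ₗ G) = 0 := by
  obtain ⟨_, hadd, hneg, hcomp⟩ := hRTR b
  obtain ⟨h1, h2, h3⟩ := hcomp G X hG
  obtain ⟨h4, h5⟩ := hneg _ h2
  obtain ⟨h6, h7⟩ := hadd _ _ h1 h4
  rw [sub_eq_add_neg]
  refine ⟨h6, ?_⟩
  rw [h7, h5, h3, add_neg_cancel]

/-- The trace of a commutator does not change under conjugation and perturbations of finite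
rank. -/
theorem pert (hRTR : Stmt_RTR) (b : Module.Basis S A M) {F H F' H' T U : M →ₗ[A] M}
    (hU : U ∘ₗ T = LinearMap.id) (hF : FR (F' - T ∘ₗ F ∘ₗ U)) (hH : FR (H' - T ∘ₗ H ∘ₗ U))
    (hc : FR (F ∘ₗ H - H ∘ₗ F)) :
    ftr b (F' ∘ₗ H' - H' ∘ₗ F') = ftr b (F ∘ₗ H - H ∘ₗ F) := by
  obtain ⟨_, hadd, hneg, hcomp⟩ := hRTR b
  obtain ⟨G, hG⟩ : ∃ G, G = F' - T ∘ₗ F ∘ₗ U := ⟨_, rfl⟩
  obtain ⟨R, hR⟩ : ∃ R, R = H' - T ∘ₗ H ∘ₗ U := ⟨_, rfl⟩
  rw [← hG] at hF
  rw [← hR] at hH
  have e1 : F' = T ∘ₗ F ∘ₗ U + G := by rw [hG]; abel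
  have e2 : H' = T ∘ₗ H ∘ₗ U + R := by rw [hR]; abel
  have hU' : ∀ x, U (T x) = x := fun x => LinearMap.congr_fun hU x
  have key : F' ∘ₗ H' - H' ∘ₗ F' =
      (T ∘ₗ ((F ∘ₗ H - H ∘ₗ F) ∘ₗ U)) + ((G ∘ₗ H' - H' ∘ₗ G) +
        -(R ∘ₗ (T ∘ₗ F ∘ₗ U) - (T ∘ₗ F ∘ₗ U) ∘ₗ R)) := by
    rw [e1, e2]
    ext1 x
    simp only [LinearMap.sub_apply, LinearMap.add_apply, LinearMap.comp_apply,
      LinearMap.neg_apply, map_add, map_sub, hU']
    abel
  obtain ⟨c1, c2⟩ := comm0 hRTR b hF H'
  obtain ⟨c3, c4⟩ := comm0 hRTR b hH (T ∘ₗ F ∘ₗ U)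
  obtain ⟨c5, c6⟩ := hneg _ c3
  obtain ⟨c7, c8⟩ := hadd _ _ c1 c5
  obtain ⟨d1, _, _⟩ := hcomp _ U hc
  obtain ⟨d2, d3, d4⟩ := hcomp _ T d1
  obtain ⟨_, d6⟩ := hadd _ _ d3 c7
  rw [key, d6, c8, c2, c6, c4, ← d4, neg_zero, add_zero, add_zero]
  congr 1
  ext1 x
  simp only [LinearMap.comp_apply, hU']

end tr

section main

variable {I A : Type} [Fintype I] [CommRing A]

/-- Multiplication by `f`, followed by the polar part. -/
noncomputable def op (π : KK I A →ₗ[A] Neg I A) (f : KK I A) : Neg I A →ₗ[A] Neg I A :=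
  π ∘ₗ (LinearMap.mulLeft A f) ∘ₗ (Neg I A).subtype

omit [Fintype I] in
theorem op_apply (π : KK I A →ₗ[A] Neg I A) (f : KK I A) (x : Neg I A) :
    op π f x = π (f * x) := rfl

/-- An automorphism, followed by the polar part. -/
noncomputable def tr (π : KK I A →ₗ[A] Neg I A) (α : KK I A →ₗ[A] KK I A) :
    Neg I A →ₗ[A] Neg I A :=
  π ∘ₗ α ∘ₗ (Neg I A).subtype

omit [Fintype I] in
theorem tr_apply (π : KK I A →ₗ[A] Neg I A) (α : KK I A →ₗ[A] KK I A) (x : Neg I A) :
    tr π α x = π (α x) := rfl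

/-- The coefficient functional of `y`. -/
noncomputable def cf (y : Neg I A →ₗ[A] KK I A) (q : I × ℤ) : Neg I A →ₗ[A] A where
  toFun x := ((y x) q.1).coeff q.2
  map_add' x z := by
    rw [map_add]
    rfl
  map_smul' a x := by
    rw [map_smul]
    rfl

/-- Multiplication on series without poles is of finite rank on polar parts. -/
theorem finrank (π : KK I A →ₗ[A] Neg I A) (h2 : ∀ f ∈ Pol I A 0, π f = 0) (u : KK I A)
    (y : Neg I A →ₗ[A] KK I A) (hy : ∀ x, y x ∈ Pol I A 0) (G : Neg I A →ₗ[A] Neg I A)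
    (hG : ∀ x, G x = π (u * y x)) : FR G := by
  classical
  obtain ⟨a, ha⟩ := exists_Pol u
  refine FR_of ((Finset.univ : Finset I) ×ˢ Finset.Ico (0 : ℤ) a) (fun q => cf y q)
    (fun q => π (u * mon q.1 q.2 1)) G fun x => ?_
  have h0 : y x ∈ Pol I A ((0 : ℕ) : ℤ) := hy x
  have h3 := sub_mon_mem_Pol h0 (a : ℤ)
  have h4 : u * (y x - ∑ i, ∑ m ∈ Finset.Ico (-((0 : ℕ) : ℤ)) (a : ℤ),
      mon i m (((y x) i).coeff m)) ∈ Pol I A 0 := by
    have := mul_mem_Pol ha h3
    rwa [add_neg_cancel] at this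
  have h5 := h2 _ h4
  rw [mul_sub, map_sub, sub_eq_zero] at h5
  rw [hG, h5, Finset.mul_sum, map_sum, Finset.sum_product]
  refine Finset.sum_congr rfl fun i _ => ?_
  rw [Finset.mul_sum, map_sum, Nat.cast_zero, neg_zero]
  refine Finset.sum_congr rfl fun m _ => ?_
  have h6 : mon i m (((y x) i).coeff m) = ((y x) i).coeff m • mon i m (1 : A) := by
    rw [smul_mon, mul_one]
  rw [h6, mul_smul_comm, map_smul]
  rfl

end main

end RIN

open _root_.Pool.Agent.MG.G0.RIN in
theorem t_RIN (hRTR : Stmt_RTR) (hRTA : Stmt_RTA) : Stmt_RIN := by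
  intro I A _ _ α hα f h
  obtain ⟨π, b, h1, h2, h3, _, h5⟩ := hRTA (I := I) (A := A)
  obtain ⟨αl, hαl⟩ : ∃ αl : KK I A →ₗ[A] KK I A, ∀ x, αl x = α x :=
    ⟨(α : KK I A →ₐ[A] KK I A).toLinearMap, fun x => rfl⟩
  obtain ⟨βl, hβl⟩ : ∃ βl : KK I A →ₗ[A] KK I A, ∀ x, βl x = α.symm x :=
    ⟨(α.symm : KK I A →ₐ[A] KK I A).toLinearMap, fun x => rfl⟩
  have hβ : ∀ x, α.symm x ∈ Pol I A 0 ↔ x ∈ Pol I A 0 := by
    intro x
    rw [← hα, AlgEquiv.apply_symm_apply]
  -- the polar part of `α y` depends only on the polar part of `y`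
  have hp : ∀ y : KK I A, π (α (π y)) = π (α y) := by
    intro y
    have h6 : α (y - π y) ∈ Pol I A 0 := (hα _).2 (h1 y)
    have h7 := h2 _ h6
    rw [map_sub, map_sub, sub_eq_zero] at h7
    exact h7.symm
  have hq : ∀ y : KK I A, π (α.symm (π y)) = π (α.symm y) := by
    intro y
    have h6 : α.symm (y - π y) ∈ Pol I A 0 := (hβ _).2 (h1 y)
    have h7 := h2 _ h6
    rw [map_sub, map_sub, sub_eq_zero] at h7
    exact h7.symm
  have hU : tr π βl ∘ₗ tr π αl = LinearMap.id := by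
    ext1 x
    rw [LinearMap.comp_apply, tr_apply, tr_apply, hαl, hβl, hq, AlgEquiv.symm_apply_apply, h3]
    rfl
  have hfr : ∀ u : KK I A, FR (op π (α u) - tr π αl ∘ₗ op π u ∘ₗ tr π βl) := by
    intro u
    refine finrank π h2 (α u) ((Neg I A).subtype - αl ∘ₗ (Neg I A).subtype ∘ₗ tr π βl) ?_ _ ?_
    · intro x
      have h6 : α (α.symm x - π (α.symm x)) ∈ Pol I A 0 := (hα _).2 (h1 _)
      rw [map_sub, AlgEquiv.apply_symm_apply] at h6
      rw [LinearMap.sub_apply, LinearMap.comp_apply, LinearMap.comp_apply, tr_apply, hαl, hβl]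
      exact h6
    · intro x
      have e1 : (op π (α u) - tr π αl ∘ₗ op π u ∘ₗ tr π βl) x =
          π (α u * x) - π (αl (π (u * π (βl x)))) := rfl
      have e2 : ((Neg I A).subtype - αl ∘ₗ (Neg I A).subtype ∘ₗ tr π βl) x =
          x - αl (π (βl x)) := rfl
      rw [e1, e2, hαl, hαl, hβl, hp, map_mul α u, mul_sub, map_sub]
  obtain ⟨c1, c2⟩ := h5 f h (op π f) (op π h) (fun _ => rfl) (fun _ => rfl)
  obtain ⟨_, c4⟩ := h5 (α f) (α h) (op π (α f)) (op π (α h)) (fun _ => rfl) (fun _ => rfl)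
  rw [← c4, ← c2]
  exact pert hRTR b hU (hfr f) (hfr h) c1

end Pool.Agent.MG.G0


end

section

/-!
# Integral elements of the algebraic closure of `L((τ))`
-/

namespace Pool.Agent.MG.G0.ZL

open Polynomial

section

variable {Q E : Type} [CommRing Q] [Field E] (φ : Q →+* E)

/-- The subring of the elements integral over the image of `φ`. -/
noncomputable def SS : Subring E :=
  letI := φ.toAlgebra
  (integralClosure Q E).toSubring

theorem mem_SS {y : E} : y ∈ SS φ ↔ φ.IsIntegralElem y := Iff.rfl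

theorem SS_map (q : Q) : φ q ∈ SS φ := φ.isIntegralElem_map

theorem SS_pow {y : E} {m : ℕ} (hm : 0 < m) (h : y ^ m ∈ SS φ) : y ∈ SS φ := by
  let _ := φ.toAlgebra
  exact IsIntegral.of_pow hm h

theorem SS_root {y : E} {p : E[X]} (hp : p.Monic) (hd : p.natDegree ≠ 0)
    (hc : ∀ i, p.coeff i ∈ SS φ) (h : p.eval y = 0) : y ∈ SS φ := by
  let _ := φ.toAlgebra
  refine IsIntegral.of_aeval_monic_of_isIntegral_coeff (p := p) hp hd ?_ ?_
  · rw [h]
    exact isIntegral_zero
  · intro i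
    exact hc i

theorem SS_coeff {p : E[X]} (hp : p.Monic) (hs : p.Splits) (h : ∀ x, p.IsRoot x → x ∈ SS φ)
    (i : ℕ) : p.coeff i ∈ SS φ := by
  let _ := φ.toAlgebra
  refine isIntegral_coeff_of_factors (R := Q) p ?_ hs h i
  rw [hp.leadingCoeff]
  exact isIntegral_one

end

section

variable {L : Type} [Field L] {d : ℕ} [NeZero d]

/-- The algebraic closure of `L((τ))`. -/
abbrev EL (L : Type) [Field L] : Type := AlgebraicClosure (LaurentSeries L)

/-- The embedding of `L((τ))`. -/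
noncomputable def em (L : Type) [Field L] : LaurentSeries L →+* EL L :=
  algebraMap (LaurentSeries L) (EL L)

theorem em_injective : Function.Injective (em L) := (em L).injective

variable {O : Type} [CommRing O] [Algebra O L]

/-- The polynomials in `z` with coefficients in `O`, in `L((τ))`. -/
noncomputable def phK (O L : Type) [CommRing O] [Field L] [Algebra O L] (d : ℕ) :
    O[X] →+* LaurentSeries L :=
  (ev d : L[X] →ₐ[L] LaurentSeries L).toRingHom.comp (mapRingHom (algebraMap O L))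

theorem phK_apply (q : O[X]) : phK O L d q = ev d (q.map (algebraMap O L)) := rfl

/-- The polynomials in `z` with coefficients in `O`, in the algebraic closure of `L((τ))`. -/
noncomputable def phE (O L : Type) [CommRing O] [Field L] [Algebra O L] (d : ℕ) :
    O[X] →+* EL L := (em L).comp (phK O L d)

theorem phE_apply (q : O[X]) : phE O L d q = em L (ev d (q.map (algebraMap O L))) := rfl

variable (O) in
/-- A polynomial with coefficients in `L` which is integral over `O[z]` has coefficients in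
`O`. -/
theorem SS_poly [IsDomain O] [IsIntegrallyClosed O] [IsFractionRing O L] {q : L[X]}
    (h : em L (ev d q) ∈ SS (phE O L d)) : ∃ q' : O[X], q = q'.map (algebraMap O L) := by
  have h1 : (mapRingHom (algebraMap O L)).IsIntegralElem q := by
    obtain ⟨p, hp, hp'⟩ := h
    refine ⟨p, hp, ?_⟩
    have h2 : em L (ev d (eval₂ (mapRingHom (algebraMap O L)) q p)) = 0 := by
      rw [← hp']
      have h3 := Polynomial.hom_eval₂ p (mapRingHom (algebraMap O L))
        ((em L).comp (ev d : L[X] →ₐ[L] LaurentSeries L).toRingHom) q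
      exact h3
    have h3 : ev d (eval₂ (mapRingHom (algebraMap O L)) q p) = 0 :=
      em_injective (by rw [h2, map_zero])
    exact ev_injective (A := L) d (NeZero.ne d) (by rw [h3, map_zero])
  have h2 : ∀ i, IsIntegral O (q.coeff i) := by
    let _ := Polynomial.algebra O L
    intro i
    exact IsIntegral.coeff (R := O) (S := L) (p := q) h1 i
  have h3 : q ∈ Polynomial.lifts (algebraMap O L) := by
    rw [Polynomial.lifts_iff_coeff_lifts]
    intro i
    exact IsIntegrallyClosed.isIntegral_iff.1 (h2 i)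
  obtain ⟨q', hq'⟩ := (Polynomial.mem_lifts _).1 h3
  exact ⟨q', hq'.symm⟩

theorem aeval_cm_of_pr (y : LaurentSeries L) (p : (LaurentSeries L)[X])
    (hp : ∀ i, pr (0 : ZMod d) (p.coeff i) = p.coeff i) :
    aeval (cm d y) p = cm d (p.eval y) := by
  rw [aeval_eq_sum_range, eval_eq_sum_range, map_sum]
  refine Finset.sum_congr rfl fun i _ => ?_
  rw [map_mul, map_pow, cm_of_pr (hp i), Algebra.smul_def]
  rfl

/-- The characteristic polynomial over the algebraic closure. -/
noncomputable def chE (d : ℕ) [NeZero d] (x : LaurentSeries L) : (EL L)[X] :=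
  (cm d x).charpoly.map (em L)

theorem chE_monic (x : LaurentSeries L) : (chE d x).Monic :=
  (Matrix.charpoly_monic _).map _

theorem chE_natDegree (x : LaurentSeries L) : (chE d x).natDegree = d := by
  rw [chE, natDegree_map, Matrix.charpoly_natDegree_eq_dim, ZMod.card]

theorem chE_eval (x : LaurentSeries L) : (chE d x).eval (em L x) = 0 := by
  rw [chE, eval_map, eval₂_at_apply, charpoly_cm_eval, map_zero]

theorem chE_coeff (x : LaurentSeries L) (i : ℕ) :
    (chE d x).coeff i = em L ((cm d x).charpoly.coeff i) := by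
  rw [chE, coeff_map]

/-- The roots of the characteristic polynomial are conjugate to the element. -/
theorem root_mem {x : LaurentSeries L} {ρ : EL L} (hρ : ρ ≠ 0) {m : ℕ} (hm : 0 < m) {l : L}
    (hl : ρ ^ m = em L (algebraMap L (LaurentSeries L) l))
    (hx : ρ⁻¹ * em L x ∈ SS (phE O L d)) {lam : EL L} (hlam : (chE d x).IsRoot lam) :
    ρ⁻¹ * lam ∈ SS (phE O L d) := by
  classical
  have hl0 : l ≠ 0 := by
    rintro rfl
    rw [map_zero, map_zero] at hl
    exact hρ (pow_eq_zero_iff hm.ne' |>.1 hl)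
  have hal0 : (algebraMap L (LaurentSeries L) l) ≠ 0 := by
    intro h
    rw [h, map_zero] at hl
    exact hρ (pow_eq_zero_iff hm.ne' |>.1 hl)
  set y : LaurentSeries L := (algebraMap L (LaurentSeries L) l)⁻¹ * x ^ m with hy
  have hyE : em L y = (ρ⁻¹ * em L x) ^ m := by
    rw [hy, map_mul, map_pow, map_inv₀, ← hl, mul_pow, inv_pow]
  have hyS : em L y ∈ SS (phE O L d) := by
    rw [hyE]
    exact pow_mem hx m
  obtain ⟨p, hp, hp'⟩ := hyS
  -- the equation in `L((τ))`
  set pK : (LaurentSeries L)[X] := p.map (phK O L d) with hpK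
  have hpK0 : pK.eval y = 0 := by
    apply em_injective (L := L)
    rw [map_zero, hpK, eval_map, hom_eval₂]
    exact hp'
  have hpr : ∀ i, pr (0 : ZMod d) (pK.coeff i) = pK.coeff i := by
    intro i
    rw [hpK, coeff_map, phK_apply, pr_ev]
  have hcm : aeval (cm d y) pK = 0 := by
    rw [aeval_cm_of_pr y pK hpr, hpK0, map_zero]
  have hal : pr (0 : ZMod d) ((algebraMap L (LaurentSeries L) l)⁻¹) =
      (algebraMap L (LaurentSeries L) l)⁻¹ := by
    rw [← map_inv₀, pr_algebraMap]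
  have hcmy : cm d y = (algebraMap L (LaurentSeries L) l)⁻¹ • (cm d x) ^ m := by
    rw [hy, map_mul, map_pow, cm_of_pr hal, Algebra.smul_def]
    rfl
  -- matrices over the algebraic closure
  let M : Matrix (ZMod d) (ZMod d) (EL L) := (cm d x).map (em L)
  have hM : M.charpoly = chE d x := Matrix.charpoly_map (cm d x) (em L)
  let P : (EL L)[X] := (pK.map (em L)).comp (C (em L (algebraMap L (LaurentSeries L) l))⁻¹ * X ^ m)
  have hPM : aeval M P = 0 := by
    have h1 : aeval M (C (em L (algebraMap L (LaurentSeries L) l))⁻¹ * X ^ m) =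
        (cm d y).map (em L) := by
      rw [map_mul, aeval_C, map_pow, aeval_X, ← Algebra.smul_def, hcmy]
      have h2 : ((algebraMap L (LaurentSeries L) l)⁻¹ • (cm d x) ^ m).map (em L) =
          em L ((algebraMap L (LaurentSeries L) l)⁻¹) • ((cm d x) ^ m).map (em L) := by
        ext1 i j
        rw [Matrix.map_apply, Matrix.smul_apply, Matrix.smul_apply, Matrix.map_apply,
          smul_eq_mul, smul_eq_mul, map_mul]
      rw [h2, map_inv₀]
      congr 1
      exact (map_pow (em L).mapMatrix (cm d x) m).symm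
    show aeval M ((pK.map (em L)).comp _) = 0
    rw [aeval_comp, h1]
    have h3 : aeval ((cm d y).map (em L)) (pK.map (em L)) = (aeval (cm d y) pK).map (em L) := by
      rw [aeval_eq_sum_range, aeval_eq_sum_range, natDegree_map]
      have h4 : ((∑ i ∈ Finset.range (pK.natDegree + 1), pK.coeff i • cm d y ^ i).map (em L)) =
          ∑ i ∈ Finset.range (pK.natDegree + 1), (pK.coeff i • cm d y ^ i).map (em L) :=
        map_sum (em L).mapMatrix _ _
      rw [h4]
      refine Finset.sum_congr rfl fun i _ => ?_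
      have h5 : (pK.coeff i • cm d y ^ i).map (em L) =
          em L (pK.coeff i) • (cm d y ^ i).map (em L) := by
        ext1 a b
        rw [Matrix.map_apply, Matrix.smul_apply, Matrix.smul_apply, Matrix.map_apply,
          smul_eq_mul, smul_eq_mul, map_mul]
      rw [h5, coeff_map]
      congr 1
      exact (map_pow (em L).mapMatrix (cm d y) i).symm
    rw [h3, hcm]
    exact Matrix.map_zero _ (map_zero _)
  have hsp : lam ∈ spectrum (EL L) M := by
    apply Matrix.mem_spectrum_of_isRoot_charpoly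
    rw [hM]
    exact hlam
  have hsp2 : P.eval lam ∈ spectrum (EL L) (aeval M P) :=
    spectrum.subset_polynomial_aeval M P ⟨lam, hsp, rfl⟩
  rw [hPM, spectrum.zero_eq, Set.mem_singleton_iff] at hsp2
  have hev : (pK.map (em L)).eval ((ρ⁻¹ * lam) ^ m) = 0 := by
    have h1 : P.eval lam = (pK.map (em L)).eval
        ((em L (algebraMap L (LaurentSeries L) l))⁻¹ * lam ^ m) := by
      show ((pK.map (em L)).comp _).eval lam = _
      rw [eval_comp, eval_mul, eval_C, eval_pow, eval_X]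
    rw [h1, ← hl, ← inv_pow, ← mul_pow] at hsp2
    exact hsp2
  refine SS_pow _ hm ⟨p, hp, ?_⟩
  have h1 := hev
  rw [hpK, map_map, eval_map] at h1
  exact h1

/-- Integrality in terms of the characteristic polynomial. -/
theorem coeff_of_mem {x : LaurentSeries L} {ρ : EL L} (hρ : ρ ≠ 0) {m : ℕ} (hm : 0 < m) {l : L}
    (hl : ρ ^ m = em L (algebraMap L (LaurentSeries L) l))
    (hx : ρ⁻¹ * em L x ∈ SS (phE O L d)) (i : ℕ) :
    em L ((cm d x).charpoly.coeff i) * ρ⁻¹ ^ (d - i) ∈ SS (phE O L d) := by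
  have h1 : ((chE d x).scaleRoots ρ⁻¹).coeff i ∈ SS (phE O L d) := by
    refine SS_coeff _ ?_ (IsAlgClosed.splits _) ?_ i
    · rw [monic_scaleRoots_iff]
      exact chE_monic x
    · intro r hr
      have h2 : (chE d x).IsRoot (ρ * r) := by
        have h3 := scaleRoots_eval_mul (chE d x) (ρ * r) ρ⁻¹
        rw [← mul_assoc, inv_mul_cancel₀ hρ, one_mul] at h3
        have h4 : ((chE d x).scaleRoots ρ⁻¹).eval r = 0 := hr
        rw [h4] at h3
        have h5 : ρ⁻¹ ^ (chE d x).natDegree ≠ 0 := pow_ne_zero _ (inv_ne_zero hρ)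
        exact (mul_eq_zero.1 h3.symm).resolve_left h5
      have h3 := root_mem (O := O) hρ hm hl hx h2
      rwa [← mul_assoc, inv_mul_cancel₀ hρ, one_mul] at h3
  rw [coeff_scaleRoots, chE_coeff, chE_natDegree] at h1
  exact h1

theorem mem_of_coeff {x : LaurentSeries L} {ρ : EL L}
    (h : ∀ i < d, em L ((cm d x).charpoly.coeff i) * ρ⁻¹ ^ (d - i) ∈ SS (phE O L d)) :
    ρ⁻¹ * em L x ∈ SS (phE O L d) := by
  refine SS_root (phE O L d) (p := (chE d x).scaleRoots ρ⁻¹) ?_ ?_ ?_ ?_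
  · rw [monic_scaleRoots_iff]
    exact chE_monic x
  · rw [natDegree_scaleRoots, chE_natDegree]
    exact NeZero.ne d
  · intro i
    rw [coeff_scaleRoots, chE_coeff, chE_natDegree]
    rcases lt_trichotomy i d with h1 | h1 | h1
    · exact h i h1
    · subst h1
      have h2 : (cm i x).charpoly.coeff i = 1 := by
        have h3 := Matrix.charpoly_monic (cm i x)
        rw [Monic, leadingCoeff, Matrix.charpoly_natDegree_eq_dim, ZMod.card] at h3
        exact h3
      rw [h2, map_one, Nat.sub_self, pow_zero, one_mul]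
      exact one_mem _
    · rw [coeff_eq_zero_of_natDegree_lt, map_zero, zero_mul]
      · exact zero_mem _
      · rw [Matrix.charpoly_natDegree_eq_dim, ZMod.card]
        exact h1
  · rw [scaleRoots_eval_mul, chE_eval, mul_zero]

end

end Pool.Agent.MG.G0.ZL


end

section

/-!
# The filtration by the powers of a root of the uniformizer
-/

namespace Pool.Agent.MG.G0.ZL

open Polynomial

section

variable {O L : Type} [CommRing O] [IsDomain O] [IsDiscreteValuationRing O] [Field L]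
  [Algebra O L] [IsFractionRing O L] {d : ℕ} [NeZero d]

/-- Constants of `L` in the algebraic closure of `L((τ))`. -/
noncomputable def ec (L : Type) [Field L] : L →+* EL L :=
  (em L).comp (algebraMap L (LaurentSeries L))

theorem ec_apply (l : L) : ec L l = em L (algebraMap L (LaurentSeries L) l) := rfl

theorem ec_eq_ev (d : ℕ) (l : L) : ec L l = em L (ev d (C l)) := by
  rw [ev_C]
  rfl

/-- `w` is an `N`-th root of the uniformizer `ϖ`. -/
structure Rt (ϖ : O) (N : ℕ) (w : EL L) : Prop where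
  pos : 0 < N
  irr : Irreducible ϖ
  pow : w ^ N = ec L (algebraMap O L ϖ)

/-- The elements `w ^ b y` with `y` integral. -/
def FF (O : Type) [CommRing O] {L : Type} [Field L] [Algebra O L] (d : ℕ) (w : EL L) (b : ℤ)
    (y : EL L) : Prop := w ^ (-b) * y ∈ SS (phE O L d)

variable {ϖ : O} {N : ℕ} {w : EL L}

theorem Rt.pi_ne (h : Rt (L := L) ϖ N w) : algebraMap O L ϖ ≠ 0 := by
  rw [Ne, IsFractionRing.to_map_eq_zero_iff (K := L)]
  exact h.irr.ne_zero

theorem Rt.ne (h : Rt ϖ N w) : w ≠ 0 := by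
  rintro rfl
  have h1 := h.pow
  rw [zero_pow h.pos.ne'] at h1
  exact h.pi_ne ((map_eq_zero (ec L)).1 h1.symm)

theorem Rt.mem (h : Rt ϖ N w) : w ∈ SS (phE O L d) := by
  refine SS_pow _ h.pos ?_
  rw [h.pow]
  have h1 : ec L (algebraMap O L ϖ) = phE O L d (C ϖ) := by
    rw [phE_apply, map_C, ev_C]
    rfl
  rw [h1]
  exact SS_map _ _

omit [IsDomain O] [IsDiscreteValuationRing O] [IsFractionRing O L] in
theorem FF_zero_iff {y : EL L} : FF O d w 0 y ↔ y ∈ SS (phE O L d) := by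
  rw [FF, neg_zero, zpow_zero, one_mul]

omit [IsDomain O] [IsDiscreteValuationRing O] [IsFractionRing O L] in
theorem FF_add {b : ℤ} {x y : EL L} (hx : FF O d w b x) (hy : FF O d w b y) :
    FF O d w b (x + y) := by
  rw [FF, mul_add]
  exact add_mem hx hy

omit [IsDomain O] [IsDiscreteValuationRing O] [IsFractionRing O L] in
theorem FF_neg {b : ℤ} {x : EL L} (hx : FF O d w b x) : FF O d w b (-x) := by
  rw [FF, mul_neg]
  exact neg_mem hx

omit [IsDomain O] [IsDiscreteValuationRing O] [IsFractionRing O L] in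
theorem FF_sub {b : ℤ} {x y : EL L} (hx : FF O d w b x) (hy : FF O d w b y) :
    FF O d w b (x - y) := by
  rw [FF, mul_sub]
  exact sub_mem hx hy

omit [IsDomain O] [IsDiscreteValuationRing O] [IsFractionRing O L] in
theorem FF_zero {b : ℤ} : FF O d w b (0 : EL L) := by
  rw [FF, mul_zero]
  exact zero_mem _

omit [IsDomain O] [IsDiscreteValuationRing O] [IsFractionRing O L] in
theorem FF_sum {ι : Type} (s : Finset ι) {b : ℤ} (f : ι → EL L) (h : ∀ i ∈ s, FF O d w b (f i)) :
    FF O d w b (∑ i ∈ s, f i) := by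
  rw [FF, Finset.mul_sum]
  exact sum_mem h

theorem FF_mul (h : Rt ϖ N w) {b c : ℤ} {x y : EL L} (hx : FF O d w b x)
    (hy : FF O d w c y) : FF O d w (b + c) (x * y) := by
  have h1 : w ^ (-(b + c)) * (x * y) = (w ^ (-b) * x) * (w ^ (-c) * y) := by
    rw [neg_add, zpow_add₀ h.ne]
    ring
  rw [FF, h1]
  exact mul_mem hx hy

theorem FF_mono (h : Rt ϖ N w) {b c : ℤ} (hbc : b ≤ c) {x : EL L} (hx : FF O d w c x) :
    FF O d w b x := by
  obtain ⟨n, hn⟩ := Int.eq_ofNat_of_zero_le (sub_nonneg.2 hbc)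
  have h1 : w ^ (-b) * x = w ^ n * (w ^ (-c) * x) := by
    rw [← mul_assoc, ← zpow_natCast, ← hn, ← zpow_add₀ h.ne]
    congr 2
    ring
  rw [FF, h1]
  exact mul_mem (pow_mem h.mem n) hx

theorem FF_pow (h : Rt ϖ N w) {b : ℤ} {x : EL L} (hx : FF O d w b x) (m : ℕ) :
    FF O d w (b * m) (x ^ m) := by
  have h1 : w ^ (-(b * m)) * x ^ m = (w ^ (-b) * x) ^ m := by
    have h2 : -(b * (m : ℤ)) = -b * m := by ring
    rw [mul_pow, h2, zpow_mul, zpow_natCast]
  rw [FF, h1]
  exact pow_mem hx m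

omit [IsDomain O] [IsDiscreteValuationRing O] [IsFractionRing O L] in
theorem FF_O (q : O[X]) : FF O d w 0 (phE O L d q) := by
  rw [FF_zero_iff]
  exact SS_map _ _

theorem FF_pi (h : Rt ϖ N w) (a : ℤ) : FF O d w (N * a) (ec L (algebraMap O L ϖ ^ a)) := by
  rw [FF, map_zpow₀, ← h.pow, ← zpow_natCast, ← zpow_mul, ← zpow_add₀ h.ne, neg_add_cancel,
    zpow_zero]
  exact one_mem _

theorem FF_pi_mul (h : Rt ϖ N w) (a : ℤ) {b : ℤ} {y : EL L} :
    FF O d w (b + N * a) (ec L (algebraMap O L ϖ ^ a) * y) ↔ FF O d w b y := by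
  have h1 : w ^ (-(b + N * a)) * (ec L (algebraMap O L ϖ ^ a) * y) = w ^ (-b) * y := by
    rw [map_zpow₀, ← h.pow, ← zpow_natCast w N, ← zpow_mul, ← mul_assoc, ← zpow_add₀ h.ne]
    congr 2
    ring
  rw [FF, FF, h1]

/-! ### The Gauss valuation -/

omit [Field L] [Algebra O L] [IsFractionRing O L] in
theorem map_residue_eq_zero (hϖ : Irreducible ϖ) {q : O[X]} :
    q.map (IsLocalRing.residue O) = 0 ↔ C ϖ ∣ q := by
  rw [C_dvd_iff_dvd_coeff, Polynomial.ext_iff]
  refine forall_congr' fun i => ?_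
  rw [coeff_map, coeff_zero, IsLocalRing.residue_eq_zero_iff, hϖ.maximalIdeal_eq,
    Ideal.mem_span_singleton]

theorem exists_val (hϖ : Irreducible ϖ) {q : L[X]} (hq : q ≠ 0) :
    ∃ (v : ℤ) (q0 : O[X]), q = C (algebraMap O L ϖ ^ v) * q0.map (algebraMap O L) ∧
      q0.map (IsLocalRing.residue O) ≠ 0 := by
  have hπ : algebraMap O L ϖ ≠ 0 := by
    rw [Ne, IsFractionRing.to_map_eq_zero_iff (K := L)]
    exact hϖ.ne_zero
  -- clearing denominators
  obtain ⟨c, hc⟩ := IsLocalization.integerNormalization_map_to_map (nonZeroDivisors O) q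
  set q1 := IsLocalization.integerNormalization (nonZeroDivisors O) q with hq1
  have hc0 : (c : O) ≠ 0 := nonZeroDivisors.ne_zero c.2
  have hcL : algebraMap O L (c : O) ≠ 0 := by
    rw [Ne, IsFractionRing.to_map_eq_zero_iff (K := L)]
    exact hc0
  have hq1' : q1.map (algebraMap O L) = C (algebraMap O L c) * q := by
    rw [hc, ← Polynomial.smul_eq_C_mul, algebraMap_smul]
  have hq10 : q1 ≠ 0 := by
    intro h
    rw [h, Polynomial.map_zero] at hq1'
    rcases mul_eq_zero.1 hq1'.symm with h1 | h1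
    · exact hcL (C_eq_zero.1 h1)
    · exact hq h1
  obtain ⟨n, u, hu⟩ := IsDiscreteValuationRing.eq_unit_mul_pow_irreducible hc0 hϖ
  have hirr : Irreducible (C ϖ : O[X]) := by
    have : Prime ϖ := hϖ.prime
    exact (Polynomial.prime_C_iff.2 this).irreducible
  obtain ⟨m, q2, hq2, hq2'⟩ := WfDvdMonoid.max_power_factor hq10 hirr
  refine ⟨(m : ℤ) - n, C ((u⁻¹ : Oˣ) : O) * q2, ?_, ?_⟩
  · have h1 : q = C ((algebraMap O L c)⁻¹) * q1.map (algebraMap O L) := by
      rw [hq1', ← mul_assoc, ← C_mul, inv_mul_cancel₀ hcL, C_1, one_mul]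
    have h2 : algebraMap O L ((u⁻¹ : Oˣ) : O) = (algebraMap O L (u : O))⁻¹ := by
      apply eq_inv_of_mul_eq_one_left
      rw [← map_mul, Units.inv_mul, map_one]
    rw [h1, hq2', Polynomial.map_mul, Polynomial.map_pow, map_C, Polynomial.map_mul, map_C,
      ← mul_assoc, ← mul_assoc, ← C_pow, ← C_mul, ← C_mul]
    congr 2
    rw [h2, hu, map_mul, map_pow, zpow_sub₀ hπ, zpow_natCast, zpow_natCast, mul_inv]
    ring
  · rw [Polynomial.map_mul, map_C]
    refine mul_ne_zero ?_ ?_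
    · rw [Ne, C_eq_zero]
      exact ((Units.isUnit u⁻¹).map (IsLocalRing.residue O)).ne_zero
    · rw [Ne, map_residue_eq_zero hϖ]
      exact hq2

theorem FF_iff (h : Rt ϖ N w) {q : L[X]} {v : ℤ} {q0 : O[X]}
    (hq : q = C (algebraMap O L ϖ ^ v) * q0.map (algebraMap O L))
    (h0 : q0.map (IsLocalRing.residue O) ≠ 0) {b : ℤ} :
    FF O d w b (em L (ev d q)) ↔ b ≤ N * v := by
  have h1 : em L (ev d q) = ec L (algebraMap O L ϖ ^ v) * phE O L d q0 := by
    rw [hq, map_mul, map_mul, ← ec_eq_ev, phE_apply]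
  constructor
  · intro hb
    by_contra hcon
    push Not at hcon
    have h2 : FF O d w (1 + N * v) (em L (ev d q)) := FF_mono h (by omega) hb
    rw [h1, FF_pi_mul h] at h2
    have h3 : (w ^ (-1 : ℤ) * phE O L d q0) ^ N ∈ SS (phE O L d) := pow_mem h2 N
    have h4 : (w ^ (-1 : ℤ) * phE O L d q0) ^ N =
        em L (ev d (C (algebraMap O L ϖ)⁻¹ * (q0 ^ N).map (algebraMap O L))) := by
      rw [mul_pow, ← map_pow, map_mul, map_mul, ← ec_eq_ev, phE_apply, zpow_neg_one, inv_pow,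
        h.pow, map_inv₀]
    rw [h4] at h3
    obtain ⟨q', hq'⟩ := SS_poly O h3
    have h5 : (q0 ^ N).map (algebraMap O L) = (C ϖ * q').map (algebraMap O L) := by
      rw [Polynomial.map_mul, ← hq', map_C, ← mul_assoc, ← C_mul, mul_inv_cancel₀ h.pi_ne, C_1,
        one_mul]
    have h6 : q0 ^ N = C ϖ * q' :=
      Polynomial.map_injective _ (IsFractionRing.injective O L) h5
    have h7 : (q0 ^ N).map (IsLocalRing.residue O) = 0 := by
      rw [map_residue_eq_zero h.irr]
      exact ⟨q', h6⟩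
    rw [Polynomial.map_pow] at h7
    exact h0 (pow_eq_zero_iff h.pos.ne' |>.1 h7)
  · intro hb
    refine FF_mono h hb ?_
    have h2 := (FF_pi_mul (d := d) h v (b := 0) (y := phE O L d q0)).2 (FF_O q0)
    rw [zero_add] at h2
    rw [h1]
    exact h2

/-- The valuation takes values divisible by `N`. -/
theorem FF_succ (h : Rt ϖ N w) (q : L[X]) {b : ℤ} (hb : ¬ (N : ℤ) ∣ b)
    (hq : FF O d w b (em L (ev d q))) : FF O d w (b + 1) (em L (ev d q)) := by
  by_cases h0 : q = 0
  · rw [h0, map_zero, map_zero]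
    exact FF_zero
  · obtain ⟨v, q0, h1, h2⟩ := exists_val (L := L) h.irr h0
    rw [FF_iff h h1 h2] at hq ⊢
    have h3 : b ≠ N * v := by
      rintro rfl
      exact hb (dvd_mul_right _ _)
    omega

theorem FF_mul_succ (h : Rt ϖ N w) (q : L[X]) {b : ℤ} {k : ℕ} (hk : 0 < k) (hkN : k ∣ N)
    (hq : FF O d w (k * b + 1) (em L (ev d q))) : FF O d w (k * (b + 1)) (em L (ev d q)) := by
  by_cases h0 : q = 0
  · rw [h0, map_zero, map_zero]
    exact FF_zero
  · obtain ⟨v, q0, h1, h2⟩ := exists_val (L := L) h.irr h0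
    rw [FF_iff h h1 h2] at hq ⊢
    obtain ⟨N', hN'⟩ := hkN
    rw [hN'] at hq ⊢
    push_cast at hq ⊢
    have hk' : (0 : ℤ) < k := by exact_mod_cast hk
    have h3 : (k : ℤ) * b < k * (N' * v) := by
      rw [← mul_assoc]
      omega
    have h4 : b < N' * v := lt_of_mul_lt_mul_left h3 hk'.le
    have h5 : b + 1 ≤ N' * v := h4
    calc (k : ℤ) * (b + 1) ≤ k * (N' * v) := mul_le_mul_of_nonneg_left h5 hk'.le
      _ = k * N' * v := by ring

/-- Gauss's lemma for a factor with coefficients in `O` which does not vanish modulo `ϖ`. -/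
theorem FF_gauss (h : Rt ϖ N w) (Ψ : O[X]) (hΨ : Ψ.map (IsLocalRing.residue O) ≠ 0) (q : L[X])
    {b : ℤ} (hq : FF O d w b (phE O L d Ψ * em L (ev d q))) : FF O d w b (em L (ev d q)) := by
  by_cases h0 : q = 0
  · rw [h0, map_zero, map_zero]
    exact FF_zero
  · obtain ⟨v, q0, h1, h2⟩ := exists_val (L := L) h.irr h0
    have h3 : Ψ.map (algebraMap O L) * q =
        C (algebraMap O L ϖ ^ v) * (Ψ * q0).map (algebraMap O L) := by
      rw [h1, Polynomial.map_mul]
      ring
    have h4 : (Ψ * q0).map (IsLocalRing.residue O) ≠ 0 := by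
      rw [Polynomial.map_mul]
      exact mul_ne_zero hΨ h2
    have h5 : phE O L d Ψ * em L (ev d q) = em L (ev d (Ψ.map (algebraMap O L) * q)) := by
      rw [map_mul, map_mul, phE_apply]
    rw [h5, FF_iff h h3 h4] at hq
    rw [FF_iff h h1 h2]
    exact hq

theorem FF_coeff (h : Rt ϖ N w) (q : L[X]) {b : ℤ} (hq : FF O d w b (em L (ev d q))) (k : ℕ) :
    FF O d w b (ec L (q.coeff k)) := by
  by_cases h0 : q = 0
  · rw [h0, coeff_zero, map_zero]
    exact FF_zero
  · obtain ⟨v, q0, h1, h2⟩ := exists_val (L := L) h.irr h0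
    rw [FF_iff h h1 h2] at hq
    refine FF_mono h hq ?_
    have h3 := (FF_pi_mul (d := d) h v (b := 0) (y := phE O L d (C (q0.coeff k)))).2 (FF_O _)
    rw [zero_add] at h3
    have h4 : ec L (q.coeff k) = ec L (algebraMap O L ϖ ^ v) * phE O L d (C (q0.coeff k)) := by
      rw [h1, coeff_C_mul, coeff_map, map_mul, phE_apply, map_C, ← ec_eq_ev]
    rw [h4]
    exact h3

/-- A polynomial with coefficients in `O` which vanishes modulo `ϖ`. -/
theorem FF_of_residue (h : Rt ϖ N w) (q : O[X]) (hq : q.map (IsLocalRing.residue O) = 0) :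
    FF O d w N (phE O L d q) := by
  obtain ⟨q', rfl⟩ := (map_residue_eq_zero h.irr).1 hq
  have h1 := (FF_pi_mul (d := d) h 1 (b := 0) (y := phE O L d q')).2 (FF_O _)
  rw [zero_add, mul_one, zpow_one] at h1
  have h2 : phE O L d (C ϖ * q') = ec L (algebraMap O L ϖ) * phE O L d q' := by
    rw [map_mul, phE_apply, map_C, ← ec_eq_ev]
  rw [h2]
  exact h1

/-- An element of `L` in terms of the valuation. -/
theorem FF_ec_iff (h : Rt ϖ N w) {l : L} {v : ℤ} {c : O}
    (hl : l = algebraMap O L ϖ ^ v * algebraMap O L c) (hc : IsUnit c) {b : ℤ} :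
    FF O d w b (ec L l) ↔ b ≤ N * v := by
  rw [ec_eq_ev d]
  refine FF_iff h (q0 := C c) ?_ ?_
  · rw [hl, map_C, C_mul]
  · rw [map_C, Ne, C_eq_zero]
    exact (hc.map (IsLocalRing.residue O)).ne_zero

theorem exists_val_L (hϖ : Irreducible ϖ) {l : L} (hl : l ≠ 0) :
    ∃ (v : ℤ) (c : O), IsUnit c ∧ l = algebraMap O L ϖ ^ v * algebraMap O L c := by
  obtain ⟨v, q0, h1, h2⟩ := exists_val (O := O) (L := L) hϖ (q := C l) (C_ne_zero.2 hl)
  have h3 : q0.map (algebraMap O L) = C (algebraMap O L (q0.coeff 0)) := by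
    have hπ : algebraMap O L ϖ ≠ 0 := by
      rw [Ne, IsFractionRing.to_map_eq_zero_iff (K := L)]
      exact hϖ.ne_zero
    have h4 : q0.map (algebraMap O L) = C ((algebraMap O L ϖ ^ v)⁻¹ * l) := by
      rw [C_mul, h1, ← mul_assoc, ← C_mul, inv_mul_cancel₀ (zpow_ne_zero _ hπ), C_1, one_mul]
    have h5 : (q0.map (algebraMap O L)).coeff 0 = (algebraMap O L ϖ ^ v)⁻¹ * l := by
      rw [h4, coeff_C_zero]
    rw [coeff_map] at h5
    rw [h4, h5]
  have h4 : q0 = C (q0.coeff 0) := by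
    apply Polynomial.map_injective _ (IsFractionRing.injective O L)
    rw [h3, map_C]
  refine ⟨v, q0.coeff 0, ?_, ?_⟩
  · rw [h4, map_C, Ne, C_eq_zero, IsLocalRing.residue_eq_zero_iff, IsLocalRing.mem_maximalIdeal,
      mem_nonunits_iff, not_not] at h2
    exact h2
  · rw [h3, ← C_mul] at h1
    exact C_injective h1

end

end Pool.Agent.MG.G0.ZL


end

section

/-!
# Newton's identities for the characteristic polynomial
-/

namespace Pool.Agent.MG.G0.ZL

open Polynomial

section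

variable {R : Type} [CommRing R] {n : Type} [Fintype n] [DecidableEq n]

theorem derivative_det (N : Matrix n n R[X]) :
    derivative N.det = ∑ i, (N.updateCol i fun k => derivative (N k i)).det := by
  classical
  simp only [Matrix.det_apply, derivative_sum]
  rw [Finset.sum_comm]
  refine Finset.sum_congr rfl fun σ _ => ?_
  have h1 : derivative (Equiv.Perm.sign σ • ∏ i, N (σ i) i) =
      Equiv.Perm.sign σ • derivative (∏ i, N (σ i) i) := by
    rcases Int.units_eq_one_or (Equiv.Perm.sign σ) with h | h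
    · rw [h, one_smul, one_smul]
    · rw [h, Units.neg_smul, one_smul, Units.neg_smul, one_smul, derivative_neg]
  rw [h1, derivative_prod_finset, Finset.smul_sum]
  refine Finset.sum_congr rfl fun i _ => ?_
  congr 1
  rw [← Finset.mul_prod_erase Finset.univ _ (Finset.mem_univ i), Matrix.updateCol_self, mul_comm]
  congr 1
  refine Finset.prod_congr rfl fun j hj => ?_
  rw [Matrix.updateCol_ne (Finset.ne_of_mem_erase hj)]

theorem derivative_charpoly (M : Matrix n n R) :
    derivative M.charpoly = (Matrix.charmatrix M).adjugate.trace := by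
  rw [Matrix.charpoly, derivative_det, Matrix.trace]
  refine Finset.sum_congr rfl fun i _ => ?_
  rw [Matrix.diag_apply]
  have h1 : (fun k => derivative (Matrix.charmatrix M k i)) = Pi.single i 1 := by
    funext k
    by_cases h : k = i
    · subst h
      rw [Matrix.charmatrix_apply_eq, Pi.single_eq_same]
      simp
    · rw [Matrix.charmatrix_apply_ne _ _ _ h, Pi.single_eq_of_ne h]
      simp
  rw [h1]
  have h2 : (Matrix.charmatrix M).adjugate i i =
      ((Matrix.charmatrix M).transpose.adjugate.transpose) i i := by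
    rw [← Matrix.adjugate_transpose, Matrix.transpose_transpose]
  rw [h2, Matrix.transpose_apply, Matrix.adjugate_def, Matrix.of_apply,
    Matrix.transpose_transpose, Matrix.cramer_apply]

/-- Newton's identities. -/
theorem newton (M : Matrix n n R) (l : ℕ) :
    ∑ i ∈ Finset.Icc l (Fintype.card n), M.charpoly.coeff i * (M ^ (i - l)).trace =
      (l : R) * M.charpoly.coeff l := by
  classical
  nontriviality R
  set χ := M.charpoly with hχ
  have hdeg : χ.natDegree = Fintype.card n := Matrix.charpoly_natDegree_eq_dim M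
  have hzero : ∀ i, Fintype.card n < i → χ.coeff i = 0 := fun i hi =>
    coeff_eq_zero_of_natDegree_lt (by rw [hdeg]; exact hi)
  rcases Nat.eq_zero_or_pos l with hl | hl
  · subst hl
    have h1 := Matrix.aeval_self_charpoly M
    have h2 := congrArg Matrix.trace h1
    rw [← hχ, aeval_eq_sum_range, hdeg, Matrix.trace_sum, Matrix.trace_zero] at h2
    rw [Nat.cast_zero, zero_mul, ← h2, Finset.range_eq_Ico]
    refine Finset.sum_congr ?_ fun i _ => ?_
    · ext i
      simp only [Finset.mem_Icc, Finset.mem_Ico]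
      omega
    · rw [Matrix.trace_smul, smul_eq_mul, Nat.sub_zero]
  · let Bm : ℕ → Matrix n n R := fun j =>
      Matrix.of fun a c => ((Matrix.charmatrix M).adjugate a c).coeff j
    have hB : ∀ j, Bm j = M * Bm (j + 1) + χ.coeff (j + 1) • (1 : Matrix n n R) := by
      intro j
      ext1 a c
      have h1 := congrFun (congrFun (Matrix.mul_adjugate (Matrix.charmatrix M)) a) c
      rw [Matrix.mul_apply] at h1
      have h2 := congrArg (fun p : R[X] => p.coeff (j + 1)) h1
      simp only [finsetSum_coeff] at h2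
      have h3 : ∀ b, ((Matrix.charmatrix M) a b * (Matrix.charmatrix M).adjugate b c).coeff
          (j + 1) = (if b = a then Bm j a c else 0) - M a b * Bm (j + 1) b c := by
        intro b
        by_cases hb : b = a
        · subst hb
          rw [Matrix.charmatrix_apply_eq, sub_mul, coeff_sub, coeff_X_mul, coeff_C_mul,
            if_pos rfl]
          rfl
        · rw [Matrix.charmatrix_apply_ne _ _ _ (Ne.symm hb), neg_mul, coeff_neg, coeff_C_mul,
            if_neg hb, zero_sub]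
          rfl
      rw [Finset.sum_congr rfl fun b _ => h3 b, Finset.sum_sub_distrib, Finset.sum_ite_eq',
        if_pos (Finset.mem_univ a)] at h2
      rw [Matrix.add_apply, Matrix.mul_apply, sub_eq_iff_eq_add.1 h2, add_comm]
      congr 1
      rw [Matrix.smul_apply, Matrix.smul_apply, Matrix.one_apply, Matrix.one_apply,
        smul_eq_mul, smul_eq_mul]
      by_cases hac : a = c
      · rw [if_pos hac, if_pos hac, mul_one, mul_one]
        rfl
      · rw [if_neg hac, if_neg hac, mul_zero, mul_zero, coeff_zero]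
    -- the coefficients vanish for large `j`
    obtain ⟨J, hJ⟩ : ∃ J : ℕ, ∀ j, J ≤ j → Bm j = 0 := by
      refine ⟨(Finset.univ.sup fun a => Finset.univ.sup fun c =>
        ((Matrix.charmatrix M).adjugate a c).natDegree) + 1, fun j hj => ?_⟩
      ext1 a c
      show ((Matrix.charmatrix M).adjugate a c).coeff j = 0
      apply coeff_eq_zero_of_natDegree_lt
      have h1 : ((Matrix.charmatrix M).adjugate a c).natDegree ≤
          Finset.univ.sup fun c => ((Matrix.charmatrix M).adjugate a c).natDegree :=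
        Finset.le_sup (f := fun c => ((Matrix.charmatrix M).adjugate a c).natDegree)
          (Finset.mem_univ c)
      have h2 : (Finset.univ.sup fun c => ((Matrix.charmatrix M).adjugate a c).natDegree) ≤
          Finset.univ.sup fun a => Finset.univ.sup fun c =>
            ((Matrix.charmatrix M).adjugate a c).natDegree :=
        Finset.le_sup (f := fun a => Finset.univ.sup fun c =>
          ((Matrix.charmatrix M).adjugate a c).natDegree) (Finset.mem_univ a)
      omega
    have hsum : ∀ m j, J ≤ j + m → Bm j =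
        ∑ i ∈ Finset.range m, χ.coeff (j + 1 + i) • M ^ i := by
      intro m
      induction m with
      | zero =>
        intro j hj
        rw [hJ j hj, Finset.range_zero, Finset.sum_empty]
      | succ m ih =>
        intro j hj
        rw [hB j, ih (j + 1) (by omega), Finset.sum_range_succ', add_zero, pow_zero,
          Matrix.mul_sum]
        congr 1
        refine Finset.sum_congr rfl fun i _ => ?_
        rw [Matrix.mul_smul, ← pow_succ']
        congr 2
        omega
    obtain ⟨j, rfl⟩ : ∃ j, l = j + 1 := ⟨l - 1, by omega⟩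
    have h1 : (derivative χ).coeff j = (Bm j).trace := by
      rw [hχ, derivative_charpoly, Matrix.trace, finsetSum_coeff]
      rfl
    rw [coeff_derivative] at h1
    have h2 : (Bm j).trace = ∑ i ∈ Finset.range (J + Fintype.card n),
        χ.coeff (j + 1 + i) * (M ^ i).trace := by
      rw [hsum (J + Fintype.card n) j (by omega), Matrix.trace_sum]
      refine Finset.sum_congr rfl fun i _ => ?_
      rw [Matrix.trace_smul, smul_eq_mul]
    push_cast
    rw [mul_comm, h1, h2]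
    have h3 : ∑ i ∈ Finset.range (J + Fintype.card n), χ.coeff (j + 1 + i) * (M ^ i).trace =
        ∑ i ∈ Finset.Ico (j + 1) (j + 1 + (J + Fintype.card n)),
          χ.coeff i * (M ^ (i - (j + 1))).trace := by
      rw [Finset.sum_Ico_eq_sum_range, Nat.add_sub_cancel_left]
      refine Finset.sum_congr rfl fun i _ => ?_
      rw [Nat.add_sub_cancel_left]
    rw [h3]
    refine Finset.sum_subset ?_ ?_
    · intro i hi
      simp only [Finset.mem_Icc, Finset.mem_Ico] at hi ⊢
      omega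
    · intro i hi hi'
      simp only [Finset.mem_Icc, Finset.mem_Ico] at hi hi'
      rw [hzero i (by omega), zero_mul]

end

end Pool.Agent.MG.G0.ZL


end
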