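import Pool.Agent.KDM.C27

/-!
# The form of the final theorem: the ring `R_{g,n}` at a generic curve

`M̄_{g,n}` is irreducible and smooth, so a regular function on `T^*M̄_{g,n}` is determined by its
values at the covectors of a generic curve. `Img g x hx` is the ring of these restrictions.
-/

open CategoryTheory AlgebraicGeometry

namespace Pool.Agent.MG.Std

section Gen

variable {K : Type} [Field K] [Algebra ℂ K]

/-- The homomorphism `a ↦ a + D(a) ε` of a derivation `D` of `K` over `ℂ`. -/
def epsDer (D : Derivation ℂ K K) : K →+* Eps K where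
  toFun a := TrivSqZeroExt.inl a + TrivSqZeroExt.inr (D a)
  map_one' := by ext <;> simp
  map_mul' a b := by ext <;> simp [mul_comm, add_comm]
  map_zero' := by ext <;> simp
  map_add' a b := by ext <;> simp

variable {n : ℕ}

/-- The curve `x` over `K` is generic: the Kodaira–Spencer map of `x` is surjective, that is, every
first order deformation of `x` is isomorphic to the base change of `x` by `a ↦ a + D(a) ε` for a
derivation `D` of `K` over `ℂ`. This means that `Spec K → M̄_{g,n}` is a generic point. -/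
def Generic (g : ℕ) (x : Fam n K) : Prop :=
  ∀ d : Defo g x, ∃ (D : Derivation ℂ K K) (f : Arrow (epsDer D) d.y x), d.r.f ≫ f.f = 𝟙 x.X

end Gen

section Ring

variable {g n : ℕ}

/-- Constant functions. -/
def Reg.const (c : ℂ) : Reg g n where
  F A _ _ _ _ _ := algebraMap ℂ A c
  nat _ _ _ _ _ _ φ _ _ _ _ _ _ _ _ := (φ.commutes c).symm

/-- The sum of two regular functions. -/
def Reg.plus (F G : Reg g n) : Reg g n where
  F A _ _ x hx l := F.F A x hx l + G.F A x hx l
  nat A B _ _ _ _ φ x y hx hy a l l' h := by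
    rw [map_add, F.nat A B φ x y hx hy a l l' h, G.nat A B φ x y hx hy a l l' h]

/-- The product of two regular functions. -/
def Reg.times (F G : Reg g n) : Reg g n where
  F A _ _ x hx l := F.F A x hx l * G.F A x hx l
  nat A B _ _ _ _ φ x y hx hy a l l' h := by
    rw [map_mul, F.nat A B φ x y hx hy a l l' h, G.nat A B φ x y hx hy a l l' h]

/-- The ring of the functions `l ↦ F(x, l)` on the covectors at `x`, for the regular functions `F`
on `T^*M̄_{g,n}`. -/
def Img {K : Type} [Field K] [Algebra ℂ K] (g : ℕ) (x : Fam n K) (hx : IsStable g x) :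
    Subalgebra ℂ (Cov g x → K) where
  carrier := {φ | ∃ F : Reg g n, ∀ l, φ l = F.F K x hx l}
  mul_mem' := by
    rintro _ _ ⟨F, hF⟩ ⟨G, hG⟩
    exact ⟨F.times G, fun l => by rw [Pi.mul_apply, hF, hG]; rfl⟩
  add_mem' := by
    rintro _ _ ⟨F, hF⟩ ⟨G, hG⟩
    exact ⟨F.plus G, fun l => by rw [Pi.add_apply, hF, hG]; rfl⟩
  algebraMap_mem' c := ⟨Reg.const c, fun _ => rfl⟩

theorem Img.eq_bot {K : Type} [Field K] [Algebra ℂ K] (x : Fam n K) (hx : IsStable g x)
    (h : ∀ F : Reg g n, ∃ c : ℂ, ∀ l, F.F K x hx l = algebraMap ℂ K c) : Img g x hx = ⊥ := by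
  refine eq_bot_iff.2 ?_
  rintro φ ⟨F, hF⟩
  obtain ⟨c, hc⟩ := h F
  exact Algebra.mem_bot.2 ⟨c, funext fun l => by rw [hF, hc]; rfl⟩

/-- If every regular function is constant on the covectors at `x`, with value in `ℂ`, then the
Krull dimension is zero. -/
theorem Img.krull_zero {K : Type} [Field K] [Algebra ℂ K] (x : Fam n K) (hx : IsStable g x)
    (h : ∀ F : Reg g n, ∃ c : ℂ, ∀ l, F.F K x hx l = algebraMap ℂ K c) :
    ringKrullDim (Img g x hx) = 0 := by
  rw [Img.eq_bot x hx h]
  have : Nonempty (Cov g x) := ⟨0⟩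
  have hinj : Function.Injective (algebraMap ℂ (Cov g x → K)) :=
    FaithfulSMul.algebraMap_injective ℂ _
  rw [ringKrullDim_eq_of_ringEquiv (Algebra.botEquivOfInjective hinj).toRingEquiv]
  exact ringKrullDim_eq_zero_of_field ℂ

end Ring

/-- The data at one pair `(g, n)`: a generic curve, and the Krull dimension of the ring of the
restrictions of the regular functions is `d`. -/
def Answer (g n : ℕ) (d : WithBot ℕ∞) : Prop :=
  ∃ (K : Type) (_ : Field K) (_ : IsAlgClosed K) (_ : Algebra ℂ K) (x : Fam n K)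
    (hx : IsStable g x), Smooth x.π ∧ Generic g x ∧ ringKrullDim (Img g x hx) = d

/-- The hypothesis (V), (H0), (GEN) at `(g, n)`: there is a generic curve at which every regular
function is constant, with value in `ℂ`. -/
def Rigid (g n : ℕ) : Prop :=
  ∃ (K : Type) (_ : Field K) (_ : IsAlgClosed K) (_ : Algebra ℂ K) (x : Fam n K)
    (hx : IsStable g x), Smooth x.π ∧ Generic g x ∧
      ∀ F : Reg g n, ∃ c : ℂ, ∀ l, F.F K x hx l = algebraMap ℂ K c

theorem Rigid.answer {g n : ℕ} (h : Rigid g n) : Answer g n 0 := by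
  obtain ⟨K, i1, i2, i3, x, hx, hs, hG, h⟩ := h
  exact ⟨K, i1, i2, i3, x, hx, hs, hG, Img.krull_zero x hx h⟩

end Pool.Agent.MG.Std
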