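import Mathlib
import Pool.Agent.KDM.C04
import Pool.Agent.KDM.C06
import Pool.Agent.KDM.C08
import Pool.Agent.KDM.Fin

/-! Parts: MG.KX.DBC, MG.KX.DefsM, MG.KX.StmtsM, MG.KX.StmtsE, MG.KX.StmtsC, MG.KX.KCN, MG.KX.KCE, MG.KX.MCA, MG.KX.MOC, MG.KX.MRX, MG.KX.MXT -/

section

/-!
# DBC: base change of schemes with two affine charts
-/

open CategoryTheory CategoryTheory.Limits AlgebraicGeometry TensorProduct

namespace Pool.Agent.MG.KX

namespace DBC

/-- The range of a localisation. -/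
theorem range_of {R S : Type} [CommRing R] [CommRing S] (j : R →+* S) (z : R)
    (h1 : IsUnit (j z)) (h2 : ∀ r, j r = 0 → ∃ n : ℕ, z ^ n * r = 0)
    (h3 : ∀ s, ∃ (n : ℕ) (r : R), j z ^ n * s = j r) (x : Sp R) :
    x ∈ Set.range (spMap j) ↔ z ∉ x.asIdeal := by
  let _ := j.toAlgebra
  have h4 := away_of j z h1 h2 h3
  have h : Set.range (PrimeSpectrum.comap (algebraMap R S)) =
      (PrimeSpectrum.basicOpen z : Set _) :=
    PrimeSpectrum.localization_away_comap_range S z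
  change x ∈ Set.range (PrimeSpectrum.comap (algebraMap R S)) ↔ _
  rw [h]
  rfl

variable {A : Type} [CommRing A] (D : Duo A)

theorem range1 (x : Sp D.R1) :
    x ∈ Set.range (spMap (D.j1 : D.R1 →+* D.R12)) ↔ D.z ∉ x.asIdeal :=
  range_of _ D.z D.unit1 D.ker1 D.sur1 x

theorem range2 (x : Sp D.R2) :
    x ∈ Set.range (spMap (D.j2 : D.R2 →+* D.R12)) ↔ D.w ∉ x.asIdeal :=
  range_of _ D.w D.unit2 D.ker2 D.sur2 x

end DBC

theorem t_DBC : Stmt_DBC := by
  intro A B _ _ φ D E h s1 s2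
  refine cart_two h.in1_map h.in2_map D.cov E.cov ?_ ?_ ?_ ?_ h.map_pr
  · rintro y ⟨x, hx⟩
    obtain ⟨p, -, hp⟩ := D.meet x _ hx
    have h1 := (DBC.range2 D _).1 ⟨p, hp⟩
    have h2 : E.w ∉ y.asIdeal := by
      intro h3
      apply h1
      change h.f2 D.w ∈ y.asIdeal
      rwa [h.fw]
    obtain ⟨p', hp'⟩ := (DBC.range2 E y).2 h2
    refine ⟨spMap (E.j1 : E.R1 →+* E.R12) p', ?_⟩
    rw [← hp', ← Scheme.Hom.comp_apply, ← Scheme.Hom.comp_apply, E.cond]
  · rintro x ⟨y, hy⟩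
    obtain ⟨p, hp, -⟩ := D.meet _ y hy.symm
    have h1 := (DBC.range1 D _).1 ⟨p, hp⟩
    have h2 : E.z ∉ x.asIdeal := by
      intro h3
      apply h1
      change h.f1 D.z ∈ x.asIdeal
      rwa [h.fz]
    obtain ⟨p', hp'⟩ := (DBC.range1 E x).2 h2
    refine ⟨spMap (E.j2 : E.R2 →+* E.R12) p', ?_⟩
    rw [← hp', ← Scheme.Hom.comp_apply, ← Scheme.Hom.comp_apply, E.cond]
  · rw [D.in1_pr, E.in1_pr]
    exact s1
  · rw [D.in2_pr, E.in2_pr]
    exact s2

end Pool.Agent.MG.KX


end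

section

/-!
# Krichever models, deformations

`Mod x P p`: the family `x` with marked points is the curve of the Krichever ring `P` with the marked
points `p`: `j` identifies `Spec P` with the complement of the punctures, `sh` is the formal
neighbourhood of the punctures. `Pdel P δ`: the deformation over `A[ε]` with class `δ`.
-/

open CategoryTheory CategoryTheory.Limits AlgebraicGeometry
open scoped TensorProduct

namespace Pool.Agent.MG.KX

open Pool.Agent.MG.G0 Pool.Agent.MG.GLU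

section

variable {I J : Type} {A B : Type} [CommRing A] [CommRing B]

/-! ## Families of power series -/

/-- `∏ A[[τ]] → ∏ A((τ))`. -/
noncomputable def psI (I A : Type) [CommRing A] : (I → PowerSeries A) →+* KK I A :=
  RingHom.pi fun i => (psl A).comp (Pi.evalRingHom _ i)

@[simp] theorem psI_apply (f : I → PowerSeries A) (i : I) : psI I A f i = psl A (f i) := rfl

/-- `∏ A[[τ]] → ∏ A`. -/
noncomputable def ccI (I A : Type) [CommRing A] : (I → PowerSeries A) →+* (I → A) :=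
  RingHom.pi fun i => (PowerSeries.constantCoeff (R := A)).comp (Pi.evalRingHom _ i)

@[simp] theorem ccI_apply (f : I → PowerSeries A) (i : I) :
    ccI I A f i = PowerSeries.constantCoeff (f i) := rfl

/-- The coefficientwise map. -/
noncomputable def psm (I : Type) (φ : A →+* B) : (I → PowerSeries A) →+* (I → PowerSeries B) :=
  RingHom.pi fun i => (PowerSeries.map φ).comp (Pi.evalRingHom _ i)

@[simp] theorem psm_apply (φ : A →+* B) (f : I → PowerSeries A) (i : I) :
    psm I φ f i = PowerSeries.map φ (f i) := rfl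

/-- Composition with a map of index sets. -/
noncomputable def idx {R : Type} [CommRing R] {I I' : Type} (e : I' → I) : (I → R) →+* (I' → R) :=
  RingHom.pi fun i => Pi.evalRingHom _ (e i)

@[simp] theorem idx_apply {R : Type} [CommRing R] {I I' : Type} (e : I' → I) (f : I → R) (i : I') :
    idx e f i = f (e i) := rfl

/-- The expansions at the punctures of the elements of the second chart. -/
noncomputable def rshI {P : Subalgebra A (KK I A)} (z : P) : Rw P z →+* (I → PowerSeries A) :=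
  RingHom.pi fun i => rsh z i

@[simp] theorem rshI_apply {P : Subalgebra A (KK I A)} (z : P) (f : Rw P z) (i : I) :
    rshI z f i = rsh z i f := rfl

/-- The formal neighbourhood of the punctures. -/
noncomputable def xshI [Finite I] {P : Subalgebra A (KK I A)} (z : Pole P) {n : ℕ}
    (p : Fin n → (P →ₐ[A] A)) : Sp (I → PowerSeries A) ⟶ (xfam z p).X :=
  spMap (rshI z.z) ≫ xin2 z p

/-- The homomorphism `P → P'` induced by a homomorphism `F` of Laurent series. -/
noncomputable def rres {I' : Type} (F : KK I A →+* KK I' B) {P : Subalgebra A (KK I A)}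
    {P' : Subalgebra B (KK I' B)} (h : ∀ f ∈ P, F f ∈ P') : P →+* P' where
  toFun f := ⟨F f, h f f.2⟩
  map_one' := Subtype.ext (map_one F)
  map_zero' := Subtype.ext (map_zero F)
  map_add' f g := Subtype.ext (map_add F (f : KK I A) g)
  map_mul' f g := Subtype.ext (map_mul F (f : KK I A) g)

@[simp] theorem rres_val {I' : Type} (F : KK I A →+* KK I' B) {P : Subalgebra A (KK I A)}
    {P' : Subalgebra B (KK I' B)} (h : ∀ f ∈ P, F f ∈ P') (f : P) :
    (rres F h f : KK I' B) = F f := rfl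

/-! ## Models -/

/-- `x` is a Krichever model of `P` with the marked points `p`: `j` identifies `Spec P` with the
complement of the punctures, `sh` is the formal neighbourhood of the punctures, with the
coordinates. -/
structure Mod {n : ℕ} (x : Fam n A) (P : Subalgebra A (KK I A)) (p : Fin n → (P →ₐ[A] A)) where
  /-- the complement of the punctures -/
  j : Sp P ⟶ x.X
  jo : IsOpenImmersion j
  jp : j ≫ x.π = spMap (algebraMap A P)
  /-- the formal neighbourhood of the punctures -/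
  sh : Sp (I → PowerSeries A) ⟶ x.X
  shp : sh ≫ x.π = spMap (algebraMap A (I → PowerSeries A))
  cmp : spMap (psI I A) ≫ sh = spMap (P.val : P →+* KK I A) ≫ j
  cov : ∀ q : x.X, q ∈ Set.range j ∨ q ∈ Set.range (spMap (ccI I A) ≫ sh)
  exc : ∀ q : x.X, q ∈ Set.range j → q ∉ Set.range (spMap (ccI I A) ≫ sh)
  mrk : ∀ i, x.σ i = spMap (p i : P →+* A) ≫ j
  loc : ∃ (V : x.X.Opens) (t : Γ(x.X, V)) (le : ⊤ ≤ sh ⁻¹ᵁ V), IsAffineOpen V ∧
    (x.X.basicOpen t : Set x.X) = Set.range j ∩ V ∧ (∀ v, t * v = 0 → v = 0) ∧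
    (∃ u : I → PowerSeries A, IsUnit u ∧ gm sh V le t = (fun _ => PowerSeries.X) * u) ∧
    (∀ v, ccI I A (gm sh V le v) = 0 → ∃ r, v = t * r) ∧
    ∀ c : I → A, ∃ v, ccI I A (gm sh V le v) = c

/-- The model `M'` of `y` is the base change of the model `M` of `x` along an arrow `y → x` over
`φ`. -/
structure Mod.Over {φ : A →+* B} {n : ℕ} {y : Fam n B} {x : Fam n A} (a : Arrow φ y x)
    {P : Subalgebra A (KK I A)} {p : Fin n → (P →ₐ[A] A)} {P' : Subalgebra B (KK I B)}
    {p' : Fin n → (P' →ₐ[B] B)} (M : Mod x P p) (M' : Mod y P' p') : Prop where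
  mem : ∀ f ∈ P, kmap φ f ∈ P'
  j : M'.j ≫ a.f = spMap (rres (kmap φ) mem) ≫ M.j
  sh : M'.sh ≫ a.f = spMap (psm I φ) ≫ M.sh

/-- The canonical model of the curve of a Krichever ring. -/
structure Mod.Can [Finite I] {P : Subalgebra A (KK I A)} (z : Pole P) {n : ℕ}
    {p : Fin n → (P →ₐ[A] A)} (M : Mod (xfam z p) P p) : Prop where
  j : M.j = xin z p
  sh : M.sh = xshI z p

/-- The model with other coordinates: `α` is an automorphism which respects the pole orders. -/
structure Mod.IsAut (α : KK I A ≃ₐ[A] KK I A) {n : ℕ} {x : Fam n A} {P : Subalgebra A (KK I A)}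
    {p : Fin n → (P →ₐ[A] A)} {p' : Fin n → (P.map (α : KK I A →ₐ[A] KK I A) →ₐ[A] A)}
    (M : Mod x P p) (M' : Mod x (P.map (α : KK I A →ₐ[A] KK I A)) p') : Prop where
  j : M'.j = spMap (rres (α : KK I A →+* KK I A) (P' := P.map (α : KK I A →ₐ[A] KK I A))
    fun f hf => ⟨f, hf, rfl⟩) ≫ M.j
  sh : ∃ ρ : (I → PowerSeries A) →+* (I → PowerSeries A), (∀ f, psI I A (ρ f) = α (psI I A f)) ∧
    M'.sh = spMap ρ ≫ M.sh

theorem idx_mem_reix {I' : Type} (e : I' ≃ I) {P : Subalgebra A (KK I A)} {f : KK I A}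
    (hf : f ∈ P) : idx e f ∈ reix e P := by
  change (fun i => f (e (e.symm i))) ∈ P
  simpa only [Equiv.apply_symm_apply] using hf

/-- The model with another index set. -/
structure Mod.IsReix {I' : Type} (e : I' ≃ I) {n : ℕ} {x : Fam n A} {P : Subalgebra A (KK I A)}
    {p : Fin n → (P →ₐ[A] A)} {p' : Fin n → (reix e P →ₐ[A] A)} (M : Mod x P p)
    (M' : Mod x (reix e P) p') : Prop where
  j : M'.j = spMap (rres (idx e) (P' := reix e P) fun _ hf => idx_mem_reix e hf) ≫ M.j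
  sh : M'.sh = spMap (idx e) ≫ M.sh

/-- The model `M` of `W` (punctures `I` and `J`) and the model `M'` of `P` (punctures `I`) of the
same curve are compatible. -/
structure Mod.Fgt {n : ℕ} {x : Fam n A} {W : Subalgebra A (KK (I ⊕ J) A)}
    {q : Fin n → (W →ₐ[A] A)} {P : Subalgebra A (KK I A)} {p : Fin n → (P →ₐ[A] A)}
    (M : Mod x W q) (M' : Mod x P p) : Prop where
  sh : M'.sh = spMap (idx Sum.inl) ≫ M.sh
  j : ∃ ρ : P →+* W, (∀ (f : P) (i : I), (ρ f : KK (I ⊕ J) A) (Sum.inl i) = (f : KK I A) i) ∧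
    (∀ (f : P) (k : J), ∀ m < 0, ((ρ f : KK (I ⊕ J) A) (Sum.inr k)).coeff m = 0) ∧
    M.j = spMap ρ ≫ M'.j

/-! ## First order deformations -/

/-- The coefficients of `ε`. -/
noncomputable def lsnd (f : LaurentSeries (Eps A)) : LaurentSeries A :=
  f.map ((TrivSqZeroExt.sndHom A A : Eps A →ₗ[A] A) : Eps A →+ A)

@[simp] theorem lsnd_coeff (f : LaurentSeries (Eps A)) (n : ℤ) :
    (lsnd f).coeff n = (f.coeff n).snd := rfl

theorem lsnd_add (f h : LaurentSeries (Eps A)) : lsnd (f + h) = lsnd f + lsnd h := by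
  ext n
  simp

/-- `a ↦ a`. -/
noncomputable def epsInl (A : Type) [CommRing A] : A →+* Eps A := TrivSqZeroExt.inlHom A A

/-- `ε`. -/
def epsE (A : Type) [CommRing A] : Eps A := TrivSqZeroExt.inr 1

/-- `ε` as a constant series. -/
noncomputable def epsL (A : Type) [CommRing A] : LaurentSeries (Eps A) :=
  algebraMap (Eps A) (LaurentSeries (Eps A)) (epsE A)

theorem coeff_epsL_mul (f : LaurentSeries (Eps A)) (n : ℤ) :
    (epsL A * f).coeff n = epsE A * f.coeff n := by
  rw [epsL, ← Algebra.smul_def]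
  rfl

theorem epsL_mul_self : epsL A * epsL A = 0 := by
  rw [epsL, ← map_mul, epsE, TrivSqZeroExt.inr_mul_inr, map_zero]

theorem ls_eq (f : LaurentSeries (Eps A)) :
    f = lmap (epsInl A) (lmap (eps0 A) f) + epsL A * lmap (epsInl A) (lsnd f) := by
  ext n
  · simp [epsInl, epsE, coeff_epsL_mul]
  · simp [epsInl, epsE, coeff_epsL_mul]

theorem lsnd_inl (h k : LaurentSeries A) :
    lsnd (lmap (epsInl A) h + epsL A * lmap (epsInl A) k) = k := by
  ext n
  simp [epsInl, epsE, coeff_epsL_mul]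

theorem lsnd_mul (f h : LaurentSeries (Eps A)) :
    lsnd (f * h) = lmap (eps0 A) f * lsnd h + lmap (eps0 A) h * lsnd f := by
  have e : f * h = lmap (epsInl A) (lmap (eps0 A) f * lmap (eps0 A) h) +
      epsL A * lmap (epsInl A) (lmap (eps0 A) f * lsnd h + lmap (eps0 A) h * lsnd f) := by
    conv_lhs => rw [ls_eq f, ls_eq h]
    rw [map_mul, map_add, map_mul, map_mul]
    linear_combination (lmap (epsInl A) (lsnd f) * lmap (epsInl A) (lsnd h)) * epsL_mul_self (A := A)
  rw [e, lsnd_inl]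

/-- The coefficients of `ε`. -/
noncomputable def ksnd (f : KK I (Eps A)) : KK I A := fun i => lsnd (f i)

@[simp] theorem ksnd_apply (f : KK I (Eps A)) (i : I) : ksnd f i = lsnd (f i) := rfl

theorem ksnd_add (f h : KK I (Eps A)) : ksnd (f + h) = ksnd f + ksnd h :=
  funext fun i => lsnd_add (f i) (h i)

theorem ksnd_mul (f h : KK I (Eps A)) :
    ksnd (f * h) = kmap (eps0 A) f * ksnd h + kmap (eps0 A) h * ksnd f :=
  funext fun i => lsnd_mul (f i) (h i)

theorem ksnd_algebraMap (c : Eps A) :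
    ksnd (algebraMap (Eps A) (KK I (Eps A)) c) = algebraMap A (KK I A) c.snd := by
  funext i
  ext n
  simp only [ksnd_apply, lsnd_coeff, Pi.algebraMap_apply, coeff_algebraMap]
  split_ifs <;> simp

theorem mk_zero {P : Subalgebra A (KK I A)} {f : KK I A} : mk P f = 0 ↔ f ∈ P := by
  rw [← map_zero (mk P), mk_eq, sub_zero]

/-- The deformation of `P` over `A[ε]` with class `δ`. -/
noncomputable def Pdel (P : Subalgebra A (KK I A)) (δ : DD P) :
    Subalgebra (Eps A) (KK I (Eps A)) where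
  carrier := {f | ∃ h : kmap (eps0 A) f ∈ P, δ ⟨kmap (eps0 A) f, h⟩ = mk P (ksnd f)}
  mul_mem' := by
    rintro f h ⟨hf, df⟩ ⟨hh, dh⟩
    have hm : kmap (eps0 A) (f * h) ∈ P := by
      rw [map_mul]
      exact mul_mem hf hh
    refine ⟨hm, ?_⟩
    have e : (⟨kmap (eps0 A) (f * h), hm⟩ : P) =
        ⟨kmap (eps0 A) f, hf⟩ * ⟨kmap (eps0 A) h, hh⟩ := Subtype.ext (map_mul _ _ _)
    rw [e, Derivation.leibniz, df, dh, ← map_smul, ← map_smul, ← map_add, ksnd_mul]
    rfl
  add_mem' := by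
    rintro f h ⟨hf, df⟩ ⟨hh, dh⟩
    have hm : kmap (eps0 A) (f + h) ∈ P := by
      rw [map_add]
      exact add_mem hf hh
    refine ⟨hm, ?_⟩
    have e : (⟨kmap (eps0 A) (f + h), hm⟩ : P) =
        ⟨kmap (eps0 A) f, hf⟩ + ⟨kmap (eps0 A) h, hh⟩ := Subtype.ext (map_add _ _ _)
    rw [e, map_add, df, dh, ksnd_add, map_add]
  algebraMap_mem' c := by
    have hm : kmap (eps0 A) (algebraMap (Eps A) (KK I (Eps A)) c) ∈ P := by
      rw [kmap_algebraMap]
      exact P.algebraMap_mem _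
    refine ⟨hm, ?_⟩
    have e : (⟨kmap (eps0 A) (algebraMap (Eps A) (KK I (Eps A)) c), hm⟩ : P) =
        algebraMap A P c.fst := Subtype.ext (kmap_algebraMap _ _)
    rw [e, Derivation.map_algebraMap, ksnd_algebraMap]
    exact (mk_zero.2 (P.algebraMap_mem _)).symm

theorem mem_Pdel {P : Subalgebra A (KK I A)} {δ : DD P} {f : KK I (Eps A)} :
    f ∈ Pdel P δ ↔ ∃ h : kmap (eps0 A) f ∈ P, δ ⟨kmap (eps0 A) f, h⟩ = mk P (ksnd f) := Iff.rfl

/-- No marked points. -/
abbrev nop {R : Type} [CommRing R] (P : Subalgebra R (KK I R)) : Fin 0 → (P →ₐ[R] R) := Fin.elim0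

/-- `l` is the covector of the curve of `P` with the functional `L`. -/
def IsKC [Finite I] {g : ℕ} {P : Subalgebra A (KK I A)} (z : Pole P) (L : CovL P)
    (l : Cov g (xfam z (nop P))) : Prop :=
  ∀ (M : Mod (xfam z (nop P)) P (nop P)), M.Can z → ∀ (d : Defo g (xfam z (nop P))) (δ : DD P)
    (M' : Mod d.y (Pdel P δ) (nop (Pdel P δ))), M'.Over d.r M → l.l d = L.1 δ

end

end Pool.Agent.MG.KX


end

section

/-!
# Statements on Krichever models

See `Pool/Agent/MG/KX/PAPER.md` for the proofs.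
-/

open CategoryTheory CategoryTheory.Limits AlgebraicGeometry
open scoped TensorProduct

namespace Pool.Agent.MG.KX

open Pool.Agent.MG.G0 Pool.Agent.MG.GLU

/-- `α` preserves the series without poles (the punctures may move infinitesimally). -/
def PolAut {I A : Type} [CommRing A] (α : KK I A ≃ₐ[A] KK I A) : Prop :=
  ∀ f : KK I A, α f ∈ Pol I A 0 ↔ f ∈ Pol I A 0

/-- The marked points `q` of `W` and `p` of `P` (fewer punctures) agree. -/
def MkF {I J A : Type} [CommRing A] {W : Subalgebra A (KK (I ⊕ J) A)} {P : Subalgebra A (KK I A)}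
    {n : ℕ} (q : Fin n → (W →ₐ[A] A)) (p : Fin n → (P →ₐ[A] A)) : Prop :=
  ∀ (i : Fin n) (f : P) (w : W), (∀ k, (w : KK (I ⊕ J) A) (Sum.inl k) = (f : KK I A) k) →
    (∀ k, ∀ m < 0, ((w : KK (I ⊕ J) A) (Sum.inr k)).coeff m = 0) → q i w = p i f

/-! ## Existence and base change -/

/-- MCA: the canonical model. -/
def Stmt_MCA : Prop :=
  ∀ {I A : Type} [Fintype I] [Nonempty I] [CommRing A] {g n : ℕ} {P : Subalgebra A (KK I A)},
    IsKr g P → ∀ (z : Pole P) (p : Fin n → (P →ₐ[A] A)), ∃ M : Mod (xfam z p) P p, M.Can z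

/-- MIS: a proper family with a model of `P` is the curve of `P`. -/
def Stmt_MIS : Prop :=
  ∀ {I A : Type} [Fintype I] [Nonempty I] [CommRing A] {g n : ℕ} {P : Subalgebra A (KK I A)}
    {p : Fin n → (P →ₐ[A] A)} {x : Fam n A}, IsKr g P → IsProper x.π →
    ∀ (M : Mod x P p) (z : Pole P), ∃ a : Arrow (RingHom.id A) (xfam z p) x,
      ∀ M' : Mod (xfam z p) P p, M'.Can z → M.Over a M'

/-- MBC: base change of models. -/
def Stmt_MBC : Prop :=
  ∀ {I A B : Type} [Fintype I] [Nonempty I] [CommRing A] [CommRing B] {g n : ℕ}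
    {P : Subalgebra A (KK I A)} {p : Fin n → (P →ₐ[A] A)} {x : Fam n A} {y : Fam n B}
    {φ : A →+* B} (a : Arrow φ y x), IsKr g P → ∀ (M : Mod x P p)
    (p' : Fin n → (bc φ P →ₐ[B] B)), BcP φ p p' → ∃ M' : Mod y (bc φ P) p', M.Over a M'

/-- MTR: transport of models along isomorphisms. -/
def Stmt_MTR : Prop :=
  ∀ {I A : Type} [CommRing A] {n : ℕ} {P : Subalgebra A (KK I A)} {p : Fin n → (P →ₐ[A] A)}
    {x y : Fam n A} (a : Arrow (RingHom.id A) y x),
    (∀ M : Mod x P p, ∃ M' : Mod y P p, M.Over a M') ∧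
    ∀ M' : Mod y P p, ∃ M : Mod x P p, M.Over a M'

/-- MOC: composition, cancellation, uniqueness of base changes of models. -/
def Stmt_MOC : Prop :=
  (∀ {I A B C : Type} [CommRing A] [CommRing B] [CommRing C] {n : ℕ} {φ : A →+* B} {ψ : B →+* C}
    {χ : A →+* C} {P : Subalgebra A (KK I A)} {p : Fin n → (P →ₐ[A] A)}
    {P' : Subalgebra B (KK I B)} {p' : Fin n → (P' →ₐ[B] B)} {P'' : Subalgebra C (KK I C)}
    {p'' : Fin n → (P'' →ₐ[C] C)} {x : Fam n A} {y : Fam n B} {w : Fam n C} (a : Arrow φ y x)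
    (b : Arrow ψ w y) (c : Arrow χ w x) (M : Mod x P p) (M' : Mod y P' p') (M'' : Mod w P'' p''),
    χ = ψ.comp φ → b.f ≫ a.f = c.f → M.Over a M' →
      ((M'.Over b M'' → M.Over c M'') ∧
        (M.Over c M'' → (∀ f ∈ P', kmap ψ f ∈ P'') → M'.Over b M''))) ∧
  ∀ {I A B : Type} [CommRing A] [CommRing B] {n : ℕ} {φ : A →+* B} {P : Subalgebra A (KK I A)}
    {p : Fin n → (P →ₐ[A] A)} {P' : Subalgebra B (KK I B)} {p' : Fin n → (P' →ₐ[B] B)}
    {x : Fam n A} {y : Fam n B} (a : Arrow φ y x) (M : Mod x P p) (M' M'' : Mod y P' p'),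
    M.Over a M' → M.Over a M'' → M'.j = M''.j ∧ M'.sh = M''.sh

/-- MXT: an arrow from the curve of `P` is determined by its effect on a model. -/
def Stmt_MXT : Prop :=
  ∀ {I A B : Type} [Fintype I] [Nonempty I] [CommRing A] [CommRing B] {g n : ℕ} {φ : A →+* B}
    {Q : Subalgebra A (KK I A)} {q : Fin n → (Q →ₐ[A] A)} {P : Subalgebra B (KK I B)}
    {p : Fin n → (P →ₐ[B] B)} {x : Fam n A} (z : Pole P) (a b : Arrow φ (xfam z p) x)
    (M : Mod x Q q) (M' : Mod (xfam z p) P p), IsKr g P → IsProper x.π → M'.Can z → M.Over a M' →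
    M.Over b M' → a.f = b.f

/-! ## Change of coordinates and of the index set -/

/-- MAU: change of the coordinates. -/
def Stmt_MAU : Prop :=
  (∀ {I A : Type} [Fintype I] [CommRing A] {n : ℕ} {P : Subalgebra A (KK I A)}
    {p : Fin n → (P →ₐ[A] A)} {x : Fam n A} (α : KK I A ≃ₐ[A] KK I A), PolAut α →
    ∀ (M : Mod x P p) (p' : Fin n → (P.map (α : KK I A →ₐ[A] KK I A) →ₐ[A] A)),
      (∀ i (f : P), p' i ⟨α f, ⟨f, f.2, rfl⟩⟩ = p i f) →
      ∃ M' : Mod x (P.map (α : KK I A →ₐ[A] KK I A)) p', M.IsAut α M') ∧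
  ∀ {I A B : Type} [Fintype I] [CommRing A] [CommRing B] {n : ℕ} {P : Subalgebra A (KK I A)}
    {p : Fin n → (P →ₐ[A] A)} {P' : Subalgebra B (KK I B)} {p' : Fin n → (P' →ₐ[B] B)}
    {x : Fam n A} {y : Fam n B} {φ : A →+* B} (a : Arrow φ y x) (α : KK I A ≃ₐ[A] KK I A)
    (β : KK I B ≃ₐ[B] KK I B), PolAut α → PolAut β → (∀ f, kmap φ (α f) = β (kmap φ f)) →
    ∀ (M : Mod x P p) (M' : Mod y P' p') (q : Fin n → (P.map (α : KK I A →ₐ[A] KK I A) →ₐ[A] A))
      (q' : Fin n → (P'.map (β : KK I B →ₐ[B] KK I B) →ₐ[B] B))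
      (N : Mod x (P.map (α : KK I A →ₐ[A] KK I A)) q)
      (N' : Mod y (P'.map (β : KK I B →ₐ[B] KK I B)) q'),
      M.IsAut α N → M'.IsAut β N' → M.Over a M' → N.Over a N'

/-- MRX: change of the index set. -/
def Stmt_MRX : Prop :=
  (∀ {I I' A : Type} [Fintype I] [Fintype I'] [CommRing A] {n : ℕ} {P : Subalgebra A (KK I A)}
    {p : Fin n → (P →ₐ[A] A)} {x : Fam n A} (e : I' ≃ I) (M : Mod x P p)
    (p' : Fin n → (reix e P →ₐ[A] A)),
      (∀ i (f : P), p' i ⟨idx e (f : KK I A), idx_mem_reix e f.2⟩ = p i f) →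
      ∃ M' : Mod x (reix e P) p', M.IsReix e M') ∧
  ∀ {I I' A B : Type} [Fintype I] [Fintype I'] [CommRing A] [CommRing B] {n : ℕ}
    {P : Subalgebra A (KK I A)} {p : Fin n → (P →ₐ[A] A)} {P' : Subalgebra B (KK I B)}
    {p' : Fin n → (P' →ₐ[B] B)} {x : Fam n A} {y : Fam n B} {φ : A →+* B} (a : Arrow φ y x)
    (e : I' ≃ I) (M : Mod x P p) (M' : Mod y P' p') (q : Fin n → (reix e P →ₐ[A] A))
      (q' : Fin n → (reix e P' →ₐ[B] B)) (N : Mod x (reix e P) q) (N' : Mod y (reix e P') q'),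
      M.IsReix e N → M'.IsReix e N' → M.Over a M' → N.Over a N'

/-! ## Forgetting punctures -/

/-- MFA: the complement of the punctures `I` is affine. -/
def Stmt_MFA : Prop :=
  ∀ {I J A : Type} [Fintype I] [Nonempty I] [Fintype J] [CommRing A] {g n : ℕ}
    {W : Subalgebra A (KK (I ⊕ J) A)} {q : Fin n → (W →ₐ[A] A)} {x : Fam n A}, IsKr g W →
    IsProper x.π → ∀ M : Mod x W q,
      (∀ (f : J → LaurentSeries A) (m : ℤ), ∃ w ∈ W, ∀ j, ∀ k < m,
        (w (Sum.inr j)).coeff k = (f j).coeff k) →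
      ∃ U : x.X.Opens, IsAffineOpen U ∧ ∀ s, s ∈ U ↔
        s ∉ Set.range (spMap (ccI I A) ≫ spMap (idx Sum.inl) ≫ M.sh)

/-- MFG: the model with fewer punctures. -/
def Stmt_MFG : Prop :=
  ∀ {I J A : Type} [Fintype I] [Fintype J] [CommRing A] {n : ℕ}
    {W : Subalgebra A (KK (I ⊕ J) A)} {q : Fin n → (W →ₐ[A] A)} {P : Subalgebra A (KK I A)}
    {p : Fin n → (P →ₐ[A] A)} {x : Fam n A} (M : Mod x W q) (U : x.X.Opens), IsAffineOpen U →
      (∀ s, s ∈ U ↔ s ∉ Set.range (spMap (ccI I A) ≫ spMap (idx Sum.inl) ≫ M.sh)) →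
      Forget W P → MkF q p → ∃ M' : Mod x P p, M.Fgt M'

/-- MFO: forgetting punctures and base change. -/
def Stmt_MFO : Prop :=
  ∀ {I J A B : Type} [Fintype I] [Fintype J] [CommRing A] [CommRing B] {n : ℕ}
    {W : Subalgebra A (KK (I ⊕ J) A)} {q : Fin n → (W →ₐ[A] A)} {P : Subalgebra A (KK I A)}
    {p : Fin n → (P →ₐ[A] A)} {W' : Subalgebra B (KK (I ⊕ J) B)} {q' : Fin n → (W' →ₐ[B] B)}
    {P' : Subalgebra B (KK I B)} {p' : Fin n → (P' →ₐ[B] B)} {x : Fam n A} {y : Fam n B}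
    {φ : A →+* B} (a : Arrow φ y x) (M : Mod x W q) (N : Mod x P p) (M' : Mod y W' q')
    (N' : Mod y P' p'), M.Fgt N → M'.Fgt N' → Forget W' P' → (∀ f ∈ P, kmap φ f ∈ P') →
      M.Over a M' → N.Over a N'

/-! ## Thickenings -/

/-- MTH: models of flat thickenings. -/
def Stmt_MTH : Prop :=
  ∀ {I A E K : Type} [Fintype I] [Nonempty I] [CommRing A] [CommRing E] [Fintype K] {g n : ℕ}
    {S : SqE A E K} {x : Fam n A} {P : Subalgebra A (KK I A)} {p : Fin n → (P →ₐ[A] A)},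
    IsKr g P → ∀ (M : Mod x P p) (t : Thk S x), ∃ (P' : Subalgebra E (KK I E))
      (p' : Fin n → (P' →ₐ[E] E)) (M' : Mod t.y P' p'), IsKr g P' ∧ bc S.p P' = P ∧ M'.Over t.r M

/-- MUN: two models of the same deformation differ by a change of the coordinates. -/
def Stmt_MUN : Prop :=
  ∀ {I A : Type} [Fintype I] [Nonempty I] [CommRing A] {g : ℕ} {x : Fam 0 A}
    {P : Subalgebra A (KK I A)}, IsKr g P → ∀ (M : Mod x P (nop P)) (y : Fam 0 (Eps A))
    (r : Arrow (eps0 A) x y), Flat y.π → ∀ (δ δ' : DD P) (M1 : Mod y (Pdel P δ) (nop (Pdel P δ)))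
      (M2 : Mod y (Pdel P δ') (nop (Pdel P δ'))), M1.Over r M → M2.Over r M →
      ∃ θ ∈ Pol I A 0, δ = δ' + tder P θ

/-! ## Arrows between curves of Krichever rings -/

/-- XAR: base change. -/
def Stmt_XAR : Prop :=
  ∀ {I A B : Type} [Fintype I] [Nonempty I] [CommRing A] [CommRing B] {g n : ℕ}
    {P : Subalgebra A (KK I A)} {p : Fin n → (P →ₐ[A] A)} (φ : A →+* B)
    {p' : Fin n → (bc φ P →ₐ[B] B)}, IsKr g P → BcP φ p p' → ∀ (z : Pole P) (z' : Pole (bc φ P)),
      ∃ a : Arrow φ (xfam z' p') (xfam z p), ∀ (M : Mod (xfam z p) P p)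
        (M' : Mod (xfam z' p') (bc φ P) p'), M.Can z → M'.Can z' → M.Over a M'

/-- XAU: change of the coordinates. -/
def Stmt_XAU : Prop :=
  ∀ {I A : Type} [Fintype I] [Nonempty I] [CommRing A] {g n : ℕ} {P : Subalgebra A (KK I A)}
    {p : Fin n → (P →ₐ[A] A)} (α : KK I A ≃ₐ[A] KK I A)
    {p' : Fin n → (P.map (α : KK I A →ₐ[A] KK I A) →ₐ[A] A)}, IsKr g P → PolAut α →
    (∀ i (f : P), p' i ⟨α f, ⟨f, f.2, rfl⟩⟩ = p i f) →
    ∀ (z : Pole P) (z' : Pole (P.map (α : KK I A →ₐ[A] KK I A))),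
      ∃ a : Arrow (RingHom.id A) (xfam z' p') (xfam z p), ∀ (M : Mod (xfam z p) P p)
        (N : Mod (xfam z p) (P.map (α : KK I A →ₐ[A] KK I A)) p')
        (M' : Mod (xfam z' p') (P.map (α : KK I A →ₐ[A] KK I A)) p'),
        M.Can z → M.IsAut α N → M'.Can z' → N.Over a M'

/-- XRX: change of the index set. -/
def Stmt_XRX : Prop :=
  ∀ {I I' A : Type} [Fintype I] [Nonempty I] [Fintype I'] [Nonempty I'] [CommRing A] {g n : ℕ}
    {P : Subalgebra A (KK I A)} {p : Fin n → (P →ₐ[A] A)} (e : I' ≃ I)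
    {p' : Fin n → (reix e P →ₐ[A] A)}, IsKr g P →
    (∀ i (f : P), p' i ⟨idx e (f : KK I A), idx_mem_reix e f.2⟩ = p i f) →
    ∀ (z : Pole P) (z' : Pole (reix e P)),
      ∃ a : Arrow (RingHom.id A) (xfam z' p') (xfam z p), ∀ (M : Mod (xfam z p) P p)
        (N : Mod (xfam z p) (reix e P) p') (M' : Mod (xfam z' p') (reix e P) p'),
        M.Can z → M.IsReix e N → M'.Can z' → N.Over a M'

/-- XFG: forgetting punctures. -/
def Stmt_XFG : Prop :=
  ∀ {I J A : Type} [Fintype I] [Nonempty I] [Fintype J] [CommRing A] {g n : ℕ}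
    {W : Subalgebra A (KK (I ⊕ J) A)} {q : Fin n → (W →ₐ[A] A)} {P : Subalgebra A (KK I A)}
    {p : Fin n → (P →ₐ[A] A)}, IsKr g W → IsKr g P → Forget W P → MkF q p →
    ∀ (z : Pole W) (z' : Pole P), ∃ (a : Arrow (RingHom.id A) (xfam z' p) (xfam z q)),
      ∀ (M : Mod (xfam z q) W q) (N : Mod (xfam z q) P p) (M' : Mod (xfam z' p) P p),
        M.Can z → M.Fgt N → M'.Can z' → N.Over a M'

end Pool.Agent.MG.KX


end

section

/-!
# Statements on deformations of Krichever rings (algebra), fibres of type S and N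

See `Pool/Agent/MG/KX/PAPER.md` for the proofs.
-/

open CategoryTheory CategoryTheory.Limits AlgebraicGeometry
open scoped TensorProduct

namespace Pool.Agent.MG.KX

open Pool.Agent.MG.G0 Pool.Agent.MG.GLU

/-! ## Deformations over `A[ε]` -/

/-- PDK: `Pdel P δ` is a Krichever ring with reduction `P`. -/
def Stmt_PDK : Prop :=
  ∀ {I A : Type} [Fintype I] [Nonempty I] [CommRing A] {g : ℕ} {P : Subalgebra A (KK I A)},
    IsKr g P → ∀ δ : DD P, IsKr g (Pdel P δ) ∧ bc (eps0 A) (Pdel P δ) = P ∧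
      (∀ f ∈ P, ∃ F ∈ Pdel P δ, kmap (eps0 A) F = f) ∧ ∀ δ' : DD P, Pdel P δ = Pdel P δ' → δ = δ'

/-- PDC: every lift of `P` is a `Pdel P δ`. -/
def Stmt_PDC : Prop :=
  ∀ {I A : Type} [Fintype I] [Nonempty I] [CommRing A] {g : ℕ} {P : Subalgebra A (KK I A)}
    {P' : Subalgebra (Eps A) (KK I (Eps A))}, IsKr g P → IsKr g P' → bc (eps0 A) P' = P →
    ∃ δ : DD P, P' = Pdel P δ

/-- PDB: base change. -/
def Stmt_PDB : Prop :=
  ∀ {I A B : Type} [Fintype I] [Nonempty I] [CommRing A] [CommRing B] {g : ℕ}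
    {P : Subalgebra A (KK I A)}, IsKr g P → ∀ (φ : A →+* B) (δ : DD P), ∃ δ' : DD (bc φ P),
      Rel φ δ δ' ∧ bc (epsMap φ) (Pdel P δ) = Pdel (bc φ P) δ'

/-- PDS: scaling. -/
def Stmt_PDS : Prop :=
  ∀ {I A : Type} [Fintype I] [Nonempty I] [CommRing A] {g : ℕ} {P : Subalgebra A (KK I A)},
    IsKr g P → ∀ (a : A) (δ : DD P), bc (epsScale a) (Pdel P δ) = Pdel P (a • δ)

/-- PDA: addition. -/
def Stmt_PDA : Prop :=
  (∀ {I A : Type} [Fintype I] [Nonempty I] [CommRing A] {g : ℕ} {P : Subalgebra A (KK I A)}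
    {Q : Subalgebra (Eps2 A) (KK I (Eps2 A))}, IsKr g P → IsKr g Q → bc (eps20 A) Q = P →
    ∀ δ₁ δ₂ δ : DD P, bc (epsPair 1 0) Q = Pdel P δ₁ → bc (epsPair 0 1) Q = Pdel P δ₂ →
      bc (epsPair 1 1) Q = Pdel P δ → δ = δ₁ + δ₂) ∧
  ∀ {I A : Type} [Fintype I] [Nonempty I] [CommRing A] {g : ℕ} {P : Subalgebra A (KK I A)},
    IsKr g P → ∀ δ₁ δ₂ : DD P, ∃ Q : Subalgebra (Eps2 A) (KK I (Eps2 A)), IsKr g Q ∧
      bc (eps20 A) Q = P ∧ bc (epsPair 1 0) Q = Pdel P δ₁ ∧ bc (epsPair 0 1) Q = Pdel P δ₂ ∧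
      bc (epsPair 1 1) Q = Pdel P (δ₁ + δ₂)

/-- PDI: changes of the coordinates. -/
def Stmt_PDI : Prop :=
  ∀ {I A : Type} [Fintype I] [CommRing A], ∀ θ ∈ Pol I A 0,
    ∃ α : KK I (Eps A) ≃ₐ[Eps A] KK I (Eps A), PolAut α ∧
      (∀ f, kmap (eps0 A) (α f) = kmap (eps0 A) f) ∧
      ∀ (P : Subalgebra A (KK I A)) (δ : DD P), Pdel P (δ + tder P θ) =
        (Pdel P δ).map (α : KK I (Eps A) →ₐ[Eps A] KK I (Eps A))

/-- PDT: automorphisms of the Laurent series. -/
def Stmt_PDT : Prop :=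
  ∀ {I A : Type} [Fintype I] [CommRing A] (α : KK I A ≃ₐ[A] KK I A), PolAut α →
    ∃ β : KK I (Eps A) ≃ₐ[Eps A] KK I (Eps A), PolAut β ∧
      (∀ f, kmap (eps0 A) (β f) = α (kmap (eps0 A) f)) ∧
      ∀ (P : Subalgebra A (KK I A)) (δ : DD P), ∃ δ' : DD (P.map (α : KK I A →ₐ[A] KK I A)),
        RelA α δ δ' ∧ Pdel (P.map (α : KK I A →ₐ[A] KK I A)) δ' =
          (Pdel P δ).map (β : KK I (Eps A) →ₐ[Eps A] KK I (Eps A))

/-- PDR: change of the index set. -/
def Stmt_PDR : Prop :=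
  ∀ {I I' A : Type} [CommRing A] (e : I' ≃ I) (P : Subalgebra A (KK I A)) (δ : DD P),
    ∃ δ' : DD (reix e P), (∀ (f : P) (h : KK I A), δ f = mk P h →
      δ' ⟨idx e (f : KK I A), idx_mem_reix e f.2⟩ = mk (reix e P) (idx e h)) ∧
      Pdel (reix e P) δ' = reix e (Pdel P δ)

/-- PDF: forgetting punctures. -/
def Stmt_PDF : Prop :=
  ∀ {I J A : Type} [Fintype I] [Nonempty I] [Fintype J] [CommRing A] {g : ℕ}
    {W : Subalgebra A (KK (I ⊕ J) A)}, IsKr g W → IsKr g (Rem W) → Forget W (Rem W) →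
    ∀ E : DD W, ∃ D : DD (Rem W), RelF D E ∧ Rem (Pdel W E) = Pdel (Rem W) D ∧
      Forget (Pdel W E) (Pdel (Rem W) D)

/-- PDD: derivations of the base field. -/
def Stmt_PDD : Prop :=
  ∀ {I K : Type} [Fintype I] [Nonempty I] [Field K] [Algebra ℂ K] {g : ℕ}
    {P : Subalgebra K (KK I K)}, IsKr g P → ∀ D : Derivation ℂ K K, ∃ δ : DD P,
      (∀ f : P, δ f = mk P (kadd (D : K →+ K) (f : KK I K))) ∧
      bc (Std.epsDer D) P = Pdel P δ

/-! ## The fibres -/

/-- KDM: smooth Krichever rings are domains. -/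
def Stmt_KDM : Prop :=
  ∀ {I K : Type} [Fintype I] [Nonempty I] [Field K] [IsAlgClosed K] {g : ℕ}
    {P : Subalgebra K (KK I K)}, IsKr g P → TypeS P → IsDomain P ∧
      ∀ (i : I) (f : P), (f : KK I K) i = 0 → f = 0

/-- KRS: no vector fields on smooth curves of genus at least two. -/
def Stmt_KRS : Prop :=
  ∀ {I K : Type} [Fintype I] [Nonempty I] [Field K] [IsAlgClosed K] {g : ℕ}
    {P : Subalgebra K (KK I K)}, IsKr g P → TypeS P → 2 ≤ g → RigP P

/-- KRN: no vector fields on curves with one node. -/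
def Stmt_KRN : Prop :=
  ∀ {I K : Type} [Fintype I] [Nonempty I] [Field K] [IsAlgClosed K] [CharZero K] {g : ℕ}
    {P : Subalgebra K (KK I K)}, IsKr g P → TypeN g P → 3 ≤ g → RigP P

/-- KNS: smooth curves are nodal. -/
def Stmt_KNS : Prop :=
  ∀ {I K : Type} [Fintype I] [Nonempty I] [Field K] [IsAlgClosed K] {g : ℕ}
    {P : Subalgebra K (KK I K)}, IsKr g P → TypeS P → Nodal (spMap (algebraMap K P))

/-- KNN: curves with one node are nodal. -/
def Stmt_KNN : Prop :=
  ∀ {I K : Type} [Fintype I] [Nonempty I] [Field K] [IsAlgClosed K] [CharZero K] {g : ℕ}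
    {P : Subalgebra K (KK I K)}, IsKr g P → TypeN g P → Nodal (spMap (algebraMap K P))

/-- GKS: good Krichever rings are rings of stable curves. -/
def Stmt_GKS : Prop :=
  ∀ {I A : Type} [Fintype I] [Nonempty I] [CommRing A] [Algebra ℂ A] {g n : ℕ}
    {P : Subalgebra A (KK I A)} (p : Fin n → (P →ₐ[A] A)), 3 ≤ g → G0.Good g P → Marks P p →
      KS g P p

/-- WIN: injectivity of the restriction to some of the punctures. -/
def Stmt_WIN : Prop :=
  ∀ {I J A : Type} [Fintype I] [Nonempty I] [Fintype J] [CommRing A] {g : ℕ}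
    {W : Subalgebra A (KK (I ⊕ J) A)}, G0.Good g W → Dn W → Forget W (Rem W)

end Pool.Agent.MG.KX


end

section

/-!
# Statements on covectors of curves of Krichever rings, genericity

See `Pool/Agent/MG/KX/PAPER.md` for the proofs.
-/

open CategoryTheory CategoryTheory.Limits AlgebraicGeometry
open scoped TensorProduct

namespace Pool.Agent.MG.KX

open Pool.Agent.MG.G0 Pool.Agent.MG.GLU

/-! ## Lemmas with equalities of Krichever rings -/

section

variable {I A B : Type} [CommRing A] [CommRing B] {n : ℕ}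

/-- `Stmt_MBC` for a ring `P'` equal to the base change. -/
theorem mbc' [Fintype I] [Nonempty I] (h : Stmt_MBC) {g : ℕ} {P : Subalgebra A (KK I A)}
    {p : Fin n → (P →ₐ[A] A)} {x : Fam n A} {y : Fam n B} {φ : A →+* B} (a : Arrow φ y x)
    (hP : IsKr g P) (M : Mod x P p) {P' : Subalgebra B (KK I B)} (hP' : bc φ P = P')
    (p' : Fin n → (P' →ₐ[B] B)) (hp : BcP φ p p') : ∃ M' : Mod y P' p', M.Over a M' := by
  subst hP'
  exact h a hP M p' hp

/-- `Stmt_XAR` for a ring `P'` equal to the base change. -/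
theorem xar' [Fintype I] [Nonempty I] (h : Stmt_XAR) {g : ℕ} {P : Subalgebra A (KK I A)}
    {p : Fin n → (P →ₐ[A] A)} (φ : A →+* B) {P' : Subalgebra B (KK I B)}
    {p' : Fin n → (P' →ₐ[B] B)} (hP : IsKr g P) (hP' : bc φ P = P') (hp : BcP φ p p')
    (z : Pole P) (z' : Pole P') : ∃ a : Arrow φ (xfam z' p') (xfam z p),
      ∀ (M : Mod (xfam z p) P p) (M' : Mod (xfam z' p') P' p'), M.Can z → M'.Can z' →
        M.Over a M' := by
  subst hP'
  exact h φ hP hp z z'

theorem bcP_nop {P : Subalgebra A (KK I A)} {P' : Subalgebra B (KK I B)} (φ : A →+* B) :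
    BcP φ (nop P) (nop P') := fun i => i.elim0

end

/-! ## Deformations of the curve -/

/-- MAI: automorphisms which become trivial. -/
def Stmt_MAI : Prop :=
  ∀ {I A B : Type} [CommRing A] [CommRing B] {n : ℕ} {P : Subalgebra A (KK I A)}
    {p : Fin n → (P →ₐ[A] A)} {P' : Subalgebra B (KK I B)} {p' : Fin n → (P' →ₐ[B] B)}
    {x : Fam n A} {y : Fam n B} {φ : A →+* B} (a : Arrow φ y x) (α : KK I A ≃ₐ[A] KK I A),
    (∀ f, kmap φ (α f) = kmap φ f) → ∀ (M : Mod x P p) (M' : Mod y P' p')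
      (q : Fin n → (P.map (α : KK I A →ₐ[A] KK I A) →ₐ[A] A))
      (N : Mod x (P.map (α : KK I A →ₐ[A] KK I A)) q), M.IsAut α N → M.Over a M' → N.Over a M'

/-- KSN: nilpotent thickenings of KS. -/
def Stmt_KSN : Prop :=
  ∀ {I E A : Type} [Fintype I] [Nonempty I] [CommRing E] [CommRing A] {g : ℕ}
    {Q : Subalgebra E (KK I E)} {P : Subalgebra A (KK I A)} (φ : E →+* A),
    Function.Surjective φ → (∃ n : ℕ, RingHom.ker φ ^ n = ⊥) → IsKr g Q → bc φ Q = P →
    KS g P (nop P) → KS g Q (nop Q)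

/-- DMD: every first order deformation has a model. -/
def Stmt_DMD : Prop :=
  ∀ {I A : Type} [Fintype I] [Nonempty I] [CommRing A] {g : ℕ} {P : Subalgebra A (KK I A)}
    {x : Fam 0 A}, IsKr g P → ∀ (M : Mod x P (nop P)) (d : Defo g x), ∃ (δ : DD P)
      (M' : Mod d.y (Pdel P δ) (nop (Pdel P δ))), M'.Over d.r M

/-- DMT: every deformation over `A[ε₁, ε₂]` has a model. -/
def Stmt_DMT : Prop :=
  ∀ {I A : Type} [Fintype I] [Nonempty I] [CommRing A] {g : ℕ} {P : Subalgebra A (KK I A)}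
    {x : Fam 0 A}, IsKr g P → ∀ (M : Mod x P (nop P)) (y : Fam 0 (Eps2 A)), IsStable g y →
      ∀ r : Arrow (eps20 A) x y, ∃ (Q : Subalgebra (Eps2 A) (KK I (Eps2 A)))
        (M' : Mod y Q (nop Q)), IsKr g Q ∧ bc (eps20 A) Q = P ∧ M'.Over r M

/-! ## Covectors -/

/-- KCE: the covector of a functional. -/
def Stmt_KCE : Prop :=
  ∀ {I A : Type} [Fintype I] [Nonempty I] [CommRing A] {g : ℕ} {P : Subalgebra A (KK I A)},
    KS g P (nop P) → ∀ (z : Pole P) (L : CovL P), ∃ l : Cov g (xfam z (nop P)), IsKC z L l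

/-- KCU: uniqueness of the covector of a functional. -/
def Stmt_KCU : Prop :=
  ∀ {I A : Type} [Fintype I] [Nonempty I] [CommRing A] {g : ℕ} {P : Subalgebra A (KK I A)},
    KS g P (nop P) → ∀ (z : Pole P) (L : CovL P) (l l' : Cov g (xfam z (nop P))), IsKC z L l →
      IsKC z L l' → l.l = l'.l

/-- KCF: every covector comes from a functional. -/
def Stmt_KCF : Prop :=
  ∀ {I A : Type} [Fintype I] [Nonempty I] [CommRing A] {g : ℕ} {P : Subalgebra A (KK I A)},
    KS g P (nop P) → ∀ (z : Pole P) (l : Cov g (xfam z (nop P))), ∃ L : CovL P, IsKC z L l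

/-- KCN: base change. -/
def Stmt_KCN : Prop :=
  ∀ {I A B : Type} [Fintype I] [Nonempty I] [CommRing A] [CommRing B] {g : ℕ}
    {P : Subalgebra A (KK I A)} (φ : A →+* B), KS g P (nop P) →
    ∀ (z : Pole P) (z' : Pole (bc φ P)),
      ∃ a : Arrow φ (xfam z' (nop (bc φ P))) (xfam z (nop P)), ∀ (L : CovL P)
        (L' : CovL (bc φ P)), CompatL φ L L' → ∀ (l : Cov g (xfam z (nop P)))
        (l' : Cov g (xfam z' (nop (bc φ P)))), IsKC z L l → IsKC z' L' l' → Compat a l' l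

/-- KCZ: change of the pole. -/
def Stmt_KCZ : Prop :=
  ∀ {I A : Type} [Fintype I] [Nonempty I] [CommRing A] {g : ℕ} {P : Subalgebra A (KK I A)},
    KS g P (nop P) → ∀ z z' : Pole P,
      ∃ a : Arrow (RingHom.id A) (xfam z' (nop P)) (xfam z (nop P)), ∀ (L : CovL P)
        (l : Cov g (xfam z (nop P))) (l' : Cov g (xfam z' (nop P))), IsKC z L l → IsKC z' L l' →
        Compat a l' l

/-- KCA: change of the coordinates. -/
def Stmt_KCA : Prop :=
  ∀ {I A : Type} [Fintype I] [Nonempty I] [CommRing A] {g : ℕ} {P : Subalgebra A (KK I A)}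
    (α : KK I A ≃ₐ[A] KK I A), PolAut α → KS g P (nop P) → ∀ (z : Pole P)
    (z' : Pole (P.map (α : KK I A →ₐ[A] KK I A))), ∃ a : Arrow (RingHom.id A)
      (xfam z' (nop (P.map (α : KK I A →ₐ[A] KK I A)))) (xfam z (nop P)), ∀ (L : CovL P)
      (L' : CovL (P.map (α : KK I A →ₐ[A] KK I A))),
      (∀ (D : DD P) (E : DD (P.map (α : KK I A →ₐ[A] KK I A))), RelA α D E → L'.1 E = L.1 D) →
      ∀ (l : Cov g (xfam z (nop P)))
        (l' : Cov g (xfam z' (nop (P.map (α : KK I A →ₐ[A] KK I A))))), IsKC z L l →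
        IsKC z' L' l' → Compat a l' l

/-- KCR: change of the index set. -/
def Stmt_KCR : Prop :=
  ∀ {I I' A : Type} [Fintype I] [Nonempty I] [Fintype I'] [Nonempty I'] [CommRing A] {g : ℕ}
    {P : Subalgebra A (KK I A)} (e : I' ≃ I), KS g P (nop P) → ∀ (z : Pole P)
    (z' : Pole (reix e P)), ∃ a : Arrow (RingHom.id A) (xfam z' (nop (reix e P)))
      (xfam z (nop P)), ∀ (L : CovL P) (L' : CovL (reix e P)),
      (∀ (D : DD P) (E : DD (reix e P)), RelI e D E → L'.1 E = L.1 D) →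
      ∀ (l : Cov g (xfam z (nop P))) (l' : Cov g (xfam z' (nop (reix e P)))), IsKC z L l →
        IsKC z' L' l' → Compat a l' l

/-- KCG: forgetting punctures. -/
def Stmt_KCG : Prop :=
  ∀ {I J A : Type} [Fintype I] [Nonempty I] [Fintype J] [CommRing A] {g : ℕ}
    {W : Subalgebra A (KK (I ⊕ J) A)}, KS g W (nop W) → KS g (Rem W) (nop (Rem W)) →
    Forget W (Rem W) → ∀ (z : Pole W) (z' : Pole (Rem W)),
      ∃ a : Arrow (RingHom.id A) (xfam z' (nop (Rem W))) (xfam z (nop W)),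
        ∀ (L : CovL (Rem W)) (L' : CovL W),
        (∀ (D : DD (Rem W)) (E : DD W), RelF D E → L'.1 E = L.1 D) →
        ∀ (l : Cov g (xfam z (nop W))) (l' : Cov g (xfam z' (nop (Rem W)))), IsKC z L' l →
          IsKC z' L l' → Compat a l' l

/-! ## Genericity -/

/-- Every first order deformation of `(P, p)` comes from a derivation of `K`. -/
def GnrM {I K : Type} [Field K] [Algebra ℂ K] {n : ℕ} (P : Subalgebra K (KK I K))
    (p : Fin n → (P →ₐ[K] K)) : Prop :=
  ∀ (δ : DD P) (q : Fin n → (Pdel P δ →ₐ[Eps K] Eps K)),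
    (∀ (i : Fin n) (F : Pdel P δ) (f : P), (f : KK I K) = kmap (eps0 K) (F : KK I (Eps K)) →
      (q i F).fst = p i f) →
    ∃ (D : Derivation ℂ K K) (θ : KK I K), θ ∈ Pol I K 0 ∧
      (∀ f : P, δ f = mk P (kadd (D : K →+ K) (f : KK I K)) + mk P (θ * dd (f : KK I K))) ∧
      ∀ (i : Fin n) (F : Pdel P δ) (f : P), (f : KK I K) = kmap (eps0 K) (F : KK I (Eps K)) →
        ksnd (F : KK I (Eps K)) = kadd (D : K →+ K) (f : KK I K) + θ * dd (f : KK I K) →
        (q i F).snd = D (p i f)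

/-- GNX: the curve is generic. -/
def Stmt_GNX : Prop :=
  ∀ {I K : Type} [Fintype I] [Nonempty I] [Field K] [Algebra ℂ K] {g n : ℕ}
    {P : Subalgebra K (KK I K)} {p : Fin n → (P →ₐ[K] K)}, IsKr g P → GnrM P p →
    ∀ (z : Pole P) (d : Defo g (xfam z p)), ∃ (D : Derivation ℂ K K)
      (f : Arrow (Std.epsDer D) d.y (xfam z p)), d.r.f ≫ f.f = 𝟙 _

/-- GNB: genericity and extension of the field. -/
def Stmt_GNB : Prop :=
  ∀ {I K L : Type} [Fintype I] [Nonempty I] [Field K] [Algebra ℂ K] [Field L] [Algebra ℂ L]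
    (φ : K →ₐ[ℂ] L) {g : ℕ} {P : Subalgebra K (KK I K)}, IsKr g P → TypeS P → Gnr P →
    Gnr (bc (φ : K →+* L) P)

/-- GNP: generic points. -/
def Stmt_GNP : Prop :=
  ∀ {I K : Type} [Fintype I] [Nonempty I] [Field K] [IsAlgClosed K] [Algebra ℂ K] {g : ℕ}
    {P : Subalgebra K (KK I K)}, IsKr g P → TypeS P → Gnr P → ∀ n : ℕ,
    ∃ (L : Type) (_ : Field L) (_ : IsAlgClosed L) (_ : Algebra ℂ L) (φ : K →ₐ[ℂ] L)
      (p : Fin n → (bc (φ : K →+* L) P →ₐ[L] L)), TypeS (bc (φ : K →+* L) P) ∧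
      Marks (bc (φ : K →+* L) P) p ∧ GnrM (bc (φ : K →+* L) P) p

/-- GNM: marked points exist. -/
def Stmt_GNM : Prop :=
  ∀ {I K : Type} [Fintype I] [Nonempty I] [Field K] [IsAlgClosed K] {g : ℕ}
    {P : Subalgebra K (KK I K)}, IsKr g P → TypeS P → ∀ n : ℕ,
    ∃ p : Fin n → (P →ₐ[K] K), Marks P p

end Pool.Agent.MG.KX


end

section

/-!
# KCN: base change of the covector of a functional
-/

open CategoryTheory CategoryTheory.Limits AlgebraicGeometry
open scoped TensorProduct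

namespace Pool.Agent.MG.KX

open Pool.Agent.MG.G0 Pool.Agent.MG.GLU

namespace KCN

variable {I A B : Type} [CommRing A] [CommRing B]

theorem eps_eq (φ : A →+* B) : φ.comp (eps0 A) = (eps0 B).comp (epsMap φ) :=
  (RingHom.ext fun z => by simp [epsMap])

/-- The canonical model of the base change and the model of the deformation. -/
theorem ovr (hMOC : Stmt_MOC) {n : ℕ} {φ : A →+* B} {P : Subalgebra A (KK I A)}
    {p : Fin n → (P →ₐ[A] A)} {P' : Subalgebra B (KK I B)} {p' : Fin n → (P' →ₐ[B] B)}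
    {x : Fam n A} {x' : Fam n B} {y : Fam n (Eps A)} {y' : Fam n (Eps B)}
    {Q : Subalgebra (Eps A) (KK I (Eps A))} {q : Fin n → (Q →ₐ[Eps A] Eps A)}
    {Q' : Subalgebra (Eps B) (KK I (Eps B))} {q' : Fin n → (Q' →ₐ[Eps B] Eps B)}
    (a : Arrow φ x' x) (r : Arrow (eps0 A) x y) (r' : Arrow (eps0 B) x' y')
    (f : Arrow (epsMap φ) y' y) (hf : r'.f ≫ f.f = a.f ≫ r.f)
    (M : Mod x P p) (M' : Mod x' P' p') (N : Mod y Q q) (N' : Mod y' Q' q')
    (h1 : M.Over a M') (h2 : N.Over r M) (h3 : N.Over f N')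
    (hQ : ∀ F ∈ Q', kmap (eps0 B) F ∈ P') : N'.Over r' M' := by
  have hc : N.Over (PBS.comp a r) M' :=
    (hMOC.1 r a (PBS.comp a r) N M M' rfl rfl h2).1 h1
  exact (hMOC.1 f r' (PBS.comp a r) N N' M' (eps_eq φ) hf h3).2 hc hQ

end KCN

theorem t_KCN (hMCA : Stmt_MCA) (hMBC : Stmt_MBC) (hMOC : Stmt_MOC) (hXAR : Stmt_XAR)
    (hDMD : Stmt_DMD) (hPDB : Stmt_PDB) (hPDK : Stmt_PDK) (hKBC : Stmt_KBC) : Stmt_KCN := by
  intro I A B _ _ _ _ g P φ hKS z z'
  have hP : IsKr g P := hKS.kr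
  have hP' : IsKr g (bc φ P) := (hKBC.2.2.2 hP φ).1
  obtain ⟨a, ha⟩ := hXAR φ (p' := nop (bc φ P)) hP (bcP_nop φ) z z'
  refine ⟨a, ?_⟩
  intro L L' hL l l' hl hl' d' d f hf
  obtain ⟨M, hM⟩ := hMCA hP z (nop P)
  obtain ⟨M', hM'⟩ := hMCA hP' z' (nop (bc φ P))
  obtain ⟨δ, Md, hMd⟩ := hDMD hP M d
  obtain ⟨δ', hδ, hQ⟩ := hPDB hP φ δ
  obtain ⟨M'', hM''⟩ := mbc' hMBC f (hPDK hP δ).1 Md hQ (nop (Pdel (bc φ P) δ'))
    (bcP_nop (epsMap φ))
  have h1 : M''.Over d'.r M' :=
    KCN.ovr hMOC a d.r d'.r f hf M M' Md M'' (ha M M' hM hM') hMd hM''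
      fun F hF => (mem_Pdel.1 hF).1
  rw [hl' M' hM' d' δ' M'' h1, hl M hM d δ Md hMd]
  exact hL δ δ' hδ

end Pool.Agent.MG.KX


end

section

/-!
# KCE: the covector of a functional (existence)
-/

open CategoryTheory CategoryTheory.Limits AlgebraicGeometry
open scoped TensorProduct

namespace Pool.Agent.MG.KX

open Pool.Agent.MG.G0 Pool.Agent.MG.GLU

namespace KCE

theorem eps0_scale {A : Type} [CommRing A] (a : A) :
    eps0 A = (eps0 A).comp (epsScale a) := by
  refine RingHom.ext fun u => ?_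
  change u.fst = (TrivSqZeroExt.map (a • (LinearMap.id : A →ₗ[A] A)) u).fst
  rw [TrivSqZeroExt.fst_map]

theorem eps0_pair {A : Type} [CommRing A] (a b : A) :
    eps20 A = (eps0 A).comp (epsPair a b) := by
  refine RingHom.ext fun u => ?_
  change u.fst = (TrivSqZeroExt.map (a • LinearMap.fst A A A + b • LinearMap.snd A A A) u).fst
  rw [TrivSqZeroExt.fst_map]

/-- Another model with the same morphisms. -/
theorem over_congr {A B : Type} [CommRing A] [CommRing B] {I : Type} {φ : A →+* B} {n : ℕ}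
    {y : Fam n B} {x : Fam n A} {a : Arrow φ y x} {P : Subalgebra A (KK I A)}
    {p : Fin n → (P →ₐ[A] A)} {P' : Subalgebra B (KK I B)} {p' : Fin n → (P' →ₐ[B] B)}
    {M : Mod x P p} {M' M'' : Mod y P' p'} (h : M.Over a M') (hj : M''.j = M'.j)
    (hs : M''.sh = M'.sh) : M.Over a M'' :=
  ⟨h.mem, by rw [hj]; exact h.j, by rw [hs]; exact h.sh⟩

theorem mem_red {I A : Type} [CommRing A] {P : Subalgebra A (KK I A)} {δ : DD P} :
    ∀ f ∈ Pdel P δ, kmap (eps0 A) f ∈ P := fun _ hf => (mem_Pdel.1 hf).1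

end KCE

open _root_.Pool.Agent.MG.KX.KCE in
theorem t_KCE (hMCA : Stmt_MCA) (hMBC : Stmt_MBC) (hMTR : Stmt_MTR) (hMOC : Stmt_MOC)
    (hMUN : Stmt_MUN) (_hKST : Stmt_KST) (hDMD : Stmt_DMD) (hDMT : Stmt_DMT) (hPDK : Stmt_PDK)
    (hPDC : Stmt_PDC) (hPDS : Stmt_PDS) (hPDA : Stmt_PDA) (hKBC : Stmt_KBC) : Stmt_KCE := by
  intro I A _ _ _ g P hKS z L
  obtain ⟨M, hM⟩ := hMCA hKS.kr z (nop P)
  choose δ Md hMd using fun d : Defo g (xfam z (nop P)) => hDMD hKS.kr M d
  -- the value does not depend on the model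
  have key : ∀ (d : Defo g (xfam z (nop P))) (δ' : DD P)
      (M' : Mod d.y (Pdel P δ') (nop (Pdel P δ'))), M'.Over d.r M → L.1 δ' = L.1 (δ d) := by
    intro d δ' M' hM'
    obtain ⟨θ, hθ, e⟩ := hMUN hKS.kr M d.y d.r d.stable.flat δ' (δ d) M' (Md d) hM' (hMd d)
    rw [e, map_add, L.2 θ hθ, add_zero]
  have kr : ∀ δ' : DD P, IsKr g (Pdel P δ') := fun δ' => (hPDK hKS.kr δ').1
  -- the restrictions of a deformation over `A[ε₁, ε₂]`
  have pair : ∀ (a b : A) (w : Fam 0 (Eps2 A)) (r : Arrow (eps20 A) (xfam z (nop P)) w)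
      (Q : Subalgebra (Eps2 A) (KK I (Eps2 A))) (MQ : Mod w Q (nop Q)), IsKr g Q →
      bc (eps20 A) Q = P → MQ.Over r M → ∀ (d : Defo g (xfam z (nop P)))
      (f : Arrow (epsPair a b) d.y w), d.r.f ≫ f.f = r.f →
      ∃ δ' : DD P, bc (epsPair a b) Q = Pdel P δ' ∧ L.1 δ' = L.1 (δ d) := by
    intro a b w r Q MQ hQ hbc hMQ d f hf
    have h1 : IsKr g (bc (epsPair a b) Q) := (hKBC.2.2.2 hQ (epsPair a b)).1
    have h2 : bc (eps0 A) (bc (epsPair a b) Q) = P := by
      rw [← hKBC.2.1, ← eps0_pair, hbc]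
    obtain ⟨δ', hδ'⟩ := hPDC hKS.kr h1 h2
    obtain ⟨M', hM'⟩ := mbc' hMBC f hQ MQ hδ' (nop (Pdel P δ')) (bcP_nop _)
    refine ⟨δ', hδ', key d δ' M' ?_⟩
    exact ((hMOC.1 f d.r r MQ M' M (eps0_pair a b) hf hM').2 hMQ mem_red)
  refine ⟨⟨fun d => L.1 (δ d), ?_, ?_, ?_⟩, ?_⟩
  · -- isomorphisms
    intro d d' f hf
    obtain ⟨M', hM'⟩ := (hMTR f).1 (Md d')
    exact (key d (δ d') M' ((hMOC.1 f d.r d'.r (Md d') M' M (RingHom.comp_id _).symm hf
      hM').2 (hMd d') mem_red)).symm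
  · -- scaling
    intro a d d' f hf
    obtain ⟨M', hM'⟩ := mbc' hMBC f (kr (δ d)) (Md d) (hPDS hKS.kr a (δ d))
      (nop (Pdel P (a • δ d))) (bcP_nop _)
    have h := key d' (a • δ d) M' ((hMOC.1 f d'.r d.r (Md d) M' M (eps0_scale a) hf hM').2
      (hMd d) mem_red)
    change L.1 (δ d') = a * L.1 (δ d)
    rw [← h, map_smul, smul_eq_mul]
  · -- addition
    intro w hw r d₁ d₂ d f₁ f₂ f h₁ h₂ h
    obtain ⟨Q, MQ, hQ, hbc, hMQ⟩ := hDMT hKS.kr M w hw r
    obtain ⟨δ₁, e₁, l₁⟩ := pair 1 0 w r Q MQ hQ hbc hMQ d₁ f₁ h₁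
    obtain ⟨δ₂, e₂, l₂⟩ := pair 0 1 w r Q MQ hQ hbc hMQ d₂ f₂ h₂
    obtain ⟨δ', e, l⟩ := pair 1 1 w r Q MQ hQ hbc hMQ d f h
    have hs := hPDA.1 hKS.kr hQ hbc δ₁ δ₂ δ' e₁ e₂ e
    change L.1 (δ d) = L.1 (δ d₁) + L.1 (δ d₂)
    rw [← l, ← l₁, ← l₂, hs, map_add]
  · -- the condition of the covector
    intro M₂ hM₂ d δ' M' hM'
    exact (key d δ' M' (over_congr hM' (hM.j.trans hM₂.j.symm) (hM.sh.trans hM₂.sh.symm))).symm

end Pool.Agent.MG.KX


end

section

/-!
# MCA: the canonical model of the curve of a Krichever ring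
-/

open CategoryTheory CategoryTheory.Limits AlgebraicGeometry
open scoped TensorProduct

namespace Pool.Agent.MG.KX

open Pool.Agent.MG.G0 Pool.Agent.MG.GLU

namespace MCA

section geo

theorem mem_spMap {R S : Type} [CommRing R] [CommRing S] (f : R →+* S) (x : Sp S) (r : R) :
    r ∈ (spMap f x).asIdeal ↔ f r ∈ x.asIdeal := Iff.rfl

/-- Points of a basic open set. -/
theorem mem_basic {A : Type} [CommRing A] {X : Scheme.{0}} (i : Sp A ⟶ X) (W : X.Opens)
    (h : ⊤ ≤ i ⁻¹ᵁ W) (v : Γ(X, W)) (y : Sp A) :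
    i y ∈ X.basicOpen v ↔ gm i W h v ∉ y.asIdeal := by
  have h1 : (Sp A).basicOpen (i.appLE W ⊤ h v) = ⊤ ⊓ i ⁻¹ᵁ (X.basicOpen v) :=
    Scheme.basicOpen_appLE i ⊤ W h v
  have h2 : (i.appLE W ⊤ h).hom v =
      (Scheme.ΓSpecIso (CommRingCat.of A)).inv.hom (gm i W h v) := by
    change _ = (Scheme.ΓSpecIso (CommRingCat.of A)).inv.hom
      ((Scheme.ΓSpecIso (CommRingCat.of A)).hom.hom ((i.appLE W ⊤ h).hom v))
    exact (ConcreteCategory.congr_hom (Scheme.ΓSpecIso (CommRingCat.of A)).hom_inv_id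
      ((i.appLE W ⊤ h).hom v)).symm
  have h3 : (Sp A).basicOpen ((i.appLE W ⊤ h).hom v) = PrimeSpectrum.basicOpen (gm i W h v) := by
    rw [h2]
    exact basicOpen_eq_of_affine _
  have h4 : y ∈ (Sp A).basicOpen ((i.appLE W ⊤ h).hom v) ↔ i y ∈ X.basicOpen v := by
    have h5 : (Sp A).basicOpen ((i.appLE W ⊤ h).hom v) = ⊤ ⊓ i ⁻¹ᵁ (X.basicOpen v) := h1
    rw [h5, top_inf_eq]
    rfl
  rw [← h4, h3]
  rfl

end geo

section ring

variable {I A : Type} [Fintype I] [CommRing A] {P : Subalgebra A (KK I A)} (z : Pole P)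

theorem psI_inj {f g : I → PowerSeries A} (h : psI I A f = psI I A g) : f = g := by
  funext i
  exact psl_inj (congrFun h i)

theorem psI_rshI (f : Rw P z.z) : psI I A (rshI z.z f) = (f : KK I A) :=
  funext fun i => psl_rsh i f

theorem rshI_algebraMap (a : A) :
    rshI z.z (algebraMap A (Rw P z.z) a) = algebraMap A (I → PowerSeries A) a := by
  refine psI_inj ?_
  rw [psI_rshI]
  funext i
  exact (HahnSeries.ofPowerSeries_C a).symm

theorem ccI_rshI (f : Rw P z.z) (i : I) : ccI I A (rshI z.z f) i = ((f : KK I A) i).coeff 0 := by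
  rw [ccI_apply, ← PowerSeries.coeff_zero_eq_constantCoeff_apply, ← psI_rshI z f, psI_apply]
  exact (psl_coeff _ 0).symm

/-- The inverse of the pole as an element of the second chart. -/
noncomputable def ww : Rw P z.z := ⟨z.w, z.mem_Rw⟩

theorem cc_ww : ccI I A (rshI z.z (ww z)) = 0 := by
  funext i
  rw [ccI_rshI]
  have := z.pos
  exact z.mem i 0 (by omega)

/-- The elements with constant term zero. -/
theorem mem_n {f : Rw P z.z} : ccI I A (rshI z.z f) = 0 ↔ (f : KK I A) ∈ Pol I A (-1) := by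
  constructor
  · intro h i m hm
    rcases lt_or_eq_of_le (show m ≤ 0 by omega) with h1 | h1
    · exact f.2.2 i m (by omega)
    · rw [h1, ← ccI_rshI, h]
      rfl
  · intro h
    funext i
    rw [ccI_rshI]
    exact h i 0 (by omega)

theorem pow_n {f : KK I A} (hf : f ∈ Pol I A (-1)) (n : ℕ) : f ^ n ∈ Pol I A (-(n : ℤ)) := by
  induction n with
  | zero =>
    rw [pow_zero, Nat.cast_zero, neg_zero]
    exact one_mem_Pol0
  | succ n ih =>
    have h := mul_mem_Pol ih hf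
    rw [← pow_succ] at h
    exact Pol_mono (by push_cast; omega) h

/-- `𝔫^d ⊂ w R`. -/
theorem n_dvd {f : Rw P z.z} (hf : (f : KK I A) ∈ Pol I A (-1)) : ww z ∣ f ^ z.d := by
  have h1 : (z.z : KK I A) * (f : KK I A) ^ z.d ∈ Rw P z.z := by
    refine ⟨?_, ?_⟩
    · exact mul_mem (le_Rz P z.z z.z.2) (pow_mem f.2.1 _)
    · have h := mul_mem_Pol z.mon.1 (pow_n hf z.d)
      rw [add_neg_cancel] at h
      exact h
  refine ⟨⟨_, h1⟩, Subtype.ext ?_⟩
  change (f : KK I A) ^ z.d = z.w * ((z.z : KK I A) * (f : KK I A) ^ z.d)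
  rw [← mul_assoc, mul_comm z.w, z.zw, one_mul]

/-- The coordinate: `t = τ + ...` and `f = τ^(-1) + ...`. -/
theorem exists_tf (hden : (∀ (f : KK I A) (M : ℤ), ∃ r ∈ Rz P z.z, f - r ∈ Pol I A (-M)) ∧
      (∀ f ∈ Pol I A 0, ∀ M : ℤ, ∃ r ∈ Rw P z.z, f - r ∈ Pol I A (-M))) :
    ∃ (t : Rw P z.z) (f : KK I A) (h : Rw P z.z), f ∈ Rz P z.z ∧ f ∈ Pol I A 1 ∧
      (h : KK I A) = f * (t : KK I A) ∧ (t : KK I A) ∈ Pol I A (-1) ∧
      (∀ i, ((t : KK I A) i).coeff 1 = 1) ∧ ccI I A (rshI z.z h) = 1 := by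
  have ht1 : (fun _ => HahnSeries.single (1 : ℤ) (1 : A) : KK I A) ∈ Pol I A 0 := by
    intro j l hl
    rw [HahnSeries.coeff_single_of_ne (by omega)]
  obtain ⟨t', ht', ht2⟩ := hden.2 _ ht1 2
  obtain ⟨f, hf, hf2⟩ := hden.1 (fun _ => HahnSeries.single (-1 : ℤ) (1 : A) : KK I A) 0
  have h0 : t' ∈ Pol I A (-1) := by
    intro i m hm
    have h := ht2 i m (by omega)
    rw [Pi.sub_apply, HahnSeries.coeff_sub, HahnSeries.coeff_single_of_ne (by omega), zero_sub,
      neg_eq_zero] at h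
    exact h
  have h1 : ∀ i, (t' i).coeff 1 = 1 := by
    intro i
    have h := ht2 i 1 (by omega)
    rw [Pi.sub_apply, HahnSeries.coeff_sub, HahnSeries.coeff_single_same, sub_eq_zero] at h
    exact h.symm
  have h3 : f ∈ Pol I A 1 := by
    intro i m hm
    have h := hf2 i m (by omega)
    rw [Pi.sub_apply, HahnSeries.coeff_sub, HahnSeries.coeff_single_of_ne (by omega), zero_sub,
      neg_eq_zero] at h
    exact h
  have h4 : ∀ i, (f i).coeff (-1) = 1 := by
    intro i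
    have h := hf2 i (-1) (by omega)
    rw [Pi.sub_apply, HahnSeries.coeff_sub, HahnSeries.coeff_single_same, sub_eq_zero] at h
    exact h.symm
  have h5 : f * t' ∈ Rw P z.z := by
    refine ⟨mul_mem hf ht'.1, ?_⟩
    have h := mul_mem_Pol h3 h0
    rw [add_neg_cancel] at h
    exact h
  refine ⟨⟨t', ht'⟩, f, ⟨_, h5⟩, hf, h3, rfl, h0, h1, ?_⟩
  funext i
  rw [ccI_rshI]
  change ((f * t') i).coeff 0 = 1
  have h6 := mul_Pol_lead h3 h0 i
  rw [add_neg_cancel, neg_zero, h4, neg_neg, h1, one_mul] at h6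
  exact h6

/-- A family of power series with constant coefficients one is a unit. -/
theorem unit_I {s : I → PowerSeries A} (h : ccI I A s = 1) : IsUnit s := by
  rw [Pi.isUnit_iff]
  intro i
  rw [PowerSeries.isUnit_iff_constantCoeff]
  have h1 : PowerSeries.constantCoeff (s i) = 1 := congrFun h i
  rw [h1]
  exact isUnit_one

end ring

section model

variable {I A : Type} [Fintype I] [CommRing A] {P : Subalgebra A (KK I A)} (z : Pole P) {n : ℕ}
  (p : Fin n → (P →ₐ[A] A))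

/-- The range of the first chart in the second chart. -/
theorem range_in1 (y : Sp (Rw P z.z)) :
    xin2 z p y ∈ Set.range (xin z p) ↔ ww z ∉ y.asIdeal := by
  constructor
  · rintro ⟨x, hx⟩
    obtain ⟨q, -, hq⟩ := (kDuo z).meet x y hx
    exact (DBC.range2 (kDuo z) y).1 ⟨q, hq⟩
  · intro hy
    obtain ⟨q, hq⟩ := (DBC.range2 (kDuo z) y).2 hy
    refine ⟨spMap ((kDuo z).j1 : (kDuo z).R1 →+* (kDuo z).R12) q, ?_⟩
    have h1 : (kDuo z).in1 (spMap ((kDuo z).j1 : (kDuo z).R1 →+* (kDuo z).R12) q) =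
        (kDuo z).in2 (spMap ((kDuo z).j2 : (kDuo z).R2 →+* (kDuo z).R12) q) := by
      rw [← Scheme.Hom.comp_apply, ← Scheme.Hom.comp_apply, (kDuo z).cond]
    rw [hq] at h1
    exact h1

omit [Fintype I] in
theorem cmp_gen (D : Duo A) {S T : Type} [CommRing S] [CommRing T] (r2 : D.R2 →+* S)
    (ψ : S →+* T) (r12 : D.R12 →+* T) (r1 : D.R1 →+* T) (h1 : ∀ x, ψ (r2 x) = r12 (D.j2 x))
    (h2 : ∀ x, r1 x = r12 (D.j1 x)) : spMap ψ ≫ (spMap r2 ≫ D.in2) = spMap r1 ≫ D.in1 := by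
  have e1 : ψ.comp r2 = r12.comp (D.j2 : D.R2 →+* D.R12) := RingHom.ext h1
  have e2 : r1 = r12.comp (D.j1 : D.R1 →+* D.R12) := RingHom.ext h2
  rw [← Category.assoc, spMap_comp'', e1, e2, ← spMap_comp'', ← spMap_comp'', Category.assoc,
    Category.assoc, D.cond]

omit [Fintype I] in
theorem shp_gen (D : Duo A) {S : Type} [CommRing S] (r2 : D.R2 →+* S) :
    (spMap r2 ≫ D.in2) ≫ D.pr = spMap (r2.comp (algebraMap A D.R2)) := by
  rw [Category.assoc, D.in2_pr, spMap_comp'']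

theorem cmp' : spMap (psI I A) ≫ xshI z p = spMap (P.val : P →+* KK I A) ≫ xin z p :=
  cmp_gen (kDuo z) (rshI z.z) (psI I A) ((Rz P z.z).val : Rz P z.z →+* KK I A)
    (P.val : P →+* KK I A) (fun x => psI_rshI z x) (fun _ => rfl)

theorem shp' : xshI z p ≫ (xfam z p).π = spMap (algebraMap A (I → PowerSeries A)) := by
  have h2 : (rshI z.z).comp (algebraMap A (Rw P z.z)) = algebraMap A (I → PowerSeries A) :=
    RingHom.ext fun a => rshI_algebraMap z a
  rw [← h2]
  exact shp_gen (kDuo z) (rshI z.z)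

theorem surj_cc (hden : ∀ (f : I → PowerSeries A) (M : ℕ), ∃ r : Rw P z.z, ∀ i, ∀ m < M,
      PowerSeries.coeff m (rsh z.z i r) = PowerSeries.coeff m (f i)) (c : I → A) :
    ∃ r : Rw P z.z, ccI I A (rshI z.z r) = c := by
  obtain ⟨r, hr⟩ := hden (fun i => PowerSeries.C (c i)) 1
  refine ⟨r, funext fun i => ?_⟩
  have h := hr i 0 Nat.zero_lt_one
  rw [PowerSeries.coeff_zero_eq_constantCoeff_apply,
    PowerSeries.coeff_zero_eq_constantCoeff_apply, PowerSeries.constantCoeff_C] at h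
  exact h

theorem cov' (hden : ∀ (f : I → PowerSeries A) (M : ℕ), ∃ r : Rw P z.z, ∀ i, ∀ m < M,
      PowerSeries.coeff m (rsh z.z i r) = PowerSeries.coeff m (f i)) (q : (xfam z p).X) :
    q ∈ Set.range (xin z p) ∨ q ∈ Set.range (spMap (ccI I A) ≫ xshI z p) := by
  rcases (kDuo z).cov q with h | ⟨y, rfl⟩
  · exact Or.inl h
  · by_cases hw : ww z ∈ y.asIdeal
    · right
      have hsur : Function.Surjective ((ccI I A).comp (rshI z.z)) := surj_cc z hden
      have hker : y ∈ PrimeSpectrum.zeroLocus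
          (RingHom.ker ((ccI I A).comp (rshI z.z)) : Set (Rw P z.z)) := by
        intro f hf
        have h1 : (f : KK I A) ∈ Pol I A (-1) := (mem_n z).1 hf
        obtain ⟨g, hg⟩ := n_dvd z h1
        have h2 : f ^ z.d ∈ y.asIdeal := by
          rw [hg]
          exact y.asIdeal.mul_mem_right _ hw
        exact y.isPrime.mem_of_pow_mem _ h2
      rw [← range_comap_of_surjective _ _ hsur] at hker
      obtain ⟨x, hx⟩ := hker
      let x' : Sp (I → A) := x
      refine ⟨x', ?_⟩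
      have h3 : spMap (rshI z.z) (spMap (ccI I A) x') = y := by
        rw [← Scheme.Hom.comp_apply, spMap_comp'']
        exact hx
      have h4 : (spMap (ccI I A) ≫ xshI z p) x' =
          (kDuo z).in2 (spMap (rshI z.z) (spMap (ccI I A) x')) := by
        rw [Scheme.Hom.comp_apply]
        exact Scheme.Hom.comp_apply _ _ _
      rw [h4, h3]
    · left
      exact (range_in1 z p y).2 hw

theorem exc' (q : (xfam z p).X) (hq : q ∈ Set.range (xin z p)) :
    q ∉ Set.range (spMap (ccI I A) ≫ xshI z p) := by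
  rintro ⟨x, hx⟩
  have h4 : (spMap (ccI I A) ≫ xshI z p) x =
      xin2 z p (spMap (rshI z.z) (spMap (ccI I A) x)) := by
    rw [Scheme.Hom.comp_apply]
    exact Scheme.Hom.comp_apply _ _ _
  rw [← hx, h4, range_in1] at hq
  apply hq
  rw [mem_spMap, mem_spMap, cc_ww]
  exact x.asIdeal.zero_mem

end model

section loc

variable {I A : Type} [Fintype I] [CommRing A] {P : Subalgebra A (KK I A)} (z : Pole P) {n : ℕ}
  (p : Fin n → (P →ₐ[A] A)) (t : Rw P z.z) (f : KK I A) (h : Rw P z.z) (hf : f ∈ Rz P z.z)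
  (hf1 : f ∈ Pol I A 1) (hh : (h : KK I A) = f * (t : KK I A)) (ht : (t : KK I A) ∈ Pol I A (-1))
  (ht1 : ∀ i, ((t : KK I A) i).coeff 1 = 1) (hc : ccI I A (rshI z.z h) = 1)

include hf hf1 hh in
/-- `h s = t (f s)`. -/
theorem t_dvd {s : Rw P z.z} (hs : (s : KK I A) ∈ Pol I A (-1)) : ∃ r, h * s = t * r := by
  have h1 : f * (s : KK I A) ∈ Rw P z.z := by
    refine ⟨mul_mem hf s.2.1, ?_⟩
    have h := mul_mem_Pol hf1 hs
    rw [add_neg_cancel] at h
    exact h
  refine ⟨⟨_, h1⟩, Subtype.ext ?_⟩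
  change (h : KK I A) * (s : KK I A) = (t : KK I A) * (f * (s : KK I A))
  rw [hh]
  ring

include hh hc in
theorem unit_h : IsUnit (h : KK I A) ∧ IsUnit (t : KK I A) := by
  have h1 : IsUnit (h : KK I A) := by
    rw [← psI_rshI z h]
    exact (unit_I hc).map (psI I A)
  refine ⟨h1, ?_⟩
  rw [hh] at h1
  exact isUnit_of_mul_isUnit_right h1

include ht hf hf1 hh in
/-- `D(t) = D(w)` on `D(h)`. -/
theorem t_w (y : Sp (Rw P z.z)) (hy : h ∉ y.asIdeal) : t ∈ y.asIdeal ↔ ww z ∈ y.asIdeal := by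
  constructor
  · intro h1
    obtain ⟨r, hr⟩ := t_dvd z t f h hf hf1 hh (s := ww z) ((mem_n z).1 (cc_ww z))
    have h2 : h * ww z ∈ y.asIdeal := by
      rw [hr]
      exact y.asIdeal.mul_mem_right _ h1
    exact (y.isPrime.mem_or_mem h2).resolve_left hy
  · intro h1
    obtain ⟨g, hg⟩ := n_dvd z ht
    have h2 : t ^ z.d ∈ y.asIdeal := by
      rw [hg]
      exact y.asIdeal.mul_mem_right _ h1
    exact y.isPrime.mem_of_pow_mem _ h2

/-- The chart `D(h)`. -/
noncomputable def ii : Sp (Localization.Away h) ⟶ (xfam z p).X :=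
  spMap (algebraMap (Rw P z.z) (Localization.Away h)) ≫ xin2 z p

instance : IsOpenImmersion (ii z p h) := by
  unfold ii
  infer_instance

/-- The expansion of functions on `D(h)`. -/
noncomputable def th : Localization.Away h →+* (I → PowerSeries A) :=
  IsLocalization.Away.lift h (g := rshI z.z) (unit_I hc)

theorem th_alg (v : Rw P z.z) :
    th z h hc (algebraMap (Rw P z.z) (Localization.Away h) v) = rshI z.z v :=
  IsLocalization.Away.lift_eq _ _ _

theorem sh_eq : xshI z p = spMap (th z h hc) ≫ ii z p h := by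
  have h1 : (th z h hc).comp (algebraMap (Rw P z.z) (Localization.Away h)) = rshI z.z :=
    RingHom.ext fun v => th_alg z h hc v
  rw [ii, ← Category.assoc, spMap_comp'', h1]
  rfl

include hf hf1 hh ht ht1 hc in
theorem loc' (hden : ∀ (f : I → PowerSeries A) (M : ℕ), ∃ r : Rw P z.z, ∀ i, ∀ m < M,
      PowerSeries.coeff m (rsh z.z i r) = PowerSeries.coeff m (f i)) :
    ∃ (V : (xfam z p).X.Opens) (t : Γ((xfam z p).X, V)) (le : ⊤ ≤ xshI z p ⁻¹ᵁ V),
      IsAffineOpen V ∧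
      ((xfam z p).X.basicOpen t : Set (xfam z p).X) = Set.range (xin z p) ∩ V ∧
      (∀ v, t * v = 0 → v = 0) ∧
      (∃ u : I → PowerSeries A, IsUnit u ∧
        gm (xshI z p) V le t = (fun _ => PowerSeries.X) * u) ∧
      (∀ v, ccI I A (gm (xshI z p) V le v) = 0 → ∃ r, v = t * r) ∧
      ∀ c : I → A, ∃ v, ccI I A (gm (xshI z p) V le v) = c := by
  let L := Localization.Away h
  let i : Sp L ⟶ (xfam z p).X := ii z p h
  let V : (xfam z p).X.Opens := i.opensRange
  have le' : ⊤ ≤ i ⁻¹ᵁ V := fun y _ => ⟨y, rfl⟩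
  have le : ⊤ ≤ xshI z p ⁻¹ᵁ V := by
    intro y _
    refine ⟨spMap (th z h hc) y, ?_⟩
    change ii z p h (spMap (th z h hc) y) = xshI z p y
    rw [sh_eq z p h hc, Scheme.Hom.comp_apply]
  have hb : Function.Bijective (gm i V le') := gm_bij i V le' rfl
  have hg : ∀ v, gm (xshI z p) V le v = th z h hc (gm i V le' v) :=
    fun v => gm_comp i (th z h hc) (xshI z p) (sh_eq z p h hc) V le' le v
  obtain ⟨t', ht'⟩ := hb.2 (algebraMap (Rw P z.z) L t)
  have hu : IsUnit (algebraMap (Rw P z.z) L h) :=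
    IsLocalization.Away.algebraMap_isUnit (S := L) h
  have hun := unit_h z t f h hh hc
  refine ⟨V, t', le, isAffineOpen_opensRange i, ?_, ?_, ?_, ?_, ?_⟩
  · ext x
    constructor
    · intro hx
      have hxV : x ∈ V := (xfam z p).X.basicOpen_le t' hx
      refine ⟨?_, hxV⟩
      obtain ⟨y, rfl⟩ := hxV
      have h1 : gm i V le' t' ∉ y.asIdeal := (mem_basic i V le' t' y).1 hx
      rw [ht'] at h1
      have h2 : i y = xin2 z p (spMap (algebraMap (Rw P z.z) L) y) := Scheme.Hom.comp_apply _ _ _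
      rw [h2, range_in1]
      rw [← t_w z t f h hf hf1 hh ht (spMap (algebraMap (Rw P z.z) L) y)]
      · exact h1
      · intro h3
        exact y.isPrime.ne_top (Ideal.eq_top_of_isUnit_mem _ h3 hu)
    · rintro ⟨hx, y, rfl⟩
      have h2 : i y = xin2 z p (spMap (algebraMap (Rw P z.z) L) y) := Scheme.Hom.comp_apply _ _ _
      rw [h2, range_in1] at hx
      refine (mem_basic i V le' t' y).2 ?_
      rw [ht']
      intro h1
      apply hx
      rw [← t_w z t f h hf hf1 hh ht (spMap (algebraMap (Rw P z.z) L) y)]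
      · exact h1
      · intro h3
        exact y.isPrime.ne_top (Ideal.eq_top_of_isUnit_mem _ h3 hu)
  · intro v hv
    apply hb.1
    rw [map_zero]
    have h1 := congrArg (gm i V le') hv
    rw [map_mul, ht', map_zero] at h1
    obtain ⟨m, a, ha⟩ := IsLocalization.Away.surj (S := L) h (gm i V le' v)
    have h2 : algebraMap (Rw P z.z) L (t * a) = 0 := by
      rw [map_mul, ← ha, ← mul_assoc, h1, zero_mul]
    rw [IsLocalization.map_eq_zero_iff (Submonoid.powers h)] at h2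
    obtain ⟨⟨_, k, rfl⟩, hk⟩ := h2
    have h3 : (h : KK I A) ^ k * ((t : KK I A) * (a : KK I A)) = 0 :=
      congrArg Subtype.val hk
    have h4 : (a : KK I A) = 0 := by
      have h5 := (hun.1.pow k).mul_left_cancel (h3.trans (mul_zero _).symm)
      exact hun.2.mul_left_cancel (h5.trans (mul_zero _).symm)
    have h5 : a = 0 := Subtype.ext h4
    rw [h5, map_zero] at ha
    have h6 : IsUnit (algebraMap (Rw P z.z) L h ^ m) := hu.pow m
    exact h6.mul_right_cancel (ha.trans (zero_mul _).symm)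
  · have h1 : ∀ j, PowerSeries.X ∣ rshI z.z t j := by
      intro j
      rw [PowerSeries.X_dvd_iff]
      exact congrFun ((mem_n z).2 ht) j
    choose u hu' using h1
    refine ⟨u, ?_, ?_⟩
    · refine unit_I (funext fun j => ?_)
      have h2 : PowerSeries.coeff 1 (rshI z.z t j) = 1 := by
        rw [← psl_coeff, Nat.cast_one, ← ht1 j, ← psI_rshI z t]
        rfl
      rw [hu' j] at h2
      have h3 : PowerSeries.coeff (0 + 1) (PowerSeries.X * u j) = PowerSeries.coeff 0 (u j) :=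
        PowerSeries.coeff_succ_X_mul 0 (u j)
      rw [zero_add, h2, PowerSeries.coeff_zero_eq_constantCoeff_apply] at h3
      exact h3.symm
    · rw [hg, ht', th_alg]
      funext j
      exact hu' j
  · intro v hv
    rw [hg] at hv
    obtain ⟨m, a, ha⟩ := IsLocalization.Away.surj (S := L) h (gm i V le' v)
    have h1 : ccI I A (rshI z.z a) = 0 := by
      rw [← th_alg z h hc a, ← ha, map_mul, map_mul, hv, zero_mul]
    obtain ⟨r, hr⟩ := t_dvd z t f h hf hf1 hh ((mem_n z).1 h1)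
    have h6 : IsUnit (algebraMap (Rw P z.z) L h ^ (m + 1)) := hu.pow (m + 1)
    obtain ⟨b, hb'⟩ := h6.exists_right_inv
    obtain ⟨r', hr'⟩ := hb.2 (algebraMap (Rw P z.z) L r * b)
    refine ⟨r', hb.1 ?_⟩
    rw [map_mul, ht', hr', ← mul_assoc, ← map_mul, ← hr, map_mul, ← ha]
    calc gm i V le' v = gm i V le' v * (algebraMap (Rw P z.z) L h ^ (m + 1) * b) := by
          rw [hb', mul_one]
      _ = _ := by rw [pow_succ]; ring
  · intro c
    obtain ⟨r, hr⟩ := surj_cc z hden c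
    obtain ⟨v, hv⟩ := hb.2 (algebraMap (Rw P z.z) L r)
    exact ⟨v, by rw [hg, hv, th_alg, hr]⟩

end loc

end MCA

theorem t_MCA (hDEN : Stmt_DEN) : Stmt_MCA := by
  intro I A _ _ _ g n P hP z p
  obtain ⟨d1, d2, d3⟩ := hDEN hP z
  obtain ⟨t, f, h, hf, hf1, hh, ht, ht1, hc⟩ := MCA.exists_tf z ⟨d1, d2⟩
  exact ⟨{  j := xin z p
            jo := inferInstance
            jp := (kDuo z).in1_pr
            sh := xshI z p
            shp := MCA.shp' z p
            cmp := MCA.cmp' z p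
            cov := MCA.cov' z p d3
            exc := MCA.exc' z p
            mrk := fun i => rfl
            loc := MCA.loc' z p t f h hf hf1 hh ht ht1 hc d3 }, ⟨rfl, rfl⟩⟩

end Pool.Agent.MG.KX


end

section

/-!
# MOC: composition, cancellation, uniqueness of base changes of models
-/

open CategoryTheory CategoryTheory.Limits AlgebraicGeometry
open scoped TensorProduct

namespace Pool.Agent.MG.KX

open Pool.Agent.MG.G0 Pool.Agent.MG.GLU

namespace MOC

variable {I A B C : Type} [CommRing A] [CommRing B] [CommRing C]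

theorem psm_comp (φ : A →+* B) (ψ : B →+* C) :
    (psm I ψ).comp (psm I φ) = psm I (ψ.comp φ) := by
  refine RingHom.ext fun f => funext fun i => ?_
  change PowerSeries.map ψ (PowerSeries.map φ (f i)) = PowerSeries.map (ψ.comp φ) (f i)
  rw [PowerSeries.map_comp]
  rfl

theorem psm_alg (φ : A →+* B) : (psm I φ).comp (algebraMap A (I → PowerSeries A)) =
    (algebraMap B (I → PowerSeries B)).comp φ := by
  refine RingHom.ext fun a => funext fun i => ?_
  change PowerSeries.map φ (algebraMap A (PowerSeries A) a) = algebraMap B (PowerSeries B) (φ a)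
  rw [PowerSeries.algebraMap_apply, PowerSeries.algebraMap_apply, PowerSeries.map_C]
  rfl

theorem rres_comp (φ : A →+* B) (ψ : B →+* C) {P : Subalgebra A (KK I A)}
    {P' : Subalgebra B (KK I B)} {P'' : Subalgebra C (KK I C)} (h : ∀ f ∈ P, kmap φ f ∈ P')
    (h' : ∀ f ∈ P', kmap ψ f ∈ P'') (h'' : ∀ f ∈ P, kmap (ψ.comp φ) f ∈ P'') :
    (rres (kmap ψ) h').comp (rres (kmap φ) h) = rres (kmap (ψ.comp φ)) h'' :=
  RingHom.ext fun _ => Subtype.ext rfl

theorem rres_alg (φ : A →+* B) {P : Subalgebra A (KK I A)} {P' : Subalgebra B (KK I B)}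
    (h : ∀ f ∈ P, kmap φ f ∈ P') :
    (rres (kmap φ) h).comp (algebraMap A P) = (algebraMap B P').comp φ :=
  RingHom.ext fun a => Subtype.ext (kmap_algebraMap φ a)

end MOC

open _root_.Pool.Agent.MG.KX.MOC in
theorem t_MOC : Stmt_MOC := by
  refine ⟨?_, ?_⟩
  · intro I A B C _ _ _ n φ ψ χ P p P' p' P'' p'' x y w a b c M M' M'' hχ hf hM
    subst hχ
    refine ⟨fun h => ?_, fun h hm => ?_⟩
    · have mem : ∀ f ∈ P, kmap (ψ.comp φ) f ∈ P'' := fun f hf => h.mem _ (hM.mem f hf)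
      refine ⟨mem, ?_, ?_⟩
      · rw [← hf, ← Category.assoc, h.j, Category.assoc, hM.j, ← Category.assoc, spMap_comp'',
          rres_comp φ ψ hM.mem h.mem mem]
      · rw [← hf, ← Category.assoc, h.sh, Category.assoc, hM.sh, ← Category.assoc, spMap_comp'',
          psm_comp]
    · refine ⟨hm, a.cart.hom_ext ?_ ?_, a.cart.hom_ext ?_ ?_⟩
      · rw [Category.assoc, hf, h.j, Category.assoc, hM.j, ← Category.assoc, spMap_comp'',
          rres_comp φ ψ hM.mem hm h.mem]
      · rw [Category.assoc, b.cart.w, ← Category.assoc, M''.jp, Category.assoc, M'.jp,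
          spMap_comp'', spMap_comp'', rres_alg]
      · rw [Category.assoc, hf, h.sh, Category.assoc, hM.sh, ← Category.assoc, spMap_comp'',
          psm_comp]
      · rw [Category.assoc, b.cart.w, ← Category.assoc, M''.shp, Category.assoc, M'.shp,
          spMap_comp'', spMap_comp'', psm_alg]
  · intro I A B _ _ n φ P p P' p' x y a M M' M'' h h'
    refine ⟨a.cart.hom_ext ?_ ?_, a.cart.hom_ext ?_ ?_⟩
    · rw [h.j, h'.j]
    · rw [M'.jp, M''.jp]
    · rw [h.sh, h'.sh]
    · rw [M'.shp, M''.shp]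

end Pool.Agent.MG.KX


end

section

/-!
# Change of the index set of a model

The module MRX.
-/

open CategoryTheory CategoryTheory.Limits AlgebraicGeometry
open scoped TensorProduct

namespace Pool.Agent.MG.KX

open Pool.Agent.MG.G0 Pool.Agent.MG.GLU

namespace MRX

theorem sp_inv {A B : Type} [CommRing A] [CommRing B] (f : A →+* B) (g : B →+* A)
    (h1 : f.comp g = RingHom.id B) (h2 : g.comp f = RingHom.id A) : IsIso (spMap f) := by
  refine ⟨spMap g, ?_, ?_⟩
  · rw [spMap_comp'', h1]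
    exact Spec.map_id _
  · rw [spMap_comp'', h2]
    exact Spec.map_id _

theorem range_iso {X Y Z : Scheme.{0}} (g : X ⟶ Y) (f : Y ⟶ Z) [IsIso g] :
    Set.range (g ≫ f) = Set.range f := by
  ext q
  constructor
  · rintro ⟨x, rfl⟩
    exact ⟨g x, rfl⟩
  · rintro ⟨y, rfl⟩
    refine ⟨(inv g) y, ?_⟩
    have h : inv g ≫ g ≫ f = f := by rw [IsIso.inv_hom_id_assoc]
    have h1 : (inv g ≫ g ≫ f) y = f y := by rw [h]
    exact h1

section

variable {I I' : Type} {A B : Type} [CommRing A] [CommRing B]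

/-- The ring homomorphism `P → reix e P`. -/
noncomputable abbrev rr (e : I' ≃ I) (P : Subalgebra A (KK I A)) : P →+* reix e P :=
  rres (idx e) (P' := reix e P) fun _ hf => idx_mem_reix e hf

/-- Its inverse. -/
noncomputable def ss (e : I' ≃ I) (P : Subalgebra A (KK I A)) : reix e P →+* P :=
  rres (idx e.symm) (P' := P) fun _ hf => hf

theorem iso_rr (e : I' ≃ I) (P : Subalgebra A (KK I A)) : IsIso (spMap (rr e P)) := by
  refine sp_inv _ (ss e P) ?_ ?_
  · ext f : 1
    refine Subtype.ext (funext fun i => ?_)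
    change (f : KK I' A) (e.symm (e i)) = (f : KK I' A) i
    rw [Equiv.symm_apply_apply]
  · ext f : 1
    refine Subtype.ext (funext fun i => ?_)
    change (f : KK I A) (e (e.symm i)) = (f : KK I A) i
    rw [Equiv.apply_symm_apply]

theorem iso_idx {R : Type} [CommRing R] (e : I' ≃ I) : IsIso (spMap (idx (R := R) e)) := by
  refine sp_inv _ (idx (R := R) e.symm) ?_ ?_
  · ext f i
    change f (e.symm (e i)) = f i
    rw [Equiv.symm_apply_apply]
  · ext f i
    change f (e (e.symm i)) = f i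
    rw [Equiv.apply_symm_apply]

theorem range_cc {x : Scheme.{0}} (e : I' ≃ I) (sh : Sp (I → PowerSeries A) ⟶ x) :
    Set.range (spMap (ccI I' A) ≫ spMap (idx e) ≫ sh) = Set.range (spMap (ccI I A) ≫ sh) := by
  have h : (ccI I' A).comp (idx e) = (idx e).comp (ccI I A) := rfl
  have h1 : spMap (ccI I' A) ≫ spMap (idx e) ≫ sh =
      spMap (idx (R := A) e) ≫ spMap (ccI I A) ≫ sh := by
    rw [← Category.assoc, ← Category.assoc, spMap_comp'', spMap_comp'', h]
  have := iso_idx (R := A) e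
  rw [h1, range_iso]

end

theorem exists_model {I I' A : Type} [CommRing A] {n : ℕ} {P : Subalgebra A (KK I A)}
    {p : Fin n → (P →ₐ[A] A)} {x : Fam n A} (e : I' ≃ I) (M : Mod x P p)
    (p' : Fin n → (reix e P →ₐ[A] A))
    (hp : ∀ i (f : P), p' i ⟨idx e (f : KK I A), idx_mem_reix e f.2⟩ = p i f) :
    ∃ M' : Mod x (reix e P) p', M.IsReix e M' := by
  have i1 := iso_rr e P
  have i2 := M.jo
  have hj : Set.range (spMap (rr e P) ≫ M.j) = Set.range M.j := range_iso _ _
  refine ⟨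
    { j := spMap (rr e P) ≫ M.j
      jo := inferInstance
      jp := ?_
      sh := spMap (idx e) ≫ M.sh
      shp := ?_
      cmp := ?_
      cov := ?_
      exc := ?_
      mrk := ?_
      loc := ?_ }, ⟨rfl, rfl⟩⟩
  · rw [Category.assoc, M.jp, spMap_comp'']
    rfl
  · rw [Category.assoc, M.shp, spMap_comp'']
    rfl
  · have h1 : (psI I' A).comp (idx e) = (idx e).comp (psI I A) := rfl
    have h2 : ((reix e P).val : reix e P →+* KK I' A).comp (rr e P) =
      (idx e).comp (P.val : P →+* KK I A) := rfl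
    rw [← Category.assoc, ← Category.assoc, spMap_comp'', spMap_comp'', h1, h2, ← spMap_comp'',
      ← spMap_comp'', Category.assoc, Category.assoc, M.cmp]
  · intro q
    rw [hj, range_cc]
    exact M.cov q
  · intro q
    rw [hj, range_cc]
    exact M.exc q
  · intro i
    have h1 : (p' i : reix e P →+* A).comp (rr e P) = (p i : P →+* A) :=
      RingHom.ext fun f => hp i f
    rw [← Category.assoc, spMap_comp'', h1]
    exact M.mrk i
  · obtain ⟨V, t, le, hV, hb, hz, ⟨u, hu, hut⟩, hk, hs⟩ := M.loc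
    have le' : ⊤ ≤ (spMap (idx (R := PowerSeries A) e) ≫ M.sh) ⁻¹ᵁ V := fun y _ =>
      le (show (spMap (idx (R := PowerSeries A) e) y) ∈ (⊤ : (Sp (I → PowerSeries A)).Opens) from
        trivial)
    have hg : ∀ v, gm (spMap (idx (R := PowerSeries A) e) ≫ M.sh) V le' v =
        idx e (gm M.sh V le v) := fun v => gm_comp M.sh (idx e) _ rfl V le le' v
    have hc : ∀ v, ccI I' A (gm (spMap (idx (R := PowerSeries A) e) ≫ M.sh) V le' v) =
        idx e (ccI I A (gm M.sh V le v)) := fun v => by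
      rw [hg]
      rfl
    refine ⟨V, t, le', hV, by rw [hj]; exact hb, hz, ⟨idx e u, hu.map _, ?_⟩, ?_, ?_⟩
    · rw [hg, hut, map_mul]
      rfl
    · intro v hv
      refine hk v ?_
      rw [hc] at hv
      funext i
      have h1 := congrFun hv (e.symm i)
      rw [idx_apply, Equiv.apply_symm_apply] at h1
      exact h1
    · intro c
      obtain ⟨v, hv⟩ := hs (idx e.symm c)
      refine ⟨v, ?_⟩
      rw [hc, hv]
      funext i
      rw [idx_apply, idx_apply, Equiv.symm_apply_apply]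

theorem over_reix {I I' A B : Type} [CommRing A] [CommRing B] {n : ℕ}
    {P : Subalgebra A (KK I A)} {p : Fin n → (P →ₐ[A] A)} {P' : Subalgebra B (KK I B)}
    {p' : Fin n → (P' →ₐ[B] B)} {x : Fam n A} {y : Fam n B} {φ : A →+* B} (a : Arrow φ y x)
    (e : I' ≃ I) (M : Mod x P p) (M' : Mod y P' p') (q : Fin n → (reix e P →ₐ[A] A))
    (q' : Fin n → (reix e P' →ₐ[B] B)) (N : Mod x (reix e P) q) (N' : Mod y (reix e P') q')
    (hN : M.IsReix e N) (hN' : M'.IsReix e N') (ho : M.Over a M') : N.Over a N' := by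
  have mem : ∀ f ∈ reix e P, kmap φ f ∈ reix e P' := fun f hf => ho.mem _ hf
  refine ⟨mem, ?_, ?_⟩
  · have h : (rr e P').comp (rres (kmap φ) ho.mem) =
      (rres (kmap φ) (P := reix e P) (P' := reix e P') mem).comp (rr e P) := rfl
    rw [hN'.j, hN.j, Category.assoc, ho.j, ← Category.assoc, ← Category.assoc, spMap_comp'',
      spMap_comp'']
    exact congrArg (fun g => spMap g ≫ M.j) h
  · have h : (idx (R := PowerSeries B) e).comp (psm I φ) =
      (psm I' φ).comp (idx (R := PowerSeries A) e) := rfl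
    rw [hN'.sh, hN.sh, Category.assoc, ho.sh, ← Category.assoc, ← Category.assoc, spMap_comp'',
      spMap_comp'', h]

end MRX

/-- Change of the index set of a model. -/
theorem t_MRX : Stmt_MRX :=
  ⟨fun e M p' hp => MRX.exists_model e M p' hp,
    fun a e M M' q q' N N' hN hN' ho => MRX.over_reix a e M M' q q' N N' hN hN' ho⟩

end Pool.Agent.MG.KX


end

section

/-!
# MXT: an arrow from the curve of a Krichever ring is determined by its effect on a model

Two morphisms to a separated scheme which agree on the first chart agree on the second, because the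
ring of the second chart embeds in the ring of the intersection.
-/

open CategoryTheory CategoryTheory.Limits AlgebraicGeometry
open scoped TensorProduct

namespace Pool.Agent.MG.KX

open Pool.Agent.MG.G0 Pool.Agent.MG.GLU

namespace MXT

/-- Morphisms from an affine scheme to a separated scheme which agree after an injective
homomorphism of rings. -/
theorem ext_inj {R S : Type} [CommRing R] [CommRing S] (j : R →+* S) (hj : Function.Injective j)
    {X Z : Scheme.{0}} (s : X ⟶ Z) [IsSeparated s] {f g : Sp R ⟶ X} (h : f ≫ s = g ≫ s)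
    (hU : spMap j ≫ f = spMap j ≫ g) : f = g := by
  let X' : Over Z := Over.mk (f ≫ s)
  let Y' : Over Z := Over.mk s
  let U' : Over Z := Over.mk (spMap j ≫ f ≫ s)
  let f' : X' ⟶ Y' := Over.homMk f
  let g' : X' ⟶ Y' := Over.homMk g h.symm
  let ι' : U' ⟶ X' := Over.homMk (spMap j)
  have : IsSeparated Y'.hom := ‹_›
  have hc : ι' ≫ f' = ι' ≫ g' := by
    ext1
    exact hU
  let l : Sp S ⟶ (equalizer f' g').left := (equalizer.lift ι' hc).left
  let i : (equalizer f' g').left ⟶ Sp R := (equalizer.ι f' g').left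
  have hl : l ≫ i = spMap j := by
    change (equalizer.lift ι' hc).left ≫ (equalizer.ι f' g').left = _
    rw [← Over.comp_left, equalizer.lift_ι]
    rfl
  have hi : IsClosedImmersion i := inferInstanceAs (IsClosedImmersion (equalizer.ι f' g').left)
  have he : i ≫ f = i ≫ g := congrArg CommaMorphism.left (equalizer.condition f' g')
  obtain ⟨I, e, hie⟩ := IsClosedImmersion.Spec_iff.1 hi
  obtain ⟨θ, hθ⟩ := Spec.map_surjective (l ≫ e.hom)
  have hI : ∀ r ∈ I, r = 0 := by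
    intro r hr
    refine hj ?_
    rw [map_zero]
    have h1 : Spec.map (CommRingCat.ofHom (Ideal.Quotient.mk I) ≫ θ) =
        Spec.map (CommRingCat.ofHom j) := by
      rw [Spec.map_comp, hθ, Category.assoc, ← hie]
      exact hl
    have h2 := Spec.map_injective h1
    have h3 := ConcreteCategory.congr_hom h2 r
    have h4 : θ.hom (Ideal.Quotient.mk I r) = j r := h3
    rw [← h4, Ideal.Quotient.eq_zero_iff_mem.2 hr, map_zero]
  have hiso : IsIso (CommRingCat.ofHom (Ideal.Quotient.mk I)) := by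
    rw [ConcreteCategory.isIso_iff_bijective]
    refine ⟨?_, Ideal.Quotient.mk_surjective⟩
    intro a b hab
    have hab' : Ideal.Quotient.mk I a = Ideal.Quotient.mk I b := hab
    have h5 := hI _ (Ideal.Quotient.eq.1 hab')
    exact sub_eq_zero.1 h5
  have hi2 : IsIso i := by
    rw [hie]
    infer_instance
  exact (cancel_epi i).1 he

/-- The same for a scheme with two affine charts. -/
theorem duo_ext {B : Type} [CommRing B] (D : Duo B) (hj : Function.Injective D.j2)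
    {X Z : Scheme.{0}} (s : X ⟶ Z) [IsSeparated s] {f g : D.X ⟶ X} (h : f ≫ s = g ≫ s)
    (e1 : D.in1 ≫ f = D.in1 ≫ g) : f = g := by
  refine Duo.ext e1 ?_
  refine ext_inj (D.j2 : D.R2 →+* D.R12) hj s ?_ ?_
  · rw [Category.assoc, Category.assoc, h]
  · rw [← Category.assoc, ← Category.assoc, ← D.cond, Category.assoc, Category.assoc, e1]

end MXT

theorem t_MXT : Stmt_MXT := by
  intro I A B _ _ _ _ g n φ Q q P p x z a b M M' _ hx hM' h1 h2
  have hs : IsSeparated x.π := hx.toIsSeparated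
  have e0 : a.f ≫ x.π = b.f ≫ x.π := a.cart.w.trans b.cart.w.symm
  have e1 : xin z p ≫ a.f = xin z p ≫ b.f := by
    have h3 : M'.j ≫ a.f = M'.j ≫ b.f := h1.j.trans h2.j.symm
    rw [hM'.j] at h3
    exact h3
  exact MXT.duo_ext (kDuo z) (Subalgebra.inclusion_injective inf_le_left) x.π e0 e1

end Pool.Agent.MG.KX


end
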