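import Mathlib
import Pool.Agent.KDM.C04
import Pool.Agent.KDM.C08
import Pool.Agent.KDM.C11
import Pool.Agent.KDM.C12
import Pool.Agent.KDM.C30
import Pool.Agent.KDM.C33
import Pool.Agent.KDM.C39

/-! Parts: MG.WL.CL.StmtsL, MG.H2.EPD1, MG.H2.EPDA, MG.KX.KMK, MG.KX.KNN, MG.KX.PDS, MG.G0.ZBA -/

section

/-!
# Local rings of nodal curves: statements
-/

open CategoryTheory AlgebraicGeometry IsLocalRing

namespace Pool.Agent.MG.WL.CL

/-- The properties of the local rings of a nodal curve: reduced, Noetherian, every prime ideal is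
minimal or maximal, and if there are two minimal primes then these are all and their sum is the
maximal ideal. -/
structure NodeLoc (R : Type) [CommRing R] [IsLocalRing R] : Prop where
  red : IsReduced R
  noeth : IsNoetherianRing R
  dim : ∀ P : Ideal R, P.IsPrime → P ∈ minimalPrimes R ∨ P = maximalIdeal R
  sum : ∀ P₁ ∈ minimalPrimes R, ∀ P₂ ∈ minimalPrimes R, P₁ ≠ P₂ → P₁ ⊔ P₂ = maximalIdeal R
  two : ∀ P₁ ∈ minimalPrimes R, ∀ P₂ ∈ minimalPrimes R, P₁ ≠ P₂ → ∀ P₃ ∈ minimalPrimes R,
    P₃ = P₁ ∨ P₃ = P₂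

/-- L: the local rings of a nodal curve. -/
def Stmt_L : Prop :=
  ∀ {k : Type} [Field k] {X : Scheme.{0}} (π : X ⟶ Sp k), Nodal π →
    ∀ x : X, NodeLoc (X.presheaf.stalk x)

/-- LS: every point of a nodal curve is in the closure of points with the following property
arbitrarily ...: every nonempty open subset contains a nonempty open subset which is smooth over
`k`. -/
def Stmt_LS : Prop :=
  ∀ {k : Type} [Field k] {X : Scheme.{0}} (π : X ⟶ Sp k), Nodal π → ∀ W : X.Opens, Nonempty W →
    ∃ V : X.Opens, Nonempty V ∧ V ≤ W ∧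
      ∀ x ∈ V, IsDomain (X.presheaf.stalk x) ∧ IsPrincipalIdealRing (X.presheaf.stalk x)

end Pool.Agent.MG.WL.CL


end

section

/-!
# Point data of genus two: pole orders
-/

open Polynomial

namespace Pool.Agent.MG.H2

namespace PD

variable {k R1 R2 R12 : Type} [Field k] [CommRing R1] [CommRing R2] [CommRing R12]
  (D : PD k R1 R2 R12)

/-- `r` has a pole of order at most `n`, with leading coefficient `c`. -/
def Ord (n : ℕ) (r : R1) (c : k) : Prop := ∃ s, D.j2 D.z ^ n * D.j1 r = D.j2 s ∧ D.ev s = c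

variable {D}

lemma zn (n : ℕ) : D.j2 D.z ^ n * D.zi ^ n = 1 := by
  rw [← mul_pow, D.hz, one_pow]

lemma cancel {a b : R12} (h : D.j2 D.z * a = D.j2 D.z * b) : a = b := by
  have h1 : D.zi * D.j2 D.z = 1 := by rw [mul_comm, D.hz]
  calc a = D.zi * D.j2 D.z * a := by rw [h1, one_mul]
    _ = D.zi * D.j2 D.z * b := by rw [mul_assoc, h, mul_assoc]
    _ = b := by rw [h1, one_mul]

lemma Ord.uniq {n : ℕ} {r : R1} {c c' : k} (h : D.Ord n r c) (h' : D.Ord n r c') : c = c' := by
  obtain ⟨s, h1, h2⟩ := h
  obtain ⟨s', h1', h2'⟩ := h'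
  rw [← h2, ← h2', D.inj2 (h1.symm.trans h1')]

lemma Ord.add {n : ℕ} {r r' : R1} {c c' : k} (h : D.Ord n r c) (h' : D.Ord n r' c') :
    D.Ord n (r + r') (c + c') := by
  obtain ⟨s, h1, h2⟩ := h
  obtain ⟨s', h1', h2'⟩ := h'
  exact ⟨s + s', by rw [map_add, map_add, mul_add, h1, h1'], by rw [map_add, h2, h2']⟩

lemma Ord.mul {n m : ℕ} {r r' : R1} {c c' : k} (h : D.Ord n r c) (h' : D.Ord m r' c') :
    D.Ord (n + m) (r * r') (c * c') := by
  obtain ⟨s, h1, h2⟩ := h
  obtain ⟨s', h1', h2'⟩ := h'
  exact ⟨s * s', by rw [map_mul, map_mul, ← h1, ← h1', pow_add]; ring, by rw [map_mul, h2, h2']⟩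

lemma ord_const (c : k) : D.Ord 0 (D.c1 c) c :=
  ⟨D.c2 c, by rw [pow_zero, one_mul, D.jc1, D.jc2], D.evc c⟩

lemma ord_one : D.Ord 0 1 1 := by
  have := ord_const (D := D) 1
  rwa [map_one] at this

lemma Ord.smul {n : ℕ} {r : R1} {c : k} (h : D.Ord n r c) (d : k) :
    D.Ord n (D.c1 d * r) (d * c) := by
  have := (ord_const d).mul h
  rwa [zero_add] at this

lemma Ord.neg {n : ℕ} {r : R1} {c : k} (h : D.Ord n r c) : D.Ord n (-r) (-c) := by
  have := h.smul (-1)
  rwa [map_neg, map_one, neg_one_mul, neg_one_mul] at this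

lemma Ord.sub {n : ℕ} {r r' : R1} {c c' : k} (h : D.Ord n r c) (h' : D.Ord n r' c') :
    D.Ord n (r - r') (c - c') := by
  have := h.add h'.neg
  rwa [← sub_eq_add_neg, ← sub_eq_add_neg] at this

lemma Ord.pow {n : ℕ} {r : R1} {c : k} (h : D.Ord n r c) (m : ℕ) :
    D.Ord (n * m) (r ^ m) (c ^ m) := by
  induction m with
  | zero => simpa using ord_one (D := D)
  | succ m ih =>
    rw [pow_succ, pow_succ, Nat.mul_succ]
    exact ih.mul h

lemma Ord.succ {n : ℕ} {r : R1} {c : k} (h : D.Ord n r c) : D.Ord (n + 1) r 0 := by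
  obtain ⟨s, h1, h2⟩ := h
  exact ⟨D.z * s, by rw [pow_succ, map_mul, ← h1]; ring, by rw [map_mul, D.evz, zero_mul]⟩

lemma Ord.mono {n m : ℕ} {r : R1} {c : k} (h : D.Ord n r c) (hnm : n < m) : D.Ord m r 0 := by
  induction m, hnm using Nat.le_induction with
  | base => exact h.succ
  | succ m _ ih => exact ih.succ

lemma Ord.pred {n : ℕ} {r : R1} (h : D.Ord (n + 1) r 0) : ∃ c, D.Ord n r c := by
  obtain ⟨s, h1, h2⟩ := h
  obtain ⟨s', rfl⟩ := D.evk s h2
  refine ⟨D.ev s', s', ?_, rfl⟩
  apply cancel (D := D)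
  rw [← map_mul, ← h1, pow_succ]
  ring

lemma ord_exists (r : R1) : ∃ n c, D.Ord n r c := by
  obtain ⟨n, s, h⟩ := D.loc (D.j1 r)
  exact ⟨n, D.ev s, s, h, rfl⟩

lemma Ord.eq_const {r : R1} {c : k} (h : D.Ord 0 r c) : r = D.c1 c := by
  obtain ⟨s, h1, h2⟩ := h
  rw [pow_zero, one_mul] at h1
  obtain ⟨d, rfl⟩ := D.h0 r s h1
  rw [D.jc1, ← D.jc2] at h1
  rw [← h2, ← D.inj2 h1, D.evc]

lemma exists_lead {r : R1} (hr : r ≠ 0) : ∃ n c, c ≠ 0 ∧ D.Ord n r c := by
  obtain ⟨n, c, h⟩ := ord_exists (D := D) r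
  induction n generalizing c with
  | zero =>
    refine ⟨0, c, ?_, h⟩
    rintro rfl
    apply hr
    rw [h.eq_const, map_zero]
  | succ n ih =>
    by_cases hc : c = 0
    · subst hc
      obtain ⟨c', h'⟩ := h.pred
      exact ih c' h'
    · exact ⟨n + 1, c, hc, h⟩

lemma Ord.lt {n m : ℕ} {r : R1} {c c' : k} (h : D.Ord n r c) (h' : D.Ord m r c') (hc' : c' ≠ 0) :
    m ≤ n := by
  by_contra hcon
  exact hc' (h'.uniq (h.mono (not_le.1 hcon)))

lemma Ord.eq {n m : ℕ} {r : R1} {c c' : k} (h : D.Ord n r c) (h' : D.Ord m r c') (hc : c ≠ 0)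
    (hc' : c' ≠ 0) : n = m :=
  le_antisymm (h'.lt h hc) (h.lt h' hc')

lemma ord_zero (n : ℕ) : D.Ord n 0 0 := ⟨0, by simp, map_zero _⟩

/-- There are no functions with a simple pole. -/
lemma no_one {r : R1} {c : k} (h : D.Ord 1 r c) : c = 0 := by
  by_contra hc
  have h1 : D.Ord 1 (D.c1 c⁻¹ * r) 1 := by
    have := h.smul c⁻¹
    rwa [inv_mul_cancel₀ hc] at this
  set f := D.c1 c⁻¹ * r with hf
  have key : ∀ (n : ℕ) (s : R2) (t : R12), D.j2 D.z ^ n * t = D.j2 s →
      ∃ a b, t = D.j1 a + D.j2 b := by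
    intro n
    induction n with
    | zero =>
      intro s t ht
      exact ⟨0, s, by rw [pow_zero, one_mul] at ht; rw [map_zero, zero_add, ht]⟩
    | succ n ih =>
      intro s t ht
      obtain ⟨u, hu1, hu2⟩ := h1.pow (n + 1)
      rw [one_mul] at hu1
      rw [one_pow] at hu2
      obtain ⟨s', hs'⟩ := D.evk (s - D.c2 (D.ev s) * u) (by
        rw [map_sub, map_mul, D.evc, hu2, mul_one, sub_self])
      obtain ⟨a, b, hab⟩ := ih s' (t - D.j1 (D.c1 (D.ev s) * f ^ (n + 1))) (by
        apply cancel (D := D)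
        have e1 : D.j2 (D.c2 (D.ev s) * u) =
            D.c12 (D.ev s) * (D.j2 D.z ^ (n + 1) * D.j1 (f ^ (n + 1))) := by
          rw [map_mul, D.jc2, hu1]
        have e2 : D.j1 (D.c1 (D.ev s) * f ^ (n + 1)) = D.c12 (D.ev s) * D.j1 (f ^ (n + 1)) := by
          rw [map_mul, D.jc1]
        rw [← map_mul, ← hs', map_sub, ← ht, e1, e2, pow_succ]
        ring)
      refine ⟨a + D.c1 (D.ev s) * f ^ (n + 1), b, ?_⟩
      rw [map_add]
      linear_combination hab
  obtain ⟨t, ht⟩ := D.Ls ![1, 0]
  obtain ⟨n, s, hs⟩ := D.loc t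
  have h3 := (D.L0 t).2 (key n s t hs)
  rw [ht] at h3
  have h4 := congrFun h3 0
  simp at h4

lemma Ord.cast {n m : ℕ} {r : R1} {c : k} (h : D.Ord n r c) (hn : n = m) : D.Ord m r c := hn ▸ h

lemma Ord.red {n : ℕ} {r m : R1} {c : k} (h : D.Ord (n + 1) r c) (hm : D.Ord (n + 1) m 1) :
    ∃ c', D.Ord n (r - D.c1 c * m) c' := by
  have := h.sub (hm.smul c)
  rw [mul_one, sub_self] at this
  exact this.pred

lemma ord_sum {n : ℕ} {ι : Type} (s : Finset ι) (f : ι → R1) (h : ∀ i ∈ s, D.Ord n (f i) 0) :
    D.Ord n (∑ i ∈ s, f i) 0 := by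
  classical
  induction s using Finset.induction_on with
  | empty => simpa using ord_zero (D := D) n
  | insert a s ha ih =>
    rw [Finset.sum_insert ha]
    have := (h a (Finset.mem_insert_self _ _)).add (ih fun i hi => h i (Finset.mem_insert_of_mem hi))
    rwa [add_zero] at this


/-- Functions with a given principal part. -/
lemma of_L0 {n : ℕ} (hn : 1 ≤ n) {t : R12} {s : R2} (h : D.j2 D.z ^ n * t = D.j2 s)
    (hL : D.L t = 0) : ∃ a, D.Ord n a (D.ev s) := by
  obtain ⟨m, rfl⟩ : ∃ m, n = m + 1 := ⟨n - 1, by omega⟩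
  obtain ⟨a, b, rfl⟩ := (D.L0 t).1 hL
  refine ⟨a, s - D.z ^ (m + 1) * b, ?_, ?_⟩
  · rw [map_sub, ← h, map_mul, map_pow]
    ring
  · rw [map_sub, map_mul, map_pow, D.evz, pow_succ, mul_zero, zero_mul, sub_zero]

lemma L_zero : D.L 0 = 0 := (D.L0 0).2 ⟨0, 0, by simp⟩

lemma L_sub (r s : R12) : D.L (r - s) = D.L r - D.L s := by
  have h := D.Ladd (r - s) s
  rw [sub_add_cancel] at h
  rw [h, add_sub_cancel_right]

lemma L_zi : D.L D.zi ≠ 0 := by
  intro h
  obtain ⟨a, ha⟩ := of_L0 (D := D) (n := 1) le_rfl (t := D.zi) (s := 1) (by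
    rw [pow_one, D.hz, map_one]) h
  rw [map_one] at ha
  exact one_ne_zero (no_one ha)

/-- If `g` is a gap then all greater numbers are pole orders. -/
theorem exists_of_gap {g : ℕ} (hg : 2 ≤ g) (hgap : ∀ r c, D.Ord g r c → c = 0) {n : ℕ}
    (hn : g < n) : ∃ r, D.Ord n r 1 := by
  have hind : ∀ a b : k, a • D.L D.zi + b • D.L (D.zi ^ g) = 0 → a = 0 ∧ b = 0 := by
    intro a b hab
    have hb : b = 0 := by
      by_contra hb
      have hL : D.L (D.zi ^ g + D.c12 (b⁻¹ * a) * D.zi) = 0 := by
        rw [D.Ladd, D.Lc]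
        have : D.L (D.zi ^ g) + (b⁻¹ * a) • D.L D.zi =
            b⁻¹ • (a • D.L D.zi + b • D.L (D.zi ^ g)) := by
          rw [smul_add, smul_smul, smul_smul, inv_mul_cancel₀ hb, one_smul, add_comm]
        rw [this, hab, smul_zero]
      obtain ⟨m, rfl⟩ : ∃ m, g = m + 1 := ⟨g - 1, by omega⟩
      obtain ⟨r, hr⟩ := of_L0 (D := D) (n := m + 1) (by omega)
        (s := 1 + D.c2 (b⁻¹ * a) * D.z ^ m) (by
          have h1 := zn (D := D) (m + 1)
          have h2 := D.hz
          have h3 : D.j2 (1 + D.c2 (b⁻¹ * a) * D.z ^ m) =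
              1 + D.c12 (b⁻¹ * a) * D.j2 D.z ^ m := by
            rw [map_add, map_one, D.j2.map_mul, D.jc2, map_pow]
          rw [h3, mul_add, h1, pow_succ]
          linear_combination D.j2 D.z ^ m * D.c12 (b⁻¹ * a) * h2) hL
      have h3 := hgap r _ hr
      rw [map_add, map_one, map_mul, map_pow, D.evz, zero_pow (by omega), mul_zero,
        add_zero] at h3
      exact one_ne_zero h3
    subst hb
    rw [zero_smul, add_zero] at hab
    refine ⟨?_, rfl⟩
    exact (smul_eq_zero.1 hab).resolve_right L_zi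
  obtain ⟨a, b, hab⟩ := EPD.exists_comb _ _ hind (D.L (D.zi ^ n))
  have hL : D.L (D.zi ^ n - D.c12 a * D.zi - D.c12 b * D.zi ^ g) = 0 := by
    rw [L_sub, L_sub, D.Lc, D.Lc, hab]
    abel
  obtain ⟨i, rfl⟩ := Nat.exists_eq_add_of_lt hn
  obtain ⟨r, hr⟩ := of_L0 (D := D) (n := g + i + 1) (by omega)
    (s := 1 - D.c2 a * D.z ^ (g + i) - D.c2 b * D.z ^ (i + 1)) (by
      have h1 := zn (D := D) (g + i + 1)
      have h2 := D.hz
      have h3 := zn (D := D) g
      simp only [map_sub, map_one, map_mul, D.jc2, map_pow]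
      rw [mul_sub, mul_sub, h1]
      have e1 : D.j2 D.z ^ (g + i + 1) * (D.c12 a * D.zi) =
          D.c12 a * D.j2 D.z ^ (g + i) := by
        rw [pow_succ]
        linear_combination D.j2 D.z ^ (g + i) * D.c12 a * h2
      have e2 : D.j2 D.z ^ (g + i + 1) * (D.c12 b * D.zi ^ g) =
          D.c12 b * D.j2 D.z ^ (i + 1) := by
        have : g + i + 1 = g + (i + 1) := by ring
        rw [this, pow_add]
        linear_combination D.j2 D.z ^ (i + 1) * D.c12 b * h3
      rw [e1, e2]) hL
  refine ⟨r, ?_⟩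
  have h4 : D.ev (1 - D.c2 a * D.z ^ (g + i) - D.c2 b * D.z ^ (i + 1)) = 1 := by
    simp only [map_sub, map_one, map_mul, map_pow, D.evz]
    rw [zero_pow (by omega), zero_pow (by omega)]
    ring
  rwa [h4] at hr

/-- There is a second gap. -/
theorem not_all {f : ℕ → R1} (hf : ∀ n, D.Ord (n + 2) (f n) 1) : False := by
  have key : ∀ (n : ℕ) (s : R2) (t : R12), D.j2 D.z ^ n * t = D.j2 s →
      ∃ a b c, t = D.j1 a + D.j2 b + D.c12 c * D.zi := by
    intro n
    induction n with
    | zero =>
      intro s t ht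
      exact ⟨0, s, 0, by
        rw [pow_zero, one_mul] at ht
        rw [map_zero, map_zero, zero_add, zero_mul, add_zero, ht]⟩
    | succ n ih =>
      intro s t ht
      rcases n with _ | n
      · obtain ⟨s', hs'⟩ := D.evk (s - D.c2 (D.ev s)) (by
          rw [map_sub, D.evc, sub_self])
        refine ⟨0, s', D.ev s, ?_⟩
        rw [map_zero, zero_add, ← sub_eq_iff_eq_add]
        apply cancel (D := D)
        rw [← map_mul, ← hs', map_sub, ← ht, D.jc2]
        have h2 := D.hz
        linear_combination -D.c12 (D.ev s) * h2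
      · obtain ⟨u, hu1, hu2⟩ := hf n
        obtain ⟨s', hs'⟩ := D.evk (s - D.c2 (D.ev s) * u) (by
          rw [map_sub, map_mul, D.evc, hu2, mul_one, sub_self])
        obtain ⟨a, b, c, hab⟩ := ih s' (t - D.j1 (D.c1 (D.ev s) * f n)) (by
          apply cancel (D := D)
          have e1 : D.j2 (D.c2 (D.ev s) * u) =
              D.c12 (D.ev s) * (D.j2 D.z ^ (n + 2) * D.j1 (f n)) := by
            rw [map_mul, D.jc2, hu1]
          have e2 : D.j1 (D.c1 (D.ev s) * f n) = D.c12 (D.ev s) * D.j1 (f n) := by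
            rw [map_mul, D.jc1]
          rw [← map_mul, ← hs', map_sub, ← ht, e1, e2]
          ring)
        refine ⟨a + D.c1 (D.ev s) * f n, b, c, ?_⟩
        rw [map_add]
        linear_combination hab
  obtain ⟨w, hw⟩ := EPD.exists_not_mul (D.L D.zi)
  obtain ⟨t, ht⟩ := D.Ls w
  obtain ⟨n, s, hs⟩ := D.loc t
  obtain ⟨a, b, c, hab⟩ := key n s t hs
  apply hw c
  rw [← ht, hab, D.Ladd, D.Lc, (D.L0 _).2 ⟨a, b, rfl⟩, zero_add]

end PD

end Pool.Agent.MG.H2


end

section

/-!
# Point data of genus two: two is a pole order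
-/

open Polynomial

namespace Pool.Agent.MG.H2

namespace PD

variable {k R1 R2 R12 : Type} [Field k] [CommRing R1] [CommRing R2] [CommRing R12]
  {D : PD k R1 R2 R12}

lemma ord_poly {m : ℕ} (hm : 1 ≤ m) {x : R1} (hx : D.Ord m x 1) (p : k[X]) :
    D.Ord (m * p.natDegree) (p.eval₂ D.c1 x) p.leadingCoeff := by
  rw [Polynomial.eval₂_eq_sum_range, Finset.sum_range_succ]
  have h1 : ∀ i, D.Ord (m * i) (D.c1 (p.coeff i) * x ^ i) (p.coeff i) := by
    intro i
    have := (hx.pow i).smul (p.coeff i)
    rwa [one_pow, mul_one] at this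
  have := (ord_sum (Finset.range p.natDegree) (fun i => D.c1 (p.coeff i) * x ^ i)
    (fun i hi => (h1 i).mono (by
      rw [Finset.mem_range] at hi
      exact Nat.mul_lt_mul_of_pos_left hi (by omega)))).add (h1 p.natDegree)
  rwa [zero_add] at this

lemma poly_inj {m : ℕ} (hm : 1 ≤ m) {x : R1} (hx : D.Ord m x 1) (p : k[X])
    (h : p.eval₂ D.c1 x = 0) : p = 0 := by
  by_contra hp
  have h1 := ord_poly hm hx p
  rw [h] at h1
  exact Polynomial.leadingCoeff_ne_zero.2 hp (h1.uniq (ord_zero _))

/-- If 2 is a pole order then 3 is a gap. -/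
theorem gap3 {x : R1} (hx : D.Ord 2 x 1) : ∀ r c, D.Ord 3 r c → c = 0 := by
  intro r c h
  by_contra hc
  have hr : D.Ord 3 (D.c1 c⁻¹ * r) 1 := by
    have := h.smul c⁻¹
    rwa [inv_mul_cancel₀ hc] at this
  refine not_all (D := D) (f := fun n => if n % 2 = 0 then x ^ (n / 2 + 1) else
    x ^ ((n - 1) / 2) * (D.c1 c⁻¹ * r)) fun n => ?_
  split_ifs with h2
  · have := (hx.pow (n / 2 + 1)).cast (m := n + 2) (by omega)
    rwa [one_pow] at this
  · have := ((hx.pow ((n - 1) / 2)).mul hr).cast (m := n + 2) (by omega)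
    rwa [one_pow, mul_one] at this

theorem spanA {x y : R1} (hx : D.Ord 2 x 1) (hy : D.Ord 5 y 1) (n : ℕ) :
    ∀ (r : R1) (c : k), D.Ord n r c → ∃ p q : k[X], r = p.eval₂ D.c1 x + q.eval₂ D.c1 x * y := by
  induction n using Nat.strong_induction_on with
  | _ n ih =>
    intro r c h
    by_cases h0 : n = 0
    · subst h0
      refine ⟨C c, 0, ?_⟩
      rw [h.eq_const]
      simp
    by_cases h1 : n = 1
    · subst h1
      have hc := no_one h
      subst hc
      obtain ⟨c', h'⟩ := h.pred
      exact ih 0 (by omega) r c' h'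
    by_cases h3 : n = 3
    · subst h3
      have hc := gap3 hx r c h
      subst hc
      obtain ⟨c', h'⟩ := h.pred
      exact ih 2 (by omega) r c' h'
    obtain ⟨n, rfl⟩ : ∃ m, n = m + 1 := ⟨n - 1, by omega⟩
    rcases Nat.even_or_odd' (n + 1) with ⟨i, hi | hi⟩
    · have hm : D.Ord (n + 1) (x ^ i) 1 := by
        have := (hx.pow i).cast (show 2 * i = n + 1 by omega)
        rwa [one_pow] at this
      obtain ⟨c', h'⟩ := Ord.red (n := n) h hm
      obtain ⟨p, q, hpq⟩ := ih n (by omega) _ c' h'
      refine ⟨p + C c * X ^ i, q, ?_⟩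
      simp only [eval₂_add, eval₂_mul, eval₂_C, eval₂_X_pow]
      linear_combination hpq
    · have hm : D.Ord (n + 1) (x ^ (i - 2) * y) 1 := by
        have := ((hx.pow (i - 2)).mul hy).cast (show 2 * (i - 2) + 5 = n + 1 by omega)
        rwa [one_pow, mul_one] at this
      obtain ⟨c', h'⟩ := Ord.red (n := n) h hm
      obtain ⟨p, q, hpq⟩ := ih n (by omega) _ c' h'
      refine ⟨p, q + C c * X ^ (i - 2), ?_⟩
      simp only [eval₂_add, eval₂_mul, eval₂_C, eval₂_X_pow]
      linear_combination hpq

/-- Case A: there is a function with a double pole. -/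
theorem caseA [CharZero k] {x : R1} (hx : D.Ord 2 x 1) : ∃ (y : R1) (f : k[X]),
    y ^ 2 = f.eval₂ D.c1 x ∧ (∀ p : k[X], p.eval₂ D.c1 x = 0 → p = 0) ∧
      ∀ r : R1, ∃ p q : k[X], r = p.eval₂ D.c1 x + q.eval₂ D.c1 x * y := by
  obtain ⟨y, hy⟩ := exists_of_gap (D := D) (g := 3) (by norm_num) (gap3 hx)
    (show 3 < 5 by norm_num)
  have hspan : ∀ r : R1, ∃ p q : k[X], r = p.eval₂ D.c1 x + q.eval₂ D.c1 x * y := by
    intro r
    obtain ⟨n, c, hn⟩ := ord_exists (D := D) r
    exact spanA hx hy n r c hn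
  obtain ⟨W, U, hUW⟩ := hspan (y ^ 2)
  have e2 : D.c1 2⁻¹ * 2 = 1 := by
    have : (2 : R1) = D.c1 2 := (map_ofNat D.c1 2).symm
    rw [this, ← map_mul, inv_mul_cancel₀ two_ne_zero, map_one]
  refine ⟨y - D.c1 2⁻¹ * U.eval₂ D.c1 x, W + C (2⁻¹ ^ 2) * U ^ 2, ?_,
    poly_inj (by norm_num) hx, ?_⟩
  · simp only [eval₂_add, eval₂_mul, eval₂_pow, eval₂_C, map_pow]
    linear_combination hUW - U.eval₂ D.c1 x * y * e2
  · intro r
    obtain ⟨p, q, hpq⟩ := hspan r
    refine ⟨p + C 2⁻¹ * U * q, q, ?_⟩
    simp only [eval₂_add, eval₂_mul, eval₂_C]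
    linear_combination hpq

end PD

end Pool.Agent.MG.H2


end

section

/-!
# KMK: étale coordinates at the marked points

The ring is a finitely generated domain over the field `K`, so it is torsion free, hence flat, over
`K[t]`; it is unramified at the marked point because the maximal ideal is generated by `t` modulo
its square.
-/

open CategoryTheory CategoryTheory.Limits AlgebraicGeometry TensorProduct

namespace Pool.Agent.MG.KX

open Pool.Agent.MG.G0 Pool.Agent.MG.GLU

namespace KMK

/-- Étale coordinates at a rational point of a domain with cotangent space generated by `t`. -/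
theorem etale_at {K P : Type} [Field K] [CommRing P] [IsDomain P] [Algebra K P]
    (hft : Algebra.FiniteType K P) (p : P →ₐ[K] K) (t : P)
    (hm : ∀ f ∈ RingHom.ker p, ∃ c : K, f - c • t ∈ RingHom.ker p ^ 2)
    (hinj : ∀ F : Polynomial K, Polynomial.eval₂ (algebraMap K P) t F = 0 → F = 0) :
    ∃ h : P, p h ≠ 0 ∧ ((algebraMap P (Localization.Away h)).comp
      (Polynomial.eval₂RingHom (algebraMap K P) t)).Etale := by
  let _ : Algebra (Polynomial K) P := (Polynomial.eval₂RingHom (algebraMap K P) t).toAlgebra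
  have hal : ∀ F : Polynomial K, algebraMap (Polynomial K) P F =
      Polynomial.eval₂ (algebraMap K P) t F := fun F => rfl
  have hst : IsScalarTower K (Polynomial K) P := IsScalarTower.of_algebraMap_eq fun c => by
    rw [hal]
    change algebraMap K P c = Polynomial.eval₂ (algebraMap K P) t (Polynomial.C c)
    rw [Polynomial.eval₂_C]
  have hft' : Algebra.FiniteType (Polynomial K) P :=
    Algebra.FiniteType.of_restrictScalars_finiteType K (Polynomial K) P
  have hcon : ∀ c : K, KaehlerDifferential.D (Polynomial K) P (algebraMap K P c) = 0 := by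
    intro c
    rw [IsScalarTower.algebraMap_apply K (Polynomial K) P]
    exact Derivation.map_algebraMap _ _
  have ht0 : KaehlerDifferential.D (Polynomial K) P t = 0 := by
    have e : t = algebraMap (Polynomial K) P Polynomial.X := by
      rw [hal, Polynomial.eval₂_X]
    rw [e]
    exact Derivation.map_algebraMap _ _
  have hsq : ∀ s ∈ RingHom.ker p ^ 2, KaehlerDifferential.D (Polynomial K) P s ∈
      (RingHom.ker p) • (⊤ : Submodule P (KaehlerDifferential (Polynomial K) P)) := by
    intro s hs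
    rw [pow_two] at hs
    refine Submodule.mul_induction_on hs ?_ ?_
    · intro a ha b hb
      rw [Derivation.leibniz]
      exact Submodule.add_mem _ (Submodule.smul_mem_smul ha trivial)
        (Submodule.smul_mem_smul hb trivial)
    · intro a b ha hb
      rw [map_add]
      exact Submodule.add_mem _ ha hb
  have hD : ∀ f : P, KaehlerDifferential.D (Polynomial K) P f ∈
      (RingHom.ker p) • (⊤ : Submodule P (KaehlerDifferential (Polynomial K) P)) := by
    intro f
    have h1 : f - algebraMap K P (p f) ∈ RingHom.ker p := by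
      rw [RingHom.mem_ker, map_sub, AlgHom.commutes, Algebra.algebraMap_self, RingHom.id_apply,
        sub_self]
    obtain ⟨c, hc⟩ := hm _ h1
    have h2 := hsq _ hc
    rw [map_sub, map_sub, hcon, sub_zero, Algebra.smul_def, Derivation.leibniz, ht0, hcon,
      smul_zero, smul_zero, add_zero, sub_zero] at h2
    exact h2
  have htop : (⊤ : Submodule P (KaehlerDifferential (Polynomial K) P)) ≤
      (RingHom.ker p) • (⊤ : Submodule P (KaehlerDifferential (Polynomial K) P)) := by
    have h1 := KaehlerDifferential.span_range_derivation (Polynomial K) P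
    conv_lhs => rw [← h1]
    rw [Submodule.span_le]
    rintro _ ⟨f, rfl⟩
    exact hD f
  obtain ⟨r, hr, hk⟩ := Submodule.exists_sub_one_mem_and_smul_eq_zero_of_fg_of_le_smul
    (RingHom.ker p) ⊤ (Module.Finite.fg_top) htop
  have hpr : p r = 1 := by
    rw [RingHom.mem_ker, map_sub, map_one, sub_eq_zero] at hr
    exact hr
  refine ⟨r, by rw [hpr]; exact one_ne_zero, ?_⟩
  have hunit : IsUnit (algebraMap P (Localization.Away r) r) :=
    IsLocalization.Away.algebraMap_isUnit r
  have hfu : Algebra.FormallyUnramified (Polynomial K) (Localization.Away r) := by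
    refine ⟨?_⟩
    have h1 := KaehlerDifferential.span_range_map_derivation_of_isLocalization (Polynomial K) P
      (Localization.Away r) (Submonoid.powers r)
    have h2 : ∀ x : KaehlerDifferential (Polynomial K) (Localization.Away r), x = 0 := by
      intro x
      have hx : x ∈ (⊤ : Submodule (Localization.Away r)
        (KaehlerDifferential (Polynomial K) (Localization.Away r))) := trivial
      rw [← h1] at hx
      have h3 : Submodule.span (Localization.Away r) (Set.range
          (KaehlerDifferential.map (Polynomial K) (Polynomial K) P (Localization.Away r) ∘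
            KaehlerDifferential.D (Polynomial K) P)) ≤ ⊥ := by
        rw [Submodule.span_le]
        rintro _ ⟨f, rfl⟩
        change KaehlerDifferential.map (Polynomial K) (Polynomial K) P (Localization.Away r)
          (KaehlerDifferential.D (Polynomial K) P f) = 0
        have h4 : algebraMap P (Localization.Away r) r •
            KaehlerDifferential.map (Polynomial K) (Polynomial K) P (Localization.Away r)
            (KaehlerDifferential.D (Polynomial K) P f) = 0 := by
          rw [algebraMap_smul, ← map_smul, hk _ trivial, map_zero]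
        exact (hunit.smul_eq_zero).1 h4
      exact (Submodule.mem_bot _).1 (h3 hx)
    exact ⟨fun x y => (h2 x).trans (h2 y).symm⟩
  have hfl : Module.Flat (Polynomial K) P := by
    rw [Module.Flat.flat_iff_torsion_eq_bot_of_isBezout]
    rw [eq_bot_iff]
    rintro x ⟨⟨F, hF⟩, hx⟩
    have h1 : algebraMap (Polynomial K) P F * x = 0 := by
      rw [← Algebra.smul_def]
      exact hx
    rcases mul_eq_zero.1 h1 with h2 | h2
    · exact absurd (hinj F h2) (nonZeroDivisors.ne_zero hF)
    · exact (Submodule.mem_bot _).2 h2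
  have hfl2 : Module.Flat P (Localization.Away r) :=
    IsLocalization.flat (Localization.Away r) (Submonoid.powers r)
  have hfl3 : Module.Flat (Polynomial K) (Localization.Away r) :=
    Module.Flat.trans (Polynomial K) P (Localization.Away r)
  have hfp : Algebra.FinitePresentation (Polynomial K) (Localization.Away r) := by
    refine Algebra.FinitePresentation.of_finiteType.1 ?_
    exact .trans hft' (IsLocalization.finiteType_of_monoid_fg (.powers r) _)
  have het : Algebra.Etale (Polynomial K) (Localization.Away r) :=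
    Algebra.Etale.of_formallyUnramified_of_flat
  have e : (algebraMap P (Localization.Away r)).comp
      (Polynomial.eval₂RingHom (algebraMap K P) t) =
      algebraMap (Polynomial K) (Localization.Away r) :=
    (IsScalarTower.algebraMap_eq (Polynomial K) P (Localization.Away r)).symm
  rw [e]
  exact RingHom.etale_algebraMap.2 het

/-- A polynomial relation of an element of a domain over an algebraically closed field. -/
theorem const_of {K P : Type} [Field K] [IsAlgClosed K] [CommRing P] [IsDomain P] [Algebra K P]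
    (t : P) (F : Polynomial K) (hF : Polynomial.eval₂ (algebraMap K P) t F = 0) (h0 : F ≠ 0) :
    ∃ c : K, t = algebraMap K P c := by
  have h1 : Polynomial.aeval t F = 0 := hF
  have h2 := (IsAlgClosed.splits F).eq_prod_roots
  rw [h2, map_mul, Polynomial.aeval_C, map_multiset_prod, Multiset.map_map] at h1
  have h3 : algebraMap K P F.leadingCoeff ≠ 0 :=
    (map_ne_zero_iff _ (algebraMap K P).injective).2 (Polynomial.leadingCoeff_ne_zero.2 h0)
  have h4 := (mul_eq_zero.1 h1).resolve_left h3
  obtain ⟨a, -, ha⟩ := Multiset.mem_map.1 (Multiset.prod_eq_zero_iff.1 h4)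
  refine ⟨a, ?_⟩
  have h5 : t - algebraMap K P a = 0 := by
    rw [← ha]
    simp
  exact sub_eq_zero.1 h5

end KMK

open _root_.Pool.Agent.MG.KX.KMK in
theorem t_KMK (hPLE : Stmt_PLE) (hKFP : Stmt_KFP) : Stmt_KMK := by
  intro I K _ _ _ _ g P hP hdom n p hp i
  obtain ⟨⟨z⟩, -⟩ := hPLE hP
  have hfp : Algebra.FinitePresentation K P := (hKFP hP z).1
  have hft : Algebra.FiniteType K P := inferInstance
  obtain ⟨t, ht, hm⟩ := hp.sm i
  obtain ⟨h, h1, h2⟩ := etale_at hft (p i) t hm (by
    intro F hF
    by_contra h0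
    obtain ⟨c, hc⟩ := const_of t F hF h0
    have hc0 : c = 0 := by
      have h1 : p i t = 0 := ht
      rw [hc, AlgHom.commutes] at h1
      exact h1
    rw [hc0, map_zero] at hc
    have hid : IsIdempotentElem (RingHom.ker (p i)) := by
      refine le_antisymm Ideal.mul_le_left fun f hf => ?_
      obtain ⟨c', hc'⟩ := hm f hf
      rw [hc, smul_zero, sub_zero, pow_two] at hc'
      exact hc'
    have hnoe : IsNoetherianRing P := Algebra.FiniteType.isNoetherianRing K P
    rcases (Ideal.isIdempotentElem_iff_eq_bot_or_top (RingHom.ker (p i))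
      (IsNoetherian.noetherian _)).1 hid with h3 | h3
    · have h4 : z.z - algebraMap K P (p i z.z) ∈ RingHom.ker (p i) := by
        rw [RingHom.mem_ker, map_sub, AlgHom.commutes, Algebra.algebraMap_self, RingHom.id_apply,
          sub_self]
      rw [h3, Ideal.mem_bot, sub_eq_zero] at h4
      obtain ⟨k⟩ := ‹Nonempty I›
      have h5 := z.mon.2 k
      rw [h4] at h5
      have h6 : ((algebraMap K (KK I K) (p i z.z)) k).coeff (-(z.d : ℤ)) = 1 := h5
      have h7 := z.pos
      rw [Pi.algebraMap_apply, coeff_algebraMap, if_neg (by omega)] at h6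
      exact zero_ne_one h6
    · have h4 : (1 : P) ∈ RingHom.ker (p i) := by
        rw [h3]
        trivial
      rw [RingHom.mem_ker, map_one] at h4
      exact one_ne_zero h4)
  exact ⟨h, t, h1, h2⟩

end Pool.Agent.MG.KX


end

section

/-!
# KNN: curves with one node are nodal

`P = {p = q}` in a smooth `R`. At the points other than the node `P` and `R` agree locally. At the
node: `U` is the ring of the pairs `(a, b)` in `R[1/g1] × R[1/g2]` with `p a = q b`. It is a
standard étale algebra over `P` (a localization of `P[y]/(y² - e²)`, `e p = 1`, `e q = -1`), and it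
is étale over the node ring (by the infinitesimal criterion): étale coordinates at `p` and `q` are
glued.
-/

open CategoryTheory CategoryTheory.Limits AlgebraicGeometry TensorProduct
open scoped Polynomial

namespace Pool.Agent.MG.KX.KNNm

section glue

variable {K S T : Type} [Field K] [CommRing S] [Algebra K S] [CommRing T] [Algebra K T]
  (p : S →ₐ[K] K) (q : T →ₐ[K] K)

/-- The pairs with the same value at `p` and `q`. -/
def Gl : Subalgebra K (S × T) :=
  AlgHom.equalizer (p.comp (AlgHom.fst K S T)) (q.comp (AlgHom.snd K S T))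

theorem mem_Gl {x : S × T} : x ∈ Gl p q ↔ p x.1 = q x.2 := Iff.rfl

/-- The first component, extended by a constant. -/
noncomputable def j1 : S →ₐ[K] Gl p q :=
  ((AlgHom.id K S).prod ((Algebra.ofId K T).comp p)).codRestrict (Gl p q) fun a => by
    rw [mem_Gl]
    change p a = q (algebraMap K T (p a))
    rw [AlgHom.commutes, Algebra.algebraMap_self_apply]

/-- The second component, extended by a constant. -/
noncomputable def j2 : T →ₐ[K] Gl p q :=
  (((Algebra.ofId K S).comp q).prod (AlgHom.id K T)).codRestrict (Gl p q) fun b => by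
    rw [mem_Gl]
    change p (algebraMap K S (q b)) = q b
    rw [AlgHom.commutes, Algebra.algebraMap_self_apply]

theorem j1_val (a : S) : (j1 p q a : S × T) = (a, algebraMap K T (p a)) := rfl

theorem j2_val (b : T) : (j2 p q b : S × T) = (algebraMap K S (q b), b) := rfl

theorem eq_j (x : Gl p q) : x = j1 p q (x : S × T).1 + j2 p q (x : S × T).2 -
    algebraMap K (Gl p q) (p (x : S × T).1) := by
  apply Subtype.ext
  have hx := (mem_Gl p q).1 x.2
  apply Prod.ext
  · change (x : S × T).1 = (x : S × T).1 + algebraMap K S (q (x : S × T).2) -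
      algebraMap K S (p (x : S × T).1)
    rw [hx]
    ring
  · change (x : S × T).2 = algebraMap K T (p (x : S × T).1) + (x : S × T).2 -
      algebraMap K T (p (x : S × T).1)
    ring

variable {p q} {u : S} {v : T} (hu : p u = 0) (hv : q v = 0)

/-- The map of the node ring. -/
noncomputable def nod : NodeRing K →ₐ[K] Gl p q :=
  Ideal.Quotient.liftₐ _ (MvPolynomial.aeval ![j1 p q u, j2 p q v]) (by
    intro f hf
    have h : Ideal.span {(MvPolynomial.X 0 * MvPolynomial.X 1 : MvPolynomial (Fin 2) K)} ≤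
        RingHom.ker (MvPolynomial.aeval ![j1 p q u, j2 p q v] :
          MvPolynomial (Fin 2) K →ₐ[K] Gl p q) := by
      rw [Ideal.span_le, Set.singleton_subset_iff]
      change (MvPolynomial.aeval ![j1 p q u, j2 p q v] :
          MvPolynomial (Fin 2) K →ₐ[K] Gl p q) (MvPolynomial.X 0 * MvPolynomial.X 1) = 0
      rw [map_mul, MvPolynomial.aeval_X, MvPolynomial.aeval_X]
      apply Subtype.ext
      apply Prod.ext
      · change u * algebraMap K S (q v) = 0
        rw [hv, map_zero, mul_zero]
      · change algebraMap K T (p u) * v = 0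
        rw [hu, map_zero, zero_mul]
    exact h hf)

theorem nod_uu : nod hu hv (NOD.uu K) = j1 p q u := by
  unfold NOD.uu
  change (MvPolynomial.aeval ![j1 p q u, j2 p q v] :
    MvPolynomial (Fin 2) K →ₐ[K] Gl p q) (MvPolynomial.X 0) = _
  rw [MvPolynomial.aeval_X]
  rfl

theorem nod_vv : nod hu hv (NOD.vv K) = j2 p q v := by
  unfold NOD.vv
  change (MvPolynomial.aeval ![j1 p q u, j2 p q v] :
    MvPolynomial (Fin 2) K →ₐ[K] Gl p q) (MvPolynomial.X 1) = _
  rw [MvPolynomial.aeval_X]
  rfl

theorem hom_ext {B : Type} [CommRing B] [Algebra K B] {f g : NodeRing K →ₐ[K] B}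
    (h1 : f (NOD.uu K) = g (NOD.uu K)) (h2 : f (NOD.vv K) = g (NOD.vv K)) : f = g := by
  apply Ideal.Quotient.algHom_ext
  apply MvPolynomial.algHom_ext
  intro i
  fin_cases i
  · exact h1
  · exact h2

theorem lift1 {B : Type} [CommRing B] [Algebra K B] (t : S)
    (ht : (Polynomial.aeval t : K[X] →ₐ[K] S).toRingHom.Etale) (J : Ideal B) (hJ : J ^ 2 = ⊥)
    (b : B) (φ : S →ₐ[K] B ⧸ J) (hφ : φ t = Ideal.Quotient.mk J b) :
    ∃! ψ : S →ₐ[K] B, ψ t = b ∧ (Ideal.Quotient.mkₐ K J).comp ψ = φ := by
  let _ : Algebra K[X] S := (Polynomial.aeval t : K[X] →ₐ[K] S).toRingHom.toAlgebra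
  let _ : Algebra K[X] B := (Polynomial.aeval b : K[X] →ₐ[K] B).toRingHom.toAlgebra
  have hS : ∀ F : K[X], algebraMap K[X] S F = Polynomial.aeval t F := fun _ => rfl
  have hB : ∀ F : K[X], algebraMap K[X] B F = Polynomial.aeval b F := fun _ => rfl
  have het : Algebra.Etale K[X] S := ht
  have key : ∀ ψ : S →ₐ[K] B, ψ t = b → ∀ F : K[X], ψ (algebraMap K[X] S F) =
      algebraMap K[X] B F := by
    intro ψ hψ F
    rw [hS, hB, ← hψ, Polynomial.aeval_algHom_apply]
  have key2 : ∀ F : K[X], φ (algebraMap K[X] S F) = algebraMap K[X] (B ⧸ J) F := by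
    intro F
    have h1 : algebraMap K[X] (B ⧸ J) F = Ideal.Quotient.mkₐ K J (Polynomial.aeval b F) := rfl
    rw [hS, h1, ← Polynomial.aeval_algHom_apply, ← Polynomial.aeval_algHom_apply, hφ]
    rfl
  let φ' : S →ₐ[K[X]] B ⧸ J := { φ.toRingHom with commutes' := key2 }
  obtain ⟨hi, hs⟩ := Algebra.FormallyEtale.comp_bijective K[X] S J hJ
  obtain ⟨ψ', hψ'⟩ := hs φ'
  have hc : ∀ c : K, ψ' (algebraMap K S c) = algebraMap K B c := by
    intro c
    have h1 : algebraMap K S c = algebraMap K[X] S (Polynomial.C c) := by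
      rw [hS, Polynomial.aeval_C]
    rw [h1, AlgHom.commutes, hB, Polynomial.aeval_C]
  refine ⟨{ ψ'.toRingHom with commutes' := hc }, ⟨?_, ?_⟩, ?_⟩
  · change ψ' t = b
    have h1 : t = algebraMap K[X] S Polynomial.X := by
      rw [hS, Polynomial.aeval_X]
    conv_lhs => rw [h1]
    rw [AlgHom.commutes, hB, Polynomial.aeval_X]
  · ext a
    change Ideal.Quotient.mk J (ψ' a) = φ a
    exact congrArg (fun f => f a) hψ'
  · rintro ψ ⟨h1, h2⟩
    let ψ2 : S →ₐ[K[X]] B := { ψ.toRingHom with commutes' := key ψ h1 }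
    have h3 : ψ2 = ψ' := by
      apply hi
      change (Ideal.Quotient.mkₐ K[X] J).comp ψ2 = (Ideal.Quotient.mkₐ K[X] J).comp ψ'
      change (Ideal.Quotient.mkₐ K[X] J).comp ψ' = φ' at hψ'
      rw [hψ']
      ext a
      exact congrArg (fun f => f a) h2
    ext a
    exact congrArg (fun f => f a) h3

theorem et_node (hpu : ∀ a, p a = 0 → u ∣ a) (hqv : ∀ b, q b = 0 → v ∣ b)
    (heu : (Polynomial.aeval u : K[X] →ₐ[K] S).toRingHom.Etale)
    (hev : (Polynomial.aeval v : K[X] →ₐ[K] T).toRingHom.Etale)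
    (hft : Algebra.FiniteType K (Gl p q)) :
    ((nod hu hv : NodeRing K →ₐ[K] Gl p q) : NodeRing K →+* Gl p q).Etale := by
  let _ : Algebra (NodeRing K) (Gl p q) :=
    ((nod hu hv : NodeRing K →ₐ[K] Gl p q) : NodeRing K →+* Gl p q).toAlgebra
  have hal : ∀ x : NodeRing K, algebraMap (NodeRing K) (Gl p q) x = nod hu hv x := fun _ => rfl
  have tow : IsScalarTower K (NodeRing K) (Gl p q) :=
    IsScalarTower.of_algebraMap_eq (R := K) (S := NodeRing K) (A := Gl p q) fun c => by
      rw [hal, AlgHom.commutes]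
  have hft' : Algebra.FiniteType (NodeRing K) (Gl p q) :=
    Algebra.FiniteType.of_restrictScalars_finiteType K (NodeRing K) (Gl p q)
  have hnoe : IsNoetherianRing (NodeRing K) := inferInstance
  have hfp : Algebra.FinitePresentation (NodeRing K) (Gl p q) :=
    Algebra.FinitePresentation.of_finiteType.1 hft'
  have hfe : Algebra.FormallyEtale (NodeRing K) (Gl p q) := by
    rw [Algebra.FormallyEtale.iff_comp_bijective]
    intro B _ _ J hJ
    let _ : Algebra K B := ((algebraMap (NodeRing K) B).comp (algebraMap K (NodeRing K))).toAlgebra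
    have towB : IsScalarTower K (NodeRing K) B :=
      IsScalarTower.of_algebraMap_eq (R := K) (S := NodeRing K) (A := B) fun c => rfl
    have hu1 : ∀ φ : Gl p q →ₐ[NodeRing K] B ⧸ J, ((φ.restrictScalars K).comp (j1 p q)) u =
        Ideal.Quotient.mk J (algebraMap (NodeRing K) B (NOD.uu K)) := by
      intro φ
      change φ (j1 p q u) = _
      rw [← nod_uu hu hv, ← hal, AlgHom.commutes]
      rfl
    have hv1 : ∀ φ : Gl p q →ₐ[NodeRing K] B ⧸ J, ((φ.restrictScalars K).comp (j2 p q)) v =
        Ideal.Quotient.mk J (algebraMap (NodeRing K) B (NOD.vv K)) := by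
      intro φ
      change φ (j2 p q v) = _
      rw [← nod_vv hu hv, ← hal, AlgHom.commutes]
      rfl
    constructor
    · intro ψ ψ' h
      change (Ideal.Quotient.mkₐ (NodeRing K) J).comp ψ =
        (Ideal.Quotient.mkₐ (NodeRing K) J).comp ψ' at h
      have h1 : (ψ.restrictScalars K).comp (j1 p q) = (ψ'.restrictScalars K).comp (j1 p q) := by
        refine (lift1 u heu J hJ (algebraMap (NodeRing K) B (NOD.uu K))
          ((((Ideal.Quotient.mkₐ (NodeRing K) J).comp ψ).restrictScalars K).comp (j1 p q))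
          (hu1 _)).unique ⟨?_, rfl⟩ ⟨?_, ?_⟩
        · change ψ (j1 p q u) = _
          rw [← nod_uu hu hv, ← hal, AlgHom.commutes]
        · change ψ' (j1 p q u) = _
          rw [← nod_uu hu hv, ← hal, AlgHom.commutes]
        · rw [h]
          rfl
      have h2 : (ψ.restrictScalars K).comp (j2 p q) = (ψ'.restrictScalars K).comp (j2 p q) := by
        refine (lift1 v hev J hJ (algebraMap (NodeRing K) B (NOD.vv K))
          ((((Ideal.Quotient.mkₐ (NodeRing K) J).comp ψ).restrictScalars K).comp (j2 p q))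
          (hv1 _)).unique ⟨?_, rfl⟩ ⟨?_, ?_⟩
        · change ψ (j2 p q v) = _
          rw [← nod_vv hu hv, ← hal, AlgHom.commutes]
        · change ψ' (j2 p q v) = _
          rw [← nod_vv hu hv, ← hal, AlgHom.commutes]
        · rw [h]
          rfl
      ext x
      have e := eq_j p q x
      have f1 : ψ (j1 p q (x : S × T).1) = ψ' (j1 p q (x : S × T).1) :=
        congrArg (fun f => f (x : S × T).1) h1
      have f2 : ψ (j2 p q (x : S × T).2) = ψ' (j2 p q (x : S × T).2) :=
        congrArg (fun f => f (x : S × T).2) h2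
      have f3 : ψ (algebraMap K (Gl p q) (p (x : S × T).1)) =
          ψ' (algebraMap K (Gl p q) (p (x : S × T).1)) :=
        ((ψ.restrictScalars K).commutes _).trans ((ψ'.restrictScalars K).commutes _).symm
      rw [e, map_sub, map_sub, map_add, map_add, f1, f2, f3]
    · intro φ
      obtain ⟨ψ1, ⟨a1, a2⟩, -⟩ := lift1 u heu J hJ (algebraMap (NodeRing K) B (NOD.uu K))
        ((φ.restrictScalars K).comp (j1 p q)) (hu1 φ)
      obtain ⟨ψ2, ⟨b1, b2⟩, -⟩ := lift1 v hev J hJ (algebraMap (NodeRing K) B (NOD.vv K))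
        ((φ.restrictScalars K).comp (j2 p q)) (hv1 φ)
      have hUV : ψ1 u * ψ2 v = 0 := by
        rw [a1, b1, ← map_mul, NOD.uu_vv, map_zero]
      have key : ∀ (a : S) (b : T), (ψ1 a - algebraMap K B (p a)) *
          (ψ2 b - algebraMap K B (q b)) = 0 := by
        intro a b
        obtain ⟨a', ha'⟩ := hpu (a - algebraMap K S (p a)) (by
          rw [map_sub, AlgHom.commutes, Algebra.algebraMap_self_apply, sub_self])
        obtain ⟨b', hb'⟩ := hqv (b - algebraMap K T (q b)) (by
          rw [map_sub, AlgHom.commutes, Algebra.algebraMap_self_apply, sub_self])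
        have e1 : ψ1 a - algebraMap K B (p a) = ψ1 u * ψ1 a' := by
          rw [← map_mul, ← ha', map_sub, AlgHom.commutes]
        have e2 : ψ2 b - algebraMap K B (q b) = ψ2 v * ψ2 b' := by
          rw [← map_mul, ← hb', map_sub, AlgHom.commutes]
        rw [e1, e2]
        linear_combination ψ1 a' * ψ2 b' * hUV
      let Ψ : Gl p q →ₐ[K] B :=
        { toFun := fun x => ψ1 (x : S × T).1 + ψ2 (x : S × T).2 - algebraMap K B (p (x : S × T).1)
          map_one' := by
            change ψ1 1 + ψ2 1 - algebraMap K B (p 1) = 1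
            rw [map_one, map_one, map_one, map_one]
            ring
          map_zero' := by
            change ψ1 0 + ψ2 0 - algebraMap K B (p 0) = 0
            rw [map_zero, map_zero, map_zero, map_zero]
            ring
          map_mul' := fun x y => by
            have hx := (mem_Gl p q).1 x.2
            have hy := (mem_Gl p q).1 y.2
            change ψ1 ((x : S × T).1 * (y : S × T).1) + ψ2 ((x : S × T).2 * (y : S × T).2) -
              algebraMap K B (p ((x : S × T).1 * (y : S × T).1)) = _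
            have k1 := key (x : S × T).1 (y : S × T).2
            have k2 := key (y : S × T).1 (x : S × T).2
            rw [← hy] at k1
            rw [← hx] at k2
            rw [map_mul, map_mul, map_mul, map_mul]
            linear_combination -k1 - k2
          map_add' := fun x y => by
            change ψ1 ((x : S × T).1 + (y : S × T).1) + ψ2 ((x : S × T).2 + (y : S × T).2) -
              algebraMap K B (p ((x : S × T).1 + (y : S × T).1)) = _
            rw [map_add, map_add, map_add, map_add]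
            ring
          commutes' := fun c => by
            change ψ1 (algebraMap K S c) + ψ2 (algebraMap K T c) -
              algebraMap K B (p (algebraMap K S c)) = algebraMap K B c
            rw [AlgHom.commutes, AlgHom.commutes, AlgHom.commutes, Algebra.algebraMap_self_apply]
            ring }
      have hΨ : ∀ x : Gl p q, Ψ x = ψ1 (x : S × T).1 + ψ2 (x : S × T).2 -
        algebraMap K B (p (x : S × T).1) := fun _ => rfl
      have hN : Ψ.comp (nod hu hv) = IsScalarTower.toAlgHom K (NodeRing K) B := by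
        apply hom_ext
        · change Ψ (nod hu hv (NOD.uu K)) = algebraMap (NodeRing K) B (NOD.uu K)
          rw [nod_uu, hΨ, j1_val]
          change ψ1 u + ψ2 (algebraMap K T (p u)) - algebraMap K B (p u) = _
          rw [hu, map_zero, map_zero, map_zero, a1]
          ring
        · change Ψ (nod hu hv (NOD.vv K)) = algebraMap (NodeRing K) B (NOD.vv K)
          rw [nod_vv, hΨ, j2_val]
          change ψ1 (algebraMap K S (q v)) + ψ2 v - algebraMap K B (p (algebraMap K S (q v))) = _
          rw [hv, map_zero, map_zero, map_zero, map_zero, b1]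
          ring
      refine ⟨{ Ψ.toRingHom with commutes' := fun n => congrArg (fun f => f n) hN }, ?_⟩
      ext x
      change Ideal.Quotient.mk J (Ψ x) = φ x
      have f1 : Ideal.Quotient.mk J (ψ1 (x : S × T).1) = φ (j1 p q (x : S × T).1) :=
        congrArg (fun f => f (x : S × T).1) a2
      have f2 : Ideal.Quotient.mk J (ψ2 (x : S × T).2) = φ (j2 p q (x : S × T).2) :=
        congrArg (fun f => f (x : S × T).2) b2
      have f3 : Ideal.Quotient.mk J (algebraMap K B (p (x : S × T).1)) =
          φ (algebraMap K (Gl p q) (p (x : S × T).1)) :=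
        ((φ.restrictScalars K).commutes (p (x : S × T).1)).symm
      conv_rhs => rw [eq_j p q x]
      rw [hΨ, map_sub, map_add, f1, f2, f3, map_sub, map_add]
  have het : Algebra.Etale (NodeRing K) (Gl p q) := ⟨hfe, hfp⟩
  exact het

end glue

section cov

variable {K P R S T : Type} [Field K] [CommRing P] [Algebra K P] [CommRing R] [IsDomain R]
  [Algebra K R] [CommRing S] [Algebra K S] [Algebra R S] [IsScalarTower K R S] [CommRing T]
  [Algebra K T] [Algebra R T] [IsScalarTower K R T] (ι : P →ₐ[K] R) (p q : R →ₐ[K] K)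
  (pS : S →ₐ[K] K) (qT : T →ₐ[K] K)

/-- The diagonal map. -/
noncomputable def dg (h : ∀ x, pS (algebraMap R S (ι x)) = qT (algebraMap R T (ι x))) :
    P →ₐ[K] Gl pS qT :=
  (((IsScalarTower.toAlgHom K R S).comp ι).prod ((IsScalarTower.toAlgHom K R T).comp ι)).codRestrict
    (Gl pS qT) fun x => by
      rw [mem_Gl]
      exact h x

omit [IsDomain R] in
theorem dg_val (h : ∀ x, pS (algebraMap R S (ι x)) = qT (algebraMap R T (ι x))) (x : P) :
    (dg ι pS qT h x : S × T) = (algebraMap R S (ι x), algebraMap R T (ι x)) := rfl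

theorem et_cov (h2 : (2 : K) ≠ 0) (hι : Function.Injective ι)
    (hr : ∀ f : R, (∃ x, ι x = f) ↔ p f = q f) (e c1 c2 : R) (pe : p e = 1) (qe : q e = -1)
    (pc1 : p c1 = 1) (qc1 : q c1 = 0) (pc2 : p c2 = 0) (qc2 : q c2 = 1)
    [IsLocalization.Away (e ^ 2 * c1) S] [IsLocalization.Away (e ^ 2 * c2) T]
    (hpS : ∀ r, pS (algebraMap R S r) = p r) (hqT : ∀ r, qT (algebraMap R T r) = q r)
    (h : ∀ x, pS (algebraMap R S (ι x)) = qT (algebraMap R T (ι x))) :
    ((dg ι pS qT h : P →ₐ[K] Gl pS qT) : P →+* Gl pS qT).Etale := by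
  have hf : algebraMap K R (2⁻¹ : K) * 2 = 1 := by
    have : (2 : R) = algebraMap K R 2 := (map_ofNat (algebraMap K R) 2).symm
    rw [this, ← map_mul, inv_mul_cancel₀ h2, map_one]
  have hfP : algebraMap K P (2⁻¹ : K) * 2 = 1 := by
    have : (2 : P) = algebraMap K P 2 := (map_ofNat (algebraMap K P) 2).symm
    rw [this, ← map_mul, inv_mul_cancel₀ h2, map_one]
  have pf : p (algebraMap K R (2⁻¹ : K)) = 2⁻¹ := by
    rw [AlgHom.commutes, Algebra.algebraMap_self_apply]
  have qf : q (algebraMap K R (2⁻¹ : K)) = 2⁻¹ := by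
    rw [AlgHom.commutes, Algebra.algebraMap_self_apply]
  set hfR : R := algebraMap K R (2⁻¹ : K) with hhf
  have he0 : e ≠ 0 := by
    rintro rfl
    rw [map_zero] at pe
    exact zero_ne_one pe
  have hc10 : c1 ≠ 0 := by
    rintro rfl
    rw [map_zero] at pc1
    exact zero_ne_one pc1
  have hc20 : c2 ≠ 0 := by
    rintro rfl
    rw [map_zero] at qc2
    exact zero_ne_one qc2
  have hg10 : e ^ 2 * c1 ≠ 0 := mul_ne_zero (pow_ne_zero 2 he0) hc10
  have hg20 : e ^ 2 * c2 ≠ 0 := mul_ne_zero (pow_ne_zero 2 he0) hc20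
  have injS : Function.Injective (algebraMap R S) :=
    IsLocalization.injective S (powers_le_nonZeroDivisors_of_noZeroDivisors hg10)
  have injT : Function.Injective (algebraMap R T) :=
    IsLocalization.injective T (powers_le_nonZeroDivisors_of_noZeroDivisors hg20)
  obtain ⟨d, hd⟩ := (hr (e ^ 2)).2 (by rw [map_pow, map_pow, pe, qe]; ring)
  obtain ⟨r0, hr0⟩ := (hr (e * (c1 - c2) * hfR)).2 (by
    rw [map_mul, map_mul, map_mul, map_mul, map_sub, map_sub, pe, qe, pc1, pc2, qc1, qc2, pf, qf]
    ring)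
  obtain ⟨r1, hr1⟩ := (hr ((c1 + c2) * hfR)).2 (by
    rw [map_mul, map_mul, map_add, map_add, pc1, pc2, qc1, qc2, pf, qf]
    ring)
  let E : StandardEtalePair P :=
    { f := Polynomial.X ^ 2 - Polynomial.C d
      monic_f := Polynomial.monic_X_pow_sub_C d two_ne_zero
      g := Polynomial.X * (Polynomial.C r0 + Polynomial.C r1 * Polynomial.X)
      cond := by
        refine ⟨Polynomial.C (algebraMap K P (2⁻¹ : K)) *
          (Polynomial.C r0 + Polynomial.C r1 * Polynomial.X), 0, 1, ?_⟩
        have e1 : Polynomial.derivative (Polynomial.X ^ 2 - Polynomial.C d : P[X]) =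
            Polynomial.C 2 * Polynomial.X := by
          rw [Polynomial.derivative_sub, Polynomial.derivative_C, Polynomial.derivative_X_pow,
            sub_zero]
          norm_num
        have e2 : (Polynomial.C (algebraMap K P (2⁻¹ : K)) * Polynomial.C 2 : P[X]) = 1 := by
          rw [← Polynomial.C_mul, hfP, Polynomial.C_1]
        rw [e1, mul_zero, add_zero, pow_one]
        linear_combination Polynomial.X * (Polynomial.C r0 + Polynomial.C r1 * Polynomial.X) * e2 }
  let _ : Algebra P (Gl pS qT) := ((dg ι pS qT h : P →ₐ[K] Gl pS qT) : P →+* Gl pS qT).toAlgebra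
  have hal : ∀ x : P, algebraMap P (Gl pS qT) x = dg ι pS qT h x := fun _ => rfl
  let y : Gl pS qT := ⟨(algebraMap R S e, algebraMap R T (-e)), by
    rw [mem_Gl]
    change pS (algebraMap R S e) = qT (algebraMap R T (-e))
    rw [hpS, hqT, pe, map_neg, qe, neg_neg]⟩
  have hlin : ∀ a b : P, ((algebraMap P (Gl pS qT) a + algebraMap P (Gl pS qT) b * y : Gl pS qT) :
      S × T) = (algebraMap R S (ι a + ι b * e), algebraMap R T (ι a - ι b * e)) := by
    intro a b
    apply Prod.ext
    · change algebraMap R S (ι a) + algebraMap R S (ι b) * algebraMap R S e = _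
      rw [← map_mul, ← map_add]
    · change algebraMap R T (ι a) + algebraMap R T (ι b) * algebraMap R T (-e) = _
      rw [← map_mul, ← map_add]
      congr 1
      ring
  have hy2 : y ^ 2 = algebraMap P (Gl pS qT) d := by
    apply Subtype.ext
    apply Prod.ext
    · change algebraMap R S e ^ 2 = algebraMap R S (ι d)
      rw [hd, map_pow]
    · change algebraMap R T (-e) ^ 2 = algebraMap R T (ι d)
      rw [hd, ← map_pow]
      congr 1
      ring
  have hgy : ((Polynomial.aeval y E.g : Gl pS qT) : S × T) =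
      (algebraMap R S (e ^ 2 * c1), algebraMap R T (e ^ 2 * c2)) := by
    have e1 : Polynomial.aeval y E.g = y * (algebraMap P (Gl pS qT) r0 +
        algebraMap P (Gl pS qT) r1 * y) := by
      change Polynomial.aeval y (Polynomial.X * (Polynomial.C r0 + Polynomial.C r1 *
        Polynomial.X)) = _
      rw [map_mul, map_add, map_mul, Polynomial.aeval_X, Polynomial.aeval_C, Polynomial.aeval_C]
    have e2 := hlin r0 r1
    rw [e1]
    apply Prod.ext
    · change algebraMap R S e * ((algebraMap P (Gl pS qT) r0 + algebraMap P (Gl pS qT) r1 * y :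
        Gl pS qT) : S × T).1 = _
      rw [e2]
      change algebraMap R S e * algebraMap R S (ι r0 + ι r1 * e) = algebraMap R S (e ^ 2 * c1)
      rw [← map_mul, hr0, hr1]
      congr 1
      linear_combination e ^ 2 * c1 * hf
    · change algebraMap R T (-e) * ((algebraMap P (Gl pS qT) r0 + algebraMap P (Gl pS qT) r1 * y :
        Gl pS qT) : S × T).2 = _
      rw [e2]
      change algebraMap R T (-e) * algebraMap R T (ι r0 - ι r1 * e) = algebraMap R T (e ^ 2 * c2)
      rw [← map_mul, hr0, hr1]
      congr 1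
      linear_combination e ^ 2 * c2 * hf
  have hgu : IsUnit (Polynomial.aeval y E.g) := by
    obtain ⟨i1, hi1⟩ := (IsLocalization.Away.algebraMap_isUnit (S := S) (e ^ 2 * c1)).exists_right_inv
    obtain ⟨i2, hi2⟩ := (IsLocalization.Away.algebraMap_isUnit (S := T) (e ^ 2 * c2)).exists_right_inv
    have k1 : pS i1 = 1 := by
      have := congrArg pS hi1
      rw [map_mul, map_one, hpS, map_mul, map_pow, pe, pc1] at this
      simpa using this
    have k2 : qT i2 = 1 := by
      have := congrArg qT hi2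
      rw [map_mul, map_one, hqT, map_mul, map_pow, qe, qc2] at this
      simpa using this
    refine IsUnit.of_mul_eq_one (⟨(i1, i2), by
      rw [mem_Gl]
      exact k1.trans k2.symm⟩ : Gl pS qT) ?_
    apply Subtype.ext
    change ((Polynomial.aeval y E.g : Gl pS qT) : S × T) * (i1, i2) = 1
    rw [hgy]
    exact Prod.ext hi1 hi2
  have hmap : E.HasMap y := by
    refine ⟨?_, hgu⟩
    change Polynomial.aeval y (Polynomial.X ^ 2 - Polynomial.C d) = 0
    rw [map_sub, map_pow, Polynomial.aeval_X, Polynomial.aeval_C, hy2, sub_self]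
  have hXu : IsUnit E.X := by
    have h1 := (StandardEtalePair.hasMap_X (P := E)).2
    change IsUnit (Polynomial.aeval E.X (Polynomial.X * (Polynomial.C r0 + Polynomial.C r1 *
      Polynomial.X))) at h1
    rw [map_mul, Polynomial.aeval_X] at h1
    exact isUnit_of_mul_isUnit_left h1
  have hX2 : E.X ^ 2 = algebraMap P E.Ring d := by
    have h1 := (StandardEtalePair.hasMap_X (P := E)).1
    change Polynomial.aeval E.X (Polynomial.X ^ 2 - Polynomial.C d) = 0 at h1
    rw [map_sub, map_pow, Polynomial.aeval_X, Polynomial.aeval_C, sub_eq_zero] at h1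
    exact h1
  have hbij : Function.Bijective (E.lift y hmap) := by
    constructor
    · rw [injective_iff_map_eq_zero]
      intro w hw
      let Pr : StandardEtalePresentation P E.Ring :=
        ⟨E, E.X, E.hasMap_X, by simpa [StandardEtalePair.lift_X_left] using Function.bijective_id⟩
      obtain ⟨F, n, hF⟩ := Pr.exists_mul_aeval_x_g_pow_eq_aeval_x w
      change w * Polynomial.aeval E.X E.g ^ n = Polynomial.aeval E.X F at hF
      have hmon : (Polynomial.X ^ 2 - Polynomial.C d : P[X]).Monic :=
        Polynomial.monic_X_pow_sub_C d two_ne_zero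
      have hnP : Nontrivial P := ⟨⟨0, 1, fun h01 => by
        have := congrArg ι h01
        rw [map_zero, map_one] at this
        exact zero_ne_one this⟩⟩
      have hdeg : (Polynomial.X ^ 2 - Polynomial.C d : P[X]).natDegree = 2 :=
        Polynomial.natDegree_X_pow_sub_C
      have hlt : (F %ₘ (Polynomial.X ^ 2 - Polynomial.C d)).natDegree ≤ 1 := by
        have := Polynomial.natDegree_modByMonic_lt F hmon (fun h1 => by
          rw [h1, Polynomial.natDegree_one] at hdeg
          omega)
        rw [hdeg] at this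
        omega
      obtain ⟨b, a, hba⟩ := Polynomial.exists_eq_X_add_C_of_natDegree_le_one hlt
      have hFX : Polynomial.aeval E.X F = algebraMap P E.Ring a + algebraMap P E.Ring b * E.X := by
        rw [← Polynomial.modByMonic_add_div F (Polynomial.X ^ 2 - Polynomial.C d), hba, map_add,
          map_add, map_mul, map_mul, map_sub, map_pow, Polynomial.aeval_X, Polynomial.aeval_C,
          Polynomial.aeval_C, Polynomial.aeval_C, hX2, sub_self, zero_mul, add_zero, add_comm]
      have h0 : algebraMap P (Gl pS qT) a + algebraMap P (Gl pS qT) b * y = 0 := by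
        have h1 := congrArg (E.lift y hmap) hF
        rw [map_mul, hw, zero_mul, hFX, map_add, map_mul, AlgHom.commutes, AlgHom.commutes,
          StandardEtalePair.lift_X] at h1
        exact h1.symm
      have h1 := hlin a b
      rw [h0] at h1
      have h2' : ι a + ι b * e = 0 := by
        apply injS
        rw [map_zero]
        exact (congrArg Prod.fst h1).symm
      have h3 : ι a - ι b * e = 0 := by
        apply injT
        rw [map_zero]
        exact (congrArg Prod.snd h1).symm
      have h4 : ι a = 0 := by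
        linear_combination hfR * h2' + hfR * h3 - ι a * hf
      have h5 : ι b = 0 := by
        rw [h4, zero_add] at h2'
        exact (mul_eq_zero.1 h2').resolve_right he0
      have h6 : a = 0 := hι (by rw [h4, map_zero])
      have h7 : b = 0 := hι (by rw [h5, map_zero])
      rw [hFX, h6, h7, map_zero, zero_mul, add_zero] at hF
      exact ((E.hasMap_X.2.pow n).mul_left_eq_zero).1 hF
    · intro z
      obtain ⟨n1, a', ha'⟩ := IsLocalization.Away.surj (S := S) (e ^ 2 * c1) (z : S × T).1
      obtain ⟨n2, b', hb'⟩ := IsLocalization.Away.surj (S := T) (e ^ 2 * c2) (z : S × T).2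
      have hz := (mem_Gl pS qT).1 z.2
      set A : R := a' * (e ^ 2 * c1) ^ (n2 + 1) with hA
      set B : R := b' * (e ^ 2 * c2) ^ (n1 + 1) with hB
      have hA1 : (z : S × T).1 * algebraMap R S (e ^ 2 * c1) ^ (n1 + n2 + 1) = algebraMap R S A := by
        have e1 : algebraMap R S A = algebraMap R S a' * algebraMap R S (e ^ 2 * c1) ^ (n2 + 1) := by
          rw [hA, ← map_pow, ← map_mul]
        rw [e1, ← ha']
        ring
      have hB1 : (z : S × T).2 * algebraMap R T (e ^ 2 * c2) ^ (n1 + n2 + 1) = algebraMap R T B := by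
        have e1 : algebraMap R T B = algebraMap R T b' * algebraMap R T (e ^ 2 * c2) ^ (n1 + 1) := by
          rw [hB, ← map_pow, ← map_mul]
        rw [e1, ← hb']
        ring
      have pA : p A = pS (z : S × T).1 := by
        have := congrArg pS hA1
        rw [map_mul, map_pow, hpS, hpS, map_mul, map_pow, pe, pc1] at this
        simpa using this.symm
      have qB : q B = qT (z : S × T).2 := by
        have := congrArg qT hB1
        rw [map_mul, map_pow, hqT, hqT, map_mul, map_pow, qe, qc2] at this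
        simpa using this.symm
      have qA : q A = 0 := by
        rw [hA, map_mul, map_pow, map_mul, qc1, mul_zero, zero_pow (Nat.succ_ne_zero n2), mul_zero]
      have pB : p B = 0 := by
        rw [hB, map_mul, map_pow, map_mul, pc2, mul_zero, zero_pow (Nat.succ_ne_zero n1), mul_zero]
      obtain ⟨s0, hs0⟩ := (hr (e * (A - B) * hfR)).2 (by
        rw [map_mul, map_mul, map_mul, map_mul, map_sub, map_sub, pe, qe, pA, qA, pB, qB, pf, qf,
          hz]
        ring)
      obtain ⟨s1, hs1⟩ := (hr ((A + B) * hfR)).2 (by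
        rw [map_mul, map_mul, map_add, map_add, pA, qA, pB, qB, pf, qf, hz]
        ring)
      have hzz : z * (y * Polynomial.aeval y E.g ^ (n1 + n2 + 1)) =
          algebraMap P (Gl pS qT) s0 + algebraMap P (Gl pS qT) s1 * y := by
        apply Subtype.ext
        rw [hlin]
        apply Prod.ext
        · change (z : S × T).1 * (algebraMap R S e *
            ((Polynomial.aeval y E.g : Gl pS qT) : S × T).1 ^ (n1 + n2 + 1)) =
              algebraMap R S (ι s0 + ι s1 * e)
          rw [hgy]
          change (z : S × T).1 * (algebraMap R S e *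
            algebraMap R S (e ^ 2 * c1) ^ (n1 + n2 + 1)) = algebraMap R S (ι s0 + ι s1 * e)
          have e1 : ι s0 + ι s1 * e = e * A := by
            rw [hs0, hs1]
            linear_combination e * A * hf
          rw [e1, map_mul (algebraMap R S) e A, ← hA1]
          ring
        · change (z : S × T).2 * (algebraMap R T (-e) *
            ((Polynomial.aeval y E.g : Gl pS qT) : S × T).2 ^ (n1 + n2 + 1)) =
              algebraMap R T (ι s0 - ι s1 * e)
          rw [hgy]
          change (z : S × T).2 * (algebraMap R T (-e) *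
            algebraMap R T (e ^ 2 * c2) ^ (n1 + n2 + 1)) = algebraMap R T (ι s0 - ι s1 * e)
          have e1 : ι s0 - ι s1 * e = -e * B := by
            rw [hs0, hs1]
            linear_combination -e * B * hf
          rw [e1, map_mul (algebraMap R T) (-e) B, ← hB1]
          ring
      obtain ⟨U, hU⟩ : IsUnit (E.X * Polynomial.aeval E.X E.g ^ (n1 + n2 + 1)) :=
        hXu.mul (E.hasMap_X.2.pow _)
      have hlU : E.lift y hmap (U : E.Ring) = y * Polynomial.aeval y E.g ^ (n1 + n2 + 1) := by
        rw [hU, map_mul, map_pow, StandardEtalePair.lift_X, ← Polynomial.aeval_algHom_apply,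
          StandardEtalePair.lift_X]
      refine ⟨(algebraMap P E.Ring s0 + algebraMap P E.Ring s1 * E.X) * ((U⁻¹ : E.Ringˣ) : E.Ring),
        ?_⟩
      rw [map_mul, map_add, map_mul, AlgHom.commutes, AlgHom.commutes, StandardEtalePair.lift_X,
        ← hzz, ← hlU, mul_assoc, ← map_mul, Units.mul_inv, map_one, mul_one]
  have het : Algebra.Etale P (Gl pS qT) :=
    Algebra.Etale.of_equiv (AlgEquiv.ofBijective (E.lift y hmap) hbij)
  exact het

end cov

end Pool.Agent.MG.KX.KNNm

namespace Pool.Agent.MG.KX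

namespace KNNm

open Pool.Agent.MG.G0 Pool.Agent.MG.GLU

section loc

variable {K R : Type} [Field K] [CommRing R] [Algebra K R]

/-- The derivation `f ↦ f - p f` modulo the square of the maximal ideal. -/
noncomputable def der (p : R →ₐ[K] K) : Derivation K R (R ⧸ (RingHom.ker p) ^ 2) where
  toFun f := Ideal.Quotient.mk _ (f - algebraMap K R (p f))
  map_add' f g := by
    rw [← map_add, map_add p, map_add]
    congr 1
    ring
  map_smul' c f := by
    rw [RingHom.id_apply, Algebra.smul_def, Algebra.smul_def, map_mul p, AlgHom.commutes,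
      Algebra.algebraMap_self_apply, map_mul (algebraMap K R)]
    have h1 : algebraMap K (R ⧸ (RingHom.ker p) ^ 2) c =
        Ideal.Quotient.mk ((RingHom.ker p) ^ 2) (algebraMap K R c) := rfl
    rw [h1, ← map_mul (Ideal.Quotient.mk ((RingHom.ker p) ^ 2))]
    congr 1
    ring
  map_one_eq_zero' := by
    change Ideal.Quotient.mk ((RingHom.ker p) ^ 2) (1 - algebraMap K R (p 1)) = 0
    rw [map_one, map_one, sub_self, map_zero]
  leibniz' f g := by
    change Ideal.Quotient.mk ((RingHom.ker p) ^ 2) (f * g - algebraMap K R (p (f * g))) =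
      f • Ideal.Quotient.mk ((RingHom.ker p) ^ 2) (g - algebraMap K R (p g)) +
      g • Ideal.Quotient.mk ((RingHom.ker p) ^ 2) (f - algebraMap K R (p f))
    rw [Algebra.smul_def, Algebra.smul_def]
    have h1 : ∀ x : R, algebraMap R (R ⧸ (RingHom.ker p) ^ 2) x =
        Ideal.Quotient.mk ((RingHom.ker p) ^ 2) x := fun _ => rfl
    rw [h1, h1, ← map_mul, ← map_mul, ← map_add, Ideal.Quotient.mk_eq_mk_iff_sub_mem]
    have h2 : ∀ x : R, x - algebraMap K R (p x) ∈ RingHom.ker p := by
      intro x
      rw [RingHom.mem_ker, map_sub, AlgHom.commutes, Algebra.algebraMap_self_apply, sub_self]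
    have h3 : f * g - algebraMap K R (p (f * g)) - (f * (g - algebraMap K R (p g)) +
        g * (f - algebraMap K R (p f))) =
        -((f - algebraMap K R (p f)) * (g - algebraMap K R (p g))) := by
      rw [map_mul, map_mul]
      ring
    rw [h3, pow_two]
    exact neg_mem (Ideal.mul_mem_mul (h2 f) (h2 g))

theorem der_apply (p : R →ₐ[K] K) (f : R) :
    der p f = Ideal.Quotient.mk _ (f - algebraMap K R (p f)) := rfl

theorem cot (hsm : SmC K R) (p : R →ₐ[K] K) : ∃ (D : Derivation K R R) (t : R),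
    p t = 0 ∧ p (D t) ≠ 0 ∧ ∀ f ∈ RingHom.ker p, ∃ c : K, f - c • t ∈ (RingHom.ker p) ^ 2 := by
  obtain ⟨n, D, g, hs, hrel⟩ := hsm
  have h1 : ∃ i, p (D i (g i)) ≠ 0 := by
    by_contra h
    push Not at h
    have := congrArg p hs
    rw [map_sum, map_one, Finset.sum_eq_zero (fun i _ => h i)] at this
    exact zero_ne_one this
  obtain ⟨i, hi⟩ := h1
  have hDt : D i (g i - algebraMap K R (p (g i))) = D i (g i) := by
    rw [map_sub, Derivation.map_algebraMap, sub_zero]
  have ht : p (g i - algebraMap K R (p (g i))) = 0 := by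
    rw [map_sub, AlgHom.commutes, Algebra.algebraMap_self_apply, sub_self]
  refine ⟨D i, g i - algebraMap K R (p (g i)), ht, by rwa [hDt], ?_⟩
  intro f hf
  have hpf : p f = 0 := hf
  have h2 := congrArg (der p).liftKaehlerDifferential (hrel (D i) f (g i))
  rw [map_smul, map_smul, Derivation.liftKaehlerDifferential_comp_D,
    Derivation.liftKaehlerDifferential_comp_D, der_apply, der_apply, hpf, map_zero, sub_zero,
    Algebra.smul_def, Algebra.smul_def] at h2
  have h3 : ∀ x : R, algebraMap R (R ⧸ (RingHom.ker p) ^ 2) x =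
      Ideal.Quotient.mk ((RingHom.ker p) ^ 2) x := fun _ => rfl
  rw [h3, h3, ← map_mul, ← map_mul, Ideal.Quotient.mk_eq_mk_iff_sub_mem] at h2
  refine ⟨p (D i f) * (p (D i (g i)))⁻¹, ?_⟩
  set t : R := g i - algebraMap K R (p (g i)) with htdef
  have h4 : ∀ x : R, x - algebraMap K R (p x) ∈ RingHom.ker p := by
    intro x
    rw [RingHom.mem_ker, map_sub, AlgHom.commutes, Algebra.algebraMap_self_apply, sub_self]
  have h5 : (D i f - algebraMap K R (p (D i f))) * t ∈ (RingHom.ker p) ^ 2 := by
    rw [pow_two]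
    exact Ideal.mul_mem_mul (h4 _) ht
  have h6 : (D i (g i) - algebraMap K R (p (D i (g i)))) * f ∈ (RingHom.ker p) ^ 2 := by
    rw [pow_two]
    exact Ideal.mul_mem_mul (h4 _) hf
  have h7 : algebraMap K R (p (D i (g i))) * f - algebraMap K R (p (D i f)) * t ∈
      (RingHom.ker p) ^ 2 := by
    have := sub_mem (sub_mem h5 h6) h2
    have e : (D i f - algebraMap K R (p (D i f))) * t -
        (D i (g i) - algebraMap K R (p (D i (g i)))) * f - (D i f * t - D i (g i) * f) =
        algebraMap K R (p (D i (g i))) * f - algebraMap K R (p (D i f)) * t := by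
      ring
    rwa [e] at this
  have h8 := ((RingHom.ker p) ^ 2).mul_mem_left (algebraMap K R (p (D i (g i)))⁻¹) h7
  have e : algebraMap K R (p (D i (g i)))⁻¹ * (algebraMap K R (p (D i (g i))) * f -
      algebraMap K R (p (D i f)) * t) = f - (p (D i f) * (p (D i (g i)))⁻¹) • t := by
    rw [Algebra.smul_def, map_mul, mul_sub, ← mul_assoc, ← map_mul, inv_mul_cancel₀ hi, map_one,
      one_mul]
    ring
  rwa [e] at h8

theorem etale_dvd {h g : R} (hg : h ∣ g) {S : Type} [CommRing S] [Algebra R S]
    [IsLocalization.Away g S] {A : Type} [CommRing A] {φ : A →+* R}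
    (he : ((algebraMap R (Localization.Away h)).comp φ).Etale) :
    ((algebraMap R S).comp φ).Etale := by
  have hu : IsUnit (algebraMap R S h) := IsLocalization.Away.isUnit_of_dvd g hg
  let _ : Algebra (Localization.Away h) S := (IsLocalization.Away.lift h hu).toAlgebra
  have hst : IsScalarTower R (Localization.Away h) S :=
    IsScalarTower.of_algebraMap_eq' (IsLocalization.Away.lift_comp h hu).symm
  have e1 : Algebra.Etale R (Localization.Away h) := Algebra.Etale.of_isLocalizationAway h
  have e2 : Algebra.Etale R S := Algebra.Etale.of_isLocalizationAway g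
  have e3 : Algebra.Etale (Localization.Away h) S := Algebra.Etale.of_restrictScalars R _ _
  have e4 : (algebraMap R S).comp φ = (algebraMap (Localization.Away h) S).comp
      ((algebraMap R (Localization.Away h)).comp φ) := by
    rw [← RingHom.comp_assoc, ← IsScalarTower.algebraMap_eq R (Localization.Away h) S]
  rw [e4]
  exact RingHom.Etale.stableUnderComposition _ _ he (RingHom.etale_algebraMap.2 e3)

/-- Étale coordinates at a point. -/
theorem coord [IsDomain R] [IsAlgClosed K] (hft : Algebra.FiniteType K R) (hsm : SmC K R)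
    (p : R →ₐ[K] K) : ∃ h t : R, p t = 0 ∧ p h ≠ 0 ∧ (∀ a, p a = 0 → t ∣ h * a) ∧
      ((algebraMap R (Localization.Away h)).comp
        (Polynomial.eval₂RingHom (algebraMap K R) t)).Etale := by
  obtain ⟨D, t, ht, hDt, hm⟩ := cot hsm p
  obtain ⟨h, h1, h2⟩ := KMK.etale_at hft p t hm (by
    intro F hF
    by_contra h0
    obtain ⟨c, hc⟩ := KMK.const_of t F hF h0
    apply hDt
    rw [hc, Derivation.map_algebraMap, map_zero])
  have hnoe : IsNoetherianRing R := Algebra.FiniteType.isNoetherianRing K R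
  obtain ⟨r, hr1, hr2⟩ := Submodule.exists_sub_one_mem_and_smul_le_of_fg_of_le_sup
    (I := RingHom.ker p) (N := Ideal.span {t}) (N' := RingHom.ker p) (P := RingHom.ker p)
    (IsNoetherian.noetherian (RingHom.ker p)) le_rfl (by
      intro f hf
      obtain ⟨c, hc⟩ := hm f hf
      have e : f = c • t + (f - c • t) := by ring
      rw [e]
      refine Submodule.add_mem_sup ?_ ?_
      · rw [Algebra.smul_def]
        exact Ideal.mul_mem_left _ _ (Ideal.mem_span_singleton_self t)
      · rw [smul_eq_mul, ← pow_two]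
        exact hc)
  have hpr : p r = 1 := by
    rw [RingHom.mem_ker, map_sub, map_one, sub_eq_zero] at hr1
    exact hr1
  refine ⟨h * r, t, ht, ?_, ?_, ?_⟩
  · rw [map_mul, hpr, mul_one]
    exact h1
  · intro a ha
    have h3 : r • a ∈ Ideal.span {t} := hr2 (Submodule.smul_mem_pointwise_smul a r _ ha)
    rw [Ideal.mem_span_singleton, smul_eq_mul] at h3
    rw [mul_assoc]
    exact h3.mul_left h
  · exact etale_dvd (dvd_mul_right h r) h2

end loc

section away

variable {K P R : Type} [Field K] [CommRing P] [Algebra K P] [CommRing R] [Algebra K R]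
  (ι : P →ₐ[K] R) (p q : R →ₐ[K] K)

theorem away_etale (hι : Function.Injective ι) (hr : ∀ f : R, (∃ x, ι x = f) ↔ p f = q f) (s : P)
    (ps : p (ι s) = 0) : (((algebraMap R (Localization.Away (ι s))).comp
      (ι : P →+* R)).Etale) ∧ ∀ x : PrimeSpectrum P, s ∉ x.asIdeal →
        ∃ y : PrimeSpectrum (Localization.Away (ι s)),
          PrimeSpectrum.comap ((algebraMap R (Localization.Away (ι s))).comp (ι : P →+* R)) y = x := by
  let _ : Algebra P (Localization.Away (ι s)) :=
    ((algebraMap R (Localization.Away (ι s))).comp (ι : P →+* R)).toAlgebra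
  have hal : ∀ x : P, algebraMap P (Localization.Away (ι s)) x =
      algebraMap R (Localization.Away (ι s)) (ι x) := fun _ => rfl
  have qs : q (ι s) = 0 := by
    rw [← (hr (ι s)).1 ⟨s, rfl⟩]
    exact ps
  have hloc : IsLocalization.Away s (Localization.Away (ι s)) := by
    apply IsLocalization.Away.mk
    · rw [hal]
      exact IsLocalization.Away.algebraMap_isUnit (ι s)
    · intro z
      obtain ⟨n, a, ha⟩ := IsLocalization.Away.surj (ι s) z
      obtain ⟨b, hb⟩ := (hr (a * ι s)).2 (by rw [map_mul, map_mul, ps, qs, mul_zero, mul_zero])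
      refine ⟨n + 1, b, ?_⟩
      rw [hal, hal, hb, map_mul, ← ha]
      ring
    · intro a b hab
      rw [hal, hal] at hab
      obtain ⟨n, hn⟩ := IsLocalization.Away.exists_of_eq (ι s) hab
      refine ⟨n, hι ?_⟩
      rw [map_mul, map_mul, map_pow]
      exact hn
  refine ⟨RingHom.etale_algebraMap.2 (Algebra.Etale.of_isLocalizationAway s), fun x hx => ?_⟩
  have h1 : x ∈ Set.range (PrimeSpectrum.comap (algebraMap P (Localization.Away (ι s)))) := by
    rw [PrimeSpectrum.localization_away_comap_range _ s]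
    exact hx
  obtain ⟨y, hy⟩ := h1
  exact ⟨y, hy⟩

/-- Nodality of `P` at the points where `P` and `R` agree. -/
theorem nodal_away (hι : Function.Injective ι) (hr : ∀ f : R, (∃ x, ι x = f) ↔ p f = q f)
    (hnod : Nodal (spMap (algebraMap K R))) (s : P) (ps : p (ι s) = 0) (x : Sp P)
    (hx : s ∉ x.asIdeal) :
    ∃ (U : Scheme.{0}) (f : U ⟶ Sp P) (h : U ⟶ Sp (NodeRing K)),
      Etale f ∧ Etale h ∧ f ≫ spMap (algebraMap K P) = h ≫ spMap (algebraMap K (NodeRing K)) ∧
        x ∈ Set.range f := by
  obtain ⟨h1, h2⟩ := away_etale ι p q hι hr s ps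
  obtain ⟨y, hy⟩ := h2 x hx
  let L : Type := Localization.Away (ι s)
  let κ : Sp L ⟶ Sp R := spMap (algebraMap R L)
  let j : Sp L ⟶ Sp P := spMap ((algebraMap R L).comp (ι : P →+* R))
  have hκ : Etale κ := NOD.etale_spMap (RingHom.etale_algebraMap.2
    (Algebra.Etale.of_isLocalizationAway (ι s)))
  have hj : Etale j := NOD.etale_spMap h1
  obtain ⟨V, f, h, hf, hh, hc, v, hv⟩ := hnod (κ (y : Sp L))
  obtain ⟨w, hw1, hw2⟩ := Scheme.Pullback.exists_preimage_pullback (f := f) (g := κ) v y hv
  refine ⟨pullback f κ, pullback.snd f κ ≫ j, pullback.fst f κ ≫ h, ?_, ?_, ?_, ⟨w, ?_⟩⟩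
  · have : Etale (pullback.snd f κ) := inferInstance
    infer_instance
  · have : Etale (pullback.fst f κ) := inferInstance
    infer_instance
  · have e1 : j ≫ spMap (algebraMap K P) = κ ≫ spMap (algebraMap K R) := by
      rw [← Spec.map_comp, ← Spec.map_comp, ← CommRingCat.ofHom_comp, ← CommRingCat.ofHom_comp]
      congr 2
      ext c
      change algebraMap R L (ι (algebraMap K P c)) = algebraMap R L (algebraMap K R c)
      rw [AlgHom.commutes]
    rw [Category.assoc, e1, ← Category.assoc, ← pullback.condition, Category.assoc, hc,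
      Category.assoc]
  · rw [Scheme.Hom.comp_apply, hw2]
    exact hy

end away

section node

variable {K P R : Type} [Field K] [CommRing P] [Algebra K P] [CommRing R] [IsDomain R]
  [Algebra K R] (ι : P →ₐ[K] R) (p q : R →ₐ[K] K)

omit [IsDomain R] in
theorem exists_e (hpq : p ≠ q) : ∃ e : R, p e = 1 ∧ q e = -1 := by
  obtain ⟨f, hf⟩ : ∃ f, p f ≠ q f := by
    by_contra h
    push Not at h
    exact hpq (AlgHom.ext h)
  have h0 : p f - q f ≠ 0 := sub_ne_zero.2 hf
  refine ⟨algebraMap K R (2 / (p f - q f)) * f + algebraMap K R (1 - 2 / (p f - q f) * p f),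
    ?_, ?_⟩
  · rw [map_add, map_mul, AlgHom.commutes, AlgHom.commutes, Algebra.algebraMap_self_apply,
      Algebra.algebraMap_self_apply]
    ring
  · rw [map_add, map_mul, AlgHom.commutes, AlgHom.commutes, Algebra.algebraMap_self_apply,
      Algebra.algebraMap_self_apply]
    have e1 : 2 / (p f - q f) * q f + (1 - 2 / (p f - q f) * p f) =
        1 - 2 / (p f - q f) * (p f - q f) := by ring
    rw [e1, div_mul_cancel₀ _ h0]
    norm_num

omit [IsDomain R] in
theorem dvd_of {g h t : R} {S : Type} [CommRing S] [Algebra R S] [Algebra K S]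
    [IsLocalization.Away g S] (hg : h ∣ g) (pS : S →ₐ[K] K) (hpS : ∀ r, pS (algebraMap R S r) = p r)
    (hd : ∀ a, p a = 0 → t ∣ h * a) (a : S) (ha : pS a = 0) : algebraMap R S t ∣ a := by
  obtain ⟨n, b, hb⟩ := IsLocalization.Away.surj (S := S) g a
  have pb : p b = 0 := by
    rw [← hpS, ← hb, map_mul, ha, zero_mul]
  have h1 : algebraMap R S t ∣ algebraMap R S h * algebraMap R S b := by
    rw [← map_mul]
    exact map_dvd (algebraMap R S) (hd b pb)
  have hu : IsUnit (algebraMap R S h) := IsLocalization.Away.isUnit_of_dvd g hg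
  have hu2 : IsUnit (algebraMap R S g ^ n) := (IsLocalization.Away.algebraMap_isUnit g).pow n
  rw [hu.dvd_mul_left, ← hb, hu2.dvd_mul_right] at h1
  exact h1

omit [IsDomain R] in
theorem aeval_etale {S : Type} [CommRing S] [Algebra R S] [Algebra K S] [IsScalarTower K R S]
    {t : R} (he : ((algebraMap R S).comp (Polynomial.eval₂RingHom (algebraMap K R) t)).Etale) :
    (Polynomial.aeval (algebraMap R S t) : K[X] →ₐ[K] S).toRingHom.Etale := by
  have e1 : (Polynomial.aeval (algebraMap R S t) : K[X] →ₐ[K] S).toRingHom =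
      (algebraMap R S).comp (Polynomial.eval₂RingHom (algebraMap K R) t) := by
    apply Polynomial.ringHom_ext
    · intro a
      change Polynomial.aeval (algebraMap R S t) (Polynomial.C a) =
        algebraMap R S (Polynomial.eval₂ (algebraMap K R) t (Polynomial.C a))
      rw [Polynomial.aeval_C, Polynomial.eval₂_C, ← IsScalarTower.algebraMap_apply]
    · change Polynomial.aeval (algebraMap R S t) Polynomial.X =
        algebraMap R S (Polynomial.eval₂ (algebraMap K R) t Polynomial.X)
      rw [Polynomial.aeval_X, Polynomial.eval₂_X]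
  rw [e1]
  exact he

theorem nodal_node [IsAlgClosed K] (h2 : (2 : K) ≠ 0) (hι : Function.Injective ι)
    (hr : ∀ f : R, (∃ x, ι x = f) ↔ p f = q f) (hpq : p ≠ q) (hftR : Algebra.FiniteType K R)
    (hftP : Algebra.FiniteType K P) (hsm : SmC K R) (x : Sp P)
    (hx : ∀ s, p (ι s) = 0 ↔ s ∈ x.asIdeal) :
    ∃ (U : Scheme.{0}) (f : U ⟶ Sp P) (h : U ⟶ Sp (NodeRing K)),
      Etale f ∧ Etale h ∧ f ≫ spMap (algebraMap K P) = h ≫ spMap (algebraMap K (NodeRing K)) ∧
        x ∈ Set.range f := by
  obtain ⟨e, pe, qe⟩ := exists_e p q hpq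
  obtain ⟨h1, t1, pt1, ph1, hd1, het1⟩ := coord hftR hsm p
  obtain ⟨h3, t2, qt2, qh3, hd2, het2⟩ := coord hftR hsm q
  set c1 : R := algebraMap K R (2 * p h1)⁻¹ * (h1 * (1 + e)) with hc1
  set c2 : R := algebraMap K R (2 * q h3)⁻¹ * (h3 * (1 - e)) with hc2
  have pc1 : p c1 = 1 := by
    rw [hc1, map_mul, map_mul, map_add, map_one, pe, AlgHom.commutes,
      Algebra.algebraMap_self_apply]
    field_simp
    norm_num
  have qc1 : q c1 = 0 := by
    rw [hc1, map_mul, map_mul, map_add, map_one, qe]
    ring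
  have pc2 : p c2 = 0 := by
    rw [hc2, map_mul, map_mul, map_sub, map_one, pe]
    ring
  have qc2 : q c2 = 1 := by
    rw [hc2, map_mul, map_mul, map_sub, map_one, qe, AlgHom.commutes,
      Algebra.algebraMap_self_apply]
    field_simp
    norm_num
  let S : Type := Localization.Away (e ^ 2 * c1)
  let T : Type := Localization.Away (e ^ 2 * c2)
  have ug1 : IsUnit (p (e ^ 2 * c1)) := by
    rw [map_mul, map_pow, pe, pc1]
    norm_num
  have ug2 : IsUnit (q (e ^ 2 * c2)) := by
    rw [map_mul, map_pow, qe, qc2]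
    norm_num
  let pS : S →ₐ[K] K := IsLocalization.Away.liftAlgHom (e ^ 2 * c1) ug1
  let qT : T →ₐ[K] K := IsLocalization.Away.liftAlgHom (e ^ 2 * c2) ug2
  have hpS : ∀ r, pS (algebraMap R S r) = p r := fun r => IsLocalization.Away.lift_eq _ ug1 r
  have hqT : ∀ r, qT (algebraMap R T r) = q r := fun r => IsLocalization.Away.lift_eq _ ug2 r
  have hd : ∀ x, pS (algebraMap R S (ι x)) = qT (algebraMap R T (ι x)) := by
    intro x
    rw [hpS, hqT]
    exact (hr _).1 ⟨x, rfl⟩
  have hcov := et_cov ι p q pS qT h2 hι hr e c1 c2 pe qe pc1 qc1 pc2 qc2 hpS hqT hd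
  have hg1 : h1 ∣ e ^ 2 * c1 := by
    rw [hc1]
    exact ⟨e ^ 2 * algebraMap K R (2 * p h1)⁻¹ * (1 + e), by ring⟩
  have hg2 : h3 ∣ e ^ 2 * c2 := by
    rw [hc2]
    exact ⟨e ^ 2 * algebraMap K R (2 * q h3)⁻¹ * (1 - e), by ring⟩
  have hftG : Algebra.FiniteType K (Gl pS qT) := by
    let _ : Algebra P (Gl pS qT) := ((dg ι pS qT hd : P →ₐ[K] Gl pS qT) : P →+* Gl pS qT).toAlgebra
    have hst : IsScalarTower K P (Gl pS qT) :=
      IsScalarTower.of_algebraMap_eq (R := K) (S := P) (A := Gl pS qT) fun c =>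
        ((dg ι pS qT hd).commutes c).symm
    have : Algebra.Etale P (Gl pS qT) := hcov
    exact Algebra.FiniteType.trans hftP inferInstance
  have hu : pS (algebraMap R S t1) = 0 := by rw [hpS, pt1]
  have hv : qT (algebraMap R T t2) = 0 := by rw [hqT, qt2]
  have hnode := et_node hu hv (dvd_of p hg1 pS hpS hd1) (dvd_of q hg2 qT hqT hd2)
    (aeval_etale (etale_dvd hg1 het1)) (aeval_etale (etale_dvd hg2 het2)) hftG
  refine ⟨Sp (Gl pS qT), spMap ((dg ι pS qT hd : P →ₐ[K] Gl pS qT) : P →+* Gl pS qT),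
    spMap ((nod hu hv : NodeRing K →ₐ[K] Gl pS qT) : NodeRing K →+* Gl pS qT),
    NOD.etale_spMap hcov, NOD.etale_spMap hnode, ?_, ?_⟩
  · rw [← Spec.map_comp, ← Spec.map_comp, ← CommRingCat.ofHom_comp, ← CommRingCat.ofHom_comp]
    congr 2
    refine RingHom.ext fun c => ?_
    change dg ι pS qT hd (algebraMap K P c) = nod hu hv (algebraMap K (NodeRing K) c)
    rw [AlgHom.commutes, AlgHom.commutes]
  · let n : PrimeSpectrum (Gl pS qT) :=
      ⟨RingHom.ker (pS.comp ((AlgHom.fst K S T).comp (Gl pS qT).val)), RingHom.ker_isPrime _⟩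
    refine ⟨n, ?_⟩
    apply PrimeSpectrum.ext
    ext s
    have hi : s ∈ (spMap ((dg ι pS qT hd : P →ₐ[K] Gl pS qT) : P →+* Gl pS qT) n).asIdeal ↔
      pS (algebraMap R S (ι s)) = 0 := Iff.rfl
    rw [hi, hpS, hx]

end node

theorem nodal_of {K P R : Type} [Field K] [IsAlgClosed K] [CommRing P] [Algebra K P] [CommRing R]
    [IsDomain R] [Algebra K R] (ι : P →ₐ[K] R) (p q : R →ₐ[K] K) (h2 : (2 : K) ≠ 0)
    (hι : Function.Injective ι) (hr : ∀ f : R, (∃ x, ι x = f) ↔ p f = q f) (hpq : p ≠ q)
    (hftR : Algebra.FiniteType K R) (hftP : Algebra.FiniteType K P) (hsm : SmC K R)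
    (hnod : Nodal (spMap (algebraMap K R))) : Nodal (spMap (algebraMap K P)) := by
  intro x
  by_cases hc : ∀ s : P, p (ι s) = 0 → s ∈ x.asIdeal
  · refine nodal_node ι p q h2 hι hr hpq hftR hftP hsm x fun s => ⟨hc s, fun hs => ?_⟩
    by_contra h0
    have h1 : s - algebraMap K P (p (ι s)) ∈ x.asIdeal := hc _ (by
      rw [map_sub, map_sub, AlgHom.commutes, AlgHom.commutes, Algebra.algebraMap_self_apply,
        sub_self])
    have h3 : algebraMap K P (p (ι s)) ∈ x.asIdeal := by
      have := x.asIdeal.sub_mem hs h1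
      rwa [sub_sub_cancel] at this
    have h4 : IsUnit (algebraMap K P (p (ι s))) := (IsUnit.mk0 _ h0).map (algebraMap K P)
    exact x.isPrime.ne_top (Ideal.eq_top_of_isUnit_mem _ h3 h4)
  · push Not at hc
    obtain ⟨s, hs, hsx⟩ := hc
    exact nodal_away ι p q hι hr hnod s hs x hsx

end KNNm

theorem t_KNN (hKDM : Stmt_KDM) (hKNS : Stmt_KNS) (hPLE : Stmt_PLE) (hKFP : Stmt_KFP) :
    Stmt_KNN := by
  intro I K _ _ _ _ _ g P hP hN
  obtain ⟨h, R, p, q, -, hR, hsm, hpq, hPR⟩ := hN
  have hdom : IsDomain R := (hKDM hR hsm).1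
  obtain ⟨⟨z⟩, -⟩ := hPLE hP
  obtain ⟨⟨w⟩, -⟩ := hPLE hR
  have fpP : Algebra.FinitePresentation K P := (hKFP hP z).1
  have fpR : Algebra.FinitePresentation K R := (hKFP hR w).1
  have hle : P ≤ R := fun f hf => ((hPR f).1 hf).choose
  refine KNNm.nodal_of (Subalgebra.inclusion hle) p q two_ne_zero
    (Subalgebra.inclusion_injective hle) ?_ hpq inferInstance inferInstance hsm.2 (hKNS hR hsm)
  intro f
  constructor
  · rintro ⟨x, rfl⟩
    obtain ⟨h1, h2⟩ := (hPR x).1 x.2
    exact h2
  · intro hf
    exact ⟨⟨f, (hPR f).2 ⟨f.2, hf⟩⟩, rfl⟩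

end Pool.Agent.MG.KX


end

section

set_option autoImplicit false

/-!
# PDS: scaling of deformations of Krichever rings
-/

open CategoryTheory CategoryTheory.Limits AlgebraicGeometry
open scoped TensorProduct

namespace Pool.Agent.MG.KX

open Pool.Agent.MG.G0 Pool.Agent.MG.GLU

namespace PDSp

variable {I A : Type} [CommRing A]

theorem eps0_scale (a : A) (F : KK I (Eps A)) :
    kmap (eps0 A) (kmap (epsScale a) F) = kmap (eps0 A) F := by
  funext i
  ext n
  simp

theorem ksnd_scale (a : A) (F : KK I (Eps A)) :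
    ksnd (kmap (epsScale a) F) = a • ksnd F := by
  funext i
  ext n
  simp

theorem scale_mem (a : A) {P : Subalgebra A (KK I A)} {δ : DD P} {F : KK I (Eps A)}
    (hF : F ∈ Pdel P δ) : kmap (epsScale a) F ∈ Pdel P (a • δ) := by
  obtain ⟨h0, h1⟩ := mem_Pdel.1 hF
  rw [mem_Pdel]
  have h2 : kmap (eps0 A) (kmap (epsScale a) F) ∈ P := by
    rw [eps0_scale]
    exact h0
  refine ⟨h2, ?_⟩
  have e : (⟨kmap (eps0 A) (kmap (epsScale a) F), h2⟩ : P) = ⟨kmap (eps0 A) F, h0⟩ :=
    Subtype.ext (eps0_scale a F)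
  rw [e, ksnd_scale, mk_smulA, ← h1]
  rfl

theorem decomp (a : A) (F G H : KK I (Eps A)) (h0 : kmap (eps0 A) G = kmap (eps0 A) F)
    (h1 : kmap (eps0 A) H = ksnd F - a • ksnd G) :
    F = kmap (epsScale a) G + epsE A • kmap (epsScale a) H := by
  funext i
  have h2 : ∀ n : ℤ, ((G i).coeff n).fst = ((F i).coeff n).fst := fun n =>
    congrArg (fun f : LaurentSeries A => f.coeff n) (congrFun h0 i)
  have h3 : ∀ n : ℤ, ((H i).coeff n).fst = ((F i).coeff n).snd - a * ((G i).coeff n).snd :=
    fun n => congrArg (fun f : LaurentSeries A => f.coeff n) (congrFun h1 i)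
  ext n
  · simp [epsE, h2 n]
  · simp [epsE, h3 n]

end PDSp

open _root_.Pool.Agent.MG.KX.PDSp in
/-- PDS: scaling. -/
theorem t_PDS (hPDK : Stmt_PDK) : Stmt_PDS := by
  intro I A _ _ _ g P hP a δ
  obtain ⟨-, -, hlift, -⟩ := hPDK hP δ
  apply le_antisymm
  · refine Algebra.adjoin_le ?_
    rintro _ ⟨F, hF, rfl⟩
    exact scale_mem a hF
  · intro F hF
    obtain ⟨hF0, hF1⟩ := mem_Pdel.1 hF
    obtain ⟨G, hG, hGF⟩ := hlift _ hF0
    obtain ⟨hG0, hG1⟩ := mem_Pdel.1 hG
    have hp : ksnd F - a • ksnd G ∈ P := by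
      rw [← mk_eq, mk_smulA, ← hG1, ← hF1]
      have e : (⟨kmap (eps0 A) F, hF0⟩ : P) = ⟨kmap (eps0 A) G, hG0⟩ := Subtype.ext hGF.symm
      rw [e]
      rfl
    obtain ⟨H, hH, hHp⟩ := hlift _ hp
    rw [decomp a F G H hGF hHp]
    exact add_mem (kmap_mem_bc _ hG) (Subalgebra.smul_mem _ (kmap_mem_bc _ hH) _)

end Pool.Agent.MG.KX


end

section

/-!
# ZBA: the family over a ring with a nilpotent `t`
-/

open Polynomial

namespace Pool.Agent.MG.G0

namespace ZBA

section

variable {A : Type} [CommRing A]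

/-- The coefficients of `q(z)` are coefficients of `q`. -/
theorem zpol_coeff_mem {J : Ideal A} {d : ℕ} (hd : d ≠ 0) {q : A[X]}
    (hq : ∀ i, q.coeff i ∈ J) (m : ℤ) : (zpol A d q).coeff m ∈ J := by
  by_cases h : ∃ k : ℕ, m = -((d * k : ℕ) : ℤ)
  · obtain ⟨k, rfl⟩ := h
    have e : (zpol A d q).coeff (-((d * k : ℕ) : ℤ)) = q.coeff k := ZL.ev_coeff d hd q k
    rw [e]
    exact hq k
  · have e : (zpol A d q).coeff m = 0 := ZL.ev_coeff_ne d q m fun k hk => h ⟨k, hk⟩
    rw [e]
    exact J.zero_mem

theorem span_pow {t : A} (ht : IsNilpotent t) : ∃ n : ℕ, Ideal.span {t} ^ n = ⊥ := by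
  obtain ⟨n, hn⟩ := ht
  exact ⟨n, by rw [Ideal.span_singleton_pow, hn, Ideal.span_singleton_eq_bot]⟩

/-- A polynomial which divides and is divided modulo a nilpotent ideal. -/
theorem exists_unit {t : A} (ht : IsNilpotent t) {F P : A[X]} (hP : P.Monic) (hdvd : P ∣ F)
    (hF : F.map (Ideal.Quotient.mk (Ideal.span {t})) =
      P.map (Ideal.Quotient.mk (Ideal.span {t}))) :
    ∃ q : A[X], IsUnit q ∧ F = q * P := by
  obtain ⟨q, hq⟩ := hdvd
  refine ⟨q, ?_, by rw [hq, mul_comm]⟩
  have h1 : q.map (Ideal.Quotient.mk (Ideal.span {t})) = 1 := by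
    have h2 : (P.map (Ideal.Quotient.mk (Ideal.span {t}))).Monic := hP.map _
    rw [hq, Polynomial.map_mul] at hF
    refine h2.isRegular.left ?_
    change P.map _ * q.map _ = P.map _ * 1
    rw [hF, mul_one]
  have h3 : IsNilpotent (q - 1) := by
    rw [Polynomial.isNilpotent_iff]
    intro i
    have h4 : (q - 1).coeff i ∈ Ideal.span {t} := by
      rw [← Ideal.Quotient.eq_zero_iff_mem, ← Polynomial.coeff_map, Polynomial.map_sub, h1,
        Polynomial.map_one, sub_self, Polynomial.coeff_zero]
    obtain ⟨c, hc⟩ := Ideal.mem_span_singleton'.1 h4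
    rw [← hc]
    exact (Commute.all c t).isNilpotent_mul_left ht
  have h5 : q = 1 + (q - 1) := by ring
  rw [h5]
  exact h3.isUnit_one_add

theorem disc_of_unit {d : ℕ} {R : Subalgebra A (LaurentSeries A)} {P q : A[X]} (hq : IsUnit q)
    (h : Disc d R (q * P)) : Disc d R P := by
  obtain ⟨e, G, he, hG, u, hu, hdet⟩ := h
  exact ⟨e, G, he, hG, u * q, hu.mul hq, by rw [hdet, mul_assoc]⟩

end

end ZBA

/-- ZBA: the family over a ring with a nilpotent `t`. -/
theorem t_ZBA (hZDB : Stmt_ZDB) (hBGA : Stmt_BGA) (hPSK : Stmt_PSK) : Stmt_ZBA := by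
  intro k A _ _ _ g d b hd hdk R hR hz β α hβ hDisc t ht a ha hr
  have hdA : IsUnit (d : A) := by
    have h := (IsUnit.mk0 _ hdk).map (algebraMap k A)
    rwa [map_natCast] at h
  obtain ⟨hz', -, hD⟩ := hZDB k A (algebraMap k A) g d R hd hR hz
  obtain ⟨h1, h2⟩ := hPSK d hd hdA (Ideal.span {t}) (ZBA.span_pow ht)
  obtain ⟨h3, h4⟩ := h2 a ha (bc1 (algebraMap k A) R) hz'
  refine ⟨h3, ?_, fun Γ hΓ => ?_⟩
  · have h5 := h4 _ (hD _ hDisc)
    set F : A[X] := ((∏ l, (X - C (β l))).map (algebraMap k A)).comp (X + a) with hFdef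
    have hF : F = ∏ l, (X + a - C (algebraMap k A (β l))) := by
      rw [hFdef, Polynomial.map_prod, Polynomial.prod_comp]
      refine Finset.prod_congr rfl fun l _ => ?_
      rw [Polynomial.map_sub, Polynomial.map_X, Polynomial.map_C, Polynomial.sub_comp,
        Polynomial.X_comp, Polynomial.C_comp]
    have hmon : (ft d β α t).Monic := monic_prod_of_monic _ _ fun l _ => monic_X_sub_C _
    have hdvd : ft d β α t ∣ F := by
      refine Finset.prod_dvd_of_coprime ?_ ?_
      · intro l _ m _ hlm
        refine isCoprime_X_sub_C_of_isUnit_sub ?_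
        have e : algebraMap k A (β l) + t ^ d * algebraMap k A (α l) -
            (algebraMap k A (β m) + t ^ d * algebraMap k A (α m)) =
            algebraMap k A (β l - β m) + t ^ d * algebraMap k A (α l - α m) := by
          rw [map_sub, map_sub]
          ring
        rw [e]
        refine IsNilpotent.isUnit_add_left_of_commute ?_ ?_ (Commute.all _ _)
        · exact ((Commute.all _ _).isNilpotent_mul_right ((IsNilpotent.pow_iff_pos hd.ne').2 ht))
        · exact (IsUnit.mk0 _ (sub_ne_zero.2 fun h => hlm (hβ h))).map (algebraMap k A)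
      · intro l _
        rw [dvd_iff_isRoot, IsRoot.def, hF, eval_prod]
        refine Finset.prod_eq_zero (Finset.mem_univ l) ?_
        rw [eval_sub, eval_add, eval_X, eval_C, hr l]
        ring
    have hmap : F.map (Ideal.Quotient.mk (Ideal.span {t})) =
        (ft d β α t).map (Ideal.Quotient.mk (Ideal.span {t})) := by
      have ha0 : a.map (Ideal.Quotient.mk (Ideal.span {t})) = 0 := by
        ext i
        rw [Polynomial.coeff_map, Polynomial.coeff_zero, Ideal.Quotient.eq_zero_iff_mem]
        exact ha i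
      have ht0 : Ideal.Quotient.mk (Ideal.span {t}) t = 0 :=
        Ideal.Quotient.eq_zero_iff_mem.2 (Ideal.mem_span_singleton_self t)
      rw [hF, ft, Polynomial.map_prod, Polynomial.map_prod]
      refine Finset.prod_congr rfl fun l _ => ?_
      rw [Polynomial.map_sub, Polynomial.map_add, Polynomial.map_X, ha0, add_zero,
        Polynomial.map_C, Polynomial.map_sub, Polynomial.map_X, Polynomial.map_C, map_add,
        map_mul, map_pow, ht0, zero_pow hd.ne', zero_mul, add_zero]
    obtain ⟨q, hq, hFq⟩ := ZBA.exists_unit ht hmon hdvd hmap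
    rw [hFq] at h5
    exact ZBA.disc_of_unit hq h5
  · exact ((h1 (zpol A d a) (ZBA.zpol_coeff_mem hd.ne' ha)).2 (bc1 (algebraMap k A) R)).2.1 Γ
      ((hBGA.2 (algebraMap k A) Γ R hΓ).1)

end Pool.Agent.MG.G0


end
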