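import Mathlib
import Pool.Agent.KDM.C11
import Pool.Agent.KDM.C12
import Pool.Agent.KDM.C13

/-! Parts: MG.G0.StmtsZH, MG.G0.ZCA, MG.G0.ZCE, MG.G0.ZCI, MG.G0.ZFC, MG.G0.ZFD, MG.G0.ZFE, MG.G0.ZFF, MG.G0.ZFV, MG.G0.ZGR, MG.G0.ZIC, MG.G0.ZLA, MG.G0.ZOD, MG.G0.ZOI, MG.G0.ZOR, MG.G0.ZPC, MG.G0.ZRR, MG.G0.ZRW, MG.G0.ZSL -/

section

/-!
# Theorem Z: places, ordinarity, finiteness. Statements (PAPER_Z.md)
-/

open Polynomial

namespace Pool.Agent.MG.G0

/-! ## The quadratic form `res (a(z) ω ω' / dz)` -/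

/-- ZLA: the corank of a matrix at a point is at most the order of the determinant. -/
def Stmt_ZLA : Prop :=
  (∀ {K : Type} [Field K] {n : ℕ} (M : Matrix (Fin n) (Fin n) K[X]) (c : K),
    (X - C c) ^ (n - (M.map (eval c)).rank) ∣ M.det) ∧
  ∀ {K : Type} [Field K] {n : ℕ} (M : Matrix (Fin n) (Fin n) K[X]) (c : K),
    ¬ (X - C c) ^ 2 ∣ M.det → ∀ v w : Fin n → K, (M.map (eval c)).mulVec v = 0 →
      (M.map (eval c)).mulVec w = 0 → v ≠ 0 → ∃ a : K, w = a • v

/-- ZRF: the coefficient of `z⁻¹` in `N/f`, `f = ∏ (z - βₗ)`. -/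
def Stmt_ZRF : Prop :=
  ∀ {K : Type} [Field K] {d b : ℕ} (β : Fin b → K), 0 < d → Function.Injective β →
    ∀ (N : K[X]) (x : LaurentSeries K), zpol K d (∏ l, (X - C (β l))) * x = zpol K d N →
      x.coeff d = ∑ l, N.eval (β l) * (∏ m ∈ Finset.univ.erase l, (β l - β m))⁻¹

/-- ZQA: the form `res (a(z) ω ω' / dz)` is a sum of squares. -/
def Stmt_ZQA : Prop :=
  ∀ {K : Type} [Field K] {g d b : ℕ} {R : Subalgebra K (LaurentSeries K)} (β : Fin b → K),
    1 ≤ d → (d : K) ≠ 0 → Kr g R → zz K d ∈ R → Function.Injective β →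
    Disc d R (∏ l, (X - C (β l))) →
    ∃ (ev : Fin b → EE1 R →ₗ[K] K) (c : Fin b → K), (∀ l, c l ≠ 0) ∧
      (∀ ω : EE1 R, (∀ l, ev l ω = 0) → ω = 0) ∧
      ∀ (a : K[X]) (ω ω' : EE1 R) (y : LaurentSeries K),
        y * ld (zz K d) = zpol K d a * (ω : LaurentSeries K) →
        ((ω' : LaurentSeries K) * y).coeff (-1) = ∑ l, a.eval (β l) * c l * (ev l ω * ev l ω')

/-- ZQL: a generic combination of squares is nondegenerate. -/
def Stmt_ZQL : Prop :=
  ∀ {K E : Type} [Field K] [Field E] [Algebra K E] {g b : ℕ} (v : Fin b → Fin g → K)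
    (c : Fin b → K) (α : Fin b → E), (∀ l, c l ≠ 0) →
    (∀ x : Fin g → K, (∀ l, ∑ i, v l i * x i = 0) → x = 0) → AlgebraicIndependent K α →
    (∑ l, (α l * algebraMap K E (c l)) • Matrix.vecMulVec (fun i => algebraMap K E (v l i))
      (fun i => algebraMap K E (v l i)) : Matrix (Fin g) (Fin g) E).det ≠ 0

/-- ZQN: the form `res (a(z) ω ω' / dz)` is nondegenerate if the values of `a` at the branch points
are algebraically independent. -/
def Stmt_ZQN : Prop :=
  ∀ {K E : Type} [Field K] [Field E] [Algebra K E] {g d b : ℕ}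
    {R : Subalgebra K (LaurentSeries K)} (β : Fin b → K) (α : Fin b → E), 1 ≤ d → (d : K) ≠ 0 →
    Kr g R → zz K d ∈ R → Function.Injective β → Disc d R (∏ l, (X - C (β l))) →
    AlgebraicIndependent K α → ∀ a : E[X], (∀ l, a.eval (algebraMap K E (β l)) = α l) →
    ∀ μ ∈ EE1 (bc1 (algebraMap K E) R),
      (∀ ω ∈ EE1 (bc1 (algebraMap K E) R), ∀ y : LaurentSeries E,
        y * ld (zz E d) = zpol E d a * ω → (μ * y).coeff (-1) = 0) → μ = 0

/-! ## The Cartier operator -/

/-- ZCE: coefficients of `fⁿ⁻¹ df` and of `fᵖ`. -/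
def Stmt_ZCE : Prop :=
  (∀ {A : Type} [CommRing A] (f : LaurentSeries A) (n : ℕ) (m : ℤ), 0 < n →
    (f ^ (n - 1) * ld f).coeff (n * m - 1) = (m : A) * (f ^ n).coeff (n * m)) ∧
  ∀ {A : Type} [CommRing A] (p : ℕ), p.Prime → CharP A p → ∀ (f : LaurentSeries A) (m : ℤ),
    (f ^ p).coeff (p * m) = (f.coeff m) ^ p ∧ (¬ (p : ℤ) ∣ m → (f ^ p).coeff m = 0)

/-- The Cartier operator takes `η'` to `η`. -/
def Car {A : Type} [CommRing A] (p : ℕ) (η' η : LaurentSeries A) : Prop :=
  ∀ m : ℤ, η'.coeff (p * m + (p - 1)) = (η.coeff m) ^ p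

/-- ZCA: properties of the Cartier operator. -/
def Stmt_ZCA : Prop :=
  ∀ {A : Type} [CommRing A] (p : ℕ), p.Prime → CharP A p →
    (∀ f : LaurentSeries A, Car p (f ^ (p - 1) * ld f) (ld f)) ∧
    (∀ η' η f : LaurentSeries A, Car p η' η → Car p (f ^ p * η') (f * η)) ∧
    (∀ η' η ξ' ξ : LaurentSeries A, Car p η' η → Car p ξ' ξ → Car p (η' + ξ') (η + ξ)) ∧
    ∀ η' η f : LaurentSeries A, Car p η' η →
      (f ^ p * η').coeff (-1) = ((f * η).coeff (-1)) ^ p

/-- ZCI: if `vᵖ = h + o` and `dh = 0` then `v` is in `R + K[[τ]]`. -/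
def Stmt_ZCI : Prop :=
  ∀ {K : Type} [Field K] [IsAlgClosed K] (p : ℕ), p.Prime → CharP K p → ∀ {g : ℕ}
    {R : Subalgebra K (LaurentSeries K)}, Kr g R → SmC K (uno R) → Dual (uno R) →
    ∀ v h : LaurentSeries K, h ∈ R → v ^ p - h ∈ Po K 0 → ld h = 0 → ∃ q ∈ R, v - q ∈ Po K 0

/-- ZOR: the first order part of the Hasse-Witt matrix is injective. -/
def Stmt_ZOR : Prop :=
  ∀ {k₁ k : Type} [Field k₁] [Field k] [IsAlgClosed k] [Algebra k₁ k] (p : ℕ), p.Prime →
    CharP k p → ∀ {g d b : ℕ} {R : Subalgebra k₁ (LaurentSeries k₁)} (β : Fin b → k₁)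
    (α : Fin b → k), 1 ≤ d → (d : k) ≠ 0 → Kr g R → zz k₁ d ∈ R → Function.Injective β →
    Disc d R (∏ l, (X - C (β l))) → SmC k (uno (bc1 (algebraMap k₁ k) R)) →
    Dual (uno (bc1 (algebraMap k₁ k) R)) → Ssp p (bc1 (algebraMap k₁ k) R) →
    AlgebraicIndependent k₁ α → ∀ a : k[X], (∀ l, a.eval (algebraMap k₁ k (β l)) = α l) →
    ∀ μ ∈ EE1 (bc1 (algebraMap k₁ k) R),
      (∀ v h y : LaurentSeries k, h ∈ bc1 (algebraMap k₁ k) R → v ^ p - h ∈ Po k 0 →
        y * ld (zz k d) = zpol k d a * ld h → (μ * y).coeff (-1) = 0) → μ = 0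

/-- `f ↦ fᵖ` on `A((τ))/(R + A[[τ]])` has an injective transpose. -/
def Ord {A : Type} [CommRing A] (p : ℕ) (R : Subalgebra A (LaurentSeries A)) : Prop :=
  ∀ μ ∈ EE1 R, (∀ f : LaurentSeries A, (μ * f ^ p).coeff (-1) = 0) → μ = 0

/-- The first order part of the family `RI` over `k[[t]]` is `1 - tᵈ a(z) d/dz`. -/
def Fst {k : Type} [Field k] (d : ℕ) (Rb : Subalgebra k (LaurentSeries k))
    (RI : Subalgebra (PowerSeries k) (LaurentSeries (PowerSeries k))) (a : k[X]) : Prop :=
  ∀ h ∈ Rb, ∃ (y : LaurentSeries k) (w : LaurentSeries (PowerSeries k)),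
    y * ld (zz k d) = zpol k d a * ld h ∧
    lmap (PowerSeries.C (R := k)) h - (PowerSeries.X : PowerSeries k) ^ d •
      lmap (PowerSeries.C (R := k)) y + (PowerSeries.X : PowerSeries k) ^ (d + 1) • w ∈ RI

/-- ZOI: ordinarity of the family over `k((t))`. -/
def Stmt_ZOI : Prop :=
  ∀ {k : Type} [Field k] (p : ℕ), p.Prime → CharP k p → ∀ {g d : ℕ}
    {Rb : Subalgebra k (LaurentSeries k)}
    {RI : Subalgebra (PowerSeries k) (LaurentSeries (PowerSeries k))} (a : k[X]), 1 ≤ d →
    (d : k) ≠ 0 → Kr g Rb → Kr g RI → bc1 (PowerSeries.constantCoeff (R := k)) RI = Rb →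
    Fst d Rb RI a →
    (∀ μ ∈ EE1 Rb, (∀ v h y : LaurentSeries k, h ∈ Rb → v ^ p - h ∈ Po k 0 →
      y * ld (zz k d) = zpol k d a * ld h → (μ * y).coeff (-1) = 0) → μ = 0) →
    Ord p (bc1 (psl k) RI)

/-- ZOD: descent of ordinarity. -/
def Stmt_ZOD : Prop :=
  ∀ {L Ω : Type} [Field L] [Field Ω] (ψ : L →+* Ω) (p : ℕ), p.Prime → CharP L p → ∀ {g : ℕ}
    {R : Subalgebra L (LaurentSeries L)}, Kr g R → Ord p (bc1 ψ R) → Ord p R

/-! ## Multilinear forms -/

section

variable {A : Type} [CommRing A]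

/-- The functional `μ ↦ res (μ f)`. -/
noncomputable def rf (R : Subalgebra A (LaurentSeries A)) (f : LaurentSeries A) :
    EE1 R →ₗ[A] A where
  toFun μ := ((μ : LaurentSeries A) * f).coeff (-1)
  map_add' x y := by
    rw [Submodule.coe_add, add_mul, HahnSeries.coeff_add]
  map_smul' a x := by
    rw [Submodule.coe_smul, smul_mul_assoc, HahnSeries.coeff_smul, RingHom.id_apply]

theorem rf_apply (R : Subalgebra A (LaurentSeries A)) (f : LaurentSeries A) (μ : EE1 R) :
    rf R f μ = ((μ : LaurentSeries A) * f).coeff (-1) := rfl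

/-- The multilinear form `∑ᵢ aᵢ ∏ⱼ res (μⱼ fᵢⱼ)`. -/
noncomputable def tns (R : Subalgebra A (LaurentSeries A)) {ι : Type} [Fintype ι] {r : ℕ}
    (a : ι → A) (f : ι → Fin r → LaurentSeries A) :
    MultilinearMap A (fun _ : Fin r => EE1 R) A :=
  ∑ i, a i • (MultilinearMap.mkPiAlgebra A (Fin r) A).compLinearMap fun j => rf R (f i j)

theorem tns_apply (R : Subalgebra A (LaurentSeries A)) {ι : Type} [Fintype ι] {r : ℕ}
    (a : ι → A) (f : ι → Fin r → LaurentSeries A) (μ : Fin r → EE1 R) :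
    tns R a f μ = ∑ i, a i * ∏ j, ((μ j : LaurentSeries A) * f i j).coeff (-1) := by
  rw [tns, sum_apply]
  refine Finset.sum_congr rfl fun i _ => ?_
  rw [smul_apply, MultilinearMap.compLinearMap_apply,
    MultilinearMap.mkPiAlgebra_apply, smul_eq_mul]
  rfl

end

/-- ZFF: the Frobenius on multilinear forms. -/
def Stmt_ZFF : Prop :=
  ∀ {L : Type} [Field L] (p : ℕ), p.Prime → CharP L p → ∀ {g : ℕ}
    {R : Subalgebra L (LaurentSeries L)}, Kr g R → ∀ r : ℕ,
    ∃ F : MultilinearMap L (fun _ : Fin r => EE1 R) L → MultilinearMap L (fun _ : Fin r => EE1 R) L,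
      (∀ {ι : Type} [Fintype ι] (a : ι → L) (f : ι → Fin r → LaurentSeries L),
        F (tns R a f) = tns R (fun i => a i ^ p) fun i j => f i j ^ p) ∧
      (∀ S T, F (S + T) = F S + F T) ∧ (∀ (c : L) S, F (c • S) = c ^ p • F S) ∧
      (Ord p R → ∀ S, F S = 0 → S = 0)

/-- ZFE: expansion of multilinear forms at a place. -/
def Stmt_ZFE : Prop :=
  ∀ {k L : Type} [Field k] [Field L] [Algebra k L] {g d : ℕ}
    {R : Subalgebra L (LaurentSeries L)} (v : Plc k L g d R), 1 ≤ g →
    (∀ (μ : EE1 R) (η : EE1 v.M.P), lmap (algebraMap v.O L) (η : LaurentSeries v.O) =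
        ((v.c⁻¹ : Lˣ) : L) • sc v.c (μ : LaurentSeries L) → ∀ x : LaurentSeries v.O,
      ((μ : LaurentSeries L) * sc v.c⁻¹ (lmap (algebraMap v.O L) x)).coeff (-1) =
        algebraMap v.O L (((η : LaurentSeries v.O) * x).coeff (-1))) ∧
    ∃ (ω : Fin g → EE1 R) (η : Fin g → EE1 v.M.P) (f : Fin g → LaurentSeries v.O),
      (∀ i, lmap (algebraMap v.O L) (η i : LaurentSeries v.O) =
        ((v.c⁻¹ : Lˣ) : L) • sc v.c (ω i : LaurentSeries L)) ∧
      (∀ i, f i ∈ Po v.O (2 * g - 1)) ∧
      ∀ (r : ℕ) (S : MultilinearMap L (fun _ : Fin r => EE1 R) L),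
        S = tns R (fun K : Fin r → Fin g => S fun j => ω (K j))
          fun K j => sc v.c⁻¹ (lmap (algebraMap v.O L) (f (K j)))

/-- The values of `S` at the place `v` are divisible by `πⁿ`. -/
def Plc.IntN {k L : Type} [Field k] [Field L] [Algebra k L] {g d : ℕ}
    {R : Subalgebra L (LaurentSeries L)} (v : Plc k L g d R) (n : ℕ) {r : ℕ}
    (S : MultilinearMap L (fun _ : Fin r => EE1 R) L) : Prop :=
  ∀ (ω : Fin r → EE1 R) (η : Fin r → EE1 v.M.P),
    (∀ i, lmap (algebraMap v.O L) (η i : LaurentSeries v.O) =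
      ((v.c⁻¹ : Lˣ) : L) • sc v.c (ω i : LaurentSeries L)) →
    ∃ x : v.O, algebraMap v.O L (v.M.π ^ n * x) = S ω

/-- ZFC: the Frobenius preserves integral forms, and contracts at superspecial places. -/
def Stmt_ZFC : Prop :=
  ∀ {k L : Type} [Field k] [Field L] [Algebra k L] (p : ℕ), p.Prime → CharP k p → ∀ {g d r : ℕ}
    {R : Subalgebra L (LaurentSeries L)} (v : Plc k L g d R), 1 ≤ g →
    ∀ F : MultilinearMap L (fun _ : Fin r => EE1 R) L →
      MultilinearMap L (fun _ : Fin r => EE1 R) L,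
    (∀ {ι : Type} [Fintype ι] (a : ι → L) (f : ι → Fin r → LaurentSeries L),
        F (tns R a f) = tns R (fun i => a i ^ p) fun i j => f i j ^ p) →
    (∀ S, v.Int S → v.Int (F S)) ∧
    (1 ≤ r → Ssp p v.M.Pb → ∀ (n : ℕ) (S), v.IntN n S → v.IntN (n + 1) (F S)) ∧
    ((∀ x : v.O, (∀ n : ℕ, v.M.π ^ n ∣ x) → x = 0) →
      ∀ S : MultilinearMap L (fun _ : Fin r => EE1 R) L, (∀ n, v.IntN n S) → S = 0)

/-- ZSL: injective semilinear maps. -/
def Stmt_ZSL : Prop :=
  ∀ {k V : Type} [Field k] [IsAlgClosed k] [AddCommGroup V] [Module k V] (p : ℕ), p.Prime →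
    CharP k p → ∀ H : Submodule k V, FiniteDimensional k H → ∀ F : V → V,
    (∀ x y, F (x + y) = F x + F y) → (∀ (a : k) (x : V), F (a • x) = a ^ p • F x) →
    (∀ x ∈ H, F x ∈ H) → (∀ x ∈ H, F x = 0 → x = 0) → ∀ x ∈ H, ∃ y ∈ H, F y = x

/-! ## Finiteness -/

/-- ZIC: integrality over `k[s]` in a finite separable extension of `F = k(s)`. -/
def Stmt_ZIC : Prop :=
  ∀ {k F L : Type} [Field k] [Field F] [Field L] [Algebra k F] [Algebra F L] [Algebra k L]
    [IsScalarTower k F L] (s : F), Transcendental k s → IntermediateField.adjoin k {s} = ⊤ →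
    FiniteDimensional F L → Algebra.IsSeparable F L →
    (∀ y : L, (∀ (O : Type) [CommRing O] [IsDomain O] [IsDiscreteValuationRing O] [Algebra k O]
      [Algebra O L] [IsScalarTower k O L] [IsFractionRing O L],
        (∃ x : O, algebraMap O L x = algebraMap F L s) → ∃ x : O, algebraMap O L x = y) →
      ((algebraMap F L).comp (aeval (R := k) s).toRingHom).IsIntegralElem y) ∧
    (∀ y : L, ((algebraMap F L).comp (aeval (R := k) s).toRingHom).IsIntegralElem y →
      ∃ q : k[X], Algebra.trace F L y = aeval s q) ∧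
    ∀ c : L, ∃ h : k[X], h ≠ 0 ∧
      ((algebraMap F L).comp (aeval (R := k) s).toRingHom).IsIntegralElem
        (algebraMap F L (aeval s h) * c)

/-- ZRW: functions on the projective line with bounded denominators. -/
def Stmt_ZRW : Prop :=
  ∀ {k F : Type} [Field k] [Field F] [Algebra k F] (t : F), Transcendental k t →
    ∀ h h' : k[X], h ≠ 0 → h' ≠ 0 → ∃ W : Submodule k F, FiniteDimensional k W ∧
      ∀ x : F, (∃ q : k[X], aeval t h * x = aeval t q) →
        (∃ q : k[X], aeval t⁻¹ h' * x = aeval t⁻¹ q) → x ∈ W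

/-- ZRR: the elements of `L` with bounded denominators at all discrete valuation rings are a finite
dimensional space. -/
def Stmt_ZRR : Prop :=
  ∀ {k F L : Type} [Field k] [Field F] [Field L] [Algebra k F] [Algebra F L] [Algebra k L]
    [IsScalarTower k F L] (t : F), Transcendental k t → IntermediateField.adjoin k {t} = ⊤ →
    FiniteDimensional F L → Algebra.IsSeparable F L → ∀ s : Finset L,
    ∃ V : Submodule k L, FiniteDimensional k V ∧ ∀ y : L,
      (∀ (O : Type) [CommRing O] [IsDomain O] [IsDiscreteValuationRing O] [Algebra k O]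
        [Algebra O L] [IsScalarTower k O L] [IsFractionRing O L],
        y ∈ Submodule.span O (s : Set L)) → y ∈ V

/-- `T` contains a place for every discrete valuation ring, with scaling in the set `cs`. -/
def Enough {k L : Type} [Field k] [Field L] [Algebra k L] {g d : ℕ}
    {R : Subalgebra L (LaurentSeries L)} (T : Plc k L g d R → Prop) (cs : Set L) : Prop :=
  ∀ (O : Type) [CommRing O] [IsDomain O] [IsDiscreteValuationRing O] [Algebra k O]
    [Algebra O L] [IsScalarTower k O L] [IsFractionRing O L],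
    ∃ v : Plc k L g d R, T v ∧ (v.c : L) ∈ cs ∧ ∀ x : v.O, ∃ y : O,
      algebraMap O L y = algebraMap v.O L x

/-- ZFD: the integral multilinear forms are contained in a finite dimensional space, and the
integral elements of `L` are constants. -/
def Stmt_ZFD : Prop :=
  ∀ {k F L : Type} [Field k] [IsAlgClosed k] [Field F] [Field L] [Algebra k F] [Algebra F L]
    [Algebra k L] [IsScalarTower k F L] (t : F), Transcendental k t →
    IntermediateField.adjoin k {t} = ⊤ → FiniteDimensional F L → Algebra.IsSeparable F L →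
    ∀ {g d : ℕ} {R : Subalgebra L (LaurentSeries L)} (T : Plc k L g d R → Prop) (cs : Set L),
    cs.Finite → 1 ≤ g → Kr g R → Enough T cs →
    (∀ r : ℕ, ∃ V : Submodule k (MultilinearMap L (fun _ : Fin r => EE1 R) L),
      FiniteDimensional k V ∧ ∀ S, (∀ v, T v → v.Int S) → S ∈ V) ∧
    ∀ s : L, (∀ v, T v → ∃ x : v.O, algebraMap v.O L x = s) → ∃ a : k, algebraMap k L a = s

/-- ZFV: the vanishing theorem (ZF3). -/
def Stmt_ZFV : Prop :=
  ∀ {k F L : Type} [Field k] [IsAlgClosed k] [Field F] [Field L] [Algebra k F] [Algebra F L]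
    [Algebra k L] [IsScalarTower k F L] (t : F), Transcendental k t →
    IntermediateField.adjoin k {t} = ⊤ → FiniteDimensional F L → Algebra.IsSeparable F L →
    ∀ p : ℕ, p.Prime → CharP k p →
    ∀ {g d : ℕ} {R : Subalgebra L (LaurentSeries L)} (T : Plc k L g d R → Prop) (cs : Set L),
    cs.Finite → 1 ≤ g → Kr g R → Enough T cs → Ord p R →
    ∀ v₀ : Plc k L g d R, T v₀ → Ssp p v₀.M.Pb →
    (∀ x : v₀.O, (∀ n : ℕ, v₀.M.π ^ n ∣ x) → x = 0) →
    ∀ (r : ℕ), 1 ≤ r → ∀ S : MultilinearMap L (fun _ : Fin r => EE1 R) L,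
      (∀ v, T v → v.Int S) → S = 0

/-! ## Places -/

/-- ZPC: collisions of the branch points. -/
def Stmt_ZPC : Prop :=
  ∀ {k₁ k : Type} [Field k₁] [Field k] [Algebra k₁ k] {b d : ℕ} (β : Fin b → k₁)
    (α : Fin b → k), 0 < d → Function.Injective β → AlgebraicIndependent k₁ α →
    Function.Injective α ∧
    (∀ (L : Type) [Field L] [Algebra k L] (t : L), Transcendental k t → Function.Injective
      fun l => algebraMap k L (algebraMap k₁ k (β l)) + t ^ d * algebraMap k L (α l)) ∧
    ∀ t₀ : k, (Function.Injective fun l => algebraMap k₁ k (β l) + t₀ ^ d * α l) ∨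
      t₀ ≠ 0 ∧ ∃ l m : Fin b, l ≠ m ∧
        algebraMap k₁ k (β l) + t₀ ^ d * α l = algebraMap k₁ k (β m) + t₀ ^ d * α m ∧
        ∀ l' m' : Fin b, algebraMap k₁ k (β l') + t₀ ^ d * α l' =
          algebraMap k₁ k (β m') + t₀ ^ d * α m' →
          l' = m' ∨ (l' = l ∧ m' = m) ∨ (l' = m ∧ m' = l)

/-- ZSD: scaling of Krichever rings and discriminants. -/
def Stmt_ZSD : Prop :=
  ∀ {A : Type} [CommRing A] {g d : ℕ} {R : Subalgebra A (LaurentSeries A)} (c : Aˣ), Kr g R →
    zz A d ∈ R → Kr g (R.map (sc c)) ∧ zz A d ∈ R.map (sc c) ∧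
    ∀ {b : ℕ} (r : Fin b → A), Disc d R (∏ l, (X - C (r l))) →
      Disc d (R.map (sc c)) (∏ l, (X - C (((c⁻¹ : Aˣ) : A) ^ d * r l)))

/-- ZRK: the residue field of a discrete valuation ring of a function field of one variable. -/
def Stmt_ZRK : Prop :=
  ∀ {k F L : Type} [Field k] [IsAlgClosed k] [Field F] [Field L] [Algebra k F] [Algebra F L]
    [Algebra k L] [IsScalarTower k F L] (t : F), IntermediateField.adjoin k {t} = ⊤ →
    FiniteDimensional F L → ∀ (O : Type) [CommRing O] [IsDomain O] [IsDiscreteValuationRing O]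
    [Algebra k O] [Algebra O L] [IsScalarTower k O L] [IsFractionRing O L],
    ∃ rs : O →ₐ[k] k, ∀ x, rs x = 0 ↔ x ∈ IsLocalRing.maximalIdeal O

/-- ZPM: the model at a discrete valuation ring. -/
def Stmt_ZPM : Prop :=
  ∀ {k L O : Type} [Field k] [IsAlgClosed k] [Field L] [CommRing O] [IsDomain O]
    [IsDiscreteValuationRing O] [Algebra k O] [Algebra O L] [IsFractionRing O L] {g d b : ℕ}
    {R : Subalgebra L (LaurentSeries L)} (rs : O →ₐ[k] k) (π : O) (r : Fin b → O), 0 < d →
    ((d.factorial : ℕ) : k) ≠ 0 → b + 1 = 2 * g + d →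
    (∀ x, rs x = 0 ↔ x ∈ IsLocalRing.maximalIdeal O) → Irreducible π → Kr g R → zz L d ∈ R →
    Function.Injective r → Disc d R (∏ l, (X - C (algebraMap O L (r l)))) →
    ∃ M : Mdl k O L g d R, M.rs = rs ∧ M.π = π ∧ M.P = cut (algebraMap O L) R ∧
      M.f = ∏ l, (X - C (r l)) ∧ Disc d M.Pb M.fb ∧ Kr g M.Pb ∧ zz k d ∈ M.Pb

/-- ZGR: ranks of a matrix at simple and double roots of its determinant. -/
def Stmt_ZGR : Prop :=
  ∀ {κ : Type} [Field κ] {d : ℕ} (G : Matrix (Fin d) (Fin d) κ[X]) (u f : κ[X]), 2 ≤ d →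
    IsUnit u → G.det = u * f →
    (∀ c, ¬ (X - C c) ^ 2 ∣ f → d ≤ (G.map (eval c)).rank + 1) ∧
    ∀ (c : κ) (h : κ[X]), f = (X - C c) ^ 2 * h → h.eval c ≠ 0 →
      (G.map (eval c)).rank = d - 1 ∨ (G.map (eval c)).rank = d - 2

/-- The family of covers through `Rb`, over a finite separable extension `L` of `F = k(t)`. -/
structure Fam (k : Type) [Field k] (g d b : ℕ) (Rb : Subalgebra k (LaurentSeries k))
    (β α : Fin b → k) where
  /-- the field `k(t)` -/
  F : Type
  /-- the finite extension -/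
  L : Type
  [fF : Field F]
  [fL : Field L]
  [kF : Algebra k F]
  [kL : Algebra k L]
  [FL : Algebra F L]
  [tow : IsScalarTower k F L]
  /-- the parameter -/
  t : F
  /-- the family -/
  R : Subalgebra L (LaurentSeries L)
  /-- the embedding in `k((t))` -/
  ψ : L →ₐ[k] LaurentSeries k
  /-- the family over `k[[t]]` -/
  RI : Subalgebra (PowerSeries k) (LaurentSeries (PowerSeries k))
  tr : Transcendental k t
  gen : IntermediateField.adjoin k {t} = ⊤
  fin : FiniteDimensional F L
  sep : Algebra.IsSeparable F L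
  ψt : ψ (algebraMap F L t) = HahnSeries.single 1 1
  kr : Kr g R
  z : zz L d ∈ R
  disc : Disc d R (ft d β α (algebraMap F L t))
  krI : Kr g RI
  redI : bc1 (PowerSeries.constantCoeff (R := k)) RI = Rb
  bcI : bc1 (ψ : L →+* LaurentSeries k) R = bc1 (psl k) RI
  first : ∃ a : k[X], (∀ l, a.eval (β l) = α l) ∧ Fst d Rb RI a
  mini : ∀ M : Subfield L, (∀ x : F, algebraMap F L x ∈ M) →
    ∀ T : Subalgebra M (LaurentSeries M), Kr g T → zz M d ∈ T → bc1 M.subtype T = R → M = ⊤

attribute [instance] Fam.fF Fam.fL Fam.kF Fam.kL Fam.FL Fam.tow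

/-- ZFM: the family exists. -/
def Stmt_ZFM : Prop :=
  ∀ {k : Type} [Field k] {g d b : ℕ} {Rb : Subalgebra k (LaurentSeries k)} (β α : Fin b → k),
    1 ≤ d → ((2 * d : ℕ) : k) ≠ 0 → Kr g Rb → zz k d ∈ Rb → Function.Injective β →
    Disc d Rb (∏ l, (X - C (β l))) → Nonempty (Fam k g d b Rb β α)

/-- The places with smooth or nodal reduction. -/
def Plc.Tst {k L : Type} [Field k] [Field L] [Algebra k L] {g d : ℕ}
    {R : Subalgebra L (LaurentSeries L)} (v : Plc k L g d R) : Prop := v.M.Smo ∨ v.M.Nod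

/-- ZPL: every discrete valuation ring is a place with smooth or nodal reduction. -/
def Stmt_ZPL : Prop :=
  ∀ {k₁ k : Type} [Field k₁] [Field k] [IsAlgClosed k] [Algebra k₁ k] {g d b : ℕ}
    (Rb : Subalgebra k (LaurentSeries k)) (β : Fin b → k₁) (α : Fin b → k), 1 ≤ g → 2 ≤ d →
    ((d.factorial : ℕ) : k) ≠ 0 → b + 1 = 2 * g + d → Function.Injective β →
    AlgebraicIndependent k₁ α → ∀ Y : Fam k g d b Rb (fun l => algebraMap k₁ k (β l)) α,
    Enough (Plc.Tst : Plc k Y.L g d Y.R → Prop) {1, algebraMap Y.F Y.L Y.t}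

/-- ZOB: the discrete valuation ring given by an embedding in `k((t))`. -/
def Stmt_ZOB : Prop :=
  ∀ {k L : Type} [Field k] [Field L] [Algebra k L] (ψ : L →ₐ[k] LaurentSeries k) (t : L),
    ψ t = HahnSeries.single 1 1 →
    ∃ (O : Type) (_ : CommRing O) (_ : IsDomain O) (_ : IsDiscreteValuationRing O)
      (_ : Algebra k O) (_ : Algebra O L) (_ : IsScalarTower k O L) (_ : IsFractionRing O L)
      (j : O →ₐ[k] PowerSeries k) (x : O), algebraMap O L x = t ∧ Irreducible x ∧
      (∀ y : O, psl k (j y) = ψ (algebraMap O L y)) ∧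
      ∀ y : O, PowerSeries.constantCoeff (j y) = 0 ↔ y ∈ IsLocalRing.maximalIdeal O

/-- ZPB: the reduction at the base point. -/
def Stmt_ZPB : Prop :=
  ∀ {k L O : Type} [Field k] [Field L] [CommRing O] [Algebra O L] {g : ℕ} (ψ : L →+* LaurentSeries k)
    (j : O →+* PowerSeries k) (R : Subalgebra L (LaurentSeries L))
    (RI : Subalgebra (PowerSeries k) (LaurentSeries (PowerSeries k))), Kr g RI →
    Kr g (cut (algebraMap O L) R) → bc1 ψ R = bc1 (psl k) RI →
    (∀ y : O, psl k (j y) = ψ (algebraMap O L y)) →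
    bc1 ((PowerSeries.constantCoeff (R := k)).comp j) (cut (algebraMap O L) R) =
      bc1 (PowerSeries.constantCoeff (R := k)) RI

/-- ZZZ: Theorem Z. -/
def Stmt_ZZZ : Prop :=
  ∀ {k₁ k : Type} [Field k₁] [Field k] [IsAlgClosed k] [Algebra k₁ k] (p : ℕ), p.Prime →
    CharP k p → ∀ {g d b : ℕ} {R₁ : Subalgebra k₁ (LaurentSeries k₁)} (β : Fin b → k₁)
    (α : Fin b → k), 1 ≤ g → 2 ≤ d → ((d.factorial : ℕ) : k) ≠ 0 → b + 1 = 2 * g + d → Kr g R₁ →
    zz k₁ d ∈ R₁ → Function.Injective β → Disc d R₁ (∏ l, (X - C (β l))) →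
    SmC k (uno (bc1 (algebraMap k₁ k) R₁)) → Dual (uno (bc1 (algebraMap k₁ k) R₁)) →
    Ssp p (bc1 (algebraMap k₁ k) R₁) → AlgebraicIndependent k₁ α →
    ∃ (L : Type) (_ : Field L) (_ : Algebra k L) (t : L) (R : Subalgebra L (LaurentSeries L)),
      Transcendental k t ∧ Kr g R ∧ zz L d ∈ R ∧
      Disc d R (ft d (fun l => algebraMap k₁ k (β l)) α t) ∧
      (∃ v : Plc k L g d R, v.Tst ∧ v.c = 1 ∧ v.M.Pb = bc1 (algebraMap k₁ k) R₁) ∧
      (∀ s : L, (∀ v : Plc k L g d R, v.Tst → ∃ x : v.O, algebraMap v.O L x = s) →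
        ∃ a : k, algebraMap k L a = s) ∧
      ∀ r : ℕ, 1 ≤ r → ∀ S : MultilinearMap L (fun _ : Fin r => EE1 R) L,
        (∀ v : Plc k L g d R, v.Tst → v.Int S) → S = 0

end Pool.Agent.MG.G0


end

section

/-!
# The Cartier operator: additivity, semilinearity, residues (ZCA)
-/

namespace Pool.Agent.MG.G0

namespace ZCA

variable {A : Type} [CommRing A]

theorem intCast_pow (p : ℕ) (hp : p.Prime) (hA : CharP A p) (n : ℤ) : ((n : ℤ) : A) ^ p = n := by
  have := Fact.mk hp
  have := hA
  have h := map_intCast (frobenius A p) n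
  rwa [frobenius_def] at h

theorem pow_low (hZCE : Stmt_ZCE) (p : ℕ) (hp : p.Prime) (hA : CharP A p) (f : LaurentSeries A)
    (N : ℕ) (hf : ∀ m < -(N : ℤ), f.coeff m = 0) :
    ∀ m < -((p : ℤ) * N), (f ^ p).coeff m = 0 := by
  intro m hm
  have hp0 : (0 : ℤ) < p := by exact_mod_cast hp.pos
  by_cases hd : (p : ℤ) ∣ m
  · obtain ⟨j, rfl⟩ := hd
    rw [(hZCE.2 p hp hA f j).1, hf j ?_, zero_pow hp.ne_zero]
    by_contra hc
    have h1 : (p : ℤ) * (-(N : ℤ)) ≤ p * j := mul_le_mul_of_nonneg_left (by omega) hp0.le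
    linarith
  · exact (hZCE.2 p hp hA f m).2 hd

theorem car_ld (hZCE : Stmt_ZCE) (p : ℕ) (hp : p.Prime) (hA : CharP A p) (f : LaurentSeries A) :
    Car p (f ^ (p - 1) * ld f) (ld f) := by
  intro m
  have h1 := hZCE.1 f p (m + 1) hp.pos
  have e1 : (p : ℤ) * (m + 1) - 1 = p * m + (p - 1) := by ring
  rw [e1, (hZCE.2 p hp hA f (m + 1)).1] at h1
  rw [h1, ld_coeff, mul_pow]
  congr 1
  exact (intCast_pow (A := A) p hp hA (m + 1)).symm

theorem car_mul (hZCE : Stmt_ZCE) (p : ℕ) (hp : p.Prime) (hA : CharP A p)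
    (η' η f : LaurentSeries A) (h : Car p η' η) : Car p (f ^ p * η') (f * η) := by
  intro m
  have := Fact.mk hp
  have := hA
  have hp0 : (0 : ℤ) < p := by exact_mod_cast hp.pos
  obtain ⟨a, ha⟩ := exists_low f
  obtain ⟨b, hb⟩ := exists_low η
  obtain ⟨c, hc⟩ := exists_low η'
  obtain ⟨N, hN⟩ : ∃ N : ℕ, N = max a (max b c) := ⟨_, rfl⟩
  have haN : a ≤ N := hN ▸ le_max_left _ _
  have hbN : b ≤ N := hN ▸ (le_max_left _ _).trans (le_max_right _ _)
  have hcN : c ≤ N := hN ▸ (le_max_right _ _).trans (le_max_right _ _)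
  have ha' : ∀ m < -(N : ℤ), f.coeff m = 0 := fun m hm => ha m (by omega)
  have hb' : ∀ m < -(N : ℤ), η.coeff m = 0 := fun m hm => hb m (by omega)
  have hpN : (N : ℤ) ≤ (p : ℤ) * N := by
    have h1 : (1 : ℤ) ≤ p := by omega
    nlinarith [Int.natCast_nonneg N]
  have hc' : ∀ m < -((p : ℤ) * N), η'.coeff m = 0 := fun m hm => hc m (by omega)
  have hf' := pow_low hZCE p hp hA f N ha'
  rw [coeff_mul_Icc hf' hc', coeff_mul_Icc ha' hb', sum_pow_char]
  symm
  refine Finset.sum_of_injOn (fun j : ℤ => (p : ℤ) * j) ?_ ?_ ?_ ?_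
  · intro x _ y _ hxy
    exact mul_left_cancel₀ hp0.ne' hxy
  · intro j hj
    simp only [Finset.coe_Icc, Set.mem_Icc] at hj ⊢
    constructor
    · nlinarith [hj.1]
    · nlinarith [hj.2]
  · intro i hi hni
    rw [(hZCE.2 p hp hA f i).2, zero_mul]
    rintro ⟨j, rfl⟩
    apply hni
    refine ⟨j, ?_, rfl⟩
    simp only [Finset.coe_Icc, Set.mem_Icc]
    rw [Finset.mem_Icc] at hi
    constructor
    · by_contra hcj
      have : (p : ℤ) * j ≤ p * (-(N : ℤ) - 1) := mul_le_mul_of_nonneg_left (by omega) hp0.le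
      nlinarith [hi.1]
    · by_contra hcj
      have : (p : ℤ) * (m + N + 1) ≤ p * j := mul_le_mul_of_nonneg_left (by omega) hp0.le
      nlinarith [hi.2]
  · intro j _
    have e : (p : ℤ) * m + (p - 1) - p * j = p * (m - j) + (p - 1) := by ring
    rw [mul_pow, (hZCE.2 p hp hA f j).1, e, h (m - j)]

end ZCA

theorem t_ZCA (hZCE : Stmt_ZCE) : Stmt_ZCA := by
  intro A _ p hp hA
  refine ⟨fun f => ZCA.car_ld hZCE p hp hA f, fun η' η f h => ZCA.car_mul hZCE p hp hA η' η f h,
    ?_, ?_⟩
  · intro η' η ξ' ξ h1 h2 m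
    have := Fact.mk hp
    have := hA
    rw [HahnSeries.coeff_add, HahnSeries.coeff_add, h1 m, h2 m, add_pow_char]
  · intro η' η f h
    have h1 := ZCA.car_mul hZCE p hp hA η' η f h (-1)
    have e : (p : ℤ) * (-1) + (p - 1) = -1 := by ring
    rwa [e] at h1

end Pool.Agent.MG.G0


end

section

/-!
# ZCE: coefficients of `fⁿ⁻¹ df` and of `fᵖ`
-/

open Polynomial

namespace Pool.Agent.MG.G0

namespace ZCE_

section

variable {A B : Type} [CommRing A] [CommRing B]

theorem ld_pow_succ (f : LaurentSeries A) (k : ℕ) :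
    ld (f ^ (k + 1)) = ((k + 1 : ℕ) : A) • (f ^ k * ld f) := by
  induction k with
  | zero => simp
  | succ k ih =>
    rw [pow_succ f (k + 1), ld_mul, ih, smul_mul_assoc]
    have h : f ^ k * ld f * f = f ^ (k + 1) * ld f := by rw [pow_succ]; ring
    rw [h]
    have h2 : ((k + 1 + 1 : ℕ) : A) = 1 + ((k + 1 : ℕ) : A) := by push_cast; ring
    rw [h2, add_smul, one_smul]

theorem part_one_tf (h0 : ∀ (n : ℕ) (a : A), 0 < n → (n : A) * a = 0 → a = 0)
    (f : LaurentSeries A) (n : ℕ) (m : ℤ) (hn : 0 < n) :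
    (f ^ (n - 1) * ld f).coeff (n * m - 1) = (m : A) * (f ^ n).coeff (n * m) := by
  obtain ⟨k, rfl⟩ : ∃ k, n = k + 1 := ⟨n - 1, by omega⟩
  rw [Nat.add_sub_cancel]
  have h1 : (ld (f ^ (k + 1))).coeff (((k + 1 : ℕ) : ℤ) * m - 1) =
      (((k + 1 : ℕ) : A) • (f ^ k * ld f)).coeff (((k + 1 : ℕ) : ℤ) * m - 1) := by
    rw [ld_pow_succ]
  rw [ld_coeff, HahnSeries.coeff_smul, sub_add_cancel, smul_eq_mul] at h1
  refine sub_eq_zero.1 (h0 (k + 1) _ hn ?_)
  rw [mul_sub, ← h1]
  push_cast
  ring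

/-- A lift of a series to polynomials over the integers. -/
noncomputable def lift (f : LaurentSeries A) : LaurentSeries (MvPolynomial A ℤ) where
  coeff m := open Classical in if f.coeff m = 0 then 0 else MvPolynomial.X (f.coeff m)
  isPWO_support' := f.isPWO_support.mono fun m hm => by
    classical
    simp only [Function.mem_support, ne_eq] at hm ⊢
    intro h
    exact hm (by rw [if_pos h])

theorem lmap_lift (f : LaurentSeries A) :
    lmap (MvPolynomial.eval₂Hom (Int.castRingHom A) id) (lift f) = f := by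
  classical
  ext m
  rw [lmap_coeff]
  change (MvPolynomial.eval₂Hom (Int.castRingHom A) id)
    (if f.coeff m = 0 then 0 else MvPolynomial.X (f.coeff m)) = f.coeff m
  split_ifs with h
  · rw [map_zero, h]
  · rw [MvPolynomial.eval₂Hom_X', id]

theorem part_one (f : LaurentSeries A) (n : ℕ) (m : ℤ) (hn : 0 < n) :
    (f ^ (n - 1) * ld f).coeff (n * m - 1) = (m : A) * (f ^ n).coeff (n * m) := by
  have h0 : ∀ (n : ℕ) (a : MvPolynomial A ℤ), 0 < n → (n : MvPolynomial A ℤ) * a = 0 → a = 0 := by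
    intro n a hn h
    rcases mul_eq_zero.1 h with h | h
    · exact absurd (Nat.cast_eq_zero.1 h) (by omega)
    · exact h
  have h1 := part_one_tf h0 (lift f) n m hn
  have h2 := congrArg (MvPolynomial.eval₂Hom (Int.castRingHom A) id) h1
  rw [map_mul, ← lmap_coeff, ← lmap_coeff, map_mul, map_pow, map_pow, lmap_ld, lmap_lift,
    map_intCast] at h2
  exact h2

theorem pow_low {g : LaurentSeries A} {b : ℤ} (hg : ∀ m < b, g.coeff m = 0) (n : ℕ) :
    ∀ m < n * b, (g ^ n).coeff m = 0 := by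
  induction n with
  | zero =>
    intro m hm
    rw [pow_zero, HahnSeries.coeff_one, if_neg]
    rw [Nat.cast_zero, zero_mul] at hm
    omega
  | succ n ih =>
    intro m hm
    rw [pow_succ]
    refine mul_low ih hg m ?_
    push_cast at hm
    linarith

theorem sum_single_coeff (s : Finset ℤ) (u : ℤ → ℤ) (hu : Function.Injective u) (c : ℤ → A)
    (m : ℤ) :
    ((∑ i ∈ s, HahnSeries.single (u i) (c i) : LaurentSeries A).coeff (u m) =
      if m ∈ s then c m else 0) := by
  rw [HahnSeries.coeff_sum]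
  split_ifs with h
  · rw [Finset.sum_eq_single_of_mem m h, HahnSeries.coeff_single_same]
    intro i _ hi
    exact HahnSeries.coeff_single_of_ne fun h' => hi (hu h'.symm)
  · refine Finset.sum_eq_zero fun i hi => HahnSeries.coeff_single_of_ne fun h' => h ?_
    rw [hu h']
    exact hi

theorem part_two (p : ℕ) (hp : p.Prime) (hA : CharP A p) (f : LaurentSeries A) (N : ℤ) :
    (f ^ p).coeff N = if (p : ℤ) ∣ N then (f.coeff (N / p)) ^ p else 0 := by
  classical
  have : Fact p.Prime := ⟨hp⟩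
  have : CharP (LaurentSeries A) p :=
    charP_of_injective_ringHom (HahnSeries.C_injective (Γ := ℤ) (R := A)) p
  obtain ⟨a, ha⟩ := exists_low f
  have hp0 : (0 : ℤ) < p := by exact_mod_cast hp.pos
  set K : ℤ := |N| + 1 with hK
  have hKN : N < p * K := by
    have h1 : N ≤ |N| := le_abs_self N
    have h2 : (0 : ℤ) ≤ |N| := abs_nonneg N
    have h3 : (1 : ℤ) * K ≤ p * K := mul_le_mul_of_nonneg_right (by omega) (by omega)
    omega
  set S : LaurentSeries A := ∑ i ∈ Finset.Ico (-(a : ℤ)) K, HahnSeries.single i (f.coeff i)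
    with hS
  have hScoeff : ∀ m, S.coeff m = if -(a : ℤ) ≤ m ∧ m < K then f.coeff m else 0 := by
    intro m
    have h := sum_single_coeff (Finset.Ico (-(a : ℤ)) K) (fun i => i) (fun _ _ h => h)
      (fun i => f.coeff i) m
    simp only [Finset.mem_Ico] at h
    exact h
  have hg : ∀ m < K, (f - S).coeff m = 0 := by
    intro m hm
    rw [HahnSeries.coeff_sub, hScoeff]
    split_ifs with h
    · exact sub_self _
    · rw [ha m (by omega), sub_zero]
  have hf : f ^ p = S ^ p + (f - S) ^ p := by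
    rw [← add_pow_char, add_sub_cancel]
  have hSp : S ^ p = ∑ i ∈ Finset.Ico (-(a : ℤ)) K,
      HahnSeries.single ((p : ℤ) * i) (f.coeff i ^ p) := by
    have h1 := map_sum (frobenius (LaurentSeries A) p)
      (fun i => HahnSeries.single i (f.coeff i)) (Finset.Ico (-(a : ℤ)) K)
    rw [frobenius_def] at h1
    rw [hS, h1]
    refine Finset.sum_congr rfl fun i _ => ?_
    rw [frobenius_def, HahnSeries.single_pow, nsmul_eq_mul]
  rw [hf, HahnSeries.coeff_add, pow_low hg p N hKN, add_zero, hSp]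
  split_ifs with h
  · obtain ⟨m, rfl⟩ := h
    rw [Int.mul_ediv_cancel_left _ hp0.ne']
    have h1 := sum_single_coeff (Finset.Ico (-(a : ℤ)) K) (fun i => (p : ℤ) * i)
      (fun _ _ h => mul_left_cancel₀ hp0.ne' h) (fun i => f.coeff i ^ p) m
    rw [h1]
    split_ifs with h2
    · rfl
    · rw [Finset.mem_Ico] at h2
      have h3 : m < K := by
        have h4 : m ≤ |(p : ℤ) * m| := by
          rw [abs_mul, Nat.abs_cast]
          have h5 : m ≤ |m| := le_abs_self m
          have h6 : (1 : ℤ) * |m| ≤ p * |m| :=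
            mul_le_mul_of_nonneg_right (by omega) (abs_nonneg m)
          omega
        omega
      rw [ha m (by omega), zero_pow hp.ne_zero]
  · rw [HahnSeries.coeff_sum]
    refine Finset.sum_eq_zero fun i _ => HahnSeries.coeff_single_of_ne fun h' => h ⟨i, h'⟩

end

end ZCE_

theorem t_ZCE : Stmt_ZCE := by
  refine ⟨fun f n m hn => ZCE_.part_one f n m hn, fun p hp hA f m => ⟨?_, fun h => ?_⟩⟩
  · rw [ZCE_.part_two p hp hA f, if_pos (Dvd.intro _ rfl), Int.mul_ediv_cancel_left]
    exact_mod_cast hp.ne_zero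
  · rw [ZCE_.part_two p hp hA f, if_neg h]

end Pool.Agent.MG.G0


end

section

/-!
# ZCI: if `vᵖ = h + o` and `dh = 0` then `v` is in `R + K[[τ]]`
-/

open Polynomial

namespace Pool.Agent.MG.G0

namespace ZCI

variable {K : Type} [Field K]

/-- Every element of `Om` is a value of the Cartier operator on `Om`. -/
theorem exists_car (hZCA : Stmt_ZCA) {p : ℕ} (hp : p.Prime) (hc : CharP K p)
    (P : Subalgebra K (KK Unit K)) (η : KK Unit K) (hη : η ∈ Om P) :
    ∃ η' ∈ Om P, Car p (η' ()) (η ()) := by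
  obtain ⟨z1, z2, z3, -⟩ := hZCA p hp hc
  refine Submodule.span_induction ?_ ?_ ?_ ?_ hη
  · rintro _ ⟨q, hq, f, hf, rfl⟩
    refine ⟨(q ^ p * f ^ (p - 1)) * dd f, Submodule.subset_span
      ⟨q ^ p * f ^ (p - 1), mul_mem (pow_mem hq p) (pow_mem hf (p - 1)), f, hf, rfl⟩, ?_⟩
    have h1 := z2 (f () ^ (p - 1) * ld (f ())) (ld (f ())) (q ()) (z1 (f ()))
    have e1 : ((q ^ p * f ^ (p - 1)) * dd f) () = q () ^ p * (f () ^ (p - 1) * ld (f ())) :=
      mul_assoc _ _ _
    rw [e1]
    exact h1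
  · refine ⟨0, zero_mem _, fun m => ?_⟩
    rw [Pi.zero_apply, HahnSeries.coeff_zero, HahnSeries.coeff_zero, zero_pow hp.ne_zero]
  · rintro x y _ _ ⟨x', hx', hx⟩ ⟨y', hy', hy⟩
    exact ⟨x' + y', add_mem hx' hy', z3 _ _ _ _ hx hy⟩
  · rintro a x _ ⟨x', hx', hx⟩
    refine ⟨a ^ p • x', Submodule.smul_mem _ _ hx', fun m => ?_⟩
    rw [Pi.smul_apply, Pi.smul_apply, HahnSeries.coeff_smul, HahnSeries.coeff_smul, hx m,
      smul_eq_mul, smul_eq_mul, mul_pow]

/-- A series without poles with exponents divisible by `p` is a `p`-th power. -/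
theorem exists_root [IsAlgClosed K] (hZCE : Stmt_ZCE) {p : ℕ} (hp : p.Prime) (hc : CharP K p)
    (o : LaurentSeries K) (ho : o ∈ Po K 0) (hm : ∀ m : ℤ, ¬ (p : ℤ) ∣ m → o.coeff m = 0) :
    ∃ w ∈ Po K 0, w ^ p = o := by
  choose r hr using fun k : ℕ => IsAlgClosed.exists_pow_nat_eq (o.coeff (p * k)) hp.pos
  have hz := (hZCE.2 p hp hc)
  have hneg : ∀ m : ℤ, m < 0 → (psl K (PowerSeries.mk r)).coeff m = 0 := by
    intro m h
    rw [psl, HahnSeries.ofPowerSeries_apply, HahnSeries.embDomain_of_notMem_range]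
    rintro ⟨k, hk⟩
    have hk' : (k : ℤ) = m := hk
    omega
  have hpos : ∀ k : ℕ, (psl K (PowerSeries.mk r)).coeff k = r k := by
    intro k
    rw [psl]
    have := HahnSeries.ofPowerSeries_apply_coeff (Γ := ℤ) (PowerSeries.mk r) k
    rw [PowerSeries.coeff_mk] at this
    exact this
  refine ⟨psl K (PowerSeries.mk r), fun m h => hneg m (by omega), ?_⟩
  ext m
  by_cases hd : (p : ℤ) ∣ m
  · obtain ⟨n, rfl⟩ := hd
    rw [(hz _ n).1]
    rcases lt_or_ge n 0 with h | h
    · rw [hneg n h, zero_pow hp.ne_zero, ho]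
      have : (0 : ℤ) < p := by exact_mod_cast hp.pos
      have h2 := mul_neg_of_pos_of_neg this h
      omega
    · obtain ⟨k, rfl⟩ := Int.eq_ofNat_of_zero_le h
      rw [hpos, hr]
  · rw [(hz _ m).2 hd, hm m hd]

end ZCI

theorem t_ZCI (hKFO : Stmt_KFO) (hRES : Stmt_RES) (hSTO : Stmt_STO) (hZCE : Stmt_ZCE)
    (hZCA : Stmt_ZCA) : Stmt_ZCI := by
  intro K _ _ p hp hchar g R hR hsm hdual v h hh hvh hdh
  obtain ⟨hOP, -, -, -, hst⟩ := hSTO hR
  have hPO : Perp (uno R) ≤ Om (uno R) := (hst hsm).2.2.1 hdual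
  obtain ⟨⟨ω, hω⟩, hfo⟩ := hKFO hR
  have hE := (hfo ω hω).1
  -- `o = vᵖ - h` is a `p`-th power
  have hz := hZCE.2 p hp hchar
  obtain ⟨w, hw, hwo⟩ := ZCI.exists_root hZCE hp hchar (v ^ p - h) hvh (by
    intro m hm
    have h1 := congrArg (fun f : LaurentSeries K => f.coeff (m - 1)) hdh
    simp only [ld_coeff, HahnSeries.coeff_zero, sub_add_cancel] at h1
    have h2 : ((m : ℤ) : K) ≠ 0 := by
      intro h3
      exact hm ((CharP.intCast_eq_zero_iff K p m).1 h3)
    rw [HahnSeries.coeff_sub, (hz v m).2 hm, (mul_eq_zero.1 h1).resolve_left h2, sub_zero])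
  -- the residues of `v η`
  have key : ∀ η : KK Unit K, η ∈ EE (uno R) → (v * η ()).coeff (-1) = 0 := by
    intro η hη
    obtain ⟨η', hη', hcar⟩ := ZCI.exists_car hZCA hp hchar (uno R) η (hPO hη.1)
    obtain ⟨-, -, -, z4⟩ := hZCA p hp hchar
    have e1 := z4 _ _ v hcar
    have e2 := z4 _ _ w hcar
    have e3 : (w * η ()).coeff (-1) = 0 :=
      mul_low (a := 0) (b := 0) (fun m hm => hw m (by omega)) (fun m hm => hη.2 () m (by omega))
        (-1) (by omega)
    have e4 : (h * η' ()).coeff (-1) = 0 := by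
      have := hOP hη' (fun _ => h) hh
      rw [res_unit] at this
      rw [mul_comm]
      exact this
    rw [e3, zero_pow hp.ne_zero, hwo, sub_mul, HahnSeries.coeff_sub, e4, sub_zero, e1] at e2
    exact pow_eq_zero_iff hp.ne_zero |>.1 e2
  obtain ⟨q, hq, hq0⟩ := (hω.ker fun _ => v).1 fun j => by
    rw [res_unit, mul_comm]
    exact key (ω j) (hE j)
  exact ⟨q (), hq, hq0 ()⟩

end Pool.Agent.MG.G0


end

section

/-!
# ZFC: the Frobenius preserves integral forms and contracts at superspecial places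
-/

open Polynomial

namespace Pool.Agent.MG.G0

namespace ZFC

variable {A B : Type} [CommRing A] [CommRing B]

/-- The product of two series without poles has no residue. -/
theorem coeff_Po0 {x y : LaurentSeries A} (hx : x ∈ Po A 0) (hy : y ∈ Po A 0) :
    (x * y).coeff (-1) = 0 :=
  mul_low (a := 0) (b := 0) (fun m hm => hx m (by omega)) (fun m hm => hy m (by omega)) (-1)
    (by omega)

/-- The image of a regular differential is orthogonal to the base change. -/
theorem perp_bc {I : Type} [Fintype I] (hKBC : Stmt_KBC) (φ : A →+* B)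
    {P : Subalgebra A (KK I A)} {η : KK I A} (hη : ∀ p ∈ P, res (η * p) = 0) {q : KK I B}
    (hq : q ∈ bc φ P) : res (kmap φ η * q) = 0 := by
  have hp' : q ∈ Submodule.span B (kmap φ '' (P : Set (KK I A))) := by
    rw [← hKBC.1 φ P]
    exact hq
  refine Submodule.span_induction ?_ ?_ ?_ ?_ hp'
  · rintro _ ⟨r, hr, rfl⟩
    rw [← map_mul, res_kmap, hη r hr, map_zero]
  · rw [mul_zero, map_zero]
  · intro x y _ _ hx hy
    rw [mul_add, map_add, hx, hy, add_zero]
  · intro a x _ hx
    rw [mul_smul_comm, map_smul, hx, smul_zero]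

/-- The same for one puncture. -/
theorem perp_bc1 (hKBC : Stmt_KBC) (φ : A →+* B) {P : Subalgebra A (LaurentSeries A)}
    {η : LaurentSeries A} (hη : ∀ p ∈ P, (η * p).coeff (-1) = 0) {q : LaurentSeries B}
    (hq : q ∈ bc1 φ P) : (lmap φ η * q).coeff (-1) = 0 := by
  have hq' : (fun _ : Unit => q) ∈ bc φ (uno P) := by
    rw [bc_uno, mem_uno]
    exact hq
  have h1 : ∀ p ∈ uno P, res ((fun _ : Unit => η) * p) = 0 := fun p hp =>
    (res_unit _).trans (hη (p ()) hp)
  exact (res_unit _).symm.trans (perp_bc hKBC φ h1 hq')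

end ZFC

open _root_.Pool.Agent.MG.G0.ZFC in
/-- ZFC -/
theorem t_ZFC (hKBC : Stmt_KBC) (hZFE : Stmt_ZFE) : Stmt_ZFC := by
  intro k L _ _ _ p hp hchar g d r R v hg F hF
  obtain ⟨h1, ω, η, f, hη, -, hexp⟩ := hZFE v hg
  have hinj : Function.Injective (algebraMap v.O L) := by
    have := v.M.frac
    exact IsFractionRing.injective v.O L
  -- the formula for `F S`
  have hFS : ∀ (S : MultilinearMap L (fun _ : Fin r => EE1 R) L)
      (x : (Fin r → Fin g) → v.O), (∀ K, algebraMap v.O L (x K) = S fun j => ω (K j)) →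
      ∀ (ω' : Fin r → EE1 R) (η' : Fin r → EE1 v.M.P),
      (∀ i, lmap (algebraMap v.O L) (η' i : LaurentSeries v.O) =
        ((v.c⁻¹ : Lˣ) : L) • sc v.c (ω' i : LaurentSeries L)) →
      F S ω' = algebraMap v.O L (∑ K, x K ^ p *
        ∏ j, ((η' j : LaurentSeries v.O) * f (K j) ^ p).coeff (-1)) := by
    intro S x hx ω' η' hη'
    conv_lhs => rw [hexp r S]
    rw [hF, tns_apply, map_sum]
    refine Finset.sum_congr rfl fun K _ => ?_
    rw [map_mul, map_pow, hx, map_prod]
    congr 1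
    refine Finset.prod_congr rfl fun j _ => ?_
    rw [← h1 (ω' j) (η' j) (hη' j) (f (K j) ^ p), map_pow, map_pow]
  refine ⟨fun S hS => ?_, fun hr hssp n S hS => ?_, fun hsep S hS => ?_⟩
  · intro ω' η' hη'
    choose x hx using fun K : Fin r → Fin g =>
      hS (fun j => ω (K j)) (fun j => η (K j)) fun i => hη (K i)
    exact ⟨_, (hFS S x hx ω' η' hη').symm⟩
  · intro ω' η' hη'
    choose x hx using fun K : Fin r → Fin g =>
      hS (fun j => ω (K j)) (fun j => η (K j)) fun i => hη (K i)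
    -- divisibility of the residues
    have hdiv : ∀ (μ : EE1 v.M.P) (h : LaurentSeries v.O),
        ∃ y : v.O, ((μ : LaurentSeries v.O) * h ^ p).coeff (-1) = v.M.π * y := by
      intro μ h
      refine v.M.ker _ ?_
      obtain ⟨q, hq, ho⟩ := hssp (lmap (v.M.rs : v.O →+* k) h)
      have e1 : v.M.rs (((μ : LaurentSeries v.O) * h ^ p).coeff (-1)) =
          (lmap (v.M.rs : v.O →+* k) (μ : LaurentSeries v.O) *
            lmap (v.M.rs : v.O →+* k) h ^ p).coeff (-1) := by
        rw [← map_pow, ← map_mul, lmap_coeff]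
        rfl
      have e2 : (lmap (v.M.rs : v.O →+* k) (μ : LaurentSeries v.O) * q).coeff (-1) = 0 :=
        perp_bc1 hKBC _ μ.2.1 hq
      have e3 : (lmap (v.M.rs : v.O →+* k) (μ : LaurentSeries v.O) *
          (lmap (v.M.rs : v.O →+* k) h ^ p - q)).coeff (-1) = 0 := by
        refine coeff_Po0 (fun m hm => ?_) ho
        rw [lmap_coeff, μ.2.2 m hm, map_zero]
      rw [mul_sub, HahnSeries.coeff_sub, e2, sub_zero] at e3
      rw [e1, e3]
    choose y hy using hdiv
    have hle : n + 1 ≤ n * p + r := by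
      have h2 : n ≤ n * p := Nat.le_mul_of_pos_right n hp.pos
      omega
    refine ⟨v.M.π ^ (n * p + r - (n + 1)) * ∑ K, x K ^ p * ∏ j, y (η' j) (f (K j)), ?_⟩
    rw [hFS S (fun K => v.M.π ^ n * x K) hx ω' η' hη']
    congr 1
    rw [← mul_assoc, ← pow_add, Nat.add_sub_cancel' hle, Finset.mul_sum]
    refine Finset.sum_congr rfl fun K _ => ?_
    have e4 : ∏ j, ((η' j : LaurentSeries v.O) * f (K j) ^ p).coeff (-1) =
        v.M.π ^ r * ∏ j, y (η' j) (f (K j)) := by
      rw [Finset.prod_congr rfl fun j _ => hy (η' j) (f (K j)), Finset.prod_mul_distrib,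
        Finset.prod_const, Finset.card_univ, Fintype.card_fin]
    rw [e4, pow_add, pow_mul, mul_pow]
    ring
  · have hz : ∀ K : Fin r → Fin g, (S fun j => ω (K j)) = 0 := by
      intro K
      choose x hx using fun n : ℕ =>
        hS n (fun j => ω (K j)) (fun j => η (K j)) fun i => hη (K i)
      have h0 : v.M.π ^ 0 * x 0 = 0 := by
        refine hsep _ fun n => ⟨x n, hinj ?_⟩
        rw [hx 0, hx n]
      rw [← hx 0, h0, map_zero]
    rw [hexp r S]
    ext μ
    rw [tns_apply]
    refine Finset.sum_eq_zero fun K _ => ?_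
    rw [hz K, zero_mul]

end Pool.Agent.MG.G0


end

section

/-!
# ZFD: integral multilinear forms are a finite dimensional space
-/

open Polynomial

namespace Pool.Agent.MG.G0

namespace ZFD

/-- The residue of a product of a regular series and a series with a pole of bounded order. -/
theorem res_mul {A : Type} [CommRing A] {N : ℕ} {f h : LaurentSeries A} (hf : f ∈ Po A 0)
    (hh : ∀ m : ℤ, m < -(N : ℤ) → h.coeff m = 0) :
    (f * h).coeff (-1) = ∑ n : Fin N, f.coeff ((n : ℕ) : ℤ) * h.coeff (-((n : ℕ) : ℤ) - 1) := by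
  rw [coeff_mul_Icc (a := 0) (b := -(N : ℤ)) (fun m hm => hf m (by simpa using hm)) hh]
  rw [← Fin.sum_univ_eq_sum_range (fun n => f.coeff (n : ℤ) * h.coeff (-(n : ℤ) - 1)) N |>.symm]
  symm
  refine Finset.sum_nbij' (fun n : ℕ => (n : ℤ)) (fun i : ℤ => i.toNat) ?_ ?_ ?_ ?_ ?_
  · intro n hn
    rw [Finset.mem_range] at hn
    rw [Finset.mem_Icc]
    omega
  · intro i hi
    rw [Finset.mem_Icc] at hi
    rw [Finset.mem_range]
    omega
  · intro n _
    simp
  · intro i hi
    rw [Finset.mem_Icc] at hi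
    omega
  · intro n _
    congr 2
    ring

theorem prod_mem {O L : Type} [CommRing O] [Field L] [Algebra O L] {N r : ℕ}
    (a : Fin r → Fin N → O) (b : Fin r → Fin N → L) (s : Set L)
    (hs : ∀ n : Fin r → Fin N, ∏ j, b j (n j) ∈ s) :
    ∏ j, ∑ n, algebraMap O L (a j n) * b j n ∈ Submodule.span O s := by
  rw [Finset.prod_univ_sum]
  refine Submodule.sum_mem _ fun n _ => ?_
  rw [Finset.prod_mul_distrib, ← map_prod, ← Algebra.smul_def]
  exact Submodule.smul_mem _ _ (Submodule.subset_span (hs n))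

/-- A basis of the regular differentials. -/
theorem forms (hKFO : Stmt_KFO) {L : Type} [Field L] {g : ℕ}
    {R : Subalgebra L (LaurentSeries L)} (hR : Kr g R) :
    ∃ ω : Fin g → EE1 R, ∀ μ : EE1 R, ∃ c : Fin g → L, μ = ∑ j, c j • ω j := by
  obtain ⟨⟨ω, hω⟩, h2⟩ := hKFO (P := uno R) hR
  obtain ⟨h3, h4⟩ := h2 ω hω
  refine ⟨fun j => ⟨ω j (), mem_EE_uno.1 (h3 j)⟩, fun μ => ?_⟩
  obtain ⟨c, hc, -⟩ := h4 (fun _ => (μ : LaurentSeries L)) (mem_EE_uno.2 μ.2)
  refine ⟨c, Subtype.ext ?_⟩
  have h5 := congrFun hc ()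
  rw [Submodule.coe_sum]
  simpa using h5

/-- The values of a multilinear form at a basis. -/
noncomputable def vals {k L : Type} [Field k] [Field L] [Algebra k L] {g r : ℕ}
    {R : Subalgebra L (LaurentSeries L)} (ω : Fin g → EE1 R) :
    MultilinearMap L (fun _ : Fin r => EE1 R) L →ₗ[k] ((Fin r → Fin g) → L) where
  toFun S := fun M => S fun j => ω (M j)
  map_add' S T := by
    funext M
    rfl
  map_smul' a S := by
    funext M
    rfl

theorem vals_apply {k L : Type} [Field k] [Field L] [Algebra k L] {g r : ℕ}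
    {R : Subalgebra L (LaurentSeries L)} (ω : Fin g → EE1 R)
    (S : MultilinearMap L (fun _ : Fin r => EE1 R) L) (M : Fin r → Fin g) :
    vals (k := k) ω S M = S fun j => ω (M j) := rfl

theorem vals_inj {k L : Type} [Field k] [Field L] [Algebra k L] {g r : ℕ}
    {R : Subalgebra L (LaurentSeries L)} (ω : Fin g → EE1 R)
    (hω : ∀ μ : EE1 R, ∃ c : Fin g → L, μ = ∑ j, c j • ω j) :
    Function.Injective (vals (k := k) (r := r) ω) := by
  rw [injective_iff_map_eq_zero]
  intro S hS
  ext μ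
  choose c hc using hω
  have h1 : μ = fun j => ∑ i, c (μ j) i • ω i := funext fun j => hc (μ j)
  rw [h1, MultilinearMap.map_sum]
  refine Finset.sum_eq_zero fun M _ => ?_
  rw [MultilinearMap.map_smul_univ]
  have h2 : S (fun j => ω (M j)) = 0 := congrFun hS M
  rw [h2, smul_zero]

/-- The set of the coefficients. -/
noncomputable def gen {L : Type} [Field L] {g : ℕ} {R : Subalgebra L (LaurentSeries L)}
    (ω : Fin g → EE1 R) (N r : ℕ) (x : L × (Fin r → Fin g) × (Fin r → Fin N)) : L :=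
  ∏ j, (x.1⁻¹ ^ ((x.2.2 j : ℕ) + 1) * ((ω (x.2.1 j) : LaurentSeries L)).coeff
    ((x.2.2 j : ℕ) : ℤ))

theorem mem_span (hZFE : Stmt_ZFE) {k L : Type} [Field k] [Field L] [Algebra k L] {g d : ℕ}
    {R : Subalgebra L (LaurentSeries L)} (hg : 1 ≤ g) (ω : Fin g → EE1 R)
    (v : Plc k L g d R) {r : ℕ} (S : MultilinearMap L (fun _ : Fin r => EE1 R) L) (hS : v.Int S)
    (O : Type) [CommRing O] [Algebra O L]
    (hO : ∀ x : v.O, ∃ y : O, algebraMap O L y = algebraMap v.O L x) (s : Set L)
    (hs : ∀ (M : Fin r → Fin g) (n : Fin r → Fin (2 * g - 1)),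
      gen ω (2 * g - 1) r ((v.c : L), M, n) ∈ s) (M : Fin r → Fin g) :
    S (fun j => ω (M j)) ∈ Submodule.span O s := by
  choose τ hτ using hO
  obtain ⟨ω', η', f, h1, h2, h3⟩ := (hZFE v hg).2
  have h4 := h3 r S
  have h5 : S (fun j => ω (M j)) = ∑ K : Fin r → Fin g, S (fun j => ω' (K j)) *
      ∏ j, ((ω (M j) : LaurentSeries L) *
        sc v.c⁻¹ (lmap (algebraMap v.O L) (f (K j)))).coeff (-1) := by
    have h6 := congrArg (fun T : MultilinearMap L (fun _ : Fin r => EE1 R) L =>
      T fun j => ω (M j)) h4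
    exact h6.trans (tns_apply R _ _ _)
  rw [h5]
  refine Submodule.sum_mem _ fun K _ => ?_
  obtain ⟨x, hx⟩ := hS (fun j => ω' (K j)) (fun j => η' (K j)) fun i => h1 (K i)
  rw [← hx, ← hτ, ← Algebra.smul_def]
  refine Submodule.smul_mem _ _ ?_
  have h6 : ∀ j, ((ω (M j) : LaurentSeries L) *
      sc v.c⁻¹ (lmap (algebraMap v.O L) (f (K j)))).coeff (-1) =
      ∑ n : Fin (2 * g - 1), algebraMap O L (τ ((f (K j)).coeff (-((n : ℕ) : ℤ) - 1))) *
        (((v.c : L))⁻¹ ^ ((n : ℕ) + 1) * ((ω (M j) : LaurentSeries L)).coeff ((n : ℕ) : ℤ)) := by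
    intro j
    rw [res_mul (N := 2 * g - 1) (ω (M j)).2.2]
    · refine Finset.sum_congr rfl fun n _ => ?_
      rw [sc_coeff, lmap_coeff, hτ]
      have e1 : -(-((n : ℕ) : ℤ) - 1) = (((n : ℕ) + 1 : ℕ) : ℤ) := by
        push_cast
        ring
      rw [e1, zpow_natCast, Units.val_pow_eq_pow_val, Units.val_inv_eq_inv_val]
      ring
    · intro m hm
      rw [sc_coeff, lmap_coeff, h2 (K j) m (by omega), map_zero, mul_zero]
  simp only [h6]
  exact prod_mem (fun j n => τ ((f (K j)).coeff (-((n : ℕ) : ℤ) - 1)))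
    (fun j n => ((v.c : L))⁻¹ ^ ((n : ℕ) + 1) *
      ((ω (M j) : LaurentSeries L)).coeff ((n : ℕ) : ℤ)) s fun n => hs M n

/-- An element whose powers lie in a finite dimensional space is a constant. -/
theorem const {k L : Type} [Field k] [IsAlgClosed k] [Field L] [Algebra k L] (s : L)
    (V : Submodule k L) (hV : FiniteDimensional k V) (h : ∀ n : ℕ, s ^ n ∈ V) :
    ∃ a : k, algebraMap k L a = s := by
  have hle : Subalgebra.toSubmodule (Algebra.adjoin k {s}) ≤ V := by
    rw [Algebra.adjoin_eq_span, Submodule.span_le]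
    intro x hx
    obtain ⟨n, rfl⟩ := Submonoid.mem_closure_singleton.1 hx
    exact h n
  have hfin : FiniteDimensional k (Subalgebra.toSubmodule (Algebra.adjoin k {s})) :=
    Submodule.finiteDimensional_of_le hle
  have hfg : (Subalgebra.toSubmodule (Algebra.adjoin k {s})).FG :=
    Module.Finite.iff_fg.1 hfin
  have hint : IsIntegral k s :=
    IsIntegral.of_mem_of_fg _ hfg s (Algebra.self_mem_adjoin_singleton k s)
  have hdeg : (minpoly k s).degree = 1 :=
    IsAlgClosed.degree_eq_one_of_irreducible k (minpoly.irreducible hint)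
  exact minpoly.mem_range_of_degree_eq_one k s hdeg

end ZFD

open _root_.Pool.Agent.MG.G0.ZFD in
theorem t_ZFD (hKFO : Stmt_KFO) (hZFE : Stmt_ZFE) (hZRR : Stmt_ZRR) : Stmt_ZFD := by
  classical
  intro k F L _ _ _ _ _ _ _ _ t ht htop hfin hsep g d R T cs hcs hg hR hE
  constructor
  · intro r
    obtain ⟨ω, hω⟩ := forms hKFO hR
    let s : Finset L := (hcs.toFinset ×ˢ (Finset.univ : Finset ((Fin r → Fin g) ×
      (Fin r → Fin (2 * g - 1))))).image (gen ω (2 * g - 1) r)
    obtain ⟨V₀, hV₀, h₀⟩ := hZRR (k := k) (F := F) (L := L) t ht htop hfin hsep s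
    let V : Submodule k (MultilinearMap L (fun _ : Fin r => EE1 R) L) :=
      (Submodule.pi Set.univ fun _ : Fin r → Fin g => V₀).comap (vals (k := k) ω)
    have hV : ∀ S, S ∈ V ↔ ∀ M : Fin r → Fin g, S (fun j => ω (M j)) ∈ V₀ := by
      intro S
      rw [Submodule.mem_comap, Submodule.mem_pi]
      exact ⟨fun h M => h M (Set.mem_univ M), fun h M _ => h M⟩
    refine ⟨V, ?_, ?_⟩
    · let φ : V →ₗ[k] ((Fin r → Fin g) → V₀) := LinearMap.pi fun M =>
        LinearMap.codRestrict V₀ ((LinearMap.proj M ∘ₗ vals (k := k) ω) ∘ₗ V.subtype)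
          fun S => (hV S.1).1 S.2 M
      have hφ : Function.Injective φ := by
        intro S S' h
        refine Subtype.ext (vals_inj (k := k) ω hω ?_)
        funext M
        exact congrArg Subtype.val (congrFun h M)
      exact FiniteDimensional.of_injective φ hφ
    · intro S hS
      rw [hV]
      intro M
      refine h₀ _ ?_
      intro O _ _ _ _ _ _ _
      obtain ⟨v, hv, hc, hO⟩ := hE O
      refine mem_span hZFE hg ω v S (hS v hv) O hO _ ?_ M
      intro M' n
      refine Finset.mem_coe.2 (Finset.mem_image.2 ⟨((v.c : L), M', n), ?_, rfl⟩)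
      rw [Finset.mem_product]
      exact ⟨hcs.mem_toFinset.2 hc, Finset.mem_univ _⟩
  · intro s hs
    obtain ⟨V₀, hV₀, h₀⟩ := hZRR (k := k) (F := F) (L := L) t ht htop hfin hsep {1}
    refine const s V₀ hV₀ fun n => h₀ _ ?_
    intro O _ _ _ _ _ _ _
    obtain ⟨v, hv, hc, hO⟩ := hE O
    obtain ⟨x, hx⟩ := hs v hv
    obtain ⟨y, hy⟩ := hO x
    have h1 : s ^ n = (y ^ n) • (1 : L) := by
      rw [Algebra.smul_def, map_pow, hy, hx, mul_one]
    rw [h1]
    refine Submodule.smul_mem _ _ (Submodule.subset_span ?_)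
    simp

end Pool.Agent.MG.G0


end

section

/-!
# Expansion of multilinear forms at a place (module ZFE)
-/

open Polynomial

namespace Pool.Agent.MG.G0

namespace ZFE

section

variable {A B : Type} [CommRing A] [CommRing B]

theorem sc_res (c : Aˣ) (f : LaurentSeries A) :
    (sc c f).coeff (-1) = (c : A) * f.coeff (-1) := by
  rw [sc_coeff, neg_neg, zpow_one]

theorem sc_inv_sc (c : Aˣ) (f : LaurentSeries A) : sc c⁻¹ (sc c f) = f := by
  rw [sc_sc, inv_mul_cancel, sc_one]

theorem sc_sc_inv (c : Aˣ) (f : LaurentSeries A) : sc c (sc c⁻¹ f) = f := by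
  rw [sc_sc, mul_inv_cancel, sc_one]

/-- The inverse of `μ ↦ c⁻¹ • sc c μ`. -/
theorem back (c : Aˣ) (μ η : LaurentSeries A) (h : η = ((c⁻¹ : Aˣ) : A) • sc c μ) :
    μ = (c : A) • sc c⁻¹ η := by
  rw [h, map_smul, sc_inv_sc, smul_smul, Units.mul_inv, one_smul]

theorem pairing (φ : A →+* B) (c : Bˣ) (μ : LaurentSeries B) (η x : LaurentSeries A)
    (h : lmap φ η = ((c⁻¹ : Bˣ) : B) • sc c μ) :
    (μ * sc c⁻¹ (lmap φ x)).coeff (-1) = φ ((η * x).coeff (-1)) := by
  rw [back c μ _ h, smul_mul_assoc, ← map_mul, ← map_mul, HahnSeries.coeff_smul, sc_res,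
    smul_eq_mul, lmap_coeff, ← mul_assoc, Units.mul_inv, one_mul]

theorem mem_scale {R : Subalgebra A (LaurentSeries A)} (c : Aˣ) {μ : LaurentSeries A}
    (h : μ ∈ EE1 R) : ((c⁻¹ : Aˣ) : A) • sc c μ ∈ EE1 (R.map (sc c)) := by
  refine ⟨?_, Submodule.smul_mem _ _ (sc_mem_Po c h.2)⟩
  rintro _ ⟨p, hp, rfl⟩
  change ((((c⁻¹ : Aˣ) : A) • sc c μ) * sc c p).coeff (-1) = 0
  rw [smul_mul_assoc, ← map_mul, HahnSeries.coeff_smul, sc_res, h.1 p hp, mul_zero, smul_zero]

theorem mem_unscale {R : Subalgebra A (LaurentSeries A)} (c : Aˣ) {η : LaurentSeries A}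
    (h : η ∈ EE1 (R.map (sc c))) : (c : A) • sc c⁻¹ η ∈ EE1 R := by
  refine ⟨fun p hp => ?_, Submodule.smul_mem _ _ (sc_mem_Po _ h.2)⟩
  have h1 : p = sc c⁻¹ (sc c p) := (sc_inv_sc c p).symm
  rw [h1, smul_mul_assoc, ← map_mul, HahnSeries.coeff_smul, sc_res,
    h.1 (sc c p) ⟨p, hp, rfl⟩, mul_zero, smul_zero]

theorem scale_unscale (c : Aˣ) (η : LaurentSeries A) :
    ((c⁻¹ : Aˣ) : A) • sc c ((c : A) • sc c⁻¹ η) = η := by
  rw [map_smul, sc_sc_inv, smul_smul, Units.inv_mul, one_smul]

/-- Dual systems with bounded poles. -/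
theorem dual (hKFO : Stmt_KFO) (hKGP : Stmt_KGP) {g : ℕ} (hg : 1 ≤ g)
    {P : Subalgebra A (LaurentSeries A)} (hP : Kr g P) :
    ∃ (w : Fin g → KK Unit A) (f : Fin g → LaurentSeries A), IsForms (uno P) w ∧
      (∀ i, f i ∈ Po A (2 * g - 1)) ∧
      ∀ i j, ((w i ()) * f j).coeff (-1) = if i = j then 1 else 0 := by
  obtain ⟨⟨w, hw⟩, hu⟩ := hKFO (I := Unit) (P := uno P) hP
  have hE := (hu w hw).1
  choose F hF using fun j : Fin g => hw.surj (Pi.single j 1)
  choose p hp hq using fun j : Fin g => hKGP hg hP (F j)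
  refine ⟨w, fun j => F j () - p j (), hw, fun i => mem_Pol_unit.1 (hq i), fun i j => ?_⟩
  have h1 : ((w i ()) * F j ()).coeff (-1) = if i = j then 1 else 0 := by
    have h2 := hF j i
    rw [res_unit, Pi.single_apply] at h2
    exact h2
  have h3 : ((w i ()) * p j ()).coeff (-1) = 0 := (mem_EE_uno.1 (hE i)).1 _ (mem_uno.1 (hp j))
  change ((w i ()) * (F j () - p j ())).coeff (-1) = _
  rw [mul_sub, HahnSeries.coeff_sub, h1, h3, sub_zero]

theorem forms (hKFO : Stmt_KFO) {g : ℕ} {P : Subalgebra A (LaurentSeries A)} (hP : Kr g P)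
    {w : Fin g → KK Unit A} (hw : IsForms (uno P) w) :
    (∀ j, w j () ∈ EE1 P) ∧ ∀ η ∈ EE1 P, ∃ c : Fin g → A, η = ∑ j, c j • w j () := by
  obtain ⟨h1, h2⟩ := (hKFO hP).2 w hw
  refine ⟨fun j => mem_EE_uno.1 (h1 j), fun η hη => ?_⟩
  obtain ⟨c, hc, -⟩ := h2 (fun _ => η) (mem_EE_uno.2 hη)
  refine ⟨c, ?_⟩
  have h3 := congrFun hc ()
  rw [Finset.sum_apply] at h3
  exact h3

end

end ZFE

open _root_.Pool.Agent.MG.G0.ZFE in
theorem t_ZFE (hKFO : Stmt_KFO) (hKBC : Stmt_KBC) (hKGP : Stmt_KGP) : Stmt_ZFE := by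
  classical
  intro k L _ _ _ g d R v hg
  refine ⟨fun μ η h x => pairing (algebraMap v.O L) v.c _ _ x h, ?_⟩
  obtain ⟨w, f, hw, hf, hwf⟩ := dual hKFO hKGP hg v.M.kr
  have hwE := (forms hKFO v.M.kr hw).1
  obtain ⟨hkb, hfb, -⟩ := hKBC.2.2.2 (P := uno v.M.P) v.M.kr (algebraMap v.O L)
  have hfb' := hfb w hw
  rw [bc_uno, v.M.bc] at hkb hfb'
  have hb := forms hKFO (P := R.map (sc v.c)) hkb hfb'
  have hb1 : ∀ j, lmap (algebraMap v.O L) (w j ()) ∈ EE1 (R.map (sc v.c)) := hb.1
  let ω : Fin g → EE1 R := fun j =>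
    ⟨(v.c : L) • sc v.c⁻¹ (lmap (algebraMap v.O L) (w j ())), mem_unscale v.c (hb1 j)⟩
  have hω : ∀ i, lmap (algebraMap v.O L) (w i ()) =
      ((v.c⁻¹ : Lˣ) : L) • sc v.c (ω i : LaurentSeries L) := fun i =>
    (scale_unscale v.c _).symm
  have hpair : ∀ i j, ((ω i : LaurentSeries L) *
      sc v.c⁻¹ (lmap (algebraMap v.O L) (f j))).coeff (-1) = if i = j then 1 else 0 := by
    intro i j
    rw [pairing (algebraMap v.O L) v.c _ _ (f j) (hω i), hwf]
    split_ifs
    · rw [map_one]
    · rw [map_zero]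
  have hexp : ∀ μ : EE1 R, μ = ∑ i, ((μ : LaurentSeries L) *
      sc v.c⁻¹ (lmap (algebraMap v.O L) (f i))).coeff (-1) • ω i := by
    intro μ
    obtain ⟨x, hx⟩ := hb.2 _ (mem_scale v.c μ.2)
    have h1 : μ = ∑ i, x i • ω i := by
      apply Subtype.ext
      rw [back v.c (μ : LaurentSeries L) _ hx.symm, map_sum, Finset.smul_sum, Submodule.coe_sum]
      refine Finset.sum_congr rfl fun i _ => ?_
      rw [map_smul, smul_comm]
      rfl
    have h2 : ∀ j, ((μ : LaurentSeries L) *
        sc v.c⁻¹ (lmap (algebraMap v.O L) (f j))).coeff (-1) = x j := by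
      intro j
      have h3 : rf R (sc v.c⁻¹ (lmap (algebraMap v.O L) (f j))) μ = x j := by
        conv_lhs => rw [h1]
        rw [map_sum]
        have h4 : ∀ i, rf R (sc v.c⁻¹ (lmap (algebraMap v.O L) (f j))) (x i • ω i) =
            if i = j then x i else 0 := by
          intro i
          rw [map_smul, rf_apply, hpair, smul_eq_mul, mul_ite, mul_one, mul_zero]
        rw [Finset.sum_congr rfl fun i _ => h4 i, Finset.sum_ite_eq', if_pos (Finset.mem_univ j)]
      exact h3
    conv_lhs => rw [h1]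
    exact Finset.sum_congr rfl fun i _ => by rw [h2 i]
  refine ⟨ω, fun i => ⟨w i (), hwE i⟩, f, hω, hf, fun r S => ?_⟩
  ext μ
  rw [tns_apply]
  have h5 : μ = fun j => ∑ i, ((μ j : LaurentSeries L) *
      sc v.c⁻¹ (lmap (algebraMap v.O L) (f i))).coeff (-1) • ω i := funext fun j => hexp (μ j)
  conv_lhs => rw [h5]
  rw [MultilinearMap.map_sum]
  refine Finset.sum_congr rfl fun K _ => ?_
  rw [MultilinearMap.map_smul_univ, smul_eq_mul, mul_comm]

end Pool.Agent.MG.G0


end

section

/-!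
# ZFF: the Frobenius on multilinear forms
-/

open Polynomial

namespace Pool.Agent.MG.G0

namespace ZFFaux

section

variable {L : Type} [Field L] {g : ℕ} {R : Subalgebra L (LaurentSeries L)}

theorem rf_add (f h : LaurentSeries L) (μ : EE1 R) : rf R (f + h) μ = rf R f μ + rf R h μ := by
  rw [rf_apply, rf_apply, rf_apply, mul_add, HahnSeries.coeff_add]

theorem rf_smul (c : L) (f : LaurentSeries L) (μ : EE1 R) : rf R (c • f) μ = c * rf R f μ := by
  rw [rf_apply, rf_apply, mul_smul_comm, HahnSeries.coeff_smul, smul_eq_mul]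

theorem rf_sum {ι : Type} (s : Finset ι) (f : ι → LaurentSeries L) (μ : EE1 R) :
    rf R (∑ i ∈ s, f i) μ = ∑ i ∈ s, rf R (f i) μ := by
  classical
  induction s using Finset.induction_on with
  | empty => rw [Finset.sum_empty, Finset.sum_empty, rf_apply, mul_zero, HahnSeries.coeff_zero]
  | insert a s ha ih => rw [Finset.sum_insert ha, Finset.sum_insert ha, rf_add, ih]

theorem rf_mem {q : LaurentSeries L} (hq : q ∈ R) (μ : EE1 R) : rf R q μ = 0 := μ.2.1 q hq

theorem rf_Po {o : LaurentSeries L} (ho : o ∈ Po L 0) (μ : EE1 R) : rf R o μ = 0 := by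
  rw [rf_apply]
  have h1 : ∀ m < -(0 : ℤ), (μ : LaurentSeries L).coeff m = 0 := μ.2.2
  exact mul_low (a := 0) (b := 0) h1 ho (-1) (by norm_num)

/-- A dual system. -/
theorem dual_system (hKFO : Stmt_KFO) (hR : Kr g R) :
    ∃ (ω : Fin g → EE1 R) (f : Fin g → LaurentSeries L),
      (∀ i j, rf R (f j) (ω i) = if i = j then 1 else 0) ∧
      (∀ μ : EE1 R, μ = ∑ j, rf R (f j) μ • ω j) ∧
      ∀ h : LaurentSeries L, ∃ q ∈ R, h - ∑ j, rf R h (ω j) • f j - q ∈ Po L 0 := by
  obtain ⟨⟨ω, hω⟩, hu⟩ := hKFO (I := Unit) (P := uno R) hR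
  obtain ⟨h1, h2⟩ := hu ω hω
  choose F hF using fun j : Fin g => hω.surj (Pi.single j 1)
  have hmem : ∀ j, ω j () ∈ EE1 R := fun j => mem_EE_uno.1 (h1 j)
  have hres : ∀ (j : Fin g) (x : KK Unit L), res (ω j * x) = rf R (x ()) ⟨ω j (), hmem j⟩ := by
    intro j x
    rw [res_unit, rf_apply]
    rfl
  have hδ : ∀ i j, rf R (F j ()) ⟨ω i (), hmem i⟩ = if i = j then 1 else 0 := by
    intro i j
    rw [← hres, hF, Pi.single_apply]
  refine ⟨fun j => ⟨ω j (), hmem j⟩, fun j => F j (), hδ, fun μ => ?_, fun h => ?_⟩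
  · have hμ : (fun _ : Unit => (μ : LaurentSeries L)) ∈ EE (uno R) := mem_EE_uno.2 μ.2
    obtain ⟨c, hc, -⟩ := h2 _ hμ
    have hc1 : μ = ∑ j, c j • (⟨ω j (), hmem j⟩ : EE1 R) := by
      apply Subtype.ext
      rw [Submodule.coe_sum]
      have := congrFun hc ()
      rw [Finset.sum_apply] at this
      exact this
    have hc2 : ∀ i, rf R (F i ()) μ = c i := by
      intro i
      conv_lhs => rw [hc1]
      rw [map_sum]
      simp only [map_smul, hδ, smul_eq_mul, mul_ite, mul_one, mul_zero]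
      rw [Finset.sum_ite_eq' Finset.univ i, if_pos (Finset.mem_univ i)]
    conv_lhs => rw [hc1]
    exact Finset.sum_congr rfl fun j _ => by rw [hc2 j]
  · let H : KK Unit L := fun _ => h - ∑ j, rf R h ⟨ω j (), hmem j⟩ • F j ()
    have hH : ∀ i, res (ω i * H) = 0 := by
      intro i
      rw [hres]
      change rf R (h - ∑ j, rf R h ⟨ω j (), hmem j⟩ • F j ()) ⟨ω i (), hmem i⟩ = 0
      have h3 : rf R h ⟨ω i (), hmem i⟩ =
          rf R (h - ∑ j, rf R h ⟨ω j (), hmem j⟩ • F j ()) ⟨ω i (), hmem i⟩ +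
          rf R (∑ j, rf R h ⟨ω j (), hmem j⟩ • F j ()) ⟨ω i (), hmem i⟩ := by
        rw [← rf_add, sub_add_cancel]
      have h4 : rf R (∑ j, rf R h ⟨ω j (), hmem j⟩ • F j ()) ⟨ω i (), hmem i⟩ =
          rf R h ⟨ω i (), hmem i⟩ := by
        rw [rf_sum]
        simp only [rf_smul, hδ, mul_ite, mul_one, mul_zero]
        rw [Finset.sum_ite_eq Finset.univ i, if_pos (Finset.mem_univ i)]
      rw [h4] at h3
      exact (left_eq_add.mp (h3.trans (add_comm _ _)))
    obtain ⟨q, hq, hq2⟩ := (hω.ker H).1 hH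
    exact ⟨q (), mem_uno.1 hq, mem_Pol_unit.1 hq2⟩

/-- The residue of a power. -/
theorem rf_pow {p : ℕ} (hp : p.Prime) (hc : CharP L p) {ω : Fin g → EE1 R}
    {f : Fin g → LaurentSeries L}
    (h3 : ∀ h : LaurentSeries L, ∃ q ∈ R, h - ∑ j, rf R h (ω j) • f j - q ∈ Po L 0)
    (h : LaurentSeries L) (μ : EE1 R) :
    rf R (h ^ p) μ = ∑ m, rf R h (ω m) ^ p * rf R (f m ^ p) μ := by
  have : Fact p.Prime := ⟨hp⟩
  have hch : CharP (LaurentSeries L) p :=
    charP_of_injective_algebraMap (algebraMap L (LaurentSeries L)).injective p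
  obtain ⟨q, hq, ho⟩ := h3 h
  have h4 : h = (∑ j, rf R h (ω j) • f j) + q + (h - ∑ j, rf R h (ω j) • f j - q) := by ring
  have h5 : h ^ p = (∑ j, rf R h (ω j) ^ p • f j ^ p) + q ^ p +
      (h - ∑ j, rf R h (ω j) • f j - q) ^ p := by
    conv_lhs => rw [h4]
    rw [add_pow_char, add_pow_char, sum_pow_char]
    simp only [_root_.smul_pow]
  have h6 : (h - ∑ j, rf R h (ω j) • f j - q) ^ p ∈ Po L 0 := by
    have h7 : ∀ n : ℕ, (h - ∑ j, rf R h (ω j) • f j - q) ^ n ∈ Po L 0 := by
      intro n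
      induction n with
      | zero =>
        rw [pow_zero]
        intro m hm
        rw [← HahnSeries.single_zero_one, HahnSeries.coeff_single_of_ne (by omega)]
      | succ n ih =>
        rw [pow_succ]
        intro m hm
        exact mul_low (a := 0) (b := 0) ih ho m (by omega)
    exact h7 p
  rw [h5, rf_add, rf_add, rf_sum, rf_mem (R.pow_mem hq p), rf_Po h6, add_zero, add_zero]
  exact Finset.sum_congr rfl fun m _ => rf_smul _ _ _

theorem tns_rf {ι : Type} [Fintype ι] {r : ℕ} (a : ι → L) (f : ι → Fin r → LaurentSeries L)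
    (μ : Fin r → EE1 R) : tns R a f μ = ∑ i, a i * ∏ j, rf R (f i j) (μ j) := tns_apply R a f μ

end

end ZFFaux

open _root_.Pool.Agent.MG.G0.ZFFaux

/-- ZFF: the Frobenius on multilinear forms. -/
theorem t_ZFF (hKFO : Stmt_KFO) : Stmt_ZFF := by
  classical
  intro L _ p hp hc g R hR r
  have : Fact p.Prime := ⟨hp⟩
  obtain ⟨ω, f, h1, h2, h3⟩ := dual_system hKFO hR
  refine ⟨fun S => tns R (fun K : Fin r → Fin g => (S fun j => ω (K j)) ^ p)
    (fun K j => f (K j) ^ p), fun {ι} _ a f' => ?_, fun S T => ?_, fun c S => ?_, fun hO S hS => ?_⟩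
  · refine MultilinearMap.ext fun μ => ?_
    rw [tns_rf, tns_rf]
    have h4 : ∀ K : Fin r → Fin g, (tns R a f' fun j => ω (K j)) ^ p *
        ∏ j, rf R (f (K j) ^ p) (μ j) =
        ∑ i, a i ^ p * ∏ j, (rf R (f' i j) (ω (K j)) ^ p * rf R (f (K j) ^ p) (μ j)) := by
      intro K
      rw [tns_rf, sum_pow_char, Finset.sum_mul]
      refine Finset.sum_congr rfl fun i _ => ?_
      rw [mul_pow, Finset.prod_mul_distrib, Finset.prod_pow, mul_assoc]
    rw [Finset.sum_congr rfl fun K _ => h4 K, Finset.sum_comm]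
    refine Finset.sum_congr rfl fun i _ => ?_
    rw [← Finset.mul_sum]
    congr 1
    have h5 : ∀ j, rf R (f' i j ^ p) (μ j) =
        ∑ m, rf R (f' i j) (ω m) ^ p * rf R (f m ^ p) (μ j) :=
      fun j => rf_pow hp hc h3 (f' i j) (μ j)
    rw [Finset.prod_congr rfl fun j _ => h5 j, Finset.prod_univ_sum, Fintype.piFinset_univ]
  · refine MultilinearMap.ext fun μ => ?_
    rw [add_apply, tns_rf, tns_rf, tns_rf, ← Finset.sum_add_distrib]
    refine Finset.sum_congr rfl fun K _ => ?_
    rw [add_apply, add_pow_char, add_mul]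
  · refine MultilinearMap.ext fun μ => ?_
    rw [smul_apply, tns_rf, tns_rf, smul_eq_mul, Finset.mul_sum]
    refine Finset.sum_congr rfl fun K _ => ?_
    rw [smul_apply, smul_eq_mul, mul_pow, mul_assoc]
  · -- the functionals `res (μ fₘᵖ)` are a basis of the dual
    have hker : ∀ μ : EE1 R, (∀ m, rf R (f m ^ p) μ = 0) → μ = 0 := by
      intro μ hμ
      apply Subtype.ext
      refine hO (μ : LaurentSeries L) μ.2 fun h => ?_
      have h4 := rf_pow hp hc h3 h μ
      rw [rf_apply] at h4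
      rw [h4]
      exact Finset.sum_eq_zero fun m _ => by rw [hμ m, mul_zero]
    let Λ : (Fin g → L) →ₗ[L] (Fin g → L) :=
      LinearMap.pi fun m => (rf R (f m ^ p)).comp (Fintype.linearCombination L ω)
    have hΛ : ∀ c m, Λ c m = rf R (f m ^ p) (∑ j, c j • ω j) := by
      intro c m
      change rf R (f m ^ p) (Fintype.linearCombination L ω c) = _
      rw [Fintype.linearCombination_apply]
    have hinj : Function.Injective Λ := by
      rw [injective_iff_map_eq_zero]
      intro c hcc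
      have h4 : (∑ j, c j • ω j) = 0 := hker _ fun m => by rw [← hΛ, hcc]; rfl
      funext i
      have h5 : rf R (f i) (∑ j, c j • ω j) = c i := by
        rw [map_sum]
        simp only [map_smul, h1, smul_eq_mul, mul_ite, mul_one, mul_zero]
        rw [Finset.sum_ite_eq' Finset.univ i, if_pos (Finset.mem_univ i)]
      rw [← h5, h4, map_zero]
      rfl
    have hsurj : Function.Surjective Λ := LinearMap.injective_iff_surjective.1 hinj
    choose c hcn using fun n : Fin g => hsurj (Pi.single n 1)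
    have hμ : ∀ n m, rf R (f m ^ p) (∑ j, c n j • ω j) = if m = n then 1 else 0 := by
      intro n m
      rw [← hΛ, hcn, Pi.single_apply]
    have hSω : ∀ K₀ : Fin r → Fin g, (S fun j => ω (K₀ j)) = 0 := by
      intro K₀
      have h4 : (tns R (fun K : Fin r → Fin g => (S fun j => ω (K j)) ^ p)
          (fun K j => f (K j) ^ p)) (fun j => ∑ i, c (K₀ j) i • ω i) = 0 := by
        have := congrArg (fun T : MultilinearMap L (fun _ : Fin r => EE1 R) L =>
          T (fun j => ∑ i, c (K₀ j) i • ω i)) hS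
        exact this
      rw [tns_rf] at h4
      have h5 : ∀ K : Fin r → Fin g, (S fun j => ω (K j)) ^ p *
          ∏ j, rf R (f (K j) ^ p) (∑ i, c (K₀ j) i • ω i) =
          if K = K₀ then (S fun j => ω (K₀ j)) ^ p else 0 := by
        intro K
        split_ifs with hK
        · subst hK
          rw [Finset.prod_eq_one fun j _ => by rw [hμ, if_pos rfl], mul_one]
        · obtain ⟨j, hj⟩ := Function.ne_iff.1 hK
          rw [Finset.prod_eq_zero (Finset.mem_univ j) (by rw [hμ, if_neg hj]), mul_zero]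
      rw [Finset.sum_congr rfl fun K _ => h5 K, Finset.sum_ite_eq' Finset.univ K₀,
        if_pos (Finset.mem_univ K₀)] at h4
      exact pow_eq_zero_iff hp.ne_zero |>.1 h4
    refine MultilinearMap.ext fun μ => ?_
    have h6 : μ = fun j => ∑ m, rf R (f m) (μ j) • ω m := by
      funext j
      exact h2 (μ j)
    rw [h6, MultilinearMap.map_sum, zero_apply]
    refine Finset.sum_eq_zero fun K _ => ?_
    rw [MultilinearMap.map_smul_univ S (fun j => rf R (f (K j)) (μ j)) (fun j => ω (K j)), hSω,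
      smul_zero]

end Pool.Agent.MG.G0


end

section

/-!
# ZFV: the vanishing theorem
-/

open Polynomial

namespace Pool.Agent.MG.G0

namespace ZFV

section

variable {k L : Type} [Field k] [Field L] [Algebra k L] {g d : ℕ}
  {R : Subalgebra L (LaurentSeries L)}

theorem int_add (v : Plc k L g d R) {r : ℕ}
    {S S' : MultilinearMap L (fun _ : Fin r => EE1 R) L} (h : v.Int S) (h' : v.Int S') :
    v.Int (S + S') := by
  intro ω η hη
  obtain ⟨x, hx⟩ := h ω η hη
  obtain ⟨x', hx'⟩ := h' ω η hη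
  refine ⟨x + x', ?_⟩
  rw [map_add, hx, hx']
  rfl

theorem int_zero (v : Plc k L g d R) {r : ℕ} :
    v.Int (0 : MultilinearMap L (fun _ : Fin r => EE1 R) L) := by
  intro ω η _
  exact ⟨0, by rw [map_zero]; rfl⟩

theorem int_smul (v : Plc k L g d R) {r : ℕ} (a : k)
    {S : MultilinearMap L (fun _ : Fin r => EE1 R) L} (h : v.Int S) : v.Int (a • S) := by
  intro ω η hη
  obtain ⟨x, hx⟩ := h ω η hη
  refine ⟨algebraMap k v.O a * x, ?_⟩
  rw [map_mul, hx, ← IsScalarTower.algebraMap_apply k v.O L, ← Algebra.smul_def]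
  rfl

theorem smul_eq {r : ℕ} (a : k) (S : MultilinearMap L (fun _ : Fin r => EE1 R) L) :
    a • S = algebraMap k L a • S := by
  refine MultilinearMap.ext fun m => ?_
  change a • S m = algebraMap k L a * S m
  exact Algebra.smul_def _ _

/-- The forms which are integral at the places in `T`. -/
def HH (T : Plc k L g d R → Prop) (r : ℕ) :
    Submodule k (MultilinearMap L (fun _ : Fin r => EE1 R) L) where
  carrier := {S | ∀ v, T v → v.Int S}
  add_mem' h h' v hv := int_add v (h v hv) (h' v hv)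
  zero_mem' v _ := int_zero v
  smul_mem' a _ h v hv := int_smul v a (h v hv)

theorem int_zero_pow (v : Plc k L g d R) {r : ℕ}
    {S : MultilinearMap L (fun _ : Fin r => EE1 R) L} (h : v.Int S) : v.IntN 0 S := by
  intro ω η hη
  obtain ⟨x, hx⟩ := h ω η hη
  exact ⟨x, by rw [pow_zero, one_mul, hx]⟩

end

end ZFV

open _root_.Pool.Agent.MG.G0.ZFV in
/-- **ZFV** -/
theorem t_ZFV (hZFF : Stmt_ZFF) (hZFC : Stmt_ZFC) (hZSL : Stmt_ZSL) (hZFD : Stmt_ZFD) :
    Stmt_ZFV := by
  intro k F L _ _ _ _ _ _ _ _ t ht hgen hfin hsep p hp hchar g d R T cs hcs hg hKr hE hOrd v₀ hv₀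
    hSsp hinf r hr S hS
  have hcL : CharP L p := charP_of_injective_algebraMap (algebraMap k L).injective p
  obtain ⟨Fr, hF1, hFadd, hFsm, hFinj⟩ := hZFF p hp hcL hKr r
  obtain ⟨V, hVfin, hV⟩ := (hZFD t ht hgen hfin hsep T cs hcs hg hKr hE).1 r
  have hHV : HH T r ≤ V := fun S hS => hV S hS
  have hHfin : FiniteDimensional k (HH T r) := Submodule.finiteDimensional_of_le hHV
  have hsur := hZSL p hp hchar (HH T r) hHfin Fr hFadd (fun a x => by
      rw [smul_eq a x, hFsm, ← map_pow, ← smul_eq])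
    (fun x hx v hv => (hZFC p hp hchar v hg Fr hF1).1 x (hx v hv))
    (fun x _ hx0 => hFinj hOrd x hx0)
  have key : ∀ n : ℕ, ∀ x ∈ HH T r, v₀.IntN n x := by
    intro n
    induction n with
    | zero => exact fun x hx => int_zero_pow v₀ (hx v₀ hv₀)
    | succ n ih =>
      intro x hx
      obtain ⟨y, hy, rfl⟩ := hsur x hx
      exact (hZFC p hp hchar v₀ hg Fr hF1).2.1 hr hSsp n y (ih y hy)
  exact (hZFC p hp hchar v₀ hg Fr hF1).2.2 hinf S (fun n => key n S hS)

end Pool.Agent.MG.G0


end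

section

set_option autoImplicit false

/-!
# ZGR: ranks of a matrix at simple and double roots of its determinant
-/

open Polynomial

namespace Pool.Agent.MG.G0

namespace ZGR

theorem rank_lt {κ : Type} [Field κ] {d : ℕ} (M : Matrix (Fin d) (Fin d) κ) (h : M.det = 0) :
    M.rank < d := by
  obtain ⟨v, hv, hMv⟩ := Matrix.exists_mulVec_eq_zero_iff.2 h
  have h1 : Module.finrank κ (LinearMap.range M.mulVecLin) +
      Module.finrank κ (LinearMap.ker M.mulVecLin) = d := by
    rw [LinearMap.finrank_range_add_finrank_ker]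
    simp
  have h2 : 0 < Module.finrank κ (LinearMap.ker M.mulVecLin) := by
    rw [Module.finrank_pos_iff, Submodule.nontrivial_iff_ne_bot, Submodule.ne_bot_iff]
    exact ⟨v, by rw [LinearMap.mem_ker, Matrix.mulVecLin_apply, hMv], hv⟩
  rw [Matrix.rank]
  omega

theorem det_eval {κ : Type} [Field κ] {d : ℕ} (G : Matrix (Fin d) (Fin d) κ[X]) (c : κ) :
    (G.map (eval c)).det = G.det.eval c := by
  have h := RingHom.map_det (evalRingHom c) G
  rw [coe_evalRingHom] at h
  rw [h]
  rfl

end ZGR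

/-- ZGR: ranks of a matrix at simple and double roots of its determinant. -/
theorem t_ZGR (hZLA : Stmt_ZLA) : Stmt_ZGR := by
  intro κ _ d G u f hd hu hG
  have hdvd : ∀ c, (X - C c) ^ (d - (G.map (eval c)).rank) ∣ f := by
    intro c
    have h1 := hZLA.1 G c
    rw [hG] at h1
    exact (hu.dvd_mul_left).1 h1
  refine ⟨fun c hc => ?_, fun c h hf hh => ?_⟩
  · by_contra hlt
    exact hc ((pow_dvd_pow _ (by omega)).trans (hdvd c))
  · have h1 : (G.map (eval c)).rank < d := by
      apply ZGR.rank_lt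
      rw [ZGR.det_eval, hG, hf]
      simp
    have h2 : d - (G.map (eval c)).rank ≤ 2 := by
      by_contra hlt
      have h3 : (X - C c) ^ 3 ∣ f := (pow_dvd_pow _ (by omega)).trans (hdvd c)
      rw [hf, pow_succ] at h3
      have h4 : (X - C c) ∣ h :=
        (mul_dvd_mul_iff_left (pow_ne_zero 2 (X_sub_C_ne_zero c))).1 h3
      exact hh (dvd_iff_isRoot.1 h4)
    omega

end Pool.Agent.MG.G0


end

section

/-!
# Integral closure of `k[s]` in a finite separable extension of `k(s)`
-/

open Polynomial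

namespace Pool.Agent.MG.G0

namespace ZIC

theorem fractionRing {k F : Type} [Field k] [Field F] [Algebra k F] [Algebra k[X] F]
    [IsScalarTower k k[X] F] (s : F) (hs : algebraMap k[X] F X = s) (hk : Transcendental k s)
    (htop : IntermediateField.adjoin k {s} = ⊤) : IsFractionRing k[X] F := by
  have h1 : ∀ p : k[X], algebraMap k[X] F p = aeval s p := by
    intro p
    have h2 : (IsScalarTower.toAlgHom k k[X] F) = aeval s := by
      apply Polynomial.algHom_ext
      rw [aeval_X]
      exact hs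
    exact DFunLike.congr_fun h2 p
  have hinj : Function.Injective (algebraMap k[X] F) := by
    intro p q hpq
    rw [h1, h1] at hpq
    exact (transcendental_iff_injective.mp hk) hpq
  have : FaithfulSMul k[X] F := (faithfulSMul_iff_algebraMap_injective _ _).mpr hinj
  refine IsFractionRing.of_field k[X] F fun z => ?_
  have hz : z ∈ IntermediateField.adjoin k {s} := by
    rw [htop]
    exact IntermediateField.mem_top
  obtain ⟨p, q, h⟩ := IntermediateField.mem_adjoin_simple_iff k z |>.mp hz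
  exact ⟨p, q, by rw [h1, h1]; exact h⟩

/-- the intersection of the discrete valuation rings -/
theorem inter {k F L : Type} [Field k] [Field F] [Field L] [Algebra k F] [Algebra F L]
    [Algebra k L] [IsScalarTower k F L] [Algebra k[X] F] [Algebra k[X] L]
    [IsScalarTower k[X] F L] [IsScalarTower k k[X] L] [IsFractionRing k[X] F]
    [FiniteDimensional F L] [Algebra.IsSeparable F L] (y : L)
    (hy : ∀ (O : Type) [CommRing O] [IsDomain O] [IsDiscreteValuationRing O] [Algebra k O]
      [Algebra O L] [IsScalarTower k O L] [IsFractionRing O L],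
        (∃ x : O, algebraMap O L x = algebraMap k[X] L X) → ∃ x : O, algebraMap O L x = y) :
    IsIntegral k[X] y := by
  have : IsDedekindDomain (integralClosure k[X] L) := integralClosure.isDedekindDomain k[X] F L
  have : IsFractionRing (integralClosure k[X] L) L :=
    integralClosure.isFractionRing_of_finite_extension F L
  let I : Ideal (integralClosure k[X] L) :=
    { carrier := {b | IsIntegral k[X] ((b : L) * y)}
      add_mem' := by
        intro a b ha hb
        show IsIntegral k[X] (((a + b : integralClosure k[X] L) : L) * y)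
        rw [Subalgebra.coe_add, add_mul]
        exact IsIntegral.add ha hb
      zero_mem' := by
        show IsIntegral k[X] (((0 : integralClosure k[X] L) : L) * y)
        rw [Subalgebra.coe_zero, zero_mul]
        exact isIntegral_zero
      smul_mem' := by
        intro c b hb
        show IsIntegral k[X] (((c • b : integralClosure k[X] L) : L) * y)
        rw [smul_eq_mul, Subalgebra.coe_mul, mul_assoc]
        exact IsIntegral.mul c.2 hb }
  have hI : I = ⊤ := by
    by_contra hne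
    obtain ⟨M, hM, hIM⟩ := Ideal.exists_le_maximal I hne
    have := hM.isPrime
    have hM0 : M ≠ ⊥ := by
      rintro rfl
      obtain ⟨a, d, hd, h⟩ := IsFractionRing.div_surjective (A := integralClosure k[X] L) y
      have hd0 : d ≠ 0 := nonZeroDivisors.ne_zero hd
      have hdI : d ∈ I := by
        show IsIntegral k[X] ((d : L) * y)
        have h3 : (d : L) * y = a := by
          rw [← h]
          have h4 : algebraMap (integralClosure k[X] L) L d ≠ 0 := by
            intro h5
            exact hd0 ((IsFractionRing.injective (integralClosure k[X] L) L)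
              (h5.trans (map_zero _).symm))
          show algebraMap (integralClosure k[X] L) L d * _ = algebraMap _ L a
          field_simp
        rw [h3]
        exact a.2
      exact hd0 (by simpa using hIM hdI)
    have hle : M.primeCompl ≤ nonZeroDivisors (integralClosure k[X] L) :=
      M.primeCompl_le_nonZeroDivisors
    let O := Localization.subalgebra.ofField L M.primeCompl hle
    have : IsDiscreteValuationRing O :=
      IsLocalization.AtPrime.isDiscreteValuationRing_of_dedekind_domain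
        (integralClosure k[X] L) hM0 O
    obtain ⟨x, hx⟩ := hy O ⟨algebraMap (integralClosure k[X] L) O
      (algebraMap k[X] (integralClosure k[X] L) X), by
        rw [← IsScalarTower.algebraMap_apply, ← IsScalarTower.algebraMap_apply]⟩
    obtain ⟨a, d, hd, h⟩ := x.2
    have h6 : y = (a : L) * ((d : L))⁻¹ := by
      rw [← hx]
      exact h
    have hd0 : (d : L) ≠ 0 := by
      intro h7
      have h8 : d = 0 := Subtype.ext h7
      exact hd (by rw [h8]; exact M.zero_mem)
    apply hd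
    apply hIM
    show IsIntegral k[X] ((d : L) * y)
    rw [h6]
    have h9 : (d : L) * ((a : L) * (d : L)⁻¹) = a := by
      field_simp
    rw [h9]
    exact a.2
  have h10 : (1 : integralClosure k[X] L) ∈ I := by
    rw [hI]
    exact Submodule.mem_top
  have h11 : IsIntegral k[X] (((1 : integralClosure k[X] L) : L) * y) := h10
  rwa [Subalgebra.coe_one, one_mul] at h11

end ZIC

theorem t_ZIC : Stmt_ZIC := by
  intro k F L _ _ _ _ _ _ _ s hs htop hfin hsep
  letI a1 : Algebra k[X] F := ((aeval (R := k) s).toRingHom).toAlgebra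
  letI a2 : Algebra k[X] L := ((algebraMap F L).comp (aeval (R := k) s).toRingHom).toAlgebra
  have : IsScalarTower k[X] F L := IsScalarTower.of_algebraMap_eq fun _ => rfl
  have : IsScalarTower k k[X] F := IsScalarTower.of_algebraMap_eq fun c => by
    show algebraMap k F c = aeval s (C c)
    rw [aeval_C]
  have : IsScalarTower k k[X] L := IsScalarTower.of_algebraMap_eq fun c => by
    show algebraMap k L c = algebraMap F L (aeval s (C c))
    rw [aeval_C, ← IsScalarTower.algebraMap_apply]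
  have : IsFractionRing k[X] F := ZIC.fractionRing s (by
    show aeval s X = s
    rw [aeval_X]) hs htop
  have := hfin
  have := hsep
  refine ⟨fun y hy => ?_, fun y hy => ?_, fun c => ?_⟩
  · refine ZIC.inter (k := k) (F := F) y ?_
    intro O _ _ _ _ _ _ _ hx
    refine hy O ?_
    obtain ⟨x, hx⟩ := hx
    refine ⟨x, hx.trans ?_⟩
    show algebraMap F L (aeval s X) = algebraMap F L s
    rw [aeval_X]
  · have h1 : IsIntegral k[X] y := hy
    have h2 : IsIntegral k[X] (Algebra.trace F L y) := Algebra.isIntegral_trace h1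
    obtain ⟨q, hq⟩ := IsIntegrallyClosed.isIntegral_iff.mp h2
    exact ⟨q, hq.symm⟩
  · have : Algebra.IsAlgebraic F L := Algebra.IsAlgebraic.of_finite F L
    have h1 : IsAlgebraic k[X] c :=
      (IsFractionRing.isAlgebraic_iff k[X] F L).mpr (Algebra.IsAlgebraic.isAlgebraic c)
    obtain ⟨h, hh, hint⟩ := h1.exists_integral_multiple
    refine ⟨h, hh, ?_⟩
    have h3 : h • c = algebraMap F L (aeval s h) * c := Algebra.smul_def h c
    rw [← h3]
    exact hint

end Pool.Agent.MG.G0


end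

section

/-!
# ZLA: the corank of a matrix at a point is at most the order of the determinant
-/

open Polynomial

namespace Pool.Agent.MG.G0

namespace ZLA

variable {K : Type} [Field K] {n : ℕ}

/-- An invertible matrix, some of whose columns span the kernel of `M`. -/
theorem exists_adapted (M : Matrix (Fin n) (Fin n) K) :
    ∃ (U : Matrix (Fin n) (Fin n) K) (S : Finset (Fin n)), IsUnit U.det ∧
      S.card = n - M.rank ∧ ∀ j ∈ S, M.mulVec (fun i => U i j) = 0 := by
  classical
  have hrk : M.rank + Module.finrank K (LinearMap.ker M.mulVecLin) = n := by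
    have h := LinearMap.finrank_range_add_finrank_ker M.mulVecLin
    rw [Module.finrank_fin_fun] at h
    exact h
  set k := LinearMap.ker M.mulVecLin
  obtain ⟨W, hW⟩ := Submodule.exists_isCompl k
  let bk := Module.finBasis K k
  let bW := Module.finBasis K W
  let b0 := (bk.prod bW).map (Submodule.prodEquivOfIsCompl k W hW)
  have hcard : Fintype.card (Fin (Module.finrank K k) ⊕ Fin (Module.finrank K W)) =
      Fintype.card (Fin n) := by
    rw [← Module.finrank_eq_card_basis b0, Module.finrank_fin_fun, Fintype.card_fin]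
  let e := Fintype.equivOfCardEq hcard
  let b := b0.reindex e
  refine ⟨(Pi.basisFun K (Fin n)).toMatrix b,
    Finset.univ.map ((⟨Sum.inl, Sum.inl_injective⟩ : Fin (Module.finrank K k) ↪
      Fin (Module.finrank K k) ⊕ Fin (Module.finrank K W)).trans e.toEmbedding), ?_, ?_, ?_⟩
  · have h := (Pi.basisFun K (Fin n)).toMatrix_mul_toMatrix_flip b
    have h2 := congrArg Matrix.det h
    rw [Matrix.det_mul, Matrix.det_one] at h2
    exact IsUnit.of_mul_eq_one _ h2
  · rw [Finset.card_map, Finset.card_univ, Fintype.card_fin]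
    omega
  · intro j hj
    rw [Finset.mem_map] at hj
    obtain ⟨l, -, rfl⟩ := hj
    have h1 : (fun i => (Pi.basisFun K (Fin n)).toMatrix b i
        ((⟨Sum.inl, Sum.inl_injective⟩ : Fin (Module.finrank K k) ↪
          Fin (Module.finrank K k) ⊕ Fin (Module.finrank K W)).trans e.toEmbedding l)) =
        (bk l : Fin n → K) := by
      funext i
      rw [Module.Basis.toMatrix_apply, Pi.basisFun_repr]
      have h2 : b (((⟨Sum.inl, Sum.inl_injective⟩ : Fin (Module.finrank K k) ↪
          Fin (Module.finrank K k) ⊕ Fin (Module.finrank K W)).trans e.toEmbedding) l) =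
          (bk l : Fin n → K) := by
        change (b0.reindex e) (e (Sum.inl l)) = _
        rw [Module.Basis.reindex_apply, Equiv.symm_apply_apply]
        change Submodule.prodEquivOfIsCompl k W hW ((bk.prod bW) (Sum.inl l)) = _
        rw [Module.Basis.prod_apply]
        simp
      rw [h2]
    rw [h1]
    exact LinearMap.mem_ker.1 (bk l).2

theorem pow_dvd_det (M : Matrix (Fin n) (Fin n) K[X]) (c : K) :
    (X - C c) ^ (n - (M.map (eval c)).rank) ∣ M.det := by
  classical
  obtain ⟨U, S, hU, hS, hker⟩ := exists_adapted (M.map (eval c))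
  have hdiv : ∀ i, ∀ j ∈ S, (X - C c) ∣ (M * U.map C) i j := by
    intro i j hj
    rw [Polynomial.dvd_iff_isRoot, Polynomial.IsRoot.def, Matrix.mul_apply,
      Polynomial.eval_finsetSum]
    have h1 := congrFun (hker j hj) i
    rw [Matrix.mulVec, dotProduct, Pi.zero_apply] at h1
    rw [← h1]
    refine Finset.sum_congr rfl fun k _ => ?_
    rw [Polynomial.eval_mul, Matrix.map_apply, Matrix.map_apply, Polynomial.eval_C]
  have hN : ∀ i j, ∃ p : K[X], (M * U.map C) i j = (if j ∈ S then X - C c else 1) * p := by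
    intro i j
    by_cases hj : j ∈ S
    · obtain ⟨p, hp⟩ := hdiv i j hj
      exact ⟨p, by rw [if_pos hj, hp]⟩
    · exact ⟨(M * U.map C) i j, by rw [if_neg hj, one_mul]⟩
  choose N hN using hN
  have h1 : M * U.map C = Matrix.of fun i j => (if j ∈ S then X - C c else (1 : K[X])) * N i j := by
    ext1 i j
    exact hN i j
  have h2 := congrArg Matrix.det h1
  rw [Matrix.det_mul_row (fun j => if j ∈ S then X - C c else (1 : K[X])) N, Matrix.det_mul,
    Finset.prod_ite_mem, Finset.univ_inter, Finset.prod_const, hS] at h2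
  have h3 : IsUnit (U.map C).det := by
    have h4 : (U.map C).det = C U.det := by
      rw [RingHom.map_det]
      rfl
    rw [h4]
    exact hU.map C
  have h5 : (X - C c) ^ (n - (M.map (eval c)).rank) ∣ M.det * (U.map C).det := ⟨_, h2⟩
  exact (IsUnit.dvd_mul_right h3).1 h5

end ZLA

theorem t_ZLA : Stmt_ZLA := by
  refine ⟨fun M c => ZLA.pow_dvd_det M c, ?_⟩
  intro K _ n M c hdet v w hv hw hv0
  have hrk : (M.map (eval c)).rank +
      Module.finrank K (LinearMap.ker (M.map (eval c)).mulVecLin) = n := by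
    have h := LinearMap.finrank_range_add_finrank_ker (M.map (eval c)).mulVecLin
    rw [Module.finrank_fin_fun] at h
    exact h
  have h1 : n - (M.map (eval c)).rank ≤ 1 := by
    by_contra h
    exact hdet ((pow_dvd_pow _ (by omega)).trans (ZLA.pow_dvd_det M c))
  have hv' : v ∈ LinearMap.ker (M.map (eval c)).mulVecLin := by
    rw [LinearMap.mem_ker, Matrix.mulVecLin_apply, hv]
  have hw' : w ∈ LinearMap.ker (M.map (eval c)).mulVecLin := by
    rw [LinearMap.mem_ker, Matrix.mulVecLin_apply, hw]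
  have hne : (⟨v, hv'⟩ : LinearMap.ker (M.map (eval c)).mulVecLin) ≠ 0 := fun h =>
    hv0 (congrArg Subtype.val h)
  have hfin : Module.finrank K (LinearMap.ker (M.map (eval c)).mulVecLin) = 1 := by
    have h2 : 0 < Module.finrank K (LinearMap.ker (M.map (eval c)).mulVecLin) := by
      have : Nontrivial (LinearMap.ker (M.map (eval c)).mulVecLin) := ⟨⟨_, _, hne⟩⟩
      exact Module.finrank_pos
    omega
  obtain ⟨a, ha⟩ := exists_smul_eq_of_finrank_eq_one hfin hne ⟨w, hw'⟩
  exact ⟨a, (congrArg Subtype.val ha).symm⟩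

end Pool.Agent.MG.G0


end

section

/-!
# ZOD: descent of ordinarity along a field extension
-/

open Polynomial

namespace Pool.Agent.MG.G0

theorem ZOD.pow_mem_Pol0 {A : Type} [CommRing A] {o : KK Unit A} (h : o ∈ Pol Unit A 0)
    (n : ℕ) : o ^ n ∈ Pol Unit A 0 := by
  induction n with
  | zero =>
    rw [pow_zero]
    exact one_mem_Pol0
  | succ n ih =>
    rw [pow_succ]
    exact mul_mem_Pol0 ih h

theorem t_ZOD (hKFO : Stmt_KFO) (hKBC : Stmt_KBC) : Stmt_ZOD := by
  intro L Ω _ _ ψ p hp hch g R hR hO μ hμ hμ0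
  have : Fact p.Prime := ⟨hp⟩
  have : CharP Ω p := charP_of_injective_ringHom ψ.injective p
  have : CharP (KK Unit Ω) p :=
    charP_of_injective_ringHom (algebraMap Ω (KK Unit Ω)).injective p
  have hbc : bc ψ (uno R) = uno (bc1 ψ R) := bc_uno ψ R
  have hKr : IsKr g (uno R) := hR
  obtain ⟨⟨ω, hω⟩, hω2⟩ := hKFO hKr
  have hQ := hKBC.2.2.2 hKr ψ
  have hωQ := hQ.2.1 ω hω
  have hQ2 := (hKFO hQ.1).2 _ hωQ
  have hν : kmap ψ (fun _ => μ : KK Unit L) ∈ EE (bc ψ (uno R)) := by
    obtain ⟨c, hc, -⟩ := (hω2 ω hω).2 (fun _ => μ) (mem_EE_uno.2 hμ)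
    have hc' : (fun _ => μ : KK Unit L) = ∑ j, c j • ω j := hc
    rw [hc', map_sum]
    refine Submodule.sum_mem _ fun j _ => ?_
    rw [kmap_smul]
    exact Submodule.smul_mem _ _ (hQ2.1 j)
  have hf : ∀ j, ∃ f : KK Unit L, ∀ i, res (ω i * f) = if i = j then 1 else 0 := fun j =>
    hω.surj fun i => if i = j then 1 else 0
  choose f hf using hf
  have hres : ∀ (x : Ω) (F : KK Unit Ω), res (x • F) = x * res F := fun x F => by
    rw [map_smul, smul_eq_mul]
  have key : ∀ G : KK Unit Ω, res (kmap ψ (fun _ => μ : KK Unit L) * G ^ p) = 0 := by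
    intro G
    set x : Fin g → Ω := fun j => res (kmap ψ (ω j) * G) with hx
    have h1 : ∀ i, res (kmap ψ (ω i) * (G - ∑ j, x j • kmap ψ (f j))) = 0 := by
      intro i
      rw [mul_sub, Finset.mul_sum, map_sub, map_sum]
      have h2 : ∀ j, res (kmap ψ (ω i) * (x j • kmap ψ (f j))) =
          if i = j then x j else 0 := by
        intro j
        rw [mul_smul_comm, hres, ← map_mul (kmap ψ), res_kmap, hf]
        split_ifs
        · rw [map_one, mul_one]
        · rw [map_zero, mul_zero]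
      rw [Finset.sum_congr rfl fun j _ => h2 j, Finset.sum_ite_eq, if_pos (Finset.mem_univ i),
        sub_self]
    obtain ⟨q, hq, ho⟩ := (hωQ.ker _).1 h1
    have h3 : G = ∑ j, x j • kmap ψ (f j) + q + (G - ∑ j, x j • kmap ψ (f j) - q) := by ring
    have h4 : G ^ p = ∑ j, x j ^ p • kmap ψ (f j ^ p) + q ^ p +
        (G - ∑ j, x j • kmap ψ (f j) - q) ^ p := by
      conv_lhs => rw [h3]
      rw [add_pow_char, add_pow_char, sum_pow_char]
      congr 2
      refine Finset.sum_congr rfl fun j _ => ?_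
      rw [_root_.smul_pow, map_pow]
    rw [h4, mul_add, mul_add, map_add, map_add, Finset.mul_sum, map_sum]
    have h5 : ∀ j, res (kmap ψ (fun _ => μ : KK Unit L) * (x j ^ p • kmap ψ (f j ^ p))) = 0 := by
      intro j
      rw [mul_smul_comm, hres, ← map_mul (kmap ψ), res_kmap, res_unit]
      have h6 : (((fun _ => μ : KK Unit L) * f j ^ p) ()).coeff (-1) = 0 := hμ0 (f j ())
      rw [h6, map_zero, mul_zero]
    have h7 : res (kmap ψ (fun _ => μ : KK Unit L) * q ^ p) = 0 :=
      mem_Perp.1 (Submodule.mem_inf.1 hν).1 _ (Subalgebra.pow_mem _ hq p)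
    have h8 : res (kmap ψ (fun _ => μ : KK Unit L) *
        (G - ∑ j, x j • kmap ψ (f j) - q) ^ p) = 0 := by
      exact res_Pol0 (mul_mem_Pol0 (Submodule.mem_inf.1 hν).2 (ZOD.pow_mem_Pol0 ho p))
    rw [Finset.sum_congr rfl fun j _ => h5 j, Finset.sum_const_zero, h7, h8, add_zero, add_zero]
  have h9 : lmap ψ μ = 0 := by
    refine hO (lmap ψ μ) ?_ fun G => ?_
    · rw [hbc] at hν
      have h12 := (mem_EE_uno (R := bc1 ψ R) (η := kmap ψ (fun _ => μ : KK Unit L))).1 hν
      rw [kmap_apply] at h12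
      exact h12
    · have h10 := key (fun _ => G)
      rw [res_unit, Pi.mul_apply, Pi.pow_apply, kmap_apply] at h10
      exact h10
  ext m
  have h11 := congrArg (fun F : LaurentSeries Ω => F.coeff m) h9
  change ψ (μ.coeff m) = 0 at h11
  rw [HahnSeries.coeff_zero]
  exact (map_eq_zero ψ).1 h11

end Pool.Agent.MG.G0


end

section

/-!
# ZOI (PAPER_Z): ordinarity of the family over `k((t))`
-/

open Polynomial

namespace Pool.Agent.MG.G0

namespace ZOI

section forms

variable {A B : Type} [CommRing A] [CommRing B]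

theorem psl_low (f : PowerSeries A) : ∀ m < 0, (psl A f).coeff m = 0 := fun m hm => by
  rw [psl, PowerSeries.coeff_coe, if_pos hm]

theorem psl_coeff (f : PowerSeries A) (n : ℕ) :
    (psl A f).coeff (n : ℤ) = PowerSeries.coeff n f := by
  rw [psl, PowerSeries.coeff_coe, if_neg (by omega), Int.natAbs_natCast]

theorem psl_injective : Function.Injective (psl A) := HahnSeries.ofPowerSeries_injective

theorem exists_psl {f : LaurentSeries A} (h : ∀ m < 0, f.coeff m = 0) :
    ∃ g : PowerSeries A, psl A g = f := by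
  refine ⟨PowerSeries.mk fun n => f.coeff n, ?_⟩
  ext m
  by_cases hm : m < 0
  · rw [psl_low _ m hm, h m hm]
  · obtain ⟨n, rfl⟩ := Int.eq_ofNat_of_zero_le (not_lt.1 hm)
    rw [psl_coeff, PowerSeries.coeff_mk]

/-- The forms of a Krichever ring with one puncture, and those of its base changes. -/
theorem forms (hKFO : Stmt_KFO) (hKBC : Stmt_KBC) {g : ℕ} {R : Subalgebra A (LaurentSeries A)}
    (h : Kr g R) : ∃ ω : Fin g → LaurentSeries A, (∀ j, ω j ∈ EE1 R) ∧
      ∀ {B : Type} [CommRing B] (φ : A →+* B), ∀ η ∈ EE1 (bc1 φ R),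
        ∃! c : Fin g → B, η = ∑ j, c j • lmap φ (ω j) := by
  obtain ⟨⟨ω, hω⟩, h2⟩ := hKFO h
  refine ⟨fun j => ω j (), fun j => mem_EE_uno.1 ((h2 ω hω).1 j), ?_⟩
  intro B _ φ η hη
  obtain ⟨h3, h4, -⟩ := hKBC.2.2.2 h φ
  have h5 := h4 ω hω
  rw [bc_uno] at h3 h5
  obtain ⟨c, hc, hu⟩ := ((hKFO h3).2 _ h5).2 (fun _ => η) (mem_EE_uno.2 hη)
  have key : ∀ c : Fin g → B, ((fun _ => η : KK Unit B) = ∑ j, c j • kmap φ (ω j)) ↔
      η = ∑ j, c j • lmap φ (ω j ()) := by
    intro c
    constructor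
    · intro h
      have := congrFun h ()
      rw [Finset.sum_apply] at this
      exact this
    · intro h
      funext u
      rw [Finset.sum_apply]
      exact h
  refine ⟨c, (key c).1 hc, fun y hy => hu y ((key y).2 hy)⟩

theorem lmap_mem_EE1 (hKFO : Stmt_KFO) (hKBC : Stmt_KBC) {g : ℕ}
    {R : Subalgebra A (LaurentSeries A)} (h : Kr g R) (φ : A →+* B) {η : LaurentSeries A}
    (hη : η ∈ EE1 R) : lmap φ η ∈ EE1 (bc1 φ R) := by
  obtain ⟨⟨ω, hω⟩, h2⟩ := hKFO h
  obtain ⟨c, hc, -⟩ := (h2 ω hω).2 (fun _ => η) (mem_EE_uno.2 hη)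
  obtain ⟨h3, h4, -⟩ := hKBC.2.2.2 h φ
  have h5 := h4 ω hω
  rw [bc_uno] at h3 h5
  have h6 : (fun _ => lmap φ η : KK Unit B) = ∑ j, φ (c j) • kmap φ (ω j) := by
    have h7 : kmap φ (fun _ => η : KK Unit A) = ∑ j, φ (c j) • kmap φ (ω j) := by
      rw [hc, map_sum]
      exact Finset.sum_congr rfl fun j _ => kmap_smul φ _ _
    exact h7
  have h8 : (fun _ => lmap φ η : KK Unit B) ∈ EE (uno (bc1 φ R)) := by
    rw [h6]
    exact Submodule.sum_mem _ fun j _ => Submodule.smul_mem _ _ (((hKFO h3).2 _ h5).1 j)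
  exact (mem_EE_uno (η := fun _ => lmap φ η)).1 h8

theorem mul_mem_Po {m n : ℤ} {f g : LaurentSeries A} (hf : f ∈ Po A m) (hg : g ∈ Po A n) :
    f * g ∈ Po A (m + n) := fun k hk => mul_low hf hg k (by omega)

theorem res_Po0 {f : LaurentSeries A} (hf : f ∈ Po A 0) : f.coeff (-1) = 0 := hf (-1) (by norm_num)

end forms

section field

variable {k : Type} [Field k]

/-- Scaling of a nonzero vector over `k((t))`. -/
theorem scale {g : ℕ} (c : Fin g → LaurentSeries k) (hc : c ≠ 0) :
    ∃ (s : LaurentSeries k) (x : Fin g → PowerSeries k), (∀ j, s * c j = psl k (x j)) ∧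
      ∃ j, PowerSeries.constantCoeff (x j) ≠ 0 := by
  classical
  obtain ⟨j₁, hj₁⟩ : ∃ j, c j ≠ 0 := by
    by_contra h
    push Not at h
    exact hc (funext h)
  obtain ⟨j₀, hj₀, hmin⟩ := Finset.exists_min_image
    (Finset.univ.filter fun j => c j ≠ 0) (fun j => (c j).order)
    ⟨j₁, Finset.mem_filter.2 ⟨Finset.mem_univ _, hj₁⟩⟩
  have hj₀' : c j₀ ≠ 0 := (Finset.mem_filter.1 hj₀).2
  set n : ℤ := (c j₀).order with hn
  have hlow : ∀ j, ∀ m < n, (c j).coeff m = 0 := by
    intro j m hm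
    by_cases hj : c j = 0
    · rw [hj, HahnSeries.coeff_zero]
    · exact HahnSeries.coeff_eq_zero_of_lt_order
        (lt_of_lt_of_le hm (hmin j (Finset.mem_filter.2 ⟨Finset.mem_univ _, hj⟩)))
  have hco : ∀ j m, (HahnSeries.single (-n) (1 : k) * c j).coeff m = (c j).coeff (m + n) := by
    intro j m
    have h : m = (m + n) + -n := by ring
    rw [mul_comm]
    nth_rewrite 1 [h]
    rw [HahnSeries.coeff_mul_single_add, mul_one]
  have hx : ∀ j, ∃ x : PowerSeries k, psl k x = HahnSeries.single (-n) (1 : k) * c j := by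
    intro j
    refine exists_psl fun m hm => ?_
    rw [hco]
    exact hlow j _ (by omega)
  choose x hx using hx
  refine ⟨HahnSeries.single (-n) 1, x, fun j => (hx j).symm, j₀, ?_⟩
  have h1 := psl_coeff (x j₀) 0
  rw [hx, hco, Nat.cast_zero, zero_add, PowerSeries.coeff_zero_eq_constantCoeff_apply] at h1
  rw [← h1]
  intro h0
  exact hj₀' (HahnSeries.coeff_order_eq_zero.1 h0)

theorem ld_zz_ne {d : ℕ} (hd : (d : k) ≠ 0) : ld (zz k d) ≠ 0 := by
  intro h
  have h1 := congrArg (fun f : LaurentSeries k => f.coeff (-(d : ℤ) - 1)) h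
  simp only [HahnSeries.coeff_zero] at h1
  rw [ld_coeff, zz, sub_add_cancel, HahnSeries.coeff_single_same, mul_one] at h1
  apply hd
  push_cast at h1
  simpa using h1

theorem lmap_cc_C (f : LaurentSeries k) :
    lmap (PowerSeries.constantCoeff (R := k)) (lmap (PowerSeries.C (R := k)) f) = f := by
  ext m
  rw [lmap_coeff, lmap_coeff, PowerSeries.constantCoeff_C]

end field

end ZOI

theorem t_ZOI (hKFO : Stmt_KFO) (hKBC : Stmt_KBC) : Stmt_ZOI := by
  intro k _ p hp hchar g d Rb RI a hd1 hd hRb hRI hbc hF H μ hμ hμf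
  by_contra hμ0
  obtain ⟨ω, hω, hfo⟩ := ZOI.forms hKFO hKBC hRI
  obtain ⟨c, hc, -⟩ := hfo (psl k) μ hμ
  have hc0 : c ≠ 0 := by
    rintro rfl
    apply hμ0
    rw [hc]
    exact Finset.sum_eq_zero fun j _ => by rw [Pi.zero_apply, zero_smul]
  obtain ⟨s, x, hsx, j₀, hj₀⟩ := ZOI.scale c hc0
  set ρ : LaurentSeries (PowerSeries k) := ∑ j, x j • ω j with hρ
  have hρE : ρ ∈ EE1 RI := Submodule.sum_mem _ fun j _ => Submodule.smul_mem _ _ (hω j)
  have hρμ : lmap (psl k) ρ = s • μ := by
    rw [hρ, map_sum, hc, Finset.smul_sum]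
    refine Finset.sum_congr rfl fun j _ => ?_
    rw [lmap_smul, smul_smul, ← hsx, ← smul_eq_mul]
  have hbar : lmap (PowerSeries.constantCoeff (R := k)) ρ ∈ EE1 Rb := by
    rw [← hbc]
    exact ZOI.lmap_mem_EE1 hKFO hKBC hRI _ hρE
  have hbar0 : lmap (PowerSeries.constantCoeff (R := k)) ρ ≠ 0 := by
    intro h0
    obtain ⟨c', -, hu⟩ := hfo (PowerSeries.constantCoeff (R := k)) 0 (Submodule.zero_mem _)
    have h1 := hu (fun _ => 0) (by
      change 0 = _
      exact (Finset.sum_eq_zero fun j _ => zero_smul _ _).symm)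
    have h2 := hu (fun j => PowerSeries.constantCoeff (x j)) (by
      change 0 = _
      rw [← h0, hρ, map_sum]
      exact Finset.sum_congr rfl fun j _ => lmap_smul _ _ _)
    exact hj₀ (congrFun (h2.trans h1.symm) j₀)
  apply hbar0
  apply H _ hbar
  intro v h y hh hvh hy
  -- the residue of `ρ h`
  have e1 : (ρ * lmap (PowerSeries.C (R := k)) v ^ p).coeff (-1) = 0 := by
    apply ZOI.psl_injective
    have h1 := hμf (lmap (psl k) (lmap (PowerSeries.C (R := k)) v))
    have h2 : lmap (psl k) (ρ * lmap (PowerSeries.C (R := k)) v ^ p) =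
        s • (μ * lmap (psl k) (lmap (PowerSeries.C (R := k)) v) ^ p) := by
      rw [map_mul, hρμ, map_pow, smul_mul_assoc]
    rw [← lmap_coeff, h2, HahnSeries.coeff_smul, h1, smul_zero, map_zero]
  have e2 : (ρ * lmap (PowerSeries.C (R := k)) h).coeff (-1) = 0 := by
    have h1 : ρ * lmap (PowerSeries.C (R := k)) (v ^ p - h) ∈ Po (PowerSeries k) 0 := by
      refine ZOI.mul_mem_Po (m := 0) (n := 0) hρE.2 fun m hm => ?_
      rw [lmap_coeff, hvh m hm, map_zero]
    have h2 := ZOI.res_Po0 h1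
    rw [map_sub, map_pow, mul_sub, HahnSeries.coeff_sub, e1, zero_sub, neg_eq_zero] at h2
    exact h2
  obtain ⟨y', w, hy', hw⟩ := hF h hh
  have hyy : y' = y := by
    have h1 : y' * ld (zz k d) = y * ld (zz k d) := hy'.trans hy.symm
    exact mul_right_cancel₀ (ZOI.ld_zz_ne hd) h1
  rw [hyy] at hw
  have e3 := hρE.1 _ hw
  rw [mul_add, mul_sub, mul_smul_comm, mul_smul_comm, HahnSeries.coeff_add, HahnSeries.coeff_sub,
    HahnSeries.coeff_smul, HahnSeries.coeff_smul, e2, zero_sub, smul_eq_mul, smul_eq_mul] at e3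
  have e4 : (ρ * lmap (PowerSeries.C (R := k)) y).coeff (-1) =
      PowerSeries.X * (ρ * w).coeff (-1) := by
    have h1 : (PowerSeries.X : PowerSeries k) ^ d *
        (ρ * lmap (PowerSeries.C (R := k)) y).coeff (-1) =
        (PowerSeries.X : PowerSeries k) ^ d * (PowerSeries.X * (ρ * w).coeff (-1)) := by
      rw [pow_succ] at e3
      linear_combination -e3
    exact mul_left_cancel₀ (pow_ne_zero d PowerSeries.X_ne_zero) h1
  have e5 := congrArg (PowerSeries.constantCoeff (R := k)) e4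
  rw [map_mul, PowerSeries.constantCoeff_X, zero_mul, ← lmap_coeff, map_mul,
    ZOI.lmap_cc_C] at e5
  exact e5

end Pool.Agent.MG.G0


end

section

/-!
# ZOR: the first order part of the Hasse-Witt matrix is injective
-/

open Polynomial

namespace Pool.Agent.MG.G0

namespace ZOR

variable {k : Type} [Field k]

theorem ld_pow_char (p : ℕ) [CharP k p] (v : LaurentSeries k) : ld (v ^ p) = 0 := by
  have h := (ddD Unit k).leibniz_pow (fun _ => v) p
  have h1 := congrFun h ()
  have h2 : ld (v ^ p) = p • (v ^ (p - 1) * ld v) := h1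
  rw [h2]
  ext m
  rw [← Nat.cast_smul_eq_nsmul k, CharP.cast_eq_zero, zero_smul]

theorem coeff_sum_mul {g : ℕ} (c : Fin g → k) (f : Fin g → LaurentSeries k) (u : LaurentSeries k)
    (m : ℤ) : ((∑ j, c j • f j) * u).coeff m = ∑ j, c j * (f j * u).coeff m := by
  rw [Finset.sum_mul, HahnSeries.coeff_sum]
  refine Finset.sum_congr rfl fun j _ => ?_
  rw [smul_mul_assoc, HahnSeries.coeff_smul, smul_eq_mul]

theorem coeff_mul_sum {g : ℕ} (c : Fin g → k) (f : Fin g → LaurentSeries k) (u : LaurentSeries k)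
    (m : ℤ) : (u * ∑ j, c j • f j).coeff m = ∑ j, c j * (u * f j).coeff m := by
  rw [mul_comm, coeff_sum_mul]
  refine Finset.sum_congr rfl fun j _ => ?_
  rw [mul_comm u]

theorem ld_Po {f : LaurentSeries k} (hf : f ∈ Po k 0) : ld f ∈ Po k 0 :=
  mem_Pol_unit.1 (dd_mem_Pol0 (f := fun _ : Unit => f) (mem_Pol_unit.2 hf))

/-- Every regular differential is the differential of the polar part of a `p`-th power. -/
theorem main (hKFO : Stmt_KFO) (hRES : Stmt_RES) (hZCI : Stmt_ZCI) [IsAlgClosed k] (p : ℕ)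
    (hp : p.Prime) (hchar : CharP k p) {g : ℕ} {R : Subalgebra k (LaurentSeries k)}
    (hR : Kr g R) (hsm : SmC k (uno R)) (hdu : Dual (uno R)) (hss : Ssp p R) :
    ∀ ω ∈ EE1 R, ∃ v h : LaurentSeries k, h ∈ R ∧ v ^ p - h ∈ Po k 0 ∧ ld h = ω := by
  classical
  haveI : Fact p.Prime := ⟨hp⟩
  haveI : CharP (LaurentSeries k) p :=
    charP_of_injective_algebraMap (algebraMap k (LaurentSeries k)).injective p
  have hR' : IsKr g (uno R) := hR
  obtain ⟨⟨om, hom⟩, hall⟩ := hKFO hR'
  obtain ⟨hEE, huniq⟩ := hall om hom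
  choose vf hvf using fun j : Fin g => hom.surj (Pi.single j 1)
  have hwv : ∀ i j, (om i () * vf j ()).coeff (-1) = if i = j then 1 else 0 := by
    intro i j
    have h1 := hvf j i
    rw [res_unit, Pi.single_apply] at h1
    exact h1
  choose h hh ho using fun j => hss (vf j ())
  have hzero : ∀ η ∈ EE1 R, (∀ i, (η * vf i ()).coeff (-1) = 0) → η = 0 := by
    intro η hη h0
    obtain ⟨c, hc, _⟩ := huniq (fun _ => η) (mem_EE_uno.2 hη)
    have h1 : η = ∑ j, c j • om j () := by
      have h2 := congrFun hc ()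
      have h3 : (∑ j, c j • om j) () = ∑ j, c j • om j () := by
        rw [Finset.sum_apply]
        rfl
      exact h2.trans h3
    have h4 : ∀ i, c i = 0 := by
      intro i
      have h5 := h0 i
      rw [h1, coeff_sum_mul] at h5
      simp only [hwv, mul_ite, mul_one, mul_zero, Finset.sum_ite_eq', Finset.mem_univ,
        if_true] at h5
      exact h5
    rw [h1]
    refine Finset.sum_eq_zero fun j _ => ?_
    rw [h4, zero_smul]
  have hH : ∀ c : Fin g → k, (∑ j, c j • h j) ∈ R := fun c =>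
    sum_mem fun j _ => R.smul_mem (hh j) (c j)
  have hu : ∀ c : Fin g → k, ∃ u : LaurentSeries k, u ^ p - ∑ j, c j • h j ∈ Po k 0 ∧
      ∀ i, ((om i () * u).coeff (-1)) ^ p = c i := by
    intro c
    choose b hb using fun j => IsAlgClosed.exists_pow_nat_eq (c j) hp.pos
    refine ⟨∑ j, b j • vf j (), ?_, ?_⟩
    · rw [sum_pow_char p Finset.univ (fun j => b j • vf j ()), ← Finset.sum_sub_distrib]
      refine sum_mem fun j _ => ?_
      rw [_root_.smul_pow, hb, ← smul_sub]
      exact Submodule.smul_mem _ _ (ho j)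
    · intro i
      rw [coeff_mul_sum]
      simp only [hwv, mul_ite, mul_one, mul_zero, Finset.sum_ite_eq, Finset.mem_univ, if_true]
      exact hb i
  have hldE : ∀ c : Fin g → k, ld (∑ j, c j • h j) ∈ EE1 R := by
    intro c
    obtain ⟨u, hu1, _⟩ := hu c
    refine ⟨fun q hq => ?_, ?_⟩
    · have h1 := hRES hR' (fun _ => q) hq (fun _ => ∑ j, c j • h j) (hH c)
      rw [res_unit] at h1
      rw [mul_comm]
      exact h1
    · have h1 : ld (∑ j, c j • h j) = -ld (u ^ p - ∑ j, c j • h j) := by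
        have h2 : ld (u ^ p - ∑ j, c j • h j) = ld (u ^ p) - ld (∑ j, c j • h j) :=
          map_sub (LaurentSeries.derivative k) _ _
        rw [h2, ld_pow_char, zero_sub, neg_neg]
      rw [h1]
      exact neg_mem (ld_Po hu1)
  let T : (Fin g → k) →ₗ[k] (Fin g → k) :=
    { toFun := fun c i => (ld (∑ j, c j • h j) * vf i ()).coeff (-1)
      map_add' := fun c c' => by
        funext i
        have h1 : ∑ j, (c + c') j • h j = ∑ j, c j • h j + ∑ j, c' j • h j := by
          rw [← Finset.sum_add_distrib]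
          exact Finset.sum_congr rfl fun j _ => add_smul _ _ _
        rw [Pi.add_apply, h1, ld_add, add_mul, HahnSeries.coeff_add]
      map_smul' := fun a c => by
        funext i
        have h1 : ∑ j, (a • c) j • h j = a • ∑ j, c j • h j := by
          rw [Finset.smul_sum]
          exact Finset.sum_congr rfl fun j _ => mul_smul a (c j) _
        rw [Pi.smul_apply, h1, ld_smul, smul_mul_assoc, HahnSeries.coeff_smul, RingHom.id_apply] }
  have hT : ∀ c i, T c i = (ld (∑ j, c j • h j) * vf i ()).coeff (-1) := fun c i => rfl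
  have hinj : Function.Injective T := by
    rw [← LinearMap.ker_eq_bot, LinearMap.ker_eq_bot']
    intro c hc
    have h1 : ld (∑ j, c j • h j) = 0 := by
      refine hzero _ (hldE c) fun i => ?_
      rw [← hT, hc, Pi.zero_apply]
    obtain ⟨u, hu1, hu2⟩ := hu c
    obtain ⟨q, hq, hq'⟩ := hZCI p hp hchar hR hsm hdu u _ (hH c) hu1 h1
    have h2 : ∀ j, res (om j * fun _ => u) = 0 :=
      (hom.ker (fun _ => u)).2 ⟨fun _ => q, hq, mem_Pol_unit.2 hq'⟩
    funext i
    have h3 := h2 i
    rw [res_unit] at h3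
    have h4 : (om i () * u).coeff (-1) = 0 := h3
    rw [← hu2 i, h4, zero_pow hp.ne_zero, Pi.zero_apply]
  have hsurj : Function.Surjective T := LinearMap.injective_iff_surjective.1 hinj
  intro ω hω
  obtain ⟨c, hc⟩ := hsurj fun i => (ω * vf i ()).coeff (-1)
  obtain ⟨u, hu1, _⟩ := hu c
  refine ⟨u, ∑ j, c j • h j, hH c, hu1, ?_⟩
  rw [← sub_eq_zero]
  refine hzero _ (sub_mem (hldE c) hω) fun i => ?_
  rw [sub_mul, HahnSeries.coeff_sub, ← hT, hc, sub_self]

end ZOR

theorem t_ZOR (hKFO : Stmt_KFO) (hKBC : Stmt_KBC) (hRES : Stmt_RES) (hZCI : Stmt_ZCI)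
    (hZQN : Stmt_ZQN) : Stmt_ZOR := by
  intro k₁ k _ _ _ _ p hp hchar g d b R β α hd hdk hR hz hβ hdisc hsm hdu hss hα a ha μ hμ hH
  have hKr : Kr g (bc1 (algebraMap k₁ k) R) := by
    have h1 := (hKBC.2.2.2 (P := uno R) hR (algebraMap k₁ k)).1
    rw [bc_uno] at h1
    exact h1
  have hd1 : (d : k₁) ≠ 0 := by
    intro h0
    apply hdk
    rw [← map_natCast (algebraMap k₁ k) d, h0, map_zero]
  refine hZQN β α hd hd1 hR hz hβ hdisc hα a ha μ hμ fun ω hω y hy => ?_
  obtain ⟨v, h, hh, hvh, hld⟩ := ZOR.main hKFO hRES hZCI p hp hchar hKr hsm hdu hss ω hω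
  exact hH v h y hh hvh (by rw [hld]; exact hy)

end Pool.Agent.MG.G0


end

section

/-!
# Collisions of the branch points
-/

namespace Pool.Agent.MG.G0

open Polynomial

namespace ZPC

/-- a linear relation between differences of linearly independent vectors -/
theorem mem_pair {F E : Type} [Field F] [AddCommGroup E] [Module F E] {b : ℕ} {α : Fin b → E}
    (hα : LinearIndependent F α) {l m l' m' : Fin b} (hlm' : l' ≠ m') {x y : F} (hx : x ≠ 0)
    (h : x • (α l' - α m') = y • (α l - α m)) : l' = l ∨ l' = m := by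
  classical
  by_contra hcon
  push Not at hcon
  obtain ⟨h1, h2⟩ := hcon
  rw [Fintype.linearIndependent_iff] at hα
  let g : Fin b → F := fun i => x * ((if i = l' then 1 else 0) - (if i = m' then 1 else 0)) -
    y * ((if i = l then 1 else 0) - (if i = m then 1 else 0))
  have hsum : ∑ i, g i • α i = 0 := by
    have h3 : ∀ i, g i • α i = x • ((if i = l' then α i else 0) - (if i = m' then α i else 0)) -
        y • ((if i = l then α i else 0) - (if i = m then α i else 0)) := by
      intro i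
      simp only [g, sub_smul, mul_smul, ite_smul, one_smul, zero_smul]
    rw [Finset.sum_congr rfl fun i _ => h3 i, Finset.sum_sub_distrib, ← Finset.smul_sum,
      ← Finset.smul_sum, Finset.sum_sub_distrib, Finset.sum_sub_distrib]
    simp only [Finset.sum_ite_eq', Finset.mem_univ, if_true]
    rw [h, sub_self]
  have h4 := hα g hsum l'
  simp only [g, if_true, if_neg hlm', if_neg h1, if_neg h2, sub_zero, mul_one, mul_zero] at h4
  exact hx h4

end ZPC

open _root_.Pool.Agent.MG.G0.ZPC in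
theorem t_ZPC : Stmt_ZPC := by
  intro k₁ k _ _ _ b d β α hd hβ hα
  have hinj : Function.Injective α := hα.injective
  have hlin : LinearIndependent k₁ α := hα.linearIndependent
  refine ⟨hinj, ?_, ?_⟩
  · intro L _ _ t ht l m hlm
    by_contra hne
    have h1 : α l - α m ≠ 0 := sub_ne_zero.2 fun h => hne (hinj h)
    simp only at hlm
    set c : k := (algebraMap k₁ k (β m) - algebraMap k₁ k (β l)) / (α l - α m) with hc
    have h2 : t ^ d = algebraMap k L c := by
      have h3 : algebraMap k L (α l - α m) ≠ 0 := by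
        rw [Ne, map_eq_zero]
        exact h1
      rw [hc, map_div₀, eq_div_iff h3, map_sub, map_sub]
      linear_combination hlm
    have h4 : aeval t (X ^ d - C c : k[X]) = 0 := by
      rw [map_sub, map_pow, aeval_X, aeval_C, h2, sub_self]
    exact X_pow_sub_C_ne_zero hd c ((transcendental_iff.1 ht) _ h4)
  · intro t₀
    by_cases hI : Function.Injective fun l => algebraMap k₁ k (β l) + t₀ ^ d * α l
    · exact Or.inl hI
    right
    rw [Function.not_injective_iff] at hI
    obtain ⟨l, m, hlm, hne⟩ := hI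
    have hB : ∀ {i j : Fin b}, i ≠ j → β i - β j ≠ 0 := fun hij =>
      sub_ne_zero.2 fun h => hij (hβ h)
    refine ⟨?_, l, m, hne, hlm, ?_⟩
    · intro h0
      rw [h0, zero_pow hd.ne', zero_mul, zero_mul, add_zero, add_zero] at hlm
      exact hne (hβ ((algebraMap k₁ k).injective hlm))
    · intro l' m' hlm'
      by_cases he : l' = m'
      · exact Or.inl he
      right
      have key : (β l - β m) • (α l' - α m') = (β l' - β m') • (α l - α m) := by
        rw [Algebra.smul_def, Algebra.smul_def, map_sub, map_sub]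
        linear_combination (α l' - α m') * hlm - (α l - α m) * hlm'
      have key2 : (β l - β m) • (α m' - α l') = (β m' - β l') • (α l - α m) := by
        rw [← neg_sub (α l') (α m'), smul_neg, key, ← neg_sub (β l') (β m'), neg_smul]
      rcases mem_pair hlin he (hB hne) key with h1 | h1 <;>
        rcases mem_pair hlin (Ne.symm he) (hB hne) key2 with h2 | h2
      · exact absurd (h1.trans h2.symm) he
      · exact Or.inl ⟨h1, h2⟩
      · exact Or.inr ⟨h1, h2⟩
      · exact absurd (h1.trans h2.symm) he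

end Pool.Agent.MG.G0


end

section

/-!
# ZRR: finite dimensionality of Riemann-Roch spaces
-/

open Polynomial

namespace Pool.Agent.MG.G0

namespace ZRR

section

variable {k F L : Type} [Field k] [Field F] [Field L] [Algebra k F] [Algebra F L] [Algebra k L]
  [IsScalarTower k F L]

omit [Algebra k L] [IsScalarTower k F L] in
/-- a common multiplier -/
theorem multiplier (t : F)
    (h3 : ∀ c : L, ∃ h : k[X], h ≠ 0 ∧
      ((algebraMap F L).comp (aeval (R := k) t).toRingHom).IsIntegralElem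
        (algebraMap F L (aeval t h) * c)) (s : Finset L) :
    ∃ h : k[X], h ≠ 0 ∧ ∀ c ∈ s,
      ((algebraMap F L).comp (aeval (R := k) t).toRingHom).IsIntegralElem
        (algebraMap F L (aeval t h) * c) := by
  classical
  induction s using Finset.induction_on with
  | empty => exact ⟨1, one_ne_zero, fun c hc => absurd hc (Finset.notMem_empty c)⟩
  | insert a s _ ih =>
    obtain ⟨h1, h10, h1i⟩ := ih
    obtain ⟨h2, h20, h2i⟩ := h3 a
    refine ⟨h1 * h2, mul_ne_zero h10 h20, fun c hc => ?_⟩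
    have e1 : ∀ h : k[X], ((algebraMap F L).comp (aeval (R := k) t).toRingHom).IsIntegralElem
        (algebraMap F L (aeval t h)) := fun h =>
      ((algebraMap F L).comp (aeval (R := k) t).toRingHom).isIntegralElem_map (x := h)
    rcases Finset.mem_insert.mp hc with rfl | hc
    · have e : algebraMap F L (aeval t (h1 * h2)) * c =
          algebraMap F L (aeval t h1) * (algebraMap F L (aeval t h2) * c) := by
        rw [map_mul, map_mul, mul_assoc]
      rw [e]
      exact (e1 h1).mul _ h2i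
    · have e : algebraMap F L (aeval t (h1 * h2)) * c =
          algebraMap F L (aeval t h2) * (algebraMap F L (aeval t h1) * c) := by
        rw [map_mul, map_mul]
        ring
      rw [e]
      exact (e1 h2).mul _ (h1i c hc)

/-- the span at a discrete valuation ring containing `t` -/
theorem inO (t : F) (h : k[X]) (s : Finset L)
    (hs : ∀ c ∈ s, ((algebraMap F L).comp (aeval (R := k) t).toRingHom).IsIntegralElem
        (algebraMap F L (aeval t h) * c)) (y : L)
    (O : Type) [CommRing O] [IsDomain O] [IsDiscreteValuationRing O] [Algebra k O]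
    [Algebra O L] [IsScalarTower k O L] [IsFractionRing O L]
    (hy : y ∈ Submodule.span O (s : Set L)) (ht : ∃ x : O, algebraMap O L x = algebraMap F L t) :
    ∃ x : O, algebraMap O L x = algebraMap F L (aeval t h) * y := by
  obtain ⟨x, hx⟩ := ht
  have hcomp : (algebraMap F L).comp (aeval (R := k) t).toRingHom =
      (algebraMap O L).comp (aeval (R := k) x).toRingHom := by
    refine Polynomial.ringHom_ext (fun a => ?_) ?_
    · show algebraMap F L (aeval t (C a)) = algebraMap O L (aeval x (C a))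
      rw [aeval_C, aeval_C, ← IsScalarTower.algebraMap_apply, ← IsScalarTower.algebraMap_apply]
    · show algebraMap F L (aeval t X) = algebraMap O L (aeval x X)
      rw [aeval_X, aeval_X, hx]
  induction hy using Submodule.span_induction with
  | mem c hc =>
    have h1 := hs c (Finset.mem_coe.mp hc)
    rw [hcomp] at h1
    have h2 : IsIntegral O (algebraMap F L (aeval t h) * c) := h1.of_comp
    exact IsIntegrallyClosed.isIntegral_iff.mp h2
  | zero => exact ⟨0, by rw [map_zero, mul_zero]⟩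
  | add a b _ _ ha hb =>
    obtain ⟨u, hu⟩ := ha
    obtain ⟨v, hv⟩ := hb
    exact ⟨u + v, by rw [map_add, hu, hv, mul_add]⟩
  | smul r a _ ha =>
    obtain ⟨u, hu⟩ := ha
    exact ⟨r * u, by rw [map_mul, hu, Algebra.smul_def]; ring⟩

end

end ZRR

open _root_.Pool.Agent.MG.G0.ZRR in
theorem t_ZRR (hZIC : Stmt_ZIC) (hZRW : Stmt_ZRW) : Stmt_ZRR := by
  intro k F L _ _ _ _ _ _ _ t ht hadj hfin hsep s
  classical
  have ht0 : t ≠ 0 := by
    rintro rfl
    exact ht isAlgebraic_zero
  have ht' : Transcendental k t⁻¹ := by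
    intro h
    exact ht (by simpa using h.inv)
  have hadj' : IntermediateField.adjoin k {t⁻¹} = ⊤ := by
    rw [eq_top_iff, ← hadj, IntermediateField.adjoin_le_iff]
    intro x hx
    rw [Set.mem_singleton_iff] at hx
    subst hx
    have h1 := (IntermediateField.adjoin k {x⁻¹}).inv_mem
      (IntermediateField.mem_adjoin_simple_self k x⁻¹)
    rwa [inv_inv] at h1
  obtain ⟨A1, A2, A3⟩ := hZIC (k := k) (F := F) (L := L) t ht hadj hfin hsep
  obtain ⟨B1, B2, B3⟩ := hZIC (k := k) (F := F) (L := L) t⁻¹ ht' hadj' hfin hsep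
  obtain ⟨h, h0, hh⟩ := multiplier t A3 s
  obtain ⟨h', h'0, hh'⟩ := multiplier t⁻¹ B3 s
  set e := Module.finBasis F L with he
  choose a a0 ai using fun j => A3 (e j)
  choose b b0 bi using fun j => B3 (e j)
  choose W hW hWm using fun j => hZRW (k := k) (F := F) t ht (h * a j) (h' * b j)
    (mul_ne_zero h0 (a0 j)) (mul_ne_zero h'0 (b0 j))
  -- the linear map
  let T : Fin (Module.finrank F L) → L →ₗ[k] F := fun j =>
    ((Algebra.trace F L).restrictScalars k).comp ((LinearMap.mulRight F (e j)).restrictScalars k)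
  have hT : ∀ j y, T j y = Algebra.trace F L (y * e j) := fun j y => rfl
  have hTinj : ∀ y, (∀ j, T j y = 0) → y = 0 := by
    intro y hy
    have h1 : ∀ z, Algebra.trace F L (y * z) = 0 := by
      intro z
      rw [← e.sum_repr z, Finset.mul_sum, map_sum]
      refine Finset.sum_eq_zero fun j _ => ?_
      rw [mul_smul_comm, map_smul, ← hT, hy, smul_zero]
    exact (traceForm_nondegenerate F L).1 y fun z => by
      rw [Algebra.traceForm_apply]; exact h1 z
  refine ⟨⨅ j, (W j).comap (T j), ?_, ?_⟩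
  · let G : ↥(⨅ j, (W j).comap (T j)) →ₗ[k] (∀ j, W j) :=
      LinearMap.pi fun j => ((T j).comp (Submodule.subtype _)).codRestrict (W j) fun y =>
        (Submodule.mem_iInf _).mp y.2 j
    have hG : Function.Injective G := by
      rw [← LinearMap.ker_eq_bot, LinearMap.ker_eq_bot']
      intro y hy
      apply Subtype.ext
      exact hTinj _ fun j => congrArg Subtype.val (congrFun hy j)
    have := hW
    exact FiniteDimensional.of_injective G hG
  · intro y hy
    rw [Submodule.mem_iInf]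
    intro j
    rw [Submodule.mem_comap, hT]
    have i1 : ((algebraMap F L).comp (aeval (R := k) t).toRingHom).IsIntegralElem
        (algebraMap F L (aeval t h) * y) := by
      refine A1 _ ?_
      intro O _ _ _ _ _ _ _ hO
      exact inO t h s hh y O (hy O) hO
    have i2 : ((algebraMap F L).comp (aeval (R := k) t⁻¹).toRingHom).IsIntegralElem
        (algebraMap F L (aeval t⁻¹ h') * y) := by
      refine B1 _ ?_
      intro O _ _ _ _ _ _ _ hO
      exact inO t⁻¹ h' s hh' y O (hy O) hO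
    have key : ∀ (u v : F), Algebra.trace F L (algebraMap F L u * y * (algebraMap F L v * e j)) =
        u * v * Algebra.trace F L (y * e j) := by
      intro u v
      rw [show algebraMap F L u * y * (algebraMap F L v * e j) = (u * v) • (y * e j) by
        rw [Algebra.smul_def, map_mul]; ring, map_smul, smul_eq_mul]
    apply hWm j
    · obtain ⟨q, hq⟩ := A2 _ (i1.mul _ (ai j))
      refine ⟨q, ?_⟩
      rw [← hq, key, map_mul]
    · obtain ⟨q, hq⟩ := B2 _ (i2.mul _ (bi j))
      refine ⟨q, ?_⟩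
      rw [← hq, key, map_mul]

end Pool.Agent.MG.G0


end

section

/-!
# ZRW: functions on the projective line with bounded denominators
-/

open Polynomial

namespace Pool.Agent.MG.G0

namespace ZRW

/-- Evaluation at the inverse and the reverse polynomial. -/
theorem aeval_inv_mul_pow {k F : Type} [Field k] [Field F] [Algebra k F] {t : F} (ht : t ≠ 0)
    (f : k[X]) : aeval t⁻¹ f * t ^ f.natDegree = aeval t f.reverse := by
  let _ : Invertible t⁻¹ := invertibleOfNonzero (inv_ne_zero ht)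
  have h := eval₂_reverse_mul_pow (algebraMap k F) t⁻¹ f
  rw [invOf_eq_inv, inv_inv] at h
  rw [aeval_def, aeval_def, ← h, mul_assoc, ← mul_pow, inv_mul_cancel₀ ht, one_pow, mul_one]

/-- The bound for the degree. -/
theorem natDegree_le {k F : Type} [Field k] [Field F] [Algebra k F] {t : F}
    (ht : Transcendental k t) {h h' q q' : k[X]} (hh' : h' ≠ 0) {x : F}
    (e : aeval t h * x = aeval t q) (e' : aeval t⁻¹ h' * x = aeval t⁻¹ q') :
    q.natDegree ≤ h.natDegree + h'.natDegree := by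
  have hinj : Function.Injective (aeval (R := k) t) := transcendental_iff_injective.mp ht
  have ht0 : t ≠ 0 := by
    rintro rfl
    exact ht isAlgebraic_zero
  rcases eq_or_ne q 0 with rfl | hq
  · simp
  have hH : h'.reverse ≠ 0 := by
    rw [Ne, reverse_eq_zero]
    exact hh'
  have key : X ^ q'.natDegree * h'.reverse * q = X ^ h'.natDegree * q'.reverse * h := by
    apply hinj
    rw [map_mul, map_mul, map_mul, map_mul, map_pow, map_pow, aeval_X, ← e,
      ← aeval_inv_mul_pow ht0 h', ← aeval_inv_mul_pow ht0 q', ← e']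
    ring
  have hl : (X ^ q'.natDegree * h'.reverse * q).natDegree =
      q'.natDegree + h'.reverse.natDegree + q.natDegree := by
    rw [natDegree_mul (mul_ne_zero (pow_ne_zero _ X_ne_zero) hH) hq,
      natDegree_mul (pow_ne_zero _ X_ne_zero) hH, natDegree_X_pow]
  have hr : (X ^ h'.natDegree * q'.reverse * h).natDegree ≤
      h'.natDegree + q'.natDegree + h.natDegree := by
    refine natDegree_mul_le.trans (Nat.add_le_add_right ?_ _)
    refine natDegree_mul_le.trans ?_
    rw [natDegree_X_pow]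
    exact Nat.add_le_add_left (reverse_natDegree_le q') _
  rw [← key, hl] at hr
  omega

end ZRW

theorem t_ZRW : Stmt_ZRW := by
  intro k F _ _ _ t ht h h' hh hh'
  have hinj : Function.Injective (aeval (R := k) t) := transcendental_iff_injective.mp ht
  have hh0 : aeval t h ≠ 0 := fun e => hh (hinj (by rw [e, map_zero]))
  refine ⟨(degreeLT k (h.natDegree + h'.natDegree + 1)).map
    ((LinearMap.mulLeft k (aeval t h)⁻¹).comp (aeval (R := k) t).toLinearMap), ?_, ?_⟩
  · have : FiniteDimensional k (degreeLT k (h.natDegree + h'.natDegree + 1)) :=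
      Module.Finite.equiv (degreeLTEquiv k _).symm
    infer_instance
  · rintro x ⟨q, hq⟩ ⟨q', hq'⟩
    refine ⟨q, ?_, ?_⟩
    · rw [SetLike.mem_coe, mem_degreeLT]
      refine lt_of_le_of_lt degree_le_natDegree ?_
      exact_mod_cast Nat.lt_succ_of_le (ZRW.natDegree_le ht hh' hq hq')
    · rw [LinearMap.comp_apply, LinearMap.mulLeft_apply, AlgHom.toLinearMap_apply, ← hq,
        inv_mul_cancel_left₀ hh0]

end Pool.Agent.MG.G0


end

section

/-!
# ZSL: an injective `p`-linear endomorphism of a finite dimensional space over an algebraically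
closed field is onto
-/

namespace Pool.Agent.MG.G0

namespace ZSL

variable {k V : Type} [Field k] [IsAlgClosed k] [AddCommGroup V] [Module k V]

theorem root (p : ℕ) (hp : p.Prime) (a : k) : ∃ b : k, b ^ p = a :=
  IsAlgClosed.exists_pow_nat_eq a hp.pos

theorem map_zero' (F : V → V) (hadd : ∀ x y, F (x + y) = F x + F y) : F 0 = 0 := by
  have h := hadd 0 0
  rw [add_zero] at h
  exact left_eq_add.mp h

theorem map_sum' (F : V → V) (hadd : ∀ x y, F (x + y) = F x + F y) {ι : Type} (s : Finset ι)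
    (f : ι → V) : F (∑ i ∈ s, f i) = ∑ i ∈ s, F (f i) :=
  map_sum (AddMonoidHom.mk' F hadd) f s

end ZSL

open _root_.Pool.Agent.MG.G0.ZSL in
theorem t_ZSL : Stmt_ZSL := by
  intro k V _ _ _ _ p hp hchar H hH F hadd hsmul hmem hinj x hx
  classical
  have : FiniteDimensional k H := hH
  let b := Module.finBasis k H
  have hpc : ∀ a : k, ∃ c : k, c ^ p = a := root p hp
  choose r hr using hpc
  -- the vectors `F bᵢ`
  let w : Fin (Module.finrank k H) → H := fun i => ⟨F (b i : V), hmem _ (b i).2⟩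
  have key : ∀ c : Fin (Module.finrank k H) → k,
      F ((∑ i, r (c i) • b i : H) : V) = ((∑ i, c i • w i : H) : V) := by
    intro c
    rw [AddSubmonoidClass.coe_finsetSum, AddSubmonoidClass.coe_finsetSum, map_sum' F hadd]
    refine Finset.sum_congr rfl fun i _ => ?_
    rw [Submodule.coe_smul, hsmul, hr, Submodule.coe_smul]
  have hli : LinearIndependent k w := by
    rw [Fintype.linearIndependent_iff]
    intro c hc i
    have h1 := key c
    rw [hc] at h1
    have h2 := hinj _ (∑ i, r (c i) • b i : H).2 h1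
    have h3 : (∑ i, r (c i) • b i : H) = 0 := Subtype.ext h2
    have h4 := (Fintype.linearIndependent_iff.mp b.linearIndependent) (fun i => r (c i)) h3 i
    have h5 := hr (c i)
    rw [h4, zero_pow hp.ne_zero] at h5
    exact h5.symm
  have hspan : Submodule.span k (Set.range w) = ⊤ := by
    apply hli.span_eq_top_of_card_eq_finrank'
    rw [Fintype.card_fin]
  have hx' : (⟨x, hx⟩ : H) ∈ Submodule.span k (Set.range w) := by
    rw [hspan]
    trivial
  obtain ⟨c, hc⟩ := (Submodule.mem_span_range_iff_exists_fun k).mp hx'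
  refine ⟨((∑ i, r (c i) • b i : H) : V), (∑ i, r (c i) • b i : H).2, ?_⟩
  rw [key, hc]

end Pool.Agent.MG.G0


end
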