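import Mathlib
import Pool.Agent.KDM.C07
import Pool.Agent.KDM.C12
import Pool.Agent.KDM.C13
import Pool.Agent.KDM.C14
import Pool.Agent.KDM.C15

/-! Parts: MG.VFE, MG.W.WFLa, MG.W.WFL, MG.W.WTS, MG.G0.ZPL -/

section

/-!
# The charts of a nowhere vanishing vector field (module VFE)
-/

open CategoryTheory CategoryTheory.Limits AlgebraicGeometry TensorProduct

namespace Pool.Agent.MG

namespace VFE

section

variable {k : Type} [Field k]

theorem eps_comp : spMap (eps0 k) ≫ spMap (algebraMap k (Eps k)) = 𝟙 (Sp k) := by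
  rw [← CST.spMap_comp]
  have h : (eps0 k).comp (algebraMap k (Eps k)) = RingHom.id k := by
    ext a
    simp
  rw [h]
  exact Spec.map_id _

variable {X : Scheme.{0}} (π : X ⟶ Sp k)

/-- The scheme as a family without marked points. -/
noncomputable def fam : Fam 0 k := ⟨X, π, fun i => i.elim0, fun i => i.elim0⟩

/-- The zero section of `X[ε]`. -/
noncomputable def z0 : X ⟶ XE π :=
  pullback.lift (𝟙 X) (π ≫ spMap (eps0 k)) (by
    rw [Category.id_comp, Category.assoc, eps_comp, Category.comp_id])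

theorem z0_fst : z0 π ≫ pullback.fst _ _ = 𝟙 X := pullback.lift_fst _ _ _

theorem z0_snd : z0 π ≫ pullback.snd _ _ = π ≫ spMap (eps0 k) := pullback.lift_snd _ _ _

theorem z0_cart : IsPullback (z0 π) π (pullback.snd π (spMap (algebraMap k (Eps k))))
    (spMap (eps0 k)) := by
  refine IsPullback.of_right (h₁₂ := pullback.fst π (spMap (algebraMap k (Eps k))))
    (h₂₂ := spMap (algebraMap k (Eps k))) (v₁₃ := π) ?_ (z0_snd π) (IsPullback.of_hasPullback _ _)
  rw [z0_fst, eps_comp]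
  exact IsPullback.of_horiz_isIso ⟨by rw [Category.id_comp, Category.comp_id]⟩

instance flat : Flat π := inferInstance

/-- `X[ε]` as a thickening. -/
noncomputable def thk : Thk (sqEps k) (fam π) where
  y := ⟨XE π, pullback.snd _ _, fun i => i.elim0, fun i => i.elim0⟩
  flat := by
    change Flat (pullback.snd π (spMap (algebraMap k (Eps k))))
    infer_instance
  r := ⟨z0 π, z0_cart π, fun i => i.elim0⟩

/-- The open subset of `X[ε]`. -/
noncomputable abbrev P (U : X.Opens) : (XE π).Opens :=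
  pullback.fst π (spMap (algebraMap k (Eps k))) ⁻¹ᵁ U

theorem op_of (f : XE π ⟶ X) (hf : z0 π ≫ f = 𝟙 X) (U : X.Opens) :
    (thk π).op U = f ⁻¹ᵁ U := by
  have h1 : (z0 π) ⁻¹ᵁ (f ⁻¹ᵁ U) = U := by
    have h2 : (z0 π) ⁻¹ᵁ (f ⁻¹ᵁ U) = (z0 π ≫ f) ⁻¹ᵁ U := rfl
    rw [h2, hf]
    rfl
  have h3 := (thk π).op_pre (f ⁻¹ᵁ U)
  have h4 : (thk π).r.f ⁻¹ᵁ (f ⁻¹ᵁ U) = U := h1
  rw [h4] at h3
  exact h3

theorem op_P (U : X.Opens) : (thk π).op U = P π U := op_of π _ (z0_fst π) U

theorem z0_P (U : X.Opens) : U ≤ z0 π ⁻¹ᵁ P π U := by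
  have h2 : (z0 π) ⁻¹ᵁ (P π U) = (z0 π ≫ pullback.fst _ _) ⁻¹ᵁ U := rfl
  rw [h2, z0_fst]
  exact le_rfl

/-- The generator. -/
noncomputable def ee (W : (XE π).Opens) : Γ(XE π, W) :=
  coef (pullback.snd π (spMap (algebraMap k (Eps k)))) W (TrivSqZeroExt.inr 1)

/-- Reduction. -/
noncomputable def qq (U : X.Opens) : Γ(XE π, P π U) →+* Γ(X, U) :=
  ((z0 π).appLE (P π U) U (z0_P π U)).hom

/-- Pull back by the projection. -/
noncomputable def fs (U : X.Opens) : Γ(X, U) →+* Γ(XE π, P π U) :=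
  ((pullback.fst π (spMap (algebraMap k (Eps k)))).appLE U _ le_rfl).hom

theorem ker' (U : X.Opens) (hU : IsAffineOpen U) (W : (XE π).Opens) (hW : (thk π).op U = W)
    (h : U ≤ z0 π ⁻¹ᵁ W) (v : Γ(XE π, W)) (hv : ((z0 π).appLE W U h).hom v = 0) :
    ∃ w, v = ee π W * w := by
  subst hW
  obtain ⟨w, hw⟩ := AffLem.ker (thk π) U (t_AFF _ _ hU) v hv
  refine ⟨w (), hw.trans ?_⟩
  exact Fintype.sum_unique _

theorem un' (U : X.Opens) (hU : IsAffineOpen U) (W : (XE π).Opens) (hW : (thk π).op U = W)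
    (h : U ≤ z0 π ⁻¹ᵁ W) (w : Γ(XE π, W)) (hw : ee π W * w = 0) :
    ((z0 π).appLE W U h).hom w = 0 := by
  subst hW
  exact AffLem.un (thk π) U (t_AFF _ _ hU) (fun _ => w)
    ((Fintype.sum_unique _).trans hw) ()

theorem ker (U : X.Opens) (hU : IsAffineOpen U) (v : Γ(XE π, P π U)) (hv : qq π U v = 0) :
    ∃ w, v = ee π _ * w := ker' π U hU _ (op_P π U) _ v hv

theorem un (U : X.Opens) (hU : IsAffineOpen U) (w : Γ(XE π, P π U))
    (hw : ee π _ * w = 0) : qq π U w = 0 := un' π U hU _ (op_P π U) _ w hw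

theorem ee_mul (W : (XE π).Opens) : ee π W * ee π W = 0 := by
  unfold ee
  rw [← map_mul, TrivSqZeroExt.inr_mul_inr, map_zero]

theorem appLE_id (U : X.Opens) (h : U ≤ 𝟙 X ⁻¹ᵁ U) (a : Γ(X, U)) :
    ((𝟙 X : X ⟶ X).appLE U U h).hom a = a := by
  have h1 : (𝟙 X : X ⟶ X).appLE U U h = 𝟙 _ := by
    unfold Scheme.Hom.appLE
    rw [Scheme.Hom.id_app]
    exact (Category.id_comp _).trans (X.presheaf.map_id _)
  rw [h1]
  rfl

theorem qq_of (f : XE π ⟶ X) (hf : z0 π ≫ f = 𝟙 X) (U : X.Opens) (h : P π U ≤ f ⁻¹ᵁ U)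
    (a : Γ(X, U)) : qq π U ((f.appLE U (P π U) h).hom a) = a := by
  have h1 := Scheme.Hom.appLE_comp_appLE (z0 π) f U (P π U) U h (z0_P π U)
  have h2 := ConcreteCategory.congr_hom h1 a
  refine Eq.trans h2 ?_
  have h3 : ∀ (g : X ⟶ X) (hg : g = 𝟙 X) (hU : U ≤ g ⁻¹ᵁ U), (g.appLE U U hU).hom a = a := by
    intro g hg hU
    subst hg
    exact appLE_id U hU a
  exact h3 _ hf _

theorem qq_fs (U : X.Opens) (a : Γ(X, U)) : qq π U (fs π U a) = a :=
  qq_of π _ (z0_fst π) U le_rfl a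

variable {π}

theorem le_θ (Φ : Flow π) (U : X.Opens) : P π U ≤ Φ.θ ⁻¹ᵁ U := by
  rw [← op_P π U, op_of π Φ.θ (Φ.h0 _ (z0_fst π) (z0_snd π)) U]

/-- Pull back by the vector field. -/
noncomputable def ts (Φ : Flow π) (U : X.Opens) : Γ(X, U) →+* Γ(XE π, P π U) :=
  (Φ.θ.appLE U _ (le_θ Φ U)).hom

theorem has_iff (Φ : Flow π) (U : X.Opens) (s w : Γ(X, U)) :
    Φ.Has U s w ↔ ts Φ U s = fs π U s + ee π _ * fs π U w :=
  ⟨fun h => h.2, fun h => ⟨le_θ Φ U, h⟩⟩

theorem qq_ts (Φ : Flow π) (U : X.Opens) (a : Γ(X, U)) : qq π U (ts Φ U a) = a :=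
  qq_of π _ (Φ.h0 _ (z0_fst π) (z0_snd π)) U _ a

theorem exists_w (Φ : Flow π) (U : X.Opens) (hU : IsAffineOpen U) (a : Γ(X, U)) :
    ∃ w, Φ.Has U a w := by
  obtain ⟨v, hv⟩ := ker π U hU (ts Φ U a - fs π U a) (by rw [map_sub, qq_ts, qq_fs, sub_self])
  obtain ⟨v', hv'⟩ := ker π U hU (v - fs π U (qq π U v)) (by rw [map_sub, qq_fs, sub_self])
  refine ⟨qq π U v, (has_iff Φ U a _).2 ?_⟩
  have h1 : ee π (P π U) * v = ee π (P π U) * fs π U (qq π U v) := by
    have h2 : v = fs π U (qq π U v) + ee π (P π U) * v' := by rw [← hv']; ring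
    have h3 : ee π (P π U) * (ee π (P π U) * v') = 0 := by
      rw [← mul_assoc, ee_mul, zero_mul]
    calc ee π (P π U) * v = ee π (P π U) * (fs π U (qq π U v) + ee π (P π U) * v') := by
          rw [← h2]
      _ = _ := by rw [mul_add, h3, add_zero]
  rw [← h1, ← hv]
  ring

theorem uniq (Φ : Flow π) (U : X.Opens) (hU : IsAffineOpen U) {a w w' : Γ(X, U)}
    (h : Φ.Has U a w) (h' : Φ.Has U a w') : w = w' := by
  rw [has_iff] at h h'
  have h1 : ee π (P π U) * fs π U (w - w') = 0 := by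
    have h2 := h.symm.trans h'
    rw [map_sub, mul_sub, sub_eq_zero]
    exact add_left_cancel h2
  have h2 := un π U hU _ h1
  rw [qq_fs] at h2
  exact sub_eq_zero.1 h2

theorem has_add (Φ : Flow π) (U : X.Opens) {a b w v : Γ(X, U)}
    (h : Φ.Has U a w) (h' : Φ.Has U b v) : Φ.Has U (a + b) (w + v) := by
  rw [has_iff] at h h' ⊢
  rw [map_add, h, h', map_add, map_add]
  ring

theorem has_mul (Φ : Flow π) (U : X.Opens) {a b w v : Γ(X, U)}
    (h : Φ.Has U a w) (h' : Φ.Has U b v) : Φ.Has U (a * b) (a * v + b * w) := by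
  rw [has_iff] at h h' ⊢
  rw [map_mul, h, h', map_mul, map_add, map_mul, map_mul]
  have h1 := ee_mul π (P π U)
  have h2 : (fs π U a + ee π (P π U) * fs π U w) * (fs π U b + ee π (P π U) * fs π U v) =
      fs π U a * fs π U b + ee π (P π U) * (fs π U a * fs π U v + fs π U b * fs π U w) +
      (ee π (P π U) * ee π (P π U)) * (fs π U w * fs π U v) := by ring
  rw [h2, h1, zero_mul, add_zero]

theorem has_coef (Φ : Flow π) (U : X.Opens) (c : k) : Φ.Has U (coef π U c) 0 := by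
  rw [has_iff, map_zero, mul_zero, add_zero]
  have h1 : ts Φ U (coef π U c) = _ := coef_comp π Φ.θ U (P π U) (le_θ Φ U) c
  have h2 : fs π U (coef π U c) = _ :=
    coef_comp π (pullback.fst π (spMap (algebraMap k (Eps k)))) U (P π U) le_rfl c
  rw [h1, h2, Φ.hπ, pullback.condition]

theorem has_res (Φ : Flow π) {U V : X.Opens} (hVU : V ≤ U) {a w : Γ(X, U)}
    (h : Φ.Has U a w) : Φ.Has V (rs X hVU a) (rs X hVU w) := by
  have hP : P π V ≤ P π U := fun x hx => hVU hx
  rw [has_iff] at h ⊢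
  have e1 : ∀ b : Γ(X, U), fs π V (rs X hVU b) = rs (XE π) hP (fs π U b) := by
    intro b
    change (X.presheaf.map (homOfLE hVU).op ≫
      (pullback.fst π (spMap (algebraMap k (Eps k)))).appLE V (P π V) le_rfl) b =
      ((pullback.fst π (spMap (algebraMap k (Eps k)))).appLE U (P π U) le_rfl ≫
        (XE π).presheaf.map (homOfLE hP).op) b
    rw [Scheme.Hom.map_appLE, Scheme.Hom.appLE_map]
  have e2 : ∀ b : Γ(X, U), ts Φ V (rs X hVU b) = rs (XE π) hP (ts Φ U b) := by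
    intro b
    change (X.presheaf.map (homOfLE hVU).op ≫ Φ.θ.appLE V (P π V) (le_θ Φ V)) b =
      (Φ.θ.appLE U (P π U) (le_θ Φ U) ≫ (XE π).presheaf.map (homOfLE hP).op) b
    rw [Scheme.Hom.map_appLE, Scheme.Hom.appLE_map]
  have e3 : rs (XE π) hP (ee π (P π U)) = ee π (P π V) := coef_rs _ _ _
  rw [e1, e1, e2, h, map_add, map_mul, e3]

/-- Derivations from functions. -/
theorem exists_der {R A : Type} [CommRing R] [Algebra k R] [CommRing A] (κ : k →+* A)
    (ρ : R ≃+* A) (hρ : ∀ c, ρ (algebraMap k R c) = κ c) (D : A → A)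
    (ha : ∀ a b, D (a + b) = D a + D b) (hm : ∀ a b, D (a * b) = a * D b + b * D a)
    (hc : ∀ c, D (κ c) = 0) : ∃ D' : Derivation k R R, ∀ a, ρ (D' a) = D (ρ a) := by
  refine ⟨{ toFun := fun a => ρ.symm (D (ρ a))
            map_add' := fun a b => by rw [map_add, ha, map_add]
            map_smul' := fun c a => by
              rw [Algebra.smul_def, map_mul, hm, hρ, hc, mul_zero, add_zero, map_mul,
                ← hρ, RingEquiv.symm_apply_apply, RingHom.id_apply, Algebra.smul_def]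
            map_one_eq_zero' := by
              change ρ.symm (D (ρ 1)) = 0
              have h1 := hc 1
              rw [map_one] at h1
              rw [map_one, h1, map_zero]
            leibniz' := fun a b => by
              change ρ.symm (D (ρ (a * b))) = a • ρ.symm (D (ρ b)) + b • ρ.symm (D (ρ a))
              rw [map_mul, hm, map_add, map_mul, map_mul, RingEquiv.symm_apply_apply,
                RingEquiv.symm_apply_apply, smul_eq_mul, smul_eq_mul] }, fun a => ?_⟩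
  change ρ (ρ.symm (D (ρ a))) = _
  exact RingEquiv.apply_symm_apply _ _

/-- The derivation of a vector field on an affine open subset. -/
theorem exists_D (Φ : Flow π) (U : X.Opens) (hU : IsAffineOpen U) {R : Type} [CommRing R]
    [Algebra k R] (ρ : R ≃+* Γ(X, U)) (hρ : ∀ c, ρ (algebraMap k R c) = coef π U c) :
    ∃ D : Derivation k R R, ∀ a, Φ.Has U (ρ a) (ρ (D a)) := by
  choose D hD using exists_w Φ U hU
  obtain ⟨D', hD'⟩ := exists_der (coef π U) ρ hρ D
    (fun a b => uniq Φ U hU (hD _) (has_add Φ U (hD a) (hD b)))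
    (fun a b => uniq Φ U hU (hD _) (has_mul Φ U (hD a) (hD b)))
    (fun c => uniq Φ U hU (hD _) (has_coef Φ U c))
  refine ⟨D', fun a => ?_⟩
  rw [hD']
  exact hD _

theorem etale_res {U : X.Opens} (hU : IsAffineOpen U) (f : Γ(X, U)) :
    (rs X (X.basicOpen_le f)).Etale := by
  have hloc := hU.isLocalization_basicOpen f
  let _ : Algebra Γ(X, U) Γ(X, X.basicOpen f) := (rs X (X.basicOpen_le f)).toAlgebra
  have hloc' : IsLocalization.Away f Γ(X, X.basicOpen f) := hloc
  exact Algebra.Etale.of_isLocalizationAway f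

/-- The value of a nowhere vanishing vector field at a coordinate is a unit. -/
theorem isUnit_of_nv (Φ : Flow π) (hΦ : Φ.NV) (U : X.Opens) (hU : IsAffineOpen U)
    {R : Type} [CommRing R] [Algebra k R] (ρ : R ≃+* Γ(X, U))
    (hρ : ∀ c, ρ (algebraMap k R c) = coef π U c) {x : R} (hx : Lift.EtCo k x)
    {g : Γ(X, U)} (hg : Φ.Has U (ρ x) g) : IsUnit g := by
  have key : ∀ p ∈ U, p ∈ X.basicOpen g := by
    intro p hp
    obtain ⟨W, s, w, hpW, hw, hs⟩ := hΦ p
    obtain ⟨f, hf, hpf⟩ := hU.exists_basicOpen_le ⟨p, hpW⟩ hp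
    have hle : X.basicOpen f ≤ U := X.basicOpen_le f
    have hV : IsAffineOpen (X.basicOpen f) := hU.basicOpen f
    let _ : Algebra k Γ(X, X.basicOpen f) := (coef π (X.basicOpen f)).toAlgebra
    obtain ⟨D, hD⟩ := exists_D Φ (X.basicOpen f) hV (RingEquiv.refl _) (fun c => rfl)
    -- the coordinate on the basic open subset
    let j : R →ₐ[k] Γ(X, X.basicOpen f) :=
      { (rs X hle).comp (ρ : R →+* Γ(X, U)) with
        commutes' := fun c => by
          change rs X hle (ρ (algebraMap k R c)) = coef π (X.basicOpen f) c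
          rw [hρ, coef_rs] }
    have hj : j.toRingHom.Etale := by
      change ((rs X hle).comp (ρ : R →+* Γ(X, U))).Etale
      exact RingHom.Etale.stableUnderComposition _ _
        (RingHom.Etale.of_bijective ρ.bijective) (etale_res hU f)
    have hz := hx.comp j hj
    obtain ⟨d, hd⟩ := Lift.exists_deriv hz
    have hjx : j x = rs X hle (ρ x) := rfl
    have h1 : D (j x) = rs X hle g := uniq Φ _ hV (hD (j x)) (has_res Φ hle hg)
    have h2 : D = rs X hle g • d := by
      refine Lift.deriv_ext hz D (rs X hle g • d) ?_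
      rw [h1, Derivation.smul_apply, hd, smul_eq_mul, mul_one]
    have h3 : D (rs X hf s) = rs X hf w := uniq Φ _ hV (hD _) (has_res Φ hf hs)
    have h4 : rs X hle g * d (rs X hf s) = rs X hf w := by
      rw [← h3, h2, Derivation.smul_apply, smul_eq_mul]
    have h5 : IsUnit (rs X hle g) := isUnit_of_mul_isUnit_left (h4 ▸ hw.map (rs X hf))
    have h6 : X.basicOpen (rs X hle g) = X.basicOpen f ⊓ X.basicOpen g :=
      X.basicOpen_res g (homOfLE hle).op
    rw [X.basicOpen_of_isUnit h5] at h6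
    have h7 : p ∈ X.basicOpen f ⊓ X.basicOpen g := by
      rw [← h6]
      exact hpf
    exact h7.2
  have h1 : U ≤ X.basicOpen g := key
  have h2 : IsUnit (rs X (X.basicOpen_le g) g) := X.toRingedSpace.isUnit_res_basicOpen g
  have h3 := h2.map (rs X h1)
  have h4 : rs X h1 (rs X (X.basicOpen_le g) g) = g := by
    rw [AFF.rs_rs]
    change (X.presheaf.map (homOfLE (le_refl U)).op) g = g
    have : (homOfLE (le_refl U)).op = 𝟙 (Opposite.op U) := rfl
    rw [this, X.presheaf.map_id]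
    rfl
  rw [h4] at h3
  exact h3

end

/-- Functions on a chart. -/
theorem exists_ring {k : Type} [Field k] {X : Scheme.{0}} {π : X ⟶ Sp k} {U : X.Opens}
    {R : Type} [CommRing R] [Algebra k R] (t : k ⊗[k] R →+* Γ(X, U)) (ht : Function.Bijective t)
    (hc : ∀ b : k, t (b ⊗ₜ 1) = coef π U b) :
    ∃ ρ : R ≃+* Γ(X, U), (∀ a, ρ a = t (1 ⊗ₜ a)) ∧ ∀ c, ρ (algebraMap k R c) = coef π U c := by
  refine ⟨(Algebra.TensorProduct.lid k R).symm.toRingEquiv.trans (RingEquiv.ofBijective t ht),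
    fun a => rfl, fun c => ?_⟩
  change t (1 ⊗ₜ algebraMap k R c) = _
  rw [← hc, Algebra.algebraMap_eq_smul_one, ← TensorProduct.smul_tmul, smul_eq_mul, mul_one]

end VFE

theorem t_VFE : Stmt_VFE := by
  intro n k _ T C _ ct ha Φ hΦ
  obtain ⟨ρ1, h1, h1c⟩ := VFE.exists_ring ct.t1 ct.b1 ct.c1
  obtain ⟨ρ2, h2, h2c⟩ := VFE.exists_ring ct.t2 ct.b2 ct.c2
  obtain ⟨ρ3, h3, h3c⟩ := VFE.exists_ring ct.t12 ct.b12 ct.c12
  obtain ⟨D1, hD1⟩ := VFE.exists_D Φ ct.U1 ha.aff1 ρ1 h1c
  obtain ⟨D2, hD2⟩ := VFE.exists_D Φ ct.U2 ha.aff2 ρ2 h2c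
  obtain ⟨D3, hD3⟩ := VFE.exists_D Φ (ct.U1 ⊓ ct.U2) ha.aff12 ρ3 h3c
  have u1 := VFE.isUnit_of_nv Φ hΦ ct.U1 ha.aff1 ρ1 h1c (Lift.etx T) (hD1 T.x)
  have u2 := VFE.isUnit_of_nv Φ hΦ ct.U2 ha.aff2 ρ2 h2c (Lift.ety T) (hD2 T.y)
  have v1 : IsUnit (D1 T.x) := by simpa using u1.map ρ1.symm
  have v2 : IsUnit (D2 T.y) := by simpa using u2.map ρ2.symm
  obtain ⟨ri, hri⟩ := v1.exists_right_inv
  obtain ⟨si, hsi⟩ := v2.exists_right_inv
  have c1 : ∀ a, D3 (T.j1 a) = T.j1 (D1 a) := by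
    intro a
    apply ρ3.injective
    refine VFE.uniq Φ _ ha.aff12 (hD3 (T.j1 a)) ?_
    have h4 := VFE.has_res Φ (inf_le_left : ct.U1 ⊓ ct.U2 ≤ ct.U1) (hD1 a)
    rw [h1, h1, ct.r1, ct.r1, ← h3, ← h3] at h4
    exact h4
  have c2 : ∀ a, D3 (T.j2 a) = T.j2 (D2 a) := by
    intro a
    apply ρ3.injective
    refine VFE.uniq Φ _ ha.aff12 (hD3 (T.j2 a)) ?_
    have h4 := VFE.has_res Φ (inf_le_right : ct.U1 ⊓ ct.U2 ≤ ct.U2) (hD2 a)
    rw [h2, h2, ct.r2, ct.r2, ← h3, ← h3] at h4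
    exact h4
  have e3 : D3 = T.j1 (D1 T.x) • T.dd := by
    refine Lift.deriv_ext (Lift.etjx T) D3 (T.j1 (D1 T.x) • T.dd) ?_
    rw [c1, Derivation.smul_apply, T.ddx, smul_eq_mul, mul_one]
  have e4 : T.j2 (D2 T.y) = T.j1 (D1 T.x) * T.dd (T.j2 T.y) := by
    rw [← c2, e3, Derivation.smul_apply, smul_eq_mul]
  refine ⟨⟨D1 T.x, ri, D2 T.y, si, hri, hsi, ?_⟩, ?_⟩
  · rw [e4, mul_comm (T.j1 (D1 T.x)), ← mul_assoc, T.ey, one_mul]
  · change Φ.Has ct.U1 (ct.t1 (1 ⊗ₜ T.x)) (ct.t1 (1 ⊗ₜ D1 T.x))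
    rw [← h1, ← h1]
    exact hD1 T.x

end Pool.Agent.MG


end

section

/-!
# The vector field on a smooth Weierstrass curve (module WFL)
-/

open CategoryTheory CategoryTheory.Limits AlgebraicGeometry TensorProduct

namespace Pool.Agent.MG.W

namespace WFL

/-! ## Algebra -/

theorem pow_eps {R : Type} [CommRing R] (u e v : R) (he : e * e = 0) (n : ℕ) :
    (u + e * v) ^ (n + 1) = u ^ (n + 1) + (n + 1) * (e * (u ^ n * v)) := by
  induction n with
  | zero => simp
  | succ n ih =>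
    rw [pow_succ, ih]
    push_cast
    linear_combination ((n : R) + 1) * u ^ n * v * v * he

section

variable {k : Type} [Field k] (a b : k)

/-- The constants of `k[ε]`. -/
noncomputable abbrev cst : k →+* Eps k := algebraMap k (Eps k)

/-- Infinitesimal of the affine chart. -/
noncomputable def e1 : A1 (Eps k) (cst a) (cst b) := algebraMap (Eps k) _ (TrivSqZeroExt.inr 1)

/-- Infinitesimal of the chart at infinity. -/
noncomputable def e2 : A2 (Eps k) (cst a) (cst b) := algebraMap (Eps k) _ (TrivSqZeroExt.inr 1)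

theorem e1_sq : e1 a b * e1 a b = 0 := by
  unfold e1
  rw [← map_mul, TrivSqZeroExt.inr_mul_inr, map_zero]

theorem e2_sq : e2 a b * e2 a b = 0 := by
  unfold e2
  rw [← map_mul, TrivSqZeroExt.inr_mul_inr, map_zero]

/-- The vector field on the affine chart. -/
noncomputable def h1 : A1 k a b →+* A1 (Eps k) (cst a) (cst b) :=
  lift1 ((algebraMap (Eps k) (A1 (Eps k) (cst a) (cst b))).comp cst)
    (x1 _ _ _ + e1 a b * (2 * y1 _ _ _))
    (y1 _ _ _ + e1 a b * (3 * x1 _ _ _ ^ 2 + algebraMap (Eps k) _ (cst a))) (by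
    have h := rel1 (Eps k) (cst a) (cst b)
    have he := e1_sq a b
    simp only [RingHom.comp_apply]
    generalize x1 (Eps k) (cst a) (cst b) = x at *
    generalize y1 (Eps k) (cst a) (cst b) = y at *
    generalize algebraMap (Eps k) (A1 (Eps k) (cst a) (cst b)) (cst a) = A at *
    generalize algebraMap (Eps k) (A1 (Eps k) (cst a) (cst b)) (cst b) = B at *
    generalize e1 a b = e at *
    linear_combination h + ((3 * x ^ 2 + A) ^ 2 - 12 * x * y ^ 2 - 8 * e * y ^ 3) * he)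

/-- The derivative of `z`. -/
noncomputable def dz {R : Type} [CommRing R] (A B z t : R) : R :=
  -1 + 2 * A * z ^ 4 * t + 3 * B * z ^ 6 * t ^ 2

/-- Minus the derivative of `t`. -/
noncomputable def dt {R : Type} [CommRing R] (A B z t : R) : R :=
  4 * A * z ^ 3 * t ^ 2 + 6 * B * z ^ 5 * t ^ 3

theorem relE {R : Type} [CommRing R] (A B z t e : R) (he : e * e = 0)
    (h : t = 1 + A * z ^ 4 * t ^ 2 + B * z ^ 6 * t ^ 3) :
    t + e * -dt A B z t = 1 + A * (z + e * dz A B z t) ^ 4 * (t + e * -dt A B z t) ^ 2 +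
      B * (z + e * dz A B z t) ^ 6 * (t + e * -dt A B z t) ^ 3 := by
  rw [pow_eps z e _ he 3, pow_eps z e _ he 5, pow_eps t e _ he 1, pow_eps t e _ he 2]
  have hD : dz A B z t = -1 + 2 * A * z ^ 4 * t + 3 * B * z ^ 6 * t ^ 2 := rfl
  have hW : dt A B z t = 4 * A * z ^ 3 * t ^ 2 + 6 * B * z ^ 5 * t ^ 3 := rfl
  push_cast
  generalize hDD : dz A B z t = D at *
  generalize hWW : dt A B z t = W at *
  have h3 : W * (1 + D - 2 * A * z ^ 4 * t - 3 * B * z ^ 6 * t ^ 2) = 0 := by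
    rw [hD]
    ring
  linear_combination h + (8 * A * z ^ 3 * t * D * W + 18 * B * z ^ 5 * t ^ 2 * D * W) * he -
    e * h3 + e * D * hW


/-- The vector field on the chart at infinity. -/
noncomputable def h2 : A2 k a b →+* A2 (Eps k) (cst a) (cst b) :=
  lift2 ((algebraMap (Eps k) (A2 (Eps k) (cst a) (cst b))).comp cst)
    (z2 _ _ _ + e2 a b * dz (algebraMap (Eps k) _ (cst a)) (algebraMap (Eps k) _ (cst b))
      (z2 _ _ _) (t2 _ _ _))
    (t2 _ _ _ + e2 a b * -dt (algebraMap (Eps k) _ (cst a)) (algebraMap (Eps k) _ (cst b))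
      (z2 _ _ _) (t2 _ _ _)) (relE _ _ _ _ _ (e2_sq a b) (rel2 (Eps k) (cst a) (cst b)))

theorem h1_x : h1 a b (x1 k a b) = x1 _ _ _ + e1 a b * (2 * y1 _ _ _) := lift1_x _ _ _ _

theorem h1_y : h1 a b (y1 k a b) =
    y1 _ _ _ + e1 a b * (3 * x1 _ _ _ ^ 2 + algebraMap (Eps k) _ (cst a)) := lift1_y _ _ _ _

theorem h1_b (c : k) : h1 a b (algebraMap k _ c) = algebraMap (Eps k) _ (cst c) :=
  lift1_b _ _ _ _ _

theorem h2_z : h2 a b (z2 k a b) = z2 _ _ _ + e2 a b * dz (algebraMap (Eps k) _ (cst a))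
    (algebraMap (Eps k) _ (cst b)) (z2 _ _ _) (t2 _ _ _) := lift2_z _ _ _ _

theorem h2_t : h2 a b (t2 k a b) = t2 _ _ _ + e2 a b * -dt (algebraMap (Eps k) _ (cst a))
    (algebraMap (Eps k) _ (cst b)) (z2 _ _ _) (t2 _ _ _) := lift2_t _ _ _ _

theorem h2_b (c : k) : h2 a b (algebraMap k _ c) = algebraMap (Eps k) _ (cst c) :=
  lift2_b _ _ _ _ _

/-- Infinitesimal of the intersection. -/
noncomputable def e12 : A12 (Eps k) (cst a) (cst b) := algebraMap (Eps k) _ (TrivSqZeroExt.inr 1)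

theorem e12_sq : e12 a b * e12 a b = 0 := by
  unfold e12
  rw [← map_mul, TrivSqZeroExt.inr_mul_inr, map_zero]

theorem g1_e : g1 _ _ _ (e1 a b) = e12 a b := g1_b _ _ _ _

theorem g2_e : g2 _ _ _ (e2 a b) = e12 a b := g2_b _ _ _ _

theorem g2_dz : g2 (Eps k) (cst a) (cst b) (dz (algebraMap (Eps k) _ (cst a))
    (algebraMap (Eps k) _ (cst b)) (z2 _ _ _) (t2 _ _ _)) =
    dz (algebraMap (Eps k) _ (cst a)) (algebraMap (Eps k) _ (cst b)) (zu _ _ _).val
      (tu _ _ _).val := by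
  unfold dz
  simp only [map_add, map_mul, map_pow, map_neg, map_one, map_ofNat, g2_b, ← zu_val, ← tu_val]

theorem g2_dt : g2 (Eps k) (cst a) (cst b) (dt (algebraMap (Eps k) _ (cst a))
    (algebraMap (Eps k) _ (cst b)) (z2 _ _ _) (t2 _ _ _)) =
    dt (algebraMap (Eps k) _ (cst a)) (algebraMap (Eps k) _ (cst b)) (zu _ _ _).val
      (tu _ _ _).val := by
  unfold dt
  simp only [map_add, map_mul, map_pow, map_ofNat, g2_b, ← zu_val, ← tu_val]

theorem g2h2_z : g2 _ _ _ (h2 a b (z2 k a b)) = (zu _ _ _).val + e12 a b *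
    dz (algebraMap (Eps k) _ (cst a)) (algebraMap (Eps k) _ (cst b)) (zu _ _ _).val
      (tu _ _ _).val := by
  rw [h2_z, map_add, map_mul, g2_e, g2_dz, ← zu_val]

theorem g2h2_t : g2 _ _ _ (h2 a b (t2 k a b)) = (tu _ _ _).val + e12 a b *
    -dt (algebraMap (Eps k) _ (cst a)) (algebraMap (Eps k) _ (cst b)) (zu _ _ _).val
      (tu _ _ _).val := by
  rw [h2_t, map_add, map_mul, map_neg, g2_e, g2_dt, ← tu_val]

theorem unit_z : IsUnit (((g2 _ _ _).comp (h2 a b)) (z2 k a b)) := by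
  rw [RingHom.comp_apply, g2h2_z]
  have he := e12_sq a b
  have hz : (zu (Eps k) (cst a) (cst b)).val * ((zu (Eps k) (cst a) (cst b))⁻¹).val = 1 :=
    Units.mul_inv _
  refine IsUnit.of_mul_eq_one (((zu (Eps k) (cst a) (cst b))⁻¹).val - e12 a b *
    dz (algebraMap (Eps k) _ (cst a)) (algebraMap (Eps k) _ (cst b)) (zu _ _ _).val
      (tu _ _ _).val * ((zu (Eps k) (cst a) (cst b))⁻¹).val ^ 2) ?_
  generalize dz (algebraMap (Eps k) _ (cst a)) (algebraMap (Eps k) _ (cst b))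
    (zu (Eps k) (cst a) (cst b)).val (tu (Eps k) (cst a) (cst b)).val = D at *
  generalize ((zu (Eps k) (cst a) (cst b))⁻¹).val = zi at *
  generalize (zu (Eps k) (cst a) (cst b)).val = z at *
  generalize e12 a b = e at *
  linear_combination (1 - e * D * zi) * hz - D * D * zi ^ 2 * he

/-- The vector field on the intersection. -/
noncomputable def h12 : A12 k a b →+* A12 (Eps k) (cst a) (cst b) :=
  IsLocalization.Away.lift (z2 k a b) (g := (g2 _ _ _).comp (h2 a b)) (unit_z a b)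

theorem h12_g2 (v : A2 k a b) : h12 a b (g2 k a b v) = g2 _ _ _ (h2 a b v) :=
  IsLocalization.Away.lift_eq _ _ _

theorem h12_b (c : k) : h12 a b (algebraMap k _ c) = algebraMap (Eps k) _ (cst c) := by
  rw [← g2_b k a b c, h12_g2, h2_b, g2_b]

theorem rel12' : (tu (Eps k) (cst a) (cst b)).val = 1 + algebraMap (Eps k) _ (cst a) *
    (zu _ _ _).val ^ 4 * (tu _ _ _).val ^ 2 + algebraMap (Eps k) _ (cst b) *
    (zu _ _ _).val ^ 6 * (tu _ _ _).val ^ 3 := by
  have h := congrArg (g2 (Eps k) (cst a) (cst b)) (rel2 (Eps k) (cst a) (cst b))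
  simp only [map_add, map_mul, map_pow, map_one, ← zu_val, ← tu_val, g2_b] at h
  exact h

theorem alg_x {R : Type} [CommRing R] (A B z t zi ti e : R) (hz : z * zi = 1) (ht : t * ti = 1)
    (he : e * e = 0) : z ^ 3 * t * (zi ^ 2 * ti + e * (2 * (zi ^ 3 * ti))) *
      ((z + e * dz A B z t) ^ 2 * (t + e * -dt A B z t)) = z ^ 3 * t := by
  have h1 : z ^ 3 * t * (zi ^ 2 * ti + e * (2 * (zi ^ 3 * ti))) = z + 2 * e := by
    calc z ^ 3 * t * (zi ^ 2 * ti + e * (2 * (zi ^ 3 * ti))) =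
        z * (z * zi) ^ 2 * (t * ti) + 2 * e * (z * zi) ^ 3 * (t * ti) := by ring
      _ = z + 2 * e := by rw [hz, ht]; ring
  rw [h1, pow_eps z e _ he 1]
  have hD : dz A B z t = -1 + 2 * A * z ^ 4 * t + 3 * B * z ^ 6 * t ^ 2 := rfl
  have hW : dt A B z t = 4 * A * z ^ 3 * t ^ 2 + 6 * B * z ^ 5 * t ^ 3 := rfl
  push_cast
  generalize dz A B z t = D at *
  generalize dt A B z t = W at *
  linear_combination (4 * z * D * t - 2 * z ^ 2 * W - 2 * z ^ 2 * D * W - 4 * e * z * D * W) * he +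
    2 * e * z ^ 2 * t * hD - e * z ^ 3 * hW

theorem alg_y {R : Type} [CommRing R] (A B z t zi ti e : R) (hz : z * zi = 1) (ht : t * ti = 1)
    (he : e * e = 0) (h : t = 1 + A * z ^ 4 * t ^ 2 + B * z ^ 6 * t ^ 3) :
    z ^ 4 * t ^ 2 * (zi ^ 3 * ti + e * (3 * (zi ^ 2 * ti) ^ 2 + A)) *
      ((z + e * dz A B z t) ^ 3 * (t + e * -dt A B z t)) = z ^ 4 * t ^ 2 := by
  have h1 : z ^ 4 * t ^ 2 * (zi ^ 3 * ti + e * (3 * (zi ^ 2 * ti) ^ 2 + A)) =
      z * t + e * (3 + A * z ^ 4 * t ^ 2) := by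
    calc z ^ 4 * t ^ 2 * (zi ^ 3 * ti + e * (3 * (zi ^ 2 * ti) ^ 2 + A)) =
        z * t * (z * zi) ^ 3 * (t * ti) + e * (3 * (z * zi) ^ 4 * (t * ti) ^ 2 +
          A * z ^ 4 * t ^ 2) := by ring
      _ = _ := by rw [hz, ht]; ring
  rw [h1, pow_eps z e _ he 2]
  have hD : dz A B z t = -1 + 2 * A * z ^ 4 * t + 3 * B * z ^ 6 * t ^ 2 := rfl
  have hW : dt A B z t = 4 * A * z ^ 3 * t ^ 2 + 6 * B * z ^ 5 * t ^ 3 := rfl
  push_cast
  generalize dz A B z t = D at *
  generalize dt A B z t = W at *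
  generalize hm : 3 + A * z ^ 4 * t ^ 2 = m
  linear_combination (3 * m * z ^ 2 * D * t - m * z ^ 3 * W - 3 * z ^ 3 * t * D * W -
    3 * e * m * z ^ 2 * D * W) * he + 3 * e * z ^ 3 * t ^ 2 * hD - e * z ^ 4 * t * hW -
    3 * e * z ^ 3 * t * h - e * z ^ 3 * t * hm

theorem uniq_inv {R : Type} [CommRing R] {v w c d : R} (h : v * c = 1) (h' : d * w * c = d)
    (hd : IsUnit d) : v = w := by
  have h3 : w * c = 1 := by
    apply hd.mul_left_cancel
    rw [← mul_assoc, h', mul_one]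
  calc v = v * (w * c) := by rw [h3, mul_one]
    _ = w * (v * c) := by ring
    _ = w := by rw [h, mul_one]

theorem h12_g1_x : h12 a b (g1 k a b (x1 k a b)) = g1 _ _ _ (h1 a b (x1 k a b)) := by
  have hu : ((zu k a b)⁻¹ ^ 2 * (tu k a b)⁻¹ : (A12 k a b)ˣ).val *
      ((zu k a b).val ^ 2 * (tu k a b).val) = 1 := by
    have : ((zu k a b)⁻¹ ^ 2 * (tu k a b)⁻¹ : (A12 k a b)ˣ) * ((zu k a b) ^ 2 * (tu k a b)) =
        1 := by
      rw [inv_pow, mul_mul_mul_comm, inv_mul_cancel, inv_mul_cancel, one_mul]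
    exact congrArg Units.val this
  have hu' := congrArg (h12 a b) hu
  rw [map_mul, map_one, map_mul, map_pow, zu_val, tu_val, h12_g2, h12_g2, g2h2_z, g2h2_t] at hu'
  rw [g1_x, h1_x, map_add, map_mul, map_mul, map_ofNat, g1_x, g1_y, g1_e]
  refine uniq_inv hu' (d := (zu (Eps k) (cst a) (cst b)).val ^ 3 *
    (tu (Eps k) (cst a) (cst b)).val) ?_ ?_
  swap
  · exact ((zu (Eps k) (cst a) (cst b)).isUnit.pow 3).mul (tu (Eps k) (cst a) (cst b)).isUnit
  have hz : (zu (Eps k) (cst a) (cst b)).val * ((zu (Eps k) (cst a) (cst b))⁻¹).val = 1 :=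
    Units.mul_inv _
  have ht : (tu (Eps k) (cst a) (cst b)).val * ((tu (Eps k) (cst a) (cst b))⁻¹).val = 1 :=
    Units.mul_inv _
  have he := e12_sq a b
  push_cast
  exact alg_x _ _ _ _ _ _ _ hz ht he

theorem h12_g1_y : h12 a b (g1 k a b (y1 k a b)) = g1 _ _ _ (h1 a b (y1 k a b)) := by
  have hu : ((zu k a b)⁻¹ ^ 3 * (tu k a b)⁻¹ : (A12 k a b)ˣ).val *
      ((zu k a b).val ^ 3 * (tu k a b).val) = 1 := by
    have : ((zu k a b)⁻¹ ^ 3 * (tu k a b)⁻¹ : (A12 k a b)ˣ) * ((zu k a b) ^ 3 * (tu k a b)) =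
        1 := by
      rw [inv_pow, mul_mul_mul_comm, inv_mul_cancel, inv_mul_cancel, one_mul]
    exact congrArg Units.val this
  have hu' := congrArg (h12 a b) hu
  rw [map_mul, map_one, map_mul, map_pow, zu_val, tu_val, h12_g2, h12_g2, g2h2_z, g2h2_t] at hu'
  rw [g1_y, h1_y, map_add, map_mul, map_add, map_mul, map_ofNat, map_pow, g1_x, g1_y, g1_e, g1_b]
  refine uniq_inv hu' (d := (zu (Eps k) (cst a) (cst b)).val ^ 4 *
    (tu (Eps k) (cst a) (cst b)).val ^ 2) ?_ ?_
  swap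
  · exact ((zu (Eps k) (cst a) (cst b)).isUnit.pow 4).mul
      ((tu (Eps k) (cst a) (cst b)).isUnit.pow 2)
  have hz : (zu (Eps k) (cst a) (cst b)).val * ((zu (Eps k) (cst a) (cst b))⁻¹).val = 1 :=
    Units.mul_inv _
  have ht : (tu (Eps k) (cst a) (cst b)).val * ((tu (Eps k) (cst a) (cst b))⁻¹).val = 1 :=
    Units.mul_inv _
  have he := e12_sq a b
  push_cast
  exact alg_y _ _ _ _ _ _ _ hz ht he (rel12' a b)

theorem h12_g1 (v : A1 k a b) : h12 a b (g1 k a b v) = g1 _ _ _ (h1 a b v) := by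
  have : (h12 a b).comp (g1 k a b) = (g1 _ _ _).comp (h1 a b) := by
    refine hom1_ext ?_ (h12_g1_x a b) (h12_g1_y a b)
    intro c
    rw [RingHom.comp_apply, RingHom.comp_apply, g1_b, h12_b, h1_b, g1_b]
  exact congrArg (fun f => f v) this

/-! ## The morphism -/

/-- The morphism from the curve over `k[ε]`. -/
noncomputable def th : WX (Eps k) (cst a) (cst b) ⟶ WX k a b :=
  pushout.desc (spMap (h1 a b) ≫ WX.in1 k a b) (spMap (h2 a b) ≫ WX.in2 k a b) (by
    have e1 : (g1 (Eps k) (cst a) (cst b)).comp (h1 a b) = (h12 a b).comp (g1 k a b) :=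
      RingHom.ext fun v => (h12_g1 a b v).symm
    have e2 : (g2 (Eps k) (cst a) (cst b)).comp (h2 a b) = (h12 a b).comp (g2 k a b) :=
      RingHom.ext fun v => (h12_g2 a b v).symm
    rw [← Category.assoc, ← Category.assoc, spMap_comp', spMap_comp', e1, e2, ← spMap_comp',
      ← spMap_comp', Category.assoc, Category.assoc]
    congr 1
    exact pushout.condition)

@[reassoc]
theorem in1_th : WX.in1 _ _ _ ≫ th a b = spMap (h1 a b) ≫ WX.in1 k a b :=
  pushout.inl_desc _ _ _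

@[reassoc]
theorem in2_th : WX.in2 _ _ _ ≫ th a b = spMap (h2 a b) ≫ WX.in2 k a b :=
  pushout.inr_desc _ _ _

theorem th_pr : th a b ≫ WX.pr k a b = WX.pr _ _ _ ≫ spMap cst := by
  refine WX.ext' ?_ ?_
  · rw [← Category.assoc, in1_th, Category.assoc, WX.in1_pr, ← Category.assoc, WX.in1_pr,
      spMap_comp', spMap_comp']
    exact congrArg (fun f => spMap f) (RingHom.ext fun c => h1_b a b c)
  · rw [← Category.assoc, in2_th, Category.assoc, WX.in2_pr, ← Category.assoc, WX.in2_pr,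
      spMap_comp', spMap_comp']
    exact congrArg (fun f => spMap f) (RingHom.ext fun c => h2_b a b c)

theorem eps0_cst : (eps0 k).comp cst = RingHom.id k := by
  ext c
  simp

theorem eps0_cst' (c : k) : c = eps0 k (cst c) := by
  simp

/-- The zero section of the curve over `k[ε]`. -/
noncomputable def zs : WX k a b ⟶ WX (Eps k) (cst a) (cst b) :=
  WX.map (eps0 k) (eps0_cst' a) (eps0_cst' b)

theorem spMap_id' (A : Type) [CommRing A] : spMap (RingHom.id A) = 𝟙 (Sp A) := by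
  exact Spec.map_id _

theorem eps_e1 : bc1 (eps0 k) (eps0_cst' a) (eps0_cst' b) (e1 a b) = 0 := by
  unfold e1
  rw [bc1_b]
  simp

theorem eps_e2 : bc2 (eps0 k) (eps0_cst' a) (eps0_cst' b) (e2 a b) = 0 := by
  unfold e2
  rw [bc2_b]
  simp

theorem bc1_h1 : (bc1 (eps0 k) (eps0_cst' a) (eps0_cst' b)).comp (h1 a b) = RingHom.id _ := by
  refine hom1_ext ?_ ?_ ?_
  · intro c
    rw [RingHom.comp_apply, h1_b, bc1_b, ← eps0_cst']
    rfl
  · rw [RingHom.comp_apply, h1_x, map_add, map_mul, eps_e1, zero_mul, add_zero, bc1_x]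
    rfl
  · rw [RingHom.comp_apply, h1_y, map_add, map_mul, eps_e1, zero_mul, add_zero, bc1_y]
    rfl

theorem bc2_h2 : (bc2 (eps0 k) (eps0_cst' a) (eps0_cst' b)).comp (h2 a b) = RingHom.id _ := by
  refine hom2_ext ?_ ?_ ?_
  · intro c
    rw [RingHom.comp_apply, h2_b, bc2_b, ← eps0_cst']
    rfl
  · rw [RingHom.comp_apply, h2_z, map_add, map_mul, eps_e2, zero_mul, add_zero, bc2_z]
    rfl
  · rw [RingHom.comp_apply, h2_t, map_add, map_mul, eps_e2, zero_mul, add_zero, bc2_t]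
    rfl

theorem zs_th : zs a b ≫ th a b = 𝟙 _ := by
  refine WX.ext' ?_ ?_
  · unfold zs
    rw [WX.in1_map_assoc, in1_th, ← Category.assoc, spMap_comp', bc1_h1, spMap_id',
      Category.id_comp, Category.comp_id]
  · unfold zs
    rw [WX.in2_map_assoc, in2_th, ← Category.assoc, spMap_comp', bc2_h2, spMap_id',
      Category.id_comp, Category.comp_id]

theorem bc1_bc1 : (bc1 (eps0 k) (eps0_cst' a) (eps0_cst' b)).comp (bc1 cst rfl rfl) =
    RingHom.id (A1 k a b) := by
  refine hom1_ext ?_ ?_ ?_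
  · intro c
    rw [RingHom.comp_apply, bc1_b, bc1_b, ← eps0_cst']
    rfl
  · rw [RingHom.comp_apply, bc1_x, bc1_x]
    rfl
  · rw [RingHom.comp_apply, bc1_y, bc1_y]
    rfl

theorem bc2_bc2 : (bc2 (eps0 k) (eps0_cst' a) (eps0_cst' b)).comp (bc2 cst rfl rfl) =
    RingHom.id (A2 k a b) := by
  refine hom2_ext ?_ ?_ ?_
  · intro c
    rw [RingHom.comp_apply, bc2_b, bc2_b, ← eps0_cst']
    rfl
  · rw [RingHom.comp_apply, bc2_z, bc2_z]
    rfl
  · rw [RingHom.comp_apply, bc2_t, bc2_t]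
    rfl

theorem zs_map : zs a b ≫ WX.map cst rfl rfl = 𝟙 (WX k a b) := by
  refine WX.ext' ?_ ?_
  · unfold zs
    rw [WX.in1_map_assoc, WX.in1_map, ← Category.assoc, spMap_comp', bc1_bc1, spMap_id',
      Category.id_comp, Category.comp_id]
  · unfold zs
    rw [WX.in2_map_assoc, WX.in2_map, ← Category.assoc, spMap_comp', bc2_bc2, spMap_id',
      Category.id_comp, Category.comp_id]

theorem zs_pr : zs a b ≫ WX.pr _ _ _ = WX.pr k a b ≫ spMap (eps0 k) := WX.map_pr _ _ _

end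

/-! ## Evaluation on charts -/

section

variable {X : Scheme.{0}}

/-- Evaluation of functions along a morphism from a spectrum. -/
noncomputable def ev {A : Type} [CommRing A] (i : Sp A ⟶ X) (U : X.Opens) (h : ⊤ ≤ i ⁻¹ᵁ U) :
    Γ(X, U) →+* A :=
  (Scheme.ΓSpecIso (CommRingCat.of A)).hom.hom.comp (i.appLE U ⊤ h).hom

theorem ev_eq {A : Type} [CommRing A] {i i' : Sp A ⟶ X} (e : i = i') (U : X.Opens)
    (h : ⊤ ≤ i ⁻¹ᵁ U) (h' : ⊤ ≤ i' ⁻¹ᵁ U) (s : Γ(X, U)) : ev i U h s = ev i' U h' s := by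
  subst e
  rfl

theorem ev_comp {Y : Scheme.{0}} {A : Type} [CommRing A] (j : Sp A ⟶ Y) (f : Y ⟶ X)
    (U : X.Opens) (V : Y.Opens) (hV : V ≤ f ⁻¹ᵁ U) (h : ⊤ ≤ j ⁻¹ᵁ V) (h' : ⊤ ≤ (j ≫ f) ⁻¹ᵁ U)
    (s : Γ(X, U)) : ev j V h ((f.appLE U V hV).hom s) = ev (j ≫ f) U h' s := by
  have h1 := Scheme.Hom.appLE_comp_appLE j f U V ⊤ hV h
  exact congrArg (Scheme.ΓSpecIso (CommRingCat.of A)).hom.hom (ConcreteCategory.congr_hom h1 s)

theorem ev_spMap {A A' : Type} [CommRing A] [CommRing A'] (φ : A →+* A') (i : Sp A ⟶ X)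
    (U : X.Opens) (h : ⊤ ≤ i ⁻¹ᵁ U) (h' : ⊤ ≤ (spMap φ ≫ i) ⁻¹ᵁ U) (s : Γ(X, U)) :
    ev (spMap φ ≫ i) U h' s = φ (ev i U h s) := by
  have h1 := Scheme.Hom.appLE_comp_appLE (spMap φ) i U ⊤ ⊤ h le_top
  have h2 : (spMap φ).appLE ⊤ ⊤ le_top = (spMap φ).appTop := Scheme.Hom.appLE_eq_app _
  have h3 : (Scheme.ΓSpecIso (CommRingCat.of A')).hom.hom
      ((spMap φ).appTop.hom ((i.appLE U ⊤ h).hom s)) = φ (ev i U h s) :=
    ConcreteCategory.congr_hom (Scheme.ΓSpecIso_naturality (CommRingCat.ofHom φ)) _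
  rw [← h3]
  refine congrArg (Scheme.ΓSpecIso (CommRingCat.of A')).hom.hom ?_
  rw [h2] at h1
  exact (ConcreteCategory.congr_hom h1 s).symm

theorem ev_coef {A B : Type} [CommRing A] [CommRing B] (i : Sp A ⟶ X) (U : X.Opens)
    (h : ⊤ ≤ i ⁻¹ᵁ U) (π : X ⟶ Sp B) (γ : B →+* A) (hγ : i ≫ π = spMap γ) (c : B) :
    ev i U h (coef π U c) = γ c := by
  change (Scheme.ΓSpecIso (CommRingCat.of A)).hom.hom ((i.appLE U ⊤ h).hom (coef π U c)) = _
  rw [coef_comp, hγ]
  have h1 : spMap γ = 𝟙 (Sp A) ≫ spMap γ := (Category.id_comp _).symm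
  rw [h1, coef_spMap, coef_eq]
  change ((Scheme.ΓSpecIso (CommRingCat.of A)).inv ≫ (𝟙 (Sp A) : Sp A ⟶ Sp A).appLE ⊤ ⊤ _ ≫
    (Scheme.ΓSpecIso (CommRingCat.of A)).hom) (γ c) = γ c
  have h2 : (𝟙 (Sp A) : Sp A ⟶ Sp A).appLE ⊤ ⊤ le_top = 𝟙 _ := Scheme.Hom.appLE_eq_app _
  rw [h2, Category.id_comp, Iso.inv_hom_id]
  rfl

theorem ev_bij {A : Type} [CommRing A] (i : Sp A ⟶ X) [IsOpenImmersion i] (U : X.Opens)
    (h : ⊤ ≤ i ⁻¹ᵁ U) (hU : U ≤ i.opensRange) : Function.Bijective (ev i U h) := by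
  have h1 : IsIso (i.app U) := i.isIso_app U hU
  have h2 : IsIso (homOfLE h) := ⟨homOfLE le_top, rfl, rfl⟩
  have h3 : IsIso (i.appLE U ⊤ h) := by
    unfold Scheme.Hom.appLE
    infer_instance
  have h4 : IsIso (i.appLE U ⊤ h ≫ (Scheme.ΓSpecIso (CommRingCat.of A)).hom) := inferInstance
  exact ConcreteCategory.bijective_of_isIso
    (i.appLE U ⊤ h ≫ (Scheme.ΓSpecIso (CommRingCat.of A)).hom)

theorem top_le {A : Type} [CommRing A] (i : Sp A ⟶ X) [IsOpenImmersion i] :
    ⊤ ≤ i ⁻¹ᵁ i.opensRange := i.preimage_opensRange.ge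

end

section

variable {k : Type} [Field k] {X : Scheme.{0}} {π : X ⟶ Sp k}

/-- The vector field in a chart. -/
theorem has_chart (Φ : Flow π) {A A' : Type} [CommRing A] [CommRing A'] (i : Sp A ⟶ X)
    [IsOpenImmersion i] (j : Sp A' ⟶ XE π) [IsOpenImmersion j] (β h : A →+* A')
    (γ : Eps k →+* A') (hf : j ≫ pullback.fst _ _ = spMap β ≫ i)
    (hs : j ≫ pullback.snd _ _ = spMap γ) (ht : j ≫ Φ.θ = spMap h ≫ i)
    (hr : VFE.P π i.opensRange ≤ j.opensRange) (s w : Γ(X, i.opensRange))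
    (hsw : h (ev i _ (top_le i) s) =
      β (ev i _ (top_le i) s) + γ (TrivSqZeroExt.inr 1) * β (ev i _ (top_le i) w)) :
    Φ.Has i.opensRange s w := by
  rw [VFE.has_iff]
  have hP : ⊤ ≤ j ⁻¹ᵁ (VFE.P π i.opensRange) := by
    change ⊤ ≤ (j ≫ pullback.fst _ _) ⁻¹ᵁ i.opensRange
    rw [hf]
    intro x _
    exact ⟨spMap β x, rfl⟩
  apply (ev_bij j _ hP hr).1
  have hβ : ∀ v : Γ(X, i.opensRange), ev j _ hP (VFE.fs π i.opensRange v) =
      β (ev i _ (top_le i) v) := by
    intro v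
    have h' : ⊤ ≤ (j ≫ pullback.fst π (spMap (algebraMap k (Eps k)))) ⁻¹ᵁ i.opensRange := hP
    have h'' : ⊤ ≤ (spMap β ≫ i) ⁻¹ᵁ i.opensRange := by rwa [hf] at h'
    refine (ev_comp j _ _ _ _ hP h' v).trans ?_
    rw [ev_eq hf _ h' h'' v, ev_spMap β i _ (top_le i) h'' v]
  have hθ : ev j _ hP (VFE.ts Φ i.opensRange s) = h (ev i _ (top_le i) s) := by
    have h'' : ⊤ ≤ (spMap h ≫ i) ⁻¹ᵁ i.opensRange := fun x _ => ⟨spMap h x, rfl⟩
    have h' : ⊤ ≤ (j ≫ Φ.θ) ⁻¹ᵁ i.opensRange := by rwa [ht]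
    refine (ev_comp j _ _ _ _ hP h' s).trans ?_
    rw [ev_eq ht _ h' h'' s, ev_spMap h i _ (top_le i) h'' s]
  have hε : ev j _ hP (VFE.ee π _) = γ (TrivSqZeroExt.inr 1) :=
    ev_coef j _ hP _ γ hs _
  rw [hθ, map_add, map_mul, hβ, hβ, hε, hsw]

/-- Points at which the vector field does not vanish. -/
theorem nv_chart (Φ : Flow π) {A : Type} [CommRing A] (i : Sp A ⟶ X) [IsOpenImmersion i]
    (s w : Γ(X, i.opensRange)) (h : Φ.Has i.opensRange s w) (q : PrimeSpectrum A)
    (hq : ev i _ (top_le i) w ∉ q.asIdeal) :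
    ∃ (U : X.Opens) (s w : Γ(X, U)), i q ∈ U ∧ IsUnit w ∧ Φ.Has U s w := by
  refine ⟨X.basicOpen w, rs X (X.basicOpen_le w) s, rs X (X.basicOpen_le w) w, ?_,
    X.toRingedSpace.isUnit_res_basicOpen w, VFE.has_res Φ _ h⟩
  have h1 := Scheme.basicOpen_appLE i ⊤ i.opensRange (top_le i) w
  have h2 : (q : Sp A) ∈ (Sp A).basicOpen (i.appLE i.opensRange ⊤ (top_le i) w) := by
    have h3 : i.appLE i.opensRange ⊤ (top_le i) w =
        (Scheme.ΓSpecIso (CommRingCat.of A)).inv (ev i _ (top_le i) w) := by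
      change _ = ((Scheme.ΓSpecIso (CommRingCat.of A)).hom ≫
        (Scheme.ΓSpecIso (CommRingCat.of A)).inv) (i.appLE i.opensRange ⊤ (top_le i) w)
      rw [Iso.hom_inv_id]
      rfl
    rw [h3, basicOpen_eq_of_affine]
    exact hq
  rw [h1] at h2
  exact h2.2

end

end WFL

end Pool.Agent.MG.W


end

section

/-!
# The vector field on a smooth Weierstrass curve (module WFL)
-/

open CategoryTheory CategoryTheory.Limits AlgebraicGeometry TensorProduct

namespace Pool.Agent.MG.W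

namespace WFL

section

variable {k : Type} [Field k] (a b : k)

/-- Base change of the affine chart. -/
noncomputable def b1 : A1 k a b →+* A1 (Eps k) (cst a) (cst b) :=
  bc1 cst (rfl : cst a = cst a) (rfl : cst b = cst b)

/-- Base change of the chart at infinity. -/
noncomputable def b2 : A2 k a b →+* A2 (Eps k) (cst a) (cst b) :=
  bc2 cst (rfl : cst a = cst a) (rfl : cst b = cst b)

/-- The base change morphism. -/
noncomputable def mp : WX (Eps k) (cst a) (cst b) ⟶ WX k a b :=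
  WX.map cst (rfl : cst a = cst a) (rfl : cst b = cst b)

theorem in1_mp : WX.in1 _ _ _ ≫ mp a b = spMap (b1 a b) ≫ WX.in1 k a b :=
  @WX.in1_map k (Eps k) _ _ cst a b (cst a) (cst b) rfl rfl

theorem in2_mp : WX.in2 _ _ _ ≫ mp a b = spMap (b2 a b) ≫ WX.in2 k a b :=
  @WX.in2_map k (Eps k) _ _ cst a b (cst a) (cst b) rfl rfl

theorem zs_mp : zs a b ≫ mp a b = 𝟙 (WX k a b) := zs_map a b

theorem wbc (hWBC : Stmt_WBC) : IsPullback (mp a b)
    (WX.pr (Eps k) (cst a) (cst b)) (WX.pr k a b) (spMap cst) := by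
  have h := @hWBC k (Eps k) _ _ cst a b (cst a) (cst b) rfl rfl
  exact h

/-- The comparison with `X[ε]`. -/
noncomputable def iso (hWBC : Stmt_WBC) : WX (Eps k) (cst a) (cst b) ≅ XE (WX.pr k a b) :=
  (wbc a b hWBC).isoPullback

theorem iso_fst (hWBC : Stmt_WBC) : (iso a b hWBC).hom ≫ pullback.fst _ _ = mp a b :=
  (wbc a b hWBC).isoPullback_hom_fst

theorem iso_snd (hWBC : Stmt_WBC) : (iso a b hWBC).hom ≫ pullback.snd _ _ =
    WX.pr (Eps k) (cst a) (cst b) := (wbc a b hWBC).isoPullback_hom_snd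

/-- The flow. -/
noncomputable def flow (hWBC : Stmt_WBC) : Flow (WX.pr k a b) where
  θ := (iso a b hWBC).inv ≫ th a b
  hπ := by
    rw [Category.assoc, th_pr, ← iso_snd a b hWBC, Category.assoc, Iso.inv_hom_id_assoc]
  h0 z hz1 hz2 := by
    have h1 : z = zs a b ≫ (iso a b hWBC).hom := by
      apply pullback.hom_ext
      · rw [hz1, Category.assoc, iso_fst, zs_mp]
      · rw [hz2, Category.assoc, iso_snd, zs_pr]
    rw [h1, Category.assoc, Iso.hom_inv_id_assoc, zs_th]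

/-- The affine chart of `X[ε]`. -/
noncomputable def j1 (hWBC : Stmt_WBC) : Sp (A1 (Eps k) (cst a) (cst b)) ⟶ XE (WX.pr k a b) :=
  WX.in1 _ _ _ ≫ (iso a b hWBC).hom

/-- The chart at infinity of `X[ε]`. -/
noncomputable def j2 (hWBC : Stmt_WBC) : Sp (A2 (Eps k) (cst a) (cst b)) ⟶ XE (WX.pr k a b) :=
  WX.in2 _ _ _ ≫ (iso a b hWBC).hom

instance (hWBC : Stmt_WBC) : IsOpenImmersion (j1 a b hWBC) := by
  unfold j1
  infer_instance

instance (hWBC : Stmt_WBC) : IsOpenImmersion (j2 a b hWBC) := by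
  unfold j2
  infer_instance

theorem j1_fst (hWBC : Stmt_WBC) : j1 a b hWBC ≫ pullback.fst _ _ =
    spMap (b1 a b) ≫ WX.in1 k a b := by
  unfold j1
  rw [Category.assoc, iso_fst, in1_mp]

theorem j1_snd (hWBC : Stmt_WBC) : j1 a b hWBC ≫ pullback.snd _ _ =
    spMap (algebraMap (Eps k) _) := by
  unfold j1
  rw [Category.assoc, iso_snd, WX.in1_pr]

theorem j1_th (hWBC : Stmt_WBC) : j1 a b hWBC ≫ (flow a b hWBC).θ =
    spMap (h1 a b) ≫ WX.in1 k a b := by
  change (WX.in1 _ _ _ ≫ (iso a b hWBC).hom) ≫ (iso a b hWBC).inv ≫ th a b = _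
  rw [Category.assoc, Iso.hom_inv_id_assoc, in1_th]

theorem j2_fst (hWBC : Stmt_WBC) : j2 a b hWBC ≫ pullback.fst _ _ =
    spMap (b2 a b) ≫ WX.in2 k a b := by
  unfold j2
  rw [Category.assoc, iso_fst, in2_mp]

theorem j2_snd (hWBC : Stmt_WBC) : j2 a b hWBC ≫ pullback.snd _ _ =
    spMap (algebraMap (Eps k) _) := by
  unfold j2
  rw [Category.assoc, iso_snd, WX.in2_pr]

theorem j2_th (hWBC : Stmt_WBC) : j2 a b hWBC ≫ (flow a b hWBC).θ =
    spMap (h2 a b) ≫ WX.in2 k a b := by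
  change (WX.in2 _ _ _ ≫ (iso a b hWBC).hom) ≫ (iso a b hWBC).inv ≫ th a b = _
  rw [Category.assoc, Iso.hom_inv_id_assoc, in2_th]

theorem isWF (hWBC : Stmt_WBC) : IsWF (flow a b hWBC) := by
  refine ⟨h1 a b, h1_b a b, h1_x a b, h1_y a b, ?_⟩
  intro e he1 he2
  have h : e = j1 a b hWBC := by
    apply pullback.hom_ext
    · exact he1.trans (j1_fst a b hWBC).symm
    · rw [he2, j1_snd]
  rw [h, j1_th]


theorem z0_eq (hWBC : Stmt_WBC) : VFE.z0 (WX.pr k a b) = zs a b ≫ (iso a b hWBC).hom := by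
  apply pullback.hom_ext
  · rw [VFE.z0_fst, Category.assoc, iso_fst, zs_mp]
  · rw [VFE.z0_snd, Category.assoc, iso_snd, zs_pr]

theorem P_le {X : Scheme.{0}} {π : X ⟶ Sp k} {A A' : Type} [CommRing A] [CommRing A']
    (i : Sp A ⟶ X) [IsOpenImmersion i] (j : Sp A' ⟶ XE π) [IsOpenImmersion j]
    (zc : Sp A ⟶ Sp A') (h : i ≫ VFE.z0 π = zc ≫ j) :
    VFE.P π i.opensRange ≤ j.opensRange := by
  intro x hx
  obtain ⟨y, rfl⟩ := (VFE.thk π).r.f.surjective x
  have h1 : (VFE.z0 π ≫ pullback.fst π (spMap (algebraMap k (Eps k)))) y ∈ i.opensRange := hx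
  rw [VFE.z0_fst] at h1
  obtain ⟨q, hq⟩ := h1
  have hq' : i q = y := hq
  refine ⟨zc q, ?_⟩
  change j (zc q) = VFE.z0 π y
  rw [← hq', ← Scheme.Hom.comp_apply, ← Scheme.Hom.comp_apply, h]

theorem le1 (hWBC : Stmt_WBC) : VFE.P (WX.pr k a b) (WX.in1 k a b).opensRange ≤
    (j1 a b hWBC).opensRange := by
  refine P_le (WX.in1 k a b) (j1 a b hWBC)
    (spMap (bc1 (eps0 k) (eps0_cst' a) (eps0_cst' b))) ?_
  rw [z0_eq a b hWBC]
  unfold zs j1
  rw [WX.in1_map_assoc]

theorem le2 (hWBC : Stmt_WBC) : VFE.P (WX.pr k a b) (WX.in2 k a b).opensRange ≤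
    (j2 a b hWBC).opensRange := by
  refine P_le (WX.in2 k a b) (j2 a b hWBC)
    (spMap (bc2 (eps0 k) (eps0_cst' a) (eps0_cst' b))) ?_
  rw [z0_eq a b hWBC]
  unfold zs j2
  rw [WX.in2_map_assoc]

theorem has1 (hWBC : Stmt_WBC) (v w : A1 k a b)
    (h : h1 a b v = b1 a b v + e1 a b * b1 a b w) (q : PrimeSpectrum (A1 k a b))
    (hq : w ∉ q.asIdeal) : ∃ (U : (WX k a b).Opens) (s w : Γ(WX k a b, U)),
      WX.in1 k a b q ∈ U ∧ IsUnit w ∧ (flow a b hWBC).Has U s w := by
  obtain ⟨s, hs⟩ := (ev_bij (WX.in1 k a b) _ (top_le _) le_rfl).2 v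
  obtain ⟨t, ht⟩ := (ev_bij (WX.in1 k a b) _ (top_le _) le_rfl).2 w
  refine nv_chart (flow a b hWBC) (WX.in1 k a b) s t ?_ q (by rwa [ht])
  refine has_chart (flow a b hWBC) (WX.in1 k a b) (j1 a b hWBC) (b1 a b) (h1 a b)
    (algebraMap (Eps k) _) (j1_fst a b hWBC) (j1_snd a b hWBC) (j1_th a b hWBC)
    (le1 a b hWBC) s t ?_
  rw [hs, ht]
  exact h

theorem has2 (hWBC : Stmt_WBC) (v w : A2 k a b)
    (h : h2 a b v = b2 a b v + e2 a b * b2 a b w) (q : PrimeSpectrum (A2 k a b))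
    (hq : w ∉ q.asIdeal) : ∃ (U : (WX k a b).Opens) (s w : Γ(WX k a b, U)),
      WX.in2 k a b q ∈ U ∧ IsUnit w ∧ (flow a b hWBC).Has U s w := by
  obtain ⟨s, hs⟩ := (ev_bij (WX.in2 k a b) _ (top_le _) le_rfl).2 v
  obtain ⟨t, ht⟩ := (ev_bij (WX.in2 k a b) _ (top_le _) le_rfl).2 w
  refine nv_chart (flow a b hWBC) (WX.in2 k a b) s t ?_ q (by rwa [ht])
  refine has_chart (flow a b hWBC) (WX.in2 k a b) (j2 a b hWBC) (b2 a b) (h2 a b)
    (algebraMap (Eps k) _) (j2_fst a b hWBC) (j2_snd a b hWBC) (j2_th a b hWBC)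
    (le2 a b hWBC) s t ?_
  rw [hs, ht]
  exact h

theorem b1_x : b1 a b (x1 k a b) = x1 _ _ _ := bc1_x _ _ _

theorem b1_y : b1 a b (y1 k a b) = y1 _ _ _ := bc1_y _ _ _

theorem b1_b (c : k) : b1 a b (algebraMap k _ c) = algebraMap (Eps k) _ (cst c) := bc1_b _ _ _ _

theorem b2_z : b2 a b (z2 k a b) = z2 _ _ _ := bc2_z _ _ _

theorem b2_t : b2 a b (t2 k a b) = t2 _ _ _ := bc2_t _ _ _

theorem b2_b (c : k) : b2 a b (algebraMap k _ c) = algebraMap (Eps k) _ (cst c) := bc2_b _ _ _ _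

theorem at_x : h1 a b (x1 k a b) = b1 a b (x1 k a b) + e1 a b * b1 a b (2 * y1 k a b) := by
  rw [h1_x, b1_x, map_mul, b1_y, map_ofNat]

theorem at_y : h1 a b (y1 k a b) = b1 a b (y1 k a b) +
    e1 a b * b1 a b (3 * x1 k a b ^ 2 + algebraMap k _ a) := by
  rw [h1_y, b1_y, map_add, map_mul, map_pow, b1_x, map_ofNat, b1_b]

theorem at_z : h2 a b (z2 k a b) = b2 a b (z2 k a b) + e2 a b * b2 a b
    (dz (algebraMap k _ a) (algebraMap k _ b) (z2 k a b) (t2 k a b)) := by
  rw [h2_z, b2_z]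
  unfold dz
  simp only [map_add, map_mul, map_pow, map_neg, map_one, map_ofNat, b2_b, b2_z, b2_t]

/-- The vector field does not vanish on the affine chart. -/
theorem aff_nv (h6 : (6 : k) ≠ 0) (hD : 4 * a ^ 3 + 27 * b ^ 2 ≠ 0)
    (q : PrimeSpectrum (A1 k a b)) :
    2 * y1 k a b ∉ q.asIdeal ∨ 3 * x1 k a b ^ 2 + algebraMap k _ a ∉ q.asIdeal := by
  by_contra hcon
  push Not at hcon
  obtain ⟨hy, hx⟩ := hcon
  have hu : ∀ c : k, c ≠ 0 → algebraMap k (A1 k a b) c ∉ q.asIdeal := fun c hc hm =>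
    q.2.ne_top (Ideal.eq_top_of_isUnit_mem _ hm ((IsUnit.mk0 c hc).map _))
  have h2 : (2 : k) ≠ 0 := by
    intro h
    apply h6
    linear_combination 3 * h
  have h2' : (2 : A1 k a b) ∉ q.asIdeal := by
    have := hu 2 h2
    rwa [map_ofNat] at this
  have hy' : y1 k a b ∈ q.asIdeal := (q.2.mem_or_mem hy).resolve_left h2'
  have hrel := rel1 k a b
  apply hu _ hD
  have e : algebraMap k (A1 k a b) (4 * a ^ 3 + 27 * b ^ 2) =
      4 * algebraMap k _ a ^ 3 + 27 * algebraMap k _ b ^ 2 := by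
    simp only [map_add, map_mul, map_pow, map_ofNat]
  rw [e]
  have e2 : 4 * algebraMap k (A1 k a b) a ^ 3 + 27 * algebraMap k _ b ^ 2 =
      (4 * algebraMap k _ a ^ 2 + (6 * algebraMap k _ a * x1 k a b - 9 * algebraMap k _ b) *
        x1 k a b) * (3 * x1 k a b ^ 2 + algebraMap k _ a) +
      (-3 * (6 * algebraMap k _ a * x1 k a b - 9 * algebraMap k _ b) * y1 k a b) * y1 k a b := by
    linear_combination (3 * (6 * algebraMap k _ a * x1 k a b - 9 * algebraMap k _ b)) * hrel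
  rw [e2]
  exact q.asIdeal.add_mem (q.asIdeal.mul_mem_left _ hx) (q.asIdeal.mul_mem_left _ hy')

theorem nv_in1 (hWBC : Stmt_WBC) (h6 : (6 : k) ≠ 0) (hD : 4 * a ^ 3 + 27 * b ^ 2 ≠ 0)
    (q : PrimeSpectrum (A1 k a b)) : ∃ (U : (WX k a b).Opens) (s w : Γ(WX k a b, U)),
      WX.in1 k a b q ∈ U ∧ IsUnit w ∧ (flow a b hWBC).Has U s w := by
  rcases aff_nv a b h6 hD q with h | h
  · exact has1 a b hWBC _ _ (at_x a b) q h
  · exact has1 a b hWBC _ _ (at_y a b) q h

theorem nv (hWBC : Stmt_WBC) (h6 : (6 : k) ≠ 0) (hD : 4 * a ^ 3 + 27 * b ^ 2 ≠ 0) :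
    (flow a b hWBC).NV := by
  intro p
  rcases glue2_surj (spMap (g1 k a b)) (spMap (g2 k a b)) p with ⟨q, hq⟩ | ⟨q, hq⟩
  · have hq' : WX.in1 k a b q = p := hq
    rw [← hq']
    exact nv_in1 a b hWBC h6 hD q
  · have hq' : WX.in2 k a b q = p := hq
    rw [← hq']
    by_cases hz : z2 k a b ∈ (show PrimeSpectrum (A2 k a b) from q).asIdeal
    · refine has2 a b hWBC _ _ (at_z a b) q ?_
      intro hd
      have h1 : (1 : A2 k a b) = -dz (algebraMap k _ a) (algebraMap k _ b) (z2 k a b)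
          (t2 k a b) + (2 * algebraMap k _ a * z2 k a b ^ 3 * t2 k a b +
            3 * algebraMap k _ b * z2 k a b ^ 5 * t2 k a b ^ 2) * z2 k a b := by
        unfold dz
        ring
      have h2 : (1 : A2 k a b) ∈ (show PrimeSpectrum (A2 k a b) from q).asIdeal := by
        rw [h1]
        exact Ideal.add_mem _ (neg_mem hd) (Ideal.mul_mem_left _ _ hz)
      exact (show PrimeSpectrum (A2 k a b) from q).2.ne_top ((Ideal.eq_top_iff_one _).2 h2)
    · have h1 : (show PrimeSpectrum (A2 k a b) from q) ∈ Set.range (PrimeSpectrum.comap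
          (algebraMap (A2 k a b) (A12 k a b))) := by
        rw [PrimeSpectrum.localization_away_comap_range (A12 k a b) (z2 k a b)]
        exact hz
      obtain ⟨r, hr⟩ := h1
      have h2 : (spMap (g2 k a b)) r = q := hr
      have h3 : WX.in2 k a b q = WX.in1 k a b (spMap (g1 k a b) r) := by
        rw [← h2, ← Scheme.Hom.comp_apply, ← Scheme.Hom.comp_apply]
        have h4 : spMap (g2 k a b) ≫ WX.in2 k a b = spMap (g1 k a b) ≫ WX.in1 k a b :=
          (pushout.condition (f := spMap (g1 k a b)) (g := spMap (g2 k a b))).symm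
        rw [h4]
      rw [h3]
      exact nv_in1 a b hWBC h6 hD _

end

end WFL

/-- WFL: the vector field on a smooth Weierstrass curve vanishes nowhere. -/
theorem t_WFL (hWBC : Stmt_WBC) : Stmt_WFL := by
  intro k _ a b h6 hD
  exact ⟨WFL.flow a b hWBC, WFL.isWF a b hWBC, WFL.nv a b hWBC h6 hD⟩

end Pool.Agent.MG.W


end

section

/-!
# WTS: the weights
-/

open CategoryTheory CategoryTheory.Limits AlgebraicGeometry TensorProduct

namespace Pool.Agent.MG.W

namespace WTS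

variable {k : Type} [Field k] [IsAlgClosed k]

/-- Polynomials which agree at almost all points are equal. -/
theorem eq_of_eval (D : Polynomial k) (hD : D ≠ 0) (A B : Polynomial k)
    (h : ∀ u : k, u ≠ 0 → D.eval u ≠ 0 → A.eval u = B.eval u) : A = B := by
  have h1 : (A - B) * (Polynomial.X * D) = 0 := by
    apply Polynomial.funext
    intro u
    rw [Polynomial.eval_mul, Polynomial.eval_sub, Polynomial.eval_mul, Polynomial.eval_X,
      Polynomial.eval_zero]
    by_cases hu : u = 0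
    · rw [hu]
      ring
    by_cases hd : D.eval u = 0
    · rw [hd]
      ring
    · rw [h u hu hd]
      ring
  have h2 : (Polynomial.X * D : Polynomial k) ≠ 0 := mul_ne_zero Polynomial.X_ne_zero hD
  exact sub_eq_zero.1 ((mul_eq_zero.1 h1).resolve_right h2)

/-- One variable: `p(u⁻¹ ^ 6) = p'(u)` for almost all `u` forces both sides to be constant. -/
theorem one_var (D : Polynomial k) (hD : D ≠ 0) (p p' : Polynomial k)
    (h : ∀ u : k, u ≠ 0 → D.eval u ≠ 0 → p.eval (u⁻¹ ^ 6) = p'.eval u) :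
    p = Polynomial.C (p'.eval 0) ∧ p' = Polynomial.C (p'.eval 0) := by
  have h1 : Polynomial.expand k 6 p.reverse = Polynomial.X ^ (6 * p.natDegree) * p' := by
    apply eq_of_eval D hD
    intro u hu hd
    have hx : (u⁻¹ ^ 6 : k) ≠ 0 := pow_ne_zero _ (inv_ne_zero hu)
    let _ : Invertible (u⁻¹ ^ 6 : k) := invertibleOfNonzero hx
    have h2 := Polynomial.eval₂_reverse_mul_pow (RingHom.id k) (u⁻¹ ^ 6 : k) p
    rw [invOf_eq_inv, ← inv_pow, inv_inv] at h2
    have h3 : Polynomial.eval (u ^ 6) p.reverse * (u⁻¹ ^ 6) ^ p.natDegree = p'.eval u := by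
      rw [← h u hu hd]
      exact h2
    rw [Polynomial.expand_eval, Polynomial.eval_mul, Polynomial.eval_pow, Polynomial.eval_X,
      ← h3, inv_pow, inv_pow, pow_mul]
    have h4 : ((u ^ 6) ^ p.natDegree : k) ≠ 0 := pow_ne_zero _ (pow_ne_zero _ hu)
    field_simp
  have h2 : p.natDegree = 0 := by
    by_contra hn
    have h3 := congrArg (Polynomial.eval 0) h1
    rw [Polynomial.expand_eval, Polynomial.eval_mul, Polynomial.eval_pow, Polynomial.eval_X,
      zero_pow (by norm_num : (6 : ℕ) ≠ 0), zero_pow (by omega : 6 * p.natDegree ≠ 0), zero_mul,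
      ← Polynomial.coeff_zero_eq_eval_zero, Polynomial.coeff_zero_reverse,
      Polynomial.leadingCoeff_eq_zero] at h3
    rw [h3] at hn
    exact hn Polynomial.natDegree_zero
  obtain ⟨c, hc⟩ : ∃ c, p = Polynomial.C c := ⟨_, Polynomial.eq_C_of_natDegree_eq_zero h2⟩
  subst hc
  have h3 : p' = Polynomial.C c := by
    symm
    apply eq_of_eval D hD
    intro u hu hd
    rw [← h u hu hd, Polynomial.eval_C, Polynomial.eval_C]
  subst h3
  simp

omit [IsAlgClosed k] in
theorem eval_aeval {σ : Type} (f : σ → Polynomial k) (q : MvPolynomial σ k) (t : k) :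
    Polynomial.eval t (MvPolynomial.aeval f q) =
      MvPolynomial.eval (fun o => Polynomial.eval t (f o)) q := by
  have h1 := MvPolynomial.comp_aeval_apply (f := f) (Polynomial.aeval (R := k) t) q
  have h2 : ∀ r : Polynomial k, Polynomial.aeval t r = Polynomial.eval t r := fun r => by
    rw [Polynomial.coe_aeval_eq_eval]
  simp only [h2] at h1
  rw [h1]
  rfl

end WTS

open _root_.Pool.Agent.MG.W.WTS in
/-- WTS: the weights. -/
theorem t_WTS : Stmt_WTS := by
  intro k _ _ m q q' D hD h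
  set c : k := MvPolynomial.eval (fun o : Option (Fin m) => o.elim (0 : k) (fun _ => 0)) q' with hc
  have key : ∀ (ν : Fin m → k), (∀ t : k, MvPolynomial.eval (fun o => o.elim t ν) q = c) ∧
      ∀ u : k, MvPolynomial.eval (fun o => o.elim (u ^ 4) (fun i => u * ν i)) q' = c := by
    intro ν
    set p : Polynomial k := MvPolynomial.aeval
      (fun o : Option (Fin m) => o.elim (Polynomial.X : Polynomial k)
        (fun i => Polynomial.C (ν i))) q with hp
    set p' : Polynomial k := MvPolynomial.aeval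
      (fun o : Option (Fin m) => o.elim (Polynomial.X ^ 4 : Polynomial k)
        (fun i => Polynomial.X * Polynomial.C (ν i))) q' with hp'
    have e1 : ∀ t : k, p.eval t = MvPolynomial.eval (fun o => o.elim t ν) q := by
      intro t
      rw [hp, eval_aeval]
      congr 2
      funext o
      cases o <;> simp
    have e2 : ∀ t : k, p'.eval t =
        MvPolynomial.eval (fun o => o.elim (t ^ 4) (fun i => t * ν i)) q' := by
      intro t
      rw [hp', eval_aeval]
      congr 2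
      funext o
      cases o with
      | none =>
        show Polynomial.eval t (Polynomial.X ^ 4) = t ^ 4
        rw [Polynomial.eval_pow, Polynomial.eval_X]
      | some i =>
        show Polynomial.eval t (Polynomial.X * Polynomial.C (ν i)) = t * ν i
        rw [Polynomial.eval_mul, Polynomial.eval_X, Polynomial.eval_C]
    have e3 : p'.eval 0 = c := by
      rw [e2, hc]
      congr 2
      funext o
      cases o <;> simp
    obtain ⟨h1, h2⟩ := one_var D hD p p' (fun u hu hd => by rw [e1, e2]; exact h u ν hu hd)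
    rw [e3] at h1 h2
    constructor
    · intro t
      rw [← e1, h1, Polynomial.eval_C]
    · intro u
      rw [← e2, h2, Polynomial.eval_C]
  refine ⟨c, ?_, ?_⟩
  · apply MvPolynomial.funext
    intro x
    rw [MvPolynomial.eval_C, ← (key (fun i => x (some i))).1 (x none)]
    congr 2
    funext o
    cases o <;> rfl
  · have h1 : (q' - MvPolynomial.C c) * MvPolynomial.X none = 0 := by
      apply MvPolynomial.funext
      intro x
      rw [map_mul, map_sub, MvPolynomial.eval_C, MvPolynomial.eval_X, map_zero]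
      by_cases hx : x none = 0
      · rw [hx, mul_zero]
      obtain ⟨u, hu⟩ := IsAlgClosed.exists_pow_nat_eq (x none) (n := 4) (by norm_num)
      have hu0 : u ≠ 0 := by
        rintro rfl
        exact hx (by rw [← hu]; norm_num)
      have h2 := (key (fun i => u⁻¹ * x (some i))).2 u
      have h3 : (fun o : Option (Fin m) => o.elim (u ^ 4) (fun i => u * (u⁻¹ * x (some i)))) =
          x := by
        funext o
        cases o with
        | none => exact hu
        | some i =>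
          show u * (u⁻¹ * x (some i)) = x (some i)
          rw [← mul_assoc, mul_inv_cancel₀ hu0, one_mul]
      rw [h3] at h2
      rw [h2, sub_self, zero_mul]
    have h2 := (mul_eq_zero.1 h1).resolve_right (MvPolynomial.X_ne_zero _)
    exact sub_eq_zero.1 h2

end Pool.Agent.MG.W


end

section

/-!
# ZPL: every discrete valuation ring is a place with smooth or nodal reduction
-/

open Polynomial

namespace Pool.Agent.MG.G0

namespace ZPLm

section aux

variable {k O : Type} [Field k] [CommRing O] [IsDomain O] [IsDiscreteValuationRing O]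
  [Algebra k O]

theorem unit_of (rs : O →ₐ[k] k) (hrs : ∀ x, rs x = 0 ↔ x ∈ IsLocalRing.maximalIdeal O)
    {x : O} (hx : rs x ≠ 0) : IsUnit x := by
  by_contra h
  exact hx ((hrs x).2 ((IsLocalRing.mem_maximalIdeal x).2 h))

theorem resAC [IsAlgClosed k] (rs : O →ₐ[k] k)
    (hrs : ∀ x, rs x = 0 ↔ x ∈ IsLocalRing.maximalIdeal O) :
    IsAlgClosed (IsLocalRing.ResidueField O) := by
  have hb : Function.Bijective
      ((IsLocalRing.residue O).comp (algebraMap k O)) := by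
    refine ⟨RingHom.injective _, fun y => ?_⟩
    obtain ⟨x, rfl⟩ := IsLocalRing.residue_surjective y
    refine ⟨rs x, ?_⟩
    rw [RingHom.comp_apply, ← sub_eq_zero, ← map_sub, IsLocalRing.residue_eq_zero_iff, ← hrs,
      map_sub, AlgHom.commutes, Algebra.algebraMap_self_apply, sub_self]
  exact IsAlgClosed.of_ringEquiv k _ (RingEquiv.ofBijective _ hb)

theorem nilp {x : O} (hx : x ≠ 0) (m : ℕ) (y : O) (hy : y ∈ IsLocalRing.maximalIdeal O) :
    IsNilpotent (Ideal.Quotient.mk (Ideal.span {x ^ m}) y) := by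
  obtain ⟨ϖ, hϖ⟩ := IsDiscreteValuationRing.exists_irreducible O
  have h0 : Ideal.span {x ^ m} ≠ ⊥ := by
    rw [Ne, Ideal.span_singleton_eq_bot]
    exact pow_ne_zero m hx
  obtain ⟨n, hn⟩ := IsDiscreteValuationRing.ideal_eq_span_pow_irreducible h0 hϖ
  refine ⟨n, ?_⟩
  rw [← map_pow, Ideal.Quotient.eq_zero_iff_mem, hn, Ideal.mem_span_singleton]
  rw [(IsDiscreteValuationRing.irreducible_iff_uniformizer ϖ).1 hϖ,
    Ideal.mem_span_singleton] at hy
  exact pow_dvd_pow_of_dvd hy n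

end aux

section pol

theorem prod_split {A : Type} [CommRing A] {b : ℕ} (ρ : Fin b → A) {l m : Fin b} (hlm : l ≠ m) :
    ∏ i, (X - C (ρ i)) = (X - C (ρ l)) * (X - C (ρ m)) *
      ∏ i ∈ (Finset.univ.erase l).erase m, (X - C (ρ i)) := by
  rw [mul_assoc, Finset.mul_prod_erase (Finset.univ.erase l) (fun i => X - C (ρ i))
    (Finset.mem_erase.2 ⟨hlm.symm, Finset.mem_univ m⟩),
    Finset.mul_prod_erase Finset.univ (fun i => X - C (ρ i)) (Finset.mem_univ l)]

variable {k : Type} [Field k] {b : ℕ} {ρ : Fin b → k} {l m : Fin b}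

theorem eval_ne (hρ : ∀ i j : Fin b, ρ i = ρ j → i = j ∨ (i = l ∧ j = m) ∨ (i = m ∧ j = l)) :
    (∏ i ∈ (Finset.univ.erase l).erase m, (X - C (ρ i))).eval (ρ l) ≠ 0 := by
  rw [eval_prod, Finset.prod_ne_zero_iff]
  intro i hi
  rw [Finset.mem_erase, Finset.mem_erase] at hi
  rw [eval_sub, eval_X, eval_C, sub_ne_zero]
  intro h
  rcases hρ i l h.symm with h1 | h1 | h1
  · exact hi.2.1 h1
  · exact hi.2.1 h1.1
  · exact hi.1 h1.1

theorem sep_h (hρ : ∀ i j : Fin b, ρ i = ρ j → i = j ∨ (i = l ∧ j = m) ∨ (i = m ∧ j = l)) :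
    (∏ i ∈ (Finset.univ.erase l).erase m, (X - C (ρ i))).Separable := by
  rw [separable_prod_X_sub_C_iff']
  intro i hi j hj hij
  rw [Finset.mem_erase, Finset.mem_erase] at hi hj
  rcases hρ i j hij with h1 | h1 | h1
  · exact h1
  · exact absurd h1.1 hi.2.1
  · exact absurd h1.1 hi.1

theorem dbl (hlm : l ≠ m) (hc : ρ l = ρ m)
    (hρ : ∀ i j : Fin b, ρ i = ρ j → i = j ∨ (i = l ∧ j = m) ∨ (i = m ∧ j = l)) :
    Dbl (∏ i, (X - C (ρ i))) (ρ l) := by
  refine ⟨∏ i ∈ (Finset.univ.erase l).erase m, (X - C (ρ i)), ?_, eval_ne hρ, sep_h hρ⟩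
  rw [prod_split ρ hlm, ← hc, sq]

theorem not_sq {f : k[X]} {c₀ c : k} (hf : Dbl f c₀) (hc : c ≠ c₀) : ¬ (X - C c) ^ 2 ∣ f := by
  obtain ⟨h, rfl, -, hs⟩ := hf
  intro hd
  have hcop : IsCoprime ((X - C c) ^ 2) ((X - C c₀) ^ 2) :=
    (isCoprime_X_sub_C_of_isUnit_sub (sub_ne_zero.2 hc).isUnit).pow
  have h1 : (X - C c) ^ 2 ∣ h := hcop.dvd_of_dvd_mul_left hd
  rw [sq] at h1
  exact not_isUnit_X_sub_C c (hs.squarefree _ h1)

end pol

section mdl

variable {k L O : Type} [Field k] [Field L] [CommRing O] [IsDomain O]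
  [IsDiscreteValuationRing O] [Algebra k O] [Algebra O L] [IsFractionRing O L] {g d b : ℕ}
  {R : Subalgebra L (LaurentSeries L)}

omit [IsDiscreteValuationRing O] [IsFractionRing O L] in
theorem fb_eq (M : Mdl k O L g d R) {rs : O →ₐ[k] k} {r : Fin b → O} (h1 : M.rs = rs)
    (h2 : M.f = ∏ l, (X - C (r l))) : M.fb = ∏ l, (X - C (rs (r l))) := by
  rw [Mdl.fb, h1, h2, Polynomial.map_prod]
  refine Finset.prod_congr rfl fun l _ => ?_
  rw [Polynomial.map_sub, Polynomial.map_X, Polynomial.map_C]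
  rfl

theorem caseSep [IsAlgClosed k] (hZPM : Stmt_ZPM) (rs : O →ₐ[k] k) (r : Fin b → O) (hd : 0 < d)
    (hdf : ((d.factorial : ℕ) : k) ≠ 0) (hb : b + 1 = 2 * g + d)
    (hrs : ∀ x, rs x = 0 ↔ x ∈ IsLocalRing.maximalIdeal O) (hkr : Kr g R) (hz : zz L d ∈ R)
    (hri : Function.Injective r) (hdisc : Disc d R (∏ l, (X - C (algebraMap O L (r l)))))
    (hinj : Function.Injective fun l => rs (r l)) : ∃ M : Mdl k O L g d R, M.Smo := by
  obtain ⟨ϖ, hϖ⟩ := IsDiscreteValuationRing.exists_irreducible O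
  obtain ⟨M, h1, h2, h3, h4, h5, h6, h7⟩ := hZPM rs ϖ r hd hdf hb hrs hϖ hkr hz hri hdisc
  refine ⟨M, Or.inl ?_⟩
  rw [fb_eq M h1 h4, separable_prod_X_sub_C_iff]
  exact hinj

theorem node [IsAlgClosed k] (hZL : Stmt_ZL) (hCYC : Stmt_CYC) (hZBR : Stmt_ZBR)
    (hZPM : Stmt_ZPM) (hZGR : Stmt_ZGR) (rs : O →ₐ[k] k)
    (hrs : ∀ x, rs x = 0 ↔ x ∈ IsLocalRing.maximalIdeal O) (hkr : Kr g R) (hz : zz L d ∈ R)
    (hd : 2 ≤ d) (hdf : ((d.factorial : ℕ) : k) ≠ 0) (hb : b + 1 = 2 * g + d)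
    (β α : Fin b → k) (t : O) (r : Fin b → O)
    (hr : ∀ l, r l = algebraMap k O (β l) + t ^ d * algebraMap k O (α l))
    (hri : Function.Injective r) (hdisc : Disc d R (∏ l, (X - C (algebraMap O L (r l)))))
    (ht : rs t ≠ 0) (hx : t - algebraMap k O (rs t) ≠ 0) (hα : Function.Injective α)
    (l m : Fin b) (hlm : l ≠ m) (hcol : rs (r l) = rs (r m))
    (huniq : ∀ i j : Fin b, rs (r i) = rs (r j) → i = j ∨ (i = l ∧ j = m) ∨ (i = m ∧ j = l))
    (hmin : ∀ M : Subfield L, (∀ c : k, algebraMap O L (algebraMap k O c) ∈ M) →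
      algebraMap O L t ∈ M → ∀ T : Subalgebra M (LaurentSeries M), Kr g T → zz M d ∈ T →
        bc1 M.subtype T = R → M = ⊤) :
    ∃ M : Mdl k O L g d R, M.Smo ∨ M.Nod := by
  have hd0 : 0 < d := by omega
  have hdk : ((d : ℕ) : k) ≠ 0 := by
    obtain ⟨c, hc⟩ := Nat.dvd_factorial hd0 (le_refl d)
    intro h0
    apply hdf
    rw [hc, Nat.cast_mul, h0, zero_mul]
  have h2k : ((2 : ℕ) : k) ≠ 0 := by
    obtain ⟨c, hc⟩ := Nat.dvd_factorial (by norm_num : 0 < 2) hd
    intro h0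
    apply hdf
    rw [hc, Nat.cast_mul, h0, zero_mul]
  have h2dk : ((2 * d : ℕ) : k) ≠ 0 := by
    rw [Nat.cast_mul]
    exact mul_ne_zero h2k hdk
  obtain ⟨ϖ, hϖ⟩ := IsDiscreteValuationRing.exists_irreducible O
  obtain ⟨M, h1, h2, h3, h4, h5, h6, h7⟩ := hZPM rs ϖ r hd0 hdf hb hrs hϖ hkr hz hri hdisc
  have hfb := fb_eq M h1 h4
  have hD : Dbl M.fb (rs (r l)) := by
    rw [hfb]
    exact dbl hlm hcol huniq
  have hD' := hD
  obtain ⟨e, G, he, hG, u, hu, hdet⟩ := h5
  obtain ⟨hg1, hg2⟩ := hZGR G u _ hd hu hdet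
  obtain ⟨h, hh1, hh2, hh3⟩ := hD'
  rcases hg2 (rs (r l)) h hh1 hh2 with hrk | hrk
  · have hcyc : Cyc d (bc1 (rs : O →+* k) M.P) := by
      have hPb : M.Pb = bc1 (rs : O →+* k) M.P := by
        rw [Mdl.Pb, h1]
      rw [← hPb]
      obtain ⟨u0, hu0, rfl⟩ := Polynomial.isUnit_iff.1 hu
      refine (hCYC hd0 hdk M.Pb h6 h7).1 e G he hG u0 (Finset.univ.val.map fun i => rs (r i))
        ?_ ?_
      · rw [hdet, hfb, Multiset.map_map]
        rfl
      · intro c hc
        by_cases hcc : c = rs (r l)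
        · rw [hcc, hrk]
          omega
        · exact hg1 c (not_sq hD hcc)
    have hmax : IsLocalRing.maximalIdeal O = Ideal.span {t - algebraMap k O (rs t)} := by
      refine hZBR (L := L) (g := g) hd0 h2dk rs (t - algebraMap k O (rs t)) ?_ hx
        (∏ l, (X - C (C (β l) + (X + C (rs t)) ^ d * C (α l))))
        (monic_prod_X_sub_C _ _) M.P M.kr M.z ?_ hcyc ?_
      · rw [map_sub, AlgHom.commutes, Algebra.algebraMap_self_apply, sub_self]
      · intro n
        have : IsAlgClosed (IsLocalRing.ResidueField O) := resAC rs hrs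
        have hF : ((∏ l, (X - C (C (β l) + (X + C (rs t)) ^ d * C (α l))) : (k[X])[X]).map
            (aeval (R := k) (t - algebraMap k O (rs t))).toRingHom) = ∏ l, (X - C (r l)) := by
          rw [Polynomial.map_prod]
          refine Finset.prod_congr rfl fun i _ => ?_
          rw [Polynomial.map_sub, Polynomial.map_X, Polynomial.map_C, hr i]
          simp
        rw [hF, h3]
        have hun : IsUnit ((d.factorial : ℕ) : O) := by
          apply unit_of rs hrs
          rw [map_natCast]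
          exact hdf
        refine (hZL O L g d R (∏ l, (X - C (r l))) hd0 hun hkr hz (monic_prod_X_sub_C _ _)
          ?_).2.2.2 _ _ fun y hy => nilp hx n y hy
        rw [Polynomial.map_prod]
        simpa only [Polynomial.map_sub, Polynomial.map_X, Polynomial.map_C] using hdisc
      · intro M' hM1 hM2 T hT1 hT2 hT3
        refine hmin M' hM1 ?_ T hT1 hT2 (hT3.trans M.bc)
        have e1 : algebraMap O L t = algebraMap O L (t - algebraMap k O (rs t)) +
            algebraMap O L (algebraMap k O (rs t)) := by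
          rw [← map_add, sub_add_cancel]
        rw [e1]
        exact add_mem hM2 (hM1 _)
    have hxi : Irreducible (t - algebraMap k O (rs t)) :=
      (IsDiscreteValuationRing.irreducible_iff_uniformizer _).2 hmax
    obtain ⟨N, k1, k2, k3, k4, -, -, -⟩ := hZPM rs _ r hd0 hdf hb hrs hxi hkr hz hri hdisc
    refine ⟨N, Or.inr ?_⟩
    -- the difference of the two colliding branch points
    set x : O := t - algebraMap k O (rs t) with hxdef
    set w : O := (∑ i ∈ Finset.range d, t ^ i * algebraMap k O (rs t) ^ (d - 1 - i)) *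
      algebraMap k O (α l - α m) with hw
    have hrsr : ∀ i, rs (r i) = β i + rs t ^ d * α i := by
      intro i
      rw [hr i, map_add, map_mul, map_pow, AlgHom.commutes, AlgHom.commutes,
        Algebra.algebraMap_self_apply, Algebra.algebraMap_self_apply]
    have hwx : r l - r m = x * w := by
      have e1 : β l - β m = -(rs t ^ d * (α l - α m)) := by
        have := hcol
        rw [hrsr, hrsr] at this
        linear_combination this
      have e2 : algebraMap k O (β l) - algebraMap k O (β m) =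
          -(algebraMap k O (rs t) ^ d * algebraMap k O (α l - α m)) := by
        rw [← map_sub, e1, map_neg, map_mul, map_pow]
      have e3 := geom_sum₂_mul t (algebraMap k O (rs t)) d
      rw [hr l, hr m, hw]
      have e4 : algebraMap k O (α l - α m) = algebraMap k O (α l) - algebraMap k O (α m) :=
        map_sub _ _ _
      rw [hxdef]
      linear_combination e2 - algebraMap k O (α l - α m) * e3 - t ^ d * e4
    have hwu : rs w ≠ 0 := by
      rw [hw, map_mul, map_sum]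
      refine mul_ne_zero ?_ ?_
      · have e1 : ∀ i ∈ Finset.range d, rs (t ^ i * algebraMap k O (rs t) ^ (d - 1 - i)) =
            rs t ^ (d - 1) := by
          intro i hi
          rw [Finset.mem_range] at hi
          rw [map_mul, map_pow, map_pow, AlgHom.commutes, Algebra.algebraMap_self_apply,
            ← pow_add]
          congr 1
          omega
        rw [Finset.sum_congr rfl e1, Finset.sum_const, Finset.card_range, nsmul_eq_mul]
        exact mul_ne_zero hdk (pow_ne_zero _ ht)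
      · rw [AlgHom.commutes, Algebra.algebraMap_self_apply, sub_ne_zero]
        exact fun h => hlm (hα h)
    have hf2 : algebraMap k O (((2 : ℕ) : k)⁻¹) * 2 = 1 := by
      have : (2 : O) = algebraMap k O ((2 : ℕ) : k) := by
        rw [map_natCast]
        norm_num
      rw [this, ← map_mul, inv_mul_cancel₀ h2k, map_one]
    set hf : O := algebraMap k O (((2 : ℕ) : k)⁻¹) with hhf
    have hNfb := fb_eq N k1 k4
    have hNPb : N.Pb = M.Pb := by
      rw [Mdl.Pb, Mdl.Pb, k1, k3, h1, h3]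
    refine ⟨rs (r l), hf * (r l + r m), (hf * w) ^ 2,
      ∏ i ∈ (Finset.univ.erase l).erase m, (X - C (r i)), ?_, ?_, ?_, ?_, ?_, ?_⟩
    · rw [hNfb]
      exact dbl hlm hcol huniq
    · rw [hNPb]
      exact ⟨e, G, he, hG, hrk⟩
    · rw [k1, map_mul, map_add, ← hcol]
      have e1 : rs hf * 2 = 1 := by
        have := congrArg rs hf2
        rw [map_mul, map_one] at this
        rw [← this]
        congr 1
        exact (map_ofNat rs 2).symm
      linear_combination rs (r l) * e1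
    · have hw1 : IsUnit w := unit_of rs hrs hwu
      have hf1 : IsUnit hf := IsUnit.of_mul_eq_one _ hf2
      exact (hf1.mul hw1).pow 2
    · rw [k4, k2, prod_split r hlm]
      congr 1
      have e1 : r l = hf * (r l + r m) + x * (hf * w) := by
        linear_combination (-r l) * hf2 + hf * hwx
      have e2 : r m = hf * (r l + r m) - x * (hf * w) := by
        linear_combination (-r m) * hf2 - hf * hwx
      have e3 : x ^ 2 * (hf * w) ^ 2 = (x * (hf * w)) ^ 2 := by ring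
      rw [e3]
      generalize hf * (r l + r m) = s at e1 e2 ⊢
      generalize x * (hf * w) = y at e1 e2 ⊢
      rw [e1, e2, map_add, map_sub, map_pow]
      ring
    · rw [k1, Polynomial.map_prod]
      have := eval_ne (ρ := fun i => rs (r i)) huniq
      simpa only [Polynomial.map_sub, Polynomial.map_X, Polynomial.map_C, RingHom.coe_coe]
        using this
  · exact ⟨M, Or.inl (Or.inr ⟨rs (r l), hD, e, G, he, hG, hrk⟩)⟩

end mdl

end ZPLm

theorem t_ZPL (hKBC : Stmt_KBC) (hZL : Stmt_ZL) (hCYC : Stmt_CYC) (hZBR : Stmt_ZBR)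
    (hZPC : Stmt_ZPC) (hZSD : Stmt_ZSD) (hZRK : Stmt_ZRK) (hZPM : Stmt_ZPM)
    (hZGR : Stmt_ZGR) : Stmt_ZPL := by
  intro k₁ k _ _ _ _ g d b Rb β α hg hd hdf hb hβ hα Y O _ _ _ _ _ _ _
  obtain ⟨rs, hrs⟩ := hZRK Y.t Y.gen Y.fin O
  obtain ⟨hα1, hβα, hcoll⟩ := hZPC β α (by omega : 0 < d) hβ hα
  have hd0 : 0 < d := by omega
  set T : Y.L := algebraMap Y.F Y.L Y.t with hT
  have hTtr : Transcendental k T :=
    (transcendental_algebraMap_iff (algebraMap Y.F Y.L).injective).2 Y.tr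
  have hTk : ∀ c : k, T ≠ algebraMap k Y.L c := by
    intro c hc
    exact hTtr (hc ▸ isAlgebraic_algebraMap c)
  have hinj := hβα Y.L T hTtr
  have hOinj : Function.Injective (algebraMap O Y.L) := IsFractionRing.injective O Y.L
  have htow : ∀ c : k, algebraMap O Y.L (algebraMap k O c) = algebraMap k Y.L c := fun c =>
    (IsScalarTower.algebraMap_apply k O Y.L c).symm
  by_cases hTO : ∃ t : O, algebraMap O Y.L t = T
  · -- the parameter is integral
    obtain ⟨t, ht⟩ := hTO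
    have hmap : Y.R.map (sc (1 : Y.Lˣ)) = Y.R := by
      have : sc (1 : Y.Lˣ) = AlgHom.id Y.L (LaurentSeries Y.L) := AlgHom.ext fun f => sc_one f
      rw [this, Subalgebra.map_id]
    set r : Fin b → O := fun l => algebraMap k O (algebraMap k₁ k (β l)) +
      t ^ d * algebraMap k O (α l) with hr
    have hrL : ∀ l, algebraMap O Y.L (r l) = algebraMap k Y.L (algebraMap k₁ k (β l)) +
        T ^ d * algebraMap k Y.L (α l) := by
      intro l
      rw [hr]
      simp only [map_add, map_mul, map_pow, htow, ht]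
    have hri : Function.Injective r := by
      intro l m hlm
      apply hinj
      change algebraMap k Y.L (algebraMap k₁ k (β l)) + T ^ d * algebraMap k Y.L (α l) =
        algebraMap k Y.L (algebraMap k₁ k (β m)) + T ^ d * algebraMap k Y.L (α m)
      rw [← hrL, ← hrL, hlm]
    have hrsr : ∀ l, rs (r l) = algebraMap k₁ k (β l) + rs t ^ d * α l := by
      intro l
      rw [hr]
      simp only [map_add, map_mul, map_pow, AlgHom.commutes, Algebra.algebraMap_self_apply]
    have hkr : Kr g (Y.R.map (sc (1 : Y.Lˣ))) := by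
      rw [hmap]
      exact Y.kr
    have hz : zz Y.L d ∈ Y.R.map (sc (1 : Y.Lˣ)) := by
      rw [hmap]
      exact Y.z
    have hdisc : Disc d (Y.R.map (sc (1 : Y.Lˣ))) (∏ l, (X - C (algebraMap O Y.L (r l)))) := by
      rw [hmap]
      have h := Y.disc
      have e : ft d (fun l => algebraMap k₁ k (β l)) α (algebraMap Y.F Y.L Y.t) =
          ∏ l, (X - C (algebraMap O Y.L (r l))) := by
        rw [ft]
        refine Finset.prod_congr rfl fun l _ => ?_
        rw [hrL]
      rw [← e]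
      exact h
    have key : ∃ M : Mdl k O Y.L g d (Y.R.map (sc (1 : Y.Lˣ))), M.Smo ∨ M.Nod := by
      rcases hcoll (rs t) with hi | ⟨ht0, l, m, hlm, hcol, huniq⟩
      · obtain ⟨M, hM⟩ := ZPLm.caseSep hZPM rs r hd0 hdf hb hrs hkr hz hri hdisc (by
          intro l m hlm
          apply hi
          change rs (r l) = rs (r m) at hlm
          rw [hrsr, hrsr] at hlm
          exact hlm)
        exact ⟨M, Or.inl hM⟩
      · refine ZPLm.node hZL hCYC hZBR hZPM hZGR rs hrs hkr hz hd hdf hb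
          (fun l => algebraMap k₁ k (β l)) α t r (fun l => rfl) hri hdisc ht0 ?_ hα1 l m hlm
          ?_ ?_ ?_
        · intro h0
          apply hTk (rs t)
          rw [← ht, sub_eq_zero.1 h0, htow]
          simp only [AlgHom.commutes, Algebra.algebraMap_self_apply]
        · rw [hrsr, hrsr]
          exact hcol
        · intro i j hij
          rw [hrsr, hrsr] at hij
          exact huniq i j hij
        · intro M' hM1 hM2 T' hT1 hT2 hT3
          refine Y.mini M' ?_ T' hT1 hT2 (hT3.trans hmap)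
          have hI : IntermediateField.adjoin k {Y.t} ≤
              (M'.comap (algebraMap Y.F Y.L)).toIntermediateField (fun c => by
                rw [Subfield.mem_comap, ← IsScalarTower.algebraMap_apply k Y.F Y.L, ← htow]
                exact hM1 c) := by
            rw [IntermediateField.adjoin_le_iff, Set.singleton_subset_iff]
            change algebraMap Y.F Y.L Y.t ∈ M'
            rw [← hT, ← ht]
            exact hM2
          rw [Y.gen] at hI
          intro x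
          exact hI (IntermediateField.mem_top (x := x))
    obtain ⟨M, hM⟩ := key
    refine ⟨⟨O, 1, M⟩, hM, ?_, fun x => ⟨x, rfl⟩⟩
    exact Or.inl rfl
  · -- the parameter has a pole
    have hT0 : T ≠ 0 := by
      intro h0
      exact hTO ⟨0, by rw [map_zero, h0]⟩
    obtain ⟨s, hs⟩ : ∃ s : O, algebraMap O Y.L s = T⁻¹ := by
      rcases ValuationRing.isInteger_or_isInteger O T with h | h
      · exact absurd h hTO
      · exact h
    have hs0 : rs s = 0 := by
      by_contra hne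
      obtain ⟨v, hv⟩ := ZPLm.unit_of rs hrs hne
      apply hTO
      refine ⟨(v⁻¹ : Oˣ), ?_⟩
      have h1 : algebraMap O Y.L s * algebraMap O Y.L ((v⁻¹ : Oˣ) : O) = 1 := by
        rw [← map_mul, ← hv, Units.mul_inv, map_one]
      rw [hs] at h1
      field_simp at h1
      exact h1
    set c : Y.Lˣ := Units.mk0 T hT0 with hc
    obtain ⟨hkr, hz, hsd⟩ := hZSD (d := d) c Y.kr Y.z
    set r : Fin b → O := fun l => s ^ d * algebraMap k O (algebraMap k₁ k (β l)) +
      algebraMap k O (α l) with hr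
    have hrL : ∀ l, algebraMap O Y.L (r l) = ((c⁻¹ : Y.Lˣ) : Y.L) ^ d *
        (algebraMap k Y.L (algebraMap k₁ k (β l)) + T ^ d * algebraMap k Y.L (α l)) := by
      intro l
      rw [hr]
      simp only [map_add, map_mul, map_pow, htow, hs]
      rw [hc, Units.val_inv_eq_inv_val, Units.val_mk0, mul_add, ← mul_assoc, ← mul_pow,
        inv_mul_cancel₀ hT0, one_pow, one_mul]
    have hri : Function.Injective r := by
      intro l m hlm
      apply hinj
      have h := congrArg (algebraMap O Y.L) hlm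
      rw [hrL, hrL] at h
      exact mul_left_cancel₀ (pow_ne_zero d (Units.ne_zero _)) h
    have hrsr : ∀ l, rs (r l) = α l := by
      intro l
      rw [hr]
      simp only [map_add, map_mul, map_pow, AlgHom.commutes, Algebra.algebraMap_self_apply,
        hs0, zero_pow hd0.ne', zero_mul, zero_add]
    have hdisc : Disc d (Y.R.map (sc c)) (∏ l, (X - C (algebraMap O Y.L (r l)))) := by
      have h := hsd (fun l => algebraMap k Y.L (algebraMap k₁ k (β l)) +
        T ^ d * algebraMap k Y.L (α l)) Y.disc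
      have e : (∏ l, (X - C (algebraMap O Y.L (r l)))) = ∏ l, (X - C (((c⁻¹ : Y.Lˣ) : Y.L) ^ d *
        (algebraMap k Y.L (algebraMap k₁ k (β l)) + T ^ d * algebraMap k Y.L (α l)))) :=
        Finset.prod_congr rfl fun l _ => by rw [hrL]
      rw [e]
      exact h
    obtain ⟨M, hM⟩ := ZPLm.caseSep hZPM rs r hd0 hdf hb hrs hkr hz hri hdisc (by
      intro l m hlm
      apply hα1
      change rs (r l) = rs (r m) at hlm
      rw [hrsr, hrsr] at hlm
      exact hlm)
    refine ⟨⟨O, c, M⟩, Or.inl hM, ?_, fun x => ⟨x, rfl⟩⟩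
    exact Or.inr rfl

end Pool.Agent.MG.G0


end
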