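import Mathlib.RingTheory.Etale.Kaehler
import Mathlib.RingTheory.Kaehler.Polynomial
import Pool.Agent.KDM.C02
import Pool.Agent.KDM.C11
import Pool.Agent.KDM.C12
import Pool.Agent.KDM.C13
import Pool.Agent.KDM.C15
import Pool.Agent.KDM.C22
import Pool.Agent.KDM.C24

/-! Parts: MG.G0.KBC, MG.G0.SKK, MG.G0.ZL.ZD, MG.G0.KIL, MG.G0.SCR, MG.G0.NCO, MG.G0.NPL, MG.G0.TG.TCZ, MG.G0.ULR, MG.G0.ZBT, MG.G0.ZBO -/

section

/-!
# KBC: base change of Krichever rings
-/

namespace Pool.Agent.MG.G0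

namespace KBC

section

variable {I A B C : Type} [CommRing A] [CommRing B] [CommRing C]

theorem bc_span (φ : A →+* B) (P : Subalgebra A (KK I A)) :
    Subalgebra.toSubmodule (bc φ P) = Submodule.span B (kmap φ '' (P : Set (KK I A))) := by
  rw [bc, Algebra.adjoin_eq_span]
  have h : (Submonoid.closure (kmap φ '' (P : Set (KK I A))) : Set (KK I B)) =
      kmap φ '' (P : Set (KK I A)) := by
    have h1 : kmap φ '' (P : Set (KK I A)) = ((Submonoid.map (kmap φ : KK I A →+* KK I B)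
        (Subalgebra.toSubsemiring P).toSubmonoid : Submonoid (KK I B)) : Set (KK I B)) := rfl
    rw [h1, Submonoid.closure_eq]
  rw [h]

theorem mem_bc (φ : A →+* B) (P : Subalgebra A (KK I A)) {f : KK I B} :
    f ∈ bc φ P ↔ f ∈ Submodule.span B (kmap φ '' (P : Set (KK I A))) := by
  rw [← bc_span, Subalgebra.mem_toSubmodule]

/-- The elements of the base change. -/
theorem exists_sum (φ : A →+* B) (P : Subalgebra A (KK I A)) {f : KK I B} (hf : f ∈ bc φ P) :
    ∃ (m : ℕ) (b : Fin m → B) (p : Fin m → KK I A), (∀ k, p k ∈ P) ∧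
      f = ∑ k, b k • kmap φ (p k) := by
  rw [mem_bc, Submodule.mem_span_set'] at hf
  obtain ⟨m, b, q, hq⟩ := hf
  choose p hp hp' using fun k => (q k).2
  exact ⟨m, b, p, hp, by rw [← hq]; exact Finset.sum_congr rfl fun k _ => by rw [hp']⟩

theorem bc_comp (φ : A →+* B) (ψ : B →+* C) (P : Subalgebra A (KK I A)) :
    bc (ψ.comp φ) P = bc ψ (bc φ P) := by
  apply le_antisymm
  · refine Algebra.adjoin_le ?_
    rintro _ ⟨p, hp, rfl⟩
    rw [kmap_comp]
    exact kmap_mem_bc ψ (kmap_mem_bc φ hp)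
  · refine Algebra.adjoin_le ?_
    rintro _ ⟨f, hf, rfl⟩
    obtain ⟨m, b, p, hp, rfl⟩ := exists_sum φ P hf
    rw [map_sum]
    refine sum_mem fun k _ => ?_
    rw [kmap_smul, ← kmap_comp]
    exact Subalgebra.smul_mem _ (kmap_mem_bc _ (hp k)) _

theorem bc_id (P : Subalgebra A (KK I A)) : bc (RingHom.id A) P = P := by
  have h : kmap (RingHom.id A) '' (P : Set (KK I A)) = (P : Set (KK I A)) := by
    ext f
    constructor
    · rintro ⟨p, hp, rfl⟩
      exact hp
    · intro hf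
      exact ⟨f, hf, rfl⟩
  rw [bc, h, Algebra.adjoin_eq]

theorem coeff_sum_kmap (φ : A →+* B) {m : ℕ} (b : Fin m → B) (p : Fin m → KK I A) (i : I)
    (l : ℤ) :
    ((∑ k, b k • kmap φ (p k)) i).coeff l = ∑ k, b k * φ ((p k i).coeff l) := by
  rw [Finset.sum_apply, HahnSeries.coeff_sum]
  refine Finset.sum_congr rfl fun k _ => ?_
  rw [Pi.smul_apply, HahnSeries.coeff_smul, kmap_apply, lmap_coeff, smul_eq_mul]

variable [Fintype I]

/-- An element of the base change is determined by its polar part up to a constant. -/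
theorem sec (φ : A →+* B) {P : Subalgebra A (KK I A)} (s : KK I A →ₗ[A] KK I A)
    (hs : IsSec P s) {f : KK I B} (hf : f ∈ bc φ P) :
    ∃ (n : ℕ) (c : B), f = (∑ i, ∑ l ∈ Finset.Ico (-(n : ℤ)) 0,
      ((f i).coeff l) • kmap φ (s (mon i l 1))) + algebraMap B (KK I B) c := by
  classical
  obtain ⟨m, b, p, hp, hfs⟩ := exists_sum φ P hf
  choose n' hn' using fun k => exists_Pol (p k)
  obtain ⟨n, hn⟩ : ∃ n : ℕ, ∀ k, p k ∈ Pol I A n := by
    refine ⟨Finset.univ.sup n', fun k => Pol_mono ?_ (hn' k)⟩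
    exact_mod_cast Finset.le_sup (f := n') (Finset.mem_univ k)
  choose a ha using fun k => hs.eq (p k) (hp k)
  refine ⟨n, -∑ k, b k * φ (a k), ?_⟩
  have h1 : ∀ k, kmap φ (s (p k)) = ∑ i, ∑ l ∈ Finset.Ico (-(n : ℤ)) 0,
      φ ((p k i).coeff l) • kmap φ (s (mon i l 1)) := by
    intro k
    have e2 := hs.zero _ (sub_mon_mem_Pol (hn k) 0)
    rw [map_sub, map_sum, sub_eq_zero] at e2
    rw [e2, map_sum]
    refine Finset.sum_congr rfl fun i _ => ?_
    rw [map_sum, map_sum]
    refine Finset.sum_congr rfl fun l _ => ?_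
    rw [← kmap_smul, ← map_smul, smul_mon, mul_one]
  have h2 : ∑ k, b k • kmap φ (s (p k)) = ∑ i, ∑ l ∈ Finset.Ico (-(n : ℤ)) 0,
      ((f i).coeff l) • kmap φ (s (mon i l 1)) := by
    have e1 : ∀ k, b k • kmap φ (s (p k)) = ∑ i, ∑ l ∈ Finset.Ico (-(n : ℤ)) 0,
        (b k * φ ((p k i).coeff l)) • kmap φ (s (mon i l 1)) := by
      intro k
      rw [h1, Finset.smul_sum]
      refine Finset.sum_congr rfl fun i _ => ?_
      rw [Finset.smul_sum]
      exact Finset.sum_congr rfl fun l _ => smul_smul _ _ _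
    rw [Finset.sum_congr rfl fun k _ => e1 k, Finset.sum_comm]
    refine Finset.sum_congr rfl fun i _ => ?_
    rw [Finset.sum_comm]
    refine Finset.sum_congr rfl fun l _ => ?_
    rw [← Finset.sum_smul, hfs, coeff_sum_kmap]
  have h3 : ∑ k, b k • kmap φ (s (p k)) =
      f + algebraMap B (KK I B) (∑ k, b k * φ (a k)) := by
    rw [hfs, map_sum, ← Finset.sum_add_distrib]
    refine Finset.sum_congr rfl fun k _ => ?_
    rw [ha, map_add, smul_add, kmap_algebraMap, map_mul, ← Algebra.smul_def]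
  rw [← h2, h3, map_neg]
  abel

/-- Property (K1) for the base change. -/
theorem bc_k1 (φ : A →+* B) {P : Subalgebra A (KK I A)} (s : KK I A →ₗ[A] KK I A)
    (hs : IsSec P s) (f : KK I B) (hf : f ∈ bc φ P) (h0 : f ∈ Pol I B 0) :
    ∃ b : B, f = algebraMap B (KK I B) b := by
  obtain ⟨n, c, hc⟩ := sec φ s hs hf
  refine ⟨c, hc.trans ?_⟩
  rw [Finset.sum_eq_zero, zero_add]
  intro i _
  refine Finset.sum_eq_zero fun l hl => ?_
  rw [Finset.mem_Ico] at hl
  rw [h0 i l (by omega), zero_smul]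

omit [Fintype I] in
theorem one_mem_Pol {n : ℤ} (h : 0 ≤ n) : (1 : KK I A) ∈ Pol I A n :=
  Pol_mono h one_mem_Pol0

/-- Bounded pole orders. -/
theorem bc_PP (φ : A →+* B) {P : Subalgebra A (KK I A)} (s : KK I A →ₗ[A] KK I A)
    (hs : IsSec P s) {N : ℕ} (hN : ∀ n : ℤ, N ≤ n → ∀ f ∈ Pol I A n, s f ∈ Pol I A n) (n : ℤ)
    (hn : N ≤ n) :
    PP (bc φ P) n = Submodule.span B (kmap φ '' (PP P n : Set (KK I A))) := by
  apply le_antisymm
  · intro f hf
    obtain ⟨h1, h2⟩ := mem_PP.1 hf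
    obtain ⟨m, c, hc⟩ := sec φ s hs h1
    rw [hc]
    refine add_mem (sum_mem fun i _ => sum_mem fun l _ => ?_) ?_
    · by_cases hl : l < -n
      · rw [h2 i l hl, zero_smul]
        exact zero_mem _
      · refine Submodule.smul_mem _ _ (Submodule.subset_span ⟨_, ?_, rfl⟩)
        exact mem_PP.2 ⟨hs.mem _, hN n hn _ (mon_mem_Pol i (by omega) 1)⟩
    · rw [Algebra.algebraMap_eq_smul_one]
      refine Submodule.smul_mem _ _ (Submodule.subset_span ⟨1, ?_, map_one _⟩)
      exact mem_PP.2 ⟨one_mem P, one_mem_Pol (by omega)⟩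
  · rw [Submodule.span_le]
    rintro _ ⟨p, hp, rfl⟩
    obtain ⟨h1, h2⟩ := mem_PP.1 hp
    exact mem_PP.2 ⟨kmap_mem_bc φ h1, kmap_mem_Pol φ h2⟩

omit [Fintype I] in
theorem mon_eq (φ : A →+* B) (i : I) (l : ℤ) (b : B) : mon i l b = b • kmap φ (mon i l 1) := by
  rw [kmap_mon, smul_mon, map_one, mul_one]

theorem bc_dense (φ : A →+* B) {P : Subalgebra A (KK I A)} {N : ℕ} (hN : Dense P N) :
    Dense (bc φ P) N := by
  intro f
  obtain ⟨n, hn⟩ := exists_Pol f
  have h1 := sub_mon_mem_Pol hn (-(N : ℤ))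
  rw [neg_neg] at h1
  choose p hp hpN using fun (x : I × ℤ) => hN (mon x.1 x.2 1)
  refine ⟨∑ i, ∑ l ∈ Finset.Ico (-(n : ℤ)) (-(N : ℤ)), ((f i).coeff l) • kmap φ (p (i, l)),
    sum_mem fun i _ => sum_mem fun l _ => Subalgebra.smul_mem _ (kmap_mem_bc φ (hp _)) _, ?_⟩
  have h2 : f - ∑ i, ∑ l ∈ Finset.Ico (-(n : ℤ)) (-(N : ℤ)), ((f i).coeff l) • kmap φ (p (i, l)) =
      (f - ∑ i, ∑ l ∈ Finset.Ico (-(n : ℤ)) (-(N : ℤ)), mon i l ((f i).coeff l)) +
      ∑ i, ∑ l ∈ Finset.Ico (-(n : ℤ)) (-(N : ℤ)),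
        ((f i).coeff l) • kmap φ (mon i l 1 - p (i, l)) := by
    have e : ∑ i, ∑ l ∈ Finset.Ico (-(n : ℤ)) (-(N : ℤ)),
        ((f i).coeff l) • kmap φ (mon i l 1 - p (i, l)) =
        ∑ i, ∑ l ∈ Finset.Ico (-(n : ℤ)) (-(N : ℤ)), mon i l ((f i).coeff l) -
        ∑ i, ∑ l ∈ Finset.Ico (-(n : ℤ)) (-(N : ℤ)), ((f i).coeff l) • kmap φ (p (i, l)) := by
      rw [← Finset.sum_sub_distrib]
      refine Finset.sum_congr rfl fun i _ => ?_
      rw [← Finset.sum_sub_distrib]
      refine Finset.sum_congr rfl fun l _ => ?_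
      rw [mon_eq φ, map_sub, smul_sub]
    rw [e]
    abel
  rw [h2]
  refine add_mem h1 (sum_mem fun i _ => sum_mem fun l _ => Submodule.smul_mem _ _ ?_)
  exact kmap_mem_Pol φ (hpN (i, l))

theorem res_kmap_mul (φ : A →+* B) (w v : KK I A) (b : B) :
    res (kmap φ w * (b • kmap φ v)) = b * φ (res (w * v)) := by
  rw [mul_smul_comm, map_smul, ← map_mul, res_kmap, smul_eq_mul]

theorem bc_forms {g : ℕ} (φ : A →+* B) {P : Subalgebra A (KK I A)} {w : Fin g → KK I A}
    (h : IsForms P w) : IsForms (bc φ P) fun j => kmap φ (w j) := by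
  classical
  choose v hv using fun j : Fin g => h.surj (Pi.single j 1)
  have hv' : ∀ j k, res (w k * v j) = if k = j then 1 else 0 := fun j k => by
    rw [hv, Pi.single_apply]
  -- the map `f ↦ f - ∑ res (w_j f) v_j`
  let T : KK I B →ₗ[B] KK I B := LinearMap.id -
    ∑ j, ((res ∘ₗ LinearMap.mulLeft B (kmap φ (w j))).smulRight (kmap φ (v j)))
  have hT : ∀ f, T f = f - ∑ j, res (kmap φ (w j) * f) • kmap φ (v j) := fun f => by
    simp only [T, LinearMap.sub_apply, LinearMap.id_apply, LinearMap.sum_apply,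
      LinearMap.smulRight_apply, LinearMap.comp_apply, LinearMap.mulLeft_apply]
  have hP0 : ∀ f ∈ Pol I B 0, T f ∈ Subalgebra.toSubmodule (bc φ P) ⊔ Pol I B 0 := by
    intro f hf
    rw [hT, Finset.sum_eq_zero, sub_zero]
    · exact Submodule.mem_sup_right hf
    · intro j _
      rw [res_Pol0 (mul_mem_Pol0 (kmap_mem_Pol φ (h.reg j)) hf), zero_smul]
  have hk : ∀ f : KK I A, T (kmap φ f) ∈ Subalgebra.toSubmodule (bc φ P) ⊔ Pol I B 0 := by
    intro f
    have e1 : T (kmap φ f) = kmap φ (f - ∑ j, res (w j * f) • v j) := by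
      rw [hT, map_sub, map_sum]
      congr 1
      refine Finset.sum_congr rfl fun j _ => ?_
      rw [kmap_smul, ← map_mul, res_kmap]
    obtain ⟨p, hp, hp0⟩ := (h.ker (f - ∑ j, res (w j * f) • v j)).1 (by
      intro k
      rw [mul_sub, map_sub, Finset.mul_sum, map_sum, Finset.sum_eq_single k]
      · rw [mul_smul_comm, map_smul, hv', if_pos rfl, smul_eq_mul, mul_one, sub_self]
      · intro j _ hj
        rw [mul_smul_comm, map_smul, hv', if_neg (Ne.symm hj), smul_zero]
      · intro hk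
        exact absurd (Finset.mem_univ k) hk)
    have e2 : T (kmap φ f) = kmap φ p + kmap φ (f - ∑ j, res (w j * f) • v j - p) := by
      rw [e1, ← map_add]
      congr 1
      abel
    rw [e2]
    exact add_mem (Submodule.mem_sup_left (kmap_mem_bc φ hp))
      (Submodule.mem_sup_right (kmap_mem_Pol φ hp0))
  have hall : ∀ f : KK I B, T f ∈ Subalgebra.toSubmodule (bc φ P) ⊔ Pol I B 0 := by
    intro f
    obtain ⟨n, hn⟩ := exists_Pol f
    have h1 := hP0 _ (by simpa using sub_mon_mem_Pol hn 0)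
    have e : T f = T (f - ∑ i, ∑ m ∈ Finset.Ico (-(n : ℤ)) 0, mon i m ((f i).coeff m)) +
        ∑ i, ∑ m ∈ Finset.Ico (-(n : ℤ)) 0, (f i).coeff m • T (kmap φ (mon i m 1)) := by
      have e1 : ∑ i, ∑ m ∈ Finset.Ico (-(n : ℤ)) 0, (f i).coeff m • T (kmap φ (mon i m 1)) =
          T (∑ i, ∑ m ∈ Finset.Ico (-(n : ℤ)) 0, mon i m ((f i).coeff m)) := by
        rw [map_sum]
        refine Finset.sum_congr rfl fun i _ => ?_
        rw [map_sum]
        refine Finset.sum_congr rfl fun m _ => ?_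
        rw [mon_eq φ i m ((f i).coeff m), map_smul]
      rw [e1, ← map_add]
      congr 1
      abel
    rw [e]
    exact add_mem h1 (sum_mem fun i _ => sum_mem fun m _ => Submodule.smul_mem _ _ (hk _))
  refine ⟨fun j => kmap_mem_Pol φ (h.reg j), fun c => ?_, fun f => ⟨fun hf => ?_, ?_⟩⟩
  · refine ⟨∑ j, c j • kmap φ (v j), fun k => ?_⟩
    rw [Finset.mul_sum, map_sum, Finset.sum_eq_single k]
    · rw [res_kmap_mul, hv', if_pos rfl, map_one, mul_one]
    · intro j _ hj
      rw [res_kmap_mul, hv', if_neg (Ne.symm hj), map_zero, mul_zero]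
    · intro hk
      exact absurd (Finset.mem_univ k) hk
  · have h1 := hall f
    rw [hT, Finset.sum_eq_zero (fun j _ => by rw [hf j, zero_smul]), sub_zero,
      Submodule.mem_sup] at h1
    obtain ⟨p, hp, o, ho, hpo⟩ := h1
    refine ⟨p, hp, ?_⟩
    rw [← hpo, add_sub_cancel_left]
    exact ho
  · rintro ⟨p, hp, hp0⟩ j
    obtain ⟨m, b, q, hq, hps⟩ := exists_sum φ P hp
    have e : f = p + (f - p) := by abel
    rw [e, mul_add, map_add, res_Pol0 (mul_mem_Pol0 (kmap_mem_Pol φ (h.reg j)) hp0), add_zero,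
      hps, Finset.mul_sum, map_sum]
    refine Finset.sum_eq_zero fun k _ => ?_
    rw [res_kmap_mul, (h.ker (q k)).2 ⟨q k, hq k, by rw [sub_self]; exact zero_mem _⟩ j, map_zero,
      mul_zero]

/-- A family of forms gives (K2). -/
theorem k2_of_forms {g : ℕ} {P : Subalgebra A (KK I A)} {w : Fin g → KK I A}
    (h : IsForms P w) : ∃ L : KK I A →ₗ[A] (Fin g → A), Function.Surjective L ∧
      ∀ f, L f = 0 ↔ ∃ p ∈ P, f - p ∈ Pol I A 0 := by
  refine ⟨LinearMap.pi fun j => res ∘ₗ LinearMap.mulLeft A (w j), fun c => ?_, fun f => ?_⟩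
  · obtain ⟨f, hf⟩ := h.surj c
    exact ⟨f, funext hf⟩
  · rw [← h.ker f, funext_iff]
    rfl

end

end KBC

theorem t_KBC (hKFO : Stmt_KFO) (hKNZ : Stmt_KNZ) (hKSP : Stmt_KSP) : Stmt_KBC := by
  refine ⟨fun φ P => KBC.bc_span φ P, fun φ ψ P => KBC.bc_comp φ ψ P, fun P => KBC.bc_id P, ?_⟩
  intro I A B _ _ _ _ g P hP φ
  obtain ⟨N, hN⟩ := (hKNZ hP).1
  obtain ⟨s, hs, -⟩ := ((hKSP hP).2 N hN).1
  obtain ⟨w, hw⟩ := (hKFO hP).1
  refine ⟨⟨KBC.bc_k1 φ s hs, KBC.k2_of_forms (KBC.bc_forms φ hw)⟩,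
    fun ω hω => KBC.bc_forms φ hω, fun N' hN' => ⟨KBC.bc_dense φ hN', fun n hn => ?_⟩⟩
  obtain ⟨s', hs', hsN⟩ := ((hKSP hP).2 N' hN').1
  exact KBC.bc_PP φ s' hs' hsN n hn

end Pool.Agent.MG.G0


end

section

/-!
# SKK (SM3): derivations of a Krichever ring with values in Laurent series
-/

namespace Pool.Agent.MG.G0

namespace SKK

variable {I A : Type} [CommRing A]

/-- A series without poles and with constant term `1` is a unit. -/
theorem isUnit_lead_one {f : LaurentSeries A} (h0 : ∀ m < 0, f.coeff m = 0) (h1 : f.coeff 0 = 1) :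
    IsUnit f := by
  rcases subsingleton_or_nontrivial A with hA | hA
  · have : f = 1 := by
      ext m
      exact Subsingleton.elim _ _
    rw [this]
    exact isUnit_one
  · refine HahnSeries.isUnit_of_orderTop_pos ?_
    have h2 : ((0 : ℤ) : WithTop ℤ) < (f - 1).orderTop := by
      refine lt_of_lt_of_le (b := ((1 : ℤ) : WithTop ℤ)) (by exact_mod_cast zero_lt_one) ?_
      refine HahnSeries.le_orderTop_iff_forall.2 fun m hm => ?_
      have hm' : m < 1 := by exact_mod_cast hm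
      rw [HahnSeries.coeff_sub, HahnSeries.coeff_one]
      by_cases h : m = 0
      · rw [if_pos h, h, h1, sub_self]
      · rw [if_neg h, h0 m (by omega), sub_zero]
    exact h2

theorem isUnit_pi {f : KK I A} (h0 : f ∈ Pol I A 0) (h1 : ∀ i, (f i).coeff 0 = 1) :
    IsUnit f := by
  rw [Pi.isUnit_iff]
  exact fun i => isUnit_lead_one (fun m hm => h0 i m (by omega)) (h1 i)

/-- The monomial `τ^n` at all punctures. -/
noncomputable def tau (I A : Type) [CommRing A] (n : ℤ) : KK I A :=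
  fun _ => HahnSeries.single n 1

theorem tau_coeff (n : ℤ) (i : I) (m : ℤ) :
    (tau I A n i).coeff m = if m = n then 1 else 0 := by
  rw [tau, HahnSeries.coeff_single]
  split_ifs <;> rfl

theorem tau_mem (n : ℤ) : tau I A n ∈ Pol I A (-n) := fun i m hm => by
  rw [tau_coeff, if_neg (by omega)]

theorem tau_dd_mem {d : ℤ} {z : KK I A} (hz : z ∈ Pol I A d) :
    tau I A (d + 1) * dd z ∈ Pol I A 0 := by
  have h := mul_mem_Pol (tau_mem (I := I) (A := A) (d + 1)) (dd_mem_Pol hz)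
  rwa [neg_add_cancel] at h

theorem tau_dd_coeff {d : ℤ} {z : KK I A} (hz : Mon d z) (i : I) :
    ((tau I A (d + 1) * dd z) i).coeff 0 = -(d : A) := by
  have h := mul_Pol_lead (tau_mem (I := I) (A := A) (d + 1)) (dd_mem_Pol hz.1) i
  have e : -(-(d + 1) + (d + 1)) = (0 : ℤ) := by ring
  rw [e] at h
  rw [h, tau_coeff, if_pos (by ring), one_mul]
  change (ld (z i)).coeff (-(d + 1)) = _
  rw [ld_coeff]
  have e2 : -(d + 1) + 1 = -d := by ring
  rw [e2, hz.2 i]
  push_cast
  ring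

/-- The ideal generated by the derivatives of the elements of `P` is everything. -/
theorem exists_one (hKNZ : Stmt_KNZ) [Fintype I] {g : ℕ} {P : Subalgebra A (KK I A)}
    (hP : IsKr g P) :
    ∃ (m : ℕ) (c : Fin m → KK I A) (f : Fin m → P), ∑ l, c l * dd (f l : KK I A) = 1 := by
  obtain ⟨⟨N, hN⟩, h⟩ := hKNZ hP
  obtain ⟨-, -, hz⟩ := h N hN
  obtain ⟨z, hzP, hzm⟩ := hz (N + 1) (by omega)
  obtain ⟨w, hwP, hwm⟩ := hz (N + 2) (by omega)
  have hu : IsUnit (tau I A ((N : ℤ) + 1 + 1) * dd z - tau I A ((N : ℤ) + 2 + 1) * dd w) := by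
    refine isUnit_pi (sub_mem (tau_dd_mem hzm.1) (tau_dd_mem hwm.1)) fun i => ?_
    rw [Pi.sub_apply, HahnSeries.coeff_sub, tau_dd_coeff hzm, tau_dd_coeff hwm]
    push_cast
    ring
  obtain ⟨v, hv⟩ := hu.exists_left_inv
  refine ⟨2, ![v * tau I A ((N : ℤ) + 1 + 1), -(v * tau I A ((N : ℤ) + 2 + 1))],
    ![⟨z, hzP⟩, ⟨w, hwP⟩], ?_⟩
  rw [Fin.sum_univ_two]
  simp only [Matrix.cons_val_zero, Matrix.cons_val_one]
  rw [← hv]
  ring

end SKK

theorem t_SKK (hKNZ : Stmt_KNZ) (hSCO : Stmt_SCO) : Stmt_SKK := by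
  intro I A _ _ g P hP
  obtain ⟨m, c, f, hcf⟩ := SKK.exists_one hKNZ hP
  refine ⟨⟨m, c, f, hcf⟩, fun hS E => ?_⟩
  obtain ⟨-, h4, -⟩ := hSCO.2 hS
  have h5 : ∀ x y : P, E x * dd (y : KK I A) = E y * dd (x : KK I A) := fun x y =>
    h4 (KK I A) E ((ddD I A).compAlgebraMap P) x y
  refine ⟨∑ l, c l * E (f l), fun x => ?_, fun θ hθ => ?_⟩
  · calc E x = (∑ l, c l * dd (f l : KK I A)) * E x := by rw [hcf, one_mul]
      _ = (∑ l, c l * E (f l)) * dd (x : KK I A) := by
        rw [Finset.sum_mul, Finset.sum_mul]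
        refine Finset.sum_congr rfl fun l _ => ?_
        rw [mul_assoc, mul_assoc, ← h5 x (f l)]
        ring
  · calc θ = θ * ∑ l, c l * dd (f l : KK I A) := by rw [hcf, mul_one]
      _ = ∑ l, c l * E (f l) := by
        rw [Finset.mul_sum]
        refine Finset.sum_congr rfl fun l _ => ?_
        rw [hθ (f l)]
        ring

end Pool.Agent.MG.G0


end

section

/-!
# Section ZD: traces, bases and discriminants
-/

namespace Pool.Agent.MG.G0.ZL

open Polynomial

section

variable {A B : Type} [CommRing A] [CommRing B] {g : ℕ} {R : Subalgebra A (LaurentSeries A)}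
  {d : ℕ} [NeZero d]

/-- The identification of the two index sets. -/
noncomputable def sg (d : ℕ) [NeZero d] : Fin d ≃ ZMod d := (ZMod.finEquiv d).toEquiv

theorem spn_of_zbas {e : Fin d → LaurentSeries A} (he : ZBas d R e) :
    Spn R fun i => e ((sg d).symm i) := by
  refine ⟨fun i => he.mem _, fun x hx => ?_⟩
  obtain ⟨c, hc, -⟩ := he.uni x hx
  refine ⟨fun i => c ((sg d).symm i), ?_⟩
  have h1 := Equiv.sum_comp (sg d).symm fun i => ev d (c i) * e i
  exact hc.trans h1.symm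

theorem zbas_of_spn (hR : Kr g R) {e : Fin d → LaurentSeries A}
    (he : Spn R fun i => e ((sg d).symm i)) : ZBas d R e := by
  have hsum : ∀ c : ZMod d → A[X], ∑ i, zpol A d (c (sg d i)) * e i =
      ∑ i, ev d (c i) * e ((sg d).symm i) := by
    intro c
    rw [← Equiv.sum_comp (sg d) fun i => ev d (c i) * e ((sg d).symm i)]
    simp only [Equiv.symm_apply_apply]
  refine ⟨fun i => ?_, fun x hx => ?_⟩
  · have h : e ((sg d).symm (sg d i)) ∈ R := he.1 (sg d i)
    rwa [Equiv.symm_apply_apply] at h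
  · obtain ⟨q, hq⟩ := he.2 x hx
    refine ⟨fun i => q (sg d i), ?_, ?_⟩
    · show x = ∑ i, zpol A d (q (sg d i)) * e i
      rw [hsum, hq]
    · intro c hc
      have h1 : ∑ i, ev d ((fun i => c ((sg d).symm i)) i) * e ((sg d).symm i) =
          ∑ i, ev d (q i) * e ((sg d).symm i) := by
        rw [← hq, ← hsum (fun i => c ((sg d).symm i))]
        simp only [Equiv.symm_apply_apply]
        exact hc.symm
      have h2 := coef_unique (cmat_isUnit hR he) h1
      funext i
      rw [← h2]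
      show c i = c ((sg d).symm (sg d i))
      rw [Equiv.symm_apply_apply]

/-- The base change of a generating family. -/
theorem spn_bc (hKBC : Stmt_KBC) (φ : A →+* B) {e : ZMod d → LaurentSeries A}
    (he : Spn R e) : Spn (bc1 φ R) fun i => lmap φ (e i) := by
  refine ⟨fun i => Algebra.subset_adjoin ⟨e i, he.1 i, rfl⟩, fun x hx => ?_⟩
  have h1 : (fun _ : Unit => x) ∈ Submodule.span B (kmap φ '' (uno R : Set (KK Unit A))) := by
    rw [← hKBC.1 φ (uno R), bc_uno]
    exact hx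
  have key : ∀ y ∈ Submodule.span B (kmap φ '' (uno R : Set (KK Unit A))),
      ∃ q : ZMod d → B[X], y () = ∑ i, ev d (q i) * lmap φ (e i) := by
    intro y hy
    induction hy using Submodule.span_induction with
    | mem y hy =>
      obtain ⟨w, hw, rfl⟩ := hy
      obtain ⟨q, hq⟩ := he.2 (w ()) hw
      refine ⟨fun i => (q i).map φ, ?_⟩
      rw [kmap_apply, hq, map_sum]
      refine Finset.sum_congr rfl fun i _ => ?_
      rw [map_mul, lmap_ev]
    | zero => exact ⟨0, by simp⟩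
    | add y y' _ _ h h' =>
      obtain ⟨q, hq⟩ := h
      obtain ⟨q', hq'⟩ := h'
      refine ⟨q + q', ?_⟩
      rw [Pi.add_apply, hq, hq', ← Finset.sum_add_distrib]
      refine Finset.sum_congr rfl fun i _ => ?_
      rw [Pi.add_apply, map_add, add_mul]
    | smul b y _ h =>
      obtain ⟨q, hq⟩ := h
      refine ⟨fun i => C b * q i, ?_⟩
      rw [Pi.smul_apply, hq, Finset.smul_sum]
      refine Finset.sum_congr rfl fun i _ => ?_
      rw [map_mul, ev_C, mul_assoc, Algebra.smul_def]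
  exact key _ h1

theorem kr_bc (hKBC : Stmt_KBC) (hR : Kr g R) (φ : A →+* B) : Kr g (bc1 φ R) := by
  have h1 := (hKBC.2.2.2 (I := Unit) (P := uno R) hR φ).1
  rw [bc_uno] at h1
  exact h1

theorem zz_mem_bc (hz : zz A d ∈ R) (φ : A →+* B) : zz B d ∈ bc1 φ R :=
  Algebra.subset_adjoin ⟨zz A d, hz, lmap_zz φ d⟩

end

end Pool.Agent.MG.G0.ZL

namespace Pool.Agent.MG.G0

open ZL Polynomial

/-- Base change. -/
theorem t_ZDB (hKBC : Stmt_KBC) : Stmt_ZDB := by
  intro A B _ _ φ g d R hd hR hz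
  have : NeZero d := ⟨hd.ne'⟩
  refine ⟨zz_mem_bc hz φ, fun e he => ?_, fun f hf => ?_⟩
  · exact zbas_of_spn (kr_bc hKBC hR φ) (spn_bc hKBC φ (spn_of_zbas he))
  · obtain ⟨e, G, he, hG, u, hu, hdet⟩ := hf
    refine ⟨fun i => lmap φ (e i), G.map (Polynomial.map φ), zbas_of_spn (kr_bc hKBC hR φ)
      (spn_bc hKBC φ (spn_of_zbas he)), fun i j => ?_, u.map φ,
      hu.map (Polynomial.mapRingHom φ), ?_⟩
    · rw [Matrix.map_apply, ← lmap_zpol, hG i j, lmap_pr0, map_mul]
    · have h1 := RingHom.map_det (Polynomial.mapRingHom φ) G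
      rw [hdet, Polynomial.coe_mapRingHom, Polynomial.map_mul] at h1
      rw [h1]
      rfl

/-- Traces. -/
theorem t_ZD1 : Stmt_ZD1 := by
  intro A _ g d R hd hR e he x hx
  have : NeZero d := ⟨hd.ne'⟩
  have hs := spn_of_zbas he
  refine ⟨fun m hm => ?_, fun hu => ?_⟩
  · have hC := cmat_isUnit hR hs
    rw [← pr_zero_eq, ← trace_cm]
    let m' : Matrix (ZMod d) (ZMod d) A[X] := m.submatrix (sg d).symm (sg d).symm
    have hm' : ∀ i, x * e ((sg d).symm i) = ∑ j, ev d (m' i j) * e ((sg d).symm j) := by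
      intro i
      rw [hm, ← Equiv.sum_comp (sg d).symm]
      rfl
    have ht : m'.trace = m.trace := by
      rw [Matrix.trace, Matrix.trace, ← Equiv.sum_comp (sg d).symm]
      rfl
    rw [← ht]
    set e' : ZMod d → LaurentSeries A := fun i => e ((sg d).symm i) with he'
    have h1 : cmat e' * cm d x = m'.map (ev d) * cmat e' := by
      ext1 i k
      rw [Matrix.mul_apply, Matrix.mul_apply]
      have h2 : ∑ j, cmat e' i j * cm d x j k = pr k (x * e' i) := by
        rw [mul_comm x, pr_mul]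
        rfl
      rw [h2, hm' i, map_sum]
      refine Finset.sum_congr rfl fun l _ => ?_
      rw [pr_ev_mul]
      rfl
    obtain ⟨u, hu'⟩ := (Matrix.isUnit_iff_isUnit_det _).2 hC
    have h2 : cm d x = (↑u⁻¹ : Matrix (ZMod d) (ZMod d) (LaurentSeries A)) * m'.map (ev d) *
        (u : Matrix (ZMod d) (ZMod d) (LaurentSeries A)) := by
      rw [mul_assoc, hu', ← h1, ← hu', ← mul_assoc, Units.inv_mul, one_mul]
    rw [h2, Matrix.trace_units_conj']
    simp only [Matrix.trace, Matrix.diag_apply, Matrix.map_apply, map_sum]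
  · obtain ⟨q, hq⟩ := pr_mem_ev hR hs hu hx
    exact ⟨q, by rw [← pr_zero_eq, hq]⟩

/-- Curves over a field. -/
theorem t_ZD2 : Stmt_ZD2 := by
  classical
  intro κ _ g d R hd hdκ hR hz
  have : NeZero d := ⟨hd.ne'⟩
  have hu : IsUnit (d : κ) := IsUnit.mk0 _ hdκ
  refine ⟨?_, fun f hf => ?_, fun n hn => ord_of_two_mul_le hR hz hn⟩
  · obtain ⟨N, e, -, -, he, -, -⟩ := exists_echelon hR hz
    choose G hG using fun i j : ZMod d => pr_mem_ev hR he hu (mul_mem (he.1 i) (he.1 j))
    have h1 : gram e = (Matrix.of G : Matrix (ZMod d) (ZMod d) κ[X]).map (ev d) := by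
      ext1 i j
      exact hG i j
    have h2 : (gram e).det = ev d (Matrix.of G : Matrix (ZMod d) (ZMod d) κ[X]).det := by
      rw [h1, det_map_ev]
    obtain ⟨h3, -⟩ := gram_natDegree hR hz he h2
    set p := (Matrix.of G : Matrix (ZMod d) (ZMod d) κ[X]).det with hp
    refine ⟨C p.leadingCoeff⁻¹ * p, ?_, disc_of_dsc hR hu ⟨e, he, C p.leadingCoeff, ?_, ?_⟩⟩
    · rw [mul_comm]
      exact monic_mul_leadingCoeff_inv h3
    · exact isUnit_C.2 (IsUnit.mk0 _ (leadingCoeff_ne_zero.2 h3))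
    · rw [h2, ← mul_assoc, ← C_mul, mul_inv_cancel₀ (leadingCoeff_ne_zero.2 h3), C_1, one_mul]
  · obtain ⟨e, he, u, hu', hdet⟩ := dsc_of_disc hf
    obtain ⟨h1, h2⟩ := gram_natDegree hR hz he hdet
    have h3 : f ≠ 0 := right_ne_zero_of_mul h1
    refine ⟨h3, ?_⟩
    rw [← h2, natDegree_mul hu'.ne_zero h3, natDegree_eq_zero_of_isUnit hu', zero_add]

end Pool.Agent.MG.G0


end

section

/-!
# KIL: the inclusion `f(z) P^⊥ ⊂ P ∂z`
-/

namespace Pool.Agent.MG.G0

namespace KIL

open Polynomial ZL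

variable {A B : Type} [CommRing A] [CommRing B]

theorem ld_zz (d : ℕ) : ld (zz A d) = HahnSeries.single (-(d : ℤ) - 1) (-(d : A)) := by
  ext n
  rw [ld_coeff, zz]
  by_cases h : n = -(d : ℤ) - 1
  · subst h
    have h1 : -(d : ℤ) - 1 + 1 = -(d : ℤ) := by ring
    rw [HahnSeries.coeff_single_same, h1, HahnSeries.coeff_single_same]
    push_cast
    ring
  · rw [HahnSeries.coeff_single_of_ne h, HahnSeries.coeff_single_of_ne (by omega), mul_zero]

theorem isUnit_ld_zz {d : ℕ} (hd : IsUnit (d : A)) : IsUnit (ld (zz A d)) := by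
  rw [ld_zz]
  obtain ⟨u, hu⟩ := hd
  refine IsUnit.of_mul_eq_one (HahnSeries.single ((d : ℤ) + 1) (-(↑u⁻¹ : A))) ?_
  have h1 : -(d : ℤ) - 1 + ((d : ℤ) + 1) = 0 := by ring
  rw [HahnSeries.single_mul_single, ← hu, neg_mul_neg, Units.mul_inv, h1]
  rfl

theorem coeff_mul_ld_zz (d : ℕ) (w : LaurentSeries A) :
    (w * ld (zz A d)).coeff (-1) = -(d : A) * w.coeff d := by
  have h1 : (-1 : ℤ) - (-(d : ℤ) - 1) = d := by ring
  rw [ld_zz, mul_comm, HahnSeries.coeff_single_mul, h1]

theorem coeff_zzpow_mul (d k : ℕ) (w : LaurentSeries A) (n : ℤ) :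
    (zz A d ^ k * w).coeff n = w.coeff (n + (d * k : ℕ)) := by
  rw [zz_pow, HahnSeries.coeff_single_mul, one_mul, sub_neg_eq_add]

/-- A series without terms of positive exponents is a polynomial in `z`. -/
theorem exists_poly {d : ℕ} (hd : 0 < d) (w : LaurentSeries A)
    (hw : ∀ k : ℕ, w.coeff ((d : ℤ) + (d * k : ℕ)) = 0) :
    ∃ q : A[X], pr0 A d w = zpol A d q := by
  classical
  obtain ⟨n, hn⟩ := exists_low w
  let q : A[X] := ∑ k ∈ Finset.range (n + 1), monomial k (w.coeff (-((d * k : ℕ) : ℤ)))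
  have hq : ∀ k, q.coeff k = w.coeff (-((d * k : ℕ) : ℤ)) := by
    intro k
    simp only [q, finsetSum_coeff, coeff_monomial]
    rw [Finset.sum_ite_eq']
    split_ifs with h
    · rfl
    · symm
      apply hn
      rw [Finset.mem_range, not_lt] at h
      have h1 : 1 * k ≤ d * k := Nat.mul_le_mul_right k hd
      omega
  refine ⟨q, ?_⟩
  ext m
  rw [pr0_coeff]
  split_ifs with h
  · obtain ⟨j, rfl⟩ := h
    rcases lt_or_ge 0 j with hj | hj
    · obtain ⟨k, hk⟩ := Int.eq_ofNat_of_zero_le (a := j - 1) (by omega)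
      have hj' : j = k + 1 := by omega
      subst hj'
      have h2 : (d : ℤ) * ((k : ℤ) + 1) = (d : ℤ) + (d * k : ℕ) := by
        push_cast
        ring
      rw [h2, hw k]
      symm
      exact ev_coeff_pos d q _ (by omega)
    · obtain ⟨k, hk⟩ := Int.eq_ofNat_of_zero_le (a := -j) (by omega)
      have h2 : (d : ℤ) * j = -((d * k : ℕ) : ℤ) := by
        have hj' : j = -(k : ℤ) := by omega
        rw [hj']
        push_cast
        ring
      rw [h2]
      exact ((ev_coeff d hd.ne' q k).trans (hq k)).symm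
  · symm
    refine ev_coeff_ne d q m ?_
    rintro k rfl
    apply h
    rw [dvd_neg]
    exact_mod_cast Dvd.intro k rfl

/-- The form `pr₀(x y)` is nondegenerate. -/
theorem nondeg {d : ℕ} [NeZero d] {e : ZMod d → LaurentSeries A} (he : IsUnit (cmat e).det)
    {w : LaurentSeries A} (hw : ∀ i, pr (0 : ZMod d) (e i * w) = 0) : w = 0 := by
  have h1 : (cmat e).mulVec (fun k => pr (-k) w) = 0 := by
    funext i
    rw [Matrix.mulVec, dotProduct]
    change ∑ k, pr k (e i) * pr (-k) w = 0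
    rw [← hw i, pr_mul]
    simp only [zero_sub]
  have h2 : (fun k : ZMod d => pr (-k) w) = 0 := by
    have h4 := congrArg (fun v => Matrix.mulVec (cmat e)⁻¹ v) h1
    simp only [Matrix.mulVec_mulVec, Matrix.nonsing_inv_mul _ he, Matrix.one_mulVec,
      Matrix.mulVec_zero] at h4
    exact h4
  rw [← sum_pr (d := d) w]
  refine Finset.sum_eq_zero fun k _ => ?_
  have h3 := congrFun h2 (-k)
  rw [neg_neg] at h3
  exact h3

theorem kil_of_disc {g d : ℕ} {R : Subalgebra A (LaurentSeries A)} {f : A[X]} (hd : 1 ≤ d)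
    (hu : IsUnit (d : A)) (hR : Kr g R) (hz : zz A d ∈ R) (hD : Disc d R f) : Kil d R f := by
  classical
  intro x hx
  obtain ⟨e, G, he, hG, u, huu, hdet⟩ := hD
  have : NeZero d := ⟨by omega⟩
  have hs := spn_of_zbas he
  have hC := cmat_isUnit hR hs
  obtain ⟨U, hU⟩ := isUnit_ld_zz hu
  obtain ⟨v, hv⟩ := huu
  set x' : LaurentSeries A := x * (↑U⁻¹ : LaurentSeries A) with hx'
  have hxx : x' * ld (zz A d) = x := by
    rw [hx', ← hU, mul_assoc, Units.inv_mul, mul_one]
  have h1 : ∀ j, ∃ q : A[X], pr0 A d (e j * x') = zpol A d q := by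
    intro j
    refine exists_poly hd _ fun k => ?_
    have h2 := hx (zz A d ^ k * e j) (mul_mem (pow_mem hz k) (he.mem j))
    have h3 : x * (zz A d ^ k * e j) = (zz A d ^ k * (e j * x')) * ld (zz A d) := by
      conv_lhs => rw [← hxx]
      ring
    rw [h3, coeff_mul_ld_zz, coeff_zzpow_mul] at h2
    have h4 : IsUnit (-(d : A)) := hu.neg
    exact (h4.mul_right_eq_zero).1 h2
  choose q hq using h1
  have hrel : ∀ j, ∑ i, Matrix.vecMul q G.adjugate i * G i j = v * f * q j := by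
    intro j
    have h2 : Matrix.vecMul (Matrix.vecMul q G.adjugate) G j = v * f * q j := by
      rw [Matrix.vecMul_vecMul, Matrix.adjugate_mul, hdet, ← hv, Matrix.vecMul_smul,
        Matrix.vecMul_one]
      rfl
    exact h2
  refine ⟨∑ i, zpol A d ((↑v⁻¹ : A[X]) * Matrix.vecMul q G.adjugate i) * e i, ?_, ?_⟩
  · refine sum_mem fun i _ => mul_mem ?_ (he.mem i)
    exact (Algebra.adjoin_le (S := R) (Set.singleton_subset_iff.2 hz))
      (Polynomial.aeval_mem_adjoin_singleton A (zz A d))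
  · set y : LaurentSeries A :=
      ∑ i, zpol A d ((↑v⁻¹ : A[X]) * Matrix.vecMul q G.adjugate i) * e i with hy
    have h5 : ∀ j, pr0 A d (e j * (zpol A d f * x' - y)) = 0 := by
      intro j
      have h6 : pr0 A d (e j * (zpol A d f * x')) = zpol A d (f * q j) := by
        rw [map_mul (zpol A d), ← hq j, ← pr0_zpol_mul]
        congr 1
        ring
      have h7 : pr0 A d (e j * y) = zpol A d (f * q j) := by
        have h8 : e j * y = ∑ i, zpol A d ((↑v⁻¹ : A[X]) * Matrix.vecMul q G.adjugate i) *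
            (e i * e j) := by
          rw [hy, Finset.mul_sum]
          refine Finset.sum_congr rfl fun i _ => ?_
          ring
        have h9 : f * q j = ∑ i, ((↑v⁻¹ : A[X]) * Matrix.vecMul q G.adjugate i) * G i j := by
          have h10 : ∑ i, ((↑v⁻¹ : A[X]) * Matrix.vecMul q G.adjugate i) * G i j =
              (↑v⁻¹ : A[X]) * ∑ i, Matrix.vecMul q G.adjugate i * G i j := by
            rw [Finset.mul_sum]
            refine Finset.sum_congr rfl fun i _ => ?_
            ring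
          rw [h10, hrel j, ← mul_assoc, ← mul_assoc, Units.inv_mul, one_mul]
        rw [h8, map_sum, h9, map_sum]
        refine Finset.sum_congr rfl fun i _ => ?_
        rw [pr0_zpol_mul, ← hG i j, map_mul (zpol A d) _ (G i j)]
      rw [mul_sub, map_sub, h6, h7, sub_self]
    have h11 : zpol A d f * x' - y = 0 := by
      refine nondeg hC fun i => ?_
      rw [pr_zero_eq]
      exact h5 _
    have h12 : zpol A d f * x' = y := sub_eq_zero.1 h11
    rw [← h12, mul_assoc, hxx]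

theorem perp_unit {R : Subalgebra A (LaurentSeries A)} {x : KK Unit A} :
    x ∈ Perp (uno R) ↔ ∀ p ∈ R, (x () * p).coeff (-1) = 0 := by
  rw [mem_Perp]
  constructor
  · intro h p hp
    have h1 := h (fun _ => p) hp
    rw [res_unit] at h1
    exact h1
  · intro h p hp
    rw [res_unit]
    exact h (p ()) hp

theorem kil_bc1 (hPBC : Stmt_PBC) {g : ℕ} {R : Subalgebra A (LaurentSeries A)}
    (φ : A →+* B) (hR : Kr g R) (x : LaurentSeries B)
    (hx : ∀ p ∈ bc1 φ R, (x * p).coeff (-1) = 0) :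
    (fun _ : Unit => x) ∈ Submodule.span B (kmap φ '' (Perp (uno R) : Set (KK Unit A))) := by
  have h1 : (fun _ : Unit => x) ∈ Perp (uno (bc1 φ R)) := perp_unit.2 hx
  rw [← bc_uno, hPBC hR φ] at h1
  exact h1

theorem kil_bc2 {d : ℕ} {R : Subalgebra A (LaurentSeries A)} {f : A[X]}
    (φ : A →+* B) (hK : Kil d R f) (y : KK Unit B)
    (hy : y ∈ Submodule.span B (kmap φ '' (Perp (uno R) : Set (KK Unit A)))) :
    ∃ r ∈ bc1 φ R, zpol B d (f.map φ) * y () = r * ld (zz B d) := by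
  induction hy using Submodule.span_induction with
  | mem y hy =>
    obtain ⟨w, hw, rfl⟩ := hy
    obtain ⟨r, hr, e⟩ := hK (w ()) (perp_unit.1 hw)
    have h1 := congrArg (lmap φ) e
    rw [map_mul, map_mul, lmap_zpol, lmap_ld, lmap_zz] at h1
    exact ⟨lmap φ r, Algebra.subset_adjoin ⟨r, hr, rfl⟩, h1⟩
  | zero => exact ⟨0, zero_mem _, by rw [Pi.zero_apply, mul_zero, zero_mul]⟩
  | add y y' _ _ h h' =>
    obtain ⟨r, hr, e⟩ := h
    obtain ⟨r', hr', e'⟩ := h'
    exact ⟨r + r', add_mem hr hr', by rw [Pi.add_apply, mul_add, e, e', add_mul]⟩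
  | smul b y _ h =>
    obtain ⟨r, hr, e⟩ := h
    refine ⟨b • r, Subalgebra.smul_mem _ hr b, ?_⟩
    rw [Pi.smul_apply, mul_smul_comm, e, smul_mul_assoc]

theorem kil_bc (hPBC : Stmt_PBC) {g d : ℕ} {R : Subalgebra A (LaurentSeries A)} {f : A[X]}
    (φ : A →+* B) (hR : Kr g R) (hK : Kil d R f) : Kil d (bc1 φ R) (f.map φ) := by
  intro x hx
  have h1 := kil_bc1 hPBC φ hR x hx
  exact kil_bc2 φ hK (fun _ : Unit => x) h1

theorem mem_of_lmap (hINT : Stmt_INT) {g : ℕ} {R : Subalgebra A (LaurentSeries A)}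
    (φ : A →+* B) (hφ : Function.Injective φ) (hR : Kr g R) (y : LaurentSeries A)
    (hy : lmap φ y ∈ bc1 φ R) : y ∈ R := by
  have h4 : kmap φ (fun _ : Unit => y) ∈ bc φ (uno R) := by
    rw [bc_uno]
    exact mem_uno.2 hy
  exact mem_uno.1 (hINT hR φ hφ (fun _ : Unit => y) h4)

theorem perp_lmap (hPBC : Stmt_PBC) {g : ℕ} {R : Subalgebra A (LaurentSeries A)}
    (φ : A →+* B) (hR : Kr g R) (x : LaurentSeries A) (hx : ∀ p ∈ R, (x * p).coeff (-1) = 0) :
    ∀ p ∈ bc1 φ R, (lmap φ x * p).coeff (-1) = 0 := by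
  have h3 : (fun _ : Unit => x) ∈ Perp (uno R) := perp_unit.2 hx
  have h1 : kmap φ (fun _ : Unit => x) ∈ Perp (uno (bc1 φ R)) := by
    rw [← bc_uno, hPBC hR φ]
    exact Submodule.subset_span ⟨fun _ : Unit => x, h3, rfl⟩
  intro p hp
  have h2 := perp_unit.1 h1 p hp
  rw [kmap_apply] at h2
  exact h2

theorem kil_inj (hPBC : Stmt_PBC) (hINT : Stmt_INT) {g d : ℕ}
    {R : Subalgebra A (LaurentSeries A)} {f : A[X]} (φ : A →+* B) (hφ : Function.Injective φ)
    (hu : IsUnit (d : A)) (hR : Kr g R) (hK : Kil d (bc1 φ R) (f.map φ)) : Kil d R f := by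
  intro x hx
  obtain ⟨y, hy, e⟩ := hK (lmap φ x) (perp_lmap hPBC φ hR x hx)
  obtain ⟨U, hU⟩ := isUnit_ld_zz hu
  obtain ⟨y', hyy⟩ : ∃ y' : LaurentSeries A, y' * ld (zz A d) = zpol A d f * x :=
    ⟨zpol A d f * x * (↑U⁻¹ : LaurentSeries A), by
      rw [← hU, mul_assoc, Units.inv_mul, mul_one]⟩
  have h2 : lmap φ y' = y := by
    have huB : IsUnit (ld (zz B d)) := by
      refine isUnit_ld_zz ?_
      have h3 := hu.map φ
      rwa [map_natCast] at h3
    have h5 := congrArg (lmap φ) hyy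
    rw [map_mul, map_mul, lmap_zpol, lmap_ld, lmap_zz, e] at h5
    exact huB.mul_left_injective h5
  refine ⟨y', mem_of_lmap hINT φ hφ hR y' ?_, hyy.symm⟩
  rw [h2]
  exact hy

end KIL

/-- KIL -/
theorem t_KIL (hPBC : Stmt_PBC) (hINT : Stmt_INT) : Stmt_KIL :=
  ⟨fun hd hu hR hz hD => KIL.kil_of_disc hd hu hR hz hD,
    fun φ hR hK => KIL.kil_bc hPBC φ hR hK,
    fun φ hφ _ hu hR _ _ hK => KIL.kil_inj hPBC hINT φ hφ hu hR hK⟩

end Pool.Agent.MG.G0


end

section

/-!
# Module SCR (SM5): a criterion for smoothness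
-/

open TensorProduct Polynomial

namespace Pool.Agent.MG.G0

namespace SCRm

/-- A dual basis of the differentials. -/
theorem dual_basis (A P : Type) [CommRing A] [CommRing P] [Algebra A P]
    [Algebra.FormallySmooth A P] [Algebra.FiniteType A P] :
    ∃ (n : ℕ) (σ : Ω[P⁄A] →ₗ[P] (Fin n → P)) (g : Fin n → P), ∀ x : Ω[P⁄A],
      x = ∑ i, σ x i • KaehlerDifferential.D A P (g i) := by
  have hfin : Module.Finite P Ω[P⁄A] := inferInstance
  have hproj : Module.Projective P Ω[P⁄A] := inferInstance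
  have h1 : (Submodule.span P (Set.range (KaehlerDifferential.D A P))).FG := by
    rw [KaehlerDifferential.span_range_derivation]
    exact hfin.1
  obtain ⟨s, hs, hs'⟩ := (Submodule.fg_span_iff_fg_span_finset_subset _).1 h1
  let e : Fin s.card ≃ s := s.equivFin.symm
  have hg : ∀ i : Fin s.card, ∃ g : P, KaehlerDifferential.D A P g = e i := fun i => hs (e i).2
  choose g hg using hg
  let π : (Fin s.card → P) →ₗ[P] Ω[P⁄A] :=
    Fintype.linearCombination P (fun i => KaehlerDifferential.D A P (g i))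
  have hπ : ∀ c, π c = ∑ i, c i • KaehlerDifferential.D A P (g i) := fun c => rfl
  have hsurj : Function.Surjective π := by
    rw [← LinearMap.range_eq_top, Fintype.range_linearCombination]
    have h2 : Set.range (fun i => KaehlerDifferential.D A P (g i)) = (s : Set Ω[P⁄A]) := by
      ext x
      constructor
      · rintro ⟨i, rfl⟩
        change KaehlerDifferential.D A P (g i) ∈ (s : Set Ω[P⁄A])
        rw [hg]
        exact (e i).2
      · intro hx
        refine ⟨e.symm ⟨x, hx⟩, ?_⟩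
        change KaehlerDifferential.D A P (g _) = x
        rw [hg, Equiv.apply_symm_apply]
    rw [h2, ← hs', KaehlerDifferential.span_range_derivation]
  obtain ⟨σ, hσ⟩ := Module.projective_lifting_property π LinearMap.id hsurj
  refine ⟨s.card, σ, g, ?_⟩
  intro x
  have h3 := LinearMap.congr_fun hσ x
  rw [LinearMap.comp_apply, hπ, LinearMap.id_apply] at h3
  exact h3.symm

/-- After multiplication by a power of `F` every differential is a multiple of `dz`. -/
theorem unram (A P : Type) [CommRing A] [CommRing P] [Algebra A P] (z F : P)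
    (hU : ((algebraMap P (Localization.Away F)).comp
      (Polynomial.aeval (R := A) z).toRingHom).FormallyUnramified) (a : P) :
    ∃ (k : ℕ) (p : P), F ^ k • KaehlerDifferential.D A P a = p • KaehlerDifferential.D A P z := by
  let S := Localization.Away F
  let u : A[X] →+* S := (algebraMap P S).comp (Polynomial.aeval (R := A) z).toRingHom
  let _ : Algebra A[X] S := u.toAlgebra
  have : IsScalarTower A A[X] S := IsScalarTower.of_algebraMap_eq (by
    intro a
    change algebraMap A S a = algebraMap P S (Polynomial.aeval z (algebraMap A A[X] a))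
    rw [AlgHom.commutes, ← IsScalarTower.algebraMap_apply])
  have : Algebra.FormallyUnramified A[X] S := hU
  have key : ∀ s : S, ∃ c : S, KaehlerDifferential.D A S s =
      c • KaehlerDifferential.D A S (algebraMap P S z) := by
    intro s
    have h1 : KaehlerDifferential.D A S s ∈
        LinearMap.range (KaehlerDifferential.mapBaseChange A A[X] S) := by
      rw [KaehlerDifferential.range_mapBaseChange, LinearMap.mem_ker]
      exact Subsingleton.elim _ _
    obtain ⟨t, ht⟩ := h1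
    rw [← ht]
    clear ht
    induction t using TensorProduct.induction_on with
    | zero => exact ⟨0, by rw [map_zero, zero_smul]⟩
    | tmul s ω =>
      have h2 : ω = (KaehlerDifferential.polynomialEquiv A ω) •
          KaehlerDifferential.D A A[X] X := by
        rw [← KaehlerDifferential.polynomialEquiv_symm, LinearEquiv.symm_apply_apply]
      have h3 : (algebraMap A[X] S) X = algebraMap P S z := by
        change algebraMap P S (Polynomial.aeval z X) = _
        rw [Polynomial.aeval_X]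
      refine ⟨s * algebraMap A[X] S (KaehlerDifferential.polynomialEquiv A ω), ?_⟩
      rw [KaehlerDifferential.mapBaseChange_tmul]
      conv_lhs => rw [h2]
      rw [map_smul, KaehlerDifferential.map_D, h3, mul_smul, algebraMap_smul]
    | add x y hx hy =>
      obtain ⟨c, hc⟩ := hx
      obtain ⟨c', hc'⟩ := hy
      exact ⟨c + c', by rw [map_add, hc, hc', add_smul]⟩
  obtain ⟨c, hc⟩ := key (algebraMap P S a)
  obtain ⟨n, p, hp⟩ := IsLocalization.Away.surj F c
  have h4 : KaehlerDifferential.map A A P S (F ^ n • KaehlerDifferential.D A P a) =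
      KaehlerDifferential.map A A P S (p • KaehlerDifferential.D A P z) := by
    rw [map_smul, map_smul, KaehlerDifferential.map_D, KaehlerDifferential.map_D, hc,
      ← algebraMap_smul S (F ^ n), ← algebraMap_smul S p, ← hp, smul_smul, map_pow, mul_comm]
  obtain ⟨⟨_, m, rfl⟩, hm⟩ := (IsLocalizedModule.eq_iff_exists (Submonoid.powers F)
    (KaehlerDifferential.map A A P S)).1 h4
  refine ⟨m + n, F ^ m * p, ?_⟩
  rw [pow_add, mul_smul, mul_smul]
  exact hm

/-- The cross relation. -/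
theorem cross (A P : Type) [CommRing A] [CommRing P] [Algebra A P] (z F : P)
    (hF : ∀ x : Ω[P⁄A], F • x = 0 → x = 0)
    (hU : ((algebraMap P (Localization.Away F)).comp
      (Polynomial.aeval (R := A) z).toRingHom).FormallyUnramified)
    (E : Derivation A P P) (a b : P) :
    E a • KaehlerDifferential.D A P b = E b • KaehlerDifferential.D A P a := by
  have hF' : ∀ (k : ℕ) (x : Ω[P⁄A]), F ^ k • x = 0 → x = 0 := by
    intro k
    induction k with
    | zero =>
      intro x hx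
      rwa [pow_zero, one_smul] at hx
    | succ k ih =>
      intro x hx
      rw [pow_succ, mul_smul] at hx
      exact hF x (ih _ hx)
  obtain ⟨k, p, hp⟩ := unram A P z F hU a
  obtain ⟨l, q, hq⟩ := unram A P z F hU b
  have hE : ∀ x, E.liftKaehlerDifferential (KaehlerDifferential.D A P x) = E x :=
    fun x => E.liftKaehlerDifferential_comp_D x
  have hp' : F ^ k * E a = p * E z := by
    have h := congrArg E.liftKaehlerDifferential hp
    rw [map_smul, map_smul, hE, hE] at h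
    exact h
  have hq' : F ^ l * E b = q * E z := by
    have h := congrArg E.liftKaehlerDifferential hq
    rw [map_smul, map_smul, hE, hE] at h
    exact h
  rw [← sub_eq_zero]
  apply hF' (k + l)
  rw [smul_sub, sub_eq_zero]
  have e1 : F ^ (k + l) • (E a • KaehlerDifferential.D A P b) =
      (F ^ k * E a) • (F ^ l • KaehlerDifferential.D A P b) := by
    rw [smul_smul, smul_smul]
    congr 1
    ring
  have e2 : F ^ (k + l) • (E b • KaehlerDifferential.D A P a) =
      (F ^ l * E b) • (F ^ k • KaehlerDifferential.D A P a) := by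
    rw [smul_smul, smul_smul]
    congr 1
    ring
  rw [e1, e2, hp', hq', hp, hq, smul_smul, smul_smul]
  congr 1
  ring

/-- The abstract statement. -/
theorem main (A P : Type) [CommRing A] [CommRing P] [Algebra A P]
    [Algebra.FormallySmooth A P] [Algebra.FiniteType A P] (z F : P)
    (hFP : ∀ x : P, F * x = 0 → x = 0)
    (hU : ((algebraMap P (Localization.Away F)).comp
      (Polynomial.aeval (R := A) z).toRingHom).FormallyUnramified) :
    ∃ (n : ℕ) (D : Fin n → Derivation A P P) (g : Fin n → P),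
      (∀ (M : Type) [AddCommGroup M] [Module A M] [Module P M] [IsScalarTower A P M]
        (δ : Derivation A P M) (h : P), (∑ i, D i (g i)) • δ h = δ h) ∧
      ∀ (E : Derivation A P P) (f h : P),
        E f • KaehlerDifferential.D A P h = E h • KaehlerDifferential.D A P f := by
  obtain ⟨n, σ, gg, hσ⟩ := dual_basis A P
  have hFΩ : ∀ x : Ω[P⁄A], F • x = 0 → x = 0 := by
    intro x hx
    have h3 : σ x = 0 := by
      funext i
      apply hFP
      have h4 := congrArg (fun v => v i) (map_smul σ F x)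
      simp only [Pi.smul_apply, smul_eq_mul] at h4
      rw [← h4, hx, map_zero]
      rfl
    rw [hσ x, h3]
    simp
  have hcr := cross A P z F hFΩ hU
  let D : Fin n → Derivation A P P := fun i =>
    ((LinearMap.proj i : (Fin n → P) →ₗ[P] P) ∘ₗ σ).compDer (KaehlerDifferential.D A P)
  have hD : ∀ i x, D i x = σ (KaehlerDifferential.D A P x) i := fun i x => rfl
  refine ⟨n, D, gg, ?_, hcr⟩
  have ht : ∀ h : P, (∑ i, D i (gg i)) • KaehlerDifferential.D A P h =
      KaehlerDifferential.D A P h := by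
    intro h
    rw [Finset.sum_smul]
    conv_rhs => rw [hσ (KaehlerDifferential.D A P h)]
    refine Finset.sum_congr rfl fun i _ => ?_
    rw [hcr (D i) (gg i) h, hD]
  intro M _ _ _ _ δ h
  have h5 := congrArg δ.liftKaehlerDifferential (ht h)
  rw [map_smul, Derivation.liftKaehlerDifferential_comp_D] at h5
  exact h5

end SCRm

open _root_.Pool.Agent.MG.G0.SCRm in
theorem t_SCR (hKFG : Stmt_KFG) (hSKK : Stmt_SKK) : Stmt_SCR := by
  intro I A _ _ _ g P hP hFS d z hd hz f hf hU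
  obtain ⟨N, hN⟩ := KNZ.exists_dense hP
  obtain ⟨hfp, h2⟩ := hKFG hP
  obtain ⟨-, -, -, hunit, -⟩ := h2 N d z hN hd hz
  have := hFS
  have := hfp
  have : Algebra.FiniteType A P := Algebra.FiniteType.of_finitePresentation
  have hFP : ∀ x : P, Polynomial.aeval z f * x = 0 → x = 0 := by
    intro x hx
    have h3 : (Polynomial.aeval (z : KK I A) f) * (x : KK I A) = 0 := by
      have h4 : ((Polynomial.aeval z f : P) : KK I A) = Polynomial.aeval (z : KK I A) f :=
        (Polynomial.aeval_algHom_apply P.val z f).symm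
      rw [← h4, ← Subalgebra.coe_mul, hx]
      rfl
    exact Subtype.ext ((hunit f hf).mul_right_eq_zero.1 h3)
  obtain ⟨n, D, gg, h1, hcr⟩ := main A P z (Polynomial.aeval z f) hFP hU
  refine ⟨n, D, gg, ?_, hcr⟩
  have ht2 : ∀ h : P, ((∑ i, D i (gg i) : P) : KK I A) * dd (h : KK I A) = dd (h : KK I A) :=
    fun h => h1 (KK I A) ((ddD I A).compAlgebraMap P) h
  obtain ⟨⟨m, c, ff, hc⟩, -⟩ := hSKK hP
  have h6 : ((∑ i, D i (gg i) : P) : KK I A) = 1 := by
    rw [← mul_one ((∑ i, D i (gg i) : P) : KK I A), ← hc, Finset.mul_sum]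
    refine Finset.sum_congr rfl fun l _ => ?_
    rw [mul_left_comm, ht2]
  exact Subtype.ext h6

end Pool.Agent.MG.G0


end

section

/-!
# NCO: the discriminant of the local ring at the node
-/

namespace Pool.Agent.MG.G0

namespace NCO

variable {P B ι : Type} [CommRing P] [CommRing B] [Fintype ι]

/-- The mixed sums. -/
def E (Ψ : Bool → (P →+* B)) (e c : ι → P) (a b : Bool) : B := ∑ l, Ψ a (e l) * Ψ b (c l)

theorem E_move {L : Subring P} {Ψ : Bool → (P →+* B)} {e c : ι → P}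
    (h1 : ∀ x ∈ L, Ψ true x = Ψ false x)
    (h2 : ∀ x : P, ∃ a : ι → P, (∀ k, a k ∈ L) ∧ x = ∑ k, a k * e k)
    (h3 : ∀ (x : P) (H : ι → ι → P), (∀ k l, H k l ∈ L) →
      (∀ k, x * e k = ∑ l, H l k * e l) → ∀ l, x * c l = ∑ k, H l k * c k)
    (x : P) (a b : Bool) : Ψ a x * E Ψ e c a b = Ψ b x * E Ψ e c a b := by
  have h1' : ∀ x ∈ L, Ψ a x = Ψ b x := by
    intro x hx
    cases a <;> cases b
    · rfl
    · exact (h1 x hx).symm
    · exact h1 x hx
    · rfl
  choose H' hH' hH using fun k => h2 (x * e k)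
  have h4 := h3 x (fun l k => H' k l) (fun l k => hH' k l) hH
  have e1 : Ψ a x * E Ψ e c a b = ∑ k, ∑ l, Ψ a (H' k l) * Ψ a (e l) * Ψ b (c k) := by
    rw [E, Finset.mul_sum]
    refine Finset.sum_congr rfl fun k _ => ?_
    rw [← mul_assoc, ← map_mul, hH k, map_sum, Finset.sum_mul]
    refine Finset.sum_congr rfl fun l _ => ?_
    rw [map_mul]
  have e2 : Ψ b x * E Ψ e c a b = ∑ l, ∑ k, Ψ a (H' k l) * Ψ a (e l) * Ψ b (c k) := by
    rw [E, Finset.mul_sum]
    refine Finset.sum_congr rfl fun l _ => ?_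
    rw [mul_left_comm, ← map_mul, h4 l, map_sum, Finset.mul_sum]
    refine Finset.sum_congr rfl fun k _ => ?_
    rw [map_mul, h1' _ (hH' k l)]
    ring
  rw [e1, e2, Finset.sum_comm]

end NCO

/-- NCO -/
theorem t_NCO : Stmt_NCO := by
  intro P B ι _ _ _ B₀ L Ψ e c D y h1 h2 h3 h4 hD h5 h6
  have hmove := NCO.E_move h1 h2 h3
  have h6' : IsUnit (Ψ false y - Ψ true y) := by
    have h := h6.neg
    rwa [neg_sub] at h
  have E12 : NCO.E Ψ e c true false = 0 := by
    have h := hmove y true false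
    rw [← sub_eq_zero, ← sub_mul] at h
    exact (h6.mul_right_eq_zero).1 h
  have E21 : NCO.E Ψ e c false true = 0 := by
    have h := hmove y false true
    rw [← sub_eq_zero, ← sub_mul] at h
    exact (h6'.mul_right_eq_zero).1 h
  have Eaa : ∀ a, NCO.E Ψ e c a a = Ψ a D := by
    intro a
    rw [NCO.E, ← h4, map_sum]
    exact Finset.sum_congr rfl fun l _ => (map_mul _ _ _).symm
  have E11 : NCO.E Ψ e c true true = Ψ true D := Eaa true
  have E22 : NCO.E Ψ e c false false = Ψ true D := by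
    rw [Eaa false, h1 D hD]
  refine ⟨?_, ?_⟩
  · obtain ⟨a, b, -, hb, h⟩ := h5 (y * y)
    have ht := h true
    have hf := h false
    rw [map_mul] at ht hf
    have h7 : (Ψ true y + Ψ false y) * (Ψ true y - Ψ false y) =
        b * (Ψ true y - Ψ false y) := by
      linear_combination ht - hf
    rw [h6.mul_left_injective h7]
    exact hb
  · choose a b ha hb h using fun l => h5 (e l)
    choose a' b' ha' hb' h' using fun l => h5 (c l)
    refine ⟨∑ l, b l * b' l, Subring.sum_mem _ fun l _ => mul_mem (hb l) (hb' l), ?_⟩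
    have hbe : ∀ l, b l * (Ψ true y - Ψ false y) = Ψ true (e l) - Ψ false (e l) := by
      intro l
      rw [h l true, h l false]
      ring
    have hbc : ∀ l, b' l * (Ψ true y - Ψ false y) = Ψ true (c l) - Ψ false (c l) := by
      intro l
      rw [h' l true, h' l false]
      ring
    have e1 : (∑ l, b l * b' l) * (Ψ true y - Ψ false y) ^ 2 =
        ∑ l, (Ψ true (e l) - Ψ false (e l)) * (Ψ true (c l) - Ψ false (c l)) := by
      rw [Finset.sum_mul]
      refine Finset.sum_congr rfl fun l _ => ?_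
      rw [← hbe, ← hbc]
      ring
    have e2 : ∑ l, (Ψ true (e l) - Ψ false (e l)) * (Ψ true (c l) - Ψ false (c l)) =
        NCO.E Ψ e c true true - NCO.E Ψ e c true false - NCO.E Ψ e c false true +
          NCO.E Ψ e c false false := by
      simp only [NCO.E, ← Finset.sum_sub_distrib, ← Finset.sum_add_distrib]
      refine Finset.sum_congr rfl fun l _ => ?_
      ring
    rw [e1, e2, E11, E12, E21, E22]
    ring

end Pool.Agent.MG.G0


end

section

/-!
# NPL: the plumbing structure of a Krichever ring with nodal reduction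
-/

open Polynomial

namespace Pool.Agent.MG.G0

theorem t_NPL (hKBC : Stmt_KBC) (hNPA : Stmt_NPA) (hNPB : Stmt_NPB) (hTCA : Stmt_TCA)
    (hNPC : Stmt_NPC) : Stmt_NPL := by
  intro κ A _ _ _ _ rs g d P h s t hnil hfg hd hfac hkr hz hdisc ht hsep hev hG
  have hZDB := t_ZDB hKBC A κ (rs : A →+* κ) (g + 1) d P (by omega) hkr hz
  have hkb : Kr (g + 1) (bc1 (rs : A →+* κ) P) := by
    have h1 := (hKBC.2.2.2 hkr (rs : A →+* κ)).1
    rw [bc_uno] at h1
    exact h1
  have hf : (((X - C s) ^ 2 - C (4 * t)) * h).map (rs : A →+* κ) =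
      (X - C (rs s)) ^ 2 * h.map (rs : A →+* κ) := by
    rw [Polynomial.map_mul, Polynomial.map_sub, Polynomial.map_pow, Polynomial.map_sub,
      Polynomial.map_X, Polynomial.map_C, Polynomial.map_C]
    change ((X - C (rs s)) ^ 2 - C (rs (4 * t))) * _ = _
    rw [map_mul, ht, mul_zero, C_0, sub_zero]
  have hdb := hZDB.2.2 _ hdisc
  obtain ⟨R₀, hR₀, hle, hdR, hfs, hsm, pt₀, hdj, hexp, hPT⟩ :=
    hNPA hd hfac hkb hZDB.1 hdb hf hsep hev hG
  obtain ⟨j, hj, -, hjr⟩ := hNPB rs pt₀ hnil hd hfac hkr hz hdisc ht hsep hev hG hR₀ hle hdR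
    hfs hsm hdj hexp hPT
  have hPT' : PT pt₀ 0 = bc (rs : A →+* κ) (uno P) := by rw [hPT, bc_uno]
  obtain ⟨R, hR, hbc, hfsR, hsmR, pt, hdis, hpt⟩ := hNPC rs pt₀ j hnil hkr hR₀ hfs hsm hdj ht
    hPT' hj hjr
  have hD : Dual R := by
    have h1 := hTCA rs hnil hR
    rw [hbc] at h1
    exact (h1 hfs hsm).2.2 inferInstance hfg
  exact ⟨R, hR, hfsR, hsmR, hD, pt, hdis, hpt⟩

end Pool.Agent.MG.G0


end

section

/-!
# TCZ: existence of the two charts (PAPER_TG.md)
-/

open TensorProduct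

namespace Pool.Agent.MG.G0

namespace TCZ

section

variable {I A κ : Type} [CommRing A] [Field κ] [Algebra κ A]

/-- Monic functions of large pole order. -/
theorem exists_mon [Fintype I] (hKNZ : Stmt_KNZ) {h : ℕ} {S : Subalgebra A (KK I A)}
    (hS : IsKr h S) {m : ℕ} (y : Fin m → S) :
    ∃ (z : S) (d : ℤ), 1 ≤ d ∧ ∀ c : Fin m → κ,
      Mon d ((z + ∑ k, algebraMap κ A (c k) • y k : S) : KK I A) := by
  obtain ⟨⟨N, hN⟩, h2⟩ := hKNZ hS
  choose n hn using fun k => exists_Pol (y k : KK I A)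
  obtain ⟨z, hz, hz'⟩ := (h2 N hN).2.2 ((N + Finset.univ.sup n + 1 : ℕ) : ℤ) (by omega)
  refine ⟨⟨z, hz⟩, ((N + Finset.univ.sup n + 1 : ℕ) : ℤ), by omega, fun c => ?_⟩
  have h3 : ((∑ k, algebraMap κ A (c k) • y k : S) : KK I A) ∈
      Pol I A (((N + Finset.univ.sup n + 1 : ℕ) : ℤ) - 1) := by
    rw [AddSubmonoidClass.coe_finsetSum]
    refine Submodule.sum_mem _ fun k _ => ?_
    refine Submodule.smul_mem _ _ (Pol_mono ?_ (hn k))
    have : n k ≤ Finset.univ.sup n := Finset.le_sup (Finset.mem_univ k)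
    omega
  refine ⟨?_, fun i => ?_⟩
  · exact (Pol I A _).add_mem hz'.1 (Pol_mono (by omega) h3)
  · change (z i + ((∑ k, algebraMap κ A (c k) • y k : S) : KK I A) i).coeff _ = 1
    rw [HahnSeries.coeff_add, hz'.2 i, h3 i _ (by omega), add_zero]

/-- A function which does not vanish at some point does not vanish at the puncture. -/
theorem ne_zero (hTZU : Stmt_TZU) (r : A →ₐ[κ] κ) (hn : ∃ n : ℕ, RingHom.ker r ^ n = ⊥)
    {S : Subalgebra A (KK Unit A)} (e : S →+* κ) (he : ∀ a, e (algebraMap A S a) = r a)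
    (b : S) (hb : e b ≠ 0) : lmap (r : A →+* κ) ((b : KK Unit A) ()) ≠ 0 := by
  intro h0
  have h1 : kmap (r : A →+* κ) (b : KK Unit A) = 0 := by
    funext i
    exact h0
  have h2 : kmap (r : A →+* κ)
      ((1 + algebraMap A S (algebraMap κ A (-(e b)⁻¹)) * b : S) : KK Unit A) = 1 := by
    change kmap (r : A →+* κ) (1 +
      ((algebraMap A S (algebraMap κ A (-(e b)⁻¹)) : S) : KK Unit A) * (b : KK Unit A)) = 1
    rw [map_add, map_one, map_mul, h1, mul_zero, add_zero]
  have h3 := (hTZU r hn).2.2.2 S _ h2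
  have h4 : e (1 + algebraMap A S (algebraMap κ A (-(e b)⁻¹)) * b) = 0 := by
    rw [map_add, map_one, map_mul, he, AlgHom.commutes]
    change 1 + (-(e b)⁻¹) * e b = 0
    rw [neg_mul, inv_mul_cancel₀ hb]
    ring
  exact (h3.map e).ne_zero h4

/-- Elements of the fibre of `P` lift to `P`. -/
theorem lift (hKBC : Stmt_KBC) (r : A →ₐ[κ] κ) (P : Subalgebra A (KK I A))
    (u : bc (r : A →+* κ) P) : ∃ v : P, bcMap (r : A →+* κ) P v = u := by
  have h1 : (u : KK I κ) ∈ Submodule.span κ (kmap (r : A →+* κ) '' (P : Set (KK I A))) := by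
    rw [← hKBC.1]
    exact u.2
  have h2 : ∀ f ∈ Submodule.span κ (kmap (r : A →+* κ) '' (P : Set (KK I A))),
      ∃ v : P, kmap (r : A →+* κ) (v : KK I A) = f := by
    intro f hf
    induction hf using Submodule.span_induction with
    | mem x hx =>
      obtain ⟨y, hy, rfl⟩ := hx
      exact ⟨⟨y, hy⟩, rfl⟩
    | zero => exact ⟨0, map_zero _⟩
    | add x y _ _ hx hy =>
      obtain ⟨v, rfl⟩ := hx
      obtain ⟨w, rfl⟩ := hy
      exact ⟨v + w, map_add (kmap (r : A →+* κ)) (v : KK I A) (w : KK I A)⟩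
    | smul a x _ hx =>
      obtain ⟨v, rfl⟩ := hx
      refine ⟨algebraMap κ A a • v, ?_⟩
      change kmap (r : A →+* κ) (algebraMap κ A a • (v : KK I A)) = _
      rw [kmap_smul]
      congr 1
      exact r.commutes a
  obtain ⟨v, hv⟩ := h2 _ h1
  exact ⟨v, Subtype.ext hv⟩

/-- The value of functions without poles. -/
noncomputable def ev0 {S : Type} [CommRing S] (r : A →ₐ[κ] κ) (F : S →+* LaurentSeries A)
    (hF : ∀ s, ∀ m < 0, (F s).coeff m = 0) : S →+* κ where
  toFun s := r ((F s).coeff 0)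
  map_one' := by rw [map_one, HahnSeries.coeff_one, if_pos rfl, map_one]
  map_zero' := by rw [map_zero, HahnSeries.coeff_zero, map_zero]
  map_add' s t := by rw [map_add, HahnSeries.coeff_add, map_add]
  map_mul' s t := by
    have h := mul_lead (hF s) (hF t)
    rw [add_zero] at h
    rw [map_mul, h, map_mul]

/-- The value at a formal point, modulo the kernel of `r`. -/
noncomputable def pte {R : Subalgebra A (KK I A)} (r : A →ₐ[κ] κ) (p : FPt R) : R →+* κ :=
  (r : A →+* κ).comp ((PowerSeries.constantCoeff (R := A)).comp (p.h : R →+* PowerSeries A))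

theorem pte_apply {R : Subalgebra A (KK I A)} (r : A →ₐ[κ] κ) (p : FPt R) (f : R) :
    pte r p f = r (p.ev f) := rfl

theorem pte_alg {R : Subalgebra A (KK I A)} (r : A →ₐ[κ] κ) (p : FPt R) (a : A) :
    pte r p (algebraMap A R a) = r a := by
  change r (PowerSeries.constantCoeff (p.h (algebraMap A R a))) = r a
  rw [AlgHom.commutes]
  exact congrArg r (PowerSeries.constantCoeff_C a)

/-- The component at `i`. -/
noncomputable def cmp {J : Type} {S : Subalgebra A (KK J A)} {P : Subalgebra A (KK I A)}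
    (f : S →ₐ[A] P) (i : I) : S →+* LaurentSeries A :=
  (Pi.evalRingHom (fun _ : I => LaurentSeries A) i).comp
    ((P.val : P →+* KK I A).comp (f : S →+* P))

theorem cmp_apply {J : Type} {S : Subalgebra A (KK J A)} {P : Subalgebra A (KK I A)}
    (f : S →ₐ[A] P) (i : I) (s : S) : cmp f i s = (f s : KK I A) i := rfl

theorem psl_low (f : PowerSeries A) (m : ℤ) (hm : m < 0) : (psl A f).coeff m = 0 := by
  change ((f : LaurentSeries A)).coeff m = 0
  rw [PowerSeries.coeff_coe, if_pos hm]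

theorem psl_zero (f : PowerSeries A) : (psl A f).coeff 0 = PowerSeries.constantCoeff f := by
  change ((f : LaurentSeries A)).coeff 0 = _
  rw [PowerSeries.coeff_coe, if_neg (by omega), Int.natAbs_zero,
    PowerSeries.coeff_zero_eq_constantCoeff]

end

end TCZ

theorem t_TCZ (hTCN : Stmt_TCN) (hTCR : Stmt_TCR) (hTEP : Stmt_TEP) (hTCQ : Stmt_TCQ)
    (hTCF : Stmt_TCF) (hTZU : Stmt_TZU) (hTZF : Stmt_TZF) (hKNZ : Stmt_KNZ) (hKBC : Stmt_KBC)
    (hKAU : Stmt_KAU) : Stmt_TCZ := by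
  intro A κ _ _ _ _ _ r hn hfg h hh R hR pt
  obtain ⟨P, ι₁, p, hP, hRP, hD, hι₁⟩ := hTCN r hn hfg hR
  obtain ⟨R₂, hC⟩ := hTCR r hn hfg hR hP hRP hD
  obtain ⟨ι', -, h1, h2, -, -⟩ :=
    hTEP (hKAU.2 P (Equiv.sumComm Unit Unit) hP.kr) hC.d2 hC.f2
  let ρ : reix (Equiv.sumComm Unit Unit) P →ₐ[A] P :=
    { toFun := fun w => ⟨fun i => (w : KK (Unit ⊕ Unit) A) ((Equiv.sumComm Unit Unit).symm i), w.2⟩
      map_one' := rfl
      map_mul' := fun _ _ => rfl
      map_zero' := rfl
      map_add' := fun _ _ => rfl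
      commutes' := fun _ => rfl }
  have hI : Inc ι₁ (ρ.comp ι') := by
    refine ⟨fun f i => (hι₁ f).1, fun f i => h1 f i, fun f i m hm => ?_, fun f i m hm => h2 f m hm⟩
    change ((ι₁ f : KK (Unit ⊕ Unit) A) (Sum.inr ())).coeff m = 0
    rw [(hι₁ f).2]
    exact TCZ.psl_low _ m hm
  generalize ρ.comp ι' = ι₂ at hI
  -- the first chart
  obtain ⟨m₁, y₁, hy₁⟩ := hTCQ r hR.smc
  obtain ⟨z₁, d₁, hd₁, hz₁⟩ := TCZ.exists_mon (κ := κ) hKNZ hR.kr y₁
  obtain ⟨D₁, μ₁, hμ₁⟩ := hy₁ 3 ![TCZ.pte r (pt true), TCZ.pte r (pt false), TCZ.pte r p] (by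
    intro l a
    fin_cases l
    · exact TCZ.pte_alg r (pt true) a
    · exact TCZ.pte_alg r (pt false) a
    · exact TCZ.pte_alg r p a) z₁
  have hg₁ := hz₁ μ₁
  generalize (z₁ + ∑ k, algebraMap κ A (μ₁ k) • y₁ k) = g₁ at hμ₁ hg₁
  have ht : r ((pt true).ev (D₁ g₁)) ≠ 0 := hμ₁ 0
  have hf : r ((pt false).ev (D₁ g₁)) ≠ 0 := hμ₁ 1
  have hp : r (p.ev (D₁ g₁)) ≠ 0 := hμ₁ 2
  have e1 : ((ι₁ (D₁ g₁) : KK (Unit ⊕ Unit) A) (Sum.inr ())).coeff 0 = p.ev (D₁ g₁) := by
    rw [(hι₁ (D₁ g₁)).2]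
    exact TCZ.psl_zero _
  have hv1 : r (((ι₁ (D₁ g₁) : KK (Unit ⊕ Unit) A) (Sum.inr ())).coeff 0) ≠ 0 := by
    rw [e1]
    exact hp
  have hu1 : IsUnit (ι₁ (D₁ g₁) : KK (Unit ⊕ Unit) A) := by
    refine (hTZU r hn).2.1 _ ?_
    rintro (i | i)
    · rw [kmap_apply, hI.e1]
      exact TCZ.ne_zero hTZU r hn (TCZ.pte r p) (TCZ.pte_alg r p) (D₁ g₁) hp
    · intro h0
      rw [kmap_apply] at h0
      apply hv1
      have h3 := congrArg (fun s : LaurentSeries κ => s.coeff 0) h0
      exact h3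
  -- the points where the first coordinate is not etale
  have hK : IsKr h (bc (r : A →+* κ) P) := (hKBC.2.2.2 hP.kr (r : A →+* κ)).1
  obtain ⟨hE, hcov⟩ := hTCF hK (bcMap (r : A →+* κ) P (ι₁ (D₁ g₁))) (hu1.map (kmap (r : A →+* κ)))
  -- the second chart
  obtain ⟨m₂, y₂, hy₂⟩ := hTCQ r hC.s2.smc
  obtain ⟨z₂, d₂, hd₂, hz₂⟩ := TCZ.exists_mon (κ := κ) hKNZ hC.s2.kr y₂
  have hr2 : ∀ s, ∀ m < 0, (TCZ.cmp ι₂ (Sum.inl ()) s).coeff m = 0 := fun s m hm =>
    hI.r2 s () m hm
  have hal : ∀ a, TCZ.ev0 r (TCZ.cmp ι₂ (Sum.inl ())) hr2 (algebraMap A R₂ a) = r a := by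
    intro a
    change r ((((ι₂ (algebraMap A R₂ a)) : KK (Unit ⊕ Unit) A) (Sum.inl ())).coeff 0) = r a
    rw [AlgHom.commutes]
    change r ((algebraMap A (LaurentSeries A) a).coeff 0) = r a
    rw [coeff_algebraMap, if_pos rfl]
  obtain ⟨D₂, μ₂, hμ₂⟩ := hy₂ (hE.toFinset.card + 1)
    (Fin.cons (TCZ.ev0 r (TCZ.cmp ι₂ (Sum.inl ())) hr2) (fun l =>
      (((hE.toFinset.equivFin.symm l).1 : bc (r : A →+* κ) P →ₐ[κ] κ) :
        bc (r : A →+* κ) P →+* κ).comp ((bcMap (r : A →+* κ) P).comp (ι₂ : R₂ →+* P)))) (by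
    intro l a
    refine Fin.cases ?_ (fun l => ?_) l
    · rw [Fin.cons_zero]
      exact hal a
    · rw [Fin.cons_succ]
      change (hE.toFinset.equivFin.symm l).1 (bcMap (r : A →+* κ) P (ι₂ (algebraMap A R₂ a))) = _
      rw [AlgHom.commutes]
      have h3 : bcMap (r : A →+* κ) P (algebraMap A P a) =
          algebraMap κ (bc (r : A →+* κ) P) (r a) :=
        Subtype.ext (kmap_algebraMap (r : A →+* κ) a)
      rw [h3, AlgHom.commutes]
      rfl) z₂
  have hg₂ := hz₂ μ₂
  generalize (z₂ + ∑ k, algebraMap κ A (μ₂ k) • y₂ k) = g₂ at hμ₂ hg₂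
  have hv2 : r (((ι₂ (D₂ g₂) : KK (Unit ⊕ Unit) A) (Sum.inl ())).coeff 0) ≠ 0 := by
    have h3 := hμ₂ 0
    rw [Fin.cons_zero] at h3
    exact h3
  have hu2 : IsUnit (ι₂ (D₂ g₂) : KK (Unit ⊕ Unit) A) := by
    refine (hTZU r hn).2.1 _ ?_
    rintro (i | i)
    · intro h0
      rw [kmap_apply] at h0
      apply hv2
      have h3 := congrArg (fun s : LaurentSeries κ => s.coeff 0) h0
      exact h3
    · rw [kmap_apply, hI.e2]
      exact TCZ.ne_zero hTZU r hn _ hal (D₂ g₂) hv2
  have hE2 : ∀ e : bc (r : A →+* κ) P →ₐ[κ] κ, e (bcMap (r : A →+* κ) P (ι₁ (D₁ g₁))) = 0 →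
      e (bcMap (r : A →+* κ) P (ι₂ (D₂ g₂))) ≠ 0 := by
    intro e he
    have h3 := hμ₂ (hE.toFinset.equivFin ⟨e, hE.mem_toFinset.2 he⟩).succ
    rw [Fin.cons_succ, Equiv.symm_apply_apply] at h3
    exact h3
  obtain ⟨u, v, huv⟩ := hcov _ hE2
  obtain ⟨u', rfl⟩ := TCZ.lift hKBC r P u
  obtain ⟨v', rfl⟩ := TCZ.lift hKBC r P v
  have h4 : IsUnit (u' * ι₁ (D₁ g₁) + v' * ι₂ (D₂ g₂)) := by
    refine (hTZU r hn).2.2.2 P _ ?_
    rw [← map_mul, ← map_mul, ← map_add] at huv
    exact congrArg Subtype.val huv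
  refine ⟨R₂, P, ι₁, ι₂, D₁, g₁, D₂, g₂, ⟨hC, hI, fun n hn0 => ?_, ⟨d₁, hd₁, hg₁⟩,
    ⟨d₂, hd₂, hg₂⟩, hu1, hu2, (hTZU r hn).1 _ hv1, (hTZU r hn).1 _ hv2, ?_,
    hTZF r hn hh hC⟩, fun b => ?_⟩
  · rw [← map_natCast (algebraMap κ A) n]
    exact (IsUnit.mk0 (n : κ) (Nat.cast_ne_zero.2 hn0)).map (algebraMap κ A)
  · obtain ⟨w, hw⟩ := h4
    refine ⟨↑w⁻¹ * u', ↑w⁻¹ * v', ?_⟩
    rw [mul_assoc, mul_assoc, ← mul_add, ← hw, Units.inv_mul]
  · refine (hTZU r hn).1 _ ?_
    cases b
    · exact hf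
    · exact ht

end Pool.Agent.MG.G0


end

section

/-!
# ULR: first order properties of ultraproducts of rings (helper94)
-/

open Polynomial

namespace Pool.Agent.MG.G0

namespace ULR

section rings

variable (𝒰 : Ultrafilter ℕ) {R : ℕ → Type} [∀ n, CommRing (R n)]

theorem isDomain (h : ∀ n, IsDomain (R n)) : IsDomain (Ul 𝒰 R) := by
  have hp : (ulI 𝒰 R).IsPrime := by
    refine ⟨fun ht => ?_, fun {x y} hxy => ?_⟩
    · have h1 : (1 : ∀ n, R n) ∈ ulI 𝒰 R := ht ▸ Submodule.mem_top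
      have h2 : ∀ᶠ n in (𝒰 : Filter ℕ), (1 : ∀ n, R n) n = 0 := h1
      obtain ⟨n, hn⟩ := h2.exists
      exact one_ne_zero (α := R n) hn
    · have h2 : ∀ᶠ n in (𝒰 : Filter ℕ), x n * y n = 0 := hxy
      have h3 : ∀ᶠ n in (𝒰 : Filter ℕ), x n = 0 ∨ y n = 0 := by
        filter_upwards [h2] with n hn
        exact mul_eq_zero.1 hn
      exact Ultrafilter.eventually_or.1 h3
  exact Ideal.Quotient.isDomain _

theorem isUnit_iff (f : ∀ n, R n) :
    IsUnit (umk 𝒰 f) ↔ ∀ᶠ n in (𝒰 : Filter ℕ), IsUnit (f n) := by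
  classical
  constructor
  · intro h
    obtain ⟨b, hb⟩ := h.exists_right_inv
    obtain ⟨g, rfl⟩ := umk_surj 𝒰 b
    rw [← map_mul, ← map_one (umk 𝒰), umk_eq] at hb
    filter_upwards [hb] with n hn
    exact IsUnit.of_mul_eq_one (g n) hn
  · intro h
    refine IsUnit.of_mul_eq_one
      (umk 𝒰 fun n => if hu : IsUnit (f n) then ((hu.unit⁻¹ : (R n)ˣ) : R n) else 0) ?_
    rw [← map_mul, ← map_one (umk 𝒰), umk_eq]
    filter_upwards [h] with n hn
    show f n * (if hu : IsUnit (f n) then ((hu.unit⁻¹ : (R n)ˣ) : R n) else 0) = 1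
    rw [dif_pos hn]
    exact hn.mul_val_inv

theorem inj {S : ℕ → Type} [∀ n, CommRing (S n)] (φ : ∀ n, R n →+* S n)
    (h : ∀ n, Function.Injective (φ n)) : Function.Injective (umap 𝒰 φ) := by
  rw [injective_iff_map_eq_zero]
  intro a ha
  obtain ⟨f, rfl⟩ := umk_surj 𝒰 a
  rw [umap_umk, umk_eq_zero] at ha
  rw [umk_eq_zero]
  filter_upwards [ha] with n hn
  exact (injective_iff_map_eq_zero (φ n)).1 (h n) _ hn

end rings

theorem isAlgClosed (𝒰 : Ultrafilter ℕ) (K : ℕ → Type) [∀ n, Field (K n)]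
    (h : ∀ n, IsAlgClosed (K n)) : IsAlgClosed (Ul 𝒰 K) := by
  refine IsAlgClosed.of_exists_root _ fun p hp hirr => ?_
  have hN : 0 < p.natDegree := hirr.natDegree_pos
  choose c hc using fun m : ℕ => umk_surj 𝒰 (p.coeff m)
  have hroot : ∀ n, ∃ x : K n, x ^ p.natDegree +
      ∑ m ∈ Finset.range p.natDegree, c m n * x ^ m = 0 := by
    intro n
    let q : (K n)[X] := X ^ p.natDegree + ∑ m ∈ Finset.range p.natDegree, C (c m n) * X ^ m
    have hd : (∑ m ∈ Finset.range p.natDegree, C (c m n) * X ^ m : (K n)[X]).degree <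
        (p.natDegree : ℕ) := by
      refine (Polynomial.degree_sum_le _ _).trans_lt ?_
      rw [Finset.sup_lt_iff (by exact WithBot.bot_lt_coe _)]
      intro m hm
      refine (Polynomial.degree_C_mul_X_pow_le _ _).trans_lt ?_
      exact_mod_cast Finset.mem_range.1 hm
    have hq : q.degree = (p.natDegree : ℕ) := by
      have := Polynomial.degree_add_eq_left_of_degree_lt
        (p := (X ^ p.natDegree : (K n)[X])) (q := ∑ m ∈ Finset.range p.natDegree, C (c m n) * X ^ m)
        (by rw [Polynomial.degree_X_pow]; exact hd)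
      rw [this, Polynomial.degree_X_pow]
    obtain ⟨x, hx⟩ := IsAlgClosed.exists_root q (by
      rw [hq]
      exact_mod_cast hN.ne')
    refine ⟨x, ?_⟩
    have h1 : q.eval x = 0 := hx
    simpa [q, Polynomial.eval_finset_sum] using h1
  choose x hx using hroot
  refine ⟨umk 𝒰 x, ?_⟩
  rw [Polynomial.eval_eq_sum_range, Finset.sum_range_succ]
  have hl : p.coeff p.natDegree = 1 := hp
  rw [hl, one_mul]
  simp only [← hc, ← map_pow, ← map_mul, ← map_sum, ← map_add]
  rw [umk_eq_zero]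
  refine Filter.Eventually.of_forall fun n => ?_
  have := hx n
  rw [Pi.add_apply, Finset.sum_apply, add_comm]
  exact this

end ULR

open _root_.Pool.Agent.MG.G0.ULR in
/-- ULR -/
theorem t_ULR : Stmt_ULR := by
  intro 𝒰
  refine ⟨fun R _ h => isDomain 𝒰 h, fun R _ f => isUnit_iff 𝒰 f, ?_,
    fun K _ h => isAlgClosed 𝒰 K h, ?_, fun R S _ _ φ h => inj 𝒰 φ h, ?_⟩
  · intro R _ _ h hd
    refine { cond' := fun a b => ?_ }
    obtain ⟨f, rfl⟩ := umk_surj 𝒰 a
    obtain ⟨g, rfl⟩ := umk_surj 𝒰 b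
    have h1 : ∀ n, ∃ c : R n, f n * c = g n ∨ g n * c = f n := fun n => by
      have := h n
      exact PreValuationRing.cond (f n) (g n)
    choose c hc using h1
    refine ⟨umk 𝒰 c, ?_⟩
    have h2 : ∀ᶠ n in (𝒰 : Filter ℕ), f n * c n = g n ∨ g n * c n = f n :=
      Filter.Eventually.of_forall hc
    rw [Ultrafilter.eventually_or] at h2
    rw [← map_mul, ← map_mul, umk_eq, umk_eq]
    exact h2
  · intro R _ h
    refine charZero_of_inj_zero fun m hm => ?_
    by_contra h0
    have h1 : umk 𝒰 (m : ∀ n, R n) = 0 := by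
      rw [map_natCast]
      exact hm
    rw [umk_eq_zero] at h1
    obtain ⟨n, hn, hn'⟩ := (h1.and (h m h0)).exists
    exact hn' hn
  · intro O L _ _ _ _ h
    letI := (umap 𝒰 fun n => algebraMap (O n) (L n)).toAlgebra
    have hD : IsDomain (Ul 𝒰 O) := isDomain 𝒰 inferInstance
    have hinj : Function.Injective (umap 𝒰 fun n => algebraMap (O n) (L n)) :=
      inj 𝒰 _ fun n => by
        have := h n
        exact IsFractionRing.injective (O n) (L n)
    refine (isLocalization_iff _ _).2 ⟨fun y => ?_, fun z => ?_, fun {x y} hxy => ?_⟩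
    · have hy : (y : Ul 𝒰 O) ≠ 0 := nonZeroDivisors.ne_zero y.2
      refine isUnit_iff_ne_zero.2 fun h0 => hy (hinj ?_)
      rw [map_zero]
      exact h0
    · obtain ⟨f, rfl⟩ := umk_surj 𝒰 z
      have h1 : ∀ n, ∃ xy : O n × nonZeroDivisors (O n),
          f n * algebraMap (O n) (L n) xy.2 = algebraMap (O n) (L n) xy.1 := fun n => by
        have := h n
        exact IsLocalization.surj (nonZeroDivisors (O n)) (f n)
      choose xy hxy using h1
      have hne : umk 𝒰 (fun n => ((xy n).2 : O n)) ≠ 0 := by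
        intro h0
        rw [umk_eq_zero] at h0
        obtain ⟨n, hn⟩ := h0.exists
        exact nonZeroDivisors.ne_zero (xy n).2.2 hn
      refine ⟨(umk 𝒰 fun n => (xy n).1, ⟨umk 𝒰 fun n => ((xy n).2 : O n),
        mem_nonZeroDivisors_of_ne_zero hne⟩), ?_⟩
      show umk 𝒰 f * umap 𝒰 _ (umk 𝒰 _) = umap 𝒰 _ (umk 𝒰 _)
      rw [umap_umk, umap_umk, ← map_mul]
      congr 1
      funext n
      exact hxy n
    · exact ⟨1, by rw [hinj hxy]⟩

end Pool.Agent.MG.G0


end

section

/-!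
# ZBT: the family over `k[[t]]`
-/

open Polynomial IsLocalRing

namespace Pool.Agent.MG.G0

namespace ZBT

section

variable {A B C' : Type} [CommRing A] [CommRing B] [CommRing C']

theorem lmap_mem (φ : A →+* B) {R : Subalgebra A (LaurentSeries A)} {f : LaurentSeries A}
    (hf : f ∈ R) : lmap φ f ∈ bc1 φ R := Algebra.subset_adjoin ⟨f, hf, rfl⟩

theorem lmap_comp (φ : A →+* B) (ψ : B →+* C') (f : LaurentSeries A) :
    lmap ψ (lmap φ f) = lmap (ψ.comp φ) f := by
  ext n
  rfl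

theorem bc_comp (φ : A →+* B) (ψ : B →+* C') (R : Subalgebra A (LaurentSeries A)) :
    bc1 ψ (bc1 φ R) = bc1 (ψ.comp φ) R := by
  apply le_antisymm
  · refine Algebra.adjoin_le ?_
    rintro _ ⟨f, hf, rfl⟩
    have hf' : f ∈ Algebra.adjoin B (lmap φ '' (R : Set (LaurentSeries A))) := hf
    induction hf' using Algebra.adjoin_induction with
    | mem x hx =>
      obtain ⟨y, hy, rfl⟩ := hx
      rw [lmap_comp]
      exact lmap_mem _ hy
    | algebraMap r =>
      rw [SetLike.mem_coe, lmap_algebraMap]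
      exact Subalgebra.algebraMap_mem _ _
    | add x y hx hy h1 h2 =>
      rw [SetLike.mem_coe, map_add]
      exact add_mem (h1 hx) (h2 hy)
    | mul x y hx hy h1 h2 =>
      rw [SetLike.mem_coe, map_mul]
      exact mul_mem (h1 hx) (h2 hy)
  · refine Algebra.adjoin_le ?_
    rintro _ ⟨f, hf, rfl⟩
    rw [SetLike.mem_coe, ← lmap_comp]
    exact lmap_mem _ (lmap_mem _ hf)

theorem lmap_id (f : LaurentSeries A) : lmap (RingHom.id A) f = f := by
  ext n
  rfl

theorem bc_id (R : Subalgebra A (LaurentSeries A)) : bc1 (RingHom.id A) R = R := by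
  apply le_antisymm
  · refine Algebra.adjoin_le ?_
    rintro _ ⟨f, hf, rfl⟩
    rw [lmap_id]
    exact hf
  · intro f hf
    have := lmap_mem (RingHom.id A) hf
    rwa [lmap_id] at this

theorem zpol_mem (d : ℕ) (J : Ideal A) (p : A[X]) (hp : ∀ i, p.coeff i ∈ J) (m : ℤ) :
    (zpol A d p).coeff m ∈ J := by
  have h : zpol A d p = ∑ i ∈ p.support, p.coeff i • zz A d ^ i := by
    rw [zpol, Polynomial.aeval_def, Polynomial.eval₂_eq_sum, Polynomial.sum_def]
    refine Finset.sum_congr rfl fun i _ => ?_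
    rw [Algebra.smul_def]
  rw [h, HahnSeries.coeff_sum]
  refine Ideal.sum_mem _ fun i _ => ?_
  rw [HahnSeries.coeff_smul, smul_eq_mul]
  exact Ideal.mul_mem_right _ _ (hp i)

end

section

variable {k : Type} [Field k]

theorem unit_sub {d b : ℕ} (hd : 0 < d) {β : Fin b → k} (α : Fin b → k)
    (hβ : Function.Injective β) {l m : Fin b} (h : l ≠ m) :
    IsUnit (bpt d β α l - bpt d β α m) := by
  rw [PowerSeries.isUnit_iff_constantCoeff]
  have h1 : PowerSeries.constantCoeff (bpt d β α l - bpt d β α m) = β l - β m := by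
    simp [bpt, hd.ne']
  rw [h1]
  exact (sub_ne_zero.2 (hβ.ne h)).isUnit

/-- Interpolation. -/
theorem interp {d b : ℕ} (hd : 0 < d) {β : Fin b → k} (α : Fin b → k)
    (hβ : Function.Injective β) : ∃ a : (PowerSeries k)[X],
      (∀ i, (PowerSeries.X : PowerSeries k) ^ d ∣ a.coeff i) ∧
      ∀ l, a.eval (bpt d β α l) = -(PowerSeries.X ^ d * PowerSeries.C (α l)) := by
  classical
  have hu : ∀ l m : Fin b, ∃ v : PowerSeries k, l ≠ m → v * (bpt d β α l - bpt d β α m) = 1 := by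
    intro l m
    by_cases h : l = m
    · exact ⟨0, fun h' => absurd h h'⟩
    · obtain ⟨v, hv⟩ := (unit_sub hd α hβ h).exists_left_inv
      exact ⟨v, fun _ => hv⟩
  choose v hv using hu
  refine ⟨∑ l, C (-(PowerSeries.X ^ d * PowerSeries.C (α l))) *
    ∏ m ∈ Finset.univ.erase l, (C (v l m) * (X - C (bpt d β α m))), fun i => ?_, fun l => ?_⟩
  · rw [Polynomial.finsetSum_coeff]
    refine Finset.dvd_sum fun l _ => ?_
    rw [Polynomial.coeff_C_mul]
    exact Dvd.dvd.mul_right (dvd_neg.2 (dvd_mul_right _ _)) _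
  · rw [Polynomial.eval_finset_sum, Finset.sum_eq_single l]
    · rw [Polynomial.eval_mul, Polynomial.eval_C, Polynomial.eval_prod, Finset.prod_eq_one, mul_one]
      intro m hm
      rw [Polynomial.eval_mul, Polynomial.eval_C, Polynomial.eval_sub, Polynomial.eval_X,
        Polynomial.eval_C]
      exact hv l m (Finset.ne_of_mem_erase hm).symm
    · intro m _ hm
      rw [Polynomial.eval_mul, Polynomial.eval_prod, Finset.prod_eq_zero (i := l), mul_zero]
      · exact Finset.mem_erase.2 ⟨hm.symm, Finset.mem_univ _⟩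
      · rw [Polynomial.eval_mul, Polynomial.eval_sub, Polynomial.eval_X, Polynomial.eval_C,
          Polynomial.eval_C, sub_self, mul_zero]
    · intro h
      exact absurd (Finset.mem_univ l) h

theorem tX_pow (m : ℕ) : (tmk k m PowerSeries.X) ^ m = 0 := by
  rw [← map_pow]
  exact Ideal.Quotient.eq_zero_iff_mem.2 (Ideal.mem_span_singleton_self _)

theorem tmk_C (m : ℕ) (c : k) : tmk k m (PowerSeries.C c) = algebraMap k (Tr k m) c := rfl

/-- The homomorphism `k[[t]]/t^(m+1) → k[[t]]/t^m`. -/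
noncomputable def tr (k : Type) [Field k] (m : ℕ) : Tr k (m + 1) →+* Tr k m :=
  Ideal.Quotient.lift _ (tmk k m) (by
    intro a ha
    rw [Ideal.mem_span_singleton] at ha
    refine Ideal.Quotient.eq_zero_iff_mem.2 (Ideal.mem_span_singleton.2 ?_)
    exact (pow_dvd_pow _ (Nat.le_succ m)).trans ha)

theorem tr_comp (m : ℕ) : (tr k m).comp (tmk k (m + 1)) = tmk k m := by
  refine RingHom.ext fun x => ?_
  rfl

theorem tr_alg (m : ℕ) : (tr k m).comp (algebraMap k (Tr k (m + 1))) = algebraMap k (Tr k m) := by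
  ext c
  rw [RingHom.comp_apply, ← tmk_C, ← tmk_C, ← RingHom.comp_apply, tr_comp]

/-- The homomorphism `k[[t]]/t → k`. -/
noncomputable def ev (k : Type) [Field k] : Tr k 1 →+* k :=
  Ideal.Quotient.lift _ (PowerSeries.constantCoeff (R := k)) (by
    intro a ha
    rw [Ideal.mem_span_singleton, pow_one] at ha
    exact PowerSeries.X_dvd_iff.1 ha)

theorem ev_comp : (ev k).comp (tmk k 1) = PowerSeries.constantCoeff (R := k) := by
  refine RingHom.ext fun x => ?_
  rfl

theorem ev_alg : (ev k).comp (algebraMap k (Tr k 1)) = RingHom.id k := by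
  ext c
  rw [RingHom.comp_apply, ← tmk_C, ← RingHom.comp_apply, ev_comp]
  simp

end

end ZBT

open _root_.Pool.Agent.MG.G0.ZBT in
theorem t_ZBT (hBGA : Stmt_BGA) (hBGL : Stmt_BGL) (hPSK : Stmt_PSK) (hZBA : Stmt_ZBA)
    (hZBL : Stmt_ZBL) : Stmt_ZBT := by
  intro k _ g d b hd h2 R hR hz β α hβ hD
  have hdk : ((d : ℕ) : k) ≠ 0 := by
    intro h
    apply h2
    rw [Nat.cast_mul, h, mul_zero]
  obtain ⟨a, ha1, ha2⟩ := interp hd α hβ
  have hdu : ∀ m, IsUnit ((d : ℕ) : Tr k m) := by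
    intro m
    have h := (hdk.isUnit).map (algebraMap k (Tr k m))
    rwa [map_natCast] at h
  have hspan : ∀ m i, (a.map (tmk k m)).coeff i ∈ Ideal.span {tmk k m PowerSeries.X} := by
    intro m i
    rw [Polynomial.coeff_map, Ideal.mem_span_singleton]
    exact map_dvd (tmk k m) ((dvd_pow_self _ hd.ne').trans (ha1 i))
  have hnil : ∀ m, Ideal.span {tmk k m PowerSeries.X} ^ m = ⊥ := by
    intro m
    rw [Ideal.span_singleton_pow, tX_pow, Ideal.span_singleton_eq_bot.2 rfl]
  set P : ∀ m, Subalgebra (Tr k m) (LaurentSeries (Tr k m)) := fun m =>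
    psiR d (zpol _ d (a.map (tmk k m))) (bc1 (algebraMap k (Tr k m)) R) with hP
  have hev : ∀ m l, (a.map (tmk k m)).eval (algebraMap k (Tr k m) (β l) +
      (tmk k m PowerSeries.X) ^ d * algebraMap k (Tr k m) (α l)) =
      -((tmk k m PowerSeries.X) ^ d * algebraMap k (Tr k m) (α l)) := by
    intro m l
    have h := congrArg (tmk k m) (ha2 l)
    rw [← Polynomial.eval_map_apply, map_neg, map_mul, map_pow, bpt, map_add, map_mul, map_pow,
      tmk_C, tmk_C] at h
    exact h
  have hA := fun m => hZBA (A := Tr k m) hd hdk R hR hz β α hβ hD (tmk k m PowerSeries.X)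
    ⟨m, tX_pow m⟩ (a.map (tmk k m)) (hspan m) (hev m)
  obtain ⟨Γ, hΓ1, hΓ2, -⟩ := hBGL.2.1 R hR
  have hPc : ∀ m, bc1 (tr k m) (P (m + 1)) = P m := by
    intro m
    obtain ⟨-, h⟩ := (hPSK d hd (hdu (m + 1)) _ ⟨m + 1, hnil (m + 1)⟩).1
      (zpol _ d (a.map (tmk k (m + 1)))) (zpol_mem d _ _ (hspan (m + 1)))
    obtain ⟨-, -, h, -⟩ := h (bc1 (algebraMap k (Tr k (m + 1))) R)
    rw [hP]
    dsimp only
    rw [h, lmap_zpol, Polynomial.map_map, tr_comp, bc_comp, tr_alg]
  obtain ⟨Q, hQ1, hQ2, hQ3⟩ := hZBL Γ P (fun m => (hA m).2.2 Γ hΓ2) (by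
    intro m x hx
    rw [← hPc m, ← tr_comp, ← lmap_comp]
    exact lmap_mem _ hx)
  have h6 : bc1 (PowerSeries.constantCoeff (R := k)) Q = R := by
    rw [← ev_comp, ← bc_comp, hQ3]
    obtain ⟨-, h⟩ := (hPSK d hd (hdu 1) _ ⟨1, hnil 1⟩).1
      (zpol _ d (a.map (tmk k 1))) (zpol_mem d _ _ (hspan 1))
    obtain ⟨-, -, -, h⟩ := h (bc1 (algebraMap k (Tr k 1)) R)
    rw [hP]
    dsimp only
    rw [h (ev k), bc_comp, ev_alg, bc_id]
    intro x hx
    have h0 : Ideal.span {tmk k 1 PowerSeries.X} = ⊥ := (pow_one _).symm.trans (hnil 1)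
    rw [h0, Ideal.mem_bot] at hx
    rw [hx, map_zero]
  refine ⟨a, Q, ha1, ha2, ?_, ?_, hQ3, h6, ?_⟩
  · rw [hQ2]
    intro m
    rw [lmap_zz]
    exact (hA m).1
  · intro Γ' hΓ'
    have : IsLocalHom (PowerSeries.constantCoeff (R := k)) :=
      ⟨fun x hx => PowerSeries.isUnit_iff_constantCoeff.2 hx⟩
    refine hBGL.1 (PowerSeries.constantCoeff (R := k)) Q Γ' ((hBGA.1 Γ Q hQ1).1) ?_
    rw [h6]
    exact hΓ'
  · intro m
    rw [hQ3 m]
    exact (hA m).2.1

end Pool.Agent.MG.G0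


end

section

set_option autoImplicit false

/-!
# ZBO: the discriminant over `k((t))`
-/

open Polynomial

namespace Pool.Agent.MG.G0

open ZL

namespace ZBOp

section general

variable {A B C' : Type} [CommRing A] [CommRing B] [CommRing C']

/-- For a surjective homomorphism the base change is the image. -/
theorem exists_lift (hKBC : Stmt_KBC) (φ : A →+* B) (hφ : Function.Surjective φ)
    (P : Subalgebra A (LaurentSeries A)) {x : LaurentSeries B} (hx : x ∈ bc1 φ P) :
    ∃ y ∈ P, lmap φ y = x := by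
  have h1 : (fun _ : Unit => x) ∈ Submodule.span B (kmap φ '' (uno P : Set (KK Unit A))) := by
    rw [← hKBC.1 φ (uno P), bc_uno]
    exact hx
  have key : ∀ y ∈ Submodule.span B (kmap φ '' (uno P : Set (KK Unit A))),
      ∃ w ∈ P, lmap φ w = y () := by
    intro y hy
    induction hy using Submodule.span_induction with
    | mem y hy =>
      obtain ⟨w, hw, rfl⟩ := hy
      exact ⟨w (), hw, rfl⟩
    | zero => exact ⟨0, zero_mem _, map_zero _⟩
    | add y y' _ _ h h' =>
      obtain ⟨w, hw, h1⟩ := h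
      obtain ⟨w', hw', h1'⟩ := h'
      exact ⟨w + w', add_mem hw hw', by rw [map_add, h1, h1', Pi.add_apply]⟩
    | smul b y _ h =>
      obtain ⟨w, hw, h1⟩ := h
      obtain ⟨a, rfl⟩ := hφ b
      exact ⟨a • w, P.smul_mem hw a, by rw [lmap_smul, h1, Pi.smul_apply]⟩
  exact key _ h1

theorem bc1_comp (hKBC : Stmt_KBC) (φ : A →+* B) (ψ : B →+* C')
    (P : Subalgebra A (LaurentSeries A)) : bc1 (ψ.comp φ) P = bc1 ψ (bc1 φ P) := by
  have h := hKBC.2.1 φ ψ (uno P)
  rw [bc_uno, bc_uno, bc_uno] at h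
  rw [← duo_uno (bc1 (ψ.comp φ) P), h, duo_uno]

theorem exists_div [IsDomain A] {t : A} (ht : t ≠ 0) (x : LaurentSeries A)
    (h : ∀ m, t ∣ x.coeff m) : ∃ y : LaurentSeries A, x = t • y := by
  choose c hc using h
  refine ⟨⟨c, x.isPWO_support.mono fun m hm => ?_⟩, ?_⟩
  · rw [Function.mem_support] at hm
    rw [HahnSeries.mem_support, hc m]
    exact mul_ne_zero ht hm
  · ext m
    rw [hc m]
    rfl

/-- Division by a scalar in a Krichever ring. -/
theorem kr_div [IsDomain A] {g : ℕ} {P : Subalgebra A (LaurentSeries A)} (hP : Kr g P) {t : A}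
    (ht : t ≠ 0) {x : LaurentSeries A} (hx : x ∈ P) (h : ∀ m, t ∣ x.coeff m) :
    ∃ y ∈ P, x = t • y := by
  obtain ⟨hc, L, -, hk⟩ := Kr_iff.1 hP
  obtain ⟨y, rfl⟩ := exists_div ht x h
  have h1 : L (t • y) = 0 := (hk _).2 ⟨t • y, hx, by rw [sub_self]; exact zero_mem _⟩
  have h2 : L y = 0 := by
    rw [map_smul] at h1
    funext j
    have h3 := congrFun h1 j
    rw [Pi.smul_apply, smul_eq_mul, Pi.zero_apply] at h3
    exact (mul_eq_zero.1 h3).resolve_left ht
  obtain ⟨p, hp, hq⟩ := (hk y).1 h2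
  obtain ⟨a, ha⟩ := hc (t • (y - p)) (by rw [smul_sub]; exact sub_mem hx (P.smul_mem hp t))
    (Submodule.smul_mem _ _ hq)
  have h4 : y - p = algebraMap A (LaurentSeries A) ((y - p).coeff 0) := by
    ext m
    rw [coeff_algebraMap]
    split_ifs with hm
    · rw [hm]
    · have h5 : t * (y - p).coeff m = 0 := by
        have h6 := congrArg (fun f : LaurentSeries A => f.coeff m) ha
        simp only [HahnSeries.coeff_smul, smul_eq_mul] at h6
        rw [h6, coeff_algebraMap, if_neg hm]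
      exact (mul_eq_zero.1 h5).resolve_left ht
  refine ⟨y, ?_, rfl⟩
  have h7 : y = p + algebraMap A (LaurentSeries A) ((y - p).coeff 0) := by
    rw [← h4]
    abel
  rw [h7]
  exact add_mem hp (P.algebraMap_mem _)

/-- A Laurent series which becomes a polynomial in `z` over a larger ring is one. -/
theorem exists_ev {d : ℕ} (hd : d ≠ 0) {φ : A →+* B} (hφ : Function.Injective φ)
    {y : LaurentSeries A} {q : B[X]} (h : lmap φ y = ev d q) :
    ∃ p : A[X], y = ev d p ∧ p.map φ = q := by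
  have h1 : (∑ j ∈ Finset.range (q.natDegree + 1),
      monomial j (y.coeff (-((d * j : ℕ) : ℤ)))).map φ = q := by
    ext n
    rw [coeff_map, finsetSum_coeff]
    have h2 : ∀ j, φ (y.coeff (-((d * j : ℕ) : ℤ))) = q.coeff j := by
      intro j
      rw [← lmap_coeff, h, ev_coeff d hd]
    simp only [coeff_monomial]
    rw [Finset.sum_ite_eq' (Finset.range (q.natDegree + 1)) n
      fun j => y.coeff (-((d * j : ℕ) : ℤ))]
    split_ifs with hn
    · exact h2 n
    · rw [map_zero, coeff_eq_zero_of_natDegree_lt]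
      rw [Finset.mem_range] at hn
      omega
  refine ⟨_, ?_, h1⟩
  apply lmap_injective hφ
  rw [lmap_ev, h1, h]

end general

theorem ev_mem {A : Type} [CommRing A] {d : ℕ} {R : Subalgebra A (LaurentSeries A)}
    (hz : zz A d ∈ R) (q : A[X]) : (ev d q : LaurentSeries A) ∈ R := by
  have h1 : (ev d q : LaurentSeries A) ∈ Algebra.adjoin A {zz A d} :=
    Polynomial.aeval_mem_adjoin_singleton A (zz A d)
  exact Algebra.adjoin_le (Set.singleton_subset_iff.2 hz) h1

section approx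

variable {A B C' : Type} [CommRing A] [IsDomain A] [CommRing B] [CommRing C'] {g d : ℕ} [NeZero d]

/-- Generation modulo all powers of `t`. -/
theorem approx (φ : A →+* B) (hφ : Function.Surjective φ) {t : A} (ht : t ≠ 0)
    (hk : ∀ a, φ a = 0 → t ∣ a) {P : Subalgebra A (LaurentSeries A)}
    (hP : Kr g P) (hz : zz A d ∈ P) {e : ZMod d → LaurentSeries A}
    (he : ∀ i, e i ∈ P) (hs : Spn (bc1 φ P) fun i => lmap φ (e i)) (m : ℕ) :
    ∀ x ∈ P, ∃ q : ZMod d → A[X], ∃ y ∈ P, x = ∑ i, ev d (q i) * e i + t ^ m • y := by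
  induction m with
  | zero =>
    intro x hx
    refine ⟨0, x, hx, ?_⟩
    rw [pow_zero, one_smul]
    simp
  | succ m ih =>
    intro x hx
    obtain ⟨q, y, hy, hxy⟩ := ih x hx
    have h1 : lmap φ y ∈ bc1 φ P := Algebra.subset_adjoin ⟨y, hy, rfl⟩
    obtain ⟨r', hr'⟩ := hs.2 _ h1
    choose r hr using fun i => Polynomial.map_surjective φ hφ (r' i)
    have h2 : y - ∑ i, ev d (r i) * e i ∈ P :=
      sub_mem hy (sum_mem fun i _ => mul_mem (ev_mem hz _) (he i))
    have h3 : lmap φ (y - ∑ i, ev d (r i) * e i) = 0 := by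
      rw [map_sub, hr', map_sum, sub_eq_zero]
      refine Finset.sum_congr rfl fun i _ => ?_
      rw [map_mul, lmap_ev, hr]
    obtain ⟨y', hy', hyy⟩ := kr_div hP ht h2 (by
        intro n
        apply hk
        have h4 := congrArg (fun f : LaurentSeries B => f.coeff n) h3
        simpa only [lmap_coeff, HahnSeries.coeff_zero] using h4)
    refine ⟨fun i => q i + C (t ^ m) * r i, y', hy', ?_⟩
    have h5 : y = ∑ i, ev d (r i) * e i + t • y' := by
      rw [← hyy]
      abel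
    rw [hxy]
    conv_lhs => rw [h5]
    rw [smul_add, smul_smul, ← pow_succ, ← add_assoc]
    refine congrArg (fun f => f + _) ?_
    rw [Finset.smul_sum, ← Finset.sum_add_distrib]
    refine Finset.sum_congr rfl fun i _ => ?_
    rw [map_add, map_mul, ev_C, add_mul, Algebra.smul_def]
    ring

theorem spn_mod (hKBC : Stmt_KBC) (φ : A →+* B) (hφ : Function.Surjective φ) {t : A}
    (ht : t ≠ 0) (hk : ∀ a, φ a = 0 → t ∣ a) {P : Subalgebra A (LaurentSeries A)}
    (hP : Kr g P) (hz : zz A d ∈ P) {e : ZMod d → LaurentSeries A}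
    (he : ∀ i, e i ∈ P) (hs : Spn (bc1 φ P) fun i => lmap φ (e i)) (ψ : A →+* C')
    (hψ : Function.Surjective ψ) (m : ℕ) (hm : ψ (t ^ m) = 0) :
    Spn (bc1 ψ P) fun i => lmap ψ (e i) := by
  refine ⟨fun i => Algebra.subset_adjoin ⟨e i, he i, rfl⟩, fun x hx => ?_⟩
  obtain ⟨y, hy, rfl⟩ := exists_lift hKBC ψ hψ P hx
  obtain ⟨q, w, hw, hyw⟩ := approx φ hφ ht hk hP hz he hs m y hy
  refine ⟨fun i => (q i).map ψ, ?_⟩
  rw [hyw, map_add, lmap_smul, hm, zero_smul, add_zero, map_sum]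
  refine Finset.sum_congr rfl fun i _ => ?_
  rw [map_mul, lmap_ev]

/-- The Gram determinant modulo powers of `t`. -/
theorem gram_mod (hKBC : Stmt_KBC) (φ : A →+* B) (hφ : Function.Surjective φ) {t : A}
    (ht : t ≠ 0) (hk : ∀ a, φ a = 0 → t ∣ a) {P : Subalgebra A (LaurentSeries A)}
    (hP : Kr g P) (hz : zz A d ∈ P) {e : ZMod d → LaurentSeries A}
    (he : ∀ i, e i ∈ P) (hs : Spn (bc1 φ P) fun i => lmap φ (e i)) (ψ : A →+* C')
    (hψ : Function.Surjective ψ) (m : ℕ) (hm : ψ (t ^ m) = 0) {G : A[X]}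
    (hG : (gram e).det = ev d G) {f : C'[X]} (hf : Disc d (bc1 ψ P) f) :
    ∃ u : C'[X], IsUnit u ∧ G.map ψ = u * f := by
  have h1 := spn_mod hKBC φ hφ ht hk hP hz he hs ψ hψ m hm
  obtain ⟨e', he', u, hu, hdet⟩ := dsc_of_disc hf
  obtain ⟨a, ha, hae⟩ := exists_change (kr_bc hKBC hP ψ) h1 he'
  refine ⟨a.det ^ 2 * u, (ha.pow 2).mul hu, ?_⟩
  apply ev_injective d (NeZero.ne d)
  rw [← lmap_ev, ← hG, ← lmap_gram_det, gram_det_mul a _ e' hae, hdet, ← map_mul, mul_assoc]

end approx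

/-- The comparison of the discriminants over a field. -/
theorem core {W : Type} [Field W] {b : ℕ} {r : Fin b → W} (hr : Function.Injective r)
    {D G Q δ u : W[X]} (hG1 : G = Q * ∏ l, (X - C (r l))) (hQ : ∀ l, Q.eval (r l) ≠ 0)
    (hG2 : G = δ ^ 2 * (u * D)) (hu : IsUnit u) (hD : D.Monic) (hb : D.natDegree = b) :
    D = ∏ l, (X - C (r l)) := by
  classical
  have hroot : ∀ l, (X - C (r l)) ∣ D := by
    intro l
    rw [dvd_iff_isRoot]
    by_contra hne
    have h1 : G.eval (r l) = 0 := by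
      rw [hG1, eval_mul, eval_prod, Finset.prod_eq_zero (Finset.mem_univ l), mul_zero]
      rw [eval_sub, eval_X, eval_C, sub_self]
    have hul : u.eval (r l) ≠ 0 := (hu.map (evalRingHom (r l))).ne_zero
    rw [hG2, eval_mul, eval_mul, eval_pow] at h1
    have h2 : δ.eval (r l) = 0 := by
      rcases mul_eq_zero.1 h1 with h | h
      · exact pow_eq_zero_iff (two_ne_zero) |>.1 h
      · exact absurd h (mul_ne_zero hul hne)
    obtain ⟨δ', hδ⟩ := dvd_iff_isRoot.2 h2
    have h3 : (X - C (r l)) * ((X - C (r l)) * (δ' ^ 2 * (u * D))) =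
        (X - C (r l)) * (Q * ∏ l' ∈ Finset.univ.erase l, (X - C (r l'))) := by
      have h4 := Finset.mul_prod_erase Finset.univ (fun l' => (X - C (r l') : W[X]))
        (Finset.mem_univ l)
      have h5 : G = (X - C (r l)) * (Q * ∏ l' ∈ Finset.univ.erase l, (X - C (r l'))) := by
        rw [hG1, ← h4]
        ring
      rw [← h5, hG2, hδ]
      ring
    have h4 := mul_left_cancel₀ (X_sub_C_ne_zero (r l)) h3
    have h5 := congrArg (eval (r l)) h4
    rw [eval_mul, eval_sub, eval_X, eval_C, sub_self, zero_mul, eval_mul, eval_prod] at h5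
    have h6 : ∏ l' ∈ Finset.univ.erase l, eval (r l) (X - C (r l')) ≠ 0 := by
      refine Finset.prod_ne_zero_iff.2 fun l' hl' => ?_
      rw [eval_sub, eval_X, eval_C, sub_ne_zero]
      intro h
      exact (Finset.ne_of_mem_erase hl') (hr h).symm
    exact mul_ne_zero (hQ l) h6 h5.symm
  have hdvd : (∏ l, (X - C (r l))) ∣ D :=
    Finset.prod_dvd_of_coprime ((pairwise_coprime_X_sub_C hr).set_pairwise _) fun l _ => hroot l
  refine eq_of_monic_of_dvd_of_natDegree_le (monic_prod_X_sub_C _ _) hD hdvd ?_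
  rw [hb, natDegree_finsetProd_X_sub_C_eq_card, Finset.card_univ, Fintype.card_fin]

section pw

variable {k : Type} [Field k]

/-- The constant coefficient. -/
noncomputable abbrev cc (k : Type) [Field k] : PowerSeries k →+* k :=
  PowerSeries.constantCoeff (R := k)

theorem cc_surjective : Function.Surjective (cc k) := fun a => ⟨PowerSeries.C a, by simp⟩

/-- The residue homomorphism of `k[[t]]/t`. -/
noncomputable def rs (k : Type) [Field k] : Tr k 1 →+* k :=
  Ideal.Quotient.lift _ (cc k) fun a ha => by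
    rw [pow_one, Ideal.mem_span_singleton] at ha
    exact PowerSeries.X_dvd_iff.1 ha

theorem rs_comp : (rs k).comp (tmk k 1) = cc k := by
  ext a
  rfl

/-- The polynomial of the branch points over `k[[t]]`. -/
noncomputable def FF' {b : ℕ} (d : ℕ) (β α : Fin b → k) : (PowerSeries k)[X] :=
  ∏ l, (X - C (bpt d β α l))

theorem FF'_monic {b : ℕ} (d : ℕ) (β α : Fin b → k) : (FF' d β α).Monic :=
  monic_prod_X_sub_C _ _

theorem FF'_map {B : Type} [CommRing B] {b : ℕ} (d : ℕ) (β α : Fin b → k)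
    (φ : PowerSeries k →+* B) : (FF' d β α).map φ = ∏ l, (X - C (φ (bpt d β α l))) := by
  rw [FF', Polynomial.map_prod]
  refine Finset.prod_congr rfl fun l _ => ?_
  rw [Polynomial.map_sub, Polynomial.map_X, Polynomial.map_C]

theorem FF'_tmk {b : ℕ} (d : ℕ) (β α : Fin b → k) (m : ℕ) :
    (FF' d β α).map (tmk k m) = ft d β α (tmk k m PowerSeries.X) := by
  rw [FF'_map, ft]
  refine Finset.prod_congr rfl fun l _ => ?_
  rw [bpt, map_add, map_mul, map_pow]
  rfl

theorem cc_bpt {b d : ℕ} (hd : 0 < d) (β α : Fin b → k) (l : Fin b) :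
    cc k (bpt d β α l) = β l := by
  rw [bpt, map_add, map_mul, map_pow]
  simp [hd.ne']

theorem FF'_cc {b d : ℕ} (hd : 0 < d) (β α : Fin b → k) :
    (FF' d β α).map (cc k) = ∏ l, (X - C (β l)) := by
  rw [FF'_map]
  simp only [cc_bpt hd]

end pw

end ZBOp

open _root_.Pool.Agent.MG.G0.ZBOp in
/-- ZBO: the discriminant over `k((t))`. -/
theorem t_ZBO (hKBC : Stmt_KBC) : Stmt_ZBO := by
  classical
  intro k _ g d b hd h2d β α hβ P hP hz hD
  have : NeZero d := ⟨hd.ne'⟩
  have hdk : ((d : ℕ) : k) ≠ 0 := by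
    intro h
    apply h2d
    push_cast
    rw [h, mul_zero]
  -- the reduction to `k`
  have hDk : Disc d (bc1 (cc k) P) (∏ l, (X - C (β l))) := by
    have h1 := (t_ZDB hKBC (Tr k 1) k (ZBOp.rs k) g d (bc1 (tmk k 1) P) hd (kr_bc hKBC hP _)
      (zz_mem_bc hz _)).2.2 _ (hD 1)
    rw [← bc1_comp hKBC, rs_comp, ← FF'_tmk, Polynomial.map_map, rs_comp, FF'_cc hd] at h1
    exact h1
  have hb : b = 2 * g + (d - 1) := by
    have h1 := ((t_ZD2 k g d _ hd hdk (kr_bc hKBC hP (cc k)) (zz_mem_bc hz _)).2.1 _ hDk).2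
    rw [natDegree_finsetProd_X_sub_C_eq_card, Finset.card_univ, Fintype.card_fin] at h1
    exact h1
  obtain ⟨e₀, he₀, -, -, -⟩ := dsc_of_disc hDk
  choose e he hlift using fun i => exists_lift hKBC (cc k) cc_surjective P (he₀.1 i)
  have hs : Spn (bc1 (cc k) P) fun i => lmap (cc k) (e i) := by
    simp only [hlift]
    exact he₀
  -- the generic fibre
  set φ : PowerSeries k →+* LaurentSeries k := HahnSeries.ofPowerSeries ℤ k with hφdef
  have hφ : Function.Injective φ := HahnSeries.ofPowerSeries_injective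
  have hdΩ : ((d : ℕ) : LaurentSeries k) ≠ 0 := by
    intro h
    apply hdk
    have h1 : (algebraMap k (LaurentSeries k)) ((d : ℕ) : k) = 0 := by
      rw [map_natCast]
      exact h
    exact (map_eq_zero _).1 h1
  obtain ⟨⟨D, hDm, hDΩ⟩, hdeg, -⟩ := t_ZD2 (LaurentSeries k) g d _ hd hdΩ (kr_bc hKBC hP φ)
    (zz_mem_bc hz _)
  have hDdeg := (hdeg D hDΩ).2
  obtain ⟨ε, hε, u, hu, hdet⟩ := dsc_of_disc hDΩ
  choose a ha using fun i => hε.2 (lmap φ (e i)) (Algebra.subset_adjoin ⟨e i, he i, rfl⟩)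
  have h1 := gram_det_mul (Matrix.of a) (fun i => lmap φ (e i)) ε ha
  rw [lmap_gram_det, hdet, ← map_mul] at h1
  obtain ⟨G, hG, hGφ⟩ := exists_ev (NeZero.ne d) hφ h1
  have hk : ∀ x : PowerSeries k, cc k x = 0 → (PowerSeries.X : PowerSeries k) ∣ x :=
    fun x hx => PowerSeries.X_dvd_iff.2 hx
  -- divisibility by the polynomial of the branch points
  have hmod : G %ₘ FF' d β α = 0 := by
    have h2 : ∀ m, (G %ₘ FF' d β α).map (tmk k m) = 0 := by
      intro m
      obtain ⟨v, -, hv⟩ := gram_mod hKBC (cc k) cc_surjective PowerSeries.X_ne_zero hk hP hz he hs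
        (tmk k m) Ideal.Quotient.mk_surjective m
        (Ideal.Quotient.eq_zero_iff_mem.2 (Ideal.mem_span_singleton_self _)) hG (hD m)
      rw [map_modByMonic _ (FF'_monic d β α), hv, ← FF'_tmk,
        modByMonic_eq_zero_iff_dvd ((FF'_monic d β α).map _)]
      exact Dvd.intro_left v rfl
    ext1 n
    ext j
    have h3 := congrArg (fun p => coeff p n) (h2 (j + 1))
    simp only [coeff_map, coeff_zero] at h3
    rw [Ideal.Quotient.eq_zero_iff_mem, Ideal.mem_span_singleton, PowerSeries.X_pow_dvd_iff] at h3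
    rw [h3 j (Nat.lt_succ_self j), coeff_zero, map_zero]
  obtain ⟨Q, hQ⟩ := (modByMonic_eq_zero_iff_dvd (FF'_monic d β α)).1 hmod
  have hQk : IsUnit (Q.map (cc k)) := by
    obtain ⟨v, hv, hGv⟩ := gram_mod hKBC (cc k) cc_surjective PowerSeries.X_ne_zero hk hP hz he hs
      (cc k) cc_surjective 1 (by simp) hG hDk
    rw [hQ, Polynomial.map_mul, FF'_cc hd, mul_comm] at hGv
    rw [mul_right_cancel₀ (monic_prod_X_sub_C β Finset.univ).ne_zero hGv]
    exact hv
  have hbpt : Function.Injective fun l => φ (bpt d β α l) := by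
    intro l l' h
    apply hβ
    rw [← cc_bpt hd β α l, ← cc_bpt hd β α l', hφ h]
  have key := core hbpt (G := G.map φ) (Q := Q.map φ) (δ := (Matrix.of a).det) (u := u) (D := D)
    (by rw [hQ, Polynomial.map_mul, FF'_map, mul_comm]) (fun l => by
      rw [eval_map, eval₂_at_apply]
      intro h
      have h4 := (map_eq_zero_iff φ hφ).1 h
      have h5 := congrArg (cc k) h4
      rw [← eval₂_at_apply, ← eval_map, map_zero] at h5
      exact (hQk.map (evalRingHom (cc k (bpt d β α l)))).ne_zero h5)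
    hGφ hu hDm (by rw [hDdeg, hb])
  rw [← key]
  exact hDΩ

end Pool.Agent.MG.G0


end
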