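import Mathlib
import Pool.Agent.KDM.C07
import Pool.Agent.KDM.C08
import Pool.Agent.KDM.C15
import Pool.Agent.KDM.C20
import Pool.Agent.KDM.C24
import Pool.Agent.KDM.C25
import Pool.Agent.KDM.C30
import Pool.Agent.KDM.C33
import Pool.Agent.KDM.C39

/-! Parts: MG.W.WUA, MG.GQ, MG.H2.YFP, MG.H2.YOB, MG.KX.DMD, MG.KX.DMT, MG.KX.KCF, MG.KX.KCG, MG.KX.KCZ, MG.G0.LOGF, MG.G0.TCfin, MG.G0.TG.TCM -/

section

/-!
# Isomorphic thickenings of a Weierstrass curve differ by a scaling (algebra)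
-/

open CategoryTheory CategoryTheory.Limits AlgebraicGeometry TensorProduct

namespace Pool.Agent.MG.W

namespace WUA

section

variable {B E J : Type} [CommRing B] [CommRing E] [Fintype J] (S : SqE B E J)

include S in
theorem sq0 {c d : E} (hc : S.p c = 0) (hd : S.p d = 0) : c * d = 0 := by
  obtain ⟨f, rfl⟩ := S.ex c hc
  obtain ⟨g, rfl⟩ := S.ex d hd
  rw [Finset.sum_mul_sum]
  refine Finset.sum_eq_zero fun i _ => Finset.sum_eq_zero fun j _ => ?_
  rw [mul_mul_mul_comm, S.mul, zero_mul]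

theorem surj : Function.Surjective S.p := fun b => ⟨S.i b, S.pi b⟩

include S in
theorem inv1 {c : E} (hc : S.p c = 1) : c * (2 - c) = 1 := by
  have h0 : S.p (c - 1) = 0 := by rw [map_sub, hc, map_one, sub_self]
  have := sq0 S h0 h0
  linear_combination -this

theorem bc2_mk {a b : B} {a' b' : E} (ha : a = S.p a') (hb : b = S.p b')
    (P : MvPolynomial (Fin 2) E) :
    bc2 S.p ha hb (Ideal.Quotient.mk _ P) = Ideal.Quotient.mk _ (MvPolynomial.map S.p P) := by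
  have : (bc2 S.p ha hb).comp (Ideal.Quotient.mk (Ideal.span {eq2 E a' b'})) =
      (Ideal.Quotient.mk (Ideal.span {eq2 B a b})).comp (MvPolynomial.map S.p) := by
    refine MvPolynomial.ringHom_ext (fun c => ?_) fun i => ?_
    · rw [RingHom.comp_apply, RingHom.comp_apply, MvPolynomial.map_C]
      exact bc2_b S.p ha hb c
    · rw [RingHom.comp_apply, RingHom.comp_apply, MvPolynomial.map_X]
      fin_cases i
      · exact bc2_z S.p ha hb
      · exact bc2_t S.p ha hb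
  exact congrArg (fun f => f P) this

theorem ker2 {a b : B} {a' b' : E} (ha : a = S.p a') (hb : b = S.p b') (v : A2 E a' b')
    (hv : bc2 S.p ha hb v = 0) : v * v = 0 := by
  obtain ⟨P, rfl⟩ := Ideal.Quotient.mk_surjective v
  rw [bc2_mk, Ideal.Quotient.eq_zero_iff_mem, Ideal.mem_span_singleton'] at hv
  obtain ⟨Q, hQ⟩ := hv
  obtain ⟨Q', rfl⟩ := MvPolynomial.map_surjective S.p (surj S) Q
  have he : MvPolynomial.map S.p (eq2 E a' b') = eq2 B a b := by
    simp [eq2, ha, hb]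
  have h2 : MvPolynomial.map S.p (P - Q' * eq2 E a' b') = 0 := by
    rw [map_sub, map_mul, he, hQ, sub_self]
  have h3 : (P - Q' * eq2 E a' b') * (P - Q' * eq2 E a' b') = 0 := by
    ext n
    rw [MvPolynomial.coeff_mul, MvPolynomial.coeff_zero]
    refine Finset.sum_eq_zero fun x _ => sq0 S ?_ ?_
    · rw [← MvPolynomial.coeff_map, h2, MvPolynomial.coeff_zero]
    · rw [← MvPolynomial.coeff_map, h2, MvPolynomial.coeff_zero]
  have h4 : Ideal.Quotient.mk (Ideal.span {eq2 E a' b'}) P =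
      Ideal.Quotient.mk (Ideal.span {eq2 E a' b'}) (P - Q' * eq2 E a' b') := by
    rw [Ideal.Quotient.eq]
    rw [sub_sub_cancel]
    exact Ideal.mul_mem_left _ _ (Ideal.subset_span rfl)
  rw [h4, ← map_mul, h3, map_zero]

end

section

variable {R : Type} [CommRing R] (a b : R)

theorem uni (h : ∀ v : A1 R a b, ∃! pq : Polynomial R × Polynomial R,
      v = Polynomial.aeval (x1 R a b) pq.1 + Polynomial.aeval (x1 R a b) pq.2 * y1 R a b)
    {P Q P' Q' : Polynomial R} (e : Polynomial.aeval (x1 R a b) P +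
      Polynomial.aeval (x1 R a b) Q * y1 R a b = Polynomial.aeval (x1 R a b) P' +
      Polynomial.aeval (x1 R a b) Q' * y1 R a b) : P = P' ∧ Q = Q' := by
  have := (h (Polynomial.aeval (x1 R a b) P +
      Polynomial.aeval (x1 R a b) Q * y1 R a b)).unique (y₁ := (P, Q)) (y₂ := (P', Q')) rfl e
  exact ⟨congrArg Prod.fst this, congrArg Prod.snd this⟩

theorem cf {c3 c1 c0 d3 d2 d1 d0 : R} (h : Polynomial.C c3 * Polynomial.X ^ 3 +
    Polynomial.C c1 * Polynomial.X + Polynomial.C c0 = Polynomial.C d3 * Polynomial.X ^ 3 +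
    Polynomial.C d2 * Polynomial.X ^ 2 + Polynomial.C d1 * Polynomial.X + Polynomial.C d0) :
    c3 = d3 ∧ 0 = d2 ∧ c1 = d1 ∧ c0 = d0 := by
  have e3 := congrArg (fun q => Polynomial.coeff q 3) h
  have e2 := congrArg (fun q => Polynomial.coeff q 2) h
  have e1 := congrArg (fun q => Polynomial.coeff q 1) h
  have e0 := congrArg (fun q => Polynomial.coeff q 0) h
  simp [Polynomial.coeff_C, Polynomial.coeff_X] at e3 e2 e1 e0
  exact ⟨e3, e2, e1, e0⟩

theorem relx : g2 R a b (z2 R a b) ^ 2 * g2 R a b (t2 R a b) * g1 R a b (x1 R a b) = 1 := by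
  rw [g1_x, ← zu_val, ← tu_val]
  have : zu R a b ^ 2 * tu R a b * ((zu R a b)⁻¹ ^ 2 * (tu R a b)⁻¹) = 1 := by
    rw [mul_mul_mul_comm, mul_inv_cancel, mul_one, inv_pow, mul_inv_cancel]
  exact congrArg Units.val this

theorem rely : g2 R a b (z2 R a b) ^ 3 * g2 R a b (t2 R a b) * g1 R a b (y1 R a b) = 1 := by
  rw [g1_y, ← zu_val, ← tu_val]
  have : zu R a b ^ 3 * tu R a b * ((zu R a b)⁻¹ ^ 3 * (tu R a b)⁻¹) = 1 := by
    rw [mul_mul_mul_comm, mul_inv_cancel, mul_one, inv_pow, mul_inv_cancel]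
  exact congrArg Units.val this

end

end WUA

open _root_.Pool.Agent.MG.W.WUA in
/-- WUA -/
theorem t_WUA (hWRG : Stmt_WRG) : Stmt_WUA := by
  intro B E J _ _ _ S a b a' b' a'' b'' ha hb ha' hb' h6 h1 h2 h12 hc1 hc2 k1 k2 r1 r2 ki
  obtain ⟨W1, W2, -, -, -, -, W7, W8⟩ := hWRG E a'' b''
  obtain ⟨V1, -, V3, -, -, -, -, -⟩ := hWRG B a b
  have hZ : h2 (z2 E a' b') ∈ Ideal.span {z2 E a'' b''} := by
    have h := W2 (h2 (z2 E a' b'))
    have h0 : inf2 E a' b' (z2 E a' b') = 0 := lift2_z _ _ _ _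
    rw [ki, h0, map_zero, sub_zero] at h
    exact h
  obtain ⟨w, hw⟩ := Ideal.mem_span_singleton'.1 hZ
  have hw1 : bc2 S.p ha' hb' w = 1 := by
    have e := congrArg (bc2 S.p ha' hb') hw
    rw [map_mul, bc2_z, r2, bc2_z] at e
    refine V3 ?_
    have e2 := congrArg (g2 B a b) e
    rw [map_mul, ← zu_val] at e2
    rw [map_one]
    exact (Units.mul_left_inj (zu B a b)).1 (by rw [one_mul]; exact e2)
  have hwi : w * (2 - w) = 1 := by
    have := ker2 S ha' hb' (w - 1) (by rw [map_sub, hw1, map_one, sub_self])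
    linear_combination -this
  obtain ⟨ti, hti⟩ := ((t2_unit E a' b').map h2).exists_right_inv
  -- the images of x and y
  have hX : (zu E a'' b'').val ^ 2 * g1 E a'' b'' (h1 (x1 E a' b')) =
      g2 E a'' b'' ((2 - w) ^ 2 * ti) := by
    have e := congrArg h12 (relx a' b')
    rw [map_mul, map_mul, map_pow, k1, k2, k2, ← hw, map_one] at e
    have e1 := congrArg (g2 E a'' b'') hwi
    have e2 := congrArg (g2 E a'' b'') hti
    rw [map_mul, map_one] at e1 e2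
    rw [map_mul] at e
    rw [zu_val, map_mul, map_pow]
    generalize g2 E a'' b'' (2 - w) = wi at *
    generalize g2 E a'' b'' ti = t' at *
    generalize g2 E a'' b'' w = w' at *
    generalize g2 E a'' b'' (z2 E a'' b'') = z at *
    generalize g2 E a'' b'' (h2 (t2 E a' b')) = T at *
    generalize g1 E a'' b'' (h1 (x1 E a' b')) = X at *
    calc z ^ 2 * X = z ^ 2 * X * ((w' * wi) ^ 2 * (T * t')) := by rw [e1, e2]; ring
      _ = (w' * z) ^ 2 * T * X * (wi ^ 2 * t') := by ring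
      _ = _ := by rw [e, one_mul]
  have hY : (zu E a'' b'').val ^ 3 * g1 E a'' b'' (h1 (y1 E a' b')) =
      g2 E a'' b'' ((2 - w) ^ 3 * ti) := by
    have e := congrArg h12 (rely a' b')
    rw [map_mul, map_mul, map_pow, k1, k2, k2, ← hw, map_one] at e
    have e1 := congrArg (g2 E a'' b'') hwi
    have e2 := congrArg (g2 E a'' b'') hti
    rw [map_mul, map_one] at e1 e2
    rw [map_mul] at e
    rw [zu_val, map_mul, map_pow]
    generalize g2 E a'' b'' (2 - w) = wi at *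
    generalize g2 E a'' b'' ti = t' at *
    generalize g2 E a'' b'' w = w' at *
    generalize g2 E a'' b'' (z2 E a'' b'') = z at *
    generalize g2 E a'' b'' (h2 (t2 E a' b')) = T at *
    generalize g1 E a'' b'' (h1 (y1 E a' b')) = Y at *
    calc z ^ 3 * Y = z ^ 3 * Y * ((w' * wi) ^ 3 * (T * t')) := by rw [e1, e2]; ring
      _ = (w' * z) ^ 3 * T * Y * (wi ^ 3 * t') := by ring
      _ = _ := by rw [e, one_mul]
  obtain ⟨r, al, hX1⟩ := W7 _ _ hX
  obtain ⟨ta, si, be, hY1⟩ := W8 _ _ hY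
  -- reduction
  have hXr := r1 (x1 E a' b')
  rw [hX1, map_add, map_mul, bc1_b, bc1_b, bc1_x, bc1_x] at hXr
  have hYr := r1 (y1 E a' b')
  rw [hY1, map_add, map_add, map_mul, map_mul, bc1_b, bc1_b, bc1_b, bc1_x, bc1_y, bc1_y] at hYr
  obtain ⟨hr, hal⟩ : S.p r = 0 ∧ S.p al = 1 := by
    have h := uni a b V1 (P := Polynomial.C (S.p r) + Polynomial.C (S.p al) * Polynomial.X)
      (Q := 0) (P' := Polynomial.X) (Q' := 0) (by
        simp only [map_add, map_mul, Polynomial.aeval_C, Polynomial.aeval_X, map_zero]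
        rw [hXr])
    have h0 := congrArg (fun q => Polynomial.coeff q 0) h.1
    have h1 := congrArg (fun q => Polynomial.coeff q 1) h.1
    simp [Polynomial.coeff_C] at h0 h1
    exact ⟨h0, h1⟩
  obtain ⟨hta, hsi, hbe⟩ : S.p ta = 0 ∧ S.p si = 0 ∧ S.p be = 1 := by
    have h := uni a b V1 (P := Polynomial.C (S.p ta) + Polynomial.C (S.p si) * Polynomial.X)
      (Q := Polynomial.C (S.p be)) (P' := 0) (Q' := 1) (by
        simp only [map_add, map_mul, Polynomial.aeval_C, Polynomial.aeval_X, map_zero, map_one]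
        rw [hYr]
        ring)
    have h0 := congrArg (fun q => Polynomial.coeff q 0) h.1
    have h1 := congrArg (fun q => Polynomial.coeff q 1) h.1
    have h2 := congrArg (fun q => Polynomial.coeff q 0) h.2
    simp [Polynomial.coeff_C] at h0 h1 h2
    exact ⟨h0, h1, h2⟩
  -- the relation
  have hrel := congrArg h1 (rel1 E a' b')
  rw [map_pow, map_add, map_add, map_pow, map_mul, hc1, hc1, hX1, hY1] at hrel
  have q1 : algebraMap E (A1 E a'' b'') r * algebraMap E (A1 E a'' b'') r = 0 := by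
    rw [← map_mul, sq0 S hr hr, map_zero]
  have q2 : algebraMap E (A1 E a'' b'') ta * algebraMap E (A1 E a'' b'') ta = 0 := by
    rw [← map_mul, sq0 S hta hta, map_zero]
  have q3 : algebraMap E (A1 E a'' b'') ta * algebraMap E (A1 E a'' b'') si = 0 := by
    rw [← map_mul, sq0 S hta hsi, map_zero]
  have q4 : algebraMap E (A1 E a'' b'') si * algebraMap E (A1 E a'' b'') si = 0 := by
    rw [← map_mul, sq0 S hsi hsi, map_zero]
  have hy2 := rel1 E a'' b''
  have h := uni a'' b'' W1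
    (P := Polynomial.C (be ^ 2) * Polynomial.X ^ 3 + Polynomial.C (be ^ 2 * a'') * Polynomial.X +
      Polynomial.C (be ^ 2 * b''))
    (Q := Polynomial.C (2 * be * si) * Polynomial.X + Polynomial.C (2 * be * ta))
    (P' := Polynomial.C (al ^ 3) * Polynomial.X ^ 3 + Polynomial.C (3 * r * al ^ 2) *
      Polynomial.X ^ 2 + Polynomial.C (a' * al) * Polynomial.X + Polynomial.C (a' * r + b'))
    (Q' := 0) (by
      simp only [map_add, map_mul, Polynomial.aeval_C, Polynomial.aeval_X, map_zero, map_pow,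
        map_ofNat]
      generalize algebraMap E (A1 E a'' b'') r = r' at *
      generalize algebraMap E (A1 E a'' b'') ta = ta' at *
      generalize algebraMap E (A1 E a'' b'') si = si' at *
      generalize algebraMap E (A1 E a'' b'') al = al' at *
      generalize algebraMap E (A1 E a'' b'') be = be' at *
      generalize algebraMap E (A1 E a'' b'') a' = c1 at *
      generalize algebraMap E (A1 E a'' b'') b' = c2 at *
      generalize algebraMap E (A1 E a'' b'') a'' = c3 at *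
      generalize algebraMap E (A1 E a'' b'') b'' = c4 at *
      generalize x1 E a'' b'' = x at *
      generalize y1 E a'' b'' = y at *
      linear_combination hrel - be' ^ 2 * hy2 - q2 - 2 * x * q3 - x ^ 2 * q4 +
        (r' + 3 * al' * x) * q1)
  obtain ⟨c3, c2, c1, c0⟩ := cf h.1
  have d1 := congrArg (fun q => Polynomial.coeff q 1) h.2
  have d0 := congrArg (fun q => Polynomial.coeff q 0) h.2
  simp at d1 d0
  -- inverses
  have hai := inv1 S hal
  have hbi := inv1 S hbe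
  obtain ⟨c, hc⟩ := h6.exists_right_inv
  have h6e : S.p (6 * S.i c) = 1 := by rw [map_mul, S.pi, map_ofNat, hc]
  have hs := inv1 S h6e
  generalize hS : S.i c * (2 - 6 * S.i c) = s
  have hs6 : 6 * s = 1 := by rw [← hS, ← mul_assoc]; exact hs
  have hr0 : r = 0 := by
    calc r = r * (6 * s) * (al * (2 - al)) ^ 2 := by rw [hs6, hai]; ring
      _ = 2 * s * (2 - al) ^ 2 * (3 * r * al ^ 2) := by ring
      _ = 0 := by rw [← c2, mul_zero]
  have hsi0 : si = 0 := by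
    calc si = si * (6 * s) * (be * (2 - be)) := by rw [hs6, hbi]; ring
      _ = 3 * s * (2 - be) * (2 * be * si) := by ring
      _ = 0 := by rw [d1, mul_zero]
  have hta0 : ta = 0 := by
    calc ta = ta * (6 * s) * (be * (2 - be)) := by rw [hs6, hbi]; ring
      _ = 3 * s * (2 - be) * (2 * be * ta) := by ring
      _ = 0 := by rw [d0, mul_zero]
  generalize hA : 2 - al = ai at *
  generalize hB : 2 - be = bi at *
  refine ⟨al * bi, be * ai, ?_, ?_, ?_, ?_, ?_, ?_⟩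
  · calc al * bi * (be * ai) = (al * ai) * (be * bi) := by ring
      _ = 1 := by rw [hai, hbi, mul_one]
  · rw [map_mul, hal, ← hB, map_sub, map_ofNat, hbe]
    norm_num
  · calc a'' = a'' * (be * bi) ^ 4 * (al * ai) ^ 2 := by rw [hai, hbi]; ring
      _ = (be ^ 2 * a'') * be ^ 2 * bi ^ 4 * (al * ai) ^ 2 := by ring
      _ = (a' * al) * al ^ 3 * bi ^ 4 * (al * ai) ^ 2 := by rw [c1, c3]
      _ = (al * bi) ^ 4 * a' := by rw [hai]; ring
  · calc b'' = b'' * (be * bi) ^ 6 := by rw [hbi]; ring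
      _ = (be ^ 2 * b'') * (be ^ 2) * (be ^ 2) * bi ^ 6 := by ring
      _ = (a' * r + b') * al ^ 3 * al ^ 3 * bi ^ 6 := by rw [c0, c3]
      _ = (al * bi) ^ 6 * b' := by rw [hr0]; ring
  · rw [hX1, hr0, map_zero, zero_add]
    congr 1
    rw [← map_pow]
    congr 1
    calc al = al * (al * ai) ^ 2 := by rw [hai]; ring
      _ = al ^ 3 * ai ^ 2 := by ring
      _ = (be * ai) ^ 2 := by rw [← c3]; ring
  · rw [hY1, hsi0, hta0, map_zero, zero_mul, zero_add, zero_add]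
    congr 1
    rw [← map_pow]
    congr 1
    calc be = be * (al * ai) ^ 3 := by rw [hai]; ring
      _ = be * al ^ 3 * ai ^ 3 := by ring
      _ = (be * ai) ^ 3 := by rw [← c3]; ring

end Pool.Agent.MG.W


end

section

/-!
# GQ: a point in general position with respect to two charts
-/

open CategoryTheory CategoryTheory.Limits AlgebraicGeometry TensorProduct

namespace Pool.Agent.MG

namespace GQ

theorem gl_hom {A : Type} [CommRing A] (v : Γ(Sp A, ⊤)) :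
    gl A ((Scheme.ΓSpecIso (CommRingCat.of A)).hom.hom v) = v := by
  change ((Scheme.ΓSpecIso (CommRingCat.of A)).hom ≫ (Scheme.ΓSpecIso (CommRingCat.of A)).inv) v = v
  rw [Iso.hom_inv_id]
  rfl

/-- A `k`-point of the intersection of the charts. -/
theorem chart_pt {n : ℕ} {k : Type} [Field k] {T : TC k} {C : Fam n k} (ct : Charted T C)
    (z : Sp k ⟶ C.X) (hz : z ≫ C.π = 𝟙 _) (hU : ⊤ ≤ z ⁻¹ᵁ (ct.U1 ⊓ ct.U2)) :
    ∃ χ : T.R12 →ₐ[k] k, ct.Is1 z (χ.comp T.j1) := by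
  let χ0 : T.R12 →+* k :=
    ((Scheme.ΓSpecIso (CommRingCat.of k)).hom.hom.comp ((z.appLE (ct.U1 ⊓ ct.U2) ⊤ hU).hom)).comp
      (ct.t12.comp (Algebra.TensorProduct.includeRight : T.R12 →ₐ[k] k ⊗[k] T.R12).toRingHom)
  have h0 : ∀ a, χ0 a = (Scheme.ΓSpecIso (CommRingCat.of k)).hom.hom
      ((z.appLE (ct.U1 ⊓ ct.U2) ⊤ hU).hom (ct.t12 (1 ⊗ₜ a))) := fun _ => rfl
  have hc : ∀ c : k, χ0 (algebraMap k T.R12 c) = c := by
    intro c
    have h1 : (1 : k) ⊗ₜ[k] (algebraMap k T.R12 c) = c ⊗ₜ[k] (1 : T.R12) := by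
      rw [Algebra.algebraMap_eq_smul_one, TensorProduct.tmul_smul, TensorProduct.smul_tmul',
        smul_eq_mul, mul_one]
    rw [h0, h1, ct.c12, coef_comp, hz, coef_id, gl_inv]
  refine ⟨{ χ0 with commutes' := hc }, le_trans hU (by
    intro x hx
    exact hx.1), fun a => ?_⟩
  change _ = gl k (χ0 (T.j1 a))
  rw [h0, gl_hom, ← ct.r1]
  have h2 := Scheme.Hom.map_appLE z hU (homOfLE (inf_le_left : ct.U1 ⊓ ct.U2 ≤ ct.U1)).op
  have h3 := ConcreteCategory.congr_hom h2 (ct.t1 (1 ⊗ₜ a))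
  exact h3.symm

theorem nonempty_of_nontrivial {X : Scheme.{0}} (U : X.Opens) [Nontrivial Γ(X, U)] :
    (U : Set X).Nonempty := by
  by_contra h
  rw [Set.not_nonempty_iff_eq_empty] at h
  have hU : U = ⊥ := TopologicalSpace.Opens.ext h
  subst hU
  have := CommRingCat.subsingleton_of_isTerminal X.sheaf.isTerminalOfEmpty
  exact not_subsingleton Γ(X, ⊥) this

theorem nonempty12 {n : ℕ} {k : Type} [Field k] {T : TC k} {C : Fam n k} (ch : Cht C T) :
    ((ch.ct.U1 ⊓ ch.ct.U2 : C.X.Opens) : Set C.X).Nonempty := by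
  have hd := ch.dom
  have h1 : Nontrivial (k ⊗[k] T.R12) :=
    (Algebra.TensorProduct.lid k T.R12).symm.injective.nontrivial
  have h2 : Nontrivial Γ(C.X, ch.ct.U1 ⊓ ch.ct.U2) := ch.ct.b12.1.nontrivial
  exact nonempty_of_nontrivial _

theorem ne_of_chart {n : ℕ} {k : Type} [Field k] {T : TC k} {C : Fam n k} (ch : Cht C T)
    (χ : T.R12 →ₐ[k] k) (i : Fin n) : (χ.comp T.j1) T.x ≠ ch.pt i T.x := by
  intro h
  have h1 := (ch.unit i).map χ
  rw [map_sub, map_sub, AlgHom.commutes, AlgHom.commutes] at h1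
  have h2 : χ (T.j1 T.x) = ch.pt i T.x := h
  rw [h2] at h1
  exact h1.ne_zero (sub_self _)

end GQ

theorem t_GQ : Stmt_GQ := by
  intro n k _ _ C hprop hsm hcon T T' ch C' f hf hfπ ch'
  have hint : IsIntegral C.X := Two.isIntegral_of_smooth C.π
  have hj : JacobsonSpace C.X := LocallyOfFiniteType.jacobsonSpace C.π
  have hf' : Function.Surjective f := f.surjective
  -- the open set
  let W : C.X.Opens := (ch.ct.U1 ⊓ ch.ct.U2) ⊓ f ⁻¹ᵁ (ch'.ct.U1 ⊓ ch'.ct.U2)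
  have hW : (W : Set C.X).Nonempty := by
    have h1 := GQ.nonempty12 ch
    obtain ⟨y, hy⟩ := GQ.nonempty12 ch'
    obtain ⟨x, rfl⟩ := hf' y
    exact nonempty_preirreducible_inter (ch.ct.U1 ⊓ ch.ct.U2).isOpen
      (f ⁻¹ᵁ (ch'.ct.U1 ⊓ ch'.ct.U2)).isOpen h1 ⟨x, hy⟩
  obtain ⟨x, hxW, hx⟩ := nonempty_inter_closedPoints hW W.isOpen.isLocallyClosed
  let q : Sp k ⟶ C.X := pointOfClosedPoint C.π x hx
  have hq : q ≫ C.π = 𝟙 _ := pointOfClosedPoint_comp C.π x hx
  have hqx : ∀ a, q a = x := pointOfClosedPoint_apply C.π x hx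
  have hU : ⊤ ≤ q ⁻¹ᵁ (ch.ct.U1 ⊓ ch.ct.U2) := by
    intro a _
    change q a ∈ (ch.ct.U1 ⊓ ch.ct.U2)
    rw [hqx]
    exact hxW.1
  have hU' : ⊤ ≤ (q ≫ f) ⁻¹ᵁ (ch'.ct.U1 ⊓ ch'.ct.U2) := by
    intro a _
    change (q ≫ f) a ∈ (ch'.ct.U1 ⊓ ch'.ct.U2)
    rw [Scheme.Hom.comp_apply, hqx]
    exact hxW.2
  have hqf : (q ≫ f) ≫ C'.π = 𝟙 _ := by rw [Category.assoc, hfπ, hq]
  obtain ⟨χ, hχ⟩ := GQ.chart_pt ch.ct q hq hU
  obtain ⟨χ', hχ'⟩ := GQ.chart_pt ch'.ct (q ≫ f) hqf hU'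
  refine ⟨q, hq, ⟨χ.comp T.j1, ?_, GQ.ne_of_chart ch χ⟩, χ'.comp T'.j1, ?_, GQ.ne_of_chart ch' χ'⟩
  · exact (t_TAU ch.ct ch.aff).2.2.2 q (.one (χ.comp T.j1)) hq hχ
  · exact (t_TAU ch'.ct ch'.aff).2.2.2 (q ≫ f) (.one (χ'.comp T'.j1)) hqf hχ'

end Pool.Agent.MG


end

section

/-!
# The charts are flat and of finite presentation
-/

open CategoryTheory CategoryTheory.Limits AlgebraicGeometry TensorProduct

namespace Pool.Agent.MG.H2

namespace YFP

/-! ## The chart `y² = f(x)` -/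

section flat

variable (B : Type) [CommRing B] (f : Fin 7 → B)

/-- The monic equation over `B[x]`. -/
noncomputable def F1 : Polynomial (Polynomial B) :=
  Polynomial.X ^ 2 - Polynomial.C (pp B f)

theorem F1_monic : (F1 B f).Monic := Polynomial.monic_X_pow_sub_C _ two_ne_zero

/-- The free algebra. -/
abbrev M1 : Type := AdjoinRoot (F1 B f)

theorem flatM1 : (algebraMap B (M1 B f)).Flat := by
  have h1 : Module.Free (Polynomial B) (M1 B f) := (F1_monic B f).free_adjoinRoot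
  have h2 : Module.Flat B (M1 B f) := Module.Flat.trans B (Polynomial B) (M1 B f)
  exact (RingHom.flat_algebraMap_iff).2 h2

theorem pp_map {R : Type} [CommRing R] (g : Polynomial B →+* R) :
    g (pp B f) = pol (fun i => g (Polynomial.C (f i))) (g Polynomial.X) := by
  rw [pp, pol_map]

theorem ev1 {R : Type} [CommRing R] (g : Polynomial B →+* R) (r : R) :
    Polynomial.eval₂ g r (F1 B f) =
      r ^ 2 - pol (fun i => g (Polynomial.C (f i))) (g Polynomial.X) := by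
  rw [F1, Polynomial.eval₂_sub, Polynomial.eval₂_X_pow, Polynomial.eval₂_C, pp_map]

theorem relM1 : AdjoinRoot.root (F1 B f) ^ 2 =
    pol (fun i => algebraMap B (M1 B f) (f i)) (AdjoinRoot.of (F1 B f) Polynomial.X) := by
  have h := AdjoinRoot.eval₂_root (F1 B f)
  rw [ev1] at h
  exact sub_eq_zero.1 h

/-- The comparison with the free algebra. -/
noncomputable def c1 : A1 B f →+* M1 B f :=
  lift1 (algebraMap B (M1 B f)) (AdjoinRoot.of (F1 B f) Polynomial.X)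
    (AdjoinRoot.root (F1 B f)) (relM1 B f)

/-- The inverse comparison. -/
noncomputable def d1 : M1 B f →+* A1 B f :=
  AdjoinRoot.lift (Polynomial.eval₂RingHom (algebraMap B (A1 B f)) (x1 B f)) (y1 B f) (by
    have h := rel1 B f
    rw [ev1]
    simp only [Polynomial.coe_eval₂RingHom, Polynomial.eval₂_X, Polynomial.eval₂_C]
    rw [h, sub_self])

theorem d1_C (c : B) : d1 B f (AdjoinRoot.of (F1 B f) (Polynomial.C c)) = algebraMap B _ c := by
  rw [d1, AdjoinRoot.lift_of]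
  simp only [Polynomial.coe_eval₂RingHom, Polynomial.eval₂_C]

theorem d1_X : d1 B f (AdjoinRoot.of (F1 B f) Polynomial.X) = x1 B f := by
  rw [d1, AdjoinRoot.lift_of]
  simp only [Polynomial.coe_eval₂RingHom, Polynomial.eval₂_X]

theorem d1_root : d1 B f (AdjoinRoot.root (F1 B f)) = y1 B f := by
  rw [d1, AdjoinRoot.lift_root]

theorem d1_c1 : (d1 B f).comp (c1 B f) = RingHom.id _ := by
  refine hom1_ext ?_ ?_ ?_
  · intro c
    simp only [RingHom.comp_apply, c1, lift1_b, RingHom.id_apply]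
    exact d1_C B f c
  · simp only [RingHom.comp_apply, c1, lift1_x, RingHom.id_apply]
    exact d1_X B f
  · simp only [RingHom.comp_apply, c1, lift1_y, RingHom.id_apply]
    exact d1_root B f

theorem c1_d1 : (c1 B f).comp (d1 B f) = RingHom.id _ := by
  refine Ideal.Quotient.ringHom_ext ?_
  refine Polynomial.ringHom_ext' (Polynomial.ringHom_ext ?_ ?_) ?_
  · intro c
    change c1 B f (d1 B f (AdjoinRoot.of (F1 B f) (Polynomial.C c))) = _
    rw [d1_C, c1, lift1_b]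
    rfl
  · change c1 B f (d1 B f (AdjoinRoot.of (F1 B f) Polynomial.X)) = _
    rw [d1_X, c1, lift1_x]
    rfl
  · change c1 B f (d1 B f (AdjoinRoot.root (F1 B f))) = _
    rw [d1_root, c1, lift1_y]
    rfl

theorem flat1 : (algebraMap B (A1 B f)).Flat := by
  have h1 : algebraMap B (A1 B f) = (d1 B f).comp (algebraMap B (M1 B f)) := by
    refine RingHom.ext fun c => ?_
    exact (d1_C B f c).symm
  have h2 : Function.Bijective (d1 B f) :=
    ⟨Function.LeftInverse.injective (g := c1 B f) fun v => RingHom.congr_fun (c1_d1 B f) v,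
      Function.RightInverse.surjective (g := c1 B f) fun v => RingHom.congr_fun (d1_c1 B f) v⟩
  rw [h1]
  exact RingHom.Flat.comp (flatM1 B f) (RingHom.Flat.of_bijective h2)

theorem fp1 : (algebraMap B (A1 B f)).FinitePresentation := by
  rw [RingHom.finitePresentation_algebraMap]
  exact Algebra.FinitePresentation.quotient ⟨{eq1 B f}, by simp⟩

end flat

/-! ## The chart `N` -/

section N

variable (B : Type) [CommRing B] (p : Fin 7 → B) (t : B)

theorem NI_fg : (NI B p t).FG := by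
  classical
  refine ⟨{MvPolynomial.X 0 * MvPolynomial.X 1 - MvPolynomial.C t ^ 2,
    MvPolynomial.X 2 ^ 2 - MvPolynomial.X 1 *
      KK (fun i => MvPolynomial.C (p i)) (MvPolynomial.X 0) (MvPolynomial.X 1),
    MvPolynomial.X 3 ^ 2 - MvPolynomial.X 0 *
      KK (fun i => MvPolynomial.C (p i)) (MvPolynomial.X 0) (MvPolynomial.X 1),
    MvPolynomial.X 2 * MvPolynomial.X 3 - MvPolynomial.C t *
      KK (fun i => MvPolynomial.C (p i)) (MvPolynomial.X 0) (MvPolynomial.X 1),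
    MvPolynomial.X 1 * MvPolynomial.X 3 - MvPolynomial.C t * MvPolynomial.X 2,
    MvPolynomial.X 0 * MvPolynomial.X 2 - MvPolynomial.C t * MvPolynomial.X 3}, ?_⟩
  rw [NI]
  congr 1
  simp only [Finset.coe_insert, Finset.coe_singleton]

theorem fpN : (algebraMap B (NN B p t)).FinitePresentation := by
  rw [RingHom.finitePresentation_algebraMap]
  exact Algebra.FinitePresentation.quotient (NI_fg B p t)

/-- The parametrisation of `N` by four polynomials. -/
noncomputable def par : (Polynomial B × Polynomial B) × (Polynomial B × Polynomial B) →ₗ[B]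
    NN B p t where
  toFun v := Polynomial.aeval (xN B p t) v.1.1 + zN B p t * Polynomial.aeval (zN B p t) v.1.2 +
        Polynomial.aeval (xN B p t) v.2.1 * aN B p t + Polynomial.aeval (zN B p t) v.2.2 * bN B p t
  map_add' v w := by
    simp only [Prod.fst_add, Prod.snd_add, map_add]
    ring
  map_smul' c v := by
    simp only [Prod.smul_fst, Prod.smul_snd, map_smul, RingHom.id_apply]
    simp only [smul_add, mul_smul_comm, smul_mul_assoc]

theorem par_bij (hNB : Stmt_YNB) : Function.Bijective (par B p t) := by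
  obtain ⟨h1, h2⟩ := hNB B p t
  constructor
  · rw [← LinearMap.ker_eq_bot, LinearMap.ker_eq_bot']
    rintro ⟨⟨c, d⟩, ⟨e, f⟩⟩ hv
    have hv' : Polynomial.aeval (xN B p t) c + zN B p t * Polynomial.aeval (zN B p t) d +
        Polynomial.aeval (xN B p t) e * aN B p t +
        Polynomial.aeval (zN B p t) f * bN B p t = 0 := hv
    obtain ⟨rfl, rfl, rfl, rfl⟩ := h2 c d e f (by rw [hv', map_zero]) (by rw [hv', map_zero])
    rfl
  · intro v
    obtain ⟨c, d, e, f, h⟩ := h1 v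
    exact ⟨((c, d), (e, f)), h.symm⟩

theorem flatN (hNB : Stmt_YNB) : (algebraMap B (NN B p t)).Flat := by
  have h1 : Module.Free B (NN B p t) :=
    Module.Free.of_equiv (LinearEquiv.ofBijective (par B p t) (par_bij B p t hNB))
  exact (RingHom.flat_algebraMap_iff).2 inferInstance

end N

end YFP

theorem t_YFP (hNB : Stmt_YNB) : Stmt_YFP := fun B _ p t =>
  ⟨⟨YFP.flatN B p t hNB, YFP.fpN B p t⟩, fun f => ⟨YFP.flat1 B f, YFP.fp1 B f⟩⟩

end Pool.Agent.MG.H2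


end

section

/-!
# YOB: base change of the condition
-/

open CategoryTheory CategoryTheory.Limits AlgebraicGeometry TensorProduct

namespace Pool.Agent.MG.H2

namespace YOB

variable {B B' : Type} [CommRing B] [CommRing B'] (φ : B →+* B') {f : Fin 7 → B}
  {f' : Fin 7 → B'}

theorem pp_bc (h : ∀ i, f' i = φ (f i)) : (pp B f).map φ = pp B' f' := by
  change Polynomial.mapRingHom φ (pp B f) = _
  rw [pp, pp, pol_map]
  have h1 : (fun i => Polynomial.mapRingHom φ (Polynomial.C (f i))) =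
      fun i => Polynomial.C (f' i) := by
    funext i
    rw [Polynomial.coe_mapRingHom, Polynomial.map_C, h]
  rw [h1, Polynomial.coe_mapRingHom, Polynomial.map_X]

theorem cop (h : ∀ i, f' i = φ (f i))
    (hf : IsCoprime (pp B f) (Polynomial.derivative (pp B f))) :
    IsCoprime (pp B' f') (Polynomial.derivative (pp B' f')) := by
  have h1 := hf.map (Polynomial.mapRingHom φ)
  rw [Polynomial.coe_mapRingHom, pp_bc φ h, ← Polynomial.derivative_map, pp_bc φ h] at h1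
  exact h1

end YOB

theorem t_YOB : Stmt_YOB := by
  intro B B' _ _ φ p t p' t' hp ht h
  refine ⟨?_, YOB.cop φ (pT_bc φ hp ht) h.sT, YOB.cop φ (pT_bc φ (rev_bc φ hp) ht) h.sQ, ?_⟩
  · have h2 := h.two.map φ
    rwa [map_ofNat] at h2
  · have h1 := h.sN.map (bcN φ hp ht)
    have hc : (fun i => bcN φ hp ht (algebraMap B (NN B p t) (p i))) =
        fun i => algebraMap B' (NN B' p' t') (p' i) := by
      funext i
      rw [bcN_c, hp]
    rw [KN, EN, KK_map, EE_map, hc, bcN_z, bcN_x] at h1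
    exact h1

end Pool.Agent.MG.H2


end

section

/-!
# DMD: every first order deformation has a model
-/

open CategoryTheory CategoryTheory.Limits AlgebraicGeometry
open scoped TensorProduct

namespace Pool.Agent.MG.KX

open Pool.Agent.MG.G0 Pool.Agent.MG.GLU

theorem t_DMD (hMTH : Stmt_MTH) (hPDC : Stmt_PDC) : Stmt_DMD := by
  intro I A _ _ _ g P x hP M d
  obtain ⟨P', p', M', h1, h2, h3⟩ := hMTH hP M d.thk
  obtain ⟨δ, rfl⟩ := hPDC hP h1 h2
  obtain rfl : p' = nop _ := Subsingleton.elim _ _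
  exact ⟨δ, M', h3⟩

end Pool.Agent.MG.KX


end

section

/-!
# DMT: every deformation over `A[ε₁, ε₂]` has a model
-/

open CategoryTheory AlgebraicGeometry

namespace Pool.Agent.MG.KX

open Pool.Agent.MG.G0 Pool.Agent.MG.GLU

theorem t_DMT (hMTH : Stmt_MTH) : Stmt_DMT := by
  intro I A _ _ _ g P x hP M y hy r
  obtain ⟨Q, p', M', hQ, hbc, hov⟩ := hMTH (S := sqEps2 A) hP M ⟨y, hy.flat, r⟩
  obtain rfl : p' = nop Q := funext fun i => i.elim0
  exact ⟨Q, M', hQ, hbc, hov⟩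

end Pool.Agent.MG.KX


end

section

/-!
# Every covector comes from a functional

The module KCF.
-/

open CategoryTheory CategoryTheory.Limits AlgebraicGeometry
open scoped TensorProduct

namespace Pool.Agent.MG.KX

open Pool.Agent.MG.G0 Pool.Agent.MG.GLU

namespace KCF

/-- Composition of arrows. -/
theorem comp_arrow {A B C : Type} [CommRing A] [CommRing B] [CommRing C] {n : ℕ} {φ : A →+* B}
    {ψ : B →+* C} {χ : A →+* C} {x : Fam n A} {y : Fam n B} {w : Fam n C} (a : Arrow φ y x)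
    (b : Arrow ψ w y) (h : χ = ψ.comp φ) : ∃ c : Arrow χ w x, c.f = b.f ≫ a.f := by
  subst h
  refine ⟨⟨b.f ≫ a.f, ?_, fun i => ?_⟩, rfl⟩
  · have h1 := b.cart.paste_horiz a.cart
    rw [spMap_comp''] at h1
    exact h1
  · rw [← Category.assoc, b.sec, Category.assoc, a.sec, ← Category.assoc, spMap_comp'']

theorem surj0 (A : Type) [CommRing A] : Function.Surjective (eps0 A) := fun a =>
  ⟨TrivSqZeroExt.inl a, TrivSqZeroExt.fst_inl A a⟩

theorem surj20 (A : Type) [CommRing A] : Function.Surjective (eps20 A) := fun a =>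
  ⟨TrivSqZeroExt.inl a, TrivSqZeroExt.fst_inl (A × A) a⟩

theorem nil0 (A : Type) [CommRing A] : RingHom.ker (eps0 A) ^ 2 = ⊥ :=
  TrivSqZeroExt.kerIdeal_sq A A

theorem nil20 (A : Type) [CommRing A] : RingHom.ker (eps20 A) ^ 2 = ⊥ :=
  TrivSqZeroExt.kerIdeal_sq A (A × A)

section

variable {I A : Type} [Fintype I] [Nonempty I] [CommRing A] {g : ℕ} {P : Subalgebra A (KK I A)}

/-- A thickening of the curve of `P`. -/
theorem exists_thk (hXAR : Stmt_XAR) (hKSN : Stmt_KSN) (hKST : Stmt_KST) (hP : KS g P (nop P))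
    (z : Pole P) {E : Type} [CommRing E] (χ : E →+* A) (hs : Function.Surjective χ)
    (hn : RingHom.ker χ ^ 2 = ⊥) {Q : Subalgebra E (KK I E)} (hQ : IsKr g Q) (hb : bc χ Q = P)
    (zQ : Pole Q) : IsStable g (xfam zQ (nop Q)) ∧
      ∃ r : Arrow χ (xfam z (nop P)) (xfam zQ (nop Q)),
        ∀ (MQ : Mod (xfam zQ (nop Q)) Q (nop Q)) (M : Mod (xfam z (nop P)) P (nop P)),
          MQ.Can zQ → M.Can z → MQ.Over r M :=
  ⟨hKST (hKSN χ hs ⟨2, hn⟩ hQ hb hP) zQ, xar' hXAR χ hQ hb (bcP_nop χ) zQ z⟩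

/-- Uniqueness of arrows, in the form used below. -/
theorem eq_arrow (hMOC : Stmt_MOC) (hMXT : Stmt_MXT) (hP : IsKr g P)
    (z : Pole P) {E F : Type} [CommRing E] [CommRing F] {χ : E →+* A} {ψ : E →+* F}
    {ω : F →+* A} (hχ : χ = ω.comp ψ) {Q : Subalgebra E (KK I E)} {R : Subalgebra F (KK I F)}
    {y : Fam 0 E} (hy : IsProper y.π) (M : Mod (xfam z (nop P)) P (nop P))
    (hM : M.Can z) (MQ : Mod y Q (nop Q)) {w : Fam 0 F} (MR : Mod w R (nop R))
    (f : Arrow ψ w y) (r : Arrow ω (xfam z (nop P)) w) (s : Arrow χ (xfam z (nop P)) y)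
    (h1 : MQ.Over f MR) (h2 : MR.Over r M) (h3 : MQ.Over s M) : r.f ≫ f.f = s.f := by
  obtain ⟨c, hc⟩ := comp_arrow f r hχ
  have h4 : MQ.Over c M := (hMOC.1 f r c MQ MR M hχ hc.symm h1).1 h2
  rw [← hc]
  exact hMXT z c s MQ M hP hy hM h4 h3

/-- An arrow between thickenings which is compatible with the arrows from the curve. -/
theorem exists_mid (hMOC : Stmt_MOC) (hMXT : Stmt_MXT) (hXAR : Stmt_XAR) (hP : IsKr g P)
    (z : Pole P) (M : Mod (xfam z (nop P)) P (nop P)) (hM : M.Can z) {E F : Type} [CommRing E]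
    [CommRing F] {χ : E →+* A} {ψ : E →+* F} {ω : F →+* A} (hχ : χ = ω.comp ψ)
    {Q : Subalgebra E (KK I E)} {R : Subalgebra F (KK I F)} (hQ : IsKr g Q) (hb : bc ψ Q = R)
    (zQ : Pole Q) (zR : Pole R) (hy : IsProper (xfam zQ (nop Q)).π)
    (MQ : Mod (xfam zQ (nop Q)) Q (nop Q)) (hMQ : MQ.Can zQ)
    (MR : Mod (xfam zR (nop R)) R (nop R)) (hMR : MR.Can zR)
    (r : Arrow ω (xfam z (nop P)) (xfam zR (nop R)))
    (s : Arrow χ (xfam z (nop P)) (xfam zQ (nop Q))) (h2 : MR.Over r M) (h3 : MQ.Over s M) :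
    ∃ f : Arrow ψ (xfam zR (nop R)) (xfam zQ (nop Q)), r.f ≫ f.f = s.f := by
  obtain ⟨f, hf⟩ := xar' hXAR ψ hQ hb (bcP_nop ψ) zQ zR
  exact ⟨f, eq_arrow hMOC hMXT hP z hχ hy M hM MQ MR f r s (hf MQ MR hMQ hMR) h2 h3⟩

end

theorem eps20_comp {A : Type} [CommRing A] (a b : A) :
    eps20 A = (eps0 A).comp (epsPair a b) :=
  RingHom.ext fun u => (TrivSqZeroExt.fst_map _ u).symm

theorem eps0_comp {A : Type} [CommRing A] (a : A) : eps0 A = (eps0 A).comp (epsScale a) :=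
  RingHom.ext fun u => (TrivSqZeroExt.fst_map _ u).symm

end KCF

/-- Every covector comes from a functional. -/
theorem t_KCF (hMCA : Stmt_MCA) (hMIS : Stmt_MIS) (hMOC : Stmt_MOC) (hMXT : Stmt_MXT)
    (hMAU : Stmt_MAU) (hMAI : Stmt_MAI) (hXAR : Stmt_XAR) (hKSN : Stmt_KSN) (hKST : Stmt_KST)
    (_hKPX : Stmt_KPX) (hPLE : Stmt_PLE) (hPDK : Stmt_PDK) (hPDS : Stmt_PDS) (hPDA : Stmt_PDA)
    (hPDI : Stmt_PDI) : Stmt_KCF := by
  intro I A _ _ _ g P hKS z l
  have hP := hKS.kr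
  obtain ⟨M, hM⟩ := hMCA hP z (nop P)
  -- the deformations
  have hD : ∀ δ : DD P, IsKr g (Pdel P δ) := fun δ => (hPDK hP δ).1
  have hDb : ∀ δ : DD P, bc (eps0 A) (Pdel P δ) = P := fun δ => (hPDK hP δ).2.1
  have hzz : ∀ δ : DD P, Nonempty (Pole (Pdel P δ)) := fun δ => (hPLE (hD δ)).1
  obtain ⟨zz⟩ : Nonempty (∀ δ : DD P, Pole (Pdel P δ)) := ⟨fun δ => (hzz δ).some⟩
  have hthk := fun δ => KCF.exists_thk hXAR hKSN hKST hKS z (eps0 A) (KCF.surj0 A) (KCF.nil0 A)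
    (hD δ) (hDb δ) (zz δ)
  choose st rr hrr using hthk
  have hMM := fun δ => hMCA (hD δ) (zz δ) (nop (Pdel P δ))
  choose MM hMMc using hMM
  have hMM' : ∀ δ : DD P, (MM δ).Over (rr δ) M := fun δ => hrr δ _ _ (hMMc δ) hM
  let dd : DD P → Defo g (xfam z (nop P)) := fun δ => ⟨xfam (zz δ) (nop (Pdel P δ)), st δ, rr δ⟩
  -- the value at a deformation with a model
  have key : ∀ (M : Mod (xfam z (nop P)) P (nop P)), M.Can z → ∀ (δ : DD P)
      (d : Defo g (xfam z (nop P))) (M' : Mod d.y (Pdel P δ) (nop (Pdel P δ))),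
      M'.Over d.r M → l.l d = l.l (dd δ) := by
    intro M hM δ d M' hM'
    obtain ⟨a, ha⟩ := hMIS (hD δ) d.stable.proper M' (zz δ)
    have h1 : M'.Over a (MM δ) := ha _ (hMMc δ)
    have h2 : (MM δ).Over (rr δ) M := hrr δ _ _ (hMMc δ) hM
    have h3 : (rr δ).f ≫ a.f = d.r.f :=
      KCF.eq_arrow hMOC hMXT hP z (RingHom.comp_id _).symm d.stable.proper M hM M'
        (MM δ) a (rr δ) d.r h1 h2 hM'
    exact (l.iso (dd δ) d a h3).symm
  have key' : ∀ (δ : DD P) (d : Defo g (xfam z (nop P))) (P' : Subalgebra (Eps A) (KK I (Eps A)))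
      (_ : P' = Pdel P δ) (M' : Mod d.y P' (nop P')), M'.Over d.r M → l.l d = l.l (dd δ) := by
    intro δ d P' hP' M' hM'
    subst hP'
    exact key M hM δ d M' hM'
  have hadd : ∀ δ₁ δ₂ : DD P, l.l (dd (δ₁ + δ₂)) = l.l (dd δ₁) + l.l (dd δ₂) := by
    intro δ₁ δ₂
    obtain ⟨Q, hQ, hQb, hb1, hb2, hb3⟩ := hPDA.2 hP δ₁ δ₂
    obtain ⟨zQ⟩ := (hPLE hQ).1
    obtain ⟨hst, r, hr⟩ := KCF.exists_thk hXAR hKSN hKST hKS z (eps20 A) (KCF.surj20 A)
      (KCF.nil20 A) hQ hQb zQ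
    obtain ⟨MQ, hMQ⟩ := hMCA hQ zQ (nop Q)
    have hr' : MQ.Over r M := hr _ _ hMQ hM
    have e : ∀ (a b : A) (δ : DD P), bc (epsPair a b) Q = Pdel P δ →
        ∃ f : Arrow (epsPair a b) (xfam (zz δ) (nop (Pdel P δ))) (xfam zQ (nop Q)),
          (rr δ).f ≫ f.f = r.f := fun a b δ hb =>
      KCF.exists_mid hMOC hMXT hXAR hP z M hM (KCF.eps20_comp a b) hQ hb zQ (zz δ) hst.proper MQ
        hMQ (MM δ) (hMMc δ) (rr δ) r (hMM' δ) hr'
    obtain ⟨f₁, h₁⟩ := e _ _ δ₁ hb1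
    obtain ⟨f₂, h₂⟩ := e _ _ δ₂ hb2
    obtain ⟨f, h⟩ := e _ _ (δ₁ + δ₂) hb3
    exact l.add _ hst r (dd δ₁) (dd δ₂) (dd (δ₁ + δ₂)) f₁ f₂ f h₁ h₂ h
  have hsm : ∀ (a : A) (δ : DD P), l.l (dd (a • δ)) = a * l.l (dd δ) := by
    intro a δ
    obtain ⟨f, hf⟩ := KCF.exists_mid hMOC hMXT hXAR hP z M hM (KCF.eps0_comp a) (hD δ)
      (hPDS hP a δ) (zz δ) (zz (a • δ)) (st δ).proper (MM δ) (hMMc δ) (MM (a • δ))
      (hMMc (a • δ)) (rr (a • δ)) (rr δ) (hMM' (a • δ)) (hMM' δ)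
    exact l.scale a (dd δ) (dd (a • δ)) f hf
  let L : DD P →ₗ[A] A :=
    { toFun := fun δ => l.l (dd δ)
      map_add' := hadd
      map_smul' := fun a δ => hsm a δ }
  have hL : L ∈ CovL P := by
    intro θ hθ
    obtain ⟨α, hα, hα0, hαP⟩ := hPDI θ hθ
    obtain ⟨N, hN⟩ := hMAU.1 α hα (MM 0) (nop _) (fun i => i.elim0)
    have h1 : N.Over (rr 0) M := hMAI (rr 0) α hα0 (MM 0) M _ N hN (hMM' 0)
    have h2 := key' (0 + tder P θ) (dd 0) _ (hαP P 0).symm N h1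
    have h3 : L 0 = L (0 + tder P θ) := h2
    rw [map_zero, zero_add] at h3
    exact h3.symm
  exact ⟨⟨L, hL⟩, fun M hM d δ M' hM' => key M hM δ d M' hM'⟩

end Pool.Agent.MG.KX


end

section

/-!
# KCG: the covector of a functional, forgetting a puncture
-/

open CategoryTheory CategoryTheory.Limits AlgebraicGeometry
open scoped TensorProduct

namespace Pool.Agent.MG.KX

open Pool.Agent.MG.G0 Pool.Agent.MG.GLU

namespace KCG

variable {I A B : Type} [CommRing A] [CommRing B]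

theorem eps_eq (φ : A →+* B) : φ.comp (eps0 A) = (eps0 B).comp (epsMap φ) :=
  (RingHom.ext fun z => by simp [epsMap])

theorem epsMap_id : epsMap (RingHom.id A) = RingHom.id (Eps A) := by
  apply RingHom.ext
  intro z
  exact TrivSqZeroExt.inl_fst_add_inr_snd_eq z

theorem bc_idd (P : Subalgebra A (KK I A)) : bc (RingHom.id A) P = P := by
  refine le_antisymm ?_ ?_
  · refine Algebra.adjoin_le ?_
    rintro _ ⟨f, hf, rfl⟩
    rw [kmap_id]
    exact hf
  · intro f hf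
    have h := kmap_mem_bc (RingHom.id A) hf
    rwa [kmap_id] at h

/-- The canonical model and the model of the deformation. -/
theorem ovr (hMOC : Stmt_MOC) {n : ℕ} {φ : A →+* B} {P : Subalgebra A (KK I A)}
    {p : Fin n → (P →ₐ[A] A)} {P' : Subalgebra B (KK I B)} {p' : Fin n → (P' →ₐ[B] B)}
    {x : Fam n A} {x' : Fam n B} {y : Fam n (Eps A)} {y' : Fam n (Eps B)}
    {Q : Subalgebra (Eps A) (KK I (Eps A))} {q : Fin n → (Q →ₐ[Eps A] Eps A)}
    {Q' : Subalgebra (Eps B) (KK I (Eps B))} {q' : Fin n → (Q' →ₐ[Eps B] Eps B)}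
    (a : Arrow φ x' x) (r : Arrow (eps0 A) x y) (r' : Arrow (eps0 B) x' y')
    (f : Arrow (epsMap φ) y' y) (hf : r'.f ≫ f.f = a.f ≫ r.f)
    (M : Mod x P p) (M' : Mod x' P' p') (N : Mod y Q q) (N' : Mod y' Q' q')
    (h1 : M.Over a M') (h2 : N.Over r M) (h3 : N.Over f N')
    (hQ : ∀ F ∈ Q', kmap (eps0 B) F ∈ P') : N'.Over r' M' := by
  have hc : N.Over (PBS.comp a r) M' :=
    (hMOC.1 r a (PBS.comp a r) N M M' rfl rfl h2).1 h1
  exact (hMOC.1 f r' (PBS.comp a r) N N' M' (eps_eq φ) hf h3).2 hc hQ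

end KCG

theorem t_KCG (hMCA : Stmt_MCA) (hMBC : Stmt_MBC) (hMOC : Stmt_MOC) (hMFA : Stmt_MFA)
    (hMFG : Stmt_MFG) (hMFO : Stmt_MFO) (hXFG : Stmt_XFG) (hDMD : Stmt_DMD) (hPDF : Stmt_PDF)
    (hPDK : Stmt_PDK) (hKPX : Stmt_KPX) : Stmt_KCG := by
  intro I J A _ _ _ _ g W hKS hKS' hF z z'
  have hW : IsKr g W := hKS.kr
  have hP : IsKr g (Rem W) := hKS'.kr
  obtain ⟨a, ha⟩ := hXFG (q := nop W) (p := nop (Rem W)) hW hP hF (fun i => i.elim0) z z'
  refine ⟨a, ?_⟩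
  intro L L' hL l l' hl hl' d' d f hf
  obtain ⟨M, hM⟩ := hMCA hW z (nop W)
  obtain ⟨M', hM'⟩ := hMCA hP z' (nop (Rem W))
  obtain ⟨U, hU, hU2⟩ := hMFA hW (hKPX (nop W) hW z).1 M hF.dns
  obtain ⟨N, hN⟩ := hMFG (p := nop (Rem W)) M U hU hU2 hF (fun i => i.elim0)
  obtain ⟨E, Md, hMd⟩ := hDMD hW M d
  obtain ⟨D, hDE, -, hFd⟩ := hPDF hW hP hF E
  obtain ⟨V, hV, hV2⟩ := hMFA (hPDK hW E).1 d.stable.proper Md hFd.dns
  obtain ⟨Nd, hNd⟩ := hMFG (p := nop (Pdel (Rem W) D)) Md V hV hV2 hFd (fun i => i.elim0)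
  have h0 : Nd.Over d.r N := hMFO d.r Md Nd M N hNd hN hF (fun F hF => (mem_Pdel.1 hF).1) hMd
  have hb : bc (epsMap (RingHom.id A)) (Pdel (Rem W) D) = Pdel (Rem W) D := by
    rw [KCG.epsMap_id, KCG.bc_idd]
  obtain ⟨M'', hM''⟩ := mbc' hMBC f (hPDK hP D).1 Nd hb (nop (Pdel (Rem W) D))
    (fun i => i.elim0)
  have h1 : M''.Over d'.r M' :=
    KCG.ovr hMOC a d.r d'.r f hf N M' Nd M'' (ha M N M' hM hN hM') h0 hM''
      fun F hF => (mem_Pdel.1 hF).1
  rw [hl' M' hM' d' D M'' h1, hl M hM d E Md hMd]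
  exact (hL D E hDE).symm

end Pool.Agent.MG.KX


end

section

/-!
# KCZ: change of the pole
-/

open CategoryTheory CategoryTheory.Limits AlgebraicGeometry
open scoped TensorProduct

namespace Pool.Agent.MG.KX

open Pool.Agent.MG.G0 Pool.Agent.MG.GLU

namespace KCZ

theorem epsMap_id (A : Type) [CommRing A] :
    epsMap (RingHom.id A) = RingHom.id (Eps A) :=
  RingHom.ext fun x => by ext <;> simp [epsMap]

theorem bc_eps_id {I A : Type} [CommRing A] (Q : Subalgebra (Eps A) (KK I (Eps A))) :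
    bc (epsMap (RingHom.id A)) Q = Q := by
  rw [epsMap_id]
  exact KBC.bc_id Q

end KCZ

open _root_.Pool.Agent.MG.KX.KCZ in
theorem t_KCZ (hMCA : Stmt_MCA) (hMIS : Stmt_MIS) (hMBC : Stmt_MBC) (hMOC : Stmt_MOC)
    (hKPX : Stmt_KPX) (hDMD : Stmt_DMD) (_hPDB : Stmt_PDB) (hPDK : Stmt_PDK) : Stmt_KCZ := by
  intro I A _ _ _ g P hS z z'
  obtain ⟨M, hM⟩ := hMCA hS.kr z (nop P)
  obtain ⟨a, ha⟩ := hMIS hS.kr (hKPX (nop P) hS.kr z).1 M z'
  obtain ⟨M', hM'⟩ := hMCA hS.kr z' (nop P)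
  refine ⟨a, fun L l l' hl hl' d' d f h => ?_⟩
  obtain ⟨δ, Md, hMd⟩ := hDMD hS.kr M d
  obtain ⟨hkr, -, -, -⟩ := hPDK hS.kr δ
  obtain ⟨M'', hM''⟩ := mbc' hMBC f hkr Md (bc_eps_id (Pdel P δ)) (nop (Pdel P δ))
    (fun i => i.elim0)
  have hc : (d'.r.f ≫ f.f) = (PBS.comp a d.r).f := h
  have h1 : Md.Over (φ := eps0 A) (PBS.comp a d.r) M' :=
    (hMOC.1 d.r a (PBS.comp a d.r) Md M M' rfl rfl hMd).1 (ha M' hM')
  have h2 : M''.Over d'.r M' := by
    refine (hMOC.1 f d'.r (χ := eps0 A) (PBS.comp a d.r) Md M'' M' ?_ hc hM'').2 h1 ?_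
    · exact RingHom.ext fun x => by simp [epsMap]
    · intro F hF
      exact (mem_Pdel.1 hF).1
  rw [hl M hM d δ Md hMd, hl' M' hM' d' δ M'' h2]
  rfl

end Pool.Agent.MG.KX


end

section

/-!
# LOGF: THEOREM LOG, final form (PAPER_M.md, item LOGF)
-/

namespace Pool.Agent.MG.G0

/-- TC: existence of two charts (statement proved in the files of section TC). -/
def Stmt_TCx : Prop :=
  ∀ {A κ : Type} [CommRing A] [Algebra ℂ A] [Field κ] [IsAlgClosed κ] [CharZero κ]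
    [Algebra κ A] (r : A →ₐ[κ] κ), (∃ n : ℕ, RingHom.ker r ^ n = ⊥) → (RingHom.ker r).FG →
    ∀ {h : ℕ}, 2 ≤ h → ∀ {R : Subalgebra A (KK Unit A)}, SKr h R →
    ∀ pt : Bool → FPt R, Disj pt →
    ∃ (R₂ : Subalgebra A (KK Unit A)) (R₁₂ : Subalgebra A (KK (Unit ⊕ Unit) A)) (b₁ : R)
      (b₂ : R₂) (ι₁ : R →ₐ[A] R₁₂) (ι₂ : R₂ →ₐ[A] R₁₂), Chp h R R₂ R₁₂ ∧ Inc ι₁ ι₂ ∧
        ThmG b₁ b₂ ι₁ ι₂ ∧ ∀ b, IsUnit ((pt b).ev b₁)

namespace LOGF

theorem bcr_id (hKBC : Stmt_KBC) {I A : Type} [CommRing A] {R : Subalgebra A (KK I A)}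
    (p : FPt R) : Bcr (RingHom.id A) p p := by
  refine ⟨(hKBC.2.2.1 R).symm, fun f f' hf => ?_⟩
  rw [kmap_id] at hf
  have : f' = f := Subtype.ext hf
  rw [this, PowerSeries.map_id]
  rfl

end LOGF

open _root_.Pool.Agent.MG.G0.LOGF in
theorem t_LOGF (hKBC : Stmt_KBC) (hAWB : Stmt_AWB) (hMTR : Stmt_MTR)
    (hMEE : Stmt_MEE) (hMPB : Stmt_MPB) (hMPG : Stmt_MPG) (hMVX : Stmt_MVX)
    (hMVN : Stmt_MVN) (hMLG : Stmt_MLG) (hHV2 : Stmt_HV2)
    (hHV4 : Stmt_HV4) (hTC : Stmt_TCx) : Stmt_LOGF := by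
  intro A κ _ _ _ _ _ _ r hn hfg h h2 E R hR pt hd t ht k u u' x hu hx
  obtain ⟨R₂, R₁₂, b₁, b₂, ι₁, ι₂, hC, hI, hG, hub⟩ := hTC r hn hfg h2 hR pt hd
  obtain ⟨hg, hom, hder, -⟩ := hMPG hR pt hd t ht
  have hu' : ∀ i, u' i ∈ EE (PT pt t) := hx.1
  obtain ⟨n, htn⟩ := ht
  obtain ⟨N, hN⟩ : ∃ N, N = n + k + 1 := ⟨_, rfl⟩
  have htN : t ^ N = 0 := by
    rw [hN, pow_add, pow_add, htn, zero_mul, zero_mul]
  have hkN : k < N := by omega
  obtain ⟨σ, hσ⟩ := hMTR.2.2.2.1 (A := A) (B := A) (N := N) t htN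
  have hsc : ((σ : TrA A N →+* A).comp (algebraMap A (TrA A N))) = RingHom.id A :=
    RingHom.ext fun a => σ.commutes a
  obtain ⟨⟨p1, hp1⟩, hX, -⟩ := hMVX hR pt hd E N k
  have hTn : IsNilpotent (tt A N) := ⟨N, (hMTR.1 (A := A) (N := N)).1⟩
  have hR' : SKr h (bc (algebraMap A (TrA A N)) R) := (hMPG hR pt hd t ⟨n, htn⟩).2.2.2 _
  -- the specialization of the plumbed curve
  have key : ∀ q : Bool → FPt (bc (algebraMap A (TrA A N)) R),
      (∀ b, (pt b).Bc (algebraMap A (TrA A N)) (q b)) → Disj q ∧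
        bc (σ : TrA A N →+* A) (PT q (tt A N)) = PT pt t := by
    intro q hq
    obtain ⟨m1, m2, m3, m4⟩ := hMPB hR.kr hR.smc pt hd
    have b1 := m4 _ q hq
    have hdq := (m1 _ _ q b1).1
    have b2 : ∀ b, Bcr ((σ : TrA A N →+* A).comp (algebraMap A (TrA A N))) (pt b) (pt b) := by
      rw [hsc]
      exact fun b => bcr_id hKBC (pt b)
    have b3 := m2 _ (σ : TrA A N →+* A) _ _ q pt b1 b2
    refine ⟨hdq, ?_⟩
    have := ((hMPB hR'.kr hR'.smc q hdq).1 (σ : TrA A N →+* A) R pt b3).2 (tt A N) hTn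
    rw [← this]
    change PT pt (σ (tt A N)) = _
    rw [hσ]
  obtain ⟨hk1, hex, -⟩ := hX p1 hp1
  have hsurj : Function.Surjective (σ : TrA A N →+* A) := fun a =>
    ⟨algebraMap A (TrA A N) a, σ.commutes a⟩
  have hlift := (hMEE hk1 (σ : TrA A N →+* A)).2.2 hsurj
  rw [(key p1 hp1).2] at hlift
  choose V hV hVe using fun i => hlift.1 (u i) (hu i)
  choose V' hV' hVe' using fun i => hlift.1 (u' i) (hu' i)
  obtain ⟨X, hXv⟩ := hex V V' hV hV'
  -- the theorem for two charts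
  have hco : ∀ i < k, co i X = 0 := by
    obtain ⟨m1, m2, m3, m4⟩ := hMPB hR.kr hR.smc pt hd
    choose p0 hp0 hp0' using fun b => (hAWB hR.kr (algebraMap A A)).1 (pt b)
    have hp0'' : ∀ b, Bcr (algebraMap A A) (pt b) (p0 b) := m4 _ p0 hp0
    have hd0 : Disj p0 := (m1 _ _ p0 hp0'').1
    have hub0 : ∀ b, IsUnit ((p0 b).ev (bcMap (algebraMap A A) R b₁)) := by
      intro b
      have e1 : (p0 b).ev (bcMap (algebraMap A A) R b₁) = (pt b).ev b₁ := by
        change PowerSeries.constantCoeff ((p0 b).h (bcMap (algebraMap A A) R b₁)) = _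
        rw [(hp0 b).1 b₁]
        have := PowerSeries.coeff_map (algebraMap A A) 0 ((pt b).h b₁)
        rw [PowerSeries.coeff_zero_eq_constantCoeff_apply,
          PowerSeries.coeff_zero_eq_constantCoeff_apply] at this
        exact this
      rw [e1]
      exact hub b
    have hih := hMLG hC b₁ b₂ ι₁ ι₂ hI hG E N k hkN (A := A) p0 hd0 hub0
    have hvl := hMVN hR pt hd E N k (AlgHom.id ℂ A) _ p0 hp0''
      (RingHom.id (TrA A N)) ⟨fun a => rfl, rfl⟩ V V' X hXv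
    exact hih V V' X hvl
  obtain ⟨Y, hY⟩ := (hMTR.1 (A := A) (N := N)).2.2.2.2.2.2.2.1 X k
    (fun i hi _ => hco i hi)
  obtain ⟨p2, hp2, hV2, hV2', hHV⟩ := hXv
  have hgT : Good (h + 1) (PT p2 (tt A N)) := (hMPG hR' p2 (key p2 hp2).1 (tt A N) hTn).1
  have h4 := hHV4 E (tt A N) hgT (σ.restrictScalars ℂ) V V' X hHV
  have h5 : HV E (PT pt t) t u u' (σ X) := by
    have e3 : (fun i => kmap (σ : TrA A N →+* A) (V i)) = u := funext hVe
    have e4 : (fun i => kmap (σ : TrA A N →+* A) (V' i)) = u' := funext hVe'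
    change HV E (bc (σ : TrA A N →+* A) (PT p2 (tt A N))) (σ (tt A N))
      (fun i => kmap (σ : TrA A N →+* A) (V i)) (fun i => kmap (σ : TrA A N →+* A) (V' i))
      (σ X) at h4
    rw [(key p2 hp2).2, hσ, e3, e4] at h4
    exact h4
  have h6 := (hHV2 E t hg hder k).1 u u' x (σ X) hx h5
  refine ⟨σ Y, x - σ X, ?_, h6⟩
  rw [hY, map_mul, map_pow, hσ]
  ring

end Pool.Agent.MG.G0


end

section

/-!
# TCx: the form of the statement on two charts which is used in LOGF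
-/

namespace Pool.Agent.MG.G0

theorem t_TCx (hTCZ : Stmt_TCZ) (hTCX : Stmt_TCX) : Stmt_TCx := by
  intro A κ _ _ _ _ _ _ r hn hfg h h2 R hR pt _
  obtain ⟨R₂, P, ι₁, ι₂, D₁, g₁, D₂, g₂, hT, hu⟩ := hTCZ r hn hfg h2 hR pt
  exact ⟨R₂, P, D₁ g₁, D₂ g₂, ι₁, ι₂, hT.chp, hT.inc, hTCX hT, hu⟩

end Pool.Agent.MG.G0


end

section

/-!
# TCM: there are no vector fields
-/

namespace Pool.Agent.MG.G0

namespace TCM

section series

variable {B : Type} [CommRing B]

theorem step {f g : LaurentSeries B} (hg : ∀ m < 0, g.coeff m = 0) (hu : IsUnit (g.coeff 0))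
    (h : ∀ m < 0, (g * f).coeff m = 0) (n : ℕ) :
    (∀ m < -(n : ℤ), f.coeff m = 0) → ∀ m < 0, f.coeff m = 0 := by
  induction n with
  | zero =>
    intro h1 m hm
    exact h1 m (by simpa using hm)
  | succ n ih =>
    intro h1
    refine ih fun m hm => ?_
    rcases lt_or_ge m (-((n + 1 : ℕ) : ℤ)) with h2 | h2
    · exact h1 m h2
    · have e : m = 0 + -((n + 1 : ℕ) : ℤ) := by
        push_cast at h2 ⊢
        omega
      have h3 := mul_lead hg h1
      rw [← e, h m (by push_cast at e; omega)] at h3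
      have h4 : f.coeff (-((n + 1 : ℕ) : ℤ)) = 0 := by
        rw [← hu.mul_right_eq_zero]
        exact h3.symm
      rw [e, zero_add]
      exact h4

theorem reg1 {f g : LaurentSeries B} (hg : ∀ m < 0, g.coeff m = 0) (hu : IsUnit (g.coeff 0))
    (h : ∀ m < 0, (g * f).coeff m = 0) : ∀ m < 0, f.coeff m = 0 := by
  obtain ⟨n, hn⟩ := exists_low f
  exact step hg hu h n hn

theorem regK {f g : LaurentSeries B} (hg : ∀ m < 0, g.coeff m = 0) (hu : IsUnit (g.coeff 0))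
    (K : ℕ) : (∀ m < 0, (g ^ K * f).coeff m = 0) → ∀ m < 0, f.coeff m = 0 := by
  induction K with
  | zero =>
    intro h
    simpa using h
  | succ K ih =>
    intro h
    refine ih (reg1 hg hu ?_)
    rw [← mul_assoc, ← pow_succ']
    exact h

theorem mulr {f g : LaurentSeries B} (hf : ∀ m < 0, f.coeff m = 0) (hg : ∀ m < 0, g.coeff m = 0) :
    ∀ m < 0, (f * g).coeff m = 0 := fun m hm => mul_low hf hg m (by omega)

theorem powr {f : LaurentSeries B} (hf : ∀ m < 0, f.coeff m = 0) (k : ℕ) :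
    ∀ m < 0, (f ^ k).coeff m = 0 := by
  induction k with
  | zero =>
    intro m hm
    rw [pow_zero, HahnSeries.coeff_one, if_neg (by omega)]
  | succ k ih =>
    rw [pow_succ]
    exact mulr ih hf

end series

section reix

variable {I I' A : Type} [CommRing A]

/-- Reindexing. -/
def ri (e : I' ≃ I) (f : KK I A) : KK I' A := fun i => f (e i)

theorem ri_mem (e : I' ≃ I) {P : Subalgebra A (KK I A)} {f : KK I A} (hf : f ∈ P) :
    ri e f ∈ reix e P := by
  change (fun i => f (e (e.symm i))) ∈ P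
  simpa only [Equiv.apply_symm_apply] using hf

theorem tt_mem (e : I' ≃ I) {P : Subalgebra A (KK I A)} {θ : KK I' A} (h : θ ∈ TT (reix e P)) :
    ri e.symm θ ∈ TT P := by
  intro f hf
  have h1 := h (ri e f) (ri_mem e hf)
  have h2 : (fun i => (θ * dd (ri e f)) (e.symm i)) ∈ P := h1
  have h3 : (fun i => (θ * dd (ri e f)) (e.symm i)) = ri e.symm θ * dd f := by
    funext i
    change θ (e.symm i) * ld (f (e (e.symm i))) = θ (e.symm i) * ld (f i)
    rw [Equiv.apply_symm_apply]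
  rwa [h3] at h2

/-- The second inclusion. -/
noncomputable def inc2 (e : I' ≃ I) {P : Subalgebra A (KK I A)} {J : Type}
    {R : Subalgebra A (KK J A)} (ι : R →ₐ[A] P) : R →ₐ[A] reix e P where
  toFun f := ⟨ri e (ι f : KK I A), ri_mem e (ι f).2⟩
  map_one' := by
    apply Subtype.ext
    change ri e (ι 1 : KK I A) = 1
    rw [map_one]
    rfl
  map_zero' := by
    apply Subtype.ext
    change ri e (ι 0 : KK I A) = 0
    rw [map_zero]
    rfl
  map_mul' f g := by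
    apply Subtype.ext
    change ri e (ι (f * g) : KK I A) = ri e (ι f : KK I A) * ri e (ι g : KK I A)
    rw [map_mul]
    rfl
  map_add' f g := by
    apply Subtype.ext
    change ri e (ι (f + g) : KK I A) = ri e (ι f : KK I A) + ri e (ι g : KK I A)
    rw [map_add]
    rfl
  commutes' a := by
    apply Subtype.ext
    change ri e (ι (algebraMap A R a) : KK I A) = algebraMap A (KK I' A) a
    rw [AlgHom.commutes]
    rfl

theorem inc2_val (e : I' ≃ I) {P : Subalgebra A (KK I A)} {J : Type}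
    {R : Subalgebra A (KK J A)} (ι : R →ₐ[A] P) (f : R) :
    (inc2 e ι f : KK I' A) = ri e (ι f : KK I A) := rfl

end reix

/-- The vector fields of the two charts. -/
theorem fields (hTCH : Stmt_TCH) (hTRX : Stmt_TRX) {A : Type} [CommRing A] {h : ℕ}
    {R₁ R₂ : Subalgebra A (KK Unit A)} {P : Subalgebra A (KK (Unit ⊕ Unit) A)}
    {ι₁ : R₁ →ₐ[A] P} {ι₂ : R₂ →ₐ[A] P} (hc : Chp h R₁ R₂ P) (hi : Inc ι₁ ι₂)
    (D₁ : Derivation A R₁ R₁) (D₂ : Derivation A R₂ R₂) :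
    (∃ θ ∈ TT P, (∀ m < 0, (θ (Sum.inr ())).coeff m = 0) ∧
      ∀ f : R₁, θ * dd (ι₁ f : KK (Unit ⊕ Unit) A) = (ι₁ (D₁ f) : KK (Unit ⊕ Unit) A)) ∧
    ∃ θ ∈ TT P, (∀ m < 0, (θ (Sum.inl ())).coeff m = 0) ∧
      ∀ f : R₂, θ * dd (ι₂ f : KK (Unit ⊕ Unit) A) = (ι₂ (D₂ f) : KK (Unit ⊕ Unit) A) := by
  constructor
  · exact hTCH hc.s12.kr hc.s12.smc hc.d1 hc.f1 ι₁ hi.e1 (fun f => hi.r1 f ()) D₁
  · have hs := hTRX.2 (Equiv.sumComm Unit Unit) hc.s12
    obtain ⟨θ, h1, h2, h3⟩ := hTCH hs.kr hs.smc hc.d2 hc.f2 (inc2 (Equiv.sumComm Unit Unit) ι₂)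
      (fun f i => hi.e2 f i) (fun f => hi.r2 f ()) D₂
    refine ⟨ri (Equiv.sumComm Unit Unit).symm θ, tt_mem _ h1, h2, fun f => ?_⟩
    have h4 := h3 f
    rw [inc2_val, inc2_val] at h4
    funext i
    have h5 := congrFun h4 ((Equiv.sumComm Unit Unit).symm i)
    change θ ((Equiv.sumComm Unit Unit).symm i) * ld ((ι₂ f : KK (Unit ⊕ Unit) A)
      (Equiv.sumComm Unit Unit ((Equiv.sumComm Unit Unit).symm i))) =
      (ι₂ (D₂ f) : KK (Unit ⊕ Unit) A)
        (Equiv.sumComm Unit Unit ((Equiv.sumComm Unit Unit).symm i)) at h5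
    rw [Equiv.apply_symm_apply] at h5
    exact h5

section alg

variable {X : Type} [CommRing X]

theorem eq2 {b e t F w χ : X} (N k : ℕ) (h : b * e = t) :
    b ^ (N + (k + 1)) * (F * w ^ k * χ * e ^ (k + 1)) =
      (b ^ N * F) * (t * w) ^ k * (t * χ) := by
  rw [← h]
  ring

theorem eq1 {d₁ d₂ e₁ e₂ F₁ F₂ c : X} (k : ℕ) (h1 : d₁ * e₁ = 1) (h2 : d₂ * e₂ = 1)
    (h : d₁ ^ (k + 1) * F₂ = c * (d₂ ^ (k + 1) * F₁)) :
    F₂ * e₂ ^ (k + 1) = c * (F₁ * e₁ ^ (k + 1)) := by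
  have h3 : (d₁ * e₁) ^ (k + 1) * (F₂ * e₂ ^ (k + 1)) =
      c * ((d₂ * e₂) ^ (k + 1) * (F₁ * e₁ ^ (k + 1))) := by
    calc (d₁ * e₁) ^ (k + 1) * (F₂ * e₂ ^ (k + 1)) =
        (d₁ ^ (k + 1) * F₂) * (e₁ ^ (k + 1) * e₂ ^ (k + 1)) := by ring
      _ = _ := by
        rw [h]
        ring
  rwa [h1, h2, one_pow, one_mul, one_mul] at h3

end alg

end TCM

open _root_.Pool.Agent.MG.G0.TCM in
/-- TCM: there are no vector fields. -/
theorem t_TCM (hTCH : Stmt_TCH) (hKBC : Stmt_KBC) (hTRX : Stmt_TRX) : Stmt_TCM := by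
  intro A _ h R₁ R₂ P ι₁ ι₂ D₁ g₁ D₂ g₂ hT B _ φ F₁ F₂ c n hn hc ⟨N₁, hm₁, hr₁⟩ ⟨N₂, hm₂, hr₂⟩ heq
  obtain ⟨k, rfl⟩ : ∃ k, n = k + 1 := ⟨n - 1, by omega⟩
  obtain ⟨⟨θ₁, ht₁, hθr₁, hθ₁⟩, ⟨θ₂, ht₂, hθr₂, hθ₂⟩⟩ :=
    fields hTCH hTRX hT.chp hT.inc D₁ D₂
  obtain ⟨ω, ω', hω, hω', hωu, hfrm⟩ := hT.frm
  have hkr : IsKr h (bc φ P) := (hKBC.2.2.2 hT.chp.s12.kr φ).1
  set b₁ : KK (Unit ⊕ Unit) B := kmap φ (ι₁ (D₁ g₁) : KK (Unit ⊕ Unit) A) with hb₁
  set b₂ : KK (Unit ⊕ Unit) B := kmap φ (ι₂ (D₂ g₂) : KK (Unit ⊕ Unit) A) with hb₂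
  set d₁ : KK (Unit ⊕ Unit) B := kmap φ (dd (ι₁ g₁ : KK (Unit ⊕ Unit) A)) with hd₁
  set d₂ : KK (Unit ⊕ Unit) B := kmap φ (dd (ι₂ g₂ : KK (Unit ⊕ Unit) A)) with hd₂
  have e1 : kmap φ θ₁ * d₁ = b₁ := by
    rw [hd₁, hb₁, ← map_mul, hθ₁]
  have e2 : kmap φ θ₂ * d₂ = b₂ := by
    rw [hd₂, hb₂, ← map_mul, hθ₂]
  have ub₁ : IsUnit b₁ := hT.u1.map (kmap φ)
  have ub₂ : IsUnit b₂ := hT.u2.map (kmap φ)
  have ud₁ : IsUnit d₁ := isUnit_of_mul_isUnit_right (by rwa [e1])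
  have ud₂ : IsUnit d₂ := isUnit_of_mul_isUnit_right (by rwa [e2])
  obtain ⟨i₁, hi₁⟩ := ud₁.exists_right_inv
  obtain ⟨i₂, hi₂⟩ := ud₂.exists_right_inv
  have f1 : b₁ * i₁ = kmap φ θ₁ := by
    rw [← e1, mul_assoc, hi₁, mul_one]
  have f2 : b₂ * i₂ = kmap φ θ₂ := by
    rw [← e2, mul_assoc, hi₂, mul_one]
  have heq' : d₁ ^ (k + 1) * F₂ = algebraMap B _ c * (d₂ ^ (k + 1) * F₁) := by
    rw [heq, Algebra.smul_def]
  have hFe := eq1 k hi₁ hi₂ heq'
  -- the two expressions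
  have key : ∀ χ ∈ EE P, ∃ a : B, F₂ * kmap φ ω ^ k * kmap φ χ * i₂ ^ (k + 1) =
      algebraMap B (KK (Unit ⊕ Unit) B) a := by
    intro χ hχ
    set F := F₂ * kmap φ ω ^ k * kmap φ χ * i₂ ^ (k + 1) with hF
    have hF' : F = algebraMap B _ c * (F₁ * kmap φ ω ^ k * kmap φ χ * i₁ ^ (k + 1)) := by
      calc F = (F₂ * i₂ ^ (k + 1)) * (kmap φ ω ^ k * kmap φ χ) := by rw [hF]; ring
        _ = _ := by
          rw [hFe]
          ring
    have g2 : b₂ ^ (N₂ + (k + 1)) * F =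
        (b₂ ^ N₂ * F₂) * (kmap φ θ₂ * kmap φ ω) ^ k * (kmap φ θ₂ * kmap φ χ) := eq2 N₂ k f2
    have g1 : b₁ ^ (N₁ + (k + 1)) * F = algebraMap B _ c *
        ((b₁ ^ N₁ * F₁) * (kmap φ θ₁ * kmap φ ω) ^ k * (kmap φ θ₁ * kmap φ χ)) := by
      rw [hF', ← eq2 N₁ k f1]
      ring
    have hmem : ∀ θ ∈ TT P, ∀ η ∈ EE P, kmap φ θ * kmap φ η ∈ bc φ P := by
      intro θ hθ η hη
      rw [← map_mul]
      exact kmap_mem_bc φ (hT.chp.s12.dual θ hθ η hη.1)
    have m2 : b₂ ^ (N₂ + (k + 1)) * F ∈ bc φ P := by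
      rw [g2]
      exact mul_mem (mul_mem hm₂ (pow_mem (hmem θ₂ ht₂ ω hω) k)) (hmem θ₂ ht₂ χ hχ)
    have m1 : b₁ ^ (N₁ + (k + 1)) * F ∈ bc φ P := by
      rw [g1]
      exact mul_mem ((bc φ P).algebraMap_mem c)
        (mul_mem (mul_mem hm₁ (pow_mem (hmem θ₁ ht₁ ω hω) k)) (hmem θ₁ ht₁ χ hχ))
    -- `F` is in the ring
    have hFm : F ∈ bc φ P := by
      obtain ⟨u, v, huv⟩ := hT.cov
      have hco : IsCoprime (ι₁ (D₁ g₁)) (ι₂ (D₂ g₂)) := ⟨u, v, huv⟩
      obtain ⟨u', v', huv'⟩ := (hco.pow_left (m := N₁ + (k + 1))).pow_right (n := N₂ + (k + 1))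
      have h1 := congrArg (fun x : P => kmap φ (x : KK (Unit ⊕ Unit) A)) huv'
      have h2 : kmap φ (u' : KK (Unit ⊕ Unit) A) * b₁ ^ (N₁ + (k + 1)) +
          kmap φ (v' : KK (Unit ⊕ Unit) A) * b₂ ^ (N₂ + (k + 1)) = 1 := by
        rw [hb₁, hb₂, ← map_pow, ← map_pow, ← map_mul, ← map_mul, ← map_add, ← map_one (kmap φ)]
        exact h1
      have h3 : F = kmap φ (u' : KK (Unit ⊕ Unit) A) * (b₁ ^ (N₁ + (k + 1)) * F) +
          kmap φ (v' : KK (Unit ⊕ Unit) A) * (b₂ ^ (N₂ + (k + 1)) * F) := by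
        calc F = (kmap φ (u' : KK (Unit ⊕ Unit) A) * b₁ ^ (N₁ + (k + 1)) +
              kmap φ (v' : KK (Unit ⊕ Unit) A) * b₂ ^ (N₂ + (k + 1))) * F := by
              rw [h2, one_mul]
          _ = _ := by ring
      rw [h3]
      exact add_mem (mul_mem (kmap_mem_bc φ u'.2) m1) (mul_mem (kmap_mem_bc φ v'.2) m2)
    -- `F` is regular
    have hreg : ∀ (η : KK (Unit ⊕ Unit) A) (i : Unit ⊕ Unit), (∀ m < 0, (η i).coeff m = 0) →
        ∀ m < 0, (kmap φ η i).coeff m = 0 := by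
      intro η i hη m hm
      rw [kmap_apply, lmap_coeff, hη m hm, map_zero]
    have hEE : ∀ η ∈ EE P, ∀ i, ∀ m < 0, (η i).coeff m = 0 :=
      fun η hη i m hm => hη.2 i m (by omega)
    have hFl : ∀ m < 0, (F (Sum.inl ())).coeff m = 0 := by
      refine regK (g := b₂ (Sum.inl ())) (hreg _ _ (hT.inc.r2 _ ())) ?_ (N₂ + (k + 1)) ?_
      · rw [hb₂, kmap_apply, lmap_coeff]
        exact hT.v2.map φ
      · have h1 := congrFun g2 (Sum.inl ())
        have h2 : b₂ (Sum.inl ()) ^ (N₂ + (k + 1)) * F (Sum.inl ()) =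
            (b₂ ^ N₂ * F₂) (Sum.inl ()) * (kmap φ θ₂ (Sum.inl ()) * kmap φ ω (Sum.inl ())) ^ k *
              (kmap φ θ₂ (Sum.inl ()) * kmap φ χ (Sum.inl ())) := h1
        rw [h2]
        exact mulr (mulr hr₂ (powr (mulr (hreg _ _ hθr₂) (hreg _ _ (hEE ω hω _))) k))
          (mulr (hreg _ _ hθr₂) (hreg _ _ (hEE χ hχ _)))
    have hFr : ∀ m < 0, (F (Sum.inr ())).coeff m = 0 := by
      refine regK (g := b₁ (Sum.inr ())) (hreg _ _ (hT.inc.r1 _ ())) ?_ (N₁ + (k + 1)) ?_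
      · rw [hb₁, kmap_apply, lmap_coeff]
        exact hT.v1.map φ
      · have h1 := congrFun g1 (Sum.inr ())
        have h2 : b₁ (Sum.inr ()) ^ (N₁ + (k + 1)) * F (Sum.inr ()) =
            algebraMap B (KK (Unit ⊕ Unit) B) c (Sum.inr ()) *
            ((b₁ ^ N₁ * F₁) (Sum.inr ()) * (kmap φ θ₁ (Sum.inr ()) * kmap φ ω (Sum.inr ())) ^ k *
              (kmap φ θ₁ (Sum.inr ()) * kmap φ χ (Sum.inr ()))) := h1
        rw [h2]
        exact mulr (fun m hm => algebraMap_mem_Pol0 c _ m (by omega))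
          (mulr (mulr hr₁ (powr (mulr (hreg _ _ hθr₁) (hreg _ _ (hEE ω hω _))) k))
          (mulr (hreg _ _ hθr₁) (hreg _ _ (hEE χ hχ _))))
    refine hkr.k1 F hFm ?_
    rintro (i | i) m hm
    · exact hFl m (by omega)
    · exact hFr m (by omega)
  obtain ⟨a, ha⟩ := key ω hω
  obtain ⟨a', ha'⟩ := key ω' hω'
  have h1 : a • kmap φ ω' = a' • kmap φ ω := by
    rw [Algebra.smul_def, Algebra.smul_def, ← ha, ← ha']
    ring
  have h2 : a = 0 := (hfrm φ a a' h1).1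
  rw [h2, map_zero] at ha
  have uω : IsUnit (kmap φ ω) := hωu.map (kmap φ)
  have ui₂ : IsUnit i₂ := isUnit_of_mul_isUnit_right (by rw [hi₂]; exact isUnit_one)
  have h3 : F₂ * (kmap φ ω ^ k * kmap φ ω * i₂ ^ (k + 1)) = 0 := by
    rw [← ha]
    ring
  have h4 : F₂ = 0 := by
    have hu : IsUnit (kmap φ ω ^ k * kmap φ ω * i₂ ^ (k + 1)) :=
      ((uω.pow k).mul uω).mul (ui₂.pow (k + 1))
    exact (hu.mul_left_eq_zero).1 h3
  rw [h4, mul_zero] at heq'
  have hu : IsUnit (algebraMap B (KK (Unit ⊕ Unit) B) c * d₂ ^ (k + 1)) :=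
    (hc.map (algebraMap B (KK (Unit ⊕ Unit) B))).mul (ud₂.pow (k + 1))
  refine (hu.mul_right_eq_zero).1 ?_
  rw [mul_assoc]
  exact heq'.symm

end Pool.Agent.MG.G0


end
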