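import Mathlib
import Pool.Agent.KDM.C07
import Pool.Agent.KDM.C13
import Pool.Agent.KDM.C17
import Pool.Agent.KDM.C18

/-! Parts: MG.KSN, MG.COV, MG.H2.CDefs, MG.H2.CVal, MG.H2.CCov, MG.H2.CRing, MG.H2.HForm, MG.H2.CThk -/

section

/-!
# KSN: Kodaira–Spencer classes and arrows
-/

open CategoryTheory CategoryTheory.Limits AlgebraicGeometry TensorProduct

namespace Pool.Agent.MG

namespace KSN

section

variable {n : ℕ} {B E J : Type} [CommRing B] [CommRing E] [Fintype J] {S : SqE B E J}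
  {B' E' J' : Type} [CommRing B'] [CommRing E'] [Fintype J'] {S' : SqE B' E' J'}
  {φ : B →+* B'} {Φ : E →+* E'} {x : Fam n B} {x' : Fam n B'} {a : Arrow φ x' x}
  {t : Thk S x} {t' : Thk S' x'} {f : Arrow Φ t'.y t.y}

/-- Opens of the thickenings. -/
theorem pre_op (hf : t'.r.f ≫ f.f = a.f ≫ t.r.f) (U : x.X.Opens) :
    f.f ⁻¹ᵁ (t.op U) = t'.op (a.f ⁻¹ᵁ U) := by
  apply t'.pre_inj
  rw [t'.pre]
  have h1 : t'.r.f ⁻¹ᵁ (f.f ⁻¹ᵁ (t.op U)) = (t'.r.f ≫ f.f) ⁻¹ᵁ (t.op U) := rfl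
  have h2 : (a.f ≫ t.r.f) ⁻¹ᵁ (t.op U) = a.f ⁻¹ᵁ (t.r.f ⁻¹ᵁ (t.op U)) := rfl
  rw [h1, hf, h2, t.pre]

theorem op_le (hf : t'.r.f ≫ f.f = a.f ≫ t.r.f) {U : x.X.Opens} {U' : x'.X.Opens}
    (hU : U' ≤ a.f ⁻¹ᵁ U) : t'.op U' ≤ f.f ⁻¹ᵁ (t.op U) := by
  rw [pre_op hf]
  exact t'.op_mono hU

/-- Pull back of functions on the thickenings. -/
noncomputable def uu (hf : t'.r.f ≫ f.f = a.f ≫ t.r.f) {U : x.X.Opens} {U' : x'.X.Opens}
    (hU : U' ≤ a.f ⁻¹ᵁ U) : Γ(t.y.X, t.op U) →+* Γ(t'.y.X, t'.op U') :=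
  (f.f.appLE (t.op U) (t'.op U') (op_le hf hU)).hom

theorem uu_coef (hf : t'.r.f ≫ f.f = a.f ≫ t.r.f) {U : x.X.Opens} {U' : x'.X.Opens}
    (hU : U' ≤ a.f ⁻¹ᵁ U) (z : E) :
    uu hf hU (coef t.y.π (t.op U) z) = coef t'.y.π (t'.op U') (Φ z) :=
  coef_arrow f.cart.w _ _ _ z

theorem uu_rs (hf : t'.r.f ≫ f.f = a.f ≫ t.r.f) {U V : x.X.Opens} {U' V' : x'.X.Opens}
    (hU : U' ≤ a.f ⁻¹ᵁ U) (hV : V' ≤ a.f ⁻¹ᵁ V) (h : U ≤ V) (h' : U' ≤ V')
    (v : Γ(t.y.X, t.op V)) :
    uu hf hU (rs t.y.X (t.op_mono h) v) = rs t'.y.X (t'.op_mono h') (uu hf hV v) := by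
  change (t.y.X.presheaf.map (homOfLE (t.op_mono h)).op ≫
    f.f.appLE (t.op U) (t'.op U') (op_le hf hU)) v = (f.f.appLE (t.op V) (t'.op V')
      (op_le hf hV) ≫ t'.y.X.presheaf.map (homOfLE (t'.op_mono h')).op) v
  rw [Scheme.Hom.map_appLE, Scheme.Hom.appLE_map]

theorem q_uu (hf : t'.r.f ≫ f.f = a.f ≫ t.r.f) {U : x.X.Opens} {U' : x'.X.Opens}
    (hU : U' ≤ a.f ⁻¹ᵁ U) (v : Γ(t.y.X, t.op U)) :
    t'.q U' (uu hf hU v) = (a.f.appLE U U' hU).hom (t.q U v) := by
  have h1 := Scheme.Hom.appLE_comp_appLE t'.r.f f.f (t.op U) (t'.op U') U' (op_le hf hU)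
    (t'.pre U').ge
  have h2 := Scheme.Hom.appLE_comp_appLE a.f t.r.f (t.op U) U U' (t.pre U).ge hU
  have h3 : f.f.appLE (t.op U) (t'.op U') (op_le hf hU) ≫ t'.r.f.appLE (t'.op U') U'
      (t'.pre U').ge = t.r.f.appLE (t.op U) U (t.pre U).ge ≫ a.f.appLE U U' hU := by
    rw [h1, h2]
    simp only [hf]
  exact ConcreteCategory.congr_hom h3 v

theorem ev_uu (hf : t'.r.f ≫ f.f = a.f ≫ t.r.f) {U : x.X.Opens} {U' : x'.X.Opens}
    (hU : U' ≤ a.f ⁻¹ᵁ U) (i : Fin n) (h : ⊤ ≤ x.σ i ⁻¹ᵁ U) (h' : ⊤ ≤ x'.σ i ⁻¹ᵁ U')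
    (v : Γ(t.y.X, t.op U)) : t'.ev i h' (uu hf hU v) = Φ (t.ev i h v) := by
  have h1 := Scheme.Hom.appLE_comp_appLE (t'.y.σ i) f.f (t.op U) (t'.op U') ⊤ (op_le hf hU)
    (t'.sec_le i h')
  have h2 := Scheme.Hom.appLE_comp_appLE (spMap Φ) (t.y.σ i) (t.op U) ⊤ ⊤ (t.sec_le i h) le_top
  have h3 : f.f.appLE (t.op U) (t'.op U') (op_le hf hU) ≫ (t'.y.σ i).appLE (t'.op U') ⊤
      (t'.sec_le i h') = (t.y.σ i).appLE (t.op U) ⊤ (t.sec_le i h) ≫
        (spMap Φ).appLE ⊤ ⊤ le_top := by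
    rw [h1, h2]
    simp only [f.sec i]
  have h4 := ConcreteCategory.congr_hom h3 v
  change (Scheme.ΓSpecIso (CommRingCat.of E')).hom.hom
    ((f.f.appLE (t.op U) (t'.op U') (op_le hf hU) ≫ (t'.y.σ i).appLE (t'.op U') ⊤
      (t'.sec_le i h')) v) = Φ ((Scheme.ΓSpecIso (CommRingCat.of E)).hom.hom
    (((t.y.σ i).appLE (t.op U) ⊤ (t.sec_le i h)).hom v))
  rw [h4, ← gs_spMap]
  change (Scheme.ΓSpecIso (CommRingCat.of E')).hom.hom ((spMap Φ).appLE ⊤ ⊤ le_top
    ((t.y.σ i).appLE (t.op U) ⊤ (t.sec_le i h) v)) = _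
  congr 2

end

section

variable {n : ℕ} {k : Type} [Field k] {T : TC k} {B : Type} [CommRing B] [Algebra k B]
  {B' : Type} [CommRing B'] [Algebra k B'] {φ : B →ₐ[k] B'} {x : Fam n B} {x' : Fam n B'}
  {ct : Charted T x} {ct' : Charted T x'} {a : Arrow (φ : B →+* B') x' x}

/-- Pull back of functions on a chart. -/
theorem pull {R : Type} [CommRing R] [Algebra k R] {U : x.X.Opens} {U' : x'.X.Opens}
    (hU : U' ≤ a.f ⁻¹ᵁ U) (s : B ⊗[k] R →+* Γ(x.X, U)) (s' : B' ⊗[k] R →+* Γ(x'.X, U'))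
    (c : ∀ b : B, s (b ⊗ₜ 1) = coef x.π U b) (c' : ∀ b : B', s' (b ⊗ₜ 1) = coef x'.π U' b)
    (hr : ∀ r : R, (a.f.appLE U U' hU).hom (s (1 ⊗ₜ r)) = s' (1 ⊗ₜ r)) (w : B ⊗[k] R) :
    (a.f.appLE U U' hU).hom (s w) = s' (Algebra.TensorProduct.map φ (AlgHom.id k R) w) := by
  refine tensor_ind (f := (a.f.appLE U U' hU).hom.comp s)
    (g := s'.comp (Algebra.TensorProduct.map φ (AlgHom.id k R)).toRingHom) ?_ ?_ w
  · intro b
    have h1 : Algebra.TensorProduct.map φ (AlgHom.id k R) (b ⊗ₜ[k] 1) = φ b ⊗ₜ 1 := by simp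
    change (a.f.appLE U U' hU).hom (s (b ⊗ₜ 1)) =
      s' (Algebra.TensorProduct.map φ (AlgHom.id k R) (b ⊗ₜ[k] 1))
    rw [h1, c, c']
    exact coef_arrow a.cart.w _ _ _ b
  · intro r
    have h1 : Algebra.TensorProduct.map φ (AlgHom.id k R) (1 ⊗ₜ[k] r) = 1 ⊗ₜ r := by simp
    change (a.f.appLE U U' hU).hom (s (1 ⊗ₜ r)) =
      s' (Algebra.TensorProduct.map φ (AlgHom.id k R) (1 ⊗ₜ[k] r))
    rw [h1, hr]

theorem le12 (ha : ChArrow a ct' ct) : ct'.U1 ⊓ ct'.U2 ≤ a.f ⁻¹ᵁ (ct.U1 ⊓ ct.U2) := by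
  have h1 : a.f ⁻¹ᵁ (ct.U1 ⊓ ct.U2) = a.f ⁻¹ᵁ ct.U1 ⊓ a.f ⁻¹ᵁ ct.U2 := rfl
  rw [h1, ha.h1, ha.h2]

variable {E J : Type} [CommRing E] [Fintype J] {S : SqE B E J} {E' J' : Type} [CommRing E']
  [Fintype J'] {S' : SqE B' E' J'} {m : J → J' → B'} {Φ : SqHom S S' (φ : B →+* B') m}
  {t : Thk S x} {t' : Thk S' x'} {f : Arrow Φ.Φ t'.y t.y}

theorem q_eq {R : Type} [CommRing R] [Algebra k R] (hf : t'.r.f ≫ f.f = a.f ≫ t.r.f)
    {U : x.X.Opens} {U' : x'.X.Opens} (hU : U' ≤ a.f ⁻¹ᵁ U) (s : B ⊗[k] R ≃+* Γ(x.X, U))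
    (s' : B' ⊗[k] R ≃+* Γ(x'.X, U')) (hp : ∀ w : B ⊗[k] R, (a.f.appLE U U' hU).hom (s w) =
      s' (Algebra.TensorProduct.map φ (AlgHom.id k R) w)) (v : Γ(t.y.X, t.op U)) :
    s'.symm (t'.q U' (uu hf hU v)) =
      Algebra.TensorProduct.map φ (AlgHom.id k R) (s.symm (t.q U v)) := by
  rw [q_uu, RingEquiv.symm_apply_eq, ← hp, RingEquiv.apply_symm_apply]

/-- The morphism of ring data of an arrow. -/
noncomputable def hom (ha : ChArrow a ct' ct) (hf : t'.r.f ≫ f.f = a.f ≫ t.r.f)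
    (H : Good3 ct t) (H' : Good3 ct' t') : RHom Φ (rd ct t H) (rd ct' t' H') where
  u1 := uu hf ha.h1.ge
  u2 := uu hf ha.h2.ge
  u12 := uu hf (le12 ha)
  ua1 z := uu_coef hf ha.h1.ge z
  ua2 z := uu_coef hf ha.h2.ge z
  ua12 z := uu_coef hf (le12 ha) z
  uf1 v := uu_rs hf (le12 ha) ha.h1.ge inf_le_left inf_le_left v
  uf2 v := uu_rs hf (le12 ha) ha.h2.ge inf_le_right inf_le_right v
  uq1 v := q_eq hf ha.h1.ge ct.eq1 ct'.eq1
    (fun w => pull (a := a) ha.h1.ge ct.t1 ct'.t1 ct.c1 ct'.c1 ha.f1 w) v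
  uq2 v := q_eq hf ha.h2.ge ct.eq2 ct'.eq2
    (fun w => pull (a := a) ha.h2.ge ct.t2 ct'.t2 ct.c2 ct'.c2 ha.f2 w) v
  uq12 v := q_eq hf (le12 ha) ct.eq12 ct'.eq12
    (fun w => pull (a := a) (le12 ha) ct.t12 ct'.t12 ct.c12 ct'.c12 (ha.f12 (le12 ha)) w) v

theorem hom_sec (ha : ChArrow a ct' ct) (hf : t'.r.f ≫ f.f = a.f ≫ t.r.f)
    (H : Good3 ct t) (H' : Good3 ct' t') (i : Fin n) (p : Pt T B) (hp : ct.Is (x.σ i) p)
    (hp' : ct'.Is (x'.σ i) (p.map φ)) :
    (hom ha hf H H').Sec p (rsec ct t H i p hp) (rsec ct' t' H' i (p.map φ) hp') := by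
  cases p with
  | one ψ =>
    intro v
    exact ev_uu hf ha.h1.ge i hp.1 hp'.1 v
  | two ψ =>
    intro v
    exact ev_uu hf ha.h2.ge i hp.1 hp'.1 v

end

end KSN

theorem t_KSN (hSQZ : Stmt_SQZ) (hAN : Stmt_AN) : Stmt_KSN := by
  intro n k _ T B _ _ E J _ _ S B' _ _ E' J' _ _ S' φ m Φ x x' ct ct' a ha t t' f hf s hs hs' h δ
  rintro ⟨H, hH⟩
  have H' : Good3 ct' t' :=
    ⟨hSQZ t' ct'.U1 ct'.ac1, hSQZ t' ct'.U2 ct'.ac2, hSQZ t' (ct'.U1 ⊓ ct'.U2) ct'.ac12⟩
  exact ⟨H', hAN (KSN.hom ha hf H H') s (fun i => rsec ct t H i (s i) (hs i))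
    (fun i => rsec ct' t' H' i ((s i).map φ) (hs' i))
    (fun i => KSN.hom_sec ha hf H H' i (s i) (hs i) (hs' i)) h δ hH⟩

end Pool.Agent.MG


end

section

/-!
# COV, COU, NAT: covector data give covectors
-/

open CategoryTheory CategoryTheory.Limits AlgebraicGeometry TensorProduct

namespace Pool.Agent.MG

namespace COV

section id

variable {n : ℕ} {k : Type} [Field k] {T : TC k} {B : Type} [CommRing B] [Algebra k B]

/-- The identity arrow. -/
noncomputable def idArr (k : Type) [Field k] [Algebra k B] (x : Fam n B) :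
    Arrow ((AlgHom.id k B : B →ₐ[k] B) : B →+* B) x x where
  f := 𝟙 x.X
  cart := by
    have h : spMap ((AlgHom.id k B : B →ₐ[k] B) : B →+* B) = 𝟙 (Sp B) := Spec.map_id _
    rw [h]
    exact IsPullback.of_horiz_isIso ⟨by simp⟩
  sec i := by
    have h : spMap ((AlgHom.id k B : B →ₐ[k] B) : B →+* B) = 𝟙 (Sp B) := Spec.map_id _
    rw [h, Category.comp_id, Category.id_comp]

theorem id_appLE {X : Scheme.{0}} (U : X.Opens) (h : U ≤ (𝟙 X : X ⟶ X) ⁻¹ᵁ U) (v : Γ(X, U)) :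
    ((𝟙 X : X ⟶ X).appLE U U h).hom v = v := by
  have h1 : (𝟙 X : X ⟶ X).appLE U U h = 𝟙 _ := by
    have h2 : (𝟙 X : X ⟶ X).appLE U U h = (𝟙 X : X ⟶ X).app U := Scheme.Hom.appLE_eq_app _
    rw [h2]
    rfl
  rw [h1]
  rfl

theorem idCh {x : Fam n B} (ct : Charted T x) : ChArrow (idArr k x) ct ct where
  h1 := rfl
  h2 := rfl
  f1 _ := id_appLE _ _ _
  f2 _ := id_appLE _ _ _
  f12 _ _ := id_appLE _ _ _

theorem map_id (s : Pt T B) : s.map (AlgHom.id k B) = s := by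
  cases s <;> rfl

end id

section ext

variable {k : Type} [Field k] {B : Type} [CommRing B] [Algebra k B] {R : Type} [CommRing R]
  [Algebra k R] (μ : R →ₗ[k] B)

theorem ext_tmul (b : B) (r : R) : ext μ (b ⊗ₜ r) = b * μ r := by
  simp [ext]

theorem ext_smul (b : B) (v : B ⊗[k] R) : ext μ (b • v) = b * ext μ v := by
  induction v with
  | zero => simp
  | tmul c r => rw [TensorProduct.smul_tmul', ext_tmul, ext_tmul, smul_eq_mul, mul_assoc]
  | add u v hu hv => rw [smul_add, map_add, map_add, hu, hv, mul_add]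

theorem ext_map {B' : Type} [CommRing B'] [Algebra k B'] (φ : B →ₐ[k] B') (μ' : R →ₗ[k] B')
    (hμ : ∀ r, μ' r = φ (μ r)) (v : B ⊗[k] R) :
    ext μ' (Algebra.TensorProduct.map φ (AlgHom.id k R) v) = φ (ext μ v) := by
  induction v with
  | zero => simp
  | tmul c r =>
    rw [Algebra.TensorProduct.map_tmul, ext_tmul, ext_tmul, AlgHom.id_apply, hμ, map_mul]
  | add u v hu hv => rw [map_add, map_add, map_add, hu, hv, map_add]

end ext

section KS

variable {n : ℕ} {k : Type} [Field k] {T : TC k} {B : Type} [CommRing B] [Algebra k B]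
  {x : Fam n B} {ct : Charted T x} {E J : Type} [CommRing E] [Fintype J] {S : SqE B E J}
  {t : Thk S x}

theorem KS_congr {s s' : Fin n → Pt T B} (e : s' = s) (hs : ∀ i, ct.Is (x.σ i) (s i))
    (hs' : ∀ i, ct.Is (x.σ i) (s' i)) {h h' : J → B ⊗[k] T.R12} (eh : h' = h)
    {δ δ' : J → Fin n → B} (ed : δ' = δ) :
    KS ct t s' hs' h' δ' → KS ct t s hs h δ := by
  subst e
  subst eh
  subst ed
  exact id

theorem exists_KS (hSQZ : Stmt_SQZ) (hAX : Stmt_AX) (t : Thk S x) (s : Fin n → Pt T B)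
    (hs : ∀ i, ct.Is (x.σ i) (s i)) : ∃ h δ, KS ct t s hs h δ := by
  have H : Good3 ct t := ⟨hSQZ t _ ct.ac1, hSQZ t _ ct.ac2, hSQZ t _ ct.ac12⟩
  obtain ⟨h, δ, hd⟩ := hAX (rd ct t H) s (fun i => rsec ct t H i (s i) (hs i))
  exact ⟨h, δ, H, hd⟩

theorem indep (hAI : Stmt_AI) (s : Fin n → Pt T B) (hs : ∀ i, ct.Is (x.σ i) (s i))
    (C : CovData s) {h h' : J → B ⊗[k] T.R12} {δ δ' : J → Fin n → B}
    (hd : KS ct t s hs h δ) (hd' : KS ct t s hs h' δ') (j : J) :
    ext C.μ (h j) + ∑ i, C.ν i * δ j i = ext C.μ (h' j) + ∑ i, C.ν i * δ' j i := by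
  obtain ⟨H, a⟩ := hd
  obtain ⟨H', a'⟩ := hd'
  exact hAI (rd ct t H) s _ C h h' δ δ' a a' j

end KS

theorem Cov_ext {n : ℕ} {A : Type} [CommRing A] {g : ℕ} {x : Fam n A} (l l' : Cov g x)
    (h : ∀ d, l.l d = l'.l d) : l = l' := by
  cases l
  cases l'
  congr
  exact funext h

/-- the identity of `B[ε]` -/
noncomputable def sqId (k : Type) [Field k] (B : Type) [CommRing B] [Algebra k B] :
    SqHom (sqEps B) (sqEps B) ((AlgHom.id k B : B →ₐ[k] B) : B →+* B) (fun _ _ => 1) where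
  Φ := RingHom.id (Eps B)
  hi b := rfl
  he j := by simp

/-- `ε ↦ a ε` -/
noncomputable def sqScale (k : Type) [Field k] (B : Type) [CommRing B] [Algebra k B] (a : B) :
    SqHom (sqEps B) (sqEps B) ((AlgHom.id k B : B →ₐ[k] B) : B →+* B) (fun _ _ => a) where
  Φ := epsScale a
  hi b := by
    ext <;> simp [sqEps]
  he j := by
    ext <;> simp [sqEps]

/-- `ε₁ ↦ a ε`, `ε₂ ↦ b ε` -/
noncomputable def sqPair (k : Type) [Field k] (B : Type) [CommRing B] [Algebra k B] (a b : B) :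
    SqHom (sqEps2 B) (sqEps B) ((AlgHom.id k B : B →ₐ[k] B) : B →+* B)
      (fun j _ => if j then a else b) where
  Φ := epsPair a b
  hi b := by
    ext <;> simp [sqEps, sqEps2]
  he j := by
    cases j <;> ext <;> simp [sqEps, sqEps2]

/-- `φ[ε]` -/
noncomputable def sqMap {k : Type} [Field k] {B : Type} [CommRing B] [Algebra k B] {B' : Type}
    [CommRing B'] [Algebra k B'] (φ : B →ₐ[k] B') :
    SqHom (sqEps B) (sqEps B') (φ : B →+* B') (fun _ _ => 1) where
  Φ := epsMap (φ : B →+* B')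
  hi b := by
    ext <;> simp [sqEps, epsMap]
  he j := by
    ext <;> simp [sqEps, epsMap]

end COV

open _root_.Pool.Agent.MG.COV

theorem t_COV (hSQZ : Stmt_SQZ) (hAX : Stmt_AX) (hAI : Stmt_AI) (hKSN : Stmt_KSN) :
    Stmt_COV ∧ Stmt_COU ∧ Stmt_NAT := by
  refine ⟨?_, ?_, ?_⟩
  · intro n k _ T B _ _ x ct s hs C g
    have hex : ∀ d : Defo g x, ∃ (h : Unit → B ⊗[k] T.R12) (δ : Unit → Fin n → B),
        KS ct d.thk s hs h δ := fun d => exists_KS hSQZ hAX d.thk s hs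
    choose hh dd hd using hex
    have hval : ∀ (d : Defo g x) (h : Unit → B ⊗[k] T.R12) (δ : Unit → Fin n → B),
        KS ct d.thk s hs h δ → ext C.μ (hh d ()) + ∑ i, C.ν i * dd d () i =
          ext C.μ (h ()) + ∑ i, C.ν i * δ () i :=
      fun d h δ hk => indep hAI s hs C (hd d) hk ()
    -- push forward
    have hpush : ∀ {E J : Type} [CommRing E] [Fintype J] {S : SqE B E J} {m : J → Unit → B}
        (Φ : SqHom S (sqEps B) ((AlgHom.id k B : B →ₐ[k] B) : B →+* B) m) (t : Thk S x)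
        (d : Defo g x) (f : Arrow Φ.Φ d.y t.y) (_ : d.r.f ≫ f.f = t.r.f)
        (h : J → B ⊗[k] T.R12) (δ : J → Fin n → B), KS ct t s hs h δ →
        ext C.μ (hh d ()) + ∑ i, C.ν i * dd d () i =
          ∑ j, m j () * (ext C.μ (h j) + ∑ i, C.ν i * δ j i) := by
      intro E J _ _ S m Φ t d f hf h δ hk
      have hs' : ∀ i, ct.Is (x.σ i) ((s i).map (AlgHom.id k B)) := by
        intro i
        rw [COV.map_id]
        exact hs i
      have h1 := hKSN Φ (idArr k x) (idCh ct) t d.thk f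
        (by
          show d.r.f ≫ f.f = 𝟙 x.X ≫ t.r.f
          rw [hf, Category.id_comp]) s hs hs' h δ hk
      have h2 : KS ct d.thk s hs (pushh (AlgHom.id k B) m h) (pushd (AlgHom.id k B) m δ) :=
        KS_congr (funext fun i => COV.map_id (s i)) hs hs' rfl rfl h1
      rw [hval d _ _ h2]
      have h3 : pushh (AlgHom.id k B) m h () = ∑ j, m j () • h j := by
        unfold pushh
        refine Finset.sum_congr rfl fun j _ => ?_
        rw [Algebra.TensorProduct.map_id]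
        rfl
      rw [h3, map_sum]
      have h4 : ∑ i, C.ν i * pushd (AlgHom.id k B) m δ () i =
          ∑ j, m j () * ∑ i, C.ν i * δ j i := by
        unfold pushd
        simp only [Finset.mul_sum]
        rw [Finset.sum_comm]
        refine Finset.sum_congr rfl fun j _ => Finset.sum_congr rfl fun i _ => ?_
        rw [AlgHom.id_apply]
        ring
      rw [h4, ← Finset.sum_add_distrib]
      refine Finset.sum_congr rfl fun j _ => ?_
      rw [ext_smul, mul_add]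
    refine ⟨{ l := fun d => ext C.μ (hh d ()) + ∑ i, C.ν i * dd d () i
              iso := ?_
              scale := ?_
              add := ?_ }, ?_⟩
    · intro d d' f hf
      have h1 := hpush (sqId k B) d'.thk d f hf _ _ (hd d')
      rw [h1]
      simp
    · intro a d d' f hf
      have h1 := hpush (sqScale k B a) d.thk d' f hf _ _ (hd d)
      rw [h1]
      simp
    · intro z hz r d₁ d₂ d f₁ f₂ f hf₁ hf₂ hf
      let t : Thk (sqEps2 B) x := ⟨z, hz.flat, r⟩
      obtain ⟨h, δ, hk⟩ := exists_KS (ct := ct) hSQZ hAX t s hs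
      have h1 := hpush (sqPair k B 1 0) t d₁ f₁ hf₁ _ _ hk
      have h2 := hpush (sqPair k B 0 1) t d₂ f₂ hf₂ _ _ hk
      have h3 := hpush (sqPair k B 1 1) t d f hf _ _ hk
      rw [h1, h2, h3]
      simp
    · intro d h δ hk
      exact hval d _ _ hk
  · intro n k _ T B _ _ x ct s hs C g l l' hl hl'
    refine Cov_ext l l' fun d => ?_
    obtain ⟨h, δ, hk⟩ := exists_KS (ct := ct) hSQZ hAX d.thk s hs
    rw [hl d (h ()) (δ ()) hk, hl' d (h ()) (δ ()) hk]
  · intro n k _ T B _ _ B' _ _ φ x x' ct ct' a ha s hs s' hs' C C' hC g l l' hl hl' d' d f hf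
    obtain ⟨h, δ, hk⟩ := exists_KS (ct := ct) hSQZ hAX d.thk s hs
    have hs'' : ∀ i, ct'.Is (x'.σ i) ((s i).map φ) := by
      intro i
      rw [← hC.hs i]
      exact hs' i
    have h1 := hKSN (sqMap φ) a ha d.thk d'.thk f hf s hs hs'' h δ hk
    have h2 : KS ct' d'.thk s' hs' (pushh φ (fun _ _ => 1) h) (pushd φ (fun _ _ => 1) δ) :=
      KS_congr (funext fun i => (hC.hs i).symm) hs' hs'' rfl rfl h1
    rw [hl d (h ()) (δ ()) hk, hl' d' _ _ h2]
    have h3 : pushh φ (fun (_ : Unit) (_ : Unit) => (1 : B')) h () =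
        Algebra.TensorProduct.map φ (AlgHom.id k T.R12) (h ()) := by
      simp [pushh]
    have h4 : ∀ i, pushd φ (fun (_ : Unit) (_ : Unit) => (1 : B')) δ () i = φ (δ () i) := by
      intro i
      simp [pushd]
    show ext C'.μ (pushh φ (fun (_ : Unit) (_ : Unit) => (1 : B')) h ()) +
      ∑ i, C'.ν i * pushd φ (fun (_ : Unit) (_ : Unit) => (1 : B')) δ () i = _
    rw [h3, ext_map C.μ φ C'.μ hC.hμ, map_add, map_sum]
    congr 1
    refine Finset.sum_congr rfl fun i _ => ?_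
    rw [h4, hC.hν, map_mul]
    rfl

end Pool.Agent.MG


end

section

/-!
# Covectors from differential forms and functionals on `H¹(O)`

`F : FD x`: affine opens `U i` and affine opens `W e ⊆ U (s e) ∩ U (t e)`, smooth over the base, and
for every `k` a differential form `∑ p dq` on the opens `U i`. For a thickening `t` of `x`, lift the
`q` to functions on the thickenings of the `U i` and choose derivations `δ j e` of the functions on
the thickening of `W e` with `δ j e (ε l) = δ_{jl}`; then `h j k e = ∑ p δ(q~)_s - ∑ p δ(q~)_t` is a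
class of `t`.
-/

open CategoryTheory CategoryTheory.Limits AlgebraicGeometry TensorProduct

namespace Pool.Agent.MG.H2

/-- Form data on a family. -/
structure FD {n : ℕ} {B : Type} [CommRing B] (x : Fam n B) where
  /-- charts -/
  I : Type
  /-- edges -/
  E : Type
  /-- forms -/
  K : Type
  [fE : Fintype E]
  [fK : Fintype K]
  /-- charts -/
  U : I → x.X.Opens
  /-- edges -/
  W : E → x.X.Opens
  /-- source -/
  s : E → I
  /-- target -/
  t : E → I
  ws : ∀ e, W e ≤ U (s e)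
  wt : ∀ e, W e ≤ U (t e)
  aff : ∀ i, IsAffineOpen (U i)
  affW : ∀ e, IsAffineOpen (W e)
  sm : ∀ e, (coef x.π (W e)).FormallySmooth
  /-- number of terms -/
  m : ℕ
  /-- coefficients -/
  p : K → ∀ i, Fin m → Γ(x.X, U i)
  /-- functions -/
  q : K → ∀ i, Fin m → Γ(x.X, U i)
  eq : ∀ (k : K) (e : E) (R' : Type) [CommRing R'] (r : Γ(x.X, W e) →+* R')
    (δ : Γ(x.X, W e) → R'), DerA (coef x.π (W e)) r δ →
    ∑ c, r (rs x.X (ws e) (p k (s e) c)) * δ (rs x.X (ws e) (q k (s e) c)) =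
      ∑ c, r (rs x.X (wt e) (p k (t e) c)) * δ (rs x.X (wt e) (q k (t e) c))

attribute [instance] FD.fE FD.fK

section

variable {n : ℕ} {B E J : Type} [CommRing B] [CommRing E] [Fintype J] {S : SqE B E J}
  {x : Fam n B}

/-- `h` is a class of the thickening `t`. -/
structure FCl (F : FD x) (t : Thk S x) (h : J → F.K → ∀ e, Γ(x.X, F.W e)) where
  /-- lifts -/
  L : F.K → ∀ i, Fin F.m → Γ(t.y.X, t.op (F.U i))
  hL : ∀ k i c, t.q (F.U i) (L k i c) = F.q k i c
  /-- derivations -/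
  δ : J → ∀ e, Γ(t.y.X, t.op (F.W e)) → Γ(x.X, F.W e)
  der : ∀ j e, DerA ((coef t.y.π (t.op (F.W e))).comp S.i) (t.q (F.W e)) (δ j e)
  e1 : ∀ j e, δ j e (coef t.y.π (t.op (F.W e)) (S.ε j)) = 1
  e0 : ∀ i j e, i ≠ j → δ j e (coef t.y.π (t.op (F.W e)) (S.ε i)) = 0
  val : ∀ j k e, h j k e =
    ∑ c, rs x.X (F.ws e) (F.p k (F.s e) c) *
        δ j e (rs t.y.X (t.op_mono (F.ws e)) (L k (F.s e) c)) -
      ∑ c, rs x.X (F.wt e) (F.p k (F.t e) c) *
        δ j e (rs t.y.X (t.op_mono (F.wt e)) (L k (F.t e) c))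

/-- Functionals which vanish on coboundaries. -/
structure FMu (F : FD x) where
  /-- the functionals -/
  μ : F.K → ∀ e, Γ(x.X, F.W e) → B
  add : ∀ k e a b, μ k e (a + b) = μ k e a + μ k e b
  smul : ∀ k e (b : B) a, μ k e (coef x.π (F.W e) b * a) = b * μ k e a
  ker : ∀ (k : F.K) (a : ∀ i, Γ(x.X, F.U i)),
    ∑ e, μ k e (rs x.X (F.ws e) (a (F.s e)) - rs x.X (F.wt e) (a (F.t e))) = 0

/-- `l` is the covector given by the functionals `M`. -/
def IsFC {g : ℕ} (F : FD x) (M : FMu F) (l : Cov g x) : Prop :=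
  ∀ (d : Defo g x) (h : F.K → ∀ e, Γ(x.X, F.W e)),
    Nonempty (FCl F d.thk (fun _ : Unit => h)) → l.l d = ∑ k, ∑ e, M.μ k e (h k e)

/-- Pull back of functions along an arrow. -/
noncomputable def pb {B' : Type} [CommRing B'] {φ : B →+* B'} {x' : Fam n B'} (a : Arrow φ x' x)
    {U : x.X.Opens} {U' : x'.X.Opens} (h : U' ≤ a.f ⁻¹ᵁ U) : Γ(x.X, U) →+* Γ(x'.X, U') :=
  (a.f.appLE U U' h).hom

/-- Comparison of form data along an arrow: the forms `k'` on `x'` are linear combinations of the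
pull backs of the forms `k` on `x`. -/
structure FMap {B' : Type} [CommRing B'] {φ : B →+* B'} {x' : Fam n B'} (a : Arrow φ x' x)
    (F' : FD x') (F : FD x) (c : F'.K → F.K → B') where
  /-- charts -/
  κ : F'.I → F.I
  /-- edges -/
  lam : F'.E → F.E
  hs : ∀ e, F.s (lam e) = κ (F'.s e)
  ht : ∀ e, F.t (lam e) = κ (F'.t e)
  hU : ∀ i, F'.U i ≤ a.f ⁻¹ᵁ (F.U (κ i))
  hW : ∀ e, F'.W e ≤ a.f ⁻¹ᵁ (F.W (lam e))
  form : ∀ (k' : F'.K) (i : F'.I) (R' : Type) [CommRing R'] (r : Γ(x'.X, F'.U i) →+* R')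
    (δ : Γ(x'.X, F'.U i) → R'), DerA (coef x'.π (F'.U i)) r δ →
    ∑ j, r (F'.p k' i j) * δ (F'.q k' i j) =
      ∑ k, r (coef x'.π (F'.U i) (c k' k)) *
        ∑ j, r (pb a (hU i) (F.p k (κ i) j)) * δ (pb a (hU i) (F.q k (κ i) j))

end

end Pool.Agent.MG.H2


end

section

/-!
# Classes of thickenings: existence and functoriality
-/

open CategoryTheory CategoryTheory.Limits AlgebraicGeometry TensorProduct

namespace Pool.Agent.MG.H2

theorem rs_rs {X : Scheme.{0}} {U V W : X.Opens} (h : U ≤ V) (h' : V ≤ W) (a : Γ(X, W)) :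
    rs X h (rs X h' a) = rs X (h.trans h') a := by
  change (X.presheaf.map (homOfLE h').op ≫ X.presheaf.map (homOfLE h).op) a = _
  rw [← Functor.map_comp, ← op_comp]
  rfl

theorem DerA.compr {B R R' R'' : Type} [CommRing B] [CommRing R] [CommRing R'] [CommRing R'']
    {c : B →+* R} {r : R →+* R'} {δ : R → R'} (h : DerA c r δ) (g : R'' →+* R) {c' : B →+* R''}
    (hc : g.comp c' = c) : DerA c' (r.comp g) (fun v => δ (g v)) where
  add a b := by rw [map_add, h.add]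
  mul a b := by rw [map_mul, h.mul]; rfl
  const b := by
    have : g (c' b) = c b := by rw [← hc]; rfl
    rw [this, h.const]

section

variable {n : ℕ} {B E J : Type} [CommRing B] [CommRing E] [Fintype J] {S : SqE B E J}
  {x : Fam n B}

theorem good_aff (t : Thk S x) {U : x.X.Opens} (h : IsAffineOpen U) : Good t U :=
  goodAff t U (t_AFF t U h)

/-- Every thickening has a class. -/
theorem exists_FCl (F : FD x) (t : Thk S x) :
    ∃ h : J → F.K → ∀ e, Γ(x.X, F.W e), Nonempty (FCl F t h) := by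
  have hL : ∀ (k : F.K) (i : F.I) (c : Fin F.m), ∃ L : Γ(t.y.X, t.op (F.U i)),
      t.q (F.U i) L = F.q k i c := fun k i c => (good_aff t (F.aff i)).sur _
  choose L hL using hL
  have hδ : ∀ e, ∃ δ : J → Γ(t.y.X, t.op (F.W e)) → Γ(x.X, F.W e),
      (∀ j, DerA ((coef t.y.π (t.op (F.W e))).comp S.i) (t.q (F.W e)) (δ j)) ∧
      (∀ j, δ j (coef t.y.π (t.op (F.W e)) (S.ε j)) = 1) ∧
      ∀ i j, i ≠ j → δ j (coef t.y.π (t.op (F.W e)) (S.ε i)) = 0 := by
    intro e
    have H := good_aff t (F.affW e)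
    refine dex ((coef t.y.π (t.op (F.W e))).comp S.i) (t.q (F.W e))
      (fun j => coef t.y.π (t.op (F.W e)) (S.ε j)) H.sur ?_ ?_ H.ker H.un ?_
    · intro j
      rw [t.q_coef, S.pe, map_zero]
    · intro i j
      rw [← map_mul, S.mul, map_zero]
    · have : (t.q (F.W e)).comp ((coef t.y.π (t.op (F.W e))).comp S.i) = coef x.π (F.W e) := by
        ext b
        change t.q (F.W e) (coef t.y.π (t.op (F.W e)) (S.i b)) = _
        rw [t.q_coef, S.pi]
      rw [this]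
      exact F.sm e
  choose δ h1 h2 h3 using hδ
  exact ⟨_, ⟨{ L := L, hL := hL, δ := fun j e => δ e j, der := fun j e => h1 e j,
               e1 := fun j e => h2 e j, e0 := fun i j e h => h3 e i j h,
               val := fun _ _ _ => rfl }⟩⟩

variable {B' E' J' : Type} [CommRing B'] [CommRing E'] [Fintype J'] {S' : SqE B' E' J'}
  {x' : Fam n B'} {φ : B →+* B'} {mm : J → J' → B'}

theorem pb_coef {a : Arrow φ x' x} {U : x.X.Opens} {U' : x'.X.Opens} (h : U' ≤ a.f ⁻¹ᵁ U)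
    (b : B) : pb a h (coef x.π U b) = coef x'.π U' (φ b) :=
  coef_arrow a.cart.w _ _ _ b

theorem pb_rs {a : Arrow φ x' x} {U V : x.X.Opens} {U' V' : x'.X.Opens}
    (hU : U' ≤ a.f ⁻¹ᵁ U) (hV : V' ≤ a.f ⁻¹ᵁ V) (h : U ≤ V) (h' : U' ≤ V')
    (v : Γ(x.X, V)) : pb a hU (rs x.X h v) = rs x'.X h' (pb a hV v) := by
  change (x.X.presheaf.map (homOfLE h).op ≫ a.f.appLE U U' hU) v =
    (a.f.appLE V V' hV ≫ x'.X.presheaf.map (homOfLE h').op) v
  rw [Scheme.Hom.map_appLE, Scheme.Hom.appLE_map]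

/-- The two sides of an edge. -/
noncomputable def FD.pair (F : FD x) (t : Thk S x) {R : Type} [CommRing R] (k : F.K)
    {W : x.X.Opens} (i : F.I) (hW : W ≤ F.U i) (r : Γ(x.X, W) →+* R)
    (δ : Γ(t.y.X, t.op W) → R) (L : Fin F.m → Γ(t.y.X, t.op (F.U i))) : R :=
  ∑ c, r (rs x.X hW (F.p k i c)) * δ (rs t.y.X (t.op_mono hW) (L c))

theorem FD.pair_congr (F : FD x) (t : Thk S x) {R : Type} [CommRing R] (k : F.K)
    {W : x.X.Opens} {i i' : F.I} (hi : i = i') (hW : W ≤ F.U i) (hW' : W ≤ F.U i')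
    (r : Γ(x.X, W) →+* R) (δ : Γ(t.y.X, t.op W) → R)
    (L : ∀ i, Fin F.m → Γ(t.y.X, t.op (F.U i))) :
    F.pair t k i hW r δ (L i) = F.pair t k i' hW' r δ (L i') := by
  subst hi
  rfl

/-- Functoriality on the edge. -/
theorem edge_val (Φ : SqHom S S' φ mm) {a : Arrow φ x' x} {t : Thk S x} {t' : Thk S' x'}
    {f : Arrow Φ.Φ t'.y t.y} (hf : t'.r.f ≫ f.f = a.f ≫ t.r.f) (F : FD x)
    {h : J → F.K → ∀ e, Γ(x.X, F.W e)} (H : FCl F t h) (e : F.E) (W' : x'.X.Opens)
    (hW : W' ≤ a.f ⁻¹ᵁ (F.W e)) (j' : J') (δ' : Γ(t'.y.X, t'.op W') → Γ(x'.X, W'))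
    (hδ : DerA ((coef t'.y.π (t'.op W')).comp S'.i) (t'.q W') δ')
    (h1 : δ' (coef t'.y.π (t'.op W') (S'.ε j')) = 1)
    (h0 : ∀ i, i ≠ j' → δ' (coef t'.y.π (t'.op W') (S'.ε i)) = 0) (k : F.K) :
    F.pair t k (F.s e) (F.ws e) (pb a hW) (fun v => δ' (KSN.uu hf hW v)) (H.L k (F.s e)) =
      F.pair t k (F.t e) (F.wt e) (pb a hW) (fun v => δ' (KSN.uu hf hW v)) (H.L k (F.t e)) +
      ∑ j, coef x'.π W' (mm j j') * pb a hW (h j k e) := by
  classical
  set u := KSN.uu hf hW with hu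
  have hqu : ∀ v, t'.q W' (u v) = pb a hW (t.q (F.W e) v) := fun v => KSN.q_uu hf hW v
  have hD : DerA ((coef t.y.π (t.op (F.W e))).comp S.i) ((pb a hW).comp (t.q (F.W e)))
      (fun v => δ' (u v)) := by
    refine ⟨fun v w => ?_, fun v w => ?_, fun b => ?_⟩
    · rw [map_add, hδ.add]
    · rw [map_mul, hδ.mul, hqu, hqu]
      rfl
    · have : u (coef t.y.π (t.op (F.W e)) (S.i b)) =
          (coef t'.y.π (t'.op W')).comp S'.i (φ b) := by
        rw [hu, KSN.uu_coef, Φ.hi]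
        rfl
      change δ' (u (coef t.y.π (t.op (F.W e)) (S.i b))) = 0
      rw [this, hδ.const]
  have hDε : ∀ j, δ' (u (coef t.y.π (t.op (F.W e)) (S.ε j))) = coef x'.π W' (mm j j') := by
    intro j
    rw [hu, KSN.uu_coef, Φ.he, map_sum, hδ.sum]
    rw [Finset.sum_eq_single j']
    · rw [map_mul, hδ.mul, h1, t'.q_coef, t'.q_coef, S'.pe, S'.pi, map_zero, zero_mul, zero_add,
        mul_one]
    · intro l _ hl
      rw [map_mul, hδ.mul, h0 l hl, t'.q_coef, t'.q_coef, S'.pe, map_zero, zero_mul, zero_add,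
        mul_zero]
    · intro hh
      exact absurd (Finset.mem_univ _) hh
  -- the difference
  let Δ : Γ(t.y.X, t.op (F.W e)) → Γ(x'.X, W') := fun v =>
    δ' (u v) - ∑ j, coef x'.π W' (mm j j') * pb a hW (H.δ j e v)
  have hΔ : DerA ((coef t.y.π (t.op (F.W e))).comp S.i) ((pb a hW).comp (t.q (F.W e))) Δ := by
    refine ⟨fun v w => ?_, fun v w => ?_, fun b => ?_⟩
    · simp only [Δ]
      rw [hD.add]
      have : ∀ j, H.δ j e (v + w) = H.δ j e v + H.δ j e w := fun j => (H.der j e).add v w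
      simp only [this, map_add, mul_add, Finset.sum_add_distrib]
      ring
    · simp only [Δ]
      rw [hD.mul]
      have : ∀ j, H.δ j e (v * w) = t.q (F.W e) v * H.δ j e w + t.q (F.W e) w * H.δ j e v :=
        fun j => (H.der j e).mul v w
      simp only [this, map_add, map_mul, mul_add, Finset.sum_add_distrib, RingHom.comp_apply,
        mul_sub, Finset.mul_sum]
      have e1 : ∑ j, coef x'.π W' (mm j j') * (pb a hW (t.q (F.W e) v) * pb a hW (H.δ j e w)) =
        ∑ j, pb a hW (t.q (F.W e) v) * (coef x'.π W' (mm j j') * pb a hW (H.δ j e w)) :=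
        Finset.sum_congr rfl fun j _ => by ring
      have e2 : ∑ j, coef x'.π W' (mm j j') * (pb a hW (t.q (F.W e) w) * pb a hW (H.δ j e v)) =
        ∑ j, pb a hW (t.q (F.W e) w) * (coef x'.π W' (mm j j') * pb a hW (H.δ j e v)) :=
        Finset.sum_congr rfl fun j _ => by ring
      rw [e1, e2]
      ring
    · simp only [Δ]
      rw [hD.const]
      have : ∀ j, H.δ j e ((coef t.y.π (t.op (F.W e))).comp S.i b) = 0 :=
        fun j => (H.der j e).const b
      simp only [this, map_zero, mul_zero, Finset.sum_const_zero, sub_zero]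
  have hΔε : ∀ j, Δ (coef t.y.π (t.op (F.W e)) (S.ε j)) = 0 := by
    intro j
    simp only [Δ]
    rw [hDε, Finset.sum_eq_single j]
    · rw [H.e1, map_one, mul_one, sub_self]
    · intro l _ hl
      rw [H.e0 j l e (Ne.symm hl), map_zero, mul_zero]
    · intro hh
      exact absurd (Finset.mem_univ _) hh
  have Hg := good_aff t (F.affW e)
  have hΔ0 : ∀ v, t.q (F.W e) v = 0 → Δ v = 0 := by
    intro v hv
    obtain ⟨w, rfl⟩ := Hg.ker v hv
    rw [hΔ.sum]
    refine Finset.sum_eq_zero fun j _ => ?_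
    rw [hΔ.mul, hΔε, RingHom.comp_apply, RingHom.comp_apply, t.q_coef, S.pe, map_zero, map_zero,
      zero_mul, mul_zero, add_zero]
  have hΔc : ∀ v w, t.q (F.W e) v = t.q (F.W e) w → Δ v = Δ w := by
    intro v w hvw
    have := hΔ0 (v - w) (by rw [map_sub, hvw, sub_self])
    rwa [hΔ.sub, sub_eq_zero] at this
  let sec : Γ(x.X, F.W e) → Γ(t.y.X, t.op (F.W e)) := fun v => (Hg.sur v).choose
  have hsec : ∀ v, t.q (F.W e) (sec v) = v := fun v => (Hg.sur v).choose_spec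
  have hbar : DerA (coef x.π (F.W e)) (pb a hW) (fun v => Δ (sec v)) := by
    refine ⟨fun v w => ?_, fun v w => ?_, fun b => ?_⟩
    · rw [← hΔ.add]
      refine hΔc _ _ ?_
      rw [hsec, map_add, hsec, hsec]
    · have := hΔ.mul (sec v) (sec w)
      rw [RingHom.comp_apply, RingHom.comp_apply, hsec, hsec] at this
      rw [← this]
      refine hΔc _ _ ?_
      rw [hsec, map_mul, hsec, hsec]
    · rw [← hΔ.const b]
      refine hΔc _ _ ?_
      rw [hsec]
      change _ = t.q (F.W e) (coef t.y.π (t.op (F.W e)) (S.i b))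
      rw [t.q_coef, S.pi]
  have hF := F.eq k e _ (pb a hW) _ hbar
  have hlift : ∀ (i : F.I) (hi : F.W e ≤ F.U i) (c : Fin F.m),
      Δ (sec (rs x.X hi (F.q k i c))) = Δ (rs t.y.X (t.op_mono hi) (H.L k i c)) := by
    intro i hi c
    refine hΔc _ _ ?_
    rw [hsec, t.q_rs, H.hL]
  simp only [hlift] at hF
  have hexp : ∀ (i : F.I) (hi : F.W e ≤ F.U i),
      ∑ c, pb a hW (rs x.X hi (F.p k i c)) * Δ (rs t.y.X (t.op_mono hi) (H.L k i c)) =
        F.pair t k i hi (pb a hW) (fun v => δ' (u v)) (H.L k i) -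
        ∑ j, coef x'.π W' (mm j j') * pb a hW (∑ c, rs x.X hi (F.p k i c) *
          H.δ j e (rs t.y.X (t.op_mono hi) (H.L k i c))) := by
    intro i hi
    simp only [Δ, mul_sub, Finset.sum_sub_distrib, FD.pair, map_sum, map_mul, Finset.mul_sum]
    rw [Finset.sum_comm]
    congr 1
    refine Finset.sum_congr rfl fun j _ => Finset.sum_congr rfl fun c _ => ?_
    ring
  rw [hexp, hexp] at hF
  have hval : ∀ j, pb a hW (h j k e) = pb a hW (∑ c, rs x.X (F.ws e) (F.p k (F.s e) c) *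
        H.δ j e (rs t.y.X (t.op_mono (F.ws e)) (H.L k (F.s e) c))) -
      pb a hW (∑ c, rs x.X (F.wt e) (F.p k (F.t e) c) *
        H.δ j e (rs t.y.X (t.op_mono (F.wt e)) (H.L k (F.t e) c))) := by
    intro j
    rw [H.val, map_sub]
  simp only [hval, mul_sub, Finset.sum_sub_distrib]
  linear_combination hF

/-- Functoriality of the classes. -/
theorem FMap.val (Φ : SqHom S S' φ mm) {a : Arrow φ x' x} {F' : FD x'} {F : FD x}
    {c : F'.K → F.K → B'} (m : FMap a F' F c) {t : Thk S x} {t' : Thk S' x'}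
    {f : Arrow Φ.Φ t'.y t.y} (hf : t'.r.f ≫ f.f = a.f ≫ t.r.f)
    {h : J → F.K → ∀ e, Γ(x.X, F.W e)} (H : Nonempty (FCl F t h))
    {h' : J' → F'.K → ∀ e, Γ(x'.X, F'.W e)} (H' : Nonempty (FCl F' t' h')) (M' : FMu F')
    (j' : J') :
    ∑ k', ∑ e', M'.μ k' e' (h' j' k' e') =
      ∑ k', ∑ e', M'.μ k' e' (∑ k, coef x'.π (F'.W e') (c k' k) *
        ∑ j, coef x'.π (F'.W e') (mm j j') * pb a (m.hW e') (h j k (m.lam e'))) := by
  classical
  obtain ⟨H⟩ := H
  obtain ⟨H'⟩ := H'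
  -- the charts
  have hz : ∀ (k' : F'.K) (i' : F'.I), ∃ z : J' → Γ(x'.X, F'.U i'),
      ∀ (R' : Type) [CommRing R'] (r : Γ(x'.X, F'.U i') →+* R')
        (D : Γ(t'.y.X, t'.op (F'.U i')) → R'),
        DerA ((coef t'.y.π (t'.op (F'.U i'))).comp S'.i) (r.comp (t'.q (F'.U i'))) D →
        ∑ a, r (F'.p k' i' a) * D (H'.L k' i' a) =
          ∑ b : F.K × Fin F.m, r (coef x'.π (F'.U i') (c k' b.1) *
            pb a (m.hU i') (F.p b.1 (m.κ i') b.2)) *
            D (KSN.uu hf (m.hU i') (H.L b.1 (m.κ i') b.2)) +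
          ∑ j, r (z j) * D (coef t'.y.π (t'.op (F'.U i')) (S'.ε j)) := by
    intro k' i'
    have Hg := good_aff t' (F'.aff i')
    refine kex ((coef t'.y.π (t'.op (F'.U i'))).comp S'.i) (t'.q (F'.U i'))
      (fun j => coef t'.y.π (t'.op (F'.U i')) (S'.ε j)) Hg.sur ?_ Hg.ker
      (F'.p k' i') (H'.L k' i') _ _ ?_
    · intro j
      rw [t'.q_coef, S'.pe, map_zero]
    · intro R' _ r δ hδ
      have hc : (t'.q (F'.U i')).comp ((coef t'.y.π (t'.op (F'.U i'))).comp S'.i) =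
          coef x'.π (F'.U i') := by
        ext b
        change t'.q (F'.U i') (coef t'.y.π (t'.op (F'.U i')) (S'.i b)) = _
        rw [t'.q_coef, S'.pi]
      rw [hc] at hδ
      have h1 := m.form k' i' R' r δ hδ
      simp only [H'.hL]
      rw [h1, Fintype.sum_prod_type]
      refine Finset.sum_congr rfl fun k _ => ?_
      rw [Finset.mul_sum]
      refine Finset.sum_congr rfl fun b _ => ?_
      have h2 : t'.q (F'.U i') (KSN.uu hf (m.hU i') (H.L k (m.κ i') b)) =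
          pb a (m.hU i') (F.q k (m.κ i') b) := by
        rw [KSN.q_uu, H.hL]
        rfl
      rw [h2, map_mul]
      ring
  choose z hz using hz
  -- one side of an edge
  have hside : ∀ (k' : F'.K) (i' : F'.I) (e' : F'.E) (hi : F'.W e' ≤ F'.U i')
      (hi2 : F.W (m.lam e') ≤ F.U (m.κ i')),
      ∑ a, rs x'.X hi (F'.p k' i' a) *
        H'.δ j' e' (rs t'.y.X (t'.op_mono hi) (H'.L k' i' a)) =
      ∑ k, coef x'.π (F'.W e') (c k' k) * F.pair t k (m.κ i') hi2 (pb a (m.hW e'))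
        (fun v => H'.δ j' e' (KSN.uu hf (m.hW e') v)) (H.L k (m.κ i')) +
        rs x'.X hi (z k' i' j') := by
    intro k' i' e' hi hi2
    have hD : DerA ((coef t'.y.π (t'.op (F'.U i'))).comp S'.i)
        ((rs x'.X hi).comp (t'.q (F'.U i')))
        (fun v => H'.δ j' e' (rs t'.y.X (t'.op_mono hi) v)) := by
      have h1 := (H'.der j' e').compr (rs t'.y.X (t'.op_mono hi))
        (c' := (coef t'.y.π (t'.op (F'.U i'))).comp S'.i) (by
          ext b
          change rs t'.y.X (t'.op_mono hi) (coef t'.y.π (t'.op (F'.U i')) (S'.i b)) =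
            coef t'.y.π (t'.op (F'.W e')) (S'.i b)
          rw [coef_rs])
      have h2 : (t'.q (F'.W e')).comp (rs t'.y.X (t'.op_mono hi)) =
          (rs x'.X hi).comp (t'.q (F'.U i')) := by
        ext v
        exact t'.q_rs hi v
      rwa [h2] at h1
    have h1 := hz k' i' _ (rs x'.X hi) _ hD
    rw [h1]
    congr 1
    · rw [Fintype.sum_prod_type]
      refine Finset.sum_congr rfl fun k _ => ?_
      rw [FD.pair, Finset.mul_sum]
      refine Finset.sum_congr rfl fun b _ => ?_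
      rw [map_mul, coef_rs, ← pb_rs (m.hW e') (m.hU i') hi2 hi,
        ← KSN.uu_rs hf (m.hW e') (m.hU i') hi2 hi]
      ring
    · rw [Finset.sum_eq_single j']
      · rw [coef_rs, H'.e1, mul_one]
      · intro l _ hl
        rw [coef_rs, H'.e0 l j' e' hl, mul_zero]
      · intro hh
        exact absurd (Finset.mem_univ _) hh
  have hh : ∀ k' e', h' j' k' e' = (∑ k, coef x'.π (F'.W e') (c k' k) *
        ∑ j, coef x'.π (F'.W e') (mm j j') * pb a (m.hW e') (h j k (m.lam e'))) +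
      (rs x'.X (F'.ws e') (z k' (F'.s e') j') - rs x'.X (F'.wt e') (z k' (F'.t e') j')) := by
    intro k' e'
    have hs2 : F.W (m.lam e') ≤ F.U (m.κ (F'.s e')) := by
      rw [← m.hs]
      exact F.ws _
    have ht2 : F.W (m.lam e') ≤ F.U (m.κ (F'.t e')) := by
      rw [← m.ht]
      exact F.wt _
    rw [H'.val, hside k' _ e' (F'.ws e') hs2, hside k' _ e' (F'.wt e') ht2]
    have hk : ∀ k, F.pair t k (m.κ (F'.s e')) hs2 (pb a (m.hW e'))
        (fun v => H'.δ j' e' (KSN.uu hf (m.hW e') v)) (H.L k (m.κ (F'.s e'))) =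
        F.pair t k (m.κ (F'.t e')) ht2 (pb a (m.hW e'))
        (fun v => H'.δ j' e' (KSN.uu hf (m.hW e') v)) (H.L k (m.κ (F'.t e'))) +
        ∑ j, coef x'.π (F'.W e') (mm j j') * pb a (m.hW e') (h j k (m.lam e')) := by
      intro k
      have h1 := edge_val Φ hf F H (m.lam e') (F'.W e') (m.hW e') j' (H'.δ j' e') (H'.der j' e')
        (H'.e1 j' e') (fun i hi => H'.e0 i j' e' hi) k
      rw [F.pair_congr t k (m.hs e') (F.ws _) hs2 _ _ (H.L k),
        F.pair_congr t k (m.ht e') (F.wt _) ht2 _ _ (H.L k)] at h1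
      exact h1
    simp only [hk, mul_add, Finset.sum_add_distrib]
    ring
  refine Finset.sum_congr rfl fun k' _ => ?_
  simp only [hh, M'.add]
  rw [Finset.sum_add_distrib, M'.ker k' (fun i => z k' i j'), add_zero]

end

end Pool.Agent.MG.H2


end

section

/-!
# The covector of form data and functionals
-/

open CategoryTheory CategoryTheory.Limits AlgebraicGeometry TensorProduct

namespace Pool.Agent.MG.H2

section sq

variable (B : Type) [CommRing B]

/-- the identity of `B[ε]` -/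
noncomputable def sqId : SqHom (sqEps B) (sqEps B) (RingHom.id B) (fun _ _ => 1) where
  Φ := RingHom.id (Eps B)
  hi b := rfl
  he j := by simp

/-- `ε ↦ a ε` -/
noncomputable def sqScale (a : B) :
    SqHom (sqEps B) (sqEps B) (RingHom.id B) (fun _ _ => a) where
  Φ := epsScale a
  hi b := by
    ext <;> simp [sqEps]
  he j := by
    ext <;> simp [sqEps]

/-- `ε₁ ↦ a ε`, `ε₂ ↦ b ε` -/
noncomputable def sqPair (a b : B) :
    SqHom (sqEps2 B) (sqEps B) (RingHom.id B) (fun j _ => if j then a else b) where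
  Φ := epsPair a b
  hi b := by
    ext <;> simp [sqEps, sqEps2]
  he j := by
    cases j <;> ext <;> simp [sqEps, sqEps2]

/-- `φ[ε]` -/
noncomputable def sqMap {B : Type} [CommRing B] {B' : Type} [CommRing B'] (φ : B →+* B') :
    SqHom (sqEps B) (sqEps B') φ (fun _ _ => 1) where
  Φ := epsMap φ
  hi b := by
    ext <;> simp [sqEps, epsMap]
  he j := by
    ext <;> simp [sqEps, epsMap]

/-- The identity arrow. -/
noncomputable def idArr {B : Type} [CommRing B] {n : ℕ} (x : Fam n B) :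
    Arrow (RingHom.id B) x x where
  f := 𝟙 x.X
  cart := by
    have h : spMap (RingHom.id B) = 𝟙 (Sp B) := Spec.map_id _
    rw [h]
    exact IsPullback.of_horiz_isIso ⟨by simp⟩
  sec i := by
    have h : spMap (RingHom.id B) = 𝟙 (Sp B) := Spec.map_id _
    rw [h, Category.comp_id, Category.id_comp]

end sq

section

variable {n : ℕ} {B : Type} [CommRing B] {x : Fam n B}

theorem pb_id {U : x.X.Opens} (h : U ≤ (idArr x).f ⁻¹ᵁ U) (v : Γ(x.X, U)) :
    pb (idArr x) h v = v :=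
  COV.id_appLE U h v

open Classical in
/-- The identity of form data. -/
noncomputable def FMap.ident (F : FD x) :
    FMap (idArr x) F F (fun k' k => if k = k' then 1 else 0) where
  κ := fun i => i
  lam := fun e => e
  hs _ := rfl
  ht _ := rfl
  hU _ := le_refl _
  hW _ := le_refl _
  form k' i R' _ r δ _ := by
    rw [Finset.sum_eq_single k']
    · simp [pb_id]
    · intro k _ hk
      rw [if_neg hk]
      simp
    · intro hh
      exact absurd (Finset.mem_univ _) hh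

theorem FMu.sum {F : FD x} (M : FMu F) (k : F.K) (e : F.E) {ι : Type} (s : Finset ι)
    (f : ι → Γ(x.X, F.W e)) : M.μ k e (∑ i ∈ s, f i) = ∑ i ∈ s, M.μ k e (f i) := by
  classical
  have h0 : M.μ k e 0 = 0 := by
    have := M.add k e 0 0
    rw [add_zero] at this
    exact (left_eq_add.1 this)
  induction s using Finset.induction_on with
  | empty => simp [h0]
  | insert a s ha ih => rw [Finset.sum_insert ha, Finset.sum_insert ha, M.add, ih]

/-- Push forward of classes along morphisms of square zero extensions of the base. -/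
theorem FMu.push {E J : Type} [CommRing E] [Fintype J] {S : SqE B E J} {E' J' : Type}
    [CommRing E'] [Fintype J'] {S' : SqE B E' J'} {mm : J → J' → B}
    (Φ : SqHom S S' (RingHom.id B) mm) {F : FD x} (M : FMu F) {t : Thk S x} {t' : Thk S' x}
    (f : Arrow Φ.Φ t'.y t.y) (hf : t'.r.f ≫ f.f = t.r.f)
    {h : J → F.K → ∀ e, Γ(x.X, F.W e)} (H : Nonempty (FCl F t h))
    {h' : J' → F.K → ∀ e, Γ(x.X, F.W e)} (H' : Nonempty (FCl F t' h')) (j' : J') :
    ∑ k, ∑ e, M.μ k e (h' j' k e) = ∑ j, mm j j' * ∑ k, ∑ e, M.μ k e (h j k e) := by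
  classical
  have h1 := FMap.val Φ (FMap.ident F) (f := f) (a := idArr x)
    (by
      change t'.r.f ≫ f.f = 𝟙 x.X ≫ t.r.f
      rw [hf, Category.id_comp]) H H' M j'
  rw [h1]
  have h2 : ∀ (k' : F.K) (e' : F.E), M.μ k' e' (∑ k, coef x.π (F.W e') (if k = k' then 1 else 0) *
        ∑ j, coef x.π (F.W e') (mm j j') * pb (idArr x) ((FMap.ident F).hW e')
          (h j k ((FMap.ident F).lam e'))) = ∑ j, mm j j' * M.μ k' e' (h j k' e') := by
    intro k' e'
    rw [Finset.sum_eq_single k']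
    · rw [if_pos rfl, map_one, one_mul, M.sum]
      refine Finset.sum_congr rfl fun j _ => ?_
      have h3 : pb (idArr x) ((FMap.ident F).hW e') (h j k' ((FMap.ident F).lam e')) =
          h j k' e' := pb_id _ _
      rw [h3]
      exact M.smul k' e' _ _
    · intro k _ hk
      rw [if_neg hk]
      simp
    · intro hh
      exact absurd (Finset.mem_univ _) hh
  have h3 : ∑ k', ∑ e', M.μ k' e' (∑ k, coef x.π (F.W e') (if k = k' then 1 else 0) *
        ∑ j, coef x.π (F.W e') (mm j j') * pb (idArr x) ((FMap.ident F).hW e')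
          (h j k ((FMap.ident F).lam e'))) = ∑ k', ∑ e', ∑ j, mm j j' * M.μ k' e' (h j k' e') :=
    Finset.sum_congr rfl fun k' _ => Finset.sum_congr rfl fun e' _ => h2 k' e'
  refine h3.trans ?_
  simp only [Finset.mul_sum]
  have h4 : ∀ k' : F.K, ∑ e', ∑ j, mm j j' * M.μ k' e' (h j k' e') =
      ∑ j, ∑ e', mm j j' * M.μ k' e' (h j k' e') := fun k' => Finset.sum_comm
  simp only [h4]
  exact Finset.sum_comm

/-- Form data and functionals give a covector. -/
theorem exists_cov (F : FD x) (M : FMu F) (g : ℕ) : ∃ l : Cov g x, IsFC F M l := by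
  have hex : ∀ d : Defo g x, ∃ h : Unit → F.K → ∀ e, Γ(x.X, F.W e), Nonempty (FCl F d.thk h) :=
    fun d => exists_FCl F d.thk
  choose hh hd using hex
  refine ⟨{ l := fun d => ∑ k, ∑ e, M.μ k e (hh d () k e)
            iso := ?_
            scale := ?_
            add := ?_ }, ?_⟩
  · intro d d' f hf
    have h1 := M.push (sqId B) (t := d'.thk) (t' := d.thk) f hf (hd d') (hd d) ()
    rw [h1]
    simp
  · intro a d d' f hf
    have h1 := M.push (sqScale B a) (t := d.thk) (t' := d'.thk) f hf (hd d) (hd d') ()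
    rw [h1]
    simp
  · intro z hz r d₁ d₂ d f₁ f₂ f hf₁ hf₂ hf
    let t : Thk (sqEps2 B) x := ⟨z, hz.flat, r⟩
    obtain ⟨h, hk⟩ := exists_FCl F t
    have h1 := M.push (sqPair B 1 0) (t := t) (t' := d₁.thk) f₁ hf₁ hk (hd d₁) ()
    have h2 := M.push (sqPair B 0 1) (t := t) (t' := d₂.thk) f₂ hf₂ hk (hd d₂) ()
    have h3 := M.push (sqPair B 1 1) (t := t) (t' := d.thk) f hf hk (hd d) ()
    rw [h1, h2, h3]
    simp
  · intro d h hk
    have h1 := M.push (sqId B) (t := d.thk) (t' := d.thk) (idArr d.y)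
      (by change d.r.f ≫ 𝟙 _ = _; exact Category.comp_id _) hk (hd d) ()
    change ∑ k, ∑ e, M.μ k e (hh d () k e) = _
    rw [h1]
    simp

/-- The covector is determined by the form data and functionals. -/
theorem cov_unique {F : FD x} {M : FMu F} {g : ℕ} {l l' : Cov g x} (hl : IsFC F M l)
    (hl' : IsFC F M l') : l = l' := by
  refine COV.Cov_ext l l' fun d => ?_
  obtain ⟨h, hk⟩ := exists_FCl F d.thk
  rw [hl d (h ()) hk, hl' d (h ()) hk]

/-- Comparison of the covectors of two form data. -/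
theorem cov_compat {B' : Type} [CommRing B'] {φ : B →+* B'} {x' : Fam n B'} {a : Arrow φ x' x}
    {F' : FD x'} {F : FD x} {c : F'.K → F.K → B'} (m : FMap a F' F c) (M : FMu F) (M' : FMu F')
    (hc : ∀ h : F.K → ∀ e, Γ(x.X, F.W e),
      ∑ k', ∑ e', M'.μ k' e' (∑ k, coef x'.π (F'.W e') (c k' k) *
        pb a (m.hW e') (h k (m.lam e'))) = φ (∑ k, ∑ e, M.μ k e (h k e)))
    {g : ℕ} {l : Cov g x} {l' : Cov g x'} (hl : IsFC F M l) (hl' : IsFC F' M' l') :
    Compat a l' l := by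
  intro d' d f hf
  obtain ⟨h, hk⟩ := exists_FCl F d.thk
  obtain ⟨h', hk'⟩ := exists_FCl F' d'.thk
  rw [hl d (h ()) hk, hl' d' (h' ()) hk']
  have h1 := FMap.val (sqMap φ) m (t := d.thk) (t' := d'.thk) (f := f) hf hk hk' M' ()
  rw [h1, ← hc (h ())]
  simp

end

end Pool.Agent.MG.H2


end

section

/-!
# Form data from rings

Form data on a family from affine charts `ι i : Spec (R i) → X` and ring-level forms.
-/

open CategoryTheory CategoryTheory.Limits AlgebraicGeometry TensorProduct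

namespace Pool.Agent.MG.H2

section ev

variable {X : Scheme.{0}} {R : Type} [CommRing R] (ι : Sp R ⟶ X) [IsOpenImmersion ι]

theorem ev_le : (⊤ : (Sp R).Opens) ≤ ι ⁻¹ᵁ ι.opensRange := fun a _ => ⟨a, rfl⟩

/-- Functions on an affine chart. -/
noncomputable def evc : Γ(X, ι.opensRange) →+* R :=
  (Scheme.ΓSpecIso (CommRingCat.of R)).hom.hom.comp (ι.appLE ι.opensRange ⊤ (ev_le ι)).hom

theorem isIso_appLE (U : X.Opens) (hU : U = ι ''ᵁ ⊤) (h : ⊤ ≤ ι ⁻¹ᵁ U) :
    IsIso (ι.appLE U ⊤ h) := by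
  subst hU
  have : ι.appLE (ι ''ᵁ ⊤) ⊤ h = (ι.appIso ⊤).hom := (ι.appIso_hom' ⊤).symm
  rw [this]
  infer_instance

theorem ev_bij : Function.Bijective (evc ι) := by
  have h1 : IsIso (ι.appLE ι.opensRange ⊤ (ev_le ι)) :=
    isIso_appLE ι _ ι.image_top_eq_opensRange.symm _
  have h2 : Function.Bijective (ι.appLE ι.opensRange ⊤ (ev_le ι)).hom :=
    ConcreteCategory.bijective_of_isIso _
  have h3 : Function.Bijective (Scheme.ΓSpecIso (CommRingCat.of R)).hom.hom :=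
    ConcreteCategory.bijective_of_isIso _
  exact h3.comp h2

/-- Functions on an affine chart. -/
noncomputable def evE : Γ(X, ι.opensRange) ≃+* R := RingEquiv.ofBijective (evc ι) (ev_bij ι)

theorem ev_symm (a : R) : evc ι ((evE ι).symm a) = a := (evE ι).apply_symm_apply a

theorem symm_ev (a : Γ(X, ι.opensRange)) : (evE ι).symm (evc ι a) = a :=
  (evE ι).symm_apply_apply a

theorem ev_appLE {X' : Scheme.{0}} {R' : Type} [CommRing R'] (ι' : Sp R' ⟶ X')
    [IsOpenImmersion ι'] (f : X' ⟶ X) (g : R →+* R') (h : ι' ≫ f = spMap g ≫ ι)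
    (hU : ι'.opensRange ≤ f ⁻¹ᵁ ι.opensRange) (v : Γ(X, ι.opensRange)) :
    evc ι' ((f.appLE _ _ hU).hom v) = g (evc ι v) := by
  have h1 := Scheme.Hom.appLE_comp_appLE ι' f ι.opensRange ι'.opensRange ⊤ hU (ev_le ι')
  have h2 := Scheme.Hom.appLE_comp_appLE (spMap g) ι ι.opensRange ⊤ ⊤ (ev_le ι) le_top
  have h3 : f.appLE _ _ hU ≫ ι'.appLE ι'.opensRange ⊤ (ev_le ι') =
      ι.appLE ι.opensRange ⊤ (ev_le ι) ≫ (spMap g).appLE ⊤ ⊤ le_top := by
    rw [h1, h2]
    simp only [h]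
  have h4 := ConcreteCategory.congr_hom h3 v
  change (Scheme.ΓSpecIso (CommRingCat.of R')).hom.hom
    ((f.appLE _ _ hU ≫ ι'.appLE ι'.opensRange ⊤ (ev_le ι')) v) =
      g ((Scheme.ΓSpecIso (CommRingCat.of R)).hom.hom
        ((ι.appLE ι.opensRange ⊤ (ev_le ι)).hom v))
  rw [h4, ← gs_spMap]
  change (Scheme.ΓSpecIso (CommRingCat.of R')).hom.hom ((spMap g).appLE ⊤ ⊤ le_top
    ((ι.appLE ι.opensRange ⊤ (ev_le ι)) v)) = _
  congr 2

theorem range_le {X' : Scheme.{0}} {R' : Type} [CommRing R'] (ι' : Sp R' ⟶ X')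
    [IsOpenImmersion ι'] (f : X' ⟶ X) (g : R →+* R') (h : ι' ≫ f = spMap g ≫ ι) :
    ι'.opensRange ≤ f ⁻¹ᵁ ι.opensRange := by
  rintro _ ⟨a, rfl⟩
  refine ⟨spMap g a, ?_⟩
  rw [← Scheme.Hom.comp_apply, ← h, Scheme.Hom.comp_apply]

theorem ev_rs {R' : Type} [CommRing R'] (η : Sp R' ⟶ X) [IsOpenImmersion η] (g : R →+* R')
    (h : η = spMap g ≫ ι) (hU : η.opensRange ≤ ι.opensRange) (v : Γ(X, ι.opensRange)) :
    evc η (rs X hU v) = g (evc ι v) := by
  have h1 := ev_appLE ι η (𝟙 X) g (by rw [Category.comp_id, h]) hU v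
  have h2 : (𝟙 X : X ⟶ X).appLE ι.opensRange η.opensRange hU =
      X.presheaf.map (homOfLE hU).op := by
    simp [Scheme.Hom.appLE]
    exact Category.id_comp _
  rw [h2] at h1
  exact h1

theorem ev_coef {B : Type} [CommRing B] (π : X ⟶ Sp B) (c : B →+* R) (h : ι ≫ π = spMap c)
    (b : B) : evc ι (coef π ι.opensRange b) = c b := by
  change (Scheme.ΓSpecIso (CommRingCat.of R)).hom.hom
    ((ι.appLE ι.opensRange ⊤ (ev_le ι)).hom (coef π ι.opensRange b)) = _
  rw [coef_comp, h]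
  have h1 : coef (spMap c) ⊤ b = coef (𝟙 (Sp R) ≫ spMap c) ⊤ b := by rw [Category.id_comp]
  rw [h1, coef_spMap, coef_id, gl_inv]

end ev

/-- Ring-level form data. -/
structure RF (B : Type) [CommRing B] where
  /-- charts -/
  I : Type
  /-- edges -/
  E : Type
  /-- forms -/
  K : Type
  [fE : Fintype E]
  [fK : Fintype K]
  /-- source -/
  s : E → I
  /-- target -/
  t : E → I
  /-- rings of the charts -/
  R : I → Type
  /-- rings of the edges -/
  RE : E → Type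
  [cR : ∀ i, CommRing (R i)]
  [cE : ∀ e, CommRing (RE e)]
  /-- structure map -/
  c : ∀ i, B →+* R i
  /-- structure map -/
  cc : ∀ e, B →+* RE e
  /-- restriction -/
  js : ∀ e, R (s e) →+* RE e
  /-- restriction -/
  jt : ∀ e, R (t e) →+* RE e
  jsc : ∀ e, (js e).comp (c (s e)) = cc e
  jtc : ∀ e, (jt e).comp (c (t e)) = cc e
  sm : ∀ e, (cc e).FormallySmooth
  /-- number of terms -/
  m : ℕ
  /-- coefficients -/
  p : K → ∀ i, Fin m → R i
  /-- functions -/
  q : K → ∀ i, Fin m → R i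
  eq : ∀ (k : K) (e : E) (R' : Type) [CommRing R'] (r : RE e →+* R') (δ : RE e → R'),
    DerA (cc e) r δ →
    ∑ a, r (js e (p k (s e) a)) * δ (js e (q k (s e) a)) =
      ∑ a, r (jt e (p k (t e) a)) * δ (jt e (q k (t e) a))

attribute [instance] RF.fE RF.fK RF.cR RF.cE

/-- The charts of a family. -/
structure RF.Ch {n : ℕ} {B : Type} [CommRing B] (F : RF B) (x : Fam n B) where
  /-- charts -/
  ι : ∀ i, Sp (F.R i) ⟶ x.X
  /-- edges -/
  η : ∀ e, Sp (F.RE e) ⟶ x.X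
  oi : ∀ i, IsOpenImmersion (ι i)
  oe : ∀ e, IsOpenImmersion (η e)
  π : ∀ i, ι i ≫ x.π = spMap (F.c i)
  hs : ∀ e, η e = spMap (F.js e) ≫ ι (F.s e)
  ht : ∀ e, η e = spMap (F.jt e) ≫ ι (F.t e)

/-- Ring-level functionals. -/
structure RM {B : Type} [CommRing B] (F : RF B) where
  /-- the functionals -/
  μ : F.K → ∀ e, F.RE e → B
  add : ∀ k e a b, μ k e (a + b) = μ k e a + μ k e b
  smul : ∀ k e (b : B) a, μ k e (F.cc e b * a) = b * μ k e a
  ker : ∀ (k : F.K) (a : ∀ i, F.R i), ∑ e, μ k e (F.js e (a (F.s e)) - F.jt e (a (F.t e))) = 0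

section

variable {n : ℕ} {B : Type} [CommRing B] {F : RF B} {x : Fam n B}

instance (C : F.Ch x) (i : F.I) : IsOpenImmersion (C.ι i) := C.oi i
instance (C : F.Ch x) (e : F.E) : IsOpenImmersion (C.η e) := C.oe e

theorem RF.Ch.le_s (C : F.Ch x) (e : F.E) : (C.η e).opensRange ≤ (C.ι (F.s e)).opensRange := by
  have := range_le (C.ι (F.s e)) (C.η e) (𝟙 x.X) (F.js e) (by rw [Category.comp_id, C.hs])
  exact this

theorem RF.Ch.le_t (C : F.Ch x) (e : F.E) : (C.η e).opensRange ≤ (C.ι (F.t e)).opensRange := by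
  have := range_le (C.ι (F.t e)) (C.η e) (𝟙 x.X) (F.jt e) (by rw [Category.comp_id, C.ht])
  exact this

theorem RF.Ch.πe (C : F.Ch x) (e : F.E) : C.η e ≫ x.π = spMap (F.cc e) := by
  rw [C.hs, Category.assoc, C.π, ← F.jsc]
  exact (Spec.map_comp (CommRingCat.ofHom (F.c (F.s e))) (CommRingCat.ofHom (F.js e))).symm

theorem DerA.congr_equiv {B R R₁ R' : Type} [CommRing B] [CommRing R] [CommRing R₁] [CommRing R']
    {c : B →+* R} {c₁ : B →+* R₁} {r : R →+* R'} {δ : R → R'} (h : DerA c r δ) (g : R₁ →+* R)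
    (hc : ∀ b, g (c₁ b) = c b) : DerA c₁ (r.comp g) (fun v => δ (g v)) where
  add a b := by rw [map_add, h.add]
  mul a b := by rw [map_mul, h.mul]; rfl
  const b := by rw [hc, h.const]

/-- The form data of ring-level form data. -/
noncomputable abbrev RF.Ch.fd (C : F.Ch x) : FD x where
  I := F.I
  E := F.E
  K := F.K
  U i := (C.ι i).opensRange
  W e := (C.η e).opensRange
  s := F.s
  t := F.t
  ws := C.le_s
  wt := C.le_t
  aff i := isAffineOpen_opensRange _
  affW e := isAffineOpen_opensRange _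
  sm e := by
    have h1 : coef x.π (C.η e).opensRange =
        ((evE (C.η e)).symm : F.RE e →+* Γ(x.X, (C.η e).opensRange)).comp (F.cc e) := by
      ext b
      change _ = (evE (C.η e)).symm (F.cc e b)
      rw [← ev_coef (C.η e) x.π (F.cc e) (C.πe e) b, symm_ev]
    rw [h1]
    exact RingHom.FormallySmooth.comp (F.sm e)
      (RingHom.FormallySmooth.of_bijective (evE (C.η e)).symm.bijective)
  m := F.m
  p k i a := (evE (C.ι i)).symm (F.p k i a)
  q k i a := (evE (C.ι i)).symm (F.q k i a)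
  eq k e R' _ r δ hδ := by
    have h1 : ∀ v : F.R (F.s e), rs x.X (C.le_s e) ((evE (C.ι (F.s e))).symm v) =
        (evE (C.η e)).symm (F.js e v) := by
      intro v
      rw [RingEquiv.eq_symm_apply]
      change evc (C.η e) _ = _
      rw [ev_rs (C.ι (F.s e)) (C.η e) (F.js e) (C.hs e), ev_symm]
    have h2 : ∀ v : F.R (F.t e), rs x.X (C.le_t e) ((evE (C.ι (F.t e))).symm v) =
        (evE (C.η e)).symm (F.jt e v) := by
      intro v
      rw [RingEquiv.eq_symm_apply]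
      change evc (C.η e) _ = _
      rw [ev_rs (C.ι (F.t e)) (C.η e) (F.jt e) (C.ht e), ev_symm]
    simp only [h1, h2]
    have h3 := F.eq k e R' (r.comp ((evE (C.η e)).symm : F.RE e →+* _))
      (fun v => δ ((evE (C.η e)).symm v)) (hδ.congr_equiv _ (by
        intro b
        change (evE (C.η e)).symm (F.cc e b) = _
        rw [← ev_coef (C.η e) x.π (F.cc e) (C.πe e) b, symm_ev]))
    exact h3

/-- The functionals. -/
noncomputable def RM.fmu (M : RM F) (C : F.Ch x) : FMu C.fd where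
  μ k e v := M.μ k e (evc (C.η e) v)
  add k e a b := by rw [map_add, M.add]
  smul k e b a := by
    rw [map_mul]
    have : evc (C.η e) (coef x.π (C.η e).opensRange b) = F.cc e b :=
      ev_coef (C.η e) x.π (F.cc e) (C.πe e) b
    refine Eq.trans ?_ (M.smul k e b _)
    congr 2
  ker k a := by
    have h1 := M.ker k (fun i => evc (C.ι i) (a i))
    refine Eq.trans (Finset.sum_congr rfl fun e _ => ?_) h1
    rw [map_sub]
    congr 2
    · exact ev_rs (C.ι (F.s e)) (C.η e) (F.js e) (C.hs e) _ _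
    · exact ev_rs (C.ι (F.t e)) (C.η e) (F.jt e) (C.ht e) _ _

/-- The covector of ring-level data. -/
noncomputable def RM.cov (M : RM F) (C : F.Ch x) (g : ℕ) : Cov g x :=
  (exists_cov C.fd (M.fmu C) g).choose

theorem RM.cov_is (M : RM F) (C : F.Ch x) (g : ℕ) : IsFC C.fd (M.fmu C) (M.cov C g) :=
  (exists_cov C.fd (M.fmu C) g).choose_spec

end

/-- Comparison of ring-level form data. -/
structure RMap {B B' : Type} [CommRing B] [CommRing B'] (φ : B →+* B') (F' : RF B') (F : RF B)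
    (c : F'.K → F.K → B') where
  /-- charts -/
  κ : F'.I → F.I
  /-- edges -/
  lam : F'.E → F.E
  hs : ∀ e, F.s (lam e) = κ (F'.s e)
  ht : ∀ e, F.t (lam e) = κ (F'.t e)
  /-- on the charts -/
  g : ∀ i, F.R (κ i) →+* F'.R i
  /-- on the edges -/
  gE : ∀ e, F.RE (lam e) →+* F'.RE e
  form : ∀ (k' : F'.K) (i : F'.I) (R' : Type) [CommRing R'] (r : F'.R i →+* R')
    (δ : F'.R i → R'), DerA (F'.c i) r δ →
    ∑ j, r (F'.p k' i j) * δ (F'.q k' i j) =
      ∑ k, r (F'.c i (c k' k)) * ∑ j, r (g i (F.p k (κ i) j)) * δ (g i (F.q k (κ i) j))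

section

variable {n : ℕ} {B B' : Type} [CommRing B] [CommRing B'] {φ : B →+* B'} {F' : RF B'} {F : RF B}
  {c : F'.K → F.K → B'} {x : Fam n B} {x' : Fam n B'}

/-- Comparison of the form data. -/
noncomputable def RMap.fmap (m : RMap φ F' F c) (a : Arrow φ x' x) (C' : F'.Ch x') (C : F.Ch x)
    (hι : ∀ i, C'.ι i ≫ a.f = spMap (m.g i) ≫ C.ι (m.κ i))
    (hη : ∀ e, C'.η e ≫ a.f = spMap (m.gE e) ≫ C.η (m.lam e)) : FMap a C'.fd C.fd c where
  κ := m.κ
  lam := m.lam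
  hs := m.hs
  ht := m.ht
  hU i := range_le (C.ι (m.κ i)) (C'.ι i) a.f (m.g i) (hι i)
  hW e := range_le (C.η (m.lam e)) (C'.η e) a.f (m.gE e) (hη e)
  form k' i R' _ r δ hδ := by
    have h1 : ∀ v : F.R (m.κ i), pb a (range_le (C.ι (m.κ i)) (C'.ι i) a.f (m.g i) (hι i))
        ((evE (C.ι (m.κ i))).symm v) = (evE (C'.ι i)).symm (m.g i v) := by
      intro v
      rw [RingEquiv.eq_symm_apply]
      change evc (C'.ι i) _ = _
      have := ev_appLE (C.ι (m.κ i)) (C'.ι i) a.f (m.g i) (hι i)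
        (range_le (C.ι (m.κ i)) (C'.ι i) a.f (m.g i) (hι i)) ((evE (C.ι (m.κ i))).symm v)
      rw [ev_symm] at this
      exact this
    have h2 : ∀ b, coef x'.π (C'.ι i).opensRange b = (evE (C'.ι i)).symm (F'.c i b) := by
      intro b
      rw [← ev_coef (C'.ι i) x'.π (F'.c i) (C'.π i) b, symm_ev]
    have h3 := m.form k' i R' (r.comp ((evE (C'.ι i)).symm : F'.R i →+* _))
      (fun v => δ ((evE (C'.ι i)).symm v)) (hδ.congr_equiv _ (by
        intro b
        exact (h2 b).symm))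
    refine h3.trans (Finset.sum_congr rfl fun k _ => ?_)
    refine congrArg₂ _ ?_ (Finset.sum_congr rfl fun j _ => ?_)
    · exact congrArg r (h2 _).symm
    · refine congrArg₂ _ ?_ ?_
      · exact congrArg r (h1 _).symm
      · exact congrArg δ (h1 _).symm

/-- Comparison of covectors, ring level. -/
theorem RMap.compat (m : RMap φ F' F c) (a : Arrow φ x' x) (C' : F'.Ch x') (C : F.Ch x)
    (hι : ∀ i, C'.ι i ≫ a.f = spMap (m.g i) ≫ C.ι (m.κ i))
    (hη : ∀ e, C'.η e ≫ a.f = spMap (m.gE e) ≫ C.η (m.lam e)) (M' : RM F') (M : RM F)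
    (hc : ∀ h : F.K → ∀ e, F.RE e,
      ∑ k', ∑ e', M'.μ k' e' (∑ k, F'.cc e' (c k' k) * m.gE e' (h k (m.lam e'))) =
        φ (∑ k, ∑ e, M.μ k e (h k e))) (g : ℕ) : Compat a (M'.cov C' g) (M.cov C g) := by
  refine cov_compat (m.fmap a C' C hι hη) (M.fmu C) (M'.fmu C') ?_ (M.cov_is C g)
    (M'.cov_is C' g)
  intro h
  have h1 := hc (fun k e => evc (C.η e) (h k e))
  refine Eq.trans (Finset.sum_congr rfl fun k' _ => Finset.sum_congr rfl fun e' _ => ?_) h1
  change M'.μ k' e' (evc (C'.η e') (∑ k, _)) = _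
  refine congrArg _ ?_
  rw [map_sum]
  refine Finset.sum_congr rfl fun k _ => ?_
  rw [map_mul]
  refine congrArg₂ _ ?_ ?_
  · exact ev_coef (C'.η e') x'.π (F'.cc e') (C'.πe e') _
  · exact ev_appLE (C.η (m.lam e')) (C'.η e') a.f (m.gE e') (hη e') _ _

end

end Pool.Agent.MG.H2


end

section

/-!
# The forms `dx/y` and `- x dx/y` on the curves `y² = f(x)`
-/

open CategoryTheory CategoryTheory.Limits AlgebraicGeometry TensorProduct

namespace Pool.Agent.MG.H2

section alg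

variable {R : Type} [CommRing R]

/-- The derivative. -/
def dpol (f : Fin 7 → R) (x : R) : R :=
  f 1 + 2 * f 2 * x + 3 * f 3 * x ^ 2 + 4 * f 4 * x ^ 3 + 5 * f 5 * x ^ 4 + 6 * f 6 * x ^ 5

theorem dpol_map {R' : Type} [CommRing R'] (φ : R →+* R') (f : Fin 7 → R) (x : R) :
    φ (dpol f x) = dpol (fun i => φ (f i)) (φ x) := by
  simp [dpol, map_ofNat]

/-- `y ω = dx`, `f' ω = 2 dy` for `ω = A y dx + 2 C dy`. -/
theorem form_mul {f : Fin 7 → R} {x y dx dy A C : R} (h : y ^ 2 = pol f x)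
    (hd : 2 * y * dy = dpol f x * dx) (hb : A * pol f x + C * dpol f x = 1) :
    y * (A * y * dx + 2 * C * dy) = dx ∧ dpol f x * (A * y * dx + 2 * C * dy) = 2 * dy := by
  constructor
  · linear_combination (A * dx) * h + C * hd + dx * hb
  · linear_combination (-(A * y)) * hd + (2 * A * dy) * h + (2 * dy) * hb

/-- Uniqueness of the form. -/
theorem form_eq {f : Fin 7 → R} {x y dx dy A C ω : R} (h : y ^ 2 = pol f x)
    (hb : A * pol f x + C * dpol f x = 1) (h1 : y * ω = dx) (h2 : dpol f x * ω = 2 * dy) :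
    ω = A * y * dx + 2 * C * dy := by
  rw [← h1]
  linear_combination (-ω) * hb - (A * ω) * h + C * h2

/-- The derivative at `x = 1/u`. -/
theorem dpol_rev (f : Fin 7 → R) (x u : R) (h : x * u = 1) :
    dpol f x = 6 * x ^ 5 * pol (rev f) u - x ^ 4 * dpol (rev f) u := by
  have h2 : x ^ 2 * u ^ 2 = 1 := by rw [← mul_pow, h, one_pow]
  have h3 : x ^ 3 * u ^ 3 = 1 := by rw [← mul_pow, h, one_pow]
  have h4 : x ^ 4 * u ^ 4 = 1 := by rw [← mul_pow, h, one_pow]
  have h5 : x ^ 5 * u ^ 5 = 1 := by rw [← mul_pow, h, one_pow]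
  have e0 : rev f 0 = f 6 := rfl
  have e1 : rev f 1 = f 5 := rfl
  have e2 : rev f 2 = f 4 := rfl
  have e3 : rev f 3 = f 3 := rfl
  have e4 : rev f 4 = f 2 := rfl
  have e5 : rev f 5 = f 1 := rfl
  have e6 : rev f 6 = f 0 := rfl
  simp only [pol, dpol, e0, e1, e2, e3, e4, e5, e6]
  have p1 : x ^ 5 * u = x ^ 4 := by linear_combination x ^ 4 * h
  have p2 : x ^ 5 * u ^ 2 = x ^ 3 := by linear_combination x ^ 3 * h2
  have p3 : x ^ 5 * u ^ 3 = x ^ 2 := by linear_combination x ^ 2 * h3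
  have p4 : x ^ 5 * u ^ 4 = x := by linear_combination x * h4
  have p6 : x ^ 5 * u ^ 6 = u := by linear_combination u * h5
  have r1 : x ^ 4 * u = x ^ 3 := by linear_combination x ^ 3 * h
  have r2 : x ^ 4 * u ^ 2 = x ^ 2 := by linear_combination x ^ 2 * h2
  have r3 : x ^ 4 * u ^ 3 = x := by linear_combination x * h3
  have r5 : x ^ 4 * u ^ 5 = u := by linear_combination u * h4
  linear_combination (-6 * f 5) * p1 - (6 * f 4) * p2 - (6 * f 3) * p3 - (6 * f 2) * p4 -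
    (6 * f 1) * h5 - (6 * f 0) * p6 + (2 * f 4) * r1 + (3 * f 3) * r2 + (4 * f 2) * r3 +
    (5 * f 1) * h4 + (6 * f 0) * r5

/-- `dx/y = - u du/v`. -/
theorem form_rev {f : Fin 7 → R} {x y u v du dv dx dy A C A' C' : R} (hxu : x * u = 1)
    (hy : y = v * x ^ 3) (hv : v ^ 2 = pol (rev f) u) (hdv : 2 * v * dv = dpol (rev f) u * du)
    (hdx : dx = - x ^ 2 * du) (hdy : dy = x ^ 3 * dv + 3 * x ^ 2 * v * dx)
    (hb : A * pol f x + C * dpol f x = 1) (hb' : A' * pol (rev f) u + C' * dpol (rev f) u = 1)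
    (h : y ^ 2 = pol f x) :
    A * y * dx + 2 * C * dy = - u * (A' * v * du + 2 * C' * dv) := by
  obtain ⟨k1, k2⟩ := form_mul hv hdv hb'
  refine (form_eq h hb ?_ ?_).symm
  · rw [hy, hdx]
    have : v * x ^ 3 * (-u * (A' * v * du + 2 * C' * dv)) =
        - (x * u) * x ^ 2 * (v * (A' * v * du + 2 * C' * dv)) := by ring
    rw [this, k1, hxu]
    ring
  · rw [dpol_rev f x u hxu, hdy, hdx, ← hv]
    have : (6 * x ^ 5 * v ^ 2 - x ^ 4 * dpol (rev f) u) * (-u * (A' * v * du + 2 * C' * dv)) =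
        - 6 * (x * u) * x ^ 4 * v * (v * (A' * v * du + 2 * C' * dv)) +
        (x * u) * x ^ 3 * (dpol (rev f) u * (A' * v * du + 2 * C' * dv)) := by ring
    rw [this, k1, k2, hxu]
    ring

end alg

namespace DerA

variable {B R R' : Type} [CommRing B] [CommRing R] [CommRing R'] {c : B →+* R}
  {r : R →+* R'} {δ : R → R'}

theorem cmul (h : DerA c r δ) (b : B) (v : R) : δ (c b * v) = r (c b) * δ v := by
  rw [h.mul, h.const, mul_zero, add_zero]

theorem pow (h : DerA c r δ) (v : R) (n : ℕ) : δ (v ^ (n + 1)) = (n + 1) * r v ^ n * δ v := by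
  induction n with
  | zero => simp
  | succ n ih =>
    rw [pow_succ, h.mul, ih, map_pow]
    push_cast
    ring

theorem sq (h : DerA c r δ) (v : R) : δ (v ^ 2) = 2 * r v * δ v := by
  have := h.pow v 1
  norm_num at this
  exact this

theorem pol (h : DerA c r δ) (f : Fin 7 → B) (x : R) :
    δ (pol (fun i => c (f i)) x) = dpol (fun i => r (c (f i))) (r x) * δ x := by
  have h2 := h.pow x 1
  have h3 := h.pow x 2
  have h4 := h.pow x 3
  have h5 := h.pow x 4
  have h6 := h.pow x 5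
  norm_num at h2 h3 h4 h5 h6
  simp only [H2.pol, h.add, h.cmul, h.const, h2, h3, h4, h5, h6, dpol]
  ring

end DerA

end Pool.Agent.MG.H2


end

section

/-!
# Values of covectors on thickenings which are given by rings
-/

open CategoryTheory CategoryTheory.Limits AlgebraicGeometry TensorProduct

namespace Pool.Agent.MG.H2

section

variable {n : ℕ} {B : Type} [CommRing B] {F : RF B} {x : Fam n B}

/-- Rings of a thickening. -/
structure RF.Tc {E J : Type} [CommRing E] [Fintype J] {S : SqE B E J} (C : F.Ch x)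
    (t : Thk S x) where
  /-- charts -/
  R : F.I → Type
  /-- edges -/
  RE : F.E → Type
  [cR : ∀ i, CommRing (R i)]
  [cE : ∀ e, CommRing (RE e)]
  /-- charts -/
  ι : ∀ i, Sp (R i) ⟶ t.y.X
  /-- edges -/
  η : ∀ e, Sp (RE e) ⟶ t.y.X
  oi : ∀ i, IsOpenImmersion (ι i)
  oe : ∀ e, IsOpenImmersion (η e)
  /-- structure maps -/
  c : ∀ e, E →+* RE e
  /-- reduction -/
  q : ∀ i, R i →+* F.R i
  /-- reduction -/
  qE : ∀ e, RE e →+* F.RE e
  /-- restriction -/
  js : ∀ e, R (F.s e) →+* RE e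
  /-- restriction -/
  jt : ∀ e, R (F.t e) →+* RE e
  hι : ∀ i, C.ι i ≫ t.r.f = spMap (q i) ≫ ι i
  hη : ∀ e, C.η e ≫ t.r.f = spMap (qE e) ≫ η e
  hπ : ∀ e, η e ≫ t.y.π = spMap (c e)
  hs : ∀ e, η e = spMap (js e) ≫ ι (F.s e)
  ht : ∀ e, η e = spMap (jt e) ≫ ι (F.t e)

attribute [instance] RF.Tc.cR RF.Tc.cE

section

variable {E J : Type} [CommRing E] [Fintype J] {S : SqE B E J} {C : F.Ch x} {t : Thk S x}
  (T : RF.Tc C t)

instance (i : F.I) : IsOpenImmersion (T.ι i) := T.oi i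
instance (e : F.E) : IsOpenImmersion (T.η e) := T.oe e

theorem op_le {R R' : Type} [CommRing R] [CommRing R'] (ι : Sp R ⟶ x.X) [IsOpenImmersion ι]
    (ι' : Sp R' ⟶ t.y.X) [IsOpenImmersion ι'] (q : R' →+* R) (h : ι ≫ t.r.f = spMap q ≫ ι') :
    t.op ι.opensRange ≤ ι'.opensRange := by
  intro a ha
  obtain ⟨b, rfl⟩ := t.r.f.surjective a
  have hb : b ∈ t.r.f ⁻¹ᵁ (t.op ι.opensRange) := ha
  rw [t.pre] at hb
  obtain ⟨c, rfl⟩ := hb
  refine ⟨spMap q c, ?_⟩
  rw [← Scheme.Hom.comp_apply, ← h, Scheme.Hom.comp_apply]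

/-- Functions on the thickening of a chart. -/
noncomputable def sg {R R' : Type} [CommRing R] [CommRing R'] (t : Thk S x) (ι : Sp R ⟶ x.X)
    [IsOpenImmersion ι] (ι' : Sp R' ⟶ t.y.X) [IsOpenImmersion ι'] (q : R' →+* R)
    (h : ι ≫ t.r.f = spMap q ≫ ι') : R' →+* Γ(t.y.X, t.op ι.opensRange) :=
  (rs t.y.X (op_le ι ι' q h)).comp ((evE ι').symm : R' →+* Γ(t.y.X, ι'.opensRange))

/-- Reduction. -/
theorem sg_q {R R' : Type} [CommRing R] [CommRing R'] (ι : Sp R ⟶ x.X) [IsOpenImmersion ι]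
    (ι' : Sp R' ⟶ t.y.X) [IsOpenImmersion ι'] (q : R' →+* R)
    (h : ι ≫ t.r.f = spMap q ≫ ι') (v : R') :
    evc ι (t.q ι.opensRange (sg t ι ι' q h v)) = q v := by
  have h0 := range_le ι' ι t.r.f q h
  have h1 := ev_appLE ι' ι t.r.f q h h0 ((evE ι').symm v)
  rw [ev_symm] at h1
  rw [← h1]
  congr 1
  change (t.y.X.presheaf.map (homOfLE (op_le ι ι' q h)).op ≫
    t.r.f.appLE (t.op ι.opensRange) ι.opensRange (t.pre ι.opensRange).ge) ((evE ι').symm v) = _
  rw [Scheme.Hom.map_appLE]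

/-- Restriction. -/
theorem sg_rs {R R' P P' : Type} [CommRing R] [CommRing R'] [CommRing P] [CommRing P']
    (ι : Sp R ⟶ x.X) [IsOpenImmersion ι]
    (ι' : Sp R' ⟶ t.y.X) [IsOpenImmersion ι'] (q : R' →+* R)
    (h : ι ≫ t.r.f = spMap q ≫ ι') (η : Sp P ⟶ x.X) [IsOpenImmersion η] (η' : Sp P' ⟶ t.y.X)
    [IsOpenImmersion η'] (q' : P' →+* P) (h' : η ≫ t.r.f = spMap q' ≫ η') (j : R' →+* P')
    (hj : η' = spMap j ≫ ι') (hU : t.op η.opensRange ≤ t.op ι.opensRange) (v : R') :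
    rs t.y.X hU (sg t ι ι' q h v) = sg t η η' q' h' (j v) := by
  have h0 : η'.opensRange ≤ ι'.opensRange :=
    range_le ι' η' (𝟙 _) j (by rw [Category.comp_id, hj])
  have h1 := ev_rs ι' η' j hj h0 ((evE ι').symm v)
  rw [ev_symm] at h1
  have h2 : (evE η').symm (j v) = rs t.y.X h0 ((evE ι').symm v) := by
    rw [← h1, symm_ev]
  change rs t.y.X hU (rs t.y.X (op_le ι ι' q h) ((evE ι').symm v)) =
    rs t.y.X (op_le η η' q' h') ((evE η').symm (j v))
  rw [h2, AFF.rs_rs, AFF.rs_rs]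

theorem sg_c {R R' : Type} [CommRing R] [CommRing R'] (ι : Sp R ⟶ x.X) [IsOpenImmersion ι]
    (ι' : Sp R' ⟶ t.y.X) [IsOpenImmersion ι'] (q : R' →+* R)
    (h : ι ≫ t.r.f = spMap q ≫ ι') (c : E →+* R') (hc : ι' ≫ t.y.π = spMap c) (b : E) :
    sg t ι ι' q h (c b) = coef t.y.π (t.op ι.opensRange) b := by
  have h1 := ev_coef ι' t.y.π c hc b
  have h2 : (evE ι').symm (c b) = coef t.y.π ι'.opensRange b := by
    rw [← h1, symm_ev]
  change rs t.y.X (op_le ι ι' q h) ((evE ι').symm (c b)) = _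
  rw [h2, coef_rs]

/-- Classes with given lifts. -/
theorem exists_lifts (F : FD x) (t : Thk S x) (L : F.K → ∀ i, Fin F.m → Γ(t.y.X, t.op (F.U i)))
    (hL : ∀ k i c, t.q (F.U i) (L k i c) = F.q k i c) :
    ∃ δ : J → ∀ e, Γ(t.y.X, t.op (F.W e)) → Γ(x.X, F.W e),
      (∀ j e, DerA ((coef t.y.π (t.op (F.W e))).comp S.i) (t.q (F.W e)) (δ j e)) ∧
      (∀ j e, δ j e (coef t.y.π (t.op (F.W e)) (S.ε j)) = 1) ∧
      Nonempty (FCl F t (fun j k e =>
        ∑ c, rs x.X (F.ws e) (F.p k (F.s e) c) *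
          δ j e (rs t.y.X (t.op_mono (F.ws e)) (L k (F.s e) c)) -
        ∑ c, rs x.X (F.wt e) (F.p k (F.t e) c) *
          δ j e (rs t.y.X (t.op_mono (F.wt e)) (L k (F.t e) c)))) := by
  obtain ⟨h, ⟨H⟩⟩ := exists_FCl F t
  refine ⟨H.δ, H.der, H.e1, ⟨?_⟩⟩
  exact
    { L := L
      hL := hL
      δ := H.δ
      der := H.der
      e1 := H.e1
      e0 := H.e0
      val := fun _ _ _ => rfl }

end

/-- The value of a covector on a deformation given by rings. -/
theorem RM.cov_val (M : RM F) (C : F.Ch x) {g : ℕ} (d : Defo g x) (T : RF.Tc C d.thk)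
    (L : F.K → ∀ i, Fin F.m → T.R i) (hL : ∀ k i c, T.q i (L k i c) = F.q k i c) :
    ∃ D : ∀ e, T.RE e → F.RE e,
      (∀ e, DerA ((T.c e).comp (sqEps B).i) (T.qE e) (D e)) ∧
      (∀ e, D e (T.c e ((sqEps B).ε ())) = 1) ∧
      (M.cov C g).l d = ∑ k, ∑ e, M.μ k e
        (∑ c, F.js e (F.p k (F.s e) c) * D e (T.js e (L k (F.s e) c)) -
          ∑ c, F.jt e (F.p k (F.t e) c) * D e (T.jt e (L k (F.t e) c))) := by
  obtain ⟨δ, h1, h2, h3⟩ := exists_lifts C.fd d.thk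
    (fun k i c => sg d.thk (C.ι i) (T.ι i) (T.q i) (T.hι i) (L k i c)) (by
      intro k i c
      change d.thk.q (C.ι i).opensRange _ = (evE (C.ι i)).symm (F.q k i c)
      rw [RingEquiv.eq_symm_apply]
      change evc (C.ι i) _ = _
      rw [sg_q, hL])
  refine ⟨fun e v => evc (C.η e) (δ () e (sg d.thk (C.η e) (T.η e) (T.qE e) (T.hη e) v)), ?_, ?_, ?_⟩
  · intro e
    refine ⟨?_, ?_, ?_⟩
    · intro a b
      change evc (C.η e) (δ () e (sg d.thk (C.η e) (T.η e) (T.qE e) (T.hη e) (a + b))) = _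
      rw [map_add, (h1 () e).add, map_add]
    · intro a b
      change evc (C.η e) (δ () e (sg d.thk (C.η e) (T.η e) (T.qE e) (T.hη e) (a * b))) = _
      rw [map_mul, (h1 () e).mul, map_add, map_mul, map_mul]
      rw [← sg_q (t := d.thk) (C.η e) (T.η e) (T.qE e) (T.hη e) a,
        ← sg_q (t := d.thk) (C.η e) (T.η e) (T.qE e) (T.hη e) b]
    · intro b
      change evc (C.η e) (δ () e (sg d.thk (C.η e) (T.η e) (T.qE e) (T.hη e)
        (T.c e ((sqEps B).i b)))) = 0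
      rw [sg_c (C.η e) (T.η e) (T.qE e) (T.hη e) (T.c e) (T.hπ e)]
      exact (congrArg (evc (C.η e)) ((h1 () e).const b)).trans (map_zero _)
  · intro e
    change evc (C.η e) (δ () e (sg d.thk (C.η e) (T.η e) (T.qE e) (T.hη e)
      (T.c e ((sqEps B).ε ())))) = 1
    rw [sg_c (C.η e) (T.η e) (T.qE e) (T.hη e) (T.c e) (T.hπ e)]
    exact (congrArg (evc (C.η e)) (h2 () e)).trans (map_one _)
  · refine (M.cov_is C g d (fun k e =>
        ∑ c, rs x.X (C.fd.ws e) (C.fd.p k (C.fd.s e) c) *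
          δ () e (rs d.thk.y.X (d.thk.op_mono (C.fd.ws e))
            (sg d.thk (C.ι (C.fd.s e)) (T.ι (C.fd.s e)) (T.q (C.fd.s e)) (T.hι (C.fd.s e))
              (L k (C.fd.s e) c))) -
        ∑ c, rs x.X (C.fd.wt e) (C.fd.p k (C.fd.t e) c) *
          δ () e (rs d.thk.y.X (d.thk.op_mono (C.fd.wt e))
            (sg d.thk (C.ι (C.fd.t e)) (T.ι (C.fd.t e)) (T.q (C.fd.t e)) (T.hι (C.fd.t e))
              (L k (C.fd.t e) c)))) h3).trans ?_
    refine Finset.sum_congr rfl fun k _ => Finset.sum_congr rfl fun e _ => ?_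
    change M.μ k e (evc (C.η e) _) = _
    refine congrArg (M.μ k e) ?_
    rw [map_sub, map_sum, map_sum]
    refine congrArg₂ _ (Finset.sum_congr rfl fun c _ => ?_) (Finset.sum_congr rfl fun c _ => ?_)
    · rw [map_mul]
      refine congrArg₂ _ ?_ ?_
      · have := ev_rs (C.ι (F.s e)) (C.η e) (F.js e) (C.hs e) (C.le_s e)
          ((evE (C.ι (F.s e))).symm (F.p k (F.s e) c))
        rw [ev_symm] at this
        exact this
      · refine congrArg (fun v => evc (C.η e) (δ () e v)) ?_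
        exact sg_rs _ _ _ _ _ _ _ _ (T.js e) (T.hs e) _ _
    · rw [map_mul]
      refine congrArg₂ _ ?_ ?_
      · have := ev_rs (C.ι (F.t e)) (C.η e) (F.jt e) (C.ht e) (C.le_t e)
          ((evE (C.ι (F.t e))).symm (F.p k (F.t e) c))
        rw [ev_symm] at this
        exact this
      · refine congrArg (fun v => evc (C.η e) (δ () e v)) ?_
        exact sg_rs _ _ _ _ _ _ _ _ (T.jt e) (T.ht e) _ _

end

end Pool.Agent.MG.H2


end
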