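import Mathlib
import Pool.Agent.KDM.C02
import Pool.Agent.KDM.C15
import Pool.Agent.KDM.C16
import Pool.Agent.KDM.C22
import Pool.Agent.KDM.C39
import Pool.Agent.KDM.C44

/-! Parts: MG.W.WRG, MG.W.W0A, MG.W.W0B, MG.W.W0C, MG.H2.HTran, MG.G0.NQY, MG.G0.REM -/

section

/-!
# The rings of the charts of a Weierstrass curve (module MW_WRG)
-/

open CategoryTheory CategoryTheory.Limits AlgebraicGeometry TensorProduct

namespace Pool.Agent.MG.W

namespace WRG

section

variable {B : Type} [CommRing B] {a b : B}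

/-! ### `z` is a non zero divisor -/

/-- Restriction of a polynomial to `z = 0`. -/
noncomputable def ev0 : MvPolynomial (Fin 2) B →ₐ[B] Polynomial B :=
  MvPolynomial.aeval ![0, Polynomial.X]

theorem ev0_X0 : ev0 (MvPolynomial.X 0 : MvPolynomial (Fin 2) B) = 0 := by
  simp [ev0]

theorem ev0_X1 : ev0 (MvPolynomial.X 1 : MvPolynomial (Fin 2) B) = Polynomial.X := by
  simp [ev0]

theorem dvd_of_ev0 (w : MvPolynomial (Fin 2) B) (h : ev0 w = 0) : MvPolynomial.X 0 ∣ w := by
  let inc : Polynomial B →ₐ[B] MvPolynomial (Fin 2) B := Polynomial.aeval (MvPolynomial.X 1)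
  let q : MvPolynomial (Fin 2) B →ₐ[B]
      MvPolynomial (Fin 2) B ⧸ Ideal.span {(MvPolynomial.X 0 : MvPolynomial (Fin 2) B)} :=
    Ideal.Quotient.mkₐ B _
  have h1 : q = (q.comp inc).comp ev0 := by
    refine MvPolynomial.algHom_ext fun i => ?_
    fin_cases i
    · show q (MvPolynomial.X 0) = q (inc (ev0 (MvPolynomial.X 0)))
      rw [ev0_X0, map_zero, map_zero]
      exact Ideal.Quotient.eq_zero_iff_mem.2 (Ideal.mem_span_singleton_self _)
    · show q (MvPolynomial.X 1) = q (inc (ev0 (MvPolynomial.X 1)))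
      rw [ev0_X1]
      show _ = q (Polynomial.aeval (MvPolynomial.X 1) Polynomial.X)
      rw [Polynomial.aeval_X]
  have h2 : q w = 0 := by
    rw [h1]
    show q (inc (ev0 w)) = 0
    rw [h, map_zero, map_zero]
  exact Ideal.mem_span_singleton.1 (Ideal.Quotient.eq_zero_iff_mem.1 h2)

theorem ev0_eq2 : ev0 (eq2 B a b) = Polynomial.X - Polynomial.C 1 := by
  unfold eq2
  simp only [map_sub, map_mul, map_pow, map_one, ev0_X0, ev0_X1]
  ring

theorem z_reg (v : A2 B a b) (h : z2 B a b * v = 0) : v = 0 := by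
  obtain ⟨v, rfl⟩ := Ideal.Quotient.mk_surjective v
  have h1 : Ideal.Quotient.mk (Ideal.span {eq2 B a b}) (MvPolynomial.X 0 * v) = 0 := by
    rw [map_mul]
    exact h
  obtain ⟨w, hw⟩ := Ideal.mem_span_singleton.1 (Ideal.Quotient.eq_zero_iff_mem.1 h1)
  have h2 : ev0 (eq2 B a b) * ev0 w = 0 := by
    rw [← map_mul, ← hw, map_mul, ev0_X0, zero_mul]
  rw [ev0_eq2] at h2
  have h3 : ev0 w = 0 := by
    have hm := (Polynomial.monic_X_sub_C (1 : B)).isRegular
    exact hm.left (h2.trans (mul_zero _).symm)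
  obtain ⟨w', rfl⟩ := dvd_of_ev0 w h3
  have h4 : v = eq2 B a b * w' := by
    rw [← MvPolynomial.X_mul_cancel_left_iff (i := (0 : Fin 2)), hw]
    ring
  exact Ideal.Quotient.eq_zero_iff_mem.2 (Ideal.mem_span_singleton.2 ⟨w', h4⟩)

theorem g2_inj : Function.Injective (g2 B a b) := by
  refine IsLocalization.injective (A12 B a b) (M := Submonoid.powers (z2 B a b)) ?_
  rw [Submonoid.powers_le, mem_nonZeroDivisors_iff_right]
  intro v hv
  exact z_reg v (by rw [mul_comm]; exact hv)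

/-! ### The point at infinity -/

theorem inf2_z : inf2 B a b (z2 B a b) = 0 :=
  lift2_z (a := a) (b := b) (RingHom.id B) 0 1 (by simp)
theorem inf2_t : inf2 B a b (t2 B a b) = 1 :=
  lift2_t (a := a) (b := b) (RingHom.id B) 0 1 (by simp)
theorem inf2_b (c : B) : inf2 B a b (algebraMap B _ c) = c :=
  lift2_b (a := a) (b := b) (RingHom.id B) 0 1 (by simp) c

theorem sub_mem (v : A2 B a b) : v - algebraMap B _ (inf2 B a b v) ∈ Ideal.span {z2 B a b} := by
  let q : A2 B a b →+* A2 B a b ⧸ Ideal.span {z2 B a b} := Ideal.Quotient.mk _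
  have hz : q (z2 B a b) = 0 :=
    Ideal.Quotient.eq_zero_iff_mem.2 (Ideal.mem_span_singleton_self _)
  have h1 : q = (q.comp (algebraMap B (A2 B a b))).comp (inf2 B a b) := by
    refine hom2_ext (R := A2 B a b ⧸ Ideal.span {z2 B a b}) ?_ ?_ ?_
    · intro c
      show q (algebraMap B _ c) = q (algebraMap B _ (inf2 B a b (algebraMap B _ c)))
      rw [inf2_b]
    · show q (z2 B a b) = q (algebraMap B _ (inf2 B a b (z2 B a b)))
      rw [inf2_z, map_zero, map_zero, hz]
    · show q (t2 B a b) = q (algebraMap B _ (inf2 B a b (t2 B a b)))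
      rw [inf2_t, map_one, map_one, rel2]
      simp only [map_add, map_mul, map_pow, map_one, hz]
      ring
  have h2 : q v = q (algebraMap B _ (inf2 B a b v)) := by
    conv_lhs => rw [h1]
    rfl
  exact Ideal.Quotient.eq.1 h2

theorem exists_z (v : A2 B a b) : ∃ w, v = algebraMap B _ (inf2 B a b v) + z2 B a b * w := by
  obtain ⟨w, hw⟩ := Ideal.mem_span_singleton.1 (sub_mem v)
  exact ⟨w, by rw [← hw]; ring⟩

/-! ### The inverse of `t` -/

variable (B a b) in
/-- the inverse of `t` -/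
noncomputable def ti : A2 B a b := 1 - algebraMap B _ a * z2 B a b ^ 4 * t2 B a b -
    algebraMap B _ b * z2 B a b ^ 6 * t2 B a b ^ 2

theorem t_ti : t2 B a b * ti B a b = 1 := by
  have := rel2 B a b
  unfold ti
  linear_combination this

theorem inf2_ti : inf2 B a b (ti B a b) = 1 := by
  have h := congrArg (inf2 B a b) (t_ti (B := B) (a := a) (b := b))
  rw [map_mul, inf2_t, map_one, one_mul] at h
  exact h

variable (B a b) in
/-- `z` in the ring of the intersection -/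
noncomputable def Z : A12 B a b := (zu B a b).val

theorem Z_eq : Z B a b = g2 B a b (z2 B a b) := rfl

theorem Z_zi : Z B a b * ((zu B a b)⁻¹).val = 1 := Units.mul_inv _

theorem tu_inv : ((tu B a b)⁻¹).val = g2 B a b (ti B a b) := by
  have h1 : g2 B a b (ti B a b) * (tu B a b).val = 1 := by
    rw [tu_val, ← map_mul, mul_comm, t_ti, map_one]
  exact (Units.eq_inv_of_mul_eq_one_right h1).symm

theorem Z_x : Z B a b ^ 2 * g1 B a b (x1 B a b) = g2 B a b (ti B a b) := by
  rw [g1_x, ← tu_inv, Units.val_mul, Units.val_pow_eq_pow_val, ← mul_assoc, ← mul_pow, Z_zi,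
    one_pow, one_mul]

theorem Z_y : Z B a b ^ 3 * g1 B a b (y1 B a b) = g2 B a b (ti B a b) := by
  rw [g1_y, ← tu_inv, Units.val_mul, Units.val_pow_eq_pow_val, ← mul_assoc, ← mul_pow, Z_zi,
    one_pow, one_mul]

theorem Z_xi (i : ℕ) : Z B a b ^ (2 * i) * g1 B a b (x1 B a b ^ i) = g2 B a b (ti B a b ^ i) := by
  rw [map_pow, pow_mul, ← mul_pow, Z_x, map_pow]

theorem Z_xiy (i : ℕ) : Z B a b ^ (2 * i + 3) * g1 B a b (x1 B a b ^ i * y1 B a b) =
    g2 B a b (ti B a b ^ (i + 1)) := by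
  rw [map_mul, pow_add, mul_mul_mul_comm, Z_xi, Z_y, ← map_mul, pow_succ]

/-! ### Pole orders -/

variable (B a b) in
/-- functions with a pole of order at most `N` at infinity -/
noncomputable def F (N : ℕ) : Submodule B (A1 B a b) where
  carrier := {v | ∃ w : A2 B a b, Z B a b ^ N * g1 B a b v = g2 B a b w}
  zero_mem' := ⟨0, by rw [map_zero, map_zero, mul_zero]⟩
  add_mem' := by
    rintro v v' ⟨w, hw⟩ ⟨w', hw'⟩
    exact ⟨w + w', by rw [map_add, map_add, mul_add, hw, hw']⟩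
  smul_mem' := by
    rintro c v ⟨w, hw⟩
    refine ⟨algebraMap B _ c * w, ?_⟩
    refine (congrArg (fun u => Z B a b ^ N * g1 B a b u) (Algebra.smul_def c v)).trans ?_
    show Z B a b ^ N * g1 B a b (algebraMap B _ c * v) = g2 B a b (algebraMap B _ c * w)
    rw [map_mul, map_mul, g1_b, g2_b, ← hw]
    ring

theorem mem_F {N : ℕ} {v : A1 B a b} :
    v ∈ F B a b N ↔ ∃ w : A2 B a b, Z B a b ^ N * g1 B a b v = g2 B a b w := Iff.rfl

theorem F_mono {N M : ℕ} (h : N ≤ M) {v : A1 B a b} (hv : v ∈ F B a b N) : v ∈ F B a b M := by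
  obtain ⟨w, hw⟩ := mem_F.1 hv
  obtain ⟨k, rfl⟩ := Nat.exists_eq_add_of_le h
  refine mem_F.2 ⟨z2 B a b ^ k * w, ?_⟩
  rw [pow_add, map_mul, map_pow, ← Z_eq, ← hw]
  ring

theorem smul_eq (c : B) (v : A1 B a b) : c • v = algebraMap B _ c * v := Algebra.smul_def c v

/-- `p(x) + q(x) y` -/
noncomputable def vl (p q : Polynomial B) : A1 B a b :=
  Polynomial.aeval (x1 B a b) p + Polynomial.aeval (x1 B a b) q * y1 B a b

/-- All monomials of `p(x) + q(x) y` have pole order at most `M`. -/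
def Pm (M : ℕ) (p q : Polynomial B) : Prop :=
  (∀ i, M < 2 * i → p.coeff i = 0) ∧ ∀ i, M < 2 * i + 3 → q.coeff i = 0

theorem vl_mem {M : ℕ} {p q : Polynomial B} (h : Pm M p q) : (vl p q : A1 B a b) ∈ F B a b M := by
  refine Submodule.add_mem _ ?_ ?_
  · rw [Polynomial.aeval_def, Polynomial.eval₂_eq_sum, Polynomial.sum_def]
    refine Submodule.sum_mem _ fun i hi => ?_
    rw [← smul_eq]
    refine Submodule.smul_mem _ _ ?_
    have h1 : 2 * i ≤ M := by
      by_contra h2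
      exact (Polynomial.mem_support_iff.1 hi) (h.1 i (by omega))
    exact F_mono h1 (mem_F.2 ⟨_, Z_xi i⟩)
  · rw [Polynomial.aeval_def, Polynomial.eval₂_eq_sum, Polynomial.sum_def, Finset.sum_mul]
    refine Submodule.sum_mem _ fun i hi => ?_
    rw [mul_assoc, ← smul_eq]
    refine Submodule.smul_mem _ _ ?_
    have h1 : 2 * i + 3 ≤ M := by
      by_contra h2
      exact (Polynomial.mem_support_iff.1 hi) (h.2 i (by omega))
    exact F_mono h1 (mem_F.2 ⟨_, Z_xiy i⟩)

theorem aeval_erase (p : Polynomial B) (i : ℕ) : Polynomial.aeval (x1 B a b) p =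
    algebraMap B _ (p.coeff i) * x1 B a b ^ i + Polynomial.aeval (x1 B a b) (p.erase i) := by
  conv_lhs => rw [← Polynomial.monomial_add_erase p i]
  rw [map_add, Polynomial.aeval_monomial]

/-- The leading coefficient vanishes. -/
theorem lead {M k : ℕ} {c : B} {v : A1 B a b}
    (hv : Z B a b ^ (M + 1) * g1 B a b v = g2 B a b (ti B a b ^ k))
    (h : algebraMap B _ c * v ∈ F B a b M) : c = 0 := by
  obtain ⟨w, hw⟩ := mem_F.1 h
  have h1 : g2 B a b (algebraMap B _ c * ti B a b ^ k) = g2 B a b (z2 B a b * w) := by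
    rw [map_mul, ← hv, map_mul, ← hw, ← Z_eq, map_mul, g1_b, g2_b]
    ring
  have h2 := congrArg (inf2 B a b) (g2_inj h1)
  rw [map_mul, map_mul, map_pow, inf2_ti, inf2_z, inf2_b, zero_mul, one_pow, mul_one] at h2
  exact h2

theorem step {N M : ℕ} (hNM : N ≤ M) {p q : Polynomial B} (hv : (vl p q : A1 B a b) ∈ F B a b N)
    (h : Pm (M + 1) p q) : Pm M p q := by
  have hv' := F_mono hNM hv
  constructor
  · intro i hi
    by_cases h1 : M + 1 < 2 * i
    · exact h.1 i h1
    have h2 : M + 1 = 2 * i := by omega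
    have h3 : Pm M (p.erase i) q := by
      constructor
      · intro j hj
        rw [Polynomial.coeff_erase]
        split_ifs with hji
        · rfl
        · exact h.1 j (by omega)
      · intro j hj
        exact h.2 j (by omega)
    have h4 : algebraMap B _ (p.coeff i) * x1 B a b ^ i ∈ F B a b M := by
      have h5 := Submodule.sub_mem _ hv' (vl_mem (a := a) (b := b) h3)
      have h6 : (vl p q : A1 B a b) - vl (p.erase i) q =
          algebraMap B _ (p.coeff i) * x1 B a b ^ i := by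
        unfold vl
        rw [aeval_erase p i]
        ring
      rwa [h6] at h5
    exact lead (v := x1 B a b ^ i) (k := i) (by rw [h2]; exact Z_xi i) h4
  · intro i hi
    by_cases h1 : M + 1 < 2 * i + 3
    · exact h.2 i h1
    have h2 : M + 1 = 2 * i + 3 := by omega
    have h3 : Pm M p (q.erase i) := by
      constructor
      · intro j hj
        exact h.1 j (by omega)
      · intro j hj
        rw [Polynomial.coeff_erase]
        split_ifs with hji
        · rfl
        · exact h.2 j (by omega)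
    have h4 : algebraMap B _ (q.coeff i) * (x1 B a b ^ i * y1 B a b) ∈ F B a b M := by
      have h5 := Submodule.sub_mem _ hv' (vl_mem (a := a) (b := b) h3)
      have h6 : (vl p q : A1 B a b) - vl p (q.erase i) =
          algebraMap B _ (q.coeff i) * (x1 B a b ^ i * y1 B a b) := by
        unfold vl
        rw [aeval_erase q i]
        ring
      rwa [h6] at h5
    exact lead (v := x1 B a b ^ i * y1 B a b) (k := i + 1) (by rw [h2]; exact Z_xiy i) h4

theorem key {N : ℕ} {p q : Polynomial B} (hv : (vl p q : A1 B a b) ∈ F B a b N) : Pm N p q := by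
  have h0 : ∀ k, Pm (N + k) p q → Pm N p q := by
    intro k
    induction k with
    | zero => exact fun h => h
    | succ k ih => exact fun h => ih (step (Nat.le_add_right N k) hv h)
  refine h0 (2 * p.natDegree + 2 * q.natDegree + 3) ⟨fun i hi => ?_, fun i hi => ?_⟩
  · exact Polynomial.coeff_eq_zero_of_natDegree_lt (by omega)
  · exact Polynomial.coeff_eq_zero_of_natDegree_lt (by omega)

theorem exists_vl (v : A1 B a b) : ∃ p q : Polynomial B, v = vl p q := by
  obtain ⟨v, rfl⟩ := Ideal.Quotient.mk_surjective v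
  induction v using MvPolynomial.induction_on with
  | C c =>
    refine ⟨Polynomial.C c, 0, ?_⟩
    unfold vl
    rw [Polynomial.aeval_C, map_zero, zero_mul, add_zero]
    rfl
  | add v w hv hw =>
    obtain ⟨p, q, h⟩ := hv
    obtain ⟨p', q', h'⟩ := hw
    refine ⟨p + p', q + q', ?_⟩
    rw [map_add, h, h']
    unfold vl
    rw [map_add, map_add]
    ring
  | mul_X v i hv =>
    obtain ⟨p, q, h⟩ := hv
    rw [map_mul, h]
    fin_cases i
    · refine ⟨p * Polynomial.X, q * Polynomial.X, ?_⟩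
      show vl p q * x1 B a b = _
      unfold vl
      rw [map_mul, map_mul, Polynomial.aeval_X]
      ring
    · refine ⟨q * (Polynomial.X ^ 3 + Polynomial.C a * Polynomial.X + Polynomial.C b), p, ?_⟩
      show vl p q * y1 B a b = _
      unfold vl
      have := rel1 B a b
      simp only [map_mul, map_add, map_pow, Polynomial.aeval_X, Polynomial.aeval_C]
      linear_combination (Polynomial.aeval (x1 B a b) q) * this

theorem b_inj1 {c : B} (h : algebraMap B (A1 B a b) c = 0) : c = 0 := by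
  have h1 := congrArg (g1 B a b) h
  rw [g1_b, map_zero] at h1
  have h2 : g2 B a b (algebraMap B _ c) = g2 B a b 0 := by rw [g2_b, h1, map_zero]
  have h3 := congrArg (inf2 B a b) (g2_inj h2)
  rwa [inf2_b, map_zero] at h3

theorem const_of {p q : Polynomial B} {N : ℕ} (hN : N ≤ 1) (h : Pm N p q) :
    p = Polynomial.C (p.coeff 0) ∧ q = 0 := by
  constructor
  · ext i
    rw [Polynomial.coeff_C]
    split_ifs with hi
    · rw [hi]
    · exact h.1 i (by omega)
  · ext i
    rw [Polynomial.coeff_zero]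
    exact h.2 i (by omega)

theorem eq_zero_of {p q : Polynomial B} (h : (vl p q : A1 B a b) = 0) : p = 0 ∧ q = 0 := by
  have h1 : Pm 0 p q := key (by rw [h]; exact Submodule.zero_mem (F B a b 0))
  obtain ⟨h2, h3⟩ := const_of (by omega) h1
  refine ⟨?_, h3⟩
  have h4 : algebraMap B (A1 B a b) (p.coeff 0) = 0 := by
    rw [← h]
    unfold vl
    rw [h3, h2, Polynomial.aeval_C, map_zero, zero_mul, add_zero, Polynomial.coeff_C_zero]
  rw [h2, b_inj1 h4, Polynomial.C_0]

theorem g1_inj : Function.Injective (g1 B a b) := by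
  rw [injective_iff_map_eq_zero]
  intro v hv
  obtain ⟨p, q, rfl⟩ := exists_vl v
  have h1 : Pm 0 p q := key (mem_F.2 ⟨0, by rw [hv, mul_zero, map_zero]⟩)
  obtain ⟨h2, h3⟩ := const_of (by omega) h1
  have h4 : (vl p q : A1 B a b) = algebraMap B _ (p.coeff 0) := by
    unfold vl
    rw [h3, h2, Polynomial.aeval_C, map_zero, zero_mul, add_zero, Polynomial.coeff_C_zero]
  rw [h4, g1_b] at hv
  have h5 : g2 B a b (algebraMap B _ (p.coeff 0)) = g2 B a b 0 := by rw [g2_b, hv, map_zero]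
  have h6 := congrArg (inf2 B a b) (g2_inj h5)
  rw [inf2_b, map_zero] at h6
  rw [h4, h6, map_zero]

/-! ### The sum of the two rings -/

variable (B a b) in
/-- the sum of the two rings and of `B z⁻¹` -/
noncomputable def S : Submodule B (A12 B a b) where
  carrier := {v | ∃ (c : B) (v1 : A1 B a b) (v2 : A2 B a b),
    v = algebraMap B _ c * (zu B a b)⁻¹.val + g1 B a b v1 + g2 B a b v2}
  zero_mem' := ⟨0, 0, 0, by simp⟩
  add_mem' := by
    rintro v v' ⟨c, v1, v2, rfl⟩ ⟨c', v1', v2', rfl⟩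
    refine ⟨c + c', v1 + v1', v2 + v2', ?_⟩
    rw [map_add, map_add, map_add]
    ring
  smul_mem' := by
    rintro d v ⟨c, v1, v2, rfl⟩
    refine ⟨d * c, algebraMap B _ d * v1, algebraMap B _ d * v2, ?_⟩
    rw [Algebra.smul_def, map_mul, map_mul, map_mul, g1_b, g2_b]
    ring

theorem mem_S {v : A12 B a b} : v ∈ S B a b ↔ ∃ (c : B) (v1 : A1 B a b) (v2 : A2 B a b),
    v = algebraMap B _ c * (zu B a b)⁻¹.val + g1 B a b v1 + g2 B a b v2 := Iff.rfl

theorem zi_z {m : ℕ} (w : A2 B a b) :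
    (zu B a b)⁻¹.val ^ (m + 1) * g2 B a b (z2 B a b * w) = (zu B a b)⁻¹.val ^ m * g2 B a b w := by
  rw [map_mul, ← Z_eq, pow_succ]
  have := Z_zi (B := B) (a := a) (b := b)
  linear_combination ((zu B a b)⁻¹.val ^ m * g2 B a b w) * this

theorem mono_S {m k : ℕ} {v : A1 B a b} (ih : ∀ w : A2 B a b, (zu B a b)⁻¹.val ^ m * g2 B a b w ∈ S B a b)
    (hv : Z B a b ^ (m + 1) * g1 B a b v = g2 B a b (ti B a b ^ k)) :
    (zu B a b)⁻¹.val ^ (m + 1) ∈ S B a b := by
  obtain ⟨w, hw⟩ := exists_z (ti B a b ^ k)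
  rw [map_pow, inf2_ti, one_pow, map_one] at hw
  have h1 : (zu B a b)⁻¹.val ^ (m + 1) * g2 B a b (ti B a b ^ k) = g1 B a b v := by
    rw [← hv, ← mul_assoc, ← mul_pow, mul_comm _ (Z B a b), Z_zi, one_pow, one_mul]
  have h2 : (zu B a b)⁻¹.val ^ (m + 1) = g1 B a b v - (zu B a b)⁻¹.val ^ m * g2 B a b w := by
    rw [← h1, ← zi_z (m := m) w, ← mul_sub, ← map_sub]
    have h3 : ti B a b ^ k - z2 B a b * w = 1 := by
      rw [hw]
      ring
    rw [h3, map_one, mul_one]
  rw [h2]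
  refine Submodule.sub_mem _ ?_ (ih w)
  exact mem_S.2 ⟨0, v, 0, by simp⟩

theorem all_S (m : ℕ) : ∀ w : A2 B a b, (zu B a b)⁻¹.val ^ m * g2 B a b w ∈ S B a b := by
  induction m with
  | zero =>
    intro w
    exact mem_S.2 ⟨0, 0, w, by simp⟩
  | succ m ih =>
    have h1 : (zu B a b)⁻¹.val ^ (m + 1) ∈ S B a b := by
      rcases Nat.even_or_odd (m + 1) with h | h
      · obtain ⟨i, hi⟩ := h
        refine mono_S (v := x1 B a b ^ i) (k := i) ih ?_
        rw [show m + 1 = 2 * i by omega]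
        exact Z_xi i
      · obtain ⟨i, hi⟩ := h
        rcases Nat.eq_zero_or_pos i with h0 | h0
        · rw [hi, h0]
          exact mem_S.2 ⟨1, 0, 0, by simp⟩
        · refine mono_S (v := x1 B a b ^ (i - 1) * y1 B a b) (k := i - 1 + 1) ih ?_
          rw [show m + 1 = 2 * (i - 1) + 3 by omega]
          exact Z_xiy (i - 1)
    intro w
    obtain ⟨w', hw⟩ := exists_z w
    rw [hw, map_add, mul_add, zi_z, g2_b]
    refine Submodule.add_mem _ ?_ (ih w')
    rw [mul_comm, ← Algebra.smul_def]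
    exact Submodule.smul_mem _ _ h1

theorem exists_rep (v : A12 B a b) : v ∈ S B a b := by
  obtain ⟨n, w, hw⟩ := IsLocalization.Away.surj (z2 B a b) v
  have h1 : v = (zu B a b)⁻¹.val ^ n * g2 B a b w := by
    have h2 : v * Z B a b ^ n = g2 B a b w := hw
    rw [← h2, mul_comm v, ← mul_assoc, ← mul_pow, mul_comm _ (Z B a b), Z_zi, one_pow, one_mul]
  rw [h1]
  exact all_S n w

end

end WRG

open _root_.Pool.Agent.MG.W.WRG in
theorem t_WRG : Stmt_WRG := by
  intro B _ a b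
  refine ⟨?_, sub_mem, g2_inj, g1_inj, exists_rep, ?_, ?_, ?_⟩
  · intro v
    obtain ⟨p, q, rfl⟩ := exists_vl v
    refine ⟨(p, q), rfl, ?_⟩
    rintro ⟨p', q'⟩ h
    have h1 : (vl (p' - p) (q' - q) : A1 B a b) = 0 := by
      have h2 : (vl p q : A1 B a b) = vl p' q' := h
      unfold vl at h2 ⊢
      rw [map_sub, map_sub]
      linear_combination -h2
    obtain ⟨h3, h4⟩ := eq_zero_of h1
    rw [sub_eq_zero.1 h3, sub_eq_zero.1 h4]
  · intro c v1 v2 h
    have hZ : Z B a b * (algebraMap B _ c * (zu B a b)⁻¹.val + g1 B a b v1 + g2 B a b v2) = 0 := by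
      rw [h, mul_zero]
    have h1 : Z B a b ^ 1 * g1 B a b v1 =
        g2 B a b (- algebraMap B _ c - z2 B a b * v2) := by
      rw [map_sub, map_neg, map_mul, g2_b, ← Z_eq]
      have := Z_zi (B := B) (a := a) (b := b)
      linear_combination hZ - algebraMap B _ c * this
    obtain ⟨p, q, rfl⟩ := exists_vl v1
    obtain ⟨h2, h3⟩ := const_of le_rfl (key (mem_F.2 ⟨_, h1⟩))
    have h4 : (vl p q : A1 B a b) = algebraMap B _ (p.coeff 0) := by
      unfold vl
      rw [h3, h2, Polynomial.aeval_C, map_zero, zero_mul, add_zero, Polynomial.coeff_C_zero]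
    have h5 : g2 B a b (z2 B a b * algebraMap B _ (p.coeff 0)) =
        g2 B a b (- algebraMap B _ c - z2 B a b * v2) := by
      rw [← h1, h4, g1_b, map_mul, g2_b, ← Z_eq, pow_one]
    have h6 := g2_inj h5
    have h7 := congrArg (inf2 B a b) h6
    simp only [map_mul, map_sub, map_neg, inf2_z, inf2_b, zero_mul, sub_zero] at h7
    have h8 : c = 0 := neg_eq_zero.1 h7.symm
    refine ⟨h8, p.coeff 0, h4, ?_⟩
    have h9 : z2 B a b * (v2 + algebraMap B _ (p.coeff 0)) = 0 := by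
      rw [h8, map_zero, neg_zero, zero_sub] at h6
      linear_combination h6
    exact eq_neg_of_add_eq_zero_left (z_reg _ h9)
  · intro v1 v2 h
    obtain ⟨p, q, rfl⟩ := exists_vl v1
    have h1 : Pm 2 p q := key (mem_F.2 ⟨v2, h⟩)
    have h2 : q = 0 := by
      ext i
      rw [Polynomial.coeff_zero]
      exact h1.2 i (by omega)
    have h3 : p = Polynomial.C (p.coeff 0) + Polynomial.C (p.coeff 1) * Polynomial.X := by
      ext i
      rcases i with _ | _ | i
      · simp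
      · simp
      · rw [h1.1 _ (by omega)]
        simp
    refine ⟨p.coeff 0, p.coeff 1, ?_⟩
    unfold vl
    rw [h2, map_zero, zero_mul, add_zero]
    conv_lhs => rw [h3]
    rw [map_add, map_mul, Polynomial.aeval_C, Polynomial.aeval_C, Polynomial.aeval_X]
  · intro v1 v2 h
    obtain ⟨p, q, rfl⟩ := exists_vl v1
    have h1 : Pm 3 p q := key (mem_F.2 ⟨v2, h⟩)
    have h2 : q = Polynomial.C (q.coeff 0) := by
      ext i
      rw [Polynomial.coeff_C]
      split_ifs with hi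
      · rw [hi]
      · exact h1.2 i (by omega)
    have h3 : p = Polynomial.C (p.coeff 0) + Polynomial.C (p.coeff 1) * Polynomial.X := by
      ext i
      rcases i with _ | _ | i
      · simp
      · simp
      · rw [h1.1 _ (by omega)]
        simp
    refine ⟨p.coeff 0, p.coeff 1, q.coeff 0, ?_⟩
    unfold vl
    conv_lhs => rw [h3, h2]
    rw [map_add, map_mul, Polynomial.aeval_C, Polynomial.aeval_C, Polynomial.aeval_X,
      Polynomial.aeval_C]

end Pool.Agent.MG.W


end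

section

/-!
# Smooth curves of genus one: algebra of the functions with poles at one point
-/

open CategoryTheory CategoryTheory.Limits AlgebraicGeometry TensorProduct

namespace Pool.Agent.MG.W.W0

/-- Ring data of a curve of genus one: `R1` = functions away from the point `p`, `R2` = functions
near `p`, `z` = a coordinate at `p`, `R12` = `R2[1/z]`. -/
structure AD (k R1 R2 R12 : Type) [Field k] [CommRing R1] [CommRing R2] [CommRing R12] where
  c1 : k →+* R1
  c2 : k →+* R2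
  c12 : k →+* R12
  j1 : R1 →+* R12
  j2 : R2 →+* R12
  jc1 : ∀ c, j1 (c1 c) = c12 c
  jc2 : ∀ c, j2 (c2 c) = c12 c
  inj1 : Function.Injective j1
  inj2 : Function.Injective j2
  z : R2
  zi : R12
  hz : j2 z * zi = 1
  ev : R2 →+* k
  evc : ∀ c, ev (c2 c) = c
  evz : ev z = 0
  evk : ∀ r, ev r = 0 → ∃ s, r = z * s
  loc : ∀ r : R12, ∃ (n : ℕ) (s : R2), j2 z ^ n * r = j2 s
  h0 : ∀ a b, j1 a = j2 b → ∃ c, a = c1 c
  L : R12 → k
  Ladd : ∀ r s, L (r + s) = L r + L s
  Lc : ∀ c r, L (c12 c * r) = c * L r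
  L0 : ∀ r, L r = 0 ↔ ∃ a b, r = j1 a + j2 b
  Ls : ∃ r, L r ≠ 0

namespace AD

variable {k R1 R2 R12 : Type} [Field k] [CommRing R1] [CommRing R2] [CommRing R12]
  (D : AD k R1 R2 R12)

/-- `r` has a pole of order at most `n`, with leading coefficient `c`. -/
def Ord (n : ℕ) (r : R1) (c : k) : Prop := ∃ s, D.j2 D.z ^ n * D.j1 r = D.j2 s ∧ D.ev s = c

variable {D}

lemma zn (n : ℕ) : D.j2 D.z ^ n * D.zi ^ n = 1 := by
  rw [← mul_pow, D.hz, one_pow]

lemma cancel {a b : R12} (h : D.j2 D.z * a = D.j2 D.z * b) : a = b := by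
  have h1 : D.zi * D.j2 D.z = 1 := by rw [mul_comm, D.hz]
  calc a = D.zi * D.j2 D.z * a := by rw [h1, one_mul]
    _ = D.zi * D.j2 D.z * b := by rw [mul_assoc, h, mul_assoc]
    _ = b := by rw [h1, one_mul]

lemma Ord.uniq {n : ℕ} {r : R1} {c c' : k} (h : D.Ord n r c) (h' : D.Ord n r c') : c = c' := by
  obtain ⟨s, h1, h2⟩ := h
  obtain ⟨s', h1', h2'⟩ := h'
  rw [← h2, ← h2', D.inj2 (h1.symm.trans h1')]

lemma Ord.add {n : ℕ} {r r' : R1} {c c' : k} (h : D.Ord n r c) (h' : D.Ord n r' c') :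
    D.Ord n (r + r') (c + c') := by
  obtain ⟨s, h1, h2⟩ := h
  obtain ⟨s', h1', h2'⟩ := h'
  exact ⟨s + s', by rw [map_add, map_add, mul_add, h1, h1'], by rw [map_add, h2, h2']⟩

lemma Ord.mul {n m : ℕ} {r r' : R1} {c c' : k} (h : D.Ord n r c) (h' : D.Ord m r' c') :
    D.Ord (n + m) (r * r') (c * c') := by
  obtain ⟨s, h1, h2⟩ := h
  obtain ⟨s', h1', h2'⟩ := h'
  exact ⟨s * s', by rw [map_mul, map_mul, ← h1, ← h1', pow_add]; ring, by rw [map_mul, h2, h2']⟩

lemma ord_const (c : k) : D.Ord 0 (D.c1 c) c :=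
  ⟨D.c2 c, by rw [pow_zero, one_mul, D.jc1, D.jc2], D.evc c⟩

lemma ord_one : D.Ord 0 1 1 := by
  have := ord_const (D := D) 1
  rwa [map_one] at this

lemma Ord.smul {n : ℕ} {r : R1} {c : k} (h : D.Ord n r c) (d : k) :
    D.Ord n (D.c1 d * r) (d * c) := by
  have := (ord_const d).mul h
  rwa [zero_add] at this

lemma Ord.neg {n : ℕ} {r : R1} {c : k} (h : D.Ord n r c) : D.Ord n (-r) (-c) := by
  have := h.smul (-1)
  rwa [map_neg, map_one, neg_one_mul, neg_one_mul] at this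

lemma Ord.sub {n : ℕ} {r r' : R1} {c c' : k} (h : D.Ord n r c) (h' : D.Ord n r' c') :
    D.Ord n (r - r') (c - c') := by
  have := h.add h'.neg
  rwa [← sub_eq_add_neg, ← sub_eq_add_neg] at this

lemma Ord.pow {n : ℕ} {r : R1} {c : k} (h : D.Ord n r c) (m : ℕ) :
    D.Ord (n * m) (r ^ m) (c ^ m) := by
  induction m with
  | zero => simpa using ord_one (D := D)
  | succ m ih =>
    rw [pow_succ, pow_succ, Nat.mul_succ]
    exact ih.mul h

lemma Ord.succ {n : ℕ} {r : R1} {c : k} (h : D.Ord n r c) : D.Ord (n + 1) r 0 := by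
  obtain ⟨s, h1, h2⟩ := h
  exact ⟨D.z * s, by rw [pow_succ, map_mul, ← h1]; ring, by rw [map_mul, D.evz, zero_mul]⟩

lemma Ord.mono {n m : ℕ} {r : R1} {c : k} (h : D.Ord n r c) (hnm : n < m) : D.Ord m r 0 := by
  induction m, hnm using Nat.le_induction with
  | base => exact h.succ
  | succ m _ ih => exact ih.succ

lemma Ord.pred {n : ℕ} {r : R1} (h : D.Ord (n + 1) r 0) : ∃ c, D.Ord n r c := by
  obtain ⟨s, h1, h2⟩ := h
  obtain ⟨s', rfl⟩ := D.evk s h2
  refine ⟨D.ev s', s', ?_, rfl⟩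
  apply cancel (D := D)
  rw [← map_mul, ← h1, pow_succ]
  ring

lemma ord_exists (r : R1) : ∃ n c, D.Ord n r c := by
  obtain ⟨n, s, h⟩ := D.loc (D.j1 r)
  exact ⟨n, D.ev s, s, h, rfl⟩

lemma Ord.eq_const {r : R1} {c : k} (h : D.Ord 0 r c) : r = D.c1 c := by
  obtain ⟨s, h1, h2⟩ := h
  rw [pow_zero, one_mul] at h1
  obtain ⟨d, rfl⟩ := D.h0 r s h1
  rw [D.jc1, ← D.jc2] at h1
  rw [← h2, ← D.inj2 h1, D.evc]

lemma exists_lead {r : R1} (hr : r ≠ 0) : ∃ n c, c ≠ 0 ∧ D.Ord n r c := by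
  obtain ⟨n, c, h⟩ := ord_exists (D := D) r
  induction n generalizing c with
  | zero =>
    refine ⟨0, c, ?_, h⟩
    rintro rfl
    apply hr
    rw [h.eq_const, map_zero]
  | succ n ih =>
    by_cases hc : c = 0
    · subst hc
      obtain ⟨c', h'⟩ := h.pred
      exact ih c' h'
    · exact ⟨n + 1, c, hc, h⟩

lemma Ord.lt {n m : ℕ} {r : R1} {c c' : k} (h : D.Ord n r c) (h' : D.Ord m r c') (hc' : c' ≠ 0) :
    m ≤ n := by
  by_contra hcon
  exact hc' (h'.uniq (h.mono (not_le.1 hcon)))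

lemma Ord.eq {n m : ℕ} {r : R1} {c c' : k} (h : D.Ord n r c) (h' : D.Ord m r c') (hc : c ≠ 0)
    (hc' : c' ≠ 0) : n = m :=
  le_antisymm (h'.lt h hc) (h.lt h' hc')

lemma ord_zero (n : ℕ) : D.Ord n 0 0 := ⟨0, by simp, map_zero _⟩

/-- There are no functions with a simple pole. -/
lemma no_one {r : R1} {c : k} (h : D.Ord 1 r c) : c = 0 := by
  by_contra hc
  have h1 : D.Ord 1 (D.c1 c⁻¹ * r) 1 := by
    have := h.smul c⁻¹
    rwa [inv_mul_cancel₀ hc] at this
  set f := D.c1 c⁻¹ * r with hf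
  have key : ∀ (n : ℕ) (s : R2) (t : R12), D.j2 D.z ^ n * t = D.j2 s →
      ∃ a b, t = D.j1 a + D.j2 b := by
    intro n
    induction n with
    | zero =>
      intro s t ht
      exact ⟨0, s, by rw [pow_zero, one_mul] at ht; rw [map_zero, zero_add, ht]⟩
    | succ n ih =>
      intro s t ht
      obtain ⟨u, hu1, hu2⟩ := h1.pow (n + 1)
      rw [one_mul] at hu1
      rw [one_pow] at hu2
      obtain ⟨s', hs'⟩ := D.evk (s - D.c2 (D.ev s) * u) (by
        rw [map_sub, map_mul, D.evc, hu2, mul_one, sub_self])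
      obtain ⟨a, b, hab⟩ := ih s' (t - D.j1 (D.c1 (D.ev s) * f ^ (n + 1))) (by
        apply cancel (D := D)
        have e1 : D.j2 (D.c2 (D.ev s) * u) =
            D.c12 (D.ev s) * (D.j2 D.z ^ (n + 1) * D.j1 (f ^ (n + 1))) := by
          rw [map_mul, D.jc2, hu1]
        have e2 : D.j1 (D.c1 (D.ev s) * f ^ (n + 1)) = D.c12 (D.ev s) * D.j1 (f ^ (n + 1)) := by
          rw [map_mul, D.jc1]
        rw [← map_mul, ← hs', map_sub, ← ht, e1, e2, pow_succ]
        ring)
      refine ⟨a + D.c1 (D.ev s) * f ^ (n + 1), b, ?_⟩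
      rw [map_add]
      linear_combination hab
  obtain ⟨t, ht⟩ := D.Ls
  obtain ⟨n, s, hs⟩ := D.loc t
  exact ht ((D.L0 t).2 (key n s t hs))

/-- There are functions with a pole of order `n` for all `n ≥ 2`. -/
lemma exists_ord (n : ℕ) : ∃ r, D.Ord (n + 2) r 1 := by
  have hw : D.L D.zi ≠ 0 := by
    intro h
    obtain ⟨a, b, hab⟩ := (D.L0 _).1 h
    have h1 : D.Ord 1 a 1 := by
      refine ⟨1 - D.z * b, ?_, by rw [map_sub, map_mul, D.evz, zero_mul, sub_zero, map_one]⟩
      have h2 : D.j1 a = D.zi - D.j2 b := by rw [hab]; ring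
      rw [pow_one, h2, map_sub, map_one, map_mul, mul_sub, D.hz]
    exact one_ne_zero (no_one h1)
  have h1 : D.L (D.zi ^ (n + 2) + D.c12 (-(D.L (D.zi ^ (n + 2)) / D.L D.zi)) * D.zi) = 0 := by
    rw [D.Ladd, D.Lc]
    field_simp
    ring
  obtain ⟨a, b, hab⟩ := (D.L0 _).1 h1
  set e := -(D.L (D.zi ^ (n + 2)) / D.L D.zi) with he
  refine ⟨a, 1 + D.c2 e * D.z ^ (n + 1) - D.z ^ (n + 2) * b, ?_, ?_⟩
  · have h2 : D.j1 a = D.zi ^ (n + 2) + D.c12 e * D.zi - D.j2 b := by rw [hab]; ring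
    have h3 := zn (D := D) (n + 2)
    rw [h2, map_sub, map_add, map_one, map_mul, map_mul, map_pow, map_pow, D.jc2]
    have h4 := D.hz
    linear_combination h3 + D.c12 e * D.j2 D.z ^ (n + 1) * h4
  · rw [map_sub, map_add, map_one, map_mul, map_mul, map_pow, map_pow, D.evz]
    simp

end AD

end Pool.Agent.MG.W.W0


end

section

/-!
# Smooth curves of genus one: the Weierstrass equation
-/

open CategoryTheory CategoryTheory.Limits AlgebraicGeometry TensorProduct

namespace Pool.Agent.MG.W.W0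

namespace AD

variable {k R1 R2 R12 : Type} [Field k] [CommRing R1] [CommRing R2] [CommRing R12]
  {D : AD k R1 R2 R12}

lemma Ord.cast {n m : ℕ} {r : R1} {c : k} (h : D.Ord n r c) (hn : n = m) : D.Ord m r c := hn ▸ h

lemma Ord.red {n : ℕ} {r m : R1} {c : k} (h : D.Ord (n + 1) r c) (hm : D.Ord (n + 1) m 1) :
    ∃ c', D.Ord n (r - D.c1 c * m) c' := by
  have := h.sub (hm.smul c)
  rw [mul_one, sub_self] at this
  exact this.pred

lemma exists_eq0 {x y : R1} (hx : D.Ord 2 x 1) (hy : D.Ord 3 y 1) :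
    ∃ a1 a2 a3 a4 a6 : k, y ^ 2 = x ^ 3 + D.c1 a1 * (x * y) + D.c1 a2 * x ^ 2 + D.c1 a3 * y +
      D.c1 a4 * x + D.c1 a6 := by
  have h6 : D.Ord (5 + 1) (y ^ 2 - x ^ 3) 0 := by
    have := ((hy.pow 2).cast (show 3 * 2 = 5 + 1 by norm_num)).sub
      ((hx.pow 3).cast (show 2 * 3 = 5 + 1 by norm_num))
    simpa using this
  obtain ⟨c5, h5⟩ := h6.pred
  have m5 : D.Ord (4 + 1) (x * y) 1 := by
    have := (hx.mul hy).cast (show 2 + 3 = 4 + 1 by norm_num)
    rwa [mul_one] at this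
  obtain ⟨c4, h4⟩ := h5.red m5
  have m4 : D.Ord (3 + 1) (x ^ 2) 1 := by
    have := (hx.pow 2).cast (show 2 * 2 = 3 + 1 by norm_num)
    rwa [one_pow] at this
  obtain ⟨c3, h3⟩ := h4.red m4
  obtain ⟨c2, h2⟩ := h3.red hy
  obtain ⟨c1, h1⟩ := h2.red hx
  have hc1 := no_one h1
  subst hc1
  obtain ⟨c0, h0⟩ := h1.pred
  have e := h0.eq_const
  refine ⟨c5, c4, c3, c2, c0, ?_⟩
  linear_combination e

theorem exists_W [CharZero k] : ∃ (a b : k) (x y : R1), D.Ord 2 x 1 ∧ D.Ord 3 y 1 ∧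
    y ^ 2 = x ^ 3 + D.c1 a * x + D.c1 b := by
  obtain ⟨x, hx⟩ := exists_ord (D := D) 0
  obtain ⟨y, hy⟩ := exists_ord (D := D) 1
  obtain ⟨a1, a2, a3, a4, a6, h⟩ := exists_eq0 hx hy
  have e2 : D.c1 2⁻¹ * 2 = 1 := by
    have : (2 : R1) = D.c1 2 := (map_ofNat D.c1 2).symm
    rw [this, ← map_mul, inv_mul_cancel₀ two_ne_zero, map_one]
  have e3 : D.c1 3⁻¹ * 3 = 1 := by
    have : (3 : R1) = D.c1 3 := (map_ofNat D.c1 3).symm
    rw [this, ← map_mul, inv_mul_cancel₀ three_ne_zero, map_one]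
  set h2 := D.c1 2⁻¹ with hh2
  set h3 := D.c1 3⁻¹ with hh3
  have two : (2⁻¹ : k) * 2 = 1 := inv_mul_cancel₀ two_ne_zero
  have three : (3⁻¹ : k) * 3 = 1 := inv_mul_cancel₀ three_ne_zero
  let b2 : k := a2 + a1 ^ 2 * 2⁻¹ ^ 2
  let b4 : k := a4 + a1 * a3 * 2⁻¹
  let b6 : k := a6 + a3 ^ 2 * 2⁻¹ ^ 2
  refine ⟨b4 - b2 ^ 2 * 3⁻¹, b6 - b2 * b4 * 3⁻¹ + 2 * b2 ^ 3 * 3⁻¹ ^ 3,
    x + D.c1 (b2 * 3⁻¹), y - D.c1 (a1 * 2⁻¹) * x - D.c1 (a3 * 2⁻¹), ?_, ?_, ?_⟩
  · have := hx.add ((ord_const (D := D) (b2 * 3⁻¹)).mono (show 0 < 0 + 2 by norm_num))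
    rwa [add_zero] at this
  · have h1 := (hx.smul (a1 * 2⁻¹)).mono (show 0 + 2 < 1 + 2 by norm_num)
    have h2 := (ord_const (D := D) (a3 * 2⁻¹)).mono (show 0 < 1 + 2 by norm_num)
    have := (hy.sub h1).sub h2
    simpa using this
  · simp only [b2, b4, b6, map_sub, map_add, map_mul, map_pow, ← hh2, ← hh3, map_ofNat]
    generalize D.c1 a1 = A1 at *
    generalize D.c1 a2 = A2 at *
    generalize D.c1 a3 = A3 at *
    generalize D.c1 a4 = A4 at *
    generalize D.c1 a6 = A6 at *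
    clear_value h2 h3
    clear hh2 hh3
    have k1 : A1 * x * y * (h2 * 2) = A1 * x * y := by rw [e2, mul_one]
    have k2 : A3 * y * (h2 * 2) = A3 * y := by rw [e2, mul_one]
    set B2 := A2 + A1 ^ 2 * h2 ^ 2 with hB2
    set B4 := A4 + A1 * A3 * h2 with hB4
    set B6 := A6 + A3 ^ 2 * h2 ^ 2 with hB6
    have s1 : (y - A1 * h2 * x - A3 * h2) ^ 2 = x ^ 3 + B2 * x ^ 2 + B4 * x + B6 := by
      rw [hB2, hB4, hB6]
      linear_combination h - k1 - k2 + (A1 * A3 * h2 * x) * e2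
    rw [s1]
    linear_combination (-B2 * x ^ 2 - B2 ^ 2 * h3 * x - B2 ^ 3 * h3 ^ 2) * e3

/-! ### The functions with poles at `p` are polynomials in `x` and `y` -/

open Polynomial

theorem span {x y : R1} (hx : D.Ord 2 x 1) (hy : D.Ord 3 y 1) (n : ℕ) :
    ∀ (r : R1) (c : k), D.Ord n r c → ∃ p q : k[X], r = p.eval₂ D.c1 x + q.eval₂ D.c1 x * y := by
  induction n using Nat.strong_induction_on with
  | _ n ih =>
    intro r c h
    rcases n with _ | _ | n
    · refine ⟨C c, 0, ?_⟩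
      rw [h.eq_const]
      simp
    · have hc := no_one h
      subst hc
      obtain ⟨c', h'⟩ := h.pred
      exact ih 0 (by omega) r c' h'
    · rcases Nat.even_or_odd' (n + 2) with ⟨i, hi | hi⟩
      · have hm : D.Ord (n + 1 + 1) (x ^ i) 1 := by
          have := (hx.pow i).cast (show 2 * i = n + 1 + 1 by omega)
          rwa [one_pow] at this
        obtain ⟨c', h'⟩ := Ord.red (n := n + 1) h hm
        obtain ⟨p, q, hpq⟩ := ih (n + 1) (by omega) _ c' h'
        refine ⟨p + C c * X ^ i, q, ?_⟩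
        simp only [eval₂_add, eval₂_mul, eval₂_C, eval₂_X_pow]
        linear_combination hpq
      · have hm : D.Ord (n + 1 + 1) (x ^ (i - 1) * y) 1 := by
          have := ((hx.pow (i - 1)).mul hy).cast (show 2 * (i - 1) + 3 = n + 1 + 1 by omega)
          rwa [one_pow, mul_one] at this
        obtain ⟨c', h'⟩ := Ord.red (n := n + 1) h hm
        obtain ⟨p, q, hpq⟩ := ih (n + 1) (by omega) _ c' h'
        refine ⟨p, q + C c * X ^ (i - 1), ?_⟩
        simp only [eval₂_add, eval₂_mul, eval₂_C, eval₂_X_pow]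
        linear_combination hpq

lemma ord_sum {n : ℕ} {ι : Type} (s : Finset ι) (f : ι → R1) (h : ∀ i ∈ s, D.Ord n (f i) 0) :
    D.Ord n (∑ i ∈ s, f i) 0 := by
  classical
  induction s using Finset.induction_on with
  | empty => simpa using ord_zero (D := D) n
  | insert a s ha ih =>
    rw [Finset.sum_insert ha]
    have := (h a (Finset.mem_insert_self _ _)).add (ih fun i hi => h i (Finset.mem_insert_of_mem hi))
    rwa [add_zero] at this

lemma ord_poly {x : R1} (hx : D.Ord 2 x 1) (p : k[X]) :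
    D.Ord (2 * p.natDegree) (p.eval₂ D.c1 x) p.leadingCoeff := by
  rw [Polynomial.eval₂_eq_sum_range, Finset.sum_range_succ]
  have h1 : ∀ i, D.Ord (2 * i) (D.c1 (p.coeff i) * x ^ i) (p.coeff i) := by
    intro i
    have := (hx.pow i).smul (p.coeff i)
    rwa [one_pow, mul_one] at this
  have := (ord_sum (Finset.range p.natDegree) (fun i => D.c1 (p.coeff i) * x ^ i)
    (fun i hi => (h1 i).mono (by rw [Finset.mem_range] at hi; omega))).add (h1 p.natDegree)
  rwa [zero_add] at this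

theorem indep {x y : R1} (hx : D.Ord 2 x 1) (hy : D.Ord 3 y 1) (p q : k[X])
    (h : p.eval₂ D.c1 x + q.eval₂ D.c1 x * y = 0) : p = 0 ∧ q = 0 := by
  have h1 := ord_poly hx p
  have h2 := (ord_poly hx q).mul hy
  rw [mul_one] at h2
  have hlp : p ≠ 0 → p.leadingCoeff ≠ 0 := fun h => Polynomial.leadingCoeff_ne_zero.2 h
  have hlq : q ≠ 0 → q.leadingCoeff ≠ 0 := fun h => Polynomial.leadingCoeff_ne_zero.2 h
  by_cases hp : p = 0
  · subst hp
    refine ⟨rfl, ?_⟩
    by_contra hq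
    rw [eval₂_zero, zero_add] at h
    rw [h] at h2
    exact hlq hq (h2.uniq (ord_zero _))
  · exfalso
    by_cases hq : q = 0
    · subst hq
      rw [eval₂_zero, zero_mul, add_zero] at h
      rw [h] at h1
      exact hlp hp (h1.uniq (ord_zero _))
    · have e : p.eval₂ D.c1 x = -(q.eval₂ D.c1 x * y) := by linear_combination h
      rw [e] at h1
      have := h1.eq h2.neg (hlp hp) (neg_ne_zero.2 (hlq hq))
      omega

theorem bij (hW : Stmt_WRG) {x y : R1} (hx : D.Ord 2 x 1) (hy : D.Ord 3 y 1) {a b : k}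
    (h : y ^ 2 = x ^ 3 + D.c1 a * x + D.c1 b) :
    Function.Bijective (lift1 (a := a) (b := b) D.c1 x y h) := by
  have hev : ∀ p : k[X], lift1 (a := a) (b := b) D.c1 x y h (aeval (x1 k a b) p) =
      p.eval₂ D.c1 x := by
    intro p
    rw [Polynomial.aeval_def, Polynomial.hom_eval₂, lift1_x]
    congr 1
    exact RingHom.ext fun c => lift1_b D.c1 x y h c
  have hv : ∀ p q : k[X], lift1 (a := a) (b := b) D.c1 x y h
      (aeval (x1 k a b) p + aeval (x1 k a b) q * y1 k a b) =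
      p.eval₂ D.c1 x + q.eval₂ D.c1 x * y := by
    intro p q
    rw [map_add, map_mul, hev, hev, lift1_y]
  constructor
  · rw [injective_iff_map_eq_zero]
    intro v hv0
    obtain ⟨⟨p, q⟩, rfl, -⟩ := (hW k a b).1 v
    rw [hv] at hv0
    obtain ⟨rfl, rfl⟩ := indep hx hy p q hv0
    simp
  · intro r
    obtain ⟨n, c, hn⟩ := ord_exists (D := D) r
    obtain ⟨p, q, hpq⟩ := span hx hy n r c hn
    exact ⟨aeval (x1 k a b) p + aeval (x1 k a b) q * y1 k a b, by rw [hv, hpq]⟩

theorem disc [CharZero k] [IsDomain R1] [IsIntegrallyClosed R1] {x y : R1} (hx : D.Ord 2 x 1)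
    (hy : D.Ord 3 y 1) {a b : k} (h : y ^ 2 = x ^ 3 + D.c1 a * x + D.c1 b) :
    4 * a ^ 3 + 27 * b ^ 2 ≠ 0 := by
  intro hd
  obtain ⟨e, ha, hb⟩ : ∃ e : k, a = -3 * e ^ 2 ∧ b = 2 * e ^ 3 := by
    by_cases ha : a = 0
    · subst ha
      have hb : b = 0 := by
        have h27 : (27 : k) ≠ 0 := by norm_num
        have : b ^ 2 = 0 := by
          have h1 : (27 : k) * b ^ 2 = 0 := by linear_combination hd
          exact (mul_eq_zero.1 h1).resolve_left h27
        exact pow_eq_zero_iff (two_ne_zero) |>.1 this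
      exact ⟨0, by simp, by simp [hb]⟩
    · refine ⟨-3 * b / (2 * a), ?_, ?_⟩
      · field_simp
        linear_combination hd
      · field_simp
        linear_combination b * hd
  have hfac : y ^ 2 = (x - D.c1 e) ^ 2 * (x + 2 * D.c1 e) := by
    rw [h, ha, hb]
    simp only [map_mul, map_neg, map_pow, map_ofNat]
    ring
  have hdvd : x - D.c1 e ∣ y := by
    rw [← IsIntegrallyClosed.pow_dvd_pow_iff (n := 2) two_ne_zero, hfac]
    exact dvd_mul_right _ _
  obtain ⟨w, hw⟩ := hdvd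
  have hxe : D.Ord 2 (x - D.c1 e) 1 := by
    have := hx.sub ((ord_const (D := D) e).mono (show 0 < 2 by norm_num))
    rwa [sub_zero] at this
  have hw0 : w ≠ 0 := by
    rintro rfl
    rw [mul_zero] at hw
    rw [hw] at hy
    exact one_ne_zero (hy.uniq (ord_zero _))
  obtain ⟨n, c, hc, hn⟩ := exists_lead (D := D) hw0
  have h3 := hxe.mul hn
  rw [← hw, one_mul] at h3
  have h4 := h3.eq hy hc one_ne_zero
  have : n = 1 := by omega
  subst this
  exact hc (no_one hn)

end AD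

end Pool.Agent.MG.W.W0


end

section

/-!
# Smooth curves of genus one: the complement of a point is affine
-/

open CategoryTheory CategoryTheory.Limits AlgebraicGeometry TensorProduct TopologicalSpace

namespace Pool.Agent.MG.W.W0

open Pool.Agent.MG.Two

variable {X : Scheme.{0}} {k : Type} [Field k] (π : X ⟶ Sp k)

lemma evs_rs (σ : Sp k ⟶ X) {U V : X.Opens} (h : U ≤ V) (hU : ⊤ ≤ σ ⁻¹ᵁ U) (hV : ⊤ ≤ σ ⁻¹ᵁ V)
    (r : Γ(X, V)) : evs σ U hU (rs X h r) = evs σ V hV r := by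
  have h1 : X.presheaf.map (homOfLE h).op ≫ σ.appLE U ⊤ hU = σ.appLE V ⊤ hV :=
    Scheme.Hom.map_appLE _ _ _
  have h2 := ConcreteCategory.congr_hom h1 r
  exact congrArg (Scheme.ΓSpecIso (.of k)).hom.hom h2

lemma evs_coef (σ : Sp k ⟶ X) (hσ : σ ≫ π = 𝟙 _) (U : X.Opens) (h : ⊤ ≤ σ ⁻¹ᵁ U) (c : k) :
    evs σ U h (coef π U c) = c := evs_kmap π σ hσ U h c

variable [IsIntegral X]

lemma transc_of [IsAlgClosed k] (f : X.functionField) (h : ∀ c, f ≠ kfun π c) : Transc π f := by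
  let _ : Algebra k X.functionField := (kfun π).toAlgebra
  have h1 : Transcendental k f := by
    intro halg
    obtain ⟨c, hc⟩ := exists_algebraMap_eq_of_isAlgebraic f halg
    exact h c hc.symm
  have h2 := transcendental_iff_injective.1 h1
  intro p q hpq
  apply h2
  exact hpq

lemma mem_basicOpen_of_ne (hpir : ∀ x : X, IsPrincipalIdealRing (X.presheaf.stalk x))
    {V : X.Opens} (hV : IsAffineOpen V) (z : Γ(X, V)) (p : X) (hp : p ∈ V)
    (hgen : p ≠ genericPoint X) (hz : ∀ r : Γ(X, V), p ∉ X.basicOpen r ↔ ∃ s, r = z * s)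
    (q : X) (hq : q ∈ V) (hne : q ≠ p) : q ∈ X.basicOpen z := by
  by_contra hqz
  have hMp : (hV.primeIdealOf ⟨p, hp⟩).asIdeal.IsMaximal := isMaximal_primeIdealOf hpir hV p hp hgen
  have hle : (hV.primeIdealOf ⟨p, hp⟩).asIdeal ≤ (hV.primeIdealOf ⟨q, hq⟩).asIdeal := by
    intro r hr
    rw [mem_primeIdealOf_iff] at hr
    obtain ⟨s, rfl⟩ := (hz r).mp hr
    rw [mem_primeIdealOf_iff, X.basicOpen_mul]
    exact fun h => hqz h.1
  have h2 := hMp.eq_of_le (hV.primeIdealOf ⟨q, hq⟩).isPrime.ne_top hle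
  have h3 := primeIdealOf_injective hV (PrimeSpectrum.ext h2)
  have h4 : p = q := congrArg Subtype.val h3
  exact hne h4.symm

/-- Geometric data: the complement of the point `σ q` is affine, and there is an affine
neighbourhood of this point with a coordinate. -/
structure GD {π : X ⟶ Sp k} (σ : Sp k ⟶ X) (q : Sp k) where
  V : X.Opens
  U : X.Opens
  aV : IsAffineOpen V
  aU : IsAffineOpen U
  mV : ∀ x, x ∈ V ↔ x ≠ σ q
  mU : σ q ∈ U
  z : Γ(X, U)
  gz : ∀ r : Γ(X, U), σ q ∉ X.basicOpen r ↔ ∃ s, r = z * s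

/-- A unit and its inverse in the function field. -/
lemma germ_inv {V : X.Opens} [Nonempty V] {u v : Γ(X, V)} (h : u * v = 1) :
    X.germToFunctionField V v = (X.germToFunctionField V u)⁻¹ := by
  have h1 := congrArg (X.germToFunctionField V) h
  rw [map_mul, map_one] at h1
  exact eq_inv_of_mul_eq_one_right h1

lemma germ_coef (U : X.Opens) [Nonempty U] (a : k) :
    X.germToFunctionField U (coef π U a) = kfun π a := germ_kmap π U a

lemma germ_rs {U V : X.Opens} (h : U ≤ V) [Nonempty U] [Nonempty V] (s : Γ(X, V)) :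
    X.germToFunctionField U (rs X h s) = X.germToFunctionField V s :=
  germToFunctionField_res h s

theorem exists_GD [IsAlgClosed k] [IsProper π] [SmoothOfRelativeDimension 1 π]
    (hg : HasGenus π 1) (σ : Sp k ⟶ X) (hσ : σ ≫ π = 𝟙 _) (q : Sp k) :
    Nonempty (GD (π := π) σ q) := by
  have hpir := pir_stalk π
  obtain ⟨f0, hf0⟩ := exists_transc π
  have hgen : σ q ≠ genericPoint X := section_ne_genericPoint π hf0 σ hσ q
  obtain ⟨U, V', x, y, c, hU, hV', hcov, hpU, hpV', -, -, -, hz, hV'ne⟩ :=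
    exists_two_charts π (fun _ : Unit => σ q) (fun _ _ _ => rfl) (fun _ => hgen)
  set z : Γ(X, U) := x - kmap π U (c ()) with hzdef
  have hz' : ∀ r : Γ(X, U), σ q ∉ X.basicOpen r ↔ ∃ s, r = z * s := hz ()
  have hpU' : σ q ∈ U := hpU ()
  have hpV'' : σ q ∉ V' := hpV' ()
  have hUne : Nonempty U := ⟨⟨σ q, hpU'⟩⟩
  have hW : IsAffineOpen (U ⊓ V') := isAffineOpen_inf π hU hV'
  have hWne : Nonempty (U ⊓ V' : X.Opens) := nonempty_inf hUne hV'ne
  obtain ⟨L, hLs, hLc, hL0⟩ := t_COVI π 1 hg U V' hU hV' hcov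
  have hu : IsUnit (rs X (inf_le_left : U ⊓ V' ≤ U) z) :=
    isUnit_sub hpir hU z (σ q) hpU' hgen hz' (U ⊓ V') inf_le_left (fun h => hpV'' h.2)
  obtain ⟨zi, hzi⟩ := hu.exists_right_inv
  have hZ : X.germToFunctionField (U ⊓ V') zi = (X.germToFunctionField U z)⁻¹ := by
    rw [germ_inv hzi, germ_rs]
  set Z := X.germToFunctionField U z with hZdef
  have hZ0 : Z ≠ 0 := by
    intro h
    rw [h, inv_zero] at hZ
    have h1 := congrArg (X.germToFunctionField (U ⊓ V')) hzi
    rw [map_mul, hZ, mul_zero, map_one] at h1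
    exact zero_ne_one h1
  obtain ⟨α, β, hne, hαβ⟩ : ∃ α β : k, (α ≠ 0 ∨ β ≠ 0) ∧
      L (coef π (U ⊓ V') α * zi + coef π (U ⊓ V') β * zi ^ 2) = 0 := by
    by_cases h1 : L zi 0 = 0
    · refine ⟨1, 0, Or.inl one_ne_zero, ?_⟩
      ext i
      rw [Subsingleton.elim i 0, map_add, hLc, hLc]
      simp [h1]
    · refine ⟨-(L (zi ^ 2) 0 / L zi 0), 1, Or.inr one_ne_zero, ?_⟩
      ext i
      rw [Subsingleton.elim i 0, map_add, hLc, hLc]
      simp only [Pi.add_apply, Pi.smul_apply, smul_eq_mul, Pi.zero_apply]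
      field_simp
      ring
  obtain ⟨a, b, hab⟩ := (hL0 _).1 hαβ
  set f : X.functionField := X.germToFunctionField V' b with hf
  set A := X.germToFunctionField U a with hA
  have hfe : f = kfun π α * Z⁻¹ + kfun π β * (Z⁻¹) ^ 2 - A := by
    have h1 := congrArg (X.germToFunctionField (U ⊓ V')) hab
    rw [map_add, map_mul, map_mul, map_pow, hZ, germ_coef, germ_coef, map_add, germ_rs, germ_rs] at h1
    rw [hf, h1]
    ring
  have hdom1 : ∀ p, p ≠ σ q → p ∈ dom f := by
    intro p hp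
    have hpt : p ∈ U ⊔ V' := by rw [hcov]; trivial
    rcases hpt with hpU1 | hpV1
    · have hpb := mem_basicOpen_of_ne hpir hU z (σ q) hpU' hgen hz' p hpU1 hp
      have hBne : Nonempty (X.basicOpen z) := ⟨⟨p, hpb⟩⟩
      have hub : IsUnit (rs X (X.basicOpen_le z) z) := X.toRingedSpace.isUnit_res_basicOpen z
      obtain ⟨ζ, hζ⟩ := hub.exists_right_inv
      have hζ' : X.germToFunctionField (X.basicOpen z) ζ = Z⁻¹ := by
        rw [germ_inv hζ, germ_rs]
      refine (mem_dom_iff' f p).mpr ⟨X.basicOpen z, hpb, hBne, coef π _ α * ζ + coef π _ β * ζ ^ 2 -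
        rs X (X.basicOpen_le z) a, ?_⟩
      rw [map_sub, map_add, map_mul, map_mul, map_pow, hζ', germ_coef, germ_coef, germ_rs, hfe]
    · exact (mem_dom_iff' f p).mpr ⟨V', hpV1, hV'ne, b, rfl⟩
  have hdom2 : σ q ∉ dom f := by
    intro h
    obtain ⟨N, hN, hNne, s, hs⟩ := (mem_dom_iff' f (σ q)).mp h
    have hNU : Nonempty (N ⊓ U : X.Opens) := nonempty_inf hNne hUne
    have hle : ⊤ ≤ σ ⁻¹ᵁ (N ⊓ U) := top_le_of_mem σ _ q ⟨hN, hpU'⟩
    have hleU : ⊤ ≤ σ ⁻¹ᵁ U := top_le_of_mem σ _ q hpU'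
    set z' := rs X (inf_le_right : N ⊓ U ≤ U) z with hz'def
    set s' := rs X (inf_le_left : N ⊓ U ≤ N) s with hs'def
    set a' := rs X (inf_le_right : N ⊓ U ≤ U) a with ha'def
    have hez : evs σ _ hle z' = 0 := by
      rw [evs_rs σ inf_le_right hle hleU, evs_eq_zero_iff _ _ _ _ q]
      exact (hz' z).2 ⟨1, (mul_one _).symm⟩
    have gz : X.germToFunctionField (N ⊓ U) z' = Z := germ_rs _ _
    have gs : X.germToFunctionField (N ⊓ U) s' = f := by rw [hs'def, germ_rs, hs]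
    have ga : X.germToFunctionField (N ⊓ U) a' = A := germ_rs _ _
    have e1 : z' ^ 2 * s' = coef π _ α * z' + coef π _ β - z' ^ 2 * a' := by
      apply X.germToFunctionField_injective (N ⊓ U)
      rw [map_sub, map_add, map_mul, map_mul, map_mul, map_pow, gz, gs, ga, germ_coef, germ_coef,
        hfe]
      field_simp
    have hβ : β = 0 := by
      have h1 := congrArg (evs σ _ hle) e1
      rw [map_sub, map_add, map_mul, map_mul, map_mul, map_pow, hez, evs_coef π σ hσ,
        evs_coef π σ hσ] at h1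
      simpa using h1.symm
    have e2 : z' * s' = coef π _ α - z' * a' := by
      apply X.germToFunctionField_injective (N ⊓ U)
      rw [map_sub, map_mul, map_mul, gz, gs, ga, germ_coef, hfe, hβ, map_zero]
      field_simp
      ring
    have hα : α = 0 := by
      have h1 := congrArg (evs σ _ hle) e2
      rw [map_sub, map_mul, map_mul, hez, evs_coef π σ hσ] at h1
      simpa using h1.symm
    rcases hne with h | h
    · exact h hα
    · exact h hβ
  have htr : Transc π f := by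
    apply transc_of
    intro c hc
    apply hdom2
    have : Nonempty (⊤ : X.Opens) := ⟨⟨σ q, trivial⟩⟩
    exact (mem_dom_iff' f (σ q)).mpr ⟨⊤, trivial, this, coef π ⊤ c, by rw [germ_coef, hc]⟩
  exact ⟨{
    V := dom f
    U := U
    aV := isAffineOpen_dom π hpir htr
    aU := hU
    mV := fun x => ⟨fun h hx => hdom2 (hx ▸ h), hdom1 x⟩
    mU := hpU'
    z := z
    gz := hz' }⟩

end Pool.Agent.MG.W.W0


end

section

/-!
# Infinitesimal translations of the curves `y² = f(x)`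
-/

open CategoryTheory CategoryTheory.Limits AlgebraicGeometry TensorProduct

namespace Pool.Agent.MG.H2

section alg

variable {R : Type} [CommRing R]

/-- The coefficients of the derivative. -/
def dtr (f : Fin 7 → R) : Fin 7 → R :=
  ![f 1, 2 * f 2, 3 * f 3, 4 * f 4, 5 * f 5, 6 * f 6, 0]

/-- `f'(x) = f(x + e)`, `e² = 0`. -/
def IsTr (e : R) (f f' : Fin 7 → R) : Prop := ∀ i, f' i = f i + e * dtr f i

theorem pol_tr {e : R} (he : e * e = 0) {f f' : Fin 7 → R} (h : IsTr e f f') (x : R) :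
    pol f' x = pol f (x + e) := by
  have h0 : f' 0 = f 0 + e * f 1 := h 0
  have h1 : f' 1 = f 1 + e * (2 * f 2) := h 1
  have h2 : f' 2 = f 2 + e * (3 * f 3) := h 2
  have h3 : f' 3 = f 3 + e * (4 * f 4) := h 3
  have h4 : f' 4 = f 4 + e * (5 * f 5) := h 4
  have h5 : f' 5 = f 5 + e * (6 * f 6) := h 5
  have h6 : f' 6 = f 6 + e * 0 := h 6
  simp only [pol, h0, h1, h2, h3, h4, h5, h6]
  linear_combination (-(f 2 + f 3 * (3 * x + e) + f 4 * (6 * x ^ 2 + 4 * x * e + e ^ 2) +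
    f 5 * (10 * x ^ 3 + 10 * x ^ 2 * e + 5 * x * e ^ 2 + e ^ 3) +
    f 6 * (15 * x ^ 4 + 20 * x ^ 3 * e + 15 * x ^ 2 * e ^ 2 + 6 * x * e ^ 3 + e ^ 4))) * he

theorem dpol_tr {e : R} (he : e * e = 0) {f f' : Fin 7 → R} (h : IsTr e f f') (x : R) :
    dpol f' x = dpol f (x + e) := by
  have h1 : f' 1 = f 1 + e * (2 * f 2) := h 1
  have h2 : f' 2 = f 2 + e * (3 * f 3) := h 2
  have h3 : f' 3 = f 3 + e * (4 * f 4) := h 3
  have h4 : f' 4 = f 4 + e * (5 * f 5) := h 4
  have h5 : f' 5 = f 5 + e * (6 * f 6) := h 5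
  have h6 : f' 6 = f 6 + e * 0 := h 6
  simp only [dpol, h1, h2, h3, h4, h5, h6]
  linear_combination (-(3 * f 3 + 4 * f 4 * (3 * x + e) +
    5 * f 5 * (6 * x ^ 2 + 4 * x * e + e ^ 2) +
    6 * f 6 * (10 * x ^ 3 + 10 * x ^ 2 * e + 5 * x * e ^ 2 + e ^ 3))) * he

theorem pol_trq {e : R} (he : e * e = 0) {f f' : Fin 7 → R} (h : IsTr e f f') (u : R) :
    (1 - 6 * e * u) * pol (rev f') u = pol (rev f) (u - e * u ^ 2) := by
  have h0 : f' 0 = f 0 + e * f 1 := h 0
  have h1 : f' 1 = f 1 + e * (2 * f 2) := h 1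
  have h2 : f' 2 = f 2 + e * (3 * f 3) := h 2
  have h3 : f' 3 = f 3 + e * (4 * f 4) := h 3
  have h4 : f' 4 = f 4 + e * (5 * f 5) := h 4
  have h5 : f' 5 = f 5 + e * (6 * f 6) := h 5
  have h6 : f' 6 = f 6 + e * 0 := h 6
  have e0 : rev f 0 = f 6 := rfl
  have e1 : rev f 1 = f 5 := rfl
  have e2 : rev f 2 = f 4 := rfl
  have e3 : rev f 3 = f 3 := rfl
  have e4 : rev f 4 = f 2 := rfl
  have e5 : rev f 5 = f 1 := rfl
  have e6 : rev f 6 = f 0 := rfl
  have g0 : rev f' 0 = f' 6 := rfl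
  have g1 : rev f' 1 = f' 5 := rfl
  have g2 : rev f' 2 = f' 4 := rfl
  have g3 : rev f' 3 = f' 3 := rfl
  have g4 : rev f' 4 = f' 2 := rfl
  have g5 : rev f' 5 = f' 1 := rfl
  have g6 : rev f' 6 = f' 0 := rfl
  have q2 : (u - e * u ^ 2) ^ 2 = u ^ 2 - 2 * e * u ^ 3 := by linear_combination u ^ 4 * he
  have q3 : (u - e * u ^ 2) ^ 3 = u ^ 3 - 3 * e * u ^ 4 := by
    rw [pow_succ, q2]
    linear_combination 2 * u ^ 5 * he
  have q4 : (u - e * u ^ 2) ^ 4 = u ^ 4 - 4 * e * u ^ 5 := by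
    rw [pow_succ, q3]
    linear_combination 3 * u ^ 6 * he
  have q5 : (u - e * u ^ 2) ^ 5 = u ^ 5 - 5 * e * u ^ 6 := by
    rw [pow_succ, q4]
    linear_combination 4 * u ^ 7 * he
  have q6 : (u - e * u ^ 2) ^ 6 = u ^ 6 - 6 * e * u ^ 7 := by
    rw [pow_succ, q5]
    linear_combination 5 * u ^ 8 * he
  simp only [pol, e0, e1, e2, e3, e4, e5, e6, g0, g1, g2, g3, g4, g5, g6, h0, h1, h2, h3, h4, h5,
    h6, q2, q3, q4, q5, q6]
  linear_combination (-6 * u * (6 * f 6 * u + 5 * f 5 * u ^ 2 + 4 * f 4 * u ^ 3 +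
    3 * f 3 * u ^ 4 + 2 * f 2 * u ^ 5 + f 1 * u ^ 6)) * he

theorem dpol_trq {e : R} (he : e * e = 0) {f f' : Fin 7 → R} (h : IsTr e f f') (u : R) :
    (1 - 6 * e * u) * dpol (rev f') u - 6 * e * pol (rev f') u =
      (1 - 2 * e * u) * dpol (rev f) (u - e * u ^ 2) := by
  have h0 : f' 0 = f 0 + e * f 1 := h 0
  have h1 : f' 1 = f 1 + e * (2 * f 2) := h 1
  have h2 : f' 2 = f 2 + e * (3 * f 3) := h 2
  have h3 : f' 3 = f 3 + e * (4 * f 4) := h 3
  have h4 : f' 4 = f 4 + e * (5 * f 5) := h 4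
  have h5 : f' 5 = f 5 + e * (6 * f 6) := h 5
  have h6 : f' 6 = f 6 + e * 0 := h 6
  have e1 : rev f 1 = f 5 := rfl
  have e2 : rev f 2 = f 4 := rfl
  have e3 : rev f 3 = f 3 := rfl
  have e4 : rev f 4 = f 2 := rfl
  have e5 : rev f 5 = f 1 := rfl
  have e6 : rev f 6 = f 0 := rfl
  have g0 : rev f' 0 = f' 6 := rfl
  have g1 : rev f' 1 = f' 5 := rfl
  have g2 : rev f' 2 = f' 4 := rfl
  have g3 : rev f' 3 = f' 3 := rfl
  have g4 : rev f' 4 = f' 2 := rfl
  have g5 : rev f' 5 = f' 1 := rfl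
  have g6 : rev f' 6 = f' 0 := rfl
  have q2 : (u - e * u ^ 2) ^ 2 = u ^ 2 - 2 * e * u ^ 3 := by linear_combination u ^ 4 * he
  have q3 : (u - e * u ^ 2) ^ 3 = u ^ 3 - 3 * e * u ^ 4 := by
    rw [pow_succ, q2]
    linear_combination 2 * u ^ 5 * he
  have q4 : (u - e * u ^ 2) ^ 4 = u ^ 4 - 4 * e * u ^ 5 := by
    rw [pow_succ, q3]
    linear_combination 3 * u ^ 6 * he
  have q5 : (u - e * u ^ 2) ^ 5 = u ^ 5 - 5 * e * u ^ 6 := by
    rw [pow_succ, q4]
    linear_combination 4 * u ^ 7 * he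
  simp only [pol, dpol, e1, e2, e3, e4, e5, e6, g0, g1, g2, g3, g4, g5, g6, h0, h1, h2, h3,
    h4, h5, h6, q2, q3, q4, q5]
  linear_combination (-6 * u * (6 * f 6 + 10 * f 5 * u + 12 * f 4 * u ^ 2 + 12 * f 3 * u ^ 3 +
    10 * f 2 * u ^ 4 + 6 * f 1 * u ^ 5) - 6 * (6 * f 6 * u + 5 * f 5 * u ^ 2 + 4 * f 4 * u ^ 3 +
    3 * f 3 * u ^ 4 + 2 * f 2 * u ^ 5 + f 1 * u ^ 6) - 2 * u * (2 * f 4 * u ^ 2 +
    6 * f 3 * u ^ 3 + 12 * f 2 * u ^ 4 + 20 * f 1 * u ^ 5 + 30 * f 0 * u ^ 6)) * he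

theorem IsTr.neg {e : R} (he : e * e = 0) {f f' : Fin 7 → R} (h : IsTr e f f') :
    IsTr (-e) f' f := by
  have h0 : f' 0 = f 0 + e * f 1 := h 0
  have h1 : f' 1 = f 1 + e * (2 * f 2) := h 1
  have h2 : f' 2 = f 2 + e * (3 * f 3) := h 2
  have h3 : f' 3 = f 3 + e * (4 * f 4) := h 3
  have h4 : f' 4 = f 4 + e * (5 * f 5) := h 4
  have h5 : f' 5 = f 5 + e * (6 * f 6) := h 5
  have h6 : f' 6 = f 6 + e * 0 := h 6
  intro i
  fin_cases i
  · change f 0 = f' 0 + -e * f' 1
    linear_combination -h0 + e * h1 + 2 * f 2 * he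
  · change f 1 = f' 1 + -e * (2 * f' 2)
    linear_combination -h1 + 2 * e * h2 + 6 * f 3 * he
  · change f 2 = f' 2 + -e * (3 * f' 3)
    linear_combination -h2 + 3 * e * h3 + 12 * f 4 * he
  · change f 3 = f' 3 + -e * (4 * f' 4)
    linear_combination -h3 + 4 * e * h4 + 20 * f 5 * he
  · change f 4 = f' 4 + -e * (5 * f' 5)
    linear_combination -h4 + 5 * e * h5 + 30 * f 6 * he
  · change f 5 = f' 5 + -e * (6 * f' 6)
    linear_combination -h5 + 6 * e * h6
  · change f 6 = f' 6 + -e * 0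
    linear_combination -h6

theorem IsTr.map {R' : Type} [CommRing R'] (φ : R →+* R') {e : R} {f f' : Fin 7 → R}
    (h : IsTr e f f') : IsTr (φ e) (fun i => φ (f i)) (fun i => φ (f' i)) := by
  intro i
  change φ (f' i) = φ (f i) + φ e * dtr (fun i => φ (f i)) i
  have h1 : φ (dtr f i) = dtr (fun i => φ (f i)) i := by
    fin_cases i <;> simp [dtr, map_ofNat]
  rw [h i, map_add, map_mul, h1]

end alg

section

variable {B : Type} [CommRing B] {e : B} {f f' : Fin 7 → B}

theorem alg_sq {S : Type} [CommRing S] (c : B →+* S) (he : e * e = 0) : c e * c e = 0 := by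
  rw [← map_mul, he, map_zero]

/-- `x ↦ x + e`, `y ↦ y`. -/
noncomputable def tr1 (he : e * e = 0) (h : IsTr e f f') : A1 B f →+* A1 B f' :=
  lift1 (algebraMap B _) (x1 B f' + algebraMap B _ e) (y1 B f') (by
    rw [rel1]
    exact pol_tr (alg_sq _ he) (h.map (algebraMap B (A1 B f'))) _)

/-- `u ↦ u - e u²`, `v ↦ (1 - 3 e u) v`. -/
noncomputable def trq (he : e * e = 0) (h : IsTr e f f') : A2 B f →+* A2 B f' :=
  lift1 (algebraMap B _) (x1 B (rev f') - algebraMap B _ e * x1 B (rev f') ^ 2)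
    ((1 - 3 * algebraMap B _ e * x1 B (rev f')) * y1 B (rev f')) (by
    have h1 := pol_trq (alg_sq _ he) (h.map (algebraMap B (A2 B f'))) (x1 B (rev f'))
    have h2 := rel1 B (rev f')
    have h3 : ∀ g : Fin 7 → B, rev (fun i => algebraMap B (A2 B f') (g i)) =
        fun i => algebraMap B (A2 B f') (rev g i) := fun g => rfl
    rw [h3, h3] at h1
    rw [← h1, ← h2]
    linear_combination (9 * x1 B (rev f') ^ 2 * y1 B (rev f') ^ 2) *
      (alg_sq (algebraMap B (A2 B f')) he))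

section

variable (he : e * e = 0) (h : IsTr e f f')

@[simp]
theorem tr1_b (c : B) : tr1 he h (algebraMap B _ c) = algebraMap B _ c := lift1_b _ _ _ _ _

@[simp]
theorem tr1_x : tr1 he h (x1 B f) = x1 B f' + algebraMap B _ e := lift1_x _ _ _ _

@[simp]
theorem tr1_y : tr1 he h (y1 B f) = y1 B f' := lift1_y _ _ _ _

@[simp]
theorem trq_b (c : B) : trq he h (algebraMap B _ c) = algebraMap B _ c := lift1_b _ _ _ _ _

@[simp]
theorem trq_x : trq he h (x1 B (rev f)) =
    x1 B (rev f') - algebraMap B _ e * x1 B (rev f') ^ 2 := lift1_x _ _ _ _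

@[simp]
theorem trq_y : trq he h (y1 B (rev f)) =
    (1 - 3 * algebraMap B _ e * x1 B (rev f')) * y1 B (rev f') := lift1_y _ _ _ _

end

/-- `x + e` as a unit. -/
noncomputable def utr {S : Type} [CommRing S] (x : Sˣ) (e : S) (he : e * e = 0) : Sˣ where
  val := x + e
  inv := x⁻¹ - e * (x⁻¹ : Sˣ) ^ 2
  val_inv := by
    have h : (x : S) * (x⁻¹ : Sˣ) = 1 := Units.mul_inv x
    linear_combination (1 - e * (x⁻¹ : Sˣ)) * h - ((x⁻¹ : Sˣ) : S) ^ 2 * he
  inv_val := by
    have h : (x : S) * (x⁻¹ : Sˣ) = 1 := Units.mul_inv x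
    linear_combination (1 - e * (x⁻¹ : Sˣ)) * h - ((x⁻¹ : Sˣ) : S) ^ 2 * he

/-- `u - e u²` as a unit. -/
noncomputable def utq {S : Type} [CommRing S] (u : Sˣ) (e : S) (he : e * e = 0) : Sˣ where
  val := u - e * u ^ 2
  inv := (u⁻¹ : Sˣ) + e
  val_inv := by
    have h : (u : S) * (u⁻¹ : Sˣ) = 1 := Units.mul_inv u
    linear_combination (1 - e * u) * h - (u : S) ^ 2 * he
  inv_val := by
    have h : (u : S) * (u⁻¹ : Sˣ) = 1 := Units.mul_inv u
    linear_combination (1 - e * u) * h - (u : S) ^ 2 * he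

/-- `x ↦ x + e`, `y ↦ y` on the intersection. -/
noncomputable def tr12 (he : e * e = 0) (h : IsTr e f f') : A12 B f →+* A12 B f' :=
  lift12 (algebraMap B _) (utr (xu B f') (algebraMap B _ e) (alg_sq _ he)) (yv B f') (by
    rw [rel12]
    exact pol_tr (alg_sq _ he) (h.map (algebraMap B (A12 B f'))) _)

/-- `u ↦ u - e u²`, `v ↦ (1 - 3 e u) v` on the intersection. -/
noncomputable def trE (he : e * e = 0) (h : IsTr e f f') : A12 B (rev f) →+* A12 B (rev f') :=
  lift12 (algebraMap B _) (utq (xu B (rev f')) (algebraMap B _ e) (alg_sq _ he))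
    ((1 - 3 * algebraMap B _ e * (xu B (rev f') : A12 B (rev f'))) * yv B (rev f')) (by
    have h1 := pol_trq (alg_sq _ he) (h.map (algebraMap B (A12 B (rev f'))))
      (xu B (rev f') : A12 B (rev f'))
    have h2 := rel12 B (rev f')
    have h3 : ∀ g : Fin 7 → B, rev (fun i => algebraMap B (A12 B (rev f')) (g i)) =
        fun i => algebraMap B (A12 B (rev f')) (rev g i) := fun g => rfl
    rw [h3, h3] at h1
    refine Eq.trans ?_ h1
    rw [← h2]
    linear_combination (9 * (xu B (rev f') : A12 B (rev f')) ^ 2 * yv B (rev f') ^ 2) *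
      (alg_sq (algebraMap B (A12 B (rev f'))) he))

section

variable (he : e * e = 0) (h : IsTr e f f')

@[simp]
theorem tr12_b (c : B) : tr12 he h (algebraMap B _ c) = algebraMap B _ c := lift12_b _ _ _ _ _

@[simp]
theorem tr12_x : tr12 he h (xu B f : A12 B f) = (xu B f' : A12 B f') + algebraMap B _ e :=
  lift12_x _ _ _ _

@[simp]
theorem tr12_xi : tr12 he h ((xu B f)⁻¹ : (A12 B f)ˣ).val =
    ((xu B f')⁻¹ : (A12 B f')ˣ).val - algebraMap B _ e * ((xu B f')⁻¹ : (A12 B f')ˣ).val ^ 2 :=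
  lift12_xi _ _ _ _

@[simp]
theorem tr12_y : tr12 he h (yv B f) = yv B f' := lift12_y _ _ _ _

@[simp]
theorem trE_b (c : B) : trE he h (algebraMap B _ c) = algebraMap B _ c := lift12_b _ _ _ _ _

@[simp]
theorem trE_x : trE he h (xu B (rev f) : A12 B (rev f)) = (xu B (rev f') : A12 B (rev f')) -
    algebraMap B _ e * (xu B (rev f') : A12 B (rev f')) ^ 2 :=
  lift12_x _ _ _ _

@[simp]
theorem trE_xi : trE he h ((xu B (rev f))⁻¹ : (A12 B (rev f))ˣ).val =
    ((xu B (rev f'))⁻¹ : (A12 B (rev f'))ˣ).val + algebraMap B _ e :=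
  lift12_xi _ _ _ _

@[simp]
theorem trE_y : trE he h (yv B (rev f)) =
    (1 - 3 * algebraMap B _ e * (xu B (rev f') : A12 B (rev f'))) * yv B (rev f') :=
  lift12_y _ _ _ _

theorem tr12_g1 (v : A1 B f) : tr12 he h (g1 B f v) = g1 B f' (tr1 he h v) := by
  have : (tr12 he h).comp (g1 B f) = (g1 B f').comp (tr1 he h) := by
    refine hom1_ext ?_ ?_ ?_
    · intro c
      rw [RingHom.comp_apply, RingHom.comp_apply, g1_b, tr12_b, tr1_b, g1_b]
    · rw [RingHom.comp_apply, RingHom.comp_apply, tr1_x, ← xu_val, tr12_x, map_add, g1_b, xu_val]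
    · rw [RingHom.comp_apply, RingHom.comp_apply, tr1_y, g1_y, tr12_y, g1_y]
  exact congrArg (fun g => g v) this

theorem trE_g1 (v : A2 B f) : trE he h (g1 B (rev f) v) = g1 B (rev f') (trq he h v) := by
  have : (trE he h).comp (g1 B (rev f)) = (g1 B (rev f')).comp (trq he h) := by
    refine hom1_ext ?_ ?_ ?_
    · intro c
      rw [RingHom.comp_apply, RingHom.comp_apply, g1_b, trE_b, trq_b, g1_b]
    · rw [RingHom.comp_apply, RingHom.comp_apply, trq_x, ← xu_val, trE_x, map_sub, map_mul,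
        map_pow, g1_b, xu_val]
    · rw [RingHom.comp_apply, RingHom.comp_apply, trq_y, g1_y, trE_y, map_mul, map_sub, map_mul,
        map_mul, map_one, map_ofNat, g1_b, xu_val, g1_y]
  exact congrArg (fun g => g v) this

theorem trE_inv (v : A12 B f) : trE he h (inv12 (rev_h' f) v) =
    inv12 (rev_h' f') (tr12 he h v) := by
  have : (trE he h).comp (inv12 (rev_h' f)) = (inv12 (rev_h' f')).comp (tr12 he h) := by
    refine hom12_ext ?_ ?_ ?_
    · intro c
      simp
    · simp only [RingHom.comp_apply, inv12_x, trE_xi, tr12_x, map_add, inv12_b]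
    · simp only [RingHom.comp_apply, inv12_y, tr12_y, map_mul, trE_y, Units.val_pow_eq_pow_val,
        map_pow, trE_xi]
      set u : A12 B (rev f') := (xu B (rev f') : A12 B (rev f')) with hu
      set w : A12 B (rev f') := ((xu B (rev f'))⁻¹ : (A12 B (rev f'))ˣ).val with hw
      set c : A12 B (rev f') := algebraMap B (A12 B (rev f')) e with hc
      have h1 : u * w = 1 := Units.mul_inv _
      have h2 : c * c = 0 := alg_sq _ he
      have h3 : (w + c) ^ 3 = w ^ 3 + 3 * c * w ^ 2 := by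
        linear_combination (3 * w + c) * h2
      rw [h3]
      linear_combination (-3 * c * w ^ 2 * yv B (rev f')) * h1 -
        (9 * u * w ^ 2 * yv B (rev f')) * h2
  exact congrArg (fun g => g v) this

end

end

end Pool.Agent.MG.H2


end

section

set_option autoImplicit false

/-!
# NQY: the elements `q` and `y` at the node, over a field
-/

open Polynomial

namespace Pool.Agent.MG.G0

namespace NQY

variable {I κ : Type} [Field κ] {R : Subalgebra κ (KK I κ)}

theorem mem_Ipt {J : Type} {pt : J → FPt R} {s : R} : s ∈ Ipt pt ↔ ∀ b, (pt b).ev s = 0 := by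
  rw [Ipt, Ideal.mem_iInf]
  rfl

theorem ev_eq (p : FPt R) (s : R) : p.ev s = PowerSeries.coeff 0 (p.h s) := by
  rw [FPt.ev, PowerSeries.coeff_zero_eq_constantCoeff_apply]

theorem h_algebraMap (p : FPt R) (a : κ) : p.h (algebraMap κ R a) = PowerSeries.C a := by
  rw [AlgHom.commutes]
  rfl

theorem ev_mul (p : FPt R) (s t : R) : p.ev (s * t) = p.ev s * p.ev t := by
  rw [FPt.ev, map_mul, map_mul]
  rfl

theorem ev_sub (p : FPt R) (s t : R) : p.ev (s - t) = p.ev s - p.ev t := by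
  rw [FPt.ev, map_sub, map_sub]
  rfl

theorem ev_one (p : FPt R) : p.ev 1 = 1 := by
  rw [FPt.ev, map_one, map_one]

/-- the coefficient of `u` of a product if the second factor vanishes at the point -/
theorem coeff_one_mul (p : FPt R) (s t : R) (h : p.ev t = 0) :
    PowerSeries.coeff 1 (p.h (s * t)) = p.ev s * PowerSeries.coeff 1 (p.h t) := by
  rw [map_mul, PowerSeries.coeff_mul, Finset.Nat.antidiagonal_succ]
  simp only [Finset.Nat.antidiagonal_zero, Finset.map_singleton, Finset.sum_cons,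
    Finset.sum_singleton]
  rw [ev_eq] at h ⊢
  simp [h]

/-- division by an element with expansion `u` -/
theorem coeff_one_eq (p : FPt R) {z r s : R} (hz : p.h z = PowerSeries.X) (h : s = z * r) :
    PowerSeries.coeff 1 (p.h s) = p.ev r := by
  rw [h, map_mul, hz, show (1 : ℕ) = 0 + 1 from rfl, PowerSeries.coeff_succ_X_mul, ev_eq]

end NQY

open _root_.Pool.Agent.MG.G0.NQY in
/-- NQY: the elements `q` and `y` at the node, over a field. -/
theorem t_NQY (hAYE : Stmt_AYE) : Stmt_NQY := by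
  intro I κ _ _ _ g R pt c z h2 hKr hSm hDisj hz
  obtain ⟨-, -, hpre, y₀, e, -, hy₀, he, -, -, hu, hdiv⟩ := hAYE hKr hSm pt hDisj
  rw [mem_Ipt] at hy₀ he
  have hzc : ∀ b, (pt b).h (z - algebraMap κ R c) = PowerSeries.X := by
    intro b
    rw [map_sub, hz, h_algebraMap, add_sub_cancel_left]
  have hzJ : z - algebraMap κ R c ∈ Ipt pt := by
    rw [mem_Ipt]
    intro b
    rw [FPt.ev, hzc, PowerSeries.constantCoeff_X]
  obtain ⟨r₀, hr₀⟩ := hdiv _ hzJ
  have hev : ∀ b, PowerSeries.coeff 1 ((pt b).h y₀) * (pt b).ev r₀ = 1 := by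
    intro b
    have h1 : PowerSeries.coeff 1 ((pt b).h ((1 - e) * (z - algebraMap κ R c))) =
      PowerSeries.coeff 1 ((pt b).h (y₀ * r₀)) := by rw [hr₀]
    rw [coeff_one_mul _ _ _ (mem_Ipt.1 hzJ b), hzc, PowerSeries.coeff_one_X, mul_one, ev_sub,
      ev_one, he b, sub_zero, mul_comm y₀ r₀, coeff_one_mul _ _ _ (hy₀ b)] at h1
    rw [h1, mul_comm]
  obtain ⟨w, hw⟩ := hpre 1 fun b => PowerSeries.C (PowerSeries.coeff 1 ((pt b).h y₀))
  obtain ⟨y, hy⟩ := hpre 2 fun b => if b = true then PowerSeries.X else -PowerSeries.X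
  have hw' : ∀ b, (pt b).ev w = PowerSeries.coeff 1 ((pt b).h y₀) := by
    intro b
    rw [ev_eq, hw b 0 (by norm_num)]
    simp
  have hq : ∀ b, (pt b).ev ((1 - e) * r₀ * w) = 1 := by
    intro b
    rw [ev_mul, ev_mul, ev_sub, ev_one, he b, sub_zero, one_mul, hw' b, mul_comm, hev b]
  have hyev : ∀ b, (pt b).ev y = 0 := by
    intro b
    rw [ev_eq, hy b 0 (by norm_num)]
    cases b <;> simp
  have hyt : PowerSeries.coeff 1 ((pt true).h y) = 1 := by
    rw [hy true 1 (by norm_num)]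
    simp
  have hyf : PowerSeries.coeff 1 ((pt false).h y) = -1 := by
    rw [hy false 1 (by norm_num)]
    simp
  refine ⟨(1 - e) * r₀ * w, y, hq, hyev, hyt, hyf, fun x hx => ?_⟩
  set α := (pt true).ev x with hα
  set β := (PowerSeries.coeff 1 ((pt true).h x) - PowerSeries.coeff 1 ((pt false).h x)) / 2
    with hβ
  have hc0 : ∀ b, (pt b).ev x = α := by
    intro b
    cases b
    · exact hx.symm
    · rfl
  have hsJ : x - algebraMap κ R α - β • y ∈ Ipt pt := by
    rw [mem_Ipt]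
    intro b
    rw [ev_sub, ev_sub, hc0 b, FPt.ev, h_algebraMap, PowerSeries.constantCoeff_C, sub_self,
      zero_sub, neg_eq_zero, FPt.ev, map_smul, PowerSeries.constantCoeff_smul]
    have h3 := hyev b
    rw [FPt.ev] at h3
    rw [h3, smul_zero]
  obtain ⟨r, hr⟩ := hdiv _ hsJ
  refine ⟨α, β, (1 - e) * r * w, ?_, ?_⟩
  · have key : (1 - e) * r₀ * w * (x - algebraMap κ R α - β • y) =
        (z - algebraMap κ R c) * ((1 - e) * r * w) := by
      linear_combination r₀ * w * hr - r * w * hr₀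
    have hco : ∀ b, (pt b).ev ((1 - e) * r * w) =
        PowerSeries.coeff 1 ((pt b).h (x - algebraMap κ R α - β • y)) := by
      intro b
      rw [← coeff_one_eq (pt b) (hzc b) key, coeff_one_mul _ _ _ (mem_Ipt.1 hsJ b), hq b, one_mul]
    have hexp : ∀ b, PowerSeries.coeff 1 ((pt b).h (x - algebraMap κ R α - β • y)) =
        PowerSeries.coeff 1 ((pt b).h x) - β * PowerSeries.coeff 1 ((pt b).h y) := by
      intro b
      rw [map_sub, map_sub, map_sub, map_sub, h_algebraMap, map_smul, PowerSeries.coeff_C,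
        if_neg one_ne_zero, sub_zero, PowerSeries.coeff_smul, smul_eq_mul]
    rw [hco, hco, hexp, hexp, hyt, hyf]
    have h4 : β * 2 = PowerSeries.coeff 1 ((pt true).h x) - PowerSeries.coeff 1 ((pt false).h x) :=
      div_mul_cancel₀ _ h2
    linear_combination -h4
  · linear_combination r₀ * w * hr - r * w * hr₀

end Pool.Agent.MG.G0


end

section

/-!
# REM: removing a puncture
-/

namespace Pool.Agent.MG.G0

namespace REM

section

variable {I A B : Type} [CommRing A] [CommRing B]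

/-- Extension by zero at the additional puncture. -/
noncomputable def ext (I A : Type) [CommRing A] : KK I A →ₗ[A] KK (I ⊕ Unit) A where
  toFun f := Sum.elim f fun _ => 0
  map_add' f g := by
    funext k
    rcases k with i | j
    · rfl
    · change (0 : LaurentSeries A) = 0 + 0
      rw [add_zero]
  map_smul' a f := by
    funext k
    rcases k with i | j
    · rfl
    · change (0 : LaurentSeries A) = a • 0
      rw [smul_zero]

theorem ext_inl (f : KK I A) (i : I) : ext I A f (Sum.inl i) = f i := rfl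

theorem ext_inr (f : KK I A) (j : Unit) : ext I A f (Sum.inr j) = 0 := rfl

theorem mem_Rem {W : Subalgebra A (KK (I ⊕ Unit) A)} {f : KK I A} :
    f ∈ Rem W ↔ ∃ w ∈ W, (∀ j : Unit, ∀ m < 0, (w (Sum.inr j)).coeff m = 0) ∧
      ∀ i, w (Sum.inl i) = f i := Iff.rfl

theorem L_Pol0 {h : ℕ} {W : Subalgebra A (KK (I ⊕ Unit) A)}
    {L : KK (I ⊕ Unit) A →ₗ[A] (Fin h → A)}
    (hL : ∀ f, L f = 0 ↔ ∃ p ∈ W, f - p ∈ Pol (I ⊕ Unit) A 0) {f : KK (I ⊕ Unit) A}
    (hf : f ∈ Pol (I ⊕ Unit) A 0) : L f = 0 :=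
  (hL f).2 ⟨0, zero_mem W, by rwa [sub_zero]⟩

theorem L_W {h : ℕ} {W : Subalgebra A (KK (I ⊕ Unit) A)}
    {L : KK (I ⊕ Unit) A →ₗ[A] (Fin h → A)}
    (hL : ∀ f, L f = 0 ↔ ∃ p ∈ W, f - p ∈ Pol (I ⊕ Unit) A 0) {f : KK (I ⊕ Unit) A}
    (hf : f ∈ W) : L f = 0 :=
  (hL f).2 ⟨f, hf, by rw [sub_self]; exact zero_mem _⟩

theorem isKr_Rem {h : ℕ} {W : Subalgebra A (KK (I ⊕ Unit) A)} (hW : IsKr h W) (hD : Dns W) :
    IsKr h (Rem W) := by
  refine ⟨?_, ?_⟩
  · rintro f ⟨w, hw, h1, h2⟩ hf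
    obtain ⟨a, ha⟩ := hW.k1 w hw (by
      intro k m hm
      rcases k with i | j
      · rw [h2]
        exact hf i m hm
      · exact h1 j m (by omega))
    refine ⟨a, ?_⟩
    funext i
    rw [← h2, ha]
    rfl
  · obtain ⟨L, hs, hL⟩ := hW.k2
    refine ⟨L ∘ₗ ext I A, ?_, ?_⟩
    · intro c
      obtain ⟨F, hF⟩ := hs c
      obtain ⟨w, hw, hwF⟩ := hD (F (Sum.inr ()))
      refine ⟨fun i => (F - w) (Sum.inl i), ?_⟩
      rw [LinearMap.comp_apply]
      have h1 : (F - w) - ext I A (fun i => (F - w) (Sum.inl i)) ∈ Pol (I ⊕ Unit) A 0 := by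
        intro k m hm
        rcases k with i | j
        · rw [Pi.sub_apply, ext_inl, sub_self, HahnSeries.coeff_zero]
        · rw [Pi.sub_apply, ext_inr, sub_zero, Pi.sub_apply, HahnSeries.coeff_sub]
          rw [hwF m (by omega), sub_self]
      have h2 := L_Pol0 hL h1
      rw [map_sub, map_sub, L_W hL hw, sub_zero, hF, sub_eq_zero] at h2
      exact h2.symm
    · intro f
      rw [LinearMap.comp_apply, hL]
      constructor
      · rintro ⟨p, hp, hfp⟩
        refine ⟨fun i => p (Sum.inl i), ⟨p, hp, fun j m hm => ?_, fun i => rfl⟩, fun i m hm => ?_⟩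
        · have h3 := hfp (Sum.inr j) m (by omega)
          rw [Pi.sub_apply, ext_inr, zero_sub, HahnSeries.coeff_neg, neg_eq_zero] at h3
          exact h3
        · exact hfp (Sum.inl i) m hm
      · rintro ⟨p, ⟨w, hw, h1, h2⟩, hfp⟩
        refine ⟨w, hw, ?_⟩
        intro k m hm
        rcases k with i | j
        · rw [Pi.sub_apply, ext_inl, h2]
          exact hfp i m hm
        · rw [Pi.sub_apply, ext_inr, zero_sub, HahnSeries.coeff_neg, h1 j m (by omega), neg_zero]

/-- Combinations of elements with monomial principal part at the additional puncture. -/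
theorem comb_coeff (n : ℕ) (w : ℤ → KK (I ⊕ Unit) A) (c : ℤ → A) (l : ℤ) :
    ((∑ m ∈ Finset.Ico (-(n : ℤ)) 0, c m • w m) (Sum.inr ())).coeff l =
      ∑ m ∈ Finset.Ico (-(n : ℤ)) 0, c m * (w m (Sum.inr ())).coeff l := by
  rw [Finset.sum_apply, HahnSeries.coeff_sum]
  refine Finset.sum_congr rfl fun m _ => ?_
  rw [Pi.smul_apply, HahnSeries.coeff_smul, smul_eq_mul]

theorem sum_ind (n : ℕ) (c : ℤ → A) (l : ℤ) (hl : l < 0) (hc : ∀ m < -(n : ℤ), c m = 0) :
    ∑ m ∈ Finset.Ico (-(n : ℤ)) 0, c m * (if l = m then 1 else 0) = c l := by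
  simp only [mul_ite, mul_one, mul_zero]
  rw [Finset.sum_ite_eq]
  split_ifs with h
  · rfl
  · rw [Finset.mem_Ico] at h
    rw [hc l (by omega)]

theorem coeff_single' (m l : ℤ) :
    (HahnSeries.single m (1 : A) : LaurentSeries A).coeff l = if l = m then 1 else 0 := by
  rw [HahnSeries.coeff_single]
  split_ifs <;> rfl

theorem Dns_bc {W : Subalgebra A (KK (I ⊕ Unit) A)} (hD : Dns W) (φ : A →+* B) :
    Dns (bc φ W) := by
  intro f
  obtain ⟨n, hn⟩ := exists_low f
  choose w hw hwc using fun m : ℤ => hD (HahnSeries.single m (1 : A))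
  refine ⟨∑ m ∈ Finset.Ico (-(n : ℤ)) 0, f.coeff m • kmap φ (w m), ?_, ?_⟩
  · refine Subalgebra.sum_mem _ fun m _ => ?_
    exact Subalgebra.smul_mem _ (kmap_mem_bc φ (hw m)) _
  · intro l hl
    rw [comb_coeff]
    rw [← sum_ind n f.coeff l hl hn]
    refine Finset.sum_congr rfl fun m _ => ?_
    rw [kmap_apply, lmap_coeff, hwc m l hl, coeff_single']
    split_ifs <;> simp

theorem bc_Rem_le (W : Subalgebra A (KK (I ⊕ Unit) A)) (φ : A →+* B) :
    bc φ (Rem W) ≤ Rem (bc φ W) := by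
  refine Algebra.adjoin_le ?_
  rintro _ ⟨f, ⟨w, hw, h1, h2⟩, rfl⟩
  refine ⟨kmap φ w, kmap_mem_bc φ hw, fun j m hm => ?_, fun i => ?_⟩
  · rw [kmap_apply, lmap_coeff, h1 j m hm, map_zero]
  · rw [kmap_apply, kmap_apply, h2]

end

/-! ### Nilpotent thickenings -/

section

variable {I A B : Type} [CommRing A] [CommRing B]

theorem thick (hKBC : Stmt_KBC) {W : Subalgebra A (KK (I ⊕ Unit) A)} (φ : A →+* B)
    (hφ : Function.Surjective φ) (hn : ∃ n : ℕ, RingHom.ker φ ^ n = ⊥) (hD : Dns (bc φ W)) :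
    Dns W := by
  -- the elements of the base change are images
  have himg : ∀ v ∈ bc φ W, ∃ w ∈ W, kmap φ w = v := by
    intro v hv
    have h1 : v ∈ Subalgebra.toSubmodule (bc φ W) := hv
    rw [hKBC.1 φ W] at h1
    clear hv
    induction h1 using Submodule.span_induction with
    | mem x hx =>
      obtain ⟨w, hw, rfl⟩ := hx
      exact ⟨w, hw, rfl⟩
    | zero => exact ⟨0, zero_mem W, map_zero _⟩
    | add x y _ _ hx hy =>
      obtain ⟨a, ha, ha'⟩ := hx
      obtain ⟨b, hb, hb'⟩ := hy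
      exact ⟨a + b, add_mem ha hb, by rw [map_add, ha', hb']⟩
    | smul b x _ hx =>
      obtain ⟨w, hw, hw'⟩ := hx
      obtain ⟨a, rfl⟩ := hφ b
      exact ⟨a • w, W.smul_mem hw a, by rw [kmap_smul, hw']⟩
  have hmon : ∀ m : ℤ, ∃ w ∈ W, ∀ l < 0,
      (HahnSeries.single m (1 : A) : LaurentSeries A).coeff l - (w (Sum.inr ())).coeff l ∈
        RingHom.ker φ := by
    intro m
    obtain ⟨v, hv, hvc⟩ := hD (HahnSeries.single m (1 : B))
    obtain ⟨w, hw, rfl⟩ := himg v hv
    refine ⟨w, hw, fun l hl => ?_⟩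
    have h2 := hvc l hl
    rw [kmap_apply, lmap_coeff, coeff_single'] at h2
    rw [RingHom.mem_ker, map_sub, h2, coeff_single']
    split_ifs <;> simp
  choose w hw hwc using hmon
  have key : ∀ (k : ℕ) (f : LaurentSeries A), ∃ v ∈ W, ∀ l < 0,
      f.coeff l - (v (Sum.inr ())).coeff l ∈ RingHom.ker φ ^ k := by
    intro k
    induction k with
    | zero =>
      intro f
      exact ⟨0, zero_mem W, fun l _ => by rw [pow_zero, Ideal.one_eq_top]; exact Submodule.mem_top⟩
    | succ k ih =>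
      intro f
      obtain ⟨v, hv, hvc⟩ := ih f
      obtain ⟨n, hn⟩ := exists_low (f - v (Sum.inr ()))
      refine ⟨v + ∑ m ∈ Finset.Ico (-(n : ℤ)) 0, (f - v (Sum.inr ())).coeff m • w m,
        add_mem hv (Subalgebra.sum_mem _ fun m _ => Subalgebra.smul_mem _ (hw m) _), ?_⟩
      intro l hl
      rw [Pi.add_apply, HahnSeries.coeff_add, comb_coeff, ← sub_sub, ← HahnSeries.coeff_sub]
      nth_rewrite 1 [← sum_ind n (f - v (Sum.inr ())).coeff l hl hn]
      rw [← Finset.sum_sub_distrib]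
      refine Ideal.sum_mem _ fun m hm => ?_
      rw [← mul_sub, ← coeff_single', pow_succ]
      refine Ideal.mul_mem_mul ?_ (hwc m l hl)
      rw [Finset.mem_Ico] at hm
      rw [HahnSeries.coeff_sub]
      exact hvc m hm.2
  obtain ⟨n, hn⟩ := hn
  intro f
  obtain ⟨v, hv, hvc⟩ := key n f
  refine ⟨v, hv, fun m hm => ?_⟩
  have := hvc m hm
  rw [hn, Submodule.mem_bot, sub_eq_zero] at this
  exact this.symm

end

/-! ### Fields -/

section

variable {I κ : Type} [Field κ]

/-- A nonzero element which vanishes at the additional puncture. -/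
theorem exists_y [Nonempty I] {W : Subalgebra κ (KK (I ⊕ Unit) κ)} {N : ℕ} (hN : Dense W N) :
    ∃ y ∈ W, y ≠ 0 ∧ ∀ m ≤ 0, (y (Sum.inr ())).coeff m = 0 := by
  classical
  obtain ⟨i₀⟩ := (inferInstance : Nonempty I)
  choose p hp hpN using fun k : Fin (N + 2) =>
    hN (mon (Sum.inl i₀) (-((N : ℤ) + 1 + (k : ℕ))) (1 : κ))
  -- the coefficients of the order at most `N`
  have hJ : ∀ k, ∀ m < -(N : ℤ), (p k (Sum.inr ())).coeff m = 0 := by
    intro k m hm
    have h1 := hpN k (Sum.inr ()) m hm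
    rw [Pi.sub_apply, mon_of_ne (by simp), zero_sub, HahnSeries.coeff_neg, neg_eq_zero] at h1
    exact h1
  have hI : ∀ k, ∀ m < -(N : ℤ), (p k (Sum.inl i₀)).coeff m =
      if m = -((N : ℤ) + 1 + (k : ℕ)) then 1 else 0 := by
    intro k m hm
    have h1 := hpN k (Sum.inl i₀) m hm
    rw [Pi.sub_apply, HahnSeries.coeff_sub, mon_coeff_self, sub_eq_zero] at h1
    exact h1.symm
  -- the linear map
  let T : (Fin (N + 2) → κ) →ₗ[κ] (Fin (N + 1) → κ) :=
    { toFun := fun c j => ∑ k, c k * (p k (Sum.inr ())).coeff (-(j : ℕ) : ℤ)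
      map_add' := fun c c' => by
        funext j
        simp only [Pi.add_apply, add_mul, Finset.sum_add_distrib]
      map_smul' := fun a c => by
        funext j
        simp only [Pi.smul_apply, smul_eq_mul, RingHom.id_apply, Finset.mul_sum, mul_assoc] }
  have hker : ∃ c, T c = 0 ∧ c ≠ 0 := by
    by_contra hc
    push Not at hc
    have hinj : Function.Injective T := by
      rw [injective_iff_map_eq_zero]
      exact hc
    have := LinearMap.finrank_le_finrank_of_injective hinj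
    simp at this
  obtain ⟨c, hc, hc0⟩ := hker
  refine ⟨∑ k, c k • p k, Subalgebra.sum_mem _ fun k _ => Subalgebra.smul_mem _ (hp k) _, ?_, ?_⟩
  · intro h0
    obtain ⟨k, hk⟩ := Function.ne_iff.1 hc0
    apply hk
    have h1 := congrArg (fun f : KK (I ⊕ Unit) κ => (f (Sum.inl i₀)).coeff
      (-((N : ℤ) + 1 + (k : ℕ)))) h0
    simp only [Finset.sum_apply, HahnSeries.coeff_sum, Pi.smul_apply, HahnSeries.coeff_smul,
      smul_eq_mul, Pi.zero_apply, HahnSeries.coeff_zero] at h1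
    rw [Finset.sum_eq_single k] at h1
    · rw [hI k _ (by omega), if_pos rfl, mul_one] at h1
      exact h1
    · intro b _ hb
      rw [hI b _ (by omega), if_neg, mul_zero]
      intro h2
      apply hb
      ext
      omega
    · intro h2
      exact absurd (Finset.mem_univ k) h2
  · intro m hm
    simp only [Finset.sum_apply, HahnSeries.coeff_sum, Pi.smul_apply, HahnSeries.coeff_smul,
      smul_eq_mul]
    by_cases h1 : m < -(N : ℤ)
    · exact Finset.sum_eq_zero fun k _ => by rw [hJ k m h1, mul_zero]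
    · have h2 := congrFun hc ⟨(-m).toNat, by omega⟩
      simp only [T, LinearMap.coe_mk, AddHom.coe_mk, Pi.zero_apply] at h2
      have h3 : (-(((-m).toNat : ℕ) : ℤ)) = m := by omega
      rw [h3] at h2
      exact h2

theorem pow_low {f : LaurentSeries κ} (hf : ∀ m < 1, f.coeff m = 0) (n : ℕ) :
    ∀ m < (n : ℤ), (f ^ n).coeff m = 0 := by
  induction n with
  | zero =>
    intro m hm
    rw [pow_zero, HahnSeries.coeff_one, if_neg (by omega)]
  | succ n ih =>
    intro m hm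
    rw [pow_succ]
    exact mul_low ih hf m (by push_cast at hm; omega)

theorem field_Dns [Fintype I] [Nonempty I] {h : ℕ} (hKNZ : Stmt_KNZ) {W : Subalgebra κ (KK (I ⊕ Unit) κ)} (hW : IsKr h W)
    (hinj : ∀ w ∈ W, w (Sum.inr ()) = 0 → w = 0) : Dns W := by
  obtain ⟨N, hN⟩ := (hKNZ hW).1
  obtain ⟨y, hy, hy0, hyc⟩ := exists_y hN
  have hyJ : y (Sum.inr ()) ≠ 0 := fun h0 => hy0 (hinj y hy h0)
  intro f
  obtain ⟨p, hp, hpc⟩ := hN (Sum.elim (fun _ => 0) fun _ => (y (Sum.inr ()) ^ N)⁻¹ * f)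
  refine ⟨y ^ N * p, mul_mem (pow_mem hy N) hp, fun m hm => ?_⟩
  have h1 : ∀ m < -(N : ℤ), ((y (Sum.inr ()) ^ N)⁻¹ * f - p (Sum.inr ())).coeff m = 0 := by
    intro m hm
    exact hpc (Sum.inr ()) m hm
  have h2 : ∀ m < (N : ℤ), (y (Sum.inr ()) ^ N).coeff m = 0 :=
    pow_low (fun m hm => hyc m (by omega)) N
  have h3 := mul_low h2 h1 m (by omega)
  rw [mul_sub, ← mul_assoc, mul_inv_cancel₀ (pow_ne_zero _ hyJ), one_mul, HahnSeries.coeff_sub,
    sub_eq_zero] at h3
  rw [h3]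
  rfl

end

end REM

theorem t_REM (hKEQ : Stmt_KEQ) (hKBC : Stmt_KBC) (hKNZ : Stmt_KNZ) : Stmt_REM := by
  refine ⟨?_, ?_, ?_⟩
  · intro I A _ _ _ h W hW hD
    refine ⟨REM.isKr_Rem hW hD, ?_⟩
    intro B _ φ
    have hDB := REM.Dns_bc hD φ
    refine ⟨hDB, ?_⟩
    have h1 : IsKr h (bc φ (Rem W)) := (hKBC.2.2.2 (REM.isKr_Rem hW hD) φ).1
    have h2 : IsKr h (Rem (bc φ W)) := REM.isKr_Rem (hKBC.2.2.2 hW φ).1 hDB
    exact (hKEQ h1 h2 (REM.bc_Rem_le W φ)).symm
  · intro I κ _ _ _ h W hW hinj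
    exact REM.field_Dns hKNZ hW hinj
  · intro I A B _ _ _ _ h W _ φ hφ hn hD
    exact REM.thick hKBC φ hφ hn hD

end Pool.Agent.MG.G0


end
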