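import Mathlib
import Pool.Agent.KDM.C07
import Pool.Agent.KDM.C08
import Pool.Agent.KDM.C12
import Pool.Agent.KDM.C13
import Pool.Agent.KDM.C16
import Pool.Agent.KDM.C33

/-! Parts: MG.GLUM, MG.GLU, MG.KSU, MG.End, MG.CHB, MG.Bub.Chart, MG.Bub.Chart2, MG.Bub.Chart3, MG.Bub.Fam5, MG.CSTW, MG.G0.INT -/

section

/-!
# GLU, the glued thickening
-/

open CategoryTheory CategoryTheory.Limits AlgebraicGeometry TensorProduct

namespace Pool.Agent.MG.GLU

/-! ## Stability of thickenings -/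

section Stab

variable {n : ℕ} {B E J : Type} [CommRing B] [CommRing E] [Fintype J] {S : SqE B E J}
  {x : Fam n B} (t : Thk S x)

theorem fib_thk {K : Type} [Field K] (s : E →+* K) (z : Fam n K) (a : Arrow s z t.y) :
    Nonempty (Arrow (s.comp S.i) z x) := by
  have hs : spMap s = spMap (s.comp S.i) ≫ spMap S.p := by
    rw [← Spec.map_comp, ← CommRingCat.ofHom_comp]
    congr 2
    ext e
    change s e = s (S.i (S.p e))
    obtain ⟨b, hb⟩ := S.ex (e - S.i (S.p e)) (by rw [map_sub, S.pi, sub_self])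
    have h0 : ∀ j, s (S.ε j) = 0 := fun j => by
      have := congrArg s (S.mul j j)
      rw [map_mul, map_zero] at this
      exact mul_self_eq_zero.1 this
    have h1 := congrArg s hb
    rw [map_sub, map_sum] at h1
    have h2 : ∑ j, s (S.ε j * S.i (b j)) = 0 :=
      Finset.sum_eq_zero fun j _ => by rw [map_mul, h0, zero_mul]
    rw [h2] at h1
    exact sub_eq_zero.1 h1
  have hw : a.f ≫ t.y.π = (z.π ≫ spMap (s.comp S.i)) ≫ spMap S.p := by
    rw [a.cart.w, hs, Category.assoc]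
  let l := t.r.cart.lift a.f (z.π ≫ spMap (s.comp S.i)) hw
  have hl1 : l ≫ t.r.f = a.f := t.r.cart.lift_fst _ _ _
  have hl2 : l ≫ x.π = z.π ≫ spMap (s.comp S.i) := t.r.cart.lift_snd _ _ _
  refine ⟨⟨l, ?_, ?_⟩⟩
  · refine IsPullback.of_right (h₁₂ := t.r.f) (v₁₃ := t.y.π) (h₂₂ := spMap S.p) ?_ hl2 t.r.cart
    rw [hl1, ← hs]
    exact a.cart
  · intro i
    apply t.r.cart.hom_ext
    · rw [Category.assoc, hl1, a.sec, hs, Category.assoc, Category.assoc, t.r.sec]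
    · rw [Category.assoc, hl2, ← Category.assoc, z.sec, Category.id_comp, Category.assoc, x.sec,
        Category.comp_id]

theorem stable_thk {g : ℕ} (hx : IsStable g x) (fp : LocallyOfFinitePresentation t.y.π) :
    IsStable g t.y where
  proper := by
    have hc : t.r.f ≫ t.y.π = x.π ≫ spMap S.p := t.r.cart.w
    haveI := hx.proper
    haveI : IsProper (t.r.f ≫ t.y.π) := by
      rw [hc]
      infer_instance
    haveI : IsSeparated (t.r.f ≫ t.y.π) := inferInstance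
    haveI : UniversallyClosed (t.r.f ≫ t.y.π) := inferInstance
    haveI h1 := sep_of_surj t.r.f t.y.π
    haveI h2 := UniversallyClosed.of_comp_surjective t.r.f t.y.π
    exact { }
  flat := t.flat
  fp := fp
  fib K _ _ s z := by
    rintro ⟨a⟩
    exact hx.fib K (s.comp S.i) z (fib_thk t s z a)

end Stab

/-! ## Affine pieces -/

theorem spMap_id_comp {R : Type} [CommRing R] {X : Scheme.{0}} (f : Sp R ⟶ X) :
    spMap (RingHom.id R) ≫ f = f := by
  have : spMap (RingHom.id R) = 𝟙 _ := Spec.map_id _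
  rw [this, Category.id_comp]

section W

variable {X : Scheme.{0}} {U : X.Opens} (hU : IsAffineOpen U) {R : Type} [CommRing R]
  (e : Γ(X, U) ≃+* R)

/-- The inclusion of an affine piece with given ring of functions. -/
noncomputable def ww : Sp R ⟶ X := spMap (e : Γ(X, U) →+* R) ≫ hU.fromSpec

instance ww_iso : IsIso (spMap (e : Γ(X, U) →+* R)) := by
  have : IsIso (CommRingCat.ofHom (e : Γ(X, U) →+* R)) :=
    inferInstanceAs (IsIso e.toCommRingCatIso.hom)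
  infer_instance

instance ww_open : IsOpenImmersion (ww hU e) := by
  unfold ww
  infer_instance

theorem ww_range : (ww hU e).opensRange = U := by
  ext z
  constructor
  · rintro ⟨a, rfl⟩
    change ((spMap (e : Γ(X, U) →+* R) ≫ hU.fromSpec) a) ∈ U
    rw [Scheme.Hom.comp_apply]
    have : hU.fromSpec (spMap (e : Γ(X, U) →+* R) a) ∈ Set.range hU.fromSpec := ⟨_, rfl⟩
    rw [hU.range_fromSpec] at this
    exact this
  · intro hz
    have : z ∈ Set.range hU.fromSpec := by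
      rw [hU.range_fromSpec]
      exact hz
    obtain ⟨b, rfl⟩ := this
    obtain ⟨a, rfl⟩ := (spMap (e : Γ(X, U) →+* R)).surjective b
    exact ⟨a, by unfold ww; rw [Scheme.Hom.comp_apply]⟩

theorem ww_le : ⊤ ≤ ww hU e ⁻¹ᵁ U := by
  intro a _
  have : ww hU e a ∈ (ww hU e).opensRange := ⟨a, rfl⟩
  rw [ww_range] at this
  exact this

theorem ww_gm (h : ⊤ ≤ ww hU e ⁻¹ᵁ U) (v : Γ(X, U)) : gm (ww hU e) U h v = e v := by
  have h0 : ⊤ ≤ hU.fromSpec ⁻¹ᵁ U := hU.fromSpec_preimage_self.ge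
  have := gm_comp (A := Γ(X, U)) hU.fromSpec (e : Γ(X, U) →+* R) (ww hU e) rfl U h0 h v
  rw [this, gm_fromSpec]
  rfl

theorem ww_eq {A : Type} [CommRing A] (f : Sp A ⟶ X) (h : ⊤ ≤ f ⁻¹ᵁ U) (u : R →+* A)
    (hu : ∀ v, gm f U h v = u (e v)) : f = spMap u ≫ ww hU e := by
  have h1 := eq_fromSpec f U hU h
  rw [h1]
  unfold ww
  rw [← Category.assoc, ← Spec.map_comp, ← CommRingCat.ofHom_comp]
  congr 3
  ext v
  exact hu v

end W

section Base

variable {n : ℕ} {k : Type} [Field k] {T : TC k} {C : Fam n k} (ct : Charted T C)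

/-- Functions on the first chart. -/
noncomputable def ee1 : Γ(C.X, ct.U1) ≃+* T.R1 :=
  ct.eq1.symm.trans (Algebra.TensorProduct.lid k T.R1).toRingEquiv

/-- Functions on the second chart. -/
noncomputable def ee2 : Γ(C.X, ct.U2) ≃+* T.R2 :=
  ct.eq2.symm.trans (Algebra.TensorProduct.lid k T.R2).toRingEquiv

/-- Functions on the intersection. -/
noncomputable def ee12 : Γ(C.X, ct.U1 ⊓ ct.U2) ≃+* T.R12 :=
  ct.eq12.symm.trans (Algebra.TensorProduct.lid k T.R12).toRingEquiv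

theorem one_lid {R : Type} [CommRing R] [Algebra k R] (v : k ⊗[k] R) :
    v = 1 ⊗ₜ (Algebra.TensorProduct.lid k R v) :=
  ((Algebra.TensorProduct.lid k R).symm_apply_apply v).symm

theorem ee1_eq (v : Γ(C.X, ct.U1)) : ct.eq1.symm v = 1 ⊗ₜ ee1 ct v := one_lid _

theorem ee2_eq (v : Γ(C.X, ct.U2)) : ct.eq2.symm v = 1 ⊗ₜ ee2 ct v := one_lid _

theorem ee12_eq (v : Γ(C.X, ct.U1 ⊓ ct.U2)) : ct.eq12.symm v = 1 ⊗ₜ ee12 ct v := one_lid _

theorem t1_ee1 (v : Γ(C.X, ct.U1)) : ct.t1 (1 ⊗ₜ ee1 ct v) = v := by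
  rw [← ee1_eq]
  exact ct.eq1.apply_symm_apply v

theorem t2_ee2 (v : Γ(C.X, ct.U2)) : ct.t2 (1 ⊗ₜ ee2 ct v) = v := by
  rw [← ee2_eq]
  exact ct.eq2.apply_symm_apply v

theorem ee1_t1 (a : T.R1) : ee1 ct (ct.t1 (1 ⊗ₜ a)) = a := by
  have : ct.eq1.symm (ct.t1 (1 ⊗ₜ a)) = 1 ⊗ₜ a := ct.eq1.symm_apply_apply _
  change Algebra.TensorProduct.lid k T.R1 (ct.eq1.symm (ct.t1 (1 ⊗ₜ a))) = a
  rw [this]
  simp

theorem ee2_t2 (a : T.R2) : ee2 ct (ct.t2 (1 ⊗ₜ a)) = a := by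
  have : ct.eq2.symm (ct.t2 (1 ⊗ₜ a)) = 1 ⊗ₜ a := ct.eq2.symm_apply_apply _
  change Algebra.TensorProduct.lid k T.R2 (ct.eq2.symm (ct.t2 (1 ⊗ₜ a))) = a
  rw [this]
  simp

theorem ee12_t12 (a : T.R12) : ee12 ct (ct.t12 (1 ⊗ₜ a)) = a := by
  have : ct.eq12.symm (ct.t12 (1 ⊗ₜ a)) = 1 ⊗ₜ a := ct.eq12.symm_apply_apply _
  change Algebra.TensorProduct.lid k T.R12 (ct.eq12.symm (ct.t12 (1 ⊗ₜ a))) = a
  rw [this]
  simp

theorem ee_rs1 (v : Γ(C.X, ct.U1)) : ee12 ct (rs C.X inf_le_left v) = T.j1 (ee1 ct v) := by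
  conv_lhs => rw [← t1_ee1 ct v]
  rw [ct.r1, ee12_t12]

theorem ee_rs2 (v : Γ(C.X, ct.U2)) : ee12 ct (rs C.X inf_le_right v) = T.j2 (ee2 ct v) := by
  conv_lhs => rw [← t2_ee2 ct v]
  rw [ct.r2, ee12_t12]

variable (ha : ct.Aff)

/-- The first chart. -/
noncomputable abbrev w1 : Sp T.R1 ⟶ C.X := ww ha.aff1 (ee1 ct)

/-- The second chart. -/
noncomputable abbrev w2 : Sp T.R2 ⟶ C.X := ww ha.aff2 (ee2 ct)

/-- The intersection. -/
noncomputable abbrev w12 : Sp T.R12 ⟶ C.X := ww ha.aff12 (ee12 ct)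

theorem w12_1 : w12 ct ha = spMap (T.j1 : T.R1 →+* T.R12) ≫ w1 ct ha := by
  refine ww_eq ha.aff1 (ee1 ct) _ ((ww_le ha.aff12 (ee12 ct)).trans fun _ hx => hx.1) _ ?_
  intro v
  have := gm_rs (w12 ct ha) (RingHom.id T.R12) (w12 ct ha) (spMap_id_comp _).symm
    (W := ct.U1) (W' := ct.U1 ⊓ ct.U2) inf_le_left
    ((ww_le ha.aff12 (ee12 ct)).trans fun _ hx => hx.1) (ww_le ha.aff12 (ee12 ct)) v
  rw [ww_gm] at this
  rw [ee_rs1] at this
  exact this.symm

theorem w12_2 : w12 ct ha = spMap (T.j2 : T.R2 →+* T.R12) ≫ w2 ct ha := by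
  refine ww_eq ha.aff2 (ee2 ct) _ ((ww_le ha.aff12 (ee12 ct)).trans fun _ hx => hx.2) _ ?_
  intro v
  have := gm_rs (w12 ct ha) (RingHom.id T.R12) (w12 ct ha) (spMap_id_comp _).symm
    (W := ct.U2) (W' := ct.U1 ⊓ ct.U2) inf_le_right
    ((ww_le ha.aff12 (ee12 ct)).trans fun _ hx => hx.2) (ww_le ha.aff12 (ee12 ct)) v
  rw [ww_gm] at this
  rw [ee_rs2] at this
  exact this.symm

include ha in
theorem j1_open : IsOpenImmersion (spMap (T.j1 : T.R1 →+* T.R12)) := by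
  have h : IsOpenImmersion (spMap (T.j1 : T.R1 →+* T.R12) ≫ w1 ct ha) := by
    rw [← w12_1]
    infer_instance
  exact IsOpenImmersion.of_comp _ (w1 ct ha)

include ha in
theorem j2_open : IsOpenImmersion (spMap (T.j2 : T.R2 →+* T.R12)) := by
  have h : IsOpenImmersion (spMap (T.j2 : T.R2 →+* T.R12) ≫ w2 ct ha) := by
    rw [← w12_2]
    infer_instance
  exact IsOpenImmersion.of_comp _ (w2 ct ha)

theorem w_cov (z : C.X) : z ∈ Set.range (w1 ct ha) ∨ z ∈ Set.range (w2 ct ha) := by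
  have h : z ∈ ct.U1 ⊔ ct.U2 := by
    rw [ct.cover]
    trivial
  rcases h with h | h
  · left
    have h' : z ∈ (w1 ct ha).opensRange := by
      rw [ww_range]
      exact h
    exact h'
  · right
    have h' : z ∈ (w2 ct ha).opensRange := by
      rw [ww_range]
      exact h
    exact h'

theorem w_int (x : Sp T.R1) (y : Sp T.R2) (h : w1 ct ha x = w2 ct ha y) :
    ∃ w, spMap (T.j1 : T.R1 →+* T.R12) w = x ∧ spMap (T.j2 : T.R2 →+* T.R12) w = y := by
  have h1 : w1 ct ha x ∈ ct.U1 := ww_le ha.aff1 (ee1 ct) (show x ∈ ⊤ by trivial)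
  have h2 : w2 ct ha y ∈ ct.U2 := ww_le ha.aff2 (ee2 ct) (show y ∈ ⊤ by trivial)
  have h3 : w1 ct ha x ∈ (w12 ct ha).opensRange := by
    rw [ww_range]
    exact ⟨h1, h ▸ h2⟩
  obtain ⟨w, hw⟩ := h3
  refine ⟨w, ?_, ?_⟩
  · apply (w1 ct ha).isOpenEmbedding.injective
    rw [← Scheme.Hom.comp_apply, ← w12_1, hw]
  · apply (w2 ct ha).isOpenEmbedding.injective
    rw [← Scheme.Hom.comp_apply, ← w12_2, hw, h]

/-- `C` is the push out of its charts. -/
theorem w_push : IsPushout (spMap (T.j1 : T.R1 →+* T.R12)) (spMap (T.j2 : T.R2 →+* T.R12))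
    (w1 ct ha) (w2 ct ha) := by
  haveI := j1_open ct ha
  haveI := j2_open ct ha
  exact glue_push (by rw [← w12_1, ← w12_2]) (w_cov ct ha) (w_int ct ha)

theorem w1_π : w1 ct ha ≫ C.π = spMap (algebraMap k T.R1) := by
  have h1 : ∀ c, gm (w1 ct ha) ct.U1 (ww_le _ _) (coef C.π ct.U1 c) = algebraMap k T.R1 c := by
    intro c
    rw [ww_gm, ← ct.c1]
    have : (c ⊗ₜ[k] (1 : T.R1)) = 1 ⊗ₜ (algebraMap k T.R1 c) := by
      rw [Algebra.algebraMap_eq_smul_one, ← TensorProduct.smul_tmul]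
      simp
    rw [this, ee1_t1]
  have h2 : ∀ c, gm (w1 ct ha) ct.U1 (ww_le _ _) (coef C.π ct.U1 c) =
      (Spec.preimage (w1 ct ha ≫ C.π)).hom c := by
    intro c
    refine gm_coef (w1 ct ha) C.π (Spec.preimage (w1 ct ha ≫ C.π)).hom ?_ ct.U1 _ c
    exact (Spec.map_preimage _).symm
  rw [← Spec.map_preimage (w1 ct ha ≫ C.π)]
  congr 1
  ext c
  exact (h2 c).symm.trans (h1 c)

theorem w2_π : w2 ct ha ≫ C.π = spMap (algebraMap k T.R2) := by
  have h1 : ∀ c, gm (w2 ct ha) ct.U2 (ww_le _ _) (coef C.π ct.U2 c) = algebraMap k T.R2 c := by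
    intro c
    rw [ww_gm, ← ct.c2]
    have : (c ⊗ₜ[k] (1 : T.R2)) = 1 ⊗ₜ (algebraMap k T.R2 c) := by
      rw [Algebra.algebraMap_eq_smul_one, ← TensorProduct.smul_tmul]
      simp
    rw [this, ee2_t2]
  have h2 : ∀ c, gm (w2 ct ha) ct.U2 (ww_le _ _) (coef C.π ct.U2 c) =
      (Spec.preimage (w2 ct ha ≫ C.π)).hom c := by
    intro c
    refine gm_coef (w2 ct ha) C.π (Spec.preimage (w2 ct ha ≫ C.π)).hom ?_ ct.U2 _ c
    exact (Spec.map_preimage _).symm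
  rw [← Spec.map_preimage (w2 ct ha ≫ C.π)]
  congr 1
  ext c
  exact (h2 c).symm.trans (h1 c)

/-- A section in the first chart. -/
theorem sec1 (σ : Sp k ⟶ C.X) (φ : T.R1 →ₐ[k] k) (h : ct.Is1 σ φ) :
    σ = spMap (φ : T.R1 →+* k) ≫ w1 ct ha := by
  obtain ⟨h1, h2⟩ := h
  refine ww_eq ha.aff1 (ee1 ct) σ h1 _ fun v => ?_
  change (Scheme.ΓSpecIso (CommRingCat.of k)).hom.hom ((σ.appLE ct.U1 ⊤ h1).hom v) = _
  conv_lhs => rw [← t1_ee1 ct v]
  rw [h2, gl_inv]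
  rfl

/-- A section in the second chart. -/
theorem sec2 (σ : Sp k ⟶ C.X) (φ : T.R2 →ₐ[k] k) (h : ct.Is2 σ φ) :
    σ = spMap (φ : T.R2 →+* k) ≫ w2 ct ha := by
  obtain ⟨h1, h2⟩ := h
  refine ww_eq ha.aff2 (ee2 ct) σ h1 _ fun v => ?_
  change (Scheme.ΓSpecIso (CommRingCat.of k)).hom.hom ((σ.appLE ct.U2 ⊤ h1).hom v) = _
  conv_lhs => rw [← t2_ee2 ct v]
  rw [h2, gl_inv]
  rfl

end Base

end Pool.Agent.MG.GLU


end

section

/-!
# GLU: over a field, every class is the class of a stable thickening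
-/

open CategoryTheory CategoryTheory.Limits AlgebraicGeometry TensorProduct

namespace Pool.Agent.MG.GLU

section Red

variable {k E J : Type} [Field k] [CommRing E] [Algebra k E] [Fintype J] (S : SqE k E J)
  (hS : ∀ c, algebraMap k E c = S.i c) (R : Type) [CommRing R] [Algebra k R]

/-- Reduction as a homomorphism of rings. -/
noncomputable def rd0 : E ⊗[k] R →+* R := (red S hS R : E ⊗[k] R →+* R)

theorem rd0_tmul (e : E) (r : R) : rd0 S hS R (e ⊗ₜ r) = S.p e • r := red_tmul S hS R e r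

theorem rd0_closed : IsClosedImmersion (spMap (rd0 S hS R)) :=
  IsClosedImmersion.spec_of_surjective _ (red_surjective S hS R)

theorem rd0_surj : Function.Surjective (spMap (rd0 S hS R)) := by
  have hr : Function.Surjective (rd0 S hS R) := red_surjective S hS R
  change Function.Surjective (PrimeSpectrum.comap (rd0 S hS R))
  rw [← Set.range_eq_univ, range_comap_of_surjective _ _ hr,
    PrimeSpectrum.zeroLocus_eq_univ_iff]
  intro a ha
  refine (mem_nilradical).2 ⟨2, ?_⟩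
  rw [pow_two]
  exact red_nil S hS R a ha

theorem rd0_mE {R' : Type} [CommRing R'] [Algebra k R'] (j : R →ₐ[k] R') :
    (rd0 S hS R').comp (mE (E := E) j) = (j : R →+* R').comp (rd0 S hS R) := by
  refine RingHom.ext fun v => ?_
  refine tensor_ind (f := (rd0 S hS R').comp (mE (E := E) j))
    (g := (j : R →+* R').comp (rd0 S hS R)) ?_ ?_ v
  · intro e
    change rd0 S hS R' (mE j (e ⊗ₜ 1)) = j (rd0 S hS R (e ⊗ₜ 1))
    rw [mE_tmul, rd0_tmul, rd0_tmul, map_one, map_smul, map_one]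
  · intro r
    change rd0 S hS R' (mE j (1 ⊗ₜ r)) = j (rd0 S hS R (1 ⊗ₜ r))
    rw [mE_tmul, rd0_tmul, rd0_tmul, map_smul]

variable {R} in
/-- The twist as a homomorphism of rings. -/
noncomputable def tE (dd : Derivation k R R) (h : J → R) : E ⊗[k] R →+* E ⊗[k] R :=
  (tw S dd h : E ⊗[k] R →+* E ⊗[k] R)

variable {R}

theorem rd0_tE (dd : Derivation k R R) (h : J → R) :
    (rd0 S hS R).comp (tE S dd h) = rd0 S hS R :=
  RingHom.ext fun v => red_tw S hS dd h v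

theorem tE_iL (dd : Derivation k R R) (h : J → R) :
    (tE S dd h).comp (iL (k := k) E R) = iL (k := k) E R := by
  ext e
  exact tw_left S dd h e

instance tE_iso (dd : Derivation k R R) (h : J → R) : IsIso (spMap (tE S dd h)) := by
  have : IsIso (CommRingCat.ofHom (tE S dd h)) :=
    inferInstanceAs (IsIso (twE S dd h).toRingEquiv.toCommRingCatIso.hom)
  infer_instance

end Red

section Glue

variable {n : ℕ} {k : Type} [Field k] {T : TC k} {C : Fam n k} (ct : Charted T C) (ha : ct.Aff)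
  {E J : Type} [CommRing E] [Algebra k E] [Fintype J] (S : SqE k E J)
  (hS : ∀ c, algebraMap k E c = S.i c) (h : J → T.R12)

/-- The glued thickening. -/
structure Gl where
  /-- the scheme -/
  X : Scheme.{0}
  /-- first chart -/
  i1 : Sp (E ⊗[k] T.R1) ⟶ X
  /-- second chart -/
  i2 : Sp (E ⊗[k] T.R2) ⟶ X
  o1 : IsOpenImmersion i1
  o2 : IsOpenImmersion i2
  /-- projection -/
  π : X ⟶ Sp E
  h1 : i1 ≫ π = spMap (iL (k := k) E T.R1)
  h2 : i2 ≫ π = spMap (iL (k := k) E T.R2)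
  comm : spMap (mE (E := E) T.j1) ≫ i1 = spMap ((tE S T.dd h).comp (mE (E := E) T.j2)) ≫ i2
  cov : ∀ z, z ∈ Set.range i1 ∨ z ∈ Set.range i2
  int : ∀ x y, i1 x = i2 y → ∃ w, spMap (mE (E := E) T.j1) w = x ∧
    spMap ((tE S T.dd h).comp (mE (E := E) T.j2)) w = y

include ct ha in
theorem exists_gl : Nonempty (Gl S h) := by
  have o1 : IsOpenImmersion (spMap (mE (E := E) T.j1)) := open1 T.j1 (j1_open ct ha)
  have o2' : IsOpenImmersion (spMap (mE (E := E) T.j2)) := open1 T.j2 (j2_open ct ha)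
  have o2 : IsOpenImmersion (spMap ((tE S T.dd h).comp (mE (E := E) T.j2))) := by
    have : spMap ((tE S T.dd h).comp (mE (E := E) T.j2)) =
        spMap (tE S T.dd h) ≫ spMap (mE (E := E) T.j2) := by
      rw [← Spec.map_comp, ← CommRingCat.ofHom_comp]
    rw [this]
    infer_instance
  have e1 : (mE (E := E) T.j1).comp (iL (k := k) E T.R1) = iL (k := k) E T.R12 := by
    ext e
    change mE T.j1 (e ⊗ₜ[k] (1 : T.R1)) = e ⊗ₜ 1
    rw [mE_tmul, map_one]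
  have e2 : ((tE S T.dd h).comp (mE (E := E) T.j2)).comp (iL (k := k) E T.R2) =
      iL (k := k) E T.R12 := by
    rw [RingHom.comp_assoc]
    have : (mE (E := E) T.j2).comp (iL (k := k) E T.R2) = iL (k := k) E T.R12 := by
      ext e
      change mE T.j2 (e ⊗ₜ[k] (1 : T.R2)) = e ⊗ₜ 1
      rw [mE_tmul, map_one]
    rw [this, tE_iL]
  have hc : spMap (mE (E := E) T.j1) ≫ spMap (iL (k := k) E T.R1) =
      spMap ((tE S T.dd h).comp (mE (E := E) T.j2)) ≫ spMap (iL (k := k) E T.R2) := by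
    rw [← Spec.map_comp, ← Spec.map_comp, ← CommRingCat.ofHom_comp, ← CommRingCat.ofHom_comp, e1,
      e2]
  exact ⟨{
    X := pushout (spMap (mE (E := E) T.j1)) (spMap ((tE S T.dd h).comp (mE (E := E) T.j2)))
    i1 := pushout.inl _ _
    i2 := pushout.inr _ _
    o1 := inferInstance
    o2 := inferInstance
    π := pushout.desc _ _ hc
    h1 := pushout.inl_desc _ _ _
    h2 := pushout.inr_desc _ _ _
    comm := pushout.condition
    cov := glue2_surj _ _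
    int := glue2_eq _ _ }⟩

variable {S h} (G : Gl (T := T) S h)

theorem mm_comm : spMap (T.j1 : T.R1 →+* T.R12) ≫ (spMap (rd0 S hS T.R1) ≫ G.i1) =
    spMap (T.j2 : T.R2 →+* T.R12) ≫ (spMap (rd0 S hS T.R2) ≫ G.i2) := by
  have e1 : spMap (T.j1 : T.R1 →+* T.R12) ≫ spMap (rd0 S hS T.R1) =
      spMap (rd0 S hS T.R12) ≫ spMap (mE (E := E) T.j1) := by
    rw [← Spec.map_comp, ← Spec.map_comp, ← CommRingCat.ofHom_comp, ← CommRingCat.ofHom_comp,
      rd0_mE]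
  have e2 : spMap (T.j2 : T.R2 →+* T.R12) ≫ spMap (rd0 S hS T.R2) =
      spMap (rd0 S hS T.R12) ≫ spMap ((tE S T.dd h).comp (mE (E := E) T.j2)) := by
    rw [← Spec.map_comp, ← Spec.map_comp, ← CommRingCat.ofHom_comp, ← CommRingCat.ofHom_comp,
      ← RingHom.comp_assoc, rd0_tE, rd0_mE]
  rw [← Category.assoc, e1, ← Category.assoc, e2, Category.assoc, Category.assoc, G.comm]

/-- The closed immersion of `C`. -/
noncomputable def mm : C.X ⟶ G.X :=
  (w_push ct ha).desc (spMap (rd0 S hS T.R1) ≫ G.i1) (spMap (rd0 S hS T.R2) ≫ G.i2)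
    (mm_comm hS G)

theorem w1_mm : w1 ct ha ≫ mm ct ha hS G = spMap (rd0 S hS T.R1) ≫ G.i1 :=
  (w_push ct ha).inl_desc _ _ _

theorem w2_mm : w2 ct ha ≫ mm ct ha hS G = spMap (rd0 S hS T.R2) ≫ G.i2 :=
  (w_push ct ha).inr_desc _ _ _

theorem pre1 (y : Sp T.R2) (hy : G.i2 (spMap (rd0 S hS T.R2) y) ∈ Set.range G.i1) :
    ∃ w, spMap (T.j2 : T.R2 →+* T.R12) w = y := by
  obtain ⟨x, hx⟩ := hy
  obtain ⟨w, -, hw⟩ := G.int x _ hx
  obtain ⟨w0, rfl⟩ := rd0_surj S hS T.R12 w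
  refine ⟨w0, ?_⟩
  have := rd0_closed S hS T.R2
  apply (spMap (rd0 S hS T.R2)).isClosedEmbedding.injective
  rw [← hw, ← Scheme.Hom.comp_apply, ← Scheme.Hom.comp_apply]
  congr 1
  rw [← Spec.map_comp, ← Spec.map_comp, ← CommRingCat.ofHom_comp, ← CommRingCat.ofHom_comp,
    ← RingHom.comp_assoc, rd0_tE, rd0_mE]

theorem pre2 (x : Sp T.R1) (hx : G.i1 (spMap (rd0 S hS T.R1) x) ∈ Set.range G.i2) :
    ∃ w, spMap (T.j1 : T.R1 →+* T.R12) w = x := by
  obtain ⟨y, hy⟩ := hx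
  obtain ⟨w, hw, -⟩ := G.int _ y hy.symm
  obtain ⟨w0, rfl⟩ := rd0_surj S hS T.R12 w
  refine ⟨w0, ?_⟩
  have := rd0_closed S hS T.R1
  apply (spMap (rd0 S hS T.R1)).isClosedEmbedding.injective
  rw [← hw, ← Scheme.Hom.comp_apply, ← Scheme.Hom.comp_apply]
  congr 1
  rw [← Spec.map_comp, ← Spec.map_comp, ← CommRingCat.ofHom_comp, ← CommRingCat.ofHom_comp,
    rd0_mE]

theorem mm_cart : IsPullback (mm ct ha hS G) C.π G.π (spMap S.p) := by
  have := G.o1
  have := G.o2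
  have q1 : IsPullback (spMap (rd0 S hS T.R1)) (spMap (algebraMap k T.R1))
      (spMap (iL (k := k) E T.R1)) (spMap S.p) :=
    (isPullback_SpecMap_of_isPushout _ _ _ _ (push2 S hS T.R1)).flip
  have q2 : IsPullback (spMap (rd0 S hS T.R2)) (spMap (algebraMap k T.R2))
      (spMap (iL (k := k) E T.R2)) (spMap S.p) :=
    (isPullback_SpecMap_of_isPushout _ _ _ _ (push2 S hS T.R2)).flip
  refine cart_two (i := G.i1) (j := G.i2) (i' := w1 ct ha) (j' := w2 ct ha)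
    (hX := spMap (rd0 S hS T.R1)) (hY := spMap (rd0 S hS T.R2)) (w1_mm ct ha hS G)
    (w2_mm ct ha hS G) G.cov (w_cov ct ha) ?_ ?_ ?_ ?_ ?_
  · intro y hy
    obtain ⟨w, rfl⟩ := pre1 hS G y hy
    refine ⟨spMap (T.j1 : T.R1 →+* T.R12) w, ?_⟩
    rw [← Scheme.Hom.comp_apply, ← w12_1, w12_2, Scheme.Hom.comp_apply]
  · intro x hx
    obtain ⟨w, rfl⟩ := pre2 hS G x hx
    refine ⟨spMap (T.j2 : T.R2 →+* T.R12) w, ?_⟩
    rw [← Scheme.Hom.comp_apply, ← w12_2, w12_1, Scheme.Hom.comp_apply]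
  · rw [w1_π, G.h1]
    exact q1
  · rw [w2_π, G.h2]
    exact q2
  · apply (w_push ct ha).hom_ext
    · rw [← Category.assoc, w1_mm, Category.assoc, G.h1, ← Category.assoc, w1_π]
      exact q1.w
    · rw [← Category.assoc, w2_mm, Category.assoc, G.h2, ← Category.assoc, w2_π]
      exact q2.w

include ct ha in
theorem π_loc (P : MorphismProperty Scheme.{0}) [IsZariskiLocalAtSource P]
    [P.IsStableUnderBaseChange] (hP : P C.π) : P G.π := by
  have := G.o1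
  have := G.o2
  have p1 : P (spMap (algebraMap k T.R1)) := by
    rw [← w1_π ct ha]
    exact IsZariskiLocalAtSource.comp hP _
  have p2 : P (spMap (algebraMap k T.R2)) := by
    rw [← w2_π ct ha]
    exact IsZariskiLocalAtSource.comp hP _
  refine two_source P G.i1 G.i2 G.cov G.π ?_ ?_
  · rw [G.h1]
    exact MorphismProperty.of_isPullback
      (isPullback_SpecMap_of_isPushout _ _ _ _ (push0 (E := E) T.R1)).flip p1
  · rw [G.h2]
    exact MorphismProperty.of_isPullback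
      (isPullback_SpecMap_of_isPushout _ _ _ _ (push0 (E := E) T.R2)).flip p2

/-- Evaluation on the thickening. -/
noncomputable def lam {R : Type} [CommRing R] [Algebra k R] (φ : R →ₐ[k] E) : E ⊗[k] R →+* E :=
  (Algebra.TensorProduct.lift (AlgHom.id k E) φ (fun _ _ => Commute.all _ _) : E ⊗[k] R →ₐ[k] E)

theorem lam_tmul {R : Type} [CommRing R] [Algebra k R] (φ : R →ₐ[k] E) (e : E) (r : R) :
    lam φ (e ⊗ₜ r) = e * φ r := by
  unfold lam
  simp

theorem lam_iL {R : Type} [CommRing R] [Algebra k R] (φ : R →ₐ[k] E) :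
    (lam φ).comp (iL (k := k) E R) = RingHom.id E := by
  ext e
  change lam φ (e ⊗ₜ 1) = e
  rw [lam_tmul, map_one, mul_one]

theorem p_lam {R : Type} [CommRing R] [Algebra k R] (φ' : R →ₐ[k] E) (φ : R →ₐ[k] k)
    (hφ : ∀ a, S.p (φ' a) = φ a) : S.p.comp (lam φ') = (φ : R →+* k).comp (rd0 S hS R) := by
  refine RingHom.ext fun v => ?_
  refine tensor_ind (f := S.p.comp (lam φ')) (g := (φ : R →+* k).comp (rd0 S hS R)) ?_ ?_ v
  · intro e
    change S.p (lam φ' (e ⊗ₜ 1)) = φ (rd0 S hS R (e ⊗ₜ 1))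
    rw [lam_tmul, rd0_tmul, map_one, mul_one, map_smul, map_one, smul_eq_mul, mul_one]
  · intro r
    change S.p (lam φ' (1 ⊗ₜ r)) = φ (rd0 S hS R (1 ⊗ₜ r))
    rw [lam_tmul, rd0_tmul, one_mul, hφ, map_one, one_smul]

/-- The sections of the thickening. -/
structure SecL (sp : Pt T k) (d : J → k) (τ : Sp E ⟶ G.X) (σ : Sp k ⟶ C.X) : Prop where
  sec : τ ≫ G.π = 𝟙 _
  res : σ ≫ mm ct ha hS G = spMap S.p ≫ τ
  one : ∀ φ, sp = .one φ → ∃ φ' : T.R1 →ₐ[k] E, τ = spMap (lam φ') ≫ G.i1 ∧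
    φ' T.x = S.i (φ T.x) + ∑ j, S.ε j * S.i (d j)
  two : ∀ φ, sp = .two φ → ∃ φ' : T.R2 →ₐ[k] E, τ = spMap (lam φ') ≫ G.i2 ∧
    φ' T.y = S.i (φ T.y) + ∑ j, S.ε j * S.i (d j)

theorem p_val (c : k) (d : J → k) : S.p (S.i c + ∑ j, S.ε j * S.i (d j)) = c := by
  rw [map_add, map_sum, S.pi, Finset.sum_eq_zero, add_zero]
  intro j _
  rw [map_mul, S.pe, zero_mul]

theorem exists_sec (sp : Pt T k) (d : J → k) (σ : Sp k ⟶ C.X) (hσ : ct.Is σ sp) :
    ∃ τ, SecL ct ha hS G sp d τ σ := by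
  cases sp with
  | one φ =>
    obtain ⟨φ', h1, h2⟩ := lift_pt S hS T.x T.etx φ _ (p_val (S := S) (φ T.x) d)
    refine ⟨spMap (lam φ') ≫ G.i1, ?_, ?_, ?_, ?_⟩
    · rw [Category.assoc, G.h1, ← Spec.map_comp, ← CommRingCat.ofHom_comp, lam_iL]
      exact Spec.map_id _
    · rw [sec1 ct ha σ φ hσ, Category.assoc, w1_mm, ← Category.assoc, ← Category.assoc,
        ← Spec.map_comp, ← Spec.map_comp, ← CommRingCat.ofHom_comp, ← CommRingCat.ofHom_comp,
        p_lam hS φ' φ h1]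
    · intro ψ hψ
      have : φ = ψ := by
        injection hψ
      subst this
      exact ⟨φ', rfl, h2⟩
    · intro ψ hψ
      exact absurd hψ (by simp)
  | two φ =>
    obtain ⟨φ', h1, h2⟩ := lift_pt S hS T.y T.ety φ _ (p_val (S := S) (φ T.y) d)
    refine ⟨spMap (lam φ') ≫ G.i2, ?_, ?_, ?_, ?_⟩
    · rw [Category.assoc, G.h2, ← Spec.map_comp, ← CommRingCat.ofHom_comp, lam_iL]
      exact Spec.map_id _
    · rw [sec2 ct ha σ φ hσ, Category.assoc, w2_mm, ← Category.assoc, ← Category.assoc,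
        ← Spec.map_comp, ← Spec.map_comp, ← CommRingCat.ofHom_comp, ← CommRingCat.ofHom_comp,
        p_lam hS φ' φ h1]
    · intro ψ hψ
      exact absurd hψ (by simp)
    · intro ψ hψ
      have : φ = ψ := by
        injection hψ
      subst this
      exact ⟨φ', rfl, h2⟩

end Glue

section Fit

variable {n : ℕ} {k : Type} [Field k] {T : TC k} {C : Fam n k} (ct : Charted T C) (ha : ct.Aff)
  {E J : Type} [CommRing E] [Algebra k E] [Fintype J] {S : SqE k E J}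
  (hS : ∀ c, algebraMap k E c = S.i c)

theorem le_range {A : Type} [CommRing A] {X : Scheme.{0}} (i : Sp A ⟶ X) [IsOpenImmersion i]
    {W : X.Opens} (hW : i.opensRange = W) : ⊤ ≤ i ⁻¹ᵁ W := by
  intro a _
  have : i a ∈ i.opensRange := ⟨a, rfl⟩
  rw [hW] at this
  exact this

theorem good_of (t : Thk S C) (U : C.X.Opens) {R : Type} [CommRing R] [Algebra k R]
    (i : Sp (E ⊗[k] R) ⟶ t.y.X) [IsOpenImmersion i] (hi : i.opensRange = t.op U)
    (w : Sp R ⟶ C.X) [IsOpenImmersion w] (hw : w.opensRange = U)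
    (c1 : w ≫ t.r.f = spMap (rd0 S hS R) ≫ i) (c2 : i ≫ t.y.π = spMap (iL (k := k) E R)) :
    Good t U := by
  have key : ∀ v, gm w U (le_range w hw) (t.q U v) = rd0 S hS R (gm i (t.op U) (le_range i hi) v) :=
    fun v => gm_nat t.r.f i w (rd0 S hS R) c1 (t.op U) U (le_range i hi) (le_range w hw)
      (t.pre U).ge v
  have bi := gm_bij i (t.op U) (le_range i hi) hi
  have bw := gm_bij w U (le_range w hw) hw
  have hc : ∀ e, gm i (t.op U) (le_range i hi) (coef t.y.π (t.op U) e) = e ⊗ₜ 1 := fun e =>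
    gm_coef i t.y.π (iL (k := k) E R) c2 (t.op U) (le_range i hi) e
  refine ⟨?_, ?_, ?_⟩
  · intro u
    obtain ⟨v, hv⟩ := bi.2 (1 ⊗ₜ gm w U (le_range w hw) u)
    refine ⟨v, bw.1 ?_⟩
    rw [key, hv, rd0_tmul, map_one, one_smul]
  · intro v hv
    have h1 : rd0 S hS R (gm i (t.op U) (le_range i hi) v) = 0 := by
      rw [← key, hv, map_zero]
    obtain ⟨w', hw'⟩ := red_ker S hS R _ h1
    choose u hu using fun j => bi.2 (w' j)
    refine ⟨u, bi.1 ?_⟩
    rw [hw', map_sum]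
    refine Finset.sum_congr rfl fun j _ => ?_
    rw [map_mul, hc, hu]
  · intro u hu j
    have h1 := congrArg (gm i (t.op U) (le_range i hi)) hu
    rw [map_zero, map_sum] at h1
    have h2 : ∑ j, (S.ε j ⊗ₜ[k] (1 : R)) * gm i (t.op U) (le_range i hi) (u j) = 0 := by
      rw [← h1]
      refine Finset.sum_congr rfl fun j _ => ?_
      rw [map_mul, hc]
    have h3 := red_un S hS R _ h2 j
    apply bw.1
    rw [key, map_zero]
    exact h3

variable (h : J → T.R12) (t : Thk S C) (i1 : Sp (E ⊗[k] T.R1) ⟶ t.y.X)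
  (i2 : Sp (E ⊗[k] T.R2) ⟶ t.y.X)

/-- The thickening is glued from two charts. -/
structure Fits : Prop where
  o1 : IsOpenImmersion i1
  o2 : IsOpenImmersion i2
  r1 : i1.opensRange = t.op ct.U1
  r2 : i2.opensRange = t.op ct.U2
  o12 : IsOpenImmersion (spMap (mE (E := E) T.j1) ≫ i1)
  r12 : (spMap (mE (E := E) T.j1) ≫ i1).opensRange = t.op (ct.U1 ⊓ ct.U2)
  comm : spMap (mE (E := E) T.j1) ≫ i1 = spMap ((tE S T.dd h).comp (mE (E := E) T.j2)) ≫ i2
  c1 : w1 ct ha ≫ t.r.f = spMap (rd0 S hS T.R1) ≫ i1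
  c2 : w2 ct ha ≫ t.r.f = spMap (rd0 S hS T.R2) ≫ i2
  p1 : i1 ≫ t.y.π = spMap (iL (k := k) E T.R1)
  p2 : i2 ≫ t.y.π = spMap (iL (k := k) E T.R2)

variable {h t i1 i2} {ct ha hS} (F : Fits ct ha hS h t i1 i2)

include F in
theorem Fits.c12 : w12 ct ha ≫ t.r.f =
    spMap (rd0 S hS T.R12) ≫ spMap (mE (E := E) T.j1) ≫ i1 := by
  rw [w12_1, Category.assoc, F.c1, ← Category.assoc, ← Category.assoc, ← Spec.map_comp,
    ← Spec.map_comp, ← CommRingCat.ofHom_comp, ← CommRingCat.ofHom_comp, rd0_mE]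

include F in
theorem Fits.p12 : (spMap (mE (E := E) T.j1) ≫ i1) ≫ t.y.π = spMap (iL (k := k) E T.R12) := by
  rw [Category.assoc, F.p1, ← Spec.map_comp, ← CommRingCat.ofHom_comp]
  congr 2
  refine RingHom.ext fun e => ?_
  change mE T.j1 (e ⊗ₜ[k] (1 : T.R1)) = e ⊗ₜ 1
  rw [mE_tmul, map_one]

include F in
theorem Fits.good3 : Good3 ct t := by
  have := F.o1
  have := F.o2
  have := F.o12
  exact ⟨good_of hS t _ i1 F.r1 (w1 ct ha) (ww_range _ _) F.c1 F.p1,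
    good_of hS t _ i2 F.r2 (w2 ct ha) (ww_range _ _) F.c2 F.p2,
    good_of hS t _ (spMap (mE (E := E) T.j1) ≫ i1) F.r12 (w12 ct ha) (ww_range _ _) F.c12 F.p12⟩

include F in
theorem ks_of (s : Fin n → Pt T k) (hs : ∀ i, ct.Is (C.σ i) (s i)) (δ : J → Fin n → k)
    (hh : J → k ⊗[k] T.R12) (hhh : ∀ j, h j = -(Algebra.TensorProduct.lid k T.R12 (hh j)))
    (s1 : ∀ i φ, s i = .one φ → ∃ φ' : T.R1 →ₐ[k] E, t.y.σ i = spMap (lam φ') ≫ i1 ∧
      φ' T.x = S.i (φ T.x) + ∑ j, S.ε j * S.i (δ j i))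
    (s2 : ∀ i φ, s i = .two φ → ∃ φ' : T.R2 →ₐ[k] E, t.y.σ i = spMap (lam φ') ≫ i2 ∧
      φ' T.y = S.i (φ T.y) + ∑ j, S.ε j * S.i (δ j i)) : KS ct t s hs hh δ := by
  have := F.o1
  have := F.o2
  have := F.o12
  have H := F.good3
  let i12 := spMap (mE (E := E) T.j1) ≫ i1
  let γ1 : Γ(t.y.X, t.op ct.U1) ≃+* E ⊗[k] T.R1 :=
    RingEquiv.ofBijective (gm i1 _ (le_range i1 F.r1)) (gm_bij i1 _ _ F.r1)
  let γ2 : Γ(t.y.X, t.op ct.U2) ≃+* E ⊗[k] T.R2 :=
    RingEquiv.ofBijective (gm i2 _ (le_range i2 F.r2)) (gm_bij i2 _ _ F.r2)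
  let γ12 : Γ(t.y.X, t.op (ct.U1 ⊓ ct.U2)) ≃+* E ⊗[k] T.R12 :=
    RingEquiv.ofBijective (gm i12 _ (le_range i12 F.r12)) (gm_bij i12 _ _ F.r12)
  have q1 : ∀ v, (rd ct t H).q1 v = 1 ⊗ₜ rd0 S hS T.R1 (γ1 v) := by
    intro v
    change ct.eq1.symm (t.q ct.U1 v) = _
    rw [ee1_eq, ← ww_gm ha.aff1 (ee1 ct) (ww_le _ _)]
    congr 1
    exact gm_nat t.r.f i1 (w1 ct ha) (rd0 S hS T.R1) F.c1 _ _ _ _ (t.pre ct.U1).ge v
  have q2 : ∀ v, (rd ct t H).q2 v = 1 ⊗ₜ rd0 S hS T.R2 (γ2 v) := by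
    intro v
    change ct.eq2.symm (t.q ct.U2 v) = _
    rw [ee2_eq, ← ww_gm ha.aff2 (ee2 ct) (ww_le _ _)]
    congr 1
    exact gm_nat t.r.f i2 (w2 ct ha) (rd0 S hS T.R2) F.c2 _ _ _ _ (t.pre ct.U2).ge v
  have q12 : ∀ v, (rd ct t H).q12 v = 1 ⊗ₜ rd0 S hS T.R12 (γ12 v) := by
    intro v
    change ct.eq12.symm (t.q _ v) = _
    rw [ee12_eq, ← ww_gm ha.aff12 (ee12 ct) (ww_le _ _)]
    congr 1
    exact gm_nat t.r.f i12 (w12 ct ha) (rd0 S hS T.R12) F.c12 _ _ _ _ (t.pre _).ge v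
  have a1 : ∀ e, γ1 ((rd ct t H).a1 e) = e ⊗ₜ 1 := fun e =>
    gm_coef i1 t.y.π (iL (k := k) E T.R1) F.p1 _ _ e
  have a2 : ∀ e, γ2 ((rd ct t H).a2 e) = e ⊗ₜ 1 := fun e =>
    gm_coef i2 t.y.π (iL (k := k) E T.R2) F.p2 _ _ e
  have a12 : ∀ e, γ12 ((rd ct t H).a12 e) = e ⊗ₜ 1 := fun e =>
    gm_coef i12 t.y.π (iL (k := k) E T.R12) F.p12 _ _ e
  have f1 : ∀ v, γ12 ((rd ct t H).f1 v) = mE T.j1 (γ1 v) := fun v =>
    gm_rs i1 (mE (E := E) T.j1) i12 rfl (t.op_mono inf_le_left) _ _ v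
  have f2 : ∀ v, γ12 ((rd ct t H).f2 v) = tE S T.dd h (mE T.j2 (γ2 v)) := fun v =>
    gm_rs i2 ((tE S T.dd h).comp (mE (E := E) T.j2)) i12 F.comm (t.op_mono inf_le_right) _ _ v
  refine ⟨H, ⟨{
    θ1 := (γ1.symm : E ⊗[k] T.R1 →+* Γ(t.y.X, t.op ct.U1)).comp (iR (k := k) E T.R1)
    θ2 := (γ2.symm : E ⊗[k] T.R2 →+* Γ(t.y.X, t.op ct.U2)).comp (iR (k := k) E T.R2)
    k1 := ?_
    k2 := ?_
    l1 := ?_
    l2 := ?_
    t1 := (γ12.symm : E ⊗[k] T.R12 →+* Γ(t.y.X, t.op (ct.U1 ⊓ ct.U2))).comp (iR (k := k) E T.R12)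
    t2 := (γ12.symm : E ⊗[k] T.R12 →+* Γ(t.y.X, t.op (ct.U1 ⊓ ct.U2))).comp ((tE S T.dd h).comp (iR (k := k) E T.R12))
    e1 := ?_
    e2 := ?_
    lt1 := ?_
    lt2 := ?_
    diff := ?_
    dl := ?_ }⟩⟩
  · intro c
    apply γ1.injective
    rw [a1]
    change γ1 (γ1.symm (1 ⊗ₜ algebraMap k T.R1 c)) = _
    rw [γ1.apply_symm_apply, ← hS, Algebra.algebraMap_eq_smul_one, TensorProduct.tmul_smul,
      TensorProduct.smul_tmul']
    simp [Algebra.algebraMap_eq_smul_one]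
  · intro c
    apply γ2.injective
    rw [a2]
    change γ2 (γ2.symm (1 ⊗ₜ algebraMap k T.R2 c)) = _
    rw [γ2.apply_symm_apply, ← hS, Algebra.algebraMap_eq_smul_one, TensorProduct.tmul_smul,
      TensorProduct.smul_tmul']
    simp [Algebra.algebraMap_eq_smul_one]
  · intro a
    rw [q1]
    change 1 ⊗ₜ rd0 S hS T.R1 (γ1 (γ1.symm (1 ⊗ₜ a))) = _
    rw [γ1.apply_symm_apply, rd0_tmul, map_one, one_smul]
  · intro a
    rw [q2]
    change 1 ⊗ₜ rd0 S hS T.R2 (γ2 (γ2.symm (1 ⊗ₜ a))) = _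
    rw [γ2.apply_symm_apply, rd0_tmul, map_one, one_smul]
  · intro a
    apply γ12.injective
    rw [f1]
    change γ12 (γ12.symm (1 ⊗ₜ T.j1 a)) = mE T.j1 (γ1 (γ1.symm (1 ⊗ₜ a)))
    rw [γ12.apply_symm_apply, γ1.apply_symm_apply, mE_tmul]
  · intro a
    apply γ12.injective
    rw [f2]
    change γ12 (γ12.symm (tE S T.dd h (1 ⊗ₜ T.j2 a))) =
      tE S T.dd h (mE T.j2 (γ2 (γ2.symm (1 ⊗ₜ a))))
    rw [γ12.apply_symm_apply, γ2.apply_symm_apply, mE_tmul]
  · intro a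
    rw [q12]
    change 1 ⊗ₜ rd0 S hS T.R12 (γ12 (γ12.symm (1 ⊗ₜ a))) = _
    rw [γ12.apply_symm_apply, rd0_tmul, map_one, one_smul]
  · intro a
    rw [q12]
    change 1 ⊗ₜ rd0 S hS T.R12 (γ12 (γ12.symm (tE S T.dd h (1 ⊗ₜ a)))) = _
    rw [γ12.apply_symm_apply]
    have : rd0 S hS T.R12 (tE S T.dd h (1 ⊗ₜ a)) = rd0 S hS T.R12 (1 ⊗ₜ a) :=
      DFunLike.congr_fun (rd0_tE S hS T.dd h) _
    rw [this, rd0_tmul, map_one, one_smul]
  · intro a
    refine ⟨fun j => γ12.symm (1 ⊗ₜ (Algebra.TensorProduct.lid k T.R12 (hh j) * T.dd a)), ?_, ?_⟩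
    · intro j
      rw [q12, γ12.apply_symm_apply, rd0_tmul, map_one, one_smul]
      conv_rhs => rw [one_lid (hh j)]
      simp
    · have key : (γ12.symm (1 ⊗ₜ a) : Γ(t.y.X, t.op (ct.U1 ⊓ ct.U2))) =
          γ12.symm (tE S T.dd h (1 ⊗ₜ a)) +
            ∑ j, coef t.y.π (t.op (ct.U1 ⊓ ct.U2)) (S.ε j) *
              γ12.symm (1 ⊗ₜ (Algebra.TensorProduct.lid k T.R12 (hh j) * T.dd a)) := by
        apply γ12.injective
        rw [map_add, map_sum, γ12.apply_symm_apply, γ12.apply_symm_apply]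
        have h1 : tE S T.dd h (1 ⊗ₜ a) = 1 ⊗ₜ a + ∑ j, (S.ε j) ⊗ₜ[k] (h j * T.dd a) :=
          tw_right S T.dd h a
        rw [h1, add_assoc, ← Finset.sum_add_distrib, Finset.sum_eq_zero, add_zero]
        intro j _
        have h2 : γ12 (coef t.y.π (t.op (ct.U1 ⊓ ct.U2)) (S.ε j)) = (S.ε j) ⊗ₜ 1 := a12 (S.ε j)
        rw [map_mul, h2, γ12.apply_symm_apply, Algebra.TensorProduct.tmul_mul_tmul, mul_one,
          one_mul, ← TensorProduct.tmul_add, hhh, neg_mul, neg_add_cancel, TensorProduct.tmul_zero]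
      exact key
  · intro i
    have D1 : ∀ (sp : Pt T k) (hsp : ct.Is (C.σ i) sp)
        (_ : ∀ φ, sp = .one φ → ∃ φ' : T.R1 →ₐ[k] E, t.y.σ i = spMap (lam φ') ≫ i1 ∧
          φ' T.x = S.i (φ T.x) + ∑ j, S.ε j * S.i (δ j i))
        (_ : ∀ φ, sp = .two φ → ∃ φ' : T.R2 →ₐ[k] E, t.y.σ i = spMap (lam φ') ≫ i2 ∧
          φ' T.y = S.i (φ T.y) + ∑ j, S.ε j * S.i (δ j i)),
        (rd ct t H).Dlt (γ1.symm (1 ⊗ₜ T.x)) (γ2.symm (1 ⊗ₜ T.y)) sp (rsec ct t H i sp hsp)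
          (fun j => δ j i) := by
      intro sp hsp h1 h2
      cases sp with
      | one φ =>
        obtain ⟨φ', hτ, hx⟩ := h1 φ rfl
        change t.ev i hsp.1 (γ1.symm (1 ⊗ₜ T.x)) = _
        have h3 : t.ev i hsp.1 (γ1.symm (1 ⊗ₜ T.x)) = lam φ' (γ1 (γ1.symm (1 ⊗ₜ T.x))) :=
          gm_comp i1 (lam φ') (t.y.σ i) hτ _ _ _ _
        rw [h3, γ1.apply_symm_apply, lam_tmul, one_mul, hx]
      | two φ =>
        obtain ⟨φ', hτ, hx⟩ := h2 φ rfl
        change t.ev i hsp.1 (γ2.symm (1 ⊗ₜ T.y)) = _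
        have h3 : t.ev i hsp.1 (γ2.symm (1 ⊗ₜ T.y)) = lam φ' (γ2 (γ2.symm (1 ⊗ₜ T.y))) :=
          gm_comp i2 (lam φ') (t.y.σ i) hτ _ _ _ _
        rw [h3, γ2.apply_symm_apply, lam_tmul, one_mul, hx]
    exact D1 (s i) (hs i) (s1 i) (s2 i)

end Fit

theorem main {n : ℕ} {k : Type} [Field k] {T : TC k} {C : Fam n k} (g : ℕ) (hC : IsStable g C)
    (ct : Charted T C) (ha : ct.Aff) (s : Fin n → Pt T k) (hs : ∀ i, ct.Is (C.σ i) (s i))
    {E J : Type} [CommRing E] [Algebra k E] [Fintype J] (S : SqE k E J)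
    (hS : ∀ c, algebraMap k E c = S.i c) (hh : J → k ⊗[k] T.R12)
    (δ : J → Fin n → k) : ∃ t : Thk S C, IsStable g t.y ∧ KS ct t s hs hh δ := by
  let h : J → T.R12 := fun j => -(Algebra.TensorProduct.lid k T.R12 (hh j))
  obtain ⟨G⟩ := exists_gl (E := E) (J := J) ct ha S h
  have := G.o1
  have := G.o2
  choose τ hτ using fun i => exists_sec ct ha hS G (s i) (fun j => δ j i) (C.σ i) (hs i)
  have hflat : Flat G.π := π_loc ct ha G (@Flat) hC.flat
  have hfp : LocallyOfFinitePresentation G.π :=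
    π_loc ct ha G (@LocallyOfFinitePresentation) hC.fp
  let t : Thk S C :=
    { y := ⟨G.X, G.π, τ, fun i => (hτ i).sec⟩
      flat := hflat
      r := ⟨mm ct ha hS G, mm_cart ct ha hS G, fun i => (hτ i).res⟩ }
  have r1 : G.i1.opensRange = t.op ct.U1 := by
    refine t.pre_inj ?_
    rw [t.pre]
    ext z
    constructor
    · intro hz
      have hz' : mm ct ha hS G z ∈ Set.range G.i1 := hz
      rcases w_cov ct ha z with ⟨a, rfl⟩ | ⟨b, rfl⟩
      · exact ww_le ha.aff1 (ee1 ct) (show a ∈ ⊤ by trivial)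
      · rw [← Scheme.Hom.comp_apply, w2_mm, Scheme.Hom.comp_apply] at hz'
        obtain ⟨w, rfl⟩ := pre1 hS G b hz'
        have h1 : w12 ct ha w ∈ ct.U1 ⊓ ct.U2 :=
          ww_le ha.aff12 (ee12 ct) (show w ∈ ⊤ by trivial)
        rw [w12_2, Scheme.Hom.comp_apply] at h1
        exact h1.1
    · intro hz
      have h1 : z ∈ (w1 ct ha).opensRange := by
        rw [ww_range]
        exact hz
      obtain ⟨a, rfl⟩ := h1
      change mm ct ha hS G (w1 ct ha a) ∈ Set.range G.i1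
      rw [← Scheme.Hom.comp_apply, w1_mm, Scheme.Hom.comp_apply]
      exact ⟨_, rfl⟩
  have r2 : G.i2.opensRange = t.op ct.U2 := by
    refine t.pre_inj ?_
    rw [t.pre]
    ext z
    constructor
    · intro hz
      have hz' : mm ct ha hS G z ∈ Set.range G.i2 := hz
      rcases w_cov ct ha z with ⟨a, rfl⟩ | ⟨b, rfl⟩
      · rw [← Scheme.Hom.comp_apply, w1_mm, Scheme.Hom.comp_apply] at hz'
        obtain ⟨w, rfl⟩ := pre2 hS G a hz'
        have h1 : w12 ct ha w ∈ ct.U1 ⊓ ct.U2 :=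
          ww_le ha.aff12 (ee12 ct) (show w ∈ ⊤ by trivial)
        rw [w12_1, Scheme.Hom.comp_apply] at h1
        exact h1.2
      · exact ww_le ha.aff2 (ee2 ct) (show b ∈ ⊤ by trivial)
    · intro hz
      have h1 : z ∈ (w2 ct ha).opensRange := by
        rw [ww_range]
        exact hz
      obtain ⟨a, rfl⟩ := h1
      change mm ct ha hS G (w2 ct ha a) ∈ Set.range G.i2
      rw [← Scheme.Hom.comp_apply, w2_mm, Scheme.Hom.comp_apply]
      exact ⟨_, rfl⟩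
  have o1' : IsOpenImmersion (spMap (mE (E := E) T.j1)) := open1 T.j1 (j1_open ct ha)
  have o12 : IsOpenImmersion (spMap (mE (E := E) T.j1) ≫ G.i1) := inferInstance
  have r12 : (spMap (mE (E := E) T.j1) ≫ G.i1).opensRange = t.op (ct.U1 ⊓ ct.U2) := by
    rw [t.op_inf, ← r1, ← r2]
    ext z
    constructor
    · rintro ⟨w, rfl⟩
      refine ⟨?_, ?_⟩
      · exact ⟨spMap (mE (E := E) T.j1) w, by rw [Scheme.Hom.comp_apply]⟩
      · refine ⟨spMap ((tE S T.dd h).comp (mE (E := E) T.j2)) w, ?_⟩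
        rw [← Scheme.Hom.comp_apply, ← G.comm]
    · rintro ⟨⟨a, rfl⟩, ⟨b, hb⟩⟩
      obtain ⟨w, hw, -⟩ := G.int a b hb.symm
      refine ⟨w, ?_⟩
      rw [Scheme.Hom.comp_apply, hw]
  have F : Fits ct ha hS h t G.i1 G.i2 :=
    { o1 := G.o1
      o2 := G.o2
      r1 := r1
      r2 := r2
      o12 := o12
      r12 := r12
      comm := G.comm
      c1 := w1_mm ct ha hS G
      c2 := w2_mm ct ha hS G
      p1 := G.h1
      p2 := G.h2 }
  exact ⟨t, stable_thk t hC hfp, ks_of F s hs δ hh (fun _ => rfl) (fun i => (hτ i).one)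
    (fun i => (hτ i).two)⟩

end Pool.Agent.MG.GLU

namespace Pool.Agent.MG

theorem t_GLU : Stmt_GLU := by
  intro n k _ T C g hC ct ha s hs E J _ _ S h δ
  letI : Algebra k E := S.i.toAlgebra
  exact GLU.main g hC ct ha s hs S (fun _ => rfl) h δ

end Pool.Agent.MG


end

section

/-!
# KSU: over a field, thickenings with the same class are isomorphic
-/

open CategoryTheory CategoryTheory.Limits AlgebraicGeometry TensorProduct

namespace Pool.Agent.MG.KSU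

open Pool.Agent.MG.GLU

section Alg

variable {k E J : Type} [Field k] [CommRing E] [Algebra k E] [Fintype J] (S : SqE k E J)
  (hS : ∀ c, algebraMap k E c = S.i c) {R : Type} [CommRing R] [Algebra k R]

theorem one_inj {a b : R} (h : (1 : k) ⊗ₜ[k] a = 1 ⊗ₜ b) : a = b := by
  have := congrArg (Algebra.TensorProduct.lid k R) h
  simpa using this

include hS in
/-- The functions on a chart of a thickening are `E ⊗ R`. -/
theorem exists_equiv {G : Type} [CommRing G] (a : E →+* G) (q : G →+* k ⊗[k] R)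
    (qa : ∀ z, q (a z) = S.p z ⊗ₜ 1)
    (ker : ∀ v, q v = 0 → ∃ w : J → G, v = ∑ j, a (S.ε j) * w j)
    (un : ∀ w : J → G, ∑ j, a (S.ε j) * w j = 0 → ∀ j, q (w j) = 0)
    (θ : R →+* G) (hθ : ∀ c : k, θ (algebraMap k R c) = a (S.i c))
    (l : ∀ r, q (θ r) = 1 ⊗ₜ r) :
    ∃ ψ : (E ⊗[k] R) ≃+* G, (∀ e, ψ (e ⊗ₜ 1) = a e) ∧ (∀ r, ψ (1 ⊗ₜ r) = θ r) ∧
      ∀ v, q (ψ v) = 1 ⊗ₜ rd0 S hS R v := by
  let : Algebra k G := (a.comp (algebraMap k E)).toAlgebra
  let a' : E →ₐ[k] G := { a with commutes' := fun _ => rfl }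
  have hθ' : ∀ c, θ (algebraMap k R c) = a (algebraMap k E c) := fun c => by rw [hθ, hS]
  let θ' : R →ₐ[k] G := { θ with commutes' := hθ' }
  let ψ0 : E ⊗[k] R →ₐ[k] G := Algebra.TensorProduct.lift a' θ' (fun _ _ => Commute.all _ _)
  let ψ : E ⊗[k] R →+* G := (ψ0 : E ⊗[k] R →+* G)
  have p0 : ∀ e r, ψ (e ⊗ₜ r) = a e * θ r := fun e r =>
    Algebra.TensorProduct.lift_tmul a' θ' (fun _ _ => Commute.all _ _) e r
  have p1 : ∀ e, ψ (e ⊗ₜ 1) = a e := fun e => by rw [p0, map_one, mul_one]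
  have p2 : ∀ r, ψ (1 ⊗ₜ r) = θ r := fun r => by rw [p0, map_one, one_mul]
  have p3 : ∀ v, q (ψ v) = 1 ⊗ₜ rd0 S hS R v := by
    intro v
    refine tensor_ind (f := q.comp ψ) (g := (Algebra.TensorProduct.includeRight :
      R →ₐ[k] k ⊗[k] R).toRingHom.comp (rd0 S hS R)) ?_ ?_ v
    · intro e
      change q (ψ (e ⊗ₜ 1)) = 1 ⊗ₜ rd0 S hS R (e ⊗ₜ 1)
      rw [p1, qa, rd0_tmul, TensorProduct.tmul_smul, TensorProduct.smul_tmul', smul_eq_mul,
        mul_one]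
    · intro r
      change q (ψ (1 ⊗ₜ r)) = 1 ⊗ₜ rd0 S hS R (1 ⊗ₜ r)
      rw [p2, l, rd0_tmul, map_one, one_smul]
  have ee : ∀ i j, a (S.ε i) * a (S.ε j) = 0 := fun i j => by rw [← map_mul, S.mul, map_zero]
  have hinj : Function.Injective ψ := by
    rw [injective_iff_map_eq_zero]
    intro v hv
    have h1 : rd0 S hS R v = 0 := by
      apply one_inj (k := k)
      rw [← p3, hv, map_zero, TensorProduct.tmul_zero]
    obtain ⟨b, hb⟩ := decomp S hS R v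
    have h2 : red S hS R v = 0 := h1
    rw [h2, TensorProduct.tmul_zero, zero_add] at hb
    have h3 : ∑ j, a (S.ε j) * θ (b j) = 0 := by
      rw [hb, map_sum] at hv
      rw [← hv]
      exact Finset.sum_congr rfl fun j _ => (p0 _ _).symm
    have h4 := un _ h3
    have h5 : ∀ j, b j = 0 := by
      intro j
      apply one_inj (k := k)
      rw [← l, h4, TensorProduct.tmul_zero]
    rw [hb]
    exact Finset.sum_eq_zero fun j _ => by rw [h5, TensorProduct.tmul_zero]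
  have hker : ∀ g, ∃ r, ∃ w : J → G, g = θ r + ∑ j, a (S.ε j) * w j := by
    intro g
    have h1 : q (g - θ (Algebra.TensorProduct.lid k R (q g))) = 0 := by
      rw [map_sub, l, ← one_lid, sub_self]
    obtain ⟨w, hw⟩ := ker _ h1
    exact ⟨_, w, by rw [← hw]; ring⟩
  have hsur : Function.Surjective ψ := by
    intro g
    obtain ⟨r, w, hw⟩ := hker g
    choose b w' hw' using fun j => hker (w j)
    refine ⟨1 ⊗ₜ r + ∑ j, (S.ε j) ⊗ₜ (b j), ?_⟩
    rw [map_add, p2, map_sum, hw]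
    congr 1
    refine Finset.sum_congr rfl fun j _ => ?_
    rw [p0, hw' j, mul_add, Finset.mul_sum, Finset.sum_eq_zero, add_zero]
    intro i _
    rw [← mul_assoc, ee, zero_mul]
  exact ⟨RingEquiv.ofBijective ψ ⟨hinj, hsur⟩, p1, p2, p3⟩

/-- A point of a thickening is determined by its reduction and the value of the coordinate. -/
theorem pt_unique {x : R} (et : (Polynomial.aeval x : Polynomial k →ₐ[k] R).toRingHom.Etale)
    (φ φ' : R →ₐ[k] E) (h : ∀ a, S.p (φ a) = S.p (φ' a)) (hx : φ x = φ' x) : φ = φ' := by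
  have := Lift.lift_unique _ et S.p (fun v w hv hw => S.mul_of_p_eq_zero hv hw) (φ : R →+* E)
    (φ' : R →+* E) (fun p => by
      change φ (Polynomial.aeval x p) = φ' (Polynomial.aeval x p)
      rw [← Polynomial.aeval_algHom_apply, ← Polynomial.aeval_algHom_apply, hx]) h
  ext a
  exact congrArg (fun z : R →+* E => z a) this

/-- A homomorphism `E ⊗ R → E` over `E` is an evaluation. -/
theorem exists_lam (u : E ⊗[k] R →+* E) (hu : ∀ e, u (e ⊗ₜ 1) = e) :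
    ∃ φ : R →ₐ[k] E, u = lam φ ∧ ∀ r, φ r = u (1 ⊗ₜ r) := by
  have hc : ∀ c, u (1 ⊗ₜ algebraMap k R c) = algebraMap k E c := by
    intro c
    rw [← hu (algebraMap k E c)]
    congr 1
    rw [Algebra.algebraMap_eq_smul_one, Algebra.algebraMap_eq_smul_one,
      TensorProduct.tmul_smul, TensorProduct.smul_tmul']
  let φ : R →ₐ[k] E := { u.comp (iR (k := k) E R) with commutes' := hc }
  refine ⟨φ, ?_, fun r => rfl⟩
  refine RingHom.ext fun v => ?_
  refine tensor_ind (f := u) (g := lam φ) ?_ ?_ v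
  · intro e
    rw [hu, lam_tmul, map_one, mul_one]
  · intro r
    rw [lam_tmul, one_mul]
    rfl

end Alg

section Piece

theorem ww_π {A R : Type} [CommRing A] [CommRing R] {X : Scheme.{0}} {U : X.Opens}
    (hU : IsAffineOpen U) (e : Γ(X, U) ≃+* R) (π : X ⟶ Sp A) (u : A →+* R)
    (h : ∀ a, e (coef π U a) = u a) : ww hU e ≫ π = spMap u := by
  have h2 : ∀ c, gm (ww hU e) U (ww_le _ _) (coef π U c) =
      (Spec.preimage (ww hU e ≫ π)).hom c := by
    intro c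
    refine gm_coef (ww hU e) π (Spec.preimage (ww hU e ≫ π)).hom ?_ U _ c
    exact (Spec.map_preimage _).symm
  rw [← Spec.map_preimage (ww hU e ≫ π)]
  congr 1
  ext c
  change (Spec.preimage (ww hU e ≫ π)).hom c = u c
  rw [← h2, ww_gm, h]

end Piece

section Fit

variable {n : ℕ} {k : Type} [Field k] {T : TC k} {C : Fam n k} (ct : Charted T C) (ha : ct.Aff)
  {E J : Type} [CommRing E] [Algebra k E] [Fintype J] {S : SqE k E J}
  (hS : ∀ c, algebraMap k E c = S.i c)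

/-- The reduction of a chart of the thickening. -/
theorem red_chart (t : Thk S C) {U : C.X.Opens} (hU : IsAffineOpen U)
    (hU' : IsAffineOpen (t.op U)) {R : Type} [CommRing R] [Algebra k R] (e : Γ(C.X, U) ≃+* R)
    (ψ : (E ⊗[k] R) ≃+* Γ(t.y.X, t.op U)) (h : ∀ v, e (t.q U (ψ v)) = rd0 S hS R v) :
    ww hU e ≫ t.r.f = spMap (rd0 S hS R) ≫ ww hU' ψ.symm := by
  have hle : ⊤ ≤ (ww hU e ≫ t.r.f) ⁻¹ᵁ (t.op U) := by
    intro a ha
    have h1 : ww hU e a ∈ t.r.f ⁻¹ᵁ (t.op U) := by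
      rw [t.pre]
      exact ww_le hU e ha
    change (ww hU e ≫ t.r.f) a ∈ t.op U
    rw [Scheme.Hom.comp_apply]
    exact h1
  refine ww_eq hU' ψ.symm _ hle _ fun v => ?_
  have h1 := gm_nat t.r.f (ww hU e ≫ t.r.f) (ww hU e) (RingHom.id R)
    (spMap_id_comp _).symm (t.op U) U hle (ww_le hU e) (t.pre U).ge v
  rw [ww_gm] at h1
  have h2 : gm (ww hU e ≫ t.r.f) (t.op U) hle v = e (t.q U v) := h1.symm
  rw [h2]
  have h3 := h (ψ.symm v)
  rw [ψ.apply_symm_apply] at h3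
  exact h3

include ha in
theorem fits_of (t : Thk S C) (s : Fin n → Pt T k) (hs : ∀ i, ct.Is (C.σ i) (s i))
    (hh : J → k ⊗[k] T.R12) (δ : J → Fin n → k) (H : KS ct t s hs hh δ) :
    ∃ i1 i2, Fits ct ha hS (fun j => -(Algebra.TensorProduct.lid k T.R12 (hh j))) t i1 i2 ∧
      (∀ i φ, s i = .one φ → ∃ φ' : T.R1 →ₐ[k] E, t.y.σ i = spMap (lam φ') ≫ i1 ∧
        (∀ a, S.p (φ' a) = φ a) ∧ φ' T.x = S.i (φ T.x) + ∑ j, S.ε j * S.i (δ j i)) ∧
      (∀ i φ, s i = .two φ → ∃ φ' : T.R2 →ₐ[k] E, t.y.σ i = spMap (lam φ') ≫ i2 ∧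
        (∀ a, S.p (φ' a) = φ a) ∧ φ' T.y = S.i (φ T.y) + ∑ j, S.ε j * S.i (δ j i)) := by
  obtain ⟨H3, ⟨K⟩⟩ := H
  have A1 := t_AFF t ct.U1 ha.aff1
  have A2 := t_AFF t ct.U2 ha.aff2
  have A12 := t_AFF t (ct.U1 ⊓ ct.U2) ha.aff12
  obtain ⟨ψ1, e1, r1, q1⟩ := exists_equiv S hS (rd ct t H3).a1 (rd ct t H3).q1 (rd ct t H3).qa1
    (rd ct t H3).ker1 (rd ct t H3).un1 K.θ1 (fun c => K.k1 c) K.l1
  obtain ⟨ψ2, e2, r2, q2⟩ := exists_equiv S hS (rd ct t H3).a2 (rd ct t H3).q2 (rd ct t H3).qa2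
    (rd ct t H3).ker2 (rd ct t H3).un2 K.θ2 (fun c => K.k2 c) K.l2
  have k12 : ∀ c : k, K.t1 (algebraMap k T.R12 c) = (rd ct t H3).a12 (S.i c) := by
    intro c
    rw [← T.j1.commutes c, K.e1, K.k1, (rd ct t H3).fa1]
    rfl
  obtain ⟨ψ12, e12, r12, q12⟩ := exists_equiv S hS (rd ct t H3).a12 (rd ct t H3).q12
    (rd ct t H3).qa12 (rd ct t H3).ker12 (rd ct t H3).un12 K.t1 k12 K.lt1
  let h : J → T.R12 := fun j => -(Algebra.TensorProduct.lid k T.R12 (hh j))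
  let D := rd ct t H3
  -- restriction in terms of the charts
  have hf1 : ∀ v, D.f1 (ψ1 v) = ψ12 (mE T.j1 v) := by
    intro v
    refine tensor_ind (f := D.f1.comp (ψ1 : E ⊗[k] T.R1 →+* D.G1))
      (g := (ψ12 : E ⊗[k] T.R12 →+* D.G12).comp (mE T.j1)) ?_ ?_ v
    · intro e
      change D.f1 (ψ1 (e ⊗ₜ 1)) = ψ12 (mE T.j1 (e ⊗ₜ 1))
      rw [e1, mE_tmul, map_one, e12]
      exact D.fa1 e
    · intro r
      change D.f1 (ψ1 (1 ⊗ₜ r)) = ψ12 (mE T.j1 (1 ⊗ₜ r))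
      rw [r1, mE_tmul, r12]
      exact (K.e1 r).symm
  have keps : ∀ (j : J) (v : D.G12), D.q12 v = 0 → D.a12 (S.ε j) * v = 0 := by
    intro j v hv
    obtain ⟨w, rfl⟩ := D.ker12 v hv
    rw [Finset.mul_sum]
    refine Finset.sum_eq_zero fun i _ => ?_
    rw [← mul_assoc, ← map_mul, S.mul, map_zero, zero_mul]
  have ht2 : ∀ a, ψ12 (tE S T.dd h (1 ⊗ₜ a)) = K.t2 a := by
    intro a
    have h1 : tE S T.dd h (1 ⊗ₜ a) = 1 ⊗ₜ a + ∑ j, (S.ε j) ⊗ₜ[k] (h j * T.dd a) :=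
      tw_right S T.dd h a
    obtain ⟨v, hv1, hv2⟩ := K.diff a
    rw [h1, map_add, r12, map_sum]
    have h2 : ∀ j, ψ12 ((S.ε j) ⊗ₜ[k] (h j * T.dd a)) = - (D.a12 (S.ε j) * v j) := by
      intro j
      have h3 : (S.ε j) ⊗ₜ[k] (h j * T.dd a) = (S.ε j ⊗ₜ[k] 1) * (1 ⊗ₜ[k] (h j * T.dd a)) := by
        simp
      have h4 : D.a12 (S.ε j) * (K.t1 (h j * T.dd a) + v j) = 0 := by
        apply keps
        have h5 : D.q12 (K.t1 (h j * T.dd a)) = 1 ⊗ₜ (h j * T.dd a) := K.lt1 _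
        have h6 : D.q12 (v j) = hh j * (1 ⊗ₜ T.dd a) := hv1 j
        rw [map_add, h5, h6]
        conv_lhs => rw [one_lid (hh j)]
        rw [Algebra.TensorProduct.tmul_mul_tmul, mul_one, ← TensorProduct.tmul_add]
        change 1 ⊗ₜ[k] (-(Algebra.TensorProduct.lid k T.R12 (hh j)) * T.dd a + _) = _
        rw [neg_mul, neg_add_cancel, TensorProduct.tmul_zero]
      rw [h3, map_mul, e12, r12]
      rw [mul_add] at h4
      exact eq_neg_of_add_eq_zero_left h4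
    rw [Finset.sum_congr rfl fun j _ => h2 j, hv2, Finset.sum_neg_distrib]
    exact add_neg_cancel_right _ _
  have hf2 : ∀ v, D.f2 (ψ2 v) = ψ12 (tE S T.dd h (mE T.j2 v)) := by
    intro v
    refine tensor_ind (f := D.f2.comp (ψ2 : E ⊗[k] T.R2 →+* D.G2))
      (g := (ψ12 : E ⊗[k] T.R12 →+* D.G12).comp ((tE S T.dd h).comp (mE T.j2))) ?_ ?_ v
    · intro e
      change D.f2 (ψ2 (e ⊗ₜ 1)) = ψ12 (tE S T.dd h (mE T.j2 (e ⊗ₜ 1)))
      have h1 : tE S T.dd h (e ⊗ₜ 1) = e ⊗ₜ 1 := tw_left S T.dd h e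
      rw [e2, mE_tmul, map_one, h1, e12]
      exact D.fa2 e
    · intro r
      change D.f2 (ψ2 (1 ⊗ₜ r)) = ψ12 (tE S T.dd h (mE T.j2 (1 ⊗ₜ r)))
      rw [r2, mE_tmul, ht2]
      exact (K.e2 r).symm
  let Ψ1 : (E ⊗[k] T.R1) ≃+* Γ(t.y.X, t.op ct.U1) := ψ1
  let Ψ2 : (E ⊗[k] T.R2) ≃+* Γ(t.y.X, t.op ct.U2) := ψ2
  let Ψ12 : (E ⊗[k] T.R12) ≃+* Γ(t.y.X, t.op (ct.U1 ⊓ ct.U2)) := ψ12
  let i1 := ww A1 Ψ1.symm
  let i2 := ww A2 Ψ2.symm
  let i12 := ww A12 Ψ12.symm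
  have c1' : i12 = spMap (mE (E := E) T.j1) ≫ i1 := by
    have hl : ⊤ ≤ i12 ⁻¹ᵁ (t.op ct.U1) :=
      (ww_le A12 Ψ12.symm).trans fun _ hx => t.op_mono inf_le_left hx
    refine ww_eq A1 Ψ1.symm i12 hl _ fun v => ?_
    have h1 := gm_rs i12 (RingHom.id (E ⊗[k] T.R12)) i12 (spMap_id_comp _).symm
      (W := t.op ct.U1) (W' := t.op (ct.U1 ⊓ ct.U2)) (t.op_mono inf_le_left) hl
      (ww_le A12 Ψ12.symm) v
    rw [ww_gm] at h1
    have h2 : gm i12 (t.op ct.U1) hl v = Ψ12.symm (rs t.y.X (t.op_mono inf_le_left) v) := h1.symm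
    rw [h2, RingEquiv.symm_apply_eq]
    have h3 := hf1 (Ψ1.symm v)
    have h4 : ψ1 (Ψ1.symm v) = v := Ψ1.apply_symm_apply v
    rw [h4] at h3
    exact h3
  have c2' : i12 = spMap ((tE S T.dd h).comp (mE (E := E) T.j2)) ≫ i2 := by
    have hl : ⊤ ≤ i12 ⁻¹ᵁ (t.op ct.U2) :=
      (ww_le A12 Ψ12.symm).trans fun _ hx => t.op_mono inf_le_right hx
    refine ww_eq A2 Ψ2.symm i12 hl _ fun v => ?_
    have h1 := gm_rs i12 (RingHom.id (E ⊗[k] T.R12)) i12 (spMap_id_comp _).symm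
      (W := t.op ct.U2) (W' := t.op (ct.U1 ⊓ ct.U2)) (t.op_mono inf_le_right) hl
      (ww_le A12 Ψ12.symm) v
    rw [ww_gm] at h1
    have h2 : gm i12 (t.op ct.U2) hl v = Ψ12.symm (rs t.y.X (t.op_mono inf_le_right) v) := h1.symm
    rw [h2, RingEquiv.symm_apply_eq]
    have h3 := hf2 (Ψ2.symm v)
    have h4 : ψ2 (Ψ2.symm v) = v := Ψ2.apply_symm_apply v
    rw [h4] at h3
    exact h3
  have o12 : IsOpenImmersion i12 := inferInstanceAs (IsOpenImmersion (ww A12 Ψ12.symm))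
  have rr12 : i12.opensRange = t.op (ct.U1 ⊓ ct.U2) := ww_range A12 Ψ12.symm
  refine ⟨i1, i2, {
    o1 := inferInstanceAs (IsOpenImmersion (ww A1 Ψ1.symm))
    o2 := inferInstanceAs (IsOpenImmersion (ww A2 Ψ2.symm))
    r1 := ww_range A1 Ψ1.symm
    r2 := ww_range A2 Ψ2.symm
    o12 := by
      rw [← c1']
      exact o12
    r12 := ?_
    comm := by
      rw [← c1']
      exact c2'
    c1 := ?_
    c2 := ?_
    p1 := ?_
    p2 := ?_ }, ?_, ?_⟩
  · have : ∀ (i : Sp (E ⊗[k] T.R12) ⟶ t.y.X) (_ : i12 = i) [IsOpenImmersion i],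
        i.opensRange = t.op (ct.U1 ⊓ ct.U2) := by
      intro i hi _
      subst hi
      exact rr12
    have o12' : IsOpenImmersion (spMap (mE (E := E) T.j1) ≫ i1) := by
      rw [← c1']
      exact o12
    exact this _ c1'
  · refine red_chart hS t ha.aff1 A1 (ee1 ct) Ψ1 fun v => ?_
    apply one_inj (k := k)
    rw [← ee1_eq]
    exact q1 v
  · refine red_chart hS t ha.aff2 A2 (ee2 ct) Ψ2 fun v => ?_
    apply one_inj (k := k)
    rw [← ee2_eq]
    exact q2 v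
  · refine ww_π A1 Ψ1.symm t.y.π _ fun a => ?_
    rw [RingEquiv.symm_apply_eq]
    exact (e1 a).symm
  · refine ww_π A2 Ψ2.symm t.y.π _ fun a => ?_
    rw [RingEquiv.symm_apply_eq]
    exact (e2 a).symm
  · intro i φ hi
    have key : ∀ (sp : Pt T k) (hsp : ct.Is (C.σ i) sp)
        (_ : (rd ct t H3).Dlt (K.θ1 T.x) (K.θ2 T.y) sp (rsec ct t H3 i sp hsp)
          (fun j => δ j i)) (φ : T.R1 →ₐ[k] k) (_ : sp = .one φ),
        ∃ φ' : T.R1 →ₐ[k] E, t.y.σ i = spMap (lam φ') ≫ i1 ∧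
          (∀ a, S.p (φ' a) = φ a) ∧ φ' T.x = S.i (φ T.x) + ∑ j, S.ε j * S.i (δ j i) := by
      intro sp hsp hd φ hφ
      subst hφ
      have hsp' : ct.Is1 (C.σ i) φ := hsp
      obtain ⟨φ', hφ1, hφ2⟩ := exists_lam
        ((t.ev i hsp'.1).comp (Ψ1 : E ⊗[k] T.R1 →+* Γ(t.y.X, t.op ct.U1))) (fun e => by
          change t.ev i hsp'.1 (ψ1 (e ⊗ₜ 1)) = e
          rw [e1]
          exact t.ev_coef i hsp'.1 e)
      have hφ3 : ∀ r, φ' r = t.ev i hsp'.1 (K.θ1 r) := fun r => by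
        rw [hφ2, ← r1]
        rfl
      refine ⟨φ', ?_, ?_, ?_⟩
      · rw [← hφ1]
        refine ww_eq A1 Ψ1.symm (t.y.σ i) (t.sec_le i hsp'.1) _ fun v => ?_
        change t.ev i hsp'.1 v = t.ev i hsp'.1 (Ψ1 (Ψ1.symm v))
        rw [Ψ1.apply_symm_apply]
      · intro a
        rw [hφ3]
        have h1 := (rsec1 ct t H3 i φ hsp').gq (K.θ1 a)
        refine h1.trans ?_
        rw [K.l1]
        simp [extA]
      · rw [hφ3]
        exact hd
    exact key _ (hs i) (K.dl i) φ hi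
  · intro i φ hi
    have key : ∀ (sp : Pt T k) (hsp : ct.Is (C.σ i) sp)
        (_ : (rd ct t H3).Dlt (K.θ1 T.x) (K.θ2 T.y) sp (rsec ct t H3 i sp hsp)
          (fun j => δ j i)) (φ : T.R2 →ₐ[k] k) (_ : sp = .two φ),
        ∃ φ' : T.R2 →ₐ[k] E, t.y.σ i = spMap (lam φ') ≫ i2 ∧
          (∀ a, S.p (φ' a) = φ a) ∧ φ' T.y = S.i (φ T.y) + ∑ j, S.ε j * S.i (δ j i) := by
      intro sp hsp hd φ hφ
      subst hφ
      have hsp' : ct.Is2 (C.σ i) φ := hsp
      obtain ⟨φ', hφ1, hφ2⟩ := exists_lam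
        ((t.ev i hsp'.1).comp (Ψ2 : E ⊗[k] T.R2 →+* Γ(t.y.X, t.op ct.U2))) (fun e => by
          change t.ev i hsp'.1 (ψ2 (e ⊗ₜ 1)) = e
          rw [e2]
          exact t.ev_coef i hsp'.1 e)
      have hφ3 : ∀ r, φ' r = t.ev i hsp'.1 (K.θ2 r) := fun r => by
        rw [hφ2, ← r2]
        rfl
      refine ⟨φ', ?_, ?_, ?_⟩
      · rw [← hφ1]
        refine ww_eq A2 Ψ2.symm (t.y.σ i) (t.sec_le i hsp'.1) _ fun v => ?_
        change t.ev i hsp'.1 v = t.ev i hsp'.1 (Ψ2 (Ψ2.symm v))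
        rw [Ψ2.apply_symm_apply]
      · intro a
        rw [hφ3]
        have h1 := (rsec2 ct t H3 i φ hsp').gq (K.θ2 a)
        refine h1.trans ?_
        rw [K.l2]
        simp [extA]
      · rw [hφ3]
        exact hd
    exact key _ (hs i) (K.dl i) φ hi

section Push

variable {ct ha hS} {h : J → T.R12} {t t' : Thk S C} {i1 : Sp (E ⊗[k] T.R1) ⟶ t.y.X}
  {i2 : Sp (E ⊗[k] T.R2) ⟶ t.y.X} {i1' : Sp (E ⊗[k] T.R1) ⟶ t'.y.X}
  {i2' : Sp (E ⊗[k] T.R2) ⟶ t'.y.X}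

/-- A thickening is the push out of its charts. -/
theorem push (F : Fits ct ha hS h t i1 i2) :
    IsPushout (spMap (mE (E := E) T.j1)) (spMap ((tE S T.dd h).comp (mE (E := E) T.j2))) i1 i2 := by
  have := F.o1
  have := F.o2
  have o1 : IsOpenImmersion (spMap (mE (E := E) T.j1)) := open1 T.j1 (GLU.j1_open ct ha)
  have o2' : IsOpenImmersion (spMap (mE (E := E) T.j2)) := open1 T.j2 (GLU.j2_open ct ha)
  have o2 : IsOpenImmersion (spMap ((tE S T.dd h).comp (mE (E := E) T.j2))) := by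
    have : spMap ((tE S T.dd h).comp (mE (E := E) T.j2)) =
        spMap (tE S T.dd h) ≫ spMap (mE (E := E) T.j2) := by
      rw [← Spec.map_comp, ← CommRingCat.ofHom_comp]
    rw [this]
    infer_instance
  have o12 := F.o12
  refine glue_push F.comm ?_ ?_
  · intro z
    have hz : z ∈ t.op ct.U1 ⊔ t.op ct.U2 := by
      rw [← t.op_sup, ct.cover, t.op_top]
      trivial
    rcases hz with hz | hz
    · left
      have h1 : z ∈ i1.opensRange := by
        rw [F.r1]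
        exact hz
      exact h1
    · right
      have h1 : z ∈ i2.opensRange := by
        rw [F.r2]
        exact hz
      exact h1
  · intro x y hxy
    have h1 : i1 x ∈ t.op ct.U1 := le_range i1 F.r1 (show x ∈ ⊤ by trivial)
    have h2 : i2 y ∈ t.op ct.U2 := le_range i2 F.r2 (show y ∈ ⊤ by trivial)
    have h3 : i1 x ∈ (spMap (mE (E := E) T.j1) ≫ i1).opensRange := by
      rw [F.r12, t.op_inf]
      exact ⟨h1, hxy ▸ h2⟩
    obtain ⟨w, hw⟩ := h3
    refine ⟨w, ?_, ?_⟩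
    · apply i1.isOpenEmbedding.injective
      rw [← Scheme.Hom.comp_apply]
      exact hw
    · apply i2.isOpenEmbedding.injective
      rw [← Scheme.Hom.comp_apply, ← F.comm, ← hxy]
      exact hw

/-- The isomorphism of two thickenings with the same gluing data. -/
theorem exists_iso (F : Fits ct ha hS h t i1 i2) (F' : Fits ct ha hS h t' i1' i2') :
    ∃ f : t.y.X ⟶ t'.y.X, IsIso f ∧ i1 ≫ f = i1' ∧ i2 ≫ f = i2' := by
  have P := push F
  have P' := push F'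
  let f := P.desc i1' i2' F'.comm
  let g := P'.desc i1 i2 F.comm
  have f1 : i1 ≫ f = i1' := P.inl_desc _ _ _
  have f2 : i2 ≫ f = i2' := P.inr_desc _ _ _
  have g1 : i1' ≫ g = i1 := P'.inl_desc _ _ _
  have g2 : i2' ≫ g = i2 := P'.inr_desc _ _ _
  refine ⟨f, ⟨g, ?_, ?_⟩, f1, f2⟩
  · apply P.hom_ext
    · rw [← Category.assoc, f1, g1, Category.comp_id]
    · rw [← Category.assoc, f2, g2, Category.comp_id]
  · apply P'.hom_ext
    · rw [← Category.assoc, g1, f1, Category.comp_id]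
    · rw [← Category.assoc, g2, f2, Category.comp_id]

end Push

include ha in
theorem main (s : Fin n → Pt T k) (hs : ∀ i, ct.Is (C.σ i) (s i))
    (hS : ∀ c, algebraMap k E c = S.i c)
    (hh : J → k ⊗[k] T.R12) (δ : J → Fin n → k) (t t' : Thk S C) (H : KS ct t s hs hh δ)
    (H' : KS ct t' s hs hh δ) :
    ∃ f : Arrow (RingHom.id E) t.y t'.y, t.r.f ≫ f.f = t'.r.f := by
  obtain ⟨i1, i2, F, s1, s2⟩ := fits_of ct ha hS t s hs hh δ H
  obtain ⟨i1', i2', F', s1', s2'⟩ := fits_of ct ha hS t' s hs hh δ H'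
  obtain ⟨f, hf, f1, f2⟩ := exists_iso F F'
  have P := push F
  have hid : spMap (RingHom.id E) = 𝟙 _ := Spec.map_id _
  have hπ : f ≫ t'.y.π = t.y.π := by
    apply P.hom_ext
    · rw [← Category.assoc, f1, F'.p1, F.p1]
    · rw [← Category.assoc, f2, F'.p2, F.p2]
  have hr : t.r.f ≫ f = t'.r.f := by
    apply (w_push ct ha).hom_ext
    · rw [← Category.assoc, F.c1, Category.assoc, f1, F'.c1]
    · rw [← Category.assoc, F.c2, Category.assoc, f2, F'.c2]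
  refine ⟨⟨f, ?_, ?_⟩, hr⟩
  · have : IsIso (spMap (RingHom.id E)) := by
      rw [hid]
      infer_instance
    exact IsPullback.of_horiz_isIso ⟨by rw [hπ, hid, Category.comp_id]⟩
  · intro i
    rw [hid, Category.id_comp]
    rcases hsi : s i with φ | φ
    · obtain ⟨φ1, a1, b1, c1⟩ := s1 i φ hsi
      obtain ⟨φ2, a2, b2, c2⟩ := s1' i φ hsi
      have : φ1 = φ2 := pt_unique S T.etx φ1 φ2 (fun a => by rw [b1, b2]) (by rw [c1, c2])
      subst this
      rw [a1, a2, Category.assoc, f1]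
    · obtain ⟨φ1, a1, b1, c1⟩ := s2 i φ hsi
      obtain ⟨φ2, a2, b2, c2⟩ := s2' i φ hsi
      have : φ1 = φ2 := pt_unique S T.ety φ1 φ2 (fun a => by rw [b1, b2]) (by rw [c1, c2])
      subst this
      rw [a1, a2, Category.assoc, f2]

end Fit

end Pool.Agent.MG.KSU

namespace Pool.Agent.MG

theorem t_KSU0 : Stmt_KSU := by
  intro n k _ T C ct ha s hs E J _ _ S h δ t t' H H'
  let _ : Algebra k E := S.i.toAlgebra
  exact KSU.main ct ha s hs (fun _ => rfl) h δ t t' H H'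

theorem t_KSU (_ : Stmt_SQZ) : Stmt_KSU := t_KSU0

end Pool.Agent.MG


end

section

/-!
# The end of the proof
-/

open CategoryTheory CategoryTheory.Limits AlgebraicGeometry TensorProduct

namespace Pool.Agent.MG

/-- The statements used in the end of the proof. -/
structure Hyp : Prop where
  cov : Stmt_COV
  cou : Stmt_COU
  nat : Stmt_NAT
  chg : Stmt_CHG
  cls : Stmt_CLS
  chb : Stmt_CHB
  cha : Stmt_CHA
  chk : Stmt_CHK
  chi : Stmt_CHI
  tau : Stmt_TAU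
  dis : Stmt_DIS
  cst : Stmt_CST
  bub : Stmt_BUB
  uni : Stmt_UNI
  alg : Stmt_ALG
  loc : Stmt_LOC

section

variable {g n : ℕ} {k : Type} [Field k] [Algebra ℂ k]

/-- The value of a regular function over a `k`-algebra. -/
noncomputable def val (F : Reg g n) {B : Type} [CommRing B] [Algebra k B] (x : Fam n B)
    (hx : IsStable g x) (l : Cov g x) : B :=
  letI : Algebra ℂ B := ((algebraMap k B).comp (algebraMap ℂ k)).toAlgebra
  F.F B x hx l

theorem val_nat (F : Reg g n) {B B' : Type} [CommRing B] [Algebra k B] [CommRing B'] [Algebra k B']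
    (ψ : B →ₐ[k] B') {x : Fam n B} {x' : Fam n B'} (hx : IsStable g x) (hx' : IsStable g x')
    (a : Arrow (ψ : B →+* B') x' x) (l : Cov g x) (l' : Cov g x') (h : Compat a l' l) :
    val (k := k) F x' hx' l' = ψ (val (k := k) F x hx l) := by
  let _ : Algebra ℂ B := ((algebraMap k B).comp (algebraMap ℂ k)).toAlgebra
  let _ : Algebra ℂ B' := ((algebraMap k B').comp (algebraMap ℂ k)).toAlgebra
  let ψ' : B →ₐ[ℂ] B' :=
    { (ψ : B →+* B') with
      commutes' := fun r => by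
        change ψ (algebraMap k B (algebraMap ℂ k r)) = algebraMap k B' (algebraMap ℂ k r)
        exact ψ.commutes _ }
  exact F.nat B B' ψ' x x' hx hx' a l l' h

theorem val_nat' (F : Reg g n) {B : Type} [CommRing B] [Algebra k B]
    (ψ : B →ₐ[k] k) {x : Fam n B} {x' : Fam n k} (hx : IsStable g x) (hx' : IsStable g x')
    (a : Arrow (ψ : B →+* k) x' x) (l : Cov g x) (l' : Cov g x') (h : Compat a l' l) :
    F.F k x' hx' l' = ψ (val (k := k) F x hx l) := by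
  let _ : Algebra ℂ B := ((algebraMap k B).comp (algebraMap ℂ k)).toAlgebra
  let ψ' : B →ₐ[ℂ] k :=
    { (ψ : B →+* k) with
      commutes' := fun r => by
        change ψ (algebraMap k B (algebraMap ℂ k r)) = algebraMap ℂ k r
        exact ψ.commutes _ }
  exact F.nat B k ψ' x x' hx hx' a l l' h

end

section

variable {g n : ℕ} {k : Type} [Field k] {T : TC k}

/-- A stable family with charts and sections given by points. -/
structure Obj (g n : ℕ) (T : TC k) (B : Type) [CommRing B] [Algebra k B] where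
  /-- the family -/
  x : Fam n B
  hx : IsStable g x
  /-- its charts -/
  ct : Charted T x
  /-- its sections -/
  s : Fin n → Pt T B
  hs : ∀ i, ct.Is (x.σ i) (s i)

variable {B : Type} [CommRing B] [Algebra k B]

/-- The covector. -/
noncomputable def Obj.cov (hcov : Stmt_COV) (o : Obj g n T B) (D : CovData o.s) : Cov g o.x :=
  (hcov o.ct o.s o.hs D g).choose

theorem Obj.isCov (hcov : Stmt_COV) (o : Obj g n T B) (D : CovData o.s) :
    IsCov o.ct o.s o.hs D (o.cov hcov D) :=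
  (hcov o.ct o.s o.hs D g).choose_spec

variable [Algebra ℂ k]

/-- The value. -/
noncomputable def Obj.val (hcov : Stmt_COV) (F : Reg g n) (o : Obj g n T B) (D : CovData o.s) : B :=
  MG.val (k := k) F o.x o.hx (o.cov hcov D)

theorem Obj.val_eq (H : Hyp) (F : Reg g n) (o : Obj g n T B) (D : CovData o.s) (l : Cov g o.x)
    (hl : IsCov o.ct o.s o.hs D l) : MG.val (k := k) F o.x o.hx l = o.val H.cov F D := by
  unfold Obj.val
  rw [H.cou o.ct o.s o.hs D g l _ hl (o.isCov H.cov D)]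

variable {B' : Type} [CommRing B'] [Algebra k B']

theorem Obj.val_map (H : Hyp) (F : Reg g n) (o : Obj g n T B) (o' : Obj g n T B')
    (ψ : B →ₐ[k] B') (ha : ∃ a : Arrow (ψ : B →+* B') o'.x o.x, ChArrow a o'.ct o.ct)
    (D : CovData o.s) (D' : CovData o'.s) (hD : D.Map ψ D') :
    o'.val H.cov F D' = ψ (o.val H.cov F D) := by
  obtain ⟨a, ha⟩ := ha
  exact MG.val_nat F ψ o.hx o'.hx a _ _
    (H.nat a ha o.s o.hs o'.s o'.hs D D' hD g _ _ (o.isCov H.cov D) (o'.isCov H.cov D'))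

end

section

variable {g n : ℕ} {k : Type} [Field k] {T : TC k} {C : Fam n k} (ch : Cht C T)

/-- The sections given by `s` are disjoint. -/
def Dis {B : Type} [CommRing B] [Algebra k B] (s : Fin n → Pt T B) : Prop :=
  ∀ (K : Type) [Field K] [IsAlgClosed K] (f : B →+* K) (i j : Fin n), i ≠ j →
    spMap f ≫ tau ch.aff (s i) ≠ spMap f ≫ tau ch.aff (s j)

theorem dis_one (H : Hyp) (i₀ : Fin n) {B : Type} [CommRing B] [Algebra k B]
    (φ : T.R1 →ₐ[k] B)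
    (hφ : ∀ i, i ≠ i₀ → IsUnit (φ (T.x - algebraMap k T.R1 (ch.pt i T.x)))) :
    Dis ch (mv ch i₀ (.one φ)) := by
  intro K _ _ f i j hij
  have key : ∀ i, (∀ φ : T.R1 →ₐ[k] B, IsUnit (φ (T.x - algebraMap k T.R1 (ch.pt i T.x))) →
      spMap f ≫ tau ch.aff (.one φ) ≠
          spMap f ≫ tau ch.aff (.one ((Algebra.ofId k B).comp (ch.pt i)))) := by
    intro i φ h
    exact (H.dis ch B i).1 φ h K f
  unfold mv
  by_cases hi : i = i₀
  · have hj : j ≠ i₀ := fun h => hij (hi.trans h.symm)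
    rw [if_pos hi, if_neg hj]
    exact key j φ (hφ j hj)
  · rw [if_neg hi]
    by_cases hj : j = i₀
    · rw [if_pos hj]
      exact (key i φ (hφ i hi)).symm
    · rw [if_neg hj]
      refine key j _ ?_
      have h1 : ((Algebra.ofId k B).comp (ch.pt i)) (T.x - algebraMap k T.R1 (ch.pt j T.x)) =
          algebraMap k B (ch.pt i T.x - ch.pt j T.x) := by
        simp [Algebra.ofId_apply]
      rw [h1]
      have h2 : ch.pt i T.x - ch.pt j T.x ≠ 0 := sub_ne_zero.2 (ch.ne i j hij)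
      exact (IsUnit.mk0 _ h2).map (algebraMap k B)

theorem dis_two (H : Hyp) (i₀ : Fin n) {B : Type} [CommRing B] [Algebra k B]
    (ψ : T.R2 →ₐ[k] B) : Dis ch (mv ch i₀ (.two ψ)) := by
  intro K _ _ f i j hij
  unfold mv
  by_cases hi : i = i₀
  · have hj : j ≠ i₀ := fun h => hij (hi.trans h.symm)
    rw [if_pos hi, if_neg hj]
    exact (H.dis ch B j).2 ψ K f
  · rw [if_neg hi]
    by_cases hj : j = i₀
    · rw [if_pos hj]
      exact ((H.dis ch B i).2 ψ K f).symm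
    · rw [if_neg hj]
      refine (H.dis ch B j).1 _ ?_ K f
      have h1 : ((Algebra.ofId k B).comp (ch.pt i)) (T.x - algebraMap k T.R1 (ch.pt j T.x)) =
          algebraMap k B (ch.pt i T.x - ch.pt j T.x) := by
        simp [Algebra.ofId_apply]
      rw [h1]
      have h2 : ch.pt i T.x - ch.pt j T.x ≠ 0 := sub_ne_zero.2 (ch.ne i j hij)
      exact (IsUnit.mk0 _ h2).map (algebraMap k B)

variable [IsAlgClosed k]

/-- What is assumed of the curve. -/
structure Cur (g : ℕ) : Prop where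
  hC : IsStable g C
  hs : SmoothOfRelativeDimension 1 C.π
  hnot : ∀ (j : ℕ), 1 ≤ j → ∀ (a : T.R1) (b : T.R2), T.j1 a = T.e ^ j * T.j2 b → a = 0

variable (Q : Cur (T := T) (C := C) g)

theorem Cur.not1 {g : ℕ} (Q : Cur (T := T) (C := C) g) (a : T.R1) (b : T.R2) (h : T.j1 a = T.e * T.j2 b) : a = 0 :=
  Q.hnot 1 le_rfl a b (by rw [pow_one]; exact h)

/-- The constant family with sections `s`. -/
noncomputable def cobj (H : Hyp) {B : Type} [CommRing B] [Algebra k B] (s : Fin n → Pt T B)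
    (hd : Dis ch s) : Obj g n T B where
  x := constFam C B (fun i => tau ch.aff (s i)) (fun i => (H.tau ch.ct ch.aff).1 B (s i))
  hx := H.cst g C Q.hC Q.hs T ch Q.not1 B _ _ hd
  ct := (H.chb ch.ct ch.aff B (fun i => tau ch.aff (s i))
    (fun i => (H.tau ch.ct ch.aff).1 B (s i))).choose
  s := s
  hs i := (H.chi ch.ct ch.aff B _ _ _ (H.chb ch.ct ch.aff B (fun i => tau ch.aff (s i))
    (fun i => (H.tau ch.ct ch.aff).1 B (s i))).choose_spec i).1 (s i) rfl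

theorem cobj_bc (H : Hyp) {B : Type} [CommRing B] [Algebra k B] (s : Fin n → Pt T B)
    (hd : Dis ch s) : IsBC (hτ := fun i => (H.tau ch.ct ch.aff).1 B (s i)) ch.ct
      (cobj ch Q H s hd).ct :=
  (H.chb ch.ct ch.aff B (fun i => tau ch.aff (s i))
    (fun i => (H.tau ch.ct ch.aff).1 B (s i))).choose_spec

theorem cobj_arrow (H : Hyp) {B : Type} [CommRing B] [Algebra k B] {B' : Type} [CommRing B']
    [Algebra k B'] (ψ : B →ₐ[k] B') (s : Fin n → Pt T B) (hd : Dis ch s) (s' : Fin n → Pt T B')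
    (hd' : Dis ch s') (hs : ∀ i, tau ch.aff (s' i) = spMap (ψ : B →+* B') ≫ tau ch.aff (s i)) :
    ∃ a : Arrow (ψ : B →+* B') (cobj ch Q H s' hd').x (cobj ch Q H s hd).x,
      ChArrow a (cobj ch Q H s' hd').ct (cobj ch Q H s hd).ct :=
  H.cha ch.ct ch.aff B B' ψ _ _ _ _ _ _ (cobj_bc ch Q H s hd) (cobj_bc ch Q H s' hd') hs

/-- The coordinate which vanishes at `pᵢ`. -/
noncomputable def zE (i : Fin n) : T.R1 := T.x - algebraMap k T.R1 (ch.pt i T.x)

theorem zE_ne (i : Fin n) : ch.pt i (zE ch i) = 0 := by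
  unfold zE
  simp

theorem map_mv {B : Type} [CommRing B] [Algebra k B] {B' : Type} [CommRing B']
    [Algebra k B'] (ψ : B →ₐ[k] B') (i₀ : Fin n) (s : Pt T B) (i : Fin n) :
    (mv ch i₀ s i).map ψ = mv ch i₀ (s.map ψ) i := by
  unfold mv
  by_cases h : i = i₀
  · rw [if_pos h, if_pos h]
  · rw [if_neg h, if_neg h]
    simp only [Pt.map, Pt.one.injEq]
    ext a
    simp [Algebra.ofId_apply]

theorem cobj_arrow' (H : Hyp) {B : Type} [CommRing B] [Algebra k B] {B' : Type} [CommRing B']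
    [Algebra k B'] (ψ : B →ₐ[k] B') (i₀ : Fin n) (s : Pt T B) (s' : Pt T B')
    (hd : Dis ch (mv ch i₀ s)) (hd' : Dis ch (mv ch i₀ s'))
    (hs : tau ch.aff s' = tau ch.aff (s.map ψ)) :
    ∃ a : Arrow (ψ : B →+* B') (cobj ch Q H _ hd').x (cobj ch Q H _ hd).x,
      ChArrow a (cobj ch Q H _ hd').ct (cobj ch Q H _ hd).ct := by
  refine cobj_arrow ch Q H ψ _ hd _ hd' fun i => ?_
  rw [← (H.tau ch.ct ch.aff).2.1 B B' ψ, map_mv]
  unfold mv
  by_cases h : i = i₀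
  · rw [if_pos h, if_pos h, hs]
  · rw [if_neg h, if_neg h]

/-- Constants of a polynomial ring. -/
noncomputable def cAlg (k R V : Type) [Field k] [CommRing R] [Algebra k R] :
    R →ₐ[k] MvPolynomial V R :=
  IsScalarTower.toAlgHom k R (MvPolynomial V R)

@[simp]
theorem cAlg_apply (k R V : Type) [Field k] [CommRing R] [Algebra k R] (r : R) :
    cAlg k R V r = MvPolynomial.C r := rfl

/-- The product of the `z i`. -/
noncomputable def PP (s : Finset (Fin n)) : T.R1 := ∏ i ∈ s, zE ch i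

/-- The universal ring with the moving point away from the `p i`, `i ∈ s`. -/
abbrev SS (ι : Type) (s : Finset (Fin n)) : Type :=
  Localization.Away (MvPolynomial.C (PP ch s) : MvPolynomial (Fin n ⊕ ι) T.R1)

/-- The universal moving point. -/
noncomputable def ph (ι : Type) (s : Finset (Fin n)) : T.R1 →ₐ[k] SS ch ι s :=
  (IsScalarTower.toAlgHom k (MvPolynomial (Fin n ⊕ ι) T.R1) (SS ch ι s)).comp
    (cAlg k T.R1 (Fin n ⊕ ι))

theorem ph_apply (ι : Type) (s : Finset (Fin n)) (r : T.R1) :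
    ph ch ι s r = algebraMap (MvPolynomial (Fin n ⊕ ι) T.R1) (SS ch ι s) (MvPolynomial.C r) := rfl

theorem ph_unit (ι : Type) (s : Finset (Fin n)) (i : Fin n) (hi : i ∈ s) :
    IsUnit (ph ch ι s (zE ch i)) := by
  rw [ph_apply]
  have h1 : IsUnit (algebraMap (MvPolynomial (Fin n ⊕ ι) T.R1) (SS ch ι s)
      (MvPolynomial.C (PP ch s))) :=
    IsLocalization.Away.algebraMap_isUnit _
  have h2 : zE ch i ∣ PP ch s := Finset.dvd_prod_of_mem _ hi
  have h3 : algebraMap (MvPolynomial (Fin n ⊕ ι) T.R1) (SS ch ι s) (MvPolynomial.C (zE ch i)) ∣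
      algebraMap (MvPolynomial (Fin n ⊕ ι) T.R1) (SS ch ι s) (MvPolynomial.C (PP ch s)) :=
    map_dvd _ (map_dvd _ h2)
  exact isUnit_of_dvd_unit h3 h1

/-- Homomorphisms from the universal ring. -/
noncomputable def SSlift (ι : Type) (s : Finset (Fin n)) {B : Type} [CommRing B] [Algebra k B]
    (θ : MvPolynomial (Fin n ⊕ ι) T.R1 →ₐ[k] B) (h : IsUnit (θ (MvPolynomial.C (PP ch s)))) :
    SS ch ι s →ₐ[k] B :=
  IsLocalization.liftAlgHom (M := Submonoid.powers (MvPolynomial.C (PP ch s) :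
    MvPolynomial (Fin n ⊕ ι) T.R1)) (f := θ) (by
      rintro ⟨y, m, rfl⟩
      change IsUnit (θ ((MvPolynomial.C (PP ch s)) ^ m))
      rw [map_pow]
      exact h.pow m)

theorem SSlift_apply (ι : Type) (s : Finset (Fin n)) {B : Type} [CommRing B] [Algebra k B]
    (θ : MvPolynomial (Fin n ⊕ ι) T.R1 →ₐ[k] B) (h : IsUnit (θ (MvPolynomial.C (PP ch s))))
    (y : MvPolynomial (Fin n ⊕ ι) T.R1) :
    SSlift ch ι s θ h (algebraMap _ (SS ch ι s) y) = θ y := by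
  unfold SSlift
  simp

theorem SSlift_ph (ι : Type) (s : Finset (Fin n)) {B : Type} [CommRing B] [Algebra k B]
    (θ : MvPolynomial (Fin n ⊕ ι) T.R1 →ₐ[k] B) (h : IsUnit (θ (MvPolynomial.C (PP ch s))))
    (r : T.R1) : SSlift ch ι s θ h (ph ch ι s r) = θ (MvPolynomial.C r) := by
  rw [ph_apply, SSlift_apply]

section core

variable [Algebra ℂ k] (H : Hyp) (F : Reg g n) {ι : Type} {D : ι → T.R12}

/-- Universal covector data. -/
structure Uni (D : ι → T.R12) : Prop where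
  ex : ∀ (n : ℕ) (B : Type) [CommRing B] [Algebra k B] (s : Fin n → Pt T B)
    (ν : Fin n → B) (w : ι → B), ∃ C : CovData s, C.ν = ν ∧ ∀ a, C.μ (D a) = w a
  un : ∀ (n : ℕ) (B : Type) [CommRing B] [Algebra k B] (s : Fin n → Pt T B)
    (C C' : CovData s), C.ν = C'.ν → (∀ a, C.μ (D a) = C'.μ (D a)) → C = C'

variable (U : Uni D)

/-- The covector data with given weights. -/
noncomputable def Uni.cd {D : ι → T.R12} (U : Uni D) {n : ℕ} {B : Type} [CommRing B] [Algebra k B]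
    (s : Fin n → Pt T B) (v : Fin n ⊕ ι → B) : CovData s :=
  (U.ex n B s (fun i => v (.inl i)) (fun a => v (.inr a))).choose

theorem Uni.cd_ν {D : ι → T.R12} (U : Uni D) {n : ℕ} {B : Type} [CommRing B] [Algebra k B]
    (s : Fin n → Pt T B) (v : Fin n ⊕ ι → B) (i : Fin n) : (U.cd s v).ν i = v (.inl i) :=
  congrFun (U.ex n B s (fun i => v (.inl i)) (fun a => v (.inr a))).choose_spec.1 i

theorem Uni.cd_μ {D : ι → T.R12} (U : Uni D) {n : ℕ} {B : Type} [CommRing B] [Algebra k B]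
    (s : Fin n → Pt T B) (v : Fin n ⊕ ι → B) (a : ι) : (U.cd s v).μ (D a) = v (.inr a) :=
  (U.ex n B s (fun i => v (.inl i)) (fun a => v (.inr a))).choose_spec.2 a

/-- The base change of covector data. -/
def CovData.bc {n : ℕ} {B : Type} [CommRing B] [Algebra k B] {B' : Type} [CommRing B']
    [Algebra k B'] (ψ : B →ₐ[k] B') {s : Fin n → Pt T B} (C : CovData s) {s' : Fin n → Pt T B'}
    (hs : ∀ i, s' i = (s i).map ψ) : CovData s' where
  μ := ψ.toLinearMap ∘ₗ C.μ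
  ν i := ψ (C.ν i)
  m1 a := by
    have h := congrArg ψ (C.m1 a)
    rw [map_add, map_sum, map_zero] at h
    refine Eq.trans ?_ h
    congr 1
    refine Finset.sum_congr rfl fun i _ => ?_
    rw [map_mul, hs i]
    congr 1
    cases s i <;> simp [Pt.map, Pt.l1]
  m2 a := by
    have h := congrArg ψ (C.m2 a)
    rw [map_sum] at h
    refine h.trans ?_
    refine Finset.sum_congr rfl fun i _ => ?_
    rw [map_mul, hs i]
    congr 1
    cases s i <;> simp [Pt.map, Pt.l2]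

theorem CovData.bc_map {n : ℕ} {B : Type} [CommRing B] [Algebra k B] {B' : Type} [CommRing B']
    [Algebra k B'] (ψ : B →ₐ[k] B') {s : Fin n → Pt T B} (C : CovData s) {s' : Fin n → Pt T B'}
    (hs : ∀ i, s' i = (s i).map ψ) : C.Map ψ (C.bc ψ hs) :=
  ⟨hs, fun _ => rfl, fun _ => rfl⟩

/-- Universal data map to universal data. -/
theorem Uni.map {D : ι → T.R12} (U : Uni D) {n : ℕ} {B : Type} [CommRing B] [Algebra k B]
    {B' : Type} [CommRing B'] [Algebra k B'] (ψ : B →ₐ[k] B') {s : Fin n → Pt T B}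
    {s' : Fin n → Pt T B'} (hs : ∀ i, s' i = (s i).map ψ) (v : Fin n ⊕ ι → B)
    (v' : Fin n ⊕ ι → B') (hv : ∀ j, v' j = ψ (v j)) : (U.cd s v).Map ψ (U.cd s' v') := by
  have : U.cd s' v' = (U.cd s v).bc ψ hs := by
    apply U.un
    · funext i
      rw [U.cd_ν, hv]
      change _ = ψ ((U.cd s v).ν i)
      rw [U.cd_ν]
    · intro a
      rw [U.cd_μ, hv]
      change _ = ψ ((U.cd s v).μ (D a))
      rw [U.cd_μ]
  rw [this]
  exact CovData.bc_map ψ _ hs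

/-- The universal object with moving section in the first chart. -/
noncomputable def o1 (ι : Type) (i₀ : Fin n) :
    Obj g n T (SS ch ι (Finset.univ.erase i₀)) :=
  cobj ch Q H (mv ch i₀ (.one (ph ch ι (Finset.univ.erase i₀))))
    (dis_one ch H i₀ _ fun i hi => ph_unit ch ι _ i (Finset.mem_erase.2 ⟨hi, Finset.mem_univ i⟩))

/-- The value on the universal object. -/
noncomputable def f1 (i₀ : Fin n) : SS ch ι (Finset.univ.erase i₀) :=
  (o1 ch Q H ι i₀).val H.cov F (U.cd _ fun j =>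
    algebraMap (MvPolynomial (Fin n ⊕ ι) T.R1) (SS ch ι (Finset.univ.erase i₀))
      (MvPolynomial.X j))

/-- The universal object with moving section in the second chart. -/
noncomputable def o2 (ι : Type) (i₀ : Fin n) :
    Obj g n T (MvPolynomial (Fin n ⊕ ι) T.R2) :=
  cobj ch Q H (mv ch i₀ (.two (cAlg k T.R2 (Fin n ⊕ ι)))) (dis_two ch H i₀ _)

/-- The value on the universal object. -/
noncomputable def f2 (i₀ : Fin n) : MvPolynomial (Fin n ⊕ ι) T.R2 :=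
  (o2 ch Q H ι i₀).val H.cov F (U.cd _ fun j => MvPolynomial.X j)

/-- The localisation map. -/
theorem PP_erase (s : Finset (Fin n)) (j : Fin n) (hj : j ∈ s) :
    PP ch s = PP ch (s.erase j) * zE ch j := by
  unfold PP
  rw [Finset.prod_erase_mul _ _ hj]

theorem PP_unit (ι : Type) (s : Finset (Fin n)) (j : Fin n) (hj : j ∈ s) :
    IsUnit (IsScalarTower.toAlgHom k (MvPolynomial (Fin n ⊕ ι) T.R1) (SS ch ι s)
      (MvPolynomial.C (PP ch (s.erase j)))) := by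
  have h1 : IsUnit (algebraMap (MvPolynomial (Fin n ⊕ ι) T.R1) (SS ch ι s)
      (MvPolynomial.C (PP ch s))) :=
    IsLocalization.Away.algebraMap_isUnit _
  have h2 : PP ch (s.erase j) ∣ PP ch s := ⟨zE ch j, PP_erase ch s j hj⟩
  have h3 : algebraMap (MvPolynomial (Fin n ⊕ ι) T.R1) (SS ch ι s)
      (MvPolynomial.C (PP ch (s.erase j))) ∣
      algebraMap (MvPolynomial (Fin n ⊕ ι) T.R1) (SS ch ι s) (MvPolynomial.C (PP ch s)) :=
    map_dvd _ (map_dvd _ h2)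
  exact isUnit_of_dvd_unit h3 h1

/-- The restriction to the complement of `p j`. -/
noncomputable def SSres (ι : Type) (s : Finset (Fin n)) (j : Fin n) (hj : j ∈ s) :
    SS ch ι (s.erase j) →ₐ[k] SS ch ι s :=
  SSlift ch ι (s.erase j) (IsScalarTower.toAlgHom k (MvPolynomial (Fin n ⊕ ι) T.R1) (SS ch ι s))
    (PP_unit ch ι s j hj)

theorem SSres_apply (ι : Type) (s : Finset (Fin n)) (j : Fin n) (hj : j ∈ s)
    (y : MvPolynomial (Fin n ⊕ ι) T.R1) :
    SSres ch ι s j hj (algebraMap _ (SS ch ι (s.erase j)) y) = algebraMap _ (SS ch ι s) y :=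
  SSlift_apply ch ι (s.erase j) _ (PP_unit ch ι s j hj) y

theorem SSres_ph (ι : Type) (s : Finset (Fin n)) (j : Fin n) (hj : j ∈ s) :
    (SSres ch ι s j hj).comp (ph ch ι (s.erase j)) = ph ch ι s := by
  ext r
  exact SSlift_ph ch ι (s.erase j) _ (PP_unit ch ι s j hj) r

/-- The value extends over `p j`. -/
theorem f1_bub (i₀ : Fin n) (j : Fin n) (hj : j ≠ i₀) :
    ∃ y : SS ch ι ((Finset.univ.erase i₀).erase j),
      SSres ch ι (Finset.univ.erase i₀) j (Finset.mem_erase.2 ⟨hj, Finset.mem_univ j⟩) y =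
        f1 ch Q H F U i₀ := by
  obtain ⟨x, ct, hx, his, harr⟩ := H.bub g C Q.hC Q.hs T ch Q.not1 i₀ j hj
    (SS ch ι ((Finset.univ.erase i₀).erase j)) (ph ch ι _) (fun i hi hij =>
      ph_unit ch ι _ i (Finset.mem_erase.2 ⟨hij, Finset.mem_erase.2 ⟨hi, Finset.mem_univ i⟩⟩))
  let o : Obj g n T (SS ch ι ((Finset.univ.erase i₀).erase j)) := ⟨x, hx, ct, _, his⟩
  have hj' : j ∈ Finset.univ.erase i₀ := Finset.mem_erase.2 ⟨hj, Finset.mem_univ j⟩
  refine ⟨o.val H.cov F (U.cd _ fun v => algebraMap (MvPolynomial (Fin n ⊕ ι) T.R1) _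
    (MvPolynomial.X v)), ?_⟩
  have hs : ∀ i, mv ch i₀ (.one (ph ch ι (Finset.univ.erase i₀))) i =
      (mv ch i₀ (.one (ph ch ι ((Finset.univ.erase i₀).erase j))) i).map
        (SSres ch ι (Finset.univ.erase i₀) j hj') := by
    intro i
    rw [map_mv]
    congr 1
    simp only [Pt.map]
    rw [SSres_ph]
  symm
  have hu : IsUnit (SSres ch ι (Finset.univ.erase i₀) j hj'
      (ph ch ι ((Finset.univ.erase i₀).erase j) (T.x - algebraMap k T.R1 (ch.pt j T.x)))) := by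
    have h1 := ph_unit ch ι (Finset.univ.erase i₀) j hj'
    rw [← SSres_ph ch ι _ j hj'] at h1
    exact h1
  have hτ' : (fun i => tau ch.aff (mv ch i₀ (.one (ph ch ι (Finset.univ.erase i₀))) i)) =
      fun i => tau ch.aff ((mv ch i₀ (.one (ph ch ι ((Finset.univ.erase i₀).erase j))) i).map
        (SSres ch ι (Finset.univ.erase i₀) j hj')) := by
    funext i
    rw [hs i]
  refine Obj.val_map H F o (o1 ch Q H ι i₀) (SSres ch ι (Finset.univ.erase i₀) j hj') ?_ _ _ ?_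
  · have key := harr (SS ch ι (Finset.univ.erase i₀)) (SSres ch ι (Finset.univ.erase i₀) j hj') hu
    have gen : ∀ (τ : Fin n → (Sp (SS ch ι (Finset.univ.erase i₀)) ⟶ C.X))
        (hτ : ∀ i, τ i ≫ C.π = spMap (algebraMap k (SS ch ι (Finset.univ.erase i₀))))
        (c : Charted T (constFam C (SS ch ι (Finset.univ.erase i₀)) τ hτ)), IsBC ch.ct c →
        (τ = fun i => tau ch.aff
          ((mv ch i₀ (.one (ph ch ι ((Finset.univ.erase i₀).erase j))) i).map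
            (SSres ch ι (Finset.univ.erase i₀) j hj'))) →
        ∃ a : Arrow (SSres ch ι (Finset.univ.erase i₀) j hj' : _ →+* _)
          (constFam C (SS ch ι (Finset.univ.erase i₀)) τ hτ) x, ChArrow a c ct := by
      intro τ hτ c hc e
      subst e
      exact key hτ c hc
    exact gen _ _ _ (cobj_bc ch Q H _ _) hτ'
  · exact U.map _ hs _ _ fun v => (SSres_apply ch ι _ j hj' _).symm

theorem zE_ne_zero [Nontrivial T.R12] (i : Fin n) : zE ch i ≠ 0 := by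
  intro h
  have h1 := ch.unit i
  change IsUnit (T.j1 (zE ch i)) at h1
  rw [h, map_zero] at h1
  exact not_isUnit_zero h1

include ch in
theorem domR1 : IsDomain T.R1 := by
  have := ch.dom
  exact ch.inj1.isDomain (T.j1 : T.R1 →+* T.R12)

theorem PP_ne_zero (s : Finset (Fin n)) : PP ch s ≠ 0 := by
  have := ch.dom
  have := domR1 ch
  unfold PP
  exact Finset.prod_ne_zero_iff.2 fun i _ => zE_ne_zero ch i

theorem SS_inj (ι : Type) (s : Finset (Fin n)) :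
    Function.Injective (algebraMap (MvPolynomial (Fin n ⊕ ι) T.R1) (SS ch ι s)) := by
  have := domR1 ch
  refine IsLocalization.injective (SS ch ι s)
    (M := Submonoid.powers (MvPolynomial.C (PP ch s) : MvPolynomial (Fin n ⊕ ι) T.R1)) ?_
  refine powers_le_nonZeroDivisors_of_noZeroDivisors ?_
  rw [Ne, MvPolynomial.C_eq_zero]
  exact PP_ne_zero ch s

/-- The universal value has no poles. -/
theorem f1_regular (i₀ : Fin n) :
    ∃ q : MvPolynomial (Fin n ⊕ ι) T.R1, f1 ch Q H F U i₀ =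
      algebraMap _ (SS ch ι (Finset.univ.erase i₀)) q := by
  have := domR1 ch
  obtain ⟨N, f, hf⟩ := IsLocalization.Away.surj
    (MvPolynomial.C (PP ch (Finset.univ.erase i₀)) : MvPolynomial (Fin n ⊕ ι) T.R1)
    (f1 ch Q H F U i₀)
  have key := H.loc T ch ι (Finset.univ.erase i₀) N f ?_
  · obtain ⟨q, hq⟩ := key
    refine ⟨q, ?_⟩
    have hu : IsUnit (algebraMap (MvPolynomial (Fin n ⊕ ι) T.R1)
        (SS ch ι (Finset.univ.erase i₀)) (MvPolynomial.C (PP ch (Finset.univ.erase i₀))) ^ N) :=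
      (IsLocalization.Away.algebraMap_isUnit _).pow N
    apply hu.mul_right_cancel
    rw [hf, hq]
    have : (MvPolynomial.C ((∏ i ∈ Finset.univ.erase i₀,
        (T.x - algebraMap k T.R1 (ch.pt i T.x))) ^ N) : MvPolynomial (Fin n ⊕ ι) T.R1) =
        MvPolynomial.C (PP ch (Finset.univ.erase i₀)) ^ N := by
      rw [map_pow]
      rfl
    rw [this, map_mul, map_pow, mul_comm]
  · intro j hj
    have hj' : j ≠ i₀ := (Finset.mem_erase.1 hj).1
    obtain ⟨y, hy⟩ := f1_bub ch Q H F U i₀ j hj'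
    obtain ⟨M, q, hq⟩ := IsLocalization.Away.surj
      (MvPolynomial.C (PP ch ((Finset.univ.erase i₀).erase j)) :
        MvPolynomial (Fin n ⊕ ι) T.R1) y
    refine ⟨M, MvPolynomial.C (PP ch ((Finset.univ.erase i₀).erase j) ^ N) * q, ?_⟩
    apply SS_inj ch ι (Finset.univ.erase i₀)
    have h1 := congrArg (SSres ch ι (Finset.univ.erase i₀) j
      (Finset.mem_erase.2 ⟨hj', Finset.mem_univ j⟩)) hq
    rw [map_mul, map_pow, hy, SSres_apply, SSres_apply] at h1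
    have e1 : (MvPolynomial.C ((∏ i ∈ (Finset.univ.erase i₀).erase j,
        (T.x - algebraMap k T.R1 (ch.pt i T.x))) ^ M) : MvPolynomial (Fin n ⊕ ι) T.R1) =
        MvPolynomial.C (PP ch ((Finset.univ.erase i₀).erase j)) ^ M := by
      rw [map_pow]
      rfl
    have e2 : (MvPolynomial.C ((T.x - algebraMap k T.R1 (ch.pt j T.x)) ^ N) :
        MvPolynomial (Fin n ⊕ ι) T.R1) * (MvPolynomial.C
          (PP ch ((Finset.univ.erase i₀).erase j) ^ N) * q) =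
        MvPolynomial.C (PP ch (Finset.univ.erase i₀)) ^ N * q := by
      rw [PP_erase ch _ j hj, ← map_pow, mul_pow, map_mul]
      change MvPolynomial.C (zE ch j ^ N) * _ = _
      ring
    rw [e1, e2, map_mul, map_mul, map_pow, map_pow, ← hf, ← h1]
    ring

/-- The point of the intersection. -/
noncomputable def xi (T : TC k) (ι : Type) (n : ℕ) :
    T.R12 →ₐ[k] MvPolynomial (Fin n ⊕ ι) T.R12 := cAlg k T.R12 (Fin n ⊕ ι)

theorem xi_unit (ι : Type) (i : Fin n) : IsUnit (((xi T ι n).comp T.j1)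
    (T.x - algebraMap k T.R1 (ch.pt i T.x))) :=
  (ch.unit i).map (xi T ι n)

/-- The object over the intersection, section in the first chart. -/
noncomputable def o12 (ι : Type) (i₀ : Fin n) : Obj g n T (MvPolynomial (Fin n ⊕ ι) T.R12) :=
  cobj ch Q H (mv ch i₀ (.one ((xi T ι n).comp T.j1)))
    (dis_one ch H i₀ _ fun i _ => xi_unit ch ι i)

/-- The object over the intersection, section in the second chart. -/
noncomputable def o12' (ι : Type) (i₀ : Fin n) : Obj g n T (MvPolynomial (Fin n ⊕ ι) T.R12) where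
  x := (o12 ch Q H ι i₀).x
  hx := (o12 ch Q H ι i₀).hx
  ct := (o12 ch Q H ι i₀).ct
  s := mv ch i₀ (.two ((xi T ι n).comp T.j2))
  hs i := (H.chi ch.ct ch.aff _ _ _ _ (cobj_bc ch Q H (mv ch i₀ (.one ((xi T ι n).comp T.j1)))
    (dis_one ch H i₀ _ fun i _ => xi_unit ch ι i)) i).1 _ (by
      unfold mv
      by_cases h : i = i₀
      · rw [if_pos h, if_pos h]
        exact (H.tau ch.ct ch.aff).2.2.1 _ (xi T ι n)
      · rw [if_neg h, if_neg h])

/-- `S₁ → S₁₂`. -/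
noncomputable def th1 (T : TC k) (ι : Type) (n : ℕ) :
    MvPolynomial (Fin n ⊕ ι) T.R1 →ₐ[k] MvPolynomial (Fin n ⊕ ι) T.R12 :=
  MvPolynomial.mapAlgHom T.j1

theorem th1_unit (ι : Type) (s : Finset (Fin n)) :
    IsUnit (th1 T ι n (MvPolynomial.C (PP ch s))) := by
  have h : th1 T ι n (MvPolynomial.C (PP ch s)) = MvPolynomial.C (T.j1 (PP ch s)) := by
    simp [th1]
  rw [h]
  refine IsUnit.map MvPolynomial.C ?_
  unfold PP
  rw [map_prod]
  exact (IsUnit.prod_iff).2 fun i _ => ch.unit i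

/-- `S₂ → S₁₂`. -/
noncomputable def th2 (D : ι → T.R12) (i₀ : Fin n) :
    MvPolynomial (Fin n ⊕ ι) T.R2 →ₐ[k] MvPolynomial (Fin n ⊕ ι) T.R12 :=
  ((MvPolynomial.aeval (chgV T D i₀) : MvPolynomial (Fin n ⊕ ι) T.R12 →ₐ[T.R12]
    MvPolynomial (Fin n ⊕ ι) T.R12).restrictScalars k).comp (MvPolynomial.mapAlgHom T.j2)

theorem th2_C (D : ι → T.R12) (i₀ : Fin n) (r : T.R2) :
    th2 D i₀ (MvPolynomial.C r) = MvPolynomial.C (T.j2 r) := by
  simp [th2]

theorem th2_X (D : ι → T.R12) (i₀ : Fin n) (v : Fin n ⊕ ι) :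
    th2 D i₀ (MvPolynomial.X v) = chgV T D i₀ v := by
  simp [th2]

theorem ptmap1 (ι : Type) (s : Finset (Fin n)) :
    (Pt.one (ph ch ι s)).map (SSlift ch ι s (th1 T ι n) (th1_unit ch ι s)) =
      Pt.one ((xi T ι n).comp T.j1) := by
  simp only [Pt.map, Pt.one.injEq]
  refine AlgHom.ext fun r => ?_
  refine (SSlift_ph ch ι s (th1 T ι n) (th1_unit ch ι s) r).trans ?_
  simp [th1, xi]

theorem ptmap2 (D : ι → T.R12) (i₀ : Fin n) :
    (Pt.two (cAlg k T.R2 (Fin n ⊕ ι))).map (th2 D i₀) = Pt.two ((xi T ι n).comp T.j2) := by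
  simp only [Pt.map, Pt.two.injEq]
  refine AlgHom.ext fun r => ?_
  exact th2_C D i₀ r

theorem val12 (i₀ : Fin n) (q : MvPolynomial (Fin n ⊕ ι) T.R1)
    (hq : f1 ch Q H F U i₀ = algebraMap _ (SS ch ι (Finset.univ.erase i₀)) q) :
    (o12 ch Q H ι i₀).val H.cov F (U.cd _ fun v => MvPolynomial.X v) =
      MvPolynomial.map (T.j1 : T.R1 →+* T.R12) q := by
  have h1 := Obj.val_map H F (o1 ch Q H ι i₀) (o12 ch Q H ι i₀)
    (SSlift ch ι (Finset.univ.erase i₀) (th1 T ι n) (th1_unit ch ι _))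
    (cobj_arrow' ch Q H _ i₀ (.one (ph ch ι (Finset.univ.erase i₀)))
      (.one ((xi T ι n).comp T.j1)) _ _ (by rw [ptmap1]))
    (U.cd _ fun j => algebraMap (MvPolynomial (Fin n ⊕ ι) T.R1)
      (SS ch ι (Finset.univ.erase i₀)) (MvPolynomial.X j))
    (U.cd _ fun v => MvPolynomial.X v) ?_
  · rw [h1]
    change SSlift ch ι (Finset.univ.erase i₀) (th1 T ι n) (th1_unit ch ι _)
      (f1 ch Q H F U i₀) = _
    rw [hq, SSlift_apply]
    rfl
  · refine U.map _ (fun i => ?_) _ _ fun v => ?_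
    · change mv ch i₀ _ i = (mv ch i₀ _ i).map _
      rw [map_mv, ptmap1]
    · rw [SSlift_apply]
      simp [th1]

theorem val12' (i₀ : Fin n) :
    (o12' ch Q H ι i₀).val H.cov F (U.cd _ fun v => chgV T D i₀ v) =
      th2 D i₀ (f2 ch Q H F U i₀) := by
  refine Obj.val_map H F (o2 ch Q H ι i₀) (o12' ch Q H ι i₀) (th2 D i₀)
    (cobj_arrow' ch Q H (th2 D i₀) i₀ _ (.one ((xi T ι n).comp T.j1)) _
      (dis_one ch H i₀ _ fun i _ => xi_unit ch ι i) ?_) _ _ ?_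
  · rw [(H.tau ch.ct ch.aff).2.2.1 _ (xi T ι n), ptmap2]
  · refine U.map _ (fun i => ?_) _ _ fun v => ?_
    · change mv ch i₀ _ i = (mv ch i₀ _ i).map _
      rw [map_mv, ptmap2]
    · exact (th2_X D i₀ v).symm

/-- Change of the chart of the moving section. -/
theorem val_chg (i₀ : Fin n) :
    (o12 ch Q H ι i₀).val H.cov F (U.cd _ fun v => MvPolynomial.X v) =
      (o12' ch Q H ι i₀).val H.cov F (U.cd _ fun v => chgV T D i₀ v) := by
  have e1 : (mv ch i₀ (.one ((xi T ι n).comp T.j1))) i₀ = .one ((xi T ι n).comp T.j1) := by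
    unfold mv
    rw [if_pos rfl]
  have e2 : (mv ch i₀ (.two ((xi T ι n).comp T.j2))) i₀ = .two ((xi T ι n).comp T.j2) := by
    unfold mv
    rw [if_pos rfl]
  have e3 : ∀ i, i ≠ i₀ → (mv ch i₀ (.one ((xi T ι n).comp T.j1))) i =
      (mv ch i₀ (.two ((xi T ι n).comp T.j2))) i := by
    intro i hi
    unfold mv
    rw [if_neg hi, if_neg hi]
  set C1 : CovData (mv ch i₀ (.one ((xi T ι n).comp T.j1))) :=
    U.cd _ fun v => MvPolynomial.X v with hC1
  set C2 : CovData (mv ch i₀ (.two ((xi T ι n).comp T.j2))) :=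
    U.cd _ fun v => chgV T D i₀ v with hC2
  have hν0 : C2.ν i₀ = xi T ι n T.e * C1.ν i₀ := by
    rw [hC1, hC2, U.cd_ν, U.cd_ν]
    simp [chgV, xi]
  have hν : ∀ i, i ≠ i₀ → C2.ν i = C1.ν i := by
    intro i hi
    rw [hC1, hC2, U.cd_ν, U.cd_ν]
    simp [chgV, hi]
  -- the changed data
  have hC3 : ∃ C3 : CovData (mv ch i₀ (.two ((xi T ι n).comp T.j2))), C3.ν = C2.ν ∧
      ∀ r, C3.μ r = C1.μ r + C1.ν i₀ * xi T ι n r := by
    refine ⟨⟨C1.μ + (C1.ν i₀) • (xi T ι n).toLinearMap, C2.ν, ?_, ?_⟩, rfl, fun r => rfl⟩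
    · intro a
      have h := C1.m1 a
      rw [← Finset.add_sum_erase _ _ (Finset.mem_univ i₀)] at h ⊢
      rw [e1] at h
      rw [e2]
      have h2 : ∑ i ∈ Finset.univ.erase i₀, C2.ν i *
          ((mv ch i₀ (.two ((xi T ι n).comp T.j2))) i).l1 a =
          ∑ i ∈ Finset.univ.erase i₀, C1.ν i *
          ((mv ch i₀ (.one ((xi T ι n).comp T.j1))) i).l1 a := by
        refine Finset.sum_congr rfl fun i hi => ?_
        rw [hν i (Finset.ne_of_mem_erase hi), e3 i (Finset.ne_of_mem_erase hi)]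
      rw [h2]
      have h3 : (Pt.two ((xi T ι n).comp T.j2) : Pt T _).l1 a = 0 := rfl
      have h4 : (Pt.one ((xi T ι n).comp T.j1) : Pt T _).l1 a = xi T ι n (T.j1 a) := rfl
      rw [h3]
      rw [h4] at h
      change C1.μ (T.j1 a) + C1.ν i₀ * xi T ι n (T.j1 a) + _ = 0
      rw [mul_zero, zero_add, add_assoc]
      exact h
    · intro a
      have h := C1.m2 a
      rw [← Finset.add_sum_erase _ _ (Finset.mem_univ i₀)] at h ⊢
      rw [e1] at h
      rw [e2]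
      have h2 : ∑ i ∈ Finset.univ.erase i₀, C2.ν i *
          ((mv ch i₀ (.two ((xi T ι n).comp T.j2))) i).l2 a =
          ∑ i ∈ Finset.univ.erase i₀, C1.ν i *
          ((mv ch i₀ (.one ((xi T ι n).comp T.j1))) i).l2 a := by
        refine Finset.sum_congr rfl fun i hi => ?_
        rw [hν i (Finset.ne_of_mem_erase hi), e3 i (Finset.ne_of_mem_erase hi)]
      rw [h2]
      have h3 : (Pt.two ((xi T ι n).comp T.j2) : Pt T _).l2 a = xi T ι n (T.j2 a) := rfl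
      have h4 : (Pt.one ((xi T ι n).comp T.j1) : Pt T _).l2 a = 0 := rfl
      rw [h3]
      rw [h4, mul_zero, zero_add] at h
      change C1.μ (T.e * T.j2 a) + C1.ν i₀ * xi T ι n (T.e * T.j2 a) = _
      rw [h, hν0, map_mul]
      ring
  obtain ⟨C3, h3ν, h3μ⟩ := hC3
  have hC23 : C3 = C2 := by
    apply U.un _ _ _ _ _ h3ν
    intro a
    rw [h3μ, hC1, hC2, U.cd_μ, U.cd_μ, U.cd_ν]
    simp only [chgV, xi, cAlg_apply]
    ring
  have hμ : ∀ r, C2.μ r = C1.μ r + C1.ν i₀ * xi T ι n r := by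
    rw [← hC23]
    exact h3μ
  have hl := H.chg (o12 ch Q H ι i₀).ct _ _ (o12 ch Q H ι i₀).hs (o12' ch Q H ι i₀).hs i₀
    (xi T ι n) e1 e2 ?_ e3 C1 C2 hμ hν0 hν g
    ((o12 ch Q H ι i₀).cov H.cov C1) ((o12' ch Q H ι i₀).cov H.cov C2)
    ((o12 ch Q H ι i₀).isCov H.cov C1) ((o12' ch Q H ι i₀).isCov H.cov C2)
  · exact congrArg (fun l => MG.val (k := k) F (o12 ch Q H ι i₀).x (o12 ch Q H ι i₀).hx l) hl
  · exact (H.chi ch.ct ch.aff _ _ _ _ (cobj_bc ch Q H (mv ch i₀ (.one ((xi T ι n).comp T.j1)))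
      (dis_one ch H i₀ _ fun i _ => xi_unit ch ι i)) i₀).2 (xi T ι n) (by rw [e1])

/-- The universal value is a polynomial in the weights of the fixed sections. -/
theorem f1_poly [CharZero k] (hc : Cpl T D) (i₀ : Fin n) :
    ∃ p : MvPolynomial {i : Fin n // i ≠ i₀} k, f1 ch Q H F U i₀ =
      algebraMap _ (SS ch ι (Finset.univ.erase i₀))
        (MvPolynomial.rename (fun i => Sum.inl i.1) (MvPolynomial.map (algebraMap k T.R1) p) :
          MvPolynomial (Fin n ⊕ ι) T.R1) := by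
  obtain ⟨q, hq⟩ := f1_regular ch Q H F U i₀
  obtain ⟨p, hp⟩ := H.alg T ch.dom ch.inj1 ch.inj2 ch.h0 Q.hnot D hc i₀ q (f2 ch Q H F U i₀) (by
    rw [← val12 ch Q H F U i₀ q hq, val_chg, val12']
    rfl)
  exact ⟨p, by rw [hq, hp]⟩

/-- Evaluation at the marked points. -/
noncomputable def evk (i₀ : Fin n) (v : Fin n ⊕ ι → k) :
    MvPolynomial (Fin n ⊕ ι) T.R1 →ₐ[k] k :=
  (MvPolynomial.aeval v : MvPolynomial (Fin n ⊕ ι) k →ₐ[k] k).comp
    (MvPolynomial.mapAlgHom (ch.pt i₀))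

theorem evk_C (i₀ : Fin n) (v : Fin n ⊕ ι → k) (r : T.R1) :
    evk ch i₀ v (MvPolynomial.C r) = ch.pt i₀ r := by
  simp [evk]

theorem evk_X (i₀ : Fin n) (v : Fin n ⊕ ι → k) (j : Fin n ⊕ ι) :
    evk ch i₀ v (MvPolynomial.X j) = v j := by
  simp [evk]

theorem evk_unit (i₀ : Fin n) (v : Fin n ⊕ ι → k) :
    IsUnit (evk ch i₀ v (MvPolynomial.C (PP ch (Finset.univ.erase i₀)))) := by
  rw [evk_C]
  unfold PP
  rw [map_prod]
  refine (IsUnit.prod_iff).2 fun i hi => ?_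
  have h : ch.pt i₀ (zE ch i) = ch.pt i₀ T.x - ch.pt i T.x := by
    simp [zE]
  rw [h]
  exact IsUnit.mk0 _ (sub_ne_zero.2 (ch.ne _ _ (Finset.ne_of_mem_erase hi).symm))

/-- The marked points. -/
def kpt (i : Fin n) : Pt T k := .one (ch.pt i)

theorem kpt_is (i : Fin n) : ch.ct.Is (C.σ i) (kpt ch i) := ch.is i

/-- The value at the curve. -/
theorem valk (i₀ : Fin n) (E : CovData (kpt ch)) (l : Cov g C)
    (hl : IsCov ch.ct (kpt ch) (kpt_is ch) E l) :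
    F.F k C Q.hC l = SSlift ch ι (Finset.univ.erase i₀)
      (evk ch i₀ (Sum.elim E.ν (fun a => E.μ (D a)))) (evk_unit ch i₀ _)
        (f1 ch Q H F U i₀) := by
  set v : Fin n ⊕ ι → k := Sum.elim E.ν (fun a => E.μ (D a)) with hv
  set ψ := SSlift ch ι (Finset.univ.erase i₀) (evk ch i₀ v) (evk_unit ch i₀ v) with hψ
  have hs : ∀ i, kpt ch i =
      (mv ch i₀ (.one (ph ch ι (Finset.univ.erase i₀))) i).map ψ := by
    intro i
    rw [map_mv]
    unfold mv kpt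
    by_cases h : i = i₀
    · rw [if_pos h]
      simp only [Pt.map, Pt.one.injEq]
      refine AlgHom.ext fun r => ?_
      symm
      refine (SSlift_ph ch ι _ _ (evk_unit ch i₀ v) r).trans ?_
      rw [evk_C, h]
    · rw [if_neg h]
      simp only [Pt.one.injEq]
      refine AlgHom.ext fun r => ?_
      simp
  obtain ⟨a, ha⟩ := H.chk ch.ct ch.aff (SS ch ι (Finset.univ.erase i₀)) ψ _ _ _
    (cobj_bc ch Q H (mv ch i₀ (.one (ph ch ι (Finset.univ.erase i₀))))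
      (dis_one ch H i₀ _ fun i hi => ph_unit ch ι _ i
        (Finset.mem_erase.2 ⟨hi, Finset.mem_univ i⟩))) (fun i => by
      have h1 := (H.tau ch.ct ch.aff).2.2.2 (C.σ i) (kpt ch i) (C.sec i) (kpt_is ch i)
      rw [h1, hs i]
      exact (H.tau ch.ct ch.aff).2.1 _ _ ψ _)
  have hE : (U.cd (mv ch i₀ (.one (ph ch ι (Finset.univ.erase i₀)))) fun j =>
      algebraMap (MvPolynomial (Fin n ⊕ ι) T.R1) (SS ch ι (Finset.univ.erase i₀))
        (MvPolynomial.X j)).Map ψ E := by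
    have h2 := U.map ψ hs (fun j => algebraMap (MvPolynomial (Fin n ⊕ ι) T.R1)
      (SS ch ι (Finset.univ.erase i₀)) (MvPolynomial.X j)) v (fun j => by
        rw [hψ, SSlift_apply, evk_X])
    have h3 : U.cd (kpt ch) v = E := by
      apply U.un
      · funext i
        rw [U.cd_ν]
        rfl
      · intro a
        rw [U.cd_μ]
        rfl
    rw [h3] at h2
    exact h2
  exact val_nat' F ψ (o1 ch Q H ι i₀).hx Q.hC a ((o1 ch Q H ι i₀).cov H.cov _) l
    (H.nat a ha _ (o1 ch Q H ι i₀).hs _ (kpt_is ch) _ E hE g _ l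
      ((o1 ch Q H ι i₀).isCov H.cov _) hl)

theorem evk_p (i₀ : Fin n) (p : MvPolynomial {i : Fin n // i ≠ i₀} k) (v : Fin n ⊕ ι → k) :
    evk ch i₀ v (MvPolynomial.rename (fun i => Sum.inl i.1)
      (MvPolynomial.map (algebraMap k T.R1) p)) =
      MvPolynomial.aeval (fun i : {i : Fin n // i ≠ i₀} => v (.inl i.1)) p := by
  induction p using MvPolynomial.induction_on with
  | C a =>
    rw [MvPolynomial.map_C, MvPolynomial.rename_C, evk_C]
    simp
  | add p q hp hq => rw [map_add, map_add, map_add, map_add, hp, hq]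
  | mul_X p i hp =>
    rw [map_mul, map_mul, map_mul, map_mul, hp, MvPolynomial.map_X, MvPolynomial.rename_X, evk_X,
      MvPolynomial.aeval_X]

include H U in
/-- The value does not depend on the weight of the section `i₀`. -/
theorem valk_eq [CharZero k] (hc : Cpl T D) (i₀ : Fin n)
    (E E' : CovData (kpt ch)) (l l' : Cov g C)
    (hl : IsCov ch.ct (kpt ch) (kpt_is ch) E l) (hl' : IsCov ch.ct (kpt ch) (kpt_is ch) E' l')
    (h : ∀ i, i ≠ i₀ → E.ν i = E'.ν i) : F.F k C Q.hC l = F.F k C Q.hC l' := by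
  rw [valk ch Q H F U i₀ E l hl, valk ch Q H F U i₀ E' l' hl']
  obtain ⟨p, hp⟩ := f1_poly ch Q H F U hc i₀
  rw [hp, SSlift_apply, SSlift_apply]
  rw [evk_p, evk_p]
  congr 1
  congr 1
  funext i
  exact h i.1 i.2

include ch H U in
/-- Independence of the covector. -/
theorem indep [CharZero k] (hc : Cpl T D) (hn : 1 ≤ n) (l : Cov g C) :
    F.F k C Q.hC l = F.F k C Q.hC 0 := by
  -- the value as a function of the weights
  let G : (Fin n → k) → k := fun ν =>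
    F.F k C Q.hC (H.cov ch.ct (kpt ch) (kpt_is ch) (U.cd (kpt ch) (Sum.elim ν 0)) g).choose
  have hG : ∀ (E : CovData (kpt ch)) (l : Cov g C), IsCov ch.ct (kpt ch) (kpt_is ch) E l →
      F.F k C Q.hC l = G E.ν := by
    intro E l hl
    refine valk_eq ch Q H F U hc ⟨0, hn⟩ E _ l _ hl
      (H.cov ch.ct (kpt ch) (kpt_is ch) (U.cd (kpt ch) (Sum.elim E.ν 0)) g).choose_spec ?_
    intro i _
    rw [U.cd_ν]
    rfl
  have hG2 : ∀ (i₀ : Fin n) (ν ν' : Fin n → k), (∀ i, i ≠ i₀ → ν i = ν' i) → G ν = G ν' := by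
    intro i₀ ν ν' h
    refine valk_eq ch Q H F U hc i₀ _ _ _ _
      (H.cov ch.ct (kpt ch) (kpt_is ch) (U.cd (kpt ch) (Sum.elim ν 0)) g).choose_spec
      (H.cov ch.ct (kpt ch) (kpt_is ch) (U.cd (kpt ch) (Sum.elim ν' 0)) g).choose_spec ?_
    intro i hi
    rw [U.cd_ν, U.cd_ν]
    exact h i hi
  have hG3 : ∀ (s : Finset (Fin n)) (ν : Fin n → k), G ν = G (fun i => if i ∈ s then 0 else ν i) := by
    intro s ν
    induction s using Finset.induction_on with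
    | empty => simp
    | insert a s ha ih =>
      rw [ih]
      apply hG2 a
      intro i hi
      simp [hi]
  have hG4 : ∀ ν, G ν = G 0 := by
    intro ν
    rw [hG3 Finset.univ ν]
    congr 1
    funext i
    simp
  obtain ⟨E, hE⟩ := H.cls g Q.hC ch.ct ch.aff (kpt ch) (kpt_is ch) l
  rw [hG E l hE, hG4]
  let E0 : CovData (kpt ch) := ⟨0, 0, fun a => by simp, fun a => by simp⟩
  have h0 : IsCov ch.ct (kpt ch) (kpt_is ch) E0 (0 : Cov g C) := by
    intro d h δ _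
    change (0 : k) = ext (0 : T.R12 →ₗ[k] k) h + ∑ i, (0 : Fin n → k) i * δ i
    simp [ext]
  rw [hG E0 0 h0]

end core

end

/-- The theorem for pointed curves, from the blocks. -/
theorem pointed (H : Hyp) (htwo : Stmt_TWO) (hnot : Stmt_NOT) (g n : ℕ) (hg : 2 ≤ g) (hn : 1 ≤ n)
    (k : Type) [Field k] [IsAlgClosed k] [Algebra ℂ k] (F : Reg g n) (C : Fam n k)
    (hC : IsStable g C) (hs : SmoothOfRelativeDimension 1 C.π) (l : Cov g C) :
    F.F k C hC l = F.F k C hC 0 := by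
  have : CharZero k := charZero_of_injective_algebraMap (algebraMap ℂ k).injective
  obtain ⟨T, ⟨ch⟩⟩ := htwo g C hC hs hn
  have Q : Cur (T := T) (C := C) g := ⟨hC, hs, fun j hj a b h => hnot g C hC hs hg T ch j hj a b h⟩
  obtain ⟨ι, D, hc, hu⟩ := H.uni T ch.inj1 ch.inj2 Q.not1
  have U : Uni D := ⟨fun n B _ _ s => (hu B s).1, fun n B _ _ s => (hu B s).2⟩
  exact indep ch Q H F U hc hn l

end Pool.Agent.MG


end

section

/-!
# Module CHB: the charts of a constant family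
-/

open CategoryTheory CategoryTheory.Limits AlgebraicGeometry TensorProduct

namespace Pool.Agent.MG

namespace CHB

/-- Affine opens are acyclic. -/
theorem acyc_of_affine {X : Scheme.{0}} {U : X.Opens} (hU : IsAffineOpen U) : Acyc U := by
  refine ⟨U, U, hU, hU, ?_, sup_idem U, ?_⟩
  · rw [inf_idem]; exact hU
  · intro s
    refine ⟨rs X (le_inf le_rfl le_rfl) s, 0, ?_⟩
    rw [map_zero, add_zero]
    change s = (X.presheaf.map (homOfLE _).op ≫ X.presheaf.map (homOfLE _).op) s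
    rw [← Functor.map_comp, ← op_comp]
    have : (homOfLE inf_le_left ≫ homOfLE (le_inf le_rfl le_rfl) : U ⊓ U ⟶ U ⊓ U) = 𝟙 _ :=
      Subsingleton.elim _ _
    rw [this, op_id, CategoryTheory.Functor.map_id]
    rfl

variable {n : ℕ} {k : Type} [Field k] (C : Fam n k)

/-- Functions on the pull back of an affine open. -/
theorem key (B : Type) [CommRing B] [Algebra k B] {U : C.X.Opens} (hU : IsAffineOpen U)
    {R : Type} [CommRing R] [Algebra k R] (t : k ⊗[k] R →+* Γ(C.X, U))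
    (hb : Function.Bijective t) (hc : ∀ c : k, t (c ⊗ₜ 1) = coef C.π U c)
    (V : (pullback C.π (spMap (algebraMap k B))).Opens)
    (hV : V = (pullback.fst C.π (spMap (algebraMap k B))) ⁻¹ᵁ U) :
    ∃ T : B ⊗[k] R →+* Γ(pullback C.π (spMap (algebraMap k B)), V), Function.Bijective T ∧
      (∀ b : B, T (b ⊗ₜ 1) = coef (pullback.snd C.π (spMap (algebraMap k B))) V b) ∧
      ∀ r : R, T (1 ⊗ₜ r) =
        ((pullback.fst C.π (spMap (algebraMap k B))).appLE U V hV.le).hom (t (1 ⊗ₜ r)) := by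
  have H : IsPullback (pullback.fst C.π (spMap (algebraMap k B)))
      (pullback.snd C.π (spMap (algebraMap k B))) C.π (spMap (algebraMap k B)) :=
    IsPullback.of_hasPullback _ _
  have hST : (⊤ : (Sp B).Opens) ≤ (spMap (algebraMap k B)) ⁻¹ᵁ (⊤ : (Sp k).Opens) := le_top
  have hSX : U ≤ C.π ⁻¹ᵁ (⊤ : (Sp k).Opens) := le_top
  have hY : V = (pullback.fst C.π (spMap (algebraMap k B))) ⁻¹ᵁ U ⊓
      (pullback.snd C.π (spMap (algebraMap k B))) ⁻¹ᵁ (⊤ : (Sp B).Opens) := by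
    rw [hV]
    exact (inf_top_eq _).symm
  have h0 := (isIso_pushoutSection_iff H hST hSX hY).1
    (isIso_pushoutSection_of_isAffineOpen H hST hSX hY (isAffineOpen_top _) (isAffineOpen_top _) hU)
  let eR : R ≃+* Γ(C.X, U) :=
    ((Algebra.TensorProduct.lid k R).symm.toRingEquiv).trans (RingEquiv.ofBijective t hb)
  have heR : ∀ r : R, eR r = t (1 ⊗ₜ r) := fun r => rfl
  have h1 : IsPushout (CommRingCat.ofHom (algebraMap k R)) (CommRingCat.ofHom (algebraMap k B))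
      (eR.toCommRingCatIso.hom ≫
        (pullback.fst C.π (spMap (algebraMap k B))).appLE U V hV.le)
      ((Scheme.ΓSpecIso (CommRingCat.of B)).inv ≫
        (pullback.snd C.π (spMap (algebraMap k B))).appLE ⊤ V le_top) := by
    refine h0.of_iso' (Scheme.ΓSpecIso (CommRingCat.of k)).symm eR.toCommRingCatIso
      (Scheme.ΓSpecIso (CommRingCat.of B)).symm (Iso.refl _) ?_ ?_ ?_ ?_
    · ext c
      change coef C.π U c = eR (algebraMap k R c)
      rw [heR, ← hc]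
      congr 1
      rw [Algebra.algebraMap_eq_smul_one, TensorProduct.tmul_smul, TensorProduct.smul_tmul',
        smul_eq_mul, mul_one]
    · have h2 := Scheme.ΓSpecIso_inv_naturality (CommRingCat.ofHom (algebraMap k B))
      rw [Iso.symm_hom, Iso.symm_hom, h2]
      rfl
    · rw [Iso.refl_hom, Category.comp_id]
    · rw [Iso.refl_hom, Category.comp_id, Iso.symm_hom]
  have h2 := (CommRingCat.isPushout_tensorProduct k B R).flip
  let e := IsColimit.coconePointUniqueUpToIso h2.isColimit h1.isColimit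
  have e1 : CommRingCat.ofHom (Algebra.TensorProduct.includeRight (R := k) (A := B)
      (B := R)).toRingHom ≫ e.hom = eR.toCommRingCatIso.hom ≫
        (pullback.fst C.π (spMap (algebraMap k B))).appLE U V hV.le :=
    IsColimit.comp_coconePointUniqueUpToIso_hom h2.isColimit h1.isColimit WalkingSpan.left
  have e2 : CommRingCat.ofHom (Algebra.TensorProduct.includeLeftRingHom (R := k) (A := B)
      (B := R)) ≫ e.hom = (Scheme.ΓSpecIso (CommRingCat.of B)).inv ≫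
        (pullback.snd C.π (spMap (algebraMap k B))).appLE ⊤ V le_top :=
    IsColimit.comp_coconePointUniqueUpToIso_hom h2.isColimit h1.isColimit WalkingSpan.right
  refine ⟨e.hom.hom, ?_, ?_, ?_⟩
  · exact (ConcreteCategory.bijective_of_isIso e.hom)
  · intro b
    exact ConcreteCategory.congr_hom e2 b
  · intro r
    exact ConcreteCategory.congr_hom e1 r

end CHB

theorem t_CHB : Stmt_CHB := by
  intro n k _ T C ct ha B _ _ τ hτ
  obtain ⟨T1, hb1, hc1, hr1⟩ := CHB.key C B ha.aff1 ct.t1 ct.b1 ct.c1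
    ((pullback.fst C.π (spMap (algebraMap k B))) ⁻¹ᵁ ct.U1) rfl
  obtain ⟨T2, hb2, hc2, hr2⟩ := CHB.key C B ha.aff2 ct.t2 ct.b2 ct.c2
    ((pullback.fst C.π (spMap (algebraMap k B))) ⁻¹ᵁ ct.U2) rfl
  obtain ⟨T12, hb12, hc12, hr12⟩ := CHB.key C B ha.aff12 ct.t12 ct.b12 ct.c12
    ((pullback.fst C.π (spMap (algebraMap k B))) ⁻¹ᵁ ct.U1 ⊓
      (pullback.fst C.π (spMap (algebraMap k B))) ⁻¹ᵁ ct.U2) rfl
  have haf : IsAffineHom (pullback.fst C.π (spMap (algebraMap k B))) :=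
    MorphismProperty.pullback_fst _ _ inferInstance
  have q1 : ∀ a : T.R1, rs (pullback C.π (spMap (algebraMap k B))) inf_le_left (T1 (1 ⊗ₜ a)) =
      T12 (1 ⊗ₜ T.j1 a) := by
    intro a
    rw [hr1, hr12, ← ct.r1]
    change ((pullback.fst C.π (spMap (algebraMap k B))).appLE _ _ _ ≫
      (pullback C.π (spMap (algebraMap k B))).presheaf.map (homOfLE _).op) _ =
      (C.X.presheaf.map (homOfLE _).op ≫
        (pullback.fst C.π (spMap (algebraMap k B))).appLE _ _ _) _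
    rw [Scheme.Hom.map_appLE, Scheme.Hom.appLE_map]
  have q2 : ∀ a : T.R2, rs (pullback C.π (spMap (algebraMap k B))) inf_le_right (T2 (1 ⊗ₜ a)) =
      T12 (1 ⊗ₜ T.j2 a) := by
    intro a
    rw [hr2, hr12, ← ct.r2]
    change ((pullback.fst C.π (spMap (algebraMap k B))).appLE _ _ _ ≫
      (pullback C.π (spMap (algebraMap k B))).presheaf.map (homOfLE _).op) _ =
      (C.X.presheaf.map (homOfLE _).op ≫
        (pullback.fst C.π (spMap (algebraMap k B))).appLE _ _ _) _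
    rw [Scheme.Hom.map_appLE, Scheme.Hom.appLE_map]
  have a1 : Acyc ((pullback.fst C.π (spMap (algebraMap k B))) ⁻¹ᵁ ct.U1) :=
    CHB.acyc_of_affine (ha.aff1.preimage _)
  have a2 : Acyc ((pullback.fst C.π (spMap (algebraMap k B))) ⁻¹ᵁ ct.U2) :=
    CHB.acyc_of_affine (ha.aff2.preimage _)
  have a12 : Acyc ((pullback.fst C.π (spMap (algebraMap k B))) ⁻¹ᵁ (ct.U1 ⊓ ct.U2)) :=
    CHB.acyc_of_affine (ha.aff12.preimage _)
  let c : Charted T (constFam C B τ hτ) :=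
    { U1 := (pullback.fst C.π (spMap (algebraMap k B))) ⁻¹ᵁ ct.U1
      U2 := (pullback.fst C.π (spMap (algebraMap k B))) ⁻¹ᵁ ct.U2
      cover := by
        have h := congrArg (fun W => (pullback.fst C.π (spMap (algebraMap k B))) ⁻¹ᵁ W) ct.cover
        exact h
      ac1 := a1
      ac2 := a2
      ac12 := a12
      t1 := T1
      t2 := T2
      t12 := T12
      b1 := hb1
      b2 := hb2
      b12 := hb12
      c1 := hc1
      c2 := hc2
      c12 := hc12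
      r1 := q1
      r2 := q2 }
  refine ⟨c, ?_⟩
  exact
    { h1 := rfl
      h2 := rfl
      f1 := fun r => (hr1 r).symm
      f2 := fun r => (hr2 r).symm
      f12 := fun h r => (hr12 r).symm }

end Pool.Agent.MG


end

section

/-!
# The charts of the bubble family
-/

set_option linter.unusedSectionVars false

open CategoryTheory CategoryTheory.Limits AlgebraicGeometry TensorProduct

namespace Pool.Agent.MG

section Gen

variable {k : Type} [Field k] {B : Type} [CommRing B] [Algebra k B]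

/-- Functions on the preimage of a chart. -/
theorem exT {X Y : Scheme.{0}} (π : X ⟶ Sp B) (ρ : Y ⟶ Sp k) (q : X ⟶ Y)
    (hq : q ≫ ρ = π ≫ spMap (algebraMap k B)) {R : Type} [CommRing R] [Algebra k R]
    (W : Y.Opens) (t : k ⊗[k] R →+* Γ(Y, W)) (ht : ∀ c, t (c ⊗ₜ 1) = coef ρ W c) :
    ∃ L : B ⊗[k] R →+* Γ(X, q ⁻¹ᵁ W), (∀ b, L (b ⊗ₜ 1) = coef π _ b) ∧
      ∀ r, L (1 ⊗ₜ r) = (q.appLE W (q ⁻¹ᵁ W) le_rfl).hom (t (1 ⊗ₜ r)) := by
  obtain ⟨L, h1, h2⟩ := tens_lift (B := B) (R := R) (coef π (q ⁻¹ᵁ W))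
    ((q.appLE W (q ⁻¹ᵁ W) le_rfl).hom.comp (t.comp (inR k k R))) (fun c => by
      simp only [RingHom.comp_apply, inR_apply]
      have h1 : (1 : k) ⊗ₜ[k] (algebraMap k R c) = c ⊗ₜ[k] (1 : R) := tens_scalar R c
      rw [h1, ht, coef_comp, hq, coef_spMap])
  exact ⟨L, h1, h2⟩

/-- Evaluation of the functions on the preimage of a chart. -/
theorem evO_T {X Y : Scheme.{0}} {π : X ⟶ Sp B} {q : X ⟶ Y} {R : Type} [CommRing R] [Algebra k R]
    {W : Y.Opens} {t : k ⊗[k] R →+* Γ(Y, W)} {L : B ⊗[k] R →+* Γ(X, q ⁻¹ᵁ W)}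
    (h1 : ∀ b, L (b ⊗ₜ 1) = coef π _ b)
    (h2 : ∀ r, L (1 ⊗ₜ r) = (q.appLE W (q ⁻¹ᵁ W) le_rfl).hom (t (1 ⊗ₜ r)))
    {A : Type} [CommRing A] (i : Sp A ⟶ X) (hi : ⊤ ≤ i ⁻¹ᵁ (q ⁻¹ᵁ W)) (χ : B ⊗[k] R →+* A)
    (e1 : i ≫ π = spMap (χ.comp (inL k B R))) (io : Sp R ⟶ Y) (ho : ⊤ ≤ io ⁻¹ᵁ W)
    (e2 : i ≫ q = spMap (χ.comp (inR k B R)) ≫ io) (e3 : ∀ r, evO io W ho (t (1 ⊗ₜ r)) = r)
    (u : B ⊗[k] R) : evO i _ hi (L u) = χ u := by
  refine tensor_ind (f := (evO i _ hi).comp L) (g := χ) ?_ ?_ u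
  · intro b
    rw [RingHom.comp_apply, h1, evO_coef i π _ e1]
    rfl
  · intro r
    rw [RingHom.comp_apply, h2]
    have h3 : ⊤ ≤ (i ≫ q) ⁻¹ᵁ W := hi
    rw [evO_app i q le_rfl hi h3]
    have h4 : ∀ (f : Sp A ⟶ Y) (_ : f = spMap (χ.comp (inR k B R)) ≫ io) (h : ⊤ ≤ f ⁻¹ᵁ W),
        evO f W h (t (1 ⊗ₜ r)) = χ (1 ⊗ₜ r) := by
      intro f hf h
      subst hf
      rw [evO_spMap io _ ho h, e3]
      rfl
    exact h4 _ e2 h3

theorem evO_fromSpec {Y : Scheme.{0}} {W : Y.Opens} (hW : IsAffineOpen W)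
    (h : ⊤ ≤ (hW.fromSpec : Sp Γ(Y, W) ⟶ Y) ⁻¹ᵁ W) (a : Γ(Y, W)) :
    evO (hW.fromSpec : Sp Γ(Y, W) ⟶ Y) W h a = a := by
  have h1 : hW.fromSpec.appLE W ⊤ h = (Scheme.ΓSpecIso Γ(Y, W)).inv := by
    have h2 : hW.fromSpec.appLE W ⊤ h = hW.fromSpec.app W ≫
        (Spec Γ(Y, W)).presheaf.map (homOfLE h).op := rfl
    rw [h2, hW.fromSpec_app_self, Category.assoc, ← Functor.map_comp]
    have h3 : (eqToHom hW.fromSpec_preimage_self).op ≫ (homOfLE h).op = 𝟙 _ :=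
      Subsingleton.elim _ _
    rw [h3, CategoryTheory.Functor.map_id, Category.comp_id]
  unfold evO
  rw [RingHom.comp_apply]
  have h4 : (hW.fromSpec.appLE W ⊤ h).hom a = (Scheme.ΓSpecIso Γ(Y, W)).inv.hom a := by rw [h1]
  refine (congrArg _ h4).trans ?_
  change ((Scheme.ΓSpecIso Γ(Y, W)).inv ≫ (Scheme.ΓSpecIso Γ(Y, W)).hom) a = a
  rw [Iso.inv_hom_id]
  rfl

end Gen

section

variable {n : ℕ} {k : Type} [Field k] {C : Fam n k} {T : TC k} {ct : Charted T C} (ha : ct.Aff)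

theorem io1_le : ⊤ ≤ io1 ha ⁻¹ᵁ ct.U1 :=
  le_of_range _ fun p => by
    have : io1 ha p ∈ Set.range (io1 ha) := ⟨p, rfl⟩
    rw [range_io1] at this
    exact this

theorem io2_le : ⊤ ≤ io2 ha ⁻¹ᵁ ct.U2 :=
  le_of_range _ fun p => by
    have : io2 ha p ∈ Set.range (io2 ha) := ⟨p, rfl⟩
    rw [range_io2] at this
    exact this

theorem io12_le : ⊤ ≤ io12 ha ⁻¹ᵁ (ct.U1 ⊓ ct.U2) :=
  le_of_range _ fun p => by
    have : io12 ha p ∈ Set.range (io12 ha) := ⟨p, rfl⟩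
    rw [range_io12] at this
    exact this

theorem evO_io1 (r : T.R1) : evO (io1 ha) ct.U1 (io1_le ha) (ct.t1 (1 ⊗ₜ r)) = r := by
  have h : ⊤ ≤ (ha.aff1.fromSpec : Sp Γ(C.X, ct.U1) ⟶ C.X) ⁻¹ᵁ ct.U1 :=
    le_of_range _ fun p => by
      have : ha.aff1.fromSpec p ∈ Set.range ha.aff1.fromSpec := ⟨p, rfl⟩
      rw [ha.aff1.range_fromSpec] at this
      exact this
  have h1 := evO_spMap (ha.aff1.fromSpec : Sp Γ(C.X, ct.U1) ⟶ C.X)
    ((ct.eq1.symm.trans (lidE k T.R1) : Γ(C.X, ct.U1) ≃+* T.R1) : Γ(C.X, ct.U1) →+* T.R1) h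
    (io1_le ha) (ct.t1 (1 ⊗ₜ r))
  rw [evO_fromSpec] at h1
  refine h1.trans ?_
  change lidE k T.R1 (ct.eq1.symm (ct.eq1 (1 ⊗ₜ r))) = r
  rw [RingEquiv.symm_apply_apply]
  change (1 : k) • r = r
  rw [one_smul]

theorem evO_io2 (r : T.R2) : evO (io2 ha) ct.U2 (io2_le ha) (ct.t2 (1 ⊗ₜ r)) = r := by
  have h : ⊤ ≤ (ha.aff2.fromSpec : Sp Γ(C.X, ct.U2) ⟶ C.X) ⁻¹ᵁ ct.U2 :=
    le_of_range _ fun p => by
      have : ha.aff2.fromSpec p ∈ Set.range ha.aff2.fromSpec := ⟨p, rfl⟩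
      rw [ha.aff2.range_fromSpec] at this
      exact this
  have h1 := evO_spMap (ha.aff2.fromSpec : Sp Γ(C.X, ct.U2) ⟶ C.X)
    ((ct.eq2.symm.trans (lidE k T.R2) : Γ(C.X, ct.U2) ≃+* T.R2) : Γ(C.X, ct.U2) →+* T.R2) h
    (io2_le ha) (ct.t2 (1 ⊗ₜ r))
  rw [evO_fromSpec] at h1
  refine h1.trans ?_
  change lidE k T.R2 (ct.eq2.symm (ct.eq2 (1 ⊗ₜ r))) = r
  rw [RingEquiv.symm_apply_apply]
  change (1 : k) • r = r
  rw [one_smul]

theorem evO_io12 (r : T.R12) :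
    evO (io12 ha) (ct.U1 ⊓ ct.U2) (io12_le ha) (ct.t12 (1 ⊗ₜ r)) = r := by
  have h : ⊤ ≤ (ha.aff12.fromSpec : Sp Γ(C.X, ct.U1 ⊓ ct.U2) ⟶ C.X) ⁻¹ᵁ (ct.U1 ⊓ ct.U2) :=
    le_of_range _ fun p => by
      have : ha.aff12.fromSpec p ∈ Set.range ha.aff12.fromSpec := ⟨p, rfl⟩
      rw [ha.aff12.range_fromSpec] at this
      exact this
  have h1 := evO_spMap (ha.aff12.fromSpec : Sp Γ(C.X, ct.U1 ⊓ ct.U2) ⟶ C.X)
    ((ct.eq12.symm.trans (lidE k T.R12) : Γ(C.X, ct.U1 ⊓ ct.U2) ≃+* T.R12) :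
      Γ(C.X, ct.U1 ⊓ ct.U2) →+* T.R12) h
    (io12_le ha) (ct.t12 (1 ⊗ₜ r))
  rw [evO_fromSpec] at h1
  refine h1.trans ?_
  change lidE k T.R12 (ct.eq12.symm (ct.eq12 (1 ⊗ₜ r))) = r
  rw [RingEquiv.symm_apply_apply]
  change (1 : k) • r = r
  rw [one_smul]

end

end Pool.Agent.MG


end

section

/-!
# The charted structure of the bubble family
-/

set_option linter.unusedSectionVars false

open CategoryTheory CategoryTheory.Limits AlgebraicGeometry TensorProduct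

namespace Pool.Agent.MG

section

variable {n : ℕ} {k : Type} [Field k] {C : Fam n k} {T : TC k} {ct : Charted T C}
  (ha : ct.Aff) (z0 : T.R1) (hz0 : IsUnit (T.j1 z0)) (B : Type) [CommRing B] [Algebra k B] (b : B)

theorem bq_π : bq ha z0 hz0 B b ≫ C.π = bπ ha z0 hz0 B b ≫ spMap (algebraMap k B) := by
  unfold bq bπ
  rw [Category.assoc, Category.assoc, pullback.condition]

theorem mem_U1 (x : bX ha z0 hz0 B b) :
    bq ha z0 hz0 B b x ∈ ct.U1 ↔ x ∈ Set.range (bL ha z0 hz0 B b) := by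
  constructor
  · intro h
    have h1 : bq ha z0 hz0 B b x ∈ Set.range (io1 ha) := by
      rw [range_io1]
      exact h
    obtain ⟨p, hp⟩ := h1
    have h2 : pullback.fst C.π (spMap (algebraMap k B)) (bC ha z0 hz0 B b x) = io1 ha p := hp.symm
    obtain ⟨w, hw, -⟩ := Scheme.exists_preimage_of_isPullback
      (kap_isPullback B (io1 ha) (io1_π ha)) _ p h2
    obtain ⟨y, hy, -⟩ := Scheme.exists_preimage_of_isPullback
      (bC_isPullback1 ha z0 hz0 B b) x w hw.symm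
    exact ⟨y, hy⟩
  · rintro ⟨y, rfl⟩
    have h1 : bq ha z0 hz0 B b (bL ha z0 hz0 B b y) ∈ Set.range (io1 ha) := by
      refine ⟨spMap (inR k B T.R1) (blπ _ _ y), ?_⟩
      rw [← Scheme.Hom.comp_apply, ← Scheme.Hom.comp_apply, ← Scheme.Hom.comp_apply, bL_q']
    rw [range_io1] at h1
    exact h1

theorem mem_U2 (x : bX ha z0 hz0 B b) :
    bq ha z0 hz0 B b x ∈ ct.U2 ↔ x ∈ Set.range (bR ha z0 hz0 B b) := by
  constructor
  · intro h
    have h1 : bq ha z0 hz0 B b x ∈ Set.range (io2 ha) := by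
      rw [range_io2]
      exact h
    obtain ⟨p, hp⟩ := h1
    have h2 : pullback.fst C.π (spMap (algebraMap k B)) (bC ha z0 hz0 B b x) = io2 ha p := hp.symm
    obtain ⟨w, hw, -⟩ := Scheme.exists_preimage_of_isPullback
      (kap_isPullback B (io2 ha) (io2_π ha)) _ p h2
    obtain ⟨y, hy, -⟩ := Scheme.exists_preimage_of_isPullback
      (bC_isPullback2 ha z0 hz0 B b) x w hw.symm
    exact ⟨y, hy⟩
  · rintro ⟨y, rfl⟩
    have h1 : bq ha z0 hz0 B b (bR ha z0 hz0 B b y) ∈ Set.range (io2 ha) := by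
      refine ⟨spMap (inR k B T.R2) y, ?_⟩
      rw [← Scheme.Hom.comp_apply, ← Scheme.Hom.comp_apply, bR_q]
    rw [range_io2] at h1
    exact h1

/-- The first affine chart. -/
noncomputable def i1 : Sp (NR ((1 : B) ⊗ₜ[k] z0) (b ⊗ₜ[k] (1 : T.R1))) ⟶ bX ha z0 hz0 B b :=
  bl1 _ _ ≫ bL ha z0 hz0 B b

/-- The second affine chart. -/
noncomputable def i2 : Sp (NR (b ⊗ₜ[k] (1 : T.R1)) ((1 : B) ⊗ₜ[k] z0)) ⟶ bX ha z0 hz0 B b :=
  bl2 _ _ ≫ bL ha z0 hz0 B b

/-- The intersection of the first two affine charts. -/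
noncomputable def i12 : Sp (MR ((1 : B) ⊗ₜ[k] z0) (b ⊗ₜ[k] (1 : T.R1))) ⟶ bX ha z0 hz0 B b :=
  blf _ _ ≫ i1 ha z0 hz0 B b

/-- The part of the third affine chart over the intersection. -/
noncomputable def iJ : Sp (B ⊗[k] T.R12) ⟶ bX ha z0 hz0 B b :=
  spMap (bmap B T.j2) ≫ bR ha z0 hz0 B b

instance : IsOpenImmersion (i1 ha z0 hz0 B b) := by unfold i1; infer_instance

instance : IsOpenImmersion (i2 ha z0 hz0 B b) := by unfold i2; infer_instance

instance : IsOpenImmersion (i12 ha z0 hz0 B b) := by unfold i12; infer_instance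

instance : IsOpenImmersion (iJ ha z0 hz0 B b) := by
  have := bj2_open ha B
  unfold iJ
  infer_instance

theorem i12_eq : i12 ha z0 hz0 B b = blg _ _ ≫ i2 ha z0 hz0 B b := by
  unfold i12 i1 i2
  rw [← Category.assoc, bl_cond, Category.assoc]

theorem iJ_eq : iJ ha z0 hz0 B b = bJ z0 hz0 B b ≫ bL ha z0 hz0 B b := (b_cond ha z0 hz0 B b).symm

theorem i1_π : i1 ha z0 hz0 B b ≫ bπ ha z0 hz0 B b =
    spMap ((algebraMap (B ⊗[k] T.R1) (NR ((1 : B) ⊗ₜ[k] z0) (b ⊗ₜ[k] (1 : T.R1)))).comp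
      (inL k B T.R1)) := by
  unfold i1
  rw [Category.assoc, bL_π, bl1_π_assoc, spMap_comp]

theorem i2_π : i2 ha z0 hz0 B b ≫ bπ ha z0 hz0 B b =
    spMap ((algebraMap (B ⊗[k] T.R1) (NR (b ⊗ₜ[k] (1 : T.R1)) ((1 : B) ⊗ₜ[k] z0))).comp
      (inL k B T.R1)) := by
  unfold i2
  rw [Category.assoc, bL_π, bl2_π_assoc, spMap_comp]

theorem i1_q : i1 ha z0 hz0 B b ≫ bq ha z0 hz0 B b =
    spMap ((algebraMap (B ⊗[k] T.R1) (NR ((1 : B) ⊗ₜ[k] z0) (b ⊗ₜ[k] (1 : T.R1)))).comp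
      (inR k B T.R1)) ≫ io1 ha := by
  unfold i1
  rw [Category.assoc, bL_q', bl1_π_assoc, spMap_comp, Category.assoc]

theorem i2_q : i2 ha z0 hz0 B b ≫ bq ha z0 hz0 B b =
    spMap ((algebraMap (B ⊗[k] T.R1) (NR (b ⊗ₜ[k] (1 : T.R1)) ((1 : B) ⊗ₜ[k] z0))).comp
      (inR k B T.R1)) ≫ io1 ha := by
  unfold i2
  rw [Category.assoc, bL_q', bl2_π_assoc, spMap_comp, Category.assoc]

theorem iJ_π : iJ ha z0 hz0 B b ≫ bπ ha z0 hz0 B b = spMap (inL k B T.R12) := by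
  unfold iJ
  rw [Category.assoc, bR_π, ← spMap_comp, bmap_inL]

theorem iJ_q : iJ ha z0 hz0 B b ≫ bq ha z0 hz0 B b = spMap (inR k B T.R12) ≫ io12 ha := by
  unfold iJ
  rw [Category.assoc, bR_q, ← Category.assoc, ← spMap_comp, bmap_inR, spMap_comp, Category.assoc,
    io12_eq2]

/-- The first chart. -/
noncomputable abbrev bU1 : (bX ha z0 hz0 B b).Opens := bq ha z0 hz0 B b ⁻¹ᵁ ct.U1

/-- The second chart. -/
noncomputable abbrev bU2 : (bX ha z0 hz0 B b).Opens := bq ha z0 hz0 B b ⁻¹ᵁ ct.U2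

/-- The intersection of the charts. -/
noncomputable abbrev bU12 : (bX ha z0 hz0 B b).Opens := bq ha z0 hz0 B b ⁻¹ᵁ (ct.U1 ⊓ ct.U2)

theorem i1_le : ⊤ ≤ i1 ha z0 hz0 B b ⁻¹ᵁ bU1 ha z0 hz0 B b :=
  le_of_range _ fun p => (mem_U1 ha z0 hz0 B b _).2 ⟨bl1 _ _ p, by
    unfold i1
    rw [Scheme.Hom.comp_apply]⟩

theorem i2_le : ⊤ ≤ i2 ha z0 hz0 B b ⁻¹ᵁ bU1 ha z0 hz0 B b :=
  le_of_range _ fun p => (mem_U1 ha z0 hz0 B b _).2 ⟨bl2 _ _ p, by
    unfold i2
    rw [Scheme.Hom.comp_apply]⟩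

theorem iR_le : ⊤ ≤ bR ha z0 hz0 B b ⁻¹ᵁ bU2 ha z0 hz0 B b :=
  le_of_range _ fun p => (mem_U2 ha z0 hz0 B b _).2 ⟨p, rfl⟩

theorem iJ_le : ⊤ ≤ iJ ha z0 hz0 B b ⁻¹ᵁ bU12 ha z0 hz0 B b :=
  le_of_range _ fun p => ⟨(mem_U1 ha z0 hz0 B b _).2 ⟨bJ z0 hz0 B b p, by
    rw [iJ_eq, Scheme.Hom.comp_apply]⟩, (mem_U2 ha z0 hz0 B b _).2 ⟨spMap (bmap B T.j2) p, by
    unfold iJ
    rw [Scheme.Hom.comp_apply]⟩⟩

theorem cov1 (x : bX ha z0 hz0 B b) (hx : x ∈ bU1 ha z0 hz0 B b) :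
    x ∈ Set.range (i1 ha z0 hz0 B b) ∨ x ∈ Set.range (i2 ha z0 hz0 B b) := by
  obtain ⟨y, rfl⟩ := (mem_U1 ha z0 hz0 B b x).1 hx
  rcases bl_cover _ _ y with ⟨p, rfl⟩ | ⟨p, rfl⟩
  · left
    refine ⟨p, ?_⟩
    unfold i1
    rw [Scheme.Hom.comp_apply]
  · right
    refine ⟨p, ?_⟩
    unfold i2
    rw [Scheme.Hom.comp_apply]

theorem cov2 (x : bX ha z0 hz0 B b) (hx : x ∈ bU2 ha z0 hz0 B b) :
    x ∈ Set.range (bR ha z0 hz0 B b) := (mem_U2 ha z0 hz0 B b x).1 hx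

theorem cov12 (x : bX ha z0 hz0 B b) (hx : x ∈ bU12 ha z0 hz0 B b) :
    x ∈ Set.range (iJ ha z0 hz0 B b) := by
  obtain ⟨y, rfl⟩ := (mem_U2 ha z0 hz0 B b x).1 hx.2
  obtain ⟨y', hy'⟩ := (mem_U1 ha z0 hz0 B b _).1 hx.1
  obtain ⟨w, -, hw⟩ := Scheme.exists_preimage_of_isPullback (b_isPullback ha z0 hz0 B b) y' y hy'
  refine ⟨w, ?_⟩
  unfold iJ
  rw [Scheme.Hom.comp_apply, hw]

end

end Pool.Agent.MG


end

section

/-!
# The charted structure of the bubble family: functions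
-/

set_option linter.unusedSectionVars false

open CategoryTheory CategoryTheory.Limits AlgebraicGeometry TensorProduct

namespace Pool.Agent.MG

section

variable {n : ℕ} {k : Type} [Field k] {C : Fam n k} {T : TC k} {ct : Charted T C}
  (ha : ct.Aff) (z0 : T.R1) (hz0 : IsUnit (T.j1 z0)) (B : Type) [CommRing B] [Algebra k B] (b : B)

/-- Functions on the first chart. -/
noncomputable def bt1 : B ⊗[k] T.R1 →+* Γ(bX ha z0 hz0 B b, bU1 ha z0 hz0 B b) :=
  (exT (bπ ha z0 hz0 B b) C.π (bq ha z0 hz0 B b) (bq_π ha z0 hz0 B b) ct.U1 ct.t1 ct.c1).choose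

theorem bt1_l (c : B) : bt1 ha z0 hz0 B b (c ⊗ₜ 1) = coef (bπ ha z0 hz0 B b) _ c :=
  (exT (bπ ha z0 hz0 B b) C.π (bq ha z0 hz0 B b) (bq_π ha z0 hz0 B b) ct.U1 ct.t1
    ct.c1).choose_spec.1 c

theorem bt1_r (r : T.R1) : bt1 ha z0 hz0 B b (1 ⊗ₜ r) =
    ((bq ha z0 hz0 B b).appLE ct.U1 (bU1 ha z0 hz0 B b) le_rfl).hom (ct.t1 (1 ⊗ₜ r)) :=
  (exT (bπ ha z0 hz0 B b) C.π (bq ha z0 hz0 B b) (bq_π ha z0 hz0 B b) ct.U1 ct.t1
    ct.c1).choose_spec.2 r

/-- Functions on the second chart. -/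
noncomputable def bt2 : B ⊗[k] T.R2 →+* Γ(bX ha z0 hz0 B b, bU2 ha z0 hz0 B b) :=
  (exT (bπ ha z0 hz0 B b) C.π (bq ha z0 hz0 B b) (bq_π ha z0 hz0 B b) ct.U2 ct.t2 ct.c2).choose

theorem bt2_l (c : B) : bt2 ha z0 hz0 B b (c ⊗ₜ 1) = coef (bπ ha z0 hz0 B b) _ c :=
  (exT (bπ ha z0 hz0 B b) C.π (bq ha z0 hz0 B b) (bq_π ha z0 hz0 B b) ct.U2 ct.t2
    ct.c2).choose_spec.1 c

theorem bt2_r (r : T.R2) : bt2 ha z0 hz0 B b (1 ⊗ₜ r) =
    ((bq ha z0 hz0 B b).appLE ct.U2 (bU2 ha z0 hz0 B b) le_rfl).hom (ct.t2 (1 ⊗ₜ r)) :=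
  (exT (bπ ha z0 hz0 B b) C.π (bq ha z0 hz0 B b) (bq_π ha z0 hz0 B b) ct.U2 ct.t2
    ct.c2).choose_spec.2 r

/-- Functions on the intersection. -/
noncomputable def bt12 : B ⊗[k] T.R12 →+* Γ(bX ha z0 hz0 B b, bU12 ha z0 hz0 B b) :=
  (exT (bπ ha z0 hz0 B b) C.π (bq ha z0 hz0 B b) (bq_π ha z0 hz0 B b) (ct.U1 ⊓ ct.U2) ct.t12
    ct.c12).choose

theorem bt12_l (c : B) : bt12 ha z0 hz0 B b (c ⊗ₜ 1) = coef (bπ ha z0 hz0 B b) _ c :=
  (exT (bπ ha z0 hz0 B b) C.π (bq ha z0 hz0 B b) (bq_π ha z0 hz0 B b) (ct.U1 ⊓ ct.U2) ct.t12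
    ct.c12).choose_spec.1 c

theorem bt12_r (r : T.R12) : bt12 ha z0 hz0 B b (1 ⊗ₜ r) =
    ((bq ha z0 hz0 B b).appLE (ct.U1 ⊓ ct.U2) (bU12 ha z0 hz0 B b) le_rfl).hom
      (ct.t12 (1 ⊗ₜ r)) :=
  (exT (bπ ha z0 hz0 B b) C.π (bq ha z0 hz0 B b) (bq_π ha z0 hz0 B b) (ct.U1 ⊓ ct.U2) ct.t12
    ct.c12).choose_spec.2 r

theorem ev_i1 (u : B ⊗[k] T.R1) :
    evO (i1 ha z0 hz0 B b) _ (i1_le ha z0 hz0 B b) (bt1 ha z0 hz0 B b u) = algebraMap _ _ u :=
  evO_T (bt1_l ha z0 hz0 B b) (bt1_r ha z0 hz0 B b) _ _ _ (i1_π ha z0 hz0 B b) (io1 ha)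
    (io1_le ha) (i1_q ha z0 hz0 B b) (evO_io1 ha) u

theorem ev_i2 (u : B ⊗[k] T.R1) :
    evO (i2 ha z0 hz0 B b) _ (i2_le ha z0 hz0 B b) (bt1 ha z0 hz0 B b u) = algebraMap _ _ u :=
  evO_T (bt1_l ha z0 hz0 B b) (bt1_r ha z0 hz0 B b) _ _ _ (i2_π ha z0 hz0 B b) (io1 ha)
    (io1_le ha) (i2_q ha z0 hz0 B b) (evO_io1 ha) u

theorem ev_iR (u : B ⊗[k] T.R2) :
    evO (bR ha z0 hz0 B b) _ (iR_le ha z0 hz0 B b) (bt2 ha z0 hz0 B b u) = u :=
  evO_T (bt2_l ha z0 hz0 B b) (bt2_r ha z0 hz0 B b) _ _ (RingHom.id _)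
    (bR_π ha z0 hz0 B b) (io2 ha) (io2_le ha) (bR_q ha z0 hz0 b) (evO_io2 ha) u

theorem ev_iJ (u : B ⊗[k] T.R12) :
    evO (iJ ha z0 hz0 B b) _ (iJ_le ha z0 hz0 B b) (bt12 ha z0 hz0 B b u) = u :=
  evO_T (bt12_l ha z0 hz0 B b) (bt12_r ha z0 hz0 B b) _ _ (RingHom.id _)
    (iJ_π ha z0 hz0 B b) (io12 ha) (io12_le ha) (iJ_q ha z0 hz0 B b) (evO_io12 ha) u

theorem bt2_bij : Function.Bijective (bt2 ha z0 hz0 B b) := by
  have h1 := evO_bij (bR ha z0 hz0 B b) (iR_le ha z0 hz0 B b) (cov2 ha z0 hz0 B b)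
  refine ⟨fun u v huv => ?_, fun a => ⟨evO (bR ha z0 hz0 B b) _ (iR_le ha z0 hz0 B b) a, ?_⟩⟩
  · rw [← ev_iR ha z0 hz0 B b u, huv, ev_iR]
  · apply h1.1
    rw [ev_iR]

theorem bt12_bij : Function.Bijective (bt12 ha z0 hz0 B b) := by
  have h1 := evO_bij (iJ ha z0 hz0 B b) (iJ_le ha z0 hz0 B b) (cov12 ha z0 hz0 B b)
  refine ⟨fun u v huv => ?_, fun a => ⟨evO (iJ ha z0 hz0 B b) _ (iJ_le ha z0 hz0 B b) a, ?_⟩⟩
  · rw [← ev_iJ ha z0 hz0 B b u, huv, ev_iJ]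
  · apply h1.1
    rw [ev_iJ]

theorem i12_le : ⊤ ≤ i12 ha z0 hz0 B b ⁻¹ᵁ bU1 ha z0 hz0 B b :=
  le_of_range _ fun p => by
    unfold i12
    rw [Scheme.Hom.comp_apply]
    exact mem_pre _ _ (i1_le ha z0 hz0 B b) _

/-- A function on the first chart gives functions on the two affine charts which agree on the
intersection. -/
theorem ev_agree (a : Γ(bX ha z0 hz0 B b, bU1 ha z0 hz0 B b)) :
    algebraMap (NR ((1 : B) ⊗ₜ[k] z0) (b ⊗ₜ[k] (1 : T.R1)))
      (MR ((1 : B) ⊗ₜ[k] z0) (b ⊗ₜ[k] (1 : T.R1)))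
      (evO (i1 ha z0 hz0 B b) _ (i1_le ha z0 hz0 B b) a) =
    swapN _ _ (evO (i2 ha z0 hz0 B b) _ (i2_le ha z0 hz0 B b) a) := by
  have h1 := evO_spMap (i1 ha z0 hz0 B b) (algebraMap (NR ((1 : B) ⊗ₜ[k] z0)
    (b ⊗ₜ[k] (1 : T.R1))) (MR ((1 : B) ⊗ₜ[k] z0) (b ⊗ₜ[k] (1 : T.R1)))) (i1_le ha z0 hz0 B b)
    (i12_le ha z0 hz0 B b) a
  rw [← h1]
  have h2 : ∀ (f : Sp (MR ((1 : B) ⊗ₜ[k] z0) (b ⊗ₜ[k] (1 : T.R1))) ⟶ bX ha z0 hz0 B b)
      (_ : f = blg _ _ ≫ i2 ha z0 hz0 B b) (h : ⊤ ≤ f ⁻¹ᵁ bU1 ha z0 hz0 B b),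
      evO f _ h a = swapN _ _ (evO (i2 ha z0 hz0 B b) _ (i2_le ha z0 hz0 B b) a) := by
    intro f hf h
    subst hf
    exact evO_spMap (i2 ha z0 hz0 B b) (swapN _ _) (i2_le ha z0 hz0 B b) h a
  exact h2 _ (i12_eq ha z0 hz0 B b) (i12_le ha z0 hz0 B b)

theorem bt1_bij (hz : ∀ a : B ⊗[k] T.R1, ((1 : B) ⊗ₜ[k] z0) * a = 0 → a = 0) :
    Function.Bijective (bt1 ha z0 hz0 B b) := by
  constructor
  · rw [injective_iff_map_eq_zero]
    intro u hu
    apply bub_inj _ _ hz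
    rw [← ev_i1 ha z0 hz0 B b u, hu, map_zero]
  · intro a
    obtain ⟨r, h1, h2⟩ := bub_H0 _ _ _ _ (ev_agree ha z0 hz0 B b a)
    refine ⟨r, ?_⟩
    rw [← sub_eq_zero]
    apply evO_un (i1 ha z0 hz0 B b) (i2 ha z0 hz0 B b) (i1_le ha z0 hz0 B b)
      (i2_le ha z0 hz0 B b) (cov1 ha z0 hz0 B b)
    · rw [map_sub, ev_i1, h1, sub_self]
    · rw [map_sub, ev_i2, h2, sub_self]

theorem r1_aux (a : T.R1) : rs (bX ha z0 hz0 B b) (inf_le_left : bU1 ha z0 hz0 B b ⊓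
    bU2 ha z0 hz0 B b ≤ bU1 ha z0 hz0 B b) (bt1 ha z0 hz0 B b (1 ⊗ₜ a)) =
      bt12 ha z0 hz0 B b (1 ⊗ₜ T.j1 a) := by
  rw [bt1_r, bt12_r, ← ct.r1]
  change ((bq ha z0 hz0 B b).appLE _ _ _ ≫ (bX ha z0 hz0 B b).presheaf.map (homOfLE _).op) _ =
    (C.X.presheaf.map (homOfLE _).op ≫ (bq ha z0 hz0 B b).appLE _ _ _) _
  rw [Scheme.Hom.map_appLE, Scheme.Hom.appLE_map]

theorem r2_aux (a : T.R2) : rs (bX ha z0 hz0 B b) (inf_le_right : bU1 ha z0 hz0 B b ⊓
    bU2 ha z0 hz0 B b ≤ bU2 ha z0 hz0 B b) (bt2 ha z0 hz0 B b (1 ⊗ₜ a)) =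
      bt12 ha z0 hz0 B b (1 ⊗ₜ T.j2 a) := by
  rw [bt2_r, bt12_r, ← ct.r2]
  change ((bq ha z0 hz0 B b).appLE _ _ _ ≫ (bX ha z0 hz0 B b).presheaf.map (homOfLE _).op) _ =
    (C.X.presheaf.map (homOfLE _).op ≫ (bq ha z0 hz0 B b).appLE _ _ _) _
  rw [Scheme.Hom.map_appLE, Scheme.Hom.appLE_map]

theorem opens_eq {A : Type} [CommRing A] {X : Scheme.{0}} (i : Sp A ⟶ X) [IsOpenImmersion i]
    {U : X.Opens} (h : ⊤ ≤ i ⁻¹ᵁ U) (hU : ∀ x ∈ U, x ∈ Set.range i) : U = i.opensRange := by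
  ext x
  constructor
  · exact hU x
  · rintro ⟨p, rfl⟩
    exact mem_pre i U h p

theorem aff_of {A : Type} [CommRing A] {X : Scheme.{0}} (i : Sp A ⟶ X) [IsOpenImmersion i]
    {U : X.Opens} (h : ⊤ ≤ i ⁻¹ᵁ U) (hU : ∀ x ∈ U, x ∈ Set.range i) : IsAffineOpen U := by
  rw [opens_eq i h hU]
  exact isAffineOpen_opensRange i

theorem range_i12 : (i1 ha z0 hz0 B b).opensRange ⊓ (i2 ha z0 hz0 B b).opensRange =
    (i12 ha z0 hz0 B b).opensRange := by
  ext x
  constructor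
  · rintro ⟨⟨p, hp⟩, ⟨r, hr⟩⟩
    have h1 : bl1 ((1 : B) ⊗ₜ[k] z0) (b ⊗ₜ[k] (1 : T.R1)) p = bl2 _ _ r := by
      apply (bL ha z0 hz0 B b).isOpenEmbedding.injective
      rw [← Scheme.Hom.comp_apply, ← Scheme.Hom.comp_apply]
      exact hp.trans hr.symm
    obtain ⟨w, hw, -⟩ := Scheme.exists_preimage_of_isPullback
      (bl_isPullback ((1 : B) ⊗ₜ[k] z0) (b ⊗ₜ[k] (1 : T.R1))) p r h1
    refine ⟨w, ?_⟩
    unfold i12
    rw [Scheme.Hom.comp_apply, hw]
    exact hp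
  · rintro ⟨p, rfl⟩
    constructor
    · refine ⟨blf _ _ p, ?_⟩
      unfold i12
      rw [Scheme.Hom.comp_apply]
    · refine ⟨blg _ _ p, ?_⟩
      rw [i12_eq, Scheme.Hom.comp_apply]

theorem ac1_aux : Acyc (bU1 ha z0 hz0 B b) := by
  refine ⟨(i1 ha z0 hz0 B b).opensRange, (i2 ha z0 hz0 B b).opensRange,
    isAffineOpen_opensRange _, isAffineOpen_opensRange _, ?_, ?_, ?_⟩
  · rw [range_i12]
    exact isAffineOpen_opensRange _
  · ext x
    constructor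
    · rintro (⟨p, rfl⟩ | ⟨p, rfl⟩)
      · exact mem_pre _ _ (i1_le ha z0 hz0 B b) p
      · exact mem_pre _ _ (i2_le ha z0 hz0 B b) p
    · exact cov1 ha z0 hz0 B b x
  · intro s
    have hle : ⊤ ≤ i12 ha z0 hz0 B b ⁻¹ᵁ
        ((i1 ha z0 hz0 B b).opensRange ⊓ (i2 ha z0 hz0 B b).opensRange) := by
      rw [range_i12]
      exact range_pre _
    have hbij := evO_bij (i12 ha z0 hz0 B b) hle (fun x hx => by
      rw [range_i12] at hx
      exact hx)
    obtain ⟨f, g, hfg⟩ := bub_H1 _ _ (evO (i12 ha z0 hz0 B b) _ hle s)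
    obtain ⟨a, ha'⟩ := (evO_bij (i1 ha z0 hz0 B b) (range_pre _) (fun x hx => hx)).2 f
    obtain ⟨c, hc⟩ := (evO_bij (i2 ha z0 hz0 B b) (range_pre _) (fun x hx => hx)).2 g
    refine ⟨a, c, hbij.1 ?_⟩
    have l1 : ⊤ ≤ i12 ha z0 hz0 B b ⁻¹ᵁ (i1 ha z0 hz0 B b).opensRange :=
      hle.trans fun p hp => hp.1
    have l2 : ⊤ ≤ i12 ha z0 hz0 B b ⁻¹ᵁ (i2 ha z0 hz0 B b).opensRange :=
      hle.trans fun p hp => hp.2
    rw [map_add, evO_rs _ _ hle l1, evO_rs _ _ hle l2, hfg, ← ha', ← hc]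
    congr 1
    · exact (evO_spMap (i1 ha z0 hz0 B b) (algebraMap (NR ((1 : B) ⊗ₜ[k] z0)
        (b ⊗ₜ[k] (1 : T.R1))) (MR ((1 : B) ⊗ₜ[k] z0) (b ⊗ₜ[k] (1 : T.R1)))) (range_pre _)
        l1 a).symm
    · have h2 : ∀ (f : Sp (MR ((1 : B) ⊗ₜ[k] z0) (b ⊗ₜ[k] (1 : T.R1))) ⟶ bX ha z0 hz0 B b)
          (_ : f = blg _ _ ≫ i2 ha z0 hz0 B b) (h : ⊤ ≤ f ⁻¹ᵁ (i2 ha z0 hz0 B b).opensRange),
          swapN _ _ (evO (i2 ha z0 hz0 B b) _ (range_pre _) c) = evO f _ h c := by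
        intro f hf h
        subst hf
        exact (evO_spMap (i2 ha z0 hz0 B b) (swapN _ _) (range_pre _) h c).symm
      exact h2 _ (i12_eq ha z0 hz0 B b) l2

theorem ac2_aux : Acyc (bU2 ha z0 hz0 B b) :=
  CHB.acyc_of_affine (aff_of _ (iR_le ha z0 hz0 B b) (cov2 ha z0 hz0 B b))

theorem ac12_aux : Acyc (bU1 ha z0 hz0 B b ⊓ bU2 ha z0 hz0 B b) :=
  CHB.acyc_of_affine (aff_of _ (iJ_le ha z0 hz0 B b) (cov12 ha z0 hz0 B b))

end

section

variable {n : ℕ} {k : Type} [Field k] {C : Fam n k} {T : TC k} (ch : Cht C T) (i₀ j : Fin n)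
  (hji : j ≠ i₀) {B : Type} [CommRing B] [Algebra k B] (φ : T.R1 →ₐ[k] B)

/-- The charts of the bubble family. -/
noncomputable def bubCt : Charted T (bubFam ch i₀ j φ hji) where
  U1 := bU1 ch.aff (zz ch j) (zz_unit ch j) B (φ (zz ch j))
  U2 := bU2 ch.aff (zz ch j) (zz_unit ch j) B (φ (zz ch j))
  cover := congrArg (fun W => bq ch.aff (zz ch j) (zz_unit ch j) B (φ (zz ch j)) ⁻¹ᵁ W)
    ch.ct.cover
  ac1 := ac1_aux _ _ _ _ _
  ac2 := ac2_aux _ _ _ _ _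
  ac12 := ac12_aux _ _ _ _ _
  t1 := bt1 _ _ _ _ _
  t2 := bt2 _ _ _ _ _
  t12 := bt12 _ _ _ _ _
  b1 := bt1_bij _ _ _ _ _ (zB_reg ch j B)
  b2 := bt2_bij _ _ _ _ _
  b12 := bt12_bij _ _ _ _ _
  c1 := bt1_l _ _ _ _ _
  c2 := bt2_l _ _ _ _ _
  c12 := bt12_l _ _ _ _ _
  r1 := r1_aux _ _ _ _ _
  r2 := r2_aux _ _ _ _ _

end

end Pool.Agent.MG


end

section

/-!
# The bubble family: sections in the charts, the arrow from the constant family
-/

set_option linter.unusedSectionVars false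

open CategoryTheory CategoryTheory.Limits AlgebraicGeometry TensorProduct

namespace Pool.Agent.MG

section

variable {n : ℕ} {k : Type} [Field k] {C : Fam n k} {T : TC k} (ch : Cht C T) (i₀ j : Fin n)
  (hji : j ≠ i₀) {B : Type} [CommRing B] [Algebra k B] (φ : T.R1 →ₐ[k] B)

theorem sec_q (i : Fin n) : (bubFam ch i₀ j φ hji).σ i ≫
    bq ch.aff (zz ch j) (zz_unit ch j) B (φ (zz ch j)) =
      spMap ((extA (spt ch i₀ φ i) : B ⊗[k] T.R1 →+* B).comp (inR k B T.R1)) ≫ io1 ch.aff := by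
  have h1 := bubFam_sec ch i₀ j φ hji i
  rw [tau_one] at h1
  rw [extA_inR]
  exact h1

theorem sec_π (i : Fin n) : (bubFam ch i₀ j φ hji).σ i ≫
    bπ ch.aff (zz ch j) (zz_unit ch j) B (φ (zz ch j)) =
      spMap ((extA (spt ch i₀ φ i) : B ⊗[k] T.R1 →+* B).comp (inL k B T.R1)) := by
  rw [extA_inL, spMap_id]
  exact (bubFam ch i₀ j φ hji).sec i

theorem sec_le (i : Fin n) : ⊤ ≤ (bubFam ch i₀ j φ hji).σ i ⁻¹ᵁ
    bU1 ch.aff (zz ch j) (zz_unit ch j) B (φ (zz ch j)) := by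
  have h1 : ⊤ ≤ ((bubFam ch i₀ j φ hji).σ i ≫
      bq ch.aff (zz ch j) (zz_unit ch j) B (φ (zz ch j))) ⁻¹ᵁ ch.ct.U1 := by
    rw [sec_q]
    exact le_of_range _ fun p => by
      rw [Scheme.Hom.comp_apply]
      exact mem_pre _ _ (io1_le ch.aff) _
  exact h1

/-- The sections of the bubble family in the charts. -/
theorem bub_is (i : Fin n) : (bubCt ch i₀ j hji φ).Is ((bubFam ch i₀ j φ hji).σ i)
    (mv ch i₀ (.one φ) i) := by
  rw [mv_eq]
  refine ⟨sec_le ch i₀ j hji φ i, fun a => ?_⟩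
  have h1 := evO_T (bt1_l ch.aff (zz ch j) (zz_unit ch j) B (φ (zz ch j)))
    (bt1_r ch.aff (zz ch j) (zz_unit ch j) B (φ (zz ch j))) ((bubFam ch i₀ j φ hji).σ i)
    (sec_le ch i₀ j hji φ i) _ (sec_π ch i₀ j hji φ i) (io1 ch.aff) (io1_le ch.aff)
    (sec_q ch i₀ j hji φ i) (evO_io1 ch.aff) (1 ⊗ₜ a)
  have h2 : (extA (spt ch i₀ φ i) : B ⊗[k] T.R1 →+* B) (1 ⊗ₜ a) = spt ch i₀ φ i a := by
    rw [RingHom.coe_coe, extA_tmul, one_mul]
  rw [h2] at h1
  refine (evO_gl _ (sec_le ch i₀ j hji φ i) _).trans ?_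
  exact congrArg (gl B) h1

/-- The contraction and the sections. -/
theorem sec_C (i : Fin n) (τ : Sp B ⟶ C.X) (h : τ = tau ch.aff (.one (spt ch i₀ φ i)))
    (w : τ ≫ C.π = 𝟙 _ ≫ spMap (algebraMap k B)) :
    (secT ch i₀ j φ hji i ≫ bL ch.aff (zz ch j) (zz_unit ch j) B (φ (zz ch j))) ≫
      bC ch.aff (zz ch j) (zz_unit ch j) B (φ (zz ch j)) = pullback.lift τ (𝟙 _) w := by
  apply pullback.hom_ext
  · rw [pullback.lift_fst, h]
    refine Eq.trans ?_ (bubFam_sec ch i₀ j φ hji i)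
    exact Category.assoc _ _ _
  · rw [pullback.lift_snd]
    refine Eq.trans ?_ ((bubFam ch i₀ j φ hji).sec i)
    exact Category.assoc _ _ _

end

section

variable {n : ℕ} {k : Type} [Field k] {C : Fam n k} {T : TC k} (ch : Cht C T) (i₀ j : Fin n)
  (hji : j ≠ i₀) {B : Type} [CommRing B] [Algebra k B] (φ : T.R1 →ₐ[k] B)
  {B' : Type} [CommRing B'] [Algebra k B'] (ψ : B →ₐ[k] B')
  (hu : IsUnit (ψ (φ (zz ch j))))

include hu in
theorem isIso_C : IsIso (bC ch.aff (zz ch j) (zz_unit ch j) B' ((ψ.comp φ) (zz ch j))) :=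
  bC_isIso ch.aff (zz ch j) (zz_unit ch j) B' _ hu

/-- The map from the constant family to the bubble family. -/
noncomputable def cf : pullback C.π (spMap (algebraMap k B')) ⟶
    bX ch.aff (zz ch j) (zz_unit ch j) B (φ (zz ch j)) :=
  have := isIso_C ch j φ ψ hu
  inv (bC ch.aff (zz ch j) (zz_unit ch j) B' ((ψ.comp φ) (zz ch j))) ≫
    bF ch.aff (zz ch j) (zz_unit ch j) (φ (zz ch j)) ψ _ (cv ch j φ ψ)

theorem cf_q : cf ch j φ ψ hu ≫ bq ch.aff (zz ch j) (zz_unit ch j) B (φ (zz ch j)) =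
    pullback.fst _ _ := by
  have := isIso_C ch j φ ψ hu
  unfold cf
  rw [Category.assoc, bF_q, IsIso.inv_comp_eq]
  rfl

theorem cf_isPullback : IsPullback (cf ch j φ ψ hu) (pullback.snd C.π (spMap (algebraMap k B')))
    (bπ ch.aff (zz ch j) (zz_unit ch j) B (φ (zz ch j))) (spMap (ψ : B →+* B')) := by
  have := isIso_C ch j φ ψ hu
  have h1 := bF_isPullback ch.aff (zz ch j) (zz_unit ch j) (φ (zz ch j)) ψ _ (cv ch j φ ψ)
  have h2 : IsPullback (inv (bC ch.aff (zz ch j) (zz_unit ch j) B' ((ψ.comp φ) (zz ch j))))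
      (pullback.snd C.π (spMap (algebraMap k B')))
      (bπ ch.aff (zz ch j) (zz_unit ch j) B' ((ψ.comp φ) (zz ch j))) (𝟙 _) := by
    refine IsPullback.of_horiz_isIso ⟨?_⟩
    unfold bπ
    rw [IsIso.inv_hom_id_assoc, Category.comp_id]
  have h3 := h2.paste_horiz h1
  rw [Category.id_comp] at h3
  exact h3

theorem cf_sec (i : Fin n) (τ : Sp B' ⟶ C.X)
    (h : τ = tau ch.aff (.one (spt ch i₀ (ψ.comp φ) i)))
    (w : τ ≫ C.π = 𝟙 _ ≫ spMap (algebraMap k B')) :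
    pullback.lift τ (𝟙 _) w ≫ cf ch j φ ψ hu = spMap (ψ : B →+* B') ≫
      secT ch i₀ j φ hji i ≫ bL ch.aff (zz ch j) (zz_unit ch j) B (φ (zz ch j)) := by
  have := isIso_C ch j φ ψ hu
  rw [← sec_C ch i₀ j hji (ψ.comp φ) i τ h w]
  unfold cf
  rw [Category.assoc, IsIso.hom_inv_id_assoc, Category.assoc, bL_F, ← Category.assoc, secT_E,
    Category.assoc]

/-- The arrow from the constant family to the bubble family. -/
noncomputable def cfArrow (τ : Fin n → (Sp B' ⟶ C.X))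
    (hτ : ∀ i, τ i ≫ C.π = spMap (algebraMap k B'))
    (h : ∀ i, τ i = tau ch.aff (.one (spt ch i₀ (ψ.comp φ) i))) :
    Arrow (ψ : B →+* B') (constFam C B' τ hτ) (bubFam ch i₀ j φ hji) where
  f := cf ch j φ ψ hu
  cart := cf_isPullback ch j φ ψ hu
  sec i := cf_sec ch i₀ j hji φ ψ hu i (τ i) (h i) _

theorem cf_appLE (W : C.X.Opens) (V : (pullback C.π (spMap (algebraMap k B'))).Opens)
    (h1 : V ≤ cf ch j φ ψ hu ⁻¹ᵁ (bq ch.aff (zz ch j) (zz_unit ch j) B (φ (zz ch j)) ⁻¹ᵁ W))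
    (h2 : V ≤ pullback.fst C.π (spMap (algebraMap k B')) ⁻¹ᵁ W) (a : Γ(C.X, W)) :
    ((cf ch j φ ψ hu).appLE _ V h1).hom
      (((bq ch.aff (zz ch j) (zz_unit ch j) B (φ (zz ch j))).appLE W _ le_rfl).hom a) =
        ((pullback.fst C.π (spMap (algebraMap k B'))).appLE W V h2).hom a := by
  have h3 := Scheme.Hom.appLE_comp_appLE (cf ch j φ ψ hu)
    (bq ch.aff (zz ch j) (zz_unit ch j) B (φ (zz ch j))) W _ V le_rfl h1
  have h4 : ((cf ch j φ ψ hu ≫ bq ch.aff (zz ch j) (zz_unit ch j) B (φ (zz ch j))).appLE W V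
      (by
        intro x hx
        exact h1 hx)) = (pullback.fst C.π (spMap (algebraMap k B'))).appLE W V h2 := by
    simp only [cf_q]
  rw [← h4, ← h3]
  rfl

/-- The arrow respects the charts. -/
theorem cfArrow_ch (τ : Fin n → (Sp B' ⟶ C.X))
    (hτ : ∀ i, τ i ≫ C.π = spMap (algebraMap k B'))
    (h : ∀ i, τ i = tau ch.aff (.one (spt ch i₀ (ψ.comp φ) i)))
    (c : Charted T (constFam C B' τ hτ)) (hc : IsBC ch.ct c) :
    ChArrow (cfArrow ch i₀ j hji φ ψ hu τ hτ h) c (bubCt ch i₀ j hji φ) where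
  h1 := by
    rw [← hc.h1]
    change (cf ch j φ ψ hu ≫ bq ch.aff (zz ch j) (zz_unit ch j) B (φ (zz ch j))) ⁻¹ᵁ ch.ct.U1 = _
    rw [cf_q]
  h2 := by
    rw [← hc.h2]
    change (cf ch j φ ψ hu ≫ bq ch.aff (zz ch j) (zz_unit ch j) B (φ (zz ch j))) ⁻¹ᵁ ch.ct.U2 = _
    rw [cf_q]
  f1 r := by
    rw [← hc.f1]
    change ((cf ch j φ ψ hu).appLE _ _ _).hom (bt1 ch.aff (zz ch j) (zz_unit ch j) B
      (φ (zz ch j)) (1 ⊗ₜ r)) = _
    rw [bt1_r]
    exact cf_appLE ch j φ ψ hu _ _ _ _ _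
  f2 r := by
    rw [← hc.f2]
    change ((cf ch j φ ψ hu).appLE _ _ _).hom (bt2 ch.aff (zz ch j) (zz_unit ch j) B
      (φ (zz ch j)) (1 ⊗ₜ r)) = _
    rw [bt2_r]
    exact cf_appLE ch j φ ψ hu _ _ _ _ _
  f12 hle r := by
    rw [← hc.f12 (by rw [← hc.h1, ← hc.h2]; exact le_rfl)]
    change ((cf ch j φ ψ hu).appLE _ _ _).hom (bt12 ch.aff (zz ch j) (zz_unit ch j) B
      (φ (zz ch j)) (1 ⊗ₜ r)) = _
    rw [bt12_r]
    exact cf_appLE ch j φ ψ hu _ _ _ _ _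

end

end Pool.Agent.MG


end

section

/-!
# CSTW: constant families with a constant section and disjoint sections are stable
-/

open CategoryTheory CategoryTheory.Limits AlgebraicGeometry TensorProduct

namespace Pool.Agent.MG

open CST in
theorem t_CSTW (hRIGW : Stmt_RIGW) : Stmt_CSTW := by
  intro n k _ _ g C hC hsm T ch j₀ hvf B _ _ τ hτ hj₀ hdis
  have hSC := stableCurve hC
  have hprop := hC.proper
  have hflat := hC.flat
  have hfp := hC.fp
  refine ⟨?_, ?_, ?_, ?_⟩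
  · change IsProper (pullback.snd C.π (spMap (algebraMap k B)))
    infer_instance
  · change Flat (pullback.snd C.π (spMap (algebraMap k B)))
    infer_instance
  · change LocallyOfFinitePresentation (pullback.snd C.π (spMap (algebraMap k B)))
    infer_instance
  · intro K _ _ s z hz
    let _ : Algebra k K := (s.comp (algebraMap k B)).toAlgebra
    let ψ : B →ₐ[k] K := { s with commutes' := fun _ => rfl }
    have hτ' : ∀ i, (spMap s ≫ τ i) ≫ C.π = spMap (algebraMap k K) := by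
      intro i
      rw [Category.assoc, hτ, ← spMap_comp]
    obtain ⟨f, hf⟩ := t_FIS.1 C B K ψ τ hτ (fun i => spMap s ≫ τ i) hτ' (fun i => rfl) z hz
    refine t_FIS.2 g z _ f hf ?_
    refine ⟨?_, ?_, ?_, ?_, ?_, ?_⟩
    · have : Nonempty C.X := hSC.connected.toNonempty
      exact t_CON t_CHB C T ch this K _ hτ'
    · exact t_NOD t_CHB C T ch K _ hτ'
    · exact t_GEN C g hprop hSC.genus K _ hτ'
    · intro i j hij h
      refine hdis K s i j hij ?_
      have h1 := congrArg (fun q => q ≫ pullback.fst C.π (spMap (algebraMap k K))) h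
      have h2 : ∀ i, (constFam C K (fun i => spMap s ≫ τ i) hτ').σ i ≫
          pullback.fst C.π (spMap (algebraMap k K)) = spMap s ≫ τ i :=
        fun i => pullback.lift_fst _ _ _
      exact (h2 i).symm.trans (h1.trans (h2 j))
    · intro i p
      refine ⟨⊤, trivial, ?_⟩
      have h1 : Smooth C.π := SmoothOfRelativeDimension.smooth 1 C.π
      have h2 : Smooth (pullback.snd C.π (spMap (algebraMap k K))) :=
        MorphismProperty.pullback_snd _ _ h1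
      change Smooth ((⊤ : (pullback C.π (spMap (algebraMap k K))).Opens).ι ≫
        pullback.snd C.π (spMap (algebraMap k K)))
      infer_instance
    · intro v U
      refine hRIGW ch j₀ hvf K _ hτ' ?_ v U
      rw [hj₀, ← Category.assoc, ← spMap_comp]

end Pool.Agent.MG


end

section

/-!
# INT: membership in a Krichever ring descends along injective base change
-/

namespace Pool.Agent.MG.G0

namespace INT

section

variable {I A B : Type} [CommRing A] [CommRing B]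

/-- A series which becomes a constant after an injective base change is a constant. -/
theorem const_of_kmap [Nonempty I] (φ : A →+* B) (hφ : Function.Injective φ) {o : KK I A} {b : B}
    (h : kmap φ o = algebraMap B (KK I B) b) : ∃ a : A, o = algebraMap A (KK I A) a := by
  have hc : ∀ (i : I) (n : ℤ), φ ((o i).coeff n) = if n = 0 then b else 0 := by
    intro i n
    have e : (kmap φ o i).coeff n = ((algebraMap B (KK I B) b) i).coeff n := by rw [h]
    rw [kmap_apply, lmap_coeff, Pi.algebraMap_apply, coeff_algebraMap] at e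
    exact e
  obtain ⟨i₀⟩ := ‹Nonempty I›
  refine ⟨(o i₀).coeff 0, ?_⟩
  funext i
  ext n
  rw [Pi.algebraMap_apply, coeff_algebraMap]
  apply hφ
  rw [hc i n]
  split_ifs with h0
  · rw [hc i₀ 0, if_pos rfl]
  · rw [map_zero]

end

end INT

/-- INT: membership descends along injective base change. -/
theorem t_INT (hKFO : Stmt_KFO) (hKBC : Stmt_KBC) : Stmt_INT := by
  intro I A B _ _ _ _ g P hP φ hφ x hx
  obtain ⟨⟨ω, hω⟩, -⟩ := hKFO hP
  obtain ⟨hKrB, hFB, -⟩ := hKBC.2.2.2 hP φ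
  have h1 : ∀ j, res (ω j * x) = 0 := by
    intro j
    apply hφ
    have e := ((hFB ω hω).ker (kmap φ x)).2 ⟨kmap φ x, hx, by
      rw [sub_self]
      exact Submodule.zero_mem _⟩ j
    rw [map_zero, ← res_kmap, map_mul]
    exact e
  obtain ⟨p, hp, ho⟩ := (hω.ker x).1 h1
  have h2 : kmap φ (x - p) ∈ bc φ P := by
    rw [map_sub]
    exact sub_mem hx (kmap_mem_bc φ hp)
  obtain ⟨b, hb⟩ := hKrB.k1 _ h2 (kmap_mem_Pol φ ho)
  obtain ⟨a, ha⟩ := INT.const_of_kmap φ hφ hb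
  have e : x = algebraMap A (KK I A) a + p := by
    rw [← ha, sub_add_cancel]
  rw [e]
  exact add_mem (P.algebraMap_mem a) hp

end Pool.Agent.MG.G0


end
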