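import Mathlib
import Pool.Agent.KDM.C02
import Pool.Agent.KDM.C15
import Pool.Agent.KDM.C24
import Pool.Agent.KDM.C33
import Pool.Agent.KDM.C34
import Pool.Agent.KDM.C39
import Pool.Agent.KDM.C45

/-! Parts: MG.W.WPR, MG.W.W0D, MG.W.W0E, MG.W.W0, MG.H2.EDM, MG.H2.EIS, MG.G0.RTR, MG.G0.PL6 -/

section

/-!
# Weierstrass curves are proper, flat and of finite presentation
-/

open CategoryTheory CategoryTheory.Limits AlgebraicGeometry TensorProduct IsLocalRing

namespace Pool.Agent.MG.W

namespace WPR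

/-! ## Flatness of the charts -/

section flat

variable (B : Type) [CommRing B] (a b : B)

/-- The monic equation of the affine chart over `B[x]`. -/
noncomputable def F1 : Polynomial (Polynomial B) :=
  Polynomial.X ^ 2 - Polynomial.C
    (Polynomial.X ^ 3 + Polynomial.C a * Polynomial.X + Polynomial.C b)

theorem F1_monic : (F1 B a b).Monic := Polynomial.monic_X_pow_sub_C _ two_ne_zero

/-- The monic equation of the chart at infinity over `B[z]`, in `s = 1/t`. -/
noncomputable def F2 : Polynomial (Polynomial B) :=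
  Polynomial.X ^ 3 + (- Polynomial.X ^ 2 +
    Polynomial.C (Polynomial.C a * Polynomial.X ^ 4) * Polynomial.X +
    Polynomial.C (Polynomial.C b * Polynomial.X ^ 6))

theorem F2_monic : (F2 B a b).Monic := by
  refine Polynomial.monic_X_pow_add ?_
  have h : (- Polynomial.X ^ 2 +
    Polynomial.C (Polynomial.C a * Polynomial.X ^ 4) * Polynomial.X +
    Polynomial.C (Polynomial.C b * Polynomial.X ^ 6) : Polynomial (Polynomial B)).degree ≤ 2 := by
    compute_degree
  exact lt_of_le_of_lt h (by norm_num)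

/-- The free algebra of the affine chart. -/
abbrev M1 : Type := AdjoinRoot (F1 B a b)

/-- The free algebra of the chart at infinity. -/
abbrev M2 : Type := AdjoinRoot (F2 B a b)

theorem flatM1 : (algebraMap B (M1 B a b)).Flat := by
  have h1 : Module.Free (Polynomial B) (M1 B a b) := (F1_monic B a b).free_adjoinRoot
  have h2 : Module.Flat B (M1 B a b) := Module.Flat.trans B (Polynomial B) (M1 B a b)
  exact (RingHom.flat_algebraMap_iff).2 h2

theorem flatM2 : (algebraMap B (M2 B a b)).Flat := by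
  have h1 : Module.Free (Polynomial B) (M2 B a b) := (F2_monic B a b).free_adjoinRoot
  have h2 : Module.Flat B (M2 B a b) := Module.Flat.trans B (Polynomial B) (M2 B a b)
  exact (RingHom.flat_algebraMap_iff).2 h2

theorem ev1 {R : Type} [CommRing R] (f : Polynomial B →+* R) (r : R) :
    Polynomial.eval₂ f r (F1 B a b) = r ^ 2 - (f Polynomial.X ^ 3 +
      f (Polynomial.C a) * f Polynomial.X + f (Polynomial.C b)) := by
  simp only [F1, Polynomial.eval₂_sub, Polynomial.eval₂_X_pow, Polynomial.eval₂_C]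
  simp only [map_add, map_mul, map_pow]

theorem ev2 {R : Type} [CommRing R] (f : Polynomial B →+* R) (r : R) :
    Polynomial.eval₂ f r (F2 B a b) = r ^ 3 + (- r ^ 2 +
      f (Polynomial.C a) * f Polynomial.X ^ 4 * r + f (Polynomial.C b) * f Polynomial.X ^ 6) := by
  simp only [F2, Polynomial.eval₂_add, Polynomial.eval₂_neg, Polynomial.eval₂_mul,
    Polynomial.eval₂_X_pow, Polynomial.eval₂_C, Polynomial.eval₂_X]
  simp only [map_mul, map_pow]

theorem relM1 : AdjoinRoot.root (F1 B a b) ^ 2 = algebraMap (Polynomial B) (M1 B a b) Polynomial.X ^ 3 +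
    algebraMap B (M1 B a b) a * algebraMap (Polynomial B) (M1 B a b) Polynomial.X +
    algebraMap B (M1 B a b) b := by
  have h := AdjoinRoot.eval₂_root (F1 B a b)
  rw [ev1] at h
  have ha : algebraMap B (M1 B a b) a = AdjoinRoot.of (F1 B a b) (Polynomial.C a) := rfl
  have hb : algebraMap B (M1 B a b) b = AdjoinRoot.of (F1 B a b) (Polynomial.C b) := rfl
  have hX : algebraMap (Polynomial B) (M1 B a b) Polynomial.X =
    AdjoinRoot.of (F1 B a b) Polynomial.X := rfl
  rw [ha, hb, hX]
  linear_combination h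

/-- The comparison with the free algebra. -/
noncomputable def c1 : A1 B a b →+* M1 B a b :=
  lift1 (algebraMap B (M1 B a b)) (algebraMap (Polynomial B) (M1 B a b) Polynomial.X)
    (AdjoinRoot.root (F1 B a b)) (relM1 B a b)

/-- The inverse comparison. -/
noncomputable def d1 : M1 B a b →+* A1 B a b :=
  AdjoinRoot.lift (Polynomial.aeval (x1 B a b)).toRingHom (y1 B a b) (by
    have h := rel1 B a b
    rw [ev1]
    simp only [AlgHom.toRingHom_eq_coe, RingHom.coe_coe, Polynomial.aeval_X, Polynomial.aeval_C]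
    linear_combination h)

theorem d1_c1 : (d1 B a b).comp (c1 B a b) = RingHom.id _ := by
  refine hom1_ext ?_ ?_ ?_
  · intro c
    simp only [RingHom.comp_apply, c1, lift1_b, RingHom.id_apply]
    change d1 B a b (AdjoinRoot.of (F1 B a b) (Polynomial.C c)) = _
    rw [d1, AdjoinRoot.lift_of]
    simp
  · simp only [RingHom.comp_apply, c1, lift1_x, RingHom.id_apply]
    change d1 B a b (AdjoinRoot.of (F1 B a b) Polynomial.X) = _
    rw [d1, AdjoinRoot.lift_of]
    simp
  · simp only [RingHom.comp_apply, c1, lift1_y, RingHom.id_apply]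
    rw [d1, AdjoinRoot.lift_root]

theorem c1_d1 : (c1 B a b).comp (d1 B a b) = RingHom.id _ := by
  refine Ideal.Quotient.ringHom_ext ?_
  refine Polynomial.ringHom_ext' (Polynomial.ringHom_ext ?_ ?_) ?_
  · intro c
    change c1 B a b (d1 B a b (AdjoinRoot.of (F1 B a b) (Polynomial.C c))) = _
    rw [d1, AdjoinRoot.lift_of]
    simp only [AlgHom.toRingHom_eq_coe, RingHom.coe_coe, Polynomial.aeval_C, c1, lift1_b]
    rfl
  · change c1 B a b (d1 B a b (AdjoinRoot.of (F1 B a b) Polynomial.X)) = _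
    rw [d1, AdjoinRoot.lift_of]
    simp only [AlgHom.toRingHom_eq_coe, RingHom.coe_coe, Polynomial.aeval_X, c1, lift1_x]
    rfl
  · change c1 B a b (d1 B a b (AdjoinRoot.root (F1 B a b))) = _
    rw [d1, AdjoinRoot.lift_root, c1, lift1_y]
    rfl

theorem flat1 : (algebraMap B (A1 B a b)).Flat := by
  have h1 : algebraMap B (A1 B a b) = (d1 B a b).comp (algebraMap B (M1 B a b)) := by
    ext c
    change _ = d1 B a b (AdjoinRoot.of (F1 B a b) (Polynomial.C c))
    rw [d1, AdjoinRoot.lift_of]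
    simp
  have h2 : Function.Bijective (d1 B a b) :=
    ⟨Function.LeftInverse.injective (g := c1 B a b) fun v => RingHom.congr_fun (c1_d1 B a b) v,
      Function.RightInverse.surjective (g := c1 B a b) fun v => RingHom.congr_fun (d1_c1 B a b) v⟩
  rw [h1]
  exact RingHom.Flat.comp (flatM1 B a b) (RingHom.Flat.of_bijective h2)

/-- The localisation of the free algebra of the chart at infinity. -/
abbrev L2 : Type := Localization.Away (AdjoinRoot.root (F2 B a b))

/-- `s` as a unit. -/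
noncomputable def su : (L2 B a b)ˣ :=
  (IsLocalization.Away.algebraMap_isUnit (S := L2 B a b) (AdjoinRoot.root (F2 B a b))).unit

/-- `z` -/
noncomputable def zM : L2 B a b := algebraMap (M2 B a b) (L2 B a b)
  (AdjoinRoot.of (F2 B a b) Polynomial.X)

/-- the structure map -/
noncomputable def bM : B →+* L2 B a b := (algebraMap (M2 B a b) (L2 B a b)).comp
  (algebraMap B (M2 B a b))

theorem relM2 : (su B a b)⁻¹.val = 1 + bM B a b a * zM B a b ^ 4 * (su B a b)⁻¹.val ^ 2 +
    bM B a b b * zM B a b ^ 6 * (su B a b)⁻¹.val ^ 3 := by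
  have h := congrArg (algebraMap (M2 B a b) (L2 B a b)) (AdjoinRoot.eval₂_root (F2 B a b))
  rw [ev2] at h
  simp only [map_add, map_neg, map_mul, map_pow, map_zero] at h
  have hs : algebraMap (M2 B a b) (L2 B a b) (AdjoinRoot.root (F2 B a b)) = (su B a b).val := rfl
  have hz : algebraMap (M2 B a b) (L2 B a b) (AdjoinRoot.of (F2 B a b) Polynomial.X) =
    zM B a b := rfl
  have ha : algebraMap (M2 B a b) (L2 B a b) (AdjoinRoot.of (F2 B a b) (Polynomial.C a)) =
    bM B a b a := rfl
  have hb : algebraMap (M2 B a b) (L2 B a b) (AdjoinRoot.of (F2 B a b) (Polynomial.C b)) =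
    bM B a b b := rfl
  rw [hs, hz, ha, hb] at h
  have hi : (su B a b).val * (su B a b)⁻¹.val = 1 := Units.mul_inv _
  generalize (su B a b).val = s at *
  generalize (su B a b)⁻¹.val = t at *
  have h2 : s ^ 2 * t ^ 2 = 1 := by rw [← mul_pow, hi, one_pow]
  have h3 : s ^ 3 * t ^ 3 = 1 := by rw [← mul_pow, hi, one_pow]
  linear_combination (- t ^ 3) * h + h3 - t * h2 + bM B a b a * zM B a b ^ 4 * t ^ 2 * hi

/-- The comparison with the localised free algebra. -/
noncomputable def c2 : A2 B a b →+* L2 B a b :=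
  lift2 (bM B a b) (zM B a b) (su B a b)⁻¹.val (relM2 B a b)

/-- `t` as a unit of `A₂`. -/
noncomputable def t2u : (A2 B a b)ˣ := (t2_unit B a b).unit

theorem relS : (t2u B a b)⁻¹.val ^ 3 + (- (t2u B a b)⁻¹.val ^ 2 +
    algebraMap B (A2 B a b) a * z2 B a b ^ 4 * (t2u B a b)⁻¹.val +
    algebraMap B (A2 B a b) b * z2 B a b ^ 6) = 0 := by
  have h := rel2 B a b
  have ht : t2 B a b = (t2u B a b).val := rfl
  rw [ht] at h
  have hi : (t2u B a b).val * (t2u B a b)⁻¹.val = 1 := Units.mul_inv _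
  generalize (t2u B a b).val = t at *
  generalize (t2u B a b)⁻¹.val = s at *
  have h2 : t ^ 2 * s ^ 2 = 1 := by rw [← mul_pow, hi, one_pow]
  have h3 : t ^ 3 * s ^ 3 = 1 := by rw [← mul_pow, hi, one_pow]
  linear_combination (- s ^ 3) * h + s ^ 2 * hi -
    algebraMap B (A2 B a b) a * z2 B a b ^ 4 * s * h2 -
    algebraMap B (A2 B a b) b * z2 B a b ^ 6 * h3

/-- Map from the free algebra. -/
noncomputable def e2 : M2 B a b →+* A2 B a b :=
  AdjoinRoot.lift (Polynomial.aeval (z2 B a b)).toRingHom (t2u B a b)⁻¹.val (by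
    have h := relS B a b
    rw [ev2]
    simp only [AlgHom.toRingHom_eq_coe, RingHom.coe_coe, Polynomial.aeval_X, Polynomial.aeval_C]
    linear_combination h)

theorem e2_root : e2 B a b (AdjoinRoot.root (F2 B a b)) = (t2u B a b)⁻¹.val := by
  rw [e2, AdjoinRoot.lift_root]

theorem e2_z : e2 B a b (AdjoinRoot.of (F2 B a b) Polynomial.X) = z2 B a b := by
  rw [e2, AdjoinRoot.lift_of]
  simp

theorem e2_b (c : B) : e2 B a b (AdjoinRoot.of (F2 B a b) (Polynomial.C c)) =
    algebraMap B _ c := by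
  rw [e2, AdjoinRoot.lift_of]
  simp

/-- The inverse comparison. -/
noncomputable def d2 : L2 B a b →+* A2 B a b :=
  IsLocalization.Away.lift (AdjoinRoot.root (F2 B a b)) (g := e2 B a b) (by
    rw [e2_root]
    exact Units.isUnit _)

theorem d2_alg (v : M2 B a b) : d2 B a b (algebraMap _ _ v) = e2 B a b v :=
  IsLocalization.Away.lift_eq _ _ _

theorem d2_su : Units.map (d2 B a b : L2 B a b →* A2 B a b) (su B a b) = (t2u B a b)⁻¹ := by
  ext1
  change d2 B a b (algebraMap _ _ (AdjoinRoot.root (F2 B a b))) = _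
  rw [d2_alg, e2_root]

theorem d2_c2 : (d2 B a b).comp (c2 B a b) = RingHom.id _ := by
  refine hom2_ext ?_ ?_ ?_
  · intro c
    simp only [RingHom.comp_apply, c2, lift2_b, RingHom.id_apply]
    change d2 B a b (algebraMap _ _ (AdjoinRoot.of (F2 B a b) (Polynomial.C c))) = _
    rw [d2_alg, e2_b]
  · simp only [RingHom.comp_apply, c2, lift2_z, RingHom.id_apply]
    change d2 B a b (algebraMap _ _ (AdjoinRoot.of (F2 B a b) Polynomial.X)) = _
    rw [d2_alg, e2_z]
  · simp only [RingHom.comp_apply, c2, lift2_t, RingHom.id_apply]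
    have h : Units.map (d2 B a b : L2 B a b →* A2 B a b) (su B a b)⁻¹ = t2u B a b := by
      rw [map_inv, d2_su, inv_inv]
    exact congrArg Units.val h

theorem c2_d2 : (c2 B a b).comp (d2 B a b) = RingHom.id _ := by
  refine IsLocalization.ringHom_ext (Submonoid.powers (AdjoinRoot.root (F2 B a b))) ?_
  refine Ideal.Quotient.ringHom_ext ?_
  refine Polynomial.ringHom_ext' (Polynomial.ringHom_ext ?_ ?_) ?_
  · intro c
    change c2 B a b (d2 B a b (algebraMap _ _ (AdjoinRoot.of (F2 B a b) (Polynomial.C c)))) = _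
    rw [d2_alg, e2_b, c2, lift2_b]
    rfl
  · change c2 B a b (d2 B a b (algebraMap _ _ (AdjoinRoot.of (F2 B a b) Polynomial.X))) = _
    rw [d2_alg, e2_z, c2, lift2_z]
    rfl
  · change c2 B a b (d2 B a b (algebraMap _ _ (AdjoinRoot.root (F2 B a b)))) = _
    rw [d2_alg, e2_root]
    have h : Units.map (c2 B a b : A2 B a b →* L2 B a b) (t2u B a b) = (su B a b)⁻¹ := by
      ext1
      change c2 B a b (t2 B a b) = _
      rw [c2, lift2_t]
    have h2 : Units.map (c2 B a b : A2 B a b →* L2 B a b) (t2u B a b)⁻¹ = su B a b := by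
      rw [map_inv, h, inv_inv]
    exact congrArg Units.val h2

theorem flat2 : (algebraMap B (A2 B a b)).Flat := by
  have h1 : algebraMap B (A2 B a b) = (d2 B a b).comp
      ((algebraMap (M2 B a b) (L2 B a b)).comp (algebraMap B (M2 B a b))) := by
    ext c
    change _ = d2 B a b (algebraMap _ _ (AdjoinRoot.of (F2 B a b) (Polynomial.C c)))
    rw [d2_alg, e2_b]
  have h2 : Function.Bijective (d2 B a b) :=
    ⟨Function.LeftInverse.injective (g := c2 B a b) fun v => RingHom.congr_fun (c2_d2 B a b) v,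
      Function.RightInverse.surjective (g := c2 B a b) fun v => RingHom.congr_fun (d2_c2 B a b) v⟩
  have h3 : (algebraMap (M2 B a b) (L2 B a b)).Flat :=
    (RingHom.flat_algebraMap_iff).2 (IsLocalization.flat (L2 B a b)
      (Submonoid.powers (AdjoinRoot.root (F2 B a b))))
  rw [h1]
  exact RingHom.Flat.comp (RingHom.Flat.comp (flatM2 B a b) h3) (RingHom.Flat.of_bijective h2)

theorem fp1 : (algebraMap B (A1 B a b)).FinitePresentation := by
  rw [RingHom.finitePresentation_algebraMap]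
  exact Algebra.FinitePresentation.quotient ⟨{eq1 B a b}, by simp⟩

theorem fp2 : (algebraMap B (A2 B a b)).FinitePresentation := by
  rw [RingHom.finitePresentation_algebraMap]
  exact Algebra.FinitePresentation.quotient ⟨{eq2 B a b}, by simp⟩

end flat

/-! ## Local properties and topology -/

section sch

variable (B : Type) [CommRing B] (a b : B)

theorem loc2 (P : MorphismProperty Scheme.{0}) [IsZariskiLocalAtSource P]
    (h1 : P (spMap (algebraMap B (A1 B a b)))) (h2 : P (spMap (algebraMap B (A2 B a b)))) :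
    P (WX.pr B a b) := by
  refine IsZariskiLocalAtSource.of_iSup_eq_top
    (fun i : Bool => if i then (WX.in1 B a b).opensRange else (WX.in2 B a b).opensRange) ?_ ?_
  · rw [iSup_bool_eq]
    exact glue2_range (spMap (g1 B a b)) (spMap (g2 B a b))
  · intro i
    cases i
    · change P ((WX.in2 B a b).opensRange.ι ≫ WX.pr B a b)
      rw [← IsOpenImmersion.isoOfRangeEq_inv_fac (WX.in2 B a b) (Scheme.Opens.ι _)
        (congr_arg TopologicalSpace.Opens.carrier (WX.in2 B a b).opensRange.opensRange_ι.symm),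
        Category.assoc, P.cancel_left_of_respectsIso, WX.in2_pr]
      exact h2
    · change P ((WX.in1 B a b).opensRange.ι ≫ WX.pr B a b)
      rw [← IsOpenImmersion.isoOfRangeEq_inv_fac (WX.in1 B a b) (Scheme.Opens.ι _)
        (congr_arg TopologicalSpace.Opens.carrier (WX.in1 B a b).opensRange.opensRange_ι.symm),
        Category.assoc, P.cancel_left_of_respectsIso, WX.in1_pr]
      exact h1

theorem cpt : CompactSpace (WX B a b) := by
  constructor
  have h : (Set.univ : Set (WX B a b)) = Set.range (WX.in1 B a b) ∪ Set.range (WX.in2 B a b) := by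
    ext x
    simp only [Set.mem_univ, Set.mem_union, true_iff]
    exact glue2_surj (spMap (g1 B a b)) (spMap (g2 B a b)) x
  rw [h]
  exact (isCompact_range (WX.in1 B a b).continuous).union
    (isCompact_range (WX.in2 B a b).continuous)

theorem inter : ((WX.in1 B a b).opensRange : Set (WX B a b)) ∩ (WX.in2 B a b).opensRange =
    Set.range (spMap (g1 B a b) ≫ WX.in1 B a b) := by
  have h := congrArg (fun U : (WX B a b).Opens => (U : Set (WX B a b)))
    (glue2_inter (spMap (g1 B a b)) (spMap (g2 B a b)))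
  exact h

theorem qsep : QuasiSeparatedSpace (WX B a b) := by
  refine Scheme.quasiSeparatedSpace_of_isOpenCover
    (fun i : Bool => if i then (WX.in1 B a b).opensRange else (WX.in2 B a b).opensRange) ?_ ?_ ?_
  · change iSup _ = _
    rw [iSup_bool_eq]
    exact glue2_range (spMap (g1 B a b)) (spMap (g2 B a b))
  · intro i
    cases i
    · exact isAffineOpen_opensRange (WX.in2 B a b)
    · exact isAffineOpen_opensRange (WX.in1 B a b)
  · have hc : IsCompact (Set.range (spMap (g1 B a b) ≫ WX.in1 B a b)) :=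
      isCompact_range (spMap (g1 B a b) ≫ WX.in1 B a b).continuous
    intro i j
    cases i <;> cases j
    · change IsCompact (((WX.in2 B a b).opensRange : Set (WX B a b)) ∩ (WX.in2 B a b).opensRange)
      rw [Set.inter_self]
      exact isCompact_range (WX.in2 B a b).continuous
    · change IsCompact (((WX.in2 B a b).opensRange : Set (WX B a b)) ∩ (WX.in1 B a b).opensRange)
      rw [Set.inter_comm, inter]
      exact hc
    · change IsCompact (((WX.in1 B a b).opensRange : Set (WX B a b)) ∩ (WX.in2 B a b).opensRange)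
      rw [inter]
      exact hc
    · change IsCompact (((WX.in1 B a b).opensRange : Set (WX B a b)) ∩ (WX.in1 B a b).opensRange)
      rw [Set.inter_self]
      exact isCompact_range (WX.in1 B a b).continuous

/-! ## Points with values in local rings -/

theorem mem_of_closed {X : Scheme.{0}} {R : Type} [CommRing R] [IsLocalRing R]
    (l : Sp R ⟶ X) (V : X.Opens) (h : l (closedPoint R) ∈ V) (y : Sp R) : l y ∈ V :=
  ((specializes_closedPoint (R := R) y).map l.continuous).mem_open V.isOpen h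

variable {B a b}

theorem fac {R : Type} [CommRing R] [IsLocalRing R] (l : Sp R ⟶ WX B a b) :
    (∃ h : A1 B a b →+* R, l = spMap h ≫ WX.in1 B a b) ∨
    (∃ h : A2 B a b →+* R, l = spMap h ≫ WX.in2 B a b) := by
  rcases glue2_surj (spMap (g1 B a b)) (spMap (g2 B a b)) (l (closedPoint R)) with h | h
  · left
    have hr : Set.range l ⊆ Set.range (WX.in1 B a b) := by
      rintro _ ⟨y, rfl⟩
      exact mem_of_closed l (WX.in1 B a b).opensRange h y
    obtain ⟨φ, hφ⟩ := Spec.map_surjective (IsOpenImmersion.lift (WX.in1 B a b) l hr)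
    refine ⟨φ.hom, ?_⟩
    have h2 : spMap φ.hom = IsOpenImmersion.lift (WX.in1 B a b) l hr := hφ
    rw [h2, IsOpenImmersion.lift_fac]
  · right
    have hr : Set.range l ⊆ Set.range (WX.in2 B a b) := by
      rintro _ ⟨y, rfl⟩
      exact mem_of_closed l (WX.in2 B a b).opensRange h y
    obtain ⟨φ, hφ⟩ := Spec.map_surjective (IsOpenImmersion.lift (WX.in2 B a b) l hr)
    refine ⟨φ.hom, ?_⟩
    have h2 : spMap φ.hom = IsOpenImmersion.lift (WX.in2 B a b) l hr := hφ
    rw [h2, IsOpenImmersion.lift_fac]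

theorem spMap_comp {A C D : Type} [CommRing A] [CommRing C] [CommRing D] (φ : A →+* C)
    (ψ : C →+* D) : spMap ψ ≫ spMap φ = spMap (ψ.comp φ) :=
  (Spec.map_comp (CommRingCat.ofHom φ) (CommRingCat.ofHom ψ)).symm

theorem spMap_inj {A C : Type} [CommRing A] [CommRing C] {φ ψ : A →+* C}
    (h : spMap φ = spMap ψ) : φ = ψ := by
  have h2 := Spec.map_injective h
  exact congrArg CommRingCat.Hom.hom h2

theorem swap {R : Type} [CommRing R] (h : A12 B a b →+* R) :
    spMap (h.comp (g1 B a b)) ≫ WX.in1 B a b = spMap (h.comp (g2 B a b)) ≫ WX.in2 B a b := by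
  rw [← spMap_comp, ← spMap_comp, Category.assoc, Category.assoc]
  have h2 : spMap (g1 B a b) ≫ WX.in1 B a b = spMap (g2 B a b) ≫ WX.in2 B a b :=
    pushout.condition
  rw [h2]

/-- Extension of a point of the chart at infinity. -/
theorem ext12 {R : Type} [CommRing R] (h : A2 B a b →+* R) (hz : IsUnit (h (z2 B a b))) :
    ∃ h12 : A12 B a b →+* R, h12.comp (g2 B a b) = h := by
  refine ⟨IsLocalization.Away.lift (z2 B a b) hz, ?_⟩
  exact RingHom.ext fun v => IsLocalization.Away.lift_eq (z2 B a b) hz v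

theorem rel_xzt {R : Type} [CommRing R] (h : A12 B a b →+* R) :
    h (g1 B a b (x1 B a b)) * (h (g2 B a b (z2 B a b)) ^ 2 * h (g2 B a b (t2 B a b))) = 1 := by
  rw [g1_x, ← zu_val, ← tu_val, ← map_pow, ← map_mul, ← map_mul]
  have : ((zu B a b)⁻¹ ^ 2 * (tu B a b)⁻¹ : (A12 B a b)ˣ).val *
      ((zu B a b).val ^ 2 * (tu B a b).val) = 1 := by
    rw [← Units.val_pow_eq_pow_val, ← Units.val_mul, ← Units.val_mul]
    have h3 : ((zu B a b)⁻¹ ^ 2 * (tu B a b)⁻¹) * ((zu B a b) ^ 2 * (tu B a b)) = 1 := by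
      rw [mul_mul_mul_comm, inv_mul_cancel, mul_one, ← mul_pow, inv_mul_cancel, one_pow]
    rw [h3, Units.val_one]
  rw [this, map_one]

theorem rel_yzt {R : Type} [CommRing R] (h : A12 B a b →+* R) :
    h (g1 B a b (y1 B a b)) * (h (g2 B a b (z2 B a b)) ^ 3 * h (g2 B a b (t2 B a b))) = 1 := by
  rw [g1_y, ← zu_val, ← tu_val, ← map_pow, ← map_mul, ← map_mul]
  have : ((zu B a b)⁻¹ ^ 3 * (tu B a b)⁻¹ : (A12 B a b)ˣ).val *
      ((zu B a b).val ^ 3 * (tu B a b).val) = 1 := by
    rw [← Units.val_pow_eq_pow_val, ← Units.val_mul, ← Units.val_mul]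
    have h3 : ((zu B a b)⁻¹ ^ 3 * (tu B a b)⁻¹) * ((zu B a b) ^ 3 * (tu B a b)) = 1 := by
      rw [mul_mul_mul_comm, inv_mul_cancel, mul_one, ← mul_pow, inv_mul_cancel, one_pow]
    rw [h3, Units.val_one]
  rw [this, map_one]

section uniq

variable {R K : Type} [CommRing R] [IsLocalRing R] [Field K] [Algebra R K]
  (hinj : Function.Injective (algebraMap R K))

include hinj in
omit [IsLocalRing R] in
theorem cancel_inj {A : Type} [CommRing A] {h h' : A →+* R}
    (H : spMap (algebraMap R K) ≫ spMap h = spMap (algebraMap R K) ≫ spMap h') : h = h' := by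
  rw [spMap_comp, spMap_comp] at H
  have h2 := spMap_inj H
  ext v
  exact hinj (RingHom.congr_fun h2 v)

include hinj in
theorem mixed (h : A1 B a b →+* R) (h' : A2 B a b →+* R)
    (H : spMap (algebraMap R K) ≫ spMap h ≫ WX.in1 B a b =
      spMap (algebraMap R K) ≫ spMap h' ≫ WX.in2 B a b) :
    spMap h ≫ WX.in1 B a b = spMap h' ≫ WX.in2 B a b := by
  have hp := glue2_isPullback (spMap (g1 B a b)) (spMap (g2 B a b))
  have H' : (spMap (algebraMap R K) ≫ spMap h) ≫ WX.in1 B a b =
      (spMap (algebraMap R K) ≫ spMap h') ≫ WX.in2 B a b := by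
    rw [Category.assoc, Category.assoc, H]
  obtain ⟨m, hm⟩ := Spec.map_surjective (hp.lift _ _ H')
  have hm1 : spMap m.hom ≫ spMap (g1 B a b) = spMap (algebraMap R K) ≫ spMap h := by
    have : spMap m.hom = hp.lift _ _ H' := hm
    rw [this]
    exact hp.lift_fst _ _ H'
  have hm2 : spMap m.hom ≫ spMap (g2 B a b) = spMap (algebraMap R K) ≫ spMap h' := by
    have : spMap m.hom = hp.lift _ _ H' := hm
    rw [this]
    exact hp.lift_snd _ _ H'
  rw [spMap_comp, spMap_comp] at hm1 hm2
  have e1 := fun v => RingHom.congr_fun (spMap_inj hm1) v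
  have e2 := fun v => RingHom.congr_fun (spMap_inj hm2) v
  simp only [RingHom.comp_apply] at e1 e2
  have h3 := rel_xzt m.hom
  rw [e1, e2, e2, ← map_pow, ← map_mul, ← map_mul] at h3
  have h4 : h (x1 B a b) * (h' (z2 B a b) ^ 2 * h' (t2 B a b)) = 1 :=
    hinj (h3.trans (map_one _).symm)
  have h5 : IsUnit (h' (z2 B a b)) := by
    refine IsUnit.of_mul_eq_one (h' (z2 B a b) * h' (t2 B a b) * h (x1 B a b)) ?_
    linear_combination h4
  obtain ⟨h12, hh⟩ := ext12 h' h5
  rw [← hh, ← swap]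
  congr 2
  refine cancel_inj hinj ?_
  rw [← cancel_mono (WX.in1 B a b), Category.assoc, Category.assoc, H, swap, hh]

include hinj in
theorem uniq (l l' : Sp R ⟶ WX B a b)
    (H : spMap (algebraMap R K) ≫ l = spMap (algebraMap R K) ≫ l') : l = l' := by
  rcases fac l with ⟨h, rfl⟩ | ⟨h, rfl⟩ <;> rcases fac l' with ⟨h', rfl⟩ | ⟨h', rfl⟩
  · congr 2
    refine cancel_inj hinj ?_
    rw [← cancel_mono (WX.in1 B a b), Category.assoc, Category.assoc, H]
  · exact mixed hinj h h' H
  · exact (mixed hinj h' h H.symm).symm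
  · congr 2
    refine cancel_inj hinj ?_
    rw [← cancel_mono (WX.in2 B a b), Category.assoc, Category.assoc, H]

end uniq

/-! ## Points with values in valuation rings -/

section val

variable {R K : Type} [CommRing R] [IsDomain R] [ValuationRing R] [Field K] [Algebra R K]
  [IsFractionRing R K]

theorem sq_int {y : K} {r : R} (h : y ^ 2 = algebraMap R K r) : ∃ s : R, y = algebraMap R K s := by
  rcases ValuationRing.isInteger_or_isInteger R y with ⟨s, hs⟩ | ⟨s, hs⟩
  · exact ⟨s, hs.symm⟩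
  · by_cases hy : y = 0
    · exact ⟨0, by rw [hy, map_zero]⟩
    · refine ⟨r * s, ?_⟩
      rw [map_mul, ← h, hs]
      field_simp

/-- The valuative criterion for the points of the affine chart. -/
theorem ex1 (β : B →+* R) (h : A1 B a b →+* K)
    (hβ : ∀ c, h (algebraMap B _ c) = algebraMap R K (β c)) :
    (∃ h' : A1 B a b →+* R, (algebraMap R K).comp h' = h ∧ h'.comp (algebraMap B _) = β) ∨
    (∃ (h' : A2 B a b →+* R) (h12 : A12 B a b →+* K), h12.comp (g1 B a b) = h ∧
      h12.comp (g2 B a b) = (algebraMap R K).comp h' ∧ h'.comp (algebraMap B _) = β) := by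
  have hr := congrArg h (rel1 B a b)
  simp only [map_add, map_mul, map_pow, hβ] at hr
  by_cases hx : ∃ s : R, h (x1 B a b) = algebraMap R K s
  · left
    obtain ⟨s, hs⟩ := hx
    have hr2 : h (y1 B a b) ^ 2 = algebraMap R K (s ^ 3 + β a * s + β b) := by
      rw [hr, hs]
      simp only [map_add, map_mul, map_pow]
    obtain ⟨r, hy⟩ := sq_int hr2
    have hrel : r ^ 2 = s ^ 3 + β a * s + β b := by
      apply IsFractionRing.injective R K
      rw [← hr2, hy, map_pow]
    refine ⟨lift1 β s r hrel, ?_, ?_⟩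
    · refine hom1_ext (fun c => ?_) ?_ ?_
      · rw [RingHom.comp_apply, lift1_b, hβ]
      · rw [RingHom.comp_apply, lift1_x, hs]
      · rw [RingHom.comp_apply, lift1_y, hy]
    · exact RingHom.ext fun c => lift1_b (a := a) (b := b) β s r hrel c
  · right
    obtain ⟨w, hw⟩ : ∃ w : R, algebraMap R K w = (h (x1 B a b))⁻¹ := by
      rcases ValuationRing.isInteger_or_isInteger R (h (x1 B a b)) with ⟨s, hs⟩ | ⟨s, hs⟩
      · exact absurd ⟨s, hs.symm⟩ hx
      · exact ⟨s, hs⟩
    have hx0 : h (x1 B a b) ≠ 0 := fun h0 => hx ⟨0, by rw [h0, map_zero]⟩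
    have hwn : w ∈ nonunits R := by
      intro hu
      apply hx
      obtain ⟨u, rfl⟩ := hu
      refine ⟨(u⁻¹ : Rˣ).val, ?_⟩
      have h1 : algebraMap R K u.val * algebraMap R K (u⁻¹ : Rˣ).val = 1 := by
        rw [← map_mul, Units.mul_inv, map_one]
      rw [hw] at h1
      field_simp at h1
      exact h1.symm
    set u : R := 1 + β a * w ^ 2 + β b * w ^ 3 with hu
    have huu : IsUnit u := by
      refine isUnit_of_mem_nonunits_one_sub_self u ?_
      have : 1 - u = w * (- (β a * w + β b * w ^ 2)) := by rw [hu]; ring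
      rw [this]
      intro hcon
      exact hwn (isUnit_of_mul_isUnit_left hcon)
    obtain ⟨v, hv⟩ := huu
    set x : K := h (x1 B a b) with hxd
    set y : K := h (y1 B a b) with hyd
    have hux : x ^ 3 * algebraMap R K u = y ^ 2 := by
      rw [hr, hu]
      simp only [map_add, map_mul, map_pow, map_one, hw]
      field_simp
    have hu0 : algebraMap R K u ≠ 0 := by
      rw [← hv]
      intro h0
      exact v.ne_zero ((map_eq_zero_iff _ (IsFractionRing.injective R K)).1 h0)
    have hy0 : y ≠ 0 := by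
      intro h0
      rw [h0] at hux
      have : x ^ 3 * algebraMap R K u ≠ 0 := mul_ne_zero (pow_ne_zero 3 hx0) hu0
      exact this (hux.trans (by norm_num))
    have hvi : algebraMap R K (v⁻¹ : Rˣ).val = (algebraMap R K u)⁻¹ := by
      have h1 : algebraMap R K v.val * algebraMap R K (v⁻¹ : Rˣ).val = 1 := by
        rw [← map_mul, Units.mul_inv, map_one]
      rw [hv] at h1
      exact eq_inv_of_mul_eq_one_right h1
    have hz2 : (x / y) ^ 2 = algebraMap R K (w * (v⁻¹ : Rˣ).val) := by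
      rw [map_mul, hw, hvi, div_pow, ← hux]
      field_simp
    obtain ⟨ζ, hζ⟩ := sq_int hz2
    have hζ2 : ζ ^ 2 = w * (v⁻¹ : Rˣ).val := by
      apply IsFractionRing.injective R K
      rw [← hz2, hζ, map_pow]
    have hζu : ζ ^ 2 * u = w := by
      rw [hζ2, ← hv, mul_assoc, Units.inv_mul, mul_one]
    have hrel : u = 1 + β a * ζ ^ 4 * u ^ 2 + β b * ζ ^ 6 * u ^ 3 := by
      have e1 : ζ ^ 4 * u ^ 2 = w ^ 2 := by rw [← hζu]; ring
      have e2 : ζ ^ 6 * u ^ 3 = w ^ 3 := by rw [← hζu]; ring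
      rw [mul_assoc, mul_assoc, e1, e2, hu]
    have hunit : IsUnit (((algebraMap R K).comp (lift2 β ζ u hrel)) (z2 B a b)) := by
      rw [RingHom.comp_apply, lift2_z, ← hζ]
      exact IsUnit.mk0 _ (div_ne_zero hx0 hy0)
    obtain ⟨h12, hh⟩ := ext12 _ hunit
    have hz : h12 (g2 B a b (z2 B a b)) = x / y := by
      rw [hζ]
      refine (RingHom.congr_fun hh (z2 B a b)).trans ?_
      rw [RingHom.comp_apply, lift2_z]
    have ht : h12 (g2 B a b (t2 B a b)) = algebraMap R K u := by
      refine (RingHom.congr_fun hh (t2 B a b)).trans ?_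
      rw [RingHom.comp_apply, lift2_t]
    have hu' : algebraMap R K u = y ^ 2 / x ^ 3 := by
      rw [← hux]
      field_simp
    refine ⟨lift2 β ζ u hrel, h12, ?_, hh, ?_⟩
    · refine hom1_ext (fun c => ?_) ?_ ?_
      · rw [RingHom.comp_apply, g1_b, hβ]
        refine (RingHom.congr_fun hh (algebraMap B _ c)).trans ?_
        rw [RingHom.comp_apply, lift2_b]
      · have h3 := rel_xzt h12
        rw [hz, ht, hu'] at h3
        rw [RingHom.comp_apply]
        change _ = x
        have h4 : (x / y) ^ 2 * (y ^ 2 / x ^ 3) = x⁻¹ := by field_simp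
        rw [h4] at h3
        exact eq_of_mul_inv_eq_one h3
      · have h3 := rel_yzt h12
        rw [hz, ht, hu'] at h3
        rw [RingHom.comp_apply]
        change _ = y
        have h4 : (x / y) ^ 3 * (y ^ 2 / x ^ 3) = y⁻¹ := by field_simp
        rw [h4] at h3
        exact eq_of_mul_inv_eq_one h3
    · exact RingHom.ext fun c => lift2_b (a := a) (b := b) β ζ u hrel c

/-- The existence part of the valuative criterion, affine chart. -/
theorem exA (β : B →+* R) (h : A1 B a b →+* K)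
    (hβ : h.comp (algebraMap B _) = (algebraMap R K).comp β) :
    ∃ l : Sp R ⟶ WX B a b, spMap (algebraMap R K) ≫ l = spMap h ≫ WX.in1 B a b ∧
      l ≫ WX.pr B a b = spMap β := by
  rcases ex1 β h (fun c => RingHom.congr_fun hβ c) with ⟨h', e1, e2⟩ | ⟨h', h12, e1, e2, e3⟩
  · refine ⟨spMap h' ≫ WX.in1 B a b, ?_, ?_⟩
    · rw [← Category.assoc, spMap_comp, e1]
    · rw [Category.assoc, WX.in1_pr, spMap_comp, e2]
  · refine ⟨spMap h' ≫ WX.in2 B a b, ?_, ?_⟩
    · rw [← Category.assoc, spMap_comp, ← e2, ← swap, e1]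
    · rw [Category.assoc, WX.in2_pr, spMap_comp, e3]

/-- The existence part of the valuative criterion, chart at infinity. -/
theorem exB (β : B →+* R) (h : A2 B a b →+* K)
    (hβ : h.comp (algebraMap B _) = (algebraMap R K).comp β) :
    ∃ l : Sp R ⟶ WX B a b, spMap (algebraMap R K) ≫ l = spMap h ≫ WX.in2 B a b ∧
      l ≫ WX.pr B a b = spMap β := by
  by_cases hz : h (z2 B a b) = 0
  · have ht : h (t2 B a b) = 1 := by
      have h1 := congrArg h (rel2 B a b)
      simp only [map_add, map_mul, map_pow, map_one, hz] at h1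
      rw [h1]
      ring
    have hrel : (1 : R) = 1 + β a * 0 ^ 4 * 1 ^ 2 + β b * 0 ^ 6 * 1 ^ 3 := by ring
    have e1 : (algebraMap R K).comp (lift2 β 0 1 hrel) = h := by
      refine hom2_ext (fun c => ?_) ?_ ?_
      · rw [RingHom.comp_apply, lift2_b]
        exact (RingHom.congr_fun hβ c).symm
      · rw [RingHom.comp_apply, lift2_z, hz, map_zero]
      · rw [RingHom.comp_apply, lift2_t, ht, map_one]
    have e2 : (lift2 β 0 1 hrel : A2 B a b →+* R).comp (algebraMap B _) = β :=
      RingHom.ext fun c => lift2_b (a := a) (b := b) β 0 1 hrel c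
    refine ⟨spMap (lift2 β 0 1 hrel) ≫ WX.in2 B a b, ?_, ?_⟩
    · rw [← Category.assoc, spMap_comp, e1]
    · rw [Category.assoc, WX.in2_pr, spMap_comp, e2]
  · obtain ⟨h12, hh⟩ := ext12 h (IsUnit.mk0 _ hz)
    have hβ' : (h12.comp (g1 B a b)).comp (algebraMap B _) = (algebraMap R K).comp β := by
      rw [← hβ, ← hh]
      refine RingHom.ext fun c => ?_
      rw [RingHom.comp_apply, RingHom.comp_apply, g1_b]
      rfl
    obtain ⟨l, e1, e2⟩ := exA β (h12.comp (g1 B a b)) hβ'
    refine ⟨l, ?_, e2⟩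
    rw [e1, swap, hh]

end val

variable (B a b)

theorem valu : ValuativeCriterion (WX.pr B a b) := by
  rw [ValuativeCriterion.iff]
  constructor
  · intro S
    obtain ⟨β, hβ⟩ := Spec.map_surjective S.i₂
    have hβ' : spMap β.hom = S.i₂ := hβ
    have hw := S.commSq.w
    rcases fac S.i₁ with ⟨h, hh⟩ | ⟨h, hh⟩
    · have h1 : h.comp (algebraMap B _) = (algebraMap S.R S.K).comp β.hom := by
        apply spMap_inj
        rw [hh, Category.assoc, WX.in1_pr, ← hβ'] at hw
        exact (spMap_comp _ _).symm.trans (hw.trans (spMap_comp _ _))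
      obtain ⟨l, e1, e2⟩ := exA β.hom h h1
      exact ⟨⟨l, e1.trans hh.symm, e2.trans hβ'⟩⟩
    · have h1 : h.comp (algebraMap B _) = (algebraMap S.R S.K).comp β.hom := by
        apply spMap_inj
        rw [hh, Category.assoc, WX.in2_pr, ← hβ'] at hw
        exact (spMap_comp _ _).symm.trans (hw.trans (spMap_comp _ _))
      obtain ⟨l, e1, e2⟩ := exB β.hom h h1
      exact ⟨⟨l, e1.trans hh.symm, e2.trans hβ'⟩⟩
  · intro S
    constructor
    intro l l'
    have h := uniq (B := B) (a := a) (b := b) (IsFractionRing.injective S.R S.K) l.l l'.l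
      (l.fac_left.trans l'.fac_left.symm)
    exact CommSq.LiftStruct.ext h

end sch

end WPR

/-- **WPR**: Weierstrass curves are proper, flat and of finite presentation. -/
theorem t_WPR : Stmt_WPR := by
  intro B _ a b
  have h1 : Flat (WX.pr B a b) := by
    refine WPR.loc2 B a b @Flat ?_ ?_
    · rw [Flat.SpecMap_iff]
      exact WPR.flat1 B a b
    · rw [Flat.SpecMap_iff]
      exact WPR.flat2 B a b
  have h2 : LocallyOfFinitePresentation (WX.pr B a b) := by
    refine WPR.loc2 B a b @LocallyOfFinitePresentation ?_ ?_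
    · rw [LocallyOfFinitePresentation.SpecMap_iff]
      exact WPR.fp1 B a b
    · rw [LocallyOfFinitePresentation.SpecMap_iff]
      exact WPR.fp2 B a b
  have h3 : QuasiCompact (WX.pr B a b) := HasAffineProperty.iff_of_isAffine.mpr (WPR.cpt B a b)
  have h4 : QuasiSeparated (WX.pr B a b) := HasAffineProperty.iff_of_isAffine.mpr (WPR.qsep B a b)
  exact ⟨IsProper.of_valuativeCriterion _ (WPR.valu B a b), h1, h2⟩

end Pool.Agent.MG.W


end

section

/-!
# Smooth curves of genus one: the ring data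
-/

open CategoryTheory CategoryTheory.Limits AlgebraicGeometry TensorProduct TopologicalSpace

namespace Pool.Agent.MG.W.W0

open Pool.Agent.MG.Two

variable {X : Scheme.{0}} {k : Type} [Field k] {π : X ⟶ Sp k} {σ : Sp k ⟶ X} {q : Sp k}

lemma GD.cover (G : GD (π := π) σ q) : G.V ⊔ G.U = ⊤ := by
  rw [eq_top_iff]
  intro x _
  by_cases h : x = σ q
  · exact Or.inr (h ▸ G.mU)
  · exact Or.inl ((G.mV x).2 h)

lemma GD.leU (G : GD (π := π) σ q) : ⊤ ≤ σ ⁻¹ᵁ G.U := top_le_of_mem σ _ q G.mU

lemma loc_aux {U W : X.Opens} (hU : IsAffineOpen U) (z : Γ(X, U)) (h : W ≤ U)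
    (hW : W = X.basicOpen z) (r : Γ(X, W)) :
    ∃ (n : ℕ) (s : Γ(X, U)), rs X h z ^ n * r = rs X h s := by
  subst hW
  have hloc : IsLocalization.Away z Γ(X, X.basicOpen z) := hU.isLocalization_basicOpen z
  obtain ⟨⟨a, ⟨_, n, rfl⟩⟩, ha⟩ := IsLocalization.surj (Submonoid.powers z) r
  refine ⟨n, a, ?_⟩
  have ha' : r * rs X h (z ^ n) = rs X h a := ha
  rw [← ha', map_pow, mul_comm]

/-- The ring data of a curve of genus one. -/
theorem exists_AD [IsIntegral X] [IsAlgClosed k] [IsProper π] [SmoothOfRelativeDimension 1 π]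
    (hg : HasGenus π 1) (hσ : σ ≫ π = 𝟙 _) (G : GD (π := π) σ q) :
    ∃ D : AD k Γ(X, G.V) Γ(X, G.U) Γ(X, G.V ⊓ G.U), D.c1 = coef π G.V ∧ D.c2 = coef π G.U ∧
      D.j1 = rs X inf_le_left ∧ D.j2 = rs X inf_le_right ∧ D.z = G.z ∧
      D.ev = evs σ G.U G.leU := by
  have hpir := pir_stalk π
  obtain ⟨f0, hf0⟩ := exists_transc π
  have hgen : σ q ≠ genericPoint X := section_ne_genericPoint π hf0 σ hσ q
  have hV : Nonempty G.V := ⟨⟨genericPoint X, (G.mV _).2 (Ne.symm hgen)⟩⟩
  have hU : Nonempty G.U := ⟨⟨σ q, G.mU⟩⟩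
  have hW : Nonempty (G.V ⊓ G.U : X.Opens) := nonempty_inf hV hU
  have hpV : σ q ∉ G.V := fun h => (G.mV _).1 h rfl
  have hu : IsUnit (rs X (inf_le_right : G.V ⊓ G.U ≤ G.U) G.z) :=
    isUnit_sub hpir G.aU G.z (σ q) G.mU hgen G.gz (G.V ⊓ G.U) inf_le_right (fun h => hpV h.1)
  obtain ⟨zi, hzi⟩ := hu.exists_right_inv
  obtain ⟨L, hLs, hLc, hL0⟩ := t_COVI π 1 hg G.V G.U G.aV G.aU G.cover
  have hWb : G.V ⊓ G.U = X.basicOpen G.z := by
    apply le_antisymm
    · intro x hx
      exact mem_basicOpen_of_ne hpir G.aU G.z (σ q) G.mU hgen G.gz x hx.2 ((G.mV x).1 hx.1)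
    · intro x hx
      refine ⟨(G.mV x).2 ?_, X.basicOpen_le _ hx⟩
      rintro rfl
      exact (G.gz G.z).2 ⟨1, (mul_one _).symm⟩ hx
  exact ⟨{
    c1 := coef π G.V
    c2 := coef π G.U
    c12 := coef π (G.V ⊓ G.U)
    j1 := rs X inf_le_left
    j2 := rs X inf_le_right
    jc1 := coef_rs π _
    jc2 := coef_rs π _
    inj1 := map_injective_of_isIntegral X (homOfLE (inf_le_left : G.V ⊓ G.U ≤ G.V))
    inj2 := map_injective_of_isIntegral X (homOfLE (inf_le_right : G.V ⊓ G.U ≤ G.U))
    z := G.z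
    zi := zi
    hz := hzi
    ev := evs σ G.U G.leU
    evc := evs_coef π σ hσ G.U G.leU
    evz := by
      rw [evs_eq_zero_iff _ _ _ _ q]
      exact (G.gz G.z).2 ⟨1, (mul_one _).symm⟩
    evk := fun r hr => by
      rw [evs_eq_zero_iff _ _ _ _ q] at hr
      exact (G.gz r).1 hr
    loc := loc_aux G.aU G.z inf_le_right hWb
    h0 := fun a b hab => const_of_agree π G.cover a b hab
    L := fun r => L r 0
    Ladd := fun r s => by rw [map_add]; rfl
    Lc := fun c r => by rw [hLc]; rfl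
    L0 := fun r => by
      rw [← hL0]
      constructor
      · intro h
        ext i
        rw [Subsingleton.elim i 0, h]
        rfl
      · intro h
        rw [h]
        rfl
    Ls := by
      obtain ⟨r, hr⟩ := hLs 1
      refine ⟨r, ?_⟩
      rw [hr]
      exact one_ne_zero }, rfl, rfl, rfl, rfl, rfl, rfl⟩

end Pool.Agent.MG.W.W0


end

section

/-!
# Smooth curves of genus one: the chart at infinity
-/

open CategoryTheory CategoryTheory.Limits AlgebraicGeometry TensorProduct TopologicalSpace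

namespace Pool.Agent.MG.W.W0

open Pool.Agent.MG.Two

section

variable {X : Scheme.{0}} [IsIntegral X]

/-- The rational functions which are regular at `p`. -/
noncomputable def O (p : X) : Subring X.functionField :=
  (algebraMap (X.presheaf.stalk p) X.functionField).range

lemma mem_O_iff (p : X) (f : X.functionField) : f ∈ O p ↔ p ∈ dom f := Iff.rfl

lemma germ_mem_O {V : X.Opens} [Nonempty V] (p : X) (hp : p ∈ V) (r : Γ(X, V)) :
    X.germToFunctionField V r ∈ O p :=
  (mem_dom_iff' _ p).mpr ⟨V, hp, inferInstance, r, rfl⟩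

lemma inv_mem_O {V : X.Opens} [Nonempty V] (p : X) (r : Γ(X, V)) (hp : p ∈ X.basicOpen r) :
    (X.germToFunctionField V r)⁻¹ ∈ O p := by
  have hBne : Nonempty (X.basicOpen r) := ⟨⟨p, hp⟩⟩
  have hub : IsUnit (rs X (X.basicOpen_le r) r) := X.toRingedSpace.isUnit_res_basicOpen r
  obtain ⟨ζ, hζ⟩ := hub.exists_right_inv
  have hζ' : X.germToFunctionField (X.basicOpen r) ζ = (X.germToFunctionField V r)⁻¹ := by
    rw [germ_inv hζ, germ_rs]
  exact (mem_dom_iff' _ p).mpr ⟨X.basicOpen r, hp, hBne, ζ, hζ'⟩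

lemma mem_basicOpen_of_inv {V : X.Opens} [Nonempty V] (p : X) (hp : p ∈ V) (r : Γ(X, V))
    (h0 : X.germToFunctionField V r ≠ 0) (h : (X.germToFunctionField V r)⁻¹ ∈ O p) :
    p ∈ X.basicOpen r := by
  rw [Scheme.mem_basicOpen X r p hp]
  obtain ⟨w, hw⟩ := h
  refine IsUnit.of_mul_eq_one w ?_
  apply IsFractionRing.injective (X.presheaf.stalk p) X.functionField
  rw [map_mul, hw, map_one, Scheme.algebraMap_germ_eq_germToFunctionField (X := X) hp r]
  exact mul_inv_cancel₀ h0

lemma exists_sec {N : X.Opens} [Nonempty N] (f : X.functionField) (h : ∀ p ∈ N, f ∈ O p) :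
    ∃ r : Γ(X, N), X.germToFunctionField N r = f := by
  have hle : N ≤ dom f := h
  exact ⟨rs X hle (sec f), by rw [germ_rs, germ_sec]⟩

end

lemma ring_inv {R K : Type} [CommRing R] [Field K] (f : R →+* K) (u : Rˣ) :
    f ((u⁻¹ : Rˣ) : R) = (f u)⁻¹ := by
  apply eq_inv_of_mul_eq_one_right
  rw [← map_mul, Units.mul_inv, map_one]

variable {X : Scheme.{0}} {k : Type} [Field k] {π : X ⟶ Sp k} {σ : Sp k ⟶ X} {q : Sp k}

lemma unit_aux {V W : X.Opens} (z : Γ(X, V)) (h : W ≤ V) (hW : W = X.basicOpen z) :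
    IsUnit (rs X h z) := by
  subst hW
  exact X.toRingedSpace.isUnit_res_basicOpen z

/-- Weierstrass coordinates. -/
structure WG (G : GD (π := π) σ q) (a b : k) where
  x : Γ(X, G.V)
  y : Γ(X, G.V)
  s : Γ(X, G.U)
  t : Γ(X, G.U)
  hs : rs X (inf_le_right : G.V ⊓ G.U ≤ G.U) G.z ^ 2 * rs X inf_le_left x = rs X inf_le_right s
  es : evs σ G.U G.leU s = 1
  ht : rs X (inf_le_right : G.V ⊓ G.U ≤ G.U) G.z ^ 3 * rs X inf_le_left y = rs X inf_le_right t
  et : evs σ G.U G.leU t = 1
  eq : y ^ 2 = x ^ 3 + coef π G.V a * x + coef π G.V b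
  bij : Function.Bijective (lift1 (a := a) (b := b) (coef π G.V) x y eq)

/-- The chart at infinity. -/
structure Inf {G : GD (π := π) σ q} {a b : k} (H : WG G a b) where
  N : X.Opens
  aN : IsAffineOpen N
  mN : σ q ∈ N
  leN : ⊤ ≤ σ ⁻¹ᵁ N
  e2 : A2 k a b →+* Γ(X, N)
  b2 : Function.Bijective e2
  e12 : A12 k a b →+* Γ(X, G.V ⊓ N)
  b12 : Function.Bijective e12
  h1 : ∀ v, e12 (g1 k a b v) = rs X inf_le_left (lift1 (coef π G.V) H.x H.y H.eq v)
  h2 : ∀ v, e12 (g2 k a b v) = rs X inf_le_right (e2 v)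
  hc : ∀ c, e2 (algebraMap k _ c) = coef π N c
  hi : ∀ v, evs σ N leN (e2 v) = inf2 k a b v

theorem exists_Inf [IsIntegral X] [IsAlgClosed k] [IsProper π] [SmoothOfRelativeDimension 1 π]
    (hσ : σ ≫ π = 𝟙 _) (hW : Stmt_WRG) (G : GD (π := π) σ q) {a b : k} (H : WG G a b)
    (hxy : ∀ c, H.x * H.y ≠ coef π G.V c) : Nonempty (Inf H) := by
  have hpir := pir_stalk π
  obtain ⟨f0, hf0⟩ := exists_transc π
  have hgen : σ q ≠ genericPoint X := section_ne_genericPoint π hf0 σ hσ q
  have hVne : Nonempty G.V := ⟨⟨genericPoint X, (G.mV _).2 (Ne.symm hgen)⟩⟩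
  have hUne : Nonempty G.U := ⟨⟨σ q, G.mU⟩⟩
  have hWne : Nonempty (G.V ⊓ G.U : X.Opens) := nonempty_inf hVne hUne
  -- the elements of the function field
  obtain ⟨Xk, hXk⟩ : ∃ Xk, X.germToFunctionField G.V H.x = Xk := ⟨_, rfl⟩
  obtain ⟨Yk, hYk⟩ : ∃ Yk, X.germToFunctionField G.V H.y = Yk := ⟨_, rfl⟩
  obtain ⟨Z, hZ⟩ : ∃ Z, X.germToFunctionField G.U G.z = Z := ⟨_, rfl⟩
  obtain ⟨S, hS⟩ : ∃ S, X.germToFunctionField G.U H.s = S := ⟨_, rfl⟩
  obtain ⟨T, hT⟩ : ∃ T, X.germToFunctionField G.U H.t = T := ⟨_, rfl⟩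
  have k1 : Z ^ 2 * Xk = S := by
    have h := congrArg (X.germToFunctionField (G.V ⊓ G.U)) H.hs
    rwa [map_mul, map_pow, germ_rs, germ_rs, germ_rs, hZ, hXk, hS] at h
  have k2 : Z ^ 3 * Yk = T := by
    have h := congrArg (X.germToFunctionField (G.V ⊓ G.U)) H.ht
    rwa [map_mul, map_pow, germ_rs, germ_rs, germ_rs, hZ, hYk, hT] at h
  have k3 : Yk ^ 2 = Xk ^ 3 + kfun π a * Xk + kfun π b := by
    have h := congrArg (X.germToFunctionField G.V) H.eq
    rwa [map_add, map_add, map_mul, map_pow, map_pow, germ_coef, germ_coef, hXk, hYk] at h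
  have hs0 : H.s ≠ 0 := by
    intro h
    have := H.es
    rw [h, map_zero] at this
    exact zero_ne_one this
  have ht0 : H.t ≠ 0 := by
    intro h
    have := H.et
    rw [h, map_zero] at this
    exact zero_ne_one this
  have hS0 : S ≠ 0 := by
    rw [← hS]
    intro h
    exact hs0 (X.germToFunctionField_injective G.U (by rw [h, map_zero]))
  have hT0 : T ≠ 0 := by
    rw [← hT]
    intro h
    exact ht0 (X.germToFunctionField_injective G.U (by rw [h, map_zero]))
  have hZ0 : Z ≠ 0 := by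
    rintro rfl
    apply hS0
    rw [← k1]
    ring
  have hX0 : Xk ≠ 0 := by
    rintro rfl
    apply hS0
    rw [← k1, mul_zero]
  have hY0 : Yk ≠ 0 := by
    rintro rfl
    apply hT0
    rw [← k2, mul_zero]
  -- regularity at `σ q`
  have oZ : Z ∈ O (σ q) := hZ ▸ germ_mem_O (σ q) G.mU G.z
  have oS : S ∈ O (σ q) := hS ▸ germ_mem_O (σ q) G.mU H.s
  have oT : T ∈ O (σ q) := hT ▸ germ_mem_O (σ q) G.mU H.t
  have oS' : S⁻¹ ∈ O (σ q) := by
    rw [← hS]
    apply inv_mem_O
    by_contra h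
    have := H.es
    rw [(evs_eq_zero_iff _ _ _ _ q).2 h] at this
    exact zero_ne_one this
  have oT' : T⁻¹ ∈ O (σ q) := by
    rw [← hT]
    apply inv_mem_O
    by_contra h
    have := H.et
    rw [(evs_eq_zero_iff _ _ _ _ q).2 h] at this
    exact zero_ne_one this
  have eX : Xk = S * (Z ^ 2)⁻¹ := by rw [← k1]; field_simp
  have eY : Yk = T * (Z ^ 3)⁻¹ := by rw [← k2]; field_simp
  -- the open set
  obtain ⟨g, hg⟩ : ∃ g, g = (Xk * Yk)⁻¹ := ⟨_, rfl⟩
  have gT : Transc π g := by
    apply transc_of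
    intro c hc
    have h1 : Xk * Yk = kfun π c⁻¹ := by
      rw [map_inv₀, ← hc, hg, inv_inv]
    apply hxy c⁻¹
    apply X.germToFunctionField_injective G.V
    rw [map_mul, hXk, hYk, germ_coef, h1]
  have aN := isAffineOpen_dom π hpir gT
  have ogq : g ∈ O (σ q) := by
    have : g = Z ^ 5 * S⁻¹ * T⁻¹ := by rw [hg, eX, eY]; field_simp
    rw [this]
    exact mul_mem (mul_mem (pow_mem oZ 5) oS') oT'
  have oX : ∀ p ∈ G.V, Xk ∈ O p := fun p hp => hXk ▸ germ_mem_O p hp H.x
  have oY : ∀ p ∈ G.V, Yk ∈ O p := fun p hp => hYk ▸ germ_mem_O p hp H.y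
  have gxy : X.germToFunctionField G.V (H.x * H.y) = Xk * Yk := by rw [map_mul, hXk, hYk]
  have hVN : G.V ⊓ dom g = X.basicOpen (H.x * H.y) := by
    apply le_antisymm
    · intro p hp
      apply mem_basicOpen_of_inv p hp.1
      · rw [gxy]
        exact mul_ne_zero hX0 hY0
      · rw [gxy, ← hg]
        exact hp.2
    · intro p hp
      refine ⟨X.basicOpen_le _ hp, ?_⟩
      change g ∈ O p
      rw [hg, ← gxy]
      exact inv_mem_O p _ hp
  have hor : ∀ p, p = σ q ∨ p ∈ G.V := by
    intro p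
    by_cases h : p = σ q
    · exact Or.inl h
    · exact Or.inr ((G.mV p).2 h)
  have oz : ∀ p ∈ dom g, Xk * Yk⁻¹ ∈ O p := by
    intro p hp
    rcases hor p with h | h
    · subst h
      have : Xk * Yk⁻¹ = Z * S * T⁻¹ := by rw [eX, eY]; field_simp
      rw [this]
      exact mul_mem (mul_mem oZ oS) oT'
    · have : Xk * Yk⁻¹ = Xk ^ 2 * g := by rw [hg]; field_simp
      rw [this]
      exact mul_mem (pow_mem (oX p h) 2) (show g ∈ O p from hp)
  have ot : ∀ p ∈ dom g, Yk ^ 2 * (Xk ^ 3)⁻¹ ∈ O p := by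
    intro p hp
    rcases hor p with h | h
    · subst h
      have : Yk ^ 2 * (Xk ^ 3)⁻¹ = T ^ 2 * S⁻¹ ^ 3 := by rw [eX, eY]; field_simp
      rw [this]
      exact mul_mem (pow_mem oT 2) (pow_mem oS' 3)
    · have : Yk ^ 2 * (Xk ^ 3)⁻¹ = Yk ^ 5 * g ^ 3 := by rw [hg]; field_simp
      rw [this]
      exact mul_mem (pow_mem (oY p h) 5) (pow_mem (show g ∈ O p from hp) 3)
  obtain ⟨N, hN⟩ : ∃ N, N = dom g := ⟨_, rfl⟩
  rw [← hN] at aN hVN oz ot
  have mN : σ q ∈ N := by rw [hN]; exact ogq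
  have hNne : Nonempty N := ⟨⟨σ q, mN⟩⟩
  have hVNne : Nonempty (G.V ⊓ N : X.Opens) := nonempty_inf hVne hNne
  have leN : ⊤ ≤ σ ⁻¹ᵁ N := top_le_of_mem σ _ q mN
  obtain ⟨zz, hzz⟩ := exists_sec _ oz
  obtain ⟨tt, htt⟩ := exists_sec _ ot
  have rel : tt = 1 + coef π N a * zz ^ 4 * tt ^ 2 + coef π N b * zz ^ 6 * tt ^ 3 := by
    apply X.germToFunctionField_injective N
    rw [map_add, map_add, map_mul, map_mul, map_mul, map_mul, map_pow, map_pow, map_pow, map_pow,
      map_one, germ_coef, germ_coef, hzz, htt]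
    field_simp
    linear_combination k3
  -- values at `σ q`
  have hUN : Nonempty (G.U ⊓ N : X.Opens) := nonempty_inf hUne hNne
  have leUN : ⊤ ≤ σ ⁻¹ᵁ (G.U ⊓ N) := top_le_of_mem σ _ q ⟨G.mU, mN⟩
  have hevz : evs σ G.U G.leU G.z = 0 := by
    rw [evs_eq_zero_iff _ _ _ _ q]
    exact (G.gz G.z).2 ⟨1, (mul_one _).symm⟩
  have vz : evs σ N leN zz = 0 := by
    have r1 : rs X (inf_le_right : G.U ⊓ N ≤ N) zz * rs X (inf_le_left : G.U ⊓ N ≤ G.U) H.t =
        rs X inf_le_left G.z * rs X inf_le_left H.s := by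
      apply X.germToFunctionField_injective (G.U ⊓ N)
      rw [map_mul, map_mul, germ_rs, germ_rs, germ_rs, germ_rs, hzz, hZ, hS, hT, eX, eY]
      field_simp
    have r2 := congrArg (evs σ _ leUN) r1
    rw [map_mul, map_mul, evs_rs σ _ leUN leN, evs_rs σ _ leUN G.leU, evs_rs σ _ leUN G.leU,
      evs_rs σ _ leUN G.leU, H.es, H.et, hevz, mul_one, mul_one] at r2
    exact r2
  have vt : evs σ N leN tt = 1 := by
    have r1 : rs X (inf_le_right : G.U ⊓ N ≤ N) tt * rs X (inf_le_left : G.U ⊓ N ≤ G.U) H.s ^ 3 =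
        rs X inf_le_left H.t ^ 2 := by
      apply X.germToFunctionField_injective (G.U ⊓ N)
      rw [map_mul, map_pow, map_pow, germ_rs, germ_rs, germ_rs, htt, hS, hT, eX, eY]
      field_simp
    have r2 := congrArg (evs σ _ leUN) r1
    rw [map_mul, map_pow, map_pow, evs_rs σ _ leUN leN, evs_rs σ _ leUN G.leU,
      evs_rs σ _ leUN G.leU, H.es, H.et, one_pow, one_pow, mul_one] at r2
    exact r2
  -- the morphisms of rings
  obtain ⟨e2, he2⟩ : ∃ e2 : A2 k a b →+* Γ(X, N), e2 = lift2 (coef π N) zz tt rel := ⟨_, rfl⟩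
  obtain ⟨θ, hθ⟩ : ∃ θ : A1 k a b →+* Γ(X, G.V), θ = lift1 (coef π G.V) H.x H.y H.eq := ⟨_, rfl⟩
  have θx : θ (x1 k a b) = H.x := by rw [hθ, lift1_x]
  have θy : θ (y1 k a b) = H.y := by rw [hθ, lift1_y]
  have θb : ∀ c, θ (algebraMap k _ c) = coef π G.V c := fun c => by rw [hθ, lift1_b]
  have θbij : Function.Bijective θ := hθ ▸ H.bij
  have e2z : e2 (z2 k a b) = zz := by rw [he2, lift2_z]
  have e2t : e2 (t2 k a b) = tt := by rw [he2, lift2_t]
  have e2b : ∀ c, e2 (algebraMap k _ c) = coef π N c := fun c => by rw [he2, lift2_b]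
  obtain ⟨ρ, hρ⟩ : ∃ ρ : Γ(X, G.V) →+* Γ(X, G.V ⊓ N), ρ = rs X inf_le_left := ⟨_, rfl⟩
  have ρinj : Function.Injective ρ := by
    rw [hρ]
    exact map_injective_of_isIntegral X (homOfLE (inf_le_left : G.V ⊓ N ≤ G.V))
  have ρ2inj : Function.Injective (rs X (inf_le_right : G.V ⊓ N ≤ N)) :=
    map_injective_of_isIntegral X (homOfLE (inf_le_right : G.V ⊓ N ≤ N))
  have ρu : IsUnit (ρ (H.x * H.y)) := by
    rw [hρ]
    exact unit_aux _ _ hVN
  have ρg : ∀ v, X.germToFunctionField (G.V ⊓ N) (ρ v) = X.germToFunctionField G.V v := by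
    intro v
    rw [hρ, germ_rs]
  have hu : IsUnit ((ρ.comp θ) (x1 k a b * y1 k a b)) := by
    rw [RingHom.comp_apply, map_mul, θx, θy]
    exact ρu
  obtain ⟨ψ, ψa⟩ : ∃ ψ : L1 k a b →+* Γ(X, G.V ⊓ N), ∀ v, ψ (algebraMap _ _ v) = ρ (θ v) :=
    ⟨IsLocalization.Away.lift (x1 k a b * y1 k a b) (g := ρ.comp θ) hu,
      fun v => IsLocalization.Away.lift_eq _ _ _⟩
  have ψi : Function.Injective ψ := by
    rw [injective_iff_map_eq_zero]
    intro v hv
    obtain ⟨⟨w, ⟨_, n, rfl⟩⟩, hw⟩ := IsLocalization.surj (Submonoid.powers (x1 k a b * y1 k a b)) v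
    have h1 : ρ (θ w) = 0 := by
      rw [← ψa, ← hw, map_mul, hv, zero_mul]
    have h2 : w = 0 := by
      apply θbij.1
      apply ρinj
      rw [h1, map_zero, map_zero]
    rw [h2, map_zero] at hw
    have h3 : IsUnit (algebraMap (A1 k a b) (L1 k a b) ((x1 k a b * y1 k a b) ^ n)) := by
      rw [map_pow]
      exact (IsLocalization.Away.algebraMap_isUnit (x1 k a b * y1 k a b)).pow n
    exact h3.mul_left_eq_zero.1 hw
  have ψs : Function.Surjective ψ := by
    intro r
    obtain ⟨n, s, hs⟩ := loc_aux G.aV (H.x * H.y) (inf_le_left : G.V ⊓ N ≤ G.V) hVN r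
    obtain ⟨w, hw⟩ := θbij.2 s
    obtain ⟨u, hu'⟩ := (IsLocalization.Away.algebraMap_isUnit (S := L1 k a b)
      (x1 k a b * y1 k a b)).pow n
    refine ⟨algebraMap _ _ w * (u⁻¹ : (L1 k a b)ˣ).val, ?_⟩
    have h1 : ψ (u : L1 k a b) = ρ (H.x * H.y) ^ n := by
      rw [hu', map_pow, ψa, map_mul, θx, θy]
    apply (ρu.pow n).mul_left_cancel
    have h2 : ρ (H.x * H.y) ^ n * ψ (u⁻¹ : (L1 k a b)ˣ).val = 1 := by
      rw [← h1, ← map_mul, Units.mul_inv, map_one]
    have h3 : ψ (algebraMap _ _ w * (u⁻¹ : (L1 k a b)ˣ).val) =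
        ρ s * ψ (u⁻¹ : (L1 k a b)ˣ).val := by rw [map_mul, ψa, hw]
    rw [← hρ] at hs
    rw [h3, hs]
    linear_combination ρ s * h2
  have cinv : Function.Bijective (cmpInv k a b) := (cmpEquiv k a b).symm.bijective
  have h1 : ∀ v, ψ (cmpInv k a b (g1 k a b v)) = ρ (θ v) := by
    intro v
    have h := congrArg (fun f => f (algebraMap _ _ v)) (cmpInv_cmp k a b)
    change cmpInv k a b (cmp k a b (algebraMap _ _ v)) = algebraMap _ _ v at h
    rw [cmp_alg] at h
    rw [h, ψa]
  have gx : (X.germToFunctionField (G.V ⊓ N)).hom.comp ψ (xu k a b : L1 k a b) = Xk := by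
    change X.germToFunctionField (G.V ⊓ N) (ψ (algebraMap _ _ (x1 k a b))) = Xk
    rw [ψa, ρg, θx, hXk]
  have gy : (X.germToFunctionField (G.V ⊓ N)).hom.comp ψ (yu k a b : L1 k a b) = Yk := by
    change X.germToFunctionField (G.V ⊓ N) (ψ (algebraMap _ _ (y1 k a b))) = Yk
    rw [ψa, ρg, θy, hYk]
  have h2 : ∀ v, ψ (cmpInv k a b (g2 k a b v)) = rs X (inf_le_right : G.V ⊓ N ≤ N) (e2 v) := by
    have h : (ψ.comp (cmpInv k a b)).comp (g2 k a b) =
        (rs X (inf_le_right : G.V ⊓ N ≤ N)).comp e2 := by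
      refine hom2_ext ?_ ?_ ?_
      · intro c
        rw [RingHom.comp_apply, RingHom.comp_apply, RingHom.comp_apply, g2_b, ← g1_b, h1, θb, e2b,
          coef_rs, hρ, coef_rs]
      · apply X.germToFunctionField_injective (G.V ⊓ N)
        change X.germToFunctionField (G.V ⊓ N) (ψ (cmpInv k a b (zu k a b : A12 k a b))) =
          X.germToFunctionField (G.V ⊓ N) (rs X inf_le_right (e2 (z2 k a b)))
        have e := congrArg Units.val (cmpInv_zu k a b)
        change cmpInv k a b (zu k a b : A12 k a b) = _ at e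
        rw [e, e2z, germ_rs, hzz]
        change ((X.germToFunctionField (G.V ⊓ N)).hom.comp ψ) _ = _
        rw [Units.val_mul, map_mul, ring_inv, gx, gy]
      · apply X.germToFunctionField_injective (G.V ⊓ N)
        change X.germToFunctionField (G.V ⊓ N) (ψ (cmpInv k a b (tu k a b : A12 k a b))) =
          X.germToFunctionField (G.V ⊓ N) (rs X inf_le_right (e2 (t2 k a b)))
        have e := congrArg Units.val (cmpInv_tu k a b)
        change cmpInv k a b (tu k a b : A12 k a b) = _ at e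
        rw [e, e2t, germ_rs, htt]
        change ((X.germToFunctionField (G.V ⊓ N)).hom.comp ψ) _ = _
        rw [Units.val_mul, map_mul, Units.val_pow_eq_pow_val, Units.val_pow_eq_pow_val, map_pow,
          map_pow, ring_inv, gx, gy, inv_pow]
    exact fun v => congrArg (fun f => f v) h
  have e2i : Function.Injective e2 := by
    intro v w hvw
    apply (hW k a b).2.2.1
    apply cinv.1
    apply ψi
    rw [h2, h2, hvw]
  have hi : ∀ v, evs σ N leN (e2 v) = inf2 k a b v := by
    have h : (evs σ N leN).comp e2 = inf2 k a b := by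
      refine hom2_ext ?_ ?_ ?_
      · intro c
        rw [RingHom.comp_apply, e2b, evs_coef π σ hσ, inf2, lift2_b]
        rfl
      · rw [RingHom.comp_apply, e2z, vz, inf2, lift2_z]
      · rw [RingHom.comp_apply, e2t, vt, inf2, lift2_t]
    exact fun v => congrArg (fun f => f v) h
  have e2s : Function.Surjective e2 := by
    have key : ∀ (n : ℕ) (h : Γ(X, N)) (s : A2 k a b), zz ^ n * h = e2 s → ∃ v, e2 v = h := by
      intro n
      induction n with
      | zero =>
        intro h s hs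
        exact ⟨s, by rw [← hs, pow_zero, one_mul]⟩
      | succ n ih =>
        intro h s hs
        have hv : inf2 k a b s = 0 := by
          rw [← hi, ← hs, map_mul, map_pow, vz, pow_succ, mul_zero, zero_mul]
        have hm := (hW k a b).2.1 s
        rw [hv, map_zero, sub_zero] at hm
        obtain ⟨s', rfl⟩ := Ideal.mem_span_singleton.1 hm
        apply ih h s'
        have hz0 : zz ≠ 0 := by
          intro h0
          rw [h0, map_zero] at hzz
          exact mul_ne_zero hX0 (inv_ne_zero hY0) hzz.symm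
        apply mul_left_cancel₀ hz0
        rw [← e2z, ← map_mul, ← hs, ← e2z]
        ring
    intro h
    obtain ⟨v, hv⟩ := ψs (rs X inf_le_right h)
    obtain ⟨w, rfl⟩ := cinv.2 v
    obtain ⟨⟨s, ⟨_, n, rfl⟩⟩, hs⟩ := IsLocalization.surj (Submonoid.powers (z2 k a b)) w
    apply key n h s
    apply ρ2inj
    rw [map_mul, map_pow, ← hv, ← h2, ← e2z, ← h2, ← map_pow, ← map_pow, ← map_mul, ← map_mul]
    congr 2
    rw [mul_comm]
    have hs' : w * algebraMap (A2 k a b) (A12 k a b) (z2 k a b ^ n) =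
      algebraMap (A2 k a b) (A12 k a b) s := hs
    rw [map_pow] at hs'
    exact hs'
  exact ⟨{
    N := N
    aN := aN
    mN := mN
    leN := leN
    e2 := e2
    b2 := ⟨e2i, e2s⟩
    e12 := ψ.comp (cmpInv k a b)
    b12 := ⟨ψi.comp cinv.1, ψs.comp cinv.2⟩
    h1 := fun v => by rw [RingHom.comp_apply, h1, hρ, hθ]
    h2 := h2
    hc := e2b
    hi := hi }⟩

end Pool.Agent.MG.W.W0


end

section

/-!
# Smooth pointed curves of genus one are Weierstrass curves
-/

open CategoryTheory CategoryTheory.Limits AlgebraicGeometry TensorProduct TopologicalSpace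

namespace Pool.Agent.MG.W

namespace W0

open Pool.Agent.MG.Two Pool.Agent.MG.GLU

section push

variable {X : Scheme.{0}} {k : Type} [Field k] {π : X ⟶ Sp k} {σ : Sp k ⟶ X} {q : Sp k}
  {G : GD (π := π) σ q} {a b : k} (H : WG G a b) (I : Inf H)

/-- Functions away from the point. -/
noncomputable def E1 : Γ(X, G.V) ≃+* A1 k a b := (RingEquiv.ofBijective _ H.bij).symm

/-- Functions near the point. -/
noncomputable def E2 : Γ(X, I.N) ≃+* A2 k a b := (RingEquiv.ofBijective _ I.b2).symm

/-- Functions on the intersection. -/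
noncomputable def E12 : Γ(X, G.V ⊓ I.N) ≃+* A12 k a b := (RingEquiv.ofBijective _ I.b12).symm

lemma E1_lift (v : A1 k a b) : E1 H (lift1 (coef π G.V) H.x H.y H.eq v) = v :=
  (RingEquiv.ofBijective _ H.bij).symm_apply_apply v

lemma lift_E1 (r : Γ(X, G.V)) : lift1 (coef π G.V) H.x H.y H.eq (E1 H r) = r :=
  (RingEquiv.ofBijective _ H.bij).apply_symm_apply r

lemma E2_e2 (v : A2 k a b) : E2 H I (I.e2 v) = v :=
  (RingEquiv.ofBijective _ I.b2).symm_apply_apply v

lemma e2_E2 (r : Γ(X, I.N)) : I.e2 (E2 H I r) = r :=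
  (RingEquiv.ofBijective _ I.b2).apply_symm_apply r

lemma E12_e12 (v : A12 k a b) : E12 H I (I.e12 v) = v :=
  (RingEquiv.ofBijective _ I.b12).symm_apply_apply v

lemma E12_1 (r : Γ(X, G.V)) : E12 H I (rs X inf_le_left r) = g1 k a b (E1 H r) := by
  conv_lhs => rw [← lift_E1 H r]
  rw [← I.h1, E12_e12]

lemma E12_2 (r : Γ(X, I.N)) : E12 H I (rs X inf_le_right r) = g2 k a b (E2 H I r) := by
  conv_lhs => rw [← e2_E2 H I r]
  rw [← I.h2, E12_e12]

/-- The first chart. -/
noncomputable abbrev i1 : Sp (A1 k a b) ⟶ X := ww G.aV (E1 H)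

/-- The second chart. -/
noncomputable abbrev i2 : Sp (A2 k a b) ⟶ X := ww I.aN (E2 H I)

variable (hVN : IsAffineOpen (G.V ⊓ I.N))

/-- The intersection. -/
noncomputable abbrev i12 : Sp (A12 k a b) ⟶ X := ww hVN (E12 H I)

theorem i12_1 : i12 H I hVN = spMap (g1 k a b) ≫ i1 H := by
  refine ww_eq G.aV (E1 H) _ ((ww_le hVN (E12 H I)).trans fun _ hx => hx.1) _ ?_
  intro v
  have := gm_rs (i12 H I hVN) (RingHom.id (A12 k a b)) (i12 H I hVN) (spMap_id_comp _).symm
    (W := G.V) (W' := G.V ⊓ I.N) inf_le_left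
    ((ww_le hVN (E12 H I)).trans fun _ hx => hx.1) (ww_le hVN (E12 H I)) v
  rw [ww_gm, E12_1] at this
  exact this.symm

theorem i12_2 : i12 H I hVN = spMap (g2 k a b) ≫ i2 H I := by
  refine ww_eq I.aN (E2 H I) _ ((ww_le hVN (E12 H I)).trans fun _ hx => hx.2) _ ?_
  intro v
  have := gm_rs (i12 H I hVN) (RingHom.id (A12 k a b)) (i12 H I hVN) (spMap_id_comp _).symm
    (W := I.N) (W' := G.V ⊓ I.N) inf_le_right
    ((ww_le hVN (E12 H I)).trans fun _ hx => hx.2) (ww_le hVN (E12 H I)) v
  rw [ww_gm, E12_2] at this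
  exact this.symm

include hVN in
/-- The curve is the push out of its charts. -/
theorem isPush : IsPushout (spMap (g1 k a b)) (spMap (g2 k a b)) (i1 H) (i2 H I) := by
  refine glue_push (by rw [← i12_1 H I hVN, ← i12_2 H I hVN]) ?_ ?_
  · intro p
    by_cases hp : p = σ q
    · right
      have h : p ∈ (i2 H I).opensRange := by
        rw [ww_range, hp]
        exact I.mN
      exact h
    · left
      have h : p ∈ (i1 H).opensRange := by
        rw [ww_range]
        exact (G.mV p).2 hp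
      exact h
  · intro x y h
    have h1 : i1 H x ∈ G.V := ww_le G.aV (E1 H) (show x ∈ ⊤ by trivial)
    have h2 : i2 H I y ∈ I.N := ww_le I.aN (E2 H I) (show y ∈ ⊤ by trivial)
    have h3 : i1 H x ∈ (i12 H I hVN).opensRange := by
      rw [ww_range]
      exact ⟨h1, h ▸ h2⟩
    obtain ⟨w, hw⟩ := h3
    refine ⟨w, ?_, ?_⟩
    · apply (i1 H).isOpenEmbedding.injective
      rw [← Scheme.Hom.comp_apply, ← i12_1 H I hVN, hw]
    · apply (i2 H I).isOpenEmbedding.injective
      rw [← Scheme.Hom.comp_apply, ← i12_2 H I hVN, hw, h]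

theorem i1_π : i1 H ≫ π = spMap (algebraMap k (A1 k a b)) := by
  unfold i1 ww
  rw [Category.assoc, NOD.fromSpec_coef, spMap_comp']
  refine congrArg (fun f => spMap f) (RingHom.ext fun c => ?_)
  change E1 H (coef π G.V c) = _
  rw [← E1_lift H (algebraMap k _ c), lift1_b]

theorem i2_π : i2 H I ≫ π = spMap (algebraMap k (A2 k a b)) := by
  unfold i2 ww
  rw [Category.assoc, NOD.fromSpec_coef, spMap_comp']
  refine congrArg (fun f => spMap f) (RingHom.ext fun c => ?_)
  change E2 H I (coef π I.N c) = _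
  rw [← E2_e2 H I (algebraMap k _ c), I.hc]

/-- A point in the first chart. -/
theorem point1 (τ : Sp k ⟶ X) (h : ⊤ ≤ τ ⁻¹ᵁ G.V) (u : A1 k a b →+* k)
    (hu : ∀ v, evs τ G.V h (lift1 (coef π G.V) H.x H.y H.eq v) = u v) :
    τ = spMap u ≫ i1 H := by
  refine ww_eq G.aV (E1 H) τ h u fun v => ?_
  rw [← hu, lift_E1]
  rfl

/-- The point at infinity. -/
theorem point2 : σ = spMap (inf2 k a b) ≫ i2 H I := by
  refine ww_eq I.aN (E2 H I) σ I.leN _ fun v => ?_
  rw [← I.hi, e2_E2]
  rfl

end push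

end W0

open _root_.Pool.Agent.MG.W.W0 Pool.Agent.MG.Two Pool.Agent.MG.GLU in
/-- Smooth pointed curves of genus one are Weierstrass curves. -/
theorem t_W0 : Stmt_W0 := by
  intro m k _ _ _ C hC hs
  have hprop : IsProper C.π := hC.proper
  have hid : spMap (RingHom.id k) = 𝟙 (Sp k) := by simp
  have hst : StableCurve 1 C := hC.fib k (RingHom.id k) C ⟨{
    f := 𝟙 C.X
    cart := by
      rw [hid]
      exact IsPullback.of_id_fst
    sec := fun i => by rw [hid, Category.comp_id, Category.id_comp] }⟩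
  have hcon : ConnectedSpace C.X := hst.connected
  have hint : AlgebraicGeometry.IsIntegral C.X := isIntegral_of_smooth C.π
  have hpir := pir_stalk C.π
  let q : Sp k := (⊥ : PrimeSpectrum k)
  obtain ⟨G⟩ := exists_GD C.π hst.genus (C.σ 0) (C.sec 0) q
  obtain ⟨D, hc1, hc2, hj1, hj2, hz, hev⟩ := exists_AD hst.genus (C.sec 0) G
  obtain ⟨a, b, x, y, hx, hy, heq⟩ := AD.exists_W (D := D)
  obtain ⟨s, hs1, hs2⟩ := id hx
  obtain ⟨t, ht1, ht2⟩ := id hy
  have heq' : y ^ 2 = x ^ 3 + coef C.π G.V a * x + coef C.π G.V b := by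
    rw [← hc1]
    exact heq
  have hlift : ∀ (φ : k →+* Γ(C.X, G.V)) (_ : φ = D.c1)
      (h' : y ^ 2 = x ^ 3 + φ a * x + φ b), lift1 φ x y h' = lift1 D.c1 x y heq := by
    rintro _ rfl _
    rfl
  let H : WG G a b :=
    { x := x
      y := y
      s := s
      t := t
      hs := by
        rw [hj1, hj2, hz] at hs1
        exact hs1
      es := by
        rw [hev] at hs2
        exact hs2
      ht := by
        rw [hj1, hj2, hz] at ht1
        exact ht1
      et := by
        rw [hev] at ht2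
        exact ht2
      eq := heq'
      bij := by
        rw [hlift _ hc1.symm heq']
        exact AD.bij t_WRG hx hy heq }
  have hxy : ∀ c, H.x * H.y ≠ coef C.π G.V c := by
    intro c hc
    have h1 : D.Ord 0 (x * y) c := by
      have h2 : x * y = D.c1 c := by
        rw [hc1]
        exact hc
      rw [h2]
      exact AD.ord_const c
    have h3 := h1.lt (hx.mul hy) (by rw [mul_one]; exact one_ne_zero)
    omega
  obtain ⟨I⟩ := exists_Inf (C.sec 0) t_WRG G H hxy
  have hVN : IsAffineOpen (G.V ⊓ I.N) := isAffineOpen_inf C.π G.aV I.aN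
  have hP := isPush H I hVN
  -- the discriminant
  obtain ⟨f0, hf0⟩ := exists_transc C.π
  have hgen : C.σ 0 q ≠ genericPoint C.X := section_ne_genericPoint C.π hf0 _ (C.sec 0) q
  have hVne : Nonempty G.V := ⟨⟨genericPoint C.X, (G.mV _).2 (Ne.symm hgen)⟩⟩
  have hded : IsDedekindDomain Γ(C.X, G.V) := isDedekindDomain_sections C.π hpir G.aV
  have hdisc : 4 * a ^ 3 + 27 * b ^ 2 ≠ 0 := AD.disc hx hy heq
  -- the other points
  have hmem : ∀ i : Fin m, C.σ i.succ q ∈ G.V := by
    intro i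
    rw [G.mV]
    intro h
    exact hst.distinct i.succ 0 (Fin.succ_ne_zero i) (section_ext C.π _ _ (C.sec _) (C.sec _) q h)
  have hle : ∀ i : Fin m, ⊤ ≤ C.σ i.succ ⁻¹ᵁ G.V := fun i => top_le_of_mem _ _ q (hmem i)
  let P : WD m k :=
    { a := a
      b := b
      x := fun i => evs (C.σ i.succ) G.V (hle i) x
      y := fun i => evs (C.σ i.succ) G.V (hle i) y
      eq := fun i => by
        have h := congrArg (evs (C.σ i.succ) G.V (hle i)) heq'
        rw [map_add, map_add, map_mul, map_pow, map_pow, evs_coef C.π _ (C.sec _),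
          evs_coef C.π _ (C.sec _)] at h
        exact h }
  let e : C.X ≅ WX k a b := hP.isoPushout
  have e1 : W0.i1 H ≫ e.hom = WX.in1 k a b := hP.inl_isoPushout_hom
  have e2 : W0.i2 H I ≫ e.hom = WX.in2 k a b := hP.inr_isoPushout_hom
  have hπ : e.hom ≫ WX.pr k a b = C.π := by
    apply hP.hom_ext
    · rw [← Category.assoc, e1, WX.in1_pr, W0.i1_π]
    · rw [← Category.assoc, e2, WX.in2_pr, W0.i2_π]
  have hiso : IsIso e.hom := e.isIso_hom
  refine ⟨P, hdisc, ⟨e.hom, ?_, ?_⟩, hiso⟩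
  · have hiso' : IsIso (spMap (RingHom.id k)) := by
      rw [hid]
      infer_instance
    have hw : e.hom ≫ WX.pr k a b = C.π ≫ spMap (RingHom.id k) := by
      rw [hid, Category.comp_id]
      exact hπ
    exact IsPullback.of_horiz_isIso (fst := e.hom) (snd := C.π) (f := WX.pr k a b)
      (g := spMap (RingHom.id k)) ⟨hw⟩
  · intro i
    rw [hid, Category.id_comp]
    refine Fin.cases ?_ (fun i => ?_) i
    · change C.σ 0 ≫ e.hom = spMap (inf2 k a b) ≫ WX.in2 k a b
      conv_lhs => rw [point2 H I]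
      rw [Category.assoc, e2]
    · change C.σ i.succ ≫ e.hom = spMap (pt1 P i) ≫ WX.in1 k a b
      have h := point1 H (C.σ i.succ) (hle i) (pt1 P i) (by
        have h : (evs (C.σ i.succ) G.V (hle i)).comp (lift1 (coef C.π G.V) H.x H.y H.eq) =
            pt1 P i := by
          refine hom1_ext ?_ ?_ ?_
          · intro c
            rw [RingHom.comp_apply, lift1_b, evs_coef C.π _ (C.sec _), pt1, lift1_b]
            rfl
          · rw [RingHom.comp_apply, lift1_x, pt1, lift1_x]
          · rw [RingHom.comp_apply, lift1_y, pt1, lift1_y]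
        exact fun v => congrArg (fun f => f v) h)
      conv_lhs => rw [h]
      rw [Category.assoc, e1]

end Pool.Agent.MG.W


end

section

/-!
# The rational functions regular on the domain of `x` are the functions integral over `k[x]`
-/

open CategoryTheory CategoryTheory.Limits AlgebraicGeometry TensorProduct TopologicalSpace

namespace Pool.Agent.MG.H2.EDMaux

open Pool.Agent.MG.Two

variable {X : Scheme.{0}} [IsIntegral X] {k : Type} [Field k] (π : X ⟶ Sp k)

lemma germ_comp (x : X.functionField) : Polynomial.eval₂RingHom (kfun π) x =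
    (X.germToFunctionField (dom x)).hom.comp (polyMap π x) := by
  ext1
  · ext a
    simpa using (germ_polyMap π x (Polynomial.C a)).symm
  · simpa using (germ_polyMap π x Polynomial.X).symm

lemma integral_polyMap [IsProper π]
    (hpir : ∀ x : X, IsPrincipalIdealRing (X.presheaf.stalk x)) {x : X.functionField}
    (hx : Transc π x) : (polyMap π x).IsIntegral := by
  have h1 := isFinite_phi π hpir hx
  have h2 : (phi π x).appTop.hom.Finite :=
    IsFinite.finite_app (f := phi π x) ⊤ (isAffineOpen_top _)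
  have h3 : CommRingCat.ofHom (polyMap π x) =
      (Scheme.ΓSpecIso (.of (Polynomial k))).inv ≫ (phi π x).appTop ≫ (dom x).topIso.hom := by
    rw [phi_appTop, Category.assoc, Category.assoc, Iso.inv_hom_id, Category.comp_id,
      Iso.inv_hom_id_assoc]
  have h4 : ((Scheme.ΓSpecIso (.of (Polynomial k))).inv ≫ (phi π x).appTop ≫
      (dom x).topIso.hom).hom.Finite := by
    rw [CommRingCat.hom_comp, CommRingCat.hom_comp]
    refine RingHom.Finite.comp (RingHom.Finite.comp ?_ h2) ?_
    · exact RingHom.Finite.of_surjective _ (ConcreteCategory.bijective_of_isIso _).2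
    · exact RingHom.Finite.of_surjective _ (ConcreteCategory.bijective_of_isIso _).2
  have h5 : (polyMap π x).Finite := by
    rw [← h3] at h4
    exact h4
  exact h5.to_isIntegral

lemma basicOpen_sec (x : X.functionField) (hx : x ≠ 0) :
    dom x ⊓ dom x⁻¹ = X.basicOpen (sec x) := by
  have hne : Nonempty (dom x ⊓ dom x⁻¹ : X.Opens) := nonempty_inf inferInstance inferInstance
  apply le_antisymm
  · intro y hy
    rw [Scheme.mem_basicOpen _ _ _ hy.1]
    have h1 := sec_mul_inv x hx (dom x ⊓ dom x⁻¹) inf_le_left inf_le_right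
    have h2 := congrArg (X.presheaf.germ (dom x ⊓ dom x⁻¹) y hy) h1
    rw [map_mul, map_one] at h2
    have h3 := IsUnit.of_mul_eq_one _ h2
    rw [← X.presheaf.germ_res_apply (homOfLE (inf_le_left : dom x ⊓ dom x⁻¹ ≤ dom x)) y hy]
    exact h3
  · intro y hy
    have hy1 : y ∈ dom x := X.basicOpen_le _ hy
    refine ⟨hy1, ?_⟩
    rw [Scheme.mem_basicOpen _ _ _ hy1] at hy
    obtain ⟨g, hg⟩ := hy
    refine (mem_dom_iff x⁻¹ y).mpr ⟨(↑(g⁻¹) : X.presheaf.stalk y), ?_⟩
    have h1 : algebraMap (X.presheaf.stalk y) X.functionField (g : X.presheaf.stalk y) = x := by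
      rw [hg, Scheme.algebraMap_germ_eq_germToFunctionField (X := X) hy1, germ_sec]
    have h2 : algebraMap (X.presheaf.stalk y) X.functionField (↑(g⁻¹) : X.presheaf.stalk y) *
        x = 1 := by
      rw [← h1, ← map_mul, Units.inv_mul, map_one]
    exact eq_inv_of_mul_eq_one_left h2

end Pool.Agent.MG.H2.EDMaux

namespace Pool.Agent.MG.H2

open Pool.Agent.MG.Two EDMaux Pool.Agent.MG.W.W0

/-- The rational functions regular on the domain of `x` are integral over `k[x]`. -/
theorem t_EDM : Stmt_EDM := by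
  intro X k _ π _ _ _ _ _ x hx
  have hpir := pir_stalk π
  have hx0 : x ≠ 0 := hx.ne_zero π
  have hxi : Transc π x⁻¹ := by
    have h := transc_inv_sub π hx 0
    rwa [map_zero, sub_zero] at h
  have hA := isAffineOpen_dom π hpir hx
  refine ⟨hA, isAffineOpen_dom π hpir hxi, ?_, ?_, ?_⟩
  · rw [eq_top_iff]
    intro y _
    exact mem_dom_or_mem_dom_inv (valuationRing_stalk hpir) x y
  · intro z
    constructor
    · rintro ⟨p, hp, hz⟩
      have hD := isDedekindDomain_sections π hpir hA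
      let _ : Algebra Γ(X, dom x) X.functionField :=
        (X.germToFunctionField (dom x)).hom.toAlgebra
      have hfr : IsFractionRing Γ(X, dom x) X.functionField :=
        functionField_isFractionRing_of_isAffineOpen X (dom x) hA
      have hint : IsIntegral Γ(X, dom x) z := by
        refine ⟨p.map (polyMap π x), hp.map _, ?_⟩
        rw [Polynomial.eval₂_map]
        rw [germ_comp] at hz
        exact hz
      obtain ⟨s, hs⟩ := IsIntegrallyClosed.isIntegral_iff.mp hint
      exact ⟨s, hs⟩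
    · rintro ⟨s, rfl⟩
      obtain ⟨p, hp, hz⟩ := integral_polyMap π hpir hx s
      refine ⟨p, hp, ?_⟩
      rw [germ_comp]
      have h1 := congrArg (X.germToFunctionField (dom x)).hom hz
      rw [Polynomial.hom_eval₂, map_zero] at h1
      exact h1
  · intro hne s
    obtain ⟨N, t, ht⟩ := loc_aux hA (sec x) inf_le_left (basicOpen_sec x hx0) s
    refine ⟨N, t, ?_⟩
    have h1 := congrArg (X.germToFunctionField (dom x ⊓ dom x⁻¹)).hom ht
    rw [map_mul, map_pow] at h1
    have h2 : ∀ r : Γ(X, dom x), (X.germToFunctionField (dom x ⊓ dom x⁻¹)).hom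
        (rs X (inf_le_left : dom x ⊓ dom x⁻¹ ≤ dom x) r) = X.germToFunctionField (dom x) r :=
      fun r => germToFunctionField_res _ r
    rw [h2, h2, germ_sec] at h1
    exact h1

end Pool.Agent.MG.H2


end

section

/-!
# Smooth curves of genus two: the curve is glued from its charts
-/

open CategoryTheory CategoryTheory.Limits AlgebraicGeometry TensorProduct TopologicalSpace

namespace Pool.Agent.MG.H2

namespace EIS

/-! ## The rings of the charts -/

section alg

variable {k : Type} [Field k]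

/-- The polynomial with coefficients `f`. -/
theorem pol_eval {R : Type} [CommRing R] (φ : k →+* R) (x : R) (f : Fin 7 → k) :
    (pol (fun i => Polynomial.C (f i)) Polynomial.X : Polynomial k).eval₂ φ x =
      pol (fun i => φ (f i)) x := by
  have h := pol_map (Polynomial.eval₂RingHom φ x) (fun i => Polynomial.C (f i)) Polynomial.X
  simp only [Polynomial.coe_eval₂RingHom, Polynomial.eval₂_C, Polynomial.eval₂_X] at h
  exact h

/-- Every element of the ring of a chart is `p(x) + q(x) y`. -/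
theorem form (f : Fin 7 → k) (v : A1 k f) :
    ∃ p q : Polynomial k, v = p.eval₂ (algebraMap k (A1 k f)) (x1 k f) +
      q.eval₂ (algebraMap k (A1 k f)) (x1 k f) * y1 k f := by
  obtain ⟨P, rfl⟩ := Ideal.Quotient.mk_surjective v
  induction P using MvPolynomial.induction_on with
  | C c =>
    refine ⟨Polynomial.C c, 0, ?_⟩
    rw [Polynomial.eval₂_C, Polynomial.eval₂_zero, zero_mul, add_zero]
    rfl
  | add P Q hP hQ =>
    obtain ⟨p, q, h⟩ := hP
    obtain ⟨p', q', h'⟩ := hQ
    refine ⟨p + p', q + q', ?_⟩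
    rw [map_add, h, h', Polynomial.eval₂_add, Polynomial.eval₂_add]
    ring
  | mul_X P i hP =>
    obtain ⟨p, q, h⟩ := hP
    rw [map_mul, h]
    fin_cases i
    · refine ⟨p * Polynomial.X, q * Polynomial.X, ?_⟩
      rw [Polynomial.eval₂_mul, Polynomial.eval₂_mul, Polynomial.eval₂_X]
      change _ * x1 k f = _
      ring
    · refine ⟨q * pol (fun i => Polynomial.C (f i)) Polynomial.X, p, ?_⟩
      rw [Polynomial.eval₂_mul, pol_eval, ← rel1]
      change _ * y1 k f = _
      ring

/-- A homomorphism from the ring of a chart is bijective if the images of `x`, `y` satisfy no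
other relations. -/
theorem lift_bij {R K : Type} [CommRing R] [Field K] (φ : k →+* R) (g : R →+* K)
    (hg : Function.Injective g) {f : Fin 7 → k} (x y : R)
    (h : y ^ 2 = pol (fun i => φ (f i)) x)
    (hind : ∀ p q : Polynomial k, p.eval₂ (g.comp φ) (g x) + q.eval₂ (g.comp φ) (g x) * g y = 0 →
      p = 0 ∧ q = 0)
    (hsur : ∀ r : R, ∃ p q : Polynomial k,
      g r = p.eval₂ (g.comp φ) (g x) + q.eval₂ (g.comp φ) (g x) * g y) :
    Function.Bijective (lift1 (f := f) φ x y h) := by
  have key : ∀ p q : Polynomial k, g (lift1 (f := f) φ x y h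
      (p.eval₂ (algebraMap k (A1 k f)) (x1 k f) +
        q.eval₂ (algebraMap k (A1 k f)) (x1 k f) * y1 k f)) =
      p.eval₂ (g.comp φ) (g x) + q.eval₂ (g.comp φ) (g x) * g y := by
    intro p q
    have hc : (lift1 (f := f) φ x y h).comp (algebraMap k (A1 k f)) = φ :=
      RingHom.ext fun c => lift1_b φ x y h c
    rw [map_add, map_mul, Polynomial.hom_eval₂, Polynomial.hom_eval₂, lift1_x, lift1_y, hc,
      map_add, map_mul, Polynomial.hom_eval₂, Polynomial.hom_eval₂]
  constructor
  · rw [injective_iff_map_eq_zero]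
    intro v hv
    obtain ⟨p, q, rfl⟩ := form f v
    have h1 := key p q
    rw [hv, map_zero] at h1
    obtain ⟨rfl, rfl⟩ := hind p q h1.symm
    rw [Polynomial.eval₂_zero, zero_mul, add_zero]
  · intro r
    obtain ⟨p, q, hpq⟩ := hsur r
    refine ⟨_, hg ((key p q).trans hpq.symm)⟩

/-- There are no relations between `1/x` and `y/x³`. -/
theorem ind_inv {K : Type} [Field K] (c : k →+* K) (x y : K) (hx : x ≠ 0)
    (hind : ∀ p q : Polynomial k, p.eval₂ c x + q.eval₂ c x * y = 0 → p = 0 ∧ q = 0)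
    (p q : Polynomial k) (h : p.eval₂ c x⁻¹ + q.eval₂ c x⁻¹ * (y * x⁻¹ ^ 3) = 0) :
    p = 0 ∧ q = 0 := by
  have hx' : x⁻¹ ≠ 0 := inv_ne_zero hx
  have key : ∀ (N : ℕ) (r : Polynomial k), r.natDegree ≤ N →
      (Polynomial.reflect N r).eval₂ c x * x⁻¹ ^ N = r.eval₂ c x⁻¹ := by
    intro N r hr
    let _ : Invertible x⁻¹ := invertibleOfNonzero hx'
    have h1 := Polynomial.eval₂_reflect_mul_pow c x⁻¹ N r hr
    rw [invOf_eq_inv, inv_inv] at h1
    exact h1
  obtain ⟨M, hM1, hM2⟩ : ∃ M, p.natDegree ≤ M + 3 ∧ q.natDegree ≤ M :=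
    ⟨p.natDegree + q.natDegree, by omega, by omega⟩
  have h2 : ((Polynomial.reflect (M + 3) p).eval₂ c x +
      (Polynomial.reflect M q).eval₂ c x * y) * x⁻¹ ^ (M + 3) = 0 := by
    rw [← h, ← key (M + 3) p hM1, ← key M q hM2]
    ring
  obtain ⟨h3, h4⟩ := hind _ _ ((mul_eq_zero.1 h2).resolve_right (pow_ne_zero _ hx'))
  exact ⟨Polynomial.reflect_eq_zero_iff.1 h3, Polynomial.reflect_eq_zero_iff.1 h4⟩

end alg

open Pool.Agent.MG.Two Pool.Agent.MG.GLU

/-! ## Two charts -/

/-- A scheme covered by the two charts of `y² = f(x)`. -/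
structure CD {X : Scheme.{0}} {k : Type} [Field k] (π : X ⟶ Sp k) (f : Fin 7 → k) where
  U : X.Opens
  V : X.Opens
  aU : IsAffineOpen U
  aV : IsAffineOpen V
  aW : IsAffineOpen (U ⊓ V)
  cov : U ⊔ V = ⊤
  e1 : A1 k f →+* Γ(X, U)
  b1 : Function.Bijective e1
  e2 : A2 k f →+* Γ(X, V)
  b2 : Function.Bijective e2
  e12 : A12 k f →+* Γ(X, U ⊓ V)
  b12 : Function.Bijective e12
  h1 : ∀ v, e12 (g1 k f v) = rs X inf_le_left (e1 v)
  h2 : ∀ v, e12 (g2 k f v) = rs X inf_le_right (e2 v)
  c1 : ∀ c, e1 (algebraMap k _ c) = coef π U c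
  c2 : ∀ c, e2 (algebraMap k _ c) = coef π V c

section push

variable {X : Scheme.{0}} {k : Type} [Field k] {π : X ⟶ Sp k} {f : Fin 7 → k} (D : CD π f)

/-- Functions on the first chart. -/
noncomputable def E1 : Γ(X, D.U) ≃+* A1 k f := (RingEquiv.ofBijective _ D.b1).symm

/-- Functions on the second chart. -/
noncomputable def E2 : Γ(X, D.V) ≃+* A2 k f := (RingEquiv.ofBijective _ D.b2).symm

/-- Functions on the intersection. -/
noncomputable def E12 : Γ(X, D.U ⊓ D.V) ≃+* A12 k f := (RingEquiv.ofBijective _ D.b12).symm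

lemma E1_e1 (v : A1 k f) : E1 D (D.e1 v) = v := (RingEquiv.ofBijective _ D.b1).symm_apply_apply v

lemma e1_E1 (r : Γ(X, D.U)) : D.e1 (E1 D r) = r := (RingEquiv.ofBijective _ D.b1).apply_symm_apply r

lemma E2_e2 (v : A2 k f) : E2 D (D.e2 v) = v := (RingEquiv.ofBijective _ D.b2).symm_apply_apply v

lemma e2_E2 (r : Γ(X, D.V)) : D.e2 (E2 D r) = r := (RingEquiv.ofBijective _ D.b2).apply_symm_apply r

lemma E12_e12 (v : A12 k f) : E12 D (D.e12 v) = v :=
  (RingEquiv.ofBijective _ D.b12).symm_apply_apply v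

lemma E12_1 (r : Γ(X, D.U)) : E12 D (rs X inf_le_left r) = g1 k f (E1 D r) := by
  conv_lhs => rw [← e1_E1 D r]
  rw [← D.h1, E12_e12]

lemma E12_2 (r : Γ(X, D.V)) : E12 D (rs X inf_le_right r) = g2 k f (E2 D r) := by
  conv_lhs => rw [← e2_E2 D r]
  rw [← D.h2, E12_e12]

/-- The first chart. -/
noncomputable abbrev i1 : Sp (A1 k f) ⟶ X := ww D.aU (E1 D)

/-- The second chart. -/
noncomputable abbrev i2 : Sp (A2 k f) ⟶ X := ww D.aV (E2 D)

/-- The intersection. -/
noncomputable abbrev i12 : Sp (A12 k f) ⟶ X := ww D.aW (E12 D)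

theorem i12_1 : i12 D = spMap (g1 k f) ≫ i1 D := by
  refine ww_eq D.aU (E1 D) _ ((ww_le D.aW (E12 D)).trans fun _ hx => hx.1) _ ?_
  intro v
  have := gm_rs (i12 D) (RingHom.id (A12 k f)) (i12 D) (spMap_id_comp _).symm
    (W := D.U) (W' := D.U ⊓ D.V) inf_le_left
    ((ww_le D.aW (E12 D)).trans fun _ hx => hx.1) (ww_le D.aW (E12 D)) v
  rw [ww_gm, E12_1] at this
  exact this.symm

theorem i12_2 : i12 D = spMap (g2 k f) ≫ i2 D := by
  refine ww_eq D.aV (E2 D) _ ((ww_le D.aW (E12 D)).trans fun _ hx => hx.2) _ ?_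
  intro v
  have := gm_rs (i12 D) (RingHom.id (A12 k f)) (i12 D) (spMap_id_comp _).symm
    (W := D.V) (W' := D.U ⊓ D.V) inf_le_right
    ((ww_le D.aW (E12 D)).trans fun _ hx => hx.2) (ww_le D.aW (E12 D)) v
  rw [ww_gm, E12_2] at this
  exact this.symm

/-- The curve is the push out of its charts. -/
theorem isPush : IsPushout (spMap (g1 k f)) (spMap (g2 k f)) (i1 D) (i2 D) := by
  refine glue_push (by rw [← i12_1 D, ← i12_2 D]) ?_ ?_
  · intro p
    have hp : p ∈ D.U ⊔ D.V := by
      rw [D.cov]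
      trivial
    rcases hp with hp | hp
    · left
      have h : p ∈ (i1 D).opensRange := by
        rw [ww_range]
        exact hp
      exact h
    · right
      have h : p ∈ (i2 D).opensRange := by
        rw [ww_range]
        exact hp
      exact h
  · intro x y h
    have h1 : i1 D x ∈ D.U := ww_le D.aU (E1 D) (show x ∈ ⊤ by trivial)
    have h2 : i2 D y ∈ D.V := ww_le D.aV (E2 D) (show y ∈ ⊤ by trivial)
    have h3 : i1 D x ∈ (i12 D).opensRange := by
      rw [ww_range]
      exact ⟨h1, h ▸ h2⟩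
    obtain ⟨w, hw⟩ := h3
    refine ⟨w, ?_, ?_⟩
    · apply (i1 D).isOpenEmbedding.injective
      rw [← Scheme.Hom.comp_apply, ← i12_1 D, hw]
    · apply (i2 D).isOpenEmbedding.injective
      rw [← Scheme.Hom.comp_apply, ← i12_2 D, hw, h]

theorem i1_π : i1 D ≫ π = spMap (algebraMap k (A1 k f)) := by
  unfold i1 ww
  rw [Category.assoc, NOD.fromSpec_coef, spMap_comp']
  refine congrArg (fun f => spMap f) (RingHom.ext fun c => ?_)
  change E1 D (coef π D.U c) = _
  rw [← D.c1, E1_e1]

theorem i2_π : i2 D ≫ π = spMap (algebraMap k (A2 k f)) := by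
  unfold i2 ww
  rw [Category.assoc, NOD.fromSpec_coef, spMap_comp']
  refine congrArg (fun f => spMap f) (RingHom.ext fun c => ?_)
  change E2 D (coef π D.V c) = _
  rw [← D.c2, E2_e2]

end push

theorem arrow {k : Type} [Field k] (C : Fam 0 k) {f : Fin 7 → k} (D : CD C.π f) :
    ∃ a : Arrow (RingHom.id k) C (Hyp f), IsIso a.f := by
  have hid : spMap (RingHom.id k) = 𝟙 (Sp k) := by simp
  have hP := isPush D
  let e : C.X ≅ HX k f := hP.isoPushout
  have e1 : i1 D ≫ e.hom = HX.in1 k f := hP.inl_isoPushout_hom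
  have e2 : i2 D ≫ e.hom = HX.in2 k f := hP.inr_isoPushout_hom
  have hπ : e.hom ≫ HX.pr k f = C.π := by
    apply hP.hom_ext
    · rw [← Category.assoc, e1, HX.in1_pr, i1_π]
    · rw [← Category.assoc, e2, HX.in2_pr, i2_π]
  have hiso : IsIso e.hom := e.isIso_hom
  refine ⟨⟨e.hom, ?_, fun i => i.elim0⟩, hiso⟩
  have hiso' : IsIso (spMap (RingHom.id k)) := by
    rw [hid]
    infer_instance
  have hw : e.hom ≫ HX.pr k f = C.π ≫ spMap (RingHom.id k) := by
    rw [hid, Category.comp_id]
    exact hπ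
  exact IsPullback.of_horiz_isIso (fst := e.hom) (snd := C.π) (f := HX.pr k f)
    (g := spMap (RingHom.id k)) ⟨hw⟩

end EIS

open _root_.Pool.Agent.MG.H2.EIS Pool.Agent.MG.Two in
/-- The curve is glued from its charts. -/
theorem t_EIS : Stmt_EIS := by
  intro k _ C _ _ x y f hx aU aV hcov heq htr hind hU hV
  have hx' : x⁻¹ ≠ 0 := inv_ne_zero hx
  have hWne : Nonempty (dom x ⊓ dom x⁻¹ : C.X.Opens) := nonempty_inf inferInstance inferInstance
  have aW : IsAffineOpen (dom x ⊓ dom x⁻¹) := isAffineOpen_inf C.π aU aV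
  -- the coordinates
  obtain ⟨xs, hxs⟩ : ∃ s : Γ(C.X, dom x), C.X.germToFunctionField (dom x) s = x :=
    ⟨sec x, germ_sec x⟩
  obtain ⟨ys, hys⟩ : ∃ s : Γ(C.X, dom x), C.X.germToFunctionField (dom x) s = y :=
    (hU y).2 ⟨0, 1, by rw [Polynomial.eval₂_zero, Polynomial.eval₂_one, zero_add, one_mul]⟩
  obtain ⟨us, hus⟩ : ∃ s : Γ(C.X, dom x⁻¹), C.X.germToFunctionField (dom x⁻¹) s = x⁻¹ :=
    ⟨sec x⁻¹, germ_sec x⁻¹⟩
  obtain ⟨vs, hvs⟩ : ∃ s : Γ(C.X, dom x⁻¹),
      C.X.germToFunctionField (dom x⁻¹) s = y * x⁻¹ ^ 3 :=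
    (hV _).2 ⟨0, 1, by rw [Polynomial.eval₂_zero, Polynomial.eval₂_one, zero_add, one_mul]⟩
  have gc1 : (C.X.germToFunctionField (dom x)).hom.comp (coef C.π (dom x)) = kfun C.π :=
    RingHom.ext fun c => W.W0.germ_coef C.π (dom x) c
  have gc2 : (C.X.germToFunctionField (dom x⁻¹)).hom.comp (coef C.π (dom x⁻¹)) = kfun C.π :=
    RingHom.ext fun c => W.W0.germ_coef C.π (dom x⁻¹) c
  have r1 : ys ^ 2 = pol (fun i => coef C.π (dom x) (f i)) xs := by
    apply C.X.germToFunctionField_injective (dom x)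
    have h := pol_map (C.X.germToFunctionField (dom x)).hom
      (fun i => coef C.π (dom x) (f i)) xs
    rw [map_pow, hys, heq]
    refine Eq.trans ?_ h.symm
    change _ = pol (fun i => C.X.germToFunctionField (dom x) (coef C.π (dom x) (f i)))
      (C.X.germToFunctionField (dom x) xs)
    rw [hxs]
    congr 1
    funext i
    exact (W.W0.germ_coef C.π (dom x) (f i)).symm
  have hrev : (y * x⁻¹ ^ 3) ^ 2 = pol (fun i => kfun C.π (rev f i)) x⁻¹ := by
    have h := pol_rev (rev (fun i => kfun C.π (f i))) x x⁻¹ (mul_inv_cancel₀ hx)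
    rw [rev_rev, ← heq] at h
    refine Eq.trans ?_ h
    ring
  have r2 : vs ^ 2 = pol (fun i => coef C.π (dom x⁻¹) (rev f i)) us := by
    apply C.X.germToFunctionField_injective (dom x⁻¹)
    have h := pol_map (C.X.germToFunctionField (dom x⁻¹)).hom
      (fun i => coef C.π (dom x⁻¹) (rev f i)) us
    rw [map_pow, hvs, hrev]
    refine Eq.trans ?_ h.symm
    change _ = pol (fun i => C.X.germToFunctionField (dom x⁻¹)
      (coef C.π (dom x⁻¹) (rev f i))) (C.X.germToFunctionField (dom x⁻¹) us)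
    rw [hus]
    congr 1
    funext i
    exact (W.W0.germ_coef C.π (dom x⁻¹) (rev f i)).symm
  obtain ⟨e1, he1⟩ : ∃ e1 : A1 k f →+* Γ(C.X, dom x), e1 = lift1 (coef C.π (dom x)) xs ys r1 :=
    ⟨_, rfl⟩
  obtain ⟨e2, he2⟩ : ∃ e2 : A2 k f →+* Γ(C.X, dom x⁻¹),
    e2 = lift1 (coef C.π (dom x⁻¹)) us vs r2 := ⟨_, rfl⟩
  have b1 : Function.Bijective e1 := by
    rw [he1]
    refine lift_bij _ (C.X.germToFunctionField (dom x)).hom
      (C.X.germToFunctionField_injective (dom x)) xs ys r1 ?_ ?_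
    · intro p q h
      rw [gc1] at h
      apply hind p q
      rw [← h]
      change _ = p.eval₂ _ (C.X.germToFunctionField (dom x) xs) +
        q.eval₂ _ (C.X.germToFunctionField (dom x) xs) * C.X.germToFunctionField (dom x) ys
      rw [hxs, hys]
    · intro r
      obtain ⟨p, q, h⟩ := (hU (C.X.germToFunctionField (dom x) r)).1 ⟨r, rfl⟩
      refine ⟨p, q, ?_⟩
      rw [gc1]
      refine h.trans ?_
      change _ = p.eval₂ _ (C.X.germToFunctionField (dom x) xs) +
        q.eval₂ _ (C.X.germToFunctionField (dom x) xs) * C.X.germToFunctionField (dom x) ys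
      rw [hxs, hys]
  have b2 : Function.Bijective e2 := by
    rw [he2]
    refine lift_bij _ (C.X.germToFunctionField (dom x⁻¹)).hom
      (C.X.germToFunctionField_injective (dom x⁻¹)) us vs r2 ?_ ?_
    · intro p q h
      rw [gc2] at h
      apply ind_inv (kfun C.π) x y hx hind p q
      rw [← h]
      change _ = p.eval₂ _ (C.X.germToFunctionField (dom x⁻¹) us) +
        q.eval₂ _ (C.X.germToFunctionField (dom x⁻¹) us) *
          C.X.germToFunctionField (dom x⁻¹) vs
      rw [hus, hvs]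
    · intro r
      obtain ⟨p, q, h⟩ := (hV (C.X.germToFunctionField (dom x⁻¹) r)).1 ⟨r, rfl⟩
      refine ⟨p, q, ?_⟩
      rw [gc2]
      refine h.trans ?_
      change _ = p.eval₂ _ (C.X.germToFunctionField (dom x⁻¹) us) +
        q.eval₂ _ (C.X.germToFunctionField (dom x⁻¹) us) *
          C.X.germToFunctionField (dom x⁻¹) vs
      rw [hus, hvs]
  -- the intersection
  have hWb : dom x ⊓ dom x⁻¹ = C.X.basicOpen xs := by
    apply le_antisymm
    · intro p hp
      apply W.W0.mem_basicOpen_of_inv p hp.1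
      · rw [hxs]
        exact hx
      · rw [hxs]
        exact hp.2
    · intro p hp
      refine ⟨C.X.basicOpen_le _ hp, ?_⟩
      change x⁻¹ ∈ W.W0.O p
      rw [← hxs]
      exact W.W0.inv_mem_O p _ hp
  obtain ⟨ρ, hρ⟩ : ∃ ρ : Γ(C.X, dom x) →+* Γ(C.X, dom x ⊓ dom x⁻¹),
    ρ = rs C.X inf_le_left := ⟨_, rfl⟩
  obtain ⟨ρ', hρ'⟩ : ∃ ρ' : Γ(C.X, dom x⁻¹) →+* Γ(C.X, dom x ⊓ dom x⁻¹),
    ρ' = rs C.X inf_le_right := ⟨_, rfl⟩
  have ρinj : Function.Injective ρ := by
    rw [hρ]
    exact map_injective_of_isIntegral C.X (homOfLE (inf_le_left : dom x ⊓ dom x⁻¹ ≤ dom x))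
  have ρg : ∀ v, C.X.germToFunctionField (dom x ⊓ dom x⁻¹) (ρ v) =
      C.X.germToFunctionField (dom x) v := by
    intro v
    rw [hρ, W.W0.germ_rs]
  have ρ'g : ∀ v, C.X.germToFunctionField (dom x ⊓ dom x⁻¹) (ρ' v) =
      C.X.germToFunctionField (dom x⁻¹) v := by
    intro v
    rw [hρ', W.W0.germ_rs]
  have ρc : ∀ c, ρ (coef C.π (dom x) c) = coef C.π (dom x ⊓ dom x⁻¹) c := by
    intro c
    rw [hρ, coef_rs]
  have ρ'c : ∀ c, ρ' (coef C.π (dom x⁻¹) c) = coef C.π (dom x ⊓ dom x⁻¹) c := by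
    intro c
    rw [hρ', coef_rs]
  have ρu : IsUnit (ρ xs) := by
    rw [hρ]
    exact W.W0.unit_aux _ _ hWb
  obtain ⟨xw, hxw⟩ : ∃ xw : (Γ(C.X, dom x ⊓ dom x⁻¹))ˣ, (xw : Γ(C.X, dom x ⊓ dom x⁻¹)) = ρ xs :=
    ⟨ρu.unit, rfl⟩
  have r12 : (ρ ys) ^ 2 = pol (fun i => coef C.π (dom x ⊓ dom x⁻¹) (f i))
      (xw : Γ(C.X, dom x ⊓ dom x⁻¹)) := by
    rw [hxw, ← map_pow, r1, pol_map]
    congr 1
    funext i
    exact ρc _
  obtain ⟨e12, he12⟩ : ∃ e12 : A12 k f →+* Γ(C.X, dom x ⊓ dom x⁻¹),
    e12 = lift12 (coef C.π (dom x ⊓ dom x⁻¹)) xw (ρ ys) r12 := ⟨_, rfl⟩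
  have h1 : ∀ v, e12 (g1 k f v) = ρ (e1 v) := by
    have h : e12.comp (g1 k f) = ρ.comp e1 := by
      refine hom1_ext ?_ ?_ ?_
      · intro c
        rw [RingHom.comp_apply, RingHom.comp_apply, he12, lift12_g1, lift1_b, he1, lift1_b, ρc]
      · rw [RingHom.comp_apply, RingHom.comp_apply, he12, lift12_g1, lift1_x, he1, lift1_x, hxw]
      · rw [RingHom.comp_apply, RingHom.comp_apply, he12, lift12_g1, lift1_y, he1, lift1_y]
    exact fun v => congrArg (fun g => g v) h
  have gxw : C.X.germToFunctionField (dom x ⊓ dom x⁻¹) (xw : Γ(C.X, dom x ⊓ dom x⁻¹)) = x := by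
    rw [hxw, ρg, hxs]
  have gxi : C.X.germToFunctionField (dom x ⊓ dom x⁻¹) ((xw⁻¹ : (Γ(C.X, dom x ⊓ dom x⁻¹))ˣ) :
      Γ(C.X, dom x ⊓ dom x⁻¹)) = x⁻¹ := by
    have h := W.W0.ring_inv (C.X.germToFunctionField (dom x ⊓ dom x⁻¹)).hom xw
    refine h.trans ?_
    exact congrArg (fun z => z⁻¹) gxw
  have hxi : ((xw⁻¹ : (Γ(C.X, dom x ⊓ dom x⁻¹))ˣ) : Γ(C.X, dom x ⊓ dom x⁻¹)) = ρ' us := by
    apply C.X.germToFunctionField_injective (dom x ⊓ dom x⁻¹)
    rw [gxi, ρ'g, hus]
  have h2 : ∀ v, e12 (g2 k f v) = ρ' (e2 v) := by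
    have h : e12.comp (g2 k f) = ρ'.comp e2 := by
      refine hom1_ext ?_ ?_ ?_
      · intro c
        rw [RingHom.comp_apply, RingHom.comp_apply, g2_b, he12, lift12_b, he2, lift1_b, ρ'c]
      · rw [RingHom.comp_apply, RingHom.comp_apply, g2_u, he12, lift12_xi, he2, lift1_x, hxi]
      · rw [RingHom.comp_apply, RingHom.comp_apply, g2_v, he12, map_mul, lift12_y,
          Units.val_pow_eq_pow_val, map_pow, lift12_xi, he2, lift1_y]
        apply C.X.germToFunctionField_injective (dom x ⊓ dom x⁻¹)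
        rw [map_mul, map_pow, gxi, ρg, ρ'g, hys, hvs]
    exact fun v => congrArg (fun g => g v) h
  have hxu : ∀ n : ℕ, IsUnit (algebraMap (A1 k f) (A12 k f) (x1 k f ^ n)) := by
    intro n
    rw [map_pow]
    exact (IsLocalization.Away.algebraMap_isUnit (x1 k f)).pow n
  have i12 : Function.Injective e12 := by
    rw [injective_iff_map_eq_zero]
    intro v hv
    obtain ⟨⟨w, ⟨_, n, rfl⟩⟩, hw⟩ := IsLocalization.surj (Submonoid.powers (x1 k f)) v
    have hw' : v * algebraMap (A1 k f) (A12 k f) (x1 k f ^ n) = g1 k f w := hw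
    have h3 : ρ (e1 w) = 0 := by
      rw [← h1, ← hw', map_mul, hv, zero_mul]
    have h4 : w = 0 := by
      apply b1.1
      apply ρinj
      rw [h3, map_zero, map_zero]
    rw [h4, map_zero] at hw'
    exact (hxu n).mul_left_eq_zero.1 hw'
  have s12 : Function.Surjective e12 := by
    intro r
    obtain ⟨n, s, hs⟩ := W.W0.loc_aux aU xs (inf_le_left : dom x ⊓ dom x⁻¹ ≤ dom x) hWb r
    obtain ⟨w, hw⟩ := b1.2 s
    obtain ⟨u, hu'⟩ := hxu n
    refine ⟨g1 k f w * (u⁻¹ : (A12 k f)ˣ).val, ?_⟩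
    have h3 : e12 (u : A12 k f) = ρ xs ^ n := by
      rw [hu']
      change e12 (g1 k f (x1 k f ^ n)) = _
      rw [h1, map_pow, map_pow, he1, lift1_x]
    apply (ρu.pow n).mul_left_cancel
    have h4 : ρ xs ^ n * e12 (u⁻¹ : (A12 k f)ˣ).val = 1 := by
      rw [← h3, ← map_mul, Units.mul_inv, map_one]
    rw [← hρ] at hs
    rw [map_mul, h1, hw, hs]
    linear_combination ρ s * h4
  refine arrow C (f := f) {
    U := dom x
    V := dom x⁻¹
    aU := aU
    aV := aV
    aW := aW
    cov := hcov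
    e1 := e1
    b1 := b1
    e2 := e2
    b2 := b2
    e12 := e12
    b12 := ⟨i12, s12⟩
    h1 := fun v => by rw [h1, hρ]
    h2 := fun v => by rw [h2, hρ']
    c1 := fun c => by rw [he1, lift1_b]
    c2 := fun c => by rw [he2, lift1_b] }

end Pool.Agent.MG.H2


end

section

/-!
# RES0: the trace of endomorphisms of finite rank
-/

namespace Pool.Agent.MG.G0.RTR

variable {A M S : Type} [CommRing A] [AddCommGroup M] [Module A M]

theorem main (b : Module.Basis S A M) (F : M →ₗ[A] M) (n : ℕ) (l : Fin n → (M →ₗ[A] A))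
    (x : Fin n → M) (h : ∀ m, F m = ∑ k, l k m • x k) :
    (Function.support fun i => b.repr (F (b i)) i).Finite ∧ ftr b F = ∑ k, l k (x k) := by
  classical
  set U : Finset S := Finset.univ.biUnion fun k => (b.repr (x k)).support with hU
  have h1 : ∀ i, b.repr (F (b i)) i = ∑ k, l k (b i) * b.repr (x k) i := by
    intro i
    rw [h, map_sum, Finsupp.finsetSum_apply]
    refine Finset.sum_congr rfl fun k _ => ?_
    rw [map_smul, Finsupp.smul_apply, smul_eq_mul]
  have h2 : (Function.support fun i => b.repr (F (b i)) i) ⊆ (U : Set S) := by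
    intro i hi
    rw [Function.mem_support, h1] at hi
    obtain ⟨k, _, hk⟩ := Finset.exists_ne_zero_of_sum_ne_zero hi
    rw [Finset.mem_coe, hU, Finset.mem_biUnion]
    exact ⟨k, Finset.mem_univ k, Finsupp.mem_support_iff.mpr (right_ne_zero_of_mul hk)⟩
  refine ⟨(Finset.finite_toSet U).subset h2, ?_⟩
  rw [ftr, finsum_eq_sum_of_support_subset _ h2]
  simp only [h1]
  rw [Finset.sum_comm]
  refine Finset.sum_congr rfl fun k _ => ?_
  have h3 : x k = ∑ i ∈ U, b.repr (x k) i • b i := by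
    have h4 : (b.repr (x k)).support ⊆ U := by
      intro i hi
      rw [hU, Finset.mem_biUnion]
      exact ⟨k, Finset.mem_univ k, hi⟩
    conv_lhs => rw [← b.linearCombination_repr (x k), Finsupp.linearCombination_apply]
    rw [Finsupp.sum_of_support_subset _ h4]
    intro i _
    rw [zero_smul]
  conv_rhs => rw [h3, map_sum]
  refine Finset.sum_congr rfl fun i _ => ?_
  rw [map_smul, smul_eq_mul, mul_comm]

theorem fin_supp (b : Module.Basis S A M) {F : M →ₗ[A] M} (hF : FR F) :
    (Function.support fun i => b.repr (F (b i)) i).Finite := by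
  obtain ⟨n, l, x, h⟩ := hF
  exact (main b F n l x h).1

theorem fr_add {F G : M →ₗ[A] M} (hF : FR F) (hG : FR G) : FR (F + G) := by
  obtain ⟨n, l, x, h⟩ := hF
  obtain ⟨n', l', x', h'⟩ := hG
  refine ⟨n + n', Fin.append l l', Fin.append x x', fun m => ?_⟩
  rw [LinearMap.add_apply, h, h', Fin.sum_univ_add]
  simp only [Fin.append_left, Fin.append_right]

theorem fr_neg {F : M →ₗ[A] M} (hF : FR F) : FR (-F) := by
  obtain ⟨n, l, x, h⟩ := hF
  refine ⟨n, fun k => - l k, x, fun m => ?_⟩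
  rw [LinearMap.neg_apply, h, ← Finset.sum_neg_distrib]
  refine Finset.sum_congr rfl fun k _ => ?_
  rw [LinearMap.neg_apply, neg_smul]

end Pool.Agent.MG.G0.RTR

namespace Pool.Agent.MG.G0

theorem t_RTR : Stmt_RTR := by
  intro A M S _ _ _ b
  refine ⟨fun F n l x h => RTR.main b F n l x h, ?_, ?_, ?_⟩
  · intro F G hF hG
    refine ⟨RTR.fr_add hF hG, ?_⟩
    unfold ftr
    rw [← finsum_add_distrib (RTR.fin_supp b hF) (RTR.fin_supp b hG)]
    refine finsum_congr fun i => ?_
    rw [LinearMap.add_apply, map_add, Finsupp.add_apply]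
  · intro F hF
    refine ⟨RTR.fr_neg hF, ?_⟩
    unfold ftr
    rw [← finsum_neg_distrib]
    refine finsum_congr fun i => ?_
    rw [LinearMap.neg_apply, map_neg, Finsupp.neg_apply]
  · rintro F T ⟨n, l, x, h⟩
    have h1 : ∀ m, (F ∘ₗ T) m = ∑ k, (l k ∘ₗ T) m • x k := by
      intro m
      rw [LinearMap.comp_apply, h]
      rfl
    have h2 : ∀ m, (T ∘ₗ F) m = ∑ k, l k m • T (x k) := by
      intro m
      rw [LinearMap.comp_apply, h, map_sum]
      refine Finset.sum_congr rfl fun k _ => ?_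
      rw [map_smul]
    refine ⟨⟨n, fun k => l k ∘ₗ T, x, h1⟩, ⟨n, l, fun k => T (x k), h2⟩, ?_⟩
    rw [(RTR.main b (F ∘ₗ T) n (fun k => l k ∘ₗ T) x h1).2,
      (RTR.main b (T ∘ₗ F) n l (fun k => T (x k)) h2).2]
    rfl

end Pool.Agent.MG.G0


end

section

/-!
# PL6 (LOG, L6): `t D` is given by a vector field
-/

namespace Pool.Agent.MG.G0

namespace PL6

variable {A : Type} [CommRing A]

theorem ld_single (n : ℤ) (a : A) :
    ld (HahnSeries.single n a : LaurentSeries A) = HahnSeries.single (n - 1) ((n : A) * a) := by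
  ext m
  rw [ld_coeff, HahnSeries.coeff_single, HahnSeries.coeff_single]
  by_cases h : m = n - 1
  · subst h
    rw [if_pos rfl, if_pos (by ring), sub_add_cancel]
  · rw [if_neg h, if_neg (fun h' => h (by omega)), mul_zero]

/-- The vector field on the annulus. -/
noncomputable def vf (t : A) (α β : KK Bool A) : KK Bool A := fun b =>
  if b then t • α true - HahnSeries.single 1 1 * (uv t true * β + uv t false * α) true
  else t • β false

theorem smul_eq (t : A) (f : LaurentSeries A) : t • f = HahnSeries.single 0 t * f := by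
  ext n
  have h := HahnSeries.coeff_single_mul_add (r := t) (x := f) (a := n) (b := (0 : ℤ))
  rw [add_zero] at h
  rw [h, HahnSeries.coeff_smul, smul_eq_mul]

theorem vf_u (t : A) (α β : KK Bool A) :
    vf t α β * dd (uv t true) - t • α =
      -(uv t true * (uv t true * β + uv t false * α)) := by
  funext b
  cases b
  · change (t • β false) * ld (HahnSeries.single (-1) t) - t • α false =
      -(HahnSeries.single (-1) t * (HahnSeries.single (-1) t * β false +
        HahnSeries.single 1 1 * α false))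
    have h1 : (HahnSeries.single (-1) t * HahnSeries.single 1 1 : LaurentSeries A) =
        HahnSeries.single 0 t := by
      rw [HahnSeries.single_mul_single, mul_one]
      rfl
    have h2 : (HahnSeries.single 0 t * HahnSeries.single (-1 - 1) (((-1 : ℤ) : A) * t) :
        LaurentSeries A) = -(HahnSeries.single (-1) t * HahnSeries.single (-1) t) := by
      rw [HahnSeries.single_mul_single, HahnSeries.single_mul_single, ← HahnSeries.single_neg]
      congr 1
      push_cast
      ring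
    rw [ld_single, smul_eq, smul_eq, ← h1]
    rw [← h1] at h2
    linear_combination (β false) * h2
  · change (t • α true - HahnSeries.single 1 1 * (uv t true * β + uv t false * α) true) *
        ld (HahnSeries.single 1 1) - t • α true =
      -(HahnSeries.single 1 1 * (uv t true * β + uv t false * α) true)
    have h1 : ld (HahnSeries.single 1 1 : LaurentSeries A) = 1 := by
      rw [ld_single]
      simp
    rw [h1, mul_one]
    ring

theorem vf_v (t : A) (α β : KK Bool A) :
    vf t α β * dd (uv t false) - t • β = 0 := by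
  funext b
  cases b
  · change (t • β false) * ld (HahnSeries.single 1 1) - t • β false = 0
    have h1 : ld (HahnSeries.single 1 1 : LaurentSeries A) = 1 := by
      rw [ld_single]
      simp
    rw [h1, mul_one, sub_self]
  · change (t • α true - HahnSeries.single 1 1 * (HahnSeries.single 1 1 * β true +
        HahnSeries.single (-1) t * α true)) * ld (HahnSeries.single (-1) t) - t • β true = 0
    have h0 : ld (HahnSeries.single (-1) t : LaurentSeries A) =
        -(HahnSeries.single (-1) 1 * HahnSeries.single (-1) t) := by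
      rw [ld_single, HahnSeries.single_mul_single, ← HahnSeries.single_neg]
      congr 1
      push_cast
      ring
    have h1 : (HahnSeries.single 1 1 * HahnSeries.single (-1) 1 : LaurentSeries A) = 1 := by
      rw [HahnSeries.single_mul_single, mul_one]
      rfl
    have h2 : (HahnSeries.single 1 1 * HahnSeries.single (-1) t : LaurentSeries A) =
        HahnSeries.single 0 t := by
      rw [HahnSeries.single_mul_single, one_mul]
      rfl
    rw [h0, smul_eq, smul_eq]
    rw [← h2]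
    linear_combination (HahnSeries.single 1 1 * HahnSeries.single (-1) t * β true) * h1

theorem mem_Pol_of_Nt {t : A} {N : ℕ} (hN : t ^ N = 0) {F : KK Bool A} (hF : F ∈ Nt t) :
    F ∈ Pol Bool A N := by
  intro b m hm
  obtain ⟨j, rfl⟩ : ∃ j : ℕ, m = -((N + j : ℕ) : ℤ) := by
    refine ⟨(-m - N).toNat, ?_⟩
    push_cast
    omega
  rw [mem_Nt.1 hF b (N + j), pow_add, hN, zero_mul, zero_mul]

end PL6

open _root_.Pool.Agent.MG.G0.PL6 in
theorem t_PL6 (hAWK : Stmt_AWK) (hPL0 : Stmt_PL0) (hPL3 : Stmt_PL3) (hPL5 : Stmt_PL5) :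
    Stmt_PL6 := by
  clear hAWK
  intro I A _ _ _ h R hR hS pt hd t ht D hD
  obtain ⟨N, hN⟩ := ht
  obtain ⟨θ, α, β, hγ, key⟩ := hPL5 hR hS pt hd t ⟨N, hN⟩ D hD
  obtain ⟨hp1, -, huv, -, hpd, hdd, -, -⟩ := hPL0 t N hN
  obtain ⟨-, -, -, hden⟩ := hPL3 hR hS pt hd
  obtain ⟨θW, hθW, hclose⟩ := hden (vf t α β) ((2 * N + 1 : ℕ) : ℤ)
  refine ⟨t • θ + atI θW, fun f => ?_⟩
  obtain ⟨w, hw, hwf, hwN⟩ := mem_PT.1 f.2
  obtain ⟨G, hG⟩ := hpd _ hwN true
  obtain ⟨G', hG'⟩ := hpd _ hwN false
  obtain ⟨x, hx, h1, h2⟩ := key w hw hwN G G' hG hG' f hwf.symm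
  have hy : θW * dd w ∈ WJ pt := mem_TT.1 hθW w hw
  have h3 : t • x - θW * dd w ∈ WJ pt := sub_mem ((WJ pt).smul_mem hx t) hy
  have hddw : dd (atJ w) ∈ Pol Bool A ((N : ℤ) + 1) := dd_mem_Pol (mem_Pol_of_Nt hN hwN)
  have h4 : (atJ θW - vf t α β) * dd (atJ w) ∈ Nt t := by
    refine hp1 N le_rfl _ ?_
    refine Pol_mono ?_ (mul_mem_Pol hclose hddw)
    push_cast
    omega
  have h5 : vf t α β * dd (atJ w) - t • (G * α + G' * β) ∈ Nt t := by
    have e : vf t α β * dd (atJ w) - t • (G * α + G' * β) =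
        G * (-(uv t true * (uv t true * β + uv t false * α))) := by
      rw [hdd _ hwN G G' hG hG', ← vf_u, smul_add, ← mul_smul_comm, ← mul_smul_comm]
      linear_combination G' * vf_v t α β
    rw [e]
    exact mul_mem hG.mem (neg_mem (mul_mem (huv true) hγ))
  have h6 : atJ (t • x - θW * dd w) ∈ Nt t := by
    have e : atJ (t • x - θW * dd w) = t • (atJ x - (G * α + G' * β)) -
        (vf t α β * dd (atJ w) - t • (G * α + G' * β)) -
          (atJ θW - vf t α β) * dd (atJ w) := by
      have e0 : atJ (t • x - θW * dd w) = t • atJ x - atJ θW * dd (atJ w) := rfl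
      rw [e0, smul_sub]
      ring
    rw [e]
    exact sub_mem (sub_mem ((Nt t).smul_mem h2 t) h5) h4
  have h7 : atI (t • x - θW * dd w) ∈ PT pt t := mem_PT.2 ⟨_, h3, rfl, h6⟩
  have e : t • D f - (t • θ + atI θW) * dd (f : KK I A) =
      t • (D f - θ * dd (f : KK I A) - atI x) + atI (t • x - θW * dd w) := by
    have e0 : atI (t • x - θW * dd w) = t • atI x - atI θW * dd (f : KK I A) := by
      rw [← hwf]
      rfl
    rw [e0, smul_sub, smul_sub, add_mul, smul_mul_assoc]
    ring
  rw [e]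
  exact add_mem ((PT pt t).smul_mem h1 t) h7

end Pool.Agent.MG.G0


end
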