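import Mathlib
import Pool.Agent.KDM.C15
import Pool.Agent.KDM.C16
import Pool.Agent.KDM.C20
import Pool.Agent.KDM.C21
import Pool.Agent.KDM.C24
import Pool.Agent.KDM.C34

/-! Parts: MG.W.WRI, MG.W.WES, MG.H2.YHR, MG.H2.YRI, MG.G0.MEX -/

section

/-!
# WRI: Weierstrass families without cusps have no vector fields
-/

open CategoryTheory CategoryTheory.Limits AlgebraicGeometry TensorProduct

namespace Pool.Agent.MG.W

namespace WRI

/-- A derivation which kills the constants and both coordinates is zero. -/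
theorem der_zero {B : Type} [CommRing B] (I : Ideal (MvPolynomial (Fin 2) B))
    (D : (MvPolynomial (Fin 2) B ⧸ I) →+ (MvPolynomial (Fin 2) B ⧸ I))
    (hD : ∀ u v, D (u * v) = u * D v + v * D u)
    (hc : ∀ c : B, D (algebraMap B _ c) = 0)
    (h0 : D (Ideal.Quotient.mk I (MvPolynomial.X 0)) = 0)
    (h1 : D (Ideal.Quotient.mk I (MvPolynomial.X 1)) = 0)
    (v : MvPolynomial (Fin 2) B ⧸ I) : D v = 0 := by
  obtain ⟨p, rfl⟩ := Ideal.Quotient.mk_surjective v
  induction p using MvPolynomial.induction_on with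
  | C c => exact hc c
  | add p q hp hq => rw [map_add, map_add, hp, hq, add_zero]
  | mul_X p i hp =>
    rw [map_mul, hD, hp, mul_zero, add_zero]
    fin_cases i
    · exact (congrArg (fun t => Ideal.Quotient.mk I p * t) h0).trans (mul_zero _)
    · exact (congrArg (fun t => Ideal.Quotient.mk I p * t) h1).trans (mul_zero _)

/-- The coefficients. -/
theorem coeffs {K : Type} [Field K] {a b c d c' d' e' : K} (h6 : (6 : K) ≠ 0)
    (hab : a ≠ 0 ∨ b ≠ 0) (h3 : 2 * e' - 3 * d = 0) (h2 : 3 * c = 0)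
    (h1 : 2 * e' * a - a * d = 0) (h0 : 2 * e' * b - a * c = 0) (q0 : 2 * c' = 0)
    (q1 : 2 * d' = 0) : c = 0 ∧ d = 0 ∧ c' = 0 ∧ d' = 0 ∧ e' = 0 := by
  have n2 : (2 : K) ≠ 0 := fun h => h6 (by
    have : (6 : K) = 2 * 3 := by norm_num
    rw [this, h, zero_mul])
  have n3 : (3 : K) ≠ 0 := fun h => h6 (by
    have : (6 : K) = 2 * 3 := by norm_num
    rw [this, h, mul_zero])
  have hc : c = 0 := (mul_eq_zero.1 h2).resolve_left n3
  have hc' : c' = 0 := (mul_eq_zero.1 q0).resolve_left n2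
  have hd' : d' = 0 := (mul_eq_zero.1 q1).resolve_left n2
  have had : 2 * (a * d) = 0 := by linear_combination h1 - a * h3
  have had' : a * d = 0 := (mul_eq_zero.1 had).resolve_left n2
  have hbd : 3 * (b * d) = 0 := by
    rw [hc] at h0
    linear_combination h0 - b * h3
  have hbd' : b * d = 0 := (mul_eq_zero.1 hbd).resolve_left n3
  have hd : d = 0 := by
    rcases hab with h | h
    · exact (mul_eq_zero.1 had').resolve_left h
    · exact (mul_eq_zero.1 hbd').resolve_left h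
  have he : e' = 0 := by
    have : 2 * e' = 0 := by
      rw [hd] at h3
      linear_combination h3
    exact (mul_eq_zero.1 this).resolve_left n2
  exact ⟨hc, hd, hc', hd', he⟩

theorem cubic {K : Type} [Field K] (p3 p2 p1 p0 : K)
    (h : (0 : Polynomial K) = Polynomial.C p3 * Polynomial.X ^ 3 +
      Polynomial.C p2 * Polynomial.X ^ 2 + Polynomial.C p1 * Polynomial.X + Polynomial.C p0) :
    p3 = 0 ∧ p2 = 0 ∧ p1 = 0 ∧ p0 = 0 := by
  have k3 := congrArg (fun p => Polynomial.coeff p 3) h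
  have k2 := congrArg (fun p => Polynomial.coeff p 2) h
  have k1 := congrArg (fun p => Polynomial.coeff p 1) h
  have k0 := congrArg (fun p => Polynomial.coeff p 0) h
  simp [Polynomial.coeff_X, Polynomial.coeff_C, Polynomial.coeff_X_pow] at k3 k2 k1 k0
  exact ⟨k3.symm, k2.symm, k1.symm, k0.symm⟩

theorem linear {K : Type} [Field K] (p1 p0 : K)
    (h : (0 : Polynomial K) = Polynomial.C p1 * Polynomial.X + Polynomial.C p0) :
    p1 = 0 ∧ p0 = 0 := by
  have k1 := congrArg (fun p => Polynomial.coeff p 1) h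
  have k0 := congrArg (fun p => Polynomial.coeff p 0) h
  simp [Polynomial.coeff_X, Polynomial.coeff_C] at k1 k0
  exact ⟨k1.symm, k0.symm⟩

/-- Compatible derivations of the three rings vanish. -/
theorem alg {K : Type} [Field K] (a b : K) (h6 : (6 : K) ≠ 0) (hab : a ≠ 0 ∨ b ≠ 0)
    (hW : Stmt_WRG) (D1 : A1 K a b →+ A1 K a b) (D2 : A2 K a b →+ A2 K a b)
    (D12 : A12 K a b →+ A12 K a b)
    (l1 : ∀ u v, D1 (u * v) = u * D1 v + v * D1 u)
    (c1 : ∀ c : K, D1 (algebraMap K _ c) = 0)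
    (l2 : ∀ u v, D2 (u * v) = u * D2 v + v * D2 u)
    (c2 : ∀ c : K, D2 (algebraMap K _ c) = 0)
    (l12 : ∀ u v, D12 (u * v) = u * D12 v + v * D12 u)
    (r1 : ∀ v, D12 (g1 K a b v) = g1 K a b (D1 v))
    (r2 : ∀ v, D12 (g2 K a b v) = g2 K a b (D2 v))
    (s2 : ∀ v, inf2 K a b (D2 v) = 0) : (∀ v, D1 v = 0) ∧ ∀ v, D2 v = 0 := by
  obtain ⟨w1, w2, w3, w4, -, -, w7, w8⟩ := hW K a b
  have mem : ∀ v, D2 v ∈ Ideal.span {z2 K a b} := by
    intro v
    have h := w2 (D2 v)
    rwa [s2, map_zero, sub_zero] at h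
  obtain ⟨r, hr⟩ := Ideal.mem_span_singleton'.1 (mem (z2 K a b))
  obtain ⟨s, hs⟩ := Ideal.mem_span_singleton'.1 (mem (t2 K a b))
  obtain ⟨ti, hti⟩ := (t2_unit K a b).exists_right_inv
  have hX := g1_x K a b
  have hY := g1_y K a b
  push_cast at hX hY
  have hz : (zu K a b : A12 K a b) * ((zu K a b)⁻¹ : (A12 K a b)ˣ).val = 1 := Units.mul_inv _
  have ht : (tu K a b : A12 K a b) * ((tu K a b)⁻¹ : (A12 K a b)ˣ).val = 1 := Units.mul_inv _
  have hzv := zu_val K a b
  have htv := tu_val K a b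
  have hTi : (tu K a b : A12 K a b) * g2 K a b ti = 1 := by
    rw [htv, ← map_mul, hti, map_one]
  have hZ : D12 (zu K a b : A12 K a b) = g2 K a b r * (zu K a b : A12 K a b) := by
    rw [hzv, r2, ← hr, map_mul]
  have hT : D12 (tu K a b : A12 K a b) = g2 K a b s * (zu K a b : A12 K a b) := by
    rw [htv, hzv, r2, ← hs, map_mul]
  have hone : D12 1 = 0 := by
    have h := l12 1 1
    rw [one_mul, one_mul] at h
    linear_combination -h
  generalize ((zu K a b)⁻¹ : (A12 K a b)ˣ).val = zi at *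
  generalize ((tu K a b)⁻¹ : (A12 K a b)ˣ).val = tj at *
  have hXt : g1 K a b (x1 K a b) * (zu K a b : A12 K a b) ^ 2 * (tu K a b : A12 K a b) = 1 := by
    rw [hX]
    have : zi ^ 2 * tj * (zu K a b : A12 K a b) ^ 2 * (tu K a b : A12 K a b) =
      ((zu K a b : A12 K a b) * zi) ^ 2 * ((tu K a b : A12 K a b) * tj) := by ring
    rw [this, hz, ht]
    ring
  have hYt : g1 K a b (y1 K a b) * (zu K a b : A12 K a b) ^ 3 * (tu K a b : A12 K a b) = 1 := by
    rw [hY]
    have : zi ^ 3 * tj * (zu K a b : A12 K a b) ^ 3 * (tu K a b : A12 K a b) =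
      ((zu K a b : A12 K a b) * zi) ^ 3 * ((tu K a b : A12 K a b) * tj) := by ring
    rw [this, hz, ht]
    ring
  have hYX : g1 K a b (y1 K a b) * (zu K a b : A12 K a b) = g1 K a b (x1 K a b) := by
    rw [hY, hX]
    have : zi ^ 3 * tj * (zu K a b : A12 K a b) =
      ((zu K a b : A12 K a b) * zi) * (zi ^ 2 * tj) := by ring
    rw [this, hz, one_mul]
  have hD2 : D12 ((zu K a b : A12 K a b) ^ 2) =
      2 * (zu K a b : A12 K a b) * D12 (zu K a b : A12 K a b) := by
    rw [pow_two, l12]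
    ring
  have hD3 : D12 ((zu K a b : A12 K a b) ^ 3) =
      3 * (zu K a b : A12 K a b) ^ 2 * D12 (zu K a b : A12 K a b) := by
    rw [pow_succ, l12, hD2]
    ring
  have eX := congrArg D12 hXt
  rw [hone, l12, l12, hD2, r1] at eX
  have eY := congrArg D12 hYt
  rw [hone, l12, l12, hD3, r1] at eY
  have eXZ : g1 K a b (x1 K a b) * (zu K a b : A12 K a b) ^ 2 = g2 K a b ti := by
    linear_combination g2 K a b ti * hXt -
      g1 K a b (x1 K a b) * (zu K a b : A12 K a b) ^ 2 * hTi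
  have eYZ : g1 K a b (y1 K a b) * (zu K a b : A12 K a b) ^ 3 = g2 K a b ti := by
    linear_combination g2 K a b ti * hYt -
      g1 K a b (y1 K a b) * (zu K a b : A12 K a b) ^ 3 * hTi
  have fX : (zu K a b : A12 K a b) ^ 2 * g1 K a b (D1 (x1 K a b)) =
      g2 K a b (-(ti * (ti * (s * z2 K a b) + 2 * r))) := by
    have e : g2 K a b (-(ti * (ti * (s * z2 K a b) + 2 * r))) = -(g2 K a b ti *
      (g2 K a b ti * (g2 K a b s * (zu K a b : A12 K a b)) + 2 * g2 K a b r)) := by
      rw [hzv]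
      simp only [map_neg, map_mul, map_add, map_ofNat]
    rw [e]
    rw [hZ, hT] at eX
    linear_combination g2 K a b ti * eX -
      (zu K a b : A12 K a b) ^ 2 * g1 K a b (D1 (x1 K a b)) * hTi -
      g2 K a b ti * g2 K a b s * (zu K a b : A12 K a b) * eXZ -
      2 * g2 K a b r * (g1 K a b (x1 K a b) * (zu K a b : A12 K a b) ^ 2 * hTi + eXZ)
  have fY : (zu K a b : A12 K a b) ^ 3 * g1 K a b (D1 (y1 K a b)) =
      g2 K a b (-(ti * (ti * (s * z2 K a b) + 3 * r))) := by
    have e : g2 K a b (-(ti * (ti * (s * z2 K a b) + 3 * r))) = -(g2 K a b ti *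
      (g2 K a b ti * (g2 K a b s * (zu K a b : A12 K a b)) + 3 * g2 K a b r)) := by
      rw [hzv]
      simp only [map_neg, map_mul, map_add, map_ofNat]
    rw [e]
    rw [hZ, hT] at eY
    linear_combination g2 K a b ti * eY -
      (zu K a b : A12 K a b) ^ 3 * g1 K a b (D1 (y1 K a b)) * hTi -
      g2 K a b ti * g2 K a b s * (zu K a b : A12 K a b) * eYZ -
      3 * g2 K a b r * (g1 K a b (y1 K a b) * (zu K a b : A12 K a b) ^ 3 * hTi + eYZ)
  obtain ⟨c, d, hx⟩ := w7 _ _ fX
  obtain ⟨c', d', e', hy⟩ := w8 _ _ fY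
  have hrel := congrArg D1 (rel1 K a b)
  have hx2 : D1 (x1 K a b ^ 2) = 2 * x1 K a b * D1 (x1 K a b) := by
    rw [pow_two, l1]
    ring
  have hx3 : D1 (x1 K a b ^ 3) = 3 * x1 K a b ^ 2 * D1 (x1 K a b) := by
    rw [pow_succ, l1, hx2]
    ring
  have hy2 : D1 (y1 K a b ^ 2) = 2 * y1 K a b * D1 (y1 K a b) := by
    rw [pow_two, l1]
    ring
  rw [map_add, map_add, c1, hx3, hy2, l1, c1, mul_zero, add_zero, add_zero, hx, hy] at hrel
  have hr1 := rel1 K a b
  have hpq := w1 0
  have h00 : (0 : A1 K a b) = Polynomial.aeval (x1 K a b) (0 : Polynomial K) +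
      Polynomial.aeval (x1 K a b) (0 : Polynomial K) * y1 K a b := by simp
  have hpq2 : (0 : A1 K a b) = Polynomial.aeval (x1 K a b)
      (Polynomial.C (2 * e' - 3 * d) * Polynomial.X ^ 3 +
        Polynomial.C (-(3 * c)) * Polynomial.X ^ 2 +
        Polynomial.C (2 * e' * a - a * d) * Polynomial.X +
        Polynomial.C (2 * e' * b - a * c)) +
      Polynomial.aeval (x1 K a b) (Polynomial.C (2 * d') * Polynomial.X +
        Polynomial.C (2 * c')) * y1 K a b := by
    simp only [map_add, map_sub, map_mul, map_pow, map_neg, Polynomial.aeval_X,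
      Polynomial.aeval_C, map_ofNat]
    linear_combination -hrel + 2 * algebraMap K (A1 K a b) e' * hr1
  have huniq := hpq.unique (y₁ := (0, 0)) (y₂ := (_, _)) h00 hpq2
  have hp : (0 : Polynomial K) = Polynomial.C (2 * e' - 3 * d) * Polynomial.X ^ 3 +
        Polynomial.C (-(3 * c)) * Polynomial.X ^ 2 +
        Polynomial.C (2 * e' * a - a * d) * Polynomial.X +
        Polynomial.C (2 * e' * b - a * c) := congrArg Prod.fst huniq
  have hq : (0 : Polynomial K) = Polynomial.C (2 * d') * Polynomial.X +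
        Polynomial.C (2 * c') := congrArg Prod.snd huniq
  obtain ⟨k3, k2, k1, k0⟩ := cubic _ _ _ _ hp
  obtain ⟨m1, m0⟩ := linear _ _ hq
  obtain ⟨zc, zd, zc', zd', ze'⟩ := coeffs h6 hab k3 (neg_eq_zero.1 k2) k1 k0 m0 m1
  have hx0 : D1 (x1 K a b) = 0 := by rw [hx, zc, zd, map_zero, zero_mul, add_zero]
  have hy0 : D1 (y1 K a b) = 0 := by
    rw [hy, zc', zd', ze', map_zero, zero_mul, zero_mul, add_zero, add_zero]
  have hDX : D12 (g1 K a b (x1 K a b)) = 0 := by rw [r1, hx0, map_zero]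
  have hDY : D12 (g1 K a b (y1 K a b)) = 0 := by rw [r1, hy0, map_zero]
  have hDZ : D12 (zu K a b : A12 K a b) = 0 := by
    have h := congrArg D12 hYX
    rw [l12, hDX, hDY, mul_zero, add_zero] at h
    linear_combination (zu K a b : A12 K a b) ^ 3 * (tu K a b : A12 K a b) * h -
      D12 (zu K a b : A12 K a b) * hYt
  have hDT : D12 (tu K a b : A12 K a b) = 0 := by
    rw [hx0, map_zero, hDZ] at eX
    linear_combination (tu K a b : A12 K a b) * eX - D12 (tu K a b : A12 K a b) * hXt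
  refine ⟨der_zero _ D1 l1 c1 hx0 hy0, der_zero _ D2 l2 c2 ?_ ?_⟩
  · apply w3
    rw [map_zero, ← hDZ, hzv]
    exact (r2 (z2 K a b)).symm
  · apply w3
    rw [map_zero, ← hDT, htv]
    exact (r2 (t2 K a b)).symm

section geo

variable {A : Type} [CommRing A] {n : ℕ} {K : Type} [Field K] {F : Fam n K} (v : VField F)
  (i : Sp A ⟶ F.X) [IsOpenImmersion i]

/-- Functions on the range of an affine chart. -/
noncomputable def ev : Γ(F.X, i.opensRange) ≃+* A :=
  RingEquiv.ofBijective (evO i i.opensRange (range_pre i))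
    (evO_bij i (range_pre i) (fun _ hx => hx))

theorem ev_apply (f : Γ(F.X, i.opensRange)) :
    ev i f = evO i i.opensRange (range_pre i) f := rfl

/-- The derivation of an affine chart. -/
noncomputable def der : A →+ A :=
  (ev i).toAddEquiv.toAddMonoidHom.comp
    ((v.D i.opensRange).comp (ev i).symm.toAddEquiv.toAddMonoidHom)

theorem der_apply (f : A) : der v i f = ev i (v.D i.opensRange ((ev i).symm f)) := rfl

theorem der_mul (f g : A) : der v i (f * g) = f * der v i g + g * der v i f := by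
  rw [der_apply, der_apply, der_apply, map_mul, v.mul, map_add, map_mul, map_mul,
    RingEquiv.apply_symm_apply, RingEquiv.apply_symm_apply]

theorem der_const (ψ : K →+* A) (hψ : i ≫ F.π = spMap ψ) (c : K) : der v i (ψ c) = 0 := by
  have h : (ev i).symm (ψ c) = coef F.π i.opensRange c := by
    rw [RingEquiv.symm_apply_eq, ev_apply]
    exact (evO_coef i F.π ψ hψ (range_pre i) c).symm
  rw [der_apply, h, v.const, map_zero]

/-- Compatibility with restriction. -/
theorem der_res {A' : Type} [CommRing A'] (g : A →+* A') (j : Sp A' ⟶ F.X)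
    [IsOpenImmersion j] (hj : j = spMap g ≫ i) (f : A) : der v j (g f) = g (der v i f) := by
  subst hj
  have hle : (spMap g ≫ i).opensRange ≤ i.opensRange := by
    rintro _ ⟨p, rfl⟩
    exact ⟨spMap g p, by simp⟩
  have hr : ∀ u : Γ(F.X, i.opensRange), ev (spMap g ≫ i) (rs F.X hle u) = g (ev i u) := by
    intro u
    have h' : ⊤ ≤ (spMap g ≫ i) ⁻¹ᵁ i.opensRange := by
      intro p _
      exact ⟨spMap g p, by simp⟩
    rw [ev_apply, ev_apply, evO_rs (spMap g ≫ i) hle (range_pre _) h' u]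
    exact evO_spMap i g (range_pre i) h' u
  have h1 : (ev (spMap g ≫ i)).symm (g f) = rs F.X hle ((ev i).symm f) := by
    rw [RingEquiv.symm_apply_eq, hr, RingEquiv.apply_symm_apply]
  rw [der_apply, h1, RIG.dres, hr, ← der_apply]

/-- Values at a section. -/
theorem der_sec (l : Fin n) (g : A →+* K) (hl : F.σ l = spMap g ≫ i) (f : A) :
    g (der v i f) = 0 := by
  have h' : ⊤ ≤ (spMap g ≫ i) ⁻¹ᵁ i.opensRange := by
    intro p _
    exact ⟨spMap g p, by simp⟩
  have h := v.sec i.opensRange l ((ev i).symm f)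
  rw [hl] at h
  have h2 : evO (spMap g ≫ i) i.opensRange h' (v.D i.opensRange ((ev i).symm f)) = 0 := by
    have h3 : ((spMap g ≫ i).appLE i.opensRange ⊤ h').hom
        (v.D i.opensRange ((ev i).symm f)) = 0 :=
      (congrArg ((Sp K).presheaf.map (homOfLE h').op).hom h).trans (map_zero _)
    unfold evO
    rw [RingHom.comp_apply, h3, map_zero]
  rw [der_apply, ev_apply, ← evO_spMap i g (range_pre i) h', h2]

theorem der_zero_iff (h : ∀ f, der v i f = 0) : v.D i.opensRange = 0 := by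
  ext s
  have h1 := h (ev i s)
  rw [der_apply, RingEquiv.symm_apply_apply] at h1
  exact (map_eq_zero_iff _ (ev i).injective).1 h1

end geo

end WRI

open _root_.Pool.Agent.MG.W.WRI in
theorem t_WRI (hWRG : Stmt_WRG) : Stmt_WRI := by
  intro m K _ P h6 hab v U
  let i1 : Sp (A1 K P.a P.b) ⟶ (Wei P).X := WX.in1 K P.a P.b
  let i2 : Sp (A2 K P.a P.b) ⟶ (Wei P).X := WX.in2 K P.a P.b
  have o1 : IsOpenImmersion i1 := inferInstanceAs (IsOpenImmersion (WX.in1 K P.a P.b))
  have o2 : IsOpenImmersion i2 := inferInstanceAs (IsOpenImmersion (WX.in2 K P.a P.b))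
  have hcond : spMap (g1 K P.a P.b) ≫ i1 = spMap (g2 K P.a P.b) ≫ i2 := pushout.condition
  have o12 : IsOpenImmersion (spMap (g1 K P.a P.b) ≫ i1) := inferInstance
  have hπ1 : i1 ≫ (Wei P).π = spMap (algebraMap K _) := WX.in1_pr K P.a P.b
  have hπ2 : i2 ≫ (Wei P).π = spMap (algebraMap K _) := WX.in2_pr K P.a P.b
  obtain ⟨z1, z2⟩ := alg P.a P.b h6 hab hWRG (der v i1) (der v i2)
    (der v (spMap (g1 K P.a P.b) ≫ i1)) (der_mul v i1) (der_const v i1 _ hπ1) (der_mul v i2)
    (der_const v i2 _ hπ2) (der_mul v _) (der_res v i1 (g1 K P.a P.b) _ rfl)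
    (der_res v i2 (g2 K P.a P.b) _ hcond) (der_sec v i2 0 (inf2 K P.a P.b) rfl)
  exact RIG.all0 v (glue2_range (spMap (g1 K P.a P.b)) (spMap (g2 K P.a P.b)))
    (isAffineOpen_opensRange i1) (isAffineOpen_opensRange i2) (der_zero_iff v i1 z1)
    (der_zero_iff v i2 z2) U

end Pool.Agent.MG.W


end

section

/-!
# WE: every thickening of a Weierstrass family is a Weierstrass family
-/

open CategoryTheory CategoryTheory.Limits AlgebraicGeometry TensorProduct

namespace Pool.Agent.MG.W.WES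

open Pool.Agent.MG.GLU Pool.Agent.MG.KSU

section

variable {m : ℕ} {B E J : Type} [CommRing B] [CommRing E] [Fintype J] {S : SqE B E J} (P : WD m B)

/-- the affine chart -/
noncomputable def w1 : Sp (A1 B P.a P.b) ⟶ (Wei P).X := WX.in1 B P.a P.b

/-- the chart at infinity -/
noncomputable def w2 : Sp (A2 B P.a P.b) ⟶ (Wei P).X := WX.in2 B P.a P.b

/-- the intersection -/
noncomputable def w12 : Sp (A12 B P.a P.b) ⟶ (Wei P).X := spMap (g1 B P.a P.b) ≫ w1 P

instance o1 : IsOpenImmersion (w1 P) := inferInstanceAs (IsOpenImmersion (WX.in1 B P.a P.b))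

instance o2 : IsOpenImmersion (w2 P) := inferInstanceAs (IsOpenImmersion (WX.in2 B P.a P.b))

instance o12 : IsOpenImmersion (w12 P) := by
  unfold w12
  infer_instance

theorem w12_2 : w12 P = spMap (g2 B P.a P.b) ≫ w2 P :=
  pushout.condition (f := spMap (g1 B P.a P.b)) (g := spMap (g2 B P.a P.b))

theorem w1_π : w1 P ≫ (Wei P).π = spMap (algebraMap B _) := WX.in1_pr B P.a P.b

theorem w2_π : w2 P ≫ (Wei P).π = spMap (algebraMap B _) := WX.in2_pr B P.a P.b

theorem w12_π : w12 P ≫ (Wei P).π = spMap (algebraMap B _) := by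
  unfold w12
  rw [Category.assoc, w1_π, spMap_comp']
  exact congrArg (fun f => spMap f) (RingHom.ext fun c => g1_b B P.a P.b c)

/-- the first open set -/
noncomputable def U1 : (Wei P).X.Opens := (w1 P).opensRange

/-- the second open set -/
noncomputable def U2 : (Wei P).X.Opens := (w2 P).opensRange

theorem U12 : (w12 P).opensRange = U1 P ⊓ U2 P :=
  (glue2_inter (spMap (g1 B P.a P.b)) (spMap (g2 B P.a P.b))).symm

theorem cov : U1 P ⊔ U2 P = ⊤ :=
  glue2_range (spMap (g1 B P.a P.b)) (spMap (g2 B P.a P.b))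

theorem aff1 : IsAffineOpen (U1 P) := isAffineOpen_opensRange _

theorem aff2 : IsAffineOpen (U2 P) := isAffineOpen_opensRange _

theorem aff12 : IsAffineOpen (U1 P ⊓ U2 P) := by
  rw [← U12]
  exact isAffineOpen_opensRange _

/-- functions on the first chart -/
noncomputable def m1 : Γ((Wei P).X, U1 P) →+* A1 B P.a P.b := gm (w1 P) (U1 P) (le_range _ rfl)

/-- functions on the second chart -/
noncomputable def m2 : Γ((Wei P).X, U2 P) →+* A2 B P.a P.b := gm (w2 P) (U2 P) (le_range _ rfl)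

/-- functions on the intersection -/
noncomputable def m12 : Γ((Wei P).X, U1 P ⊓ U2 P) →+* A12 B P.a P.b :=
  gm (w12 P) (U1 P ⊓ U2 P) (le_range _ (U12 P))

theorem b1 : Function.Bijective (m1 P) := gm_bij _ _ _ rfl

theorem b2 : Function.Bijective (m2 P) := gm_bij _ _ _ rfl

theorem b12 : Function.Bijective (m12 P) := gm_bij _ _ _ (U12 P)

theorem mr1 (v : Γ((Wei P).X, U1 P)) :
    m12 P (rs (Wei P).X inf_le_left v) = g1 B P.a P.b (m1 P v) :=
  gm_rs (w1 P) (g1 B P.a P.b) (w12 P) rfl inf_le_left _ _ v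

theorem mr2 (v : Γ((Wei P).X, U2 P)) :
    m12 P (rs (Wei P).X inf_le_right v) = g2 B P.a P.b (m2 P v) :=
  gm_rs (w2 P) (g2 B P.a P.b) (w12 P) (w12_2 P) inf_le_right _ _ v

theorem mc1 (c : B) : m1 P (coef (Wei P).π (U1 P) c) = algebraMap B _ c :=
  gm_coef _ _ _ (w1_π P) _ _ c

theorem mc2 (c : B) : m2 P (coef (Wei P).π (U2 P) c) = algebraMap B _ c :=
  gm_coef _ _ _ (w2_π P) _ _ c

theorem mc12 (c : B) : m12 P (coef (Wei P).π (U1 P ⊓ U2 P) c) = algebraMap B _ c :=
  gm_coef _ _ _ (w12_π P) _ _ c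

theorem sec0_eq : (Wei P).σ 0 = spMap (inf2 B P.a P.b) ≫ w2 P := rfl

theorem seci_eq (i : Fin m) : (Wei P).σ i.succ = spMap (pt1 P i) ≫ w1 P := rfl

theorem sec0 : ⊤ ≤ (Wei P).σ 0 ⁻¹ᵁ U2 P := by
  intro a _
  refine ⟨spMap (inf2 B P.a P.b) a, ?_⟩
  rw [← Scheme.Hom.comp_apply]
  rfl

theorem seci (i : Fin m) : ⊤ ≤ (Wei P).σ i.succ ⁻¹ᵁ U1 P := by
  intro a _
  refine ⟨spMap (pt1 P i) a, ?_⟩
  rw [← Scheme.Hom.comp_apply]
  rfl

theorem ev_inf (v : Γ((Wei P).X, U2 P)) : ev0 (x := Wei P) 0 (sec0 P) v =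
    inf2 B P.a P.b (m2 P v) :=
  gm_comp (w2 P) (inf2 B P.a P.b) ((Wei P).σ 0) (sec0_eq P) (U2 P) _ _ v

theorem ev_pt (i : Fin m) (v : Γ((Wei P).X, U1 P)) : ev0 (x := Wei P) i.succ (seci P i) v =
    pt1 P i (m1 P v) :=
  gm_comp (w1 P) (pt1 P i) ((Wei P).σ i.succ) (seci_eq P i) (U1 P) _ _ v

variable (t : Thk S (Wei P))

theorem good1 : Good t (U1 P) := goodAff t _ (t_AFF t _ (aff1 P))

theorem good2 : Good t (U2 P) := goodAff t _ (t_AFF t _ (aff2 P))

theorem good12 : Good t (U1 P ⊓ U2 P) := goodAff t _ (t_AFF t _ (aff12 P))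

/-- the ring data of the thickening -/
noncomputable def D : WData S P.a P.b where
  G1 := Γ(t.y.X, t.op (U1 P))
  G2 := Γ(t.y.X, t.op (U2 P))
  G12 := Γ(t.y.X, t.op (U1 P ⊓ U2 P))
  a1 := coef t.y.π (t.op (U1 P))
  a2 := coef t.y.π (t.op (U2 P))
  a12 := coef t.y.π (t.op (U1 P ⊓ U2 P))
  f1 := rs t.y.X (t.op_mono inf_le_left)
  f2 := rs t.y.X (t.op_mono inf_le_right)
  fa1 z := coef_rs _ _ z
  fa2 z := coef_rs _ _ z
  q1 := (m1 P).comp (t.q (U1 P))
  q2 := (m2 P).comp (t.q (U2 P))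
  q12 := (m12 P).comp (t.q (U1 P ⊓ U2 P))
  qa1 z := by
    change m1 P (t.q (U1 P) (coef t.y.π (t.op (U1 P)) z)) = _
    rw [t.q_coef, mc1]
  qa2 z := by
    change m2 P (t.q (U2 P) (coef t.y.π (t.op (U2 P)) z)) = _
    rw [t.q_coef, mc2]
  qa12 z := by
    change m12 P (t.q _ (coef t.y.π (t.op _) z)) = _
    rw [t.q_coef, mc12]
  qf1 v := by
    change m12 P (t.q _ (rs t.y.X (t.op_mono inf_le_left) v)) = g1 B P.a P.b (m1 P (t.q _ v))
    rw [t.q_rs inf_le_left, mr1]
  qf2 v := by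
    change m12 P (t.q _ (rs t.y.X (t.op_mono inf_le_right) v)) = g2 B P.a P.b (m2 P (t.q _ v))
    rw [t.q_rs inf_le_right, mr2]
  sur1 := (b1 P).2.comp (good1 P t).sur
  sur2 := (b2 P).2.comp (good2 P t).sur
  sur12 := (b12 P).2.comp (good12 P t).sur
  ker1 v hv := (good1 P t).ker v ((map_eq_zero_iff _ (b1 P).1).1 hv)
  ker2 v hv := (good2 P t).ker v ((map_eq_zero_iff _ (b2 P).1).1 hv)
  ker12 v hv := (good12 P t).ker v ((map_eq_zero_iff _ (b12 P).1).1 hv)
  un1 w hw j := by
    change m1 P (t.q (U1 P) (w j)) = 0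
    rw [(good1 P t).un w hw j, map_zero]
  un2 w hw j := by
    change m2 P (t.q (U2 P) (w j)) = 0
    rw [(good2 P t).un w hw j, map_zero]
  un12 w hw j := by
    change m12 P (t.q _ (w j)) = 0
    rw [(good12 P t).un w hw j, map_zero]
  inf := t.ev 0 (sec0 P)
  infa z := t.ev_coef 0 (sec0 P) z
  infq v := (t.p_ev 0 (sec0 P) v).trans (ev_inf P (t.q (U2 P) v))

variable {P t}

theorem red_piece {R R' : Type} [CommRing R] [CommRing R'] {U : (Wei P).X.Opens}
    (w : Sp R ⟶ (Wei P).X) (hw : ⊤ ≤ w ⁻¹ᵁ U) (hU' : IsAffineOpen (t.op U))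
    (e : R' ≃+* Γ(t.y.X, t.op U)) (u : R' →+* R)
    (h : ∀ v, gm w U hw (t.q U (e v)) = u v) :
    w ≫ t.r.f = spMap u ≫ ww hU' e.symm := by
  have hle : ⊤ ≤ (w ≫ t.r.f) ⁻¹ᵁ (t.op U) := by
    intro a ha
    have h1 : w a ∈ t.r.f ⁻¹ᵁ (t.op U) := by
      rw [t.pre]
      exact hw ha
    change (w ≫ t.r.f) a ∈ t.op U
    rw [Scheme.Hom.comp_apply]
    exact h1
  refine ww_eq hU' e.symm _ hle _ fun v => ?_
  have h1 := gm_nat t.r.f (w ≫ t.r.f) w (RingHom.id R)
    (spMap_id_comp _).symm (t.op U) U hle hw (t.pre U).ge v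
  have h2 : gm (w ≫ t.r.f) (t.op U) hle v = gm w U hw (t.q U v) := h1.symm
  rw [h2]
  have h3 := h (e.symm v)
  rw [e.apply_symm_apply] at h3
  exact h3

theorem rs_piece {R R' : Type} [CommRing R] [CommRing R'] {U U' : (Wei P).X.Opens} (hUU : U' ≤ U)
    (hU : IsAffineOpen (t.op U)) (hU' : IsAffineOpen (t.op U'))
    (e : R ≃+* Γ(t.y.X, t.op U)) (e' : R' ≃+* Γ(t.y.X, t.op U')) (g : R →+* R')
    (h : ∀ v, rs t.y.X (t.op_mono hUU) (e v) = e' (g v)) :
    ww hU' e'.symm = spMap g ≫ ww hU e.symm := by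
  have hl : ⊤ ≤ ww hU' e'.symm ⁻¹ᵁ (t.op U) :=
    (ww_le hU' e'.symm).trans fun _ hx => t.op_mono hUU hx
  refine ww_eq hU e.symm _ hl _ fun v => ?_
  have h1 := gm_rs (ww hU' e'.symm) (RingHom.id R') (ww hU' e'.symm) (spMap_id_comp _).symm
    (W := t.op U) (W' := t.op U') (t.op_mono hUU) hl (ww_le hU' e'.symm) v
  rw [ww_gm] at h1
  have h2 : gm (ww hU' e'.symm) (t.op U) hl v = e'.symm (rs t.y.X (t.op_mono hUU) v) := h1.symm
  rw [h2, RingEquiv.symm_apply_eq]
  have h3 := h (e.symm v)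
  rw [e.apply_symm_apply] at h3
  exact h3

theorem sec_piece (i : Fin (m + 1)) {R : Type} [CommRing R] {U : (Wei P).X.Opens}
    (hs : ⊤ ≤ (Wei P).σ i ⁻¹ᵁ U) (hU : IsAffineOpen (t.op U)) (e : R ≃+* Γ(t.y.X, t.op U))
    (u : R →+* E) (h : ∀ v, t.ev i hs (e v) = u v) : t.y.σ i = spMap u ≫ ww hU e.symm := by
  refine ww_eq hU e.symm (t.y.σ i) (t.sec_le i hs) _ fun v => ?_
  change t.ev i hs v = u (e.symm v)
  rw [← h, e.apply_symm_apply]

end

end Pool.Agent.MG.W.WES

namespace Pool.Agent.MG.W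

open Pool.Agent.MG.GLU Pool.Agent.MG.KSU WES

theorem t_WE (hWEA : Stmt_WEA) (_hWBC : Stmt_WBC) : Stmt_WE := by
  intro m B E J _ _ _ S P h6 t
  obtain ⟨a', b', ha, hb, e1, e2, e12, c1, c2, f1, f2, q1, q2, hinf⟩ :=
    hWEA S P.a P.b h6 (WES.D P t)
  let E1 : A1 E a' b' ≃+* Γ(t.y.X, t.op (U1 P)) := e1
  let E2 : A2 E a' b' ≃+* Γ(t.y.X, t.op (U2 P)) := e2
  let E12 : A12 E a' b' ≃+* Γ(t.y.X, t.op (U1 P ⊓ U2 P)) := e12
  have F1 := t_AFF t _ (aff1 P)
  have F2 := t_AFF t _ (aff2 P)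
  have F12 := t_AFF t _ (aff12 P)
  have k1 : ww F12 E12.symm = spMap (g1 E a' b') ≫ ww F1 E1.symm :=
    rs_piece inf_le_left F1 F12 E1 E12 (g1 E a' b') f1
  have k2 : ww F12 E12.symm = spMap (g2 E a' b') ≫ ww F2 E2.symm :=
    rs_piece inf_le_right F2 F12 E2 E12 (g2 E a' b') f2
  have r1 : (ww F1 E1.symm).opensRange = t.op (U1 P) := ww_range F1 E1.symm
  have r2 : (ww F2 E2.symm).opensRange = t.op (U2 P) := ww_range F2 E2.symm
  have r12 : (ww F12 E12.symm).opensRange = t.op (U1 P ⊓ U2 P) := ww_range F12 E12.symm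
  have comm : spMap (g1 E a' b') ≫ ww F1 E1.symm = spMap (g2 E a' b') ≫ ww F2 E2.symm := by
    rw [← k1, k2]
  -- the thickening is the push out of the charts
  have push : IsPushout (spMap (g1 E a' b')) (spMap (g2 E a' b')) (ww F1 E1.symm)
      (ww F2 E2.symm) := by
    refine glue_push comm ?_ ?_
    · intro z
      have hz : z ∈ t.op (U1 P) ⊔ t.op (U2 P) := by
        rw [← t.op_sup, cov, t.op_top]
        trivial
      rcases hz with hz | hz
      · left
        have h1 : z ∈ (ww F1 E1.symm).opensRange := by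
          rw [r1]
          exact hz
        exact h1
      · right
        have h1 : z ∈ (ww F2 E2.symm).opensRange := by
          rw [r2]
          exact hz
        exact h1
    · intro x y hxy
      have h1 : ww F1 E1.symm x ∈ t.op (U1 P) := le_range _ r1 (show x ∈ ⊤ by trivial)
      have h2 : ww F2 E2.symm y ∈ t.op (U2 P) := le_range _ r2 (show y ∈ ⊤ by trivial)
      have h3 : ww F1 E1.symm x ∈ (ww F12 E12.symm).opensRange := by
        rw [r12, t.op_inf]
        exact ⟨h1, hxy ▸ h2⟩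
      obtain ⟨w, hw⟩ := h3
      refine ⟨w, ?_, ?_⟩
      · apply (ww F1 E1.symm).isOpenEmbedding.injective
        rw [← Scheme.Hom.comp_apply, ← k1]
        exact hw
      · apply (ww F2 E2.symm).isOpenEmbedding.injective
        rw [← Scheme.Hom.comp_apply, ← k2, ← hxy]
        exact hw
  let f : t.y.X ⟶ WX E a' b' := push.isoPushout.hom
  have hf1 : ww F1 E1.symm ≫ f = WX.in1 E a' b' := push.inl_isoPushout_hom
  have hf2 : ww F2 E2.symm ≫ f = WX.in2 E a' b' := push.inr_isoPushout_hom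
  have hfi : IsIso f := inferInstanceAs (IsIso push.isoPushout.hom)
  have hπ : f ≫ WX.pr E a' b' = t.y.π := by
    apply push.hom_ext
    · rw [← Category.assoc, hf1, WX.in1_pr]
      refine (ww_π F1 E1.symm t.y.π _ fun c => ?_).symm
      rw [RingEquiv.symm_apply_eq]
      exact (c1 c).symm
    · rw [← Category.assoc, hf2, WX.in2_pr]
      refine (ww_π F2 E2.symm t.y.π _ fun c => ?_).symm
      rw [RingEquiv.symm_apply_eq]
      exact (c2 c).symm
  -- the affine points
  let φ : Fin m → (A1 E a' b' →+* E) := fun i =>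
    (t.ev i.succ (seci P i)).comp (E1 : A1 E a' b' →+* Γ(t.y.X, t.op (U1 P)))
  have hφ : ∀ i c, φ i (algebraMap E _ c) = c := by
    intro i c
    change t.ev i.succ (seci P i) (e1 (algebraMap E _ c)) = c
    rw [c1]
    exact t.ev_coef i.succ (seci P i) c
  let P' : WD m E :=
    { a := a'
      b := b'
      x := fun i => φ i (x1 E a' b')
      y := fun i => φ i (y1 E a' b')
      eq := fun i => by
        have h1 := congrArg (φ i) (rel1 E a' b')
        rw [map_add, map_add, map_mul, map_pow, map_pow, hφ, hφ] at h1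
        exact h1 }
  have hpt : ∀ i, pt1 P' i = φ i := by
    intro i
    refine hom1_ext (fun c => ?_) ?_ ?_
    · rw [hφ]
      exact lift1_b (RingHom.id E) _ _ _ c
    · exact lift1_x (RingHom.id E) _ _ _
    · exact lift1_y (RingHom.id E) _ _ _
  have hpx : ∀ i v, S.p (φ i v) = pt1 P i (bc1 S.p ha hb v) := by
    intro i v
    have h1 := t.p_ev i.succ (seci P i) (E1 v)
    have h2 := ev_pt P i (t.q (U1 P) (E1 v))
    have h3 : m1 P (t.q (U1 P) (E1 v)) = bc1 S.p ha hb v := q1 v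
    rw [h3] at h2
    exact h1.trans h2
  have hbc : WD.Bc S.p P' P := by
    refine ⟨ha, hb, fun i => ?_, fun i => ?_⟩
    · have h1 := hpx i (x1 E a' b')
      rw [bc1_x] at h1
      exact (h1.trans (lift1_x (RingHom.id B) _ _ _)).symm
    · have h1 := hpx i (y1 E a' b')
      rw [bc1_y] at h1
      exact (h1.trans (lift1_y (RingHom.id B) _ _ _)).symm
  have hid : spMap (RingHom.id E) = 𝟙 _ := Spec.map_id _
  refine ⟨P', hbc, ⟨f, ?_, ?_⟩, ?_⟩
  · have : IsIso (spMap (RingHom.id E)) := by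
      rw [hid]
      infer_instance
    refine IsPullback.of_horiz_isIso ⟨?_⟩
    rw [hid, Category.comp_id]
    exact hπ
  · intro i
    rw [hid, Category.id_comp]
    refine Fin.cases ?_ (fun i => ?_) i
    · have h1 : t.y.σ 0 = spMap (inf2 E a' b') ≫ ww F2 E2.symm :=
        sec_piece 0 (sec0 P) F2 E2 _ hinf
      change t.y.σ 0 ≫ f = spMap (inf2 E a' b') ≫ WX.in2 E a' b'
      rw [h1, Category.assoc, hf2]
    · have h1 : t.y.σ i.succ = spMap (φ i) ≫ ww F1 E1.symm :=
        sec_piece i.succ (seci P i) F1 E1 _ fun v => rfl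
      change t.y.σ i.succ ≫ f = spMap (pt1 P' i) ≫ WX.in1 E a' b'
      rw [h1, Category.assoc, hf1, hpt]
  · refine WX.ext' ?_ ?_
    · change WX.in1 B P.a P.b ≫ t.r.f ≫ f = WX.in1 B P.a P.b ≫ WX.map S.p ha hb
      have h1 : w1 P ≫ t.r.f = spMap (bc1 S.p ha hb) ≫ ww F1 E1.symm :=
        red_piece (w1 P) (le_range _ rfl) F1 E1 _ q1
      have h2 : WX.in1 B P.a P.b ≫ t.r.f = spMap (bc1 S.p ha hb) ≫ ww F1 E1.symm := h1
      rw [WX.in1_map, ← Category.assoc, h2, Category.assoc, hf1]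
    · change WX.in2 B P.a P.b ≫ t.r.f ≫ f = WX.in2 B P.a P.b ≫ WX.map S.p ha hb
      have h1 : w2 P ≫ t.r.f = spMap (bc2 S.p ha hb) ≫ ww F2 E2.symm :=
        red_piece (w2 P) (le_range _ rfl) F2 E2 _ q2
      have h2 : WX.in2 B P.a P.b ≫ t.r.f = spMap (bc2 S.p ha hb) ≫ ww F2 E2.symm := h1
      rw [WX.in2_map, ← Category.assoc, h2, Category.assoc, hf2]

end Pool.Agent.MG.W


end

section

/-!
# YHR: the curve `y² = f(x)` has no vector fields
-/

open CategoryTheory CategoryTheory.Limits AlgebraicGeometry TensorProduct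

namespace Pool.Agent.MG.H2

namespace YHR

open W.WRI

/-- An additive map with the Leibniz rule which kills the constants is a derivation. -/
noncomputable def mkDer {K A : Type} [Field K] [CommRing A] [Algebra K A] (D : A →+ A)
    (hl : ∀ u v, D (u * v) = u * D v + v * D u) (hc : ∀ c : K, D (algebraMap K A c) = 0) :
    Derivation K A A :=
  Derivation.mk' { D with
    map_smul' := by
      intro c a
      change D (c • a) = c • D a
      rw [Algebra.smul_def, hl, hc, mul_zero, add_zero, Algebra.smul_def] } (by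
    intro a b
    exact hl a b)

theorem mkDer_apply {K A : Type} [Field K] [CommRing A] [Algebra K A] (D : A →+ A)
    (hl : ∀ u v, D (u * v) = u * D v + v * D u) (hc : ∀ c : K, D (algebraMap K A c) = 0) (a : A) :
    mkDer D hl hc a = D a := rfl

section

variable {K : Type} [Field K] {f : Fin 7 → K}

theorem toLaurent_pp : Polynomial.toLaurent (pp K f) = lpol K f := by
  rw [pp, pol_map, lpol]
  congr 1
  · funext i
    exact Polynomial.toLaurent_C _
  · exact Polynomial.toLaurent_X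

theorem lpol_ne (h : IsCoprime (pp K f) (Polynomial.derivative (pp K f))) : lpol K f ≠ 0 := by
  intro h0
  rw [← toLaurent_pp] at h0
  have h1 : pp K f = 0 := Polynomial.toLaurent_injective (by rw [h0, map_zero])
  rw [h1, Polynomial.derivative_zero] at h
  obtain ⟨a, b, hab⟩ := h
  rw [mul_zero, mul_zero, add_zero] at hab
  exact zero_ne_one hab

/-- `y` is not a zero divisor. -/
theorem y_cancel (h : IsCoprime (pp K f) (Polynomial.derivative (pp K f))) {a : A12 K f}
    (ha : yv K f * a = 0) : a = 0 := by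
  have h1 : ev K f (lpol K f) * a = 0 := by
    rw [ev_lpol, pow_two, mul_assoc, ha, mul_zero]
  have h2 : ∀ i : Fin 2, lco (i : ℕ) a = 0 := by
    intro i
    have h3 := lco_ev_mul i (lpol K f) a
    rw [h1, map_zero] at h3
    exact (mul_eq_zero.1 h3.symm).resolve_left (lpol_ne h)
  refine lco_ext ?_ ?_
  · rw [map_zero]
    exact h2 0
  · rw [map_zero]
    exact h2 1

theorem cg_const (c : K) : cg 0 (algebraMap K (A12 K f) c) = c := by
  have h := cg_mono (f := f) c 0 0
  rw [zpow_zero, Units.val_one, mul_one, if_pos rfl] at h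
  exact h

end

/-- Compatible derivations of the three rings vanish. -/
theorem alg {K : Type} [Field K] (f : Fin 7 → K) (hDA : Stmt_YDA) (hf : HSm K f)
    (D1 : A1 K f →+ A1 K f) (D2 : A2 K f →+ A2 K f) (D12 : A12 K f →+ A12 K f)
    (l1 : ∀ u v, D1 (u * v) = u * D1 v + v * D1 u)
    (c1 : ∀ c : K, D1 (algebraMap K _ c) = 0)
    (l2 : ∀ u v, D2 (u * v) = u * D2 v + v * D2 u)
    (c2 : ∀ c : K, D2 (algebraMap K _ c) = 0)
    (l12 : ∀ u v, D12 (u * v) = u * D12 v + v * D12 u)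
    (r1 : ∀ v, D12 (g1 K f v) = g1 K f (D1 v))
    (r2 : ∀ v, D12 (g2 K f v) = g2 K f (D2 v)) : (∀ v, D1 v = 0) ∧ ∀ v, D2 v = 0 := by
  have n2 : (2 : K) ≠ 0 := hf.two.ne_zero
  obtain ⟨w, hw1, hw2⟩ := hDA f n2 hf.s1 (mkDer D1 l1 c1)
  obtain ⟨w', hw3, hw4⟩ := hDA (rev f) n2 hf.s2 (mkDer D2 l2 c2)
  rw [mkDer_apply] at hw1 hw2 hw3 hw4
  have hone : D12 1 = 0 := by
    have h := l12 1 1
    rw [one_mul, one_mul] at h
    linear_combination -h
  have hX : (xu K f : A12 K f) * ((xu K f)⁻¹ : (A12 K f)ˣ).val = 1 := Units.mul_inv _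
  have hprod : g1 K f (x1 K f) * g2 K f (x1 K (rev f)) = 1 := by
    rw [g2_u, ← xu_val, hX]
  have h1 := congrArg D12 hprod
  rw [hone, l12, r1, r2, hw1, hw3, g2_u, ← xu_val] at h1
  have e1 : g1 K f (2 * y1 K f * w) = 2 * yv K f * g1 K f w := by
    rw [map_mul, map_mul, map_ofNat, g1_y]
  have e2 : g2 K f (2 * y1 K (rev f) * w') =
      2 * (yv K f * ((xu K f)⁻¹ ^ 3 : (A12 K f)ˣ).val) * g2 K f w' := by
    rw [map_mul, map_mul, map_ofNat, g2_v]
  rw [e1, e2, Units.val_pow_eq_pow_val] at h1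
  generalize hxi : ((xu K f)⁻¹ : (A12 K f)ˣ).val = xi' at *
  have h2 : yv K f * (algebraMap K (A12 K f) 2 * (xi' * g2 K f w' + g1 K f w)) = 0 := by
    have e3 : algebraMap K (A12 K f) 2 = 2 := map_ofNat _ 2
    rw [e3]
    linear_combination (xu K f : A12 K f) * h1 - (2 * yv K f * g1 K f w +
      2 * yv K f * xi' * g2 K f w' * ((xu K f : A12 K f) * xi' + 1)) * hX
  have h3 := y_cancel hf.s1 h2
  have h4 : xi' * g2 K f w' + g1 K f w = 0 := by
    have e4 : algebraMap K (A12 K f) (2⁻¹) * algebraMap K (A12 K f) 2 = 1 := by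
      rw [← map_mul, inv_mul_cancel₀ n2, map_one]
    linear_combination algebraMap K (A12 K f) (2⁻¹) * h3 - (xi' * g2 K f w' + g1 K f w) * e4
  have h5 : g1 K f (x1 K f * w) = g2 K f (-w') := by
    rw [map_mul, ← xu_val, map_neg]
    linear_combination (xu K f : A12 K f) * h4 - g2 K f w' * hX
  obtain ⟨c, hc1, hc2⟩ := g12_const h5
  have hc0 : c = 0 := by
    have h6 : cg 0 (g1 K f (x1 K f * w)) = c := by
      rw [hc1, g1_b, cg_const]
    rw [← h6, map_mul, ← xu_val]
    have h7 := cg_x (f := f) 0 (g1 K f w)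
    rw [cg_g1 (by norm_num) w] at h7
    exact h7
  rw [hc0, map_zero] at hc1 hc2
  have hw0 : w = 0 := by
    apply g1_inj K f
    have h8 := congrArg (g1 K f) hc1
    rw [map_mul, ← xu_val, map_zero] at h8
    rw [map_zero]
    linear_combination xi' * h8 - g1 K f w * hX
  have hw0' : w' = 0 := neg_eq_zero.1 hc2
  rw [hw0, mul_zero] at hw1 hw2
  rw [hw0', mul_zero] at hw3 hw4
  exact ⟨der_zero _ D1 l1 c1 hw1 hw2, der_zero _ D2 l2 c2 hw3 hw4⟩

end YHR

open W.WRI in
theorem t_YHR (hDA : Stmt_YDA) : Stmt_YHR := by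
  intro K _ f hf v U
  let i1 : Sp (A1 K f) ⟶ (Hyp f).X := HX.in1 K f
  let i2 : Sp (A2 K f) ⟶ (Hyp f).X := HX.in2 K f
  have o1 : IsOpenImmersion i1 := inferInstanceAs (IsOpenImmersion (HX.in1 K f))
  have o2 : IsOpenImmersion i2 := inferInstanceAs (IsOpenImmersion (HX.in2 K f))
  have hcond : spMap (g1 K f) ≫ i1 = spMap (g2 K f) ≫ i2 := pushout.condition
  have o12 : IsOpenImmersion (spMap (g1 K f) ≫ i1) := inferInstance
  have hπ1 : i1 ≫ (Hyp f).π = spMap (algebraMap K _) := HX.in1_pr K f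
  have hπ2 : i2 ≫ (Hyp f).π = spMap (algebraMap K _) := HX.in2_pr K f
  obtain ⟨z1, z2⟩ := YHR.alg f hDA hf (der v i1) (der v i2)
    (der v (spMap (g1 K f) ≫ i1)) (der_mul v i1) (der_const v i1 _ hπ1) (der_mul v i2)
    (der_const v i2 _ hπ2) (der_mul v _) (der_res v i1 (g1 K f) _ rfl)
    (der_res v i2 (g2 K f) _ hcond)
  exact RIG.all0 v (glue2_range (spMap (g1 K f)) (spMap (g2 K f)))
    (isAffineOpen_opensRange i1) (isAffineOpen_opensRange i2) (der_zero_iff v i1 z1)
    (der_zero_iff v i2 z2) U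

end Pool.Agent.MG.H2


end

section

/-!
# YRI: the curve `YX K p 0` has no vector fields
-/

open CategoryTheory CategoryTheory.Limits AlgebraicGeometry TensorProduct

namespace Pool.Agent.MG.H2

namespace YRI

/-- Linear derivations from additive ones which kill the constants. -/
noncomputable def mkD {K A : Type} [Field K] [CommRing A] [Algebra K A] (D : A →+ A)
    (hD : ∀ u v, D (u * v) = u * D v + v * D u) (hc : ∀ c : K, D (algebraMap K A c) = 0) :
    Derivation K A A :=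
  Derivation.mk' { toFun := D
                   map_add' := map_add D
                   map_smul' := fun c u => by
                     rw [Algebra.smul_def, hD, hc, mul_zero, add_zero, RingHom.id_apply,
                       Algebra.smul_def] } fun a b => hD a b

theorem mkD_apply {K A : Type} [Field K] [CommRing A] [Algebra K A] (D : A →+ A)
    (hD : ∀ u v, D (u * v) = u * D v + v * D u) (hc : ∀ c : K, D (algebraMap K A c) = 0) (v : A) :
    mkD D hD hc v = D v := rfl

/-- The coefficient `p₃` is not zero. -/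
theorem p3 {K : Type} [Field K] (p : Fin 7 → K) (h : YOk K p 0) : p 3 ≠ 0 := by
  intro h3
  have hrel : NRel (fun i => RingHom.id K (p i)) (RingHom.id K 0) (0 : K) 0 0 0 := by
    constructor <;> simp
  have hK : liftN (RingHom.id K) 0 0 0 0 hrel (KN K p 0) = p 3 := by
    rw [KN, KK_map]
    simp [KK]
  have hE : liftN (RingHom.id K) 0 0 0 0 hrel (EN K p 0) = 0 := by
    rw [EN, EE_map]
    simp [EE]
  have h1 := h.sN.map (liftN (RingHom.id K) 0 0 0 0 hrel)
  rw [hK, hE, h3, isCoprime_zero_left] at h1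
  exact not_isUnit_zero h1

/-- A derivation of the localisation vanishes if it vanishes on the chart. -/
theorem der12 {K : Type} [Field K] (f : Fin 7 → K) (D : A12 K f →+ A12 K f)
    (hD : ∀ u v, D (u * v) = u * D v + v * D u) (h0 : ∀ v, D (g1 K f v) = 0) (w : A12 K f) :
    D w = 0 := by
  obtain ⟨⟨a, ⟨_, m, rfl⟩⟩, hs⟩ := IsLocalization.surj (Submonoid.powers (x1 K f)) w
  have e : ∀ b, D (algebraMap (A1 K f) (A12 K f) b) = 0 := h0
  have h1 := congrArg D hs
  rw [hD, e, e, mul_zero, zero_add] at h1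
  have hu : IsUnit (algebraMap (A1 K f) (A12 K f) (x1 K f ^ m)) :=
    IsLocalization.map_units (M := Submonoid.powers (x1 K f)) _ ⟨x1 K f ^ m, m, rfl⟩
  exact (hu.mul_right_eq_zero).1 h1

/-- Compatible derivations of the rings of the charts vanish. -/
theorem alg {K : Type} [Field K] (p : Fin 7 → K) (hp : YOk K p 0) (hRA : Stmt_YRA)
    (hNB : Stmt_YNB) (DT : TT K p 0 →+ TT K p 0) (DN : NN K p 0 →+ NN K p 0)
    (DQ : QQ K p 0 →+ QQ K p 0) (DTN : TN K p 0 →+ TN K p 0) (DQN : QN K p 0 →+ QN K p 0)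
    (lT : ∀ u v, DT (u * v) = u * DT v + v * DT u)
    (lN : ∀ u v, DN (u * v) = u * DN v + v * DN u)
    (lQ : ∀ u v, DQ (u * v) = u * DQ v + v * DQ u)
    (lTN : ∀ u v, DTN (u * v) = u * DTN v + v * DTN u)
    (lQN : ∀ u v, DQN (u * v) = u * DQN v + v * DQN u)
    (cT : ∀ c : K, DT (algebraMap K _ c) = 0)
    (cN : ∀ c : K, DN (algebraMap K _ c) = 0)
    (cQ : ∀ c : K, DQ (algebraMap K _ c) = 0)
    (rT : ∀ v, DTN (tT K p 0 v) = tT K p 0 (DT v))
    (rNT : ∀ v, DTN (nT K p 0 v) = nT K p 0 (DN v))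
    (rQ : ∀ v, DQN (qQ K p 0 v) = qQ K p 0 (DQ v))
    (rNQ : ∀ v, DQN (nQ K p 0 v) = nQ K p 0 (DN v)) :
    (∀ v, DT v = 0) ∧ (∀ v, DN v = 0) ∧ ∀ v, DQ v = 0 := by
  have h2 : (2 : K) ≠ 0 := hp.two.ne_zero
  have h3 : p 3 ≠ 0 := p3 p hp
  have cTN : ∀ c : K, DTN (algebraMap K (TN K p 0) c) = 0 := by
    intro c
    have h := rT (algebraMap K _ c)
    rw [cT, map_zero] at h
    exact h
  have cQN : ∀ c : K, DQN (algebraMap K (QN K p 0) c) = 0 := by
    intro c
    have h := rQ (algebraMap K _ c)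
    rw [cQ, map_zero] at h
    exact h
  have zT : ∀ v, DT v = 0 := by
    have h := hRA p h2 h3 hp.sT (mkD DT lT cT) (mkD DN lN cN) (mkD DTN lTN cTN) rT rNT
    intro v
    rw [← mkD_apply DT lT cT, h]
    rfl
  let DN' : NN K (rev p) 0 →+ NN K (rev p) 0 :=
    (swN (rev_h p) 0 : NN K p 0 →+* NN K (rev p) 0).toAddMonoidHom.comp
      (DN.comp (swN (rev_h' p) 0 : NN K (rev p) 0 →+* NN K p 0).toAddMonoidHom)
  have dN' : ∀ v, DN' v = swN (rev_h p) 0 (DN (swN (rev_h' p) 0 v)) := fun _ => rfl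
  have sw1 : ∀ v, swN (rev_h p) 0 (swN (rev_h' p) 0 v) = v := fun v =>
    congrArg (fun g => g v) (swN_swN (rev_h p) (rev_h' p))
  have lN' : ∀ u v, DN' (u * v) = u * DN' v + v * DN' u := by
    intro u v
    rw [dN', dN', dN', map_mul, lN, map_add, map_mul, map_mul, sw1, sw1]
  have cN' : ∀ c : K, DN' (algebraMap K _ c) = 0 := by
    intro c
    rw [dN', swN_c, cN, map_zero]
  have rNQ' : ∀ v, DQN (nT K (rev p) 0 v) = nT K (rev p) 0 (DN' v) := by
    intro v
    have h := rNQ (swN (rev_h' p) 0 v)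
    have e : ∀ w, nQ K p 0 w = nT K (rev p) 0 (swN (rev_h p) 0 w) := fun _ => rfl
    rw [e, e, sw1] at h
    rw [dN']
    exact h
  have zQ : ∀ v, DQ v = 0 := by
    have h := hRA (rev p) h2 h3 hp.sQ (mkD DQ lQ cQ) (mkD DN' lN' cN') (mkD DQN lQN cQN) rQ rNQ'
    intro v
    rw [← mkD_apply DQ lQ cQ, h]
    rfl
  have zTN : ∀ v, DTN v = 0 := der12 _ DTN lTN fun v => by
    have h := rT v
    rw [zT, map_zero] at h
    exact h
  have zQN : ∀ v, DQN v = 0 := der12 _ DQN lQN fun v => by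
    have h := rQ v
    rw [zQ, map_zero] at h
    exact h
  refine ⟨zT, fun v => ?_, zQ⟩
  obtain ⟨n1, n2⟩ := hNB K p 0
  have e1 : nT K p 0 (DN v) = 0 := by rw [← rNT, zTN]
  have e2 : nQ K p 0 (DN v) = 0 := by rw [← rNQ, zQN]
  obtain ⟨c, d, e, f, hv⟩ := n1 (DN v)
  rw [hv] at e1 e2
  obtain ⟨rfl, rfl, rfl, rfl⟩ := n2 c d e f e1 e2
  rw [hv]
  simp only [map_zero, mul_zero, zero_mul, add_zero]

/-- A vector field which vanishes on affine opens which cover vanishes. -/
theorem all0 {n : ℕ} {K : Type} [Field K] {x : Fam n K} (v : VField x)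
    (hc : ∀ p : x.X, ∃ W : x.X.Opens, IsAffineOpen W ∧ v.D W = 0 ∧ p ∈ W) (U : x.X.Opens) :
    v.D U = 0 := by
  have hloc : ∀ p : U, ∃ (V : x.X.Opens) (_ : V ≤ U), p.1 ∈ V ∧ v.D V = 0 := by
    intro p
    obtain ⟨W, a, h0, hp⟩ := hc p.1
    obtain ⟨f, hf, hpf⟩ := a.exists_basicOpen_le p hp
    exact ⟨_, hf, hpf, RIG.basic0 v a h0 f⟩
  choose V hV hpV hDV using hloc
  ext s
  refine x.X.sheaf.eq_of_locally_eq' V U (fun p => homOfLE (hV p)) ?_ _ _ ?_
  · intro p hp
    rw [TopologicalSpace.Opens.mem_iSup]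
    exact ⟨⟨p, hp⟩, hpV ⟨p, hp⟩⟩
  · intro p
    change rs x.X (hV p) (v.D U s) = rs x.X (hV p) 0
    rw [← RIG.dres, hDV, map_zero]
    rfl

end YRI

open _root_.Pool.Agent.MG.H2.YRI W.WRI in
theorem t_YRI (hRA : Stmt_YRA) (hNB : Stmt_YNB) : Stmt_YRI := by
  intro K _ p hp v U
  let iT : Sp (TT K p 0) ⟶ (Yam p 0).X := YX.inT K p 0
  let iN : Sp (NN K p 0) ⟶ (Yam p 0).X := YX.inN K p 0
  let iQ : Sp (QQ K p 0) ⟶ (Yam p 0).X := YX.inQ K p 0
  have oT : IsOpenImmersion iT := inferInstanceAs (IsOpenImmersion (YX.inT K p 0))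
  have oN : IsOpenImmersion iN := inferInstanceAs (IsOpenImmersion (YX.inN K p 0))
  have oQ : IsOpenImmersion iQ := inferInstanceAs (IsOpenImmersion (YX.inQ K p 0))
  have hcT : spMap (tT K p 0) ≫ iT = spMap (nT K p 0) ≫ iN := (YX.condT K p 0).symm
  have hcQ : spMap (qQ K p 0) ≫ iQ = spMap (nQ K p 0) ≫ iN := (YX.condQ K p 0).symm
  have oTN : IsOpenImmersion (spMap (tT K p 0) ≫ iT) := inferInstance
  have oQN : IsOpenImmersion (spMap (qQ K p 0) ≫ iQ) := inferInstance
  have hπT : iT ≫ (Yam p 0).π = spMap (algebraMap K _) := YX.inT_pr K p 0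
  have hπN : iN ≫ (Yam p 0).π = spMap (algebraMap K _) := YX.inN_pr K p 0
  have hπQ : iQ ≫ (Yam p 0).π = spMap (algebraMap K _) := YX.inQ_pr K p 0
  obtain ⟨zT, zN, zQ⟩ := alg p hp hRA hNB (der v iT) (der v iN) (der v iQ)
    (der v (spMap (tT K p 0) ≫ iT)) (der v (spMap (qQ K p 0) ≫ iQ))
    (der_mul v iT) (der_mul v iN) (der_mul v iQ) (der_mul v _) (der_mul v _)
    (der_const v iT _ hπT) (der_const v iN _ hπN) (der_const v iQ _ hπQ)
    (der_res v iT (tT K p 0) _ rfl) (der_res v iN (nT K p 0) _ hcT)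
    (der_res v iQ (qQ K p 0) _ rfl) (der_res v iN (nQ K p 0) _ hcQ)
  refine all0 v (fun q => ?_) U
  rcases YX.surj3 q with ⟨r, hr⟩ | ⟨r, hr⟩ | ⟨r, hr⟩
  · exact ⟨iT.opensRange, isAffineOpen_opensRange iT, der_zero_iff v iT zT, ⟨r, hr⟩⟩
  · exact ⟨iN.opensRange, isAffineOpen_opensRange iN, der_zero_iff v iN zN, ⟨r, hr⟩⟩
  · exact ⟨iQ.opensRange, isAffineOpen_opensRange iQ, der_zero_iff v iQ zQ, ⟨r, hr⟩⟩

end Pool.Agent.MG.H2


end

section

/-!
# MEX: homomorphisms to power series and formal points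
-/

open TensorProduct

namespace Pool.Agent.MG.G0

namespace MEX

section

variable {I B₀ A : Type} [CommRing B₀] [CommRing A]

/-- The base change is spanned by the images of the elements of the ring. -/
theorem span_bc (φ : B₀ →+* A) (R : Subalgebra B₀ (KK I B₀)) :
    Submodule.span A (Set.range (bcMap φ R)) = ⊤ := by
  rw [eq_top_iff]
  intro x _
  have h := mem_bc_span φ R x.2
  have h1 : (Submodule.span A (Set.range (bcMap φ R))).map (bc φ R).val.toLinearMap =
      Submodule.span A (kmap φ '' (R : Set (KK I B₀))) := by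
    rw [Submodule.map_span]
    congr 1
    ext f
    constructor
    · rintro ⟨_, ⟨r, rfl⟩, rfl⟩
      exact ⟨r, r.2, rfl⟩
    · rintro ⟨r, hr, rfl⟩
      exact ⟨_, ⟨⟨r, hr⟩, rfl⟩, rfl⟩
  rw [← h1] at h
  obtain ⟨y, hy, hyx⟩ := h
  have h2 : y = x := Subtype.ext hyx
  rwa [← h2]

theorem lin_mem (φ : B₀ →+* A) (R : Subalgebra B₀ (KK I B₀)) (L : bc φ R →ₗ[A] A) (J : Ideal A)
    (hL : ∀ r : R, L (bcMap φ R r) ∈ J) (x : bc φ R) : L x ∈ J := by
  have h : (⊤ : Submodule A (bc φ R)) ≤ Submodule.comap L J := by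
    rw [← span_bc φ R, Submodule.span_le]
    rintro _ ⟨r, rfl⟩
    exact hL r
  exact h Submodule.mem_top

theorem lin_sur (φ : B₀ →+* A) (R : Subalgebra B₀ (KK I B₀)) (L : bc φ R →ₗ[A] A)
    (h : Ideal.span (Set.range fun r : R => L (bcMap φ R r)) = ⊤) : ∃ x, L x = 1 := by
  have h1 : Ideal.span (Set.range fun r : R => L (bcMap φ R r)) ≤ LinearMap.range L := by
    refine Submodule.span_le.2 ?_
    rintro _ ⟨r, rfl⟩
    exact ⟨_, rfl⟩
  rw [h] at h1
  exact h1 Submodule.mem_top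

/-- The coefficient of `u`. -/
noncomputable def c1 {R : Subalgebra A (KK I A)} (h : R →ₐ[A] PowerSeries A) : R →ₗ[A] A :=
  (PowerSeries.coeff (R := A) 1).comp h.toLinearMap

theorem c1_apply {R : Subalgebra A (KK I A)} (h : R →ₐ[A] PowerSeries A) (x : R) :
    c1 h x = PowerSeries.coeff 1 (h x) := rfl

/-- The value. -/
noncomputable def c0 {R : Subalgebra A (KK I A)} (h : R →ₐ[A] PowerSeries A) : R →ₗ[A] A :=
  (PowerSeries.coeff (R := A) 0).comp h.toLinearMap

theorem c0_apply {R : Subalgebra A (KK I A)} (h : R →ₐ[A] PowerSeries A) (x : R) :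
    c0 h x = PowerSeries.constantCoeff (h x) :=
  PowerSeries.coeff_zero_eq_constantCoeff_apply _

variable [Algebra B₀ A]

theorem bcMap_algebraMap (R : Subalgebra B₀ (KK I B₀)) (b : B₀) :
    bcMap (algebraMap B₀ A) R (algebraMap B₀ R b) =
      algebraMap A (bc (algebraMap B₀ A) R) (algebraMap B₀ A b) :=
  Subtype.ext (kmap_algebraMap (algebraMap B₀ A) b)

end

end MEX

open _root_.Pool.Agent.MG.G0.MEX in
theorem t_MEX (hKBC : Stmt_KBC) (hKBT : Stmt_KBT) : Stmt_MEX := by
  intro I B₀ A _ _ _ _ _ h R hR _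
  refine ⟨fun p hp => ?_, fun pt => ?_, fun pt pt' hpt => ?_, fun pt p hpt => ?_⟩
  · obtain ⟨-, e, he⟩ := hKBT (B := A) hR
    let l : (A ⊗[B₀] R) →ₐ[A] PowerSeries A :=
      Algebra.TensorProduct.lift (Algebra.ofId A (PowerSeries A)) p fun _ _ => Commute.all _ _
    let q : bc (algebraMap B₀ A) R →ₐ[A] PowerSeries A := l.comp (e.symm : _ →ₐ[A] _)
    have he1 : ∀ r : R, e (1 ⊗ₜ r) = bcMap (algebraMap B₀ A) R r := fun r =>
      Subtype.ext ((he 1 r).trans (one_smul _ _))
    have hq : ∀ r : R, q (bcMap (algebraMap B₀ A) R r) = p r := by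
      intro r
      change l (e.symm (bcMap (algebraMap B₀ A) R r)) = p r
      rw [← he1, AlgEquiv.symm_apply_apply]
      change Algebra.TensorProduct.lift _ p _ (1 ⊗ₜ r) = p r
      rw [Algebra.TensorProduct.lift_tmul, map_one, one_mul]
    obtain ⟨x, hx⟩ := lin_sur (algebraMap B₀ A) R (c1 q) (by
      have h1 : (fun r : R => c1 q (bcMap (algebraMap B₀ A) R r)) =
          fun r : R => PowerSeries.coeff 1 (p r) := funext fun r => by
        rw [c1_apply, hq]
      rw [h1]
      exact hp)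
    exact ⟨⟨q, x, by
      rw [c1_apply] at hx
      rw [hx]
      exact isUnit_one⟩, hq⟩
  · let p : R →ₐ[B₀] PowerSeries A :=
      { (pt.h : bc (algebraMap B₀ A) R →+* PowerSeries A).comp (bcMap (algebraMap B₀ A) R) with
        commutes' := fun b => by
          change pt.h (bcMap (algebraMap B₀ A) R (algebraMap B₀ R b)) = _
          rw [bcMap_algebraMap, pt.h.commutes]
          exact (IsScalarTower.algebraMap_apply B₀ A (PowerSeries A) b).symm }
    have hp : ∀ r : R, pt.h (bcMap (algebraMap B₀ A) R r) = p r := fun r => rfl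
    refine ⟨p, ?_, hp⟩
    have h1 := lin_mem (algebraMap B₀ A) R (c1 pt.h)
      (Ideal.span (Set.range fun r : R => PowerSeries.coeff 1 (p r)))
      (fun r => Ideal.subset_span ⟨r, rfl⟩) pt.x
    exact Ideal.eq_top_of_isUnit_mem _ h1 pt.par
  · have h1 : pt.h.toLinearMap = pt'.h.toLinearMap := by
      refine LinearMap.ext_on (span_bc (algebraMap B₀ A) R) ?_
      rintro _ ⟨r, rfl⟩
      exact hpt r
    exact AlgHom.ext fun x => LinearMap.congr_fun h1 x
  · set L : bc (algebraMap B₀ A) R →ₗ[A] A := c0 (pt true).h - c0 (pt false).h with hL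
    have hL1 : ∀ r : R, L (bcMap (algebraMap B₀ A) R r) =
        PowerSeries.constantCoeff (p true r) - PowerSeries.constantCoeff (p false r) := by
      intro r
      rw [hL, LinearMap.sub_apply, c0_apply, c0_apply, hpt, hpt]
    constructor
    · intro hd
      have h1 : (1 : bc (algebraMap B₀ A) R) ∈ (pt true).id ⊔ (pt false).id := by
        rw [hd true false (by decide)]
        exact Submodule.mem_top
      obtain ⟨a, ha, b, hb, hab⟩ := Submodule.mem_sup.1 h1
      rw [FPt.mem_id, FPt.ev] at ha hb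
      have h2 : L a = -1 := by
        have h3 : a = 1 - b := by rw [← hab, add_sub_cancel_right]
        have h4 : PowerSeries.constantCoeff ((pt false).h a) = 1 := by
          rw [h3, map_sub, map_sub, hb, map_one, map_one, sub_zero]
        rw [hL, LinearMap.sub_apply, c0_apply, c0_apply, ha, h4, zero_sub]
      have h3 := lin_mem (algebraMap B₀ A) R L
        (Ideal.span (Set.range fun r : R => PowerSeries.constantCoeff (p true r) -
          PowerSeries.constantCoeff (p false r)))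
        (fun r => by
          rw [hL1]
          exact Ideal.subset_span ⟨r, rfl⟩) a
      rw [h2] at h3
      exact Ideal.eq_top_of_isUnit_mem _ h3 isUnit_one.neg
    · intro hd
      obtain ⟨x, hx⟩ := lin_sur (algebraMap B₀ A) R L (by
        have h1 : (fun r : R => L (bcMap (algebraMap B₀ A) R r)) =
            fun r : R => PowerSeries.constantCoeff (p true r) -
              PowerSeries.constantCoeff (p false r) := funext hL1
        rw [h1]
        exact hd)
      have key : (pt true).id ⊔ (pt false).id = ⊤ := by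
        rw [Ideal.eq_top_iff_one, Submodule.mem_sup]
        have hmem : ∀ b, x - algebraMap A _ ((pt b).ev x) ∈ (pt b).id := by
          intro b
          rw [FPt.mem_id, FPt.ev, map_sub, map_sub, AlgHom.commutes]
          change _ - PowerSeries.constantCoeff (PowerSeries.C ((pt b).ev x)) = 0
          rw [PowerSeries.constantCoeff_C]
          exact sub_self _
        refine ⟨_, neg_mem (hmem true), _, hmem false, ?_⟩
        have h1 : (pt true).ev x - (pt false).ev x = 1 := by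
          rw [← hx, hL, LinearMap.sub_apply, c0_apply, c0_apply]
          rfl
        have h2 : algebraMap A (bc (algebraMap B₀ A) R) ((pt true).ev x) -
            algebraMap A (bc (algebraMap B₀ A) R) ((pt false).ev x) = 1 := by
          rw [← map_sub, h1, map_one]
        rw [← h2]
        ring
      intro j k hjk
      rcases j <;> rcases k
      · exact absurd rfl hjk
      · rw [sup_comm]
        exact key
      · exact key
      · exact absurd rfl hjk

end Pool.Agent.MG.G0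


end
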