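import Mathlib
import Pool.Agent.KDM.C16
import Pool.Agent.KDM.C24

/-! Parts: MG.BRA, MG.BRAW, MG.G0.MCM -/

section

/-!
# BRA: rigidity of the nodal curve, algebra
-/

set_option linter.unusedSectionVars false

open CategoryTheory CategoryTheory.Limits AlgebraicGeometry TensorProduct

namespace Pool.Agent.MG

namespace BRA

open Polynomial

section

variable {K : Type} [Field K]

/-- A vector field on the line which extends to the other end and vanishes at two points. -/
theorem poly (r p : K[X]) (h0 : r.eval 0 = 0) (h1 : r.eval 1 = 0)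
    (h : LaurentPolynomial.invert (toLaurent r) =
      - (LaurentPolynomial.T (-1) * toLaurent p)) : r = 0 ∧ p = 0 := by
  have e1 : X * r.reverse = - (X ^ r.natDegree * p) := by
    apply Polynomial.toLaurent_injective
    rw [map_mul, map_neg, map_mul, map_pow, Polynomial.toLaurent_X,
      LaurentPolynomial.toLaurent_reverse, h, LaurentPolynomial.T_pow, mul_one]
    have h2 : LaurentPolynomial.T (R := K) 1 * LaurentPolynomial.T (-1) = 1 := by
      rw [← LaurentPolynomial.T_add]
      simp
    calc LaurentPolynomial.T 1 * (-(LaurentPolynomial.T (-1) * toLaurent p) *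
          LaurentPolynomial.T (r.natDegree : ℤ)) =
        - ((LaurentPolynomial.T 1 * LaurentPolynomial.T (-1)) *
          (LaurentPolynomial.T (r.natDegree : ℤ) * toLaurent p)) := by ring
      _ = _ := by rw [h2, one_mul]
  have hr : r = 0 := by
    by_contra hne
    have h3 := congrArg (fun f => f.coeff 1) e1
    simp only [coeff_X_mul, coeff_neg] at h3
    have h4 : r.reverse.coeff 0 = r.leadingCoeff := Polynomial.coeff_zero_reverse r
    rw [h4, coeff_X_pow_mul'] at h3
    have h5 : r.natDegree ≤ 1 := by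
      by_contra h6
      rw [if_neg h6, neg_zero] at h3
      exact hne (leadingCoeff_eq_zero.1 h3)
    have h6 := Polynomial.eq_X_add_C_of_natDegree_le_one h5
    rw [h6] at h0 h1
    simp only [eval_add, eval_mul, eval_C, eval_X, mul_zero, zero_add, mul_one] at h0 h1
    rw [h0, add_zero] at h1
    rw [h0, h1] at h6
    apply hne
    rw [h6]
    simp
  refine ⟨hr, ?_⟩
  rw [hr] at e1
  simp at e1
  exact e1

end


section

variable {K A : Type} [CommRing K] [CommRing A] {i : K →+* A} {D : A →+ A}

theorem der_one (hD : IsDer i D) : D 1 = 0 := by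
  have := hD.const 1
  rwa [map_one] at this

end

section

variable {n : ℕ} {k : Type} [Field k] {Cv : Fam n k} {T : TC k} (ch : Cht Cv T) (j : Fin n)
  (K : Type) [Field K] [Algebra k K] (b : K) (hb : b = 0)

/-- Induction for the first chart ring. -/
theorem N1_ind {P : N1 ch j K b → Prop}
    (h1 : ∀ a : K ⊗[k] T.R1, P (algebraMap (K ⊗[k] T.R1) (N1 ch j K b) a))
    (h2 : P (nw _ _)) (h3 : ∀ u v, P u → P v → P (u + v)) (h4 : ∀ u v, P u → P v → P (u * v))
    (u : N1 ch j K b) : P u := by
  obtain ⟨F, rfl⟩ := AdjoinRoot.mk_surjective u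
  induction F using Polynomial.induction_on with
  | C a => exact h1 a
  | add p q hp hq => rw [map_add]; exact h3 _ _ hp hq
  | monomial m a h =>
    rw [pow_succ, ← mul_assoc, map_mul]
    exact h4 _ _ h h2

/-- The map of the ring of the intersection to the Laurent polynomials. -/
noncomputable def toL : MR (zB ch j K) (b ⊗ₜ[k] (1 : T.R1)) →+* LaurentPolynomial K :=
  IsLocalization.Away.lift (nw (zB ch j K) (b ⊗ₜ[k] (1 : T.R1)))
    (g := (toLaurent (R := K)).comp (toW ch j K b hb)) (by
      rw [RingHom.comp_apply, toW_w, toLaurent_X]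
      exact LaurentPolynomial.isUnit_T 1)

theorem toL_of (u : N1 ch j K b) :
    toL ch j K b hb (algebraMap (N1 ch j K b) _ u) = toLaurent (toW ch j K b hb u) :=
  IsLocalization.Away.lift_eq _ _ _

theorem toL_inv : toL ch j K b hb (mInv _ _) = LaurentPolynomial.T (-1) := by
  have h := congrArg (toL ch j K b hb) (mInv_rel (zB ch j K) (b ⊗ₜ[k] (1 : T.R1)))
  rw [map_mul, toL_of, toW_w, toLaurent_X, map_one] at h
  have h2 : LaurentPolynomial.T (R := K) (-1) * LaurentPolynomial.T 1 = 1 := by
    rw [← LaurentPolynomial.T_add]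
    simp
  calc toL ch j K b hb (mInv _ _) = (LaurentPolynomial.T (R := K) (-1) * LaurentPolynomial.T 1) *
        toL ch j K b hb (mInv _ _) := by rw [h2, one_mul]
    _ = LaurentPolynomial.T (R := K) (-1) *
        (LaurentPolynomial.T 1 * toL ch j K b hb (mInv _ _)) := by ring
    _ = _ := by rw [h, mul_one]

theorem toL_swap (u : N2 ch j K b) :
    toL ch j K b hb (swapN _ _ u) = LaurentPolynomial.invert (toLaurent (toY ch j K b hb u)) := by
  have h : (toL ch j K b hb).comp (swapN _ _) =
      ((LaurentPolynomial.invert (R := K) : _ →+* _).comp (toLaurent (R := K))).comp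
        (toY ch j K b hb) := by
    apply nr_hom_ext
    · intro a
      simp only [RingHom.comp_apply]
      rw [swapN_of, algebraMap_MR, toL_of, toW_of, toY_of]
      simp
    · simp only [RingHom.comp_apply]
      rw [swapN_w, toL_inv, toY_w]
      simp
  exact congrArg (fun f => f u) h

end

end BRA

open _root_.Pool.Agent.MG.BRA in
theorem t_BRA : Stmt_BRA := by
  intro n k _ C T ch hyp j K _ _ b hb D1 D2 D3 D12 DM d1 d2 d3 d12 dM e1 e2 e3 e4 v0 v1
  -- step 1
  have hZw := N1_zw ch j K b hb
  have hD := d1.mul (algebraMap _ (N1 ch j K b) (zB ch j K)) (nw _ _)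
  rw [hZw, map_zero] at hD
  have hA : toA ch j K b hb (D1 (nw _ _)) = 0 := by
    have h := congrArg (toA ch j K b hb) hD
    rw [map_zero, map_add, map_mul, map_mul, toA_of, toA_w, zero_mul, add_zero] at h
    exact zB_reg ch j K _ h.symm
  have hWz : toW ch j K b hb (algebraMap _ (N1 ch j K b) (zB ch j K)) = 0 := by
    rw [toW_of, evB_z, map_zero]
  have hW : toW ch j K b hb (D1 (algebraMap _ (N1 ch j K b) (zB ch j K))) = 0 := by
    have h := congrArg (toW ch j K b hb) hD
    rw [map_zero, map_add, map_mul, map_mul, hWz, toW_w, zero_mul, zero_add] at h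
    exact (mul_eq_zero.1 h.symm).resolve_left Polynomial.X_ne_zero
  obtain ⟨v, hv⟩ := toA_ker ch j K b hb _ hA
  -- step 3
  have hinv : DM (mInv _ _) = - (mInv _ _ * mInv _ _ * algebraMap (N1 ch j K b) _ (D1 (nw _ _))) := by
    have h1 := dM.mul (algebraMap (N1 ch j K b) _ (nw _ _)) (mInv _ _)
    rw [mInv_rel, der_one dM, e1] at h1
    have h2 : DM (mInv _ _) = (algebraMap (N1 ch j K b) _ (nw _ _) * mInv _ _) * DM (mInv _ _) := by
      rw [mInv_rel, one_mul]
    calc DM (mInv _ _) = mInv _ _ * (algebraMap (N1 ch j K b) _ (nw _ _) * DM (mInv _ _)) := by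
          conv_lhs => rw [h2]
          ring
      _ = mInv _ _ * (0 - mInv _ _ * algebraMap (N1 ch j K b) _ (D1 (nw _ _))) := by
          rw [h1]; ring
      _ = _ := by ring
  have hL := congrArg (toL ch j K b hb) ((e2 (nw _ _)).symm.trans (by rw [swapN_w, hinv]))
  rw [toL_swap, map_neg, map_mul, map_mul, toL_inv, toL_of, hv, map_mul, toW_w, map_mul,
    Polynomial.toLaurent_X] at hL
  have hT : LaurentPolynomial.T (R := K) (-1) * LaurentPolynomial.T 1 = 1 := by
    rw [← LaurentPolynomial.T_add]
    simp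
  obtain ⟨hr, hp⟩ := poly _ _ (v0 (nw _ _)) (v1 (nw _ _)) (hL.trans (by
    rw [show LaurentPolynomial.T (R := K) (-1) * LaurentPolynomial.T (-1) *
      (LaurentPolynomial.T 1 * Polynomial.toLaurent (toW ch j K b hb v)) =
      (LaurentPolynomial.T (R := K) (-1) * LaurentPolynomial.T 1) *
      (LaurentPolynomial.T (-1) * Polynomial.toLaurent (toW ch j K b hb v)) by ring, hT, one_mul]))
  have hD2w : D2 (nw _ _) = 0 := by
    apply (toY_bijective ch j K b hb).1
    rw [hr, map_zero]
  have hWw : toW ch j K b hb (D1 (nw _ _)) = 0 := by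
    rw [hv, map_mul, hp, mul_zero]
  -- D2 = 0
  have hD2 : D2 = 0 := by
    ext u
    have key : ∀ (P : Polynomial K) (u : N2 ch j K b), toY ch j K b hb u = P → D2 u = 0 := by
      intro P
      induction P using Polynomial.induction_on with
      | C c =>
        intro u hu
        have : u = algebraMap (K ⊗[k] T.R1) (N2 ch j K b) (inL k K T.R1 c) := by
          apply (toY_bijective ch j K b hb).1
          rw [hu, toY_of, inL_apply, evB_tmul, map_one, map_one, mul_one]
        rw [this]
        exact d2.const c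
      | add p q hp hq =>
        intro u hu
        obtain ⟨x, hx⟩ := (toY_bijective ch j K b hb).2 p
        obtain ⟨y, hy⟩ := (toY_bijective ch j K b hb).2 q
        have : u = x + y := by
          apply (toY_bijective ch j K b hb).1
          rw [hu, map_add, hx, hy]
        rw [this, map_add, hp x hx, hq y hy, add_zero]
      | monomial m c h =>
        intro u hu
        obtain ⟨x, hx⟩ := (toY_bijective ch j K b hb).2 (Polynomial.C c * Polynomial.X ^ m)
        have : u = x * nw _ _ := by
          apply (toY_bijective ch j K b hb).1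
          rw [hu, map_mul, hx, toY_w, pow_succ, mul_assoc]
        rw [this, d2.mul, hD2w, h x hx, mul_zero, mul_zero, add_zero]
    exact key _ u rfl
  -- the exceptional line
  have hWall : ∀ u, toW ch j K b hb (D1 u) = 0 := by
    refine N1_ind (P := fun u => toW ch j K b hb (D1 u) = 0) ch j K b ?_ ?_ ?_ ?_
    · intro a
      obtain ⟨c, hc⟩ := evB_gen ch j K a
      have h1 : algebraMap (K ⊗[k] T.R1) (N1 ch j K b) a =
          algebraMap (K ⊗[k] T.R1) (N1 ch j K b) (inL k K T.R1 (evB ch j K a)) +
          algebraMap (K ⊗[k] T.R1) (N1 ch j K b) (zB ch j K) *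
            algebraMap (K ⊗[k] T.R1) (N1 ch j K b) c := by
        rw [← map_mul, ← map_add, inL_apply, ← hc]
      rw [h1, map_add, d1.mul]
      have h2 : D1 (algebraMap (K ⊗[k] T.R1) (N1 ch j K b) (inL k K T.R1 (evB ch j K a))) = 0 :=
        d1.const _
      rw [h2, zero_add, map_add, map_mul, map_mul, hWz, hW, zero_mul, mul_zero, add_zero]
    · exact hWw
    · intro u v hu hv
      rw [map_add, map_add, hu, hv, add_zero]
    · intro u v hu hv
      rw [d1.mul, map_add, map_mul, map_mul, hu, hv, mul_zero, mul_zero, add_zero]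
  -- the proper transform
  let E : K ⊗[k] T.R1 →+ K ⊗[k] T.R1 :=
    { toFun := fun a => toA ch j K b hb (D1 (algebraMap _ (N1 ch j K b) a))
      map_zero' := by simp
      map_add' := fun x y => by simp }
  have hE : ∀ a, E a = toA ch j K b hb (D1 (algebraMap _ (N1 ch j K b) a)) := fun _ => rfl
  obtain ⟨hE0, hD3⟩ := RIG.alg ch.inj2 hyp E D3 D12 (by
      intro x y
      rw [hE, hE, hE, map_mul, d1.mul, map_add, map_mul, map_mul, toA_of, toA_of]) (by
      intro c
      rw [hE]
      have h2 : D1 (algebraMap (K ⊗[k] T.R1) (N1 ch j K b) (inL k K T.R1 c)) = 0 := d1.const _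
      rw [inL_apply] at h2
      rw [h2, map_zero]) d3.mul d3.const d12.mul d12.const (by
      intro a
      have h := e3 (algebraMap _ (N1 ch j K b) a)
      rw [toA_of] at h
      exact h) (fun a => e4 a)
  have hAall : ∀ u, toA ch j K b hb (D1 u) = 0 := by
    refine N1_ind (P := fun u => toA ch j K b hb (D1 u) = 0) ch j K b ?_ ?_ ?_ ?_
    · intro a
      have := DFunLike.congr_fun hE0 a
      exact this
    · exact hA
    · intro u v hu hv
      rw [map_add, map_add, hu, hv, add_zero]
    · intro u v hu hv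
      rw [d1.mul, map_add, map_mul, map_mul, hu, hv, mul_zero, mul_zero, add_zero]
  refine ⟨?_, hD2, hD3⟩
  ext u
  exact toAW_injective ch j K b hb _ (hAall u) (hWall u)

end Pool.Agent.MG


end

section

/-!
# BRAW: rigidity of the nodal curve, algebra, weak form
-/

set_option linter.unusedSectionVars false

open CategoryTheory CategoryTheory.Limits AlgebraicGeometry TensorProduct

namespace Pool.Agent.MG

namespace BRAW

section

variable {n : ℕ} {k : Type} [Field k] {Cv : Fam n k} {T : TC k} (ch : Cht Cv T) (j : Fin n)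
  (K : Type) [Field K] [Algebra k K] (b : K) (hb : b = 0)

/-- The value at the node, computed on both components. -/
theorem evB_toA (u : N1 ch j K b) :
    evB ch j K (toA ch j K b hb u) = (toW ch j K b hb u).coeff 0 := by
  have h : (evB ch j K).comp (toA ch j K b hb) =
      (Polynomial.constantCoeff (R := K)).comp (toW ch j K b hb) := by
    apply nr_hom_ext
    · intro a
      rw [RingHom.comp_apply, RingHom.comp_apply, toA_of, toW_of, Polynomial.constantCoeff_apply,
        Polynomial.coeff_C_zero]
    · rw [RingHom.comp_apply, RingHom.comp_apply, toA_w, toW_w, map_zero,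
        Polynomial.constantCoeff_apply, Polynomial.coeff_X_zero]
  exact congrArg (fun f => f u) h

end

end BRAW

open BRA _root_.Pool.Agent.MG.BRAW in
theorem t_BRAW (hALGW : Stmt_ALGW) : Stmt_BRAW := by
  intro n k _ C T ch j hyp K _ _ b hb D1 D2 D3 D12 DM d1 d2 d3 d12 dM e1 e2 e3 e4 v0 v1
  -- step 1
  have hZw := N1_zw ch j K b hb
  have hD := d1.mul (algebraMap _ (N1 ch j K b) (zB ch j K)) (nw _ _)
  rw [hZw, map_zero] at hD
  have hA : toA ch j K b hb (D1 (nw _ _)) = 0 := by
    have h := congrArg (toA ch j K b hb) hD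
    rw [map_zero, map_add, map_mul, map_mul, toA_of, toA_w, zero_mul, add_zero] at h
    exact zB_reg ch j K _ h.symm
  have hWz : toW ch j K b hb (algebraMap _ (N1 ch j K b) (zB ch j K)) = 0 := by
    rw [toW_of, evB_z, map_zero]
  have hW : toW ch j K b hb (D1 (algebraMap _ (N1 ch j K b) (zB ch j K))) = 0 := by
    have h := congrArg (toW ch j K b hb) hD
    rw [map_zero, map_add, map_mul, map_mul, hWz, toW_w, zero_mul, zero_add] at h
    exact (mul_eq_zero.1 h.symm).resolve_left Polynomial.X_ne_zero
  obtain ⟨v, hv⟩ := toA_ker ch j K b hb _ hA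
  -- step 3
  have hinv : DM (mInv _ _) = - (mInv _ _ * mInv _ _ * algebraMap (N1 ch j K b) _ (D1 (nw _ _))) := by
    have h1 := dM.mul (algebraMap (N1 ch j K b) _ (nw _ _)) (mInv _ _)
    rw [mInv_rel, der_one dM, e1] at h1
    have h2 : DM (mInv _ _) = (algebraMap (N1 ch j K b) _ (nw _ _) * mInv _ _) * DM (mInv _ _) := by
      rw [mInv_rel, one_mul]
    calc DM (mInv _ _) = mInv _ _ * (algebraMap (N1 ch j K b) _ (nw _ _) * DM (mInv _ _)) := by
          conv_lhs => rw [h2]
          ring
      _ = mInv _ _ * (0 - mInv _ _ * algebraMap (N1 ch j K b) _ (D1 (nw _ _))) := by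
          rw [h1]; ring
      _ = _ := by ring
  have hL := congrArg (toL ch j K b hb) ((e2 (nw _ _)).symm.trans (by rw [swapN_w, hinv]))
  rw [toL_swap, map_neg, map_mul, map_mul, toL_inv, toL_of, hv, map_mul, toW_w, map_mul,
    Polynomial.toLaurent_X] at hL
  have hT : LaurentPolynomial.T (R := K) (-1) * LaurentPolynomial.T 1 = 1 := by
    rw [← LaurentPolynomial.T_add]
    simp
  obtain ⟨hr, hp⟩ := poly _ _ (v0 (nw _ _)) (v1 (nw _ _)) (hL.trans (by
    rw [show LaurentPolynomial.T (R := K) (-1) * LaurentPolynomial.T (-1) *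
      (LaurentPolynomial.T 1 * Polynomial.toLaurent (toW ch j K b hb v)) =
      (LaurentPolynomial.T (R := K) (-1) * LaurentPolynomial.T 1) *
      (LaurentPolynomial.T (-1) * Polynomial.toLaurent (toW ch j K b hb v)) by ring, hT, one_mul]))
  have hD2w : D2 (nw _ _) = 0 := by
    apply (toY_bijective ch j K b hb).1
    rw [hr, map_zero]
  have hWw : toW ch j K b hb (D1 (nw _ _)) = 0 := by
    rw [hv, map_mul, hp, mul_zero]
  -- D2 = 0
  have hD2 : D2 = 0 := by
    ext u
    have key : ∀ (P : Polynomial K) (u : N2 ch j K b), toY ch j K b hb u = P → D2 u = 0 := by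
      intro P
      induction P using Polynomial.induction_on with
      | C c =>
        intro u hu
        have : u = algebraMap (K ⊗[k] T.R1) (N2 ch j K b) (inL k K T.R1 c) := by
          apply (toY_bijective ch j K b hb).1
          rw [hu, toY_of, inL_apply, evB_tmul, map_one, map_one, mul_one]
        rw [this]
        exact d2.const c
      | add p q hp hq =>
        intro u hu
        obtain ⟨x, hx⟩ := (toY_bijective ch j K b hb).2 p
        obtain ⟨y, hy⟩ := (toY_bijective ch j K b hb).2 q
        have : u = x + y := by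
          apply (toY_bijective ch j K b hb).1
          rw [hu, map_add, hx, hy]
        rw [this, map_add, hp x hx, hq y hy, add_zero]
      | monomial m c h =>
        intro u hu
        obtain ⟨x, hx⟩ := (toY_bijective ch j K b hb).2 (Polynomial.C c * Polynomial.X ^ m)
        have : u = x * nw _ _ := by
          apply (toY_bijective ch j K b hb).1
          rw [hu, map_mul, hx, toY_w, pow_succ, mul_assoc]
        rw [this, d2.mul, hD2w, h x hx, mul_zero, mul_zero, add_zero]
    exact key _ u rfl
  -- the exceptional line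
  have hWall : ∀ u, toW ch j K b hb (D1 u) = 0 := by
    refine N1_ind (P := fun u => toW ch j K b hb (D1 u) = 0) ch j K b ?_ ?_ ?_ ?_
    · intro a
      obtain ⟨c, hc⟩ := evB_gen ch j K a
      have h1 : algebraMap (K ⊗[k] T.R1) (N1 ch j K b) a =
          algebraMap (K ⊗[k] T.R1) (N1 ch j K b) (inL k K T.R1 (evB ch j K a)) +
          algebraMap (K ⊗[k] T.R1) (N1 ch j K b) (zB ch j K) *
            algebraMap (K ⊗[k] T.R1) (N1 ch j K b) c := by
        rw [← map_mul, ← map_add, inL_apply, ← hc]
      rw [h1, map_add, d1.mul]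
      have h2 : D1 (algebraMap (K ⊗[k] T.R1) (N1 ch j K b) (inL k K T.R1 (evB ch j K a))) = 0 :=
        d1.const _
      rw [h2, zero_add, map_add, map_mul, map_mul, hWz, hW, zero_mul, mul_zero, add_zero]
    · exact hWw
    · intro u v hu hv
      rw [map_add, map_add, hu, hv, add_zero]
    · intro u v hu hv
      rw [d1.mul, map_add, map_mul, map_mul, hu, hv, mul_zero, mul_zero, add_zero]
  -- the proper transform
  let E : K ⊗[k] T.R1 →+ K ⊗[k] T.R1 :=
    { toFun := fun a => toA ch j K b hb (D1 (algebraMap _ (N1 ch j K b) a))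
      map_zero' := by simp
      map_add' := fun x y => by simp }
  have hE : ∀ a, E a = toA ch j K b hb (D1 (algebraMap _ (N1 ch j K b) a)) := fun _ => rfl
  obtain ⟨hE0, hD3⟩ := hALGW ch j hyp K E D3 D12 ⟨by
      intro x y
      rw [hE, hE, hE, map_mul, d1.mul, map_add, map_mul, map_mul, toA_of, toA_of], by
      intro c
      rw [hE]
      have h2 : D1 (algebraMap (K ⊗[k] T.R1) (N1 ch j K b) (inL k K T.R1 c)) = 0 := d1.const _
      rw [h2, map_zero]⟩ d3 d12 (by
      intro a
      have h := e3 (algebraMap _ (N1 ch j K b) a)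
      rw [toA_of] at h
      exact h) (fun a => e4 a) (by
      intro a
      rw [hE, evB_toA, hWall, Polynomial.coeff_zero])
  have hAall : ∀ u, toA ch j K b hb (D1 u) = 0 := by
    refine N1_ind (P := fun u => toA ch j K b hb (D1 u) = 0) ch j K b ?_ ?_ ?_ ?_
    · intro a
      have := DFunLike.congr_fun hE0 a
      exact this
    · exact hA
    · intro u v hu hv
      rw [map_add, map_add, hu, hv, add_zero]
    · intro u v hu hv
      rw [d1.mul, map_add, map_mul, map_mul, hu, hv, mul_zero, mul_zero, add_zero]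
  refine ⟨?_, hD2, hD3⟩
  ext u
  exact toAW_injective ch j K b hb _ (hAall u) (hWall u)

end Pool.Agent.MG


end

section

/-!
# Module MCM: the coefficient of `T^m` is a multilinear form
-/

namespace Pool.Agent.MG.G0

namespace MCMm

/-- A function on families which does not change under a modification of one entry depends only on
the classes. -/
theorem eq_of_single {ι V C : Type} [Fintype ι] [DecidableEq ι] (F : (ι → V) → C)
    (r : V → V → Prop)
    (hF : ∀ (v : ι → V) (i : ι) (a : V), r (v i) a → F (Function.update v i a) = F v)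
    (v w : ι → V) (h : ∀ i, r (v i) (w i)) : F v = F w := by
  have key : ∀ (s : Finset ι) (v : ι → V), (∀ i, i ∉ s → v i = w i) → (∀ i ∈ s, r (v i) (w i)) →
      F v = F w := by
    intro s
    induction s using Finset.induction_on with
    | empty =>
      intro v hv _
      congr 1
      funext i
      exact hv i (Finset.notMem_empty i)
    | insert j s hj ih =>
      intro v hv hr
      rw [← hF v j (w j) (hr j (Finset.mem_insert_self j s))]
      apply ih
      · intro i hi
        by_cases hij : i = j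
        · subst hij
          rw [Function.update_self]
        · rw [Function.update_of_ne hij]
          exact hv i fun h => (Finset.mem_insert.1 h).elim hij hi
      · intro i hi
        have hij : i ≠ j := by
          rintro rfl
          exact hj hi
        rw [Function.update_of_ne hij]
        exact hr i (Finset.mem_insert_of_mem hi)
  exact key Finset.univ v (fun i hi => absurd (Finset.mem_univ i) hi) fun i _ => h i

end MCMm

open _root_.Pool.Agent.MG.G0.MCMm in
theorem t_MCM (hKBC : Stmt_KBC) (hMEE : Stmt_MEE) (hMPB : Stmt_MPB) (hMPG : Stmt_MPG)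
    (hMTR : Stmt_MTR) (hMVX : Stmt_MVX) (hHV2 : Stmt_HV2) : Stmt_MCM := by
  intro I A _ _ _ _ h R hR pt hpt E N k m hmk hkN hIH π hπ
  obtain ⟨hT1, -, -, -, hT5⟩ := hMTR
  obtain ⟨hTN, -, hcoadd, hcosmul, -, hco0, hcoS, -, -⟩ := hT1 (A := A) (N := N)
  have hN0 : 0 < N := by omega
  have hTn : IsNilpotent (tt A N) := ⟨N, hTN⟩
  obtain ⟨⟨pt', hpt'⟩, hX2, -⟩ := hMVX hR pt hpt E N k
  obtain ⟨hKr', hXex, hXmem⟩ := hX2 pt' hpt'
  obtain ⟨hPB1, hPB2, -, hPB4⟩ := hMPB hR.kr hR.smc pt hpt
  have hBcr : ∀ b, Bcr (algebraMap A (TrA A N)) (pt b) (pt' b) := hPB4 _ pt' hpt'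
  obtain ⟨hdj, -⟩ := hPB1 _ _ pt' hBcr
  obtain ⟨-, -, -, hS⟩ := hMPG hR pt hpt 0 ⟨1, by rw [pow_one]⟩
  have hR' : SKr h (bc (algebraMap A (TrA A N)) R) := hS _
  obtain ⟨hGood, hOm, hD, -⟩ := hMPG hR' pt' hdj (tt A N) hTn
  obtain ⟨-, hG2⟩ := hHV2 E (tt A N) hGood hD k
  obtain ⟨G, hG⟩ := hG2 hOm
  -- independence of the choice of `pt'`
  obtain ⟨hPB1', -, hPB3', -⟩ := hMPB hR'.kr hR'.smc pt' hdj
  have hHV : ∀ (u u' : Fin k → KK I (TrA A N)) (x : TrA A N), Vl E pt u u' x →
      HV E (PT pt' (tt A N)) (tt A N) u u' x := by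
    rintro u u' x ⟨pt'', h1, -, -, h4⟩
    have h5 : ∀ b, Bcr (RingHom.id (TrA A N)) (pt' b) (pt'' b) := by
      apply hPB2 (algebraMap A (TrA A N)) (RingHom.id _) _ _ pt' pt'' hBcr
      rw [RingHom.id_comp]
      exact hPB4 _ pt'' h1
    rw [← hPB3' _ pt'' h5]
    exact h4
  -- the nodal curve
  have hcomp : (π : TrA A N →+* A).comp (algebraMap A (TrA A N)) = RingHom.id A :=
    RingHom.ext fun a => π.commutes a
  have hP0 : PT pt (0 : A) = bc (π : TrA A N →+* A) (PT pt' (tt A N)) := by
    have h5 : ∀ b, Bcr (π : TrA A N →+* A) (pt' b) (pt b) := by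
      apply hPB2 (algebraMap A (TrA A N)) (π : TrA A N →+* A) _ _ pt' pt hBcr
      rw [hcomp]
      intro b
      refine ⟨(hKBC.2.2.1 R).symm, fun f f' hf => ?_⟩
      have h6 : f' = f := Subtype.ext hf
      rw [h6]
      ext n
      rw [PowerSeries.coeff_map]
      rfl
    have h6 := (hPB1' (π : TrA A N →+* A) R pt h5).2 (tt A N) hTn
    have h7 : (π : TrA A N →+* A) (tt A N) = 0 := hπ
    rw [h7] at h6
    exact h6
  have hπs : Function.Surjective (π : TrA A N →+* A) := fun a => ⟨algebraMap A _ a, π.commutes a⟩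
  obtain ⟨-, -, hE3⟩ := hMEE hKr' (π : TrA A N →+* A)
  obtain ⟨hlift, hker⟩ := hE3 hπs
  have hker' := hker (tt A N) hπ fun a ha => ((hT5 π hπ hN0) a).2 ha
  -- lifts
  have hL : ∀ ω : EE (PT pt (0 : A)), ∃ u : EE (PT pt' (tt A N)),
      kmap (π : TrA A N →+* A) (u : KK I (TrA A N)) = ω := by
    intro ω
    obtain ⟨u, hu, h1⟩ := hlift ω (by rw [← hP0]; exact ω.2)
    exact ⟨⟨u, hu⟩, h1⟩
  choose L hL using hL
  let F : (Fin k ⊕ Fin k → EE (PT pt' (tt A N))) → A := fun v => co (m + 1) (G v)
  have hval : ∀ v : Fin k ⊕ Fin k → EE (PT pt' (tt A N)), ∃ x, G v = tt A N * x ∧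
      (∀ i < m, co i x = 0) ∧ Vl E pt (fun i => (v (Sum.inl i) : KK I (TrA A N)))
        (fun i => (v (Sum.inr i) : KK I (TrA A N))) x := by
    intro v
    obtain ⟨x, hx⟩ := hXex (fun i => (v (Sum.inl i) : KK I (TrA A N)))
      (fun i => (v (Sum.inr i) : KK I (TrA A N))) (fun i => (v (Sum.inl i)).2)
      (fun i => (v (Sum.inr i)).2)
    exact ⟨x, hG v x (hHV _ _ _ hx), hIH _ _ _ hx, hx⟩
  have hTG : ∀ v : Fin k ⊕ Fin k → EE (PT pt' (tt A N)), co (m + 1) (tt A N * G v) = 0 := by
    intro v
    obtain ⟨x, hx, hx0, -⟩ := hval v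
    rw [hx, hcoS _ _ (by omega)]
    rcases Nat.eq_zero_or_pos m with h0 | h0
    · subst h0
      exact hco0 _ hN0
    · obtain ⟨n, rfl⟩ := Nat.exists_eq_succ_of_ne_zero h0.ne'
      rw [Nat.succ_eq_add_one, hcoS _ _ (by omega)]
      exact hx0 n (Nat.lt_succ_self n)
  have hF1 : ∀ (v : Fin k ⊕ Fin k → EE (PT pt' (tt A N))) (i : Fin k ⊕ Fin k) (a : EE (PT pt' (tt A N))),
      kmap (π : TrA A N →+* A) (v i : KK I (TrA A N)) =
        kmap (π : TrA A N →+* A) (a : KK I (TrA A N)) → F (Function.update v i a) = F v := by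
    intro v i a ha
    obtain ⟨w, hw, hw'⟩ := hker' ((a - v i : EE (PT pt' (tt A N))) : KK I (TrA A N)) (a - v i : EE (PT pt' (tt A N))).2 (by
      rw [Submodule.coe_sub, map_sub, ha, sub_self])
    have h1 : a = v i + tt A N • (⟨w, hw⟩ : EE (PT pt' (tt A N))) := by
      apply Subtype.ext
      rw [Submodule.coe_add, Submodule.coe_smul, ← hw', Submodule.coe_sub]
      abel
    change co (m + 1) (G _) = co (m + 1) (G v)
    rw [h1, G.map_update_add, G.map_update_smul, Function.update_eq_self, smul_eq_mul,
      hcoadd _ _ _ (by omega), hTG, add_zero]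
  have hF2 : ∀ v w : Fin k ⊕ Fin k → EE (PT pt' (tt A N)), (∀ i, kmap (π : TrA A N →+* A)
      (v i : KK I (TrA A N)) = kmap (π : TrA A N →+* A) (w i : KK I (TrA A N))) → F v = F w :=
    fun v w h => eq_of_single F (fun a b => kmap (π : TrA A N →+* A) (a : KK I (TrA A N)) =
      kmap (π : TrA A N →+* A) (b : KK I (TrA A N))) hF1 v w h
  have hupd : ∀ (dec : DecidableEq (Fin k ⊕ Fin k)) (ω : Fin k ⊕ Fin k → EE (PT pt (0 : A)))
      (i : Fin k ⊕ Fin k) (a : EE (PT pt (0 : A))) (b : EE (PT pt' (tt A N))),
      kmap (π : TrA A N →+* A) (b : KK I (TrA A N)) = a →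
      F (fun j => L (Function.update ω i a j)) = F (Function.update (fun j => L (ω j)) i b) := by
    intro dec ω i a b hab
    apply hF2
    intro j
    by_cases hj : j = i
    · subst hj
      rw [Function.update_self, Function.update_self, hL, hab]
    · rw [Function.update_of_ne hj, Function.update_of_ne hj]
  let M : MultilinearMap A (fun _ : Fin k ⊕ Fin k => EE (PT pt (0 : A))) A :=
    { toFun := fun ω => F fun j => L (ω j)
      map_update_add' := by
        intro dec ω i a b
        have e1 := hupd dec ω i (a + b) (L a + L b) (by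
          rw [Submodule.coe_add, map_add, hL, hL, Submodule.coe_add])
        have e2 := hupd dec ω i a (L a) (hL a)
        have e3 := hupd dec ω i b (L b) (hL b)
        rw [e1, e2, e3]
        change co (m + 1) (G _) = co (m + 1) (G _) + co (m + 1) (G _)
        rw [G.map_update_add, hcoadd _ _ _ (by omega)]
      map_update_smul' := by
        intro dec ω i c a
        have e1 := hupd dec ω i (c • a) (algebraMap A (TrA A N) c • L a) (by
          rw [Submodule.coe_smul, kmap_smul, hL, Submodule.coe_smul]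
          congr 1
          exact π.commutes c)
        have e2 := hupd dec ω i a (L a) (hL a)
        rw [e1, e2]
        change co (m + 1) (G _) = c • co (m + 1) (G _)
        rw [G.map_update_smul, smul_eq_mul, ← Algebra.smul_def, hcosmul _ _ _ (by omega),
          smul_eq_mul] }
  refine ⟨M, ?_, ?_⟩
  · intro ω u u' x hx h1 h2
    obtain ⟨hu, hu'⟩ := hXmem u u' x hx
    let v : Fin k ⊕ Fin k → EE (PT pt' (tt A N)) := fun i => Sum.elim (fun i => ⟨u i, hu i⟩)
      (fun i => ⟨u' i, hu' i⟩) i
    have h3 : G v = tt A N * x := hG v x (hHV _ _ _ hx)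
    have h4 : F v = co m x := by
      change co (m + 1) (G v) = _
      rw [h3, hcoS _ _ (by omega)]
    rw [← h4]
    apply hF2
    rintro (i | i)
    · rw [hL]
      exact h1 i
    · rw [hL]
      exact h2 i
  · intro ω
    obtain ⟨x, -, -, hx⟩ := hval fun j => L (ω j)
    exact ⟨_, _, x, hx, fun i => hL _, fun i => hL _⟩

end Pool.Agent.MG.G0


end
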