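import Mathlib
import Pool.Agent.KDM.C06
import Pool.Agent.KDM.C15
import Pool.Agent.KDM.C16
import Pool.Agent.KDM.C33

/-! Parts: MG.BNOD, MG.W.WND, MG.KX.DNO -/

section

/-!
# BNOD: the nodal fibre of the bubble family is nodal
-/

open CategoryTheory CategoryTheory.Limits AlgebraicGeometry TensorProduct
open scoped Polynomial

namespace Pool.Agent.MG

namespace BNOD

open NOD

/-! ### Charts with an étale coordinate -/

theorem chart_pt {K : Type} [Field K] {X : Scheme.{0}} (π : X ⟶ Sp K) {A : Type} [CommRing A]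
    (i : Sp A ⟶ X) [IsOpenImmersion i] (ψ : K →+* A) (hi : i ≫ π = spMap ψ)
    (κ : K[X] →+* A) (hκ : κ.Etale) (hc : ∀ c : K, κ (Polynomial.C c) = ψ c) (p : Sp A) :
    ∃ (V : Scheme.{0}) (f : V ⟶ X) (h : V ⟶ Sp (NodeRing K)),
      Etale f ∧ Etale h ∧ f ≫ π = h ≫ spMap (algebraMap K (NodeRing K)) ∧
        i p ∈ Set.range f := by
  -- the choice of the constant
  obtain ⟨a, ha⟩ : ∃ a : K, κ (Polynomial.X + Polynomial.C a) ∉ p.asIdeal := by
    by_cases h : κ Polynomial.X ∈ p.asIdeal
    · refine ⟨1, fun h1 => ?_⟩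
      rw [map_add, Polynomial.C_1, map_one] at h1
      have h2 : (1 : A) ∈ p.asIdeal := by
        have := p.asIdeal.sub_mem h1 h
        rwa [add_sub_cancel_left] at this
      exact p.isPrime.ne_top ((Ideal.eq_top_iff_one _).2 h2)
    · refine ⟨0, ?_⟩
      rwa [Polynomial.C_0, add_zero]
  set s : A := κ (Polynomial.X + Polynomial.C a) with hs
  let G : Type := Localization.Away s
  let ell : Lo K a →+* G := IsLocalization.Away.map (Lo K a) G κ (Polynomial.X + Polynomial.C a)
  have hell : ell.Etale := RingHom.Etale.propertyIsLocal.localizationAwayPreserves κ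
    (Polynomial.X + Polynomial.C a) (Lo K a) G hκ
  let χ : NodeRing K →+* G := ell.comp ((algebraMap K[X] (Lo K a)).comp (nu K a).toRingHom)
  have hχ : χ.Etale := RingHom.Etale.stableUnderComposition _ _ (et_node K a) hell
  have hχc : ∀ c : K, χ (algebraMap K (NodeRing K) c) = algebraMap A G (ψ c) := by
    intro c
    show ell (algebraMap K[X] (Lo K a) (nu K a (algebraMap K (NodeRing K) c))) = _
    rw [AlgHom.commutes, ← hc]
    exact IsLocalization.map_eq _ _
  have hloc : (algebraMap A G).Etale :=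
    RingHom.etale_algebraMap.2 (Algebra.Etale.of_isLocalizationAway s)
  refine ⟨Sp G, spMap (algebraMap A G) ≫ i, spMap χ, ?_, etale_spMap hχ, ?_, ?_⟩
  · have := etale_spMap hloc
    infer_instance
  · rw [Category.assoc, hi, ← Spec.map_comp, ← Spec.map_comp]
    congr 1
    ext c
    exact (hχc c).symm
  · have h1 : p ∈ Set.range (PrimeSpectrum.comap (algebraMap A G)) := by
      rw [PrimeSpectrum.localization_away_comap_range G s]
      exact ha
    obtain ⟨q, hq⟩ := h1
    refine ⟨q, ?_⟩
    rw [← hq]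
    rfl

/-! ### The coordinate at a point -/

theorem et_shift {k R : Type} [Field k] [CommRing R] [Algebra k R] (x : R)
    (h : (Polynomial.aeval x : k[X] →ₐ[k] R).toRingHom.Etale) (c : k) :
    (Polynomial.aeval (x - algebraMap k R c) : k[X] →ₐ[k] R).toRingHom.Etale := by
  let u : k[X] →ₐ[k] k[X] := Polynomial.aeval (Polynomial.X - Polynomial.C c)
  let v : k[X] →ₐ[k] k[X] := Polynomial.aeval (Polynomial.X + Polynomial.C c)
  have huX : u Polynomial.X = Polynomial.X - Polynomial.C c := Polynomial.aeval_X _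
  have hvX : v Polynomial.X = Polynomial.X + Polynomial.C c := Polynomial.aeval_X _
  have huC : ∀ a, u (Polynomial.C a) = Polynomial.C a := fun a => u.commutes a
  have hvC : ∀ a, v (Polynomial.C a) = Polynomial.C a := fun a => v.commutes a
  have h1 : u.comp v = AlgHom.id k k[X] := by
    apply Polynomial.algHom_ext
    rw [AlgHom.comp_apply, hvX, map_add, huX, huC]
    show Polynomial.X - Polynomial.C c + Polynomial.C c = Polynomial.X
    ring
  have h2 : v.comp u = AlgHom.id k k[X] := by
    apply Polynomial.algHom_ext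
    rw [AlgHom.comp_apply, huX, map_sub, hvX, hvC]
    show Polynomial.X + Polynomial.C c - Polynomial.C c = Polynomial.X
    ring
  have hb : Function.Bijective (u : k[X] →+* k[X]) := by
    constructor
    · intro p q hpq
      have h3 : v (u p) = v (u q) := congrArg v hpq
      have h4 : ∀ r, v (u r) = r := fun r => DFunLike.congr_fun h2 r
      rwa [h4, h4] at h3
    · intro p
      exact ⟨v p, DFunLike.congr_fun h1 p⟩
  have he : (Polynomial.aeval (x - algebraMap k R c) : k[X] →ₐ[k] R).toRingHom =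
      (Polynomial.aeval x : k[X] →ₐ[k] R).toRingHom.comp (u : k[X] →+* k[X]) := by
    have h5 : (Polynomial.aeval (x - algebraMap k R c) : k[X] →ₐ[k] R) =
        (Polynomial.aeval x : k[X] →ₐ[k] R).comp u := by
      apply Polynomial.algHom_ext
      rw [AlgHom.comp_apply, huX, map_sub, Polynomial.aeval_X, Polynomial.aeval_X,
        Polynomial.aeval_C]
    rw [h5]
    rfl
  rw [he]
  exact RingHom.Etale.stableUnderComposition _ _ (RingHom.Etale.of_bijective hb) h

theorem etale_of_spMap {A B : Type} [CommRing A] [CommRing B] {φ : A →+* B}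
    (h : Etale (spMap φ)) : φ.Etale :=
  (HasRingHomProperty.Spec_iff (P := @Etale)).1 h

/-! ### The base change square of chart rings -/

theorem nrE_isPullback {R R' : Type} [CommRing R] [CommRing R'] (χ : R →+* R') (z s : R)
    (z' s' : R') (hz : z' = χ z) (hs : s' = χ s) :
    IsPullback (spMap (nrE χ z s z' s' hz hs)) (spMap (algebraMap R' (NR z' s')))
      (spMap (algebraMap R (NR z s))) (spMap χ) := by
  subst hz hs
  exact nrMap_isPullback χ z s

/-! ### The node -/

section node

variable (K : Type) [Field K]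

/-- The ring `K[X][w]/(X w)`. -/
abbrev W : Type := NR (Polynomial.X : K[X]) (0 : K[X])

/-- The isomorphism `K[X][w]/(X w) → K[u, v]/(u v)`. -/
noncomputable def toNode : W K →+* NodeRing K :=
  nrLift ((Polynomial.aeval (uu K) : K[X] →ₐ[K] NodeRing K) : K[X] →+* NodeRing K) (vv K) (by
    rw [RingHom.coe_coe, Polynomial.aeval_X, map_zero]
    exact uu_vv K)

theorem toNode_of (p : K[X]) : toNode K (algebraMap K[X] (W K) p) = Polynomial.aeval (uu K) p :=
  nrLift_of _ _ _ _

theorem toNode_w : toNode K (nw _ _) = vv K := nrLift_w _ _ _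

/-- The constants. -/
noncomputable def cW : K →+* W K := (algebraMap K[X] (W K)).comp Polynomial.C

theorem w_rel : algebraMap K[X] (W K) Polynomial.X * nw _ _ = 0 := by
  rw [nw_rel, map_zero]

/-- The inverse. -/
noncomputable def ofNode : NodeRing K →+* W K :=
  Ideal.Quotient.lift _ (MvPolynomial.eval₂Hom (cW K)
    ![algebraMap K[X] (W K) Polynomial.X, nw _ _]) (by
    intro p hp
    have h : Ideal.span {(MvPolynomial.X 0 * MvPolynomial.X 1 : MvPolynomial (Fin 2) K)} ≤
        RingHom.ker (MvPolynomial.eval₂Hom (cW K)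
          ![algebraMap K[X] (W K) Polynomial.X, nw _ _]) := by
      rw [Ideal.span_le, Set.singleton_subset_iff]
      show MvPolynomial.eval₂Hom (cW K) ![algebraMap K[X] (W K) Polynomial.X, nw _ _]
        (MvPolynomial.X 0 * MvPolynomial.X 1) = 0
      rw [map_mul, MvPolynomial.eval₂Hom_X', MvPolynomial.eval₂Hom_X']
      exact w_rel K
    exact h hp)

theorem ofNode_mk (p : MvPolynomial (Fin 2) K) : ofNode K (Ideal.Quotient.mk _ p) =
    MvPolynomial.eval₂Hom (cW K) ![algebraMap K[X] (W K) Polynomial.X, nw _ _] p := rfl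

theorem ofNode_uu : ofNode K (uu K) = algebraMap K[X] (W K) Polynomial.X := by
  unfold uu
  rw [ofNode_mk, MvPolynomial.eval₂Hom_X']
  rfl

theorem ofNode_vv : ofNode K (vv K) = nw _ _ := by
  unfold vv
  rw [ofNode_mk, MvPolynomial.eval₂Hom_X']
  rfl

theorem ofNode_C (c : K) : ofNode K (algebraMap K (NodeRing K) c) = cW K c := by
  have h : algebraMap K (NodeRing K) c =
    (Ideal.Quotient.mk (Ideal.span {(MvPolynomial.X 0 * MvPolynomial.X 1 :
        MvPolynomial (Fin 2) K)})) (MvPolynomial.C c) := rfl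
  rw [h, ofNode_mk]
  exact MvPolynomial.eval₂Hom_C _ _ _

theorem ofNode_bijective : Function.Bijective (ofNode K) := by
  have h1 : (ofNode K).comp (toNode K) = RingHom.id (W K) := by
    apply nr_hom_ext
    · intro p
      show ((ofNode K).comp ((toNode K).comp (algebraMap K[X] (W K)))) p =
        (algebraMap K[X] (W K)) p
      congr 1
      apply Polynomial.ringHom_ext
      · intro c
        simp only [RingHom.comp_apply]
        rw [toNode_of, Polynomial.aeval_C, ofNode_C]
        rfl
      · simp only [RingHom.comp_apply]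
        rw [toNode_of, Polynomial.aeval_X, ofNode_uu]
    · rw [RingHom.comp_apply, toNode_w, ofNode_vv]
      rfl
  have h2 : (toNode K).comp (ofNode K) = RingHom.id (NodeRing K) := by
    apply Ideal.Quotient.ringHom_ext
    apply MvPolynomial.ringHom_ext
    · intro c
      show toNode K (ofNode K (algebraMap K (NodeRing K) c)) = algebraMap K (NodeRing K) c
      rw [ofNode_C]
      show toNode K (algebraMap K[X] (W K) (Polynomial.C c)) = _
      rw [toNode_of, Polynomial.aeval_C]
    · intro i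
      fin_cases i
      · show toNode K (ofNode K (uu K)) = uu K
        rw [ofNode_uu, toNode_of, Polynomial.aeval_X]
      · show toNode K (ofNode K (vv K)) = vv K
        rw [ofNode_vv, toNode_w]
  constructor
  · intro a b hab
    have h3 : toNode K (ofNode K a) = toNode K (ofNode K b) := congrArg _ hab
    have h4 : ∀ r, toNode K (ofNode K r) = r := fun r => DFunLike.congr_fun h2 r
    rwa [h4, h4] at h3
  · intro b
    exact ⟨toNode K b, DFunLike.congr_fun h1 b⟩

end node

/-! ### The chart with the node -/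

/-- A chart `A[w]/(z w)` with `z` an étale coordinate on `A`. -/
theorem node_chart {K : Type} [Field K] {X : Scheme.{0}} (π : X ⟶ Sp K) {A : Type} [CommRing A]
    (ψ : K →+* A) (z s : A) (hs : s = 0) (i : Sp (NR z s) ⟶ X) [IsOpenImmersion i]
    (hi : i ≫ π = spMap ((algebraMap A (NR z s)).comp ψ))
    (κ : K[X] →+* A) (hκ : κ.Etale) (hκX : κ Polynomial.X = z)
    (hc : ∀ c : K, κ (Polynomial.C c) = ψ c) (p : Sp (NR z s)) :
    ∃ (V : Scheme.{0}) (f : V ⟶ X) (h : V ⟶ Sp (NodeRing K)),
      Etale f ∧ Etale h ∧ f ≫ π = h ≫ spMap (algebraMap K (NodeRing K)) ∧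
        i p ∈ Set.range f := by
  let χ : W K →+* NR z s :=
    nrE κ (Polynomial.X : K[X]) 0 z s hκX.symm (hs.trans (map_zero κ).symm)
  have hχ : Etale (spMap χ) := MorphismProperty.of_isPullback
    (nrE_isPullback κ (Polynomial.X : K[X]) 0 z s hκX.symm (hs.trans (map_zero κ).symm)).flip
    (etale_spMap hκ)
  have hn : Etale (spMap (ofNode K)) := by
    have := isIso_spMap _ (ofNode_bijective K)
    infer_instance
  refine ⟨Sp (NR z s), i, spMap χ ≫ spMap (ofNode K), inferInstance, inferInstance, ?_,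
    ⟨p, rfl⟩⟩
  rw [hi, Category.assoc, ← spMap_comp, ← spMap_comp]
  congr 1
  ext c
  simp only [RingHom.comp_apply]
  rw [ofNode_C]
  show _ = χ (algebraMap K[X] (W K) (Polynomial.C c))
  have h1 : χ (algebraMap K[X] (W K) (Polynomial.C c)) =
      algebraMap A (NR z s) (κ (Polynomial.C c)) := nrE_of _ _ _ _ _ _ _ _
  rw [h1, hc]

end BNOD

open NOD _root_.Pool.Agent.MG.BNOD in
/-- BNOD: the nodal curve is nodal. -/
theorem t_BNOD : Stmt_BNOD := by
  intro n k _ C T ch j K _ _ _ b hb x
  have hz : (Polynomial.aeval (zz ch j) : k[X] →ₐ[k] T.R1).toRingHom.Etale :=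
    et_shift T.x T.etx (ch.pt j T.x)
  rcases b_cover ch.aff (zz ch j) (zz_unit ch j) K b x with ⟨y, rfl⟩ | ⟨y, rfl⟩
  · rcases bl_cover ((1 : K) ⊗ₜ[k] (zz ch j)) (b ⊗ₜ[k] (1 : T.R1)) y with ⟨p, rfl⟩ | ⟨p, rfl⟩
    · have hi : (bl1 ((1 : K) ⊗ₜ[k] (zz ch j)) (b ⊗ₜ[k] (1 : T.R1)) ≫
          bL ch.aff (zz ch j) (zz_unit ch j) K b) ≫ bπ ch.aff (zz ch j) (zz_unit ch j) K b =
          spMap ((algebraMap (K ⊗[k] T.R1) (NR ((1 : K) ⊗ₜ[k] (zz ch j))
            (b ⊗ₜ[k] (1 : T.R1)))).comp (inL k K T.R1)) := by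
        rw [Category.assoc, bL_π, bl1_π_assoc, ← spMap_comp]
      have h1 := node_chart (bπ ch.aff (zz ch j) (zz_unit ch j) K b) (inL k K T.R1)
        ((1 : K) ⊗ₜ[k] (zz ch j)) (b ⊗ₜ[k] (1 : T.R1)) (by rw [hb, TensorProduct.zero_tmul])
        (bl1 _ _ ≫ bL ch.aff (zz ch j) (zz_unit ch j) K b) hi
        (Polynomial.aeval ((1 : K) ⊗ₜ[k] (zz ch j)) : K[X] →ₐ[K] K ⊗[k] T.R1).toRingHom
        (et_bc _ hz) (Polynomial.aeval_X _) (fun c => Polynomial.aeval_C _ _) p
      rw [Scheme.Hom.comp_apply] at h1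
      exact h1
    · have hi : (bl2 ((1 : K) ⊗ₜ[k] (zz ch j)) (b ⊗ₜ[k] (1 : T.R1)) ≫
          bL ch.aff (zz ch j) (zz_unit ch j) K b) ≫ bπ ch.aff (zz ch j) (zz_unit ch j) K b =
          spMap ((algebraMap (K ⊗[k] T.R1) (NR (b ⊗ₜ[k] (1 : T.R1))
            ((1 : K) ⊗ₜ[k] (zz ch j)))).comp (inL k K T.R1)) := by
        rw [Category.assoc, bL_π, bl2_π_assoc, ← spMap_comp]
      have h1 := chart_pt (bπ ch.aff (zz ch j) (zz_unit ch j) K b)
        (bl2 _ _ ≫ bL ch.aff (zz ch j) (zz_unit ch j) K b) _ hi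
        (yM (k := k) (zz ch j) b) (etale_of_spMap (yM_etale (zz ch j) b (etale_spMap hz)))
        (fun c => yM_C _ _ _) p
      rw [Scheme.Hom.comp_apply] at h1
      exact h1
  · exact chart_pt (bπ ch.aff (zz ch j) (zz_unit ch j) K b)
      (bR ch.aff (zz ch j) (zz_unit ch j) K b) (inL k K T.R2) (bR_π _ _ _ _ _)
      (Polynomial.aeval ((1 : K) ⊗ₜ[k] T.y) : K[X] →ₐ[K] K ⊗[k] T.R2).toRingHom
      (et_bc _ T.ety) (fun c => Polynomial.aeval_C _ _) y

end Pool.Agent.MG


end

section

/-!
# WND: Weierstrass curves without cusps are nodal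
-/

open CategoryTheory CategoryTheory.Limits AlgebraicGeometry TensorProduct
open scoped Polynomial

namespace Pool.Agent.MG.W

namespace WND

/-! ### Standard étale rings and ring homomorphisms -/

section std

variable {R : Type} [CommRing R] (P : StandardEtalePair R)

/-- Ring homomorphisms from a standard étale ring. -/
noncomputable def liftR {S : Type} [CommRing S] (φ : R →+* S) (s : S)
    (h1 : Polynomial.eval₂ φ s P.f = 0) (h2 : IsUnit (Polynomial.eval₂ φ s P.g)) : P.Ring →+* S :=
  letI : Algebra R S := φ.toAlgebra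
  (P.lift s ⟨h1, h2⟩ : P.Ring →+* S)

theorem liftR_of {S : Type} [CommRing S] (φ : R →+* S) (s : S)
    (h1 : Polynomial.eval₂ φ s P.f = 0) (h2 : IsUnit (Polynomial.eval₂ φ s P.g)) (r : R) :
    liftR P φ s h1 h2 (algebraMap R P.Ring r) = φ r :=
  letI : Algebra R S := φ.toAlgebra
  (P.lift s ⟨h1, h2⟩).commutes r

theorem liftR_X {S : Type} [CommRing S] (φ : R →+* S) (s : S)
    (h1 : Polynomial.eval₂ φ s P.f = 0) (h2 : IsUnit (Polynomial.eval₂ φ s P.g)) :
    liftR P φ s h1 h2 P.X = s :=
  letI : Algebra R S := φ.toAlgebra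
  P.lift_X s ⟨h1, h2⟩

theorem std_ext {S : Type} [CommRing S] {f g : P.Ring →+* S}
    (h : ∀ r, f (algebraMap R P.Ring r) = g (algebraMap R P.Ring r)) (hX : f P.X = g P.X) :
    f = g := by
  let i1 : Algebra R S := (f.comp (algebraMap R P.Ring)).toAlgebra
  let f' : P.Ring →ₐ[R] S := { f with commutes' := fun _ => rfl }
  let g' : P.Ring →ₐ[R] S := { g with commutes' := fun r => (h r).symm }
  have h1 : f' = g' := P.hom_ext hX
  exact congrArg (fun (k : P.Ring →ₐ[R] S) => (k : P.Ring →+* S)) h1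

/-- The relation in the standard étale ring. -/
theorem std_rel : Polynomial.eval₂ (algebraMap R P.Ring) P.X P.f = 0 := P.hasMap_X.1

theorem std_unit : IsUnit (Polynomial.eval₂ (algebraMap R P.Ring) P.X P.g) := P.hasMap_X.2

theorem std_etale : (algebraMap R P.Ring).Etale :=
  RingHom.etale_algebraMap.2 inferInstance

/-- A ring homomorphism with the universal property of a standard étale ring is étale. -/
theorem etale_of {G : Type} [CommRing G] (φ : R →+* G) (t : G)
    (h1 : Polynomial.eval₂ φ t P.f = 0) (h2 : IsUnit (Polynomial.eval₂ φ t P.g))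
    (ρ : G →+* P.Ring) (hr : ∀ r, ρ (φ r) = algebraMap R P.Ring r) (ht : ρ t = P.X)
    (hid : (liftR P φ t h1 h2).comp ρ = RingHom.id G) : φ.Etale := by
  have hid' : ρ.comp (liftR P φ t h1 h2) = RingHom.id P.Ring := by
    refine std_ext P (fun r => ?_) ?_
    · rw [RingHom.comp_apply, liftR_of, hr]
      rfl
    · rw [RingHom.comp_apply, liftR_X, ht]
      rfl
  have hb : Function.Bijective (liftR P φ t h1 h2) := by
    constructor
    · intro a b hab
      have h3 : ρ (liftR P φ t h1 h2 a) = ρ (liftR P φ t h1 h2 b) := congrArg ρ hab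
      have h4 : ∀ r, ρ (liftR P φ t h1 h2 r) = r := fun r => DFunLike.congr_fun hid' r
      rwa [h4, h4] at h3
    · intro a
      exact ⟨ρ a, DFunLike.congr_fun hid a⟩
  have he : φ = (liftR P φ t h1 h2).comp (algebraMap R P.Ring) :=
    RingHom.ext fun r => (liftR_of P φ t h1 h2 r).symm
  rw [he]
  exact RingHom.Etale.stableUnderComposition _ _ (std_etale P) (RingHom.Etale.of_bijective hb)

/-- A standard étale pair with derivative inverted. -/
noncomputable def mkP (f : R[X]) (hf : f.Monic) (w : R[X]) : StandardEtalePair R where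
  f := f
  monic_f := hf
  g := w * Polynomial.derivative f
  cond := ⟨w, 0, 1, by ring⟩

theorem mkP_f (f : R[X]) (hf : f.Monic) (w : R[X]) : (mkP f hf w).f = f := rfl

theorem mkP_g (f : R[X]) (hf : f.Monic) (w : R[X]) :
    (mkP f hf w).g = w * Polynomial.derivative f := rfl

end std

/-! ### Points in a localised chart -/

theorem loc_pt {K : Type} [Field K] {X : Scheme.{0}} (π : X ⟶ Sp K) {A : Type} [CommRing A]
    (i : Sp A ⟶ X) [IsOpenImmersion i] (ψ : K →+* A) (hi : i ≫ π = spMap ψ) (s : A)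
    (κ : K[X] →+* Localization.Away s) (hκ : κ.Etale)
    (hc : ∀ c : K, κ (Polynomial.C c) = algebraMap A (Localization.Away s) (ψ c)) (p : Sp A)
    (hs : s ∉ p.asIdeal) :
    ∃ (V : Scheme.{0}) (f : V ⟶ X) (h : V ⟶ Sp (NodeRing K)),
      Etale f ∧ Etale h ∧ f ≫ π = h ≫ spMap (algebraMap K (NodeRing K)) ∧
        i p ∈ Set.range f := by
  have h1 : p ∈ Set.range (PrimeSpectrum.comap (algebraMap A (Localization.Away s))) := by
    rw [PrimeSpectrum.localization_away_comap_range (Localization.Away s) s]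
    exact hs
  obtain ⟨q, hq⟩ := h1
  have h2 := BNOD.chart_pt π (spMap (algebraMap A (Localization.Away s)) ≫ i)
    ((algebraMap A (Localization.Away s)).comp ψ)
    (by
      rw [Category.assoc, hi, ← Spec.map_comp]
      rfl) κ hκ hc q
  have h3 : (spMap (algebraMap A (Localization.Away s)) ≫ i) q = i p := by
    rw [Scheme.Hom.comp_apply, ← hq]
    rfl
  rwa [h3] at h2

/-! ### The affine chart where `y` is invertible -/

section chartY

variable (K : Type) [Field K] (a b : K)

/-- The polynomial `Y² - (x³ + a x + b)`. -/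
noncomputable abbrev fY : (K[X])[X] := Polynomial.X ^ 2 -
  Polynomial.C (Polynomial.X ^ 3 + Polynomial.C a * Polynomial.X + Polynomial.C b)

theorem fY_monic : (fY K a b).Monic := Polynomial.monic_X_pow_sub_C _ two_ne_zero

theorem fY_der {S : Type} [CommRing S] (φ : K[X] →+* S) (t : S) :
    Polynomial.eval₂ φ t (1 * Polynomial.derivative (fY K a b)) = 2 * t := by
  have h : (1 : (K[X])[X]) * Polynomial.derivative (fY K a b) = 2 * Polynomial.X := by
    rw [Polynomial.derivative_sub, Polynomial.derivative_C, Polynomial.derivative_X_pow]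
    simp only [Nat.cast_ofNat, Nat.add_one_sub_one, pow_one, sub_zero, one_mul]
    rw [map_ofNat]
  rw [h, Polynomial.eval₂_mul, Polynomial.eval₂_X, Polynomial.eval₂_ofNat]

/-- The localised chart. -/
abbrev GY : Type := Localization.Away (2 * y1 K a b)

/-- The coordinate `x`. -/
noncomputable def κY : K[X] →+* GY K a b :=
  Polynomial.eval₂RingHom ((algebraMap (A1 K a b) (GY K a b)).comp (algebraMap K (A1 K a b)))
    (algebraMap (A1 K a b) (GY K a b) (x1 K a b))

theorem κY_C (c : K) : κY K a b (Polynomial.C c) =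
    algebraMap (A1 K a b) (GY K a b) (algebraMap K (A1 K a b) c) := by
  simp [κY]

theorem κY_X : κY K a b Polynomial.X = algebraMap (A1 K a b) (GY K a b) (x1 K a b) := by
  simp [κY]

theorem κY_etale : (κY K a b).Etale := by
  let P := mkP (fY K a b) (fY_monic K a b) 1
  have hrel := congrArg (algebraMap (A1 K a b) (GY K a b)) (rel1 K a b)
  have h1 : Polynomial.eval₂ (κY K a b) (algebraMap (A1 K a b) (GY K a b) (y1 K a b)) P.f = 0 := by
    change Polynomial.eval₂ _ _ (fY K a b) = 0
    rw [Polynomial.eval₂_sub, Polynomial.eval₂_X_pow, Polynomial.eval₂_C, map_add, map_add,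
      map_mul, map_pow, κY_X, κY_C, κY_C, ← map_pow, hrel, map_add, map_add, map_mul, map_pow]
    ring
  have h2 : IsUnit (Polynomial.eval₂ (κY K a b)
      (algebraMap (A1 K a b) (GY K a b) (y1 K a b)) P.g) := by
    change IsUnit (Polynomial.eval₂ _ _ (1 * Polynomial.derivative (fY K a b)))
    have h3 : Polynomial.eval₂ (κY K a b) (algebraMap (A1 K a b) (GY K a b) (y1 K a b))
        (1 * Polynomial.derivative (fY K a b)) =
        algebraMap (A1 K a b) (GY K a b) (2 * y1 K a b) := by
      rw [fY_der, map_mul, map_ofNat]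
    rw [h3]
    exact IsLocalization.Away.algebraMap_isUnit _
  have hr := std_rel P
  have hu := std_unit P
  change Polynomial.eval₂ _ _ (fY K a b) = 0 at hr
  change IsUnit (Polynomial.eval₂ _ _ (1 * Polynomial.derivative (fY K a b))) at hu
  let ρ0 : A1 K a b →+* P.Ring := lift1 ((algebraMap K[X] P.Ring).comp Polynomial.C)
    (algebraMap K[X] P.Ring Polynomial.X) P.X (by
      rw [Polynomial.eval₂_sub, Polynomial.eval₂_X_pow, Polynomial.eval₂_C, map_add, map_add,
        map_mul, map_pow] at hr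
      linear_combination hr)
  have hu0 : IsUnit (ρ0 (2 * y1 K a b)) := by
    have h3 : Polynomial.eval₂ (algebraMap K[X] P.Ring) P.X
        (1 * Polynomial.derivative (fY K a b)) = ρ0 (2 * y1 K a b) := by
      rw [fY_der, map_mul, map_ofNat]
      congr 1
      exact (lift1_y _ _ _ _).symm
    rwa [h3] at hu
  let ρ : GY K a b →+* P.Ring := IsLocalization.Away.lift (2 * y1 K a b) hu0
  have hρ : ∀ v, ρ (algebraMap (A1 K a b) (GY K a b) v) = ρ0 v := fun v =>
    IsLocalization.Away.lift_eq _ _ _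
  refine etale_of P (κY K a b) (algebraMap (A1 K a b) (GY K a b) (y1 K a b)) h1 h2 ρ ?_ ?_ ?_
  · intro r
    change (ρ.comp (κY K a b)) r = _
    congr 1
    apply Polynomial.ringHom_ext
    · intro c
      rw [RingHom.comp_apply, κY_C, hρ]
      exact lift1_b _ _ _ _ _
    · rw [RingHom.comp_apply, κY_X, hρ]
      exact lift1_x _ _ _ _
  · rw [hρ]
    exact lift1_y _ _ _ _
  · refine IsLocalization.ringHom_ext (Submonoid.powers (2 * y1 K a b)) ?_
    refine hom1_ext ?_ ?_ ?_
    · intro c
      change liftR P _ _ h1 h2 (ρ (algebraMap _ _ (algebraMap K _ c))) = _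
      rw [hρ]
      have : ρ0 (algebraMap K _ c) = algebraMap K[X] P.Ring (Polynomial.C c) :=
        lift1_b _ _ _ _ _
      rw [this, liftR_of, κY_C]
      rfl
    · change liftR P _ _ h1 h2 (ρ (algebraMap _ _ (x1 K a b))) = _
      rw [hρ]
      have : ρ0 (x1 K a b) = algebraMap K[X] P.Ring Polynomial.X := lift1_x _ _ _ _
      rw [this, liftR_of, κY_X]
      rfl
    · change liftR P _ _ h1 h2 (ρ (algebraMap _ _ (y1 K a b))) = _
      rw [hρ]
      have : ρ0 (y1 K a b) = P.X := lift1_y _ _ _ _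
      rw [this, liftR_X]
      rfl

end chartY

/-! ### The affine chart where `3 x² + a` is invertible -/

section chartX

variable (K : Type) [Field K] (a b : K)

/-- The polynomial `X³ + a X + b - y²`. -/
noncomputable abbrev fX : (K[X])[X] := Polynomial.X ^ 3 +
  (Polynomial.C (Polynomial.C a) * Polynomial.X + Polynomial.C (Polynomial.C b - Polynomial.X ^ 2))

theorem fX_monic : (fX K a b).Monic := by
  refine Polynomial.monic_X_pow_add ?_
  have h : (Polynomial.C (Polynomial.C a : K[X]) * Polynomial.X +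
    Polynomial.C (Polynomial.C b - Polynomial.X ^ 2 : K[X])).degree ≤ 1 :=
    Polynomial.degree_linear_le
  exact lt_of_le_of_lt h (by norm_num)

theorem fX_val {S : Type} [CommRing S] (φ : K[X] →+* S) (t : S) :
    Polynomial.eval₂ φ t (fX K a b) = t ^ 3 + φ (Polynomial.C a) * t + φ (Polynomial.C b) -
      φ Polynomial.X ^ 2 := by
  rw [Polynomial.eval₂_add, Polynomial.eval₂_add, Polynomial.eval₂_mul, Polynomial.eval₂_X_pow,
    Polynomial.eval₂_C, Polynomial.eval₂_C, Polynomial.eval₂_X, map_sub, map_pow]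
  ring

theorem fX_der {S : Type} [CommRing S] (φ : K[X] →+* S) (t : S) :
    Polynomial.eval₂ φ t (1 * Polynomial.derivative (fX K a b)) =
      3 * t ^ 2 + φ (Polynomial.C a) := by
  have h : (1 : (K[X])[X]) * Polynomial.derivative (fX K a b) =
      3 * Polynomial.X ^ 2 + Polynomial.C (Polynomial.C a) := by
    rw [Polynomial.derivative_add, Polynomial.derivative_add, Polynomial.derivative_C,
      Polynomial.derivative_X_pow, Polynomial.derivative_mul, Polynomial.derivative_C,
      Polynomial.derivative_X]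
    simp only [Nat.cast_ofNat, Nat.add_one_sub_one, zero_mul, zero_add, add_zero, mul_one,
      one_mul, map_ofNat]
  rw [h, Polynomial.eval₂_add, Polynomial.eval₂_mul, Polynomial.eval₂_X_pow,
    Polynomial.eval₂_ofNat, Polynomial.eval₂_C]

/-- The function `3 x² + a`. -/
noncomputable abbrev sX : A1 K a b := 3 * x1 K a b ^ 2 + algebraMap K _ a

/-- The localised chart. -/
abbrev GX : Type := Localization.Away (sX K a b)

/-- The coordinate `y`. -/
noncomputable def κX : K[X] →+* GX K a b :=
  Polynomial.eval₂RingHom ((algebraMap (A1 K a b) (GX K a b)).comp (algebraMap K (A1 K a b)))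
    (algebraMap (A1 K a b) (GX K a b) (y1 K a b))

theorem κX_C (c : K) : κX K a b (Polynomial.C c) =
    algebraMap (A1 K a b) (GX K a b) (algebraMap K (A1 K a b) c) := by
  simp [κX]

theorem κX_X : κX K a b Polynomial.X = algebraMap (A1 K a b) (GX K a b) (y1 K a b) := by
  simp [κX]

theorem κX_etale : (κX K a b).Etale := by
  let P := mkP (fX K a b) (fX_monic K a b) 1
  have hrel := congrArg (algebraMap (A1 K a b) (GX K a b)) (rel1 K a b)
  have h1 : Polynomial.eval₂ (κX K a b) (algebraMap (A1 K a b) (GX K a b) (x1 K a b)) P.f = 0 := by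
    change Polynomial.eval₂ _ _ (fX K a b) = 0
    rw [fX_val, κX_C, κX_C, κX_X, ← map_pow, ← map_mul, ← map_add, ← map_add, ← map_pow, hrel,
      sub_self]
  have h2 : IsUnit (Polynomial.eval₂ (κX K a b)
      (algebraMap (A1 K a b) (GX K a b) (x1 K a b)) P.g) := by
    change IsUnit (Polynomial.eval₂ _ _ (1 * Polynomial.derivative (fX K a b)))
    have h3 : Polynomial.eval₂ (κX K a b) (algebraMap (A1 K a b) (GX K a b) (x1 K a b))
        (1 * Polynomial.derivative (fX K a b)) =
        algebraMap (A1 K a b) (GX K a b) (sX K a b) := by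
      rw [fX_der, κX_C, map_add, map_mul, map_pow, map_ofNat]
    rw [h3]
    exact IsLocalization.Away.algebraMap_isUnit _
  have hr := std_rel P
  have hu := std_unit P
  change Polynomial.eval₂ _ _ (fX K a b) = 0 at hr
  change IsUnit (Polynomial.eval₂ _ _ (1 * Polynomial.derivative (fX K a b))) at hu
  let ρ0 : A1 K a b →+* P.Ring := lift1 ((algebraMap K[X] P.Ring).comp Polynomial.C)
    P.X (algebraMap K[X] P.Ring Polynomial.X) (by
      rw [fX_val] at hr
      linear_combination - hr)
  have hu0 : IsUnit (ρ0 (sX K a b)) := by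
    have h3 : Polynomial.eval₂ (algebraMap K[X] P.Ring) P.X
        (1 * Polynomial.derivative (fX K a b)) = ρ0 (sX K a b) := by
      have e1 : ρ0 (x1 K a b) = P.X := lift1_x _ _ _ _
      have e2 : ρ0 (algebraMap K _ a) = algebraMap K[X] P.Ring (Polynomial.C a) :=
        lift1_b _ _ _ _ _
      rw [fX_der, map_add, map_mul, map_ofNat, map_pow, e1, e2]
    rwa [h3] at hu
  let ρ : GX K a b →+* P.Ring := IsLocalization.Away.lift (sX K a b) hu0
  have hρ : ∀ v, ρ (algebraMap (A1 K a b) (GX K a b) v) = ρ0 v := fun v =>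
    IsLocalization.Away.lift_eq _ _ _
  refine etale_of P (κX K a b) (algebraMap (A1 K a b) (GX K a b) (x1 K a b)) h1 h2 ρ ?_ ?_ ?_
  · intro r
    change (ρ.comp (κX K a b)) r = _
    congr 1
    apply Polynomial.ringHom_ext
    · intro c
      rw [RingHom.comp_apply, κX_C, hρ]
      exact lift1_b _ _ _ _ _
    · rw [RingHom.comp_apply, κX_X, hρ]
      exact lift1_y _ _ _ _
  · rw [hρ]
    exact lift1_x _ _ _ _
  · refine IsLocalization.ringHom_ext (Submonoid.powers (sX K a b)) ?_
    refine hom1_ext ?_ ?_ ?_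
    · intro c
      change liftR P _ _ h1 h2 (ρ (algebraMap _ _ (algebraMap K _ c))) = _
      rw [hρ]
      have : ρ0 (algebraMap K _ c) = algebraMap K[X] P.Ring (Polynomial.C c) :=
        lift1_b _ _ _ _ _
      rw [this, liftR_of, κX_C]
      rfl
    · change liftR P _ _ h1 h2 (ρ (algebraMap _ _ (x1 K a b))) = _
      rw [hρ]
      have : ρ0 (x1 K a b) = P.X := lift1_x _ _ _ _
      rw [this, liftR_X]
      rfl
    · change liftR P _ _ h1 h2 (ρ (algebraMap _ _ (y1 K a b))) = _
      rw [hρ]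
      have : ρ0 (y1 K a b) = algebraMap K[X] P.Ring Polynomial.X := lift1_y _ _ _ _
      rw [this, liftR_of, κX_X]
      rfl

end chartX

/-! ### The chart at infinity -/

section chartZ

variable (K : Type) [Field K] (a b : K)

/-- The polynomial `τ³ - τ² + a z⁴ τ + b z⁶`. -/
noncomputable abbrev fZ : (K[X])[X] := Polynomial.X ^ 3 +
  (Polynomial.C (-1) * Polynomial.X ^ 2 + Polynomial.C (Polynomial.C a * Polynomial.X ^ 4) *
    Polynomial.X + Polynomial.C (Polynomial.C b * Polynomial.X ^ 6))

theorem fZ_monic : (fZ K a b).Monic := by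
  refine Polynomial.monic_X_pow_add ?_
  exact lt_of_le_of_lt Polynomial.degree_quadratic_le (by norm_num)

theorem fZ_val {S : Type} [CommRing S] (φ : K[X] →+* S) (t : S) :
    Polynomial.eval₂ φ t (fZ K a b) = t ^ 3 - t ^ 2 + φ (Polynomial.C a) * φ Polynomial.X ^ 4 * t +
      φ (Polynomial.C b) * φ Polynomial.X ^ 6 := by
  rw [Polynomial.eval₂_add, Polynomial.eval₂_add, Polynomial.eval₂_add, Polynomial.eval₂_mul,
    Polynomial.eval₂_mul, Polynomial.eval₂_X_pow, Polynomial.eval₂_X_pow,
    Polynomial.eval₂_C, Polynomial.eval₂_C, Polynomial.eval₂_C, Polynomial.eval₂_X, map_neg,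
    map_one, map_mul, map_mul, map_pow, map_pow]
  ring

theorem fZ_der {S : Type} [CommRing S] (φ : K[X] →+* S) (t : S) :
    Polynomial.eval₂ φ t (Polynomial.X * Polynomial.derivative (fZ K a b)) =
      t * (3 * t ^ 2 - 2 * t + φ (Polynomial.C a) * φ Polynomial.X ^ 4) := by
  have h : Polynomial.derivative (fZ K a b) =
      3 * Polynomial.X ^ 2 - 2 * Polynomial.X + Polynomial.C (Polynomial.C a *
        Polynomial.X ^ 4) := by
    rw [Polynomial.derivative_add, Polynomial.derivative_add, Polynomial.derivative_add,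
      Polynomial.derivative_C, Polynomial.derivative_C_mul, Polynomial.derivative_C_mul,
      Polynomial.derivative_X_pow, Polynomial.derivative_X_pow, Polynomial.derivative_X]
    simp only [Nat.cast_ofNat, Nat.add_one_sub_one, add_zero, mul_one, map_ofNat, map_neg,
      map_one, pow_one]
    ring
  rw [h, Polynomial.eval₂_mul, Polynomial.eval₂_add, Polynomial.eval₂_sub, Polynomial.eval₂_mul,
    Polynomial.eval₂_mul, Polynomial.eval₂_X_pow, Polynomial.eval₂_X,
    Polynomial.eval₂_ofNat, Polynomial.eval₂_ofNat, Polynomial.eval₂_C, map_mul, map_pow]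

/-- The function `3 - 2 t + a z⁴ t²`. -/
noncomputable abbrev sZ : A2 K a b := 3 - 2 * t2 K a b +
  algebraMap K _ a * z2 K a b ^ 4 * t2 K a b ^ 2

/-- The localised chart. -/
abbrev GZ : Type := Localization.Away (sZ K a b)

/-- The coordinate `z`. -/
noncomputable def κZ : K[X] →+* GZ K a b :=
  Polynomial.eval₂RingHom ((algebraMap (A2 K a b) (GZ K a b)).comp (algebraMap K (A2 K a b)))
    (algebraMap (A2 K a b) (GZ K a b) (z2 K a b))

theorem κZ_C (c : K) : κZ K a b (Polynomial.C c) =
    algebraMap (A2 K a b) (GZ K a b) (algebraMap K (A2 K a b) c) := by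
  simp [κZ]

theorem κZ_X : κZ K a b Polynomial.X = algebraMap (A2 K a b) (GZ K a b) (z2 K a b) := by
  simp [κZ]

/-- The inverse of `t`. -/
theorem exists_tau : ∃ τ : A2 K a b, t2 K a b * τ = 1 ∧
    τ ^ 3 - τ ^ 2 + algebraMap K _ a * z2 K a b ^ 4 * τ + algebraMap K _ b * z2 K a b ^ 6 = 0 ∧
    τ * (3 * τ ^ 2 - 2 * τ + algebraMap K _ a * z2 K a b ^ 4) = τ ^ 3 * sZ K a b := by
  obtain ⟨τ, hτ⟩ := (t2_unit K a b).exists_right_inv
  refine ⟨τ, hτ, ?_, ?_⟩
  · have h := rel2 K a b
    generalize algebraMap K (A2 K a b) a = a' at *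
    generalize algebraMap K (A2 K a b) b = b' at *
    generalize z2 K a b = z at *
    generalize t2 K a b = t at *
    have e1 : t * τ ^ 3 = τ ^ 2 := by linear_combination τ ^ 2 * hτ
    have e2 : t ^ 2 * τ ^ 3 = τ := by linear_combination (τ * (t * τ) + τ) * hτ
    have e3 : t ^ 3 * τ ^ 3 = 1 := by rw [← mul_pow, hτ, one_pow]
    linear_combination - τ ^ 3 * h + e1 - a' * z ^ 4 * e2 - b' * z ^ 6 * e3
  · unfold sZ
    generalize algebraMap K (A2 K a b) a = a' at *
    generalize z2 K a b = z at *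
    generalize t2 K a b = t at *
    have e1 : t * τ ^ 3 = τ ^ 2 := by linear_combination τ ^ 2 * hτ
    have e2 : t ^ 2 * τ ^ 3 = τ := by linear_combination (τ * (t * τ) + τ) * hτ
    linear_combination 2 * e1 - a' * z ^ 4 * e2

theorem aux_s {S : Type} [CommRing S] (a' z X T : S) (hT : X * T = 1) :
    3 - 2 * T + a' * z ^ 4 * T ^ 2 = T ^ 3 * (X * (3 * X ^ 2 - 2 * X + a' * z ^ 4)) := by
  have eT2 : X ^ 2 * T ^ 2 = 1 := by rw [← mul_pow, hT, one_pow]
  have eT3 : X ^ 3 * T ^ 3 = 1 := by rw [← mul_pow, hT, one_pow]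
  linear_combination - 3 * eT3 + 2 * T * eT2 - a' * z ^ 4 * T ^ 2 * hT

theorem κZ_etale : (κZ K a b).Etale := by
  obtain ⟨τ, hτ, hτ1, hτ2⟩ := exists_tau K a b
  let P := mkP (fZ K a b) (fZ_monic K a b) Polynomial.X
  have h1 : Polynomial.eval₂ (κZ K a b) (algebraMap (A2 K a b) (GZ K a b) τ) P.f = 0 := by
    change Polynomial.eval₂ _ _ (fZ K a b) = 0
    rw [fZ_val, κZ_C, κZ_C, κZ_X, ← map_pow, ← map_pow, ← map_pow, ← map_pow, ← map_mul,
      ← map_mul, ← map_mul, ← map_sub, ← map_add, ← map_add, hτ1, map_zero]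
  have hτu : IsUnit τ := IsUnit.of_mul_eq_one _ ((mul_comm _ _).trans hτ)
  have h2 : IsUnit (Polynomial.eval₂ (κZ K a b)
      (algebraMap (A2 K a b) (GZ K a b) τ) P.g) := by
    change IsUnit (Polynomial.eval₂ _ _ (Polynomial.X * Polynomial.derivative (fZ K a b)))
    have h3 : Polynomial.eval₂ (κZ K a b) (algebraMap (A2 K a b) (GZ K a b) τ)
        (Polynomial.X * Polynomial.derivative (fZ K a b)) =
        algebraMap (A2 K a b) (GZ K a b) (τ ^ 3 * sZ K a b) := by
      rw [fZ_der, κZ_C, κZ_X, ← hτ2]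
      simp only [map_mul, map_add, map_sub, map_pow, map_ofNat]
    rw [h3, map_mul]
    exact ((hτu.pow 3).map _).mul (IsLocalization.Away.algebraMap_isUnit _)
  have hr := std_rel P
  have hu := std_unit P
  change Polynomial.eval₂ _ _ (fZ K a b) = 0 at hr
  change IsUnit (Polynomial.eval₂ _ _ (Polynomial.X * Polynomial.derivative (fZ K a b))) at hu
  rw [fZ_val] at hr
  rw [fZ_der] at hu
  have hXu : IsUnit P.X := isUnit_of_mul_isUnit_left hu
  obtain ⟨T, hT⟩ := hXu.exists_right_inv
  have hTu : IsUnit T := IsUnit.of_mul_eq_one _ ((mul_comm _ _).trans hT)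
  have eT2 : P.X ^ 2 * T ^ 2 = 1 := by rw [← mul_pow, hT, one_pow]
  have eT3 : P.X ^ 3 * T ^ 3 = 1 := by rw [← mul_pow, hT, one_pow]
  let ρ0 : A2 K a b →+* P.Ring := lift2 ((algebraMap K[X] P.Ring).comp Polynomial.C)
    (algebraMap K[X] P.Ring Polynomial.X) T (by
      change T = 1 + algebraMap K[X] P.Ring (Polynomial.C a) *
        algebraMap K[X] P.Ring Polynomial.X ^ 4 * T ^ 2 +
        algebraMap K[X] P.Ring (Polynomial.C b) * algebraMap K[X] P.Ring Polynomial.X ^ 6 * T ^ 3
      generalize algebraMap K[X] P.Ring (Polynomial.C a) = a' at *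
      generalize algebraMap K[X] P.Ring (Polynomial.C b) = b' at *
      generalize algebraMap K[X] P.Ring Polynomial.X = z at *
      generalize P.X = X at *
      linear_combination - T ^ 3 * hr + eT3 - T * eT2 + a' * z ^ 4 * T ^ 2 * hT)
  have r1 : ∀ c, ρ0 (algebraMap K _ c) = algebraMap K[X] P.Ring (Polynomial.C c) := fun c =>
    lift2_b _ _ _ _ _
  have r2 : ρ0 (z2 K a b) = algebraMap K[X] P.Ring Polynomial.X := lift2_z _ _ _ _
  have r3 : ρ0 (t2 K a b) = T := lift2_t _ _ _ _
  have hu0 : IsUnit (ρ0 (sZ K a b)) := by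
    have h3 : ρ0 (sZ K a b) = T ^ 3 * (P.X * (3 * P.X ^ 2 - 2 * P.X +
        algebraMap K[X] P.Ring (Polynomial.C a) * algebraMap K[X] P.Ring Polynomial.X ^ 4)) := by
      rw [map_add, map_sub, map_mul, map_mul, map_mul, map_pow, map_pow, map_ofNat, map_ofNat,
        r1, r2, r3]
      exact aux_s _ _ _ _ hT
    rw [h3]
    exact (hTu.pow 3).mul hu
  let ρ : GZ K a b →+* P.Ring := IsLocalization.Away.lift (sZ K a b) hu0
  have hρ : ∀ v, ρ (algebraMap (A2 K a b) (GZ K a b) v) = ρ0 v := fun v =>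
    IsLocalization.Away.lift_eq _ _ _
  have hρτ : ρ (algebraMap (A2 K a b) (GZ K a b) τ) = P.X := by
    rw [hρ]
    have h3 : T * ρ0 τ = 1 := by
      rw [← r3, ← map_mul, hτ, map_one]
    calc ρ0 τ = (P.X * T) * ρ0 τ := by rw [hT, one_mul]
      _ = P.X * (T * ρ0 τ) := by ring
      _ = P.X := by rw [h3, mul_one]
  refine etale_of P (κZ K a b) (algebraMap (A2 K a b) (GZ K a b) τ) h1 h2 ρ ?_ hρτ ?_
  · intro r
    change (ρ.comp (κZ K a b)) r = _
    congr 1
    apply Polynomial.ringHom_ext
    · intro c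
      rw [RingHom.comp_apply, κZ_C, hρ, r1]
    · rw [RingHom.comp_apply, κZ_X, hρ, r2]
  · refine IsLocalization.ringHom_ext (Submonoid.powers (sZ K a b)) ?_
    refine hom2_ext ?_ ?_ ?_
    · intro c
      change liftR P _ _ h1 h2 (ρ (algebraMap _ _ (algebraMap K _ c))) = _
      rw [hρ, r1, liftR_of, κZ_C]
      rfl
    · change liftR P _ _ h1 h2 (ρ (algebraMap _ _ (z2 K a b))) = _
      rw [hρ, r2, liftR_of, κZ_X]
      rfl
    · change liftR P _ _ h1 h2 (ρ (algebraMap _ _ (t2 K a b))) =
        algebraMap (A2 K a b) (GZ K a b) (t2 K a b)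
      rw [hρ, r3]
      have h3 : algebraMap (A2 K a b) (GZ K a b) τ * liftR P _ _ h1 h2 T = 1 := by
        have h4 := congrArg (liftR P _ _ h1 h2) hT
        rwa [map_mul, liftR_X, map_one] at h4
      have h5 : algebraMap (A2 K a b) (GZ K a b) (t2 K a b) *
          algebraMap (A2 K a b) (GZ K a b) τ = 1 := by
        rw [← map_mul, hτ, map_one]
      calc liftR P _ _ h1 h2 T = (algebraMap (A2 K a b) (GZ K a b) (t2 K a b) *
          algebraMap (A2 K a b) (GZ K a b) τ) * liftR P _ _ h1 h2 T := by rw [h5, one_mul]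
        _ = algebraMap (A2 K a b) (GZ K a b) (t2 K a b) *
          (algebraMap (A2 K a b) (GZ K a b) τ * liftR P _ _ h1 h2 T) := by ring
        _ = _ := by rw [h3, mul_one]

end chartZ

/-! ### The node -/

section node

variable (K : Type) [Field K] (a b c : K)

/-- The polynomial `W² - (x + 2 c)` over the coordinate ring of the curve. -/
noncomputable abbrev fW : (A1 K a b)[X] :=
  Polynomial.X ^ 2 - Polynomial.C (x1 K a b + 2 * algebraMap K _ c)

theorem fW_monic : (fW K a b c).Monic := Polynomial.monic_X_pow_sub_C _ two_ne_zero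

/-- The factor `3 W (W² - c)`. -/
noncomputable abbrev wW : (A1 K a b)[X] :=
  3 * (Polynomial.X ^ 2 - Polynomial.C (algebraMap K _ c))

theorem fW_val {S : Type} [CommRing S] (φ : A1 K a b →+* S) (t : S) :
    Polynomial.eval₂ φ t (fW K a b c) = t ^ 2 - (φ (x1 K a b) + 2 * φ (algebraMap K _ c)) := by
  rw [Polynomial.eval₂_sub, Polynomial.eval₂_X_pow, Polynomial.eval₂_C, map_add, map_mul,
    map_ofNat]

theorem fW_der {S : Type} [CommRing S] (φ : A1 K a b →+* S) (t : S) :
    Polynomial.eval₂ φ t (wW K a b c * Polynomial.derivative (fW K a b c)) =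
      3 * (t ^ 2 - φ (algebraMap K _ c)) * (2 * t) := by
  have h : Polynomial.derivative (fW K a b c) = 2 * Polynomial.X := by
    rw [Polynomial.derivative_sub, Polynomial.derivative_C, Polynomial.derivative_X_pow]
    simp only [Nat.cast_ofNat, Nat.add_one_sub_one, pow_one, sub_zero]
    rw [map_ofNat]
  rw [h, Polynomial.eval₂_mul, Polynomial.eval₂_mul, Polynomial.eval₂_mul, Polynomial.eval₂_sub,
    Polynomial.eval₂_X_pow, Polynomial.eval₂_X, Polynomial.eval₂_ofNat, Polynomial.eval₂_ofNat,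
    Polynomial.eval₂_C]

/-- The polynomial `W³ - 3 c W - (v - u)/2` over the ring of the node. -/
noncomputable abbrev fN : (NodeRing K)[X] := Polynomial.X ^ 3 +
  (Polynomial.C (algebraMap K (NodeRing K) (-3 * c)) * Polynomial.X +
    Polynomial.C (algebraMap K (NodeRing K) (1 / 2) * (NOD.uu K - NOD.vv K)))

theorem fN_monic : (fN K c).Monic := by
  refine Polynomial.monic_X_pow_add ?_
  exact lt_of_le_of_lt Polynomial.degree_linear_le (by norm_num)

theorem fN_val {S : Type} [CommRing S] (φ : NodeRing K →+* S) (t : S) :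
    Polynomial.eval₂ φ t (fN K c) = t ^ 3 - 3 * φ (algebraMap K _ c) * t +
      φ (algebraMap K _ (1 / 2)) * (φ (NOD.uu K) - φ (NOD.vv K)) := by
  rw [Polynomial.eval₂_add, Polynomial.eval₂_add, Polynomial.eval₂_mul, Polynomial.eval₂_X_pow,
    Polynomial.eval₂_C, Polynomial.eval₂_C, Polynomial.eval₂_X]
  have : algebraMap K (NodeRing K) (-3 * c) = - 3 * algebraMap K (NodeRing K) c := by
    rw [map_mul, map_neg, map_ofNat]
  rw [this, map_mul, map_neg, map_ofNat, map_mul, map_sub]
  ring

theorem fN_der {S : Type} [CommRing S] (φ : NodeRing K →+* S) (t : S) :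
    Polynomial.eval₂ φ t (2 * Polynomial.X * Polynomial.derivative (fN K c)) =
      2 * t * (3 * (t ^ 2 - φ (algebraMap K _ c))) := by
  have h : Polynomial.derivative (fN K c) =
      3 * Polynomial.X ^ 2 + Polynomial.C (algebraMap K (NodeRing K) (-3 * c)) := by
    rw [Polynomial.derivative_add, Polynomial.derivative_add, Polynomial.derivative_C,
      Polynomial.derivative_X_pow, Polynomial.derivative_C_mul, Polynomial.derivative_X]
    simp only [Nat.cast_ofNat, Nat.add_one_sub_one, add_zero, mul_one, map_ofNat]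
  have : algebraMap K (NodeRing K) (-3 * c) = - 3 * algebraMap K (NodeRing K) c := by
    rw [map_mul, map_neg, map_ofNat]
  rw [h, Polynomial.eval₂_mul, Polynomial.eval₂_mul, Polynomial.eval₂_add, Polynomial.eval₂_mul,
    Polynomial.eval₂_X_pow, Polynomial.eval₂_X, Polynomial.eval₂_ofNat, Polynomial.eval₂_ofNat,
    Polynomial.eval₂_C, this, map_mul, map_neg, map_ofNat]
  ring

/-- Homomorphisms from the ring of the node. -/
noncomputable def liftN {S : Type} [CommRing S] (φ : K →+* S) (u v : S) (h : u * v = 0) :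
    NodeRing K →+* S :=
  Ideal.Quotient.lift _ (MvPolynomial.eval₂Hom φ ![u, v]) (by
    intro p hp
    have h : Ideal.span {(MvPolynomial.X 0 * MvPolynomial.X 1 : MvPolynomial (Fin 2) K)} ≤
        RingHom.ker (MvPolynomial.eval₂Hom φ ![u, v]) := by
      rw [Ideal.span_le, Set.singleton_subset_iff]
      change MvPolynomial.eval₂Hom φ ![u, v] (MvPolynomial.X 0 * MvPolynomial.X 1) = 0
      rw [map_mul, MvPolynomial.eval₂Hom_X', MvPolynomial.eval₂Hom_X']
      exact h
    exact h hp)

theorem liftN_u {S : Type} [CommRing S] (φ : K →+* S) (u v : S) (h : u * v = 0) :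
    liftN K φ u v h (NOD.uu K) = u :=
  (Ideal.Quotient.lift_mk _ _ _).trans (MvPolynomial.eval₂Hom_X' _ _ _)

theorem liftN_v {S : Type} [CommRing S] (φ : K →+* S) (u v : S) (h : u * v = 0) :
    liftN K φ u v h (NOD.vv K) = v :=
  (Ideal.Quotient.lift_mk _ _ _).trans (MvPolynomial.eval₂Hom_X' _ _ _)

theorem liftN_b {S : Type} [CommRing S] (φ : K →+* S) (u v : S) (h : u * v = 0) (c : K) :
    liftN K φ u v h (algebraMap K _ c) = φ c :=
  (Ideal.Quotient.lift_mk _ _ _ (a := MvPolynomial.C c)).trans (MvPolynomial.eval₂Hom_C _ _ _)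

theorem homN_ext {S : Type} [CommRing S] {f g : NodeRing K →+* S}
    (h : ∀ c, f (algebraMap K _ c) = g (algebraMap K _ c))
    (hu : f (NOD.uu K) = g (NOD.uu K)) (hv : f (NOD.vv K) = g (NOD.vv K)) : f = g := by
  refine Ideal.Quotient.ringHom_ext ?_
  refine MvPolynomial.ringHom_ext (fun c => h c) fun i => ?_
  fin_cases i
  · exact hu
  · exact hv

/-- The pair over the coordinate ring of the curve. -/
noncomputable abbrev PW : StandardEtalePair (A1 K a b) :=
  mkP (fW K a b c) (fW_monic K a b c) (wW K a b c)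

/-- The pair over the ring of the node. -/
noncomputable abbrev PN : StandardEtalePair (NodeRing K) :=
  mkP (fN K c) (fN_monic K c) (2 * Polynomial.X)

/-- The common étale neighbourhood. -/
abbrev GG : Type := (PW K a b c).Ring

/-- The map from the curve. -/
noncomputable abbrev αG : A1 K a b →+* GG K a b c := algebraMap (A1 K a b) (PW K a b c).Ring

/-- The function `W`. -/
noncomputable abbrev wG : GG K a b c := (PW K a b c).X

theorem wG_rel : wG K a b c ^ 2 = αG K a b c (x1 K a b) + 2 * αG K a b c (algebraMap K _ c) := by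
  have h := std_rel (PW K a b c)
  change Polynomial.eval₂ _ _ (fW K a b c) = 0 at h
  rw [fW_val] at h
  linear_combination h

theorem wG_unit : IsUnit (3 * (wG K a b c ^ 2 - αG K a b c (algebraMap K _ c)) *
    (2 * wG K a b c)) := by
  have h := std_unit (PW K a b c)
  change IsUnit (Polynomial.eval₂ _ _ (wW K a b c * Polynomial.derivative (fW K a b c))) at h
  rwa [fW_der] at h

/-- The map from the node ring. -/
noncomputable abbrev βG : NodeRing K →+* (PN K c).Ring := algebraMap (NodeRing K) (PN K c).Ring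

/-- The function `W`. -/
noncomputable abbrev wN : (PN K c).Ring := (PN K c).X

theorem wN_rel : wN K c ^ 3 - 3 * βG K c (algebraMap K _ c) * wN K c +
    βG K c (algebraMap K _ (1 / 2)) * (βG K c (NOD.uu K) - βG K c (NOD.vv K)) = 0 := by
  have h := std_rel (PN K c)
  change Polynomial.eval₂ _ _ (fN K c) = 0 at h
  rwa [fN_val] at h

theorem wN_unit : IsUnit (2 * wN K c * (3 * (wN K c ^ 2 - βG K c (algebraMap K _ c)))) := by
  have h := std_unit (PN K c)
  change IsUnit (Polynomial.eval₂ _ _ (2 * Polynomial.X * Polynomial.derivative (fN K c))) at h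
  rwa [fN_der] at h

variable {K a b c}

theorem half_mul {S : Type} [CommRing S] (h2 : (2 : K) ≠ 0) (φ : K →+* S) :
    2 * φ (1 / 2) = 1 := by
  have : (2 : K) * (1 / 2) = 1 := by field_simp
  have h := congrArg φ this
  rwa [map_mul, map_ofNat, map_one] at h

theorem yG_rel (ha : a = -3 * c ^ 2) (hb : b = 2 * c ^ 3) :
    αG K a b c (y1 K a b) ^ 2 = (wG K a b c * (wG K a b c ^ 2 -
      3 * αG K a b c (algebraMap K _ c))) ^ 2 := by
  have h := congrArg (αG K a b c) (rel1 K a b)
  have h1 : algebraMap K (A1 K a b) a = - 3 * algebraMap K (A1 K a b) c ^ 2 :=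
    (congrArg (algebraMap K (A1 K a b)) ha).trans (by rw [map_mul, map_pow, map_neg, map_ofNat])
  have h2 : algebraMap K (A1 K a b) b = 2 * algebraMap K (A1 K a b) c ^ 3 :=
    (congrArg (algebraMap K (A1 K a b)) hb).trans (by rw [map_mul, map_pow, map_ofNat])
  rw [h1, h2] at h
  simp only [map_add, map_mul, map_pow, map_neg, map_ofNat] at h
  have h3 := wG_rel K a b c
  have h4 : αG K a b c (x1 K a b) = wG K a b c ^ 2 - 2 * αG K a b c (algebraMap K _ c) := by
    linear_combination - h3
  rw [h4] at h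
  rw [h]
  ring

/-- The map from the ring of the node to the common neighbourhood. -/
noncomputable def φG (ha : a = -3 * c ^ 2) (hb : b = 2 * c ^ 3) : NodeRing K →+* GG K a b c :=
  liftN K ((αG K a b c).comp (algebraMap K _))
    (αG K a b c (y1 K a b) - wG K a b c * (wG K a b c ^ 2 - 3 * αG K a b c (algebraMap K _ c)))
    (αG K a b c (y1 K a b) + wG K a b c * (wG K a b c ^ 2 - 3 * αG K a b c (algebraMap K _ c)))
    (by
      have h := yG_rel ha hb
      linear_combination h)

theorem φG_u (ha : a = -3 * c ^ 2) (hb : b = 2 * c ^ 3) : φG ha hb (NOD.uu K) =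
    αG K a b c (y1 K a b) - wG K a b c * (wG K a b c ^ 2 - 3 * αG K a b c (algebraMap K _ c)) :=
  liftN_u _ _ _ _ _

theorem φG_v (ha : a = -3 * c ^ 2) (hb : b = 2 * c ^ 3) : φG ha hb (NOD.vv K) =
    αG K a b c (y1 K a b) + wG K a b c * (wG K a b c ^ 2 - 3 * αG K a b c (algebraMap K _ c)) :=
  liftN_v _ _ _ _ _

theorem φG_b (ha : a = -3 * c ^ 2) (hb : b = 2 * c ^ 3) (r : K) :
    φG ha hb (algebraMap K _ r) = αG K a b c (algebraMap K _ r) :=
  liftN_b _ _ _ _ _ _

theorem yN_rel (h2 : (2 : K) ≠ 0) (ha : a = -3 * c ^ 2) (hb : b = 2 * c ^ 3) :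
    (βG K c (algebraMap K _ (1 / 2)) * (βG K c (NOD.uu K) + βG K c (NOD.vv K))) ^ 2 =
    (wN K c ^ 2 - 2 * βG K c (algebraMap K _ c)) ^ 3 +
      βG K c (algebraMap K _ a) * (wN K c ^ 2 - 2 * βG K c (algebraMap K _ c)) +
      βG K c (algebraMap K _ b) := by
  have h := wN_rel K c
  have h1 : βG K c (algebraMap K (NodeRing K) a) = - 3 * βG K c (algebraMap K _ c) ^ 2 := by
    conv_lhs => rw [ha]
    rw [map_mul, map_pow, map_neg, map_ofNat, map_mul, map_pow, map_neg, map_ofNat]
  have h3 : βG K c (algebraMap K (NodeRing K) b) = 2 * βG K c (algebraMap K _ c) ^ 3 := by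
    conv_lhs => rw [hb]
    rw [map_mul, map_pow, map_ofNat, map_mul, map_pow, map_ofNat]
  have h4 : βG K c (NOD.uu K) * βG K c (NOD.vv K) = 0 := by
    rw [← map_mul, NOD.uu_vv, map_zero]
  have h5 := half_mul h2 ((βG K c).comp (algebraMap K (NodeRing K)))
  rw [RingHom.comp_apply] at h5
  rw [h1, h3]
  generalize βG K c (algebraMap K (NodeRing K) c) = c' at *
  generalize βG K c (algebraMap K (NodeRing K) (1 / 2)) = e at *
  generalize βG K c (NOD.uu K) = u at *
  generalize βG K c (NOD.vv K) = v at *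
  generalize wN K c = w at *
  have h6 : w * (w ^ 2 - 3 * c') = e * (v - u) := by linear_combination h
  have h7 : (w * (w ^ 2 - 3 * c')) ^ 2 = (e * (u + v)) ^ 2 := by
    rw [h6]
    linear_combination -4 * e ^ 2 * h4
  rw [← h7]
  ring

/-- The chart ring to the standard étale ring over the ring of the node. -/
noncomputable def ρ0 (h2 : (2 : K) ≠ 0) (ha : a = -3 * c ^ 2) (hb : b = 2 * c ^ 3) :
    A1 K a b →+* (PN K c).Ring :=
  lift1 ((βG K c).comp (algebraMap K _)) (wN K c ^ 2 - 2 * βG K c (algebraMap K _ c))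
    (βG K c (algebraMap K _ (1 / 2)) * (βG K c (NOD.uu K) + βG K c (NOD.vv K)))
    (yN_rel h2 ha hb)

theorem ρ0_x (h2 : (2 : K) ≠ 0) (ha : a = -3 * c ^ 2) (hb : b = 2 * c ^ 3) :
    ρ0 h2 ha hb (x1 K a b) = wN K c ^ 2 - 2 * βG K c (algebraMap K _ c) := lift1_x _ _ _ _

theorem ρ0_y (h2 : (2 : K) ≠ 0) (ha : a = -3 * c ^ 2) (hb : b = 2 * c ^ 3) :
    ρ0 h2 ha hb (y1 K a b) =
      βG K c (algebraMap K _ (1 / 2)) * (βG K c (NOD.uu K) + βG K c (NOD.vv K)) :=
  lift1_y _ _ _ _

theorem ρ0_b (h2 : (2 : K) ≠ 0) (ha : a = -3 * c ^ 2) (hb : b = 2 * c ^ 3) (r : K) :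
    ρ0 h2 ha hb (algebraMap K _ r) = βG K c (algebraMap K _ r) := lift1_b _ _ _ _ _

/-- The common neighbourhood to the standard étale ring over the ring of the node. -/
noncomputable def ρG (h2 : (2 : K) ≠ 0) (ha : a = -3 * c ^ 2) (hb : b = 2 * c ^ 3) :
    GG K a b c →+* (PN K c).Ring :=
  liftR (PW K a b c) (ρ0 h2 ha hb) (wN K c) (by
    change Polynomial.eval₂ _ _ (fW K a b c) = 0
    rw [fW_val, ρ0_x, ρ0_b]
    ring) (by
    change IsUnit (Polynomial.eval₂ _ _ (wW K a b c * Polynomial.derivative (fW K a b c)))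
    rw [fW_der, ρ0_b]
    have h := wN_unit K c
    have e : 3 * (wN K c ^ 2 - βG K c (algebraMap K _ c)) * (2 * wN K c) =
        2 * wN K c * (3 * (wN K c ^ 2 - βG K c (algebraMap K _ c))) := by ring
    rwa [e])

theorem ρG_X (h2 : (2 : K) ≠ 0) (ha : a = -3 * c ^ 2) (hb : b = 2 * c ^ 3) :
    ρG h2 ha hb (wG K a b c) = wN K c := liftR_X _ _ _ _ _

theorem ρG_of (h2 : (2 : K) ≠ 0) (ha : a = -3 * c ^ 2) (hb : b = 2 * c ^ 3) (v : A1 K a b) :
    ρG h2 ha hb (αG K a b c v) = ρ0 h2 ha hb v := liftR_of _ _ _ _ _ _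

theorem wN_rel' : wN K c * (wN K c ^ 2 - 3 * βG K c (algebraMap K _ c)) =
    βG K c (algebraMap K _ (1 / 2)) * (βG K c (NOD.vv K) - βG K c (NOD.uu K)) := by
  have h := wN_rel K c
  linear_combination h

theorem φG_etale (h2 : (2 : K) ≠ 0) (ha : a = -3 * c ^ 2) (hb : b = 2 * c ^ 3) :
    (φG ha hb : NodeRing K →+* GG K a b c).Etale := by
  have e1 := φG_u (K := K) ha hb
  have e2 := φG_v (K := K) ha hb
  have e3 : ∀ r, φG ha hb (algebraMap K _ r) = αG K a b c (algebraMap K _ r) := φG_b ha hb
  have hh := half_mul h2 ((αG K a b c).comp (algebraMap K (A1 K a b)))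
  rw [RingHom.comp_apply] at hh
  have hh' := half_mul h2 ((βG K c).comp (algebraMap K (NodeRing K)))
  rw [RingHom.comp_apply] at hh'
  have h1 : Polynomial.eval₂ (φG ha hb) (wG K a b c) (PN K c).f = 0 := by
    change Polynomial.eval₂ _ _ (fN K c) = 0
    rw [fN_val, e1, e2, e3, e3]
    linear_combination - (wG K a b c * (wG K a b c ^ 2 - 3 * αG K a b c (algebraMap K _ c))) * hh
  have hu : IsUnit (Polynomial.eval₂ (φG ha hb) (wG K a b c) (PN K c).g) := by
    change IsUnit (Polynomial.eval₂ _ _ (2 * Polynomial.X * Polynomial.derivative (fN K c)))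
    rw [fN_der, e3]
    have h := wG_unit K a b c
    have e : 2 * wG K a b c * (3 * (wG K a b c ^ 2 - αG K a b c (algebraMap K _ c))) =
        3 * (wG K a b c ^ 2 - αG K a b c (algebraMap K _ c)) * (2 * wG K a b c) := by ring
    rwa [e]
  refine etale_of (PN K c) (φG ha hb) (wG K a b c) h1 hu (ρG h2 ha hb) ?_ (ρG_X h2 ha hb) ?_
  · intro r
    change ((ρG h2 ha hb).comp (φG ha hb)) r = _
    congr 1
    have h3 := wN_rel' (K := K) (c := c)
    refine homN_ext K ?_ ?_ ?_
    · intro r
      rw [RingHom.comp_apply, e3, ρG_of, ρ0_b]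
    · rw [RingHom.comp_apply, e1, map_sub, map_mul, map_sub, map_pow, map_mul, map_ofNat, ρG_X,
        ρG_of, ρG_of, ρ0_y, ρ0_b, h3]
      linear_combination βG K c (NOD.uu K) * hh'
    · rw [RingHom.comp_apply, e2, map_add, map_mul, map_sub, map_pow, map_mul, map_ofNat, ρG_X,
        ρG_of, ρG_of, ρ0_y, ρ0_b, h3]
      linear_combination βG K c (NOD.vv K) * hh'
  · refine std_ext (PW K a b c) ?_ ?_
    · intro v
      change (((liftR (PN K c) (φG ha hb) (wG K a b c) h1 hu).comp (ρG h2 ha hb)).comp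
        (αG K a b c)) v = αG K a b c v
      congr 1
      refine hom1_ext ?_ ?_ ?_
      · intro r
        rw [RingHom.comp_apply, RingHom.comp_apply, ρG_of, ρ0_b, liftR_of, e3]
      · rw [RingHom.comp_apply, RingHom.comp_apply, ρG_of, ρ0_x, map_sub, map_pow, map_mul,
          map_ofNat, liftR_X, liftR_of, e3]
        have h := wG_rel K a b c
        linear_combination h
      · rw [RingHom.comp_apply, RingHom.comp_apply, ρG_of, ρ0_y, map_mul, map_add,
          liftR_of, liftR_of, liftR_of, e1, e2, e3]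
        linear_combination αG K a b c (y1 K a b) * hh
    · rw [RingHom.comp_apply, ρG_X, liftR_X]
      rfl

/-- The points with `x = c`, `y = 0`. -/
theorem mem_iff_pt {p : Ideal (A1 K a b)} (hp : p.IsPrime) (h : (0 : K) ^ 2 = c ^ 3 + a * c + b)
    (hx : x1 K a b - algebraMap K _ c ∈ p) (hy : y1 K a b ∈ p) (v : A1 K a b) :
    v ∈ p ↔ lift1 (RingHom.id K) c 0 h v = 0 := by
  let S : Type := A1 K a b ⧸ p
  let ι : A1 K a b →+* S := Ideal.Quotient.mk p
  have he : ι = (algebraMap K S).comp (lift1 (RingHom.id K) c 0 h) := by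
    refine hom1_ext (B := K) (a := a) (b := b) (R := S) ?_ ?_ ?_
    · intro r
      rw [RingHom.comp_apply, lift1_b]
      rfl
    · rw [RingHom.comp_apply, lift1_x]
      change Ideal.Quotient.mk p (x1 K a b) = Ideal.Quotient.mk p (algebraMap K _ c)
      exact (Ideal.Quotient.eq).2 hx
    · rw [RingHom.comp_apply, lift1_y, map_zero]
      exact Ideal.Quotient.eq_zero_iff_mem.2 hy
  have : Nontrivial S := Ideal.Quotient.nontrivial_iff.2 hp.ne_top
  rw [← Ideal.Quotient.eq_zero_iff_mem]
  change ι v = 0 ↔ _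
  rw [he, RingHom.comp_apply, map_eq_zero_iff _ (algebraMap K S).injective]

/-- The node is in the image of the common neighbourhood. -/
theorem lift_pt {r : K} (h2 : (2 : K) ≠ 0) (h3 : (3 : K) ≠ 0) (hc : c ≠ 0) (hr : r ^ 2 = 3 * c)
    (ha : a = -3 * c ^ 2) (hb : b = 2 * c ^ 3) (p : PrimeSpectrum (A1 K a b))
    (hx : x1 K a b - algebraMap K _ c ∈ p.asIdeal) (hy : y1 K a b ∈ p.asIdeal) :
    ∃ q : PrimeSpectrum (GG K a b c), PrimeSpectrum.comap (αG K a b c) q = p := by
  have h : (0 : K) ^ 2 = c ^ 3 + a * c + b := by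
    rw [ha, hb]
    ring
  have hr0 : r ≠ 0 := by
    rintro rfl
    have : 3 * c = 0 := by rw [← hr]; ring
    exact (mul_ne_zero h3 hc) this
  let ev : GG K a b c →+* K := liftR (PW K a b c) (lift1 (RingHom.id K) c 0 h) r (by
    change Polynomial.eval₂ _ _ (fW K a b c) = 0
    rw [fW_val, lift1_x, lift1_b, RingHom.id_apply, hr]
    ring) (by
    change IsUnit (Polynomial.eval₂ _ _ (wW K a b c * Polynomial.derivative (fW K a b c)))
    rw [fW_der, lift1_b, RingHom.id_apply, hr, isUnit_iff_ne_zero]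
    have : 3 * (3 * c - c) * (2 * r) = 3 * (2 * c) * (2 * r) := by ring
    rw [this]
    exact mul_ne_zero (mul_ne_zero h3 (mul_ne_zero h2 hc)) (mul_ne_zero h2 hr0))
  have hev : ∀ v, ev (αG K a b c v) = lift1 (RingHom.id K) c 0 h v := fun v =>
    liftR_of _ _ _ _ _ _
  refine ⟨⟨RingHom.ker ev, RingHom.ker_isPrime ev⟩, ?_⟩
  ext v
  rw [mem_iff_pt p.isPrime h hx hy]
  change ev (αG K a b c v) = 0 ↔ _
  rw [hev]

end node

end WND

open _root_.Pool.Agent.MG.W.WND in
/-- WND: Weierstrass curves without cusps are nodal. -/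
theorem t_WND : Stmt_WND := by
  intro K _ _ a b h6 hab x
  have h2 : (2 : K) ≠ 0 := fun h => h6 (by linear_combination 3 * h)
  have h3 : (3 : K) ≠ 0 := fun h => h6 (by linear_combination 2 * h)
  -- points of the affine chart
  have main : ∀ p : Sp (A1 K a b), ∃ (U : Scheme.{0}) (f : U ⟶ WX K a b)
      (h : U ⟶ Sp (NodeRing K)), Etale f ∧ Etale h ∧
      f ≫ WX.pr K a b = h ≫ spMap (algebraMap K (NodeRing K)) ∧
      WX.in1 K a b p ∈ Set.range f := by
    intro p
    have hp : p.asIdeal.IsPrime := p.isPrime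
    by_cases hy : 2 * y1 K a b ∈ p.asIdeal
    · by_cases hx : sX K a b ∈ p.asIdeal
      · -- the node
        have hy' : y1 K a b ∈ p.asIdeal := by
          have h := p.asIdeal.mul_mem_left (algebraMap K (A1 K a b) (1 / 2)) hy
          have e := half_mul h2 (algebraMap K (A1 K a b))
          have : algebraMap K (A1 K a b) (1 / 2) * (2 * y1 K a b) = y1 K a b := by
            linear_combination y1 K a b * e
          rwa [this] at h
        obtain ⟨c0, hc0⟩ := IsAlgClosed.exists_pow_nat_eq (-(a / 3)) (n := 2) (by norm_num)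
        have ha0 : a = -3 * c0 ^ 2 := by
          rw [hc0]
          field_simp
        obtain ⟨c, ha, hxc⟩ : ∃ c : K, a = -3 * c ^ 2 ∧
            x1 K a b - algebraMap K _ c ∈ p.asIdeal := by
          have e1 : (x1 K a b - algebraMap K _ c0) * (x1 K a b - algebraMap K _ (-c0)) =
              algebraMap K _ (1 / 3) * sX K a b := by
            have e2 : algebraMap K (A1 K a b) a = algebraMap K _ (-3 * c0 ^ 2) :=
              congrArg _ ha0
            have e3 : algebraMap K (A1 K a b) (1 / 3) * 3 = 1 := by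
              have := congrArg (algebraMap K (A1 K a b)) (show (1 / 3 : K) * 3 = 1 by field_simp)
              rwa [map_mul, map_ofNat, map_one] at this
            unfold sX
            rw [e2, map_mul, map_pow, map_neg, map_neg, map_ofNat]
            linear_combination (algebraMap K (A1 K a b) c0 ^ 2 - x1 K a b ^ 2) * e3
          have e4 : (x1 K a b - algebraMap K _ c0) * (x1 K a b - algebraMap K _ (-c0)) ∈
              p.asIdeal := by
            rw [e1]
            exact p.asIdeal.mul_mem_left _ hx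
          rcases hp.mem_or_mem e4 with h | h
          · exact ⟨c0, ha0, h⟩
          · exact ⟨-c0, by rw [neg_sq]; exact ha0, h⟩
        have hb : b = 2 * c ^ 3 := by
          have hn : Nontrivial (A1 K a b ⧸ p.asIdeal) :=
            Ideal.Quotient.nontrivial_iff.2 hp.ne_top
          have e1 : Ideal.Quotient.mk p.asIdeal (x1 K a b) =
              Ideal.Quotient.mk p.asIdeal (algebraMap K _ c) := (Ideal.Quotient.eq).2 hxc
          have e2 : Ideal.Quotient.mk p.asIdeal (y1 K a b) = 0 :=
            Ideal.Quotient.eq_zero_iff_mem.2 hy'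
          have e3 := congrArg (Ideal.Quotient.mk p.asIdeal) (rel1 K a b)
          rw [map_pow, map_add, map_add, map_mul, map_pow, e1, e2] at e3
          have e4 : algebraMap K (A1 K a b ⧸ p.asIdeal) (c ^ 3 + a * c + b) =
              algebraMap K (A1 K a b ⧸ p.asIdeal) 0 := by
            rw [map_add, map_add, map_mul, map_pow, map_zero]
            refine Eq.trans ?_ (e3.symm.trans ?_)
            · rfl
            · ring
          have e5 := (algebraMap K (A1 K a b ⧸ p.asIdeal)).injective e4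
          linear_combination e5 - c * ha
        have hc : c ≠ 0 := by
          rintro rfl
          rcases hab with h | h
          · exact h (by rw [ha]; ring)
          · exact h (by rw [hb]; ring)
        obtain ⟨r, hr⟩ := IsAlgClosed.exists_pow_nat_eq (3 * c) (n := 2) (by norm_num)
        obtain ⟨q, hq⟩ := lift_pt h2 h3 hc hr ha hb p hxc hy'
        have hα : Etale (spMap (αG K a b c)) := NOD.etale_spMap (std_etale _)
        refine ⟨Sp (GG K a b c), spMap (αG K a b c) ≫ WX.in1 K a b, spMap (φG ha hb),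
          inferInstance, NOD.etale_spMap (φG_etale h2 ha hb), ?_, q, ?_⟩
        · rw [Category.assoc, WX.in1_pr, ← Spec.map_comp, ← Spec.map_comp]
          congr 1
          ext r
          exact (φG_b ha hb r).symm
        · rw [Scheme.Hom.comp_apply, ← hq]
          rfl
      · exact loc_pt (WX.pr K a b) (WX.in1 K a b) _ (WX.in1_pr K a b) (sX K a b) (κX K a b)
          (κX_etale K a b) (κX_C K a b) p hx
    · exact loc_pt (WX.pr K a b) (WX.in1 K a b) _ (WX.in1_pr K a b) (2 * y1 K a b) (κY K a b)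
        (κY_etale K a b) (κY_C K a b) p hy
  rcases glue2_surj (spMap (g1 K a b)) (spMap (g2 K a b)) x with ⟨p, rfl⟩ | ⟨p, rfl⟩
  · exact main p
  · by_cases hz : z2 K a b ∈ p.asIdeal
    · refine loc_pt (WX.pr K a b) (WX.in2 K a b) _ (WX.in2_pr K a b) (sZ K a b) (κZ K a b)
          (κZ_etale K a b) (κZ_C K a b) p ?_
      intro hs
      -- `sZ ≡ 1` modulo `z`
      apply p.isPrime.ne_top
      rw [Ideal.eq_top_iff_one]
      have e1 : (1 : A2 K a b) = sZ K a b + z2 K a b * (z2 K a b ^ 3 *
          (2 * (algebraMap K _ a * t2 K a b ^ 2 + algebraMap K _ b * z2 K a b ^ 2 * t2 K a b ^ 3) -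
            algebraMap K _ a * t2 K a b ^ 2)) := by
        unfold sZ
        linear_combination 2 * rel2 K a b
      rw [e1]
      exact p.asIdeal.add_mem hs (p.asIdeal.mul_mem_right _ hz)
    · have h1 : p ∈ Set.range (PrimeSpectrum.comap (algebraMap (A2 K a b) (A12 K a b))) := by
        rw [PrimeSpectrum.localization_away_comap_range (A12 K a b) (z2 K a b)]
        exact hz
      obtain ⟨q, hq⟩ := h1
      have h4 : WX.in1 K a b (spMap (g1 K a b) q) = pushout.inr (spMap (g1 K a b))
          (spMap (g2 K a b)) p := by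
        rw [← hq]
        change WX.in1 K a b (spMap (g1 K a b) q) =
          pushout.inr (spMap (g1 K a b)) (spMap (g2 K a b)) (spMap (g2 K a b) q)
        rw [← Scheme.Hom.comp_apply, ← Scheme.Hom.comp_apply, ← pushout.condition]
        rfl
      have h5 := main (spMap (g1 K a b) q)
      rwa [h4] at h5

end Pool.Agent.MG.W


end

section

/-!
# DNO: nodal duos
-/

open CategoryTheory CategoryTheory.Limits AlgebraicGeometry TensorProduct

namespace Pool.Agent.MG.KX

namespace DNO_

/-- The points of the second chart with `w ∉ q` are in the first chart. -/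
theorem in_first {A : Type} [CommRing A] (D : Duo A) (p : Sp D.R2) (hw : D.w ∉ p.asIdeal) :
    ∃ y : Sp D.R1, D.in1 y = D.in2 p := by
  let _ : Algebra D.R2 D.R12 := (D.j2 : D.R2 →+* D.R12).toAlgebra
  have hl : IsLocalization.Away D.w D.R12 :=
    away_of (D.j2 : D.R2 →+* D.R12) D.w D.unit2 D.ker2 D.sur2
  have h1 : p ∈ Set.range (PrimeSpectrum.comap (algebraMap D.R2 D.R12)) := by
    rw [PrimeSpectrum.localization_away_comap_range D.R12 D.w]
    exact hw
  obtain ⟨q, hq⟩ := h1
  let q' : Sp D.R12 := q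
  refine ⟨spMap (D.j1 : D.R1 →+* D.R12) q', ?_⟩
  have h2 : p = spMap (D.j2 : D.R2 →+* D.R12) q' := hq.symm
  rw [h2, ← Scheme.Hom.comp_apply, ← Scheme.Hom.comp_apply, D.cond]

end DNO_

open _root_.Pool.Agent.MG.KX.DNO_ in
/-- DNO: nodal duos. -/
theorem t_DNO : Stmt_DNO := by
  intro K _ _ D h1 h2 x
  have main : ∀ y : Sp D.R1, ∃ (U : Scheme.{0}) (f : U ⟶ D.X) (h : U ⟶ Sp (NodeRing K)),
      Etale f ∧ Etale h ∧ f ≫ D.pr = h ≫ spMap (algebraMap K (NodeRing K)) ∧
        D.in1 y ∈ Set.range f := by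
    intro y
    obtain ⟨U, f, h, hf, hh, hc, u, hu⟩ := h1 y
    refine ⟨U, f ≫ D.in1, h, inferInstance, hh, ?_, u, ?_⟩
    · rw [Category.assoc, D.in1_pr, hc]
    · rw [Scheme.Hom.comp_apply, hu]
  rcases D.cov x with ⟨y, rfl⟩ | ⟨p, rfl⟩
  · exact main y
  · by_cases hw : D.w ∈ p.asIdeal
    · obtain ⟨s, t, hs, he⟩ := h2 p hw
      exact W.WND.loc_pt D.pr D.in2 (algebraMap K D.R2) D.in2_pr s _ he (fun c => by simp) p hs
    · obtain ⟨y, hy⟩ := in_first D p hw
      rw [← hy]
      exact main y

end Pool.Agent.MG.KX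


end
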