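import Mathlib
import Pool.Agent.KDM.C07
import Pool.Agent.KDM.C08
import Pool.Agent.KDM.C12
import Pool.Agent.KDM.C13
import Pool.Agent.KDM.C16
import Pool.Agent.KDM.C27
import Pool.Agent.KDM.C32
import Pool.Agent.KDM.C33
import Pool.Agent.KDM.C34
import Pool.Agent.KDM.C39
import Pool.Agent.KDM.C44
import Pool.Agent.KDM.C48
import Pool.Agent.KDM.C49

/-! Parts: MG.CHG, MG.ALGS, MG.LOC, MG.Bub.Fib, MG.BUB, MG.Pre, MG.PointedS -/

section

/-!
# Change of the chart of a section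
-/

open CategoryTheory CategoryTheory.Limits AlgebraicGeometry TensorProduct

namespace Pool.Agent.MG

namespace CHG

section

variable {n : ℕ} {k : Type} [Field k] {T : TC k} {B : Type} [CommRing B] [Algebra k B]
  {x : Fam n B} (ct : Charted T x) {E J : Type} [CommRing E] [Fintype J] {S : SqE B E J}
  (t : Thk S x) (H : Good3 ct t)

/-- Evaluation at a section and restriction of functions. -/
theorem ev_rs (i : Fin n) {U U' : x.X.Opens} (hU : U ≤ U') (h : ⊤ ≤ x.σ i ⁻¹ᵁ U)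
    (h' : ⊤ ≤ x.σ i ⁻¹ᵁ U') (v : Γ(t.y.X, t.op U')) :
    t.ev i h (rs t.y.X (t.op_mono hU) v) = t.ev i h' v := by
  have h1 : t.y.X.presheaf.map (homOfLE (t.op_mono hU)).op ≫
      (t.y.σ i).appLE (t.op U) ⊤ (t.sec_le i h) = (t.y.σ i).appLE (t.op U') ⊤ (t.sec_le i h') :=
    Scheme.Hom.map_appLE _ _ _
  have h2 := ConcreteCategory.congr_hom h1 v
  change (Scheme.ΓSpecIso (CommRingCat.of E)).hom.hom
    ((t.y.X.presheaf.map (homOfLE (t.op_mono hU)).op ≫
      (t.y.σ i).appLE (t.op U) ⊤ (t.sec_le i h)) v) =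
    (Scheme.ΓSpecIso (CommRingCat.of E)).hom.hom ((t.y.σ i).appLE (t.op U') ⊤ (t.sec_le i h') v)
  rw [h2]

/-- Evaluation at a section in the intersection of the charts. -/
theorem p_ev12 (i : Fin n) (χ : T.R12 →ₐ[k] B) (h : ⊤ ≤ x.σ i ⁻¹ᵁ (ct.U1 ⊓ ct.U2))
    (hχ : ∀ a : T.R12,
      ((x.σ i).appLE (ct.U1 ⊓ ct.U2) ⊤ h).hom (ct.t12 (1 ⊗ₜ a)) = gl B (χ a))
    (v : Γ(t.y.X, t.op (ct.U1 ⊓ ct.U2))) :
    S.p (t.ev i h v) = extA χ ((rd ct t H).q12 v) := by
  refine (t.p_ev i h v).trans ?_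
  have hv : t.q (ct.U1 ⊓ ct.U2) v = ct.t12 ((rd ct t H).q12 v) :=
    (ct.eq12.apply_symm_apply (t.q (ct.U1 ⊓ ct.U2) v)).symm
  rw [hv]
  refine tensor_ind (f := (ev0 i h).comp ct.t12) (g := (extA χ).toRingHom) ?_ ?_ _
  · intro b
    change ev0 i h (ct.t12 (b ⊗ₜ 1)) = extA χ (b ⊗ₜ 1)
    rw [ct.c12, ev0_coef]
    simp [extA]
  · intro a
    change (Scheme.ΓSpecIso (CommRingCat.of B)).hom.hom
      (((x.σ i).appLE (ct.U1 ⊓ ct.U2) ⊤ h).hom (ct.t12 (1 ⊗ₜ a))) = extA χ (1 ⊗ₜ a)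
    rw [hχ, gl_inv]
    simp [extA]

theorem rsec_cast (i : Fin n) {p q : Pt T B} (e : p = q) (hp : ct.Is (x.σ i) p)
    (hq : ct.Is (x.σ i) q) : (e ▸ rsec ct t H i p hp : (rd ct t H).Sec q) =
      rsec ct t H i q hq := by
  subst e
  rfl

theorem rsec_heq (i : Fin n) {p q : Pt T B} (e : p = q) (hp : ct.Is (x.σ i) p)
    (hq : ct.Is (x.σ i) q) : HEq (rsec ct t H i p hp) (rsec ct t H i q hq) := by
  subst e
  rfl

end

end CHG

set_option linter.unusedVariables false in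
open _root_.Pool.Agent.MG.CHG in
/-- Block CHG (the hypothesis `hAI` is not needed). -/
theorem t_CHG (hSQZ : Stmt_SQZ) (hAX : Stmt_AX) (hAC : Stmt_AC) (hAI : Stmt_AI) : Stmt_CHG := by
  intro n k _ T B _ _ x ct s s' hs hs' i₀ χ hsi hsi' hχ hne C C' hμ hν hνe g l l' hl hl'
  obtain ⟨h12, hχ⟩ := hχ
  have key : l.l = l'.l := by
    funext d
    have H : Good3 ct d.thk := ⟨hSQZ _ _ ct.ac1, hSQZ _ _ ct.ac2, hSQZ _ _ ct.ac12⟩
    obtain ⟨h, δ, hR⟩ := hAX (rd ct d.thk H) s (fun i => rsec ct d.thk H i (s i) (hs i))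
    have hi1 : ct.Is (x.σ i₀) (.one (χ.comp T.j1)) := hsi ▸ hs i₀
    have hi2 : ct.Is (x.σ i₀) (.two (χ.comp T.j2)) := hsi' ▸ hs' i₀
    obtain ⟨δ', hR', hval⟩ := hAC (rd ct d.thk H) s s'
      (fun i => rsec ct d.thk H i (s i) (hs i)) (fun i => rsec ct d.thk H i (s' i) (hs' i))
      i₀ χ (d.thk.ev i₀ h12) (p_ev12 ct d.thk H i₀ χ h12 hχ) hsi hsi'
      (by
        intro v
        rw [rsec_cast ct d.thk H i₀ hsi (hs i₀) hi1]
        exact (ev_rs d.thk i₀ inf_le_left h12 hi1.1 v).symm)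
      (by
        intro v
        rw [rsec_cast ct d.thk H i₀ hsi' (hs' i₀) hi2]
        exact (ev_rs d.thk i₀ inf_le_right h12 hi2.1 v).symm)
      hne (fun i hi => rsec_heq ct d.thk H i (hne i hi) (hs i) (hs' i))
      C C' hμ hν hνe h δ hR
    have e1 := hl d (h ()) (δ ()) ⟨H, hR⟩
    have e2 := hl' d (h ()) (δ' ()) ⟨H, hR'⟩
    rw [e1, e2]
    exact hval ()
  cases l
  cases l'
  cases key
  rfl

end Pool.Agent.MG


end

section

/-!
# Proof of ALG
-/

open CategoryTheory CategoryTheory.Limits AlgebraicGeometry TensorProduct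

namespace Pool.Agent.MG

open MvPolynomial

/-- The variables: `c = ν i₀`. -/
noncomputable def vEquiv {n : ℕ} (i₀ : Fin n) (ι : Type) :
    Fin n ⊕ ι → Option ({i : Fin n // i ≠ i₀} ⊕ ι)
  | .inl i => if h : i = i₀ then none else some (.inl ⟨i, h⟩)
  | .inr a => some (.inr a)

/-- The inverse. -/
def vBack {n : ℕ} (i₀ : Fin n) (ι : Type) : Option ({i : Fin n // i ≠ i₀} ⊕ ι) → Fin n ⊕ ι
  | none => .inl i₀
  | some (.inl i) => .inl i.1
  | some (.inr a) => .inr a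

theorem vBack_vEquiv {n : ℕ} (i₀ : Fin n) (ι : Type) (v : Fin n ⊕ ι) :
    vBack i₀ ι (vEquiv i₀ ι v) = v := by
  rcases v with i | a
  · by_cases h : i = i₀
    · subst h
      simp [vEquiv, vBack]
    · simp [vEquiv, vBack, h]
  · rfl

theorem stmt_ALG : Stmt_ALG := by
  intro k _ _ T hdom h1 h2 h0 hj ι D hD n i₀ f g hfg
  have he : T.e ≠ 0 := by
    intro h
    have := T.ey
    rw [h, zero_mul] at this
    exact zero_ne_one this
  obtain ⟨q, hq⟩ := _root_.MG.Alg.alg (i1 := T.j1) (i2 := T.j2) (e := T.e) (D := D) h2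
    (fun a ha => (mul_eq_zero.mp ha).resolve_left he)
    (fun a b hab => by
      obtain ⟨c, hc⟩ := h0 a b hab
      exact ⟨c, hc.symm⟩)
    (fun j hj0 a b hab => hj j (Nat.one_le_iff_ne_zero.mpr hj0) a b hab)
    (fun a r s h => by
      have := (hD.ind (-r) (-s) a (by rw [map_neg, map_neg, h]; ring)).2.2
      exact this)
    (rename (vEquiv i₀ ι) f) (rename (vEquiv i₀ ι) g) (by
      have e1 : map (T.j1 : T.R1 →+* T.R12) (rename (vEquiv i₀ ι) f) =
          rename (vEquiv i₀ ι) (map (T.j1 : T.R1 →+* T.R12) f) := (map_rename _ _ _)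
      rw [e1, hfg]
      have e2 : (rename (vEquiv i₀ ι) : MvPolynomial (Fin n ⊕ ι) T.R12 →ₐ[T.R12]
            MvPolynomial (Option ({i : Fin n // i ≠ i₀} ⊕ ι)) T.R12).toRingHom.comp
          ((aeval (chgV T D i₀) : MvPolynomial (Fin n ⊕ ι) T.R12 →ₐ[T.R12]
            MvPolynomial (Fin n ⊕ ι) T.R12).toRingHom.comp (map (T.j2 : T.R2 →+* T.R12))) =
          (_root_.MG.Alg.subst T.j2 T.e D).comp
            (rename (vEquiv i₀ ι) : MvPolynomial (Fin n ⊕ ι) T.R2 →ₐ[T.R2]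
              MvPolynomial (Option ({i : Fin n // i ≠ i₀} ⊕ ι)) T.R2).toRingHom := by
        apply MvPolynomial.ringHom_ext
        · intro r
          simp [_root_.MG.Alg.subst]
        · rintro (i | a)
          · by_cases h : i = i₀
            · subst h
              simp [chgV, vEquiv, _root_.MG.Alg.subst]
            · simp [chgV, vEquiv, h, _root_.MG.Alg.subst]
          · simp [chgV, vEquiv, _root_.MG.Alg.subst]
      exact RingHom.congr_fun e2 g)
  refine ⟨q, ?_⟩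
  have e3 := congrArg (rename (vBack i₀ ι)) hq
  rw [rename_rename, rename_rename] at e3
  have e4 : vBack i₀ ι ∘ vEquiv i₀ ι = id := by
    funext v
    exact vBack_vEquiv i₀ ι v
  rw [e4, rename_id_apply] at e3
  exact e3

end Pool.Agent.MG


end

section

/-!
# Proof of LOC
-/

open CategoryTheory CategoryTheory.Limits AlgebraicGeometry TensorProduct

namespace Pool.Agent.MG

theorem stmt_LOC : Stmt_LOC := by
  intro k _ n C T ch ι s N f h
  set z : Fin n → T.R1 := fun i => T.x - algebraMap k T.R1 (ch.pt i T.x) with hz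
  have hcop : ∀ i j, i ≠ j → IsCoprime (z i) (z j) := by
    intro i j hij
    have h1 : ch.pt j T.x - ch.pt i T.x ≠ 0 := by
      intro h0
      exact ch.ne i j hij (sub_eq_zero.mp h0).symm
    have h2 : z i - z j = algebraMap k T.R1 (ch.pt j T.x - ch.pt i T.x) := by
      simp only [hz, map_sub]
      ring
    refine ⟨algebraMap k T.R1 (ch.pt j T.x - ch.pt i T.x)⁻¹,
      -algebraMap k T.R1 (ch.pt j T.x - ch.pt i T.x)⁻¹, ?_⟩
    have h3 : algebraMap k T.R1 (ch.pt j T.x - ch.pt i T.x)⁻¹ * z i +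
        -algebraMap k T.R1 (ch.pt j T.x - ch.pt i T.x)⁻¹ * z j =
        algebraMap k T.R1 (ch.pt j T.x - ch.pt i T.x)⁻¹ * (z i - z j) := by ring
    rw [h3, h2, ← map_mul, inv_mul_cancel₀ h1, map_one]
  have hdvd : ∀ j ∈ s, (MvPolynomial.C (z j ^ N) : MvPolynomial (Fin n ⊕ ι) T.R1) ∣ f := by
    intro j hj
    obtain ⟨M, q, hq⟩ := h j hj
    have h1 : IsCoprime (z j ^ N) ((∏ i ∈ s.erase j, z i) ^ M) := by
      apply IsCoprime.pow
      apply IsCoprime.prod_right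
      intro i hi
      exact hcop j i (Finset.ne_of_mem_erase hi).symm
    have h2 : IsCoprime (MvPolynomial.C (z j ^ N) : MvPolynomial (Fin n ⊕ ι) T.R1)
        (MvPolynomial.C ((∏ i ∈ s.erase j, z i) ^ M)) := h1.map MvPolynomial.C
    exact h2.dvd_of_dvd_mul_left ⟨q, hq⟩
  have h3 : (∏ i ∈ s, (MvPolynomial.C (z i ^ N) : MvPolynomial (Fin n ⊕ ι) T.R1)) ∣ f := by
    apply Finset.prod_dvd_of_coprime
    · intro i _ j _ hij
      exact ((hcop i j hij).pow).map MvPolynomial.C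
    · exact hdvd
  obtain ⟨q, hq⟩ := h3
  refine ⟨q, ?_⟩
  rw [hq, ← map_prod, Finset.prod_pow]

end Pool.Agent.MG


end

section

/-!
# The fibres of the bubble family
-/

set_option linter.unusedSectionVars false

open CategoryTheory CategoryTheory.Limits AlgebraicGeometry TensorProduct

namespace Pool.Agent.MG

/-- Two restrictions of a family along the same ring homomorphism are isomorphic. -/
theorem arrow_uniq {n : ℕ} {A K : Type} [CommRing A] [CommRing K] {s : A →+* K} {z z' : Fam n K}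
    {x : Fam n A} (a : Arrow s z x) (a' : Arrow s z' x) :
    ∃ f : Arrow (RingHom.id K) z z', IsIso f.f := by
  let e : z.X ≅ z'.X := a.cart.isoIsPullback _ _ a'.cart
  have e1 : e.hom ≫ a'.f = a.f := a.cart.isoIsPullback_hom_fst _ _ a'.cart
  have e2 : e.hom ≫ z'.π = z.π := a.cart.isoIsPullback_hom_snd _ _ a'.cart
  have hid : spMap (RingHom.id K) = 𝟙 (Sp K) := spMap_id K
  refine ⟨⟨e.hom, ?_, ?_⟩, inferInstance⟩
  · have : IsIso (spMap (RingHom.id K)) := by rw [hid]; infer_instance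
    refine IsPullback.of_horiz_isIso ⟨?_⟩
    rw [e2, hid, Category.comp_id]
  · intro i
    rw [hid, Category.id_comp]
    apply a'.cart.hom_ext
    · rw [Category.assoc, e1, a.sec, a'.sec]
    · rw [Category.assoc, e2, z.sec, z'.sec]

/-- Constant families over algebraically closed fields. -/
theorem const_stable (hCON : Stmt_CON) (hNOD : Stmt_NOD) (hGEN : Stmt_GEN) (hRIGW : Stmt_RIGW)
    {n : ℕ} {k : Type} [Field k] [IsAlgClosed k] {g : ℕ} {C : Fam n k} (hC : IsStable g C)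
    (hsm : SmoothOfRelativeDimension 1 C.π) {T : TC k} (ch : Cht C T) (j : Fin n)
    (hvf : ∀ (a : T.R1) (b : T.R2), T.j1 a = T.e * T.j2 b → ch.pt j a = 0 → a = 0)
    (K : Type) [Field K] [IsAlgClosed K] [Algebra k K] (τ : Fin n → (Sp K ⟶ C.X))
    (hτ : ∀ i, τ i ≫ C.π = spMap (algebraMap k K)) (hj : τ j = spMap (algebraMap k K) ≫ C.σ j)
    (hd : ∀ i i', i ≠ i' → τ i ≠ τ i') : StableCurve g (constFam C K τ hτ) := by
  have hSC := CST.stableCurve hC
  have hprop := hC.proper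
  refine ⟨?_, ?_, ?_, ?_, ?_, ?_⟩
  · have : Nonempty C.X := hSC.connected.toNonempty
    exact hCON C T ch this K _ hτ
  · exact hNOD C T ch K _ hτ
  · exact hGEN C g hprop hSC.genus K _ hτ
  · intro i i' hij h
    refine hd i i' hij ?_
    have h1 := congrArg (fun q => q ≫ pullback.fst C.π (spMap (algebraMap k K))) h
    have h2 : ∀ i, (constFam C K τ hτ).σ i ≫
        pullback.fst C.π (spMap (algebraMap k K)) = τ i :=
      fun i => pullback.lift_fst _ _ _
    exact (h2 i).symm.trans (h1.trans (h2 i'))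
  · intro i p
    refine ⟨⊤, trivial, ?_⟩
    have h1 : Smooth C.π := SmoothOfRelativeDimension.smooth 1 C.π
    have h2 : Smooth (pullback.snd C.π (spMap (algebraMap k K))) :=
      MorphismProperty.pullback_snd _ _ h1
    change Smooth ((⊤ : (pullback C.π (spMap (algebraMap k K))).Opens).ι ≫
      pullback.snd C.π (spMap (algebraMap k K)))
    infer_instance
  · intro v U
    exact hRIGW ch j hvf K τ hτ hj v U

section

variable {n : ℕ} {k : Type} [Field k] {C : Fam n k} {T : TC k} (ch : Cht C T) (i₀ j : Fin n)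
  (hji : j ≠ i₀) {K : Type} [Field K] [Algebra k K] (χ : T.R1 →ₐ[k] K)

/-- The contraction over a field, as an arrow, when the point is not `p_j`. -/
theorem bub_iso (τ : Fin n → (Sp K ⟶ C.X)) (hτ : ∀ i, τ i ≫ C.π = spMap (algebraMap k K))
    (h : ∀ i, τ i = tau ch.aff (.one (spt ch i₀ χ i))) (h0 : χ (zz ch j) ≠ 0) :
    ∃ f : Arrow (RingHom.id K) (bubFam ch i₀ j χ hji) (constFam C K τ hτ), IsIso f.f := by
  have hiso : IsIso (bC ch.aff (zz ch j) (zz_unit ch j) K (χ (zz ch j))) :=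
    bC_isIso ch.aff (zz ch j) (zz_unit ch j) K _ (isUnit_iff_ne_zero.2 h0)
  have hid : spMap (RingHom.id K) = 𝟙 (Sp K) := spMap_id K
  have : IsIso (spMap (RingHom.id K)) := by rw [hid]; infer_instance
  have hc : IsPullback (bC ch.aff (zz ch j) (zz_unit ch j) K (χ (zz ch j)))
      (bπ ch.aff (zz ch j) (zz_unit ch j) K (χ (zz ch j)))
      (pullback.snd C.π (spMap (algebraMap k K))) (spMap (RingHom.id K)) := by
    refine IsPullback.of_horiz_isIso ⟨?_⟩
    rw [hid, Category.comp_id]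
    rfl
  refine ⟨⟨bC ch.aff (zz ch j) (zz_unit ch j) K (χ (zz ch j)), hc, fun i => ?_⟩, hiso⟩
  have h1 := sec_C ch i₀ j hji χ i (τ i) (h i) (by rw [hτ, Category.id_comp])
  rw [hid]
  exact h1.trans (Category.id_comp _).symm

/-- The sections are distinct if the point is different from the marked points. -/
theorem tau_ne (h : ∀ i, i ≠ i₀ → χ (T.x - algebraMap k T.R1 (ch.pt i T.x)) ≠ 0) (i i' : Fin n)
    (hii : i ≠ i') : tau ch.aff (.one (spt ch i₀ χ i)) ≠ tau ch.aff (.one (spt ch i₀ χ i')) := by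
  intro he
  rw [tau_one, tau_one, cancel_mono] at he
  have h1 := congrArg (fun f => f T.x) (spMap_inj he)
  have h2 : spt ch i₀ χ i T.x = spt ch i₀ χ i' T.x := h1
  have hpt : ∀ i, ((Algebra.ofId k K).comp (ch.pt i)) T.x = algebraMap k K (ch.pt i T.x) :=
    fun i => rfl
  by_cases hi : i = i₀
  · have hi' : i' ≠ i₀ := fun h => hii (hi.trans h.symm)
    rw [hi, spt_self, spt_ne ch i₀ χ hi', hpt] at h2
    apply h i' hi'
    rw [map_sub, AlgHom.commutes, h2, sub_self]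
  · by_cases hi' : i' = i₀
    · rw [hi', spt_self, spt_ne ch i₀ χ hi, hpt] at h2
      apply h i hi
      rw [map_sub, AlgHom.commutes, h2, sub_self]
    · rw [spt_ne ch i₀ χ hi, spt_ne ch i₀ χ hi', hpt, hpt] at h2
      exact ch.ne i i' hii ((algebraMap k K).injective h2)

end

/-- The fibres of the bubble family. -/
theorem bub_fib (hFIS : Stmt_FIS) (hCON : Stmt_CON) (hNOD : Stmt_NOD) (hGEN : Stmt_GEN)
    (hRIGW : Stmt_RIGW) (hTAU : Stmt_TAU) (hBGEN : Stmt_BGEN) (hBNOD : Stmt_BNOD)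
    (hBSEC : Stmt_BSEC) (hBRIGW : Stmt_BRIGW)
    {n : ℕ} {k : Type} [Field k] [IsAlgClosed k] {g : ℕ} {C : Fam n k} (hC : IsStable g C)
    (hsm : SmoothOfRelativeDimension 1 C.π) {T : TC k} (ch : Cht C T) (i₀ j : Fin n)
    (hji : j ≠ i₀)
    (hvf : ∀ (a : T.R1) (b : T.R2), T.j1 a = T.e * T.j2 b → ch.pt j a = 0 → a = 0)
    {K : Type} [Field K] [IsAlgClosed K] [Algebra k K] (χ : T.R1 →ₐ[k] K)
    (hχ : ∀ i, i ≠ i₀ → i ≠ j → χ (T.x - algebraMap k T.R1 (ch.pt i T.x)) ≠ 0) :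
    StableCurve g (bubFam ch i₀ j χ hji) := by
  obtain ⟨ht1, ht2, -, ht4⟩ := hTAU ch.ct ch.aff
  have hSC := CST.stableCurve hC
  have hprop := hC.proper
  have hτ : ∀ i, tau ch.aff (.one (spt ch i₀ χ i)) ≫ C.π = spMap (algebraMap k K) :=
    fun i => ht1 K _
  have hG := hGEN C g hprop hSC.genus K _ hτ
  by_cases h0 : χ (zz ch j) = 0
  · obtain ⟨hs1, hs2⟩ := hBSEC ch i₀ j hji K χ h0
    exact ⟨charted_connected ch (bubCt ch i₀ j hji χ), hBNOD ch j K _ h0,
      hBGEN ch j hprop K _ h0 g hG, hs1, hs2, hBRIGW ch j hvf i₀ hji K χ h0⟩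
  · obtain ⟨f, hf⟩ := bub_iso ch i₀ j hji χ _ hτ (fun i => rfl) h0
    refine hFIS.2 g _ _ f hf ?_
    refine const_stable hCON hNOD hGEN hRIGW hC hsm ch j hvf K _ hτ ?_ ?_
    · have h1 : C.σ j = tau ch.aff (.one (ch.pt j)) := ht4 _ (.one (ch.pt j)) (C.sec j) (ch.is j)
      have h2 := ht2 k K (Algebra.ofId k K) (.one (ch.pt j))
      rw [h1, spt_ne ch i₀ χ hji]
      exact h2
    · intro i i' hii
      refine tau_ne ch i₀ χ (fun i hi => ?_) i i' hii
      by_cases hij : i = j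
      · rw [hij]
        exact h0
      · exact hχ i hi hij

/-- BUB, with the weaker hypothesis on vector fields. -/
def Stmt_BUBW : Prop :=
  ∀ {n : ℕ} {k : Type} [Field k] [IsAlgClosed k] (g : ℕ) (C : Fam n k), IsStable g C →
    SmoothOfRelativeDimension 1 C.π → ∀ (T : TC k) (ch : Cht C T),
    ∀ (i₀ j : Fin n), j ≠ i₀ →
    (∀ (a : T.R1) (b : T.R2), T.j1 a = T.e * T.j2 b → ch.pt j a = 0 → a = 0) →
    ∀ (B : Type) [CommRing B] [Algebra k B] (φ : T.R1 →ₐ[k] B),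
    (∀ i, i ≠ i₀ → i ≠ j → IsUnit (φ (T.x - algebraMap k T.R1 (ch.pt i T.x)))) →
    ∃ (x : Fam n B) (ct : Charted T x), IsStable g x ∧
      (∀ i, ct.Is (x.σ i) (mv ch i₀ (.one φ) i)) ∧
      ∀ (B' : Type) [CommRing B'] [Algebra k B'] (ψ : B →ₐ[k] B'),
        IsUnit (ψ (φ (T.x - algebraMap k T.R1 (ch.pt j T.x)))) →
        ∀ (hτ : ∀ i, tau ch.aff ((mv ch i₀ (.one φ) i).map ψ) ≫ C.π =
          spMap (algebraMap k B')) (c : Charted T (constFam C B' _ hτ)), IsBC ch.ct c →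
        ∃ a : Arrow (ψ : B →+* B') (constFam C B' _ hτ) x, ChArrow a c ct

theorem t_BUBW (hFIS : Stmt_FIS) (hCON : Stmt_CON) (hNOD : Stmt_NOD) (hGEN : Stmt_GEN)
    (hRIGW : Stmt_RIGW) (hTAU : Stmt_TAU) (hBGEN : Stmt_BGEN) (hBNOD : Stmt_BNOD)
    (hBSEC : Stmt_BSEC) (hBRIGW : Stmt_BRIGW) : Stmt_BUBW := by
  intro n k _ _ g C hC hsm T ch i₀ j hji hvf B _ _ φ hφ
  refine ⟨bubFam ch i₀ j φ hji, bubCt ch i₀ j hji φ, ⟨?_, ?_, ?_, ?_⟩, bub_is ch i₀ j hji φ, ?_⟩
  · exact bπ_proper _ _ _ _ _ hC.proper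
  · have := dom1 ch
    exact bπ_flat _ _ _ _ _ (zz_ne ch j) (et_spMap (BNOD.et_shift T.x T.etx _))
  · exact bπ_lfp _ _ _ _ _
  · intro K _ _ s z ⟨a⟩
    let _ : Algebra k K := (s.comp (algebraMap k B)).toAlgebra
    let ψ : B →ₐ[k] K := { s with commutes' := fun _ => rfl }
    obtain ⟨f, hf⟩ := arrow_uniq (s := s) a (bubArrow ch i₀ j φ ψ hji)
    refine hFIS.2 g z _ f hf ?_
    refine bub_fib hFIS hCON hNOD hGEN hRIGW hTAU hBGEN hBNOD hBSEC hBRIGW hC hsm ch i₀ j hji hvf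
      (ψ.comp φ) (fun i hi hij => ?_)
    exact ((hφ i hi hij).map ψ).ne_zero
  · intro B' _ _ ψ hu hτ c hc
    have h : ∀ i, tau ch.aff ((mv ch i₀ (.one φ) i).map ψ) =
        tau ch.aff (.one (spt ch i₀ (ψ.comp φ) i)) := by
      intro i
      rw [mv_eq, spt_map]
      rfl
    exact ⟨cfArrow ch i₀ j hji φ ψ hu _ hτ h, cfArrow_ch ch i₀ j hji φ ψ hu _ hτ h c hc⟩

theorem t_BUB (h : Stmt_BUBW) : Stmt_BUB := by
  intro n k _ _ g C hC hsm T ch hvf i₀ j hji B _ _ φ hφ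
  exact h g C hC hsm T ch i₀ j hji (fun a b hab _ => hvf a b hab) B φ hφ

end Pool.Agent.MG


end

section

/-!
# BUB: the bubble family
-/

namespace Pool.Agent.MG

theorem bubw_of (hRIGW : Stmt_RIGW) : Stmt_BUBW :=
  t_BUBW t_FIS (t_CON t_CHB) (t_NOD t_CHB) t_GEN hRIGW t_TAU (t_BGEN t_COVI) t_BNOD t_BSEC
    (t_BRIGW (t_BRAW t_ALGW))

theorem bub_of (hRIGW : Stmt_RIGW) : Stmt_BUB := t_BUB (bubw_of hRIGW)

theorem t_RIGW' : Stmt_RIGW := t_RIGW t_CHB t_CHI0 t_TAU t_ALGW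

/-- The bubble family, weak form of the hypothesis on vector fields. -/
theorem bubw : Stmt_BUBW := bubw_of t_RIGW'

/-- The bubble family. -/
theorem bub : Stmt_BUB := t_BUB bubw

end Pool.Agent.MG


end

section

/-!
# The blocks of the proof together
-/

namespace Pool.Agent.MG

theorem hyp_of (hbub : Stmt_BUB) : Hyp where
  cov := (t_COV (t_SQZ t_AFF) t_AX t_AI (t_KSN (t_SQZ t_AFF) t_AN)).1
  cou := (t_COV (t_SQZ t_AFF) t_AX t_AI (t_KSN (t_SQZ t_AFF) t_AN)).2.1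
  nat := (t_COV (t_SQZ t_AFF) t_AX t_AI (t_KSN (t_SQZ t_AFF) t_AN)).2.2
  chg := t_CHG (t_SQZ t_AFF) t_AX t_AC t_AI
  cls := t_CLS' t_GLU t_KSU0 t_PBS (t_KSN (t_SQZ t_AFF) t_AN)
  chb := t_CHB
  cha := t_CHA.1
  chk := t_CHA.2
  chi := t_CHI.1
  tau := t_CHI.2
  dis := t_DIS
  cst := t_CST t_FIS (t_CON t_CHB) (t_NOD t_CHB) t_GEN (t_RIG t_CHB)
  bub := hbub
  uni := stmt_UNI
  alg := stmt_ALG
  loc := stmt_LOC

theorem rigw : Stmt_RIGW := t_RIGW t_CHB t_CHI.1 t_CHI.2 t_ALGW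

theorem hyp : Hyp := hyp_of (bub_of rigw)

end Pool.Agent.MG


end

section

/-!
# The theorem for pointed curves of genus at least two
-/

open CategoryTheory AlgebraicGeometry

namespace Pool.Agent.MG

theorem pointed_smooth (g n : ℕ) (hg : 2 ≤ g) (hn : 1 ≤ n) (k : Type) [Field k] [IsAlgClosed k]
    [Algebra ℂ k] (F : Reg g n) (C : Fam n k) (hC : IsStable g C) (hs : Smooth C.π)
    (l : Cov g C) : F.F k C hC l = F.F k C hC 0 := by
  have hst : StableCurve g C := CST.stableCurve hC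
  have hs1 : SmoothOfRelativeDimension 1 C.π :=
    SmNod.smoothOfRelativeDimension_one C.π hst.nodal
  exact pointed hyp two stmt_NOT g n hg hn k F C hC hs1 l

end Pool.Agent.MG


end
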