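import Mathlib
import Pool.Agent.KDM.C07
import Pool.Agent.KDM.C33
import Pool.Agent.KDM.C34
import Pool.Agent.KDM.C50

/-! Parts: MG.End1 -/

section

/-!
# Curves of genus one: the value of a regular function does not depend on one marked point
-/

open CategoryTheory CategoryTheory.Limits AlgebraicGeometry TensorProduct

namespace Pool.Agent.MG

theorem cstw : Stmt_CSTW := t_CSTW rigw

namespace E1

section

variable {g n : ℕ} {k : Type} [Field k] {T : TC k} {C : Fam n k} (ch : Cht C T) [IsAlgClosed k]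

/-- What is assumed of the curve. -/
structure Cur (C : Fam n k) (g : ℕ) : Prop where
  hC : IsStable g C
  hs : SmoothOfRelativeDimension 1 C.π

variable (Q : Cur C g) (E : Ell T)

theorem tau_const {B : Type} [CommRing B] [Algebra k B] (i₀ j : Fin n) (hj : j ≠ i₀)
    (s : Pt T B) : tau ch.aff (mv ch i₀ s j) = spMap (algebraMap k B) ≫ C.σ j := by
  have h1 : mv ch i₀ s j = (Pt.one (ch.pt j) : Pt T k).map (Algebra.ofId k B) := by
    unfold mv
    rw [if_neg hj]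
    rfl
  rw [h1, (hyp.tau ch.ct ch.aff).2.1 k B (Algebra.ofId k B),
    ← (hyp.tau ch.ct ch.aff).2.2.2 (C.σ j) (.one (ch.pt j)) (C.sec j) (ch.is j)]
  rfl

/-- The constant family with moving section `s`. -/
noncomputable def cobj {B : Type} [CommRing B] [Algebra k B] (i₀ j : Fin n) (hj : j ≠ i₀)
    (s : Pt T B) (hd : Dis ch (mv ch i₀ s)) : Obj g n T B where
  x := constFam C B (fun i => tau ch.aff (mv ch i₀ s i))
    (fun i => (hyp.tau ch.ct ch.aff).1 B (mv ch i₀ s i))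
  hx := cstw g C Q.hC Q.hs T ch j (Ell.hv E ch.h0 (ch.pt j)) B _ _
    (tau_const ch i₀ j hj s) hd
  ct := (hyp.chb ch.ct ch.aff B (fun i => tau ch.aff (mv ch i₀ s i))
    (fun i => (hyp.tau ch.ct ch.aff).1 B (mv ch i₀ s i))).choose
  s := mv ch i₀ s
  hs i := (hyp.chi ch.ct ch.aff B _ _ _ (hyp.chb ch.ct ch.aff B
    (fun i => tau ch.aff (mv ch i₀ s i))
    (fun i => (hyp.tau ch.ct ch.aff).1 B (mv ch i₀ s i))).choose_spec i).1 (mv ch i₀ s i) rfl

theorem cobj_bc {B : Type} [CommRing B] [Algebra k B] (i₀ j : Fin n) (hj : j ≠ i₀)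
    (s : Pt T B) (hd : Dis ch (mv ch i₀ s)) :
    IsBC (hτ := fun i => (hyp.tau ch.ct ch.aff).1 B (mv ch i₀ s i)) ch.ct
      (cobj ch Q E i₀ j hj s hd).ct :=
  (hyp.chb ch.ct ch.aff B (fun i => tau ch.aff (mv ch i₀ s i))
    (fun i => (hyp.tau ch.ct ch.aff).1 B (mv ch i₀ s i))).choose_spec

theorem cobj_arrow {B : Type} [CommRing B] [Algebra k B] {B' : Type} [CommRing B']
    [Algebra k B'] (ψ : B →ₐ[k] B') (i₀ j : Fin n) (hj : j ≠ i₀) (s : Pt T B) (s' : Pt T B')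
    (hd : Dis ch (mv ch i₀ s)) (hd' : Dis ch (mv ch i₀ s'))
    (hs : tau ch.aff s' = tau ch.aff (s.map ψ)) :
    ∃ a : Arrow (ψ : B →+* B') (cobj ch Q E i₀ j hj s' hd').x (cobj ch Q E i₀ j hj s hd).x,
      ChArrow a (cobj ch Q E i₀ j hj s' hd').ct (cobj ch Q E i₀ j hj s hd).ct := by
  refine hyp.cha ch.ct ch.aff B B' ψ _ _ _ _ _ _ (cobj_bc ch Q E i₀ j hj s hd)
    (cobj_bc ch Q E i₀ j hj s' hd') fun i => ?_
  rw [← (hyp.tau ch.ct ch.aff).2.1 B B' ψ, map_mv]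
  unfold mv
  by_cases h : i = i₀
  · rw [if_pos h, if_pos h, hs]
  · rw [if_neg h, if_neg h]

variable [Algebra ℂ k]

/-- The universal ring with the moving point away from the `p i`, `i ∈ s`. -/
abbrev SV (V : Type) (s : Finset (Fin n)) : Type :=
  Localization.Away (MvPolynomial.C (PP ch s) : MvPolynomial V T.R1)

/-- The universal moving point. -/
noncomputable def ph (V : Type) (s : Finset (Fin n)) : T.R1 →ₐ[k] SV ch V s :=
  (IsScalarTower.toAlgHom k (MvPolynomial V T.R1) (SV ch V s)).comp (cAlg k T.R1 V)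

theorem ph_apply (V : Type) (s : Finset (Fin n)) (r : T.R1) :
    ph ch V s r = algebraMap (MvPolynomial V T.R1) (SV ch V s) (MvPolynomial.C r) := rfl

theorem ph_unit (V : Type) (s : Finset (Fin n)) (i : Fin n) (hi : i ∈ s) :
    IsUnit (ph ch V s (zE ch i)) := by
  rw [ph_apply]
  have h1 : IsUnit (algebraMap (MvPolynomial V T.R1) (SV ch V s)
      (MvPolynomial.C (PP ch s))) :=
    IsLocalization.Away.algebraMap_isUnit _
  have h2 : zE ch i ∣ PP ch s := Finset.dvd_prod_of_mem _ hi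
  have h3 : algebraMap (MvPolynomial V T.R1) (SV ch V s) (MvPolynomial.C (zE ch i)) ∣
      algebraMap (MvPolynomial V T.R1) (SV ch V s) (MvPolynomial.C (PP ch s)) :=
    map_dvd _ (map_dvd _ h2)
  exact isUnit_of_dvd_unit h3 h1

/-- Homomorphisms from the universal ring. -/
noncomputable def SVlift (V : Type) (s : Finset (Fin n)) {B : Type} [CommRing B] [Algebra k B]
    (θ : MvPolynomial V T.R1 →ₐ[k] B) (h : IsUnit (θ (MvPolynomial.C (PP ch s)))) :
    SV ch V s →ₐ[k] B :=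
  IsLocalization.liftAlgHom (M := Submonoid.powers (MvPolynomial.C (PP ch s) :
    MvPolynomial V T.R1)) (f := θ) (by
      rintro ⟨y, m, rfl⟩
      change IsUnit (θ ((MvPolynomial.C (PP ch s)) ^ m))
      rw [map_pow]
      exact h.pow m)

theorem SVlift_apply (V : Type) (s : Finset (Fin n)) {B : Type} [CommRing B] [Algebra k B]
    (θ : MvPolynomial V T.R1 →ₐ[k] B) (h : IsUnit (θ (MvPolynomial.C (PP ch s))))
    (y : MvPolynomial V T.R1) :
    SVlift ch V s θ h (algebraMap _ (SV ch V s) y) = θ y := by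
  unfold SVlift
  simp

theorem SVlift_ph (V : Type) (s : Finset (Fin n)) {B : Type} [CommRing B] [Algebra k B]
    (θ : MvPolynomial V T.R1 →ₐ[k] B) (h : IsUnit (θ (MvPolynomial.C (PP ch s))))
    (r : T.R1) : SVlift ch V s θ h (ph ch V s r) = θ (MvPolynomial.C r) := by
  rw [ph_apply, SVlift_apply]

theorem PP_unit (V : Type) (s : Finset (Fin n)) (j : Fin n) (hj : j ∈ s) :
    IsUnit (IsScalarTower.toAlgHom k (MvPolynomial V T.R1) (SV ch V s)
      (MvPolynomial.C (PP ch (s.erase j)))) := by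
  have h1 : IsUnit (algebraMap (MvPolynomial V T.R1) (SV ch V s)
      (MvPolynomial.C (PP ch s))) :=
    IsLocalization.Away.algebraMap_isUnit _
  have h2 : PP ch (s.erase j) ∣ PP ch s := ⟨zE ch j, PP_erase ch s j hj⟩
  have h3 : algebraMap (MvPolynomial V T.R1) (SV ch V s)
      (MvPolynomial.C (PP ch (s.erase j))) ∣
      algebraMap (MvPolynomial V T.R1) (SV ch V s) (MvPolynomial.C (PP ch s)) :=
    map_dvd _ (map_dvd _ h2)
  exact isUnit_of_dvd_unit h3 h1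

/-- The restriction to the complement of `p j`. -/
noncomputable def SVres (V : Type) (s : Finset (Fin n)) (j : Fin n) (hj : j ∈ s) :
    SV ch V (s.erase j) →ₐ[k] SV ch V s :=
  SVlift ch V (s.erase j) (IsScalarTower.toAlgHom k (MvPolynomial V T.R1) (SV ch V s))
    (PP_unit ch V s j hj)

theorem SVres_apply (V : Type) (s : Finset (Fin n)) (j : Fin n) (hj : j ∈ s)
    (y : MvPolynomial V T.R1) :
    SVres ch V s j hj (algebraMap _ (SV ch V (s.erase j)) y) = algebraMap _ (SV ch V s) y :=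
  SVlift_apply ch V (s.erase j) _ (PP_unit ch V s j hj) y

theorem SVres_ph (V : Type) (s : Finset (Fin n)) (j : Fin n) (hj : j ∈ s) :
    (SVres ch V s j hj).comp (ph ch V (s.erase j)) = ph ch V s := by
  ext r
  exact SVlift_ph ch V (s.erase j) _ (PP_unit ch V s j hj) r

theorem SV_inj (V : Type) (s : Finset (Fin n)) :
    Function.Injective (algebraMap (MvPolynomial V T.R1) (SV ch V s)) := by
  have := domR1 ch
  refine IsLocalization.injective (SV ch V s)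
    (M := Submonoid.powers (MvPolynomial.C (PP ch s) : MvPolynomial V T.R1)) ?_
  refine powers_le_nonZeroDivisors_of_noZeroDivisors ?_
  rw [Ne, MvPolynomial.C_eq_zero]
  exact PP_ne_zero ch s

/-- LOC with the variable `i₀` left out. -/
theorem loc1 (ι : Type) (i₀ : Fin n) (s : Finset (Fin n)) (N : ℕ)
    (f : MvPolynomial ({i : Fin n // i ≠ i₀} ⊕ ι) T.R1)
    (h : ∀ j ∈ s, ∃ (M : ℕ) (q : MvPolynomial ({i : Fin n // i ≠ i₀} ⊕ ι) T.R1),
      (MvPolynomial.C ((∏ i ∈ s.erase j, (T.x - algebraMap k T.R1 (ch.pt i T.x))) ^ M)) * f =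
        MvPolynomial.C ((T.x - algebraMap k T.R1 (ch.pt j T.x)) ^ N) * q) :
    ∃ q : MvPolynomial ({i : Fin n // i ≠ i₀} ⊕ ι) T.R1,
      f = MvPolynomial.C ((∏ i ∈ s, (T.x - algebraMap k T.R1 (ch.pt i T.x))) ^ N) * q := by
  let r : {i : Fin n // i ≠ i₀} ⊕ ι → Fin n ⊕ ι := Sum.map Subtype.val id
  obtain ⟨q, hq⟩ := hyp.loc T ch ι s N (MvPolynomial.rename r f) (by
    intro j hj
    obtain ⟨M, q, hq⟩ := h j hj
    refine ⟨M, MvPolynomial.rename r q, ?_⟩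
    have := congrArg (MvPolynomial.rename r) hq
    rw [map_mul, map_mul, MvPolynomial.rename_C, MvPolynomial.rename_C] at this
    exact this)
  let w : Fin n ⊕ ι → MvPolynomial ({i : Fin n // i ≠ i₀} ⊕ ι) T.R1 := Sum.elim
    (fun i => if h : i ≠ i₀ then MvPolynomial.X (.inl ⟨i, h⟩) else 0)
    (fun a => MvPolynomial.X (.inr a))
  refine ⟨MvPolynomial.aeval w q, ?_⟩
  have h1 := congrArg (MvPolynomial.aeval w) hq
  rw [map_mul, MvPolynomial.aeval_rename] at h1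
  have h2 : w ∘ r = MvPolynomial.X := by
    funext v
    rcases v with v | v
    · simp [w, r, v.2]
    · simp [w, r]
  rw [h2, MvPolynomial.aeval_X_left, AlgHom.id_apply] at h1
  rw [h1]
  congr 1
  rw [MvPolynomial.aeval_C]
  rfl

section core

variable (F : Reg g n) {ι : Type} {D : ι → T.R12} {i₀ : Fin n}

/-- Universal covector data. -/
structure Uni (D : ι → T.R12) (i₀ : Fin n) : Prop where
  ex : ∀ (B : Type) [CommRing B] [Algebra k B] (s : Fin n → Pt T B)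
    (ν : {i : Fin n // i ≠ i₀} → B) (w : ι → B),
    ∃ C : CovData s, (∀ i, C.ν i.1 = ν i) ∧ ∀ a, C.μ (D a) = w a
  un : ∀ (B : Type) [CommRing B] [Algebra k B] (s : Fin n → Pt T B)
    (C C' : CovData s), (∀ i, i ≠ i₀ → C.ν i = C'.ν i) →
    (∀ a, C.μ (D a) = C'.μ (D a)) → C = C'

variable (U : Uni (T := T) D i₀)

/-- The covector data with given weights. -/
noncomputable def Uni.cd (U : Uni (T := T) D i₀) {B : Type} [CommRing B]
    [Algebra k B] (s : Fin n → Pt T B) (v : {i : Fin n // i ≠ i₀} ⊕ ι → B) : CovData s :=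
  (U.ex B s (fun i => v (.inl i)) (fun a => v (.inr a))).choose

theorem Uni.cd_ν (U : Uni (T := T) D i₀) {B : Type} [CommRing B] [Algebra k B]
    (s : Fin n → Pt T B) (v : {i : Fin n // i ≠ i₀} ⊕ ι → B) (i : Fin n) (hi : i ≠ i₀) :
    (U.cd s v).ν i = v (.inl ⟨i, hi⟩) :=
  (U.ex B s (fun i => v (.inl i)) (fun a => v (.inr a))).choose_spec.1 ⟨i, hi⟩

theorem Uni.cd_μ (U : Uni (T := T) D i₀) {B : Type} [CommRing B] [Algebra k B]
    (s : Fin n → Pt T B) (v : {i : Fin n // i ≠ i₀} ⊕ ι → B) (a : ι) :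
    (U.cd s v).μ (D a) = v (.inr a) :=
  (U.ex B s (fun i => v (.inl i)) (fun a => v (.inr a))).choose_spec.2 a

/-- Universal data map to universal data. -/
theorem Uni.map (U : Uni (T := T) D i₀) {B : Type} [CommRing B] [Algebra k B]
    {B' : Type} [CommRing B'] [Algebra k B'] (ψ : B →ₐ[k] B') {s : Fin n → Pt T B}
    {s' : Fin n → Pt T B'} (hs : ∀ i, s' i = (s i).map ψ)
    (v : {i : Fin n // i ≠ i₀} ⊕ ι → B) (v' : {i : Fin n // i ≠ i₀} ⊕ ι → B')
    (hv : ∀ j, v' j = ψ (v j)) : (U.cd s v).Map ψ (U.cd s' v') := by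
  have : U.cd s' v' = (U.cd s v).bc ψ hs := by
    apply U.un
    · intro i hi
      rw [U.cd_ν s' v' i hi, hv]
      change _ = ψ ((U.cd s v).ν i)
      rw [U.cd_ν s v i hi]
    · intro a
      rw [U.cd_μ, hv]
      change _ = ψ ((U.cd s v).μ (D a))
      rw [U.cd_μ]
  rw [this]
  exact CovData.bc_map ψ _ hs

variable (j₀ : Fin n) (hj₀ : j₀ ≠ i₀)

/-- The universal object with moving section in the first chart. -/
noncomputable def o1 (V : Type) : Obj g n T (SV ch V (Finset.univ.erase i₀)) :=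
  cobj ch Q E i₀ j₀ hj₀ (.one (ph ch V (Finset.univ.erase i₀)))
    (dis_one ch hyp i₀ _ fun i hi => ph_unit ch V _ i
      (Finset.mem_erase.2 ⟨hi, Finset.mem_univ i⟩))

/-- The value on the universal object. -/
noncomputable def f1 : SV ch ({i : Fin n // i ≠ i₀} ⊕ ι) (Finset.univ.erase i₀) :=
  (o1 ch Q E j₀ hj₀ ({i : Fin n // i ≠ i₀} ⊕ ι)).val hyp.cov F (U.cd _ fun j =>
    algebraMap (MvPolynomial ({i : Fin n // i ≠ i₀} ⊕ ι) T.R1)
      (SV ch ({i : Fin n // i ≠ i₀} ⊕ ι) (Finset.univ.erase i₀)) (MvPolynomial.X j))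

/-- The universal object with moving section in the second chart. -/
noncomputable def o2 (V : Type) : Obj g n T (MvPolynomial V T.R2) :=
  cobj ch Q E i₀ j₀ hj₀ (.two (cAlg k T.R2 V)) (dis_two ch hyp i₀ _)

/-- The value on the universal object. -/
noncomputable def f2 : MvPolynomial ({i : Fin n // i ≠ i₀} ⊕ ι) T.R2 :=
  (o2 ch Q E j₀ hj₀ ({i : Fin n // i ≠ i₀} ⊕ ι)).val hyp.cov F (U.cd _ fun j =>
    MvPolynomial.X j)

/-- The value extends over `p j`. -/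
theorem f1_bub (j : Fin n) (hj : j ≠ i₀) :
    ∃ y : SV ch ({i : Fin n // i ≠ i₀} ⊕ ι) ((Finset.univ.erase i₀).erase j),
      SVres ch ({i : Fin n // i ≠ i₀} ⊕ ι) (Finset.univ.erase i₀) j (Finset.mem_erase.2 ⟨hj, Finset.mem_univ j⟩) y =
        f1 ch Q E F U j₀ hj₀ := by
  obtain ⟨x, ct, hx, his, harr⟩ := bubw g C Q.hC Q.hs T ch i₀ j hj (Ell.hv E ch.h0 (ch.pt j))
    (SV ch ({i : Fin n // i ≠ i₀} ⊕ ι) ((Finset.univ.erase i₀).erase j)) (ph ch ({i : Fin n // i ≠ i₀} ⊕ ι) _)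
    (fun i hi hij =>
      ph_unit ch _ _ i (Finset.mem_erase.2 ⟨hij, Finset.mem_erase.2 ⟨hi, Finset.mem_univ i⟩⟩))
  let o : Obj g n T (SV ch ({i : Fin n // i ≠ i₀} ⊕ ι) ((Finset.univ.erase i₀).erase j)) :=
    ⟨x, hx, ct, _, his⟩
  have hj' : j ∈ Finset.univ.erase i₀ := Finset.mem_erase.2 ⟨hj, Finset.mem_univ j⟩
  refine ⟨o.val hyp.cov F (U.cd _ fun v => algebraMap (MvPolynomial ({i : Fin n // i ≠ i₀} ⊕ ι) T.R1) _
    (MvPolynomial.X v)), ?_⟩
  have hs : ∀ i, mv ch i₀ (.one (ph ch ({i : Fin n // i ≠ i₀} ⊕ ι) (Finset.univ.erase i₀))) i =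
      (mv ch i₀ (.one (ph ch ({i : Fin n // i ≠ i₀} ⊕ ι)
        ((Finset.univ.erase i₀).erase j))) i).map
        (SVres ch ({i : Fin n // i ≠ i₀} ⊕ ι) (Finset.univ.erase i₀) j hj') := by
    intro i
    rw [map_mv]
    congr 1
    simp only [Pt.map]
    rw [SVres_ph]
  symm
  have hu : IsUnit (SVres ch ({i : Fin n // i ≠ i₀} ⊕ ι) (Finset.univ.erase i₀) j hj'
      (ph ch ({i : Fin n // i ≠ i₀} ⊕ ι) ((Finset.univ.erase i₀).erase j) (T.x - algebraMap k T.R1 (ch.pt j T.x)))) := by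
    have h1 := ph_unit ch ({i : Fin n // i ≠ i₀} ⊕ ι) (Finset.univ.erase i₀) j hj'
    rw [← SVres_ph ch ({i : Fin n // i ≠ i₀} ⊕ ι) _ j hj'] at h1
    exact h1
  have hτ' : (fun i => tau ch.aff (mv ch i₀ (.one (ph ch ({i : Fin n // i ≠ i₀} ⊕ ι)
      (Finset.univ.erase i₀))) i)) =
      fun i => tau ch.aff ((mv ch i₀ (.one (ph ch ({i : Fin n // i ≠ i₀} ⊕ ι)
        ((Finset.univ.erase i₀).erase j))) i).map
        (SVres ch ({i : Fin n // i ≠ i₀} ⊕ ι) (Finset.univ.erase i₀) j hj')) := by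
    funext i
    rw [hs i]
  refine Obj.val_map hyp F o (o1 ch Q E j₀ hj₀ ({i : Fin n // i ≠ i₀} ⊕ ι))
    (SVres ch ({i : Fin n // i ≠ i₀} ⊕ ι) (Finset.univ.erase i₀) j hj') ?_ _ _ ?_
  · have key := harr (SV ch ({i : Fin n // i ≠ i₀} ⊕ ι) (Finset.univ.erase i₀))
      (SVres ch ({i : Fin n // i ≠ i₀} ⊕ ι) (Finset.univ.erase i₀) j hj') hu
    have gen : ∀ (τ : Fin n → (Sp (SV ch ({i : Fin n // i ≠ i₀} ⊕ ι)
          (Finset.univ.erase i₀)) ⟶ C.X))
        (hτ : ∀ i, τ i ≫ C.π = spMap (algebraMap k (SV ch ({i : Fin n // i ≠ i₀} ⊕ ι)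
          (Finset.univ.erase i₀))))
        (c : Charted T (constFam C (SV ch ({i : Fin n // i ≠ i₀} ⊕ ι)
          (Finset.univ.erase i₀)) τ hτ)), IsBC ch.ct c →
        (τ = fun i => tau ch.aff
          ((mv ch i₀ (.one (ph ch ({i : Fin n // i ≠ i₀} ⊕ ι)
            ((Finset.univ.erase i₀).erase j))) i).map
            (SVres ch ({i : Fin n // i ≠ i₀} ⊕ ι) (Finset.univ.erase i₀) j hj'))) →
        ∃ a : Arrow (SVres ch ({i : Fin n // i ≠ i₀} ⊕ ι) (Finset.univ.erase i₀) j hj' :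
          _ →+* _) (constFam C (SV ch ({i : Fin n // i ≠ i₀} ⊕ ι)
          (Finset.univ.erase i₀)) τ hτ) x, ChArrow a c ct := by
      intro τ hτ c hc e
      subst e
      exact key hτ c hc
    exact gen _ _ _ (cobj_bc ch Q E i₀ j₀ hj₀ _ _) hτ'
  · exact U.map _ hs _ _ fun v => (SVres_apply ch _ _ j hj' _).symm

/-- The universal value has no poles. -/
theorem f1_regular :
    ∃ q : MvPolynomial ({i : Fin n // i ≠ i₀} ⊕ ι) T.R1, f1 ch Q E F U j₀ hj₀ =
      algebraMap _ (SV ch ({i : Fin n // i ≠ i₀} ⊕ ι) (Finset.univ.erase i₀)) q := by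
  have := domR1 ch
  obtain ⟨N, f, hf⟩ := IsLocalization.Away.surj
    (MvPolynomial.C (PP ch (Finset.univ.erase i₀)) :
      MvPolynomial ({i : Fin n // i ≠ i₀} ⊕ ι) T.R1)
    (f1 ch Q E F U j₀ hj₀)
  have key := loc1 ch ι i₀ (Finset.univ.erase i₀) N f ?_
  · obtain ⟨q, hq⟩ := key
    refine ⟨q, ?_⟩
    have hu : IsUnit (algebraMap (MvPolynomial ({i : Fin n // i ≠ i₀} ⊕ ι) T.R1)
        (SV ch ({i : Fin n // i ≠ i₀} ⊕ ι) (Finset.univ.erase i₀))
        (MvPolynomial.C (PP ch (Finset.univ.erase i₀))) ^ N) :=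
      (IsLocalization.Away.algebraMap_isUnit _).pow N
    apply hu.mul_right_cancel
    rw [hf, hq]
    have : (MvPolynomial.C ((∏ i ∈ Finset.univ.erase i₀,
        (T.x - algebraMap k T.R1 (ch.pt i T.x))) ^ N) :
        MvPolynomial ({i : Fin n // i ≠ i₀} ⊕ ι) T.R1) =
        MvPolynomial.C (PP ch (Finset.univ.erase i₀)) ^ N := by
      rw [map_pow]
      rfl
    rw [this, map_mul, map_pow, mul_comm]
  · intro j hj
    have hj' : j ≠ i₀ := (Finset.mem_erase.1 hj).1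
    obtain ⟨y, hy⟩ := f1_bub ch Q E F U j₀ hj₀ j hj'
    obtain ⟨M, q, hq⟩ := IsLocalization.Away.surj
      (MvPolynomial.C (PP ch ((Finset.univ.erase i₀).erase j)) :
        MvPolynomial ({i : Fin n // i ≠ i₀} ⊕ ι) T.R1) y
    refine ⟨M, MvPolynomial.C (PP ch ((Finset.univ.erase i₀).erase j) ^ N) * q, ?_⟩
    apply SV_inj ch _ (Finset.univ.erase i₀)
    have h1 := congrArg (SVres ch ({i : Fin n // i ≠ i₀} ⊕ ι) (Finset.univ.erase i₀) j
      (Finset.mem_erase.2 ⟨hj', Finset.mem_univ j⟩)) hq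
    rw [map_mul, map_pow, hy, SVres_apply, SVres_apply] at h1
    have e1 : (MvPolynomial.C ((∏ i ∈ (Finset.univ.erase i₀).erase j,
        (T.x - algebraMap k T.R1 (ch.pt i T.x))) ^ M) :
        MvPolynomial ({i : Fin n // i ≠ i₀} ⊕ ι) T.R1) =
        MvPolynomial.C (PP ch ((Finset.univ.erase i₀).erase j)) ^ M := by
      rw [map_pow]
      rfl
    have e2 : (MvPolynomial.C ((T.x - algebraMap k T.R1 (ch.pt j T.x)) ^ N) :
        MvPolynomial ({i : Fin n // i ≠ i₀} ⊕ ι) T.R1) * (MvPolynomial.C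
          (PP ch ((Finset.univ.erase i₀).erase j) ^ N) * q) =
        MvPolynomial.C (PP ch (Finset.univ.erase i₀)) ^ N * q := by
      rw [PP_erase ch _ j hj, ← map_pow, mul_pow, map_mul]
      change MvPolynomial.C (zE ch j ^ N) * _ = _
      ring
    rw [e1, e2, map_mul, map_mul, map_pow, map_pow, ← hf, ← h1]
    ring

/-- The point of the intersection. -/
noncomputable def xi (T : TC k) (V : Type) : T.R12 →ₐ[k] MvPolynomial V T.R12 := cAlg k T.R12 V

theorem xi_unit (V : Type) (i : Fin n) : IsUnit (((xi T V).comp T.j1)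
    (T.x - algebraMap k T.R1 (ch.pt i T.x))) :=
  (ch.unit i).map (xi T V)

/-- The object over the intersection, section in the first chart. -/
noncomputable def o12 (V : Type) : Obj g n T (MvPolynomial V T.R12) :=
  cobj ch Q E i₀ j₀ hj₀ (.one ((xi T V).comp T.j1))
    (dis_one ch hyp i₀ _ fun i _ => xi_unit ch V i)

/-- The object over the intersection, section in the second chart. -/
noncomputable def o12' (V : Type) : Obj g n T (MvPolynomial V T.R12) where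
  x := (o12 ch Q E j₀ hj₀ V).x
  hx := (o12 ch Q E j₀ hj₀ V).hx
  ct := (o12 ch Q E j₀ hj₀ V).ct
  s := mv ch i₀ (.two ((xi T V).comp T.j2))
  hs i := (hyp.chi ch.ct ch.aff _ _ _ _ (cobj_bc ch Q E i₀ j₀ hj₀ (.one ((xi T V).comp T.j1))
    (dis_one ch hyp i₀ _ fun i _ => xi_unit ch V i)) i).1 _ (by
      unfold mv
      by_cases h : i = i₀
      · rw [if_pos h, if_pos h]
        exact (hyp.tau ch.ct ch.aff).2.2.1 _ (xi T V)
      · rw [if_neg h, if_neg h])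

/-- `S₁ → S₁₂`. -/
noncomputable def th1 (T : TC k) (V : Type) :
    MvPolynomial V T.R1 →ₐ[k] MvPolynomial V T.R12 :=
  MvPolynomial.mapAlgHom T.j1

theorem th1_unit (V : Type) (s : Finset (Fin n)) :
    IsUnit (th1 T V (MvPolynomial.C (PP ch s))) := by
  have h : th1 T V (MvPolynomial.C (PP ch s)) = MvPolynomial.C (T.j1 (PP ch s)) := by
    simp [th1]
  rw [h]
  refine IsUnit.map MvPolynomial.C ?_
  unfold PP
  rw [map_prod]
  exact (IsUnit.prod_iff).2 fun i _ => ch.unit i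

/-- `S₂ → S₁₂`. -/
noncomputable def th2 {V : Type} (w : V → MvPolynomial V T.R12) :
    MvPolynomial V T.R2 →ₐ[k] MvPolynomial V T.R12 :=
  ((MvPolynomial.aeval w : MvPolynomial V T.R12 →ₐ[T.R12]
    MvPolynomial V T.R12).restrictScalars k).comp (MvPolynomial.mapAlgHom T.j2)

theorem th2_C {V : Type} (w : V → MvPolynomial V T.R12) (r : T.R2) :
    th2 w (MvPolynomial.C r) = MvPolynomial.C (T.j2 r) := by
  simp [th2]

theorem th2_X {V : Type} (w : V → MvPolynomial V T.R12) (v : V) :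
    th2 (T := T) w (MvPolynomial.X v) = w v := by
  simp [th2]

theorem ptmap1 (V : Type) (s : Finset (Fin n)) :
    (Pt.one (ph ch V s)).map (SVlift ch V s (th1 T V) (th1_unit ch V s)) =
      Pt.one ((xi T V).comp T.j1) := by
  simp only [Pt.map, Pt.one.injEq]
  refine AlgHom.ext fun r => ?_
  refine (SVlift_ph ch V s (th1 T V) (th1_unit ch V s) r).trans ?_
  simp [th1, xi]

theorem ptmap2 {V : Type} (w : V → MvPolynomial V T.R12) :
    (Pt.two (cAlg k T.R2 V)).map (th2 w) = Pt.two ((xi T V).comp T.j2) := by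
  simp only [Pt.map, Pt.two.injEq]
  refine AlgHom.ext fun r => ?_
  exact th2_C w r

theorem val12 (q : MvPolynomial ({i : Fin n // i ≠ i₀} ⊕ ι) T.R1)
    (hq : f1 ch Q E F U j₀ hj₀ = algebraMap _ (SV ch ({i : Fin n // i ≠ i₀} ⊕ ι) (Finset.univ.erase i₀)) q) :
    (o12 ch Q E j₀ hj₀ ({i : Fin n // i ≠ i₀} ⊕ ι)).val hyp.cov F
      (U.cd _ fun v => MvPolynomial.X v) = MvPolynomial.map (T.j1 : T.R1 →+* T.R12) q := by
  have h1 := Obj.val_map hyp F (o1 ch Q E j₀ hj₀ ({i : Fin n // i ≠ i₀} ⊕ ι))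
    (o12 ch Q E j₀ hj₀ ({i : Fin n // i ≠ i₀} ⊕ ι))
    (SVlift ch ({i : Fin n // i ≠ i₀} ⊕ ι) (Finset.univ.erase i₀) (th1 T _) (th1_unit ch _ _))
    (cobj_arrow ch Q E _ i₀ j₀ hj₀ (.one (ph ch ({i : Fin n // i ≠ i₀} ⊕ ι) (Finset.univ.erase i₀)))
      (.one ((xi T _).comp T.j1)) _ _ (by rw [ptmap1]))
    (U.cd _ fun j => algebraMap (MvPolynomial ({i : Fin n // i ≠ i₀} ⊕ ι) T.R1)
      (SV ch ({i : Fin n // i ≠ i₀} ⊕ ι) (Finset.univ.erase i₀)) (MvPolynomial.X j))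
    (U.cd _ fun v => MvPolynomial.X v) ?_
  · rw [h1]
    change SVlift ch ({i : Fin n // i ≠ i₀} ⊕ ι) (Finset.univ.erase i₀) (th1 T _) (th1_unit ch _ _)
      (f1 ch Q E F U j₀ hj₀) = _
    rw [hq, SVlift_apply]
    rfl
  · refine U.map _ (fun i => ?_) _ _ fun v => ?_
    · change mv ch i₀ _ i = (mv ch i₀ _ i).map _
      rw [map_mv, ptmap1]
    · rw [SVlift_apply]
      simp [th1]

theorem val12' (w : {i : Fin n // i ≠ i₀} ⊕ ι →
      MvPolynomial ({i : Fin n // i ≠ i₀} ⊕ ι) T.R12) :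
    (o12' ch Q E j₀ hj₀ ({i : Fin n // i ≠ i₀} ⊕ ι)).val hyp.cov F (U.cd _ w) =
      th2 w (f2 ch Q E F U j₀ hj₀) := by
  refine Obj.val_map hyp F (o2 ch Q E j₀ hj₀ ({i : Fin n // i ≠ i₀} ⊕ ι))
    (o12' ch Q E j₀ hj₀ ({i : Fin n // i ≠ i₀} ⊕ ι)) (th2 w)
    (cobj_arrow ch Q E (th2 w) i₀ j₀ hj₀ _ (.one ((xi T _).comp T.j1)) _
      (dis_one ch hyp i₀ _ fun i _ => xi_unit ch _ i) ?_) _ _ ?_
  · rw [(hyp.tau ch.ct ch.aff).2.2.1 _ (xi T _), ptmap2]
  · refine U.map _ (fun i => ?_) _ _ fun v => ?_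
    · change mv ch i₀ _ i = (mv ch i₀ _ i).map _
      rw [map_mv, ptmap2]
    · exact (th2_X w v).symm

theorem sum_split {B : Type} [CommRing B] (i₀ : Fin n) (f : Fin n → B) :
    ∑ i, f i = f i₀ + ∑ i : {i : Fin n // i ≠ i₀}, f i.1 :=
  Fintype.sum_eq_add_sum_subtype_ne f i₀

/-- The values of the vector field at the marked points. -/
def cc (i : Fin n) : k := ch.pt i E.r0

/-- The weight of the moving section. -/
theorem nu_eq {B : Type} [CommRing B] [Algebra k B] (φ : T.R1 →ₐ[k] B)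
    (D : CovData (mv ch i₀ (.one φ))) :
    D.ν i₀ = -∑ i : {i : Fin n // i ≠ i₀}, algebraMap k B (cc ch E i.1) * φ E.ri * D.ν i.1 := by
  have h1 := D.m1 E.r0
  have h2 := D.m2 E.s0
  have h3 : ∀ i, (mv ch i₀ (.one φ) i).l2 E.s0 = 0 := by
    intro i
    unfold mv
    by_cases h : i = i₀
    · rw [if_pos h]
      rfl
    · rw [if_neg h]
      rfl
  simp only [h3, mul_zero, Finset.sum_const_zero] at h2
  rw [← E.h] at h2
  rw [h2, zero_add, sum_split i₀] at h1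
  have h4 : (mv ch i₀ (.one φ) i₀).l1 E.r0 = φ E.r0 := by
    unfold mv
    rw [if_pos rfl]
    rfl
  have h5 : ∀ i : {i : Fin n // i ≠ i₀}, (mv ch i₀ (.one φ) i.1).l1 E.r0 =
      algebraMap k B (cc ch E i.1) := by
    intro i
    unfold mv
    rw [if_neg i.2]
    rfl
  rw [h4] at h1
  simp only [h5] at h1
  have h6 : φ E.r0 * φ E.ri = 1 := by rw [← map_mul, E.hr, map_one]
  have h7 : D.ν i₀ = (D.ν i₀ * φ E.r0) * φ E.ri := by rw [mul_assoc, h6, mul_one]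
  have h8 : D.ν i₀ * φ E.r0 = -∑ i : {i : Fin n // i ≠ i₀},
      D.ν i.1 * algebraMap k B (cc ch E i.1) := by linear_combination h1
  rw [h7, h8, neg_mul, Finset.sum_mul]
  congr 1
  refine Finset.sum_congr rfl fun i _ => ?_
  ring

/-- Change of the chart of the moving section. -/
theorem val_chg :
    (o12 ch Q E j₀ hj₀ ({i : Fin n // i ≠ i₀} ⊕ ι)).val hyp.cov F
      (U.cd _ fun v => MvPolynomial.X v) =
      (o12' ch Q E j₀ hj₀ ({i : Fin n // i ≠ i₀} ⊕ ι)).val hyp.cov F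
        (U.cd _ (chgW E D i₀ (cc ch E))) := by
  have e1 : (mv ch i₀ (.one ((xi T ({i : Fin n // i ≠ i₀} ⊕ ι)).comp T.j1))) i₀ =
      .one ((xi T _).comp T.j1) := by
    unfold mv
    rw [if_pos rfl]
  have e2 : (mv ch i₀ (.two ((xi T ({i : Fin n // i ≠ i₀} ⊕ ι)).comp T.j2))) i₀ =
      .two ((xi T _).comp T.j2) := by
    unfold mv
    rw [if_pos rfl]
  have e3 : ∀ i, i ≠ i₀ →
      (mv ch i₀ (.one ((xi T ({i : Fin n // i ≠ i₀} ⊕ ι)).comp T.j1))) i =
      (mv ch i₀ (.two ((xi T ({i : Fin n // i ≠ i₀} ⊕ ι)).comp T.j2))) i := by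
    intro i hi
    unfold mv
    rw [if_neg hi, if_neg hi]
  set C1 : CovData (mv ch i₀ (.one ((xi T ({i : Fin n // i ≠ i₀} ⊕ ι)).comp T.j1))) :=
    U.cd _ fun v => MvPolynomial.X v with hC1
  set C2 : CovData (mv ch i₀ (.two ((xi T ({i : Fin n // i ≠ i₀} ⊕ ι)).comp T.j2))) :=
    U.cd _ (chgW E D i₀ (cc ch E)) with hC2
  have hν0 : C1.ν i₀ = nuv E ι i₀ (cc ch E) := by
    rw [nu_eq ch E _ C1]
    unfold nuv
    congr 1
    refine Finset.sum_congr rfl fun i _ => ?_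
    rw [hC1, U.cd_ν _ _ i.1 i.2]
    congr 1
    rw [MvPolynomial.C_mul]
    rfl
  have hν : ∀ i, i ≠ i₀ → C2.ν i = C1.ν i := by
    intro i hi
    rw [hC1, hC2, U.cd_ν _ _ i hi, U.cd_ν _ _ i hi]
    rfl
  -- the changed data
  have hC3 : ∃ C3 : CovData (mv ch i₀ (.two ((xi T ({i : Fin n // i ≠ i₀} ⊕ ι)).comp T.j2))),
      (∀ i, i ≠ i₀ → C3.ν i = C1.ν i) ∧ C3.ν i₀ = xi T _ T.e * C1.ν i₀ ∧
      ∀ r, C3.μ r = C1.μ r + C1.ν i₀ * xi T _ r := by
    refine ⟨⟨C1.μ + (C1.ν i₀) • (xi T _).toLinearMap,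
      fun i => if i = i₀ then xi T _ T.e * C1.ν i₀ else C1.ν i, ?_, ?_⟩, fun i hi => if_neg hi,
      if_pos rfl, fun r => rfl⟩
    · intro a
      have h := C1.m1 a
      rw [← Finset.add_sum_erase _ _ (Finset.mem_univ i₀)] at h ⊢
      rw [e1] at h
      rw [e2]
      have h2 : ∑ i ∈ Finset.univ.erase i₀, (if i = i₀ then xi T _ T.e * C1.ν i₀ else C1.ν i) *
          ((mv ch i₀ (.two ((xi T ({i : Fin n // i ≠ i₀} ⊕ ι)).comp T.j2))) i).l1 a =
          ∑ i ∈ Finset.univ.erase i₀, C1.ν i *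
          ((mv ch i₀ (.one ((xi T ({i : Fin n // i ≠ i₀} ⊕ ι)).comp T.j1))) i).l1 a := by
        refine Finset.sum_congr rfl fun i hi => ?_
        rw [if_neg (Finset.ne_of_mem_erase hi), e3 i (Finset.ne_of_mem_erase hi)]
      rw [h2]
      have h3 : (Pt.two ((xi T ({i : Fin n // i ≠ i₀} ⊕ ι)).comp T.j2) : Pt T _).l1 a = 0 := rfl
      have h4 : (Pt.one ((xi T ({i : Fin n // i ≠ i₀} ⊕ ι)).comp T.j1) : Pt T _).l1 a =
        xi T _ (T.j1 a) := rfl
      rw [h3]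
      rw [h4] at h
      change C1.μ (T.j1 a) + C1.ν i₀ * xi T _ (T.j1 a) + _ = 0
      rw [mul_zero, zero_add, add_assoc]
      exact h
    · intro a
      have h := C1.m2 a
      rw [← Finset.add_sum_erase _ _ (Finset.mem_univ i₀)] at h ⊢
      rw [e1] at h
      rw [e2]
      have h2 : ∑ i ∈ Finset.univ.erase i₀, (if i = i₀ then xi T _ T.e * C1.ν i₀ else C1.ν i) *
          ((mv ch i₀ (.two ((xi T ({i : Fin n // i ≠ i₀} ⊕ ι)).comp T.j2))) i).l2 a =
          ∑ i ∈ Finset.univ.erase i₀, C1.ν i *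
          ((mv ch i₀ (.one ((xi T ({i : Fin n // i ≠ i₀} ⊕ ι)).comp T.j1))) i).l2 a := by
        refine Finset.sum_congr rfl fun i hi => ?_
        rw [if_neg (Finset.ne_of_mem_erase hi), e3 i (Finset.ne_of_mem_erase hi)]
      rw [h2]
      have h3 : (Pt.two ((xi T ({i : Fin n // i ≠ i₀} ⊕ ι)).comp T.j2) : Pt T _).l2 a =
        xi T _ (T.j2 a) := rfl
      have h4 : (Pt.one ((xi T ({i : Fin n // i ≠ i₀} ⊕ ι)).comp T.j1) : Pt T _).l2 a = 0 := rfl
      rw [h3]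
      rw [h4, mul_zero, zero_add] at h
      change C1.μ (T.e * T.j2 a) + C1.ν i₀ * xi T _ (T.e * T.j2 a) = _
      rw [h, if_pos rfl, map_mul]
      ring
  obtain ⟨C3, h3ν, h3ν0, h3μ⟩ := hC3
  have hC23 : C3 = C2 := by
    apply U.un
    · intro i hi
      rw [h3ν i hi, hν i hi]
    · intro a
      rw [h3μ, hν0, hC1, hC2, U.cd_μ, U.cd_μ]
      simp only [chgW, xi, cAlg_apply]
      ring
  have hμ : ∀ r, C2.μ r = C1.μ r + C1.ν i₀ * xi T _ r := by
    rw [← hC23]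
    exact h3μ
  have hν0' : C2.ν i₀ = xi T _ T.e * C1.ν i₀ := by
    rw [← hC23]
    exact h3ν0
  have hl := hyp.chg (o12 ch Q E j₀ hj₀ ({i : Fin n // i ≠ i₀} ⊕ ι)).ct _ _
    (o12 ch Q E j₀ hj₀ ({i : Fin n // i ≠ i₀} ⊕ ι)).hs
    (o12' ch Q E j₀ hj₀ ({i : Fin n // i ≠ i₀} ⊕ ι)).hs i₀
    (xi T _) e1 e2 ?_ e3 C1 C2 hμ hν0' hν g
    ((o12 ch Q E j₀ hj₀ ({i : Fin n // i ≠ i₀} ⊕ ι)).cov hyp.cov C1)
    ((o12' ch Q E j₀ hj₀ ({i : Fin n // i ≠ i₀} ⊕ ι)).cov hyp.cov C2)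
    ((o12 ch Q E j₀ hj₀ ({i : Fin n // i ≠ i₀} ⊕ ι)).isCov hyp.cov C1)
    ((o12' ch Q E j₀ hj₀ ({i : Fin n // i ≠ i₀} ⊕ ι)).isCov hyp.cov C2)
  · exact congrArg (fun l => MG.val (k := k) F (o12 ch Q E j₀ hj₀ _).x
      (o12 ch Q E j₀ hj₀ _).hx l) hl
  · exact (hyp.chi ch.ct ch.aff _ _ _ _ (cobj_bc ch Q E i₀ j₀ hj₀
      (.one ((xi T _).comp T.j1))
      (dis_one ch hyp i₀ _ fun i _ => xi_unit ch _ i)) i₀).2 (xi T _) (by rw [e1])

theorem cc_ne (i : Fin n) : cc ch E i ≠ 0 := by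
  intro h
  have h1 : ch.pt i E.r0 * ch.pt i E.ri = 1 := by rw [← map_mul, E.hr, map_one]
  have h2 : ch.pt i E.r0 = 0 := h
  rw [h2, zero_mul] at h1
  exact zero_ne_one h1

/-- The universal value is a polynomial in the weights of the fixed sections. -/
theorem f1_poly [CharZero k] (hc : Cpl1 E D) :
    ∃ p : MvPolynomial {i : Fin n // i ≠ i₀} k, f1 ch Q E F U j₀ hj₀ =
      algebraMap _ (SV ch ({i : Fin n // i ≠ i₀} ⊕ ι) (Finset.univ.erase i₀))
        (MvPolynomial.rename Sum.inl (MvPolynomial.map (algebraMap k T.R1) p) :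
          MvPolynomial ({i : Fin n // i ≠ i₀} ⊕ ι) T.R1) := by
  obtain ⟨q, hq⟩ := f1_regular ch Q E F U j₀ hj₀
  obtain ⟨p, hp⟩ := t_ALG1 T E ch.dom ch.inj1 ch.inj2 ch.h0 D hc i₀ (cc ch E)
    ⟨j₀, hj₀, cc_ne ch E j₀⟩ q (f2 ch Q E F U j₀ hj₀) (by
    rw [← val12 ch Q E F U j₀ hj₀ q hq, val_chg, val12']
    rfl)
  exact ⟨p, by rw [hq, hp]⟩

/-- Evaluation at a point. -/
noncomputable def evk {V : Type} (φ : T.R1 →ₐ[k] k) (v : V → k) :
    MvPolynomial V T.R1 →ₐ[k] k :=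
  (MvPolynomial.aeval v : MvPolynomial V k →ₐ[k] k).comp (MvPolynomial.mapAlgHom φ)

theorem evk_C {V : Type} (φ : T.R1 →ₐ[k] k) (v : V → k) (r : T.R1) :
    evk φ v (MvPolynomial.C r) = φ r := by
  simp [evk]

theorem evk_X {V : Type} (φ : T.R1 →ₐ[k] k) (v : V → k) (j : V) :
    evk (T := T) φ v (MvPolynomial.X j) = v j := by
  simp [evk]

theorem evk_unit {V : Type} (φ : T.R1 →ₐ[k] k) (v : V → k)
    (hφ : ∀ i, i ≠ i₀ → φ (zE ch i) ≠ 0) :
    IsUnit (evk φ v (MvPolynomial.C (PP ch (Finset.univ.erase i₀)))) := by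
  rw [evk_C]
  unfold PP
  rw [map_prod]
  exact (IsUnit.prod_iff).2 fun i hi => IsUnit.mk0 _ (hφ i (Finset.ne_of_mem_erase hi))

theorem evk_p (p : MvPolynomial {i : Fin n // i ≠ i₀} k) (φ : T.R1 →ₐ[k] k)
    (v : {i : Fin n // i ≠ i₀} ⊕ ι → k) :
    evk φ v (MvPolynomial.rename Sum.inl (MvPolynomial.map (algebraMap k T.R1) p)) =
      MvPolynomial.aeval (fun i : {i : Fin n // i ≠ i₀} => v (.inl i)) p := by
  induction p using MvPolynomial.induction_on with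
  | C a =>
    rw [MvPolynomial.map_C, MvPolynomial.rename_C, evk_C]
    simp
  | add p q hp hq => rw [map_add, map_add, map_add, map_add, hp, hq]
  | mul_X p i hp =>
    rw [map_mul, map_mul, map_mul, map_mul, hp, MvPolynomial.map_X, MvPolynomial.rename_X, evk_X,
      MvPolynomial.aeval_X]

/-- The points of the curve with marked point `i₀` given by `φ`. -/
def kpt (i₀ : Fin n) (φ : T.R1 →ₐ[k] k) (i : Fin n) : T.R1 →ₐ[k] k :=
  if i = i₀ then φ else ch.pt i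

theorem mv_kpt (φ : T.R1 →ₐ[k] k) (v : {i : Fin n // i ≠ i₀} ⊕ ι → k)
    (hφ : ∀ i, i ≠ i₀ → φ (zE ch i) ≠ 0) (i : Fin n) :
    (.one (kpt ch i₀ φ i) : Pt T k) = (mv ch i₀ (.one (ph ch ({i : Fin n // i ≠ i₀} ⊕ ι)
      (Finset.univ.erase i₀))) i).map (SVlift ch ({i : Fin n // i ≠ i₀} ⊕ ι) (Finset.univ.erase i₀) (evk φ v)
        (evk_unit ch φ v hφ)) := by
  rw [map_mv]
  unfold mv kpt
  by_cases h : i = i₀
  · rw [if_pos h, if_pos h]
    simp only [Pt.map, Pt.one.injEq]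
    refine AlgHom.ext fun r => ?_
    symm
    refine (SVlift_ph ch ({i : Fin n // i ≠ i₀} ⊕ ι) _ _ (evk_unit ch φ v hφ) r).trans ?_
    rw [evk_C]
  · rw [if_neg h, if_neg h]
    simp only [Pt.one.injEq]
    refine AlgHom.ext fun r => ?_
    simp

/-- The value at a curve of the universal family. -/
theorem valgen (C' : Fam n k) (hC' : IsStable g C') (ct' : Charted T C') (φ : T.R1 →ₐ[k] k)
    (hφ : ∀ i, i ≠ i₀ → φ (zE ch i) ≠ 0)
    (hs' : ∀ i, ct'.Is (C'.σ i) (.one (kpt ch i₀ φ i)))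
    (G : CovData (fun i => (.one (kpt ch i₀ φ i) : Pt T k))) (l : Cov g C')
    (hl : IsCov ct' (fun i => .one (kpt ch i₀ φ i)) hs' G l)
    (v : {i : Fin n // i ≠ i₀} ⊕ ι → k)
    (hv : v = Sum.elim (fun i : {i : Fin n // i ≠ i₀} => G.ν i.1) (fun a => G.μ (D a)))
    (a : Arrow (SVlift ch ({i : Fin n // i ≠ i₀} ⊕ ι) (Finset.univ.erase i₀)
      (evk φ v) (evk_unit ch φ v hφ) :
        SV ch ({i : Fin n // i ≠ i₀} ⊕ ι) (Finset.univ.erase i₀) →+* k)
        C' (o1 ch Q E j₀ hj₀ ({i : Fin n // i ≠ i₀} ⊕ ι)).x)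
    (ha : ChArrow a ct' (o1 ch Q E j₀ hj₀ ({i : Fin n // i ≠ i₀} ⊕ ι)).ct) :
    F.F k C' hC' l = SVlift ch ({i : Fin n // i ≠ i₀} ⊕ ι) (Finset.univ.erase i₀)
      (evk φ v) (evk_unit ch φ v hφ) (f1 ch Q E F U j₀ hj₀) := by
  have hs := mv_kpt ch φ v hφ
  have hE : (U.cd (mv ch i₀ (.one (ph ch ({i : Fin n // i ≠ i₀} ⊕ ι)
      (Finset.univ.erase i₀)))) fun j =>
      algebraMap (MvPolynomial ({i : Fin n // i ≠ i₀} ⊕ ι) T.R1)
        (SV ch ({i : Fin n // i ≠ i₀} ⊕ ι) (Finset.univ.erase i₀))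
        (MvPolynomial.X j)).Map (SVlift ch ({i : Fin n // i ≠ i₀} ⊕ ι) (Finset.univ.erase i₀)
      (evk φ v) (evk_unit ch φ v hφ)) G := by
    have h2 := U.map (SVlift ch ({i : Fin n // i ≠ i₀} ⊕ ι) (Finset.univ.erase i₀)
      (evk φ v) (evk_unit ch φ v hφ)) hs (fun j => algebraMap
        (MvPolynomial ({i : Fin n // i ≠ i₀} ⊕ ι) T.R1)
      (SV ch ({i : Fin n // i ≠ i₀} ⊕ ι) (Finset.univ.erase i₀)) (MvPolynomial.X j)) v
      (fun j => by rw [SVlift_apply, evk_X])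
    have h3 : U.cd (fun i => (.one (kpt ch i₀ φ i) : Pt T k)) v = G := by
      apply U.un
      · intro i hi
        rw [U.cd_ν _ _ i hi, hv]
        rfl
      · intro a
        rw [U.cd_μ, hv]
        rfl
    rw [h3] at h2
    exact h2
  exact val_nat' F _ (o1 ch Q E j₀ hj₀ _).hx hC' a
    ((o1 ch Q E j₀ hj₀ _).cov hyp.cov _) l
    (hyp.nat a ha _ (o1 ch Q E j₀ hj₀ _).hs _ hs' _ G hE g _ l
      ((o1 ch Q E j₀ hj₀ _).isCov hyp.cov _) hl)

end core

end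

end E1

end Pool.Agent.MG


end
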