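import Mathlib
import Pool.Agent.KDM.C15
import Pool.Agent.KDM.C20
import Pool.Agent.KDM.C44

/-! Parts: MG.W.WMV, MG.H2.HCov, MG.H2.HCh, MG.H2.HMap -/

section

/-!
# WMV: the value of a covector at the deformation which moves an affine point
-/

open CategoryTheory CategoryTheory.Limits AlgebraicGeometry TensorProduct

namespace Pool.Agent.MG.W

namespace WMV

variable {m : ℕ} {k : Type} [Field k]

theorem spMap_id' (A : Type) [CommRing A] : spMap (RingHom.id A) = 𝟙 (Sp A) := by
  change Spec.map (CommRingCat.ofHom (RingHom.id A)) = _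
  rw [CommRingCat.ofHom_id, Spec.map_id]

theorem al_inl (c : k) : algebraMap k (Eps k) c = TrivSqZeroExt.inl c := rfl

theorem e0 (c : k) : eps0 k (algebraMap k (Eps k) c) = c := by simp [al_inl]

theorem inr_al (v : k) : (TrivSqZeroExt.inr 1 : Eps k) * algebraMap k (Eps k) v =
    TrivSqZeroExt.inr v := by
  rw [al_inl]
  ext <;> simp

theorem al_inr (u v : k) : algebraMap k (Eps k) u * (TrivSqZeroExt.inr v : Eps k) =
    TrivSqZeroExt.inr (u * v) := by
  rw [al_inl]
  ext
  · simp
  · simp [mul_comm]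

/-- the first coordinates of the tangent vector -/
def dx (P : WD m k) (i j : Fin m) : k := if j = i then 2 * P.y i else 0

/-- the second coordinates of the tangent vector -/
def dy (P : WD m k) (i j : Fin m) : k := if j = i then 3 * P.x i ^ 2 + P.a else 0

theorem dxdy (P : WD m k) (i j : Fin m) :
    2 * P.y j * dy P i j = (3 * P.x j ^ 2 + P.a) * dx P i j := by
  unfold dx dy
  by_cases h : j = i
  · subst h
    simp only [if_true]
    ring
  · simp only [h, if_false, mul_zero]

/-- the moved data -/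
noncomputable def mv (P : WD m k) (i : Fin m) : WD m (Eps k) where
  a := algebraMap k (Eps k) P.a
  b := algebraMap k (Eps k) P.b
  x j := algebraMap k (Eps k) (P.x j) + TrivSqZeroExt.inr (dx P i j)
  y j := algebraMap k (Eps k) (P.y j) + TrivSqZeroExt.inr (dy P i j)
  eq j := by
    have h := P.eq j
    have h2 := dxdy P i j
    have sq : ∀ u v : k, (TrivSqZeroExt.inr u : Eps k) * TrivSqZeroExt.inr v = 0 := fun u v =>
      TrivSqZeroExt.inr_mul_inr k u v
    have e1 : algebraMap k (Eps k) (P.y j) ^ 2 = algebraMap k (Eps k) (P.x j) ^ 3 +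
        algebraMap k (Eps k) P.a * algebraMap k (Eps k) (P.x j) + algebraMap k (Eps k) P.b := by
      rw [← map_pow, h]
      simp only [map_add, map_mul, map_pow]
    have e2 : 2 * algebraMap k (Eps k) (P.y j) * (TrivSqZeroExt.inr (dy P i j) : Eps k) =
        (3 * algebraMap k (Eps k) (P.x j) ^ 2 + algebraMap k (Eps k) P.a) *
          TrivSqZeroExt.inr (dx P i j) := by
      have e3 := congrArg (fun c : k => (TrivSqZeroExt.inr c : Eps k)) h2
      have e4 : (TrivSqZeroExt.inr (2 * P.y j * dy P i j) : Eps k) =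
        TrivSqZeroExt.inr ((3 * P.x j ^ 2 + P.a) * dx P i j) := e3
      rw [← al_inr, ← al_inr] at e4
      simpa only [map_mul, map_add, map_pow, map_ofNat] using e4
    have s1 := sq (dx P i j) (dx P i j)
    have s2 := sq (dy P i j) (dy P i j)
    generalize (TrivSqZeroExt.inr (dx P i j) : Eps k) = u at *
    generalize (TrivSqZeroExt.inr (dy P i j) : Eps k) = v at *
    generalize algebraMap k (Eps k) (P.x j) = x at *
    generalize algebraMap k (Eps k) (P.y j) = y at *
    linear_combination e1 + e2 + s2 - (3 * x + u) * s1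

theorem mv_a (P : WD m k) (i : Fin m) : (mv P i).a = algebraMap k (Eps k) P.a := rfl
theorem mv_b (P : WD m k) (i : Fin m) : (mv P i).b = algebraMap k (Eps k) P.b := rfl
theorem mv_x (P : WD m k) (i j : Fin m) : (mv P i).x j =
    algebraMap k (Eps k) (P.x j) + TrivSqZeroExt.inr (dx P i j) := rfl
theorem mv_y (P : WD m k) (i j : Fin m) : (mv P i).y j =
    algebraMap k (Eps k) (P.y j) + TrivSqZeroExt.inr (dy P i j) := rfl

theorem mv_bc (P : WD m k) (i : Fin m) : WD.Bc (eps0 k) (mv P i) P where
  a := by rw [mv_a, e0]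
  b := by rw [mv_b, e0]
  x j := by
    rw [mv_x, map_add, e0]
    simp
  y j := by
    rw [mv_y, map_add, e0]
    simp

section

variable {a b : k} {a' b' : Eps k}

/-- restriction of the constant extension -/
theorem map_eps0 (ha : a' = algebraMap k (Eps k) a) (hb : b' = algebraMap k (Eps k) b)
    (ha2 : a = eps0 k a') (hb2 : b = eps0 k b') :
    WX.map (eps0 k) ha2 hb2 ≫ WX.map (algebraMap k (Eps k)) ha hb = 𝟙 (WX k a b) := by
  refine WX.ext' ?_ ?_
  · rw [← Category.assoc, WX.in1_map, Category.assoc, WX.in1_map, ← Category.assoc, spMap_comp',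
      Category.comp_id]
    have h1 : (bc1 (eps0 k) ha2 hb2).comp (bc1 (algebraMap k (Eps k)) ha hb) =
        RingHom.id _ := by
      refine hom1_ext ?_ ?_ ?_
      · intro c
        rw [RingHom.comp_apply, bc1_b, bc1_b, e0]
        rfl
      · rw [RingHom.comp_apply, bc1_x, bc1_x]
        rfl
      · rw [RingHom.comp_apply, bc1_y, bc1_y]
        rfl
    rw [h1, spMap_id', Category.id_comp]
  · rw [← Category.assoc, WX.in2_map, Category.assoc, WX.in2_map, ← Category.assoc, spMap_comp',
      Category.comp_id]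
    have h1 : (bc2 (eps0 k) ha2 hb2).comp (bc2 (algebraMap k (Eps k)) ha hb) =
        RingHom.id _ := by
      refine hom2_ext ?_ ?_ ?_
      · intro c
        rw [RingHom.comp_apply, bc2_b, bc2_b, e0]
        rfl
      · rw [RingHom.comp_apply, bc2_z, bc2_z]
        rfl
      · rw [RingHom.comp_apply, bc2_t, bc2_t]
        rfl
    rw [h1, spMap_id', Category.id_comp]

/-- the section at infinity -/
theorem sec0 (ha : a' = algebraMap k (Eps k) a) (hb : b' = algebraMap k (Eps k) b) :
    (spMap (inf2 (Eps k) a' b') ≫ WX.in2 (Eps k) a' b') ≫ WX.map (algebraMap k (Eps k)) ha hb =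
      spMap (algebraMap k (Eps k)) ≫ spMap (inf2 k a b) ≫ WX.in2 k a b := by
  rw [Category.assoc, WX.in2_map, ← Category.assoc, ← Category.assoc, spMap_comp', spMap_comp']
  congr 2
  refine hom2_ext ?_ ?_ ?_
  · intro c
    rw [RingHom.comp_apply, RingHom.comp_apply, bc2_b, inf2, lift2_b, inf2, lift2_b]
    rfl
  · rw [RingHom.comp_apply, RingHom.comp_apply, bc2_z, inf2, lift2_z, inf2, lift2_z, map_zero]
  · rw [RingHom.comp_apply, RingHom.comp_apply, bc2_t, inf2, lift2_t, inf2, lift2_t, map_one]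

/-- affine sections -/
theorem secS (ha : a' = algebraMap k (Eps k) a) (hb : b' = algebraMap k (Eps k) b)
    (φ : A1 k a b →+* k) (φ' : A1 (Eps k) a' b' →+* Eps k)
    (h : φ'.comp (bc1 (algebraMap k (Eps k)) ha hb) = (algebraMap k (Eps k)).comp φ) :
    (spMap φ' ≫ WX.in1 (Eps k) a' b') ≫ WX.map (algebraMap k (Eps k)) ha hb =
      spMap (algebraMap k (Eps k)) ≫ spMap φ ≫ WX.in1 k a b := by
  rw [Category.assoc, WX.in1_map, ← Category.assoc, ← Category.assoc, spMap_comp', spMap_comp', h]

/-- the moved point -/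
theorem mov_eq {Φ : Flow (WX.pr k a b)} (hΦ : IsWF Φ)
    (ha : a' = algebraMap k (Eps k) a) (hb : b' = algebraMap k (Eps k) b)
    (φ : A1 k a b →+* k) (hφ : ∀ c, φ (algebraMap k _ c) = c)
    (hσ : (spMap φ ≫ WX.in1 k a b) ≫ WX.pr k a b = 𝟙 _)
    (φ' : A1 (Eps k) a' b' →+* Eps k) (hφ' : ∀ c, φ' (algebraMap (Eps k) _ c) = c)
    (hx' : φ' (x1 (Eps k) a' b') = algebraMap k (Eps k) (φ (x1 k a b)) +
      TrivSqZeroExt.inr (2 * φ (y1 k a b)))
    (hy' : φ' (y1 (Eps k) a' b') = algebraMap k (Eps k) (φ (y1 k a b)) +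
      TrivSqZeroExt.inr (3 * φ (x1 k a b) ^ 2 + a)) :
    Φ.mov (spMap φ ≫ WX.in1 k a b) hσ =
      (spMap φ' ≫ WX.in1 (Eps k) a' b') ≫ WX.map (algebraMap k (Eps k)) ha hb := by
  obtain ⟨h, hc, hx, hy, hθ⟩ := hΦ
  have hrel := congrArg φ (rel1 k a b)
  rw [map_pow, map_add, map_add, map_mul, map_pow, hφ, hφ] at hrel
  let c : A1 (Eps k) (algebraMap k (Eps k) a) (algebraMap k (Eps k) b) →+* Eps k :=
    lift1 (RingHom.id _) (algebraMap k (Eps k) (φ (x1 k a b)))
      (algebraMap k (Eps k) (φ (y1 k a b))) (by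
        rw [← map_pow, hrel]
        simp only [map_add, map_mul, map_pow, RingHom.id_apply])
  have hcc : ∀ z, c (algebraMap (Eps k) _ z) = z := fun z => lift1_b _ _ _ _ z
  have hcx : c (x1 (Eps k) (algebraMap k (Eps k) a) (algebraMap k (Eps k) b)) =
    algebraMap k (Eps k) (φ (x1 k a b)) := lift1_x _ _ _ _
  have hcy : c (y1 (Eps k) (algebraMap k (Eps k) a) (algebraMap k (Eps k) b)) =
    algebraMap k (Eps k) (φ (y1 k a b)) := lift1_y _ _ _ _
  have hcomm : (spMap (bc1 (algebraMap k (Eps k)) (a := a) (b := b) rfl rfl) ≫ WX.in1 k a b) ≫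
      WX.pr k a b =
      spMap (algebraMap (Eps k) (A1 (Eps k) (algebraMap k (Eps k) a)
        (algebraMap k (Eps k) b))) ≫ spMap (algebraMap k (Eps k)) := by
    rw [Category.assoc, WX.in1_pr, spMap_comp', spMap_comp']
    have h9 : (bc1 (algebraMap k (Eps k)) (a := a) (b := b) rfl rfl).comp
        (algebraMap k (A1 k a b)) = (algebraMap (Eps k) (A1 (Eps k) (algebraMap k (Eps k) a)
        (algebraMap k (Eps k) b))).comp (algebraMap k (Eps k)) :=
      RingHom.ext fun z => bc1_b _ rfl rfl z
    rw [h9]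
  let e : Sp (A1 (Eps k) (algebraMap k (Eps k) a) (algebraMap k (Eps k) b)) ⟶
      XE (WX.pr k a b) :=
    pullback.lift (spMap (bc1 (algebraMap k (Eps k)) (a := a) (b := b) rfl rfl) ≫ WX.in1 k a b)
      (spMap (algebraMap (Eps k) _)) hcomm
  have e1 : e ≫ pullback.fst _ _ = spMap (bc1 (algebraMap k (Eps k)) (a := a) (b := b) rfl rfl) ≫
    WX.in1 k a b := pullback.lift_fst _ _ _
  have e2 : e ≫ pullback.snd _ _ = spMap (algebraMap (Eps k) _) := pullback.lift_snd _ _ _
  have e3 := hθ e e1 e2
  have hL : pullback.lift (f := WX.pr k a b) (g := spMap (algebraMap k (Eps k)))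
      (spMap (algebraMap k (Eps k)) ≫ spMap φ ≫ WX.in1 k a b)
      (𝟙 _) (by rw [Category.assoc, hσ, Category.comp_id, Category.id_comp]) = spMap c ≫ e := by
    apply pullback.hom_ext
    · rw [pullback.lift_fst, Category.assoc, e1, ← Category.assoc, ← Category.assoc, spMap_comp',
        spMap_comp']
      congr 2
      refine hom1_ext ?_ ?_ ?_
      · intro z
        rw [RingHom.comp_apply, RingHom.comp_apply, bc1_b, hφ, hcc]
      · rw [RingHom.comp_apply, RingHom.comp_apply, bc1_x, hcx]
      · rw [RingHom.comp_apply, RingHom.comp_apply, bc1_y, hcy]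
    · rw [pullback.lift_snd, Category.assoc, e2, spMap_comp']
      have h6 : c.comp (algebraMap (Eps k) _) = RingHom.id _ := RingHom.ext hcc
      rw [h6, spMap_id']
  have hmov : Φ.mov (spMap φ ≫ WX.in1 k a b) hσ =
      spMap (c.comp h) ≫ WX.in1 k a b := by
    unfold Flow.mov
    rw [hL, Category.assoc, e3, ← Category.assoc, spMap_comp']
  rw [hmov, Category.assoc, WX.in1_map, ← Category.assoc, spMap_comp']
  congr 2
  refine hom1_ext ?_ ?_ ?_
  · intro z
    rw [RingHom.comp_apply, RingHom.comp_apply, hc, hcc, bc1_b, hφ']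
  · rw [RingHom.comp_apply, RingHom.comp_apply, hx, bc1_x, hx', map_add, map_mul, map_mul, hcc,
      hcx, hcy, ← inr_al (2 * φ (y1 k a b)), map_mul, map_ofNat, map_ofNat]
  · rw [RingHom.comp_apply, RingHom.comp_apply, hy, bc1_y, hy', map_add, map_mul, map_add,
      map_mul, map_pow, hcc, hcc, hcx, hcy, ← inr_al (3 * φ (x1 k a b) ^ 2 + a), map_add,
      map_mul, map_pow, map_ofNat, map_ofNat]

end

/-- the class of the deformation -/
theorem cls (hWBC : Stmt_WBC) (P : WD m k) {Φ : Flow (WX.pr k P.a P.b)} (hΦ : IsWF Φ)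
    (i : Fin m) (d : Defo 1 (Wei P)) (hd : IsMv (C := Wei P) Φ i.succ d) :
    WCls d 0 0 (dx P i) (dy P i) := by
  obtain ⟨f0, hf0, hr, hs, hsi⟩ := hd
  have hb := hWBC (algebraMap k (Eps k)) (mv_a P i) (mv_b P i)
  have hf0' : IsPullback f0 d.y.π (WX.pr k P.a P.b) (spMap (algebraMap k (Eps k))) := hf0
  let F : d.y.X ⟶ WX (Eps k) (mv P i).a (mv P i).b := hb.lift f0 d.y.π hf0'.w
  have F1 : F ≫ WX.map (algebraMap k (Eps k)) (mv_a P i) (mv_b P i) = f0 := hb.lift_fst _ _ _
  have F2 : F ≫ WX.pr (Eps k) (mv P i).a (mv P i).b = d.y.π := hb.lift_snd _ _ _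
  have hcart : IsPullback F d.y.π (WX.pr (Eps k) (mv P i).a (mv P i).b)
      (spMap (RingHom.id (Eps k))) := by
    refine IsPullback.of_right (h₁₂ := WX.map (algebraMap k (Eps k)) (mv_a P i) (mv_b P i))
      (v₁₃ := WX.pr k P.a P.b) (h₂₂ := spMap (algebraMap k (Eps k))) ?_ ?_ hb
    · rw [F1, spMap_id', Category.id_comp]
      exact hf0'
    · rw [F2, spMap_id', Category.comp_id]
  have hsec' : ∀ j, d.y.σ j ≫ F = (Wei (mv P i)).σ j := by
    intro j
    refine hb.hom_ext ?_ ?_
    · rw [Category.assoc, F1]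
      revert j
      refine fun j => Fin.cases ?_ (fun j => ?_) j
      · refine (hs 0 (Fin.succ_ne_zero i).symm).trans ?_
        exact (sec0 (mv_a P i) (mv_b P i)).symm
      · by_cases hj : j = i
        · subst hj
          refine hsi.trans ?_
          refine mov_eq hΦ (mv_a P j) (mv_b P j) (pt1 P j) (fun c => lift1_b _ _ _ _ c)
            ((Wei P).sec j.succ) (pt1 (mv P j) j) (fun c => lift1_b _ _ _ _ c) ?_ ?_
          · rw [pt1, lift1_x, pt1, lift1_x, lift1_y, mv_x, dx, if_pos rfl]
          · rw [pt1, lift1_y, pt1, lift1_x, lift1_y, mv_y, dy, if_pos rfl]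
        · refine (hs j.succ (fun h => hj (Fin.succ_injective _ h))).trans ?_
          refine (secS (mv_a P i) (mv_b P i) (pt1 P j) (pt1 (mv P i) j) ?_).symm
          refine hom1_ext ?_ ?_ ?_
          · intro c
            rw [RingHom.comp_apply, RingHom.comp_apply, bc1_b, pt1, lift1_b, pt1, lift1_b]
            rfl
          · rw [RingHom.comp_apply, RingHom.comp_apply, bc1_x, pt1, lift1_x, pt1, lift1_x, mv_x,
              dx, if_neg hj, TrivSqZeroExt.inr_zero, add_zero]
          · rw [RingHom.comp_apply, RingHom.comp_apply, bc1_y, pt1, lift1_y, pt1, lift1_y, mv_y,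
              dy, if_neg hj, TrivSqZeroExt.inr_zero, add_zero]
    · rw [Category.assoc, F2, d.y.sec]
      exact ((Wei (mv P i)).sec j).symm
  have hsec : ∀ j, d.y.σ j ≫ F = spMap (RingHom.id (Eps k)) ≫ (Wei (mv P i)).σ j := by
    intro j
    rw [spMap_id', Category.id_comp]
    exact hsec' j
  refine ⟨mv P i, mv_bc P i, ?_, ?_, ?_, ?_, ⟨F, hcart, hsec⟩, ?_⟩
  · rw [mv_a, al_inl]
    simp
  · rw [mv_b, al_inl]
    simp
  · intro j
    rw [mv_x, al_inl]
    simp
  · intro j
    rw [mv_y, al_inl]
    simp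
  · refine hb.hom_ext ?_ ?_
    · refine (Category.assoc _ _ _).trans ?_
      refine (congrArg (fun g => d.r.f ≫ g) F1).trans ?_
      exact hr.trans (map_eps0 (mv_a P i) (mv_b P i) (mv_bc P i).a (mv_bc P i).b).symm
    · refine (Category.assoc _ _ _).trans ?_
      refine (congrArg (fun g => d.r.f ≫ g) F2).trans ?_
      exact d.r.cart.w.trans (WX.map_pr (eps0 k) (mv_bc P i).a (mv_bc P i).b).symm

end WMV

/-- WMV -/
theorem t_WMV (hWBC : Stmt_WBC) : Stmt_WMV := by
  intro m k _ P _ Φ hΦ W l hl i d hd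
  rw [hl d 0 0 _ _ (WMV.cls hWBC P hΦ i d hd), mul_zero, mul_zero, zero_add, zero_add,
    Finset.sum_eq_single i]
  · unfold WMV.dx WMV.dy
    rw [if_pos rfl, if_pos rfl]
  · intro j _ hj
    unfold WMV.dx WMV.dy
    rw [if_neg hj, if_neg hj, mul_zero, mul_zero, add_zero]
  · intro h
    exact absurd (Finset.mem_univ i) h

end Pool.Agent.MG.W


end

section

/-!
# Form data on the curves `y² = f(x)`
-/

open CategoryTheory CategoryTheory.Limits AlgebraicGeometry TensorProduct

namespace Pool.Agent.MG.H2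

/-- Bezout identity for `f` and its derivative. -/
structure Bz {B : Type} [CommRing B] (f : Fin 7 → B) where
  /-- coefficient of `f` -/
  a : Polynomial B
  /-- coefficient of `f'` -/
  b : Polynomial B
  h : a * pol (fun i => Polynomial.C (f i)) Polynomial.X +
    b * dpol (fun i => Polynomial.C (f i)) Polynomial.X = 1

section

variable {B : Type} [CommRing B] {f : Fin 7 → B}

theorem Bz.ev (z : Bz f) {R : Type} [CommRing R] (c : B →+* R) (x : R) :
    z.a.eval₂ c x * pol (fun i => c (f i)) x + z.b.eval₂ c x * dpol (fun i => c (f i)) x = 1 := by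
  have h := congrArg (Polynomial.eval₂RingHom c x) z.h
  rw [map_add, map_mul, map_mul, map_one, pol_map, dpol_map] at h
  simpa using h

end

/-- The charts: `T` = the first chart, `Q` = the chart at infinity, `N` between them. -/
inductive Ct
  | T
  | N
  | Q

/-- `y² = f(x)` is smooth. -/
structure HOk {B : Type} [CommRing B] (f : Fin 7 → B) where
  /-- Bezout identity -/
  z : Bz f
  /-- Bezout identity at infinity -/
  z' : Bz (rev f)
  sm : (algebraMap B (A12 B f)).FormallySmooth
  sm' : (algebraMap B (A12 B (rev f))).FormallySmooth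

section

variable {B : Type} [CommRing B] (f : Fin 7 → B)

/-- The rings. -/
abbrev hR : Ct → Type
  | .T => A1 B f
  | .N => A12 B f
  | .Q => A1 B (rev f)

/-- The rings of the edges. -/
abbrev hRE : Bool → Type
  | true => A12 B f
  | false => A12 B (rev f)

noncomputable instance hRc : ∀ i, CommRing (hR f i)
  | .T => inferInstanceAs (CommRing (A1 B f))
  | .N => inferInstanceAs (CommRing (A12 B f))
  | .Q => inferInstanceAs (CommRing (A1 B (rev f)))

noncomputable instance hREc : ∀ e, CommRing (hRE f e)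
  | true => inferInstanceAs (CommRing (A12 B f))
  | false => inferInstanceAs (CommRing (A12 B (rev f)))

/-- source -/
abbrev hs : Bool → Ct
  | true => .T
  | false => .Q

/-- structure maps -/
noncomputable abbrev hc : ∀ i, B →+* hR f i
  | .T => algebraMap B (A1 B f)
  | .N => algebraMap B (A12 B f)
  | .Q => algebraMap B (A1 B (rev f))

/-- structure maps -/
noncomputable abbrev hcE : ∀ e, B →+* hRE f e
  | true => algebraMap B (A12 B f)
  | false => algebraMap B (A12 B (rev f))

/-- restriction -/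
noncomputable abbrev hjs : ∀ e, hR f (hs e) →+* hRE f e
  | true => g1 B f
  | false => g1 B (rev f)

/-- restriction -/
noncomputable abbrev hjt : ∀ e, hR f Ct.N →+* hRE f e
  | true => RingHom.id _
  | false => inv12 (rev_h' f)

variable {f}

/-- The coefficients of the forms `θ₁ = dx/y` (`true`) and `θ₂ = - x dx/y` (`false`). -/
noncomputable abbrev hp (o : HOk f) : Bool → ∀ i, Fin 2 → hR f i
  | true, .T => ![o.z.a.eval₂ (algebraMap B _) (x1 B f) * y1 B f,
      2 * o.z.b.eval₂ (algebraMap B _) (x1 B f)]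
  | false, .T => ![- x1 B f * (o.z.a.eval₂ (algebraMap B _) (x1 B f) * y1 B f),
      - x1 B f * (2 * o.z.b.eval₂ (algebraMap B _) (x1 B f))]
  | true, .N => ![o.z.a.eval₂ (algebraMap B _) (xu B f : A12 B f) * yv B f,
      2 * o.z.b.eval₂ (algebraMap B _) (xu B f : A12 B f)]
  | false, .N => ![- (xu B f : A12 B f) * (o.z.a.eval₂ (algebraMap B _) (xu B f : A12 B f) *
        yv B f), - (xu B f : A12 B f) * (2 * o.z.b.eval₂ (algebraMap B _) (xu B f : A12 B f))]
  | true, .Q => ![- x1 B (rev f) * (o.z'.a.eval₂ (algebraMap B _) (x1 B (rev f)) * y1 B (rev f)),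
      - x1 B (rev f) * (2 * o.z'.b.eval₂ (algebraMap B _) (x1 B (rev f)))]
  | false, .Q => ![o.z'.a.eval₂ (algebraMap B _) (x1 B (rev f)) * y1 B (rev f),
      2 * o.z'.b.eval₂ (algebraMap B _) (x1 B (rev f))]

variable (f) in
/-- The coordinates. -/
noncomputable abbrev hq : ∀ i, Fin 2 → hR f i
  | .T => ![x1 B f, y1 B f]
  | .N => ![(xu B f : A12 B f), yv B f]
  | .Q => ![x1 B (rev f), y1 B (rev f)]

theorem g1_ev2 (p : Polynomial B) : g1 B f (p.eval₂ (algebraMap B _) (x1 B f)) =
    p.eval₂ (algebraMap B _) (xu B f : A12 B f) := by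
  rw [Polynomial.hom_eval₂]
  rfl

theorem inv_ev2 (p : Polynomial B) :
    inv12 (rev_h' f) (p.eval₂ (algebraMap B _) (xu B f : A12 B f)) =
    p.eval₂ (algebraMap B _) ((xu B (rev f))⁻¹ : (A12 B (rev f))ˣ).val := by
  rw [Polynomial.hom_eval₂, inv12_x]
  congr 1
  exact RingHom.ext fun b => inv12_b (rev_h' f) b

/-- Ring-level form data on `y² = f(x)`. -/
noncomputable def hRF (o : HOk f) : RF B where
  I := Ct
  E := Bool
  K := Bool
  s := hs
  t := fun _ => .N
  R := hR f
  RE := hRE f
  c := hc f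
  cc := hcE f
  js := hjs f
  jt := hjt f
  jsc := fun e => match e with
    | true => rfl
    | false => rfl
  jtc := fun e => match e with
    | true => rfl
    | false => RingHom.ext fun b => inv12_b (rev_h' f) b
  sm := fun e => match e with
    | true => o.sm
    | false => o.sm'
  m := 2
  p := hp o
  q := fun _ => hq f
  eq := by
    intro k e R' _ r δ hδ
    cases e with
    | true =>
      cases k with
      | true =>
        simp only [hjs, hjt, hs, hp, hq, Fin.sum_univ_two, Matrix.cons_val_zero,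
          Matrix.cons_val_one, map_mul, map_ofNat, g1_ev2, g1_y, ← xu_val, RingHom.id_apply]
      | false =>
        simp only [hjs, hjt, hs, hp, hq, Fin.sum_univ_two, Matrix.cons_val_zero,
          Matrix.cons_val_one, map_mul, map_neg, map_ofNat, g1_ev2, g1_y, ← xu_val,
          RingHom.id_apply]
    | false =>
      have hδ' : DerA (algebraMap B (A12 B (rev f))) r δ := hδ
      set u : A12 B (rev f) := (xu B (rev f) : A12 B (rev f)) with hu
      set x : A12 B (rev f) := ((xu B (rev f))⁻¹ : (A12 B (rev f))ˣ).val with hx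
      set v : A12 B (rev f) := yv B (rev f) with hv
      have hxu : x * u = 1 := Units.inv_mul _
      have hrel : v ^ 2 = pol (fun i => algebraMap B _ (rev f i)) u := rel12 B (rev f)
      have hy : inv12 (rev_h' f) (yv B f) = v * x ^ 3 := by
        rw [inv12_y, Units.val_pow_eq_pow_val]
      have hrel' : (v * x ^ 3) ^ 2 = pol (fun i => algebraMap B _ (f i)) x := by
        have h1 := congrArg (inv12 (rev_h' f)) (rel12 B f)
        rw [map_pow, hy, pol_map, inv12_x] at h1
        simp only [inv12_b] at h1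
        exact h1
      have dxu : r x * δ u + r u * δ x = 0 := by
        rw [← hδ'.mul, hxu, hδ'.one]
      have rxu : r x * r u = 1 := by rw [← map_mul, hxu, map_one]
      have hdx : δ x = - (r x) ^ 2 * δ u := by linear_combination (r x) * dxu - (δ x) * rxu
      have hdy : δ (v * x ^ 3) = r x ^ 3 * δ v + 3 * r x ^ 2 * r v * δ x := by
        have h3 := hδ'.pow x 2
        norm_num at h3
        rw [hδ'.mul, h3, map_pow]
        ring
      have hdv : 2 * r v * δ v = dpol (rev fun i => r (algebraMap B _ (f i))) (r u) * δ u := by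
        rw [← hδ'.sq, hrel, hδ'.pol]
        rfl
      have h1 := form_rev (f := fun i => r (algebraMap B (A12 B (rev f)) (f i))) rxu
        (y := r (v * x ^ 3)) (by rw [map_mul, map_pow]) (v := r v) (by
          rw [← map_pow, hrel, pol_map]
          rfl) hdv hdx hdy
        (A := r (o.z.a.eval₂ (algebraMap B _) x)) (C := r (o.z.b.eval₂ (algebraMap B _) x))
        (by
          have := congrArg r (o.z.ev (algebraMap B (A12 B (rev f))) x)
          rw [map_add, map_mul, map_mul, map_one, pol_map, dpol_map] at this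
          exact this)
        (A' := r (o.z'.a.eval₂ (algebraMap B _) u)) (C' := r (o.z'.b.eval₂ (algebraMap B _) u))
        (by
          have := congrArg r (o.z'.ev (algebraMap B (A12 B (rev f))) u)
          rw [map_add, map_mul, map_mul, map_one, pol_map, dpol_map] at this
          exact this)
        (by rw [← map_pow, hrel', pol_map])
      cases k with
      | true =>
        simp only [hjs, hjt, hs, hp, hq, Fin.sum_univ_two, Matrix.cons_val_zero,
          Matrix.cons_val_one, map_mul, map_neg, map_ofNat, g1_ev2, g1_y, ← xu_val, inv_ev2,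
          inv12_x, hy]
        simp only [map_mul] at h1
        linear_combination -h1
      | false =>
        simp only [hjs, hjt, hs, hp, hq, Fin.sum_univ_two, Matrix.cons_val_zero,
          Matrix.cons_val_one, map_mul, map_neg, map_ofNat, g1_ev2, g1_y, ← xu_val, inv_ev2,
          inv12_x, hy]
        simp only [map_mul] at h1
        linear_combination (r x) * h1 - (r (o.z'.a.eval₂ (algebraMap B _) u) * r v * δ u +
          2 * r (o.z'.b.eval₂ (algebraMap B _) u) * δ v) * rxu

end

end Pool.Agent.MG.H2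


end

section

/-!
# The charts of `y² = f(x)`
-/

open CategoryTheory CategoryTheory.Limits AlgebraicGeometry TensorProduct

namespace Pool.Agent.MG.H2

theorem spMap_id {R : Type} [CommRing R] : spMap (RingHom.id R) = 𝟙 (Sp R) := Spec.map_id _

section

variable {B : Type} [CommRing B] {f : Fin 7 → B}

theorem HX.cond : spMap (g1 B f) ≫ HX.in1 B f = spMap (g2 B f) ≫ HX.in2 B f :=
  pushout.condition

theorem HX.cond' : spMap (g1 B (rev f)) ≫ HX.in2 B f =
    spMap (inv12 (rev_h' f)) ≫ spMap (g1 B f) ≫ HX.in1 B f := by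
  rw [HX.cond, g2, ← spMap_comp', ← Category.assoc, ← Category.assoc, spMap_comp',
    inv12_inv12 (rev_h f) (rev_h' f), spMap_id, Category.id_comp]

instance isIso_inv12 {f f' : Fin 7 → B} (h : ∀ i, f' i = f (Fin.rev i)) :
    IsIso (spMap (inv12 h)) := by
  have h' : ∀ i, f i = f' (Fin.rev i) := fun i => by simp [h]
  have : IsIso (CommRingCat.ofHom (invEquiv h h' : A12 B f →+* A12 B f')) :=
    (RingEquiv.toCommRingCatIso (invEquiv h h')).isIso_hom
  exact inferInstanceAs (IsIso (Spec.map (CommRingCat.ofHom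
    (invEquiv h h' : A12 B f →+* A12 B f'))))

/-- The charts of `y² = f(x)`. -/
noncomputable def hCh (o : HOk f) : (hRF o).Ch (Hyp f) where
  ι := fun i => match i with
    | .T => HX.in1 B f
    | .N => spMap (g1 B f) ≫ HX.in1 B f
    | .Q => HX.in2 B f
  η := fun e => match e with
    | true => spMap (g1 B f) ≫ HX.in1 B f
    | false => spMap (g1 B (rev f)) ≫ HX.in2 B f
  oi := fun i => match i with
    | .T => inferInstanceAs (IsOpenImmersion (HX.in1 B f))
    | .N => inferInstanceAs (IsOpenImmersion (spMap (g1 B f) ≫ HX.in1 B f))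
    | .Q => inferInstanceAs (IsOpenImmersion (HX.in2 B f))
  oe := fun e => match e with
    | true => inferInstanceAs (IsOpenImmersion (spMap (g1 B f) ≫ HX.in1 B f))
    | false => inferInstanceAs (IsOpenImmersion (spMap (g1 B (rev f)) ≫ HX.in2 B f))
  π := fun i => match i with
    | .T => HX.in1_pr B f
    | .N => by
      change (spMap (g1 B f) ≫ HX.in1 B f) ≫ HX.pr B f = _
      rw [Category.assoc, HX.in1_pr, spMap_comp']
      rfl
    | .Q => HX.in2_pr B f
  hs := fun e => match e with
    | true => rfl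
    | false => rfl
  ht := fun e => match e with
    | true => by
      change _ = spMap (RingHom.id _) ≫ _
      rw [spMap_id, Category.id_comp]
      rfl
    | false => HX.cond'

end

end Pool.Agent.MG.H2


end

section

/-!
# Comparison of the forms under coordinate changes
-/

open CategoryTheory CategoryTheory.Limits AlgebraicGeometry TensorProduct

namespace Pool.Agent.MG.H2

section om

variable {B : Type} [CommRing B] {f : Fin 7 → B}

/-- The value of the form `dx/y`. -/
noncomputable def om (z : Bz f) {R R' : Type} [CommRing R] [CommRing R'] (c : B →+* R) (x y : R)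
    (r : R →+* R') (δ : R → R') : R' :=
  r (z.a.eval₂ c x * y) * δ x + r (2 * z.b.eval₂ c x) * δ y

variable {R R' : Type} [CommRing R] [CommRing R'] {c : B →+* R} {x y : R} {r : R →+* R'}
  {δ : R → R'}

theorem om_bz (z : Bz f) : r (z.a.eval₂ c x) * pol (fun i => r (c (f i))) (r x) +
    r (z.b.eval₂ c x) * dpol (fun i => r (c (f i))) (r x) = 1 := by
  have := congrArg r (z.ev c x)
  rw [map_add, map_mul, map_mul, map_one, pol_map, dpol_map] at this
  exact this

theorem om_rel (rel : y ^ 2 = pol (fun i => c (f i)) x) :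
    r y ^ 2 = pol (fun i => r (c (f i))) (r x) := by
  rw [← map_pow, rel, pol_map]

theorem om_der (rel : y ^ 2 = pol (fun i => c (f i)) x) (h : DerA c r δ) :
    2 * r y * δ y = dpol (fun i => r (c (f i))) (r x) * δ x := by
  rw [← h.sq, rel, h.pol]

theorem om_spec (rel : y ^ 2 = pol (fun i => c (f i)) x) (z : Bz f) (h : DerA c r δ) :
    r y * om z c x y r δ = δ x ∧
      dpol (fun i => r (c (f i))) (r x) * om z c x y r δ = 2 * δ y := by
  have h1 := form_mul (om_rel (r := r) rel) (om_der rel h) (om_bz (r := r) (c := c) (x := x) z)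
  have h2 : om z c x y r δ = r (z.a.eval₂ c x) * r y * δ x + 2 * r (z.b.eval₂ c x) * δ y := by
    rw [om, map_mul, map_mul, map_ofNat]
  rw [h2]
  exact h1

theorem om_eq (rel : y ^ 2 = pol (fun i => c (f i)) x) (z : Bz f) {ω : R'}
    (h1 : r y * ω = δ x) (h2 : dpol (fun i => r (c (f i))) (r x) * ω = 2 * δ y) :
    ω = om z c x y r δ := by
  have h3 : om z c x y r δ = r (z.a.eval₂ c x) * r y * δ x + 2 * r (z.b.eval₂ c x) * δ y := by
    rw [om, map_mul, map_mul, map_ofNat]
  rw [h3]
  exact form_eq (om_rel (r := r) rel) (om_bz (r := r) (c := c) (x := x) z) h1 h2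

end om

section

variable {B : Type} [CommRing B] {f : Fin 7 → B}

/-- The factor of the forms. -/
noncomputable def fc (f : Fin 7 → B) : Bool → ∀ i, hR f i
  | true, .T => 1
  | false, .T => - x1 B f
  | true, .N => 1
  | false, .N => - (xu B f : A12 B f)
  | true, .Q => - x1 B (rev f)
  | false, .Q => 1

/-- The value of the form on the charts. -/
noncomputable def omc (o : HOk f) : ∀ i, ∀ {R' : Type} [CommRing R'], (hR f i →+* R') →
    (hR f i → R') → R'
  | .T => fun r δ => om o.z (algebraMap B (A1 B f)) (x1 B f) (y1 B f) r δ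
  | .N => fun r δ => om o.z (algebraMap B (A12 B f)) (xu B f : A12 B f) (yv B f) r δ
  | .Q => fun r δ => om o.z' (algebraMap B (A1 B (rev f))) (x1 B (rev f)) (y1 B (rev f)) r δ

theorem hsum (o : HOk f) (k : Bool) (i : Ct) {R' : Type} [CommRing R'] (r : hR f i →+* R')
    (δ : hR f i → R') :
    ∑ j, r (hp o k i j) * δ (hq f i j) = r (fc f k i) * omc o i r δ := by
  cases k <;> cases i <;>
    simp only [hp, hq, fc, omc, om, Fin.sum_univ_two, Matrix.cons_val_zero, Matrix.cons_val_one,
      map_mul, map_neg, map_one, map_ofNat] <;> ring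

end


section

variable {B B' : Type} [CommRing B] [CommRing B'] {φ : B →+* B'} {f : Fin 7 → B}
  {f' : Fin 7 → B'}

theorem DerA.pre {R R₁ R' : Type} [CommRing R] [CommRing R₁] [CommRing R'] {c' : B' →+* R}
    {r : R →+* R'} {δ : R → R'} (h : DerA c' r δ) (c : B →+* R₁) (g : R₁ →+* R)
    (hc : ∀ b, g (c b) = c' (φ b)) : DerA c (r.comp g) (fun v => δ (g v)) where
  add a b := by rw [map_add, h.add]
  mul a b := by rw [map_mul, h.mul]; rfl
  const b := by rw [hc, h.const]

/-- Ring maps of the charts over `φ`. -/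
structure HH (φ : B →+* B') (f : Fin 7 → B) (f' : Fin 7 → B') where
  /-- charts -/
  g : ∀ i, hR f i →+* hR f' i
  gc : ∀ i b, g i (hc f i b) = hc f' i (φ b)
  /-- the edge at infinity -/
  gE : A12 B (rev f) →+* A12 B' (rev f')
  e1 : ∀ v, g .N (g1 B f v) = g1 B' f' (g .T v)
  e2 : ∀ v, gE (g1 B (rev f) v) = g1 B' (rev f') (g .Q v)
  e3 : ∀ v, gE (inv12 (rev_h' f) v) = inv12 (rev_h' f') (g .N v)

/-- The edges. -/
noncomputable def HH.ge (h : HH φ f f') : ∀ e : Bool, hRE f e →+* hRE f' e
  | true => h.g .N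
  | false => h.gE

/-- The pull backs of the forms. -/
def HH.Om (h : HH φ f f') (o : HOk f) (o' : HOk f') (c : Bool → Bool → B') : Prop :=
  ∀ k i (R' : Type) [CommRing R'] (r : hR f' i →+* R') (δ : hR f' i → R'),
    DerA (hc f' i) r δ → r (fc f' k i) * omc o' i r δ =
      (r (hc f' i (c k true)) * r (h.g i (fc f true i)) +
        r (hc f' i (c k false)) * r (h.g i (fc f false i))) *
        omc o i (r.comp (h.g i)) (fun v => δ (h.g i v))

/-- The morphism of ring level form data. -/
noncomputable def HH.rmap (h : HH φ f f') (o : HOk f) (o' : HOk f') (c : Bool → Bool → B')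
    (hom : h.Om o o' c) : RMap φ (hRF o') (hRF o) c where
  κ := fun i => i
  lam := fun e => e
  hs _ := rfl
  ht _ := rfl
  g := h.g
  gE := h.ge
  form k' i R' _ r δ hδ := by
    have h1 := hom k' i R' r δ hδ
    have h2 := hsum o' k' i r δ
    have h3 := hsum o true i (r.comp (h.g i)) (fun v => δ (h.g i v))
    have h4 := hsum o false i (r.comp (h.g i)) (fun v => δ (h.g i v))
    have h5 : ∑ k : Bool, r (hc f' i (c k' k)) *
        ∑ j, (r.comp (h.g i)) (hp o k i j) * δ (h.g i (hq f i j)) =
        r (hc f' i (c k' true)) * (∑ j, (r.comp (h.g i)) (hp o true i j) * δ (h.g i (hq f i j))) +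
        r (hc f' i (c k' false)) *
          (∑ j, (r.comp (h.g i)) (hp o false i j) * δ (h.g i (hq f i j))) := Fintype.sum_bool _
    refine (h2.trans (h1.trans ?_)).trans h5.symm
    have key : ∀ a b c d w : R', (a * b + c * d) * w = a * (b * w) + c * (d * w) := by
      intro a b c d w
      ring
    exact (key _ _ _ _ _).trans (congrArg₂ (· + ·) (congrArg _ h3.symm) (congrArg _ h4.symm))

end


section ch

variable {B B' : Type} [CommRing B] [CommRing B'] {φ : B →+* B'} {f : Fin 7 → B}
  {f' : Fin 7 → B'} {R R₁ R' : Type} [CommRing R] [CommRing R₁] [CommRing R'] {c : B →+* R}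
  {c' : B' →+* R₁} {x y : R} {x' y' : R₁} {r : R₁ →+* R'} {δ : R₁ → R'}

theorem om_pull (rel : y ^ 2 = pol (fun i => c (f i)) x) (z : Bz f) (h : DerA c' r δ)
    (G : R →+* R₁) (hc : ∀ b, G (c b) = c' (φ b)) :
    r (G y) * om z c x y (r.comp G) (fun v => δ (G v)) = δ (G x) ∧
      dpol (fun i => r (c' (φ (f i)))) (r (G x)) * om z c x y (r.comp G) (fun v => δ (G v)) =
        2 * δ (G y) := by
  have h1 := om_spec rel z (h.pre c G hc)
  simp only [RingHom.comp_apply, hc] at h1
  exact h1

/-- Base change. -/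
theorem om_bc (rel : y ^ 2 = pol (fun i => c (f i)) x) (z : Bz f)
    (rel' : y' ^ 2 = pol (fun i => c' (f' i)) x') (z' : Bz f') (h : DerA c' r δ)
    (G : R →+* R₁) (hc : ∀ b, G (c b) = c' (φ b)) (hf : ∀ i, f' i = φ (f i)) (hx : G x = x')
    (hy : G y = y') :
    om z' c' x' y' r δ = om z c x y (r.comp G) (fun v => δ (G v)) := by
  obtain ⟨h1, h2⟩ := om_pull rel z h G hc
  refine (om_eq rel' z' ?_ ?_).symm
  · rw [← hy, ← hx]
    exact h1
  · rw [← hy, ← hx]
    simp only [hf]
    exact h2

theorem dpol_sc {R : Type} [CommRing R] {lam nu : R} {f f' : Fin 7 → R}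
    (h : ∀ i : Fin 7, nu ^ 2 * f' i = lam ^ (i : ℕ) * f i) (x : R) :
    nu ^ 2 * dpol f' x = lam * dpol f (lam * x) := by
  have h1 := h 1
  have h2 := h 2
  have h3 := h 3
  have h4 := h 4
  have h5 := h 5
  have h6 := h 6
  simp only [Fin.val_one, pow_one, show ((2 : Fin 7) : ℕ) = 2 from rfl,
    show ((3 : Fin 7) : ℕ) = 3 from rfl, show ((4 : Fin 7) : ℕ) = 4 from rfl,
    show ((5 : Fin 7) : ℕ) = 5 from rfl, show ((6 : Fin 7) : ℕ) = 6 from rfl]
    at h1 h2 h3 h4 h5 h6
  simp only [dpol]
  linear_combination h1 + 2 * x * h2 + 3 * x ^ 2 * h3 + 4 * x ^ 3 * h4 + 5 * x ^ 4 * h5 +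
    6 * x ^ 5 * h6

/-- Scaling. -/
theorem om_sc {f' : Fin 7 → B} {c' : B →+* R₁} (rel : y ^ 2 = pol (fun i => c (f i)) x) (z : Bz f)
    (rel' : y' ^ 2 = pol (fun i => c' (f' i)) x') (z' : Bz f') (h : DerA c' r δ)
    (G : R →+* R₁) (hc : ∀ b, G (c b) = c' b) {lam lami nu nui : B} (hl : lam * lami = 1)
    (hn : nu * nui = 1) (hf : ∀ i : Fin 7, nu ^ 2 * f' i = lam ^ (i : ℕ) * f i)
    (hx : G x = c' lam * x') (hy : G y = c' nu * y') :
    om z' c' x' y' r δ = r (c' (nu * lami)) * om z c x y (r.comp G) (fun v => δ (G v)) := by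
  obtain ⟨h1, h2⟩ := om_pull (φ := RingHom.id B) rel z h G hc
  set w := om z c x y (r.comp G) (fun v => δ (G v)) with hw
  have hl' : r (c' lam) * r (c' lami) = 1 := by rw [← map_mul, ← map_mul, hl, map_one, map_one]
  have hn' : r (c' nu) * r (c' nui) = 1 := by rw [← map_mul, ← map_mul, hn, map_one, map_one]
  rw [hx, hy] at h1 h2
  rw [h.cmul, map_mul] at h1
  rw [h.cmul, map_mul] at h2
  simp only [RingHom.id_apply] at h2
  have h3 := dpol_sc (lam := r (c' lam)) (nu := r (c' nu)) (f := fun i => r (c' (f i)))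
    (f' := fun i => r (c' (f' i))) (fun i => by
      rw [← map_pow, ← map_pow, ← map_pow, ← map_pow, ← map_mul, ← map_mul, ← map_mul, ← map_mul,
        hf i]) (r x')
  refine (om_eq rel' z' ?_ ?_).symm
  · rw [map_mul, map_mul]
    linear_combination (r (c' lami)) * h1 + δ x' * hl'
  · rw [map_mul, map_mul]
    have e1 : r (c' nu) * dpol (fun i => r (c' (f' i))) (r x') =
        r (c' nui) * r (c' lam) * dpol (fun i => r (c' (f i))) (r (c' lam) * r x') := by
      linear_combination (r (c' nui)) * h3 - (r (c' nu) * dpol (fun i => r (c' (f' i))) (r x')) * hn'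
    linear_combination (r (c' lami) * w) * e1 +
      (r (c' nui) * dpol (fun i => r (c' (f i))) (r (c' lam) * r x') * w) * hl' +
      (r (c' nui)) * h2 + (2 * δ y') * hn'

end ch


/-! ### Base change -/

section bc

variable {B B' : Type} [CommRing B] [CommRing B'] (φ : B →+* B') {f : Fin 7 → B}
  {f' : Fin 7 → B'} (hf : ∀ i, f' i = φ (f i))

theorem bc12_inv (v : A12 B f) : bc12 φ (rev_bc φ hf) (inv12 (rev_h' f) v) =
    inv12 (rev_h' f') (bc12 φ hf v) := by
  have : (bc12 φ (rev_bc φ hf)).comp (inv12 (rev_h' f)) =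
      (inv12 (rev_h' f')).comp (bc12 φ hf) := by
    refine hom12_ext ?_ ?_ ?_
    · intro c
      simp
    · simp
    · simp only [RingHom.comp_apply, inv12_y, map_mul, bc12_y, Units.val_pow_eq_pow_val, map_pow,
        bc12_xi]
  exact congrArg (fun g => g v) this

/-- Base change. -/
noncomputable def hhBC : HH φ f f' where
  g := fun i => match i with
    | .T => bc1 φ hf
    | .N => bc12 φ hf
    | .Q => bc1 φ (rev_bc φ hf)
  gc := fun i => match i with
    | .T => bc1_b φ hf
    | .N => bc12_b φ hf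
    | .Q => bc1_b φ (rev_bc φ hf)
  gE := bc12 φ (rev_bc φ hf)
  e1 := bc12_g1 φ hf
  e2 := bc12_g1 φ (rev_bc φ hf)
  e3 := bc12_inv φ hf

/-- The factors of the forms. -/
abbrev cbc (B : Type) [CommRing B] : Bool → Bool → B := fun k' k => if k = k' then 1 else 0

/-- Base change of the forms. -/
theorem omBC (o : HOk f) (o' : HOk f') : (hhBC φ hf).Om o o' (cbc B') := by
    intro k i R' _ r δ hδ
    have hfc : ∀ k, (hhBC φ hf).g i (fc f k i) = fc f' k i := by
      intro k
      cases k <;> cases i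
      · change bc1 φ hf (-x1 B f) = -x1 B' f'
        rw [map_neg, bc1_x]
      · change bc12 φ hf (-(xu B f : A12 B f)) = -(xu B' f' : A12 B' f')
        rw [map_neg, bc12_x]
      · exact map_one _
      · exact map_one _
      · exact map_one _
      · change bc1 φ (rev_bc φ hf) (-x1 B (rev f)) = -x1 B' (rev f')
        rw [map_neg, bc1_x]
    have hom : omc o' i r δ =
        omc o i (r.comp ((hhBC φ hf).g i)) (fun v => δ ((hhBC φ hf).g i v)) := by
      cases i
      · exact om_bc (rel1 B f) o.z (rel1 B' f') o'.z hδ (bc1 φ hf) (bc1_b φ hf) hf (bc1_x φ hf)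
          (bc1_y φ hf)
      · exact om_bc (rel12 B f) o.z (rel12 B' f') o'.z hδ (bc12 φ hf) (bc12_b φ hf) hf
          (bc12_x φ hf) (bc12_y φ hf)
      · exact om_bc (rel1 B (rev f)) o.z' (rel1 B' (rev f')) o'.z' hδ (bc1 φ (rev_bc φ hf))
          (bc1_b φ (rev_bc φ hf)) (rev_bc φ hf) (bc1_x φ (rev_bc φ hf)) (bc1_y φ (rev_bc φ hf))
    rw [hom, hfc, hfc]
    have key : ∀ a b w : R', a * w = (r (hc f' i 1) * a + r (hc f' i 0) * b) * w := by
      intro a b w
      rw [map_one, map_one, map_zero, map_zero]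
      ring
    have key' : ∀ a b w : R', b * w = (r (hc f' i 0) * a + r (hc f' i 1) * b) * w := by
      intro a b w
      rw [map_one, map_one, map_zero, map_zero]
      ring
    cases k
    · exact key' _ _ _
    · exact key _ _ _

end bc


/-! ### Scaling -/

section sc

variable {B : Type} [CommRing B] {lam nu : Bˣ} {f f' : Fin 7 → B}
  (h : IsSc (lam : B) (nu : B) f f')

theorem sc12_inv (v : A12 B f) : sc12 h.rev (inv12 (rev_h' f) v) =
    inv12 (rev_h' f') (sc12 h v) := by
  have : (sc12 h.rev).comp (inv12 (rev_h' f)) = (inv12 (rev_h' f')).comp (sc12 h) := by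
    refine hom12_ext ?_ ?_ ?_
    · intro c
      simp
    · simp only [RingHom.comp_apply, inv12_x, sc12_xi, sc12_x, map_mul, inv12_b, inv_inv]
    · simp only [RingHom.comp_apply, inv12_y, map_mul, sc12_y, Units.val_pow_eq_pow_val, map_pow,
        sc12_xi, inv12_b, inv_inv]
      have h1 : (algebraMap B (A12 B (rev f')) ((lam⁻¹ : Bˣ) : B)) *
          algebraMap B (A12 B (rev f')) (lam : B) = 1 := by
        rw [← map_mul, Units.inv_mul, map_one]
      have h2 : (algebraMap B (A12 B (rev f')) ((lam⁻¹ : Bˣ) : B)) ^ 3 *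
          (algebraMap B (A12 B (rev f')) (lam : B)) ^ 3 = 1 := by
        rw [← mul_pow, h1, one_pow]
      linear_combination (algebraMap B (A12 B (rev f')) (nu : B) * yv B (rev f') *
        (((xu B (rev f'))⁻¹ : (A12 B (rev f'))ˣ) : A12 B (rev f')) ^ 3) * h2
  exact congrArg (fun g => g v) this

/-- Scaling. -/
noncomputable def hhSC : HH (RingHom.id B) f f' where
  g := fun i => match i with
    | .T => sc1 h
    | .N => sc12 h
    | .Q => sc1 h.rev
  gc := fun i => match i with
    | .T => sc1_b h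
    | .N => sc12_b h
    | .Q => sc1_b h.rev
  gE := sc12 h.rev
  e1 := sc12_g1 h
  e2 := sc12_g1 h.rev
  e3 := sc12_inv h

/-- The factors of the forms. -/
noncomputable abbrev csc (lam nu : Bˣ) : Bool → Bool → B := fun k' k =>
  if k = k' then (if k then ((nu * lam⁻¹ : Bˣ) : B) else ((nu * lam⁻¹ ^ 2 : Bˣ) : B)) else 0

/-- Scaling of the forms. -/
theorem omSC (o : HOk f) (o' : HOk f') : (hhSC h).Om o o' (csc lam nu) := by
    intro k i R' _ r δ hδ
    have e1 : (lam : B) * ((lam⁻¹ : Bˣ) : B) = 1 := Units.mul_inv _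
    have e2 : (nu : B) * ((nu⁻¹ : Bˣ) : B) = 1 := Units.mul_inv _
    have e3 : ((lam⁻¹ : Bˣ) : B) * (lam : B) = 1 := Units.inv_mul _
    have hT : ∀ {R' : Type} [CommRing R'] (r : A1 B f' →+* R') (δ : A1 B f' → R'),
        DerA (algebraMap B (A1 B f')) r δ → om o'.z (algebraMap B (A1 B f')) (x1 B f') (y1 B f') r δ =
          r (algebraMap B (A1 B f') ((nu : B) * ((lam⁻¹ : Bˣ) : B))) * om o.z (algebraMap B (A1 B f))
          (x1 B f) (y1 B f) (r.comp (sc1 h)) (fun v => δ (sc1 h v)) := fun r δ hδ =>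
      om_sc (rel1 B f) o.z (rel1 B f') o'.z hδ (sc1 h) (sc1_b h) e1 e2 h (sc1_x h) (sc1_y h)
    have hN : ∀ {R' : Type} [CommRing R'] (r : A12 B f' →+* R') (δ : A12 B f' → R'),
        DerA (algebraMap B (A12 B f')) r δ → om o'.z (algebraMap B (A12 B f')) (xu B f' : A12 B f')
          (yv B f') r δ = r (algebraMap B (A12 B f') ((nu : B) * ((lam⁻¹ : Bˣ) : B))) *
          om o.z (algebraMap B (A12 B f)) (xu B f : A12 B f) (yv B f) (r.comp (sc12 h))
            (fun v => δ (sc12 h v)) := fun r δ hδ =>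
      om_sc (rel12 B f) o.z (rel12 B f') o'.z hδ (sc12 h) (sc12_b h) e1 e2 h (sc12_x h) (sc12_y h)
    have hQ : ∀ {R' : Type} [CommRing R'] (r : A1 B (rev f') →+* R') (δ : A1 B (rev f') → R'),
        DerA (algebraMap B (A1 B (rev f'))) r δ → om o'.z' (algebraMap B (A1 B (rev f')))
          (x1 B (rev f')) (y1 B (rev f')) r δ =
          r (algebraMap B (A1 B (rev f')) (((nu * lam⁻¹ ^ 3 : Bˣ) : B) * (lam : B))) *
          om o.z' (algebraMap B (A1 B (rev f))) (x1 B (rev f)) (y1 B (rev f))
            (r.comp (sc1 h.rev)) (fun v => δ (sc1 h.rev v)) := fun r δ hδ =>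
      om_sc (rel1 B (rev f)) o.z' (rel1 B (rev f')) o'.z' hδ (sc1 h.rev) (sc1_b h.rev) e3
        (Units.mul_inv (nu * lam⁻¹ ^ 3)) (by
          intro i
          have := h.rev i
          rw [← Units.val_mul] at this
          exact this) (sc1_x h.rev) ((sc1_y h.rev).trans (by rw [Units.val_mul]))
    have u1 : ((nu * lam⁻¹ ^ 2 : Bˣ) : B) * (lam : B) = (nu : B) * ((lam⁻¹ : Bˣ) : B) := by
      push_cast
      linear_combination ((nu : B) * ((lam⁻¹ : Bˣ) : B)) * e3
    have u2 : ((nu * lam⁻¹ ^ 3 : Bˣ) : B) * (lam : B) = ((nu * lam⁻¹ ^ 2 : Bˣ) : B) := by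
      push_cast
      linear_combination ((nu : B) * ((lam⁻¹ : Bˣ) : B) ^ 2) * e3
    have u3 : ((nu * lam⁻¹ : Bˣ) : B) * ((lam⁻¹ : Bˣ) : B) = ((nu * lam⁻¹ ^ 3 : Bˣ) : B) * (lam : B) := by
      rw [u2]
      push_cast
      ring
    cases k <;> cases i
    · -- false T
      change r (-x1 B f') * om o'.z (algebraMap B (A1 B f')) (x1 B f') (y1 B f') r δ =
        (r (algebraMap B (A1 B f') 0) * r (sc1 h 1) +
          r (algebraMap B (A1 B f') ((nu * lam⁻¹ ^ 2 : Bˣ) : B)) * r (sc1 h (-x1 B f))) *
          om o.z (algebraMap B (A1 B f)) (x1 B f) (y1 B f) (r.comp (sc1 h))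
            (fun v => δ (sc1 h v))
      rw [hT r δ hδ, ← u1]
      simp only [map_neg, sc1_x, map_mul, map_zero]
      ring
    · -- false N
      change r (-(xu B f' : A12 B f')) * om o'.z (algebraMap B (A12 B f')) (xu B f' : A12 B f')
          (yv B f') r δ =
        (r (algebraMap B (A12 B f') 0) * r (sc12 h 1) +
          r (algebraMap B (A12 B f') ((nu * lam⁻¹ ^ 2 : Bˣ) : B)) *
            r (sc12 h (-(xu B f : A12 B f)))) *
          om o.z (algebraMap B (A12 B f)) (xu B f : A12 B f) (yv B f) (r.comp (sc12 h))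
            (fun v => δ (sc12 h v))
      rw [hN r δ hδ, ← u1]
      simp only [map_neg, sc12_x, map_mul, map_zero]
      ring
    · -- false Q
      change r 1 * om o'.z' (algebraMap B (A1 B (rev f'))) (x1 B (rev f')) (y1 B (rev f')) r δ =
        (r (algebraMap B (A1 B (rev f')) 0) * r (sc1 h.rev (-x1 B (rev f))) +
          r (algebraMap B (A1 B (rev f')) ((nu * lam⁻¹ ^ 2 : Bˣ) : B)) * r (sc1 h.rev 1)) *
          om o.z' (algebraMap B (A1 B (rev f))) (x1 B (rev f)) (y1 B (rev f))
            (r.comp (sc1 h.rev)) (fun v => δ (sc1 h.rev v))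
      rw [hQ r δ hδ, u2]
      simp only [map_one, map_zero]
      ring
    · -- true T
      change r 1 * om o'.z (algebraMap B (A1 B f')) (x1 B f') (y1 B f') r δ =
        (r (algebraMap B (A1 B f') ((nu * lam⁻¹ : Bˣ) : B)) * r (sc1 h 1) +
          r (algebraMap B (A1 B f') 0) * r (sc1 h (-x1 B f))) *
          om o.z (algebraMap B (A1 B f)) (x1 B f) (y1 B f) (r.comp (sc1 h))
            (fun v => δ (sc1 h v))
      rw [hT r δ hδ, Units.val_mul]
      simp only [map_zero, map_one]
      ring
    · -- true N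
      change r 1 * om o'.z (algebraMap B (A12 B f')) (xu B f' : A12 B f')
          (yv B f') r δ =
        (r (algebraMap B (A12 B f') ((nu * lam⁻¹ : Bˣ) : B)) * r (sc12 h 1) +
          r (algebraMap B (A12 B f') 0) * r (sc12 h (-(xu B f : A12 B f)))) *
          om o.z (algebraMap B (A12 B f)) (xu B f : A12 B f) (yv B f) (r.comp (sc12 h))
            (fun v => δ (sc12 h v))
      rw [hN r δ hδ, Units.val_mul]
      simp only [map_zero, map_one]
      ring
    · -- true Q
      change r (-x1 B (rev f')) * om o'.z' (algebraMap B (A1 B (rev f'))) (x1 B (rev f'))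
          (y1 B (rev f')) r δ =
        (r (algebraMap B (A1 B (rev f')) ((nu * lam⁻¹ : Bˣ) : B)) *
            r (sc1 h.rev (-x1 B (rev f))) +
          r (algebraMap B (A1 B (rev f')) 0) * r (sc1 h.rev 1)) *
          om o.z' (algebraMap B (A1 B (rev f))) (x1 B (rev f)) (y1 B (rev f))
            (r.comp (sc1 h.rev)) (fun v => δ (sc1 h.rev v))
      rw [hQ r δ hδ, ← u3]
      simp only [map_neg, sc1_x, map_mul, map_zero]
      ring

end sc

end Pool.Agent.MG.H2


end
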