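import Mathlib
import Pool.Agent.KDM.C07
import Pool.Agent.KDM.C08
import Pool.Agent.KDM.C09
import Pool.Agent.KDM.C12
import Pool.Agent.KDM.C13
import Pool.Agent.KDM.C15
import Pool.Agent.KDM.C21
import Pool.Agent.KDM.C27
import Pool.Agent.KDM.C33
import Pool.Agent.KDM.C36
import Pool.Agent.KDM.C39
import Pool.Agent.KDM.C40
import Pool.Agent.KDM.C42
import Pool.Agent.KDM.C43
import Pool.Agent.KDM.C45
import Pool.Agent.KDM.C46
import Pool.Agent.KDM.C47
import Pool.Agent.KDM.C49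
import Pool.Agent.KDM.C51
import Pool.Agent.KDM.C52
import Pool.Agent.KDM.C53
import Pool.Agent.KDM.Fin

/-! Parts: MG.W.WST, MG.W.All, MG.End1b, MG.W.EndA, MG.W.EndB, MG.W.EndC, MG.One.Cov, MG.One.Val, MG.One.Main, MG.WL.Top, MG.WL.DefsX, MG.WL.DefsW, MG.WL.StmtsW, MG.WL.CL.StmtsC, MG.WL.CL.UNQ, MG.WL.CL.NAFF, MG.WL.CL.DFIN, MG.WL.CL.ARITH, MG.WL.ToolsX, MG.WL.StmtsX, MG.WL.GAR, MG.WL.LIFT -/

section

/-!
# Stable Weierstrass families (module MW_WST)
-/

set_option autoImplicit false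

open CategoryTheory CategoryTheory.Limits AlgebraicGeometry TensorProduct

namespace Pool.Agent.MG.W

namespace WST

variable {m : ℕ} {B K : Type} [CommRing B] [Field K]

/-- A fibre of a Weierstrass family is isomorphic to the Weierstrass curve with the images of the
coefficients. -/
theorem fibre (hWBC : Stmt_WBC) (P : WD m B) (s : B →+* K) (z : Fam (m + 1) K)
    (a : Arrow s z (Wei P)) : ∃ f : Arrow (RingHom.id K) z (Wei (P.map s)), IsIso f.f := by
  have hbc := WD.map_bc s P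
  have h1 : IsPullback (wmap s hbc) (Wei (P.map s)).π (Wei P).π (spMap s) := hWBC s hbc.a hbc.b
  let e : z.X ≅ (Wei (P.map s)).X := a.cart.isoIsPullback _ _ h1
  have e1 : e.hom ≫ wmap s hbc = a.f := a.cart.isoIsPullback_hom_fst _ _ h1
  have e2 : e.hom ≫ (Wei (P.map s)).π = z.π := a.cart.isoIsPullback_hom_snd _ _ h1
  refine ⟨⟨e.hom, ?_, ?_⟩, ?_⟩
  · have : IsIso (spMap (RingHom.id K)) := by
      rw [FIS.spMap_id]
      infer_instance
    refine IsPullback.of_horiz_isIso ⟨?_⟩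
    rw [e2, FIS.spMap_id, Category.comp_id]
  · intro i
    rw [FIS.spMap_id, Category.id_comp]
    refine h1.hom_ext ?_ ?_
    · rw [Category.assoc, e1, a.sec i, wmap_sec]
    · rw [Category.assoc, e2, z.sec i, (Wei (P.map s)).sec i]
  · show IsIso e.hom
    infer_instance

/-- Stability of a fibre. -/
theorem fib (hWBC : Stmt_WBC) (P : WD m B) (s : B →+* K) (z : Fam (m + 1) K)
    (a : Arrow s z (Wei P)) (h : StableCurve 1 (Wei (P.map s))) : StableCurve 1 z := by
  obtain ⟨f, hf⟩ := fibre hWBC P s z a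
  exact t_FIS.2 1 z (Wei (P.map s)) f hf h

end WST

theorem t_WST (hWPR : Stmt_WPR) (hWBC : Stmt_WBC) (hWFI : Stmt_WFI) : Stmt_WST := by
  constructor
  · intro m B _ P hP
    obtain ⟨p1, p2, p3⟩ := hWPR B P.a P.b
    refine ⟨p1, p2, p3, ?_⟩
    rintro K _ _ s z ⟨a⟩
    refine WST.fib hWBC P s z a (hWFI (P.map s) ?_ ?_ (Or.inr ?_) ?_)
    · have h6 := (hP.six.map s).ne_zero
      rwa [map_ofNat] at h6
    · by_contra hcon
      push Not at hcon
      obtain ⟨ha, hb⟩ := hcon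
      have ha' : s P.a = 0 := ha
      have hb' : s P.b = 0 := hb
      have h1 : (1 : B) ∈ Ideal.span {P.a, P.b} := by rw [hP.ab]; exact Submodule.mem_top
      obtain ⟨c, d, hcd⟩ := Ideal.mem_span_pair.1 h1
      have h2 := congrArg s hcd
      rw [map_add, map_mul, map_mul, ha', hb', mul_zero, mul_zero, add_zero, map_one] at h2
      exact zero_ne_one h2
    · intro i
      exact ((hP.y i).map s).ne_zero
    · intro i j hij
      left
      have h1 := ((hP.x i j hij).map s).ne_zero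
      rw [map_sub] at h1
      exact sub_ne_zero.1 h1
  · intro m K' _ P h6 hdisc hdist
    obtain ⟨p1, p2, p3⟩ := hWPR K' P.a P.b
    refine ⟨p1, p2, p3, ?_⟩
    rintro K _ _ s z ⟨a⟩
    have hinj : Function.Injective s := s.injective
    refine WST.fib hWBC P s z a (hWFI (P.map s) ?_ ?_ (Or.inl ?_) ?_)
    · have h := (map_ne_zero_iff s hinj).2 h6
      rwa [map_ofNat] at h
    · by_contra hcon
      push Not at hcon
      obtain ⟨ha, hb⟩ := hcon
      have ha' : P.a = 0 := (map_eq_zero_iff s hinj).1 ha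
      have hb' : P.b = 0 := (map_eq_zero_iff s hinj).1 hb
      apply hdisc
      rw [ha', hb']
      ring
    · have h := (map_ne_zero_iff s hinj).2 hdisc
      rw [map_add, map_mul, map_mul, map_pow, map_pow, map_ofNat, map_ofNat] at h
      exact h
    · intro i j hij
      rcases hdist i j hij with h | h
      · exact Or.inl fun he => h (hinj he)
      · exact Or.inr fun he => h (hinj he)

end Pool.Agent.MG.W


end

section

/-!
# The blocks on Weierstrass curves together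
-/

namespace Pool.Agent.MG.W

theorem wst : Stmt_WST := t_WST t_WPR t_WBC (t_WFI t_WDM t_WND (t_WGN t_WRG) (t_WRI t_WRG) t_WSM)

theorem we : Stmt_WE := t_WE (t_WEA t_WRG) t_WBC

theorem wu : Stmt_WU := t_WU (t_WUA t_WRG)

theorem wcv : Stmt_WCV := t_WCV we wu t_WBC t_WSC

theorem wna : Stmt_WNA := t_WNA we wu t_WBC t_WSC

theorem wfl : Stmt_WFL := t_WFL t_WBC

theorem wmv : Stmt_WMV := t_WMV t_WBC

end Pool.Agent.MG.W


end

section

/-!
# Curves of genus one: the value of a regular function does not depend on the marked points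
-/

open CategoryTheory CategoryTheory.Limits AlgebraicGeometry TensorProduct

namespace Pool.Agent.MG

theorem rep' : Stmt_REP := t_REP cstw

theorem mvx : Stmt_MVX := t_MVX cstw

namespace E1

theorem is_tau {n : ℕ} {k : Type} [Field k] {T : TC k} {C : Fam n k} (ct : Charted T C)
    (ha : ct.Aff) (φ : T.R1 →ₐ[k] k) : ct.Is1 (tau ha (.one φ)) φ :=
  ⟨CHI.top_le ha.aff1 (CHI.F1 ct φ), fun a => by
    refine (CHI.pt_val ha.aff1 (CHI.F1 ct φ) _ _).trans ?_
    rw [CHI.F1_t]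
    simp⟩

theorem is1_unique {n : ℕ} {k : Type} [Field k] {T : TC k} {C : Fam n k} (ct : Charted T C)
    (σ : Sp k ⟶ C.X) (φ φ' : T.R1 →ₐ[k] k) (h : ct.Is1 σ φ) (h' : ct.Is1 σ φ') (a : T.R1) :
    φ a = φ' a := by
  obtain ⟨h1, h2⟩ := h
  obtain ⟨h1', h2'⟩ := h'
  have := (h2 a).symm.trans (h2' a)
  have h3 := congrArg (Scheme.ΓSpecIso (CommRingCat.of k)).hom.hom this
  rwa [gl_inv, gl_inv] at h3

/-- The curve with other marked points. -/
noncomputable abbrev _root_.Pool.Agent.MG.Fam.wσ {n : ℕ} {k : Type} [Field k] (C : Fam n k)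
    (σ' : Fin n → (Sp k ⟶ C.X)) (h : ∀ i, σ' i ≫ C.π = 𝟙 _) : Fam n k :=
  ⟨C.X, C.π, σ', h⟩

/-- The values of a covector at the deformations which move one marked point. -/
def HasMv {g n : ℕ} {k : Type} [Field k] {C : Fam n k} (Φ : Flow C.π) (l : Cov g C)
    (b : Fin n → k) : Prop :=
  ∀ (i : Fin n) (d : Defo g C), IsMv Φ i d → l.l d = b i

section

variable {g n : ℕ} {k : Type} [Field k] {T : TC k} {C : Fam n k} (ch : Cht C T) [IsAlgClosed k]
  (Q : Cur C g)

/-- The charts of the curve with another marked point. -/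
theorem rep_is (i₀ : Fin n) (φ : T.R1 →ₐ[k] k) (q : Sp k ⟶ C.X) (hq : q ≫ C.π = 𝟙 _)
    (hqφ : q = tau ch.aff (.one φ)) (i : Fin n) :
    (ch.ct.rep i₀ q hq).Is ((C.rep i₀ q hq).σ i) (.one (kpt ch i₀ φ i)) := by
  change ch.ct.Is1 (Function.update C.σ i₀ q i) (kpt ch i₀ φ i)
  unfold kpt
  by_cases h : i = i₀
  · rw [if_pos h, h, Function.update_self, hqφ]
    exact is_tau ch.ct ch.aff φ
  · rw [if_neg h, Function.update_of_ne h]
    exact ch.is i

theorem tau_pt (i : Fin n) : C.σ i = tau ch.aff (.one (ch.pt i)) :=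
  (hyp.tau ch.ct ch.aff).2.2.2 (C.σ i) (.one (ch.pt i)) (C.sec i) (ch.is i)

/-- A point which differs from the marked points. -/
theorem ne_pt (φ : T.R1 →ₐ[k] k) (q : Sp k ⟶ C.X) (hqφ : q = tau ch.aff (.one φ)) (i : Fin n)
    (h : φ T.x ≠ ch.pt i T.x) : q ≠ C.σ i := by
  intro e
  have h1 := is_tau ch.ct ch.aff φ
  rw [← hqφ, e] at h1
  exact h (is1_unique ch.ct _ _ _ h1 (ch.is i) T.x)

include Q in
theorem exists_mv (i j : Fin n) (hj : j ≠ i) (Φ : Flow C.π) (hΦ : Φ.NV) :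
    ∃ d : Defo g C, IsMv Φ i d := by
  obtain ⟨T, ⟨ch⟩⟩ := two g C Q.hC Q.hs (Nat.one_le_iff_ne_zero.2 (by
    rintro rfl
    exact i.elim0))
  obtain ⟨E, -⟩ := t_VFE ch ch.ct ch.aff Φ hΦ
  exact mvx g C Q.hC Q.hs T ch E i j hj Φ

variable [Algebra ℂ k] (F : Reg g n) (E : Ell T)

/-- The arrow from the curve with moved point to the universal family. -/
theorem rep_arrow {i₀ : Fin n} (j₀ : Fin n) (hj₀ : j₀ ≠ i₀) {ι : Type} (φ : T.R1 →ₐ[k] k)
    (hφ : ∀ i, i ≠ i₀ → φ (zE ch i) ≠ 0) (q : Sp k ⟶ C.X) (hq : q ≫ C.π = 𝟙 _)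
    (hqφ : q = tau ch.aff (.one φ)) (v : {i : Fin n // i ≠ i₀} ⊕ ι → k) :
    ∃ a : Arrow (SVlift ch ({i : Fin n // i ≠ i₀} ⊕ ι) (Finset.univ.erase i₀)
      (evk φ v) (evk_unit ch φ v hφ) :
        SV ch ({i : Fin n // i ≠ i₀} ⊕ ι) (Finset.univ.erase i₀) →+* k)
        (C.rep i₀ q hq) (o1 ch Q E j₀ hj₀ ({i : Fin n // i ≠ i₀} ⊕ ι)).x,
      ChArrow a (ch.ct.rep i₀ q hq) (o1 ch Q E j₀ hj₀ ({i : Fin n // i ≠ i₀} ⊕ ι)).ct := by
  have hbc := cobj_bc ch Q E i₀ j₀ hj₀ (.one (ph ch ({i : Fin n // i ≠ i₀} ⊕ ι)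
      (Finset.univ.erase i₀)))
    (dis_one ch hyp i₀ _ fun i hi => ph_unit ch _ _ i
      (Finset.mem_erase.2 ⟨hi, Finset.mem_univ i⟩))
  have hσ : ∀ i, (C.rep i₀ q hq).σ i = spMap (SVlift ch ({i : Fin n // i ≠ i₀} ⊕ ι)
      (Finset.univ.erase i₀) (evk φ v) (evk_unit ch φ v hφ) :
        SV ch ({i : Fin n // i ≠ i₀} ⊕ ι) (Finset.univ.erase i₀) →+* k) ≫
      tau ch.aff (mv ch i₀ (.one (ph ch ({i : Fin n // i ≠ i₀} ⊕ ι)
        (Finset.univ.erase i₀))) i) := by
    intro i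
    rw [← (hyp.tau ch.ct ch.aff).2.1 _ _ (SVlift ch ({i : Fin n // i ≠ i₀} ⊕ ι)
      (Finset.univ.erase i₀) (evk φ v) (evk_unit ch φ v hφ)), ← mv_kpt ch φ v hφ i]
    change Function.update C.σ i₀ q i = _
    unfold kpt
    by_cases h : i = i₀
    · rw [if_pos h, h, Function.update_self, hqφ]
    · rw [if_neg h, Function.update_of_ne h]
      exact tau_pt ch i
  exact hyp.chk (C := C.rep i₀ q hq) (ch.ct.rep i₀ q hq)
    ⟨ch.aff.aff1, ch.aff.aff2, ch.aff.aff12⟩ _ _
    (fun i => tau ch.aff (mv ch i₀ (.one (ph ch ({i : Fin n // i ≠ i₀} ⊕ ι)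
        (Finset.univ.erase i₀))) i))
    (fun i => (hyp.tau ch.ct ch.aff).1 _ _) (o1 ch Q E j₀ hj₀ _).ct
    ⟨hbc.h1, hbc.h2, hbc.f1, hbc.f2, hbc.f12⟩ hσ

include Q E in
/-- The value at the curves with moved point. -/
theorem fibre [CharZero k] (i₀ j₀ : Fin n) (hj₀ : j₀ ≠ i₀) :
    ∃ p : MvPolynomial {i : Fin n // i ≠ i₀} k, ∀ (φ : T.R1 →ₐ[k] k)
      (_ : ∀ i, i ≠ i₀ → φ (zE ch i) ≠ 0) (q : Sp k ⟶ C.X) (hq : q ≫ C.π = 𝟙 _)
      (hqφ : q = tau ch.aff (.one φ)) (hs : IsStable g (C.rep i₀ q hq))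
      (G : CovData (fun i => (.one (kpt ch i₀ φ i) : Pt T k)))
      (l : Cov g (C.rep i₀ q hq)), IsCov (ch.ct.rep i₀ q hq) (fun i => .one (kpt ch i₀ φ i))
        (rep_is ch i₀ φ q hq hqφ) G l →
      F.F k (C.rep i₀ q hq) hs l = MvPolynomial.aeval (fun i : {i : Fin n // i ≠ i₀} => G.ν i.1) p
    := by
  obtain ⟨ι, D, hc, hu⟩ := t_UNI1 T E ch.inj1 ch.inj2 ch.h0
  have U : Uni (T := T) D i₀ := ⟨fun B _ _ s => (hu B s i₀).1, fun B _ _ s => (hu B s i₀).2⟩
  obtain ⟨p, hp⟩ := f1_poly ch Q E F U j₀ hj₀ hc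
  refine ⟨p, ?_⟩
  intro φ hφ q hq hqφ hs G l hl
  obtain ⟨a, ha⟩ := rep_arrow ch Q E j₀ hj₀ φ hφ q hq hqφ
    (Sum.elim (fun i : {i : Fin n // i ≠ i₀} => G.ν i.1) (fun a => G.μ (D a)))
  rw [valgen ch Q E F U j₀ hj₀ (C.rep i₀ q hq) hs (ch.ct.rep i₀ q hq) φ hφ
    (rep_is ch i₀ φ q hq hqφ) G l hl _ rfl a ha, hp, SVlift_apply, evk_p]
  rfl

include Q in
theorem rep_cur (i₀ : Fin n) (q : Sp k ⟶ C.X) (hq : q ≫ C.π = 𝟙 _)
    (hs : IsStable g (C.rep i₀ q hq)) : Cur (C.rep i₀ q hq) g :=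
  ⟨hs, Q.hs⟩

include Q in
/-- The value in terms of the vector field. -/
theorem fibre2 [CharZero k] (Φ : Flow C.π) (hΦ : Φ.NV) (i₀ j₀ : Fin n) (hj₀ : j₀ ≠ i₀) :
    ∃ P : (Fin n → k) → k, ∀ (φ : T.R1 →ₐ[k] k)
      (_ : ∀ i, i ≠ i₀ → φ (zE ch i) ≠ 0) (q : Sp k ⟶ C.X)
      (_ : q = tau ch.aff (.one φ)) (σ' : Fin n → (Sp k ⟶ C.X)) (h' : ∀ i, σ' i ≫ C.π = 𝟙 _)
      (_ : σ' = Function.update C.σ i₀ q) (hs : IsStable g (C.wσ σ' h'))
      (l : Cov g (C.wσ σ' h')) (b : Fin n → k), HasMv (C := C.wσ σ' h') Φ l b →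
      F.F k (C.wσ σ' h') hs l = P b := by
  obtain ⟨E, hE⟩ := t_VFE ch ch.ct ch.aff Φ hΦ
  obtain ⟨p, hp⟩ := fibre ch Q F E i₀ j₀ hj₀
  refine ⟨fun b => MvPolynomial.aeval (fun i : {i : Fin n // i ≠ i₀} => b i.1 / cc ch E i.1) p,
    ?_⟩
  intro φ hφ q hqφ σ' h' hσ' hs l b hb
  subst hσ'
  have hq : q ≫ C.π = 𝟙 _ := by
    have := h' i₀
    rwa [Function.update_self] at this
  have haff : (ch.ct.rep i₀ q hq).Aff := ⟨ch.aff.aff1, ch.aff.aff2, ch.aff.aff12⟩
  obtain ⟨G, hG⟩ := hyp.cls (C := C.rep i₀ q hq) g hs (ch.ct.rep i₀ q hq) haff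
    (fun i => .one (kpt ch i₀ φ i)) (rep_is ch i₀ φ q hq hqφ) l
  have h1 : ∀ i : {i : Fin n // i ≠ i₀}, G.ν i.1 = b i.1 / cc ch E i.1 := by
    intro i
    obtain ⟨d, hd⟩ := exists_mv (C := C.rep i₀ q hq) (rep_cur Q i₀ q hq hs) i.1 i₀ i.2.symm Φ hΦ
    have h2 := hb i.1 d hd
    have h3 := t_MVV (C := C.rep i₀ q hq) (ch.ct.rep i₀ q hq) haff (kpt ch i₀ φ)
      (rep_is ch i₀ φ q hq hqφ) G g l hG Φ E.r0 hE i.1 d hd
    have h4 : kpt ch i₀ φ i.1 E.r0 = cc ch E i.1 := by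
      unfold kpt
      rw [if_neg i.2]
      rfl
    rw [h2, h4] at h3
    rw [h3, mul_div_cancel_right₀ _ (cc_ne ch E i.1)]
  have h5 := hp φ hφ q hq hqφ hs G l hG
  refine h5.trans ?_
  congr 1
  congr 1
  funext i
  exact h1 i

include Q in
/-- Every covector has values at the deformations which move one point, with sum zero. -/
theorem hasMv_ex (Φ : Flow C.π) (hΦ : Φ.NV) (i₀ j₀ : Fin n) (hj₀ : j₀ ≠ i₀) (l : Cov g C) :
    ∃ b : Fin n → k, HasMv Φ l b ∧ ∑ i, b i = 0 := by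
  obtain ⟨T, ⟨ch⟩⟩ := two g C Q.hC Q.hs (Nat.one_le_iff_ne_zero.2 (by
    rintro rfl
    exact i₀.elim0))
  obtain ⟨E, hE⟩ := t_VFE ch ch.ct ch.aff Φ hΦ
  obtain ⟨G, hG⟩ := hyp.cls g Q.hC ch.ct ch.aff (fun i => .one (ch.pt i)) ch.is l
  refine ⟨fun i => G.ν i * ch.pt i E.r0, fun i d hd =>
    t_MVV ch.ct ch.aff ch.pt ch.is G g l hG Φ E.r0 hE i d hd, ?_⟩
  have h1 := G.m1 E.r0
  have h2 := G.m2 E.s0
  have h3 : ∀ i : Fin n, (Pt.one (ch.pt i) : Pt T k).l2 E.s0 = 0 := fun i => rfl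
  simp only [h3, mul_zero, Finset.sum_const_zero] at h2
  rw [← E.h] at h2
  rw [h2, zero_add] at h1
  exact h1

include Q in
theorem hasMv_sum (Φ : Flow C.π) (hΦ : Φ.NV) (i₀ j₀ : Fin n) (hj₀ : j₀ ≠ i₀) (l : Cov g C)
    (b : Fin n → k) (hb : HasMv Φ l b) : ∑ i, b i = 0 := by
  obtain ⟨b', hb', h0⟩ := hasMv_ex Q Φ hΦ i₀ j₀ hj₀ l
  rw [← h0]
  refine Finset.sum_congr rfl fun i _ => ?_
  obtain ⟨j, hj⟩ : ∃ j, j ≠ i := by
    by_cases h : i₀ = i
    · exact ⟨j₀, h ▸ hj₀⟩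
    · exact ⟨i₀, h⟩
  obtain ⟨d, hd⟩ := exists_mv Q i j hj Φ hΦ
  rw [← hb i d hd, ← hb' i d hd]

include Q in
/-- Existence of covectors with given values. -/
theorem hasMv_cov (Φ : Flow C.π) (hΦ : Φ.NV) (i₀ j₀ : Fin n) (hj₀ : j₀ ≠ i₀) (b : Fin n → k)
    (h0 : ∑ i, b i = 0) : ∃ l : Cov g C, HasMv Φ l b := by
  obtain ⟨T, ⟨ch⟩⟩ := two g C Q.hC Q.hs (Nat.one_le_iff_ne_zero.2 (by
    rintro rfl
    exact i₀.elim0))
  obtain ⟨E, hE⟩ := t_VFE ch ch.ct ch.aff Φ hΦ
  obtain ⟨ι, D, hc, hu⟩ := t_UNI1 T E ch.inj1 ch.inj2 ch.h0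
  obtain ⟨G, hG1, -⟩ := (hu k (fun i : Fin n => (.one (ch.pt i) : Pt T k)) i₀).1
    (fun i => b i.1 / cc ch E i.1) (fun _ => 0)
  obtain ⟨l, hl⟩ := hyp.cov ch.ct (fun i => .one (ch.pt i)) ch.is G g
  refine ⟨l, ?_⟩
  have hmv : HasMv Φ l (fun i => G.ν i * ch.pt i E.r0) := fun i d hd =>
    t_MVV ch.ct ch.aff ch.pt ch.is G g l hl Φ E.r0 hE i d hd
  have hs := hasMv_sum Q Φ hΦ i₀ j₀ hj₀ l _ hmv
  have h1 : ∀ i, i ≠ i₀ → G.ν i * ch.pt i E.r0 = b i := by
    intro i hi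
    rw [hG1 ⟨i, hi⟩]
    change b i / cc ch E i * cc ch E i = b i
    rw [div_mul_cancel₀ _ (cc_ne ch E i)]
  have h2 : G.ν i₀ * ch.pt i₀ E.r0 = b i₀ := by
    rw [sum_split i₀] at hs h0
    have h3 : ∑ i : {i : Fin n // i ≠ i₀}, G.ν i.1 * ch.pt i.1 E.r0 =
        ∑ i : {i : Fin n // i ≠ i₀}, b i.1 := Finset.sum_congr rfl fun i _ => h1 i.1 i.2
    rw [h3] at hs
    linear_combination hs - h0
  intro i d hd
  rw [hmv i d hd]
  by_cases h : i = i₀
  · rw [h]
    exact h2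
  · exact h1 i h

/-- Moving one marked point. -/
theorem move [CharZero k] (C : Fam n k) (Q : Cur C g) (F : Reg g n) (Φ : Flow C.π) (hΦ : Φ.NV)
    (i₀ j₀ : Fin n)
    (hj₀ : j₀ ≠ i₀) (σ' : Fin n → (Sp k ⟶ C.X)) (h' : ∀ i, σ' i ≫ C.π = 𝟙 _)
    (hσ : ∀ i, i ≠ i₀ → σ' i = C.σ i) (hs : IsStable g (C.wσ σ' h')) (l : Cov g C)
    (l' : Cov g (C.wσ σ' h')) (b : Fin n → k) (hb : HasMv Φ l b)
    (hb' : HasMv (C := C.wσ σ' h') Φ l' b) :
    F.F k C Q.hC l = F.F k (C.wσ σ' h') hs l' := by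
  have hn : 1 ≤ n := Nat.one_le_iff_ne_zero.2 (by
    rintro rfl
    exact i₀.elim0)
  obtain ⟨T, ⟨ch⟩⟩ := two g C Q.hC Q.hs hn
  have Q' : Cur (C.wσ σ' h') g := ⟨hs, Q.hs⟩
  obtain ⟨T', ⟨ch'⟩⟩ := two g (C.wσ σ' h') hs Q.hs hn
  obtain ⟨q, hq, ⟨φ, hφ, hφn⟩, φ', hφ', hφn'⟩ := t_GQ C Q.hC.proper Q.hs
    (CST.stableCurve Q.hC).connected T T' ch (C.wσ σ' h') (𝟙 C.X) inferInstance
    (Category.id_comp _) ch'
  rw [Category.comp_id] at hφ'
  -- the intermediate curve
  let σ₁ : Fin n → (Sp k ⟶ C.X) := Function.update C.σ i₀ q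
  have hσ₁ : σ₁ = Function.update σ' i₀ q := by
    funext i
    by_cases h : i = i₀
    · rw [h]
      simp [σ₁]
    · simp only [σ₁]
      rw [Function.update_of_ne h, Function.update_of_ne h, hσ i h]
  have h₁ : ∀ i, σ₁ i ≫ C.π = 𝟙 _ := (C.rep i₀ q hq).sec
  obtain ⟨E, hE⟩ := t_VFE ch ch.ct ch.aff Φ hΦ
  have hs₁ : IsStable g (C.wσ σ₁ h₁) := rep' g C Q.hC Q.hs T ch E i₀ j₀ hj₀ q hq
    (fun i _ => ne_pt ch φ q hφ i (hφn i))
  obtain ⟨l₁, hl₁⟩ := hasMv_cov (C := C.wσ σ₁ h₁) (⟨hs₁, Q.hs⟩ : Cur (C.wσ σ₁ h₁) g) Φ hΦ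
    i₀ j₀ hj₀ b (hasMv_sum Q Φ hΦ i₀ j₀ hj₀ l b hb)
  obtain ⟨P, hP⟩ := fibre2 ch Q F Φ hΦ i₀ j₀ hj₀
  obtain ⟨P', hP'⟩ := fibre2 (C := C.wσ σ' h') ch' Q' F Φ hΦ i₀ j₀ hj₀
  have hz : ∀ {T : TC k} {C : Fam n k} (ch : Cht C T) (φ : T.R1 →ₐ[k] k) (i : Fin n),
      φ T.x ≠ ch.pt i T.x → φ (zE ch i) ≠ 0 := by
    intro T C ch φ i h h0
    apply h
    unfold zE at h0
    rw [map_sub, AlgHom.commutes] at h0
    exact sub_eq_zero.1 h0
  have e1 : F.F k C Q.hC l = P b := by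
    refine hP (ch.pt i₀) (fun i hi => hz ch _ i (ch.ne i₀ i hi.symm)) (C.σ i₀) (tau_pt ch i₀)
      C.σ C.sec ?_ Q.hC l b hb
    rw [Function.update_eq_self]
  have e2 : F.F k (C.wσ σ₁ h₁) hs₁ l₁ = P b :=
    hP φ (fun i _ => hz ch _ i (hφn i)) q hφ σ₁ h₁ rfl hs₁ l₁ b hl₁
  have e3 : F.F k (C.wσ σ' h') hs l' = P' b := by
    refine hP' (ch'.pt i₀) (fun i hi => hz ch' _ i (ch'.ne i₀ i hi.symm)) (σ' i₀)
      (tau_pt ch' i₀) σ' h' ?_ hs l' b hb'
    rw [Function.update_eq_self]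
  have e4 : F.F k (C.wσ σ₁ h₁) hs₁ l₁ = P' b :=
    hP' φ' (fun i _ => hz ch' _ i (hφn' i)) q hφ' σ₁ h₁ hσ₁ hs₁ l₁ b hl₁
  rw [e1, ← e2, e4, e3]

/-- Replacing one marked point by a given one. -/
theorem stable_rep (C : Fam n k) (Q : Cur C g) (Φ : Flow C.π) (hΦ : Φ.NV) (i₀ j₀ : Fin n)
    (hj₀ : j₀ ≠ i₀) (q : Sp k ⟶ C.X) (hq : q ≫ C.π = 𝟙 _) (hne : ∀ i, i ≠ i₀ → q ≠ C.σ i) :
    IsStable g (C.wσ (Function.update C.σ i₀ q) (C.rep i₀ q hq).sec) := by
  obtain ⟨T, ⟨ch⟩⟩ := two g C Q.hC Q.hs (Nat.one_le_iff_ne_zero.2 (by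
    rintro rfl
    exact i₀.elim0))
  obtain ⟨E, hE⟩ := t_VFE ch ch.ct ch.aff Φ hΦ
  exact rep' g C Q.hC Q.hs T ch E i₀ j₀ hj₀ q hq hne

open Classical in
/-- Moving all marked points. -/
theorem move_all [CharZero k] (F : Reg g n) (hn : 2 ≤ n) (X : Scheme.{0}) (π : X ⟶ Sp k)
    (hsm : SmoothOfRelativeDimension 1 π) (Φ : Flow π) (hΦ : Φ.NV)
    (σ' : Fin n → (Sp k ⟶ X)) (h' : ∀ i, σ' i ≫ π = 𝟙 _)
    (hs' : IsStable g (⟨X, π, σ', h'⟩ : Fam n k)) (l' : Cov g (⟨X, π, σ', h'⟩ : Fam n k))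
    (b : Fin n → k) (hb' : HasMv (C := ⟨X, π, σ', h'⟩) Φ l' b) (N : ℕ) :
    ∀ (σ : Fin n → (Sp k ⟶ X)) (h : ∀ i, σ i ≫ π = 𝟙 _)
      (_ : (Finset.univ.filter fun i => σ' i ≠ σ i).card = N)
      (hs : IsStable g (⟨X, π, σ, h⟩ : Fam n k)) (l : Cov g (⟨X, π, σ, h⟩ : Fam n k))
      (_ : HasMv (C := ⟨X, π, σ, h⟩) Φ l b),
    F.F k ⟨X, π, σ, h⟩ hs l = F.F k ⟨X, π, σ', h'⟩ hs' l' := by
  have hex : ∀ i : Fin n, ∃ j, j ≠ i := by
    intro i
    by_cases h : i.1 = 0
    · exact ⟨⟨1, by omega⟩, fun e => by simp [← e] at h⟩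
    · exact ⟨⟨0, by omega⟩, fun e => h (by rw [← e])⟩
  induction N using Nat.strong_induction_on with
  | _ N ih =>
  -- one point is moved to its final position
  have caseA : ∀ (σ : Fin n → (Sp k ⟶ X)) (h : ∀ i, σ i ≫ π = 𝟙 _)
      (_ : (Finset.univ.filter fun i => σ' i ≠ σ i).card = N)
      (hs : IsStable g (⟨X, π, σ, h⟩ : Fam n k)) (l : Cov g (⟨X, π, σ, h⟩ : Fam n k))
      (_ : HasMv (C := ⟨X, π, σ, h⟩) Φ l b) (i₀ : Fin n) (_ : σ' i₀ ≠ σ i₀)
      (_ : ∀ i, i ≠ i₀ → σ' i₀ ≠ σ i),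
      F.F k ⟨X, π, σ, h⟩ hs l = F.F k ⟨X, π, σ', h'⟩ hs' l' := by
    intro σ h hN hs l hb i₀ hi₀ hne
    obtain ⟨j₀, hj₀⟩ := hex i₀
    have Q : Cur (⟨X, π, σ, h⟩ : Fam n k) g := ⟨hs, hsm⟩
    have hs₁ := stable_rep (⟨X, π, σ, h⟩ : Fam n k) Q Φ hΦ i₀ j₀ hj₀ (σ' i₀) (h' i₀) hne
    have h₁ : ∀ i, (Function.update σ i₀ (σ' i₀)) i ≫ π = 𝟙 _ :=
      ((⟨X, π, σ, h⟩ : Fam n k).rep i₀ (σ' i₀) (h' i₀)).sec
    have Q₁ : Cur (⟨X, π, Function.update σ i₀ (σ' i₀), h₁⟩ : Fam n k) g := ⟨hs₁, hsm⟩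
    obtain ⟨l₁, hl₁⟩ := hasMv_cov Q₁ Φ hΦ i₀ j₀ hj₀ b
      (hasMv_sum Q Φ hΦ i₀ j₀ hj₀ l b hb)
    have e1 := move (⟨X, π, σ, h⟩ : Fam n k) Q F Φ hΦ i₀ j₀ hj₀
      (Function.update σ i₀ (σ' i₀)) h₁ (fun i hi => Function.update_of_ne hi _ _) hs₁ l l₁ b
      hb hl₁
    refine e1.trans (ih _ ?_ (Function.update σ i₀ (σ' i₀)) h₁ rfl hs₁ l₁ hl₁)
    rw [← hN]
    refine Finset.card_lt_card (Finset.ssubset_iff_of_subset ?_ |>.2 ⟨i₀, ?_, ?_⟩)
    · intro i hi
      rw [Finset.mem_filter] at hi ⊢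
      refine ⟨hi.1, ?_⟩
      by_cases hi0 : i = i₀
      · rw [hi0]
        exact hi₀
      · have := hi.2
        rwa [Function.update_of_ne hi0] at this
    · rw [Finset.mem_filter]
      exact ⟨Finset.mem_univ _, hi₀⟩
    · rw [Finset.mem_filter]
      rintro ⟨-, h2⟩
      rw [Function.update_self] at h2
      exact h2 rfl
  intro σ h hN hs l hb
  have Q : Cur (⟨X, π, σ, h⟩ : Fam n k) g := ⟨hs, hsm⟩
  by_cases h0 : ∀ i, σ' i = σ i
  · obtain ⟨j, hj⟩ := hex ⟨0, by omega⟩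
    exact move (⟨X, π, σ, h⟩ : Fam n k) Q F Φ hΦ ⟨0, by omega⟩ j hj σ' h' (fun i _ => h0 i) hs'
      l l' b hb hb'
  push Not at h0
  obtain ⟨i₀, hi₀⟩ := h0
  by_cases hA : ∀ i, i ≠ i₀ → σ' i₀ ≠ σ i
  · exact caseA σ h hN hs l hb i₀ hi₀ hA
  push Not at hA
  obtain ⟨j, hj, hji⟩ := hA
  -- first move the point `j` away
  have hn1 : 1 ≤ n := by omega
  obtain ⟨T, ⟨ch⟩⟩ := two g (⟨X, π, σ, h⟩ : Fam n k) hs hsm hn1
  obtain ⟨T', ⟨ch'⟩⟩ := two g (⟨X, π, σ', h'⟩ : Fam n k) hs' hsm hn1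
  obtain ⟨q, hq, ⟨φ, hφ, hφn⟩, φ', hφ', hφn'⟩ := t_GQ (⟨X, π, σ, h⟩ : Fam n k) hs.proper hsm
    (CST.stableCurve hs).connected T T' ch (⟨X, π, σ', h'⟩ : Fam n k) (𝟙 X) inferInstance
    (Category.id_comp _) ch'
  rw [Category.comp_id] at hφ'
  have hq1 : ∀ i, q ≠ σ i := fun i => ne_pt ch φ q hφ i (hφn i)
  have hq2 : ∀ i, q ≠ σ' i := fun i => ne_pt ch' φ' q hφ' i (hφn' i)
  have hs₁ := stable_rep (⟨X, π, σ, h⟩ : Fam n k) Q Φ hΦ j i₀ hj.symm q hq (fun i _ => hq1 i)
  have h₁ : ∀ i, (Function.update σ j q) i ≫ π = 𝟙 _ :=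
    ((⟨X, π, σ, h⟩ : Fam n k).rep j q hq).sec
  have Q₁ : Cur (⟨X, π, Function.update σ j q, h₁⟩ : Fam n k) g := ⟨hs₁, hsm⟩
  obtain ⟨l₁, hl₁⟩ := hasMv_cov Q₁ Φ hΦ j i₀ hj.symm b
    (hasMv_sum Q Φ hΦ j i₀ hj.symm l b hb)
  have e1 := move (⟨X, π, σ, h⟩ : Fam n k) Q F Φ hΦ j i₀ hj.symm
    (Function.update σ j q) h₁ (fun i hi => Function.update_of_ne hi _ _) hs₁ l l₁ b
    hb hl₁
  refine e1.trans (caseA (Function.update σ j q) h₁ ?_ hs₁ l₁ hl₁ i₀ ?_ ?_)
  · rw [← hN]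
    congr 1
    ext i
    rw [Finset.mem_filter, Finset.mem_filter]
    refine and_congr_right fun _ => ?_
    by_cases hi : i = j
    · rw [hi, Function.update_self]
      refine iff_of_true (hq2 j).symm ?_
      rw [← hji]
      exact (CST.stableCurve hs').distinct j i₀ hj
    · rw [Function.update_of_ne hi]
  · rw [Function.update_of_ne hj.symm]
    exact hi₀
  · intro i hi
    by_cases hij : i = j
    · rw [hij, Function.update_self]
      exact (hq2 i₀).symm
    · rw [Function.update_of_ne hij, hji]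
      exact (CST.stableCurve hs).distinct j i (Ne.symm hij)

end

end E1

end Pool.Agent.MG


end

section

/-!
# The values of a regular function at Weierstrass curves
-/

open CategoryTheory CategoryTheory.Limits AlgebraicGeometry TensorProduct

namespace Pool.Agent.MG.W

/-! ## Transport of covectors along isomorphisms -/

section

variable {g n : ℕ} {A : Type} [CommRing A]

theorem epsMap_id : epsMap (RingHom.id A) = RingHom.id (Eps A) := by
  refine RingHom.ext fun z => TrivSqZeroExt.ext ?_ ?_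
  · change (TrivSqZeroExt.inl z.fst + TrivSqZeroExt.inr z.snd : TrivSqZeroExt A A).fst = z.fst
    simp
  · change (TrivSqZeroExt.inl z.fst + TrivSqZeroExt.inr z.snd : TrivSqZeroExt A A).snd = z.snd
    simp

/-- The composite of an arrow over the identity and an arrow. -/
noncomputable def precomp {B : Type} [CommRing B] {φ : B →+* A} {x y : Fam n A} {z : Fam n B}
    (f : Arrow (RingHom.id A) y x) (r : Arrow φ x z) : Arrow φ y z where
  f := f.f ≫ r.f
  cart := by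
    have h := IsPullback.paste_vert f.cart.flip r.cart.flip
    have h2 : spMap (RingHom.id A) = 𝟙 (Sp A) := Spec.map_id _
    rw [h2, Category.id_comp] at h
    exact h.flip
  sec i := by
    have h2 : spMap (RingHom.id A) = 𝟙 (Sp A) := Spec.map_id _
    rw [← Category.assoc, f.sec, h2, Category.id_comp, r.sec]

/-- A deformation of `x` as a deformation of `y`. -/
noncomputable def Defo.pre {x y : Fam n A} (f : Arrow (RingHom.id A) y x) (d : Defo g x) :
    Defo g y :=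
  ⟨d.y, d.stable, precomp f d.r⟩

/-- The transport of a covector along an isomorphism. -/
noncomputable def covPre {x y : Fam n A} (f : Arrow (RingHom.id A) y x) (l : Cov g y) :
    Cov g x where
  l d := l.l (Defo.pre f d)
  iso d d' e he := l.iso _ _ e (by
    change (f.f ≫ d.r.f) ≫ e.f = f.f ≫ d'.r.f
    rw [Category.assoc, he])
  scale a d d' e he := l.scale a _ _ e (by
    change (f.f ≫ d'.r.f) ≫ e.f = f.f ≫ d.r.f
    rw [Category.assoc, he])
  add z hz r d₁ d₂ d f₁ f₂ f₃ h₁ h₂ h₃ := l.add z hz (precomp f r) _ _ _ f₁ f₂ f₃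
    (by
      change (f.f ≫ d₁.r.f) ≫ f₁.f = f.f ≫ r.f
      rw [Category.assoc, h₁])
    (by
      change (f.f ≫ d₂.r.f) ≫ f₂.f = f.f ≫ r.f
      rw [Category.assoc, h₂])
    (by
      change (f.f ≫ d.r.f) ≫ f₃.f = f.f ≫ r.f
      rw [Category.assoc, h₃])

theorem covPre_compat {x y : Fam n A} (f : Arrow (RingHom.id A) y x) (l : Cov g y) :
    Compat f l (covPre f l) := by
  intro d' d e he
  have key : ∀ (φ : Eps A →+* Eps A) (_ : φ = RingHom.id (Eps A)) (e : Arrow φ d'.y d.y),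
      d'.r.f ≫ e.f = f.f ≫ d.r.f → l.l d' = l.l (Defo.pre f d) := by
    intro φ hφ e he
    subst hφ
    exact l.iso d' (Defo.pre f d) e he
  exact key _ epsMap_id e he

theorem val_transport [Algebra ℂ A] (F : Reg g n) {x y : Fam n A}
    (f : Arrow (RingHom.id A) y x) (hx : IsStable g x) (hy : IsStable g y) (l : Cov g y) :
    F.F A y hy l = F.F A x hx (covPre f l) :=
  F.nat A A (AlgHom.id ℂ A) x y hx hy f (covPre f l) l (covPre_compat f l)

end

/-! ## Values at Weierstrass curves -/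

section

variable {k : Type} [Field k] [IsAlgClosed k] [CharZero k] {m : ℕ}

theorem six_ne : (6 : k) ≠ 0 := by
  exact_mod_cast (by norm_num : (6 : ℕ) ≠ 0)

theorem wei_stable (P : WD m k) (hD : 4 * P.a ^ 3 + 27 * P.b ^ 2 ≠ 0)
    (hP : ∀ i j, i ≠ j → P.x i ≠ P.x j ∨ P.y i ≠ P.y j) : IsStable 1 (Wei P) :=
  wst.2 P six_ne hD hP

theorem wei_smooth (P : WD m k) (hD : 4 * P.a ^ 3 + 27 * P.b ^ 2 ≠ 0) :
    SmoothOfRelativeDimension 1 (Wei P).π :=
  t_WSM.1 k P.a P.b six_ne hD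

variable [Algebra ℂ k]

/-- Values at Weierstrass curves with the same equation. -/
theorem wval (hm : 1 ≤ m) (F : Reg 1 (m + 1)) (a b : k) (hD : 4 * a ^ 3 + 27 * b ^ 2 ≠ 0)
    (x y x' y' : Fin m → k) (eq : ∀ i, y i ^ 2 = x i ^ 3 + a * x i + b)
    (eq' : ∀ i, y' i ^ 2 = x' i ^ 3 + a * x' i + b) (hs : IsStable 1 (Wei ⟨a, b, x, y, eq⟩))
    (hs' : IsStable 1 (Wei ⟨a, b, x', y', eq'⟩)) (Φ : Flow (WX.pr k a b)) (hΦ : Φ.NV)
    (l : Cov 1 (Wei ⟨a, b, x, y, eq⟩)) (l' : Cov 1 (Wei ⟨a, b, x', y', eq'⟩)) (ν : Fin m → k)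
    (hl : ∀ (i : Fin m) (d : Defo 1 (Wei ⟨a, b, x, y, eq⟩)),
      IsMv (C := Wei ⟨a, b, x, y, eq⟩) Φ i.succ d → l.l d = ν i)
    (hl' : ∀ (i : Fin m) (d : Defo 1 (Wei ⟨a, b, x', y', eq'⟩)),
      IsMv (C := Wei ⟨a, b, x', y', eq'⟩) Φ i.succ d → l'.l d = ν i) :
    F.F k (Wei ⟨a, b, x, y, eq⟩) hs l = F.F k (Wei ⟨a, b, x', y', eq'⟩) hs' l' := by
  have hsm : SmoothOfRelativeDimension 1 (WX.pr k a b) := t_WSM.1 k a b six_ne hD
  let j₀ : Fin (m + 1) := (⟨0, hm⟩ : Fin m).succ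
  have hj₀ : j₀ ≠ 0 := Fin.succ_ne_zero _
  -- the vector of all values
  let b₀ : Fin (m + 1) → k := Fin.cons (-∑ i, ν i) ν
  have key : ∀ (C : Fam (m + 1) k) (Q : E1.Cur C 1) (Φ : Flow C.π) (_ : Φ.NV) (l : Cov 1 C)
      (_ : ∀ (i : Fin m) (d : Defo 1 C), IsMv Φ i.succ d → l.l d = ν i), E1.HasMv Φ l b₀ := by
    intro C Q Φ hΦ l hl
    obtain ⟨c, hc, hc0⟩ := E1.hasMv_ex Q Φ hΦ 0 j₀ hj₀ l
    have h1 : ∀ i : Fin m, c i.succ = ν i := by
      intro i
      obtain ⟨d, hd⟩ := E1.exists_mv Q i.succ 0 (Fin.succ_ne_zero i).symm Φ hΦ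
      rw [← hc i.succ d hd, hl i d hd]
    have h2 : c = b₀ := by
      funext i
      refine Fin.cases ?_ (fun i => ?_) i
      · rw [Fin.sum_univ_succ] at hc0
        have h3 : ∑ i : Fin m, c i.succ = ∑ i, ν i := Finset.sum_congr rfl fun i _ => h1 i
        rw [h3] at hc0
        change c 0 = -∑ i, ν i
        linear_combination hc0
      · exact h1 i
    rw [← h2]
    exact hc
  exact E1.move_all F (by omega) (WX k a b) (WX.pr k a b) hsm Φ hΦ
    (Wei ⟨a, b, x', y', eq'⟩).σ (Wei ⟨a, b, x', y', eq'⟩).sec hs' l' b₀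
    (key (Wei ⟨a, b, x', y', eq'⟩) ⟨hs', hsm⟩ Φ hΦ l' hl') _
    (Wei ⟨a, b, x, y, eq⟩).σ (Wei ⟨a, b, x, y, eq⟩).sec rfl hs l
    (key (Wei ⟨a, b, x, y, eq⟩) ⟨hs, hsm⟩ Φ hΦ l hl)

/-- `c` is the value at all smooth curves `y² = x³ + a x + b` and covectors with values `ν`. -/
def Gval (F : Reg 1 (m + 1)) (a b : k) (ν : Fin m → k) (c : k) : Prop :=
  ∀ (x y : Fin m → k) (eq : ∀ i, y i ^ 2 = x i ^ 3 + a * x i + b)
    (hs : IsStable 1 (Wei ⟨a, b, x, y, eq⟩)) (Φ : Flow (WX.pr k a b)) (_ : Φ.NV) (_ : IsWF Φ)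
    (l : Cov 1 (Wei ⟨a, b, x, y, eq⟩))
    (_ : ∀ (i : Fin m) (d : Defo 1 (Wei ⟨a, b, x, y, eq⟩)),
      IsMv (C := Wei ⟨a, b, x, y, eq⟩) Φ i.succ d → l.l d = ν i),
    F.F k (Wei ⟨a, b, x, y, eq⟩) hs l = c

/-- The value at one covector given by data. -/
theorem gval_of (hm : 1 ≤ m) (F : Reg 1 (m + 1)) (P : WD m k)
    (hD : 4 * P.a ^ 3 + 27 * P.b ^ 2 ≠ 0) (hs : IsStable 1 (Wei P)) (W : WCov P)
    (l : Cov 1 (Wei P)) (hl : IsWC W l) (ν : Fin m → k)
    (hν : ∀ i, ν i = W.γ i * (2 * P.y i) + W.ρ i * (3 * P.x i ^ 2 + P.a)) :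
    Gval F P.a P.b ν (F.F k (Wei P) hs l) := by
  intro x y eq hs' Φ hΦ hW l' hl'
  refine wval hm F P.a P.b hD x y P.x P.y eq P.eq hs' hs Φ hΦ l' l ν hl' ?_
  intro i d hd
  rw [hν i]
  exact wmv P six_ne Φ hW W l hl i d hd

/-- Existence of points. -/
theorem exists_pts (a b : k) : ∃ x y : Fin m → k, (∀ i, y i ^ 2 = x i ^ 3 + a * x i + b) ∧
    (∀ i, y i ≠ 0) ∧ Function.Injective x := by
  classical
  have hinf : Infinite k := IsAlgClosed.instInfinite
  let p : Polynomial k := Polynomial.X ^ 3 + Polynomial.C a * Polynomial.X + Polynomial.C b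
  have hp : p ≠ 0 := by
    intro h
    have h1 := congrArg (fun q => Polynomial.coeff q 3) h
    simp [p, Polynomial.coeff_X, Polynomial.coeff_C] at h1
  have hfin : (p.rootSet k).Finite := Polynomial.rootSet_finite p k
  have hinf2 : ((p.rootSet k)ᶜ).Infinite := Set.Finite.infinite_compl hfin
  have : Infinite ↥((p.rootSet k)ᶜ) := hinf2.to_subtype
  let e : ℕ ↪ ↥((p.rootSet k)ᶜ) := Infinite.natEmbedding _
  let x : Fin m → k := fun i => (e i.1).1
  have hx : ∀ i, x i ^ 3 + a * x i + b ≠ 0 := by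
    intro i h
    apply (e i.1).2
    rw [Polynomial.mem_rootSet]
    refine ⟨hp, ?_⟩
    simpa [p] using h
  have hy : ∀ i, ∃ y : k, y ^ 2 = x i ^ 3 + a * x i + b := fun i =>
    IsAlgClosed.exists_pow_nat_eq _ (by norm_num)
  choose y hy using hy
  refine ⟨x, y, hy, fun i h => hx i ?_, fun i j h => ?_⟩
  · rw [← hy i, h]
    ring
  · exact Fin.ext (e.injective (Subtype.ext h))

/-- Existence of curves and covectors with given values. -/
theorem exists_inst (a b : k) (hab : a ≠ 0 ∨ b ≠ 0) (ν : Fin m → k) :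
    ∃ (P : WD m k) (W : WCov P), P.a = a ∧ P.b = b ∧ (∀ i, P.y i ≠ 0) ∧
      Function.Injective P.x ∧ ∀ i, ν i = W.γ i * (2 * P.y i) + W.ρ i * (3 * P.x i ^ 2 + P.a) := by
  obtain ⟨x, y, eq, hy, hx⟩ := exists_pts (m := m) a b
  have h2 : (2 : k) ≠ 0 := two_ne_zero
  have h4 : (4 : k) ≠ 0 := by exact_mod_cast (by norm_num : (4 : ℕ) ≠ 0)
  let P : WD m k := ⟨a, b, x, y, eq⟩
  let γ : Fin m → k := fun i => ν i / (2 * y i)
  let S : k := ∑ i, 2 * x i * γ i
  have hs : ∃ α β : k, 4 * a * α + 6 * b * β + S = 0 := by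
    rcases hab with h | h
    · refine ⟨-S / (4 * a), 0, ?_⟩
      field_simp
      ring
    · refine ⟨0, -S / (6 * b), ?_⟩
      have h6 : (6 : k) ≠ 0 := six_ne
      field_simp
      ring
  obtain ⟨α, β, hαβ⟩ := hs
  let W : WCov P := ⟨α, β, γ, fun _ => 0, by
    change 4 * a * α + 6 * b * β + ∑ i, (2 * x i * γ i + 3 * y i * 0) = 0
    simp only [mul_zero, add_zero]
    exact hαβ⟩
  refine ⟨P, W, rfl, rfl, hy, hx, fun i => ?_⟩
  change ν i = ν i / (2 * y i) * (2 * y i) + 0 * _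
  rw [zero_mul, add_zero, div_mul_cancel₀ _ (mul_ne_zero h2 (hy i))]

theorem gval_unique (hm : 1 ≤ m) (F : Reg 1 (m + 1)) (a b : k) (hD : 4 * a ^ 3 + 27 * b ^ 2 ≠ 0)
    (ν : Fin m → k) (c c' : k) (h : Gval F a b ν c) (h' : Gval F a b ν c') : c = c' := by
  have hab : a ≠ 0 ∨ b ≠ 0 := by
    by_contra hh
    push Not at hh
    apply hD
    rw [hh.1, hh.2]
    ring
  obtain ⟨P, W, rfl, rfl, hy, hx, hν⟩ := exists_inst a b hab ν
  have hs := wei_stable P hD (fun i j hij => Or.inl fun e => hij (hx e))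
  obtain ⟨l, hl, -⟩ := wcv P (IsUnit.mk0 _ six_ne) W
  obtain ⟨Φ, hW, hΦ⟩ := wfl P.a P.b six_ne hD
  have hv : ∀ (i : Fin m) (d : Defo 1 (Wei P)), IsMv (C := Wei P) Φ i.succ d → l.l d = ν i := by
    intro i d hd
    rw [hν i]
    exact wmv P six_ne Φ hW W l hl i d hd
  have e1 := h P.x P.y P.eq hs Φ hΦ hW l hv
  have e2 := h' P.x P.y P.eq hs Φ hΦ hW l hv
  rw [← e1, ← e2]

theorem ab_ne {a b : k} (hD : 4 * a ^ 3 + 27 * b ^ 2 ≠ 0) : a ≠ 0 ∨ b ≠ 0 := by
  by_contra hh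
  push Not at hh
  apply hD
  rw [hh.1, hh.2]
  ring

/-- Scaling of the equation. -/
theorem gval_scale (hm : 1 ≤ m) (F : Reg 1 (m + 1)) (a b : k) (hD : 4 * a ^ 3 + 27 * b ^ 2 ≠ 0)
    (ν : Fin m → k) (c u : k) (hu : u ≠ 0) (h : Gval F a b ν c) :
    Gval F (u ^ 4 * a) (u ^ 6 * b) (fun i => u * ν i) c := by
  obtain ⟨P, W, rfl, rfl, hy, hx, hν⟩ := exists_inst a b (ab_ne hD) ν
  have hs := wei_stable P hD (fun i j hij => Or.inl fun e => hij (hx e))
  obtain ⟨l, hl, -⟩ := wcv P (IsUnit.mk0 _ six_ne) W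
  obtain ⟨Φ, hW, hΦ⟩ := wfl P.a P.b six_ne hD
  have e1 := h P.x P.y P.eq hs Φ hΦ hW l (by
    intro i d hd
    rw [hν i]
    exact wmv P six_ne Φ hW W l hl i d hd)
  -- the scaled data
  let P' : WD m k := ⟨u ^ 4 * P.a, u ^ 6 * P.b, fun i => u ^ 2 * P.x i, fun i => u ^ 3 * P.y i, by
    intro i
    have := P.eq i
    rw [mul_pow, this]
    ring⟩
  have hSc : P.Sc u P' := ⟨rfl, rfl, fun _ => rfl, fun _ => rfl⟩
  have hD' : 4 * P'.a ^ 3 + 27 * P'.b ^ 2 ≠ 0 := by
    have : 4 * (u ^ 4 * P.a) ^ 3 + 27 * (u ^ 6 * P.b) ^ 2 =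
        u ^ 12 * (4 * P.a ^ 3 + 27 * P.b ^ 2) := by ring
    change 4 * (u ^ 4 * P.a) ^ 3 + 27 * (u ^ 6 * P.b) ^ 2 ≠ 0
    rw [this]
    exact mul_ne_zero (pow_ne_zero _ hu) hD
  have hs' := wei_stable P' hD' (fun i j hij => Or.inl fun e => hij (hx
    (mul_left_cancel₀ (pow_ne_zero 2 hu) e)))
  have hui : u * u⁻¹ = 1 := mul_inv_cancel₀ hu
  let W' : WCov P' := ⟨u⁻¹ ^ 4 * W.α, u⁻¹ ^ 6 * W.β, fun i => u⁻¹ ^ 2 * W.γ i,
    fun i => u⁻¹ ^ 3 * W.ρ i, by
      have h0 := W.eul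
      change 4 * (u ^ 4 * P.a) * (u⁻¹ ^ 4 * W.α) + 6 * (u ^ 6 * P.b) * (u⁻¹ ^ 6 * W.β) +
        ∑ i, (2 * (u ^ 2 * P.x i) * (u⁻¹ ^ 2 * W.γ i) + 3 * (u ^ 3 * P.y i) *
          (u⁻¹ ^ 3 * W.ρ i)) = 0
      rw [← h0]
      have e4 : u ^ 4 * u⁻¹ ^ 4 = 1 := by rw [← mul_pow, hui, one_pow]
      have e6 : u ^ 6 * u⁻¹ ^ 6 = 1 := by rw [← mul_pow, hui, one_pow]
      have e2 : u ^ 2 * u⁻¹ ^ 2 = 1 := by rw [← mul_pow, hui, one_pow]
      have e3 : u ^ 3 * u⁻¹ ^ 3 = 1 := by rw [← mul_pow, hui, one_pow]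
      have hsum : ∑ i, (2 * (u ^ 2 * P.x i) * (u⁻¹ ^ 2 * W.γ i) + 3 * (u ^ 3 * P.y i) *
          (u⁻¹ ^ 3 * W.ρ i)) = ∑ i, (2 * P.x i * W.γ i + 3 * P.y i * W.ρ i) := by
        refine Finset.sum_congr rfl fun i _ => ?_
        linear_combination (2 * P.x i * W.γ i) * e2 + (3 * P.y i * W.ρ i) * e3
      rw [hsum]
      linear_combination (4 * P.a * W.α) * e4 + (6 * P.b * W.β) * e6⟩
  obtain ⟨l', hl', -⟩ := wcv P' (IsUnit.mk0 _ six_ne) W'
  have hc : ∀ (j : ℕ) (z : k), u ^ j * (u⁻¹ ^ j * z) = z := by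
    intro j z
    rw [← mul_assoc, ← mul_pow, hui, one_pow, one_mul]
  obtain ⟨f, hf⟩ := wna.2 u P P' W W' l l' (IsUnit.mk0 _ six_ne) (IsUnit.mk0 _ hu) hSc
    (hc 4 _) (hc 6 _) (fun i => hc 2 _) (fun i => hc 3 _) hl hl'
  have e2 : F.F k (Wei P') hs' l' = F.F k (Wei P) hs l :=
    F.nat k k (AlgHom.id ℂ k) (Wei P) (Wei P') hs hs' f l l' hf
  have hg := gval_of hm F P' hD' hs' W' l' hl' (fun i => u * ν i) (by
    intro i
    change u * ν i = (u⁻¹ ^ 2 * W.γ i) * (2 * (u ^ 3 * P.y i)) + (u⁻¹ ^ 3 * W.ρ i) *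
      (3 * (u ^ 2 * P.x i) ^ 2 + u ^ 4 * P.a)
    have e2 : u ^ 2 * u⁻¹ ^ 2 = 1 := by rw [← mul_pow, hui, one_pow]
    have e3 : u ^ 3 * u⁻¹ ^ 3 = 1 := by rw [← mul_pow, hui, one_pow]
    rw [hν i]
    linear_combination (-u * W.γ i * 2 * P.y i) * e2 - (u * W.ρ i * (3 * P.x i ^ 2 + P.a)) * e3)
  rw [e2, e1] at hg
  exact hg

end

end Pool.Agent.MG.W


end

section

/-!
# The values of a regular function at families of Weierstrass curves
-/

open CategoryTheory CategoryTheory.Limits AlgebraicGeometry TensorProduct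

namespace Pool.Agent.MG.W

section

variable {k : Type} [Field k] [IsAlgClosed k] [CharZero k] {m : ℕ}

/-- The equation at `x = c`. -/
noncomputable def fc (A B : Polynomial k) (c : k) : Polynomial k :=
  Polynomial.C (c ^ 3) + A * Polynomial.C c + B

/-- The product of the equations at `x = c i`. -/
noncomputable def hc (A B : Polynomial k) (c : Fin m → k) : Polynomial k := ∏ i, fc A B (c i)

section family

variable (A B : Polynomial k) (c : Fin m → k)

/-- The base ring. -/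
abbrev RR : Type := Localization.Away (hN m (hc A B c))

/-- The parameter. -/
noncomputable def tt : RR A B c :=
  algebraMap (MvPolynomial (Option (Fin m)) k) (RR A B c) (MvPolynomial.X none)

/-- The weights. -/
noncomputable def nn (i : Fin m) : RR A B c :=
  algebraMap (MvPolynomial (Option (Fin m)) k) (RR A B c) (MvPolynomial.X (some i))

theorem fc_unit (i : Fin m) : IsUnit (Polynomial.aeval (tt A B c) (fc A B (c i))) := by
  have h1 : IsUnit (algebraMap (MvPolynomial (Option (Fin m)) k) (RR A B c)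
      (hN m (hc A B c))) := IsLocalization.Away.algebraMap_isUnit _
  have h2 : algebraMap (MvPolynomial (Option (Fin m)) k) (RR A B c) (hN m (hc A B c)) =
      Polynomial.aeval (tt A B c) (hc A B c) :=
    (Polynomial.aeval_algebraMap_apply (RR A B c) (MvPolynomial.X none) (hc A B c)).symm
  have h3 : Polynomial.aeval (tt A B c) (hc A B c) =
      ∏ i, Polynomial.aeval (tt A B c) (fc A B (c i)) := map_prod _ _ _
  rw [h2, h3, IsUnit.prod_iff] at h1
  exact h1 i (Finset.mem_univ i)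

variable [Algebra ℂ k]

/-- The value at the family. -/
theorem fam_val (hm : 1 ≤ m) (F : Reg 1 (m + 1)) (s t : Polynomial k)
    (hst : Polynomial.C 4 * A * s + Polynomial.C 6 * B * t = 1) (hinj : Function.Injective c) :
    ∃ v : RR A B c, ∀ ψ : RR A B c →ₐ[k] k,
      4 * A.eval (ψ (tt A B c)) ^ 3 + 27 * B.eval (ψ (tt A B c)) ^ 2 ≠ 0 →
      Gval F (A.eval (ψ (tt A B c))) (B.eval (ψ (tt A B c))) (fun i => ψ (nn A B c i)) (ψ v) := by
  have h2 : (2 : k) ≠ 0 := two_ne_zero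
  obtain ⟨R', _, _, ι, y, ρ, hy, hlift, hρ⟩ := t_ROOT h2
    (fun i => Polynomial.aeval (tt A B c) (fc A B (c i)))
  have h6k : IsUnit (6 : R') := by
    have h := (IsUnit.mk0 (6 : k) six_ne).map (algebraMap k R')
    rwa [map_ofNat] at h
  have h2k : IsUnit (2 : R') := by
    have h := (IsUnit.mk0 (2 : k) h2).map (algebraMap k R')
    rwa [map_ofNat] at h
  -- the family
  let a' : R' := ι (Polynomial.aeval (tt A B c) A)
  let b' : R' := ι (Polynomial.aeval (tt A B c) B)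
  let P : WD m R' := ⟨a', b', fun i => algebraMap k R' (c i), y, by
    intro i
    rw [hy i]
    unfold fc
    simp only [map_add, map_mul, Polynomial.aeval_C, AlgHom.commutes, map_pow]
    ring⟩
  have hyu : ∀ i, IsUnit (y i) := by
    intro i
    have h := (fc_unit A B c i).map ι
    rw [← hy i] at h
    exact (isUnit_pow_iff two_ne_zero).1 h
  have hbez : 4 * a' * ι (Polynomial.aeval (tt A B c) s) +
      6 * b' * ι (Polynomial.aeval (tt A B c) t) = 1 := by
    have h := congrArg (fun p => ι (Polynomial.aeval (tt A B c) p)) hst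
    simp only [map_add, map_mul, map_one, Polynomial.aeval_C, AlgHom.commutes] at h
    rw [map_ofNat, map_ofNat] at h
    exact h
  have hOk : P.Ok := by
    refine ⟨h6k, ?_, hyu, ?_⟩
    · rw [Ideal.eq_top_iff_one, Ideal.mem_span_pair]
      refine ⟨4 * ι (Polynomial.aeval (tt A B c) s), 6 * ι (Polynomial.aeval (tt A B c) t), ?_⟩
      change 4 * ι (Polynomial.aeval (tt A B c) s) * a' +
        6 * ι (Polynomial.aeval (tt A B c) t) * b' = 1
      linear_combination hbez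
    · intro i j hij
      change IsUnit (algebraMap k R' (c i) - algebraMap k R' (c j))
      rw [← map_sub]
      exact (IsUnit.mk0 _ (sub_ne_zero.2 fun e => hij (hinj e))).map _
  have hst' : IsStable 1 (Wei P) := wst.1 P hOk
  have hyi : ∀ i, ∃ z : R', 2 * y i * z = 1 := fun i => (h2k.mul (hyu i)).exists_right_inv
  choose yi hyi using hyi
  -- the covector
  let γ : Fin m → R' := fun i => ι (nn A B c i) * yi i
  let S : R' := ∑ i, 2 * algebraMap k R' (c i) * γ i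
  let W : WCov P := ⟨-(ι (Polynomial.aeval (tt A B c) s) * S),
    -(ι (Polynomial.aeval (tt A B c) t) * S), γ, fun _ => 0, by
      change 4 * a' * (-(ι (Polynomial.aeval (tt A B c) s) * S)) +
        6 * b' * (-(ι (Polynomial.aeval (tt A B c) t) * S)) +
        ∑ i, (2 * algebraMap k R' (c i) * γ i + 3 * y i * 0) = 0
      simp only [mul_zero, add_zero]
      change _ + S = 0
      linear_combination (-S) * hbez⟩
  obtain ⟨l, hl, -⟩ := wcv P h6k W
  let v' : R' := val (k := k) F (Wei P) hst' l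
  refine ⟨ρ v', ?_⟩
  intro ψ hD
  -- the value at a point of `R'`
  have key : ∀ ψ' : R' →ₐ[k] k, ψ'.comp ι = ψ → Gval F (A.eval (ψ (tt A B c)))
      (B.eval (ψ (tt A B c))) (fun i => ψ (nn A B c i)) (ψ' v') := by
    intro ψ' hψ'
    have hι : ∀ r, ψ' (ι r) = ψ r := fun r => congrArg (fun f : RR A B c →ₐ[k] k => f r) hψ'
    have hpol : ∀ p : Polynomial k, ψ' (ι (Polynomial.aeval (tt A B c) p)) =
        p.eval (ψ (tt A B c)) := by
      intro p
      rw [hι, ← Polynomial.aeval_algHom_apply, Polynomial.coe_aeval_eq_eval]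
    have ha' : (P.map (ψ' : R' →+* k)).a = A.eval (ψ (tt A B c)) := hpol A
    have hb' : (P.map (ψ' : R' →+* k)).b = B.eval (ψ (tt A B c)) := hpol B
    have hx' : ∀ i, (P.map (ψ' : R' →+* k)).x i = c i := fun i => ψ'.commutes (c i)
    have hD' : 4 * (P.map (ψ' : R' →+* k)).a ^ 3 + 27 * (P.map (ψ' : R' →+* k)).b ^ 2 ≠ 0 := by
      rw [ha', hb']
      exact hD
    have hs := wei_stable (P.map (ψ' : R' →+* k)) hD' (fun i j hij => Or.inl fun e => by
      rw [hx', hx'] at e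
      exact hij (hinj e))
    let W' : WCov (P.map (ψ' : R' →+* k)) := ⟨ψ' W.α, ψ' W.β, fun i => ψ' (W.γ i),
      fun i => ψ' (W.ρ i), by
        have h := congrArg ψ' W.eul
        rw [map_add, map_add, map_sum, map_zero] at h
        refine Eq.trans ?_ h
        change 4 * ψ' P.a * ψ' W.α + 6 * ψ' P.b * ψ' W.β +
          ∑ i, (2 * ψ' (P.x i) * ψ' (W.γ i) + 3 * ψ' (P.y i) * ψ' (W.ρ i)) = _
        simp only [map_mul, map_add, map_ofNat]⟩
    obtain ⟨l', hl', -⟩ := wcv (P.map (ψ' : R' →+* k)) (IsUnit.mk0 _ six_ne) W'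
    obtain ⟨f, -, hf⟩ := wna.1 (ψ' : R' →+* k) P (P.map (ψ' : R' →+* k)) (P.map_bc _) W W' l l'
      h6k rfl rfl (fun _ => rfl) (fun _ => rfl) hl hl'
    have e1 : F.F k (Wei (P.map (ψ' : R' →+* k))) hs l' = ψ' v' :=
      val_nat' F ψ' hst' hs f l l' hf
    have hg := gval_of hm F (P.map (ψ' : R' →+* k)) hD' hs W' l' hl'
      (fun i => ψ (nn A B c i)) (by
        intro i
        change ψ (nn A B c i) = ψ' (ι (nn A B c i) * yi i) * (2 * ψ' (y i)) + ψ' 0 * _
        have h := congrArg ψ' (hyi i)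
        rw [map_mul, map_mul, map_one, map_ofNat] at h
        rw [map_mul, hι, map_zero, zero_mul, add_zero]
        linear_combination (-ψ (nn A B c i)) * h)
    rw [e1, ha', hb'] at hg
    exact hg
  -- existence of a point of `R'`
  have hroot : ∃ y0 : Fin m → k, ∀ i, y0 i ^ 2 =
      ψ (Polynomial.aeval (tt A B c) (fc A B (c i))) := by
    have : ∀ i, ∃ y0 : k, y0 ^ 2 = ψ (Polynomial.aeval (tt A B c) (fc A B (c i))) := fun i =>
      IsAlgClosed.exists_pow_nat_eq _ (by norm_num)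
    choose y0 hy0 using this
    exact ⟨y0, hy0⟩
  obtain ⟨y0, hy0⟩ := hroot
  obtain ⟨ψ₀, hψ₀, -⟩ := hlift ψ y0 hy0
  have h0 := key ψ₀ hψ₀
  have h1 : ψ (ρ v') = ψ₀ v' := hρ v' ψ (ψ₀ v') (fun ψ' hψ' =>
    gval_unique hm F _ _ hD _ _ _ (key ψ' hψ') h0) ⟨y0, hy0⟩
  rw [h1]
  exact h0

end family

variable [Algebra ℂ k]

/-- The point of the base ring with given coordinates. -/
theorem exists_psi (A B : Polynomial k) (c : Fin m → k) (τ : k) (ν : Fin m → k)
    (h : (hc A B c).eval τ ≠ 0) : ∃ ψ : RR A B c →ₐ[k] k,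
      ∀ p : MvPolynomial (Option (Fin m)) k, ψ (algebraMap _ _ p) =
        MvPolynomial.eval (fun o => o.elim τ ν) p := by
  let θ : MvPolynomial (Option (Fin m)) k →ₐ[k] k :=
    MvPolynomial.aeval (fun o : Option (Fin m) => o.elim τ ν)
  have h1 : θ (hN m (hc A B c)) = (hc A B c).eval τ := by
    unfold hN
    rw [← Polynomial.aeval_algHom_apply]
    have : θ (MvPolynomial.X none) = τ := by simp [θ]
    rw [this, Polynomial.coe_aeval_eq_eval]
  refine ⟨IsLocalization.liftAlgHom (M := Submonoid.powers (hN m (hc A B c))) (f := θ) ?_, ?_⟩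
  · rintro ⟨y, j, rfl⟩
    change IsUnit (θ ((hN m (hc A B c)) ^ j))
    rw [map_pow, h1]
    exact (IsUnit.mk0 _ h).pow j
  · intro p
    rw [IsLocalization.liftAlgHom_apply, IsLocalization.lift_eq]
    exact RingHom.congr_fun (MvPolynomial.coe_aeval_eq_eval _) p

/-- The values at a family of equations are given by a polynomial. -/
theorem fam_poly (hm : 1 ≤ m) (F : Reg 1 (m + 1)) (A B s t : Polynomial k)
    (hst : Polynomial.C 4 * A * s + Polynomial.C 6 * B * t = 1)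
    (hD : Polynomial.C 4 * A ^ 3 + Polynomial.C 27 * B ^ 2 ≠ 0)
    (c c' : Fin m → k) (hc1 : Function.Injective c) (hc2 : Function.Injective c')
    (hn : ∀ i, fc A B (c i) ≠ 0) (hn' : ∀ i, fc A B (c' i) ≠ 0)
    (hcop : ∀ i j, IsCoprime (fc A B (c i)) (fc A B (c' j))) :
    ∃ q : MvPolynomial (Option (Fin m)) k, ∀ (τ : k) (ν : Fin m → k),
      4 * A.eval τ ^ 3 + 27 * B.eval τ ^ 2 ≠ 0 →
      Gval F (A.eval τ) (B.eval τ) ν (MvPolynomial.eval (fun o => o.elim τ ν) q) := by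
  obtain ⟨v, hv⟩ := fam_val A B c hm F s t hst hc1
  obtain ⟨v', hv'⟩ := fam_val A B c' hm F s t hst hc2
  have hcop' : IsCoprime (hc A B c) (hc A B c') :=
    IsCoprime.prod_left fun i _ => IsCoprime.prod_right fun j _ => hcop i j
  have hDe : ∀ τ : k, (Polynomial.C 4 * A ^ 3 + Polynomial.C 27 * B ^ 2).eval τ =
      4 * A.eval τ ^ 3 + 27 * B.eval τ ^ 2 := by
    intro τ
    simp
  have hν : ∀ (ψ : RR A B c →ₐ[k] k) (ψ' : RR A B c' →ₐ[k] k),
      (∀ p : MvPolynomial (Option (Fin m)) k, ψ (algebraMap _ _ p) = ψ' (algebraMap _ _ p)) →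
      (fun i => ψ (nn A B c i)) = (fun i => ψ' (nn A B c' i)) := fun ψ ψ' h =>
    funext fun i => h _
  obtain ⟨q, hq, hq'⟩ := t_DEN (hc A B c) (hc A B c')
    (Polynomial.C 4 * A ^ 3 + Polynomial.C 27 * B ^ 2) hcop'
    (Finset.prod_ne_zero_iff.2 fun i _ => hn i) (Finset.prod_ne_zero_iff.2 fun i _ => hn' i) hD
    v v' (by
      intro ψ ψ' h hne
      have e : ψ (tt A B c) = ψ' (tt A B c') := h _
      rw [hDe] at hne
      have g1 := hv ψ hne
      have hne' : 4 * A.eval (ψ' (tt A B c')) ^ 3 + 27 * B.eval (ψ' (tt A B c')) ^ 2 ≠ 0 := by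
        rw [← e]
        exact hne
      have g2 := hv' ψ' hne'
      rw [← e, ← hν ψ ψ' h] at g2
      exact gval_unique hm F _ _ hne _ _ _ g1 g2)
  refine ⟨q, ?_⟩
  intro τ ν hne
  by_cases h0 : (hc A B c).eval τ = 0
  · have h1 : (hc A B c').eval τ ≠ 0 := by
      obtain ⟨x, y, hxy⟩ := hcop'
      intro h1
      have := congrArg (Polynomial.eval τ) hxy
      simp [h0, h1] at this
    obtain ⟨ψ, hψ⟩ := exists_psi A B c' τ ν h1
    have e : ψ (tt A B c') = τ := by
      unfold tt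
      rw [hψ]
      simp
    have eν : (fun i => ψ (nn A B c' i)) = ν := by
      funext i
      unfold nn
      rw [hψ]
      simp
    have g := hv' ψ (by rw [e]; exact hne)
    rw [e, eν, hq', hψ] at g
    exact g
  · obtain ⟨ψ, hψ⟩ := exists_psi A B c τ ν h0
    have e : ψ (tt A B c) = τ := by
      unfold tt
      rw [hψ]
      simp
    have eν : (fun i => ψ (nn A B c i)) = ν := by
      funext i
      unfold nn
      rw [hψ]
      simp
    have g := hv ψ (by rw [e]; exact hne)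
    rw [e, eν, hq, hψ] at g
    exact g

theorem cop_of_det (u w u' w' : k) (h : u * w' - u' * w ≠ 0) :
    IsCoprime (Polynomial.C u * Polynomial.X + Polynomial.C w)
      (Polynomial.C u' * Polynomial.X + Polynomial.C w') := by
  refine ⟨-Polynomial.C (u' / (u * w' - u' * w)), Polynomial.C (u / (u * w' - u' * w)), ?_⟩
  have h1 : -(u' / (u * w' - u' * w)) * u + u / (u * w' - u' * w) * u' = 0 := by ring
  have h2 : -(u' / (u * w' - u' * w)) * w + u / (u * w' - u' * w) * w' = 1 := by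
    field_simp
    ring
  have e : -Polynomial.C (u' / (u * w' - u' * w)) * (Polynomial.C u * Polynomial.X +
      Polynomial.C w) + Polynomial.C (u / (u * w' - u' * w)) * (Polynomial.C u' * Polynomial.X +
      Polynomial.C w') = Polynomial.C (-(u' / (u * w' - u' * w)) * u +
        u / (u * w' - u' * w) * u') * Polynomial.X + Polynomial.C (-(u' / (u * w' - u' * w)) * w +
        u / (u * w' - u' * w) * w') := by
    simp only [map_add, map_mul, map_neg]
    ring
  rw [e, h1, h2]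
  simp

theorem lin_ne_zero (u w : k) (h : u ≠ 0) : Polynomial.C u * Polynomial.X + Polynomial.C w ≠ 0 := by
  intro e
  have := congrArg (fun p => Polynomial.coeff p 1) e
  simp at this
  exact h this

/-- The equations `y² = x³ + x + b`. -/
theorem poly1 (hm : 1 ≤ m) (F : Reg 1 (m + 1)) :
    ∃ q : MvPolynomial (Option (Fin m)) k, ∀ (τ : k) (ν : Fin m → k),
      4 * (1 : k) ^ 3 + 27 * τ ^ 2 ≠ 0 →
      Gval F 1 τ ν (MvPolynomial.eval (fun o => o.elim τ ν) q) := by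
  have h4 : (4 : k) ≠ 0 := by exact_mod_cast (by norm_num : (4 : ℕ) ≠ 0)
  have hfc : ∀ c : k, fc 1 Polynomial.X c =
      Polynomial.C 1 * Polynomial.X + Polynomial.C (c ^ 3 + c) := by
    intro c
    unfold fc
    rw [map_add, map_one]
    ring
  have hdet : ∀ i j : ℕ, i < j → (1 : k) * ((j : k) ^ 3 + j) - 1 * ((i : k) ^ 3 + i) ≠ 0 := by
    intro i j hij h
    have h1 : (i : k) ^ 3 + i = (j : k) ^ 3 + j := by linear_combination -h
    have h2 : i ^ 3 + i = j ^ 3 + j := by exact_mod_cast h1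
    have h3 : i ^ 3 + i < j ^ 3 + j := by
      have := Nat.pow_lt_pow_left hij (n := 3) (by norm_num)
      omega
    omega
  have key := fam_poly hm F (1 : Polynomial k) Polynomial.X (Polynomial.C (1 / 4)) 0 (by
      rw [mul_zero, add_zero, mul_one, ← Polynomial.C_mul]
      have : (4 : k) * (1 / 4) = 1 := by field_simp
      rw [this, map_one]) (by
      intro e
      have := congrArg (Polynomial.eval 0) e
      simp at this)
    (fun i => (i.1 : k)) (fun i => ((m + i.1 : ℕ) : k))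
    (fun i j h => Fin.ext (by
      have h0 : ((i.1 : ℕ) : k) = ((j.1 : ℕ) : k) := h
      exact_mod_cast h0))
    (fun i j h => Fin.ext (by
      have h0 : ((m + i.1 : ℕ) : k) = ((m + j.1 : ℕ) : k) := h
      have h1 : m + i.1 = m + j.1 := by exact_mod_cast h0
      omega))
    (fun i => by
      rw [hfc]
      exact lin_ne_zero _ _ one_ne_zero)
    (fun i => by
      rw [hfc]
      exact lin_ne_zero _ _ one_ne_zero)
    (fun i j => by
      rw [hfc, hfc]
      refine cop_of_det _ _ _ _ ?_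
      exact hdet i.1 (m + j.1) (by omega))
  obtain ⟨q, hq⟩ := key
  refine ⟨q, fun τ ν h => ?_⟩
  have := hq τ ν (by simpa using h)
  simpa using this

/-- The equations `y² = x³ + a x + 1`. -/
theorem poly2 (hm : 1 ≤ m) (F : Reg 1 (m + 1)) :
    ∃ q : MvPolynomial (Option (Fin m)) k, ∀ (τ : k) (ν : Fin m → k),
      4 * τ ^ 3 + 27 * (1 : k) ^ 2 ≠ 0 →
      Gval F τ 1 ν (MvPolynomial.eval (fun o => o.elim τ ν) q) := by
  have h6 : (6 : k) ≠ 0 := six_ne
  have h27 : (27 : k) ≠ 0 := by exact_mod_cast (by norm_num : (27 : ℕ) ≠ 0)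
  have hfc : ∀ c : k, fc Polynomial.X 1 c =
      Polynomial.C c * Polynomial.X + Polynomial.C (c ^ 3 + 1) := by
    intro c
    unfold fc
    rw [map_add, map_one]
    ring
  have hdet : ∀ i j : ℕ, 1 ≤ i → i < j →
      (i : k) * ((j : k) ^ 3 + 1) - j * ((i : k) ^ 3 + 1) ≠ 0 := by
    intro i j hi hij h
    have h1 : (i : k) * ((j : k) ^ 3 + 1) = (j : k) * ((i : k) ^ 3 + 1) := by
      linear_combination h
    have h2 : i * (j ^ 3 + 1) = j * (i ^ 3 + 1) := by exact_mod_cast h1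
    have h3 : j * (i ^ 3 + 1) < i * (j ^ 3 + 1) := by
      obtain ⟨d, rfl⟩ := Nat.exists_eq_add_of_lt hij
      nlinarith [Nat.zero_le d, Nat.zero_le i, mul_pos (show 0 < i by omega) (show 0 < i by omega),
        Nat.zero_le (i * d), Nat.zero_le (i * i * d), Nat.zero_le (i * d * d),
        Nat.zero_le (i * i * d * d), Nat.zero_le (i * i * i * d), Nat.zero_le (i * d * d * d),
        Nat.zero_le (i * i)]
    omega
  have key := fam_poly hm F (Polynomial.X : Polynomial k) 1 0 (Polynomial.C (1 / 6)) (by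
      rw [mul_zero, zero_add, mul_one, ← Polynomial.C_mul]
      have : (6 : k) * (1 / 6) = 1 := by field_simp
      rw [this, map_one]) (by
      intro e
      have := congrArg (Polynomial.eval 0) e
      simp at this)
    (fun i => ((i.1 + 1 : ℕ) : k)) (fun i => ((m + i.1 + 1 : ℕ) : k))
    (fun i j h => Fin.ext (by
      have h0 : ((i.1 + 1 : ℕ) : k) = ((j.1 + 1 : ℕ) : k) := h
      have h1 : i.1 + 1 = j.1 + 1 := by exact_mod_cast h0
      omega))
    (fun i j h => Fin.ext (by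
      have h0 : ((m + i.1 + 1 : ℕ) : k) = ((m + j.1 + 1 : ℕ) : k) := h
      have h1 : m + i.1 + 1 = m + j.1 + 1 := by exact_mod_cast h0
      omega))
    (fun i => by
      rw [hfc]
      exact lin_ne_zero _ _ (by exact_mod_cast (by omega : i.1 + 1 ≠ 0)))
    (fun i => by
      rw [hfc]
      exact lin_ne_zero _ _ (by exact_mod_cast (by omega : m + i.1 + 1 ≠ 0)))
    (fun i j => by
      rw [hfc, hfc]
      refine cop_of_det _ _ _ _ ?_
      exact hdet (i.1 + 1) (m + j.1 + 1) (by omega) (by omega))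
  obtain ⟨q, hq⟩ := key
  refine ⟨q, fun τ ν h => ?_⟩
  have := hq τ ν (by simpa using h)
  simpa using this

/-- All values are equal. -/
theorem gval_const (hm : 1 ≤ m) (F : Reg 1 (m + 1)) :
    ∃ c : k, ∀ (a b : k) (ν : Fin m → k), 4 * a ^ 3 + 27 * b ^ 2 ≠ 0 → Gval F a b ν c := by
  obtain ⟨q, hq⟩ := poly1 (k := k) hm F
  obtain ⟨q', hq'⟩ := poly2 (k := k) hm F
  have h27 : (27 : k) ≠ 0 := by exact_mod_cast (by norm_num : (27 : ℕ) ≠ 0)
  obtain ⟨c, hc, hc'⟩ := t_WTS q q'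
    (Polynomial.C 4 * Polynomial.X ^ 12 + Polynomial.C 27 : Polynomial k) (by
      intro e
      have := congrArg (Polynomial.eval 0) e
      simp at this) (by
      intro u ν hu hD
      have hD1 : 4 * u ^ 12 + 27 ≠ 0 := by simpa using hD
      have hui : u * u⁻¹ = 1 := mul_inv_cancel₀ hu
      have hD2 : 4 * (1 : k) ^ 3 + 27 * (u⁻¹ ^ 6) ^ 2 ≠ 0 := by
        intro h
        apply hD1
        have e12 : u ^ 12 * u⁻¹ ^ 12 = 1 := by rw [← mul_pow, hui, one_pow]
        linear_combination (u ^ 12) * h - 27 * e12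
      have hD3 : 4 * (u ^ 4) ^ 3 + 27 * (1 : k) ^ 2 ≠ 0 := by
        intro h
        apply hD1
        linear_combination h
      have g1 := gval_scale hm F 1 (u⁻¹ ^ 6) hD2 ν _ u hu (hq (u⁻¹ ^ 6) ν hD2)
      have e6 : u ^ 6 * u⁻¹ ^ 6 = 1 := by rw [← mul_pow, hui, one_pow]
      rw [mul_one, e6] at g1
      exact gval_unique hm F _ _ hD3 _ _ _ g1 (hq' (u ^ 4) (fun i => u * ν i) hD3))
  refine ⟨c, ?_⟩
  intro a b ν hD
  -- reduction to `b = 1` or `a = 1`
  have back : ∀ (u : k) (_ : u ≠ 0), Gval F (u ^ 4 * a) (u ^ 6 * b) (fun i => u * ν i) c →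
      Gval F a b ν c := by
    intro u hu h
    have hui : u⁻¹ * u = 1 := inv_mul_cancel₀ hu
    have hD' : 4 * (u ^ 4 * a) ^ 3 + 27 * (u ^ 6 * b) ^ 2 ≠ 0 := by
      have : 4 * (u ^ 4 * a) ^ 3 + 27 * (u ^ 6 * b) ^ 2 =
        u ^ 12 * (4 * a ^ 3 + 27 * b ^ 2) := by ring
      rw [this]
      exact mul_ne_zero (pow_ne_zero _ hu) hD
    have g := gval_scale hm F _ _ hD' _ c u⁻¹ (inv_ne_zero hu) h
    have e4 : u⁻¹ ^ 4 * (u ^ 4 * a) = a := by rw [← mul_assoc, ← mul_pow, hui, one_pow, one_mul]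
    have e6 : u⁻¹ ^ 6 * (u ^ 6 * b) = b := by rw [← mul_assoc, ← mul_pow, hui, one_pow, one_mul]
    have e1 : (fun i => u⁻¹ * (u * ν i)) = ν := by
      funext i
      rw [← mul_assoc, hui, one_mul]
    rw [e4, e6, e1] at g
    exact g
  by_cases hb : b = 0
  · have ha : a ≠ 0 := (ab_ne hD).resolve_right fun h => h hb
    obtain ⟨u, hu⟩ : ∃ u : k, u ^ 4 = a⁻¹ := IsAlgClosed.exists_pow_nat_eq _ (by norm_num)
    have hu0 : u ≠ 0 := by
      rintro rfl
      rw [zero_pow (by norm_num)] at hu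
      exact inv_ne_zero ha hu.symm
    refine back u hu0 ?_
    rw [hu, inv_mul_cancel₀ ha, hb, mul_zero]
    have hD0 : 4 * (1 : k) ^ 3 + 27 * (0 : k) ^ 2 ≠ 0 := by
      have h4 : (4 : k) ≠ 0 := by exact_mod_cast (by norm_num : (4 : ℕ) ≠ 0)
      simpa using h4
    have g := hq 0 (fun i => u * ν i) hD0
    rw [hc, MvPolynomial.eval_C] at g
    exact g
  · obtain ⟨u, hu⟩ : ∃ u : k, u ^ 6 = b⁻¹ := IsAlgClosed.exists_pow_nat_eq _ (by norm_num)
    have hu0 : u ≠ 0 := by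
      rintro rfl
      rw [zero_pow (by norm_num)] at hu
      exact inv_ne_zero hb hu.symm
    refine back u hu0 ?_
    rw [hu, inv_mul_cancel₀ hb]
    have hD0 : 4 * (u ^ 4 * a) ^ 3 + 27 * (1 : k) ^ 2 ≠ 0 := by
      have : 4 * (u ^ 4 * a) ^ 3 + 27 * (u ^ 6 * b) ^ 2 =
        u ^ 12 * (4 * a ^ 3 + 27 * b ^ 2) := by ring
      rw [hu, inv_mul_cancel₀ hb] at this
      rw [this]
      exact mul_ne_zero (pow_ne_zero _ hu0) hD
    have g := hq' (u ^ 4 * a) (fun i => u * ν i) hD0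
    rw [hc', MvPolynomial.eval_C] at g
    exact g

end

end Pool.Agent.MG.W


end

section

/-!
# The theorem for pointed curves of genus one
-/

open CategoryTheory CategoryTheory.Limits AlgebraicGeometry TensorProduct

namespace Pool.Agent.MG.W

section

variable {k : Type} [Field k] [IsAlgClosed k] [Algebra ℂ k] {m : ℕ}

/-- All values of a regular function at the smooth curves over `k` are equal. -/
theorem genus_one_k [CharZero k] (hm : 1 ≤ m) (F : Reg 1 (m + 1)) :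
    ∃ c : k, ∀ (C : Fam (m + 1) k) (hC : IsStable 1 C) (_ : SmoothOfRelativeDimension 1 C.π)
      (l : Cov 1 C), F.F k C hC l = c := by
  obtain ⟨c, hc⟩ := gval_const (k := k) hm F
  refine ⟨c, ?_⟩
  intro C hC hsm l
  obtain ⟨P, hD, f, hf⟩ := t_W0 C hC hsm
  -- the points are distinct
  have hdist : ∀ i j, i ≠ j → P.x i ≠ P.x j ∨ P.y i ≠ P.y j := by
    intro i j hij
    by_contra h
    push Not at h
    have e1 : pt1 P i = pt1 P j := by
      refine hom1_ext ?_ ?_ ?_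
      · intro r
        rw [pt1, lift1_b, pt1, lift1_b]
      · rw [pt1, lift1_x, pt1, lift1_x, h.1]
      · rw [pt1, lift1_y, pt1, lift1_y, h.2]
    have e2 : (Wei P).σ i.succ = (Wei P).σ j.succ := by
      change spMap (pt1 P i) ≫ WX.in1 k P.a P.b = spMap (pt1 P j) ≫ WX.in1 k P.a P.b
      rw [e1]
    have e3 : C.σ i.succ ≫ f.f = C.σ j.succ ≫ f.f := by
      rw [f.sec, f.sec, e2]
    exact (CST.stableCurve hC).distinct i.succ j.succ
      (fun e => hij (Fin.succ_injective _ e)) ((cancel_mono f.f).1 e3)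
  have hs := wei_stable P hD hdist
  rw [val_transport F f hs hC l]
  obtain ⟨Φ, hW, hΦ⟩ := wfl P.a P.b six_ne hD
  have Q : E1.Cur (Wei P) 1 := ⟨hs, wei_smooth P hD⟩
  obtain ⟨b, hb, -⟩ := E1.hasMv_ex Q Φ hΦ 0 (⟨0, hm⟩ : Fin m).succ (Fin.succ_ne_zero _)
    (covPre f l)
  exact hc P.a P.b (fun i => b i.succ) hD P.x P.y P.eq hs Φ hΦ hW (covPre f l)
    (fun i d hd => hb i.succ d hd)

/-- Stable pointed curves of genus one over `ℂ` and the values at their base changes. -/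
theorem base_change (hm : 1 ≤ m) (F : Reg 1 (m + 1)) (c : ℂ)
    (hc : ∀ (C : Fam (m + 1) ℂ) (hC : IsStable 1 C) (_ : SmoothOfRelativeDimension 1 C.π)
      (l : Cov 1 C), F.F ℂ C hC l = c) [CharZero k] :
    ∃ (C : Fam (m + 1) k) (hC : IsStable 1 C) (_ : SmoothOfRelativeDimension 1 C.π)
      (l : Cov 1 C), F.F k C hC l = algebraMap ℂ k c := by
  obtain ⟨P, W, ha, hb, hy, hx, -⟩ := exists_inst (k := ℂ) (m := m) 1 0 (Or.inl one_ne_zero) 0
  have hD : 4 * P.a ^ 3 + 27 * P.b ^ 2 ≠ 0 := by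
    rw [ha, hb]
    norm_num
  have hs := wei_stable P hD (fun i j hij => Or.inl fun e => hij (hx e))
  obtain ⟨l, hl, -⟩ := wcv P (IsUnit.mk0 _ six_ne) W
  have hD' : 4 * (P.map (algebraMap ℂ k)).a ^ 3 + 27 * (P.map (algebraMap ℂ k)).b ^ 2 ≠ 0 := by
    change 4 * (algebraMap ℂ k P.a) ^ 3 + 27 * (algebraMap ℂ k P.b) ^ 2 ≠ 0
    rw [ha, hb, map_one, map_zero]
    have h4 : (4 : k) ≠ 0 := by exact_mod_cast (by norm_num : (4 : ℕ) ≠ 0)
    simpa using h4
  have hs' := wei_stable (P.map (algebraMap ℂ k)) hD' (fun i j hij => Or.inl fun e =>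
    hij (hx ((algebraMap ℂ k).injective e)))
  let W' : WCov (P.map (algebraMap ℂ k)) := ⟨algebraMap ℂ k W.α, algebraMap ℂ k W.β,
    fun i => algebraMap ℂ k (W.γ i), fun i => algebraMap ℂ k (W.ρ i), by
      have h := congrArg (algebraMap ℂ k) W.eul
      rw [map_add, map_add, map_sum, map_zero] at h
      refine Eq.trans ?_ h
      change 4 * algebraMap ℂ k P.a * algebraMap ℂ k W.α +
        6 * algebraMap ℂ k P.b * algebraMap ℂ k W.β +
        ∑ i, (2 * algebraMap ℂ k (P.x i) * algebraMap ℂ k (W.γ i) +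
          3 * algebraMap ℂ k (P.y i) * algebraMap ℂ k (W.ρ i)) = _
      simp only [map_mul, map_add, map_ofNat]⟩
  obtain ⟨l', hl', -⟩ := wcv (P.map (algebraMap ℂ k)) (IsUnit.mk0 _ six_ne) W'
  obtain ⟨f, -, hf⟩ := wna.1 (algebraMap ℂ k) P (P.map (algebraMap ℂ k)) (P.map_bc _) W W' l l'
    (IsUnit.mk0 _ six_ne) rfl rfl (fun _ => rfl) (fun _ => rfl) hl hl'
  refine ⟨Wei (P.map (algebraMap ℂ k)), hs', wei_smooth _ hD', l', ?_⟩
  rw [← hc (Wei P) hs (wei_smooth P hD) l]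
  exact F.nat ℂ k (Algebra.ofId ℂ k) (Wei P) (Wei (P.map (algebraMap ℂ k))) hs hs' f l l' hf

end

/-- Regular functions on `T^*M̄_{1,n}`, `n ≥ 2`, are constant on the locus of smooth curves. -/
theorem genus_one (n : ℕ) (hn : 2 ≤ n) (F : Reg 1 n) : ∃ c : ℂ, ∀ (k : Type) [Field k]
    [IsAlgClosed k] [Algebra ℂ k] (C : Fam n k) (hC : IsStable 1 C) (_ : Smooth C.π)
    (l : Cov 1 C), F.F k C hC l = algebraMap ℂ k c := by
  obtain ⟨m, rfl⟩ : ∃ m, n = m + 1 := ⟨n - 1, by omega⟩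
  have hm : 1 ≤ m := by omega
  obtain ⟨c, hc⟩ := genus_one_k (k := ℂ) hm F
  refine ⟨c, ?_⟩
  intro k _ _ _ C hC hs l
  have : CharZero k := charZero_of_injective_algebraMap (algebraMap ℂ k).injective
  have hs1 : SmoothOfRelativeDimension 1 C.π :=
    SmNod.smoothOfRelativeDimension_one C.π (CST.stableCurve hC).nodal
  obtain ⟨c', hc'⟩ := genus_one_k (k := k) hm F
  obtain ⟨C₀, hC₀, hs₀, l₀, h₀⟩ := base_change (k := k) hm F c hc
  rw [hc' C hC hs1 l, ← hc' C₀ hC₀ hs₀ l₀, h₀]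

end Pool.Agent.MG.W


end

section

/-!
# Weierstrass curves with one marked point: covectors and values of regular functions
-/

open CategoryTheory CategoryTheory.Limits AlgebraicGeometry TensorProduct

namespace Pool.Agent.MG.One

open Pool.Agent.MG.W Pool.Agent.MG.W.WCV

section

variable {B : Type} [CommRing B]

/-- The Weierstrass curve `y² = x³ + a x + b`. -/
def WZ (a b : B) : WD 0 B := ⟨a, b, Fin.elim0, Fin.elim0, fun i => i.elim0⟩

theorem WZ_eq (P : WD 0 B) : WZ P.a P.b = P := by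
  obtain ⟨a, b, x, y, e⟩ := P
  have hx : x = Fin.elim0 := funext fun i => i.elim0
  have hy : y = Fin.elim0 := funext fun i => i.elim0
  subst hx
  subst hy
  rfl

theorem WZ_ok {a b : B} (h6 : IsUnit (6 : B)) (h : Ideal.span {a, b} = ⊤) : (WZ a b).Ok :=
  ⟨h6, h, fun i => i.elim0, fun i => i.elim0⟩

/-- The covector data with coefficient `τ`. -/
def WT (a b τ : B) : WCov (WZ a b) :=
  ⟨-3 * b * τ, 2 * a * τ, Fin.elim0, Fin.elim0, by
    simp only [WZ, Finset.univ_eq_empty, Finset.sum_empty, add_zero]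
    ring⟩

/-- The covector with coefficient `τ`. -/
noncomputable def cov (h6 : IsUnit (6 : B)) (a b τ : B) : Cov 1 (Wei (WZ a b)) :=
  (wcv (WZ a b) h6 (WT a b τ)).choose

theorem cov_is (h6 : IsUnit (6 : B)) (a b τ : B) : IsWC (WT a b τ) (cov h6 a b τ) :=
  (wcv (WZ a b) h6 (WT a b τ)).choose_spec.1

theorem isUnit6_map {B' : Type} [CommRing B'] (φ : B →+* B') (h : IsUnit (6 : B)) :
    IsUnit (6 : B') := by
  have h' := h.map φ
  rwa [map_ofNat] at h'

/-- `x + ε y` -/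
def ep (x y : B) : Eps B := TrivSqZeroExt.inl x + TrivSqZeroExt.inr y

@[simp]
theorem fst_ep (x y : B) : (ep x y).fst = x := by simp [ep]

@[simp]
theorem snd_ep (x y : B) : (ep x y).snd = y := by simp [ep]

theorem fst_mul' (z w : Eps B) : (z * w).fst = z.fst * w.fst := TrivSqZeroExt.fst_mul z w

theorem snd_mul' (z w : Eps B) : (z * w).snd = z.fst * w.snd + z.snd * w.fst := by
  rw [TrivSqZeroExt.snd_mul]
  simp [mul_comm]

theorem span_ep {a b : B} (h : Ideal.span {a, b} = ⊤) (α β : B) :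
    Ideal.span {ep a α, ep b β} = ⊤ := by
  rw [Ideal.eq_top_iff_one, Ideal.mem_span_pair] at h ⊢
  obtain ⟨r, s, hrs⟩ := h
  refine ⟨ep r (-(r * α + s * β) * r), ep s (-(r * α + s * β) * s), ?_⟩
  refine TrivSqZeroExt.ext ?_ ?_
  · rw [TrivSqZeroExt.fst_add, fst_mul', fst_mul', fst_ep, fst_ep, fst_ep, fst_ep, hrs,
      TrivSqZeroExt.fst_one]
  · rw [TrivSqZeroExt.snd_add, snd_mul', snd_mul', fst_ep, fst_ep, fst_ep, fst_ep, snd_ep,
      snd_ep, snd_ep, snd_ep, TrivSqZeroExt.snd_one]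
    linear_combination (-(r * α + s * β)) * hrs

/-- The base change arrow of Weierstrass curves. -/
noncomputable def warr {B' : Type} [CommRing B'] (φ : B →+* B') {a b : B} {a' b' : B'}
    (ha : a' = φ a) (hb : b' = φ b) : Arrow φ (Wei (WZ a' b')) (Wei (WZ a b)) :=
  ⟨wmap φ (P := WZ a b) (P' := WZ a' b') ⟨ha, hb, fun i => i.elim0, fun i => i.elim0⟩,
    t_WBC φ ha hb, fun i => wmap_sec φ _ i⟩

theorem warr_f {B' : Type} [CommRing B'] (φ : B →+* B') {a b : B} {a' b' : B'}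
    (ha : a' = φ a) (hb : b' = φ b) : (warr φ ha hb).f = WX.map φ ha hb := rfl

theorem warr_comp {B' B'' : Type} [CommRing B'] [CommRing B''] (φ : B →+* B') (ψ : B' →+* B'')
    {χ : B →+* B''} (hχ : ψ.comp φ = χ) {a b : B} {a' b' : B'} {a'' b'' : B''}
    (ha : a' = φ a) (hb : b' = φ b) (ha' : a'' = ψ a') (hb' : b'' = ψ b') (hc : a'' = χ a)
    (hd : b'' = χ b) : (warr ψ ha' hb').f ≫ (warr φ ha hb).f = (warr χ hc hd).f :=
  map_comp φ ψ ha hb ha' hb' hχ hc hd

/-- The deformation `(a + ε α, b + ε β)`. -/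
noncomputable def dW (h6 : IsUnit (6 : B)) {a b : B} (h : Ideal.span {a, b} = ⊤) (α β : B) :
    Defo 1 (Wei (WZ a b)) :=
  ⟨Wei (WZ (ep a α) (ep b β)),
    wst.1 _ (WZ_ok (isUnit6_map (algebraMap B (Eps B)) h6) (span_ep h α β)),
    warr (eps0 B) (fst_ep a α).symm (fst_ep b β).symm⟩

/-- Every deformation is isomorphic to one of the `dW`. -/
theorem exists_dW (h6 : IsUnit (6 : B)) {a b : B} (h : Ideal.span {a, b} = ⊤)
    (d : Defo 1 (Wei (WZ a b))) : ∃ (α β : B) (f : Arrow (RingHom.id (Eps B)) d.y (dW h6 h α β).y),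
      d.r.f ≫ f.f = (dW h6 h α β).r.f := by
  obtain ⟨P', hb, f, hf⟩ := we (sqEps B) (WZ a b) h6 d.thk
  have hb' : WD.Bc (eps0 B) P' (WZ a b) := hb
  refine ⟨P'.a.snd, P'.b.snd, ?_⟩
  have ea : ep a P'.a.snd = P'.a := by
    refine TrivSqZeroExt.ext ?_ ?_
    · rw [fst_ep]
      exact hb'.a
    · rw [snd_ep]
  have eb : ep b P'.b.snd = P'.b := by
    refine TrivSqZeroExt.ext ?_ ?_
    · rw [fst_ep]
      exact hb'.b
    · rw [snd_ep]
  have eP : WZ (ep a P'.a.snd) (ep b P'.b.snd) = P' := by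
    rw [ea, eb, WZ_eq]
  have key : ∀ (Q : WD 0 (Eps B)) (_ : Q = P') (hQ : WD.Bc (eps0 B) Q (WZ a b)),
      ∃ g : Arrow (RingHom.id (Eps B)) d.y (Wei Q), d.r.f ≫ g.f = wmap (eps0 B) hQ := by
    intro Q hQ hb
    subst hQ
    exact ⟨f, hf⟩
  exact key _ eP ⟨(fst_ep _ _).symm, (fst_ep _ _).symm, fun i => i.elim0, fun i => i.elim0⟩

theorem l_scale (h6 : IsUnit (6 : B)) {a b : B} (h : Ideal.span {a, b} = ⊤)
    (l : Cov 1 (Wei (WZ a b))) (c α β : B) :
    l.l (dW h6 h (c * α) (c * β)) = c * l.l (dW h6 h α β) := by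
  have e : ∀ x y : B, ep x (c * y) = epsScale c (ep x y) := by
    intro x y
    refine TrivSqZeroExt.ext ?_ ?_
    · simp
    · simp
  refine l.scale c (dW h6 h α β) (dW h6 h (c * α) (c * β)) (warr (epsScale c) (e _ _) (e _ _)) ?_
  refine warr_comp (epsScale c) (eps0 B) ?_ (e _ _) (e _ _) (fst_ep _ _).symm (fst_ep _ _).symm
    (fst_ep _ _).symm (fst_ep _ _).symm
  refine RingHom.ext fun z => ?_
  simp

theorem l_add (h6 : IsUnit (6 : B)) {a b : B} (h : Ideal.span {a, b} = ⊤)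
    (l : Cov 1 (Wei (WZ a b))) (α β α' β' : B) :
    l.l (dW h6 h (α + α') (β + β')) = l.l (dW h6 h α β) + l.l (dW h6 h α' β') := by
  let e2 : B → B → B → Eps2 B := fun x y z => TrivSqZeroExt.inl x + TrivSqZeroExt.inr (y, z)
  have hf : ∀ x y z, (e2 x y z).fst = x := fun x y z => by simp [e2]
  have hs : ∀ x y z, (e2 x y z).snd = (y, z) := fun x y z => by simp [e2]
  have h6' : IsUnit (6 : Eps2 B) := isUnit6_map (algebraMap B (Eps2 B)) h6
  have hm1 : ∀ z w : Eps2 B, (z * w).fst = z.fst * w.fst := fun z w => TrivSqZeroExt.fst_mul z w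
  have hm2 : ∀ z w : Eps2 B, (z * w).snd = z.fst • w.snd + w.fst • z.snd := by
    intro z w
    rw [TrivSqZeroExt.snd_mul, op_smul_eq_smul]
  have hab : Ideal.span {e2 a α α', e2 b β β'} = ⊤ := by
    have h' := h
    rw [Ideal.eq_top_iff_one, Ideal.mem_span_pair] at h' ⊢
    obtain ⟨r, s, hrs⟩ := h'
    refine ⟨e2 r (-(r * α + s * β) * r) (-(r * α' + s * β') * r),
      e2 s (-(r * α + s * β) * s) (-(r * α' + s * β') * s), ?_⟩
    refine TrivSqZeroExt.ext ?_ ?_
    · rw [TrivSqZeroExt.fst_add, hm1, hm1, hf, hf, hf, hf, hrs, TrivSqZeroExt.fst_one]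
    · rw [TrivSqZeroExt.snd_add, hm2, hm2, hf, hf, hf, hf, hs, hs, hs, hs,
        TrivSqZeroExt.snd_one]
      refine Prod.ext ?_ ?_
      · simp only [Prod.fst_add, Prod.smul_fst, smul_eq_mul, Prod.fst_zero]
        linear_combination (-(r * α + s * β)) * hrs
      · simp only [Prod.snd_add, Prod.smul_snd, smul_eq_mul, Prod.snd_zero]
        linear_combination (-(r * α' + s * β')) * hrs
  have hz : IsStable 1 (Wei (WZ (e2 a α α') (e2 b β β'))) := wst.1 _ (WZ_ok h6' hab)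
  have ep10 : ∀ x y z : B, ep x y = epsPair (1 : B) 0 (e2 x y z) := by
    intro x y z
    refine TrivSqZeroExt.ext ?_ ?_
    · simp [hf]
    · simp [hs]
  have ep01 : ∀ x y z : B, ep x z = epsPair (0 : B) 1 (e2 x y z) := by
    intro x y z
    refine TrivSqZeroExt.ext ?_ ?_
    · simp [hf]
    · simp [hs]
  have ep11 : ∀ x y z : B, ep x (y + z) = epsPair (1 : B) 1 (e2 x y z) := by
    intro x y z
    refine TrivSqZeroExt.ext ?_ ?_
    · simp [hf]
    · simp [hs]
  refine l.add (Wei (WZ (e2 a α α') (e2 b β β'))) hz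
    (warr (eps20 B) (hf _ _ _).symm (hf _ _ _).symm) (dW h6 h α β) (dW h6 h α' β')
    (dW h6 h (α + α') (β + β')) (warr (epsPair (1 : B) 0) (ep10 _ _ _) (ep10 _ _ _))
    (warr (epsPair (0 : B) 1) (ep01 _ _ _) (ep01 _ _ _))
    (warr (epsPair (1 : B) 1) (ep11 _ _ _) (ep11 _ _ _))
    ?_ ?_ ?_
  · refine warr_comp (epsPair (1 : B) 0) (eps0 B) ?_ (ep10 _ _ _) (ep10 _ _ _) (fst_ep _ _).symm
      (fst_ep _ _).symm (hf _ _ _).symm (hf _ _ _).symm
    refine RingHom.ext fun z => ?_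
    simp
  · refine warr_comp (epsPair (0 : B) 1) (eps0 B) ?_ (ep01 _ _ _) (ep01 _ _ _) (fst_ep _ _).symm
      (fst_ep _ _).symm (hf _ _ _).symm (hf _ _ _).symm
    refine RingHom.ext fun z => ?_
    simp
  · refine warr_comp (epsPair (1 : B) 1) (eps0 B) ?_ (ep11 _ _ _) (ep11 _ _ _) (fst_ep _ _).symm
      (fst_ep _ _).symm (hf _ _ _).symm (hf _ _ _).symm
    refine RingHom.ext fun z => ?_
    simp

theorem sc_one {a b : B} (ha : a = 1 ^ 4 * a) (hb : b = 1 ^ 6 * b) :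
    WX.sc (u := (1 : B)) (v := 1) (mul_one 1) ha hb = 𝟙 _ := by
  refine WX.ext' ?_ ?_
  · rw [WX.in1_sc, Category.comp_id]
    have e : sc1 (mul_one (1 : B)) ha hb = RingHom.id _ := by
      refine hom1_ext (fun c => ?_) ?_ ?_
      · rw [sc1_b]
        rfl
      · rw [sc1_x, map_one, one_pow, one_mul]
        rfl
      · rw [sc1_y, map_one, one_pow, one_mul]
        rfl
    rw [e, spMap_id, Category.id_comp]
  · rw [WX.in2_sc, Category.comp_id]
    have e : sc2 ha hb = RingHom.id _ := by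
      refine hom2_ext (fun c => ?_) ?_ ?_
      · rw [sc2_b]
        rfl
      · rw [sc2_z, map_one, one_mul]
        rfl
      · rw [sc2_t]
        rfl
    rw [e, spMap_id, Category.id_comp]

theorem pow_ep (k : ℕ) : (ep (1 : B) 1) ^ k = ep 1 (k : B) := by
  induction k with
  | zero =>
    refine TrivSqZeroExt.ext ?_ ?_
    · rw [pow_zero, fst_ep, TrivSqZeroExt.fst_one]
    · rw [pow_zero, snd_ep, TrivSqZeroExt.snd_one, Nat.cast_zero]
  | succ k ih =>
    rw [pow_succ, ih]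
    refine TrivSqZeroExt.ext ?_ ?_
    · rw [fst_mul', fst_ep, fst_ep, fst_ep, one_mul]
    · rw [snd_mul', fst_ep, fst_ep, snd_ep, snd_ep, snd_ep, Nat.cast_succ]
      ring

/-- The scaling arrow. -/
noncomputable def scarr {a b a' b' u v : B} (huv : u * v = 1) (ha : a' = u ^ 4 * a)
    (hb : b' = u ^ 6 * b) : Arrow (RingHom.id B) (Wei (WZ a' b')) (Wei (WZ a b)) where
  f := WX.sc huv ha hb
  cart := by
    have hi : IsIso (WX.sc huv ha hb) := t_WSC.1 huv ha hb
    rw [spMap_id]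
    refine @IsPullback.of_horiz_isIso _ _ _ _ _ _ _ _ _ _ hi _ ⟨?_⟩
    rw [Category.comp_id]
    exact WX.sc_pr huv ha hb
  sec i := by
    rw [spMap_id, Category.id_comp]
    exact t_WSC.2.1 huv (WZ a b) (WZ a' b') ⟨ha, hb, fun i => i.elim0, fun i => i.elim0⟩ i

theorem l_euler (h6 : IsUnit (6 : B)) {a b : B} (h : Ideal.span {a, b} = ⊤)
    (l : Cov 1 (Wei (WZ a b))) : l.l (dW h6 h (4 * a) (6 * b)) = 0 := by
  -- `u = 1 + ε`
  have huv : ep (1 : B) 1 * ep 1 (-1) = 1 := by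
    refine TrivSqZeroExt.ext ?_ ?_
    · rw [fst_mul', fst_ep, fst_ep, TrivSqZeroExt.fst_one, one_mul]
    · rw [snd_mul', fst_ep, fst_ep, snd_ep, snd_ep, TrivSqZeroExt.snd_one]
      ring
  have ha : ep a (4 * a) = ep (1 : B) 1 ^ 4 * ep a 0 := by
    rw [pow_ep]
    refine TrivSqZeroExt.ext ?_ ?_
    · rw [fst_mul', fst_ep, fst_ep, fst_ep, one_mul]
    · rw [snd_mul', fst_ep, fst_ep, snd_ep, snd_ep, snd_ep]
      push_cast
      ring
  have hb : ep b (6 * b) = ep (1 : B) 1 ^ 6 * ep b 0 := by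
    rw [pow_ep]
    refine TrivSqZeroExt.ext ?_ ?_
    · rw [fst_mul', fst_ep, fst_ep, fst_ep, one_mul]
    · rw [snd_mul', fst_ep, fst_ep, snd_ep, snd_ep, snd_ep]
      push_cast
      ring
  have h1 := t_WSC.2.2 (eps0 B) huv ha hb (c := a) (d := b) (c' := a) (d' := b) (w := 1) (s := 1)
      (mul_one 1) (by ring) (by ring) (fst_ep a 0).symm (fst_ep b 0).symm
      (fst_ep a (4 * a)).symm (fst_ep b (6 * b)).symm (fst_ep 1 1).symm
  rw [sc_one, Category.id_comp] at h1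
  have hf : (dW h6 h (4 * a) (6 * b)).r.f ≫ (scarr huv ha hb).f = (dW h6 h 0 0).r.f := h1.symm
  have h2 := l_scale h6 h l 0 0 0
  rw [zero_mul, zero_mul] at h2
  rw [l.iso (dW h6 h (4 * a) (6 * b)) (dW h6 h 0 0) (scarr huv ha hb) hf]
  exact h2

/-- The identity arrow. -/
noncomputable def idArr {n : ℕ} (y : Fam n B) : Arrow (RingHom.id B) y y where
  f := 𝟙 _
  cart := by
    rw [spMap_id]
    exact IsPullback.id_horiz _
  sec i := by
    rw [spMap_id, Category.comp_id, Category.id_comp]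

theorem wcls_dW (h6 : IsUnit (6 : B)) {a b : B} (h : Ideal.span {a, b} = ⊤) (α β : B) :
    WCls (dW h6 h α β) α β Fin.elim0 Fin.elim0 :=
  ⟨WZ (ep a α) (ep b β),
      ⟨(fst_ep a α).symm, (fst_ep b β).symm, fun i => i.elim0, fun i => i.elim0⟩,
      snd_ep a α, snd_ep b β, fun i => i.elim0, fun i => i.elim0, idArr _, Category.comp_id _⟩

/-- Every covector is one of the `cov`. -/
theorem cov_ex (h6 : IsUnit (6 : B)) {a b : B} (h : Ideal.span {a, b} = ⊤)
    (l : Cov 1 (Wei (WZ a b))) : ∃ τ : B, l = cov h6 a b τ := by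
  obtain ⟨A, hA⟩ : ∃ A, A = l.l (dW h6 h 1 0) := ⟨_, rfl⟩
  obtain ⟨D, hD⟩ : ∃ D, D = l.l (dW h6 h 0 1) := ⟨_, rfl⟩
  have hlin : ∀ α β, l.l (dW h6 h α β) = α * A + β * D := by
    intro α β
    have h1 := l_add h6 h l (α * 1) (α * 0) (β * 0) (β * 1)
    rw [l_scale, l_scale, ← hA, ← hD] at h1
    rw [← h1]
    congr 2 <;> ring
  have he := l_euler h6 h l
  rw [hlin] at he
  obtain ⟨i6, hi⟩ := h6.exists_right_inv
  have h' := h
  rw [Ideal.eq_top_iff_one, Ideal.mem_span_pair] at h'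
  obtain ⟨r, s, hrs⟩ := h'
  have he2 : 2 * a * A + 3 * b * D = 0 := by
    have h3 : (6 * i6) * (2 * a * A + 3 * b * D) = (3 * i6) * (4 * a * A + 6 * b * D) := by ring
    rw [hi, one_mul, he, mul_zero] at h3
    exact h3
  refine ⟨3 * i6 * r * D - 2 * i6 * s * A, Cov_ext _ _ fun d => ?_⟩
  obtain ⟨α, β, f, hf⟩ := exists_dW h6 h d
  rw [l.iso _ _ f hf, (cov h6 a b _).iso _ _ f hf, hlin,
    cov_is h6 a b _ (dW h6 h α β) α β Fin.elim0 Fin.elim0 (wcls_dW h6 h α β)]
  simp only [WT, Finset.univ_eq_empty, Finset.sum_empty, add_zero]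
  linear_combination (3 * i6 * r * α + 2 * i6 * s * β) * he2 +
    (-6 * i6 * (α * A + β * D)) * hrs + (-(α * A + β * D)) * hi

end

end Pool.Agent.MG.One


end

section

/-!
# The values of regular functions on `T^*M̄_{1,1}` at Weierstrass curves
-/

open CategoryTheory CategoryTheory.Limits AlgebraicGeometry TensorProduct

namespace Pool.Agent.MG.One

open Pool.Agent.MG.W Pool.Agent.MG.W.WCV

section

variable {B : Type} [CommRing B] [Algebra ℂ B]

theorem six : IsUnit (6 : B) :=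
  isUnit6_map (algebraMap ℂ B) (IsUnit.mk0 6 (by norm_num))

/-- Change of the base ring. -/
theorem nat_val (F : Reg 1 1) {B' : Type} [CommRing B'] [Algebra ℂ B'] (φ : B →ₐ[ℂ] B')
    {a b τ : B} {a' b' τ' : B'} (ha : a' = φ a) (hb : b' = φ b) (hτ : τ' = φ τ)
    (hs : IsStable 1 (Wei (WZ a b))) (hs' : IsStable 1 (Wei (WZ a' b'))) :
    F.F B' (Wei (WZ a' b')) hs' (cov six a' b' τ') =
      φ (F.F B (Wei (WZ a b)) hs (cov six a b τ)) := by
  obtain ⟨f, -, hf⟩ := wna.1 (φ : B →+* B') (WZ a b) (WZ a' b')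
    ⟨ha, hb, fun i => i.elim0, fun i => i.elim0⟩ (WT a b τ) (WT a' b' τ') (cov six a b τ)
    (cov six a' b' τ') six
    (by
      change -3 * b' * τ' = φ (-3 * b * τ)
      rw [hb, hτ, map_mul, map_mul, map_neg, map_ofNat])
    (by
      change 2 * a' * τ' = φ (2 * a * τ)
      rw [ha, hτ, map_mul, map_mul, map_ofNat])
    (fun i => i.elim0) (fun i => i.elim0) (cov_is _ _ _ _) (cov_is _ _ _ _)
  exact F.nat B B' φ _ _ hs hs' f _ _ hf

/-- Scaling. -/
theorem scale_val (F : Reg 1 1) (u a b τ : B) (hu : IsUnit u)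
    (hs : IsStable 1 (Wei (WZ a b))) (hs' : IsStable 1 (Wei (WZ (u ^ 4 * a) (u ^ 6 * b)))) :
    F.F B (Wei (WZ (u ^ 4 * a) (u ^ 6 * b))) hs' (cov six (u ^ 4 * a) (u ^ 6 * b) τ) =
      F.F B (Wei (WZ a b)) hs (cov six a b (u ^ 10 * τ)) := by
  obtain ⟨f, hf⟩ := wna.2 u (WZ a b) (WZ (u ^ 4 * a) (u ^ 6 * b)) (WT a b (u ^ 10 * τ))
    (WT (u ^ 4 * a) (u ^ 6 * b) τ) (cov six a b (u ^ 10 * τ))
    (cov six (u ^ 4 * a) (u ^ 6 * b) τ) six hu ⟨rfl, rfl, fun i => i.elim0, fun i => i.elim0⟩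
    (by
      change u ^ 4 * (-3 * (u ^ 6 * b) * τ) = -3 * b * (u ^ 10 * τ)
      ring)
    (by
      change u ^ 6 * (2 * (u ^ 4 * a) * τ) = 2 * a * (u ^ 10 * τ)
      ring)
    (fun i => i.elim0) (fun i => i.elim0) (cov_is _ _ _ _) (cov_is _ _ _ _)
  exact F.nat B B (AlgHom.id ℂ B) _ _ hs hs' f _ _ hf

end

/-- The polynomial ring in `a`, `b`, `τ`. -/
abbrev R3 : Type := MvPolynomial (Fin 3) ℂ

/-- Its localisation. -/
abbrev L3 (i : Fin 3) : Type := Localization.Away (MvPolynomial.X i : R3)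

/-- The generators. -/
noncomputable def gen (i j : Fin 3) : L3 i := algebraMap R3 (L3 i) (MvPolynomial.X j)

theorem gen_unit (i : Fin 3) : IsUnit (gen i i) :=
  IsLocalization.Away.algebraMap_isUnit (S := L3 i) (MvPolynomial.X i : R3)

theorem span_of_unit {B : Type} [CommRing B] {a b : B} (h : IsUnit a ∨ IsUnit b) :
    Ideal.span {a, b} = ⊤ := by
  rcases h with h | h
  · exact Ideal.eq_top_of_isUnit_mem _ (Ideal.subset_span (by simp)) h
  · exact Ideal.eq_top_of_isUnit_mem _ (Ideal.subset_span (by simp)) h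

theorem stable_of {B : Type} [CommRing B] [Algebra ℂ B] {a b : B} (h : Ideal.span {a, b} = ⊤) :
    IsStable 1 (Wei (WZ a b)) :=
  wst.1 _ (WZ_ok six h)

/-- The universal value on the part where `a` (`i = 0`) or `b` (`i = 1`) is invertible. -/
noncomputable def uval (F : Reg 1 1) (i : Fin 3) (h : IsUnit (gen i 0) ∨ IsUnit (gen i 1)) : L3 i :=
  F.F (L3 i) (Wei (WZ (gen i 0) (gen i 1))) (stable_of (span_of_unit h))
    (cov six (gen i 0) (gen i 1) (gen i 2))

/-- Evaluation. -/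
noncomputable def ev {B : Type} [CommRing B] [Algebra ℂ B] (v : Fin 3 → B) (i : Fin 3)
    (h : IsUnit (v i)) : L3 i →ₐ[ℂ] B :=
  IsLocalization.liftAlgHom (M := Submonoid.powers (MvPolynomial.X i : R3))
    (f := (MvPolynomial.aeval v : R3 →ₐ[ℂ] B)) (by
      rintro ⟨_, n, rfl⟩
      simp only [map_pow, MvPolynomial.aeval_X]
      exact h.pow n)

theorem ev_alg {B : Type} [CommRing B] [Algebra ℂ B] (v : Fin 3 → B) (i : Fin 3)
    (h : IsUnit (v i)) (p : R3) : ev v i h (algebraMap R3 (L3 i) p) = MvPolynomial.aeval v p := by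
  unfold ev
  rw [IsLocalization.liftAlgHom_apply, IsLocalization.lift_eq]
  rfl

theorem uval_ev (F : Reg 1 1) (i : Fin 3) (h : IsUnit (gen i 0) ∨ IsUnit (gen i 1))
    {B : Type} [CommRing B] [Algebra ℂ B] (a b τ : B) (hi : IsUnit ((![a, b, τ] : Fin 3 → B) i))
    (hs : IsStable 1 (Wei (WZ a b))) :
    F.F B (Wei (WZ a b)) hs (cov six a b τ) = ev ![a, b, τ] i hi (uval F i h) := by
  refine nat_val F (ev ![a, b, τ] i hi) ?_ ?_ ?_ _ hs
  · rw [gen, ev_alg, MvPolynomial.aeval_X]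
    rfl
  · rw [gen, ev_alg, MvPolynomial.aeval_X]
    rfl
  · rw [gen, ev_alg, MvPolynomial.aeval_X]
    rfl

/-- Two universal values which agree at the points come from one polynomial. -/
theorem glue (f₀ : L3 0) (f₁ : L3 1) (h : ∀ (a b τ : ℂ) (ha : a ≠ 0) (hb : b ≠ 0),
    ev ![a, b, τ] 0 (IsUnit.mk0 a ha) f₀ = ev ![a, b, τ] 1 (IsUnit.mk0 b hb) f₁) :
    ∃ f : R3, f₀ = algebraMap R3 (L3 0) f ∧ f₁ = algebraMap R3 (L3 1) f := by
  obtain ⟨n, p, hp⟩ := IsLocalization.Away.surj (MvPolynomial.X 0 : R3) f₀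
  obtain ⟨m, q, hq⟩ := IsLocalization.Away.surj (MvPolynomial.X 1 : R3) f₁
  have key : p * MvPolynomial.X 1 ^ m = q * MvPolynomial.X 0 ^ n := by
    have h1 : MvPolynomial.X 0 * MvPolynomial.X 1 * (p * MvPolynomial.X 1 ^ m) =
        MvPolynomial.X 0 * MvPolynomial.X 1 * (q * MvPolynomial.X 0 ^ n) := by
      refine MvPolynomial.funext fun v => ?_
      have hv : v = ![v 0, v 1, v 2] := by
        funext i
        fin_cases i <;> rfl
      simp only [map_mul, map_pow, MvPolynomial.eval_X]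
      by_cases ha : v 0 = 0
      · rw [ha]
        ring
      by_cases hb : v 1 = 0
      · rw [hb]
        ring
      have h2 := h (v 0) (v 1) (v 2) ha hb
      have h3 := congrArg (ev ![v 0, v 1, v 2] 0 (IsUnit.mk0 _ ha)) hp
      have h4 := congrArg (ev ![v 0, v 1, v 2] 1 (IsUnit.mk0 _ hb)) hq
      rw [map_mul, ← map_pow, ev_alg, ev_alg] at h3 h4
      rw [map_pow, MvPolynomial.aeval_X] at h3 h4
      have e1 : MvPolynomial.eval v p = (MvPolynomial.aeval ![v 0, v 1, v 2] : R3 →ₐ[ℂ] ℂ) p := by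
        rw [← hv]
        rfl
      have e2 : MvPolynomial.eval v q = (MvPolynomial.aeval ![v 0, v 1, v 2] : R3 →ₐ[ℂ] ℂ) q := by
        rw [← hv]
        rfl
      rw [e1, e2, ← h3, ← h4, h2]
      change v 0 * v 1 * (_ * v 0 ^ n * v 1 ^ m) = v 0 * v 1 * (_ * v 1 ^ m * v 0 ^ n)
      ring
    refine mul_left_cancel₀ ?_ h1
    exact mul_ne_zero (MvPolynomial.X_ne_zero _) (MvPolynomial.X_ne_zero _)
  have hdvd : (MvPolynomial.X 0 : R3) ^ n ∣ p := by
    have hpr : Prime (MvPolynomial.X 0 : R3) := MvPolynomial.X_prime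
    have h1 : (MvPolynomial.X 0 : R3) ^ n ∣ p * MvPolynomial.X 1 ^ m := ⟨q, by rw [key]; ring⟩
    refine hpr.pow_dvd_of_dvd_mul_right n ?_ h1
    intro h2
    have h3 := hpr.dvd_of_dvd_pow h2
    have h4 := map_dvd (MvPolynomial.aeval ![0, 1, 0] : R3 →ₐ[ℂ] ℂ) h3
    simp at h4
  obtain ⟨f, rfl⟩ := hdvd
  have hq' : q = f * MvPolynomial.X 1 ^ m := by
    refine mul_right_cancel₀ (pow_ne_zero n (MvPolynomial.X_ne_zero (0 : Fin 3))) ?_
    rw [← key]
    ring
  refine ⟨f, ?_, ?_⟩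
  · have hu : IsUnit (algebraMap R3 (L3 0) (MvPolynomial.X 0) ^ n) := (gen_unit 0).pow n
    refine hu.mul_right_cancel ?_
    rw [hp, map_mul, map_pow]
    ring
  · have hu : IsUnit (algebraMap R3 (L3 1) (MvPolynomial.X 1) ^ m) := (gen_unit 1).pow m
    refine hu.mul_right_cancel ?_
    rw [hq, hq', map_mul, map_pow]

/-- The values at Weierstrass curves are given by a polynomial. -/
theorem exists_poly (F : Reg 1 1) : ∃ f : R3, ∀ (B : Type) [CommRing B] [Algebra ℂ B] (a b τ : B)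
    (hs : IsStable 1 (Wei (WZ a b))), Ideal.span {a, b} = ⊤ →
    F.F B (Wei (WZ a b)) hs (cov six a b τ) = MvPolynomial.aeval ![a, b, τ] f := by
  have u0 : IsUnit (gen 0 0) ∨ IsUnit (gen 0 1) := Or.inl (gen_unit 0)
  have u1 : IsUnit (gen 1 0) ∨ IsUnit (gen 1 1) := Or.inr (gen_unit 1)
  obtain ⟨f, h0, h1⟩ := glue (uval F 0 u0) (uval F 1 u1) (fun a b τ ha hb => by
    have hs : IsStable 1 (Wei (WZ a b)) := stable_of (span_of_unit (Or.inl (IsUnit.mk0 a ha)))
    rw [← uval_ev F 0 u0 a b τ (IsUnit.mk0 a ha) hs, ← uval_ev F 1 u1 a b τ (IsUnit.mk0 b hb) hs])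
  have key : ∀ (B : Type) [CommRing B] [Algebra ℂ B] (a b τ : B)
      (hs : IsStable 1 (Wei (WZ a b))), IsUnit a ∨ IsUnit b →
      F.F B (Wei (WZ a b)) hs (cov six a b τ) = MvPolynomial.aeval ![a, b, τ] f := by
    intro B _ _ a b τ hs hu
    rcases hu with hu | hu
    · rw [uval_ev F 0 u0 a b τ hu hs, h0]
      exact ev_alg _ _ _ _
    · rw [uval_ev F 1 u1 a b τ hu hs, h1]
      exact ev_alg _ _ _ _
  refine ⟨f, ?_⟩
  intro B _ _ a b τ hs hab
  have hloc : ∀ c : B, c = a ∨ c = b → ∃ n : ℕ, c ^ n *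
      (F.F B (Wei (WZ a b)) hs (cov six a b τ) - MvPolynomial.aeval ![a, b, τ] f) = 0 := by
    intro c hc
    let φ : B →ₐ[ℂ] Localization.Away c := IsScalarTower.toAlgHom ℂ B (Localization.Away c)
    have hu : IsUnit (φ a) ∨ IsUnit (φ b) := by
      rcases hc with rfl | rfl
      · exact Or.inl (IsLocalization.Away.algebraMap_isUnit (S := Localization.Away c) c)
      · exact Or.inr (IsLocalization.Away.algebraMap_isUnit (S := Localization.Away c) c)
    have hs' : IsStable 1 (Wei (WZ (φ a) (φ b))) := stable_of (span_of_unit hu)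
    have h2 := key _ (φ a) (φ b) (φ τ) hs' hu
    rw [nat_val F φ rfl rfl rfl hs hs'] at h2
    have h3 : MvPolynomial.aeval ![φ a, φ b, φ τ] f = φ (MvPolynomial.aeval ![a, b, τ] f) := by
      have e : (φ.comp (MvPolynomial.aeval ![a, b, τ]) : R3 →ₐ[ℂ] Localization.Away c) =
          MvPolynomial.aeval ![φ a, φ b, φ τ] := by
        ext i
        fin_cases i <;> simp
      rw [← e]
      rfl
    rw [h3, ← sub_eq_zero, ← map_sub] at h2
    have h4 : algebraMap B (Localization.Away c) (F.F B (Wei (WZ a b)) hs (cov six a b τ) -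
      MvPolynomial.aeval ![a, b, τ] f) = 0 := h2
    rw [IsLocalization.map_eq_zero_iff (Submonoid.powers c)] at h4
    obtain ⟨⟨_, n, rfl⟩, hn⟩ := h4
    exact ⟨n, hn⟩
  obtain ⟨n, hn⟩ := hloc a (Or.inl rfl)
  obtain ⟨m, hm⟩ := hloc b (Or.inr rfl)
  have hcop : IsCoprime a b := by
    rw [Ideal.eq_top_iff_one, Ideal.mem_span_pair] at hab
    obtain ⟨r, s, hrs⟩ := hab
    exact ⟨r, s, hrs⟩
  obtain ⟨r, s, hrs⟩ := hcop.pow (m := n) (n := m)
  rw [← sub_eq_zero]
  linear_combination r * hn + s * hm - (F.F B (Wei (WZ a b)) hs (cov six a b τ) -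
    MvPolynomial.aeval ![a, b, τ] f) * hrs

end Pool.Agent.MG.One


end

section

/-!
# The functions on `T^*M̄_{1,1}`
-/

open CategoryTheory CategoryTheory.Limits AlgebraicGeometry TensorProduct

namespace Pool.Agent.MG.One

open Pool.Agent.MG.W Pool.Agent.MG.W.WCV

/-- The polynomial of a regular function. -/
noncomputable def poly (F : Reg 1 1) : R3 := (exists_poly F).choose

theorem poly_spec (F : Reg 1 1) {B : Type} [CommRing B] [Algebra ℂ B] (a b τ : B)
    (hs : IsStable 1 (Wei (WZ a b))) (h : Ideal.span {a, b} = ⊤) :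
    F.F B (Wei (WZ a b)) hs (cov six a b τ) = MvPolynomial.aeval ![a, b, τ] (poly F) :=
  (exists_poly F).choose_spec B a b τ hs h

theorem span_iff {a b : ℂ} (h : a ≠ 0 ∨ b ≠ 0) : Ideal.span {a, b} = ⊤ :=
  span_of_unit (h.imp (IsUnit.mk0 a) (IsUnit.mk0 b))

theorem poly_mem (F : Reg 1 1) : poly F ∈ Inv := by
  -- at the points with `(a, b) ≠ 0`
  have key : ∀ u a b τ : ℂ, u ≠ 0 → (a ≠ 0 ∨ b ≠ 0) →
      MvPolynomial.eval ![u ^ 4 * a, u ^ 6 * b, τ] (poly F) =
        MvPolynomial.eval ![a, b, u ^ 10 * τ] (poly F) := by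
    intro u a b τ hu hab
    have h1 := span_iff hab
    have h2 : Ideal.span {u ^ 4 * a, u ^ 6 * b} = ⊤ :=
      span_iff (hab.imp (mul_ne_zero (pow_ne_zero 4 hu)) (mul_ne_zero (pow_ne_zero 6 hu)))
    have h3 := scale_val F u a b τ (IsUnit.mk0 u hu) (stable_of h1) (stable_of h2)
    rw [poly_spec F _ _ _ _ h2, poly_spec F _ _ _ _ h1] at h3
    exact h3
  intro u a b τ hu
  by_cases hab : a ≠ 0 ∨ b ≠ 0
  · exact key u a b τ hu hab
  push Not at hab
  obtain ⟨rfl, rfl⟩ := hab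
  -- a polynomial in one variable
  let g : Polynomial ℂ :=
    MvPolynomial.aeval ![Polynomial.C (u ^ 4) * Polynomial.X, 0, Polynomial.C τ] (poly F) -
      MvPolynomial.aeval ![Polynomial.X, 0, Polynomial.C (u ^ 10 * τ)] (poly F)
  have hg : ∀ a : ℂ, g.eval a = MvPolynomial.eval ![u ^ 4 * a, u ^ 6 * 0, τ] (poly F) -
      MvPolynomial.eval ![a, 0, u ^ 10 * τ] (poly F) := by
    intro a
    have e1 : ((Polynomial.aeval a : Polynomial ℂ →ₐ[ℂ] ℂ)).comp
        (MvPolynomial.aeval ![Polynomial.C (u ^ 4) * Polynomial.X, 0, Polynomial.C τ] :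
          R3 →ₐ[ℂ] Polynomial ℂ) = MvPolynomial.aeval ![u ^ 4 * a, u ^ 6 * 0, τ] := by
      ext i
      fin_cases i <;> simp
    have e2 : ((Polynomial.aeval a : Polynomial ℂ →ₐ[ℂ] ℂ)).comp
        (MvPolynomial.aeval ![Polynomial.X, 0, Polynomial.C (u ^ 10 * τ)] :
          R3 →ₐ[ℂ] Polynomial ℂ) = MvPolynomial.aeval ![a, 0, u ^ 10 * τ] := by
      ext i
      fin_cases i <;> simp
    have h1 := DFunLike.congr_fun e1 (poly F)
    have h2 := DFunLike.congr_fun e2 (poly F)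
    change Polynomial.eval a _ = _
    rw [Polynomial.eval_sub]
    exact congrArg₂ (fun x y => x - y) h1 h2
  have h0 : Polynomial.X * g = 0 := by
    refine Polynomial.funext fun a => ?_
    rw [Polynomial.eval_mul, Polynomial.eval_X, Polynomial.eval_zero, hg]
    by_cases ha : a = 0
    · rw [ha, zero_mul]
    · rw [key u a 0 τ hu (Or.inl ha), sub_self, mul_zero]
  have h1 : g = 0 := by
    rcases mul_eq_zero.1 h0 with h | h
    · exact absurd h Polynomial.X_ne_zero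
    · exact h
  have h2 := hg 0
  rw [h1, Polynomial.eval_zero] at h2
  exact (sub_eq_zero.1 h2.symm)

section

variable {k : Type} [Field k] [IsAlgClosed k] [Algebra ℂ k]

/-- The values at smooth curves. -/
theorem smooth_val (C : Fam 1 k) (hC : IsStable 1 C) (hs : SmoothOfRelativeDimension 1 C.π)
    (l : Cov 1 C) : ∃ a b τ : k, 4 * a ^ 3 + 27 * b ^ 2 ≠ 0 ∧
      ∀ F : Reg 1 1, F.F k C hC l = MvPolynomial.aeval ![a, b, τ] (poly F) := by
  have : CharZero k := charZero_of_injective_algebraMap (algebraMap ℂ k).injective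
  obtain ⟨P, hD, f, -⟩ := t_W0 C hC hs
  have hP := WZ_eq P
  revert f hD
  rw [← hP]
  intro hD f
  have hD' : 4 * P.a ^ 3 + 27 * P.b ^ 2 ≠ 0 := hD
  have hsp : Ideal.span {P.a, P.b} = ⊤ := by
    refine span_of_unit ?_
    by_contra h
    push Not at h
    rw [isUnit_iff_ne_zero, not_not, isUnit_iff_ne_zero, not_not] at h
    apply hD'
    rw [h.1, h.2]
    ring
  obtain ⟨τ, hτ⟩ := cov_ex six hsp (covPre f l)
  refine ⟨P.a, P.b, τ, hD', fun F => ?_⟩
  rw [val_transport F f (stable_of hsp) hC l, hτ, poly_spec F _ _ _ _ hsp]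

end

end Pool.Agent.MG.One

namespace Pool.Agent.MG.One

open Pool.Agent.MG.W Pool.Agent.MG.W.WCV

/-- `(C, l)` is the Weierstrass curve `y² = x³ + a x + b` with the covector `τ (2 a db - 3 b da)`,
as far as regular functions can see. -/
def At {k : Type} [Field k] [Algebra ℂ k] (Φ : Std.Reg 1 1 → Inv) (C : Fam 1 k)
    (hC : Std.IsStable 1 C) (l : Std.Cov 1 C) (a b τ : k) : Prop :=
  ∀ F, F.F k C hC l = MvPolynomial.aeval ![a, b, τ] (Φ F).1

/-- The regular functions on `T^*M̄_{1,1}` as invariant polynomials. -/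
theorem main : ∃ Φ : Std.Reg 1 1 → Inv, ∀ (k : Type) [Field k] [IsAlgClosed k] [Algebra ℂ k],
    (∀ (C : Fam 1 k) (hC : Std.IsStable 1 C), Smooth C.π → ∀ l : Std.Cov 1 C,
      ∃ a b τ : k, 4 * a ^ 3 + 27 * b ^ 2 ≠ 0 ∧ At Φ C hC l a b τ) ∧
    (∀ a b τ : k, 4 * a ^ 3 + 27 * b ^ 2 ≠ 0 → ∃ (C : Fam 1 k) (hC : Std.IsStable 1 C)
      (l : Std.Cov 1 C), Smooth C.π ∧ At Φ C hC l a b τ) := by
  refine ⟨fun F => ⟨poly (Std.Reg.to F), poly_mem _⟩, fun k _ _ _ => ⟨?_, ?_⟩⟩
  · intro C hC hs l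
    have hC' := (Std.stable_iff 1 C).1 hC
    have hs1 : SmoothOfRelativeDimension 1 C.π :=
      SmNod.smoothOfRelativeDimension_one C.π (CST.stableCurve hC').nodal
    obtain ⟨a, b, τ, hD, h⟩ := smooth_val C hC' hs1 (Std.Cov.to l)
    exact ⟨a, b, τ, hD, fun F => h (Std.Reg.to F)⟩
  · intro a b τ hD
    have : CharZero k := charZero_of_injective_algebraMap (algebraMap ℂ k).injective
    have hsp : Ideal.span {a, b} = ⊤ := by
      refine span_of_unit ?_
      by_contra h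
      push Not at h
      rw [isUnit_iff_ne_zero, not_not, isUnit_iff_ne_zero, not_not] at h
      apply hD
      rw [h.1, h.2]
      ring
    have hst := stable_of hsp
    have hsm : SmoothOfRelativeDimension 1 (Wei (WZ a b)).π := wei_smooth (WZ a b) hD
    refine ⟨Wei (WZ a b), (Std.stable_iff 1 _).2 hst, Std.Cov.of (cov six a b τ), ?_, fun F => ?_⟩
    · exact SmoothOfRelativeDimension.smooth 1 _
    · exact poly_spec (Std.Reg.to F) a b τ hst hsp

end Pool.Agent.MG.One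


end

section

/-!
# `M̄_{1,1}`: the main statements of part (C)

`CL`: stable one-pointed curves of genus one over algebraically closed fields are Weierstrass
curves. `WLF`: the same Zariski locally over any base. `EX`: every invariant polynomial is a
regular function on `T^*M̄_{1,1}`.
-/

open CategoryTheory CategoryTheory.Limits AlgebraicGeometry TensorProduct

namespace Pool.Agent.MG.WL

open Pool.Agent.MG.W Pool.Agent.MG.One

/-- CL: a stable one-pointed curve of genus one over an algebraically closed field of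
characteristic zero is a Weierstrass curve without cusps. -/
def Stmt_CL : Prop :=
  ∀ {k : Type} [Field k] [IsAlgClosed k] [CharZero k] (C : Fam 1 k), IsStable 1 C →
    ∃ a b : k, (a ≠ 0 ∨ b ≠ 0) ∧ ∃ f : Arrow (RingHom.id k) C (Wei (WZ a b)), IsIso f.f

/-- WLF: Weierstrass curves are the local form of stable one-pointed curves of genus one. -/
def Stmt_WLF : Prop :=
  ∀ (A : Type) [CommRing A] [Algebra ℂ A] (C : Fam 1 A), IsStable 1 C →
    ∀ p : PrimeSpectrum A, ∃ f : A, f ∉ p.asIdeal ∧ ∃ a b : Localization.Away f,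
      Ideal.span {a, b} = ⊤ ∧
        Nonempty (Arrow (algebraMap A (Localization.Away f)) (Wei (WZ a b)) C)

/-- EX: existence of regular functions. -/
def Stmt_EX : Prop :=
  ∀ P ∈ One.Inv, ∃ F : Reg 1 1, ∀ (B : Type) [CommRing B] [Algebra ℂ B] (a b τ : B)
    (hs : IsStable 1 (Wei (WZ a b))), Ideal.span {a, b} = ⊤ →
      F.F B (Wei (WZ a b)) hs (cov six a b τ) = MvPolynomial.aeval ![a, b, τ] P

end Pool.Agent.MG.WL


end

section

/-!
# Weierstrass charts of a family of curves, classes of deformations in a chart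
-/

open CategoryTheory CategoryTheory.Limits AlgebraicGeometry TensorProduct

namespace Pool.Agent.MG.WL

open Pool.Agent.MG.W Pool.Agent.MG.One

section

variable {A B D : Type} [CommRing A] [CommRing B] [CommRing D]

/-- A Weierstrass chart of `C` over `φ : A → B`: an isomorphism of the base change of `C` to `B` with
a Weierstrass curve. -/
structure Ch (φ : A →+* B) (C : Fam 1 A) where
  /-- coefficient -/
  a : B
  /-- coefficient -/
  b : B
  h : Ideal.span {a, b} = ⊤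
  /-- the arrow -/
  e : Arrow φ (Wei (WZ a b)) C

/-- `C` has Weierstrass charts Zariski locally. -/
def LW (C : Fam 1 A) : Prop :=
  ∀ p : PrimeSpectrum A, ∃ f : A, f ∉ p.asIdeal ∧
    Nonempty (Ch (algebraMap A (Localization.Away f)) C)

/-- The elements `f` of `A` such that `C` has a chart over `A_f`. -/
def chI (C : Fam 1 A) : Set A := {f | Nonempty (Ch (algebraMap A (Localization.Away f)) C)}

variable {φ : A →+* B} {C : Fam 1 A}

/-- `δ` is the class of the deformation `d` in the chart `c`: in this chart `d` is the deformation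
`(a + ε α, b + ε β)`, and `δ = 2 a β - 3 b α`. -/
def IsDelta (c : Ch φ C) (d : Defo 1 C) (δ : B) : Prop :=
  ∃ (α β : B) (f : Arrow (epsMap φ) (Wei (WZ (ep c.a α) (ep c.b β))) d.y),
    (warr (eps0 B) (fst_ep c.a α).symm (fst_ep c.b β).symm).f ≫ f.f = c.e.f ≫ d.r.f ∧
      δ = 2 * c.a * β - 3 * c.b * α

/-- Over `D` the charts `c` (over `B`) and `c'` (over `B'`) differ by the scaling `u`. -/
def Rel {B' : Type} [CommRing B'] {φ' : A →+* B'} (c : Ch φ C) (c' : Ch φ' C) (ψ : B →+* D)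
    (ψ' : B' →+* D) (u : D) : Prop :=
  ∃ (v : D) (huv : u * v = 1) (ha : ψ' c'.a = u ^ 4 * ψ c.a) (hb : ψ' c'.b = u ^ 6 * ψ c.b),
    WX.sc huv ha hb ≫ (warr ψ (a := c.a) (b := c.b) rfl rfl).f ≫ c.e.f =
      (warr ψ' (a := c'.a) (b := c'.b) rfl rfl).f ≫ c'.e.f

/-- `τ` is the coefficient of the covector `l` in the chart `c`. -/
def IsTau (c : Ch φ C) (l : Cov 1 C) (τ : B) : Prop :=
  ∀ (d : Defo 1 C) (δ : B), IsDelta c d δ → φ (l.l d) = τ * δ

/-- Push forward of charts. -/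
noncomputable def Ch.push (c : Ch φ C) (ψ : B →+* D) : Ch (ψ.comp φ) C where
  a := ψ c.a
  b := ψ c.b
  h := by
    have h := c.h
    rw [Ideal.eq_top_iff_one, Ideal.mem_span_pair] at h ⊢
    obtain ⟨r, s, hrs⟩ := h
    exact ⟨ψ r, ψ s, by rw [← map_mul, ← map_mul, ← map_add, hrs, map_one]⟩
  e := PBS.comp (warr ψ rfl rfl) c.e

end

end Pool.Agent.MG.WL


end

section

/-!
# Local coordinates at the section, nice covers
-/

open CategoryTheory CategoryTheory.Limits AlgebraicGeometry TensorProduct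

namespace Pool.Agent.MG.WL

open Pool.Agent.MG.W Pool.Agent.MG.One Pool.Agent.MG.GLU

/-- The complement `U` of the section and a coordinate `t` on an affine neighbourhood `V` of the
section. -/
structure LC {A : Type} [CommRing A] (C : Fam 1 A) where
  /-- the complement of the section -/
  U : C.X.Opens
  mU : ∀ z : C.X, z ∈ U ↔ z ∉ Set.range (C.σ 0)
  /-- the neighbourhood of the section -/
  V : C.X.Opens
  aff : IsAffineOpen V
  le : ⊤ ≤ (C.σ 0) ⁻¹ᵁ V
  /-- the coordinate -/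
  t : Γ(C.X, V)
  bas : C.X.basicOpen t = U ⊓ V
  ker : ∀ r : Γ(C.X, V), gm (C.σ 0) V le r = 0 ↔ ∃ s, r = t * s
  flat : (Polynomial.eval₂RingHom (coef C.π V) t).Flat

/-- `L'` is the base change of `L`. -/
structure LC.Bc {A B : Type} [CommRing A] [CommRing B] {φ : A →+* B} {C : Fam 1 A} {y : Fam 1 B}
    (L : LC C) (a : Arrow φ y C) (L' : LC y) : Prop where
  U : L'.U = a.f ⁻¹ᵁ L.U
  V : L'.V = a.f ⁻¹ᵁ L.V
  t : L'.t = (a.f.appLE L.V L'.V V.le).hom L.t

/-- `X` is a function on the complement of the section with `t ^ n X = c + t r`. -/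
def LC.Pole {A : Type} [CommRing A] {C : Fam 1 A} (L : LC C) (n : ℕ) (c : A)
    (X : Γ(C.X, L.U)) : Prop :=
  ∃ r : Γ(C.X, L.V), rs C.X inf_le_right L.t ^ n * rs C.X inf_le_left X =
    rs C.X (inf_le_right : L.U ⊓ L.V ≤ L.V) (coef C.π L.V c + L.t * r)

/-- A nice cover: an affine open `W` disjoint from the section, and affine opens `V i` with
`W ∩ V i = D(β i)`, `V i ∩ V j ⊆ W` for `i ≠ j`, and `Γ(V i)/β i` finite over the base; the section
is contained in `V i₀ ⊆ L.V` and disjoint from the other `V i`. -/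
structure NC {B : Type} [CommRing B] {y : Fam 1 B} (L : LC y) where
  /-- the big chart -/
  W : y.X.Opens
  aW : IsAffineOpen W
  leW : W ≤ L.U
  /-- the index set -/
  ι : Type
  [fin : Fintype ι]
  [dec : DecidableEq ι]
  /-- the small charts -/
  V : ι → y.X.Opens
  aV : ∀ i, IsAffineOpen (V i)
  /-- the equation of the complement of `W` in `V i` -/
  β : ∀ i, Γ(y.X, V i)
  bas : ∀ i, y.X.basicOpen (β i) = W ⊓ V i
  dis : ∀ i j, i ≠ j → V i ⊓ V j ≤ W
  cov : ∀ z : y.X, z ∈ W ∨ ∃ i, z ∈ V i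
  finite : ∀ i, ((Ideal.Quotient.mk (Ideal.span {β i})).comp (coef y.π (V i))).Finite
  /-- the chart of the section -/
  i₀ : ι
  le₀ : V i₀ ≤ L.V
  sec : ⊤ ≤ (y.σ 0) ⁻¹ᵁ V i₀
  ne : ∀ i, i ≠ i₀ → V i ≤ L.U

attribute [instance] NC.fin NC.dec

end Pool.Agent.MG.WL


end

section

/-!
# The market: local Weierstrass form of stable one-pointed curves of genus one over any base

See `Pool/Agent/MG/WL/PAPER.md` for the proofs.
-/

open CategoryTheory CategoryTheory.Limits AlgebraicGeometry TensorProduct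

namespace Pool.Agent.MG.WL

open Pool.Agent.MG.W Pool.Agent.MG.One Pool.Agent.MG.GLU

/-! ## Local coordinates -/

/-- LCE: local coordinates at the section exist Zariski locally on the base. -/
def Stmt_LCE : Prop :=
  ∀ (A : Type) [CommRing A] [Algebra ℂ A] (C : Fam 1 A), IsStable 1 C → ∀ p : PrimeSpectrum A,
    ∃ f : A, f ∉ p.asIdeal ∧ Nonempty (LC (PBS.bc (algebraMap A (Localization.Away f)) C))

/-- LCB: base change of local coordinates. -/
def Stmt_LCB : Prop :=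
  ∀ {A B : Type} [CommRing A] [CommRing B] {φ : A →+* B} {C : Fam 1 A} {y : Fam 1 B}
    (a : Arrow φ y C) (L : LC C), ∃ L' : LC y, L.Bc a L'

/-! ## Nice covers -/

/-- A preliminary nice cover over a local ring: `W ∩ V i` contains `D(β i)`, and the closed fibre is
covered by `W` and the points `z i`. -/
structure PNC {B : Type} [CommRing B] [IsLocalRing B] {y : Fam 1 B} (L : LC y) where
  /-- the big chart -/
  W : y.X.Opens
  aW : IsAffineOpen W
  leW : W ≤ L.U
  /-- the index set -/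
  ι : Type
  [fin : Fintype ι]
  [dec : DecidableEq ι]
  /-- the small charts -/
  V : ι → y.X.Opens
  aV : ∀ i, IsAffineOpen (V i)
  /-- the equation -/
  β : ∀ i, Γ(y.X, V i)
  bas : ∀ i, y.X.basicOpen (β i) ≤ W
  /-- the points of the closed fibre outside `W` -/
  z : ι → y.X
  zc : ∀ i, y.π (z i) = IsLocalRing.closedPoint B
  inj : Function.Injective z
  mem : ∀ i, z i ∈ V i
  nW : ∀ i, z i ∉ W
  uniq : ∀ i (x : y.X), x ∈ V i → y.π x = IsLocalRing.closedPoint B →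
    x ∉ y.X.basicOpen (β i) → x = z i
  cov : ∀ x : y.X, y.π x = IsLocalRing.closedPoint B → x ∈ W ∨ ∃ i, x = z i
  /-- the index of the section -/
  i₀ : ι
  le₀ : V i₀ ≤ L.V
  sec : y.σ 0 (IsLocalRing.closedPoint B) = z i₀

attribute [instance] PNC.fin PNC.dec

/-- The index `i` is good: `Γ(V i)/β i` is finite over the base. -/
def PNC.Good {B : Type} [CommRing B] [IsLocalRing B] {y : Fam 1 B} {L : LC y} (P : PNC L)
    (i : P.ι) : Prop :=
  ((Ideal.Quotient.mk (Ideal.span {P.β i})).comp (coef y.π (P.V i))).Finite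

/-- PNE: preliminary nice covers exist over local rings. -/
def Stmt_PNE : Prop :=
  ∀ (B : Type) [CommRing B] [IsLocalRing B] [Algebra ℂ B] (y : Fam 1 B), IsStable 1 y →
    ∀ L : LC y, Nonempty (PNC L)

/-- SPL: one index can be made good by an étale local extension with trivial extension of the
residue field. -/
def Stmt_SPL : Prop :=
  ∀ (B : Type) [CommRing B] [IsLocalRing B] (y : Fam 1 B), IsStable 1 y →
    ∀ (L : LC y) (P : PNC L) (i : P.ι), ∃ (B' : Type) (_ : CommRing B') (_ : IsLocalRing B')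
      (φ : B →+* B') (_ : IsLocalHom φ) (y' : Fam 1 B') (a : Arrow φ y' y) (L' : LC y')
      (P' : PNC L') (e : P.ι ≃ P'.ι), φ.Flat ∧ L.Bc a L' ∧ P'.Good (e i) ∧
        ∀ j, P.Good j → P'.Good (e j)

/-- GNC: a preliminary nice cover all of whose indices are good gives a nice cover. -/
def Stmt_GNC : Prop :=
  ∀ (B : Type) [CommRing B] [IsLocalRing B] (y : Fam 1 B), IsStable 1 y →
    ∀ (L : LC y) (P : PNC L), (∀ i, P.Good i) → Nonempty (NC L)

/-- NCE: nice covers exist over a flat local extension of the local ring of `p`. -/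
def Stmt_NCE : Prop :=
  ∀ (A : Type) [CommRing A] [Algebra ℂ A] (C : Fam 1 A), IsStable 1 C → ∀ (L : LC C)
    (p : PrimeSpectrum A), ∃ (B : Type) (_ : CommRing B) (_ : IsLocalRing B) (φ : A →+* B)
      (y : Fam 1 B) (a : Arrow φ y C) (L' : LC y), φ.Flat ∧
        Ideal.comap φ (IsLocalRing.maximalIdeal B) = p.asIdeal ∧ L.Bc a L' ∧ Nonempty (NC L')

/-- NCB: base change of nice covers. -/
def Stmt_NCB : Prop :=
  ∀ {A B : Type} [CommRing A] [CommRing B] {φ : A →+* B} {C : Fam 1 A} {y : Fam 1 B}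
    (a : Arrow φ y C) (L : LC C) (L' : LC y) (_ : L.Bc a L') (N : NC L),
    ∃ (N' : NC L') (e : N.ι ≃ N'.ι), N'.W = a.f ⁻¹ᵁ N.W ∧ (∀ i, N'.V (e i) = a.f ⁻¹ᵁ N.V i) ∧
      e N.i₀ = N'.i₀

/-! ## Finiteness of the first cohomology over a local ring -/

/-- CEC: vanishing of the first Čech cohomology of an affine scheme for star shaped covers. -/
def Stmt_CEC : Prop :=
  ∀ {X : Scheme.{0}} (T : X.Opens), IsAffineOpen T → ∀ {ι : Type} [Fintype ι] (W : X.Opens)
    (V : ι → X.Opens), W ≤ T → IsAffineOpen W → (∀ i, V i ≤ T) → (∀ i, IsAffineOpen (V i)) →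
    (∀ z ∈ T, z ∈ W ∨ ∃ i, z ∈ V i) → (∀ i j, i ≠ j → V i ⊓ V j ≤ W) →
    ∀ s : ∀ i, Γ(X, W ⊓ V i), ∃ (r : Γ(X, W)) (q : ∀ i, Γ(X, V i)),
      ∀ i, s i = rs X inf_le_left r + rs X inf_le_right (q i)

/-- LPI: closed subschemes with one equation on every chart of a star shaped cover. -/
def Stmt_LPI : Prop :=
  ∀ {X : Scheme.{0}} {ι : Type} [Fintype ι] (W : X.Opens) (V : ι → X.Opens), IsAffineOpen W →
    (∀ i, IsAffineOpen (V i)) → (∀ i, IsAffineOpen (W ⊓ V i)) →
    (∀ z : X, z ∈ W ∨ ∃ i, z ∈ V i) → (∀ i j, i ≠ j → V i ⊓ V j ≤ W) →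
    ∀ (f : Γ(X, W)) (g : ∀ i, Γ(X, V i)),
    (∀ i, Ideal.span {rs X (inf_le_left : W ⊓ V i ≤ W) f} =
      Ideal.span {rs X (inf_le_right : W ⊓ V i ≤ V i) (g i)}) →
    ∃ (Z : Scheme.{0}) (j : Z ⟶ X), IsClosedImmersion j ∧
      RingHom.ker (j.app W).hom = Ideal.span {f} ∧
      ∀ i, RingHom.ker (j.app (V i)).hom = Ideal.span {g i}

/-- GEO: if the closed subscheme defined by `f`, `g` is quasi-finite over the affine base of the
proper scheme `X`, it is finite and affine. -/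
def Stmt_GEO : Prop :=
  ∀ {P : Type} [CommRing P] {X : Scheme.{0}} (π : X ⟶ Sp P) (_ : IsProper π) {ι : Type}
    [Fintype ι] (W : X.Opens) (V : ι → X.Opens), IsAffineOpen W → (∀ i, IsAffineOpen (V i)) →
    (∀ z : X, z ∈ W ∨ ∃ i, z ∈ V i) → (∀ i j, i ≠ j → V i ⊓ V j ≤ W) →
    ∀ (f : Γ(X, W)) (g : ∀ i, Γ(X, V i)),
    (∀ i, Ideal.span {rs X (inf_le_left : W ⊓ V i ≤ W) f} =
      Ideal.span {rs X (inf_le_right : W ⊓ V i ≤ V i) (g i)}) →
    ((Ideal.Quotient.mk (Ideal.span {f})).comp (coef π W)).QuasiFinite →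
    (∀ i, ((Ideal.Quotient.mk (Ideal.span {g i})).comp (coef π (V i))).QuasiFinite) →
    (∃ (m : ℕ) (e : Fin m → Γ(X, W)) (e' : Fin m → ∀ i, Γ(X, V i)),
      (∀ j i, rs X inf_le_left (e j) - rs X inf_le_right (e' j i) ∈
        Ideal.span {rs X (inf_le_left : W ⊓ V i ≤ W) f}) ∧
      ∀ (r : Γ(X, W)) (q : ∀ i, Γ(X, V i)),
        (∀ i, rs X inf_le_left r - rs X inf_le_right (q i) ∈
          Ideal.span {rs X (inf_le_left : W ⊓ V i ≤ W) f}) →
        ∃ c : Fin m → P, r - ∑ j, coef π W (c j) * e j ∈ Ideal.span {f} ∧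
          ∀ i, q i - ∑ j, coef π (V i) (c j) * e' j i ∈ Ideal.span {g i}) ∧
    ∀ s : ∀ i, Γ(X, W ⊓ V i), ∃ (r : Γ(X, W)) (q : ∀ i, Γ(X, V i)),
      ∀ i, s i - rs X inf_le_left r - rs X inf_le_right (q i) ∈
        Ideal.span {rs X (inf_le_left : W ⊓ V i ≤ W) f}

/-- Rings and homomorphisms for `ALGF`. -/
structure SRings (B : Type) [CommRing B] (ι : Type) where
  /-- functions on `W` -/
  R : Type
  /-- functions on `V i` -/
  Q : ι → Type
  /-- functions on `W ∩ V i` -/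
  S : ι → Type
  [cR : CommRing R]
  [cQ : ∀ i, CommRing (Q i)]
  [cS : ∀ i, CommRing (S i)]
  /-- structure map -/
  cr : B →+* R
  /-- structure map -/
  cq : ∀ i, B →+* Q i
  /-- structure map -/
  cs : ∀ i, B →+* S i
  /-- restriction -/
  jr : ∀ i, R →+* S i
  /-- restriction -/
  jq : ∀ i, Q i →+* S i
  hr : ∀ i b, jr i (cr b) = cs i b
  hq : ∀ i b, jq i (cq i b) = cs i b

attribute [instance] SRings.cR SRings.cQ SRings.cS

/-- The conclusion of `GEO` over `P = B[X]`, for polynomials `f`, `g` over the rings `D`. -/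
def SRings.Geo {B : Type} [CommRing B] {ι : Type} (D : SRings B ι) (f : Polynomial D.R)
    (g : ∀ i, Polynomial (D.Q i)) : Prop :=
  (∃ (m : ℕ) (e : Fin m → Polynomial D.R) (e' : Fin m → ∀ i, Polynomial (D.Q i)),
    (∀ j i, (e j).map (D.jr i) - (e' j i).map (D.jq i) ∈ Ideal.span {f.map (D.jr i)}) ∧
    ∀ (r : Polynomial D.R) (q : ∀ i, Polynomial (D.Q i)),
      (∀ i, r.map (D.jr i) - (q i).map (D.jq i) ∈ Ideal.span {f.map (D.jr i)}) →
      ∃ c : Fin m → Polynomial B, r - ∑ j, (c j).map D.cr * e j ∈ Ideal.span {f} ∧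
        ∀ i, q i - ∑ j, (c j).map (D.cq i) * e' j i ∈ Ideal.span {g i}) ∧
  ∀ s : ∀ i, Polynomial (D.S i), ∃ (r : Polynomial D.R) (q : ∀ i, Polynomial (D.Q i)),
    ∀ i, s i - r.map (D.jr i) - (q i).map (D.jq i) ∈ Ideal.span {f.map (D.jr i)}

/-- ALGF: the graph trick, algebra. -/
def Stmt_ALGF : Prop :=
  ∀ {B : Type} [CommRing B] {ι : Type} [Fintype ι] (D : SRings B ι) (h : D.R)
    (α β : ∀ i, D.Q i), (∀ i, IsUnit (D.jq i (β i))) →
    (∀ i, D.jq i (β i) * D.jr i h = D.jq i (α i)) →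
    D.Geo (Polynomial.X - Polynomial.C h)
      (fun i => Polynomial.C (β i) * Polynomial.X - Polynomial.C (α i)) →
    D.Geo (Polynomial.C h * Polynomial.X - 1)
      (fun i => Polynomial.C (α i) * Polynomial.X - Polynomial.C (β i)) →
    ∃ (m : ℕ) (e : Fin m → ∀ i, D.S i), ∀ s : ∀ i, D.S i,
      ∃ (c : Fin m → B) (r : D.R) (q : ∀ i, D.Q i),
        ∀ i, s i = ∑ j, D.cs i (c j) * e j i + D.jr i r + D.jq i (q i)

/-- QFV: quasi-finiteness of the charts of the graph. -/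
def Stmt_QFV : Prop :=
  ∀ {B R S : Type} [CommRing B] [CommRing R] [CommRing S] (c : B →+* R) (j : R →+* S)
    (β : R) (h : S) (α : R) (N : ℕ), c.FiniteType →
    ((Ideal.Quotient.mk (Ideal.span {β})).comp c).Finite →
    (letI := j.toAlgebra; IsLocalization.Away β S) → j β ^ N * h = j α →
    (Polynomial.eval₂RingHom (j.comp c) h).QuasiFinite →
    ((Ideal.Quotient.mk (Ideal.span
      {(Polynomial.C (β ^ N) * Polynomial.X - Polynomial.C α : Polynomial R)})).comp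
        (Polynomial.mapRingHom c)).QuasiFinite ∧
    ((Ideal.Quotient.mk (Ideal.span
      {(Polynomial.C α * Polynomial.X - Polynomial.C (β ^ N) : Polynomial R)})).comp
        (Polynomial.mapRingHom c)).QuasiFinite

/-- TRN: a function on `W` which is quasi-finite over the affine line over the base. -/
def Stmt_TRN : Prop :=
  ∀ (B : Type) [CommRing B] [IsLocalRing B] [Algebra ℂ B] (y : Fam 1 B), IsStable 1 y →
    ∀ W : y.X.Opens, IsAffineOpen W →
      (∃ x ∈ W, y.π x = IsLocalRing.closedPoint B) →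
      ∃ h : Γ(y.X, W), (Polynomial.eval₂RingHom (coef y.π W) h).QuasiFinite

/-- FG: the first cohomology is finitely generated. -/
def Stmt_FG : Prop :=
  ∀ (B : Type) [CommRing B] [IsLocalRing B] [Algebra ℂ B] (y : Fam 1 B), IsStable 1 y →
    ∀ (L : LC y) (N : NC L), ∃ (m : ℕ) (e : Fin m → ∀ i, Γ(y.X, N.W ⊓ N.V i)),
      ∀ s : ∀ i, Γ(y.X, N.W ⊓ N.V i), ∃ (c : Fin m → B) (r : Γ(y.X, N.W))
        (q : ∀ i, Γ(y.X, N.V i)), ∀ i, s i = ∑ j, coef y.π _ (c j) * e j i +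
          rs y.X inf_le_left r + rs y.X inf_le_right (q i)

/-! ## Vanishing and lifting -/

/-- `s = r + q`, where `q i₀` may have a simple pole along the section. -/
def NC.Tr {B : Type} [CommRing B] {y : Fam 1 B} {L : LC y} (N : NC L)
    (s : ∀ i, Γ(y.X, N.W ⊓ N.V i)) : Prop :=
  ∃ (r : Γ(y.X, N.W)) (q : ∀ i, Γ(y.X, N.V i)),
    (∀ i, i ≠ N.i₀ → s i = rs y.X inf_le_left r + rs y.X inf_le_right (q i)) ∧
    rs y.X (inf_le_right.trans N.le₀ : N.W ⊓ N.V N.i₀ ≤ L.V) L.t *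
      (s N.i₀ - rs y.X inf_le_left r) = rs y.X inf_le_right (q N.i₀)

/-- VNF: vanishing over an algebraically closed field. -/
def Stmt_VNF : Prop :=
  ∀ {k : Type} [Field k] [IsAlgClosed k] (y : Fam 1 k) (a b : k) (_ : a ≠ 0 ∨ b ≠ 0)
    (f : Arrow (RingHom.id k) y (Wei (WZ a b))) (_ : IsIso f.f) (L : LC y) (N : NC L)
    (s : ∀ i, Γ(y.X, N.W ⊓ N.V i)), N.Tr s

/-- VAN: vanishing modulo the maximal ideal. -/
def Stmt_VAN : Prop :=
  ∀ (B : Type) [CommRing B] [IsLocalRing B] [Algebra ℂ B] (y : Fam 1 B), IsStable 1 y →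
    ∀ (L : LC y) (N : NC L) (s : ∀ i, Γ(y.X, N.W ⊓ N.V i)),
      ∃ (m : ℕ) (c : Fin m → B) (_ : ∀ j, c j ∈ IsLocalRing.maximalIdeal B)
        (e : Fin m → ∀ i, Γ(y.X, N.W ⊓ N.V i)),
        N.Tr (fun i => s i - ∑ j, coef y.π _ (c j) * e j i)

/-- LFB: functions with prescribed poles over local rings with nice covers. -/
def Stmt_LFB : Prop :=
  ∀ (B : Type) [CommRing B] [IsLocalRing B] [Algebra ℂ B] (y : Fam 1 B), IsStable 1 y →
    ∀ (L : LC y), Nonempty (NC L) → ∀ n, 2 ≤ n → ∃ X : Γ(y.X, L.U), L.Pole n 1 X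

/-- DSC: descent of functions with prescribed poles. -/
def Stmt_DSC : Prop :=
  ∀ {A B : Type} [CommRing A] [CommRing B] [IsLocalRing B] {φ : A →+* B} {C : Fam 1 A}
    {y : Fam 1 B} (a : Arrow φ y C) (_ : IsProper C.π) (L : LC C) (L' : LC y), L.Bc a L' →
    φ.Flat → ∀ p : PrimeSpectrum A, Ideal.comap φ (IsLocalRing.maximalIdeal B) = p.asIdeal →
    ∀ n, (∃ X' : Γ(y.X, L'.U), L'.Pole n 1 X') → ∃ f : A, f ∉ p.asIdeal ∧
      ∃ X : Γ(C.X, L.U), L.Pole n f X

/-- LIFT: functions with prescribed poles near `p`. -/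
def Stmt_LIFT : Prop :=
  ∀ (A : Type) [CommRing A] [Algebra ℂ A] (C : Fam 1 A), IsStable 1 C → ∀ (L : LC C)
    (p : PrimeSpectrum A) (n : ℕ), 2 ≤ n → ∃ f : A, f ∉ p.asIdeal ∧
      ∃ X : Γ(C.X, L.U), L.Pole n f X

/-! ## Weierstrass form from functions with poles of order two and three -/

/-- FIN: a curve with functions with poles of order two and three is a Weierstrass curve. -/
def Stmt_FIN : Prop :=
  ∀ (A : Type) [CommRing A] [Algebra ℂ A] (C : Fam 1 A), IsStable 1 C → ∀ (L : LC C)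
    (x y : Γ(C.X, L.U)), L.Pole 2 1 x → L.Pole 3 1 y →
    ∃ a b : A, Ideal.span {a, b} = ⊤ ∧
      Nonempty (Arrow (RingHom.id A) (Wei (WZ a b)) C)

end Pool.Agent.MG.WL


end

section

/-!
# `M̄_{1,1}`, block `CL`: statements

A stable one-pointed curve of genus one over an algebraically closed field of characteristic zero
is irreducible and then it is a Weierstrass curve without cusps. Paper proofs are in `PAPER.md`.
-/

open CategoryTheory AlgebraicGeometry IsLocalRing TopologicalSpace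
open Pool.Agent.MG.Two Pool.Agent.MG.W Pool.Agent.MG.W.W0 Pool.Agent.MG.One

namespace Pool.Agent.MG.WL.CL

/-! ## Definitions -/

/-- The generic points of the irreducible components. -/
def Gen {X : Scheme.{0}} (η : X) : Prop := ∀ y : X, y ⤳ η → y = η

/-- All local rings are nodal. -/
def NodeLocs (X : Scheme.{0}) : Prop := ∀ x : X, NodeLoc (X.presheaf.stalk x)

/-- An integral scheme of dimension at most one. -/
def Dim1 (X : Scheme.{0}) : Prop :=
  ∀ (x : X) (P : Ideal (X.presheaf.stalk x)), P.IsPrime → P = ⊥ ∨ P = maximalIdeal _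

/-- The points on at least two irreducible components. -/
def dbl (X : Scheme.{0}) : Set X :=
  {x | ∃ Z ∈ irreducibleComponents X, ∃ Z' ∈ irreducibleComponents X, Z ≠ Z' ∧ x ∈ Z ∧ x ∈ Z'}

/-- `ι : E → X` is the inclusion of an irreducible component of a nodal curve. -/
structure IsComp {E X : Scheme.{0}} (ι : E ⟶ X) : Prop where
  cl : IsClosedImmersion ι
  int : IsIntegral E
  range : Set.range ι ∈ irreducibleComponents X
  ker_min : ∀ y : E, RingHom.ker (ι.stalkMap y).hom ∈ minimalPrimes (X.presheaf.stalk (ι y))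
  dim : Dim1 E
  pir : ∃ V : E.Opens, Nonempty V ∧ ∀ y ∈ V, IsPrincipalIdealRing (E.presheaf.stalk y)

/-- `Z` is an irreducible component with `H¹(O) = 0`. -/
def Good {X : Scheme.{0}} {k : Type} [Field k] (π : X ⟶ Sp k) (Z : Set X) : Prop :=
  ∃ (E : Scheme.{0}) (ι : E ⟶ X), IsComp ι ∧ Set.range ι = Z ∧ HasGenus (ι ≫ π) 0

/-- The rational functions which vanish at `p`. -/
def Mx {E : Scheme.{0}} [IsIntegral E] (p : E) : Set E.functionField :=
  {g | ∃ a ∈ maximalIdeal (E.presheaf.stalk p), algebraMap (E.presheaf.stalk p) E.functionField a = g}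

/-- A derivation over `k` of the function field which preserves all local rings. -/
structure FDer {E : Scheme.{0}} [IsIntegral E] {k : Type} [Field k] (π : E ⟶ Sp k)
    (δ : E.functionField → E.functionField) : Prop where
  add : ∀ f g, δ (f + g) = δ f + δ g
  mul : ∀ f g, δ (f * g) = f * δ g + g * δ f
  const : ∀ c : k, δ (kfun π c) = 0
  reg : ∀ (x : E), ∀ g ∈ O x, δ g ∈ O x

/-- An affine neighbourhood with a coordinate of a regular closed point. -/
structure Cht {X : Scheme.{0}} (p : X) where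
  N : X.Opens
  z : Γ(X, N)
  aff : IsAffineOpen N
  mem : p ∈ N
  gz : ∀ r : Γ(X, N), p ∉ X.basicOpen r ↔ ∃ s, r = z * s
  bas : ∀ x ∈ N, x ∈ X.basicOpen z ↔ x ≠ p

/-! ## Vector fields -/

/-- UNQ: sections of a reduced scheme are determined by their germs at the generic points. -/
def Stmt_UNQ : Prop :=
  ∀ {X : Scheme.{0}} [IsReduced X] (U : X.Opens) (a b : Γ(X, U)),
    (∀ (y : X) (hy : y ∈ U), Gen y → X.presheaf.germ U y hy a = X.presheaf.germ U y hy b) → a = b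

/-- GSP: primes of local rings and generisations. -/
def Stmt_GSP : Prop :=
  ∀ {X : Scheme.{0}} (x : X),
    (∀ (P : Ideal (X.presheaf.stalk x)), P.IsPrime → ∃ (y : X) (h : y ⤳ x),
      (maximalIdeal (X.presheaf.stalk y)).comap (X.presheaf.stalkSpecializes h).hom = P) ∧
    (∀ (y y' : X) (h : y ⤳ x) (h' : y' ⤳ x),
      (maximalIdeal (X.presheaf.stalk y)).comap (X.presheaf.stalkSpecializes h).hom ≤
        (maximalIdeal (X.presheaf.stalk y')).comap (X.presheaf.stalkSpecializes h').hom ↔ y ⤳ y') ∧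
    (∀ (h : x ⤳ x),
      (maximalIdeal (X.presheaf.stalk x)).comap (X.presheaf.stalkSpecializes h).hom =
        maximalIdeal (X.presheaf.stalk x))

/-- MPC: for schemes with reduced local rings the minimal primes of the local ring at `x` are the
kernels of the restrictions to the generic points which specialise to `x`. -/
def Stmt_MPC : Prop :=
  ∀ {X : Scheme.{0}} [IsReduced X] (x : X),
    (∀ (η : X) (h : η ⤳ x), Gen η →
      RingHom.ker (X.presheaf.stalkSpecializes h).hom ∈ minimalPrimes (X.presheaf.stalk x)) ∧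
    (∀ (η η' : X) (h : η ⤳ x) (h' : η' ⤳ x), Gen η → Gen η' →
      RingHom.ker (X.presheaf.stalkSpecializes h).hom =
        RingHom.ker (X.presheaf.stalkSpecializes h').hom → η = η') ∧
    (∀ P ∈ minimalPrimes (X.presheaf.stalk x), ∃ (η : X) (h : η ⤳ x), Gen η ∧
      RingHom.ker (X.presheaf.stalkSpecializes h).hom = P)

/-- VF: a vector field from a map of the local ring at one generic point. -/
def Stmt_VF : Prop :=
  ∀ {X : Scheme.{0}} [IsReduced X] [NoetherianSpace X] (η : X), Gen η →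
    ∀ (D : X.presheaf.stalk η → X.presheaf.stalk η),
    (∀ (x : X) (h : η ⤳ x) (g : X.presheaf.stalk x), ∃ g' : X.presheaf.stalk x,
      X.presheaf.stalkSpecializes h g' = D (X.presheaf.stalkSpecializes h g) ∧
      ∀ (y : X) (hy : y ⤳ x), Gen y → y ≠ η → X.presheaf.stalkSpecializes hy g' = 0) →
    ∃ F : ∀ U : X.Opens, Γ(X, U) → Γ(X, U),
      (∀ (U : X.Opens) (hU : η ∈ U) (a : Γ(X, U)),
        X.presheaf.germ U η hU (F U a) = D (X.presheaf.germ U η hU a)) ∧
      (∀ (U : X.Opens) (y : X) (hy : y ∈ U), Gen y → y ≠ η → ∀ a : Γ(X, U),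
        X.presheaf.germ U y hy (F U a) = 0) ∧
      (∀ (U : X.Opens) (x : X) (hx : x ∈ U) (a : Γ(X, U)), ¬ (η ⤳ x) →
        X.presheaf.germ U x hx (F U a) = 0) ∧
      (∀ (U : X.Opens) (x : X) (hx : x ∈ U) (a : Γ(X, U)) (h : η ⤳ x)
        (g' : X.presheaf.stalk x),
        X.presheaf.stalkSpecializes h g' =
          D (X.presheaf.stalkSpecializes h (X.presheaf.germ U x hx a)) →
        (∀ (y : X) (hy : y ⤳ x), Gen y → y ≠ η → X.presheaf.stalkSpecializes hy g' = 0) →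
        X.presheaf.germ U x hx (F U a) = g')

/-- CE: the irreducible components of a nodal curve. -/
def Stmt_CE : Prop :=
  ∀ {k : Type} [Field k] {X : Scheme.{0}} (π : X ⟶ Sp k) [IsProper π], Nodal π → NodeLocs X →
    ∀ Z ∈ irreducibleComponents X, ∃ (E : Scheme.{0}) (ι : E ⟶ X), IsComp ι ∧ Set.range ι = Z

/-- EXT: a vector field on a component which vanishes at the points on other components and at the
marked point extends by zero. -/
def Stmt_EXT : Prop :=
  ∀ {k : Type} [Field k] [IsAlgClosed k] (C : Fam 1 k), IsProper C.π → Nodal C.π → NodeLocs C.X →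
    ∀ (q : Sp k) {E : Scheme.{0}} (ι : E ⟶ C.X) (h : IsComp ι) [IsIntegral E]
      (δ : E.functionField → E.functionField), FDer (ι ≫ C.π) δ →
      (∀ y : E, ι y ∈ dbl C.X → ∀ g ∈ O y, δ g ∈ Mx y) →
      (∀ y : E, ι y = C.σ 0 q → ∀ g ∈ O y, δ g ∈ Mx y) →
      (∃ f, δ f ≠ 0) →
      ∃ (v : VField C) (U : C.X.Opens), v.D U ≠ 0

/-! ## Counting -/

/-- CNT0: the linear algebra of the Čech complexes. -/
def Stmt_CNT0 : Prop :=
  ∀ (k : Type) [Field k] (I D : Type) [Fintype I] [Fintype D] [DecidableEq I]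
    (RU RV RW : Type) [AddCommGroup RU] [AddCommGroup RV] [AddCommGroup RW]
    [Module k RU] [Module k RV] [Module k RW]
    (MU MV MW : I → Type) [∀ i, AddCommGroup (MU i)] [∀ i, AddCommGroup (MV i)]
    [∀ i, AddCommGroup (MW i)] [∀ i, Module k (MU i)] [∀ i, Module k (MV i)]
    [∀ i, Module k (MW i)]
    (ρU : RU →ₗ[k] RW) (ρV : RV →ₗ[k] RW)
    (rU : ∀ i, MU i →ₗ[k] MW i) (rV : ∀ i, MV i →ₗ[k] MW i)
    (iU : ∀ i, RU →ₗ[k] MU i) (iV : ∀ i, RV →ₗ[k] MV i) (iW : ∀ i, RW →ₗ[k] MW i)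
    (L : RW →ₗ[k] k)
    (PU PV : D → Prop)
    (δU : D → (∀ i, MU i) →ₗ[k] k) (δV : D → (∀ i, MV i) →ₗ[k] k)
    (δW : D → (∀ i, MW i) →ₗ[k] k) (oneU : RU) (oneV : RV),
    (∀ i a, rU i (iU i a) = iW i (ρU a)) → (∀ i a, rV i (iV i a) = iW i (ρV a)) →
    Function.Surjective L → (∀ s, L s = 0 ↔ ∃ a b, s = ρU a + ρV b) →
    (∀ d, PU d ∨ PV d) →
    (∀ a d, PU d → δU d (fun i => iU i a) = 0) → (∀ a d, PV d → δV d (fun i => iV i a) = 0) →
    (∀ a d, PU d → PV d → δW d (fun i => iW i a) = 0) →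
    (∀ c : D → k, ∃ m, ∀ d, PU d → δU d m = c d) → (∀ c : D → k, ∃ m, ∀ d, PV d → δV d m = c d) →
    (∀ d m, PU d → PV d → δW d (fun i => rU i (m i)) = δU d m) →
    (∀ d m, PU d → PV d → δW d (fun i => rV i (m i)) = δV d m) →
    (∀ m, (∀ d, PU d → PV d → δW d m = 0) → ∃ a, ∀ i, iW i a = m i) →
    (∀ a, (∀ i, iW i a = 0) → a = 0) →
    (∀ i a b, rU i a = rV i b → ∃ c : k, a = c • iU i oneU ∧ b = c • iV i oneV) →
    ρU oneU = ρV oneV →
    Fintype.card D +
      {i : I | ¬ ∀ s : MW i, ∃ a b, s = rU i a + rV i b}.ncard ≤ Fintype.card I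

/-- NAFF: functions on an affine nodal curve. -/
def Stmt_NAFF : Prop :=
  ∀ {R I : Type} [CommRing R] [Finite I] (J : I → Ideal R), (⨅ i, J i) = ⊥ →
    (∀ P : Ideal R, P.IsMaximal → ∀ i j l, J i ≤ P → J j ≤ P → J l ≤ P → i ≠ j → l = i ∨ l = j) →
    (∀ P : Ideal R, P.IsMaximal → ∀ i j, J i ≤ P → J j ≤ P → i ≠ j →
      ∀ a ∈ P, ∃ t, t ∉ P ∧ t * a ∈ J i ⊔ J j) →
    ∀ m : I → R, (∀ P : Ideal R, P.IsMaximal → ∀ i j, J i ≤ P → J j ≤ P → m i - m j ∈ P) →
      ∃ a, ∀ i, a - m i ∈ J i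

/-- DFIN: the points on two components. -/
def Stmt_DFIN : Prop :=
  ∀ {X : Scheme.{0}} [NoetherianSpace X], NodeLocs X →
    (dbl X).Finite ∧ (∀ x ∈ dbl X, IsClosed {x}) ∧
    (∀ x ∈ dbl X, ¬ IsDomain (X.presheaf.stalk x)) ∧
    ∀ Z₁ ∈ irreducibleComponents X, ∀ Z₂ ∈ irreducibleComponents X, Z₁ ≠ Z₂ →
      ∀ Z₃ ∈ irreducibleComponents X, ∀ x, x ∈ Z₁ → x ∈ Z₂ → x ∈ Z₃ → Z₃ = Z₁ ∨ Z₃ = Z₂

/-- VAL: values at closed points. -/
def Stmt_VAL : Prop :=
  ∀ {k : Type} [Field k] [IsAlgClosed k] {X : Scheme.{0}} (π : X ⟶ Sp k) [LocallyOfFiniteType π]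
    (x : X), IsClosed {x} → ∃ e : X.presheaf.stalk x →+* k, RingHom.ker e = maximalIdeal _ ∧
      ∀ (U : X.Opens) (hx : x ∈ U) (c : k), e (X.presheaf.germ U x hx (coef π U c)) = c

/-- NGEO: the ideals of the components in an affine open set of a nodal curve satisfy the
hypotheses of `Stmt_NAFF`. -/
def Stmt_NGEO : Prop :=
  ∀ {X : Scheme.{0}}, NodeLocs X → ∀ {W : X.Opens} (hW : IsAffineOpen W) {I : Type}
    (E : I → Scheme.{0}) (ι : ∀ i, E i ⟶ X), (∀ i, IsComp (ι i)) →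
    (∀ i j, Set.range (ι i) = Set.range (ι j) → i = j) →
    (∀ (P : PrimeSpectrum Γ(X, W)) (i : I),
      RingHom.ker ((ι i).app W).hom ≤ P.asIdeal ↔ hW.fromSpec P ∈ Set.range (ι i)) ∧
    (∀ (P : PrimeSpectrum Γ(X, W)) (i j : I), i ≠ j → hW.fromSpec P ∈ Set.range (ι i) →
      hW.fromSpec P ∈ Set.range (ι j) → ∀ a ∈ P.asIdeal, ∃ t, t ∉ P.asIdeal ∧
        t * a ∈ RingHom.ker ((ι i).app W).hom ⊔ RingHom.ker ((ι j).app W).hom) ∧
    ((∀ Z ∈ irreducibleComponents X, ∃ i, Set.range (ι i) = Z) →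
      ⨅ i, RingHom.ker ((ι i).app W).hom = ⊥) ∧
    (∀ i, Function.Surjective ((ι i).app W).hom)

/-- CNT: the count of the components and the double points of a nodal curve of genus one. -/
def Stmt_CNT : Prop :=
  ∀ {k : Type} [Field k] [IsAlgClosed k] {X : Scheme.{0}} (π : X ⟶ Sp k) [IsProper π],
    Nodal π → NodeLocs X → HasGenus π 1 →
    (dbl X).ncard + {Z | Z ∈ irreducibleComponents X ∧ ¬ Good π Z}.ncard ≤
      (irreducibleComponents X).ncard

/-- ARITH: the combinatorics. -/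
def Stmt_ARITH : Prop :=
  ∀ {X : Type} [TopologicalSpace X] [NoetherianSpace X] [ConnectedSpace X] (D : Set X)
    (good : Set X → Prop) (s : X), D.Finite →
    (∀ x, x ∈ D ↔ ∃ Z ∈ irreducibleComponents X, ∃ Z' ∈ irreducibleComponents X,
      Z ≠ Z' ∧ x ∈ Z ∧ x ∈ Z') →
    (∀ Z₁ ∈ irreducibleComponents X, ∀ Z₂ ∈ irreducibleComponents X, Z₁ ≠ Z₂ →
      ∀ Z₃ ∈ irreducibleComponents X, ∀ x, x ∈ Z₁ → x ∈ Z₂ → x ∈ Z₃ → Z₃ = Z₁ ∨ Z₃ = Z₂) →
    D.ncard + {Z | Z ∈ irreducibleComponents X ∧ ¬ good Z}.ncard ≤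
      (irreducibleComponents X).ncard →
    s ∉ D → ¬ IrreducibleSpace X →
    ∃ Z ∈ irreducibleComponents X, good Z ∧ (Z ∩ D).Nonempty ∧ (Z ∩ (D ∪ {s})).ncard ≤ 2

/-! ## Integral curves -/

/-- AFC: the complement of a principal point in an affine open set is affine. -/
def Stmt_AFC : Prop :=
  ∀ {X : Scheme.{0}} {p : X} (c : Cht p) {V V' : X.Opens}, IsAffineOpen V →
    (∀ x, x ∈ V' ↔ x ∈ V ∧ x ≠ p) → IsAffineOpen V'

/-- CHT: a regular closed point has a coordinate. -/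
def Stmt_CHT : Prop :=
  ∀ {k : Type} [Field k] {X : Scheme.{0}} (π : X ⟶ Sp k) [LocallyOfFiniteType π] [IsIntegral X],
    Dim1 X → ∀ p : X, p ≠ genericPoint X → IsPrincipalIdealRing (X.presheaf.stalk p) →
      ∀ W : X.Opens, p ∈ W → ∃ c : Cht p, c.N ≤ W

/-- POLE: functions with a pole of small order at one point. -/
def Stmt_POLE : Prop :=
  ∀ {k : Type} [Field k] [IsAlgClosed k] {X : Scheme.{0}} (π : X ⟶ Sp k) [IsProper π]
    [IsIntegral X] (g : ℕ), HasGenus π g → ∀ {p : X}, IsClosed {p} → p ≠ genericPoint X →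
      ∀ (c : Cht p) [Nonempty c.N],
      ∃ (f : X.functionField) (n : ℕ) (u : Γ(X, c.N)), 1 ≤ n ∧ n ≤ g + 1 ∧
        (∀ x, x ≠ p → x ∈ dom f) ∧ p ∈ X.basicOpen u ∧
        f * X.germToFunctionField c.N c.z ^ n = X.germToFunctionField c.N u

/-- FIN: domains of functions are affine. -/
def Stmt_FIN : Prop :=
  ∀ {k : Type} [Field k] {X : Scheme.{0}} (π : X ⟶ Sp k) [IsProper π] [IsIntegral X], Dim1 X →
    ∀ f : X.functionField, Transc π f → (∀ x, x ∈ dom f ∨ x ∈ dom f⁻¹) → IsAffineOpen (dom f)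

/-- TRS: curves of genus one have non constant functions. -/
def Stmt_TRS : Prop :=
  ∀ {k : Type} [Field k] [IsAlgClosed k] {X : Scheme.{0}} (π : X ⟶ Sp k) [IsIntegral X],
    HasGenus π 1 → ∃ f : X.functionField, Transc π f

/-- GEN0: if `f` has a simple pole at `p` and no other pole then the functions with poles only
at `p` are the polynomials in `f`. -/
def Stmt_GEN0 : Prop :=
  ∀ {k : Type} [Field k] [IsAlgClosed k] {E : Scheme.{0}} (π : E ⟶ Sp k) [IsProper π]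
    [IsIntegral E] {p : E}, IsClosed {p} → IsPrincipalIdealRing (E.presheaf.stalk p) →
    ∀ (c : Cht p) [Nonempty c.N] (f : E.functionField) (u : Γ(E, c.N)),
    (∀ x, x ≠ p → x ∈ dom f) → p ∈ E.basicOpen u →
    f * E.germToFunctionField c.N c.z = E.germToFunctionField c.N u →
    ∀ h : E.functionField, (∀ x, x ≠ p → x ∈ dom h) →
      ∃ P : Polynomial k, h = P.eval₂ (kfun π) f

/-- DER: the vector fields `q(f) d/df`, `deg q ≤ 2`, on a curve with coordinate `f`. -/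
def Stmt_DER : Prop :=
  ∀ {k : Type} [Field k] [IsAlgClosed k] {E : Scheme.{0}} (π : E ⟶ Sp k) [IsProper π]
    [IsIntegral E] {p : E}, IsClosed {p} → p ≠ genericPoint E →
    ∀ (f : E.functionField), Transc π f → IsAffineOpen (dom f) → (∀ x, x ∈ dom f ↔ x ≠ p) →
    f⁻¹ ∈ Mx p →
    (∀ h : E.functionField, (∀ x, x ≠ p → x ∈ dom h) → ∃ P : Polynomial k, h = P.eval₂ (kfun π) f) →
    ∀ S : Set E, S.Finite → S.ncard ≤ 2 → p ∉ S → (∀ x ∈ S, x ≠ genericPoint E) →
      ∃ δ : E.functionField → E.functionField, FDer π δ ∧ (∃ f, δ f ≠ 0) ∧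
        ∀ x ∈ S, ∀ g ∈ O x, δ g ∈ Mx x

/-- P1: vector fields on integral curves with `H¹(O) = 0`. -/
def Stmt_P1 : Prop :=
  ∀ {k : Type} [Field k] [IsAlgClosed k] {E : Scheme.{0}} (π : E ⟶ Sp k) [IsProper π]
    [IsIntegral E], Dim1 E → HasGenus π 0 →
    (∃ V : E.Opens, Nonempty V ∧ ∀ y ∈ V, IsPrincipalIdealRing (E.presheaf.stalk y)) →
    ∀ S : Set E, S.Finite → S.ncard ≤ 2 → (∀ x ∈ S, x ≠ genericPoint E) → S.Nonempty →
      ∃ δ : E.functionField → E.functionField, FDer π δ ∧ (∃ f, δ f ≠ 0) ∧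
        ∀ x ∈ S, ∀ g ∈ O x, δ g ∈ Mx x

/-- INT: integral curves of genus one. -/
def Stmt_INT : Prop :=
  ∀ {k : Type} [Field k] [IsAlgClosed k] [CharZero k] (C : Fam 1 k) [IsIntegral C.X],
    IsProper C.π → Dim1 C.X → HasGenus C.π 1 →
    (∀ q : Sp k, IsPrincipalIdealRing (C.X.presheaf.stalk (C.σ 0 q))) →
    ∃ (a b : k) (f : Arrow (RingHom.id k) C (Wei (WZ a b))), IsIso f.f

/-- CUSP: the cuspidal cubic has a vector field. -/
def Stmt_CUSP : Prop :=
  ∀ {k : Type} [Field k] [CharZero k], IsIntegral (Wei (WZ (0 : k) 0)).X →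
    ∃ (v : VField (Wei (WZ (0 : k) 0))) (U : (Wei (WZ (0 : k) 0)).X.Opens), v.D U ≠ 0

/-- SMP: the marked point is regular. -/
def Stmt_SMP : Prop :=
  ∀ {k : Type} [Field k] {X : Scheme.{0}} (π : X ⟶ Sp k), Nodal π → ∀ (U : X.Opens),
    Smooth (U.ι ≫ π) → ∀ x ∈ U,
      IsDomain (X.presheaf.stalk x) ∧ IsPrincipalIdealRing (X.presheaf.stalk x)

end Pool.Agent.MG.WL.CL


end

section

/-!
# UNQ: sections of a reduced scheme are determined by their germs at the generic points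
-/

open CategoryTheory AlgebraicGeometry TopologicalSpace

namespace Pool.Agent.MG.WL.CL

namespace UNQ_

/-- Every point is a specialisation of a generic point. -/
theorem exists_gen {X : Scheme.{0}} (x : X) : ∃ η : X, η ⤳ x ∧ Gen η := by
  have hi : IsIrreducible (irreducibleComponent x) := isIrreducible_irreducibleComponent
  have hs := hi.isGenericPoint_genericPoint isClosed_irreducibleComponent
  refine ⟨hi.genericPoint, ?_, ?_⟩
  · rw [specializes_iff_mem_closure, hs.def]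
    exact mem_irreducibleComponent
  · intro y hy
    have h1 : irreducibleComponent x ⊆ closure {y} := by
      rw [← hs.def]
      exact closure_minimal (Set.singleton_subset_iff.2 (specializes_iff_mem_closure.1 hy))
        isClosed_closure
    have h2 : closure {y} = irreducibleComponent x :=
      eq_irreducibleComponent isPreirreducible_singleton.closure h1
    have h3 : hi.genericPoint ⤳ y := by
      rw [specializes_iff_mem_closure, hs.def, ← h2]
      exact subset_closure rfl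
    exact (hy.antisymm h3).eq

end UNQ_

theorem t_UNQ : Stmt_UNQ := by
  intro X _ U a b h
  rw [← sub_eq_zero]
  rw [← basicOpen_eq_bot_iff]
  rw [eq_bot_iff]
  intro x hx
  obtain ⟨η, h1, h2⟩ := UNQ_.exists_gen x
  have h3 : η ∈ X.basicOpen (a - b) := h1.mem_open (X.basicOpen (a - b)).isOpen hx
  have hU : η ∈ U := X.basicOpen_le _ h3
  have h4 := (X.mem_basicOpen (a - b) η hU).1 h3
  rw [map_sub, h η hU h2, sub_self] at h4
  exact absurd h4 not_isUnit_zero

end Pool.Agent.MG.WL.CL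


end

section

/-!
# `M̄_{1,1}`, block `CL`: `NAFF`, functions on an affine nodal curve
-/

open CategoryTheory AlgebraicGeometry IsLocalRing TopologicalSpace

namespace Pool.Agent.MG.WL.CL

namespace NAFF_

/-- The ideal of the denominators. -/
def A {R I : Type} [CommRing R] (J : I → Ideal R) (m : I → R) : Ideal R where
  carrier := {b | ∃ a, ∀ i, a - b * m i ∈ J i}
  add_mem' := by
    rintro b b' ⟨a, ha⟩ ⟨a', ha'⟩
    refine ⟨a + a', fun i => ?_⟩
    have h := (J i).add_mem (ha i) (ha' i)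
    have e : a + a' - (b + b') * m i = (a - b * m i) + (a' - b' * m i) := by ring
    rw [e]; exact h
  zero_mem' := ⟨0, fun i => by simp⟩
  smul_mem' := by
    rintro c b ⟨a, ha⟩
    refine ⟨c * a, fun i => ?_⟩
    have h := (J i).mul_mem_left c (ha i)
    have e : c * a - (c • b) * m i = c * (a - b * m i) := by
      rw [smul_eq_mul]; ring
    rw [e]; exact h

theorem mem_A {R I : Type} [CommRing R] {J : I → Ideal R} {m : I → R} {b : R} (a : R)
    (h : ∀ i, a - b * m i ∈ J i) : b ∈ A J m := ⟨a, h⟩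

/-- An element outside of a prime `P` in all the ideals which are not contained in `P`. -/
theorem exists_s {R I : Type} [CommRing R] [Finite I] (J : I → Ideal R) (P : Ideal R)
    (hP : P.IsPrime) : ∃ s, s ∉ P ∧ ∀ i, ¬ J i ≤ P → s ∈ J i := by
  classical
  have : Fintype I := Fintype.ofFinite I
  have h1 : ∀ i, ∃ s, s ∉ P ∧ (¬ J i ≤ P → s ∈ J i) := by
    intro i
    by_cases h : J i ≤ P
    · exact ⟨1, fun h1 => hP.ne_top ((Ideal.eq_top_iff_one P).2 h1), fun h2 => absurd h h2⟩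
    · obtain ⟨s, hs, hs'⟩ := SetLike.not_le_iff_exists.1 h
      exact ⟨s, hs', fun _ => hs⟩
  choose s hs hs' using h1
  refine ⟨∏ i, s i, ?_, ?_⟩
  · intro h
    obtain ⟨i, -, hi⟩ := (hP.prod_mem_iff).1 h
    exact hs i hi
  · intro i hi
    exact (J i).mem_of_dvd (Finset.dvd_prod_of_mem s (Finset.mem_univ i)) (hs' i hi)

end NAFF_

open _root_.Pool.Agent.MG.WL.CL.NAFF_ in
theorem t_NAFF : Stmt_NAFF := by
  intro R I _ _ J _ htwo hsum m hm
  have key : A J m = ⊤ := by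
    by_contra hne
    obtain ⟨P, hP, hle⟩ := Ideal.exists_le_maximal _ hne
    obtain ⟨s, hs, hsJ⟩ := exists_s J P hP.isPrime
    by_cases h0 : ∃ i, J i ≤ P
    · obtain ⟨i, hi⟩ := h0
      by_cases h1 : ∃ j, J j ≤ P ∧ i ≠ j
      · obtain ⟨j, hj, hij⟩ := h1
        obtain ⟨t, ht, htm⟩ := hsum P hP i j hi hj hij (m i - m j) (hm P hP i j hi hj)
        obtain ⟨α, hα, β, hβ, hαβ⟩ := Submodule.mem_sup.1 htm
        have hst : s * t ∈ A J m := by
          refine mem_A (s * (t * m i - α)) fun l => ?_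
          by_cases hl : J l ≤ P
          · rcases htwo P hP i j l hi hj hl hij with rfl | rfl
            · have e : s * (t * m l - α) - s * t * m l = (-s) * α := by ring
              rw [e]
              exact (J l).mul_mem_left _ hα
            · have e : s * (t * m i - α) - s * t * m l = s * β := by
                have : β = t * (m i - m l) - α := by rw [← hαβ]; ring
                rw [this]; ring
              rw [e]
              exact (J l).mul_mem_left _ hβ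
          · have e : s * (t * m i - α) - s * t * m l = (t * m i - α - t * m l) * s := by ring
            rw [e]
            exact (J l).mul_mem_left _ (hsJ l hl)
        rcases hP.isPrime.mem_or_mem (hle hst) with h | h
        · exact hs h
        · exact ht h
      · have hsA : s ∈ A J m := by
          refine mem_A (s * m i) fun l => ?_
          by_cases hl : J l ≤ P
          · have : l = i := by
              by_contra hli
              exact h1 ⟨l, hl, fun h => hli h.symm⟩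
            subst this
            simp
          · have e : s * m i - s * m l = (m i - m l) * s := by ring
            rw [e]
            exact (J l).mul_mem_left _ (hsJ l hl)
        exact hs (hle hsA)
    · have hsA : s ∈ A J m := by
        refine mem_A 0 fun l => ?_
        have hl : ¬ J l ≤ P := fun h => h0 ⟨l, h⟩
        have e : 0 - s * m l = (- m l) * s := by ring
        rw [e]
        exact (J l).mul_mem_left _ (hsJ l hl)
      exact hs (hle hsA)
  have h1 : (1 : R) ∈ A J m := by rw [key]; exact Submodule.mem_top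
  obtain ⟨a, ha⟩ := h1
  refine ⟨a, fun i => ?_⟩
  have := ha i
  rwa [one_mul] at this

end Pool.Agent.MG.WL.CL


end

section

/-!
# DFIN: the points on two components
-/

open CategoryTheory AlgebraicGeometry IsLocalRing TopologicalSpace

namespace Pool.Agent.MG.WL.CL

namespace DFIN_

variable {X : Scheme.{0}}

/-- The generic point of an irreducible component. -/
theorem exists_gen {Z : Set X} (hZ : Z ∈ irreducibleComponents X) :
    ∃ η : X, Gen η ∧ closure {η} = Z := by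
  have hcl := isClosed_of_mem_irreducibleComponents Z hZ
  have hg := hZ.1.isGenericPoint_genericPoint hcl
  refine ⟨hZ.1.genericPoint, ?_, hg⟩
  intro y hy
  have h1 : Z ⊆ closure {y} := by
    rw [← hg]
    exact closure_minimal (Set.singleton_subset_iff.2 (specializes_iff_mem_closure.1 hy))
      isClosed_closure
  have h2 : closure {y} ⊆ Z := hZ.2 isIrreducible_singleton.closure h1
  have h3 : hZ.1.genericPoint ⤳ y := by
    rw [specializes_iff_mem_closure, hg]
    exact h2 (subset_closure rfl)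
  exact (hy.antisymm h3).eq

/-- The data of a point on two components. -/
theorem dbl_gen {x : X} (hx : x ∈ dbl X) :
    ∃ η η' : X, Gen η ∧ Gen η' ∧ η ⤳ x ∧ η' ⤳ x ∧ η ≠ η' := by
  obtain ⟨Z, hZ, Z', hZ', hne, h1, h2⟩ := hx
  obtain ⟨η, hη, rfl⟩ := exists_gen hZ
  obtain ⟨η', hη', rfl⟩ := exists_gen hZ'
  refine ⟨η, η', hη, hη', specializes_iff_mem_closure.2 h1, specializes_iff_mem_closure.2 h2, ?_⟩
  rintro rfl
  exact hne rfl

/-- A finite union of closed sets. -/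
theorem isClosed_dbl [NoetherianSpace X] : IsClosed (dbl X) := by
  have hf : (irreducibleComponents X).Finite := NoetherianSpace.finite_irreducibleComponents
  have h : dbl X = ⋃ Z ∈ irreducibleComponents X, ⋃ Z' ∈ irreducibleComponents X,
      {x | Z ≠ Z' ∧ x ∈ Z ∧ x ∈ Z'} := by
    ext x
    simp only [dbl, Set.mem_iUnion, Set.mem_ofPred_eq, exists_prop]
  rw [h]
  refine hf.isClosed_biUnion fun Z hZ => hf.isClosed_biUnion fun Z' hZ' => ?_
  by_cases hne : Z = Z'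
  · have : {x : X | Z ≠ Z' ∧ x ∈ Z ∧ x ∈ Z'} = ∅ := by
      ext x
      simp [hne]
    rw [this]
    exact isClosed_empty
  · have : {x : X | Z ≠ Z' ∧ x ∈ Z ∧ x ∈ Z'} = Z ∩ Z' := by
      ext x
      simp [hne]
    rw [this]
    exact (isClosed_of_mem_irreducibleComponents Z hZ).inter
      (isClosed_of_mem_irreducibleComponents Z' hZ')

/-- A closed set all of whose points are closed is finite. -/
theorem finite_of_closed [NoetherianSpace X] {C : Set X} (hC : IsClosed C)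
    (h : ∀ x ∈ C, IsClosed {x}) : C.Finite := by
  obtain ⟨S, hf, hcl, hirr, hS⟩ := NoetherianSpace.exists_finite_set_isClosed_irreducible hC
  rw [hS]
  refine hf.sUnion fun t ht => ?_
  obtain ⟨g, hg⟩ : ∃ g : X, closure {g} = t :=
    ⟨_, (hirr t ht).isGenericPoint_genericPoint (hcl t ht)⟩
  have h1 : g ∈ t := by
    rw [← hg]
    exact subset_closure rfl
  have h2 : IsClosed {g} := h _ (by rw [hS]; exact ⟨t, ht, h1⟩)
  rw [← hg, h2.closure_eq]
  exact Set.finite_singleton _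

end DFIN_

open _root_.Pool.Agent.MG.WL.CL.DFIN_ in
theorem t_DFIN (hG : Stmt_GSP) (hM : Stmt_MPC) : Stmt_DFIN := by
  intro X _ hN
  have hst : ∀ x : X, _root_.IsReduced (X.presheaf.stalk x) := fun x => (hN x).red
  have hred : IsReduced X := isReduced_of_isReduced_stalk X
  have hclosed : ∀ x ∈ dbl X, IsClosed {x} := by
    intro x hx
    obtain ⟨η, η', hη, hη', h1, h2, hne⟩ := dbl_gen hx
    have key : ∀ y : X, x ⤳ y → y = x := by
      intro y hy
      obtain ⟨-, g2, g3⟩ := hG y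
      have hP : ((maximalIdeal (X.presheaf.stalk x)).comap
          (X.presheaf.stalkSpecializes hy).hom).IsPrime := Ideal.comap_isPrime _ _
      rcases (hN y).dim _ hP with hmin | hmax
      · exfalso
        -- a generic point gives a smaller prime
        have h3 := (g2 η x (h1.trans hy) hy).2 h1
        have hQ : ((maximalIdeal (X.presheaf.stalk η)).comap
          (X.presheaf.stalkSpecializes (h1.trans hy)).hom).IsPrime := Ideal.comap_isPrime _ _
        have h4 := hmin.2 ⟨hQ, bot_le⟩ h3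
        have h5 : x ⤳ η := (g2 x η hy (h1.trans hy)).1 h4
        have h6 : x = η := (h5.antisymm h1).eq
        rw [h6] at h2
        exact hne (hη η' h2).symm
      · have h3 : y ⤳ x := by
          apply (g2 y x (specializes_refl y) hy).1
          rw [g3 (specializes_refl y), hmax]
        exact (h3.antisymm hy).eq
    rw [← closure_subset_iff_isClosed]
    intro y hy
    exact key y (specializes_iff_mem_closure.2 hy)
  refine ⟨finite_of_closed isClosed_dbl hclosed, hclosed, ?_, ?_⟩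
  · intro x hx hdom
    obtain ⟨η, η', hη, hη', h1, h2, hne⟩ := dbl_gen hx
    obtain ⟨m1, m2, -⟩ := hM x
    have h3 := m1 η h1 hη
    have h4 := m1 η' h2 hη'
    rw [IsDomain.minimalPrimes_eq_singleton_bot, Set.mem_singleton_iff] at h3 h4
    exact hne (m2 η η' h1 h2 hη hη' (by rw [h3, h4]))
  · intro Z₁ hZ₁ Z₂ hZ₂ hne Z₃ hZ₃ x hx₁ hx₂ hx₃
    obtain ⟨η₁, hη₁, rfl⟩ := exists_gen hZ₁
    obtain ⟨η₂, hη₂, rfl⟩ := exists_gen hZ₂
    obtain ⟨η₃, hη₃, rfl⟩ := exists_gen hZ₃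
    have s₁ := specializes_iff_mem_closure.2 hx₁
    have s₂ := specializes_iff_mem_closure.2 hx₂
    have s₃ := specializes_iff_mem_closure.2 hx₃
    obtain ⟨m1, m2, -⟩ := hM x
    have hk : RingHom.ker (X.presheaf.stalkSpecializes s₁).hom ≠
        RingHom.ker (X.presheaf.stalkSpecializes s₂).hom := by
      intro h
      exact hne (by rw [m2 η₁ η₂ s₁ s₂ hη₁ hη₂ h])
    rcases (hN x).two _ (m1 η₁ s₁ hη₁) _ (m1 η₂ s₂ hη₂) hk _ (m1 η₃ s₃ hη₃) with h | h
    · left
      rw [m2 η₃ η₁ s₃ s₁ hη₃ hη₁ h]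
    · right
      rw [m2 η₃ η₂ s₃ s₂ hη₃ hη₂ h]

end Pool.Agent.MG.WL.CL


end

section

/-!
# ARITH: the combinatorics
-/

open CategoryTheory AlgebraicGeometry IsLocalRing TopologicalSpace

namespace Pool.Agent.MG.WL.CL

namespace ARITH_

variable {X : Type} [TopologicalSpace X] [NoetherianSpace X] [ConnectedSpace X]

/-- In a connected reducible Noetherian space every component meets another one. -/
theorem meets (hX : ¬ IrreducibleSpace X) {Z : Set X} (hZ : Z ∈ irreducibleComponents X) :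
    ∃ Z' ∈ irreducibleComponents X, Z ≠ Z' ∧ (Z ∩ Z').Nonempty := by
  have hfin : (irreducibleComponents X).Finite := NoetherianSpace.finite_irreducibleComponents
  have hfin' : (irreducibleComponents X \ {Z}).Finite := hfin.subset Set.sdiff_subset
  have hcl : IsClosed (⋃₀ (irreducibleComponents X \ {Z})) := by
    rw [Set.sUnion_eq_biUnion]
    exact hfin'.isClosed_biUnion fun W hW => isClosed_of_mem_irreducibleComponents W hW.1
  have hZcl : IsClosed Z := isClosed_of_mem_irreducibleComponents Z hZ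
  have hcov : Z ∪ ⋃₀ (irreducibleComponents X \ {Z}) = Set.univ := by
    refine Set.eq_univ_of_forall fun x => ?_
    by_cases h : irreducibleComponent x = Z
    · exact Or.inl (h ▸ mem_irreducibleComponent)
    · exact Or.inr ⟨_, ⟨irreducibleComponent_mem_irreducibleComponents x, h⟩,
        mem_irreducibleComponent⟩
  have hirr : IsIrreducible Z := hZ.1
  have hne : (⋃₀ (irreducibleComponents X \ {Z})).Nonempty := by
    by_contra hem
    rw [Set.not_nonempty_iff_eq_empty] at hem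
    rw [hem, Set.union_empty] at hcov
    refine hX ?_
    rw [hcov] at hirr
    exact { isPreirreducible_univ := hirr.2, toNonempty := ⟨hirr.1.some⟩ }
  have hpre : IsPreconnected (Set.univ : Set X) := isPreconnected_univ
  rw [isPreconnected_closed_iff] at hpre
  obtain ⟨x, -, hx1, W, ⟨hW1, hW2⟩, hx2⟩ := hpre Z _ hZcl hcl (by rw [hcov])
    (by rw [Set.univ_inter]; exact hirr.1) (by rw [Set.univ_inter]; exact hne)
  exact ⟨W, hW1, fun h => hW2 h.symm, x, hx1, hx2⟩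

end ARITH_

open _root_.Pool.Agent.MG.WL.CL.ARITH_ in
theorem t_ARITH : Stmt_ARITH := by
  classical
  intro X _ _ _ D good s hDf hD h3 hcount hs hX
  have hfin : (irreducibleComponents X).Finite := NoetherianSpace.finite_irreducibleComponents
  by_contra hno
  push Not at hno
  obtain ⟨I, hI⟩ : ∃ I : Finset (Set X), (I : Set (Set X)) = irreducibleComponents X :=
    ⟨hfin.toFinset, hfin.coe_toFinset⟩
  obtain ⟨D', hD'⟩ : ∃ D' : Finset X, (D' : Set X) = D := ⟨hDf.toFinset, hDf.coe_toFinset⟩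
  have hmI : ∀ Z, Z ∈ I ↔ Z ∈ irreducibleComponents X := fun Z => by rw [← hI]; simp
  have hmD : ∀ x, x ∈ D' ↔ x ∈ D := fun x => by rw [← hD']; simp
  have hsD : s ∉ D' := fun h => hs ((hmD s).1 h)
  -- every component meets `D`
  have hne : ∀ Z ∈ irreducibleComponents X, (Z ∩ D).Nonempty := by
    intro Z hZ
    obtain ⟨Z', hZ', hne, x, hx, hx'⟩ := meets hX hZ
    exact ⟨x, hx, (hD x).2 ⟨Z, hZ, Z', hZ', hne, hx, hx'⟩⟩
  have hcard : ∀ Z : Set X, (Z ∩ (D ∪ {s})).ncard = ((insert s D').filter (· ∈ Z)).card := by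
    intro Z
    rw [← Set.ncard_coe_finset]
    congr 1
    ext x
    simp only [Set.mem_inter_iff, Set.mem_union, Set.mem_singleton_iff, Finset.coe_filter,
      Finset.mem_insert, Set.mem_ofPred_eq, hmD]
    tauto
  -- double counting
  have hdc : ∑ Z ∈ I, ((insert s D').filter (· ∈ Z)).card =
      ∑ x ∈ insert s D', (I.filter (x ∈ ·)).card := by
    simp only [Finset.card_filter]
    exact Finset.sum_comm
  have hup : ∑ x ∈ insert s D', (I.filter (x ∈ ·)).card ≤ 1 + 2 * D'.card := by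
    rw [Finset.sum_insert hsD]
    refine Nat.add_le_add ?_ ?_
    · rw [Finset.card_le_one]
      intro Z hZ Z' hZ'
      rw [Finset.mem_filter, hmI] at hZ hZ'
      by_contra hne
      exact hs ((hD s).2 ⟨Z, hZ.1, Z', hZ'.1, hne, hZ.2, hZ'.2⟩)
    · rw [mul_comm]
      refine Finset.sum_le_card_nsmul D' _ 2 fun x hx => ?_
      obtain ⟨Z, hZ, Z', hZ', hne, hxZ, hxZ'⟩ := (hD x).1 ((hmD x).1 hx)
      have hsub : I.filter (x ∈ ·) ⊆ {Z, Z'} := by
        intro W hW
        rw [Finset.mem_filter, hmI] at hW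
        rw [Finset.mem_insert, Finset.mem_singleton]
        exact h3 Z hZ Z' hZ' hne W hW.1 x hxZ hxZ' hW.2
      exact (Finset.card_le_card hsub).trans Finset.card_le_two
  have hlow : ∑ Z ∈ I, (if good Z then 3 else 1) ≤
      ∑ Z ∈ I, ((insert s D').filter (· ∈ Z)).card := by
    refine Finset.sum_le_sum fun Z hZ => ?_
    rw [hmI] at hZ
    rw [← hcard]
    split_ifs with hg
    · exact hno Z hZ hg (hne Z hZ)
    · have hsubs : Z ∩ D ⊆ Z ∩ (D ∪ {s}) := Set.inter_subset_inter_right _ Set.subset_union_left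
      have hf : (Z ∩ (D ∪ {s})).Finite := (hDf.union (Set.finite_singleton s)).subset
        Set.inter_subset_right
      exact (Set.ncard_pos hf).2 ((hne Z hZ).mono hsubs)
  have hsum : ∑ Z ∈ I, (if good Z then 3 else 1) =
      (I.filter fun Z => good Z).card * 3 + (I.filter fun Z => ¬ good Z).card := by
    rw [Finset.sum_ite, Finset.sum_const, Finset.sum_const, smul_eq_mul, smul_eq_mul, mul_one]
  have hsplit : (I.filter fun Z => good Z).card + (I.filter fun Z => ¬ good Z).card = I.card :=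
    Finset.card_filter_add_card_filter_not _
  have e1 : D.ncard = D'.card := by rw [← hD', Set.ncard_coe_finset]
  have e2 : (irreducibleComponents X).ncard = I.card := by rw [← hI, Set.ncard_coe_finset]
  have e3 : {Z | Z ∈ irreducibleComponents X ∧ ¬ good Z}.ncard =
      (I.filter fun Z => ¬ good Z).card := by
    rw [← Set.ncard_coe_finset]
    congr 1
    ext Z
    simp [hmI]
  rw [e1, e2, e3] at hcount
  -- at least two components
  obtain ⟨x⟩ : Nonempty X := inferInstance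
  obtain ⟨Z', hZ', hne', -⟩ := meets hX (irreducibleComponent_mem_irreducibleComponents x)
  have h2 : 1 < I.card := Finset.one_lt_card.2
    ⟨irreducibleComponent x, (hmI _).2 (irreducibleComponent_mem_irreducibleComponents x), Z',
      (hmI _).2 hZ', hne'⟩
  omega

end Pool.Agent.MG.WL.CL


end

section

/-!
# Formal constructions for the existence part: casts of arrows, base changes of charts and of
deformations
-/

open CategoryTheory CategoryTheory.Limits AlgebraicGeometry TensorProduct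

namespace Pool.Agent.MG.WL

open Pool.Agent.MG.W Pool.Agent.MG.One

section

variable {n : ℕ} {A B D : Type} [CommRing A] [CommRing B] [CommRing D]

/-- An arrow over `φ` is an arrow over `φ' = φ`. -/
def castA {φ φ' : A →+* B} (h : φ = φ') {y : Fam n B} {x : Fam n A} (a : Arrow φ y x) :
    Arrow φ' y x where
  f := a.f
  cart := by rw [← h]; exact a.cart
  sec i := by rw [← h]; exact a.sec i

@[simp]
theorem castA_f {φ φ' : A →+* B} (h : φ = φ') {y : Fam n B} {x : Fam n A} (a : Arrow φ y x) :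
    (castA h a).f = a.f := rfl

theorem eps0_epsMap (φ : A →+* B) : (eps0 B).comp (epsMap φ) = φ.comp (eps0 A) :=
  RingHom.ext fun z => by simp [epsMap]

theorem eps0_epsScale (s : A) : (eps0 A).comp (epsScale s) = eps0 A :=
  RingHom.ext fun z => by simp

theorem epsMap_epsScale (φ : A →+* B) (s : A) :
    (epsMap φ).comp (epsScale s) = (epsScale (φ s)).comp (epsMap φ) :=
  RingHom.ext fun z => by
    refine TrivSqZeroExt.ext ?_ ?_ <;> simp [epsMap, mul_comm]

theorem epsMap_comp (φ : A →+* B) (ψ : B →+* D) :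
    (epsMap ψ).comp (epsMap φ) = epsMap (ψ.comp φ) :=
  RingHom.ext fun z => by
    refine TrivSqZeroExt.ext ?_ ?_ <;> simp [epsMap]

theorem epsMap_ep (φ : A →+* B) (x y : A) : epsMap φ (ep x y) = ep (φ x) (φ y) := by
  refine TrivSqZeroExt.ext ?_ ?_ <;> simp [epsMap]

/-- The base change of a deformation to `A'`. -/
noncomputable def bcD {g : ℕ} {φ : A →+* B} {C : Fam n A} {C' : Fam n B} (a : Arrow φ C' C)
    (d : Defo g C) : Defo g C' where
  y := PBS.bc (epsMap φ) d.y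
  stable := PBS.bc_stable _ _ d.stable
  r := arrowLift (castA (eps0_epsMap φ).symm (PBS.comp a d.r)) (PBS.bcArrow (epsMap φ) d.y)

theorem bcD_r {g : ℕ} {φ : A →+* B} {C : Fam n A} {C' : Fam n B} (a : Arrow φ C' C)
    (d : Defo g C) : (bcD a d).r.f ≫ (PBS.bcArrow (epsMap φ) d.y).f = a.f ≫ d.r.f :=
  arrowLift_f _ _

/-- The deformation `s d`. -/
noncomputable def scD {g : ℕ} {C : Fam n A} (s : A) (d : Defo g C) : Defo g C where
  y := PBS.bc (epsScale s) d.y
  stable := PBS.bc_stable _ _ d.stable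
  r := arrowLift (castA (eps0_epsScale s).symm d.r) (PBS.bcArrow (epsScale s) d.y)

theorem scD_r {g : ℕ} {C : Fam n A} (s : A) (d : Defo g C) :
    (scD s d).r.f ≫ (PBS.bcArrow (epsScale s) d.y).f = d.r.f :=
  arrowLift_f _ _

theorem scD_l {g : ℕ} {C : Fam n A} (s : A) (d : Defo g C) (l : Cov g C) :
    l.l (scD s d) = s * l.l d :=
  l.scale s d (scD s d) (PBS.bcArrow (epsScale s) d.y) (scD_r s d)

/-- The chart of the base change. -/
noncomputable def Ch.pull {A' B' : Type} [CommRing A'] [CommRing B'] {φ : A →+* A'}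
    {χ : A →+* B} {χ' : A' →+* B'} {C : Fam 1 A} {C' : Fam 1 A'} (g : Arrow φ C' C) (c : Ch χ C)
    (ω : B →+* B') (h : ω.comp χ = χ'.comp φ) : Ch χ' C' where
  a := ω c.a
  b := ω c.b
  h := (c.push ω).h
  e := arrowLift (castA h (c.push ω).e) g

end

end Pool.Agent.MG.WL


end

section

/-!
# The market, second part: existence of regular functions on `T^*M̄_{1,1}`

See `Pool/Agent/MG/WL/PAPERX.md` for the proofs.
-/

open CategoryTheory CategoryTheory.Limits AlgebraicGeometry TensorProduct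

namespace Pool.Agent.MG.WL

open Pool.Agent.MG.W Pool.Agent.MG.One

/-! ## Isomorphisms of Weierstrass curves -/

/-- EXA: isomorphisms of Weierstrass curves are scalings. -/
def Stmt_EXA : Prop :=
  (∀ {D : Type} [CommRing D] (_ : IsUnit (6 : D)) {a b a' b' : D}
    (e : Arrow (RingHom.id D) (Wei (WZ a' b')) (Wei (WZ a b))),
    ∃ (u v : D) (huv : u * v = 1) (ha : a' = u ^ 4 * a) (hb : b' = u ^ 6 * b),
      e.f = WX.sc huv ha hb) ∧
  (∀ {D : Type} [CommRing D] {a b a' b' u v u' v' : D} (huv : u * v = 1)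
    (ha : a' = u ^ 4 * a) (hb : b' = u ^ 6 * b) (huv' : u' * v' = 1) (ha' : a' = u' ^ 4 * a)
    (hb' : b' = u' ^ 6 * b), WX.sc huv ha hb = WX.sc huv' ha' hb' → u = u')

/-- SCC: composition of scalings. -/
def Stmt_SCC : Prop :=
  ∀ {D : Type} [CommRing D] {a b a' b' a'' b'' u v u' v' w s : D} (huv : u * v = 1)
    (ha : a' = u ^ 4 * a) (hb : b' = u ^ 6 * b) (huv' : u' * v' = 1)
    (ha' : a'' = u' ^ 4 * a') (hb' : b'' = u' ^ 6 * b') (hws : w * s = 1)
    (hc : a'' = w ^ 4 * a) (hd : b'' = w ^ 6 * b) (_ : w = u' * u),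
    WX.sc huv' ha' hb' ≫ WX.sc huv ha hb = WX.sc hws hc hd

/-- REL: over a common ring two charts of a curve differ by a scaling; uniqueness, composition,
push forward. -/
def Stmt_REL : Prop :=
  (∀ {A B B' D : Type} [CommRing A] [CommRing B] [CommRing B'] [CommRing D] {φ : A →+* B}
    {φ' : A →+* B'} {C : Fam 1 A} (c : Ch φ C) (c' : Ch φ' C) (ψ : B →+* D) (ψ' : B' →+* D),
    IsUnit (6 : D) → ψ.comp φ = ψ'.comp φ' → ∃ u : D, Rel c c' ψ ψ' u) ∧
  (∀ {A B B' D : Type} [CommRing A] [CommRing B] [CommRing B'] [CommRing D] {φ : A →+* B}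
    {φ' : A →+* B'} {C : Fam 1 A} (c : Ch φ C) (c' : Ch φ' C) (ψ : B →+* D) (ψ' : B' →+* D)
    (u u' : D), ψ.comp φ = ψ'.comp φ' → Rel c c' ψ ψ' u → Rel c c' ψ ψ' u' → u = u') ∧
  (∀ {A B B' B'' D : Type} [CommRing A] [CommRing B] [CommRing B'] [CommRing B''] [CommRing D]
    {φ : A →+* B} {φ' : A →+* B'} {φ'' : A →+* B''} {C : Fam 1 A} (c : Ch φ C) (c' : Ch φ' C)
    (c'' : Ch φ'' C) (ψ : B →+* D) (ψ' : B' →+* D) (ψ'' : B'' →+* D) (u u' : D),
    Rel c c' ψ ψ' u → Rel c' c'' ψ' ψ'' u' → Rel c c'' ψ ψ'' (u' * u)) ∧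
  (∀ {A B B' D D' : Type} [CommRing A] [CommRing B] [CommRing B'] [CommRing D] [CommRing D']
    {φ : A →+* B} {φ' : A →+* B'} {C : Fam 1 A} (c : Ch φ C) (c' : Ch φ' C) (ψ : B →+* D)
    (ψ' : B' →+* D) (χ : D →+* D') (u : D), Rel c c' ψ ψ' u →
    Rel c c' (χ.comp ψ) (χ.comp ψ') (χ u))

/-! ## Classes of deformations in charts -/

/-- DEA: existence and uniqueness of the class. -/
def Stmt_DEA : Prop :=
  ∀ {A B : Type} [CommRing A] [CommRing B] {φ : A →+* B} {C : Fam 1 A} (c : Ch φ C),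
    IsUnit (6 : B) → ∀ d : Defo 1 C, ∃! δ : B, IsDelta c d δ

/-- DEI: deformations with the same class become isomorphic over `B`. -/
def Stmt_DEI : Prop :=
  ∀ {A B : Type} [CommRing A] [CommRing B] {φ : A →+* B} {C : Fam 1 A} (c : Ch φ C),
    IsUnit (6 : B) → ∀ (d d' : Defo 1 C) (δ : B), IsDelta c d δ → IsDelta c d' δ →
    ∃ (z : Fam 1 (Eps B)) (_ : IsStable 1 z) (r : Arrow (eps0 B) (Wei (WZ c.a c.b)) z)
      (f : Arrow (epsMap φ) z d.y) (f' : Arrow (epsMap φ) z d'.y),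
      r.f ≫ f.f = c.e.f ≫ d.r.f ∧ r.f ≫ f'.f = c.e.f ≫ d'.r.f

/-- DEC: functoriality of the class: push forward, isomorphisms, scaling, change of charts, base
change of the curve. -/
def Stmt_DEC : Prop :=
  (∀ {A B D : Type} [CommRing A] [CommRing B] [CommRing D] {φ : A →+* B} {C : Fam 1 A}
    (c : Ch φ C) (ψ : B →+* D) (d : Defo 1 C) (δ : B), IsDelta c d δ →
    IsDelta (c.push ψ) d (ψ δ)) ∧
  (∀ {A B : Type} [CommRing A] [CommRing B] {φ : A →+* B} {C : Fam 1 A} (c : Ch φ C)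
    (d d' : Defo 1 C) (f : Arrow (RingHom.id (Eps A)) d.y d'.y), d.r.f ≫ f.f = d'.r.f →
    ∀ δ, IsDelta c d δ → IsDelta c d' δ) ∧
  (∀ {A B : Type} [CommRing A] [CommRing B] {φ : A →+* B} {C : Fam 1 A} (c : Ch φ C) (s : A)
    (d : Defo 1 C) (δ : B), IsDelta c d δ → IsDelta c (scD s d) (φ s * δ)) ∧
  (∀ {A B B' D : Type} [CommRing A] [CommRing B] [CommRing B'] [CommRing D] {φ : A →+* B}
    {φ' : A →+* B'} {C : Fam 1 A} (c : Ch φ C) (c' : Ch φ' C) (ψ : B →+* D) (ψ' : B' →+* D)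
    (u : D), IsUnit (6 : D) → ψ.comp φ = ψ'.comp φ' → Rel c c' ψ ψ' u →
    ∀ (d : Defo 1 C) (δ : B) (δ' : B'), IsDelta c d δ → IsDelta c' d δ' →
      ψ' δ' = u ^ 10 * ψ δ) ∧
  (∀ {A A' B B' : Type} [CommRing A] [CommRing A'] [CommRing B] [CommRing B'] {φ : A →+* A'}
    {χ : A →+* B} {χ' : A' →+* B'} {C : Fam 1 A} {C' : Fam 1 A'} (g : Arrow φ C' C) (c : Ch χ C)
    (ω : B →+* B') (h : ω.comp χ = χ'.comp φ) (d : Defo 1 C) (δ : B), IsDelta c d δ →
    IsDelta (c.pull g ω h) (bcD g d) (ω δ))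

/-! ## Gluing -/

/-- LOE: localisations of the dual numbers. -/
def Stmt_LOE : Prop :=
  ∀ {A B : Type} [CommRing A] [CommRing B] [Algebra A B] (f : A) [IsLocalization.Away f B],
    letI := (epsMap (algebraMap A B)).toAlgebra
    IsLocalization.Away (TrivSqZeroExt.inl f : Eps A) (Eps B)

/-- GAR: arrows can be glued. -/
def Stmt_GAR : Prop :=
  ∀ {n : ℕ} {E A : Type} [CommRing E] [CommRing A] (φ : E →+* A) {Y : Fam n E} {C : Fam n A}
    {r : ℕ} (f : Fin r → A) (_ : Ideal.span (Set.range f) = ⊤) (B : Fin r → Type)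
    [∀ i, CommRing (B i)] [∀ i, Algebra A (B i)] [∀ i, IsLocalization.Away (f i) (B i)]
    (C' : ∀ i, Fam n (B i)) (k : ∀ i, Arrow (algebraMap A (B i)) (C' i) C)
    (ρ : ∀ i, Arrow ((algebraMap A (B i)).comp φ) (C' i) Y),
    (∀ i j (Z : Scheme.{0}) (p : Z ⟶ (C' i).X) (q : Z ⟶ (C' j).X), p ≫ (k i).f = q ≫ (k j).f →
      p ≫ (ρ i).f = q ≫ (ρ j).f) →
    ∃ e : Arrow φ C Y, ∀ i, (k i).f ≫ e.f = (ρ i).f

/-- GLD: families can be glued (along the Zariski covering of the base by the `D(f i)`; the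
families are given on all intersections of these sets). -/
def Stmt_GLD : Prop :=
  ∀ {n : ℕ} {E : Type} [CommRing E] {r : ℕ} (f : Fin r → E) (_ : Ideal.span (Set.range f) = ⊤)
    (E' : {S : Finset (Fin r) // S.Nonempty} → Type) [∀ S, CommRing (E' S)]
    [∀ S, Algebra E (E' S)] [∀ S, IsLocalization.Away (∏ i ∈ S.1, f i) (E' S)]
    (ρ : ∀ S T, S ≤ T → (E' S →ₐ[E] E' T)) (Y : ∀ S, Fam n (E' S))
    (g : ∀ S T (h : S ≤ T), Arrow (ρ S T h : E' S →+* E' T) (Y T) (Y S)),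
    (∀ S, (g S S le_rfl).f = 𝟙 _) →
    (∀ S T U (h : S ≤ T) (h' : T ≤ U), (g T U h').f ≫ (g S T h).f = (g S U (h.trans h')).f) →
    ∃ (y : Fam n E) (k : ∀ S, Arrow (algebraMap E (E' S)) (Y S) y),
      ∀ S T (h : S ≤ T), (g S T h).f ≫ (k S).f = (k T).f

/-- STL: stability is local on the base. -/
def Stmt_STL : Prop :=
  ∀ {n g : ℕ} {E : Type} [CommRing E] {r : ℕ} (f : Fin r → E) (_ : Ideal.span (Set.range f) = ⊤)
    (B : Fin r → Type) [∀ i, CommRing (B i)] [∀ i, Algebra E (B i)]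
    [∀ i, IsLocalization.Away (f i) (B i)] (y : Fam n E) (Y : ∀ i, Fam n (B i)),
    (∀ i, Nonempty (Arrow (algebraMap E (B i)) (Y i) y)) → (∀ i, IsStable g (Y i)) →
    IsStable g y

/-- RGD: rigidity of deformations. -/
def Stmt_RGD : Prop :=
  ∀ {D : Type} [CommRing D] (_ : IsUnit (6 : D)) {x : Fam 1 D} (_ : LW x)
    (z z' : Fam 1 (Eps D)) (_ : IsStable 1 z) (_ : IsStable 1 z') (r : Arrow (eps0 D) x z)
    (f f' : Arrow (RingHom.id (Eps D)) z z'), r.f ≫ f.f = r.f ≫ f'.f → f.f = f'.f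

/-- The classes `δ i` in the charts `c i` are compatible. -/
def Cpt {A : Type} [CommRing A] {r : ℕ} {f : Fin r → A} {C : Fam 1 A}
    (c : ∀ i, Ch (algebraMap A (Localization.Away (f i))) C)
    (δ : ∀ i, Localization.Away (f i)) : Prop :=
  ∀ (i j : Fin r) (D : Type) [CommRing D] (ψ : Localization.Away (f i) →+* D)
    (ψ' : Localization.Away (f j) →+* D) (u : D),
    ψ.comp (algebraMap A (Localization.Away (f i))) =
      ψ'.comp (algebraMap A (Localization.Away (f j))) →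
    Rel (c i) (c j) ψ ψ' u → ψ' (δ j) = u ^ 10 * ψ (δ i)

/-- DSP: deformations with the same classes in a covering of charts are isomorphic. -/
def Stmt_DSP : Prop :=
  ∀ {A : Type} [CommRing A] (_ : IsUnit (6 : A)) {r : ℕ} (f : Fin r → A)
    (_ : Ideal.span (Set.range f) = ⊤) {C : Fam 1 A}
    (c : ∀ i, Ch (algebraMap A (Localization.Away (f i))) C) (d d' : Defo 1 C)
    (δ : ∀ i, Localization.Away (f i)), (∀ i, IsDelta (c i) d (δ i)) →
    (∀ i, IsDelta (c i) d' (δ i)) →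
    ∃ g : Arrow (RingHom.id (Eps A)) d.y d'.y, d.r.f ≫ g.f = d'.r.f

/-- DGL: compatible classes come from a deformation. -/
def Stmt_DGL : Prop :=
  ∀ {A : Type} [CommRing A] (_ : IsUnit (6 : A)) {r : ℕ} (f : Fin r → A)
    (_ : Ideal.span (Set.range f) = ⊤) {C : Fam 1 A}
    (c : ∀ i, Ch (algebraMap A (Localization.Away (f i))) C)
    (δ : ∀ i, Localization.Away (f i)), Cpt c δ → ∃ d : Defo 1 C, ∀ i, IsDelta (c i) d (δ i)

/-! ## The coefficient of a covector -/

/-- EXT: extension of classes after multiplication by a power of `f i₀`. -/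
def Stmt_EXT : Prop :=
  (∀ {A : Type} [CommRing A] (_ : IsUnit (6 : A)) {r : ℕ} (f : Fin r → A) {C : Fam 1 A}
    (c : ∀ i, Ch (algebraMap A (Localization.Away (f i))) C) (i₀ : Fin r)
    (s : Localization.Away (f i₀)), ∃ (N : ℕ) (δ : ∀ i, Localization.Away (f i)),
    δ i₀ = algebraMap A _ (f i₀) ^ N * s ∧ Cpt c δ) ∧
  (∀ {A : Type} [CommRing A] (_ : IsUnit (6 : A)) {r : ℕ} (f : Fin r → A) {C : Fam 1 A}
    (c : ∀ i, Ch (algebraMap A (Localization.Away (f i))) C) (i₀ : Fin r)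
    (δ δ' : ∀ i, Localization.Away (f i)), Cpt c δ → Cpt c δ' → δ i₀ = δ' i₀ →
    ∃ K : ℕ, ∀ i, algebraMap A _ (f i₀) ^ K * δ i = algebraMap A _ (f i₀) ^ K * δ' i)

/-- TAU: the coefficient of a covector in a chart over `A_f`; a deformation with class `f ^ N`. -/
def Stmt_TAU : Prop :=
  ∀ {A : Type} [CommRing A] (_ : IsUnit (6 : A)) {C : Fam 1 A} (_ : IsStable 1 C) (_ : LW C)
    (f : A) (c : Ch (algebraMap A (Localization.Away f)) C),
    (∃ (N : ℕ) (d : Defo 1 C), IsDelta c d (algebraMap A _ f ^ N)) ∧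
    ∀ l : Cov 1 C, ∃! τ : Localization.Away f, IsTau c l τ

/-- TRL: the coefficients in two charts. -/
def Stmt_TRL : Prop :=
  (∀ {A : Type} [CommRing A] (_ : IsUnit (6 : A)) {C : Fam 1 A} (_ : IsStable 1 C) (_ : LW C)
    (f f' : A) (c : Ch (algebraMap A (Localization.Away f)) C)
    (c' : Ch (algebraMap A (Localization.Away f')) C) (l : Cov 1 C) (τ : Localization.Away f)
    (τ' : Localization.Away f'), IsTau c l τ → IsTau c' l τ' → ∀ (D : Type) [CommRing D]
    (ψ : Localization.Away f →+* D) (ψ' : Localization.Away f' →+* D) (u : D),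
    ψ.comp (algebraMap A _) = ψ'.comp (algebraMap A _) → Rel c c' ψ ψ' u →
    ψ τ = u ^ 10 * ψ' τ') ∧
  (∀ {A A' : Type} [CommRing A] [CommRing A'] (_ : IsUnit (6 : A)) (φ : A →+* A') {C : Fam 1 A}
    {C' : Fam 1 A'} (_ : IsStable 1 C) (_ : LW C) (g : Arrow φ C' C) (l : Cov 1 C)
    (l' : Cov 1 C') (_ : Compat g l' l) (f : A)
    (c : Ch (algebraMap A (Localization.Away f)) C) (τ : Localization.Away f) (_ : IsTau c l τ)
    (ω : Localization.Away f →+* Localization.Away (φ f))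
    (h : ω.comp (algebraMap A _) = (algebraMap A' _).comp φ),
    IsTau (c.pull g ω h) l' (ω τ))

/-- The value of a covector `l`, for a polynomial `P`: in every chart it is `P(a, b, τ)`. -/
def IsVal {A : Type} [CommRing A] [Algebra ℂ A] {C : Fam 1 A} (P : MvPolynomial (Fin 3) ℂ)
    (l : Cov 1 C) (v : A) : Prop :=
  ∀ (f : A) (c : Ch (algebraMap A (Localization.Away f)) C) (τ : Localization.Away f),
    IsTau c l τ → algebraMap A _ v = MvPolynomial.aeval ![c.a, c.b, τ] P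

/-- VAL: existence and uniqueness of the value. -/
def Stmt_VAL : Prop :=
  ∀ {A : Type} [CommRing A] [Algebra ℂ A] {C : Fam 1 A} (_ : IsStable 1 C) (_ : LW C)
    (P : MvPolynomial (Fin 3) ℂ) (_ : P ∈ One.Inv) (l : Cov 1 C), ∃! v : A, IsVal P l v

end Pool.Agent.MG.WL


end

section

/-!
# Gluing of arrows over a Zariski covering of the base
-/

open CategoryTheory CategoryTheory.Limits AlgebraicGeometry TensorProduct

namespace Pool.Agent.MG.WL

open Pool.Agent.MG.W Pool.Agent.MG.One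

namespace GAR

/-- The covering of the base. -/
noncomputable def cov {A : Type} [CommRing A] {r : ℕ} (f : Fin r → A)
    (hf : Ideal.span (Set.range f) = ⊤) (B : Fin r → Type)
    [∀ i, CommRing (B i)] [∀ i, Algebra A (B i)] [∀ i, IsLocalization.Away (f i) (B i)] :
    (Sp A).OpenCover :=
  Scheme.Cover.mkOfCovers (Fin r) (fun i => Sp (B i)) (fun i => spMap (algebraMap A (B i)))
    (fun x => by
      have : ∃ i, f i ∉ x.asIdeal := by
        by_contra hc
        push Not at hc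
        apply x.2.ne_top
        rwa [← top_le_iff, ← hf, Ideal.span_le, Set.range_subset_iff]
      obtain ⟨i, hi⟩ := this
      have h1 := PrimeSpectrum.localization_away_comap_range (B i) (f i)
      have h2 : (x : PrimeSpectrum A) ∈ Set.range (PrimeSpectrum.comap (algebraMap A (B i))) := by
        rw [h1]
        exact hi
      obtain ⟨y, hy⟩ := h2
      exact ⟨i, y, hy⟩)
    (fun i => IsOpenImmersion.of_isLocalization (f i))

end GAR

theorem t_GAR : Stmt_GAR := by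
  intro n E A _ _ φ Y C r f hf B _ _ _ C' k ρ hag
  let U := GAR.cov f hf B
  have hUf : ∀ i, U.f i = spMap (algebraMap A (B i)) := fun i => rfl
  -- the isomorphisms of the members of the pull back cover
  let V := U.pullback₁ C.π
  let t : ∀ i : Fin r, V.X i ≅ (C' i).X := fun i => (k i).cart.isoPullback.symm
  have t1 : ∀ i, (t i).hom ≫ (k i).f = V.f i := fun i => (k i).cart.isoPullback_inv_fst
  have t2 : ∀ i, (t i).hom ≫ (C' i).π = pullback.snd C.π (U.f i) :=
    fun i => (k i).cart.isoPullback_inv_snd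
  let e : C.X ⟶ Y.X := Scheme.Cover.glueMorphisms V (fun i => (t i).hom ≫ (ρ i).f) (fun i j => by
    rw [← Category.assoc, ← Category.assoc]
    refine hag i j _ _ _ ?_
    rw [Category.assoc, Category.assoc, t1, t1]
    exact pullback.condition)
  have he : ∀ i, V.f i ≫ e = (t i).hom ≫ (ρ i).f := fun i => Scheme.Cover.ι_glueMorphisms V _ _ i
  have hk : ∀ i, (k i).f ≫ e = (ρ i).f := by
    intro i
    have h1 := he i
    rw [← t1 i, Category.assoc] at h1
    exact (cancel_epi (t i).hom).1 h1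
  have hc : ∀ i, spMap ((algebraMap A (B i)).comp φ) = spMap (algebraMap A (B i)) ≫ spMap φ := by
    intro i
    rw [spMap, spMap, spMap, ← Spec.map_comp]
    rfl
  have key : ∀ i : Fin r, IsPullback (pullback.snd C.π (spMap (algebraMap A (B i))))
      (pullback.fst C.π (spMap (algebraMap A (B i))) ≫ e)
      (spMap (algebraMap A (B i)) ≫ spMap φ) Y.π := by
    intro i
    have h0 := (ρ i).cart.flip
    rw [hc i] at h0
    have e1 : (k i).cart.isoPullback.inv ≫ (C' i).π =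
        pullback.snd C.π (spMap (algebraMap A (B i))) := (k i).cart.isoPullback_inv_snd
    have e2 : (k i).cart.isoPullback.inv ≫ (ρ i).f =
        pullback.fst C.π (spMap (algebraMap A (B i))) ≫ e := (he i).symm
    refine h0.of_iso (k i).cart.isoPullback (Iso.refl _) (Iso.refl _) (Iso.refl _) ?_ ?_ ?_ ?_
    · rw [Iso.refl_hom, Category.comp_id, ← e1, Iso.hom_inv_id_assoc]
    · rw [Iso.refl_hom, Category.comp_id, ← e2, Iso.hom_inv_id_assoc]
    · rw [Iso.refl_hom, Iso.refl_hom, Category.comp_id, Category.id_comp]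
    · rw [Iso.refl_hom, Iso.refl_hom, Category.comp_id, Category.id_comp]
  have hpb : IsPullback C.π e (spMap φ) Y.π :=
    Scheme.isPullback_of_openCover _ _ _ _ U key
  refine ⟨⟨e, hpb.flip, fun i => ?_⟩, hk⟩
  refine Scheme.Cover.hom_ext U _ _ fun j => ?_
  show spMap (algebraMap A (B j)) ≫ C.σ i ≫ e = spMap (algebraMap A (B j)) ≫ spMap φ ≫ Y.σ i
  rw [← Category.assoc, ← (k j).sec i, Category.assoc, hk j, (ρ j).sec i, hc j, Category.assoc]

end Pool.Agent.MG.WL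


end

section

/-!
# LIFT: functions with prescribed poles near a point of the base
-/

open CategoryTheory CategoryTheory.Limits AlgebraicGeometry TensorProduct

namespace Pool.Agent.MG.WL

open Pool.Agent.MG.W Pool.Agent.MG.One Pool.Agent.MG.GLU

theorem t_LIFT (hNCE : Stmt_NCE) (hLFB : Stmt_LFB) (hDSC : Stmt_DSC) : Stmt_LIFT := by
  intro A _ _ C hC L p n hn
  obtain ⟨B, _, _, φ, y, a, L', hφ, hp, hbc, hN⟩ := hNCE A C hC L p
  let _ : Algebra ℂ B := (φ.comp (algebraMap ℂ A)).toAlgebra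
  have hy : IsStable 1 y := arrow_stable a hC
  exact hDSC a hC.proper L L' hbc hφ p hp n (hLFB B y hy L' hN n hn)

end Pool.Agent.MG.WL


end
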