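import Mathlib
import Pool.Agent.KDM.C08
import Pool.Agent.KDM.C54

/-! Parts: MG.WL.SPL -/

section

/-!
# SPL: splitting of one index of a preliminary nice cover by an étale local extension
-/

open CategoryTheory CategoryTheory.Limits AlgebraicGeometry TensorProduct

namespace Pool.Agent.MG.WL

open Pool.Agent.MG.W Pool.Agent.MG.One Pool.Agent.MG.GLU

namespace SPL

set_option linter.unusedSectionVars false

/-- The étale local splitting over a local ring. -/
theorem split {B S : Type} [CommRing B] [IsLocalRing B] [CommRing S] [Algebra B S]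
    [Algebra.FiniteType B S] (q : PrimeSpectrum S)
    (hq : q.comap (algebraMap B S) = IsLocalRing.closedPoint B)
    (hu : ∀ q' : PrimeSpectrum S, q'.comap (algebraMap B S) = IsLocalRing.closedPoint B →
      q' = q) :
    ∃ (B' : Type) (_ : CommRing B') (_ : IsLocalRing B') (_ : Algebra B B')
      (_ : IsLocalHom (algebraMap B B')) (_ : Module.Flat B B')
      (h : (IsLocalRing.maximalIdeal B').LiesOver (IsLocalRing.maximalIdeal B)),
      Function.Bijective (Ideal.ResidueField.mapₐ (IsLocalRing.maximalIdeal B)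
        (IsLocalRing.maximalIdeal B') (Algebra.ofId _ _) h.over) ∧
      ∃ e : B' ⊗[B] S, e * e = e ∧
        (∃ (n : ℕ) (x : Fin n → B' ⊗[B] S), ∀ t, ∃ r : Fin n → B', e * t = ∑ k, r k • x k) ∧
        ∀ Q : Ideal (B' ⊗[B] S), Q.IsPrime →
          Q.comap (algebraMap B' (B' ⊗[B] S)) = IsLocalRing.maximalIdeal B' → e ∉ Q := by
  have hqp : q.asIdeal.LiesOver (IsLocalRing.maximalIdeal B) :=
    ⟨(congrArg PrimeSpectrum.asIdeal hq).symm⟩
  have hqf : Algebra.QuasiFiniteAt B q.asIdeal := by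
    refine Algebra.QuasiFiniteAt.of_isOpen_singleton_fiber q ?_
    have h1 : ({⟨q, rfl⟩} : Set (PrimeSpectrum.comap (algebraMap B S) ⁻¹'
        {q.comap (algebraMap B S)})) = Set.univ := by
      refine Set.eq_univ_of_forall fun x => ?_
      refine Subtype.ext ?_
      exact hu x.1 ((show x.1.comap (algebraMap B S) = q.comap (algebraMap B S) from x.2).trans hq)
    rw [h1]
    exact isOpen_univ
  obtain ⟨R', _, _, _, P, _, _, e, he, P', hP', hP'P, hP'q, heP', hbij, hfin, hP''⟩ :=
    Algebra.exists_etale_isIdempotentElem_forall_liesOver_eq (IsLocalRing.maximalIdeal B)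
      q.asIdeal
  let B' := Localization.AtPrime P
  have hm'P : (IsLocalRing.maximalIdeal B').LiesOver P :=
    ⟨(Localization.AtPrime.under_maximalIdeal (I := P)).symm⟩
  have hm'm : (IsLocalRing.maximalIdeal B').LiesOver (IsLocalRing.maximalIdeal B) :=
    .trans _ P _
  have hloc : IsLocalHom (algebraMap B B') :=
    ((IsLocalRing.local_hom_TFAE (algebraMap B B')).out 0 4 rfl rfl).2 hm'm.over.symm
  have hflat : Module.Flat B B' := by
    have h1 : Module.Flat B R' := inferInstance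
    have h2 : Module.Flat R' B' := IsLocalization.flat _ P.primeCompl
    exact Module.Flat.trans B R' B'
  refine ⟨B', inferInstance, inferInstance, inferInstance, hloc, hflat, hm'm, ?_, ?_⟩
  · have h1 : Function.Bijective (Ideal.ResidueField.map P (IsLocalRing.maximalIdeal B')
        (algebraMap R' B') hm'P.over) :=
      (RingHom.surjectiveOnStalks_of_isLocalization P.primeCompl _).residueFieldMap_bijective _ _ _
    have h2 : (Ideal.ResidueField.map (IsLocalRing.maximalIdeal B) (IsLocalRing.maximalIdeal B')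
        (algebraMap B B') hm'm.over) = (Ideal.ResidueField.map P (IsLocalRing.maximalIdeal B')
        (algebraMap R' B') hm'P.over).comp (Ideal.ResidueField.map (IsLocalRing.maximalIdeal B) P
          (algebraMap B R') (P.over_def _)) := by
      apply Ideal.ResidueField.ringHom_ext
      ext b
      simp only [RingHom.comp_apply, Ideal.ResidueField.map_algebraMap]
      rw [← IsScalarTower.algebraMap_apply B R' B']
    have h3 : (⇑(Ideal.ResidueField.mapₐ (IsLocalRing.maximalIdeal B)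
        (IsLocalRing.maximalIdeal B') (Algebra.ofId B B') hm'm.over)) =
        (Ideal.ResidueField.map P (IsLocalRing.maximalIdeal B')
          (algebraMap R' B') hm'P.over) ∘ (Ideal.ResidueField.mapₐ (IsLocalRing.maximalIdeal B) P
          (Algebra.ofId B R') (P.over_def _)) := by
      funext x
      exact congrArg (fun f => f x) h2
    rw [h3]
    exact h1.comp hbij
  · let ψ : R' ⊗[B] S →ₐ[B] B' ⊗[B] S :=
      Algebra.TensorProduct.map (IsScalarTower.toAlgHom B R' B') (AlgHom.id B S)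
    refine ⟨ψ e, by rw [← map_mul, he.eq], ?_, ?_⟩
    · obtain ⟨s, hs⟩ := hfin.fg_top
      have hsur : Function.Surjective (algebraMap (R' ⊗[B] S) (Localization.Away e)) :=
        IsLocalization.Away.algebraMap_surjective_of_isIdempotentElem e he
      choose g hg using hsur
      let x : s → R' ⊗[B] S := fun k => g k
      have key : ∀ t : R' ⊗[B] S, ∃ r : s → R', e * t = ∑ k, r k • (e * x k) := by
        intro t
        have h1 : algebraMap (R' ⊗[B] S) (Localization.Away e) t ∈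
            Submodule.span R' (s : Set (Localization.Away e)) := by rw [hs]; trivial
        obtain ⟨r, hr⟩ := (Submodule.mem_span_finset'.1 h1)
        refine ⟨r, ?_⟩
        have h2 : algebraMap (R' ⊗[B] S) (Localization.Away e) t =
            algebraMap (R' ⊗[B] S) (Localization.Away e) (∑ k, r k • x k) := by
          rw [← hr, map_sum]
          refine Finset.sum_congr rfl fun k _ => ?_
          rw [Algebra.smul_def, Algebra.smul_def, map_mul, hg,
            ← IsScalarTower.algebraMap_apply R' (R' ⊗[B] S) (Localization.Away e)]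
        obtain ⟨⟨_, m, rfl⟩, hm⟩ := (IsLocalization.eq_iff_exists (Submonoid.powers e) _).1 h2
        have h3 : ∀ m : ℕ, e * e ^ m = e := by
          intro m
          induction m with
          | zero => simp
          | succ m ih => rw [pow_succ, ← mul_assoc, ih, he.eq]
        have h4 := congrArg (fun z => e * z) hm
        simp only [← mul_assoc, h3] at h4
        rw [h4, Finset.mul_sum]
        exact Finset.sum_congr rfl fun k _ => mul_smul_comm _ _ _
      let y : s → B' ⊗[B] S := fun k => ψ (e * x k)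
      have hψ : ∀ (r : R') (t : R' ⊗[B] S), ψ (r • t) = algebraMap R' B' r • ψ t := by
        intro r t
        induction t using TensorProduct.induction_on with
        | zero => simp
        | add a b ha hb => rw [smul_add, map_add, ha, hb, map_add, smul_add]
        | tmul a b =>
          rw [smul_tmul']
          simp only [ψ, Algebra.TensorProduct.map_tmul, smul_eq_mul]
          rw [smul_tmul', smul_eq_mul]
          simp
      have key2 : ∀ t : B' ⊗[B] S, ∃ r : s → B', ψ e * t = ∑ k, r k • y k := by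
        intro t
        induction t using TensorProduct.induction_on with
        | zero => exact ⟨0, by simp⟩
        | add a b ha hb =>
          obtain ⟨r, hr⟩ := ha
          obtain ⟨r', hr'⟩ := hb
          refine ⟨r + r', ?_⟩
          rw [mul_add, hr, hr', ← Finset.sum_add_distrib]
          exact Finset.sum_congr rfl fun k _ => (add_smul _ _ _).symm
        | tmul b a =>
          obtain ⟨r, hr⟩ := key (1 ⊗ₜ a)
          refine ⟨fun k => b * algebraMap R' B' (r k), ?_⟩
          have h1 : (b ⊗ₜ[B] a : B' ⊗[B] S) = b • ψ (1 ⊗ₜ a) := by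
            simp [ψ, smul_tmul']
          rw [h1, mul_smul_comm, ← map_mul, hr, map_sum, Finset.smul_sum]
          refine Finset.sum_congr rfl fun k _ => ?_
          rw [hψ, mul_smul]
      let E := Fintype.equivFin s
      refine ⟨Fintype.card s, fun k => y (E.symm k), fun t => ?_⟩
      obtain ⟨r, hr⟩ := key2 t
      refine ⟨fun k => r (E.symm k), ?_⟩
      rw [hr]
      exact (Equiv.sum_comp E.symm (fun k => r k • y k)).symm
    · intro Q hQ hQm heQ
      have hψ1 : ψ.toRingHom.comp (algebraMap R' (R' ⊗[B] S)) =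
          (algebraMap B' (B' ⊗[B] S)).comp (algebraMap R' B') := by
        ext r
        simp [ψ]
      have hψ2 : ψ.toRingHom.comp
          (Algebra.TensorProduct.includeRight : S →ₐ[B] R' ⊗[B] S).toRingHom =
          (Algebra.TensorProduct.includeRight : S →ₐ[B] B' ⊗[B] S).toRingHom := by
        ext r
        simp [ψ]
      have hc : (Q.comap ψ.toRingHom) = P' := by
        have h1 : (Q.comap ψ.toRingHom).IsPrime := Ideal.IsPrime.comap _
        have h2 : (Q.comap ψ.toRingHom).LiesOver P := by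
          refine ⟨?_⟩
          show P = Ideal.comap (algebraMap R' (R' ⊗[B] S)) (Q.comap ψ.toRingHom)
          rw [Ideal.comap_comap, hψ1, ← Ideal.comap_comap, hQm]
          exact hm'P.over
        refine Ideal.eq_of_comap_eq_comap_of_bijective_residueFieldMap hbij _ _ ?_
        rw [hP'q, Ideal.comap_comap, hψ2]
        have h3 := hu ⟨Q.comap (Algebra.TensorProduct.includeRight :
          S →ₐ[B] B' ⊗[B] S).toRingHom, Ideal.IsPrime.comap _⟩ (by
            ext1
            show Ideal.comap (algebraMap B S) (Q.comap _) = IsLocalRing.maximalIdeal B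
            rw [Ideal.comap_comap]
            have h4 : ((Algebra.TensorProduct.includeRight :
              S →ₐ[B] B' ⊗[B] S).toRingHom).comp (algebraMap B S) =
                (algebraMap B' (B' ⊗[B] S)).comp (algebraMap B B') := by
              ext b
              simp
            rw [h4, ← Ideal.comap_comap, hQm]
            exact hm'm.over.symm)
        exact congrArg PrimeSpectrum.asIdeal h3
      apply heP'
      rw [← hc]
      exact heQ

theorem mem_prime {X : Scheme.{0}} {V : X.Opens} (hV : IsAffineOpen V) (x : X) (hx : x ∈ V)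
    (a : Γ(X, V)) : a ∈ (hV.primeIdealOf ⟨x, hx⟩).asIdeal ↔ x ∉ X.basicOpen a := by
  have h1 := hV.fromSpec_primeIdealOf ⟨x, hx⟩
  have h2 := hV.fromSpec_preimage_basicOpen a
  rw [← not_iff_not, not_not]
  have h3 : (hV.primeIdealOf ⟨x, hx⟩) ∈ hV.fromSpec ⁻¹ᵁ X.basicOpen a ↔
      hV.fromSpec (hV.primeIdealOf ⟨x, hx⟩) ∈ X.basicOpen a := Iff.rfl
  rw [h1, h2] at h3
  exact h3

theorem prime_inj {X : Scheme.{0}} {V : X.Opens} (hV : IsAffineOpen V) {x x' : X} (hx : x ∈ V)
    (hx' : x' ∈ V) (h : hV.primeIdealOf ⟨x, hx⟩ = hV.primeIdealOf ⟨x', hx'⟩) : x = x' := by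
  have h1 := hV.fromSpec_primeIdealOf ⟨x, hx⟩
  have h2 := hV.fromSpec_primeIdealOf ⟨x', hx'⟩
  rw [h] at h1
  exact h1.symm.trans h2

theorem prime_surj {X : Scheme.{0}} {V : X.Opens} (hV : IsAffineOpen V)
    (p : PrimeSpectrum Γ(X, V)) : ∃ (x : X) (hx : x ∈ V), hV.primeIdealOf ⟨x, hx⟩ = p := by
  have h1 : hV.fromSpec p ∈ V := by
    have := hV.range_fromSpec
    have h2 : hV.fromSpec p ∈ Set.range hV.fromSpec := ⟨p, rfl⟩
    rw [this] at h2
    exact h2
  refine ⟨hV.fromSpec p, h1, ?_⟩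
  exact hV.fromSpec.isOpenEmbedding.injective (hV.fromSpec_primeIdealOf ⟨_, h1⟩)

theorem prime_coef {B : Type} [CommRing B] {X : Scheme.{0}} (π : X ⟶ Sp B) {V : X.Opens}
    (hV : IsAffineOpen V) (x : X) (hx : x ∈ V) :
    (hV.primeIdealOf ⟨x, hx⟩).comap (coef π V) = (π x : PrimeSpectrum B) := by
  have h1 := IsAffineOpen.comap_primeIdealOf_appLE (f := π) ⊤ (isAffineOpen_top (Sp B)) V hV
    le_top hx
  have h2 := (isAffineOpen_top (Sp B)).fromSpec_primeIdealOf ⟨π x, trivial⟩
  rw [IsAffineOpen.fromSpec_top, Scheme.isoSpec_Spec_inv] at h2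
  rw [coef_eq]
  have h3 : (hV.primeIdealOf ⟨x, hx⟩).comap ((Scheme.ΓSpecIso (CommRingCat.of B)).inv ≫
      π.appLE ⊤ V (show V ≤ π ⁻¹ᵁ ⊤ from le_top)).hom =
      ((hV.primeIdealOf ⟨x, hx⟩).comap (π.appLE ⊤ V (show V ≤ π ⁻¹ᵁ ⊤ from le_top)).hom).comap
        (Scheme.ΓSpecIso (CommRingCat.of B)).inv.hom := by
    rw [CommRingCat.hom_comp, PrimeSpectrum.comap_comp_apply]
  rw [h3, h1]
  exact h2

theorem mem_pre {X X' : Scheme.{0}} (f : X' ⟶ X) {V : X.Opens} {V' : X'.Opens}
    (h : V' ≤ f ⁻¹ᵁ V) (s : Γ(X, V)) (x : X') :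
    x ∈ X'.basicOpen ((f.appLE V V' h).hom s) ↔ x ∈ V' ∧ f x ∈ X.basicOpen s := by
  rw [Scheme.Hom.appLE]
  have h1 : (f.app V ≫ X'.presheaf.map (homOfLE h).op).hom s =
      (X'.presheaf.map (homOfLE h).op).hom ((f.app V).hom s) := rfl
  rw [h1]
  have h2 : X'.basicOpen ((X'.presheaf.map (homOfLE h).op).hom ((f.app V).hom s)) =
      V' ⊓ X'.basicOpen ((f.app V).hom s) := Scheme.basicOpen_res _ _ _
  rw [h2]
  have h3 : f ⁻¹ᵁ X.basicOpen s = X'.basicOpen ((f.app V).hom s) := Scheme.preimage_basicOpen _ _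
  rw [← h3]
  rfl

theorem mem_res {X : Scheme.{0}} {V V' : X.Opens} (h : V' ≤ V) (s : Γ(X, V)) (x : X) :
    x ∈ X.basicOpen (rs X h s) ↔ x ∈ V' ∧ x ∈ X.basicOpen s := by
  have h2 : X.basicOpen ((X.presheaf.map (homOfLE h).op).hom s) = V' ⊓ X.basicOpen s :=
    Scheme.basicOpen_res _ _ _
  show x ∈ X.basicOpen ((X.presheaf.map (homOfLE h).op).hom s) ↔ _
  rw [h2]
  rfl

theorem coef_ft {B : Type} [CommRing B] {X : Scheme.{0}} (π : X ⟶ Sp B)
    [LocallyOfFiniteType π] {V : X.Opens} (hV : IsAffineOpen V) : (coef π V).FiniteType := by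
  rw [coef_eq, CommRingCat.hom_comp]
  have h1 : (π.appLE ⊤ V (show V ≤ π ⁻¹ᵁ ⊤ from le_top)).hom.FiniteType :=
    LocallyOfFiniteType.finiteType_appLE π (isAffineOpen_top _) hV _
  refine h1.comp (RingHom.FiniteType.of_surjective _ ?_)
  exact (ConcreteCategory.bijective_of_isIso (Scheme.ΓSpecIso (CommRingCat.of B)).inv).2

section

variable {n : ℕ} {A B : Type} [CommRing A] [CommRing B] {φ : A →+* B}
  {C : Fam n A} {y : Fam n B}

/-- The kernel of the map to the tensor product with the quotient. -/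
theorem theta (a : Arrow φ y C) {V : C.X.Opens} (hV : IsAffineOpen V) (β : Γ(C.X, V)) :
    letI := φ.toAlgebra
    letI := (coef C.π V).toAlgebra
    ∃ θ : Γ(y.X, a.f ⁻¹ᵁ V) →+* B ⊗[A] (Γ(C.X, V) ⧸ Ideal.span {β}),
      Function.Surjective θ ∧
      RingHom.ker θ = Ideal.span {(a.f.appLE V (a.f ⁻¹ᵁ V) le_rfl).hom β} ∧
      ∀ b, θ (coef y.π (a.f ⁻¹ᵁ V) b) = algebraMap B _ b := by
  let _ := φ.toAlgebra
  let _ := (coef C.π V).toAlgebra
  obtain ⟨E, hE⟩ := tp_affine a hV
  let g : Γ(C.X, V) →ₐ[A] (Γ(C.X, V) ⧸ Ideal.span {β}) := Ideal.Quotient.mkₐ A _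
  have hg : Function.Surjective g := Ideal.Quotient.mk_surjective
  let G : B ⊗[A] Γ(C.X, V) →ₐ[B] B ⊗[A] (Γ(C.X, V) ⧸ Ideal.span {β}) :=
    Algebra.TensorProduct.map (AlgHom.id B B) g
  have hG : Function.Surjective G := LinearMap.lTensor_surjective B hg
  have hk : ∀ t, G t = 0 ↔ t ∈ Ideal.span {(1 : B) ⊗ₜ[A] β} := by
    intro t
    have h1 := Algebra.TensorProduct.lTensor_ker (R := A) (A := B) g hg
    have h2 : RingHom.ker g = Ideal.span {β} := Ideal.Quotient.mkₐ_ker A _
    rw [h2, Ideal.map_span, Set.image_singleton] at h1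
    have h3 : t ∈ RingHom.ker (Algebra.TensorProduct.map (AlgHom.id A B) g) ↔
      t ∈ Ideal.span {(Algebra.TensorProduct.includeRight : Γ(C.X, V) →ₐ[A] B ⊗[A] Γ(C.X, V)) β} :=
      by rw [h1]
    rw [RingHom.mem_ker] at h3
    exact h3
  refine ⟨G.toRingHom.comp E.symm.toRingHom, hG.comp E.symm.surjective, ?_, ?_⟩
  · ext s
    rw [RingHom.mem_ker]
    change G (E.symm s) = 0 ↔ _
    rw [hk, Ideal.mem_span_singleton, Ideal.mem_span_singleton]
    have h1 : (a.f.appLE V (a.f ⁻¹ᵁ V) le_rfl).hom β = E (1 ⊗ₜ[A] β) := by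
      rw [hE, map_one, one_mul]
    rw [h1]
    constructor
    · rintro ⟨t, ht⟩
      refine ⟨E t, ?_⟩
      rw [← map_mul, ← ht, RingEquiv.apply_symm_apply]
    · rintro ⟨t, ht⟩
      refine ⟨E.symm t, ?_⟩
      rw [ht, map_mul, RingEquiv.symm_apply_apply]
  · intro b
    change G (E.symm (coef y.π (a.f ⁻¹ᵁ V) b)) = _
    have h1 : coef y.π (a.f ⁻¹ᵁ V) b = E (b ⊗ₜ[A] 1) := by
      rw [hE, map_one, mul_one]
    rw [h1, RingEquiv.symm_apply_apply]
    rfl

/-- The homomorphism is local with the same residue field. -/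
def RB {A B : Type} [CommRing A] [CommRing B] [IsLocalRing A] [IsLocalRing B] (φ : A →+* B) :
    Prop :=
  letI := φ.toAlgebra
  ∃ h : (IsLocalRing.maximalIdeal B).LiesOver (IsLocalRing.maximalIdeal A),
    Function.Bijective (Ideal.ResidueField.mapₐ (IsLocalRing.maximalIdeal A)
      (IsLocalRing.maximalIdeal B) (Algebra.ofId _ _) h.over)

theorem fib_inj [IsLocalRing A] [IsLocalRing B] (hφ : RB φ) (a : Arrow φ y C) {x x' : y.X}
    (hx : y.π x = IsLocalRing.closedPoint B) (hx' : y.π x' = IsLocalRing.closedPoint B)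
    (h : a.f x = a.f x') : x = x' := by
  obtain ⟨V, hV, hxV, -⟩ := exists_isAffineOpen_mem_and_subset (x := a.f x) (U := ⊤) trivial
  have hV' := pre_affine a hV
  have hxV' : x ∈ a.f ⁻¹ᵁ V := hxV
  have hx'V' : x' ∈ a.f ⁻¹ᵁ V := by
    show a.f x' ∈ V
    rw [← h]; exact hxV
  apply prime_inj hV' hxV' hx'V'
  obtain ⟨E, hE⟩ := tp_affine a hV
  unfold RB at hφ
  let _ := φ.toAlgebra
  let _ := (coef C.π V).toAlgebra
  obtain ⟨h1, hbij⟩ := hφ
  have key : ∀ (z : y.X) (hz : z ∈ a.f ⁻¹ᵁ V), y.π z = IsLocalRing.closedPoint B →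
      (((hV'.primeIdealOf ⟨z, hz⟩).asIdeal.comap E.toRingHom).LiesOver
        (IsLocalRing.maximalIdeal B)) := by
    intro z hz hz'
    refine ⟨?_⟩
    have h2 := prime_coef y.π hV' z hz
    rw [hz'] at h2
    have h3 := congrArg PrimeSpectrum.asIdeal h2
    rw [Ideal.under, Ideal.comap_comap]
    have h4 : E.toRingHom.comp (algebraMap B (B ⊗[A] Γ(C.X, V))) = coef y.π (a.f ⁻¹ᵁ V) := by
      ext b
      change E (b ⊗ₜ[A] 1) = _
      rw [hE, map_one, mul_one]
    rw [h4]
    exact h3.symm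
  have key2 : ∀ (z : y.X) (hz : z ∈ a.f ⁻¹ᵁ V),
      (((hV'.primeIdealOf ⟨z, hz⟩).asIdeal.comap E.toRingHom).comap
        (Algebra.TensorProduct.includeRight : Γ(C.X, V) →ₐ[A] B ⊗[A] Γ(C.X, V)).toRingHom) =
        (hV.primeIdealOf ⟨a.f z, hz⟩).asIdeal := by
    intro z hz
    have h2 := IsAffineOpen.comap_primeIdealOf_appLE (f := a.f) V hV (a.f ⁻¹ᵁ V) hV' le_rfl hz
    have h3 := congrArg PrimeSpectrum.asIdeal h2
    rw [Ideal.comap_comap]
    have h4 : E.toRingHom.comp (Algebra.TensorProduct.includeRight :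
        Γ(C.X, V) →ₐ[A] B ⊗[A] Γ(C.X, V)).toRingHom =
          (a.f.appLE V (a.f ⁻¹ᵁ V) le_rfl).hom := by
      ext b
      change E (1 ⊗ₜ[A] b) = _
      rw [hE, map_one, one_mul]
    rw [h4]
    exact h3
  have i1 := key x hxV' hx
  have i2 := key x' hx'V' hx'
  have h5 := Ideal.eq_of_comap_eq_comap_of_bijective_residueFieldMap hbij
    ((hV'.primeIdealOf ⟨x, hxV'⟩).asIdeal.comap E.toRingHom)
    ((hV'.primeIdealOf ⟨x', hx'V'⟩).asIdeal.comap E.toRingHom) (by
      rw [key2, key2]
      congr 2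
      exact Subtype.ext h)
  ext1
  have h6 := congrArg (Ideal.comap E.symm.toRingHom) h5
  have h7 : E.toRingHom.comp E.symm.toRingHom = RingHom.id _ := by
    ext b
    exact E.apply_symm_apply b
  rw [Ideal.comap_comap, Ideal.comap_comap, h7, Ideal.comap_id, Ideal.comap_id] at h6
  exact h6

end

theorem split2 {B S : Type} [CommRing B] [IsLocalRing B] [CommRing S] [Algebra B S]
    [Algebra.FiniteType B S] (q : PrimeSpectrum S)
    (hq : q.comap (algebraMap B S) = IsLocalRing.closedPoint B)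
    (hu : ∀ q' : PrimeSpectrum S, q'.comap (algebraMap B S) = IsLocalRing.closedPoint B →
      q' = q) :
    ∃ (B' : Type) (_ : CommRing B') (_ : IsLocalRing B') (φ : B →+* B') (_ : IsLocalHom φ),
      φ.Flat ∧ RB φ ∧ (letI := φ.toAlgebra
        ∃ e : B' ⊗[B] S, e * e = e ∧
        (∃ (n : ℕ) (x : Fin n → B' ⊗[B] S), ∀ t, ∃ r : Fin n → B', e * t = ∑ k, r k • x k) ∧
        ∀ Q : Ideal (B' ⊗[B] S), Q.IsPrime →
          Q.comap (algebraMap B' (B' ⊗[B] S)) = IsLocalRing.maximalIdeal B' → e ∉ Q) := by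
  obtain ⟨B', i1, i2, i3, hl, hf, h, hb, he⟩ := split q hq hu
  obtain ⟨φ, hφ⟩ : ∃ φ : B →+* B', i3 = φ.toAlgebra :=
    ⟨algebraMap B B', Algebra.algebra_ext _ _ fun _ => rfl⟩
  subst hφ
  exact ⟨B', i1, i2, φ, hl, hf, ⟨h, hb⟩, he⟩

section

variable {A B : Type} [CommRing A] [CommRing B] [IsLocalRing A] [IsLocalRing B] {φ : A →+* B}
  {C : Fam 1 A} {y : Fam 1 B}

theorem closed_map [IsLocalHom φ] (a : Arrow φ y C) {x : y.X}
    (hx : y.π x = IsLocalRing.closedPoint B) : C.π (a.f x) = IsLocalRing.closedPoint A := by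
  have h1 : C.π (a.f x) = spMap φ (y.π x) := by
    have h2 := congrArg (fun f => f x) (congrArg (fun f : y.X ⟶ Sp A => (f : y.X → Sp A)) a.cart.w)
    simpa using h2
  rw [h1, hx]
  exact IsLocalRing.comap_closedPoint φ

theorem closed_ex [IsLocalHom φ] (a : Arrow φ y C) {x : C.X}
    (hx : C.π x = IsLocalRing.closedPoint A) :
    ∃ x' : y.X, a.f x' = x ∧ y.π x' = IsLocalRing.closedPoint B := by
  refine Scheme.exists_preimage_of_isPullback a.cart x (IsLocalRing.closedPoint B) ?_
  have h1 : spMap φ (IsLocalRing.closedPoint B : Sp B) = (IsLocalRing.closedPoint A : Sp A) :=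
    IsLocalRing.comap_closedPoint φ
  exact hx.trans h1.symm

/-- Base change of a preliminary nice cover. -/
noncomputable def pull [IsLocalHom φ] (hφ : RB φ) (a : Arrow φ y C) {L : LC C} {L' : LC y}
    (hL : L.Bc a L') (P : PNC L) (g : ∀ j, Γ(y.X, a.f ⁻¹ᵁ P.V j))
    (hg : ∀ j (x' : y.X), y.π x' = IsLocalRing.closedPoint B → a.f x' = P.z j →
      x' ∈ y.X.basicOpen (g j)) : PNC L' where
  W := a.f ⁻¹ᵁ P.W
  aW := pre_affine a P.aW
  leW := by
    rw [hL.U]
    exact fun x hx => P.leW hx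
  ι := P.ι
  V j := y.X.basicOpen (g j)
  aV j := (pre_affine a (P.aV j)).basicOpen _
  β j := (a.f.appLE (P.V j) (y.X.basicOpen (g j)) (y.X.basicOpen_le _)).hom (P.β j)
  bas j := by
    intro x hx
    exact P.bas j ((mem_pre a.f (y.X.basicOpen_le (g j)) (P.β j) x).1 hx).2
  z j := (closed_ex a (P.zc j)).choose
  zc j := (closed_ex a (P.zc j)).choose_spec.2
  inj := by
    intro j k hjk
    apply P.inj
    rw [← (closed_ex a (P.zc j)).choose_spec.1, ← (closed_ex a (P.zc k)).choose_spec.1]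
    exact congrArg _ hjk
  mem j := hg j _ (closed_ex a (P.zc j)).choose_spec.2 (closed_ex a (P.zc j)).choose_spec.1
  nW j := by
    intro h
    have h1 : a.f (closed_ex a (P.zc j)).choose ∈ P.W := h
    rw [(closed_ex a (P.zc j)).choose_spec.1] at h1
    exact P.nW j h1
  uniq j x hx hc hb := by
    apply fib_inj hφ a hc (closed_ex a (P.zc j)).choose_spec.2
    rw [(closed_ex a (P.zc j)).choose_spec.1]
    refine P.uniq j _ (y.X.basicOpen_le _ hx) (closed_map a hc) fun h => hb ?_
    exact (mem_pre a.f (y.X.basicOpen_le (g j)) (P.β j) x).2 ⟨hx, h⟩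
  cov x hx := by
    rcases P.cov (a.f x) (closed_map a hx) with h | ⟨j, hj⟩
    · exact Or.inl h
    · refine Or.inr ⟨j, fib_inj hφ a hx (closed_ex a (P.zc j)).choose_spec.2 ?_⟩
      rw [(closed_ex a (P.zc j)).choose_spec.1]
      exact hj
  i₀ := P.i₀
  le₀ := by
    rw [hL.V]
    exact fun x hx => P.le₀ (y.X.basicOpen_le _ hx)
  sec := by
    refine fib_inj hφ a ?_ (closed_ex a (P.zc P.i₀)).choose_spec.2 ?_
    · have h2 := congrArg (fun f => f (IsLocalRing.closedPoint B : Sp B))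
        (congrArg (fun f : Sp B ⟶ Sp B => (f : Sp B → Sp B)) (y.sec 0))
      simpa using h2
    · rw [(closed_ex a (P.zc P.i₀)).choose_spec.1]
      have h2 := congrArg (fun f => f (IsLocalRing.closedPoint B : Sp B))
        (congrArg (fun f : Sp B ⟶ C.X => (f : Sp B → C.X)) (a.sec 0))
      have h3 : a.f (y.σ 0 (IsLocalRing.closedPoint B : Sp B)) =
          C.σ 0 (spMap φ (IsLocalRing.closedPoint B : Sp B)) := by simpa using h2
      have h4 : spMap φ (IsLocalRing.closedPoint B : Sp B) = (IsLocalRing.closedPoint A : Sp A) :=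
        IsLocalRing.comap_closedPoint φ
      rw [h3, h4]
      exact P.sec

/-- A criterion for good indices of the base change. -/
theorem good {V : C.X.Opens} (hV : IsAffineOpen V) (a : Arrow φ y C) (β : Γ(C.X, V))
    (g : Γ(y.X, a.f ⁻¹ᵁ V)) {T : Type} [CommRing T] [Algebra B T]
    (θ : Γ(y.X, a.f ⁻¹ᵁ V) →+* T) (hs : Function.Surjective θ)
    (hk : RingHom.ker θ = Ideal.span {(a.f.appLE V (a.f ⁻¹ᵁ V) le_rfl).hom β})
    (hb : ∀ b, θ (coef y.π (a.f ⁻¹ᵁ V) b) = algebraMap B T b) (he : θ g * θ g = θ g)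
    (hfin : ∃ (n : ℕ) (x : Fin n → T), ∀ t, ∃ r : Fin n → B, θ g * t = ∑ k, r k • x k) :
    ((Ideal.Quotient.mk (Ideal.span
      {(a.f.appLE V (y.X.basicOpen g) (y.X.basicOpen_le _)).hom β})).comp
        (coef y.π (y.X.basicOpen g))).Finite := by
  have hV' := pre_affine a hV
  let ρ : Γ(y.X, a.f ⁻¹ᵁ V) →+* Γ(y.X, y.X.basicOpen g) := rs y.X (y.X.basicOpen_le g)
  have hβ : (a.f.appLE V (y.X.basicOpen g) (y.X.basicOpen_le _)).hom β =
      ρ ((a.f.appLE V (a.f ⁻¹ᵁ V) le_rfl).hom β) := by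
    change _ = (a.f.appLE V (a.f ⁻¹ᵁ V) le_rfl ≫
      y.X.presheaf.map (homOfLE (y.X.basicOpen_le g)).op) β
    rw [Scheme.Hom.appLE_map]
  rw [hβ]
  set β' := ρ ((a.f.appLE V (a.f ⁻¹ᵁ V) le_rfl).hom β) with hβ'
  let η : Γ(y.X, a.f ⁻¹ᵁ V) →+* Γ(y.X, y.X.basicOpen g) ⧸ Ideal.span {β'} :=
    (Ideal.Quotient.mk _).comp ρ
  have hη : ∀ v, θ v = 0 → η v = 0 := by
    intro v hv
    have h1 : v ∈ RingHom.ker θ := hv
    rw [hk, Ideal.mem_span_singleton] at h1
    obtain ⟨w, rfl⟩ := h1
    rw [map_mul]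
    have h2 : η ((a.f.appLE V (a.f ⁻¹ᵁ V) le_rfl).hom β) = 0 :=
      Ideal.Quotient.eq_zero_iff_mem.2 (Ideal.mem_span_singleton_self _)
    rw [h2, zero_mul]
  have hη2 : ∀ v w, θ v = θ w → η v = η w := by
    intro v w hvw
    have := hη (v - w) (by rw [map_sub, hvw, sub_self])
    rwa [map_sub, sub_eq_zero] at this
  have hloc := hV'.isLocalization_basicOpen g
  have hρ : ∀ v, algebraMap Γ(y.X, a.f ⁻¹ᵁ V) Γ(y.X, y.X.basicOpen g) v = ρ v := fun v => rfl
  have hu : IsUnit (ρ g) := by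
    rw [← hρ]
    exact IsLocalization.Away.algebraMap_isUnit g
  have hg1 : η g = 1 := by
    have h1 : η g * η g = η g := by
      rw [← map_mul]
      exact hη2 _ _ (by rw [map_mul, he])
    have h2 : IsUnit (η g) := hu.map (Ideal.Quotient.mk _)
    exact h2.mul_left_cancel (by rw [h1, mul_one])
  have hsur : ∀ u : Γ(y.X, y.X.basicOpen g) ⧸ Ideal.span {β'}, ∃ v, η v = u := by
    intro u
    obtain ⟨u, rfl⟩ := Ideal.Quotient.mk_surjective u
    obtain ⟨m, v, hv⟩ := IsLocalization.Away.surj g u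
    refine ⟨v, ?_⟩
    have h1 : Ideal.Quotient.mk (Ideal.span {β'}) (u * ρ g ^ m) =
      Ideal.Quotient.mk (Ideal.span {β'}) (ρ v) := by
      rw [← hρ, ← hρ, hv]
    rw [map_mul, map_pow] at h1
    have h2 : Ideal.Quotient.mk (Ideal.span {β'}) (ρ g) = 1 := hg1
    rw [h2, one_pow, mul_one] at h1
    exact h1.symm
  obtain ⟨n, x, hx⟩ := hfin
  choose X hX using fun k => hs (x k)
  let F := (Ideal.Quotient.mk (Ideal.span {β'})).comp (coef y.π (y.X.basicOpen g))
  have hF : ∀ b, η (coef y.π (a.f ⁻¹ᵁ V) b) = F b := by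
    intro b
    show Ideal.Quotient.mk _ (rs y.X (y.X.basicOpen_le g) (coef y.π (a.f ⁻¹ᵁ V) b)) = _
    rw [coef_rs]
    rfl
  change F.Finite
  let _ := F.toAlgebra
  refine ⟨Submodule.fg_def.2 ⟨Set.range fun k => η (X k), Set.finite_range _, ?_⟩⟩
  rw [eq_top_iff]
  rintro u -
  obtain ⟨v, rfl⟩ := hsur u
  obtain ⟨r, hr⟩ := hx (θ v)
  rw [Submodule.mem_span_range_iff_exists_fun]
  refine ⟨r, ?_⟩
  have h1 : η (g * v) = η (∑ k, coef y.π (a.f ⁻¹ᵁ V) (r k) * X k) := by
    apply hη2
    rw [map_mul, hr, map_sum]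
    refine Finset.sum_congr rfl fun k _ => ?_
    rw [map_mul, hb, hX, Algebra.smul_def]
  rw [map_mul, hg1, one_mul, map_sum] at h1
  rw [h1]
  refine Finset.sum_congr rfl fun k _ => ?_
  rw [map_mul, hF]
  rfl

end

end SPL

open _root_.Pool.Agent.MG.WL.SPL in
theorem t_SPL (hLCB : Stmt_LCB) : Stmt_SPL := by
  intro B _ _ y hy L P i
  have hlft : LocallyOfFiniteType y.π := by
    have := hy.fp
    infer_instance
  have hV := P.aV i
  let algV : Algebra B Γ(y.X, P.V i) := (coef y.π (P.V i)).toAlgebra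
  have hft : Algebra.FiniteType B (Γ(y.X, P.V i) ⧸ Ideal.span {P.β i}) := by
    have h1 : Algebra.FiniteType B Γ(y.X, P.V i) := coef_ft y.π hV
    exact Algebra.FiniteType.of_surjective (Ideal.Quotient.mkₐ B _) Ideal.Quotient.mk_surjective
  have hzb : P.z i ∉ y.X.basicOpen (P.β i) := fun h => P.nW i (P.bas i h)
  have hmk : Function.Surjective (Ideal.Quotient.mk (Ideal.span {P.β i})) :=
    Ideal.Quotient.mk_surjective
  have hcomp : algebraMap B (Γ(y.X, P.V i) ⧸ Ideal.span {P.β i}) =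
      (Ideal.Quotient.mk (Ideal.span {P.β i})).comp (coef y.π (P.V i)) := rfl
  obtain ⟨q, hq⟩ : ∃ q : PrimeSpectrum (Γ(y.X, P.V i) ⧸ Ideal.span {P.β i}),
      q.comap (Ideal.Quotient.mk (Ideal.span {P.β i})) =
        hV.primeIdealOf ⟨P.z i, P.mem i⟩ := by
    have h1 := range_comap_of_surjective _ _ hmk
    have h2 : hV.primeIdealOf ⟨P.z i, P.mem i⟩ ∈
        Set.range (PrimeSpectrum.comap (Ideal.Quotient.mk (Ideal.span {P.β i}))) := by
      rw [h1, PrimeSpectrum.mem_zeroLocus, Ideal.mk_ker]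
      intro s hs
      obtain ⟨w, rfl⟩ := Ideal.mem_span_singleton.1 hs
      exact Ideal.mul_mem_right _ _ ((mem_prime hV _ _ _).2 hzb)
    exact h2
  have hq2 : q.comap (algebraMap B (Γ(y.X, P.V i) ⧸ Ideal.span {P.β i})) =
      IsLocalRing.closedPoint B := by
    rw [hcomp, PrimeSpectrum.comap_comp_apply, hq, prime_coef]
    exact P.zc i
  obtain ⟨B', _, _, φ, _, hflat, hRB, hsp⟩ := split2 q hq2 (by
    intro q' hq'
    apply PrimeSpectrum.comap_injective_of_surjective _ hmk
    rw [hq]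
    obtain ⟨x, hx, hxq⟩ := prime_surj hV
      (q'.comap (Ideal.Quotient.mk (Ideal.span {P.β i})))
    rw [← hxq]
    have h1 : y.π x = IsLocalRing.closedPoint B := by
      rw [hcomp, PrimeSpectrum.comap_comp_apply, ← hxq, prime_coef] at hq'
      exact hq'
    have h2 : x ∉ y.X.basicOpen (P.β i) := by
      rw [← mem_prime hV x hx, hxq]
      show Ideal.Quotient.mk (Ideal.span {P.β i}) (P.β i) ∈ q'.asIdeal
      rw [Ideal.Quotient.eq_zero_iff_mem.2 (Ideal.mem_span_singleton_self _)]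
      exact q'.asIdeal.zero_mem
    have h3 := P.uniq i x hx h1 h2
    subst h3
    rfl)
  let y' := PBS.bc φ y
  let a : Arrow φ y' y := PBS.bcArrow φ y
  obtain ⟨L', hL'⟩ := hLCB a L
  let _ := φ.toAlgebra
  obtain ⟨e, he, hfin, hQ⟩ := hsp
  obtain ⟨θ, hθs, hθk, hθb⟩ := theta a hV (P.β i)
  obtain ⟨gi, hgi⟩ := hθs e
  classical
  let g : ∀ j, Γ(y'.X, a.f ⁻¹ᵁ P.V j) := Function.update (fun j => 1) i gi
  have hgi' : g i = gi := Function.update_self _ _ _
  have hgj : ∀ j, j ≠ i → g j = 1 := fun j hj => Function.update_of_ne hj _ _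
  have hg : ∀ j (x' : y'.X), y'.π x' = IsLocalRing.closedPoint B' → a.f x' = P.z j →
      x' ∈ y'.X.basicOpen (g j) := by
    intro j x' hx' hxz
    have hmem : x' ∈ a.f ⁻¹ᵁ P.V j := by
      show a.f x' ∈ P.V j
      rw [hxz]; exact P.mem j
    by_cases hj : j = i
    · subst hj
      rw [hgi']
      have hV' := pre_affine a hV
      by_contra hcon
      rw [← mem_prime hV' x' hmem] at hcon
      have hker : RingHom.ker θ ≤ (hV'.primeIdealOf ⟨x', hmem⟩).asIdeal := by
        rw [hθk, Ideal.span_singleton_le_iff_mem, mem_prime hV' x' hmem, SPL.mem_pre]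
        rintro ⟨-, h⟩
        rw [hxz] at h
        exact hzb h
      have hprime : (Ideal.map θ (hV'.primeIdealOf ⟨x', hmem⟩).asIdeal).IsPrime :=
        Ideal.map_isPrime_of_surjective hθs hker
      apply hQ _ hprime
      · ext b
        rw [Ideal.mem_comap, ← hθb, ← Ideal.mem_comap (f := θ),
          Ideal.comap_map_of_surjective' _ hθs, sup_eq_left.2 hker]
        have h2 := congrArg PrimeSpectrum.asIdeal (prime_coef y'.π hV' x' hmem)
        rw [hx'] at h2
        have h3 : b ∈ Ideal.comap (coef y'.π (a.f ⁻¹ᵁ P.V j))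
          (hV'.primeIdealOf ⟨x', hmem⟩).asIdeal ↔ b ∈ IsLocalRing.maximalIdeal B' := by
          rw [show Ideal.comap (coef y'.π (a.f ⁻¹ᵁ P.V j))
            (hV'.primeIdealOf ⟨x', hmem⟩).asIdeal = IsLocalRing.maximalIdeal B' from h2]
        exact h3
      · rw [← hgi]
        exact Ideal.mem_map_of_mem θ hcon
    · rw [hgj j hj, Scheme.basicOpen_of_isUnit _ isUnit_one]
      exact hmem
  refine ⟨B', inferInstance, inferInstance, φ, inferInstance, y', a, L',
    pull hRB a hL' P g hg, Equiv.refl _, hflat, hL', ?_, ?_⟩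
  · refine good hV a (P.β i) (g i) θ hθs hθk hθb ?_ ?_
    · rw [hgi', hgi, he]
    · rw [hgi', hgi]
      exact hfin
  · intro j hj
    by_cases hji : j = i
    · subst hji
      refine good hV a (P.β j) (g j) θ hθs hθk hθb ?_ ?_
      · rw [hgi', hgi, he]
      · rw [hgi', hgi]
        exact hfin
    · let _ : Algebra B Γ(y.X, P.V j) := (coef y.π (P.V j)).toAlgebra
      obtain ⟨θj, hs, hk, hb⟩ := theta a (P.aV j) (P.β j)
      refine good (T := B' ⊗[B] (Γ(y.X, P.V j) ⧸ Ideal.span {P.β j})) (P.aV j) a (P.β j) (g j)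
        θj hs hk hb ?_ ?_
      · rw [hgj j hji, map_one, mul_one]
      · rw [hgj j hji, map_one]
        have h1 : Module.Finite B (Γ(y.X, P.V j) ⧸ Ideal.span {P.β j}) := by
          have h2 : ((Ideal.Quotient.mk (Ideal.span {P.β j})).comp
            (coef y.π (P.V j))).Finite := hj
          have h3 : (algebraMap B (Γ(y.X, P.V j) ⧸ Ideal.span {P.β j})).Finite := h2
          exact RingHom.finite_algebraMap.1 h3
        have h2 : Module.Finite B' (B' ⊗[B] (Γ(y.X, P.V j) ⧸ Ideal.span {P.β j})) :=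
          inferInstance
        obtain ⟨n, x, hx⟩ := Submodule.fg_iff_exists_fin_generating_family.1 h2.fg_top
        refine ⟨n, x, fun t => ?_⟩
        have h3 : t ∈ Submodule.span B' (Set.range x) := by rw [hx]; trivial
        obtain ⟨r, hr⟩ := (Submodule.mem_span_range_iff_exists_fun B').1 h3
        exact ⟨r, by rw [one_mul, hr]⟩

end Pool.Agent.MG.WL


end
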