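import Mathlib
import Pool.Agent.KDM.C08
import Pool.Agent.KDM.C33
import Pool.Agent.KDM.C34
import Pool.Agent.KDM.C39
import Pool.Agent.KDM.C45
import Pool.Agent.KDM.C54

/-! Parts: MG.WL.ASW, MG.WL.CL.Fin, MG.WL.CL.P1, MG.WL.FIN.Stmts, MG.WL.FIN.FAL, MG.WL.FIN.FCH, MG.WL.FIN.FCP, MG.WL.FIN.FIN, MG.WL.FIN.FLK, MG.WL.FIN.FLW, MG.WL.FIN.FPR, MG.WL.FIN.FQF, MG.WL.FIN.FSP -/

section

/-!
# ASW: assembly of the local Weierstrass form
-/

open CategoryTheory CategoryTheory.Limits AlgebraicGeometry TensorProduct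

namespace Pool.Agent.MG.WL

open Pool.Agent.MG.W Pool.Agent.MG.One Pool.Agent.MG.GLU

namespace ASW

theorem rs_appLE {X Y : Scheme.{0}} (f : Y ⟶ X) {U V : X.Opens} {U' V' : Y.Opens} (h : U ≤ V)
    (h' : U' ≤ V') (e : V' ≤ f ⁻¹ᵁ V) (e' : U' ≤ f ⁻¹ᵁ U) (v : Γ(X, V)) :
    rs Y h' ((f.appLE V V' e).hom v) = (f.appLE U U' e').hom (rs X h v) := by
  have h1 : f.appLE V V' e ≫ Y.presheaf.map (homOfLE h').op =
      X.presheaf.map (homOfLE h).op ≫ f.appLE U U' e' := by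
    rw [Scheme.Hom.appLE_map, Scheme.Hom.map_appLE]
  exact ConcreteCategory.congr_hom h1 v

variable {A B : Type} [CommRing A] [CommRing B] {φ : A →+* B} {C : Fam 1 A} {y : Fam 1 B}

theorem coef_pull (a : Arrow φ y C) {V : C.X.Opens} {V' : y.X.Opens} (e : V' ≤ a.f ⁻¹ᵁ V)
    (c : A) : (a.f.appLE V V' e).hom (coef C.π V c) = coef y.π V' (φ c) := by
  rw [coef_comp, a.cart.w, coef_spMap]

/-- Poles under base change. -/
theorem pole_pull (a : Arrow φ y C) (L : LC C) (L' : LC y) (h : L.Bc a L') {n : ℕ} {c : A}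
    {X : Γ(C.X, L.U)} (hX : L.Pole n c X) : ∃ X' : Γ(y.X, L'.U), L'.Pole n (φ c) X' := by
  obtain ⟨r, hr⟩ := hX
  have e₁ : L'.U ≤ a.f ⁻¹ᵁ L.U := h.U.le
  have e₂ : L'.V ≤ a.f ⁻¹ᵁ L.V := h.V.le
  have e₃ : L'.U ⊓ L'.V ≤ a.f ⁻¹ᵁ (L.U ⊓ L.V) := fun z hz => ⟨e₁ hz.1, e₂ hz.2⟩
  refine ⟨(a.f.appLE L.U L'.U e₁).hom X, (a.f.appLE L.V L'.V e₂).hom r, ?_⟩
  have h1 := congrArg (fun v => (a.f.appLE (L.U ⊓ L.V) (L'.U ⊓ L'.V) e₃).hom v) hr
  simp only [map_mul, map_pow, map_add] at h1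
  rw [← rs_appLE a.f inf_le_right inf_le_right e₂ e₃, ← rs_appLE a.f inf_le_left inf_le_left e₁ e₃,
    ← rs_appLE a.f inf_le_right inf_le_right e₂ e₃, ← rs_appLE a.f inf_le_right inf_le_right e₂ e₃,
    coef_pull] at h1
  rw [map_add, map_mul, h.t]
  exact h1

/-- Scaling of a pole by a unit. -/
theorem pole_unit (L : LC C) {n : ℕ} {c : A} (hc : IsUnit c) {X : Γ(C.X, L.U)}
    (hX : L.Pole n c X) : ∃ X' : Γ(C.X, L.U), L.Pole n 1 X' := by
  obtain ⟨r, hr⟩ := hX
  obtain ⟨u, hu⟩ := hc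
  refine ⟨coef C.π L.U (↑u⁻¹ : A) * X, coef C.π L.V (↑u⁻¹ : A) * r, ?_⟩
  have h1 : ∀ {U V : C.X.Opens} (h : U ≤ V) (b : A), rs C.X h (coef C.π V b) = coef C.π U b := by
    intro U V h b
    have h2 : (C.π.appTop ≫ C.X.presheaf.map (homOfLE (le_top : V ≤ ⊤)).op) ≫
        C.X.presheaf.map (homOfLE h).op =
        C.π.appTop ≫ C.X.presheaf.map (homOfLE (le_top : U ≤ ⊤)).op := by
      rw [Category.assoc, ← Functor.map_comp]
      rfl
    have h3 := ConcreteCategory.congr_hom h2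
      ((Scheme.ΓSpecIso (CommRingCat.of A)).inv.hom b)
    exact h3
  have h4 : (↑u⁻¹ : A) * c = 1 := by
    rw [← hu, Units.inv_mul]
  have h5 : coef C.π L.V (1 : A) + L.t * (coef C.π L.V (↑u⁻¹ : A) * r) =
      coef C.π L.V (↑u⁻¹ : A) * (coef C.π L.V c + L.t * r) := by
    rw [mul_add, ← map_mul, h4]
    ring
  rw [h5, map_mul, map_mul (rs C.X _) (coef C.π L.V _), ← hr, h1, h1]
  ring

end ASW

open _root_.Pool.Agent.MG.WL.ASW

theorem t_WLF (hLCE : Stmt_LCE) (hLCB : Stmt_LCB) (hLIFT : Stmt_LIFT) (hFIN : Stmt_FIN) :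
    Stmt_WLF := by
  intro A _ _ C hC p
  obtain ⟨f₁, hf₁, ⟨L₁⟩⟩ := hLCE A C hC p
  -- the first localisation
  set A₁ := Localization.Away f₁ with hA₁
  set C₁ := PBS.bc (algebraMap A A₁) C with hC₁
  have hst₁ : IsStable 1 C₁ := PBS.bc_stable _ _ hC
  obtain ⟨p₁, hp₁⟩ : ∃ p₁ : PrimeSpectrum A₁, PrimeSpectrum.comap (algebraMap A A₁) p₁ = p := by
    have h1 : p ∈ Set.range (PrimeSpectrum.comap (algebraMap A A₁)) := by
      rw [PrimeSpectrum.localization_away_comap_range A₁ f₁]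
      exact hf₁
    exact h1
  obtain ⟨g₂, hg₂, X, hX⟩ := hLIFT A₁ C₁ hst₁ L₁ p₁ 2 le_rfl
  obtain ⟨g₃, hg₃, Y, hY⟩ := hLIFT A₁ C₁ hst₁ L₁ p₁ 3 (by norm_num)
  set g := g₂ * g₃ with hg
  have hgp : g ∉ p₁.asIdeal := fun h => (p₁.2.mem_or_mem h).elim hg₂ hg₃
  set A₂ := Localization.Away g with hA₂
  let ψ : A₁ →+* A₂ := algebraMap A₁ A₂
  let C₂ := PBS.bc ψ C₁
  let a₂ : Arrow ψ C₂ C₁ := PBS.bcArrow ψ C₁
  have hst₂ : IsStable 1 C₂ := PBS.bc_stable _ _ hst₁
  obtain ⟨L₂, hL₂⟩ := hLCB a₂ L₁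
  have hu : IsUnit (ψ g) := IsLocalization.Away.algebraMap_isUnit g
  have hmul : ψ g = ψ g₂ * ψ g₃ := map_mul ψ g₂ g₃
  have hu₂ : IsUnit (ψ g₂) := by
    rw [hmul] at hu
    exact isUnit_of_mul_isUnit_left hu
  have hu₃ : IsUnit (ψ g₃) := by
    rw [hmul] at hu
    exact isUnit_of_mul_isUnit_right hu
  obtain ⟨X', hX'⟩ := pole_pull a₂ L₁ L₂ hL₂ hX
  obtain ⟨X'', hX''⟩ := pole_unit L₂ hu₂ hX'
  obtain ⟨Y', hY'⟩ := pole_pull a₂ L₁ L₂ hL₂ hY
  obtain ⟨Y'', hY''⟩ := pole_unit L₂ hu₃ hY'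
  let _ : Algebra ℂ A₂ := (ψ.comp (algebraMap ℂ A₁)).toAlgebra
  obtain ⟨a, b, hab, ⟨e⟩⟩ := hFIN A₂ C₂ hst₂ L₂ X'' Y'' hX'' hY''
  -- the element of `A`
  obtain ⟨k, h, hk⟩ : ∃ (k : ℕ) (h : A), g * (algebraMap A A₁ f₁) ^ k = algebraMap A A₁ h := by
    obtain ⟨k, h, hk⟩ := IsLocalization.Away.surj f₁ g
    exact ⟨k, h, hk⟩
  have hf₁u : IsUnit (algebraMap A A₁ f₁) := IsLocalization.Away.algebraMap_isUnit f₁
  have hh : h ∉ p.asIdeal := by
    intro hmem
    have h1 : algebraMap A A₁ h ∈ p₁.asIdeal := by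
      rw [← hp₁] at hmem
      exact hmem
    rw [← hk] at h1
    rcases p₁.2.mem_or_mem h1 with h2 | h2
    · exact hgp h2
    · exact p₁.2.ne_top (Ideal.eq_top_of_isUnit_mem _ h2 (hf₁u.pow k))
  refine ⟨f₁ * h, fun hmem => (p.2.mem_or_mem hmem).elim hf₁ hh, ?_⟩
  set D := Localization.Away (f₁ * h) with hD
  have huD : IsUnit (algebraMap A D (f₁ * h)) := IsLocalization.Away.algebraMap_isUnit (f₁ * h)
  rw [map_mul] at huD
  have hu1 : IsUnit (algebraMap A D f₁) := isUnit_of_mul_isUnit_left huD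
  have hu2 : IsUnit (algebraMap A D h) := isUnit_of_mul_isUnit_right huD
  let θ₁ : A₁ →+* D := IsLocalization.Away.lift f₁ hu1
  have hθ₁ : θ₁.comp (algebraMap A A₁) = algebraMap A D := IsLocalization.Away.lift_comp f₁ hu1
  have hθ₁g : IsUnit (θ₁ g) := by
    have h1 : θ₁ g * θ₁ (algebraMap A A₁ f₁) ^ k = algebraMap A D h := by
      rw [← map_pow, ← map_mul, hk, ← hθ₁]
      rfl
    rw [← h1] at hu2
    exact isUnit_of_mul_isUnit_left hu2
  let θ : A₂ →+* D := IsLocalization.Away.lift g hθ₁g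
  have hθ : θ.comp ψ = θ₁ := IsLocalization.Away.lift_comp g hθ₁g
  have hcomp : (θ.comp ((RingHom.id A₂).comp ψ)).comp (algebraMap A A₁) = algebraMap A D := by
    rw [RingHom.id_comp, hθ, hθ₁]
  refine ⟨θ a, θ b, ?_, ?_⟩
  · rw [Ideal.eq_top_iff_one, Ideal.mem_span_pair] at hab ⊢
    obtain ⟨r, s, hrs⟩ := hab
    exact ⟨θ r, θ s, by rw [← map_mul, ← map_mul, ← map_add, hrs, map_one]⟩
  · rw [← hcomp]
    exact ⟨PBS.comp (PBS.comp (warr θ rfl rfl) (PBS.comp e a₂)) (PBS.bcArrow (algebraMap A A₁) C)⟩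

end Pool.Agent.MG.WL


end

section

/-!
# Stable one-pointed curves of genus one are Weierstrass curves: assembly
-/

open CategoryTheory CategoryTheory.Limits AlgebraicGeometry TopologicalSpace IsLocalRing

namespace Pool.Agent.MG.WL.CL

open Pool.Agent.MG.Two Pool.Agent.MG.W Pool.Agent.MG.W.W0 Pool.Agent.MG.GLU Pool.Agent.MG.One

namespace Fin_

theorem isReduced_of {X : Scheme.{0}} (h : NodeLocs X) : IsReduced X := by
  have : ∀ x : X, _root_.IsReduced (X.presheaf.stalk x) := fun x => (h x).red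
  exact isReduced_of_isReduced_stalk X

theorem isIntegral_of {X : Scheme.{0}} (h : NodeLocs X) [IrreducibleSpace X] : IsIntegral X := by
  have := isReduced_of h
  exact isIntegral_of_irreducibleSpace_of_isReduced X

theorem dim1_of {X : Scheme.{0}} (h : NodeLocs X) [IsIntegral X] : Dim1 X := by
  intro x P hP
  rcases (h x).dim P hP with h1 | h1
  · left
    have h2 : minimalPrimes (X.presheaf.stalk x) = {⊥} := IsDomain.minimalPrimes_eq_singleton_bot _
    rw [h2] at h1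
    exact h1
  · exact Or.inr h1

theorem isClosed_section {X : Scheme.{0}} {k : Type} [Field k] (π : X ⟶ Sp k) [IsSeparated π]
    (σ : Sp k ⟶ X) (hσ : σ ≫ π = 𝟙 _) (q : Sp k) : IsClosed ({σ q} : Set X) := by
  have h1 : IsClosedImmersion (σ ≫ π) := by
    rw [hσ]
    infer_instance
  have h2 : IsClosedImmersion σ := IsClosedImmersion.of_comp σ π
  have h3 := σ.isClosedEmbedding.isClosed_range
  have h4 : Set.range σ = {σ q} := by
    ext x
    constructor
    · rintro ⟨y, rfl⟩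
      have : y = q := Subsingleton.elim (α := PrimeSpectrum k) y q
      rw [this]
      rfl
    · rintro rfl
      exact ⟨q, rfl⟩
  rw [← h4]
  exact h3

/-- The generic point of a component. -/
theorem range_le {E X : Scheme.{0}} (ι : E ⟶ X) [IsIntegral E] (Z : Set X) (hZ : IsClosed Z)
    (h : ι (genericPoint E) ∈ Z) : Set.range ι ⊆ Z := by
  rintro _ ⟨y, rfl⟩
  have h1 : genericPoint E ⤳ y := genericPoint_specializes y
  have h2 : ι (genericPoint E) ⤳ ι y := h1.map ι.continuous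
  exact h2.mem_closed hZ h

end Fin_

open _root_.Pool.Agent.MG.WL.CL.Fin_

/-- Assembly. -/
theorem cl_of (hL : Stmt_L) (hCNT : Stmt_CNT) (hDF : Stmt_DFIN) (hAR : Stmt_ARITH)
    (hP1 : Stmt_P1) (hEXT : Stmt_EXT) (hINT : Stmt_INT) (hCUSP : Stmt_CUSP) (hSMP : Stmt_SMP) :
    Stmt_CL := by
  intro k _ _ _ C hC
  have hprop : IsProper C.π := hC.proper
  have hid : spMap (RingHom.id k) = 𝟙 (Sp k) := by simp
  have hst : StableCurve 1 C := hC.fib k (RingHom.id k) C ⟨{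
    f := 𝟙 C.X
    cart := by
      rw [hid]
      exact IsPullback.of_id_fst
    sec := fun i => by rw [hid, Category.comp_id, Category.id_comp] }⟩
  have hcon : ConnectedSpace C.X := hst.connected
  have hNL : NodeLocs C.X := hL C.π hst.nodal
  let q : Sp k := (⊥ : PrimeSpectrum k)
  have hregs : ∀ q : Sp k, IsDomain (C.X.presheaf.stalk (C.σ 0 q)) ∧
      IsPrincipalIdealRing (C.X.presheaf.stalk (C.σ 0 q)) := by
    intro q
    obtain ⟨U, hqU, hsm⟩ := hst.smooth 0 q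
    exact hSMP C.π hst.nodal U hsm _ hqU
  have hnoe : NoetherianSpace C.X := by
    have h1 : IsLocallyNoetherian C.X := LocallyOfFiniteType.isLocallyNoetherian C.π
    have h2 : CompactSpace C.X := by
      exact QuasiCompact.compactSpace_of_compactSpace C.π
    have h3 : IsNoetherian C.X := {}
    infer_instance
  obtain ⟨hDfin, hDcl, hDdom, hDtwo⟩ := hDF hNL
  by_cases hirr : IrreducibleSpace C.X
  · have hint : IsIntegral C.X := isIntegral_of hNL
    obtain ⟨a, b, f, hf⟩ := hINT C hprop (dim1_of hNL) hst.genus (fun q => (hregs q).2)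
    refine ⟨a, b, ?_, f, hf⟩
    by_contra hab
    push Not at hab
    obtain ⟨rfl, rfl⟩ := hab
    have hne' : Nonempty (Wei (WZ (0 : k) 0)).X := ⟨f.f (genericPoint C.X)⟩
    have hint' : IsIntegral (Wei (WZ (0 : k) 0)).X := isIntegral_of_isOpenImmersion (inv f.f)
    have hst' : StableCurve 1 (Wei (WZ (0 : k) 0)) :=
      hC.fib k (RingHom.id k) _ ⟨{
        f := inv f.f
        cart := by
          have hiso' : IsIso (spMap (RingHom.id k)) := by
            rw [hid]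
            infer_instance
          have hw : inv f.f ≫ C.π = (Wei (WZ (0 : k) 0)).π ≫ spMap (RingHom.id k) := by
            rw [IsIso.inv_comp_eq]
            have := f.cart.w
            rw [hid, Category.comp_id] at this ⊢
            exact this.symm
          exact IsPullback.of_horiz_isIso ⟨hw⟩
        sec := fun i => by
          have := f.sec i
          rw [hid, Category.id_comp] at this ⊢
          rw [← this, Category.assoc, IsIso.hom_inv_id, Category.comp_id] }⟩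
    obtain ⟨v, U, hv⟩ := hCUSP hint'
    exact hv (hst'.rigid v U)
  · exfalso
    have hs : C.σ 0 q ∉ dbl C.X := fun h => hDdom _ h (hregs q).1
    obtain ⟨Z, hZ, ⟨E, ι, hι, hran, hg0⟩, hne, hcard⟩ := hAR (dbl C.X) (Good C.π) (C.σ 0 q) hDfin
      (fun x => Iff.rfl) hDtwo (hCNT C.π hst.nodal hNL hst.genus) hs hirr
    have hEint : IsIntegral E := hι.int
    have hcl : IsClosedImmersion ι := hι.cl
    have hprE : IsProper (ι ≫ C.π) := inferInstance
    have hinj : Function.Injective ι := ι.isClosedEmbedding.injective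
    let S : Set E := ι ⁻¹' (dbl C.X ∪ {C.σ 0 q})
    have hSfin : S.Finite := (hDfin.union (Set.finite_singleton _)).preimage hinj.injOn
    have hSim : ι '' S = Z ∩ (dbl C.X ∪ {C.σ 0 q}) := by
      rw [Set.image_preimage_eq_inter_range, hran, Set.inter_comm]
    have hScard : S.ncard ≤ 2 := by
      rw [← Set.ncard_image_of_injective S hinj, hSim]
      exact hcard
    have hgenZ : ∀ Z' ∈ irreducibleComponents C.X, ι (genericPoint E) ∈ Z' → Z' = Z := by
      intro Z' hZ' h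
      have h1 : Set.range ι ⊆ Z' :=
        range_le ι Z' (isClosed_of_mem_irreducibleComponents Z' hZ') h
      rw [hran] at h1
      exact Set.Subset.antisymm (hZ.2 hZ'.1 h1) h1
    have hSgen : ∀ x ∈ S, x ≠ genericPoint E := by
      rintro x (hx | hx) rfl
      · obtain ⟨Z₁, h1, Z₂, h2, h12, hm1, hm2⟩ := hx
        exact h12 ((hgenZ Z₁ h1 hm1).trans (hgenZ Z₂ h2 hm2).symm)
      · have hx' : ι (genericPoint E) = C.σ 0 q := hx
        have h1 : Set.range ι ⊆ {C.σ 0 q} :=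
          range_le ι _ (isClosed_section C.π _ (C.sec 0) q) hx'
        obtain ⟨d, hdZ, hdD⟩ := hne
        rw [hran] at h1
        have h2 : d = C.σ 0 q := h1 hdZ
        exact hs (h2 ▸ hdD)
    have hSne : S.Nonempty := by
      obtain ⟨d, hdZ, hdD⟩ := hne
      rw [← hran] at hdZ
      obtain ⟨y, rfl⟩ := hdZ
      exact ⟨y, Or.inl hdD⟩
    obtain ⟨δ, hδ, hδ0, hδS⟩ := hP1 (ι ≫ C.π) hι.dim hg0 hι.pir S hSfin hScard hSgen hSne
    obtain ⟨v, U, hv⟩ := hEXT C hprop hst.nodal hNL q ι hι δ hδ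
      (fun y hy => hδS y (Or.inl hy)) (fun y hy => hδS y (Or.inr hy)) hδ0
    exact hv (hst.rigid v U)

end Pool.Agent.MG.WL.CL


end

section

/-!
# P1: vector fields on integral curves with `H¹(O) = 0`
-/

open CategoryTheory AlgebraicGeometry IsLocalRing TopologicalSpace
open Pool.Agent.MG.Two Pool.Agent.MG.W Pool.Agent.MG.W.W0 Pool.Agent.MG.One

namespace Pool.Agent.MG.WL.CL

namespace P1_

variable {E : Scheme.{0}} [IsIntegral E]

/-- In dimension at most one the points other than the generic point are closed. -/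
theorem isClosed_of_ne (hD : Dim1 E) (x : E) (hx : x ≠ genericPoint E) : IsClosed {x} := by
  rw [← closure_subset_iff_isClosed]
  intro y hy
  have hxy : x ⤳ y := specializes_iff_mem_closure.2 hy
  have h1 : x ∈ Set.range (E.fromSpecStalk y) := by
    rw [Scheme.range_fromSpecStalk]
    exact hxy
  obtain ⟨P, hP⟩ := h1
  rcases hD y P.asIdeal P.isPrime with h | h
  · exfalso
    apply hx
    have h2 : genericPoint E ∈ Set.range (E.fromSpecStalk y) := by
      rw [Scheme.range_fromSpecStalk]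
      exact genericPoint_specializes y
    obtain ⟨Q, hQ⟩ := h2
    have h3 : P ⤳ Q := by
      refine (PrimeSpectrum.le_iff_specializes P Q).1 ?_
      change P.asIdeal ≤ Q.asIdeal
      rw [h]
      exact bot_le
    have h4 := h3.map (E.fromSpecStalk y).continuous
    rw [hP, hQ] at h4
    exact (h4.antisymm (genericPoint_specializes x)).eq
  · have h2 : P = closedPoint (E.presheaf.stalk y) := PrimeSpectrum.ext h
    rw [h2, Scheme.fromSpecStalk_closedPoint] at hP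
    exact hP

theorem Mx_mul {p : E} {a b : E.functionField} (ha : a ∈ Mx p) (hb : b ∈ O p) : a * b ∈ Mx p := by
  obtain ⟨a', ha', rfl⟩ := ha
  obtain ⟨b', rfl⟩ := hb
  exact ⟨a' * b', Ideal.mul_mem_right _ _ ha', map_mul _ _ _⟩

theorem one_notMem_Mx {p : E} : (1 : E.functionField) ∉ Mx p := by
  rintro ⟨a, ha, h⟩
  have h1 : a = 1 := by
    apply IsFractionRing.injective (E.presheaf.stalk p) E.functionField
    rw [h, map_one]
  rw [h1] at ha
  exact (Ideal.ne_top_iff_one _).1 (maximalIdeal.isMaximal _).ne_top ha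

theorem germ_mem_Mx {V : E.Opens} [Nonempty V] {p : E} (hp : p ∈ V) (r : Γ(E, V))
    (h : p ∉ E.basicOpen r) : E.germToFunctionField V r ∈ Mx p := by
  refine ⟨E.presheaf.germ V p hp r, ?_, Scheme.algebraMap_germ_eq_germToFunctionField (X := E) hp r⟩
  rw [mem_maximalIdeal, mem_nonunits_iff]
  rwa [Scheme.mem_basicOpen E r p hp] at h

theorem kfun_mem_O {k : Type} [Field k] (π : E ⟶ Sp k) (p : E) (c : k) : kfun π c ∈ O p := by
  have : Nonempty (⊤ : E.Opens) := ⟨⟨p, trivial⟩⟩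
  rw [← germ_kmap π ⊤ c]
  exact germ_mem_O (V := ⊤) p trivial _

end P1_

open _root_.Pool.Agent.MG.WL.CL.P1_ in
theorem t_P1 (hC : Stmt_CHT) (hP : Stmt_POLE) (hF : Stmt_FIN) (hG : Stmt_GEN0)
    (hD : Stmt_DER) : Stmt_P1 := by
  intro k _ _ E π _ _ hdim hgen ⟨V, hV, hpir⟩ S hS hcard hSg hne
  have hJ : JacobsonSpace E := LocallyOfFiniteType.jacobsonSpace π
  have hScl : IsClosed S := by
    rw [← Set.biUnion_of_singleton S]
    exact hS.isClosed_biUnion fun x hx => isClosed_of_ne hdim x (hSg x hx)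
  have hgV : genericPoint E ∈ V :=
    ((genericPoint_spec E).mem_open_set_iff V.isOpen).mpr (by simpa using hV)
  have hgS : genericPoint E ∉ S := fun h => hSg _ h rfl
  obtain ⟨p, ⟨hpV, hpS⟩, hpc⟩ := nonempty_inter_closedPoints (Z := (V : Set E) \ S)
    ⟨_, hgV, hgS⟩ (V.isOpen.sdiff hScl).isLocallyClosed
  have hpc' : IsClosed {p} := hpc
  have hpg : p ≠ genericPoint E := by
    intro h
    obtain ⟨x, hx⟩ := hne
    apply hSg x hx
    have h1 : x ∈ closure {p} := by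
      rw [h, ← specializes_iff_mem_closure]
      exact genericPoint_specializes x
    rw [hpc'.closure_eq] at h1
    rw [← h]
    exact h1
  have hpp := hpir p hpV
  obtain ⟨c, -⟩ := hC π hdim p hpg hpp ⊤ trivial
  have hNne : Nonempty c.N := ⟨⟨p, c.mem⟩⟩
  obtain ⟨f, n, u, hn1, hn2, hreg, hpu, hfu⟩ := hP π 0 hgen hpc' hpg c
  have hn : n = 1 := by omega
  subst hn
  rw [pow_one] at hfu
  have hZ : E.germToFunctionField c.N c.z ∈ Mx p :=
    germ_mem_Mx c.mem c.z ((c.gz c.z).2 ⟨1, (mul_one _).symm⟩)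
  have hUi := inv_mem_O p u hpu
  have hU0 : E.germToFunctionField c.N u ≠ 0 := by
    intro h
    have h1 : u = 0 := E.germToFunctionField_injective c.N (by rw [h, map_zero])
    rw [h1, Scheme.basicOpen_zero] at hpu
    exact hpu
  have hf0 : f ≠ 0 := by
    rintro rfl
    apply hU0
    rw [← hfu, zero_mul]
  have hfi : f⁻¹ = E.germToFunctionField c.N c.z * (E.germToFunctionField c.N u)⁻¹ := by
    rw [← hfu, mul_inv, mul_comm f⁻¹, ← mul_assoc, mul_inv_cancel₀, one_mul]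
    intro h
    apply hU0
    rw [← hfu, h, mul_zero]
  have hfM : f⁻¹ ∈ Mx p := by
    rw [hfi]
    exact Mx_mul hZ hUi
  have hfp : p ∉ dom f := by
    intro h
    apply one_notMem_Mx (E := E) (p := p)
    rw [← inv_mul_cancel₀ hf0]
    exact Mx_mul hfM h
  have hfd : ∀ x, x ∈ dom f ↔ x ≠ p := fun x => ⟨fun h h' => hfp (h' ▸ h), hreg x⟩
  have hT : Transc π f := by
    apply transc_of
    intro a ha
    apply hfp
    rw [ha]
    exact kfun_mem_O π p a
  have haff : IsAffineOpen (dom f) := by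
    refine hF π hdim f hT fun x => ?_
    by_cases hx : x = p
    · right
      rw [hx, hfi]
      have h1 : E.germToFunctionField c.N c.z ∈ O p := germ_mem_O p c.mem c.z
      exact mul_mem h1 hUi
    · exact Or.inl (hreg x hx)
  exact hD π hpc' hpg f hT haff hfd hfM (hG π hpc' hpp c f u hreg hpu hfu) S hS hcard hpS hSg

end Pool.Agent.MG.WL.CL


end

section

/-!
# Statements for the block `FIN`

A stable curve with functions `x`, `y` with poles of order two and three is a Weierstrass curve.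
-/

open CategoryTheory CategoryTheory.Limits AlgebraicGeometry TensorProduct

namespace Pool.Agent.MG.WL

open Pool.Agent.MG.W Pool.Agent.MG.One Pool.Agent.MG.GLU

/-! ## Local coordinates -/

/-- FLK: on every open subset of `L.V` the coordinate is a nonzerodivisor and it generates the ideal
of the section. -/
def Stmt_FLK : Prop :=
  ∀ {A : Type} [CommRing A] {C : Fam 1 A} (L : LC C) (O : C.X.Opens) (hO : O ≤ L.V),
    (∀ s : Γ(C.X, O), rs C.X hO L.t * s = 0 → s = 0) ∧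
    (∀ s : Γ(C.X, O), rs C.X (inf_le_right : L.U ⊓ O ≤ O) s = 0 → s = 0) ∧
    ∀ (h : ⊤ ≤ (C.σ 0) ⁻¹ᵁ O) (r : Γ(C.X, O)), gm (C.σ 0) O h r = 0 →
      ∃ s, r = rs C.X hO L.t * s

/-- FCP: two coordinates define the same poles. -/
def Stmt_FCP : Prop :=
  ∀ {A : Type} [CommRing A] {C : Fam 1 A} (L L' : LC C) (hU : L'.U ≤ L.U), ∃ e : A, IsUnit e ∧
    ∀ (n : ℕ) (c : A) (X : Γ(C.X, L.U)), L.Pole n c X → L'.Pole n (e ^ n * c) (rs C.X hU X)

/-- FLW: the coordinate `z` of a Weierstrass curve over a field. -/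
def Stmt_FLW : Prop :=
  ∀ {k : Type} [Field k] (a b : k), ∃ (L : LC (Wei (WZ a b)))
    (h : ⊤ ≤ (WX.in1 k a b) ⁻¹ᵁ L.U), L.U = (WX.in1 k a b).opensRange ∧
    ∀ (n : ℕ) (c : k) (X : Γ((Wei (WZ a b)).X, L.U)), L.Pole n c X →
      ∃ v2 : A2 k a b, (zu k a b).val ^ n * g1 k a b (gm (WX.in1 k a b) L.U h X) = g2 k a b v2 ∧
        inf2 k a b v2 = c

/-! ## Geometric fibres -/

/-- The geometric fibre over `s : A → k` with the functions `x = α x₁ + β`,
`y = γ y₁ + δ x₁ + ε`. -/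
structure GF {A : Type} [CommRing A] {C : Fam 1 A} (L : LC C) (x y : Γ(C.X, L.U)) {k : Type}
    [Field k] (s : A →+* k) where
  /-- coefficient -/
  a : k
  /-- coefficient -/
  b : k
  ab : a ≠ 0 ∨ b ≠ 0
  /-- the geometric fibre -/
  e : Arrow s (Wei (WZ a b)) C
  rng : e.f ⁻¹ᵁ L.U = (WX.in1 k a b).opensRange
  le : ⊤ ≤ (WX.in1 k a b ≫ e.f) ⁻¹ᵁ L.U
  /-- coefficient -/
  α : k
  /-- coefficient -/
  β : k
  /-- coefficient -/
  γ : k
  /-- coefficient -/
  δ : k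
  /-- coefficient -/
  ε : k
  hα : α ≠ 0
  hγ : γ ≠ 0
  hx : gm (WX.in1 k a b ≫ e.f) L.U le x = algebraMap k _ α * x1 k a b + algebraMap k _ β
  hy : gm (WX.in1 k a b ≫ e.f) L.U le y = algebraMap k _ γ * y1 k a b +
    algebraMap k _ δ * x1 k a b + algebraMap k _ ε

/-- All geometric fibres are Weierstrass curves. -/
def AllGF {A : Type} [CommRing A] {C : Fam 1 A} (L : LC C) (x y : Γ(C.X, L.U)) : Prop :=
  ∀ (k : Type) [Field k] [IsAlgClosed k] (s : A →+* k), Nonempty (GF L x y s)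

/-- FGF: the geometric fibres. -/
def Stmt_FGF : Prop :=
  ∀ (A : Type) [CommRing A] [Algebra ℂ A] (C : Fam 1 A), IsStable 1 C → ∀ (L : LC C)
    (x y : Γ(C.X, L.U)), L.Pole 2 1 x → L.Pole 3 1 y → AllGF L x y

/-! ## The morphism to the affine line -/

/-- The morphism `x : U → Spec A[X]`. -/
noncomputable def xm {A : Type} [CommRing A] {C : Fam 1 A} (L : LC C) (x : Γ(C.X, L.U)) :
    (L.U : Scheme.{0}) ⟶ Sp (Polynomial A) :=
  L.U.toSpecΓ ≫ spMap (Polynomial.eval₂RingHom (coef C.π L.U) x)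

/-- FPR: `x` is proper if it has a pole. -/
def Stmt_FPR : Prop :=
  ∀ {A : Type} [CommRing A] {C : Fam 1 A}, IsProper C.π → ∀ (L : LC C) (n : ℕ)
    (x : Γ(C.X, L.U)), L.Pole (n + 1) 1 x → IsProper (xm L x)

/-- FQF: `x` is quasi-finite. -/
def Stmt_FQF : Prop :=
  ∀ {A : Type} [CommRing A] {C : Fam 1 A}, IsProper C.π → ∀ (L : LC C) (x y : Γ(C.X, L.U)),
    AllGF L x y → LocallyQuasiFinite (xm L x)

/-- FSP: the functions on `U` are generated by `1` and `y` over `A[x]`. -/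
def Stmt_FSP : Prop :=
  ∀ {A : Type} [CommRing A] {C : Fam 1 A} (L : LC C) (x y : Γ(C.X, L.U)), AllGF L x y →
    IsAffineOpen L.U → (Polynomial.eval₂RingHom (coef C.π L.U) x).Finite →
    ∀ r : Γ(C.X, L.U), ∃ p q : Polynomial A,
      r = p.eval₂ (coef C.π L.U) x + q.eval₂ (coef C.π L.U) x * y

/-! ## The equation -/

/-- FAL: the Weierstrass equation from the orders of the poles: `R1` = functions away from the
section, `R2` = functions near the section, `z` = the coordinate, `ev` = the value at the section. -/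
def Stmt_FAL : Prop :=
  ∀ {A R1 R2 R12 : Type} [CommRing A] [CommRing R1] [CommRing R2] [CommRing R12] (c1 : A →+* R1)
    (c2 : A →+* R2) (j1 : R1 →+* R12) (j2 : R2 →+* R12) (_ : ∀ a, j1 (c1 a) = j2 (c2 a))
    (_ : Function.Injective j2) (z : R2) (_ : IsUnit (j2 z)) (ev : R2 →+* A)
    (_ : ∀ a, ev (c2 a) = a) (_ : ∀ r, ev r = 0 ↔ ∃ s, r = z * s) (_ : IsUnit (6 : A)) (x y : R1)
    (_ : ∃ r, j2 z ^ 2 * j1 x = j2 (1 + z * r)) (_ : ∃ r, j2 z ^ 3 * j1 y = j2 (1 + z * r))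
    (_ : ∀ r : R1, ∃ p q : Polynomial A, r = p.eval₂ c1 x + q.eval₂ c1 x * y),
    ∃ (a b β δ ε : A) (e : (y + c1 δ * x + c1 ε) ^ 2 =
      (x + c1 β) ^ 3 + c1 a * (x + c1 β) + c1 b),
      Function.Bijective (lift1 c1 (x + c1 β) (y + c1 δ * x + c1 ε) e)

/-! ## The chart at infinity -/

/-- FCH: the curve is a Weierstrass curve if the functions on `U` are those of the affine chart of a
Weierstrass curve. -/
def Stmt_FCH : Prop :=
  ∀ {A : Type} [CommRing A] {C : Fam 1 A}, IsProper C.π → ∀ L : LC C, IsAffineOpen L.U →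
    ∀ x y : Γ(C.X, L.U), L.Pole 2 1 x → L.Pole 3 1 y → ∀ (a b : A)
    (e : y ^ 2 = x ^ 3 + coef C.π L.U a * x + coef C.π L.U b),
    Function.Bijective (lift1 (coef C.π L.U) x y e) →
      Nonempty (Arrow (RingHom.id A) (Wei (WZ a b)) C)

end Pool.Agent.MG.WL


end

section

/-!
# FAL: the Weierstrass equation from the orders of the poles, over a ring
-/

namespace Pool.Agent.MG.WL

open Pool.Agent.MG.W

namespace FAL

/-- Ring data: `R1` = functions away from the section, `R2` = functions near the section,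
`z` = a coordinate, `ev` = the value at the section. -/
structure RD (A R1 R2 R12 : Type) [CommRing A] [CommRing R1] [CommRing R2] [CommRing R12] where
  /-- constants -/
  c1 : A →+* R1
  /-- constants -/
  c2 : A →+* R2
  /-- restriction -/
  j1 : R1 →+* R12
  /-- restriction -/
  j2 : R2 →+* R12
  jc : ∀ a, j1 (c1 a) = j2 (c2 a)
  inj2 : Function.Injective j2
  /-- the coordinate -/
  z : R2
  hz : IsUnit (j2 z)
  /-- the value at the section -/
  ev : R2 →+* A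
  evc : ∀ a, ev (c2 a) = a
  evk : ∀ r, ev r = 0 ↔ ∃ s, r = z * s

namespace RD

variable {A R1 R2 R12 : Type} [CommRing A] [CommRing R1] [CommRing R2] [CommRing R12]
  (D : RD A R1 R2 R12)

/-- `r` has a pole of order at most `n`, with leading coefficient `c`. -/
def Ord (n : ℕ) (r : R1) (c : A) : Prop := ∃ s, D.j2 D.z ^ n * D.j1 r = D.j2 s ∧ D.ev s = c

variable {D}

lemma evz : D.ev D.z = 0 := (D.evk D.z).2 ⟨1, (mul_one _).symm⟩

lemma cancel {a b : R12} (h : D.j2 D.z * a = D.j2 D.z * b) : a = b := D.hz.mul_left_cancel h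

lemma Ord.uniq {n : ℕ} {r : R1} {c c' : A} (h : D.Ord n r c) (h' : D.Ord n r c') : c = c' := by
  obtain ⟨s, h1, h2⟩ := h
  obtain ⟨s', h1', h2'⟩ := h'
  rw [← h2, ← h2', D.inj2 (h1.symm.trans h1')]

lemma Ord.add {n : ℕ} {r r' : R1} {c c' : A} (h : D.Ord n r c) (h' : D.Ord n r' c') :
    D.Ord n (r + r') (c + c') := by
  obtain ⟨s, h1, h2⟩ := h
  obtain ⟨s', h1', h2'⟩ := h'
  exact ⟨s + s', by rw [map_add, map_add, mul_add, h1, h1'], by rw [map_add, h2, h2']⟩

lemma Ord.mul {n m : ℕ} {r r' : R1} {c c' : A} (h : D.Ord n r c) (h' : D.Ord m r' c') :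
    D.Ord (n + m) (r * r') (c * c') := by
  obtain ⟨s, h1, h2⟩ := h
  obtain ⟨s', h1', h2'⟩ := h'
  exact ⟨s * s', by rw [map_mul, map_mul, ← h1, ← h1', pow_add]; ring, by rw [map_mul, h2, h2']⟩

lemma ord_const (c : A) : D.Ord 0 (D.c1 c) c :=
  ⟨D.c2 c, by rw [pow_zero, one_mul, D.jc], D.evc c⟩

lemma ord_one : D.Ord 0 1 1 := by
  have := ord_const (D := D) 1
  rwa [map_one] at this

lemma Ord.smul {n : ℕ} {r : R1} {c : A} (h : D.Ord n r c) (d : A) :
    D.Ord n (D.c1 d * r) (d * c) := by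
  have := (ord_const d).mul h
  rwa [zero_add] at this

lemma Ord.neg {n : ℕ} {r : R1} {c : A} (h : D.Ord n r c) : D.Ord n (-r) (-c) := by
  have := h.smul (-1)
  rwa [map_neg, map_one, neg_one_mul, neg_one_mul] at this

lemma Ord.sub {n : ℕ} {r r' : R1} {c c' : A} (h : D.Ord n r c) (h' : D.Ord n r' c') :
    D.Ord n (r - r') (c - c') := by
  have := h.add h'.neg
  rwa [← sub_eq_add_neg, ← sub_eq_add_neg] at this

lemma Ord.pow {n : ℕ} {r : R1} {c : A} (h : D.Ord n r c) (m : ℕ) :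
    D.Ord (n * m) (r ^ m) (c ^ m) := by
  induction m with
  | zero => simpa using ord_one (D := D)
  | succ m ih =>
    rw [pow_succ, pow_succ, Nat.mul_succ]
    exact ih.mul h

lemma Ord.succ {n : ℕ} {r : R1} {c : A} (h : D.Ord n r c) : D.Ord (n + 1) r 0 := by
  obtain ⟨s, h1, h2⟩ := h
  exact ⟨D.z * s, by rw [pow_succ, map_mul, ← h1]; ring, by rw [map_mul, evz, zero_mul]⟩

lemma Ord.mono {n m : ℕ} {r : R1} {c : A} (h : D.Ord n r c) (hnm : n < m) : D.Ord m r 0 := by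
  induction m, hnm using Nat.le_induction with
  | base => exact h.succ
  | succ m _ ih => exact ih.succ

lemma Ord.pred {n : ℕ} {r : R1} (h : D.Ord (n + 1) r 0) : ∃ c, D.Ord n r c := by
  obtain ⟨s, h1, h2⟩ := h
  obtain ⟨s', rfl⟩ := (D.evk s).1 h2
  refine ⟨D.ev s', s', ?_, rfl⟩
  apply cancel (D := D)
  rw [← map_mul, ← h1, pow_succ]
  ring

lemma ord_zero (n : ℕ) : D.Ord n 0 0 := ⟨0, by simp, map_zero _⟩

lemma Ord.cast {n m : ℕ} {r : R1} {c : A} (h : D.Ord n r c) (hn : n = m) : D.Ord m r c := hn ▸ h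

lemma Ord.red {n : ℕ} {r m : R1} {c : A} (h : D.Ord (n + 1) r c) (hm : D.Ord (n + 1) m 1) :
    ∃ c', D.Ord n (r - D.c1 c * m) c' := by
  have := h.sub (hm.smul c)
  rw [mul_one, sub_self] at this
  exact this.pred

lemma ord_sum {n : ℕ} {ι : Type} (s : Finset ι) (f : ι → R1) (h : ∀ i ∈ s, D.Ord n (f i) 0) :
    D.Ord n (∑ i ∈ s, f i) 0 := by
  classical
  induction s using Finset.induction_on with
  | empty => simpa using ord_zero (D := D) n
  | insert a s ha ih =>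
    rw [Finset.sum_insert ha]
    have := (h a (Finset.mem_insert_self _ _)).add (ih fun i hi => h i (Finset.mem_insert_of_mem hi))
    rwa [add_zero] at this

open Polynomial

lemma ord_poly {x : R1} (hx : D.Ord 2 x 1) (p : A[X]) :
    D.Ord (2 * p.natDegree) (p.eval₂ D.c1 x) p.leadingCoeff := by
  rw [Polynomial.eval₂_eq_sum_range, Finset.sum_range_succ]
  have h1 : ∀ i, D.Ord (2 * i) (D.c1 (p.coeff i) * x ^ i) (p.coeff i) := by
    intro i
    have := (hx.pow i).smul (p.coeff i)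
    rwa [one_pow, mul_one] at this
  have := (ord_sum (Finset.range p.natDegree) (fun i => D.c1 (p.coeff i) * x ^ i)
    (fun i hi => (h1 i).mono (by rw [Finset.mem_range] at hi; omega))).add (h1 p.natDegree)
  rwa [zero_add] at this

/-- A function `p(x) + q(x) y` with at most a simple pole is constant. -/
theorem low {x y : R1} (hx : D.Ord 2 x 1) (hy : D.Ord 3 y 1) (p q : A[X]) {c : A}
    (h : D.Ord 1 (p.eval₂ D.c1 x + q.eval₂ D.c1 x * y) c) : q = 0 ∧ p = C (p.coeff 0) := by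
  have h1 := ord_poly hx p
  have h2 := (ord_poly hx q).mul hy
  rw [mul_one] at h2
  have hq : q = 0 := by
    by_contra hq
    have hlq : q.leadingCoeff ≠ 0 := Polynomial.leadingCoeff_ne_zero.2 hq
    rcases lt_or_ge (2 * p.natDegree) (2 * q.natDegree + 3) with hlt | hge
    · have h3 := (h1.mono hlt).add h2
      rw [zero_add] at h3
      exact hlq (h3.uniq (h.mono (by omega)))
    · have h3 := h1.add (h2.mono (show 2 * q.natDegree + 3 < 2 * p.natDegree by omega))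
      rw [add_zero] at h3
      have h4 : p.leadingCoeff = 0 := h3.uniq (h.mono (by omega))
      rw [Polynomial.leadingCoeff_eq_zero] at h4
      rw [h4, Polynomial.natDegree_zero] at hge
      omega
  refine ⟨hq, ?_⟩
  subst hq
  rw [eval₂_zero, zero_mul, add_zero] at h
  apply Polynomial.eq_C_of_natDegree_eq_zero
  by_contra hp
  have h4 : p.leadingCoeff = 0 := h1.uniq (h.mono (by omega))
  rw [Polynomial.leadingCoeff_eq_zero] at h4
  rw [h4, Polynomial.natDegree_zero] at hp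
  exact hp rfl

theorem indep {x y : R1} (hx : D.Ord 2 x 1) (hy : D.Ord 3 y 1) (p q : A[X])
    (h : p.eval₂ D.c1 x + q.eval₂ D.c1 x * y = 0) : p = 0 ∧ q = 0 := by
  obtain ⟨hq, hp⟩ := low hx hy p q (c := 0) (by rw [h]; exact ord_zero 1)
  refine ⟨?_, hq⟩
  subst hq
  rw [eval₂_zero, zero_mul, add_zero, hp, eval₂_C] at h
  have h0 := ord_const (D := D) (p.coeff 0)
  rw [h] at h0
  rw [hp, h0.uniq (ord_zero 0), C_0]

theorem exists_eq0 {x y : R1} (hx : D.Ord 2 x 1) (hy : D.Ord 3 y 1)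
    (hs : ∀ r : R1, ∃ p q : A[X], r = p.eval₂ D.c1 x + q.eval₂ D.c1 x * y) :
    ∃ a1 a2 a3 a4 a6 : A, y ^ 2 = x ^ 3 + D.c1 a1 * (x * y) + D.c1 a2 * x ^ 2 + D.c1 a3 * y +
      D.c1 a4 * x + D.c1 a6 := by
  have h6 : D.Ord (5 + 1) (y ^ 2 - x ^ 3) 0 := by
    have := ((hy.pow 2).cast (show 3 * 2 = 5 + 1 by norm_num)).sub
      ((hx.pow 3).cast (show 2 * 3 = 5 + 1 by norm_num))
    simpa using this
  obtain ⟨c5, h5⟩ := h6.pred
  have m5 : D.Ord (4 + 1) (x * y) 1 := by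
    have := (hx.mul hy).cast (show 2 + 3 = 4 + 1 by norm_num)
    rwa [mul_one] at this
  obtain ⟨c4, h4⟩ := h5.red m5
  have m4 : D.Ord (3 + 1) (x ^ 2) 1 := by
    have := (hx.pow 2).cast (show 2 * 2 = 3 + 1 by norm_num)
    rwa [one_pow] at this
  obtain ⟨c3, h3⟩ := h4.red m4
  obtain ⟨c2, h2⟩ := h3.red hy
  obtain ⟨c1, h1⟩ := h2.red hx
  obtain ⟨p, q, hpq⟩ := hs (y ^ 2 - x ^ 3 - D.c1 c5 * (x * y) - D.c1 c4 * x ^ 2 - D.c1 c3 * y -
    D.c1 c2 * x)
  rw [hpq] at h1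
  obtain ⟨hq, hp⟩ := low hx hy p q h1
  rw [hq, eval₂_zero, zero_mul, add_zero, hp, eval₂_C] at hpq
  refine ⟨c5, c4, c3, c2, p.coeff 0, ?_⟩
  linear_combination hpq

/-- Completing the square and the cube. -/
theorem exists_W (h6 : IsUnit (6 : A)) {x y : R1} (hx : D.Ord 2 x 1) (hy : D.Ord 3 y 1)
    (hs : ∀ r : R1, ∃ p q : A[X], r = p.eval₂ D.c1 x + q.eval₂ D.c1 x * y) :
    ∃ a b β δ ε : A, (y + D.c1 δ * x + D.c1 ε) ^ 2 =
      (x + D.c1 β) ^ 3 + D.c1 a * (x + D.c1 β) + D.c1 b := by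
  obtain ⟨a1, a2, a3, a4, a6, h⟩ := exists_eq0 hx hy hs
  obtain ⟨w, hw⟩ := h6.exists_left_inv
  obtain ⟨i2, two⟩ : ∃ i2 : A, i2 * 2 = 1 := ⟨w * 3, by linear_combination hw⟩
  obtain ⟨i3, three⟩ : ∃ i3 : A, i3 * 3 = 1 := ⟨w * 2, by linear_combination hw⟩
  have e2 : D.c1 i2 * 2 = 1 := by
    have : (2 : R1) = D.c1 2 := (map_ofNat D.c1 2).symm
    rw [this, ← map_mul, two, map_one]
  have e3 : D.c1 i3 * 3 = 1 := by
    have : (3 : R1) = D.c1 3 := (map_ofNat D.c1 3).symm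
    rw [this, ← map_mul, three, map_one]
  let b2 : A := a2 + a1 ^ 2 * i2 ^ 2
  let b4 : A := a4 + a1 * a3 * i2
  let b6 : A := a6 + a3 ^ 2 * i2 ^ 2
  refine ⟨b4 - b2 ^ 2 * i3, b6 - b2 * b4 * i3 + 2 * b2 ^ 3 * i3 ^ 3,
    b2 * i3, -(a1 * i2), -(a3 * i2), ?_⟩
  simp only [b2, b4, b6, map_sub, map_add, map_mul, map_pow, map_neg, map_ofNat]
  generalize D.c1 a1 = A1 at *
  generalize D.c1 a2 = A2 at *
  generalize D.c1 a3 = A3 at *
  generalize D.c1 a4 = A4 at *
  generalize D.c1 a6 = A6 at *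
  generalize D.c1 i2 = h2 at *
  generalize D.c1 i3 = h3 at *
  have k1 : A1 * x * y * (h2 * 2) = A1 * x * y := by rw [e2, mul_one]
  have k2 : A3 * y * (h2 * 2) = A3 * y := by rw [e2, mul_one]
  set B2 := A2 + A1 ^ 2 * h2 ^ 2 with hB2
  set B4 := A4 + A1 * A3 * h2 with hB4
  set B6 := A6 + A3 ^ 2 * h2 ^ 2 with hB6
  have s1 : (y + -(A1 * h2) * x + -(A3 * h2)) ^ 2 = x ^ 3 + B2 * x ^ 2 + B4 * x + B6 := by
    rw [hB2, hB4, hB6]
    linear_combination h - k1 - k2 + (A1 * A3 * h2 * x) * e2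
  rw [s1]
  linear_combination (-B2 * x ^ 2 - B2 ^ 2 * h3 * x - B2 ^ 3 * h3 ^ 2) * e3

lemma ord_x {x : R1} (hx : D.Ord 2 x 1) (β : A) : D.Ord 2 (x + D.c1 β) 1 := by
  have := hx.add ((ord_const (D := D) β).mono (show 0 < 2 by norm_num))
  rwa [add_zero] at this

lemma ord_y {x y : R1} (hx : D.Ord 2 x 1) (hy : D.Ord 3 y 1) (δ ε : A) :
    D.Ord 3 (y + D.c1 δ * x + D.c1 ε) 1 := by
  have h1 := (hx.smul δ).mono (show 2 < 3 by norm_num)
  have h2 := (ord_const (D := D) ε).mono (show 0 < 3 by norm_num)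
  have := (hy.add h1).add h2
  rwa [add_zero, add_zero] at this

/-- The functions on the affine curve. -/
theorem bij {x y : R1} (hx : D.Ord 2 x 1) (hy : D.Ord 3 y 1)
    (hs : ∀ r : R1, ∃ p q : A[X], r = p.eval₂ D.c1 x + q.eval₂ D.c1 x * y)
    (a b β δ ε : A) (e : (y + D.c1 δ * x + D.c1 ε) ^ 2 =
      (x + D.c1 β) ^ 3 + D.c1 a * (x + D.c1 β) + D.c1 b) :
    Function.Bijective
      (lift1 (a := a) (b := b) D.c1 (x + D.c1 β) (y + D.c1 δ * x + D.c1 ε) e) := by
  have hb : ∀ c, lift1 (a := a) (b := b) D.c1 (x + D.c1 β) (y + D.c1 δ * x + D.c1 ε) e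
      (algebraMap A _ c) = D.c1 c := fun c => lift1_b D.c1 _ _ e c
  have hx1 : lift1 (a := a) (b := b) D.c1 (x + D.c1 β) (y + D.c1 δ * x + D.c1 ε) e
      (x1 A a b) = x + D.c1 β := lift1_x D.c1 _ _ e
  have hy1 : lift1 (a := a) (b := b) D.c1 (x + D.c1 β) (y + D.c1 δ * x + D.c1 ε) e
      (y1 A a b) = y + D.c1 δ * x + D.c1 ε := lift1_y D.c1 _ _ e
  generalize lift1 (a := a) (b := b) D.c1 (x + D.c1 β) (y + D.c1 δ * x + D.c1 ε) e = φ at *
  have hev : ∀ (v : A1 A a b) (p : A[X]), φ (aeval v p) = p.eval₂ D.c1 (φ v) := by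
    intro v p
    rw [Polynomial.aeval_def, Polynomial.hom_eval₂]
    congr 1
    exact RingHom.ext fun c => hb c
  constructor
  · rw [injective_iff_map_eq_zero]
    intro v hv0
    obtain ⟨⟨p, q⟩, rfl, -⟩ := (t_WRG A a b).1 v
    rw [map_add, map_mul, hev, hev, hx1, hy1] at hv0
    obtain ⟨rfl, rfl⟩ := indep (ord_x hx β) (ord_y hx hy δ ε) p q hv0
    simp
  · intro r
    obtain ⟨p, q, hpq⟩ := hs r
    have hX : φ (x1 A a b - algebraMap A _ β) = x := by
      rw [map_sub, hb, hx1]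
      ring
    have hY : φ (y1 A a b - algebraMap A _ δ * (x1 A a b - algebraMap A _ β) -
        algebraMap A _ ε) = y := by
      rw [map_sub, map_sub, map_mul, hX, hb, hb, hy1]
      ring
    exact ⟨aeval (x1 A a b - algebraMap A _ β) p + aeval (x1 A a b - algebraMap A _ β) q *
      (y1 A a b - algebraMap A _ δ * (x1 A a b - algebraMap A _ β) - algebraMap A _ ε),
      by rw [map_add, map_mul, hev, hev, hX, hY, hpq]⟩

end RD

end FAL

/-- FAL: the Weierstrass equation from the orders of the poles. -/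
theorem t_FAL : Stmt_FAL := by
  intro A R1 R2 R12 _ _ _ _ c1 c2 j1 j2 jc inj2 z hz ev evc evk h6 x y hx hy hs
  let D : FAL.RD A R1 R2 R12 := ⟨c1, c2, j1, j2, jc, inj2, z, hz, ev, evc, evk⟩
  have one : ∀ r, D.ev (1 + z * r) = 1 := by
    intro r
    rw [map_add, map_one, map_mul, (evk z).2 ⟨1, (mul_one _).symm⟩, zero_mul, add_zero]
  have ox : D.Ord 2 x 1 := by
    obtain ⟨r, hr⟩ := hx
    exact ⟨1 + z * r, hr, one r⟩
  have oy : D.Ord 3 y 1 := by
    obtain ⟨r, hr⟩ := hy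
    exact ⟨1 + z * r, hr, one r⟩
  obtain ⟨a, b, β, δ, ε, e⟩ := FAL.RD.exists_W h6 ox oy hs
  exact ⟨a, b, β, δ, ε, e, FAL.RD.bij ox oy hs a b β δ ε e⟩

end Pool.Agent.MG.WL


end

section

/-!
# FCH: the chart at infinity
-/

open CategoryTheory CategoryTheory.Limits AlgebraicGeometry TensorProduct TopologicalSpace

namespace Pool.Agent.MG.WL

open Pool.Agent.MG.W Pool.Agent.MG.One Pool.Agent.MG.GLU

namespace FCH

variable {A : Type} [CommRing A] {C : Fam 1 A}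

theorem gm_id_rs {X : Scheme.{0}} (i : Sp A ⟶ X) {W W' : X.Opens}
    (hW : W' ≤ W) (h : ⊤ ≤ i ⁻¹ᵁ W) (h' : ⊤ ≤ i ⁻¹ᵁ W') (v : Γ(X, W)) :
    gm i W' h' (rs X hW v) = gm i W h v :=
  gm_rs i (RingHom.id A) i (spMap_id_comp _).symm hW h h' v

theorem gm_sec {W : C.X.Opens} (h : ⊤ ≤ (C.σ 0) ⁻¹ᵁ W) (c : A) :
    gm (C.σ 0) W h (coef C.π W c) = c :=
  gm_coef (C.σ 0) C.π (RingHom.id A) (by rw [C.sec]; exact (Spec.map_id _).symm) W h c

theorem gm_t (L : LC C) : gm (C.σ 0) L.V L.le L.t = 0 :=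
  (L.ker L.t).2 ⟨1, (mul_one _).symm⟩

theorem le_basic {X : Scheme.{0}} (i : Sp A ⟶ X) {W : X.Opens} (h : ⊤ ≤ i ⁻¹ᵁ W) (v : Γ(X, W))
    (hv : IsUnit (gm i W h v)) : ⊤ ≤ i ⁻¹ᵁ (X.basicOpen v) := by
  have h1 : IsUnit ((i.appLE W ⊤ h).hom v) := by
    have h2 : (Scheme.ΓSpecIso (CommRingCat.of A)).inv.hom (gm i W h v) =
        (i.appLE W ⊤ h).hom v := by
      change ((Scheme.ΓSpecIso (CommRingCat.of A)).hom ≫
        (Scheme.ΓSpecIso (CommRingCat.of A)).inv).hom ((i.appLE W ⊤ h).hom v) = _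
      rw [Iso.hom_inv_id]
      rfl
    rw [← h2]
    exact hv.map _
  have h2 := Scheme.basicOpen_appLE i ⊤ W h v
  have h3 := (Sp A).basicOpen_of_isUnit h1
  rw [h2] at h3
  rw [← h3]
  exact inf_le_right

/-- The data near the section. -/
structure CD (L : LC C) (a b : A) where
  x : Γ(C.X, L.U)
  y : Γ(C.X, L.U)
  e : y ^ 2 = x ^ 3 + coef C.π L.U a * x + coef C.π L.U b
  bij : Function.Bijective (lift1 (coef C.π L.U) x y e)
  V : C.X.Opens
  aV : IsAffineOpen V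
  leV : V ≤ L.V
  sV : ⊤ ≤ (C.σ 0) ⁻¹ᵁ V
  zz : Γ(C.X, V)
  tt : Γ(C.X, V)
  rel : tt = 1 + coef C.π V a * zz ^ 4 * tt ^ 2 + coef C.π V b * zz ^ 6 * tt ^ 3
  ez : gm (C.σ 0) V sV zz = 0
  et : gm (C.σ 0) V sV tt = 1
  r1 : rs C.X (inf_le_right : L.U ⊓ V ≤ V) zz ^ 2 * rs C.X inf_le_right tt *
    rs C.X inf_le_left x = 1
  r2 : rs C.X (inf_le_right : L.U ⊓ V ≤ V) zz ^ 3 * rs C.X inf_le_right tt *
    rs C.X inf_le_left y = 1

theorem rs_rs' {X : Scheme.{0}} {U V W : X.Opens} (h : U ≤ V) (h' : V ≤ W) (v : Γ(X, W)) :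
    rs X h (rs X h' v) = rs X (h.trans h') v := by
  change (X.presheaf.map (homOfLE h').op ≫ X.presheaf.map (homOfLE h).op) v = _
  rw [← Functor.map_comp, ← op_comp]
  rfl

theorem alg1 {R : Type} [CommRing R] {T S S' U U' X Y a b : R} (k1 : T ^ 2 * X = S)
    (k2 : T ^ 3 * Y = S') (k3 : S * U = 1) (k4 : S' * U' = 1) (k5 : Y ^ 2 = X ^ 3 + a * X + b) :
    (T * S * U') ^ 2 * (S' ^ 2 * U ^ 3) * X = 1 ∧ (T * S * U') ^ 3 * (S' ^ 2 * U ^ 3) * Y = 1 ∧
      S' ^ 2 * U ^ 3 = 1 + a * (T * S * U') ^ 4 * (S' ^ 2 * U ^ 3) ^ 2 +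
        b * (T * S * U') ^ 6 * (S' ^ 2 * U ^ 3) ^ 3 := by
  have r1 : (T * S * U') ^ 2 * (S' ^ 2 * U ^ 3) * X = 1 := by
    have e1 : (T * S * U') ^ 2 * (S' ^ 2 * U ^ 3) * X = (T ^ 2 * X) * S ^ 2 * U ^ 3 *
      (S' * U') ^ 2 := by ring
    rw [e1, k1, k4]
    have e2 : S * S ^ 2 * U ^ 3 * 1 ^ 2 = (S * U) ^ 3 := by ring
    rw [e2, k3, one_pow]
  have r2 : (T * S * U') ^ 3 * (S' ^ 2 * U ^ 3) * Y = 1 := by
    have e1 : (T * S * U') ^ 3 * (S' ^ 2 * U ^ 3) * Y = (T ^ 3 * Y) * U' ^ 3 * S' ^ 2 *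
      (S * U) ^ 3 := by ring
    rw [e1, k2, k3]
    have e2 : S' * U' ^ 3 * S' ^ 2 * 1 ^ 3 = (S' * U') ^ 3 := by ring
    rw [e2, k4, one_pow]
  refine ⟨r1, r2, ?_⟩
  generalize T * S * U' = Z at *
  generalize S' ^ 2 * U ^ 3 = W at *
  have e1 : W = Y ^ 2 * (Z ^ 6 * W ^ 3) := by
    have : Y ^ 2 * (Z ^ 6 * W ^ 3) = (Z ^ 3 * W * Y) ^ 2 * W := by ring
    rw [this, r2, one_pow, one_mul]
  have e2 : X ^ 3 * (Z ^ 6 * W ^ 3) = 1 := by
    have : X ^ 3 * (Z ^ 6 * W ^ 3) = (Z ^ 2 * W * X) ^ 3 := by ring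
    rw [this, r1, one_pow]
  have e3 : a * X * (Z ^ 6 * W ^ 3) = a * Z ^ 4 * W ^ 2 := by
    have : a * X * (Z ^ 6 * W ^ 3) = (Z ^ 2 * W * X) * (a * Z ^ 4 * W ^ 2) := by ring
    rw [this, r1, one_mul]
  have e4 : W = X ^ 3 * (Z ^ 6 * W ^ 3) + a * X * (Z ^ 6 * W ^ 3) + b * (Z ^ 6 * W ^ 3) := by
    conv_lhs => rw [e1, k5]
    ring
  rw [e2, e3] at e4
  linear_combination e4

theorem exists_CD (hFLK : Stmt_FLK) (L : LC C) {x y : Γ(C.X, L.U)} (hx : L.Pole 2 1 x)
    (hy : L.Pole 3 1 y) {a b : A} (e : y ^ 2 = x ^ 3 + coef C.π L.U a * x + coef C.π L.U b)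
    (bij : Function.Bijective (lift1 (coef C.π L.U) x y e)) : Nonempty (CD L a b) := by
  obtain ⟨r, hr⟩ := hx
  obtain ⟨r', hr'⟩ := hy
  rw [map_one] at hr hr'
  obtain ⟨s, hs⟩ : ∃ s, s = 1 + L.t * r := ⟨_, rfl⟩
  obtain ⟨s', hs'⟩ : ∃ s', s' = 1 + L.t * r' := ⟨_, rfl⟩
  rw [← hs] at hr
  rw [← hs'] at hr'
  have gs : gm (C.σ 0) L.V L.le s = 1 := by
    rw [hs, map_add, map_one, map_mul, gm_t, zero_mul, add_zero]
  have gs' : gm (C.σ 0) L.V L.le s' = 1 := by
    rw [hs', map_add, map_one, map_mul, gm_t, zero_mul, add_zero]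
  obtain ⟨V, hV⟩ : ∃ V, V = C.X.basicOpen (s * s') := ⟨_, rfl⟩
  have leV : V ≤ L.V := hV ▸ C.X.basicOpen_le _
  have aV : IsAffineOpen V := hV ▸ L.aff.basicOpen _
  have sV : ⊤ ≤ (C.σ 0) ⁻¹ᵁ V := by
    rw [hV]
    exact le_basic _ L.le _ (by rw [map_mul, gs, gs', mul_one]; exact isUnit_one)
  have hu : IsUnit (rs C.X leV (s * s')) := by
    subst hV
    exact C.X.toRingedSpace.isUnit_res_basicOpen (s * s')
  rw [map_mul] at hu
  obtain ⟨u, hu1⟩ := (isUnit_of_mul_isUnit_left hu).exists_right_inv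
  obtain ⟨u', hu1'⟩ := (isUnit_of_mul_isUnit_right hu).exists_right_inv
  have gu : gm (C.σ 0) V sV u = 1 := by
    have := congrArg (gm (C.σ 0) V sV) hu1
    rwa [map_mul, map_one, gm_id_rs _ leV L.le, gs, one_mul] at this
  have gu' : gm (C.σ 0) V sV u' = 1 := by
    have := congrArg (gm (C.σ 0) V sV) hu1'
    rwa [map_mul, map_one, gm_id_rs _ leV L.le, gs', one_mul] at this
  obtain ⟨zz, hzz⟩ : ∃ zz, zz = rs C.X leV L.t * rs C.X leV s * u' := ⟨_, rfl⟩
  obtain ⟨tt, htt⟩ : ∃ tt, tt = rs C.X leV s' ^ 2 * u ^ 3 := ⟨_, rfl⟩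
  have ez : gm (C.σ 0) V sV zz = 0 := by
    rw [hzz, map_mul, map_mul, gm_id_rs _ leV L.le, gm_t, zero_mul, zero_mul]
  have et : gm (C.σ 0) V sV tt = 1 := by
    rw [htt, map_mul, map_pow, map_pow, gm_id_rs _ leV L.le, gs', gu, one_pow, one_pow, one_mul]
  -- restriction to `U ∩ V`
  have hle : L.U ⊓ V ≤ L.U ⊓ L.V := inf_le_inf_left _ leV
  have k1 := congrArg (rs C.X hle) hr
  have k2 := congrArg (rs C.X hle) hr'
  have k3 := congrArg (rs C.X (inf_le_right : L.U ⊓ V ≤ V)) hu1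
  have k4 := congrArg (rs C.X (inf_le_right : L.U ⊓ V ≤ V)) hu1'
  have k5 := congrArg (rs C.X (inf_le_left : L.U ⊓ V ≤ L.U)) e
  rw [map_mul, map_pow, rs_rs', rs_rs', rs_rs'] at k1 k2
  rw [map_mul, rs_rs', map_one] at k3 k4
  rw [map_add, map_add, map_mul, map_pow, map_pow, coef_rs, coef_rs] at k5
  obtain ⟨r1, r2, r3⟩ := alg1 k1 k2 k3 k4 k5
  refine ⟨⟨x, y, e, bij, V, aV, leV, sV, zz, tt, ?_, ez, et, ?_, ?_⟩⟩
  · rw [← sub_eq_zero]
    refine (hFLK L V leV).2.1 _ ?_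
    rw [hzz, htt]
    simp only [map_add, map_sub, map_mul, map_pow, map_one, coef_rs, rs_rs']
    rw [sub_eq_zero]
    exact r3
  · rw [hzz, htt]
    simp only [map_mul, map_pow, rs_rs']
    exact r1
  · rw [hzz, htt]
    simp only [map_mul, map_pow, rs_rs']
    exact r2

section maps

variable {L : LC C} {a b : A} (D : CD L a b) (hU : IsAffineOpen L.U)
  (hUV : IsAffineOpen (L.U ⊓ D.V))

/-- Functions away from the section. -/
noncomputable def E1 : Γ(C.X, L.U) ≃+* A1 A a b := (RingEquiv.ofBijective _ D.bij).symm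

lemma E1_lift (v : A1 A a b) : E1 D (lift1 (coef C.π L.U) D.x D.y D.e v) = v :=
  (RingEquiv.ofBijective _ D.bij).symm_apply_apply v

lemma lift_E1 (r : Γ(C.X, L.U)) : lift1 (coef C.π L.U) D.x D.y D.e (E1 D r) = r :=
  (RingEquiv.ofBijective _ D.bij).apply_symm_apply r

/-- The first chart. -/
noncomputable abbrev i1 : Sp (A1 A a b) ⟶ C.X := ww hU (E1 D)

/-- The chart near the section. -/
noncomputable abbrev jV : Sp Γ(C.X, D.V) ⟶ C.X := D.aV.fromSpec

/-- The intersection. -/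
noncomputable abbrev jW : Sp Γ(C.X, L.U ⊓ D.V) ⟶ C.X := hUV.fromSpec

/-- Restriction from the first chart. -/
noncomputable def ρ1 : A1 A a b →+* Γ(C.X, L.U ⊓ D.V) :=
  (rs C.X inf_le_left).comp (lift1 (coef C.π L.U) D.x D.y D.e)

/-- Restriction from the chart near the section. -/
noncomputable def ρ2 : Γ(C.X, D.V) →+* Γ(C.X, L.U ⊓ D.V) := rs C.X inf_le_right

/-- The functions of the chart at infinity. -/
noncomputable def e2 : A2 A a b →+* Γ(C.X, D.V) := lift2 (coef C.π D.V) D.zz D.tt D.rel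

theorem jW_gm (v : Γ(C.X, L.U ⊓ D.V)) (h : ⊤ ≤ (jW D hUV) ⁻¹ᵁ (L.U ⊓ D.V)) :
    gm (A := Γ(C.X, L.U ⊓ D.V)) (jW D hUV) (L.U ⊓ D.V) h v = v := gm_fromSpec _ _ _ _

theorem jW_le : ⊤ ≤ (jW D hUV) ⁻¹ᵁ (L.U ⊓ D.V) := hUV.fromSpec_preimage_self.ge

theorem jW_1 : jW D hUV = spMap (ρ1 D) ≫ i1 D hU := by
  refine ww_eq hU (E1 D) _ ((jW_le D hUV).trans fun _ hx => hx.1) _ ?_
  intro v
  have := gm_rs (jW D hUV) (RingHom.id Γ(C.X, L.U ⊓ D.V)) (jW D hUV) (spMap_id_comp _).symm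
    (W := L.U) (W' := L.U ⊓ D.V) inf_le_left
    ((jW_le D hUV).trans fun _ hx => hx.1) (jW_le D hUV) v
  rw [jW_gm] at this
  refine Eq.trans this.symm ?_
  change _ = rs C.X inf_le_left (lift1 (coef C.π L.U) D.x D.y D.e (E1 D v))
  rw [lift_E1]

theorem jW_2 : jW D hUV = spMap (ρ2 D) ≫ jV D := by
  have h1 := eq_fromSpec (A := Γ(C.X, L.U ⊓ D.V)) (jW D hUV) D.V D.aV
    ((jW_le D hUV).trans fun _ hx => hx.2)
  have h2 : gm (A := Γ(C.X, L.U ⊓ D.V)) (jW D hUV) D.V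
      ((jW_le D hUV).trans fun _ hx => hx.2) = ρ2 D := by
    refine RingHom.ext fun v => ?_
    have := gm_rs (jW D hUV) (RingHom.id Γ(C.X, L.U ⊓ D.V)) (jW D hUV) (spMap_id_comp _).symm
      (W := D.V) (W' := L.U ⊓ D.V) inf_le_right
      ((jW_le D hUV).trans fun _ hx => hx.2) (jW_le D hUV) v
    rw [jW_gm] at this
    exact this.symm
  rw [h2] at h1
  exact h1

theorem cover (z : C.X) : z ∈ L.U ∨ z ∈ D.V := by
  by_cases h : z ∈ L.U
  · exact Or.inl h
  · rw [L.mU, not_not] at h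
    obtain ⟨q, rfl⟩ := h
    exact Or.inr (D.sV (show q ∈ ⊤ by trivial))

include hUV in
/-- The curve is the push out of its two charts. -/
theorem push : ∃ (_ : IsOpenImmersion (spMap (ρ1 D))) (_ : IsOpenImmersion (spMap (ρ2 D))),
    IsPushout (spMap (ρ1 D)) (spMap (ρ2 D)) (i1 D hU) (jV D) := by
  have o1 : IsOpenImmersion (spMap (ρ1 D) ≫ i1 D hU) := by
    rw [← jW_1 D hU hUV]
    infer_instance
  have o2 : IsOpenImmersion (spMap (ρ2 D) ≫ jV D) := by
    rw [← jW_2 D hUV]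
    infer_instance
  have h1 : IsOpenImmersion (spMap (ρ1 D)) := IsOpenImmersion.of_comp _ (i1 D hU)
  have h2 : IsOpenImmersion (spMap (ρ2 D)) := IsOpenImmersion.of_comp _ (jV D)
  refine ⟨h1, h2, glue_push ?_ ?_ ?_⟩
  · rw [← jW_1 D hU hUV, ← jW_2 D hUV]
  · intro z
    rcases cover D z with h | h
    · left
      have h' : z ∈ (i1 D hU).opensRange := by rw [ww_range]; exact h
      exact h'
    · right
      rw [D.aV.range_fromSpec]
      exact h
  · intro p p' hp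
    have m1 : i1 D hU p ∈ L.U := ww_le hU (E1 D) (show p ∈ ⊤ by trivial)
    have m2 : jV D p' ∈ D.V := by
      have : jV D p' ∈ Set.range D.aV.fromSpec := ⟨_, rfl⟩
      rw [D.aV.range_fromSpec] at this
      exact this
    have m3 : i1 D hU p ∈ Set.range hUV.fromSpec := by
      rw [hUV.range_fromSpec]
      exact ⟨m1, hp ▸ m2⟩
    obtain ⟨w, hw⟩ := m3
    refine ⟨w, ?_, ?_⟩
    · apply (i1 D hU).isOpenEmbedding.injective
      rw [← Scheme.Hom.comp_apply, ← jW_1 D hU hUV]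
      exact hw
    · apply (jV D).isOpenEmbedding.injective
      rw [← Scheme.Hom.comp_apply, ← jW_2 D hUV, ← hp]
      exact hw

theorem zz_unit : IsUnit (ρ2 D D.zz) := by
  have h := D.r1
  exact IsUnit.of_mul_eq_one (ρ2 D D.zz * rs C.X inf_le_right D.tt * rs C.X inf_le_left D.x) (by
    rw [← h]
    change rs C.X inf_le_right D.zz * (rs C.X inf_le_right D.zz * _ * _) = _
    ring)

/-- The comparison with the ring of the intersection. -/
noncomputable def ψ : A12 A a b →+* Γ(C.X, L.U ⊓ D.V) :=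
  IsLocalization.Away.lift (z2 A a b) (g := (ρ2 D).comp (e2 D)) (by
    rw [RingHom.comp_apply, e2, lift2_z]
    exact zz_unit D)

theorem ψ_2 (v : A2 A a b) : ψ D (g2 A a b v) = ρ2 D (e2 D v) :=
  IsLocalization.Away.lift_eq _ _ _

theorem ψ_zu : ψ D (zu A a b).val = rs C.X inf_le_right D.zz := by
  rw [zu_val, ψ_2, e2, lift2_z]
  rfl

theorem ψ_tu : ψ D (tu A a b).val = rs C.X inf_le_right D.tt := by
  rw [tu_val, ψ_2, e2, lift2_t]
  rfl

theorem ψ_1 (v : A1 A a b) : ψ D (g1 A a b v) = ρ1 D v := by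
  have h : (ψ D).comp (g1 A a b) = ρ1 D := by
    have key : ∀ (w : (A12 A a b)ˣ) (z X : Γ(C.X, L.U ⊓ D.V)), ψ D w.val = z → z * X = 1 →
        ψ D (w⁻¹ : (A12 A a b)ˣ).val = X := by
      intro w z X h1 h2
      have h3 : ψ D (w⁻¹ : (A12 A a b)ˣ).val * z = 1 := by
        rw [← h1, ← map_mul, Units.inv_mul, map_one]
      calc ψ D (w⁻¹ : (A12 A a b)ˣ).val = ψ D (w⁻¹ : (A12 A a b)ˣ).val * (z * X) := by
            rw [h2, mul_one]
        _ = (ψ D (w⁻¹ : (A12 A a b)ˣ).val * z) * X := by ring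
        _ = X := by rw [h3, one_mul]
    refine hom1_ext ?_ ?_ ?_
    · intro c
      rw [RingHom.comp_apply, g1_b, ρ1, RingHom.comp_apply, lift1_b, coef_rs]
      have h1 : algebraMap A (A12 A a b) c = g2 A a b (algebraMap A _ c) := rfl
      rw [h1, ψ_2, e2, lift2_b, ρ2, coef_rs]
    · rw [RingHom.comp_apply, g1_x, ρ1, RingHom.comp_apply, lift1_x]
      have h1 : (zu A a b)⁻¹ ^ 2 * (tu A a b)⁻¹ = ((zu A a b) ^ 2 * tu A a b)⁻¹ := by
        rw [mul_inv, inv_pow]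
      rw [h1]
      refine key _ _ _ ?_ D.r1
      push_cast
      rw [map_mul, map_pow, ψ_zu, ψ_tu]
    · rw [RingHom.comp_apply, g1_y, ρ1, RingHom.comp_apply, lift1_y]
      have h1 : (zu A a b)⁻¹ ^ 3 * (tu A a b)⁻¹ = ((zu A a b) ^ 3 * tu A a b)⁻¹ := by
        rw [mul_inv, inv_pow]
      rw [h1]
      refine key _ _ _ ?_ D.r2
      push_cast
      rw [map_mul, map_pow, ψ_zu, ψ_tu]
  exact congrArg (fun f => f v) h

theorem compat : spMap (ρ1 D) ≫ WX.in1 A a b = spMap (ρ2 D) ≫ spMap (e2 D) ≫ WX.in2 A a b := by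
  have h1 : ρ1 D = (ψ D).comp (g1 A a b) := RingHom.ext fun v => (ψ_1 D v).symm
  have h2 : (ρ2 D).comp (e2 D) = (ψ D).comp (g2 A a b) := RingHom.ext fun v => (ψ_2 D v).symm
  have h3 := pushout.condition (f := spMap (g1 A a b)) (g := spMap (g2 A a b))
  rw [← Category.assoc, ← PBS.spMap_comp, h2, h1, PBS.spMap_comp, PBS.spMap_comp, Category.assoc,
    Category.assoc]
  exact congrArg (fun f => spMap (ψ D) ≫ f) h3

theorem i1_π : i1 D hU ≫ C.π = spMap (algebraMap A (A1 A a b)) := by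
  unfold i1 ww
  rw [Category.assoc, NOD.fromSpec_coef, ← PBS.spMap_comp]
  refine congrArg (fun f => spMap f) (RingHom.ext fun c => ?_)
  change E1 D (coef C.π L.U c) = _
  rw [← E1_lift D (algebraMap A _ c), lift1_b]

theorem jV_π : jV D ≫ C.π = spMap (coef C.π D.V) := NOD.fromSpec_coef _ _

theorem gm_e2 (v : A2 A a b) : gm (C.σ 0) D.V D.sV (e2 D v) = inf2 A a b v := by
  have h : (gm (C.σ 0) D.V D.sV).comp (e2 D) = inf2 A a b := by
    refine hom2_ext ?_ ?_ ?_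
    · intro c
      rw [RingHom.comp_apply, e2, lift2_b, gm_sec, inf2, lift2_b]
      rfl
    · rw [RingHom.comp_apply, e2, lift2_z, D.ez, inf2, lift2_z]
    · rw [RingHom.comp_apply, e2, lift2_t, D.et, inf2, lift2_t]
  exact congrArg (fun f => f v) h

/-- The morphism to the Weierstrass curve. -/
structure Mor where
  f : C.X ⟶ WX A a b
  f1 : i1 D hU ≫ f = WX.in1 A a b
  f2 : jV D ≫ f = spMap (e2 D) ≫ WX.in2 A a b
  fπ : f ≫ WX.pr A a b = C.π
  fσ : C.σ 0 ≫ f = spMap (inf2 A a b) ≫ WX.in2 A a b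

include hUV in
theorem exists_mor : Nonempty (Mor D hU) := by
  obtain ⟨_, _, hP⟩ := push D hU hUV
  obtain ⟨f, f1, f2⟩ : ∃ f : C.X ⟶ WX A a b, i1 D hU ≫ f = WX.in1 A a b ∧
      jV D ≫ f = spMap (e2 D) ≫ WX.in2 A a b :=
    ⟨hP.desc _ _ (compat D), hP.inl_desc _ _ _, hP.inr_desc _ _ _⟩
  refine ⟨⟨f, f1, f2, ?_, ?_⟩⟩
  · apply hP.hom_ext
    · rw [← Category.assoc, f1, WX.in1_pr, i1_π]
    · rw [← Category.assoc, f2, Category.assoc, WX.in2_pr, jV_π, ← PBS.spMap_comp]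
      refine congrArg (fun f => spMap f) (RingHom.ext fun c => ?_)
      rw [RingHom.comp_apply, e2, lift2_b]
  · have h1 := eq_fromSpec (C.σ 0) D.V D.aV D.sV
    rw [h1, Category.assoc]
    refine (congrArg (fun g => spMap (gm (C.σ 0) D.V D.sV) ≫ g) f2).trans ?_
    rw [← Category.assoc, ← PBS.spMap_comp]
    refine congrArg (fun g => spMap g ≫ WX.in2 A a b) (RingHom.ext fun v => ?_)
    exact gm_e2 D v

end maps

section iso

variable {L : LC C} {a b : A} {D : CD L a b} {hU : IsAffineOpen L.U} (M : Mor D hU)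

/-- The image of the section at infinity does not meet the affine chart. -/
theorem inf_notin (q : Sp A) : (spMap (inf2 A a b) ≫ WX.in2 A a b) q ∉
    Set.range (WX.in1 A a b) := by
  rintro ⟨p, hp⟩
  rw [Scheme.Hom.comp_apply] at hp
  obtain ⟨w, -, hw⟩ := glue2_eq (spMap (g1 A a b)) (spMap (g2 A a b)) p _ hp
  have h1 := (WBC.range_g2 A a b _).1 ⟨w, hw⟩
  apply h1
  change inf2 A a b (z2 A a b) ∈ q.asIdeal
  rw [inf2, lift2_z]
  exact zero_mem _

theorem mem_U_iff (z : C.X) : M.f z ∈ Set.range (WX.in1 A a b) ↔ z ∈ L.U := by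
  constructor
  · intro h
    by_contra hz
    rw [L.mU, not_not] at hz
    obtain ⟨q, rfl⟩ := hz
    rw [← Scheme.Hom.comp_apply, M.fσ] at h
    exact inf_notin q h
  · intro h
    have h' : z ∈ (i1 D hU).opensRange := by rw [ww_range]; exact h
    obtain ⟨p, rfl⟩ := h'
    refine ⟨p, ?_⟩
    rw [← Scheme.Hom.comp_apply, M.f1]

theorem f_injective : Function.Injective M.f := by
  intro z z' h
  by_cases hz : z ∈ L.U
  · have hz' : z' ∈ L.U := by rw [← mem_U_iff M, ← h, mem_U_iff M]; exact hz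
    have h1 : z ∈ (i1 D hU).opensRange := by rw [ww_range]; exact hz
    have h2 : z' ∈ (i1 D hU).opensRange := by rw [ww_range]; exact hz'
    obtain ⟨p, rfl⟩ := h1
    obtain ⟨p', rfl⟩ := h2
    rw [← Scheme.Hom.comp_apply, ← Scheme.Hom.comp_apply, M.f1] at h
    rw [(WX.in1 A a b).isOpenEmbedding.injective h]
  · have hz' : z' ∉ L.U := by rw [← mem_U_iff M, ← h, mem_U_iff M]; exact hz
    rw [L.mU, not_not] at hz hz'
    obtain ⟨q, rfl⟩ := hz
    obtain ⟨q', rfl⟩ := hz'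
    have h1 := congrArg (WX.pr A a b) h
    have h3 : ∀ q : Sp A, WX.pr A a b (M.f (C.σ 0 q)) = q := by
      intro q
      rw [← Scheme.Hom.comp_apply, M.fπ, ← Scheme.Hom.comp_apply, C.sec]
      rfl
    rw [h3, h3] at h1
    rw [h1]

theorem f_finite (hC : IsProper C.π) : IsFinite M.f := by
  have h1 : IsProper (M.f ≫ WX.pr A a b) := by
    rw [M.fπ]
    exact hC
  have h2 : IsProper (WX.pr A a b) := (t_WPR A a b).1
  have h3 : IsProper M.f := IsProper.of_comp M.f (WX.pr A a b)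
  have h4 : LocallyQuasiFinite M.f := LocallyQuasiFinite.of_injective (f_injective M)
  exact IsFinite.of_isProper_of_locallyQuasiFinite M.f

/-- The two charts of the Weierstrass curve. -/
noncomputable abbrev R1 (A : Type) [CommRing A] (a b : A) : (WX A a b).Opens :=
  (WX.in1 A a b).opensRange

/-- The two charts of the Weierstrass curve. -/
noncomputable abbrev R2 (A : Type) [CommRing A] (a b : A) : (WX A a b).Opens :=
  (WX.in2 A a b).opensRange

theorem pre1 : M.f ⁻¹ᵁ (R1 A a b) = L.U := by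
  ext z
  exact mem_U_iff M z

theorem le1 : ⊤ ≤ (WX.in1 A a b) ⁻¹ᵁ (R1 A a b) := fun p _ => ⟨p, rfl⟩

theorem le2 : ⊤ ≤ (WX.in2 A a b) ⁻¹ᵁ (R2 A a b) := fun p _ => ⟨p, rfl⟩

theorem i1_le : ⊤ ≤ (i1 D hU) ⁻¹ᵁ (M.f ⁻¹ᵁ (R1 A a b)) := by
  rw [pre1]
  exact ww_le hU (E1 D)

theorem bij1 : Function.Bijective (M.f.app (R1 A a b)).hom := by
  have hr : (i1 D hU).opensRange = M.f ⁻¹ᵁ (R1 A a b) := by rw [pre1, ww_range]
  have h1 := gm_bij (i1 D hU) (M.f ⁻¹ᵁ (R1 A a b)) (i1_le M) hr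
  have h2 := gm_bij (WX.in1 A a b) (R1 A a b) le1 rfl
  have h3 : ∀ v, gm (i1 D hU) (M.f ⁻¹ᵁ (R1 A a b)) (i1_le M) ((M.f.app (R1 A a b)).hom v) =
      gm (WX.in1 A a b) (R1 A a b) le1 v := by
    intro v
    have := gm_nat M.f (WX.in1 A a b) (i1 D hU) (RingHom.id _)
      (by rw [M.f1]; exact (spMap_id_comp _).symm) (R1 A a b) (M.f ⁻¹ᵁ (R1 A a b)) le1 (i1_le M)
      le_rfl v
    rw [Scheme.Hom.appLE_eq_app] at this
    exact this
  have h4 : Function.Bijective ((gm (i1 D hU) (M.f ⁻¹ᵁ (R1 A a b)) (i1_le M)) ∘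
      (M.f.app (R1 A a b)).hom) := by
    have : (gm (i1 D hU) (M.f ⁻¹ᵁ (R1 A a b)) (i1_le M)) ∘ (M.f.app (R1 A a b)).hom =
        gm (WX.in1 A a b) (R1 A a b) le1 := funext h3
    rw [this]
    exact h2
  exact (Function.Bijective.of_comp_iff' h1 _).1 h4

/-- The preimage of the chart at infinity. -/
noncomputable abbrev N : C.X.Opens := M.f ⁻¹ᵁ (R2 A a b)

theorem V_le : D.V ≤ N M := by
  intro z hz
  have h : z ∈ Set.range (jV D) := by
    rw [D.aV.range_fromSpec]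
    exact hz
  obtain ⟨p, rfl⟩ := h
  change M.f (jV D p) ∈ R2 A a b
  rw [← Scheme.Hom.comp_apply, M.f2, Scheme.Hom.comp_apply]
  exact ⟨_, rfl⟩

theorem sN : ⊤ ≤ (C.σ 0) ⁻¹ᵁ (N M) := D.sV.trans fun _ h => V_le M h

/-- The intersection of the charts. -/
noncomputable abbrev k12 (_ : Mor D hU) : Sp (A12 A a b) ⟶ C.X :=
  spMap (g1 A a b) ≫ i1 D hU

theorem k12_f : k12 M ≫ M.f = spMap (g2 A a b) ≫ WX.in2 A a b := by
  rw [Category.assoc, M.f1]
  exact pushout.condition (f := spMap (g1 A a b)) (g := spMap (g2 A a b))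

theorem k12_range : (k12 M).opensRange = L.U ⊓ N M := by
  ext z
  constructor
  · rintro ⟨p, rfl⟩
    refine ⟨?_, ?_⟩
    · change (k12 M) p ∈ L.U
      rw [Scheme.Hom.comp_apply]
      exact ww_le hU (E1 D) (show _ ∈ ⊤ by trivial)
    · change M.f (k12 M p) ∈ R2 A a b
      rw [← Scheme.Hom.comp_apply, k12_f, Scheme.Hom.comp_apply]
      exact ⟨_, rfl⟩
  · rintro ⟨h1, h2⟩
    have h1' : z ∈ (i1 D hU).opensRange := by rw [ww_range]; exact h1
    obtain ⟨p, rfl⟩ := h1'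
    have h3 : M.f (i1 D hU p) ∈ R2 A a b := h2
    rw [← Scheme.Hom.comp_apply, M.f1] at h3
    obtain ⟨p', hp'⟩ := h3
    obtain ⟨w, hw, -⟩ := glue2_eq (spMap (g1 A a b)) (spMap (g2 A a b)) p p' hp'.symm
    refine ⟨w, ?_⟩
    rw [Scheme.Hom.comp_apply, hw]

theorem k12_le : ⊤ ≤ (k12 M) ⁻¹ᵁ (L.U ⊓ N M) := by
  intro p _
  have : k12 M p ∈ (k12 M).opensRange := ⟨p, rfl⟩
  rw [k12_range] at this
  exact this

/-- The functions on the preimage of the chart at infinity. -/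
noncomputable def θ : Γ(WX A a b, R2 A a b) →+* Γ(C.X, N M) := (M.f.app (R2 A a b)).hom

theorem θ_12 (v : Γ(WX A a b, R2 A a b)) :
    gm (k12 M) (L.U ⊓ N M) (k12_le M) (rs C.X inf_le_right (θ M v)) =
      g2 A a b (gm (WX.in2 A a b) (R2 A a b) le2 v) := by
  have hle : ⊤ ≤ (k12 M) ⁻¹ᵁ (N M) := (k12_le M).trans fun _ h => h.2
  rw [gm_id_rs _ _ hle]
  have := gm_nat M.f (WX.in2 A a b) (k12 M) (g2 A a b) (k12_f M) (R2 A a b) (N M) le2 hle le_rfl v
  rw [Scheme.Hom.appLE_eq_app] at this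
  exact this

theorem θ_σ (v : Γ(WX A a b, R2 A a b)) :
    gm (C.σ 0) (N M) (sN M) (θ M v) = inf2 A a b (gm (WX.in2 A a b) (R2 A a b) le2 v) := by
  have := gm_nat M.f (WX.in2 A a b) (C.σ 0) (inf2 A a b) M.fσ (R2 A a b) (N M) le2 (sN M)
    le_rfl v
  rw [Scheme.Hom.appLE_eq_app] at this
  exact this

theorem res_inj (hFLK : Stmt_FLK) (r : Γ(C.X, N M))
    (h : rs C.X (inf_le_right : L.U ⊓ N M ≤ N M) r = 0) : r = 0 := by
  have h1 : rs C.X (V_le M) r = 0 := by
    apply (hFLK L D.V D.leV).2.1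
    rw [rs_rs']
    have h2 := congrArg (rs C.X (inf_le_inf_left L.U (V_le M) : L.U ⊓ D.V ≤ L.U ⊓ N M)) h
    rw [rs_rs', map_zero] at h2
    exact h2
  apply C.X.sheaf.eq_of_locally_eq₂ (homOfLE (inf_le_right : L.U ⊓ N M ≤ N M)) (homOfLE (V_le M))
  · intro z hz
    rcases cover D z with h' | h'
    · exact Or.inl ⟨h', hz⟩
    · exact Or.inr h'
  · exact h.trans (map_zero (rs C.X (inf_le_right : L.U ⊓ N M ≤ N M))).symm
  · exact h1.trans (map_zero (rs C.X (V_le M))).symm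

theorem bij2 (hFLK : Stmt_FLK) : Function.Bijective (θ M) := by
  have hg2 : Function.Bijective (gm (WX.in2 A a b) (R2 A a b) le2) :=
    gm_bij (WX.in2 A a b) (R2 A a b) le2 rfl
  have hg12 : Function.Bijective (gm (k12 M) (L.U ⊓ N M) (k12_le M)) :=
    gm_bij (k12 M) (L.U ⊓ N M) (k12_le M) (k12_range M)
  obtain ⟨-, w2, w3, -⟩ := t_WRG A a b
  constructor
  · rw [injective_iff_map_eq_zero]
    intro v hv
    have h := θ_12 M v
    rw [hv, map_zero, map_zero] at h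
    exact (map_eq_zero_iff _ hg2.1).1 ((map_eq_zero_iff _ w3).1 h.symm)
  · obtain ⟨zW, hzW⟩ := hg2.2 (z2 A a b)
    have nz : ∀ r, θ M zW * r = 0 → r = 0 := by
      intro r hr
      apply res_inj M hFLK
      apply (map_eq_zero_iff _ hg12.1).1
      have h := congrArg (fun r => gm (k12 M) (L.U ⊓ N M) (k12_le M) (rs C.X inf_le_right r)) hr
      simp only [map_mul, map_zero] at h
      rw [θ_12, hzW] at h
      exact ((zu A a b).isUnit.mul_right_eq_zero).1 h
    have key : ∀ (n : ℕ) (h : Γ(C.X, N M)) (s : Γ(WX A a b, R2 A a b)),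
        θ M zW ^ n * h = θ M s → ∃ v, θ M v = h := by
      intro n
      induction n with
      | zero =>
        intro h s hs
        exact ⟨s, by rw [← hs, pow_zero, one_mul]⟩
      | succ n ih =>
        intro h s hs
        have h1 := congrArg (gm (C.σ 0) (N M) (sN M)) hs
        rw [map_mul, map_pow, θ_σ, θ_σ, hzW] at h1
        have h2 : inf2 A a b (z2 A a b) = 0 := by rw [inf2, lift2_z]
        rw [h2, pow_succ, mul_zero, zero_mul] at h1
        have h3 := w2 (gm (WX.in2 A a b) (R2 A a b) le2 s)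
        rw [← h1, map_zero, sub_zero, Ideal.mem_span_singleton] at h3
        obtain ⟨c, hc⟩ := h3
        obtain ⟨s', rfl⟩ := hg2.2 c
        have h4 : s = zW * s' := by
          apply hg2.1
          rw [map_mul, hzW, hc]
        apply ih h s'
        rw [← sub_eq_zero]
        apply nz
        have h5 : θ M s = θ M zW * θ M s' := by rw [h4, map_mul]
        rw [h5] at hs
        linear_combination hs
    intro h
    obtain ⟨⟨s, ⟨_, n, rfl⟩⟩, hs⟩ := IsLocalization.surj (Submonoid.powers (z2 A a b))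
      (gm (k12 M) (L.U ⊓ N M) (k12_le M) (rs C.X inf_le_right h))
    obtain ⟨sW, rfl⟩ := hg2.2 s
    apply key n h sW
    rw [← sub_eq_zero]
    apply res_inj M hFLK
    apply (map_eq_zero_iff _ hg12.1).1
    rw [map_sub, map_sub, map_mul, map_mul, map_pow, map_pow, θ_12, θ_12, hzW, sub_eq_zero, mul_comm]
    have hs' : _ * g2 A a b (z2 A a b ^ n) = g2 A a b _ := hs
    rw [← hs', map_pow]

theorem isIso_of_affine {X Y : Scheme.{0}} (f : X ⟶ Y) [IsAffine X] [IsAffine Y]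
    (h : IsIso f.appTop) : IsIso f :=
  (MorphismProperty.arrow_mk_iso_iff (MorphismProperty.isomorphisms _)
    (arrowIsoSpecΓOfIsAffine f)).mpr (inferInstanceAs (IsIso (Spec.map (f.appTop))))

theorem f_iso (hC : IsProper C.π) (hFLK : Stmt_FLK) : IsIso M.f := by
  have hf := f_finite M hC
  have haff : ∀ U : (WX A a b).Opens, IsAffineOpen U → Function.Bijective (M.f.app U).hom →
      IsIso (M.f ∣_ U) := by
    intro U hU' hb
    have a1 : IsAffine (M.f ⁻¹ᵁ U).toScheme := hU'.preimage M.f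
    have a2 : IsAffine U.toScheme := hU'
    have h1 : IsIso (M.f.app U) := (ConcreteCategory.isIso_iff_bijective (M.f.app U)).2 hb
    have h2 : IsIso (M.f.app (U.ι ''ᵁ ⊤)) := by
      rw [Scheme.Opens.ι_image_top]
      exact h1
    have h3 := morphismRestrict_app M.f U ⊤
    apply isIso_of_affine
    change IsIso ((M.f ∣_ U).app ⊤)
    rw [h3]
    exact IsIso.comp_isIso' h2 (Functor.map_isIso _ _)
  refine IsZariskiLocalAtTarget.of_iSup_eq_top (P := MorphismProperty.isomorphisms Scheme)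
    (fun b' : Bool => if b' then R1 A a b else R2 A a b) ?_ ?_
  · rw [iSup_bool_eq]
    exact glue2_range _ _
  · rintro (_ | _)
    · exact haff _ (isAffineOpen_opensRange _) (bij2 M hFLK)
    · exact haff _ (isAffineOpen_opensRange _) (bij1 M)

end iso

end FCH

theorem FCH.arrow_of {A : Type} [CommRing A] {C : Fam 1 A} {a b : A} (f : C.X ⟶ WX A a b)
    (hiso : IsIso f) (fπ : f ≫ WX.pr A a b = C.π)
    (fσ : C.σ 0 ≫ f = spMap (inf2 A a b) ≫ WX.in2 A a b) :
    Nonempty (Arrow (RingHom.id A) (Wei (WZ a b)) C) := by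
  have hid : spMap (RingHom.id A) = 𝟙 _ := Spec.map_id _
  have hiso' : IsIso (spMap (RingHom.id A)) := by
    rw [hid]
    infer_instance
  have hw : inv f ≫ C.π = WX.pr A a b ≫ spMap (RingHom.id A) := by
    rw [hid, Category.comp_id, IsIso.inv_comp_eq]
    exact fπ.symm
  have hc : IsPullback (inv f) (WX.pr A a b) C.π (spMap (RingHom.id A)) :=
    IsPullback.of_horiz_isIso ⟨hw⟩
  have hs : (spMap (inf2 A a b) ≫ WX.in2 A a b) ≫ inv f = spMap (RingHom.id A) ≫ C.σ 0 := by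
    rw [hid, Category.id_comp, IsIso.comp_inv_eq]
    exact fσ.symm
  obtain ⟨g, hg⟩ : ∃ g : WX A a b ⟶ C.X, g = inv f := ⟨_, rfl⟩
  rw [← hg] at hc hs
  refine ⟨⟨g, hc, fun i => ?_⟩⟩
  have hi : i = 0 := Fin.fin_one_eq_zero i
  subst hi
  exact hs

theorem t_FCH (hFLK : Stmt_FLK) : Stmt_FCH := by
  intro A _ C hC L hU x y hx hy a b e bij
  obtain ⟨D⟩ := FCH.exists_CD hFLK L hx hy e bij
  have hUV : IsAffineOpen (L.U ⊓ D.V) := inf_affine hC hU D.aV
  obtain ⟨M⟩ := FCH.exists_mor D hU hUV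
  exact FCH.arrow_of M.f (FCH.f_iso M hC hFLK) M.fπ M.fσ

end Pool.Agent.MG.WL


end

section

/-!
# Module FCP: two coordinates at the section define the same pole orders
-/

open CategoryTheory CategoryTheory.Limits AlgebraicGeometry TensorProduct

namespace Pool.Agent.MG.WL

open Pool.Agent.MG.W Pool.Agent.MG.One Pool.Agent.MG.GLU

namespace FCP

section glue

variable {X : Scheme.{0}}

theorem rs_rs {U V W : X.Opens} (h : U ≤ V) (h' : V ≤ W) (a : Γ(X, W)) :
    rs X h (rs X h' a) = rs X (h.trans h') a := by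
  change (X.presheaf.map (homOfLE h').op ≫ X.presheaf.map (homOfLE h).op) a = _
  rw [← Functor.map_comp, ← op_comp]
  rfl

/-- Gluing of two functions. -/
theorem glue {U V W I : X.Opens} (h1 : U ≤ W) (h2 : V ≤ W) (hc : W ≤ U ⊔ V)
    (i1 : I ≤ U) (i2 : I ≤ V) (hI : U ⊓ V ≤ I)
    (a : Γ(X, U)) (b : Γ(X, V)) (hab : rs X i1 a = rs X i2 b) :
    ∃ c : Γ(X, W), rs X h1 c = a ∧ rs X h2 c = b := by
  have hle : ∀ i : Bool, (Bool.rec V U i : X.Opens) ≤ W := by
    intro i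
    cases i
    · exact h2
    · exact h1
  have key : ∀ (Z : X.Opens) (z1 : Z ≤ U) (z2 : Z ≤ V), rs X z1 a = rs X z2 b := by
    intro Z z1 z2
    have hZ : Z ≤ I := (le_inf z1 z2).trans hI
    have e1 : rs X z1 a = rs X hZ (rs X i1 a) := (rs_rs _ _ _).symm
    have e2 : rs X z2 b = rs X hZ (rs X i2 b) := (rs_rs _ _ _).symm
    rw [e1, e2, hab]
  obtain ⟨c, hc1, -⟩ := X.sheaf.existsUnique_gluing' (fun i : Bool => (Bool.rec V U i : X.Opens)) W
    (fun i => homOfLE (hle i))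
    (by
      refine hc.trans (sup_le ?_ ?_)
      · exact le_iSup (fun i : Bool => (Bool.rec V U i : X.Opens)) true
      · exact le_iSup (fun i : Bool => (Bool.rec V U i : X.Opens)) false)
    (fun i => match i with
      | true => a
      | false => b)
    (by
      intro i j
      rcases i with _ | _ <;> rcases j with _ | _
      · rfl
      · exact (key _ _ _).symm
      · exact key _ _ _
      · rfl)
  exact ⟨c, hc1 true, hc1 false⟩

end glue

section

variable {A : Type} [CommRing A] {C : Fam 1 A}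

/-- The section as a point of the spectrum, evaluation of constants. -/
theorem gm_const (W : C.X.Opens) (h : ⊤ ≤ (C.σ 0) ⁻¹ᵁ W) (a : A) :
    gm (C.σ 0) W h (coef C.π W a) = a := by
  have h1 : C.σ 0 ≫ C.π = spMap (RingHom.id A) := by
    rw [C.sec]
    exact (Spec.map_id (CommRingCat.of A)).symm
  rw [gm_coef (C.σ 0) C.π (RingHom.id A) h1 W h a]
  rfl

theorem gm_res {W W' : C.X.Opens} (hW : W' ≤ W) (h : ⊤ ≤ (C.σ 0) ⁻¹ᵁ W)
    (h' : ⊤ ≤ (C.σ 0) ⁻¹ᵁ W') (v : Γ(C.X, W)) :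
    gm (C.σ 0) W' h' (rs C.X hW v) = gm (C.σ 0) W h v := by
  have h1 : C.σ 0 = spMap (RingHom.id A) ≫ C.σ 0 := by
    have : spMap (RingHom.id A) = 𝟙 (Sp A) := Spec.map_id (CommRingCat.of A)
    rw [this, Category.id_comp]
  rw [gm_rs (C.σ 0) (RingHom.id A) (C.σ 0) h1 hW h h' v]
  rfl

theorem gm_t (L : LC C) : gm (C.σ 0) L.V L.le L.t = 0 :=
  (L.ker L.t).2 ⟨1, (mul_one _).symm⟩

theorem sec_inf (L L' : LC C) : ⊤ ≤ (C.σ 0) ⁻¹ᵁ (L.V ⊓ L'.V) :=
  fun x hx => ⟨L.le hx, L'.le hx⟩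

theorem units (hFLK : Stmt_FLK) (L L' : LC C) : ∃ u w : Γ(C.X, L.V ⊓ L'.V), u * w = 1 ∧
    rs C.X (inf_le_right : L.V ⊓ L'.V ≤ L'.V) L'.t =
      rs C.X (inf_le_left : L.V ⊓ L'.V ≤ L.V) L.t * w := by
  obtain ⟨h1, -, h3⟩ := hFLK L (L.V ⊓ L'.V) inf_le_left
  obtain ⟨-, -, h6⟩ := hFLK L' (L.V ⊓ L'.V) inf_le_right
  obtain ⟨w, hw⟩ := h3 (sec_inf L L') (rs C.X inf_le_right L'.t) (by
    rw [gm_res inf_le_right L'.le, gm_t])
  obtain ⟨u, hu⟩ := h6 (sec_inf L L') (rs C.X inf_le_left L.t) (by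
    rw [gm_res inf_le_left L.le, gm_t])
  refine ⟨u, w, ?_, hw⟩
  have h := h1 (u * w - 1) (by
    have : rs C.X (inf_le_left : L.V ⊓ L'.V ≤ L.V) L.t * (u * w - 1) =
        (rs C.X (inf_le_left : L.V ⊓ L'.V ≤ L.V) L.t * w) * u -
          rs C.X (inf_le_left : L.V ⊓ L'.V ≤ L.V) L.t := by ring
    rw [this, ← hw, ← hu, sub_self])
  exact sub_eq_zero.1 h

theorem main (L L' : LC C) (hU : L'.U ≤ L.U) (u w : Γ(C.X, L.V ⊓ L'.V))
    (hw : rs C.X (inf_le_right : L.V ⊓ L'.V ≤ L'.V) L'.t =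
      rs C.X (inf_le_left : L.V ⊓ L'.V ≤ L.V) L.t * w)
    (n : ℕ) (c : A) (X : Γ(C.X, L.U)) (hX : L.Pole n c X) :
    L'.Pole n (gm (C.σ 0) (L.V ⊓ L'.V) (sec_inf L L') w ^ n * c) (rs C.X hU X) := by
  obtain ⟨r, hr⟩ := hX
  have lI1 : (L'.U ⊓ L'.V) ⊓ (L.V ⊓ L'.V) ≤ L.U ⊓ L.V := fun x hx => ⟨hU hx.1.1, hx.2.1⟩
  have hcov : L'.V ≤ (L'.U ⊓ L'.V) ⊔ (L.V ⊓ L'.V) := fun x hx => by
    by_cases h : x ∈ L'.U
    · exact Or.inl ⟨h, hx⟩
    · right
      refine ⟨?_, hx⟩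
      rw [L'.mU, not_not] at h
      obtain ⟨y, rfl⟩ := h
      exact L.le (Set.mem_univ y)
  obtain ⟨Y, hY1, hY2⟩ := glue (X := C.X) (U := L'.U ⊓ L'.V) (V := L.V ⊓ L'.V) (W := L'.V)
    (I := (L'.U ⊓ L'.V) ⊓ (L.V ⊓ L'.V)) inf_le_right inf_le_right hcov inf_le_left inf_le_right
    le_rfl (rs C.X inf_le_right L'.t ^ n * rs C.X inf_le_left (rs C.X hU X))
    (w ^ n * rs C.X inf_le_left (coef C.π L.V c + L.t * r)) (by
      have e := congrArg (rs C.X lI1) hr
      have ew := congrArg (rs C.X (inf_le_right : (L'.U ⊓ L'.V) ⊓ (L.V ⊓ L'.V) ≤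
        L.V ⊓ L'.V)) hw
      simp only [map_mul, map_pow, rs_rs] at e ew ⊢
      rw [ew, mul_pow, mul_comm (_ ^ n) (_ ^ n), mul_assoc, e])
  have hgY : gm (C.σ 0) L'.V L'.le Y =
      gm (C.σ 0) (L.V ⊓ L'.V) (sec_inf L L') w ^ n * c := by
    rw [← gm_res inf_le_right L'.le (sec_inf L L') Y, hY2, map_mul, map_pow,
      gm_res inf_le_left L.le (sec_inf L L'), map_add, map_mul, gm_t, zero_mul, add_zero, gm_const]
  obtain ⟨r', hr'⟩ := (L'.ker (Y - coef C.π L'.V
    (gm (C.σ 0) (L.V ⊓ L'.V) (sec_inf L L') w ^ n * c))).1 (by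
      rw [map_sub, gm_const, hgY, sub_self])
  refine ⟨r', ?_⟩
  rw [← hr', add_sub_cancel, hY1]

end

end FCP

theorem t_FCP (hFLK : Stmt_FLK) : Stmt_FCP := fun {_} _ {C} L L' hU => by
  obtain ⟨u, w, huw, hw⟩ := FCP.units hFLK L L'
  refine ⟨gm (C.σ 0) (L.V ⊓ L'.V) (FCP.sec_inf L L') w, ?_, fun n c X hX =>
    FCP.main L L' hU u w hw n c X hX⟩
  refine IsUnit.map _ ?_
  exact IsUnit.of_mul_eq_one u (by rw [mul_comm]; exact huw)

end Pool.Agent.MG.WL


end

section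

/-!
# FIN: assembly
-/

open CategoryTheory CategoryTheory.Limits AlgebraicGeometry TensorProduct TopologicalSpace

namespace Pool.Agent.MG.WL

open Pool.Agent.MG.W Pool.Agent.MG.One Pool.Agent.MG.GLU

namespace FINA

open Polynomial

theorem cubic {K : Type} [Field K] {u v w u' p q r : K} (h : C u * X ^ 3 + C v * X + C w =
    C u' * X ^ 3 + C p * X ^ 2 + C q * X + C r) : p = 0 ∧ v = q ∧ w = r := by
  refine ⟨?_, ?_, ?_⟩
  · have := congrArg (fun f => coeff f 2) h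
    simp [coeff_X_pow] at this
    exact this.symm
  · have := congrArg (fun f => coeff f 1) h
    simpa [coeff_X, coeff_C, coeff_X_pow] using this
  · have := congrArg (fun f => coeff f 0) h
    simpa [coeff_X, coeff_C, coeff_X_pow] using this

/-- A Weierstrass curve with a cuspidal equation. -/
theorem cusp {K : Type} [Field K] (h6 : (6 : K) ≠ 0) {a b α β γ δ ε : K} (hα : α ≠ 0)
    (hγ : γ ≠ 0) (h : (algebraMap K (A1 K a b) γ * y1 K a b + algebraMap K _ δ * x1 K a b +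
      algebraMap K _ ε) ^ 2 = (algebraMap K _ α * x1 K a b + algebraMap K _ β) ^ 3) :
    a = 0 ∧ b = 0 := by
  have h2 : (2 : K) ≠ 0 := fun h => h6 (by linear_combination 3 * h)
  have h3 : (3 : K) ≠ 0 := fun h => h6 (by linear_combination 2 * h)
  have hrel := rel1 K a b
  let pL : K[X] := C (γ ^ 2) * (X ^ 3 + C a * X + C b) + (C δ * X + C ε) ^ 2
  let qL : K[X] := C (2 * γ) * (C δ * X + C ε)
  let pR : K[X] := (C α * X + C β) ^ 3
  obtain ⟨pq, -, hu⟩ := (t_WRG K a b).1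
    ((algebraMap K _ α * x1 K a b + algebraMap K _ β) ^ 3)
  have e1 : (pL, qL) = pq := by
    apply hu
    rw [← h]
    simp only [pL, qL, map_add, map_mul, map_pow, aeval_C, aeval_X, map_ofNat]
    linear_combination (algebraMap K (A1 K a b) γ) ^ 2 * hrel
  have e2 : (pR, 0) = pq := by
    apply hu
    simp only [pR, map_add, map_mul, map_pow, aeval_C, aeval_X, map_zero, zero_mul, add_zero]
  have e3 := e1.trans e2.symm
  have eq : qL = 0 := congrArg Prod.snd e3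
  have ep : pL = pR := congrArg Prod.fst e3
  have hq : C δ * X + C ε = (0 : K[X]) := by
    rcases mul_eq_zero.1 eq with h | h
    · rw [C_eq_zero] at h
      exact absurd h (mul_ne_zero h2 hγ)
    · exact h
  have ep' : C (γ ^ 2) * (X ^ 3 + C a * X + C b) = (C α * X + C β) ^ 3 := by
    have h1 : C (γ ^ 2) * (X ^ 3 + C a * X + C b) + (C δ * X + C ε) ^ 2 =
      (C α * X + C β) ^ 3 := ep
    rw [hq] at h1
    rw [← h1]
    ring
  have ex : C (γ ^ 2) * X ^ 3 + C (γ ^ 2 * a) * X + C (γ ^ 2 * b) =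
      C (α ^ 3) * X ^ 3 + C (3 * α ^ 2 * β) * X ^ 2 + C (3 * α * β ^ 2) * X + C (β ^ 3) := by
    have h1 : C (γ ^ 2) * X ^ 3 + C (γ ^ 2 * a) * X + C (γ ^ 2 * b) =
        C (γ ^ 2) * (X ^ 3 + C a * X + C b) := by
      simp only [map_mul]
      ring
    rw [h1, ep']
    simp only [map_mul, map_pow, map_ofNat]
    ring
  obtain ⟨c2, c1, c0⟩ := cubic ex
  have hβ : β = 0 := by
    rcases mul_eq_zero.1 c2 with h | h
    · exact absurd h (mul_ne_zero h3 (pow_ne_zero 2 hα))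
    · exact h
  rw [hβ] at c1 c0
  refine ⟨?_, ?_⟩
  · have : γ ^ 2 * a = 0 := by rw [c1]; ring
    exact (mul_eq_zero.1 this).resolve_left (pow_ne_zero 2 hγ)
  · have : γ ^ 2 * b = 0 := by rw [c0]; ring
    exact (mul_eq_zero.1 this).resolve_left (pow_ne_zero 2 hγ)

variable {A : Type} [CommRing A] {C : Fam 1 A}

theorem pole_add {L : LC C} {x : Γ(C.X, L.U)} (hx : L.Pole 2 1 x) (β : A) :
    L.Pole 2 1 (x + coef C.π L.U β) := by
  obtain ⟨r, hr⟩ := hx
  refine ⟨r + L.t * coef C.π L.V β, ?_⟩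
  rw [map_one] at hr ⊢
  simp only [map_add, map_mul, map_one, coef_rs, mul_add] at hr ⊢
  linear_combination hr

theorem pole_add3 {L : LC C} {x y : Γ(C.X, L.U)} (hx : L.Pole 2 1 x) (hy : L.Pole 3 1 y)
    (δ ε : A) : L.Pole 3 1 (y + coef C.π L.U δ * x + coef C.π L.U ε) := by
  obtain ⟨r, hr⟩ := hx
  obtain ⟨r', hr'⟩ := hy
  refine ⟨r' + coef C.π L.V δ * (1 + L.t * r) + L.t ^ 2 * coef C.π L.V ε, ?_⟩
  rw [map_one] at hr hr' ⊢
  simp only [map_add, map_mul, map_pow, map_one, coef_rs, mul_add] at hr hr' ⊢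
  linear_combination hr' + rs C.X (inf_le_right : L.U ⊓ L.V ≤ L.V) L.t *
    coef C.π (L.U ⊓ L.V) δ * hr

theorem fin_of (L : LC C) (x : Γ(C.X, L.U)) (aU : IsAffineOpen L.U) (h : IsFinite (xm L x)) :
    (Polynomial.eval₂RingHom (coef C.π L.U) x).Finite := by
  have h1 : IsFinite (spMap (Polynomial.eval₂RingHom (coef C.π L.U) x)) := by
    have h2 : spMap (Polynomial.eval₂RingHom (coef C.π L.U) x) = aU.isoSpec.inv ≫ xm L x := by
      rw [xm, aU.isoSpec_inv_toSpecΓ_assoc]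
    rw [h2]
    infer_instance
  exact (IsFinite.SpecMap_iff _).1 h1

theorem in1_w {K : Type} [CommRing K] {s : A →+* K} {a b : K} (f : WX K a b ⟶ C.X)
    (hw : f ≫ C.π = WX.pr K a b ≫ spMap s) :
    (WX.in1 K a b ≫ f) ≫ C.π = spMap ((algebraMap K (A1 K a b)).comp s) := by
  rw [Category.assoc, hw, PBS.spMap_comp, ← Category.assoc, WX.in1_pr]

theorem exists_geo (A : Type) [CommRing A] (m : Ideal A) (hm : m.IsMaximal) :
    ∃ (K : Type) (_ : Field K) (_ : IsAlgClosed K) (s : A →+* K), ∀ a ∈ m, s a = 0 := by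
  have := hm
  let _ : Field (A ⧸ m) := Ideal.Quotient.field m
  refine ⟨AlgebraicClosure (A ⧸ m), inferInstance, inferInstance,
    (algebraMap (A ⧸ m) (AlgebraicClosure (A ⧸ m))).comp (Ideal.Quotient.mk m), fun a ha => ?_⟩
  rw [RingHom.comp_apply, Ideal.Quotient.eq_zero_iff_mem.2 ha, map_zero]

end FINA

open _root_.Pool.Agent.MG.WL.FINA in
theorem t_FIN (hFLK : Stmt_FLK) (hFGF : Stmt_FGF) (hFPR : Stmt_FPR) (hFQF : Stmt_FQF)
    (hFSP : Stmt_FSP) (hFAL : Stmt_FAL) (hFCH : Stmt_FCH) : Stmt_FIN := by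
  intro A _ _ C hC L x y hx hy
  have G : AllGF L x y := hFGF A C hC L x y hx hy
  have hp : IsProper C.π := hC.proper
  have p1 : IsProper (xm L x) := hFPR hp L 1 x hx
  have q1 : LocallyQuasiFinite (xm L x) := hFQF hp L x y G
  have f1 : IsFinite (xm L x) := IsFinite.of_isProper_of_locallyQuasiFinite _
  have aU : IsAffineOpen L.U := isAffine_of_isAffineHom (xm L x)
  have span := hFSP L x y G aU (fin_of L x aU f1)
  have six : IsUnit (6 : A) := by
    have h : IsUnit (algebraMap ℂ A 6) := (IsUnit.mk0 (6 : ℂ) (by norm_num)).map _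
    rwa [map_ofNat] at h
  have hu : IsUnit (rs C.X (inf_le_right : L.U ⊓ L.V ≤ L.V) L.t) := by
    have key : ∀ (W : C.X.Opens) (h : W ≤ L.V), C.X.basicOpen L.t = W → IsUnit (rs C.X h L.t) := by
      intro W h hW
      subst hW
      exact C.X.toRingedSpace.isUnit_res_basicOpen L.t
    exact key _ _ L.bas
  have hinj : Function.Injective (rs C.X (inf_le_right : L.U ⊓ L.V ≤ L.V)) := by
    rw [injective_iff_map_eq_zero]
    exact (hFLK L L.V le_rfl).2.1
  obtain ⟨a, b, β, δ, ε, e, bij⟩ := hFAL (coef C.π L.U) (coef C.π L.V)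
    (rs C.X (inf_le_left : L.U ⊓ L.V ≤ L.U)) (rs C.X (inf_le_right : L.U ⊓ L.V ≤ L.V))
    (fun c => by rw [coef_rs, coef_rs]) hinj L.t hu (gm (C.σ 0) L.V L.le)
    (fun c => gm_coef (C.σ 0) C.π (RingHom.id A)
      (by rw [C.sec]; exact (Spec.map_id _).symm) L.V L.le c) L.ker six x y
    (by
      obtain ⟨r, hr⟩ := hx
      rw [map_one] at hr
      exact ⟨r, hr⟩)
    (by
      obtain ⟨r, hr⟩ := hy
      rw [map_one] at hr
      exact ⟨r, hr⟩) span
  refine ⟨a, b, ?_, hFCH hp L aU _ _ (pole_add hx β) (pole_add3 hx hy δ ε) a b e bij⟩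
  by_contra hne
  obtain ⟨m, hm, hle⟩ := Ideal.exists_le_maximal _ hne
  obtain ⟨K, _, _, s, hs⟩ := exists_geo A m hm
  obtain ⟨g⟩ := G K s
  have hsa : s a = 0 := hs a (hle (Ideal.subset_span (Set.mem_insert _ _)))
  have hsb : s b = 0 := hs b (hle (Ideal.subset_span (Set.mem_insert_of_mem _ rfl)))
  have h6 : (6 : K) ≠ 0 := by
    have := six.map s
    rw [map_ofNat] at this
    exact this.ne_zero
  have hc : ∀ c, gm (WX.in1 K g.a g.b ≫ g.e.f) L.U g.le (coef C.π L.U c) =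
      algebraMap K _ (s c) := by
    intro c
    exact gm_coef _ C.π ((algebraMap K (A1 K g.a g.b)).comp s) (in1_w g.e.f g.e.cart.w) L.U g.le c
  have h := congrArg (gm (WX.in1 K g.a g.b ≫ g.e.f) L.U g.le) e
  simp only [map_add, map_mul, map_pow, hc, g.hx, g.hy, hsa, hsb, map_zero, zero_mul,
    add_zero] at h
  have h' := cusp (K := K) h6 (a := g.a) (b := g.b) (α := g.α) (β := g.β + s β) (γ := g.γ)
    (δ := g.δ + s δ * g.α) (ε := g.ε + s δ * g.β + s ε) g.hα g.hγ (by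
      simp only [map_add, map_mul]
      linear_combination h)
  rcases g.ab with h1 | h1
  · exact h1 h'.1
  · exact h1 h'.2

end Pool.Agent.MG.WL


end

section

/-!
# FLK: the coordinate at the section is a nonzerodivisor and generates the ideal of the section
-/

open CategoryTheory CategoryTheory.Limits AlgebraicGeometry TensorProduct

namespace Pool.Agent.MG.WL

open Pool.Agent.MG.W Pool.Agent.MG.One Pool.Agent.MG.GLU

namespace FLK

theorem rr {X : Scheme.{0}} {U V W : X.Opens} (h : U ≤ V) (h' : V ≤ W) (a : Γ(X, W)) :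
    rs X h (rs X h' a) = rs X (h.trans h') a := by
  change (X.presheaf.map (homOfLE h').op ≫ X.presheaf.map (homOfLE h).op) a = _
  rw [← Functor.map_comp, ← op_comp]
  rfl

/-- A function which vanishes locally is zero. -/
theorem zero_of_local {X : Scheme.{0}} {O : X.Opens} (s : Γ(X, O))
    (h : ∀ x ∈ O, ∃ (W : X.Opens) (hW : W ≤ O), x ∈ W ∧ rs X hW s = 0) : s = 0 := by
  choose W hW hx h0 using h
  refine X.sheaf.eq_of_locally_eq' (fun x : O => W x.1 x.2) O (fun x => homOfLE (hW x.1 x.2))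
    (fun x hx' => TopologicalSpace.Opens.mem_iSup.2 ⟨⟨x, hx'⟩, hx x hx'⟩) s 0 fun x => ?_
  exact (h0 x.1 x.2).trans (map_zero (rs X (hW x.1 x.2))).symm

/-- Local quotients by a nonzerodivisor glue. -/
theorem glue_quot {X : Scheme.{0}} {O : X.Opens} (t r : Γ(X, O))
    (hreg : ∀ (W : X.Opens) (hW : W ≤ O) (s : Γ(X, W)), rs X hW t * s = 0 → s = 0)
    (h : ∀ x ∈ O, ∃ (W : X.Opens) (hW : W ≤ O) (s : Γ(X, W)), x ∈ W ∧
      rs X hW r = rs X hW t * s) : ∃ s, r = t * s := by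
  choose W hW s hx h0 using h
  obtain ⟨c, hc, -⟩ := X.sheaf.existsUnique_gluing' (fun x : O => W x.1 x.2) O
    (fun x => homOfLE (hW x.1 x.2))
    (fun x hx' => TopologicalSpace.Opens.mem_iSup.2 ⟨⟨x, hx'⟩, hx x hx'⟩)
    (fun x => s x.1 x.2) (by
      intro x y
      have e : ∀ (a b : Γ(X, W x.1 x.2 ⊓ W y.1 y.2)),
          rs X (inf_le_left.trans (hW x.1 x.2)) t * a = rs X (inf_le_left.trans (hW x.1 x.2)) t * b →
            a = b := by
        intro a b hab
        rw [← sub_eq_zero, ← mul_sub] at hab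
        exact sub_eq_zero.1 (hreg _ _ _ hab)
      refine e _ _ ?_
      have e1 := congrArg (rs X (inf_le_left : W x.1 x.2 ⊓ W y.1 y.2 ≤ _)) (h0 x.1 x.2)
      have e2 := congrArg (rs X (inf_le_right : W x.1 x.2 ⊓ W y.1 y.2 ≤ _)) (h0 y.1 y.2)
      rw [map_mul, rr, rr] at e1 e2
      exact e1.symm.trans e2)
  refine ⟨c, ?_⟩
  rw [← sub_eq_zero]
  refine zero_of_local _ fun x hx' => ⟨W x hx', hW x hx', hx x hx', ?_⟩
  rw [map_sub, map_mul, h0 x hx', sub_eq_zero]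
  congr 1
  exact (hc ⟨x, hx'⟩).symm

section

variable {A : Type} [CommRing A] {C : Fam 1 A} (L : LC C)

theorem reg_V (s : Γ(C.X, L.V)) (h : L.t * s = 0) : s = 0 := by
  let f := Polynomial.eval₂RingHom (coef C.π L.V) L.t
  have hf : f.Flat := L.flat
  let _ := f.toAlgebra
  have : Module.Flat (Polynomial A) Γ(C.X, L.V) := hf
  have h1 : IsSMulRegular (Polynomial A) (Polynomial.X : Polynomial A) :=
    Polynomial.isRegular_X.left.isSMulRegular
  have h2 := h1.of_flat (S := Γ(C.X, L.V))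
  have h3 : algebraMap (Polynomial A) Γ(C.X, L.V) Polynomial.X = L.t := Polynomial.eval₂_X _ _
  rw [h3] at h2
  exact h2 (by
    change L.t * s = L.t * 0
    rw [h, mul_zero])

theorem reg_basic (g : Γ(C.X, L.V)) (s : Γ(C.X, C.X.basicOpen g))
    (h : rs C.X (C.X.basicOpen_le g) L.t * s = 0) : s = 0 := by
  have hl := L.aff.isLocalization_basicOpen g
  let _ : Algebra Γ(C.X, L.V) Γ(C.X, C.X.basicOpen g) := (rs C.X (C.X.basicOpen_le g)).toAlgebra
  have hl' : IsLocalization.Away g Γ(C.X, C.X.basicOpen g) := hl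
  have : Module.Flat Γ(C.X, L.V) Γ(C.X, C.X.basicOpen g) :=
    IsLocalization.flat _ (Submonoid.powers g)
  have h1 : IsSMulRegular Γ(C.X, L.V) L.t := by
    intro a b hab
    have hab' : L.t * a = L.t * b := hab
    rw [← sub_eq_zero, ← mul_sub] at hab'
    exact sub_eq_zero.1 (reg_V L _ hab')
  have h2 := h1.of_flat (S := Γ(C.X, C.X.basicOpen g))
  exact h2 (by
    change rs C.X (C.X.basicOpen_le g) L.t * s = rs C.X (C.X.basicOpen_le g) L.t * 0
    rw [h, mul_zero])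

/-- The basic open sets of `V` in `O`. -/
theorem exists_basic {O : C.X.Opens} (hO : O ≤ L.V) (x : C.X) (hx : x ∈ O) :
    ∃ g : Γ(C.X, L.V), C.X.basicOpen g ≤ O ∧ x ∈ C.X.basicOpen g :=
  L.aff.exists_basicOpen_le ⟨x, hx⟩ (hO hx)

theorem reg (O : C.X.Opens) (hO : O ≤ L.V) (s : Γ(C.X, O)) (h : rs C.X hO L.t * s = 0) :
    s = 0 := by
  refine zero_of_local s fun x hx => ?_
  obtain ⟨g, hg, hxg⟩ := exists_basic L hO x hx
  refine ⟨_, hg, hxg, reg_basic L g _ ?_⟩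
  have := congrArg (rs C.X hg) h
  rw [map_mul, rr, map_zero] at this
  exact this

theorem pow_reg (O : C.X.Opens) (hO : O ≤ L.V) (n : ℕ) (s : Γ(C.X, O))
    (h : rs C.X hO L.t ^ n * s = 0) : s = 0 := by
  induction n with
  | zero => rwa [pow_zero, one_mul] at h
  | succ n ih =>
    apply ih
    apply reg L O hO
    rw [← h]
    ring

theorem zero_of_U (O : C.X.Opens) (hO : O ≤ L.V) (s : Γ(C.X, O))
    (h : rs C.X (inf_le_right : L.U ⊓ O ≤ O) s = 0) : s = 0 := by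
  refine zero_of_local s fun x hx => ?_
  obtain ⟨g, hg, hxg⟩ := exists_basic L hO x hx
  refine ⟨_, hg, hxg, ?_⟩
  have haff : IsAffineOpen (C.X.basicOpen g) := L.aff.basicOpen g
  let t' : Γ(C.X, C.X.basicOpen g) := rs C.X (C.X.basicOpen_le g) L.t
  have hb : C.X.basicOpen t' ≤ L.U ⊓ O := by
    have h1 : C.X.basicOpen t' = C.X.basicOpen g ⊓ C.X.basicOpen L.t :=
      Scheme.basicOpen_res C.X L.t (homOfLE (C.X.basicOpen_le g)).op
    rw [h1, L.bas]
    exact le_inf (inf_le_right.trans inf_le_left) (inf_le_left.trans hg)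
  obtain ⟨n, hn⟩ := exists_pow_mul_eq_zero_of_res_basicOpen_eq_zero_of_isAffineOpen C.X haff
    (rs C.X hg s) t' (by
      have h2 := congrArg (rs C.X hb) h
      rw [rr, map_zero] at h2
      change rs C.X (C.X.basicOpen_le t') (rs C.X hg s) = 0
      rw [rr]
      exact h2)
  exact pow_reg L _ (C.X.basicOpen_le g) n _ hn

/-- Division by the coordinate away from the section. -/
theorem quot_U (O : C.X.Opens) (hO : O ≤ L.V) (r : Γ(C.X, O)) :
    ∃ s : Γ(C.X, L.U ⊓ O), rs C.X inf_le_right r =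
      rs C.X inf_le_right (rs C.X hO L.t) * s := by
  have h1 : L.U ⊓ O ≤ C.X.basicOpen L.t := by
    rw [L.bas]
    exact inf_le_inf_left _ hO
  have h2 : IsUnit (rs C.X (C.X.basicOpen_le L.t) L.t) :=
    RingedSpace.isUnit_res_basicOpen _ L.t
  have h3 : IsUnit (rs C.X (inf_le_right : L.U ⊓ O ≤ O) (rs C.X hO L.t)) := by
    have := h2.map (rs C.X h1)
    rw [rr] at this
    rw [rr]
    exact this
  obtain ⟨u, hu⟩ := h3
  refine ⟨(↑u⁻¹ : Γ(C.X, L.U ⊓ O)) * rs C.X inf_le_right r, ?_⟩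
  rw [← hu, ← mul_assoc, Units.mul_inv, one_mul]

/-- Division by the coordinate at a point of the section. -/
theorem quot_sec (O : C.X.Opens) (hO : O ≤ L.V) (h : ⊤ ≤ (C.σ 0) ⁻¹ᵁ O) (r : Γ(C.X, O))
    (hr : gm (C.σ 0) O h r = 0) (q : Sp A) :
    ∃ (W : C.X.Opens) (hW : W ≤ O) (s : Γ(C.X, W)), (C.σ 0) q ∈ W ∧
      rs C.X hW r = rs C.X hW (rs C.X hO L.t) * s := by
  have hx : (C.σ 0) q ∈ O := h (Set.mem_univ q)
  obtain ⟨g, hg, hxg⟩ := exists_basic L hO _ hx
  have hl := L.aff.isLocalization_basicOpen g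
  let ρ := rs C.X (C.X.basicOpen_le g)
  let _ : Algebra Γ(C.X, L.V) Γ(C.X, C.X.basicOpen g) := ρ.toAlgebra
  have hl' : IsLocalization.Away g Γ(C.X, C.X.basicOpen g) := hl
  -- `g ^ m r = r'`
  obtain ⟨⟨r', ⟨_, m, rfl⟩⟩, hr'⟩ := IsLocalization.surj (Submonoid.powers g) (rs C.X hg r)
  change rs C.X hg r * ρ (g ^ m) = ρ r' at hr'
  -- the localisation of the base
  let a := gm (C.σ 0) L.V L.le g
  let u : A →+* Localization.Away a := algebraMap A (Localization.Away a)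
  have hle0 : ⊤ ≤ (spMap u ≫ C.σ 0) ⁻¹ᵁ L.V := fun p _ => L.le (Set.mem_univ (spMap u p))
  have hle : ⊤ ≤ (spMap u ≫ C.σ 0) ⁻¹ᵁ (C.X.basicOpen g) := by
    have e1 : gm (spMap u ≫ C.σ 0) L.V hle0 g = u a := gm_comp (C.σ 0) u _ rfl L.V L.le hle0 g
    have e2 : IsUnit (u a) := IsLocalization.Away.algebraMap_isUnit a
    have e3 : IsUnit ((Scheme.ΓSpecIso (CommRingCat.of (Localization.Away a))).inv.hom
        (gm (spMap u ≫ C.σ 0) L.V hle0 g)) := by
      rw [e1]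
      exact e2.map _
    have e4 : (Scheme.ΓSpecIso (CommRingCat.of (Localization.Away a))).inv.hom
        (gm (spMap u ≫ C.σ 0) L.V hle0 g) = ((spMap u ≫ C.σ 0).appLE L.V ⊤ hle0).hom g := by
      change ((Scheme.ΓSpecIso (CommRingCat.of (Localization.Away a))).hom ≫
        (Scheme.ΓSpecIso (CommRingCat.of (Localization.Away a))).inv)
          (((spMap u ≫ C.σ 0).appLE L.V ⊤ hle0).hom g) = _
      rw [Iso.hom_inv_id]
      rfl
    rw [e4] at e3
    have e5 := Scheme.basicOpen_of_isUnit _ e3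
    have e6 := Scheme.basicOpen_appLE (spMap u ≫ C.σ 0) ⊤ L.V hle0 g
    rw [← e5]
    exact e6.le.trans inf_le_right
  have h1 : gm (spMap u ≫ C.σ 0) (C.X.basicOpen g) hle (rs C.X hg r) = 0 := by
    rw [gm_rs (C.σ 0) u (spMap u ≫ C.σ 0) rfl hg h hle r, hr, map_zero]
  have h2 : u (gm (C.σ 0) L.V L.le r') = 0 := by
    rw [← gm_rs (C.σ 0) u (spMap u ≫ C.σ 0) rfl (C.X.basicOpen_le g) L.le hle r']
    change gm (spMap u ≫ C.σ 0) (C.X.basicOpen g) hle (ρ r') = 0
    rw [← hr', map_mul, h1, zero_mul]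
  obtain ⟨⟨_, j, rfl⟩, hj⟩ := (IsLocalization.map_eq_zero_iff (Submonoid.powers a)
    (Localization.Away a) _).1 h2
  change a ^ j * gm (C.σ 0) L.V L.le r' = 0 at hj
  obtain ⟨s', hs'⟩ := (L.ker (g ^ j * r')).1 (by rw [map_mul, map_pow]; exact hj)
  have hu : IsUnit (ρ g) := RingedSpace.isUnit_res_basicOpen _ g
  obtain ⟨v, hv⟩ := hu
  refine ⟨_, hg, ((v⁻¹ ^ (j + m) : (Γ(C.X, C.X.basicOpen g))ˣ) : Γ(C.X, C.X.basicOpen g)) * ρ s',
    hxg, ?_⟩
  rw [rr]
  change rs C.X hg r = ρ L.t * _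
  have h3 : (v : Γ(C.X, C.X.basicOpen g)) ^ (j + m) * rs C.X hg r = ρ L.t * ρ s' := by
    rw [← map_mul, ← hs', map_mul, map_pow, ← hr', map_pow, hv]
    ring
  have h4 : ((v⁻¹ ^ (j + m) : (Γ(C.X, C.X.basicOpen g))ˣ) : Γ(C.X, C.X.basicOpen g)) *
      (v : Γ(C.X, C.X.basicOpen g)) ^ (j + m) = 1 := by
    rw [← Units.val_pow_eq_pow_val, ← Units.val_mul, ← mul_pow, inv_mul_cancel, one_pow,
      Units.val_one]
  calc rs C.X hg r = (((v⁻¹ ^ (j + m) : (Γ(C.X, C.X.basicOpen g))ˣ) :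
        Γ(C.X, C.X.basicOpen g)) * (v : Γ(C.X, C.X.basicOpen g)) ^ (j + m)) * rs C.X hg r := by
        rw [h4, one_mul]
    _ = ((v⁻¹ ^ (j + m) : (Γ(C.X, C.X.basicOpen g))ˣ) : Γ(C.X, C.X.basicOpen g)) *
        ((v : Γ(C.X, C.X.basicOpen g)) ^ (j + m) * rs C.X hg r) := mul_assoc _ _ _
    _ = _ := by
        rw [h3]
        ring

end

end FLK

theorem t_FLK : Stmt_FLK := by
  intro A _ C L O hO
  refine ⟨FLK.reg L O hO, FLK.zero_of_U L O hO, fun h r hr => ?_⟩
  refine FLK.glue_quot (rs C.X hO L.t) r (fun W hW s hs => ?_) fun x hx => ?_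
  · rw [FLK.rr] at hs
    exact FLK.reg L W (hW.trans hO) s hs
  · by_cases hxU : x ∈ L.U
    · obtain ⟨s, hs⟩ := FLK.quot_U L O hO r
      exact ⟨_, inf_le_right, s, ⟨hxU, hx⟩, hs⟩
    · rw [L.mU, not_not] at hxU
      obtain ⟨q, rfl⟩ := hxU
      exact FLK.quot_sec L O hO h r hr q

end Pool.Agent.MG.WL


end

section

/-!
# FLW: the coordinate `z` of a Weierstrass curve over a field
-/

open CategoryTheory CategoryTheory.Limits AlgebraicGeometry TensorProduct

namespace Pool.Agent.MG.WL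

open Pool.Agent.MG.W Pool.Agent.MG.One Pool.Agent.MG.GLU

namespace FLW

section alg

variable {k : Type} [Field k] (a b : k)

theorem inf2_z : inf2 k a b (z2 k a b) = 0 := lift2_z _ _ _ _

theorem inf2_b (c : k) : inf2 k a b (algebraMap k _ c) = c := lift2_b _ _ _ _ c

theorem inf2_eq_zero_iff (v : A2 k a b) : inf2 k a b v = 0 ↔ ∃ s, v = z2 k a b * s := by
  constructor
  · intro h
    have hd := (t_WRG k a b).2.1 v
    rw [h, map_zero, sub_zero, Ideal.mem_span_singleton] at hd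
    exact hd
  · rintro ⟨s, rfl⟩
    rw [map_mul, inf2_z, zero_mul]

theorem z2_ne : z2 k a b ≠ 0 := by
  intro h
  have hd := (t_WDM k a b).2.1
  have h3 : g2 k a b (z2 k a b) = 0 := (congrArg (fun v => g2 k a b v) h).trans (map_zero _)
  have hu : IsUnit (0 : A12 k a b) := by
    have h4 := (zu k a b).isUnit
    rw [zu_val] at h4
    exact h3 ▸ h4
  have h01 : (0 : A12 k a b) = 1 := isUnit_zero_iff.mp hu
  have h2 : g2 k a b 0 = g2 k a b 1 := by rw [map_zero, map_one, h01]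
  exact zero_ne_one ((t_WRG k a b).2.2.1 h2)

/-- Polynomials in `z`. -/
noncomputable def pz : Polynomial k →+* A2 k a b :=
  Polynomial.eval₂RingHom (algebraMap k (A2 k a b)) (z2 k a b)

theorem inf2_pz (q : Polynomial k) : inf2 k a b (pz a b q) = q.eval 0 := by
  have h : (inf2 k a b).comp (pz a b) = Polynomial.evalRingHom 0 := by
    refine Polynomial.ringHom_ext ?_ ?_
    · intro c
      rw [RingHom.comp_apply, pz, Polynomial.coe_eval₂RingHom, Polynomial.eval₂_C, inf2_b]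
      simp
    · rw [RingHom.comp_apply, pz, Polynomial.coe_eval₂RingHom, Polynomial.eval₂_X, inf2_z]
      simp
  exact congrArg (fun F => F q) h

theorem pz_inj (p : Polynomial k) (hp : pz a b p = 0) : p = 0 := by
  have hd := (t_WDM k a b).2.1
  by_contra hp0
  obtain ⟨q, hq, hnd⟩ := p.exists_eq_pow_rootMultiplicity_mul_and_not_dvd hp0 0
  have h1 : pz a b (Polynomial.X - Polynomial.C 0) = z2 k a b := by
    rw [map_zero, sub_zero, pz, Polynomial.coe_eval₂RingHom, Polynomial.eval₂_X]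
  rw [hq, map_mul, map_pow, h1] at hp
  have h2 : pz a b q = 0 := by
    rcases mul_eq_zero.mp hp with h | h
    · exact absurd h (pow_ne_zero _ (z2_ne a b))
    · exact h
  have h3 : q.eval 0 = 0 := by rw [← inf2_pz, h2, map_zero]
  exact hnd (Polynomial.dvd_iff_isRoot.mpr h3)

theorem pz_flat : (pz a b).Flat := by
  have hd := (t_WDM k a b).2.1
  let _ := (pz a b).toAlgebra
  change Module.Flat (Polynomial k) (A2 k a b)
  rw [IsDedekindDomain.flat_iff_torsion_eq_bot, eq_bot_iff]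
  rintro m ⟨⟨r, hr⟩, h⟩
  have h1 : pz a b r * m = 0 := h
  rcases mul_eq_zero.mp h1 with h2 | h2
  · exact absurd (pz_inj a b r h2) (nonZeroDivisors.ne_zero hr)
  · exact h2

end alg

section geo

variable {k : Type} [Field k] (a b : k)

/-- The curve without the point at infinity. -/
noncomputable def Uo : (WX k a b).Opens := (WX.in1 k a b).opensRange

/-- The chart at infinity. -/
noncomputable def Vo : (WX k a b).Opens := (WX.in2 k a b).opensRange

theorem hV : ⊤ ≤ (WX.in2 k a b) ⁻¹ᵁ (Vo a b) := by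
  intro z _
  exact ⟨z, rfl⟩

theorem hU : ⊤ ≤ (WX.in1 k a b) ⁻¹ᵁ (Uo a b) := by
  intro z _
  exact ⟨z, rfl⟩

theorem cond (w : Sp (A12 k a b)) : WX.in1 k a b (spMap (g1 k a b) w) =
    WX.in2 k a b (spMap (g2 k a b) w) := by
  rw [← Scheme.Hom.comp_apply, ← Scheme.Hom.comp_apply]
  exact congrArg (fun (ψ : Sp (A12 k a b) ⟶ WX k a b) => ψ w)
    (pushout.condition (f := spMap (g1 k a b)) (g := spMap (g2 k a b)))

theorem mem_Uo (y : Sp (A2 k a b)) : WX.in2 k a b y ∈ Uo a b ↔ z2 k a b ∉ y.asIdeal := by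
  constructor
  · rintro ⟨x, hx⟩
    obtain ⟨w, -, hw⟩ := glue2_eq (spMap (g1 k a b)) (spMap (g2 k a b)) x y hx
    exact (WBC.range_g2 k a b y).1 ⟨w, hw⟩
  · intro h
    obtain ⟨w, hw⟩ := (WBC.range_g2 k a b y).2 h
    refine ⟨spMap (g1 k a b) w, ?_⟩
    rw [← hw]
    exact cond a b w

theorem sig : (Wei (WZ a b)).σ 0 = spMap (inf2 k a b) ≫ WX.in2 k a b := rfl

theorem mem_Uo_iff (z : WX k a b) : z ∈ Uo a b ↔ z ∉ Set.range ((Wei (WZ a b)).σ 0) := by
  constructor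
  · rintro hz ⟨s, hs⟩
    have h1 : WX.in2 k a b (spMap (inf2 k a b) s) ∈ Uo a b := by
      rw [← Scheme.Hom.comp_apply]
      have h2 : (spMap (inf2 k a b) ≫ WX.in2 k a b) s = z := hs
      rw [h2]
      exact hz
    rw [mem_Uo] at h1
    apply h1
    change inf2 k a b (z2 k a b) ∈ s.asIdeal
    rw [inf2_z]
    exact zero_mem _
  · intro hz
    by_contra hU
    rcases glue2_surj (spMap (g1 k a b)) (spMap (g2 k a b)) z with ⟨x, hx⟩ | ⟨y, hy⟩
    · exact hU ⟨x, hx⟩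
    · have hy' : WX.in2 k a b y = z := hy
      rw [← hy', mem_Uo, not_not] at hU
      apply hz
      let s : Sp k := (⊥ : PrimeSpectrum k)
      refine ⟨s, ?_⟩
      change (spMap (inf2 k a b) ≫ WX.in2 k a b) s = z
      rw [Scheme.Hom.comp_apply, ← hy']
      congr 1
      refine PrimeSpectrum.ext (Ideal.ext fun v => ?_)
      have hv := (t_WRG k a b).2.1 v
      have hv' : v - algebraMap k _ (inf2 k a b v) ∈ y.asIdeal :=
        (Ideal.span_singleton_le_iff_mem _).mpr hU hv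
      change inf2 k a b v ∈ (⊥ : Ideal k) ↔ v ∈ y.asIdeal
      rw [Ideal.mem_bot]
      constructor
      · intro h
        rw [h, map_zero, sub_zero] at hv'
        exact hv'
      · intro h
        by_contra h0
        have h2 : algebraMap k (A2 k a b) (inf2 k a b v) ∈ y.asIdeal := by
          have h3 := sub_mem h hv'
          rwa [sub_sub_cancel] at h3
        have h4 : IsUnit (algebraMap k (A2 k a b) (inf2 k a b v)) :=
          (isUnit_iff_ne_zero.mpr h0).map _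
        exact y.2.ne_top (Ideal.eq_top_of_isUnit_mem _ h2 h4)

/-- Functions on the chart at infinity. -/
theorem gm2_bij : Function.Bijective (gm (WX.in2 k a b) (Vo a b) (hV a b)) :=
  gm_bij (WX.in2 k a b) (Vo a b) (hV a b) rfl

/-- The coordinate. -/
noncomputable def tt : Γ(WX k a b, Vo a b) := (gm2_bij a b).2 (z2 k a b) |>.choose

theorem gm2_tt : gm (WX.in2 k a b) (Vo a b) (hV a b) (tt a b) = z2 k a b :=
  ((gm2_bij a b).2 (z2 k a b)).choose_spec

theorem le0 : ⊤ ≤ ((Wei (WZ a b)).σ 0) ⁻¹ᵁ (Vo a b) := by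
  intro s _
  refine ⟨spMap (inf2 k a b) s, ?_⟩
  rw [← Scheme.Hom.comp_apply]
  rfl

theorem gm0 (r : Γ(WX k a b, Vo a b)) :
    gm ((Wei (WZ a b)).σ 0) (Vo a b) (le0 a b) r =
      inf2 k a b (gm (WX.in2 k a b) (Vo a b) (hV a b) r) :=
  gm_comp (WX.in2 k a b) (inf2 k a b) ((Wei (WZ a b)).σ 0) (sig a b) (Vo a b) (hV a b)
    (le0 a b) r

theorem gm2_coef (c : k) : gm (WX.in2 k a b) (Vo a b) (hV a b)
    (coef (WX.pr k a b) (Vo a b) c) = algebraMap k _ c :=
  gm_coef (WX.in2 k a b) (WX.pr k a b) (algebraMap k _) (WX.in2_pr k a b) (Vo a b) (hV a b) c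

theorem basic_tt : (WX k a b).basicOpen (tt a b) = Uo a b ⊓ Vo a b := by
  have h1 := Scheme.basicOpen_appLE (WX.in2 k a b) ⊤ (Vo a b) (hV a b) (tt a b)
  have h2 := basicOpen_eq_of_affine' (((WX.in2 k a b).appLE (Vo a b) ⊤ (hV a b)).hom (tt a b))
  have h3 : (Scheme.ΓSpecIso (CommRingCat.of (A2 k a b))).hom
      (((WX.in2 k a b).appLE (Vo a b) ⊤ (hV a b)).hom (tt a b)) = z2 k a b := gm2_tt a b
  have key : ∀ y : Sp (A2 k a b), WX.in2 k a b y ∈ (WX k a b).basicOpen (tt a b) ↔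
      z2 k a b ∉ y.asIdeal := by
    intro y
    have h4 : y ∈ (Sp (A2 k a b)).basicOpen
        (((WX.in2 k a b).appLE (Vo a b) ⊤ (hV a b)).hom (tt a b)) ↔
        WX.in2 k a b y ∈ (WX k a b).basicOpen (tt a b) := by
      constructor
      · intro h
        exact ((SetLike.ext_iff.mp h1 y).mp h).2
      · intro h
        exact (SetLike.ext_iff.mp h1 y).mpr ⟨trivial, h⟩
    rw [← h4]
    constructor
    · intro h
      have h5 := (SetLike.ext_iff.mp h2 y).mp h
      change _ ∉ y.asIdeal at h5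
      rw [h3] at h5
      exact h5
    · intro h
      refine (SetLike.ext_iff.mp h2 y).mpr ?_
      change _ ∉ y.asIdeal
      rw [h3]
      exact h
  ext z
  constructor
  · intro hz
    obtain ⟨y, rfl⟩ := (WX k a b).basicOpen_le (tt a b) hz
    exact ⟨(mem_Uo a b y).2 ((key y).1 hz), ⟨y, rfl⟩⟩
  · rintro ⟨h5, ⟨y, rfl⟩⟩
    exact (key y).2 ((mem_Uo a b y).1 h5)

theorem ker_tt (r : Γ(WX k a b, Vo a b)) :
    gm ((Wei (WZ a b)).σ 0) (Vo a b) (le0 a b) r = 0 ↔ ∃ s, r = tt a b * s := by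
  rw [gm0, inf2_eq_zero_iff]
  constructor
  · rintro ⟨s, hs⟩
    obtain ⟨s', rfl⟩ := (gm2_bij a b).2 s
    refine ⟨s', (gm2_bij a b).1 ?_⟩
    rw [map_mul, gm2_tt, hs]
  · rintro ⟨s, rfl⟩
    exact ⟨_, by rw [map_mul, gm2_tt]⟩

theorem flat_tt : (Polynomial.eval₂RingHom (coef (WX.pr k a b) (Vo a b)) (tt a b)).Flat := by
  let e := RingEquiv.ofBijective _ (gm2_bij a b)
  have h1 : (e : Γ(WX k a b, Vo a b) →+* A2 k a b).comp
      (Polynomial.eval₂RingHom (coef (WX.pr k a b) (Vo a b)) (tt a b)) = pz a b := by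
    refine Polynomial.ringHom_ext ?_ ?_
    · intro c
      rw [RingHom.comp_apply, Polynomial.coe_eval₂RingHom, Polynomial.eval₂_C, pz,
        Polynomial.coe_eval₂RingHom, Polynomial.eval₂_C]
      exact gm2_coef a b c
    · rw [RingHom.comp_apply, Polynomial.coe_eval₂RingHom, Polynomial.eval₂_X, pz,
        Polynomial.coe_eval₂RingHom, Polynomial.eval₂_X]
      exact gm2_tt a b
  have h2 : Polynomial.eval₂RingHom (coef (WX.pr k a b) (Vo a b)) (tt a b) =
      (e.symm : A2 k a b →+* Γ(WX k a b, Vo a b)).comp (pz a b) := by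
    rw [← h1]
    refine RingHom.ext fun x => ?_
    exact (e.symm_apply_apply _).symm
  rw [h2]
  exact RingHom.Flat.comp (pz_flat a b) (RingHom.Flat.of_bijective e.symm.bijective)

/-- The coordinate `z`. -/
noncomputable def lc : LC (Wei (WZ a b)) where
  U := Uo a b
  mU := mem_Uo_iff a b
  V := Vo a b
  aff := isAffineOpen_opensRange (WX.in2 k a b)
  le := le0 a b
  t := tt a b
  bas := basic_tt a b
  ker := ker_tt a b
  flat := flat_tt a b

end geo

end FLW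

theorem t_FLW : Stmt_FLW := by
  intro k _ a b
  refine ⟨FLW.lc a b, FLW.hU a b, rfl, ?_⟩
  intro n c X hX
  obtain ⟨r, hr0⟩ := hX
  let X' : Γ(WX k a b, FLW.Uo a b) := X
  let r' : Γ(WX k a b, FLW.Vo a b) := r
  have hr : rs (WX k a b) (inf_le_right : FLW.Uo a b ⊓ FLW.Vo a b ≤ FLW.Vo a b) (FLW.tt a b) ^ n *
      rs (WX k a b) (inf_le_left : FLW.Uo a b ⊓ FLW.Vo a b ≤ FLW.Uo a b) X' =
      rs (WX k a b) (inf_le_right : FLW.Uo a b ⊓ FLW.Vo a b ≤ FLW.Vo a b)
        (coef (WX.pr k a b) (FLW.Vo a b) c + FLW.tt a b * r') := hr0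
  let i12 : Sp (A12 k a b) ⟶ WX k a b := spMap (g2 k a b) ≫ WX.in2 k a b
  have hi1 : i12 = spMap (g1 k a b) ≫ WX.in1 k a b :=
    (pushout.condition (f := spMap (g1 k a b)) (g := spMap (g2 k a b))).symm
  have hle : ⊤ ≤ i12 ⁻¹ᵁ (FLW.Uo a b ⊓ FLW.Vo a b) := by
    intro w _
    refine ⟨⟨spMap (g1 k a b) w, ?_⟩, ⟨spMap (g2 k a b) w, ?_⟩⟩
    · rw [FLW.cond, ← Scheme.Hom.comp_apply]
    · rw [← Scheme.Hom.comp_apply]
  have e1 : ∀ v : Γ(WX k a b, FLW.Uo a b), gm i12 (FLW.Uo a b ⊓ FLW.Vo a b) hle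
      (rs (WX k a b) inf_le_left v) = g1 k a b (gm (WX.in1 k a b) (FLW.Uo a b) (FLW.hU a b) v) :=
    fun v => gm_rs (WX.in1 k a b) (g1 k a b) i12 hi1 inf_le_left (FLW.hU a b) hle v
  have e2 : ∀ v : Γ(WX k a b, FLW.Vo a b), gm i12 (FLW.Uo a b ⊓ FLW.Vo a b) hle
      (rs (WX k a b) inf_le_right v) = g2 k a b (gm (WX.in2 k a b) (FLW.Vo a b) (FLW.hV a b) v) :=
    fun v => gm_rs (WX.in2 k a b) (g2 k a b) i12 rfl inf_le_right (FLW.hV a b) hle v
  have h1 := congrArg (gm i12 (FLW.Uo a b ⊓ FLW.Vo a b) hle) hr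
  rw [map_mul, map_pow] at h1
  have h2 : gm i12 (FLW.Uo a b ⊓ FLW.Vo a b) hle (rs (WX k a b) inf_le_right (FLW.tt a b)) =
      (zu k a b).val := by
    rw [e2, FLW.gm2_tt, zu_val]
  refine ⟨gm (WX.in2 k a b) (FLW.Vo a b) (FLW.hV a b)
    (coef (WX.pr k a b) (FLW.Vo a b) c + FLW.tt a b * r'), ?_, ?_⟩
  · change (zu k a b).val ^ n *
      g1 k a b (gm (WX.in1 k a b) (FLW.Uo a b) (FLW.hU a b) X') = _
    rw [← e2, ← h2, ← e1]
    exact h1
  · rw [map_add, map_mul, map_add, map_mul, FLW.gm2_tt, FLW.gm2_coef, FLW.inf2_z, zero_mul,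
      add_zero, FLW.inf2_b]

end Pool.Agent.MG.WL


end

section

/-!
# The morphism to the affine line given by a function with a pole along the section is proper
-/

open CategoryTheory CategoryTheory.Limits AlgebraicGeometry TensorProduct IsLocalRing

namespace Pool.Agent.MG.WL

open Pool.Agent.MG.W Pool.Agent.MG.One Pool.Agent.MG.GLU

namespace FPR

variable {A : Type} [CommRing A] {C : Fam 1 A}

theorem xm_comp (L : LC C) (x : Γ(C.X, L.U)) :
    xm L x ≫ spMap (Polynomial.C : A →+* Polynomial A) = L.U.ι ≫ C.π := by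
  have h1 : CommRingCat.ofHom (Polynomial.C : A →+* Polynomial A) ≫
      CommRingCat.ofHom (Polynomial.eval₂RingHom (coef C.π L.U) x) =
      (Scheme.ΓSpecIso (.of A)).inv ≫ C.π.appTop ≫ C.X.presheaf.map (homOfLE le_top).op := by
    ext a
    simp only [CommRingCat.hom_comp, CommRingCat.hom_ofHom, RingHom.comp_apply,
      Polynomial.coe_eval₂RingHom, Polynomial.eval₂_C]
    rfl
  rw [xm, Category.assoc, spMap, spMap, ← Spec.map_comp, h1, Spec.map_comp, Spec.map_comp,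
    Category.assoc, Scheme.Opens.toSpecΓ_SpecMap_presheaf_map_top_assoc,
    ← Scheme.toSpecΓ_naturality_assoc, ← SpecMap_ΓSpecIso_hom, ← Spec.map_comp]
  simp

theorem xm_appTop (L : LC C) (x : Γ(C.X, L.U)) :
    (xm L x).appTop = (Scheme.ΓSpecIso (.of (Polynomial A))).hom ≫
      CommRingCat.ofHom (Polynomial.eval₂RingHom (coef C.π L.U) x) ≫ L.U.topIso.inv := by
  rw [xm, Scheme.Hom.comp_appTop, Scheme.Opens.toSpecΓ_appTop, Scheme.ΓSpecIso_naturality_assoc]

/-- The function `x` on a point of `U`. -/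
theorem gm_xm {B : Type} [CommRing B] (L : LC C) (x : Γ(C.X, L.U)) (m : Sp B ⟶ L.U)
    (χ : Polynomial A →+* B) (h : m ≫ xm L x = spMap χ) (hU : ⊤ ≤ (m ≫ L.U.ι) ⁻¹ᵁ L.U) :
    gm (m ≫ L.U.ι) L.U hU x = χ Polynomial.X := by
  have e1 : (⊤ : (L.U : Scheme.{0}).Opens) ≤ L.U.ι ⁻¹ᵁ L.U := by
    rw [Scheme.Opens.ι_preimage_self]
  have h2 := Scheme.Hom.appLE_comp_appLE (U := L.U) (V := ⊤) (W := ⊤) (f := m)
    (g := L.U.ι) (e₁ := e1) (e₂ := le_top)
  have h3 : m.appLE ⊤ ⊤ le_top = m.appTop := Scheme.Hom.appLE_eq_app m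
  have h4 : L.U.ι.appLE L.U ⊤ e1 = L.U.topIso.inv := by
    rw [Scheme.Opens.ι_appLE, Scheme.Opens.topIso_inv]; rfl
  have h5 : (Scheme.ΓSpecIso (.of (Polynomial A))).hom
      ((Scheme.ΓSpecIso (.of (Polynomial A))).inv Polynomial.X) = Polynomial.X := by
    simp
  have h6 : Polynomial.eval₂RingHom (coef C.π L.U) x Polynomial.X = x := by
    simp
  have h7 : ((m ≫ L.U.ι).appLE L.U ⊤ hU).hom x =
      (m ≫ xm L x).appTop ((Scheme.ΓSpecIso (.of (Polynomial A))).inv Polynomial.X) := by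
    rw [Scheme.Hom.comp_appTop, xm_appTop, ← h2, h3, h4]
    change m.appTop (L.U.topIso.inv x) = m.appTop (L.U.topIso.inv
      (Polynomial.eval₂RingHom (coef C.π L.U) x ((Scheme.ΓSpecIso (.of (Polynomial A))).hom
        ((Scheme.ΓSpecIso (.of (Polynomial A))).inv Polynomial.X))))
    rw [h5, h6]
  change (Scheme.ΓSpecIso (CommRingCat.of B)).hom.hom (((m ≫ L.U.ι).appLE L.U ⊤ hU).hom x) = _
  rw [h7, h]
  change (Scheme.ΓSpecIso (CommRingCat.of B)).hom.hom ((spMap χ).appTop.hom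
    ((Scheme.ΓSpecIso (.of (Polynomial A))).inv Polynomial.X)) = _
  rw [gs_spMap]
  exact congrArg χ h5

theorem compact_U (hp : IsProper C.π) (L : LC C) : IsCompact (L.U : Set C.X) := by
  have hX : CompactSpace C.X := QuasiCompact.compactSpace_of_compactSpace C.π
  have hV : IsCompact ((L.V : Set C.X)ᶜ) := L.V.isOpen.isClosed_compl.isCompact
  have hsub : ((L.V : Set C.X)ᶜ) ⊆ (L.U : Set C.X) := by
    intro z hz
    refine (L.mU z).2 ?_
    rintro ⟨p, rfl⟩
    exact hz (L.le (TopologicalSpace.Opens.mem_top p))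
  obtain ⟨W, hW, -, hVW, hWU⟩ :=
    PrespectralSpace.exists_isCompact_and_isOpen_between hV L.U.isOpen hsub
  have hB : IsCompact ((L.U ⊓ L.V : C.X.Opens) : Set C.X) := by
    rw [← L.bas]
    exact isCompact_basicOpen C.X L.aff.isCompact L.t
  have : (L.U : Set C.X) = W ∪ ((L.U ⊓ L.V : C.X.Opens) : Set C.X) := by
    ext z
    constructor
    · intro hz
      by_cases hzV : z ∈ L.V
      · exact Or.inr ⟨hz, hzV⟩
      · exact Or.inl (hVW hzV)
    · rintro (hz | hz)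
      · exact hWU hz
      · exact hz.1
  rw [this]
  exact hW.union hB

/-- The closed point does not go to the section. -/
theorem closed_mem (L : LC C) (n : ℕ) (x : Γ(C.X, L.U)) (hx : L.Pole (n + 1) 1 x)
    {R K : Type} [CommRing R] [IsLocalRing R] [Field K] [Algebra R K]
    (hinj : Function.Injective (algebraMap R K)) (l : Sp R ⟶ C.X) (i₁ : Sp K ⟶ L.U)
    (ψ : Polynomial A →+* R) (h1 : spMap (algebraMap R K) ≫ l = i₁ ≫ L.U.ι)
    (h2 : i₁ ≫ xm L x = spMap (algebraMap R K) ≫ spMap ψ) : l (closedPoint R) ∈ L.U := by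
  by_contra hcon
  have hV0 : l (closedPoint R) ∈ L.V := by
    by_contra hc
    have h3 := (L.mU (l (closedPoint R))).2
    apply hcon
    apply h3
    rintro ⟨p, hp⟩
    apply hc
    rw [← hp]
    exact L.le (TopologicalSpace.Opens.mem_top p)
  have hV : (⊤ : (Sp R).Opens) ≤ l ⁻¹ᵁ L.V := fun y _ =>
    Two.forall_mem_of_closedPoint_mem l _ hV0 y
  -- the image of the point over `K`
  have hUi : (⊤ : (Sp K).Opens) ≤ (i₁ ≫ L.U.ι) ⁻¹ᵁ L.U := by
    intro y _
    exact (i₁ y).2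
  have hVi : (⊤ : (Sp K).Opens) ≤ (i₁ ≫ L.U.ι) ⁻¹ᵁ L.V := by
    rw [← h1]
    intro y _
    exact hV (TopologicalSpace.Opens.mem_top _)
  have hUVi : (⊤ : (Sp K).Opens) ≤ (i₁ ≫ L.U.ι) ⁻¹ᵁ (L.U ⊓ L.V) := fun y hy =>
    ⟨hUi hy, hVi hy⟩
  set alg := algebraMap R K with halg
  have hχ : i₁ ≫ xm L x = spMap (alg.comp ψ) := by
    rw [h2, spMap, spMap, spMap, ← Spec.map_comp]
    rfl
  have gx := gm_xm L x i₁ (alg.comp ψ) hχ hUi
  have idc : i₁ ≫ L.U.ι = spMap (RingHom.id K) ≫ i₁ ≫ L.U.ι := by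
    have : spMap (RingHom.id K) = 𝟙 (Sp K) := Spec.map_id _
    rw [this, Category.id_comp]
  have g1 : ∀ v : Γ(C.X, L.V), gm (i₁ ≫ L.U.ι) (L.U ⊓ L.V) hUVi (rs C.X inf_le_right v) =
      alg (gm l L.V hV v) := fun v => gm_rs l alg (i₁ ≫ L.U.ι) h1.symm inf_le_right hV hUVi v
  have g2 : gm (i₁ ≫ L.U.ι) (L.U ⊓ L.V) hUVi (rs C.X inf_le_left x) = alg (ψ Polynomial.X) := by
    rw [gm_rs (i₁ ≫ L.U.ι) (RingHom.id K) (i₁ ≫ L.U.ι) idc inf_le_left hUi hUVi x, gx]
    rfl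
  obtain ⟨r, hr⟩ := hx
  have e1 := congrArg (gm (i₁ ≫ L.U.ι) (L.U ⊓ L.V) hUVi) hr
  rw [map_mul, map_pow, g1, g2, g1, map_one, map_add, map_one, map_mul, ← map_pow, ← map_mul] at e1
  have e2 := hinj e1
  -- the coordinate is not a unit
  have hτ : ¬ IsUnit (gm l L.V hV L.t) := by
    intro hu
    have hbo := Scheme.basicOpen_appLE l ⊤ L.V hV L.t
    have hu' : IsUnit ((l.appLE L.V ⊤ hV).hom L.t) := by
      have h5 := hu.map (Scheme.ΓSpecIso (CommRingCat.of R)).inv.hom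
      have h6 : (Scheme.ΓSpecIso (CommRingCat.of R)).inv.hom (gm l L.V hV L.t) =
          (l.appLE L.V ⊤ hV).hom L.t := by
        change ((Scheme.ΓSpecIso (CommRingCat.of R)).hom ≫
          (Scheme.ΓSpecIso (CommRingCat.of R)).inv) ((l.appLE L.V ⊤ hV).hom L.t) = _
        rw [Iso.hom_inv_id]
        rfl
      rwa [h6] at h5
    have hbo' : (Sp R).basicOpen ((l.appLE L.V ⊤ hV).hom L.t) = ⊤ := by
      simpa using Scheme.basicOpen_of_isUnit _ hu'
    have hmem : closedPoint R ∈ (Sp R).basicOpen ((l.appLE L.V ⊤ hV).hom L.t) := by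
      rw [hbo']
      exact TopologicalSpace.Opens.mem_top _
    rw [hbo] at hmem
    have hmem2 : l (closedPoint R) ∈ C.X.basicOpen L.t := hmem.2
    rw [L.bas] at hmem2
    exact hcon hmem2.1
  apply hτ
  refine IsUnit.of_mul_eq_one
    (gm l L.V hV L.t ^ n * ψ Polynomial.X - gm l L.V hV r) ?_
  have e3 : gm l L.V hV L.t ^ (n + 1) * ψ Polynomial.X = 1 + gm l L.V hV L.t * gm l L.V hV r := e2
  rw [pow_succ] at e3
  linear_combination e3

theorem existence (hp : IsProper C.π) (L : LC C) (n : ℕ) (x : Γ(C.X, L.U))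
    (hx : L.Pole (n + 1) 1 x) : ValuativeCriterion.Existence (xm L x) := by
  have hπ : ValuativeCriterion.Existence C.π := by
    have : UniversallyClosed C.π := inferInstance
    rw [UniversallyClosed.eq_valuativeCriterion] at this
    exact this.1
  intro S
  have hsq : CommSq (S.i₁ ≫ L.U.ι) (Spec.map (CommRingCat.ofHom (algebraMap S.R S.K))) C.π
      (S.i₂ ≫ spMap (Polynomial.C : A →+* Polynomial A)) := ⟨by
    rw [Category.assoc, ← xm_comp L x, ← Category.assoc, S.commSq.w, Category.assoc]⟩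
  obtain ⟨⟨l, hl1, hl2⟩⟩ := hπ { R := S.R, K := S.K, commSq := hsq, .. }
  obtain ⟨ψ, hψ⟩ := Spec.map_surjective S.i₂
  have hmem : ∀ y, l y ∈ L.U := by
    refine Two.forall_mem_of_closedPoint_mem l _ ?_
    refine closed_mem L n x hx (IsFractionRing.injective S.R S.K) l S.i₁ ψ.hom hl1 ?_
    rw [S.commSq.w, ← hψ]
    rfl
  have hr : Set.range l ⊆ Set.range L.U.ι := by
    rintro _ ⟨y, rfl⟩
    rw [Scheme.Opens.range_ι]
    exact hmem y
  have hfst : Spec.map (CommRingCat.ofHom (algebraMap S.R S.K)) ≫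
      IsOpenImmersion.lift L.U.ι l hr = S.i₁ := by
    rw [← cancel_mono L.U.ι, Category.assoc, IsOpenImmersion.lift_fac, hl1]
  refine ⟨⟨IsOpenImmersion.lift L.U.ι l hr, hfst, ?_⟩⟩
  apply Two.cancel_Spec_map (IsFractionRing.injective S.R S.K)
  rw [← Category.assoc, hfst]
  exact S.commSq.w

end FPR

open _root_.Pool.Agent.MG.WL.FPR in
theorem t_FPR : Stmt_FPR := by
  intro A _ C hp L n x hx
  have := hp
  have hc := xm_comp L x
  have h1 : LocallyOfFiniteType (xm L x ≫ spMap (Polynomial.C : A →+* Polynomial A)) := by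
    rw [hc]; infer_instance
  have h3 : IsSeparated (xm L x ≫ spMap (Polynomial.C : A →+* Polynomial A)) := by
    rw [hc]; infer_instance
  have h4 : LocallyOfFiniteType (xm L x) := locallyOfFiniteType_of_comp _
    (spMap (Polynomial.C : A →+* Polynomial A))
  have h6 : IsSeparated (xm L x) := IsSeparated.of_comp _
    (spMap (Polynomial.C : A →+* Polynomial A))
  have h5 : QuasiCompact (xm L x) :=
    (HasAffineProperty.iff_of_isAffine (P := @QuasiCompact) (f := xm L x)).2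
      (isCompact_iff_compactSpace.1 (compact_U hp L))
  have h7 : UniversallyClosed (xm L x) := UniversallyClosed.of_valuativeCriterion _
    (existence hp L n x hx)
  exact { }

end Pool.Agent.MG.WL


end

section

/-!
# FQF: a function with a pole at the section is quasi-finite over the affine line
-/

open CategoryTheory CategoryTheory.Limits AlgebraicGeometry TensorProduct

namespace Pool.Agent.MG.WL

open Pool.Agent.MG.W Pool.Agent.MG.One Pool.Agent.MG.GLU

namespace FQF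

/-! ### The points of the affine chart with given `x` -/

theorem finite_quot {K R : Type} [Field K] [CommRing R] [Algebra K R] (x y : R)
    (hgen : ∀ v : R, ∃ p q : Polynomial K, v = Polynomial.aeval x p + Polynomial.aeval x q * y)
    (d : K) (I : Ideal R) (hI : x - algebraMap K R d ∈ I) : Module.Finite K (R ⧸ I) := by
  classical
  have hx : Ideal.Quotient.mk I x = algebraMap K (R ⧸ I) d := by
    have h := Ideal.Quotient.eq_zero_iff_mem.2 hI
    rw [map_sub, sub_eq_zero] at h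
    exact h
  have hmk : (Ideal.Quotient.mk I).comp (algebraMap K R) = algebraMap K (R ⧸ I) := rfl
  have hp : ∀ p : Polynomial K, Ideal.Quotient.mk I (Polynomial.aeval x p) =
      algebraMap K (R ⧸ I) (p.eval d) := by
    intro p
    rw [Polynomial.aeval_def, Polynomial.hom_eval₂, hmk, hx, Polynomial.eval₂_at_apply]
  refine ⟨⟨{1, Ideal.Quotient.mk I y}, ?_⟩⟩
  rw [eq_top_iff]
  rintro w -
  obtain ⟨v, rfl⟩ := Ideal.Quotient.mk_surjective w
  obtain ⟨p, q, hv⟩ := hgen v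
  have e : Ideal.Quotient.mk I v = p.eval d • (1 : R ⧸ I) +
      q.eval d • Ideal.Quotient.mk I y := by
    rw [hv, map_add, map_mul, hp, hp, Algebra.smul_def, Algebra.smul_def, mul_one]
  rw [e]
  simp only [Finset.coe_insert, Finset.coe_singleton]
  exact Submodule.add_mem _
    (Submodule.smul_mem _ _ (Submodule.subset_span (Set.mem_insert _ _)))
    (Submodule.smul_mem _ _ (Submodule.subset_span (Set.mem_insert_of_mem _ rfl)))

/-- The points where `α x + β = c` are finitely many. -/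
theorem finite_locus {K R : Type} [Field K] [CommRing R] [Algebra K R] (x y : R)
    (hgen : ∀ v : R, ∃ p q : Polynomial K, v = Polynomial.aeval x p + Polynomial.aeval x q * y)
    (α β c : K) (hα : α ≠ 0) :
    (PrimeSpectrum.zeroLocus ({algebraMap K R α * x + algebraMap K R β -
      algebraMap K R c} : Set R)).Finite := by
  set z : R := algebraMap K R α * x + algebraMap K R β - algebraMap K R c with hz
  have hI : x - algebraMap K R ((c - β) / α) ∈ Ideal.span {z} := by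
    have e2 : algebraMap K R α * algebraMap K R α⁻¹ = 1 := by
      rw [← map_mul, mul_inv_cancel₀ hα, map_one]
    have e : x - algebraMap K R ((c - β) / α) = algebraMap K R α⁻¹ * z := by
      rw [hz, div_eq_mul_inv, map_mul, map_sub]
      linear_combination - x * e2
    rw [e]
    exact Ideal.mul_mem_left _ _ (Ideal.mem_span_singleton_self z)
  have hfin := finite_quot x y hgen _ _ hI
  have hart : IsArtinianRing (R ⧸ Ideal.span {z}) := IsArtinianRing.of_finite K _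
  have h1 : PrimeSpectrum.zeroLocus ({z} : Set R) =
      Set.range (PrimeSpectrum.comap (Ideal.Quotient.mk (Ideal.span {z}))) := by
    rw [range_comap_of_surjective _ _ Ideal.Quotient.mk_surjective,
      Ideal.mk_ker, PrimeSpectrum.zeroLocus_span]
  rw [h1]
  exact Set.finite_range _

theorem finite_pts {K : Type} [Field K] (a b α β c : K) (hα : α ≠ 0) :
    (PrimeSpectrum.zeroLocus ({algebraMap K (A1 K a b) α * x1 K a b + algebraMap K _ β -
      algebraMap K _ c} : Set (A1 K a b))).Finite :=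
  finite_locus (x1 K a b) (y1 K a b) (fun v => by
    obtain ⟨⟨p, q⟩, hv, -⟩ := (t_WRG K a b).1 v
    exact ⟨p, q, hv⟩) α β c hα

/-! ### The morphism to the affine line -/

section

variable {A : Type} [CommRing A] {C : Fam 1 A} (L : LC C) (x : Γ(C.X, L.U))

theorem xm_C : xm L x ≫ spMap (Polynomial.C : A →+* Polynomial A) = L.U.ι ≫ C.π := by
  have h1 : CommRingCat.ofHom (Polynomial.C : A →+* Polynomial A) ≫
      CommRingCat.ofHom (Polynomial.eval₂RingHom (coef C.π L.U) x) =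
      (Scheme.ΓSpecIso (.of A)).inv ≫ C.π.appTop ≫ C.X.presheaf.map (homOfLE le_top).op := by
    ext a
    exact Polynomial.eval₂_C _ _
  rw [xm, Category.assoc, ← Spec.map_comp, h1, Spec.map_comp, Spec.map_comp,
    Category.assoc, Scheme.Opens.toSpecΓ_SpecMap_presheaf_map_top_assoc,
    ← Scheme.toSpecΓ_naturality_assoc, ← SpecMap_ΓSpecIso_hom, ← Spec.map_comp]
  simp

theorem lft (h : IsProper C.π) : LocallyOfFiniteType (xm L x) := by
  have h1 : LocallyOfFiniteType (xm L x ≫ spMap (Polynomial.C : A →+* Polynomial A)) := by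
    rw [xm_C]
    have : LocallyOfFiniteType C.π := inferInstance
    infer_instance
  exact locallyOfFiniteType_of_comp (xm L x) (spMap (Polynomial.C : A →+* Polynomial A))

theorem le_of {R : Type} [CommRing R] (m : Sp R ⟶ (L.U : Scheme.{0})) :
    ⊤ ≤ (m ≫ L.U.ι) ⁻¹ᵁ L.U := fun p _ => (m p).2

theorem comp_toSpec {X : Scheme.{0}} (U : X.Opens) {R : Type} [CommRing R]
    (m : Sp R ⟶ (U : Scheme.{0})) (h : ⊤ ≤ (m ≫ U.ι) ⁻¹ᵁ U) :
    m ≫ U.toSpecΓ = spMap (gm (m ≫ U.ι) U h) := by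
  have e1 : (⊤ : (U : Scheme.{0}).Opens) ≤ U.ι ⁻¹ᵁ U := by
    rw [Scheme.Opens.ι_preimage_self]
  have h2 := Scheme.Hom.appLE_comp_appLE (U := U) (V := ⊤) (W := ⊤) (f := m)
    (g := U.ι) (e₁ := e1) (e₂ := le_top)
  have h3 : m.appLE ⊤ ⊤ le_top = m.appTop := Scheme.Hom.appLE_eq_app m
  have h4 : U.ι.appLE U ⊤ e1 = U.topIso.inv := by
    rw [Scheme.Opens.ι_appLE, Scheme.Opens.topIso_inv]; rfl
  have h5 : CommRingCat.ofHom (gm (m ≫ U.ι) U h) =
      U.topIso.inv ≫ m.appTop ≫ (Scheme.ΓSpecIso (CommRingCat.of R)).hom := by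
    rw [← h4, ← h3, ← Category.assoc, h2]
    rfl
  change _ = Spec.map (CommRingCat.ofHom (gm (m ≫ U.ι) U h))
  rw [h5, Spec.map_comp, Spec.map_comp, Scheme.Opens.toSpecΓ, ← Category.assoc,
    Scheme.toSpecΓ_naturality, SpecMap_ΓSpecIso_hom]

theorem comp_xm {R : Type} [CommRing R] (m : Sp R ⟶ (L.U : Scheme.{0})) :
    m ≫ xm L x = spMap ((gm (m ≫ L.U.ι) L.U (le_of L m)).comp
      (Polynomial.eval₂RingHom (coef C.π L.U) x)) := by
  rw [xm, ← Category.assoc, comp_toSpec]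
  exact (Spec.map_comp _ _).symm

theorem finite_fib (y : Γ(C.X, L.U)) (hG : AllGF L x y) (P : Sp (Polynomial A)) :
    (xm L x ⁻¹' {P}).Finite := by
  -- the geometric point
  let P' : PrimeSpectrum (Polynomial A) := P
  let K := AlgebraicClosure P'.asIdeal.ResidueField
  let θ : Polynomial A →+* K := algebraMap (Polynomial A) K
  have hθ : ∀ o : Sp K, spMap θ o = P := by
    intro o
    apply PrimeSpectrum.ext
    change Ideal.comap θ (o : PrimeSpectrum K).asIdeal = P'.asIdeal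
    have h1 : (o : PrimeSpectrum K).asIdeal = ⊥ :=
      (Ideal.eq_bot_or_top _).resolve_right (o : PrimeSpectrum K).isPrime.ne_top
    have h2 : θ = (algebraMap P'.asIdeal.ResidueField K).comp
        (algebraMap (Polynomial A) P'.asIdeal.ResidueField) :=
      IsScalarTower.algebraMap_eq _ _ _
    have h3 : RingHom.ker θ = P'.asIdeal := by
      refine Eq.trans ?_ (Ideal.ker_algebraMap_residueField P'.asIdeal)
      rw [h2]
      ext p
      rw [RingHom.mem_ker, RingHom.mem_ker, RingHom.comp_apply, map_eq_zero]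
    rw [h1]
    exact h3
  obtain ⟨G⟩ := hG K (θ.comp Polynomial.C)
  let Z := PrimeSpectrum.zeroLocus ({algebraMap K (A1 K G.a G.b) G.α * x1 K G.a G.b +
    algebraMap K _ G.β - algebraMap K _ (θ Polynomial.X)} : Set (A1 K G.a G.b))
  have hZ : Z.Finite := finite_pts G.a G.b G.α G.β (θ Polynomial.X) G.hα
  refine Set.Finite.of_finite_image (f := L.U.ι) ?_ L.U.ι.isOpenEmbedding.injective.injOn
  refine (hZ.image (fun v : Sp (A1 K G.a G.b) => G.e.f (WX.in1 K G.a G.b v))).subset ?_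
  rintro _ ⟨u, hu, rfl⟩
  have hu' : xm L x u = P := hu
  -- a common field
  obtain ⟨o⟩ : Nonempty (Sp K) := inferInstance
  obtain ⟨w, hw, -⟩ := Scheme.Pullback.exists_preimage_pullback (f := xm L x) (g := spMap θ) u o
    (hu'.trans (hθ o).symm)
  let F : Type := (pullback (xm L x) (spMap θ)).residueField w
  let i : Sp F ⟶ pullback (xm L x) (spMap θ) :=
    (pullback (xm L x) (spMap θ)).fromSpecResidueField w
  let m : Sp F ⟶ (L.U : Scheme.{0}) := i ≫ pullback.fst _ _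
  obtain ⟨ψ, hψ⟩ : ∃ ψ : K →+* F, spMap ψ = i ≫ pullback.snd _ _ :=
    ⟨(Spec.preimage (i ≫ pullback.snd _ _)).hom, Spec.map_preimage _⟩
  have h1 : m ≫ xm L x = spMap (ψ.comp θ) := by
    rw [Category.assoc, pullback.condition, ← Category.assoc, ← hψ]
    exact (Spec.map_comp _ _).symm
  have h3 : (gm (m ≫ L.U.ι) L.U (le_of L m)).comp
      (Polynomial.eval₂RingHom (coef C.π L.U) x) = ψ.comp θ :=
    congrArg CommRingCat.Hom.hom (Spec.map_injective ((comp_xm L x m).symm.trans h1))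
  have hx : gm (m ≫ L.U.ι) L.U (le_of L m) x = ψ (θ Polynomial.X) := by
    have := congrArg (fun f : Polynomial A →+* F => f Polynomial.X) h3
    simpa only [RingHom.comp_apply, Polynomial.coe_eval₂RingHom, Polynomial.eval₂_X] using this
  have h4 : (m ≫ L.U.ι) ≫ C.π = spMap ψ ≫ spMap (θ.comp Polynomial.C) := by
    rw [Category.assoc, ← xm_C L x, ← Category.assoc, h1]
    rw [← PBS.spMap_comp, ← PBS.spMap_comp]
  let ℓ := G.e.cart.lift (m ≫ L.U.ι) (spMap ψ) h4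
  have hℓ : ℓ ≫ G.e.f = m ≫ L.U.ι := G.e.cart.lift_fst _ _ _
  have hℓπ : ℓ ≫ (Wei (WZ G.a G.b)).π = spMap ψ := G.e.cart.lift_snd _ _ _
  have hr : Set.range ℓ ⊆ Set.range (WX.in1 K G.a G.b) := by
    rintro _ ⟨p, rfl⟩
    have h5 : ℓ p ∈ G.e.f ⁻¹ᵁ L.U := by
      change G.e.f (ℓ p) ∈ L.U
      have h6 : G.e.f (ℓ p) = (m ≫ L.U.ι) p := by rw [← Scheme.Hom.comp_apply, hℓ]
      rw [h6]
      exact (m p).2
    rw [G.rng] at h5
    exact h5
  let ℓ' : Sp F ⟶ Sp (A1 K G.a G.b) := IsOpenImmersion.lift (WX.in1 K G.a G.b) ℓ hr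
  have hℓ' : ℓ' ≫ WX.in1 K G.a G.b = ℓ := IsOpenImmersion.lift_fac _ _ _
  obtain ⟨h, hh⟩ : ∃ h : A1 K G.a G.b →+* F, spMap h = ℓ' :=
    ⟨(Spec.preimage ℓ').hom, Spec.map_preimage _⟩
  have h5 : m ≫ L.U.ι = spMap h ≫ (WX.in1 K G.a G.b ≫ G.e.f) := by
    rw [← hℓ, ← hℓ', ← hh]
    exact Category.assoc _ _ _
  have h6 : ∀ d : K, h (algebraMap K _ d) = ψ d := by
    have e1 : spMap (h.comp (algebraMap K (A1 K G.a G.b))) = spMap ψ := by
      rw [← hℓπ, ← hℓ', ← hh, PBS.spMap_comp, ← WX.in1_pr]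
      exact (Category.assoc _ _ _).symm
    have e2 : h.comp (algebraMap K (A1 K G.a G.b)) = ψ :=
      congrArg CommRingCat.Hom.hom (Spec.map_injective e1)
    exact fun d => congrArg (fun f : K →+* F => f d) e2
  have h7 := gm_comp (WX.in1 K G.a G.b ≫ G.e.f) h (m ≫ L.U.ι) h5 L.U G.le (le_of L m) x
  rw [G.hx, map_add, map_mul, h6, h6, hx] at h7
  obtain ⟨o'⟩ : Nonempty (Sp F) := inferInstance
  refine ⟨spMap h o', ?_, ?_⟩
  · refine (PrimeSpectrum.mem_zeroLocus _ _).2 (Set.singleton_subset_iff.2 ?_)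
    change h _ ∈ (o' : PrimeSpectrum F).asIdeal
    rw [map_sub, map_add, map_mul, h6, h6, h6, ← h7, sub_self]
    exact Ideal.zero_mem _
  · change G.e.f (WX.in1 K G.a G.b (spMap h o')) = L.U.ι u
    have e1 : G.e.f (WX.in1 K G.a G.b (spMap h o')) =
        (spMap h ≫ (WX.in1 K G.a G.b ≫ G.e.f)) o' := rfl
    rw [e1, ← h5, Scheme.Hom.comp_apply, Scheme.Hom.comp_apply]
    congr 1
    rw [← hw]
    congr 1
    exact Scheme.fromSpecResidueField_apply w o'

end

end FQF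

theorem t_FQF : Stmt_FQF := by
  intro A _ C hC L x y hG
  have := FQF.lft L x hC
  exact LocallyQuasiFinite.of_finite_preimage_singleton _ (FQF.finite_fib L x y hG)

end Pool.Agent.MG.WL


end

section

/-!
# FSP: the functions on `U` are generated by `1` and `y` over `A[x]`
-/

set_option autoImplicit false

open CategoryTheory CategoryTheory.Limits AlgebraicGeometry TensorProduct

namespace Pool.Agent.MG.WL

open Pool.Agent.MG.W Pool.Agent.MG.One Pool.Agent.MG.GLU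

namespace FSP

/-- A proper submodule of a finite module is contained in the kernel of a nonzero functional with
values in a residue field. -/
theorem exists_functional {S R : Type} [CommRing S] [CommRing R] [Algebra S R]
    [Module.Finite S R] (N : Submodule S R) (hN : N ≠ ⊤) :
    ∃ (m : Ideal S) (_ : m.IsMaximal) (l : R →ₗ[S] (S ⧸ m)), (∀ r ∈ N, l r = 0) ∧
      ∃ r, l r ≠ 0 := by
  classical
  have hnt : Nontrivial (R ⧸ N) := Submodule.Quotient.nontrivial_iff.2 hN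
  have hfin : Module.Finite S (R ⧸ N) := Module.Finite.of_surjective N.mkQ N.mkQ_surjective
  have hann : Module.annihilator S (R ⧸ N) ≠ ⊤ := by
    intro h
    have h1 : (1 : S) ∈ Module.annihilator S (R ⧸ N) := by rw [h]; trivial
    obtain ⟨v, w, hvw⟩ := hnt.exists_pair_ne
    apply hvw
    have h2 := Module.mem_annihilator.1 h1
    rw [← one_smul S v, ← one_smul S w, h2 v, h2 w]
  obtain ⟨m, hm, hle⟩ := Ideal.exists_le_maximal _ hann
  have hne : (m • ⊤ : Submodule S (R ⧸ N)) ≠ ⊤ := by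
    intro h
    obtain ⟨r, hr1, hr⟩ := Submodule.exists_sub_one_mem_and_smul_eq_zero_of_fg_of_le_smul m
      (⊤ : Submodule S (R ⧸ N)) hfin.fg_top h.ge
    have h3 : r ∈ m := hle (Module.mem_annihilator.2 fun v => hr v trivial)
    apply hm.ne_top
    rw [Ideal.eq_top_iff_one]
    have h4 := m.sub_mem h3 hr1
    rwa [sub_sub_cancel] at h4
  obtain ⟨v, hv⟩ : ∃ v : R ⧸ N, v ∉ (m • ⊤ : Submodule S (R ⧸ N)) := by
    by_contra hc
    push Not at hc
    exact hne (eq_top_iff.2 fun v _ => hc v)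
  let _ := Ideal.Quotient.field m
  have hv' : ((m • ⊤ : Submodule S (R ⧸ N)).mkQ v) ≠ 0 := by
    intro h
    exact hv ((Submodule.Quotient.mk_eq_zero _).1 h)
  obtain ⟨f, hf⟩ : ∃ f : Module.Dual (S ⧸ m) ((R ⧸ N) ⧸ (m • ⊤ : Submodule S (R ⧸ N))),
      f ((m • ⊤ : Submodule S (R ⧸ N)).mkQ v) ≠ 0 := by
    by_contra hc
    push Not at hc
    exact hv' ((Module.forall_dual_apply_eq_zero_iff (S ⧸ m) _).1 hc)
  obtain ⟨r, rfl⟩ := N.mkQ_surjective v
  refine ⟨m, hm, (f.restrictScalars S).comp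
    ((m • ⊤ : Submodule S (R ⧸ N)).mkQ.comp N.mkQ), ?_, r, hf⟩
  intro r hr
  have h5 : N.mkQ r = 0 := (Submodule.Quotient.mk_eq_zero _).2 hr
  rw [LinearMap.comp_apply, LinearMap.comp_apply, h5, map_zero, map_zero]

/-- Change of the coordinates of a Weierstrass curve. -/
theorem change {K R1 : Type} [Field K] [CommRing R1] [Algebra K R1] (x1 y1 X Y : R1)
    (α β γ δ ε : K) (hα : α ≠ 0) (hγ : γ ≠ 0)
    (hX : X = algebraMap K R1 α * x1 + algebraMap K R1 β)
    (hY : Y = algebraMap K R1 γ * y1 + algebraMap K R1 δ * x1 + algebraMap K R1 ε)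
    (p q : Polynomial K) : ∃ p' q' : Polynomial K,
      Polynomial.aeval x1 p + Polynomial.aeval x1 q * y1 =
        Polynomial.aeval X p' + Polynomial.aeval X q' * Y := by
  obtain ⟨l, hl⟩ : ∃ l : Polynomial K, Polynomial.aeval X l = x1 := by
    refine ⟨Polynomial.C α⁻¹ * (Polynomial.X - Polynomial.C β), ?_⟩
    rw [map_mul, map_sub, Polynomial.aeval_C, Polynomial.aeval_X, Polynomial.aeval_C, hX,
      add_sub_cancel_right, ← mul_assoc, ← map_mul, inv_mul_cancel₀ hα, map_one, one_mul]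
  obtain ⟨w, hw⟩ : ∃ w : Polynomial K, y1 = algebraMap K R1 γ⁻¹ * Y - Polynomial.aeval X w := by
    refine ⟨Polynomial.C γ⁻¹ * (Polynomial.C δ * l + Polynomial.C ε), ?_⟩
    rw [map_mul, map_add, map_mul, Polynomial.aeval_C, Polynomial.aeval_C, Polynomial.aeval_C,
      hl, hY]
    have h3 : algebraMap K R1 γ⁻¹ * algebraMap K R1 γ = 1 := by
      rw [← map_mul, inv_mul_cancel₀ hγ, map_one]
    linear_combination (-y1) * h3
  refine ⟨p.comp l - q.comp l * w, Polynomial.C γ⁻¹ * q.comp l, ?_⟩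
  rw [map_sub, map_mul, map_mul, Polynomial.aeval_comp, Polynomial.aeval_comp, hl,
    Polynomial.aeval_C]
  linear_combination (Polynomial.aeval x1 q) * hw

/-- The algebraic part: a functional which vanishes on `1` and `y` is zero. -/
theorem main {A R K R1 : Type} [CommRing A] [CommRing R] [Field K] [CommRing R1] [Algebra K R1]
    (f : A →+* R) (s : A →+* K) (x y : R) (ψ : R →+* R1)
    (hT : letI := s.toAlgebra
      letI := f.toAlgebra
      ∃ Θ : K ⊗[A] R →+* R1, Function.Injective Θ ∧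
        ∀ b r, Θ (b ⊗ₜ r) = algebraMap K R1 b * ψ r)
    (r : R) (p q : Polynomial K)
    (hr : ψ r = Polynomial.aeval (ψ x) p + Polynomial.aeval (ψ x) q * ψ y)
    (l : R →+ K) (hl : ∀ a r, l (f a * r) = s a * l r) (h1 : ∀ i : ℕ, l (x ^ i) = 0)
    (h2 : ∀ i : ℕ, l (x ^ i * y) = 0) : l r = 0 := by
  let _ := s.toAlgebra
  let _ := f.toAlgebra
  obtain ⟨Θ, hΘ, hv⟩ := hT
  let L : K ⊗[A] R →+ K := TensorProduct.liftAddHom
    ((AddMonoidHom.mul : K →+ K →+ K).compl₂ l) (by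
      intro a b r
      show (a • b) * l r = b * l (a • r)
      have h3 : l (a • r) = s a * l r := hl a r
      rw [h3]
      show (s a * b) * l r = b * (s a * l r)
      ring)
  have hL : ∀ b r, L (b ⊗ₜ r) = b * l r := fun b r => rfl
  have key : (1 : K) ⊗ₜ[A] r = ∑ i ∈ Finset.range (p.natDegree + 1), (p.coeff i) ⊗ₜ[A] (x ^ i) +
      ∑ i ∈ Finset.range (q.natDegree + 1), (q.coeff i) ⊗ₜ[A] (x ^ i * y) := by
    apply hΘ
    rw [hv, map_one, one_mul, hr, map_add, map_sum, map_sum,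
      Polynomial.aeval_eq_sum_range, Polynomial.aeval_eq_sum_range, Finset.sum_mul]
    congr 1
    · refine Finset.sum_congr rfl fun i _ => ?_
      rw [hv, map_pow, Algebra.smul_def]
    · refine Finset.sum_congr rfl fun i _ => ?_
      rw [hv, map_mul, map_pow, Algebra.smul_def, mul_assoc]
  have h4 := congrArg L key
  rw [hL, one_mul, map_add, map_sum, map_sum] at h4
  rw [h4, Finset.sum_eq_zero, Finset.sum_eq_zero, add_zero]
  · intro i _
    rw [hL, h2, mul_zero]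
  · intro i _
    rw [hL, h1, mul_zero]

/-- A functional with values in `K` which vanishes on `1` and `y` is zero. -/
theorem core {A : Type} [CommRing A] {C : Fam 1 A} (L : LC C) (x y : Γ(C.X, L.U))
    (hU : IsAffineOpen L.U) {K : Type} [Field K] (s : A →+* K) (G : GF L x y s)
    (r0 : Γ(C.X, L.U)) (l : Γ(C.X, L.U) →+ K)
    (hl : ∀ a r, l (coef C.π L.U a * r) = s a * l r) (h1 : ∀ i : ℕ, l (x ^ i) = 0)
    (h2 : ∀ i : ℕ, l (x ^ i * y) = 0) : l r0 = 0 := by
  have hW : (WX.in1 K G.a G.b).opensRange = G.e.f ⁻¹ᵁ L.U := G.rng.symm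
  have hle : ⊤ ≤ (WX.in1 K G.a G.b) ⁻¹ᵁ (G.e.f ⁻¹ᵁ L.U) := G.le
  have hbij := gm_bij (WX.in1 K G.a G.b) (G.e.f ⁻¹ᵁ L.U) hle hW
  obtain ⟨T, hT⟩ := tp_affine G.e hU
  let ψ : Γ(C.X, L.U) →+* A1 K G.a G.b := gm (WX.in1 K G.a G.b ≫ G.e.f) L.U G.le
  have hψ : ∀ v, gm (WX.in1 K G.a G.b) (G.e.f ⁻¹ᵁ L.U) hle
      ((G.e.f.appLE L.U (G.e.f ⁻¹ᵁ L.U) le_rfl).hom v) = ψ v := by
    intro v
    have h3 := gm_nat G.e.f (WX.in1 K G.a G.b ≫ G.e.f) (WX.in1 K G.a G.b) (RingHom.id _)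
      (by
        have h4 : spMap (RingHom.id (A1 K G.a G.b)) = 𝟙 _ := Spec.map_id _
        rw [h4, Category.id_comp]
        rfl) L.U (G.e.f ⁻¹ᵁ L.U) G.le hle le_rfl v
    exact h3
  have hco : ∀ b : K, gm (WX.in1 K G.a G.b) (G.e.f ⁻¹ᵁ L.U) hle
      (coef (Wei (WZ G.a G.b)).π (G.e.f ⁻¹ᵁ L.U) b) = algebraMap K _ b :=
    gm_coef (WX.in1 K G.a G.b) (Wei (WZ G.a G.b)).π (algebraMap K _) (WX.in1_pr K G.a G.b) _ hle
  obtain ⟨⟨p, q⟩, hpq, -⟩ := t_WRG K G.a G.b |>.1 (ψ r0)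
  obtain ⟨p', q', hpq'⟩ := FSP.change (x1 K G.a G.b) (y1 K G.a G.b) (ψ x) (ψ y) G.α G.β G.γ
    G.δ G.ε G.hα G.hγ G.hx G.hy p q
  refine FSP.main (coef C.π L.U) s x y ψ
    ⟨(gm (WX.in1 K G.a G.b) (G.e.f ⁻¹ᵁ L.U) hle).comp T.toRingHom,
      hbij.1.comp T.injective, fun b r => ?_⟩ r0 p' q' (hpq.trans hpq') l hl h1 h2
  exact ((congrArg (gm (WX.in1 K G.a G.b) (G.e.f ⁻¹ᵁ L.U) hle) (hT b r)).trans
    (map_mul (gm (WX.in1 K G.a G.b) (G.e.f ⁻¹ᵁ L.U) hle) _ _)).trans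
      (congrArg₂ (· * ·) (hco b) (hψ r))

end FSP

theorem t_FSP : Stmt_FSP := by
  intro A _ C L x y hG hU hfin r
  let φ : Polynomial A →+* Γ(C.X, L.U) := Polynomial.eval₂RingHom (coef C.π L.U) x
  let _ : Algebra (Polynomial A) Γ(C.X, L.U) := φ.toAlgebra
  have hmf : Module.Finite (Polynomial A) Γ(C.X, L.U) := hfin
  have hsm : ∀ (p : Polynomial A) (r : Γ(C.X, L.U)), p • r = φ p * r := fun p r => rfl
  have htop : Submodule.span (Polynomial A) {(1 : Γ(C.X, L.U)), y} = ⊤ := by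
    by_contra hne
    obtain ⟨m, hm, l, hl, r0, hr0⟩ := FSP.exists_functional _ hne
    let _ := Ideal.Quotient.field m
    let ι : (Polynomial A ⧸ m) →+* AlgebraicClosure (Polynomial A ⧸ m) := algebraMap _ _
    obtain ⟨G⟩ := hG (AlgebraicClosure (Polynomial A ⧸ m))
      (ι.comp ((Ideal.Quotient.mk m).comp Polynomial.C))
    have hlsm : ∀ (p : Polynomial A) (r : Γ(C.X, L.U)),
        l (φ p * r) = Ideal.Quotient.mk m p * l r := by
      intro p r
      rw [← hsm, map_smul]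
      rfl
    have hX : ∀ i : ℕ, x ^ i = φ (Polynomial.X ^ i) := by
      intro i
      rw [map_pow]
      congr 1
      exact (Polynomial.eval₂_X _ _).symm
    have h8 : ι (l r0) = 0 := by
      refine FSP.core L x y hU _ G r0 (ι.toAddMonoidHom.comp l.toAddMonoidHom) ?_ ?_ ?_
      · intro a r
        show ι (l (coef C.π L.U a * r)) = ι (Ideal.Quotient.mk m (Polynomial.C a)) * ι (l r)
        have h7 : coef C.π L.U a = φ (Polynomial.C a) := (Polynomial.eval₂_C _ _).symm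
        rw [h7, hlsm, map_mul ι]
      · intro i
        show ι (l (x ^ i)) = 0
        rw [hX, ← mul_one (φ _), hlsm, hl 1 (Submodule.subset_span (Set.mem_insert _ _)),
          mul_zero, map_zero]
      · intro i
        show ι (l (x ^ i * y)) = 0
        rw [hX, hlsm, hl y (Submodule.subset_span (Set.mem_insert_of_mem _ rfl)), mul_zero,
          map_zero]
    exact hr0 (ι.injective (h8.trans (map_zero ι).symm))
  have h9 : r ∈ Submodule.span (Polynomial A) {(1 : Γ(C.X, L.U)), y} := by rw [htop]; trivial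
  obtain ⟨p, q, hpq⟩ := Submodule.mem_span_pair.1 h9
  refine ⟨p, q, ?_⟩
  rw [← hpq, hsm, hsm, mul_one]
  rfl

end Pool.Agent.MG.WL


end
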