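import Mathlib
import Pool.Agent.KDM.C02
import Pool.Agent.KDM.C08
import Pool.Agent.KDM.C11
import Pool.Agent.KDM.C13
import Pool.Agent.KDM.C22
import Pool.Agent.KDM.C24

/-! Parts: MG.G0.KBT, MG.G0.KFO, MG.KX.KST, MG.G0.StmtsV, MG.G0.CNT, MG.G0.DIT, MG.G0.UIN, MG.G0.UM0, MG.G0.UVK, MG.G0.UVL -/

section

/-!
# KBT: the base change of a Krichever ring is the tensor product
-/

open TensorProduct

namespace Pool.Agent.MG.G0

namespace KBT

section

variable {I A B : Type} [Fintype I] [CommRing A] [CommRing B]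

theorem dense {g : ℕ} {P : Subalgebra A (KK I A)} (h : IsKr g P) : ∃ N : ℕ, Dense P N := by
  obtain ⟨L, hL, hk⟩ := h.k2
  choose v hv using fun j : Fin g => hL (Pi.single j 1)
  choose n hn using fun j => exists_Pol (v j)
  refine ⟨Finset.univ.sup n, fun f => ?_⟩
  obtain ⟨p, hp, hfp⟩ := (hk (f - ∑ j, L f j • v j)).1 (by
    rw [map_sub, map_sum]
    simp_rw [map_smul, hv]
    funext i
    simp [Finset.sum_apply, Pi.single_apply])
  refine ⟨p, hp, ?_⟩
  have e : f - p = (f - ∑ j, L f j • v j - p) + ∑ j, L f j • v j := by abel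
  rw [e]
  refine add_mem (Pol_mono (Int.natCast_nonneg _) hfp) (Submodule.sum_mem _ fun j _ =>
    Submodule.smul_mem _ _ (Pol_mono ?_ (hn j)))
  exact_mod_cast Finset.le_sup (f := n) (Finset.mem_univ j)

variable [Algebra A B]

omit [Fintype I] in
theorem coeff_sum_kmap {m : ℕ} (b : Fin m → B) (p : Fin m → KK I A) (i : I) (l : ℤ) :
    ((∑ k, b k • kmap (algebraMap A B) (p k)) i).coeff l =
      ∑ k, b k * algebraMap A B ((p k i).coeff l) := by
  rw [Finset.sum_apply, HahnSeries.coeff_sum]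
  refine Finset.sum_congr rfl fun k _ => ?_
  rw [Pi.smul_apply, HahnSeries.coeff_smul, kmap_apply, lmap_coeff, smul_eq_mul]

theorem inj [Nonempty I] {P : Subalgebra A (KK I A)} (s : KK I A →ₗ[A] KK I A)
    (hs : IsSec P s) (m : ℕ) (b : Fin m → B) (p : Fin m → P)
    (h0 : ∑ k, b k • kmap (algebraMap A B) (p k : KK I A) = 0) : ∑ k, b k ⊗ₜ[A] p k = 0 := by
  classical
  choose n' hn' using fun k => exists_Pol (p k : KK I A)
  obtain ⟨n, hn⟩ : ∃ n : ℕ, ∀ k, (p k : KK I A) ∈ Pol I A n := by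
    refine ⟨Finset.univ.sup n', fun k => Pol_mono ?_ (hn' k)⟩
    exact_mod_cast Finset.le_sup (f := n') (Finset.mem_univ k)
  choose a ha using fun k => hs.eq (p k : KK I A) (p k).2
  let σ : I → ℤ → P := fun i l => ⟨s (mon i l 1), hs.mem _⟩
  -- the elements of `P` modulo constants
  have h1 : ∀ k, p k + algebraMap A P (a k) =
      ∑ i, ∑ l ∈ Finset.Ico (-(n : ℤ)) 0, (((p k : KK I A) i).coeff l) • σ i l := by
    intro k
    apply Subtype.ext
    have e1 : ((∑ i, ∑ l ∈ Finset.Ico (-(n : ℤ)) 0, (((p k : KK I A) i).coeff l) • σ i l : P) :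
        KK I A) = ∑ i, ∑ l ∈ Finset.Ico (-(n : ℤ)) 0, s (mon i l (((p k : KK I A) i).coeff l)) := by
      rw [AddSubmonoidClass.coe_finsetSum]
      refine Finset.sum_congr rfl fun i _ => ?_
      rw [AddSubmonoidClass.coe_finsetSum]
      refine Finset.sum_congr rfl fun l _ => ?_
      rw [Subalgebra.coe_smul]
      change (((p k : KK I A) i).coeff l) • s (mon i l 1) = _
      rw [← map_smul, smul_mon, mul_one]
    rw [e1]
    have e2 := hs.zero _ (sub_mon_mem_Pol (hn k) 0)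
    rw [map_sub, map_sum, sub_eq_zero] at e2
    change (p k : KK I A) + algebraMap A (KK I A) (a k) = _
    rw [← ha k, e2]
    exact Finset.sum_congr rfl fun i _ => map_sum _ _ _
  -- the polar parts
  have h2 : ∀ (i : I) (l : ℤ), ∑ k, b k * algebraMap A B (((p k : KK I A) i).coeff l) = 0 := by
    intro i l
    rw [← coeff_sum_kmap b (fun k => (p k : KK I A)) i l, h0]
    rfl
  have h3 : ∑ k, b k ⊗ₜ[A] (p k + algebraMap A P (a k)) = 0 := by
    have e1 : ∀ k, b k ⊗ₜ[A] (p k + algebraMap A P (a k)) =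
        ∑ i, ∑ l ∈ Finset.Ico (-(n : ℤ)) 0,
          (b k * algebraMap A B (((p k : KK I A) i).coeff l)) ⊗ₜ[A] σ i l := by
      intro k
      rw [h1 k, TensorProduct.tmul_sum]
      refine Finset.sum_congr rfl fun i _ => ?_
      rw [TensorProduct.tmul_sum]
      refine Finset.sum_congr rfl fun l _ => ?_
      rw [TensorProduct.tmul_smul, TensorProduct.smul_tmul', Algebra.smul_def, mul_comm]
    rw [Finset.sum_congr rfl fun k _ => e1 k, Finset.sum_comm]
    refine Finset.sum_eq_zero fun i _ => ?_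
    rw [Finset.sum_comm]
    refine Finset.sum_eq_zero fun l _ => ?_
    rw [← TensorProduct.sum_tmul, h2, TensorProduct.zero_tmul]
  -- the constants
  have h4 : ∑ k, b k * algebraMap A B (a k) = 0 := by
    obtain ⟨i⟩ := ‹Nonempty I›
    -- the image of `h3` in the series
    have e1 : ∀ k, s (p k : KK I A) = (p k : KK I A) + algebraMap A (KK I A) (a k) := ha
    have e2 : ∑ k, b k • kmap (algebraMap A B) (s (p k : KK I A)) = 0 := by
      have e3 : ∀ k, b k • kmap (algebraMap A B) (s (p k : KK I A)) =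
          ∑ i, ∑ l ∈ Finset.Ico (-(n : ℤ)) 0,
            (b k * algebraMap A B (((p k : KK I A) i).coeff l)) •
              kmap (algebraMap A B) (σ i l : KK I A) := by
        intro k
        have e4 := congrArg (fun x : P => (x : KK I A)) (h1 k)
        change (p k : KK I A) + algebraMap A (KK I A) (a k) = _ at e4
        rw [e1, e4, AddSubmonoidClass.coe_finsetSum, map_sum, Finset.smul_sum]
        refine Finset.sum_congr rfl fun i _ => ?_
        rw [AddSubmonoidClass.coe_finsetSum, map_sum, Finset.smul_sum]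
        refine Finset.sum_congr rfl fun l _ => ?_
        rw [Subalgebra.coe_smul, kmap_smul, smul_smul]
      rw [Finset.sum_congr rfl fun k _ => e3 k, Finset.sum_comm]
      refine Finset.sum_eq_zero fun i _ => ?_
      rw [Finset.sum_comm]
      refine Finset.sum_eq_zero fun l _ => ?_
      rw [← Finset.sum_smul, h2, zero_smul]
    have e5 : ∑ k, b k • kmap (algebraMap A B) (algebraMap A (KK I A) (a k)) = 0 := by
      have : ∑ k, b k • kmap (algebraMap A B) (s (p k : KK I A)) =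
          ∑ k, b k • kmap (algebraMap A B) (p k : KK I A) +
            ∑ k, b k • kmap (algebraMap A B) (algebraMap A (KK I A) (a k)) := by
        rw [← Finset.sum_add_distrib]
        refine Finset.sum_congr rfl fun k _ => ?_
        rw [e1, map_add, smul_add]
      rw [e2, h0, zero_add] at this
      exact this.symm
    have e6 := coeff_sum_kmap b (fun k => algebraMap A (KK I A) (a k)) i 0
    rw [e5] at e6
    have e7 : ∀ k, ((algebraMap A (KK I A) (a k)) i).coeff 0 = a k := fun k => by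
      rw [Pi.algebraMap_apply, coeff_algebraMap, if_pos rfl]
    simp only [e7] at e6
    rw [← e6]
    rfl
  have h5 : ∑ k, b k ⊗ₜ[A] algebraMap A P (a k) = 0 := by
    have e1 : ∀ k, b k ⊗ₜ[A] algebraMap A P (a k) =
        (b k * algebraMap A B (a k)) ⊗ₜ[A] (1 : P) := by
      intro k
      rw [Algebra.algebraMap_eq_smul_one, TensorProduct.tmul_smul, TensorProduct.smul_tmul',
        Algebra.smul_def, mul_comm]
    rw [Finset.sum_congr rfl fun k _ => e1 k, ← TensorProduct.sum_tmul, h4,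
      TensorProduct.zero_tmul]
  have h6 : ∑ k, b k ⊗ₜ[A] (p k + algebraMap A P (a k)) =
      ∑ k, b k ⊗ₜ[A] p k + ∑ k, b k ⊗ₜ[A] algebraMap A P (a k) := by
    rw [← Finset.sum_add_distrib]
    exact Finset.sum_congr rfl fun k _ => TensorProduct.tmul_add _ _ _
  rw [h3, h5, add_zero] at h6
  exact h6.symm

/-- The homomorphism from a tensor product. -/
theorem exists_lift {A B C P : Type} [CommRing A] [CommRing B] [CommRing C] [CommRing P]
    [Algebra A B] [Algebra A P] [Algebra B C] (g : P →+* C)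
    (hg : ∀ a, g (algebraMap A P a) = algebraMap B C (algebraMap A B a)) :
    ∃ f : (B ⊗[A] P) →ₐ[B] C, ∀ (b : B) (p : P), f (b ⊗ₜ p) = b • g p := by
  let _ : Algebra A C := ((algebraMap B C).comp (algebraMap A B)).toAlgebra
  have : IsScalarTower A B C := IsScalarTower.of_algebraMap_eq' rfl
  let g' : P →ₐ[A] C := { g with commutes' := hg }
  refine ⟨Algebra.TensorProduct.lift (Algebra.ofId B C) g' fun _ _ => mul_comm _ _, ?_⟩
  intro b p
  rw [Algebra.TensorProduct.lift_tmul, Algebra.smul_def]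
  rfl

omit [Fintype I] in
/-- The homomorphism to the series. -/
theorem exists_hom (P : Subalgebra A (KK I A)) :
    ∃ f : (B ⊗[A] P) →ₐ[B] KK I B,
      ∀ (b : B) (p : P), f (b ⊗ₜ p) = b • kmap (algebraMap A B) (p : KK I A) :=
  exists_lift ((kmap (algebraMap A B)).comp P.val.toRingHom)
    fun a => kmap_algebraMap (algebraMap A B) a

end

end KBT

theorem t_KBT (hKSP : Stmt_KSP) (hKBC : Stmt_KBC) : Stmt_KBT := by
  intro I A B _ _ _ _ _ g P hP
  obtain ⟨N, hN⟩ := KBT.dense hP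
  obtain ⟨s, hs, -⟩ := ((hKSP hP).2 N hN).1
  have hinj := KBT.inj (B := B) s hs
  refine ⟨hinj, ?_⟩
  obtain ⟨f, hf⟩ := KBT.exists_hom (B := B) P
  have hmem : ∀ x, f x ∈ bc (algebraMap A B) P := by
    intro x
    induction x using TensorProduct.induction_on with
    | zero => rw [map_zero]; exact zero_mem _
    | tmul b p =>
      rw [hf]
      exact Subalgebra.smul_mem _ (kmap_mem_bc _ p.2) b
    | add x y hx hy => rw [map_add]; exact add_mem hx hy
  let f' : (B ⊗[A] P) →ₐ[B] bc (algebraMap A B) P := f.codRestrict _ hmem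
  have h1 : Function.Injective f' := by
    rw [injective_iff_map_eq_zero]
    intro x hx
    have hx' : f x = 0 := congrArg (fun z : bc (algebraMap A B) P => (z : KK I B)) hx
    obtain ⟨m, b, p, rfl⟩ : ∃ (m : ℕ) (b : Fin m → B) (p : Fin m → P),
        x = ∑ k, b k ⊗ₜ[A] p k := TensorProduct.exists_sum_tmul_eq x
    apply hinj
    rw [map_sum] at hx'
    rw [← hx']
    exact Finset.sum_congr rfl fun k _ => (hf _ _).symm
  have h2 : Function.Surjective f' := by
    rintro ⟨y, hy⟩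
    have hy' : y ∈ Submodule.span B (kmap (algebraMap A B) '' (P : Set (KK I A))) := by
      rw [← hKBC.1 (algebraMap A B) P]
      exact hy
    have h3 : ∃ x, f x = y := by
      refine Submodule.span_induction ?_ ?_ ?_ ?_ hy'
      · rintro _ ⟨p, hp, rfl⟩
        exact ⟨1 ⊗ₜ ⟨p, hp⟩, by rw [hf, one_smul]⟩
      · exact ⟨0, map_zero f⟩
      · rintro _ _ _ _ ⟨x, rfl⟩ ⟨x', rfl⟩
        exact ⟨x + x', map_add f _ _⟩
      · rintro c _ _ ⟨x, rfl⟩
        exact ⟨c • x, map_smul f _ _⟩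
    obtain ⟨x, hx⟩ := h3
    exact ⟨x, Subtype.ext hx⟩
  exact ⟨AlgEquiv.ofBijective f' ⟨h1, h2⟩, fun b p => hf b p⟩

end Pool.Agent.MG.G0


end

section

/-!
# Regular differentials (PAPER.md, K3)
-/

namespace Pool.Agent.MG.G0

namespace KFO

variable {I A : Type} [CommRing A] [Fintype I]

/-- Multiplication by a series followed by the residue, as a linear map. -/
noncomputable def rm (η : KK I A) : KK I A →ₗ[A] A where
  toFun f := res (η * f)
  map_add' f g := by rw [mul_add, map_add]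
  map_smul' a f := by rw [mul_smul_comm, map_smul, RingHom.id_apply]

theorem rm_apply (η f : KK I A) : rm η f = res (η * f) := rfl

theorem res_mul0 {η f : KK I A} (hη : η ∈ Pol I A 0) (hf : f ∈ Pol I A 0) : res (η * f) = 0 :=
  res_Pol0 (mul_mem_Pol0 hη hf)

theorem forms_res {g : ℕ} {P : Subalgebra A (KK I A)} {ω : Fin g → KK I A} (h : IsForms P ω)
    (j : Fin g) {p : KK I A} (hp : p ∈ P) : res (ω j * p) = 0 := by
  refine (h.ker p).2 ⟨p, hp, ?_⟩ j
  rw [sub_self]
  exact (Pol I A 0).zero_mem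

theorem unique0 (hKDU : Stmt_KDU) {η η' : KK I A} (h : η ∈ Pol I A 0) (h' : η' ∈ Pol I A 0)
    (he : ∀ f, res (η * f) = res (η' * f)) : η = η' := by
  obtain ⟨x, -, hx⟩ := hKDU (I := I) (A := A) 0 (rm η) (fun f hf => by
    rw [neg_zero] at hf
    exact res_mul0 h hf)
  have h1 := hx η ⟨h, fun f => rfl⟩
  have h2 := hx η' ⟨h', fun f => he f⟩
  rw [h1, h2]

end KFO

open _root_.Pool.Agent.MG.G0.KFO in
theorem t_KFO (hKDU : Stmt_KDU) : Stmt_KFO := by
  intro I A _ _ g P hP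
  refine ⟨?_, ?_⟩
  · obtain ⟨L, hL, hk⟩ := hP.k2
    have h1 : ∀ j : Fin g, ∀ f ∈ Pol I A (-0), ((LinearMap.proj j).comp L : KK I A →ₗ[A] A) f = 0 := by
      intro j f hf
      rw [neg_zero] at hf
      have : L f = 0 := (hk f).2 ⟨0, P.zero_mem, by rwa [sub_zero]⟩
      rw [LinearMap.comp_apply, this, map_zero]
    choose ω hω hu using fun j : Fin g => (hKDU (I := I) (A := A) 0 _ (h1 j)).exists
    have hL2 : ∀ j f, L f j = res (ω j * f) := fun j f => hu j f
    refine ⟨ω, ⟨hω, fun c => ?_, fun f => ?_⟩⟩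
    · obtain ⟨f, hf⟩ := hL c
      exact ⟨f, fun j => by rw [← hL2, hf]⟩
    · rw [← hk f]
      constructor
      · intro h
        funext j
        rw [hL2, h j]
        rfl
      · intro h j
        rw [← hL2, h]
        rfl
  · intro ω hω
    refine ⟨fun j => ⟨fun p hp => forms_res hω j hp, hω.reg j⟩, ?_⟩
    intro η hη
    classical
    choose f hf using fun k : Fin g => hω.surj (Pi.single k 1)
    have hS : (∑ j, res (η * f j) • ω j) ∈ Pol I A 0 :=
      Submodule.sum_mem _ fun j _ => (Pol I A 0).smul_mem _ (hω.reg j)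
    refine ⟨fun j => res (η * f j), ?_, ?_⟩
    · refine unique0 hKDU hη.2 hS fun x => ?_
      have h1 : ∀ j, res (ω j * (x - ∑ k, res (ω k * x) • f k)) = 0 := by
        intro j
        rw [← rm_apply, map_sub, map_sum]
        simp only [map_smul, rm_apply, hf, smul_eq_mul]
        rw [Finset.sum_eq_single j]
        · rw [Pi.single_eq_same, mul_one, sub_self]
        · intro k _ hkj
          rw [Pi.single_eq_of_ne (Ne.symm hkj), mul_zero]
        · intro h
          exact absurd (Finset.mem_univ j) h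
      obtain ⟨p, hp, hxp⟩ := (hω.ker _).1 h1
      have h2 : res (η * (x - ∑ k, res (ω k * x) • f k)) = 0 := by
        have h3 : x - ∑ k, res (ω k * x) • f k = p + (x - ∑ k, res (ω k * x) • f k - p) := by
          rw [add_sub_cancel]
        rw [h3, mul_add, map_add, hη.1 p hp, res_mul0 hη.2 hxp, add_zero]
      rw [← rm_apply, map_sub, sub_eq_zero, map_sum] at h2
      rw [← rm_apply, h2, Finset.sum_mul, map_sum]
      refine Finset.sum_congr rfl fun k _ => ?_
      rw [map_smul, rm_apply, smul_mul_assoc, map_smul, smul_eq_mul, smul_eq_mul, mul_comm]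
    · intro c hc
      funext k
      show c k = res (η * f k)
      rw [hc, Finset.sum_mul, map_sum]
      simp only [smul_mul_assoc, map_smul, hf, smul_eq_mul]
      rw [Finset.sum_eq_single k]
      · rw [Pi.single_eq_same, mul_one]
      · intro j _ hjk
        rw [Pi.single_eq_of_ne hjk, mul_zero]
      · intro h
        exact absurd (Finset.mem_univ k) h

end Pool.Agent.MG.G0


end

section

/-!
# KST: the curve of a Krichever ring is stable (helper94)
-/

open CategoryTheory CategoryTheory.Limits AlgebraicGeometry TensorProduct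

namespace Pool.Agent.MG.KX

open Pool.Agent.MG.G0 Pool.Agent.MG.GLU

/-- KST: stability. -/
theorem t_KST (hDST : Stmt_DST) (hKPX : Stmt_KPX) (hKBP : Stmt_KBP) (hKAR : Stmt_KAR)
    (hKGC : Stmt_KGC) (hKSB : Stmt_KSB) : Stmt_KST := by
  intro I A _ _ _ g n P p h z
  obtain ⟨h1, h2, h3⟩ := hKPX p h.kr z
  refine hDST g (kDuo z) p h1 h2 h3 ?_
  intro K _ _ φ
  obtain ⟨p', hp'⟩ := hKBP.1 h.kr φ p
  obtain ⟨a, ha⟩ := hKAR h.kr z φ p p' hp'
  have hS : KS g (bc φ P) p' := hKSB h φ p' hp'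
  obtain ⟨hd, hn, hr⟩ := h.fib K φ
  have hc : IsPullback (kHom φ z).map (kDuo (z.bc φ)).pr (kDuo z).pr (spMap φ) := by
    rw [← ha]
    exact a.cart
  exact ⟨kDuo (z.bc φ), p', kHom φ z, hc, fun i f => hp' i f _ rfl,
    hKGC hS.kr hd hn hr hS.mks (z.bc φ)⟩

end Pool.Agent.MG.KX


end

section

/-!
# Statements on the values of regular functions at a family (PAPER.md, U2 to U8; PAPER_V.md)
-/

open Polynomial

namespace Pool.Agent.MG.G0

/-! ## Smoothness, `Perp` and `Om` -/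

/-- SMO: if all `η` with `res (η R) = 0` are Kähler differentials then the curve is smooth. -/
def Stmt_SMO : Prop :=
  ∀ {κ : Type} [Field κ] [IsAlgClosed κ] [CharZero κ] {g d : ℕ}
    {R : Subalgebra κ (LaurentSeries κ)}, 1 ≤ d → Kr g R → zz κ d ∈ R →
    Perp (uno R) ≤ Om (uno R) → TypeS (uno R)

/-- SPR: `t Perp R ⊂ Om R` lifts from a quotient of a local domain. -/
def Stmt_SPR : Prop :=
  ∀ {O A : Type} [CommRing O] [IsDomain O] [IsLocalRing O] [CommRing A] (ρ : O →+* A)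
    {g d : ℕ} {R : Subalgebra O (LaurentSeries O)} {f : O[X]} {π u : O} {m M : ℕ},
    Function.Surjective ρ → π ≠ 0 → ¬ IsUnit π → IsUnit u → m < M →
    (∀ x, ρ x = 0 ↔ π ^ M ∣ x) → 1 ≤ d → IsUnit (d : O) → Kr g R → zz O d ∈ R → f.Monic →
    Kil d R f → (∀ x ∈ Perp (uno (bc1 ρ R)), ρ (u * π ^ m) • x ∈ Om (uno (bc1 ρ R))) →
    ∀ x ∈ Perp (uno R), (u * π ^ m) • x ∈ Om (uno R)

/-- UGL (U2, generic fibre): Krichever rings over fields of characteristic zero with separable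
discriminant. -/
def Stmt_UGL : Prop :=
  ∀ {L : Type} [Field L] [CharZero L] {g d : ℕ} {R : Subalgebra L (LaurentSeries L)} {f : L[X]},
    1 ≤ d → Kr g R → zz L d ∈ R → Disc d R f → f.Separable →
    Good g (uno R) ∧ SmC L (uno R) ∧ Dual (uno R) ∧ Perp (uno R) ≤ Om (uno R) ∧
    ∀ {K : Type} [Field K] [IsAlgClosed K] (φ : L →+* K), TypeS (bc φ (uno R)) ∧
      Dual (bc φ (uno R)) ∧ Disc d (bc1 φ R) (f.map φ)

section

variable {κ O L : Type} [Field κ] [CommRing O] [IsDomain O] [Field L] [Algebra κ O]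
  [Algebra O L] {g d : ℕ} {R : Subalgebra L (LaurentSeries L)}

/-- The reduction is smooth or nodal. -/
def Mdl.Tst (M : Mdl κ O L g d R) : Prop := M.Smo ∨ M.Nod

end

/-- UPO (U3): Kähler differentials on a model. -/
def Stmt_UPO : Prop :=
  ∀ {κ O L : Type} [Field κ] [IsAlgClosed κ] [CharZero κ] [CommRing O] [IsDomain O] [Field L]
    [Algebra κ O] [Algebra O L] {g d : ℕ} {R : Subalgebra L (LaurentSeries L)}
    (M : Mdl κ O L g d R), 1 ≤ g → 2 ≤ d →
    (M.Smo → Perp (uno M.P) ≤ Om (uno M.P)) ∧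
    (M.Nod → ∀ x ∈ Perp (uno M.P), M.π ^ 2 • x ∈ Om (uno M.P))

/-- UGD (U2): models are good. -/
def Stmt_UGD : Prop :=
  ∀ {κ O L : Type} [Field κ] [IsAlgClosed κ] [CharZero κ] [CommRing O] [IsDomain O] [Field L]
    [Algebra κ O] [Algebra O L] {g d : ℕ} {R : Subalgebra L (LaurentSeries L)}
    (M : Mdl κ O L g d R), 1 ≤ g → 2 ≤ d → M.Tst → Good g (uno M.P) ∧
      (M.Smo → TypeS (uno M.Pb))

/-! ## Vector fields -/

/-- UZT (ZH1): the ideal `T dz`. -/
def Stmt_UZT : Prop :=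
  ∀ {K : Type} [Field K] [IsAlgClosed K] {g d : ℕ} {R : Subalgebra K (LaurentSeries K)}
    {f : K[X]}, 1 ≤ d → ((d.factorial : ℕ) : K) ≠ 0 → Kr g R → zz K d ∈ R → Disc d R f →
    f.Separable →
    (∃ θ ∈ TT1 R, zpol K d f = θ * ld (zz K d)) ∧
    (∀ x ∈ R, ∃ (a : K[X]) (θ : LaurentSeries K), θ ∈ TT1 R ∧
      x = zpol K d a + θ * ld (zz K d)) ∧
    ∀ a : K[X], (∃ θ ∈ TT1 R, zpol K d a = θ * ld (zz K d)) → f ∣ a

/-- DIT (U6, DIMT): there are no regular vector fields, and the dimension of the space of vector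
fields with poles of order at most `n`. -/
def Stmt_DIT : Prop :=
  ∀ {K : Type} [Field K] [IsAlgClosed K] {g d : ℕ} {R : Subalgebra K (LaurentSeries K)}
    {f : K[X]}, 2 ≤ g → 1 ≤ d → ((d.factorial : ℕ) : K) ≠ 0 → Kr g R → zz K d ∈ R → Disc d R f →
    f.Separable → f.natDegree + 1 = 2 * g + d → Rgd R ∧
    ∃ N : ℕ, ∀ n : ℕ, N ≤ n → Module.Finite K (TT1 R ⊓ Po K n : Submodule K (LaurentSeries K)) ∧
      Module.finrank K (TT1 R ⊓ Po K n : Submodule K (LaurentSeries K)) + 3 * g = n + 3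

/-- UNO (U6): Noether's theorem at the generic point of a family. -/
def Stmt_UNO : Prop :=
  ∀ {O κ K : Type} [CommRing O] [Field κ] [IsAlgClosed κ] [Field K] [IsAlgClosed K] (ρ : O →+* κ)
    (φ : O →+* K) {g d : ℕ} {R : Subalgebra O (LaurentSeries O)} {f : κ[X]} {f' : K[X]},
    Function.Injective φ → 2 ≤ g → 1 ≤ d → ((d.factorial : ℕ) : κ) ≠ 0 →
    ((d.factorial : ℕ) : K) ≠ 0 → Kr g R → zz O d ∈ R →
    Disc d (bc1 ρ R) f → f.Separable → f.natDegree + 1 = 2 * g + d →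
    Disc d (bc1 φ R) f' → f'.Separable → f'.natDegree + 1 = 2 * g + d →
    Noe (bc1 ρ R) → Noe (bc1 φ R)

/-- UVL (U7): the covectors are sums of products of regular differentials. -/
def Stmt_UVL : Prop :=
  ∀ {K : Type} [Field K] {g : ℕ} {R : Subalgebra K (LaurentSeries K)}, Kr g R → Noe R →
    ∀ l : CovL (uno R), ∃ (n : ℕ) (ω ω' : Fin n → EE (uno R)), ∀ θ : KK Unit K,
      l.1 (tder (uno R) θ) = ∑ i, res (θ * ((ω i : KK Unit K) * (ω' i : KK Unit K)))

/-- UGN (U8): genericity. -/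
def Stmt_UGN : Prop :=
  ∀ {K : Type} [Field K] [IsAlgClosed K] [Algebra ℂ K] {g d b : ℕ}
    {R : Subalgebra K (LaurentSeries K)} (r : Fin b → K), 1 ≤ d → 2 * g ≤ d + 2 → Kr g R →
    zz K d ∈ R → Disc d R (∏ l, (X - C (r l))) → AlgebraicIndependent ℂ r → Gnr (uno R)

/-! ## The value at the zero covector -/

/-- UH1 (U5): the value at the zero covector is integral, and reduces to the value of the
reduction. -/
def Stmt_UH1 : Prop :=
  ∀ {k L : Type} [Field k] [IsAlgClosed k] [Field L] [Algebra ℂ k] [Algebra ℂ L] [Algebra k L]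
    [IsScalarTower ℂ k L] {g d : ℕ} {R : Subalgebra L (LaurentSeries L)} {f : L[X]} (E : Ev g),
    1 ≤ g → 2 ≤ d → Kr g R → zz L d ∈ R → Disc d R f → f.Separable →
    ∀ v : Plc k L g d R, v.M.Tst → ∃ x : v.O, algebraMap v.O L x = E.Φ L Unit (uno R) 0 ∧
      v.M.rs x = E.Φ k Unit (uno v.M.Pb) 0

/-- USC: the value at the special curve is a complex number. -/
def Stmt_USC : Prop :=
  ∀ {g : ℕ}, 2 ≤ g → ∀ {k : Type} [Field k] [IsAlgClosed k] [Algebra ℂ k] (E : Ev g), ∃ c : ℂ,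
    ∀ (ζ : k) (R : Subalgebra k (LaurentSeries k)), RG g ζ R →
      E.Φ k Unit (uno R) 0 = algebraMap ℂ k c

/-- USN: the value at the special curve with marked points is a complex number. -/
def Stmt_USN : Prop :=
  ∀ {g n : ℕ}, 2 ≤ g → ∀ {k : Type} [Field k] [IsAlgClosed k] [Algebra ℂ k] (E : Ev0 g n),
    ∃ c : ℂ, ∀ (ζ : k) (R : Subalgebra k (LaurentSeries k)), RG g ζ R →
      ∀ p : Fin n → (uno R →ₐ[k] k), Marks (uno R) p →
        E.Φ k Unit (uno R) p = algebraMap ℂ k c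

/-- UM0: marked points exist. -/
def Stmt_UM0 : Prop :=
  ∀ {κ : Type} [Field κ] [IsAlgClosed κ] {g d : ℕ} {R : Subalgebra κ (LaurentSeries κ)} (n : ℕ),
    1 ≤ d → Kr g R → zz κ d ∈ R → TypeS (uno R) →
    ∃ p : Fin n → (uno R →ₐ[κ] κ), Marks (uno R) p

/-- UM1 (U5, marked points): the value at a curve over the algebraic closure `K` of `L` with marked
points. -/
def Stmt_UM1 : Prop :=
  ∀ {L K : Type} [Field L] [Field K] [IsAlgClosed K] [Algebra ℂ L] [Algebra ℂ K] [Algebra L K]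
    [IsScalarTower ℂ L K] [Algebra.IsAlgebraic L K] {g d n : ℕ}
    {R : Subalgebra L (LaurentSeries L)} {f : L[X]} (E : Ev0 g n), 1 ≤ d → Kr g R →
    zz L d ∈ R → Disc d R f → f.Separable →
    ∃ s : L, ∀ p, Marks (bc (algebraMap L K) (uno R)) p →
      E.Φ K Unit (bc (algebraMap L K) (uno R)) p = algebraMap L K s

/-- UM2 (U5, marked points): this value is integral, and reduces to the value of the reduction. -/
def Stmt_UM2 : Prop :=
  ∀ {k L K : Type} [Field k] [IsAlgClosed k] [Field L] [Field K] [IsAlgClosed K] [Algebra ℂ k]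
    [Algebra ℂ L] [Algebra ℂ K] [Algebra k L] [Algebra L K] [IsScalarTower ℂ k L]
    [IsScalarTower ℂ L K] [Algebra.IsAlgebraic L K] {g d n : ℕ}
    {R : Subalgebra L (LaurentSeries L)} {f : L[X]} (E : Ev0 g n), 1 ≤ g → 2 ≤ d → Kr g R →
    zz L d ∈ R → Disc d R f → f.Separable → ∀ s : L,
    (∀ p, Marks (bc (algebraMap L K) (uno R)) p →
      E.Φ K Unit (bc (algebraMap L K) (uno R)) p = algebraMap L K s) →
    ∀ v : Plc k L g d R, v.M.Tst → ∃ x : v.O, algebraMap v.O L x = s ∧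
      (v.M.Smo → ∀ p, Marks (uno v.M.Pb) p → v.M.rs x = E.Φ k Unit (uno v.M.Pb) p)

/-! ## The polarised values -/

/-- `S` is the polarised value of `E` at the quadratic differentials `ω ω'`. -/
def IsS {g : ℕ} (E : Ev g) {L : Type} [Field L] [Algebra ℂ L]
    (R : Subalgebra L (LaurentSeries L)) (m : ℕ)
    (S : MultilinearMap L (fun _ : Fin (m + m) => EE1 R) L) : Prop :=
  ∀ (ω ω' : Fin m → EE1 R) (x : L),
    HV E (uno R) 1 (fun i _ => (ω i : LaurentSeries L)) (fun i _ => (ω' i : LaurentSeries L)) x →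
    S (Fin.append ω ω') = x

/-- USX (U4): the polarised value exists. -/
def Stmt_USX : Prop :=
  ∀ {L : Type} [Field L] [Algebra ℂ L] {g d : ℕ} {R : Subalgebra L (LaurentSeries L)}
    {f : L[X]} (E : Ev g) (m : ℕ), 1 ≤ d → Kr g R → zz L d ∈ R → Disc d R f → f.Separable →
    ∃ S : MultilinearMap L (fun _ : Fin (m + m) => EE1 R) L, IsS E R m S

/-- UIN (U4 (a)): the polarised value is integral at the places with smooth or nodal
reduction. -/
def Stmt_UIN : Prop :=
  ∀ {k L : Type} [Field k] [IsAlgClosed k] [Field L] [Algebra ℂ k] [Algebra ℂ L] [Algebra k L]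
    [IsScalarTower ℂ k L] {g d : ℕ} {R : Subalgebra L (LaurentSeries L)} {f : L[X]} (E : Ev g)
    (m : ℕ) (S : MultilinearMap L (fun _ : Fin (m + m) => EE1 R) L), 3 ≤ g → 2 ≤ d → Kr g R →
    zz L d ∈ R → Disc d R f → f.Separable → IsS E R m S →
    ∀ v : Plc k L g d R, v.M.Tst → v.Int S

/-- UVK (U7): if the polarised values are zero then the value does not depend on the
covector. -/
def Stmt_UVK : Prop :=
  ∀ {L K : Type} [Field L] [Field K] [IsAlgClosed K] [Algebra ℂ L] [Algebra ℂ K]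
    (φ : L →ₐ[ℂ] K) {g d : ℕ} {R : Subalgebra L (LaurentSeries L)} {f : L[X]} (E : Ev g),
    1 ≤ d → Kr g R → zz L d ∈ R → Disc d R f → f.Separable → Noe (bc1 (φ : L →+* K) R) →
    (∀ m : ℕ, 1 ≤ m → IsS E R m 0) → ∀ l : CovL (bc (φ : L →+* K) (uno R)),
      E.Φ K Unit (bc (φ : L →+* K) (uno R)) l = φ (E.Φ L Unit (uno R) 0)

end Pool.Agent.MG.G0


end

section

/-!
# CNT: base change of covectors (PAPER_Q.md, CNT)
-/

open TensorProduct

namespace Pool.Agent.MG.G0

namespace CNT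

section

variable {I : Type} [Fintype I] {A B : Type} [CommRing A] [CommRing B]

/-- The functional of `q` and the functional of the base change of `q`. -/
theorem Lq_bcQ (φ : A →+* B) (P : Subalgebra A (KK I A)) {D : DD P} {D' : DD (bc φ P)}
    (hD : Rel φ D D') (q : QD P) : Lq (bc φ P) (bcQ φ P q) D' = φ (Lq P q D) := by
  induction q using TensorProduct.induction_on with
  | zero => rw [map_zero, map_zero, map_zero, LinearMap.zero_apply, LinearMap.zero_apply, map_zero]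
  | tmul x g =>
    obtain ⟨h, hh⟩ := mk_surj P (D g)
    rw [bcQ_tmul, Lq_tmul, Lq_tmul, hD g h hh.symm, ← hh, rq_mk, rq_mk]
    change res (kmap φ (x : KK I A) * kmap φ h) = _
    rw [← map_mul, res_kmap]
  | add a b ha hb =>
    rw [map_add, map_add, map_add, LinearMap.add_apply, LinearMap.add_apply, ha, hb, map_add]

/-- Base change of the products `ω η`. -/
theorem bcQ_tw (φ : A →+* B) (P : Subalgebra A (KK I A)) (ω : EE P) (η : P ⊗[A] P) :
    bcQ φ P (tw P ω η) = tw (bc φ P) (bcE φ P ω) (bcT φ P η) := by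
  induction η using TensorProduct.induction_on with
  | zero => rw [map_zero, map_zero, map_zero, map_zero]
  | tmul p g =>
    change (⟨kmap φ ((p : KK I A) * (ω : KK I A)), _⟩ : Perp (bc φ P)) ⊗ₜ[B] bcMap φ P g =
      (⟨(bcMap φ P p : KK I B) * (bcE φ P ω : KK I B), _⟩ : Perp (bc φ P)) ⊗ₜ[B] bcMap φ P g
    congr 1
    refine Subtype.ext ?_
    change kmap φ ((p : KK I A) * (ω : KK I A)) =
      (bcMap φ P p : KK I B) * (bcE φ P ω : KK I B)
    rw [map_mul, bcE_val, bcMap_val]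
  | add a b ha hb => rw [map_add, map_add, map_add, map_add, ha, hb]

end

end CNT

/-- CNT: base change of covectors. -/
theorem t_CNT : Stmt_CNT := by
  intro I A B _ _ _ φ P
  refine ⟨fun q D D' hD => ?_, fun ω η => ?_⟩
  · rw [cov_apply, cov_apply]
    exact CNT.Lq_bcQ φ P hD q
  · exact Subtype.ext (CNT.bcQ_tw φ P ω η)

end Pool.Agent.MG.G0


end

section

/-!
# DIT: regular vector fields, dimension of the spaces of vector fields
-/

open Polynomial

namespace Pool.Agent.MG.G0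

namespace DIT

open ZL

section

variable {K : Type} [Field K] {g d : ℕ} {R : Subalgebra K (LaurentSeries K)}

/-- The coefficient at `τ^m`. -/
def cf (K : Type) [Field K] (m : ℤ) : LaurentSeries K →ₗ[K] K where
  toFun f := f.coeff m
  map_add' f h := by rw [HahnSeries.coeff_add]
  map_smul' a f := by rw [HahnSeries.coeff_smul]; rfl

@[simp] theorem cf_apply (m : ℤ) (f : LaurentSeries K) : cf K m f = f.coeff m := rfl

/-- The elements of `R` with poles of order at most `N`. -/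
noncomputable abbrev RN (R : Subalgebra K (LaurentSeries K)) (N : ℕ) :
    Submodule K (LaurentSeries K) := Subalgebra.toSubmodule R ⊓ Po K N

theorem Po_mono {m n : ℤ} (h : m ≤ n) : Po K m ≤ Po K n := fun _ hf k hk => hf k (by omega)

theorem algebraMap_mem_Po {n : ℤ} (hn : 0 ≤ n) (a : K) :
    algebraMap K (LaurentSeries K) a ∈ Po K n := by
  intro m hm
  rw [coeff_algebraMap, if_neg (by omega)]

theorem finrank_RN (hR : Kr g R) : ∃ N₀ : ℕ, ∀ N : ℕ, N₀ ≤ N → Module.Finite K (RN R N) ∧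
    Module.finrank K (RN R N) + g = N + 1 := by
  classical
  obtain ⟨hk1, L, hL, hk⟩ := Kr_iff.1 hR
  choose v hv using fun j : Fin g => hL (Pi.single j 1)
  choose m hm using fun j : Fin g => exists_low (v j)
  refine ⟨Finset.univ.sup m, fun N hN => ?_⟩
  let S : (Fin g → K) →ₗ[K] LaurentSeries K := Fintype.linearCombination K v
  have hS : ∀ c, S c = ∑ j, c j • v j := fun c => Fintype.linearCombination_apply K v c
  have hLS : ∀ c, L (S c) = c := by
    intro c
    rw [hS, map_sum]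
    have h2 : ∀ j, L (c j • v j) = Pi.single j (c j) := by
      intro j
      rw [map_smul, hv, ← Pi.single_smul, smul_eq_mul, mul_one]
    rw [Finset.sum_congr rfl fun j _ => h2 j, Finset.univ_sum_single]
  have hSN : ∀ c, S c ∈ Po K N := by
    intro c
    rw [hS]
    refine Submodule.sum_mem _ fun j _ => Submodule.smul_mem _ _ ?_
    intro k hk
    apply hm j
    have : m j ≤ Finset.univ.sup m := Finset.le_sup (Finset.mem_univ j)
    omega
  let Φ : (RN R N × (Fin g → K)) →ₗ[K] ((Fin N → K) × K) :=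
    LinearMap.prod (LinearMap.pi fun k : Fin N => cf K (-((k : ℤ) + 1)) ∘ₗ
      LinearMap.coprod (RN R N).subtype S)
      (cf K 0 ∘ₗ (RN R N).subtype ∘ₗ LinearMap.fst K (RN R N) (Fin g → K))
  have hΦ1 : ∀ p c (k : Fin N), (Φ (p, c)).1 k =
      ((p : LaurentSeries K) + S c).coeff (-((k : ℤ) + 1)) := fun p c k => rfl
  have hΦ2 : ∀ p c, (Φ (p, c)).2 = (p : LaurentSeries K).coeff 0 := fun p c => rfl
  have hinj : Function.Injective Φ := by
    rw [← LinearMap.ker_eq_bot, LinearMap.ker_eq_bot']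
    rintro ⟨p, c⟩ h0
    have h1 : (p : LaurentSeries K) + S c ∈ Po K 0 := by
      intro l hl
      by_cases hlN : l < -(N : ℤ)
      · rw [HahnSeries.coeff_add, p.2.2 l hlN, hSN c l hlN, add_zero]
      · have h2 := hΦ1 p c ⟨(-l - 1).toNat, by omega⟩
        rw [h0] at h2
        have h3 : -(((⟨(-l - 1).toNat, by omega⟩ : Fin N) : ℕ) + 1 : ℤ) = l := by
          change -(((-l - 1).toNat : ℤ) + 1) = l
          omega
        rw [h3] at h2
        exact h2.symm
    have h2 : L ((p : LaurentSeries K) + S c) = 0 := (hk _).2 ⟨0, zero_mem _, by rwa [sub_zero]⟩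
    have h3 : L (p : LaurentSeries K) = 0 :=
      (hk _).2 ⟨p, p.2.1, by rw [sub_self]; exact Submodule.zero_mem _⟩
    rw [map_add, h3, hLS, zero_add] at h2
    subst h2
    rw [map_zero, add_zero] at h1
    obtain ⟨a, ha⟩ := hk1 _ p.2.1 h1
    have h4 := hΦ2 p 0
    rw [h0, ha, coeff_algebraMap, if_pos rfl] at h4
    have h5 : a = 0 := h4.symm
    have h6 : p = 0 := Subtype.ext (by rw [ha, h5, map_zero]; rfl)
    rw [h6]
    rfl
  have hsurj : Function.Surjective Φ := by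
    rintro ⟨a, a0⟩
    let f : LaurentSeries K := ∑ k : Fin N, HahnSeries.single (-((k : ℤ) + 1)) (a k)
    have hf : ∀ l : ℤ, f.coeff l = ∑ k : Fin N, if l = -((k : ℤ) + 1) then a k else 0 := by
      intro l
      rw [HahnSeries.coeff_sum]
      refine Finset.sum_congr rfl fun k _ => ?_
      rw [HahnSeries.coeff_single]
      by_cases h : l = -((k : ℤ) + 1)
      · rw [if_pos h, if_pos h]
      · rw [if_neg h, if_neg h]
    have hfN : f ∈ Po K N := by
      intro l hl
      rw [hf]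
      refine Finset.sum_eq_zero fun k _ => if_neg ?_
      have := k.2
      omega
    have h1 : L (f - S (L f)) = 0 := by rw [map_sub, hLS, sub_self]
    obtain ⟨p, hp, hq⟩ := (hk _).1 h1
    let p' : LaurentSeries K := p + algebraMap K _ (a0 - p.coeff 0)
    have hp'N : p' ∈ Po K N := by
      have h2 : p = f - S (L f) - (f - S (L f) - p) := by abel
      refine add_mem ?_ (algebraMap_mem_Po (by omega) _)
      rw [h2]
      exact sub_mem (sub_mem hfN (hSN _)) (Po_mono (by omega) hq)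
    refine ⟨(⟨p', add_mem hp (R.algebraMap_mem _), hp'N⟩, L f), ?_⟩
    refine Prod.ext ?_ ?_
    · funext k
      rw [hΦ1]
      change (p + algebraMap K _ (a0 - p.coeff 0) + S (L f)).coeff (-((k : ℤ) + 1)) = a k
      have h3 := hq (-((k : ℤ) + 1)) (by omega)
      rw [HahnSeries.coeff_sub, HahnSeries.coeff_sub] at h3
      rw [HahnSeries.coeff_add, HahnSeries.coeff_add, coeff_algebraMap, if_neg (by omega),
        add_zero]
      have h4 : f.coeff (-((k : ℤ) + 1)) = a k := by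
        rw [hf, Finset.sum_eq_single k]
        · rw [if_pos rfl]
        · intro l _ hl
          refine if_neg fun h => hl ?_
          ext
          omega
        · intro h
          exact absurd (Finset.mem_univ k) h
      rw [← h4]
      linear_combination -h3
    · rw [hΦ2]
      change (p + algebraMap K _ (a0 - p.coeff 0)).coeff 0 = a0
      rw [HahnSeries.coeff_add, coeff_algebraMap, if_pos rfl]
      ring
  let E := LinearEquiv.ofBijective Φ ⟨hinj, hsurj⟩
  have hfin : Module.Finite K (RN R N × (Fin g → K)) := Module.Finite.equiv E.symm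
  have hfin2 : Module.Finite K (RN R N) :=
    Module.Finite.of_surjective (LinearMap.fst K (RN R N) (Fin g → K)) Prod.fst_surjective
  refine ⟨hfin2, ?_⟩
  have h := E.finrank_eq
  rw [Module.finrank_prod, Module.finrank_prod, Module.finrank_fin_fun, Module.finrank_fin_fun,
    Module.finrank_self] at h
  exact h

theorem ld_zz (d : ℕ) : ld (zz K d) = HahnSeries.single (-(d : ℤ) - 1) (-(d : K)) := by
  ext m
  rw [ld_coeff, zz, HahnSeries.coeff_single, HahnSeries.coeff_single]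
  by_cases h : m = -(d : ℤ) - 1
  · rw [if_pos (by omega), if_pos h, h]
    push_cast
    ring
  · rw [if_neg (by omega), if_neg h, mul_zero]

theorem mul_ld_zz_coeff (d : ℕ) (θ : LaurentSeries K) (m : ℤ) :
    (θ * ld (zz K d)).coeff (m - d - 1) = θ.coeff m * -(d : K) := by
  rw [ld_zz]
  have h : m - d - 1 = m + (-(d : ℤ) - 1) := by ring
  rw [h, HahnSeries.coeff_mul_single_add]

theorem zpol_mem (hz : zz K d ∈ R) (q : K[X]) : zpol K d q ∈ R := by
  have h1 : zpol K d q = R.val (aeval (⟨zz K d, hz⟩ : R) q) := by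
    rw [← Polynomial.aeval_algHom_apply]
    rfl
  rw [h1]
  exact (aeval (⟨zz K d, hz⟩ : R) q).2

theorem mul_mem_TT1 {θ p : LaurentSeries K} (hθ : θ ∈ TT1 R) (hp : p ∈ R) : p * θ ∈ TT1 R := by
  intro f hf
  rw [mul_assoc]
  exact mul_mem hp (hθ f hf)

theorem finrank_TN (hd : (d : K) ≠ 0) (hz : zz K d ∈ R) {f : K[X]} (hf : f ≠ 0)
    (h1 : ∃ θ ∈ TT1 R, zpol K d f = θ * ld (zz K d))
    (h2 : ∀ x ∈ R, ∃ (a : K[X]) (θ : LaurentSeries K), θ ∈ TT1 R ∧
      x = zpol K d a + θ * ld (zz K d))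
    (h3 : ∀ a : K[X], (∃ θ ∈ TT1 R, zpol K d a = θ * ld (zz K d)) → f ∣ a) (n : ℕ)
    (hn : d * f.natDegree ≤ n + d + 1) (hfin : Module.Finite K (RN R (n + d + 1))) :
    Module.Finite K (TT1 R ⊓ Po K n : Submodule K (LaurentSeries K)) ∧
      f.natDegree + Module.finrank K (TT1 R ⊓ Po K n : Submodule K (LaurentSeries K)) =
        Module.finrank K (RN R (n + d + 1)) := by
  classical
  set T : Submodule K (LaurentSeries K) := TT1 R ⊓ Po K n with hT
  have hu : ld (zz K d) ≠ 0 := by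
    rw [ld_zz]
    intro h
    rw [HahnSeries.single_eq_zero_iff, neg_eq_zero] at h
    exact hd h
  have huP : ld (zz K d) ∈ Po K ((d : ℤ) + 1) := by
    intro m hm
    rw [ld_zz, HahnSeries.coeff_single_of_ne (by omega)]
  have hd0 : d ≠ 0 := by
    rintro rfl
    exact hd Nat.cast_zero
  let Ψ₀ : (degreeLT K f.natDegree × T) →ₗ[K] LaurentSeries K :=
    LinearMap.coprod ((zpol K d).toLinearMap ∘ₗ (degreeLT K f.natDegree).subtype)
      (LinearMap.mulRight K (ld (zz K d)) ∘ₗ T.subtype)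
  have hΨ₀ : ∀ r θ, Ψ₀ (r, θ) = zpol K d (r : K[X]) + (θ : LaurentSeries K) * ld (zz K d) :=
    fun r θ => rfl
  have hmem : ∀ x, Ψ₀ x ∈ RN R (n + d + 1) := by
    rintro ⟨r, θ⟩
    rw [hΨ₀]
    refine ⟨add_mem (zpol_mem hz _) (θ.2.1 _ hz), add_mem ?_ ?_⟩
    · refine Po_mono (m := ((d * f.natDegree : ℕ) : ℤ)) (by exact_mod_cast hn) ?_
      exact ev_mem_Pl d _ (natDegree_le_of_degree_le (mem_degreeLT.1 r.2).le)
    · have h := mul_mem_Pl (θ.2.2 : (θ : LaurentSeries K) ∈ Pl K n) huP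
      refine Po_mono ?_ h
      push_cast
      omega
  let Ψ : (degreeLT K f.natDegree × T) →ₗ[K] RN R (n + d + 1) := Ψ₀.codRestrict _ hmem
  have hΨ : ∀ r θ, (Ψ (r, θ) : LaurentSeries K) =
      zpol K d (r : K[X]) + (θ : LaurentSeries K) * ld (zz K d) := fun r θ => rfl
  have hinj : Function.Injective Ψ := by
    rw [← LinearMap.ker_eq_bot, LinearMap.ker_eq_bot']
    rintro ⟨r, θ⟩ h0
    have h4 : zpol K d (r : K[X]) + (θ : LaurentSeries K) * ld (zz K d) = 0 := by
      rw [← hΨ, h0]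
      rfl
    have h5 : f ∣ (r : K[X]) := by
      apply h3
      refine ⟨-(θ : LaurentSeries K), neg_mem θ.2.1, ?_⟩
      rw [neg_mul]
      exact eq_neg_of_add_eq_zero_left h4
    have h6 : (r : K[X]) = 0 := by
      apply eq_zero_of_dvd_of_degree_lt h5
      rw [degree_eq_natDegree hf]
      exact mem_degreeLT.1 r.2
    rw [h6, map_zero, zero_add] at h4
    have h7 : (θ : LaurentSeries K) = 0 := (mul_eq_zero.1 h4).resolve_right hu
    exact Prod.ext (Subtype.ext h6) (Subtype.ext h7)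
  have hsurj : Function.Surjective Ψ := by
    rintro ⟨x, hx1, hx2⟩
    obtain ⟨a, θ, hθ, hx⟩ := h2 x hx1
    obtain ⟨θf, hθf, hf'⟩ := h1
    have hr : degree (a % f) < f.natDegree := by
      rw [← degree_eq_natDegree hf]
      exact degree_mod_lt a hf
    have h4 : zpol K d a = zpol K d (a / f) * (θf * ld (zz K d)) + zpol K d (a % f) := by
      conv_lhs => rw [← EuclideanDomain.div_add_mod a f]
      rw [map_add, map_mul, hf', mul_comm (θf * ld (zz K d))]
    let θ' : LaurentSeries K := θ + zpol K d (a / f) * θf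
    have hθ' : θ' ∈ TT1 R := add_mem hθ (mul_mem_TT1 hθf (zpol_mem hz _))
    have h5 : x = zpol K d (a % f) + θ' * ld (zz K d) := by
      rw [hx, h4]
      ring
    have h6 : θ' ∈ Po K n := by
      intro m hm
      have h7 : θ' * ld (zz K d) ∈ Po K ((n + d + 1 : ℕ) : ℤ) := by
        have h8 : θ' * ld (zz K d) = x - zpol K d (a % f) := by
          rw [h5]
          ring
        rw [h8]
        refine sub_mem hx2 (Po_mono (m := ((d * f.natDegree : ℕ) : ℤ)) (by exact_mod_cast hn) ?_)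
        exact ev_mem_Pl d _ (natDegree_le_of_degree_le hr.le)
      have h9 := h7 (m - d - 1) (by push_cast; omega)
      rw [mul_ld_zz_coeff] at h9
      exact (mul_eq_zero.1 h9).resolve_right (neg_ne_zero.2 hd)
    refine ⟨(⟨a % f, mem_degreeLT.2 hr⟩, ⟨θ', hθ', h6⟩), Subtype.ext ?_⟩
    rw [hΨ]
    exact h5.symm
  let E := LinearEquiv.ofBijective Ψ ⟨hinj, hsurj⟩
  have hfin1 : Module.Finite K (degreeLT K f.natDegree × T) := Module.Finite.equiv E.symm
  have hfin2 : Module.Finite K T :=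
    Module.Finite.of_surjective (LinearMap.snd K (degreeLT K f.natDegree) T) Prod.snd_surjective
  have hfin3 : Module.Finite K (degreeLT K f.natDegree) :=
    Module.Finite.of_surjective (LinearMap.fst K (degreeLT K f.natDegree) T) Prod.fst_surjective
  refine ⟨hfin2, ?_⟩
  have h := E.finrank_eq
  rw [Module.finrank_prod, (degreeLTEquiv K f.natDegree).finrank_eq, Module.finrank_fin_fun] at h
  exact h

end

/-- There are no regular vector fields. -/
theorem rgd {K : Type} [Field K] {g : ℕ} {R : Subalgebra K (LaurentSeries K)} (hKFO : Stmt_KFO)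
    (hg : 2 ≤ g) (hR : Kr g R) (hD : Dual (uno R)) : Rgd R := by
  intro θ hθ hθ0
  obtain ⟨⟨ω, hω⟩, h2⟩ := hKFO (I := Unit) (P := uno R) hR
  obtain ⟨h3, h4⟩ := h2 ω hω
  by_contra hne
  -- the products with the regular differentials are constants
  have h5 : ∀ i, ∃ a : K, θ * ω i () = algebraMap K (LaurentSeries K) a := by
    intro i
    obtain ⟨h31, h32⟩ := h3 i
    have h6 : (fun _ => θ : KK Unit K) * ω i ∈ uno R :=
      hD (fun _ => θ) (mem_TT_uno.2 hθ) (ω i) h31
    have h60 : (fun _ => θ : KK Unit K) ∈ Pol Unit K 0 := mem_Pol_unit.2 hθ0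
    have h7 : (fun _ => θ : KK Unit K) * ω i ∈ Pol Unit K 0 := mul_mem_Pol0 h60 h32
    obtain ⟨a, ha⟩ := IsKr.k1 hR _ h6 h7
    exact ⟨a, congrFun ha ()⟩
  choose a ha using h5
  have key : ∀ c : Fin g → K, ∑ j, c j • ω j = 0 → c = 0 := by
    intro c hc
    obtain ⟨c', -, hu⟩ := h4 0 (Submodule.zero_mem _)
    rw [hu c hc.symm, ← hu 0 (by simp)]
  let i0 : Fin g := ⟨0, by omega⟩
  let i1 : Fin g := ⟨1, by omega⟩
  have hi : i0 ≠ i1 := by
    intro h
    have := congrArg Fin.val h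
    simp [i0, i1] at this
  have h6 : a i1 • ω i0 = a i0 • ω i1 := by
    funext u
    have h7 : θ * (a i1 • ω i0 () - a i0 • ω i1 ()) = 0 := by
      rw [mul_sub, mul_smul_comm, mul_smul_comm, ha, ha, Algebra.smul_def, Algebra.smul_def,
        mul_comm, sub_self]
    have h8 := (mul_eq_zero.1 h7).resolve_left hne
    exact sub_eq_zero.1 h8
  have h7 : ∑ j, (Pi.single i0 (a i1) - Pi.single i1 (a i0) : Fin g → K) j • ω j = 0 := by
    have h8 : ∀ j, (Pi.single i0 (a i1) - Pi.single i1 (a i0) : Fin g → K) j • ω j =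
        (Pi.single i0 (a i1) : Fin g → K) j • ω j - (Pi.single i1 (a i0) : Fin g → K) j • ω j :=
      fun j => by rw [Pi.sub_apply, sub_smul]
    rw [Finset.sum_congr rfl fun j _ => h8 j, Finset.sum_sub_distrib]
    have h9 : ∀ (i : Fin g) (b : K), ∑ j, (Pi.single i b : Fin g → K) j • ω j = b • ω i := by
      intro i b
      rw [Finset.sum_eq_single i]
      · rw [Pi.single_eq_same]
      · intro j _ hj
        rw [Pi.single_eq_of_ne hj, zero_smul]
      · intro h
        exact absurd (Finset.mem_univ i) h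
    rw [h9, h9, h6, sub_self]
  have h8 := key _ h7
  have h9 : a i1 = 0 := by
    have h10 := congrFun h8 i0
    rw [Pi.sub_apply, Pi.single_eq_same, Pi.single_eq_of_ne hi, sub_zero] at h10
    exact h10
  -- so `ω i1 = 0`
  have h10 : θ * ω i1 () = 0 := by rw [ha, h9, map_zero]
  have h11 : ω i1 = 0 := by
    funext u
    exact (mul_eq_zero.1 h10).resolve_left hne
  have h12 := key (Pi.single i1 1) (by
    refine Finset.sum_eq_zero fun j _ => ?_
    by_cases hj : j = i1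
    · rw [hj, h11, smul_zero]
    · rw [Pi.single_eq_of_ne hj, zero_smul])
  have h13 := congrFun h12 i1
  rw [Pi.single_eq_same] at h13
  exact one_ne_zero h13

end DIT

open _root_.Pool.Agent.MG.G0.DIT in
/-- DIT. -/
theorem t_DIT (hKFO : Stmt_KFO) (_hSTO : Stmt_STO) (hSDF : Stmt_SDF) (hKIL : Stmt_KIL)
    (hKIS : Stmt_KIS) (hUZT : Stmt_UZT) : Stmt_DIT := by
  intro K _ _ g d R f hg hd hdf hR hz hD hsep hdeg
  have hdK : (d : K) ≠ 0 := by
    intro h
    apply hdf
    obtain ⟨k, hk⟩ := Nat.dvd_factorial hd le_rfl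
    rw [hk, Nat.cast_mul, h, zero_mul]
  have hKil : Kil d R f := hKIL.1 hd (IsUnit.mk0 _ hdK) hR hz hD
  obtain ⟨h1, h2⟩ := hKIS hd hdf hR hz hKil hsep
  have hDual : Dual (uno R) := hSDF hR h1 h2
  refine ⟨rgd hKFO hg hR hDual, ?_⟩
  obtain ⟨h3, h4, h5⟩ := hUZT hd hdf hR hz hD hsep
  obtain ⟨N₀, hN₀⟩ := finrank_RN hR
  refine ⟨N₀ + d * f.natDegree, fun n hn => ?_⟩
  obtain ⟨h6, h7⟩ := hN₀ (n + d + 1) (by
    have : N₀ ≤ N₀ + d * f.natDegree := Nat.le_add_right _ _
    omega)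
  obtain ⟨h8, h9⟩ := finrank_TN hdK hz hsep.ne_zero h3 h4 h5 n (by
    have : d * f.natDegree ≤ N₀ + d * f.natDegree := Nat.le_add_left _ _
    omega) h6
  exact ⟨h8, by omega⟩

end Pool.Agent.MG.G0


end

section

/-!
# UIN: the polarised value is integral at the places with smooth or nodal reduction
-/

open Polynomial

namespace Pool.Agent.MG.G0

namespace UINaux

/-- The hypothesis of `HV2` on smooth curves. -/
theorem hyp2 (hSDB : Stmt_SDB) (hCSM : Stmt_CSM) (hKBC : Stmt_KBC) {A I : Type} [CommRing A]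
    [Fintype I] [Nonempty I] {g : ℕ} {P : Subalgebra A (KK I A)} (hK : IsKr g P) (hS : SmC A P)
    (t : A) {B : Type} [CommRing B] (φ : A →+* B) (D : DD (bc φ P)) :
    ∃ θ : KK I B, φ t • D = tder (bc φ P) θ :=
  (hCSM (hKBC.2.2.2 hK φ).1 (hSDB hK hS φ).1).1 (φ t • D)

theorem bc1_comp (hKBC : Stmt_KBC) {A B C : Type} [CommRing A] [CommRing B] [CommRing C]
    (φ : A →+* B) (ψ : B →+* C) (R : Subalgebra A (LaurentSeries A)) :
    bc1 (ψ.comp φ) R = bc1 ψ (bc1 φ R) := by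
  have h := hKBC.2.1 φ ψ (uno R)
  rw [bc_uno, bc_uno, bc_uno] at h
  have h2 := congrArg duo h
  rwa [duo_uno, duo_uno] at h2

theorem Kr_bc1 (hKBC : Stmt_KBC) {A B : Type} [CommRing A] [CommRing B] {g : ℕ}
    {R : Subalgebra A (LaurentSeries A)} (hR : Kr g R) (φ : A →+* B) : Kr g (bc1 φ R) := by
  have h := (hKBC.2.2.2 hR φ).1
  rwa [bc_uno] at h

theorem zz_bc1 {A B : Type} [CommRing A] [CommRing B] {d : ℕ}
    {R : Subalgebra A (LaurentSeries A)} (hz : zz A d ∈ R) (φ : A →+* B) :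
    zz B d ∈ bc1 φ R := by
  rw [← lmap_zz φ d]
  exact Algebra.subset_adjoin ⟨_, hz, rfl⟩

/-- Divisibility at a place with nodal reduction. -/
theorem nod (hNPL : Stmt_NPL) (hMSM : Stmt_MSM) (hKBC : Stmt_KBC) (hHV4 : Stmt_HV4)
    (hLOGF : Stmt_LOGF) {κ O L : Type} [Field κ] [IsAlgClosed κ] [CharZero κ] [CommRing O]
    [IsDomain O] [Field L] [Algebra κ O] [Algebra ℂ O] [Algebra O L] {g d : ℕ}
    {R : Subalgebra L (LaurentSeries L)} (E : Ev g) (M : Mdl κ O L g d R) (hg : 3 ≤ g)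
    (hd : 2 ≤ d) (hG : Good g (uno M.P)) {c : κ} {s₀ u : O} {h : O[X]} (hc : Dbl M.fb c)
    (hGr : GRk d M.Pb c (d - 1)) (hs : M.rs s₀ = c) (hu : IsUnit u)
    (hf : M.f = ((X - C s₀) ^ 2 - C (M.π ^ 2 * u)) * h) {t : O} (ht : 4 * t = M.π ^ 2 * u)
    {m : ℕ} (v v' : Fin m → KK Unit O) (hv : ∀ i, v i ∈ EE (uno M.P)) {y : O}
    (hy : HV E (uno M.P) t v v' y) : t ^ m ∣ y := by
  obtain ⟨g, rfl⟩ : ∃ g', g = g' + 1 := ⟨g - 1, by omega⟩
  have h4 : IsUnit (4 : O) := by
    have h1 : IsUnit ((4 : κ)) := isUnit_iff_ne_zero.2 (by norm_num)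
    have h2 := h1.map (algebraMap κ O)
    rwa [map_ofNat] at h2
  have hπ0 : M.rs M.π = 0 := M.rsπ
  -- the quotient
  set N : ℕ := 2 * m + 2 with hN
  let J : Ideal O := Ideal.span {M.π ^ N}
  let ρ : O →ₐ[ℂ] (O ⧸ J) := Ideal.Quotient.mkₐ ℂ J
  have hρs : Function.Surjective ρ := Ideal.Quotient.mk_surjective
  have hρ0 : ∀ x : O, ρ x = 0 ↔ M.π ^ N ∣ x := by
    intro x
    refine (Ideal.Quotient.eq_zero_iff_mem (I := J)).trans ?_
    exact Ideal.mem_span_singleton
  have hJ : ∀ a : O, a ∈ J → M.rs a = 0 := by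
    intro a ha
    obtain ⟨b, rfl⟩ := Ideal.mem_span_singleton.1 ha
    rw [map_mul, map_pow, hπ0, zero_pow (by omega), zero_mul]
  let r : (O ⧸ J) →ₐ[κ] κ := Ideal.Quotient.liftₐ J M.rs hJ
  have hr : ∀ x : O, r (ρ x) = M.rs x := fun x => rfl
  have hker : RingHom.ker r = Ideal.span {ρ M.π} := by
    ext x
    obtain ⟨x, rfl⟩ := hρs x
    rw [RingHom.mem_ker, hr, Ideal.mem_span_singleton]
    constructor
    · intro hx
      exact map_dvd ρ (M.ker x hx)
    · rintro ⟨b, hb⟩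
      obtain ⟨b, rfl⟩ := hρs b
      rw [← hr, hb, map_mul, hr, hπ0, zero_mul]
  have hfg : (RingHom.ker r).FG := by
    rw [hker]
    exact ⟨{ρ M.π}, by simp⟩
  have hnil : ∃ n : ℕ, RingHom.ker r ^ n = ⊥ := by
    refine ⟨N, ?_⟩
    rw [hker, Ideal.span_singleton_pow, ← map_pow, (hρ0 _).2 dvd_rfl]
    exact Ideal.span_singleton_eq_bot.2 rfl
  have hfac : ((d.factorial : ℕ) : κ) ≠ 0 := Nat.cast_ne_zero.2 (Nat.factorial_ne_zero d)
  -- the plumbing structure
  have hD := (hMSM M hd hfac).2.1 (ρ : O →+* (O ⧸ J)) ⟨N, (hρ0 _).2 dvd_rfl⟩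
  have hD' : Disc d (bc1 (ρ : O →+* (O ⧸ J)) M.P)
      (((X - C (ρ s₀)) ^ 2 - C (4 * ρ t)) * h.map (ρ : O →+* (O ⧸ J))) := by
    have e : M.f.map (ρ : O →+* (O ⧸ J)) =
        ((X - C (ρ s₀)) ^ 2 - C (4 * ρ t)) * h.map (ρ : O →+* (O ⧸ J)) := by
      rw [hf, ← ht]
      simp only [Polynomial.map_mul, Polynomial.map_sub, Polynomial.map_pow, Polynomial.map_X,
        Polynomial.map_C, RingHom.coe_coe]
      rw [map_mul ρ, map_ofNat ρ]
    rwa [e] at hD
  have hrρ : ((r : (O ⧸ J) →ₐ[κ] κ) : (O ⧸ J) →+* κ).comp (ρ : O →+* (O ⧸ J)) =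
      (M.rs : O →+* κ) := rfl
  have hhm : (h.map (ρ : O →+* (O ⧸ J))).map ((r : (O ⧸ J) →ₐ[κ] κ) : (O ⧸ J) →+* κ) =
      h.map (M.rs : O →+* κ) := by
    rw [Polynomial.map_map, hrρ]
  obtain ⟨h', hh1, hh2, hh3⟩ := hc
  have hheq : h.map (M.rs : O →+* κ) = h' := by
    have e : M.fb = (X - C c) ^ 2 * h.map (M.rs : O →+* κ) := by
      rw [Mdl.fb, hf]
      simp only [Polynomial.map_mul, Polynomial.map_sub, Polynomial.map_pow, Polynomial.map_X,
        Polynomial.map_C, RingHom.coe_coe, hs]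
      rw [map_mul M.rs, map_pow M.rs, hπ0, zero_pow two_ne_zero, zero_mul, C_0, sub_zero]
    rw [e] at hh1
    exact mul_left_cancel₀ (pow_ne_zero 2 (X_sub_C_ne_zero c)) hh1
  have hrt : M.rs t = 0 := by
    have e := congrArg M.rs ht
    rw [map_mul, map_mul, map_pow, hπ0, zero_pow (by norm_num), zero_mul, map_ofNat] at e
    exact (mul_eq_zero.1 e).resolve_left (by norm_num)
  obtain ⟨R₁, hR1, hR2, hR3, hR4, pt, hdis, hPT⟩ := hNPL r hnil hfg hd hfac
    (Kr_bc1 hKBC M.kr (ρ : O →+* (O ⧸ J))) (zz_bc1 M.z (ρ : O →+* (O ⧸ J))) hD'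
    ((hr t).trans hrt) (by rw [hhm, hheq]; exact hh3)
    (by
      rw [hhm, hheq, hr, hs]
      exact hh2)
    (by
      rw [← bc1_comp hKBC, hrρ, hr, hs]
      exact hGr)
  -- the value
  have hy' := hHV4 E t hG ρ v v' y hy
  rw [bc_uno, ← hPT] at hy'
  have htn : IsNilpotent (ρ t) := by
    refine ⟨N, ?_⟩
    rw [← map_pow, hρ0]
    obtain ⟨b, hb⟩ := M.ker t hrt
    rw [hb, mul_pow]
    exact dvd_mul_right _ _
  have hmem : ∀ i, kmap (ρ : O →+* (O ⧸ J)) (v i) ∈ EE (PT pt (ρ t)) := by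
    intro i
    rw [hPT, ← bc_uno]
    exact (bcE (ρ : O →+* (O ⧸ J)) (uno M.P) ⟨v i, hv i⟩).2
  obtain ⟨y', z, hyz, htz⟩ := hLOGF r hnil hfg (by omega : 2 ≤ g) E ⟨hR1, hR2, hR3, hR4⟩ pt hdis
    (ρ t) htn m _ _ _ hmem hy'
  obtain ⟨y', rfl⟩ := hρs y'
  obtain ⟨z, rfl⟩ := hρs z
  -- divisibility
  have ha : M.π ^ 2 ∣ t ∧ t ∣ M.π ^ 2 := by
    constructor
    · obtain ⟨b, hb⟩ := h4
      refine ⟨u * ((b⁻¹ : Oˣ) : O), ?_⟩
      have e : t = ((b⁻¹ : Oˣ) : O) * (4 * t) := by
        rw [← hb, ← mul_assoc, Units.inv_mul, one_mul]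
      rw [e, ht]
      ring
    · obtain ⟨b, rfl⟩ := hu
      refine ⟨4 * ((b⁻¹ : Oˣ) : O), ?_⟩
      have e : M.π ^ 2 = (M.π ^ 2 * (b : O)) * ((b⁻¹ : Oˣ) : O) := by
        rw [mul_assoc, Units.mul_inv, mul_one]
      rw [e, ← ht]
      ring
  have hz : t ^ m ∣ z := by
    rw [← map_mul, hρ0] at htz
    have h1 : M.π ^ N ∣ M.π ^ 2 * z := htz.trans (mul_dvd_mul_right ha.2 z)
    have h2 : M.π ^ (2 * m) ∣ z := by
      have e : M.π ^ N = M.π ^ 2 * M.π ^ (2 * m) := by
        rw [← pow_add]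
        congr 1
        omega
      rw [e] at h1
      exact (mul_dvd_mul_iff_left (pow_ne_zero 2 M.ne)).1 h1
    refine dvd_trans ?_ h2
    rw [pow_mul]
    exact pow_dvd_pow_of_dvd ha.2 m
  have hw : t ^ m ∣ y - (t ^ m * y' + z) := by
    have h1 : M.π ^ N ∣ y - (t ^ m * y' + z) := by
      rw [← hρ0, map_sub, map_add, map_mul, map_pow, sub_eq_zero]
      exact hyz
    refine dvd_trans ?_ h1
    have e : M.π ^ N = (M.π ^ 2) ^ m * M.π ^ 2 := by
      rw [← pow_mul, ← pow_add]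
    rw [e]
    exact (pow_dvd_pow_of_dvd ha.2 m).trans (dvd_mul_right _ _)
  have hfin : y = (y - (t ^ m * y' + z)) + (t ^ m * y' + z) := by ring
  rw [hfin]
  exact dvd_add hw (dvd_add (dvd_mul_right _ _) hz)

end UINaux

theorem t_UIN (hNPL : Stmt_NPL) (hUGL : Stmt_UGL) (hUPO : Stmt_UPO) (hUGD : Stmt_UGD)
    (hHV1 : Stmt_HV1) (hHV2 : Stmt_HV2) (hHV4 : Stmt_HV4) (hHV5 : Stmt_HV5) (hHV8 : Stmt_HV8)
    (hLOGF : Stmt_LOGF) (hKBC : Stmt_KBC) (hSDB : Stmt_SDB) (hCSM : Stmt_CSM)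
    (hMSM : Stmt_MSM) : Stmt_UIN := by
  intro k L _ _ _ _ _ _ _ g d R f E m S hg hd hR hz hf hfs hS v hv ω η hη
  haveI : CharZero k := charZero_of_injective_algebraMap (algebraMap ℂ k).injective
  haveI : CharZero L := charZero_of_injective_algebraMap (algebraMap ℂ L).injective
  letI : Algebra ℂ v.O := ((algebraMap k v.O).comp (algebraMap ℂ k)).toAlgebra
  haveI := v.M.frac
  have hinj : Function.Injective (algebraMap v.O L) := IsFractionRing.injective v.O L
  let φ : v.O →ₐ[ℂ] L :=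
    { algebraMap v.O L with
      commutes' := fun c => by
        change algebraMap v.O L (algebraMap k v.O (algebraMap ℂ k c)) = algebraMap ℂ L c
        rw [← IsScalarTower.algebraMap_apply k v.O L, ← IsScalarTower.algebraMap_apply ℂ k L] }
  have hφ : ∀ x, φ x = algebraMap v.O L x := fun x => rfl
  have hφ' : (φ : v.O →+* L) = algebraMap v.O L := rfl
  have hd1 : 1 ≤ d := by omega
  -- over `L`
  obtain ⟨hG, hSm, hDu, hPO, -⟩ := hUGL hd1 hR hz hf hfs
  set ω1 : Fin m → EE1 R := fun i => ω (Fin.castAdd m i) with hω1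
  set ω2 : Fin m → EE1 R := fun i => ω (Fin.natAdd m i) with hω2
  have hω : Fin.append ω1 ω2 = ω := Fin.append_castAdd_natAdd
  obtain ⟨x, hx⟩ := hHV1 E (1 : L) (P := uno R)
    (fun ζ hζ => by
      rw [one_smul]
      exact hPO hζ.1)
    (fun i _ => (ω1 i : LaurentSeries L)) (fun i _ => (ω2 i : LaurentSeries L))
    (fun i => mem_EE_uno.2 (ω1 i).2) (fun i => mem_EE_uno.2 (ω2 i).2)
  have hSx : S ω = x := by
    rw [← hω]
    exact hS ω1 ω2 x hx
  have hx' := (hHV8 E v.c (1 : L) hG).2 _ _ _ hx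
  set η1 : Fin m → KK Unit v.O := fun j _ => (η (Fin.castAdd m j) : LaurentSeries v.O) with hη1
  set η2 : Fin m → KK Unit v.O := fun j _ => (η (Fin.natAdd m j) : LaurentSeries v.O) with hη2
  have e1 : (fun (j : Fin m) (_ : Unit) =>
      ((v.c⁻¹ : Lˣ) : L) • sc v.c (ω1 j : LaurentSeries L)) =
      fun j => kmap (φ : v.O →+* L) (η1 j) := by
    funext j i
    exact (hη _).symm
  have e2 : (fun (j : Fin m) (_ : Unit) =>
      ((v.c⁻¹ : Lˣ) : L) • sc v.c (ω2 j : LaurentSeries L)) =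
      fun j => kmap (φ : v.O →+* L) (η2 j) := by
    funext j i
    exact (hη _).symm
  have hx2 : HV E (uno (R.map (sc v.c))) 1 (fun j => kmap (φ : v.O →+* L) (η1 j))
      (fun j => kmap (φ : v.O →+* L) (η2 j)) x := by
    rw [← e1, ← e2]
    exact hx'
  -- the transported ring
  have hbc : bc (φ : v.O →+* L) (uno v.M.P) = uno (R.map (sc v.c)) := by
    rw [bc_uno, hφ', v.M.bc]
  have hKQ : Kr g (R.map (sc v.c)) := by
    rw [← v.M.bc]
    exact UINaux.Kr_bc1 hKBC v.M.kr _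
  have hzQ : zz L d ∈ R.map (sc v.c) := by
    have h := UINaux.zz_bc1 v.M.z (algebraMap v.O L)
    rwa [v.M.bc] at h
  obtain ⟨hGQ, hSmQ, -, -, -⟩ := hUGL hd1 hKQ hzQ v.M.disc v.M.sep
  -- over `O`
  obtain ⟨hGM, -⟩ := hUGD v.M (by omega) hd hv
  have hη1m : ∀ i, η1 i ∈ EE (uno v.M.P) := fun i => mem_EE_uno.2 (η _).2
  have hη2m : ∀ i, η2 i ∈ EE (uno v.M.P) := fun i => mem_EE_uno.2 (η _).2
  have key : ∀ t : v.O, φ t ≠ 0 → (∀ ζ ∈ EE (uno v.M.P), t • ζ ∈ Om (uno v.M.P)) →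
      ∃ y : v.O, HV E (uno v.M.P) t η1 η2 y ∧ φ y = φ t ^ m * x := by
    intro t ht hO
    obtain ⟨y, hy⟩ := hHV1 E t hO η1 η2 hη1m hη2m
    refine ⟨y, hy, ?_⟩
    have h1 := hHV4 E t hGM φ η1 η2 y hy
    rw [hbc] at h1
    have h2 := hHV5 E (1 : L) (φ t) hGQ _ _ _ hx2
    rw [mul_one] at h2
    have h3 := (hHV2 E (φ t) hGQ
      (fun {B} _ ψ D => UINaux.hyp2 hSDB hCSM hKBC hKQ hSmQ (φ t) ψ D) m).1 _ _ _ _ h1 h2
    have h4 := (mul_eq_zero.1 h3).resolve_left ht
    exact sub_eq_zero.1 h4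
  obtain ⟨hU1, hU2⟩ := hUPO v.M (by omega) hd
  rcases hv with hv | hv
  · obtain ⟨y, -, hy⟩ := key 1 (by rw [map_one]; exact one_ne_zero) (fun ζ hζ => by
      rw [one_smul]
      exact hU1 hv hζ.1)
    refine ⟨y, ?_⟩
    rw [map_one, one_pow, one_mul] at hy
    rw [hSx]
    exact hy
  · have hv' := hv
    obtain ⟨c, s₀, u, h, hc, hGr, hs, hu, hff, -⟩ := hv
    set q : v.O := algebraMap k v.O (4 : k)⁻¹ with hq
    have h4q : 4 * q = 1 := by
      have e : algebraMap k v.O (4 * (4 : k)⁻¹) = 1 := by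
        rw [mul_inv_cancel₀ (by norm_num), map_one]
      rw [map_mul, map_ofNat] at e
      exact e
    have ht : 4 * (q * (v.M.π ^ 2 * u)) = v.M.π ^ 2 * u := by
      rw [← mul_assoc, h4q, one_mul]
    have hne : φ (q * (v.M.π ^ 2 * u)) ≠ 0 := by
      rw [hφ]
      intro h0
      rw [map_eq_zero_iff _ hinj] at h0
      rw [h0, mul_zero] at ht
      rcases mul_eq_zero.1 ht.symm with h1 | h1
      · exact v.M.ne (pow_eq_zero_iff (by norm_num) |>.1 h1)
      · exact hu.ne_zero h1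
    obtain ⟨y, hy1, hy2⟩ := key (q * (v.M.π ^ 2 * u)) hne (fun ζ hζ => by
      have h1 := hU2 hv' ζ hζ.1
      have e : (q * (v.M.π ^ 2 * u)) • ζ = (q * u) • (v.M.π ^ 2 • ζ) := by
        rw [smul_smul]
        congr 1
        ring
      rw [e]
      exact Submodule.smul_mem _ _ h1)
    obtain ⟨w, hw⟩ := UINaux.nod hNPL hMSM hKBC hHV4 hLOGF E v.M hg hd hGM hc hGr hs hu hff ht
      η1 η2 hη1m hy1
    refine ⟨w, ?_⟩
    rw [hSx]
    rw [hw, map_mul, map_pow] at hy2
    exact mul_left_cancel₀ (pow_ne_zero m hne) hy2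

end Pool.Agent.MG.G0


end

section

/-!
# Marked points exist (PAPER_V.md, UM0)
-/

namespace Pool.Agent.MG.G0

namespace UM0

variable {κ : Type} [Field κ]

theorem zz_sub_coeff {d : ℕ} (hd : 1 ≤ d) (c : κ) :
    (∀ m < -(d : ℤ), (zz κ d - algebraMap κ (LaurentSeries κ) c).coeff m = 0) ∧
      (zz κ d - algebraMap κ (LaurentSeries κ) c).coeff (-(d : ℤ)) = 1 := by
  constructor
  · intro m hm
    rw [HahnSeries.coeff_sub, coeff_algebraMap, if_neg (by omega), sub_zero, zz,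
      HahnSeries.coeff_single_of_ne (by omega)]
  · rw [HahnSeries.coeff_sub, coeff_algebraMap, if_neg (by omega), sub_zero, zz,
      HahnSeries.coeff_single_same]

theorem not_unit {g d : ℕ} {R : Subalgebra κ (LaurentSeries κ)} (hd : 1 ≤ d) (hR : Kr g R)
    (hz : zz κ d ∈ R) (c : κ) :
    ¬ IsUnit ((⟨fun _ => zz κ d, hz⟩ : uno R) - algebraMap κ (uno R) c) := by
  intro hu
  obtain ⟨y, hy⟩ := hu.exists_right_inv
  have hy1 : (zz κ d - algebraMap κ (LaurentSeries κ) c) * (y : KK Unit κ) () = 1 :=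
    congrFun (congrArg Subtype.val hy) ()
  set v : LaurentSeries κ := (y : KK Unit κ) () with hv
  have hv0 : v ≠ 0 := by
    intro h
    rw [h, mul_zero] at hy1
    exact zero_ne_one hy1
  have hlow : ∀ m < v.order, v.coeff m = 0 := fun m hm => HahnSeries.coeff_eq_zero_of_lt_order hm
  have hne : v.coeff v.order ≠ 0 := mt HahnSeries.coeff_order_eq_zero.1 hv0
  have h1 := mul_lead (zz_sub_coeff hd c).1 hlow
  rw [hy1, (zz_sub_coeff hd c).2, one_mul, HahnSeries.coeff_one] at h1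
  have h2 : -(d : ℤ) + v.order = 0 := by
    by_contra h
    rw [if_neg h] at h1
    exact hne h1.symm
  have hPo : (y : KK Unit κ) ∈ Pol Unit κ 0 := fun i m hm => hlow m (by omega)
  obtain ⟨a, ha⟩ := hR.k1 y y.2 hPo
  have hva : v = algebraMap κ (LaurentSeries κ) a := congrFun ha ()
  have ha0 : a = 0 := by
    have h3 := hlow 0 (by omega)
    rw [hva, coeff_algebraMap, if_pos rfl] at h3
    exact h3
  rw [ha0, map_zero] at hva
  exact hv0 hva

/-- Points over `z = c`. -/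
theorem exists_pt [IsAlgClosed κ] {g d : ℕ} {R : Subalgebra κ (LaurentSeries κ)} (hd : 1 ≤ d)
    (hR : Kr g R) (hz : zz κ d ∈ R) (hfp : Algebra.FiniteType κ (uno R)) (c : κ) :
    ∃ p : uno R →ₐ[κ] κ, p ⟨fun _ => zz κ d, hz⟩ = c := by
  obtain ⟨M, hM, hzM⟩ := exists_max_ideal_of_mem_nonunits
    (mem_nonunits_iff.2 (not_unit hd hR hz c))
  let _ : Field (uno R ⧸ M) := Ideal.Quotient.field M
  have hft : Algebra.FiniteType κ (uno R ⧸ M) :=
    Algebra.FiniteType.of_surjective (Ideal.Quotient.mkₐ κ M) (Ideal.Quotient.mkₐ_surjective κ M)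
  have hfin : Module.Finite κ (uno R ⧸ M) := finite_of_finite_type_of_isJacobsonRing κ (uno R ⧸ M)
  have hbij := IsAlgClosed.algebraMap_bijective_of_isIntegral (k := κ) (K := uno R ⧸ M)
  let e : κ ≃ₐ[κ] (uno R ⧸ M) := AlgEquiv.ofBijective (Algebra.ofId κ (uno R ⧸ M)) hbij
  refine ⟨(e.symm : (uno R ⧸ M) →ₐ[κ] κ).comp (Ideal.Quotient.mkₐ κ M), ?_⟩
  change e.symm (Ideal.Quotient.mk M ⟨fun _ => zz κ d, hz⟩) = c
  rw [AlgEquiv.symm_apply_eq]
  have h1 : Ideal.Quotient.mk M ((⟨fun _ => zz κ d, hz⟩ : uno R) - algebraMap κ (uno R) c) = 0 :=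
    Ideal.Quotient.eq_zero_iff_mem.2 hzM
  rw [map_sub, sub_eq_zero] at h1
  rw [h1]
  rfl

end UM0

/-- UM0: marked points exist. -/
theorem t_UM0 (hKFG : Stmt_KFG) (hAPT : Stmt_APT) (hAID : Stmt_AID) : Stmt_UM0 := by
  intro κ _ _ g d R n hd hR hz hT
  have hfp : Algebra.FinitePresentation κ (uno R) := (hKFG hR).1
  have hft : Algebra.FiniteType κ (uno R) := inferInstance
  have hinf : Infinite κ := IsAlgClosed.instInfinite
  let c : Fin n ↪ κ := (Fin.valEmbedding).trans (Infinite.natEmbedding κ)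
  choose p hp using fun i => UM0.exists_pt hd hR hz hft (c i)
  refine ⟨p, fun i j hij => ?_, fun i => ?_⟩
  · rw [Ideal.eq_top_iff_one]
    have hc : c i - c j ≠ 0 := sub_ne_zero.2 fun h => hij (c.injective h)
    set z : uno R := ⟨fun _ => zz κ d, hz⟩ with hzdef
    have h1 : z - algebraMap κ (uno R) (c i) ∈ RingHom.ker (p i) := by
      rw [RingHom.mem_ker, map_sub, AlgHom.commutes, hp]
      exact sub_self _
    have h2 : z - algebraMap κ (uno R) (c j) ∈ RingHom.ker (p j) := by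
      rw [RingHom.mem_ker, map_sub, AlgHom.commutes, hp]
      exact sub_self _
    have h3 : (1 : uno R) = algebraMap κ (uno R) (-(c i - c j)⁻¹) *
        (z - algebraMap κ (uno R) (c i)) +
          algebraMap κ (uno R) ((c i - c j)⁻¹) * (z - algebraMap κ (uno R) (c j)) := by
      have h4 : algebraMap κ (uno R) ((c i - c j)⁻¹) *
          (algebraMap κ (uno R) (c i) - algebraMap κ (uno R) (c j)) = 1 := by
        rw [← (algebraMap κ (uno R)).map_sub, ← (algebraMap κ (uno R)).map_mul, inv_mul_cancel₀ hc,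
        map_one]
      rw [map_neg]
      linear_combination (-1 : uno R) * h4
    rw [h3]
    exact Submodule.add_mem_sup (Ideal.mul_mem_left _ _ h1) (Ideal.mul_mem_left _ _ h2)
  · obtain ⟨pt, hpt⟩ := hAPT hT.1 hT.2 (p i)
    have hid : pt.id = RingHom.ker (p i) := by
      ext f
      rw [FPt.mem_id, hpt, RingHom.mem_ker]
    obtain ⟨-, h2, -, -⟩ := hAID hR hT.2 pt
    refine ⟨pt.x - algebraMap κ (uno R) (pt.ev pt.x), ?_, fun f hf => ?_⟩
    · rw [RingHom.mem_ker, map_sub, AlgHom.commutes, hpt]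
      exact sub_self _
    · obtain ⟨a, ha⟩ := h2 1 f (by
        rw [pow_one, hid]
        exact hf)
      refine ⟨a, ?_⟩
      rw [pow_one, hid] at ha
      exact ha

end Pool.Agent.MG.G0


end

section

/-!
# UVK: the value does not depend on the covector if the polarised values are zero
-/

open TensorProduct Polynomial

namespace Pool.Agent.MG.G0

namespace UVK

section

variable {I A : Type} [Fintype I] [CommRing A]

omit [Fintype I] in
/-- The form `dk` is surjective onto `Om`. -/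
theorem om_dk {P : Subalgebra A (KK I A)} {η : KK I A} (h : η ∈ Om P) :
    ∃ y : P ⊗[A] P, dk P y = η := by
  refine Submodule.span_induction (p := fun η _ => ∃ y : P ⊗[A] P, dk P y = η) ?_ ?_ ?_ ?_ h
  · rintro _ ⟨p, hp, f, hf, rfl⟩
    exact ⟨(⟨p, hp⟩ : P) ⊗ₜ (⟨f, hf⟩ : P), dk_tmul P ⟨p, hp⟩ ⟨f, hf⟩⟩
  · exact ⟨0, map_zero _⟩
  · rintro x y _ _ ⟨a, ha⟩ ⟨b, hb⟩
    exact ⟨a + b, by rw [map_add, ha, hb]⟩
  · rintro c x _ ⟨a, ha⟩
    exact ⟨c • a, by rw [map_smul, ha]⟩

/-- Existence of values. -/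
theorem hv1 [Algebra ℂ A] {g : ℕ} (E : Ev g) {P : Subalgebra A (KK I A)} (t : A)
    (h : ∀ ω ∈ EE P, t • ω ∈ Om P) {k : ℕ} (u u' : Fin k → KK I A) (hu : ∀ i, u i ∈ EE P)
    (hu' : ∀ i, u' i ∈ EE P) : ∃ x, HV E P t u u' x := by
  have h1 : ∀ i, ∃ η : DR P, dk P η = t • u i := by
    intro i
    obtain ⟨y, hy⟩ := om_dk (h (u i) (hu i))
    exact ⟨⟨y, (show dk P y ∈ Pol I A 0 from hy ▸ Submodule.smul_mem _ t (hu i).2)⟩, hy⟩
  choose η hη using h1
  exact ⟨_, hu', η, hη, rfl⟩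

end

/-- Every deformation of a smooth curve comes from a vector field. -/
theorem dd_tder (hSCO : Stmt_SCO) (hSKK : Stmt_SKK) {I A : Type} [Fintype I] [CommRing A]
    {g : ℕ} {P : Subalgebra A (KK I A)} (hK : IsKr g P) (hS : SmC A P) (D : DD P) :
    ∃ θ : KK I A, D = tder P θ := by
  obtain ⟨E, hE⟩ := (hSCO.2 hS).2.2 (KK I A) (MM P) (mk P) (mk_surj P) D
  obtain ⟨θ, hθ, -⟩ := (hSKK hK).2 hS E
  refine ⟨θ, Derivation.ext fun f => ?_⟩
  rw [tder_apply, ← hθ f, hE f]

/-- A multilinear form which vanishes on a spanning family is zero. -/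
theorem multi_zero {K M ι : Type} [Field K] [AddCommGroup M] [Module K M] [Fintype ι]
    [DecidableEq ι] {n : ℕ} (W : Fin n → M) (hW : ∀ m : M, ∃ c : Fin n → K, m = ∑ j, c j • W j)
    (G : MultilinearMap K (fun _ : ι => M) K) (h : ∀ r : ι → Fin n, G (fun i => W (r i)) = 0)
    (ω : ι → M) : G ω = 0 := by
  choose c hc using hW
  have h1 : ω = fun i => ∑ j, c (ω i) j • W j := funext fun i => hc (ω i)
  rw [h1, MultilinearMap.map_sum]
  refine Finset.sum_eq_zero fun r _ => ?_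
  rw [MultilinearMap.map_smul_univ, h, smul_zero]

/-- UVL for a subalgebra equal to `uno R`. -/
theorem uvl (hUVL : Stmt_UVL) {K : Type} [Field K] {g : ℕ}
    {R : Subalgebra K (LaurentSeries K)} (hR : Kr g R) (hN : Noe R)
    (Q : Subalgebra K (KK Unit K)) (hQ : Q = uno R) (l : CovL Q) :
    ∃ (n : ℕ) (ω ω' : Fin n → EE Q), ∀ θ : KK Unit K,
      l.1 (tder Q θ) = ∑ i, res (θ * ((ω i : KK Unit K) * (ω' i : KK Unit K))) := by
  subst hQ
  exact hUVL hR hN l

end UVK

open _root_.Pool.Agent.MG.G0.UVK in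
/-- UVK (U7): if the polarised values are zero then the value does not depend on the
covector. -/
theorem t_UVK (hKBC : Stmt_KBC) (hSTO : Stmt_STO) (hSCO : Stmt_SCO) (hSKK : Stmt_SKK)
    (hSDB : Stmt_SDB) (hHV2 : Stmt_HV2) (hHV4 : Stmt_HV4) (hHV9 : Stmt_HV9) (hUGL : Stmt_UGL)
    (hUVL : Stmt_UVL) : Stmt_UVK := by
  clear hSTO
  intro L K _ _ _ _ _ φ g d R f E hd hR hz hf hsep hN hS l
  have : CharZero L := charZero_of_injective_algebraMap (algebraMap ℂ L).injective
  have : CharZero K := charZero_of_injective_algebraMap (algebraMap ℂ K).injective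
  obtain ⟨hG, hSm, hDu, hPe, hA⟩ := hUGL hd hR hz hf hsep
  obtain ⟨-, -, hf'⟩ := hA (φ : L →+* K)
  -- the curve over K
  have hKr : IsKr g (bc (φ : L →+* K) (uno R)) := (hKBC.2.2.2 hR (φ : L →+* K)).1
  have hbc : bc (φ : L →+* K) (uno R) = uno (bc1 (φ : L →+* K) R) := bc_uno _ _
  have hR' : Kr g (bc1 (φ : L →+* K) R) := by
    change IsKr g (uno (bc1 (φ : L →+* K) R))
    rw [← hbc]
    exact hKr
  have hz' : zz K d ∈ bc1 (φ : L →+* K) R :=
    Algebra.subset_adjoin ⟨zz L d, hz, lmap_zz _ _⟩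
  have hsep' : (f.map (φ : L →+* K)).Separable := hsep.map
  obtain ⟨hG', hSm', -, hPe', -⟩ := hUGL hd hR' hz' hf' hsep'
  have hP1 : ∀ ω ∈ EE (uno R), (1 : L) • ω ∈ Om (uno R) := fun ω hω => by
    rw [one_smul]
    exact hPe hω.1
  -- the covectors
  rw [← hbc] at hG' hSm' hPe'
  have hP1' : ∀ ω ∈ EE (bc (φ : L →+* K) (uno R)), (1 : K) • ω ∈ Om (bc (φ : L →+* K) (uno R)) :=
    fun ω hω => by
      rw [one_smul]
      exact hPe' hω.1
  -- a spanning family
  obtain ⟨⟨ω, hω⟩, hω2⟩ := t_KFO t_KDU hR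
  obtain ⟨hωE, -⟩ := hω2 ω hω
  have hF := (hKBC.2.2.2 hR (φ : L →+* K)).2.1 ω hω
  obtain ⟨hWE, hWs⟩ := (t_KFO t_KDU hKr).2 _ hF
  have hW : ∀ m : EE (bc (φ : L →+* K) (uno R)), ∃ c : Fin g → K, m = ∑ j, c j •
      (⟨kmap (φ : L →+* K) (ω j), hWE j⟩ : EE (bc (φ : L →+* K) (uno R))) := by
    intro m
    obtain ⟨c, hc, -⟩ := hWs m m.2
    refine ⟨c, Subtype.ext ?_⟩
    rw [AddSubmonoidClass.coe_finsetSum]
    exact hc
  have hT : ∀ {B : Type} [CommRing B] (ψ : K →+* B) (D : DD (bc ψ (bc (φ : L →+* K) (uno R)))),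
      ∃ θ : KK Unit B, ψ 1 • D = tder (bc ψ (bc (φ : L →+* K) (uno R))) θ := by
    intro B _ ψ D
    rw [map_one, one_smul]
    exact dd_tder hSCO hSKK (hKBC.2.2.2 hKr ψ).1 (hSDB hKr hSm' ψ).1 D
  have hzero : ∀ (m : ℕ) (u u' : Fin m → KK Unit K) (x : K), 1 ≤ m →
      (∀ i, u i ∈ EE (bc (φ : L →+* K) (uno R))) →
      HV E (bc (φ : L →+* K) (uno R)) 1 u u' x → x = 0 := by
    intro m u u' x hm hu hx
    obtain ⟨G, hGx⟩ := (hHV2 E (1 : K) hG' hT m).2 hP1'
    obtain ⟨hu', hx'⟩ := id hx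
    have h0 : ∀ ω' : Fin m ⊕ Fin m → EE (bc (φ : L →+* K) (uno R)), G ω' = 0 := by
      refine multi_zero _ hW G fun r => ?_
      obtain ⟨y, hy⟩ := hv1 E (1 : L) hP1 (fun i => ω (r (Sum.inl i))) (fun i => ω (r (Sum.inr i)))
        (fun i => hωE _) (fun i => hωE _)
      have h1 := hS m hm (fun i => ⟨ω (r (Sum.inl i)) (), mem_EE_uno.1 (hωE _)⟩)
        (fun i => ⟨ω (r (Sum.inr i)) (), mem_EE_uno.1 (hωE _)⟩) y hy
      have h2 : y = 0 := by rw [← h1, MultilinearMap.zero_apply]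
      have h3 := hHV4 E (1 : L) hG φ _ _ _ hy
      rw [h2, map_zero, map_one] at h3
      have h4 := hGx (fun i => ⟨kmap (φ : L →+* K) (ω (r i)), hWE (r i)⟩) 0 h3
      rw [h4, mul_zero]
    have h5 := hGx (Sum.elim (fun i => ⟨u i, hu i⟩) (fun i => ⟨u' i, hu' i⟩)) x hx
    rw [h0, one_mul] at h5
    exact h5.symm
  obtain ⟨n, ω1, ω2, h12⟩ := uvl hUVL hR' hN _ hbc l
  have h6 := hHV9 E hG' hSm' hzero l n ω1 ω2 (fun i => hPe' (ω1 i).2.1) h12
  rw [h6]
  refine E.nat φ (uno R) hG 0 0 ?_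
  intro D D' _
  change (0 : K) = φ 0
  rw [map_zero]

end Pool.Agent.MG.G0


end

section

/-!
# The covectors are sums of products of regular differentials (PAPER_V, UVL)
-/

namespace Pool.Agent.MG.G0

namespace UVL

section

variable {I A : Type} [CommRing A] (P : Subalgebra A (KK I A))

theorem tder_add (θ θ' : KK I A) : tder P (θ + θ') = tder P θ + tder P θ' := by
  refine Derivation.ext fun f => ?_
  rw [Derivation.add_apply, tder_apply, tder_apply, tder_apply, add_mul, map_add]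

theorem tder_smul (a : A) (θ : KK I A) : tder P (a • θ) = a • tder P θ := by
  refine Derivation.ext fun f => ?_
  rw [Derivation.smul_apply, tder_apply, tder_apply, smul_mul_assoc, mk_smulA]

theorem tder_TT {θ : KK I A} (hθ : θ ∈ TT P) : tder P θ = 0 := by
  refine Derivation.ext fun f => ?_
  rw [tder_apply, Derivation.zero_apply, ← map_zero (mk P), mk_eq, sub_zero]
  exact hθ _ f.2

/-- A functional on the first order deformations as a functional of the vector field. -/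
noncomputable def Lam (l : DD P →ₗ[A] A) : KK I A →ₗ[A] A where
  toFun θ := l (tder P θ)
  map_add' θ θ' := by rw [tder_add, map_add]
  map_smul' a θ := by rw [tder_smul, map_smul, RingHom.id_apply]

theorem Lam_apply (l : DD P →ₗ[A] A) (θ : KK I A) : Lam P l θ = l (tder P θ) := rfl

/-- `θ ↦ res (θ x)` -/
noncomputable def rs [Fintype I] (x : KK I A) : KK I A →ₗ[A] A :=
  res ∘ₗ LinearMap.mulRight A x

theorem rs_apply [Fintype I] (x θ : KK I A) : rs x θ = res (θ * x) := rfl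

end

variable {K : Type} [Field K] {g : ℕ} {R : Subalgebra K (LaurentSeries K)}

/-- The residues with a basis of the regular differentials determine all residues. -/
theorem res_all {ω : Fin g → KK Unit K} (hω : ∀ η ∈ EE (uno R), ∃ c : Fin g → K, η = ∑ j, c j • (ω j : KK Unit K))
    {θ : KK Unit K} (hθ : ∀ i j, res (θ * (ω i * ω j)) = 0) {x y : KK Unit K}
    (hx : x ∈ EE (uno R)) (hy : y ∈ EE (uno R)) : res (θ * (x * y)) = 0 := by
  obtain ⟨c, rfl⟩ := hω x hx
  obtain ⟨d, rfl⟩ := hω y hy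
  rw [Finset.sum_mul, Finset.mul_sum, map_sum]
  refine Finset.sum_eq_zero fun i _ => ?_
  rw [Finset.mul_sum, Finset.mul_sum, map_sum]
  refine Finset.sum_eq_zero fun j _ => ?_
  rw [smul_mul_smul_comm, mul_smul_comm, map_smul, hθ, smul_zero]

theorem res_one {ω : Fin g → KK Unit K}
    (hω : ∀ η ∈ EE (uno R), ∃ c : Fin g → K, η = ∑ j, c j • (ω j : KK Unit K))
    {θ : KK Unit K} (hθ : ∀ i j, res (θ * (ω i * ω j)) = 0) :
    ∀ x ∈ EE1 R, ∀ y ∈ EE1 R, (θ () * x * y).coeff (-1) = 0 := by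
  intro x hx y hy
  have hx' : (fun _ => x : KK Unit K) ∈ EE (uno R) := mem_EE_uno.2 hx
  have hy' : (fun _ => y : KK Unit K) ∈ EE (uno R) := mem_EE_uno.2 hy
  have h2 := res_all hω hθ hx' hy'
  rw [res_unit] at h2
  rw [mul_assoc]
  exact h2

theorem Lam_zero (l : CovL (uno R)) {θ : KK Unit K} {θ' : LaurentSeries K} (hθ' : θ' ∈ TT1 R)
    (hd : θ () - θ' ∈ Po K 0) : Lam (uno R) l.1 θ = 0 := by
  have h1 : (fun _ => θ' : KK Unit K) ∈ TT (uno R) := mem_TT_uno.2 hθ'
  have h2 : (fun _ => θ () - θ' : KK Unit K) ∈ Pol Unit K 0 := mem_Pol_unit.2 hd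
  have e : θ = (fun _ => θ' : KK Unit K) + (fun _ => θ () - θ' : KK Unit K) := by
    funext u
    exact (add_sub_cancel θ' (θ ())).symm
  have h3 : Lam (uno R) l.1 (fun _ => θ' : KK Unit K) = 0 := by
    rw [Lam_apply, tder_TT (uno R) h1, map_zero]
  have h4 : Lam (uno R) l.1 (fun _ => θ () - θ' : KK Unit K) = 0 := l.2 _ h2
  rw [e, map_add, h3, h4, add_zero]

theorem fin {ω : Fin g → KK Unit K} (hE : ∀ j, ω j ∈ EE (uno R)) (l : CovL (uno R))
    (hs : Lam (uno R) l.1 ∈ Submodule.span K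
      (Set.range fun k : Fin g × Fin g => (rs (ω k.1 * ω k.2) : KK Unit K →ₗ[K] K))) :
    ∃ (n : ℕ) (ω ω' : Fin n → EE (uno R)), ∀ θ : KK Unit K,
      l.1 (tder (uno R) θ) = ∑ i, res (θ * ((ω i : KK Unit K) * (ω' i : KK Unit K))) := by
  rw [Submodule.mem_span_range_iff_exists_fun] at hs
  obtain ⟨c, hc⟩ := hs
  refine ⟨g * g, fun k => ⟨c (finProdFinEquiv.symm k) • ω (finProdFinEquiv.symm k).1,
    Submodule.smul_mem _ _ (hE _)⟩, fun k => ⟨ω (finProdFinEquiv.symm k).2, hE _⟩, fun θ => ?_⟩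
  have h1 : l.1 (tder (uno R) θ) = ∑ k : Fin g × Fin g, c k * res (θ * (ω k.1 * ω k.2)) := by
    rw [← Lam_apply, ← hc, LinearMap.sum_apply]
    rfl
  rw [h1, ← Equiv.sum_comp finProdFinEquiv.symm]
  refine Finset.sum_congr rfl fun k _ => ?_
  rw [← smul_eq_mul, ← map_smul, ← mul_smul_comm, ← smul_mul_assoc]

end UVL

theorem t_UVL (hKFO : Stmt_KFO) : Stmt_UVL := by
  intro K _ g R hR hN l
  obtain ⟨⟨ω, hω⟩, hF⟩ := hKFO hR
  obtain ⟨hE, hu⟩ := hF ω hω
  have hu' : ∀ η ∈ EE (uno R), ∃ c : Fin g → K, η = ∑ j, c j • (ω j : KK Unit K) :=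
    fun η hη => (hu η hη).exists
  have hker : ⨅ k : Fin g × Fin g, LinearMap.ker (UVL.rs (ω k.1 * ω k.2)) ≤
      LinearMap.ker (UVL.Lam (uno R) l.1) := by
    intro θ hθ
    rw [Submodule.mem_iInf] at hθ
    rw [LinearMap.mem_ker]
    have h0 : ∀ i j, res (θ * (ω i * ω j)) = 0 := fun i j => LinearMap.mem_ker.1 (hθ (i, j))
    obtain ⟨θ', hθ', hd⟩ := hN (θ ()) (UVL.res_one hu' h0)
    exact UVL.Lam_zero l hθ' hd
  exact UVL.fin hE l (mem_span_of_iInf_ker_le_ker hker)

end Pool.Agent.MG.G0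


end
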