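import Mathlib
import Pool.Agent.KDM.C02
import Pool.Agent.KDM.C17
import Pool.Agent.KDM.C18
import Pool.Agent.KDM.C27
import Pool.Agent.KDM.Fin

/-! Parts: MG.H2.StmtsG, MG.H2.StmtsN, MG.H2.HCU, MG.H2.Surj, MG.H2.HLI, MG.H2.NGE, MG.H2.NDR, MG.H2.HGE, MG.H2.HDR, MG.G0.KSP -/

section

/-!
# Generic curves of genus two: statements
-/

open CategoryTheory CategoryTheory.Limits AlgebraicGeometry TensorProduct

namespace Pool.Agent.MG.H2

/-- The derivations of `K` move the roots `r 0`, `r 1`, `r 2` independently and fix the others. -/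
def Indep {K : Type} [Field K] [Algebra ℂ K] (r : Fin 6 → K) : Prop :=
  ∀ w : Fin 3 → K, ∃ D : Derivation ℂ K K, D (r 0) = w 0 ∧ D (r 1) = w 1 ∧ D (r 2) = w 2 ∧
    D (r 3) = 0 ∧ D (r 4) = 0 ∧ D (r 5) = 0

/-- HDR: there are such fields. -/
def Stmt_HDR : Prop :=
  ∃ (K : Type) (_ : Field K) (_ : IsAlgClosed K) (_ : Algebra ℂ K) (r : Fin 6 → K),
    Function.Injective r ∧ Indep r

/-- HGE: the curve `y² = ∏ (x - r i)` is generic. -/
def Stmt_HGE : Prop :=
  ∀ {K : Type} [Field K] [Algebra ℂ K] (r : Fin 6 → K), Function.Injective r → Indep r →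
    ∀ d : Defo 2 (Hyp (rts r)), ∃ (D : Derivation ℂ K K)
      (f : Arrow (Std.epsDer D) d.y (Hyp (rts r))), d.r.f ≫ f.f = 𝟙 (Hyp (rts r)).X

end Pool.Agent.MG.H2


end

section

/-!
# Curves of genus two with marked points: statements
-/

open CategoryTheory CategoryTheory.Limits AlgebraicGeometry TensorProduct

namespace Pool.Agent.MG.H2

/-- The family `x` with other sections. -/
def wpt {n m : ℕ} {A : Type} [CommRing A] (x : Fam n A) (σ : Fin m → (Sp A ⟶ x.X))
    (hσ : ∀ i, σ i ≫ x.π = 𝟙 (Sp A)) : Fam m A where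
  X := x.X
  π := x.π
  σ := σ
  sec := hσ

/-- NPT: disjoint sections in the smooth locus. -/
def Stmt_NPT : Prop :=
  ∀ {m : ℕ} {A : Type} [CommRing A] (g : ℕ) (x : Fam 0 A), IsStable g x →
    ∀ (σ : Fin m → (Sp A ⟶ x.X)) (hσ : ∀ i, σ i ≫ x.π = 𝟙 (Sp A)),
    (∀ i, ∃ U : x.X.Opens, Smooth (U.ι ≫ x.π) ∧ ∀ s, σ i s ∈ U) →
    (∀ (K : Type) [Field K] [IsAlgClosed K] (s : A →+* K) (i j : Fin m), i ≠ j →
      spMap s ≫ σ i ≠ spMap s ≫ σ j) → IsStable g (wpt x σ hσ)

/-- NMV: at the zero covector a regular function does not depend on one marked point. -/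
def Stmt_NMV : Prop :=
  ∀ {n : ℕ} {k : Type} [Field k] [IsAlgClosed k] [Algebra ℂ k] (g : ℕ), 2 ≤ g →
    ∀ (F : Reg g n) (C : Fam 0 k), IsStable g C → SmoothOfRelativeDimension 1 C.π →
    ∀ (σ τ : Fin n → (Sp k ⟶ C.X)) (hσ : ∀ i, σ i ≫ C.π = 𝟙 (Sp k))
      (hτ : ∀ i, τ i ≫ C.π = 𝟙 (Sp k)) (i₀ : Fin n), (∀ i, i ≠ i₀ → σ i = τ i) →
      Function.Injective σ → Function.Injective τ →
      ∀ (h1 : IsStable g (wpt C σ hσ)) (h2 : IsStable g (wpt C τ hτ)),
        F.F k (wpt C σ hσ) h1 0 = F.F k (wpt C τ hτ) h2 0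

/-- NMA: at the zero covector a regular function does not depend on the marked points. -/
def Stmt_NMA : Prop :=
  ∀ {n : ℕ} {k : Type} [Field k] [IsAlgClosed k] [Algebra ℂ k] (g : ℕ), 2 ≤ g →
    ∀ (F : Reg g n) (C : Fam 0 k), IsStable g C → SmoothOfRelativeDimension 1 C.π →
    {s : Sp k ⟶ C.X | s ≫ C.π = 𝟙 (Sp k)}.Infinite →
    ∀ (σ τ : Fin n → (Sp k ⟶ C.X)) (hσ : ∀ i, σ i ≫ C.π = 𝟙 (Sp k))
      (hτ : ∀ i, τ i ≫ C.π = 𝟙 (Sp k)), Function.Injective σ → Function.Injective τ →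
      ∀ (h1 : IsStable g (wpt C σ hσ)) (h2 : IsStable g (wpt C τ hτ)),
        F.F k (wpt C σ hσ) h1 0 = F.F k (wpt C τ hτ) h2 0

section pnt

variable {B : Type} [CommRing B] (f : Fin 7 → B)

theorem pnt_h {a b : B} (h : b ^ 2 = pol f a) :
    b ^ 2 = pol (fun i => RingHom.id B (f i)) a := h

/-- The section `x = a`, `y = b` of the curve `y² = f(x)`. -/
noncomputable def pnt (a b : B) (h : b ^ 2 = pol f a) : Sp B ⟶ HX B f :=
  spMap (lift1 (RingHom.id B) a b (pnt_h f h)) ≫ HX.in1 B f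

theorem pnt_pr (a b : B) (h : b ^ 2 = pol f a) : pnt f a b h ≫ HX.pr B f = 𝟙 (Sp B) := by
  have e : (lift1 (RingHom.id B) a b (pnt_h f h)).comp (algebraMap B _) = RingHom.id B := by
    ext c
    exact lift1_b (f := f) _ _ _ (pnt_h f h) c
  rw [pnt, Category.assoc, HX.in1_pr, ← Spec.map_comp, ← CommRingCat.ofHom_comp, e]
  exact Spec.map_id _

/-- The curve `y² = f(x)` with the marked points `(a i, b i)`. -/
noncomputable def HypS {n : ℕ} (a b : Fin n → B) (h : ∀ i, b i ^ 2 = pol f (a i)) : Fam n B :=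
  wpt (Hyp f) (fun i => pnt f (a i) (b i) (h i)) (fun i => pnt_pr f (a i) (b i) (h i))

end pnt

/-- The derivations of `K` move the roots `r 0`, `r 1`, `r 2` and the `a i` independently and fix
the other roots. -/
def IndepN {K : Type} [Field K] [Algebra ℂ K] {n : ℕ} (r : Fin 6 → K) (a : Fin n → K) : Prop :=
  ∀ (w : Fin 3 → K) (v : Fin n → K), ∃ D : Derivation ℂ K K, D (r 0) = w 0 ∧ D (r 1) = w 1 ∧
    D (r 2) = w 2 ∧ D (r 3) = 0 ∧ D (r 4) = 0 ∧ D (r 5) = 0 ∧ ∀ i, D (a i) = v i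

/-- NDR: there are such fields. -/
def Stmt_NDR : Prop :=
  ∀ n : ℕ, ∃ (K : Type) (_ : Field K) (_ : IsAlgClosed K) (_ : Algebra ℂ K) (r : Fin 6 → K)
    (a : Fin n → K), Function.Injective r ∧ Function.Injective a ∧ (∀ i j, a i ≠ r j) ∧
      IndepN r a

/-- NGE: the curve `y² = ∏ (x - r i)` with the marked points `(a i, b i)` is generic. -/
def Stmt_NGE : Prop :=
  ∀ {n : ℕ} {K : Type} [Field K] [Algebra ℂ K] (r : Fin 6 → K) (a b : Fin n → K)
    (h : ∀ i, b i ^ 2 = pol (rts r) (a i)), Function.Injective r → (∀ i j, a i ≠ r j) →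
    IndepN r a → IsStable 2 (Hyp (rts r)) → ∀ d : Defo 2 (HypS (rts r) a b h),
    ∃ (D : Derivation ℂ K K) (f : Arrow (Std.epsDer D) d.y (HypS (rts r) a b h)),
      d.r.f ≫ f.f = 𝟙 (HypS (rts r) a b h).X

/-- NAL: elements of an algebraic closure which are integral and invariant. -/
def Stmt_NAL : Prop :=
  ∀ (B : Type) [CommRing B] [IsDomain B] [IsIntegrallyClosed B] [CharZero B]
    (x : AlgebraicClosure (FractionRing B)), IsIntegral B x →
    (∀ σ : AlgebraicClosure (FractionRing B) ≃ₐ[FractionRing B] AlgebraicClosure (FractionRing B),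
      σ x = x) → ∃ b : B, algebraMap B (AlgebraicClosure (FractionRing B)) b = x

/-- NLY: homomorphisms to algebraically closed fields extend to integral extensions. -/
def Stmt_NLY : Prop :=
  ∀ (B R : Type) [CommRing B] [CommRing R] [Algebra B R] [FaithfulSMul B R]
    [Algebra.IsIntegral B R] (L : Type) [Field L] [IsAlgClosed L] (φ : B →+* L),
    ∃ ψ : R →+* L, ∀ b, ψ (algebraMap B R b) = φ b

end Pool.Agent.MG.H2


end

section

/-!
# HCU: covectors on the curves `y² = ∏ (x - r i)` (helper98)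
-/

open CategoryTheory CategoryTheory.Limits AlgebraicGeometry TensorProduct

namespace Pool.Agent.MG.H2

namespace HCU

theorem spMap_id (A : Type) [CommRing A] : spMap (RingHom.id A) = 𝟙 (Sp A) := Spec.map_id _

/-! ### functoriality of the base change -/

section functor

variable {B B' B'' : Type} [CommRing B] [CommRing B'] [CommRing B''] (φ : B →+* B')
  (ψ : B' →+* B'') {f : Fin 7 → B} {f' : Fin 7 → B'} {f'' : Fin 7 → B''}

theorem bc1_comp (h : ∀ i, f' i = φ (f i)) (h' : ∀ i, f'' i = ψ (f' i)) {χ : B →+* B''}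
    (hχ : ψ.comp φ = χ) (h'' : ∀ i, f'' i = χ (f i)) :
    (bc1 ψ h').comp (bc1 φ h) = bc1 χ h'' := by
  subst hχ
  refine hom1_ext ?_ ?_ ?_
  · intro c
    rw [RingHom.comp_apply, bc1_b, bc1_b, bc1_b]
    rfl
  · rw [RingHom.comp_apply, bc1_x, bc1_x, bc1_x]
  · rw [RingHom.comp_apply, bc1_y, bc1_y, bc1_y]

theorem map_comp (h : ∀ i, f' i = φ (f i)) (h' : ∀ i, f'' i = ψ (f' i)) {χ : B →+* B''}
    (hχ : ψ.comp φ = χ) (h'' : ∀ i, f'' i = χ (f i)) :
    HX.map ψ h' ≫ HX.map φ h = HX.map χ h'' := by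
  refine HX.ext' ?_ ?_
  · rw [← Category.assoc, HX.in1_map, Category.assoc, HX.in1_map, ← Category.assoc, spMap_comp',
      HX.in1_map, bc1_comp φ ψ h h' hχ h'']
  · rw [← Category.assoc, HX.in2_map, Category.assoc, HX.in2_map, ← Category.assoc, spMap_comp',
      HX.in2_map]
    exact congrArg (fun g => spMap g ≫ HX.in2 B f)
      (bc1_comp φ ψ (rev_bc φ h) (rev_bc ψ h') hχ (rev_bc χ h''))

/-- The base change arrow. -/
noncomputable def arr (hBC : Stmt_HBC) (h : ∀ i, f' i = φ (f i)) : Arrow φ (Hyp f') (Hyp f) where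
  f := HX.map φ h
  cart := hBC φ h
  sec := fun i => i.elim0

end functor

/-! ### the deformations -/

theorem Cov_ext {n : ℕ} {A : Type} [CommRing A] {g : ℕ} {x : Fam n A} (l l' : Cov g x)
    (h : ∀ d, l.l d = l'.l d) : l = l' := by
  cases l
  cases l'
  have : ‹Defo g x → A› = ‹Defo g x → A› := rfl
  congr
  exact funext h

section defo

variable {K : Type} [Field K] (f0 : Fin 7 → K)

/-- The stability hypothesis. -/
def Stb : Prop :=
  (∀ f : Fin 7 → Eps K, (∀ i, f0 i = eps0 K (f i)) → IsStable 2 (Hyp f)) ∧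
    ∀ f : Fin 7 → Eps2 K, (∀ i, f0 i = eps20 K (f i)) → IsStable 2 (Hyp f)

variable {f0}

theorem sq_zero {M : Type} [AddCommGroup M] [Module K M] [Module Kᵐᵒᵖ M]
    [IsCentralScalar K M] (a : TrivSqZeroExt K M)
    (ha : a.fst = 0) : a * a = 0 := by
  ext
  · rw [TrivSqZeroExt.fst_mul, ha, zero_mul, TrivSqZeroExt.fst_zero]
  · rw [TrivSqZeroExt.snd_mul, ha]
    simp

variable (hBC : Stmt_HBC) (hst : Stb f0)

include hst in
theorem stb1 (F : Fin 7 → Eps K) (hF : ∀ i, f0 i = eps0 K (F i)) : IsStable 2 (Hyp F) :=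
  hst.1 F hF

include hst in
theorem stb2 (F : Fin 7 → Eps2 K) (hF : ∀ i, f0 i = eps20 K (F i)) : IsStable 2 (Hyp F) :=
  hst.2 F hF

/-- The deformation given by a lift of the coefficients. -/
noncomputable def dg (F : Fin 7 → Eps K) (hF : ∀ i, f0 i = eps0 K (F i)) : Defo 2 (Hyp f0) where
  y := Hyp F
  stable := stb1 hst F hF
  r := arr (eps0 K) hBC hF

theorem dg_congr {F F' : Fin 7 → Eps K} (hF : ∀ i, f0 i = eps0 K (F i))
    (hF' : ∀ i, f0 i = eps0 K (F' i)) (h : F = F') : dg hBC hst F hF = dg hBC hst F' hF' := by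
  subst h
  rfl

/-- The lift of the coefficients. -/
def lf (f0 : Fin 7 → K) (h : Fin 7 → K) : Fin 7 → Eps K :=
  fun i => TrivSqZeroExt.inl (f0 i) + TrivSqZeroExt.inr (h i)

theorem lf_p (h : Fin 7 → K) (i : Fin 7) : f0 i = eps0 K (lf f0 h i) := by
  simp [lf]

theorem lf_fst (h : Fin 7 → K) (i : Fin 7) : (lf f0 h i).fst = f0 i := by
  simp [lf]

theorem lf_snd (h : Fin 7 → K) (i : Fin 7) : (lf f0 h i).snd = h i := by
  simp [lf]

/-- The deformation `y² = f0 + ε h`. -/
noncomputable def dh (h : Fin 7 → K) : Defo 2 (Hyp f0) := dg hBC hst (lf f0 h) (lf_p h)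

theorem dh_eq (h : Fin 7 → K) (hs hc) : dfm f0 h hs hc = dh hBC hst h := rfl

variable (l : Cov 2 (Hyp f0))

theorem smul (a : K) (h : Fin 7 → K) :
    l.l (dh hBC hst (a • h)) = a * l.l (dh hBC hst h) := by
  have e : ∀ i, lf f0 (a • h) i = epsScale a (lf f0 h i) := by
    intro i
    ext
    · simp [lf]
    · simp [lf, mul_comm]
  refine l.scale a (dh hBC hst h) (dh hBC hst (a • h)) (arr (epsScale a) hBC e) ?_
  refine map_comp (epsScale a) (eps0 K) e (lf_p (a • h)) ?_ (lf_p h)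
  ext z <;> simp

theorem zero : l.l (dh hBC hst 0) = 0 := by
  have h := smul hBC hst l 0 0
  rw [zero_smul, zero_mul] at h
  exact h

theorem add (h h' : Fin 7 → K) :
    l.l (dh hBC hst (h + h')) = l.l (dh hBC hst h) + l.l (dh hBC hst h') := by
  let F : Fin 7 → Eps2 K := fun i => TrivSqZeroExt.inl (f0 i) + TrivSqZeroExt.inr (h i, h' i)
  have hF : ∀ i, f0 i = eps20 K (F i) := by
    intro i
    simp [F]
  have e1 : ∀ i, lf f0 h i = epsPair (1 : K) 0 (F i) := by
    intro i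
    ext
    · simp [lf, F]
    · simp [lf, F]
  have e2 : ∀ i, lf f0 h' i = epsPair (0 : K) 1 (F i) := by
    intro i
    ext
    · simp [lf, F]
    · simp [lf, F]
  have e3 : ∀ i, lf f0 (h + h') i = epsPair (1 : K) 1 (F i) := by
    intro i
    ext
    · simp [lf, F]
    · simp [lf, F]
  refine l.add (Hyp F) (stb2 hst F hF) (arr (eps20 K) hBC hF) (dh hBC hst h) (dh hBC hst h')
    (dh hBC hst (h + h')) (arr (epsPair (1 : K) 0) hBC e1) (arr (epsPair (0 : K) 1) hBC e2)
    (arr (epsPair (1 : K) 1) hBC e3) ?_ ?_ ?_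
  · refine map_comp (epsPair (1 : K) 0) (eps0 K) e1 (lf_p h) ?_ hF
    ext z <;> simp
  · refine map_comp (epsPair (0 : K) 1) (eps0 K) e2 (lf_p h') ?_ hF
    ext z <;> simp
  · refine map_comp (epsPair (1 : K) 1) (eps0 K) e3 (lf_p (h + h')) ?_ hF
    ext z <;> simp

theorem dir_zero (hTR : Stmt_HTR) (ξ0 ξ1 ξ2 c : K) :
    l.l (dh hBC hst (dir ξ0 ξ1 ξ2 c f0)) = 0 := by
  let ε : Eps K := TrivSqZeroExt.inr 1
  have hε : ε * ε = 0 := by simp [ε]
  let F : Fin 7 → Eps K := fun i => TrivSqZeroExt.inl (f0 i)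
  let G : Fin 7 → Eps K := fun i => F i + ε * dir (TrivSqZeroExt.inl ξ0) (TrivSqZeroExt.inl ξ1)
    (TrivSqZeroExt.inl ξ2) (TrivSqZeroExt.inl c) F i
  have hd : ∀ i, dir (TrivSqZeroExt.inl ξ0 : Eps K) (TrivSqZeroExt.inl ξ1)
      (TrivSqZeroExt.inl ξ2) (TrivSqZeroExt.inl c) F i =
      TrivSqZeroExt.inl (dir ξ0 ξ1 ξ2 c f0 i) := by
    intro i
    have hm : ∀ x y : K, (TrivSqZeroExt.inl (x * y) : Eps K) =
      TrivSqZeroExt.inl x * TrivSqZeroExt.inl y := fun x y => TrivSqZeroExt.inl_mul K x y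
    have h2 : (TrivSqZeroExt.inl 2 : Eps K) = 2 := rfl
    have h3 : (TrivSqZeroExt.inl 3 : Eps K) = 3 := rfl
    have h4 : (TrivSqZeroExt.inl 4 : Eps K) = 4 := rfl
    have h5 : (TrivSqZeroExt.inl 5 : Eps K) = 5 := rfl
    have h6 : (TrivSqZeroExt.inl 6 : Eps K) = 6 := rfl
    fin_cases i <;>
      simp [dir, F, TrivSqZeroExt.inl_add, TrivSqZeroExt.inl_sub, hm, h2, h3, h4, h5, h6]
  have hG : ∀ i, G i = lf f0 (dir ξ0 ξ1 ξ2 c f0) i := by
    intro i
    show F i + ε * _ = _
    rw [hd i]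
    ext
    · simp [lf, F, ε]
    · simp [lf, F, ε]
  have hF0 : ∀ i, F i = lf f0 0 i := by
    intro i
    ext
    · simp [lf, F]
    · simp [lf, F]
  obtain ⟨a, -, ha⟩ := hTR ε (TrivSqZeroExt.inl ξ0) (TrivSqZeroExt.inl ξ1)
    (TrivSqZeroExt.inl ξ2) (TrivSqZeroExt.inl c) hε F
  have hGp : ∀ i, f0 i = eps0 K (G i) := fun i => by rw [hG i]; exact lf_p _ i
  have hFp : ∀ i, f0 i = eps0 K (F i) := fun i => by rw [hF0 i]; exact lf_p _ i
  have h1 : l.l (dg hBC hst G hGp) = l.l (dg hBC hst F hFp) := by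
    refine l.iso _ _ a ?_
    exact ha (eps0 K) (by simp [ε]) hGp hFp
  have h2 : dg hBC hst G hGp = dh hBC hst (dir ξ0 ξ1 ξ2 c f0) :=
    dg_congr hBC hst hGp _ (funext hG)
  have h3 : dg hBC hst F hFp = dh hBC hst 0 := dg_congr hBC hst hFp _ (funext hF0)
  rw [h2, h3, zero] at h1
  exact h1

/-- Every deformation is of the form `y² = f0 + ε h`. -/
theorem ex (hHE : Stmt_HE) (h2 : IsUnit (2 : K)) (d : Defo 2 (Hyp f0)) :
    ∃ h : Fin 7 → K, ∀ l : Cov 2 (Hyp f0), l.l d = l.l (dh hBC hst h) := by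
  obtain ⟨f', hf, a, ha⟩ := hHE (sqEps K) f0 h2 d.thk
  refine ⟨fun i => (f' i).snd, fun l => ?_⟩
  have h3 : l.l d = l.l (dg hBC hst f' hf) := l.iso d _ a ha
  rw [h3]
  congr 1
  refine dg_congr hBC hst _ _ (funext fun i => ?_)
  ext
  · rw [lf_fst]
    exact (hf i).symm
  · rw [lf_snd]

end defo

end HCU

open _root_.Pool.Agent.MG.H2.HCU in
/-- HCU with less stability. -/
theorem hcu_core (hHE : Stmt_HE) (hHTR : Stmt_HTR) (hHLI : Stmt_HLI) (hHBC : Stmt_HBC)
    {K : Type} [Field K] [CharZero K] (r : Fin 6 → K) (hr : Function.Injective r)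
    (hst' : Stb (rts r)) (l l' : Cov 2 (Hyp (rts r)))
    (hl : ∀ (i : Fin 3) hs hc, l.l (dfm (rts r) (mvr r (i.castLE (by norm_num))) hs hc) =
      l'.l (dfm (rts r) (mvr r (i.castLE (by norm_num))) hs hc)) : l = l' := by
  have h2 : IsUnit (2 : K) := isUnit_iff_ne_zero.2 two_ne_zero
  have hm : ∀ i : Fin 3, l.l (dh hHBC hst' (mvr r (i.castLE (by norm_num)))) =
      l'.l (dh hHBC hst' (mvr r (i.castLE (by norm_num)))) := by
    intro i
    exact hl i (stb1 hst' _ (lf_p _)) (hHBC _ _)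
  refine Cov_ext _ _ fun d => ?_
  obtain ⟨h, hd⟩ := ex hHBC hst' hHE h2 d
  rw [hd l, hd l']
  obtain ⟨w, ξ0, ξ1, ξ2, c, hh⟩ := hHLI r hr h
  have e : h = w 0 • mvr r 0 + w 1 • mvr r 1 + w 2 • mvr r 2 + dir ξ0 ξ1 ξ2 c (rts r) := by
    funext j
    rw [hh j]
    rfl
  have key : ∀ l : Cov 2 (Hyp (rts r)), l.l (dh hHBC hst' h) =
      w 0 * l.l (dh hHBC hst' (mvr r 0)) + w 1 * l.l (dh hHBC hst' (mvr r 1)) +
      w 2 * l.l (dh hHBC hst' (mvr r 2)) := by
    intro l
    rw [e, add, add, add, smul, smul, smul, dir_zero hHBC hst' l hHTR, add_zero]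
  rw [key l, key l']
  have m0 := hm 0
  have m1 := hm 1
  have m2 := hm 2
  have e0 : (Fin.castLE (by norm_num) (0 : Fin 3) : Fin 6) = 0 := rfl
  have e1 : (Fin.castLE (by norm_num) (1 : Fin 3) : Fin 6) = 1 := rfl
  have e2 : (Fin.castLE (by norm_num) (2 : Fin 3) : Fin 6) = 2 := rfl
  rw [e0] at m0
  rw [e1] at m1
  rw [e2] at m2
  rw [m0, m1, m2]

open _root_.Pool.Agent.MG.H2.HCU in
/-- HCU -/
theorem t_HCU (hHE : Stmt_HE) (hHTR : Stmt_HTR) (hHLI : Stmt_HLI) (hHBC : Stmt_HBC) :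
    Stmt_HCU := by
  intro K _ _ r hr hst l l' hl
  refine hcu_core hHE hHTR hHLI hHBC r hr ⟨fun f hf => ?_, fun f hf => ?_⟩ l l' hl
  · exact hst (Eps K) (eps0 K) f hf (fun a ha => sq_zero a ha) fun b => ⟨TrivSqZeroExt.inl b, rfl⟩
  · exact hst (Eps2 K) (eps20 K) f hf (fun a ha => sq_zero a ha) fun b =>
      ⟨TrivSqZeroExt.inl b, rfl⟩

end Pool.Agent.MG.H2


end

section

/-!
# Every covector of `y² = ∏ (x - r i)` is given by a polynomial
-/

open CategoryTheory CategoryTheory.Limits AlgebraicGeometry Polynomial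

namespace Pool.Agent.MG.H2

/-- Interpolation at three of the roots. -/
theorem exists_interp {K : Type} [Field K] (r : Fin 6 → K) (hr : Function.Injective r)
    (v : Fin 3 → K) : ∃ q : K[X], q.natDegree ≤ 2 ∧
      ∀ i : Fin 3, q.eval (r (i.castLE (by norm_num))) = v i := by
  let w : Fin 3 → K := fun i => r (i.castLE (by norm_num))
  have hw : Set.InjOn w (Finset.univ : Finset (Fin 3)) := by
    intro i _ j _ h
    exact Fin.castLE_injective _ (hr h)
  refine ⟨Lagrange.interpolate Finset.univ w v, ?_, fun i => ?_⟩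
  · have h1 := Lagrange.degree_interpolate_lt v hw
    rw [Finset.card_univ, Fintype.card_fin] at h1
    by_cases h0 : Lagrange.interpolate Finset.univ w v = 0
    · rw [h0, natDegree_zero]
      exact Nat.zero_le 2
    · have := (natDegree_lt_iff_degree_lt h0).2 h1
      omega
  · exact Lagrange.eval_interpolate_at_node v hw (Finset.mem_univ i)

/-- The derivative of `∏ (x - r j)` at `r i`. -/
def dr {K : Type} [Field K] (r : Fin 6 → K) (i : Fin 6) : K :=
  ∏ j ∈ Finset.univ.erase i, (r i - r j)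

theorem dr_ne {K : Type} [Field K] (r : Fin 6 → K) (hr : Function.Injective r) (i : Fin 6) :
    dr r i ≠ 0 := by
  refine Finset.prod_ne_zero_iff.2 fun j hj => ?_
  rw [sub_ne_zero]
  exact fun h => Finset.ne_of_mem_erase hj (hr h).symm

/-- Surjectivity. -/
theorem surj_of (hHE : Stmt_HE) (hHTR : Stmt_HTR) (hHLI : Stmt_HLI) (hHBC : Stmt_HBC)
    {K : Type} [Field K] [CharZero K] (r : Fin 6 → K) (hr : Function.Injective r)
    (hst' : HCU.Stb (rts r)) (cov : K[X] → Cov 2 (Hyp (rts r)))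
    (u : K) (hu : u ≠ 0) (hval : ∀ (q : K[X]) (i : Fin 6) hs hc, q.natDegree ≤ 2 →
      (cov q).l (dfm (rts r) (mvr r i) hs hc) = u * q.eval (r i) / dr r i)
    (l : Cov 2 (Hyp (rts r))) : ∃ q : K[X], q.natDegree ≤ 2 ∧ l = cov q := by
  let hs : ∀ i : Fin 6, IsStable 2 (Hyp fun j =>
      (TrivSqZeroExt.inl (rts r j) + TrivSqZeroExt.inr (mvr r i j) : Eps K)) :=
    fun i => hst'.1 _ fun j => by simp
  let d : Fin 6 → Defo 2 (Hyp (rts r)) := fun i => dfm (rts r) (mvr r i) (hs i) (hHBC _ _)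
  obtain ⟨q, hq, hqv⟩ := exists_interp r hr fun i =>
    u⁻¹ * dr r (i.castLE (by norm_num)) * l.l (d (i.castLE (by norm_num)))
  refine ⟨q, hq, hcu_core hHE hHTR hHLI hHBC r hr hst' l (cov q) fun i hs hc => ?_⟩
  rw [hval q _ hs hc hq, hqv]
  have h1 := dr_ne r hr (i.castLE (by norm_num))
  have e : l.l (dfm (rts r) (mvr r (i.castLE (by norm_num))) hs hc) =
      l.l (d (i.castLE (by norm_num))) := rfl
  rw [e]
  field_simp

end Pool.Agent.MG.H2


end

section

/-!
# HLI: every change of `∏ (x - r i)` moves three roots, up to coordinate changes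
-/

namespace Pool.Agent.MG.H2

namespace HLIa

open Polynomial

/-- The derivative of `pol`. -/
def dpol {R : Type} [CommRing R] (f : Fin 7 → R) (x : R) : R :=
  f 1 + 2 * f 2 * x + 3 * f 3 * x ^ 2 + 4 * f 4 * x ^ 3 + 5 * f 5 * x ^ 4 + 6 * f 6 * x ^ 5

theorem pol_dir {R : Type} [CommRing R] (a b d c : R) (f : Fin 7 → R) (x : R) :
    pol (dir a b d c f) x = (a + b * x + d * x ^ 2) * dpol f x - (2 * c + 6 * d * x) * pol f x := by
  simp only [pol, dpol, dir, Matrix.cons_val]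
  ring

theorem pol_coeff {R : Type} [CommRing R] (p : R[X]) (hp : p.natDegree < 7) (x : R) :
    pol (fun j => p.coeff j) x = p.eval x := by
  rw [Polynomial.eval_eq_sum_range' hp]
  simp [pol, Finset.sum_range_succ]

theorem dpol_coeff {R : Type} [CommRing R] (p : R[X]) (hp : p.natDegree < 7) (x : R) :
    dpol (fun j => p.coeff j) x = p.derivative.eval x := by
  have h1 : p.derivative.natDegree < 6 := by
    have := Polynomial.natDegree_derivative_le p
    omega
  rw [Polynomial.eval_eq_sum_range' h1]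
  simp only [dpol, Finset.sum_range_succ, Finset.sum_range_zero, Polynomial.coeff_derivative]
  push_cast
  simp
  ring

theorem quad {K : Type} [Field K] (x1 x2 x3 v1 v2 v3 : K) (h12 : x1 ≠ x2) (h13 : x1 ≠ x3)
    (h23 : x2 ≠ x3) : ∃ a b d : K, a + b * x1 + d * x1 ^ 2 = v1 ∧ a + b * x2 + d * x2 ^ 2 = v2 ∧
      a + b * x3 + d * x3 ^ 2 = v3 := by
  have e1 : x2 - x1 ≠ 0 := sub_ne_zero.2 h12.symm
  have e2 : x3 - x1 ≠ 0 := sub_ne_zero.2 h13.symm
  have e3 : x3 - x2 ≠ 0 := sub_ne_zero.2 h23.symm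
  obtain ⟨b, hb⟩ : ∃ b : K, b * (x2 - x1) = v2 - v1 := ⟨(v2 - v1) / (x2 - x1), by field_simp⟩
  obtain ⟨d, hd⟩ : ∃ d : K, d * ((x3 - x1) * (x3 - x2)) = v3 - v1 - b * (x3 - x1) :=
    ⟨(v3 - v1 - b * (x3 - x1)) / ((x3 - x1) * (x3 - x2)), by field_simp⟩
  refine ⟨v1 - b * x1 + d * x1 * x2, b - d * (x1 + x2), d, by ring, ?_, ?_⟩
  · linear_combination hb
  · linear_combination hd

theorem natDeg {R : Type} [CommRing R] [Nontrivial R] (r : Fin 6 → R) :
    (∏ i, (X - C (r i))).natDegree = 6 := by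
  rw [Polynomial.natDegree_prod_of_monic _ _ fun i _ => Polynomial.monic_X_sub_C _]
  simp

theorem natDeg' {R : Type} [CommRing R] [Nontrivial R] (r : Fin 6 → R) (i : Fin 6) :
    (∏ i' ∈ Finset.univ.erase i, (X - C (r i'))).natDegree = 5 := by
  rw [Polynomial.natDegree_prod_of_monic _ _ fun i _ => Polynomial.monic_X_sub_C _]
  simp

theorem rts_root {K : Type} [Field K] (r : Fin 6 → K) (k : Fin 6) : pol (rts r) (r k) = 0 := by
  have h := pol_coeff (∏ i, (X - C (r i))) (by rw [natDeg]; norm_num) (r k)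
  rw [show rts r = fun j => (∏ i, (X - C (r i))).coeff j from rfl, h, Polynomial.eval_prod]
  exact Finset.prod_eq_zero (Finset.mem_univ k) (by simp)

theorem rts_d {K : Type} [Field K] (r : Fin 6 → K) (k : Fin 6) :
    dpol (rts r) (r k) = ∏ i' ∈ Finset.univ.erase k, (r k - r i') := by
  have h := dpol_coeff (∏ i, (X - C (r i))) (by rw [natDeg]; norm_num) (r k)
  rw [show rts r = fun j => (∏ i, (X - C (r i))).coeff j from rfl, h,
    ← Finset.mul_prod_erase Finset.univ _ (Finset.mem_univ k)]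
  simp [Polynomial.derivative_mul, Polynomial.eval_prod]

theorem mvr_self {K : Type} [Field K] (r : Fin 6 → K) (i : Fin 6) :
    pol (mvr r i) (r i) = -∏ i' ∈ Finset.univ.erase i, (r i - r i') := by
  have h := pol_coeff (-∏ i' ∈ Finset.univ.erase i, (X - C (r i')))
    (by rw [Polynomial.natDegree_neg, natDeg']; norm_num) (r i)
  rw [show mvr r i = fun j => (-∏ i' ∈ Finset.univ.erase i, (X - C (r i'))).coeff j from
    funext fun j => (Polynomial.coeff_neg _ _).symm, h]
  simp [Polynomial.eval_prod]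

theorem mvr_ne {K : Type} [Field K] (r : Fin 6 → K) (i k : Fin 6) (hik : k ≠ i) :
    pol (mvr r i) (r k) = 0 := by
  have h := pol_coeff (-∏ i' ∈ Finset.univ.erase i, (X - C (r i')))
    (by rw [Polynomial.natDegree_neg, natDeg']; norm_num) (r k)
  rw [show mvr r i = fun j => (-∏ i' ∈ Finset.univ.erase i, (X - C (r i'))).coeff j from
    funext fun j => (Polynomial.coeff_neg _ _).symm, h, Polynomial.eval_neg, Polynomial.eval_prod,
    Finset.prod_eq_zero (Finset.mem_erase.2 ⟨hik, Finset.mem_univ k⟩) (by simp), neg_zero]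

theorem zero_of {K : Type} [Field K] (r : Fin 6 → K) (hr : Function.Injective r) (g : Fin 7 → K)
    (h6 : g 6 = 0) (hg : ∀ k, pol g (r k) = 0) : ∀ j, g j = 0 := by
  set p : K[X] := C (g 0) + C (g 1) * X + C (g 2) * X ^ 2 + C (g 3) * X ^ 3 + C (g 4) * X ^ 4 +
    C (g 5) * X ^ 5 with hp
  have hdeg : p.natDegree < Fintype.card (Fin 6) := by
    have : p.natDegree ≤ 5 := by
      rw [hp]
      compute_degree
    simp
    omega
  have h0 : p = 0 := Polynomial.eq_zero_of_natDegree_lt_card_of_eval_eq_zero p hr (fun k => by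
    have := hg k
    simp only [pol, h6] at this
    rw [hp]
    simp
    linear_combination this) hdeg
  have hc : ∀ j : ℕ, p.coeff j = 0 := fun j => by rw [h0, Polynomial.coeff_zero]
  intro j
  fin_cases j
  · have := hc 0
    simpa [hp, coeff_X, coeff_C, coeff_X_pow] using this
  · have := hc 1
    simpa [hp, coeff_X, coeff_C, coeff_X_pow] using this
  · have := hc 2
    simpa [hp, coeff_X, coeff_C, coeff_X_pow] using this
  · have := hc 3
    simpa [hp, coeff_X, coeff_C, coeff_X_pow] using this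
  · have := hc 4
    simpa [hp, coeff_X, coeff_C, coeff_X_pow] using this
  · have := hc 5
    simpa [hp, coeff_X, coeff_C, coeff_X_pow] using this
  · exact h6

theorem pol_comb {K : Type} [Field K] (h m0 m1 m2 e : Fin 7 → K) (w0 w1 w2 x : K) :
    pol (fun j => h j - (w0 * m0 j + w1 * m1 j + w2 * m2 j + e j)) x =
      pol h x - (w0 * pol m0 x + w1 * pol m1 x + w2 * pol m2 x + pol e x) := by
  simp only [pol]
  ring

end HLIa

open _root_.Pool.Agent.MG.H2.HLIa in
theorem t_HLI : Stmt_HLI := by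
  intro K _ _ r hr h
  have hd : ∀ k, (∏ i' ∈ Finset.univ.erase k, (r k - r i')) ≠ 0 := fun k =>
    Finset.prod_ne_zero_iff.2 fun i hi => sub_ne_zero.2 fun e =>
      (Finset.mem_erase.1 hi).1 (hr e).symm
  set d : Fin 6 → K := fun k => ∏ i' ∈ Finset.univ.erase k, (r k - r i') with hd0
  have hd' : ∀ k, d k ≠ 0 := hd
  obtain ⟨a, b, q, h3, h4, h5⟩ := quad (r 3) (r 4) (r 5) (pol h (r 3) / d 3) (pol h (r 4) / d 4)
    (pol h (r 5) / d 5) (fun e => by simpa using hr e) (fun e => by simpa using hr e)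
    (fun e => by simpa using hr e)
  have hf6 : rts r 6 = 1 := by
    have h1 := natDeg r
    have h2 : (∏ i, (Polynomial.X - Polynomial.C (r i))).Monic :=
      Polynomial.monic_prod_of_monic _ _ fun i _ => Polynomial.monic_X_sub_C _
    have h3 := h2.coeff_natDegree
    rw [h1] at h3
    exact h3
  have hm6 : ∀ i, mvr r i 6 = 0 := by
    intro i
    have h1 := natDeg' r i
    rw [mvr, Polynomial.coeff_eq_zero_of_natDegree_lt (by rw [h1]; norm_num), neg_zero]
  set ξ : K → K := fun x => a + b * x + q * x ^ 2 with hξ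
  obtain ⟨c, hc⟩ : ∃ c : K, h 6 = (6 * b - 2 * c) * rts r 6 - q * rts r 5 := by
    refine ⟨(6 * b - q * rts r 5 - h 6) / 2, ?_⟩
    rw [hf6]
    field_simp
    ring
  set w : Fin 3 → K := ![ξ (r 0) - pol h (r 0) / d 0, ξ (r 1) - pol h (r 1) / d 1,
    ξ (r 2) - pol h (r 2) / d 2] with hw
  refine ⟨w, a, b, q, c, ?_⟩
  have key := zero_of r hr (fun j => h j - (w 0 * mvr r 0 j + w 1 * mvr r 1 j + w 2 * mvr r 2 j +
    dir a b q c (rts r) j)) (by
      simp only [hm6]
      rw [hc]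
      simp [dir]) (by
      intro k
      rw [pol_comb, pol_dir, rts_root, rts_d]
      have hk : ∀ k, pol h (r k) / d k * d k = pol h (r k) := fun k => div_mul_cancel₀ _ (hd' k)
      fin_cases k
      · have e := hk 0
        simp only [Fin.zero_eta, Fin.mk_one, Fin.reduceFinMk]
        rw [mvr_self, mvr_ne r 1 0 (by decide), mvr_ne r 2 0 (by decide)]
        have e2 : w 0 = ξ (r 0) - pol h (r 0) / d 0 := rfl
        rw [e2]
        change pol h (r 0) - ((ξ (r 0) - pol h (r 0) / d 0) * -d 0 + w 1 * 0 + w 2 * 0 +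
          (ξ (r 0) * d 0 - (2 * c + 6 * q * r 0) * 0)) = 0
        linear_combination -e
      · have e := hk 1
        simp only [Fin.zero_eta, Fin.mk_one, Fin.reduceFinMk]
        rw [mvr_self, mvr_ne r 0 1 (by decide), mvr_ne r 2 1 (by decide)]
        have e2 : w 1 = ξ (r 1) - pol h (r 1) / d 1 := rfl
        rw [e2]
        change pol h (r 1) - (w 0 * 0 + (ξ (r 1) - pol h (r 1) / d 1) * -d 1 + w 2 * 0 +
          (ξ (r 1) * d 1 - (2 * c + 6 * q * r 1) * 0)) = 0
        linear_combination -e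
      · have e := hk 2
        simp only [Fin.zero_eta, Fin.mk_one, Fin.reduceFinMk]
        rw [mvr_self, mvr_ne r 0 2 (by decide), mvr_ne r 1 2 (by decide)]
        have e2 : w 2 = ξ (r 2) - pol h (r 2) / d 2 := rfl
        rw [e2]
        change pol h (r 2) - (w 0 * 0 + w 1 * 0 + (ξ (r 2) - pol h (r 2) / d 2) * -d 2 +
          (ξ (r 2) * d 2 - (2 * c + 6 * q * r 2) * 0)) = 0
        linear_combination -e
      · have e := hk 3
        simp only [Fin.zero_eta, Fin.mk_one, Fin.reduceFinMk]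
        rw [mvr_ne r 0 3 (by decide), mvr_ne r 1 3 (by decide), mvr_ne r 2 3 (by decide), h3]
        change pol h (r 3) - (w 0 * 0 + w 1 * 0 + w 2 * 0 +
          (pol h (r 3) / d 3 * d 3 - (2 * c + 6 * q * r 3) * 0)) = 0
        linear_combination -e
      · have e := hk 4
        simp only [Fin.zero_eta, Fin.mk_one, Fin.reduceFinMk]
        rw [mvr_ne r 0 4 (by decide), mvr_ne r 1 4 (by decide), mvr_ne r 2 4 (by decide), h4]
        change pol h (r 4) - (w 0 * 0 + w 1 * 0 + w 2 * 0 +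
          (pol h (r 4) / d 4 * d 4 - (2 * c + 6 * q * r 4) * 0)) = 0
        linear_combination -e
      · have e := hk 5
        simp only [Fin.zero_eta, Fin.mk_one, Fin.reduceFinMk]
        rw [mvr_ne r 0 5 (by decide), mvr_ne r 1 5 (by decide), mvr_ne r 2 5 (by decide), h5]
        change pol h (r 5) - (w 0 * 0 + w 1 * 0 + w 2 * 0 +
          (pol h (r 5) / d 5 * d 5 - (2 * c + 6 * q * r 5) * 0)) = 0
        linear_combination -e)
  exact fun j => sub_eq_zero.1 (key j)

end Pool.Agent.MG.H2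


end

section

/-!
# NGE: the curve `y² = ∏ (x - r i)` with marked points is generic
-/

open CategoryTheory CategoryTheory.Limits AlgebraicGeometry TensorProduct

namespace Pool.Agent.MG.H2

namespace NGEa

theorem spMap_inj {A B : Type} [CommRing A] [CommRing B] {φ ψ : A →+* B}
    (h : spMap φ = spMap ψ) : φ = ψ :=
  congrArg CommRingCat.Hom.hom (Spec.map_injective h)

theorem spMap_full {A B : Type} [CommRing A] [CommRing B] (l : Sp B ⟶ Sp A) :
    ∃ h : A →+* B, spMap h = l :=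
  ⟨(Spec.preimage l).hom, Spec.map_preimage l⟩

theorem hx_map_id {B : Type} [CommRing B] {f : Fin 7 → B} (h : ∀ i, f i = RingHom.id B (f i)) :
    HX.map (RingHom.id B) h = 𝟙 (HX B f) := by
  refine HX.ext' ?_ ?_
  · have e : bc1 (RingHom.id B) h = RingHom.id _ := by
      refine hom1_ext ?_ ?_ ?_
      · intro c
        rw [bc1_b]
        rfl
      · rw [bc1_x]
        rfl
      · rw [bc1_y]
        rfl
    rw [HX.in1_map, e, HCU.spMap_id, Category.id_comp, Category.comp_id]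
  · have e : bc2 (RingHom.id B) h = RingHom.id _ := by
      refine hom1_ext ?_ ?_ ?_
      · intro c
        rw [bc2_b]
        rfl
      · rw [bc2_u]
        rfl
      · rw [bc2_v]
        rfl
    rw [HX.in2_map, e, HCU.spMap_id, Category.id_comp, Category.comp_id]

/-! ### The coefficients -/

section der

variable {K : Type} [Field K] [Algebra ℂ K] (D : Derivation ℂ K K)

theorem der_coeff (r : Fin 6 → K) (s : Finset (Fin 6)) : ∀ j : ℕ,
    D ((∏ i ∈ s, (Polynomial.X - Polynomial.C (r i))).coeff j) =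
      -∑ i ∈ s, D (r i) *
        (∏ i' ∈ s.erase i, (Polynomial.X - Polynomial.C (r i'))).coeff j := by
  induction s using Finset.induction_on with
  | empty =>
    intro j
    rw [Finset.prod_empty, Finset.sum_empty, neg_zero, Polynomial.coeff_one]
    split_ifs
    · exact D.map_one_eq_zero
    · exact map_zero D
  | insert a s ha ih =>
    intro j
    have h1 : ∀ i ∈ s, (∏ i' ∈ (insert a s).erase i, (Polynomial.X - Polynomial.C (r i'))) =
        (Polynomial.X - Polynomial.C (r a)) *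
          ∏ i' ∈ s.erase i, (Polynomial.X - Polynomial.C (r i')) := by
      intro i hi
      have hne : i ≠ a := fun h => ha (h ▸ hi)
      rw [Finset.erase_insert_of_ne hne.symm, Finset.prod_insert]
      exact fun h => ha (Finset.mem_of_mem_erase h)
    rw [Finset.prod_insert ha, Finset.sum_insert ha, Finset.erase_insert ha,
      Finset.sum_congr rfl (fun i hi => by rw [h1 i hi])]
    rcases j with _ | j
    · simp only [sub_mul, Polynomial.coeff_sub, Polynomial.coeff_X_mul_zero,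
        Polynomial.coeff_C_mul, zero_sub, map_neg, Derivation.leibniz, ih, smul_eq_mul]
      rw [mul_neg, Finset.mul_sum]
      have h2 : ∀ i ∈ s, D (r i) * -(r a * (∏ i' ∈ s.erase i,
          (Polynomial.X - Polynomial.C (r i'))).coeff 0) = -(r a * (D (r i) *
          (∏ i' ∈ s.erase i, (Polynomial.X - Polynomial.C (r i'))).coeff 0)) :=
        fun i _ => by ring
      rw [Finset.sum_congr rfl h2, Finset.sum_neg_distrib]
      ring
    · simp only [sub_mul, Polynomial.coeff_sub, Polynomial.coeff_X_mul,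
        Polynomial.coeff_C_mul, map_sub, Derivation.leibniz, ih, smul_eq_mul]
      rw [mul_neg, Finset.mul_sum]
      have h2 : ∀ i ∈ s, D (r i) * ((∏ i' ∈ s.erase i,
          (Polynomial.X - Polynomial.C (r i'))).coeff j - r a * (∏ i' ∈ s.erase i,
          (Polynomial.X - Polynomial.C (r i'))).coeff (j + 1)) = D (r i) * (∏ i' ∈ s.erase i,
          (Polynomial.X - Polynomial.C (r i'))).coeff j - r a * (D (r i) *
          (∏ i' ∈ s.erase i, (Polynomial.X - Polynomial.C (r i'))).coeff (j + 1)) :=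
        fun i _ => by ring
      rw [Finset.sum_congr rfl h2, Finset.sum_sub_distrib]
      ring

theorem der_rts (r : Fin 6 → K) (h3 : D (r 3) = 0) (h4 : D (r 4) = 0) (h5 : D (r 5) = 0)
    (j : Fin 7) : D (rts r j) = D (r 0) * mvr r 0 j + D (r 1) * mvr r 1 j +
      D (r 2) * mvr r 2 j := by
  have h := der_coeff D r Finset.univ (j : ℕ)
  rw [Fin.sum_univ_six, h3, h4, h5] at h
  rw [show rts r j = (∏ i, (Polynomial.X - Polynomial.C (r i))).coeff j from rfl, h]
  simp only [mvr]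
  ring

end der

/-! ### The sections -/

section sec

variable {K : Type} [Field K] {F : Fin 7 → Eps K}

theorem lift_section (s : Sp (Eps K) ⟶ HX (Eps K) F) (hs : s ≫ HX.pr (Eps K) F = 𝟙 _)
    (lam : A1 (Eps K) F →+* K)
    (h : spMap (eps0 K) ≫ s = spMap lam ≫ HX.in1 (Eps K) F) :
    ∃ θ : A1 (Eps K) F →+* Eps K, s = spMap θ ≫ HX.in1 (Eps K) F ∧
      (∀ c, θ (algebraMap _ _ c) = c) ∧ ∀ v, eps0 K (θ v) = lam v := by
  have hr : Set.range s ⊆ Set.range (HX.in1 (Eps K) F) := by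
    rintro _ ⟨x, rfl⟩
    obtain ⟨y, rfl⟩ : ∃ y, spMap (eps0 K) y = x := (SqE.surj (S := sqEps K)).surj x
    refine ⟨spMap lam y, ?_⟩
    rw [← Scheme.Hom.comp_apply, ← Scheme.Hom.comp_apply, h]
  obtain ⟨θ, hθ⟩ := spMap_full (IsOpenImmersion.lift (HX.in1 (Eps K) F) s hr)
  have hθ1 : s = spMap θ ≫ HX.in1 (Eps K) F := by
    rw [hθ, IsOpenImmersion.lift_fac]
  refine ⟨θ, hθ1, ?_, ?_⟩
  · have e1 : spMap (θ.comp (algebraMap (Eps K) (A1 (Eps K) F))) = spMap (RingHom.id (Eps K)) := by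
      rw [← spMap_comp', HCU.spMap_id, ← hs, hθ1, Category.assoc, HX.in1_pr]
    exact fun c => congrArg (fun f : Eps K →+* Eps K => f c) (spMap_inj e1)
  · have e1 : spMap ((eps0 K).comp θ) = spMap lam := by
      rw [← cancel_mono (HX.in1 (Eps K) F), ← h, hθ1, ← spMap_comp', Category.assoc]
    exact fun v => congrArg (fun f : A1 (Eps K) F →+* K => f v) (spMap_inj e1)

end sec

/-! ### Dual numbers -/

section eps

variable {K : Type} [Field K]

theorem dir_map {R R' : Type} [CommRing R] [CommRing R'] (φ : R →+* R') (ξ0 ξ1 ξ2 c : R)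
    (f : Fin 7 → R) (i : Fin 7) : φ (dir ξ0 ξ1 ξ2 c f i) =
      dir (φ ξ0) (φ ξ1) (φ ξ2) (φ c) (fun i => φ (f i)) i := by
  fin_cases i <;> simp [dir, map_ofNat]

theorem eps_ext {x y : Eps K} (h1 : x.fst = y.fst) (h2 : x.snd = y.snd) : x = y :=
  TrivSqZeroExt.ext h1 h2

theorem sq_eq [CharZero K] {x y : Eps K} (h : x ^ 2 = y ^ 2) (h1 : x.fst = y.fst)
    (h0 : y.fst ≠ 0) : x = y := by
  refine eps_ext h1 ?_
  have h2 := congrArg TrivSqZeroExt.snd h
  rw [pow_two, pow_two, TrivSqZeroExt.snd_mul, TrivSqZeroExt.snd_mul, h1] at h2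
  simp only [smul_eq_mul, MulOpposite.smul_eq_mul_unop, MulOpposite.unop_op] at h2
  have h3 : (2 * y.fst) * (x.snd - y.snd) = 0 := by linear_combination h2
  rcases mul_eq_zero.1 h3 with h4 | h4
  · rcases mul_eq_zero.1 h4 with h5 | h5
    · exact absurd h5 two_ne_zero
    · exact absurd h5 h0
  · exact sub_eq_zero.1 h4

end eps

theorem pol_rts {K : Type} [Field K] (r : Fin 6 → K) (x : K) :
    pol (rts r) x = ∏ i, (x - r i) := by
  have h := HLIa.pol_coeff (∏ i, (Polynomial.X - Polynomial.C (r i)))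
    (by rw [HLIa.natDeg]; norm_num) x
  rw [show rts r = fun j => (∏ i, (Polynomial.X - Polynomial.C (r i))).coeff j from rfl, h,
    Polynomial.eval_prod]
  simp

/-- The change of the coefficients which moves the roots `r 0`, `r 1`, `r 2`. -/
noncomputable def mvw {K : Type} [Field K] (r : Fin 6 → K) (w : Fin 3 → K) : Fin 7 → K :=
  fun j => w 0 * mvr r 0 j + w 1 * mvr r 1 j + w 2 * mvr r 2 j

/-- Every flat thickening of `y² = ∏ (x - r i)` is of the form `y² = ∏ (x - r i) + ε mvw r w`. -/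
theorem exists_e (hHE : Stmt_HE) (hHTR : Stmt_HTR) (hHLI : Stmt_HLI) {K : Type} [Field K]
    [CharZero K] (r : Fin 6 → K) (hr : Function.Injective r) {X : Scheme.{0}}
    (π : X ⟶ Sp (Eps K)) (hπ : Flat π) (rf : HX K (rts r) ⟶ X)
    (hc : IsPullback rf (HX.pr K (rts r)) π (spMap (eps0 K))) :
    ∃ (w : Fin 3 → K) (F : Fin 7 → Eps K) (hF : ∀ i, rts r i = eps0 K (F i))
      (e : X ⟶ HX (Eps K) F), F = HCU.lf (rts r) (mvw r w) ∧
      IsPullback e π (HX.pr (Eps K) F) (𝟙 _) ∧ rf ≫ e = HX.map (eps0 K) hF := by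
  have h2 : IsUnit (2 : K) := isUnit_iff_ne_zero.2 two_ne_zero
  let t : Thk (sqEps K) (Hyp (rts r)) :=
    { y := { X := X, π := π, σ := fun i => i.elim0, sec := fun i => i.elim0 }
      flat := hπ
      r := { f := rf, cart := hc, sec := fun i => i.elim0 } }
  obtain ⟨f', hf, a', ha'⟩ := hHE (sqEps K) (rts r) h2 t
  obtain ⟨w, ξ0, ξ1, ξ2, c, hh⟩ := hHLI r hr (fun i => (f' i).snd)
  let F : Fin 7 → Eps K := HCU.lf (rts r) (mvw r w)
  let ε : Eps K := TrivSqZeroExt.inr 1
  have hε : ε * ε = 0 := by simp [ε]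
  have hG : f' = fun i => F i + ε * dir (TrivSqZeroExt.inl ξ0) (TrivSqZeroExt.inl ξ1)
      (TrivSqZeroExt.inl ξ2) (TrivSqZeroExt.inl c) F i := by
    funext i
    have h3 := dir_map (eps0 K) (TrivSqZeroExt.inl ξ0) (TrivSqZeroExt.inl ξ1)
      (TrivSqZeroExt.inl ξ2) (TrivSqZeroExt.inl c) F i
    have h4 : (fun i => eps0 K (F i)) = rts r := funext fun i => (HCU.lf_p _ i).symm
    rw [h4] at h3
    have h5 : (dir (TrivSqZeroExt.inl ξ0) (TrivSqZeroExt.inl ξ1)
      (TrivSqZeroExt.inl ξ2) (TrivSqZeroExt.inl c) F i).fst = dir ξ0 ξ1 ξ2 c (rts r) i := h3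
    refine eps_ext ?_ ?_
    · have h6 : (f' i).fst = rts r i := (hf i).symm
      rw [h6]
      simp [F, ε, HCU.lf]
    · have h6 : (f' i).snd = mvw r w i + dir ξ0 ξ1 ξ2 c (rts r) i := hh i
      rw [h6]
      simp [F, ε, HCU.lf, h5]
  subst hG
  obtain ⟨a'', -, ha''⟩ := hHTR ε (TrivSqZeroExt.inl ξ0) (TrivSqZeroExt.inl ξ1)
    (TrivSqZeroExt.inl ξ2) (TrivSqZeroExt.inl c) hε F
  have ha2 := ha'' (eps0 K) (by simp [ε]) hf (HCU.lf_p (mvw r w))
  refine ⟨w, F, HCU.lf_p (mvw r w), a'.f ≫ a''.f, rfl, ?_, ?_⟩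
  · have hcart : IsPullback (a'.f ≫ a''.f) π (HX.pr (Eps K) F)
      (spMap (RingHom.id (Eps K)) ≫ spMap (RingHom.id (Eps K))) := a'.cart.paste_horiz a''.cart
    rw [HCU.spMap_id, Category.comp_id] at hcart
    exact hcart
  · exact (Category.assoc _ _ _).symm.trans ((congrArg (fun g => g ≫ a''.f) ha').trans ha2)

end NGEa

open _root_.Pool.Agent.MG.H2.NGEa in
/-- NGE -/
theorem t_NGE (hHE : Stmt_HE) (hHTR : Stmt_HTR) (hHLI : Stmt_HLI) (hHBC : Stmt_HBC) :
    Stmt_NGE := by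
  intro n K _ _ r a b h hr har hI _ d
  have hc : CharZero K := charZero_of_injective_algebraMap (algebraMap ℂ K).injective
  let rf : HX K (rts r) ⟶ d.y.X := d.r.f
  have hsr : ∀ i, pnt (rts r) (a i) (b i) (h i) ≫ rf = spMap (eps0 K) ≫ d.y.σ i := d.r.sec
  obtain ⟨w, F, hF, e, hFdef, hcart, hr1⟩ :=
    exists_e hHE hHTR hHLI r hr d.y.π d.stable.flat rf d.r.cart
  -- the sections
  let lam : Fin n → (A1 (Eps K) F →+* K) := fun i =>
    (lift1 (RingHom.id K) (a i) (b i) (pnt_h (rts r) (h i))).comp (bc1 (eps0 K) hF)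
  have hsec : ∀ i, ∃ θ : A1 (Eps K) F →+* Eps K, d.y.σ i ≫ e =
      spMap θ ≫ HX.in1 (Eps K) F ∧ (∀ c, θ (algebraMap _ _ c) = c) ∧
      ∀ v, eps0 K (θ v) = lam i v := by
    intro i
    refine lift_section _ ?_ (lam i) ?_
    · have h1 := hcart.w
      rw [Category.comp_id] at h1
      rw [Category.assoc, h1]
      exact d.y.sec i
    · rw [← Category.assoc, ← hsr, Category.assoc, hr1, pnt, Category.assoc, HX.in1_map,
        ← Category.assoc, spMap_comp']
  choose θ hθ1 hθ2 hθ3 using hsec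
  have hx : ∀ i, (θ i (x1 (Eps K) F)).fst = a i := by
    intro i
    refine (hθ3 i _).trans ?_
    change lift1 (RingHom.id K) (a i) (b i) (pnt_h (rts r) (h i)) (bc1 (eps0 K) hF (x1 (Eps K) F)) = a i
    rw [bc1_x, lift1_x]
  have hy : ∀ i, (θ i (y1 (Eps K) F)).fst = b i := by
    intro i
    refine (hθ3 i _).trans ?_
    change lift1 (RingHom.id K) (a i) (b i) (pnt_h (rts r) (h i)) (bc1 (eps0 K) hF (y1 (Eps K) F)) = b i
    rw [bc1_y, lift1_y]
  have hrel : ∀ i, θ i (y1 (Eps K) F) ^ 2 = pol F (θ i (x1 (Eps K) F)) := by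
    intro i
    have e := congrArg (θ i) (rel1 (Eps K) F)
    rw [map_pow, pol_map] at e
    rw [e]
    congr 1
    funext j
    exact hθ2 i (F j)
  -- the derivation
  obtain ⟨D, hD0, hD1, hD2, hD3, hD4, hD5, hDa⟩ := hI w (fun i => (θ i (x1 (Eps K) F)).snd)
  have hFD : ∀ i, F i = Std.epsDer D (rts r i) := by
    intro i
    rw [hFdef]
    refine eps_ext ?_ ?_
    · change (HCU.lf (rts r) (mvw r w) i).fst = (TrivSqZeroExt.inl (rts r i) +
        TrivSqZeroExt.inr (D (rts r i)) : Eps K).fst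
      rw [HCU.lf_fst]
      simp
    · change (HCU.lf (rts r) (mvw r w) i).snd = (TrivSqZeroExt.inl (rts r i) +
        TrivSqZeroExt.inr (D (rts r i)) : Eps K).snd
      rw [HCU.lf_snd, der_rts D r hD3 hD4 hD5, hD0, hD1, hD2]
      simp [mvw]
  have hxD : ∀ i, θ i (x1 (Eps K) F) = Std.epsDer D (a i) := by
    intro i
    refine eps_ext ?_ ?_
    · rw [hx]
      simp [Std.epsDer]
    · rw [← hDa i]
      simp [Std.epsDer]
  have hyD : ∀ i, θ i (y1 (Eps K) F) = Std.epsDer D (b i) := by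
    intro i
    refine sq_eq ?_ ?_ ?_
    · rw [hrel, hxD, ← map_pow, h i, pol_map]
      congr 1
      funext j
      exact hFD j
    · rw [hy]
      simp [Std.epsDer]
    · have e1 : (Std.epsDer D (b i)).fst = b i := by simp [Std.epsDer]
      rw [e1]
      intro e2
      have e3 := h i
      rw [e2, pol_rts] at e3
      have e4 : ∏ j, (a i - r j) = 0 := by
        rw [← e3]
        simp
      obtain ⟨j, -, hj⟩ := Finset.prod_eq_zero_iff.1 e4
      exact har i j (sub_eq_zero.1 hj)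
  refine ⟨D, { f := e ≫ HX.map (Std.epsDer D) hFD, cart := ?_, sec := ?_ }, ?_⟩
  · have e := hcart.paste_horiz (hHBC (Std.epsDer D) hFD)
    rw [Category.id_comp] at e
    exact e
  · intro i
    have e1 : (θ i).comp (bc1 (Std.epsDer D) hFD) =
        (Std.epsDer D).comp (lift1 (RingHom.id K) (a i) (b i) (pnt_h (rts r) (h i))) := by
      refine hom1_ext ?_ ?_ ?_
      · intro v
        rw [RingHom.comp_apply, RingHom.comp_apply, bc1_b, hθ2, lift1_b]
        rfl
      · rw [RingHom.comp_apply, RingHom.comp_apply, bc1_x, hxD, lift1_x]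
      · rw [RingHom.comp_apply, RingHom.comp_apply, bc1_y, hyD, lift1_y]
    change d.y.σ i ≫ e ≫ HX.map (Std.epsDer D) hFD =
      spMap (Std.epsDer D) ≫ pnt (rts r) (a i) (b i) (h i)
    rw [← Category.assoc, hθ1, Category.assoc, HX.in1_map, ← Category.assoc, spMap_comp', e1,
      ← spMap_comp', Category.assoc, pnt]
  · change rf ≫ e ≫ HX.map (Std.epsDer D) hFD = 𝟙 (HX K (rts r))
    rw [← Category.assoc, hr1]
    have e1 : (eps0 K).comp (Std.epsDer D) = RingHom.id K := by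
      ext v
      simp [Std.epsDer]
    rw [HCU.map_comp (Std.epsDer D) (eps0 K) hFD hF e1 (fun i => rfl), hx_map_id]

end Pool.Agent.MG.H2


end

section

/-!
# Derivations of an algebraic closure: fields with independent derivations, marked points
-/

open CategoryTheory CategoryTheory.Limits AlgebraicGeometry TensorProduct

namespace Pool.Agent.MG.H2

namespace NDRx

variable (n : ℕ)

/-- The polynomial ring in `3 + n` variables. -/
abbrev P : Type := MvPolynomial (Fin 3 ⊕ Fin n) ℂ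

/-- Its fraction field. -/
abbrev F : Type := FractionRing (P n)

/-- The algebraic closure. -/
abbrev K : Type := AlgebraicClosure (F n)

/-- The variables in `K`. -/
noncomputable def x (i : Fin 3 ⊕ Fin n) : K n := algebraMap (P n) (K n) (MvPolynomial.X i)

/-- The points. -/
noncomputable def r : Fin 6 → K n :=
  ![x n (Sum.inl 0), x n (Sum.inl 1), x n (Sum.inl 2), algebraMap ℂ (K n) 0,
    algebraMap ℂ (K n) 1, algebraMap ℂ (K n) 2]

/-- The points in the polynomial ring. -/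
noncomputable def q : Fin 6 → P n :=
  ![MvPolynomial.X (Sum.inl 0), MvPolynomial.X (Sum.inl 1), MvPolynomial.X (Sum.inl 2),
    MvPolynomial.C 0, MvPolynomial.C 1, MvPolynomial.C 2]

theorem inj_PK : Function.Injective (algebraMap (P n) (K n)) := by
  rw [IsScalarTower.algebraMap_eq (P n) (F n) (K n)]
  exact (algebraMap (F n) (K n)).injective.comp (IsFractionRing.injective (P n) (F n))

theorem r_eq (i : Fin 6) : r n i = algebraMap (P n) (K n) (q n i) := by
  fin_cases i
  · rfl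
  · rfl
  · rfl
  all_goals
    simp only [r, q]
    exact IsScalarTower.algebraMap_apply ℂ (P n) (K n) _

/-- Evaluation at the point `v` of the first variables and the point `5 + i` of the others. -/
noncomputable def ev (v : Fin 3 → ℂ) (t : ℂ) : P n →+* ℂ :=
  MvPolynomial.eval (Sum.elim v (fun _ => t))

theorem q_inj : Function.Injective (q n) := by
  intro i j h
  have key : ∀ v : Fin 3 → ℂ, ev n v 0 (q n i) = ev n v 0 (q n j) :=
    fun v => by rw [h]
  have h1 := key ![3, 4, 5]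
  fin_cases i <;> fin_cases j <;>
    first | rfl | (exfalso; revert h1; simp [q, ev]; try norm_num)

theorem ne_q (i : Fin n) (j : Fin 6) : (MvPolynomial.X (Sum.inr i) : P n) ≠ q n j := by
  intro h
  have h1 : ev n ![3, 4, 5] 7 (MvPolynomial.X (Sum.inr i)) = ev n ![3, 4, 5] 7 (q n j) := by
    rw [h]
  fin_cases j <;> (revert h1; simp [q, ev]; try norm_num)

theorem exists_der (w : Fin 3 ⊕ Fin n → K n) :
    ∃ D : Derivation ℂ (K n) (K n), ∀ i, D (x n i) = w i := by
  have e1 : Algebra.FormallyEtale (P n) (F n) :=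
    Algebra.FormallyEtale.of_isLocalization (nonZeroDivisors (P n))
  have e2 : Algebra.FormallyEtale (F n) (K n) :=
    Algebra.FormallyEtale.of_isSeparable (F n) (K n)
  have e3 : Algebra.FormallyEtale (P n) (K n) := Algebra.FormallyEtale.comp (P n) (F n) (K n)
  obtain ⟨D, hD⟩ := MG.exists_derivation_of_formallyEtale (R := ℂ) (S := P n) (T := K n)
    (M := K n) (MvPolynomial.mkDerivation ℂ w)
  refine ⟨D, fun i => ?_⟩
  rw [x, hD, MvPolynomial.mkDerivation_X]

end NDRx

theorem t_NDR : Stmt_NDR := by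
  intro n
  refine ⟨NDRx.K n, inferInstance, inferInstance, inferInstance, NDRx.r n,
    fun i => NDRx.x n (Sum.inr i), ?_, ?_, ?_, ?_⟩
  · intro i j h
    rw [NDRx.r_eq, NDRx.r_eq] at h
    exact NDRx.q_inj n (NDRx.inj_PK n h)
  · intro i j h
    have h1 := MvPolynomial.X_injective (NDRx.inj_PK n h)
    exact Sum.inr_injective h1
  · intro i j h
    rw [NDRx.r_eq] at h
    exact NDRx.ne_q n i j (NDRx.inj_PK n h)
  · intro w v
    obtain ⟨D, hD⟩ := NDRx.exists_der n (Sum.elim w v)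
    exact ⟨D, hD (Sum.inl 0), hD (Sum.inl 1), hD (Sum.inl 2), D.map_algebraMap 0,
      D.map_algebraMap 1, D.map_algebraMap 2, fun i => hD (Sum.inr i)⟩

end Pool.Agent.MG.H2


end

section

/-!
# HGE: the curve `y² = ∏ (x - r i)` is generic (helper94)
-/

open CategoryTheory CategoryTheory.Limits AlgebraicGeometry TensorProduct

namespace Pool.Agent.MG.H2

namespace HGE

/-! ### composition of arrows -/

/-- composition of arrows -/
noncomputable def comp {n : ℕ} {A B C : Type} [CommRing A] [CommRing B] [CommRing C]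
    {φ : A →+* B} {ψ : B →+* C} {χ : A →+* C} (hχ : ψ.comp φ = χ)
    {z : Fam n C} {y : Fam n B} {x : Fam n A} (g : Arrow ψ z y) (f : Arrow φ y x) :
    Arrow χ z x where
  f := g.f ≫ f.f
  cart := by
    rw [← hχ, ← spMap_comp']
    exact g.cart.paste_horiz f.cart
  sec i := by
    rw [← Category.assoc, g.sec i, Category.assoc, f.sec i, ← Category.assoc, spMap_comp', hχ]

theorem bc1_id {B : Type} [CommRing B] {f : Fin 7 → B} (χ : B →+* B) (hχ : χ = RingHom.id B)
    (h : ∀ i, f i = χ (f i)) : bc1 χ h = RingHom.id _ := by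
  subst hχ
  refine hom1_ext ?_ ?_ ?_
  · intro c
    rw [bc1_b]
    rfl
  · rw [bc1_x]
    rfl
  · rw [bc1_y]
    rfl

theorem map_id {B : Type} [CommRing B] {f : Fin 7 → B} (χ : B →+* B) (hχ : χ = RingHom.id B)
    (h : ∀ i, f i = χ (f i)) : HX.map χ h = 𝟙 (HX B f) := by
  refine HX.ext' ?_ ?_
  · rw [HX.in1_map, bc1_id χ hχ h, HCU.spMap_id, Category.id_comp, Category.comp_id]
  · rw [HX.in2_map, Category.comp_id]
    have h2 : bc2 χ h = RingHom.id _ := bc1_id χ hχ (rev_bc χ h)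
    rw [h2, HCU.spMap_id, Category.id_comp]

/-! ### the derivative of the coefficients -/

theorem prod_eps {R : Type} [CommRing R] (P0 P1 P2 P3 P4 P5 e d0 d1 d2 : R) (he : e * e = 0) :
    (P0 - e * d0) * (P1 - e * d1) * (P2 - e * d2) * P3 * P4 * P5 =
      P0 * P1 * P2 * P3 * P4 * P5 + e * (d0 * -(P1 * P2 * P3 * P4 * P5) +
        d1 * -(P0 * P2 * P3 * P4 * P5) + d2 * -(P0 * P1 * P3 * P4 * P5)) := by
  linear_combination (P3 * P4 * P5 * (d0 * d1 * P2 + d0 * d2 * P1 + d1 * d2 * P0 -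
    e * d0 * d1 * d2)) * he

theorem er {R : Type} [CommRing R] (i : Fin 6) (s : Finset (Fin 6)) (P : Fin 6 → R)
    (h : Finset.univ.erase i = s) : ∏ i' ∈ Finset.univ.erase i, P i' = ∏ i' ∈ s, P i' := by
  rw [h]

section der

variable {K : Type} [Field K] [Algebra ℂ K] (D : Derivation ℂ K K)

theorem epsDer_rts (r : Fin 6 → K) (w : Fin 3 → K) (h0 : D (r 0) = w 0) (h1 : D (r 1) = w 1)
    (h2 : D (r 2) = w 2) (h3 : D (r 3) = 0) (h4 : D (r 4) = 0) (h5 : D (r 5) = 0) (j : Fin 7) :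
    Std.epsDer D (rts r j) = TrivSqZeroExt.inl (rts r j) +
      TrivSqZeroExt.inr (w 0 * mvr r 0 j + w 1 * mvr r 1 j + w 2 * mvr r 2 j) := by
  let ι : K →+* Eps K := TrivSqZeroExt.inlHom K K
  let ε : Eps K := TrivSqZeroExt.inr 1
  have hε : ε * ε = 0 := by simp [ε]
  let P : Fin 6 → Polynomial K := fun i => Polynomial.X - Polynomial.C (r i)
  have hP : ∀ i, (P i).map (Std.epsDer D) =
      (P i).map ι - Polynomial.C ε * Polynomial.C (ι (D (r i))) := by
    intro i
    have hx : Std.epsDer D (r i) = ι (r i) + ε * ι (D (r i)) := by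
      ext <;> simp [Std.epsDer, ι, ε]
    simp only [P, Polynomial.map_sub, Polynomial.map_X, Polynomial.map_C, hx, map_add, map_mul]
    ring
  have hp6 : ∏ i, P i = P 0 * P 1 * P 2 * P 3 * P 4 * P 5 := by
    rw [Fin.prod_univ_six]
  have e0 : ∏ i' ∈ Finset.univ.erase (0 : Fin 6), P i' = P 1 * P 2 * P 3 * P 4 * P 5 := by
    rw [er 0 {1, 2, 3, 4, 5} P (by decide)]
    simp [mul_assoc]
  have e1 : ∏ i' ∈ Finset.univ.erase (1 : Fin 6), P i' = P 0 * P 2 * P 3 * P 4 * P 5 := by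
    rw [er 1 {0, 2, 3, 4, 5} P (by decide)]
    simp [mul_assoc]
  have e2 : ∏ i' ∈ Finset.univ.erase (2 : Fin 6), P i' = P 0 * P 1 * P 3 * P 4 * P 5 := by
    rw [er 2 {0, 1, 3, 4, 5} P (by decide)]
    simp [mul_assoc]
  have key : (∏ i, P i).map (Std.epsDer D) = (∏ i, P i).map ι + Polynomial.C ε *
      (Polynomial.C (w 0) * -(P 1 * P 2 * P 3 * P 4 * P 5) +
        Polynomial.C (w 1) * -(P 0 * P 2 * P 3 * P 4 * P 5) +
        Polynomial.C (w 2) * -(P 0 * P 1 * P 3 * P 4 * P 5)).map ι := by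
    rw [hp6]
    simp only [Polynomial.map_mul, Polynomial.map_add, Polynomial.map_neg, Polynomial.map_C, hP,
      h0, h1, h2, h3, h4, h5, map_zero, mul_zero, sub_zero]
    have hC : (Polynomial.C ε : Polynomial (Eps K)) * Polynomial.C ε = 0 := by
      rw [← Polynomial.C_mul, hε, Polynomial.C_0]
    exact prod_eps (R := Polynomial (Eps K)) _ _ _ _ _ _ _ _ _ _ hC
  have hc := congrArg (fun q : Polynomial (Eps K) => q.coeff (j : ℕ)) key
  simp only [Polynomial.coeff_map, Polynomial.coeff_add, Polynomial.coeff_C_mul] at hc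
  have hr : rts r j = (∏ i, P i).coeff (j : ℕ) := rfl
  have m0 : mvr r 0 j = -(P 1 * P 2 * P 3 * P 4 * P 5).coeff (j : ℕ) := by rw [← e0]; rfl
  have m1 : mvr r 1 j = -(P 0 * P 2 * P 3 * P 4 * P 5).coeff (j : ℕ) := by rw [← e1]; rfl
  have m2 : mvr r 2 j = -(P 0 * P 1 * P 3 * P 4 * P 5).coeff (j : ℕ) := by rw [← e2]; rfl
  rw [hr, hc, m0, m1, m2]
  simp only [Polynomial.coeff_neg]
  ext <;> simp [ι, ε]

end der

/-- `dir` over `K[ε]`. -/
theorem dir_eps {K : Type} [Field K] (ξ0 ξ1 ξ2 c : K) (f g : Fin 7 → K) (i : Fin 7) :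
    (TrivSqZeroExt.inr 1 : Eps K) * dir (TrivSqZeroExt.inl ξ0) (TrivSqZeroExt.inl ξ1)
      (TrivSqZeroExt.inl ξ2) (TrivSqZeroExt.inl c)
      (fun i => TrivSqZeroExt.inl (f i) + TrivSqZeroExt.inr (g i)) i =
      TrivSqZeroExt.inr (dir ξ0 ξ1 ξ2 c f i) := by
  have hp : (fun i => eps0 K ((TrivSqZeroExt.inl (f i) + TrivSqZeroExt.inr (g i) : Eps K))) =
      f := by
    funext i
    simp
  have hd : eps0 K (dir (TrivSqZeroExt.inl ξ0) (TrivSqZeroExt.inl ξ1)
      (TrivSqZeroExt.inl ξ2) (TrivSqZeroExt.inl c)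
      (fun i => TrivSqZeroExt.inl (f i) + TrivSqZeroExt.inr (g i)) i) =
      dir ξ0 ξ1 ξ2 c f i := by
    have h2 : eps0 K (2 : Eps K) = 2 := map_ofNat _ 2
    have h3 : eps0 K (3 : Eps K) = 3 := map_ofNat _ 3
    have h4 : eps0 K (4 : Eps K) = 4 := map_ofNat _ 4
    have h5 : eps0 K (5 : Eps K) = 5 := map_ofNat _ 5
    have h6 : eps0 K (6 : Eps K) = 6 := map_ofNat _ 6
    have hin : ∀ x : K, eps0 K (TrivSqZeroExt.inl x) = x := fun x => by simp
    have hs : ∀ i, eps0 K ((TrivSqZeroExt.inl (f i) + TrivSqZeroExt.inr (g i) : Eps K)) = f i :=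
      fun i => congrFun hp i
    fin_cases i <;>
      simp only [dir, Fin.mk_zero, Fin.mk_one, Fin.reduceFinMk, Matrix.cons_val, map_add,
        map_sub, map_mul, h2, h3, h4, h5, h6, hin, hs]
  ext
  · simp
  · have : ∀ z : Eps K, ((TrivSqZeroExt.inr 1 : Eps K) * z).snd = eps0 K z := by
      intro z
      simp
    rw [this, hd]
    simp

end HGE

open _root_.Pool.Agent.MG.H2.HGE in
/-- HGE -/
theorem t_HGE (hHE : Stmt_HE) (hHTR : Stmt_HTR) (hHLI : Stmt_HLI) (hHBC : Stmt_HBC) :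
    Stmt_HGE := by
  intro K _ _ r hr hI d
  have hK : CharZero K := charZero_of_injective_algebraMap (algebraMap ℂ K).injective
  have h2 : IsUnit (2 : K) := isUnit_iff_ne_zero.2 two_ne_zero
  obtain ⟨f', hf, a, ha⟩ := hHE (sqEps K) (rts r) h2 d.thk
  obtain ⟨w, ξ0, ξ1, ξ2, c, hh⟩ := hHLI r hr fun i => (f' i).snd
  obtain ⟨D, hD0, hD1, hD2, hD3, hD4, hD5⟩ := hI w
  let ε : Eps K := TrivSqZeroExt.inr 1
  have hε : ε * ε = 0 := by simp [ε]
  let g : Fin 7 → K := fun i => w 0 * mvr r 0 i + w 1 * mvr r 1 i + w 2 * mvr r 2 i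
  let F : Fin 7 → Eps K := fun i => TrivSqZeroExt.inl (rts r i) + TrivSqZeroExt.inr (g i)
  have hFD : ∀ i, F i = Std.epsDer D (rts r i) := fun i =>
    (epsDer_rts D r w hD0 hD1 hD2 hD3 hD4 hD5 i).symm
  have hG : f' = fun i => F i + ε * dir (TrivSqZeroExt.inl ξ0) (TrivSqZeroExt.inl ξ1)
      (TrivSqZeroExt.inl ξ2) (TrivSqZeroExt.inl c) F i := by
    funext i
    have h1 : ε * dir (TrivSqZeroExt.inl ξ0) (TrivSqZeroExt.inl ξ1)
      (TrivSqZeroExt.inl ξ2) (TrivSqZeroExt.inl c) F i =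
      TrivSqZeroExt.inr (dir ξ0 ξ1 ξ2 c (rts r) i) := dir_eps ξ0 ξ1 ξ2 c (rts r) g i
    rw [h1]
    ext
    · have := hf i
      simp only [F, TrivSqZeroExt.fst_add, TrivSqZeroExt.fst_inl, TrivSqZeroExt.fst_inr, add_zero]
      exact this.symm
    · simp only [F, TrivSqZeroExt.snd_add, TrivSqZeroExt.snd_inl, TrivSqZeroExt.snd_inr, zero_add]
      exact hh i
  subst hG
  have hFp : ∀ i, rts r i = eps0 K (F i) := by
    intro i
    simp [F]
  obtain ⟨b, -, hb⟩ := hHTR ε (TrivSqZeroExt.inl ξ0) (TrivSqZeroExt.inl ξ1)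
    (TrivSqZeroExt.inl ξ2) (TrivSqZeroExt.inl c) hε F
  have hb0 : HX.map (eps0 K) hf ≫ b.f = HX.map (eps0 K) hFp := hb (eps0 K) (by simp [ε]) hf hFp
  let e : Arrow (Std.epsDer D) (Hyp F) (Hyp (rts r)) := HCU.arr (Std.epsDer D) hHBC hFD
  refine ⟨D, comp (RingHom.id_comp _) (comp (RingHom.comp_id _) a b) e, ?_⟩
  show d.r.f ≫ (a.f ≫ b.f) ≫ HX.map (Std.epsDer D) hFD = 𝟙 _
  have ha' : d.r.f ≫ a.f = HX.map (eps0 K) hf := ha
  have hc : (eps0 K).comp (Std.epsDer D) = RingHom.id K := by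
    ext x
    simp [Std.epsDer]
  rw [← Category.assoc, ← Category.assoc, ha']
  exact (congrArg (fun q => q ≫ HX.map (Std.epsDer D) hFD) hb0).trans
    ((HCU.map_comp (Std.epsDer D) (eps0 K) hFD hFp hc (fun i => rfl)).trans (map_id _ rfl _))

end Pool.Agent.MG.H2


end

section

/-!
# Derivations of an algebraic closure: there are fields with independent derivations
-/

open CategoryTheory CategoryTheory.Limits AlgebraicGeometry TensorProduct

namespace Pool.Agent.MG.H2

namespace HDRx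

/-- The polynomial ring in three variables. -/
abbrev P : Type := MvPolynomial (Fin 3) ℂ

/-- Its fraction field. -/
abbrev F : Type := FractionRing P

/-- The algebraic closure. -/
abbrev K : Type := AlgebraicClosure F

/-- The variables in `K`. -/
noncomputable def x (i : Fin 3) : K := algebraMap P K (MvPolynomial.X i)

/-- The points. -/
noncomputable def r : Fin 6 → K :=
  ![x 0, x 1, x 2, algebraMap ℂ K 0, algebraMap ℂ K 1, algebraMap ℂ K 2]

/-- The points in the polynomial ring. -/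
noncomputable def q : Fin 6 → P :=
  ![MvPolynomial.X 0, MvPolynomial.X 1, MvPolynomial.X 2, MvPolynomial.C 0, MvPolynomial.C 1,
    MvPolynomial.C 2]

theorem inj_PK : Function.Injective (algebraMap P K) := by
  rw [IsScalarTower.algebraMap_eq P F K]
  exact (algebraMap F K).injective.comp (IsFractionRing.injective P F)

theorem r_eq (i : Fin 6) : r i = algebraMap P K (q i) := by
  fin_cases i
  · rfl
  · rfl
  · rfl
  all_goals
    simp only [r, q]
    exact IsScalarTower.algebraMap_apply ℂ P K _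

theorem q_inj : Function.Injective q := by
  intro i j h
  have key : ∀ v : Fin 3 → ℂ, MvPolynomial.eval v (q i) = MvPolynomial.eval v (q j) :=
    fun v => by rw [h]
  have h1 := key ![3, 4, 5]
  fin_cases i <;> fin_cases j <;> first | rfl | (exfalso; revert h1; simp [q]; try norm_num)

theorem exists_der (w : Fin 3 → K) : ∃ D : Derivation ℂ K K, ∀ i, D (x i) = w i := by
  have e1 : Algebra.FormallyEtale P F :=
    Algebra.FormallyEtale.of_isLocalization (nonZeroDivisors P)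
  have e2 : Algebra.FormallyEtale F K := Algebra.FormallyEtale.of_isSeparable F K
  have e3 : Algebra.FormallyEtale P K := Algebra.FormallyEtale.comp P F K
  obtain ⟨D, hD⟩ := MG.exists_derivation_of_formallyEtale (R := ℂ) (S := P) (T := K) (M := K)
    (MvPolynomial.mkDerivation ℂ w)
  refine ⟨D, fun i => ?_⟩
  rw [x, hD, MvPolynomial.mkDerivation_X]

end HDRx

theorem t_HDR : Stmt_HDR := by
  refine ⟨HDRx.K, inferInstance, inferInstance, inferInstance, HDRx.r, ?_, ?_⟩
  · intro i j h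
    rw [HDRx.r_eq, HDRx.r_eq] at h
    exact HDRx.q_inj (HDRx.inj_PK h)
  · intro w
    obtain ⟨D, hD⟩ := HDRx.exists_der w
    exact ⟨D, hD 0, hD 1, hD 2, D.map_algebraMap 0, D.map_algebraMap 1, D.map_algebraMap 2⟩

end Pool.Agent.MG.H2


end

section

/-!
# KSP: the section of the polar part, projectivity
-/

namespace Pool.Agent.MG.G0

namespace KSP

variable {I A : Type} [CommRing A]

section polar

variable [Finite I]

theorem fin_supp (f : KK I A) :
    (Function.support fun x : I × ℕ => (f x.1).coeff (-((x.2 : ℤ) + 1))).Finite := by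
  obtain ⟨n, hn⟩ := exists_Pol f
  refine Set.Finite.subset ((Set.finite_univ (α := I)).prod (Set.finite_Iio n)) ?_
  rintro ⟨i, m⟩ h
  refine ⟨trivial, ?_⟩
  by_contra hc
  rw [Set.mem_Iio, not_lt] at hc
  exact h (hn i _ (by change -((m : ℤ) + 1) < -(n : ℤ); omega))

/-- The polar part. -/
noncomputable def rho : KK I A →ₗ[A] ((I × ℕ) →₀ A) where
  toFun f := Finsupp.ofSupportFinite _ (fin_supp f)
  map_add' f h := by
    ext x
    simp only [Finsupp.ofSupportFinite_coe, Finsupp.add_apply, Pi.add_apply,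
      HahnSeries.coeff_add]
  map_smul' a f := by
    ext x
    simp only [Finsupp.ofSupportFinite_coe, Finsupp.smul_apply, Pi.smul_apply,
      HahnSeries.coeff_smul, RingHom.id_apply]

theorem rho_apply (f : KK I A) (i : I) (m : ℕ) :
    rho f (i, m) = (f i).coeff (-((m : ℤ) + 1)) := rfl

theorem rho_zero {f : KK I A} (hf : f ∈ Pol I A 0) : rho f = 0 := by
  ext ⟨i, m⟩
  rw [rho_apply, hf i _ (by omega)]
  rfl

end polar

/-- The series with the given polar part. -/
noncomputable def iot : ((I × ℕ) →₀ A) →ₗ[A] KK I A :=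
  Finsupp.linearCombination A fun x : I × ℕ => mon x.1 (-((x.2 : ℤ) + 1)) (1 : A)

theorem iot_coeff (c : (I × ℕ) →₀ A) (j : I) (m : ℕ) :
    ((iot c) j).coeff (-((m : ℤ) + 1)) = c (j, m) := by
  classical
  rw [iot, Finsupp.linearCombination_apply, Finsupp.sum, Finset.sum_apply, HahnSeries.coeff_sum]
  have h1 : ∀ x ∈ c.support, ((c x • mon x.1 (-((x.2 : ℤ) + 1)) (1 : A) : KK I A) j).coeff
      (-((m : ℤ) + 1)) = if x = (j, m) then c (j, m) else 0 := by
    rintro ⟨i, l⟩ _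
    rw [smul_mon, mon_coeff]
    by_cases h : (i, l) = (j, m)
    · obtain ⟨rfl, rfl⟩ := Prod.mk.inj h
      simp
    · rw [if_neg h]
      rw [if_neg]
      rintro ⟨h2, h3⟩
      apply h
      change j = i at h2
      rw [h2]
      congr 1
      omega
  rw [Finset.sum_congr rfl h1, Finset.sum_ite_eq']
  split_ifs with h
  · rfl
  · exact (Finsupp.notMem_support_iff.1 h).symm

theorem sub_iot_mem [Finite I] (f : KK I A) : f - iot (rho f) ∈ Pol I A 0 := by
  intro j l hl
  obtain ⟨m, rfl⟩ : ∃ m : ℕ, l = -((m : ℤ) + 1) := ⟨(-l - 1).toNat, by omega⟩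
  rw [Pi.sub_apply, HahnSeries.coeff_sub, iot_coeff, rho_apply, sub_self]

variable {g : ℕ} {P : Subalgebra A (KK I A)}

theorem exists_sec [Finite I] (hP : IsKr g P) {N : ℕ} (hN : Dense P N) :
    ∃ s : KK I A →ₗ[A] KK I A, IsSec P s ∧
      ∀ n : ℤ, N ≤ n → ∀ f ∈ Pol I A n, s f ∈ Pol I A n := by
  classical
  obtain ⟨L, hL, hk⟩ := hP.k2
  have L0 : ∀ f ∈ Pol I A 0, L f = 0 := fun f hf =>
    (hk f).2 ⟨0, P.zero_mem, by rwa [sub_zero]⟩
  have LP : ∀ f ∈ P, L f = 0 := fun f hf =>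
    (hk f).2 ⟨f, hf, by rw [sub_self]; exact (Pol I A 0).zero_mem⟩
  -- the vectors
  have hv : ∀ j : Fin g, ∃ v : KK I A, v ∈ Pol I A N ∧ L v = Pi.single j 1 := by
    intro j
    obtain ⟨w, hw⟩ := hL (Pi.single j 1)
    obtain ⟨p, hp, hwp⟩ := hN w
    exact ⟨w - p, hwp, by rw [map_sub, LP p hp, sub_zero, hw]⟩
  choose v hvN hvL using hv
  let T : KK I A →ₗ[A] KK I A := LinearMap.id - (Fintype.linearCombination A v) ∘ₗ L
  have hT : ∀ f, T f = f - ∑ j, L f j • v j := fun f => by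
    change f - Fintype.linearCombination A v (L f) = _
    rw [Fintype.linearCombination_apply]
  have hLT : ∀ f, L (T f) = 0 := by
    intro f
    rw [hT, map_sub, map_sum]
    have h1 : ∀ j ∈ Finset.univ, L (L f j • v j) = L f j • (Pi.single j 1 : Fin g → A) := by
      intro j _
      rw [map_smul, hvL]
    rw [Finset.sum_congr rfl h1, sub_eq_zero]
    funext i
    rw [Finset.sum_apply]
    simp only [Pi.smul_apply, smul_eq_mul, Pi.single_apply, mul_ite, mul_one, mul_zero]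
    rw [Finset.sum_ite_eq]
    simp
  have hTn : ∀ n : ℤ, N ≤ n → ∀ f ∈ Pol I A n, T f ∈ Pol I A n := by
    intro n hn f hf
    rw [hT]
    refine (Pol I A n).sub_mem hf ((Pol I A n).sum_mem fun j _ => (Pol I A n).smul_mem _ ?_)
    exact Pol_mono hn (hvN j)
  have hp : ∀ x : I × ℕ, ∃ p ∈ P, T (mon x.1 (-((x.2 : ℤ) + 1)) 1) - p ∈ Pol I A 0 := fun x =>
    (hk _).1 (hLT _)
  choose p hpP hpT using hp
  let S : ((I × ℕ) →₀ A) →ₗ[A] KK I A := Finsupp.linearCombination A p
  have hSP : ∀ c, S c ∈ P := by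
    intro c
    change Finsupp.linearCombination A p c ∈ P
    rw [Finsupp.linearCombination_apply, Finsupp.sum]
    exact Subalgebra.sum_mem _ fun x _ => P.smul_mem (hpP x) _
  have hST : ∀ c, T (iot c) - S c ∈ Pol I A 0 := by
    intro c
    change T (iot c) - Finsupp.linearCombination A p c ∈ Pol I A 0
    rw [iot, Finsupp.linearCombination_apply, Finsupp.linearCombination_apply, Finsupp.sum,
      Finsupp.sum, map_sum, ← Finset.sum_sub_distrib]
    refine (Pol I A 0).sum_mem fun x _ => ?_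
    rw [map_smul, ← smul_sub]
    exact (Pol I A 0).smul_mem _ (hpT x)
  refine ⟨S ∘ₗ rho, ⟨fun f => hSP _, fun f hf => ?_, fun q hq => ?_⟩, fun n hn f hf => ?_⟩
  · rw [LinearMap.comp_apply, rho_zero hf, map_zero]
  · rw [LinearMap.comp_apply]
    have h1 := hST (rho q)
    have h2 := sub_iot_mem q
    have h3 : T (iot (rho q)) = iot (rho q) := by
      rw [hT]
      have h4 : L (iot (rho q)) = 0 := by
        have h5 : iot (rho q) = q - (q - iot (rho q)) := by abel
        rw [h5, map_sub, LP q hq, L0 _ h2, sub_zero]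
      rw [h4]
      simp
    rw [h3] at h1
    have h6 : S (rho q) - q ∈ Pol I A 0 := by
      have h7 : S (rho q) - q = -((q - iot (rho q)) + (iot (rho q) - S (rho q))) := by abel
      rw [h7]
      exact (Pol I A 0).neg_mem ((Pol I A 0).add_mem h2 h1)
    obtain ⟨a, ha⟩ := hP.k1 _ (P.sub_mem (hSP _) hq) h6
    exact ⟨a, by rw [← ha]; abel⟩
  · rw [LinearMap.comp_apply]
    have hn0 : (0 : ℤ) ≤ n := le_trans (Int.natCast_nonneg N) hn
    have h1 := hST (rho f)
    have h2 := sub_iot_mem f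
    have h3 : iot (rho f) ∈ Pol I A n := by
      have h5 : iot (rho f) = f - (f - iot (rho f)) := by abel
      rw [h5]
      exact (Pol I A n).sub_mem hf (Pol_mono hn0 h2)
    have h4 : S (rho f) = T (iot (rho f)) - (T (iot (rho f)) - S (rho f)) := by abel
    rw [h4]
    exact (Pol I A n).sub_mem (hTn n hn _ h3) (Pol_mono hn0 h1)

/-- The constant term of `q - s q`. -/
noncomputable def cst (i : I) (s : KK I A →ₗ[A] KK I A) : KK I A →ₗ[A] A where
  toFun f := ((f - s f) i).coeff 0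
  map_add' f h := by
    have h1 : f + h - s (f + h) = (f - s f) + (h - s h) := by
      rw [map_add]
      abel
    rw [h1, Pi.add_apply, HahnSeries.coeff_add]
  map_smul' a f := by
    rw [map_smul, ← smul_sub, Pi.smul_apply, HahnSeries.coeff_smul, RingHom.id_apply]

theorem cst_eq (i : I) {s : KK I A →ₗ[A] KK I A} (hs : IsSec P s) {q : KK I A} (hq : q ∈ P) :
    s q + algebraMap A (KK I A) (cst i s q) = q := by
  obtain ⟨a, ha⟩ := hs.eq q hq
  have h1 : q - s q = algebraMap A (KK I A) (-a) := by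
    rw [ha, map_neg]
    abel
  have h2 : cst i s q = -a := by
    change ((q - s q) i).coeff 0 = -a
    rw [h1, Pi.algebraMap_apply, coeff_algebraMap, if_pos rfl]
  rw [h2, ← h1]
  abel

theorem proj [Finite I] [Nonempty I] {s : KK I A →ₗ[A] KK I A} (hs : IsSec P s) :
    Module.Projective A P := by
  obtain ⟨i₀⟩ := ‹Nonempty I›
  let j : P →ₗ[A] ((I × ℕ) →₀ A) × A :=
    (rho.prod (cst i₀ s)) ∘ₗ (Subalgebra.toSubmodule P).subtype
  let r : ((I × ℕ) →₀ A) × A →ₗ[A] P :=
    LinearMap.codRestrict (Subalgebra.toSubmodule P)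
      ((s ∘ₗ iot).coprod ((Algebra.linearMap A (KK I A)))) (fun x => by
        change s (iot x.1) + algebraMap A (KK I A) x.2 ∈ P
        exact P.add_mem (hs.mem _) (P.algebraMap_mem _))
  refine Module.Projective.of_split j r ?_
  ext1 q
  apply Subtype.ext
  change s (iot (rho (q : KK I A))) + algebraMap A (KK I A) (cst i₀ s q) = q
  have h1 : s (iot (rho (q : KK I A))) = s q := by
    have h2 := hs.zero _ (sub_iot_mem (q : KK I A))
    rw [map_sub, sub_eq_zero] at h2
    exact h2.symm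
  rw [h1, cst_eq i₀ hs q.2]

/-- The series with given coefficients at `τ^m`, `-n ≤ m < 0`. -/
noncomputable def low [Fintype I] (n : ℕ) : (I → Finset.Ico (-(n : ℤ)) 0 → A) →ₗ[A] KK I A where
  toFun c := ∑ i, ∑ m : Finset.Ico (-(n : ℤ)) 0, mon i (m : ℤ) (c i m)
  map_add' c c' := by
    simp only [← Finset.sum_add_distrib]
    refine Finset.sum_congr rfl fun i _ => Finset.sum_congr rfl fun m _ => ?_
    funext j
    ext l
    have h1 : ((mon i (m : ℤ) (c i m) + mon i (m : ℤ) (c' i m) : KK I A) j).coeff l =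
        (mon i (m : ℤ) (c i m) j).coeff l + (mon i (m : ℤ) (c' i m) j).coeff l := rfl
    rw [h1, mon_coeff, mon_coeff, mon_coeff]
    split_ifs
    · rfl
    · rw [add_zero]
  map_smul' a c := by
    simp only [Finset.smul_sum, smul_mon, RingHom.id_apply]
    rfl

theorem low_mem [Fintype I] (n : ℕ) (c : I → Finset.Ico (-(n : ℤ)) 0 → A) :
    low n c ∈ Pol I A n := by
  refine (Pol I A n).sum_mem fun i _ => (Pol I A n).sum_mem fun m _ => mon_mem_Pol i ?_ _
  exact (Finset.mem_Ico.1 m.2).1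

theorem sub_low_mem [Fintype I] {n : ℕ} {f : KK I A} (hf : f ∈ Pol I A n) :
    f - low n (fun i m => (f i).coeff m) ∈ Pol I A 0 := by
  have h1 := sub_mon_mem_Pol hf 0
  have h2 : low n (fun i (m : Finset.Ico (-(n : ℤ)) 0) => (f i).coeff (m : ℤ)) =
      ∑ i, ∑ m ∈ Finset.Ico (-(n : ℤ)) 0, mon i m ((f i).coeff m) := by
    refine Finset.sum_congr rfl fun i _ => ?_
    exact Finset.sum_coe_sort (Finset.Ico (-(n : ℤ)) 0) fun m => mon i m ((f i).coeff m)
  rw [h2]
  exact h1

theorem fin [Fintype I] [Nonempty I] {N : ℕ} {s : KK I A →ₗ[A] KK I A} (hs : IsSec P s)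
    (hn : ∀ n : ℤ, N ≤ n → ∀ f ∈ Pol I A n, s f ∈ Pol I A n) (n : ℤ) (hnN : N ≤ n) :
    Module.Finite A (PP P n) ∧ Module.Projective A (PP P n) := by
  obtain ⟨i₀⟩ := ‹Nonempty I›
  obtain ⟨k, rfl⟩ : ∃ k : ℕ, n = k := ⟨n.toNat, by omega⟩
  let cf : KK I A →ₗ[A] (I → Finset.Ico (-(k : ℤ)) 0 → A) :=
    { toFun := fun f i m => (f i).coeff m
      map_add' := fun f h => rfl
      map_smul' := fun a f => rfl }
  let j : PP P k →ₗ[A] (I → Finset.Ico (-(k : ℤ)) 0 → A) × A :=
    (cf.prod (cst i₀ s)) ∘ₗ (PP P k).subtype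
  let r : (I → Finset.Ico (-(k : ℤ)) 0 → A) × A →ₗ[A] PP P k :=
    LinearMap.codRestrict (PP P k)
      ((s ∘ₗ low k).coprod ((Algebra.linearMap A (KK I A)))) (fun x => by
        change s (low k x.1) + algebraMap A (KK I A) x.2 ∈ PP P k
        refine ⟨P.add_mem (hs.mem _) (P.algebraMap_mem _), ?_⟩
        refine (Pol I A k).add_mem (hn k hnN _ (low_mem k _)) ?_
        exact Pol_mono (Int.natCast_nonneg k) (algebraMap_mem_Pol0 _))
  have hrj : r ∘ₗ j = LinearMap.id := by
    ext1 q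
    apply Subtype.ext
    change s (low k (cf (q : KK I A))) + algebraMap A (KK I A) (cst i₀ s q) = q
    have h1 : s (low k (cf (q : KK I A))) = s q := by
      have h2 := hs.zero _ (sub_low_mem (f := (q : KK I A)) q.2.2)
      rw [map_sub, sub_eq_zero] at h2
      exact h2.symm
    rw [h1, cst_eq i₀ hs q.2.1]
  refine ⟨?_, Module.Projective.of_split j r hrj⟩
  refine Module.Finite.of_surjective r fun q => ⟨j q, ?_⟩
  exact congrArg (fun F => F q) hrj

end KSP

theorem t_KSP (hKNZ : Stmt_KNZ) : Stmt_KSP := by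
  intro I A _ _ _ g P hP
  constructor
  · obtain ⟨N, hN⟩ := (hKNZ hP).1
    obtain ⟨s, hs, -⟩ := KSP.exists_sec hP hN
    exact KSP.proj hs
  · intro N hN
    obtain ⟨s, hs, hn⟩ := KSP.exists_sec hP hN
    exact ⟨⟨s, hs, hn⟩, KSP.fin hs hn⟩

end Pool.Agent.MG.G0


end
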