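import Mathlib
import Pool.Agent.KDM.C08
import Pool.Agent.KDM.C11
import Pool.Agent.KDM.C12
import Pool.Agent.KDM.C13
import Pool.Agent.KDM.C15
import Pool.Agent.KDM.C22
import Pool.Agent.KDM.C24
import Pool.Agent.KDM.C25
import Pool.Agent.KDM.C26
import Pool.Agent.KDM.C28

/-! Parts: MG.G0.SUB, MG.G0.GRA, MG.G0.GTR, MG.G0.MSM, MG.G0.PSU, MG.G0.ROO, MG.G0.PSI, MG.G0.TG.TGA, MG.G0.TG.TGG, MG.G0.ZL.ZI, MG.G0.ZBE, MG.G0.UGN, MG.G0.USX -/

section

/-!
# Coordinate changes of Laurent series (PAPER.md, SUB)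
-/

namespace Pool.Agent.MG.G0

namespace SUB

section gen

variable {A B : Type} [CommRing A] [CommRing B]

/-- The monomial `τ^m`. -/
noncomputable def ta (A : Type) [CommRing A] (m : ℤ) : LaurentSeries A := HahnSeries.single m 1

theorem ta_coeff (m n : ℤ) : (ta A m).coeff n = if n = m then 1 else 0 := by
  rw [ta, HahnSeries.coeff_single]
  split_ifs <;> rfl

theorem ta_mul (m n : ℤ) : ta A m * ta A n = ta A (m + n) := by
  rw [ta, ta, HahnSeries.single_mul_single, mul_one]
  rfl

theorem ta_zero : ta A 0 = 1 := rfl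

theorem ta_pow (m : ℤ) (n : ℕ) : ta A m ^ n = ta A (n * m) := by
  induction n with
  | zero => rw [pow_zero, Nat.cast_zero, zero_mul, ta_zero]
  | succ n ih =>
    rw [pow_succ, ih, ta_mul]
    congr 1
    push_cast
    ring

theorem ta_mem (m : ℤ) : ta A m ∈ Po A (-m) := by
  intro n hn
  rw [ta_coeff, if_neg (by omega)]

theorem single_eq (m : ℤ) (a : A) : (HahnSeries.single m a : LaurentSeries A) = a • ta A m := by
  ext n
  rw [HahnSeries.coeff_smul, HahnSeries.coeff_single, ta_coeff, smul_eq_mul]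
  split_ifs <;> simp

theorem mul_mem_Po {m n : ℤ} {f g : LaurentSeries A} (hf : f ∈ Po A m) (hg : g ∈ Po A n) :
    f * g ∈ Po A (m + n) := fun k hk => mul_low hf hg k (by omega)

theorem Po_mono {m n : ℤ} (h : m ≤ n) : Po A m ≤ Po A n := fun _ hf k hk => hf k (by omega)

theorem exists_Po (f : LaurentSeries A) : ∃ n : ℕ, f ∈ Po A n := exists_low f

theorem psl_coeff (f : PowerSeries A) (m : ℤ) :
    (psl A f).coeff m = if m < 0 then 0 else PowerSeries.coeff m.natAbs f :=
  PowerSeries.coeff_coe f m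

theorem psl_mem (f : PowerSeries A) : psl A f ∈ Po A 0 := by
  intro m hm
  rw [psl_coeff, if_pos (by omega)]

theorem exists_psl {f : LaurentSeries A} (hf : f ∈ Po A 0) : ∃ p : PowerSeries A, f = psl A p := by
  refine ⟨PowerSeries.mk fun n => f.coeff n, ?_⟩
  ext m
  rw [psl_coeff]
  split_ifs with h
  · exact hf m (by omega)
  · rw [PowerSeries.coeff_mk]
    congr 1
    omega

theorem psl_X : psl A PowerSeries.X = ta A 1 := HahnSeries.ofPowerSeries_X

theorem psl_C (a : A) : psl A (PowerSeries.C a) = algebraMap A (LaurentSeries A) a :=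
  HahnSeries.ofPowerSeries_C a

theorem lmap_psl (φ : A →+* B) (f : PowerSeries A) :
    lmap φ (psl A f) = psl B (PowerSeries.map φ f) := by
  ext m
  rw [lmap_coeff, psl_coeff, psl_coeff]
  split_ifs
  · rw [map_zero]
  · rw [PowerSeries.coeff_map]

theorem lmap_ta (φ : A →+* B) (m : ℤ) : lmap φ (ta A m) = ta B m := by
  rw [ta, lmap_single, map_one]
  rfl

/-- Truncation. -/
theorem trunc {n : ℤ} {f : LaurentSeries A} (hf : f ∈ Po A n) (k : ℤ) :
    f - ∑ m ∈ Finset.Ico (-n) k, f.coeff m • ta A m ∈ Po A (-k) := by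
  intro l hl
  rw [neg_neg] at hl
  rw [HahnSeries.coeff_sub, HahnSeries.coeff_sum]
  have h1 : ∀ m, (f.coeff m • ta A m).coeff l = if l = m then f.coeff m else 0 := by
    intro m
    rw [HahnSeries.coeff_smul, ta_coeff, smul_eq_mul]
    split_ifs <;> simp
  simp only [h1]
  rw [Finset.sum_ite_eq]
  simp only [Finset.mem_Ico]
  split_ifs with h
  · exact sub_self _
  · rw [hf l (by omega), sub_zero]

/-- A continuous additive map vanishing at the monomials is zero. -/
theorem ext_zero (F : LaurentSeries A →+ LaurentSeries B) (s : ℤ)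
    (hF : ∀ (n : ℤ) (f : LaurentSeries A), f ∈ Po A n → F f ∈ Po B (n + s))
    (h : ∀ (a : A) (m : ℤ), F (a • ta A m) = 0) (f : LaurentSeries A) : F f = 0 := by
  obtain ⟨n, hn⟩ := exists_Po f
  ext l
  have h1 := hF _ _ (trunc hn (l + s + 1))
  have h2 : F (f - ∑ m ∈ Finset.Ico (-(n : ℤ)) (l + s + 1), f.coeff m • ta A m) = F f := by
    rw [map_sub, map_sum, Finset.sum_eq_zero fun m _ => h _ m, sub_zero]
  rw [h2] at h1
  rw [h1 l (by omega), HahnSeries.coeff_zero]

/-- Ring homomorphisms which agree at the constants and at `τ` agree at the monomials. -/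
theorem ext_mono (F G : LaurentSeries A →+* LaurentSeries B)
    (hc : ∀ a : A, F (algebraMap A _ a) = G (algebraMap A _ a)) (ht : F (ta A 1) = G (ta A 1))
    (a : A) (m : ℤ) : F (a • ta A m) = G (a • ta A m) := by
  have hi : F (ta A (-1)) = G (ta A (-1)) := by
    have h1 : F (ta A (-1)) * F (ta A 1) = 1 := by
      rw [← map_mul, ta_mul, neg_add_cancel, ta_zero, map_one]
    have h2 : G (ta A (-1)) * G (ta A 1) = 1 := by
      rw [← map_mul, ta_mul, neg_add_cancel, ta_zero, map_one]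
    calc F (ta A (-1)) = F (ta A (-1)) * (G (ta A (-1)) * G (ta A 1)) := by rw [h2, mul_one]
      _ = (F (ta A (-1)) * F (ta A 1)) * G (ta A (-1)) := by rw [← ht]; ring
      _ = G (ta A (-1)) := by rw [h1, one_mul]
  rw [Algebra.smul_def, map_mul, map_mul, hc]
  congr 1
  obtain ⟨k, rfl | rfl⟩ := Int.eq_nat_or_neg m
  · have h : ta A (k : ℤ) = ta A 1 ^ k := by rw [ta_pow, mul_one]
    rw [h, map_pow, map_pow, ht]
  · have h : ta A (-(k : ℤ)) = ta A (-1) ^ k := by rw [ta_pow, mul_neg, mul_one]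
    rw [h, map_pow, map_pow, hi]

end gen

section main

variable {A : Type} [CommRing A] {u : PowerSeries A} {Φ : LaurentSeries A →ₐ[A] LaurentSeries A}

theorem tau' (h : IsSub u Φ) : Φ (ta A 1) = psl A u := h.tau

theorem uniq {Ψ : LaurentSeries A →ₐ[A] LaurentSeries A} (h : IsSub u Φ) (h' : IsSub u Ψ) :
    Ψ = Φ := by
  ext1 f
  rw [← sub_eq_zero]
  refine ext_zero ((Ψ : LaurentSeries A →+ LaurentSeries A) - (Φ : LaurentSeries A →+ _)) 0
    ?_ ?_ f
  · intro n f hf
    rw [add_zero]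
    exact sub_mem (h'.pol n f hf) (h.pol n f hf)
  · intro a m
    rw [AddMonoidHom.sub_apply, sub_eq_zero]
    exact ext_mono (Ψ : LaurentSeries A →+* LaurentSeries A)
      (Φ : LaurentSeries A →+* LaurentSeries A)
      (fun a => by
        change Ψ _ = Φ _
        rw [AlgHom.commutes, AlgHom.commutes])
      (by
        change Ψ _ = Φ _
        rw [tau' h, tau' h']) a m

theorem lead (h : IsSub u Φ) (n : ℤ) {f : LaurentSeries A} (hf : f ∈ Po A n) :
    (Φ f).coeff (-n) = (Φ (ta A (-n))).coeff (-n) * f.coeff (-n) := by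
  have h1 : f - f.coeff (-n) • ta A (-n) ∈ Po A (n - 1) := by
    intro m hm
    rw [HahnSeries.coeff_sub, HahnSeries.coeff_smul, ta_coeff, smul_eq_mul]
    split_ifs with h
    · rw [h, mul_one, sub_self]
    · rw [hf m (by omega), mul_zero, sub_zero]
  have h2 := h.pol _ _ h1 (-n) (by omega)
  rw [map_sub, map_smul, HahnSeries.coeff_sub, HahnSeries.coeff_smul, smul_eq_mul,
    sub_eq_zero] at h2
  rw [h2, mul_comm]

theorem lead_unit (h : IsSub u Φ) (n : ℤ) : IsUnit ((Φ (ta A n)).coeff n) := by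
  have h1 := h.pol _ _ (ta_mem (A := A) n)
  have h2 := h.pol _ _ (ta_mem (A := A) (-n))
  have h3 := mul_lead (f := Φ (ta A n)) (g := Φ (ta A (-n))) (a := n) (b := -n)
    (fun m hm => h1 m (by omega)) (fun m hm => h2 m (by omega))
  rw [← map_mul, ta_mul, add_neg_cancel, ta_zero, map_one, HahnSeries.coeff_one, if_pos rfl] at h3
  exact IsUnit.of_mul_eq_one _ h3.symm

theorem mem_iff (h : IsSub u Φ) (n : ℤ) (f : LaurentSeries A) : Φ f ∈ Po A n ↔ f ∈ Po A n := by
  refine ⟨fun hf => ?_, h.pol n f⟩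
  obtain ⟨N, hN⟩ := exists_Po f
  have key : ∀ k : ℕ, f ∈ Po A (n + k) → f ∈ Po A n := by
    intro k
    induction k with
    | zero => intro hk; simpa using hk
    | succ k ih =>
      intro hk
      refine ih fun m hm => ?_
      by_cases h1 : m < -(n + (k + 1 : ℕ))
      · exact hk m h1
      · have h2 : m = -(n + (k + 1 : ℕ)) := by
          push_cast at h1 ⊢
          omega
        have h3 := lead h _ hk
        rw [hf _ (by push_cast; omega), ← h2] at h3
        have h4 : Φ (ta A m) = Φ (ta A m) := rfl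
        have h5 := lead_unit h m
        exact (IsUnit.mul_right_eq_zero h5).1 h3.symm
  refine key (N - n).toNat (Po_mono ?_ hN)
  omega

theorem inj (h : IsSub u Φ) : Function.Injective Φ := by
  rw [injective_iff_map_eq_zero]
  intro f hf
  ext n
  have h1 : f ∈ Po A (-(n + 1)) := (mem_iff h _ f).1 (by rw [hf]; exact zero_mem _)
  rw [HahnSeries.coeff_zero]
  exact h1 n (by omega)

/-- The solution of a triangular system. -/
noncomputable def sol (c : ℕ → ℕ → A) (g : ℕ → A) : ℕ → A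
  | j => Ring.inverse (c j j) * (g j - ∑ i : Fin j, sol c g i.1 * c i.1 j)
termination_by j => j
decreasing_by exact i.2

theorem sol_spec (c : ℕ → ℕ → A) (g : ℕ → A) (hc : ∀ j, IsUnit (c j j)) (j : ℕ) :
    ∑ i ∈ Finset.range (j + 1), sol c g i * c i j = g j := by
  rw [Finset.sum_range_succ]
  have h : sol c g j = Ring.inverse (c j j) * (g j - ∑ i : Fin j, sol c g i.1 * c i.1 j) := by
    rw [sol]
  rw [h, mul_right_comm, Ring.inverse_mul_cancel _ (hc j), one_mul,
    Fin.sum_univ_eq_sum_range (fun i => sol c g i * c i j) j]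
  ring

/-- The coefficients of `Φ f`. -/
theorem coeff_eq (h : IsSub u Φ) {n : ℤ} {f : LaurentSeries A} (hf : f ∈ Po A n) (k : ℤ) :
    (Φ f).coeff k = ∑ m ∈ Finset.Ico (-n) (k + 1), f.coeff m * (Φ (ta A m)).coeff k := by
  have h1 := h.pol _ _ (trunc hf (k + 1)) k (by omega)
  rw [map_sub, map_sum, HahnSeries.coeff_sub, HahnSeries.coeff_sum, sub_eq_zero] at h1
  rw [h1]
  refine Finset.sum_congr rfl fun m _ => ?_
  rw [map_smul, HahnSeries.coeff_smul, smul_eq_mul]

theorem surj (h : IsSub u Φ) : Function.Surjective Φ := by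
  intro g
  obtain ⟨n, hn⟩ := exists_Po g
  let c : ℕ → ℕ → A := fun i j => (Φ (ta A (-(n : ℤ) + i))).coeff (-(n : ℤ) + j)
  let a : ℕ → A := sol c fun j => g.coeff (-(n : ℤ) + j)
  let f : LaurentSeries A := ta A (-(n : ℤ)) * psl A (PowerSeries.mk a)
  have hfc : ∀ j : ℕ, f.coeff (-(n : ℤ) + j) = a j := by
    intro j
    change (ta A (-(n : ℤ)) * psl A (PowerSeries.mk a)).coeff (-(n : ℤ) + j) = a j
    rw [ta, add_comm, HahnSeries.coeff_single_mul_add, one_mul]
    change (HahnSeries.ofPowerSeries ℤ A (PowerSeries.mk a)).coeff (j : ℤ) = a j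
    rw [HahnSeries.ofPowerSeries_apply_coeff, PowerSeries.coeff_mk]
  have hp : psl A (PowerSeries.mk a) ∈ Po A 0 := psl_mem _
  have hf : f ∈ Po A n := by
    have := mul_mem_Po (ta_mem (A := A) (-(n : ℤ))) hp
    rwa [neg_neg, add_zero] at this
  refine ⟨f, ?_⟩
  ext k
  by_cases hk : k < -(n : ℤ)
  · rw [hn k hk, h.pol _ _ hf k hk]
  obtain ⟨j, rfl⟩ : ∃ j : ℕ, k = -(n : ℤ) + j := ⟨(k + n).toNat, by omega⟩
  rw [coeff_eq h hf]
  have hs := sol_spec c (fun j => g.coeff (-(n : ℤ) + j)) (fun j => lead_unit h _) j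
  rw [← hs]
  refine Finset.sum_nbij' (fun m => (m + n).toNat) (fun i => -(n : ℤ) + i) ?_ ?_ ?_ ?_ ?_
  · intro m hm
    simp only [Finset.mem_Ico, Finset.mem_range] at hm ⊢
    omega
  · intro m hm
    simp only [Finset.mem_Ico, Finset.mem_range] at hm ⊢
    omega
  · intro m hm
    simp only [Finset.mem_Ico] at hm ⊢
    omega
  · intro m hm
    omega
  · intro m hm
    simp only [Finset.mem_Ico] at hm
    have h1 : m = -(n : ℤ) + ((m + n).toNat : ℕ) := by omega
    rw [h1, hfc]
    have h2 : (-(n : ℤ) + ((m + n).toNat : ℕ) + n).toNat = (m + n).toNat := by omega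
    rw [h2]

/-! ### Existence -/

theorem psl_u (hu : PowerSeries.constantCoeff u = 0) :
    ∃ v : PowerSeries A, psl A u = ta A 1 * psl A v ∧
      PowerSeries.constantCoeff v = PowerSeries.coeff 1 u := by
  obtain ⟨v, rfl⟩ := PowerSeries.X_dvd_iff.2 hu
  refine ⟨v, ?_, ?_⟩
  · rw [map_mul, psl_X]
  · have : PowerSeries.coeff (0 + 1) (PowerSeries.X * v) = PowerSeries.coeff 0 v :=
      PowerSeries.coeff_succ_X_mul 0 v
    rw [zero_add] at this
    rw [this, PowerSeries.coeff_zero_eq_constantCoeff_apply]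

theorem exists_sub (hu : PowerSeries.constantCoeff u = 0) (hu1 : IsUnit (PowerSeries.coeff 1 u)) :
    ∃ Φ : LaurentSeries A →ₐ[A] LaurentSeries A, IsSub u Φ := by
  obtain ⟨v, hv, hv0⟩ := psl_u hu
  have hvu : IsUnit v := PowerSeries.isUnit_iff_constantCoeff.2 (by rw [hv0]; exact hu1)
  have hs : PowerSeries.HasSubst u := PowerSeries.HasSubst.of_constantCoeff_zero' hu
  let σ : PowerSeries A →ₐ[A] PowerSeries A := PowerSeries.substAlgHom hs
  have hσX : σ PowerSeries.X = u := PowerSeries.substAlgHom_X hs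
  have hun : IsUnit (psl A u) := by
    rw [hv]
    refine IsUnit.mul ?_ (hvu.map (psl A))
    exact IsUnit.of_mul_eq_one (ta A (-1)) (by rw [ta_mul, add_neg_cancel, ta_zero])
  let F : PowerSeries A →+* LaurentSeries A := (psl A).comp (σ : PowerSeries A →+* PowerSeries A)
  have hF : ∀ y : Submonoid.powers (PowerSeries.X : PowerSeries A), IsUnit (F y) := by
    rintro ⟨_, n, rfl⟩
    change IsUnit (psl A (σ (PowerSeries.X ^ n)))
    rw [map_pow, map_pow, hσX]
    exact hun.pow n
  let G : LaurentSeries A →+* LaurentSeries A := IsLocalization.lift hF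
  have hG : ∀ p : PowerSeries A, G (psl A p) = psl A (σ p) := fun p =>
    IsLocalization.lift_eq hF p
  let Φ : LaurentSeries A →ₐ[A] LaurentSeries A :=
    { G with
      commutes' := fun a => by
        change G (algebraMap A (LaurentSeries A) a) = _
        rw [← psl_C, hG]
        congr 1
        exact σ.commutes a }
  have hΦ : ∀ p : PowerSeries A, Φ (psl A p) = psl A (σ p) := hG
  have htau : Φ (ta A 1) = psl A u := by
    rw [← psl_X, hΦ, hσX]
  obtain ⟨w, hw⟩ := hvu.exists_right_inv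
  have hinv : Φ (ta A (-1)) = ta A (-1) * psl A w := by
    have h1 : Φ (ta A (-1)) * psl A u = 1 := by
      rw [← htau, ← map_mul, ta_mul, neg_add_cancel, ta_zero, map_one]
    have h2 : psl A u * (ta A (-1) * psl A w) = 1 := by
      rw [hv]
      calc ta A 1 * psl A v * (ta A (-1) * psl A w) = (ta A 1 * ta A (-1)) * psl A (v * w) := by
            rw [map_mul]; ring
        _ = 1 := by rw [hw, ta_mul, add_neg_cancel, ta_zero, map_one, one_mul]
    calc Φ (ta A (-1)) = Φ (ta A (-1)) * (psl A u * (ta A (-1) * psl A w)) := by rw [h2, mul_one]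
      _ = (Φ (ta A (-1)) * psl A u) * (ta A (-1) * psl A w) := by ring
      _ = ta A (-1) * psl A w := by rw [h1, one_mul]
  have hta : ∀ n : ℤ, Φ (ta A n) ∈ Po A (-n) := by
    intro n
    obtain ⟨k, rfl | rfl⟩ := Int.eq_nat_or_neg n
    · have h : ta A (k : ℤ) = ta A 1 ^ k := by rw [ta_pow, mul_one]
      rw [h, map_pow, htau, hv, mul_pow, ta_pow, mul_one, ← map_pow]
      have := mul_mem_Po (ta_mem (A := A) (k : ℤ)) (psl_mem (v ^ k))
      rwa [add_zero] at this
    · have h : ta A (-(k : ℤ)) = ta A (-1) ^ k := by rw [ta_pow, mul_neg, mul_one]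
      rw [h, map_pow, hinv, mul_pow, ta_pow, mul_neg, mul_one, ← map_pow]
      have := mul_mem_Po (ta_mem (A := A) (-(k : ℤ))) (psl_mem (w ^ k))
      rwa [add_zero] at this
  refine ⟨Φ, ?_, htau⟩
  intro n f hf
  have h1 : ta A n * f ∈ Po A 0 := by
    have := mul_mem_Po (ta_mem (A := A) n) hf
    rwa [neg_add_cancel] at this
  obtain ⟨p, hp⟩ := exists_psl h1
  have h2 : f = ta A (-n) * psl A p := by
    rw [← hp, ← mul_assoc, ta_mul, neg_add_cancel, ta_zero, one_mul]
  rw [h2, map_mul, hΦ]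
  have := mul_mem_Po (hta (-n)) (psl_mem (σ p))
  rwa [neg_neg, add_zero] at this

theorem exists_equiv (hu : PowerSeries.constantCoeff u = 0)
    (hu1 : IsUnit (PowerSeries.coeff 1 u)) :
    ∃ Φ : LaurentSeries A ≃ₐ[A] LaurentSeries A,
      IsSub u (Φ : LaurentSeries A →ₐ[A] LaurentSeries A) := by
  obtain ⟨Φ, h⟩ := exists_sub hu hu1
  refine ⟨AlgEquiv.ofBijective Φ ⟨inj h, surj h⟩, ?_⟩
  have : ((AlgEquiv.ofBijective Φ ⟨inj h, surj h⟩ : LaurentSeries A ≃ₐ[A] LaurentSeries A) :
      LaurentSeries A →ₐ[A] LaurentSeries A) = Φ := by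
    ext1 f
    rfl
  rw [this]
  exact h

/-! ### Derivatives and residues -/

theorem ld_mem {n : ℤ} {f : LaurentSeries A} (hf : f ∈ Po A n) : ld f ∈ Po A (n + 1) := by
  intro m hm
  rw [ld_coeff, hf _ (by omega), mul_zero]

theorem ld_mem0 {f : LaurentSeries A} (hf : f ∈ Po A 0) : ld f ∈ Po A 0 := by
  intro m hm
  rw [ld_coeff]
  by_cases h : m + 1 = 0
  · rw [h]
    simp
  · rw [hf _ (by omega), mul_zero]

theorem ld_one : ld (1 : LaurentSeries A) = 0 := by
  ext m
  rw [ld_coeff, HahnSeries.coeff_one, HahnSeries.coeff_zero]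
  split_ifs with h
  · rw [h]
    simp
  · rw [mul_zero]

theorem ld_ta (m : ℤ) : ld (ta A m) = (m : A) • ta A (m - 1) := by
  ext n
  rw [ld_coeff, HahnSeries.coeff_smul, ta_coeff, ta_coeff, smul_eq_mul]
  by_cases h : n + 1 = m
  · have h2 : n = m - 1 := by omega
    rw [if_pos h, if_pos h2, h]
  · have h2 : ¬ n = m - 1 := by omega
    rw [if_neg h, if_neg h2, mul_zero, mul_zero]

theorem ld_sub (h : IsSub u Φ) (f : LaurentSeries A) : ld (Φ f) = Φ (ld f) * ld (psl A u) := by
  rw [← sub_eq_zero]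
  let D : LaurentSeries A →+ LaurentSeries A :=
    { toFun := fun f => ld (Φ f) - Φ (ld f) * ld (psl A u)
      map_zero' := by
        have : ld (0 : LaurentSeries A) = 0 := map_zero _
        rw [map_zero, this, map_zero, zero_mul, sub_zero]
      map_add' := fun f g => by
        rw [map_add, ld_add, ld_add, map_add, add_mul]
        ring }
  have hD : ∀ f, D f = ld (Φ f) - Φ (ld f) * ld (psl A u) := fun f => rfl
  have hmul : ∀ f g, D (f * g) = Φ f * D g + D f * Φ g := by
    intro f g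
    rw [hD, hD, hD, map_mul, ld_mul, ld_mul, map_add, map_mul, map_mul]
    ring
  have h1 : D (ta A 1) = 0 := by
    rw [hD, tau' h, ld_ta, sub_self, ta_zero, Int.cast_one, one_smul, map_one, one_mul, sub_self]
  have h0 : D 1 = 0 := by
    rw [hD, map_one, ld_one, map_zero, zero_mul, sub_zero]
  have hm : D (ta A (-1)) = 0 := by
    have h2 : D (ta A (-1) * ta A 1) = 0 := by rw [ta_mul, neg_add_cancel, ta_zero, h0]
    rw [hmul, h1, mul_zero, zero_add] at h2
    have h3 : Φ (ta A 1) * Φ (ta A (-1)) = 1 := by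
      rw [← map_mul, ta_mul, add_neg_cancel, ta_zero, map_one]
    calc D (ta A (-1)) = (D (ta A (-1)) * Φ (ta A 1)) * Φ (ta A (-1)) := by
          rw [mul_assoc, h3, mul_one]
      _ = 0 := by rw [h2, zero_mul]
  have hpow : ∀ (t : LaurentSeries A), D t = 0 → ∀ k : ℕ, D (t ^ k) = 0 := by
    intro t ht k
    induction k with
    | zero => rw [pow_zero, h0]
    | succ k ih => rw [pow_succ, hmul, ht, ih, mul_zero, zero_mul, add_zero]
  have hsm : ∀ (a : A) (f : LaurentSeries A), D (a • f) = a • D f := by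
    intro a f
    rw [hD, hD, map_smul, ld_smul, ld_smul, map_smul, smul_mul_assoc, smul_sub]
  refine ext_zero D 1 ?_ ?_ f
  · intro n f hf
    rw [hD]
    refine sub_mem (ld_mem (h.pol _ _ hf)) ?_
    have := mul_mem_Po (h.pol _ _ (ld_mem hf)) (ld_mem0 (psl_mem u))
    rwa [add_zero] at this
  · intro a m
    rw [hsm]
    have : D (ta A m) = 0 := by
      obtain ⟨k, rfl | rfl⟩ := Int.eq_nat_or_neg m
      · have h : ta A (k : ℤ) = ta A 1 ^ k := by rw [ta_pow, mul_one]
        rw [h]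
        exact hpow _ h1 k
      · have h : ta A (-(k : ℤ)) = ta A (-1) ^ k := by rw [ta_pow, mul_neg, mul_one]
        rw [h]
        exact hpow _ hm k
    rw [this, smul_zero]

/-- The automorphism of `KK Unit A`. -/
noncomputable def kk (Φ : LaurentSeries A ≃ₐ[A] LaurentSeries A) : KK Unit A ≃ₐ[A] KK Unit A :=
  AlgEquiv.piCongrRight fun _ => Φ

theorem kk_apply (Φ : LaurentSeries A ≃ₐ[A] LaurentSeries A) (f : KK Unit A) :
    kk Φ f () = Φ (f ()) := rfl

theorem uno_map (Φ : LaurentSeries A ≃ₐ[A] LaurentSeries A)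
    (R : Subalgebra A (LaurentSeries A)) :
    (uno R).map (kk Φ : KK Unit A →ₐ[A] KK Unit A) =
      uno (R.map (Φ : LaurentSeries A →ₐ[A] LaurentSeries A)) := by
  ext f
  rw [mem_uno, Subalgebra.mem_map, Subalgebra.mem_map]
  constructor
  · rintro ⟨g, hg, rfl⟩
    exact ⟨g (), hg, rfl⟩
  · rintro ⟨g, hg, hf⟩
    exact ⟨fun _ => g, hg, funext fun _ => hf⟩

end main

end SUB

open _root_.Pool.Agent.MG.G0.SUB in
theorem t_SUB (hRIN : Stmt_RIN) (hKAU : Stmt_KAU) : Stmt_SUB := by
  refine ⟨fun u hu hu1 => exists_equiv hu hu1, ?_, ?_⟩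
  · intro A _ u hu hu1 Φ h
    obtain ⟨E, hE⟩ := exists_equiv hu hu1
    have hEΦ : (E : LaurentSeries A →ₐ[A] LaurentSeries A) = Φ := uniq h hE
    have hmem : ∀ f, kk E f ∈ Pol Unit A 0 ↔ f ∈ Pol Unit A 0 := by
      intro f
      rw [mem_Pol_unit, mem_Pol_unit, kk_apply]
      exact mem_iff hE 0 (f ())
    refine ⟨fun Ψ h' => uniq h h', fun n f => mem_iff h n f, ?_, ?_, fun f => ld_sub h f, ?_, ?_⟩
    · intro n
      exact ⟨_, lead_unit h (-n), fun f hf => lead h n hf⟩
    · intro f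
      obtain ⟨p, hp⟩ := exists_psl (h.pol _ _ (psl_mem f))
      refine ⟨p, hp, ?_⟩
      have h1 := lead h 0 (psl_mem f)
      rw [neg_zero, ta_zero, map_one, HahnSeries.coeff_one, if_pos rfl, one_mul, hp, psl_coeff,
        psl_coeff, if_neg (by omega), if_neg (by omega)] at h1
      simpa using h1
    · intro f
      have h1 := hRIN (kk E) hmem (fun _ => ta A 1) (fun _ => f)
      rw [res_unit, res_unit] at h1
      have h2 : (kk E (fun _ => f) * dd (kk E fun _ => ta A 1)) () = Φ f * ld (psl A u) := by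
        rw [← hEΦ]
        have h3 : psl A u = E (ta A 1) := (tau' hE).symm
        rw [h3]
        rfl
      have h3 : ((fun _ => f) * dd (fun _ => ta A 1) : KK Unit A) () = f := by
        have h4 : ((fun _ => f) * dd (fun _ => ta A 1) : KK Unit A) () = f * ld (ta A 1) := rfl
        rw [h4, ld_ta, sub_self, ta_zero, Int.cast_one, one_smul, mul_one]
      rw [h2, h3] at h1
      exact h1
    · intro g R
      have hmap := uno_map E R
      rw [hEΦ] at hmap
      constructor
      · intro hR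
        have h1 := hKAU.1 (uno R) (kk E) hmem hR
        rw [hmap] at h1
        exact h1
      · intro hR
        have h1 := hKAU.1 (uno (R.map Φ)) (kk E).symm (fun f => by
          have := hmem ((kk E).symm f)
          rw [AlgEquiv.apply_symm_apply] at this
          exact this.symm) hR
        rw [← hmap] at h1
        have h2 : ((uno R).map (kk E : KK Unit A →ₐ[A] KK Unit A)).map
            ((kk E).symm : KK Unit A →ₐ[A] KK Unit A) = uno R := by
          rw [Subalgebra.map_map]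
          have h3 : ((kk E).symm : KK Unit A →ₐ[A] KK Unit A).comp
              (kk E : KK Unit A →ₐ[A] KK Unit A) = AlgHom.id A _ := by
            ext1 f
            exact (kk E).symm_apply_apply f
          rw [h3, Subalgebra.map_id]
        rw [h2] at h1
        exact h1
  · intro A B _ _ φ u hu hu1 Φ Ψ h h' f
    rw [← sub_eq_zero]
    let F : LaurentSeries A →+* LaurentSeries B :=
      (lmap φ).comp (Φ : LaurentSeries A →+* LaurentSeries A)
    let G : LaurentSeries A →+* LaurentSeries B :=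
      (Ψ : LaurentSeries B →+* LaurentSeries B).comp (lmap φ)
    have hl : ∀ (n : ℤ) (f : LaurentSeries A), f ∈ Po A n → lmap φ f ∈ Po B n := by
      intro n f hf m hm
      rw [lmap_coeff, hf m hm, map_zero]
    refine ext_zero ((F : LaurentSeries A →+ LaurentSeries B) - (G : LaurentSeries A →+ _)) 0
      ?_ ?_ f
    · intro n f hf
      rw [add_zero]
      exact sub_mem (hl _ _ (h.pol n f hf)) (h'.pol n _ (hl _ _ hf))
    · intro a m
      rw [AddMonoidHom.sub_apply, sub_eq_zero]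
      refine ext_mono F G (fun a => ?_) ?_ a m
      · change lmap φ (Φ _) = Ψ (lmap φ _)
        rw [AlgHom.commutes, lmap_algebraMap, AlgHom.commutes]
      · change lmap φ (Φ _) = Ψ (lmap φ _)
        rw [tau' h, lmap_ta, tau' h', lmap_psl]

end Pool.Agent.MG.G0


end

section

/-!
# The special curve in the coordinate `τ` (PAPER_G.md, GRA)
-/

namespace Pool.Agent.MG.G0

namespace GRA

section

variable {A B : Type} [CommRing A] [CommRing B]

theorem unit_of {g : ℕ} (h : IsUnit (((6 * g + 9).factorial : ℕ) : A)) {m : ℕ} (h1 : 1 ≤ m)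
    (h2 : m ≤ 6 * g + 9) : IsUnit (m : A) := by
  obtain ⟨k, hk⟩ := (Nat.dvd_factorial (Nat.lt_of_lt_of_le Nat.zero_lt_one h1) h2)
  rw [hk, Nat.cast_mul] at h
  exact isUnit_of_mul_isUnit_left h

/-- The choice of `a`. -/
def ag (g : ℕ) : ℕ := if 3 ∣ g + 1 then 1 else 0

theorem ag_le (g : ℕ) : ag g ≤ 1 := by
  rw [ag]
  split_ifs <;> omega

theorem ag_dvd (g : ℕ) : ¬ 3 ∣ g + 1 + ag g := by
  rw [ag]
  split_ifs <;> omega

theorem cst_c (g : ℕ) (hg : 2 ≤ g) :
    PowerSeries.constantCoeff (1 - PowerSeries.X ^ (3 * g) : PowerSeries A) = 1 := by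
  rw [map_sub, map_one, map_pow, PowerSeries.constantCoeff_X, zero_pow (by omega), sub_zero]

/-- Existence of the data. -/
theorem exists_scd (hROO : Stmt_ROO) (g : ℕ) (hg : 2 ≤ g)
    (h : IsUnit (((6 * g + 9).factorial : ℕ) : A)) : ∃ S : SCD A, S.g = g ∧ S.a = ag g := by
  have h3 : IsUnit ((3 : ℕ) : A) := unit_of h (by omega) (by omega)
  obtain ⟨⟨r, ⟨h1, h2⟩, -⟩, h4⟩ := hROO 3 h3 _ (cst_c (A := A) g hg)
  have h5 := h4 r h1 h2 3 (fun k hk => by
    rw [map_sub, PowerSeries.coeff_one, PowerSeries.coeff_X_pow, if_neg, if_neg, sub_zero]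
    · rintro rfl
      exact hk (Dvd.intro _ rfl)
    · rintro rfl
      exact hk (dvd_zero 3))
  exact ⟨⟨g, ag g, r, hg, ag_le g, ag_dvd g, h, h1, h2, h5⟩, rfl, rfl⟩

/-- Uniqueness of the data. -/
theorem scd_unique (hROO : Stmt_ROO) (S T : SCD A) (h1 : S.g = T.g) (h2 : S.a = T.a) : S = T := by
  obtain ⟨g, a, r, hg, ha, h3, hd, r1, r3, rc⟩ := S
  obtain ⟨g', a', r', hg', ha', h3', hd', r1', r3', rc'⟩ := T
  simp only at h1 h2
  subst h1 h2
  have hu : IsUnit ((3 : ℕ) : A) := unit_of hd (by omega) (by omega)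
  obtain ⟨⟨s, -, hs⟩, -⟩ := hROO 3 hu _ (cst_c (A := A) g hg)
  have e1 := hs r ⟨r1, r3⟩
  have e2 := hs r' ⟨r1', r3'⟩
  have e : r = r' := e1.trans e2.symm
  subst e
  rfl

/-- The base change of the data. -/
noncomputable def SCDmap (φ : A →+* B) (S : SCD A) : SCD B where
  g := S.g
  a := S.a
  r := PowerSeries.map φ S.r
  hg := S.hg
  ha := S.ha
  h3 := S.h3
  hd := by
    have := S.hd.map φ
    rwa [map_natCast] at this
  r1 := by
    rw [← PowerSeries.coeff_zero_eq_constantCoeff_apply, PowerSeries.coeff_map,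
      PowerSeries.coeff_zero_eq_constantCoeff_apply, S.r1, map_one]
  r3 := by
    rw [← map_pow, S.r3, map_sub, map_one, map_pow, PowerSeries.map_X]
  rc k hk := by
    rw [PowerSeries.coeff_map, S.rc k hk, map_zero]

theorem lmap_Y (φ : A →+* B) (S : SCD A) : lmap φ S.Y = (SCDmap φ S).Y := by
  rw [SCD.Y, map_mul, lmap_single, map_one, SUB.lmap_psl]
  rfl

theorem lmap_W (φ : A →+* B) (S : SCD A) : lmap φ S.W = (SCDmap φ S).W := by
  rw [SCD.W, map_mul, lmap_single, map_one, SUB.lmap_psl, map_pow]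
  rfl

theorem lmap_mem (φ : A →+* B) (S : SCD A) {f : LaurentSeries A} (hf : f ∈ S.R) :
    lmap φ f ∈ (SCDmap φ S).R := by
  refine Algebra.adjoin_induction (p := fun f _ => lmap φ f ∈ (SCDmap φ S).R) ?_ ?_ ?_ ?_ hf
  · rintro f (rfl | rfl | rfl)
    · rw [lmap_zz]
      exact (SCDmap φ S).x.2
    · rw [lmap_Y]
      exact (SCDmap φ S).y.2
    · rw [lmap_W]
      exact (SCDmap φ S).w.2
  · intro a
    rw [lmap_algebraMap]
    exact (SCDmap φ S).R.algebraMap_mem _
  · intro f h _ _ h1 h2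
    rw [map_add]
    exact add_mem h1 h2
  · intro f h _ _ h1 h2
    rw [map_mul]
    exact mul_mem h1 h2

/-! ### The coordinate `τ` -/

/-- The function `z`. -/
noncomputable def zf (g : ℕ) (ζ : A) (S : SCD A) : LaurentSeries A :=
  zz A 3 ^ (2 * g + 3) + ζ • S.Y

theorem zf_mem (g : ℕ) (ζ : A) (S : SCD A) : zf g ζ S ∈ S.R :=
  add_mem (pow_mem S.x.2 _) (S.R.smul_mem S.y.2 ζ)

theorem lmap_zf (φ : A →+* B) (g : ℕ) (ζ : A) (S : SCD A) :
    lmap φ (zf g ζ S) = zf g (φ ζ) (SCDmap φ S) := by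
  rw [zf, zf, map_add, map_pow, lmap_zz, lmap_smul, lmap_Y]

/-- The series `z σ^d`. -/
noncomputable def cs (g : ℕ) (ζ : A) (S : SCD A) : PowerSeries A :=
  1 + ζ • (PowerSeries.X ^ (6 * g + 9 - S.n1) * S.r)

theorem cs_one (g : ℕ) (ζ : A) (S : SCD A) (hS : S.g = g) :
    PowerSeries.constantCoeff (cs g ζ S) = 1 := by
  have h : 0 < 6 * g + 9 - S.n1 := by
    have := S.ha
    simp only [SCD.n1]
    omega
  rw [cs, map_add, map_one, PowerSeries.smul_eq_C_mul, map_mul, map_mul, map_pow,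
    PowerSeries.constantCoeff_X, zero_pow (by omega), zero_mul, mul_zero, add_zero]

theorem psl_smul (ζ : A) (f : PowerSeries A) : psl A (ζ • f) = ζ • psl A f := by
  ext m
  rw [HahnSeries.coeff_smul, SUB.psl_coeff, SUB.psl_coeff]
  split_ifs
  · rw [smul_zero]
  · rw [PowerSeries.coeff_smul, smul_eq_mul]

theorem psl_X_pow (k : ℕ) : psl A (PowerSeries.X ^ k) = HahnSeries.single (k : ℤ) 1 :=
  HahnSeries.ofPowerSeries_X_pow k

theorem cs_eq (g : ℕ) (ζ : A) (S : SCD A) (hS : S.g = g) :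
    psl A (cs g ζ S) = psl A (PowerSeries.X ^ (6 * g + 9)) * zf g ζ S := by
  have h0 : S.n1 ≤ 6 * g + 9 := by
    have := S.ha
    simp only [SCD.n1]
    omega
  rw [cs, map_add, map_one, psl_smul, map_mul, zf, mul_add, psl_X_pow, psl_X_pow]
  congr 1
  · rw [zz, HahnSeries.single_pow, one_pow, HahnSeries.single_mul_single, one_mul, nsmul_eq_mul]
    have : ((6 * g + 9 : ℕ) : ℤ) + ((2 * g + 3 : ℕ) : ℤ) * (-((3 : ℕ) : ℤ)) = 0 := by
      push_cast
      ring
    rw [this]
    rfl
  · rw [mul_smul_comm, SCD.Y, ← mul_assoc, HahnSeries.single_mul_single, one_mul]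
    congr 3
    push_cast [Nat.cast_sub h0]
    ring

/-- Existence of the coordinate. -/
theorem exists_u (hROO : Stmt_ROO) (g : ℕ) (ζ : A) (S : SCD A) (hS : S.g = g) :
    ∃ u : PowerSeries A, PowerSeries.constantCoeff u = 0 ∧ PowerSeries.coeff 1 u = 1 ∧
      psl A u ^ (6 * g + 9) * zf g ζ S = 1 := by
  have hd : IsUnit (((6 * g + 9 : ℕ)) : A) := by
    subst hS
    exact unit_of S.hd (by omega) (by omega)
  obtain ⟨⟨s, ⟨h1, h2⟩, -⟩, -⟩ := hROO (6 * g + 9) hd _ (cs_one g ζ S hS)
  have hs : s * PowerSeries.invOfUnit s 1 = 1 :=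
    PowerSeries.mul_invOfUnit _ _ (by rw [h1]; rfl)
  refine ⟨PowerSeries.X * PowerSeries.invOfUnit s 1, ?_, ?_, ?_⟩
  · rw [map_mul, PowerSeries.constantCoeff_X, zero_mul]
  · rw [← zero_add 1, PowerSeries.coeff_succ_X_mul, PowerSeries.coeff_zero_eq_constantCoeff_apply,
      PowerSeries.constantCoeff_invOfUnit]
    simp
  · rw [← map_pow, mul_pow, map_mul, mul_assoc, mul_comm (psl A (_ ^ _)) (zf g ζ S), ← mul_assoc,
      ← cs_eq g ζ S hS, ← map_mul, ← h2, ← mul_pow, hs, one_pow, map_one]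

/-- Uniqueness of the coordinate. -/
theorem u_unique (hROO : Stmt_ROO) (g : ℕ) (ζ : A) (S : SCD A) (hS : S.g = g)
    (u v : PowerSeries A) (hu0 : PowerSeries.constantCoeff u = 0)
    (hu1 : PowerSeries.coeff 1 u = 1) (hu : psl A u ^ (6 * g + 9) * zf g ζ S = 1)
    (hv0 : PowerSeries.constantCoeff v = 0)
    (hv1 : PowerSeries.coeff 1 v = 1) (hv : psl A v ^ (6 * g + 9) * zf g ζ S = 1) : u = v := by
  have hd : IsUnit (((6 * g + 9 : ℕ)) : A) := by
    subst hS
    exact unit_of S.hd (by omega) (by omega)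
  obtain ⟨u', rfl⟩ := PowerSeries.X_dvd_iff.2 hu0
  obtain ⟨v', rfl⟩ := PowerSeries.X_dvd_iff.2 hv0
  rw [← zero_add 1, PowerSeries.coeff_succ_X_mul,
    PowerSeries.coeff_zero_eq_constantCoeff_apply] at hu1 hv1
  have key : ∀ w : PowerSeries A, psl A (PowerSeries.X * w) ^ (6 * g + 9) * zf g ζ S = 1 →
      w ^ (6 * g + 9) * cs g ζ S = 1 := by
    intro w hw
    apply HahnSeries.ofPowerSeries_injective (Γ := ℤ)
    change psl A _ = psl A _
    rw [map_mul, cs_eq g ζ S hS, map_one, ← mul_assoc, ← map_mul, mul_comm (w ^ _), ← mul_pow,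
      map_pow, hw]
  have h1 := key u' hu
  have h2 := key v' hv
  have h3 : u' ^ (6 * g + 9) = v' ^ (6 * g + 9) := by
    calc u' ^ (6 * g + 9) = u' ^ (6 * g + 9) * (v' ^ (6 * g + 9) * cs g ζ S) := by
          rw [h2, mul_one]
      _ = v' ^ (6 * g + 9) * (u' ^ (6 * g + 9) * cs g ζ S) := by ring
      _ = _ := by rw [h1, mul_one]
  obtain ⟨⟨s, -, hs⟩, -⟩ := hROO (6 * g + 9) hd (v' ^ (6 * g + 9)) (by
    rw [map_pow, hv1, one_pow])
  rw [hs u' ⟨hu1, h3⟩, hs v' ⟨hv1, rfl⟩]

theorem Phi_zz (u : PowerSeries A) (Φ : LaurentSeries A →ₐ[A] LaurentSeries A) (hΦ : IsSub u Φ)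
    (g : ℕ) (ζ : A) (S : SCD A) (hu : psl A u ^ (6 * g + 9) * zf g ζ S = 1) :
    Φ (zz A (6 * g + 9)) = zf g ζ S := by
  have h1 : zz A (6 * g + 9) * HahnSeries.single 1 1 ^ (6 * g + 9) = 1 := by
    rw [zz, HahnSeries.single_pow, one_pow, HahnSeries.single_mul_single, one_mul, nsmul_eq_mul,
      mul_one, neg_add_cancel]
    rfl
  have h2 := congrArg Φ h1
  rw [map_mul, map_pow, hΦ.tau, map_one] at h2
  calc Φ (zz A (6 * g + 9)) = Φ (zz A (6 * g + 9)) * (psl A u ^ (6 * g + 9) * zf g ζ S) := by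
        rw [hu, mul_one]
    _ = (Φ (zz A (6 * g + 9)) * psl A u ^ (6 * g + 9)) * zf g ζ S := by ring
    _ = _ := by rw [h2, one_mul]

end

end GRA

open _root_.Pool.Agent.MG.G0.GRA in
theorem t_GRA (hROO : Stmt_ROO) (hSUB : Stmt_SUB) (hGST : Stmt_GST) (hGFS : Stmt_GFS)
    (hGSM : Stmt_GSM) (hGTT : Stmt_GTT) (hGNO : Stmt_GNO) (hGFR : Stmt_GFR) (hGTR : Stmt_GTR) :
    Stmt_GRA := by
  intro g hg
  refine ⟨?_, ?_, ?_⟩
  · intro A _ ζ hd
    obtain ⟨S, hS1, hS2⟩ := exists_scd hROO g hg hd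
    obtain ⟨u, hu0, hu1, hu⟩ := exists_u hROO g ζ S hS1
    obtain ⟨Φ, hΦ⟩ := hSUB.1 u hu0 (by rw [hu1]; exact isUnit_one)
    exact ⟨_, S, u, Φ, hS1, hS2, hu0, hu1, hΦ, hu, rfl⟩
  · rintro A _ ζ R ⟨S, u, Φ, hS1, hS2, hu0, hu1, hΦ, hu, hR⟩
    have hu1' : IsUnit (PowerSeries.coeff 1 u) := by
      rw [hu1]
      exact isUnit_one
    obtain ⟨t1, t2, t3, t4, t5, t6⟩ := hGTR u hu0 hu1' Φ hΦ S.R R hR
    refine ⟨?_, ?_, ?_, t3 (hGFS S), t2 (hGSM S), t4 (hGTT S).2, t5 (hGNO S), ?_⟩
    · rintro R' ⟨S', u', Φ', hS1', hS2', hu0', hu1', hΦ', hu', hR'⟩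
      have hS : S' = S := scd_unique hROO S' S (hS1'.trans hS1.symm) (hS2'.trans hS2.symm)
      subst hS
      have huu : u' = u := u_unique hROO g ζ S' hS1 u' u hu0' hu1' hu' hu0 hu1 hu
      subst huu
      have hΦΦ := (hSUB.2.1 u' hu0 (by rw [hu1]; exact isUnit_one) _ hΦ).1 _ hΦ'
      rw [hR', hR, hΦΦ]
    · have := t1 S.g (hGST S).2.2.2.2.2.2.2.2.2.2.2.2
      rwa [hS1] at this
    · rw [hR]
      change (Φ : LaurentSeries A →ₐ[A] LaurentSeries A) (zz A (6 * g + 9)) ∈ S.R
      rw [Phi_zz u _ hΦ g ζ S hu]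
      exact zf_mem g ζ S
    · intro p hp hc hpg
      exact t6 p (hGFR S p hp hc (by rw [hS1]; exact hpg))
  · rintro A B _ _ ζ R ⟨S, u, Φ, hS1, hS2, hu0, hu1, hΦ, hu, hR⟩ φ
    have hv0 : PowerSeries.constantCoeff (PowerSeries.map φ u) = 0 := by
      rw [← PowerSeries.coeff_zero_eq_constantCoeff_apply, PowerSeries.coeff_map,
        PowerSeries.coeff_zero_eq_constantCoeff_apply, hu0, map_zero]
    have hv1 : PowerSeries.coeff 1 (PowerSeries.map φ u) = 1 := by
      rw [PowerSeries.coeff_map, hu1, map_one]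
    obtain ⟨Ψ, hΨ⟩ := hSUB.1 (PowerSeries.map φ u) hv0 (by rw [hv1]; exact isUnit_one)
    have hcomm := hSUB.2.2 φ u hu0 (by rw [hu1]; exact isUnit_one) _ _ hΦ hΨ
    refine ⟨SCDmap φ S, PowerSeries.map φ u, Ψ, hS1, hS2, hv0, hv1, hΨ, ?_, ?_⟩
    · change psl B (PowerSeries.map φ u) ^ (6 * g + 9) * zf g (φ ζ) (SCDmap φ S) = 1
      rw [← SUB.lmap_psl, ← lmap_zf, ← map_pow, ← map_mul]
      change lmap φ (psl A u ^ (6 * g + 9) * (zz A 3 ^ (2 * g + 3) + ζ • S.Y)) = 1
      rw [hu, map_one]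
    · apply le_antisymm
      · refine Algebra.adjoin_le ?_
        rintro _ ⟨f, hf, rfl⟩
        change (Ψ : LaurentSeries B →ₐ[B] LaurentSeries B) (lmap φ f) ∈ (SCDmap φ S).R
        rw [← hcomm]
        apply lmap_mem
        rw [hR] at hf
        exact hf
      · have hle : (SCDmap φ S).R ≤
            (bc1 φ R).map (Ψ : LaurentSeries B →ₐ[B] LaurentSeries B) := by
          have hgen : ∀ f : LaurentSeries A, f ∈ S.R → lmap φ f ∈
              (bc1 φ R).map (Ψ : LaurentSeries B →ₐ[B] LaurentSeries B) := by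
            intro f hf
            refine ⟨lmap φ (Φ.symm f), Algebra.subset_adjoin ⟨Φ.symm f, ?_, rfl⟩, ?_⟩
            · rw [hR]
              change Φ (Φ.symm f) ∈ S.R
              rw [Φ.apply_symm_apply]
              exact hf
            · have h := hcomm (Φ.symm f)
              change lmap φ (Φ (Φ.symm f)) = _ at h
              rw [Φ.apply_symm_apply] at h
              exact h.symm
          refine Algebra.adjoin_le ?_
          rintro f (rfl | rfl | rfl)
          · rw [← lmap_zz φ]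
            exact hgen _ S.x.2
          · rw [← lmap_Y]
            exact hgen _ S.y.2
          · rw [← lmap_W]
            exact hgen _ S.w.2
        intro f hf
        obtain ⟨h, hh, he⟩ := hle hf
        have : h = f := Ψ.injective he
        rwa [← this]

end Pool.Agent.MG.G0


end

section

/-!
# Transport along a change of coordinates (PAPER_G.md, GTR)
-/

namespace Pool.Agent.MG.G0

namespace GTR

variable {A : Type} [CommRing A]

theorem ld_psl (u : PowerSeries A) : ld (psl A u) =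
    psl A (PowerSeries.mk fun n => ((n + 1 : ℕ) : A) * PowerSeries.coeff (n + 1) u) := by
  ext m
  rw [ld_coeff, SUB.psl_coeff, SUB.psl_coeff]
  by_cases h : m < 0
  · rw [if_pos h]
    by_cases h2 : m + 1 < 0
    · rw [if_pos h2, mul_zero]
    · have h3 : m + 1 = 0 := by omega
      rw [h3]
      simp
  · rw [if_neg h, if_neg (by omega), PowerSeries.coeff_mk]
    obtain ⟨n, rfl⟩ := Int.eq_ofNat_of_zero_le (not_lt.1 h)
    have h1 : ((n : ℤ) + 1).natAbs = n + 1 := by omega
    rw [h1, Int.natAbs_natCast]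
    congr 1
    push_cast
    rfl

/-- The derivative of a coordinate is invertible. -/
theorem exists_inv (u : PowerSeries A) (hu : IsUnit (PowerSeries.coeff 1 u)) :
    ∃ ji : LaurentSeries A, ji ∈ Po A 0 ∧ ji * ld (psl A u) = 1 := by
  have hv : IsUnit (PowerSeries.mk fun n => ((n + 1 : ℕ) : A) * PowerSeries.coeff (n + 1) u) := by
    rw [PowerSeries.isUnit_iff_constantCoeff, ← PowerSeries.coeff_zero_eq_constantCoeff_apply,
      PowerSeries.coeff_mk]
    simpa using hu
  obtain ⟨w, hw⟩ := hv.exists_left_inv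
  exact ⟨psl A w, SUB.psl_mem w, by rw [ld_psl, ← map_mul, hw, map_one]⟩

end GTR

open _root_.Pool.Agent.MG.G0.GTR in
theorem t_GTR (hSUB : Stmt_SUB) (hSBC : Stmt_SBC) : Stmt_GTR := by
  intro A _ u hu hu1 Φ hΦ R R' hR'
  obtain ⟨-, hpo, hlc, -, hld, hres, hkr⟩ := hSUB.2.1 u hu hu1 _ hΦ
  obtain ⟨ji, hji, hj⟩ := exists_inv u hu1
  have hjm : ld (psl A u) ∈ Po A 0 := SUB.ld_mem0 (SUB.psl_mem u)
  have hpo' : ∀ (n : ℤ) (f : LaurentSeries A), Φ f ∈ Po A n ↔ f ∈ Po A n := hpo
  have hld' : ∀ f, ld (Φ f) = Φ (ld f) * ld (psl A u) := hld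
  have hres' : ∀ f, (Φ f * ld (psl A u)).coeff (-1) = f.coeff (-1) := hres
  have hmem : ∀ f, f ∈ R' ↔ Φ f ∈ R := by
    intro f
    rw [hR']
    rfl
  have hmem2 : ∀ f, Φ.symm f ∈ R' ↔ f ∈ R := by
    intro f
    rw [hmem, Φ.apply_symm_apply]
  have hP0 : ∀ {f g : LaurentSeries A}, f ∈ Po A 0 → g ∈ Po A 0 → f * g ∈ Po A 0 := by
    intro f g hf hg
    have := SUB.mul_mem_Po hf hg
    rwa [add_zero] at this
  have hmap : R'.map (Φ : LaurentSeries A →ₐ[A] LaurentSeries A) = R := by
    ext f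
    rw [Subalgebra.mem_map]
    constructor
    · rintro ⟨g, hg, rfl⟩
      exact (hmem g).1 hg
    · intro hf
      exact ⟨Φ.symm f, (hmem2 f).2 hf, Φ.apply_symm_apply f⟩
  let e : R ≃ₐ[A] uno R' :=
    { toFun := fun f => ⟨fun _ => Φ.symm f, (hmem2 _).2 f.2⟩
      invFun := fun f => ⟨Φ ((f : KK Unit A) ()), (hmem _).1 f.2⟩
      left_inv := fun f => Subtype.ext (Φ.apply_symm_apply _)
      right_inv := fun f => Subtype.ext (funext fun _ => Φ.symm_apply_apply _)
      map_mul' := fun f g => Subtype.ext (funext fun _ => map_mul Φ.symm _ _)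
      map_add' := fun f g => Subtype.ext (funext fun _ => map_add Φ.symm _ _)
      commutes' := fun a => Subtype.ext (funext fun _ => Φ.symm.commutes a) }
  have hTT : ∀ θ, θ ∈ TT1 R' ↔ Φ θ * ji ∈ TT1 R := by
    intro θ
    rw [mem_TT1, mem_TT1]
    constructor
    · intro h f hf
      have h1 := h (Φ.symm f) ((hmem2 f).2 hf)
      rw [hmem, map_mul] at h1
      have h2 := hld' (Φ.symm f)
      rw [Φ.apply_symm_apply] at h2
      rw [h2]
      have h3 : Φ θ * ji * (Φ (ld (Φ.symm f)) * ld (psl A u)) = Φ θ * Φ (ld (Φ.symm f)) := by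
        linear_combination (Φ θ * Φ (ld (Φ.symm f))) * hj
      rw [h3]
      exact h1
    · intro h f hf
      have h1 := h (Φ f) ((hmem f).1 hf)
      rw [hld'] at h1
      rw [hmem, map_mul]
      have h3 : Φ θ * ji * (Φ (ld f) * ld (psl A u)) = Φ θ * Φ (ld f) := by
        linear_combination (Φ θ * Φ (ld f)) * hj
      rw [h3] at h1
      exact h1
  refine ⟨?_, ?_, ?_, ?_, ?_, ?_⟩
  · intro g hg
    rw [hkr (R := R'), hmap]
    exact hg
  · exact fun h => hSBC.2.1 e h
  · intro h
    exact Algebra.FormallySmooth.of_equiv e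
  · intro h θ hθ h0
    have h1 := h _ ((hTT θ).1 hθ) (hP0 ((hpo' 0 θ).2 h0) hji)
    have h2 : Φ θ = 0 := by
      have h3 : Φ θ = Φ θ * ji * ld (psl A u) := by
        rw [mul_assoc, hj, mul_one]
      rw [h3, h1, zero_mul]
    exact (map_eq_zero_iff Φ Φ.injective).1 h2
  · intro h θ hθ
    obtain ⟨θ1, hθ1, hd⟩ := h (Φ θ * ji) (by
      have key : ∀ ω ∈ EE1 R, Φ.symm (ω * ji) ∈ EE1 R' := by
        intro ω hω
        rw [mem_EE1] at hω ⊢
        refine ⟨fun p hp => ?_, ?_⟩
        · rw [← hres', map_mul, Φ.apply_symm_apply]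
          have h3 : ω * ji * Φ p * ld (psl A u) = ω * Φ p := by
            linear_combination (ω * Φ p) * hj
          rw [h3]
          exact hω.1 _ ((hmem p).1 hp)
        · rw [← hpo', Φ.apply_symm_apply]
          exact hP0 hω.2 hji
      intro ω hω ω' hω'
      have h1 := hθ _ (key ω hω) _ (key ω' hω')
      rw [← hres', map_mul, map_mul, Φ.apply_symm_apply, Φ.apply_symm_apply] at h1
      have h3 : Φ θ * (ω * ji) * (ω' * ji) * ld (psl A u) = Φ θ * ji * ω * ω' := by
        linear_combination (Φ θ * ji * ω * ω') * hj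
      rw [h3] at h1
      exact h1)
    refine ⟨Φ.symm (θ1 * ld (psl A u)), ?_, ?_⟩
    · rw [hTT, Φ.apply_symm_apply]
      have h3 : θ1 * ld (psl A u) * ji = θ1 := by
        linear_combination θ1 * hj
      rw [h3]
      exact hθ1
    · rw [← hpo', map_sub, Φ.apply_symm_apply]
      have h3 : Φ θ - θ1 * ld (psl A u) = (Φ θ * ji - θ1) * ld (psl A u) := by
        linear_combination (-Φ θ) * hj
      rw [h3]
      exact hP0 hd hjm
  · intro p h f
    obtain ⟨x, hx, hd⟩ := h (Φ f)
    refine ⟨Φ.symm x, (hmem2 x).2 hx, ?_⟩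
    rw [← hpo', map_sub, map_pow, Φ.apply_symm_apply]
    exact hd

end Pool.Agent.MG.G0


end

section

/-!
# Models: the different, the discriminant of reductions, smoothness (module MSM)
-/

open Polynomial

namespace Pool.Agent.MG.G0

namespace MSM

theorem kr_bc1 (hKBC : Stmt_KBC) {A B : Type} [CommRing A] [CommRing B] {g : ℕ}
    {R : Subalgebra A (LaurentSeries A)} (h : Kr g R) (φ : A →+* B) : Kr g (bc1 φ R) := by
  have h1 := (hKBC.2.2.2 (P := uno R) h φ).1
  rw [bc_uno] at h1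
  exact h1

theorem zz_bc1 {A B : Type} [CommRing A] [CommRing B] {d : ℕ}
    {R : Subalgebra A (LaurentSeries A)} (h : zz A d ∈ R) (φ : A →+* B) : zz B d ∈ bc1 φ R := by
  rw [← lmap_zz φ d]
  exact Algebra.subset_adjoin ⟨zz A d, h, rfl⟩

theorem sep_mul {κ : Type} [Field κ] {c : κ} {h : κ[X]} (h0 : h.eval c ≠ 0) (hs : h.Separable) :
    ((X - C c) * h).Separable := by
  refine Polynomial.Separable.mul (Polynomial.separable_X_sub_C) hs ?_
  refine ((Polynomial.irreducible_X_sub_C c).coprime_iff_not_dvd).2 fun h1 => h0 ?_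
  exact Polynomial.dvd_iff_isRoot.1 h1

end MSM

open _root_.Pool.Agent.MG.G0.MSM in
theorem t_MSM (hKBC : Stmt_KBC) (hKIL : Stmt_KIL) (hKIS : Stmt_KIS) (hDSC : Stmt_DSC)
    (hKRK : Stmt_KRK) : Stmt_MSM := by
  intro κ O L _ _ _ _ _ _ g d R M hd hfac
  have hd1 : 1 ≤ d := by omega
  have hdκ : (d : κ) ≠ 0 := by
    intro h
    apply hfac
    obtain ⟨e, he⟩ := Nat.dvd_factorial (by omega : 0 < d) le_rfl
    rw [he, Nat.cast_mul, h, zero_mul]
  have hdκ' : IsUnit (d : κ) := isUnit_iff_ne_zero.2 hdκ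
  have hdO : IsUnit (d : O) := by
    have h1 := hdκ'.map (algebraMap κ O)
    rwa [map_natCast] at h1
  have hdL : IsUnit (d : L) := by
    have h1 := hdO.map (algebraMap O L)
    rwa [map_natCast] at h1
  have hval : ValuationRing O := M.val
  have hfrac : IsFractionRing O L := M.frac
  have hdisc : Disc d (bc1 (algebraMap O L) M.P) (M.f.map (algebraMap O L)) := by
    rw [M.bc]
    exact M.disc
  have hKil : Kil d M.P M.f := by
    have h1 := hKIL.1 hd1 hdL (kr_bc1 hKBC M.kr (algebraMap O L))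
      (zz_bc1 M.z (algebraMap O L)) hdisc
    exact hKIL.2.2 (algebraMap O L) (IsFractionRing.injective O L) hd1 hdO M.kr M.z M.monic h1
  have hmax : ∀ m : ℕ, ∀ x ∈ IsLocalRing.maximalIdeal O ^ m, M.π ^ m ∣ x := by
    intro m x hx
    have h1 : IsLocalRing.maximalIdeal O ≤ Ideal.span {M.π} := by
      intro y hy
      rw [Ideal.mem_span_singleton]
      apply M.ker
      by_contra h2
      exact (IsLocalRing.mem_maximalIdeal y).1 hy (M.unit y h2)
    have h2 := Ideal.pow_right_mono h1 m hx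
    rw [Ideal.span_singleton_pow, Ideal.mem_span_singleton] at h2
    exact h2
  have hDisc : ∀ {B : Type} [CommRing B] (φ : O →+* B), (∃ m : ℕ, φ (M.π ^ m) = 0) →
      Disc d (bc1 φ M.P) (M.f.map φ) := by
    intro B _ φ hφ
    obtain ⟨m, hm⟩ := hφ
    refine hDSC (L := L) hd1 hdO M.kr M.z M.monic M.deg hdisc φ ⟨m, fun x hx => ?_⟩
    obtain ⟨y, rfl⟩ := hmax m x hx
    rw [map_mul, hm, zero_mul]
  refine ⟨hKil, fun {B} _ φ hφ => hDisc φ hφ, fun hκ hSmo => ?_⟩
  have hb : Disc d M.Pb M.fb := hDisc (M.rs : O →+* κ) ⟨1, by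
    rw [pow_one]
    exact M.rsπ⟩
  have hkr : Kr g M.Pb := kr_bc1 hKBC M.kr _
  have hz : zz κ d ∈ M.Pb := zz_bc1 M.z _
  rcases hSmo with hs | ⟨c, ⟨h, hh, hc, hs⟩, hG⟩
  · exact hKIS hd1 hfac hkr hz (hKIL.1 hd1 hdκ' hkr hz hb) hs
  · exact hKIS hd1 hfac hkr hz (hKRK hd hdκ hkr hz hb hh hG) (sep_mul hc hs)

end Pool.Agent.MG.G0


end

section

/-!
# PSU: substitutions in `Fx` (PAPER_Q.md)
-/

open TensorProduct

namespace Pool.Agent.MG.G0

namespace PSU

section

variable {I : Type} [Fintype I] {D : Type} [CommRing D]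

/-- The identification of `QD Q` and `QD Q'` for `Q = Q'`. -/
noncomputable def incQ {Q Q' : Subalgebra D (KK I D)} (h : Q = Q') : QD Q →ₗ[D] QD Q' :=
  TensorProduct.map
    { toFun := fun x => (⟨(x : KK I D), h ▸ x.2⟩ : Perp Q')
      map_add' := fun _ _ => rfl
      map_smul' := fun _ _ => rfl }
    { toFun := fun x => (⟨(x : KK I D), h ▸ x.2⟩ : Q')
      map_add' := fun _ _ => rfl
      map_smul' := fun _ _ => rfl }

theorem incQ_tmul {Q Q' : Subalgebra D (KK I D)} (h : Q = Q') (x : Perp Q) (g : Q) :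
    incQ h (x ⊗ₜ g) = (⟨(x : KK I D), h ▸ x.2⟩ : Perp Q') ⊗ₜ[D] (⟨(g : KK I D), h ▸ g.2⟩ : Q') :=
  rfl

theorem incQ_rfl {Q : Subalgebra D (KK I D)} (q : QD Q) : incQ rfl q = q := by
  induction q using TensorProduct.induction_on with
  | zero => rw [map_zero]
  | tmul x g => rfl
  | add a b ha hb => rw [map_add, ha, hb]

theorem qk_incQ {Q Q' : Subalgebra D (KK I D)} (h : Q = Q') (q : QD Q) :
    qk Q' (incQ h q) = qk Q q := by
  subst h
  rw [incQ_rfl]

/-- The identification of `QR Q` and `QR Q'` for `Q = Q'`. -/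
noncomputable def incR {Q Q' : Subalgebra D (KK I D)} (h : Q = Q') : QR Q →ₗ[D] QR Q' where
  toFun q := ⟨incQ h q, by rw [mem_QR, qk_incQ]; exact q.2⟩
  map_add' x y := Subtype.ext (map_add (incQ h) (x : QD Q) y)
  map_smul' a x := Subtype.ext (map_smul (incQ h) a (x : QD Q))

theorem incR_val {Q Q' : Subalgebra D (KK I D)} (h : Q = Q') (q : QR Q) :
    (incR h q : QD Q') = incQ h q := rfl

theorem Phi_incR {g : ℕ} (E : Ev g) [Algebra ℂ D] {Q Q' : Subalgebra D (KK I D)} (h : Q = Q')
    (q : QR Q) : E.Φ D I Q' (cov Q' (incR h q)) = E.Φ D I Q (cov Q q) := by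
  subst h
  have h1 : incR rfl q = q := Subtype.ext (incQ_rfl _)
  rw [h1]

theorem Phi_zero {g : ℕ} (E : Ev g) [Algebra ℂ D] {Q Q' : Subalgebra D (KK I D)} (h : Q = Q') :
    E.Φ D I Q' 0 = E.Φ D I Q 0 := by
  subst h
  rfl

end

section

variable {I : Type} [Fintype I] {A B D : Type} [CommRing A] [CommRing B] [CommRing D]

theorem incQ_bcQ (α : A →+* B) (β : B →+* D) (φ : A →+* D) (P : Subalgebra A (KK I A))
    (h : bc β (bc α P) = bc φ P) (hφ : ∀ a, β (α a) = φ a) (q : QD P) :
    incQ h (bcQ β (bc α P) (bcQ α P q)) = bcQ φ P q := by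
  have h1 : ∀ f : KK I A, kmap β (kmap α f) = kmap φ f := fun f => by
    funext i
    ext m
    rw [kmap_apply, kmap_apply, kmap_apply, lmap_coeff, lmap_coeff, lmap_coeff, hφ]
  induction q using TensorProduct.induction_on with
  | zero => rw [map_zero, map_zero, map_zero, map_zero]
  | tmul x g =>
    rw [bcQ_tmul, bcQ_tmul, incQ_tmul, bcQ_tmul]
    congr 1
    · exact Subtype.ext (h1 _)
    · exact Subtype.ext (h1 _)
  | add a b ha hb => rw [map_add, map_add, map_add, ha, hb, map_add]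

theorem incR_bcR (α : A →+* B) (β : B →+* D) (φ : A →+* D) (P : Subalgebra A (KK I A))
    (h : bc β (bc α P) = bc φ P) (hφ : ∀ a, β (α a) = φ a) (q : QR P) :
    incR h (bcR β (bc α P) (bcR α P q)) = bcR φ P q :=
  Subtype.ext (incQ_bcQ α β φ P h hφ q)

theorem incR_id (P : Subalgebra A (KK I A)) (h : bc (RingHom.id A) P = P) (q : QR P) :
    incR h (bcR (RingHom.id A) P q) = q := by
  have h1 : ∀ f : KK I A, kmap (RingHom.id A) f = f := fun f => by
    funext i
    ext m
    rw [kmap_apply, lmap_coeff]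
    rfl
  have h2 : ∀ q : QD P, incQ h (bcQ (RingHom.id A) P q) = q := by
    intro q
    induction q using TensorProduct.induction_on with
    | zero => rw [map_zero, map_zero]
    | tmul x g =>
      rw [bcQ_tmul, incQ_tmul]
      exact congrArg₂ (fun a b => a ⊗ₜ[A] b) (Subtype.ext (h1 _)) (Subtype.ext (h1 _))
    | add a b ha hb => rw [map_add, map_add, ha, hb]
  exact Subtype.ext (h2 q)

end

end PSU

theorem t_PSU (hKBC : Stmt_KBC) (hCNT : Stmt_CNT) (hGBC : Stmt_GBC) : Stmt_PSU := by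
  intro g E I A D _ _ _ _ _ _ P hP ι _ q φ σ hσ
  set C : A →+* MvPolynomial ι A := MvPolynomial.C with hC
  have hG : Good g (bc C P) := hGBC C g P hP
  have hφ : φ = (σ : MvPolynomial ι A →+* D).comp C := by
    ext a
    exact (hσ a).symm
  have h1 : bc (σ : MvPolynomial ι A →+* D) (bc C P) = bc φ P := by
    rw [hφ]
    exact (hKBC.2.1 C (σ : MvPolynomial ι A →+* D) P).symm
  have h2 := E.nat σ (bc C P) hG _ _ ((hCNT (σ : MvPolynomial ι A →+* D) (bc C P)).1
    (∑ i, (MvPolynomial.X i : MvPolynomial ι A) • bcR C P (q i)))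
  have h3 : bcR (σ : MvPolynomial ι A →+* D) (bc C P)
      (∑ i, (MvPolynomial.X i : MvPolynomial ι A) • bcR C P (q i)) =
      ∑ i, σ (MvPolynomial.X i) • bcR (σ : MvPolynomial ι A →+* D) (bc C P) (bcR C P (q i)) := by
    rw [map_sum]
    refine Finset.sum_congr rfl fun i _ => ?_
    rw [map_smulₛₗ]
    rfl
  have h4 : PSU.incR h1 (∑ i, σ (MvPolynomial.X i) •
      bcR (σ : MvPolynomial ι A →+* D) (bc C P) (bcR C P (q i))) =
      ∑ i, σ (MvPolynomial.X i) • bcR φ P (q i) := by
    rw [map_sum]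
    refine Finset.sum_congr rfl fun i _ => ?_
    rw [map_smul, PSU.incR_bcR C (σ : MvPolynomial ι A →+* D) φ P h1 hσ]
  rw [← h4, PSU.Phi_incR E h1, ← h3]
  exact h2

end Pool.Agent.MG.G0


end

section

/-!
# Roots of power series (module G0_ROO)
-/

namespace Pool.Agent.MG.G0

namespace ROO

variable {A : Type} [CommRing A]

/-- Only exponents divisible by `m`. -/
def Sup (m : ℕ) (f : PowerSeries A) : Prop := ∀ k : ℕ, ¬ m ∣ k → PowerSeries.coeff k f = 0

theorem Sup.one (m : ℕ) : Sup m (1 : PowerSeries A) := by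
  intro k hk
  rw [PowerSeries.coeff_one, if_neg]
  rintro rfl
  exact hk (dvd_zero m)

theorem Sup.mul {m : ℕ} {f g : PowerSeries A} (hf : Sup m f) (hg : Sup m g) : Sup m (f * g) := by
  intro k hk
  rw [PowerSeries.coeff_mul]
  refine Finset.sum_eq_zero fun p hp => ?_
  rw [Finset.HasAntidiagonal.mem_antidiagonal] at hp
  by_cases h1 : m ∣ p.1
  · have h2 : ¬ m ∣ p.2 := fun h => hk (hp ▸ dvd_add h1 h)
    rw [hg _ h2, mul_zero]
  · rw [hf _ h1, zero_mul]

theorem Sup.pow {m : ℕ} {f : PowerSeries A} (hf : Sup m f) (n : ℕ) : Sup m (f ^ n) := by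
  induction n with
  | zero => rw [pow_zero]; exact Sup.one m
  | succ n ih => rw [pow_succ]; exact ih.mul hf

theorem geom (n : ℕ) (r s : PowerSeries A) (hr : PowerSeries.constantCoeff r = 1)
    (hs : PowerSeries.constantCoeff s = 1) :
    PowerSeries.constantCoeff (∑ i ∈ Finset.range n, r ^ i * s ^ (n - 1 - i)) = (n : A) := by
  rw [map_sum]
  simp only [map_mul, map_pow, hr, hs, one_pow, mul_one, Finset.sum_const, Finset.card_range,
    nsmul_eq_mul]

theorem geom_eq (n : ℕ) (r s : PowerSeries A) :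
    (r - s) * ∑ i ∈ Finset.range n, r ^ i * s ^ (n - 1 - i) = r ^ n - s ^ n :=
  (Commute.all r s).mul_geom_sum₂ n

theorem uniq (n : ℕ) (hn : IsUnit (n : A)) (r s : PowerSeries A)
    (hr : PowerSeries.constantCoeff r = 1) (hs : PowerSeries.constantCoeff s = 1)
    (h : r ^ n = s ^ n) : r = s := by
  have h1 := geom_eq n r s
  rw [h, sub_self] at h1
  have h2 : IsUnit (∑ i ∈ Finset.range n, r ^ i * s ^ (n - 1 - i)) := by
    rw [PowerSeries.isUnit_iff_constantCoeff, geom n r s hr hs]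
    exact hn
  exact sub_eq_zero.1 (h2.mul_left_eq_zero.1 h1)

/-- One step of the approximation. -/
theorem step (n : ℕ) {v : A} (hv : v * (n : A) = 1) (c r : PowerSeries A)
    (hr : PowerSeries.constantCoeff r = 1) (k : ℕ)
    (h : ∀ j < k + 1, PowerSeries.coeff j (r ^ n) = PowerSeries.coeff j c) :
    ∃ r' : PowerSeries A, PowerSeries.constantCoeff r' = 1 ∧
      (∀ j < k + 2, PowerSeries.coeff j (r' ^ n) = PowerSeries.coeff j c) ∧
      (∀ j < k + 1, PowerSeries.coeff j r' = PowerSeries.coeff j r) ∧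
      ∀ m : ℕ, Sup m c → Sup m r → Sup m r' := by
  set a : A := v * (PowerSeries.coeff (k + 1) c - PowerSeries.coeff (k + 1) (r ^ n)) with ha
  set d : PowerSeries A := PowerSeries.X ^ (k + 1) * PowerSeries.C a with hd
  have hdj : ∀ j < k + 1, ∀ w : PowerSeries A, PowerSeries.coeff j (d * w) = 0 := by
    intro j hj w
    rw [hd, mul_assoc]
    exact PowerSeries.X_pow_dvd_iff.1 (dvd_mul_right _ _) j hj
  have hdk : ∀ w : PowerSeries A, PowerSeries.coeff (k + 1) (d * w) =
      a * PowerSeries.constantCoeff w := by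
    intro w
    rw [hd, mul_assoc]
    have := PowerSeries.coeff_X_pow_mul (PowerSeries.C a * w) (k + 1) 0
    rw [zero_add] at this
    rw [this, PowerSeries.coeff_zero_eq_constantCoeff_apply, map_mul,
      PowerSeries.constantCoeff_C]
  have hc1 : PowerSeries.constantCoeff (r + d) = 1 := by
    have := hdj 0 (by omega) 1
    rw [mul_one, PowerSeries.coeff_zero_eq_constantCoeff_apply] at this
    rw [map_add, hr, this, add_zero]
  have hpow : (r + d) ^ n = r ^ n + d * ∑ i ∈ Finset.range n, (r + d) ^ i * r ^ (n - 1 - i) := by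
    have := geom_eq n (r + d) r
    rw [add_sub_cancel_left] at this
    rw [this]
    ring
  refine ⟨r + d, hc1, ?_, ?_, ?_⟩
  · intro j hj
    rw [hpow, map_add]
    rcases Nat.lt_or_ge j (k + 1) with h1 | h1
    · rw [hdj j h1, add_zero, h j h1]
    · obtain rfl : j = k + 1 := by omega
      rw [hdk, geom n _ _ hc1 hr, ha]
      linear_combination (PowerSeries.coeff (k + 1) c - PowerSeries.coeff (k + 1) (r ^ n)) * hv
  · intro j hj
    have := hdj j hj 1
    rw [mul_one] at this
    rw [map_add, this, add_zero]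
  · intro m hc hm j hj
    rw [map_add, hm j hj, zero_add, hd]
    rw [PowerSeries.coeff_mul_C, PowerSeries.coeff_X_pow]
    split_ifs with h1
    · rw [one_mul, ha, ← h1, hc j hj, (hm.pow n) j hj, sub_zero, mul_zero]
    · rw [zero_mul]

theorem exists_root (n : ℕ) (hn : IsUnit (n : A)) (c : PowerSeries A)
    (hc : PowerSeries.constantCoeff c = 1) :
    ∃ r : PowerSeries A, PowerSeries.constantCoeff r = 1 ∧ r ^ n = c ∧
      ∀ m : ℕ, Sup m c → Sup m r := by
  obtain ⟨v, hv⟩ : ∃ v : A, v * (n : A) = 1 := hn.exists_left_inv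
  let T : ℕ → Type := fun k => {r : PowerSeries A // PowerSeries.constantCoeff r = 1 ∧
    (∀ j < k + 1, PowerSeries.coeff j (r ^ n) = PowerSeries.coeff j c) ∧
    ∀ m : ℕ, Sup m c → Sup m r}
  have h0 : PowerSeries.constantCoeff (1 : PowerSeries A) = 1 ∧
    (∀ j < 0 + 1, PowerSeries.coeff j ((1 : PowerSeries A) ^ n) = PowerSeries.coeff j c) ∧
    ∀ m : ℕ, Sup m c → Sup m (1 : PowerSeries A) := by
    refine ⟨map_one _, fun j hj => ?_, fun m _ => Sup.one m⟩
    obtain rfl : j = 0 := by omega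
    rw [one_pow, PowerSeries.coeff_zero_eq_constantCoeff_apply,
      PowerSeries.coeff_zero_eq_constantCoeff_apply, hc, map_one]
  have hs : ∀ k : ℕ, ∀ r : T k, ∃ r' : T (k + 1),
      ∀ j < k + 1, PowerSeries.coeff j r'.1 = PowerSeries.coeff j r.1 := by
    intro k r
    obtain ⟨r', h1, h2, h3, h4⟩ := step n hv c r.1 r.2.1 k r.2.2.1
    exact ⟨⟨r', h1, h2, fun m hm => h4 m hm (r.2.2.2 m hm)⟩, h3⟩
  choose nx hnx using hs
  let R : (k : ℕ) → T k := fun k => Nat.rec (motive := T) ⟨1, h0⟩ (fun k r => nx k r) k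
  have hR : ∀ k, R (k + 1) = nx k (R k) := fun k => rfl
  have hst : ∀ k j i, j ≤ k → PowerSeries.coeff j (R (k + i)).1 = PowerSeries.coeff j (R k).1 := by
    intro k j i hj
    induction i with
    | zero => rfl
    | succ i ih =>
      rw [← ih, ← add_assoc, hR, hnx _ _ j (by omega)]
  let r : PowerSeries A := PowerSeries.mk fun k => PowerSeries.coeff k (R k).1
  have hr : ∀ k j, j ≤ k → PowerSeries.coeff j r = PowerSeries.coeff j (R k).1 := by
    intro k j hj
    obtain ⟨i, rfl⟩ := Nat.exists_eq_add_of_le hj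
    rw [hst j j i le_rfl]
    exact PowerSeries.coeff_mk _ _
  have hrc : PowerSeries.constantCoeff r = 1 := by
    rw [← PowerSeries.coeff_zero_eq_constantCoeff_apply, hr 0 0 le_rfl,
      PowerSeries.coeff_zero_eq_constantCoeff_apply]
    exact (R 0).2.1
  refine ⟨r, hrc, ?_, ?_⟩
  · ext k
    rw [← (R k).2.2.1 k (by omega)]
    have h1 : PowerSeries.X ^ (k + 1) ∣ r - (R k).1 := by
      rw [PowerSeries.X_pow_dvd_iff]
      intro j hj
      rw [map_sub, hr k j (by omega), sub_self]
    have h2 : PowerSeries.X ^ (k + 1) ∣ r ^ n - (R k).1 ^ n :=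
      h1.trans (sub_dvd_pow_sub_pow _ _ n)
    have h3 := PowerSeries.X_pow_dvd_iff.1 h2 k (by omega)
    rw [map_sub] at h3
    exact sub_eq_zero.1 h3
  · intro m hm k hk
    rw [hr k k le_rfl]
    exact (R k).2.2.2 m hm k hk

end ROO

open _root_.Pool.Agent.MG.G0.ROO in
theorem t_ROO : Stmt_ROO := by
  intro A _ n hn c hc
  obtain ⟨r, h1, h2, h3⟩ := exists_root n hn c hc
  refine ⟨⟨r, ⟨h1, h2⟩, fun s hs => ?_⟩, fun s hs hsn m hm => ?_⟩
  · exact uniq n hn s r hs.1 h1 (hs.2.trans h2.symm)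
  · rw [uniq n hn s r hs h1 (hsn.trans h2.symm)]
    exact h3 m hm

end Pool.Agent.MG.G0


end

section

/-!
# PSI: translations of `z`
-/

open Polynomial

namespace Pool.Agent.MG.G0

namespace PSI_

variable {A B : Type} [CommRing A] [CommRing B] {d : ℕ}

/-! ## The coefficients of the powers of `(1 + y)^(-1/d)` -/

theorem one_add_X_unit : IsUnit (1 + PowerSeries.X : PowerSeries A) := by
  rw [PowerSeries.isUnit_iff_constantCoeff]
  simp

theorem exists_rt (hd : IsUnit (d : A)) :
    ∃ r : PowerSeries A, PowerSeries.constantCoeff r = 1 ∧ r ^ d * (1 + PowerSeries.X) = 1 := by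
  obtain ⟨c, hc⟩ := (one_add_X_unit (A := A)).exists_left_inv
  have hc1 : PowerSeries.constantCoeff c = 1 := by
    have := congrArg (PowerSeries.constantCoeff (R := A)) hc
    simpa using this
  obtain ⟨r, h1, h2, _⟩ := ROO.exists_root d hd c hc1
  exact ⟨r, h1, by rw [h2, hc]⟩

theorem rt_spec (hd : IsUnit (d : A)) :
    PowerSeries.constantCoeff (rt A d) = 1 ∧ rt A d ^ d * (1 + PowerSeries.X) = 1 := by
  have h := exists_rt hd
  rw [rt, dif_pos h]
  exact h.choose_spec

theorem rt_unit (hd : IsUnit (d : A)) : IsUnit (rt A d) := by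
  rw [PowerSeries.isUnit_iff_constantCoeff, (rt_spec hd).1]
  exact isUnit_one

theorem rt_uniq (hd : IsUnit (d : A)) (s : PowerSeries A) (h1 : PowerSeries.constantCoeff s = 1)
    (h2 : s ^ d * (1 + PowerSeries.X) = 1) : s = rt A d := by
  refine ROO.uniq d hd s _ h1 (rt_spec hd).1 ?_
  exact (one_add_X_unit (A := A)).mul_left_inj.1 (h2.trans (rt_spec hd).2.symm)

/-- The root as a unit. -/
noncomputable def ru (hd : IsUnit (d : A)) : (PowerSeries A)ˣ := (rt_unit hd).unit

theorem ru_val (hd : IsUnit (d : A)) : (ru hd : PowerSeries A) = rt A d := rfl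

theorem rtc_eq (hd : IsUnit (d : A)) (m : ℤ) (n : ℕ) : rtc A d m n =
    PowerSeries.coeff n ((ru hd ^ m : (PowerSeries A)ˣ) : PowerSeries A) := by
  rw [rtc, dif_pos (rt_unit hd)]
  rfl

theorem rtc_zero_right (hd : IsUnit (d : A)) (m : ℤ) : rtc A d m 0 = 1 := by
  have h1 : Units.map (PowerSeries.constantCoeff (R := A)).toMonoidHom (ru hd) = 1 := by
    ext
    exact (rt_spec hd).1
  have h2 : Units.map (PowerSeries.constantCoeff (R := A)).toMonoidHom (ru hd ^ m) = 1 := by
    rw [map_zpow, h1, one_zpow]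
  rw [rtc_eq hd, PowerSeries.coeff_zero_eq_constantCoeff_apply]
  exact congrArg Units.val h2

theorem rtc_add (hd : IsUnit (d : A)) (m m' : ℤ) (n : ℕ) : rtc A d (m + m') n =
    ∑ p ∈ Finset.HasAntidiagonal.antidiagonal n, rtc A d m p.1 * rtc A d m' p.2 := by
  simp only [rtc_eq hd]
  rw [zpow_add, Units.val_mul, PowerSeries.coeff_mul]

theorem rtc_zero_left (hd : IsUnit (d : A)) (n : ℕ) :
    rtc A d 0 n = if n = 0 then 1 else 0 := by
  rw [rtc_eq hd, zpow_zero, Units.val_one, PowerSeries.coeff_one]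

theorem rtc_neg (hd : IsUnit (d : A)) (n : ℕ) :
    rtc A d (-(d : ℤ)) n = PowerSeries.coeff n (1 + PowerSeries.X : PowerSeries A) := by
  rw [rtc_eq hd, zpow_neg, zpow_natCast]
  have h : (((ru hd ^ d)⁻¹ : (PowerSeries A)ˣ) : PowerSeries A) = 1 + PowerSeries.X :=
    Units.inv_eq_of_mul_eq_one_right (by
      rw [Units.val_pow_eq_pow_val, ru_val]
      exact (rt_spec hd).2)
  rw [h]

theorem anti_one {M : Type} [AddCommMonoid M] (F : ℕ × ℕ → M) :
    ∑ p ∈ Finset.HasAntidiagonal.antidiagonal 1, F p = F (0, 1) + F (1, 0) := by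
  have h : (Finset.HasAntidiagonal.antidiagonal 1 : Finset (ℕ × ℕ)) = {(0, 1), (1, 0)} := rfl
  rw [h, Finset.sum_pair (by simp)]

theorem rtc_one_add (hd : IsUnit (d : A)) (m m' : ℤ) :
    rtc A d (m + m') 1 = rtc A d m 1 + rtc A d m' 1 := by
  rw [rtc_add hd, anti_one, rtc_zero_right hd, rtc_zero_right hd, one_mul, mul_one, add_comm]

theorem rtc_one (hd : IsUnit (d : A)) (m : ℤ) : (d : A) * rtc A d m 1 = -(m : A) := by
  let f : ℤ →+ A := AddMonoidHom.mk' (fun m => rtc A d m 1) (rtc_one_add hd)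
  have h1 : ∀ m : ℤ, rtc A d m 1 = (m : A) * rtc A d 1 1 := by
    intro m
    have h2 : f (m • 1) = m • f 1 := map_zsmul f m 1
    rw [smul_eq_mul, mul_one, zsmul_eq_mul] at h2
    exact h2
  have h3 : rtc A d (-(d : ℤ)) 1 = 1 := by
    rw [rtc_neg hd]
    simp
  rw [h1] at h3
  push_cast at h3
  rw [h1]
  linear_combination (-(m : A)) * h3

theorem rtc_map (φ : A →+* B) (hd : IsUnit (d : A)) (m : ℤ) (n : ℕ) :
    φ (rtc A d m n) = rtc B d m n := by
  have hdB : IsUnit (d : B) := by
    have := hd.map φ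
    rwa [map_natCast] at this
  have h1 : PowerSeries.map φ (rt A d) = rt B d := by
    refine rt_uniq hdB _ ?_ ?_
    · rw [← PowerSeries.coeff_zero_eq_constantCoeff_apply, PowerSeries.coeff_map,
        PowerSeries.coeff_zero_eq_constantCoeff_apply, (rt_spec hd).1, map_one]
    · have := congrArg (PowerSeries.map φ) (rt_spec hd).2
      rwa [map_mul, map_pow, map_add, map_one, PowerSeries.map_X] at this
  have h2 : Units.map (PowerSeries.map φ).toMonoidHom (ru hd) = ru hdB := by
    ext1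
    exact h1
  have h3 : Units.map (PowerSeries.map φ).toMonoidHom (ru hd ^ m) = ru hdB ^ m := by
    rw [map_zpow, h2]
  rw [rtc_eq hd, rtc_eq hdB, ← h3]
  exact (PowerSeries.coeff_map φ n _).symm

/-! ## The divided powers of `d/dz` -/

theorem dz_zero (hd : IsUnit (d : A)) (f : LaurentSeries A) : dz A d 0 f = f := by
  ext m
  rw [dz_coeff, rtc_zero_right hd, one_mul, Nat.cast_zero, mul_zero, sub_zero]

theorem dz_low {f : LaurentSeries A} {a : ℤ} (hf : ∀ m < a, f.coeff m = 0) (i : ℕ) :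
    ∀ m < a + d * i, (dz A d i f).coeff m = 0 := by
  intro m hm
  rw [dz_coeff, hf _ (by omega), mul_zero]

theorem dz_mul_coeff {f h : LaurentSeries A} {a b : ℤ} (hf : ∀ m < a, f.coeff m = 0)
    (hh : ∀ m < b, h.coeff m = 0) {i j n : ℕ} (hij : i + j = n) (m : ℤ) :
    (dz A d i f * dz A d j h).coeff m = ∑ q ∈ Finset.Icc a (m - d * n - b),
      rtc A d q i * rtc A d (m - d * n - q) j * (f.coeff q * h.coeff (m - d * n - q)) := by
  rw [coeff_mul_Icc (dz_low hf i) (dz_low hh j)]
  have hn : (d : ℤ) * n = d * i + d * j := by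
    rw [← hij]
    push_cast
    ring
  refine Finset.sum_nbij' (fun p => p - d * i) (fun q => q + d * i) ?_ ?_ ?_ ?_ ?_
  · intro p hp
    simp only [Finset.mem_Icc] at hp ⊢
    omega
  · intro p hp
    simp only [Finset.mem_Icc] at hp ⊢
    omega
  · intro p _
    ring
  · intro p _
    ring
  · intro p _
    rw [dz_coeff, dz_coeff]
    have e : m - d * n - (p - d * i) = m - p - d * j := by omega
    rw [e]
    ring

theorem dz_mul (hd : IsUnit (d : A)) (n : ℕ) (f h : LaurentSeries A) :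
    dz A d n (f * h) = ∑ p ∈ Finset.HasAntidiagonal.antidiagonal n, dz A d p.1 f * dz A d p.2 h := by
  obtain ⟨a, ha⟩ := exists_low f
  obtain ⟨b, hb⟩ := exists_low h
  ext m
  rw [dz_coeff, coeff_mul_Icc ha hb, HahnSeries.coeff_sum, Finset.mul_sum]
  have h1 : ∀ p ∈ Finset.HasAntidiagonal.antidiagonal n, (dz A d p.1 f * dz A d p.2 h).coeff m =
      ∑ q ∈ Finset.Icc (-(a : ℤ)) (m - d * n - -(b : ℤ)),
        rtc A d q p.1 * rtc A d (m - d * n - q) p.2 *
          (f.coeff q * h.coeff (m - d * n - q)) := fun p hp =>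
    dz_mul_coeff ha hb (Finset.HasAntidiagonal.mem_antidiagonal.1 hp) m
  rw [Finset.sum_congr rfl h1, Finset.sum_comm]
  refine Finset.sum_congr rfl fun q _ => ?_
  rw [← Finset.sum_mul, ← rtc_add hd]
  congr 2
  ring

theorem dz_single (n : ℕ) (m : ℤ) : dz A d n (HahnSeries.single m 1) =
    HahnSeries.single (m + d * n) (rtc A d m n) := by
  ext l
  rw [dz_coeff, HahnSeries.coeff_single, HahnSeries.coeff_single]
  by_cases hl : l = m + d * n
  · subst hl
    rw [if_pos (by ring), if_pos rfl, mul_one, add_sub_cancel_right]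
  · rw [if_neg (by omega), if_neg hl, mul_zero]

theorem dz_one (hd : IsUnit (d : A)) (n : ℕ) :
    dz A d n (1 : LaurentSeries A) = if n = 0 then 1 else 0 := by
  have h : (1 : LaurentSeries A) = HahnSeries.single 0 1 := rfl
  rw [h, dz_single, rtc_zero_left hd]
  split_ifs with h0
  · rw [h0, Nat.cast_zero, mul_zero, add_zero]
  · rw [map_zero]

theorem dz_zz (hd : IsUnit (d : A)) (n : ℕ) : dz A d n (zz A d) =
    if n = 0 then zz A d else if n = 1 then 1 else 0 := by
  rw [zz, dz_single, rtc_neg hd]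
  split_ifs with h0 h1
  · subst h0
    simp
  · subst h1
    rw [Nat.cast_one, mul_one, neg_add_cancel]
    simp
  · have : PowerSeries.coeff n (1 + PowerSeries.X : PowerSeries A) = 0 := by
      rw [map_add, PowerSeries.coeff_one, if_neg h0, PowerSeries.coeff_X, if_neg h1, add_zero]
    rw [this, map_zero]

theorem dz_one_mul (hd : IsUnit (d : A)) (f h : LaurentSeries A) :
    dz A d 1 (f * h) = f * dz A d 1 h + h * dz A d 1 f := by
  rw [dz_mul hd, anti_one, dz_zero hd, dz_zero hd, mul_comm (dz A d 1 f) h]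

theorem dz_pr0 (n : ℕ) (f : LaurentSeries A) :
    dz A d n (pr0 A d f) = pr0 A d (dz A d n f) := by
  ext m
  rw [dz_coeff, pr0_coeff, pr0_coeff, dz_coeff]
  have h : (d : ℤ) ∣ m - d * n ↔ (d : ℤ) ∣ m := by
    rw [dvd_sub_left (dvd_mul_right _ _)]
  simp only [h]
  split_ifs
  · rfl
  · rw [mul_zero]

theorem dz_zpol (hd : IsUnit (d : A)) (p : A[X]) :
    dz A d 1 (zpol A d p) = zpol A d (derivative p) := by
  induction p using Polynomial.induction_on' with
  | add p q hp hq => rw [map_add, map_add, hp, hq, derivative_add, map_add]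
  | monomial n a =>
    have h : ∀ n : ℕ, dz A d 1 (zz A d ^ (n + 1)) = ((n + 1 : ℕ) : LaurentSeries A) * zz A d ^ n := by
      intro n
      induction n with
      | zero =>
        rw [zero_add, pow_one, dz_zz hd, if_neg one_ne_zero, if_pos rfl]
        simp
      | succ n ih =>
        rw [pow_succ, dz_one_mul hd, ih, dz_zz hd, if_neg one_ne_zero, if_pos rfl]
        push_cast
        ring
    rw [derivative_monomial, zpol, aeval_monomial, aeval_monomial, ← Algebra.smul_def,
      ← Algebra.smul_def, map_smul]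
    rcases n with _ | n
    · rw [pow_zero, dz_one hd, if_neg one_ne_zero, smul_zero, Nat.cast_zero, mul_zero, zero_smul]
    · rw [h, Nat.add_sub_cancel, mul_smul]
      congr 1
      rw [Algebra.smul_def, map_natCast]

theorem lmap_dz (φ : A →+* B) (hd : IsUnit (d : A)) (n : ℕ) (f : LaurentSeries A) :
    lmap φ (dz A d n f) = dz B d n (lmap φ f) := by
  ext m
  rw [lmap_coeff, dz_coeff, dz_coeff, lmap_coeff, map_mul, rtc_map φ hd]

theorem dz_ld (hd : IsUnit (d : A)) (f : LaurentSeries A) : (d : A) • dz A d 1 f =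
    -(HahnSeries.single ((d : ℤ) + 1) (1 : A) * ld f) := by
  ext m
  rw [HahnSeries.coeff_smul, dz_coeff, HahnSeries.coeff_neg, smul_eq_mul, ← mul_assoc,
    rtc_one hd]
  have h : m = (m - d - 1) + (d + 1) := by ring
  have h2 : (HahnSeries.single ((d : ℤ) + 1) (1 : A) * ld f).coeff m =
      (ld f).coeff (m - d - 1) := by
    rw [mul_comm]
    nth_rewrite 1 [h]
    rw [HahnSeries.coeff_mul_single_add, mul_one]
  rw [h2, ld_coeff, sub_add_cancel, Nat.cast_one, mul_one, neg_mul]

/-! ## The Taylor homomorphism -/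

/-- The Taylor expansion. -/
noncomputable def T (d : ℕ) (f : LaurentSeries A) : PowerSeries (LaurentSeries A) :=
  PowerSeries.mk fun n => dz A d n f

theorem T_mul (hd : IsUnit (d : A)) (f h : LaurentSeries A) : T d (f * h) = T d f * T d h := by
  ext1 n
  rw [T, PowerSeries.coeff_mk, PowerSeries.coeff_mul, dz_mul hd]
  refine Finset.sum_congr rfl fun p _ => ?_
  rw [T, T, PowerSeries.coeff_mk, PowerSeries.coeff_mk]

theorem T_one (hd : IsUnit (d : A)) : T d (1 : LaurentSeries A) = 1 := by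
  ext1 n
  rw [T, PowerSeries.coeff_mk, PowerSeries.coeff_one, dz_one hd]

theorem T_pow (hd : IsUnit (d : A)) (f : LaurentSeries A) (n : ℕ) : T d (f ^ n) = T d f ^ n := by
  induction n with
  | zero => rw [pow_zero, pow_zero, T_one hd]
  | succ n ih => rw [pow_succ, pow_succ, T_mul hd, ih]

theorem T_zero : T d (0 : LaurentSeries A) = 0 := by
  ext1 n
  rw [T, PowerSeries.coeff_mk, map_zero, map_zero]

theorem dz_nilpotent (hd : IsUnit (d : A)) {a : LaurentSeries A} (ha : IsNilpotent a) (n : ℕ) :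
    IsNilpotent (dz A d n a) := by
  rw [nilpotent_iff_mem_prime]
  intro J hJ
  obtain ⟨N, hN⟩ := ha
  have h1 : T d a ^ N = 0 := by rw [← T_pow hd, hN, T_zero]
  have h2 : IsNilpotent (PowerSeries.map (Ideal.Quotient.mk J) (T d a)) :=
    ⟨N, by rw [← map_pow, h1, map_zero]⟩
  have h3 := h2.eq_zero
  have h4 := congrArg (PowerSeries.coeff n) h3
  rw [PowerSeries.coeff_map, map_zero, T, PowerSeries.coeff_mk] at h4
  exact Ideal.Quotient.eq_zero_iff_mem.1 h4

/-! ## Translations -/

theorem psi_ext {a : LaurentSeries A} (ha : IsNilpotent a) (M : ℕ) (hM : nilpotencyClass a ≤ M)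
    (f : LaurentSeries A) : psi d a f = ∑ n ∈ Finset.range M, a ^ n * dz A d n f := by
  rw [psi_apply]
  refine Finset.sum_subset (Finset.range_mono hM) fun n _ hn => ?_
  have h1 : nilpotencyClass a ≤ n := by
    by_contra h
    exact hn (Finset.mem_range.2 (by omega))
  rw [pow_eq_zero_of_le h1 (pow_nilpotencyClass ha), zero_mul]

theorem psi_mul (hd : IsUnit (d : A)) {a : LaurentSeries A} (ha : IsNilpotent a)
    (f h : LaurentSeries A) : psi d a (f * h) = psi d a f * psi d a h := by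
  classical
  set N := nilpotencyClass a with hN
  have haN : a ^ N = 0 := pow_nilpotencyClass ha
  rw [psi_ext ha (2 * N) (by omega), psi_ext ha N le_rfl, psi_ext ha N le_rfl,
    Finset.sum_mul_sum, ← Finset.sum_product']
  let g : ℕ × ℕ → LaurentSeries A := fun p => (a ^ p.1 * dz A d p.1 f) * (a ^ p.2 * dz A d p.2 h)
  change _ = ∑ p ∈ Finset.range N ×ˢ Finset.range N, g p
  rw [← Finset.sum_fiberwise_of_maps_to (s := Finset.range N ×ˢ Finset.range N)
    (t := Finset.range (2 * N)) (g := fun p => p.1 + p.2)]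
  · refine Finset.sum_congr rfl fun n _ => ?_
    rw [dz_mul hd, Finset.mul_sum]
    have h1 : ∀ p ∈ Finset.HasAntidiagonal.antidiagonal n, a ^ n * (dz A d p.1 f * dz A d p.2 h) = g p := by
      intro p hp
      rw [← Finset.HasAntidiagonal.mem_antidiagonal.1 hp, pow_add]
      change _ = (a ^ p.1 * dz A d p.1 f) * (a ^ p.2 * dz A d p.2 h)
      ring
    rw [Finset.sum_congr rfl h1]
    symm
    refine Finset.sum_subset ?_ ?_
    · intro p hp
      rw [Finset.mem_filter] at hp
      exact Finset.HasAntidiagonal.mem_antidiagonal.2 hp.2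
    · intro p hp hp2
      rw [Finset.mem_filter, Finset.mem_product, Finset.mem_range, Finset.mem_range] at hp2
      have hp3 := Finset.HasAntidiagonal.mem_antidiagonal.1 hp
      change (a ^ p.1 * dz A d p.1 f) * (a ^ p.2 * dz A d p.2 h) = 0
      by_cases hp4 : p.1 < N
      · have hp5 : N ≤ p.2 := by
          by_contra hcon
          exact hp2 ⟨⟨hp4, by omega⟩, hp3⟩
        rw [pow_eq_zero_of_le hp5 haN, zero_mul, mul_zero]
      · rw [pow_eq_zero_of_le (not_lt.1 hp4) haN, zero_mul, zero_mul]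
  · intro p hp
    rw [Finset.mem_product, Finset.mem_range, Finset.mem_range] at hp
    rw [Finset.mem_range]
    omega

theorem psi_one (hd : IsUnit (d : A)) {a : LaurentSeries A} (ha : IsNilpotent a) :
    psi d a (1 : LaurentSeries A) = 1 := by
  rw [psi_ext ha (nilpotencyClass a + 1) (by omega), Finset.sum_range_succ',
    Finset.sum_eq_zero, zero_add, pow_zero, one_mul, dz_one hd, if_pos rfl]
  intro n _
  rw [dz_one hd, if_neg (Nat.succ_ne_zero n), mul_zero]

theorem psi_zz (hd : IsUnit (d : A)) {a : LaurentSeries A} (ha : IsNilpotent a) :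
    psi d a (zz A d) = zz A d + a := by
  rw [psi_ext ha (nilpotencyClass a + 1 + 1) (by omega), Finset.sum_range_succ',
    Finset.sum_range_succ', Finset.sum_eq_zero, zero_add, pow_zero, one_mul, zero_add, pow_one,
    dz_zz hd, dz_zz hd, if_pos rfl, if_neg one_ne_zero, if_pos rfl, mul_one, add_comm]
  intro n _
  rw [dz_zz hd, if_neg (by omega), if_neg (by omega), mul_zero]

/-- The difference quotient. -/
noncomputable def dl (d : ℕ) (a f : LaurentSeries A) : LaurentSeries A :=
  ∑ n ∈ Finset.range (nilpotencyClass a), a ^ n * dz A d (n + 1) f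

theorem psi_eq (hd : IsUnit (d : A)) {a : LaurentSeries A} (ha : IsNilpotent a)
    (f : LaurentSeries A) : psi d a f = f + a * dl d a f := by
  rw [psi_ext ha (nilpotencyClass a + 1) (by omega), Finset.sum_range_succ', dl, Finset.mul_sum,
    pow_zero, one_mul, dz_zero hd, add_comm]
  congr 1
  refine Finset.sum_congr rfl fun n _ => ?_
  rw [pow_succ]
  ring

theorem dl_nilpotent (hd : IsUnit (d : A)) {a : LaurentSeries A} (ha : IsNilpotent a) :
    IsNilpotent (dl d a a) := by
  rw [← mem_nilradical]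
  exact Ideal.sum_mem _ fun n _ => Ideal.mul_mem_left _ _
    (mem_nilradical.2 (dz_nilpotent hd ha (n + 1)))

theorem psi_pow_self (hd : IsUnit (d : A)) {a : LaurentSeries A} (ha : IsNilpotent a) (i : ℕ) :
    psi d a (a ^ i) = a ^ i * (1 + dl d a a) ^ i := by
  induction i with
  | zero => rw [pow_zero, pow_zero, psi_one hd ha, mul_one]
  | succ i ih =>
    rw [pow_succ, psi_mul hd ha, ih, psi_eq hd ha a]
    ring

theorem psi_surjective (hd : IsUnit (d : A)) {a : LaurentSeries A} (ha : IsNilpotent a) :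
    Function.Surjective (psi d a) := by
  obtain ⟨v, hv⟩ := ((dl_nilpotent hd ha).isUnit_one_add).exists_left_inv
  set N := nilpotencyClass a with hN
  have haN : a ^ N = 0 := pow_nilpotencyClass ha
  have key : ∀ k ≤ N, ∀ x : LaurentSeries A, ∃ y, psi d a y = a ^ (N - k) * x := by
    intro k
    induction k with
    | zero =>
      intro _ x
      exact ⟨0, by rw [map_zero, Nat.sub_zero, haN, zero_mul]⟩
    | succ k ih =>
      intro hk x
      set i := N - (k + 1) with hi
      have hi2 : N - k = i + 1 := by omega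
      obtain ⟨y', hy'⟩ := ih (by omega) ((1 + dl d a a) ^ i * dl d a (v ^ i * x))
      refine ⟨a ^ i * (v ^ i * x) - y', ?_⟩
      rw [map_sub, hy', psi_mul hd ha, psi_pow_self hd ha, psi_eq hd ha (v ^ i * x), hi2]
      have hvi : (1 + dl d a a) ^ i * v ^ i = 1 := by
        rw [← mul_pow, mul_comm (1 + dl d a a) v, hv, one_pow]
      have e : a ^ i * (1 + dl d a a) ^ i * (v ^ i * x + a * dl d a (v ^ i * x)) -
          a ^ (i + 1) * ((1 + dl d a a) ^ i * dl d a (v ^ i * x)) =
          a ^ i * (((1 + dl d a a) ^ i * v ^ i) * x) := by ring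
      rw [e, hvi, one_mul]
  intro x
  obtain ⟨y, hy⟩ := key N le_rfl x
  exact ⟨y, by rw [hy, Nat.sub_self, pow_zero, one_mul]⟩

theorem psi_injective (hd : IsUnit (d : A)) {a : LaurentSeries A} (ha : IsNilpotent a) :
    Function.Injective (psi d a) := by
  have hu := (dl_nilpotent hd ha).isUnit_one_add
  rw [injective_iff_map_eq_zero]
  intro x hx
  have key : ∀ i : ℕ, a ^ i ∣ x := by
    intro i
    induction i with
    | zero => rw [pow_zero]; exact one_dvd x
    | succ i ih =>
      obtain ⟨y, hy⟩ := ih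
      have h1 : psi d a (a ^ i * y) = 0 := by rw [← hy, hx]
      rw [psi_mul hd ha, psi_pow_self hd ha, psi_eq hd ha y] at h1
      have h2 : (1 + dl d a a) ^ i * (a ^ i * (y + a * dl d a y)) = 0 := by
        rw [← h1]
        ring
      have h3 : a ^ i * (y + a * dl d a y) = 0 := (hu.pow i).mul_right_eq_zero.1 h2
      refine ⟨-dl d a y, ?_⟩
      rw [hy, pow_succ]
      linear_combination h3
  have h4 := key (nilpotencyClass a)
  rw [pow_nilpotencyClass ha] at h4
  exact zero_dvd_iff.1 h4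

theorem mem_iff_lmap (J : Ideal A) (f : LaurentSeries A) :
    (∀ m, f.coeff m ∈ J) ↔ lmap (Ideal.Quotient.mk J) f = 0 := by
  constructor
  · intro h
    ext m
    rw [lmap_coeff, HahnSeries.coeff_zero]
    exact Ideal.Quotient.eq_zero_iff_mem.2 (h m)
  · intro h m
    have := congrArg (fun x : LaurentSeries (A ⧸ J) => x.coeff m) h
    exact Ideal.Quotient.eq_zero_iff_mem.1 this

theorem pr0_mul {a : LaurentSeries A} (ha : pr0 A d a = a) (f : LaurentSeries A) :
    pr0 A d (a * f) = a * pr0 A d f := by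
  have h := ZL.pr_mul_of (d := d) (i := 0) (f := a) (by rw [ZL.pr_zero_eq, ha]) 0 f
  rw [sub_zero, ZL.pr_zero_eq, ZL.pr_zero_eq] at h
  exact h

theorem pr0_pow_mul {a : LaurentSeries A} (ha : pr0 A d a = a) (n : ℕ) (f : LaurentSeries A) :
    pr0 A d (a ^ n * f) = a ^ n * pr0 A d f := by
  induction n with
  | zero => rw [pow_zero, one_mul, one_mul]
  | succ n ih => rw [pow_succ', mul_assoc, pr0_mul ha, ih, mul_assoc]

theorem psi_pr0 {a : LaurentSeries A} (h : pr0 A d a = a) (f : LaurentSeries A) :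
    pr0 A d (psi d a f) = psi d a (pr0 A d f) := by
  rw [psi_apply, psi_apply, map_sum]
  refine Finset.sum_congr rfl fun n _ => ?_
  rw [pr0_pow_mul h, dz_pr0]

theorem lmap_psi (φ : A →+* B) (hd : IsUnit (d : A)) {a : LaurentSeries A} (ha : IsNilpotent a)
    (f : LaurentSeries A) : lmap φ (psi d a f) = psi d (lmap φ a) (lmap φ f) := by
  have ha' : IsNilpotent (lmap φ a) := ha.map (lmap φ)
  rw [psi_ext ha (nilpotencyClass a + nilpotencyClass (lmap φ a)) (by omega),
    psi_ext ha' (nilpotencyClass a + nilpotencyClass (lmap φ a)) (by omega), map_sum]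
  refine Finset.sum_congr rfl fun n _ => ?_
  rw [map_mul, map_pow, lmap_dz φ hd]

theorem psi_sq (hd : IsUnit (d : A)) {a : LaurentSeries A} (ha : IsNilpotent a) (h : a * a = 0)
    (f : LaurentSeries A) : psi d a f = f + a * dz A d 1 f := by
  rw [psi_ext ha (nilpotencyClass a + 1 + 1) (by omega), Finset.sum_range_succ',
    Finset.sum_range_succ', Finset.sum_eq_zero, zero_add, pow_zero, one_mul, zero_add, pow_one,
    dz_zero hd, add_comm]
  intro n _
  rw [pow_succ, pow_succ, mul_assoc (a ^ n), h, mul_zero, zero_mul]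

end PSI_

open _root_.Pool.Agent.MG.G0.PSI_ in
theorem t_PSI : Stmt_PSI := by
  intro A _ d _ hd
  refine ⟨dz_ld hd, dz_one_mul hd, dz_pr0 1, dz_zpol hd, fun a ha => ⟨psi_mul hd ha,
    psi_one hd ha, psi_zz hd ha, ⟨psi_injective hd ha, psi_surjective hd ha⟩, ?_,
    fun h f => psi_pr0 h f, fun φ f => lmap_psi φ hd ha f, fun h f => psi_sq hd ha h f⟩⟩
  intro J hJ f
  rw [mem_iff_lmap, psi_eq hd ha, add_sub_cancel_left, map_mul, (mem_iff_lmap J a).1 hJ, zero_mul]

end Pool.Agent.MG.G0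


end

section

/-!
# TGA: vanishing at the diagonal (PAPER_TG.md)
-/

open TensorProduct

namespace Pool.Agent.MG.G0

namespace TGA

section

variable {B S T : Type} [CommRing B] [CommRing S] [CommRing T] [Algebra B S] [Algebra B T]

theorem psl_inj : Function.Injective (psl S) := HahnSeries.ofPowerSeries_injective

theorem psl_alg (b : B) : psl S (algebraMap B (PowerSeries S) b) =
    algebraMap S (LaurentSeries S) (algebraMap B S b) := by
  rw [PowerSeries.algebraMap_apply]
  exact SUB.psl_C _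

/-- Power series as Laurent series. -/
noncomputable def pslB (B S : Type) [CommRing B] [CommRing S] [Algebra B S] :
    PowerSeries S →ₐ[B] LaurentSeries S :=
  { toRingHom := psl S
    commutes' := fun b => psl_alg b }

theorem pslB_apply (f : PowerSeries S) : pslB B S f = psl S f := rfl

/-- The constants. -/
noncomputable def cst (B S : Type) [CommRing B] [CommRing S] [Algebra B S] :
    S →ₐ[B] LaurentSeries S :=
  { toRingHom := HahnSeries.C
    commutes' := fun _ => rfl }

theorem cst_apply (f : S) : cst B S f = HahnSeries.C f := rfl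

theorem C_eq (f : S) : (HahnSeries.C f : LaurentSeries S) = psl S (PowerSeries.C f) :=
  (SUB.psl_C f).symm

theorem unit_X : IsUnit (psl S PowerSeries.X) := by
  rw [SUB.psl_X]
  exact IsUnit.of_mul_eq_one (SUB.ta S (-1)) (by rw [SUB.ta_mul]; exact SUB.ta_zero)

/-- Substitution in a homomorphism to power series. -/
theorem exists_sub (Φ : LaurentSeries T →ₐ[T] LaurentSeries T)
    (h4 : ∀ f : PowerSeries T, ∃ h : PowerSeries T, Φ (psl T f) = psl T h ∧
      PowerSeries.constantCoeff h = PowerSeries.constantCoeff f)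
    (k : S →ₐ[B] PowerSeries T) :
    ∃ k' : S →ₐ[B] PowerSeries T, (∀ f, psl T (k' f) = Φ (psl T (k f))) ∧
      ∀ f, PowerSeries.constantCoeff (k' f) = PowerSeries.constantCoeff (k f) := by
  choose K hK hK0 using h4
  refine ⟨{ toFun := fun f => K (k f)
            map_one' := psl_inj ?_
            map_mul' := fun a b => psl_inj ?_
            map_zero' := psl_inj ?_
            map_add' := fun a b => psl_inj ?_
            commutes' := fun b => psl_inj ?_ }, fun f => (hK (k f)).symm, fun f => hK0 (k f)⟩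
  · rw [← hK, map_one, map_one, map_one]
  · rw [← hK, map_mul k, map_mul (psl T) (K (k a)), ← hK, ← hK, map_mul (psl T), map_mul Φ]
  · rw [← hK, map_zero, map_zero, map_zero]
  · rw [← hK, map_add k, map_add (psl T) (K (k a)), ← hK, ← hK, map_add (psl T), map_add Φ]
  · rw [← hK, AlgHom.commutes, psl_alg, AlgHom.commutes]

/-- A homomorphism of algebras over `T` is one over `B`. -/
noncomputable def resB (Φ : LaurentSeries T →ₐ[T] LaurentSeries T) :
    LaurentSeries T →ₐ[B] LaurentSeries T :=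
  { toRingHom := (Φ : LaurentSeries T →+* LaurentSeries T)
    commutes' := fun b => Φ.commutes (algebraMap B T b) }

theorem resB_apply (Φ : LaurentSeries T →ₐ[T] LaurentSeries T) (f : LaurentSeries T) :
    resB (B := B) Φ f = Φ f := rfl

/-- The leading coefficients of a substitution. -/
theorem lead_pow {u : PowerSeries T} {Φ : LaurentSeries T →ₐ[T] LaurentSeries T} {g : T}
    (h : IsSub u Φ) (hu : PowerSeries.constantCoeff u = 0) (hg : PowerSeries.coeff 1 u = g)
    (c : ℤ → T) (hc : ∀ n, ∀ f ∈ Po T (-n), (Φ f).coeff n = c n * f.coeff n) (M : ℕ) (n : ℤ)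
    (hn : n ≤ M) : c n * g ^ (M - n).toNat = g ^ M := by
  have hm : ∀ n : ℤ, (HahnSeries.single n 1 : LaurentSeries T) ∈ Po T (-n) := fun n m hm =>
    HahnSeries.coeff_single_of_ne (by omega)
  have hu1 : ∀ m < 1, (psl T u).coeff m = 0 := by
    intro m hm
    rcases lt_or_ge m 0 with h0 | h0
    · exact SUB.psl_mem u m (by omega)
    · obtain rfl : m = ((0 : ℕ) : ℤ) := by omega
      change (HahnSeries.ofPowerSeries ℤ T u).coeff ((0 : ℕ) : ℤ) = 0
      rw [HahnSeries.ofPowerSeries_apply_coeff, PowerSeries.coeff_zero_eq_constantCoeff_apply, hu]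
  have hu2 : (psl T u).coeff 1 = g := by
    rw [← hg]
    exact HahnSeries.ofPowerSeries_apply_coeff u 1
  have hs : ∀ n : ℤ, c (n + 1) = c n * g := by
    intro n
    have h1 := hc (n + 1) _ (hm (n + 1))
    have h2 := hc n _ (hm n)
    rw [HahnSeries.coeff_single_same, mul_one] at h1 h2
    have e : (HahnSeries.single (n + 1) 1 : LaurentSeries T) =
        HahnSeries.single n 1 * HahnSeries.single 1 1 := by
      rw [HahnSeries.single_mul_single, mul_one]
    rw [← h1, e, map_mul, h.tau, mul_lead (a := n) (b := 1) ?_ hu1, h2, hu2]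
    intro m hm'
    exact h.pol (-n) _ (hm n) m (by omega)
  have h0 : c 0 = 1 := by
    have h1 := hc 0 1 (by
      rw [neg_zero]
      exact fun m hm' => by
        rw [HahnSeries.coeff_one, if_neg (by omega)])
    rw [map_one, HahnSeries.coeff_one, if_pos rfl, mul_one] at h1
    exact h1.symm
  have hk : ∀ (k : ℕ) (n : ℤ), c (n + k) = c n * g ^ k := by
    intro k
    induction k with
    | zero =>
      intro n
      rw [Nat.cast_zero, add_zero, pow_zero, mul_one]
    | succ k ih =>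
      intro n
      have e : n + ((k + 1 : ℕ) : ℤ) = n + k + 1 := by push_cast; ring
      rw [e, hs, ih, pow_succ, mul_assoc]
  have h1 := hk (M - n).toNat n
  have h2 := hk M 0
  have e : n + ((M - n).toNat : ℤ) = 0 + (M : ℤ) := by omega
  rw [← h1, e, h2, h0, one_mul]

end

end TGA

theorem t_TGA (hTFP : Stmt_TFP) (hSUB : Stmt_SUB) : Stmt_TGA := by
  intro B _ S _ _ T _ _ G a b F ha hb
  -- the formal points
  have hex : ∀ j, ∃ h : S j →ₐ[B] PowerSeries (S j),
      (∀ f, PowerSeries.constantCoeff (h f) = f) ∧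
        h (G.x j) = PowerSeries.C (G.x j) + PowerSeries.X := fun j => by
    obtain ⟨h, h1, h2, -⟩ := (hTFP G.inv (G.ch j) (A := S j)).2.1 (AlgHom.id B (S j))
      PowerSeries.X PowerSeries.constantCoeff_X
    exact ⟨h, h1, h2⟩
  choose H hH0 hHx using hex
  obtain ⟨HT, hT0, hTx, -⟩ := (hTFP G.inv G.chT (A := T)).2.1 (AlgHom.id B T)
    PowerSeries.X PowerSeries.constantCoeff_X
  have hT0' : ∀ f, PowerSeries.constantCoeff (HT f) = f := hT0
  have hTx' : HT (G.i true (G.x true)) =
      PowerSeries.C (G.i true (G.x true)) + PowerSeries.X := hTx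
  -- the series `u`
  obtain ⟨u, hu⟩ : ∃ u, u = HT (G.i false (G.x false)) - PowerSeries.C (G.i false (G.x false)) :=
    ⟨_, rfl⟩
  have hu0 : PowerSeries.constantCoeff u = 0 := by
    rw [hu, map_sub, hT0', PowerSeries.constantCoeff_C, sub_self]
  have hu1 : PowerSeries.coeff 1 u = G.g := by
    have h1 := (hTFP G.inv G.chT (A := T)).2.2 HT (G.i false (G.x false))
    rw [hT0', hTx', map_add, PowerSeries.coeff_one_X] at h1
    rw [hu, map_sub, h1]
    have h2 : ∀ t : T, PowerSeries.coeff 1 (PowerSeries.C t) = 0 := fun t => by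
      rw [PowerSeries.coeff_C, if_neg one_ne_zero]
    rw [h2, h2, zero_add, mul_one, sub_zero]
    rfl
  obtain ⟨Φ', hΦ'⟩ := hSUB.1 u hu0 (by rw [hu1]; exact G.gu)
  obtain ⟨Φ, hΦe⟩ : ∃ Φ : LaurentSeries T →ₐ[T] LaurentSeries T,
    Φ = (Φ' : LaurentSeries T →ₐ[T] LaurentSeries T) := ⟨_, rfl⟩
  have hΦ : IsSub u Φ := by rw [hΦe]; exact hΦ'
  obtain ⟨-, -, h3, h4, -⟩ := hSUB.2.1 u hu0 (by rw [hu1]; exact G.gu) Φ hΦ
  choose c0 hc0 hc0' using h3
  obtain ⟨c, hce⟩ : ∃ c : ℤ → T, ∀ n, c n = c0 (-n) := ⟨fun n => c0 (-n), fun _ => rfl⟩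
  have hcu : ∀ n, IsUnit (c n) := fun n => by rw [hce]; exact hc0 _
  have hc : ∀ n, ∀ f ∈ Po T (-n), (Φ f).coeff n = c n * f.coeff n := by
    intro n f hf
    have h1 := hc0' (-n) f hf
    rw [neg_neg] at h1
    rw [hce, h1]
  -- the values
  let PP : ∀ j, S j →ₐ[B] LaurentSeries (S j) := fun j => (TGA.pslB B (S j)).comp (H j)
  let QQ : ∀ j, S j →ₐ[B] LaurentSeries (S j) := fun j => TGA.cst B (S j)
  let E : ∀ j, LaurentSeries (S j) := fun j => F.e j (LaurentSeries (S j)) (PP j) (QQ j)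
  have hdis : ∀ j, DisjP (PP j) (QQ j) := by
    intro j
    refine Ideal.eq_top_of_isUnit_mem _ (Ideal.subset_span ⟨G.x j, rfl⟩) ?_
    change IsUnit (psl (S j) (H j (G.x j)) - HahnSeries.C (G.x j))
    rw [hHx, TGA.C_eq, ← map_sub, add_sub_cancel_left]
    exact TGA.unit_X
  let PT : T →ₐ[B] LaurentSeries T := (TGA.pslB B T).comp HT
  let QT : T →ₐ[B] LaurentSeries T := TGA.cst B T
  have hun : ∀ j, IsUnit (PT (G.i j (G.x j)) - QT (G.i j (G.x j))) := by
    intro j
    change IsUnit (psl T (HT (G.i j (G.x j))) - HahnSeries.C (G.i j (G.x j)))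
    rw [TGA.C_eq, ← map_sub]
    cases j with
    | true =>
      rw [hTx', add_sub_cancel_left]
      exact TGA.unit_X
    | false =>
      rw [← hu, ← hΦ.tau]
      have h1 : (HahnSeries.single 1 1 : LaurentSeries T) = psl T PowerSeries.X :=
        SUB.psl_X.symm
      rw [h1]
      exact TGA.unit_X.map Φ
  -- the first chart
  have e1 : (PowerSeries.mapAlgHom (G.i true)).comp (H true) = HT.comp (G.i true) := by
    refine (hTFP G.inv (G.ch true) (A := T)).1 _ _ (fun f => ?_) ?_
    · change PowerSeries.constantCoeff (PowerSeries.map (G.i true : S true →+* T) (H true f)) =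
        PowerSeries.constantCoeff (HT (G.i true f))
      rw [hT0', ← PowerSeries.coeff_zero_eq_constantCoeff_apply, PowerSeries.coeff_map,
        PowerSeries.coeff_zero_eq_constantCoeff_apply, hH0]
      rfl
    · change PowerSeries.map (G.i true : S true →+* T) (H true (G.x true)) =
        HT (G.i true (G.x true))
      rw [hTx', hHx, map_add, PowerSeries.map_C, PowerSeries.map_X]
      rfl
  have f1 : (lmapB (G.i true)).comp (PP true) = PT.comp (G.i true) := by
    ext1 f
    change lmap (G.i true : S true →+* T) (psl (S true) (H true f)) = psl T (HT (G.i true f))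
    rw [SUB.lmap_psl]
    exact congrArg (psl T) (DFunLike.congr_fun e1 f)
  have f1' : (lmapB (G.i true)).comp (QQ true) = QT.comp (G.i true) := by
    ext1 f
    change lmap (G.i true : S true →+* T) (HahnSeries.C f) = HahnSeries.C (G.i true f)
    exact lmap_single _ 0 f
  have n1 := F.nat true (lmapB (G.i true)) (PP true) (QQ true) (hdis true)
  rw [f1, f1'] at n1
  -- the second chart
  obtain ⟨k, hk, hk0⟩ := TGA.exists_sub Φ h4 ((PowerSeries.mapAlgHom (G.i false)).comp (H false))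
  have e2 : k = HT.comp (G.i false) := by
    refine (hTFP G.inv (G.ch false) (A := T)).1 _ _ (fun f => ?_) (TGA.psl_inj ?_)
    · rw [hk0]
      change PowerSeries.constantCoeff (PowerSeries.map (G.i false : S false →+* T) (H false f)) =
        PowerSeries.constantCoeff (HT (G.i false f))
      rw [hT0', ← PowerSeries.coeff_zero_eq_constantCoeff_apply, PowerSeries.coeff_map,
        PowerSeries.coeff_zero_eq_constantCoeff_apply, hH0]
      rfl
    · rw [hk]
      change Φ (psl T (PowerSeries.map (G.i false : S false →+* T) (H false (G.x false)))) =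
        psl T (HT (G.i false (G.x false)))
      have h1 : HT (G.i false (G.x false)) = PowerSeries.C (G.i false (G.x false)) + u := by
        rw [hu, add_sub_cancel]
      rw [h1, hHx, map_add, PowerSeries.map_C, PowerSeries.map_X, map_add, map_add, map_add,
        SUB.psl_X, SUB.psl_C, SUB.psl_C, AlgHom.commutes]
      congr 1
      exact hΦ.tau
  have f2 : ((TGA.resB Φ).comp (lmapB (G.i false))).comp (PP false) = PT.comp (G.i false) := by
    ext1 f
    change Φ (lmap (G.i false : S false →+* T) (psl (S false) (H false f))) =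
      psl T (HT (G.i false f))
    rw [SUB.lmap_psl]
    have h1 := hk f
    rw [e2] at h1
    exact h1.symm
  have f2' : ((TGA.resB Φ).comp (lmapB (G.i false))).comp (QQ false) = QT.comp (G.i false) := by
    ext1 f
    change Φ (lmap (G.i false : S false →+* T) (HahnSeries.C f)) = HahnSeries.C (G.i false f)
    have h1 : lmap (G.i false : S false →+* T) (HahnSeries.C f) =
        algebraMap T (LaurentSeries T) (G.i false f) := lmap_single _ 0 f
    rw [h1, AlgHom.commutes]
    rfl
  have n2 := F.nat false ((TGA.resB Φ).comp (lmapB (G.i false))) (PP false) (QQ false) (hdis false)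
  rw [f2, f2'] at n2
  have rel := F.trans PT QT hun
  rw [n1, n2] at rel
  have rel' : Φ (lmap (G.i false : S false →+* T) (E false)) =
      psl T (HT G.g ^ a * PowerSeries.C G.g ^ b) *
        lmap (G.i true : S true →+* T) (E true) := by
    have h1 : psl T (HT G.g ^ a * PowerSeries.C G.g ^ b) = PT G.g ^ a * QT G.g ^ b := by
      have h2 : QT G.g = psl T (PowerSeries.C G.g) := TGA.C_eq _
      rw [map_mul, map_pow, map_pow, h2]
      rfl
    rw [h1]
    exact rel
  -- the coefficients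
  have step : ∀ n : ℤ, n < a + b → (∀ j, ∀ m < n, (E j).coeff m = 0) →
      ∀ j, (E j).coeff n = 0 := by
    intro n hn hlow
    have hl : ∀ j, ∀ m < n, (lmap (G.i j : S j →+* T) (E j)).coeff m = 0 := fun j m hm => by
      rw [lmap_coeff, hlow j m hm, map_zero]
    have h1 := congrArg (fun s : LaurentSeries T => s.coeff n) rel'
    change (Φ (lmap (G.i false : S false →+* T) (E false))).coeff n =
      (psl T (HT G.g ^ a * PowerSeries.C G.g ^ b) *
        lmap (G.i true : S true →+* T) (E true)).coeff n at h1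
    rw [hc n _ (fun m hm => hl false m (by omega))] at h1
    have h2 := mul_lead (f := psl T (HT G.g ^ a * PowerSeries.C G.g ^ b)) (a := 0) (b := n)
      (fun m hm => SUB.psl_mem _ m (by omega)) (hl true)
    rw [zero_add] at h2
    have h3' : (psl T (HT G.g ^ a * PowerSeries.C G.g ^ b)).coeff 0 = G.g ^ (a + b) := by
      have h4' : (psl T (HT G.g ^ a * PowerSeries.C G.g ^ b)).coeff ((0 : ℕ) : ℤ) =
          PowerSeries.coeff 0 (HT G.g ^ a * PowerSeries.C G.g ^ b) :=
        HahnSeries.ofPowerSeries_apply_coeff _ 0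
      have h5' : PowerSeries.constantCoeff (HT G.g ^ a * PowerSeries.C G.g ^ b) =
          G.g ^ (a + b) := by
        rw [map_mul, map_pow, map_pow, hT0', PowerSeries.constantCoeff_C, ← pow_add]
      rw [PowerSeries.coeff_zero_eq_constantCoeff_apply, h5'] at h4'
      exact h4'
    have h5 := TGA.lead_pow hΦ hu0 hu1 c hc (a + b) n (by push_cast; omega)
    rw [h2, h3', ← h5, mul_assoc, lmap_coeff, lmap_coeff] at h1
    have h6 := (hcu n).mul_left_cancel h1
    have h7 : tmp B (G.i false) ((1 : B) ⊗ₜ[B] (E false).coeff n) =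
        ((1 : B) ⊗ₜ[B] (G.ΔT (G.i false (G.x false)) ^ (((a + b : ℕ) : ℤ) - n).toNat)) *
          tmp B (G.i true) ((1 : B) ⊗ₜ[B] (E true).coeff n) := by
      change (1 : B) ⊗ₜ[B] (G.i false ((E false).coeff n)) =
        ((1 : B) ⊗ₜ[B] (G.ΔT (G.i false (G.x false)) ^ (((a + b : ℕ) : ℤ) - n).toNat)) *
          ((1 : B) ⊗ₜ[B] (G.i true ((E true).coeff n)))
      rw [Algebra.TensorProduct.tmul_mul_tmul, mul_one]
      exact congrArg (fun t : T => (1 : B) ⊗ₜ[B] t) h6
    have hz : ∀ (j : Bool) (s : S j), ((1 : B) ⊗ₜ[B] s : B ⊗[B] S j) = 0 → s = 0 := by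
      intro j s hs
      have h8 := congrArg (Algebra.TensorProduct.lid B (S j)) hs
      rw [Algebra.TensorProduct.lid_tmul, one_smul, map_zero] at h8
      exact h8
    have h9 := G.ns B (((a + b : ℕ) : ℤ) - n).toNat 1 _ _ (by push_cast; omega) isUnit_one h7
    have h10 : (E true).coeff n = 0 := hz true _ h9
    have h11 : (E false).coeff n = 0 := by
      apply hz false
      apply G.inj false B
      rw [h7, h9, map_zero, mul_zero, map_zero]
    intro j
    cases j with
    | true => exact h10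
    | false => exact h11
  obtain ⟨N1, hN1⟩ := exists_low (E true)
  obtain ⟨N2, hN2⟩ := exists_low (E false)
  have all : ∀ k : ℕ, -((max N1 N2 : ℕ) : ℤ) + k ≤ a + b →
      ∀ j, ∀ m < -((max N1 N2 : ℕ) : ℤ) + k, (E j).coeff m = 0 := by
    intro k
    induction k with
    | zero =>
      intro _ j m hm
      have h1 : (N1 : ℤ) ≤ ((max N1 N2 : ℕ) : ℤ) := by exact_mod_cast le_max_left N1 N2
      have h2 : (N2 : ℤ) ≤ ((max N1 N2 : ℕ) : ℤ) := by exact_mod_cast le_max_right N1 N2
      rw [Nat.cast_zero, add_zero] at hm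
      cases j with
      | true => exact hN1 m (by omega)
      | false => exact hN2 m (by omega)
    | succ k ih =>
      intro hk' j m hm
      push_cast at hk' hm
      have ih' := ih (by omega)
      rcases lt_or_ge m (-((max N1 N2 : ℕ) : ℤ) + k) with h1 | h1
      · exact ih' j m (by push_cast at h1 ⊢; exact h1)
      · have h2 : m = -((max N1 N2 : ℕ) : ℤ) + k := by
          push_cast at h1 ⊢
          omega
        rw [h2]
        exact step _ (by push_cast at h2 ⊢; omega) ih' j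
  have fin : ∀ n : ℤ, n < a + b → ∀ j, (E j).coeff n = 0 := by
    intro n hn j
    have h1 : ((((a : ℤ) + b + ((max N1 N2 : ℕ) : ℤ)).toNat : ℕ) : ℤ) =
      (a : ℤ) + b + ((max N1 N2 : ℕ) : ℤ) := by omega
    exact all ((a : ℤ) + b + ((max N1 N2 : ℕ) : ℤ)).toNat (by rw [h1]; omega) j n
      (by rw [h1]; omega)
  intro j p q h hh0 hhx hp hq n hn
  have eh : h = H j := (hTFP G.inv (G.ch j) (A := S j)).1 _ _
    (fun f => by rw [hh0, hH0]) (by rw [hhx, hHx])
  have ep : p = PP j := by
    ext1 f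
    rw [hp, eh]
    rfl
  have eq : q = QQ j := by
    ext1 f
    rw [hq]
    rfl
  rw [ep, eq]
  exact fin n hn j

end Pool.Agent.MG.G0


end

section

/-!
# TGG: Theorem G
-/

open TensorProduct

namespace Pool.Agent.MG.G0

namespace TGG

section Basics

variable {B S A A' : Type} [CommRing B] [CommRing S] [CommRing A] [CommRing A'] [Algebra B S]
  [Algebra B A] [Algebra B A']

/-- The coefficientwise application of a homomorphism to a formal point. -/
noncomputable def mp (ψ : A →ₐ[B] A') (h : S →ₐ[B] PowerSeries A) : S →ₐ[B] PowerSeries A' where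
  toRingHom := (PowerSeries.map (ψ : A →+* A')).comp (h : S →+* PowerSeries A)
  commutes' b := by
    change PowerSeries.map (ψ : A →+* A') (h (algebraMap B S b)) = _
    rw [h.commutes, PowerSeries.algebraMap_apply, PowerSeries.algebraMap_apply,
      PowerSeries.map_C]
    congr 1
    exact ψ.commutes b

theorem mp_apply (ψ : A →ₐ[B] A') (h : S →ₐ[B] PowerSeries A) (f : S) :
    mp ψ h f = PowerSeries.map (ψ : A →+* A') (h f) := rfl

/-- The constant part of a formal point. -/
noncomputable def cp (h : S →ₐ[B] PowerSeries A) : S →ₐ[B] A where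
  toRingHom := (PowerSeries.constantCoeff (R := A)).comp (h : S →+* PowerSeries A)
  commutes' b := by
    change PowerSeries.constantCoeff (h (algebraMap B S b)) = _
    rw [h.commutes, PowerSeries.algebraMap_apply, PowerSeries.constantCoeff_C]

theorem cp_apply (h : S →ₐ[B] PowerSeries A) (f : S) :
    cp h f = PowerSeries.constantCoeff (h f) := rfl

/-- Rescaling of a formal point. -/
noncomputable def rs (l : A) (h : S →ₐ[B] PowerSeries A) : S →ₐ[B] PowerSeries A where
  toRingHom := (PowerSeries.rescale l).comp (h : S →+* PowerSeries A)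
  commutes' b := by
    change PowerSeries.rescale l (h (algebraMap B S b)) = _
    rw [h.commutes, PowerSeries.algebraMap_apply]
    ext n
    rw [PowerSeries.coeff_rescale, PowerSeries.coeff_C]
    split_ifs with hn
    · rw [hn, pow_zero, one_mul]
    · rw [mul_zero]

theorem rs_apply (l : A) (h : S →ₐ[B] PowerSeries A) (f : S) :
    rs l h f = PowerSeries.rescale l (h f) := rfl

/-- Constant polynomials. -/
noncomputable def cst (B A : Type) [CommRing B] [CommRing A] [Algebra B A] :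
    A →ₐ[B] MvPolynomial (Bool × ℕ) A where
  toRingHom := MvPolynomial.C
  commutes' b := (MvPolynomial.algebraMap_apply b).symm

theorem coeff_gs (b : Bool) (n : ℕ) : PowerSeries.coeff n (gs A b) =
    if n = 0 then 0 else if n = 1 then 1 else MvPolynomial.X (b, n - 2) := by
  rw [gs, PowerSeries.coeff_mk]

theorem const_gs (b : Bool) : PowerSeries.constantCoeff (gs A b) = 0 := by
  rw [← PowerSeries.coeff_zero_eq_constantCoeff_apply, coeff_gs, if_pos rfl]

theorem map_gs (ψ : MvPolynomial (Bool × ℕ) A →+* MvPolynomial (Bool × ℕ) A') (b : Bool)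
    (h : ∀ n, ψ (MvPolynomial.X (b, n)) = MvPolynomial.X (b, n)) :
    PowerSeries.map ψ (gs A b) = gs A' b := by
  ext1 n
  rw [PowerSeries.coeff_map, coeff_gs, coeff_gs]
  split_ifs
  · rw [map_zero]
  · rw [map_one]
  · rw [h]

variable {x : S} {Δ : Derivation B S S}

theorem exists_up (hTFP : Stmt_TFP) (hB : ∀ n : ℕ, n ≠ 0 → IsUnit (n : B))
    (hx : IsChart B S x Δ) (b : Bool) (p : S →ₐ[B] A) :
    ∃ h : S →ₐ[B] PowerSeries (MvPolynomial (Bool × ℕ) A), IsUP x b p h := by
  obtain ⟨h, h1, h2, -⟩ := (hTFP hB hx (A := MvPolynomial (Bool × ℕ) A)).2.1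
    ((cst B A).comp p) (gs A b) (const_gs b)
  exact ⟨h, h1, h2⟩

theorem up_unique (hTFP : Stmt_TFP) (hB : ∀ n : ℕ, n ≠ 0 → IsUnit (n : B))
    (hx : IsChart B S x Δ) {b : Bool} {p : S →ₐ[B] A}
    {h h' : S →ₐ[B] PowerSeries (MvPolynomial (Bool × ℕ) A)} (h1 : IsUP x b p h)
    (h2 : IsUP x b p h') : h = h' :=
  (hTFP hB hx (A := MvPolynomial (Bool × ℕ) A)).1 h h' (fun f => (h1.1 f).trans (h2.1 f).symm)
    (h1.2.trans h2.2.symm)

/-- Naturality of the universal formal points. -/
theorem up_map {b : Bool} {p : S →ₐ[B] A} {h : S →ₐ[B] PowerSeries (MvPolynomial (Bool × ℕ) A)}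
    (hh : IsUP x b p h) (φ : A →ₐ[B] A') :
    IsUP x b (φ.comp p) (mp (MvPolynomial.mapAlgHom φ) h) := by
  refine ⟨fun f => ?_, ?_⟩
  · rw [mp_apply, ← PowerSeries.coeff_zero_eq_constantCoeff_apply, PowerSeries.coeff_map,
      PowerSeries.coeff_zero_eq_constantCoeff_apply, hh.1]
    change MvPolynomial.map (φ : A →+* A') (MvPolynomial.C (p f)) = _
    rw [MvPolynomial.map_C]
    rfl
  · rw [mp_apply, hh.2, map_add, PowerSeries.map_C, map_gs _ b fun n => ?_]
    · change PowerSeries.C (MvPolynomial.map (φ : A →+* A') (MvPolynomial.C (p x))) + _ = _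
      rw [MvPolynomial.map_C]
      rfl
    · change MvPolynomial.map (φ : A →+* A') (MvPolynomial.X (b, n)) = _
      rw [MvPolynomial.map_X]

/-- The universal formal points of a disjoint pair. -/
theorem up_vpair {p q : S →ₐ[B] A} (hpq : DisjP p q) {b b' : Bool}
    {h k : S →ₐ[B] PowerSeries (MvPolynomial (Bool × ℕ) A)} (hh : IsUP x b p h)
    (hk : IsUP x b' q k) : VPair x h k := by
  have c1 : ∀ (b : Bool) (p : S →ₐ[B] A) (h : S →ₐ[B] PowerSeries (MvPolynomial (Bool × ℕ) A)),
      IsUP x b p h → PowerSeries.coeff 1 (h x) = 1 := by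
    intro b p h hh
    rw [hh.2, map_add, coeff_gs, PowerSeries.coeff_C, if_neg one_ne_zero, if_neg one_ne_zero,
      if_pos rfl, zero_add]
  refine ⟨by rw [c1 b p h hh]; exact isUnit_one, by rw [c1 b' q k hk]; exact isUnit_one, ?_⟩
  have e : (Set.range fun f : S =>
      PowerSeries.constantCoeff (h f) - PowerSeries.constantCoeff (k f)) =
      (MvPolynomial.C : A →+* MvPolynomial (Bool × ℕ) A) ''
        (Set.range fun f : S => p f - q f) := by
    rw [← Set.range_comp]
    congr 1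
    funext f
    rw [hh.1, hk.1, Function.comp_apply, map_sub]
  rw [e, ← Ideal.map_span]
  have h0 : Ideal.span (Set.range fun f : S => p f - q f) = ⊤ := hpq
  rw [h0, Ideal.map_top]

end Basics

section

variable {B : Type} [CommRing B] {S : Bool → Type} [∀ j, CommRing (S j)]
  [∀ j, Algebra B (S j)] {T : Type} [CommRing T] [Algebra B T]

/-- The universal formal point. -/
noncomputable def up (hTFP : Stmt_TFP) (G : TGD B S T) (j b : Bool) {A : Type} [CommRing A]
    [Algebra B A] (p : S j →ₐ[B] A) : S j →ₐ[B] PowerSeries (MvPolynomial (Bool × ℕ) A) :=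
  Classical.choose (exists_up hTFP G.inv (G.ch j) b p)

theorem up_spec (hTFP : Stmt_TFP) (G : TGD B S T) (j b : Bool) {A : Type} [CommRing A]
    [Algebra B A] (p : S j →ₐ[B] A) : IsUP (G.x j) b p (up hTFP G j b p) :=
  Classical.choose_spec (exists_up hTFP G.inv (G.ch j) b p)

/-- The universal value. -/
noncomputable def uv (hTFP : Stmt_TFP) (G : TGD B S T) {w : ℕ} (F : GFn G w) (j : Bool) (A : Type)
    [CommRing A] [Algebra B A] (p q : S j →ₐ[B] A) : MvPolynomial (Bool × ℕ) A :=
  F.c j (MvPolynomial (Bool × ℕ) A) (up hTFP G j true p) (up hTFP G j false q)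

theorem uv_nat (hTFP : Stmt_TFP) (G : TGD B S T) {w : ℕ} (F : GFn G w) (j : Bool) {A A' : Type}
    [CommRing A] [CommRing A'] [Algebra B A] [Algebra B A'] (φ : A →ₐ[B] A')
    (p q : S j →ₐ[B] A) (hpq : DisjP p q) :
    uv hTFP G F j A' (φ.comp p) (φ.comp q) =
      MvPolynomial.map (φ : A →+* A') (uv hTFP G F j A p q) := by
  have hh := up_spec hTFP G j true p
  have hk := up_spec hTFP G j false q
  refine F.nat j (MvPolynomial.mapAlgHom φ) _ _ _ _ (up_vpair hpq hh hk) (fun f => ?_)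
    (fun f => ?_)
  · rw [← mp_apply, ← up_unique hTFP G.inv (G.ch j) (up_map hh φ)
      (up_spec hTFP G j true (φ.comp p))]
  · rw [← mp_apply, ← up_unique hTFP G.inv (G.ch j) (up_map hk φ)
      (up_spec hTFP G j false (φ.comp q))]

/-- A unit difference makes the points disjoint. -/
theorem disj_of_unit {S' A : Type} [CommRing S'] [CommRing A] [Algebra B S'] [Algebra B A]
    {p q : S' →ₐ[B] A} {x : S'} (h : IsUnit (p x - q x)) : DisjP p q :=
  Ideal.eq_top_of_isUnit_mem _ (Ideal.subset_span ⟨x, rfl⟩) h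

/-- The coefficients of the monomial `m` of largest weight. -/
noncomputable def pfun (hTFP : Stmt_TFP) (hTGT : Stmt_TGT) (G : TGD B S T) {w : ℕ} (F : GFn G w)
    (m : (Bool × ℕ) →₀ ℕ)
    (hm : ∀ (j : Bool) {A : Type} [CommRing A] [Algebra B A] (p q : S j →ₐ[B] A), DisjP p q →
      ∀ m', wt m < wt m' → MvPolynomial.coeff m' (uv hTFP G F j A p q) = 0) :
    PFun G (w + wtb true m) (w + wtb false m) where
  e j A _ _ p q := MvPolynomial.coeff m (uv hTFP G F j A p q)
  nat j _ _ _ _ _ _ φ p q hpq := by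
    rw [uv_nat hTFP G F j φ p q hpq, MvPolynomial.coeff_map]
    rfl
  trans p q h := by
    refine hTGT G F p q h (fun j => up hTFP G j true (p.comp (G.i j)))
      (fun j => up hTFP G j false (q.comp (G.i j))) (fun j => up_spec hTFP G j true _)
      (fun j => up_spec hTFP G j false _) (wt m) (fun j m' hm' => ?_) m rfl
    exact hm j (p.comp (G.i j)) (q.comp (G.i j)) (disj_of_unit (h j)) m' hm'

/-- The universal values vanish. -/
theorem uv_zero (hTFP : Stmt_TFP) (hTGN : Stmt_TGN) (hTGT : Stmt_TGT) (hTGC : Stmt_TGC)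
    (G : TGD B S T) {w : ℕ} (F : GFn G w) (hw : 1 ≤ w) (j : Bool) {A : Type} [CommRing A]
    [Algebra B A] (p q : S j →ₐ[B] A) (hpq : DisjP p q) : uv hTFP G F j A p q = 0 := by
  have key : ∀ K : ℕ, (∀ (j : Bool) {A : Type} [CommRing A] [Algebra B A] (p q : S j →ₐ[B] A),
      DisjP p q → ∀ m, K ≤ wt m → MvPolynomial.coeff m (uv hTFP G F j A p q) = 0) →
      ∀ (j : Bool) {A : Type} [CommRing A] [Algebra B A] (p q : S j →ₐ[B] A),
      DisjP p q → ∀ m, MvPolynomial.coeff m (uv hTFP G F j A p q) = 0 := by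
    intro K
    induction K with
    | zero => exact fun h j {A} _ _ p q hpq m => h j p q hpq m (Nat.zero_le _)
    | succ K ih =>
      intro h
      refine ih ?_
      intro j A _ _ p q hpq m hm
      refine hTGC G (pfun hTFP hTGT G F m fun j {A} _ _ p q hpq m' hm' =>
        h j p q hpq m' (by omega)) (by omega) (by omega) j p q hpq
  obtain ⟨N, hN⟩ := hTGN G F
  ext m
  rw [MvPolynomial.coeff_zero]
  exact key (N + 1) (fun j {A} _ _ p q hpq m hm => hN j p q _ _ hpq (up_spec hTFP G j true p)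
    (up_spec hTFP G j false q) m hm) j p q hpq m

/-- The specialization of the universal formal points. -/
theorem spec {S' A : Type} [CommRing S'] [CommRing A] [Algebra B S'] [Algebra B A] {x : S'}
    {Δ : Derivation B S' S'} (hTFP : Stmt_TFP) (hB : ∀ n : ℕ, n ≠ 0 → IsUnit (n : B))
    (hx : IsChart B S' x Δ) {b : Bool} {h : S' →ₐ[B] PowerSeries (MvPolynomial (Bool × ℕ) A)}
    {h' : S' →ₐ[B] PowerSeries A} {p : S' →ₐ[B] A} (hh : IsUP x b p h)
    (h0 : ∀ f, PowerSeries.constantCoeff (h' f) = p f) (h1 : PowerSeries.coeff 1 (h' x) = 1)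
    (Ψ : MvPolynomial (Bool × ℕ) A →ₐ[B] A) (hC : ∀ a, Ψ (MvPolynomial.C a) = a)
    (hX : ∀ n, Ψ (MvPolynomial.X (b, n)) = PowerSeries.coeff (n + 2) (h' x)) (f : S') :
    h' f = PowerSeries.map (Ψ : MvPolynomial (Bool × ℕ) A →+* A) (h f) := by
  rw [← mp_apply]
  refine DFunLike.congr_fun ((hTFP hB hx (A := A)).1 h' (mp Ψ h) (fun f => ?_) ?_) f
  · rw [h0, mp_apply, ← PowerSeries.coeff_zero_eq_constantCoeff_apply, PowerSeries.coeff_map,
      PowerSeries.coeff_zero_eq_constantCoeff_apply, hh.1]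
    exact (hC _).symm
  · rw [mp_apply, hh.2]
    ext n
    rw [PowerSeries.coeff_map, map_add, PowerSeries.coeff_C, coeff_gs]
    rcases n with _ | _ | n
    · rw [if_pos rfl, if_pos rfl, add_zero, PowerSeries.coeff_zero_eq_constantCoeff_apply, h0]
      exact (hC _).symm
    · rw [Nat.zero_add, if_neg one_ne_zero, if_neg one_ne_zero, if_pos rfl, zero_add, h1,
        map_one]
    · rw [if_neg (by omega), if_neg (by omega), if_neg (by omega), zero_add]
      exact (hX n).symm

end

end TGG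

open _root_.Pool.Agent.MG.G0.TGG in
theorem t_TGG (hTFP : Stmt_TFP) (hTGN : Stmt_TGN) (hTGT : Stmt_TGT) (hTGC : Stmt_TGC) :
    Stmt_TGG := by
  intro B _ S _ _ T _ _ G w F hw j A _ _ h k hhk
  obtain ⟨u, hu⟩ := hhk.1
  obtain ⟨v, hv⟩ := hhk.2.1
  have hpq : DisjP (cp h) (cp k) := hhk.2.2
  rw [← F.hom j h k (TGG.rs ((u⁻¹ : Aˣ) : A) h) (TGG.rs ((v⁻¹ : Aˣ) : A) k) u⁻¹ v⁻¹ hhk
    (fun f => rfl) (fun f => rfl)]
  suffices H : F.c j A (TGG.rs ((u⁻¹ : Aˣ) : A) h) (TGG.rs ((v⁻¹ : Aˣ) : A) k) = 0 by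
    rw [H, mul_zero]
  have hh := up_spec hTFP G j true (cp h)
  have hk := up_spec hTFP G j false (cp k)
  let ψ : MvPolynomial (Bool × ℕ) A →ₐ[A] A := MvPolynomial.aeval fun v' =>
    if v'.1 = true then PowerSeries.coeff (v'.2 + 2) (TGG.rs ((u⁻¹ : Aˣ) : A) h (G.x j))
    else PowerSeries.coeff (v'.2 + 2) (TGG.rs ((v⁻¹ : Aˣ) : A) k (G.x j))
  have r0 : ∀ (l : A) (h : S j →ₐ[B] PowerSeries A) (f : S j),
      PowerSeries.constantCoeff (TGG.rs l h f) = cp h f := by
    intro l h f
    rw [rs_apply, cp_apply, ← PowerSeries.coeff_zero_eq_constantCoeff_apply,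
      PowerSeries.coeff_rescale, pow_zero, one_mul,
      PowerSeries.coeff_zero_eq_constantCoeff_apply]
  have r1 : ∀ (u : Aˣ) (h : S j →ₐ[B] PowerSeries A), (u : A) = PowerSeries.coeff 1 (h (G.x j)) →
      PowerSeries.coeff 1 (TGG.rs ((u⁻¹ : Aˣ) : A) h (G.x j)) = 1 := by
    intro u h hu
    rw [rs_apply, PowerSeries.coeff_rescale, pow_one, ← hu, Units.inv_mul]
  have e := F.nat j (ψ.restrictScalars B) (up hTFP G j true (cp h)) (up hTFP G j false (cp k))
    (TGG.rs ((u⁻¹ : Aˣ) : A) h) (TGG.rs ((v⁻¹ : Aˣ) : A) k) (up_vpair hpq hh hk)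
    (spec hTFP G.inv (G.ch j) hh (r0 _ h) (r1 u h hu) _ (fun a => ?_) fun n => ?_)
    (spec hTFP G.inv (G.ch j) hk (r0 _ k) (r1 v k hv) _ (fun a => ?_) fun n => ?_)
  · rw [e]
    have z : F.c j (MvPolynomial (Bool × ℕ) A) (up hTFP G j true (cp h))
        (up hTFP G j false (cp k)) = 0 := uv_zero hTFP hTGN hTGT hTGC G F hw j (cp h) (cp k) hpq
    rw [z, map_zero]
  · change ψ (MvPolynomial.C a) = a
    rw [MvPolynomial.aeval_C]
    rfl
  · change ψ (MvPolynomial.X (true, n)) = _
    rw [MvPolynomial.aeval_X, if_pos rfl]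
  · change ψ (MvPolynomial.C a) = a
    rw [MvPolynomial.aeval_C]
    rfl
  · change ψ (MvPolynomial.X (false, n)) = _
    rw [MvPolynomial.aeval_X, if_neg Bool.false_ne_true]

end Pool.Agent.MG.G0


end

section

/-!
# ZINT: integrality of the coefficients
-/

namespace Pool.Agent.MG.G0.ZL

open Polynomial

section

variable {E : Type} [CommRing E]

/-- The series with coefficients in a subring. -/
def lsub (E₀ : Subring E) : Subring (LaurentSeries E) where
  carrier := {f | ∀ m, f.coeff m ∈ E₀}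
  mul_mem' {f g} hf hg m := by
    obtain ⟨a, ha⟩ := exists_low f
    obtain ⟨b, hb⟩ := exists_low g
    rw [coeff_mul_Icc ha hb]
    exact sum_mem fun i _ => mul_mem (hf i) (hg _)
  one_mem' m := by
    rw [HahnSeries.coeff_one]
    split_ifs
    · exact one_mem _
    · exact zero_mem _
  add_mem' {f g} hf hg m := by
    rw [HahnSeries.coeff_add]
    exact add_mem (hf m) (hg m)
  zero_mem' m := by
    rw [HahnSeries.coeff_zero]
    exact zero_mem _
  neg_mem' {f} hf m := by
    rw [HahnSeries.coeff_neg]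
    exact neg_mem (hf m)

theorem mem_lsub {E₀ : Subring E} {f : LaurentSeries E} : f ∈ lsub E₀ ↔ ∀ m, f.coeff m ∈ E₀ :=
  Iff.rfl

theorem single_mem_lsub {E₀ : Subring E} {a : E} (ha : a ∈ E₀) (n : ℤ) :
    (HahnSeries.single n a : LaurentSeries E) ∈ lsub E₀ := by
  intro m
  by_cases h : m = n
  · rw [h, HahnSeries.coeff_single_same]
    exact ha
  · rw [HahnSeries.coeff_single_of_ne h]
    exact zero_mem _

/-- Truncation. -/
theorem exists_trunc {E₀ : Subring E} (h : LaurentSeries E) (n : ℤ) (hn : h ∈ Pl E n) (j : ℕ)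
    (hE : ∀ i ≤ j, h.coeff (-n + (i : ℤ)) ∈ E₀) :
    ∃ h' : LaurentSeries E, h' ∈ lsub E₀ ∧ h - h' ∈ Pl E (n - (j + 1)) ∧
      h'.coeff (-n + (j + 1 : ℕ)) = 0 := by
  classical
  refine ⟨∑ i ∈ Finset.range (j + 1), HahnSeries.single (-n + (i : ℤ)) (h.coeff (-n + (i : ℤ))),
    sum_mem fun i hi => single_mem_lsub (hE i ?_) _, ?_, ?_⟩
  · rw [Finset.mem_range] at hi
    omega
  · intro m hm
    rw [HahnSeries.coeff_sub, HahnSeries.coeff_sum]
    by_cases hm' : m < -n
    · rw [hn m hm', Finset.sum_eq_zero, sub_zero]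
      intro i _
      exact HahnSeries.coeff_single_of_ne (by omega)
    · obtain ⟨k, hk⟩ := Int.eq_ofNat_of_zero_le (a := m - -n) (by omega)
      have hmk : m = -n + (k : ℤ) := by omega
      have h1 : ∀ i : ℕ, (HahnSeries.single (-n + (i : ℤ)) (h.coeff (-n + (i : ℤ)))).coeff m =
          if i = k then h.coeff m else 0 := by
        intro i
        by_cases hi : i = k
        · rw [if_pos hi, hmk, hi, HahnSeries.coeff_single_same]
        · rw [if_neg hi, HahnSeries.coeff_single_of_ne (by omega)]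
      have hk' : k ∈ Finset.range (j + 1) := by
        rw [Finset.mem_range]
        omega
      rw [Finset.sum_congr rfl fun i _ => h1 i, Finset.sum_ite_eq', if_pos hk', sub_self]
  · rw [HahnSeries.coeff_sum]
    refine Finset.sum_eq_zero fun i hi => HahnSeries.coeff_single_of_ne ?_
    rw [Finset.mem_range] at hi
    push_cast
    omega

/-- The coefficient of a power. -/
theorem pow_sub_pow_coeff {h h' : LaurentSeries E} {n m : ℤ} (hn : h ∈ Pl E n)
    (h1 : h.coeff (-n) = 1) (hm : h - h' ∈ Pl E m) (hmn : m < n) (d : ℕ) :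
    (h ^ (d + 1) - h' ^ (d + 1)).coeff (-(d * n + m)) = ((d + 1 : ℕ) : E) * (h - h').coeff (-m) := by
  have hn' : h' ∈ Pl E n := by
    have h2 : h' = h - (h - h') := by abel
    rw [h2]
    exact Submodule.sub_mem _ hn (Pl_mono hmn.le hm)
  have h1' : h'.coeff (-n) = 1 := by
    have h2 : h' = h - (h - h') := by abel
    rw [h2, HahnSeries.coeff_sub, h1, hm _ (by omega), sub_zero]
  have hterm : ∀ i ∈ Finset.range (d + 1), h ^ i * h' ^ (d + 1 - 1 - i) ∈ Pl E (d * n) ∧
      (h ^ i * h' ^ (d + 1 - 1 - i)).coeff (-(d * n)) = 1 := by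
    intro i hi
    rw [Finset.mem_range] at hi
    have h3 : (d : ℤ) * n = (i : ℤ) * n + ((d + 1 - 1 - i : ℕ) : ℤ) * n := by
      have h4 : ((d + 1 - 1 - i : ℕ) : ℤ) = (d : ℤ) - i := by omega
      rw [h4]
      ring
    rw [h3]
    refine ⟨mul_mem_Pl (pow_mem_Pl hn i) (pow_mem_Pl hn' _), ?_⟩
    rw [coeff_mul_Pl (pow_mem_Pl hn i) (pow_mem_Pl hn' _), coeff_pow_Pl hn, coeff_pow_Pl hn',
      h1, h1', one_pow, one_pow, one_mul]
  have hS : ∑ i ∈ Finset.range (d + 1), h ^ i * h' ^ (d + 1 - 1 - i) ∈ Pl E (d * n) :=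
    Submodule.sum_mem _ fun i hi => (hterm i hi).1
  have hS' : (∑ i ∈ Finset.range (d + 1), h ^ i * h' ^ (d + 1 - 1 - i)).coeff (-(d * n)) =
      ((d + 1 : ℕ) : E) := by
    rw [HahnSeries.coeff_sum, Finset.sum_congr rfl fun i hi => (hterm i hi).2,
      Finset.sum_const, Finset.card_range, nsmul_eq_mul, mul_one]
  rw [← (Commute.all h h').geom_sum₂_mul, coeff_mul_Pl hS hm, hS']

end

end Pool.Agent.MG.G0.ZL

namespace Pool.Agent.MG.G0

open ZL Polynomial

theorem t_ZINT : Stmt_ZINT := by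
  classical
  intro E _ E₀ d R n₀ hd hdE hE₀ hz hmon hlead x hx m
  obtain ⟨c, hc, hcd⟩ := hdE
  obtain ⟨d', rfl⟩ : ∃ d', d = d' + 1 := ⟨d - 1, by omega⟩
  have claim : ∀ j n : ℕ, n₀ + j ≤ n → ∀ x ∈ R, x ∈ Po E n → ∀ i ≤ j,
      x.coeff (-(n : ℤ) + (i : ℤ)) ∈ E₀ := by
    intro j
    induction j with
    | zero =>
      intro n hn x hx hxn i hi
      have : i = 0 := by omega
      subst this
      simpa using hlead n (by omega) x hx hxn
    | succ j ih =>
      intro n hn x hx hxn
      obtain ⟨h, hh, hhn, hh1⟩ := hmon n (by omega)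
      have hlow : ∀ i ≤ j, h.coeff (-(n : ℤ) + (i : ℤ)) ∈ E₀ := ih n (by omega) h hh hhn
      -- the next coefficient of `h`
      have hnext : h.coeff (-(n : ℤ) + ((j + 1 : ℕ) : ℤ)) ∈ E₀ := by
        obtain ⟨h', hh', hr, hr0⟩ := exists_trunc (E₀ := E₀) h n hhn j hlow
        have hpow : (h ^ (d' + 1)).coeff (-((d' : ℤ) * n + ((n : ℤ) - (j + 1)))) ∈ E₀ := by
          have hy : h ^ (d' + 1) - zz E (d' + 1) ^ n ∈ R :=
            sub_mem (pow_mem hh _) (pow_mem hz _)
          have hzp : zz E (d' + 1) ^ n = HahnSeries.single (-(((d' + 1) * n : ℕ) : ℤ)) 1 :=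
            zz_pow (d' + 1) n
          have hyP : h ^ (d' + 1) - zz E (d' + 1) ^ n ∈ Po E ((((d' + 1) * n : ℕ) : ℤ) - 1) := by
            refine mem_Pl_pred (Submodule.sub_mem _ ?_ ?_) ?_
            · have := pow_mem_Pl hhn (d' + 1)
              have h2 : (((d' + 1 : ℕ) : ℤ)) * (n : ℤ) = (((d' + 1) * n : ℕ) : ℤ) := by
                push_cast
                ring
              rwa [h2] at this
            · rw [hzp]
              exact single_mem_Pl 1 le_rfl
            · rw [HahnSeries.coeff_sub, hzp, HahnSeries.coeff_single_same]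
              have := coeff_pow_Pl hhn (d' + 1)
              have h2 : (((d' + 1 : ℕ) : ℤ)) * (n : ℤ) = (((d' + 1) * n : ℕ) : ℤ) := by
                push_cast
                ring
              rw [h2, hh1, one_pow] at this
              rw [this, sub_self]
          have h3 : 1 ≤ (d' + 1) * n := by
            have : 1 ≤ n := by omega
            nlinarith
          have h4 : n ≤ (d' + 1) * n := by nlinarith
          have h5 : ((((d' + 1) * n - 1 : ℕ)) : ℤ) = (((d' + 1) * n : ℕ) : ℤ) - 1 := by omega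
          have h6 := ih ((d' + 1) * n - 1) (by omega) _ hy (by rw [h5]; exact hyP) j le_rfl
          rw [h5] at h6
          have h7 : -((((d' + 1) * n : ℕ) : ℤ) - 1) + (j : ℤ) =
              -((d' : ℤ) * n + ((n : ℤ) - (j + 1))) := by
            push_cast
            ring
          rw [h7, HahnSeries.coeff_sub, hzp, HahnSeries.coeff_single_of_ne, sub_zero] at h6
          · exact h6
          · push_cast
            intro h8
            nlinarith
        have hpow' : (h' ^ (d' + 1)).coeff (-((d' : ℤ) * n + ((n : ℤ) - (j + 1)))) ∈ E₀ :=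
          (pow_mem hh' (d' + 1)) _
        have hdiff := pow_sub_pow_coeff hhn hh1 hr (by omega) d'
        have hcoef : (h - h').coeff (-((n : ℤ) - (j + 1))) =
            h.coeff (-(n : ℤ) + ((j + 1 : ℕ) : ℤ)) := by
          have h8 : -((n : ℤ) - (j + 1)) = -(n : ℤ) + ((j + 1 : ℕ) : ℤ) := by
            push_cast
            ring
          rw [h8, HahnSeries.coeff_sub, hr0, sub_zero]
        rw [hcoef, HahnSeries.coeff_sub] at hdiff
        have h9 : h.coeff (-(n : ℤ) + ((j + 1 : ℕ) : ℤ)) =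
            c * (((d' + 1 : ℕ) : E) * h.coeff (-(n : ℤ) + ((j + 1 : ℕ) : ℤ))) := by
          rw [← mul_assoc, hcd, one_mul]
        rw [h9, ← hdiff]
        exact mul_mem hc (sub_mem hpow hpow')
      have hall : ∀ i ≤ j + 1, h.coeff (-(n : ℤ) + (i : ℤ)) ∈ E₀ := by
        intro i hi
        rcases Nat.lt_or_ge i (j + 1) with h1 | h1
        · exact hlow i (by omega)
        · have : i = j + 1 := by omega
          rw [this]
          exact hnext
      -- the general element
      have ha : x.coeff (-(n : ℤ)) ∈ E₀ := hlead n (by omega) x hx hxn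
      intro i hi
      rcases Nat.eq_zero_or_pos i with hi0 | hi0
      · subst hi0
        simpa using ha
      · obtain ⟨i', rfl⟩ : ∃ i', i = i' + 1 := ⟨i - 1, by omega⟩
        have hx' : x - algebraMap E _ (x.coeff (-(n : ℤ))) * h ∈ R :=
          sub_mem hx (mul_mem (hE₀ _ ha) hh)
        have hxP : x - algebraMap E _ (x.coeff (-(n : ℤ))) * h ∈ Po E ((n : ℤ) - 1) := by
          refine mem_Pl_pred (Submodule.sub_mem _ hxn ?_) ?_
          · rw [← Algebra.smul_def]
            exact Submodule.smul_mem _ _ hhn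
          · rw [HahnSeries.coeff_sub, algebraMap_mul_coeff, hh1, mul_one, sub_self]
        have h5 : ((n - 1 : ℕ) : ℤ) = (n : ℤ) - 1 := by omega
        have h6 := ih (n - 1) (by omega) _ hx' (by rw [h5]; exact hxP) i' (by omega)
        rw [h5] at h6
        have h7 : -((n : ℤ) - 1) + (i' : ℤ) = -(n : ℤ) + ((i' + 1 : ℕ) : ℤ) := by
          push_cast
          ring
        rw [h7, HahnSeries.coeff_sub, algebraMap_mul_coeff] at h6
        have h8 := add_mem h6 (mul_mem ha (hall (i' + 1) hi))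
        rwa [sub_add_cancel] at h8
  -- conclusion
  obtain ⟨N, hN⟩ := exists_low x
  by_cases hm : m < -(N : ℤ)
  · rw [hN m hm]
    exact zero_mem _
  · obtain ⟨j, hj⟩ := Int.eq_ofNat_of_zero_le (a := m + N) (by omega)
    have h1 : zz E (d' + 1) ^ (n₀ + j) * x ∈ R := mul_mem (pow_mem hz _) hx
    have hxN : x ∈ Po E (N : ℤ) := hN
    have h2 := zzpow_mul_mem_Pl (d := d' + 1) (n₀ + j) hxN
    rw [map_pow, ev_X] at h2
    have h3 : (((d' + 1) * (n₀ + j) : ℕ) : ℤ) + (N : ℤ) =
        (((d' + 1) * (n₀ + j) + N : ℕ) : ℤ) := by push_cast; ring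
    rw [h3] at h2
    have h4 : n₀ + j ≤ (d' + 1) * (n₀ + j) + N := by nlinarith
    have h5 := claim j _ h4 _ h1 h2 j le_rfl
    rw [zz_pow, HahnSeries.coeff_single_mul, one_mul] at h5
    have h6 : -(((d' + 1) * (n₀ + j) + N : ℕ) : ℤ) + (j : ℤ) -
        -(((d' + 1) * (n₀ + j) : ℕ) : ℤ) = m := by
      push_cast
      push_cast at hj
      linarith
    rwa [h6] at h5

end Pool.Agent.MG.G0


end

section

/-!
# ZBE: a Krichever ring is defined over a finite separable extension of the field of definition of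
its branch points
-/

open Polynomial

namespace Pool.Agent.MG.G0

open ZL

namespace ZBEm

/-! ## Lifting of Laurent series -/

section

variable {K W : Type} [Field K] [Field W]

theorem exists_lift (φ : K →+* W) (f : LaurentSeries W) (hf : ∀ m, ∃ c, φ c = f.coeff m) :
    ∃ f' : LaurentSeries K, lmap φ f' = f := by
  choose c hc using hf
  refine ⟨{ coeff := c, isPWO_support' := f.isPWO_support.mono fun m hm => ?_ }, ?_⟩
  · rw [HahnSeries.mem_support, ← hc m]
    intro h
    exact hm ((map_eq_zero φ).1 h)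
  · ext m
    rw [lmap_coeff]
    exact hc m

end

/-! ## The gap set -/

section

variable {κ : Type} [Field κ] {g : ℕ} {R : Subalgebra κ (LaurentSeries κ)} {Γ : Finset ℕ}

/-- The elements with the coefficients `δ` span `R`. -/
theorem eq_sum (hA : Stmt_BGA) (hΓ : GS Γ R) {H : ℕ → LaurentSeries κ}
    (hH : ∀ n, IsEch Γ R n (H n)) {x : LaurentSeries κ} (hx : x ∈ R) :
    ∃ N : ℕ, x = ∑ n ∈ Finset.range N \ Γ, x.coeff (-(n : ℤ)) • H n := by
  obtain ⟨N, c, h, hh, hc⟩ := ((hA.1 Γ R hΓ).2 x).1 hx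
  have h1 : ∀ n ∉ Γ, h n = H n := fun n hn => (hΓ.ech n).unique (hh n hn) (hH n)
  refine ⟨N, ?_⟩
  have h2 : x = ∑ n ∈ Finset.range N \ Γ, c n • H n := by
    rw [hc]
    refine Finset.sum_congr rfl fun n hn => ?_
    rw [h1 n (Finset.mem_sdiff.1 hn).2]
  have h3 : ∀ n ∈ Finset.range N \ Γ, x.coeff (-(n : ℤ)) = c n := by
    intro n hn
    have h4 : ∀ k, (c k • H k).coeff (-(n : ℤ)) = if k = n then c n else 0 := by
      intro k
      rw [HahnSeries.coeff_smul, (hH k).co n (Finset.mem_sdiff.1 hn).2, smul_eq_mul]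
      by_cases hk : k = n
      · rw [if_pos hk, if_pos hk.symm, hk, mul_one]
      · rw [if_neg hk, if_neg (Ne.symm hk), mul_zero]
    rw [h2, HahnSeries.coeff_sum, Finset.sum_congr rfl fun k _ => h4 k, Finset.sum_ite_eq',
      if_pos hn]
  conv_lhs => rw [h2]
  exact Finset.sum_congr rfl fun n hn => by rw [h3 n hn]

/-- The orders are the numbers outside `Γ`. -/
theorem ord_iff (hΓ : GS Γ R) (hA : Stmt_BGA)
    (hPo : ∀ n ∉ Γ, ∀ h, IsEch Γ R n h → h ∈ Po κ n) (n : ℕ) : Ord R n ↔ n ∉ Γ := by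
  constructor
  · rintro ⟨p, hp, hp1, hp2⟩ hn
    choose H hH using fun n => (hΓ.ech n).exists
    obtain ⟨N, hN⟩ := eq_sum hA hΓ hH hp
    have h1 : ∀ k ∈ Finset.range N \ Γ, (p.coeff (-(k : ℤ)) • H k).coeff (-(n : ℤ)) = 0 := by
      intro k hk
      have hk' := (Finset.mem_sdiff.1 hk).2
      rw [HahnSeries.coeff_smul, smul_eq_mul]
      rcases lt_trichotomy k n with h | h | h
      · rw [hPo k hk' _ (hH k) _ (by omega), mul_zero]
      · exact absurd (h ▸ hn) hk'
      · rw [hp1 _ (by omega), zero_mul]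
    rw [hN, HahnSeries.coeff_sum, Finset.sum_eq_zero h1] at hp2
    exact zero_ne_one hp2
  · intro hn
    obtain ⟨h, hh⟩ := (hΓ.ech n).exists
    exact ⟨h, hh.mem, hPo n hn h hh, by rw [hh.co n hn, if_pos rfl]⟩

end

/-! ## The ring over a smaller field -/

section

variable {K W : Type} [Field K] [Field W] {g : ℕ} {R : Subalgebra W (LaurentSeries W)}
  {Γ : Finset ℕ}

theorem lmap_smul' (φ : K →+* W) (c : K) (f : LaurentSeries K) :
    lmap φ (c • f) = φ c • lmap φ f := by
  ext m
  rw [lmap_coeff, HahnSeries.coeff_smul, smul_eq_mul, map_mul, HahnSeries.coeff_smul, lmap_coeff,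
    smul_eq_mul]

/-- The gap sections over a smaller field. -/
theorem cut_spec (hA : Stmt_BGA) (hΓ : GS Γ R) (φ : K →+* W) {H : ℕ → LaurentSeries W}
    (hH : ∀ n, IsEch Γ R n (H n)) (hK : ∀ n ∉ Γ, ∀ m, ∃ c, φ c = (H n).coeff m) :
    GS Γ (cut φ R) ∧ bc1 φ (cut φ R) = R ∧ ∃ h : ℕ → LaurentSeries K,
      ∀ n ∉ Γ, lmap φ (h n) = H n ∧ IsEch Γ (cut φ R) n (h n) := by
  classical
  have hinj : Function.Injective (lmap φ) := lmap_injective φ.injective
  have h0 : ∀ n, ∃ h : LaurentSeries K, n ∉ Γ → lmap φ h = H n := by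
    intro n
    by_cases hn : n ∈ Γ
    · exact ⟨0, fun h => absurd hn h⟩
    · obtain ⟨h, hh⟩ := exists_lift φ (H n) (hK n hn)
      exact ⟨h, fun _ => hh⟩
  choose h hh using h0
  have hcut : ∀ n ∉ Γ, h n ∈ cut φ R := by
    intro n hn
    rw [mem_cut, hh n hn]
    exact (hH n).mem
  refine ⟨⟨hΓ.1, fun f => ?_⟩, ?_, h, fun n hn => ⟨hh n hn, hcut n hn, fun m hm => ?_⟩⟩
  · obtain ⟨p, ⟨hp, hq⟩, hu⟩ := hΓ.2 (lmap φ f)
    obtain ⟨N, hN⟩ := eq_sum hA hΓ hH hp
    have hc : ∀ n ∉ Γ, p.coeff (-(n : ℤ)) = φ (f.coeff (-(n : ℤ))) := by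
      intro n hn
      have := hq n hn
      rw [HahnSeries.coeff_sub, lmap_coeff, sub_eq_zero] at this
      exact this.symm
    let p' : LaurentSeries K := ∑ n ∈ Finset.range N \ Γ, f.coeff (-(n : ℤ)) • h n
    have hp' : lmap φ p' = p := by
      rw [hN, map_sum]
      refine Finset.sum_congr rfl fun n hn => ?_
      have hn' := (Finset.mem_sdiff.1 hn).2
      rw [lmap_smul', hh n hn', hc n hn']
    refine ⟨p', ⟨?_, fun n hn => ?_⟩, fun y hy => ?_⟩
    · rw [mem_cut, hp']
      exact hp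
    · apply φ.injective
      rw [← lmap_coeff, map_sub, hp', hq n hn, map_zero]
    · apply hinj
      rw [hp']
      refine hu _ ⟨hy.1, fun n hn => ?_⟩
      rw [← map_sub, lmap_coeff, hy.2 n hn, map_zero]
  · apply le_antisymm
    · refine Algebra.adjoin_le ?_
      rintro _ ⟨f, hf, rfl⟩
      exact hf
    · intro x hx
      obtain ⟨N, hN⟩ := eq_sum hA hΓ hH hx
      rw [hN]
      refine sum_mem fun n hn => ?_
      have hn' := (Finset.mem_sdiff.1 hn).2
      exact (bc1 φ (cut φ R)).smul_mem (Algebra.subset_adjoin ⟨h n, hcut n hn', hh n hn'⟩) _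
  · apply φ.injective
    rw [← lmap_coeff, hh n hn, (hH n).co m hm]
    split_ifs
    · rw [map_one]
    · rw [map_zero]

/-- The structure constants over a smaller field. -/
theorem struct_mem (hA : Stmt_BGA) {d : ℕ} [NeZero d] (hR : Kr g R) (hz : zz W d ∈ R)
    (hΓ : GS Γ R) (hcard : Γ.card = g) (hPo : ∀ n ∉ Γ, ∀ h, IsEch Γ R n h → h ∈ Po W n)
    (φ : K →+* W) {H : ℕ → LaurentSeries W}
    (hH : ∀ n, IsEch Γ R n (H n)) (hK : ∀ n ∉ Γ, ∀ m, ∃ c, φ c = (H n).coeff m)
    (N : ZMod d → ℕ) (hN : ∀ i, (N i : ZMod d) = i) (hN' : ∀ n : ℕ, Ord R n ↔ N n ≤ n)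
    (S : ZMod d → ZMod d → ZMod d → W[X])
    (hS : ∀ i j, H (N i) * H (N j) = ∑ l, ev d (S i j l) * H (N l)) (i j l : ZMod d) (k : ℕ) :
    ∃ c, φ c = (S i j l).coeff k := by
  classical
  obtain ⟨h1, -, h, h2⟩ := cut_spec hA hΓ φ hH hK
  have hNΓ : ∀ i, N i ∉ Γ := by
    intro i
    rw [← ord_iff hΓ hA hPo, hN', hN]
  have hkr : Kr g (cut φ R) := hcard ▸ (hA.1 Γ _ h1).1
  have hz' : zz K d ∈ cut φ R := by
    rw [mem_cut, lmap_zz]
    exact hz
  have hP : ∀ n ∉ Γ, h n ∈ Pl K n := by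
    intro n hn m hm
    apply φ.injective
    rw [← lmap_coeff, (h2 n hn).1, hPo n hn _ (hH n) m hm, map_zero]
  have hord : ∀ n : ℕ, Ord (cut φ R) n ↔ N n ≤ n := by
    intro n
    rw [← hN']
    constructor
    · rintro ⟨p, hp, hp1, hp2⟩
      exact ⟨lmap φ p, hp, lmap_mem_Pl φ hp1, by rw [lmap_coeff, hp2, map_one]⟩
    · intro hn
      rw [ord_iff hΓ hA hPo] at hn
      exact ⟨h n, (h2 n hn).2.mem, hP n hn, by rw [(h2 n hn).2.co n hn, if_pos rfl]⟩
  have hspn : Spn (cut φ R) fun i => h (N i) :=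
    spn_of_ech hkr hz' N hN hord _ (fun i => (h2 _ (hNΓ i)).2.mem) (fun i => hP _ (hNΓ i))
      fun i => by rw [(h2 _ (hNΓ i)).2.co _ (hNΓ i), if_pos rfl]
  obtain ⟨q, hq⟩ := hspn.2 (h (N i) * h (N j)) (mul_mem (hspn.1 i) (hspn.1 j))
  have hspnR : Spn R fun i => H (N i) :=
    spn_of_ech hR hz N hN hN' _ (fun i => (hH _).mem) (fun i => hPo _ (hNΓ i) _ (hH _))
      fun i => by rw [(hH _).co _ (hNΓ i), if_pos rfl]
  have h3 : ∑ l, ev d (S i j l) * H (N l) = ∑ l, ev d ((q l).map φ) * H (N l) := by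
    rw [← hS i j, ← (h2 _ (hNΓ i)).1, ← (h2 _ (hNΓ j)).1, ← map_mul, hq, map_sum]
    refine Finset.sum_congr rfl fun l _ => ?_
    rw [map_mul, lmap_ev, (h2 _ (hNΓ l)).1]
  have h4 := congrFun (coef_unique (cmat_isUnit hR hspnR) h3) l
  exact ⟨(q l).coeff k, by rw [h4, coeff_map]⟩

end

/-! ## Finitely many coefficients generate all -/

section

variable {κ : Type} [Field κ] {g : ℕ} {R : Subalgebra κ (LaurentSeries κ)} {d : ℕ} [NeZero d]

/-- The coefficients of the representation in an echelon basis. -/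
theorem exists_repr (hR : Kr g R) (hz : zz κ d ∈ R) (N : ZMod d → ℕ)
    (hN : ∀ i, (N i : ZMod d) = i) (hN' : ∀ n : ℕ, Ord R n ↔ N n ≤ n)
    (e : ZMod d → LaurentSeries κ) (he : ∀ i, e i ∈ R) (he1 : ∀ i, e i ∈ Pl κ (N i))
    (he2 : ∀ i, (e i).coeff (-(N i : ℤ)) = 1) :
    ∀ n : ℕ, ∀ x ∈ R, x ∈ Pl κ ((n : ℤ) - 1) →
      ∃ q : ZMod d → κ[X], x = ∑ i, ev d (q i) * e i ∧
        ∀ i k, (q i).coeff k ≠ 0 → N i + d * k < n := by
  classical
  intro n
  induction n with
  | zero =>
    intro x hx hx'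
    refine ⟨0, ?_, fun i k h => absurd (coeff_zero k) h⟩
    rw [eq_zero_of_neg hR hx (by simpa using hx')]
    simp
  | succ n ih =>
    intro x hx hx'
    have hx'' : x ∈ Pl κ n := by
      have h1 : ((n + 1 : ℕ) : ℤ) - 1 = n := by push_cast; ring
      rwa [h1] at hx'
    by_cases ha : x.coeff (-(n : ℤ)) = 0
    · obtain ⟨q, hq, hq'⟩ := ih x hx (mem_Pl_pred hx'' ha)
      exact ⟨q, hq, fun i k h => (hq' i k h).trans (Nat.lt_succ_self n)⟩
    · have h1 : N n ≤ n := (hN' n).1 (ord_of_coeff hx hx'' ha)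
      have h2 : d ∣ n - N n := by
        rw [← ZMod.natCast_eq_zero_iff, Nat.cast_sub h1, hN, sub_self]
      obtain ⟨k, hk⟩ := h2
      have h3 : (n : ℤ) = (d * k : ℕ) + (N n : ℤ) := by omega
      let y : LaurentSeries κ := ev d (C (x.coeff (-(n : ℤ))) * X ^ k) * e n
      have hy : y ∈ R := by
        refine mul_mem ?_ (he _)
        rw [map_mul, ev_C, map_pow, ev_X]
        exact mul_mem (R.algebraMap_mem _) (pow_mem hz k)
      have hy1 : y = x.coeff (-(n : ℤ)) • (ev d (X ^ k) * e n) := by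
        show ev d (C (x.coeff (-(n : ℤ))) * X ^ k) * e n = _
        rw [map_mul, ev_C, mul_assoc, ← Algebra.smul_def]
      have hy2 : y ∈ Pl κ n := by
        rw [hy1, h3]
        exact Submodule.smul_mem _ _ (zzpow_mul_mem_Pl k (he1 _))
      have hy3 : y.coeff (-(n : ℤ)) = x.coeff (-(n : ℤ)) := by
        have h4 := zzpow_mul_coeff (d := d) k (he1 (n : ZMod d))
        rw [← h3, he2] at h4
        rw [hy1, HahnSeries.coeff_smul, h4, smul_eq_mul, mul_one]
      obtain ⟨q, hq, hq'⟩ := ih (x - y) (sub_mem hx hy)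
        (mem_Pl_pred (Submodule.sub_mem _ hx'' hy2) (by
          rw [HahnSeries.coeff_sub, hy3, sub_self]))
      refine ⟨q + Pi.single (n : ZMod d) (C (x.coeff (-(n : ℤ))) * X ^ k), ?_, ?_⟩
      · have h5 : x = (x - y) + y := by abel
        conv_lhs => rw [h5, hq]
        have h6 : ∀ i, ev d ((q + Pi.single (n : ZMod d)
            (C (x.coeff (-(n : ℤ))) * X ^ k) : ZMod d → κ[X]) i) * e i =
              ev d (q i) * e i + if i = (n : ZMod d) then y else 0 := by
          intro i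
          rw [Pi.add_apply, map_add, add_mul]
          congr 1
          by_cases hi : i = (n : ZMod d)
          · rw [if_pos hi, hi, Pi.single_eq_same]
          · rw [if_neg hi, Pi.single_eq_of_ne hi, map_zero, zero_mul]
        rw [Finset.sum_congr rfl fun i _ => h6 i, Finset.sum_add_distrib, Finset.sum_ite_eq',
          if_pos (Finset.mem_univ _)]
      · intro i l hl
        by_cases hi : i = (n : ZMod d)
        · subst hi
          rw [Pi.add_apply, Pi.single_eq_same, coeff_add, coeff_C_mul, coeff_X_pow] at hl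
          by_cases hlk : l = k
          · subst hlk
            omega
          · rw [if_neg hlk, mul_zero, add_zero] at hl
            exact (hq' _ l hl).trans (Nat.lt_succ_self n)
        · rw [Pi.add_apply, Pi.single_eq_of_ne hi, add_zero] at hl
          exact (hq' i l hl).trans (Nat.lt_succ_self n)

omit [NeZero d] in
theorem ev_mul_coeff (q : κ[X]) (f : LaurentSeries κ) (m : ℤ) :
    (ev d q * f).coeff m = ∑ k ∈ q.support, q.coeff k * f.coeff (m + d * k) := by
  rw [ev_eq_sum, Finset.sum_mul, HahnSeries.coeff_sum]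
  refine Finset.sum_congr rfl fun k _ => ?_
  rw [HahnSeries.coeff_single_mul]
  congr 2
  push_cast
  ring

/-- The subring spanned by the echelon basis over a subring `E[z]`. -/
def R0 (E : Subring κ) (S : ZMod d → ZMod d → ZMod d → κ[X]) (e : ZMod d → LaurentSeries κ)
    (h0 : e 0 = 1) (hS : ∀ i j, e i * e j = ∑ l, ev d (S i j l) * e l)
    (hE : ∀ i j l k, (S i j l).coeff k ∈ E) : Subring (LaurentSeries κ) where
  carrier := {x | ∃ q : ZMod d → κ[X], (∀ i k, (q i).coeff k ∈ E) ∧ x = ∑ i, ev d (q i) * e i}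
  mul_mem' := by
    rintro x y ⟨q, hq, rfl⟩ ⟨p, hp, rfl⟩
    refine ⟨fun l => ∑ i, ∑ j, q i * p j * S i j l, fun l k => ?_, ?_⟩
    · rw [finsetSum_coeff]
      refine sum_mem fun i _ => ?_
      rw [finsetSum_coeff]
      refine sum_mem fun j _ => ?_
      rw [coeff_mul]
      refine sum_mem fun ab _ => mul_mem ?_ (hE _ _ _ _)
      rw [coeff_mul]
      exact sum_mem fun cd _ => mul_mem (hq _ _) (hp _ _)
    · have h1 : ∀ l, ev d (∑ i, ∑ j, q i * p j * S i j l) * e l =
          ∑ i, ∑ j, ev d (q i) * ev d (p j) * (ev d (S i j l) * e l) := by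
        intro l
        rw [map_sum, Finset.sum_mul]
        refine Finset.sum_congr rfl fun i _ => ?_
        rw [map_sum, Finset.sum_mul]
        refine Finset.sum_congr rfl fun j _ => ?_
        rw [map_mul, map_mul, mul_assoc]
      rw [Finset.sum_congr rfl fun l _ => h1 l, Finset.sum_comm, Finset.sum_mul]
      refine Finset.sum_congr rfl fun i _ => ?_
      rw [Finset.sum_comm, Finset.mul_sum]
      refine Finset.sum_congr rfl fun j _ => ?_
      rw [← Finset.mul_sum, ← hS]
      ring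
  one_mem' := by
    classical
    refine ⟨Pi.single 0 1, fun i k => ?_, ?_⟩
    · by_cases hi : i = 0
      · rw [hi, Pi.single_eq_same, coeff_one]
        split_ifs
        · exact one_mem _
        · exact zero_mem _
      · rw [Pi.single_eq_of_ne hi, coeff_zero]
        exact zero_mem _
    · rw [Finset.sum_eq_single 0]
      · rw [Pi.single_eq_same, map_one, one_mul, h0]
      · intro i _ hi
        rw [Pi.single_eq_of_ne hi, map_zero, zero_mul]
      · intro h
        exact absurd (Finset.mem_univ _) h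
  add_mem' := by
    rintro x y ⟨q, hq, rfl⟩ ⟨p, hp, rfl⟩
    refine ⟨q + p, fun i k => ?_, ?_⟩
    · rw [Pi.add_apply, coeff_add]
      exact add_mem (hq i k) (hp i k)
    · rw [← Finset.sum_add_distrib]
      refine Finset.sum_congr rfl fun i _ => ?_
      rw [Pi.add_apply, map_add, add_mul]
  zero_mem' := ⟨0, fun i k => by rw [Pi.zero_apply, coeff_zero]; exact zero_mem _, by simp⟩
  neg_mem' := by
    rintro x ⟨q, hq, rfl⟩
    refine ⟨-q, fun i k => ?_, ?_⟩
    · rw [Pi.neg_apply, coeff_neg]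
      exact neg_mem (hq i k)
    · rw [← Finset.sum_neg_distrib]
      refine Finset.sum_congr rfl fun i _ => ?_
      rw [Pi.neg_apply, map_neg, neg_mul]

theorem single_mem_R0 (E : Subring κ) (S : ZMod d → ZMod d → ZMod d → κ[X])
    (e : ZMod d → LaurentSeries κ)
    (h0 : e 0 = 1) (hS : ∀ i j, e i * e j = ∑ l, ev d (S i j l) * e l)
    (hE : ∀ i j l k, (S i j l).coeff k ∈ E) (i : ZMod d) (p : κ[X])
    (hp : ∀ k, p.coeff k ∈ E) : ev d p * e i ∈ R0 E S e h0 hS hE := by
  classical
  refine ⟨Pi.single i p, fun j k => ?_, ?_⟩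
  · by_cases hj : j = i
    · rw [hj, Pi.single_eq_same]
      exact hp k
    · rw [Pi.single_eq_of_ne hj, coeff_zero]
      exact zero_mem _
  · rw [Finset.sum_eq_single i]
    · rw [Pi.single_eq_same]
    · intro j _ hj
      rw [Pi.single_eq_of_ne hj, map_zero, zero_mul]
    · intro h
      exact absurd (Finset.mem_univ _) h

/-- The coefficients of the elements of the subring. -/
theorem coeff_mem_R0 (hR : Kr g R) (hz : zz κ d ∈ R) (N : ZMod d → ℕ)
    (hN : ∀ i, (N i : ZMod d) = i) (hN' : ∀ n : ℕ, Ord R n ↔ N n ≤ n)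
    (e : ZMod d → LaurentSeries κ) (he : ∀ i, e i ∈ R) (he1 : ∀ i, e i ∈ Pl κ (N i))
    (he2 : ∀ i, (e i).coeff (-(N i : ℤ)) = 1) (E : Subring κ)
    (hdE : ∃ c ∈ E, c * (d : κ) = 1) (S : ZMod d → ZMod d → ZMod d → κ[X])
    (h0 : e 0 = 1) (hS : ∀ i j, e i * e j = ∑ l, ev d (S i j l) * e l)
    (hE : ∀ i j l k, (S i j l).coeff k ∈ E) :
    ∀ x ∈ R0 E S e h0 hS hE, ∀ m : ℤ, x.coeff m ∈ E := by
  classical
  have hd0 : 0 < d := Nat.pos_of_ne_zero (NeZero.ne d)
  have hspn : Spn R e := spn_of_ech hR hz N hN hN' e he he1 he2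
  refine t_ZINT κ E d (R0 E S e h0 hS hE) (2 * g) hd0 hdE (fun a ha => ?_) ?_
    (fun n hn => ?_) (fun n hn x hx hxn => ?_)
  · have h1 := single_mem_R0 E S e h0 hS hE 0 (C a) (fun k => by
      rw [coeff_C]
      split_ifs
      · exact ha
      · exact zero_mem _)
    rwa [h0, mul_one, ev_C] at h1
  · have h1 := single_mem_R0 E S e h0 hS hE 0 X (fun k => by
      rw [coeff_X]
      split_ifs
      · exact one_mem _
      · exact zero_mem _)
    rwa [h0, mul_one, ev_X] at h1
  · have h1 : N n ≤ n := (hN' n).1 (ord_of_two_mul_le hR hz hn)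
    have h2 : d ∣ n - N n := by
      rw [← ZMod.natCast_eq_zero_iff, Nat.cast_sub h1, hN, sub_self]
    obtain ⟨k, hk⟩ := h2
    have h3 : (n : ℤ) = (d * k : ℕ) + (N n : ℤ) := by omega
    refine ⟨ev d (X ^ k) * e n, single_mem_R0 E S e h0 hS hE n (X ^ k) (fun l => ?_), ?_, ?_⟩
    · rw [coeff_X_pow]
      split_ifs
      · exact one_mem _
      · exact zero_mem _
    · rw [h3]
      exact zzpow_mul_mem_Pl k (he1 _)
    · have h4 := zzpow_mul_coeff (d := d) k (he1 (n : ZMod d))
      rw [← h3, he2] at h4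
      exact h4
  · obtain ⟨q, hq, hx'⟩ := hx
    have hxR : x ∈ R := by
      rw [hx']
      refine sum_mem fun i _ => mul_mem ?_ (he i)
      have h1 : ∀ p : κ[X], ev d p ∈ R := by
        intro p
        have h2 : (zpol κ d p) = aeval (zz κ d) p := rfl
        show zpol κ d p ∈ R
        rw [h2, aeval_eq_sum_range]
        exact sum_mem fun i _ => R.smul_mem (pow_mem hz _) _
      exact h1 _
    obtain ⟨p, hp, hp'⟩ := exists_repr hR hz N hN hN' e he he1 he2 (n + 1) x hxR (by
      have h1 : ((n + 1 : ℕ) : ℤ) - 1 = n := by push_cast; ring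
      rw [h1]
      exact hxn)
    have hqp : q = p := coef_unique (cmat_isUnit hR hspn) (hx'.symm.trans hp)
    rw [hx', HahnSeries.coeff_sum]
    refine sum_mem fun i _ => ?_
    rw [ev_mul_coeff]
    refine sum_mem fun k hk => mul_mem (hq i k) ?_
    have h1 := hp' i k (by rw [← hqp]; exact mem_support_iff.1 hk)
    rcases Nat.lt_or_ge (N i + d * k) n with h2 | h2
    · rw [he1 i _ (by
        have h3 : (N i : ℤ) + d * k < n := by exact_mod_cast h2
        omega)]
      exact zero_mem _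
    · have h3 : N i + d * k = n := by omega
      have h4 : (N i : ℤ) + d * k = n := by exact_mod_cast h3
      have h5 : (-(n : ℤ) + d * k) = -(N i : ℤ) := by omega
      rw [h5, he2]
      exact one_mem _

theorem H_mem (hA : Stmt_BGA) {Γ : Finset ℕ} (hR : Kr g R) (hz : zz κ d ∈ R)
    (hΓ : GS Γ R) (hPo : ∀ n ∉ Γ, ∀ h, IsEch Γ R n h → h ∈ Po κ n)
    {H : ℕ → LaurentSeries κ} (hH : ∀ n, IsEch Γ R n (H n))
    (N : ZMod d → ℕ) (hN : ∀ i, (N i : ZMod d) = i) (hN' : ∀ n : ℕ, Ord R n ↔ N n ≤ n)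
    (E : Subring κ) (hdE : ∃ c ∈ E, c * (d : κ) = 1) (S : ZMod d → ZMod d → ZMod d → κ[X])
    (hS : ∀ i j, H (N i) * H (N j) = ∑ l, ev d (S i j l) * H (N l))
    (hE : ∀ i j l k, (S i j l).coeff k ∈ E) :
    ∀ n ∉ Γ, ∀ m : ℤ, (H n).coeff m ∈ E := by
  classical
  have hNΓ : ∀ i, N i ∉ Γ := by
    intro i
    rw [← ord_iff hΓ hA hPo, hN', hN]
  have hN0 : N 0 = 0 := by
    have h1 := (hN' 0).1 (ord_zero R)
    rw [Nat.cast_zero] at h1
    omega
  have hH0 : H (N 0) = 1 := by
    rw [hN0]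
    refine (hΓ.ech 0).unique (hH 0) ⟨one_mem R, fun m _ => ?_⟩
    rw [HahnSeries.coeff_one]
    have : (-(m : ℤ) = 0) ↔ (m = 0) := by omega
    simp only [this]
  have key := coeff_mem_R0 hR hz N hN hN' (fun i => H (N i)) (fun i => (hH _).mem)
    (fun i => hPo _ (hNΓ i) _ (hH _))
    (fun i => by rw [(hH _).co _ (hNΓ i), if_pos rfl]) E hdE S hH0 hS hE
  intro n
  induction n using Nat.strong_induction_on with
  | _ n ih =>
    intro hn
    have h1 : N n ≤ n := by
      rw [← hN', ord_iff hΓ hA hPo]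
      exact hn
    have h2 : d ∣ n - N n := by
      rw [← ZMod.natCast_eq_zero_iff, Nat.cast_sub h1, hN, sub_self]
    obtain ⟨k, hk⟩ := h2
    have h3 : (n : ℤ) = (d * k : ℕ) + (N n : ℤ) := by omega
    set y : LaurentSeries κ := ev d (X ^ k) * H (N n) with hy
    have hyR : y ∈ R := by
      rw [hy, map_pow, ev_X]
      exact mul_mem (pow_mem hz k) (hH _).mem
    have hyP : y ∈ Pl κ n := by
      rw [h3]
      exact zzpow_mul_mem_Pl k (hPo _ (hNΓ _) _ (hH _))
    have hy1 : y.coeff (-(n : ℤ)) = 1 := by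
      have h4 := zzpow_mul_coeff (d := d) k (hPo _ (hNΓ (n : ZMod d)) _ (hH _))
      rw [(hH _).co _ (hNΓ _), if_pos rfl] at h4
      rw [h3]
      exact h4
    have hyE : ∀ m : ℤ, y.coeff m ∈ E := by
      refine key y (single_mem_R0 E S _ hH0 hS hE (n : ZMod d) (X ^ k) fun l => ?_)
      rw [coeff_X_pow]
      split_ifs
      · exact one_mem _
      · exact zero_mem _
    have h5 : H n = y - ∑ m ∈ Finset.range n \ Γ, y.coeff (-(m : ℤ)) • H m := by
      refine (hΓ.ech n).unique (hH n) ⟨sub_mem hyR (sum_mem fun m _ =>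
        R.smul_mem (hH m).mem _), fun m hm => ?_⟩
      rw [HahnSeries.coeff_sub, HahnSeries.coeff_sum]
      have h6 : ∀ l ∈ Finset.range n \ Γ, (y.coeff (-(l : ℤ)) • H l).coeff (-(m : ℤ)) =
          if l = m then y.coeff (-(m : ℤ)) else 0 := by
        intro l _
        rw [HahnSeries.coeff_smul, (hH l).co m hm, smul_eq_mul]
        by_cases hl : l = m
        · rw [if_pos hl, if_pos hl.symm, hl, mul_one]
        · rw [if_neg hl, if_neg (Ne.symm hl), mul_zero]
      rw [Finset.sum_congr rfl h6, Finset.sum_ite_eq']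
      rcases lt_trichotomy m n with h | h | h
      · rw [if_pos (Finset.mem_sdiff.2 ⟨Finset.mem_range.2 h, hm⟩), sub_self, if_neg h.ne]
      · rw [if_neg (fun h' => by
          have := Finset.mem_range.1 (Finset.mem_sdiff.1 h').1
          omega), if_pos h, h, hy1, sub_zero]
      · rw [if_neg (fun h' => by
          have := Finset.mem_range.1 (Finset.mem_sdiff.1 h').1
          omega), if_neg h.ne', sub_zero, hyP _ (by omega)]
    intro m
    rw [h5, HahnSeries.coeff_sub, HahnSeries.coeff_sum]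
    refine sub_mem (hyE m) (sum_mem fun l hl => ?_)
    obtain ⟨hl1, hl2⟩ := Finset.mem_sdiff.1 hl
    rw [HahnSeries.coeff_smul, smul_eq_mul]
    exact mul_mem (hyE _) (ih l (Finset.mem_range.1 hl1) hl2 m)

end

/-! ## Discriminants -/

theorem disc_unique {κ : Type} [Field κ] {g d : ℕ} (hd : 0 < d)
    {R : Subalgebra κ (LaurentSeries κ)} (hR : Kr g R) {f f' : κ[X]} (hf : f.Monic)
    (hf' : f'.Monic) (h : Disc d R f) (h' : Disc d R f') : f = f' := by
  have : NeZero d := ⟨hd.ne'⟩
  obtain ⟨e, he, u, hu, hdet⟩ := dsc_of_disc h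
  obtain ⟨e', he', u', hu', hdet'⟩ := dsc_of_disc h'
  obtain ⟨a, ha, hae⟩ := exists_change hR he he'
  have h1 := gram_det_mul a e e' hae
  rw [hdet, hdet', ← map_mul] at h1
  have h2 := ev_injective d hd.ne' h1
  have h3 : Associated f f' := by
    have h4 : Associated (u * f) f := associated_unit_mul_left f u hu
    have h5 : Associated (a.det ^ 2 * (u' * f')) f' := by
      rw [← mul_assoc]
      exact associated_unit_mul_left f' _ ((ha.pow 2).mul hu')
    rw [← h2] at h5
    exact h4.symm.trans h5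
  exact eq_of_monic_of_associated hf hf' h3

/-! ## Derivations -/

theorem formallyUnramified_of {F L : Type} [Field F] [Field L] [Algebra F L]
    (h : ∀ D : Derivation F L L, D = 0) : Algebra.FormallyUnramified F L := by
  constructor
  have h1 : ∀ f : Module.Dual L (Ω[L⁄F]), f = 0 := by
    intro f
    have h2 := h (KaehlerDifferential.linearMapEquivDerivation F L f)
    exact (LinearEquiv.map_eq_zero_iff _).1 h2
  refine ⟨fun x y => ?_⟩
  rw [← sub_eq_zero, ← Module.forall_dual_apply_eq_zero_iff L]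
  intro f
  rw [h1 f]
  rfl

end ZBEm

open _root_.Pool.Agent.MG.G0.ZBEm in
/-- ZBE. -/
theorem t_ZBE (hA : Stmt_BGA) (hL : Stmt_BGL) (hKBC : Stmt_KBC) (hCYC : Stmt_CYC)
    (hBPB : Stmt_BPB) : Stmt_ZBE := by
  classical
  intro F W _ _ _ g d b hd h2d R hR hz r hr hDisc
  have : NeZero d := ⟨hd.ne'⟩
  have hdF : (d : F) ≠ 0 := by
    intro h
    apply h2d
    push_cast
    rw [h, mul_zero]
  have hcast : ∀ {K : Type} [Field K] [Algebra F K], ((2 * d : ℕ) : K) ≠ 0 ∧ (d : K) ≠ 0 := by
    intro K _ _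
    have h1 : ∀ n : ℕ, (n : F) ≠ 0 → (n : K) ≠ 0 := by
      intro n hn h
      rw [← map_natCast (algebraMap F K)] at h
      exact hn ((map_eq_zero _).1 h)
    exact ⟨h1 _ h2d, h1 _ hdF⟩
  obtain ⟨Γ, hcard, hΓ, hPo⟩ := hL.2.1 R hR
  choose H hH using fun n => (hΓ.ech n).exists
  obtain ⟨N, hN, hN'⟩ := exists_ech hR hz
  have hNΓ : ∀ i, N i ∉ Γ := by
    intro i
    rw [← ord_iff hΓ hA hPo, hN', hN]
  have hspn : Spn R fun i => H (N i) :=
    spn_of_ech hR hz N hN hN' _ (fun i => (hH _).mem) (fun i => hPo _ (hNΓ i) _ (hH _))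
      fun i => by rw [(hH _).co _ (hNΓ i), if_pos rfl]
  choose S hS using fun i j : ZMod d => hspn.2 (H (N i) * H (N j))
    (mul_mem (hH _).mem (hH _).mem)
  -- the field of definition
  let G : Set W := {x | ∃ n, n ∉ Γ ∧ ∃ m : ℤ, x = (H n).coeff m}
  let L : IntermediateField F W := IntermediateField.adjoin F G
  have hGL : ∀ n ∉ Γ, ∀ m : ℤ, (H n).coeff m ∈ L := fun n hn m =>
    IntermediateField.subset_adjoin F G ⟨n, hn, m, rfl⟩
  have hLH : ∀ n ∉ Γ, ∀ m : ℤ, ∃ c : L, algebraMap L W c = (H n).coeff m :=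
    fun n hn m => ⟨⟨_, hGL n hn m⟩, rfl⟩
  obtain ⟨hG1, hG2, h, hh⟩ := cut_spec hA hΓ (algebraMap L W) hH hLH
  have hkr : Kr g (cut (algebraMap L W) R) := hcard ▸ (hA.1 Γ _ hG1).1
  have hzS : zz L d ∈ cut (algebraMap L W) R := by
    rw [mem_cut, lmap_zz]
    exact hz
  have hhc : ∀ n (hn : n ∉ Γ) (m : ℤ), (h n).coeff m = ⟨(H n).coeff m, hGL n hn m⟩ := by
    intro n hn m
    apply Subtype.ext
    have h1 := congrArg (fun f : LaurentSeries W => f.coeff m) (hh n hn).1
    simp only [lmap_coeff] at h1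
    exact h1
  -- finite generation
  have hFG : L.FG := by
    let t : Finset W := Finset.univ.biUnion fun x : ZMod d × ZMod d × ZMod d =>
      (S x.1 x.2.1 x.2.2).coeffs
    refine ⟨t, le_antisymm ?_ ?_⟩
    · rw [IntermediateField.adjoin_le_iff]
      intro x hx
      obtain ⟨y, -, hy⟩ := Finset.mem_biUnion.1 (Finset.mem_coe.1 hx)
      obtain ⟨k, -, hk⟩ := mem_coeffs_iff.1 hy
      obtain ⟨c, hc⟩ := struct_mem hA hR hz hΓ hcard hPo (algebraMap L W) hH hLH N hN hN' S hS
        y.1 y.2.1 y.2.2 k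
      rw [hk, ← hc]
      exact c.2
    · rw [IntermediateField.adjoin_le_iff]
      rintro x ⟨n, hn, m, rfl⟩
      have hE : ∀ i j l k, (S i j l).coeff k ∈
          (IntermediateField.adjoin F (t : Set W)).toSubfield.toSubring := by
        intro i j l k
        by_cases h0 : (S i j l).coeff k = 0
        · rw [h0]
          exact zero_mem _
        · refine IntermediateField.subset_adjoin F _ ?_
          rw [Finset.mem_coe, Finset.mem_biUnion]
          exact ⟨(i, j, l), Finset.mem_univ _, coeff_mem_coeffs h0⟩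
      have hdE : ∃ c ∈ (IntermediateField.adjoin F (t : Set W)).toSubfield.toSubring,
          c * (d : W) = 1 := by
        refine ⟨((d : W))⁻¹, ?_, inv_mul_cancel₀ hcast.2⟩
        exact (IntermediateField.adjoin F (t : Set W)).inv_mem (natCast_mem _ d)
      exact H_mem hA hR hz hΓ hPo hH N hN hN' _ hdE S hS hE n hn m
  -- the discriminant
  have hDS : Disc d (cut (algebraMap L W) R) (∏ l, (X - C (algebraMap F L (r l)))) := by
    obtain ⟨⟨f, hf, hfD⟩, -, -⟩ := t_ZD2 L g d (cut (algebraMap L W) R) hd hcast.2 hkr hzS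
    have h1 := (t_ZDB hKBC L W (algebraMap L W) g d _ hd hkr hzS).2.2 f hfD
    rw [hG2] at h1
    have h2 : f.map (algebraMap L W) = ∏ l, (X - C (algebraMap F W (r l))) :=
      disc_unique hd hR (hf.map _) (monic_prod_of_monic _ _ fun l _ => monic_X_sub_C _) h1 hDisc
    have h3 : f = ∏ l, (X - C (algebraMap F L (r l))) := by
      apply map_injective (algebraMap L W) (algebraMap L W).injective
      rw [h2, Polynomial.map_prod]
      refine Finset.prod_congr rfl fun l _ => ?_
      rw [Polynomial.map_sub, map_X, map_C]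
      rfl
    rw [← h3]
    exact hfD
  have hCyc : Cyc d (cut (algebraMap L W) R) :=
    (hCYC hd hcast.2 _ hkr hzS).2 b (fun l => algebraMap F L (r l))
      ((algebraMap F L).injective.comp hr) hDS
  -- derivations
  have hess : Algebra.EssFiniteType F L := IntermediateField.essFiniteType_iff.2 hFG
  have hunr : Algebra.FormallyUnramified F L := by
    refine formallyUnramified_of fun D => ?_
    have hp : pder (D.restrictScalars ℤ) (∏ l, (X - C (algebraMap F L (r l)))) = 0 := by
      have h1 : (∏ l, (X - C (algebraMap F L (r l)))) =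
          (∏ l, (X - C (r l))).map (algebraMap F L) := by
        rw [Polynomial.map_prod]
        refine Finset.prod_congr rfl fun l _ => ?_
        rw [Polynomial.map_sub, map_X, map_C]
      ext n
      rw [pder_coeff, h1, coeff_map, Derivation.restrictScalars_apply, Derivation.map_algebraMap,
        coeff_zero]
    have h1 := (hBPB hd hcast.1 _ hkr hzS hCyc _ hDS (D.restrictScalars ℤ) 0
      ⟨0, by rw [hp, zero_mul, zero_mul, add_zero]⟩).2 rfl Γ
    have h2 : ∀ n (hn : n ∉ Γ) (m : ℤ), D ⟨(H n).coeff m, hGL n hn m⟩ = 0 := by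
      intro n hn m
      have h3 := h1 n (h n) hG1 (hh n hn).2 hn m
      rw [hhc n hn m] at h3
      exact h3
    ext ⟨x, hx⟩
    induction hx using IntermediateField.adjoin_induction with
    | mem x hx =>
      obtain ⟨n, hn, m, rfl⟩ := hx
      rw [h2 n hn m]
      rfl
    | algebraMap x =>
      have h3 : (⟨algebraMap F W x, algebraMap_mem _ _⟩ : L) = algebraMap F L x := rfl
      rw [h3, Derivation.map_algebraMap]
      rfl
    | add x y hx hy ihx ihy =>
      have h3 : (⟨x + y, add_mem hx hy⟩ : L) = ⟨x, hx⟩ + ⟨y, hy⟩ := rfl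
      have h4 : D (⟨x, hx⟩ : L) = 0 := Subtype.ext ihx
      have h5 : D (⟨y, hy⟩ : L) = 0 := Subtype.ext ihy
      rw [h3, map_add, h4, h5, add_zero]
      rfl
    | inv x hx ihx =>
      have h3 : (⟨x⁻¹, inv_mem hx⟩ : L) = (⟨x, hx⟩ : L)⁻¹ := rfl
      have h4 : D (⟨x, hx⟩ : L) = 0 := Subtype.ext ihx
      rw [h3, Derivation.leibniz_inv, h4, smul_zero]
      rfl
    | mul x y hx hy ihx ihy =>
      have h3 : (⟨x * y, mul_mem hx hy⟩ : L) = ⟨x, hx⟩ * ⟨y, hy⟩ := rfl
      have h4 : D (⟨x, hx⟩ : L) = 0 := Subtype.ext ihx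
      have h5 : D (⟨y, hy⟩ : L) = 0 := Subtype.ext ihy
      rw [h3, Derivation.leibniz, h4, h5, smul_zero, smul_zero, add_zero]
      rfl
  refine ⟨L, cut (algebraMap L W) R, Algebra.FormallyUnramified.finite_of_free F L,
    Algebra.FormallyUnramified.isSeparable F L, hkr, hzS, hG2, hDS, ?_⟩
  -- minimality
  intro M hM T hT hzT hTS
  have hGT : GS Γ T := hL.1 M.subtype T Γ hT (by rw [hTS]; exact hG1)
  have hcoef : ∀ n ∉ Γ, ∀ m : ℤ, (h n).coeff m ∈ M := by
    intro n hn m
    obtain ⟨x, hx⟩ := (hGT.ech n).exists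
    have h1 := (hA.2 M.subtype Γ T hGT).2 n x hx
    rw [hTS] at h1
    have h2 : lmap M.subtype x = h n := (hG1.ech n).unique h1 (hh n hn).2
    rw [← h2, lmap_coeff]
    exact (x.coeff m).2
  let M' : IntermediateField F L := M.toIntermediateField hM
  have hle : L ≤ M'.map L.val := by
    refine (IntermediateField.adjoin_le_iff).2 ?_
    rintro x ⟨n, hn, m, rfl⟩
    refine ⟨(h n).coeff m, hcoef n hn m, ?_⟩
    rw [hhc n hn m]
    rfl
  rw [eq_top_iff]
  rintro ⟨x, hx⟩ -
  obtain ⟨y, hy, hyx⟩ := hle hx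
  have h1 : (⟨x, hx⟩ : L) = y := Subtype.ext hyx.symm
  rw [h1]
  exact hy

end Pool.Agent.MG.G0


end

section

/-!
# UGN: genericity
-/

open Polynomial

namespace Pool.Agent.MG.G0

namespace UGN

section

open TensorProduct

theorem ext_der {R S T M : Type*} [CommRing R] [CommRing S] [CommRing T] [Algebra R S] [Algebra R T]
  [Algebra S T] [IsScalarTower R S T] [AddCommGroup M] [Module R M] [Module S M] [Module T M]
  [IsScalarTower S T M] [IsScalarTower R S M] [IsScalarTower R T M] [Algebra.FormallyEtale S T] (d : Derivation R S M) :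
    ∃ D : Derivation R T M, ∀ s, D (algebraMap S T s) = d s := by
  let l : KaehlerDifferential R S →ₗ[S] M := d.liftKaehlerDifferential
  let l' : KaehlerDifferential R T →ₗ[T] M := (LinearMap.liftBaseChange T l).comp
    (KaehlerDifferential.tensorKaehlerEquivOfFormallyEtale R S T).symm.toLinearMap
  refine ⟨l'.compDer (KaehlerDifferential.D R T), fun s => ?_⟩
  change l' (KaehlerDifferential.D R T (algebraMap S T s)) = d s
  simp only [l', LinearMap.comp_apply, LinearEquiv.coe_coe]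
  rw [KaehlerDifferential.tensorKaehlerEquivOfFormallyEtale_symm_D_algebraMap,
    LinearMap.liftBaseChange_tmul, one_smul]
  exact d.liftKaehlerDifferential_comp_D s

open scoped IntermediateField.algebraAdjoinAdjoin in
theorem etale {K ι : Type} [Field K] [Algebra ℂ K] (v : ι → K) (hv : IsTranscendenceBasis ℂ v) :
    Algebra.FormallyEtale (Algebra.adjoin ℂ (Set.range v)) K := by
  have hc : CharZero K := charZero_of_injective_algebraMap (algebraMap ℂ K).injective
  have h1 : Algebra.FormallyEtale (Algebra.adjoin ℂ (Set.range v))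
      (IntermediateField.adjoin ℂ (Set.range v)) := .of_isLocalization (nonZeroDivisors _)
  have h0 : Algebra.IsAlgebraic (Algebra.adjoin ℂ (Set.range v)) K := hv.isAlgebraic
  have h2 : Algebra.IsAlgebraic (IntermediateField.adjoin ℂ (Set.range v)) K :=
    hv.isAlgebraic_field
  have h3 : Algebra.FormallyEtale (IntermediateField.adjoin ℂ (Set.range v)) K :=
    Algebra.FormallyEtale.of_isSeparable _ K
  exact .comp _ (IntermediateField.adjoin ℂ (Set.range v)) _

theorem ex_der {K : Type} [Field K] [Algebra ℂ K] {b : ℕ} (r : Fin b → K)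
    (hr : AlgebraicIndependent ℂ r) (c : Fin b → K) :
    ∃ δ : Derivation ℂ K K, ∀ l, δ (r l) = c l := by
  classical
  have hri : Function.Injective r := hr.injective
  obtain ⟨t, hst, ht⟩ := exists_isTranscendenceBasis_superset (R := ℂ) (s := Set.range r)
    hr.coe_range
  let v : t → K := fun x => (x : K)
  have hv : IsTranscendenceBasis ℂ v := ht
  have het := etale v hv
  let e := hv.1.aevalEquiv
  let A0 := Algebra.adjoin ℂ (Set.range v)
  let _ : Module (MvPolynomial t ℂ) K := Module.compHom K ((e : MvPolynomial t ℂ ≃ₐ[ℂ] A0) : MvPolynomial t ℂ →+* A0)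
  have hsm : ∀ (p : MvPolynomial t ℂ) (x : K), p • x = e p • x := fun _ _ => rfl
  have hst' : IsScalarTower ℂ (MvPolynomial t ℂ) K := ⟨fun a p x => by
    rw [hsm, hsm, map_smul, smul_assoc]⟩
  let w : t → K := fun x => if h : ∃ l, r l = (x : K) then c h.choose else 0
  let d0 : Derivation ℂ (MvPolynomial t ℂ) K := MvPolynomial.mkDerivation ℂ w
  let d : Derivation ℂ A0 K :=
    { toFun := fun x => d0 (e.symm x)
      map_add' := fun x y => by rw [map_add, map_add]
      map_smul' := fun a x => by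
        rw [map_smul, RingHom.id_apply]
        exact d0.toLinearMap.map_smul a _
      map_one_eq_zero' := by
        show d0 (e.symm 1) = 0
        rw [map_one, Derivation.map_one_eq_zero]
      leibniz' := fun x y => by
        show d0 (e.symm (x * y)) = x • d0 (e.symm y) + y • d0 (e.symm x)
        rw [map_mul, Derivation.leibniz, hsm, hsm, e.apply_symm_apply, e.apply_symm_apply] }
  obtain ⟨D, hD⟩ := ext_der (R := ℂ) (S := A0) (T := K) d
  refine ⟨D, fun l => ?_⟩
  have hl : r l ∈ t := hst (Set.mem_range_self l)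
  have h1 : (e (MvPolynomial.X ⟨r l, hl⟩) : K) = r l := by
    rw [AlgebraicIndependent.aevalEquiv_apply_coe, MvPolynomial.aeval_X]
  have h2 : D (r l) = d (e (MvPolynomial.X ⟨r l, hl⟩)) := by
    rw [← hD]
    congr 1
    exact h1.symm
  have h3 : d (e (MvPolynomial.X ⟨r l, hl⟩)) = w ⟨r l, hl⟩ := by
    show d0 (e.symm (e (MvPolynomial.X ⟨r l, hl⟩))) = _
    rw [e.symm_apply_apply]
    exact MvPolynomial.mkDerivation_X ℂ w _
  rw [h2, h3]
  have hex : ∃ l', r l' = r l := ⟨l, rfl⟩
  have h4 : w ⟨r l, hl⟩ = c hex.choose := dif_pos hex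
  rw [h4, hri hex.choose_spec]

end

/-! ### polynomials -/

section

variable {K : Type} [Field K] (δ : Derivation ℤ K K)

theorem pder_one : pder δ (1 : K[X]) = 0 := by
  ext n
  rw [pder_coeff, coeff_one, coeff_zero]
  split_ifs
  · exact δ.map_one_eq_zero
  · exact map_zero δ

theorem pder_X_sub (c : K) (q : K[X]) :
    pder δ ((X - C c) * q) = (X - C c) * pder δ q - C (δ c) * q := by
  ext n
  rw [pder_coeff, sub_mul, coeff_sub, coeff_sub, sub_mul, coeff_sub, coeff_C_mul, coeff_C_mul,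
    coeff_C_mul, pder_coeff, map_sub, Derivation.leibniz, smul_eq_mul, smul_eq_mul]
  cases n with
  | zero =>
    rw [coeff_X_mul_zero, coeff_X_mul_zero, map_zero]
    ring
  | succ n =>
    rw [coeff_X_mul, coeff_X_mul, pder_coeff]
    ring

theorem ex_v {b : ℕ} (r : Fin b → K) (a : K[X]) (h : ∀ l, δ (r l) = a.eval (r l))
    (s : Finset (Fin b)) : ∃ v : K[X], pder δ (∏ l ∈ s, (X - C (r l))) +
      a * derivative (∏ l ∈ s, (X - C (r l))) = v * ∏ l ∈ s, (X - C (r l)) := by
  classical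
  induction s using Finset.induction_on with
  | empty =>
    refine ⟨0, ?_⟩
    rw [Finset.prod_empty, pder_one, derivative_one]
    ring
  | insert l s hl ih =>
    obtain ⟨v, hv⟩ := ih
    obtain ⟨u, hu⟩ := X_sub_C_dvd_sub_C_eval (a := r l) (p := a)
    refine ⟨v + u, ?_⟩
    rw [Finset.prod_insert hl, pder_X_sub, h l, derivative_mul, derivative_sub, derivative_X,
      derivative_C]
    have h1 : a = C (eval (r l) a) + (X - C (r l)) * u := by rw [← hu]; ring
    linear_combination (X - C (r l)) * hv + (∏ l ∈ s, (X - C (r l))) * h1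

end

/-! ### series -/

section

variable {K : Type} [Field K]

theorem ld_zz {d : ℕ} : ld (zz K d) = HahnSeries.single (-((d : ℤ) + 1)) (-(d : K)) := by
  ext m
  rw [ld_coeff, zz]
  by_cases hm : m = -((d : ℤ) + 1)
  · subst hm
    have h3 : -((d : ℤ) + 1) + 1 = -(d : ℤ) := by ring
    rw [h3, HahnSeries.coeff_single_same, HahnSeries.coeff_single_same]
    push_cast
    ring
  · rw [HahnSeries.coeff_single_of_ne hm, HahnSeries.coeff_single_of_ne (by omega), mul_zero]

theorem one_eq : (HahnSeries.single (0 : ℤ) (1 : K) : LaurentSeries K) = 1 := rfl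

theorem ui_mul {d : ℕ} (hd : (d : K) ≠ 0) :
    (HahnSeries.single ((d : ℤ) + 1) (-(d : K)⁻¹) : LaurentSeries K) * ld (zz K d) = 1 := by
  have h3 : (d : ℤ) + 1 + -((d : ℤ) + 1) = 0 := by ring
  rw [ld_zz, HahnSeries.single_mul_single, ← one_eq, h3, neg_mul_neg, inv_mul_cancel₀ hd]

theorem dz_mul {d : ℕ} (hd : 0 < d) (hdk : (d : K) ≠ 0) (h : LaurentSeries K) :
    dz K d 1 h * ld (zz K d) = ld h := by
  have h1 := (t_PSI (A := K) d hd (IsUnit.mk0 _ hdk)).1 h
  have h2 : ld (zz K d) = (d : K) • HahnSeries.single (-((d : ℤ) + 1)) (-1 : K) := by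
    rw [ld_zz]
    ext m
    rw [HahnSeries.coeff_smul, HahnSeries.coeff_single, HahnSeries.coeff_single]
    split_ifs
    · rw [smul_eq_mul, mul_neg_one]
    · rw [smul_zero]
  rw [h2, mul_smul_comm, ← smul_mul_assoc, h1, neg_mul, mul_comm _ (ld h), mul_assoc,
    HahnSeries.single_mul_single]
  have h3 : (d : ℤ) + 1 + -((d : ℤ) + 1) = 0 := by ring
  have h4 : (HahnSeries.single (0 : ℤ) (-1 : K) : LaurentSeries K) = -1 := by
    rw [← one_eq, HahnSeries.single_neg]
  rw [h3, one_mul, h4]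
  ring

theorem mul_single_mem {y : LaurentSeries K} {n : ℤ} (hy : y ∈ Po K n) (c : K) :
    HahnSeries.single n c * y ∈ Po K 0 := by
  intro m hm
  have h1 : m = (m - n) + n := by ring
  rw [mul_comm, h1, HahnSeries.coeff_mul_single_add, hy _ (by omega), zero_mul]

end

end UGN

open _root_.Pool.Agent.MG.G0.UGN in
theorem t_UGN (hSCO : Stmt_SCO) (hSKK : Stmt_SKK) (hKIL : Stmt_KIL) (hKIS : Stmt_KIS)
    (hKGP : Stmt_KGP) (hBPB : Stmt_BPB) (hCYC : Stmt_CYC) (hUZT : Stmt_UZT) : Stmt_UGN := by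
  intro K _ _ _ g d b R r hd hgd hKr hz hDisc hr
  have hc : CharZero K := charZero_of_injective_algebraMap (algebraMap ℂ K).injective
  have hdK : (d : K) ≠ 0 := Nat.cast_ne_zero.2 (by omega)
  have hdf : ((d.factorial : ℕ) : K) ≠ 0 := Nat.cast_ne_zero.2 d.factorial_ne_zero
  have h2d : ((2 * d : ℕ) : K) ≠ 0 := Nat.cast_ne_zero.2 (by omega)
  have hinj : Function.Injective r := hr.injective
  have hsep : (∏ l, (X - C (r l)) : K[X]).Separable := separable_prod_X_sub_C_iff.2 hinj
  have hKil := hKIL.1 hd (IsUnit.mk0 _ hdK) hKr hz hDisc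
  have hSm : SmC K (uno R) := (hKIS hd hdf hKr hz hKil hsep).2
  have hCyc : Cyc d R := (hCYC (by omega) hdK R hKr hz).2 b r hinj hDisc
  obtain ⟨-, hU, -⟩ := hUZT hd hdf hKr hz hDisc hsep
  intro δ
  obtain ⟨-, -, hlift⟩ := hSCO.2 hSm
  obtain ⟨E', hE'⟩ := hlift (KK Unit K) (MM (uno R)) (mk (uno R)) (mk_surj _) δ
  obtain ⟨θ, hθ, -⟩ := (hSKK hKr).2 hSm E'
  -- the decomposition
  have hdense : ∃ p ∈ R, θ () * ld (zz K d) - p ∈ Po K ((d : ℤ) + 1) := by
    rcases Nat.eq_zero_or_pos g with h0 | h0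
    · subst h0
      obtain ⟨-, L, -, hL⟩ := Kr_iff.1 hKr
      obtain ⟨p, hp, hp'⟩ := (hL (θ () * ld (zz K d))).1 (Subsingleton.elim _ _)
      exact ⟨p, hp, fun m hm => hp' m (by omega)⟩
    · obtain ⟨p, hp, hp'⟩ := hKGP h0 hKr (fun _ => θ () * ld (zz K d))
      refine ⟨p (), hp, fun m hm => ?_⟩
      exact hp' () m (by omega)
  obtain ⟨p, hp, hpo⟩ := hdense
  obtain ⟨a, θ', hθ', hpa⟩ := hU p hp
  set ui : LaurentSeries K := HahnSeries.single ((d : ℤ) + 1) (-(d : K)⁻¹) with hui
  have hu1 : ui * ld (zz K d) = 1 := ui_mul hdK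
  set o : LaurentSeries K := ui * (θ () * ld (zz K d) - p) with ho
  have hoPo : o ∈ Po K 0 := mul_single_mem hpo _
  have hθo : θ () = zpol K d a * ui + θ' + o := by
    have h1 : o = θ () * (ui * ld (zz K d)) - ui * p := by rw [ho]; ring
    rw [hu1, mul_one] at h1
    have h2 : ui * p = zpol K d a * ui + θ' * (ui * ld (zz K d)) := by rw [hpa]; ring
    rw [hu1, mul_one] at h2
    rw [h1, h2]
    ring
  obtain ⟨D0, hD0⟩ := ex_der r hr fun l => a.eval (r l)
  obtain ⟨v, hv⟩ := ex_v (D0.restrictScalars ℤ) r a hD0 Finset.univ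
  have hB := (hBPB (by omega) h2d R hKr hz hCyc _ hDisc (D0.restrictScalars ℤ) a ⟨v, hv⟩).1
  refine ⟨-D0, fun _ => o, mem_Pol_unit.2 hoPo, fun f => ?_⟩
  rw [← hE' f, ← map_add, mk_eq, mem_uno, hθ f]
  have hx : (f : KK Unit K) () ∈ R := f.2
  have h1 := hB _ hx
  have h2 := hθ' _ hx
  have h3 := dz_mul (by omega : 0 < d) hdK ((f : KK Unit K) ())
  have h4 : (kadd ((-D0 : Derivation ℂ K K) : K →+ K) (f : KK Unit K)) () =
      -cder (D0.restrictScalars ℤ) ((f : KK Unit K) ()) := by
    ext m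
    rw [HahnSeries.coeff_neg]
    rfl
  have h5 : (θ * dd (f : KK Unit K) -
      (kadd ((-D0 : Derivation ℂ K K) : K →+ K) (f : KK Unit K) +
        (fun _ => o) * dd (f : KK Unit K)) : KK Unit K) () =
      (cder (D0.restrictScalars ℤ) ((f : KK Unit K) ()) +
        zpol K d a * dz K d 1 ((f : KK Unit K) ())) + θ' * ld ((f : KK Unit K) ()) := by
    rw [Pi.sub_apply, Pi.add_apply, Pi.mul_apply, Pi.mul_apply, h4, hθo]
    change (zpol K d a * ui + θ' + o) * ld ((f : KK Unit K) ()) - (_ + o * ld _) = _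
    have h6 : ui * ld ((f : KK Unit K) ()) = dz K d 1 ((f : KK Unit K) ()) := by
      rw [← h3, mul_comm (dz K d 1 _), ← mul_assoc, hu1, one_mul]
    rw [← h6]
    ring
  rw [h5]
  exact add_mem h1 h2

end Pool.Agent.MG.G0


end

section

/-!
# USX: the polarised value exists
-/

open Polynomial

namespace Pool.Agent.MG.G0

namespace USX

theorem kbc : Stmt_KBC := t_KBC (t_KFO t_KDU) t_KNZ (t_KSP t_KNZ)

section

variable {I A B : Type} [CommRing A] [CommRing B]

/-- Over a smooth ring all first order deformations are `θ d/dτ`. -/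
theorem ex_th [Fintype I] {g : ℕ} {P : Subalgebra A (KK I A)} (hSCO : Stmt_SCO)
    (hSKK : Stmt_SKK) (hP : IsKr g P) (hs : SmC A P) (D : DD P) :
    ∃ θ : KK I A, D = tder P θ := by
  obtain ⟨E, hE⟩ := (hSCO.2 hs).2.2 (KK I A) (MM P) (mk P) (mk_surj P) D
  obtain ⟨θ, hθ, -⟩ := (hSKK hP).2 hs E
  refine ⟨θ, Derivation.ext fun f => ?_⟩
  rw [tder_apply, ← hE f, hθ f]

theorem ex_bc [Fintype I] [Nonempty I] {g : ℕ} {P : Subalgebra A (KK I A)} (hSCO : Stmt_SCO)
    (hSKK : Stmt_SKK) (hSDB : Stmt_SDB) (hP : IsKr g P) (hs : SmC A P) (φ : A →+* B)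
    (D : DD (bc φ P)) : ∃ θ : KK I B, φ 1 • D = tder (bc φ P) θ := by
  obtain ⟨θ, hθ⟩ := ex_th hSCO hSKK (kbc.2.2.2 hP φ).1 (hSDB hP hs φ).1 D
  exact ⟨θ, by rw [map_one, one_smul, hθ]⟩

/-- Regular differentials of the curve with one puncture. -/
noncomputable def ee (R : Subalgebra A (LaurentSeries A)) : EE1 R →ₗ[A] EE (uno R) where
  toFun ω := ⟨fun _ => (ω : LaurentSeries A), mem_EE_uno.2 ω.2⟩
  map_add' _ _ := rfl
  map_smul' _ _ := rfl

theorem ee_apply (R : Subalgebra A (LaurentSeries A)) (ω : EE1 R) :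
    (ee R ω : KK Unit A) = fun _ => (ω : LaurentSeries A) := rfl

end

end USX

open _root_.Pool.Agent.MG.G0.USX in
theorem t_USX (hSCO : Stmt_SCO) (hSKK : Stmt_SKK) (hSDB : Stmt_SDB) (_ : Stmt_HV1)
    (hHV2 : Stmt_HV2) (hUGL : Stmt_UGL) : Stmt_USX := by
  intro L _ _ g d R f E m hd hR hz hD hf
  have hc : CharZero L := charZero_of_injective_algebraMap (algebraMap ℂ L).injective
  obtain ⟨hG, hs, -, hPO, -⟩ := hUGL hd hR hz hD hf
  have hP : IsKr g (uno R) := hR
  obtain ⟨-, h2⟩ := hHV2 E (P := uno R) (1 : L) hG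
    (fun φ D => ex_bc hSCO hSKK hSDB hP hs φ D) m
  obtain ⟨G, hGv⟩ := h2 (fun ω hω => by
    rw [one_smul]
    exact hPO hω.1)
  refine ⟨(G.compLinearMap fun _ => ee R).domDomCongr finSumFinEquiv, ?_⟩
  intro ω ω' x hx
  have h := hGv (fun s => ee R (Fin.append ω ω' (finSumFinEquiv s))) x (by
    have e1 : (fun i : Fin m => ((ee R (Fin.append ω ω' (finSumFinEquiv (Sum.inl i))) :
        EE (uno R)) : KK Unit L)) = fun i _ => (ω i : LaurentSeries L) := by
      funext i
      rw [finSumFinEquiv_apply_left, Fin.append_left, ee_apply]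
    have e2 : (fun i : Fin m => ((ee R (Fin.append ω ω' (finSumFinEquiv (Sum.inr i))) :
        EE (uno R)) : KK Unit L)) = fun i _ => (ω' i : LaurentSeries L) := by
      funext i
      rw [finSumFinEquiv_apply_right, Fin.append_right, ee_apply]
    rw [e1, e2]
    exact hx)
  rw [one_mul] at h
  rw [← h]
  rfl

end Pool.Agent.MG.G0


end
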