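import Mathlib
import Pool.Agent.KDM.C02
import Pool.Agent.KDM.C11
import Pool.Agent.KDM.C13
import Pool.Agent.KDM.C15
import Pool.Agent.KDM.C18
import Pool.Agent.KDM.C19
import Pool.Agent.KDM.C22
import Pool.Agent.KDM.C25
import Pool.Agent.KDM.C28
import Pool.Agent.KDM.C30
import Pool.Agent.KDM.C33
import Pool.Agent.KDM.C34

/-! Parts: MG.H2.EndA, MG.H2.EndB, MG.KX.MFG, MG.G0.KFL, MG.KX.PDK, MG.G0.GDV, MG.G0.NKE -/

section

/-!
# From families of curves `y² = f(x)` with their covectors to the algebraic data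
-/

open CategoryTheory CategoryTheory.Limits AlgebraicGeometry Polynomial

namespace Pool.Agent.MG.H2

open Pool.Agent.MG.Two2

/-! ## Transport of covectors along isomorphisms -/

section

variable {g n : ℕ} {A : Type} [CommRing A]

theorem epsMap_id : epsMap (RingHom.id A) = RingHom.id (Eps A) := by
  refine RingHom.ext fun z => TrivSqZeroExt.ext ?_ ?_
  · change (TrivSqZeroExt.inl z.fst + TrivSqZeroExt.inr z.snd : TrivSqZeroExt A A).fst = z.fst
    simp
  · change (TrivSqZeroExt.inl z.fst + TrivSqZeroExt.inr z.snd : TrivSqZeroExt A A).snd = z.snd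
    simp

/-- The composite of an arrow over the identity and an arrow. -/
noncomputable def precomp {B : Type} [CommRing B] {φ : B →+* A} {x y : Fam n A} {z : Fam n B}
    (f : Arrow (RingHom.id A) y x) (r : Arrow φ x z) : Arrow φ y z where
  f := f.f ≫ r.f
  cart := by
    have h := IsPullback.paste_vert f.cart.flip r.cart.flip
    have h2 : spMap (RingHom.id A) = 𝟙 (Sp A) := Spec.map_id _
    rw [h2, Category.id_comp] at h
    exact h.flip
  sec i := by
    have h2 : spMap (RingHom.id A) = 𝟙 (Sp A) := Spec.map_id _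
    rw [← Category.assoc, f.sec, h2, Category.id_comp, r.sec]

/-- A deformation of `x` as a deformation of `y`. -/
noncomputable def Defo.pre {x y : Fam n A} (f : Arrow (RingHom.id A) y x) (d : Defo g x) :
    Defo g y :=
  ⟨d.y, d.stable, precomp f d.r⟩

/-- The transport of a covector along an isomorphism. -/
noncomputable def covPre {x y : Fam n A} (f : Arrow (RingHom.id A) y x) (l : Cov g y) :
    Cov g x where
  l d := l.l (Defo.pre f d)
  iso d d' e he := l.iso _ _ e (by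
    change (f.f ≫ d.r.f) ≫ e.f = f.f ≫ d'.r.f
    rw [Category.assoc, he])
  scale a d d' e he := l.scale a _ _ e (by
    change (f.f ≫ d'.r.f) ≫ e.f = f.f ≫ d.r.f
    rw [Category.assoc, he])
  add z hz r d₁ d₂ d f₁ f₂ f₃ h₁ h₂ h₃ := l.add z hz (precomp f r) _ _ _ f₁ f₂ f₃
    (by
      change (f.f ≫ d₁.r.f) ≫ f₁.f = f.f ≫ r.f
      rw [Category.assoc, h₁])
    (by
      change (f.f ≫ d₂.r.f) ≫ f₂.f = f.f ≫ r.f
      rw [Category.assoc, h₂])
    (by
      change (f.f ≫ d.r.f) ≫ f₃.f = f.f ≫ r.f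
      rw [Category.assoc, h₃])

theorem covPre_compat {x y : Fam n A} (f : Arrow (RingHom.id A) y x) (l : Cov g y) :
    Compat f l (covPre f l) := by
  intro d' d e he
  have key : ∀ (φ : Eps A →+* Eps A) (_ : φ = RingHom.id (Eps A)) (e : Arrow φ d'.y d.y),
      d'.r.f ≫ e.f = f.f ≫ d.r.f → l.l d' = l.l (Defo.pre f d) := by
    intro φ hφ e he
    subst hφ
    exact l.iso d' (Defo.pre f d) e he
  exact key _ epsMap_id e he

theorem val_transport [Algebra ℂ A] (F : Reg g n) {x y : Fam n A}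
    (f : Arrow (RingHom.id A) y x) (hx : IsStable g x) (hy : IsStable g y) (l : Cov g y) :
    F.F A y hy l = F.F A x hx (covPre f l) :=
  F.nat A A (AlgHom.id ℂ A) x y hx hy f (covPre f l) l (covPre_compat f l)

end

/-! ## The interface -/

/-- The curves `y² = f(x)`, `f` without double roots on the projective line, with the covectors
`q(x) (dx)²/f(x)`, and a family in which they degenerate to two elliptic curves. -/
structure Mdl where
  /-- the curve `y² = f(x)` -/
  crv : ∀ {B : Type} [CommRing B], B[X] → Fam 0 B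
  st : ∀ {B : Type} [CommRing B] [Algebra ℂ B] (f : B[X]), Two2.Good f → IsStable 2 (crv f)
  /-- the covector -/
  cov : ∀ {B : Type} [CommRing B] [Algebra ℂ B] (f : B[X]), Two2.Good f → B[X] → Cov 2 (crv f)
  bc : ∀ {B B' : Type} [CommRing B] [Algebra ℂ B] [CommRing B'] [Algebra ℂ B'] (φ : B →ₐ[ℂ] B')
    (f q : B[X]) (hf : Two2.Good f) (hf' : Two2.Good (f.map (φ : B →+* B'))), q.natDegree ≤ 2 →
    ∃ a : Arrow (φ : B →+* B') (crv (f.map (φ : B →+* B'))) (crv f),
      Compat a (cov (f.map (φ : B →+* B')) hf' (q.map (φ : B →+* B'))) (cov f hf q)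
  sc : ∀ {B : Type} [CommRing B] [Algebra ℂ B] (a b : B) (f q f' q' : B[X]) (hf : Two2.Good f)
    (hf' : Two2.Good f'), IsUnit a → IsUnit b → q.natDegree ≤ 2 → q'.natDegree ≤ 2 →
    C (b ^ 2) * f' = f.comp (C a * X) →
    C (b ^ 2) * q' = C (a ^ 2) * q.comp (C a * X) →
    ∃ r : Arrow (RingHom.id B) (crv f') (crv f), Compat r (cov f' hf' q') (cov f hf q)
  tr : ∀ {B : Type} [CommRing B] [Algebra ℂ B] (e : B) (f q : B[X]) (hf : Two2.Good f)
    (hf' : Two2.Good (f.comp (X + C e))), e * e = 0 → q.natDegree ≤ 2 →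
    ∃ r : Arrow (RingHom.id B) (crv (f.comp (X + C e))) (crv f),
      Compat r (cov _ hf' (q.comp (X + C e))) (cov f hf q)
  inv : ∀ {B : Type} [CommRing B] [Algebra ℂ B] (f q : B[X]) (hf : Two2.Good f)
    (hf' : Two2.Good (f.reflect 6)), q.natDegree ≤ 2 →
    ∃ r : Arrow (RingHom.id B) (crv (f.reflect 6)) (crv f),
      Compat r (cov _ hf' (q.reflect 2)) (cov f hf q)
  reg : ∀ {B K : Type} [CommRing B] [IsDomain B] [Field K] [Algebra ℂ B] [Algebra ℂ K]
    (φ : B →ₐ[ℂ] K), Function.Injective φ → ∀ (s : B) (ρ r e : Fin 3 → B), s ≠ 0 →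
    (∀ i j, i ≠ j → IsUnit (ρ i - ρ j)) → (∀ i j, i ≠ j → IsUnit (r i - r j)) →
    (∀ j, IsUnit (r j)) → (∀ i j, IsUnit (r j - s ^ 2 * ρ i)) →
    ∀ (hf : Two2.Good (((∏ i, (X - C (ρ i))) *
      ∏ j, (C (s ^ 2) * X - C (r j)) : B[X]).map (φ : B →+* K))),
    ∃ (x : Fam 0 B) (_ : IsStable 2 x) (l : Cov 2 x) (a : Arrow (φ : B →+* K)
      (crv (((∏ i, (X - C (ρ i))) *
      ∏ j, (C (s ^ 2) * X - C (r j)) : B[X]).map (φ : B →+* K))) x),
      Compat a (cov _ hf ((C (e 0) + C (s * e 1) * X +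
        C (s ^ 2 * e 2) * X ^ 2 : B[X]).map (φ : B →+* K))) l
  surj : ∀ {K : Type} [Field K] [IsAlgClosed K] [Algebra ℂ K] (r : Fin 6 → K)
    (_ : Function.Injective r) (hf : Two2.Good (∏ i, (X - C (r i))))
    (l : Cov 2 (crv (∏ i, (X - C (r i))))),
    ∃ q : K[X], q.natDegree ≤ 2 ∧ l = cov (∏ i, (X - C (r i))) hf q
  link : ∀ {K : Type} [Field K] [IsAlgClosed K] [Algebra ℂ K] (r : Fin 6 → K),
    Function.Injective r →
    ∃ a : Arrow (RingHom.id K) (Hyp (rts r)) (crv (∏ i, (X - C (r i)))), IsIso a.f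

end Pool.Agent.MG.H2


end

section

/-!
# The values of a regular function on the curves `y² = f(x)`
-/

open CategoryTheory CategoryTheory.Limits AlgebraicGeometry Polynomial

namespace Pool.Agent.MG.H2

open Pool.Agent.MG.Two2

namespace Mdl

open Classical in
/-- The value of `F` at the curve `y² = f(x)` and the covector of `q`. -/
noncomputable def S (M : Mdl) (F : Reg 2 0) (B : Type) [CommRing B] [Algebra ℂ B] (f q : B[X]) :
    B :=
  if h : Two2.Good f then F.F B (M.crv f) (M.st f h) (M.cov f h q) else 0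

variable (M : Mdl) (F : Reg 2 0)

theorem S_good {B : Type} [CommRing B] [Algebra ℂ B] {f : B[X]} (h : Two2.Good f) (q : B[X]) :
    M.S F B f q = F.F B (M.crv f) (M.st f h) (M.cov f h q) :=
  dif_pos h

theorem S_arrow {B : Type} [CommRing B] [Algebra ℂ B] {f f' : B[X]} (hf : Two2.Good f)
    (hf' : Two2.Good f') (q q' : B[X]) (r : Arrow (RingHom.id B) (M.crv f') (M.crv f))
    (h : Compat r (M.cov f' hf' q') (M.cov f hf q)) : M.S F B f' q' = M.S F B f q := by
  rw [M.S_good F hf, M.S_good F hf']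
  exact F.nat B B (AlgHom.id ℂ B) _ _ (M.st f hf) (M.st f' hf') r _ _ h

theorem S_nat (B B' : Type) [CommRing B] [Algebra ℂ B] [CommRing B'] [Algebra ℂ B']
    (φ : B →ₐ[ℂ] B') (f q : B[X]) (hf : Two2.Good f) (hq : q.natDegree ≤ 2) :
    M.S F B' (f.map (φ : B →+* B')) (q.map (φ : B →+* B')) = φ (M.S F B f q) := by
  rw [M.S_good F hf, M.S_good F (hf.map _)]
  obtain ⟨a, ha⟩ := M.bc φ f q hf (hf.map _) hq
  exact F.nat B B' φ _ _ (M.st f hf) (M.st _ (hf.map _)) a _ _ ha

theorem S_scal (B : Type) [CommRing B] [Algebra ℂ B] (u : B) (f q : B[X]) (hu : IsUnit u)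
    (hf : Two2.Good f) (hq : q.natDegree ≤ 2) :
    M.S F B (C (u ^ 2) * f) (C (u ^ 2) * q) = M.S F B f q := by
  obtain ⟨v, hv⟩ := hu.exists_right_inv
  have hvu : IsUnit v := IsUnit.of_mul_eq_one u (by rw [mul_comm]; exact hv)
  have hf' : Two2.Good (C (u ^ 2) * f) := hf.cmul (hu.pow 2)
  have e : ∀ p : B[X], C (v ^ 2) * (C (u ^ 2) * p) = p := by
    intro p
    rw [← mul_assoc, ← C_mul, ← mul_pow, mul_comm v u, hv, one_pow, C_1, one_mul]
  obtain ⟨r, hr⟩ := M.sc 1 v f q (C (u ^ 2) * f) (C (u ^ 2) * q) hf hf' isUnit_one hvu hq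
    ((natDegree_C_mul_le _ _).trans hq) (by rw [e]; simp) (by rw [e]; simp)
  exact M.S_arrow F hf hf' _ _ r hr

theorem S_tr0 {B : Type} [CommRing B] [Algebra ℂ B] (e : B) (f q : B[X]) (hf : Two2.Good f)
    (he : e * e = 0) (hq : q.natDegree ≤ 2) :
    M.S F B (f.comp (X + C e)) (q.comp (X + C e)) = M.S F B f q := by
  obtain ⟨r, hr⟩ := M.tr e f q hf (hf.shift e) he hq
  exact M.S_arrow F hf (hf.shift e) _ _ r hr

end Mdl

/-- A polynomial over a `ℂ`-algebra with derivative zero is constant. -/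
theorem eq_C_of_der {B : Type} [CommRing B] [Algebra ℂ B] {P : B[X]} (h : derivative P = 0) :
    P = C (P.coeff 0) := by
  ext n
  rcases n with _ | n
  · simp
  · rw [coeff_C_succ]
    have h1 := congrArg (fun p => coeff p n) h
    simp only [coeff_derivative, coeff_zero] at h1
    have h2 : IsUnit ((n : B) + 1) := by
      have : IsUnit (algebraMap ℂ B ((n : ℂ) + 1)) :=
        (IsUnit.mk0 _ (by exact_mod_cast Nat.succ_ne_zero n)).map _
      simpa using this
    exact h2.mul_left_eq_zero.1 h1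

/-- A polynomial with `P(T + ε) = P(T)` is constant. -/
theorem eq_C_of_eps {B : Type} [CommRing B] [Algebra ℂ B] {P : B[X]}
    (h : P.eval₂ ((TrivSqZeroExt.inlHom B[X] B[X]).comp C)
      (TrivSqZeroExt.inl X + TrivSqZeroExt.inr 1) =
      P.eval₂ ((TrivSqZeroExt.inlHom B[X] B[X]).comp C) (TrivSqZeroExt.inl X)) :
    P = C (P.coeff 0) := by
  refine eq_C_of_der ?_
  set i : B →+* TrivSqZeroExt B[X] B[X] := (TrivSqZeroExt.inlHom B[X] B[X]).comp C with hi
  have hsq : (TrivSqZeroExt.inr 1 : TrivSqZeroExt B[X] B[X]) ^ 2 = 0 := by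
    rw [sq, TrivSqZeroExt.inr_mul_inr]
  have h1 := Polynomial.eval_add_of_sq_eq_zero (P.map i) (TrivSqZeroExt.inl X) _ hsq
  rw [Polynomial.eval_map, Polynomial.eval_map, h, derivative_map, Polynomial.eval_map] at h1
  have h2 : eval₂ i (TrivSqZeroExt.inl X) (derivative P) =
      TrivSqZeroExt.inl (derivative P) := by
    have := Polynomial.hom_eval₂ (derivative P) (C : B →+* B[X])
      (TrivSqZeroExt.inlHom B[X] B[X]) X
    rw [eval₂_C_X] at this
    exact this.symm
  rw [h2] at h1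
  have h3 := congrArg TrivSqZeroExt.snd h1
  simpa using h3

namespace Mdl

variable (M : Mdl) (F : Reg 2 0)

theorem comp_map {B B' : Type} [CommRing B] [CommRing B'] (φ : B →+* B') (f : B[X]) (t : B) :
    (f.comp (X + C t)).map φ = (f.map φ).comp (X + C (φ t)) := by
  rw [Polynomial.map_comp]
  simp

theorem S_trans (B : Type) [CommRing B] [Algebra ℂ B] (t : B) (f q : B[X]) (hf : Two2.Good f)
    (hq : q.natDegree ≤ 2) : M.S F B (f.comp (X + C t)) (q.comp (X + C t)) = M.S F B f q := by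
  -- over `B[T]`
  set f1 : (B[X])[X] := f.map (C : B →+* B[X]) with hf1
  set q1 : (B[X])[X] := q.map (C : B →+* B[X]) with hq1
  have hg1 : Two2.Good f1 := hf.map _
  have hd1 : q1.natDegree ≤ 2 := natDegree_map_le.trans hq
  set P : B[X] := M.S F B[X] (f1.comp (X + C X)) (q1.comp (X + C X)) with hP
  have hdc : ∀ {R : Type} [CommRing R] (s : R) (p : R[X]), p.natDegree ≤ 2 →
      (p.comp (X + C s)).natDegree ≤ 2 := by
    intro R _ s p hp
    refine natDegree_comp_le.trans ?_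
    have : (X + C s : R[X]).natDegree ≤ 1 :=
      natDegree_add_le_of_degree_le natDegree_X_le (by simp)
    nlinarith
  -- evaluation
  have hev : ∀ s : B, P.eval s = M.S F B (f.comp (X + C s)) (q.comp (X + C s)) := by
    intro s
    let ev : B[X] →ₐ[ℂ] B :=
      { (Polynomial.evalRingHom s) with
        commutes' := fun c => by
          change Polynomial.eval s (algebraMap ℂ B[X] c) = _
          rw [IsScalarTower.algebraMap_apply ℂ B B[X]]
          exact eval_C }
    have h := M.S_nat F B[X] B ev (f1.comp (X + C X)) (q1.comp (X + C X)) (hg1.shift _)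
      (hdc _ _ hd1)
    have e1 : ∀ p : B[X], ((p.map (C : B →+* B[X])).comp (X + C X)).map (ev : B[X] →+* B) =
        p.comp (X + C s) := by
      intro p
      rw [comp_map, Polynomial.map_map]
      have h1 : (ev : B[X] →+* B).comp (C : B →+* B[X]) = RingHom.id B := by
        ext b
        exact eval_C
      have h2 : (ev : B[X] →+* B) X = s := eval_X
      rw [h1, h2, Polynomial.map_id]
    rw [e1, e1] at h
    exact h.symm
  -- `P` is constant
  have hc : P = C (P.coeff 0) := by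
    refine eq_C_of_eps ?_
    have key : ∀ z : TrivSqZeroExt B[X] B[X],
        P.eval₂ ((TrivSqZeroExt.inlHom B[X] B[X]).comp C) z =
        M.S F (TrivSqZeroExt B[X] B[X])
          ((f1.map (TrivSqZeroExt.inlHom B[X] B[X])).comp (X + C z))
          ((q1.map (TrivSqZeroExt.inlHom B[X] B[X])).comp (X + C z)) := by
      intro z
      let ev : B[X] →ₐ[ℂ] TrivSqZeroExt B[X] B[X] :=
        { (Polynomial.eval₂RingHom ((TrivSqZeroExt.inlHom B[X] B[X]).comp C) z) with
          commutes' := fun c => by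
            change Polynomial.eval₂ ((TrivSqZeroExt.inlHom B[X] B[X]).comp C) z
              (algebraMap ℂ B[X] c) = _
            rw [IsScalarTower.algebraMap_apply ℂ B B[X]]
            change Polynomial.eval₂ ((TrivSqZeroExt.inlHom B[X] B[X]).comp C) z
              (C (algebraMap ℂ B c)) = _
            rw [eval₂_C]
            rfl }
      have h := M.S_nat F B[X] _ ev (f1.comp (X + C X)) (q1.comp (X + C X)) (hg1.shift _)
        (hdc _ _ hd1)
      have e1 : ∀ p : B[X], ((p.map (C : B →+* B[X])).comp (X + C X)).map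
          (ev : B[X] →+* TrivSqZeroExt B[X] B[X]) =
          ((p.map (C : B →+* B[X])).map (TrivSqZeroExt.inlHom B[X] B[X])).comp (X + C z) := by
        intro p
        rw [comp_map, Polynomial.map_map, Polynomial.map_map]
        have h1 : (ev : B[X] →+* TrivSqZeroExt B[X] B[X]).comp (C : B →+* B[X]) =
            (TrivSqZeroExt.inlHom B[X] B[X]).comp C := by
          ext b : 1
          exact eval₂_C _ _
        have h2 : (ev : B[X] →+* TrivSqZeroExt B[X] B[X]) X = z := eval₂_X _ _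
        rw [h1, h2]
      rw [hf1, hq1, e1, e1] at h
      rw [hf1, hq1]
      exact h.symm
    rw [key, key]
    have e2 : ∀ p : (TrivSqZeroExt B[X] B[X])[X],
        p.comp (X + C (TrivSqZeroExt.inl X + TrivSqZeroExt.inr 1)) =
        (p.comp (X + C (TrivSqZeroExt.inl X))).comp (X + C (TrivSqZeroExt.inr 1)) := by
      intro p
      have e3 : (X + C (TrivSqZeroExt.inl X + TrivSqZeroExt.inr 1) :
          (TrivSqZeroExt B[X] B[X])[X]) = (X + C (TrivSqZeroExt.inl X)).comp
            (X + C (TrivSqZeroExt.inr 1)) := by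
        simp only [add_comp, X_comp, C_comp, C_add]
        ring
      rw [comp_assoc, ← e3]
    rw [e2, e2]
    refine M.S_tr0 F _ _ _ ((hg1.map _).shift _) ?_ (hdc _ _ (natDegree_map_le.trans hd1))
    rw [TrivSqZeroExt.inr_mul_inr]
  rw [← hev t, hc, eval_C, ← eval_C (x := (0 : B)) (a := P.coeff 0), ← hc, hev 0]
  simp

theorem S_inv (B : Type) [CommRing B] [Algebra ℂ B] (f q : B[X]) (hf : Two2.Good f)
    (hq : q.natDegree ≤ 2) : M.S F B (f.reflect 6) (q.reflect 2) = M.S F B f q := by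
  obtain ⟨r, hr⟩ := M.inv f q hf hf.reflect hq
  exact M.S_arrow F hf hf.reflect _ _ r hr

theorem S_reg (B K : Type) [CommRing B] [IsDomain B] [Field K] [Algebra ℂ B] [Algebra ℂ K]
    (φ : B →ₐ[ℂ] K) (hφ : Function.Injective φ) (s : B) (ρ r e : Fin 3 → B) (hs : s ≠ 0)
    (h1 : ∀ i j, i ≠ j → IsUnit (ρ i - ρ j)) (h2 : ∀ i j, i ≠ j → IsUnit (r i - r j))
    (h3 : ∀ j, IsUnit (r j)) (h4 : ∀ i j, IsUnit (r j - s ^ 2 * ρ i)) :
    ∃ b : B, M.S F K
      (((∏ i, (X - C (s ^ 2 * ρ i))) * ∏ j, (X - C (r j)) : B[X]).map (φ : B →+* K))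
      ((C (s ^ 2 * e 0) + C (s * e 1) * X + C (e 2) * X ^ 2 : B[X]).map (φ : B →+* K)) =
        φ b := by
  have hs' : φ s ≠ 0 := fun h0 => hs (hφ (by rw [h0, map_zero]))
  set σ : K := φ s with hσ
  set f : K[X] := ((∏ i, (X - C (s ^ 2 * ρ i))) * ∏ j, (X - C (r j)) : B[X]).map (φ : B →+* K)
    with hf
  set f' : K[X] := (((∏ i, (X - C (ρ i))) * ∏ j, (C (s ^ 2) * X - C (r j)) : B[X]).map
    (φ : B →+* K)) with hf'
  set q : K[X] := ((C (s ^ 2 * e 0) + C (s * e 1) * X + C (e 2) * X ^ 2 : B[X]).map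
    (φ : B →+* K)) with hq
  set q' : K[X] := ((C (e 0) + C (s * e 1) * X + C (s ^ 2 * e 2) * X ^ 2 : B[X]).map
    (φ : B →+* K)) with hq'
  have ef : f = (∏ i, (X - C (σ ^ 2 * φ (ρ i)))) * ∏ j, (X - C (φ (r j))) := by
    rw [hf, Polynomial.map_mul, Polynomial.map_prod, Polynomial.map_prod]
    simp [hσ]
  have ef' : f' = (∏ i, (X - C (φ (ρ i)))) * ∏ j, (C (σ ^ 2) * X - C (φ (r j))) := by
    rw [hf', Polynomial.map_mul, Polynomial.map_prod, Polynomial.map_prod]
    simp [hσ]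
  have eq : q = C (σ ^ 2 * φ (e 0)) + C (σ * φ (e 1)) * X + C (φ (e 2)) * X ^ 2 := by
    rw [hq]
    simp [hσ]
  have eq' : q' = C (φ (e 0)) + C (σ * φ (e 1)) * X + C (σ ^ 2 * φ (e 2)) * X ^ 2 := by
    rw [hq']
    simp [hσ]
  -- `f` has no double roots
  have hne : ∀ {a b : B}, IsUnit (a - b) → φ a ≠ φ b := by
    intro a b h h'
    exact (h.map φ).ne_zero (by rw [map_sub, h', sub_self])
  have hgf : Two2.Good f := by
    have hinj : Function.Injective (Sum.elim (fun i => σ ^ 2 * φ (ρ i)) fun j => φ (r j)) := by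
      have e : ∀ i, σ ^ 2 * φ (ρ i) = φ (s ^ 2 * ρ i) := fun i => by rw [map_mul, map_pow]
      rintro (i | i) (j | j) hij
      · by_contra hc
        have hc' : i ≠ j := fun h => hc (by rw [h])
        exact hne (h1 i j hc') (mul_left_cancel₀ (pow_ne_zero 2 hs') hij)
      · change σ ^ 2 * φ (ρ i) = φ (r j) at hij
        rw [e] at hij
        exact absurd hij.symm (hne (h4 i j))
      · change φ (r i) = σ ^ 2 * φ (ρ j) at hij
        rw [e] at hij
        exact absurd hij (hne (h4 j i))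
      · by_contra hc
        have hc' : i ≠ j := fun h => hc (by rw [h])
        exact hne (h2 i j hc') hij
    have := good_prod (K := K) (ι := Fin 3 ⊕ Fin 3) (Or.inr (by simp)) _ hinj
    rw [Fintype.prod_sum_type] at this
    rw [ef]
    exact this
  have hus : IsUnit (σ ^ 2) := (IsUnit.mk0 _ hs').pow 2
  have hus3 : IsUnit (σ ^ 3) := (IsUnit.mk0 _ hs').pow 3
  have hcomp : C ((σ ^ 3) ^ 2) * f' = f.comp (C (σ ^ 2) * X) := by
    rw [ef, ef', mul_comp, Polynomial.prod_comp, Polynomial.prod_comp]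
    simp only [sub_comp, X_comp, C_comp]
    have e1 : ∀ i, (C (σ ^ 2) * X - C (σ ^ 2 * φ (ρ i)) : K[X]) =
        C (σ ^ 2) * (X - C (φ (ρ i))) := by
      intro i
      rw [C_mul]
      ring
    have e2 : (σ ^ 3) ^ 2 = (σ ^ 2) ^ 3 := by ring
    simp only [e1, Finset.prod_mul_distrib]
    rw [Finset.prod_const, Finset.card_univ, Fintype.card_fin, ← C_pow, e2, mul_assoc]
  have hgf' : Two2.Good f' := by
    obtain ⟨v, hv⟩ := ((IsUnit.mk0 _ hs').pow 6 : IsUnit (σ ^ 6)).exists_right_inv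
    have hvu : IsUnit v := IsUnit.of_mul_eq_one (σ ^ 6) (by rw [mul_comm]; exact hv)
    have h5 := (hgf.dil hus).cmul hvu
    have h6 : f' = C v * f.comp (C (σ ^ 2) * X) := by
      rw [← hcomp, ← mul_assoc, ← C_mul]
      have : v * (σ ^ 3) ^ 2 = 1 := by
        rw [← hv]
        ring
      rw [this, C_1, one_mul]
    rw [h6]
    exact h5
  have hdq : ∀ a b c : K, (C a + C b * X + C c * X ^ 2 : K[X]).natDegree ≤ 2 := by
    intro a b c
    compute_degree
  obtain ⟨r0, hr0⟩ := M.sc (σ ^ 2) (σ ^ 3) f q f' q' hgf hgf' hus hus3 (by rw [eq]; exact hdq _ _ _)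
    (by rw [eq']; exact hdq _ _ _) hcomp (by
      rw [eq, eq']
      simp only [add_comp, mul_comp, C_comp, X_comp, pow_comp, C_mul, C_pow]
      ring)
  rw [← M.S_arrow F hgf hgf' q q' r0 hr0, M.S_good F hgf']
  obtain ⟨x, hx, l, a, ha⟩ := M.reg φ hφ s ρ r e hs h1 h2 h3 h4 hgf'
  exact ⟨F.F B x hx l, F.nat B K φ x _ hx _ a l _ ha⟩

/-- The algebraic data of a regular function. -/
noncomputable def dat : Dat ℂ where
  S := fun B _ _ f q => M.S F B f q
  nat := fun B B' _ _ _ _ φ f q hf hq => M.S_nat F B B' φ f q hf hq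
  scal := fun B _ _ u f q hu hf hq => M.S_scal F B u f q hu hf hq
  trans := fun B _ _ t f q hf hq => M.S_trans F B t f q hf hq
  inv := fun B _ _ f q hf hq => M.S_inv F B f q hf hq
  reg := fun B K _ _ _ _ _ φ hφ s ρ r e hs h1 h2 h3 h4 =>
    M.S_reg F B K φ hφ s ρ r e hs h1 h2 h3 h4

end Mdl

end Pool.Agent.MG.H2


end

section

/-!
# MFG: the model with fewer punctures
-/

open CategoryTheory CategoryTheory.Limits AlgebraicGeometry TopologicalSpace

namespace Pool.Agent.MG.KX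

open Pool.Agent.MG.G0 Pool.Agent.MG.GLU

namespace MFG

/-! ## Basic open sets -/

section basic

variable {X : Scheme.{0}}

theorem pt_mem {R : Type} [CommRing R] (f : Sp R ⟶ X) (W : X.Opens)
    (h : ⊤ ≤ f ⁻¹ᵁ W) (g : Γ(X, W)) (s : Sp R) :
    f s ∈ X.basicOpen g ↔ gm f W h g ∉ s.asIdeal := by
  have h1 := Scheme.basicOpen_appLE f ⊤ W h g
  rw [top_inf_eq] at h1
  have h2 := basicOpen_eq_of_affine' (f.appLE W ⊤ h g)
  have h3 : f s ∈ X.basicOpen g ↔ s ∈ f ⁻¹ᵁ X.basicOpen g := Iff.rfl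
  rw [h3, ← h1, h2]
  rfl

theorem pre_comp {R R' : Type} [CommRing R] [CommRing R'] {f : Sp R ⟶ X} {W : X.Opens}
    (h : ⊤ ≤ f ⁻¹ᵁ W) (g : Sp R' ⟶ Sp R) : ⊤ ≤ (g ≫ f) ⁻¹ᵁ W := by
  intro s _
  change (g ≫ f) s ∈ W
  rw [Scheme.Hom.comp_apply]
  exact h (show g s ∈ (⊤ : (Sp R).Opens) from trivial)

theorem le_basic {R : Type} [CommRing R] (f : Sp R ⟶ X) (W : X.Opens)
    (h : ⊤ ≤ f ⁻¹ᵁ W) (g : Γ(X, W)) (hg : IsUnit (gm f W h g)) : ⊤ ≤ f ⁻¹ᵁ X.basicOpen g := by
  intro s _
  change f s ∈ X.basicOpen g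
  rw [pt_mem f W h]
  exact fun hs => s.isPrime.ne_top (Ideal.eq_top_of_isUnit_mem _ hs hg)

theorem loc_surj {V D : X.Opens} (hV : IsAffineOpen V) (h : Γ(X, V))
    (hD : D = X.basicOpen h) (le : D ≤ V) (u : Γ(X, D)) :
    ∃ (n : ℕ) (r : Γ(X, V)), u * rs X le h ^ n = rs X le r := by
  have hloc := hV.isLocalization_of_eq_basicOpen (f := h) (homOfLE le) hD
  let _ : Algebra Γ(X, V) Γ(X, D) := (rs X le).toAlgebra
  have hloc' : IsLocalization.Away h Γ(X, D) := hloc
  exact IsLocalization.Away.surj h u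

theorem loc_inj {V D : X.Opens} (hV : IsAffineOpen V) (h : Γ(X, V))
    (hD : D = X.basicOpen h) (le : D ≤ V) (a : Γ(X, V)) (ha : rs X le a = 0) :
    ∃ n : ℕ, h ^ n * a = 0 := by
  have hloc := hV.isLocalization_of_eq_basicOpen (f := h) (homOfLE le) hD
  let _ : Algebra Γ(X, V) Γ(X, D) := (rs X le).toAlgebra
  have hloc' : IsLocalization.Away h Γ(X, D) := hloc
  obtain ⟨⟨_, n, rfl⟩, hn⟩ := (IsLocalization.map_eq_zero_iff (Submonoid.powers h) Γ(X, D) a).1 ha
  exact ⟨n, hn⟩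

theorem loc_unit {V D : X.Opens} (h : Γ(X, V)) (hD : D = X.basicOpen h) (le : D ≤ V) :
    IsUnit (rs X le h) := by
  subst hD
  exact X.toRingedSpace.isUnit_res_basicOpen h

/-- A regular element stays regular on basic open sets. -/
theorem nzd {V D : X.Opens} (hV : IsAffineOpen V) (h : Γ(X, V)) (hD : D = X.basicOpen h)
    (le : D ≤ V) (t : Γ(X, V)) (ht : ∀ v, t * v = 0 → v = 0) (b : Γ(X, D))
    (hb : rs X le t * b = 0) : b = 0 := by
  obtain ⟨n, r, hr⟩ := loc_surj hV h hD le b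
  have h1 : rs X le (t * r) = 0 := by
    rw [map_mul, ← hr, ← mul_assoc, hb, zero_mul]
  obtain ⟨m, hm⟩ := loc_inj hV h hD le _ h1
  have h2 : h ^ m * r = 0 := ht _ (by rw [← hm]; ring)
  have h3 : rs X le h ^ m * (b * rs X le h ^ n) = 0 := by
    rw [hr, ← map_pow, ← map_mul, h2, map_zero]
  have hu := loc_unit h hD le
  have h4 : b * (rs X le h ^ m * rs X le h ^ n) = 0 := by rw [← h3]; ring
  exact ((hu.pow m).mul (hu.pow n)).mul_left_eq_zero.1 h4

theorem nzd_pow {V : X.Opens} {t : Γ(X, V)} (ht : ∀ v, t * v = 0 → v = 0) (n : ℕ) (v : Γ(X, V))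
    (h : t ^ n * v = 0) : v = 0 := by
  induction n with
  | zero => rwa [pow_zero, one_mul] at h
  | succ n ih =>
    refine ih (ht _ ?_)
    rw [← mul_assoc, ← pow_succ', h]

theorem eq2 {U V W : X.Opens} (h1 : U ≤ W) (h2 : V ≤ W) (hc : W ≤ U ⊔ V) (a b : Γ(X, W))
    (ha : rs X h1 a = rs X h1 b) (hb : rs X h2 a = rs X h2 b) : a = b :=
  X.sheaf.eq_of_locally_eq₂ (homOfLE h1) (homOfLE h2) hc a b ha hb

end basic

/-! ## Power series -/

theorem X_cancel {I A : Type} [CommRing A] {a b : I → PowerSeries A}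
    (h : (fun _ => PowerSeries.X) * a = (fun _ => PowerSeries.X) * b) : a = b := by
  funext i
  exact PowerSeries.X_mul_cancel (congrFun h i)

theorem unit_of {I A : Type} [CommRing A] {a : I → PowerSeries A} (h : ccI I A a = 1) :
    IsUnit a := by
  rw [Pi.isUnit_iff]
  intro i
  rw [PowerSeries.isUnit_iff_constantCoeff]
  have := congrFun h i
  rw [ccI_apply] at this
  rw [this]
  exact isUnit_one

theorem psl_X_unit {A : Type} [CommRing A] : IsUnit (psl A PowerSeries.X) := by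
  have h : psl A PowerSeries.X = HahnSeries.single 1 1 := HahnSeries.ofPowerSeries_X
  rw [h]
  refine IsUnit.of_mul_eq_one (HahnSeries.single (-1) 1) ?_
  rw [HahnSeries.single_mul_single]
  simp

theorem psI_inj {I A : Type} [CommRing A] {a b : I → PowerSeries A} (h : psI I A a = psI I A b) :
    a = b := by
  funext i
  exact psl_inj (congrFun h i)

/-- Division by powers of `t`. -/
theorem exp_div {I A R : Type} [CommRing A] [CommRing R] (γ : R →+* (I → PowerSeries A)) (t : R)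
    (u : I → PowerSeries A) (hu : IsUnit u) (ht : γ t = (fun _ => PowerSeries.X) * u)
    (hk : ∀ v, ccI I A (γ v) = 0 → ∃ r, v = t * r) (n : ℕ) (v : R) (y : I → PowerSeries A)
    (hy : γ v = (fun _ => PowerSeries.X) ^ n * y) : ∃ r, v = t ^ n * r := by
  induction n generalizing v y with
  | zero => exact ⟨v, by rw [pow_zero, one_mul]⟩
  | succ n ih =>
    obtain ⟨r, rfl⟩ := hk v (by
      rw [hy]
      funext i
      rw [ccI_apply, pow_succ', Pi.mul_apply, Pi.mul_apply, map_mul, map_mul,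
        PowerSeries.constantCoeff_X, zero_mul, zero_mul]
      rfl)
    obtain ⟨w, hw⟩ := hu.exists_right_inv
    rw [map_mul, ht] at hy
    have h1 : u * γ r = (fun _ => PowerSeries.X) ^ n * y := by
      apply X_cancel
      rw [← mul_assoc, hy, pow_succ']
      ring
    obtain ⟨r', hr'⟩ := ih r (w * y) (by
      calc γ r = (u * w) * γ r := by rw [hw, one_mul]
        _ = w * (u * γ r) := by ring
        _ = (fun _ => PowerSeries.X) ^ n * (w * y) := by rw [h1]; ring)
    exact ⟨r', by rw [hr', pow_succ']; ring⟩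

/-! ## The punctures -/

/-- The idempotent of `J`. -/
def eJ (I J A : Type) [CommRing A] : I ⊕ J → A := Sum.elim (fun _ => 0) fun _ => 1

/-- The idempotent of `I`. -/
def eI (I J A : Type) [CommRing A] : I ⊕ J → A := Sum.elim (fun _ => 1) fun _ => 0

theorem eI_mul_eJ (I J A : Type) [CommRing A] : eI I J A * eJ I J A = 0 := by
  funext k
  rcases k with i | j
  · exact mul_zero _
  · exact zero_mul _

theorem mem_range_inl {I J A : Type} [CommRing A] (s : Sp (I ⊕ J → A))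
    (h : eJ I J A ∈ s.asIdeal) :
    s ∈ Set.range (spMap (idx (R := A) (Sum.inl : I → I ⊕ J))) := by
  have hsur : Function.Surjective (idx (R := A) (Sum.inl : I → I ⊕ J)) := fun f =>
    ⟨Sum.elim f fun _ => 0, rfl⟩
  have h1 := range_comap_of_surjective _ _ hsur
  suffices h3 : (s : PrimeSpectrum (I ⊕ J → A)) ∈ PrimeSpectrum.zeroLocus
      (RingHom.ker (idx (R := A) (Sum.inl : I → I ⊕ J)) : Set (I ⊕ J → A)) by
    rw [← h1] at h3
    exact h3
  intro f hf
  have h2 : f = f * eJ I J A := by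
    funext k
    rcases k with i | j
    · have h3 : f (Sum.inl i) = 0 := congrFun (show idx Sum.inl f = 0 from hf) i
      rw [Pi.mul_apply, h3, zero_mul]
    · rw [Pi.mul_apply]
      exact (mul_one _).symm
  rw [h2]
  exact s.asIdeal.mul_mem_left _ h

section main

attribute [local instance] Mod.jo

variable {I J A : Type} [CommRing A] {n : ℕ}
    {W : Subalgebra A (KK (I ⊕ J) A)} {q : Fin n → (W →ₐ[A] A)} {x : Fam n A} (M : Mod x W q)

theorem sec_comp : spMap (ccI I A) ≫ spMap (idx Sum.inl) ≫ M.sh =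
    spMap (idx Sum.inl) ≫ spMap (ccI (I ⊕ J) A) ≫ M.sh := by
  rw [← Category.assoc, ← Category.assoc, spMap_comp'', spMap_comp'']
  rfl

theorem mem_sec (V : x.X.Opens) (le : ⊤ ≤ M.sh ⁻¹ᵁ V) (g : Γ(x.X, V)) (s : Sp (I ⊕ J → A)) :
    (spMap (ccI (I ⊕ J) A) ≫ M.sh) s ∈ x.X.basicOpen g ↔
      ccI (I ⊕ J) A (gm M.sh V le g) ∉ s.asIdeal := by
  have h : ⊤ ≤ (spMap (ccI (I ⊕ J) A) ≫ M.sh) ⁻¹ᵁ V := pre_comp le _
  rw [pt_mem _ V h, gm_comp M.sh (ccI (I ⊕ J) A) _ rfl V le h]

variable {M} {U : x.X.Opens}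
  (hs : ∀ s, s ∈ U ↔ s ∉ Set.range (spMap (ccI I A) ≫ spMap (idx Sum.inl) ≫ M.sh))

include hs

/-- The complement of the punctures is contained in the complement of the punctures `I`. -/
theorem range_le : M.j.opensRange ≤ U := by
  intro s hsj
  rw [hs, sec_comp]
  rintro ⟨a, ha⟩
  rw [Scheme.Hom.comp_apply] at ha
  exact M.exc _ hsj ⟨_, ha⟩

/-- The points of `U`. -/
theorem pts {s : x.X} (h : s ∈ U) : s ∈ Set.range M.j ∨
    ∃ s0 : Sp (I ⊕ J → A), eJ I J A ∉ s0.asIdeal ∧ s = (spMap (ccI (I ⊕ J) A) ≫ M.sh) s0 := by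
  rcases M.cov s with h1 | ⟨s0, rfl⟩
  · exact Or.inl h1
  · refine Or.inr ⟨s0, fun hc => ?_, rfl⟩
    rw [hs, sec_comp] at h
    obtain ⟨s1, hs1⟩ := mem_range_inl s0 hc
    apply h
    refine ⟨s1, ?_⟩
    rw [Scheme.Hom.comp_apply, hs1]

/-- A neighbourhood of the punctures `J`. -/
theorem basic_le {V : x.X.Opens} {le : ⊤ ≤ M.sh ⁻¹ᵁ V} {g : Γ(x.X, V)}
    (hg : ccI (I ⊕ J) A (gm M.sh V le g) = eJ I J A) : x.X.basicOpen g ≤ U := by
  intro s hsg
  rw [hs, sec_comp]
  rintro ⟨a, ha⟩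
  rw [Scheme.Hom.comp_apply] at ha
  have h1 : (spMap (ccI (I ⊕ J) A) ≫ M.sh) (spMap (idx Sum.inl) a) ∈ x.X.basicOpen g := by
    rw [ha]
    exact hsg
  rw [mem_sec M V le g, hg] at h1
  apply h1
  change idx Sum.inl (eJ I J A) ∈ a.asIdeal
  have h2 : idx (Sum.inl : I → I ⊕ J) (eJ I J A) = 0 := rfl
  rw [h2]
  exact a.asIdeal.zero_mem

theorem le_sup {V : x.X.Opens} {le : ⊤ ≤ M.sh ⁻¹ᵁ V} {g : Γ(x.X, V)}
    (hg : ccI (I ⊕ J) A (gm M.sh V le g) = eJ I J A) : U ≤ M.j.opensRange ⊔ x.X.basicOpen g := by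
  intro s h
  rcases pts hs h with h1 | ⟨s0, h1, rfl⟩
  · exact Or.inl h1
  · refine Or.inr ?_
    change _ ∈ x.X.basicOpen g
    rw [mem_sec M V le g, hg]
    exact h1

theorem inf_basic {V : x.X.Opens} {le : ⊤ ≤ M.sh ⁻¹ᵁ V} {g : Γ(x.X, V)}
    (hg : ccI (I ⊕ J) A (gm M.sh V le g) = eI I J A) {s : x.X} (h : s ∈ U)
    (h' : s ∈ x.X.basicOpen g) : s ∈ Set.range M.j := by
  rcases pts hs h with h1 | ⟨s0, h1, rfl⟩
  · exact h1
  · rw [mem_sec M V le g, hg] at h'
    have h2 : eI I J A * eJ I J A ∈ s0.asIdeal := by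
      rw [eI_mul_eJ]
      exact s0.asIdeal.zero_mem
    rcases s0.isPrime.mem_or_mem h2 with h3 | h3
    · exact absurd h3 h'
    · exact absurd h3 h1

omit hs

theorem gm_range (hj : ⊤ ≤ M.j ⁻¹ᵁ M.j.opensRange) (hu : ⊤ ≤ M.j ⁻¹ᵁ U)
    (hle : M.j.opensRange ≤ U) (c : Γ(x.X, U)) :
    gm M.j M.j.opensRange hj (rs x.X hle c) = gm M.j U hu c :=
  gm_rs M.j (RingHom.id W) M.j (spMap_id_comp _).symm hle hu hj c

theorem cmp_idx {I' : Type} (e : I' → I ⊕ J) : spMap (psI I' A) ≫ spMap (idx e) ≫ M.sh =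
    spMap ((idx e).comp (W.val : W →+* KK (I ⊕ J) A)) ≫ M.j := by
  have h1 : (psI I' A).comp (idx e) = (idx e).comp (psI (I ⊕ J) A) := rfl
  rw [← Category.assoc, spMap_comp'', h1, ← spMap_comp'', Category.assoc, M.cmp,
    ← Category.assoc, spMap_comp'']

/-- Functions which vanish on the complement of the punctures. -/
theorem inj (hs : ∀ s, s ∈ U ↔ s ∉ Set.range (spMap (ccI I A) ≫ spMap (idx Sum.inl) ≫ M.sh))
    (hu : ⊤ ≤ M.j ⁻¹ᵁ U) (c : Γ(x.X, U)) (h : gm M.j U hu c = 0) : c = 0 := by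
  obtain ⟨V, t, le, hV, hbt, hreg, -, -, hc⟩ := M.loc
  obtain ⟨g, hg⟩ := hc (eJ I J A)
  have hVJ : x.X.basicOpen g ≤ V := x.X.basicOpen_le g
  have hJU : x.X.basicOpen g ≤ U := basic_le hs hg
  have hRU : M.j.opensRange ≤ U := range_le hs
  have hj : ⊤ ≤ M.j ⁻¹ᵁ M.j.opensRange := fun a _ => ⟨a, rfl⟩
  have h1 : rs x.X hRU c = 0 := by
    apply (gm_bij M.j M.j.opensRange hj rfl).1
    rw [gm_range hj hu hRU c, h, map_zero]
  refine eq2 hRU hJU (le_sup hs hg) c 0 (by rw [h1, map_zero]) ?_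
  rw [map_zero]
  have hD : x.X.basicOpen (rs x.X hVJ t) ≤ x.X.basicOpen g := x.X.basicOpen_le _
  have hD2 : x.X.basicOpen (rs x.X hVJ t) ≤ M.j.opensRange := by
    have e1 : x.X.basicOpen (rs x.X hVJ t) = x.X.basicOpen g ⊓ x.X.basicOpen t :=
      x.X.basicOpen_res t (homOfLE hVJ).op
    rw [e1]
    rintro s ⟨-, hst⟩
    have hst' : s ∈ (x.X.basicOpen t : Set x.X) := hst
    rw [hbt] at hst'
    exact hst'.1
  obtain ⟨k, hk⟩ := loc_inj (hV.basicOpen g) (rs x.X hVJ t) rfl hD (rs x.X hJU c) (by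
    have e2 : rs x.X hD (rs x.X hJU c) = rs x.X hD2 (rs x.X hRU c) := by
      rw [AFF.rs_rs, AFF.rs_rs]
    rw [e2, h1, map_zero])
  exact nzd_pow (fun b hb => nzd hV g rfl hVJ t hreg b hb) k _ hk

/-- Functions on the complement of the punctures which are regular at `J`. -/
theorem sur (hs : ∀ s, s ∈ U ↔ s ∉ Set.range (spMap (ccI I A) ≫ spMap (idx Sum.inl) ≫ M.sh))
    (hu : ⊤ ≤ M.j ⁻¹ᵁ U) (w : W)
    (hw : ∀ j : J, ∀ m < 0, ((w : KK (I ⊕ J) A) (Sum.inr j)).coeff m = 0) :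
    ∃ c, gm M.j U hu c = w := by
  obtain ⟨V, t, le, hV, hbt, hreg, ⟨u, hun, htu⟩, hk, hc⟩ := M.loc
  obtain ⟨g, hg⟩ := hc (eJ I J A)
  have hVJ : x.X.basicOpen g ≤ V := x.X.basicOpen_le g
  have hJU : x.X.basicOpen g ≤ U := basic_le hs hg
  have hRU : M.j.opensRange ≤ U := range_le hs
  have hj : ⊤ ≤ M.j ⁻¹ᵁ M.j.opensRange := fun a _ => ⟨a, rfl⟩
  obtain ⟨a, ha⟩ := (gm_bij M.j M.j.opensRange hj rfl).2 w
  have hDV : x.X.basicOpen t ≤ V := x.X.basicOpen_le t
  have hDR : x.X.basicOpen t ≤ M.j.opensRange := by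
    intro s hst
    have hst' : s ∈ (x.X.basicOpen t : Set x.X) := hst
    rw [hbt] at hst'
    exact hst'.1
  obtain ⟨m, v, hv⟩ := loc_surj hV t rfl hDV (rs x.X hDR a)
  -- the comparison
  have hunit : IsUnit (psI (I ⊕ J) A (gm M.sh V le t)) := by
    rw [htu, map_mul]
    refine IsUnit.mul ?_ (hun.map _)
    rw [Pi.isUnit_iff]
    intro k
    exact psl_X_unit
  have hκV : ⊤ ≤ (spMap (psI (I ⊕ J) A) ≫ M.sh) ⁻¹ᵁ V := pre_comp le _
  have hκ : ⊤ ≤ (spMap (psI (I ⊕ J) A) ≫ M.sh) ⁻¹ᵁ x.X.basicOpen t :=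
    le_basic _ V hκV t (by
      rw [gm_comp M.sh (psI (I ⊕ J) A) _ rfl V le hκV]
      exact hunit)
  have hcmp : (w : KK (I ⊕ J) A) * psI (I ⊕ J) A (gm M.sh V le t) ^ m =
      psI (I ⊕ J) A (gm M.sh V le v) := by
    have e1 := congrArg (gm (spMap (psI (I ⊕ J) A) ≫ M.sh) (x.X.basicOpen t) hκ) hv
    rw [map_mul, map_pow, gm_rs M.j (W.val : W →+* KK (I ⊕ J) A) _ M.cmp hDR hj hκ,
      gm_rs M.sh (psI (I ⊕ J) A) _ rfl hDV le hκ, gm_rs M.sh (psI (I ⊕ J) A) _ rfl hDV le hκ,
      ha] at e1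
    exact e1
  -- the expansion of `g ^ m * v`
  have hy : ∀ k, ∃ y : PowerSeries A, (gm M.sh V le (g ^ m * v)) k = PowerSeries.X ^ m * y := by
    intro k
    rw [map_mul, map_pow, Pi.mul_apply, Pi.pow_apply]
    rcases k with i | j
    · have h1 : PowerSeries.constantCoeff (gm M.sh V le g (Sum.inl i)) = 0 := congrFun hg (Sum.inl i)
      obtain ⟨z, hz⟩ := PowerSeries.X_dvd_iff.2 h1
      rw [hz, mul_pow]
      exact ⟨_, mul_assoc _ _ _⟩
    · have h1 : gm M.sh V le v (Sum.inr j) = tops A ((w : KK (I ⊕ J) A) (Sum.inr j)) *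
          (PowerSeries.X * u (Sum.inr j)) ^ m := by
        apply psl_inj
        have h2 := congrFun hcmp (Sum.inr j)
        rw [Pi.mul_apply, Pi.pow_apply, psI_apply, psI_apply, htu] at h2
        rw [map_mul, map_pow, psl_tops (hw j)]
        exact h2.symm
      rw [h1]
      exact ⟨gm M.sh V le g (Sum.inr j) ^ m * tops A ((w : KK (I ⊕ J) A) (Sum.inr j)) *
        u (Sum.inr j) ^ m, by ring⟩
  choose y hy' using hy
  obtain ⟨r, hr⟩ := exp_div (gm M.sh V le) t u hun htu hk m (g ^ m * v) y (funext fun k => by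
    rw [hy' k]
    rfl)
  -- gluing
  obtain ⟨gi, hgi⟩ := (loc_unit g rfl hVJ).exists_right_inv
  let b : Γ(x.X, x.X.basicOpen g) := rs x.X hVJ r * gi ^ m
  have hI1 : x.X.basicOpen t ⊓ x.X.basicOpen g ≤ M.j.opensRange := inf_le_left.trans hDR
  have hI2 : x.X.basicOpen t ⊓ x.X.basicOpen g ≤ x.X.basicOpen g := inf_le_right
  have hI3 : x.X.basicOpen t ⊓ x.X.basicOpen g ≤ x.X.basicOpen t := inf_le_left
  have hI4 : x.X.basicOpen t ⊓ x.X.basicOpen g ≤ V := inf_le_right.trans hVJ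
  obtain ⟨c, hc1, -⟩ := AFF.glue hRU hJU (le_sup hs hg) hI1 hI2 (by
    rintro s ⟨h1, h2⟩
    refine ⟨?_, h2⟩
    have h3 : s ∈ (x.X.basicOpen t : Set x.X) := by
      rw [hbt]
      exact ⟨h1, hVJ h2⟩
    exact h3) a b (by
    have e1 := congrArg (rs x.X hI3) hv
    rw [map_mul, map_pow, AFF.rs_rs, AFF.rs_rs, AFF.rs_rs] at e1
    have e2 := congrArg (rs x.X hI4) hr
    rw [map_mul, map_mul, map_pow, map_pow] at e2
    have e3 := congrArg (rs x.X hI2) hgi
    rw [map_mul, AFF.rs_rs, map_one] at e3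
    have u1 : IsUnit (rs x.X hI4 t) := by
      have h1 := (loc_unit t rfl hDV).map (rs x.X hI3)
      rw [AFF.rs_rs] at h1
      exact h1
    change rs x.X hI1 a = rs x.X hI2 (rs x.X hVJ r * gi ^ m)
    rw [map_mul, map_pow, AFF.rs_rs]
    set T := rs x.X hI4 t with hT
    set G := rs x.X hI4 g with hG
    apply (u1.pow m).mul_left_injective
    change rs x.X hI1 a * T ^ m = rs x.X hI4 r * rs x.X hI2 gi ^ m * T ^ m
    calc rs x.X hI1 a * T ^ m = rs x.X hI4 v := e1
      _ = (G * rs x.X hI2 gi) ^ m * rs x.X hI4 v := by rw [e3, one_pow, one_mul]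
      _ = rs x.X hI2 gi ^ m * (G ^ m * rs x.X hI4 v) := by ring
      _ = rs x.X hI4 r * rs x.X hI2 gi ^ m * T ^ m := by rw [e2]; ring)
  refine ⟨c, ?_⟩
  rw [← gm_range hj hu hRU c, hc1, ha]

/-- The neighbourhood of the punctures `J` is contained in `U`. -/
theorem reg1 (hs : ∀ s, s ∈ U ↔ s ∉ Set.range (spMap (ccI I A) ≫ spMap (idx Sum.inl) ≫ M.sh))
    (κ : Sp (J → PowerSeries A) ⟶ x.X) (hκ : κ = spMap (idx Sum.inr) ≫ M.sh) :
    ⊤ ≤ κ ⁻¹ᵁ U := by
  obtain ⟨V, t, le, hV, hbt, hreg, -, -, hc⟩ := M.loc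
  obtain ⟨g, hg⟩ := hc (eJ I J A)
  have hJU : x.X.basicOpen g ≤ U := basic_le hs hg
  have hκV : ⊤ ≤ κ ⁻¹ᵁ V := by
    rw [hκ]
    exact pre_comp le _
  have hκg : ⊤ ≤ κ ⁻¹ᵁ x.X.basicOpen g :=
    le_basic _ V hκV g (by
      rw [gm_comp M.sh (idx Sum.inr) κ hκ V le hκV]
      refine unit_of ?_
      funext k
      have h0 := congrFun hg (Sum.inr k)
      rw [ccI_apply] at h0
      rw [ccI_apply, idx_apply, h0]
      rfl)
  exact hκg.trans fun b hb => hJU hb

theorem reg2 (hu : ⊤ ≤ M.j ⁻¹ᵁ U) (c : Γ(x.X, U)) (j : J) (m : ℤ) (hm : m < 0)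
    (κ : Sp (J → PowerSeries A) ⟶ x.X) (hκU : ⊤ ≤ κ ⁻¹ᵁ U)
    (hκ' : ⊤ ≤ (spMap (psI J A) ≫ κ) ⁻¹ᵁ U)
    (hc : spMap (psI J A) ≫ κ =
      spMap ((idx Sum.inr).comp (W.val : W →+* KK (I ⊕ J) A)) ≫ M.j) :
    ((gm M.j U hu c : KK (I ⊕ J) A) (Sum.inr j)).coeff m = 0 := by
  have h1 := gm_comp κ (psI J A) _ rfl U hκU hκ' c
  have h2 := gm_comp M.j _ _ hc U hu hκ' c
  have h3 := congrFun (h2.symm.trans h1) j
  rw [psI_apply, RingHom.comp_apply, idx_apply] at h3
  have h4 := psl_coeff_neg (gm κ U hκU c j) m hm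
  rw [← h3] at h4
  exact h4

/-- Values on `J` are regular. -/
theorem reg (hs : ∀ s, s ∈ U ↔ s ∉ Set.range (spMap (ccI I A) ≫ spMap (idx Sum.inl) ≫ M.sh))
    (hu : ⊤ ≤ M.j ⁻¹ᵁ U) (c : Γ(x.X, U)) (j : J) (m : ℤ) (hm : m < 0) :
    ((gm M.j U hu c : KK (I ⊕ J) A) (Sum.inr j)).coeff m = 0 :=
  have hκU := reg1 hs _ rfl
  reg2 hu c j m hm _ hκU (pre_comp hκU _) (cmp_idx (M := M) (Sum.inr : J → I ⊕ J))

/-- The restriction to the punctures `I` of the functions on `U`. -/
noncomputable def EE0 (hu : ⊤ ≤ M.j ⁻¹ᵁ U) : Γ(x.X, U) →+* KK I A :=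
  ((idx Sum.inl).comp (W.val : W →+* KK (I ⊕ J) A)).comp (gm M.j U hu)

theorem exists_e (hs : ∀ s, s ∈ U ↔ s ∉ Set.range (spMap (ccI I A) ≫ spMap (idx Sum.inl) ≫ M.sh))
    {P : Subalgebra A (KK I A)} (hF : Forget W P) (hu : ⊤ ≤ M.j ⁻¹ᵁ U) :
    ∃ e : Γ(x.X, U) ≃+* P, ∀ c i, (e c : KK I A) i =
      (gm M.j U hu c : KK (I ⊕ J) A) (Sum.inl i) := by
  have hmem : ∀ c, EE0 hu c ∈ P := by
    intro c
    rw [hF.eq]
    exact ⟨gm M.j U hu c, (gm M.j U hu c).2, fun j m hm => reg hs hu c j m hm, fun i => rfl⟩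
  let E : Γ(x.X, U) →+* P := (EE0 hu).codRestrict P hmem
  have hE : ∀ c, (E c : KK I A) = EE0 hu c := fun _ => rfl
  have hb : Function.Bijective E := by
    constructor
    · rw [injective_iff_map_eq_zero]
      intro c hc
      apply inj hs hu
      apply Subtype.ext
      apply hF.inj _ (gm M.j U hu c).2
      intro i
      have h1 : (E c : KK I A) = 0 := by
        rw [hc]
        rfl
      exact congrFun h1 i
    · rintro ⟨f, hf⟩
      have hf' := hf
      rw [hF.eq] at hf'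
      obtain ⟨w, hw, h1, h2⟩ := hf'
      obtain ⟨c, hc⟩ := sur hs hu ⟨w, hw⟩ h1
      refine ⟨c, Subtype.ext ?_⟩
      rw [hE]
      funext i
      change (gm M.j U hu c : KK (I ⊕ J) A) (Sum.inl i) = f i
      rw [hc]
      exact h2 i
  exact ⟨RingEquiv.ofBijective E hb, fun c i => rfl⟩

/-- The neighbourhood of the punctures `I`. -/
theorem locI (hs : ∀ s, s ∈ U ↔ s ∉ Set.range (spMap (ccI I A) ≫ spMap (idx Sum.inl) ≫ M.sh))
    (κ : Sp (I → PowerSeries A) ⟶ x.X) (hκ : κ = spMap (idx Sum.inl) ≫ M.sh) :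
    ∃ (V : x.X.Opens) (t : Γ(x.X, V)) (le : ⊤ ≤ κ ⁻¹ᵁ V), IsAffineOpen V ∧
    (x.X.basicOpen t : Set x.X) = (U : Set x.X) ∩ V ∧ (∀ v, t * v = 0 → v = 0) ∧
    (∃ u : I → PowerSeries A, IsUnit u ∧ gm κ V le t = (fun _ => PowerSeries.X) * u) ∧
    (∀ v, ccI I A (gm κ V le v) = 0 → ∃ r, v = t * r) ∧
    ∀ c : I → A, ∃ v, ccI I A (gm κ V le v) = c := by
  have hRU : M.j.opensRange ≤ U := range_le hs
  obtain ⟨V, t, le, hV, hbt, hrg, ⟨u, hun, htu⟩, hk, hc⟩ := M.loc
  obtain ⟨g, hg⟩ := hc (eI I J A)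
  have hV' : x.X.basicOpen g ≤ V := x.X.basicOpen_le g
  have hκV : ⊤ ≤ κ ⁻¹ᵁ V := by
    rw [hκ]
    exact pre_comp le _
  have hκg : ⊤ ≤ κ ⁻¹ᵁ x.X.basicOpen g :=
    le_basic _ V hκV g (by
      rw [gm_comp M.sh (idx Sum.inl) κ hκ V le hκV]
      refine unit_of ?_
      funext k
      have h0 := congrFun hg (Sum.inl k)
      rw [ccI_apply] at h0
      rw [ccI_apply, idx_apply, h0]
      rfl)
  have hrs : ∀ v, gm κ (x.X.basicOpen g) hκg (rs x.X hV' v) = idx Sum.inl (gm M.sh V le v) :=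
    fun v => gm_rs M.sh (idx Sum.inl) κ hκ hV' le hκg v
  refine ⟨x.X.basicOpen g, rs x.X hV' t, hκg, hV.basicOpen g, ?_, ?_, ?_, ?_, ?_⟩
  · have e1 : x.X.basicOpen (rs x.X hV' t) = x.X.basicOpen g ⊓ x.X.basicOpen t :=
      x.X.basicOpen_res t (homOfLE hV').op
    rw [e1]
    ext s
    constructor
    · rintro ⟨h1, h2⟩
      have h3 : s ∈ (x.X.basicOpen t : Set x.X) := h2
      rw [hbt] at h3
      exact ⟨hRU h3.1, h1⟩
    · rintro ⟨h1, h2⟩
      refine ⟨h2, ?_⟩
      rw [hbt]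
      exact ⟨inf_basic hs hg h1 h2, hV' h2⟩
  · exact fun v hv => nzd hV g rfl hV' t hrg v hv
  · refine ⟨idx Sum.inl u, hun.map _, ?_⟩
    rw [hrs, htu]
    rfl
  · intro v hv
    obtain ⟨k, r, hr⟩ := loc_surj hV g rfl hV' v
    have h1 : ∀ i : I, PowerSeries.constantCoeff (gm M.sh V le r (Sum.inl i)) = 0 := by
      intro i
      have h2 := congrFun (congrArg (gm κ (x.X.basicOpen g) hκg) hr) i
      rw [hrs, map_mul, Pi.mul_apply, idx_apply] at h2
      have h3 := congrArg (PowerSeries.constantCoeff (R := A)) h2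
      have h4 := congrFun hv i
      rw [ccI_apply] at h4
      rw [map_mul, h4] at h3
      rw [← h3]
      exact zero_mul _
    obtain ⟨r', hr'⟩ := hk (g * r) (by
      rw [map_mul, map_mul, hg]
      funext l
      rcases l with i | j
      · rw [Pi.mul_apply, ccI_apply, h1 i, mul_zero]
        rfl
      · rw [Pi.mul_apply]
        exact zero_mul _)
    obtain ⟨gi, hgi⟩ := (loc_unit g rfl hV').exists_right_inv
    refine ⟨rs x.X hV' r' * gi ^ (k + 1), ?_⟩
    have h5 := congrArg (rs x.X hV') hr'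
    rw [map_mul, map_mul, ← hr] at h5
    calc v = v * (rs x.X hV' g * gi) ^ (k + 1) := by rw [hgi, one_pow, mul_one]
      _ = rs x.X hV' g * (v * rs x.X hV' g ^ k) * gi ^ (k + 1) := by ring
      _ = rs x.X hV' t * (rs x.X hV' r' * gi ^ (k + 1)) := by rw [h5]; ring
  · intro c
    obtain ⟨v, hv⟩ := hc (Sum.elim c 0)
    refine ⟨rs x.X hV' v, ?_⟩
    rw [hrs]
    funext i
    have h1 := congrFun hv (Sum.inl i)
    rw [ccI_apply] at h1
    rw [ccI_apply, idx_apply, h1]
    rfl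

end main

end MFG

open _root_.Pool.Agent.MG.KX.MFG in
attribute [local instance] Mod.jo in
/-- The model with fewer punctures. -/
theorem t_MFG : Stmt_MFG := by
  intro I J A _ _ _ n W q P p x M U hU hs hF hqp
  have hRU : M.j.opensRange ≤ U := range_le hs
  have hu : ⊤ ≤ M.j ⁻¹ᵁ U := fun a _ => hRU ⟨a, rfl⟩
  obtain ⟨e, he⟩ := exists_e hs hF hu
  have hreg := reg (M := M) hs hu
  have hww : Set.range (ww hU e) = (U : Set x.X) := by
    have := congrArg (fun O : x.X.Opens => (O : Set x.X)) (ww_range hU e)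
    exact this
  have hmk : ∀ i c, (q i) (gm M.j U hu c) = (p i) (e c) := fun i c =>
    hqp i (e c) (gm M.j U hu c) (fun k => (he c k).symm) (fun k m hm => hreg c k m hm)
  let ρ : P →+* W := (gm M.j U hu).comp (e.symm : P →+* Γ(x.X, U))
  have hρ : ∀ c, ρ (e c) = gm M.j U hu c := fun c => by
    change gm M.j U hu (e.symm (e c)) = _
    rw [e.symm_apply_apply]
  have hj : M.j = spMap ρ ≫ ww hU e := ww_eq hU e M.j hu ρ fun v => (hρ v).symm
  have hjp : ww hU e ≫ x.π = spMap (algebraMap A P) := by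
    unfold ww
    rw [Category.assoc, NOD.fromSpec_coef, spMap_comp'']
    refine congrArg (fun f => spMap f) (RingHom.ext fun a => Subtype.ext (funext fun i => ?_))
    change (e (coef x.π U a) : KK I A) i = _
    rw [he, gm_coef M.j x.π _ M.jp]
    rfl
  have hcmp : ∀ (κ : Sp (KK I A) ⟶ x.X),
      κ = spMap ((idx Sum.inl).comp (W.val : W →+* KK (I ⊕ J) A)) ≫ M.j →
      κ = spMap (P.val : P →+* KK I A) ≫ ww hU e := by
    intro κ hκ
    have h : ⊤ ≤ κ ⁻¹ᵁ U := by
      rw [hκ]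
      exact pre_comp hu _
    refine ww_eq hU e _ h _ fun v => ?_
    rw [gm_comp M.j _ κ hκ U hu h v]
    funext i
    exact (he v i).symm
  refine ⟨{
    j := ww hU e
    jo := inferInstance
    jp := hjp
    sh := spMap (idx Sum.inl) ≫ M.sh
    shp := ?_
    cmp := hcmp _ (cmp_idx _)
    cov := ?_
    exc := ?_
    mrk := ?_
    loc := ?_ }, ⟨rfl, ρ, ?_, ?_, hj⟩⟩
  · rw [Category.assoc, M.shp, spMap_comp'']
    rfl
  · intro s
    rw [hww]
    by_cases h : s ∈ U
    · exact Or.inl h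
    · rw [hs, not_not] at h
      exact Or.inr h
  · intro s h
    rw [hww] at h
    exact (hs s).1 h
  · intro i
    have h1 : ⊤ ≤ (x.σ i) ⁻¹ᵁ U := by
      rw [M.mrk i]
      exact pre_comp hu _
    refine ww_eq hU e _ h1 _ fun v => ?_
    rw [gm_comp M.j (q i : W →+* A) _ (M.mrk i) U hu h1 v]
    exact hmk i v
  · rw [hww]
    exact locI hs _ rfl
  · intro f i
    obtain ⟨c, rfl⟩ := e.surjective f
    rw [hρ, he]
  · intro f k m hm
    obtain ⟨c, rfl⟩ := e.surjective f
    rw [hρ]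
    exact hreg c k m hm

end Pool.Agent.MG.KX


end

section

/-!
# KFL: nilpotent thickenings of Krichever rings
-/

namespace Pool.Agent.MG.G0

namespace KFL

/-! ### Nakayama's lemma for nilpotent ideals -/

section nak

variable {A M C : Type} [CommRing A] [AddCommGroup M] [Module A M] [AddCommGroup C] [Module A C]

theorem nak {J : Ideal A} (hJ : ∃ n : ℕ, J ^ n = ⊥) {N D : Submodule A M}
    (h : N ≤ D ⊔ J • N) : N ≤ D := by
  obtain ⟨n, hn⟩ := hJ
  have h1 : ∀ k : ℕ, N ≤ D ⊔ J ^ k • N := by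
    intro k
    induction k with
    | zero =>
      rw [pow_zero, Ideal.one_eq_top, Submodule.top_smul]
      exact le_sup_right
    | succ k ih =>
      refine ih.trans (sup_le le_sup_left ?_)
      calc J ^ k • N ≤ J ^ k • (D ⊔ J • N) := Submodule.smul_mono le_rfl h
        _ = J ^ k • D ⊔ J ^ (k + 1) • N := by
          rw [Submodule.smul_sup, ← Submodule.mul_smul, pow_succ]
        _ ≤ D ⊔ J ^ (k + 1) • N := sup_le_sup_right Submodule.smul_le_right _
  have h2 := h1 n
  rwa [hn, Submodule.bot_smul, sup_bot_eq] at h2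

theorem surj {J : Ideal A} (hJ : ∃ n : ℕ, J ^ n = ⊥) (u : M →ₗ[A] C)
    (h : ∀ c : C, ∃ m, c - u m ∈ J • (⊤ : Submodule A C)) : Function.Surjective u := by
  rw [← LinearMap.range_eq_top, eq_top_iff]
  refine nak hJ fun c _ => ?_
  obtain ⟨m, hm⟩ := h c
  rw [← add_sub_cancel (u m) c]
  exact Submodule.add_mem_sup ⟨m, rfl⟩ hm

theorem ker [Module.Projective A C] {J : Ideal A} (hJ : ∃ n : ℕ, J ^ n = ⊥) (u : M →ₗ[A] C)
    (hu : Function.Surjective u) (D : Submodule A M) (hD : D ≤ LinearMap.ker u)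
    (h : ∀ x, u x = 0 → ∃ d ∈ D, x - d ∈ J • (⊤ : Submodule A M)) : LinearMap.ker u ≤ D := by
  obtain ⟨σ, hσ⟩ := Module.projective_lifting_property u LinearMap.id hu
  have hσ' : ∀ c, u (σ c) = c := fun c => congrArg (fun f => f c) hσ
  -- the projection to the kernel
  let q : M →ₗ[A] M := LinearMap.id - σ ∘ₗ u
  have hq : ∀ x, q x = x - σ (u x) := fun x => rfl
  have hq1 : ∀ x, u (q x) = 0 := by
    intro x
    rw [hq, map_sub, hσ', sub_self]
  refine nak hJ fun x hx => ?_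
  obtain ⟨d, hd, hxd⟩ := h x hx
  rw [← add_sub_cancel d x]
  refine Submodule.add_mem_sup hd ?_
  have h1 : q (x - d) = x - d := by
    have h2 : u x = 0 := hx
    have h3 : u d = 0 := hD hd
    rw [hq, map_sub, h2, h3, sub_self, map_zero, sub_zero]
  rw [← h1]
  have h2 : q (x - d) ∈ (J • (⊤ : Submodule A M)).map q := Submodule.mem_map_of_mem hxd
  rw [Submodule.map_smul''] at h2
  refine Submodule.smul_mono le_rfl ?_ h2
  rintro _ ⟨y, -, rfl⟩
  exact hq1 y

end nak

/-! ### Polar parts -/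

section pol

variable {I A B : Type} [Fintype I] [CommRing A] [CommRing B]

theorem fin_supp (f : KK I A) :
    (Function.support fun x : I × ℕ => (f x.1).coeff (-((x.2 : ℤ) + 1))).Finite := by
  obtain ⟨n, hn⟩ := exists_Pol f
  refine Set.Finite.subset (Set.finite_univ.prod (Set.finite_Iic n) : (Set.univ ×ˢ Set.Iic n :
    Set (I × ℕ)).Finite) ?_
  rintro ⟨i, m⟩ h
  refine ⟨Set.mem_univ _, ?_⟩
  by_contra hc
  simp only [Set.mem_Iic, not_le] at hc
  exact h (hn i _ (by omega))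

/-- The polar part. -/
noncomputable def pp : KK I A →ₗ[A] (I × ℕ →₀ A) where
  toFun f := Finsupp.ofSupportFinite _ (fin_supp f)
  map_add' f g := by
    ext x
    simp [Finsupp.ofSupportFinite_coe]
  map_smul' a f := by
    ext x
    simp [Finsupp.ofSupportFinite_coe]

theorem pp_apply (f : KK I A) (i : I) (m : ℕ) :
    pp f (i, m) = (f i).coeff (-((m : ℤ) + 1)) := rfl

theorem pp_eq_zero {f : KK I A} : pp f = 0 ↔ f ∈ Pol I A 0 := by
  constructor
  · intro h i m hm
    have h1 := congrArg (fun F => F (i, (-m - 1).toNat)) h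
    simp only [pp_apply, Finsupp.coe_zero, Pi.zero_apply] at h1
    have h2 : -(((-m - 1).toNat : ℤ) + 1) = m := by omega
    rwa [h2] at h1
  · intro h
    ext ⟨i, m⟩
    exact h i _ (by omega)

theorem pp_mon (i : I) (m : ℕ) (a : A) :
    pp (mon i (-((m : ℤ) + 1)) a) = Finsupp.single (i, m) a := by
  classical
  ext ⟨j, k⟩
  rw [pp_apply, mon_coeff, Finsupp.single_apply]
  have h : (j = i ∧ -((k : ℤ) + 1) = -((m : ℤ) + 1)) ↔ (i, m) = (j, k) := by
    rw [Prod.mk.injEq]
    constructor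
    · rintro ⟨h1, h2⟩
      exact ⟨h1.symm, by omega⟩
    · rintro ⟨h1, h2⟩
      exact ⟨h1.symm, by omega⟩
  simp only [h]

theorem pp_surj : Function.Surjective (pp : KK I A →ₗ[A] (I × ℕ →₀ A)) := by
  rw [← LinearMap.range_eq_top, eq_top_iff]
  intro c _
  induction c using Finsupp.induction_linear with
  | zero => exact Submodule.zero_mem _
  | add f g hf hg => exact Submodule.add_mem _ (hf trivial) (hg trivial)
  | single x a => exact ⟨mon x.1 (-((x.2 : ℤ) + 1)) a, pp_mon x.1 x.2 a⟩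

theorem mem_smul_top {X : Type} {J : Ideal A} {F : X →₀ A} (h : ∀ x, F x ∈ J) :
    F ∈ J • (⊤ : Submodule A (X →₀ A)) := by
  rw [← F.sum_single]
  refine Submodule.sum_mem _ fun x _ => ?_
  have h1 : Finsupp.single x (F x) = F x • Finsupp.single x (1 : A) := by
    rw [Finsupp.smul_single, smul_eq_mul, mul_one]
  rw [h1]
  exact Submodule.smul_mem_smul (h x) trivial

theorem pp_mem {φ : A →+* B} {f : KK I A} (h : kmap φ f ∈ Pol I B 0) :
    pp f ∈ RingHom.ker φ • (⊤ : Submodule A (I × ℕ →₀ A)) := by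
  refine mem_smul_top ?_
  rintro ⟨i, m⟩
  rw [RingHom.mem_ker, pp_apply, ← lmap_coeff, ← kmap_apply]
  exact h i _ (by omega)

end pol

/-- For surjective `φ` the base change is the image. -/
theorem bc_surj {I A B : Type} [CommRing A] [CommRing B] {φ : A →+* B}
    (hφ : Function.Surjective φ) (P : Subalgebra A (KK I A)) {f : KK I B} (hf : f ∈ bc φ P) :
    ∃ p ∈ P, kmap φ p = f := by
  let S : Subalgebra B (KK I B) :=
    { carrier := kmap φ '' (P : Set (KK I A))
      mul_mem' := by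
        rintro _ _ ⟨a, ha, rfl⟩ ⟨b, hb, rfl⟩
        exact ⟨a * b, mul_mem (S := Subalgebra A (KK I A)) ha hb, map_mul _ _ _⟩
      add_mem' := by
        rintro _ _ ⟨a, ha, rfl⟩ ⟨b, hb, rfl⟩
        exact ⟨a + b, add_mem (S := Subalgebra A (KK I A)) ha hb, map_add _ _ _⟩
      algebraMap_mem' := fun b => by
        obtain ⟨a, rfl⟩ := hφ b
        exact ⟨algebraMap A _ a, P.algebraMap_mem a, kmap_algebraMap φ a⟩ }
  have h1 : bc φ P ≤ S := Algebra.adjoin_le fun x hx => hx
  obtain ⟨p, hp, h2⟩ := h1 hf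
  exact ⟨p, hp, h2⟩

theorem kmap_surj {I A B : Type} [CommRing A] [CommRing B] {φ : A →+* B}
    (hφ : Function.Surjective φ) (f : KK I B) : ∃ f' : KK I A, kmap φ f' = f := by
  choose s hs using hφ
  have h : ∀ i, ∃ x : LaurentSeries A, lmap φ x = f i := by
    intro i
    classical
    refine ⟨⟨fun n => if (f i).coeff n = 0 then 0 else s ((f i).coeff n), ?_⟩, ?_⟩
    · refine (f i).isPWO_support.mono ?_
      intro n hn
      rw [Function.mem_support] at hn
      rw [HahnSeries.mem_support]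
      intro h1
      rw [if_pos h1] at hn
      exact hn rfl
    · ext n
      rw [lmap_coeff]
      show φ (if (f i).coeff n = 0 then 0 else s ((f i).coeff n)) = _
      split_ifs with h1
      · rw [map_zero, h1]
      · rw [hs]
  choose F hF using h
  exact ⟨F, funext hF⟩

end KFL

open _root_.Pool.Agent.MG.G0.KFL in
theorem t_KFL (_hKSP : Stmt_KSP) : Stmt_KFL := by
  intro I A B _ _ _ _ φ hφ hJ g P hkr hP
  classical
  obtain ⟨Lb, hLb1, hLb2⟩ := hkr.k2
  choose eb heb using fun j : Fin g => hLb1 (Pi.single j 1)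
  choose e he using fun j : Fin g => kmap_surj (I := I) hφ (eb j)
  -- the map
  let u0 : (P × (Fin g → A)) →ₗ[A] KK I A :=
    LinearMap.coprod P.val.toLinearMap (Fintype.linearCombination A e)
  have hu0 : ∀ p a, u0 (p, a) = (p : KK I A) + ∑ j, a j • e j := by
    intro p a
    simp only [u0, LinearMap.coprod_apply, Fintype.linearCombination_apply]
    rfl
  let u : (P × (Fin g → A)) →ₗ[A] (I × ℕ →₀ A) := pp ∘ₗ u0
  have hu : ∀ x, u x = pp (u0 x) := fun x => rfl
  have hkm : ∀ p a, kmap φ (u0 (p, a)) = kmap φ p + ∑ j, φ (a j) • eb j := by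
    intro p a
    rw [hu0, map_add, map_sum]
    congr 1
    refine Finset.sum_congr rfl fun j _ => ?_
    rw [kmap_smul, he]
  have hLs : ∀ b : Fin g → B, Lb (∑ j, b j • eb j) = b := by
    intro b
    rw [map_sum]
    simp only [map_smul, heb]
    funext k
    simp [Finset.sum_apply, Pi.single_apply]
  -- surjectivity
  have hsur : Function.Surjective u := by
    refine surj hJ u fun c => ?_
    obtain ⟨f, rfl⟩ := pp_surj c
    choose s hs using hφ
    have h1 : Lb (kmap φ f - ∑ j, Lb (kmap φ f) j • eb j) = 0 := by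
      rw [map_sub, hLs, sub_self]
    obtain ⟨pb, hpb, h2⟩ := (hLb2 _).1 h1
    obtain ⟨p, hp, rfl⟩ := bc_surj (φ := φ) (fun b => ⟨s b, hs b⟩) P hpb
    refine ⟨(⟨p, hp⟩, fun j => s (Lb (kmap φ f) j)), ?_⟩
    rw [hu, ← map_sub]
    refine pp_mem (φ := φ) ?_
    rw [map_sub, hkm]
    simp only [hs]
    have h3 : kmap φ f - (kmap φ p + ∑ j, Lb (kmap φ f) j • eb j) =
        kmap φ f - ∑ j, Lb (kmap φ f) j • eb j - kmap φ p := by abel
    rw [h3]
    exact h2
  -- the kernel
  have hker : LinearMap.ker u ≤ Submodule.span A {((1 : P), (0 : Fin g → A))} := by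
    refine ker hJ u hsur _ ?_ ?_
    · rw [Submodule.span_singleton_le_iff_mem, LinearMap.mem_ker, hu, pp_eq_zero, hu0]
      simpa using one_mem_Pol0
    · rintro ⟨p, a⟩ hx
      have h1 : u0 (p, a) ∈ Pol I A 0 := pp_eq_zero.1 hx
      have h2 := kmap_mem_Pol φ h1
      rw [hkm] at h2
      have h3 : (fun j => φ (a j)) = 0 := by
        have h4 : Lb (kmap φ p + ∑ j, φ (a j) • eb j) = 0 :=
          (hLb2 _).2 ⟨0, zero_mem _, by rwa [sub_zero]⟩
        have h5 : Lb (kmap φ p) = 0 :=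
          (hLb2 _).2 ⟨kmap φ p, kmap_mem_bc φ p.2, by rw [sub_self]; exact Submodule.zero_mem _⟩
        rw [map_add, h5, hLs, zero_add] at h4
        exact h4
      have h3' : ∀ j, φ (a j) = 0 := fun j => congrFun h3 j
      simp only [h3', zero_smul, Finset.sum_const_zero, add_zero] at h2
      obtain ⟨cb, hcb⟩ := hkr.k1 _ (kmap_mem_bc φ p.2) h2
      obtain ⟨c, rfl⟩ := hφ cb
      refine ⟨c • (1, 0), Submodule.smul_mem _ _ (Submodule.mem_span_singleton_self _), ?_⟩
      have h6 : (p : KK I A) - algebraMap A (KK I A) c ∈ P := sub_mem p.2 (P.algebraMap_mem c)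
      have h7 := hP _ h6 (by rw [map_sub, kmap_algebraMap, hcb, sub_self])
      have h8 : (p - algebraMap A P c) ∈ RingHom.ker φ • (⊤ : Submodule A P) := by
        have h9 : (RingHom.ker φ • (⊤ : Submodule A P)).map P.val.toLinearMap =
            RingHom.ker φ • Subalgebra.toSubmodule P := by
          rw [Submodule.map_smul'', Submodule.map_top]
          congr 1
          exact Subalgebra.range_val P |> fun h => by
            ext x
            constructor
            · rintro ⟨y, rfl⟩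
              exact y.2
            · intro hx
              exact ⟨⟨x, hx⟩, rfl⟩
        rw [← h9] at h7
        obtain ⟨y, hy1, hy2⟩ := h7
        have h10 : y = p - algebraMap A P c := Subtype.ext hy2
        rwa [← h10]
      have h11 : (p, a) - c • ((1 : P), (0 : Fin g → A)) =
          LinearMap.inl A P (Fin g → A) (p - algebraMap A P c) +
            LinearMap.inr A P (Fin g → A) a := by
        ext1
        · simp [Algebra.algebraMap_eq_smul_one]
        · simp
      rw [h11]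
      refine Submodule.add_mem _ ?_ ?_
      · have h12 := Submodule.mem_map_of_mem (f := LinearMap.inl A P (Fin g → A)) h8
        rw [Submodule.map_smul''] at h12
        exact Submodule.smul_mono le_rfl le_top h12
      · rw [← Finset.univ_sum_single a, map_sum]
        refine Submodule.sum_mem _ fun j _ => ?_
        have h12 : Pi.single j (a j) = a j • (Pi.single j (1 : A) : Fin g → A) := by
          rw [← Pi.single_smul, smul_eq_mul, mul_one]
        rw [h12, map_smul]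
        exact Submodule.smul_mem_smul (h3' j) trivial
  have hker' : ∀ x, u x = 0 → x.2 = 0 ∧ ∃ c : A, x.1 = algebraMap A P c := by
    intro x hx
    obtain ⟨c, hc⟩ := Submodule.mem_span_singleton.1 (hker hx)
    rw [← hc]
    refine ⟨by simp, c, ?_⟩
    rw [Algebra.algebraMap_eq_smul_one]
    rfl
  obtain ⟨σ, hσ⟩ := Module.projective_lifting_property u LinearMap.id hsur
  have hσ' : ∀ c, u (σ c) = c := fun c => congrArg (fun f => f c) hσ
  refine ⟨fun f hf hf0 => ?_, ?_⟩
  · obtain ⟨-, c, hc⟩ := hker' (⟨f, hf⟩, 0) (by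
      rw [hu, pp_eq_zero, hu0]
      simpa using hf0)
    exact ⟨c, congrArg Subtype.val hc⟩
  · refine ⟨LinearMap.snd A P (Fin g → A) ∘ₗ σ ∘ₗ pp, fun a => ?_, fun f => ⟨fun hf => ?_, ?_⟩⟩
    · refine ⟨u0 (0, a), ?_⟩
      have h1 : u (σ (pp (u0 (0, a))) - (0, a)) = 0 := by
        rw [map_sub, hσ', hu, sub_self]
      have h2 := (hker' _ h1).1
      exact sub_eq_zero.1 h2
    · have h1 := hσ' (pp f)
      have h2 : (σ (pp f)).2 = 0 := hf
      have h3 : σ (pp f) = ((σ (pp f)).1, 0) := by rw [← h2]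
      refine ⟨(σ (pp f)).1, (σ (pp f)).1.2, ?_⟩
      rw [h3, hu, hu0] at h1
      rw [← pp_eq_zero, map_sub, sub_eq_zero]
      refine h1.symm.trans ?_
      simp
    · rintro ⟨p, hp, h1⟩
      rw [← pp_eq_zero, map_sub, sub_eq_zero] at h1
      have h2 : u (σ (pp f) - (⟨p, hp⟩, 0)) = 0 := by
        rw [map_sub, hσ', hu, hu0, h1, sub_eq_zero]
        simp
      have h3 := (hker' _ h2).1
      exact sub_eq_zero.1 h3

end Pool.Agent.MG.G0


end

section

/-!
# PDK: deformations of Krichever rings are Krichever rings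
-/

open CategoryTheory CategoryTheory.Limits AlgebraicGeometry
open scoped TensorProduct

namespace Pool.Agent.MG.KX

open Pool.Agent.MG.G0 Pool.Agent.MG.GLU

namespace PDK

variable {I A : Type} [CommRing A]

/-- `f + ε h`. -/
noncomputable def lift (f h : KK I A) : KK I (Eps A) := fun i =>
  lmap (epsInl A) (f i) + epsL A * lmap (epsInl A) (h i)

theorem ksnd_lift (f h : KK I A) : ksnd (lift f h) = h := funext fun i => lsnd_inl (f i) (h i)

theorem eps0_lift (f h : KK I A) : kmap (eps0 A) (lift f h) = f := by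
  funext i
  ext n
  change eps0 A ((lmap (epsInl A) (f i)).coeff n +
    (epsL A * lmap (epsInl A) (h i)).coeff n) = _
  rw [coeff_epsL_mul]
  simp [epsInl, epsE]

theorem eq_lift (f : KK I (Eps A)) : f = lift (kmap (eps0 A) f) (ksnd f) :=
  funext fun i => ls_eq (f i)

theorem ext_of {f h : KK I (Eps A)} (h1 : kmap (eps0 A) f = kmap (eps0 A) h)
    (h2 : ksnd f = ksnd h) : f = h := by
  rw [eq_lift f, eq_lift h, h1, h2]

theorem lift_mem {P : Subalgebra A (KK I A)} {δ : DD P} (f : P) {h : KK I A}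
    (hh : mk P h = δ f) : lift (f : KK I A) h ∈ Pdel P δ := by
  have e : kmap (eps0 A) (lift (f : KK I A) h) = f := eps0_lift _ _
  refine ⟨by rw [e]; exact f.2, ?_⟩
  rw [ksnd_lift, hh]
  exact congrArg δ (Subtype.ext e)

theorem exists_lift (P : Subalgebra A (KK I A)) (δ : DD P) (f : KK I A) (hf : f ∈ P) :
    ∃ F ∈ Pdel P δ, kmap (eps0 A) F = f := by
  obtain ⟨h, hh⟩ := mk_surj P (δ ⟨f, hf⟩)
  exact ⟨lift f h, lift_mem ⟨f, hf⟩ hh, eps0_lift _ _⟩

theorem bc_Pdel (P : Subalgebra A (KK I A)) (δ : DD P) : bc (eps0 A) (Pdel P δ) = P := by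
  refine le_antisymm (Algebra.adjoin_le ?_) ?_
  · rintro _ ⟨F, ⟨hF, _⟩, rfl⟩
    exact hF
  · intro f hf
    obtain ⟨F, hF, rfl⟩ := exists_lift P δ f hf
    exact kmap_mem_bc _ hF

theorem eps0_surj (A : Type) [CommRing A] : Function.Surjective (eps0 A) := fun a =>
  ⟨epsInl A a, by simp [epsInl]⟩

theorem ker_sq (A : Type) [CommRing A] : RingHom.ker (eps0 A) ^ 2 = ⊥ := by
  rw [sq, eq_bot_iff, Ideal.mul_le]
  intro a ha b hb
  rw [RingHom.mem_ker] at ha hb
  rw [Ideal.mem_bot]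
  ext
  · change (a * b).fst = 0
    rw [TrivSqZeroExt.fst_mul]
    change eps0 A a * _ = 0
    rw [ha, zero_mul]
  · change (a * b).snd = 0
    rw [TrivSqZeroExt.snd_mul]
    change eps0 A a • _ + MulOpposite.op (eps0 A b) • _ = 0
    rw [ha, hb]
    simp

theorem smul_eq (F H : KK I (Eps A)) (h1 : kmap (eps0 A) F = 0)
    (h2 : kmap (eps0 A) H = ksnd F) : F = epsE A • H := by
  refine ext_of ?_ ?_
  · rw [h1]
    funext i
    ext n
    change (0 : A) = eps0 A (epsE A * (H i).coeff n)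
    rw [map_mul]
    simp [epsE]
  · rw [← h2]
    funext i
    ext n
    change eps0 A ((H i).coeff n) = (epsE A * (H i).coeff n).snd
    rw [TrivSqZeroExt.snd_mul]
    simp [epsE]

end PDK

open _root_.Pool.Agent.MG.KX.PDK in
theorem t_PDK : Stmt_PDK := by
  intro I A _ _ _ g P hP δ
  have hb := bc_Pdel P δ
  refine ⟨?_, hb, fun f hf => exists_lift P δ f hf, ?_⟩
  · refine t_KFL (t_KSP t_KNZ) (eps0 A) (eps0_surj A) ⟨2, ker_sq A⟩ (Pdel P δ)
      (by rw [hb]; exact hP) ?_
    rintro F ⟨hF, dF⟩ h0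
    have e : (⟨kmap (eps0 A) F, hF⟩ : P) = 0 := Subtype.ext h0
    rw [e, map_zero] at dF
    have h1 : ksnd F ∈ P := mk_zero.1 dF.symm
    obtain ⟨H, hH, h2⟩ := exists_lift P δ _ h1
    rw [smul_eq F H h0 h2]
    refine Submodule.smul_mem_smul ?_ hH
    rw [RingHom.mem_ker]
    simp [epsE]
  · intro δ' hδ
    refine Derivation.ext fun f => ?_
    obtain ⟨h, hh⟩ := mk_surj P (δ f)
    have h1 : lift (f : KK I A) h ∈ Pdel P δ' := by
      rw [← hδ]
      exact lift_mem f hh
    obtain ⟨h2, h3⟩ := h1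
    rw [ksnd_lift, hh] at h3
    rw [← h3]
    exact congrArg δ' (Subtype.ext (eps0_lift _ _))

end Pool.Agent.MG.KX


end

section

/-!
# The derivation `d/dζ` of the separable closure of `F(ζ)` (module G0_GDV)
-/

open Polynomial TensorProduct

namespace Pool.Agent.MG.G0

namespace GDV

open KaehlerDifferential

theorem exists_der {F L : Type} [Field F] [Field L] [Algebra F L] (Q : Type) [Field Q]
    [Algebra F[X] Q] [IsFractionRing F[X] Q] [Algebra Q L] [Algebra F[X] L]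
    [IsScalarTower F[X] Q L] [IsScalarTower F F[X] L] [Algebra.IsSeparable Q L] :
    ∃ δ : Derivation F L L, δ (algebraMap F[X] L X) = 1 := by
  have h1 : Algebra.FormallyEtale F[X] Q :=
    Algebra.FormallyEtale.of_isLocalization (nonZeroDivisors F[X])
  have h2 : Algebra.FormallyEtale Q L := Algebra.FormallyEtale.of_isSeparable Q L
  have h3 : Algebra.FormallyEtale F[X] L := Algebra.FormallyEtale.comp F[X] Q L
  let Ψ := (tensorKaehlerEquivOfFormallyEtale F F[X] L).symm ≪≫ₗ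
    (AlgebraTensorModule.congr (LinearEquiv.refl L L) (polynomialEquiv F)) ≪≫ₗ
    (AlgebraTensorModule.rid F[X] L L)
  refine ⟨Ψ.toLinearMap.compDer (D F L), ?_⟩
  show Ψ (D F L (algebraMap F[X] L X)) = 1
  have h4 := tensorKaehlerEquivOfFormallyEtale_symm_D_algebraMap F F[X] L X
  simp only [Ψ, LinearEquiv.trans_apply, h4, AlgebraTensorModule.congr_tmul,
    LinearEquiv.refl_apply, polynomialEquiv_D, derivative_X, AlgebraTensorModule.rid_tmul,
    one_smul]

end GDV

theorem t_GDV : Stmt_GDV := by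
  intro F K _ _ _ ζ hζ
  let iK : Algebra F[X] K := (aeval ζ : F[X] →ₐ[F] K).toRingHom.toAlgebra
  have hst : IsScalarTower F F[X] K := IsScalarTower.of_algebraMap_eq' (by
    ext a
    change algebraMap F K a = aeval ζ (C a)
    simp)
  have hinj : Function.Injective (algebraMap F[X] K) := transcendental_iff_injective.1 hζ
  have hf : FaithfulSMul F[X] K := (faithfulSMul_iff_algebraMap_injective F[X] K).2 hinj
  let iQ : Algebra (FractionRing F[X]) K := FractionRing.liftAlgebra F[X] K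
  have hst2 : IsScalarTower F[X] (FractionRing F[X]) K := inferInstance
  have hst3 : IsScalarTower F (FractionRing F[X]) K := IsScalarTower.of_algebraMap_eq (by
    intro a
    rw [IsScalarTower.algebraMap_apply F F[X] (FractionRing F[X]),
      ← IsScalarTower.algebraMap_apply F[X] (FractionRing F[X]) K,
      ← IsScalarTower.algebraMap_apply F F[X] K])
  let L₀ : IntermediateField (FractionRing F[X]) K := separableClosure (FractionRing F[X]) K
  have hX : algebraMap F[X] K X = ζ := by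
    change aeval ζ X = ζ
    simp
  have hz : ζ ∈ L₀ := by
    rw [← hX, IsScalarTower.algebraMap_apply F[X] (FractionRing F[X]) K]
    exact L₀.algebraMap_mem _
  have hst4 : IsScalarTower F F[X] L₀ := IsScalarTower.of_algebraMap_eq fun a => by
    apply Subtype.ext
    show algebraMap F K a = algebraMap F[X] K (algebraMap F F[X] a)
    rw [← IsScalarTower.algebraMap_apply F F[X] K]
  obtain ⟨δ, hδ⟩ := GDV.exists_der (F := F) (L := L₀) (FractionRing F[X])
  refine ⟨L₀.restrictScalars F, hz, δ, ?_, ?_⟩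
  · have h1 : algebraMap F[X] L₀ X = ⟨ζ, hz⟩ := Subtype.ext hX
    rw [h1] at hδ
    exact hδ
  · intro q x hq hx
    have h1 : IsSeparable L₀ x := by
      have h2 : (minpoly L₀ x) ∣ q := minpoly.dvd L₀ x hx
      exact hq.of_dvd h2
    have h3 : x ∈ separableClosure L₀ K := mem_separableClosure_iff.2 h1
    rw [separableClosure.separableClosure_eq_bot, IntermediateField.mem_bot] at h3
    obtain ⟨y, rfl⟩ := h3
    exact y.2

end Pool.Agent.MG.G0


end

section

/-!
# NKE: surjective base change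
-/

open TensorProduct

namespace Pool.Agent.MG.G0

namespace NKE

section

variable {A B M : Type} [CommRing A] [CommRing B] [AddCommGroup M] [Module A M]

/-- `q` is a combination with coefficients in the kernel of `φ`. -/
def Cmb (φ : A →+* B) (q : M) : Prop :=
  ∃ (n : ℕ) (μ : Fin n → A) (r : Fin n → M), (∀ k, φ (μ k) = 0) ∧ q = ∑ k, μ k • r k

theorem Cmb.zero (φ : A →+* B) : Cmb φ (0 : M) :=
  ⟨0, Fin.elim0, Fin.elim0, fun k => k.elim0, by simp⟩

theorem Cmb.one {φ : A →+* B} {μ : A} (h : φ μ = 0) (r : M) : Cmb φ (μ • r) :=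
  ⟨1, fun _ => μ, fun _ => r, fun _ => h, by simp⟩

theorem Cmb.add {φ : A →+* B} {q q' : M} (h : Cmb φ q) (h' : Cmb φ q') : Cmb φ (q + q') := by
  obtain ⟨n, μ, r, h1, h2⟩ := h
  obtain ⟨n', μ', r', h1', h2'⟩ := h'
  refine ⟨n + n', Fin.append μ μ', Fin.append r r', ?_, ?_⟩
  · intro k
    refine Fin.addCases (fun i => ?_) (fun i => ?_) k
    · rw [Fin.append_left]
      exact h1 i
    · rw [Fin.append_right]
      exact h1' i
  · rw [Fin.sum_univ_add, h2, h2']
    simp only [Fin.append_left, Fin.append_right]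

theorem cmb_of_tmul [Algebra A B] (hφ : Function.Surjective (algebraMap A B)) (q : M)
    (h : (1 : B) ⊗ₜ[A] q = 0) : Cmb (algebraMap A B) q := by
  let i : (RingHom.ker (algebraMap A B) : Ideal A) →ₗ[A] A := Submodule.subtype _
  have hex : Function.Exact i (Algebra.linearMap A B) := by
    intro a
    constructor
    · intro ha
      exact ⟨⟨a, ha⟩, rfl⟩
    · rintro ⟨b, rfl⟩
      exact b.2
  have h1 := rTensor_exact M hex (show Function.Surjective (Algebra.linearMap A B) from hφ)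
  have h2 : LinearMap.rTensor M (Algebra.linearMap A B) ((1 : A) ⊗ₜ[A] q) = 0 := by
    rw [LinearMap.rTensor_tmul, Algebra.linearMap_apply, map_one]
    exact h
  obtain ⟨y, hy⟩ := (h1 _).1 h2
  have h3 : q = TensorProduct.lid A M (LinearMap.rTensor M i y) := by
    rw [hy, TensorProduct.lid_tmul, one_smul]
  rw [h3]
  clear hy h3 h2 h
  induction y using TensorProduct.induction_on with
  | zero =>
    rw [map_zero, map_zero]
    exact Cmb.zero _
  | tmul a m =>
    rw [LinearMap.rTensor_tmul, TensorProduct.lid_tmul]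
    exact Cmb.one a.2 m
  | add y y' h h' =>
    rw [map_add, map_add]
    exact h.add h'

end

end NKE

open _root_.Pool.Agent.MG.G0.NKE in
theorem t_NKE (_hKBC : Stmt_KBC) (hKBT : Stmt_KBT) : Stmt_NKE := by
  intro A B _ _ φ g P hφ hP
  refine ⟨?_, ?_⟩
  · intro x hx
    have h1 : (fun _ : Unit => x) ∈ bc φ (uno P) := by
      rw [bc_uno]
      exact hx
    obtain ⟨p, hp, hp'⟩ := KFL.bc_surj hφ (uno P) h1
    exact ⟨p (), hp, congrFun hp' ()⟩
  · intro p hp hp0
    let _ : Algebra A B := φ.toAlgebra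
    obtain ⟨h1, -⟩ := hKBT (B := B) (show IsKr g (uno P) from hP)
    have h2 := h1 1 (fun _ => 1) (fun _ => ⟨fun _ => p, hp⟩) (by
      rw [Fin.sum_univ_one, one_smul]
      funext i
      exact hp0)
    rw [Fin.sum_univ_one] at h2
    obtain ⟨n, μ, r, h3, h4⟩ := cmb_of_tmul (show Function.Surjective (algebraMap A B) from hφ) _ h2
    refine ⟨n, μ, fun k => (r k : KK Unit A) (), h3, fun k => (r k).2, ?_⟩
    have h5 := congrArg (fun f : uno P => (f : KK Unit A) ()) h4
    refine Eq.trans h5 ?_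
    simp only [AddSubmonoidClass.coe_finsetSum, Finset.sum_apply]
    rfl

end Pool.Agent.MG.G0


end
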