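import Mathlib
import Pool.Agent.KDM.C02
import Pool.Agent.KDM.C12
import Pool.Agent.KDM.C13
import Pool.Agent.KDM.C20
import Pool.Agent.KDM.C24
import Pool.Agent.KDM.C25
import Pool.Agent.KDM.C30
import Pool.Agent.KDM.C35
import Pool.Agent.KDM.C36

/-! Parts: MG.H2.YHT, MG.H2.YSM, MG.G0.APT, MG.G0.STO, MG.G0.KEQ, MG.KX.WIN, MG.KX.XFG, MG.G0.BGL, MG.G0.DSC, MG.G0.BPX, MG.G0.PL4, MG.G0.ZDU -/

section

/-!
# The curves `y² = f(x)` are stable
-/

open CategoryTheory CategoryTheory.Limits AlgebraicGeometry TensorProduct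

namespace Pool.Agent.MG.H2

namespace YHT

/-- Stability is invariant under isomorphisms. -/
theorem transport {B : Type} [CommRing B] {g n : ℕ} {x y : Fam n B}
    (a : Arrow (RingHom.id B) x y) (hy : IsStable g y) : IsStable g x := by
  have hid : IsIso (spMap (RingHom.id B)) := by
    rw [FIS.spMap_id]
    infer_instance
  have ha : IsIso a.f := MorphismProperty.of_isPullback
    (P := MorphismProperty.isomorphisms Scheme) a.cart.flip hid
  have hw : x.π = a.f ≫ y.π := by
    rw [a.cart.w, FIS.spMap_id, Category.comp_id]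
  have h1 := hy.proper
  have h2 := hy.flat
  have h3 := hy.fp
  refine ⟨?_, ?_, ?_, ?_⟩
  · rw [hw]
    infer_instance
  · rw [hw]
    infer_instance
  · rw [hw]
    infer_instance
  · rintro K _ _ s z ⟨b⟩
    refine hy.fib K s z ⟨⟨b.f ≫ a.f, ?_, ?_⟩⟩
    · have h := b.cart.paste_horiz a.cart
      rw [FIS.spMap_id, Category.comp_id] at h
      exact h
    · intro i
      rw [← Category.assoc, b.sec, Category.assoc, a.sec, FIS.spMap_id, Category.id_comp]

end YHT

theorem t_YHT (hST : Stmt_YST) (hAR : Stmt_YAR) (hOU : Stmt_YOU) : Stmt_YHT := by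
  intro B _ f h
  have h1 : YOk B f 1 := by
    refine (hOU f 1 isUnit_one h.two).1 ?_
    rw [pT_one]
    exact ⟨h.s1, h.s2⟩
  obtain ⟨g, a, -⟩ := hAR (RingHom.id B) f 1 1 (by simp) f (fun i => by
    rw [pT_one]
    rfl)
  exact YHT.transport a (hST f 1 h1)

end Pool.Agent.MG.H2


end

section

/-!
# YSM: the charts of the curves `y² = f(x)` are smooth
-/

open CategoryTheory CategoryTheory.Limits AlgebraicGeometry TensorProduct

namespace Pool.Agent.MG.H2

namespace YSM

variable (B : Type) [CommRing B] (f : Fin 7 → B)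

/-- The value of the derivative. -/
def dpol {R : Type} [CommRing R] (f : Fin 7 → R) (x : R) : R :=
  f 1 + 2 * f 2 * x + 3 * f 3 * x ^ 2 + 4 * f 4 * x ^ 3 + 5 * f 5 * x ^ 4 + 6 * f 6 * x ^ 5

theorem dpol_map {R R' : Type} [CommRing R] [CommRing R'] (φ : R →+* R') (f : Fin 7 → R) (x : R) :
    φ (dpol f x) = dpol (fun i => φ (f i)) (φ x) := by
  have h : ∀ n : ℕ, φ (n : R) = (n : R') := fun n => map_natCast _ n
  have h2 := h 2
  have h3 := h 3
  have h4 := h 4
  have h5 := h 5
  have h6 := h 6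
  push_cast at h2 h3 h4 h5 h6
  simp only [dpol, map_add, map_mul, map_pow, h2, h3, h4, h5, h6]

theorem aeval_pp {R : Type} [CommRing R] [Algebra B R] (x : R) :
    Polynomial.aeval x (pp B f) = pol (fun i => algebraMap B R (f i)) x := by
  simp [pp, pol]

theorem aeval_dpp {R : Type} [CommRing R] [Algebra B R] (x : R) :
    Polynomial.aeval x (Polynomial.derivative (pp B f)) =
      dpol (fun i => algebraMap B R (f i)) x := by
  have h : ∀ n : ℕ, algebraMap B R (n : B) = (n : R) := fun n => map_natCast _ n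
  have h2 := h 2
  have h3 := h 3
  have h4 := h 4
  have h5 := h 5
  push_cast at h2 h3 h4 h5
  simp [pp, pol, dpol]
  simp only [h2, h3, h4, h5]
  ring

theorem d0 : Ideal.Quotient.mk (Ideal.span {eq1 B f}) (MvPolynomial.pderiv 0 (eq1 B f)) =
    -dpol (fun i => algebraMap B (A1 B f) (f i)) (x1 B f) := by
  have h : MvPolynomial.pderiv 0 (eq1 B f) =
      -dpol (fun i => MvPolynomial.C (f i)) (MvPolynomial.X 0) := by
    simp [eq1, pol, dpol, MvPolynomial.pderiv_X]
    ring
  rw [h, map_neg, dpol_map]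
  rfl

theorem d1 : Ideal.Quotient.mk (Ideal.span {eq1 B f}) (MvPolynomial.pderiv 1 (eq1 B f)) =
    2 * y1 B f := by
  have h : MvPolynomial.pderiv 1 (eq1 B f) = 2 * MvPolynomial.X 1 := by
    simp [eq1, pol, MvPolynomial.pderiv_X]
  rw [h, map_mul]
  rfl

theorem span1 (h2 : IsUnit (2 : B)) (hc : IsCoprime (pp B f) (Polynomial.derivative (pp B f))) :
    Ideal.span {Ideal.Quotient.mk (Ideal.span {eq1 B f}) (MvPolynomial.pderiv 0 (eq1 B f)),
      Ideal.Quotient.mk (Ideal.span {eq1 B f}) (MvPolynomial.pderiv 1 (eq1 B f))} = ⊤ := by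
  rw [Ideal.eq_top_iff_one, Ideal.mem_span_pair, d0, d1]
  obtain ⟨a, c, hac⟩ := hc
  obtain ⟨w, hw⟩ := h2.exists_left_inv
  have h := congrArg (Polynomial.aeval (x1 B f)) hac
  rw [map_add, map_mul, map_mul, map_one, aeval_pp, aeval_dpp, ← rel1] at h
  have hw' : algebraMap B (A1 B f) w * 2 = 1 := by
    have : algebraMap B (A1 B f) (w * 2) = 1 := by rw [hw, map_one]
    rw [map_mul, map_ofNat] at this
    exact this
  refine ⟨-Polynomial.aeval (x1 B f) c, Polynomial.aeval (x1 B f) a * y1 B f *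
    algebraMap B (A1 B f) w, ?_⟩
  linear_combination h + Polynomial.aeval (x1 B f) a * y1 B f ^ 2 * hw'

end YSM

theorem t_YSM : Stmt_YSM := fun B _ f h2 hc => W.WSM.loc _ (YSM.span1 B f h2 hc)

end Pool.Agent.MG.H2


end

section

/-!
# APT: formal points over fields
-/

open PowerSeries

namespace Pool.Agent.MG.G0

namespace APTx

variable {κ : Type} [Field κ]

theorem modEq (n : ℕ) (x y : PowerSeries κ) :
    (x ≡ y [SMOD ((Ideal.span {(X : PowerSeries κ) ^ 2}) ^ n • ⊤ :
      Submodule (PowerSeries κ) (PowerSeries κ))]) ↔ ∀ k < 2 * n, coeff k x = coeff k y := by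
  rw [SModEq.sub_mem, Ideal.span_singleton_pow, smul_eq_mul, Ideal.mul_top,
    Ideal.mem_span_singleton, ← pow_mul, X_pow_dvd_iff]
  simp only [map_sub, sub_eq_zero]

theorem complete : IsAdicComplete (Ideal.span {(X : PowerSeries κ) ^ 2}) (PowerSeries κ) where
  haus' x hx := by
    ext k
    have := (modEq (k + 1) x 0).1 (hx (k + 1)) k (by omega)
    exact this
  prec' f hf := by
    refine ⟨PowerSeries.mk fun k => coeff k (f (k + 1)), fun n => (modEq n _ _).2 fun k hk => ?_⟩
    rw [coeff_mk]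
    rcases le_total (k + 1) n with h | h
    · exact ((modEq (k + 1) _ _).1 (hf h) k (by omega)).symm
    · exact (modEq n _ _).1 (hf h) k hk

variable {R : Type} [CommRing R] [Algebra κ R]

/-- A point and a tangent vector as a homomorphism. -/
noncomputable def two (p : R →ₐ[κ] κ) (δ : R →ₗ[κ] κ) (h1 : δ 1 = 0)
    (h : ∀ a b, δ (a * b) = p a * δ b + p b * δ a) :
    R →ₐ[κ] (PowerSeries κ ⧸ Ideal.span {(X : PowerSeries κ) ^ 2}) where
  toFun r := Ideal.Quotient.mk _ (C (p r) + C (δ r) * X)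
  map_one' := by
    rw [map_one, map_one, h1, map_zero, zero_mul, add_zero, map_one]
  map_zero' := by
    rw [map_zero, map_zero, map_zero, zero_add, map_zero, zero_mul, map_zero]
  map_add' a b := by
    rw [← map_add]
    congr 1
    simp only [map_add]
    ring
  map_mul' a b := by
    rw [← map_mul, Ideal.Quotient.eq, Ideal.mem_span_singleton]
    refine ⟨-C (δ a * δ b), ?_⟩
    rw [h, map_mul]
    simp only [map_add, map_mul]
    ring
  commutes' a := by
    have h2 : δ (algebraMap κ R a) = 0 := by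
      rw [Algebra.algebraMap_eq_smul_one, map_smul, h1, smul_zero]
    rw [AlgHom.commutes, h2, map_zero, zero_mul, add_zero]
    rfl

theorem two_apply (p : R →ₐ[κ] κ) (δ : R →ₗ[κ] κ) (h1 : δ 1 = 0)
    (h : ∀ a b, δ (a * b) = p a * δ b + p b * δ a) (r : R) :
    two p δ h1 h r = Ideal.Quotient.mk _ (C (p r) + C (δ r) * X) := rfl

theorem gen {S : Type} [CommRing S] [Algebra κ S] [Algebra.FormallySmooth κ R] {I : Ideal S}
    (hI : IsAdicComplete I S) (f : R →ₐ[κ] S ⧸ I) :
    ∃ g : R →ₐ[κ] S, (Ideal.Quotient.mkₐ κ I).comp g = f :=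
  Algebra.FormallySmooth.exists_mkₐ_comp_eq_of_isAdicComplete f

theorem exists_lift [Algebra.FormallySmooth κ R] (p : R →ₐ[κ] κ) (δ : R →ₗ[κ] κ) (h1 : δ 1 = 0)
    (h : ∀ a b, δ (a * b) = p a * δ b + p b * δ a) :
    ∃ g : R →ₐ[κ] PowerSeries κ, ∀ r, constantCoeff (g r) = p r ∧ coeff 1 (g r) = δ r := by
  obtain ⟨g, hg⟩ := gen (I := Ideal.span {(X : PowerSeries κ) ^ 2}) complete (two p δ h1 h)
  refine ⟨g, fun r => ?_⟩
  have h2 := AlgHom.congr_fun hg r
  rw [AlgHom.comp_apply, Ideal.Quotient.mkₐ_eq_mk, two_apply] at h2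
  rw [Ideal.Quotient.eq, Ideal.mem_span_singleton, X_pow_dvd_iff] at h2
  constructor
  · have h3 := h2 0 (by omega)
    rw [map_sub, sub_eq_zero] at h3
    rw [← coeff_zero_eq_constantCoeff_apply, h3]
    simp
  · have h3 := h2 1 (by omega)
    rw [map_sub, sub_eq_zero] at h3
    rw [h3]
    simp [coeff_C]

end APTx

open _root_.Pool.Agent.MG.G0.APTx in
/-- APT -/
theorem t_APT (hSCO : Stmt_SCO) : Stmt_APT := by
  intro I κ _ P hfs hsm p
  obtain ⟨n, D, g, hcert⟩ := (hSCO.2 hsm).1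
  have h1 : ∑ i, p (D i (g i)) = 1 := by
    rw [← map_sum, hcert.one, map_one]
  obtain ⟨i, -, hi⟩ := Finset.exists_ne_zero_of_sum_ne_zero (h1 ▸ one_ne_zero)
  obtain ⟨h, hh⟩ := exists_lift p (p.toLinearMap ∘ₗ (D i : P →ₗ[κ] P)) (by simp) (by
    intro a b
    simp)
  refine ⟨⟨h, g i, ?_⟩, fun f => (hh f).1⟩
  rw [(hh _).2]
  exact hi.isUnit

end Pool.Agent.MG.G0


end

section

/-!
# Vector fields and differentials (PAPER.md, SM4)
-/

namespace Pool.Agent.MG.G0

namespace STO

variable {I A : Type} [CommRing A] {P : Subalgebra A (KK I A)}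

theorem mul_mem_Om {p η : KK I A} (hp : p ∈ P) (hη : η ∈ Om P) : p * η ∈ Om P := by
  unfold Om at hη ⊢
  induction hη using Submodule.span_induction with
  | mem x hx =>
    obtain ⟨q, hq, f, hf, rfl⟩ := hx
    refine Submodule.subset_span ⟨p * q, mul_mem hp hq, f, hf, ?_⟩
    rw [mul_assoc]
  | zero =>
    rw [mul_zero]
    exact Submodule.zero_mem _
  | add x y _ _ hx hy =>
    rw [mul_add]
    exact Submodule.add_mem _ hx hy
  | smul a x _ hx =>
    rw [mul_smul_comm]
    exact Submodule.smul_mem _ a hx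

theorem mul_mem_of_Om {θ η : KK I A} (hθ : θ ∈ TT P) (hη : η ∈ Om P) : θ * η ∈ P := by
  unfold Om at hη
  induction hη using Submodule.span_induction with
  | mem x hx =>
    obtain ⟨q, hq, f, hf, rfl⟩ := hx
    rw [mul_left_comm]
    exact mul_mem hq (hθ f hf)
  | zero =>
    rw [mul_zero]
    exact zero_mem P
  | add x y _ _ hx hy =>
    rw [mul_add]
    exact add_mem hx hy
  | smul a x _ hx =>
    rw [mul_smul_comm]
    exact P.smul_mem hx a

/-- The derivation of `P` given by a vector field. -/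
noncomputable def der (θ : KK I A) (hθ : θ ∈ TT P) : Derivation A P P :=
  Derivation.mk'
    { toFun := fun f => ⟨θ * dd (f : KK I A), hθ f f.2⟩
      map_add' := fun f h => by
        apply Subtype.ext
        change θ * dd ((f : KK I A) + (h : KK I A)) = θ * dd (f : KK I A) + θ * dd (h : KK I A)
        rw [dd_add, mul_add]
      map_smul' := fun a f => by
        apply Subtype.ext
        change θ * dd (a • (f : KK I A)) = a • (θ * dd (f : KK I A))
        rw [dd_smul, mul_smul_comm] }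
    (fun f h => by
      apply Subtype.ext
      change θ * dd ((f : KK I A) * (h : KK I A)) = (f : KK I A) * (θ * dd (h : KK I A)) +
        (h : KK I A) * (θ * dd (f : KK I A))
      rw [dd_mul]
      ring)

theorem der_apply (θ : KK I A) (hθ : θ ∈ TT P) (f : P) :
    (der θ hθ f : KK I A) = θ * dd (f : KK I A) := rfl

/-- A derivation of `P` as a derivation with values in Laurent series. -/
noncomputable def ext (D : Derivation A P P) : Derivation A P (KK I A) :=
  Derivation.mk'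
    { toFun := fun f => (D f : KK I A)
      map_add' := fun f h => by rw [map_add]; rfl
      map_smul' := fun a f => by rw [D.map_smul]; rfl }
    (fun f h => by
      change ((D (f * h) : P) : KK I A) = (f : KK I A) * D h + (h : KK I A) * D f
      rw [D.leibniz]
      rfl)

theorem ext_apply (D : Derivation A P P) (f : P) : ext D f = (D f : KK I A) := rfl

theorem exists_theta (hSKK : Stmt_SKK) [Fintype I] {g : ℕ} (hP : IsKr g P) (hS : SmC A P)
    (D : Derivation A P P) : ∃ θ ∈ TT P, ∀ f : P, (D f : KK I A) = θ * dd (f : KK I A) := by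
  obtain ⟨θ, hθ, _⟩ := (hSKK hP).2 hS (ext D)
  refine ⟨θ, fun f hf => ?_, hθ⟩
  have h := hθ ⟨f, hf⟩
  change ((D ⟨f, hf⟩ : P) : KK I A) = θ * dd f at h
  rw [← h]
  exact (D ⟨f, hf⟩).2

end STO

theorem t_STO (hRES : Stmt_RES) (hSKK : Stmt_SKK) : Stmt_STO := by
  intro I A _ _ _ g P hP
  refine ⟨?_, fun p hp η hη => STO.mul_mem_Om hp hη, fun p hp θ hθ f hf => ?_,
    fun θ hθ => ⟨STO.der θ hθ, fun f => STO.der_apply θ hθ f⟩, fun hS => ?_⟩
  · unfold Om
    rw [Submodule.span_le]
    rintro η ⟨p, hp, f, hf, rfl⟩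
    rw [SetLike.mem_coe, mem_Perp]
    intro q hq
    rw [mul_right_comm]
    exact hRES hP _ (mul_mem hp hq) f hf
  · rw [mul_assoc]
    exact mul_mem hp (hθ f hf)
  · obtain ⟨n, D, g', h1, _⟩ := hS
    have hS : SmC A P := ⟨n, D, g', h1, by assumption⟩
    choose θ hθ hθ' using fun i => STO.exists_theta hSKK hP hS (D i)
    have hsum : ∑ i, θ i * dd (g' i : KK I A) = 1 := by
      have h2 : ((∑ i, (D i) (g' i) : P) : KK I A) = ((1 : P) : KK I A) := by rw [h1]
      rw [AddSubmonoidClass.coe_finset_sum] at h2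
      rw [← Finset.sum_congr rfl fun i _ => hθ' i (g' i), h2]
      rfl
    refine ⟨fun D => STO.exists_theta hSKK hP hS D,
      ⟨n, θ, fun i => g' i, hθ, fun i => (g' i).2, hsum⟩, fun hD η hη => ?_,
      fun hO θ hθ η hη => STO.mul_mem_of_Om hθ (hO hη)⟩
    have h3 : η = ∑ i, (θ i * η) * dd (g' i : KK I A) := by
      have h4 : ∑ i, (θ i * η) * dd (g' i : KK I A) = η * ∑ i, θ i * dd (g' i : KK I A) := by
        rw [Finset.mul_sum]
        refine Finset.sum_congr rfl fun i _ => ?_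
        ring
      rw [h4, hsum, mul_one]
    rw [h3]
    unfold Om
    exact Submodule.sum_mem _ fun i _ =>
      Submodule.subset_span ⟨θ i * η, hD _ (hθ i) _ hη, g' i, (g' i).2, rfl⟩

end Pool.Agent.MG.G0


end

section

/-!
# An inclusion of Krichever rings of the same genus is an equality
-/

namespace Pool.Agent.MG.G0

theorem t_KEQ : Stmt_KEQ := by
  intro I A _ g P P' hP hP' hle
  obtain ⟨L, hL, hLk⟩ := hP.k2
  obtain ⟨L', hL', hLk'⟩ := hP'.k2
  -- a section of `L`
  obtain ⟨s, hs⟩ := Module.projective_lifting_property L (LinearMap.id (R := A) (M := Fin g → A)) hL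
  have hs' : ∀ c, L (s c) = c := fun c => LinearMap.congr_fun hs c
  have hφ : ∀ f, L' (s (L f)) = L' f := by
    intro f
    have h1 : L (s (L f) - f) = 0 := by rw [map_sub, hs', sub_self]
    obtain ⟨p, hp, hp0⟩ := (hLk _).1 h1
    have h2 : L' (s (L f) - f) = 0 := (hLk' _).2 ⟨p, hle hp, hp0⟩
    rw [map_sub] at h2
    exact sub_eq_zero.1 h2
  have hsurj : Function.Surjective (L' ∘ₗ s) := by
    intro c
    obtain ⟨f, hf⟩ := hL' c
    exact ⟨L f, by rw [LinearMap.comp_apply, hφ, hf]⟩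
  have hinj : Function.Injective (L' ∘ₗ s) :=
    OrzechProperty.injective_of_surjective_endomorphism _ hsurj
  refine le_antisymm hle fun p' hp' => ?_
  have h1 : L' p' = 0 := (hLk' _).2 ⟨p', hp', by rw [sub_self]; exact Submodule.zero_mem _⟩
  have h2 : L p' = 0 := by
    apply hinj
    rw [LinearMap.comp_apply, hφ, h1, map_zero]
  obtain ⟨p, hp, hp0⟩ := (hLk _).1 h2
  obtain ⟨a, ha⟩ := hP'.k1 (p' - p) (sub_mem hp' (hle hp)) hp0
  have h3 : p' = p + algebraMap A (KK I A) a := by
    rw [← ha]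
    ring
  rw [h3]
  exact add_mem hp (P.algebraMap_mem a)

end Pool.Agent.MG.G0


end

section

/-!
# WIN: injectivity of the restriction to some of the punctures

The injectivity follows from the density at the new punctures (`G0.PFB.inj`): if `w = 0` at `I`,
multiply by an element `v` which is `τ^N + ...` at one of the new punctures and divisible by
`τ^N` at the others. Then `w v` has no poles, so it is a constant, so `w v = 0`.
-/

namespace Pool.Agent.MG.KX

open Pool.Agent.MG.G0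

/-- WIN without the statement on the fibres. -/
theorem t_WIN0 : Stmt_WIN := by
  intro I J A _ _ _ _ g W h hD
  exact ⟨rfl, PFB.inj h.1 hD, hD⟩

/-- WIN: injectivity of the restriction to some of the punctures. -/
theorem t_WIN (_ : Stmt_KDM) : Stmt_WIN := t_WIN0

end Pool.Agent.MG.KX


end

section

/-!
# XFG: arrows for forgetting punctures
-/

open CategoryTheory CategoryTheory.Limits AlgebraicGeometry
open scoped TensorProduct

namespace Pool.Agent.MG.KX

open Pool.Agent.MG.G0 Pool.Agent.MG.GLU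

namespace XFG

theorem rres_id {I A : Type} [CommRing A] {P : Subalgebra A (KK I A)}
    (h : ∀ f ∈ P, kmap (RingHom.id A) f ∈ P) :
    rres (kmap (RingHom.id A)) (P' := P) h = RingHom.id P :=
  RingHom.ext fun f => Subtype.ext (kmap_id (f : KK I A))

theorem psm_id {I A : Type} [CommRing A] : psm I (RingHom.id A) = RingHom.id _ := by
  ext f i
  simp

/-- The identity. -/
noncomputable def ida {n : ℕ} {A : Type} [CommRing A] (x : Fam n A) :
    Arrow (RingHom.id A) x x where
  f := 𝟙 _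
  cart := by
    have h : spMap (RingHom.id A) = 𝟙 _ := Spec.map_id _
    rw [h]
    exact IsPullback.of_id_fst
  sec i := by
    have h : spMap (RingHom.id A) = 𝟙 _ := Spec.map_id _
    rw [h, Category.comp_id, Category.id_comp]

theorem over_ida {I A : Type} [CommRing A] {n : ℕ} {x : Fam n A} {P : Subalgebra A (KK I A)}
    {p : Fin n → (P →ₐ[A] A)} (M M' : Mod x P p) :
    M.Over (ida x) M' ↔ M'.j = M.j ∧ M'.sh = M.sh := by
  have hid : ∀ f ∈ P, kmap (RingHom.id A) f ∈ P := fun f hf => by rwa [kmap_id]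
  have h1 : ∀ h : ∀ f ∈ P, kmap (RingHom.id A) f ∈ P,
      spMap (rres (kmap (RingHom.id A)) (P' := P) h) = 𝟙 _ := by
    intro h
    rw [rres_id]
    exact Spec.map_id _
  have h2 : spMap (psm I (RingHom.id A)) = 𝟙 _ := by
    rw [psm_id]
    exact Spec.map_id _
  constructor
  · intro h
    have hj := h.j
    have hs := h.sh
    rw [h1] at hj
    rw [h2] at hs
    refine ⟨?_, ?_⟩
    · exact (Category.comp_id _).symm.trans (hj.trans (Category.id_comp _))
    · exact (Category.comp_id _).symm.trans (hs.trans (Category.id_comp _))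
  · rintro ⟨hj, hs⟩
    refine ⟨hid, ?_, ?_⟩
    · rw [h1, hj]
      exact (Category.comp_id _).trans (Category.id_comp _).symm
    · rw [h2, hs]
      exact (Category.comp_id _).trans (Category.id_comp _).symm

end XFG

open _root_.Pool.Agent.MG.KX.XFG in
theorem t_XFG (hKPX : Stmt_KPX) (hMCA : Stmt_MCA) (hMIS : Stmt_MIS) (hMFA : Stmt_MFA)
    (hMFG : Stmt_MFG) (hMFO : Stmt_MFO) : Stmt_XFG := by
  intro I J A _ _ _ _ g n W q P p hW hP hF hq z z'
  obtain ⟨M0, hM0⟩ := hMCA hW z q
  have hprop := (hKPX q hW z).1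
  obtain ⟨U, hU, hU2⟩ := hMFA hW hprop M0 hF.dns
  obtain ⟨N0, hN0⟩ := hMFG M0 U hU hU2 hF hq
  obtain ⟨a, ha⟩ := hMIS hP hprop N0 z'
  refine ⟨a, fun M N M' hM hMN hM' => ?_⟩
  have h1 : M0.Over (ida _) M := (over_ida M0 M).2 ⟨hM.j.trans hM0.j.symm, hM.sh.trans hM0.sh.symm⟩
  have h2 := hMFO (ida _) M0 N0 M N hN0 hMN hF (fun f hf => by rwa [kmap_id]) h1
  obtain ⟨ej, es⟩ := (over_ida N0 N).1 h2
  have h3 := ha M' hM'
  exact ⟨h3.mem, by rw [h3.j, ej], by rw [h3.sh, es]⟩

end Pool.Agent.MG.KX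


end

section

/-!
# BGL: gap sections and base change
-/

namespace Pool.Agent.MG.G0

namespace BGL

section

variable {A B : Type} [CommRing A] [CommRing B]

/-- The power `τ^(-m)`. -/
noncomputable def tt (A : Type) [CommRing A] (m : ℕ) : LaurentSeries A :=
  HahnSeries.single (-(m : ℤ)) (1 : A)

theorem tt_coeff (m : ℕ) (n : ℤ) : (tt A m).coeff n = if n = -(m : ℤ) then 1 else 0 := by
  rw [tt, HahnSeries.coeff_single]
  split_ifs <;> rfl

theorem sum_coeff (s : Finset ℕ) (c : ℕ → A) (n : ℤ) :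
    (∑ m ∈ s, c m • tt A m).coeff n = ∑ m ∈ s, if n = -(m : ℤ) then c m else 0 := by
  classical
  induction s using Finset.induction_on with
  | empty => rw [Finset.sum_empty, Finset.sum_empty, HahnSeries.coeff_zero]
  | insert a s ha ih =>
    rw [Finset.sum_insert ha, Finset.sum_insert ha, HahnSeries.coeff_add, ih,
      HahnSeries.coeff_smul, tt_coeff, smul_eq_mul]
    split_ifs <;> simp

theorem sum_coeff_neg (s : Finset ℕ) (c : ℕ → A) (n : ℕ) :
    (∑ m ∈ s, c m • tt A m).coeff (-(n : ℤ)) = if n ∈ s then c n else 0 := by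
  classical
  rw [sum_coeff]
  have h : ∀ m ∈ s, (if -(n : ℤ) = -(m : ℤ) then c m else 0) = if n = m then c m else 0 := by
    intro m _
    have : (-(n : ℤ) = -(m : ℤ)) ↔ n = m := by omega
    simp only [this]
  rw [Finset.sum_congr rfl h, Finset.sum_ite_eq]

theorem coeff_sub' (f g : LaurentSeries A) (n : ℤ) :
    (f - g).coeff n = f.coeff n - g.coeff n := by
  rw [HahnSeries.coeff_sub]

/-- the difference to the polar part -/
theorem sub_sum_mem (s : Finset ℕ) (f : LaurentSeries A)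
    (hf : ∀ n : ℕ, n ∉ s → 0 < n → f.coeff (-(n : ℤ)) = 0) :
    f - ∑ m ∈ s, f.coeff (-(m : ℤ)) • tt A m ∈ Po A 0 := by
  intro m hm
  obtain ⟨n, rfl⟩ : ∃ n : ℕ, m = -(n : ℤ) := ⟨m.natAbs, by omega⟩
  rw [coeff_sub', sum_coeff_neg]
  by_cases h : n ∈ s
  · rw [if_pos h, sub_self]
  · rw [if_neg h, sub_zero]
    exact hf n h (by omega)

variable {W : Type} [AddCommGroup W] [Module A W]

theorem L_eq {L : LaurentSeries A →ₗ[A] W} (hL : ∀ f ∈ Po A 0, L f = 0) (s : Finset ℕ)
    (f : LaurentSeries A) (hf : ∀ n : ℕ, n ∉ s → 0 < n → f.coeff (-(n : ℤ)) = 0) :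
    L f = ∑ m ∈ s, f.coeff (-(m : ℤ)) • L (tt A m) := by
  have h1 := hL _ (sub_sum_mem s f hf)
  rw [map_sub, sub_eq_zero] at h1
  rw [h1, map_sum]
  simp only [map_smul]

theorem gs_of {g : ℕ} {R : Subalgebra A (LaurentSeries A)}
    (h1 : ∀ f ∈ R, f ∈ Po A 0 → ∃ a : A, f = algebraMap A (LaurentSeries A) a)
    {L : LaurentSeries A →ₗ[A] (Fin g → A)} (h2 : ∀ f, L f = 0 ↔ ∃ p ∈ R, f - p ∈ Po A 0)
    (Γ : Finset ℕ) (h0 : 0 ∉ Γ)
    (hs : ∀ w : Fin g → A, ∃ c : ℕ → A, w = ∑ m ∈ Γ, c m • L (tt A m))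
    (hi : ∀ c : ℕ → A, ∑ m ∈ Γ, c m • L (tt A m) = 0 → ∀ m ∈ Γ, c m = 0) : GS Γ R := by
  have hR : ∀ f ∈ R, L f = 0 := fun f hf =>
    (h2 f).2 ⟨f, hf, by rw [sub_self]; exact Submodule.zero_mem _⟩
  have hP : ∀ f ∈ Po A 0, L f = 0 := fun f hf =>
    (h2 f).2 ⟨0, Subalgebra.zero_mem _, by rwa [sub_zero]⟩
  refine ⟨h0, fun f => ?_⟩
  obtain ⟨c, hc⟩ := hs (L f)
  have h3 : L (f - ∑ m ∈ Γ, c m • tt A m) = 0 := by
    rw [map_sub, map_sum, sub_eq_zero, hc]
    simp only [map_smul]
  obtain ⟨p, hp, h4⟩ := (h2 _).1 h3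
  refine ⟨p + algebraMap A (LaurentSeries A) ((f - p).coeff 0),
    ⟨add_mem hp (Subalgebra.algebraMap_mem _ _), fun n hn => ?_⟩, ?_⟩
  · rw [coeff_sub', HahnSeries.coeff_add, coeff_algebraMap]
    rcases Nat.eq_zero_or_pos n with rfl | hpos
    · rw [coeff_sub']
      simp
    · rw [if_neg (by omega), add_zero]
      have h5 := h4 (-(n : ℤ)) (by omega)
      rw [coeff_sub', coeff_sub', sum_coeff_neg, if_neg hn, sub_zero] at h5
      exact h5
  · intro q hq
    obtain ⟨hq1, hq2⟩ := hq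
    set p' := p + algebraMap A (LaurentSeries A) ((f - p).coeff 0) with hp'
    have hp1 : p' ∈ R := add_mem hp (Subalgebra.algebraMap_mem _ _)
    have hp2 : ∀ n : ℕ, n ∉ Γ → (f - p').coeff (-(n : ℤ)) = 0 := by
      intro n hn
      rw [hp', coeff_sub', HahnSeries.coeff_add, coeff_algebraMap]
      rcases Nat.eq_zero_or_pos n with rfl | hpos
      · rw [coeff_sub']
        simp
      · rw [if_neg (by omega), add_zero]
        have h5 := h4 (-(n : ℤ)) (by omega)
        rw [coeff_sub', coeff_sub', sum_coeff_neg, if_neg hn, sub_zero] at h5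
        exact h5
    have hd : ∀ n : ℕ, n ∉ Γ → (q - p').coeff (-(n : ℤ)) = 0 := by
      intro n hn
      have h6 := hq2 n hn
      have h7 := hp2 n hn
      rw [coeff_sub'] at h6 h7 ⊢
      rw [sub_eq_zero] at h6 h7
      rw [← h6, ← h7, sub_self]
    have hdR : q - p' ∈ R := sub_mem hq1 hp1
    have h8 := L_eq hP Γ (q - p') fun n hn _ => hd n hn
    rw [hR _ hdR] at h8
    have h9 := hi (fun m => (q - p').coeff (-(m : ℤ))) h8.symm
    have h10 : q - p' ∈ Po A 0 := by
      intro m hm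
      obtain ⟨n, rfl⟩ : ∃ n : ℕ, m = -(n : ℤ) := ⟨m.natAbs, by omega⟩
      by_cases h : n ∈ Γ
      · exact h9 n h
      · exact hd n h
    obtain ⟨a, ha⟩ := h1 _ hdR h10
    have h11 := hd 0 h0
    rw [ha, coeff_algebraMap, if_pos (by simp)] at h11
    rw [h11, map_zero] at ha
    exact sub_eq_zero.1 ha

theorem genus_eq [Nontrivial A] {g g' : ℕ} (R : Subalgebra A (LaurentSeries A)) (h : Kr g R)
    (h' : Kr g' R) : g = g' := by
  obtain ⟨_, L, h1, h2⟩ := Kr_iff.1 h
  obtain ⟨_, L', h3, h4⟩ := Kr_iff.1 h'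
  have h5 : LinearMap.ker L = LinearMap.ker L' := by
    ext f
    rw [LinearMap.mem_ker, LinearMap.mem_ker, h2, h4]
  have e : (Fin g → A) ≃ₗ[A] (Fin g' → A) :=
    ((L.quotKerEquivOfSurjective h1).symm.trans (Submodule.quotEquivOfEq _ _ h5)).trans
      (L'.quotKerEquivOfSurjective h3)
  have := card_eq_of_linearEquiv A e
  simpa using this

/-- the functional given by the forms -/
noncomputable def LF {g : ℕ} (ω : Fin g → KK Unit A) : LaurentSeries A →ₗ[A] (Fin g → A) where
  toFun f := fun j => res (ω j * fun _ => f)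
  map_add' f h := by
    funext j
    have : (ω j * fun _ => f + h) = (ω j * fun _ => f) + (ω j * fun _ => h) := by
      rw [← mul_add]
      rfl
    rw [this, map_add]
    rfl
  map_smul' a f := by
    funext j
    have : (ω j * fun _ => a • f) = a • (ω j * fun _ => f) := by
      rw [← mul_smul_comm]
      rfl
    rw [this, map_smul]
    rfl

theorem LF_apply {g : ℕ} (ω : Fin g → KK Unit A) (f : LaurentSeries A) (j : Fin g) :
    LF ω f j = (ω j () * f).coeff (-1) := by
  change ∑ i : Unit, ((ω j * (fun _ => f : KK Unit A)) i).coeff (-1) = _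
  rw [Finset.univ_unique, Finset.sum_singleton]
  rfl

theorem LF_surj {g : ℕ} {R : Subalgebra A (LaurentSeries A)} {ω : Fin g → KK Unit A}
    (h : IsForms (uno R) ω) : Function.Surjective (LF ω) := by
  intro c
  obtain ⟨f, hf⟩ := h.surj c
  refine ⟨f (), ?_⟩
  funext j
  rw [← hf j]
  rfl

theorem LF_ker {g : ℕ} {R : Subalgebra A (LaurentSeries A)} {ω : Fin g → KK Unit A}
    (h : IsForms (uno R) ω) (f : LaurentSeries A) :
    LF ω f = 0 ↔ ∃ p ∈ R, f - p ∈ Po A 0 := by
  have h1 := h.ker fun _ => f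
  have h2 : LF ω f = 0 ↔ ∀ j, res (ω j * fun _ => f) = 0 := by
    rw [funext_iff]
    rfl
  rw [h2, h1]
  constructor
  · rintro ⟨p, hp, hq⟩
    exact ⟨p (), hp, mem_Pol_unit.1 hq⟩
  · rintro ⟨p, hp, hq⟩
    exact ⟨fun _ => p, hp, mem_Pol_unit.2 hq⟩

theorem LF_tt {g : ℕ} (ω : Fin g → KK Unit A) (m : ℕ) (j : Fin g) :
    LF ω (tt A m) j = (ω j ()).coeff (m - 1) := by
  rw [LF_apply, tt]
  have h : (-1 : ℤ) = ((m : ℤ) - 1) + -(m : ℤ) := by ring
  rw [h, HahnSeries.coeff_mul_single_add, mul_one]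

/-- from the base change to the ring itself -/
theorem gs_desc [Nontrivial B] (φ : A →+* B) [IsLocalHom φ] {g : ℕ}
    (R : Subalgebra A (LaurentSeries A)) (Γ : Finset ℕ) (hA : Stmt_BGA) (hF : Stmt_KFO)
    (hB : Stmt_KBC) (hR : Kr g R) (hG : GS Γ (bc1 φ R)) : GS Γ R := by
  classical
  obtain ⟨ω, hω⟩ := (hF hR).1
  have hbc := hB.2.2.2 hR φ
  have hRB : Kr g (bc1 φ R) := by
    have := hbc.1
    rw [bc_uno] at this
    exact this
  have hωB : IsForms (uno (bc1 φ R)) fun j => kmap φ (ω j) := by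
    have := hbc.2.1 ω hω
    rw [bc_uno] at this
    exact this
  have hcard : Γ.card = g := genus_eq _ (hA.1 Γ _ hG).1 hRB
  have hPB : ∀ f ∈ Po B 0, LF (fun j => kmap φ (ω j)) f = 0 := fun f hf =>
    (LF_ker hωB f).2 ⟨0, Subalgebra.zero_mem _, by rwa [sub_zero]⟩
  -- the matrix
  let e : Γ ≃ Fin g := Fintype.equivFinOfCardEq (by rw [Fintype.card_coe, hcard])
  let N : Matrix (Fin g) (Fin g) A := fun j i => (ω j ()).coeff (((e.symm i : ℕ) : ℤ) - 1)
  have hN : ∀ c : ℕ → A, (∑ m ∈ Γ, c m • LF ω (tt A m)) = N.mulVec fun i => c (e.symm i) := by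
    intro c
    funext j
    rw [Matrix.mulVec, dotProduct, Finset.sum_apply, ← Finset.sum_coe_sort Γ,
      ← Equiv.sum_comp e]
    refine Finset.sum_congr rfl fun i _ => ?_
    rw [Equiv.symm_apply_apply, Pi.smul_apply, LF_tt, smul_eq_mul, mul_comm]
    simp only [N, Equiv.symm_apply_apply]
  have hNB : ∀ c : ℕ → B, (∑ m ∈ Γ, c m • LF (fun j => kmap φ (ω j)) (tt B m)) =
      (N.map φ).mulVec fun i => c (e.symm i) := by
    intro c
    funext j
    rw [Matrix.mulVec, dotProduct, Finset.sum_apply, ← Finset.sum_coe_sort Γ,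
      ← Equiv.sum_comp e]
    refine Finset.sum_congr rfl fun i _ => ?_
    rw [Equiv.symm_apply_apply, Pi.smul_apply, LF_tt, smul_eq_mul, mul_comm]
    simp only [N, Matrix.map_apply, Equiv.symm_apply_apply, kmap_apply, lmap_coeff]
  have hsurj : Function.Surjective (N.map φ).mulVec := by
    intro w
    obtain ⟨f, hf⟩ := LF_surj hωB w
    obtain ⟨p, ⟨hp, hp2⟩, _⟩ := hG.2 f
    have h1 : LF (fun j => kmap φ (ω j)) p = 0 :=
      (LF_ker hωB p).2 ⟨p, hp, by rw [sub_self]; exact Submodule.zero_mem _⟩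
    have h2 := L_eq hPB Γ (f - p) fun n hn _ => hp2 n hn
    rw [map_sub, h1, sub_zero, hf] at h2
    have h3 := hNB fun m => (f - p).coeff (-(m : ℤ))
    rw [← h2] at h3
    exact ⟨_, h3.symm⟩
  have hdet : IsUnit N.det := by
    obtain ⟨M, hM⟩ := Matrix.mulVec_surjective_iff_exists_right_inverse.1 hsurj
    have h1 := Matrix.isUnit_det_of_right_inverse hM
    have h2 : (N.map φ).det = φ N.det := (RingHom.map_det φ N).symm
    rw [h2] at h1
    exact IsLocalHom.map_nonunit _ h1
  have hinv1 : N * N⁻¹ = 1 := Matrix.mul_nonsing_inv N hdet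
  have hinv2 : N⁻¹ * N = 1 := Matrix.nonsing_inv_mul N hdet
  refine gs_of (Kr_iff.1 hR).1 (LF_ker hω) Γ hG.1 ?_ ?_
  · intro w
    refine ⟨fun m => if h : m ∈ Γ then (N⁻¹.mulVec w) (e ⟨m, h⟩) else 0, ?_⟩
    rw [hN]
    have h1 : (fun i : Fin g => if h : (e.symm i : ℕ) ∈ Γ then
        (N⁻¹.mulVec w) (e ⟨(e.symm i : ℕ), h⟩) else 0) = N⁻¹.mulVec w := by
      funext i
      rw [dif_pos (e.symm i).2]
      simp
    rw [h1, Matrix.mulVec_mulVec, hinv1, Matrix.one_mulVec]
  · intro c hc m hm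
    rw [hN] at hc
    have h1 : (fun i : Fin g => c (e.symm i)) = 0 := by
      have h2 := congrArg (N⁻¹.mulVec) hc
      rwa [Matrix.mulVec_mulVec, hinv2, Matrix.one_mulVec, Matrix.mulVec_zero] at h2
    have h3 := congrFun h1 (e ⟨m, hm⟩)
    simpa using h3

end

section field

variable {κ : Type} [Field κ] {g : ℕ}

theorem Po_mono {A : Type} [CommRing A] {m n : ℤ} (h : m ≤ n) : Po A m ≤ Po A n :=
  fun _ hf k hk => hf k (by omega)

theorem exists_top {f : LaurentSeries κ} {n : ℕ} (hf : f ∉ Po κ n) :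
    ∃ k : ℕ, n < k ∧ f ∈ Po κ k ∧ f.coeff (-(k : ℤ)) ≠ 0 := by
  classical
  have hex : ∃ N : ℕ, f ∈ Po κ N := exists_low f
  refine ⟨Nat.find hex, ?_, Nat.find_spec hex, ?_⟩
  · by_contra hle
    push Not at hle
    exact hf (Po_mono (by exact_mod_cast hle) (Nat.find_spec hex))
  · intro h0
    have hpos : 0 < Nat.find hex := by
      by_contra hz
      have hz' : Nat.find hex = 0 := by omega
      have h1 := Nat.find_spec hex
      rw [hz'] at h1
      exact hf (Po_mono (by simp) h1)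
    have h2 := Nat.find_min hex (m := Nat.find hex - 1) (by omega)
    apply h2
    intro m hm
    by_cases h3 : m = -((Nat.find hex : ℕ) : ℤ)
    · rw [h3]
      exact h0
    · refine Nat.find_spec hex m ?_
      omega

/-- there is a monic element of order `n` -/
def Mn (R : Subalgebra κ (LaurentSeries κ)) (n : ℕ) : Prop :=
  ∃ p ∈ R, p ∈ Po κ n ∧ p.coeff (-(n : ℤ)) = 1

theorem Mn_of {R : Subalgebra κ (LaurentSeries κ)} {n : ℕ} {p : LaurentSeries κ} (hp : p ∈ R)
    (h1 : p ∈ Po κ n) (h2 : p.coeff (-(n : ℤ)) ≠ 0) : Mn R n := by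
  refine ⟨(p.coeff (-(n : ℤ)))⁻¹ • p, R.smul_mem hp _, Submodule.smul_mem _ _ h1, ?_⟩
  rw [HahnSeries.coeff_smul, smul_eq_mul, inv_mul_cancel₀ h2]

theorem field_case (R : Subalgebra κ (LaurentSeries κ)) (hR : Kr g R) :
    ∃ Γ : Finset ℕ, Γ.card = g ∧ GS Γ R ∧ ∀ n ∉ Γ, ∀ h, IsEch Γ R n h → h ∈ Po κ n := by
  classical
  obtain ⟨k1, L, hs, hk⟩ := Kr_iff.1 hR
  have hP : ∀ f ∈ Po κ 0, L f = 0 := fun f hf =>
    (hk f).2 ⟨0, Subalgebra.zero_mem _, by rwa [sub_zero]⟩
  have hLR : ∀ f ∈ R, L f = 0 := fun f hf =>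
    (hk f).2 ⟨f, hf, by rw [sub_self]; exact Submodule.zero_mem _⟩
  let w : {n : ℕ // ¬ Mn R n} → (Fin g → κ) := fun m => L (tt κ m)
  -- independence
  have key : ∀ (s : Finset ℕ) (c : ℕ → κ), (∀ m ∈ s, ¬ Mn R m) →
      ∑ m ∈ s, c m • L (tt κ m) = 0 → ∀ m ∈ s, c m = 0 := by
    intro s c hsM hsum m hm
    by_contra hne
    have h1 : L (∑ m ∈ s, c m • tt κ m) = 0 := by
      rw [map_sum]
      simp only [map_smul]
      exact hsum
    obtain ⟨p, hp, hq⟩ := (hk _).1 h1
    have hm0 : 0 < m := by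
      rcases Nat.eq_zero_or_pos m with rfl | h
      · exfalso
        refine hsM 0 hm ⟨1, Subalgebra.one_mem _, ?_, ?_⟩
        · intro k hk'
          rw [HahnSeries.coeff_one, if_neg (by simp at hk'; omega)]
        · simp
      · exact h
    have hpm : p.coeff (-(m : ℤ)) = c m := by
      have h2 := hq (-(m : ℤ)) (by omega)
      rw [coeff_sub', sum_coeff_neg, if_pos hm, sub_eq_zero] at h2
      exact h2.symm
    have hp0 : p ∉ Po κ ((0 : ℕ) : ℤ) := by
      intro h
      have := h (-(m : ℤ)) (by simp; omega)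
      rw [hpm] at this
      exact hne this
    obtain ⟨k, hk0, hk1, hk2⟩ := exists_top hp0
    have h3 := hq (-(k : ℤ)) (by omega)
    rw [coeff_sub', sum_coeff_neg] at h3
    by_cases hks : k ∈ s
    · exact hsM k hks (Mn_of hp hk1 hk2)
    · rw [if_neg hks, zero_sub, neg_eq_zero] at h3
      exact hk2 h3
  have hli : LinearIndependent κ w := by
    rw [linearIndependent_iff']
    intro s c hc i hi
    have h1 := key (s.map ⟨Subtype.val, Subtype.val_injective⟩)
      (fun m => if h : ¬ Mn R m then c ⟨m, h⟩ else 0) (by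
        intro m hm
        rw [Finset.mem_map] at hm
        obtain ⟨a, _, rfl⟩ := hm
        exact a.2) (by
        rw [Finset.sum_map, ← hc]
        refine Finset.sum_congr rfl fun a _ => ?_
        change (if h : ¬ Mn R (a : ℕ) then c ⟨a, h⟩ else 0) • L (tt κ a) = c a • w a
        rw [dif_pos a.2]) i (by
        rw [Finset.mem_map]
        exact ⟨i, hi, rfl⟩)
    change (if h : ¬ Mn R (i : ℕ) then c ⟨i, h⟩ else 0) = 0 at h1
    rwa [dif_pos i.2] at h1
  have hspan : ∀ n : ℕ, L (tt κ n) ∈ Submodule.span κ (Set.range w) := by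
    intro n
    induction n using Nat.strong_induction_on with
    | _ n ih =>
      by_cases h : Mn R n
      · obtain ⟨p, hp, hp1, hp2⟩ := h
        have h1 := L_eq hP (Finset.range (n + 1)) p fun m hm _ => hp1 _ (by
          rw [Finset.mem_range] at hm
          omega)
        rw [hLR p hp, Finset.sum_range_succ, hp2, one_smul] at h1
        have h2 : L (tt κ n) = -∑ m ∈ Finset.range n, p.coeff (-(m : ℤ)) • L (tt κ m) := by
          rw [eq_neg_iff_add_eq_zero, add_comm]
          exact h1.symm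
        rw [h2]
        refine Submodule.neg_mem _ (Submodule.sum_mem _ fun m hm => Submodule.smul_mem _ _ ?_)
        exact ih m (Finset.mem_range.1 hm)
      · exact Submodule.subset_span ⟨⟨n, h⟩, rfl⟩
  have htop : ∀ v : Fin g → κ, v ∈ Submodule.span κ (Set.range w) := by
    intro v
    obtain ⟨f, rfl⟩ := hs v
    obtain ⟨N, hN⟩ := exists_low f
    rw [L_eq hP (Finset.range (N + 1)) f fun m hm _ => hN _ (by
      rw [Finset.mem_range] at hm
      omega)]
    exact Submodule.sum_mem _ fun m _ => Submodule.smul_mem _ _ (hspan m)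
  have hfin : Finite {n : ℕ // ¬ Mn R n} := hli.finite
  have hft : Fintype {n : ℕ // ¬ Mn R n} := Fintype.ofFinite _
  let b := Module.Basis.mk hli fun v _ => htop v
  have hcard : Fintype.card {n : ℕ // ¬ Mn R n} = g := by
    have h1 := Module.finrank_eq_card_basis b
    rw [Module.finrank_fin_fun] at h1
    exact h1.symm
  let Γ : Finset ℕ := (Finset.univ : Finset {n : ℕ // ¬ Mn R n}).map
    ⟨Subtype.val, Subtype.val_injective⟩
  have hΓ : ∀ n, n ∈ Γ ↔ ¬ Mn R n := by
    intro n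
    rw [Finset.mem_map]
    constructor
    · rintro ⟨a, _, rfl⟩
      exact a.2
    · intro h
      exact ⟨⟨n, h⟩, Finset.mem_univ _, rfl⟩
  refine ⟨Γ, ?_, ?_, ?_⟩
  · rw [Finset.card_map, Finset.card_univ, hcard]
  · refine gs_of k1 hk Γ ?_ ?_ ?_
    · rw [hΓ, not_not]
      refine ⟨1, Subalgebra.one_mem _, ?_, ?_⟩
      · intro k hk'
        rw [HahnSeries.coeff_one, if_neg (by simp at hk'; omega)]
      · simp
    · intro v
      refine ⟨fun m => if h : ¬ Mn R m then b.repr v ⟨m, h⟩ else 0, ?_⟩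
      rw [Finset.sum_map]
      conv_lhs => rw [← b.sum_repr v]
      refine Finset.sum_congr rfl fun a _ => ?_
      change b.repr v a • b a = (if h : ¬ Mn R (a : ℕ) then b.repr v ⟨a, h⟩ else 0) • L (tt κ a)
      rw [dif_pos a.2, Module.Basis.mk_apply]
    · intro c hc
      exact key Γ c (fun m hm => (hΓ m).1 hm) hc
  · intro n hn h hh
    by_contra hno
    obtain ⟨k, hk0, hk1, hk2⟩ := exists_top hno
    have h1 : k ∉ Γ := by
      rw [hΓ, not_not]
      exact Mn_of hh.mem hk1 hk2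
    have h2 := hh.co k h1
    rw [if_neg (by omega)] at h2
    exact hk2 h2

end field

end BGL

theorem t_BGL (hA : Stmt_BGA) (hF : Stmt_KFO) (hB : Stmt_KBC) : Stmt_BGL :=
  ⟨fun φ _ _ R Γ hR hG => BGL.gs_desc φ R Γ hA hF hB hR hG, fun R hR => BGL.field_case R hR,
    fun R h h' => BGL.genus_eq R h h'⟩

end Pool.Agent.MG.G0


end

section

/-!
# Module DSC: discriminants of the reductions of a Krichever ring over a local domain
-/

open Polynomial TensorProduct

namespace Pool.Agent.MG.G0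

namespace DSC

open ZL

/-- A polynomial in `z` whose coefficients come from a subring. -/
theorem descend {O L : Type} [CommRing O] [CommRing L] {ι : O →+* L}
    (hι : Function.Injective ι) {d : ℕ} [NeZero d] (y : LaurentSeries O) (q : L[X])
    (h : pr (0 : ZMod d) (lmap ι y) = ev d q) :
    ∃ p : O[X], pr (0 : ZMod d) y = ev d p := by
  have h1 : ∀ k : ℕ, q.coeff k =
      ι ((pr (0 : ZMod d) y).coeff (-((d * k : ℕ) : ℤ))) := by
    intro k
    rw [← ev_coeff d (NeZero.ne d), ← h, ← lmap_pr, lmap_coeff]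
  refine ⟨∑ k ∈ Finset.range (q.natDegree + 1),
    monomial k ((pr (0 : ZMod d) y).coeff (-((d * k : ℕ) : ℤ))), ?_⟩
  apply lmap_injective hι
  rw [lmap_pr, h, lmap_ev]
  congr 1
  rw [Polynomial.map_sum]
  conv_lhs => rw [q.as_sum_range]
  refine Finset.sum_congr rfl fun k _ => ?_
  rw [map_monomial, h1]

/-- Elements of `R` with all coefficients in the ideal `m`. -/
theorem mem_smul (hKBT : Stmt_KBT) {O : Type} [CommRing O] (m : Ideal O) {g : ℕ}
    {R : Subalgebra O (LaurentSeries O)} (hR : Kr g R) {r : LaurentSeries O} (hr : r ∈ R)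
    (h : lmap (Ideal.Quotient.mk m) r = 0) : r ∈ m • Subalgebra.toSubmodule R := by
  obtain ⟨h1, -⟩ := hKBT (I := Unit) (A := O) (B := O ⧸ m) (P := uno R) hR
  let r' : uno R := ⟨fun _ => r, hr⟩
  have h2 := h1 1 (fun _ => 1) (fun _ => r') (by
    rw [Fin.sum_univ_one, one_smul]
    funext i
    exact h)
  rw [Fin.sum_univ_one] at h2
  have h3 : r' ∈ m • (⊤ : Submodule O (uno R)) := by
    rw [← Submodule.Quotient.mk_eq_zero, ← TensorProduct.quotTensorEquivQuotSMul_mk_one_tmul,
      h2, map_zero]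
  let F : uno R →ₗ[O] LaurentSeries O :=
    (LinearMap.proj () : KK Unit O →ₗ[O] LaurentSeries O) ∘ₗ (uno R).val.toLinearMap
  have h4 : F r' ∈ (m • (⊤ : Submodule O (uno R))).map F := Submodule.mem_map_of_mem h3
  rw [Submodule.map_smul''] at h4
  refine Submodule.smul_mono le_rfl ?_ h4
  rintro _ ⟨x, -, rfl⟩
  exact x.2

theorem span_pow {O M : Type} [CommRing O] [AddCommGroup M] [Module O M] (m : Ideal O)
    {N D : Submodule O M} (h : N ≤ D ⊔ m • N) (k : ℕ) : N ≤ D ⊔ m ^ k • N := by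
  induction k with
  | zero =>
    rw [pow_zero, Ideal.one_eq_top, Submodule.top_smul]
    exact le_sup_right
  | succ k ih =>
    refine ih.trans (sup_le le_sup_left ?_)
    calc m ^ k • N ≤ m ^ k • (D ⊔ m • N) := Submodule.smul_mono le_rfl h
      _ = m ^ k • D ⊔ m ^ (k + 1) • N := by
        rw [Submodule.smul_sup, ← Submodule.mul_smul, pow_succ]
      _ ≤ D ⊔ m ^ (k + 1) • N := sup_le_sup_right Submodule.smul_le_right _

/-- The combinations of the family `e` with coefficients in `A[z]`. -/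
noncomputable def comb {O : Type} [CommRing O] (d : ℕ) [NeZero d]
    (e : ZMod d → LaurentSeries O) : Submodule O (LaurentSeries O) where
  carrier := {x | ∃ q : ZMod d → O[X], x = ∑ i, ev d (q i) * e i}
  add_mem' := by
    rintro x y ⟨q, rfl⟩ ⟨q', rfl⟩
    refine ⟨q + q', ?_⟩
    rw [← Finset.sum_add_distrib]
    refine Finset.sum_congr rfl fun i _ => ?_
    rw [Pi.add_apply, map_add, add_mul]
  zero_mem' := ⟨0, by simp⟩
  smul_mem' := by
    rintro b x ⟨q, rfl⟩
    refine ⟨fun i => C b * q i, ?_⟩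
    rw [Finset.smul_sum]
    refine Finset.sum_congr rfl fun i _ => ?_
    rw [map_mul, ev_C, mul_assoc, Algebra.smul_def]

theorem mem_comb {O : Type} [CommRing O] {d : ℕ} [NeZero d] {e : ZMod d → LaurentSeries O}
    {x : LaurentSeries O} : x ∈ comb d e ↔ ∃ q : ZMod d → O[X], x = ∑ i, ev d (q i) * e i :=
  Iff.rfl

theorem ev_mem {O : Type} [CommRing O] {d : ℕ} {R : Subalgebra O (LaurentSeries O)}
    (hz : zz O d ∈ R) (q : O[X]) : ev d q ∈ R := by
  have h1 : ev d q = R.val (aeval (⟨zz O d, hz⟩ : R) q) := by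
    rw [← Polynomial.aeval_algHom_apply]
    rfl
  rw [h1]
  exact (aeval (⟨zz O d, hz⟩ : R) q).2

/-- Lifts of a basis over the residue field generate modulo all powers of the ideal. -/
theorem le_comb (hKBT : Stmt_KBT) {O : Type} [CommRing O] (m : Ideal O) {g d : ℕ} [NeZero d]
    {R : Subalgebra O (LaurentSeries O)} (hR : Kr g R) (hz : zz O d ∈ R)
    {e : ZMod d → LaurentSeries O} (he : ∀ i, e i ∈ R)
    (hs : Spn (bc1 (Ideal.Quotient.mk m) R) fun i => lmap (Ideal.Quotient.mk m) (e i)) (k : ℕ) :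
    Subalgebra.toSubmodule R ≤ comb d e ⊔ m ^ k • Subalgebra.toSubmodule R := by
  refine span_pow m ?_ k
  intro x hx
  obtain ⟨q, hq⟩ := hs.2 (lmap (Ideal.Quotient.mk m) x) (Algebra.subset_adjoin ⟨x, hx, rfl⟩)
  choose p hp using fun i => Polynomial.map_surjective (Ideal.Quotient.mk m)
    Ideal.Quotient.mk_surjective (q i)
  have h1 : ∑ i, ev d (p i) * e i ∈ R := sum_mem fun i _ => mul_mem (ev_mem hz _) (he i)
  have h2 : x - ∑ i, ev d (p i) * e i ∈ m • Subalgebra.toSubmodule R := by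
    refine mem_smul hKBT m hR (sub_mem hx h1) ?_
    rw [map_sub, hq, map_sum, sub_eq_zero]
    refine Finset.sum_congr rfl fun i _ => ?_
    rw [map_mul, lmap_ev, hp]
  have h3 : x = ∑ i, ev d (p i) * e i + (x - ∑ i, ev d (p i) * e i) := by ring
  rw [h3]
  exact Submodule.add_mem_sup ⟨p, rfl⟩ h2

theorem lmap_eq_zero {O B : Type} [CommRing O] [CommRing B] (φ : O →+* B) {m : Ideal O}
    (hφ : ∀ x ∈ m, φ x = 0) {N : Submodule O (LaurentSeries O)} {y : LaurentSeries O}
    (hy : y ∈ m • N) : lmap φ y = 0 := by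
  refine Submodule.smul_induction_on hy ?_ ?_
  · intro a ha x _
    rw [lmap_smul, hφ a ha, zero_smul]
  · intro x y hx hy
    rw [map_add, hx, hy, add_zero]

/-- Spanning of the base change. -/
theorem spn (hKBC : Stmt_KBC) {O B : Type} [CommRing O] [CommRing B] (φ : O →+* B) {d : ℕ}
    [NeZero d] {R : Subalgebra O (LaurentSeries O)} {e : ZMod d → LaurentSeries O}
    (he : ∀ i, e i ∈ R) (h : ∀ x ∈ R, ∃ q : ZMod d → O[X], ∃ y : LaurentSeries O,
      x = ∑ i, ev d (q i) * e i + y ∧ lmap φ y = 0) :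
    Spn (bc1 φ R) fun i => lmap φ (e i) := by
  refine ⟨fun i => Algebra.subset_adjoin ⟨e i, he i, rfl⟩, fun x hx => ?_⟩
  have h1 : (fun _ : Unit => x) ∈ Submodule.span B (kmap φ '' (uno R : Set (KK Unit O))) := by
    rw [← hKBC.1 φ (uno R), bc_uno]
    exact hx
  have key : ∀ y ∈ Submodule.span B (kmap φ '' (uno R : Set (KK Unit O))),
      y () ∈ comb d fun i => lmap φ (e i) := by
    intro y hy
    induction hy using Submodule.span_induction with
    | mem y hy =>
      obtain ⟨w, hw, rfl⟩ := hy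
      obtain ⟨q, v, hq, hv⟩ := h (w ()) hw
      refine ⟨fun i => (q i).map φ, ?_⟩
      rw [kmap_apply, hq, map_add, hv, add_zero, map_sum]
      refine Finset.sum_congr rfl fun i _ => ?_
      rw [map_mul, lmap_ev]
    | zero => exact zero_mem _
    | add y y' _ _ h h' => exact add_mem h h'
    | smul b y _ h => exact Submodule.smul_mem _ b h
  exact key _ h1

end DSC

open ZL _root_.Pool.Agent.MG.G0.DSC in
/-- DSC. -/
theorem t_DSC (hKBC : Stmt_KBC) (hKBT : Stmt_KBT) : Stmt_DSC := by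
  classical
  intro O L _ _ _ _ _ _ _ g d R f hd hdu hR hz hf hdeg hDL B _ φ hφ
  obtain ⟨m, hm⟩ := hφ
  have : NeZero d := ⟨by omega⟩
  have hinj : Function.Injective (algebraMap O L) := IsFractionRing.injective O L
  -- reduction to the residue field
  let ρ : O →+* IsLocalRing.ResidueField O := Ideal.Quotient.mk (IsLocalRing.maximalIdeal O)
  have hρ : Function.Surjective ρ := Ideal.Quotient.mk_surjective
  have hRκ : Kr g (bc1 ρ R) := kr_bc hKBC hR ρ
  have hzκ : zz (IsLocalRing.ResidueField O) d ∈ bc1 ρ R := zz_mem_bc hz ρ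
  obtain ⟨-, eb, -, -, heb, -, -⟩ := exists_echelon hRκ hzκ
  have hlift : ∀ i, ∃ x ∈ R, lmap ρ x = eb i := by
    intro i
    have h1 : (fun _ : Unit => eb i) ∈ bc ρ (uno R) := by
      rw [bc_uno]
      exact heb.1 i
    obtain ⟨p, hp, h2⟩ := KFL.bc_surj hρ (uno R) h1
    exact ⟨p (), hp, congrFun h2 ()⟩
  choose e heR he using hlift
  have heb' : (fun i => lmap ρ (e i)) = eb := funext he
  -- the Gram determinant
  obtain ⟨ε, hε, u, hu, hdetε⟩ := dsc_of_disc hDL
  have hRL : Kr g (bc1 (algebraMap O L) R) := kr_bc hKBC hR _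
  have hduL : IsUnit (d : L) := by
    have h1 := hdu.map (algebraMap O L)
    rwa [map_natCast] at h1
  have hG : ∀ i j, ∃ p : O[X], pr (0 : ZMod d) (e i * e j) = ev d p := by
    intro i j
    obtain ⟨q, hq⟩ := pr_mem_ev hRL hε hduL (x := lmap (algebraMap O L) (e i * e j))
      (Algebra.subset_adjoin ⟨e i * e j, mul_mem (heR i) (heR j), rfl⟩)
    exact descend hinj _ q hq
  choose G hG using hG
  have hD : (gram e).det = ev d (Matrix.of G : Matrix (ZMod d) (ZMod d) O[X]).det := by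
    rw [← det_map_ev]
    congr 1
    ext1 i j
    exact hG i j
  set D : O[X] := (Matrix.of G : Matrix (ZMod d) (ZMod d) O[X]).det with hDdef
  choose a ha using fun i => hε.2 (lmap (algebraMap O L) (e i))
    (Algebra.subset_adjoin ⟨e i, heR i, rfl⟩)
  have h1 : D.map (algebraMap O L) = f.map (algebraMap O L) *
      ((Matrix.of a : Matrix (ZMod d) (ZMod d) L[X]).det ^ 2 * u) := by
    apply ev_injective (A := L) d (NeZero.ne d)
    have h2 := gram_det_mul (Matrix.of a : Matrix (ZMod d) (ZMod d) L[X])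
      (fun i => lmap (algebraMap O L) (e i)) ε ha
    rw [← lmap_ev, ← hD, ← lmap_gram_det, h2, hdetε, ← map_mul]
    congr 1
    ring
  obtain ⟨h, hh⟩ := (Polynomial.map_dvd_map (algebraMap O L) hinj hf).1 ⟨_, h1⟩
  -- the degree over the residue field
  have h3 : (gram eb).det = ev d (D.map ρ) := by
    rw [← heb', lmap_gram_det, hD, lmap_ev]
  obtain ⟨h4, h5⟩ := gram_natDegree hRκ hzκ heb h3
  have h6 : D.map ρ = f.map ρ * h.map ρ := by rw [hh, Polynomial.map_mul]
  have h7 : f.map ρ ≠ 0 := (hf.map ρ).ne_zero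
  have h8 : h.map ρ ≠ 0 := by
    intro h9
    rw [h6, h9, mul_zero] at h4
    exact h4 rfl
  have h9 : (h.map ρ).natDegree = 0 := by
    rw [h6, natDegree_mul h7 h8, hf.natDegree_map] at h5
    omega
  have h10 : ∀ k, k ≠ 0 → h.coeff k ∈ IsLocalRing.maximalIdeal O := by
    intro k hk
    rw [← Ideal.Quotient.eq_zero_iff_mem]
    have h11 : (h.map ρ).coeff k = 0 := coeff_eq_zero_of_natDegree_lt (by omega)
    rw [coeff_map] at h11
    exact h11
  have h11 : IsUnit (h.coeff 0) := by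
    by_contra h12
    apply h8
    ext k
    rw [coeff_map, coeff_zero]
    have h13 : h.coeff k ∈ IsLocalRing.maximalIdeal O := by
      by_cases hk : k = 0
      · rw [hk]
        exact (IsLocalRing.mem_maximalIdeal _).2 h12
      · exact h10 k hk
    exact Ideal.Quotient.eq_zero_iff_mem.2 h13
  have h12 : IsUnit (h.map φ) := by
    rw [Polynomial.isUnit_iff_coeff_isUnit_isNilpotent]
    refine ⟨?_, fun k hk => ⟨m, ?_⟩⟩
    · rw [coeff_map]
      exact h11.map φ
    · rw [coeff_map, ← map_pow]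
      exact hm _ (Ideal.pow_mem_pow (h10 k hk) m)
  -- generation
  have h13 : Spn (bc1 φ R) fun i => lmap φ (e i) := by
    refine spn hKBC φ heR fun x hx => ?_
    have h14 := le_comb hKBT (IsLocalRing.maximalIdeal O) hR hz heR (by
      have h15 := heb
      rw [← heb'] at h15
      exact h15) m hx
    obtain ⟨y, ⟨q, rfl⟩, w, hw, rfl⟩ := Submodule.mem_sup.1 h14
    exact ⟨q, w, rfl, lmap_eq_zero φ hm hw⟩
  have hduB : IsUnit (d : B) := by
    have h1 := hdu.map φ
    rwa [map_natCast] at h1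
  refine disc_of_dsc (kr_bc hKBC hR φ) hduB ⟨fun i => lmap φ (e i), h13, h.map φ, h12, ?_⟩
  rw [lmap_gram_det, hD, lmap_ev, hh, Polynomial.map_mul, mul_comm]

end Pool.Agent.MG.G0


end

section

/-!
# Module BPX: uniqueness of covers, small extensions
-/

open Polynomial

namespace Pool.Agent.MG.G0

namespace BPX

open ZL

/-! ## Determinants and square zero elements -/

theorem eps_congr {S n : Type} [CommRing S] [Fintype n] [DecidableEq n] {ε : S} (hε : ε * ε = 0)
    {M M' : Matrix n n S} (h : ∀ r c, ∃ t, M r c = M' r c + ε * t) : ε * M.det = ε * M'.det := by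
  have h1 : Ideal.Quotient.mk (Ideal.span {ε}) M.det = Ideal.Quotient.mk (Ideal.span {ε}) M'.det := by
    rw [RingHom.map_det, RingHom.map_det]
    congr 1
    ext1 r c
    obtain ⟨t, ht⟩ := h r c
    rw [RingHom.mapMatrix_apply, RingHom.mapMatrix_apply, Matrix.map_apply, Matrix.map_apply, ht,
      map_add, Ideal.Quotient.eq_zero_iff_mem.2
        (Ideal.mul_mem_right t _ (Ideal.mem_span_singleton_self ε)), add_zero]
  obtain ⟨t, ht⟩ := Ideal.mem_span_singleton'.1 ((Ideal.Quotient.mk_eq_mk_iff_sub_mem _ _).1 h1)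
  have h2 : ε * (M.det - M'.det) = 0 := by
    rw [← ht, mul_comm t, ← mul_assoc, hε, zero_mul]
  rw [mul_sub, sub_eq_zero] at h2
  exact h2

theorem det_eps_aux {S n : Type} [CommRing S] [Fintype n] [DecidableEq n] {ε : S} (hε : ε * ε = 0)
    (G H : Matrix n n S) (s : Finset n) :
    (Matrix.of fun r c => if c ∈ s then G r c + ε * H r c else G r c).det =
      G.det + ε * ∑ c ∈ s, (G.updateCol c fun r => H r c).det := by
  induction s using Finset.induction_on with
  | empty =>
    rw [Finset.sum_empty, mul_zero, add_zero]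
    congr 1
  | insert c s hc ih =>
    have h1 : (Matrix.of fun r c' => if c' ∈ insert c s then G r c' + ε * H r c' else G r c') =
        (Matrix.of fun r c' => if c' ∈ s then G r c' + ε * H r c' else G r c').updateCol c
          ((fun r => G r c) + ε • fun r => H r c) := by
      ext1 r c'
      rw [Matrix.updateCol_apply, Matrix.of_apply, Matrix.of_apply]
      by_cases h : c' = c
      · rw [if_pos h, h, if_pos (Finset.mem_insert_self c s)]
        rfl
      · rw [if_neg h]
        simp only [Finset.mem_insert, h, false_or]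
    have h2 : (Matrix.of fun r c' => if c' ∈ s then G r c' + ε * H r c' else G r c').updateCol c
        (fun r => G r c) =
        (Matrix.of fun r c' => if c' ∈ s then G r c' + ε * H r c' else G r c') := by
      ext1 r c'
      rw [Matrix.updateCol_apply, Matrix.of_apply]
      by_cases h : c' = c
      · rw [if_pos h, h, if_neg hc]
      · rw [if_neg h]
    have h3 : ε * ((Matrix.of fun r c' => if c' ∈ s then G r c' + ε * H r c' else
        G r c').updateCol c (fun r => H r c)).det = ε * (G.updateCol c fun r => H r c).det := by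
      apply eps_congr hε
      intro r c'
      rw [Matrix.updateCol_apply, Matrix.updateCol_apply, Matrix.of_apply]
      by_cases h : c' = c
      · rw [if_pos h, if_pos h]
        exact ⟨0, by rw [mul_zero, add_zero]⟩
      · rw [if_neg h, if_neg h]
        split_ifs with h4
        · exact ⟨H r c', rfl⟩
        · exact ⟨0, by rw [mul_zero, add_zero]⟩
    rw [h1, Matrix.det_updateCol_add, Matrix.det_updateCol_smul, h2, h3, ih,
      Finset.sum_insert hc, mul_add]
    ring

/-- The determinant of `G + ε H` when `ε² = 0`. -/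
theorem det_eps {S n : Type} [CommRing S] [Fintype n] [DecidableEq n] {ε : S} (hε : ε * ε = 0)
    (G H M : Matrix n n S) (hM : ∀ r c, M r c = G r c + ε * H r c) :
    M.det = G.det + ε * ∑ i, ∑ k, G.adjugate i k * H k i := by
  have h1 : M = Matrix.of fun r c => if c ∈ (Finset.univ : Finset n) then G r c + ε * H r c
      else G r c := by
    ext1 r c
    rw [Matrix.of_apply, if_pos (Finset.mem_univ c), hM]
  rw [h1, det_eps_aux hε]
  congr 2
  refine Finset.sum_congr rfl fun c _ => ?_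
  rw [← Matrix.cramer_apply, Matrix.cramer_eq_adjugate_mulVec]
  rfl

/-! ## Series divisible by `j` -/

section

variable {A : Type} [CommRing A]

/-- A series with all coefficients divisible by `j`. -/
theorem smul_of_lmap {j : A} {x : LaurentSeries A}
    (h : lmap (Ideal.Quotient.mk (Ideal.span {j})) x = 0) : ∃ y, x = j • y := by
  classical
  have h1 : ∀ m, ∃ c, x.coeff m = j * c := by
    intro m
    have h2 : Ideal.Quotient.mk (Ideal.span {j}) (x.coeff m) = 0 := by
      rw [← lmap_coeff, h, HahnSeries.coeff_zero]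
    obtain ⟨c, hc⟩ := Ideal.mem_span_singleton'.1 (Ideal.Quotient.eq_zero_iff_mem.1 h2)
    exact ⟨c, by rw [← hc, mul_comm]⟩
  choose c hc using h1
  refine ⟨{ coeff := fun m => if x.coeff m = 0 then 0 else c m
            isPWO_support' := x.isPWO_support.mono fun m hm => ?_ }, ?_⟩
  · intro h0
    apply hm
    change (if x.coeff m = 0 then 0 else c m) = 0
    rw [if_pos h0]
  · ext m
    rw [HahnSeries.coeff_smul, smul_eq_mul]
    change x.coeff m = j * (if x.coeff m = 0 then 0 else c m)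
    split_ifs with h0
    · rw [h0, mul_zero]
    · exact hc m

theorem exists_lift (hKBC : Stmt_KBC) {B : Type} [CommRing B] (ψ : A →+* B)
    (hψ : Function.Surjective ψ) {R : Subalgebra A (LaurentSeries A)} {y : LaurentSeries B}
    (hy : y ∈ bc1 ψ R) : ∃ x ∈ R, lmap ψ x = y := by
  have h1 : (fun _ : Unit => y) ∈ Submodule.span B (kmap ψ '' (uno R : Set (KK Unit A))) := by
    rw [← hKBC.1 ψ (uno R), bc_uno]
    exact hy
  have key : ∀ z ∈ Submodule.span B (kmap ψ '' (uno R : Set (KK Unit A))),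
      ∃ x ∈ R, lmap ψ x = z () := by
    intro z hz
    induction hz using Submodule.span_induction with
    | mem z hz =>
      obtain ⟨w, hw, rfl⟩ := hz
      exact ⟨w (), hw, rfl⟩
    | zero => exact ⟨0, zero_mem _, map_zero _⟩
    | add z z' _ _ h h' =>
      obtain ⟨x, hx, hx'⟩ := h
      obtain ⟨w, hw, hw'⟩ := h'
      exact ⟨x + w, add_mem hx hw, by rw [map_add, hx', hw', Pi.add_apply]⟩
    | smul b z _ h =>
      obtain ⟨x, hx, hx'⟩ := h
      obtain ⟨a, ha⟩ := hψ b
      exact ⟨a • x, R.smul_mem hx a, by rw [lmap_smul, ha, hx', Pi.smul_apply]⟩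
  exact key _ h1

/-- The elements of `R` which are divisible by `j`. -/
theorem mem_j (hKBT : Stmt_KBT) {g : ℕ} {R : Subalgebra A (LaurentSeries A)} (hR : Kr g R)
    {j : A} {y : LaurentSeries A} (h : j • y ∈ R) : ∃ r ∈ R, j • y = j • r := by
  have h1 : lmap (Ideal.Quotient.mk (Ideal.span {j})) (j • y) = 0 := by
    rw [lmap_smul, Ideal.Quotient.eq_zero_iff_mem.2 (Ideal.mem_span_singleton_self j), zero_smul]
  have h2 := DSC.mem_smul hKBT (Ideal.span {j}) hR h h1
  have key : ∀ z ∈ Ideal.span {j} • Subalgebra.toSubmodule R, ∃ r ∈ R, z = j • r := by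
    intro z hz
    refine Submodule.smul_induction_on hz ?_ ?_
    · intro a ha n hn
      obtain ⟨c, hc⟩ := Ideal.mem_span_singleton'.1 ha
      exact ⟨c • n, R.smul_mem hn c, by rw [← hc, mul_comm, mul_smul]⟩
    · rintro x y ⟨r, hr, hr'⟩ ⟨s, hs, hs'⟩
      exact ⟨r + s, add_mem hr hs, by rw [hr', hs', smul_add]⟩
  exact key _ h2

/-- A polynomial in `z` divisible by `j`. -/
theorem lift_ev {κ : Type} [CommRing κ] (ρ : A →+* κ) {j : A} (hann : ∀ a, j * a = 0 → ρ a = 0)
    {d : ℕ} [NeZero d] {y : LaurentSeries A} {q : A[X]} (h : j • y = ev d q) :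
    ∃ p : A[X], C j * p = q ∧ lmap ρ y = ev d (p.map ρ) := by
  classical
  have hc : ∀ m, j * y.coeff m = (ev d q).coeff m := by
    intro m
    rw [← h, HahnSeries.coeff_smul, smul_eq_mul]
  let p : A[X] := ∑ k ∈ Finset.range (q.natDegree + 1),
    monomial k (y.coeff (-((d * k : ℕ) : ℤ)))
  have hp : ∀ k, p.coeff k = if k ∈ Finset.range (q.natDegree + 1) then
      y.coeff (-((d * k : ℕ) : ℤ)) else 0 := by
    intro k
    rw [finsetSum_coeff]
    simp only [coeff_monomial]
    rw [Finset.sum_ite_eq' (Finset.range (q.natDegree + 1)) k fun k =>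
      y.coeff (-((d * k : ℕ) : ℤ))]
  have hq : ∀ k, k ∉ Finset.range (q.natDegree + 1) → q.coeff k = 0 := by
    intro k hk
    apply coeff_eq_zero_of_natDegree_lt
    rw [Finset.mem_range] at hk
    omega
  refine ⟨p, ?_, ?_⟩
  · ext k
    rw [coeff_C_mul, hp]
    split_ifs with hk
    · rw [hc, ev_coeff d (NeZero.ne d)]
    · rw [mul_zero, hq k hk]
  · ext m
    rw [lmap_coeff]
    by_cases hm : ∃ k : ℕ, m = -((d * k : ℕ) : ℤ)
    · obtain ⟨k, rfl⟩ := hm
      rw [ev_coeff d (NeZero.ne d), coeff_map, hp]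
      split_ifs with hk
      · rfl
      · rw [map_zero]
        apply hann
        rw [hc, ev_coeff d (NeZero.ne d), hq k hk]
    · have hm' : ∀ k : ℕ, m ≠ -((d * k : ℕ) : ℤ) := fun k hk => hm ⟨k, hk⟩
      rw [ev_coeff_ne d _ m hm']
      apply hann
      rw [hc, ev_coeff_ne d _ m hm']

/-- Elements of `R₁` congruent to elements of `R₂`. -/
theorem exists_pair (hKBC : Stmt_KBC) {R₁ R₂ : Subalgebra A (LaurentSeries A)} {j : A}
    (h : bc1 (Ideal.Quotient.mk (Ideal.span {j})) R₁ =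
      bc1 (Ideal.Quotient.mk (Ideal.span {j})) R₂) {x : LaurentSeries A} (hx : x ∈ R₁) :
    ∃ x' ∈ R₂, ∃ y, x - x' = j • y := by
  have h1 : lmap (Ideal.Quotient.mk (Ideal.span {j})) x ∈
      bc1 (Ideal.Quotient.mk (Ideal.span {j})) R₂ := by
    rw [← h]
    exact Algebra.subset_adjoin ⟨x, hx, rfl⟩
  obtain ⟨x', hx', he⟩ := exists_lift hKBC _ Ideal.Quotient.mk_surjective h1
  obtain ⟨y, hy⟩ := smul_of_lmap (j := j) (x := x - x') (by rw [map_sub, he, sub_self])
  exact ⟨x', hx', y, hy⟩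

/-- Generators are determined modulo `j`. -/
theorem spn_congr (hKBC : Stmt_KBC) (hKBT : Stmt_KBT) {g d : ℕ} [NeZero d]
    {R₁ R₂ : Subalgebra A (LaurentSeries A)} {j : A} (hj : j * j = 0) (hR₂ : Kr g R₂)
    (hz : zz A d ∈ R₂)
    (h : bc1 (Ideal.Quotient.mk (Ideal.span {j})) R₁ =
      bc1 (Ideal.Quotient.mk (Ideal.span {j})) R₂) {e e' x : ZMod d → LaurentSeries A}
    (he : Spn R₁ e) (he' : ∀ i, e' i ∈ R₂) (hx : ∀ i, e i - e' i = j • x i) : Spn R₂ e' := by
  have h1 : ∀ y ∈ R₂, ∃ q : ZMod d → A[X], ∃ r ∈ R₂, y = ∑ i, ev d (q i) * e' i + j • r := by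
    intro y hy
    obtain ⟨w, hw, v, hv⟩ := exists_pair hKBC h.symm hy
    obtain ⟨q, hq⟩ := he.2 w hw
    have h2 : y - ∑ i, ev d (q i) * e' i = j • (v + ∑ i, ev d (q i) * x i) := by
      have h3 : ∑ i, ev d (q i) * e i = ∑ i, ev d (q i) * e' i + j • ∑ i, ev d (q i) * x i := by
        rw [Finset.smul_sum, ← Finset.sum_add_distrib]
        refine Finset.sum_congr rfl fun i _ => ?_
        rw [← mul_smul_comm, ← hx i]
        ring
      rw [smul_add, ← hv, hq, h3]
      ring
    have h3 : y - ∑ i, ev d (q i) * e' i ∈ R₂ :=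
      sub_mem hy (sum_mem fun i _ => mul_mem (DSC.ev_mem hz _) (he' i))
    rw [h2] at h3
    obtain ⟨r, hr, hr'⟩ := mem_j hKBT hR₂ h3
    refine ⟨q, r, hr, ?_⟩
    rw [← hr', ← h2]
    ring
  refine ⟨he', fun y hy => ?_⟩
  obtain ⟨q, r, hr, hr'⟩ := h1 y hy
  obtain ⟨p, s, -, hs'⟩ := h1 r hr
  refine ⟨fun i => q i + C j * p i, ?_⟩
  have h2 : j • (j • s) = 0 := by rw [smul_smul, hj, zero_smul]
  rw [hr', hs', smul_add, h2, add_zero, Finset.smul_sum, ← Finset.sum_add_distrib]
  refine Finset.sum_congr rfl fun i _ => ?_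
  rw [map_add, map_mul, ev_C, Algebra.smul_def]
  ring

/-- The Gram determinants of two bases. -/
theorem det_change {g d : ℕ} [NeZero d] {R : Subalgebra A (LaurentSeries A)} (hR : Kr g R)
    {e e' : Fin d → LaurentSeries A} {G G' : Matrix (Fin d) (Fin d) A[X]} (he : ZBas d R e)
    (he' : ZBas d R e') (hG : ZGram d e G) (hG' : ZGram d e' G') :
    ∃ w : A[X], IsUnit w ∧ G.det = w * G'.det := by
  classical
  obtain ⟨a, ha, hae⟩ := exists_change hR (spn_of_zbas he) (spn_of_zbas he')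
  have key : ∀ (e : Fin d → LaurentSeries A) (G : Matrix (Fin d) (Fin d) A[X]), ZGram d e G →
      (gram fun i => e ((sg d).symm i)).det = ev d G.det := by
    intro e G hG
    rw [← det_map_ev, ← Matrix.det_submatrix_equiv_self (sg d)]
    congr 1
    ext1 i k
    rw [Matrix.submatrix_apply, Matrix.map_apply]
    show pr (0 : ZMod d) (e ((sg d).symm ((sg d) i)) * e ((sg d).symm ((sg d) k))) = ev d (G i k)
    rw [Equiv.symm_apply_apply, Equiv.symm_apply_apply, pr_zero_eq]
    exact (hG i k).symm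
  refine ⟨a.det ^ 2, ha.pow 2, ?_⟩
  have h1 := gram_det_mul a _ _ hae
  rw [key e G hG, key e' G' hG', ← map_mul] at h1
  exact ev_injective d (NeZero.ne d) h1

/-- Division by a monic polynomial modulo `j`. -/
theorem monic_cancel {j : A} {f u T : A[X]} (hf : f.Monic) (h : u * f = C j * T) :
    ∃ v : A[X], u = C j * v := by
  classical
  have h1 : u.map (Ideal.Quotient.mk (Ideal.span {j})) = 0 := by
    have h2 : u.map (Ideal.Quotient.mk (Ideal.span {j})) *
        f.map (Ideal.Quotient.mk (Ideal.span {j})) = 0 := by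
      rw [← Polynomial.map_mul, h, Polynomial.map_mul, map_C,
        Ideal.Quotient.eq_zero_iff_mem.2 (Ideal.mem_span_singleton_self j), C_0, zero_mul]
    exact ((hf.map _).mul_left_eq_zero_iff).1 h2
  have h2 : ∀ k, ∃ c, u.coeff k = j * c := by
    intro k
    have h3 : Ideal.Quotient.mk (Ideal.span {j}) (u.coeff k) = 0 := by
      rw [← coeff_map, h1, coeff_zero]
    obtain ⟨c, hc⟩ := Ideal.mem_span_singleton'.1 (Ideal.Quotient.eq_zero_iff_mem.1 h3)
    exact ⟨c, by rw [← hc, mul_comm]⟩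
  choose c hc using h2
  refine ⟨∑ k ∈ Finset.range (u.natDegree + 1), monomial k (c k), ?_⟩
  ext k
  rw [coeff_C_mul, finsetSum_coeff]
  simp only [coeff_monomial]
  rw [Finset.sum_ite_eq' (Finset.range (u.natDegree + 1)) k c]
  split_ifs with hk
  · exact hc k
  · rw [mul_zero]
    apply coeff_eq_zero_of_natDegree_lt
    rw [Finset.mem_range] at hk
    omega

end

/-! ## The relation -/

section

variable {A κ : Type} [CommRing A] [Field κ]

/-- The relation between `ρ(h)` and `ρ(x)` for `h - h' = j x`. -/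
def Rl (ρ : A →+* κ) (j : A) (R₁ R₂ : Subalgebra A (LaurentSeries A))
    (y v : LaurentSeries κ) : Prop :=
  ∃ h ∈ R₁, ∃ h' ∈ R₂, ∃ x, lmap ρ h = y ∧ h - h' = j • x ∧ lmap ρ x = v

variable {ρ : A →+* κ} {j : A} {R₁ R₂ : Subalgebra A (LaurentSeries A)}

theorem Rl.img (hj : ρ j = 0) {h h' x : LaurentSeries A} (he : h - h' = j • x) :
    lmap ρ h' = lmap ρ h := by
  have h1 : h' = h - j • x := by rw [← he, sub_sub_cancel]
  rw [h1, map_sub, lmap_smul, hj, zero_smul, sub_zero]

theorem Rl.add {y v y' v' : LaurentSeries κ} (h : Rl ρ j R₁ R₂ y v) (h' : Rl ρ j R₁ R₂ y' v') :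
    Rl ρ j R₁ R₂ (y + y') (v + v') := by
  obtain ⟨a, ha, b, hb, x, h1, h2, h3⟩ := h
  obtain ⟨a', ha', b', hb', x', h1', h2', h3'⟩ := h'
  refine ⟨a + a', add_mem ha ha', b + b', add_mem hb hb', x + x', ?_, ?_, ?_⟩
  · rw [map_add, h1, h1']
  · rw [smul_add, ← h2, ← h2']
    ring
  · rw [map_add, h3, h3']

theorem Rl.sub {y v y' v' : LaurentSeries κ} (h : Rl ρ j R₁ R₂ y v) (h' : Rl ρ j R₁ R₂ y' v') :
    Rl ρ j R₁ R₂ (y - y') (v - v') := by
  obtain ⟨a, ha, b, hb, x, h1, h2, h3⟩ := h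
  obtain ⟨a', ha', b', hb', x', h1', h2', h3'⟩ := h'
  refine ⟨a - a', sub_mem ha ha', b - b', sub_mem hb hb', x - x', ?_, ?_, ?_⟩
  · rw [map_sub, h1, h1']
  · rw [smul_sub, ← h2, ← h2']
    ring
  · rw [map_sub, h3, h3']

theorem Rl.mul (hj : ρ j = 0) {y v y' v' : LaurentSeries κ} (h : Rl ρ j R₁ R₂ y v)
    (h' : Rl ρ j R₁ R₂ y' v') : Rl ρ j R₁ R₂ (y * y') (y * v' + y' * v) := by
  obtain ⟨a, ha, b, hb, x, h1, h2, h3⟩ := h
  obtain ⟨a', ha', b', hb', x', h1', h2', h3'⟩ := h'
  refine ⟨a * a', mul_mem ha ha', b * b', mul_mem hb hb', a * x' + b' * x, ?_, ?_, ?_⟩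
  · rw [map_mul, h1, h1']
  · rw [smul_add, ← mul_smul_comm, ← mul_smul_comm, ← h2, ← h2']
    ring
  · rw [map_add, map_mul, map_mul, h3, h3', h1, Rl.img hj h2', h1']

theorem Rl.both {h : LaurentSeries A} (h1 : h ∈ R₁) (h2 : h ∈ R₂) :
    Rl ρ j R₁ R₂ (lmap ρ h) 0 :=
  ⟨h, h1, h, h2, 0, rfl, by rw [sub_self, smul_zero], map_zero _⟩

/-- Uniqueness modulo the reduction. -/
theorem Rl.uniq (hKBT : Stmt_KBT) {g : ℕ} (hR₁ : Kr g R₁) (hR₂ : Kr g R₂)
    (hm : ∀ m : A, ρ m = 0 → m * j = 0) (hann : ∀ a, j * a = 0 → ρ a = 0)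
    (hp : ∀ x ∈ R₁, ∃ x' ∈ R₂, ∃ y, x - x' = j • y) {v : LaurentSeries κ}
    (h : Rl ρ j R₁ R₂ 0 v) : v ∈ bc1 ρ R₂ := by
  obtain ⟨a, ha, b, hb, x, h1, h2, h3⟩ := h
  have h4 : lmap (Ideal.Quotient.mk (RingHom.ker ρ)) a = 0 := by
    ext m
    rw [lmap_coeff, HahnSeries.coeff_zero, Ideal.Quotient.eq_zero_iff_mem, RingHom.mem_ker,
      ← lmap_coeff, h1, HahnSeries.coeff_zero]
  have h5 := DSC.mem_smul hKBT (RingHom.ker ρ) hR₁ ha h4
  have key : ∀ z ∈ RingHom.ker ρ • Subalgebra.toSubmodule R₁, z ∈ R₂ := by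
    intro z hz
    refine Submodule.smul_induction_on hz ?_ ?_
    · intro m hm' n hn
      obtain ⟨n', hn', y, hy⟩ := hp n hn
      have h6 : m • n = m • n' := by
        have h7 : n = n' + j • y := by rw [← hy]; ring
        rw [h7, smul_add, smul_smul, hm m hm', zero_smul, add_zero]
      rw [h6]
      exact R₂.smul_mem hn' m
    · intro x y hx hy
      exact add_mem hx hy
  have h6 : j • x ∈ R₂ := by
    rw [← h2]
    exact sub_mem (key _ h5) hb
  obtain ⟨r, hr, hr'⟩ := mem_j hKBT hR₂ h6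
  have h7 : lmap ρ x = lmap ρ r := by
    ext m
    rw [lmap_coeff, lmap_coeff, ← sub_eq_zero, ← map_sub]
    apply hann
    rw [mul_sub]
    have h8 := congrArg (fun s : LaurentSeries A => s.coeff m) hr'
    simp only [HahnSeries.coeff_smul, smul_eq_mul] at h8
    rw [h8, sub_self]
  rw [← h3, h7]
  exact Algebra.subset_adjoin ⟨r, hr, rfl⟩

/-- The discriminant condition. -/
theorem disc_lemma (h2 : (2 : κ) ≠ 0) (hj : ρ j = 0) (hjj : j * j = 0)
    (hann : ∀ a, j * a = 0 → ρ a = 0) {d : ℕ} [NeZero d] {e e' x : Fin d → LaurentSeries A}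
    {G G' : Matrix (Fin d) (Fin d) A[X]} {f u u' : A[X]} (hG : ZGram d e G)
    (hG' : ZGram d e' G') (hx : ∀ i, e i - e' i = j • x i) (hf : f.Monic) (hu : IsUnit u)
    (hdet : G.det = u * f) (hdet' : G'.det = u' * f) :
    ∃ v : κ[X], ∑ i, ∑ k, zpol κ d ((G.map (Polynomial.map ρ)).adjugate i k) *
      pr0 κ d (lmap ρ (e k) * lmap ρ (x i)) = zpol κ d (v * (G.map (Polynomial.map ρ)).det) := by
  classical
  have h1 : ∀ i k, j • pr0 A d (e i * x k + e' k * x i) = ev d (G i k - G' i k) := by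
    intro i k
    rw [map_sub, hG i k, hG' i k, ← map_sub, ← map_smul]
    congr 1
    rw [smul_add, ← mul_smul_comm, ← mul_smul_comm, ← hx, ← hx]
    ring
  choose H hH1 hH2 using fun i k => lift_ev ρ hann (h1 i k)
  have hε : (C j : A[X]) * C j = 0 := by rw [← C_mul, hjj, C_0]
  have h3 := det_eps hε G (Matrix.of fun i k => -(H i k)) G' (fun r c => by
    rw [Matrix.of_apply, mul_neg, hH1]
    ring)
  have h4 : (u - u') * f = C j * ∑ i, ∑ k, G.adjugate i k * H k i := by
    rw [sub_mul, ← hdet, ← hdet', h3]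
    simp only [Matrix.of_apply, mul_neg, Finset.sum_neg_distrib]
    ring
  obtain ⟨v, hv⟩ := monic_cancel hf h4
  have h5 : (∑ i, ∑ k, G.adjugate i k * H k i).map ρ = v.map ρ * f.map ρ := by
    rw [← Polynomial.map_mul, ← sub_eq_zero, ← Polynomial.map_sub]
    ext k
    rw [coeff_map, coeff_zero]
    apply hann
    rw [← coeff_C_mul, mul_sub, ← h4, hv, mul_assoc, sub_self, coeff_zero]
  obtain ⟨w, hw⟩ := (hu.map (Polynomial.mapRingHom ρ)).exists_left_inv
  rw [Polynomial.coe_mapRingHom] at hw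
  have h6 : (G.map (Polynomial.map ρ)).det = u.map ρ * f.map ρ := by
    have h7 := RingHom.map_det (Polynomial.mapRingHom ρ) G
    rw [hdet, Polynomial.coe_mapRingHom, Polynomial.map_mul] at h7
    rw [h7]
    rfl
  have h8 : ∀ i k, (G.map (Polynomial.map ρ)).adjugate i k = (G.adjugate i k).map ρ := by
    intro i k
    have h9 := RingHom.map_adjugate (Polynomial.mapRingHom ρ) G
    exact (congrFun (congrFun h9 i) k).symm
  have hsym : G.transpose = G := by
    ext1 i k
    apply ev_injective d (NeZero.ne d)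
    rw [Matrix.transpose_apply]
    show zpol A d (G k i) = zpol A d (G i k)
    rw [hG, hG, mul_comm]
  have hadj : ∀ i k, G.adjugate i k = G.adjugate k i := by
    intro i k
    have h9 := Matrix.adjugate_transpose G
    rw [hsym] at h9
    exact congrFun (congrFun h9 k) i
  have h10 : ∀ i k, lmap ρ (pr0 A d (e i * x k + e' k * x i)) =
      pr0 κ d (lmap ρ (e i) * lmap ρ (x k)) + pr0 κ d (lmap ρ (e k) * lmap ρ (x i)) := by
    intro i k
    rw [lmap_pr0, map_add (lmap ρ), map_mul, map_mul, Rl.img hj (hx k), map_add]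
  have h11 : ev d ((∑ i, ∑ k, G.adjugate i k * H k i).map ρ) =
      2 * ∑ i, ∑ k, zpol κ d ((G.map (Polynomial.map ρ)).adjugate i k) *
      pr0 κ d (lmap ρ (e k) * lmap ρ (x i)) := by
    rw [Polynomial.map_sum, map_sum]
    have h12 : ∀ i, ev d ((∑ k, G.adjugate i k * H k i).map ρ) =
        ∑ k, zpol κ d ((G.adjugate i k).map ρ) * pr0 κ d (lmap ρ (e k) * lmap ρ (x i)) +
        ∑ k, zpol κ d ((G.adjugate k i).map ρ) * pr0 κ d (lmap ρ (e i) * lmap ρ (x k)) := by
      intro i
      rw [Polynomial.map_sum, map_sum, ← Finset.sum_add_distrib]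
      refine Finset.sum_congr rfl fun k _ => ?_
      rw [Polynomial.map_mul, map_mul, ← hH2, h10, mul_add, hadj k i]
    rw [Finset.sum_congr rfl fun i _ => h12 i, Finset.sum_add_distrib]
    rw [Finset.sum_comm (f := fun i k => zpol κ d ((G.adjugate k i).map ρ) *
      pr0 κ d (lmap ρ (e i) * lmap ρ (x k))), ← two_mul]
    simp only [h8]
  refine ⟨C (2 : κ)⁻¹ * (v.map ρ * w), ?_⟩
  have h13 : C (2 : κ)⁻¹ * (v.map ρ * w) * (G.map (Polynomial.map ρ)).det =
      C (2 : κ)⁻¹ * (∑ i, ∑ k, G.adjugate i k * H k i).map ρ := by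
    rw [h6, h5]
    calc C (2 : κ)⁻¹ * (v.map ρ * w) * (u.map ρ * f.map ρ) =
        C (2 : κ)⁻¹ * (v.map ρ * (w * u.map ρ) * f.map ρ) := by ring
      _ = C (2 : κ)⁻¹ * (v.map ρ * f.map ρ) := by rw [hw, mul_one]
  rw [h13, map_mul]
  have h14 : zpol κ d ((∑ i, ∑ k, G.adjugate i k * H k i).map ρ) =
      2 * ∑ i, ∑ k, zpol κ d ((G.map (Polynomial.map ρ)).adjugate i k) *
      pr0 κ d (lmap ρ (e k) * lmap ρ (x i)) := h11
  rw [h14, ← mul_assoc]
  have h15 : zpol κ d (C (2 : κ)⁻¹) * 2 = 1 := by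
    have h16 : (2 : LaurentSeries κ) = zpol κ d (C (2 : κ)) := by
      rw [map_ofNat, map_ofNat]
    rw [h16, ← map_mul, ← C_mul, inv_mul_cancel₀ h2, C_1, map_one]
  rw [h15, one_mul]

end

/-- The inclusion. -/
theorem le_of (hBPD : Stmt_BPD) (hKBC : Stmt_KBC) (hKBT : Stmt_KBT) {A κ : Type} [CommRing A]
    [IsLocalRing A] [Field κ] (ρ : A →+* κ) (hρ : Function.Surjective ρ) {g d : ℕ} (hd : 0 < d)
    (h2d : IsUnit ((2 * d : ℕ) : A)) (R₁ R₂ : Subalgebra A (LaurentSeries A)) (f : A[X])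
    (hR₁ : Kr g R₁) (hR₂ : Kr g R₂) (hz₁ : zz A d ∈ R₁) (hz₂ : zz A d ∈ R₂) (hf : f.Monic)
    (hD₁ : Disc d R₁ f) (hD₂ : Disc d R₂ f) (j : A) (hj : ρ j = 0)
    (hm : ∀ m : A, ρ m = 0 → m * j = 0)
    (hb : bc1 (Ideal.Quotient.mk (Ideal.span {j})) R₁ =
      bc1 (Ideal.Quotient.mk (Ideal.span {j})) R₂) (hC : Cyc d (bc1 ρ R₁)) : R₁ ≤ R₂ := by
  classical
  have : NeZero d := ⟨hd.ne'⟩
  by_cases hj0 : j = 0
  · intro x hx
    obtain ⟨x', hx', y, hy⟩ := exists_pair hKBC hb hx
    rw [hj0, zero_smul, sub_eq_zero] at hy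
    rw [hy]
    exact hx'
  have hjj : j * j = 0 := hm j hj
  have hann : ∀ a, j * a = 0 → ρ a = 0 := by
    intro a ha
    by_contra hne
    apply hj0
    have h1 : IsUnit a := by
      by_contra hnu
      obtain ⟨b, hb'⟩ := hρ (ρ a)⁻¹
      have h2 : IsUnit (1 - a * b) := by
        rcases IsLocalRing.isUnit_or_isUnit_one_sub_self (a * b) with h | h
        · exact absurd (isUnit_of_mul_isUnit_left h) hnu
        · exact h
      have h3 : ρ (1 - a * b) = 0 := by
        rw [map_sub, map_one, map_mul, hb', mul_inv_cancel₀ hne, sub_self]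
      have h4 := h2.map ρ
      rw [h3] at h4
      exact not_isUnit_zero h4
    obtain ⟨b, hb'⟩ := h1.exists_right_inv
    rw [← mul_one j, ← hb', ← mul_assoc, ha, zero_mul]
  have hp := fun x (hx : x ∈ R₁) => exists_pair hKBC hb hx
  have hp' := fun x (hx : x ∈ R₂) => exists_pair hKBC hb.symm hx
  -- the reductions are equal
  have hbar : bc1 ρ R₁ = bc1 ρ R₂ := by
    apply le_antisymm
    · intro y hy
      obtain ⟨x, hx, rfl⟩ := exists_lift hKBC ρ hρ hy
      obtain ⟨x', hx', z, hz⟩ := hp x hx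
      rw [← Rl.img hj hz]
      exact Algebra.subset_adjoin ⟨x', hx', rfl⟩
    · intro y hy
      obtain ⟨x, hx, rfl⟩ := exists_lift hKBC ρ hρ hy
      obtain ⟨x', hx', z, hz⟩ := hp' x hx
      rw [← Rl.img hj hz]
      exact Algebra.subset_adjoin ⟨x', hx', rfl⟩
  have hdA : IsUnit (d : A) := by
    push_cast at h2d
    exact isUnit_of_mul_isUnit_right h2d
  have h2dκ : ((2 * d : ℕ) : κ) ≠ 0 := by
    have h1 := h2d.map ρ
    rw [map_natCast] at h1
    exact h1.ne_zero
  have h2κ : (2 : κ) ≠ 0 := by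
    push_cast at h2dκ
    exact left_ne_zero_of_mul h2dκ
  -- the derivation
  let D : LaurentSeries κ → LaurentSeries κ := fun y =>
    if h : ∃ v, Rl ρ j R₁ R₂ y v then h.choose else 0
  have hex : ∀ y ∈ bc1 ρ R₁, ∃ v, Rl ρ j R₁ R₂ y v := by
    intro y hy
    obtain ⟨x, hx, rfl⟩ := exists_lift hKBC ρ hρ hy
    obtain ⟨x', hx', z, hz⟩ := hp x hx
    exact ⟨lmap ρ z, x, hx, x', hx', z, rfl, hz, rfl⟩
  have hD : ∀ y ∈ bc1 ρ R₁, Rl ρ j R₁ R₂ y (D y) := by
    intro y hy
    have h := hex y hy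
    have h1 : D y = h.choose := dif_pos h
    rw [h1]
    exact h.choose_spec
  have huniq : ∀ y v v', Rl ρ j R₁ R₂ y v → Rl ρ j R₁ R₂ y v' → v - v' ∈ bc1 ρ R₁ := by
    intro y v v' h h'
    rw [hbar]
    apply Rl.uniq hKBT hR₁ hR₂ hm hann hp
    have h1 := h.sub h'
    rwa [sub_self] at h1
  -- the bases
  obtain ⟨e, G, he, hG, u, hu, hdet⟩ := hD₁
  choose e' he' x hx using fun i => hp (e i) (he.mem i)
  have he'' : ZBas d R₂ e' := by
    apply zbas_of_spn hR₂
    exact spn_congr hKBC hKBT (x := fun i => x ((sg d).symm i)) hjj hR₂ hz₂ hb (spn_of_zbas he)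
      (fun i => he' _) (fun i => hx _)
  choose G' hG' using fun i k => (t_ZD1 A g d R₂ hd hR₂ e' he'' (e' i * e' k)
    (mul_mem (he' i) (he' k))).2 hdA
  obtain ⟨e₂, G₂, he₂, hG₂, u₂, hu₂, hdet₂⟩ := hD₂
  obtain ⟨w, hw, hw'⟩ := det_change (G := Matrix.of G') hR₂ he'' he₂
    (fun i k => (hG' i k).symm) hG₂
  have hdet' : (Matrix.of G').det = w * u₂ * f := by rw [hw', hdet₂, mul_assoc]
  obtain ⟨v, hv⟩ := disc_lemma (ρ := ρ) h2κ hj hjj hann hG (G' := Matrix.of G')
    (fun i k => (hG' i k).symm) hx hf hu hdet hdet'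
  have hKr := kr_bc hKBC hR₁ ρ
  have hbas : ZBas d (bc1 ρ R₁) fun i => lmap ρ (e i) :=
    zbas_of_spn hKr (spn_bc hKBC ρ (spn_of_zbas he))
  have hgram : ZGram d (fun i => lmap ρ (e i)) (G.map (Polynomial.map ρ)) := by
    intro i k
    rw [Matrix.map_apply, ← lmap_zpol, hG i k, lmap_pr0, map_mul]
  have key := hBPD (κ := κ) hd h2dκ (bc1 ρ R₁) hKr (zz_mem_bc hz₁ ρ) hC
    (fun i => lmap ρ (e i)) (G.map (Polynomial.map ρ)) hbas hgram D ?_ ?_ ?_ ?_ ?_ ?_
  · -- the conclusion
    intro h hh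
    obtain ⟨h', hh', z, hz⟩ := hp h hh
    have h1 : lmap ρ h ∈ bc1 ρ R₁ := Algebra.subset_adjoin ⟨h, hh, rfl⟩
    have h2 : lmap ρ z ∈ bc1 ρ R₁ := by
      have h3 := huniq (lmap ρ h) (lmap ρ z) (D (lmap ρ h)) ⟨h, hh, h', hh', z, rfl, hz, rfl⟩
        (hD _ h1)
      have h4 := add_mem h3 (key _ h1)
      rwa [sub_add_cancel] at h4
    rw [hbar] at h2
    obtain ⟨r, hr, hr'⟩ := exists_lift hKBC ρ hρ h2
    have h5 : j • z = j • r := by
      ext m
      rw [HahnSeries.coeff_smul, HahnSeries.coeff_smul, smul_eq_mul, smul_eq_mul, ← sub_eq_zero,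
        ← mul_sub, mul_comm]
      apply hm
      rw [map_sub, ← lmap_coeff, ← lmap_coeff, hr', sub_self]
    have h6 : h = h' + j • r := by
      rw [← h5, ← hz]
      ring
    rw [h6]
    exact add_mem hh' (R₂.smul_mem hr j)
  · intro y hy y' hy'
    have h1 := huniq _ _ _ (hD _ (add_mem hy hy')) ((hD _ hy).add (hD _ hy'))
    rwa [sub_add_eq_sub_sub] at h1
  · intro y hy y' hy'
    have h1 := huniq _ _ _ (hD _ (mul_mem hy hy')) ((hD _ hy).mul hj (hD _ hy'))
    rwa [sub_add_eq_sub_sub] at h1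
  · intro a
    obtain ⟨b, rfl⟩ := hρ a
    have h1 : algebraMap κ (LaurentSeries κ) (ρ b) =
        lmap ρ (algebraMap A (LaurentSeries A) b) := (lmap_algebraMap ρ b).symm
    have h2 : Rl ρ j R₁ R₂ (algebraMap κ (LaurentSeries κ) (ρ b)) 0 := by
      rw [h1]
      exact Rl.both (R₁.algebraMap_mem b) (R₂.algebraMap_mem b)
    have h3 := huniq _ _ _ (hD _ ((bc1 ρ R₁).algebraMap_mem (ρ b))) h2
    rwa [sub_zero] at h3
  · have h2 : Rl ρ j R₁ R₂ (zz κ d) 0 := by
      rw [← lmap_zz ρ d]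
      exact Rl.both hz₁ hz₂
    have h3 := huniq _ _ _ (hD _ (zz_mem_bc hz₁ ρ)) h2
    rwa [sub_zero] at h3
  · intro y hy
    obtain ⟨a, ha, b, hb', z, h1, h2, h3⟩ := hD y hy
    obtain ⟨q, hq⟩ := (t_ZD1 A g d R₁ hd hR₁ e he a ha).2 hdA
    obtain ⟨q', hq'⟩ := (t_ZD1 A g d R₂ hd hR₂ e' he'' b hb').2 hdA
    have h4 : j • pr0 A d z = ev d (q - q') := by
      rw [← map_smul, ← h2, map_sub, hq, hq']
      exact (map_sub (zpol A d) q q').symm
    obtain ⟨p, -, hp2⟩ := lift_ev ρ hann h4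
    refine ⟨p.map ρ, ?_⟩
    rw [← h3, ← lmap_pr0]
    exact hp2
  · -- the discriminant
    have h1 : ∀ i, D (lmap ρ (e i)) - lmap ρ (x i) ∈ bc1 ρ R₁ := fun i =>
      huniq _ _ _ (hD _ (hbas.mem i)) ⟨e i, he.mem i, e' i, he' i, x i, rfl, hx i, rfl⟩
    choose c hc using fun i => (hbas.uni _ (h1 i)).exists
    refine ⟨v + ∑ i, c i i, ?_⟩
    rw [add_mul, map_add, ← hv, Finset.sum_mul, map_sum, ← Finset.sum_add_distrib]
    refine Finset.sum_congr rfl fun i _ => ?_
    have h2 : D (lmap ρ (e i)) = lmap ρ (x i) + ∑ l, zpol κ d (c i l) * lmap ρ (e l) := by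
      rw [← hc i]
      ring
    have h3 : ∀ k, pr0 κ d (lmap ρ (e k) * D (lmap ρ (e i))) =
        pr0 κ d (lmap ρ (e k) * lmap ρ (x i)) +
          zpol κ d (∑ l, c i l * (G.map (Polynomial.map ρ)) k l) := by
      intro k
      rw [h2, mul_add, map_add, Finset.mul_sum, map_sum, map_sum]
      congr 1
      refine Finset.sum_congr rfl fun l _ => ?_
      rw [mul_left_comm, pr0_zpol_mul, map_mul (zpol κ d), hgram k l]
    simp only [h3, mul_add, Finset.sum_add_distrib]
    congr 1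
    simp only [← map_mul, ← map_sum]
    congr 1
    simp only [Finset.mul_sum]
    rw [Finset.sum_comm]
    have h4 : ∀ l, ∑ k, (G.map (Polynomial.map ρ)).adjugate i k *
        (c i l * (G.map (Polynomial.map ρ)) k l) =
        c i l * (if i = l then (G.map (Polynomial.map ρ)).det else 0) := by
      intro l
      have h5 := congrFun (congrFun (Matrix.adjugate_mul (G.map (Polynomial.map ρ))) i) l
      rw [Matrix.mul_apply, Matrix.smul_apply, Matrix.one_apply, smul_eq_mul, mul_ite, mul_one,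
        mul_zero] at h5
      rw [← h5, Finset.mul_sum]
      refine Finset.sum_congr rfl fun k _ => ?_
      ring
    rw [Finset.sum_congr rfl fun l _ => h4 l]
    simp only [mul_ite, mul_zero]
    rw [Finset.sum_ite_eq, if_pos (Finset.mem_univ _)]

end BPX

open _root_.Pool.Agent.MG.G0.BPX in
/-- BPX: uniqueness, small extensions. -/
theorem t_BPX (hBPD : Stmt_BPD) (hKBC : Stmt_KBC) (hKBT : Stmt_KBT) : Stmt_BPX := by
  intro A κ _ _ _ ρ hρ g d hd h2d R₁ R₂ f hR₁ hR₂ hz₁ hz₂ hf hD₁ hD₂ j hj hm hb hC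
  have h1 := le_of hBPD hKBC hKBT ρ hρ hd h2d R₁ R₂ f hR₁ hR₂ hz₁ hz₂ hf hD₁ hD₂ j hj hm hb hC
  have h2 : uno R₁ = uno R₂ := t_KEQ hR₁ hR₂ fun x hx => h1 hx
  rw [← duo_uno R₁, h2, duo_uno]

end Pool.Agent.MG.G0


end

section

/-!
# PL4: differentials on the plumbed curve
-/

namespace Pool.Agent.MG.G0

namespace PL4

variable {I J A : Type} [CommRing A]

theorem res_sum [Fintype I] [Fintype J] (f : KK (I ⊕ J) A) :
    res f = res (atI f) + res (atJ f) := by
  change ∑ k, (f k).coeff (-1) = _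
  rw [Fintype.sum_sum_type]
  rfl

theorem mul_sub_res [Fintype I] {n : ℤ} {δ f g : KK I A} (hδ : δ ∈ Pol I A n)
    (h : f - g ∈ Pol I A (-n)) : res (δ * f) = res (δ * g) := by
  have h1 := mul_mem_Pol hδ h
  rw [add_neg_cancel] at h1
  have h2 := res_Pol0 h1
  rw [mul_sub, map_sub, sub_eq_zero] at h2
  exact h2

theorem ext_sum {f g : KK (I ⊕ J) A} (h : atI f = atI g) (h' : atJ f = atJ g) : f = g := by
  funext k
  rcases k with i | j
  · exact congrFun h i
  · exact congrFun h' j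

end PL4

open _root_.Pool.Agent.MG.G0.PL4 in
theorem t_PL4 (hKDU : Stmt_KDU) (hAWK : Stmt_AWK) (hPL0 : Stmt_PL0) : Stmt_PL4 := by
  intro I A _ _ _ h R hR hS pt hd t ht
  obtain ⟨N, hN⟩ := ht
  obtain ⟨hP1, -, -, -, -, -, -, hP8⟩ := hPL0 t N hN
  obtain ⟨-, -, -, -, -, hdens, -⟩ := hAWK hR hS pt hd
  have dens : ∀ (G : KK Bool A) (M : ℤ), ∃ w ∈ WJ pt, atJ w - G ∈ Pol Bool A (-M) := by
    intro G M
    obtain ⟨w, hw, hw2⟩ := hdens G M
    refine ⟨w, hw, fun j m hm => ?_⟩
    rw [neg_neg] at hm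
    rw [Pi.sub_apply, HahnSeries.coeff_sub, sub_eq_zero]
    exact hw2 j m hm
  refine ⟨fun η hη => ?_, fun ζ hζ F hF hζF f hf => ?_⟩
  · -- the functional
    have wd : ∀ v ∈ WJ pt, ∀ v' ∈ WJ pt, atJ v - atJ v' ∈ Nt t →
        res (η * atI v) = res (η * atI v') := by
      intro v hv v' hv' hvv
      have h1 := hη (atI (v - v')) ⟨v - v', sub_mem hv hv', rfl, hvv⟩
      have h2 : η * atI (v - v') = η * atI v - η * atI v' := mul_sub η (atI v) (atI v')
      rw [h2, map_sub, sub_eq_zero] at h1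
      exact h1
    have hex : ∀ G : KK Bool A, ∃ w ∈ WJ pt, atJ w - G ∈ Nt t := fun G => by
      obtain ⟨w, hw, hw2⟩ := dens G N
      exact ⟨w, hw, hP1 N le_rfl _ hw2⟩
    choose w hw hwG using hex
    let l : KK Bool A →ₗ[A] A :=
      { toFun := fun G => res (η * atI (w G))
        map_add' := fun G G' => by
          have h1 : res (η * atI (w (G + G'))) = res (η * atI (w G + w G')) := by
            refine wd _ (hw _) _ (add_mem (hw _) (hw _)) ?_
            have h2 : atJ (w (G + G')) - atJ (w G + w G') =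
                (atJ (w (G + G')) - (G + G')) - (atJ (w G) - G) - (atJ (w G') - G') := by
              change atJ (w (G + G')) - (atJ (w G) + atJ (w G')) = _
              ring
            rw [h2]
            exact sub_mem (sub_mem (hwG _) (hwG _)) (hwG _)
          rw [h1]
          have h3 : η * atI (w G + w G') = η * atI (w G) + η * atI (w G') :=
            mul_add η (atI (w G)) (atI (w G'))
          rw [h3, map_add]
        map_smul' := fun a G => by
          have h1 : res (η * atI (w (a • G))) = res (η * atI (a • w G)) := by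
            refine wd _ (hw _) _ ((WJ pt).smul_mem (hw _) a) ?_
            have h2 : atJ (w (a • G)) - atJ (a • w G) =
                (atJ (w (a • G)) - a • G) - a • (atJ (w G) - G) := by
              change atJ (w (a • G)) - a • atJ (w G) = _
              rw [smul_sub]
              abel
            rw [h2]
            exact sub_mem (hwG _) ((Nt t).smul_mem (hwG _) a)
          rw [h1]
          have h3 : η * atI (a • w G) = a • (η * atI (w G)) := mul_smul_comm a η (atI (w G))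
          rw [h3, map_smul, RingHom.id_apply] }
    have hl : ∀ G : KK Bool A, l G = res (η * atI (w G)) := fun G => rfl
    have hlw : ∀ v ∈ WJ pt, l (atJ v) = res (η * atI v) := fun v hv => by
      rw [hl]
      exact wd _ (hw _) _ hv (hwG _)
    have hlN : ∀ G ∈ Nt t, l G = 0 := fun G hG => by
      rw [hl, wd _ (hw _) 0 (zero_mem _) ?_]
      · have : η * atI (0 : KK (I ⊕ Bool) A) = 0 := mul_zero η
        rw [this, map_zero]
      · have : atJ (w G) - atJ (0 : KK (I ⊕ Bool) A) = (atJ (w G) - G) + G := by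
          change atJ (w G) - 0 = _
          ring
        rw [this]
        exact add_mem (hwG _) hG
    obtain ⟨ξ, ⟨hξ1, hξ2⟩, -⟩ := hKDU (N : ℤ) l fun f hf => hlN f (hP1 N le_rfl f hf)
    have hξN : ∀ F ∈ Nt t, res (-ξ * F) = 0 := fun F hF => by
      rw [neg_mul, map_neg, ← hξ2, hlN F hF, neg_zero]
    let ζ : KK (I ⊕ Bool) A := Sum.elim η (-ξ)
    refine ⟨ζ, ⟨fun v hv => ?_, rfl, (hP8 (-ξ)).1 hξN⟩, ?_⟩
    · rw [res_sum]
      change res (η * atI v) + res (-ξ * atJ v) = 0
      rw [neg_mul, map_neg, ← hξ2, hlw v hv, add_neg_cancel]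
    · rintro ζ' ⟨hζ'1, hζ'2, -⟩
      have hζ1 : ζ ∈ Perp (WJ pt) := fun v hv => by
        rw [res_sum]
        change res (η * atI v) + res (-ξ * atJ v) = 0
        rw [neg_mul, map_neg, ← hξ2, hlw v hv, add_neg_cancel]
      refine ext_sum hζ'2 ?_
      have hδ : ∀ v ∈ WJ pt, res ((atJ ζ' - atJ ζ) * atJ v) = 0 := fun v hv => by
        have e1 := hζ'1 v hv
        have e2 := hζ1 v hv
        rw [res_sum] at e1 e2
        change res (atI ζ' * atI v) + res (atJ ζ' * atJ v) = 0 at e1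
        change res (η * atI v) + res (atJ ζ * atJ v) = 0 at e2
        rw [hζ'2] at e1
        rw [sub_mul, map_sub, eq_neg_of_add_eq_zero_right e1, eq_neg_of_add_eq_zero_right e2,
          sub_self]
      obtain ⟨n, hn⟩ := exists_Pol (atJ ζ' - atJ ζ)
      rw [← sub_eq_zero]
      funext j
      ext k
      obtain ⟨v, hv, hv2⟩ := dens (mon j (-1 - k) 1) n
      have e1 := mul_sub_res hn hv2
      rw [hδ v hv, res_mul_mon, mul_one] at e1
      have e2 : -1 - (-1 - k) = k := by ring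
      rw [e2] at e1
      rw [← e1]
      rfl
  · obtain ⟨w, hw, rfl, hwN⟩ := hf
    have h1 := hζ w hw
    rw [res_sum] at h1
    change res (atI ζ * atI w) + res (atJ ζ * atJ w) = 0 at h1
    rw [(hP8 (atJ ζ)).2 ⟨F, hF, hζF⟩ (atJ w) hwN, add_zero] at h1
    exact h1

end Pool.Agent.MG.G0


end

section

/-!
# The dual basis for the form `pr₀(x y)`
-/

open Polynomial

namespace Pool.Agent.MG.G0

namespace ZDUx

open ZL

section

variable {A : Type} [CommRing A] {d : ℕ} [NeZero d]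

/-- The multiplication by `x` in terms of components. -/
theorem cmat_mul_cm (e : ZMod d → LaurentSeries A) (x : LaurentSeries A) (j k : ZMod d) :
    (cmat e * cm d x) j k = pr k (x * e j) := by
  rw [Matrix.mul_apply, mul_comm x, pr_mul]
  rfl

/-- Dual families: the expansion of `x` and the trace of the multiplication by `x`. -/
theorem dual_core (e es : ZMod d → LaurentSeries A)
    (h : ∀ i j, pr (0 : ZMod d) (e i * es j) = if i = j then 1 else 0) :
    (∀ x, x = ∑ j, pr (0 : ZMod d) (x * es j) * e j) ∧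
    ∀ x, ∑ j, pr (0 : ZMod d) (x * e j * es j) = (d : LaurentSeries A) * pr (0 : ZMod d) x := by
  classical
  let S : Matrix (ZMod d) (ZMod d) (LaurentSeries A) := Matrix.of fun k j => pr (-k) (es j)
  have hS : ∀ k j, S k j = pr (0 - k) (es j) := fun k j => by
    rw [zero_sub]
    rfl
  have hCS : cmat e * S = 1 := by
    ext1 i j
    rw [Matrix.mul_apply, Matrix.one_apply, ← h i j, pr_mul]
    refine Finset.sum_congr rfl fun k _ => ?_
    rw [hS]
    rfl
  have hSC : S * cmat e = 1 := mul_eq_one_comm.mp hCS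
  refine ⟨fun x => ?_, fun x => ?_⟩
  · have key : ∀ l : ZMod d, pr l (∑ j, pr (0 : ZMod d) (x * es j) * e j) = pr l x := by
      intro l
      rw [map_sum]
      have h1 : ∀ j, pr l (pr (0 : ZMod d) (x * es j) * e j) =
          ∑ k, pr k x * (S k j * cmat e j l) := by
        intro j
        rw [pr_mul_of (pr_pr_same 0 _), sub_zero, pr_mul, Finset.sum_mul]
        refine Finset.sum_congr rfl fun k _ => ?_
        rw [hS, mul_assoc]
        rfl
      rw [Finset.sum_congr rfl fun j _ => h1 j, Finset.sum_comm]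
      have h2 : ∀ k, ∑ j, pr k x * (S k j * cmat e j l) = if k = l then pr k x else 0 := by
        intro k
        rw [← Finset.mul_sum, ← Matrix.mul_apply, hSC, Matrix.one_apply, mul_ite, mul_one,
          mul_zero]
      rw [Finset.sum_congr rfl fun k _ => h2 k, Finset.sum_ite_eq', if_pos (Finset.mem_univ _)]
    rw [← sum_pr (d := d) (∑ j, pr (0 : ZMod d) (x * es j) * e j),
      Finset.sum_congr rfl fun l _ => key l, sum_pr]
  · have h1 : ∀ j, pr (0 : ZMod d) (x * e j * es j) = (cmat e * cm d x * S) j j := by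
      intro j
      rw [Matrix.mul_apply, pr_mul]
      refine Finset.sum_congr rfl fun k _ => ?_
      rw [cmat_mul_cm, hS]
    rw [Finset.sum_congr rfl fun j _ => h1 j]
    have h2 : ∑ j, (cmat e * cm d x * S) j j = (cmat e * cm d x * S).trace := rfl
    rw [h2, Matrix.trace_mul_comm, ← Matrix.mul_assoc, hSC, Matrix.one_mul, trace_cm]

end

section

variable {κ : Type} [Field κ] {d : ℕ}

theorem pr0_inv_mul {p : κ[X]} (hp : zpol κ d p ≠ 0) (y : LaurentSeries κ) :
    pr0 κ d ((zpol κ d p)⁻¹ * y) = (zpol κ d p)⁻¹ * pr0 κ d y := by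
  have h1 := pr0_zpol_mul d p ((zpol κ d p)⁻¹ * y)
  rw [← mul_assoc, mul_inv_cancel₀ hp, one_mul] at h1
  rw [h1, ← mul_assoc, inv_mul_cancel₀ hp, one_mul]

end

end ZDUx

open ZL _root_.Pool.Agent.MG.G0.ZDUx

theorem t_ZDU : Stmt_ZDU := by
  classical
  intro κ _ g d hd hdκ R hR hz
  have : NeZero d := ⟨hd.ne'⟩
  have hu : IsUnit (d : κ) := IsUnit.mk0 _ hdκ
  refine ⟨fun x hx => ?_, fun e G he hG => ?_⟩
  · obtain ⟨⟨f, -, e, G, he, -, -⟩, -, -⟩ := t_ZD2 κ g d R hd hdκ hR hz
    exact (t_ZD1 κ g d R hd hR e he x hx).2 hu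
  · have hs := spn_of_zbas he
    have hC := cmat_isUnit hR hs
    -- the Gram determinant
    have hgr : gram (fun i => e ((sg d).symm i)) =
        (G.submatrix (sg d).symm (sg d).symm).map (ev d) := by
      ext1 i j
      rw [gram, Matrix.of_apply, pr_zero_eq, Matrix.map_apply, Matrix.submatrix_apply]
      exact (hG _ _).symm
    have hdet : (gram fun i => e ((sg d).symm i)).det = zpol κ d G.det := by
      rw [hgr, det_map_ev, Matrix.det_submatrix_equiv_self]
    have hne : zpol κ d G.det ≠ 0 := by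
      rw [← hdet, gram_det]
      refine mul_ne_zero (pow_ne_zero 2 hC.ne_zero) ?_
      rcases Jm_det (A := LaurentSeries κ) (d := d) with h | h
      · rw [h]
        exact one_ne_zero
      · rw [h]
        exact neg_ne_zero.2 one_ne_zero
    have hinj := ev_injective (A := κ) d hd.ne'
    have hsym : ∀ i j, G i j = G j i := by
      intro i j
      apply hinj
      show zpol κ d (G i j) = zpol κ d (G j i)
      rw [hG, hG, mul_comm]
    refine ⟨fun h => hne (by rw [h, map_zero]), ?_⟩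
    let es : Fin d → LaurentSeries κ := fun j =>
      (zpol κ d G.det)⁻¹ * ∑ i, zpol κ d (G.adjugate j i) * e i
    have hdual : ∀ i j, pr0 κ d (e i * es j) = if i = j then 1 else 0 := by
      intro i j
      have h1 : e i * es j = (zpol κ d G.det)⁻¹ * ∑ k, zpol κ d (G.adjugate j k) * (e i * e k) := by
        show e i * ((zpol κ d G.det)⁻¹ * ∑ k, zpol κ d (G.adjugate j k) * e k) = _
        rw [mul_left_comm, Finset.mul_sum]
        congr 1
        refine Finset.sum_congr rfl fun k _ => ?_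
        rw [mul_left_comm]
      have h2 : pr0 κ d (∑ k, zpol κ d (G.adjugate j k) * (e i * e k)) =
          zpol κ d (∑ k, G.adjugate j k * G k i) := by
        rw [map_sum, map_sum]
        refine Finset.sum_congr rfl fun k _ => ?_
        rw [pr0_zpol_mul, hsym k i, ← hG i k, ← map_mul]
      rw [h1, pr0_inv_mul hne, h2, ← Matrix.mul_apply, Matrix.adjugate_mul, Matrix.smul_apply,
        Matrix.one_apply, smul_eq_mul, mul_ite, mul_one, mul_zero]
      by_cases hij : i = j
      · rw [if_pos hij, if_pos hij.symm, inv_mul_cancel₀ hne]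
      · rw [if_neg hij, if_neg (Ne.symm hij), map_zero, mul_zero]
    have hdual' : ∀ i j : ZMod d, pr (0 : ZMod d) (e ((sg d).symm i) * es ((sg d).symm j)) =
        if i = j then 1 else 0 := by
      intro i j
      rw [pr_zero_eq, hdual]
      simp only [EmbeddingLike.apply_eq_iff_eq]
    obtain ⟨h3, h4⟩ := dual_core (fun i => e ((sg d).symm i)) (fun i => es ((sg d).symm i)) hdual'
    refine ⟨es, hdual, fun x => ?_, fun x => ?_, fun j => ?_⟩
    · have h5 := h3 x
      simp only [pr_zero_eq] at h5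
      rw [Equiv.sum_comp (sg d).symm fun j => pr0 κ d (x * es j) * e j] at h5
      exact h5
    · have h5 := h4 x
      simp only [pr_zero_eq] at h5
      rw [Equiv.sum_comp (sg d).symm fun j => pr0 κ d (x * e j * es j)] at h5
      exact h5
    · show zpol κ d G.det * ((zpol κ d G.det)⁻¹ * ∑ i, zpol κ d (G.adjugate j i) * e i) = _
      rw [← mul_assoc, mul_inv_cancel₀ hne, one_mul]

end Pool.Agent.MG.G0


end
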