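import Mathlib
import Pool.Agent.KDM.C02
import Pool.Agent.KDM.C05
import Pool.Agent.KDM.C08
import Pool.Agent.KDM.C13
import Pool.Agent.KDM.C22
import Pool.Agent.KDM.C25
import Pool.Agent.KDM.C26
import Pool.Agent.KDM.C30

/-! Parts: MG.G0.AWB, MG.KX.KBP, MG.KX.MUN, MG.G0.KIS, MG.G0.NEL, MG.G0.SMO -/

section

/-!
# AWB: base change of formal points and of the ring with additional punctures
-/

open TensorProduct

namespace Pool.Agent.MG.G0

namespace AWB

section

variable {I A B : Type} [CommRing A] [CommRing B]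

theorem psl_map (φ : A →+* B) (f : PowerSeries A) :
    psl B (PowerSeries.map φ f) = lmap φ (psl A f) := by
  ext n
  rw [lmap_coeff]
  have h1 := PowerSeries.coeff_coe (PowerSeries.map φ f) n
  have h2 := PowerSeries.coeff_coe f n
  unfold psl
  rw [h1, h2]
  split_ifs
  · rw [map_zero]
  · rw [PowerSeries.coeff_map]

variable {P : Subalgebra A (KK I A)} (φ : A →+* B)

/-- Induction principle for the base change. -/
theorem bc_ind (h : Stmt_KBC) {C : bc φ P → Prop} (h0 : ∀ p : P, C (bcMap φ P p))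
    (hadd : ∀ f g, C f → C g → C (f + g)) (hsmul : ∀ (b : B) (f), C f → C (b • f))
    (f : bc φ P) : C f := by
  have hs : ∀ x : KK I B, x ∈ Submodule.span B (kmap φ '' (P : Set (KK I A))) ↔ x ∈ bc φ P := by
    intro x
    rw [← h.1 φ P]
    rfl
  have key : ∀ x (_ : x ∈ Submodule.span B (kmap φ '' (P : Set (KK I A)))),
      ∀ hx' : x ∈ bc φ P, C ⟨x, hx'⟩ := by
    intro x hx
    induction hx using Submodule.span_induction with
    | mem x hx =>
      obtain ⟨p, hp, rfl⟩ := hx
      intro _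
      exact h0 ⟨p, hp⟩
    | zero =>
      intro hx'
      have h1 := h0 0
      rw [map_zero] at h1
      exact h1
    | add x y hx hy ihx ihy =>
      intro hx'
      exact hadd ⟨x, (hs x).1 hx⟩ ⟨y, (hs y).1 hy⟩ (ihx _) (ihy _)
    | smul b x hx ih =>
      intro hx'
      exact hsmul b ⟨x, (hs x).1 hx⟩ (ih _)
  exact key f.1 ((hs _).2 f.2) f.2

theorem bcMap_algebraMap (a : A) :
    bcMap φ P (algebraMap A P a) = algebraMap B (bc φ P) (φ a) :=
  Subtype.ext (kmap_algebraMap φ a)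

/-- The expansion of the base change. -/
theorem exists_h [Fintype I] [Nonempty I] [Algebra A B] (hKBT : Stmt_KBT) {g : ℕ}
    (hP : IsKr g P) (pt : FPt P) :
    ∃ h : bc (algebraMap A B) P →ₐ[B] PowerSeries B, ∀ f : P,
      h (bcMap (algebraMap A B) P f) = PowerSeries.map (algebraMap A B) (pt.h f) := by
  obtain ⟨-, e, he⟩ := hKBT (B := B) hP
  let ψ : P →ₐ[A] PowerSeries B :=
    { (PowerSeries.map (algebraMap A B)).comp (pt.h : P →+* PowerSeries A) with
      commutes' := fun a => by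
        change PowerSeries.map (algebraMap A B) (pt.h (algebraMap A P a)) = _
        rw [AlgHom.commutes]
        ext n
        simp [PowerSeries.algebraMap_apply] }
  refine ⟨(Algebra.TensorProduct.lift (Algebra.ofId B (PowerSeries B)) ψ
    (fun _ _ => Commute.all _ _)).comp (e.symm : bc (algebraMap A B) P →ₐ[B] B ⊗[A] P),
    fun f => ?_⟩
  have h1 : e (1 ⊗ₜ f) = bcMap (algebraMap A B) P f := by
    apply Subtype.ext
    rw [he, one_smul]
    rfl
  rw [AlgHom.comp_apply, ← h1]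
  change (Algebra.TensorProduct.lift (Algebra.ofId B (PowerSeries B)) ψ
    (fun _ _ => Commute.all _ _)) (e.symm (e (1 ⊗ₜ f))) = _
  rw [AlgEquiv.symm_apply_apply, Algebra.TensorProduct.lift_tmul, map_one, one_mul]
  rfl

theorem exists_pt [Fintype I] [Nonempty I] (hKBC : Stmt_KBC) (hKBT : Stmt_KBT) {g : ℕ}
    (hP : IsKr g P) (pt : FPt P) : ∃! pt' : FPt (bc φ P), pt.Bc φ pt' := by
  obtain ⟨h, hh⟩ : ∃ h : bc φ P →ₐ[B] PowerSeries B, ∀ f : P,
      h (bcMap φ P f) = PowerSeries.map φ (pt.h f) := by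
    letI : Algebra A B := φ.toAlgebra
    exact exists_h hKBT hP pt
  have hpar : IsUnit (PowerSeries.coeff 1 (h (bcMap φ P pt.x))) := by
    rw [hh, PowerSeries.coeff_map]
    exact pt.par.map φ
  refine ⟨⟨h, bcMap φ P pt.x, hpar⟩, ⟨hh, rfl⟩, ?_⟩
  rintro ⟨h', x', hx'⟩ ⟨h1, h2⟩
  have e1 : h' = h := by
    apply AlgHom.ext
    intro f
    refine bc_ind φ hKBC (C := fun f => h' f = h f) (fun p => ?_) (fun f g hf hg => ?_)
      (fun b f hf => ?_) f
    · rw [hh]
      exact h1 p
    · change h' (f + g) = h (f + g)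
      rw [map_add, map_add, hf, hg]
    · change h' (b • f) = h (b • f)
      rw [map_smul, map_smul, hf]
  subst e1
  have e2 : x' = bcMap φ P pt.x := h2
  subst e2
  rfl

variable {J : Type} {pt : J → FPt P} {pt' : J → FPt (bc φ P)}

theorem ev_bcMap {p : FPt P} {p' : FPt (bc φ P)} (h : p.Bc φ p') (f : P) :
    p'.ev (bcMap φ P f) = φ (p.ev f) := by
  unfold FPt.ev
  rw [h.1 f, ← PowerSeries.coeff_zero_eq_constantCoeff_apply,
    ← PowerSeries.coeff_zero_eq_constantCoeff_apply, PowerSeries.coeff_map]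

theorem id_map (hKBC : Stmt_KBC) {p : FPt P} {p' : FPt (bc φ P)} (h : p.Bc φ p') :
    p'.id = p.id.map (bcMap φ P) := by
  have hev : ∀ (q : FPt (bc φ P)) (f g : bc φ P), q.ev (f + g) = q.ev f + q.ev g := by
    intro q f g
    unfold FPt.ev
    rw [map_add, map_add]
  have hevs : ∀ (q : FPt (bc φ P)) (b : B) (f : bc φ P), q.ev (b • f) = b * q.ev f := by
    intro q b f
    unfold FPt.ev
    rw [map_smul, ← PowerSeries.coeff_zero_eq_constantCoeff_apply, PowerSeries.coeff_smul,
      smul_eq_mul, PowerSeries.coeff_zero_eq_constantCoeff_apply]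
  apply le_antisymm
  · have key : ∀ f : bc φ P, f - algebraMap B (bc φ P) (p'.ev f) ∈ p.id.map (bcMap φ P) := by
      intro f
      refine bc_ind φ hKBC (C := fun f => f - algebraMap B (bc φ P) (p'.ev f) ∈
        p.id.map (bcMap φ P)) (fun r => ?_) (fun f g hf hg => ?_) (fun b f hf => ?_) f
      · change bcMap φ P r - algebraMap B (bc φ P) (p'.ev (bcMap φ P r)) ∈ _
        rw [ev_bcMap φ h, ← bcMap_algebraMap, ← map_sub]
        refine Ideal.mem_map_of_mem _ ?_
        rw [FPt.mem_id]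
        unfold FPt.ev
        rw [map_sub, map_sub, AlgHom.commutes]
        rw [sub_eq_zero]
        simp [PowerSeries.algebraMap_apply]
      · change f + g - algebraMap B (bc φ P) (p'.ev (f + g)) ∈ _
        rw [hev, map_add, add_sub_add_comm]
        exact add_mem hf hg
      · change b • f - algebraMap B (bc φ P) (p'.ev (b • f)) ∈ _
        rw [hevs, map_mul, Algebra.smul_def, ← mul_sub]
        exact Ideal.mul_mem_left _ _ hf
    intro f hf
    rw [FPt.mem_id] at hf
    have h1 := key f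
    rwa [hf, map_zero, sub_zero] at h1
  · rw [Ideal.map_le_iff_le_comap]
    intro f hf
    rw [FPt.mem_id] at hf
    rw [Ideal.mem_comap, FPt.mem_id, ev_bcMap φ h, hf, map_zero]

theorem hat_bcMap (h : ∀ j, (pt j).Bc φ (pt' j)) (r : P) :
    hat pt' (bcMap φ P r) = kmap φ (hat pt r) := by
  funext k
  rcases k with i | j
  · rfl
  · rw [hat_inr, kmap_apply, hat_inr, (h j).1 r, psl_map]

theorem disj (hKBC : Stmt_KBC) (h : ∀ j, (pt j).Bc φ (pt' j)) (hd : Disj pt) : Disj pt' := by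
  intro j k hjk
  rw [id_map φ hKBC (h j), id_map φ hKBC (h k), ← Ideal.map_sup, hd j k hjk, Ideal.map_top]

theorem Ipt_prod {R : Type} [CommRing R] {Q : Subalgebra R (KK I R)} {J : Type} [Fintype J]
    {q : J → FPt Q} (hd : Disj q) : Ipt q = ∏ j, (q j).id := by
  rw [Ideal.prod_eq_iInf_of_pairwise_isCoprime]
  · unfold Ipt
    simp
  · intro j _ k _ hjk
    exact Ideal.isCoprime_iff_sup_eq.2 (hd j k hjk)

theorem Ipt_map [Fintype J] (hKBC : Stmt_KBC) (h : ∀ j, (pt j).Bc φ (pt' j)) (hd : Disj pt) :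
    Ipt pt' = (Ipt pt).map (bcMap φ P) := by
  rw [Ipt_prod hd, Ipt_prod (disj φ hKBC h hd)]
  have h1 := map_prod (Ideal.mapHom (bcMap φ P)) (fun j => (pt j).id) Finset.univ
  simp only [Ideal.mapHom_apply] at h1
  rw [h1]
  exact Finset.prod_congr rfl fun j _ => id_map φ hKBC (h j)

theorem WJ_map [Fintype I] [Nonempty I] [Fintype J] (hKBC : Stmt_KBC) (hAWK : Stmt_AWK) {g : ℕ}
    (hP : IsKr g P) (hS : SmC A P) (h : ∀ j, (pt j).Bc φ (pt' j)) (hd : Disj pt) :
    WJ pt' = bc φ (WJ pt) := by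
  have hI := Ipt_map φ hKBC h hd
  apply le_antisymm
  · intro w hw
    rw [mem_WJ] at hw
    obtain ⟨n, hn⟩ := hw
    obtain ⟨m, s, a, hs, ha, has⟩ := (hAWK hP hS pt hd).2.2.2.2.2.2 n
    have h1 : ∑ k, kmap φ (a k) * hat pt' (bcMap φ P (s k)) = 1 := by
      have h2 := congrArg (kmap φ) has
      rw [map_sum, map_one] at h2
      rw [← h2]
      refine Finset.sum_congr rfl fun k _ => ?_
      rw [map_mul, hat_bcMap φ h]
    have hr : ∀ k, ∃ r : bc φ P, hat pt' (bcMap φ P (s k)) * w = hat pt' r := by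
      intro k
      refine hn _ ?_
      rw [hI, ← Ideal.map_pow]
      exact Ideal.mem_map_of_mem _ (hs k)
    choose r hr using hr
    have hbc : ∀ f : bc φ P, hat pt' f ∈ bc φ (WJ pt) := by
      intro f
      refine bc_ind φ hKBC (C := fun f => hat pt' f ∈ bc φ (WJ pt)) (fun p => ?_)
        (fun f g hf hg => ?_) (fun b f hf => ?_) f
      · change hat pt' (bcMap φ P p) ∈ _
        rw [hat_bcMap φ h]
        exact kmap_mem_bc φ (hat_mem pt p)
      · change hat pt' (f + g) ∈ _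
        rw [map_add]
        exact add_mem hf hg
      · change hat pt' (b • f) ∈ _
        rw [map_smul]
        exact Subalgebra.smul_mem _ hf b
    have hw : w = ∑ k, kmap φ (a k) * hat pt' (r k) := by
      have h3 : w = (∑ k, kmap φ (a k) * hat pt' (bcMap φ P (s k))) * w := by rw [h1, one_mul]
      rw [h3, Finset.sum_mul]
      refine Finset.sum_congr rfl fun k _ => ?_
      rw [mul_assoc, hr k]
    rw [hw]
    exact sum_mem fun k _ => mul_mem (kmap_mem_bc φ (ha k)) (hbc (r k))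
  · unfold bc
    rw [Algebra.adjoin_le_iff]
    rintro _ ⟨w, hw, rfl⟩
    obtain ⟨n, hn⟩ := (mem_WJ pt).1 hw
    refine (mem_WJ pt').2 ⟨n, fun s hs => ?_⟩
    rw [hI, ← Ideal.map_pow] at hs
    unfold Ideal.map at hs
    induction hs using Submodule.span_induction with
    | mem x hx =>
      obtain ⟨s, hs, rfl⟩ := hx
      obtain ⟨r, hr⟩ := hn s hs
      exact ⟨bcMap φ P r, by rw [hat_bcMap φ h, hat_bcMap φ h, ← map_mul, hr]⟩
    | zero => exact ⟨0, by rw [map_zero, zero_mul]⟩
    | add x y _ _ ihx ihy =>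
      obtain ⟨r, hr⟩ := ihx
      obtain ⟨t, ht⟩ := ihy
      exact ⟨r + t, by rw [map_add, map_add, add_mul, hr, ht]⟩
    | smul c x _ ih =>
      obtain ⟨r, hr⟩ := ih
      exact ⟨c * r, by rw [smul_eq_mul, map_mul, map_mul, mul_assoc, hr]⟩

end

end AWB

theorem t_AWB (hKBC : Stmt_KBC) (hKBT : Stmt_KBT) (hKEQ : Stmt_KEQ) (hAWK : Stmt_AWK) :
    Stmt_AWB := by
  intro I A B _ _ _ _ g P hP φ
  refine ⟨fun pt => AWB.exists_pt φ hKBC hKBT hP pt, fun hS J _ pt pt' h hd => ?_⟩
  exact ⟨AWB.disj φ hKBC h hd, AWB.WJ_map φ hKBC hAWK hP hS h hd, AWB.Ipt_map φ hKBC h hd⟩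

end Pool.Agent.MG.G0


end

section

/-!
# KBP: base change of points and marks
-/

open TensorProduct

namespace Pool.Agent.MG.KX

open Pool.Agent.MG.G0

namespace KBP

section

variable {I A B : Type} [CommRing A] [CommRing B] {P : Subalgebra A (KK I A)}

/-- The base change of a point. -/
theorem exists_p [Fintype I] [Nonempty I] [Algebra A B] (hKBT : Stmt_KBT) {g : ℕ}
    (hP : IsKr g P) (p : P →ₐ[A] A) :
    ∃ h : bc (algebraMap A B) P →ₐ[B] B, ∀ f : P,
      h (bcMap (algebraMap A B) P f) = algebraMap A B (p f) := by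
  obtain ⟨-, e, he⟩ := hKBT (B := B) hP
  refine ⟨(Algebra.TensorProduct.lift (AlgHom.id B B) ((Algebra.ofId A B).comp p)
    (fun _ _ => Commute.all _ _)).comp (e.symm : bc (algebraMap A B) P →ₐ[B] B ⊗[A] P),
    fun f => ?_⟩
  have h1 : e (1 ⊗ₜ f) = bcMap (algebraMap A B) P f := by
    apply Subtype.ext
    rw [he, one_smul]
    rfl
  rw [AlgHom.comp_apply, ← h1]
  change (Algebra.TensorProduct.lift (AlgHom.id B B) ((Algebra.ofId A B).comp p)
    (fun _ _ => Commute.all _ _)) (e.symm (e (1 ⊗ₜ f))) = _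
  rw [AlgEquiv.symm_apply_apply, Algebra.TensorProduct.lift_tmul, map_one, one_mul]
  rfl

variable {φ : A →+* B} {n : ℕ} {p : Fin n → (P →ₐ[A] A)} {p' : Fin n → (bc φ P →ₐ[B] B)}

theorem app (h : BcP φ p p') (i : Fin n) (f : P) : p' i (bcMap φ P f) = φ (p i f) :=
  h i f (bcMap φ P f) rfl

theorem ker_le (h : BcP φ p p') (i : Fin n) :
    (RingHom.ker (p i)).map (bcMap φ P) ≤ RingHom.ker (p' i) := by
  rw [Ideal.map_le_iff_le_comap]
  intro f hf
  rw [Ideal.mem_comap, RingHom.mem_ker, app h, RingHom.mem_ker.1 hf, map_zero]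

theorem dis (h : BcP φ p p') (hm : Marks P p) (i j : Fin n) (hij : i ≠ j) :
    RingHom.ker (p' i) ⊔ RingHom.ker (p' j) = ⊤ := by
  rw [eq_top_iff]
  refine le_trans ?_ (sup_le_sup (ker_le h i) (ker_le h j))
  rw [← Ideal.map_sup, hm.dis i j hij, Ideal.map_top]

theorem sm (hKBC : Stmt_KBC) (h : BcP φ p p') (i : Fin n) (t : P)
    (ht : ∀ f ∈ RingHom.ker (p i), ∃ c : A, f - c • t ∈ RingHom.ker (p i) ^ 2) (f : bc φ P) :
    ∃ c : B, f - algebraMap B (bc φ P) (p' i f) - c • bcMap φ P t ∈ RingHom.ker (p' i) ^ 2 := by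
  refine AWB.bc_ind φ hKBC (C := fun f => ∃ c : B,
    f - algebraMap B (bc φ P) (p' i f) - c • bcMap φ P t ∈ RingHom.ker (p' i) ^ 2)
    (fun f => ?_) ?_ ?_ f
  · have h1 : f - algebraMap A P (p i f) ∈ RingHom.ker (p i) := by
      rw [RingHom.mem_ker, map_sub, AlgHom.commutes]
      exact sub_self _
    obtain ⟨c, hc⟩ := ht _ h1
    refine ⟨φ c, ?_⟩
    have h2 : bcMap φ P (f - algebraMap A P (p i f) - c • t) ∈ RingHom.ker (p' i) ^ 2 := by
      have h3 := Ideal.mem_map_of_mem (bcMap φ P) hc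
      rw [Ideal.map_pow] at h3
      exact Ideal.pow_right_mono (ker_le h i) 2 h3
    have e : bcMap φ P (f - algebraMap A P (p i f) - c • t) =
        bcMap φ P f - algebraMap B (bc φ P) (p' i (bcMap φ P f)) - φ c • bcMap φ P t := by
      rw [map_sub, map_sub, AWB.bcMap_algebraMap, app h, Algebra.smul_def, map_mul,
        AWB.bcMap_algebraMap, ← Algebra.smul_def]
    rw [← e]
    exact h2
  · rintro f g ⟨c, hc⟩ ⟨d, hd⟩
    refine ⟨c + d, ?_⟩
    have e : f + g - algebraMap B (bc φ P) (p' i (f + g)) - (c + d) • bcMap φ P t =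
        (f - algebraMap B (bc φ P) (p' i f) - c • bcMap φ P t) +
        (g - algebraMap B (bc φ P) (p' i g) - d • bcMap φ P t) := by
      rw [map_add, map_add, add_smul]
      ring
    rw [e]
    exact add_mem hc hd
  · rintro b f ⟨c, hc⟩
    refine ⟨b * c, ?_⟩
    have e : b • f - algebraMap B (bc φ P) (p' i (b • f)) - (b * c) • bcMap φ P t =
        algebraMap B (bc φ P) b * (f - algebraMap B (bc φ P) (p' i f) - c • bcMap φ P t) := by
      rw [map_smul, smul_eq_mul, map_mul, Algebra.smul_def, Algebra.smul_def, Algebra.smul_def,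
        map_mul]
      ring
    rw [e]
    exact Ideal.mul_mem_left _ _ hc

end

end KBP

theorem t_KBP (hKBT : Stmt_KBT) (hKBC : Stmt_KBC) : Stmt_KBP := by
  refine ⟨?_, ?_⟩
  · intro I A B _ _ _ _ g P hP φ n p
    have key : ∀ i, ∃ h : bc φ P →ₐ[B] B, ∀ f : P, h (bcMap φ P f) = φ (p i f) := by
      intro i
      let _ : Algebra A B := φ.toAlgebra
      exact KBP.exists_p hKBT hP (p i)
    choose p' hp' using key
    refine ⟨p', fun i f f' hf => ?_⟩
    have e : f' = bcMap φ P f := Subtype.ext hf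
    rw [e]
    exact hp' i f
  · intro I A B _ _ _ _ g P hP φ n p p' h hm
    refine ⟨fun i j hij => KBP.dis h hm i j hij, fun i => ?_⟩
    obtain ⟨t, ht, hs⟩ := hm.sm i
    refine ⟨bcMap φ P t, ?_, fun f hf => ?_⟩
    · rw [RingHom.mem_ker, KBP.app h, RingHom.mem_ker.1 ht, map_zero]
    · obtain ⟨c, hc⟩ := KBP.sm hKBC h i t hs f
      rw [RingHom.mem_ker.1 hf, map_zero, sub_zero] at hc
      exact ⟨c, hc⟩

end Pool.Agent.MG.KX


end

section

/-!
# MUN: two models of the same deformation differ by a change of the coordinates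
-/

open CategoryTheory CategoryTheory.Limits AlgebraicGeometry
open scoped TensorProduct

namespace Pool.Agent.MG.KX

open Pool.Agent.MG.G0 Pool.Agent.MG.GLU

namespace MUN

section Alg

variable {I A : Type} [CommRing A]

theorem psI_mem {B : Type} [CommRing B] (f : I → PowerSeries B) : psI I B f ∈ Pol I B 0 :=
  fun i m hm => psl_coeff_neg (f i) m (by omega)

theorem kmap_psI {B : Type} [CommRing B] (φ : A →+* B) (f : I → PowerSeries A) :
    kmap φ (psI I A f) = psI I B (psm I φ f) := funext fun i => (AWB.psl_map φ (f i)).symm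

theorem psI_algebraMap {B : Type} [CommRing B] (a : B) :
    psI I B (algebraMap B (I → PowerSeries B) a) = algebraMap B (KK I B) a := by
  funext i
  refine HahnSeries.ext (funext fun m => ?_)
  change (psl B (algebraMap B (PowerSeries B) a)).coeff m =
    (algebraMap B (LaurentSeries B) a).coeff m
  rw [coeff_algebraMap]
  rcases lt_or_ge m 0 with h | h
  · rw [psl_coeff_neg _ _ h, if_neg (by omega)]
  · obtain ⟨k, rfl⟩ := Int.eq_ofNat_of_zero_le h
    rw [psl_coeff]
    change PowerSeries.coeff k (PowerSeries.C a) = _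
    rw [PowerSeries.coeff_C]
    simp

theorem psI_inj {B : Type} [CommRing B] {f g : I → PowerSeries B}
    (h : psI I B f = psI I B g) : f = g := funext fun i => psl_inj (congrFun h i)

theorem ksnd_mem {f : KK I (Eps A)} {n : ℤ} (h : f ∈ Pol I (Eps A) n) : ksnd f ∈ Pol I A n :=
  fun i m hm => by
    rw [ksnd_apply, lsnd_coeff, h i m hm]
    rfl

theorem Pol_inter {f : KK I A} (h : ∀ n : ℕ, f ∈ Pol I A (-(n : ℤ))) : f = 0 := by
  funext i
  ext m
  have := h (m.toNat + 1) i m (by push_cast; omega)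
  rw [this]
  rfl

variable {R : Type} [CommRing R] (h1 h2 : R →+* (I → PowerSeries (Eps A)))
  (hh : ∀ v, psm I (eps0 A) (h1 v) = psm I (eps0 A) (h2 v))

/-- The first expansion. -/
noncomputable def H (h : R →+* (I → PowerSeries (Eps A))) : R →+* KK I (Eps A) :=
  (psI I (Eps A)).comp h

/-- The expansion modulo `ε`. -/
noncomputable def Hb (h : R →+* (I → PowerSeries (Eps A))) : R →+* KK I A :=
  (kmap (eps0 A)).comp (H h)

theorem H_mem (h : R →+* (I → PowerSeries (Eps A))) (v : R) : H h v ∈ Pol I (Eps A) 0 :=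
  psI_mem _

theorem Hb_mem (h : R →+* (I → PowerSeries (Eps A))) (v : R) : Hb h v ∈ Pol I A 0 :=
  kmap_mem_Pol _ (H_mem h v)

theorem Hb_eq {h1 h2 : R →+* (I → PowerSeries (Eps A))}
    (hh : ∀ v, psm I (eps0 A) (h1 v) = psm I (eps0 A) (h2 v)) (v : R) : Hb h1 v = Hb h2 v := by
  change kmap (eps0 A) (psI I (Eps A) (h1 v)) = kmap (eps0 A) (psI I (Eps A) (h2 v))
  rw [kmap_psI, kmap_psI, hh]

/-- The difference of the two expansions. -/
noncomputable def D (v : R) : KK I A := ksnd (H h1 v) - ksnd (H h2 v)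

theorem D_add (v w : R) : D h1 h2 (v + w) = D h1 h2 v + D h1 h2 w := by
  rw [D, D, D, map_add, map_add, ksnd_add, ksnd_add]
  abel

theorem D_mul {h1 h2 : R →+* (I → PowerSeries (Eps A))}
    (hh : ∀ v, psm I (eps0 A) (h1 v) = psm I (eps0 A) (h2 v)) (v w : R) :
    D h1 h2 (v * w) = Hb h1 v * D h1 h2 w + Hb h1 w * D h1 h2 v := by
  rw [D, D, D, map_mul, map_mul, ksnd_mul, ksnd_mul]
  have e1 : kmap (eps0 A) (H h2 v) = Hb h1 v := (Hb_eq hh v).symm
  have e2 : kmap (eps0 A) (H h2 w) = Hb h1 w := (Hb_eq hh w).symm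
  have e3 : kmap (eps0 A) (H h1 v) = Hb h1 v := rfl
  have e4 : kmap (eps0 A) (H h1 w) = Hb h1 w := rfl
  rw [e1, e2, e3, e4]
  ring

theorem D_mem (v : R) : D h1 h2 v ∈ Pol I A 0 :=
  (Pol I A 0).sub_mem (ksnd_mem (H_mem h1 v)) (ksnd_mem (H_mem h2 v))

theorem ld_psl (f : PowerSeries A) : ld (psl A f) = psl A (PowerSeries.derivative A f) := by
  ext m
  rw [ld_coeff]
  rcases lt_or_ge m 0 with hm | hm
  · rw [psl_coeff_neg _ _ hm]
    rcases eq_or_ne (m + 1) 0 with h | h
    · rw [h]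
      simp
    · rw [psl_coeff_neg f _ (by omega), mul_zero]
  · obtain ⟨n, rfl⟩ := Int.eq_ofNat_of_zero_le hm
    have e : ((n : ℤ) + 1) = ((n + 1 : ℕ) : ℤ) := by push_cast; ring
    rw [e, psl_coeff, psl_coeff, PowerSeries.coeff_derivative]
    push_cast
    ring

theorem psl_X : psl A PowerSeries.X = HahnSeries.single 1 1 := HahnSeries.ofPowerSeries_X

/-- `τ` at all punctures. -/
theorem psI_X : (psI I A fun _ => PowerSeries.X) * (fun _ => HahnSeries.single (-1) 1) = 1 := by
  funext i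
  change psl A PowerSeries.X * HahnSeries.single (-1) 1 = 1
  rw [psl_X, HahnSeries.single_mul_single]
  simp

theorem psI_X_mem : (psI I A fun _ => PowerSeries.X) ∈ Pol I A (-1) := by
  intro i m hm
  change (psl A PowerSeries.X).coeff m = 0
  rw [psl_X, HahnSeries.coeff_single_of_ne (by omega)]

theorem dd_psI (f : I → PowerSeries A) :
    dd (psI I A f) = psI I A fun i => PowerSeries.derivative A (f i) :=
  funext fun i => ld_psl (f i)

theorem unit_dX {v F : I → PowerSeries A} (hv : IsUnit v) (hF : F = (fun _ => PowerSeries.X) * v) :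
    ∃ ι ∈ Pol I A 0, ι * dd (psI I A F) = 1 := by
  have h1 : IsUnit (fun i => PowerSeries.derivative A (F i)) := by
    rw [Pi.isUnit_iff]
    intro i
    rw [PowerSeries.isUnit_iff_constantCoeff]
    have h2 : PowerSeries.derivative A (F i) =
        v i + PowerSeries.X * PowerSeries.derivative A (v i) := by
      rw [hF]
      change PowerSeries.derivative A (PowerSeries.X * v i) = _
      rw [Derivation.leibniz, PowerSeries.derivative_X]
      simp only [smul_eq_mul]
      ring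
    rw [h2]
    have h3 := (Pi.isUnit_iff.1 hv) i
    rw [PowerSeries.isUnit_iff_constantCoeff] at h3
    simpa using h3
  obtain ⟨w, hw⟩ := h1.exists_left_inv
  refine ⟨psI I A w, psI_mem w, ?_⟩
  rw [dd_psI, ← map_mul, hw, map_one]

theorem core [Fintype I] {h1 h2 : R →+* (I → PowerSeries (Eps A))}
    (hh : ∀ v, psm I (eps0 A) (h1 v) = psm I (eps0 A) (h2 v)) (co : Eps A →+* R)
    (hc1 : ∀ a, h1 (co a) = algebraMap (Eps A) (I → PowerSeries (Eps A)) a)
    (hc2 : ∀ a, h2 (co a) = algebraMap (Eps A) (I → PowerSeries (Eps A)) a) (t : R)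
    (u : I → PowerSeries (Eps A)) (hu : IsUnit u) (ht : h1 t = (fun _ => PowerSeries.X) * u)
    (hk : ∀ v, ccI I (Eps A) (h1 v) = 0 → ∃ r, v = t * r)
    (hs : ∀ c : I → Eps A, ∃ v, ccI I (Eps A) (h1 v) = c) :
    IsUnit (Hb h1 t) ∧ ∃ θ ∈ Pol I A 0, ∀ v, D h1 h2 v = θ * dd (Hb h1 v) := by
  classical
  have hub : IsUnit (psm I (eps0 A) u) := hu.map _
  have hT : Hb h1 t = psI I A ((fun _ => PowerSeries.X) * psm I (eps0 A) u) := by
    change kmap (eps0 A) (psI I (Eps A) (h1 t)) = _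
    rw [kmap_psI, ht, map_mul]
    congr 2
    funext i
    change PowerSeries.map (eps0 A) PowerSeries.X = PowerSeries.X
    exact PowerSeries.map_X _
  have hTm : Hb h1 t ∈ Pol I A (-1) := by
    rw [hT, map_mul]
    have := mul_mem_Pol (psI_X_mem (I := I) (A := A)) (psI_mem (psm I (eps0 A) u))
    rwa [add_zero] at this
  have hTu : IsUnit (Hb h1 t) := by
    rw [hT, map_mul]
    exact (IsUnit.of_mul_eq_one _ psI_X).mul (hub.map _)
  refine ⟨hTu, ?_⟩
  obtain ⟨ι, hι, hι1⟩ := unit_dX (A := A) hub rfl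
  rw [← hT] at hι1
  refine ⟨ι * D h1 h2 t, mul_mem_Pol0 hι (D_mem h1 h2 t), ?_⟩
  have hθ := mul_mem_Pol0 hι (D_mem h1 h2 t)
  set θ := ι * D h1 h2 t with hθd
  let E : R → KK I A := fun v => D h1 h2 v - θ * dd (Hb h1 v)
  have Eadd : ∀ v w, E (v + w) = E v + E w := by
    intro v w
    change D h1 h2 (v + w) - θ * dd (Hb h1 (v + w)) = (D h1 h2 v - θ * dd (Hb h1 v)) +
      (D h1 h2 w - θ * dd (Hb h1 w))
    rw [D_add, map_add, dd_add]
    ring
  have Emul : ∀ v w, E (v * w) = Hb h1 v * E w + Hb h1 w * E v := by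
    intro v w
    change D h1 h2 (v * w) - θ * dd (Hb h1 (v * w)) = Hb h1 v * (D h1 h2 w - θ * dd (Hb h1 w)) +
      Hb h1 w * (D h1 h2 v - θ * dd (Hb h1 v))
    rw [D_mul hh, map_mul, dd_mul]
    ring
  have Et : E t = 0 := by
    change D h1 h2 t - θ * dd (Hb h1 t) = 0
    rw [hθd, mul_right_comm, hι1, one_mul, sub_self]
  have Eco : ∀ a, E (co a) = 0 := by
    intro a
    have e1 : D h1 h2 (co a) = 0 := by
      change ksnd (psI I (Eps A) (h1 (co a))) - ksnd (psI I (Eps A) (h2 (co a))) = 0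
      rw [hc1, hc2, sub_self]
    have e2 : Hb h1 (co a) = algebraMap A (KK I A) (eps0 A a) := by
      change kmap (eps0 A) (psI I (Eps A) (h1 (co a))) = _
      rw [hc1]
      have e3 : psI I (Eps A) (algebraMap (Eps A) (I → PowerSeries (Eps A)) a) =
          algebraMap (Eps A) (KK I (Eps A)) a := by
        exact psI_algebraMap a
      rw [e3, kmap_algebraMap]
    change D h1 h2 (co a) - θ * dd (Hb h1 (co a)) = 0
    rw [e1, e2, dd_algebraMap, mul_zero, sub_zero]
  have E0 : E 0 = 0 := by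
    have := Eadd 0 0
    rw [add_zero] at this
    exact left_eq_add.1 this
  have Esub : ∀ v w, E (v - w) = E v - E w := by
    intro v w
    have := Eadd (v - w) w
    rw [sub_add_cancel] at this
    rw [this, add_sub_cancel_right]
  have Esum : ∀ f : I → R, E (∑ i, f i) = ∑ i, E (f i) := by
    intro f
    have : ∀ s : Finset I, E (∑ i ∈ s, f i) = ∑ i ∈ s, E (f i) := by
      intro s
      induction s using Finset.induction_on with
      | empty => simpa using E0
      | insert a s ha ih => rw [Finset.sum_insert ha, Finset.sum_insert ha, Eadd, ih]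
    exact this _
  choose e he using fun i => hs (Pi.single i 1)
  choose w hw using fun i => hk (e i - e i * e i) (by
    rw [map_sub, map_mul, map_sub, map_mul, he i, ← Pi.single_mul, one_mul, sub_self])
  have key : ∀ n : ℕ, ∀ v, E v ∈ Pol I A (-(n : ℤ)) := by
    intro n
    induction n with
    | zero =>
      intro v
      rw [Nat.cast_zero, neg_zero]
      exact (Pol I A 0).sub_mem (D_mem h1 h2 v) (mul_mem_Pol0 hθ (dd_mem_Pol0 (Hb_mem h1 v)))
    | succ n ih =>
      have hn : -((n + 1 : ℕ) : ℤ) = -1 + -(n : ℤ) := by push_cast; ring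
      have hTE : ∀ v, Hb h1 t * E v ∈ Pol I A (-((n + 1 : ℕ) : ℤ)) := fun v => by
        rw [hn]
        exact mul_mem_Pol hTm (ih v)
      have hmul : ∀ {a b : KK I A}, a ∈ Pol I A 0 → b ∈ Pol I A (-((n + 1 : ℕ) : ℤ)) →
          a * b ∈ Pol I A (-((n + 1 : ℕ) : ℤ)) := fun ha hb => by
        have := mul_mem_Pol ha hb
        rwa [zero_add] at this
      have he1 : ∀ i, E (e i) ∈ Pol I A (-((n + 1 : ℕ) : ℤ)) := by
        intro i
        have a1 : E (t * w i) = Hb h1 t * E (w i) := by rw [Emul, Et, mul_zero, add_zero]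
        have a2 : E (t * w i) = (1 - 2 * Hb h1 (e i)) * E (e i) := by
          rw [← hw i, Esub, Emul]
          ring
        have a3 : Hb h1 t * Hb h1 (w i) = Hb h1 (e i) - Hb h1 (e i) * Hb h1 (e i) := by
          rw [← map_mul, ← hw i, map_sub, map_mul]
        have a4 : E (e i) = (1 - 2 * Hb h1 (e i)) * (Hb h1 t * E (w i)) +
            4 * (Hb h1 (w i)) * (Hb h1 t * E (e i)) := by
          rw [← a1, a2]
          linear_combination (-4 * E (e i)) * a3
        rw [a4]
        have two : (2 : KK I A) ∈ Pol I A 0 := by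
          have := (Pol I A 0).add_mem (one_mem_Pol0 (I := I) (A := A)) one_mem_Pol0
          rwa [one_add_one_eq_two] at this
        have four : (4 : KK I A) ∈ Pol I A 0 := by
          have := mul_mem_Pol0 two two
          have h4 : (2 : KK I A) * 2 = 4 := by norm_num
          rwa [h4] at this
        exact (Pol I A _).add_mem (hmul ((Pol I A 0).sub_mem one_mem_Pol0
          (mul_mem_Pol0 two (Hb_mem h1 _))) (hTE _)) (hmul (mul_mem_Pol0 four (Hb_mem h1 _)) (hTE _))
      intro v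
      obtain ⟨r, hr⟩ := hk (v - ∑ i, co (ccI I (Eps A) (h1 v) i) * e i) (by
        rw [map_sub, map_sub, map_sum, map_sum]
        have : ∀ i, ccI I (Eps A) (h1 (co (ccI I (Eps A) (h1 v) i) * e i)) =
            Pi.single i (ccI I (Eps A) (h1 v) i) := by
          intro i
          rw [map_mul, map_mul, he i, hc1]
          funext k
          rw [Pi.mul_apply, ccI_apply]
          rcases eq_or_ne k i with h | h
          · subst h
            rw [Pi.single_eq_same, Pi.single_eq_same, mul_one]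
            change PowerSeries.constantCoeff (PowerSeries.C _) = _
            exact PowerSeries.constantCoeff_C _
          · rw [Pi.single_eq_of_ne h, Pi.single_eq_of_ne h, mul_zero]
        rw [Finset.sum_congr rfl fun i _ => this i, Finset.univ_sum_single, sub_self])
      have b1 : v = t * r + ∑ i, co (ccI I (Eps A) (h1 v) i) * e i := by
        rw [← hr]
        ring
      rw [b1, Eadd, Emul, Et, mul_zero, add_zero, Esum]
      refine (Pol I A _).add_mem (hTE r) ((Pol I A _).sum_mem fun i _ => ?_)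
      rw [Emul, Eco, mul_zero, add_zero]
      exact hmul (Hb_mem h1 _) (he1 i)
  intro v
  have := Pol_inter fun n => key n v
  exact sub_eq_zero.1 this

end Alg

section Geo

theorem nil_surj {R S : Type} [CommRing R] [CommRing S] (φ : R →+* S)
    (h1 : Function.Surjective φ) (h2 : ∀ a, φ a = 0 → a * a = 0) :
    Function.Surjective (spMap φ) := by
  change Function.Surjective (PrimeSpectrum.comap φ)
  rw [← Set.range_eq_univ, range_comap_of_surjective _ _ h1,
    PrimeSpectrum.zeroLocus_eq_univ_iff]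
  intro a ha
  exact (mem_nilradical).2 ⟨2, by rw [pow_two]; exact h2 a ha⟩

variable {I A : Type} [CommRing A]

theorem eps_sq {a b : Eps A} (ha : eps0 A a = 0) (hb : eps0 A b = 0) : a * b = 0 := by
  have ha' : a.fst = 0 := ha
  have hb' : b.fst = 0 := hb
  ext
  · rw [TrivSqZeroExt.fst_mul, ha', zero_mul]
    rfl
  · rw [TrivSqZeroExt.snd_mul, ha', hb']
    simp

theorem psm_surj : Function.Surjective (psm I (eps0 A)) := by
  intro f
  refine ⟨fun i => PowerSeries.map (epsInl A) (f i), funext fun i => ?_⟩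
  rw [psm_apply]
  ext n
  simp [epsInl]

theorem psm_sq (a : I → PowerSeries (Eps A)) (h : psm I (eps0 A) a = 0) : a * a = 0 := by
  funext i
  refine PowerSeries.ext fun n => ?_
  rw [Pi.mul_apply, PowerSeries.coeff_mul]
  have hc : ∀ m, eps0 A (PowerSeries.coeff m (a i)) = 0 := fun m => by
    have h2 := congrArg (PowerSeries.coeff m) (congrFun h i)
    rw [psm_apply, PowerSeries.coeff_map] at h2
    rw [h2]
    simp
  rw [Finset.sum_eq_zero fun p _ => eps_sq (hc _) (hc _)]
  simp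

variable {g : ℕ} {x : Fam 0 A} {P : Subalgebra A (KK I A)} {M : Mod x P (nop P)}
  {y : Fam 0 (Eps A)} {r : Arrow (eps0 A) x y} {δ δ' : DD P}
  {M1 : Mod y (Pdel P δ) (nop (Pdel P δ))} {M2 : Mod y (Pdel P δ') (nop (Pdel P δ'))}

theorem rf_surj (r : Arrow (eps0 A) x y) : Function.Surjective r.f := by
  have h : Surjective (spMap (eps0 A)) := ⟨nil_surj (eps0 A)
    (fun a => ⟨epsInl A a, by simp [epsInl]⟩) fun a ha => eps_sq ha ha⟩
  have h2 : Surjective r.f := MorphismProperty.of_isPullback r.cart.flip h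
  exact h2.surj

theorem sh_eq (o1 : M1.Over r M) (o2 : M2.Over r M) (p : Sp (I → PowerSeries (Eps A))) :
    M1.sh p = M2.sh p := by
  obtain ⟨p', rfl⟩ := nil_surj (psm I (eps0 A)) psm_surj psm_sq p
  rw [← Scheme.Hom.comp_apply, ← Scheme.Hom.comp_apply, ← o1.sh, ← o2.sh]

theorem range_j (o1 : M1.Over r M) : Set.range M1.j = r.f '' Set.range M.j := by
  ext q
  constructor
  · rintro ⟨p, rfl⟩
    obtain ⟨q', hq'⟩ := rf_surj r (M1.j p)
    rcases M.cov q' with h | ⟨c, hc⟩
    · exact ⟨q', h, hq'⟩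
    · exfalso
      refine M1.exc (M1.j p) ⟨p, rfl⟩ ?_
      let e : (I → Eps A) →+* (I → A) := RingHom.pi fun i => (eps0 A).comp (Pi.evalRingHom _ i)
      refine ⟨spMap e c, ?_⟩
      rw [← hq', ← hc, ← Scheme.Hom.comp_apply, ← Scheme.Hom.comp_apply, Category.assoc, o1.sh,
        ← Category.assoc, ← Category.assoc, ← Spec.map_comp, ← Spec.map_comp,
        ← CommRingCat.ofHom_comp, ← CommRingCat.ofHom_comp]
      rfl
  · rintro ⟨_, ⟨p, rfl⟩, rfl⟩
    rw [← Scheme.Hom.comp_apply, o1.j]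
    exact ⟨_, rfl⟩

end Geo

theorem exists_lift {I A : Type} [CommRing A] (f h : KK I A) :
    ∃ F : KK I (Eps A), kmap (eps0 A) F = f ∧ ksnd F = h := by
  refine ⟨fun i => lmap (epsInl A) (f i) + epsL A * lmap (epsInl A) (h i), ?_,
    funext fun i => lsnd_inl _ _⟩
  funext i
  refine HahnSeries.ext (funext fun m => ?_)
  rw [kmap_apply, lmap_coeff, HahnSeries.coeff_add, coeff_epsL_mul]
  simp [epsInl, epsE]

end MUN

theorem t_MUN : Stmt_MUN := by
  intro I A _ _ _ g x P hP M y r hflat δ δ' M1 M2 o1 o2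
  haveI := M1.jo
  haveI := M2.jo
  haveI := M.jo
  obtain ⟨V, t, le, hV, hbt, -, ⟨u, hu, hut⟩, hker, hsur⟩ := M1.loc
  have le2 : ⊤ ≤ M2.sh ⁻¹ᵁ V := fun p hp => by
    have h1 : M1.sh p ∈ V := le hp
    rw [MUN.sh_eq o1 o2] at h1
    exact h1
  have hU : M1.j.opensRange = M2.j.opensRange := by
    ext1
    change Set.range M1.j = Set.range M2.j
    rw [MUN.range_j o1, MUN.range_j o2]
  let U := M1.j.opensRange
  have lj1 : ⊤ ≤ M1.j ⁻¹ᵁ U := fun p _ => ⟨p, rfl⟩
  have lj2 : ⊤ ≤ M2.j ⁻¹ᵁ U := fun p _ => by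
    change M2.j p ∈ M1.j.opensRange
    rw [hU]
    exact ⟨p, rfl⟩
  have b1 := gm_bij M1.j U lj1 rfl
  let h1 := gm M1.sh V le
  let h2 := gm M2.sh V le2
  -- the reductions
  have lM : ⊤ ≤ M.sh ⁻¹ᵁ (r.f ⁻¹ᵁ V) := fun p _ => by
    change r.f (M.sh p) ∈ V
    rw [← Scheme.Hom.comp_apply, o1.sh]
    exact le trivial
  have hh : ∀ v, psm I (eps0 A) (h1 v) = psm I (eps0 A) (h2 v) := fun v => by
    rw [← gm_nat r.f M1.sh M.sh (psm I (eps0 A)) o1.sh V (r.f ⁻¹ᵁ V) le lM le_rfl v,
      ← gm_nat r.f M2.sh M.sh (psm I (eps0 A)) o2.sh V (r.f ⁻¹ᵁ V) le2 lM le_rfl v]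
  have lMj : ⊤ ≤ M.j ⁻¹ᵁ (r.f ⁻¹ᵁ U) := fun p _ => by
    change r.f (M.j p) ∈ U
    rw [← Scheme.Hom.comp_apply, o1.j]
    exact ⟨_, rfl⟩
  have hj : ∀ s, kmap (eps0 A) (gm M1.j U lj1 s : KK I (Eps A)) =
      kmap (eps0 A) (gm M2.j U lj2 s : KK I (Eps A)) := fun s => by
    have e1 := gm_nat r.f M1.j M.j (rres (kmap (eps0 A)) o1.mem) o1.j U (r.f ⁻¹ᵁ U) lj1 lMj le_rfl s
    have e2 := gm_nat r.f M2.j M.j (rres (kmap (eps0 A)) o2.mem) o2.j U (r.f ⁻¹ᵁ U) lj2 lMj le_rfl s
    exact congrArg Subtype.val (e1.symm.trans e2)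
  obtain ⟨hTu, θ, hθ, hD⟩ := MUN.core hh (coef y.π V)
    (fun a => gm_coef M1.sh y.π _ M1.shp V le a) (fun a => gm_coef M2.sh y.π _ M2.shp V le2 a)
    t u hu hut hker hsur
  refine ⟨θ, hθ, ?_⟩
  refine Derivation.ext fun f => ?_
  -- a lift of `f`
  obtain ⟨h, hh'⟩ := mk_surj P (δ f)
  obtain ⟨F, hF1, hF2⟩ := MUN.exists_lift (f : KK I A) h
  have hFm : F ∈ Pdel P δ := by
    refine mem_Pdel.2 ⟨by rw [hF1]; exact f.2, ?_⟩
    have e : (⟨kmap (eps0 A) F, by rw [hF1]; exact f.2⟩ : P) = f := Subtype.ext hF1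
    rw [e, hF2, hh']
  obtain ⟨s, hs⟩ := b1.2 ⟨F, hFm⟩
  let W := y.X.basicOpen t
  have hWV : W ≤ V := y.X.basicOpen_le t
  have hWU : W ≤ U := fun q hq => by
    have h5 : q ∈ (y.X.basicOpen t : Set y.X) := hq
    rw [hbt] at h5
    exact h5.1
  -- localisation
  haveI := hV.isLocalization_basicOpen t
  obtain ⟨⟨v, ⟨_, n, rfl⟩⟩, hv⟩ := IsLocalization.surj (Submonoid.powers t) (rs y.X hWU s)
  have hv' : rs y.X hWU s * rs y.X hWV (t ^ n) = rs y.X hWV v := hv
  -- the common part of the two charts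
  have fin : ∀ {δ₀ : DD P} (M0 : Mod y (Pdel P δ₀) (nop (Pdel P δ₀))) (hj0 : ∀ p, M0.j p ∈ U)
      (le0 : ⊤ ≤ M0.sh ⁻¹ᵁ V) (lj0 : ⊤ ≤ M0.j ⁻¹ᵁ U),
      (gm M0.j U lj0 s : KK I (Eps A)) * psI I (Eps A) (gm M0.sh V le0 (t ^ n)) =
        psI I (Eps A) (gm M0.sh V le0 v) := by
    intro δ₀ M0 hj0 le0 lj0
    have lW : ⊤ ≤ (spMap (psI I (Eps A)) ≫ M0.sh) ⁻¹ᵁ W := fun p _ => by
      have a1 : (spMap (psI I (Eps A)) ≫ M0.sh) p ∈ (y.X.basicOpen t : Set y.X) := by
        rw [hbt]
        refine ⟨?_, ?_⟩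
        · have a2 : (spMap (psI I (Eps A)) ≫ M0.sh) p ∈ U := by
            rw [M0.cmp]
            exact hj0 _
          exact a2
        · rw [Scheme.Hom.comp_apply]
          exact le0 trivial
      exact a1
    have c1 := gm_rs M0.j ((Pdel P δ₀).val : Pdel P δ₀ →+* KK I (Eps A))
      (spMap (psI I (Eps A)) ≫ M0.sh) M0.cmp hWU lj0 lW s
    have c2 := fun v' => gm_rs M0.sh (psI I (Eps A)) (spMap (psI I (Eps A)) ≫ M0.sh) rfl hWV le0 lW v'
    have c3 := congrArg (gm (spMap (psI I (Eps A)) ≫ M0.sh) W lW) hv'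
    rw [map_mul, c1, c2, c2] at c3
    exact c3
  have f1 := fin M1 (fun p => lj1 trivial) le lj1
  have f2 := fin M2 (fun p => lj2 trivial) le2 lj2
  set a1 : KK I (Eps A) := (gm M1.j U lj1 s : KK I (Eps A)) with ha1
  set a2 : KK I (Eps A) := (gm M2.j U lj2 s : KK I (Eps A)) with ha2
  have a12 : kmap (eps0 A) a1 = kmap (eps0 A) a2 := hj s
  have aF : a1 = F := congrArg Subtype.val hs
  have af : kmap (eps0 A) a1 = (f : KK I A) := by rw [aF, hF1]
  -- the second coordinates
  have k1 : kmap (eps0 A) a1 * MUN.Hb h1 (t ^ n) = MUN.Hb h1 v := by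
    change _ * kmap (eps0 A) (psI I (Eps A) (h1 (t ^ n))) = kmap (eps0 A) (psI I (Eps A) (h1 v))
    rw [← map_mul]
    exact congrArg _ f1
  have k2 := congrArg ksnd f1
  have k3 := congrArg ksnd f2
  rw [ksnd_mul] at k2 k3
  have k4 : kmap (eps0 A) (psI I (Eps A) (h2 (t ^ n))) = MUN.Hb h1 (t ^ n) :=
    (MUN.Hb_eq hh (t ^ n)).symm
  have k5 : kmap (eps0 A) (psI I (Eps A) (h1 (t ^ n))) = MUN.Hb h1 (t ^ n) := rfl
  have k6 := hD (t ^ n)
  have k7 := hD v
  rw [← k1, dd_mul] at k7
  have k8 : MUN.Hb h1 (t ^ n) * (ksnd a1 - ksnd a2) =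
      MUN.Hb h1 (t ^ n) * (θ * dd (kmap (eps0 A) a1)) := by
    have k9 : MUN.D h1 h2 v = ksnd (psI I (Eps A) (h1 v)) - ksnd (psI I (Eps A) (h2 v)) := rfl
    have k10 : MUN.D h1 h2 (t ^ n) =
      ksnd (psI I (Eps A) (h1 (t ^ n))) - ksnd (psI I (Eps A) (h2 (t ^ n))) := rfl
    rw [k9, ← k2, ← k3] at k7
    rw [k10] at k6
    change _ * _ + kmap (eps0 A) (psI I (Eps A) (h1 (t ^ n))) * _ -
      (_ * _ + kmap (eps0 A) (psI I (Eps A) (h2 (t ^ n))) * _) = _ at k7
    rw [k4, k5, ← a12] at k7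
    change kmap (eps0 A) a1 * ksnd (psI I (Eps A) (h1 (t ^ n))) + MUN.Hb h1 (t ^ n) * ksnd a1 -
      (kmap (eps0 A) a1 * ksnd (psI I (Eps A) (h2 (t ^ n))) + MUN.Hb h1 (t ^ n) * ksnd a2) = _ at k7
    linear_combination k7 - kmap (eps0 A) a1 * k6
  have k11 : ksnd a1 - ksnd a2 = θ * dd (kmap (eps0 A) a1) := by
    have hun : IsUnit (MUN.Hb h1 (t ^ n)) := by
      rw [map_pow]
      exact hTu.pow n
    exact hun.mul_left_cancel k8
  have m1 : δ f = mk P (ksnd a1) := by
    obtain ⟨p1, p2⟩ := mem_Pdel.1 (gm M1.j U lj1 s).2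
    have e : (⟨kmap (eps0 A) a1, p1⟩ : P) = f := Subtype.ext af
    rw [← e]
    exact p2
  have m2 : δ' f = mk P (ksnd a2) := by
    obtain ⟨p1, p2⟩ := mem_Pdel.1 (gm M2.j U lj2 s).2
    have e : (⟨kmap (eps0 A) a2, p1⟩ : P) = f := Subtype.ext (a12.symm.trans af)
    rw [← e]
    exact p2
  rw [Derivation.add_apply, m1, m2, tder_apply, ← af, ← k11, ← map_add]
  congr 1
  abel

end Pool.Agent.MG.KX


end

section

/-!
# Module KIS (PAPER U, KIL (4)): smoothness from a separable multiple of the different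

Let `s = z - c`. The trace of the multiplication by `y` on `R / s R` is `-res (y dz / s)`. The
trace form of `R / s R` has the radical as its kernel, because the traces of the idempotents are
dimensions between `1` and `d`. If `M` is a maximal ideal containing `s` and `y₀` represents an
element of the socle of `R / s R` killed by `M`, then `y₀ / s` maps `M` to `R`. If it maps `M` to
`M`, it maps the radical to itself, and the double orthogonal shows that a multiple of it is in
`R`, a contradiction. So `M` is locally principal.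
-/

open Polynomial

namespace Pool.Agent.MG.G0

namespace KIS

theorem exists_idem {B : Type} [CommRing B] [IsArtinianRing B] (y : B) (hy : ¬ IsNilpotent y) :
    ∃ p, (y * p) * (y * p) = y * p ∧ y * p ≠ 0 := by
  obtain ⟨n, b, hb⟩ := IsArtinian.exists_pow_succ_smul_dvd y (1 : B)
  simp only [smul_eq_mul, mul_one, Nat.succ_eq_add_one] at hb
  have h1 : ∀ k : ℕ, y ^ (n + k) * b ^ k = y ^ n := by
    intro k
    induction k with
    | zero => simp
    | succ k ih =>
      calc y ^ (n + (k+1)) * b ^ (k+1) = y ^ k * b ^ k * (y ^ (n+1) * b) := by ring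
        _ = y ^ (n + k) * b ^ k := by rw [hb]; ring
        _ = y ^ n := ih
  have h2 := h1 (n+1)
  refine ⟨y ^ n * b ^ (n+1), ?_, ?_⟩
  · calc y * (y ^ n * b ^ (n+1)) * (y * (y ^ n * b ^ (n+1)))
        = y * b ^ (n+1) * (y ^ (n + (n+1)) * b ^ (n+1)) := by ring
      _ = y * (y ^ n * b ^ (n+1)) := by rw [h2]; ring
  · intro h0
    apply hy
    refine ⟨n, ?_⟩
    rw [← h2]
    calc y ^ (n + (n+1)) * b ^ (n+1) = y ^ n * (y * (y ^ n * b ^ (n+1))) := by ring
      _ = 0 := by rw [h0, mul_zero]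

theorem exists_socle {B : Type} [CommRing B] [IsArtinianRing B] (m : Ideal B) [hm : m.IsMaximal] :
    ∃ y : B, y ≠ 0 ∧ ∀ x ∈ m, x * y = 0 := by
  have h1 : m ∈ (Module.annihilator B B).minimalPrimes := by
    refine ⟨⟨hm.isPrime, ?_⟩, fun p hp hpm => ?_⟩
    · intro x hx
      have := Module.mem_annihilator.1 hx 1
      rw [smul_eq_mul, mul_one] at this
      rw [this]; exact zero_mem _
    · have := hp.1
      have := (IsArtinianRing.isPrime_iff_isMaximal p).1 hp.1
      exact (this.eq_of_le hm.ne_top hpm).ge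
  have h2 := Module.associatedPrimes.minimalPrimes_annihilator_subset_associatedPrimes B B h1
  rw [AssociatedPrimes.mem_iff, isAssociatedPrime_iff] at h2
  obtain ⟨-, y, hy⟩ := h2
  refine ⟨y, ?_, ?_⟩
  · rintro rfl
    apply hm.ne_top
    rw [hy, Ideal.eq_top_iff_one]
    simp [Submodule.mem_colon_singleton]
  · intro x hx
    rw [hy, Submodule.mem_colon_singleton] at hx
    simpa using hx

theorem trace_idem {κ : Type} [Field κ] {d : ℕ} (M : Matrix (Fin d) (Fin d) κ) (h : M * M = M)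
    (h0 : M ≠ 0) (hd : ((d.factorial : ℕ) : κ) ≠ 0) : M.trace ≠ 0 := by
  have h1 : IsIdempotentElem (Matrix.toLin' M) := by
    change Matrix.toLin' M * Matrix.toLin' M = Matrix.toLin' M
    rw [Module.End.mul_eq_comp, ← Matrix.toLin'_mul, h]
  have h2 := (LinearMap.IsIdempotentElem.isProj_range _ h1).trace
  rw [Matrix.trace_toLin'_eq] at h2
  rw [h2]
  intro h3
  apply hd
  set r := Module.finrank κ (Matrix.toLin' M).range with hr
  have hr1 : r ≤ d := by
    have := Submodule.finrank_le (Matrix.toLin' M).range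
    simpa using this
  have hr0 : r ≠ 0 := by
    intro hr0
    rw [hr, Submodule.finrank_eq_zero, LinearMap.range_eq_bot] at hr0
    apply h0
    exact Matrix.toLin'.injective (by rw [hr0, map_zero])
  obtain ⟨k, hk⟩ := Nat.dvd_factorial (Nat.pos_of_ne_zero hr0) hr1
  rw [hk, Nat.cast_mul, h3, zero_mul]

theorem heart {κ K : Type} [Field κ] [Field K] [Algebra κ K] (R : Subalgebra κ K) (ρ : K → κ)
    (z : R) (w : K) (h : κ[X]) (c : κ) (hc : h.eval c ≠ 0) {d : ℕ}
    (hd : ((d.factorial : ℕ) : κ) ≠ 0)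
    (N : R →ₐ[κ] Matrix (Fin d) (Fin d) κ)
    (hN : ∀ y : R, N y = 0 ↔ ∃ x, y = (z - algebraMap κ R c) * x)
    (hs : z - algebraMap κ R c ≠ 0)
    (hw : ∀ y : R, ρ (y * w / (z - algebraMap κ R c : R)) = - (N y).trace)
    (hP : ∀ x : K, (∀ η : K, (∀ p ∈ R, ρ (η * p) = 0) → ρ (η * x) = 0) → x ∈ R)
    (hK : ∀ η : K, (∀ p ∈ R, ρ (η * p) = 0) → ∃ y ∈ R, aeval (z : K) ((X - C c) * h) * η = y * w)
    (M : Ideal R) [hMm : M.IsMaximal] (hM : z - algebraMap κ R c ∈ M) :
    ∃ a ∈ M, ∃ u ∉ M, ∀ m ∈ M, ∃ r, u * m = a * r := by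
  set s : R := z - algebraMap κ R c with hsdef
  have hsK : (s : K) ≠ 0 := fun h0 => hs (Subtype.ext h0)
  set I : Ideal R := RingHom.ker N with hI
  have hmemI : ∀ y, y ∈ I ↔ N y = 0 := fun y => Iff.rfl
  have hIM : I ≤ M := by
    intro y hy
    obtain ⟨x, rfl⟩ := (hN y).1 ((hmemI y).1 hy)
    exact M.mul_mem_right _ hM
  have hinj : Function.Injective (Ideal.kerLiftAlg N) := Ideal.kerLiftAlg_injective N
  have hfin : Module.Finite κ (R ⧸ I) :=
    Module.Finite.of_injective (Ideal.kerLiftAlg N).toLinearMap hinj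
  have hart : IsArtinianRing (R ⧸ I) := IsArtinianRing.of_finite κ (R ⧸ I)
  -- nilpotence
  have hnil : ∀ y : R, IsNilpotent (Ideal.Quotient.mk I y) ↔ IsNilpotent (N y) := by
    intro y
    constructor
    · rintro ⟨n, hn⟩
      refine ⟨n, ?_⟩
      rw [← map_pow, ← hmemI, ← Ideal.Quotient.eq_zero_iff_mem, map_pow, hn]
    · rintro ⟨n, hn⟩
      refine ⟨n, ?_⟩
      rw [← map_pow, Ideal.Quotient.eq_zero_iff_mem, hmemI, map_pow, hn]
  have htr0 : ∀ y : R, IsNilpotent (N y) → (N y).trace = 0 := fun y hy =>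
    (Matrix.isNilpotent_trace_of_isNilpotent hy).eq_zero
  have hidem : ∀ y : R, (∀ p : R, (N (y * p)).trace = 0) → IsNilpotent (N y) := by
    intro y hy
    by_contra hcon
    rw [← hnil] at hcon
    obtain ⟨p, hp, hp0⟩ := exists_idem _ hcon
    obtain ⟨p, rfl⟩ := Ideal.Quotient.mk_surjective p
    rw [← map_mul] at hp hp0
    rw [← map_mul] at hp
    refine trace_idem (N (y * p)) ?_ ?_ hd (hy p)
    · rw [← map_mul, ← sub_eq_zero, ← map_sub, ← hmemI, ← Ideal.Quotient.eq_zero_iff_mem,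
        map_sub, hp, sub_self]
    · intro h0
      apply hp0
      rw [Ideal.Quotient.eq_zero_iff_mem, hmemI, h0]
  -- the socle
  have hMb : (M.map (Ideal.Quotient.mk I)).IsMaximal := by
    rcases Ideal.map_eq_top_or_isMaximal_of_surjective (Ideal.Quotient.mk I)
      Ideal.Quotient.mk_surjective hMm with h1 | h1
    · exfalso
      have h2 := congrArg (Ideal.comap (Ideal.Quotient.mk I)) h1
      rw [Ideal.comap_map_of_surjective _ Ideal.Quotient.mk_surjective, Ideal.comap_top,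
        ← RingHom.ker_eq_comap_bot, Ideal.mk_ker, sup_eq_left.2 hIM] at h2
      exact hMm.ne_top h2
    · exact h1
  obtain ⟨y0, hy0, hy0M⟩ := exists_socle (M.map (Ideal.Quotient.mk I))
  obtain ⟨y0, rfl⟩ := Ideal.Quotient.mk_surjective y0
  have hy0I : N y0 ≠ 0 := by
    intro h0
    apply hy0
    rw [Ideal.Quotient.eq_zero_iff_mem, hmemI, h0]
  have hdiv : ∀ m ∈ M, ∃ r, m * y0 = s * r := by
    intro m hm
    have h1 := hy0M _ (Ideal.mem_map_of_mem _ hm)
    rw [← map_mul, Ideal.Quotient.eq_zero_iff_mem, hmemI, hN] at h1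
    exact h1
  by_cases H : ∀ m ∈ M, ∀ r : R, m * y0 = s * r → r ∈ M
  · exfalso
    have hJ : ∀ x : R, IsNilpotent (N x) → ∃ r, x * y0 = s * r ∧ IsNilpotent (N r) := by
      intro x hx
      have hxM : x ∈ M := by
        obtain ⟨n, hn⟩ := hx
        rw [← map_pow, ← hmemI] at hn
        exact hMm.isPrime.mem_of_pow_mem n (hIM hn)
      obtain ⟨r, hr⟩ := hdiv x hxM
      obtain ⟨r', hr'⟩ := hdiv r (H x hxM r hr)
      refine ⟨r, hr, ?_⟩
      have h1 : r * r = x * r' := by
        apply mul_left_cancel₀ hs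
        calc s * (r * r) = (s * r) * r := by ring
          _ = x * (r * y0) := by rw [← hr]; ring
          _ = s * (x * r') := by rw [hr']; ring
      rw [← hnil] at hx ⊢
      have h2 : IsNilpotent (Ideal.Quotient.mk I r ^ 2) := by
        rw [pow_two, ← map_mul, h1, map_mul]
        exact (Commute.all _ _).isNilpotent_mul_right hx
      obtain ⟨n, hn⟩ := h2
      exact ⟨2 * n, by rw [pow_mul, hn]⟩
    have hz : aeval (z : K) h = ((aeval z h : R) : K) := (aeval_algHom_apply R.val z h)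
    have hx0 : aeval (z : K) h * ((y0 : K) / s) ∈ R := by
      apply hP
      intro η hη
      obtain ⟨y, hy, hyw⟩ := hK η hη
      have e1 : (s : K) * aeval (z : K) h * η = y * w := by
        rw [← hyw, map_mul]
        congr 2
        rw [map_sub, aeval_X, aeval_C]
        rfl
      have hny : IsNilpotent (N ⟨y, hy⟩) := by
        apply hidem
        intro p
        have h1 := hw (⟨y, hy⟩ * p)
        have h2 : ((⟨y, hy⟩ * p : R) : K) * w / s = η * ((aeval z h * p : R) : K) := by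
          have : ((⟨y, hy⟩ * p : R) : K) = y * p := rfl
          rw [this, Subalgebra.coe_mul, ← hz]
          field_simp
          linear_combination (-(p : K)) * e1
        rw [h2, hη _ (aeval z h * p : R).2] at h1
        rw [← neg_eq_zero, ← h1]
      obtain ⟨r, hr, hrn⟩ := hJ _ hny
      have h3 := hw r
      rw [htr0 r hrn, neg_zero] at h3
      have hrK : y * (y0 : K) = s * r := congrArg Subtype.val hr
      have h4 : η * aeval (z : K) h * (y0 : K) = r * w := by
        apply mul_left_cancel₀ hsK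
        linear_combination (y0 : K) * e1 + w * hrK
      rw [← h3, ← h4]
      congr 1
      ring
    have h1 : (aeval z h : R) * y0 = s * ⟨_, hx0⟩ := by
      apply Subtype.ext
      rw [Subalgebra.coe_mul, Subalgebra.coe_mul, ← hz]
      field_simp
    have h2 : N ((aeval z h : R) * y0) = 0 := (hN _).2 ⟨_, h1⟩
    have h3 : N z = algebraMap κ _ c := by
      have h4 : N s = 0 := (hN s).2 ⟨1, by rw [mul_one]⟩
      rw [hsdef, map_sub, sub_eq_zero] at h4
      rw [h4, AlgHom.commutes]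
    rw [map_mul, ← aeval_algHom_apply, h3, aeval_algebraMap_apply, ← Algebra.smul_def,
      smul_eq_zero] at h2
    rcases h2 with h2 | h2
    · apply hc
      rw [← h2, coe_aeval_eq_eval]
    · exact hy0I h2
  · push Not at H
    obtain ⟨a, ha, u, hu, huM⟩ := H
    refine ⟨a, ha, u, huM, fun m hm => ?_⟩
    obtain ⟨r, hr⟩ := hdiv m hm
    refine ⟨r, mul_left_cancel₀ hs ?_⟩
    calc s * (u * m) = (s * u) * m := by ring
      _ = a * (m * y0) := by rw [← hu]; ring
      _ = s * (a * r) := by rw [hr]; ring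

section

variable {κ : Type} [Field κ] {g d : ℕ} {R : Subalgebra κ (LaurentSeries κ)}

/-- `z` as an element of `R`. -/
noncomputable def zR (hz : zz κ d ∈ R) : R := ⟨zz κ d, hz⟩

theorem coe_aeval (hz : zz κ d ∈ R) (p : κ[X]) :
    ((aeval (zR hz) p : R) : LaurentSeries κ) = zpol κ d p :=
  (aeval_algHom_apply R.val (zR hz) p).symm

/-- The structure of an algebra over `κ[z]`. -/
noncomputable abbrev alg (hz : zz κ d ∈ R) : Algebra κ[X] R :=
  (aeval (R := κ) (zR hz)).toRingHom.toAlgebra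

theorem exists_basis (hz : zz κ d ∈ R) {e : Fin d → LaurentSeries κ} (he : ZBas d R e) :
    let _ := alg hz
    ∃ b : Module.Basis (Fin d) κ[X] R, ∀ i, (b i : LaurentSeries κ) = e i := by
  let _ := alg hz
  have hsm : ∀ (p : κ[X]) (x : R), ((p • x : R) : LaurentSeries κ) = zpol κ d p * x := by
    intro p x
    rw [← coe_aeval hz p]
    rfl
  have hsum : ∀ c : Fin d → κ[X], ((∑ i, c i • (⟨e i, he.mem i⟩ : R) : R) : LaurentSeries κ) =
      ∑ i, zpol κ d (c i) * e i := by
    intro c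
    rw [AddSubmonoidClass.coe_finsetSum]
    exact Finset.sum_congr rfl fun i _ => hsm _ _
  refine ⟨Module.Basis.mk (v := fun i => (⟨e i, he.mem i⟩ : R)) ?_ ?_, fun i => ?_⟩
  · rw [Fintype.linearIndependent_iff]
    intro c hc
    obtain ⟨c', -, hu⟩ := he.uni 0 (zero_mem R)
    have h1 := hu c (by
      change 0 = _
      rw [← hsum, hc]
      rfl)
    have h2 := hu 0 (by simp)
    intro i
    rw [h1, ← h2]
    rfl
  · intro x _
    obtain ⟨c, hc, -⟩ := he.uni x x.2
    have h1 : x = ∑ i, c i • (⟨e i, he.mem i⟩ : R) := by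
      apply Subtype.ext
      rw [hsum]
      exact hc
    rw [h1]
    exact Submodule.sum_mem _ fun i _ => Submodule.smul_mem _ _ (Submodule.subset_span ⟨i, rfl⟩)
  · rw [Module.Basis.mk_apply]

theorem exists_N (hd : 0 < d) (hR : Kr g R) (hz : zz κ d ∈ R) {e : Fin d → LaurentSeries κ}
    (he : ZBas d R e) (c : κ) :
    ∃ N : R →ₐ[κ] Matrix (Fin d) (Fin d) κ,
      (∀ y : R, N y = 0 ↔ ∃ x, y = (zR hz - algebraMap κ R c) * x) ∧
      ∀ y : R, ∃ t : κ[X], (d : LaurentSeries κ) * pr0 κ d y = zpol κ d t ∧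
        (N y).trace = t.eval c := by
  let _ := alg hz
  obtain ⟨b, hb⟩ := exists_basis hz he
  have hst : IsScalarTower κ κ[X] R := IsScalarTower.of_algebraMap_eq (by
    intro a
    change algebraMap κ R a = aeval (zR hz) (C a)
    rw [aeval_C])
  have hX : algebraMap κ[X] R (X - C c) = zR hz - algebraMap κ R c := by
    change aeval (zR hz) (X - C c) = _
    rw [map_sub, aeval_X, aeval_C]
  let N : R →ₐ[κ] Matrix (Fin d) (Fin d) κ :=
    ((aeval c : κ[X] →ₐ[κ] κ).mapMatrix).comp ((Algebra.leftMulMatrix b).restrictScalars κ)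
  have hN : ∀ y i j, N y i j = (Algebra.leftMulMatrix b y i j).eval c := by
    intro y i j
    rw [← coe_aeval_eq_eval]
    rfl
  refine ⟨N, ?_, ?_⟩
  · intro y
    constructor
    · intro hy
      have h1 : ∀ i j, ∃ q, Algebra.leftMulMatrix b y i j = (X - C c) * q := by
        intro i j
        have h2 : (Algebra.leftMulMatrix b y i j).eval c = 0 := by
          rw [← hN, hy]
          rfl
        exact dvd_iff_isRoot.2 h2
      choose q hq using h1
      have h3 : ∀ j, y * b j = (X - C c) • ∑ i, q i j • b i := by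
        intro j
        rw [← b.sum_repr (y * b j), Finset.smul_sum]
        refine Finset.sum_congr rfl fun i _ => ?_
        rw [← Algebra.leftMulMatrix_eq_repr_mul, hq, mul_smul]
      refine ⟨∑ j, b.repr 1 j • ∑ i, q i j • b i, ?_⟩
      rw [← hX, ← Algebra.smul_def, Finset.smul_sum]
      conv_lhs => rw [← mul_one y, ← b.sum_repr 1, Finset.mul_sum]
      refine Finset.sum_congr rfl fun j _ => ?_
      rw [mul_smul_comm, h3, smul_comm]
    · rintro ⟨x, rfl⟩
      rw [← hX, map_mul]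
      have h1 : N (algebraMap κ[X] R (X - C c)) = 0 := by
        ext i j
        rw [hN, AlgHom.commutes, Matrix.algebraMap_matrix_apply]
        split_ifs <;> simp
      rw [h1, zero_mul]
  · intro y
    refine ⟨(Algebra.leftMulMatrix b y).trace, ?_, ?_⟩
    · obtain ⟨h1, -⟩ := t_ZD1 κ g d R hd hR e he y y.2
      rw [← Matrix.trace_transpose]
      apply h1
      intro i
      have h2 : y * b i = ∑ j, (Algebra.leftMulMatrix b y j i) • b j := by
        conv_lhs => rw [← b.sum_repr (y * b i)]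
        refine Finset.sum_congr rfl fun j _ => ?_
        rw [← Algebra.leftMulMatrix_eq_repr_mul]
      have h3 := congrArg (Subtype.val : R → LaurentSeries κ) h2
      rw [← hb i]
      refine h3.trans ?_
      rw [AddSubmonoidClass.coe_finsetSum]
      refine Finset.sum_congr rfl fun j _ => ?_
      rw [← hb j, Matrix.transpose_apply, ← coe_aeval hz]
      rfl
    · rw [Matrix.trace, Matrix.trace, eval_finsetSum]
      exact Finset.sum_congr rfl fun i _ => hN _ _ _

end

section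

variable {κ : Type} [Field κ] {d : ℕ}

theorem ld_zz (κ : Type) [Field κ] (d : ℕ) :
    ld (zz κ d) = zz κ d * HahnSeries.single (-1) (-(d : κ)) := by
  rw [zz, HahnSeries.single_mul_single, one_mul]
  ext m
  rw [ld_coeff, HahnSeries.coeff_single, HahnSeries.coeff_single]
  by_cases h : m + 1 = -(d : ℤ)
  · rw [if_pos h, if_pos (by omega), h]
    push_cast
    ring
  · rw [if_neg h, if_neg (by omega), mul_zero]

theorem zz_sub_ne (hd : d ≠ 0) (c : κ) :
    zz κ d - algebraMap κ (LaurentSeries κ) c ≠ 0 := by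
  have h1 : zz κ d - algebraMap κ (LaurentSeries κ) c = ZL.ev d (X - C c) := by
    rw [map_sub, ZL.ev_X, ZL.ev_C]
  rw [h1]
  intro h2
  have h3 := ZL.ev_injective d hd (h2.trans (map_zero (ZL.ev (A := κ) d)).symm)
  exact X_sub_C_ne_zero c h3

/-- The series `z / (z - c)`. -/
theorem quot_props (hd : d ≠ 0) (c : κ) :
    ∃ B : LaurentSeries κ, B * (zz κ d - algebraMap κ (LaurentSeries κ) c) = zz κ d ∧
      pr0 κ d B = B ∧ B.coeff 0 = 1 := by
  have : NeZero d := ⟨hd⟩
  set s := zz κ d - algebraMap κ (LaurentSeries κ) c with hs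
  have h1 : s = ZL.ev d (X - C c) := by
    rw [map_sub, ZL.ev_X, ZL.ev_C]
  have hs0 : s ≠ 0 := zz_sub_ne hd c
  have hz0 : zz κ d ≠ 0 := by
    have := zz_sub_ne hd (0 : κ)
    rwa [map_zero, sub_zero] at this
  have hv : ZL.pr (0 : ZMod d) (s⁻¹) = s⁻¹ := by
    apply mul_left_cancel₀ hs0
    rw [mul_inv_cancel₀ hs0, h1, ← ZL.pr_ev_mul, ← h1, mul_inv_cancel₀ hs0]
    have := ZL.pr_algebraMap (d := d) (1 : κ)
    rwa [map_one] at this
  have hB : ZL.pr (0 : ZMod d) (zz κ d * s⁻¹) = zz κ d * s⁻¹ := by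
    rw [← ZL.ev_X, ZL.pr_ev_mul, hv]
  refine ⟨zz κ d * s⁻¹, ?_, ?_, ?_⟩
  · rw [mul_assoc, inv_mul_cancel₀ hs0, mul_one]
  · rw [← ZL.pr_zero_eq, hB]
  · set a : PowerSeries κ := 1 - PowerSeries.C c * PowerSeries.X ^ d with ha
    have hca : PowerSeries.constantCoeff a = 1 := by
      rw [ha, map_sub, map_mul, map_pow, PowerSeries.constantCoeff_X, zero_pow hd, mul_zero,
        sub_zero, map_one]
    have hsa : s = zz κ d * psl κ a := by
      rw [ha, map_sub, map_one, map_mul, psl, HahnSeries.ofPowerSeries_X_pow,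
        HahnSeries.ofPowerSeries_C, mul_sub, mul_one, hs]
      congr 1
      rw [zz, mul_left_comm, HahnSeries.single_mul_single, one_mul]
      have : -(d : ℤ) + d = 0 := by omega
      rw [this]
      change _ = _ * (1 : LaurentSeries κ)
      rw [mul_one]
      rfl
    have h2 : zz κ d * s⁻¹ = psl κ a⁻¹ := by
      have h3 : psl κ a * psl κ a⁻¹ = 1 := by
        rw [← map_mul, PowerSeries.mul_inv_cancel _ (by rw [hca]; exact one_ne_zero), map_one]
      rw [← div_eq_mul_inv, div_eq_iff hs0, hsa, mul_left_comm, mul_comm (psl κ a⁻¹), h3, mul_one]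
    rw [h2]
    have h3 : ((0 : ℕ) : ℤ) = 0 := rfl
    rw [← h3, psl, HahnSeries.ofPowerSeries_apply_coeff, PowerSeries.coeff_zero_eq_constantCoeff,
      PowerSeries.constantCoeff_inv, hca, inv_one]

theorem res_formula (hd : d ≠ 0) (y : LaurentSeries κ) (t : κ[X])
    (ht : (d : LaurentSeries κ) * pr0 κ d y = zpol κ d t) (c : κ) :
    (y * ld (zz κ d) / (zz κ d - algebraMap κ (LaurentSeries κ) c)).coeff (-1) =
      - t.eval c := by
  have : NeZero d := ⟨hd⟩
  obtain ⟨B, hB, hB0, hB1⟩ := quot_props hd c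
  set s := zz κ d - algebraMap κ (LaurentSeries κ) c with hs
  have hs0 : s ≠ 0 := zz_sub_ne hd c
  have hz0 : zz κ d ≠ 0 := by
    have := zz_sub_ne hd (0 : κ)
    rwa [map_zero, sub_zero] at this
  have e1 : y * ld (zz κ d) / s = (y * B) * HahnSeries.single (-1) (-(d : κ)) := by
    rw [div_eq_iff hs0, ld_zz]
    conv_lhs => rw [← hB]
    ring
  have e2 : (-1 : ℤ) = 0 + (-1) := by ring
  rw [e1]
  nth_rewrite 2 [e2]
  rw [HahnSeries.coeff_mul_single_add]
  have e3 : (y * B).coeff 0 = (pr0 κ d y * B).coeff 0 := by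
    have h1 : pr0 κ d (y * B) = pr0 κ d y * B := by
      rw [← ZL.pr_zero_eq, mul_comm, ZL.pr_mul_of (i := (0 : ZMod d)) (by rw [ZL.pr_zero_eq, hB0]),
        sub_zero, ZL.pr_zero_eq, mul_comm]
    rw [← h1, pr0_coeff, if_pos (dvd_zero _)]
  have e4 : (d : κ) * (pr0 κ d y * B).coeff 0 = (zpol κ d t * B).coeff 0 := by
    rw [← ht, mul_assoc, ← ZL.algebraMap_mul_coeff, map_natCast]
  obtain ⟨q, hq⟩ : ∃ q, t = C (t.eval c) + (X - C c) * q := by
    refine ⟨t /ₘ (X - C c), ?_⟩
    rw [← modByMonic_X_sub_C_eq_C_eval, modByMonic_add_div]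
  have e5 : zpol κ d t * B = algebraMap κ (LaurentSeries κ) (t.eval c) * B +
      zpol κ d (q * X) := by
    have h1 : zpol κ d t = algebraMap κ (LaurentSeries κ) (t.eval c) + s * zpol κ d q := by
      conv_lhs => rw [hq]
      rw [map_add, map_mul, map_sub]
      change ZL.ev d _ + (ZL.ev d X - ZL.ev d _) * _ = _
      rw [ZL.ev_C, ZL.ev_X, ZL.ev_C]
    rw [h1, add_mul, map_mul]
    congr 1
    change _ = _ * ZL.ev d X
    rw [ZL.ev_X, ← hB]
    ring
  have e6 : (zpol κ d (q * X)).coeff 0 = 0 := by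
    have h1 := ZL.ev_coeff d hd (q * X) 0
    rw [mul_zero, Nat.cast_zero, neg_zero, mul_coeff_zero, coeff_X_zero, mul_zero] at h1
    exact h1
  rw [e3, mul_neg, mul_comm, e4, e5, HahnSeries.coeff_add, ZL.algebraMap_mul_coeff, hB1, e6,
    mul_one, add_zero]

end

section

variable {κ A : Type} [Field κ] [IsAlgClosed κ] [CommRing A] [IsDomain A] [Algebra κ A]
  [Algebra.FinitePresentation κ A]

theorem smoothAt (M : Ideal A) [hM : M.IsMaximal] (hM0 : M ≠ ⊥)
    (H : ∃ a ∈ M, ∃ u ∉ M, ∀ m ∈ M, ∃ r, u * m = a * r) : Algebra.IsSmoothAt κ M := by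
  have : Algebra.FiniteType κ A := Algebra.FiniteType.of_finitePresentation
  obtain ⟨a, ha, u, hu, hau⟩ := H
  have ha0 : a ≠ 0 := by
    rintro rfl
    apply hM0
    rw [eq_bot_iff]
    intro m hm
    obtain ⟨r, hr⟩ := hau m hm
    rw [zero_mul] at hr
    rcases mul_eq_zero.1 hr with h | h
    · exact absurd (h ▸ zero_mem M) hu
    · exact h
  let _ : Algebra κ[X] A := (aeval a : κ[X] →ₐ[κ] A).toRingHom.toAlgebra
  have hst : IsScalarTower κ κ[X] A := IsScalarTower.of_algebraMap_eq' (by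
    ext a'
    change algebraMap κ A a' = aeval a (C a')
    simp)
  have hX : algebraMap κ[X] A X = a := by
    change aeval a X = a
    simp
  have hinj : Function.Injective (algebraMap κ[X] A) := by
    rw [injective_iff_map_eq_zero]
    intro p hp
    by_contra hp0
    have halg : IsAlgebraic κ a := ⟨p, hp0, hp⟩
    obtain ⟨c, hc⟩ := Two.exists_algebraMap_eq_of_isAlgebraic a halg
    have h1 : algebraMap κ A (c - 0) ∈ M := by
      rw [sub_zero, hc]
      exact ha
    have h2 := Two.eq_of_algebraMap_sub_mem M h1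
    apply ha0
    rw [← hc, h2, map_zero]
  have h0 : algebraMap κ[X] A (X - C 0) = a := by
    rw [C_0, sub_zero, hX]
  have hgen : (Ideal.span {algebraMap κ[X] A (X - C 0)}).map
      (algebraMap A (Localization.AtPrime M)) = IsLocalRing.maximalIdeal _ := by
    rw [h0, ← Localization.AtPrime.map_eq_maximalIdeal]
    apply le_antisymm
    · apply Ideal.map_mono
      rw [Ideal.span_singleton_le_iff_mem]
      exact ha
    · rw [Ideal.map_le_iff_le_comap]
      intro m hm
      rw [Ideal.mem_comap]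
      obtain ⟨r, hr⟩ := hau m hm
      have hunit : IsUnit (algebraMap A (Localization.AtPrime M) u) :=
        IsLocalization.map_units (Localization.AtPrime M) (⟨u, hu⟩ : M.primeCompl)
      rw [← Ideal.unit_mul_mem_iff_mem _ hunit, ← map_mul, hr, map_mul]
      exact Ideal.mul_mem_right _ _ (Ideal.mem_map_of_mem _ (Ideal.mem_span_singleton_self a))
  have h1 : Algebra.IsEtaleAt κ[X] M := Two.isEtaleAt hinj M 0 (by rw [h0]; exact ha) hgen
  exact Algebra.FormallySmooth.comp κ κ[X] (Localization.AtPrime M)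

theorem smooth_of_loc (hM0 : ∀ M : Ideal A, M.IsMaximal → M ≠ ⊥)
    (H : ∀ M : Ideal A, M.IsMaximal → ∃ a ∈ M, ∃ u ∉ M, ∀ m ∈ M, ∃ r, u * m = a * r) :
    Algebra.FormallySmooth κ A := by
  rw [← Algebra.smoothLocus_eq_univ_iff, Set.eq_univ_iff_forall]
  intro p
  obtain ⟨M, hM, hpM⟩ := Ideal.exists_le_maximal p.asIdeal p.isPrime.ne_top
  have h1 : (⟨M, hM.isPrime⟩ : PrimeSpectrum A) ∈ Algebra.smoothLocus κ A :=
    smoothAt M (hM0 M hM) (H M hM)
  have h2 : p ⤳ (⟨M, hM.isPrime⟩ : PrimeSpectrum A) :=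
    (PrimeSpectrum.le_iff_specializes _ _).1 hpM
  exact h2.mem_open Algebra.isOpen_smoothLocus h1

end

section

variable {κ A : Type} [Field κ] [CommRing A] [IsDomain A] [Algebra κ[X] A]

theorem exists_sep {d : ℕ} (hd : ((d.factorial : ℕ) : κ) ≠ 0) (y : A)
    (hdeg : ∃ p : κ[X][X], p.Monic ∧ p.natDegree ≤ d ∧ aeval y p = 0) :
    ∃ p : κ[X][X], aeval y p = 0 ∧ aeval y (derivative p) ≠ 0 := by
  classical
  let Q : ℕ → Prop := fun n => ∃ p : κ[X][X], p.Monic ∧ p.natDegree = n ∧ aeval y p = 0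
  have hQ : ∃ n, Q n := by
    obtain ⟨p, h1, -, h3⟩ := hdeg
    exact ⟨_, p, h1, rfl, h3⟩
  obtain ⟨p, hp, hpn, hp0⟩ := Nat.find_spec hQ
  have hnd : Nat.find hQ ≤ d := by
    obtain ⟨p, h1, h2, h3⟩ := hdeg
    exact (Nat.find_min' hQ ⟨p, h1, rfl, h3⟩).trans h2
  set n := Nat.find hQ with hn
  have hn0 : n ≠ 0 := by
    intro h0
    have h1 := hp.natDegree_eq_zero.1 (hpn.trans h0)
    rw [h1, map_one] at hp0
    exact one_ne_zero hp0
  have hnκ : (n : κ) ≠ 0 := by
    intro h0
    obtain ⟨k, hk⟩ := Nat.dvd_factorial (Nat.pos_of_ne_zero hn0) hnd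
    apply hd
    rw [hk, Nat.cast_mul, h0, zero_mul]
  refine ⟨p, hp0, fun h0 => ?_⟩
  have hlt : (derivative p).natDegree ≤ n - 1 := by
    rw [← hpn]
    exact natDegree_derivative_le p
  have hc : (derivative p).coeff (n - 1) = C (n : κ) := by
    rw [coeff_derivative, Nat.sub_add_cancel (Nat.pos_of_ne_zero hn0), ← hpn,
      hp.coeff_natDegree, one_mul, hpn]
    have h2 : ((n - 1 : ℕ) : κ[X]) + 1 = ((n - 1 + 1 : ℕ) : κ[X]) := by push_cast; ring
    rw [h2, Nat.sub_add_cancel (Nat.pos_of_ne_zero hn0)]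
    simp
  have hq : Q (n - 1) := by
    refine ⟨C (C (n : κ)⁻¹) * derivative p, ?_, ?_, ?_⟩
    · apply monic_of_natDegree_le_of_coeff_eq_one (n - 1)
      · exact (natDegree_C_mul_le _ _).trans hlt
      · rw [coeff_C_mul, hc, ← C_mul, inv_mul_cancel₀ hnκ, C_1]
    · apply le_antisymm ((natDegree_C_mul_le _ _).trans hlt)
      apply le_natDegree_of_ne_zero
      rw [coeff_C_mul, hc, ← C_mul, inv_mul_cancel₀ hnκ, C_1]
      exact one_ne_zero
    · rw [map_mul, h0, mul_zero]
  have := Nat.find_min' hQ hq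
  omega

theorem unram_of [hfin : Module.Finite κ[X] A]
    (H : ∀ y : A, ∃ p : κ[X][X], aeval y p = 0 ∧ aeval y (derivative p) ≠ 0) :
    ∃ F : κ[X], F.Monic ∧
      ((algebraMap A (Localization.Away (algebraMap κ[X] A F))).comp
        (algebraMap κ[X] A)).FormallyUnramified := by
  classical
  obtain ⟨s, hs⟩ := hfin.1
  choose p hp0 hp1 using H
  set P : A := ∏ y ∈ s, aeval y (derivative (p y)) with hP
  have hP0 : P ≠ 0 := Finset.prod_ne_zero_iff.2 fun y _ => hp1 y
  have hint : IsIntegral κ[X] P := Algebra.IsIntegral.isIntegral P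
  have h1 : (Ideal.span {P}).comap (algebraMap κ[X] A) ≠ ⊥ :=
    Ideal.comap_ne_bot_of_integral_mem hP0 (Ideal.mem_span_singleton_self P) hint
  obtain ⟨F, hF, hF0⟩ := Submodule.exists_mem_ne_zero_of_ne_bot h1
  refine ⟨F * C F.leadingCoeff⁻¹, monic_mul_leadingCoeff_inv hF0, ?_⟩
  set G := F * C F.leadingCoeff⁻¹ with hG
  have hGP : P ∣ algebraMap κ[X] A G := by
    rw [← Ideal.mem_span_singleton]
    exact Ideal.mul_mem_right _ _ hF
  rw [← IsScalarTower.algebraMap_eq κ[X] A (Localization.Away (algebraMap κ[X] A G)),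
    RingHom.formallyUnramified_algebraMap]
  set S := Localization.Away (algebraMap κ[X] A G) with hS
  have hGu : IsUnit (algebraMap A S (algebraMap κ[X] A G)) :=
    IsLocalization.Away.algebraMap_isUnit _
  have hD : ∀ y ∈ s, KaehlerDifferential.D κ[X] S (algebraMap A S y) = 0 := by
    intro y hy
    have h2 := congrArg (KaehlerDifferential.D κ[X] S)
      ((aeval_algebraMap_apply S y (p y)).trans ((congrArg _ (hp0 y)).trans (map_zero _)))
    rw [Derivation.map_aeval, map_zero, aeval_algebraMap_apply] at h2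
    have h3 : IsUnit (algebraMap A S (aeval y (derivative (p y)))) := by
      refine isUnit_of_dvd_unit ?_ hGu
      exact map_dvd _ ((Finset.dvd_prod_of_mem _ hy).trans hGP)
    exact (h3.smul_eq_zero).1 h2
  have hD2 : ∀ a : A, KaehlerDifferential.D κ[X] S (algebraMap A S a) = 0 := by
    intro a
    have h2 : a ∈ Submodule.span κ[X] (s : Set A) := by
      rw [hs]
      trivial
    induction h2 using Submodule.span_induction with
    | mem x hx => exact hD x hx
    | zero => rw [map_zero, map_zero]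
    | add x y _ _ hx hy => rw [map_add, map_add, hx, hy, add_zero]
    | smul r x _ hx =>
      have h5 : algebraMap A S (r • x) = r • algebraMap A S x :=
        map_smul (IsScalarTower.toAlgHom κ[X] A S) r x
      rw [h5, Derivation.map_smul, hx, smul_zero]
  have hD3 : ∀ x : S, KaehlerDifferential.D κ[X] S x = 0 := by
    intro x
    obtain ⟨n, a, ha⟩ := IsLocalization.Away.surj (algebraMap κ[X] A G) x
    have h2 := congrArg (KaehlerDifferential.D κ[X] S) ha
    rw [hD2, Derivation.leibniz, ← map_pow, hD2, smul_zero, zero_add, map_pow] at h2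
    exact ((hGu.pow n).smul_eq_zero).1 h2
  rw [Algebra.formallyUnramified_iff]
  have h2 : (⊤ : Submodule S (Ω[S⁄κ[X]])) = ⊥ := by
    rw [← KaehlerDifferential.span_range_derivation, Submodule.span_eq_bot]
    rintro _ ⟨x, rfl⟩
    exact hD3 x
  exact (Submodule.subsingleton_iff S).1 (subsingleton_of_bot_eq_top h2.symm)

end

section

variable {κ : Type} [Field κ] {g d : ℕ} {R : Subalgebra κ (LaurentSeries κ)}

theorem exists_charpoly (hz : zz κ d ∈ R) {e : Fin d → LaurentSeries κ} (he : ZBas d R e)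
    (y : R) : ∃ p : κ[X][X], p.Monic ∧ p.natDegree ≤ d ∧
      eval₂ (aeval (R := κ) (zR hz)).toRingHom y p = 0 := by
  let _ := alg hz
  obtain ⟨b, -⟩ := exists_basis hz he
  refine ⟨(Algebra.leftMulMatrix b y).charpoly, Matrix.charpoly_monic _, ?_, ?_⟩
  · rw [Matrix.charpoly_natDegree_eq_dim, Fintype.card_fin]
  · have h1 : aeval y (Algebra.leftMulMatrix b y).charpoly = 0 := by
      apply Algebra.leftMulMatrix_injective b
      rw [map_zero, ← aeval_algHom_apply, Matrix.aeval_self_charpoly]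
    exact h1

/-- The two forms of the ring. -/
noncomputable def unoE (R : Subalgebra κ (LaurentSeries κ)) : uno R ≃ₐ[κ] R where
  toFun f := ⟨f.1 (), f.2⟩
  invFun f := ⟨fun _ => f.1, f.2⟩
  left_inv _ := rfl
  right_inv _ := rfl
  map_mul' _ _ := rfl
  map_add' _ _ := rfl
  commutes' _ := rfl

theorem locPrincipal [IsAlgClosed κ] (hPDP : Stmt_PDP) {f : κ[X]} (hd : 1 ≤ d)
    (hfac : ((d.factorial : ℕ) : κ) ≠ 0) (hR : Kr g R) (hz : zz κ d ∈ R) (hK : Kil d R f)
    (hf : f.Separable) [Algebra.FiniteType κ R] {e : Fin d → LaurentSeries κ} (he : ZBas d R e)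
    (M : Ideal R) (hM : M.IsMaximal) :
    M ≠ ⊥ ∧ ∃ a ∈ M, ∃ u ∉ M, ∀ m ∈ M, ∃ r, u * m = a * r := by
  obtain ⟨c, hc⟩ := Two.exists_sub_mem (k := κ) M (zR hz)
  obtain ⟨h, hhc, hKh⟩ : ∃ h : κ[X], h.eval c ≠ 0 ∧ Kil d R ((X - C c) * h) := by
    by_cases h0 : f.eval c = 0
    · obtain ⟨h, rfl⟩ := dvd_iff_isRoot.2 h0
      refine ⟨h, fun h1 => ?_, hK⟩
      obtain ⟨h', rfl⟩ := dvd_iff_isRoot.2 h1
      have h2 := hf.squarefree (X - C c) ⟨h', by ring⟩
      exact (irreducible_X_sub_C c).not_isUnit h2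
    · refine ⟨f, h0, fun x hx => ?_⟩
      obtain ⟨y, hy, hxy⟩ := hK x hx
      refine ⟨(zz κ d - algebraMap κ _ c) * y, mul_mem (sub_mem hz (R.algebraMap_mem c)) hy, ?_⟩
      rw [map_mul, mul_assoc, hxy, mul_assoc]
      congr 1
      change ZL.ev d (X - C c) = _
      rw [map_sub, ZL.ev_X, ZL.ev_C]
  have hd0 : d ≠ 0 := by omega
  obtain ⟨N, hN, hNt⟩ := exists_N (by omega) hR hz he c
  have hs : zR hz - algebraMap κ R c ≠ 0 := by
    intro h0
    exact zz_sub_ne hd0 c (congrArg Subtype.val h0)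
  refine ⟨?_, ?_⟩
  · rintro rfl
    exact hs hc
  · refine heart R (fun x => x.coeff (-1)) (zR hz) (ld (zz κ d)) h c hhc hfac N hN hs ?_ ?_ ?_ M hc
    · intro y
      obtain ⟨t, ht, htr⟩ := hNt y
      have e1 : ((zR hz - algebraMap κ R c : R) : LaurentSeries κ) =
        zz κ d - algebraMap κ (LaurentSeries κ) c := rfl
      have e2 := res_formula hd0 (y : LaurentSeries κ) t ht c
      rw [htr, e1]
      exact e2
    · intro x hx
      have hR' : IsKr g (uno R) := hR
      have h1 : (fun _ : Unit => x) ∈ uno R := by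
        apply hPDP hR'
        intro η hη
        rw [res_unit]
        apply hx (η ())
        intro p hp
        have h2 : res (η * fun _ : Unit => p) = 0 := hη (fun _ => p) hp
        rw [res_unit] at h2
        exact h2
      exact h1
    · exact hKh

end

end KIS

open _root_.Pool.Agent.MG.G0.KIS in
theorem t_KIS (hKFG : Stmt_KFG) (hSKK : Stmt_SKK) (_hSCO : Stmt_SCO) (hPDP : Stmt_PDP) :
    Stmt_KIS := by
  intro κ _ _ g d R f hd hfac hR hz hK hf
  have hdκ : (d : κ) ≠ 0 := by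
    intro h0
    obtain ⟨k, hk⟩ := Nat.dvd_factorial hd le_rfl
    apply hfac
    rw [hk, Nat.cast_mul, h0, zero_mul]
  obtain ⟨⟨_, -, e, -, he, -⟩, -, -⟩ := t_ZD2 κ g d R hd hdκ hR hz
  obtain ⟨hfp, hfg⟩ := hKFG hR
  obtain ⟨n0, hn0⟩ := KNZ.exists_dense hR
  have hfp' : Algebra.FinitePresentation κ R := Algebra.FinitePresentation.equiv (unoE R)
  have hft : Algebra.FiniteType κ R := Algebra.FiniteType.of_finitePresentation
  have hloc := locPrincipal hPDP hd hfac hR hz hK hf he
  have hsm : Algebra.FormallySmooth κ R :=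
    smooth_of_loc (fun M hM => (hloc M hM).1) (fun M hM => (hloc M hM).2)
  have hsm' : Algebra.FormallySmooth κ (uno R) :=
    Algebra.FormallySmooth.of_equiv (unoE R).symm
  refine ⟨hsm', ?_⟩
  let z : uno R := (unoE R).symm (zR hz)
  have hzm : Mon d (z : KK Unit κ) := by
    refine ⟨?_, fun i => ?_⟩
    · intro i m hm
      change (zz κ d).coeff m = 0
      rw [zz, HahnSeries.coeff_single_of_ne (by omega)]
    · change (zz κ d).coeff _ = 1
      rw [zz, HahnSeries.coeff_single_same]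
  have hdom : IsDomain (uno R) := (unoE R).toMulEquiv.isDomain R
  obtain ⟨-, -, hfin, -, -⟩ := hfg n0 d z hn0 (by exact_mod_cast hd) hzm
  let _ : Algebra κ[X] (uno R) := (aeval (R := κ) z).toRingHom.toAlgebra
  have hfin' : Module.Finite κ[X] (uno R) := hfin
  obtain ⟨F, hF, hU⟩ := unram_of (κ := κ) (A := uno R) fun y => by
    apply exists_sep hfac
    obtain ⟨p, hp1, hp2, hp3⟩ := exists_charpoly hz he (unoE R y)
    refine ⟨p, hp1, hp2, ?_⟩
    have h1 := congrArg (unoE R).symm hp3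
    rw [map_zero] at h1
    rw [← h1]
    have h2 := hom_eval₂ p (aeval (R := κ) (zR hz)).toRingHom
      ((unoE R).symm : R →+* uno R) (unoE R y)
    refine Eq.trans ?_ h2.symm
    have h3 : ((unoE R).symm : R →+* uno R).comp (aeval (R := κ) (zR hz)).toRingHom =
        (aeval (R := κ) z).toRingHom := by
      refine ringHom_ext (fun x => ?_) ?_
      · change (unoE R).symm (aeval (zR hz) (C x)) = aeval z (C x)
        rw [aeval_C, aeval_C, AlgEquiv.commutes]
      · change (unoE R).symm (aeval (zR hz) X) = aeval z X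
        rw [aeval_X, aeval_X]
    rw [h3]
    rfl
  exact t_SCR hKFG hSKK hR hsm' d z (by exact_mod_cast hd) hzm F hF hU

end Pool.Agent.MG.G0


end

section

/-!
# NEL: étale lifting
-/

namespace Pool.Agent.MG.G0

namespace NEL

variable {Λ P B C ι : Type} [CommRing Λ] [CommRing P] [CommRing B] [CommRing C] [Fintype ι]

/-- A linear lift of `ψ`. -/
theorem exists_lin (i : Λ →+* P) (φ : Λ →+* B) (e : ι → P) (ρ : B →+* C) (ψ : P →+* C)
    (hb : ∀ x : P, ∃! a : ι → Λ, x = ∑ k, i (a k) * e k) (hρ : Function.Surjective ρ)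
    (hψ : ∀ a : Λ, ψ (i a) = ρ (φ a)) : ∃ σ : P → B, (∀ x y, σ (x + y) = σ x + σ y) ∧
      (∀ a x, σ (i a * x) = φ a * σ x) ∧ ∀ x, ρ (σ x) = ψ x := by
  choose a ha hu using hb
  choose b hb using fun k => hρ (ψ (e k))
  refine ⟨fun x => ∑ k, φ (a x k) * b k, fun x y => ?_, fun l x => ?_, fun x => ?_⟩
  · have h : a x + a y = a (x + y) := by
      apply hu
      nth_rewrite 1 [ha x, ha y]
      rw [← Finset.sum_add_distrib]
      refine Finset.sum_congr rfl fun k _ => ?_
      rw [Pi.add_apply, map_add, add_mul]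
    change ∑ k, φ (a (x + y) k) * b k = ∑ k, φ (a x k) * b k + ∑ k, φ (a y k) * b k
    rw [← h, ← Finset.sum_add_distrib]
    refine Finset.sum_congr rfl fun k _ => ?_
    rw [Pi.add_apply, map_add, add_mul]
  · have h : (fun k => l * a x k) = a (i l * x) := by
      apply hu
      nth_rewrite 1 [ha x]
      rw [Finset.mul_sum]
      refine Finset.sum_congr rfl fun k _ => ?_
      rw [map_mul, mul_assoc]
    change ∑ k, φ (a (i l * x) k) * b k = φ l * ∑ k, φ (a x k) * b k
    rw [← h, Finset.mul_sum]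
    refine Finset.sum_congr rfl fun k _ => ?_
    rw [map_mul, mul_assoc]
  · rw [map_sum]
    nth_rewrite 2 [ha x]
    rw [map_sum]
    refine Finset.sum_congr rfl fun k _ => ?_
    rw [map_mul, map_mul, hψ, hb]

theorem sum_of_add (σ : P → B) (hadd : ∀ x y, σ (x + y) = σ x + σ y) {κ : Type} (s : Finset κ)
    (f : κ → P) : σ (∑ k ∈ s, f k) = ∑ k ∈ s, σ (f k) := by
  classical
  have h0 : σ 0 = 0 := by
    have := hadd 0 0
    rw [add_zero] at this
    exact left_eq_add.1 this
  induction s using Finset.induction_on with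
  | empty => simpa using h0
  | insert k s hk ih => rw [Finset.sum_insert hk, Finset.sum_insert hk, hadd, ih]

/-- The case of a kernel of square zero. -/
theorem sq (i : Λ →+* P) (φ : Λ →+* B) (e c : ι → P) (q : P) (ρ : B →+* C) (ψ : P →+* C)
    (hb : ∀ x : P, ∃! a : ι → Λ, x = ∑ k, i (a k) * e k) (hq : ∑ k, e k * c k = q)
    (hd : ∀ (x : P) (H : ι → ι → Λ), (∀ k, x * e k = ∑ l, i (H l k) * e l) →
      ∀ l, x * c l = ∑ k, i (H l k) * c k)
    (hρ : Function.Surjective ρ) (hN : ∀ x y : B, ρ x = 0 → ρ y = 0 → x * y = 0)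
    (hψ : ∀ a : Λ, ψ (i a) = ρ (φ a)) (hu : IsUnit (ψ q)) :
    ∃ Ψ : P →+* B, (∀ a, Ψ (i a) = φ a) ∧ ∀ x, ρ (Ψ x) = ψ x := by
  obtain ⟨σ, hadd, hlin, hσ⟩ := exists_lin i φ e ρ ψ hb hρ hψ
  obtain ⟨v, hv⟩ := hu.exists_right_inv
  obtain ⟨w, hw⟩ := hρ v
  obtain ⟨F, hF⟩ : ∃ F : P → P → B, ∀ x y, F x y = σ (x * y) - σ x * σ y := ⟨_, fun _ _ => rfl⟩
  have hF0 : ∀ x y, ρ (F x y) = 0 := by
    intro x y
    rw [hF, map_sub, map_mul, hσ, hσ, hσ, map_mul, sub_self]
  have hFadd : ∀ x y z, F x (y + z) = F x y + F x z := by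
    intro x y z
    rw [hF, hF, hF, mul_add, hadd, hadd]
    ring
  have hFsmul : ∀ x a y, F x (i a * y) = φ a * F x y := by
    intro x a y
    rw [hF, hF, mul_left_comm, hlin, hlin]
    ring
  have hFsymm : ∀ x y, F x y = F y x := by
    intro x y
    rw [hF, hF, mul_comm x y]
    ring
  obtain ⟨S, hS⟩ : ∃ S : P → B, ∀ x, S x = ∑ k, σ (e k) * F (c k) x := ⟨_, fun _ => rfl⟩
  have hS0 : ∀ x, ρ (S x) = 0 := by
    intro x
    rw [hS, map_sum]
    refine Finset.sum_eq_zero fun k _ => ?_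
    rw [map_mul, hF0, mul_zero]
  have hSadd : ∀ x y, S (x + y) = S x + S y := by
    intro x y
    rw [hS, hS, hS, ← Finset.sum_add_distrib]
    refine Finset.sum_congr rfl fun k _ => ?_
    rw [hFadd, mul_add]
  have hSsmul : ∀ a x, S (i a * x) = φ a * S x := by
    intro a x
    rw [hS, hS, Finset.mul_sum]
    refine Finset.sum_congr rfl fun k _ => ?_
    rw [hFsmul, mul_left_comm]
  have hsum : ∀ x y, ∑ l, σ (e l) * F (c l * x) y = σ x * S y := by
    intro x y
    choose a ha _ using hb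
    have h1 : ∀ l, x * c l = ∑ k, i (a (x * e k) l) * c k :=
      hd x (fun l k => a (x * e k) l) fun k => ha (x * e k)
    have h2 : ∀ l, F (c l * x) y = ∑ k, φ (a (x * e k) l) * F (c k) y := by
      intro l
      rw [hFsymm, mul_comm (c l) x, h1 l]
      have h3 := sum_of_add (fun z => F y z) (hFadd y) Finset.univ
        fun k => i (a (x * e k) l) * c k
      rw [h3]
      refine Finset.sum_congr rfl fun k _ => ?_
      rw [hFsmul, hFsymm y]
    have h4 : ∀ k, σ (x * e k) = ∑ l, φ (a (x * e k) l) * σ (e l) := by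
      intro k
      nth_rewrite 1 [ha (x * e k)]
      rw [sum_of_add σ hadd]
      exact Finset.sum_congr rfl fun l _ => hlin _ _
    have h5 : ∀ k, σ (x * e k) * F (c k) y = σ x * (σ (e k) * F (c k) y) := by
      intro k
      have h6 : F x (e k) * F (c k) y = 0 := hN _ _ (hF0 _ _) (hF0 _ _)
      rw [hF x (e k), sub_mul, sub_eq_zero] at h6
      rw [h6, mul_assoc]
    calc ∑ l, σ (e l) * F (c l * x) y
        = ∑ l, ∑ k, σ (e l) * (φ (a (x * e k) l) * F (c k) y) :=
          Finset.sum_congr rfl fun l _ => by rw [h2 l, Finset.mul_sum]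
      _ = ∑ k, ∑ l, σ (e l) * (φ (a (x * e k) l) * F (c k) y) := Finset.sum_comm
      _ = ∑ k, σ (x * e k) * F (c k) y := by
          refine Finset.sum_congr rfl fun k _ => ?_
          rw [h4 k, Finset.sum_mul]
          exact Finset.sum_congr rfl fun l _ => by ring
      _ = σ x * S y := by
          rw [hS, Finset.mul_sum]
          exact Finset.sum_congr rfl fun k _ => h5 k
  have hqs : ∀ x y, (∑ k, σ (e k) * σ (c k)) * F x y = σ q * F x y := by
    intro x y
    have h1 : σ q = ∑ k, σ (e k * c k) := by rw [← hq, sum_of_add σ hadd]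
    rw [h1, Finset.sum_mul, Finset.sum_mul]
    refine Finset.sum_congr rfl fun k _ => ?_
    have h2 : F (e k) (c k) * F x y = 0 := hN _ _ (hF0 _ _) (hF0 _ _)
    rw [hF (e k) (c k), sub_mul, sub_eq_zero] at h2
    exact h2.symm
  have hmain : ∀ x y, σ q * F x y - σ x * S y + S (x * y) - σ y * S x = 0 := by
    intro x y
    have h1 : ∀ k, σ (e k) * σ (c k) * F x y - σ (e k) * F (c k * x) y +
        σ (e k) * F (c k) (x * y) - σ y * (σ (e k) * F (c k) x) = 0 := by
      intro k
      rw [hF, hF, hF, hF, mul_assoc (c k) x y]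
      ring
    have h2 : ∑ k, (σ (e k) * σ (c k) * F x y - σ (e k) * F (c k * x) y +
        σ (e k) * F (c k) (x * y) - σ y * (σ (e k) * F (c k) x)) = 0 :=
      Finset.sum_eq_zero fun k _ => h1 k
    rw [Finset.sum_sub_distrib, Finset.sum_add_distrib, Finset.sum_sub_distrib, ← Finset.sum_mul,
      hqs, hsum, ← Finset.mul_sum, ← hS, ← hS] at h2
    exact h2
  have hwq : ∀ n : B, ρ n = 0 → w * σ q * n = n := by
    intro n hn
    have h1 : ρ (w * σ q - 1) = 0 := by
      rw [map_sub, map_mul, hw, hσ, map_one, mul_comm, hv, sub_self]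
    have h2 := hN _ _ h1 hn
    rw [sub_mul, one_mul, sub_eq_zero] at h2
    exact h2
  have hmul : ∀ x y, σ (x * y) + w * S (x * y) = (σ x + w * S x) * (σ y + w * S y) := by
    intro x y
    have h1 : w * S x * (w * S y) = 0 :=
      hN _ _ (by rw [map_mul, hS0, mul_zero]) (by rw [map_mul, hS0, mul_zero])
    have h2 := hwq _ (hF0 x y)
    have h3 : w * (σ q * F x y - σ x * S y + S (x * y) - σ y * S x) = 0 := by
      rw [hmain, mul_zero]
    have h4 : (σ x + w * S x) * (σ y + w * S y) = σ x * σ y + σ x * (w * S y) +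
        σ y * (w * S x) + w * S x * (w * S y) := by ring
    have h5 : w * σ q * F x y = σ x * (w * S y) - w * S (x * y) + σ y * (w * S x) := by
      linear_combination h3
    rw [h2] at h5
    rw [h4, h1, add_zero]
    rw [hF] at h5
    linear_combination h5
  have hone : σ 1 + w * S 1 = 1 := by
    have h1 := hmul 1 1
    rw [mul_one] at h1
    have h2 : ρ (σ 1 + w * S 1 - 1) = 0 := by
      rw [map_sub, map_add, map_mul, hS0, hσ, mul_zero, add_zero, map_one, map_one, sub_self]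
    have h3 := hN _ _ h2 h2
    have h4 : (σ 1 + w * S 1 - 1) * (σ 1 + w * S 1 - 1) =
      (σ 1 + w * S 1) * (σ 1 + w * S 1) - 2 * (σ 1 + w * S 1) + 1 := by ring
    rw [h4, ← h1] at h3
    linear_combination -h3
  have hzero : σ 0 + w * S 0 = 0 := by
    have h1 := hadd 0 0
    have h2 := hSadd 0 0
    rw [add_zero] at h1 h2
    rw [left_eq_add.1 h1, left_eq_add.1 h2, mul_zero, add_zero]
  refine ⟨{ toFun := fun x => σ x + w * S x, map_one' := hone, map_mul' := hmul,
            map_zero' := hzero, map_add' := fun x y => ?_ }, fun a => ?_, fun x => ?_⟩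
  · rw [hadd, hSadd]
    ring
  · change σ (i a) + w * S (i a) = φ a
    have h1 := hlin a 1
    have h2 := hSsmul a 1
    rw [mul_one] at h1 h2
    rw [h1, h2]
    have h3 : φ a * σ 1 + w * (φ a * S 1) = φ a * (σ 1 + w * S 1) := by ring
    rw [h3, hone, mul_one]
  · change ρ (σ x + w * S x) = ψ x
    rw [map_add, map_mul, hS0, mul_zero, add_zero, hσ]

theorem isUnit_lift {n : ℕ} (ρ : B →+* C) (hρ : Function.Surjective ρ)
    (hn : RingHom.ker ρ ^ n = ⊥) (b : B) (hb : IsUnit (ρ b)) : IsUnit b := by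
  obtain ⟨v, hv⟩ := hb.exists_right_inv
  obtain ⟨w, hw⟩ := hρ v
  have h1 : b * w - 1 ∈ RingHom.ker ρ := by
    rw [RingHom.mem_ker, map_sub, map_mul, hw, hv, map_one, sub_self]
  have h2 : IsNilpotent (b * w - 1) := by
    refine ⟨n, ?_⟩
    have := Ideal.pow_mem_pow h1 n
    rwa [hn, Ideal.mem_bot] at this
  have h3 : IsUnit (b * w) := by
    have := h2.isUnit_add_one
    rwa [sub_add_cancel] at this
  exact isUnit_of_mul_isUnit_left h3

theorem gen (i : Λ →+* P) (e c : ι → P) (q : P)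
    (hb : ∀ x : P, ∃! a : ι → Λ, x = ∑ k, i (a k) * e k) (hq : ∑ k, e k * c k = q)
    (hd : ∀ (x : P) (H : ι → ι → Λ), (∀ k, x * e k = ∑ l, i (H l k) * e l) →
      ∀ l, x * c l = ∑ k, i (H l k) * c k) (n : ℕ) :
    ∀ {B C : Type} [CommRing B] [CommRing C] (φ : Λ →+* B) (ρ : B →+* C) (ψ : P →+* C),
      Function.Surjective ρ → RingHom.ker ρ ^ (n + 1) = ⊥ → (∀ a : Λ, ψ (i a) = ρ (φ a)) →
      IsUnit (ψ q) → ∃ Ψ : P →+* B, (∀ a, Ψ (i a) = φ a) ∧ ∀ x, ρ (Ψ x) = ψ x := by
  induction n with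
  | zero =>
    intro B C _ _ φ ρ ψ hρ hn hψ hu
    rw [zero_add, pow_one] at hn
    refine sq i φ e c q ρ ψ hb hq hd hρ (fun x y hx _ => ?_) hψ hu
    have : x ∈ RingHom.ker ρ := hx
    rw [hn, Ideal.mem_bot] at this
    rw [this, zero_mul]
  | succ n ih =>
    intro B C _ _ φ ρ ψ hρ hn hψ hu
    obtain ⟨N, hNe⟩ : ∃ N, N = RingHom.ker ρ ^ (n + 1) := ⟨_, rfl⟩
    have hle : ∀ x ∈ N, ρ x = 0 := by
      intro x hx
      rw [hNe] at hx
      exact Ideal.pow_le_self (by omega) hx
    have hπ : Function.Surjective (Ideal.Quotient.mk N) := Ideal.Quotient.mk_surjective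
    let ρ' : B ⧸ N →+* C := Ideal.Quotient.lift N ρ hle
    have hρ'mk : ∀ x, ρ' (Ideal.Quotient.mk N x) = ρ x := fun x => Ideal.Quotient.lift_mk _ _ _
    have hρ' : Function.Surjective ρ' := by
      intro y
      obtain ⟨x, hx⟩ := hρ y
      exact ⟨Ideal.Quotient.mk N x, by rw [hρ'mk, hx]⟩
    have hker : RingHom.ker ρ' = (RingHom.ker ρ).map (Ideal.Quotient.mk N) := by
      ext y
      obtain ⟨y, rfl⟩ := hπ y
      rw [RingHom.mem_ker, hρ'mk, Ideal.mem_map_iff_of_surjective _ hπ]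
      constructor
      · intro h
        exact ⟨y, h, rfl⟩
      · rintro ⟨x, hx, hxy⟩
        rw [← hρ'mk, ← hxy, hρ'mk]
        exact hx
    have hn' : RingHom.ker ρ' ^ (n + 1) = ⊥ := by
      rw [hker, ← Ideal.map_pow, ← hNe, Ideal.map_quotient_self]
    obtain ⟨Ψ', h1, h2⟩ := ih ((Ideal.Quotient.mk N).comp φ) ρ' ψ hρ' hn' (fun a => by
      rw [hψ, RingHom.comp_apply, hρ'mk]) hu
    obtain ⟨Ψ, h3, h4⟩ := sq i φ e c q (Ideal.Quotient.mk N) Ψ' hb hq hd hπ (by
      intro x y hx hy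
      rw [Ideal.Quotient.eq_zero_iff_mem, hNe] at hx hy
      have h5 := Ideal.mul_mem_mul hx hy
      rw [← pow_add] at h5
      have h6 := Ideal.pow_le_pow_right (show n + 1 + 1 ≤ n + 1 + (n + 1) by omega) h5
      rwa [hn, Ideal.mem_bot] at h6) (fun a => by rw [h1]; rfl) (by
      apply isUnit_lift ρ' hρ' hn'
      rw [h2]
      exact hu)
    refine ⟨Ψ, h3, fun x => ?_⟩
    rw [← hρ'mk, h4, h2]

end NEL

theorem t_NEL : Stmt_NEL := by
  intro Λ P B C ι _ _ _ _ _ i φ e c q ρ ψ hb hq hd hρ hn hψ hu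
  obtain ⟨n, hn⟩ := hn
  refine NEL.gen i e c q hb hq hd n φ ρ ψ hρ ?_ hψ hu
  rw [pow_succ, hn, Ideal.bot_mul]

end Pool.Agent.MG.G0


end

section

/-!
# SMO: if all `η` with `res (η R) = 0` are Kähler differentials then the curve is smooth
(PAPER_V.md, SMO)
-/

open Polynomial

namespace Pool.Agent.MG.G0

namespace SMO

variable {κ : Type} [Field κ] {g : ℕ} {R : Subalgebra κ (LaurentSeries κ)}

/-- An element of `R` with positive order is zero. -/
theorem eq_zero_of_pos (hR : Kr g R) {x : LaurentSeries κ} (hx : x ∈ R)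
    (h : ∀ m : ℤ, m ≤ 0 → x.coeff m = 0) : x = 0 := by
  obtain ⟨h1, -⟩ := Kr_iff.1 hR
  obtain ⟨a, ha⟩ := h1 x hx fun m hm => h m (by omega)
  have h2 := h 0 le_rfl
  rw [ha] at h2
  have h3 : (algebraMap κ (LaurentSeries κ) a).coeff 0 = a := HahnSeries.coeff_single_same 0 a
  rw [h3] at h2
  rw [ha, h2, map_zero]

/-- A ring containing `R` with `c R' ⊂ R` is a Krichever ring. -/
theorem kr_over (hR : Kr g R) (R' : Subalgebra κ (LaurentSeries κ)) (h : R ≤ R')
    (c : LaurentSeries κ) (hc : c ≠ 0) (hcR : ∀ x ∈ R', c * x ∈ R) : ∃ g', Kr g' R' := by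
  have key : ∀ f ∈ R', f ∈ Po κ 0 → ∃ a : κ, f = algebraMap κ (LaurentSeries κ) a := by
    intro f hf hf0
    refine ⟨f.coeff 0, ?_⟩
    by_contra hne
    set y := f - algebraMap κ (LaurentSeries κ) (f.coeff 0) with hy
    have hy0 : y ≠ 0 := fun h0 => hne (sub_eq_zero.1 h0)
    have hyR : y ∈ R' := sub_mem hf (R'.algebraMap_mem _)
    have hyc : ∀ m : ℤ, m ≤ 0 → y.coeff m = 0 := by
      intro m hm
      rcases hm.lt_or_eq with hm | rfl
      · rw [hy, HahnSeries.coeff_sub, hf0 m (by omega)]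
        have : (algebraMap κ (LaurentSeries κ) (f.coeff 0)).coeff m = 0 :=
          HahnSeries.coeff_single_of_ne (ne_of_lt hm)
        rw [this, sub_zero]
      · have : (algebraMap κ (LaurentSeries κ) (f.coeff 0)).coeff 0 = f.coeff 0 :=
          HahnSeries.coeff_single_same 0 _
        rw [hy, HahnSeries.coeff_sub, this, sub_self]
    have hord : 1 ≤ y.order := by
      by_contra hcon
      exact hy0 (HahnSeries.coeff_order_eq_zero.1 (hyc _ (by omega)))
    obtain ⟨k, hk⟩ : ∃ k : ℕ, 0 < c.order + k * y.order := by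
      refine ⟨(1 - c.order).toNat, ?_⟩
      have h1 : 1 - c.order ≤ ((1 - c.order).toNat : ℤ) := Int.self_le_toNat _
      nlinarith
    have hz : c * y ^ k ≠ 0 := mul_ne_zero hc (pow_ne_zero _ hy0)
    refine hz (eq_zero_of_pos hR (hcR _ (pow_mem hyR k)) fun m hm => ?_)
    apply HahnSeries.coeff_eq_zero_of_lt_order
    rw [HahnSeries.order_mul hc (pow_ne_zero _ hy0), HahnSeries.order_pow, nsmul_eq_mul]
    exact lt_of_le_of_lt hm hk
  obtain ⟨-, L, hL1, hL2⟩ := Kr_iff.1 hR
  set W : Submodule κ (LaurentSeries κ) := Subalgebra.toSubmodule R' ⊔ Po κ 0 with hW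
  have hker : LinearMap.ker L ≤ W := by
    intro f hf
    obtain ⟨p, hp, hq⟩ := (hL2 f).1 hf
    have h1 : f = p + (f - p) := by ring
    rw [h1]
    exact add_mem (Submodule.mem_sup_left (h hp)) (Submodule.mem_sup_right hq)
  have hfin0 : Module.Finite κ (LaurentSeries κ ⧸ LinearMap.ker L) :=
    Module.Finite.equiv (L.quotKerEquivOfSurjective hL1).symm
  have hfin : Module.Finite κ (LaurentSeries κ ⧸ W) :=
    Module.Finite.of_surjective (Submodule.factor hker) (Submodule.factor_surjective hker)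
  refine ⟨Module.finrank κ (LaurentSeries κ ⧸ W), Kr_iff.2 ⟨key,
    ((Module.finBasis κ (LaurentSeries κ ⧸ W)).equivFun : _ →ₗ[κ] _) ∘ₗ W.mkQ, ?_, ?_⟩⟩
  · rw [LinearMap.coe_comp]
    exact (LinearEquiv.surjective _).comp (Submodule.mkQ_surjective _)
  · intro f
    rw [LinearMap.comp_apply, LinearEquiv.coe_coe, LinearEquiv.map_eq_zero_iff,
      Submodule.mkQ_apply, Submodule.Quotient.mk_eq_zero, hW, Submodule.mem_sup]
    constructor
    · rintro ⟨p, hp, q, hq, rfl⟩
      exact ⟨p, hp, by rwa [add_sub_cancel_left]⟩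
    · rintro ⟨p, hp, hq⟩
      exact ⟨p, hp, f - p, hq, by ring⟩

/-- `R` is completely integrally closed in `κ((τ))`. -/
theorem mem_of_alm (hPDP : Stmt_PDP) (hRES : Stmt_RES) (hR : Kr g R)
    (hPO : Perp (uno R) ≤ Om (uno R)) (x c : LaurentSeries κ) (hc0 : c ≠ 0)
    (hc : ∀ k : ℕ, c * x ^ k ∈ R) : x ∈ R := by
  set R' : Subalgebra κ (LaurentSeries κ) :=
    ((aeval x : R[X] →ₐ[R] LaurentSeries κ).range).restrictScalars κ with hR'
  have hmem : ∀ y, y ∈ R' ↔ ∃ q : R[X], aeval x q = y := fun y => Iff.rfl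
  have hRR' : R ≤ R' := by
    intro y hy
    rw [hmem]
    exact ⟨C ⟨y, hy⟩, aeval_C _ _⟩
  have hxR' : x ∈ R' := by
    rw [hmem]
    exact ⟨X, aeval_X _⟩
  have hcR : ∀ y ∈ R', c * y ∈ R := by
    intro y hy
    obtain ⟨q, rfl⟩ := (hmem y).1 hy
    induction q using Polynomial.induction_on' with
    | add p q hp hq =>
      rw [map_add, mul_add]
      exact add_mem (hp ((hmem _).2 ⟨p, rfl⟩)) (hq ((hmem _).2 ⟨q, rfl⟩))
    | monomial n a =>
      rw [aeval_monomial, mul_left_comm]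
      exact mul_mem a.2 (hc n)
  obtain ⟨g', hg'⟩ := kr_over hR R' hRR' c hc0 hcR
  have h1 : (fun _ : Unit => x) ∈ uno R := by
    apply hPDP (show IsKr g (uno R) from hR)
    intro η hη
    have h2 : η ∈ Om (uno R) := hPO hη
    clear hη
    induction h2 using Submodule.span_induction with
    | mem η hη =>
      obtain ⟨p, hp, f, hf, rfl⟩ := hη
      have e : p * dd f * (fun _ : Unit => x) = (p * fun _ : Unit => x) * dd f := by ring
      rw [e]
      refine hRES (show IsKr g' (uno R') from hg') _ ?_ _ ?_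
      · exact mul_mem (S := Subalgebra κ (LaurentSeries κ)) (hRR' hp) hxR'
      · exact hRR' hf
    | zero => rw [zero_mul, map_zero]
    | add a b _ _ ha hb => rw [add_mul, map_add, ha, hb, add_zero]
    | smul r a _ ha => rw [smul_mul_assoc, map_smul, ha, smul_zero]
  exact h1

theorem intClosed (hPDP : Stmt_PDP) (hRES : Stmt_RES) (hR : Kr g R)
    (hPO : Perp (uno R) ≤ Om (uno R)) : IsIntegrallyClosed R := by
  rw [isIntegrallyClosed_iff (FractionRing R)]
  intro x hx
  have hinj : Function.Injective (algebraMap R (LaurentSeries κ)) := Subtype.val_injective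
  let φ : FractionRing R →+* LaurentSeries κ := IsFractionRing.lift hinj
  have hφ : ∀ r : R, φ (algebraMap R (FractionRing R) r) = r := fun r =>
    IsFractionRing.lift_algebraMap hinj r
  obtain ⟨c, hc, hcx⟩ := hx.isAlmostIntegral
  have h1 : φ x ∈ R := by
    refine mem_of_alm hPDP hRES hR hPO (φ x) (c : LaurentSeries κ) ?_ fun k => ?_
    · intro h0
      exact nonZeroDivisors.ne_zero hc (Subtype.ext h0)
    · obtain ⟨r, hr⟩ := hcx k
      have h2 := congrArg φ hr
      rw [hφ, Algebra.smul_def, map_mul, hφ, map_pow] at h2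
      rw [← h2]
      exact r.2
  refine ⟨⟨φ x, h1⟩, φ.injective ?_⟩
  rw [hφ]

theorem dimLE {A : Type} [CommRing A] [IsDomain A] [Algebra κ[X] A] [Module.Finite κ[X] A] :
    Ring.DimensionLEOne A := by
  refine ⟨fun {p} hp0 hp => ?_⟩
  obtain ⟨x, hx, hx0⟩ := Submodule.exists_mem_ne_zero_of_ne_bot hp0
  have h1 : p.comap (algebraMap κ[X] A) ≠ ⊥ :=
    Ideal.comap_ne_bot_of_integral_mem hx0 hx (Algebra.IsIntegral.isIntegral x)
  have h2 : (p.comap (algebraMap κ[X] A)).IsMaximal :=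
    IsPrime.to_maximal_ideal h1
  exact Ideal.isMaximal_of_isIntegral_of_isMaximal_comap p h2

theorem loc {A : Type} [CommRing A] [IsDedekindDomain A] (M : Ideal A) [hM : M.IsMaximal]
    (hM0 : M ≠ ⊥) : ∃ a ∈ M, ∃ u ∉ M, ∀ m ∈ M, ∃ r, u * m = a * r := by
  obtain ⟨a, ha, ha2⟩ := Ideal.exists_mem_pow_notMem_pow_succ M hM0 hM.ne_top 1
  rw [pow_one] at ha
  obtain ⟨J, hJ⟩ := Ideal.dvd_span_singleton.2 ha
  have hJM : ¬ J ≤ M := by
    intro h1
    apply ha2
    have h2 : a ∈ M * J := hJ ▸ Ideal.mem_span_singleton_self a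
    rw [pow_succ, pow_one]
    exact Ideal.mul_mono_right h1 h2
  obtain ⟨u, hu, huM⟩ := SetLike.not_le_iff_exists.1 hJM
  refine ⟨a, ha, u, huM, fun m hm => ?_⟩
  have h3 : m * u ∈ M * J := Ideal.mul_mem_mul hm hu
  rw [← hJ, Ideal.mem_span_singleton'] at h3
  obtain ⟨r, hr⟩ := h3
  exact ⟨r, by rw [mul_comm u, ← hr, mul_comm]⟩

end SMO

open KIS in
theorem t_SMO (hKFG : Stmt_KFG) (hPDP : Stmt_PDP) (hRES : Stmt_RES) (_hSTO : Stmt_STO)
    (hSCR : Stmt_SCR) : Stmt_SMO := by
  intro κ _ _ _ g d R hd hR hz hPO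
  have hfac : ((d.factorial : ℕ) : κ) ≠ 0 := Nat.cast_ne_zero.2 (Nat.factorial_ne_zero d)
  have hdκ : (d : κ) ≠ 0 := Nat.cast_ne_zero.2 (by omega)
  obtain ⟨⟨_, -, e, -, he, -⟩, -, -⟩ := t_ZD2 κ g d R hd hdκ hR hz
  obtain ⟨hfp, hfg⟩ := hKFG hR
  obtain ⟨n0, hn0⟩ := KNZ.exists_dense hR
  have hfp' : Algebra.FinitePresentation κ R := Algebra.FinitePresentation.equiv (unoE R)
  have hft : Algebra.FiniteType κ R := Algebra.FiniteType.of_finitePresentation
  have hic : IsIntegrallyClosed R := SMO.intClosed hPDP hRES hR hPO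
  have hno : IsNoetherianRing R := Algebra.FiniteType.isNoetherianRing κ R
  let z : uno R := (unoE R).symm (zR hz)
  have hzm : Mon d (z : KK Unit κ) := by
    refine ⟨?_, fun i => ?_⟩
    · intro i m hm
      change (zz κ d).coeff m = 0
      rw [zz, HahnSeries.coeff_single_of_ne (by omega)]
    · change (zz κ d).coeff _ = 1
      rw [zz, HahnSeries.coeff_single_same]
  have hdom : IsDomain (uno R) := (unoE R).toMulEquiv.isDomain R
  obtain ⟨-, -, hfin, -, -⟩ := hfg n0 d z hn0 (by exact_mod_cast hd) hzm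
  have hdim : Ring.DimensionLEOne R := by
    let _ := alg hz
    have : Module.Finite κ[X] R := by
      obtain ⟨b, -⟩ := exists_basis hz he
      exact Module.Finite.of_basis b
    exact SMO.dimLE (κ := κ)
  have hded : IsDedekindDomain R := { }
  have hM0 : ∀ M : Ideal R, M.IsMaximal → M ≠ ⊥ := by
    intro M hM
    obtain ⟨c, hc⟩ := Two.exists_sub_mem (k := κ) M (zR hz)
    rintro rfl
    exact zz_sub_ne (by omega) c (congrArg Subtype.val hc)
  have hsm : Algebra.FormallySmooth κ R :=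
    smooth_of_loc hM0 (fun M hM => SMO.loc M (hM0 M hM))
  have hsm' : Algebra.FormallySmooth κ (uno R) :=
    Algebra.FormallySmooth.of_equiv (unoE R).symm
  refine ⟨hsm', ?_⟩
  let _ : Algebra κ[X] (uno R) := (aeval (R := κ) z).toRingHom.toAlgebra
  have hfin' : Module.Finite κ[X] (uno R) := hfin
  obtain ⟨F, hF, hU⟩ := unram_of (κ := κ) (A := uno R) fun y => by
    apply exists_sep hfac
    obtain ⟨p, hp1, hp2, hp3⟩ := exists_charpoly hz he (unoE R y)
    refine ⟨p, hp1, hp2, ?_⟩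
    have h1 := congrArg (unoE R).symm hp3
    rw [map_zero] at h1
    rw [← h1]
    have h2 := hom_eval₂ p (aeval (R := κ) (zR hz)).toRingHom
      ((unoE R).symm : R →+* uno R) (unoE R y)
    refine Eq.trans ?_ h2.symm
    have h3 : ((unoE R).symm : R →+* uno R).comp (aeval (R := κ) (zR hz)).toRingHom =
        (aeval (R := κ) z).toRingHom := by
      refine ringHom_ext (fun x => ?_) ?_
      · change (unoE R).symm (aeval (zR hz) (C x)) = aeval z (C x)
        rw [aeval_C, aeval_C, AlgEquiv.commutes]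
      · change (unoE R).symm (aeval (zR hz) X) = aeval z X
        rw [aeval_X, aeval_X]
    rw [h3]
    rfl
  exact hSCR hR hsm' d z (by exact_mod_cast hd) hzm F hF hU

end Pool.Agent.MG.G0


end
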