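import Mathlib
import Pool.Agent.KDM.C08
import Pool.Agent.KDM.C11
import Pool.Agent.KDM.C12
import Pool.Agent.KDM.C14
import Pool.Agent.KDM.C15
import Pool.Agent.KDM.C18
import Pool.Agent.KDM.C20
import Pool.Agent.KDM.C21
import Pool.Agent.KDM.C25
import Pool.Agent.KDM.C26
import Pool.Agent.KDM.C28
import Pool.Agent.KDM.C29
import Pool.Agent.KDM.C37
import Pool.Agent.KDM.C40
import Pool.Agent.KDM.C41
import Pool.Agent.KDM.C54

/-! Parts: MG.WL.NCB, MG.WL.NCE, MG.H2.YBC, MG.H2.YDA, MG.H2.YST, MG.G0.BCO, MG.G0.BPD, MG.G0.CYC, MG.G0.GSC, MG.G0.USC, MG.G0.ZRT, MG.G0.ZRV, MG.G0.ZBR, MG.G0.FinB, MG.G0.USN, MG.G0.ZPM -/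

section

/-!
# Module NCB: base change of nice covers
-/

open CategoryTheory CategoryTheory.Limits AlgebraicGeometry TensorProduct

namespace Pool.Agent.MG.WL

open Pool.Agent.MG.W Pool.Agent.MG.One Pool.Agent.MG.GLU

namespace NCBm

/-- Base change of finite ring maps, in elements. -/
theorem finite_of {A B R R' S S' : Type} [CommRing A] [CommRing B] [CommRing R] [CommRing R']
    [CommRing S] [CommRing S'] (c : A →+* R) (φ : A →+* B) (c' : B →+* R') (f : R →+* R')
    (hf : ∀ a, f (c a) = c' (φ a))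
    (hR' : ∀ M : AddSubgroup R', (∀ b r, c' b * f r ∈ M) → ∀ x, x ∈ M)
    (q : R →+* S) (q' : R' →+* S') (hq' : Function.Surjective q')
    (g : S →+* S') (hg : ∀ r, g (q r) = q' (f r)) (h : (q.comp c).Finite) :
    (q'.comp c').Finite := by
  let _ := (q.comp c).toAlgebra
  let _ := (q'.comp c').toAlgebra
  have h1 : Module.Finite A S := h
  obtain ⟨s, hs⟩ := h1.fg_top
  have key : ∀ x : S, g x ∈ Submodule.span B (g '' (s : Set S)) := by
    intro x
    have hx : x ∈ Submodule.span A (s : Set S) := by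
      rw [hs]
      exact Submodule.mem_top
    induction hx using Submodule.span_induction with
    | mem x hx => exact Submodule.subset_span ⟨x, hx, rfl⟩
    | zero =>
      rw [map_zero]
      exact Submodule.zero_mem _
    | add x y _ _ hx hy =>
      rw [map_add]
      exact Submodule.add_mem _ hx hy
    | smul a x _ hx =>
      have e1 : a • x = q (c a) * x := rfl
      have e2 : g (a • x) = φ a • g x := by
        rw [e1, map_mul, hg, hf]
        rfl
      rw [e2]
      exact Submodule.smul_mem _ _ hx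
  have h2 : Module.Finite B S' := by
    classical
    refine ⟨⟨s.image g, ?_⟩⟩
    rw [eq_top_iff]
    rintro x -
    rw [Finset.coe_image]
    obtain ⟨z, rfl⟩ := hq' x
    refine hR' ((Submodule.span B (g '' (s : Set S))).toAddSubgroup.comap q'.toAddMonoidHom)
      ?_ z
    intro b r
    change q' (c' b * f r) ∈ Submodule.span B (g '' (s : Set S))
    have e : q' (c' b * f r) = b • g (q r) := by
      rw [map_mul, hg]
      rfl
    rw [e]
    exact Submodule.smul_mem _ _ (key _)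
  exact h2

variable {n : ℕ} {A B : Type} [CommRing A] [CommRing B] {φ : A →+* B}
  {C : Fam n A} {y : Fam n B}

theorem finite_pre (a : Arrow φ y C) {V : C.X.Opens} (hV : IsAffineOpen V) (β : Γ(C.X, V))
    (h : ((Ideal.Quotient.mk (Ideal.span {β})).comp (coef C.π V)).Finite) :
    ((Ideal.Quotient.mk (Ideal.span {(a.f.appLE V (a.f ⁻¹ᵁ V) le_rfl).hom β})).comp
      (coef y.π (a.f ⁻¹ᵁ V))).Finite := by
  have ht := tp_affine a hV
  let _ := φ.toAlgebra
  let _ := (coef C.π V).toAlgebra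
  obtain ⟨e, he⟩ := ht
  have hf : ∀ x, (a.f.appLE V (a.f ⁻¹ᵁ V) le_rfl).hom (coef C.π V x) =
      coef y.π (a.f ⁻¹ᵁ V) (φ x) := by
    intro x
    have h1 := he 1 (coef C.π V x)
    have h2 := he (φ x) 1
    rw [map_one, one_mul] at h1
    rw [map_one, mul_one] at h2
    rw [← h1, ← h2]
    congr 1
    have e1 : (coef C.π V x : Γ(C.X, V)) = x • (1 : Γ(C.X, V)) := by
      rw [Algebra.smul_def, mul_one]
      rfl
    have e2 : (φ x : B) = x • (1 : B) := by
      rw [Algebra.smul_def, mul_one]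
      rfl
    rw [e1, e2, TensorProduct.tmul_smul, TensorProduct.smul_tmul']
  refine finite_of (coef C.π V) φ (coef y.π (a.f ⁻¹ᵁ V))
    (a.f.appLE V (a.f ⁻¹ᵁ V) le_rfl).hom hf ?_ (Ideal.Quotient.mk (Ideal.span {β})) _
    Ideal.Quotient.mk_surjective (Ideal.quotientMap _
      (a.f.appLE V (a.f ⁻¹ᵁ V) le_rfl).hom ?_) ?_ h
  · intro M hM x
    obtain ⟨z, rfl⟩ := e.surjective x
    induction z using TensorProduct.induction_on with
    | zero =>
      rw [map_zero]
      exact M.zero_mem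
    | tmul b r =>
      rw [he]
      exact hM b r
    | add u w hu hw =>
      rw [map_add]
      exact M.add_mem hu hw
  · rw [Ideal.span_le, Set.singleton_subset_iff]
    exact Ideal.subset_span rfl
  · intro r
    exact Ideal.quotientMap_mk

theorem pre_mono (f : y.X ⟶ C.X) {U V : C.X.Opens} (h : U ≤ V) : f ⁻¹ᵁ U ≤ f ⁻¹ᵁ V :=
  fun _ hz => h hz

end NCBm

open _root_.Pool.Agent.MG.WL.NCBm in
theorem t_NCB : Stmt_NCB := by
  intro A B _ _ φ C y a L L' hL N
  have hU := hL.U
  have hV := hL.V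
  let N' : NC L' :=
    { W := a.f ⁻¹ᵁ N.W
      aW := pre_affine a N.aW
      leW := by
        rw [hU]
        exact pre_mono a.f N.leW
      ι := N.ι
      V := fun i => a.f ⁻¹ᵁ N.V i
      aV := fun i => pre_affine a (N.aV i)
      β := fun i => (a.f.appLE (N.V i) (a.f ⁻¹ᵁ N.V i) le_rfl).hom (N.β i)
      bas := fun i => by
        have h1 : a.f ⁻¹ᵁ (C.X.basicOpen (N.β i)) =
            y.X.basicOpen ((a.f.app (N.V i)).hom (N.β i)) := Scheme.preimage_basicOpen a.f _
        have h2 : (a.f.appLE (N.V i) (a.f ⁻¹ᵁ N.V i) le_rfl).hom (N.β i) =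
            (a.f.app (N.V i)).hom (N.β i) := by
          rw [Scheme.Hom.appLE_eq_app]
        rw [h2, ← h1, N.bas i]
        rfl
      dis := fun i j hij => pre_mono a.f (N.dis i j hij)
      cov := fun z => N.cov (a.f z)
      finite := fun i => finite_pre a (N.aV i) (N.β i) (N.finite i)
      i₀ := N.i₀
      le₀ := by
        rw [hV]
        exact pre_mono a.f N.le₀
      sec := by
        have h1 : (y.σ 0) ⁻¹ᵁ (a.f ⁻¹ᵁ N.V N.i₀) = (y.σ 0 ≫ a.f) ⁻¹ᵁ N.V N.i₀ := rfl
        rw [h1, a.sec 0]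
        intro z _
        exact N.sec (Set.mem_univ (spMap φ z))
      ne := fun i hi => by
        rw [hU]
        exact pre_mono a.f (N.ne i hi) }
  exact ⟨N', Equiv.refl _, rfl, fun _ => rfl, rfl⟩

end Pool.Agent.MG.WL


end

section

/-!
# NCE: nice covers exist over a flat local extension of the local ring of a point
-/

open CategoryTheory CategoryTheory.Limits AlgebraicGeometry TensorProduct

namespace Pool.Agent.MG.WL

open Pool.Agent.MG.W Pool.Agent.MG.One Pool.Agent.MG.GLU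

namespace NCEx

/-- Base changes of local coordinates compose. -/
theorem bc_comp {A B D : Type} [CommRing A] [CommRing B] [CommRing D] {φ : A →+* B}
    {ψ : B →+* D} {C : Fam 1 A} {y : Fam 1 B} {z : Fam 1 D} {L : LC C} {L' : LC y} {L'' : LC z}
    {a : Arrow φ y C} {b : Arrow ψ z y} (h : L.Bc a L') (h' : L'.Bc b L'') :
    L.Bc (PBS.comp b a) L'' := by
  have hU : L''.U = (PBS.comp b a).f ⁻¹ᵁ L.U := by
    rw [h'.U, h.U]; rfl
  have hV : L''.V = (PBS.comp b a).f ⁻¹ᵁ L.V := by
    rw [h'.V, h.V]; rfl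
  refine ⟨hU, hV, ?_⟩
  rw [h'.t, h.t]
  have e := Scheme.Hom.appLE_comp_appLE b.f a.f L.V L'.V L''.V h.V.le h'.V.le
  exact ConcreteCategory.congr_hom e L.t

/-- The induction. -/
theorem step (hSPL : Stmt_SPL) (hGNC : Stmt_GNC) {A : Type} [CommRing A] {C : Fam 1 A}
    (hC : IsStable 1 C) (L : LC C) (p : PrimeSpectrum A) (n : ℕ) :
    ∀ (B : Type) [CommRing B] [IsLocalRing B] (φ : A →+* B) (y : Fam 1 B) (a : Arrow φ y C)
      (L' : LC y), φ.Flat → Ideal.comap φ (IsLocalRing.maximalIdeal B) = p.asIdeal →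
      L.Bc a L' → ∀ P : PNC L', Nat.card {i : P.ι // ¬ P.Good i} ≤ n →
      ∃ (B : Type) (_ : CommRing B) (_ : IsLocalRing B) (φ : A →+* B)
      (y : Fam 1 B) (a : Arrow φ y C) (L' : LC y), φ.Flat ∧
        Ideal.comap φ (IsLocalRing.maximalIdeal B) = p.asIdeal ∧ L.Bc a L' ∧
          Nonempty (NC L') := by
  induction n with
  | zero =>
    intro B _ _ φ y a L' hf hp hb P hn
    have hst := arrow_stable a hC
    have hg : ∀ i, P.Good i := by
      intro i
      by_contra hi
      have h0 : Nat.card {i : P.ι // ¬ P.Good i} = 0 := by omega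
      rw [Nat.card_eq_zero] at h0
      rcases h0 with h0 | h0
      · exact h0.elim ⟨i, hi⟩
      · exact not_finite {i : P.ι // ¬ P.Good i}
    exact ⟨B, inferInstance, inferInstance, φ, y, a, L', hf, hp, hb, hGNC B y hst L' P hg⟩
  | succ n ih =>
    intro B _ _ φ y a L' hf hp hb P hn
    have hst := arrow_stable a hC
    by_cases hg : ∀ i, P.Good i
    · exact ⟨B, inferInstance, inferInstance, φ, y, a, L', hf, hp, hb, hGNC B y hst L' P hg⟩
    · push Not at hg
      obtain ⟨i, hi⟩ := hg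
      obtain ⟨B', hc, hl, ψ, hψ, y', a', L'', P', e, hflat, hb', hgi, hgj⟩ :=
        hSPL B y hst L' P i
      refine ih B' (ψ.comp φ) y' (PBS.comp a' a) L'' (hf.comp hflat) ?_ (bc_comp hb hb') P' ?_
      · rw [← Ideal.comap_comap, ← hp]
        congr 1
        exact ((IsLocalRing.local_hom_TFAE ψ).out 0 4).1 hψ
      · have hlt : Nat.card {j : P'.ι // ¬ P'.Good j} < Nat.card {j : P.ι // ¬ P.Good j} := by
          classical
          let f : {j : P'.ι // ¬ P'.Good j} → {j : P.ι // ¬ P.Good j} := fun j =>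
            ⟨e.symm j.1, fun h => j.2 (by have := hgj _ h; rwa [Equiv.apply_symm_apply] at this)⟩
          have hinj : Function.Injective f := by
            intro j j' hjj
            have := congrArg Subtype.val hjj
            exact Subtype.ext (e.symm.injective this)
          have hnot : ¬ Function.Surjective f := by
            intro hs
            obtain ⟨j, hj⟩ := hs ⟨i, hi⟩
            have h1 : e.symm j.1 = i := congrArg Subtype.val hj
            have h2 : j.1 = e i := by rw [← h1, Equiv.apply_symm_apply]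
            exact j.2 (h2 ▸ hgi)
          haveI : Finite {j : P.ι // ¬ P.Good j} := inferInstance
          haveI : Fintype {j : P.ι // ¬ P.Good j} := Fintype.ofFinite _
          haveI : Fintype {j : P'.ι // ¬ P'.Good j} := Fintype.ofFinite _
          rw [Nat.card_eq_fintype_card, Nat.card_eq_fintype_card]
          exact Fintype.card_lt_of_injective_not_surjective f hinj hnot
        omega

end NCEx

theorem t_NCE (hLCB : Stmt_LCB) (hPNE : Stmt_PNE) (hSPL : Stmt_SPL) (hGNC : Stmt_GNC) :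
    Stmt_NCE := by
  intro A _ _ C hC L p
  let B := Localization.AtPrime p.asIdeal
  let φ : A →+* B := algebraMap A B
  let _ : Algebra ℂ B := (φ.comp (algebraMap ℂ A)).toAlgebra
  let y := PBS.bc φ C
  let a : Arrow φ y C := PBS.bcArrow φ C
  obtain ⟨L', hL'⟩ := hLCB a L
  have hst : IsStable 1 y := arrow_stable a hC
  obtain ⟨P⟩ := hPNE B y hst L'
  have hflat : φ.Flat := by
    rw [RingHom.flat_algebraMap_iff]
    exact IsLocalization.flat B p.asIdeal.primeCompl
  have hcomap : Ideal.comap φ (IsLocalRing.maximalIdeal B) = p.asIdeal :=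
    Localization.AtPrime.comap_maximalIdeal
  exact NCEx.step hSPL hGNC hC L p _ B φ y a L' hflat hcomap hL' P le_rfl

end Pool.Agent.MG.WL


end

section

/-!
# YBC: the base change square of the family `YX B p t` (helper98)
-/

open CategoryTheory CategoryTheory.Limits AlgebraicGeometry TensorProduct

namespace Pool.Agent.MG.H2

namespace YBC

variable {B B' : Type} [CommRing B] [CommRing B'] (φ : B →+* B') {p : Fin 7 → B} {t : B}
    {p' : Fin 7 → B'} {t' : B'} (hp : ∀ i, p' i = φ (p i)) (ht : t' = φ t)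

/-- The square of the chart `N`. -/
theorem sqN : IsPullback (spMap (bcN φ hp ht)) (spMap (algebraMap B' (NN B' p' t')))
    (spMap (algebraMap B (NN B p t))) (spMap φ) := by
  apply spec_isPullback
  · exact RingHom.ext fun c => bcN_c φ hp ht c
  · intro T _ F G h
    have hc : ∀ c, F (algebraMap B _ c) = G (φ c) := fun c => congrArg (fun H => H c) h
    have hr := (relN B p t).map F
    have h1 : (fun i => F (algebraMap B (NN B p t) (p i))) = fun i => G (p' i) := by
      funext i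
      rw [hc, hp]
    have h2 : F (algebraMap B (NN B p t) t) = G t' := by rw [hc, ht]
    rw [h1, h2] at hr
    refine ⟨liftN G (F (zN B p t)) (F (xN B p t)) (F (aN B p t)) (F (bN B p t)) hr, ?_, ?_⟩
    · refine homN_ext ?_ ?_ ?_ ?_ ?_
      · intro c
        rw [RingHom.comp_apply, bcN_c, liftN_c, hc]
      · rw [RingHom.comp_apply, bcN_z, liftN_z]
      · rw [RingHom.comp_apply, bcN_x, liftN_x]
      · rw [RingHom.comp_apply, bcN_a, liftN_a]
      · rw [RingHom.comp_apply, bcN_b, liftN_b]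
    · refine RingHom.ext fun c => ?_
      rw [RingHom.comp_apply, liftN_c]
  · intro T _ k k' h1 h2
    refine homN_ext ?_ ?_ ?_ ?_ ?_
    · exact fun c => congrArg (fun F => F c) h2
    · have := congrArg (fun F => F (zN B p t)) h1
      simpa using this
    · have := congrArg (fun F => F (xN B p t)) h1
      simpa using this
    · have := congrArg (fun F => F (aN B p t)) h1
      simpa using this
    · have := congrArg (fun F => F (bN B p t)) h1
      simpa using this

/-- The base change of `N ∪ T`. -/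
noncomputable def mNT : YNT B' p' t' ⟶ YNT B p t :=
  YNT.desc (spMap (bcN φ hp ht) ≫ YNT.inN B p t)
    (spMap (bc1 φ (pT_bc φ hp ht)) ≫ YNT.inT B p t) (by
      have h1 : (nT B' p' t').comp (bcN φ hp ht) = (bc12 φ (pT_bc φ hp ht)).comp (nT B p t) :=
        RingHom.ext fun v => (bcN_nT φ hp ht v).symm
      have h2 : (tT B' p' t').comp (bc1 φ (pT_bc φ hp ht)) =
          (bc12 φ (pT_bc φ hp ht)).comp (tT B p t) :=
        RingHom.ext fun v => (bc12_g1 φ (pT_bc φ hp ht) v).symm
      rw [← Category.assoc, ← Category.assoc, spMap_comp', spMap_comp', h1, h2, ← spMap_comp',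
        ← spMap_comp', Category.assoc, Category.assoc, YNT.condT])

theorem inN_mNT : YNT.inN B' p' t' ≫ mNT φ hp ht = spMap (bcN φ hp ht) ≫ YNT.inN B p t :=
  YNT.inN_desc _ _ _

theorem inT_mNT : YNT.inT B' p' t' ≫ mNT φ hp ht =
    spMap (bc1 φ (pT_bc φ hp ht)) ≫ YNT.inT B p t :=
  YNT.inT_desc _ _ _

theorem inNT_map : YX.inNT B' p' t' ≫ YX.map φ hp ht = mNT φ hp ht ≫ YX.inNT B p t := by
  refine YNT.ext ?_ ?_
  · have h := YX.inN_map φ hp ht
    rw [YX.inN, YX.inN, Category.assoc] at h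
    rw [h, ← Category.assoc (YNT.inN B' p' t') (mNT φ hp ht), inN_mNT, Category.assoc]
  · have h := YX.inT_map φ hp ht
    rw [YX.inT, YX.inT, Category.assoc] at h
    rw [h, ← Category.assoc (YNT.inT B' p' t') (mNT φ hp ht), inT_mNT, Category.assoc]

theorem inN_prNT : YNT.inN B p t ≫ YX.inNT B p t ≫ YX.pr B p t = spMap (algebraMap B _) := by
  have h := YX.inN_pr B p t
  rw [YX.inN, Category.assoc] at h
  exact h

theorem inT_prNT : YNT.inT B p t ≫ YX.inNT B p t ≫ YX.pr B p t = spMap (algebraMap B _) := by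
  have h := YX.inT_pr B p t
  rw [YX.inT, Category.assoc] at h
  exact h

/-! ### points -/

theorem mem_bcN_x {x : Sp (NN B' p' t')} (h : xN B p t ∉ (spMap (bcN φ hp ht) x).asIdeal) :
    xN B' p' t' ∉ x.asIdeal := by
  intro h3
  apply h
  change bcN φ hp ht (xN B p t) ∈ x.asIdeal
  rwa [bcN_x]

theorem mem_bcN_z {x : Sp (NN B' p' t')} (h : zN B p t ∉ (spMap (bcN φ hp ht) x).asIdeal) :
    zN B' p' t' ∉ x.asIdeal := by
  intro h3
  apply h
  change bcN φ hp ht (zN B p t) ∈ x.asIdeal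
  rwa [bcN_z]

theorem mem_bc1 {f : Fin 7 → B} {f' : Fin 7 → B'} (hf : ∀ i, f' i = φ (f i))
    {x : Sp (A1 B' f')} (h : x1 B f ∉ (spMap (bc1 φ hf) x).asIdeal) :
    x1 B' f' ∉ x.asIdeal := by
  intro h3
  apply h
  change bc1 φ hf (x1 B f) ∈ x.asIdeal
  rwa [bc1_x]

theorem condT_pt (w : Sp (TN B p t)) :
    YNT.inN B p t (spMap (nT B p t) w) = YNT.inT B p t (spMap (tT B p t) w) := by
  rw [← Scheme.Hom.comp_apply, ← Scheme.Hom.comp_apply]
  exact congrArg (fun (ψ : Sp (TN B p t) ⟶ YNT B p t) => ψ w) (YNT.condT B p t)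

theorem condQ_pt (w : Sp (QN B p t)) :
    YX.inNT B p t (YNT.inN B p t (spMap (nQ B p t) w)) = YX.inQ B p t (spMap (qQ B p t) w) := by
  rw [← Scheme.Hom.comp_apply, ← Scheme.Hom.comp_apply, ← Scheme.Hom.comp_apply]
  exact congrArg (fun (ψ : Sp (QN B p t) ⟶ YX B p t) => ψ w) (YX.condQ B p t)

theorem mNT_inN (x : Sp (NN B' p' t')) :
    mNT φ hp ht (YNT.inN B' p' t' x) = YNT.inN B p t (spMap (bcN φ hp ht) x) := by
  rw [← Scheme.Hom.comp_apply, ← Scheme.Hom.comp_apply]
  exact congrArg (fun (ψ : Sp (NN B' p' t') ⟶ YNT B p t) => ψ x) (inN_mNT φ hp ht)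

theorem mNT_inT (x : Sp (TT B' p' t')) :
    mNT φ hp ht (YNT.inT B' p' t' x) =
      YNT.inT B p t (spMap (bc1 φ (pT_bc φ hp ht)) x) := by
  rw [← Scheme.Hom.comp_apply, ← Scheme.Hom.comp_apply]
  exact congrArg (fun (ψ : Sp (TT B' p' t') ⟶ YNT B p t) => ψ x) (inT_mNT φ hp ht)

/-- The base change square of `N ∪ T`. -/
theorem sqNT : IsPullback (mNT φ hp ht) (YX.inNT B' p' t' ≫ YX.pr B' p' t')
    (YX.inNT B p t ≫ YX.pr B p t) (spMap φ) := by
  refine cart_two (inN_mNT φ hp ht) (inT_mNT φ hp ht) YNT.surj YNT.surj ?_ ?_ ?_ ?_ ?_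
  · rintro y ⟨x, hx⟩
    obtain ⟨w, -, hw⟩ := YNT.meet x _ hx
    obtain ⟨w', hw'⟩ := (range_g1 B' y).2 (mem_bc1 φ _ ((range_g1 B _).1 ⟨w, hw⟩))
    exact ⟨spMap (nT B' p' t') w', by rw [condT_pt, hw']⟩
  · rintro x ⟨y, hy⟩
    obtain ⟨w, hw, -⟩ := YNT.meet _ y hy.symm
    obtain ⟨w', hw'⟩ := (range_nT B' p' t' x).2 (mem_bcN_x φ hp ht
      ((range_nT B p t _).1 ⟨w, hw⟩))
    exact ⟨spMap (tT B' p' t') w', by rw [← condT_pt, hw']⟩
  · rw [inN_prNT, inN_prNT]
    exact sqN φ hp ht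
  · rw [inT_prNT, inT_prNT]
    exact HBC.sq1 φ (pT_bc φ hp ht)
  · rw [← Category.assoc, ← inNT_map, Category.assoc, YX.map_pr, Category.assoc]

end YBC

open _root_.Pool.Agent.MG.H2.YBC in
/-- YBC: the base change square -/
theorem t_YBC : Stmt_YBC := by
  intro B B' _ _ φ p t p' t' hp ht
  refine cart_two (inNT_map φ hp ht) (YX.inQ_map φ hp ht) YX.surj YX.surj ?_ ?_
    (sqNT φ hp ht) ?_ (YX.map_pr φ hp ht)
  · rintro y ⟨x, hx⟩
    obtain ⟨w, -, hw⟩ := YX.meet x _ hx
    obtain ⟨w', hw'⟩ := (range_g1 B' y).2 (mem_bc1 φ _ ((range_g1 B _).1 ⟨w, hw⟩))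
    exact ⟨YNT.inN B' p' t' (spMap (nQ B' p' t') w'), by rw [condQ_pt, hw']⟩
  · rintro x ⟨y, hy⟩
    obtain ⟨w, hw, -⟩ := YX.meet _ y hy.symm
    rw [Scheme.Hom.comp_apply] at hw
    -- points of `N`
    have key : ∀ n : Sp (NN B' p' t'), YNT.inN B p t (spMap (nQ B p t) w) =
        mNT φ hp ht (YNT.inN B' p' t' n) →
        YX.inNT B' p' t' (YNT.inN B' p' t' n) ∈ Set.range (YX.inQ B' p' t') := by
      intro n hn
      rw [mNT_inN] at hn
      have h1 := (YNT.inN B p t).isOpenEmbedding.injective hn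
      obtain ⟨w', hw'⟩ := (range_nQ B' p' t' n).2 (mem_bcN_z φ hp ht
        ((range_nQ B p t _).1 ⟨w, h1⟩))
      exact ⟨spMap (qQ B' p' t') w', by rw [← condQ_pt, hw']⟩
    rcases YNT.surj x with ⟨n, rfl⟩ | ⟨τ, rfl⟩
    · exact key n hw
    · have h2 := hw
      rw [mNT_inT] at h2
      obtain ⟨v, -, hv⟩ := YNT.meet _ _ h2
      obtain ⟨v', hv'⟩ := (range_g1 B' τ).2 (mem_bc1 φ _ ((range_g1 B _).1 ⟨v, hv⟩))
      have h3 : YNT.inT B' p' t' τ = YNT.inN B' p' t' (spMap (nT B' p' t') v') := by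
        rw [condT_pt, hv']
      rw [h3] at hw ⊢
      exact key _ hw
  · rw [YX.inQ_pr, YX.inQ_pr]
    exact HBC.sq1 φ (pT_bc φ (rev_bc φ hp) ht)

end Pool.Agent.MG.H2


end

section

/-!
# Derivations of the ring of the curve `y² = f(x)`
-/

namespace Pool.Agent.MG.H2

namespace YDA

open Polynomial

variable {K : Type} [Field K] (f : Fin 7 → K)

theorem rel : y1 K f ^ 2 = aeval (x1 K f) (pp K f) := by
  rw [rel1, pp]
  have h := pol_map (aeval (x1 K f) : K[X] →ₐ[K] A1 K f).toRingHom (fun i => C (f i)) X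
  have h1 : (aeval (x1 K f) : K[X] →ₐ[K] A1 K f).toRingHom X = x1 K f := aeval_X _
  have h2 : ∀ c : K, (aeval (x1 K f) : K[X] →ₐ[K] A1 K f).toRingHom (C c) =
      algebraMap K (A1 K f) c := fun c => aeval_C _ c
  rw [h1] at h
  simp only [h2] at h
  exact h.symm

/-- The identity, in any ring. -/
theorem key {R : Type} [CommRing R] (h y F F' A C Dx Dy : R) (hh : 2 * h = 1)
    (hb : A * F + C * F' = 1) (hy : y ^ 2 = F) (hd : 2 * y * Dy = F' * Dx) :
    Dx = 2 * y * (h * (A * y * Dx + 2 * C * Dy)) ∧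
      Dy = F' * (h * (A * y * Dx + 2 * C * Dy)) := by
  refine ⟨?_, ?_⟩
  · linear_combination (-(y * (A * y * Dx + 2 * C * Dy))) * hh - Dx * hb - A * Dx * hy - C * hd
  · linear_combination (-(Dy)) * hh - 2 * h * Dy * hb - 2 * h * A * Dy * hy + h * A * y * hd

end YDA

open _root_.Pool.Agent.MG.H2.YDA Polynomial in
theorem t_YDA : Stmt_YDA := by
  intro K _ f h2 hc D
  obtain ⟨A, C, hb⟩ := hc
  have hb' : aeval (x1 K f) A * aeval (x1 K f) (pp K f) +
      aeval (x1 K f) C * aeval (x1 K f) (derivative (pp K f)) = 1 := by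
    rw [← map_mul, ← map_mul, ← map_add, hb, map_one]
  have hd : 2 * y1 K f * D (y1 K f) = aeval (x1 K f) (derivative (pp K f)) * D (x1 K f) := by
    have h := congrArg D (rel f)
    rw [Derivation.leibniz_pow, Derivation.map_aeval] at h
    simpa [mul_assoc, two_mul, two_smul, add_mul] using h
  have hh : (2 : A1 K f) * algebraMap K (A1 K f) (2⁻¹) = 1 := by
    have h3 : (2 : A1 K f) = algebraMap K (A1 K f) 2 := (map_ofNat (algebraMap K (A1 K f)) 2).symm
    rw [h3, ← map_mul, mul_inv_cancel₀ h2, map_one]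
  obtain ⟨h4, h5⟩ := key _ (y1 K f) _ _ _ _ (D (x1 K f)) (D (y1 K f)) hh hb' (rel f) hd
  exact ⟨_, h4, h5⟩

end Pool.Agent.MG.H2


end

section

/-!
# The families `Yam p t` are stable
-/

open CategoryTheory CategoryTheory.Limits AlgebraicGeometry TensorProduct

namespace Pool.Agent.MG.H2

namespace YST

variable {B K : Type} [CommRing B] [Field K]

/-- A fibre of the family is isomorphic to the curve with the images of the coefficients. -/
theorem fibre (hBC : Stmt_YBC) (p : Fin 7 → B) (t : B) (s : B →+* K) (z : Fam 0 K)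
    (a : Arrow s z (Yam p t)) :
    ∃ f : Arrow (RingHom.id K) z (Yam (fun i => s (p i)) (s t)), IsIso f.f := by
  have h1 : IsPullback (YX.map s (fun _ => rfl) rfl) (YX.pr K (fun i => s (p i)) (s t))
    (YX.pr B p t) (spMap s) := hBC s (fun _ => rfl) rfl
  let e : z.X ≅ YX K (fun i => s (p i)) (s t) := a.cart.isoIsPullback _ _ h1
  have e2 : e.hom ≫ YX.pr K (fun i => s (p i)) (s t) = z.π :=
    a.cart.isoIsPullback_hom_snd _ _ h1
  refine ⟨⟨e.hom, ?_, fun i => i.elim0⟩, ?_⟩
  · have : IsIso (spMap (RingHom.id K)) := by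
      rw [FIS.spMap_id]
      infer_instance
    refine IsPullback.of_horiz_isIso ⟨?_⟩
    change e.hom ≫ YX.pr K (fun i => s (p i)) (s t) = z.π ≫ spMap (RingHom.id K)
    rw [e2, FIS.spMap_id, Category.comp_id]
  · change IsIso e.hom
    infer_instance

end YST

theorem t_YST (hPR : Stmt_YPR) (hBC : Stmt_YBC) (hOB : Stmt_YOB) (hFI : Stmt_YFI) :
    Stmt_YST := by
  intro B _ p t h
  obtain ⟨p1, p2, p3⟩ := hPR B p t
  refine ⟨p1, p2, p3, ?_⟩
  rintro K _ _ s z ⟨a⟩
  obtain ⟨f, hf⟩ := YST.fibre hBC p t s z a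
  exact t_FIS.2 2 z _ f hf (hFI _ _ (hOB s (fun _ => rfl) rfl h))

end Pool.Agent.MG.H2


end

section

/-!
# The core lemma
-/

open Polynomial

namespace Pool.Agent.MG.G0

namespace Core

section

variable {Λ K ι : Type} [CommRing Λ] [CommRing K] [Algebra Λ K] [Fintype ι]

/-- The elements of `Λ` in `K`. -/
def InL (Λ : Type) {K : Type} [CommRing Λ] [CommRing K] [Algebra Λ K] (x : K) : Prop :=
  ∃ a : Λ, x = algebraMap Λ K a

theorem InL.add {x y : K} (hx : InL Λ x) (hy : InL Λ y) : InL Λ (x + y) := by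
  obtain ⟨a, rfl⟩ := hx
  obtain ⟨b, rfl⟩ := hy
  exact ⟨a + b, (map_add _ _ _).symm⟩

theorem InL.mul {x y : K} (hx : InL Λ x) (hy : InL Λ y) : InL Λ (x * y) := by
  obtain ⟨a, rfl⟩ := hx
  obtain ⟨b, rfl⟩ := hy
  exact ⟨a * b, (map_mul _ _ _).symm⟩

theorem InL.sub {x y : K} (hx : InL Λ x) (hy : InL Λ y) : InL Λ (x - y) := by
  obtain ⟨a, rfl⟩ := hx
  obtain ⟨b, rfl⟩ := hy
  exact ⟨a - b, (map_sub _ _ _).symm⟩

theorem InL.zero : InL Λ (0 : K) := ⟨0, (map_zero _).symm⟩

theorem InL.c (a : Λ) : InL Λ (algebraMap Λ K a) := ⟨a, rfl⟩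

theorem InL.sum {α : Type} (s : Finset α) (f : α → K) (h : ∀ i ∈ s, InL Λ (f i)) :
    InL Λ (∑ i ∈ s, f i) := by
  classical
  induction s using Finset.induction_on with
  | empty => exact InL.zero
  | insert a s ha ih =>
    rw [Finset.sum_insert ha]
    exact (h a (Finset.mem_insert_self _ _)).add (ih fun i hi => h i (Finset.mem_insert_of_mem hi))

variable {P : Subalgebra Λ K} {t : K →ₗ[Λ] K} {e es : ι → K}

theorem InL.mem {x : K} (hx : InL Λ x) : x ∈ P := by
  obtain ⟨a, rfl⟩ := hx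
  exact P.algebraMap_mem a

theorem tc (t : K →ₗ[Λ] K) (a : Λ) (x : K) :
    t (algebraMap Λ K a * x) = algebraMap Λ K a * t x := by
  rw [← Algebra.smul_def, map_smul, Algebra.smul_def]

variable [DecidableEq ι] (P t e es)

/-- The data of the core lemma. -/
structure CD : Prop where
  tf : ∀ (a : Λ) (x : K), a ≠ 0 → algebraMap Λ K a * x = 0 → x = 0
  tt : ∀ x y, t (t x * y) = t x * t y
  t1 : t 1 = 1
  he : ∀ i, e i ∈ P
  du : ∀ i j, t (e i * es j) = if i = j then 1 else 0
  ex : ∀ x, x = ∑ j, t (x * es j) * e j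
  tP : ∀ p ∈ P, InL Λ (t p)
  tE : ∀ p ∈ P, ∀ j, InL Λ (t (p * es j))
  tr : ∀ x ∈ P, ∑ j, t (x * e j * es j) = (Fintype.card ι : K) * t x
  un : IsUnit ((2 * Fintype.card ι : ℕ) : Λ)

/-- The dual of `P`. -/
def Dl (x : K) : Prop := ∀ p ∈ P, InL Λ (t (x * p))

/-- A derivation modulo `P`. -/
structure MD (P : Subalgebra Λ K) (D : K → K) : Prop where
  add : ∀ x ∈ P, ∀ y ∈ P, D (x + y) - D x - D y ∈ P
  mul : ∀ x ∈ P, ∀ y ∈ P, D (x * y) - x * D y - y * D x ∈ P
  c : ∀ a : Λ, D (algebraMap Λ K a) ∈ P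

variable {P t e es}

theorem MD.smul {D : K → K} (hD : MD P D) (a : Λ) {x : K} (hx : x ∈ P) :
    D (algebraMap Λ K a * x) - algebraMap Λ K a * D x ∈ P := by
  have h1 := hD.mul _ (P.algebraMap_mem a) x hx
  have h2 := P.mul_mem hx (hD.c a)
  have : D (algebraMap Λ K a * x) - algebraMap Λ K a * D x =
    (D (algebraMap Λ K a * x) - algebraMap Λ K a * D x - x * D (algebraMap Λ K a)) +
      x * D (algebraMap Λ K a) := by ring
  rw [this]
  exact P.add_mem h1 h2

theorem MD.sum {D : K → K} (hD : MD P D) {α : Type} (s : Finset α) (f : α → K)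
    (h : ∀ i ∈ s, f i ∈ P) : D (∑ i ∈ s, f i) - ∑ i ∈ s, D (f i) ∈ P := by
  classical
  induction s using Finset.induction_on with
  | empty =>
    have := hD.c 0
    rw [map_zero] at this
    simpa using this
  | insert a s ha ih =>
    rw [Finset.sum_insert ha, Finset.sum_insert ha]
    have h1 := ih fun i hi => h i (Finset.mem_insert_of_mem hi)
    have h2 := hD.add (f a) (h a (Finset.mem_insert_self _ _)) (∑ i ∈ s, f i)
      (P.sum_mem fun i hi => h i (Finset.mem_insert_of_mem hi))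
    have : D (f a + ∑ i ∈ s, f i) - (D (f a) + ∑ i ∈ s, D (f i)) =
        (D (f a + ∑ i ∈ s, f i) - D (f a) - D (∑ i ∈ s, f i)) +
          (D (∑ i ∈ s, f i) - ∑ i ∈ s, D (f i)) := by ring
    rw [this]
    exact P.add_mem h2 h1

theorem MD.lin {D : K → K} (hD : MD P D) {α : Type} (s : Finset α) (a : α → Λ) (f : α → K)
    (h : ∀ i, f i ∈ P) : D (∑ i ∈ s, algebraMap Λ K (a i) * f i) -
      ∑ i ∈ s, algebraMap Λ K (a i) * D (f i) ∈ P := by
  have h1 := hD.sum s (fun i => algebraMap Λ K (a i) * f i) fun i _ =>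
    P.mul_mem (P.algebraMap_mem _) (h i)
  have h2 : ∑ i ∈ s, (D (algebraMap Λ K (a i) * f i) - algebraMap Λ K (a i) * D (f i)) ∈ P :=
    P.sum_mem fun i _ => hD.smul (a i) (h i)
  rw [Finset.sum_sub_distrib] at h2
  have := P.add_mem h1 h2
  rwa [sub_add_sub_cancel] at this

section CDs

variable (H : CD P t e es)

include H

theorem CD.zero_of {y : K} (h : ∀ k, t (y * e k) = 0) : y = 0 := by
  have h1 : ∀ u, t (y * u) = 0 := by
    intro u
    rw [H.ex u, Finset.mul_sum, map_sum]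
    refine Finset.sum_eq_zero fun j _ => ?_
    rw [show y * (t (u * es j) * e j) = t (u * es j) * (y * e j) by ring, H.tt, h j, mul_zero]
  rw [H.ex y]
  refine Finset.sum_eq_zero fun j _ => ?_
  rw [h1, zero_mul]

theorem CD.ex' (x : K) : x = ∑ j, t (x * e j) * es j := by
  rw [← sub_eq_zero]
  refine H.zero_of fun k => ?_
  rw [sub_mul, map_sub, Finset.sum_mul, map_sum]
  have : ∀ j, t (t (x * e j) * es j * e k) = if k = j then t (x * e k) else 0 := by
    intro j
    rw [mul_assoc, H.tt, mul_comm (es j), H.du]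
    split_ifs with h
    · rw [mul_one, h]
    · rw [mul_zero]
  simp only [this, Finset.sum_ite_eq, Finset.mem_univ, if_true, sub_self]

theorem CD.card : ∑ j, e j * es j = (Fintype.card ι : K) := by
  rw [← sub_eq_zero]
  refine H.zero_of fun k => ?_
  have h1 := H.tr (e k) (H.he k)
  rw [sub_mul, map_sub, Finset.sum_mul, map_sum]
  have h2 : ∀ j, t (e j * es j * e k) = t (e k * e j * es j) := fun j => by
    congr 1
    ring
  simp only [h2]
  rw [h1]
  have h3 : t ((Fintype.card ι : K) * e k) = (Fintype.card ι : K) * t (e k) := by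
    have := tc t (Fintype.card ι : Λ) (e k)
    rwa [map_natCast] at this
  rw [h3, sub_self]

theorem CD.dle (j : ι) : Dl P t (es j) := fun p hp => by
  rw [mul_comm]
  exact H.tE p hp j

theorem CD.mem_of {x : K} (h : ∀ j, InL Λ (t (x * es j))) : x ∈ P := by
  rw [H.ex x]
  exact P.sum_mem fun j _ => P.mul_mem (h j).mem (H.he j)

theorem CD.casimir {D : K → K} (hD : MD P D) {p : K} (hp : ∀ j, p * es j ∈ P) {h : K}
    (hh : h ∈ P) : p * D h ∈ P := by
  have hH : ∀ k j, ∃ a : Λ, t (h * e j * es k) = algebraMap Λ K a := fun k j =>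
    H.tE _ (P.mul_mem hh (H.he j)) k
  choose M hM using hH
  have h1 : ∀ j, h * e j = ∑ k, algebraMap Λ K (M k j) * e k := by
    intro j
    conv_lhs => rw [H.ex (h * e j)]
    exact Finset.sum_congr rfl fun k _ => by rw [hM]
  have h2 : ∀ k, h * es k = ∑ j, algebraMap Λ K (M k j) * es j := by
    intro k
    conv_lhs => rw [H.ex' (h * es k)]
    refine Finset.sum_congr rfl fun j _ => ?_
    rw [← hM, show h * es k * e j = h * e j * es k by ring]
  have h3 : ∑ j, p * es j * D (h * e j) - ∑ k, p * (h * es k) * D (e k) ∈ P := by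
    have h4 : ∑ j, p * es j * (D (h * e j) - ∑ k, algebraMap Λ K (M k j) * D (e k)) ∈ P := by
      refine P.sum_mem fun j _ => P.mul_mem (hp j) ?_
      rw [h1 j]
      exact hD.lin _ _ _ H.he
    have h5 : ∑ k, p * (h * es k) * D (e k) =
        ∑ j, p * es j * ∑ k, algebraMap Λ K (M k j) * D (e k) := by
      simp only [h2, Finset.mul_sum, Finset.sum_mul]
      rw [Finset.sum_comm]
      refine Finset.sum_congr rfl fun j _ => Finset.sum_congr rfl fun k _ => by ring
    rw [h5, ← Finset.sum_sub_distrib]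
    simpa only [mul_sub] using h4
  have h6 : ∑ j, p * es j * (D (h * e j) - h * D (e j) - e j * D h) ∈ P :=
    P.sum_mem fun j _ => P.mul_mem (hp j) (hD.mul _ hh _ (H.he j))
  have h7 : ∑ j, p * es j * (D (h * e j) - h * D (e j) - e j * D h) =
      (∑ j, p * es j * D (h * e j) - ∑ k, p * (h * es k) * D (e k)) -
        (Fintype.card ι : K) * (p * D h) := by
    rw [← H.card, Finset.sum_mul, ← Finset.sum_sub_distrib, ← Finset.sum_sub_distrib]
    refine Finset.sum_congr rfl fun j _ => by ring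
  rw [h7] at h6
  have h8 : (Fintype.card ι : K) * (p * D h) ∈ P := by
    have := P.sub_mem h3 h6
    rwa [sub_sub_cancel] at this
  have hu := H.un
  obtain ⟨v, hv⟩ := hu.exists_left_inv
  have h9 : p * D h = algebraMap Λ K v * (2 * ((Fintype.card ι : K) * (p * D h))) := by
    have h10 := congrArg (algebraMap Λ K) hv
    rw [map_mul, map_natCast, map_one] at h10
    push_cast at h10
    linear_combination -(p * D h) * h10
  rw [h9]
  exact P.mul_mem (P.algebraMap_mem _) (P.mul_mem (by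
    have := P.algebraMap_mem (2 : Λ)
    rwa [map_ofNat] at this) h8)

/-- The data with a generator `w` of the dual modulo `P`. -/
structure WD (P : Subalgebra Λ K) (t : K →ₗ[Λ] K) (w : K) (f : Λ) : Prop where
  dl : Dl P t w
  ge : ∀ x, Dl P t x → ∃ p ∈ P, ∃ a : Λ, x = p + algebraMap Λ K a * w
  f0 : f ≠ 0
  or : ∀ a : Λ, algebraMap Λ K a * w ∈ P ↔ f ∣ a

omit H in
theorem WD.r {w : K} {f : Λ} (W : WD P t w f) {x : K} (hx : x ∈ P) :
    ∃ r : Λ, x * w - algebraMap Λ K r * w ∈ P := by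
  obtain ⟨p, hp, a, h⟩ := W.ge (x * w) fun q hq => by
    rw [show x * w * q = w * (x * q) by ring]
    exact W.dl _ (P.mul_mem hx hq)
  exact ⟨a, by rw [h, add_sub_cancel_right]; exact hp⟩

omit H in
theorem WD.red {w : K} {f : Λ} (W : WD P t w f) {x : K} (hx : x ∈ P) {r : Λ}
    (hr : x * w - algebraMap Λ K r * w ∈ P) {u : K} (hu : Dl P t u) :
    (x - algebraMap Λ K r) * u ∈ P := by
  obtain ⟨p, hp, a, rfl⟩ := W.ge u hu
  have : (x - algebraMap Λ K r) * (p + algebraMap Λ K a * w) =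
      (x - algebraMap Λ K r) * p + algebraMap Λ K a * (x * w - algebraMap Λ K r * w) := by ring
  rw [this]
  exact P.add_mem (P.mul_mem (P.sub_mem hx (P.algebraMap_mem r)) hp)
    (P.mul_mem (P.algebraMap_mem a) hr)

/-- Values of the derivation are in the dual. -/
theorem CD.dual {w : K} {f : Λ} (W : WD P t w f) {D : K → K} (hD : MD P D)
    (htD : ∀ x ∈ P, InL Λ (t (D x))) {h : K} (hh : h ∈ P) : Dl P t (D h) := by
  intro x hx
  obtain ⟨r, hr⟩ := W.r hx
  have h1 : (x - algebraMap Λ K r) * D h ∈ P :=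
    H.casimir hD (fun j => W.red hx hr (H.dle j)) hh
  have h2 : t (D h * x) = t ((x - algebraMap Λ K r) * D h) + algebraMap Λ K r * t (D h) := by
    rw [← tc, ← map_add]
    congr 1
    ring
  rw [h2]
  exact (H.tP _ h1).add ((InL.c r).mul (htD h hh))

theorem CD.main [IsDomain Λ] [IsPrincipalIdealRing Λ] {w : K} {f : Λ} (W : WD P t w f)
    [Nontrivial K] {D : K → K} (hD : MD P D) (htD : ∀ x ∈ P, InL Λ (t (D x)))
    (hdet : InL Λ (∑ j, t (es j * D (e j)))) {x : K} (hx : x ∈ P) : D x ∈ P := by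
  have hinj : Function.Injective (algebraMap Λ K) := by
    rw [injective_iff_map_eq_zero]
    intro a ha
    by_contra h0
    have := H.tf a 1 h0 (by rw [ha, zero_mul])
    exact one_ne_zero this
  set c := algebraMap Λ K with hc
  set n : K := (Fintype.card ι : K) with hn
  -- the element `F = f w`
  obtain ⟨F, hF⟩ : ∃ F, F = c f * w := ⟨_, rfl⟩
  have hFP : F ∈ P := by
    rw [hF, W.or]
  have hFj : ∀ j, ∃ a : Λ, t (F * es j) = c a := fun j => H.tE F hFP j
  choose Fj hFj using hFj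
  have hFe : F = ∑ j, c (Fj j) * e j := by
    conv_lhs => rw [H.ex F]
    exact Finset.sum_congr rfl fun j _ => by rw [hFj]
  choose r hr using fun j => W.r (H.he j)
  obtain ⟨y, hy⟩ : ∃ y : ι → K, ∀ j, y j = e j * w - c (r j) * w := ⟨_, fun _ => rfl⟩
  have hyP : ∀ j, y j ∈ P := fun j => by
    rw [hy]
    exact hr j
  have hew : ∀ j, e j * w = c (r j) * w + y j := fun j => by
    rw [hy]
    ring
  -- D F ∈ P
  have hDd : ∀ h ∈ P, Dl P t (D h) := fun h hh => H.dual W hD htD hh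
  have hDF : D F ∈ P := by
    have h1 : ∀ j, ∃ p ∈ P, ∃ a : Λ, D (e j) = p + c a * w := fun j => W.ge _ (hDd _ (H.he j))
    choose p hp a ha using h1
    obtain ⟨σ, hσ⟩ : InL Λ (∑ j, c (a j) * t (es j * w)) := by
      have h2 : ∑ j, c (a j) * t (es j * w) = ∑ j, t (es j * D (e j)) - ∑ j, t (es j * p j) := by
        rw [← Finset.sum_sub_distrib]
        refine Finset.sum_congr rfl fun j _ => ?_
        rw [← tc, ← map_sub, ha]
        congr 1
        ring
      rw [h2]
      exact hdet.sub (InL.sum _ _ fun j _ => H.dle j _ (hp j))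
    have h3 := hD.lin Finset.univ Fj e H.he
    rw [← hFe] at h3
    have h4 : ∑ j, c (Fj j) * D (e j) = (∑ j, c (Fj j) * p j) + c σ * F := by
      rw [← hσ, hF, Finset.sum_mul, ← Finset.sum_add_distrib]
      refine Finset.sum_congr rfl fun j _ => ?_
      have h5 : c (Fj j) = c f * t (es j * w) := by
        rw [← hFj, hF, ← tc]
        congr 1
        ring
      rw [ha, h5]
      ring
    have h6 : ∑ j, c (Fj j) * D (e j) ∈ P := by
      rw [h4]
      exact P.add_mem (P.sum_mem fun j _ => P.mul_mem (P.algebraMap_mem _) (hp j))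
        (P.mul_mem (P.algebraMap_mem _) hFP)
    have := P.add_mem h3 h6
    rwa [sub_add_cancel] at this
  -- the trace of `F`
  have h6 : ∃ c' : Λ, ∑ j, Fj j * r j = f * c' := by
    have h1 := H.tr F hFP
    obtain ⟨v, hv⟩ : InL Λ (t w) := by
      have := W.dl 1 P.one_mem
      rwa [mul_one] at this
    have h2 : ∀ j, ∃ z : Λ, t (y j * es j) = c z := fun j => H.tE _ (hyP j) j
    choose z hz using h2
    have h3 : ∀ j, t (F * e j * es j) = c (Fj j * r j + f * z j) := by
      intro j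
      have : F * e j * es j = c (r j) * (F * es j) + c f * (y j * es j) := by
        rw [hF]
        linear_combination c f * es j * hew j
      rw [this, map_add, tc, tc, hFj, hz, map_add, map_mul, map_mul]
      ring
    have h4 : t F = c f * c v := by rw [hF, tc, hv]
    simp only [h3] at h1
    rw [← map_sum, h4, Finset.sum_add_distrib, ← Finset.mul_sum] at h1
    have h5 : c (∑ j, Fj j * r j) = c (f * (Fintype.card ι * v - ∑ j, z j)) := by
      rw [map_add, map_mul] at h1
      rw [map_mul, map_sub, map_mul, map_natCast]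
      linear_combination h1
    exact ⟨_, hinj h5⟩
  obtain ⟨c', hc'⟩ := h6
  obtain ⟨y0, hy0⟩ : ∃ y0, y0 = F * w := ⟨_, rfl⟩
  have hy0e : y0 = c c' * F + ∑ j, c (Fj j) * y j := by
    have h1 : F * w = ∑ j, c (Fj j) * (e j * w) := by
      conv_lhs => rw [hFe]
      rw [Finset.sum_mul]
      exact Finset.sum_congr rfl fun j _ => by ring
    rw [hy0, h1]
    simp only [hew, mul_add]
    rw [Finset.sum_add_distrib]
    congr 1
    have h2 := congrArg c hc'
    rw [map_sum, map_mul] at h2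
    rw [hF, ← mul_assoc, mul_comm (c c'), ← h2, Finset.sum_mul]
    exact Finset.sum_congr rfl fun j _ => by rw [map_mul]; ring
  have hy0P : y0 ∈ P := by
    rw [hy0e]
    exact P.add_mem (P.mul_mem (P.algebraMap_mem _) hFP)
      (P.sum_mem fun j _ => P.mul_mem (P.algebraMap_mem _) (hyP j))
  -- second reduction
  choose s hs using fun j => W.r (hyP j)
  obtain ⟨z, hz⟩ : ∃ z : ι → K, ∀ j, z j = y j * w - c (s j) * w := ⟨_, fun _ => rfl⟩
  have hzP : ∀ j, z j ∈ P := fun j => by
    rw [hz]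
    exact hs j
  have hyw : ∀ j, y j * w = c (s j) * w + z j := fun j => by
    rw [hz]
    ring
  have hY : ∀ j, ∃ a : Λ, t (y0 * es j) = c a := fun j => H.tE y0 hy0P j
  choose Y hY using hY
  -- `y0 w ≡ ρ w`
  obtain ⟨ρ, hρ⟩ : ∃ ρ, ρ = ∑ j, r j * Y j := ⟨_, rfl⟩
  have hy0w : y0 * w - c ρ * w ∈ P := by
    have h1 : y0 = ∑ j, c (Y j) * e j := by
      conv_lhs => rw [H.ex y0]
      exact Finset.sum_congr rfl fun j _ => by rw [hY]
    have h2 : y0 * w - c ρ * w = ∑ j, c (Y j) * y j := by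
      rw [hρ, map_sum, Finset.sum_mul]
      conv_lhs => rw [h1]
      rw [Finset.sum_mul, ← Finset.sum_sub_distrib]
      refine Finset.sum_congr rfl fun j _ => ?_
      rw [map_mul]
      linear_combination c (Y j) * hew j
    rw [h2]
    exact P.sum_mem fun j _ => P.mul_mem (P.algebraMap_mem _) (hyP j)
  have hy0w' : y0 * w - c (∑ j, Fj j * s j) * w ∈ P := by
    have h2 : y0 * w - c (∑ j, Fj j * s j) * w = c c' * y0 + ∑ j, c (Fj j) * z j := by
      have h3 : y0 * w = c c' * (F * w) + ∑ j, c (Fj j) * (y j * w) := by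
        conv_lhs => rw [hy0e]
        rw [add_mul, Finset.sum_mul]
        congr 1
        · ring
        · exact Finset.sum_congr rfl fun j _ => by ring
      rw [h3, ← hy0, map_sum, Finset.sum_mul]
      simp only [hyw, mul_add, Finset.sum_add_distrib]
      have : ∑ j, c (Fj j) * (c (s j) * w) = ∑ j, c (Fj j * s j) * w :=
        Finset.sum_congr rfl fun j _ => by rw [map_mul]; ring
      rw [this]
      ring
    rw [h2]
    exact P.add_mem (P.mul_mem (P.algebraMap_mem _) hy0P)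
      (P.sum_mem fun j _ => P.mul_mem (P.algebraMap_mem _) (hzP j))
  obtain ⟨u1, hu1⟩ : f ∣ ∑ j, Fj j * s j - ρ := by
    rw [← W.or, map_sub, sub_mul]
    have := P.sub_mem hy0w hy0w'
    rwa [sub_sub_sub_cancel_left] at this
  obtain ⟨τ, hτ⟩ := H.tP y0 hy0P
  have h7 : ∃ u : Λ, (Fintype.card ι : Λ) * τ = 2 * ρ + f * u := by
    have h1 := H.tr y0 hy0P
    have h2 : ∀ j, ∃ z' : Λ, t (z j * es j) = c z' := fun j => H.tE _ (hzP j) j
    choose z' hz' using h2
    have h3 : ∀ j, t (y0 * e j * es j) = c (r j * Y j + Fj j * s j + f * z' j) := by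
      intro j
      have : y0 * e j * es j = c (r j) * (y0 * es j) + (c (s j) * (F * es j) +
          c f * (z j * es j)) := by
        have e1 : y0 * e j = c (r j) * y0 + y j * F := by
          rw [hy0]
          linear_combination F * hew j
        have e2 : y j * F = c (s j) * F + c f * z j := by
          rw [hF]
          linear_combination c f * hyw j
        rw [e1, e2]
        ring
      rw [this, map_add, map_add, tc, tc, tc, hFj, hY, hz', map_add, map_add, map_mul, map_mul,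
        map_mul]
      ring
    simp only [h3] at h1
    rw [← map_sum, hτ, Finset.sum_add_distrib, Finset.sum_add_distrib, ← hρ, ← Finset.mul_sum]
      at h1
    have h5 : c (Fintype.card ι * τ) = c (2 * ρ + f * (u1 + ∑ j, z' j)) := by
      rw [map_mul, map_natCast]
      change n * c τ = _
      rw [← h1]
      congr 1
      linear_combination hu1
    exact ⟨_, hinj h5⟩
  obtain ⟨u2, hu2⟩ := h7
  -- `τ` is prime to `f`
  have h8 : IsCoprime τ f := by
    rw [isCoprime_comm]
    refine isCoprime_of_prime_dvd (fun h => W.f0 h.1) ?_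
    rintro ϖ hϖ ⟨f1, hf1⟩ ⟨b, hb⟩
    have h9 : c f1 * w ∈ P := by
      refine H.mem_of fun j => ?_
      obtain ⟨p, hp, a, ha⟩ := W.ge _ (H.dle j)
      have e1 : t (c f1 * w * es j) = c f1 * t (w * p) + c a * t (c f1 * w * w) := by
        rw [← tc, ← tc, ← map_add, ha]
        congr 1
        ring
      have e2 : t (c f1 * w * w) = c b := by
        rw [← sub_eq_zero]
        refine H.tf ϖ _ hϖ.ne_zero ?_
        have : c ϖ * t (c f1 * w * w) = t y0 := by
          rw [← tc, hy0, hF, hf1, hc, (algebraMap Λ K).map_mul]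
          congr 1
          ring
        rw [mul_sub, this, hτ, hb, map_mul, sub_self]
      rw [e1, e2]
      exact ((InL.c _).mul (W.dl p hp)).add ((InL.c _).mul (InL.c _))
    rw [W.or] at h9
    obtain ⟨v, hv⟩ := h9
    have h10 : f1 ≠ 0 := by
      rintro rfl
      exact W.f0 (by rw [hf1, mul_zero])
    have h11 : ϖ * v = 1 := by
      apply mul_left_cancel₀ h10
      rw [mul_one]
      conv_rhs => rw [hv, hf1]
      ring
    exact hϖ.not_isUnit (IsUnit.of_mul_eq_one v h11)
  -- conclusion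
  obtain ⟨p, hp, a, ha⟩ := W.ge _ (hDd x hx)
  obtain ⟨rx, hrx⟩ := W.r hx
  obtain ⟨yx, hyx⟩ : ∃ yx, yx = x * w - c rx * w := ⟨_, rfl⟩
  have hyxP : yx ∈ P := hyx ▸ hrx
  have e1 : x * y0 = c rx * y0 + yx * F := by
    rw [hy0, hyx]
    ring
  obtain ⟨q, hq, b, hb⟩ := W.ge _ (hDd yx hyxP)
  have h9 : y0 * D x ∈ P := by
    have g1 := hD.mul x hx y0 hy0P
    have g2 := hD.add (c rx * y0) (P.mul_mem (P.algebraMap_mem _) hy0P) (yx * F)
      (P.mul_mem hyxP hFP)
    have g3 := hD.smul rx hy0P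
    have g4 := hD.mul yx hyxP F hFP
    have g5 := W.red hx hrx (hDd y0 hy0P)
    have g6 := P.mul_mem hyxP hDF
    have g7 : F * D yx ∈ P := by
      rw [hb, show F * (q + c b * w) = F * q + c b * (F * w) by ring, ← hy0]
      exact P.add_mem (P.mul_mem hFP hq) (P.mul_mem (P.algebraMap_mem _) hy0P)
    have : y0 * D x = (D (c rx * y0 + yx * F) - D (c rx * y0) - D (yx * F)) +
        (D (c rx * y0) - c rx * D y0) + (D (yx * F) - yx * D F - F * D yx) -
        (D (x * y0) - x * D y0 - y0 * D x) - (x - c rx) * D y0 + yx * D F + F * D yx := by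
      rw [e1]
      ring
    rw [this]
    exact P.add_mem (P.add_mem (P.sub_mem (P.sub_mem (P.add_mem (P.add_mem g2 g3) g4) g1) g5)
      g6) g7
  have h10 : c (a * ρ) * w ∈ P := by
    have : c (a * ρ) * w = y0 * D x - y0 * p - c a * (y0 * w - c ρ * w) := by
      rw [ha, map_mul]
      ring
    rw [this]
    exact P.sub_mem (P.sub_mem h9 (P.mul_mem hy0P hp)) (P.mul_mem (P.algebraMap_mem _) hy0w)
  rw [W.or] at h10
  have h11 : f ∣ a * τ := by
    have g1 : f ∣ (2 * Fintype.card ι : ℕ) * (a * τ) := by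
      have : ((2 * Fintype.card ι : ℕ) : Λ) * (a * τ) = 4 * (a * ρ) + f * (2 * a * u2) := by
        push_cast
        linear_combination 2 * a * hu2
      rw [this]
      exact dvd_add (h10.mul_left _) (dvd_mul_right _ _)
    exact (H.un.dvd_mul_left).1 g1
  have h12 : f ∣ a := h8.symm.dvd_of_dvd_mul_right h11
  rw [ha]
  exact P.add_mem hp ((W.or a).2 h12)

end CDs

end

end Core

theorem t_BCO : Stmt_BCO := by
  intro Λ K ι _ _ _ _ _ _ _ P t e es htf htt ht1 he hdu hex htP htE htr hun hf w hw hge D h1 h2 h3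
    h4 h5 x hx
  rcases subsingleton_or_nontrivial K with hK | hK
  · rw [Subsingleton.elim (D x) 0]
    exact P.zero_mem
  have H : Core.CD P t e es := ⟨htf, htt, ht1, he, hdu, hex, htP, htE, htr, hun⟩
  let I : Ideal Λ :=
    { carrier := {a | algebraMap Λ K a * w ∈ P}
      add_mem' := fun {a b} ha hb => by
        change algebraMap Λ K (a + b) * w ∈ P
        rw [map_add, add_mul]
        exact P.add_mem ha hb
      zero_mem' := by
        change algebraMap Λ K 0 * w ∈ P
        rw [map_zero, zero_mul]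
        exact P.zero_mem
      smul_mem' := fun b a ha => by
        change algebraMap Λ K (b * a) * w ∈ P
        rw [map_mul, mul_assoc]
        exact P.mul_mem (P.algebraMap_mem _) ha }
  obtain ⟨f, hf0, hfe⟩ := hf
  have hfI : f ∈ I := by
    change algebraMap Λ K f * w ∈ P
    rw [H.ex' w, Finset.mul_sum]
    refine P.sum_mem fun j _ => ?_
    rw [show algebraMap Λ K f * (t (w * e j) * es j) = t (w * e j) * (algebraMap Λ K f * es j) by
      ring]
    exact P.mul_mem (Core.InL.mem (hw _ (he j))) (hfe j)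
  have hgen : ∀ a, algebraMap Λ K a * w ∈ P ↔ Submodule.IsPrincipal.generator I ∣ a := by
    intro a
    rw [← Submodule.IsPrincipal.mem_iff_generator_dvd]
    rfl
  have W : Core.WD P t w (Submodule.IsPrincipal.generator I) :=
    ⟨hw, hge, fun h0 => hf0 (by
      have := (hgen f).1 hfI
      rw [h0] at this
      exact zero_dvd_iff.1 this), hgen⟩
  exact H.main W ⟨h1, h2, h3⟩ h4 h5 hx

end Pool.Agent.MG.G0


end

section

/-!
# BPD: derivations of `R` modulo `R` with values in Laurent series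
-/

open Polynomial

namespace Pool.Agent.MG.G0

namespace BPD

section

variable {κ : Type} [Field κ] {d : ℕ}

theorem pr0_pr0_mul (x y : LaurentSeries κ) :
    pr0 κ d (pr0 κ d x * y) = pr0 κ d x * pr0 κ d y := by
  have h : ZL.pr (0 : ZMod d) (ZL.pr (0 : ZMod d) x) = ZL.pr (0 : ZMod d) x := ZL.pr_pr_same _ _
  have h2 := ZL.pr_mul_of h 0 y
  rw [sub_zero, ZL.pr_zero_eq, ZL.pr_zero_eq, ZL.pr_zero_eq] at h2
  exact h2

theorem pr0_one : pr0 κ d 1 = 1 := by
  ext m
  rw [pr0_coeff, HahnSeries.coeff_one]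
  by_cases h : m = 0
  · rw [h, if_pos (dvd_zero _)]
  · rw [if_neg h, ite_self]

theorem zpol_mem {R : Subalgebra κ (LaurentSeries κ)} (hz : zz κ d ∈ R) (p : κ[X]) :
    zpol κ d p ∈ R := by
  rw [zpol, aeval_eq_sum_range]
  exact Subalgebra.sum_mem _ fun i _ => R.smul_mem (pow_mem hz i) _

/-- `κ((τ))` as an algebra over `κ[z]`. -/
noncomputable abbrev alg (κ : Type) [Field κ] (d : ℕ) : Algebra κ[X] (LaurentSeries κ) :=
  ((zpol κ d : κ[X] →ₐ[κ] LaurentSeries κ) : κ[X] →+* LaurentSeries κ).toAlgebra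

section der

variable {R : Subalgebra κ (LaurentSeries κ)} {D : LaurentSeries κ → LaurentSeries κ}
  (hadd : ∀ x ∈ R, ∀ y ∈ R, D (x + y) - D x - D y ∈ R)
  (hmul : ∀ x ∈ R, ∀ y ∈ R, D (x * y) - x * D y - y * D x ∈ R)

include hadd in
theorem D_add {x y : LaurentSeries κ} (hx : x ∈ R) (hy : y ∈ R) (hDx : D x ∈ R) (hDy : D y ∈ R) :
    D (x + y) ∈ R := by
  have h := add_mem (add_mem (hadd x hx y hy) hDy) hDx
  have h2 : D (x + y) - D x - D y + D y + D x = D (x + y) := by ring
  rwa [h2] at h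

include hmul in
theorem D_mul {x y : LaurentSeries κ} (hx : x ∈ R) (hy : y ∈ R) (hDx : D x ∈ R) (hDy : D y ∈ R) :
    D (x * y) ∈ R := by
  have h := add_mem (add_mem (hmul x hx y hy) (mul_mem hy hDx)) (mul_mem hx hDy)
  have h2 : D (x * y) - x * D y - y * D x + y * D x + x * D y = D (x * y) := by ring
  rwa [h2] at h

include hadd hmul in
theorem D_zpol (hz : zz κ d ∈ R) (hconst : ∀ a : κ, D (algebraMap κ _ a) ∈ R)
    (hDz : D (zz κ d) ∈ R) (p : κ[X]) : D (zpol κ d p) ∈ R := by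
  have hpow : ∀ n : ℕ, D (zz κ d ^ n) ∈ R := by
    intro n
    induction n with
    | zero =>
      rw [pow_zero, ← map_one (algebraMap κ (LaurentSeries κ))]
      exact hconst 1
    | succ n ih =>
      rw [pow_succ]
      exact D_mul hmul (pow_mem hz n) hz ih hDz
  induction p using Polynomial.induction_on' with
  | add p q hp hq =>
    rw [map_add]
    exact D_add hadd (zpol_mem hz p) (zpol_mem hz q) hp hq
  | monomial n a =>
    rw [zpol, Polynomial.aeval_monomial]
    exact D_mul hmul (R.algebraMap_mem a) (pow_mem hz n) (hconst a) (hpow n)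

end der

end

end BPD

/-- **BPD**: derivations of `R` modulo `R` with values in Laurent series. -/
theorem t_BPD (hBCO : Stmt_BCO) (hZDU : Stmt_ZDU) : Stmt_BPD := by
  intro κ _ g d hd h2d R hR hz hcyc e G he hG D hadd hmul hconst hDz hpr hdet
  have hdκ : ((d : ℕ) : κ) ≠ 0 := by
    intro h
    apply h2d
    rw [Nat.cast_mul, h, mul_zero]
  obtain ⟨z1, z2⟩ := hZDU hd hdκ R hR hz
  obtain ⟨hG0, es, s1, s2, s3, s4⟩ := z2 e G he hG
  obtain ⟨w, w1, w2⟩ := hcyc
  obtain ⟨v, hv⟩ := hdet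
  have hinj : ∀ a : κ[X], zpol κ d a = 0 → a = 0 := fun a ha =>
    ZL.ev_injective d hd.ne' (ha.trans (map_zero (zpol κ d)).symm)
  have hdet0 : zpol κ d G.det ≠ 0 := fun h => hG0 (hinj _ h)
  -- the trace of `D`
  have htr : ∑ j, pr0 κ d (es j * D (e j)) = zpol κ d v := by
    have h1 : zpol κ d G.det * ∑ j, pr0 κ d (es j * D (e j)) =
        zpol κ d G.det * zpol κ d v := by
      rw [Finset.mul_sum]
      have h2 : ∀ j, zpol κ d G.det * pr0 κ d (es j * D (e j)) =
          ∑ i, zpol κ d (G.adjugate j i) * pr0 κ d (e i * D (e j)) := by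
        intro j
        rw [← pr0_zpol_mul, ← mul_assoc, s4, Finset.sum_mul, map_sum]
        refine Finset.sum_congr rfl fun i _ => ?_
        rw [mul_assoc, pr0_zpol_mul]
      rw [Finset.sum_congr rfl fun j _ => h2 j, hv, map_mul, mul_comm]
    exact mul_left_cancel₀ hdet0 h1
  letI := BPD.alg κ d
  let P : Subalgebra κ[X] (LaurentSeries κ) :=
    { carrier := {x | x ∈ R}
      mul_mem' := fun ha hb => mul_mem (S := Subalgebra κ (LaurentSeries κ)) ha hb
      add_mem' := fun ha hb => add_mem (S := Subalgebra κ (LaurentSeries κ)) ha hb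
      algebraMap_mem' := fun a => BPD.zpol_mem hz a }
  let t : LaurentSeries κ →ₗ[κ[X]] LaurentSeries κ :=
    { toFun := fun x => pr0 κ d x
      map_add' := fun x y => map_add (pr0 κ d) x y
      map_smul' := fun a x => by
        rw [Algebra.smul_def, Algebra.smul_def]
        exact pr0_zpol_mul d a x }
  have hunit : IsUnit ((2 * Fintype.card (Fin d) : ℕ) : κ[X]) := by
    rw [Fintype.card_fin, ← Polynomial.C_eq_natCast]
    exact Polynomial.isUnit_C.2 (IsUnit.mk0 _ h2d)
  refine hBCO (Λ := κ[X]) (K := LaurentSeries κ) (ι := Fin d) P t e es ?_ ?_ ?_ ?_ ?_ ?_ ?_ ?_ ?_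
    hunit ?_ w ?_ ?_ D ?_ ?_ ?_ ?_ ?_
  · intro a x ha hax
    rcases mul_eq_zero.1 hax with h | h
    · exact absurd (hinj a h) ha
    · exact h
  · intro x y
    exact BPD.pr0_pr0_mul x y
  · exact BPD.pr0_one
  · exact he.mem
  · exact s1
  · exact s2
  · exact z1
  · intro p hp j
    obtain ⟨c, hc, _⟩ := he.uni p hp
    refine ⟨c j, ?_⟩
    change pr0 κ d (p * es j) = zpol κ d (c j)
    rw [hc, Finset.sum_mul, map_sum]
    have h2 : ∀ i, pr0 κ d (zpol κ d (c i) * e i * es j) = if i = j then zpol κ d (c i) else 0 := by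
      intro i
      rw [mul_assoc, pr0_zpol_mul, s1]
      split_ifs
      · rw [mul_one]
      · rw [mul_zero]
    rw [Finset.sum_congr rfl fun i _ => h2 i, Finset.sum_ite_eq' Finset.univ j,
      if_pos (Finset.mem_univ _)]
  · intro x _
    rw [Fintype.card_fin]
    exact s3 x
  · refine ⟨G.det, hG0, fun j => ?_⟩
    change zpol κ d G.det * es j ∈ R
    rw [s4]
    exact Subalgebra.sum_mem _ fun i _ => mul_mem (BPD.zpol_mem hz _) (he.mem i)
  · exact w1
  · exact w2
  · exact hadd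
  · exact hmul
  · exact fun a => BPD.D_zpol hadd hmul hz hconst hDz a
  · exact hpr
  · exact ⟨v, htr⟩

end Pool.Agent.MG.G0


end

section

/-!
# CYC: cyclic duals
-/

open Polynomial

namespace Pool.Agent.MG.G0.CYCaux

section pid

variable {Λ ι : Type} [CommRing Λ] [IsDomain Λ] [IsPrincipalIdealRing Λ] [Fintype ι]
  [DecidableEq ι]

open Matrix in
/-- Smith normal form of a square matrix with nonzero determinant. -/
theorem snf (G : Matrix ι ι Λ) (hG : G.det ≠ 0) :
    ∃ (a : ι → Λ) (P Q M X : Matrix ι ι Λ), G = P * Matrix.diagonal a * Q ∧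
      Matrix.diagonal a * Q = M * G ∧ X * Q = 1 := by
  let φ : (ι → Λ) →ₗ[Λ] (ι → Λ) := G.vecMulLinear
  have hφ : ∀ v, φ v = v ᵥ* G := fun v => rfl
  have hinj : Function.Injective φ := by
    rw [injective_iff_map_eq_zero]
    intro v hv
    exact Matrix.eq_zero_of_vecMul_eq_zero hG hv
  have hfr : Module.finrank Λ (LinearMap.range φ) = Module.finrank Λ (ι → Λ) :=
    LinearMap.finrank_range_of_inj hinj
  obtain ⟨b', a, ab', h⟩ := Submodule.exists_smith_normal_form_of_rank_eq (Pi.basisFun Λ ι) hfr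
  have hrow : ∀ i, G i ∈ LinearMap.range φ := fun i =>
    ⟨Pi.single i 1, by rw [hφ, Matrix.single_one_vecMul]; rfl⟩
  choose m hm using fun i => (ab' i).2
  refine ⟨a, Matrix.of fun i k => ab'.repr ⟨G i, hrow i⟩ k, Matrix.of fun i j => b' i j,
    Matrix.of m, Matrix.of fun i k => b'.repr (Pi.single i 1) k, ?_, ?_, ?_⟩
  · ext i j
    have h1 := ab'.sum_repr ⟨G i, hrow i⟩
    have h2 := congrArg (fun x : LinearMap.range φ => (x : ι → Λ) j) h1
    simp only [AddSubmonoidClass.coe_finsetSum, Submodule.coe_smul_of_tower, h,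
      Finset.sum_apply, Pi.smul_apply, smul_eq_mul] at h2
    rw [← h2, Matrix.mul_apply]
    refine Finset.sum_congr rfl fun k _ => ?_
    rw [Matrix.mul_diagonal, Matrix.of_apply, Matrix.of_apply, mul_assoc]
  · ext i j
    rw [Matrix.diagonal_mul, Matrix.of_apply, Matrix.mul_apply]
    have h1 : (φ (m i)) j = (ab' i : ι → Λ) j := by rw [hm i]
    rw [h i, hφ] at h1
    rw [← smul_eq_mul, ← Pi.smul_apply, ← h1]
    rfl
  · ext i j
    have h1 := b'.sum_repr (Pi.single i 1)
    have h2 := congrFun h1 j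
    simp only [Finset.sum_apply, Pi.smul_apply, smul_eq_mul] at h2
    rw [Matrix.mul_apply]
    simp only [Matrix.of_apply]
    rw [h2, Matrix.one_apply, Pi.single_apply]
    by_cases hij : j = i
    · simp [hij]
    · rw [if_neg hij, if_neg (Ne.symm hij)]

open Matrix in
/-- If no prime divides two diagonal entries then the cokernel is cyclic. -/
theorem core (G : Matrix ι ι Λ) (hG : G.det ≠ 0)
    (H : ∀ (a : ι → Λ) (P Q : Matrix ι ι Λ), G = P * Matrix.diagonal a * Q → ∀ z : Λ, Prime z →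
      ∀ i k, i ≠ k → z ∣ a i → z ∣ a k → False) :
    ∃ w : ι → Λ, ∀ c : ι → Λ, ∃ (b : ι → Λ) (lam : Λ), c = b ᵥ* G + lam • w := by
  obtain ⟨a, P, Q, M, X, h1, h2, h3⟩ := snf G hG
  have hne : ∀ i, a i ≠ 0 := by
    intro i hi
    apply hG
    rw [h1, Matrix.det_mul, Matrix.det_mul, Matrix.det_diagonal,
      Finset.prod_eq_zero (Finset.mem_univ i) hi]
    simp
  have hcop : ∀ i k, i ≠ k → IsCoprime (a i) (a k) := by
    intro i k hik
    exact isCoprime_of_prime_dvd (fun h => hne i h.1) fun z hz hzi hzk =>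
      H a P Q h1 z hz i k hik hzi hzk
  have hcop2 : ∀ j, IsCoprime (a j) (∏ k ∈ Finset.univ.erase j, a k) := by
    intro j
    exact IsCoprime.prod_right fun k hk => hcop j k (Finset.ne_of_mem_erase hk).symm
  choose u v huv using hcop2
  let e : ι → Λ := fun j => v j * ∏ k ∈ Finset.univ.erase j, a k
  have he1 : ∀ j, a j ∣ 1 - e j := by
    intro j
    refine ⟨u j, ?_⟩
    change 1 - v j * ∏ k ∈ Finset.univ.erase j, a k = a j * u j
    rw [← huv j]
    ring
  have he2 : ∀ j k, k ≠ j → a k ∣ e j := by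
    intro j k hk
    exact Dvd.dvd.mul_left (Finset.dvd_prod_of_mem a
      (Finset.mem_erase.mpr ⟨hk, Finset.mem_univ k⟩)) _
  refine ⟨(fun _ => (1 : Λ)) ᵥ* Q, fun c => ?_⟩
  let x := c ᵥ* X
  let lam : Λ := ∑ i, x i * e i
  have hdvd : ∀ j, a j ∣ x j - lam := by
    intro j
    have h4 : x j - lam = x j * (1 - e j) - ∑ i ∈ Finset.univ.erase j, x i * e i := by
      change x j - ∑ i, x i * e i = _
      rw [← Finset.add_sum_erase Finset.univ (fun i => x i * e i) (Finset.mem_univ j)]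
      ring
    rw [h4]
    refine dvd_sub (Dvd.dvd.mul_left (he1 j) _) (Finset.dvd_sum fun i hi => ?_)
    exact Dvd.dvd.mul_left (he2 i j (Finset.ne_of_mem_erase hi).symm) _
  choose y hy using hdvd
  refine ⟨y ᵥ* M, lam, ?_⟩
  have h5 : x ᵥ* Q = c := by
    change (c ᵥ* X) ᵥ* Q = c
    rw [Matrix.vecMul_vecMul, h3, Matrix.vecMul_one]
  have h6 : x = lam • (fun _ => (1 : Λ)) + y ᵥ* Matrix.diagonal a := by
    funext j
    rw [Pi.add_apply, Pi.smul_apply, smul_eq_mul, mul_one, Matrix.vecMul_diagonal, mul_comm (y j),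
      ← hy j]
    ring
  calc c = x ᵥ* Q := h5.symm
    _ = (lam • (fun _ => (1 : Λ)) + y ᵥ* Matrix.diagonal a) ᵥ* Q := by rw [← h6]
    _ = lam • ((fun _ => (1 : Λ)) ᵥ* Q) + (y ᵥ* M) ᵥ* G := by
      rw [Matrix.add_vecMul, Matrix.smul_vecMul, Matrix.vecMul_vecMul, h2,
        ← Matrix.vecMul_vecMul]
    _ = _ := add_comm _ _

end pid

section laurent

variable {κ : Type} [Field κ] {g d : ℕ}

theorem pr0_pr0_mul (hd : 0 < d) (f h : LaurentSeries κ) :
    pr0 κ d (pr0 κ d f * h) = pr0 κ d f * pr0 κ d h := by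
  have : NeZero d := ⟨hd.ne'⟩
  rw [← ZL.pr_zero_eq, ← ZL.pr_zero_eq, ← ZL.pr_zero_eq,
    ZL.pr_mul_of (ZL.pr_pr_same (0 : ZMod d) f), sub_zero]

theorem zpol_mem {R : Subalgebra κ (LaurentSeries κ)} (hz : zz κ d ∈ R) (p : κ[X]) :
    zpol κ d p ∈ R := by
  have h1 : Algebra.adjoin κ {zz κ d} ≤ R := Algebra.adjoin_le (by simpa using hz)
  exact h1 (Polynomial.aeval_mem_adjoin_singleton κ (zz κ d))

open Matrix in
/-- The cyclic dual from coordinates. -/
theorem cyc_of (hd : 0 < d) {R : Subalgebra κ (LaurentSeries κ)} (hz : zz κ d ∈ R)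
    {e es : Fin d → LaurentSeries κ} {G : Matrix (Fin d) (Fin d) κ[X]} (he : ZBas d R e)
    (hG : ZGram d e G) (h1 : ∀ i j, pr0 κ d (e i * es j) = if i = j then 1 else 0)
    (h2 : ∀ x, x = ∑ j, pr0 κ d (x * es j) * e j)
    (hw : ∃ w : Fin d → κ[X], ∀ c : Fin d → κ[X], ∃ (b : Fin d → κ[X]) (lam : κ[X]),
      c = b ᵥ* G + lam • w) : Cyc d R := by
  -- the pairing with `e` is perfect
  have hzero : ∀ y : LaurentSeries κ, (∀ k, pr0 κ d (y * e k) = 0) → y = 0 := by
    intro y hy
    have h3 : ∀ u : LaurentSeries κ, pr0 κ d (y * u) = 0 := by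
      intro u
      conv_lhs => rw [h2 u]
      rw [Finset.mul_sum, map_sum]
      refine Finset.sum_eq_zero fun j _ => ?_
      have h4 : y * (pr0 κ d (u * es j) * e j) = pr0 κ d (u * es j) * (y * e j) := by ring
      rw [h4, pr0_pr0_mul hd, hy j, mul_zero]
    rw [h2 y]
    exact Finset.sum_eq_zero fun j _ => by rw [h3, zero_mul]
  have hexp : ∀ x : LaurentSeries κ, x = ∑ j, pr0 κ d (x * e j) * es j := by
    intro x
    rw [← sub_eq_zero]
    apply hzero
    intro k
    rw [sub_mul, map_sub, Finset.sum_mul, map_sum, sub_eq_zero]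
    have h3 : ∀ j, pr0 κ d (pr0 κ d (x * e j) * es j * e k) =
        if k = j then pr0 κ d (x * e k) else 0 := by
      intro j
      rw [mul_assoc, pr0_pr0_mul hd, mul_comm (es j), h1 k j]
      split_ifs with hkj
      · rw [mul_one, hkj]
      · rw [mul_zero]
    rw [Finset.sum_congr rfl fun j _ => h3 j, Finset.sum_ite_eq Finset.univ k,
      if_pos (Finset.mem_univ k)]
  -- polynomial combinations of the dual basis are in the dual
  have hdl : ∀ c : Fin d → κ[X], IsDl d R (∑ j, zpol κ d (c j) * es j) := by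
    intro c p hp
    obtain ⟨b, hb, -⟩ := he.uni p hp
    refine ⟨∑ j, c j * b j, ?_⟩
    rw [Finset.sum_mul, map_sum, map_sum]
    refine Finset.sum_congr rfl fun j _ => ?_
    rw [mul_assoc, pr0_zpol_mul, map_mul (zpol κ d)]
    congr 1
    rw [hb, Finset.mul_sum, map_sum]
    have h3 : ∀ i, pr0 κ d (es j * (zpol κ d (b i) * e i)) = if i = j then zpol κ d (b j) else 0 := by
      intro i
      have h4 : es j * (zpol κ d (b i) * e i) = zpol κ d (b i) * (e i * es j) := by ring
      rw [h4, pr0_zpol_mul, h1 i j]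
      split_ifs with hij
      · rw [mul_one, hij]
      · rw [mul_zero]
    rw [Finset.sum_congr rfl fun i _ => h3 i, Finset.sum_ite_eq' Finset.univ j,
      if_pos (Finset.mem_univ j)]
  obtain ⟨w, hw⟩ := hw
  refine ⟨∑ j, zpol κ d (w j) * es j, hdl w, fun x hx => ?_⟩
  choose c hc using fun j => hx (e j) (he.mem j)
  obtain ⟨b, lam, hbl⟩ := hw c
  refine ⟨∑ i, zpol κ d (b i) * e i,
    Subalgebra.sum_mem _ fun i _ => Subalgebra.mul_mem _ (zpol_mem hz _) (he.mem i), lam, ?_⟩
  have h5 : x = ∑ j, zpol κ d (c j) * es j := by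
    rw [hexp x]
    exact Finset.sum_congr rfl fun j _ => by rw [hc j]
  have h6 : ∑ i, zpol κ d (b i) * e i = ∑ j, zpol κ d ((b ᵥ* G) j) * es j := by
    have h7 : ∀ j, zpol κ d ((b ᵥ* G) j) * es j =
        ∑ i, zpol κ d (b i) * (zpol κ d (G i j) * es j) := by
      intro j
      rw [Matrix.vecMul, dotProduct, map_sum, Finset.sum_mul]
      exact Finset.sum_congr rfl fun i _ => by rw [map_mul, mul_assoc]
    rw [Finset.sum_congr rfl fun j _ => h7 j, Finset.sum_comm]
    refine Finset.sum_congr rfl fun i _ => ?_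
    rw [← Finset.mul_sum]
    congr 1
    rw [hexp (e i)]
    refine Finset.sum_congr rfl fun j _ => ?_
    rw [hG i j]
  rw [h5, h6, Finset.mul_sum, ← Finset.sum_add_distrib]
  refine Finset.sum_congr rfl fun j _ => ?_
  have h8 : c j = (b ᵥ* G) j + lam * w j := by
    have := congrFun hbl j
    rw [Pi.add_apply, Pi.smul_apply, smul_eq_mul] at this
    exact this
  rw [h8, map_add, map_mul]
  ring

/-- The rank at a common root of two diagonal entries. -/
theorem rank_le {G P Q : Matrix (Fin d) (Fin d) κ[X]} {a : Fin d → κ[X]}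
    (h : G = P * Matrix.diagonal a * Q) {c : κ} {i k : Fin d} (hik : i ≠ k)
    (hi : (a i).eval c = 0) (hk : (a k).eval c = 0) : (G.map (eval c)).rank + 2 ≤ d := by
  classical
  have h1 : G.map (eval c) = P.map (eval c) * Matrix.diagonal (fun j => (a j).eval c) *
      Q.map (eval c) := by
    have h2 : ∀ N : Matrix (Fin d) (Fin d) κ[X], N.map (eval c) =
        (evalRingHom c).mapMatrix N := fun N => rfl
    rw [h, h2, h2, h2, map_mul, map_mul]
    congr 2
    rw [RingHom.mapMatrix_apply, Matrix.diagonal_map (map_zero _)]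
    rfl
  have h3 : (G.map (eval c)).rank ≤ (Matrix.diagonal (fun j => (a j).eval c)).rank := by
    rw [h1]
    exact (Matrix.rank_mul_le_left _ _).trans (Matrix.rank_mul_le_right _ _)
  rw [Matrix.rank_diagonal, Fintype.card_subtype] at h3
  have h4 : (Finset.univ.filter fun j => (a j).eval c ≠ 0) ⊆ Finset.univ \ {i, k} := by
    intro j hj
    simp only [Finset.mem_filter, Finset.mem_univ, true_and] at hj
    simp only [Finset.mem_sdiff, Finset.mem_univ, true_and, Finset.mem_insert,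
      Finset.mem_singleton, not_or]
    exact ⟨fun hji => hj (hji ▸ hi), fun hjk => hj (hjk ▸ hk)⟩
  have h5 := Finset.card_le_card h4
  rw [Finset.card_sdiff_of_subset (Finset.subset_univ _), Finset.card_pair hik, Finset.card_univ,
    Fintype.card_fin] at h5
  have h6 : 2 ≤ d := by
    have := i.isLt
    have := k.isLt
    have h7 : (i : ℕ) ≠ k := fun hh => hik (Fin.ext hh)
    omega
  omega

theorem dvd_det {G P Q : Matrix (Fin d) (Fin d) κ[X]} {a : Fin d → κ[X]}
    (h : G = P * Matrix.diagonal a * Q) : (∏ j, a j) ∣ G.det := by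
  rw [h, Matrix.det_mul, Matrix.det_mul, Matrix.det_diagonal]
  exact Dvd.dvd.mul_right (Dvd.intro_left _ rfl) _

end laurent

end Pool.Agent.MG.G0.CYCaux

namespace Pool.Agent.MG.G0

open CYCaux

/-- CYC: cyclic duals. -/
theorem t_CYC (hZDU : Stmt_ZDU) : Stmt_CYC := by
  intro κ _ g d hd hdκ R hR hz
  obtain ⟨-, hD⟩ := hZDU hd hdκ R hR hz
  refine ⟨fun e G he hG u s hdet hrk => ?_, fun b r hr hdisc => ?_⟩
  · obtain ⟨hne, es, h1, h2, -, -⟩ := hD e G he hG
    refine cyc_of hd hz he hG h1 h2 (core G hne ?_)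
    intro a P Q hPQ z hzp i k hik hzi hzk
    have hu : u ≠ 0 := by
      rintro rfl
      rw [C_0, zero_mul] at hdet
      exact hne hdet
    have hzd : z ∣ G.det :=
      (hzi.trans (Finset.dvd_prod_of_mem a (Finset.mem_univ i))).trans (dvd_det hPQ)
    have hzs : z ∣ (s.map fun c => X - C c).prod := by
      rw [hdet] at hzd
      exact (hzp.dvd_or_dvd hzd).resolve_left fun hc =>
        hzp.not_isUnit (isUnit_of_dvd_unit hc (isUnit_C.mpr (IsUnit.mk0 u hu)))
    obtain ⟨c, -, hc⟩ := hzp.exists_mem_multiset_map_dvd hzs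
    have hcz : X - C c ∣ z := hzp.irreducible.dvd_symm (irreducible_X_sub_C c) hc
    have hri : (a i).eval c = 0 := dvd_iff_isRoot.mp (hcz.trans hzi)
    have hrk' : (a k).eval c = 0 := dvd_iff_isRoot.mp (hcz.trans hzk)
    have hrd : G.det.eval c = 0 := dvd_iff_isRoot.mp (hcz.trans hzd)
    have h3 := hrk c hrd
    have h4 := rank_le hPQ hik hri hrk'
    omega
  · obtain ⟨e, G, he, hG, u, hu, hdet⟩ := hdisc
    obtain ⟨hne, es, h1, h2, -, -⟩ := hD e G he hG
    refine cyc_of hd hz he hG h1 h2 (core G hne ?_)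
    intro a P Q hPQ z hzp i k hik hzi hzk
    have hzd : z ∣ G.det :=
      (hzi.trans (Finset.dvd_prod_of_mem a (Finset.mem_univ i))).trans (dvd_det hPQ)
    have hzs : z ∣ ∏ l, (X - C (r l)) := by
      rw [hdet] at hzd
      exact (hzp.dvd_or_dvd hzd).resolve_left fun hc =>
        hzp.not_isUnit (isUnit_of_dvd_unit hc hu)
    obtain ⟨l, -, hl⟩ := hzp.exists_mem_finset_dvd hzs
    have hcz : X - C (r l) ∣ z := hzp.irreducible.dvd_symm (irreducible_X_sub_C (r l)) hl
    have hsq : (X - C (r l)) * (X - C (r l)) ∣ ∏ m, (X - C (r m)) := by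
      have h3 : (X - C (r l)) * (X - C (r l)) ∣ a i * a k :=
        mul_dvd_mul (hcz.trans hzi) (hcz.trans hzk)
      have h4 : a i * a k ∣ ∏ j, a j := by
        rw [← Finset.mul_prod_erase Finset.univ a (Finset.mem_univ i)]
        exact mul_dvd_mul_left _ (Finset.dvd_prod_of_mem a
          (Finset.mem_erase.mpr ⟨hik.symm, Finset.mem_univ k⟩))
      have h5 := (h3.trans h4).trans (dvd_det hPQ)
      rw [hdet] at h5
      exact (hu.dvd_mul_left).mp h5
    rw [← Finset.mul_prod_erase Finset.univ (fun m => X - C (r m)) (Finset.mem_univ l)] at hsq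
    have h6 := (mul_dvd_mul_iff_left (X_sub_C_ne_zero (r l))).mp hsq
    have h7 := dvd_iff_isRoot.mp h6
    rw [IsRoot.def, eval_prod, Finset.prod_eq_zero_iff] at h7
    obtain ⟨m, hm, hm'⟩ := h7
    rw [eval_sub, eval_X, eval_C, sub_eq_zero] at hm'
    exact (Finset.ne_of_mem_erase hm) (hr hm').symm

end Pool.Agent.MG.G0


end

section

/-!
# The special curve in the coordinate `σ` (`ζ = 0`)
-/

namespace Pool.Agent.MG.G0

/-- GSC: `S.R` is the ring of the special curve for `ζ = 0`; the rings for different `ζ` differ by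
a change of the coordinate. -/
def Stmt_GSC : Prop :=
  ∀ {A : Type} [CommRing A] (g : ℕ), 2 ≤ g →
    (∀ S : SCD A, S.g = g → (S.a = if 3 ∣ g + 1 then 1 else 0) → RG g 0 S.R) ∧
    ∀ (ζ : A) (R R₀ : Subalgebra A (LaurentSeries A)), RG g ζ R → RG g 0 R₀ →
      ∃ (u : PowerSeries A) (Φ : LaurentSeries A ≃ₐ[A] LaurentSeries A),
        PowerSeries.constantCoeff u = 0 ∧ PowerSeries.coeff 1 u = 1 ∧
        IsSub u (Φ : LaurentSeries A →ₐ[A] LaurentSeries A) ∧
        R = R₀.comap (Φ : LaurentSeries A →ₐ[A] LaurentSeries A)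

namespace GSC

theorem rg_zero {A : Type} [CommRing A] (g : ℕ) (S : SCD A) (h1 : S.g = g)
    (h2 : S.a = if 3 ∣ g + 1 then 1 else 0) : RG g 0 S.R := by
  have hX : psl A PowerSeries.X = HahnSeries.single (1 : ℤ) 1 := HahnSeries.ofPowerSeries_X
  refine ⟨S, PowerSeries.X, AlgEquiv.refl, h1, h2, PowerSeries.constantCoeff_X,
    PowerSeries.coeff_one_X, ⟨fun n f hf => hf, ?_⟩, ?_, ?_⟩
  · change HahnSeries.single 1 1 = psl A PowerSeries.X
    rw [hX]
  · rw [zero_smul, add_zero, hX, HahnSeries.single_pow, one_pow, zz, HahnSeries.single_pow,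
      one_pow, HahnSeries.single_mul_single, one_mul, nsmul_eq_mul, nsmul_eq_mul]
    have : ((6 * g + 9 : ℕ) : ℤ) * 1 + ((2 * g + 3 : ℕ) : ℤ) * (-((3 : ℕ) : ℤ)) = 0 := by
      push_cast
      ring
    rw [this]
    rfl
  · ext f
    rfl

end GSC

open _root_.Pool.Agent.MG.G0.GSC in
theorem t_GSC (hGRA : Stmt_GRA) : Stmt_GSC := by
  intro A _ g hg
  refine ⟨fun S => rg_zero g S, ?_⟩
  intro ζ R R₀ hR hR₀
  obtain ⟨S, u, Φ, hS1, hS2, hu0, hu1, hΦ, hu, hRe⟩ := hR
  have h0 := rg_zero g S hS1 hS2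
  have h1 := ((hGRA g hg).2.1 0 S.R h0).1 R₀ hR₀
  subst h1
  exact ⟨u, Φ, hu0, hu1, hΦ, hRe⟩

end Pool.Agent.MG.G0


end

section

/-!
# USC: the value at the special curve is a complex number
-/

namespace Pool.Agent.MG.G0

namespace USC

open SUB

theorem rg_good (hGRA : Stmt_GRA) {g : ℕ} (hg : 2 ≤ g) {A : Type} [CommRing A] {ζ : A}
    {R : Subalgebra A (LaurentSeries A)} (hR : RG g ζ R) : Good g (uno R) := by
  refine ⟨((hGRA g hg).2.1 ζ R hR).2.1, fun κ _ _ φ => Or.inl ?_⟩
  have h1 := (hGRA g hg).2.2 ζ R hR φ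
  have h2 := (hGRA g hg).2.1 _ _ h1
  rw [bc_uno]
  exact ⟨h2.2.2.2.1, h2.2.2.2.2.1⟩

theorem phi_congr {g : ℕ} {A : Type} [CommRing A] [Algebra ℂ A] (E : Ev g)
    {P P' : Subalgebra A (KK Unit A)} (h : P = P') :
    E.Φ A Unit P 0 = E.Φ A Unit P' 0 := by
  subst h
  rfl

end USC

open _root_.Pool.Agent.MG.G0.USC SUB in
/-- USC: the value at the special curve is a complex number. -/
theorem t_USC (hGRA : Stmt_GRA) : Stmt_USC := by
  intro g hg k _ _ _ E
  obtain ⟨R₀, hR₀⟩ := (hGRA g hg).1 (A := ℂ) 0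
    (IsUnit.mk0 _ (Nat.cast_ne_zero.2 (Nat.factorial_ne_zero _)))
  refine ⟨E.Φ ℂ Unit (uno R₀) 0, fun ζ R hR => ?_⟩
  -- base change to `k`
  let φ : ℂ →ₐ[ℂ] k := Algebra.ofId ℂ k
  have h1 : E.Φ k Unit (bc (φ : ℂ →+* k) (uno R₀)) 0 = φ (E.Φ ℂ Unit (uno R₀) 0) := by
    refine E.nat φ (uno R₀) (rg_good hGRA hg hR₀) 0 0 ?_
    intro D D' _
    exact (map_zero (φ : ℂ →+* k)).symm
  have h2 : E.Φ k Unit (bc (φ : ℂ →+* k) (uno R₀)) 0 =
      E.Φ k Unit (uno (bc1 (φ : ℂ →+* k) R₀)) 0 := phi_congr E (bc_uno _ _)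
  have hR1 : RG g (0 : k) (bc1 (φ : ℂ →+* k) R₀) := by
    have := (hGRA g hg).2.2 0 R₀ hR₀ (φ : ℂ →+* k)
    rwa [map_zero] at this
  -- change of the coordinate
  obtain ⟨u, Φ, hu0, hu1, hΦ, hRe⟩ := (t_GSC hGRA g hg).2 ζ R _ hR hR1
  have hu1' : IsUnit (PowerSeries.coeff 1 u) := by rw [hu1]; exact isUnit_one
  have h3 : E.Φ k Unit (uno (bc1 (φ : ℂ →+* k) R₀)) 0 = E.Φ k Unit (uno R) 0 := by
    refine E.aut (kk Φ) (fun n f => ?_) (uno R) _ (rg_good hGRA hg hR) (rg_good hGRA hg hR1)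
      (fun f => ?_) 0 0 (fun _ _ _ => rfl)
    · rw [mem_Pol_unit, mem_Pol_unit, kk_apply]
      exact mem_iff hΦ n (f ())
    · rw [mem_uno, mem_uno, kk_apply, hRe, Subalgebra.mem_comap]
      rfl
  rw [← h3, ← h2, h1]
  rfl

end Pool.Agent.MG.G0


end

section

/-!
# ZRT: the truncated double of a discrete valuation ring over `k[t]`
-/

open Polynomial TensorProduct

namespace Pool.Agent.MG.G0

namespace ZRTaux

section dvr

variable {k O : Type} [Field k] [CommRing O] [IsDomain O] [IsDiscreteValuationRing O] [Algebra k O]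
  (ρ : O →ₐ[k] k)

theorem ker_eq (π : O) (hπ : Irreducible π) : RingHom.ker (ρ : O →+* k) = Ideal.span {π} := by
  have hs : Function.Surjective (ρ : O →+* k) := fun c => ⟨algebraMap k O c, by simp⟩
  have h1 : (RingHom.ker (ρ : O →+* k)).IsMaximal :=
    RingHom.ker_isMaximal_of_surjective _ hs
  rw [IsLocalRing.eq_maximalIdeal h1]
  exact hπ.maximalIdeal_eq

include ρ in
theorem span_pow (π : O) (hπ : Irreducible π) (n : ℕ) (x : O) :
    ∃ y ∈ Submodule.span k (Set.range fun i : Fin n => π ^ (i : ℕ)), ∃ z : O, x = y + π ^ n * z := by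
  induction n generalizing x with
  | zero => exact ⟨0, Submodule.zero_mem _, x, by simp⟩
  | succ n ih =>
    obtain ⟨y, hy, z, hz⟩ := ih x
    have h1 : z - algebraMap k O (ρ z) ∈ RingHom.ker (ρ : O →+* k) := by
      rw [RingHom.mem_ker]; simp
    rw [ker_eq ρ π hπ, Ideal.mem_span_singleton'] at h1
    obtain ⟨w, hw⟩ := h1
    refine ⟨y + (ρ z) • π ^ n, Submodule.add_mem _ ?_ ?_, w, ?_⟩
    · refine Submodule.span_mono ?_ hy
      rintro _ ⟨i, rfl⟩
      exact ⟨i.castSucc, by simp⟩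
    · refine Submodule.smul_mem _ _ (Submodule.subset_span ⟨Fin.last n, by simp⟩)
    · rw [hz, Algebra.smul_def]
      have : z = w * π + algebraMap k O (ρ z) := by rw [hw]; ring
      calc y + π ^ n * z = y + π ^ n * (w * π + algebraMap k O (ρ z)) := by rw [← this]
        _ = _ := by ring

include ρ in
theorem fin_quot (x : O) (hx : x ≠ 0) : Module.Finite k (O ⧸ Ideal.span {x}) := by
  obtain ⟨π, hπ⟩ := IsDiscreteValuationRing.exists_irreducible O
  obtain ⟨n, hn⟩ := IsDiscreteValuationRing.associated_pow_irreducible hx hπ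
  have hs : Ideal.span {x} = Ideal.span {π ^ n} := Ideal.span_singleton_eq_span_singleton.mpr hn
  rw [hs]
  refine ⟨⟨(Set.finite_range fun i : Fin n =>
    Ideal.Quotient.mk (Ideal.span {π ^ n}) (π ^ (i : ℕ))).toFinset, ?_⟩⟩
  rw [Set.Finite.coe_toFinset, eq_top_iff]
  intro y _
  obtain ⟨y, rfl⟩ := Ideal.Quotient.mk_surjective y
  obtain ⟨a, ha, z, hz⟩ := span_pow ρ π hπ n y
  have h0 : Ideal.Quotient.mk (Ideal.span {π ^ n}) y = Ideal.Quotient.mk (Ideal.span {π ^ n}) a := by
    rw [Ideal.Quotient.eq, hz]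
    exact Ideal.mem_span_singleton'.mpr ⟨z, by ring⟩
  rw [h0]
  have h2 : (Ideal.Quotient.mkₐ k (Ideal.span {π ^ n})).toLinearMap a ∈
      (Submodule.span k (Set.range fun i : Fin n => π ^ (i : ℕ))).map
        (Ideal.Quotient.mkₐ k (Ideal.span {π ^ n})).toLinearMap := Submodule.mem_map_of_mem ha
  rw [Submodule.map_span, ← Set.range_comp] at h2
  exact h2

theorem nilp (x : O) (hx : x ≠ 0) (y : O) (hy : ρ y = 0) :
    IsNilpotent (Ideal.Quotient.mk (Ideal.span {x}) y) := by
  obtain ⟨π, hπ⟩ := IsDiscreteValuationRing.exists_irreducible O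
  obtain ⟨n, hn⟩ := IsDiscreteValuationRing.associated_pow_irreducible hx hπ
  have hs : Ideal.span {x} = Ideal.span {π ^ n} := Ideal.span_singleton_eq_span_singleton.mpr hn
  have h1 : y ∈ RingHom.ker (ρ : O →+* k) := by rw [RingHom.mem_ker]; simpa using hy
  rw [ker_eq ρ π hπ, Ideal.mem_span_singleton'] at h1
  obtain ⟨w, rfl⟩ := h1
  refine ⟨n, ?_⟩
  rw [← map_pow, Ideal.Quotient.eq_zero_iff_mem, hs, mul_pow]
  exact Ideal.mul_mem_left _ _ (Ideal.mem_span_singleton_self _)

omit [IsDiscreteValuationRing O] in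
/-- the powers of `t` below `m` are independent modulo `t ^ m` -/
theorem indep (t : O) (ht : ρ t = 0) (h0 : t ≠ 0) (m : ℕ) (c : ℕ → k)
    (h : ∑ i ∈ Finset.range m, c i • t ^ i ∈ Ideal.span {t ^ m}) : ∀ i < m, c i = 0 := by
  induction m generalizing c with
  | zero => intro i hi; omega
  | succ m ih =>
    rw [Ideal.mem_span_singleton'] at h
    obtain ⟨a, ha⟩ := h
    rw [Finset.sum_range_succ'] at ha
    have hc0 : c 0 = 0 := by
      have := congrArg ρ ha
      simp only [map_mul, map_pow, ht, map_add, map_sum, map_smul, pow_zero, map_one] at this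
      simpa using this.symm
    have h2 : t * (∑ i ∈ Finset.range m, c (i + 1) • t ^ i) = t * (a * t ^ m) := by
      rw [hc0, zero_smul, add_zero] at ha
      rw [Finset.mul_sum, ← mul_assoc, mul_comm t a, mul_assoc, ← pow_succ', ha]
      refine Finset.sum_congr rfl fun i _ => ?_
      rw [mul_smul_comm, pow_succ']
    have h3 := mul_left_cancel₀ h0 h2
    have h4 := ih (fun i => c (i + 1)) (by
      rw [h3]; exact Ideal.mul_mem_left _ _ (Ideal.mem_span_singleton_self _))
    intro i hi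
    rcases i with _ | i
    · exact hc0
    · exact h4 i (by omega)

end dvr

section double

variable {k M : Type} [Field k] [CommRing M] [Algebra k M] (u : M)

/-- the ideal of the diagonal of `u` -/
def di : Ideal (M ⊗[k] M) := Ideal.span {u ⊗ₜ[k] (1 : M) - (1 : M) ⊗ₜ[k] u}

variable (lam : M →ₗ[k] k) (m : ℕ)

/-- the coordinates given by `lam` -/
noncomputable def RR : M →ₗ[k] M :=
  ∑ i ∈ Finset.range m, (LinearMap.toSpanSingleton k M (u ^ i)) ∘ₗ lam ∘ₗ
    LinearMap.mulLeft k (u ^ (m - 1 - i))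

theorem RR_apply (x : M) : RR u lam m x =
    ∑ i ∈ Finset.range m, lam (u ^ (m - 1 - i) * x) • u ^ i := by
  simp [RR, LinearMap.sum_apply]

theorem RR_mul (hm : 0 < m) (hu : u ^ m = 0) (x : M) : RR u lam m (u * x) = u * RR u lam m x := by
  obtain ⟨n, rfl⟩ : ∃ n, m = n + 1 := ⟨m - 1, by omega⟩
  rw [RR_apply, RR_apply, Finset.sum_range_succ', Finset.sum_range_succ]
  simp only [Nat.add_sub_cancel, Nat.sub_zero, Nat.sub_self, pow_zero, one_mul]
  rw [← mul_assoc, ← pow_succ, hu, zero_mul, map_zero, zero_smul, add_zero, mul_add,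
    mul_smul_comm, ← pow_succ', hu, smul_zero, add_zero, Finset.mul_sum]
  refine Finset.sum_congr rfl fun i hi => ?_
  rw [Finset.mem_range] at hi
  have e1 : n - (i + 1) + 1 = n - i := by omega
  rw [← mul_assoc, ← pow_succ, e1, mul_smul_comm, ← pow_succ']

/-- the map `x ⊗ y ↦ R x * y` -/
noncomputable def Φ : M ⊗[k] M →ₗ[k] M := TensorProduct.lift (LinearMap.mul k M ∘ₗ RR u lam m)

theorem Φ_tmul (x y : M) : Φ u lam m (x ⊗ₜ y) = RR u lam m x * y := by
  simp [Φ]

theorem Φ_di (hm : 0 < m) (hu : u ^ m = 0) (z : M ⊗[k] M) (hz : z ∈ di (k := k) u) :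
    Φ u lam m z = 0 := by
  rw [di, Ideal.mem_span_singleton'] at hz
  obtain ⟨a, rfl⟩ := hz
  induction a with
  | zero => simp
  | add a b ha hb => rw [add_mul, map_add, ha, hb, add_zero]
  | tmul x y =>
    rw [mul_sub, Algebra.TensorProduct.tmul_mul_tmul, Algebra.TensorProduct.tmul_mul_tmul,
      map_sub, Φ_tmul, Φ_tmul, mul_one, mul_one, mul_comm x u, RR_mul u lam m hm hu]
    ring

variable (ρ : M →ₐ[k] k)

/-- the augmentation of the double -/
noncomputable def aug : M ⊗[k] M →ₐ[k] k := Algebra.TensorProduct.lift ρ ρ fun _ _ => Commute.all _ _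

theorem aug_tmul (x y : M) : aug ρ (x ⊗ₜ y) = ρ x * ρ y := by simp [aug]

theorem aug_nilp (hn : ∀ x, ρ x = 0 → IsNilpotent x) (z : M ⊗[k] M) :
    IsNilpotent (z - algebraMap k (M ⊗[k] M) (aug ρ z)) := by
  induction z with
  | zero => simp
  | add a b ha hb =>
    have : a + b - algebraMap k (M ⊗[k] M) (aug ρ (a + b)) =
      (a - algebraMap k (M ⊗[k] M) (aug ρ a)) + (b - algebraMap k (M ⊗[k] M) (aug ρ b)) := by
      rw [map_add, map_add]; ring
    rw [this]
    exact Commute.isNilpotent_add (Commute.all _ _) ha hb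
  | tmul x y =>
    have h1 : IsNilpotent (x - algebraMap k M (ρ x)) := hn _ (by simp)
    have h2 : IsNilpotent (y - algebraMap k M (ρ y)) := hn _ (by simp)
    have h3 : IsNilpotent ((x - algebraMap k M (ρ x)) ⊗ₜ[k] (1 : M)) :=
      h1.map (Algebra.TensorProduct.includeLeft (R := k) (S := k) (A := M) (B := M))
    have h4 : IsNilpotent ((1 : M) ⊗ₜ[k] (y - algebraMap k M (ρ y))) :=
      h2.map (Algebra.TensorProduct.includeRight (R := k) (A := M) (B := M))
    have e : x ⊗ₜ[k] y - algebraMap k (M ⊗[k] M) (aug ρ (x ⊗ₜ y)) =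
        ((x - algebraMap k M (ρ x)) ⊗ₜ[k] (1 : M)) * ((1 : M) ⊗ₜ[k] y) +
        algebraMap k (M ⊗[k] M) (ρ x) * ((1 : M) ⊗ₜ[k] (y - algebraMap k M (ρ y))) := by
      rw [aug_tmul, Algebra.TensorProduct.tmul_mul_tmul, one_mul, mul_one, TensorProduct.sub_tmul,
        TensorProduct.tmul_sub, map_mul, mul_sub]
      have e1 : algebraMap k M (ρ x) ⊗ₜ[k] y = algebraMap k (M ⊗[k] M) (ρ x) * ((1 : M) ⊗ₜ[k] y) := by
        rw [Algebra.TensorProduct.algebraMap_apply, Algebra.TensorProduct.tmul_mul_tmul, mul_one,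
          one_mul]
      have e2 : (1 : M) ⊗ₜ[k] algebraMap k M (ρ y) = algebraMap k (M ⊗[k] M) (ρ y) := by
        rw [Algebra.TensorProduct.algebraMap_apply']
      rw [e1, e2]
      ring
    rw [e]
    exact Commute.isNilpotent_add (Commute.all _ _)
      (Commute.isNilpotent_mul_right (Commute.all _ _) h3)
      (Commute.isNilpotent_mul_left (Commute.all _ _) h4)

theorem loc (hn : ∀ x, ρ x = 0 → IsNilpotent x) : IsLocalRing (M ⊗[k] M) := by
  have : Nontrivial (M ⊗[k] M) := (aug ρ).toRingHom.domain_nontrivial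
  refine IsLocalRing.of_isUnit_or_isUnit_one_sub_self fun a => ?_
  have h := aug_nilp ρ hn a
  by_cases h0 : aug ρ a = 0
  · right
    rw [h0, map_zero, sub_zero] at h
    exact h.isUnit_one_sub
  · left
    have h1 : IsUnit (algebraMap k (M ⊗[k] M) (aug ρ a)) := (IsUnit.mk0 _ h0).map _
    have h2 := h.isUnit_add_left_of_commute h1 (Commute.all _ _)
    simpa using h2

end double

end ZRTaux

open _root_.Pool.Agent.MG.G0.ZRTaux in
theorem t_ZRT : Stmt_ZRT := by
  intro k O _ _ _ _ _ ρ t ht h0 m hm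
  have htm : t ^ m ≠ 0 := pow_ne_zero _ h0
  have hρ : ∀ a ∈ Ideal.span {t ^ m}, ρ a = 0 := by
    intro a ha
    rw [Ideal.mem_span_singleton'] at ha
    obtain ⟨b, rfl⟩ := ha
    rw [map_mul, map_pow, ht, zero_pow (by omega), mul_zero]
  let M : Type := O ⧸ Ideal.span {t ^ m}
  let ρ' : M →ₐ[k] k := Ideal.Quotient.liftₐ (Ideal.span {t ^ m}) ρ hρ
  let u : M := Ideal.Quotient.mk _ t
  have hu : u ^ m = 0 := by
    change (Ideal.Quotient.mk _ t) ^ m = 0
    rw [← map_pow, Ideal.Quotient.eq_zero_iff_mem]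
    exact Ideal.mem_span_singleton_self _
  have hn : ∀ x : M, ρ' x = 0 → IsNilpotent x := by
    intro x hx
    obtain ⟨x, rfl⟩ := Ideal.Quotient.mk_surjective x
    exact nilp ρ _ htm x hx
  have hfin : Module.Finite k M := fin_quot ρ _ htm
  have hloc : IsLocalRing (M ⊗[k] M) := loc ρ' hn
  have haug : ∀ a ∈ di (k := k) u, (aug ρ' : M ⊗[k] M →+* k) a = 0 := by
    intro a ha
    rw [di, Ideal.mem_span_singleton'] at ha
    obtain ⟨b, rfl⟩ := ha
    have : aug ρ' (u ⊗ₜ[k] (1 : M) - (1 : M) ⊗ₜ[k] u) = 0 := by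
      rw [map_sub, aug_tmul, aug_tmul]; ring
    change aug ρ' _ = 0
    rw [map_mul, this, mul_zero]
  let A : Type := (M ⊗[k] M) ⧸ di (k := k) u
  let σ : A →+* k := Ideal.Quotient.lift (di (k := k) u) (aug ρ' : M ⊗[k] M →+* k) haug
  have : Nontrivial A := σ.domain_nontrivial
  have hlA : IsLocalRing A := IsLocalRing.of_surjective' (Ideal.Quotient.mk (di (k := k) u))
    Ideal.Quotient.mk_surjective
  have : Module.Finite k A := Module.Finite.of_surjective
    (Ideal.Quotient.mkₐ k (di (k := k) u)).toLinearMap (Ideal.Quotient.mkₐ_surjective k _)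
  have hart : IsArtinianRing A := IsArtinianRing.of_finite k A
  let p : O →+* A := (Ideal.Quotient.mk (di (k := k) u)).comp
    ((Algebra.TensorProduct.includeLeft (R := k) (S := k) (A := M) (B := M) : M →+* M ⊗[k] M).comp
      (Ideal.Quotient.mk (Ideal.span {t ^ m})))
  let q : O →+* A := (Ideal.Quotient.mk (di (k := k) u)).comp
    ((Algebra.TensorProduct.includeRight (R := k) (A := M) (B := M) : M →+* M ⊗[k] M).comp
      (Ideal.Quotient.mk (Ideal.span {t ^ m})))
  have hp : ∀ x, p x = Ideal.Quotient.mk (di (k := k) u)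
      ((Ideal.Quotient.mk (Ideal.span {t ^ m}) x : M) ⊗ₜ[k] (1 : M)) := fun x => rfl
  have hq : ∀ x, q x = Ideal.Quotient.mk (di (k := k) u)
      ((1 : M) ⊗ₜ[k] (Ideal.Quotient.mk (Ideal.span {t ^ m}) x : M)) := fun x => rfl
  refine ⟨A, inferInstance, hlA, hart, p, q, σ, ?_, ?_, ?_, ?_, ?_, ?_⟩
  · intro c
    rw [hp, hq]
    congr 1
    have e1 : (Ideal.Quotient.mk (Ideal.span {t ^ m}) (algebraMap k O c) : M) =
      algebraMap k M c := rfl
    rw [e1, ← Algebra.TensorProduct.algebraMap_apply, Algebra.TensorProduct.algebraMap_apply']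
  · rw [hp, hq, Ideal.Quotient.eq]
    exact Ideal.mem_span_singleton_self _
  · rw [← map_pow]
    change Ideal.Quotient.mk (di (k := k) u) _ = 0
    have e1 : (Ideal.Quotient.mk (Ideal.span {t ^ m}) (t ^ m) : M) = 0 := by
      rw [Ideal.Quotient.eq_zero_iff_mem]
      exact Ideal.mem_span_singleton_self _
    rw [RingHom.comp_apply, e1, map_zero, map_zero]
  · intro x
    rw [hp]
    have e : σ (Ideal.Quotient.mk (di (k := k) u)
      ((Ideal.Quotient.mk (Ideal.span {t ^ m}) x : M) ⊗ₜ[k] (1 : M))) =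
      aug ρ' ((Ideal.Quotient.mk (Ideal.span {t ^ m}) x : M) ⊗ₜ[k] (1 : M)) :=
      Ideal.Quotient.lift_mk _ _ _
    rw [e, aug_tmul, map_one, mul_one]
    rfl
  · intro x
    rw [hq]
    have e : σ (Ideal.Quotient.mk (di (k := k) u)
      ((1 : M) ⊗ₜ[k] (Ideal.Quotient.mk (Ideal.span {t ^ m}) x : M))) =
      aug ρ' ((1 : M) ⊗ₜ[k] (Ideal.Quotient.mk (Ideal.span {t ^ m}) x : M)) :=
      Ideal.Quotient.lift_mk _ _ _
    rw [e, aug_tmul, map_one, one_mul]
    rfl
  · intro x hx
    rw [hp, hq, Ideal.Quotient.eq] at hx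
    have hnot : u ^ (m - 1) ∉ Submodule.span k (Set.range fun i : Fin (m - 1) => u ^ (i : ℕ)) := by
      intro hmem
      rw [Submodule.mem_span_range_iff_exists_fun] at hmem
      obtain ⟨c, hc⟩ := hmem
      let d : ℕ → k := fun i => if h : i < m - 1 then c ⟨i, h⟩ else -1
      have h1 : ∑ i ∈ Finset.range m, d i • t ^ i ∈ Ideal.span {t ^ m} := by
        rw [← Ideal.Quotient.eq_zero_iff_mem]
        have h2 : ∀ i, (Ideal.Quotient.mk (Ideal.span {t ^ m}) (d i • t ^ i) : M) = d i • u ^ i := by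
          intro i
          exact (Ideal.Quotient.mkₐ k (Ideal.span {t ^ m})).toLinearMap.map_smul (d i) (t ^ i)
        obtain ⟨n, rfl⟩ : ∃ n, m = n + 1 := ⟨m - 1, by omega⟩
        rw [map_sum, Finset.sum_range_succ, Finset.sum_range]
        simp only [h2]
        have h3 : ∀ i : Fin n, d i = c i := fun i => by simp [d]
        have h4 : d n = -1 := by simp [d]
        simp only [h3, h4]
        rw [neg_smul, one_smul, ← sub_eq_add_neg, sub_eq_zero]
        exact hc
      have h5 := ZRTaux.indep ρ t ht h0 m d h1 (m - 1) (by omega)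
      simp [d] at h5
    obtain ⟨lam, hl1, hl2⟩ := Submodule.exists_le_ker_of_notMem hnot
    have hR1 : RR u lam m 1 = lam (u ^ (m - 1)) • (1 : M) := by
      rw [RR_apply]
      obtain ⟨n, rfl⟩ : ∃ n, m = n + 1 := ⟨m - 1, by omega⟩
      rw [Finset.sum_range_succ', Finset.sum_eq_zero, zero_add]
      · simp
      · intro i hi
        rw [Finset.mem_range] at hi
        have : u ^ (n + 1 - 1 - (i + 1)) * 1 ∈ LinearMap.ker lam := by
          refine hl2 (Submodule.subset_span ⟨⟨n - (i + 1), by simp; omega⟩, ?_⟩)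
          simp
        rw [LinearMap.mem_ker] at this
        rw [this, zero_smul]
    have h1 := Φ_di u lam m hm hu _ hx
    rw [map_sub, Φ_tmul, Φ_tmul, mul_one, hR1, smul_mul_assoc, one_mul, sub_eq_zero, RR_apply] at h1
    refine ⟨∑ i ∈ Finset.range m, C ((lam (u ^ (m - 1)))⁻¹ *
      lam (u ^ (m - 1 - i) * (Ideal.Quotient.mk (Ideal.span {t ^ m}) x : M))) * X ^ i, ?_⟩
    rw [← Ideal.Quotient.eq_zero_iff_mem, map_sub, sub_eq_zero]
    have h2 : (Ideal.Quotient.mk (Ideal.span {t ^ m}) x : M) = (lam (u ^ (m - 1)))⁻¹ •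
        (lam (u ^ (m - 1)) • (Ideal.Quotient.mk (Ideal.span {t ^ m}) x : M)) := by
      rw [smul_smul, inv_mul_cancel₀ hl1, one_smul]
    have h3 : ∀ (a : k) (i : ℕ), (Ideal.Quotient.mk (Ideal.span {t ^ m}) (a • t ^ i) : M) =
        a • u ^ i := by
      intro a i
      exact (Ideal.Quotient.mkₐ k (Ideal.span {t ^ m})).toLinearMap.map_smul a (t ^ i)
    rw [map_sum, map_sum]
    have h4 : (Ideal.Quotient.mk (Ideal.span {t ^ m}) x : M) = ∑ i ∈ Finset.range m,
        ((lam (u ^ (m - 1)))⁻¹ *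
      lam (u ^ (m - 1 - i) * (Ideal.Quotient.mk (Ideal.span {t ^ m}) x : M))) • u ^ i := by
      conv_lhs => rw [h2, ← h1, Finset.smul_sum]
      simp only [smul_smul]
    refine h4.trans (Finset.sum_congr rfl fun i _ => ?_)
    have h5 : ∀ a : k, aeval t (C a * X ^ i) = a • t ^ i := by
      intro a
      rw [map_mul, aeval_C, map_pow, aeval_X, ← Algebra.smul_def]
    rw [h5]
    exact (h3 _ _).symm

end Pool.Agent.MG.G0


end

section

/-!
# Values of series in `t` (module ZRV)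
-/

open Polynomial IsLocalRing

namespace Pool.Agent.MG.G0

namespace ZRV

variable {k O : Type} [Field k] [CommRing O] [IsDomain O] [IsDiscreteValuationRing O] [Algebra k O]

theorem unit_add {u y : O} (hu : IsUnit u) (hy : y ∈ maximalIdeal O) : IsUnit (u + y) := by
  by_contra h
  have h1 : u + y ∈ maximalIdeal O := (mem_maximalIdeal _).2 h
  have h2 : u ∈ maximalIdeal O := by
    have := (maximalIdeal O).sub_mem h1 hy
    rwa [add_sub_cancel_right] at this
  exact (mem_maximalIdeal _).1 h2 hu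

/-- The elements which are series in `t`. -/
def Ser (k : Type) {O : Type} [Field k] [CommRing O] [Algebra k O] (t : O) : Subring O where
  carrier := {x | ∀ m : ℕ, ∃ c : k[X], x - aeval t c ∈ Ideal.span {t ^ m}}
  mul_mem' := by
    intro a b ha hb m
    obtain ⟨c, hc⟩ := ha m
    obtain ⟨d, hd⟩ := hb m
    refine ⟨c * d, ?_⟩
    have : a * b - aeval t (c * d) = b * (a - aeval t c) + aeval t c * (b - aeval t d) := by
      rw [map_mul]
      ring
    rw [this]
    exact Ideal.add_mem _ (Ideal.mul_mem_left _ _ hc) (Ideal.mul_mem_left _ _ hd)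
  one_mem' := fun m => ⟨1, by rw [map_one, sub_self]; exact Ideal.zero_mem _⟩
  add_mem' := by
    intro a b ha hb m
    obtain ⟨c, hc⟩ := ha m
    obtain ⟨d, hd⟩ := hb m
    refine ⟨c + d, ?_⟩
    have : a + b - aeval t (c + d) = (a - aeval t c) + (b - aeval t d) := by
      rw [map_add]
      ring
    rw [this]
    exact Ideal.add_mem _ hc hd
  zero_mem' := fun m => ⟨0, by rw [map_zero, sub_self]; exact Ideal.zero_mem _⟩
  neg_mem' := by
    intro a ha m
    obtain ⟨c, hc⟩ := ha m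
    refine ⟨-c, ?_⟩
    have : -a - aeval t (-c) = -(a - aeval t c) := by
      rw [map_neg]
      ring
    rw [this]
    exact Ideal.neg_mem_iff _ |>.2 hc

/-- A nonzero series in `t` is a power of `t` times a unit. -/
theorem assoc (t x : O) (ht : t ∈ maximalIdeal O) (hx : x ≠ 0) (h : x ∈ Ser k t) :
    ∃ n, Associated x (t ^ n) := by
  have htu : ¬ IsUnit t := (mem_maximalIdeal _).1 ht
  obtain ⟨m, hm⟩ := FiniteMultiplicity.of_not_isUnit htu hx
  obtain ⟨c, hc⟩ := h (m + 1)
  rw [Ideal.mem_span_singleton] at hc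
  have hc0 : c ≠ 0 := by
    rintro rfl
    rw [map_zero, sub_zero] at hc
    exact hm hc
  obtain ⟨q, hq, hnd⟩ := exists_eq_pow_rootMultiplicity_mul_and_not_dvd c hc0 0
  rw [C_0, sub_zero] at hq hnd
  set n := c.rootMultiplicity 0
  have hq0 : q.coeff 0 ≠ 0 := by
    intro h0
    exact hnd (X_dvd_iff.2 h0)
  have hcn : aeval t c = t ^ n * aeval t q := by
    conv_lhs => rw [hq]
    rw [map_mul, map_pow, aeval_X]
  have hqt : aeval t q = algebraMap k O (q.coeff 0) + aeval t q.divX * t := by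
    conv_lhs => rw [← q.divX_mul_X_add]
    rw [map_add, map_mul, aeval_X, aeval_C, add_comm]
  have hu : IsUnit (algebraMap k O (q.coeff 0)) := (IsUnit.mk0 _ hq0).map (algebraMap k O)
  have hqu : IsUnit (aeval t q) := by
    rw [hqt]
    exact unit_add hu (Ideal.mul_mem_left _ _ ht)
  have hnm : n < m + 1 := by
    by_contra hle
    push Not at hle
    apply hm
    have h1 : t ^ (m + 1) ∣ aeval t c := by
      rw [hcn]
      exact (pow_dvd_pow t hle).mul_right _
    have := dvd_add hc h1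
    rwa [sub_add_cancel] at this
  obtain ⟨y, hy⟩ := hc
  obtain ⟨l, hl⟩ := Nat.exists_eq_add_of_lt hnm
  have hx2 : x = t ^ n * (aeval t q + t ^ (l + 1) * y) := by
    have : x = aeval t c + t ^ (m + 1) * y := by rw [← hy]; ring
    rw [this, hcn, hl, add_assoc, pow_add]
    ring
  have hv : IsUnit (aeval t q + t ^ (l + 1) * y) := by
    refine unit_add hqu (Ideal.mul_mem_right _ _ ?_)
    rw [pow_succ]
    exact Ideal.mul_mem_left _ _ ht
  refine ⟨n, ?_⟩
  rw [hx2]
  exact associated_mul_unit_left _ _ hv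

theorem unif (t π u v : O) (ht : t ∈ maximalIdeal O) (hπ : Irreducible π) (hu0 : u ≠ 0)
    (hv0 : v ≠ 0) (hu : u ∈ Ser k t) (hv : v ∈ Ser k t) (h : π * v = u) : Associated t π := by
  have htu : ¬ IsUnit t := (mem_maximalIdeal _).1 ht
  obtain ⟨a, ha⟩ := assoc (k := k) t u ht hu0 hu
  obtain ⟨b, hb⟩ := assoc (k := k) t v ht hv0 hv
  have ht0 : t ^ b ≠ 0 := fun h0 => hv0 (by
    rw [h0, associated_zero_iff_eq_zero] at hb
    exact hb)
  have h1 : Associated (π * t ^ b) (t ^ a) := by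
    refine ((Associated.mul_left π hb.symm).trans ?_).trans ha
    rw [h]
  have hab : b < a := by
    by_contra hle
    push Not at hle
    obtain ⟨l, rfl⟩ := Nat.exists_eq_add_of_le hle
    have ht1 : t ^ a ≠ 0 := fun h0 => ht0 (by rw [pow_add, h0, zero_mul])
    have h2 : π * t ^ (a + l) ∣ t ^ a := h1.dvd
    have h3 : t ^ a * (π * t ^ l) ∣ t ^ a * 1 := by
      rw [mul_one]
      refine dvd_trans (dvd_of_eq ?_) h2
      rw [pow_add]
      ring
    have h4 : π * t ^ l ∣ 1 := (mul_dvd_mul_iff_left ht1).1 h3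
    exact hπ.not_isUnit (isUnit_of_dvd_one ((dvd_mul_right π _).trans h4))
  obtain ⟨l, rfl⟩ := Nat.exists_eq_add_of_lt hab
  have h2 : t ^ b * t ∣ t ^ b * π := by
    rw [mul_comm (t ^ b) π, ← pow_succ]
    refine (pow_dvd_pow t ?_).trans h1.symm.dvd
    omega
  have h3 : t ∣ π := (mul_dvd_mul_iff_left ht0).1 h2
  obtain ⟨w, hw⟩ := h3
  have h4 : IsUnit w := (hπ.isUnit_or_isUnit hw).resolve_left htu
  rw [hw]
  exact (associated_mul_unit_left t w h4).symm

end ZRV

/-- ZRV: values of series in `t`. -/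
theorem t_ZRV : Stmt_ZRV := by
  intro k O L _ _ _ _ _ _ _ _ t ht ht0
  let S := ZRV.Ser k t
  let SL : Subring L := S.map (algebraMap O L)
  refine ⟨Subfield.closure (SL : Set L), ?_, ?_, ?_, ?_⟩
  · intro c
    refine Subfield.subset_closure ⟨_, fun m => ⟨C c, ?_⟩, rfl⟩
    rw [aeval_C, sub_self]
    exact Ideal.zero_mem _
  · refine Subfield.subset_closure ⟨_, fun m => ⟨X, ?_⟩, rfl⟩
    rw [aeval_X, sub_self]
    exact Ideal.zero_mem _
  · intro x hx
    exact Subfield.subset_closure ⟨x, hx, rfl⟩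
  · intro hM
    obtain ⟨π, hπ⟩ := IsDiscreteValuationRing.exists_irreducible O
    have h1 : algebraMap O L π ∈ Subfield.closure (SL : Set L) := by
      rw [hM]
      exact Subfield.mem_top _
    rw [Subfield.mem_closure_iff] at h1
    obtain ⟨y, hy, z, hz, hyz⟩ := h1
    rw [Subring.closure_eq] at hy hz
    obtain ⟨u, hu, rfl⟩ := hy
    obtain ⟨v, hv, rfl⟩ := hz
    have hinj : Function.Injective (algebraMap O L) := IsFractionRing.injective O L
    have hπ0 : algebraMap O L π ≠ 0 := fun h => hπ.ne_zero (hinj (by rw [h, map_zero]))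
    have hv0 : v ≠ 0 := by
      rintro rfl
      rw [map_zero, div_zero] at hyz
      exact hπ0 hyz.symm
    have hu0 : u ≠ 0 := by
      rintro rfl
      rw [map_zero, zero_div] at hyz
      exact hπ0 hyz.symm
    have hvL : algebraMap O L v ≠ 0 := fun h => hv0 (hinj (by rw [h, map_zero]))
    have h2 : π * v = u := by
      apply hinj
      rw [map_mul, ← hyz, div_mul_cancel₀ _ hvL]
    have h3 := ZRV.unif (k := k) t π u v ht hπ hu0 hv0 hu hv h2
    rw [hπ.maximalIdeal_eq]
    exact (Ideal.span_singleton_eq_span_singleton.2 h3).symm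

end Pool.Agent.MG.G0


end

section

/-!
# ZBR: the family is unramified over `k[t]` at places with cyclic dual
-/

open Polynomial IsLocalRing

namespace Pool.Agent.MG.G0

namespace ZBRx

theorem lmap_inj {A B : Type} [CommRing A] [CommRing B] {φ : A →+* B}
    (hφ : Function.Injective φ) : Function.Injective (lmap φ) := by
  intro f f' h
  ext m
  apply hφ
  have := congrArg (fun x : LaurentSeries B => x.coeff m) h
  simpa only [lmap_coeff] using this

/-- a series with coefficients in a subfield -/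
theorem exists_lift {L : Type} [Field L] (M : Subfield L) (f : LaurentSeries L)
    (hf : ∀ m, f.coeff m ∈ M) : ∃ f' : LaurentSeries M, lmap M.subtype f' = f := by
  refine ⟨{ coeff := fun m => ⟨f.coeff m, hf m⟩, isPWO_support' := ?_ }, ?_⟩
  · refine f.isPWO_support.mono fun m hm h0 => hm ?_
    exact Subtype.ext h0
  · ext m
    rfl

/-- the elements of a subalgebra with coefficients in a subfield -/
noncomputable def rsub {L : Type} [Field L] (M : Subfield L) (R : Subalgebra L (LaurentSeries L)) :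
    Subalgebra M (LaurentSeries M) where
  carrier := {x | lmap M.subtype x ∈ R}
  mul_mem' {x y} hx hy := by
    change lmap M.subtype (x * y) ∈ R
    rw [map_mul]
    exact mul_mem hx hy
  add_mem' {x y} hx hy := by
    change lmap M.subtype (x + y) ∈ R
    rw [map_add]
    exact add_mem hx hy
  algebraMap_mem' a := by
    change lmap M.subtype (algebraMap M (LaurentSeries M) a) ∈ R
    rw [lmap_algebraMap]
    exact R.algebraMap_mem _

theorem mem_rsub {L : Type} [Field L] (M : Subfield L) (R : Subalgebra L (LaurentSeries L))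
    (x : LaurentSeries M) : x ∈ rsub M R ↔ lmap M.subtype x ∈ R := Iff.rfl

theorem gs_rsub {L : Type} [Field L] (M : Subfield L) (R : Subalgebra L (LaurentSeries L))
    {Γ : Finset ℕ} (h : GS Γ R) {H : ℕ → LaurentSeries L} (hH : ∀ n, n ∉ Γ → IsEch Γ R n (H n))
    (hM : ∀ n, n ∉ Γ → ∀ m, (H n).coeff m ∈ M) :
    GS Γ (rsub M R) ∧ bc1 M.subtype (rsub M R) = R := by
  have hex : ∀ n, ∃ H' : LaurentSeries M, n ∉ Γ → lmap M.subtype H' = H n := by
    intro n
    by_cases hn : n ∉ Γ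
    · obtain ⟨H', hH'⟩ := exists_lift M (H n) (hM n hn)
      exact ⟨H', fun _ => hH'⟩
    · exact ⟨0, fun hn' => absurd hn' hn⟩
  choose H' hH' using hex
  have hmem : ∀ n, n ∉ Γ → H' n ∈ rsub M R := fun n hn => by
    rw [mem_rsub, hH' n hn]
    exact (hH n hn).mem
  have hinj : Function.Injective (lmap M.subtype) := lmap_inj M.subtype_injective
  have hech : ∀ n, n ∉ Γ → IsEch Γ (rsub M R) n (H' n) := fun n hn => by
    refine ⟨hmem n hn, fun m hm => ?_⟩
    have h1 := (hH n hn).co m hm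
    rw [← hH' n hn, lmap_coeff] at h1
    apply M.subtype_injective
    rw [h1]
    split_ifs
    · exact (map_one _).symm
    · exact (map_zero _).symm
  constructor
  · refine ⟨h.1, fun f => ?_⟩
    obtain ⟨N, hN⟩ := exists_low f
    refine ⟨∑ n ∈ Finset.range (N + 1) \ Γ, f.coeff (-(n : ℤ)) • H' n, ⟨?_, ?_⟩, ?_⟩
    · exact sum_mem fun n hn => Subalgebra.smul_mem _ (hmem n (Finset.mem_sdiff.mp hn).2) _
    · intro m hm
      rw [HahnSeries.coeff_sub,
        BGA.sum_coeff hech (N + 1) (fun n => f.coeff (-(n : ℤ))) hm]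
      split_ifs with h1
      · exact sub_self _
      · rw [sub_zero]
        exact hN _ (by omega)
    · intro q hq
      have hq1 : lmap M.subtype q ∈ R := hq.1
      have hs : (∑ n ∈ Finset.range (N + 1) \ Γ, f.coeff (-(n : ℤ)) • H' n) ∈ rsub M R :=
        sum_mem fun n hn => Subalgebra.smul_mem _ (hmem n (Finset.mem_sdiff.mp hn).2) _
      apply hinj
      refine BGA.uniq h hq1 ((mem_rsub M R _).1 hs) fun m hm => ?_
      rw [lmap_coeff, lmap_coeff,
        BGA.sum_coeff hech (N + 1) (fun n => f.coeff (-(n : ℤ))) hm]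
      have h2 := hq.2 m hm
      rw [HahnSeries.coeff_sub, sub_eq_zero] at h2
      rw [← h2]
      split_ifs with h1
      · rfl
      · rw [hN _ (by omega)]
  · apply le_antisymm
    · refine Algebra.adjoin_le ?_
      rintro _ ⟨x, hx, rfl⟩
      exact hx
    · intro x hx
      obtain ⟨N, hN⟩ := BGA.expand h hH hx
      rw [hN]
      refine sum_mem fun n hn => Subalgebra.smul_mem _ ?_ _
      have hn' := (Finset.mem_sdiff.mp hn).2
      rw [← hH' n hn']
      exact Algebra.subset_adjoin ⟨H' n, hmem n hn', rfl⟩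

end ZBRx

open BPAx _root_.Pool.Agent.MG.G0.ZBRx in
theorem t_ZBR (hBPA : Stmt_BPA) (hZRT : Stmt_ZRT) (hZRV : Stmt_ZRV) (hBGL : Stmt_BGL)
    (hKBC : Stmt_KBC) (hZDB : Stmt_ZDB) : Stmt_ZBR := by
  intro k O L _ _ _ _ _ _ _ _ g d hd h2d ρ t hρt ht F hF R hR hz hDisc hCyc hmin
  -- `ρ` is local
  have hρs : Function.Surjective (ρ : O →+* k) := fun c =>
    ⟨algebraMap k O c, ρ.commutes c⟩
  have hker : ∀ x : O, ρ x = 0 → x ∈ maximalIdeal O := by
    intro x hx hu
    exact (hu.map ρ).ne_zero hx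
  have hloc : IsLocalHom (ρ : O →+* k) := ⟨fun x hx => by
    by_contra hnu
    have h1 : x ∈ maximalIdeal O := hnu
    have hkm : RingHom.ker (ρ : O →+* k) = maximalIdeal O :=
      IsLocalRing.eq_maximalIdeal (RingHom.ker_isMaximal_of_surjective _ hρs)
    rw [← hkm, RingHom.mem_ker] at h1
    rw [h1] at hx
    exact not_isUnit_zero hx⟩
  have hKR0 : Kr g (bc1 (ρ : O →+* k) R) := kr_bc1 hKBC hR _
  obtain ⟨Γ, hΓg, hΓ0, -⟩ := hBGL.2.1 _ hKR0
  have hΓ : GS Γ R := hBGL.1 (ρ : O →+* k) R Γ hR hΓ0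
  choose H hH hHu using fun n => hΓ.ech n
  -- coefficients
  have hco : ∀ n, n ∉ Γ → ∀ j : ℤ, ∀ m : ℕ, ∃ c : k[X],
      (H n).coeff j - aeval t c ∈ Ideal.span {t ^ m} := by
    intro n hn j m
    rcases Nat.eq_zero_or_pos m with rfl | hm
    · exact ⟨0, by rw [pow_zero, Ideal.span_singleton_one]; exact Submodule.mem_top⟩
    obtain ⟨A, iA1, iA2, iA3, p, q, σ, hpq, hpt, hptm, hσp, hσq, hfin⟩ := hZRT ρ t hρt ht m hm
    have hqtm : q t ^ m = 0 := by rw [← hpt, hptm]
    have haev : (p.comp (aeval (R := k) t).toRingHom) =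
        (q.comp (aeval (R := k) t).toRingHom) := by
      refine Polynomial.ringHom_ext ?_ ?_
      · intro c
        change p (aeval t (C c)) = q (aeval t (C c))
        rw [aeval_C, hpq]
      · change p (aeval t X) = q (aeval t X)
        rw [aeval_X, hpt]
    have hlift : ∀ r : O →+* A, r t ^ m = 0 →
        Disc d (bc1 r R) (F.map (r.comp (aeval (R := k) t).toRingHom)) := by
      intro r hr
      have h0 : ∀ a ∈ Ideal.span {t ^ m}, r a = 0 := by
        intro a ha
        obtain ⟨b, rfl⟩ := Ideal.mem_span_singleton'.1 ha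
        rw [map_mul, map_pow, hr, mul_zero]
      have h1 := (hZDB _ _ (Ideal.Quotient.lift (Ideal.span {t ^ m}) r h0) g d _ hd
        (kr_bc1 hKBC hR (Ideal.Quotient.mk (Ideal.span {t ^ m})))
        (hZDB _ _ (Ideal.Quotient.mk (Ideal.span {t ^ m})) g d R hd hR hz).1).2.2 _ (hDisc m)
      rw [← bc1_comp hKBC, Ideal.Quotient.lift_comp_mk, Polynomial.map_map,
        Ideal.Quotient.lift_comp_mk, Polynomial.map_map] at h1
      exact h1
    have hσ1 : bc1 σ (bc1 p R) = bc1 (ρ : O →+* k) R := by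
      rw [← bc1_comp hKBC]
      congr 1
      ext x
      exact hσp x
    have hσ2 : bc1 σ (bc1 q R) = bc1 (ρ : O →+* k) R := by
      rw [← bc1_comp hKBC]
      congr 1
      ext x
      exact hσq x
    have hσs : Function.Surjective σ := fun c => by
      obtain ⟨x, hx⟩ := hρs c
      exact ⟨p x, (hσp x).trans hx⟩
    have hu : IsUnit ((2 * d : ℕ) : A) := by
      have h1 := ((IsUnit.mk0 _ h2d).map (algebraMap k O)).map p
      rwa [map_natCast, map_natCast] at h1
    have heq : bc1 p R = bc1 q R := by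
      refine hBPA σ hσs hd hu _ _ (F.map (p.comp (aeval (R := k) t).toRingHom))
        (kr_bc1 hKBC hR p) (kr_bc1 hKBC hR q)
        (hZDB _ _ p g d R hd hR hz).1 (hZDB _ _ q g d R hd hR hz).1 (hF.map _) (hlift p hptm) ?_
        (hσ1.trans hσ2.symm) ?_
      · rw [haev]
        exact hlift q hqtm
      · rw [hσ1]
        exact hCyc
    have hgs : GS Γ (bc1 q R) := BGA.bc_gs q hΓ
    have h1 : IsEch Γ (bc1 q R) n (lmap p (H n)) := by
      rw [← heq]
      exact BGA.ech_map p (hH n)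
    have h2 : IsEch Γ (bc1 q R) n (lmap q (H n)) := BGA.ech_map q (hH n)
    have h3 : lmap p (H n) = lmap q (H n) := (hgs.ech n).unique h1 h2
    refine hfin _ ?_
    have h4 := congrArg (fun x : LaurentSeries A => x.coeff j) h3
    simpa only [lmap_coeff] using h4
  obtain ⟨M, hMk, hMt, hMx, hMtop⟩ := hZRV (k := k) (O := O) (L := L) t (hker t hρt) ht
  have hΓL : GS Γ (bc1 (algebraMap O L) R) := BGA.bc_gs _ hΓ
  obtain ⟨hgs, hbc⟩ := gs_rsub M (bc1 (algebraMap O L) R) hΓL
    (H := fun n => lmap (algebraMap O L) (H n)) (fun n _ => BGA.ech_map _ (hH n))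
    (fun n hn j => hMx _ (hco n hn j))
  have hkr : Kr g (rsub M (bc1 (algebraMap O L) R)) := hΓg ▸ BGA.kr hgs
  refine hMtop (hmin M hMk hMt (rsub M (bc1 (algebraMap O L) R)) hkr ?_ hbc)
  rw [mem_rsub, lmap_zz]
  exact (hZDB _ _ (algebraMap O L) g d R hd hR hz).1

end Pool.Agent.MG.G0


end

section

/-!
# The theorems of sections BP and ZB (StmtsB.lean) without hypotheses
-/

namespace Pool.Agent.MG.G0.FinB

theorem kSP : Stmt_KSP := t_KSP t_KNZ

theorem kFO : Stmt_KFO := t_KFO t_KDU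

theorem kBC : Stmt_KBC := t_KBC kFO t_KNZ kSP

theorem kBT : Stmt_KBT := t_KBT kSP kBC

theorem zDB : Stmt_ZDB := t_ZDB kBC

theorem bGL : Stmt_BGL := t_BGL t_BGA kFO kBC

theorem pSK : Stmt_PSK := t_PSK t_PSI

theorem cYC : Stmt_CYC := t_CYC t_ZDU

theorem bPD : Stmt_BPD := t_BPD t_BCO t_ZDU

theorem bPX : Stmt_BPX := t_BPX bPD kBC kBT

theorem bPA : Stmt_BPA := t_BPA bPX kBC zDB

theorem bPB : Stmt_BPB := t_BPB bPD t_PSI t_ZD1

theorem zBA : Stmt_ZBA := t_ZBA zDB t_BGA pSK

theorem zBT : Stmt_ZBT := t_ZBT t_BGA bGL pSK zBA t_ZBL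

theorem zBO : Stmt_ZBO := t_ZBO kBC

theorem zBE : Stmt_ZBE := t_ZBE t_BGA bGL kBC cYC bPB

theorem zBR : Stmt_ZBR := t_ZBR bPA t_ZRT t_ZRV bGL kBC zDB

end Pool.Agent.MG.G0.FinB


end

section

/-!
# USN: the value at the special curve with marked points is a complex number
-/

open TensorProduct

namespace Pool.Agent.MG.G0

namespace USNx

/-! ## Base change of points and marks -/

section

variable {I A B : Type} [CommRing A] [CommRing B] {P : Subalgebra A (KK I A)}

/-- The base change of a point. -/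
theorem exists_p [Fintype I] [Nonempty I] [Algebra A B] {g : ℕ}
    (hP : IsKr g P) (p : P →ₐ[A] A) :
    ∃ h : bc (algebraMap A B) P →ₐ[B] B, ∀ f : P,
      h (bcMap (algebraMap A B) P f) = algebraMap A B (p f) := by
  obtain ⟨-, e, he⟩ := FinB.kBT (B := B) hP
  refine ⟨(Algebra.TensorProduct.lift (AlgHom.id B B) ((Algebra.ofId A B).comp p)
    (fun _ _ => Commute.all _ _)).comp (e.symm : bc (algebraMap A B) P →ₐ[B] B ⊗[A] P),
    fun f => ?_⟩
  have h1 : e (1 ⊗ₜ f) = bcMap (algebraMap A B) P f := by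
    apply Subtype.ext
    rw [he, one_smul]
    rfl
  rw [AlgHom.comp_apply, ← h1]
  change (Algebra.TensorProduct.lift (AlgHom.id B B) ((Algebra.ofId A B).comp p)
    (fun _ _ => Commute.all _ _)) (e.symm (e (1 ⊗ₜ f))) = _
  rw [AlgEquiv.symm_apply_apply, Algebra.TensorProduct.lift_tmul, map_one, one_mul]
  rfl

/-- The base change of points. -/
theorem exists_pts [Fintype I] [Nonempty I] {g : ℕ} (hP : IsKr g P) (φ : A →+* B) {n : ℕ}
    (p : Fin n → (P →ₐ[A] A)) : ∃ p' : Fin n → (bc φ P →ₐ[B] B), ∀ i f,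
      p' i (bcMap φ P f) = φ (p i f) := by
  have key : ∀ i, ∃ h : bc φ P →ₐ[B] B, ∀ f : P, h (bcMap φ P f) = φ (p i f) := by
    intro i
    let _ : Algebra A B := φ.toAlgebra
    exact exists_p hP (p i)
  choose p' hp' using key
  exact ⟨p', hp'⟩

variable {φ : A →+* B} {n : ℕ} {p : Fin n → (P →ₐ[A] A)} {p' : Fin n → (bc φ P →ₐ[B] B)}

theorem ker_le (h : ∀ i f, p' i (bcMap φ P f) = φ (p i f)) (i : Fin n) :
    (RingHom.ker (p i)).map (bcMap φ P) ≤ RingHom.ker (p' i) := by
  rw [Ideal.map_le_iff_le_comap]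
  intro f hf
  rw [Ideal.mem_comap, RingHom.mem_ker, h, RingHom.mem_ker.1 hf, map_zero]

theorem sm (h : ∀ i f, p' i (bcMap φ P f) = φ (p i f)) (i : Fin n) (t : P)
    (ht : ∀ f ∈ RingHom.ker (p i), ∃ c : A, f - c • t ∈ RingHom.ker (p i) ^ 2) (f : bc φ P) :
    ∃ c : B, f - algebraMap B (bc φ P) (p' i f) - c • bcMap φ P t ∈ RingHom.ker (p' i) ^ 2 := by
  refine AWB.bc_ind φ FinB.kBC (C := fun f => ∃ c : B,
    f - algebraMap B (bc φ P) (p' i f) - c • bcMap φ P t ∈ RingHom.ker (p' i) ^ 2)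
    (fun f => ?_) ?_ ?_ f
  · have h1 : f - algebraMap A P (p i f) ∈ RingHom.ker (p i) := by
      rw [RingHom.mem_ker, map_sub, AlgHom.commutes]
      exact sub_self _
    obtain ⟨c, hc⟩ := ht _ h1
    refine ⟨φ c, ?_⟩
    have h2 : bcMap φ P (f - algebraMap A P (p i f) - c • t) ∈ RingHom.ker (p' i) ^ 2 := by
      have h3 := Ideal.mem_map_of_mem (bcMap φ P) hc
      rw [Ideal.map_pow] at h3
      exact Ideal.pow_right_mono (ker_le h i) 2 h3
    have e : bcMap φ P (f - algebraMap A P (p i f) - c • t) =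
        bcMap φ P f - algebraMap B (bc φ P) (p' i (bcMap φ P f)) - φ c • bcMap φ P t := by
      rw [map_sub, map_sub, AWB.bcMap_algebraMap, h, Algebra.smul_def, map_mul,
        AWB.bcMap_algebraMap, ← Algebra.smul_def]
    rw [← e]
    exact h2
  · rintro f g ⟨c, hc⟩ ⟨d, hd⟩
    refine ⟨c + d, ?_⟩
    have e : f + g - algebraMap B (bc φ P) (p' i (f + g)) - (c + d) • bcMap φ P t =
        (f - algebraMap B (bc φ P) (p' i f) - c • bcMap φ P t) +
        (g - algebraMap B (bc φ P) (p' i g) - d • bcMap φ P t) := by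
      rw [map_add, map_add, add_smul]
      ring
    rw [e]
    exact add_mem hc hd
  · rintro b f ⟨c, hc⟩
    refine ⟨b * c, ?_⟩
    have e : b • f - algebraMap B (bc φ P) (p' i (b • f)) - (b * c) • bcMap φ P t =
        algebraMap B (bc φ P) b * (f - algebraMap B (bc φ P) (p' i f) - c • bcMap φ P t) := by
      rw [map_smul, smul_eq_mul, map_mul, Algebra.smul_def, Algebra.smul_def, Algebra.smul_def,
        map_mul]
      ring
    rw [e]
    exact Ideal.mul_mem_left _ _ hc

/-- The base change of marks. -/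
theorem marks_bc (h : ∀ i f, p' i (bcMap φ P f) = φ (p i f)) (hm : Marks P p) :
    Marks (bc φ P) p' := by
  refine ⟨fun i j hij => ?_, fun i => ?_⟩
  · rw [eq_top_iff]
    refine le_trans ?_ (sup_le_sup (ker_le h i) (ker_le h j))
    rw [← Ideal.map_sup, hm.dis i j hij, Ideal.map_top]
  · obtain ⟨t, ht, hs⟩ := hm.sm i
    refine ⟨bcMap φ P t, ?_, fun f hf => ?_⟩
    · rw [RingHom.mem_ker, h, RingHom.mem_ker.1 ht, map_zero]
    · obtain ⟨c, hc⟩ := sm h i t hs f
      rw [RingHom.mem_ker.1 hf, map_zero, sub_zero] at hc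
      exact ⟨c, hc⟩

end

/-! ## Marks and isomorphisms -/

theorem marks_equiv {I I' A : Type} [CommRing A] {P : Subalgebra A (KK I A)}
    {P' : Subalgebra A (KK I' A)} (e : P ≃ₐ[A] P') {n : ℕ} {p : Fin n → (P →ₐ[A] A)}
    {p' : Fin n → (P' →ₐ[A] A)} (h : ∀ i f, p' i (e f) = p i f) (hm : Marks P p) :
    Marks P' p' := by
  have hk : ∀ i, (RingHom.ker (p i)).map (e : P →+* P') ≤ RingHom.ker (p' i) := by
    intro i
    rw [Ideal.map_le_iff_le_comap]
    intro f hf
    change p' i (e f) = 0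
    rw [h]
    exact hf
  refine ⟨fun i j hij => ?_, fun i => ?_⟩
  · rw [eq_top_iff]
    refine le_trans ?_ (sup_le_sup (hk i) (hk j))
    rw [← Ideal.map_sup, hm.dis i j hij, Ideal.map_top]
  · obtain ⟨t, ht, hs⟩ := hm.sm i
    refine ⟨e t, ?_, fun f hf => ?_⟩
    · change p' i (e t) = 0
      rw [h]
      exact ht
    · obtain ⟨c, hc⟩ := hs (e.symm f) (by
        change p i (e.symm f) = 0
        rw [← h, AlgEquiv.apply_symm_apply]
        exact hf)
      refine ⟨c, ?_⟩
      have h3 := Ideal.mem_map_of_mem (e : P →+* P') hc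
      rw [Ideal.map_pow] at h3
      have h4 := Ideal.pow_right_mono (hk i) 2 h3
      have h5 : (e : P →+* P') (e.symm f - c • t) = f - c • e t := by
        change e (e.symm f - c • t) = f - c • e t
        rw [map_sub, AlgEquiv.apply_symm_apply, map_smul]
      rwa [h5] at h4

theorem transport {g n : ℕ} (E : Ev0 g n) {k : Type} [CommRing k] [Algebra ℂ k]
    {P₁ P₂ : Subalgebra k (KK Unit k)} (h : P₁ = P₂) (q : Fin n → (P₂ →ₐ[k] k)) :
    ∃ q' : Fin n → (P₁ →ₐ[k] k), (Marks P₂ q → Marks P₁ q') ∧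
      E.Φ k Unit P₁ q' = E.Φ k Unit P₂ q := by
  subst h
  exact ⟨q, id, rfl⟩

/-! ## The special curve is good -/

theorem typeS_of (hGRA : Stmt_GRA) {g : ℕ} (hg : 2 ≤ g) {κ : Type} [Field κ] {ζ : κ}
    {R : Subalgebra κ (LaurentSeries κ)} (hR : RG g ζ R) : TypeS (uno R) := by
  obtain ⟨-, -, -, h1, h2, -⟩ := (hGRA g hg).2.1 ζ R hR
  exact ⟨h1, h2⟩

theorem good_of (hGRA : Stmt_GRA) {g : ℕ} (hg : 2 ≤ g) {A : Type} [CommRing A] {ζ : A}
    {R : Subalgebra A (LaurentSeries A)} (hR : RG g ζ R) : Good g (uno R) := by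
  refine ⟨((hGRA g hg).2.1 ζ R hR).2.1, fun κ _ _ φ => Or.inl ?_⟩
  rw [bc_uno]
  exact typeS_of hGRA hg ((hGRA g hg).2.2 ζ R hR φ)

theorem exists_e {I A : Type} [CommRing A] (α : KK I A ≃ₐ[A] KK I A)
    (P : Subalgebra A (KK I A)) : ∃ e : P ≃ₐ[A] P.map (α : KK I A →ₐ[A] KK I A), ∀ f : P,
      e f = ⟨α f, ⟨f, f.2, rfl⟩⟩ :=
  ⟨P.equivMapOfInjective (α : KK I A →ₐ[A] KK I A) α.injective, fun f =>
    Subtype.ext (Subalgebra.coe_equivMapOfInjective_apply P (α : KK I A →ₐ[A] KK I A)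
      α.injective f)⟩

/-- Change of the coordinate. -/
theorem aut_val {g n : ℕ} (E : Ev0 g n) {k : Type} [CommRing k] [Algebra ℂ k]
    {u : PowerSeries k} (Φ : LaurentSeries k ≃ₐ[k] LaurentSeries k)
    (hΦ : IsSub u (Φ : LaurentSeries k →ₐ[k] LaurentSeries k))
    {R R₁ : Subalgebra k (LaurentSeries k)}
    (hR : R.map (Φ : LaurentSeries k →ₐ[k] LaurentSeries k) = R₁) (hG : Good g (uno R))
    (hG₁ : Good g (uno R₁)) {p : Fin n → (uno R →ₐ[k] k)} (hp : Marks (uno R) p) :
    ∃ p' : Fin n → (uno R₁ →ₐ[k] k), Marks (uno R₁) p' ∧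
      E.Φ k Unit (uno R₁) p' = E.Φ k Unit (uno R) p := by
  obtain ⟨e, he⟩ := exists_e (SUB.kk Φ) (uno R)
  have hpe : ∀ i f, ((p i).comp (e.symm : _ →ₐ[k] uno R)) (e f) = p i f := by
    intro i f
    change p i (e.symm (e f)) = p i f
    rw [AlgEquiv.symm_apply_apply]
  have hm := marks_equiv e hpe hp
  have hP : (uno R).map (SUB.kk Φ : KK Unit k →ₐ[k] KK Unit k) = uno R₁ := by
    rw [SUB.uno_map, hR]
  have hG₂ : Good g ((uno R).map (SUB.kk Φ : KK Unit k →ₐ[k] KK Unit k)) := by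
    rw [hP]
    exact hG₁
  have haut := E.aut (SUB.kk Φ) (fun n f => by
    rw [mem_Pol_unit, mem_Pol_unit, SUB.kk_apply]
    exact SUB.mem_iff hΦ n (f ())) p (fun i => (p i).comp (e.symm : _ →ₐ[k] uno R))
    hG hp hG₂ hm (fun i f => by
      rw [← he f]
      exact hpe i f)
  obtain ⟨q', hq1, hq2⟩ := transport E hP.symm (fun i => (p i).comp (e.symm : _ →ₐ[k] uno R))
  exact ⟨q', hq1 hm, hq2.trans haut⟩

/-- Base change. -/
theorem bc_val {g n : ℕ} (E : Ev0 g n) {k : Type} [CommRing k] [Algebra ℂ k]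
    (φ : ℂ →ₐ[ℂ] k) {R : Subalgebra ℂ (LaurentSeries ℂ)} (hG : Good g (uno R))
    {p : Fin n → (uno R →ₐ[ℂ] ℂ)} (hp : Marks (uno R) p) :
    ∃ p' : Fin n → (uno (bc1 (φ : ℂ →+* k) R) →ₐ[k] k), Marks (uno (bc1 (φ : ℂ →+* k) R)) p' ∧
      E.Φ k Unit (uno (bc1 (φ : ℂ →+* k) R)) p' = φ (E.Φ ℂ Unit (uno R) p) := by
  obtain ⟨q, hq⟩ := exists_pts hG.1 (φ : ℂ →+* k) p
  have hqm : Marks (bc (φ : ℂ →+* k) (uno R)) q := marks_bc hq hp
  have hnat := E.nat φ p q hG hp hq
  obtain ⟨q', hq1, hq2⟩ := transport E (bc_uno (φ : ℂ →+* k) R).symm q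
  exact ⟨q', hq1 hqm, hq2.trans hnat⟩

theorem map_of_comap {k : Type} [CommRing k] (Φ : LaurentSeries k ≃ₐ[k] LaurentSeries k)
    {R R₁ : Subalgebra k (LaurentSeries k)}
    (h : R = R₁.comap (Φ : LaurentSeries k →ₐ[k] LaurentSeries k)) :
    R.map (Φ : LaurentSeries k →ₐ[k] LaurentSeries k) = R₁ := by
  rw [h]
  ext f
  rw [Subalgebra.mem_map]
  constructor
  · rintro ⟨h, hh, rfl⟩
    exact hh
  · intro hf
    refine ⟨Φ.symm f, ?_, Φ.apply_symm_apply f⟩
    change Φ (Φ.symm f) ∈ R₁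
    rw [Φ.apply_symm_apply]
    exact hf

end USNx

open _root_.Pool.Agent.MG.G0.USNx in
theorem t_USN (hGRA : Stmt_GRA) (hUM0 : Stmt_UM0) : Stmt_USN := by
  intro g n hg k _ _ _ E
  obtain ⟨R₀, h0⟩ := (hGRA g hg).1 (A := ℂ) 0
    (isUnit_iff_ne_zero.2 (Nat.cast_ne_zero.2 (Nat.factorial_ne_zero _)))
  obtain ⟨-, hKr, hzz, -⟩ := (hGRA g hg).2.1 0 R₀ h0
  obtain ⟨p₀, hp₀⟩ := hUM0 n (d := 6 * g + 9) (by omega) hKr hzz (typeS_of hGRA hg h0)
  refine ⟨E.Φ ℂ Unit (uno R₀) p₀, ?_⟩
  intro ζ R hR p hp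
  obtain ⟨q, hqm, hq⟩ := bc_val E (Algebra.ofId ℂ k) (good_of hGRA hg h0) hp₀
  have h1 : RG g 0 (bc1 ((Algebra.ofId ℂ k : ℂ →ₐ[ℂ] k) : ℂ →+* k) R₀) := by
    have := (hGRA g hg).2.2 0 R₀ h0 ((Algebra.ofId ℂ k : ℂ →ₐ[ℂ] k) : ℂ →+* k)
    rwa [map_zero] at this
  obtain ⟨u, Φ, hu0, hu1, hΦ, hRe⟩ := (t_GSC hGRA g hg).2 ζ R _ hR h1
  obtain ⟨p', hpm, hp'⟩ := aut_val E Φ hΦ (map_of_comap Φ hRe) (good_of hGRA hg hR)
    (good_of hGRA hg h1) hp
  have hpos := E.pos p' q ((hGRA g hg).2.1 0 _ h1).2.1 (typeS_of hGRA hg h1) hpm hqm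
  exact hp'.symm.trans (hpos.trans hq)

end Pool.Agent.MG.G0


end

section

/-!
# ZPM: the model at a discrete valuation ring
-/

open Polynomial

namespace Pool.Agent.MG.G0

namespace ZPM

/-- The residue field is `k`. -/
theorem algClosed {k O : Type} [Field k] [IsAlgClosed k] [CommRing O] [IsDomain O]
    [IsDiscreteValuationRing O] [Algebra k O] (rs : O →ₐ[k] k)
    (hrs : ∀ x, rs x = 0 ↔ x ∈ IsLocalRing.maximalIdeal O) :
    IsAlgClosed (IsLocalRing.ResidueField O) := by
  have hbij : Function.Bijective ((IsLocalRing.residue O).comp (algebraMap k O)) := by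
    refine ⟨RingHom.injective _, fun y => ?_⟩
    obtain ⟨x, rfl⟩ := IsLocalRing.residue_surjective y
    refine ⟨rs x, ?_⟩
    rw [RingHom.comp_apply, ← sub_eq_zero, ← map_sub, IsLocalRing.residue_eq_zero_iff, ← hrs,
      map_sub, AlgHom.commutes]
    exact sub_self _
  exact IsAlgClosed.of_ringEquiv k _ (RingEquiv.ofBijective _ hbij)

end ZPM

theorem t_ZPM (hKBC : Stmt_KBC) (hZL : Stmt_ZL) : Stmt_ZPM := by
  intro k L O _ _ _ _ _ _ _ _ _ g d b R rs π r hd hdf hb hrs hπ hR hz hr hdisc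
  have hac := ZPM.algClosed rs hrs
  have hunit : ∀ x, rs x ≠ 0 → IsUnit x := fun x hx => by
    by_contra h
    exact hx ((hrs x).2 ((IsLocalRing.mem_maximalIdeal x).2 h))
  have hdu : IsUnit ((d.factorial : ℕ) : O) := hunit _ (by rwa [map_natCast])
  have hmon : (∏ l, (X - C (r l)) : O[X]).Monic := monic_prod_X_sub_C _ _
  have hmap : (∏ l, (X - C (r l)) : O[X]).map (algebraMap O L) =
      ∏ l, (X - C (algebraMap O L (r l))) := by
    rw [Polynomial.map_prod]
    exact Finset.prod_congr rfl fun l _ => by rw [Polynomial.map_sub, map_X, map_C]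
  have hdisc' : Disc d R ((∏ l, (X - C (r l)) : O[X]).map (algebraMap O L)) := by
    rw [hmap]
    exact hdisc
  obtain ⟨h1, h2, h3, h4⟩ := hZL O L g d R _ hd hdu hR hz hmon hdisc'
  have hπ0 : rs π = 0 := (hrs π).2 ((IsLocalRing.mem_maximalIdeal π).2 hπ.not_isUnit)
  have hker : ∀ x, rs x = 0 → π ∣ x := fun x hx => by
    have h5 : x ∈ IsLocalRing.maximalIdeal O := (hrs x).1 hx
    rw [hπ.maximalIdeal_eq] at h5
    exact Ideal.mem_span_singleton.1 h5
  have hsep : ((∏ l, (X - C (r l)) : O[X]).map (algebraMap O L)).Separable := by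
    rw [hmap]
    exact separable_prod_X_sub_C_iff.2 fun i j hij =>
      hr (IsFractionRing.injective O L hij)
  have hdeg : (∏ l, (X - C (r l)) : O[X]).natDegree + 1 = 2 * g + d := by
    rw [natDegree_finsetProd_X_sub_C_eq_card, ← hb, Finset.card_univ, Fintype.card_fin]
  refine ⟨{ rs := rs, π := π, ne := hπ.ne_zero, ker := hker, rsπ := hπ0, unit := hunit,
            P := cut (algebraMap O L) R, f := ∏ l, (X - C (r l)), val := inferInstance,
            frac := inferInstance, kr := h1, z := h2, bc := h3, monic := hmon, deg := hdeg,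
            disc := hdisc', sep := hsep }, rfl, rfl, rfl, rfl, ?_, ?_, ?_⟩
  · refine h4 k (rs : O →+* k) fun x hx => ?_
    have h6 : rs x = 0 := (hrs x).2 hx
    exact ⟨1, by rw [pow_one]; exact h6⟩
  · have h7 : IsKr g (bc (rs : O →+* k) (uno (cut (algebraMap O L) R))) :=
      (hKBC.2.2.2 h1 (rs : O →+* k)).1
    rw [bc_uno] at h7
    exact h7
  · rw [← lmap_zz (rs : O →+* k) d]
    exact Algebra.subset_adjoin ⟨_, h2, rfl⟩

end Pool.Agent.MG.G0


end
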