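import Mathlib
import Pool.Agent.KDM.C02
import Pool.Agent.KDM.C06
import Pool.Agent.KDM.C08
import Pool.Agent.KDM.C11
import Pool.Agent.KDM.C14
import Pool.Agent.KDM.C15
import Pool.Agent.KDM.C17
import Pool.Agent.KDM.C22
import Pool.Agent.KDM.C24
import Pool.Agent.KDM.C25
import Pool.Agent.KDM.C26
import Pool.Agent.KDM.C28
import Pool.Agent.KDM.C39
import Pool.Agent.KDM.C54

/-! Parts: MG.WL.LCE, MG.KX.KBW, MG.G0.AWD, MG.G0.GST, MG.G0.GFR, MG.G0.MAL, MG.G0.PL1, MG.G0.POA, MG.G0.TCA, MG.G0.ZQN -/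

section

/-!
# Local coordinates at the section
-/

open CategoryTheory CategoryTheory.Limits AlgebraicGeometry TensorProduct

namespace Pool.Agent.MG.WL

open Pool.Agent.MG.GLU

namespace LCEx

section coefs

variable {A : Type} [CommRing A] {X : Scheme.{0}} (π : X ⟶ Sp A) {V : X.Opens}
  (hV : IsAffineOpen V)

include hV

theorem coef_flat [Flat π] : (coef π V).Flat :=
  (HasRingHomProperty.Spec_iff (P := @Flat) (φ := CommRingCat.ofHom (coef π V))).1 (by
    show Flat (spMap (coef π V))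
    rw [← NOD.fromSpec_coef π hV]
    infer_instance)

theorem coef_fp [LocallyOfFinitePresentation π] : (coef π V).FinitePresentation :=
  (HasRingHomProperty.Spec_iff (P := @LocallyOfFinitePresentation)
    (φ := CommRingCat.ofHom (coef π V))).1 (by
    show LocallyOfFinitePresentation (spMap (coef π V))
    rw [← NOD.fromSpec_coef π hV]
    infer_instance)

theorem coef_smooth {U : X.Opens} (hU : Smooth (U.ι ≫ π)) (h : V ≤ U) : (coef π V).Smooth :=
  (HasRingHomProperty.Spec_iff (P := @Smooth) (φ := CommRingCat.ofHom (coef π V))).1 (by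
    show Smooth (spMap (coef π V))
    rw [← NOD.fromSpec_coef π hV]
    have h1 : hV.fromSpec ≫ π = hV.isoSpec.inv ≫ X.homOfLE h ≫ U.ι ≫ π := by
      rw [X.homOfLE_ι_assoc]
      rfl
    rw [h1]
    infer_instance)

end coefs

section points

theorem mem_basicOpen_gm {A : Type} [CommRing A] {X : Scheme.{0}} (i : Sp A ⟶ X) (W : X.Opens)
    (h : ⊤ ≤ i ⁻¹ᵁ W) (v : Γ(X, W)) (x : Sp A) :
    i x ∈ X.basicOpen v ↔ gm i W h v ∉ x.asIdeal := by
  have h1 : x ∈ i ⁻¹ᵁ (X.basicOpen v) ↔ x ∈ (Sp A).basicOpen (i.appLE W ⊤ h v) := by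
    rw [Scheme.basicOpen_appLE, top_inf_eq]
  rw [basicOpen_eq_of_affine'] at h1
  exact h1

variable {A : Type} [CommRing A] {C : Fam 1 A} (V : C.X.Opens) (le : ⊤ ≤ (C.σ 0) ⁻¹ᵁ V)
  {B : Type} [CommRing B] {φ : A →+* B} {y : Fam 1 B} (a : Arrow φ y C)

include le

theorem le_pre : ⊤ ≤ (y.σ 0) ⁻¹ᵁ (a.f ⁻¹ᵁ V) := by
  intro x _
  show a.f (y.σ 0 x) ∈ V
  rw [← Scheme.Hom.comp_apply, a.sec 0, Scheme.Hom.comp_apply]
  exact le (show spMap φ x ∈ (⊤ : (Sp A).Opens) from trivial)

theorem gm_pre (r : Γ(C.X, V)) : gm (y.σ 0) (a.f ⁻¹ᵁ V) (le_pre V le a)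
    ((a.f.appLE V (a.f ⁻¹ᵁ V) le_rfl).hom r) = φ (gm (C.σ 0) V le r) :=
  gm_nat a.f (C.σ 0) (y.σ 0) φ (a.sec 0) V _ le _ le_rfl r

end points

section fibre

variable {A : Type} [CommRing A] {C : Fam 1 A} {V : C.X.Opens} (hV : IsAffineOpen V)
  (le : ⊤ ≤ (C.σ 0) ⁻¹ᵁ V)

/-- Evaluation at the section. -/
noncomputable def secAlg :
    letI := (coef C.π V).toAlgebra
    Γ(C.X, V) →ₐ[A] A :=
  letI := (coef C.π V).toAlgebra
  { gm (C.σ 0) V le with
    commutes' := fun x => gm_coef (C.σ 0) C.π (RingHom.id A) (by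
      rw [C.sec]
      exact (Spec.map_id _).symm) V le x }

include hV in
theorem exists_smooth {k : Type} [Field k] {ψ : A →+* k} {z : Fam 1 k} (a : Arrow ψ z C)
    (hz : StableCurve 1 z) :
    letI := ψ.toAlgebra
    letI := (coef C.π V).toAlgebra
    ∃ h : k ⊗[A] Γ(C.X, V), ev (secAlg le) k h ≠ 0 ∧ Algebra.Smooth k (Localization.Away h) := by
  let _ : Algebra A k := ψ.toAlgebra
  let _ : Algebra A Γ(C.X, V) := (coef C.π V).toAlgebra
  obtain ⟨e, he⟩ := tp_affine a hV
  have hVz : IsAffineOpen (a.f ⁻¹ᵁ V) := pre_affine a hV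
  let lez := le_pre V le a
  let pt : Sp k := IsLocalRing.closedPoint k
  obtain ⟨U, hU, hsm⟩ := hz.smooth 0 pt
  obtain ⟨h0, h1, h2⟩ := hVz.exists_basicOpen_le (V := U) ⟨z.σ 0 pt, hU⟩ (lez trivial)
  have hev : ∀ w, gm (z.σ 0) (a.f ⁻¹ᵁ V) lez (e w) = ev (secAlg le) k w := by
    intro w
    induction w with
    | zero => rw [map_zero, map_zero, map_zero]
    | tmul b r =>
      rw [he, map_mul, ev_tmul]
      congr 1
      · exact gm_coef (z.σ 0) z.π (RingHom.id k) (by
          rw [z.sec]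
          exact (Spec.map_id _).symm) _ lez b
      · exact gm_pre V le a r
    | add x y hx hy => rw [map_add, map_add, map_add, hx, hy]
  refine ⟨e.symm h0, ?_, ?_⟩
  · rw [← hev, RingEquiv.apply_symm_apply]
    intro h3
    have h4 := (mem_basicOpen_gm (z.σ 0) (a.f ⁻¹ᵁ V) lez h0 pt).1 h2
    rw [h3] at h4
    exact h4 (Ideal.zero_mem _)
  · have h3 : (coef z.π (z.X.basicOpen h0)).Smooth :=
      coef_smooth z.π (hVz.basicOpen h0) hsm h1
    have h4 : IsLocalization.Away h0 Γ(z.X, z.X.basicOpen h0) := hVz.isLocalization_basicOpen h0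
    let E : Localization.Away (e.symm h0) ≃+* Γ(z.X, z.X.basicOpen h0) :=
      IsLocalization.ringEquivOfRingEquiv (M := Submonoid.powers (e.symm h0))
        (T := Submonoid.powers h0) _ _ e (by
          rw [Submonoid.map_powers]
          congr 1
          exact e.apply_symm_apply h0)
    let _ : Algebra k Γ(z.X, z.X.basicOpen h0) := (coef z.π (z.X.basicOpen h0)).toAlgebra
    have h5 : Algebra.Smooth k Γ(z.X, z.X.basicOpen h0) := h3
    let E' : Localization.Away (e.symm h0) ≃ₐ[k] Γ(z.X, z.X.basicOpen h0) :=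
      AlgEquiv.ofRingEquiv (f := E) (fun c => by
        rw [IsScalarTower.algebraMap_apply k (k ⊗[A] Γ(C.X, V)),
          IsLocalization.ringEquivOfRingEquiv_eq, Algebra.TensorProduct.algebraMap_apply, he,
          map_one, mul_one]
        exact coef_rs z.π _ c)
    exact .of_equiv E'.symm

/-- A smooth affine open set of a nodal curve has relative dimension one. -/
theorem relDim_one {k : Type} [Field k] {X : Scheme.{0}} (π : X ⟶ Sp k) (hnod : Nodal π)
    {W : X.Opens} (hW : IsAffineOpen W) {x : X} (hx : x ∈ W)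
    (hss : (coef π W).IsStandardSmooth) : (coef π W).IsStandardSmoothOfRelativeDimension 1 := by
  obtain ⟨Y, f, h, hf, hh, hcomm, y, hy⟩ := hnod x
  have hyV : y ∈ f ⁻¹ᵁ W := by
    show f y ∈ W
    rw [hy]; exact hx
  obtain ⟨_, ⟨W', hW', rfl⟩, hyW, hWV⟩ :=
    Y.isBasis_affineOpens.exists_subset_of_mem_open hyV (f ⁻¹ᵁ W).isOpen
  have hle : W' ≤ f ⁻¹ᵁ W := hWV
  have hWne : Nonempty W' := ⟨⟨y, hyW⟩⟩
  have hnt : Nontrivial Γ(Y, W') := inferInstance
  let _ : Algebra k Γ(X, W) := (coef π W).toAlgebra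
  let _ : Algebra Γ(X, W) Γ(Y, W') := (f.appLE W W' hle).hom.toAlgebra
  let _ : Algebra k Γ(Y, W') := (coef (f ≫ π) W').toAlgebra
  have hst : IsScalarTower k Γ(X, W) Γ(Y, W') := .of_algebraMap_eq' (by
    ext c
    exact (coef_comp π f W W' hle c).symm)
  have het : Algebra.Etale Γ(X, W) Γ(Y, W') := f.etale_appLE hW hW' hle
  have hss' : Algebra.IsStandardSmooth k Γ(X, W) := hss
  let β : NodeRing k →+* Γ(Y, W') := coef h W'
  have hβ : β.Etale := by
    have h1 : (h.appLE ⊤ W' (fun _ _ => trivial)).hom.Etale :=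
      h.etale_appLE (isAffineOpen_top _) hW' _
    exact RingHom.Etale.respectsIso.2 (h.appLE ⊤ W' (fun _ _ => trivial)).hom
      (Scheme.ΓSpecIso (.of (NodeRing k))).symm.commRingCatIsoToRingEquiv h1
  have hβK : ∀ c, β (algebraMap k (NodeRing k) c) = algebraMap k Γ(Y, W') c := by
    intro c
    show coef h W' (algebraMap k (NodeRing k) c) = coef (f ≫ π) W' c
    rw [hcomm, coef_spMap]
  exact SmNod.relDim β hβ hβK

theorem exists_geo (p : PrimeSpectrum A) (hC : IsStable 1 C) (hV : IsAffineOpen V) :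
    ∃ t g : Γ(C.X, V), gm (C.σ 0) V le t = 0 ∧ gm (C.σ 0) V le g ∉ p.asIdeal ∧
      (∀ r, gm (C.σ 0) V le r = 0 → ∃ u, g * r = t * u) ∧
      (Polynomial.eval₂RingHom (coef C.π (C.X.basicOpen g))
        (rs C.X (C.X.basicOpen_le g) t)).Flat := by
  let _ : Algebra A Γ(C.X, V) := (coef C.π V).toAlgebra
  have := hC.flat
  have := hC.fp
  have hfl : Module.Flat A Γ(C.X, V) := coef_flat C.π hV
  have hfp : Algebra.FinitePresentation A Γ(C.X, V) := coef_fp C.π hV
  let s : Γ(C.X, V) →ₐ[A] A := secAlg le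
  let P : Ideal A := p.asIdeal
  have hP : P.IsPrime := p.isPrime
  let q : Ideal Γ(C.X, V) := P.comap s
  have hq : q.IsPrime := Ideal.IsPrime.comap _
  obtain ⟨k, _, _, _, hka⟩ : ∃ (k : Type) (_ : Field k) (_ : IsAlgClosed k)
      (_ : Algebra P.ResidueField k), Algebra.IsAlgebraic P.ResidueField k :=
    ⟨AlgebraicClosure P.ResidueField, inferInstance, inferInstance, inferInstance, inferInstance⟩
  let ψ : A →+* k := (algebraMap P.ResidueField k).comp (algebraMap A P.ResidueField)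
  let _ : Algebra A k := ψ.toAlgebra
  have hst : IsScalarTower A P.ResidueField k := .of_algebraMap_eq' rfl
  let z : Fam 1 k := PBS.bc ψ C
  let a : Arrow ψ z C := PBS.bcArrow ψ C
  have hz : StableCurve 1 z := hC.fib k ψ z ⟨a⟩
  obtain ⟨h, hh, hsm⟩ := exists_smooth hV le a hz
  have hsq : Algebra.IsSmoothAt A q := isSmoothAt s P q rfl k h hh hsm
  obtain ⟨g0, hg0, hss⟩ := Algebra.IsSmoothAt.exists_notMem_isStandardSmooth A q
  -- the rank
  let W := C.X.basicOpen g0
  have hW : IsAffineOpen W := hV.basicOpen g0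
  have hWl : IsLocalization.Away g0 Γ(C.X, W) := hV.isLocalization_basicOpen g0
  let _ : Algebra A Γ(C.X, W) := (coef C.π W).toAlgebra
  have hst2 : IsScalarTower A Γ(C.X, V) Γ(C.X, W) := .of_algebraMap_eq fun c =>
    (coef_rs C.π (C.X.basicOpen_le g0) c).symm
  have hss2 : Algebra.IsStandardSmooth A Γ(C.X, W) :=
    .of_algEquiv ((IsLocalization.algEquiv (Submonoid.powers g0) (Localization.Away g0)
      Γ(C.X, W)).restrictScalars A)
  obtain ⟨e, he⟩ := tp_affine a hW
  let _ : Algebra k Γ(z.X, a.f ⁻¹ᵁ W) := (coef z.π (a.f ⁻¹ᵁ W)).toAlgebra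
  let e' : k ⊗[A] Γ(C.X, W) ≃ₐ[k] Γ(z.X, a.f ⁻¹ᵁ W) := AlgEquiv.ofRingEquiv (f := e) (fun c => by
    rw [Algebra.TensorProduct.algebraMap_apply, he, map_one, mul_one]
    rfl)
  have hss3 : Algebra.IsStandardSmooth k Γ(z.X, a.f ⁻¹ᵁ W) := .of_algEquiv e'
  let pt : Sp k := IsLocalRing.closedPoint k
  have hpt : z.σ 0 pt ∈ a.f ⁻¹ᵁ W := by
    show a.f (z.σ 0 pt) ∈ C.X.basicOpen g0
    rw [← Scheme.Hom.comp_apply, a.sec 0, Scheme.Hom.comp_apply,
      mem_basicOpen_gm (C.σ 0) V le g0]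
    intro h1
    have h2 : ψ (gm (C.σ 0) V le g0) ∈ IsLocalRing.maximalIdeal k := h1
    rw [IsLocalRing.mem_maximalIdeal, mem_nonunits_iff, isUnit_iff_ne_zero, not_not] at h2
    have h3 : algebraMap A P.ResidueField (gm (C.σ 0) V le g0) = 0 :=
      (algebraMap P.ResidueField k).injective (by rw [map_zero]; exact h2)
    have h4 : gm (C.σ 0) V le g0 ∈ P := Ideal.algebraMap_residueField_eq_zero.1 h3
    exact hg0 h4
  have hrd : Algebra.IsStandardSmoothOfRelativeDimension 1 k Γ(z.X, a.f ⁻¹ᵁ W) :=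
    relDim_one z.π hz.nodal (pre_affine a hW) hpt hss3
  have hne : Nonempty (a.f ⁻¹ᵁ W : z.X.Opens) := ⟨⟨_, hpt⟩⟩
  have hnt : Nontrivial Γ(z.X, a.f ⁻¹ᵁ W) := inferInstance
  obtain ⟨t, g, ht, hg, hmul, hflat⟩ := exists_coord s q
    (fun x hx => by
      show s x ∈ P
      rw [show s x = 0 from hx]
      exact P.zero_mem)
    (unique_of_relDim q k g0 hg0 Γ(C.X, W) Γ(z.X, a.f ⁻¹ᵁ W) e'.symm)
  refine ⟨t, g, ht, hg, hmul, ?_⟩
  have hgl : IsLocalization.Away g Γ(C.X, C.X.basicOpen g) := hV.isLocalization_basicOpen g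
  let E : Localization.Away g ≃ₐ[Γ(C.X, V)] Γ(C.X, C.X.basicOpen g) :=
    IsLocalization.algEquiv (Submonoid.powers g) _ _
  have hE : (E : Localization.Away g →+* Γ(C.X, C.X.basicOpen g)).Flat :=
    RingHom.Flat.of_bijective E.bijective
  have h1 := hflat.comp hE
  have h2 : (Polynomial.eval₂RingHom (coef C.π (C.X.basicOpen g))
        (rs C.X (C.X.basicOpen_le g) t)) = (E : Localization.Away g →+* Γ(C.X, C.X.basicOpen g)).comp
        ((algebraMap Γ(C.X, V) (Localization.Away g)).comp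
          (Polynomial.aeval t : Polynomial A →ₐ[A] Γ(C.X, V)).toRingHom) := by
    apply Polynomial.ringHom_ext
    · intro c
      rw [Polynomial.coe_eval₂RingHom, Polynomial.eval₂_C]
      show _ = E (algebraMap _ _ (Polynomial.aeval t (Polynomial.C c)))
      rw [Polynomial.aeval_C, AlgEquiv.commutes]
      exact (coef_rs C.π (C.X.basicOpen_le g) c).symm
    · rw [Polynomial.coe_eval₂RingHom, Polynomial.eval₂_X]
      show _ = E (algebraMap _ _ (Polynomial.aeval t Polynomial.X))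
      rw [Polynomial.aeval_X, AlgEquiv.commutes]
      rfl
  rw [h2]
  exact h1

end fibre

section final

variable {A : Type} [CommRing A] {C : Fam 1 A} {V : C.X.Opens} (hV : IsAffineOpen V)
  (le : ⊤ ≤ (C.σ 0) ⁻¹ᵁ V) (t g : Γ(C.X, V)) (ht : gm (C.σ 0) V le t = 0)
  (hmul : ∀ r, gm (C.σ 0) V le r = 0 → ∃ u, g * r = t * u)
  {B : Type} [CommRing B] {φ : A →+* B} {y : Fam 1 B} (b : Arrow φ y C)

include hV hmul in
theorem dvd_of_gm (r : Γ(y.X, b.f ⁻¹ᵁ V))
    (hr : gm (y.σ 0) (b.f ⁻¹ᵁ V) (le_pre V le b) r = 0) :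
    (b.f.appLE V (b.f ⁻¹ᵁ V) le_rfl).hom t ∣ (b.f.appLE V (b.f ⁻¹ᵁ V) le_rfl).hom g * r := by
  let α := (b.f.appLE V (b.f ⁻¹ᵁ V) le_rfl).hom
  let _ : Algebra A B := φ.toAlgebra
  let _ : Algebra A Γ(C.X, V) := (coef C.π V).toAlgebra
  obtain ⟨e, he⟩ := tp_affine b hV
  let s : Γ(C.X, V) →ₐ[A] A := secAlg le
  let J : Ideal (B ⊗[A] Γ(C.X, V)) :=
    { carrier := {w | α t ∣ α g * e w}
      add_mem' := fun {x y} hx hy => by
        show α t ∣ α g * e (x + y)
        rw [map_add, mul_add]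
        exact dvd_add hx hy
      zero_mem' := by
        show α t ∣ α g * e 0
        rw [map_zero, mul_zero]
        exact dvd_zero _
      smul_mem' := fun c x hx => by
        show α t ∣ α g * e (c * x)
        rw [map_mul, mul_left_comm]
        exact Dvd.dvd.mul_left hx _ }
  have hev : ∀ w, gm (y.σ 0) (b.f ⁻¹ᵁ V) (le_pre V le b) (e w) = ev s B w := by
    intro w
    induction w with
    | zero => rw [map_zero, map_zero, map_zero]
    | tmul c r =>
      rw [he, map_mul, ev_tmul]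
      congr 1
      · exact gm_coef (y.σ 0) y.π (RingHom.id B) (by
          rw [y.sec]
          exact (Spec.map_id _).symm) _ _ c
      · exact gm_pre V le b r
    | add x y hx hy => rw [map_add, map_add, map_add, hx, hy]
  have h1 := mem_of_ev s B J (fun r hr => by
    show α t ∣ α g * e (1 ⊗ₜ r)
    rw [he, map_one, one_mul]
    obtain ⟨u, hu⟩ := hmul r hr
    refine ⟨α u, ?_⟩
    show α g * α r = α t * α u
    rw [← map_mul, hu, map_mul]) (e.symm r)
  rw [← hev, RingEquiv.apply_symm_apply, hr, TensorProduct.zero_tmul, sub_zero] at h1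
  have h2 : α t ∣ α g * e (e.symm r) := h1
  rwa [RingEquiv.apply_symm_apply] at h2

theorem gm_res {X : Scheme.{0}} (i : Sp B ⟶ X) {W W' : X.Opens} (hW : W' ≤ W)
    (h : ⊤ ≤ i ⁻¹ᵁ W) (h' : ⊤ ≤ i ⁻¹ᵁ W') (v : Γ(X, W)) :
    gm i W' h' (rs X hW v) = gm i W h v :=
  gm_rs i (RingHom.id B) i (by
    have : spMap (RingHom.id B) = 𝟙 _ := Spec.map_id _
    rw [this, Category.id_comp]) hW h h' v

include hV ht hmul b in
theorem exists_lc (hy : IsStable 1 y)
    (hflat : (Polynomial.eval₂RingHom (coef C.π (C.X.basicOpen g))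
        (rs C.X (C.X.basicOpen_le g) t)).Flat)
    (hloc : letI := φ.toAlgebra; IsLocalization.Away (gm (C.σ 0) V le g) B) :
    Nonempty (LC y) := by
  let _ : Algebra A B := φ.toAlgebra
  have hloc' : IsLocalization.Away (gm (C.σ 0) V le g) B := hloc
  let α : Γ(C.X, V) →+* Γ(y.X, b.f ⁻¹ᵁ V) := (b.f.appLE V (b.f ⁻¹ᵁ V) le_rfl).hom
  have hV' : IsAffineOpen (b.f ⁻¹ᵁ V) := pre_affine b hV
  let le' := le_pre V le b
  have hα : ∀ r, gm (y.σ 0) (b.f ⁻¹ᵁ V) le' (α r) = φ (gm (C.σ 0) V le r) := gm_pre V le b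
  let W : y.X.Opens := y.X.basicOpen (α g)
  have hW : IsAffineOpen W := hV'.basicOpen (α g)
  have hWl : IsLocalization.Away (α g) Γ(y.X, W) := hV'.isLocalization_basicOpen (α g)
  have hWle : W ≤ b.f ⁻¹ᵁ V := y.X.basicOpen_le _
  have hu : IsUnit (gm (y.σ 0) (b.f ⁻¹ᵁ V) le' (α g)) := by
    rw [hα]
    exact IsLocalization.Away.algebraMap_isUnit (gm (C.σ 0) V le g)
  have leW : ⊤ ≤ (y.σ 0) ⁻¹ᵁ W := by
    intro x _
    show y.σ 0 x ∈ y.X.basicOpen (α g)
    rw [mem_basicOpen_gm (y.σ 0) (b.f ⁻¹ᵁ V) le']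
    intro h1
    exact x.isPrime.ne_top (Ideal.eq_top_of_isUnit_mem _ h1 hu)
  let tW : Γ(y.X, W) := rs y.X hWle (α t)
  have hgm : ∀ v, gm (y.σ 0) W leW (rs y.X hWle v) = gm (y.σ 0) (b.f ⁻¹ᵁ V) le' v :=
    gm_res (y.σ 0) hWle le' leW
  have htW : gm (y.σ 0) W leW tW = 0 := by
    rw [hgm, hα, ht, map_zero]
  have hker : ∀ r : Γ(y.X, W), gm (y.σ 0) W leW r = 0 ↔ ∃ s, r = tW * s := by
    intro r
    constructor
    · intro hr
      obtain ⟨n, r', hr'⟩ := IsLocalization.Away.surj (α g) r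
      have h1 : gm (y.σ 0) (b.f ⁻¹ᵁ V) le' r' = 0 := by
        rw [← hgm]
        have h2 : rs y.X hWle r' = r * algebraMap _ Γ(y.X, W) (α g) ^ n := hr'.symm
        rw [h2, map_mul, hr, zero_mul]
      obtain ⟨u, hu'⟩ := dvd_of_gm hV le t g hmul b r' h1
      have h3 : IsUnit (algebraMap _ Γ(y.X, W) (α g) ^ (n + 1)) :=
        (IsLocalization.Away.algebraMap_isUnit (α g)).pow _
      obtain ⟨w, hw⟩ := h3.exists_right_inv
      refine ⟨rs y.X hWle u * w, ?_⟩
      have h4 : algebraMap _ Γ(y.X, W) (α g) * rs y.X hWle r' = tW * rs y.X hWle u := by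
        show rs y.X hWle (α g) * rs y.X hWle r' = rs y.X hWle (α t) * rs y.X hWle u
        rw [← map_mul, ← map_mul]
        exact congrArg _ hu'
      have h5 : rs y.X hWle r' = r * algebraMap _ Γ(y.X, W) (α g) ^ n := hr'.symm
      calc r = r * (algebraMap _ Γ(y.X, W) (α g) ^ (n + 1) * w) := by rw [hw, mul_one]
        _ = (algebraMap _ Γ(y.X, W) (α g) * (r * algebraMap _ Γ(y.X, W) (α g) ^ n)) * w := by
          ring
        _ = tW * (rs y.X hWle u * w) := by rw [← h5, h4]; ring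
    · rintro ⟨s, rfl⟩
      rw [map_mul, htW, zero_mul]
  have hprop := hy.proper
  have hsep : IsSeparated y.π := inferInstance
  have hcl : IsClosedImmersion (y.σ 0) := by
    have h1 : IsClosedImmersion (y.σ 0 ≫ y.π) := by
      rw [y.sec]
      infer_instance
    exact IsClosedImmersion.of_comp (y.σ 0) y.π
  have hclosed : IsClosed (Set.range (y.σ 0)) := (y.σ 0).isClosedEmbedding.isClosed_range
  have hsurj : Function.Surjective (gm (y.σ 0) W leW) := by
    intro c
    refine ⟨coef y.π W c, ?_⟩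
    exact gm_coef (y.σ 0) y.π (RingHom.id B) (by
      rw [y.sec]
      exact (Spec.map_id _).symm) W leW c
  have hflatW : (Polynomial.eval₂RingHom (coef y.π W) tW).Flat := by
    apply flat_of_localization (A := A) (Submonoid.powers (gm (C.σ 0) V le g))
    have hfl : Flat b.f := by
      have h1 : Flat (spMap φ) := Flat.SpecMap_iff.2
        (IsLocalization.flat B (Submonoid.powers (gm (C.σ 0) V le g)))
      exact MorphismProperty.of_isPullback (P := @Flat) b.cart.flip h1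
    have hle : W ≤ b.f ⁻¹ᵁ (C.X.basicOpen g) := by
      have h1 := Scheme.basicOpen_appLE b.f (b.f ⁻¹ᵁ V) V le_rfl g
      have h2 : W = b.f ⁻¹ᵁ V ⊓ b.f ⁻¹ᵁ (C.X.basicOpen g) := h1
      rw [h2]
      exact inf_le_right
    have h1 : (b.f.appLE (C.X.basicOpen g) W hle).hom.Flat :=
      b.f.flat_appLE (hV.basicOpen g) hW hle
    have h2 := hflat.comp h1
    have h3 : (Polynomial.eval₂RingHom ((coef y.π W).comp (algebraMap A B)) tW) =
        (b.f.appLE (C.X.basicOpen g) W hle).hom.comp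
          (Polynomial.eval₂RingHom (coef C.π (C.X.basicOpen g))
            (rs C.X (C.X.basicOpen_le g) t)) := by
      apply Polynomial.ringHom_ext
      · intro c
        rw [RingHom.comp_apply, Polynomial.coe_eval₂RingHom, Polynomial.coe_eval₂RingHom,
          Polynomial.eval₂_C, Polynomial.eval₂_C, coef_comp, b.cart.w, coef_spMap]
        rfl
      · rw [RingHom.comp_apply, Polynomial.coe_eval₂RingHom, Polynomial.coe_eval₂RingHom,
          Polynomial.eval₂_X, Polynomial.eval₂_X]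
        show ((b.f.appLE V (b.f ⁻¹ᵁ V) le_rfl) ≫ y.X.presheaf.map (homOfLE hWle).op) t =
          (C.X.presheaf.map (homOfLE (C.X.basicOpen_le g)).op ≫
            b.f.appLE (C.X.basicOpen g) W hle) t
        rw [Scheme.Hom.map_appLE, Scheme.Hom.appLE_map]
    rw [h3]
    exact h2
  refine ⟨{ U := ⟨(Set.range (y.σ 0))ᶜ, hclosed.isOpen_compl⟩
            mU := fun z => Iff.rfl
            V := W
            aff := hW
            le := leW
            t := tW
            bas := ?_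
            ker := hker
            flat := hflatW }⟩
  ext z
  constructor
  · intro hz
    refine ⟨?_, y.X.basicOpen_le _ hz⟩
    rintro ⟨x, rfl⟩
    have h1 := (mem_basicOpen_gm (y.σ 0) W leW tW x).1 hz
    rw [htW] at h1
    exact h1 (Ideal.zero_mem _)
  · rintro ⟨hz, hzW⟩
    by_contra h1
    apply hz
    obtain ⟨Q, rfl⟩ : z ∈ Set.range hW.fromSpec := by
      rw [hW.range_fromSpec]
      exact hzW
    have h2 : tW ∈ Q.asIdeal := by
      by_contra h3
      apply h1
      have h4 : Q ∈ hW.fromSpec ⁻¹ᵁ (y.X.basicOpen tW) := by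
        rw [hW.fromSpec_preimage_basicOpen]
        exact h3
      exact h4
    have h3 : Q ∈ Set.range (PrimeSpectrum.comap (gm (y.σ 0) W leW)) := by
      rw [range_comap_of_surjective _ _ hsurj]
      intro r hr
      obtain ⟨s, rfl⟩ := (hker r).1 hr
      exact Q.asIdeal.mul_mem_right _ h2
    obtain ⟨x, rfl⟩ := h3
    refine ⟨x, ?_⟩
    conv_lhs => rw [eq_fromSpec (y.σ 0) W hW leW]
    exact Scheme.Hom.comp_apply _ _ _

end final

section fibre

end fibre

/-- Local coordinates exist near `p` if the section is contained in the affine open set `V`. -/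
theorem exists_lc_near {A : Type} [CommRing A] {C : Fam 1 A} {V : C.X.Opens}
    (hV : IsAffineOpen V) (le : ⊤ ≤ (C.σ 0) ⁻¹ᵁ V) (p : PrimeSpectrum A) (hC : IsStable 1 C) :
    ∃ f : A, f ∉ p.asIdeal ∧
      Nonempty (LC (PBS.bc (algebraMap A (Localization.Away f)) C)) := by
  obtain ⟨t, g, ht, hg, hmul, hflat⟩ := exists_geo le p hC hV
  refine ⟨gm (C.σ 0) V le g, hg, ?_⟩
  refine exists_lc hV le t g ht hmul (PBS.bcArrow _ C) (PBS.bc_stable _ C hC) hflat ?_
  have h1 : (algebraMap A (Localization.Away (gm (C.σ 0) V le g))).toAlgebra =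
      (inferInstance : Algebra A (Localization.Away (gm (C.σ 0) V le g))) := by
    apply Algebra.algebra_ext
    intro r
    rfl
  rw [h1]
  infer_instance

end LCEx

open _root_.Pool.Agent.MG.WL.LCEx in
theorem t_LCE (hB : Stmt_LCB) : Stmt_LCE := by
  intro A _ _ C hC p
  -- an affine neighbourhood of the point of the section over `p`
  obtain ⟨_, ⟨V, hV, rfl⟩, hpV, -⟩ :=
    C.X.isBasis_affineOpens.exists_subset_of_mem_open (Set.mem_univ (C.σ 0 p)) isOpen_univ
  obtain ⟨_, ⟨_, ⟨f1, rfl⟩, rfl⟩, hpf, hfV⟩ :=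
    PrimeSpectrum.isBasis_basic_opens.exists_subset_of_mem_open
      (show p ∈ ((C.σ 0) ⁻¹ᵁ V : (Sp A).Opens) from hpV) ((C.σ 0) ⁻¹ᵁ V).isOpen
  let B := Localization.Away f1
  let φ : A →+* B := algebraMap A B
  let C1 : Fam 1 B := PBS.bc φ C
  let a1 : Arrow φ C1 C := PBS.bcArrow φ C
  have hC1 : IsStable 1 C1 := PBS.bc_stable φ C hC
  have hV1 : IsAffineOpen (a1.f ⁻¹ᵁ V) := pre_affine a1 hV
  have le1 : ⊤ ≤ (C1.σ 0) ⁻¹ᵁ (a1.f ⁻¹ᵁ V) := by
    intro x _
    show a1.f (C1.σ 0 x) ∈ V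
    rw [← Scheme.Hom.comp_apply, a1.sec 0, Scheme.Hom.comp_apply]
    apply hfV
    show f1 ∉ (spMap φ x).asIdeal
    intro h1
    exact x.isPrime.ne_top (Ideal.eq_top_of_isUnit_mem _ h1
      (IsLocalization.Away.algebraMap_isUnit f1))
  -- the prime ideal
  obtain ⟨p1, hp1⟩ : p ∈ Set.range (PrimeSpectrum.comap φ) := by
    rw [PrimeSpectrum.localization_away_comap_range B f1]
    exact hpf
  obtain ⟨g, hg, ⟨L⟩⟩ := exists_lc_near hV1 le1 p1 hC1
  -- clear denominators
  obtain ⟨n, g', hg'⟩ := IsLocalization.Away.surj f1 g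
  let f : A := f1 * g'
  have hf : f ∉ p.asIdeal := by
    intro h1
    rcases p.isPrime.mem_or_mem h1 with h2 | h2
    · exact hpf h2
    · rw [← hp1] at h2
      have h3 : φ g' ∈ p1.asIdeal := h2
      rw [← hg'] at h3
      rcases p1.isPrime.mem_or_mem h3 with h4 | h4
      · exact hg h4
      · exact p1.isPrime.ne_top (Ideal.eq_top_of_isUnit_mem _ h4
          ((IsLocalization.Away.algebraMap_isUnit f1).pow n))
  refine ⟨f, hf, ?_⟩
  let D := Localization.Away f
  have hfu : IsUnit (algebraMap A D f) := IsLocalization.Away.algebraMap_isUnit f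
  have hf1 : IsUnit (algebraMap A D f1) := by
    rw [map_mul] at hfu
    exact isUnit_of_mul_isUnit_left hfu
  have hg1 : IsUnit (algebraMap A D g') := by
    rw [map_mul] at hfu
    exact isUnit_of_mul_isUnit_right hfu
  let u1 : B →+* D := IsLocalization.Away.lift f1 hf1
  have hu1 : u1.comp φ = algebraMap A D := IsLocalization.Away.lift_comp f1 hf1
  have hgu : IsUnit (u1 g) := by
    have h1 : u1 (g * algebraMap A B f1 ^ n) = algebraMap A D g' := by
      rw [hg']
      exact RingHom.congr_fun hu1 g'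
    rw [map_mul] at h1
    rw [← h1] at hg1
    exact isUnit_of_mul_isUnit_left hg1
  let u2 : Localization.Away g →+* D := IsLocalization.Away.lift g hgu
  have hu2 : u2.comp (algebraMap B (Localization.Away g)) = u1 := IsLocalization.Away.lift_comp g hgu
  let a2 : Arrow (algebraMap B (Localization.Away g)) (PBS.bc (algebraMap B (Localization.Away g)) C1)
    C1 := PBS.bcArrow _ C1
  let a12 : Arrow ((algebraMap B (Localization.Away g)).comp φ)
    (PBS.bc (algebraMap B (Localization.Away g)) C1) C := PBS.comp a2 a1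
  have hu3 : u2.comp ((algebraMap B (Localization.Away g)).comp φ) = algebraMap A D := by
    rw [← RingHom.comp_assoc, hu2, hu1]
  let z : Fam 1 D := PBS.bc (algebraMap A D) C
  have hz : Nonempty (Arrow (u2.comp ((algebraMap B (Localization.Away g)).comp φ)) z C) := by
    rw [hu3]
    exact ⟨PBS.bcArrow _ C⟩
  obtain ⟨e⟩ := hz
  obtain ⟨L', -⟩ := hB (arrowLift e a12) L
  exact ⟨L'⟩

end Pool.Agent.MG.WL


end

section

/-!
# KBW: the charts of the curve of a Krichever ring are compatible with base change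
-/

open CategoryTheory CategoryTheory.Limits AlgebraicGeometry TensorProduct

namespace Pool.Agent.MG.KX

open Pool.Agent.MG.G0 Pool.Agent.MG.GLU

namespace KBW

/-- A square of spectra is cartesian if the ring is the tensor product. -/
theorem pull_of_bij {A B R S : Type} [CommRing A] [CommRing B] [CommRing R] [CommRing S]
    [Algebra A B] [Algebra A R] [Algebra B S] (f : R →+* S)
    (hf : ∀ a, f (algebraMap A R a) = algebraMap B S (algebraMap A B a))
    (e : (B ⊗[A] R) ≃ₐ[B] S) (he : ∀ (b : B) (r : R), e (b ⊗ₜ r) = b • f r) :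
    IsPullback (spMap f) (spMap (algebraMap B S)) (spMap (algebraMap A R))
      (spMap (algebraMap A B)) := by
  apply spec_isPullback
  · exact RingHom.ext hf
  · intro T _ f' g h
    have h' : ∀ a, f' (algebraMap A R a) = g (algebraMap A B a) := fun a =>
      congrArg (fun k => k a) h
    let _ : Algebra B T := g.toAlgebra
    obtain ⟨k, hk⟩ := KBT.exists_lift (B := B) f' h'
    refine ⟨(k : (B ⊗[A] R) →+* T).comp (e.symm : S →+* (B ⊗[A] R)), ?_, ?_⟩
    · refine RingHom.ext fun r => ?_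
      change k (e.symm (f r)) = f' r
      have h1 : e.symm (f r) = 1 ⊗ₜ r := by
        rw [AlgEquiv.symm_apply_eq, he, one_smul]
      rw [h1, hk, one_smul]
    · refine RingHom.ext fun b => ?_
      change k (e.symm (algebraMap B S b)) = g b
      have h1 : e.symm (algebraMap B S b) = b ⊗ₜ 1 := by
        rw [AlgEquiv.symm_apply_eq, he, map_one, Algebra.algebraMap_eq_smul_one]
      rw [h1, hk, map_one, ← Algebra.algebraMap_eq_smul_one]
      rfl
  · intro T _ k k' h1 h2
    have h1' : ∀ r, k (f r) = k' (f r) := fun r => congrArg (fun l => l r) h1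
    have h2' : ∀ b, k (algebraMap B S b) = k' (algebraMap B S b) := fun b =>
      congrArg (fun l => l b) h2
    refine RingHom.ext fun s => ?_
    obtain ⟨x, rfl⟩ := e.surjective s
    induction x using TensorProduct.induction_on with
    | zero => rw [map_zero, map_zero, map_zero]
    | tmul b r => rw [he, Algebra.smul_def, map_mul, map_mul, h1', h2']
    | add x y hx hy => rw [map_add, map_add, map_add, hx, hy]

section

variable {I A B : Type} [CommRing A] [CommRing B]

theorem w_pow {P : Subalgebra A (KK I A)} (z : Pole P) (m : ℕ) :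
    z.w ^ m ∈ Pol I A (-((m * z.d : ℕ) : ℤ)) := by
  induction m with
  | zero =>
    rw [pow_zero, zero_mul, Nat.cast_zero, neg_zero]
    exact one_mem_Pol0
  | succ m ih =>
    have h := mul_mem_Pol ih z.mem
    rw [← pow_succ] at h
    exact Pol_mono (by push_cast; linarith) h

theorem z_pow {P : Subalgebra A (KK I A)} (z : Pole P) (m : ℕ) :
    (z.z : KK I A) ^ m ∈ Pol I A ((m * z.d : ℕ) : ℤ) := by
  induction m with
  | zero =>
    rw [pow_zero, zero_mul, Nat.cast_zero]
    exact one_mem_Pol0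
  | succ m ih =>
    have h := mul_mem_Pol ih z.mon.1
    rw [← pow_succ] at h
    exact Pol_mono (by push_cast; linarith) h

theorem mul_le {P : Subalgebra A (KK I A)} {z : P} {f : KK I A} {n m : ℕ} (h : n ≤ m)
    (hf : (z : KK I A) ^ n * f ∈ P) : (z : KK I A) ^ m * f ∈ P := by
  obtain ⟨k, rfl⟩ := Nat.exists_eq_add_of_le h
  have e : (z : KK I A) ^ (n + k) * f = (z : KK I A) ^ k * ((z : KK I A) ^ n * f) := by ring
  rw [e]
  exact mul_mem (pow_mem z.2 k) hf

theorem zw_pow {P : Subalgebra A (KK I A)} (z : Pole P) (n : ℕ) (f : KK I A) :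
    (z.z : KK I A) ^ n * (z.w ^ n * f) = f := by
  rw [← mul_assoc, ← mul_pow, z.zw, one_pow, one_mul]

theorem wz_pow {P : Subalgebra A (KK I A)} (z : Pole P) (n : ℕ) (f : KK I A) :
    z.w ^ n * ((z.z : KK I A) ^ n * f) = f := by
  rw [← mul_assoc, ← mul_pow, mul_comm z.w, z.zw, one_pow, one_mul]

/-- The retraction of `P[1/z]` to `P[1/z] ∩ O`. -/
theorem exists_ret [Fintype I] (hDEN : Stmt_DEN) {g : ℕ} {P : Subalgebra A (KK I A)}
    (hP : IsKr g P) (z : Pole P) (n : ℕ) : ∃ ρ : P →ₗ[A] Rw P z.z,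
      ∀ (p : P) (r : Rw P z.z), (p : KK I A) = (z.z : KK I A) ^ n * r → ρ p = r := by
  classical
  have h1 : ∀ x : I × ℕ, ∃ r ∈ Rz P z.z, mon x.1 (-((x.2 : ℤ) + 1)) (1 : A) - r ∈ Pol I A 0 := by
    intro x
    obtain ⟨r, hr, hr'⟩ := (hDEN hP z).1 (mon x.1 (-((x.2 : ℤ) + 1)) (1 : A)) 0
    rw [neg_zero] at hr'
    exact ⟨r, hr, hr'⟩
  choose r hr hr' using h1
  let S : ((I × ℕ) →₀ A) →ₗ[A] KK I A := Finsupp.linearCombination A r
  have hSR : ∀ c, S c ∈ Rz P z.z := by
    intro c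
    change Finsupp.linearCombination A r c ∈ Rz P z.z
    rw [Finsupp.linearCombination_apply, Finsupp.sum]
    exact Subalgebra.sum_mem _ fun x _ => (Rz P z.z).smul_mem (hr x) _
  have hSi : ∀ c, KSP.iot c - S c ∈ Pol I A 0 := by
    intro c
    change KSP.iot c - Finsupp.linearCombination A r c ∈ Pol I A 0
    rw [KSP.iot, Finsupp.linearCombination_apply, Finsupp.linearCombination_apply, Finsupp.sum,
      Finsupp.sum, ← Finset.sum_sub_distrib]
    refine (Pol I A 0).sum_mem fun x _ => ?_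
    rw [← smul_sub]
    exact (Pol I A 0).smul_mem _ (hr' x)
  let T : KK I A →ₗ[A] KK I A := LinearMap.id - S ∘ₗ KSP.rho
  have hT : ∀ f, T f = f - S (KSP.rho f) := fun f => rfl
  have hT0 : ∀ f, T f ∈ Pol I A 0 := by
    intro f
    have e : T f = (f - KSP.iot (KSP.rho f)) + (KSP.iot (KSP.rho f) - S (KSP.rho f)) := by
      rw [hT]
      abel
    rw [e]
    exact add_mem (KSP.sub_iot_mem f) (hSi _)
  have hTz : ∀ f ∈ Rz P z.z, T f ∈ Rz P z.z := fun f hf => by
    rw [hT]
    exact sub_mem hf (hSR _)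
  have hTw : ∀ f ∈ Pol I A 0, T f = f := fun f hf => by
    rw [hT, KSP.rho_zero hf, map_zero, sub_zero]
  let U : KK I A →ₗ[A] KK I A := T ∘ₗ LinearMap.mulLeft A (z.w ^ n)
  have hU : ∀ f, U f = T (z.w ^ n * f) := fun f => rfl
  have hUP : ∀ p : P, U p ∈ Rw P z.z := by
    intro p
    rw [hU]
    refine ⟨hTz _ ⟨n, ?_⟩, hT0 _⟩
    rw [zw_pow]
    exact p.2
  refine ⟨LinearMap.codRestrict (Subalgebra.toSubmodule (Rw P z.z))
    (U ∘ₗ (Subalgebra.toSubmodule P).subtype) hUP, fun p q hpq => ?_⟩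
  apply Subtype.ext
  change U (p : KK I A) = q
  rw [hU, hpq, wz_pow, hTw _ q.2.2]

/-- Injectivity. -/
theorem inj [Fintype I] [Nonempty I] [Algebra A B] (hDEN : Stmt_DEN) {g : ℕ}
    {P : Subalgebra A (KK I A)} (hP : IsKr g P) (z : Pole P) (m : ℕ) (b : Fin m → B)
    (r : Fin m → Rw P z.z) (h0 : ∑ k, b k • kmap (algebraMap A B) (r k : KK I A) = 0) :
    ∑ k, b k ⊗ₜ[A] r k = 0 := by
  classical
  have h1 : ∀ k, ∃ n : ℕ, (z.z : KK I A) ^ n * (r k : KK I A) ∈ P := fun k => (r k).2.1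
  choose n' hn' using h1
  let n : ℕ := Finset.univ.sup n'
  have hn : ∀ k, (z.z : KK I A) ^ n * (r k : KK I A) ∈ P := fun k =>
    mul_le (Finset.le_sup (f := n') (Finset.mem_univ k)) (hn' k)
  let p : Fin m → P := fun k => ⟨_, hn k⟩
  have hp : ∀ k, (p k : KK I A) = (z.z : KK I A) ^ n * (r k : KK I A) := fun k => rfl
  obtain ⟨N, hN⟩ := KBT.dense hP
  obtain ⟨s, hs, -⟩ := KSP.exists_sec hP hN
  have h2 : ∑ k, b k • kmap (algebraMap A B) (p k : KK I A) = 0 := by
    have h3 : ∀ k, b k • kmap (algebraMap A B) (p k : KK I A) =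
        kmap (algebraMap A B) ((z.z : KK I A) ^ n) *
          (b k • kmap (algebraMap A B) (r k : KK I A)) := by
      intro k
      rw [hp, map_mul, mul_smul_comm]
    rw [Finset.sum_congr rfl fun k _ => h3 k, ← Finset.mul_sum, h0, mul_zero]
  have h4 := KBT.inj s hs m b p h2
  obtain ⟨ρ, hρ⟩ := exists_ret hDEN hP z n
  have h5 := congrArg (LinearMap.lTensor B ρ) h4
  rw [map_sum, map_zero] at h5
  rw [← h5]
  refine Finset.sum_congr rfl fun k _ => ?_
  rw [LinearMap.lTensor_tmul, hρ (p k) (r k) rfl]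

/-- Surjectivity. -/
theorem surj [Fintype I] [Nonempty I] {g : ℕ}
    {P : Subalgebra A (KK I A)} (hP : IsKr g P) (z : Pole P) (φ : A →+* B) {y : KK I B}
    (hy : y ∈ Rw (G0.bc φ P) (z.bc φ).z) :
    y ∈ Submodule.span B (kmap φ '' (Rw P z.z : Set (KK I A))) := by
  obtain ⟨N, hN⟩ := KBT.dense hP
  obtain ⟨s, hs, hs'⟩ := KSP.exists_sec hP hN
  obtain ⟨⟨n, hn⟩, hy0⟩ := hy
  let m : ℕ := max n N
  have hm : ((z.bc φ).z : KK I B) ^ m * y ∈ G0.bc φ P := mul_le (le_max_left _ _) hn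
  have hmd : (N : ℤ) ≤ ((m * z.d : ℕ) : ℤ) := by
    have h1 : N ≤ m := le_max_right _ _
    have h2 : m * 1 ≤ m * z.d := Nat.mul_le_mul_left m z.pos
    exact_mod_cast le_trans h1 (by omega)
  have h1 : ((z.bc φ).z : KK I B) ^ m * y ∈ G0.PP (G0.bc φ P) ((m * z.d : ℕ) : ℤ) := by
    refine mem_PP.2 ⟨hm, ?_⟩
    have h := mul_mem_Pol (z_pow (z.bc φ) m) hy0
    rw [add_zero] at h
    exact h
  rw [KBC.bc_PP φ s hs hs' _ hmd] at h1
  have h2 : y = kmap φ (z.w ^ m) * (((z.bc φ).z : KK I B) ^ m * y) := by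
    rw [map_pow]
    exact (wz_pow (z.bc φ) m y).symm
  rw [h2]
  generalize ((z.bc φ).z : KK I B) ^ m * y = x at h1
  refine Submodule.span_induction ?_ ?_ ?_ ?_ h1
  · rintro _ ⟨p, hp, rfl⟩
    obtain ⟨hp1, hp2⟩ := mem_PP.1 hp
    rw [← map_mul]
    refine Submodule.subset_span ⟨_, ⟨⟨m, ?_⟩, ?_⟩, rfl⟩
    · rw [zw_pow]
      exact hp1
    · have h := mul_mem_Pol (w_pow z m) hp2
      rw [neg_add_cancel] at h
      exact h
  · rw [mul_zero]
    exact zero_mem _
  · intro x y _ _ hx hy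
    rw [mul_add]
    exact add_mem hx hy
  · intro c x _ hx
    rw [mul_smul_comm]
    exact Submodule.smul_mem _ _ hx

/-- The second chart is the tensor product. -/
theorem exists_equiv [Fintype I] [Nonempty I] [Algebra A B] (hDEN : Stmt_DEN) {g : ℕ}
    {P : Subalgebra A (KK I A)} (hP : IsKr g P) (z : Pole P) :
    ∃ e : (B ⊗[A] Rw P z.z) ≃ₐ[B] Rw (G0.bc (algebraMap A B) P) (z.bc (algebraMap A B)).z,
      ∀ (b : B) (r : Rw P z.z), (e (b ⊗ₜ r) : KK I B) = b • kmap (algebraMap A B) (r : KK I A) := by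
  obtain ⟨f, hf⟩ := KBT.exists_hom (B := B) (Rw P z.z)
  have hmem : ∀ x, f x ∈ Rw (G0.bc (algebraMap A B) P) (z.bc (algebraMap A B)).z := by
    intro x
    induction x using TensorProduct.induction_on with
    | zero => rw [map_zero]; exact zero_mem _
    | tmul b p =>
      rw [hf]
      exact Subalgebra.smul_mem _ (kmap_mem_Rw _ z p.2) b
    | add x y hx hy => rw [map_add]; exact add_mem hx hy
  let f' : (B ⊗[A] Rw P z.z) →ₐ[B] Rw (G0.bc (algebraMap A B) P) (z.bc (algebraMap A B)).z :=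
    f.codRestrict _ hmem
  have h1 : Function.Injective f' := by
    rw [injective_iff_map_eq_zero]
    intro x hx
    have hx' : f x = 0 := congrArg Subtype.val hx
    obtain ⟨m, b, p, rfl⟩ : ∃ (m : ℕ) (b : Fin m → B) (p : Fin m → Rw P z.z),
        x = ∑ k, b k ⊗ₜ[A] p k := TensorProduct.exists_sum_tmul_eq x
    apply inj hDEN hP z
    rw [map_sum] at hx'
    rw [← hx']
    exact Finset.sum_congr rfl fun k _ => (hf _ _).symm
  have h2 : Function.Surjective f' := by
    rintro ⟨y, hy⟩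
    have hy' := surj hP z (algebraMap A B) hy
    have h3 : ∃ x, f x = y := by
      refine Submodule.span_induction ?_ ?_ ?_ ?_ hy'
      · rintro _ ⟨p, hp, rfl⟩
        exact ⟨1 ⊗ₜ ⟨p, hp⟩, by rw [hf, one_smul]⟩
      · exact ⟨0, map_zero f⟩
      · rintro _ _ _ _ ⟨x, rfl⟩ ⟨x', rfl⟩
        exact ⟨x + x', map_add f _ _⟩
      · rintro c _ _ ⟨x, rfl⟩
        exact ⟨c • x, map_smul f _ _⟩
    obtain ⟨x, hx⟩ := h3
    exact ⟨x, Subtype.ext hx⟩
  exact ⟨AlgEquiv.ofBijective f' ⟨h1, h2⟩, fun b p => hf b p⟩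

end

end KBW

theorem t_KBW (hDEN : Stmt_DEN) : Stmt_KBW := by
  intro I A B _ _ _ _ g P hP z φ
  let _ : Algebra A B := φ.toAlgebra
  have hKSP : Stmt_KSP := t_KSP t_KNZ
  have hKBC : Stmt_KBC := t_KBC (t_KFO t_KDU) t_KNZ hKSP
  obtain ⟨e1, he1⟩ := (t_KBT hKSP hKBC (B := B) hP).2
  obtain ⟨e2, he2⟩ := KBW.exists_equiv (B := B) hDEN hP z
  exact ⟨KBW.pull_of_bij (kHom φ z).f1 (kHom φ z).fa1 e1 fun b r => Subtype.ext (he1 b r),
    KBW.pull_of_bij (kHom φ z).f2 (kHom φ z).fa2 e2 fun b r => Subtype.ext (he2 b r)⟩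

end Pool.Agent.MG.KX


end

section

/-!
# AWD (PAPER ADD5): duality for functions with poles at additional formal points
-/

namespace Pool.Agent.MG.G0

namespace AWD

section one

variable {A : Type} [CommRing A]

theorem psl_low (f : PowerSeries A) : ∀ m < 0, (psl A f).coeff m = 0 := fun m hm => by
  rw [psl, PowerSeries.coeff_coe, if_pos hm]

theorem psl_coeff (f : PowerSeries A) (n : ℕ) :
    (psl A f).coeff (n : ℤ) = PowerSeries.coeff n f := by
  rw [psl, PowerSeries.coeff_coe, if_neg (by omega), Int.natAbs_natCast]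

theorem exists_psl {f : LaurentSeries A} (h : ∀ m < 0, f.coeff m = 0) :
    ∃ g : PowerSeries A, psl A g = f := by
  refine ⟨PowerSeries.mk fun n => f.coeff n, ?_⟩
  ext m
  by_cases hm : m < 0
  · rw [psl_low _ m hm, h m hm]
  · obtain ⟨n, rfl⟩ := Int.eq_ofNat_of_zero_le (not_lt.1 hm)
    rw [psl_coeff, PowerSeries.coeff_mk]

/-- The derivative of a power series `a + b u + ...` with `b` a unit is a unit. -/
theorem isUnit_ld {f : PowerSeries A} (h1 : IsUnit (PowerSeries.coeff 1 f)) :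
    IsUnit (ld (psl A f)) := by
  obtain ⟨g, hg⟩ := exists_psl (f := ld (psl A f)) fun m hm => by
    rw [ld_coeff]
    by_cases h : m + 1 = 0
    · rw [h, Int.cast_zero, zero_mul]
    · rw [psl_low f _ (by omega), mul_zero]
  have h2 : PowerSeries.constantCoeff g = PowerSeries.coeff 1 f := by
    rw [← PowerSeries.coeff_zero_eq_constantCoeff_apply, ← psl_coeff, hg, Nat.cast_zero, ld_coeff,
      zero_add, Int.cast_one, one_mul]
    exact psl_coeff f 1
  rw [← hg]
  refine IsUnit.map (psl A) ?_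
  rw [PowerSeries.isUnit_iff_constantCoeff, h2]
  exact h1

end one

section many

variable {I J A : Type} [CommRing A] {P : Subalgebra A (KK I A)} {pt : J → FPt P}

theorem low_Ipt {r : P} (hr : r ∈ Ipt pt) (j : J) :
    ∀ m < (1 : ℤ), (psl A ((pt j).h r)).coeff m = 0 := by
  intro m hm
  by_cases h0 : m < 0
  · exact psl_low _ m h0
  · have h1 : m = ((0 : ℕ) : ℤ) := by
      rw [Nat.cast_zero]
      omega
    rw [h1, psl_coeff, PowerSeries.coeff_zero_eq_constantCoeff_apply]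
    rw [Ipt, Ideal.mem_iInf] at hr
    exact hr j

theorem low_pow (j : J) (n : ℕ) : ∀ {r : P}, r ∈ Ipt pt ^ n →
    ∀ m < (n : ℤ), (psl A ((pt j).h r)).coeff m = 0 := by
  induction n with
  | zero =>
    intro r _ m hm
    exact psl_low _ m (by simpa using hm)
  | succ n ih =>
    intro r hr
    rw [pow_succ] at hr
    refine Submodule.mul_induction_on hr ?_ ?_
    · intro a ha b hb m hm
      rw [map_mul, map_mul]
      refine mul_low (ih ha) (low_Ipt hb j) m ?_
      push_cast at hm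
      exact hm
    · intro a b ha hb m hm
      rw [map_add, map_add, HahnSeries.coeff_add, ha m hm, hb m hm, add_zero]

theorem res_sum [Fintype I] [Fintype J] (f : KK (I ⊕ J) A) :
    res f = res (fun i => f (Sum.inl i) : KK I A) + ∑ j : J, (f (Sum.inr j)).coeff (-1) :=
  Fintype.sum_sum_type fun k => (f k).coeff (-1)

end many

end AWD

open _root_.Pool.Agent.MG.G0.AWD in
theorem t_AWD (_hRES : Stmt_RES) (hSTO : Stmt_STO) (hAYE : Stmt_AYE) (hAWK : Stmt_AWK) :
    Stmt_AWD := by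
  intro I J A _ _ _ _ g P hP hSm pt hdis hD θ hθ η hη
  classical
  obtain ⟨hW, hWS, -, -, -, hA2, hA4⟩ := hAWK hP hSm pt hdis
  obtain ⟨-, -, -, y, e, d, hy, he, -, hmon, hu, hye⟩ := hAYE hP hSm pt hdis
  obtain ⟨-, -, -, -, hcert⟩ := hSTO hP
  obtain ⟨-, ⟨n, θ', g', hθ', hg', hsum⟩, -⟩ := hcert hSm
  obtain ⟨hOmW, -⟩ := hSTO hW
  -- step 1
  have hni : ∀ i : Fin n, ∃ k : ℕ, ∀ s ∈ Ipt pt ^ k,
      ∃ r : P, hat pt s * (θ * dd (hat pt ⟨g' i, hg' i⟩)) = hat pt r := fun i =>
    (mem_WJ pt).1 (hθ _ (hat_mem pt _))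
  choose ni hni using hni
  have h1 : ∀ s ∈ Ipt pt ^ (Finset.univ.sup ni),
      (fun i => (hat pt s * θ) (Sum.inl i) : KK I A) ∈ TT P := by
    intro s hs f hf
    have h2 : ∀ i : Fin n, ∃ r : P,
        hat pt s * (θ * dd (hat pt ⟨g' i, hg' i⟩)) = hat pt r := fun i =>
      hni i s (Ideal.pow_le_pow_right (Finset.le_sup (Finset.mem_univ i)) hs)
    choose r hr using h2
    have h3 : (fun i => (hat pt s * θ) (Sum.inl i) : KK I A) * dd f =
        ∑ i, (θ' i * dd f) * (r i : KK I A) := by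
      funext k
      have h4 : ∀ i : Fin n, (r i : KK I A) k =
          (s : KK I A) k * (θ (Sum.inl k) * (dd (g' i) : KK I A) k) := fun i =>
        (congrFun (hr i) (Sum.inl k)).symm
      have h5 : ∑ i, θ' i k * (dd (g' i) : KK I A) k = 1 := by
        have h6 := congrFun hsum k
        rw [Finset.sum_apply] at h6
        exact h6
      rw [Finset.sum_apply]
      calc ((fun i => (hat pt s * θ) (Sum.inl i) : KK I A) * dd f) k
          = ((s : KK I A) k * θ (Sum.inl k) * (dd f : KK I A) k) * 1 := (mul_one _).symm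
        _ = ((s : KK I A) k * θ (Sum.inl k) * (dd f : KK I A) k) *
            ∑ i, θ' i k * (dd (g' i) : KK I A) k := by rw [h5]
        _ = ∑ i, ((θ' i * dd f) * (r i : KK I A)) k := by
            rw [Finset.mul_sum]
            refine Finset.sum_congr rfl fun i _ => ?_
            rw [Pi.mul_apply, Pi.mul_apply, h4]
            ring
    rw [h3]
    exact sum_mem fun i _ => mul_mem (hθ' i f hf) (r i).2
  -- step 2
  obtain ⟨n2, hn2⟩ := exists_Pol η
  have h2 : ∀ s ∈ Ipt pt ^ n2, (fun i => (hat pt s * η) (Sum.inl i) : KK I A) ∈ Perp P := by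
    intro s hs p hp
    have h3 := hη (hat pt (s * ⟨p, hp⟩)) (hat_mem pt _)
    rw [res_sum] at h3
    have h4 : ∑ j : J, ((η * hat pt (s * ⟨p, hp⟩)) (Sum.inr j)).coeff (-1) = 0 := by
      refine Finset.sum_eq_zero fun j _ => ?_
      rw [Pi.mul_apply, hat_inr]
      exact mul_low (hn2 (Sum.inr j)) (low_pow j n2 (Ideal.mul_mem_right _ _ hs)) _ (by omega)
    rw [h4, add_zero] at h3
    rw [← h3]
    congr 1
    funext k
    rw [Pi.mul_apply, Pi.mul_apply, Pi.mul_apply, map_mul, Pi.mul_apply, hat_inl, hat_inl]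
    ring
  -- step 3
  have h3 : ∀ s ∈ Ipt pt ^ (Finset.univ.sup ni + n2), ∃ r : P, ∀ i,
      (r : KK I A) i = (s : KK I A) i * (θ * η) (Sum.inl i) := by
    intro s hs
    rw [pow_add] at hs
    refine Submodule.mul_induction_on hs ?_ ?_
    · intro a ha b hb
      refine ⟨⟨_, hD _ (h1 a ha) _ (h2 b hb)⟩, fun i => ?_⟩
      change (a : KK I A) i * θ (Sum.inl i) * ((b : KK I A) i * η (Sum.inl i)) =
        ((a : KK I A) i * (b : KK I A) i) * (θ (Sum.inl i) * η (Sum.inl i))
      ring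
    · rintro a b ⟨r, hr⟩ ⟨t, ht⟩
      refine ⟨r + t, fun i => ?_⟩
      change (r : KK I A) i + (t : KK I A) i =
        ((a : KK I A) i + (b : KK I A) i) * (θ * η) (Sum.inl i)
      rw [hr, ht]
      ring
  -- step 4
  obtain ⟨m, s, a, hs, ha, hsum1⟩ := hA4 (Finset.univ.sup ni + n2)
  choose r hr using fun k => h3 (s k) (hs k)
  set w : KK (I ⊕ J) A := ∑ k, a k * hat pt (r k) with hw
  have hwW : w ∈ WJ pt := sum_mem fun k _ => mul_mem (ha k) (hat_mem pt _)
  have hwI : ∀ i, w (Sum.inl i) = (θ * η) (Sum.inl i) := by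
    intro i
    have h4 : ∑ k, a k (Sum.inl i) * (s k : KK I A) i = 1 := by
      have h5 := congrFun hsum1 (Sum.inl i)
      rw [Finset.sum_apply] at h5
      exact h5
    rw [hw, Finset.sum_apply]
    calc ∑ k, (a k * hat pt (r k)) (Sum.inl i)
        = ∑ k, (a k (Sum.inl i) * (s k : KK I A) i) * (θ * η) (Sum.inl i) := by
          refine Finset.sum_congr rfl fun k _ => ?_
          rw [Pi.mul_apply, hat_inl, hr]
          ring
      _ = (θ * η) (Sum.inl i) := by rw [← Finset.sum_mul, h4, one_mul]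
  -- step 5
  set δ : KK (I ⊕ J) A := θ * η - w with hδ
  have hδI : ∀ i, δ (Sum.inl i) = 0 := fun i => by
    rw [hδ, Pi.sub_apply, hwI, sub_self]
  have hδP : ∀ f ∈ WJ pt, δ * dd f ∈ Perp (WJ pt) := by
    intro f hf
    have h4 : (θ * dd f) * η ∈ Perp (WJ pt) := mul_mem_Perp (hθ f hf) hη
    have h5 : w * dd f ∈ Perp (WJ pt) := hOmW (Submodule.subset_span ⟨w, hwW, f, hf, rfl⟩)
    have h6 : δ * dd f = (θ * dd f) * η - w * dd f := by
      rw [hδ]
      ring
    rw [h6]
    exact sub_mem h4 h5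
  -- step 6
  set ρ : KK (I ⊕ J) A := δ * dd (hat pt y) with hρ
  have hρP : ρ ∈ Perp (WJ pt) := hδP _ (hat_mem pt y)
  have hρI : ∀ i, ρ (Sum.inl i) = 0 := fun i => by
    rw [hρ, Pi.mul_apply, hδI, zero_mul]
  obtain ⟨M, hM⟩ := exists_Pol ρ
  have hρJ : ∀ j, ρ (Sum.inr j) = 0 := by
    intro j
    ext k
    rw [HahnSeries.coeff_zero]
    set f : J → LaurentSeries A := fun j' => if j' = j then HahnSeries.single (-1 - k) 1 else 0
      with hf
    obtain ⟨w', hw', hwf⟩ := hA2 f M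
    have h4 := hρP w' hw'
    rw [res_sum] at h4
    have h5 : res (fun i => (ρ * w') (Sum.inl i) : KK I A) = 0 := by
      refine Finset.sum_eq_zero fun i _ => ?_
      change ((ρ * w') (Sum.inl i)).coeff (-1) = 0
      rw [Pi.mul_apply, hρI, zero_mul, HahnSeries.coeff_zero]
    have h6 : ∀ j' : J, ((ρ * w') (Sum.inr j')).coeff (-1) =
        if j' = j then (ρ (Sum.inr j)).coeff k else 0 := by
      intro j'
      have h7 : (ρ * w') (Sum.inr j') = ρ (Sum.inr j') * f j' +
          ρ (Sum.inr j') * (w' (Sum.inr j') - f j') := by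
        rw [Pi.mul_apply]
        ring
      have h8 : (ρ (Sum.inr j') * (w' (Sum.inr j') - f j')).coeff (-1) = 0 := by
        refine mul_low (b := (M : ℤ)) (hM (Sum.inr j')) (fun l hl => ?_) _ (by omega)
        rw [HahnSeries.coeff_sub, hwf j' l hl, sub_self]
      rw [h7, HahnSeries.coeff_add, h8, add_zero]
      by_cases hj : j' = j
      · subst hj
        have h9 : k + (-1 - k) = (-1 : ℤ) := by ring
        have h10 : (ρ (Sum.inr j') * HahnSeries.single (-1 - k) (1 : A)).coeff (k + (-1 - k)) =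
            (ρ (Sum.inr j')).coeff k * 1 := HahnSeries.coeff_mul_single_add
        rw [h9, mul_one] at h10
        rw [hf]
        simp only [if_true]
        exact h10
      · rw [hf, if_neg hj]
        simp only [if_neg hj, mul_zero, HahnSeries.coeff_zero]
    rw [h5, zero_add, Finset.sum_congr rfl fun j' _ => h6 j', Finset.sum_ite_eq'] at h4
    simpa using h4
  have hδJ : ∀ j, δ (Sum.inr j) = 0 := by
    intro j
    have h4 := hρJ j
    rw [hρ, Pi.mul_apply] at h4
    have h5 : IsUnit ((dd (hat pt y) : KK (I ⊕ J) A) (Sum.inr j)) := isUnit_ld (hu j)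
    exact h5.mul_left_eq_zero.1 h4
  have hδ0 : θ * η = w := by
    rw [← sub_eq_zero, ← hδ]
    funext k
    rcases k with i | j
    · exact hδI i
    · exact hδJ j
  rw [hδ0]
  exact hwW

end Pool.Agent.MG.G0


end

section

/-!
# The structure of the ring of the special curve
-/

namespace Pool.Agent.MG.G0

open ZL

namespace GST

section

variable {A : Type} [CommRing A]

/-- The monomial `σ^n`. -/
noncomputable abbrev sg (A : Type) [CommRing A] (n : ℤ) : LaurentSeries A := HahnSeries.single n 1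

theorem sg_mul (m n : ℤ) : sg A m * sg A n = sg A (m + n) := by
  rw [HahnSeries.single_mul_single, one_mul]

theorem sg_pow (m : ℤ) (k : ℕ) : sg A m ^ k = sg A (k * m) := by
  rw [HahnSeries.single_pow, one_pow, nsmul_eq_mul]

theorem sg_zero : sg A 0 = 1 := rfl

theorem zz_eq (k : ℕ) : zz A 3 ^ k = sg A (-(3 * k : ℤ)) := by
  rw [zz_pow]
  congr 1

theorem zz_eq1 : zz A 3 = sg A (-3) := rfl

theorem psl_X_pow (k : ℕ) : psl A (PowerSeries.X ^ k) = sg A k :=
  HahnSeries.ofPowerSeries_X_pow k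

/-- The class of `n` modulo three. -/
theorem pr_sg {n : ℤ} {j : ZMod 3} (h : (n : ZMod 3) = j) : pr j (sg A n) = sg A n := by
  ext m
  rw [pr_coeff]
  split_ifs with h1
  · rfl
  · rw [HahnSeries.coeff_single_of_ne]
    rintro rfl
    exact h1 h

theorem pr_mul_eq {i j k : ZMod 3} {f h : LaurentSeries A} (hf : pr i f = f) (hh : pr j h = h)
    (hk : i + j = k) : pr k (f * h) = f * h := by
  rw [pr_mul_of hf, ← hk, add_sub_cancel_left, hh]

theorem pr_mul_zero {i j k : ZMod 3} {f h : LaurentSeries A} (hf : pr i f = f) (hh : pr j h = h)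
    (hk : i + j ≠ k) : pr k (f * h) = 0 := by
  rw [pr_mul_of hf, ← hh, pr_pr_ne, mul_zero]
  intro h1
  exact hk (by rw [← h1]; ring)

variable (S : SCD A)

theorem r_mul_ri : psl A S.r * psl A S.ri = 1 := by
  rw [← map_mul, SCD.ri, PowerSeries.mul_invOfUnit _ _ (by rw [S.r1]; rfl), map_one]

theorem psl_r3 : psl A S.r ^ 3 = 1 - sg A (3 * S.g) := by
  rw [← map_pow, S.r3, map_sub, map_one, psl_X_pow]
  push_cast
  rfl

theorem pr_r : pr (0 : ZMod 3) (psl A S.r) = psl A S.r := by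
  ext n
  rw [pr_coeff]
  split_ifs with h
  · rfl
  · symm
    change ((S.r : LaurentSeries A)).coeff n = 0
    rw [PowerSeries.coeff_coe]
    split_ifs with h1
    · rfl
    · apply S.rc
      intro h2
      apply h
      rw [ZMod.intCast_zmod_eq_zero_iff_dvd]
      obtain ⟨k, rfl⟩ := Int.eq_ofNat_of_zero_le (not_lt.1 h1)
      rw [Int.natAbs_natCast] at h2
      exact_mod_cast h2

theorem pr_one : pr (0 : ZMod 3) (1 : LaurentSeries A) = 1 := pr_sg (n := 0) (by simp)

theorem pr_ri : pr (0 : ZMod 3) (psl A S.ri) = psl A S.ri := by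
  have h1 := pr_mul_of (pr_r S) (0 : ZMod 3) (psl A S.ri)
  rw [r_mul_ri, sub_zero (0 : ZMod 3), pr_one] at h1
  have h2 : psl A S.ri * (psl A S.r * pr (0 : ZMod 3) (psl A S.ri)) = psl A S.ri * 1 := by
    rw [← h1]
  rw [← mul_assoc, mul_comm (psl A S.ri), r_mul_ri, one_mul, mul_one] at h2
  exact h2

theorem Y_eq : S.Y = sg A (-(S.n1 : ℤ)) * psl A S.r := rfl

theorem W_eq : S.W = sg A (-(S.n2 : ℤ)) * psl A S.r ^ 2 := by
  rw [SCD.W, map_pow]

theorem Yi_eq : S.Yi = sg A (S.n1 : ℤ) * psl A S.ri := rfl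

theorem Wi_eq : S.Wi = sg A (S.n2 : ℤ) * psl A S.ri ^ 2 := by
  rw [SCD.Wi, map_pow]

theorem Yi_mul_Y : S.Yi * S.Y = 1 := by
  have h := r_mul_ri S
  calc S.Yi * S.Y = (sg A (S.n1 : ℤ) * sg A (-(S.n1 : ℤ))) * (psl A S.r * psl A S.ri) := by
        rw [Y_eq, Yi_eq]; ring
    _ = 1 := by rw [h, sg_mul, add_neg_cancel, sg_zero, one_mul]

theorem Wi_mul_W : S.Wi * S.W = 1 := by
  have h := r_mul_ri S
  calc S.Wi * S.W = (sg A (S.n2 : ℤ) * sg A (-(S.n2 : ℤ))) * (psl A S.r * psl A S.ri) ^ 2 := by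
        rw [W_eq, Wi_eq]; ring
    _ = 1 := by rw [h, sg_mul, add_neg_cancel, sg_zero, one_mul, one_pow]

theorem n_add : (S.n1 : ℤ) + S.n2 = 3 * (S.g + 1) := by
  have := S.ha
  simp only [SCD.n1, SCD.n2]
  omega

theorem n1_eq : (S.n1 : ℤ) = S.g + 1 + S.a := by
  simp only [SCD.n1]
  push_cast
  ring

theorem n2_eq : (S.n2 : ℤ) = 2 * S.g + 2 - S.a := by
  have := S.ha
  simp only [SCD.n2]
  omega

theorem c1_ne : (((S.n1 : ℤ)) : ZMod 3) ≠ 0 := by
  rw [ne_eq, ZMod.intCast_zmod_eq_zero_iff_dvd]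
  intro h
  apply S.h3
  have h1 : (3 : ℤ) ∣ ((S.g + 1 + S.a : ℕ) : ℤ) := h
  exact_mod_cast h1

theorem c_add : (((S.n1 : ℤ)) : ZMod 3) + (((S.n2 : ℤ)) : ZMod 3) = 0 := by
  rw [← Int.cast_add, n_add, ZMod.intCast_zmod_eq_zero_iff_dvd]
  exact Dvd.intro _ rfl

theorem c2_eq : (((S.n2 : ℤ)) : ZMod 3) = -(((S.n1 : ℤ)) : ZMod 3) :=
  (neg_eq_of_add_eq_zero_right (c_add S)).symm

theorem pr_Y : pr (-(((S.n1 : ℤ)) : ZMod 3)) S.Y = S.Y := by
  rw [Y_eq]
  refine pr_mul_eq (pr_sg (j := -(((S.n1 : ℤ)) : ZMod 3)) (by push_cast; rfl)) (pr_r S) ?_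
  rw [add_zero]

theorem pr_W : pr ((((S.n1 : ℤ)) : ZMod 3)) S.W = S.W := by
  have h : pr (0 : ZMod 3) (psl A S.r ^ 2) = psl A S.r ^ 2 := by
    rw [pow_two]
    exact pr_mul_eq (pr_r S) (pr_r S) (add_zero 0)
  rw [W_eq]
  refine pr_mul_eq (pr_sg (j := (((S.n1 : ℤ)) : ZMod 3)) ?_) h (add_zero _)
  rw [Int.cast_neg, c2_eq, neg_neg]

theorem pr_Yi : pr ((((S.n1 : ℤ)) : ZMod 3)) S.Yi = S.Yi := by
  rw [Yi_eq]
  exact pr_mul_eq (pr_sg rfl) (pr_ri S) (add_zero _)

theorem pr_Wi : pr (-(((S.n1 : ℤ)) : ZMod 3)) S.Wi = S.Wi := by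
  have h : pr (0 : ZMod 3) (psl A S.ri ^ 2) = psl A S.ri ^ 2 := by
    rw [pow_two]
    exact pr_mul_eq (pr_ri S) (pr_ri S) (add_zero 0)
  rw [Wi_eq]
  refine pr_mul_eq (pr_sg (j := -(((S.n1 : ℤ)) : ZMod 3)) ?_) h (add_zero _)
  rw [c2_eq]

theorem ev_pA : zpol A 3 S.pA = sg A (-(3 * S.a : ℤ)) := by
  rw [SCD.pA, map_pow]
  have h : zpol A 3 Polynomial.X = zz A 3 := ev_X 3
  rw [h, zz_eq]

theorem ev_pD : zpol A 3 S.pD = sg A (-(3 * S.g + 3 : ℤ)) - sg A (-3) := by
  have h : zpol A 3 Polynomial.X = zz A 3 := ev_X 3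
  have h1 : (3 * ((S.g + 1 : ℕ) : ℤ)) = 3 * S.g + 3 := by
    push_cast
    ring
  rw [SCD.pD, map_sub, map_pow, h, zz_eq, zz_eq1, h1]

theorem ev_pB : zpol A 3 S.pB = sg A (-(3 * S.g + 3 - 3 * S.a : ℤ)) - sg A (-(3 - 3 * S.a : ℤ)) := by
  have h : zpol A 3 Polynomial.X = zz A 3 := ev_X 3
  have ha := S.ha
  rw [SCD.pB, map_sub, map_pow, map_pow, h, zz_eq, zz_eq]
  have h1 : (((S.g + 1 - S.a : ℕ)) : ℤ) = S.g + 1 - S.a := by omega
  have h2 : (((1 - S.a : ℕ)) : ℤ) = 1 - S.a := by omega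
  rw [h1, h2]
  congr 3 <;> ring

theorem Y_sq : S.Y ^ 2 = zpol A 3 S.pA * S.W := by
  rw [Y_eq, W_eq, ev_pA, mul_pow, sg_pow, ← mul_assoc, sg_mul]
  congr 2
  have h1 := n1_eq S
  have h2 := n2_eq S
  push_cast
  rw [h1, h2]
  ring

theorem Y_mul_W : S.Y * S.W = zpol A 3 S.pD := by
  calc S.Y * S.W = (sg A (-(S.n1 : ℤ)) * sg A (-(S.n2 : ℤ))) * psl A S.r ^ 3 := by
        rw [Y_eq, W_eq]; ring
    _ = _ := by
      rw [psl_r3, sg_mul, mul_sub, mul_one, sg_mul, ev_pD]
      have h1 := n_add S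
      congr 2
      · congr 1
        linarith
      · congr 1
        linarith

theorem W_sq : S.W ^ 2 = zpol A 3 S.pB * S.Y := by
  have h0 : psl A S.r ^ 4 = psl A S.r ^ 3 * psl A S.r := by ring
  calc S.W ^ 2 = sg A (2 * (-(S.n2 : ℤ))) * psl A S.r ^ 4 := by
        rw [W_eq, mul_pow, sg_pow, ← pow_mul]
        push_cast
        rfl
    _ = _ := by
      rw [h0, psl_r3, ev_pB, Y_eq]
      have h1 := n1_eq S
      have h2 := n2_eq S
      have e1 : sg A (2 * (-(S.n2 : ℤ))) = sg A (-(3 * S.g + 3 - 3 * S.a : ℤ)) * sg A (-(S.n1 : ℤ)) := by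
        rw [sg_mul, h1, h2]
        congr 1
        ring
      have e2 : sg A (2 * (-(S.n2 : ℤ))) * sg A (3 * S.g) =
          sg A (-(3 - 3 * S.a : ℤ)) * sg A (-(S.n1 : ℤ)) := by
        rw [sg_mul, sg_mul, h1, h2]
        congr 1
        ring
      linear_combination (psl A S.r) * e1 - (psl A S.r) * e2

theorem pA_mul_pB : S.pA * S.pB = S.pD := by
  have ha := S.ha
  rw [SCD.pA, SCD.pB, SCD.pD, mul_sub, ← pow_add, ← pow_add]
  have h1 : S.a + (S.g + 1 - S.a) = S.g + 1 := by omega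
  have h2 : S.a + (1 - S.a) = 1 := by omega
  rw [h1, h2, pow_one]

/-! ### Derivatives -/

/-- The derivative as a derivation. -/
noncomputable def ldD (A : Type) [CommRing A] : Derivation A (LaurentSeries A) (LaurentSeries A) where
  toFun := ld
  map_add' := ld_add
  map_smul' := ld_smul
  map_one_eq_zero' := by
    change ld (1 : LaurentSeries A) = 0
    ext n
    rw [ld_coeff, HahnSeries.coeff_one, HahnSeries.coeff_zero]
    split_ifs with h
    · rw [h]
      simp
    · rw [mul_zero]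
  leibniz' f h := by
    change ld (f * h) = f • ld h + h • ld f
    rw [ld_mul, smul_eq_mul, smul_eq_mul, mul_comm h]

theorem ld_zpol (q : Polynomial A) :
    ld (zpol A 3 q) = zpol A 3 (Polynomial.derivative q) * ld (zz A 3) := by
  have h := (ldD A).map_aeval q (zz A 3)
  rw [smul_eq_mul] at h
  exact h

theorem ld_cube (f : LaurentSeries A) : ld (f ^ 3) = 3 * f ^ 2 * ld f := by
  have h := (ldD A).leibniz_pow (a := f) 3
  change ld (f ^ 3) = 3 • f ^ (3 - 1) • ld f at h
  rw [h, smul_eq_mul, nsmul_eq_mul]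
  push_cast
  ring

theorem pA_der : Polynomial.derivative (S.pA * S.pD) = S.pA * S.cY := by
  have ha := S.ha
  have hg := S.hg
  obtain h | h : S.a = 0 ∨ S.a = 1 := by omega
  · rw [SCD.pA, SCD.pD, SCD.cY, h]
    simp only [pow_zero, one_mul, Polynomial.derivative_sub, Polynomial.derivative_X_pow,
      Polynomial.derivative_X, Nat.cast_zero, add_zero, Nat.add_sub_cancel, map_add, map_one,
      Polynomial.C_1]
    push_cast
    simp
  · rw [SCD.pA, SCD.pD, SCD.cY, h]
    have h1 : (Polynomial.X : Polynomial A) ^ 1 * (Polynomial.X ^ (S.g + 1) - Polynomial.X) =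
        Polynomial.X ^ (S.g + 2) - Polynomial.X ^ 2 := by ring
    rw [h1]
    simp only [Polynomial.derivative_sub, Polynomial.derivative_X_pow, Nat.add_sub_cancel]
    have h2 : S.g + 2 - 1 = S.g + 1 := by omega
    rw [h2]
    simp only [map_add, map_one, map_natCast, Nat.cast_one]
    push_cast
    ring

theorem pB_der : Polynomial.derivative (S.pB * S.pD) = S.pB * S.cW := by
  have ha := S.ha
  have hg := S.hg
  obtain h | h : S.a = 0 ∨ S.a = 1 := by omega
  · rw [SCD.pB, SCD.pD, SCD.cW, h]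
    have h0 : (Polynomial.X ^ (S.g + 1 - 0) - Polynomial.X ^ (1 - 0) : Polynomial A) =
      Polynomial.X ^ (S.g + 1) - Polynomial.X := by
        rw [Nat.sub_zero, Nat.sub_zero, pow_one]
    rw [h0]
    simp only [Polynomial.derivative_mul, Polynomial.derivative_sub, Polynomial.derivative_X_pow,
      Polynomial.derivative_X, Nat.add_sub_cancel, map_sub, map_add, map_mul, map_natCast,
      map_ofNat, Nat.cast_zero, sub_zero]
    push_cast
    ring
  · rw [SCD.pB, SCD.pD, SCD.cW, h]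
    have h0 : (Polynomial.X ^ (S.g + 1 - 1) - Polynomial.X ^ (1 - 1) : Polynomial A) =
      Polynomial.X ^ S.g - 1 := by
        rw [Nat.add_sub_cancel, Nat.sub_self, pow_zero]
    rw [h0]
    obtain ⟨k, hk⟩ : ∃ k, S.g = k + 1 := ⟨S.g - 1, by omega⟩
    simp only [Polynomial.derivative_mul, Polynomial.derivative_sub, Polynomial.derivative_X_pow,
      Polynomial.derivative_X, Polynomial.derivative_one, Nat.add_sub_cancel, map_sub, map_add,
      map_mul, map_natCast, map_ofNat, map_one, Nat.cast_one, hk]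
    push_cast
    ring

theorem pA_unit : IsUnit (zpol A 3 S.pA) := by
  rw [ev_pA]
  exact single_isUnit _

theorem pB_unit : IsUnit (zpol A 3 S.pB) := by
  have hg := S.hg
  have ha := S.ha
  rw [ev_pB]
  refine isUnit_of_lead (n := 3 * S.g + 3 - 3 * S.a) ?_ ?_
  · refine sub_mem (single_mem_Pl _ (by omega)) (single_mem_Pl _ (by omega))
  · rw [HahnSeries.coeff_sub, HahnSeries.coeff_single_same, HahnSeries.coeff_single_of_ne, sub_zero]
    · exact isUnit_one
    · omega

theorem ld_Y : (3 : A) • (zpol A 3 S.pD * ld S.Y) = zpol A 3 S.cY * S.Y * ld (zz A 3) := by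
  have h0 : S.Y ^ 3 = zpol A 3 (S.pA * S.pD) := by
    rw [pow_succ, Y_sq, mul_assoc, mul_comm S.W, Y_mul_W, map_mul]
  have h1 := congrArg ld h0
  rw [ld_cube, ld_zpol, pA_der, map_mul] at h1
  have h2 : zpol A 3 S.pA * ((3 : LaurentSeries A) * (zpol A 3 S.pD * ld S.Y)) =
      zpol A 3 S.pA * (zpol A 3 S.cY * S.Y * ld (zz A 3)) := by
    rw [map_mul] at h0
    linear_combination (-3 * ld S.Y) * h0 + S.Y * h1
  have h3 := (pA_unit S).mul_left_cancel h2
  rw [← h3, Algebra.smul_def, map_ofNat]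

theorem ld_W : (3 : A) • (zpol A 3 S.pD * ld S.W) = zpol A 3 S.cW * S.W * ld (zz A 3) := by
  have h0 : S.W ^ 3 = zpol A 3 (S.pB * S.pD) := by
    rw [pow_succ, W_sq, mul_assoc, Y_mul_W, map_mul]
  have h1 := congrArg ld h0
  rw [ld_cube, ld_zpol, pB_der, map_mul] at h1
  have h2 : zpol A 3 S.pB * ((3 : LaurentSeries A) * (zpol A 3 S.pD * ld S.W)) =
      zpol A 3 S.pB * (zpol A 3 S.cW * S.W * ld (zz A 3)) := by
    rw [map_mul] at h0
    linear_combination (-3 * ld S.W) * h0 + S.W * h1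
  have h3 := (pB_unit S).mul_left_cancel h2
  rw [← h3, Algebra.smul_def, map_ofNat]

/-! ### The ring `R` -/

theorem mem_R (f : LaurentSeries A) : f ∈ S.R ↔ ∃ p q s : Polynomial A,
    f = zpol A 3 p + zpol A 3 q * S.Y + zpol A 3 s * S.W := by
  have hX : zpol A 3 Polynomial.X = zz A 3 := ev_X 3
  have hmem : ∀ p : Polynomial A, zpol A 3 p ∈ S.R := by
    intro p
    have h : ((Polynomial.aeval S.x p : S.R) : LaurentSeries A) = zpol A 3 p :=
      Polynomial.aeval_subalgebra_coe p S.R S.x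
    rw [← h]
    exact (Polynomial.aeval S.x p : S.R).2
  constructor
  · intro hf
    refine Algebra.adjoin_induction (p := fun f _ => ∃ p q s : Polynomial A,
      f = zpol A 3 p + zpol A 3 q * S.Y + zpol A 3 s * S.W) ?_ ?_ ?_ ?_ hf
    · rintro f (rfl | rfl | rfl)
      · exact ⟨Polynomial.X, 0, 0, by rw [hX, map_zero]; ring⟩
      · exact ⟨0, 1, 0, by rw [map_zero, map_one]; ring⟩
      · exact ⟨0, 0, 1, by rw [map_zero, map_one]; ring⟩
    · intro a
      exact ⟨Polynomial.C a, 0, 0, by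
        rw [map_zero, zero_mul, zero_mul, add_zero, add_zero]
        exact (ev_C 3 a).symm⟩
    · rintro f h _ _ ⟨p, q, s, rfl⟩ ⟨p', q', s', rfl⟩
      exact ⟨p + p', q + q', s + s', by rw [map_add, map_add, map_add]; ring⟩
    · rintro f h _ _ ⟨p, q, s, rfl⟩ ⟨p', q', s', rfl⟩
      refine ⟨p * p' + (q * s' + s * q') * S.pD, p * q' + q * p' + s * s' * S.pB,
        p * s' + s * p' + q * q' * S.pA, ?_⟩
      simp only [map_add, map_mul]
      linear_combination (zpol A 3 q * zpol A 3 q') * Y_sq S +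
        (zpol A 3 q * zpol A 3 s' + zpol A 3 s * zpol A 3 q') * Y_mul_W S +
        (zpol A 3 s * zpol A 3 s') * W_sq S
  · rintro ⟨p, q, s, rfl⟩
    exact add_mem (add_mem (hmem p) (mul_mem (hmem q) (S.y).2)) (mul_mem (hmem s) (S.w).2)

/-- The components modulo three of `p + q Y + s W`. -/
theorem pr_comb (p q s : LaurentSeries A) (hp : pr (0 : ZMod 3) p = p)
    (hq : pr (0 : ZMod 3) q = q) (hs : pr (0 : ZMod 3) s = s) :
    pr (0 : ZMod 3) (p + q * S.Y + s * S.W) = p ∧
    pr (-(((S.n1 : ℤ)) : ZMod 3)) (p + q * S.Y + s * S.W) = q * S.Y ∧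
    pr (((S.n1 : ℤ)) : ZMod 3) (p + q * S.Y + s * S.W) = s * S.W := by
  have hc := c1_ne S
  have hc' : -(((S.n1 : ℤ)) : ZMod 3) ≠ 0 := neg_ne_zero.2 hc
  have hcc : (((S.n1 : ℤ)) : ZMod 3) ≠ -(((S.n1 : ℤ)) : ZMod 3) := by
    revert hc
    generalize (((S.n1 : ℤ)) : ZMod 3) = c
    revert c
    decide
  have hY := pr_Y S
  have hW := pr_W S
  have e1 : ∀ j : ZMod 3, j ≠ 0 → pr j p = 0 := fun j hj => by rw [← hp, pr_pr_ne hj]
  refine ⟨?_, ?_, ?_⟩
  · rw [map_add, map_add, hp, pr_mul_zero hq hY (by rwa [zero_add]),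
      pr_mul_zero hs hW (by rwa [zero_add]), add_zero, add_zero]
  · rw [map_add, map_add, e1 _ hc', pr_mul_eq hq hY (zero_add _),
      pr_mul_zero hs hW (by rwa [zero_add]), zero_add, add_zero]
  · rw [map_add, map_add, e1 _ hc, pr_mul_zero hq hY (by rw [zero_add]; exact hcc.symm),
      pr_mul_eq hs hW (zero_add _), zero_add, zero_add]

theorem Y_cancel {q : LaurentSeries A} (h : q * S.Y = 0) : q = 0 := by
  have h1 : q * S.Y * S.Yi = 0 := by rw [h, zero_mul]
  rwa [mul_assoc, mul_comm S.Y, Yi_mul_Y, mul_one] at h1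

theorem W_cancel {q : LaurentSeries A} (h : q * S.W = 0) : q = 0 := by
  have h1 : q * S.W * S.Wi = 0 := by rw [h, zero_mul]
  rwa [mul_assoc, mul_comm S.W, Wi_mul_W, mul_one] at h1

theorem uniq (p q s : Polynomial A) (h : zpol A 3 p + zpol A 3 q * S.Y + zpol A 3 s * S.W = 0) :
    p = 0 ∧ q = 0 ∧ s = 0 := by
  obtain ⟨h1, h2, h3⟩ := pr_comb S (zpol A 3 p) (zpol A 3 q) (zpol A 3 s) (pr_ev p) (pr_ev q)
    (pr_ev s)
  rw [h, map_zero] at h1 h2 h3
  have inj := ev_injective (A := A) 3 (by norm_num)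
  exact ⟨inj (by rw [map_zero]; exact h1.symm), inj (by rw [map_zero]; exact Y_cancel S h2.symm),
    inj (by rw [map_zero]; exact W_cancel S h3.symm)⟩

theorem decomp (f : LaurentSeries A) :
    f = pr0 A 3 f + pr0 A 3 (f * S.Yi) * S.Y + pr0 A 3 (f * S.Wi) * S.W := by
  have h1 : pr0 A 3 (f * S.Yi) * S.Y = pr (-(((S.n1 : ℤ)) : ZMod 3)) f := by
    rw [← pr_zero_eq, mul_comm f, pr_mul_of (pr_Yi S), zero_sub, mul_comm S.Yi, mul_assoc,
      Yi_mul_Y, mul_one]
  have h2 : pr0 A 3 (f * S.Wi) * S.W = pr (((S.n1 : ℤ)) : ZMod 3) f := by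
    rw [← pr_zero_eq, mul_comm f, pr_mul_of (pr_Wi S), zero_sub, neg_neg, mul_comm S.Wi, mul_assoc,
      Wi_mul_W, mul_one]
  rw [h1, h2, ← pr_zero_eq]
  conv_lhs => rw [← sum_pr (d := 3) f]
  have hc := c1_ne S
  revert hc
  generalize (((S.n1 : ℤ)) : ZMod 3) = c
  intro hc
  have h3 : ∑ j : ZMod 3, pr j f = pr (0 : ZMod 3) f + pr (1 : ZMod 3) f + pr (2 : ZMod 3) f :=
    Fin.sum_univ_three _
  rw [h3]
  obtain h | h : c = 1 ∨ c = 2 := by
    revert c
    decide
  · subst h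
    have h4 : (-1 : ZMod 3) = 2 := by decide
    rw [h4]
    ring
  · subst h
    have h4 : (-2 : ZMod 3) = 1 := by decide
    rw [h4]

/-! ### The criterion for `R + A[[σ]]` -/

/-- The polynomial part of a series in `σ^3`. -/
theorem exists_low_pol {t : LaurentSeries A} (ht : pr (0 : ZMod 3) t = t) :
    ∃ q : Polynomial A, ∀ m : ℤ, m ≤ 0 → (t - zpol A 3 q).coeff m = 0 := by
  classical
  obtain ⟨n, hn⟩ := exists_Pl t
  refine ⟨∑ k ∈ Finset.range (n + 1), Polynomial.monomial k (t.coeff (-((3 * k : ℕ) : ℤ))), ?_⟩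
  intro m hm
  rw [HahnSeries.coeff_sub]
  by_cases h3 : ((m : ℤ) : ZMod 3) = 0
  · rw [ZMod.intCast_zmod_eq_zero_iff_dvd] at h3
    obtain ⟨k, hk⟩ : ∃ k : ℕ, m = -((3 * k : ℕ) : ℤ) := by
      obtain ⟨c, hc⟩ := h3
      obtain ⟨k, hk⟩ := Int.eq_ofNat_of_zero_le (a := -c) (by push_cast at hc; omega)
      refine ⟨k, ?_⟩
      push_cast at hc ⊢
      omega
    rw [hk, ev_coeff 3 (by norm_num), Polynomial.finsetSum_coeff]
    simp only [Polynomial.coeff_monomial]
    rw [Finset.sum_ite_eq' (Finset.range (n + 1)) k]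
    split_ifs with h
    · exact sub_self _
    · rw [sub_zero]
      rw [Finset.mem_range, not_lt] at h
      exact hn _ (by push_cast; omega)
  · have h1 : t.coeff m = 0 := by rw [← ht, pr_coeff_ne t h3]
    rw [h1, ev_coeff_ne, sub_zero]
    rintro k rfl
    apply h3
    push_cast
    have : ((3 : ℤ) : ZMod 3) = 0 := by decide
    have h4 : (3 : ZMod 3) = 0 := by decide
    rw [h4]
    ring

theorem Y_mem : S.Y ∈ Po A S.n1 := by
  rw [Y_eq]
  have h1 : psl A S.r ∈ Po A 0 := by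
    intro m hm
    change ((S.r : LaurentSeries A)).coeff m = 0
    rw [PowerSeries.coeff_coe, if_pos (by omega)]
  have := mul_mem_Pl (single_mem_Pl (1 : A) (le_refl (-(S.n1 : ℤ)))) h1
  rwa [add_zero] at this

theorem W_mem : S.W ∈ Po A S.n2 := by
  have h1 : psl A (S.r ^ 2) ∈ Po A 0 := by
    intro m hm
    change (((S.r ^ 2 : PowerSeries A) : LaurentSeries A)).coeff m = 0
    rw [PowerSeries.coeff_coe, if_pos (by omega)]
  have := mul_mem_Pl (single_mem_Pl (1 : A) (le_refl (-(S.n2 : ℤ)))) h1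
  rw [add_zero] at this
  exact this

theorem Yi_mem : S.Yi ∈ Po A (-(S.n1 : ℤ)) := by
  have h1 : psl A S.ri ∈ Po A 0 := by
    intro m hm
    change ((S.ri : LaurentSeries A)).coeff m = 0
    rw [PowerSeries.coeff_coe, if_pos (by omega)]
  have := mul_mem_Pl (single_mem_Pl (n := -(S.n1 : ℤ)) (m := S.n1) (1 : A) (by omega)) h1
  rwa [add_zero] at this

theorem Wi_mem : S.Wi ∈ Po A (-(S.n2 : ℤ)) := by
  have h1 : psl A (S.ri ^ 2) ∈ Po A 0 := by
    intro m hm
    change (((S.ri ^ 2 : PowerSeries A) : LaurentSeries A)).coeff m = 0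
    rw [PowerSeries.coeff_coe, if_pos (by omega)]
  have := mul_mem_Pl (single_mem_Pl (n := -(S.n2 : ℤ)) (m := S.n2) (1 : A) (by omega)) h1
  rwa [add_zero] at this

theorem coeff_pr0 (f : LaurentSeries A) (i : ℕ) :
    (pr0 A 3 f).coeff (3 * i) = f.coeff (3 * i) := by
  rw [pr0_coeff, if_pos]
  exact Dvd.intro _ rfl

/-- Removing the polynomial part of a series in `σ^3` with vanishing middle coefficients. -/
theorem low_mem {t : LaurentSeries A} (ht : pr (0 : ZMod 3) t = t) (n : ℕ)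
    (h : ∀ i : ℕ, 1 ≤ i → 3 * i < n → t.coeff (3 * i) = 0) :
    ∃ q : Polynomial A, t - zpol A 3 q ∈ Po A (-(n : ℤ)) := by
  obtain ⟨q, hq⟩ := exists_low_pol ht
  refine ⟨q, fun m hm => ?_⟩
  rw [neg_neg] at hm
  by_cases h0 : m ≤ 0
  · exact hq m h0
  · rw [HahnSeries.coeff_sub, ev_coeff_pos 3 q m (by omega), sub_zero]
    by_cases h3 : ((m : ℤ) : ZMod 3) = 0
    · rw [ZMod.intCast_zmod_eq_zero_iff_dvd] at h3
      obtain ⟨c, hc⟩ := h3
      obtain ⟨i, rfl⟩ := Int.eq_ofNat_of_zero_le (a := c) (by push_cast at hc; omega)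
      push_cast at hc
      rw [hc]
      exact h i (by omega) (by omega)
    · rw [← ht, pr_coeff_ne t h3]

theorem crit (f : LaurentSeries A) : (∃ p ∈ S.R, f - p ∈ Po A 0) ↔
    (∀ i : ℕ, 1 ≤ i → 3 * i < S.n1 → (f * S.Yi).coeff (3 * i) = 0) ∧
    (∀ j : ℕ, 1 ≤ j → 3 * j < S.n2 → (f * S.Wi).coeff (3 * j) = 0) := by
  have hc := c1_ne S
  have hcc : (((S.n1 : ℤ)) : ZMod 3) + (((S.n1 : ℤ)) : ZMod 3) ≠ 0 := by
    revert hc
    generalize (((S.n1 : ℤ)) : ZMod 3) = c
    revert c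
    decide
  have hc' : -(((S.n1 : ℤ)) : ZMod 3) + -(((S.n1 : ℤ)) : ZMod 3) ≠ 0 := by
    revert hc
    generalize (((S.n1 : ℤ)) : ZMod 3) = c
    revert c
    decide
  constructor
  · rintro ⟨p, hp, hfp⟩
    obtain ⟨p0, q, s, rfl⟩ := (mem_R S p).1 hp
    set P := zpol A 3 p0 + zpol A 3 q * S.Y + zpol A 3 s * S.W with hP
    have e1 : pr (0 : ZMod 3) (P * S.Yi) = zpol A 3 q := by
      have : P * S.Yi = zpol A 3 p0 * S.Yi + zpol A 3 q + zpol A 3 s * (S.W * S.Yi) := by
        rw [hP]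
        linear_combination (zpol A 3 q) * Yi_mul_Y S
      rw [this, map_add, map_add, pr_mul_zero (pr_ev p0) (pr_Yi S) (by rwa [zero_add]), pr_ev,
        pr_ev_mul, pr_mul_zero (pr_W S) (pr_Yi S) hcc, mul_zero, zero_add, add_zero]
    have e2 : pr (0 : ZMod 3) (P * S.Wi) = zpol A 3 s := by
      have : P * S.Wi = zpol A 3 p0 * S.Wi + zpol A 3 q * (S.Y * S.Wi) + zpol A 3 s := by
        rw [hP]
        linear_combination (zpol A 3 s) * Wi_mul_W S
      rw [this, map_add, map_add, pr_mul_zero (pr_ev p0) (pr_Wi S)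
        (by rw [zero_add]; exact neg_ne_zero.2 hc), pr_ev,
        pr_ev_mul, pr_mul_zero (pr_Y S) (pr_Wi S) hc', mul_zero, zero_add, zero_add]
    rw [pr_zero_eq] at e1 e2
    constructor
    · intro i hi hi'
      have h1 : f * S.Yi = (f - P) * S.Yi + P * S.Yi := by ring
      have h2 : ((f - P) * S.Yi).coeff (3 * i) = 0 := by
        have := mul_mem_Pl hfp (Yi_mem S)
        exact this _ (by omega)
      rw [h1, HahnSeries.coeff_add, h2, zero_add, ← coeff_pr0, e1, ev_coeff_pos]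
      omega
    · intro j hj hj'
      have h1 : f * S.Wi = (f - P) * S.Wi + P * S.Wi := by ring
      have h2 : ((f - P) * S.Wi).coeff (3 * j) = 0 := by
        have := mul_mem_Pl hfp (Wi_mem S)
        exact this _ (by omega)
      rw [h1, HahnSeries.coeff_add, h2, zero_add, ← coeff_pr0, e2, ev_coeff_pos]
      omega
  · rintro ⟨h1, h2⟩
    have hp : ∀ h : LaurentSeries A, pr (0 : ZMod 3) (pr0 A 3 h) = pr0 A 3 h := fun h => by
      rw [← pr_zero_eq, pr_pr_same]
    obtain ⟨p0, hp0⟩ := low_mem (hp f) 0 (fun i _ hi => absurd hi (by omega))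
    obtain ⟨q, hq⟩ := low_mem (hp (f * S.Yi)) S.n1 (fun i hi hi' => by
      rw [coeff_pr0]
      exact h1 i hi hi')
    obtain ⟨s, hs⟩ := low_mem (hp (f * S.Wi)) S.n2 (fun i hi hi' => by
      rw [coeff_pr0]
      exact h2 i hi hi')
    refine ⟨_, (mem_R S _).2 ⟨p0, q, s, rfl⟩, ?_⟩
    have e : f - (zpol A 3 p0 + zpol A 3 q * S.Y + zpol A 3 s * S.W) =
        (pr0 A 3 f - zpol A 3 p0) + (pr0 A 3 (f * S.Yi) - zpol A 3 q) * S.Y +
          (pr0 A 3 (f * S.Wi) - zpol A 3 s) * S.W := by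
      linear_combination decomp S f
    rw [e]
    have a1 := mul_mem_Pl hq (Y_mem S)
    have a2 := mul_mem_Pl hs (W_mem S)
    rw [neg_add_cancel] at a1 a2
    exact add_mem (add_mem (by simpa using hp0) a1) a2

/-! ### `R` is a Krichever ring -/

theorem coeff_zpol_zero {p : Polynomial A} (h : ∀ m < 0, (zpol A 3 p).coeff m = 0) :
    p = Polynomial.C (p.coeff 0) := by
  ext k
  rw [Polynomial.coeff_C]
  split_ifs with hk
  · rw [hk]
  · rw [← ev_coeff 3 (by norm_num) p k]
    apply h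
    have : 0 < k := Nat.pos_of_ne_zero hk
    push_cast
    omega

theorem k1 (f : LaurentSeries A) (hf : f ∈ S.R) (h0 : f ∈ Po A 0) :
    ∃ a : A, f = algebraMap A (LaurentSeries A) a := by
  obtain ⟨p, q, s, rfl⟩ := (mem_R S f).1 hf
  obtain ⟨h1, h2, h3⟩ := pr_comb S (zpol A 3 p) (zpol A 3 q) (zpol A 3 s) (pr_ev p) (pr_ev q)
    (pr_ev s)
  have a1 : zpol A 3 p ∈ Po A 0 := by
    rw [← h1]
    exact pr_mem_Pl _ h0
  have a2 : zpol A 3 q ∈ Po A (-(S.n1 : ℤ)) := by
    have b : zpol A 3 q * S.Y ∈ Po A 0 := by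
      rw [← h2]
      exact pr_mem_Pl _ h0
    have c := mul_mem_Pl b (Yi_mem S)
    rwa [mul_assoc, mul_comm S.Y, Yi_mul_Y, mul_one, zero_add] at c
  have a3 : zpol A 3 s ∈ Po A (-(S.n2 : ℤ)) := by
    have b : zpol A 3 s * S.W ∈ Po A 0 := by
      rw [← h3]
      exact pr_mem_Pl _ h0
    have c := mul_mem_Pl b (Wi_mem S)
    rwa [mul_assoc, mul_comm S.W, Wi_mul_W, mul_one, zero_add] at c
  have hn1 : 0 < S.n1 := by
    simp only [SCD.n1]
    omega
  have hn2 : 0 < S.n2 := by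
    have := n2_eq S
    have := S.ha
    omega
  have hq : q = 0 := by
    ext k
    rw [← ev_coeff 3 (by norm_num) q k, Polynomial.coeff_zero]
    apply a2
    push_cast
    omega
  have hs : s = 0 := by
    ext k
    rw [← ev_coeff 3 (by norm_num) s k, Polynomial.coeff_zero]
    apply a3
    push_cast
    omega
  refine ⟨p.coeff 0, ?_⟩
  rw [hq, hs, map_zero, zero_mul, zero_mul, add_zero, add_zero, coeff_zpol_zero (p := p)
    (fun m hm => a1 m (by omega)), Polynomial.coeff_C_zero]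
  exact ev_C 3 _

/-- The coordinates on `A((σ))/(R + A[[σ]])`. -/
noncomputable def Lm : LaurentSeries A →ₗ[A] (Fin S.g → A) where
  toFun f k := if (k : ℕ) < S.n1 / 3 then (f * S.Yi).coeff (3 * ((k : ℕ) + 1)) else
    (f * S.Wi).coeff (3 * ((k : ℕ) - ((S.n1 / 3 : ℕ) : ℤ) + 1))
  map_add' f h := by
    funext k
    simp only [Pi.add_apply, add_mul, HahnSeries.coeff_add]
    split_ifs <;> rfl
  map_smul' a f := by
    funext k
    simp only [Pi.smul_apply, smul_mul_assoc, HahnSeries.coeff_smul, RingHom.id_apply]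
    split_ifs <;> rfl

theorem Lm_apply (f : LaurentSeries A) (k : Fin S.g) : Lm S f k =
    if (k : ℕ) < S.n1 / 3 then (f * S.Yi).coeff (3 * ((k : ℕ) + 1)) else
    (f * S.Wi).coeff (3 * ((k : ℕ) - ((S.n1 / 3 : ℕ) : ℤ) + 1)) := rfl

theorem n_div : S.n1 / 3 + S.n2 / 3 = S.g ∧ ¬ 3 ∣ S.n1 ∧ ¬ 3 ∣ S.n2 := by
  have h1 := n_add S
  have h2 : ¬ 3 ∣ S.n1 := S.h3
  omega

theorem Lm_zero (f : LaurentSeries A) : Lm S f = 0 ↔ ∃ p ∈ S.R, f - p ∈ Po A 0 := by
  rw [crit]
  obtain ⟨hg, h31, h32⟩ := n_div S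
  constructor
  · intro h
    constructor
    · intro i hi hi'
      have hi3 : i - 1 < S.n1 / 3 := by omega
      have h1 := congrFun h ⟨i - 1, by omega⟩
      rw [Lm_apply, if_pos hi3] at h1
      have e : (3 : ℤ) * (((i - 1 : ℕ) : ℤ) + 1) = 3 * i := by omega
      rwa [e] at h1
    · intro j hj hj'
      have h1 := congrFun h ⟨S.n1 / 3 + (j - 1), by omega⟩
      rw [Lm_apply, if_neg (by simp)] at h1
      have e : (3 : ℤ) * (((S.n1 / 3 + (j - 1) : ℕ) : ℤ) - ((S.n1 / 3 : ℕ) : ℤ) + 1) = 3 * j := by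
        omega
      rwa [e] at h1
  · rintro ⟨h1, h2⟩
    funext k
    rw [Lm_apply]
    split_ifs with hk
    · have := h1 (k + 1) (by omega) (by omega)
      push_cast at this
      exact this
    · have := h2 (k - S.n1 / 3 + 1) (by omega) (by omega)
      have e : (3 : ℤ) * ((k - S.n1 / 3 + 1 : ℕ) : ℤ) =
          3 * (((k : ℕ) : ℤ) - ((S.n1 / 3 : ℕ) : ℤ) + 1) := by
        omega
      rwa [e] at this

theorem Lm_surj : Function.Surjective (Lm S) := by
  classical
  intro c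
  have hc := c1_ne S
  have hcc : (((S.n1 : ℤ)) : ZMod 3) + (((S.n1 : ℤ)) : ZMod 3) ≠ 0 := by
    revert hc
    generalize (((S.n1 : ℤ)) : ZMod 3) = c
    revert c
    decide
  have hc' : -(((S.n1 : ℤ)) : ZMod 3) + -(((S.n1 : ℤ)) : ZMod 3) ≠ 0 := by
    revert hc
    generalize (((S.n1 : ℤ)) : ZMod 3) = c
    revert c
    decide
  let t1 : LaurentSeries A := ∑ k : Fin S.g, HahnSeries.single (3 * ((k : ℕ) + 1) : ℤ)
    (if (k : ℕ) < S.n1 / 3 then c k else 0)
  let t2 : LaurentSeries A := ∑ k : Fin S.g,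
    HahnSeries.single (3 * ((k : ℕ) - ((S.n1 / 3 : ℕ) : ℤ) + 1) : ℤ)
    (if (k : ℕ) < S.n1 / 3 then 0 else c k)
  have hsingle : ∀ (m : ℤ) (x : A), pr (0 : ZMod 3) (HahnSeries.single (3 * m) x) =
      HahnSeries.single (3 * m) x := by
    intro m x
    ext n
    rw [pr_coeff]
    split_ifs with h
    · rfl
    · rw [HahnSeries.coeff_single_of_ne]
      rintro rfl
      apply h
      rw [ZMod.intCast_zmod_eq_zero_iff_dvd]
      exact Dvd.intro _ rfl
  have h1 : pr (0 : ZMod 3) t1 = t1 := by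
    rw [map_sum]
    exact Finset.sum_congr rfl fun k _ => hsingle _ _
  have h2 : pr (0 : ZMod 3) t2 = t2 := by
    rw [map_sum]
    exact Finset.sum_congr rfl fun k _ => hsingle _ _
  have e1 : pr0 A 3 ((t1 * S.Y + t2 * S.W) * S.Yi) = t1 := by
    have : (t1 * S.Y + t2 * S.W) * S.Yi = t1 + t2 * (S.W * S.Yi) := by
      linear_combination t1 * Yi_mul_Y S
    rw [← pr_zero_eq, this, map_add, h1, pr_mul_of h2, sub_zero, pr_mul_zero (pr_W S) (pr_Yi S) hcc,
      mul_zero, add_zero]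
  have e2 : pr0 A 3 ((t1 * S.Y + t2 * S.W) * S.Wi) = t2 := by
    have : (t1 * S.Y + t2 * S.W) * S.Wi = t2 + t1 * (S.Y * S.Wi) := by
      linear_combination t2 * Wi_mul_W S
    rw [← pr_zero_eq, this, map_add, h2, pr_mul_of h1, sub_zero,
      pr_mul_zero (pr_Y S) (pr_Wi S) hc', mul_zero, add_zero]
  have hdvd : ∀ (f : LaurentSeries A) (m : ℤ), f.coeff (3 * m) = (pr0 A 3 f).coeff (3 * m) := by
    intro f m
    rw [pr0_coeff, if_pos]
    exact Dvd.intro _ rfl
  refine ⟨t1 * S.Y + t2 * S.W, funext fun k => ?_⟩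
  rw [Lm_apply]
  split_ifs with hk
  · rw [hdvd, e1, HahnSeries.coeff_sum, Finset.sum_eq_single k]
    · rw [if_pos hk, HahnSeries.coeff_single_same]
    · intro l _ hl
      rw [HahnSeries.coeff_single_of_ne]
      intro h
      apply hl
      ext
      omega
    · intro h
      exact absurd (Finset.mem_univ k) h
  · rw [hdvd, e2, HahnSeries.coeff_sum, Finset.sum_eq_single k]
    · rw [if_neg hk, HahnSeries.coeff_single_same]
    · intro l _ hl
      rw [HahnSeries.coeff_single_of_ne]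
      intro h
      apply hl
      ext
      omega
    · intro h
      exact absurd (Finset.mem_univ k) h

theorem kr : Kr S.g S.R :=
  Kr_iff.2 ⟨k1 S, Lm S, Lm_surj S, Lm_zero S⟩

end

end GST

open _root_.Pool.Agent.MG.G0.GST in
theorem t_GST : Stmt_GST := by
  intro A _ S
  exact ⟨Y_sq S, Y_mul_W S, W_sq S, pA_mul_pB S, Yi_mul_Y S, Wi_mul_W S, ld_Y S, ld_W S, mem_R S,
    uniq S, decomp S, crit S, kr S⟩

end Pool.Agent.MG.G0


end

section

/-!
# The special curve is superspecial (PAPER_G.md, GFR)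
-/

namespace Pool.Agent.MG.G0

open ZL

namespace GFR

section

variable {A : Type} [CommRing A]

/-- All exponents of `F` are congruent to `c` modulo `D`. -/
def Cls (D c : ℤ) (F : LaurentSeries A) : Prop := ∀ n : ℤ, F.coeff n ≠ 0 → D ∣ n - c

theorem Cls.mul {D c c' : ℤ} {F G : LaurentSeries A} (hF : Cls D c F) (hG : Cls D c' G) :
    Cls D (c + c') (F * G) := by
  intro n hn
  obtain ⟨a, ha⟩ := exists_low F
  obtain ⟨b, hb⟩ := exists_low G
  rw [coeff_mul_Icc ha hb] at hn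
  obtain ⟨i, _, hi⟩ := Finset.exists_ne_zero_of_sum_ne_zero hn
  have h1 := hF i (left_ne_zero_of_mul hi)
  have h2 := hG (n - i) (right_ne_zero_of_mul hi)
  have h3 : n - (c + c') = (i - c) + (n - i - c') := by ring
  rw [h3]
  exact dvd_add h1 h2

theorem Cls.sub {D c : ℤ} {F G : LaurentSeries A} (hF : Cls D c F) (hG : Cls D c G) :
    Cls D c (F - G) := by
  intro n hn
  rw [HahnSeries.coeff_sub] at hn
  by_cases h : F.coeff n = 0
  · exact hG n (fun h' => hn (by rw [h, h', sub_zero]))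
  · exact hF n h

theorem Cls.congr {D c c' : ℤ} {F : LaurentSeries A} (hF : Cls D c F) (h : D ∣ c - c') :
    Cls D c' F := by
  intro n hn
  have h3 : n - c' = (n - c) + (c - c') := by ring
  rw [h3]
  exact dvd_add (hF n hn) h

theorem Cls.single (D n : ℤ) (a : A) : Cls D n (HahnSeries.single n a) := by
  intro m hm
  by_cases h : m = n
  · rw [h, sub_self]
    exact dvd_zero _
  · exact absurd (HahnSeries.coeff_single_of_ne h) hm

theorem Cls.one (D : ℤ) : Cls D 0 (1 : LaurentSeries A) := Cls.single D 0 1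

theorem Cls.pow {D c : ℤ} {F : LaurentSeries A} (hF : Cls D c F) (k : ℕ) :
    Cls D (k * c) (F ^ k) := by
  induction k with
  | zero =>
    rw [pow_zero, Nat.cast_zero, zero_mul]
    exact Cls.one D
  | succ k ih =>
    rw [pow_succ]
    have h := ih.mul hF
    have e : (k : ℤ) * c + c = ((k + 1 : ℕ) : ℤ) * c := by push_cast; ring
    rwa [e] at h

theorem Cls.of_pr {c : ℤ} {F : LaurentSeries A} (h : pr (c : ZMod 3) F = F) : Cls 3 c F := by
  intro n hn
  by_contra hc
  apply hn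
  rw [← h, pr_coeff_ne]
  intro h1
  exact hc (by
    have h2 : (((n - c : ℤ)) : ZMod 3) = 0 := by
      push_cast
      rw [h1, sub_self]
    exact_mod_cast (ZMod.intCast_zmod_eq_zero_iff_dvd (n - c) 3).1 h2)

theorem Cls.coeff_eq_zero {D c n : ℤ} {F : LaurentSeries A} (h : Cls D c F) (hn : ¬ D ∣ n - c) :
    F.coeff n = 0 := by
  by_contra h1
  exact hn (h n h1)

variable (S : SCD A)

theorem clsY : Cls 3 (-(S.n1 : ℤ)) S.Y := Cls.of_pr (by
  have := GST.pr_Y S
  push_cast at this ⊢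
  exact this)

theorem clsYi : Cls 3 (S.n1 : ℤ) S.Yi := Cls.of_pr (GST.pr_Yi S)

theorem clsW : Cls 3 (S.n1 : ℤ) S.W := Cls.of_pr (GST.pr_W S)

theorem clsWi : Cls 3 (-(S.n1 : ℤ)) S.Wi := Cls.of_pr (by
  have := GST.pr_Wi S
  push_cast at this ⊢
  exact this)

theorem cls_pA (D : ℤ) : Cls D (-(3 * S.a : ℤ)) (zpol A 3 S.pA) := by
  rw [GST.ev_pA]
  exact Cls.single _ _ _

theorem cls_pD : Cls (3 * S.g : ℤ) (-3) (zpol A 3 S.pD) := by
  rw [GST.ev_pD]
  refine Cls.sub (Cls.congr (Cls.single _ _ _) ?_) (Cls.single _ _ _)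
  exact ⟨-1, by ring⟩

theorem cls_pB : Cls (3 * S.g : ℤ) (-(3 - 3 * S.a : ℤ)) (zpol A 3 S.pB) := by
  rw [GST.ev_pB]
  refine Cls.sub (Cls.congr (Cls.single _ _ _) ?_) (Cls.single _ _ _)
  exact ⟨-1, by ring⟩

/-- The class modulo three of a series in `σ^3`. -/
theorem Cls.three {D c : ℤ} {F : LaurentSeries A} (h : Cls D c F) (hD : (3 : ℤ) ∣ D)
    (hc : (3 : ℤ) ∣ c) : Cls 3 0 F := by
  intro n hn
  have h1 := hD.trans (h n hn)
  omega

theorem not_dvd_n1 : ¬ (3 : ℤ) ∣ (S.n1 : ℤ) := by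
  intro h
  exact (GST.n_div S).2.1 (by exact_mod_cast h)

/-- The functions whose `p`-th power is in `R + A[[σ]]`. -/
def Good (p : ℕ) (f : LaurentSeries A) : Prop := ∃ h ∈ S.R, f ^ p - h ∈ Po A 0

variable {S}

theorem Good.add {p : ℕ} [Fact p.Prime] [CharP (LaurentSeries A) p] {f f' : LaurentSeries A}
    (h : Good S p f) (h' : Good S p f') : Good S p (f + f') := by
  obtain ⟨x, hx, hx'⟩ := h
  obtain ⟨y, hy, hy'⟩ := h'
  refine ⟨x + y, add_mem hx hy, ?_⟩
  rw [add_pow_char]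
  have e : f ^ p + f' ^ p - (x + y) = (f ^ p - x) + (f' ^ p - y) := by ring
  rw [e]
  exact add_mem hx' hy'

theorem Good.of_mem {p : ℕ} {f : LaurentSeries A} (h : f ∈ S.R) : Good S p f :=
  ⟨f ^ p, pow_mem h p, by rw [sub_self]; exact zero_mem _⟩

theorem Good.of_Po {p : ℕ} {f : LaurentSeries A} (h : f ∈ Po A 0) : Good S p f :=
  ⟨0, zero_mem _, by
    rw [sub_zero]
    have := pow_mem_Pl h p
    rwa [mul_zero] at this⟩

theorem Good.zero {p : ℕ} : Good S p 0 := Good.of_mem (zero_mem _)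

theorem Good.sum {p : ℕ} [Fact p.Prime] [CharP (LaurentSeries A) p] {ι : Type} (s : Finset ι)
    (f : ι → LaurentSeries A) (h : ∀ i ∈ s, Good S p (f i)) : Good S p (∑ i ∈ s, f i) :=
  Finset.sum_induction f (Good S p) (fun _ _ => Good.add) Good.zero h

variable (S)

theorem m_dvd {p m : ℕ} (hm : p = 3 * m + 2) (hp : p % (3 * S.g) = 3 * S.g - 1) :
    (3 * S.g : ℤ) ∣ 3 * m + 3 := by
  have hg := S.hg
  have h1 := Nat.div_add_mod p (3 * S.g)
  rw [hp] at h1
  refine ⟨(p / (3 * S.g) : ℕ) + 1, ?_⟩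
  have h2 : ((3 * S.g * (p / (3 * S.g)) + (3 * S.g - 1) : ℕ) : ℤ) = (3 * m + 2 : ℕ) := by
    rw [h1, hm]
  have h3 : ((3 * S.g - 1 : ℕ) : ℤ) = 3 * S.g - 1 := by omega
  rw [Nat.cast_add, h3] at h2
  push_cast at h2 ⊢
  linarith

/-- The arithmetic of the exponents. -/
theorem arith {g i j n n' : ℤ} (hi : 1 ≤ i) (hi' : 3 * i < n) (hj : 1 ≤ j) (hj' : 3 * j < n')
    (hn : n + n' = 3 * (g + 1)) (hn3 : ¬ (3 : ℤ) ∣ n) (h : 3 * g ∣ 3 * j - (3 - 3 * i)) : False := by
  obtain ⟨k, hk⟩ := h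
  have h1 : j = 1 - i + g * k := by linarith
  have hg : 0 < g := by omega
  have hk1 : 0 < k := by
    by_contra hc
    have : g * k ≤ 0 := mul_nonpos_of_nonneg_of_nonpos hg.le (not_lt.1 hc)
    omega
  have h2 : g ≤ g * k := by nlinarith
  omega

theorem goodY {p m : ℕ} (hm : p = 3 * m + 2) (hp : p % (3 * S.g) = 3 * S.g - 1) (i : ℕ)
    (hi : 1 ≤ i) (hi' : 3 * i < S.n1) (c : A) :
    Good S p (HahnSeries.single (3 * i : ℤ) c * S.Y) := by
  have hn3 := not_dvd_n1 S
  have hpow : (HahnSeries.single (3 * i : ℤ) c * S.Y) ^ p =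
      (HahnSeries.single (p * (3 * i) : ℤ) (c ^ p) * (zpol A 3 S.pA * zpol A 3 S.pD) ^ m *
        zpol A 3 S.pA) * S.W := by
    have h3 : S.Y ^ 3 = zpol A 3 S.pA * zpol A 3 S.pD := by
      rw [pow_succ, GST.Y_sq, mul_assoc, mul_comm S.W, GST.Y_mul_W]
    have h4 : S.Y ^ p = (zpol A 3 S.pA * zpol A 3 S.pD) ^ m * (zpol A 3 S.pA * S.W) := by
      rw [hm, pow_add, pow_mul, h3, GST.Y_sq]
    rw [mul_pow, HahnSeries.single_pow, nsmul_eq_mul, h4]
    ring
  have hcls : Cls (3 * S.g : ℤ) (3 - 3 * i) (HahnSeries.single (p * (3 * i) : ℤ) (c ^ p) *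
      (zpol A 3 S.pA * zpol A 3 S.pD) ^ m * zpol A 3 S.pA) := by
    refine Cls.congr (((Cls.single (3 * S.g : ℤ) (p * (3 * i) : ℤ) (c ^ p)).mul
      (((cls_pA S _).mul (cls_pD S)).pow m)).mul (cls_pA S _)) ?_
    have h1 := m_dvd S hm hp
    have e : (p * (3 * i) : ℤ) + m * (-(3 * S.a) + -3) + -(3 * S.a) - (3 - 3 * i) =
        (3 * m + 3) * (3 * i - S.a - 1) := by
      rw [hm]
      push_cast
      ring
    rw [e]
    exact Dvd.dvd.mul_right h1 _
  have hcls3 := hcls.three (Dvd.intro _ rfl) ⟨1 - i, by ring⟩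
  refine (GST.crit S _).2 ⟨?_, ?_⟩
  · intro i' _ _
    rw [hpow, mul_assoc]
    refine Cls.coeff_eq_zero (hcls3.mul ((clsW S).mul (clsYi S))) ?_
    omega
  · intro j hj hj'
    rw [hpow, mul_assoc, mul_comm S.W, GST.Wi_mul_W, mul_one]
    refine Cls.coeff_eq_zero hcls fun h => ?_
    exact arith (g := S.g) (i := i) (j := j) (n := S.n1) (n' := S.n2) (by omega) (by omega)
      (by omega) (by omega) (GST.n_add S) hn3 h

theorem goodW {p m : ℕ} (hm : p = 3 * m + 2) (hp : p % (3 * S.g) = 3 * S.g - 1) (i : ℕ)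
    (hi : 1 ≤ i) (hi' : 3 * i < S.n2) (c : A) :
    Good S p (HahnSeries.single (3 * i : ℤ) c * S.W) := by
  have hn3 := not_dvd_n1 S
  have hna := GST.n_add S
  have hpow : (HahnSeries.single (3 * i : ℤ) c * S.W) ^ p =
      (HahnSeries.single (p * (3 * i) : ℤ) (c ^ p) * (zpol A 3 S.pB * zpol A 3 S.pD) ^ m *
        zpol A 3 S.pB) * S.Y := by
    have h3 : S.W ^ 3 = zpol A 3 S.pB * zpol A 3 S.pD := by
      rw [pow_succ, GST.W_sq, mul_assoc, GST.Y_mul_W]
    have h4 : S.W ^ p = (zpol A 3 S.pB * zpol A 3 S.pD) ^ m * (zpol A 3 S.pB * S.Y) := by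
      rw [hm, pow_add, pow_mul, h3, GST.W_sq]
    rw [mul_pow, HahnSeries.single_pow, nsmul_eq_mul, h4]
    ring
  have hcls : Cls (3 * S.g : ℤ) (3 - 3 * i) (HahnSeries.single (p * (3 * i) : ℤ) (c ^ p) *
      (zpol A 3 S.pB * zpol A 3 S.pD) ^ m * zpol A 3 S.pB) := by
    refine Cls.congr (((Cls.single (3 * S.g : ℤ) (p * (3 * i) : ℤ) (c ^ p)).mul
      (((cls_pB S).mul (cls_pD S)).pow m)).mul (cls_pB S)) ?_
    have h1 := m_dvd S hm hp
    have e : (p * (3 * i) : ℤ) + m * (-(3 - 3 * S.a) + -3) + -(3 - 3 * S.a) - (3 - 3 * i) =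
        (3 * m + 3) * (3 * i - 2 + S.a) := by
      rw [hm]
      push_cast
      ring
    rw [e]
    exact Dvd.dvd.mul_right h1 _
  have hcls3 := hcls.three (Dvd.intro _ rfl) ⟨1 - i, by ring⟩
  refine (GST.crit S _).2 ⟨?_, ?_⟩
  · intro j hj hj'
    rw [hpow, mul_assoc, mul_comm S.Y, GST.Yi_mul_Y, mul_one]
    refine Cls.coeff_eq_zero hcls fun h => ?_
    exact arith (g := S.g) (i := i) (j := j) (n := S.n2) (n' := S.n1) (by omega) (by omega)
      (by omega) (by omega) (by rw [add_comm]; exact hna) (by omega) h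
  · intro i' _ _
    rw [hpow, mul_assoc]
    refine Cls.coeff_eq_zero (hcls3.mul ((clsY S).mul (clsWi S))) ?_
    omega

/-- The part of `f` with exponents `3 i`, `1 ≤ i`, `3 i < n`. -/
noncomputable def mid (n : ℕ) (f : LaurentSeries A) : LaurentSeries A :=
  ∑ i ∈ (Finset.range n).filter fun i => 1 ≤ i ∧ 3 * i < n,
    HahnSeries.single (3 * i : ℤ) (f.coeff (3 * i))

theorem mid_coeff (n : ℕ) (f : LaurentSeries A) (i : ℕ) (hi : 1 ≤ i) (hi' : 3 * i < n) :
    (mid n f).coeff (3 * i) = f.coeff (3 * i) := by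
  classical
  rw [mid, HahnSeries.coeff_sum, Finset.sum_eq_single i]
  · rw [HahnSeries.coeff_single_same]
  · intro j _ hj
    rw [HahnSeries.coeff_single_of_ne]
    omega
  · intro h
    exfalso
    apply h
    rw [Finset.mem_filter, Finset.mem_range]
    omega

theorem mid_cls (n : ℕ) (f : LaurentSeries A) : Cls 3 0 (mid n f) := by
  intro m hm
  rw [mid, HahnSeries.coeff_sum] at hm
  obtain ⟨i, _, hi⟩ := Finset.exists_ne_zero_of_sum_ne_zero hm
  have := Cls.single 3 (3 * i : ℤ) _ m hi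
  omega

theorem good {p : ℕ} [Fact p.Prime] [CharP (LaurentSeries A) p]
    (hp : p % (3 * S.g) = 3 * S.g - 1) (f : LaurentSeries A) : Good S p f := by
  have hg := S.hg
  have hn3 := not_dvd_n1 S
  obtain ⟨m, hm⟩ : ∃ m, p = 3 * m + 2 := by
    have h1 := Nat.div_add_mod p (3 * S.g)
    rw [hp] at h1
    refine ⟨S.g * (p / (3 * S.g)) + (S.g - 1), ?_⟩
    have e : 3 * (S.g * (p / (3 * S.g)) + (S.g - 1)) + 2 =
        3 * S.g * (p / (3 * S.g)) + (3 * S.g - 1) := by
      rw [mul_add, ← mul_assoc]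
      omega
    rw [e, h1]
  have e : f = (f - mid S.n1 (f * S.Yi) * S.Y - mid S.n2 (f * S.Wi) * S.W) +
      (mid S.n1 (f * S.Yi) * S.Y + mid S.n2 (f * S.Wi) * S.W) := by ring
  obtain ⟨h, hR, h0⟩ := (GST.crit S (f - mid S.n1 (f * S.Yi) * S.Y -
      mid S.n2 (f * S.Wi) * S.W)).2 (by
    constructor
    · intro i hi hi'
      have e1 : (f - mid S.n1 (f * S.Yi) * S.Y - mid S.n2 (f * S.Wi) * S.W) * S.Yi =
          f * S.Yi - mid S.n1 (f * S.Yi) - mid S.n2 (f * S.Wi) * (S.W * S.Yi) := by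
        linear_combination (-mid S.n1 (f * S.Yi)) * GST.Yi_mul_Y S
      rw [e1, HahnSeries.coeff_sub, HahnSeries.coeff_sub, mid_coeff _ _ i hi hi', sub_self, zero_sub,
        Cls.coeff_eq_zero ((mid_cls _ _).mul ((clsW S).mul (clsYi S))) (by omega), neg_zero]
    · intro i hi hi'
      have e1 : (f - mid S.n1 (f * S.Yi) * S.Y - mid S.n2 (f * S.Wi) * S.W) * S.Wi =
          f * S.Wi - mid S.n2 (f * S.Wi) - mid S.n1 (f * S.Yi) * (S.Y * S.Wi) := by
        linear_combination (-mid S.n2 (f * S.Wi)) * GST.Wi_mul_W S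
      rw [e1, HahnSeries.coeff_sub, HahnSeries.coeff_sub, mid_coeff _ _ i hi hi', sub_self, zero_sub,
        Cls.coeff_eq_zero ((mid_cls _ _).mul ((clsY S).mul (clsWi S))) (by omega), neg_zero])
  have e2 : f - mid S.n1 (f * S.Yi) * S.Y - mid S.n2 (f * S.Wi) * S.W =
      h + (f - mid S.n1 (f * S.Yi) * S.Y - mid S.n2 (f * S.Wi) * S.W - h) := by ring
  rw [e]
  refine Good.add ?_ (Good.add ?_ ?_)
  · rw [e2]
    exact Good.add (Good.of_mem hR) (Good.of_Po h0)
  · rw [mid, Finset.sum_mul]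
    refine Good.sum _ _ fun i hi => ?_
    rw [Finset.mem_filter] at hi
    exact goodY S hm hp i hi.2.1 hi.2.2 _
  · rw [mid, Finset.sum_mul]
    refine Good.sum _ _ fun i hi => ?_
    rw [Finset.mem_filter] at hi
    exact goodW S hm hp i hi.2.1 hi.2.2 _

end

end GFR

theorem t_GFR (_h1 : Stmt_GST) : Stmt_GFR := by
  intro A _ S p hp hA hpg
  have : Fact p.Prime := ⟨hp⟩
  have hinj : Function.Injective (algebraMap A (LaurentSeries A)) := by
    intro a b hab
    have := congrArg (fun f : LaurentSeries A => f.coeff 0) hab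
    simpa [coeff_algebraMap] using this
  have : CharP (LaurentSeries A) p := charP_of_injective_ringHom hinj p
  exact fun f => GFR.good S hpg f

end Pool.Agent.MG.G0


end

section

/-!
# MAL: an abstract lemma on families of multilinear forms
-/

namespace Pool.Agent.MG.G0

namespace MAL

variable {n : Type} [DecidableEq n] {A V : Type} [CommRing A] [AddCommGroup V] [Module A V]

/-- Two families, equal outside `Z` and with the same values of `ρ`. -/
theorem tele (M : MultilinearMap A (fun _ : n => V) A) (ρ : V →ₗ[A] A) (Z : Finset n)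
    (hZ : ∀ j ∈ Z, ∀ ω : n → V, (∀ i, i ∉ Z.erase j → ρ (ω i) = 0) → M ω = 0)
    (ω ω' : n → V) (h0 : ∀ i, i ∉ Z → ρ (ω i) = 0) (h1 : ∀ i, i ∉ Z → ω' i = ω i)
    (h2 : ∀ i ∈ Z, ρ (ω i) = ρ (ω' i)) : M ω = M ω' := by
  have key : ∀ W : Finset n, W ⊆ Z → M (W.piecewise ω' ω) = M ω := by
    intro W
    induction W using Finset.induction_on with
    | empty => intro _; simp
    | insert j W hj ih =>
      intro hW
      have hjZ : j ∈ Z := hW (Finset.mem_insert_self j W)
      have hWZ : W ⊆ Z := fun x hx => hW (Finset.mem_insert_of_mem hx)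
      rw [← ih hWZ, Finset.piecewise_insert]
      have e1 : M (W.piecewise ω' ω) = M (Function.update (W.piecewise ω' ω) j (ω j)) := by
        congr 1
        rw [eq_comm, Function.update_eq_self_iff, Finset.piecewise_eq_of_notMem _ _ _ hj]
      rw [e1, ← sub_eq_zero, ← MultilinearMap.map_update_sub]
      refine hZ j hjZ _ fun i hi => ?_
      by_cases hij : i = j
      · subst hij
        rw [Function.update_self, map_sub, h2 i hjZ, sub_self]
      · have hiZ : i ∉ Z := fun h => hi (Finset.mem_erase.2 ⟨hij, h⟩)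
        rw [Function.update_of_ne hij]
        by_cases hiW : i ∈ W
        · exact absurd (hWZ hiW) hiZ
        · rw [Finset.piecewise_eq_of_notMem _ _ _ hiW]
          exact h0 i hiZ
  have h3 : Z.piecewise ω' ω = ω' := by
    ext i
    by_cases hi : i ∈ Z
    · rw [Finset.piecewise_eq_of_mem _ _ _ hi]
    · rw [Finset.piecewise_eq_of_notMem _ _ _ hi, h1 i hi]
  rw [← key Z subset_rfl, h3]

/-- From a generating set to its span, outside `Z`. -/
theorem ext_span [Fintype n] (M : MultilinearMap A (fun _ : n => V) A) (ρ : V →ₗ[A] A)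
    (Z : Finset n) (T : Set V)
    (h : ∀ ω : n → V, (∀ i, i ∉ Z → ω i ∈ T) → (∀ i ∈ Z, ρ (ω i) = 1) → M ω = 0)
    (ω : n → V) (h0 : ∀ i, i ∉ Z → ω i ∈ Submodule.span A T) (h1 : ∀ i ∈ Z, ρ (ω i) = 1) :
    M ω = 0 := by
  have key : ∀ (W : Finset n) (ω : n → V), (∀ i, i ∉ Z → i ∈ W → ω i ∈ Submodule.span A T) →
      (∀ i, i ∉ Z → i ∉ W → ω i ∈ T) → (∀ i ∈ Z, ρ (ω i) = 1) → M ω = 0 := by
    intro W
    induction W using Finset.induction_on with
    | empty =>
      intro ω _ h2 h3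
      exact h ω (fun i hi => h2 i hi (Finset.notMem_empty i)) h3
    | insert j W hj ih =>
      intro ω h2 h3 h4
      by_cases hjZ : j ∈ Z
      · refine ih ω (fun i hi hiW => h2 i hi (Finset.mem_insert_of_mem hiW))
          (fun i hi hiW => h3 i hi fun h5 => ?_) h4
        rcases Finset.mem_insert.1 h5 with h6 | h6
        · exact hi (h6 ▸ hjZ)
        · exact hiW h6
      · have h5 : Submodule.span A T ≤ LinearMap.ker (M.toLinearMap ω j) := by
          rw [Submodule.span_le]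
          intro x hx
          rw [SetLike.mem_coe, LinearMap.mem_ker]
          show M (Function.update ω j x) = 0
          refine ih _ (fun i hi hiW => ?_) (fun i hi hiW => ?_) (fun i hi => ?_)
          · have hij : i ≠ j := fun h => hj (h ▸ hiW)
            rw [Function.update_of_ne hij]
            exact h2 i hi (Finset.mem_insert_of_mem hiW)
          · by_cases hij : i = j
            · subst hij
              rw [Function.update_self]
              exact hx
            · rw [Function.update_of_ne hij]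
              refine h3 i hi fun h6 => ?_
              rcases Finset.mem_insert.1 h6 with h7 | h7
              · exact hij h7
              · exact hiW h7
          · have hij : i ≠ j := fun h => hjZ (h ▸ hi)
            rw [Function.update_of_ne hij]
            exact h4 i hi
        have h6 := h5 (h2 j hjZ (Finset.mem_insert_self j W))
        rw [LinearMap.mem_ker] at h6
        have h7 : M (Function.update ω j (ω j)) = 0 := h6
        rwa [Function.update_eq_self] at h7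
  exact key Finset.univ ω (fun i hi _ => h0 i hi)
    (fun i _ hi => absurd (Finset.mem_univ i) hi) h1

/-- Expansion of the entries in `Z`. -/
theorem expand (M : MultilinearMap A (fun _ : n => V) A) (ρ : V →ₗ[A] A) (Z : Finset n)
    (v : V) (hv : ρ v = 1)
    (hZ : ∀ j ∈ Z, ∀ ω : n → V, (∀ i, i ∉ Z.erase j → ρ (ω i) = 0) → M ω = 0)
    (h : ∀ ω : n → V, (∀ i, i ∉ Z → ρ (ω i) = 0) → (∀ i ∈ Z, ρ (ω i) = 1) → M ω = 0)
    (ω : n → V) (h0 : ∀ i, i ∉ Z → ρ (ω i) = 0) : M ω = 0 := by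
  have key : ∀ W : Finset n, W ⊆ Z → M (W.piecewise (fun _ => v) ω) = 0 → M ω = 0 := by
    intro W
    induction W using Finset.induction_on with
    | empty => intro _ h1; rwa [Finset.piecewise_empty] at h1
    | insert j W hj ih =>
      intro hW h1
      have hjZ : j ∈ Z := hW (Finset.mem_insert_self j W)
      have hWZ : W ⊆ Z := fun x hx => hW (Finset.mem_insert_of_mem hx)
      refine ih hWZ ?_
      rw [Finset.piecewise_insert] at h1
      have e1 : M (W.piecewise (fun _ => v) ω) =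
          M (Function.update (W.piecewise (fun _ => v) ω) j
            (ρ (ω j) • v + (ω j - ρ (ω j) • v))) := by
        congr 1
        rw [add_sub_cancel, eq_comm, Function.update_eq_self_iff,
          Finset.piecewise_eq_of_notMem _ _ _ hj]
      rw [e1, MultilinearMap.map_update_add, MultilinearMap.map_update_smul, h1, smul_zero,
        zero_add]
      refine hZ j hjZ _ fun i hi => ?_
      by_cases hij : i = j
      · subst hij
        rw [Function.update_self, map_sub, map_smul, hv, smul_eq_mul, mul_one, sub_self]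
      · have hiZ : i ∉ Z := fun h => hi (Finset.mem_erase.2 ⟨hij, h⟩)
        rw [Function.update_of_ne hij]
        by_cases hiW : i ∈ W
        · exact absurd (hWZ hiW) hiZ
        · rw [Finset.piecewise_eq_of_notMem _ _ _ hiW]
          exact h0 i hiZ
  refine key Z subset_rfl (h _ (fun i hi => ?_) fun i hi => ?_)
  · rw [Finset.piecewise_eq_of_notMem _ _ _ hi]
    exact h0 i hi
  · rw [Finset.piecewise_eq_of_mem _ _ _ hi]
    exact hv

end MAL

theorem t_MAL : Stmt_MAL := by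
  intro n _ _ S A V _ _ _ M ρ E₀ _ io h1 h2 h3 h4
  have key : ∀ (Z : Finset n) (s : S) (ω : n → V s), (∀ i, i ∉ Z → ρ s (ω i) = 0) →
      M s ω = 0 := by
    intro Z
    induction Z using Finset.strongInduction with
    | H Z ih =>
      intro s ω hω
      have ih' : ∀ (s : S), ∀ j ∈ Z, ∀ ω : n → V s, (∀ i, i ∉ Z.erase j → ρ s (ω i) = 0) →
          M s ω = 0 := fun s j hj => ih (Z.erase j) (Finset.erase_ssubset hj) s
      obtain ⟨v, hv⟩ := h1 s
      refine MAL.expand (M s) (ρ s) Z v hv (ih' s) (fun ω h5 h6 => ?_) ω hω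
      refine MAL.ext_span (M s) (ρ s) Z (Set.range (io s)) (fun ω h7 h8 => ?_) ω
        (fun i hi => h3 s _ (h5 i hi)) h6
      have he : ∀ i, ∃ e : E₀, i ∉ Z → ω i = io s e := by
        intro i
        by_cases hi : i ∈ Z
        · exact ⟨Classical.arbitrary E₀, fun h => absurd hi h⟩
        · obtain ⟨e, he⟩ := h7 i hi
          exact ⟨e, fun _ => he.symm⟩
      choose e he using he
      refine h4 Z e (fun s' ω₁ ω₂ h9 h10 => ?_) s ω he h8
      refine MAL.tele (M s') (ρ s') Z (ih' s') ω₁ ω₂ (fun i hi => ?_) (fun i hi => ?_)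
        fun i hi => ?_
      · rw [(h9 i hi).1]
        exact h2 s' (e i)
      · rw [(h9 i hi).1, (h9 i hi).2]
      · rw [(h10 i hi).1, (h10 i hi).2]
  intro s
  ext ω
  exact key Finset.univ s ω fun i hi => absurd (Finset.mem_univ i) hi

end Pool.Agent.MG.G0


end

section

/-!
# PL1: plumbing increases the genus by one
-/

namespace Pool.Agent.MG.G0

namespace PL1

section

variable {A : Type} [CommRing A]

/-- A perturbation, by a nilpotent multiple, of a surjection onto a projective module. -/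
theorem pert {M T : Type} [AddCommGroup M] [AddCommGroup T] [Module A M] [Module A T]
    [Module.Projective A T] (F X : M →ₗ[A] T) (hF : Function.Surjective F) (t : A)
    (ht : IsNilpotent t) (hK : ∀ m, F m = 0 → t • X m = 0) :
    (∃ σ : T →ₗ[A] M, ∀ y, F (σ y) + t • X (σ y) = y) ∧
      ∀ m, F m + t • X m = 0 → F m = 0 := by
  obtain ⟨s, hs⟩ := Module.projective_lifting_property F LinearMap.id hF
  have hs' : ∀ y, F (s y) = y := fun y => by
    have := congrArg (fun l : T →ₗ[A] T => l y) hs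
    exact this
  have hn : IsNilpotent (t • (X.comp s) : Module.End A T) := by
    obtain ⟨n, hn⟩ := ht
    refine ⟨n, ?_⟩
    rw [smul_pow, hn, zero_smul]
  obtain ⟨U, hU⟩ := hn.isUnit_one_add
  have hU' : ∀ y, (U : Module.End A T) y = F (s y) + t • X (s y) := fun y => by
    rw [hU, hs' y]
    rfl
  have h1 : ∀ y, (U : Module.End A T) ((↑U⁻¹ : Module.End A T) y) = y := fun y => by
    rw [← Module.End.mul_apply, Units.mul_inv, Module.End.one_apply]
  have h2 : ∀ y, (↑U⁻¹ : Module.End A T) ((U : Module.End A T) y) = y := fun y => by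
    rw [← Module.End.mul_apply, Units.inv_mul, Module.End.one_apply]
  refine ⟨⟨s.comp (↑U⁻¹ : Module.End A T), fun y => ?_⟩, fun m hm => ?_⟩
  · rw [LinearMap.comp_apply, ← hU', h1]
  · have hk : F (m - s (F m)) = 0 := by rw [map_sub, hs', sub_self]
    have hk' := hK _ hk
    rw [map_sub, smul_sub] at hk'
    have h3 : (U : Module.End A T) (F m) = 0 := by
      rw [hU', hs', ← hm, sub_eq_zero.1 hk']
    rw [← h2 (F m), h3, map_zero]

theorem polar_fin {I : Type} [Fintype I] (f : KK I A) :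
    (Function.support fun p : I × ℕ => (f p.1).coeff (-((p.2 : ℤ) + 1))).Finite := by
  obtain ⟨n, hn⟩ := exists_Pol f
  refine ((Set.finite_univ (α := I)).prod (Set.finite_lt_nat n)).subset ?_
  rintro ⟨i, m⟩ h
  refine ⟨Set.mem_univ _, ?_⟩
  change m < n
  by_contra hc
  exact h (hn i _ (by omega))

/-- The polar part. -/
noncomputable def polar {I : Type} [Fintype I] : KK I A →ₗ[A] (I × ℕ →₀ A) where
  toFun f := Finsupp.ofSupportFinite (fun p => (f p.1).coeff (-((p.2 : ℤ) + 1))) (polar_fin f)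
  map_add' f g := by
    ext p
    rw [Finsupp.add_apply, Finsupp.ofSupportFinite_coe, Finsupp.ofSupportFinite_coe,
      Finsupp.ofSupportFinite_coe, Pi.add_apply, HahnSeries.coeff_add]
  map_smul' a f := by
    ext p
    rw [RingHom.id_apply, Finsupp.smul_apply, Finsupp.ofSupportFinite_coe,
      Finsupp.ofSupportFinite_coe, Pi.smul_apply, HahnSeries.coeff_smul]

theorem polar_apply {I : Type} [Fintype I] (f : KK I A) (p : I × ℕ) :
    polar f p = (f p.1).coeff (-((p.2 : ℤ) + 1)) := by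
  change Finsupp.ofSupportFinite _ _ p = _
  rw [Finsupp.ofSupportFinite_coe]

theorem polar_eq_zero {I : Type} [Fintype I] {f : KK I A} : polar f = 0 ↔ f ∈ Pol I A 0 := by
  constructor
  · intro h i m hm
    have h1 := DFunLike.congr_fun h (i, (-m - 1).toNat)
    rw [polar_apply, Finsupp.zero_apply] at h1
    have e : -(((((i, (-m - 1).toNat) : I × ℕ).2 : ℕ) : ℤ) + 1) = m := by
      change -(((-m - 1).toNat : ℤ) + 1) = m
      omega
    rw [e] at h1
    exact h1
  · intro h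
    ext p
    rw [polar_apply, Finsupp.zero_apply]
    exact h _ _ (by omega)

theorem polar_surj {I : Type} [Fintype I] (c : I × ℕ →₀ A) : ∃ f : KK I A, polar f = c := by
  classical
  induction c using Finsupp.induction_linear with
  | zero => exact ⟨0, map_zero _⟩
  | add c c' h h' =>
    obtain ⟨f, rfl⟩ := h
    obtain ⟨g, rfl⟩ := h'
    exact ⟨f + g, map_add _ _ _⟩
  | single p a =>
    refine ⟨mon p.1 (-((p.2 : ℤ) + 1)) a, ?_⟩
    ext q
    rw [polar_apply, mon_coeff, Finsupp.single_apply]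
    by_cases h : p = q
    · subst h
      simp
    · rw [if_neg h, if_neg]
      rintro ⟨h1, h2⟩
      exact h (Prod.ext h1.symm (by omega))

/-- The map `atI` as a linear map. -/
noncomputable def lI (I J A : Type) [CommRing A] : KK (I ⊕ J) A →ₗ[A] KK I A where
  toFun := atI
  map_add' _ _ := rfl
  map_smul' _ _ := rfl

/-- The equations of the annulus. -/
noncomputable def Th (I : Type) (N : ℕ) (t : A) :
    KK (I ⊕ Bool) A →ₗ[A] (Bool × Fin N → A) where
  toFun w p := (w (Sum.inr p.1)).coeff (-((p.2 : ℤ) + 1)) -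
    t ^ ((p.2 : ℕ) + 1) * (w (Sum.inr (!p.1))).coeff ((p.2 : ℤ) + 1)
  map_add' f g := by
    funext p
    simp only [Pi.add_apply, HahnSeries.coeff_add]
    ring
  map_smul' a f := by
    funext p
    simp only [Pi.smul_apply, HahnSeries.coeff_smul, smul_eq_mul, RingHom.id_apply]
    ring

/-- The perturbation. -/
noncomputable def Xh (I : Type) (N : ℕ) (t : A) :
    KK (I ⊕ Bool) A →ₗ[A] (Bool × Fin N → A) where
  toFun w p := -(t ^ (p.2 : ℕ) * (w (Sum.inr (!p.1))).coeff ((p.2 : ℤ) + 1))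
  map_add' f g := by
    funext p
    simp only [Pi.add_apply, HahnSeries.coeff_add]
    ring
  map_smul' a f := by
    funext p
    simp only [Pi.smul_apply, HahnSeries.coeff_smul, smul_eq_mul, RingHom.id_apply]
    ring

theorem Th_eq {I : Type} (N : ℕ) (t : A) (w : KK (I ⊕ Bool) A) :
    Th I N t w = Th I N 0 w + t • Xh I N t w := by
  funext p
  change (w (Sum.inr p.1)).coeff (-((p.2 : ℤ) + 1)) -
    t ^ ((p.2 : ℕ) + 1) * (w (Sum.inr (!p.1))).coeff ((p.2 : ℤ) + 1) =
    ((w (Sum.inr p.1)).coeff (-((p.2 : ℤ) + 1)) -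
    0 ^ ((p.2 : ℕ) + 1) * (w (Sum.inr (!p.1))).coeff ((p.2 : ℤ) + 1)) +
    t * -(t ^ (p.2 : ℕ) * (w (Sum.inr (!p.1))).coeff ((p.2 : ℤ) + 1))
  rw [zero_pow (Nat.succ_ne_zero _), pow_succ]
  ring

/-- The difference of the values. -/
noncomputable def dv (I A : Type) [CommRing A] : KK (I ⊕ Bool) A →ₗ[A] A where
  toFun w := (w (Sum.inr true)).coeff 0 - (w (Sum.inr false)).coeff 0
  map_add' f g := by
    simp only [Pi.add_apply, HahnSeries.coeff_add]
    ring
  map_smul' a f := by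
    simp only [Pi.smul_apply, HahnSeries.coeff_smul, smul_eq_mul, RingHom.id_apply]
    ring

theorem mem_Nt_iff {I : Type} {N : ℕ} {t : A} (ht : t ^ N = 0) {w : KK (I ⊕ Bool) A} :
    atJ w ∈ Nt t ↔ atJ w ∈ Pol Bool A N ∧ Th I N t w = 0 ∧ dv I A w = 0 := by
  constructor
  · intro h
    rw [mem_Nt] at h
    refine ⟨fun b m hm => ?_, ?_, ?_⟩
    · have h1 := h b (-m).toNat
      have e : -(((-m).toNat : ℕ) : ℤ) = m := by omega
      rw [e] at h1
      rw [h1, pow_eq_zero_of_le (by omega : N ≤ (-m).toNat) ht, zero_mul]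
    · funext p
      have h1 := h p.1 ((p.2 : ℕ) + 1)
      change (w (Sum.inr p.1)).coeff (-((p.2 : ℤ) + 1)) -
        t ^ ((p.2 : ℕ) + 1) * (w (Sum.inr (!p.1))).coeff ((p.2 : ℤ) + 1) = 0
      rw [sub_eq_zero]
      exact_mod_cast h1
    · have h1 := h true 0
      change (w (Sum.inr true)).coeff 0 - (w (Sum.inr false)).coeff 0 = 0
      rw [sub_eq_zero]
      simpa [atJ] using h1
  · rintro ⟨h1, h2, h3⟩
    have h3' : (w (Sum.inr true)).coeff 0 = (w (Sum.inr false)).coeff 0 := sub_eq_zero.1 h3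
    rw [mem_Nt]
    intro b j
    rcases Nat.eq_zero_or_pos j with h | h
    · subst h
      cases b
      · simpa [atJ] using h3'.symm
      · simpa [atJ] using h3'
    · rcases lt_or_ge N j with hj | hj
      · rw [h1 b _ (by omega), pow_eq_zero_of_le hj.le ht, zero_mul]
      · obtain ⟨k, rfl⟩ : ∃ k, j = k + 1 := ⟨j - 1, by omega⟩
        have h4 := congrFun h2 (b, ⟨k, by omega⟩)
        have h5 : (w (Sum.inr b)).coeff (-((k : ℤ) + 1)) -
          t ^ (k + 1) * (w (Sum.inr (!b))).coeff ((k : ℤ) + 1) = 0 := h4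
        have h6 := sub_eq_zero.1 h5
        change (w (Sum.inr b)).coeff (-((k + 1 : ℕ) : ℤ)) =
          t ^ (k + 1) * (w (Sum.inr (!b))).coeff ((k + 1 : ℕ) : ℤ)
        push_cast
        exact h6

/-- The functions with poles of order at most `N` at the new punctures. -/
noncomputable def WN {I : Type} (W : Subalgebra A (KK (I ⊕ Bool) A)) (N : ℕ) :
    Submodule A (KK (I ⊕ Bool) A) where
  carrier := {w | w ∈ W ∧ atJ w ∈ Pol Bool A N}
  add_mem' hf hg := ⟨add_mem hf.1 hg.1, (Pol Bool A N).add_mem hf.2 hg.2⟩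
  zero_mem' := ⟨zero_mem W, (Pol Bool A N).zero_mem⟩
  smul_mem' a _ hf := ⟨W.smul_mem hf.1 a, (Pol Bool A N).smul_mem a hf.2⟩

theorem psl_low (f : PowerSeries A) : ∀ m < 0, (psl A f).coeff m = 0 := fun m hm => by
  rw [psl, PowerSeries.coeff_coe, if_pos hm]

theorem psl_zero (f : PowerSeries A) : (psl A f).coeff 0 = PowerSeries.constantCoeff f := by
  rw [psl, PowerSeries.coeff_coe, if_neg (by omega), Int.natAbs_zero,
    PowerSeries.coeff_zero_eq_constantCoeff_apply]

variable {I : Type} {R : Subalgebra A (KK I A)}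

theorem dv_hat (pt : Bool → FPt R) (r : R) :
    dv I A (hat pt r) = (pt true).ev r - (pt false).ev r := by
  change (psl A ((pt true).h r)).coeff 0 - (psl A ((pt false).h r)).coeff 0 = _
  rw [psl_zero, psl_zero]
  rfl

theorem Th_hat (N : ℕ) (pt : Bool → FPt R) (r : R) : Th I N 0 (hat pt r) = 0 := by
  funext p
  change (psl A ((pt p.1).h r)).coeff (-((p.2 : ℤ) + 1)) -
    0 ^ ((p.2 : ℕ) + 1) * (hat pt r (Sum.inr (!p.1))).coeff ((p.2 : ℤ) + 1) = 0
  rw [psl_low _ _ (by omega), zero_pow (Nat.succ_ne_zero _), zero_mul, sub_zero]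

theorem hat_mem_WN (N : ℕ) (pt : Bool → FPt R) (r : R) : hat pt r ∈ WN (WJ pt) N :=
  ⟨hat_mem pt r, fun b m hm => psl_low _ _ (by omega)⟩

/-- The principal parts. -/
theorem exists_pp (N : ℕ) (θ : Bool × Fin N → A) (δ : A) :
    ∃ g : KK Bool A, (∀ b, ∀ m < -(N : ℤ), (g b).coeff m = 0) ∧
      (∀ p : Bool × Fin N, (g p.1).coeff (-((p.2 : ℤ) + 1)) = θ p) ∧
      (g true).coeff 0 - (g false).coeff 0 = δ := by
  classical
  refine ⟨mon true 0 δ + ∑ p : Bool × Fin N, mon p.1 (-((p.2 : ℤ) + 1)) (θ p), ?_, ?_, ?_⟩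
  · intro b m hm
    rw [Pi.add_apply, HahnSeries.coeff_add, Finset.sum_apply, HahnSeries.coeff_sum, mon_coeff,
      if_neg (by omega), zero_add]
    refine Finset.sum_eq_zero fun p _ => ?_
    rw [mon_coeff, if_neg]
    rintro ⟨-, h⟩
    have := p.2.2
    omega
  · intro p
    rw [Pi.add_apply, HahnSeries.coeff_add, Finset.sum_apply, HahnSeries.coeff_sum, mon_coeff,
      if_neg (by omega), zero_add, Finset.sum_eq_single p]
    · rw [mon_coeff, if_pos ⟨rfl, rfl⟩]
    · intro q _ hq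
      rw [mon_coeff, if_neg]
      rintro ⟨h1, h2⟩
      exact hq (Prod.ext h1.symm (Fin.ext (by omega)))
    · intro h
      exact absurd (Finset.mem_univ p) h
  · have h1 : ∀ b, ((∑ p : Bool × Fin N, mon p.1 (-((p.2 : ℤ) + 1)) (θ p) : KK Bool A) b).coeff 0 =
        0 := by
      intro b
      rw [Finset.sum_apply, HahnSeries.coeff_sum]
      refine Finset.sum_eq_zero fun p _ => ?_
      rw [mon_coeff, if_neg]
      rintro ⟨-, h⟩
      omega
    rw [Pi.add_apply, HahnSeries.coeff_add, Pi.add_apply, HahnSeries.coeff_add, h1, h1, mon_coeff,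
      mon_coeff, if_pos ⟨rfl, rfl⟩, if_neg (fun h => Bool.false_ne_true h.1)]
    ring

end

end PL1

open _root_.Pool.Agent.MG.G0.PL1 in
theorem t_PL1 (hKFO : Stmt_KFO) (hKBC : Stmt_KBC) (hKFL : Stmt_KFL) (hAYE : Stmt_AYE)
    (hAWK : Stmt_AWK) (hAWB : Stmt_AWB) : Stmt_PL1 := by
  intro I A _ _ _ h R hR hS pt hd t ht
  obtain ⟨N, hN⟩ := id ht
  obtain ⟨hW, -, -, -, hreg, hdens, -⟩ := hAWK hR hS pt hd
  obtain ⟨L, hLs, hLk⟩ := hR.k2
  obtain ⟨sL, hsL⟩ := Module.projective_lifting_property L LinearMap.id hLs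
  have hsL' : ∀ y, L (sL y) = y := fun y => congrArg (fun l : (Fin h → A) →ₗ[A] (Fin h → A) => l y) hsL
  have hLR : ∀ r : R, L (r : KK I A) = 0 := fun r =>
    (hLk _).2 ⟨r, r.2, by rw [sub_self]; exact (Pol I A 0).zero_mem⟩
  have hLP : ∀ f ∈ Pol I A 0, L f = 0 := fun f hf =>
    (hLk _).2 ⟨0, zero_mem R, by rw [sub_zero]; exact hf⟩
  -- a function with different values
  obtain ⟨r0, hr0⟩ : ∃ r0 : R, dv I A (hat pt r0) = 1 := by
    obtain ⟨w, hw, hw1⟩ := hdens (fun b => if b then 1 else 0) 1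
    have hlow : ∀ j : Bool, ∀ m < 0, (w (Sum.inr j)).coeff m = 0 := by
      intro j m hm
      rw [hw1 j m (by omega)]
      cases j
      · simp
      · simp only [if_true]
        rw [HahnSeries.coeff_one, if_neg (by omega)]
    obtain ⟨r, rfl⟩ := hreg w hw hlow
    refine ⟨r, ?_⟩
    change (hat pt r (Sum.inr true)).coeff 0 - (hat pt r (Sum.inr false)).coeff 0 = 1
    rw [hw1 true 0 (by omega), hw1 false 0 (by omega)]
    simp
  -- the maps
  let M := (WN (WJ pt) N) × (A × (Fin h → A))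
  let T := (I × ℕ →₀ A) × ((Bool × Fin N → A) × A)
  let p1 : M →ₗ[A] KK (I ⊕ Bool) A := (WN (WJ pt) N).subtype.comp (LinearMap.fst A _ _)
  let G : M →ₗ[A] KK I A := (lI I Bool A).comp p1 +
    ((LinearMap.toSpanSingleton A (KK I A) (r0 : KK I A)).comp
      ((LinearMap.fst A _ _).comp (LinearMap.snd A _ _)) +
      sL.comp ((LinearMap.snd A _ _).comp (LinearMap.snd A _ _)))
  let F : M →ₗ[A] T := (polar.comp G).prod (((Th I N 0).comp p1).prod ((dv I A).comp p1))
  let X : M →ₗ[A] T := LinearMap.prod 0 (((Xh I N t).comp p1).prod 0)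
  have hG : ∀ (w : WN (WJ pt) N) (a0 : A) (a : Fin h → A),
      G (w, (a0, a)) = atI (w : KK (I ⊕ Bool) A) + (a0 • (r0 : KK I A) + sL a) := fun _ _ _ => rfl
  have hF : ∀ (w : WN (WJ pt) N) (a0 : A) (a : Fin h → A),
      F (w, (a0, a)) = (polar (atI (w : KK (I ⊕ Bool) A) + (a0 • (r0 : KK I A) + sL a)),
        (Th I N 0 (w : KK (I ⊕ Bool) A), dv I A (w : KK (I ⊕ Bool) A))) := fun _ _ _ => rfl
  have hX : ∀ (w : WN (WJ pt) N) (a0 : A) (a : Fin h → A),
      X (w, (a0, a)) = (0, (Xh I N t (w : KK (I ⊕ Bool) A), 0)) := fun _ _ _ => rfl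
  have hFX : ∀ (w : WN (WJ pt) N) (a0 : A) (a : Fin h → A),
      F (w, (a0, a)) + t • X (w, (a0, a)) =
        (polar (atI (w : KK (I ⊕ Bool) A) + (a0 • (r0 : KK I A) + sL a)),
        (Th I N t (w : KK (I ⊕ Bool) A), dv I A (w : KK (I ⊕ Bool) A))) := by
    intro w a0 a
    rw [hF, hX, Th_eq N t (w : KK (I ⊕ Bool) A)]
    refine Prod.ext ?_ (Prod.ext ?_ ?_)
    · change _ + t • (0 : I × ℕ →₀ A) = _
      rw [smul_zero, add_zero]
    · rfl
    · change _ + t • (0 : A) = _
      rw [smul_zero, add_zero]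
  have hFs : Function.Surjective F := by
    rintro ⟨c, θ, δ⟩
    obtain ⟨f, rfl⟩ := polar_surj c
    obtain ⟨g, hg1, hg2, hg3⟩ := exists_pp N θ δ
    obtain ⟨w1, hw1, hw2⟩ := hdens g 1
    have hw1N : w1 ∈ WN (WJ pt) N := ⟨hw1, fun b m hm => by
      change (w1 (Sum.inr b)).coeff m = 0
      rw [hw2 b m (by omega)]
      exact hg1 b m hm⟩
    obtain ⟨p, hp, hpp⟩ := (hLk (f - atI w1 - sL (L (f - atI w1)))).1
      (by rw [map_sub, hsL', sub_self])
    let r : R := ⟨p, hp⟩
    let d : A := dv I A (hat pt r)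
    refine ⟨(⟨w1, hw1N⟩ + ⟨hat pt (r - d • r0), hat_mem_WN N pt _⟩, (d, L (f - atI w1))), ?_⟩
    rw [hF]
    refine Prod.ext ?_ (Prod.ext ?_ ?_)
    · change polar (atI w1 + (p - d • (r0 : KK I A)) + (d • (r0 : KK I A) + sL (L (f - atI w1)))) =
        polar f
      rw [← sub_eq_zero, ← map_sub, polar_eq_zero]
      have e : atI w1 + (p - d • (r0 : KK I A)) + (d • (r0 : KK I A) + sL (L (f - atI w1))) - f =
          -(f - atI w1 - sL (L (f - atI w1)) - p) := by abel
      rw [e]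
      exact (Pol I A 0).neg_mem hpp
    · change Th I N 0 (w1 + hat pt (r - d • r0)) = θ
      rw [map_add, Th_hat, add_zero]
      funext q
      change (w1 (Sum.inr q.1)).coeff (-((q.2 : ℤ) + 1)) -
        0 ^ ((q.2 : ℕ) + 1) * (w1 (Sum.inr (!q.1))).coeff ((q.2 : ℤ) + 1) = θ q
      rw [zero_pow (Nat.succ_ne_zero _), zero_mul, sub_zero, hw2 _ _ (by omega)]
      exact hg2 q
    · change dv I A (w1 + hat pt (r - d • r0)) = δ
      rw [map_add, map_sub, map_sub, map_smul, map_smul, hr0, smul_eq_mul, mul_one, sub_self,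
        add_zero]
      change (w1 (Sum.inr true)).coeff 0 - (w1 (Sum.inr false)).coeff 0 = δ
      rw [hw2 _ _ (by omega), hw2 _ _ (by omega)]
      exact hg3
  have hFk : ∀ (w : WN (WJ pt) N) (a0 : A) (a : Fin h → A), F (w, (a0, a)) = 0 →
      (∃ c : A, (w : KK (I ⊕ Bool) A) = algebraMap A _ c) ∧ a0 = 0 ∧ a = 0 := by
    intro w a0 a hw
    rw [hF] at hw
    have h1 := congrArg Prod.fst hw
    have h2 := congrArg (fun x : T => x.2.1) hw
    have h3 := congrArg (fun x : T => x.2.2) hw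
    replace h1 : polar (atI (w : KK (I ⊕ Bool) A) + (a0 • (r0 : KK I A) + sL a)) = 0 := h1
    replace h2 : Th I N 0 (w : KK (I ⊕ Bool) A) = 0 := h2
    replace h3 : dv I A (w : KK (I ⊕ Bool) A) = 0 := h3
    have hlow : ∀ j : Bool, ∀ m < 0, ((w : KK (I ⊕ Bool) A) (Sum.inr j)).coeff m = 0 := by
      intro j m hm
      by_cases hm' : m < -(N : ℤ)
      · exact w.2.2 j m hm'
      · have h4 := congrFun h2 (j, ⟨(-m - 1).toNat, by omega⟩)
        replace h4 : ((w : KK (I ⊕ Bool) A) (Sum.inr j)).coeff (-(((-m - 1).toNat : ℤ) + 1)) -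
          0 ^ ((-m - 1).toNat + 1) * ((w : KK (I ⊕ Bool) A) (Sum.inr (!j))).coeff
            (((-m - 1).toNat : ℤ) + 1) = 0 := h4
        have e : -(((-m - 1).toNat : ℤ) + 1) = m := by omega
        rw [e, zero_pow (Nat.succ_ne_zero _), zero_mul, sub_zero] at h4
        exact h4
    obtain ⟨r, hr⟩ := hreg _ w.2.1 hlow
    rw [hr] at h1 h3
    have h5 : (r : KK I A) + (a0 • (r0 : KK I A) + sL a) ∈ Pol I A 0 := polar_eq_zero.1 h1
    have ha : a = 0 := by
      have h6 := hLP _ h5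
      rw [map_add, map_add, map_smul, hLR, hLR, smul_zero, zero_add, zero_add, hsL'] at h6
      exact h6
    subst ha
    rw [map_zero, add_zero] at h5
    obtain ⟨c, hc⟩ := hR.k1 _ (add_mem r.2 (R.smul_mem r0.2 a0)) h5
    have hc' : r + a0 • r0 = algebraMap A R c := Subtype.ext hc
    have h7 : dv I A (hat pt (r + a0 • r0)) = 0 := by
      rw [hc', AlgHom.commutes]
      change (algebraMap A (LaurentSeries A) c).coeff 0 -
        (algebraMap A (LaurentSeries A) c).coeff 0 = 0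
      rw [sub_self]
    rw [map_add, map_add, map_smul, map_smul, hr0, h3, zero_add, smul_eq_mul, mul_one] at h7
    subst h7
    rw [zero_smul, add_zero] at hc'
    refine ⟨⟨c, ?_⟩, rfl, rfl⟩
    rw [hr, hc', AlgHom.commutes]
  obtain ⟨⟨σ, hσ⟩, hker⟩ := pert F X hFs t ⟨N, hN⟩ (by
    rintro ⟨w, a0, a⟩ hm
    obtain ⟨⟨c, hc⟩, -, -⟩ := hFk w a0 a hm
    rw [hX, hc]
    have e : Xh I N t (algebraMap A (KK (I ⊕ Bool) A) c) = 0 := by
      funext p
      change -(t ^ (p.2 : ℕ) * (algebraMap A (LaurentSeries A) c).coeff ((p.2 : ℤ) + 1)) = 0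
      rw [coeff_algebraMap, if_neg (by omega), mul_zero, neg_zero]
    rw [e]
    exact smul_zero t)
  have key : ∀ (w : WN (WJ pt) N) (a0 : A) (a : Fin h → A) (m : M),
      F (w, (a0, a)) + t • X (w, (a0, a)) = F m + t • X m → m.2 = (a0, a) := by
    intro w a0 a m hm
    obtain ⟨w', a0', a'⟩ := m
    have h1 : F ((w, (a0, a)) - (w', (a0', a'))) + t • X ((w, (a0, a)) - (w', (a0', a'))) = 0 := by
      rw [map_sub, map_sub, smul_sub]
      have : F (w, (a0, a)) - F (w', (a0', a')) +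
          (t • X (w, (a0, a)) - t • X (w', (a0', a'))) =
          (F (w, (a0, a)) + t • X (w, (a0, a))) - (F (w', (a0', a')) + t • X (w', (a0', a'))) := by
        abel
      rw [this, hm, sub_self]
    have h2 := hker _ h1
    obtain ⟨-, h3, h4⟩ := hFk (w - w') (a0 - a0') (a - a') h2
    change (a0', a') = (a0, a)
    rw [sub_eq_zero.1 h3, sub_eq_zero.1 h4]
  have hFN : ∀ w ∈ WJ pt, ∀ hw : atJ w ∈ Nt t,
      ∃ w' : WN (WJ pt) N, (w' : KK (I ⊕ Bool) A) = w ∧
        F (w', (0, 0)) + t • X (w', (0, 0)) = (polar (atI w), 0) := by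
    intro w hw hw'
    obtain ⟨h1, h2, h3⟩ := (mem_Nt_iff hN).1 hw'
    refine ⟨⟨w, hw, h1⟩, rfl, ?_⟩
    rw [hFX, map_zero, zero_smul, add_zero, add_zero]
    change (polar (atI w), (Th I N t w, dv I A w)) = _
    rw [h2, h3]
    rfl
  refine ⟨?_, ?_⟩
  · rintro f ⟨w, hw, rfl, hw'⟩ hf
    obtain ⟨w', hw1, hw2⟩ := hFN w hw hw'
    rw [polar_eq_zero.2 hf] at hw2
    obtain ⟨⟨c, hc⟩, -, -⟩ := hFk _ _ _ (hker _ hw2)
    refine ⟨c, ?_⟩
    rw [← hw1, hc]
    rfl
  · let E : (A × (Fin h → A)) ≃ₗ[A] (Fin (h + 1) → A) := Fin.consLinearEquiv A (fun _ => A)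
    let L' : KK I A →ₗ[A] (A × (Fin h → A)) :=
      (LinearMap.snd A _ _).comp (σ.comp ((LinearMap.inl A _ _).comp polar))
    have hL' : ∀ f, L' f = (σ (polar f, 0)).2 := fun _ => rfl
    refine ⟨E.toLinearMap.comp L', ?_, fun f => ?_⟩
    · intro v
      obtain ⟨⟨a0, a⟩, rfl⟩ := E.surjective v
      refine ⟨a0 • (r0 : KK I A) + sL a, ?_⟩
      rw [LinearMap.comp_apply, hL']
      change E _ = E _
      congr 1
      refine key 0 a0 a _ ?_
      rw [hFX, hσ]
      change (polar (0 + (a0 • (r0 : KK I A) + sL a)), (Th I N t 0, dv I A 0)) = _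
      rw [zero_add, map_zero, map_zero]
      rfl
    · have e1 : (E.toLinearMap.comp L') f = 0 ↔ (σ (polar f, 0)).2 = 0 := by
        rw [LinearMap.comp_apply, hL']
        exact E.map_eq_zero_iff
      rw [e1]
      constructor
      · intro h0
        have h1 := hσ (polar f, 0)
        rcases hm : σ (polar f, 0) with ⟨w, a⟩
        rw [hm] at h0 h1
        replace h0 : a = (0, 0) := h0
        subst h0
        rw [hFX, map_zero, zero_smul, add_zero, add_zero] at h1
        have h2 := congrArg Prod.fst h1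
        have h3 := congrArg (fun x : T => x.2.1) h1
        have h4 := congrArg (fun x : T => x.2.2) h1
        replace h2 : polar (atI (w : KK (I ⊕ Bool) A)) = polar f := h2
        replace h3 : Th I N t (w : KK (I ⊕ Bool) A) = 0 := h3
        replace h4 : dv I A (w : KK (I ⊕ Bool) A) = 0 := h4
        refine ⟨atI (w : KK (I ⊕ Bool) A), ⟨w, w.2.1, rfl, (mem_Nt_iff hN).2 ⟨w.2.2, h3, h4⟩⟩, ?_⟩
        rw [← polar_eq_zero, map_sub, h2, sub_self]
      · rintro ⟨p, ⟨w, hw, rfl, hw'⟩, hp⟩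
        obtain ⟨w', hw1, hw2⟩ := hFN w hw hw'
        have h1 : polar f = polar (atI w) := by
          rw [← sub_eq_zero, ← map_sub, polar_eq_zero]
          exact hp
        refine key w' 0 0 _ ?_
        rw [hw2, hσ, h1]

end Pool.Agent.MG.G0


end

section

/-!
# POA: the polarisation and changes of the coordinates (PAPER_Q.md, POX, POA)
-/

open TensorProduct

namespace Pool.Agent.MG.G0

namespace POA

/-- The base change of an algebra and of a compatible change of coordinates. -/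
theorem mem_bc_of {I A B : Type} [CommRing A] [CommRing B] (φ : A →+* B)
    (β : KK I A → KK I A) (β' : KK I B →ₗ[B] KK I B)
    (hβ : ∀ f : KK I A, β' (kmap φ f) = kmap φ (β f)) {P P' : Subalgebra A (KK I A)}
    (hP : ∀ f ∈ P, β f ∈ P') {f : KK I B} (hf : f ∈ bc φ P) : β' f ∈ bc φ P' := by
  refine Submodule.span_induction (p := fun f _ => β' f ∈ bc φ P') ?_ ?_ ?_ ?_
    (mem_bc_span φ P hf)
  · rintro _ ⟨y, hy, rfl⟩
    rw [hβ]
    exact kmap_mem_bc φ (hP y hy)
  · rw [map_zero]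
    exact zero_mem _
  · intro y z _ _ h1 h2
    rw [map_add]
    exact add_mem h1 h2
  · intro b y _ h1
    rw [map_smul]
    exact Subalgebra.smul_mem _ h1 b

theorem mem_bc_iff {I A B : Type} [CommRing A] [CommRing B] (φ : A →+* B)
    (α : KK I A ≃ₐ[A] KK I A) (α' : KK I B ≃ₐ[B] KK I B)
    (h : ∀ f : KK I A, kmap φ (α f) = α' (kmap φ f)) {P P' : Subalgebra A (KK I A)}
    (hP : ∀ f, f ∈ P ↔ α f ∈ P') (f : KK I B) : f ∈ bc φ P ↔ α' f ∈ bc φ P' := by
  constructor
  · intro hf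
    exact mem_bc_of φ α α'.toLinearMap (fun f => (h f).symm) (fun f hf => (hP f).1 hf) hf
  · intro hf
    have h1 := mem_bc_of φ α.symm α'.symm.toLinearMap (P := P') (P' := P)
      (fun f => by
        change α'.symm (kmap φ f) = kmap φ (α.symm f)
        rw [AlgEquiv.symm_apply_eq, ← h, AlgEquiv.apply_symm_apply])
      (fun f hf => by
        rw [hP, AlgEquiv.apply_symm_apply]
        exact hf) hf
    change α'.symm (α' f) ∈ bc φ P at h1
    rwa [AlgEquiv.symm_apply_apply] at h1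

/-- The compatibility of the residue pairings extends to the base change. -/
theorem res_ext {I A B : Type} [Fintype I] [CommRing A] [CommRing B] (φ : A →+* B)
    (α : KK I A ≃ₐ[A] KK I A) (α' : KK I B ≃ₐ[B] KK I B)
    (hα' : ∀ (n : ℤ) (f : KK I B), α' f ∈ Pol I B n ↔ f ∈ Pol I B n)
    (h : ∀ f : KK I A, kmap φ (α f) = α' (kmap φ f)) {x x' : KK I A}
    (hx : ∀ f : KK I A, res (x' * α f) = res (x * f)) (f : KK I B) :
    res (kmap φ x' * α' f) = res (kmap φ x * f) := by
  obtain ⟨n1, hn1⟩ := exists_Pol x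
  obtain ⟨n2, hn2⟩ := exists_Pol x'
  obtain ⟨m, hm⟩ := exists_Pol f
  have hn : ∃ n : ℤ, x ∈ Pol I A n ∧ x' ∈ Pol I A n :=
    ⟨max (n1 : ℤ) n2, Pol_mono (le_max_left _ _) hn1, Pol_mono (le_max_right _ _) hn2⟩
  obtain ⟨n, hx1, hx2⟩ := hn
  have hr := sub_mon_mem_Pol hm n
  set s : KK I B := ∑ i, ∑ l ∈ Finset.Ico (-(m : ℤ)) n, mon i l ((f i).coeff l) with hs
  -- the monomials
  have hmon : ∀ (i : I) (l : ℤ) (b : B),
      res (kmap φ x' * α' (mon i l b)) = res (kmap φ x * mon i l b) := by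
    intro i l b
    have h1 : mon i l b = b • kmap φ (mon i l (1 : A)) := by
      rw [kmap_mon, map_one, smul_mon, mul_one]
    rw [h1, map_smul, ← h, mul_smul_comm, mul_smul_comm, map_smul, map_smul, ← map_mul,
      ← map_mul, res_kmap, res_kmap, hx]
  have hsum : res (kmap φ x' * α' s) = res (kmap φ x * s) := by
    rw [hs, map_sum, Finset.mul_sum, Finset.mul_sum, map_sum, map_sum]
    refine Finset.sum_congr rfl fun i _ => ?_
    rw [map_sum, Finset.mul_sum, Finset.mul_sum, map_sum, map_sum]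
    exact Finset.sum_congr rfl fun l _ => hmon i l _
  have hz : ∀ {y : KK I A} {r : KK I B}, y ∈ Pol I A n → r ∈ Pol I B (-n) →
      res (kmap φ y * r) = 0 := by
    intro y r hy hr
    have h2 := mul_mem_Pol (kmap_mem_Pol φ hy) hr
    rw [add_neg_cancel] at h2
    exact res_Pol0 h2
  have h3 := hz hx1 hr
  have h4 := hz hx2 ((hα' _ _).2 hr)
  rw [mul_sub, map_sub, sub_eq_zero] at h3
  rw [map_sub, mul_sub, map_sub, sub_eq_zero] at h4
  rw [h3, h4, hsum]

/-- Related quadratic differentials give related functionals after base change. -/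
theorem Lq_rel {I A B : Type} [Fintype I] [CommRing A] [CommRing B] (φ : A →+* B)
    (α : KK I A ≃ₐ[A] KK I A) (α' : KK I B ≃ₐ[B] KK I B)
    (hα' : ∀ (n : ℤ) (f : KK I B), α' f ∈ Pol I B n ↔ f ∈ Pol I B n)
    (h : ∀ f : KK I A, kmap φ (α f) = α' (kmap φ f)) {P P' : Subalgebra A (KK I A)}
    {z : QD P × QD P'} (hz : z ∈ QA α P P') {D : DD (bc φ P)} {E : DD (bc φ P')}
    (hDE : RelA α' D E) :
    Lq (bc φ P') (bcQ φ P' z.2) E = Lq (bc φ P) (bcQ φ P z.1) D := by
  refine Submodule.span_induction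
    (p := fun z _ => Lq (bc φ P') (bcQ φ P' z.2) E = Lq (bc φ P) (bcQ φ P z.1) D)
    ?_ ?_ ?_ ?_ hz
  · rintro _ ⟨x, g, x', g', hx, hg, rfl⟩
    change Lq (bc φ P') (bcQ φ P' (x' ⊗ₜ g')) E = Lq (bc φ P) (bcQ φ P (x ⊗ₜ g)) D
    rw [bcQ_tmul, bcQ_tmul, Lq_tmul, Lq_tmul]
    obtain ⟨f, hf⟩ := mk_surj (bc φ P) (D (bcMap φ P g))
    have h1 : E (bcMap φ P' g') = mk (bc φ P') (α' f) := by
      refine hDE (bcMap φ P g) (bcMap φ P' g') f ?_ hf.symm
      rw [bcMap_val, bcMap_val, hg, h]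
    rw [h1, ← hf, rq_mk, rq_mk]
    exact res_ext φ α α' hα' h hx f
  · change Lq (bc φ P') (bcQ φ P' 0) E = Lq (bc φ P) (bcQ φ P 0) D
    rw [map_zero, map_zero, map_zero, map_zero, LinearMap.zero_apply, LinearMap.zero_apply]
  · intro y z _ _ h1 h2
    change Lq (bc φ P') (bcQ φ P' (y.2 + z.2)) E = Lq (bc φ P) (bcQ φ P (y.1 + z.1)) D
    rw [map_add, map_add, map_add, map_add, LinearMap.add_apply, LinearMap.add_apply, h1, h2]
  · intro a y _ h1
    change Lq (bc φ P') (bcQ φ P' (a • y.2)) E = Lq (bc φ P) (bcQ φ P (a • y.1)) D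
    rw [map_smulₛₗ (bcQ φ P'), map_smulₛₗ (bcQ φ P), map_smul, map_smul, LinearMap.smul_apply,
      LinearMap.smul_apply, h1]

/-- The value at a covector of a linear combination. -/
theorem cov_sum {I A B ι : Type} [Fintype I] [Fintype ι] [CommRing A] [CommRing B] (φ : A →+* B)
    (P : Subalgebra A (KK I A)) (q : ι → QR P) (y : ι → B) (D : DD (bc φ P)) :
    (cov (bc φ P) (∑ i, y i • bcR φ P (q i))).1 D =
      ∑ i, y i * Lq (bc φ P) (bcQ φ P (q i)) D := by
  rw [cov_apply, Submodule.coe_sum, map_sum, LinearMap.sum_apply]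
  refine Finset.sum_congr rfl fun i _ => ?_
  rw [Submodule.coe_smul, map_smul, LinearMap.smul_apply, smul_eq_mul]
  rfl

end POA

theorem t_POA (hGBC : Stmt_GBC) : Stmt_POA := by
  intro g E I A _ _ _ _ k α α' _ hα' h P P' hG hG' hP q q' hq
  have h1 := E.aut α' hα' (bc MvPolynomial.C P) (bc MvPolynomial.C P')
    (hGBC MvPolynomial.C g P hG) (hGBC MvPolynomial.C g P' hG')
    (POA.mem_bc_iff MvPolynomial.C α α' h hP)
    (cov _ (∑ i, (MvPolynomial.X i : MvPolynomial (Fin k) A) •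
        bcR (MvPolynomial.C : A →+* MvPolynomial (Fin k) A) P (q i)))
    (cov _ (∑ i, (MvPolynomial.X i : MvPolynomial (Fin k) A) •
        bcR (MvPolynomial.C : A →+* MvPolynomial (Fin k) A) P' (q' i)))
    (fun D D' hD => by
      rw [POA.cov_sum, POA.cov_sum]
      refine Finset.sum_congr rfl fun i _ => ?_
      rw [POA.Lq_rel MvPolynomial.C α α' hα' h (hq i) hD])
  unfold Fk
  rw [h1]

end Pool.Agent.MG.G0


end

section

/-!
# TCA: deformations of smooth Krichever rings are trivial over nilpotent thickenings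
-/

open TensorProduct

namespace Pool.Agent.MG.G0

namespace TCA

section nak

variable {A M : Type} [CommRing A] [AddCommGroup M] [Module A M] {J : Ideal A}

theorem nak_bot (hJ : ∃ n : ℕ, J ^ n = ⊥) {K : Submodule A M} (h : K ≤ J • K) : K = ⊥ := by
  obtain ⟨n, hn⟩ := hJ
  have h1 : ∀ k : ℕ, K ≤ J ^ k • K := by
    intro k
    induction k with
    | zero => rw [pow_zero, Ideal.one_eq_top, Submodule.top_smul]
    | succ k ih =>
      rw [pow_succ', Submodule.mul_smul]
      exact h.trans (Submodule.smul_mono le_rfl ih)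
  have h2 := h1 n
  rw [hn, Submodule.bot_smul] at h2
  exact le_bot_iff.mp h2

theorem nak_top (hJ : ∃ n : ℕ, J ^ n = ⊥) {S : Submodule A M} (h : ⊤ ≤ S ⊔ J • (⊤ : Submodule A M)) :
    S = ⊤ := by
  obtain ⟨n, hn⟩ := hJ
  have h1 : ∀ k : ℕ, ⊤ ≤ S ⊔ J ^ k • (⊤ : Submodule A M) := by
    intro k
    induction k with
    | zero =>
      rw [pow_zero, Ideal.one_eq_top, Submodule.top_smul]
      exact le_sup_right
    | succ k ih =>
      refine ih.trans (sup_le le_sup_left ?_)
      refine (Submodule.smul_mono (le_refl (J ^ k)) h).trans ?_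
      rw [Submodule.smul_sup, ← Submodule.mul_smul, ← pow_succ]
      exact sup_le (Submodule.smul_le_right.trans le_sup_left) le_sup_right
  have h2 := h1 n
  rw [hn, Submodule.bot_smul, sup_bot_eq] at h2
  exact top_le_iff.mp h2

end nak

/-- A deformation of a formally smooth algebra over a nilpotent thickening of a field is trivial. -/
theorem trivial_def {κ A R B : Type} [Field κ] [CommRing A] [Algebra κ A] [CommRing R]
    [Algebra A R] [CommRing B] [Algebra κ B] (rs : A →ₐ[κ] κ)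
    (hn : ∃ n : ℕ, RingHom.ker (rs : A →+* κ) ^ n = ⊥) (π : R →+* B)
    (hπ : Function.Surjective π) (hπa : ∀ a : A, π (algebraMap A R a) = algebraMap κ B (rs a))
    (hker : ∀ x, π x = 0 → x ∈ RingHom.ker (rs : A →+* κ) • (⊤ : Submodule A R))
    [Module.Projective A R] [Algebra.FormallySmooth κ B] :
    Nonempty ((A ⊗[κ] B) ≃ₐ[A] R) := by
  let _ : Algebra κ R := ((algebraMap A R).comp (algebraMap κ A)).toAlgebra
  have _ : IsScalarTower κ A R := IsScalarTower.of_algebraMap_eq fun _ => rfl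
  have hrs : ∀ c : κ, rs (algebraMap κ A c) = c := fun c => by
    rw [AlgHom.commutes]
    rfl
  let πk : R →ₐ[κ] B :=
    { π with
      commutes' := fun c => by
        change π (algebraMap A R (algebraMap κ A c)) = algebraMap κ B c
        rw [hπa, hrs] }
  have hπk : ∀ x, πk x = π x := fun _ => rfl
  have hnil : IsNilpotent (RingHom.ker (πk : R →+* B)) := by
    obtain ⟨n, hn⟩ := hn
    refine ⟨n, ?_⟩
    have h1 : RingHom.ker (πk : R →+* B) ≤
        (RingHom.ker (rs : A →+* κ)).map (algebraMap A R) := by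
      intro x hx
      have h2 := hker x hx
      refine Submodule.smul_induction_on h2 ?_ fun a b => Ideal.add_mem _
      intro a ha y _
      rw [Algebra.smul_def]
      exact Ideal.mul_mem_right _ _ (Ideal.mem_map_of_mem _ ha)
    have h3 := Ideal.pow_right_mono h1 n
    rw [← Ideal.map_pow, hn, Ideal.map_bot] at h3
    exact le_bot_iff.mp h3
  let σ : B →ₐ[κ] R := Algebra.FormallySmooth.liftOfSurjective (AlgHom.id κ B) πk hπ hnil
  have hσ : ∀ b, π (σ b) = b := fun b =>
    Algebra.FormallySmooth.liftOfSurjective_apply (AlgHom.id κ B) πk hπ hnil b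
  let Φ : A ⊗[κ] B →ₐ[A] R :=
    Algebra.TensorProduct.lift (Algebra.ofId A R) σ fun _ _ => Commute.all _ _
  have hΦ : ∀ a b, Φ (a ⊗ₜ b) = algebraMap A R a * σ b := fun a b => by
    rw [Algebra.TensorProduct.lift_tmul]
    rfl
  have hsurj : Function.Surjective Φ := by
    have h1 : LinearMap.range Φ.toLinearMap = ⊤ := by
      refine nak_top hn ?_
      intro x _
      have h2 : x = Φ.toLinearMap (1 ⊗ₜ π x) + (x - σ (π x)) := by
        change x = Φ (1 ⊗ₜ π x) + (x - σ (π x))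
        rw [hΦ, map_one, one_mul]
        ring
      rw [h2]
      refine Submodule.add_mem_sup ⟨_, rfl⟩ (hker _ ?_)
      rw [map_sub, hσ, sub_self]
    exact LinearMap.range_eq_top.mp h1
  have hinj : Function.Injective Φ := by
    have hx : ∀ x : A ⊗[κ] B, x - 1 ⊗ₜ[κ] (π (Φ x)) ∈
        RingHom.ker (rs : A →+* κ) • (⊤ : Submodule A (A ⊗[κ] B)) := by
      intro x
      induction x with
      | zero =>
        rw [map_zero, map_zero, TensorProduct.tmul_zero, sub_zero]
        exact Submodule.zero_mem _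
      | tmul a b =>
        have h1 : a ⊗ₜ[κ] b - 1 ⊗ₜ[κ] (π (Φ (a ⊗ₜ[κ] b))) =
            (a - algebraMap κ A (rs a)) • ((1 : A) ⊗ₜ[κ] b) := by
          rw [hΦ, map_mul, hπa, hσ, sub_smul, TensorProduct.smul_tmul', TensorProduct.smul_tmul',
            smul_eq_mul, mul_one, smul_eq_mul, mul_one, ← Algebra.smul_def,
            ← TensorProduct.smul_tmul, Algebra.smul_def, mul_one]
        rw [h1]
        refine Submodule.smul_mem_smul ?_ trivial
        rw [RingHom.mem_ker]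
        change rs (a - algebraMap κ A (rs a)) = 0
        rw [map_sub, hrs, sub_self]
      | add x y hx hy =>
        have h1 : x + y - 1 ⊗ₜ[κ] (π (Φ (x + y))) =
            (x - 1 ⊗ₜ[κ] (π (Φ x))) + (y - 1 ⊗ₜ[κ] (π (Φ y))) := by
          rw [map_add, map_add, TensorProduct.tmul_add]
          abel
        rw [h1]
        exact Submodule.add_mem _ hx hy
    obtain ⟨s, hs⟩ := Module.projective_lifting_property Φ.toLinearMap LinearMap.id hsurj
    have hs' : ∀ y, Φ (s y) = y := fun y => LinearMap.congr_fun hs y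
    let p : A ⊗[κ] B →ₗ[A] A ⊗[κ] B := LinearMap.id - s ∘ₗ Φ.toLinearMap
    have hp : ∀ x, p x = x - s (Φ x) := fun _ => rfl
    have h1 : LinearMap.ker Φ.toLinearMap = ⊥ := by
      refine nak_bot hn ?_
      intro x hxk
      have h2 : Φ x = 0 := hxk
      have h3 := hx x
      rw [h2, map_zero, TensorProduct.tmul_zero, sub_zero] at h3
      have h4 : p x = x := by rw [hp, h2, map_zero, sub_zero]
      rw [← h4]
      have h5 := Submodule.mem_map_of_mem (f := p) h3
      rw [Submodule.map_smul''] at h5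
      refine Submodule.smul_mono le_rfl ?_ h5
      rintro _ ⟨y, _, rfl⟩
      change Φ (p y) = 0
      rw [hp, map_sub, hs', sub_self]
    exact LinearMap.ker_eq_bot.mp h1
  exact ⟨AlgEquiv.ofBijective Φ ⟨hinj, hsurj⟩⟩

/-- The kernel of the reduction. -/
theorem one_tmul_eq_zero {κ A R : Type} [Field κ] [CommRing A] [Algebra κ A] [AddCommGroup R]
    [Module A R] (rs : A →ₐ[κ] κ) [Algebra A κ] (hal : ∀ a, algebraMap A κ a = rs a) (x : R)
    (h : (1 : κ) ⊗ₜ[A] x = 0) : x ∈ RingHom.ker (rs : A →+* κ) • (⊤ : Submodule A R) := by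
  have hrs : ∀ c : κ, rs (algebraMap κ A c) = c := fun c => by
    rw [AlgHom.commutes]
    rfl
  let J := RingHom.ker (rs : A →+* κ) • (⊤ : Submodule A R)
  let F : κ →ₗ[A] R →ₗ[A] (R ⧸ J) := LinearMap.mk₂ A
    (fun c y => Submodule.Quotient.mk (algebraMap κ A c • y))
    (fun c c' y => by rw [map_add, add_smul, Submodule.Quotient.mk_add])
    (fun a c y => by
      rw [← Submodule.Quotient.mk_smul, Submodule.Quotient.eq, smul_smul, ← sub_smul]
      refine Submodule.smul_mem_smul ?_ trivial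
      rw [RingHom.mem_ker]
      change rs (algebraMap κ A (a • c) - a * algebraMap κ A c) = 0
      rw [map_sub, map_mul, hrs, hrs, Algebra.smul_def, hal, sub_self])
    (fun c y y' => by rw [smul_add, Submodule.Quotient.mk_add])
    (fun a c y => by rw [← Submodule.Quotient.mk_smul, smul_comm])
  have h1 : TensorProduct.lift F ((1 : κ) ⊗ₜ[A] x) = Submodule.Quotient.mk x := by
    rw [TensorProduct.lift.tmul]
    change Submodule.Quotient.mk (algebraMap κ A 1 • x) = Submodule.Quotient.mk x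
    rw [map_one, one_smul]
  rw [h, map_zero] at h1
  exact (Submodule.Quotient.mk_eq_zero J).mp h1.symm

/-- The reduction is surjective. -/
theorem bcMap_surj {I κ A : Type} [Field κ] [CommRing A] [Algebra κ A] (rs : A →ₐ[κ] κ)
    (R : Subalgebra A (KK I A)) : Function.Surjective (bcMap (rs : A →+* κ) R) := by
  rintro ⟨y, hy⟩
  suffices h : ∃ x ∈ R, kmap (rs : A →+* κ) x = y by
    obtain ⟨x, hx, hxy⟩ := h
    exact ⟨⟨x, hx⟩, Subtype.ext hxy⟩
  refine Algebra.adjoin_induction (p := fun y _ => ∃ x ∈ R, kmap (rs : A →+* κ) x = y)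
    ?_ ?_ ?_ ?_ hy
  · rintro _ ⟨x, hx, rfl⟩
    exact ⟨x, hx, rfl⟩
  · intro c
    refine ⟨algebraMap A (KK I A) (algebraMap κ A c), R.algebraMap_mem _, ?_⟩
    rw [kmap_algebraMap]
    congr 1
    change rs (algebraMap κ A c) = c
    rw [AlgHom.commutes]
    rfl
  · rintro _ _ _ _ ⟨x, hx, rfl⟩ ⟨x', hx', rfl⟩
    exact ⟨x + x', add_mem hx hx', map_add _ _ _⟩
  · rintro _ _ _ _ ⟨x, hx, rfl⟩ ⟨x', hx', rfl⟩
    exact ⟨x * x', mul_mem hx hx', map_mul _ _ _⟩

end TCA

theorem t_TCA (hKSP : Stmt_KSP) (hKBT : Stmt_KBT) (hSBC : Stmt_SBC) (hSDF : Stmt_SDF)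
    (hSDN : Stmt_SDN) : Stmt_TCA := by
  intro I κ A _ _ _ _ _ rs g R hn hR hFS hSm
  have hrs : ∀ c : κ, rs (algebraMap κ A c) = c := fun c => by
    rw [AlgHom.commutes]
    rfl
  have _ : Module.Projective A R := (hKSP hR).1
  have hker : ∀ x, bcMap (rs : A →+* κ) R x = 0 →
      x ∈ RingHom.ker (rs : A →+* κ) • (⊤ : Submodule A R) := by
    intro x hx
    let _ : Algebra A κ := (rs : A →+* κ).toAlgebra
    refine TCA.one_tmul_eq_zero rs (fun _ => rfl) x ?_
    have h1 := (hKBT (B := κ) hR).1 1 (fun _ => 1) (fun _ => x) (by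
      rw [Fin.sum_univ_one, one_smul]
      exact congrArg Subtype.val hx)
    rwa [Fin.sum_univ_one] at h1
  obtain ⟨e⟩ := TCA.trivial_def rs hn (bcMap (rs : A →+* κ) R) (TCA.bcMap_surj rs R)
    (fun a => Subtype.ext (kmap_algebraMap (rs : A →+* κ) a)) hker
  have hFS' : Algebra.FormallySmooth A R := Algebra.FormallySmooth.of_equiv e
  have hSm' : SmC A R := hSBC.2.1 e (hSBC.1 hSm)
  refine ⟨hFS', hSm', fun hc hfg => ?_⟩
  have hKBC : Stmt_KBC := t_KBC (t_KFO t_KDU) t_KNZ hKSP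
  refine hSDN hR hSm' (rs : A →+* κ) (fun c => ⟨algebraMap κ A c, hrs c⟩) hfg hn ?_
  exact hSDF (hKBC.2.2.2 hR (rs : A →+* κ)).1 hFS hSm

end Pool.Agent.MG.G0


end

section

/-!
# ZQN: the form `res (a(z) ω ω' / dz)` is nondegenerate for generic values of `a`
-/

open Polynomial

namespace Pool.Agent.MG.G0

namespace ZQN

section

variable {K : Type} [Field K]

theorem exists_inv {d : ℕ} (hd : (d : K) ≠ 0) :
    ∃ u : LaurentSeries K, u * ld (zz K d) = 1 := by
  refine ⟨HahnSeries.single ((d : ℤ) + 1) (-(d : K))⁻¹, ?_⟩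
  have h : ld (zz K d) = HahnSeries.single (-(d : ℤ) - 1) (-(d : K)) := by
    ext n
    rw [ld_coeff, zz, HahnSeries.coeff_single, HahnSeries.coeff_single]
    by_cases hn : n = -(d : ℤ) - 1
    · rw [if_pos hn, if_pos (by omega), hn]
      push_cast
      ring
    · rw [if_neg hn, if_neg (by omega), mul_zero]
  rw [h, HahnSeries.single_mul_single, inv_mul_cancel₀ (neg_ne_zero.2 hd)]
  have e : (d : ℤ) + 1 + (-(d : ℤ) - 1) = 0 := by ring
  rw [e]
  rfl

theorem forms {g : ℕ} (hKFO : Stmt_KFO) {R : Subalgebra K (LaurentSeries K)} (hR : Kr g R)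
    {w : Fin g → KK Unit K} (hw : IsForms (uno R) w) :
    (∀ j, w j () ∈ EE1 R) ∧ (∀ η ∈ EE1 R, ∃ c : Fin g → K, η = ∑ j, c j • w j ()) ∧
      ∀ c : Fin g → K, ∑ j, c j • w j () = 0 → c = 0 := by
  obtain ⟨h1, h2⟩ := (hKFO hR).2 w hw
  have hs : ∀ c : Fin g → K, (∑ j, c j • w j) () = ∑ j, c j • w j () := fun c => by
    rw [Finset.sum_apply]
    rfl
  refine ⟨fun j => mem_EE_uno.1 (h1 j), fun η hη => ?_, fun c hc => ?_⟩
  · obtain ⟨c, hc, -⟩ := h2 (fun _ => η) (mem_EE_uno.2 hη)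
    refine ⟨c, ?_⟩
    have h3 := congrFun hc ()
    rw [hs] at h3
    exact h3
  · obtain ⟨c', -, hu⟩ := h2 0 (zero_mem _)
    have e1 : c = c' := hu c (by
      refine funext fun x => ?_
      change (0 : LaurentSeries K) = (∑ j, c j • w j) ()
      rw [hs, hc])
    have e2 : (0 : Fin g → K) = c' := hu 0 (by
      refine funext fun x => ?_
      change (0 : LaurentSeries K) = (∑ j, (0 : Fin g → K) j • w j) ()
      rw [hs]
      simp only [Pi.zero_apply, zero_smul, Finset.sum_const_zero])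
    rw [e1, ← e2]

variable {E : Type} [Field E] [Algebra K E]

theorem zpol_monomial (d n : ℕ) (x : E) :
    zpol E d (monomial n x) = x • lmap (algebraMap K E) (zpol K d (X ^ n)) := by
  rw [lmap_zpol, Polynomial.map_pow, Polynomial.map_X, zpol, aeval_monomial, map_pow, aeval_X,
    Algebra.smul_def]

theorem res_form {d b : ℕ} (β : Fin b → K) (c : Fin b → K) (x y : Fin b → K)
    (u ω ω' : LaurentSeries K)
    (h : ∀ a : K[X], (ω' * (zpol K d a * ω * u)).coeff (-1) =
      ∑ l, a.eval (β l) * c l * (x l * y l)) (a : E[X]) :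
    (lmap (algebraMap K E) ω' * (zpol E d a * lmap (algebraMap K E) ω *
      lmap (algebraMap K E) u)).coeff (-1) =
      ∑ l, a.eval (algebraMap K E (β l)) * algebraMap K E (c l) *
        (algebraMap K E (x l) * algebraMap K E (y l)) := by
  induction a using Polynomial.induction_on' with
  | add p q hp hq =>
    rw [map_add, add_mul, add_mul, mul_add, HahnSeries.coeff_add, hp, hq,
      ← Finset.sum_add_distrib]
    refine Finset.sum_congr rfl fun l _ => ?_
    rw [eval_add]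
    ring
  | monomial n t =>
    have e : lmap (algebraMap K E) ω' * (zpol E d (monomial n t) * lmap (algebraMap K E) ω *
        lmap (algebraMap K E) u) =
        t • lmap (algebraMap K E) (ω' * (zpol K d (X ^ n) * ω * u)) := by
      rw [zpol_monomial (K := K), map_mul, map_mul, map_mul, smul_mul_assoc, smul_mul_assoc,
        mul_smul_comm]
    rw [e, HahnSeries.coeff_smul, lmap_coeff, h, smul_eq_mul, map_sum, Finset.mul_sum]
    refine Finset.sum_congr rfl fun l _ => ?_
    rw [eval_monomial, eval_pow, eval_X, map_mul, map_mul, map_mul, map_pow]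
    ring

end

end ZQN

theorem t_ZQN (hKFO : Stmt_KFO) (hKBC : Stmt_KBC) (hZQA : Stmt_ZQA) (hZQL : Stmt_ZQL) :
    Stmt_ZQN := by
  intro K E _ _ _ g d b R β α hd hdK hR hz hβ hD hα a ha μ hμ h
  obtain ⟨w, hw⟩ := (hKFO hR).1
  obtain ⟨f1, -, f3⟩ := ZQN.forms hKFO hR hw
  have hR' : Kr g (bc1 (algebraMap K E) R) := by
    have h1 := (hKBC.2.2.2 hR (algebraMap K E)).1
    rw [bc_uno] at h1
    exact h1
  have hw' : IsForms (uno (bc1 (algebraMap K E) R)) fun j => kmap (algebraMap K E) (w j) := by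
    have h1 := (hKBC.2.2.2 hR (algebraMap K E)).2.1 w hw
    rw [bc_uno] at h1
    exact h1
  obtain ⟨f1', f2', -⟩ := ZQN.forms hKFO hR' hw'
  obtain ⟨c, hc⟩ := f2' μ hμ
  obtain ⟨ev, cc, hcc, hev, hform⟩ := hZQA β hd hdK hR hz hβ hD
  obtain ⟨u, hu⟩ := ZQN.exists_inv hdK
  have hu' : lmap (algebraMap K E) u * ld (zz E d) = 1 := by
    have h1 := congrArg (lmap (algebraMap K E)) hu
    rw [map_mul, map_one, lmap_ld, lmap_zz] at h1
    exact h1
  set v : Fin b → Fin g → K := fun l i => ev l ⟨w i (), f1 i⟩ with hv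
  have hvx : ∀ x : Fin g → K, (∀ l, ∑ i, v l i * x i = 0) → x = 0 := by
    intro x hx
    refine f3 x ?_
    have h1 : (∑ i, x i • (⟨w i (), f1 i⟩ : EE1 R)) = 0 := by
      refine hev _ fun l => ?_
      rw [map_sum, ← hx l]
      refine Finset.sum_congr rfl fun i _ => ?_
      rw [map_smul, smul_eq_mul, mul_comm]
    have h2 := congrArg (Subtype.val) h1
    rw [Submodule.coe_sum] at h2
    exact h2
  have hdet := hZQL v cc α hcc hvx hα
  have hres : ∀ i j, (lmap (algebraMap K E) (w j ()) * (zpol E d a *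
      lmap (algebraMap K E) (w i ()) * lmap (algebraMap K E) u)).coeff (-1) =
      ∑ l, α l * algebraMap K E (cc l) *
        (algebraMap K E (v l i) * algebraMap K E (v l j)) := by
    intro i j
    rw [ZQN.res_form β cc (fun l => v l i) (fun l => v l j) u (w i ()) (w j ()) ?_ a]
    · exact Finset.sum_congr rfl fun l _ => by rw [ha]
    · intro a'
      exact hform a' ⟨w i (), f1 i⟩ ⟨w j (), f1 j⟩ _ (by
        rw [mul_assoc (zpol K d a' * w i ()) u, hu, mul_one])
  have hM : (∑ l, (α l * algebraMap K E (cc l)) •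
      Matrix.vecMulVec (fun i => algebraMap K E (v l i))
      (fun i => algebraMap K E (v l i)) : Matrix (Fin g) (Fin g) E).mulVec c = 0 := by
    refine funext fun i => ?_
    have h1 := h (lmap (algebraMap K E) (w i ())) (f1' i) (zpol E d a *
      lmap (algebraMap K E) (w i ()) * lmap (algebraMap K E) u) (by
        rw [mul_assoc (zpol E d a * lmap (algebraMap K E) (w i ())), hu', mul_one])
    rw [hc, Finset.sum_mul, HahnSeries.coeff_sum] at h1
    rw [Pi.zero_apply, ← h1, Matrix.mulVec, dotProduct]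
    refine Finset.sum_congr rfl fun j _ => ?_
    rw [smul_mul_assoc, HahnSeries.coeff_smul, smul_eq_mul, kmap_apply, hres i j,
      Matrix.sum_apply, mul_comm]
    rfl
  have hc0 : c = 0 := Matrix.eq_zero_of_mulVec_eq_zero hdet hM
  rw [hc, hc0]
  simp only [Pi.zero_apply, zero_smul, Finset.sum_const_zero]

end Pool.Agent.MG.G0


end
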