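import Mathlib
import Pool.Agent.KDM.C05
import Pool.Agent.KDM.C07
import Pool.Agent.KDM.C11
import Pool.Agent.KDM.C14
import Pool.Agent.KDM.C15
import Pool.Agent.KDM.C18
import Pool.Agent.KDM.C24
import Pool.Agent.KDM.C26
import Pool.Agent.KDM.C28
import Pool.Agent.KDM.C39
import Pool.Agent.KDM.C43
import Pool.Agent.KDM.C45
import Pool.Agent.KDM.C54

/-! Parts: MG.WL.CL.VAL, MG.WL.EXA, MG.H2.NMA, MG.H2.HTR, MG.G0.TG.TCY, MG.G0.ZQL -/

section

/-!
# VAL: values at closed points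
-/

open CategoryTheory AlgebraicGeometry IsLocalRing TopologicalSpace
open Pool.Agent.MG.Two

namespace Pool.Agent.MG.WL.CL

namespace VAL_

theorem isMaximal {X : Scheme.{0}} {x : X} (hx : IsClosed {x}) {V : X.Opens}
    (hV : IsAffineOpen V) (hxV : x ∈ V) : (hV.primeIdealOf ⟨x, hxV⟩).asIdeal.IsMaximal := by
  rw [← PrimeSpectrum.isClosed_singleton_iff_isMaximal]
  have h1 : ({hV.primeIdealOf ⟨x, hxV⟩} : Set (Spec Γ(X, V))) = hV.fromSpec ⁻¹' {x} := by
    refine Set.ext fun Q => ⟨fun h => ?_, fun h => ?_⟩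
    · have h2 : Q = hV.primeIdealOf ⟨x, hxV⟩ := h
      rw [h2]
      exact hV.fromSpec_primeIdealOf ⟨x, hxV⟩
    · have h2 : hV.fromSpec Q = hV.fromSpec (hV.primeIdealOf ⟨x, hxV⟩) := by
        rw [hV.fromSpec_primeIdealOf]
        exact h
      exact hV.fromSpec.isOpenEmbedding.injective h2
  have h3 : IsClosed (hV.fromSpec ⁻¹' {x}) := hx.preimage hV.fromSpec.continuous
  rw [← h1] at h3
  exact h3

theorem germ_coef {k : Type} [Field k] {X : Scheme.{0}} (π : X ⟶ Sp k) {x : X} {U V : X.Opens}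
    (hU : x ∈ U) (hV : x ∈ V) (c : k) :
    X.presheaf.germ U x hU (coef π U c) = X.presheaf.germ V x hV (coef π V c) := by
  have h1 : ∀ (W : X.Opens) (hW : x ∈ W), X.presheaf.germ W x hW (coef π W c) =
      X.presheaf.germ ⊤ x trivial (coef π ⊤ c) := fun W hW => by
    rw [← coef_rs π (le_top : W ≤ ⊤) c]
    exact X.presheaf.germ_res_apply (homOfLE le_top) x hW (coef π ⊤ c)
  exact (h1 U hU).trans (h1 V hV).symm

/-- Every germ at a closed point is a constant modulo the maximal ideal. -/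
theorem exists_const {k : Type} [Field k] [IsAlgClosed k] {X : Scheme.{0}} (π : X ⟶ Sp k)
    [LocallyOfFiniteType π] {x : X} (hx : IsClosed {x}) {V : X.Opens} (hV : IsAffineOpen V)
    (hxV : x ∈ V) (s : X.presheaf.stalk x) :
    ∃ c : k, s - X.presheaf.germ V x hxV (coef π V c) ∈ maximalIdeal (X.presheaf.stalk x) := by
  let _ : Algebra k Γ(X, V) := (kmap π V).toAlgebra
  have hft : Algebra.FiniteType k Γ(X, V) := kmap_finiteType π hV
  have hM := isMaximal hx hV hxV
  let _ : Algebra Γ(X, V) (X.presheaf.stalk x) := (X.presheaf.germ V x hxV).hom.toAlgebra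
  have hloc : IsLocalization.AtPrime (X.presheaf.stalk x)
      (hV.primeIdealOf ⟨x, hxV⟩).asIdeal := hV.isLocalization_stalk ⟨x, hxV⟩
  set P := (hV.primeIdealOf ⟨x, hxV⟩).asIdeal with hP
  obtain ⟨⟨a, t⟩, hat⟩ := IsLocalization.surj P.primeCompl s
  obtain ⟨ca, hca⟩ := exists_sub_mem (k := k) P a
  obtain ⟨ct, hct⟩ := exists_sub_mem (k := k) P (t : Γ(X, V))
  have hct0 : ct ≠ 0 := by
    rintro rfl
    rw [map_zero, sub_zero] at hct
    exact t.2 hct
  refine ⟨ca / ct, ?_⟩
  have hco : ∀ c : k, coef π V c = algebraMap k Γ(X, V) c := fun c => by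
    rw [coef_eq]
    rfl
  have htu : IsUnit (algebraMap Γ(X, V) (X.presheaf.stalk x) (t : Γ(X, V))) :=
    IsLocalization.map_units _ t
  rw [← Ideal.mul_unit_mem_iff_mem _ htu, sub_mul, hat]
  have h2 : X.presheaf.germ V x hxV (coef π V (ca / ct)) =
      algebraMap Γ(X, V) (X.presheaf.stalk x) (algebraMap k Γ(X, V) (ca / ct)) := by
    rw [hco]
    rfl
  rw [h2, ← map_mul, ← map_sub, ← Ideal.mem_comap]
  have h3 : (maximalIdeal (X.presheaf.stalk x)).comap
      (algebraMap Γ(X, V) (X.presheaf.stalk x)) = P :=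
    IsLocalization.AtPrime.under_maximalIdeal (X.presheaf.stalk x) P
  rw [h3]
  have h4 : a - algebraMap k Γ(X, V) (ca / ct) * (t : Γ(X, V)) =
      (a - algebraMap k Γ(X, V) ca) -
        algebraMap k Γ(X, V) (ca / ct) * ((t : Γ(X, V)) - algebraMap k Γ(X, V) ct) := by
    rw [mul_sub, ← map_mul, div_mul_cancel₀ _ hct0]
    ring
  rw [h4]
  exact sub_mem hca (P.mul_mem_left _ hct)

end VAL_

theorem t_VAL : Stmt_VAL := by
  intro k _ _ X π _ x hx
  obtain ⟨V, hV, hxV, -⟩ := exists_isAffineOpen_mem_and_subset (x := x) (U := (⊤ : X.Opens)) trivial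
  let γ : k →+* X.presheaf.stalk x := (X.presheaf.germ V x hxV).hom.comp (coef π V)
  have hbij : Function.Bijective ((residue (X.presheaf.stalk x)).comp γ) := by
    refine ⟨RingHom.injective _, fun y => ?_⟩
    obtain ⟨s, rfl⟩ := residue_surjective y
    obtain ⟨c, hc⟩ := VAL_.exists_const π hx hV hxV s
    refine ⟨c, ?_⟩
    have h1 := (residue_eq_zero_iff _).2 hc
    rw [map_sub, sub_eq_zero] at h1
    exact h1.symm
  let E := RingEquiv.ofBijective _ hbij
  refine ⟨(E.symm : ResidueField (X.presheaf.stalk x) →+* k).comp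
    (residue (X.presheaf.stalk x)), ?_, ?_⟩
  · ext s
    rw [RingHom.mem_ker, RingHom.comp_apply, ← residue_eq_zero_iff]
    exact map_eq_zero_iff (E.symm : ResidueField (X.presheaf.stalk x) →+* k) E.symm.injective
  · intro U hU c
    rw [VAL_.germ_coef π hU hxV c]
    have h1 : E c = residue (X.presheaf.stalk x) (X.presheaf.germ V x hxV (coef π V c)) := rfl
    rw [RingHom.comp_apply, ← h1]
    exact E.symm_apply_apply c

end Pool.Agent.MG.WL.CL


end

section

/-!
# EXA: isomorphisms of Weierstrass curves are scalings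
-/

open CategoryTheory CategoryTheory.Limits AlgebraicGeometry TensorProduct

namespace Pool.Agent.MG.WL

open Pool.Agent.MG.W Pool.Agent.MG.One Pool.Agent.MG.W.WUS Pool.Agent.MG.W.WUA

namespace EXAh

section alg

variable {D : Type} [CommRing D] {a b : D}

/-- `z` is regular. -/
theorem z_reg (a b : D) : z2 D a b ∈ nonZeroDivisors (A2 D a b) := by
  obtain ⟨-, -, W3, -⟩ := t_WRG D a b
  rw [mem_nonZeroDivisors_iff_right]
  intro v hv
  apply W3
  rw [map_zero]
  have h := congrArg (g2 D a b) hv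
  rw [map_mul, ← zu_val, map_zero] at h
  exact (Units.mul_left_eq_zero _).1 h

theorem inf2_alg (a b c : D) : inf2 D a b (algebraMap D _ c) = c := lift2_b _ _ _ _ _

theorem inf2_z (a b : D) : inf2 D a b (z2 D a b) = 0 := lift2_z _ _ _ _

/-- The section at infinity. -/
noncomputable def s0 (a b : D) : Sp D ⟶ WX D a b := spMap (inf2 D a b) ≫ WX.in2 D a b

/-- Points with `z = 0` lie on the section. -/
theorem mem_sec (q : Sp (A2 D a b)) (hq : z2 D a b ∈ q.asIdeal) :
    spMap (inf2 D a b) (spMap (algebraMap D (A2 D a b)) q) = q := by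
  obtain ⟨-, W2, -⟩ := t_WRG D a b
  apply PrimeSpectrum.ext
  ext v
  change algebraMap D (A2 D a b) (inf2 D a b v) ∈ q.asIdeal ↔ v ∈ q.asIdeal
  have h1 : v - algebraMap D _ (inf2 D a b v) ∈ q.asIdeal :=
    (Ideal.span_singleton_le_iff_mem _).2 hq (W2 v)
  constructor
  · intro h
    have := q.asIdeal.add_mem h1 h
    rwa [sub_add_cancel] at this
  · intro h
    have := q.asIdeal.sub_mem h h1
    rwa [sub_sub_cancel] at this

/-- The section at infinity does not meet the affine chart. -/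
theorem sec_not_mem (s : Sp D) : s0 a b s ∉ Set.range (WX.in1 D a b) := by
  rintro ⟨p, hp⟩
  have hp' : pushout.inl (spMap (g1 D a b)) (spMap (g2 D a b)) p =
      pushout.inr (spMap (g1 D a b)) (spMap (g2 D a b)) (spMap (inf2 D a b) s) := by
    have h : (s0 a b) s = WX.in2 D a b (spMap (inf2 D a b) s) := Scheme.Hom.comp_apply _ _ _
    rw [h] at hp
    exact hp
  obtain ⟨w, -, hw⟩ := glue2_eq _ _ _ _ hp'
  have h1 : z2 D a b ∈ (spMap (g2 D a b) w).asIdeal := by
    rw [hw]
    change inf2 D a b (z2 D a b) ∈ s.asIdeal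
    rw [inf2_z]
    exact s.asIdeal.zero_mem
  have h2 : (zu D a b).val ∈ w.asIdeal := h1
  exact w.2.ne_top (Ideal.eq_top_of_isUnit_mem _ h2 (zu D a b).isUnit)

/-- The complement of the affine chart is the section at infinity. -/
theorem compl_sec (x : WX D a b) (hx : x ∉ Set.range (WX.in1 D a b)) :
    ∃ s : Sp D, s0 a b s = x := by
  rcases glue2_surj (spMap (g1 D a b)) (spMap (g2 D a b)) x with h | ⟨q, hq⟩
  · exact absurd h hx
  · have hz : z2 D a b ∈ q.asIdeal := by
      by_contra hz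
      apply hx
      have h1 : q ∈ Set.range (PrimeSpectrum.comap (algebraMap (A2 D a b) (A12 D a b))) := by
        rw [PrimeSpectrum.localization_away_comap_range (A12 D a b) (z2 D a b)]
        exact hz
      obtain ⟨w', hw⟩ := h1
      let w : Sp (A12 D a b) := w'
      have hw' : spMap (g2 D a b) w = q := hw
      refine ⟨spMap (g1 D a b) w, ?_⟩
      rw [← hq, ← hw']
      change (WX.in1 D a b) (spMap (g1 D a b) w) = (WX.in2 D a b) (spMap (g2 D a b) w)
      rw [← Scheme.Hom.comp_apply, ← Scheme.Hom.comp_apply, in12]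
    refine ⟨spMap (algebraMap D (A2 D a b)) q, ?_⟩
    rw [s0, Scheme.Hom.comp_apply, mem_sec q hz]
    exact hq

end alg

section morph

variable {D : Type} [CommRing D] {a b a' b' : D}

/-- Morphisms over the base respecting the section at infinity. -/
structure GoodM (g : WX D a' b' ⟶ WX D a b) : Prop where
  iso : IsIso g
  pr : g ≫ WX.pr D a b = WX.pr D a' b'
  sec : s0 a' b' ≫ g = s0 a b

theorem GoodM.inv {g : WX D a' b' ⟶ WX D a b} (h : GoodM g) : haveI := h.iso; GoodM (inv g) := by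
  have := h.iso
  refine ⟨inferInstance, ?_, ?_⟩
  · rw [IsIso.inv_comp_eq, h.pr]
  · rw [IsIso.comp_inv_eq, h.sec]

theorem GoodM.range {g : WX D a' b' ⟶ WX D a b} (h : GoodM g) :
    Set.range (WX.in1 D a' b' ≫ g) ⊆ Set.range (WX.in1 D a b) := by
  have := h.iso
  rintro _ ⟨p, rfl⟩
  by_contra hn
  obtain ⟨s, hs⟩ := compl_sec _ hn
  rw [← h.sec, Scheme.Hom.comp_apply, Scheme.Hom.comp_apply] at hs
  have hinj : Function.Injective g := (Scheme.homeoOfIso (asIso g)).injective
  exact sec_not_mem s ⟨p, (hinj hs).symm⟩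

/-- The homomorphism of the affine coordinate rings. -/
theorem GoodM.theta {g : WX D a' b' ⟶ WX D a b} (h : GoodM g) :
    ∃ θ : A1 D a b →+* A1 D a' b', spMap θ ≫ WX.in1 D a b = WX.in1 D a' b' ≫ g := by
  obtain ⟨θ, e⟩ := spMap_full (IsOpenImmersion.lift (WX.in1 D a b) (WX.in1 D a' b' ≫ g) h.range)
  exact ⟨θ, by rw [e, IsOpenImmersion.lift_fac]⟩

theorem theta_alg {g : WX D a' b' ⟶ WX D a b} (h : GoodM g) {θ : A1 D a b →+* A1 D a' b'}
    (hθ : spMap θ ≫ WX.in1 D a b = WX.in1 D a' b' ≫ g) (c : D) :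
    θ (algebraMap D _ c) = algebraMap D _ c := by
  have k : θ.comp (algebraMap D _) = algebraMap D _ := by
    apply spMap_inj
    rw [← spMap_comp', ← WX.in1_pr, ← Category.assoc, hθ, Category.assoc, h.pr, WX.in1_pr]
  exact congrArg (fun φ => φ c) k

/-- A neighbourhood of the section mapping to the chart at infinity. -/
theorem GoodM.nbhd {g : WX D a' b' ⟶ WX D a b} (h : GoodM g) :
    ∃ t : A2 D a' b', (∃ c, t + c * z2 D a' b' = 1) ∧
      ∀ q : Sp (A2 D a' b'), t ∉ q.asIdeal →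
        (WX.in2 D a' b' ≫ g) q ∈ Set.range (WX.in2 D a b) := by
  have ho : IsOpen {q : PrimeSpectrum (A2 D a' b') |
      (WX.in2 D a' b' ≫ g) q ∈ Set.range (WX.in2 D a b)} :=
    ((WX.in2 D a' b' ≫ g) ⁻¹ᵁ (WX.in2 D a b).opensRange).2
  obtain ⟨I, hI⟩ := (PrimeSpectrum.isClosed_iff_zeroLocus_ideal _).1 ho.isClosed_compl
  have hsup : I ⊔ Ideal.span {z2 D a' b'} = ⊤ := by
    rw [← PrimeSpectrum.zeroLocus_empty_iff_eq_top, PrimeSpectrum.zeroLocus_sup,
      PrimeSpectrum.zeroLocus_span, ← hI]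
    rw [Set.eq_empty_iff_forall_notMem]
    rintro q ⟨hq1, hq2⟩
    apply hq1
    have hz : z2 D a' b' ∈ q.asIdeal := hq2 rfl
    let q' : Sp (A2 D a' b') := q
    have e := mem_sec q' hz
    change (WX.in2 D a' b' ≫ g) q' ∈ Set.range (WX.in2 D a b)
    rw [← e]
    refine ⟨spMap (inf2 D a b) (spMap (algebraMap D (A2 D a' b')) q'), ?_⟩
    have e2 : (s0 a' b' ≫ g) (spMap (algebraMap D (A2 D a' b')) q') =
        (s0 a b) (spMap (algebraMap D (A2 D a' b')) q') := by rw [h.sec]
    rw [s0, s0, Scheme.Hom.comp_apply, Scheme.Hom.comp_apply, Scheme.Hom.comp_apply] at e2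
    rw [Scheme.Hom.comp_apply, e2]
  have h1 : (1 : A2 D a' b') ∈ I ⊔ Ideal.span {z2 D a' b'} := by rw [hsup]; trivial
  obtain ⟨t, ht, y, hy, e⟩ := Submodule.mem_sup.1 h1
  obtain ⟨c, rfl⟩ := Ideal.mem_span_singleton'.1 hy
  refine ⟨t, ⟨c, e⟩, fun q hq => ?_⟩
  by_contra hn
  apply hq
  have : (q : PrimeSpectrum (A2 D a' b')) ∈ PrimeSpectrum.zeroLocus (I : Set (A2 D a' b')) := by
    rw [← hI]
    exact hn
  exact this ht

end morph

section loc

variable {D : Type} [CommRing D] {a b a' b' : D} (t : A2 D a' b')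

/-- The neighbourhood of the section. -/
abbrev Rh : Type := Localization.Away t

/-- The punctured neighbourhood of the section. -/
abbrev Rz : Type := Localization.Away (algebraMap (A2 D a' b') (Rh t) (z2 D a' b'))

/-- `z` is regular near the section. -/
theorem z_reg' : algebraMap (A2 D a' b') (Rh t) (z2 D a' b') ∈ nonZeroDivisors (Rh t) :=
  IsLocalization.map_nonZeroDivisors_le (Submonoid.powers t) (Rh t) ⟨_, z_reg a' b', rfl⟩

/-- Restriction to the punctured neighbourhood. -/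
noncomputable def jh : Rh t →+* Rz t := algebraMap _ _

theorem jh_inj : Function.Injective (jh t) :=
  IsLocalization.injective (Rz t) (M := Submonoid.powers
    (algebraMap (A2 D a' b') (Rh t) (z2 D a' b'))) (by
      rw [Submonoid.powers_le]
      exact z_reg' t)

/-- Restriction to the punctured neighbourhood. -/
noncomputable def j1 : A12 D a' b' →+* Rz t :=
  IsLocalization.Away.lift (z2 D a' b') (g := (jh t).comp (algebraMap (A2 D a' b') (Rh t)))
    (IsLocalization.Away.algebraMap_isUnit (S := Rz t)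
      (algebraMap (A2 D a' b') (Rh t) (z2 D a' b')))

theorem j1_g2 (v : A2 D a' b') : j1 t (g2 D a' b' v) = jh t (algebraMap _ _ v) :=
  IsLocalization.Away.lift_eq _ _ _

variable {t}

/-- Extension of functions over the section. -/
theorem ext_sec {c : A2 D a' b'} (ht : t + c * z2 D a' b' = 1) (w : A12 D a' b') (ρ : Rh t)
    (h : j1 t w = jh t ρ) : ∃ v : A2 D a' b', w = g2 D a' b' v := by
  obtain ⟨k, m, hm⟩ := IsLocalization.Away.surj (z2 D a' b') w
  obtain ⟨l, m', hm'⟩ := IsLocalization.Away.surj t ρ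
  have e1 : ρ * algebraMap _ _ (z2 D a' b') ^ k = algebraMap (A2 D a' b') (Rh t) m := by
    apply jh_inj t
    rw [map_mul, ← h, map_pow, ← j1_g2, ← j1_g2, ← map_pow, ← map_mul]
    exact congrArg (j1 t) hm
  have e2 : algebraMap (A2 D a' b') (Rh t) (m' * z2 D a' b' ^ k) =
      algebraMap (A2 D a' b') (Rh t) (m * t ^ l) := by
    rw [map_mul, map_mul, map_pow, map_pow, ← hm', ← e1]
    ring
  obtain ⟨j, hj⟩ := IsLocalization.Away.exists_of_eq t e2
  have hdvd : z2 D a' b' ^ k ∣ t ^ (j + l) * m := ⟨t ^ j * m', by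
    rw [pow_add]
    linear_combination -hj⟩
  have hcop : IsCoprime (z2 D a' b' ^ k) (t ^ (j + l)) :=
    IsCoprime.pow ⟨c, 1, by rw [one_mul, add_comm]; exact ht⟩
  obtain ⟨v, hv⟩ := hcop.dvd_of_dvd_mul_left hdvd
  refine ⟨v, ?_⟩
  have hu : IsUnit ((zu D a' b').val ^ k) := (zu D a' b').isUnit.pow k
  refine hu.mul_right_cancel ?_
  have hm2 : w * (zu D a' b').val ^ k = g2 D a' b' m := hm
  rw [hm2, hv, map_mul, map_pow, zu_val, mul_comm]

variable (t)

/-- The inclusion of the neighbourhood. -/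
theorem eta_range {g : WX D a' b' ⟶ WX D a b}
    (hr : ∀ q : Sp (A2 D a' b'), t ∉ q.asIdeal →
        (WX.in2 D a' b' ≫ g) q ∈ Set.range (WX.in2 D a b)) :
    Set.range (spMap (algebraMap (A2 D a' b') (Rh t)) ≫ WX.in2 D a' b' ≫ g) ⊆
      Set.range (WX.in2 D a b) := by
  rintro _ ⟨q, rfl⟩
  rw [Scheme.Hom.comp_apply]
  apply hr
  have h1 : PrimeSpectrum.comap (algebraMap (A2 D a' b') (Rh t)) q ∈
      Set.range (PrimeSpectrum.comap (algebraMap (A2 D a' b') (Rh t))) := ⟨q, rfl⟩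
  rw [PrimeSpectrum.localization_away_comap_range (Rh t) t] at h1
  exact h1

theorem eta_ex {g : WX D a' b' ⟶ WX D a b}
    (hr : ∀ q : Sp (A2 D a' b'), t ∉ q.asIdeal →
        (WX.in2 D a' b' ≫ g) q ∈ Set.range (WX.in2 D a b)) :
    ∃ η : A2 D a b →+* Rh t, spMap η ≫ WX.in2 D a b =
      spMap (algebraMap (A2 D a' b') (Rh t)) ≫ WX.in2 D a' b' ≫ g := by
  obtain ⟨η, e⟩ := spMap_full (IsOpenImmersion.lift (WX.in2 D a b)
    (spMap (algebraMap (A2 D a' b') (Rh t)) ≫ WX.in2 D a' b' ≫ g) (eta_range t hr))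
  exact ⟨η, by rw [e, IsOpenImmersion.lift_fac]⟩

variable {t}

theorem eta_alg {g : WX D a' b' ⟶ WX D a b} (h : GoodM g) {η : A2 D a b →+* Rh t}
    (hη : spMap η ≫ WX.in2 D a b = spMap (algebraMap (A2 D a' b') (Rh t)) ≫ WX.in2 D a' b' ≫ g)
    (c : D) : η (algebraMap D _ c) = algebraMap (A2 D a' b') (Rh t) (algebraMap D _ c) := by
  have k : η.comp (algebraMap D _) = (algebraMap (A2 D a' b') (Rh t)).comp (algebraMap D _) := by
    apply spMap_inj
    rw [← spMap_comp' (algebraMap D (A2 D a b)) η,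
      ← spMap_comp' (algebraMap D (A2 D a' b')) (algebraMap (A2 D a' b') (Rh t)),
      ← WX.in2_pr, ← Category.assoc, hη, Category.assoc, Category.assoc, h.pr, WX.in2_pr]
  exact congrArg (fun φ => φ c) k

/-- The image of `z` generates the ideal of the section. -/
theorem eta_z {g : WX D a' b' ⟶ WX D a b} (h : GoodM g) {c : A2 D a' b'}
    (ht : t + c * z2 D a' b' = 1) {η : A2 D a b →+* Rh t}
    (hη : spMap η ≫ WX.in2 D a b = spMap (algebraMap (A2 D a' b') (Rh t)) ≫ WX.in2 D a' b' ≫ g) :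
    ∃ r : (Rh t)ˣ, η (z2 D a b) = r.val * algebraMap (A2 D a' b') (Rh t) (z2 D a' b') := by
  have := h.iso
  obtain ⟨-, W2, -⟩ := t_WRG D a b
  obtain ⟨-, W2', -⟩ := t_WRG D a' b'
  have ht1 : inf2 D a' b' t = 1 := by
    have e := congrArg (inf2 D a' b') ht
    rwa [map_add, map_mul, inf2_z, mul_zero, add_zero, map_one] at e
  -- the image of z is a multiple of z
  let ih : Rh t →+* D := IsLocalization.Away.lift t (g := inf2 D a' b') (by
    rw [ht1]; exact isUnit_one)
  have hih : ∀ v, ih (algebraMap _ _ v) = inf2 D a' b' v := fun v =>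
    IsLocalization.Away.lift_eq _ _ _
  have hih' : ih.comp (algebraMap (A2 D a' b') (Rh t)) = inf2 D a' b' := RingHom.ext hih
  have k1 : ih.comp η = inf2 D a b := by
    apply spMap_inj
    have hs := h.sec
    rw [s0, s0, Category.assoc] at hs
    rw [← cancel_mono (WX.in2 D a b), ← spMap_comp', Category.assoc, hη, ← Category.assoc,
      spMap_comp', hih', hs]
  have k2 : ih (η (z2 D a b)) = 0 := by
    have e := congrArg (fun φ => φ (z2 D a b)) k1
    change ih (η (z2 D a b)) = inf2 D a b (z2 D a b) at e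
    rw [e, inf2_z]
  have hut : IsUnit (algebraMap (A2 D a' b') (Rh t) t) := IsLocalization.Away.algebraMap_isUnit t
  have k3 : η (z2 D a b) ∈ Ideal.span {algebraMap (A2 D a' b') (Rh t) (z2 D a' b')} := by
    obtain ⟨l, m, hm⟩ := IsLocalization.Away.surj t (η (z2 D a b))
    have e0 : inf2 D a' b' m = 0 := by
      rw [← hih, ← hm, map_mul, k2, zero_mul]
    have e1 := W2' m
    rw [e0, map_zero, sub_zero] at e1
    obtain ⟨n, hn⟩ := Ideal.mem_span_singleton'.1 e1
    have e2 : η (z2 D a b) * algebraMap (A2 D a' b') (Rh t) t ^ l ∈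
        Ideal.span {algebraMap (A2 D a' b') (Rh t) (z2 D a' b')} := by
      rw [hm, ← hn, map_mul]
      exact Ideal.mul_mem_left _ _ (Ideal.subset_span rfl)
    exact (Ideal.mul_unit_mem_iff_mem _ (hut.pow l)).1 e2
  obtain ⟨r, hr⟩ := Ideal.mem_span_singleton'.1 k3
  -- and conversely
  have k4 : algebraMap (A2 D a' b') (Rh t) (z2 D a' b') ∈ Ideal.span {η (z2 D a b)} := by
    let T := Rh t ⧸ Ideal.span {η (z2 D a b)}
    let π : Rh t →+* T := Ideal.Quotient.mk _
    let al : D →+* T := π.comp ((algebraMap (A2 D a' b') (Rh t)).comp (algebraMap D _))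
    have e1 : π.comp η = al.comp (inf2 D a b) := by
      refine RingHom.ext fun v => ?_
      obtain ⟨n, hn⟩ := Ideal.mem_span_singleton'.1 (W2 v)
      have e2 : v = n * z2 D a b + algebraMap D _ (inf2 D a b v) := by rw [hn]; ring
      have e3 : π (η (z2 D a b)) = 0 :=
        Ideal.Quotient.eq_zero_iff_mem.2 (Ideal.subset_span rfl)
      change π (η v) = π (algebraMap (A2 D a' b') (Rh t) (algebraMap D _ (inf2 D a b v)))
      rw [← eta_alg h hη]
      conv_lhs => rw [e2]
      rw [map_add, map_add, map_mul, map_mul, e3, mul_zero, zero_add]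
    have e2 : π.comp (algebraMap (A2 D a' b') (Rh t)) = al.comp (inf2 D a' b') := by
      apply spMap_inj
      rw [← cancel_mono (WX.in2 D a' b'), ← cancel_mono g,
        ← spMap_comp' (algebraMap (A2 D a' b') (Rh t)) π, ← spMap_comp' (inf2 D a' b') al,
        Category.assoc, Category.assoc, Category.assoc, Category.assoc, ← hη, ← Category.assoc,
        spMap_comp' η π, e1, ← spMap_comp' (inf2 D a b) al, Category.assoc]
      have hs := h.sec
      rw [s0, s0, Category.assoc] at hs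
      rw [hs]
    have e3 := congrArg (fun φ => φ (z2 D a' b')) e2
    change π (algebraMap (A2 D a' b') (Rh t) (z2 D a' b')) = al (inf2 D a' b' (z2 D a' b')) at e3
    rw [inf2_z, map_zero] at e3
    exact Ideal.Quotient.eq_zero_iff_mem.1 e3
  obtain ⟨r', hr'⟩ := Ideal.mem_span_singleton'.1 k4
  have k5 : r * r' = 1 := by
    have e : (r * r' - 1) * algebraMap (A2 D a' b') (Rh t) (z2 D a' b') = 0 := by
      rw [← hr] at hr'
      linear_combination hr'
    exact sub_eq_zero.1 ((mem_nonZeroDivisors_iff_right.1 (z_reg' t)) _ e)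
  exact ⟨⟨r, r', k5, by rw [mul_comm]; exact k5⟩, hr.symm⟩

/-- The comparison on the punctured neighbourhood. -/
theorem zeta_ex {g : WX D a' b' ⟶ WX D a b} {θ : A1 D a b →+* A1 D a' b'}
    (hθ : spMap θ ≫ WX.in1 D a b = WX.in1 D a' b' ≫ g) {η : A2 D a b →+* Rh t}
    (hη : spMap η ≫ WX.in2 D a b = spMap (algebraMap (A2 D a' b') (Rh t)) ≫ WX.in2 D a' b' ≫ g) :
    ∃ ζ : A12 D a b →+* Rz t, (∀ v, ζ (g1 D a b v) = j1 t (g1 D a' b' (θ v))) ∧
      ∀ v, ζ (g2 D a b v) = jh t (η v) := by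
  have pb := glue2_isPullback (spMap (g1 D a b)) (spMap (g2 D a b))
  have hj : (j1 t).comp (g2 D a' b') = (jh t).comp (algebraMap (A2 D a' b') (Rh t)) :=
    RingHom.ext fun v => j1_g2 t v
  have hw : (spMap (((j1 t).comp (g1 D a' b')).comp θ)) ≫ WX.in1 D a b =
      spMap ((jh t).comp η) ≫ WX.in2 D a b := by
    rw [← spMap_comp', ← spMap_comp', ← spMap_comp', Category.assoc, Category.assoc, Category.assoc,
      hθ, hη, ← Category.assoc (spMap (g1 D a' b')), in12, ← Category.assoc (spMap (jh t)),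
      spMap_comp', ← hj, ← spMap_comp']
    simp only [Category.assoc]
  obtain ⟨ζ, hζ⟩ := spMap_full (pb.lift _ _ hw)
  refine ⟨ζ, fun v => ?_, fun v => ?_⟩
  · have e : ζ.comp (g1 D a b) = ((j1 t).comp (g1 D a' b')).comp θ := by
      apply spMap_inj
      rw [← spMap_comp', hζ]
      exact pb.lift_fst _ _ hw
    exact congrArg (fun φ => φ v) e
  · have e : ζ.comp (g2 D a b) = (jh t).comp η := by
      apply spMap_inj
      rw [← spMap_comp', hζ]
      exact pb.lift_snd _ _ hw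
    exact congrArg (fun φ => φ v) e

/-- The pole orders do not increase. -/
theorem pole {g : WX D a' b' ⟶ WX D a b} (h : GoodM g) {θ : A1 D a b →+* A1 D a' b'}
    (hθ : spMap θ ≫ WX.in1 D a b = WX.in1 D a' b' ≫ g) (n : ℕ) (X : A1 D a b)
    (hX : g2 D a b (z2 D a b) ^ n * g2 D a b (t2 D a b) * g1 D a b X = 1) :
    ∃ v : A2 D a' b', (zu D a' b').val ^ n * g1 D a' b' (θ X) = g2 D a' b' v := by
  obtain ⟨t, ⟨c, ht⟩, hr⟩ := h.nbhd
  obtain ⟨η, hη⟩ := eta_ex t hr
  obtain ⟨ζ, h1, h2⟩ := zeta_ex hθ hη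
  obtain ⟨r, hrz⟩ := eta_z h ht hη
  obtain ⟨s, hs⟩ := (t2_unit D a b).map η
  have e := congrArg ζ hX
  rw [map_mul, map_mul, map_pow, h1, h2, h2, hrz, map_one, ← hs, map_mul, ← j1_g2, ← zu_val] at e
  refine ext_sec ht _ ((r⁻¹).val ^ n * (s⁻¹).val) ?_
  rw [map_mul, map_pow, map_mul, map_pow]
  have er : jh t r.val * jh t (r⁻¹).val = 1 := by rw [← map_mul, Units.mul_inv, map_one]
  have es : jh t s.val * jh t (s⁻¹).val = 1 := by rw [← map_mul, Units.mul_inv, map_one]
  generalize jh t r.val = R at *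
  generalize jh t (r⁻¹).val = R' at *
  generalize jh t s.val = S at *
  generalize jh t (s⁻¹).val = S' at *
  generalize j1 t (zu D a' b').val = z at *
  generalize j1 t (g1 D a' b' (θ X)) = x at *
  calc z ^ n * x = (R * R') ^ n * (S * S') * (z ^ n * x) := by rw [er, es]; ring
    _ = ((R * z) ^ n * S * x) * (R' ^ n * S') := by ring
    _ = _ := by rw [e, one_mul]

end loc

section fin

variable {D : Type} [CommRing D] {a b a' b' : D}

/-- The images of the coordinates. -/
theorem form {g : WX D a' b' ⟶ WX D a b} (h : GoodM g) {θ : A1 D a b →+* A1 D a' b'}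
    (hθ : spMap θ ≫ WX.in1 D a b = WX.in1 D a' b' ≫ g) :
    (∃ c d : D, θ (x1 D a b) = algebraMap D _ c + algebraMap D _ d * x1 D a' b') ∧
    ∃ c d e : D, θ (y1 D a b) = algebraMap D _ c + algebraMap D _ d * x1 D a' b' +
      algebraMap D _ e * y1 D a' b' := by
  obtain ⟨-, -, -, -, -, -, W7, W8⟩ := t_WRG D a' b'
  obtain ⟨v, hv⟩ := pole h hθ 2 (x1 D a b) (relx a b)
  obtain ⟨w, hw⟩ := pole h hθ 3 (y1 D a b) (rely a b)
  exact ⟨W7 _ _ hv, W8 _ _ hw⟩

/-- The leading coefficients are units. -/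
theorem units {g : WX D a' b' ⟶ WX D a b} (h : GoodM g) {θ : A1 D a b →+* A1 D a' b'}
    (hθ : spMap θ ≫ WX.in1 D a b = WX.in1 D a' b' ≫ g) {c d c2 d2 e2 : D}
    (hx : θ (x1 D a b) = algebraMap D _ c + algebraMap D _ d * x1 D a' b')
    (hy : θ (y1 D a b) = algebraMap D _ c2 + algebraMap D _ d2 * x1 D a' b' +
      algebraMap D _ e2 * y1 D a' b') : (∃ δ, d * δ = 1) ∧ ∃ ε, e2 * ε = 1 := by
  have := h.iso
  obtain ⟨W1, -⟩ := t_WRG D a b
  obtain ⟨θ', hθ'⟩ := h.inv.theta
  obtain ⟨⟨c', δ, hx'⟩, ⟨c3, d3, ε, hy'⟩⟩ := form h.inv hθ'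
  have hid : θ'.comp θ = RingHom.id _ := by
    apply spMap_inj
    rw [← cancel_mono (WX.in1 D a b), ← spMap_comp' θ θ', Category.assoc, hθ, ← Category.assoc,
      hθ', Category.assoc, IsIso.inv_hom_id, Category.comp_id]
    have h0 : spMap (RingHom.id (A1 D a b)) = 𝟙 _ := Spec.map_id _
    rw [h0, Category.id_comp]
  have ha' := theta_alg h.inv hθ'
  have ex : θ' (θ (x1 D a b)) = x1 D a b := congrArg (fun φ => φ (x1 D a b)) hid
  have ey : θ' (θ (y1 D a b)) = y1 D a b := congrArg (fun φ => φ (y1 D a b)) hid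
  rw [hx, map_add, map_mul, ha', ha', hx'] at ex
  rw [hy, map_add, map_add, map_mul, map_mul, ha', ha', ha', hx', hy'] at ey
  have h1 := uni a b W1 (P := Polynomial.C (c + d * c') + Polynomial.C (d * δ) * Polynomial.X)
    (Q := 0) (P' := Polynomial.X) (Q' := 0) (by
      simp only [map_add, map_mul, Polynomial.aeval_C, Polynomial.aeval_X, map_zero]
      linear_combination ex)
  have h2 := uni a b W1 (P := Polynomial.C (c2 + d2 * c' + e2 * c3) +
    Polynomial.C (d2 * δ + e2 * d3) * Polynomial.X)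
    (Q := Polynomial.C (e2 * ε)) (P' := 0) (Q' := 1) (by
      simp only [map_add, map_mul, Polynomial.aeval_C, Polynomial.aeval_X, map_zero, map_one]
      linear_combination ey)
  have f1 := congrArg (fun q => Polynomial.coeff q 1) h1.1
  have f2 := congrArg (fun q => Polynomial.coeff q 0) h2.2
  simp [Polynomial.coeff_C] at f1 f2
  exact ⟨⟨δ, f1⟩, ⟨ε, f2⟩⟩

/-- The homomorphism of the affine coordinate rings is a scaling. -/
theorem theta_sc (h6 : IsUnit (6 : D)) {g : WX D a' b' ⟶ WX D a b} (h : GoodM g)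
    {θ : A1 D a b →+* A1 D a' b'} (hθ : spMap θ ≫ WX.in1 D a b = WX.in1 D a' b' ≫ g) :
    ∃ (u v : D) (huv : u * v = 1) (ha : a' = u ^ 4 * a) (hb : b' = u ^ 6 * b),
      θ = sc1 huv ha hb := by
  obtain ⟨W1, -⟩ := t_WRG D a' b'
  obtain ⟨⟨c, d, hx⟩, ⟨c2, d2, e2, hy⟩⟩ := form h hθ
  obtain ⟨⟨δ, hδ⟩, ⟨ε, hε⟩⟩ := units h hθ hx hy
  have hal := theta_alg h hθ
  have hrel := congrArg θ (rel1 D a b)
  rw [map_pow, map_add, map_add, map_pow, map_mul, hal, hal, hx, hy] at hrel
  have hy2 := rel1 D a' b'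
  have h := uni a' b' W1
    (P := Polynomial.C (e2 ^ 2) * Polynomial.X ^ 3 + Polynomial.C (d2 ^ 2) * Polynomial.X ^ 2 +
      Polynomial.C (e2 ^ 2 * a' + 2 * c2 * d2) * Polynomial.X +
      Polynomial.C (e2 ^ 2 * b' + c2 ^ 2))
    (Q := Polynomial.C (2 * e2 * d2) * Polynomial.X + Polynomial.C (2 * e2 * c2))
    (P' := Polynomial.C (d ^ 3) * Polynomial.X ^ 3 + Polynomial.C (3 * c * d ^ 2) *
      Polynomial.X ^ 2 + Polynomial.C (3 * c ^ 2 * d + a * d) * Polynomial.X +
      Polynomial.C (c ^ 3 + a * c + b))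
    (Q' := 0) (by
      simp only [map_add, map_mul, Polynomial.aeval_C, Polynomial.aeval_X, map_zero, map_pow,
        map_ofNat]
      generalize algebraMap D (A1 D a' b') c = c_ at *
      generalize algebraMap D (A1 D a' b') d = d_ at *
      generalize algebraMap D (A1 D a' b') c2 = c2_ at *
      generalize algebraMap D (A1 D a' b') d2 = d2_ at *
      generalize algebraMap D (A1 D a' b') e2 = e2_ at *
      generalize algebraMap D (A1 D a' b') a' = a1 at *
      generalize algebraMap D (A1 D a' b') b' = b1 at *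
      generalize algebraMap D (A1 D a' b') a = a0 at *
      generalize algebraMap D (A1 D a' b') b = b0 at *
      generalize x1 D a' b' = x at *
      generalize y1 D a' b' = y at *
      linear_combination hrel - e2_ ^ 2 * hy2)
  have e3 := congrArg (fun q => Polynomial.coeff q 3) h.1
  have e2' := congrArg (fun q => Polynomial.coeff q 2) h.1
  have e1 := congrArg (fun q => Polynomial.coeff q 1) h.1
  have e0 := congrArg (fun q => Polynomial.coeff q 0) h.1
  have q1 := congrArg (fun q => Polynomial.coeff q 1) h.2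
  have q0 := congrArg (fun q => Polynomial.coeff q 0) h.2
  simp only [Polynomial.coeff_add, Polynomial.coeff_C_mul, Polynomial.coeff_X_pow,
    Polynomial.coeff_C, Polynomial.coeff_X, Polynomial.coeff_zero] at e3 e2' e1 e0 q1 q0
  norm_num at e3 e2' e1 e0 q1 q0
  obtain ⟨s, hs⟩ := h6.exists_right_inv
  have hd2 : d2 = 0 := by
    calc d2 = d2 * (6 * s) * (e2 * ε) := by rw [hs, hε]; ring
      _ = 3 * s * ε * (2 * e2 * d2) := by ring
      _ = 0 := by rw [q1, mul_zero]
  have hc2 : c2 = 0 := by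
    calc c2 = c2 * (6 * s) * (e2 * ε) := by rw [hs, hε]; ring
      _ = 3 * s * ε * (2 * e2 * c2) := by ring
      _ = 0 := by rw [q0, mul_zero]
  rw [hd2] at e2'
  have hc : c = 0 := by
    calc c = c * (6 * s) * (d * δ) ^ 2 := by rw [hs, hδ]; ring
      _ = 2 * s * δ ^ 2 * (3 * c * d ^ 2) := by ring
      _ = 0 := by rw [← e2']; ring
  subst hd2 hc2 hc
  have e1' : e2 ^ 2 * a' = a * d := by linear_combination e1
  have e0' : e2 ^ 2 * b' = b := by linear_combination e0
  have hv2 : (e2 * δ) ^ 2 = d := by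
    calc (e2 * δ) ^ 2 = e2 ^ 2 * δ ^ 2 := by ring
      _ = d * (d * δ) ^ 2 := by rw [e3]; ring
      _ = d := by rw [hδ]; ring
  have hv3 : (e2 * δ) ^ 3 = e2 := by
    calc (e2 * δ) ^ 3 = e2 ^ 2 * δ ^ 3 * e2 := by ring
      _ = (d * δ) ^ 3 * e2 := by rw [e3]; ring
      _ = e2 := by rw [hδ]; ring
  have huv : (d * ε) * (e2 * δ) = 1 := by
    calc (d * ε) * (e2 * δ) = (d * δ) * (e2 * ε) := by ring
      _ = 1 := by rw [hδ, hε, mul_one]
  have ha : a' = (d * ε) ^ 4 * a := by
    calc a' = a' * (e2 * ε) ^ 4 * (d * δ) ^ 1 := by rw [hδ, hε]; ring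
      _ = (e2 ^ 2 * a') * e2 ^ 2 * ε ^ 4 * (d * δ) := by ring
      _ = (d * ε) ^ 4 * a * (d * δ) := by rw [e1', e3]; ring
      _ = _ := by rw [hδ, mul_one]
  have hb : b' = (d * ε) ^ 6 * b := by
    calc b' = b' * (e2 * ε) ^ 6 := by rw [hε]; ring
      _ = (e2 ^ 2 * b') * e2 ^ 2 * e2 ^ 2 * ε ^ 6 := by ring
      _ = _ := by rw [e0', e3]; ring
  refine ⟨d * ε, e2 * δ, huv, ha, hb, hom1_ext (fun c => ?_) ?_ ?_⟩
  · rw [hal, sc1_b]
  · rw [hx, sc1_x, ← map_pow, hv2, map_zero, zero_add]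
  · rw [hy, sc1_y, ← map_pow, hv3, map_zero, zero_mul, zero_add, zero_add]

theorem ext_open {X Y Z : Scheme.{0}} (k : Z ⟶ X) [IsOpenImmersion k] {f f' : X ⟶ Y}
    (e : k ≫ f = k ≫ f') : k.opensRange.ι ≫ f = k.opensRange.ι ≫ f' := by
  rw [← cancel_epi k.isoOpensRange.hom, Scheme.Hom.isoOpensRange_hom_ι_assoc,
    Scheme.Hom.isoOpensRange_hom_ι_assoc, e]

/-- Morphisms with the same affine part are equal. -/
theorem good_eq {g g' : WX D a' b' ⟶ WX D a b} (h : GoodM g) {σ : A2 D a b →+* A2 D a' b'}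
    (hσ : WX.in2 D a' b' ≫ g' = spMap σ ≫ WX.in2 D a b)
    (e1 : WX.in1 D a' b' ≫ g = WX.in1 D a' b' ≫ g') : g = g' := by
  obtain ⟨t, ⟨c, ht⟩, hr⟩ := h.nbhd
  obtain ⟨η, hη⟩ := eta_ex t hr
  have k2 : spMap (g2 D a' b') ≫ WX.in2 D a' b' ≫ g = spMap (g2 D a' b') ≫ WX.in2 D a' b' ≫ g' := by
    rw [← Category.assoc, ← in12, Category.assoc, e1, ← Category.assoc, in12, Category.assoc]
  have hj : (j1 t).comp (g2 D a' b') = (jh t).comp (algebraMap (A2 D a' b') (Rh t)) :=
    RingHom.ext fun v => j1_g2 t v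
  have hη2 : η = (algebraMap (A2 D a' b') (Rh t)).comp σ := by
    have e : (jh t).comp η = (jh t).comp ((algebraMap (A2 D a' b') (Rh t)).comp σ) := by
      apply spMap_inj
      rw [← cancel_mono (WX.in2 D a b), ← spMap_comp' η (jh t),
        ← spMap_comp' ((algebraMap (A2 D a' b') (Rh t)).comp σ) (jh t),
        ← spMap_comp' σ (algebraMap (A2 D a' b') (Rh t)), Category.assoc, Category.assoc,
        Category.assoc, hη, ← hσ, ← Category.assoc, ← Category.assoc (spMap (jh t)),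
        spMap_comp' (algebraMap (A2 D a' b') (Rh t)) (jh t), ← hj,
        ← spMap_comp' (g2 D a' b') (j1 t), Category.assoc, Category.assoc, k2]
    exact RingHom.ext fun v => jh_inj t (congrArg (fun φ => φ v) e)
  have k3 : spMap (algebraMap (A2 D a' b') (Rh t)) ≫ WX.in2 D a' b' ≫ g =
      spMap (algebraMap (A2 D a' b') (Rh t)) ≫ WX.in2 D a' b' ≫ g' := by
    rw [← hη, hσ, hη2, ← spMap_comp' σ (algebraMap (A2 D a' b') (Rh t)), Category.assoc]
  have io : IsOpenImmersion (spMap (algebraMap (A2 D a' b') (Rh t))) := by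
    infer_instance
  refine WX.ext' e1 (Scheme.hom_ext_of_forall _ _ fun q => ?_)
  by_cases hz : z2 D a' b' ∈ q.asIdeal
  · have hq : t ∉ q.asIdeal := by
      intro hq
      apply q.2.ne_top
      rw [Ideal.eq_top_iff_one, ← ht]
      exact q.asIdeal.add_mem hq (q.asIdeal.mul_mem_left c hz)
    refine ⟨(spMap (algebraMap (A2 D a' b') (Rh t))).opensRange, ?_, ext_open _ k3⟩
    have h1 : (q : PrimeSpectrum (A2 D a' b')) ∈
        Set.range (PrimeSpectrum.comap (algebraMap (A2 D a' b') (Rh t))) := by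
      rw [PrimeSpectrum.localization_away_comap_range (Rh t) t]
      exact hq
    exact h1
  · refine ⟨(spMap (g2 D a' b')).opensRange, ?_, ext_open _ k2⟩
    have h1 : (q : PrimeSpectrum (A2 D a' b')) ∈
        Set.range (PrimeSpectrum.comap (algebraMap (A2 D a' b') (A12 D a' b'))) := by
      rw [PrimeSpectrum.localization_away_comap_range (A12 D a' b') (z2 D a' b')]
      exact hz
    exact h1

end fin

end EXAh

open _root_.Pool.Agent.MG.WL.EXAh in
/-- EXA: isomorphisms of Weierstrass curves are scalings. -/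
theorem t_EXA : Stmt_EXA := by
  refine ⟨?_, ?_⟩
  · intro D _ h6 a b a' b' e
    have hid : spMap (RingHom.id D) = 𝟙 (Sp D) := Spec.map_id _
    have hiso := arrow_id_iso e
    obtain ⟨g, cart, sec⟩ := e
    change WX D a' b' ⟶ WX D a b at g
    have hg : GoodM g := by
      refine ⟨hiso, ?_, ?_⟩
      · have h := cart.w
        change g ≫ WX.pr D a b = WX.pr D a' b' ≫ spMap (RingHom.id D) at h
        rw [h, hid, Category.comp_id]
      · have h := sec 0
        change (spMap (inf2 D a' b') ≫ WX.in2 D a' b') ≫ g =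
          spMap (RingHom.id D) ≫ spMap (inf2 D a b) ≫ WX.in2 D a b at h
        rw [hid, Category.id_comp] at h
        exact h
    obtain ⟨θ, hθ⟩ := hg.theta
    obtain ⟨u, v, huv, ha, hb, hsc⟩ := theta_sc h6 hg hθ
    refine ⟨u, v, huv, ha, hb, ?_⟩
    have e1 : WX.in1 D a' b' ≫ g = WX.in1 D a' b' ≫ WX.sc huv ha hb := by
      rw [← hθ, hsc, WX.in1_sc]
    exact good_eq hg (WX.in2_sc huv ha hb) e1
  · intro D _ a b a' b' u v u' v' huv ha hb huv' ha' hb' he
    have e1 : sc2 ha hb = sc2 ha' hb' := by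
      apply spMap_inj
      rw [← cancel_mono (WX.in2 D a b), ← WX.in2_sc huv ha hb, ← WX.in2_sc huv' ha' hb', he]
    have e2 := congrArg (fun φ => φ (z2 D a b)) e1
    change sc2 ha hb (z2 D a b) = sc2 ha' hb' (z2 D a b) at e2
    rw [sc2_z, sc2_z, ← sub_eq_zero, ← sub_mul] at e2
    have e3 := (mem_nonZeroDivisors_iff_right.1 (z_reg a' b')) _ e2
    have e4 := congrArg (inf2 D a' b') e3
    rw [map_sub, inf2_alg, inf2_alg, map_zero, sub_eq_zero] at e4
    exact e4

end Pool.Agent.MG.WL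


end

section

/-!
# A regular function at the zero covector does not depend on the marked points (module NMA)
-/

open CategoryTheory CategoryTheory.Limits AlgebraicGeometry TensorProduct

namespace Pool.Agent.MG.H2

namespace NMA

variable {n : ℕ} {k : Type} [Field k] [IsAlgClosed k]

theorem stab (hNPT : Stmt_NPT) (g : ℕ) (C : Fam 0 k) (hC : IsStable g C)
    (hs : SmoothOfRelativeDimension 1 C.π) (σ : Fin n → (Sp k ⟶ C.X))
    (hσ : ∀ i, σ i ≫ C.π = 𝟙 (Sp k)) (hi : Function.Injective σ) :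
    IsStable g (wpt C σ hσ) := by
  apply hNPT g C hC σ hσ
  · intro i
    refine ⟨⊤, ?_, fun s => trivial⟩
    have : Smooth C.π := SmoothOfRelativeDimension.smooth 1 C.π
    infer_instance
  · intro K _ _ s i j hij h
    exact hij (hi ((cancel_epi (spMap s)).1 h))

/-- The first `m` sections are those of `τ`, the others those of `σ`. -/
def mix (C : Fam 0 k) (σ τ : Fin n → (Sp k ⟶ C.X)) (m : ℕ) (i : Fin n) : Sp k ⟶ C.X :=
  if i.val < m then τ i else σ i

theorem mix_sec (C : Fam 0 k) (σ τ : Fin n → (Sp k ⟶ C.X)) (hσ : ∀ i, σ i ≫ C.π = 𝟙 (Sp k))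
    (hτ : ∀ i, τ i ≫ C.π = 𝟙 (Sp k)) (m : ℕ) (i : Fin n) : mix C σ τ m i ≫ C.π = 𝟙 (Sp k) := by
  unfold mix
  split_ifs
  · exact hτ i
  · exact hσ i

theorem mix_inj (C : Fam 0 k) (σ τ : Fin n → (Sp k ⟶ C.X)) (hσ : Function.Injective σ)
    (hτ : Function.Injective τ) (hd : ∀ i j, σ i ≠ τ j) (m : ℕ) :
    Function.Injective (mix C σ τ m) := by
  intro i j h
  unfold mix at h
  split_ifs at h with h1 h2 h2
  · exact hτ h
  · exact absurd h.symm (hd j i)
  · exact absurd h (hd i j)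
  · exact hσ h

theorem disj [Algebra ℂ k] (hNPT : Stmt_NPT) (hNMV : Stmt_NMV) (g : ℕ) (hg : 2 ≤ g) (F : Reg g n)
    (C : Fam 0 k) (hC : IsStable g C) (hs : SmoothOfRelativeDimension 1 C.π)
    (σ τ : Fin n → (Sp k ⟶ C.X)) (hσ : ∀ i, σ i ≫ C.π = 𝟙 (Sp k))
    (hτ : ∀ i, τ i ≫ C.π = 𝟙 (Sp k)) (iσ : Function.Injective σ) (iτ : Function.Injective τ)
    (hd : ∀ i j, σ i ≠ τ j) (h1 : IsStable g (wpt C σ hσ)) (h2 : IsStable g (wpt C τ hτ)) :
    F.F k (wpt C σ hσ) h1 0 = F.F k (wpt C τ hτ) h2 0 := by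
  have key : ∀ m : ℕ, m ≤ n → ∀ h : IsStable g (wpt C (mix C σ τ m) (mix_sec C σ τ hσ hτ m)),
      F.F k (wpt C σ hσ) h1 0 = F.F k (wpt C (mix C σ τ m) (mix_sec C σ τ hσ hτ m)) h 0 := by
    intro m
    induction m with
    | zero =>
      intro _ h
      have e : ∀ (ρ : Fin n → (Sp k ⟶ C.X)) (hρ : ∀ i, ρ i ≫ C.π = 𝟙 (Sp k))
          (h' : IsStable g (wpt C ρ hρ)), ρ = σ →
          F.F k (wpt C σ hσ) h1 0 = F.F k (wpt C ρ hρ) h' 0 := by
        intro ρ hρ h' e
        subst e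
        rfl
      apply e
      funext i
      simp [mix]
    | succ m ih =>
      intro hm h
      have hst := stab hNPT g C hC hs (mix C σ τ m) (mix_sec C σ τ hσ hτ m)
        (mix_inj C σ τ iσ iτ hd m)
      rw [ih (by omega) hst]
      apply hNMV g hg F C hC hs _ _ _ _ (⟨m, by omega⟩ : Fin n)
      · intro i hi
        have hne : i.val ≠ m := fun h0 => hi (Fin.ext h0)
        unfold mix
        by_cases h3 : i.val < m
        · rw [if_pos h3, if_pos (by omega)]
        · rw [if_neg h3, if_neg (by omega)]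
      · exact mix_inj C σ τ iσ iτ hd m
      · exact mix_inj C σ τ iσ iτ hd (m + 1)
  have hst := stab hNPT g C hC hs (mix C σ τ n) (mix_sec C σ τ hσ hτ n)
    (mix_inj C σ τ iσ iτ hd n)
  rw [key n le_rfl hst]
  have e : ∀ (ρ : Fin n → (Sp k ⟶ C.X)) (hρ : ∀ i, ρ i ≫ C.π = 𝟙 (Sp k))
      (h' : IsStable g (wpt C ρ hρ)), ρ = τ →
      F.F k (wpt C ρ hρ) h' 0 = F.F k (wpt C τ hτ) h2 0 := by
    intro ρ hρ h' e
    subst e
    rfl
  apply e
  funext i
  simp [mix]

end NMA

/-- NMA -/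
theorem t_NMA (hNPT : Stmt_NPT) (hNMV : Stmt_NMV) : Stmt_NMA := by
  intro n k _ _ _ g hg F C hC hs hinf σ τ hσ hτ iσ iτ h1 h2
  have hinf' : ({s : Sp k ⟶ C.X | s ≫ C.π = 𝟙 (Sp k)} \ (Set.range σ ∪ Set.range τ)).Infinite :=
    hinf.sdiff ((Set.finite_range σ).union (Set.finite_range τ))
  let e := hinf'.natEmbedding
  let ρ : Fin n → (Sp k ⟶ C.X) := fun i => (e i.val).1
  have hρ : ∀ i, ρ i ≫ C.π = 𝟙 (Sp k) := fun i => (e i.val).2.1
  have iρ : Function.Injective ρ := by
    intro i j h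
    have h3 : e i.val = e j.val := Subtype.ext h
    exact Fin.ext (e.injective h3)
  have d1 : ∀ i j, σ i ≠ ρ j := by
    intro i j h
    exact (e j.val).2.2 (Or.inl ⟨i, h⟩)
  have d2 : ∀ i j, ρ i ≠ τ j := by
    intro i j h
    exact (e i.val).2.2 (Or.inr ⟨j, h.symm⟩)
  have h3 := NMA.stab hNPT g C hC hs ρ hρ iρ
  rw [NMA.disj hNPT hNMV g hg F C hC hs σ ρ hσ hρ iσ iρ d1 h1 h3]
  exact NMA.disj hNPT hNMV g hg F C hC hs ρ τ hρ hτ iρ iτ d2 h3 h2

end Pool.Agent.MG.H2


end

section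

/-!
# The infinitesimal coordinate changes of the curves `y² = f(x)`

`x ↦ x + e (a₀ + a₁ x + a₂ x²)`, `y ↦ (1 + e (c + 3 a₂ x)) y`, where `e² = 0`.
-/

open CategoryTheory CategoryTheory.Limits AlgebraicGeometry TensorProduct

namespace Pool.Agent.MG.H2

namespace HTR

section alg

variable {R : Type} [CommRing R]

/-- `f' = f + e dir f`. -/
def IsD (e a0 a1 a2 c : R) (f f' : Fin 7 → R) : Prop :=
  ∀ i, f' i = f i + e * dir a0 a1 a2 c f i

variable {e a0 a1 a2 c : R} {f f' : Fin 7 → R}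

theorem IsD.co (h : IsD e a0 a1 a2 c f f') :
    f' 0 = f 0 + e * (a0 * f 1 - 2 * c * f 0) ∧
    f' 1 = f 1 + e * (2 * a0 * f 2 + (a1 - 2 * c) * f 1 - 6 * a2 * f 0) ∧
    f' 2 = f 2 + e * (3 * a0 * f 3 + (2 * a1 - 2 * c) * f 2 - 5 * a2 * f 1) ∧
    f' 3 = f 3 + e * (4 * a0 * f 4 + (3 * a1 - 2 * c) * f 3 - 4 * a2 * f 2) ∧
    f' 4 = f 4 + e * (5 * a0 * f 5 + (4 * a1 - 2 * c) * f 4 - 3 * a2 * f 3) ∧
    f' 5 = f 5 + e * (6 * a0 * f 6 + (5 * a1 - 2 * c) * f 5 - 2 * a2 * f 4) ∧
    f' 6 = f 6 + e * ((6 * a1 - 2 * c) * f 6 - a2 * f 5) :=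
  ⟨h 0, h 1, h 2, h 3, h 4, h 5, h 6⟩

theorem IsD.mk' (h0 : f' 0 = f 0 + e * (a0 * f 1 - 2 * c * f 0))
    (h1 : f' 1 = f 1 + e * (2 * a0 * f 2 + (a1 - 2 * c) * f 1 - 6 * a2 * f 0))
    (h2 : f' 2 = f 2 + e * (3 * a0 * f 3 + (2 * a1 - 2 * c) * f 2 - 5 * a2 * f 1))
    (h3 : f' 3 = f 3 + e * (4 * a0 * f 4 + (3 * a1 - 2 * c) * f 3 - 4 * a2 * f 2))
    (h4 : f' 4 = f 4 + e * (5 * a0 * f 5 + (4 * a1 - 2 * c) * f 4 - 3 * a2 * f 3))
    (h5 : f' 5 = f 5 + e * (6 * a0 * f 6 + (5 * a1 - 2 * c) * f 5 - 2 * a2 * f 4))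
    (h6 : f' 6 = f 6 + e * ((6 * a1 - 2 * c) * f 6 - a2 * f 5)) :
    IsD e a0 a1 a2 c f f' := by
  intro i
  fin_cases i
  exacts [h0, h1, h2, h3, h4, h5, h6]

theorem IsD.neg (he : e * e = 0) (h : IsD e a0 a1 a2 c f f') :
    IsD (-e) a0 a1 a2 c f' f := by
  obtain ⟨h0, h1, h2, h3, h4, h5, h6⟩ := h.co
  have k : ∀ i, e * f' i = e * f i := by
    intro i
    rw [h i]
    linear_combination (dir a0 a1 a2 c f i) * he
  have k0 := k 0
  have k1 := k 1
  have k2 := k 2
  have k3 := k 3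
  have k4 := k 4
  have k5 := k 5
  have k6 := k 6
  apply IsD.mk'
  · linear_combination -h0 + a0 * k1 - 2 * c * k0
  · linear_combination -h1 + 2 * a0 * k2 + (a1 - 2 * c) * k1 - 6 * a2 * k0
  · linear_combination -h2 + 3 * a0 * k3 + (2 * a1 - 2 * c) * k2 - 5 * a2 * k1
  · linear_combination -h3 + 4 * a0 * k4 + (3 * a1 - 2 * c) * k3 - 4 * a2 * k2
  · linear_combination -h4 + 5 * a0 * k5 + (4 * a1 - 2 * c) * k4 - 3 * a2 * k3
  · linear_combination -h5 + 6 * a0 * k6 + (5 * a1 - 2 * c) * k5 - 2 * a2 * k4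
  · linear_combination -h6 + (6 * a1 - 2 * c) * k6 - a2 * k5

theorem IsD.rev' (h : IsD e a0 a1 a2 c f f') :
    IsD e (-a2) (-a1) (-a0) (c - 3 * a1) (rev f) (rev f') := by
  obtain ⟨h0, h1, h2, h3, h4, h5, h6⟩ := h.co
  apply IsD.mk'
  · change f' 6 = f 6 + e * (-a2 * f 5 - 2 * (c - 3 * a1) * f 6)
    linear_combination h6
  · change f' 5 = f 5 + e * (2 * -a2 * f 4 + (-a1 - 2 * (c - 3 * a1)) * f 5 - 6 * -a0 * f 6)
    linear_combination h5
  · change f' 4 = f 4 + e * (3 * -a2 * f 3 + (2 * -a1 - 2 * (c - 3 * a1)) * f 4 - 5 * -a0 * f 5)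
    linear_combination h4
  · change f' 3 = f 3 + e * (4 * -a2 * f 2 + (3 * -a1 - 2 * (c - 3 * a1)) * f 3 - 4 * -a0 * f 4)
    linear_combination h3
  · change f' 2 = f 2 + e * (5 * -a2 * f 1 + (4 * -a1 - 2 * (c - 3 * a1)) * f 2 - 3 * -a0 * f 3)
    linear_combination h2
  · change f' 1 = f 1 + e * (6 * -a2 * f 0 + (5 * -a1 - 2 * (c - 3 * a1)) * f 1 - 2 * -a0 * f 2)
    linear_combination h1
  · change f' 0 = f 0 + e * ((6 * -a1 - 2 * (c - 3 * a1)) * f 0 - -a0 * f 1)
    linear_combination h0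

theorem IsD.map {R' : Type} [CommRing R'] (φ : R →+* R') (h : IsD e a0 a1 a2 c f f') :
    IsD (φ e) (φ a0) (φ a1) (φ a2) (φ c) (fun i => φ (f i)) (fun i => φ (f' i)) := by
  obtain ⟨h0, h1, h2, h3, h4, h5, h6⟩ := h.co
  apply IsD.mk' <;> simp only [h0, h1, h2, h3, h4, h5, h6, map_add, map_mul, map_sub, map_ofNat]

theorem pol_co (he : e * e = 0) (h : IsD e a0 a1 a2 c f f') (x : R) :
    (1 + e * (c + 3 * a2 * x)) ^ 2 * pol f' x = pol f (x + e * (a0 + a1 * x + a2 * x ^ 2)) := by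
  obtain ⟨h0, h1, h2, h3, h4, h5, h6⟩ := h.co
  set z := a0 + a1 * x + a2 * x ^ 2 with hz
  have q2 : (x + e * z) ^ 2 = x ^ 2 + 2 * e * z * x := by linear_combination z ^ 2 * he
  have q3 : (x + e * z) ^ 3 = x ^ 3 + 3 * e * z * x ^ 2 := by
    rw [pow_succ, q2]
    linear_combination 2 * z ^ 2 * x * he
  have q4 : (x + e * z) ^ 4 = x ^ 4 + 4 * e * z * x ^ 3 := by
    rw [pow_succ, q3]
    linear_combination 3 * z ^ 2 * x ^ 2 * he
  have q5 : (x + e * z) ^ 5 = x ^ 5 + 5 * e * z * x ^ 4 := by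
    rw [pow_succ, q4]
    linear_combination 4 * z ^ 2 * x ^ 3 * he
  have q6 : (x + e * z) ^ 6 = x ^ 6 + 6 * e * z * x ^ 5 := by
    rw [pow_succ, q5]
    linear_combination 5 * z ^ 2 * x ^ 4 * he
  have q : (1 + e * (c + 3 * a2 * x)) ^ 2 = 1 + 2 * e * (c + 3 * a2 * x) := by
    linear_combination (c + 3 * a2 * x) ^ 2 * he
  have k : ∀ i, e * f' i = e * f i := by
    intro i
    rw [h i]
    linear_combination (dir a0 a1 a2 c f i) * he
  have k' : e * pol f' x = e * pol f x := by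
    simp only [pol]
    linear_combination k 0 + x * k 1 + x ^ 2 * k 2 + x ^ 3 * k 3 + x ^ 4 * k 4 + x ^ 5 * k 5 +
      x ^ 6 * k 6
  have k2 : (1 + e * (c + 3 * a2 * x)) ^ 2 * pol f' x =
      pol f' x + 2 * (c + 3 * a2 * x) * (e * pol f x) := by
    rw [q, ← k']
    ring
  rw [k2]
  simp only [pol, h0, h1, h2, h3, h4, h5, h6, q2, q3, q4, q5, q6]
  rw [hz]
  ring

end alg

section

variable {B : Type} [CommRing B] {e a0 a1 a2 c : B} {f f' : Fin 7 → B}

theorem sq0 {S : Type} [CommRing S] (c : B →+* S) (he : e * e = 0) : c e * c e = 0 := by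
  rw [← map_mul, he, map_zero]

/-- The coordinate change on the affine chart. -/
noncomputable def co1 (he : e * e = 0) (h : IsD e a0 a1 a2 c f f') : A1 B f →+* A1 B f' :=
  lift1 (algebraMap B _)
    (x1 B f' + algebraMap B _ e * (algebraMap B _ a0 + algebraMap B _ a1 * x1 B f' +
      algebraMap B _ a2 * x1 B f' ^ 2))
    ((1 + algebraMap B _ e * (algebraMap B _ c + 3 * algebraMap B _ a2 * x1 B f')) * y1 B f') (by
    rw [mul_pow, rel1]
    exact pol_co (sq0 _ he) (h.map (algebraMap B (A1 B f'))) _)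

/-- `x + e (a₀ + a₁ x + a₂ x²)` as a unit. -/
noncomputable def uco {S : Type} [CommRing S] (x : Sˣ) (e a0 a1 a2 : S) (he : e * e = 0) : Sˣ where
  val := x + e * (a0 + a1 * x + a2 * x ^ 2)
  inv := (x⁻¹ : Sˣ) - e * (a0 * (x⁻¹ : Sˣ) ^ 2 + a1 * (x⁻¹ : Sˣ) + a2)
  val_inv := by
    have h : (x : S) * (x⁻¹ : Sˣ) = 1 := Units.mul_inv x
    linear_combination (1 + e * (a1 + a2 * x) - e * (a0 * (x⁻¹ : Sˣ) + a1)) * h -
      (a0 + a1 * x + a2 * x ^ 2) * (a0 * ((x⁻¹ : Sˣ) : S) ^ 2 + a1 * (x⁻¹ : Sˣ) + a2) * he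
  inv_val := by
    have h : (x : S) * (x⁻¹ : Sˣ) = 1 := Units.mul_inv x
    linear_combination (1 + e * (a1 + a2 * x) - e * (a0 * (x⁻¹ : Sˣ) + a1)) * h -
      (a0 + a1 * x + a2 * x ^ 2) * (a0 * ((x⁻¹ : Sˣ) : S) ^ 2 + a1 * (x⁻¹ : Sˣ) + a2) * he

/-- The coordinate change on the intersection. -/
noncomputable def co12 (he : e * e = 0) (h : IsD e a0 a1 a2 c f f') : A12 B f →+* A12 B f' :=
  lift12 (algebraMap B _)
    (uco (xu B f') (algebraMap B _ e) (algebraMap B _ a0) (algebraMap B _ a1) (algebraMap B _ a2)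
      (sq0 _ he))
    ((1 + algebraMap B _ e * (algebraMap B _ c + 3 * algebraMap B _ a2 * (xu B f' : A12 B f'))) *
      yv B f') (by
    rw [mul_pow, rel12]
    exact pol_co (sq0 _ he) (h.map (algebraMap B (A12 B f'))) _)

section

variable (he : e * e = 0) (h : IsD e a0 a1 a2 c f f')

theorem co1_b (b : B) : co1 he h (algebraMap B _ b) = algebraMap B _ b := lift1_b _ _ _ _ _

theorem co1_x : co1 he h (x1 B f) = x1 B f' + algebraMap B _ e * (algebraMap B _ a0 +
    algebraMap B _ a1 * x1 B f' + algebraMap B _ a2 * x1 B f' ^ 2) := lift1_x _ _ _ _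

theorem co1_y : co1 he h (y1 B f) =
    (1 + algebraMap B _ e * (algebraMap B _ c + 3 * algebraMap B _ a2 * x1 B f')) * y1 B f' :=
  lift1_y _ _ _ _

theorem co12_b (b : B) : co12 he h (algebraMap B _ b) = algebraMap B _ b := lift12_b _ _ _ _ _

theorem co12_x : co12 he h (xu B f : A12 B f) = (xu B f' : A12 B f') + algebraMap B _ e *
    (algebraMap B _ a0 + algebraMap B _ a1 * (xu B f' : A12 B f') +
      algebraMap B _ a2 * (xu B f' : A12 B f') ^ 2) :=
  lift12_x _ _ _ _

theorem co12_xi : co12 he h ((xu B f)⁻¹ : (A12 B f)ˣ).val =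
    ((xu B f')⁻¹ : (A12 B f')ˣ).val - algebraMap B _ e *
      (algebraMap B _ a0 * ((xu B f')⁻¹ : (A12 B f')ˣ).val ^ 2 +
        algebraMap B _ a1 * ((xu B f')⁻¹ : (A12 B f')ˣ).val + algebraMap B _ a2) :=
  lift12_xi _ _ _ _

theorem co12_y : co12 he h (yv B f) =
    (1 + algebraMap B _ e * (algebraMap B _ c + 3 * algebraMap B _ a2 * (xu B f' : A12 B f'))) *
      yv B f' := lift12_y _ _ _ _

theorem co12_g1 (v : A1 B f) : co12 he h (g1 B f v) = g1 B f' (co1 he h v) := by
  have : (co12 he h).comp (g1 B f) = (g1 B f').comp (co1 he h) := by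
    refine hom1_ext ?_ ?_ ?_
    · intro b
      rw [RingHom.comp_apply, RingHom.comp_apply, g1_b, co12_b, co1_b, g1_b]
    · rw [RingHom.comp_apply, RingHom.comp_apply, co1_x, ← xu_val, co12_x, map_add, map_mul,
        map_add, map_add, map_mul, map_mul, map_pow, g1_b, g1_b, g1_b, g1_b, xu_val]
    · rw [RingHom.comp_apply, RingHom.comp_apply, co1_y, g1_y, co12_y, map_mul, map_add, map_mul,
        map_add, map_mul, map_mul, map_one, map_ofNat, g1_b, g1_b, g1_b, xu_val, g1_y]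
  exact congrArg (fun g => g v) this

theorem co12_g2 (v : A2 B f) : co12 he h (g2 B f v) = g2 B f' (co1 he h.rev' v) := by
  have : (co12 he h).comp (g2 B f) = (g2 B f').comp (co1 he h.rev') := by
    refine hom1_ext ?_ ?_ ?_
    · intro b
      rw [RingHom.comp_apply, RingHom.comp_apply, g2_b, co12_b, co1_b, g2_b]
    · rw [RingHom.comp_apply, RingHom.comp_apply, co1_x, g2_u, co12_xi, map_add, map_mul,
        map_add, map_add, map_mul, map_mul, map_pow, g2_b, g2_b, g2_b, g2_b, g2_u, map_neg,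
        map_neg, map_neg]
      ring
    · rw [RingHom.comp_apply, RingHom.comp_apply, co1_y, g2_v, map_mul, co12_y, map_mul, map_add,
        map_mul, map_add, map_mul, map_mul, map_one, map_ofNat, g2_b, g2_b, g2_b, g2_u, g2_v,
        map_neg, map_sub, map_mul, map_ofNat, Units.val_pow_eq_pow_val, map_pow, co12_xi,
        Units.val_pow_eq_pow_val]
      set u : A12 B f' := (xu B f' : A12 B f') with hu
      set w : A12 B f' := ((xu B f')⁻¹ : (A12 B f')ˣ).val with hw
      set E : A12 B f' := algebraMap B (A12 B f') e with hE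
      set b0 : A12 B f' := algebraMap B (A12 B f') a0 with hb0
      set b1 : A12 B f' := algebraMap B (A12 B f') a1 with hb1
      set b2 : A12 B f' := algebraMap B (A12 B f') a2 with hb2
      set d : A12 B f' := algebraMap B (A12 B f') c with hd
      have h1 : u * w = 1 := Units.mul_inv _
      have h2 : E * E = 0 := sq0 _ he
      have h3 : (w - E * (b0 * w ^ 2 + b1 * w + b2)) ^ 3 =
          w ^ 3 - 3 * E * (b0 * w ^ 2 + b1 * w + b2) * w ^ 2 := by
        linear_combination (3 * w * (b0 * w ^ 2 + b1 * w + b2) ^ 2 -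
          E * (b0 * w ^ 2 + b1 * w + b2) ^ 3) * h2
      rw [h3]
      linear_combination (3 * E * b2 * w ^ 2 * yv B f') * h1 -
        (3 * (d + 3 * b2 * u) * (b0 * w ^ 2 + b1 * w + b2) * w ^ 2 * yv B f') * h2
  exact congrArg (fun g => g v) this

/-- The composite of a coordinate change and its inverse. -/
theorem co1_co1 (h' : IsD (-e) a0 a1 a2 c f' f) (he' : -e * -e = 0) (v : A1 B f) :
    co1 he' h' (co1 he h v) = v := by
  have : (co1 he' h').comp (co1 he h) = RingHom.id _ := by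
    refine hom1_ext ?_ ?_ ?_
    · intro b
      rw [RingHom.comp_apply, co1_b, co1_b]
      rfl
    · rw [RingHom.comp_apply, co1_x, map_add, map_mul, map_add, map_add, map_mul, map_mul, map_pow,
        co1_b, co1_b, co1_b, co1_b, co1_x, RingHom.id_apply, map_neg]
      have h2 : algebraMap B (A1 B f) e * algebraMap B (A1 B f) e = 0 := sq0 _ he
      set x : A1 B f := x1 B f with hx
      set E : A1 B f := algebraMap B (A1 B f) e with hE
      set b0 : A1 B f := algebraMap B (A1 B f) a0 with hb0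
      set b1 : A1 B f := algebraMap B (A1 B f) a1 with hb1
      set b2 : A1 B f := algebraMap B (A1 B f) a2 with hb2
      linear_combination (-b1 * (b0 + b1 * x + b2 * x ^ 2) -
        2 * b2 * x * (b0 + b1 * x + b2 * x ^ 2) +
        b2 * E * (b0 + b1 * x + b2 * x ^ 2) ^ 2) * h2
    · rw [RingHom.comp_apply, co1_y, map_mul, map_add, map_mul, map_add, map_mul, map_mul, map_one,
        map_ofNat, co1_b, co1_b, co1_b, co1_x, co1_y, RingHom.id_apply, map_neg]
      have h2 : algebraMap B (A1 B f) e * algebraMap B (A1 B f) e = 0 := sq0 _ he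
      set x : A1 B f := x1 B f with hx
      set E : A1 B f := algebraMap B (A1 B f) e with hE
      set b0 : A1 B f := algebraMap B (A1 B f) a0 with hb0
      set b1 : A1 B f := algebraMap B (A1 B f) a1 with hb1
      set b2 : A1 B f := algebraMap B (A1 B f) a2 with hb2
      set d : A1 B f := algebraMap B (A1 B f) c with hd
      linear_combination ((-3 * b2 * (b0 + b1 * x + b2 * x ^ 2) - (d + 3 * b2 * x) ^ 2 +
        3 * E * b2 * (b0 + b1 * x + b2 * x ^ 2) * (d + 3 * b2 * x)) * y1 B f) * h2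
  exact congrArg (fun g => g v) this

/-- The coordinate change. -/
noncomputable def chg : RHom (RingHom.id B) f f' where
  h1 := co1 he h
  h2 := co1 he h.rev'
  h12 := co12 he h
  b1 := co1_b he h
  b2 := co1_b he h.rev'
  c1 := co12_g1 he h
  c2 := co12_g2 he h

theorem chg_chg (h' : IsD (-e) a0 a1 a2 c f' f) (he' : -e * -e = 0) :
    (chg he' h').mor ≫ (chg he h).mor = 𝟙 (HX B f) := by
  refine HX.ext' ?_ ?_
  · rw [← Category.assoc, RHom.in1_mor, Category.assoc, RHom.in1_mor, ← Category.assoc,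
      spMap_comp', Category.comp_id]
    have h3 : (chg he' h').h1.comp (chg he h).h1 = RingHom.id _ :=
      RingHom.ext fun v => co1_co1 he h h' he' v
    rw [h3]
    have h4 : spMap (RingHom.id (A1 B f)) = 𝟙 (Sp (A1 B f)) := Spec.map_id _
    rw [h4, Category.id_comp]
  · rw [← Category.assoc, RHom.in2_mor, Category.assoc, RHom.in2_mor, ← Category.assoc,
      spMap_comp', Category.comp_id]
    have h3 : (chg he' h').h2.comp (chg he h).h2 = RingHom.id _ :=
      RingHom.ext fun v => co1_co1 he h.rev' h'.rev' he' v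
    rw [h3]
    have h4 : spMap (RingHom.id (A2 B f)) = 𝟙 (Sp (A2 B f)) := Spec.map_id _
    rw [h4, Category.id_comp]

theorem chg_iso : IsIso (chg he h).mor := by
  have he' : -e * -e = 0 := by linear_combination he
  have h' : IsD (-e) a0 a1 a2 c f' f := h.neg he
  have he'' : - -e * - -e = 0 := by linear_combination he
  have h'' : IsD (- -e) a0 a1 a2 c f f' := h'.neg he'
  refine ⟨(chg he' h').mor, ?_, ?_⟩
  · have h1 := chg_chg he' h' h'' he''
    have h2 : (chg he'' h'').mor = (chg he h).mor := by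
      have h3 : - -e = e := neg_neg e
      congr 1
      revert he'' h''
      rw [h3]
      intro _ _ _
      rfl
    rw [← h2]
    exact h1
  · exact chg_chg he h h' he'

/-- Modulo `e` the coordinate change is the identity. -/
theorem bc_co {B' : Type} [CommRing B'] (p : B →+* B') (hp : p e = 0) {f0 : Fin 7 → B'}
    (h1 : ∀ i, f0 i = p (f' i)) (h2 : ∀ i, f0 i = p (f i)) (v : A1 B f) :
    bc1 p h1 (co1 he h v) = bc1 p h2 v := by
  have : (bc1 p h1).comp (co1 he h) = bc1 p h2 := by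
    refine hom1_ext ?_ ?_ ?_
    · intro b
      rw [RingHom.comp_apply, co1_b, bc1_b, bc1_b]
    · rw [RingHom.comp_apply, co1_x, map_add, map_mul, bc1_b, hp, map_zero, zero_mul, add_zero,
        bc1_x, bc1_x]
    · rw [RingHom.comp_apply, co1_y, map_mul, map_add, map_mul, bc1_b, hp, map_zero, zero_mul,
        add_zero, map_one, one_mul, bc1_y, bc1_y]
  exact congrArg (fun g => g v) this

theorem map_chg {B' : Type} [CommRing B'] (p : B →+* B') (hp : p e = 0) {f0 : Fin 7 → B'}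
    (h1 : ∀ i, f0 i = p (f' i)) (h2 : ∀ i, f0 i = p (f i)) :
    HX.map p h1 ≫ (chg he h).mor = HX.map p h2 := by
  refine HX.ext' ?_ ?_
  · rw [← Category.assoc, HX.in1_map, Category.assoc, RHom.in1_mor, ← Category.assoc,
      spMap_comp', HX.in1_map]
    have h3 : (bc1 p h1).comp (chg he h).h1 = bc1 p h2 :=
      RingHom.ext fun v => bc_co he h p hp h1 h2 v
    rw [h3]
  · rw [← Category.assoc, HX.in2_map, Category.assoc, RHom.in2_mor, ← Category.assoc,
      spMap_comp', HX.in2_map]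
    have h3 : (bc2 p h1).comp (chg he h).h2 = bc2 p h2 :=
      RingHom.ext fun v => bc_co he h.rev' p hp (rev_bc p h1) (rev_bc p h2) v
    rw [h3]

end

end

end HTR

theorem t_HTR : Stmt_HTR := by
  intro E _ e ξ0 ξ1 ξ2 c he f
  have h : HTR.IsD e ξ0 ξ1 ξ2 c f (fun i => f i + e * dir ξ0 ξ1 ξ2 c f i) := fun i => rfl
  have hiso : IsIso (HTR.chg he h).mor := HTR.chg_iso he h
  have h4 : spMap (RingHom.id E) = 𝟙 (Sp E) := Spec.map_id _
  have h5 : IsIso (spMap (RingHom.id E)) := by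
    rw [h4]
    infer_instance
  have hc : IsPullback (HTR.chg he h).mor (HX.pr E fun i => f i + e * dir ξ0 ξ1 ξ2 c f i)
      (HX.pr E f) (spMap (RingHom.id E)) := IsPullback.of_horiz_isIso ⟨(HTR.chg he h).mor_pr⟩
  refine ⟨{ f := (HTR.chg he h).mor, cart := hc, sec := fun i => i.elim0 }, hiso, ?_⟩
  · intro B _ p hp f0 h1 h2
    exact HTR.map_chg he h p hp h1 h2

end Pool.Agent.MG.H2


end

section

/-!
# TCY: smoothness from `Perp R ≤ Om R` (PAPER_TG.md, TCY)
-/

open TensorProduct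

namespace Pool.Agent.MG.G0

namespace TCY

variable {κ : Type} [Field κ]

/-- the monomial `τ^n` -/
theorem single_mul_coeff (n : ℤ) (f : LaurentSeries κ) (m : ℤ) :
    ((HahnSeries.single n (1 : κ) : LaurentSeries κ) * f).coeff m = f.coeff (m - n) := by
  have h : m = (m - n) + n := by ring
  rw [mul_comm]
  nth_rewrite 1 [h]
  rw [HahnSeries.coeff_mul_single_add, mul_one]

theorem single_pow (d : ℕ) : (HahnSeries.single (1 : ℤ) (1 : κ) : LaurentSeries κ) ^ d =
    HahnSeries.single (d : ℤ) 1 := by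
  rw [HahnSeries.single_pow]
  simp

theorem zz_mul_single (d : ℕ) : zz κ d * HahnSeries.single (d : ℤ) 1 = 1 := by
  rw [zz, HahnSeries.single_mul_single]
  simp

theorem psl_coeff (f : PowerSeries κ) (n : ℕ) : (psl κ f).coeff (n : ℤ) = PowerSeries.coeff n f := by
  rw [psl]
  exact HahnSeries.ofPowerSeries_apply_coeff f n

theorem psl_X : psl κ (PowerSeries.X : PowerSeries κ) = HahnSeries.single (1 : ℤ) 1 := by
  rw [psl]
  exact HahnSeries.ofPowerSeries_X

/-- a monic Laurent series is `τ^(-d)` times a power series with constant coefficient 1 -/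
theorem mon_form {d : ℕ} {z : LaurentSeries κ} (h0 : ∀ m < -(d : ℤ), z.coeff m = 0)
    (h1 : z.coeff (-(d : ℤ)) = 1) : ∃ v : PowerSeries κ, PowerSeries.constantCoeff v = 1 ∧
      z * HahnSeries.single (d : ℤ) 1 = psl κ v := by
  refine ⟨PowerSeries.mk fun k => z.coeff ((k : ℤ) - d), ?_, ?_⟩
  · rw [← PowerSeries.coeff_zero_eq_constantCoeff_apply, PowerSeries.coeff_mk]
    simpa using h1
  · ext m
    rw [mul_comm, single_mul_coeff]
    by_cases hm : 0 ≤ m
    · obtain ⟨n, rfl⟩ := Int.eq_ofNat_of_zero_le hm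
      rw [psl_coeff, PowerSeries.coeff_mk]
    · rw [h0 (m - d) (by omega), psl]
      have : (HahnSeries.ofPowerSeries ℤ κ (PowerSeries.mk fun k => z.coeff ((k : ℤ) - d))).coeff m
          = 0 := by
        rw [PowerSeries.coeff_coe]
        rw [if_pos (by omega)]
      rw [this]

/-- the coordinate -/
theorem exists_coord (hROO : Stmt_ROO) [CharZero κ] {d : ℕ} (hd : 1 ≤ d) {z : LaurentSeries κ}
    (h0 : ∀ m < -(d : ℤ), z.coeff m = 0) (h1 : z.coeff (-(d : ℤ)) = 1) :
    ∃ u : PowerSeries κ, PowerSeries.constantCoeff u = 0 ∧ PowerSeries.coeff 1 u = 1 ∧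
      z * psl κ u ^ d = 1 := by
  obtain ⟨v, hv1, hv2⟩ := mon_form h0 h1
  have hunit : IsUnit v := by
    rw [PowerSeries.isUnit_iff_constantCoeff, hv1]
    exact isUnit_one
  obtain ⟨w, hw⟩ := hunit.exists_right_inv
  have hw1 : PowerSeries.constantCoeff w = 1 := by
    have := congrArg PowerSeries.constantCoeff hw
    rw [map_mul, hv1, one_mul, map_one] at this
    exact this
  have hdu : IsUnit (d : κ) := by
    rw [isUnit_iff_ne_zero]
    exact Nat.cast_ne_zero.2 (by omega)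
  obtain ⟨⟨r, ⟨hr1, hr2⟩, _⟩, _⟩ := hROO d hdu w hw1
  refine ⟨PowerSeries.X * r, ?_, ?_, ?_⟩
  · rw [map_mul, PowerSeries.constantCoeff_X, zero_mul]
  · have : (1 : ℕ) = 0 + 1 := rfl
    rw [this, PowerSeries.coeff_succ_X_mul, PowerSeries.coeff_zero_eq_constantCoeff_apply, hr1]
  · rw [map_mul, mul_pow, psl_X, single_pow, ← map_pow, hr2, ← mul_assoc, hv2, ← map_mul, hw,
      map_one]

/-- the substitution maps `τ^(-d)` to `z` -/
theorem map_zz {d : ℕ} {z : LaurentSeries κ} {u : PowerSeries κ}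
    (hz : z * psl κ u ^ d = 1) (Φ : LaurentSeries κ →ₐ[κ] LaurentSeries κ)
    (hΦ : Φ (HahnSeries.single 1 1) = psl κ u) : Φ (zz κ d) = z := by
  have h1 : Φ (zz κ d) * psl κ u ^ d = 1 := by
    rw [← hΦ, ← map_pow, ← map_mul, single_pow, zz_mul_single, map_one]
  have h2 : Φ (zz κ d) = Φ (zz κ d) * (z * psl κ u ^ d) := by rw [hz, mul_one]
  rw [h2]
  calc Φ (zz κ d) * (z * psl κ u ^ d) = z * (Φ (zz κ d) * psl κ u ^ d) := by ring
    _ = z := by rw [h1, mul_one]

/-- the algebra and its transform -/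
noncomputable def eqv (Φ : LaurentSeries κ ≃ₐ[κ] LaurentSeries κ)
    (R : Subalgebra κ (KK Unit κ)) :
    uno ((duo R).comap (Φ : LaurentSeries κ →ₐ[κ] LaurentSeries κ)) ≃ₐ[κ] R where
  toFun f := ⟨fun _ => Φ ((f : KK Unit κ) ()), f.2⟩
  invFun g := ⟨fun _ => Φ.symm ((g : KK Unit κ) ()), by
    change (fun _ => Φ (Φ.symm ((g : KK Unit κ) ()))) ∈ R
    have : (fun _ : Unit => Φ (Φ.symm ((g : KK Unit κ) ()))) = (g : KK Unit κ) := by
      funext i
      rw [AlgEquiv.apply_symm_apply]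
    rw [this]
    exact g.2⟩
  left_inv f := Subtype.ext (funext fun i => by
    change Φ.symm (Φ ((f : KK Unit κ) ())) = _
    rw [AlgEquiv.symm_apply_apply])
  right_inv g := Subtype.ext (funext fun i => by
    change Φ (Φ.symm ((g : KK Unit κ) ())) = _
    rw [AlgEquiv.apply_symm_apply])
  map_mul' f g := Subtype.ext (funext fun _ =>
    map_mul Φ ((f : KK Unit κ) ()) ((g : KK Unit κ) ()))
  map_add' f g := Subtype.ext (funext fun _ =>
    map_add Φ ((f : KK Unit κ) ()) ((g : KK Unit κ) ()))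
  commutes' a := Subtype.ext (funext fun _ => Φ.commutes a)

end TCY

theorem t_TCY (hSMO : Stmt_SMO) (hROO : Stmt_ROO) (hSUB : Stmt_SUB) (hGTR : Stmt_GTR)
    (hSBC : Stmt_SBC) (hKNZ : Stmt_KNZ) : Stmt_TCY := by
  intro κ _ _ _ h R hR hPO
  obtain ⟨⟨N, hN⟩, hK⟩ := hKNZ hR
  obtain ⟨z, hz, hzM⟩ := (hK N hN).2.2 ((N + 1 : ℕ) : ℤ) (by push_cast; omega)
  set d := N + 1 with hd
  obtain ⟨u, hu0, hu1, hzu⟩ := TCY.exists_coord hROO (d := d) (by omega) (z := z ())
    (fun m hm => hzM.1 () m hm) (hzM.2 ())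
  have huu : IsUnit (PowerSeries.coeff 1 u) := by rw [hu1]; exact isUnit_one
  obtain ⟨Φ, hΦ⟩ := hSUB.1 u hu0 huu
  obtain ⟨_, _, _, _, hld, hres, _⟩ := hSUB.2.1 u hu0 huu _ hΦ
  have hzz : Φ (zz κ d) = z () := TCY.map_zz hzu (Φ : LaurentSeries κ →ₐ[κ] LaurentSeries κ) hΦ.tau
  set R' := (duo R).comap (Φ : LaurentSeries κ →ₐ[κ] LaurentSeries κ) with hR'
  have hmem : ∀ f, f ∈ R' ↔ (fun _ : Unit => Φ f) ∈ R := fun f => Iff.rfl
  have hKr : Kr h (duo R) := by
    unfold Kr
    rw [uno_duo]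
    exact hR
  have hKr' : Kr h R' := (hGTR u hu0 huu Φ hΦ (duo R) R' hR').1 h hKr
  have hzR' : zz κ d ∈ R' := by
    rw [hmem, hzz]
    exact hz
  -- the factor
  set U := ld (psl κ u) with hU
  have hU0 : U ≠ 0 := by
    intro h0
    have h1 : U.coeff 0 = 0 := by rw [h0, HahnSeries.coeff_zero]
    rw [hU, ld_coeff] at h1
    have h2 : (psl κ u).coeff (0 + 1) = 1 := by
      have := TCY.psl_coeff u 1
      rw [hu1] at this
      exact this
    rw [h2] at h1
    simp at h1
  have hsub : Perp (uno R') ≤ Om (uno R') := by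
    intro η' hη'
    have h1 : (fun _ : Unit => Φ (η' ()) * U) ∈ Perp R := by
      intro p hp
      rw [res_unit, Pi.mul_apply]
      have e : Φ (η' ()) * U * p () = Φ (η' () * Φ.symm (p ())) * U := by
        rw [map_mul, AlgEquiv.apply_symm_apply]
        ring
      rw [e]
      have h2 := hres (η' () * Φ.symm (p ()))
      have h3 : (η' () * Φ.symm (p ())).coeff (-1) = 0 := by
        have h4 := hη' (fun _ => Φ.symm (p ())) (by
          rw [mem_uno, hmem]
          have : (fun _ : Unit => Φ (Φ.symm (p ()))) = p := by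
            funext i
            rw [AlgEquiv.apply_symm_apply]
          rw [this]
          exact hp)
        rw [res_unit] at h4
        exact h4
      rw [h3] at h2
      exact h2
    have h2 := hPO h1
    have h3 : ∀ η ∈ Om R, ∃ ξ ∈ Om (uno R'), η () = Φ (ξ ()) * U := by
      intro η hη
      refine Submodule.span_induction (p := fun η _ => ∃ ξ ∈ Om (uno R'), η () = Φ (ξ ()) * U)
        ?_ ?_ ?_ ?_ hη
      · rintro _ ⟨p, hp, f, hf, rfl⟩
        have hp' : (fun _ : Unit => Φ.symm (p ())) ∈ uno R' := by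
          rw [mem_uno, hmem]
          have : (fun _ : Unit => Φ (Φ.symm (p ()))) = p := by
            funext i
            rw [AlgEquiv.apply_symm_apply]
          rw [this]
          exact hp
        have hf' : (fun _ : Unit => Φ.symm (f ())) ∈ uno R' := by
          rw [mem_uno, hmem]
          have : (fun _ : Unit => Φ (Φ.symm (f ()))) = f := by
            funext i
            rw [AlgEquiv.apply_symm_apply]
          rw [this]
          exact hf
        refine ⟨(fun _ : Unit => Φ.symm (p ())) * dd (fun _ : Unit => Φ.symm (f ())),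
          Submodule.subset_span ⟨_, hp', _, hf', rfl⟩, ?_⟩
        have h4 := hld (Φ.symm (f ()))
        change ld (Φ (Φ.symm (f ()))) = Φ (ld (Φ.symm (f ()))) * U at h4
        rw [AlgEquiv.apply_symm_apply] at h4
        change p () * ld (f ()) = Φ (Φ.symm (p ()) * ld (Φ.symm (f ()))) * U
        rw [map_mul, AlgEquiv.apply_symm_apply, h4]
        ring
      · exact ⟨0, zero_mem _, by simp⟩
      · rintro x y _ _ ⟨ξ, hξ, h5⟩ ⟨ζ, hζ, h6⟩
        refine ⟨ξ + ζ, add_mem hξ hζ, ?_⟩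
        rw [Pi.add_apply, h5, h6, Pi.add_apply, map_add]
        ring
      · rintro a x _ ⟨ξ, hξ, h5⟩
        refine ⟨a • ξ, Submodule.smul_mem _ a hξ, ?_⟩
        rw [Pi.smul_apply, h5, Pi.smul_apply, map_smul, smul_mul_assoc]
    obtain ⟨ξ, hξ, h5⟩ := h3 _ h2
    have h6 : η' = ξ := by
      funext i
      have h7 : Φ (η' ()) = Φ (ξ ()) := mul_right_cancel₀ hU0 h5
      exact Φ.injective h7
    rw [h6]
    exact hξ
  obtain ⟨hfs, hsm⟩ := hSMO (by omega) hKr' hzR' hsub
  refine ⟨?_, hSBC.2.1 (TCY.eqv Φ R) hsm⟩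
  exact Algebra.FormallySmooth.of_equiv (TCY.eqv Φ R)

end Pool.Agent.MG.G0


end

section

/-!
# A generic combination of squares is nondegenerate (module ZQL)
-/

open Polynomial

namespace Pool.Agent.MG.G0

namespace ZQL

variable {K : Type} [Field K] {g b : ℕ}

/-- The rows `v l` contain a basis. -/
theorem exists_sel (v : Fin b → Fin g → K)
    (h : ∀ x : Fin g → K, (∀ l, ∑ i, v l i * x i = 0) → x = 0) :
    ∃ σ : Fin g → Fin b, LinearIndependent K fun i => v (σ i) := by
  have hspan : Submodule.span K (Set.range v) = ⊤ := by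
    by_contra hne
    obtain ⟨f, hf, hf2⟩ := Submodule.exists_le_ker_of_lt_top _ (lt_top_iff_ne_top.2 hne)
    apply hf
    have h1 : (fun i => f (Pi.single i 1)) = 0 := by
      apply h
      intro l
      have h2 : f (v l) = 0 := hf2 (Submodule.subset_span ⟨l, rfl⟩)
      rw [← h2]
      have h3 : v l = ∑ i, v l i • (Pi.single i 1 : Fin g → K) := by
        funext j
        rw [Finset.sum_apply]
        simp [Pi.single_apply]
      conv_rhs => rw [h3]
      rw [map_sum]
      refine Finset.sum_congr rfl fun i _ => ?_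
      rw [map_smul, smul_eq_mul]
    refine LinearMap.pi_ext' fun i => ?_
    apply LinearMap.ext_ring
    exact congrFun h1 i
  obtain ⟨f, hf1, hf2, hf3⟩ := Submodule.exists_fun_fin_finrank_span_eq K (Set.range v)
  have hg : Module.finrank K (Submodule.span K (Set.range v)) = g := by
    rw [hspan, finrank_top, Module.finrank_fin_fun]
  choose τ hτ using hf1
  refine ⟨fun i => τ (Fin.cast hg.symm i), ?_⟩
  have h4 : (fun i => v (τ (Fin.cast hg.symm i))) = f ∘ Fin.cast hg.symm := by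
    funext i
    exact hτ _
  rw [h4]
  exact hf3.comp _ (Fin.cast_injective _)

end ZQL

open _root_.Pool.Agent.MG.G0.ZQL in
theorem t_ZQL : Stmt_ZQL := by
  intro K E _ _ _ g b v c α hc hv hα hdet
  classical
  let A : Matrix (Fin g) (Fin g) (MvPolynomial (Fin b) K) :=
    ∑ l, (MvPolynomial.X l * MvPolynomial.C (c l)) •
      Matrix.vecMulVec (fun i => MvPolynomial.C (v l i)) (fun i => MvPolynomial.C (v l i))
  have hAij : ∀ i j, A i j = ∑ l, (MvPolynomial.X l * MvPolynomial.C (c l)) *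
      (MvPolynomial.C (v l i) * MvPolynomial.C (v l j)) := by
    intro i j
    change (∑ l, (MvPolynomial.X l * MvPolynomial.C (c l)) •
      Matrix.vecMulVec (fun i => MvPolynomial.C (v l i)) (fun i => MvPolynomial.C (v l i)) :
      Matrix (Fin g) (Fin g) (MvPolynomial (Fin b) K)) i j = _
    rw [Matrix.sum_apply]
    rfl
  have hα' : Function.Injective (MvPolynomial.aeval α : MvPolynomial (Fin b) K →ₐ[K] E) := hα
  have hA : A.det = 0 := by
    apply hα'
    rw [map_zero, ← hdet, AlgHom.map_det]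
    congr 1
    ext i j
    rw [AlgHom.mapMatrix_apply, Matrix.map_apply, hAij, map_sum, Matrix.sum_apply]
    refine Finset.sum_congr rfl fun l _ => ?_
    rw [map_mul, map_mul, map_mul, MvPolynomial.aeval_X, MvPolynomial.aeval_C,
      MvPolynomial.aeval_C, MvPolynomial.aeval_C]
    rfl
  obtain ⟨σ, hσ⟩ := exists_sel v hv
  have hinj : Function.Injective σ := fun i j hij => by
    by_contra hne
    exact hne (hσ.injective (by
      rw [hij]))
  let x : Fin b → K := fun l => if l ∈ Finset.univ.image σ then 1 else 0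
  have h1 : ((MvPolynomial.aeval x : MvPolynomial (Fin b) K →ₐ[K] K).mapMatrix A).det = 0 := by
    rw [← AlgHom.map_det, hA, map_zero]
  let W : Matrix (Fin g) (Fin g) K := Matrix.of fun i => v (σ i)
  have h2 : (MvPolynomial.aeval x : MvPolynomial (Fin b) K →ₐ[K] K).mapMatrix A =
      W.transpose * Matrix.diagonal (fun i => c (σ i)) * W := by
    ext i j
    rw [AlgHom.mapMatrix_apply, Matrix.map_apply, hAij, map_sum, Matrix.mul_apply]
    simp only [map_mul,
      MvPolynomial.aeval_X, MvPolynomial.aeval_C, Matrix.mul_diagonal, Matrix.transpose_apply]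
    have h3 : ∀ l, x l * (algebraMap K K) (c l) * ((algebraMap K K) (v l i) *
        (algebraMap K K) (v l j)) = if l ∈ Finset.univ.image σ then
          c l * (v l i * v l j) else 0 := by
      intro l
      change (if l ∈ Finset.univ.image σ then (1 : K) else 0) * c l * (v l i * v l j) = _
      split_ifs
      · rw [one_mul]
      · rw [zero_mul, zero_mul]
    rw [Finset.sum_congr rfl fun l _ => h3 l, ← Finset.sum_filter]
    have h4 : Finset.univ.filter (fun l => l ∈ Finset.univ.image σ) = Finset.univ.image σ := by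
      ext l
      simp
    rw [h4, Finset.sum_image fun a _ b _ h => hinj h]
    refine Finset.sum_congr rfl fun m _ => ?_
    change c (σ m) * (v (σ m) i * v (σ m) j) = v (σ m) i * c (σ m) * v (σ m) j
    ring
  rw [h2, Matrix.det_mul, Matrix.det_mul, Matrix.det_transpose, Matrix.det_diagonal] at h1
  have h5 : W.det ≠ 0 := by
    have h6 : IsUnit W := Matrix.linearIndependent_rows_iff_isUnit.1 hσ
    exact (Matrix.isUnit_iff_isUnit_det W).1 h6 |>.ne_zero
  have h7 : ∏ i, c (σ i) ≠ 0 := Finset.prod_ne_zero_iff.2 fun i _ => hc _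
  exact mul_ne_zero (mul_ne_zero h5 h7) h5 h1

end Pool.Agent.MG.G0


end
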