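import Mathlib
import Pool.Agent.KDM.C11
import Pool.Agent.KDM.C12
import Pool.Agent.KDM.C13
import Pool.Agent.KDM.C14
import Pool.Agent.KDM.C20
import Pool.Agent.KDM.C21
import Pool.Agent.KDM.C22

/-! Parts: MG.H2.YNB, MG.G0.KRK, MG.G0.NPG, MG.G0.TRA, MG.G0.ZRF -/

section

/-!
# YNB: a basis of the ring `N`
-/

open Polynomial

namespace Pool.Agent.MG.H2

namespace YNB

section span

variable {B : Type} [CommRing B] (p : Fin 7 → B) (t : B)

/-- The elements of the normal form. -/
noncomputable def el (c d e f : B[X]) : NN B p t :=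
  aeval (xN B p t) c + zN B p t * aeval (zN B p t) d + aeval (xN B p t) e * aN B p t +
    aeval (zN B p t) f * bN B p t

/-- The span. -/
noncomputable def SS : Submodule B (NN B p t) where
  carrier := {v | ∃ c d e f : B[X], v = el p t c d e f}
  add_mem' := by
    rintro _ _ ⟨c, d, e, f, rfl⟩ ⟨c', d', e', f', rfl⟩
    refine ⟨c + c', d + d', e + e', f + f', ?_⟩
    unfold el
    rw [map_add, map_add, map_add, map_add]
    ring
  zero_mem' := ⟨0, 0, 0, 0, by
    unfold el
    rw [map_zero, map_zero]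
    ring⟩
  smul_mem' := by
    rintro a _ ⟨c, d, e, f, rfl⟩
    refine ⟨a • c, a • d, a • e, a • f, ?_⟩
    unfold el
    rw [map_smul, map_smul, map_smul, map_smul, smul_add, smul_add, smul_add, mul_smul_comm,
      smul_mul_assoc, smul_mul_assoc]

theorem el_mem (c d e f : B[X]) : el p t c d e f ∈ SS p t := ⟨c, d, e, f, rfl⟩

theorem one_mem : (1 : NN B p t) ∈ SS p t := ⟨1, 0, 0, 0, by
  unfold el
  rw [map_one, map_zero, map_zero]
  ring⟩

theorem split {R : Type} [CommRing R] [Algebra B R] (x : R) (c : B[X]) :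
    aeval x c = algebraMap B R (c.coeff 0) + x * aeval x c.divX := by
  conv_lhs => rw [← X_mul_divX_add c]
  rw [map_add, map_mul, aeval_X, aeval_C]
  ring

theorem x_mul {v : NN B p t} (hv : v ∈ SS p t) : xN B p t * v ∈ SS p t := by
  obtain ⟨c, d, e, f, rfl⟩ := hv
  have h1 := (relN B p t).zx
  have h2 := (relN B p t).xb
  have h3 : xN B p t * el p t c d e f = el p t (X * c + C (t ^ 2 * d.coeff 0)) (C (t ^ 2) * d.divX)
      (X * e + C (t * f.coeff 0)) 0 +
        algebraMap B (NN B p t) (t ^ 2) * (aeval (zN B p t) f.divX * bN B p t) := by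
    unfold el
    rw [split (zN B p t) d, split (zN B p t) f]
    simp only [map_add, map_mul, aeval_X, aeval_C, map_zero, zero_mul, add_zero, map_pow]
    linear_combination (algebraMap B (NN B p t) (d.coeff 0) +
      zN B p t * aeval (zN B p t) d.divX) * h1 + algebraMap B (NN B p t) (f.coeff 0) * h2 +
      aeval (zN B p t) f.divX * bN B p t * h1
  rw [h3]
  refine add_mem (el_mem _ _ _ _ _ _) ?_
  rw [← Algebra.smul_def]
  refine Submodule.smul_mem _ _ ⟨0, 0, 0, f.divX, ?_⟩
  unfold el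
  rw [map_zero, map_zero]
  ring

theorem z_mul {v : NN B p t} (hv : v ∈ SS p t) : zN B p t * v ∈ SS p t := by
  obtain ⟨c, d, e, f, rfl⟩ := hv
  have h1 := (relN B p t).zx
  have h2 := (relN B p t).za
  have h3 : zN B p t * el p t c d e f = el p t (C (t ^ 2) * c.divX) (C (c.coeff 0) + X * d)
      (C (t ^ 2) * e.divX) (X * f + C (t * e.coeff 0)) := by
    unfold el
    rw [split (xN B p t) c, split (xN B p t) e]
    simp only [map_add, map_mul, aeval_X, aeval_C, map_pow]
    linear_combination (aeval (xN B p t) c.divX + aeval (xN B p t) e.divX * aN B p t) * h1 +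
      algebraMap B (NN B p t) (e.coeff 0) * h2
  rw [h3]
  exact el_mem _ _ _ _ _ _

/-- The elements which preserve the span. -/
noncomputable def MM : Subalgebra B (NN B p t) where
  carrier := {u | ∀ s ∈ SS p t, u * s ∈ SS p t}
  mul_mem' := fun {a b} ha hb s hs => by
    rw [mul_assoc]
    exact ha _ (hb s hs)
  add_mem' := fun {a b} ha hb s hs => by
    rw [add_mul]
    exact add_mem (ha s hs) (hb s hs)
  algebraMap_mem' := fun a s hs => by
    rw [← Algebra.smul_def]
    exact Submodule.smul_mem _ _ hs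

theorem x_mem : xN B p t ∈ MM p t := fun _ hs => x_mul p t hs

theorem z_mem : zN B p t ∈ MM p t := fun _ hs => z_mul p t hs

theorem ax_mem (c : B[X]) : aeval (xN B p t) c ∈ MM p t :=
  Algebra.adjoin_le (Set.singleton_subset_iff.2 (x_mem p t)) (aeval_mem_adjoin_singleton B _)

theorem az_mem (c : B[X]) : aeval (zN B p t) c ∈ MM p t :=
  Algebra.adjoin_le (Set.singleton_subset_iff.2 (z_mem p t)) (aeval_mem_adjoin_singleton B _)

theorem K_mem : KK (fun i => algebraMap B (NN B p t) (p i)) (zN B p t) (xN B p t) ∈ MM p t := by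
  have hx := x_mem p t
  have hz := z_mem p t
  have hc : ∀ c, algebraMap B (NN B p t) c ∈ MM p t := fun c => (MM p t).algebraMap_mem c
  unfold KK
  exact add_mem (add_mem (add_mem (add_mem (add_mem (add_mem (hc _) (mul_mem (hc _) hx))
    (mul_mem (hc _) (pow_mem hx _))) (mul_mem (hc _) (pow_mem hx _))) (mul_mem (hc _) hz))
    (mul_mem (hc _) (pow_mem hz _))) (mul_mem (hc _) (pow_mem hz _))

theorem mem_SS {u : NN B p t} (hu : u ∈ MM p t) : u ∈ SS p t := by
  have := hu 1 (one_mem p t)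
  rwa [mul_one] at this

theorem a_mem : aN B p t ∈ MM p t := by
  intro s hs
  obtain ⟨c, d, e, f, rfl⟩ := hs
  have h1 := (relN B p t).aa
  have h2 := (relN B p t).ab
  have h3 := (relN B p t).za
  have h4 : aN B p t * el p t c d e f = el p t 0 0 c (C t * d) +
      aeval (xN B p t) e * (xN B p t *
        KK (fun i => algebraMap B (NN B p t) (p i)) (zN B p t) (xN B p t)) +
      aeval (zN B p t) f * (algebraMap B (NN B p t) t *
        KK (fun i => algebraMap B (NN B p t) (p i)) (zN B p t) (xN B p t)) := by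
    unfold el
    simp only [map_zero, mul_zero, zero_add, map_mul, aeval_C]
    linear_combination aeval (zN B p t) d * h3 + aeval (xN B p t) e * h1 +
      aeval (zN B p t) f * h2
  rw [h4]
  exact add_mem (add_mem (el_mem _ _ _ _ _ _) (mem_SS p t (mul_mem (ax_mem p t _)
    (mul_mem (x_mem p t) (K_mem p t))))) (mem_SS p t (mul_mem (az_mem p t _)
    (mul_mem ((MM p t).algebraMap_mem t) (K_mem p t))))

theorem b_mem : bN B p t ∈ MM p t := by
  intro s hs
  obtain ⟨c, d, e, f, rfl⟩ := hs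
  have h1 := (relN B p t).bb
  have h2 := (relN B p t).ab
  have h3 := (relN B p t).xb
  have h4 : bN B p t * el p t c d e f = el p t 0 0 (C t * c.divX)
      (C (c.coeff 0) + X * d) +
      aeval (zN B p t) f * (zN B p t *
        KK (fun i => algebraMap B (NN B p t) (p i)) (zN B p t) (xN B p t)) +
      aeval (xN B p t) e * (algebraMap B (NN B p t) t *
        KK (fun i => algebraMap B (NN B p t) (p i)) (zN B p t) (xN B p t)) := by
    unfold el
    rw [split (xN B p t) c]
    simp only [map_zero, mul_zero, zero_add, map_mul, map_add, aeval_C, aeval_X]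
    linear_combination aeval (xN B p t) c.divX * h3 + aeval (xN B p t) e * h2 +
      aeval (zN B p t) f * h1
  rw [h4]
  exact add_mem (add_mem (el_mem _ _ _ _ _ _) (mem_SS p t (mul_mem (az_mem p t _)
    (mul_mem (z_mem p t) (K_mem p t))))) (mem_SS p t (mul_mem (ax_mem p t _)
    (mul_mem ((MM p t).algebraMap_mem t) (K_mem p t))))

theorem all_mem (v : NN B p t) : v ∈ MM p t := by
  obtain ⟨q, rfl⟩ := Ideal.Quotient.mk_surjective v
  induction q using MvPolynomial.induction_on with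
  | C c => exact (MM p t).algebraMap_mem c
  | add v w hv hw =>
    rw [map_add]
    exact add_mem hv hw
  | mul_X v i hv =>
    rw [map_mul]
    refine mul_mem hv ?_
    fin_cases i
    · exact z_mem p t
    · exact x_mem p t
    · exact a_mem p t
    · exact b_mem p t

end span

section inj

variable {B : Type} [CommRing B] {f : Fin 7 → B}

theorem cc_xi (p : B[X]) (j : ℤ) : cf j (aeval (xi f) p) = 0 ∧
    cg j (aeval (xi f) p) = (if j ≤ 0 then p.coeff (-j).toNat else 0) ∧
    cf j (aeval (xi f) p * yv B f) = (if j ≤ 0 then p.coeff (-j).toNat else 0) ∧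
    cg j (aeval (xi f) p * yv B f) = 0 := by
  induction p using Polynomial.induction_on' with
  | add p q hp hq =>
    obtain ⟨h1, h2, h3, h4⟩ := hp
    obtain ⟨k1, k2, k3, k4⟩ := hq
    rw [map_add, add_mul, map_add, map_add, map_add, map_add, h1, h2, h3, h4, k1, k2, k3, k4,
      coeff_add]
    refine ⟨by ring, ?_, ?_, by ring⟩
    · split_ifs <;> ring
    · split_ifs <;> ring
  | monomial n a =>
    have e : aeval (xi f) (monomial n a) =
        algebraMap B (A12 B f) a * ((xu B f) ^ (-(n : ℤ)) : (A12 B f)ˣ).val := by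
      rw [aeval_monomial, zpow_neg, zpow_natCast, ← inv_pow, Units.val_pow_eq_pow_val]
    rw [e, cf_mono, cg_mono, cf_mono_y, cg_mono_y, coeff_monomial]
    have h1 : (if -(n : ℤ) = j then a else 0) =
        if j ≤ 0 then (if n = (-j).toNat then a else 0) else 0 := by
      by_cases h : -(n : ℤ) = j
      · rw [if_pos h, if_pos (by omega), if_pos (by omega)]
      · rw [if_neg h]
        split_ifs
        · omega
        · rfl
        · rfl
    exact ⟨rfl, h1, h1, rfl⟩

theorem aeval_tx (s : B) (p : B[X]) : aeval (algebraMap B (A12 B f) s * xx f) p =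
    aeval (xx f) (p.comp (C s * X)) := by
  rw [aeval_comp, map_mul, aeval_C, aeval_X]

theorem cf_tx (s : B) (p : B[X]) (j : ℤ) : cf j (aeval (algebraMap B (A12 B f) s * xx f) p) = 0 := by
  rw [aeval_tx, cf_aeval]

theorem cg_tx (s : B) (p : B[X]) (j : ℤ) (hj : j < 0) :
    cg j (aeval (algebraMap B (A12 B f) s * xx f) p) = 0 := by
  rw [aeval_tx, cg_aeval, if_neg (by omega)]

theorem cf_tx_mul (s : B) (p : B[X]) (j : ℤ) :
    cf j (algebraMap B (A12 B f) s * xx f * aeval (algebraMap B (A12 B f) s * xx f) p) = 0 := by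
  rw [mul_assoc, cf_b, cf_x, cf_tx, mul_zero]

theorem cg_tx_mul (s : B) (p : B[X]) (j : ℤ) (hj : j ≤ 0) :
    cg j (algebraMap B (A12 B f) s * xx f * aeval (algebraMap B (A12 B f) s * xx f) p) = 0 := by
  rw [mul_assoc, cg_b, cg_x, cg_tx _ _ _ (by omega), mul_zero]

theorem cf_tx_y (s t : B) (p : B[X]) (j : ℤ) (hj : j ≤ -2) :
    cf j (aeval (algebraMap B (A12 B f) s * xx f) p * (algebraMap B (A12 B f) t *
      (yv B f * xi f))) = 0 := by
  have e : aeval (algebraMap B (A12 B f) s * xx f) p * (algebraMap B (A12 B f) t *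
      (yv B f * xi f)) = algebraMap B (A12 B f) t * (xi f *
        (aeval (xx f) (p.comp (C s * X)) * yv B f)) := by
    rw [aeval_tx]
    ring
  rw [e, cf_b, cf_xi, cf_aeval_y, if_neg (by omega), mul_zero]

theorem cg_tx_y (s t : B) (p : B[X]) (j : ℤ) :
    cg j (aeval (algebraMap B (A12 B f) s * xx f) p * (algebraMap B (A12 B f) t *
      (yv B f * xi f))) = 0 := by
  have e : aeval (algebraMap B (A12 B f) s * xx f) p * (algebraMap B (A12 B f) t *
      (yv B f * xi f)) = algebraMap B (A12 B f) t * (xi f *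
        (aeval (xx f) (p.comp (C s * X)) * yv B f)) := by
    rw [aeval_tx]
    ring
  rw [e, cg_b, cg_xi, cg_aeval_y, mul_zero]

theorem cf_xi_y (p : B[X]) (j : ℤ) : cf j (aeval (xi f) p * (yv B f * xi f ^ 2)) =
    if j + 2 ≤ 0 then p.coeff (-(j + 2)).toNat else 0 := by
  have e : aeval (xi f) p * (yv B f * xi f ^ 2) = xi f ^ 2 * (aeval (xi f) p * yv B f) := by ring
  rw [e, cf_xipow]
  exact (cc_xi p _).2.2.1

theorem cg_xi_y (p : B[X]) (j : ℤ) : cg j (aeval (xi f) p * (yv B f * xi f ^ 2)) = 0 := by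
  have e : aeval (xi f) p * (yv B f * xi f ^ 2) = xi f ^ 2 * (aeval (xi f) p * yv B f) := by ring
  rw [e, cg_xipow]
  exact (cc_xi p _).2.2.2

/-- The computation for the first chart. -/
theorem first {s t : B} {c d e g : B[X]} (h : aeval (xi f) c +
    algebraMap B (A12 B f) s * xx f * aeval (algebraMap B (A12 B f) s * xx f) d +
    aeval (xi f) e * (yv B f * xi f ^ 2) +
    aeval (algebraMap B (A12 B f) s * xx f) g * (algebraMap B (A12 B f) t *
      (yv B f * xi f)) = 0) : c = 0 ∧ e = 0 := by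
  constructor
  · ext n
    have h1 := congrArg (cg (-(n : ℤ))) h
    rw [map_add, map_add, map_add, map_zero, (cc_xi c _).2.1, cg_tx_mul _ _ _ (by omega),
      cg_xi_y, cg_tx_y, if_pos (by omega), add_zero, add_zero, add_zero, neg_neg,
      Int.toNat_natCast] at h1
    rw [h1, coeff_zero]
  · ext n
    have h1 := congrArg (cf (-(n : ℤ) - 2)) h
    rw [map_add, map_add, map_add, map_zero, (cc_xi c _).1, cf_tx_mul,
      cf_xi_y, cf_tx_y _ _ _ _ (by omega), if_pos (by omega), add_zero, zero_add, zero_add,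
      sub_add_cancel, neg_neg, Int.toNat_natCast] at h1
    rw [h1, coeff_zero]

/-- The computation for the second chart. -/
theorem second {s t : B} {c d e g : B[X]} (h : aeval (algebraMap B (A12 B f) s * xx f) c +
    xi f * aeval (xi f) d + aeval (algebraMap B (A12 B f) s * xx f) e *
      (algebraMap B (A12 B f) t * (yv B f * xi f)) +
    aeval (xi f) g * (yv B f * xi f ^ 2) = 0) : d = 0 ∧ g = 0 := by
  constructor
  · ext n
    have h1 := congrArg (cg (-(n : ℤ) - 1)) h
    rw [map_add, map_add, map_add, map_zero, cg_tx _ _ _ (by omega), cg_xi, (cc_xi d _).2.1,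
      cg_tx_y, cg_xi_y, if_pos (by omega), add_zero, add_zero, zero_add, sub_add_cancel, neg_neg,
      Int.toNat_natCast] at h1
    rw [h1, coeff_zero]
  · ext n
    have h1 := congrArg (cf (-(n : ℤ) - 2)) h
    rw [map_add, map_add, map_add, map_zero, cf_tx, cf_xi, (cc_xi d _).1,
      cf_tx_y _ _ _ _ (by omega), cf_xi_y, if_pos (by omega), zero_add, zero_add, zero_add,
      sub_add_cancel, neg_neg, Int.toNat_natCast] at h1
    rw [h1, coeff_zero]

theorem hom_aeval {R S : Type} [CommRing R] [CommRing S] [Algebra B R] [Algebra B S]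
    (φ : R →+* S) (h : ∀ c, φ (algebraMap B R c) = algebraMap B S c) (x : R) (p : B[X]) :
    φ (aeval x p) = aeval (φ x) p := by
  let ψ : R →ₐ[B] S := { φ with commutes' := h }
  exact (aeval_algHom_apply ψ x p).symm

end inj

end YNB

theorem t_YNB : Stmt_YNB := by
  intro B _ p t
  refine ⟨fun v => YNB.mem_SS p t (YNB.all_mem p t v), fun c d e f hT hQ => ?_⟩
  have h1 : c = 0 ∧ e = 0 := by
    rw [map_add, map_add, map_add, map_mul, map_mul, map_mul,
      YNB.hom_aeval (nT B p t) (nT_c B p t), YNB.hom_aeval (nT B p t) (nT_c B p t),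
      YNB.hom_aeval (nT B p t) (nT_c B p t), YNB.hom_aeval (nT B p t) (nT_c B p t),
      nT_z, nT_x, nT_a, nT_b, ← map_pow] at hT
    exact YNB.first hT
  have h2 : d = 0 ∧ f = 0 := by
    rw [map_add, map_add, map_add, map_mul, map_mul, map_mul,
      YNB.hom_aeval (nQ B p t) (nQ_c B p t), YNB.hom_aeval (nQ B p t) (nQ_c B p t),
      YNB.hom_aeval (nQ B p t) (nQ_c B p t), YNB.hom_aeval (nQ B p t) (nQ_c B p t),
      nQ_z, nQ_x, nQ_a, nQ_b, ← map_pow] at hQ
    exact YNB.second hQ
  exact ⟨h1.1, h2.1, h1.2, h2.2⟩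

end Pool.Agent.MG.H2


end

section

/-!
# KRK: corank two at a double root of the discriminant
-/

open Polynomial

namespace Pool.Agent.MG.G0

namespace KRK

open ZL

/-! ## Linear algebra -/

/-- The adjugate of a matrix of corank two is zero. -/
theorem adj_zero {κ : Type} [Field κ] {d : ℕ} (hd : 2 ≤ d) (M : Matrix (Fin d) (Fin d) κ)
    (hr : M.rank = d - 2) : M.adjugate = 0 := by
  ext i j
  rw [Matrix.adjugate_apply, Matrix.zero_apply]
  by_contra hne
  have h1 := Matrix.linearIndependent_rows_of_det_ne_zero hne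
  let v : {k : Fin d // k ≠ j} → (Fin d → κ) := fun k => M k.1
  have h2 : LinearIndependent κ v := by
    have h3 := h1.comp (fun k : {k : Fin d // k ≠ j} => k.1) Subtype.val_injective
    have h4 : ((fun i' => (M.updateRow j (Pi.single i 1)) i') ∘
        fun k : {k : Fin d // k ≠ j} => k.1) = v := by
      funext k
      exact Matrix.updateRow_ne k.2
    rwa [h4] at h3
  have h5 := finrank_span_eq_card h2
  have h6 : Submodule.span κ (Set.range v) ≤ Submodule.span κ (Set.range M.row) := by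
    apply Submodule.span_mono
    rintro _ ⟨k, rfl⟩
    exact ⟨k.1, rfl⟩
  have h7 := Submodule.finrank_mono h6
  rw [← Matrix.rank_eq_finrank_span_row, hr, h5] at h7
  have h8 : Fintype.card {k : Fin d // k ≠ j} = d - 1 := by
    rw [Fintype.card_subtype_compl, Fintype.card_fin, Fintype.card_subtype_eq]
  omega

/-- The matrix `H` with `H G = u (X - c) h`. -/
theorem exists_H {κ : Type} [Field κ] {d : ℕ} (hd : 2 ≤ d)
    (G : Matrix (Fin d) (Fin d) κ[X]) (c : κ) (hr : (G.map (Polynomial.eval c)).rank = d - 2)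
    {w h : κ[X]} (hdet : G.det = w * ((X - C c) ^ 2 * h)) :
    ∃ H : Matrix (Fin d) (Fin d) κ[X], H * G = (w * ((X - C c) * h)) • (1 : Matrix _ _ _) := by
  have h1 : ∀ i j, (X - C c) ∣ G.adjugate i j := by
    intro i j
    rw [dvd_iff_isRoot]
    have h2 := RingHom.map_adjugate (evalRingHom c) G
    have h3 : (evalRingHom c).mapMatrix G = G.map (Polynomial.eval c) := rfl
    rw [h3, adj_zero hd _ hr] at h2
    exact congrFun (congrFun h2 i) j
  choose H hH using h1
  refine ⟨Matrix.of H, ?_⟩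
  have h4 : G.adjugate = (X - C c) • Matrix.of H := by
    ext1 i j
    rw [Matrix.smul_apply, Matrix.of_apply, smul_eq_mul, hH]
  have h5 := Matrix.adjugate_mul G
  rw [h4, hdet, Matrix.smul_mul] at h5
  ext1 i j
  have h6 := congrFun (congrFun h5 i) j
  rw [Matrix.smul_apply, Matrix.smul_apply, smul_eq_mul, smul_eq_mul] at h6
  rw [Matrix.smul_apply, smul_eq_mul]
  apply mul_left_cancel₀ (X_sub_C_ne_zero c)
  rw [h6]
  ring

/-! ## Laurent series -/

section

variable {A : Type} [CommRing A]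

theorem zpol_inj {d : ℕ} (hd : d ≠ 0) {p q : A[X]} (h : zpol A d p = zpol A d q) : p = q :=
  ev_injective d hd h

/-- A series without coefficients at `τ^d, τ^(2d), ...` has a polynomial part `pr0`. -/
theorem pr0_poly {d : ℕ} (hd : 0 < d) (F : LaurentSeries A)
    (hF : ∀ k : ℕ, F.coeff ((d : ℤ) * (k + 1)) = 0) : ∃ q : A[X], pr0 A d F = zpol A d q := by
  obtain ⟨n, hn⟩ := exists_low F
  let q : A[X] := ∑ k ∈ Finset.range (n + 1), monomial k (F.coeff (-((d * k : ℕ) : ℤ)))
  have hq : ∀ k, q.coeff k = F.coeff (-((d * k : ℕ) : ℤ)) := by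
    intro k
    change (∑ k ∈ Finset.range (n + 1), monomial k (F.coeff (-((d * k : ℕ) : ℤ)))).coeff k = _
    rw [finsetSum_coeff]
    simp only [coeff_monomial]
    rw [Finset.sum_ite_eq']
    split_ifs with h
    · rfl
    · rw [Finset.mem_range, not_lt] at h
      symm
      apply hn
      have h1 : k ≤ d * k := Nat.le_mul_of_pos_left _ hd
      omega
  refine ⟨q, ?_⟩
  ext m
  rw [pr0_coeff]
  by_cases hk : ∃ k : ℕ, m = -((d * k : ℕ) : ℤ)
  · obtain ⟨k, rfl⟩ := hk
    have h1 : (zpol A d q).coeff (-((d * k : ℕ) : ℤ)) = q.coeff k := ev_coeff d hd.ne' q k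
    rw [h1, hq, if_pos]
    rw [dvd_neg]
    push_cast
    exact dvd_mul_right _ _
  · push Not at hk
    have h1 : (zpol A d q).coeff m = 0 := ev_coeff_ne d q m hk
    rw [h1]
    split_ifs with h
    · obtain ⟨l, rfl⟩ := h
      by_cases hl : 0 < l
      · obtain ⟨k, rfl⟩ : ∃ k : ℕ, l = k + 1 := ⟨(l - 1).toNat, by omega⟩
        exact hF k
      · exfalso
        apply hk (-l).toNat
        push_cast
        rw [Int.toNat_of_nonneg (by omega)]
        ring
    · rfl

end

section

variable {κ : Type} [Field κ] {g d : ℕ} {R : Subalgebra κ (LaurentSeries κ)}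

theorem zpol_mem (hz : zz κ d ∈ R) (p : κ[X]) : zpol κ d p ∈ R := by
  rw [zpol, aeval_eq_sum_range]
  exact Subalgebra.sum_mem _ fun i _ => R.smul_mem (pow_mem hz i) _

/-- The form `pr₀(x y)` is nondegenerate. -/
theorem nondeg (hd : 0 < d) (hR : Kr g R) {e : Fin d → LaurentSeries κ} (hb : ZBas d R e)
    {w : LaurentSeries κ} (hw : ∀ k, pr0 κ d (w * e k) = 0) : w = 0 := by
  have h1 : ∀ r ∈ R, pr0 κ d (w * r) = 0 := by
    intro r hr
    obtain ⟨c, hc, -⟩ := hb.uni r hr
    rw [hc, Finset.mul_sum, map_sum]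
    refine Finset.sum_eq_zero fun i _ => ?_
    rw [mul_left_comm, pr0_zpol_mul, hw, mul_zero]
  by_contra hne
  obtain ⟨N, hN⟩ := kr_monic hR
  have hdz : (0 : ℤ) < d := by exact_mod_cast hd
  have hm0 : 0 ≤ w.order % (d : ℤ) := Int.emod_nonneg _ hdz.ne'
  obtain ⟨p, hp, hp1, hp2⟩ := hN ((w.order % (d : ℤ)).toNat + d * (N + 1)) (by
    have : N + 1 ≤ d * (N + 1) := Nat.le_mul_of_pos_left _ hd
    omega)
  have hk : (((w.order % (d : ℤ)).toNat + d * (N + 1) : ℕ) : ℤ) =
      w.order % (d : ℤ) + d * (N + 1) := by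
    push_cast
    rw [Int.toNat_of_nonneg hm0]
  rw [hk] at hp1 hp2
  have h2 := mul_lead (f := w) (g := p) (a := w.order)
    (b := -(w.order % (d : ℤ) + d * (N + 1))) (fun m hm =>
      HahnSeries.coeff_eq_zero_of_lt_order hm) (fun m hm => hp1 m hm)
  rw [hp2, mul_one] at h2
  have h3 := congrArg (fun F => F.coeff (w.order + -(w.order % (d : ℤ) + d * (N + 1)))) (h1 p hp)
  rw [pr0_coeff, HahnSeries.coeff_zero, if_pos, h2] at h3
  · exact HahnSeries.coeff_order_eq_zero.not.2 hne h3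
  · refine ⟨w.order / (d : ℤ) - (N + 1), ?_⟩
    have h4 := Int.emod_add_mul_ediv w.order (d : ℤ)
    linear_combination -h4

/-- Change of the basis. -/
theorem det_change (hd : 0 < d) {e e' : Fin d → LaurentSeries κ}
    {G G' : Matrix (Fin d) (Fin d) κ[X]} (hb : ZBas d R e) (hG : ZGram d e G)
    (hb' : ZBas d R e') (hG' : ZGram d e' G') :
    ∃ u : κ[X], IsUnit u ∧ G'.det = u * G.det := by
  classical
  choose U hU hU' using fun i => hb.uni (e' i) (hb'.mem i)
  choose V hV hV' using fun i => hb'.uni (e i) (hb.mem i)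
  let MU : Matrix (Fin d) (Fin d) κ[X] := Matrix.of U
  let MV : Matrix (Fin d) (Fin d) κ[X] := Matrix.of V
  have h1 : MV * MU = 1 := by
    have h2 : ∀ j, (fun l => (MV * MU) j l) = fun l => (1 : Matrix (Fin d) (Fin d) κ[X]) j l := by
      intro j
      apply (hb.uni (e j) (hb.mem j)).unique
      · calc e j = ∑ k, zpol κ d (V j k) * e' k := hV j
          _ = ∑ k, ∑ l, zpol κ d (V j k * U k l) * e l := by
              refine Finset.sum_congr rfl fun k _ => ?_
              nth_rewrite 1 [hU k]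
              rw [Finset.mul_sum]
              refine Finset.sum_congr rfl fun l _ => ?_
              rw [map_mul, mul_assoc]
          _ = ∑ l, zpol κ d ((MV * MU) j l) * e l := by
              rw [Finset.sum_comm]
              refine Finset.sum_congr rfl fun l _ => ?_
              rw [Matrix.mul_apply, map_sum, Finset.sum_mul]
              rfl
      · have h3 : ∀ l, zpol κ d ((1 : Matrix (Fin d) (Fin d) κ[X]) j l) * e l =
            if j = l then e l else 0 := by
          intro l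
          rw [Matrix.one_apply]
          split_ifs
          · rw [map_one, one_mul]
          · rw [map_zero, zero_mul]
        simp only [h3]
        rw [Finset.sum_ite_eq, if_pos (Finset.mem_univ _)]
    ext1 i j
    exact congrFun (h2 i) j
  have h4 : G' = MU * G * MU.transpose := by
    ext1 i j
    apply zpol_inj hd.ne'
    rw [hG' i j]
    calc pr0 κ d (e' i * e' j)
        = pr0 κ d (∑ l, zpol κ d (U j l) * ∑ k, zpol κ d (U i k) * (e k * e l)) := by
          congr 1
          nth_rewrite 1 [hU i]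
          nth_rewrite 1 [hU j]
          rw [Finset.mul_sum]
          refine Finset.sum_congr rfl fun l _ => ?_
          rw [Finset.sum_mul, Finset.mul_sum]
          refine Finset.sum_congr rfl fun k _ => ?_
          ring
      _ = ∑ l, zpol κ d (U j l) * ∑ k, zpol κ d (U i k) * zpol κ d (G k l) := by
          rw [map_sum]
          refine Finset.sum_congr rfl fun l _ => ?_
          rw [pr0_zpol_mul, map_sum]
          congr 1
          refine Finset.sum_congr rfl fun k _ => ?_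
          rw [pr0_zpol_mul, hG k l]
      _ = zpol κ d ((MU * G * MU.transpose) i j) := by
          rw [Matrix.mul_apply, map_sum]
          refine Finset.sum_congr rfl fun l _ => ?_
          rw [Matrix.mul_apply, map_mul, map_sum, mul_comm]
          congr 1
          refine Finset.sum_congr rfl fun k _ => ?_
          rw [map_mul]
          rfl
  refine ⟨MU.det * MU.det, ?_, ?_⟩
  · have h5 : IsUnit MU.det := by
      have h6 := congrArg Matrix.det h1
      rw [Matrix.det_mul, Matrix.det_one] at h6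
      exact IsUnit.of_mul_eq_one_right _ h6
    exact h5.mul h5
  · rw [h4, Matrix.det_mul, Matrix.det_mul, Matrix.det_transpose]
    ring

end

end KRK

open _root_.Pool.Agent.MG.G0.KRK ZL in
theorem t_KRK : Stmt_KRK := by
  intro κ _ g d R f h c hd hdκ hR hz hDisc hf hGRk x hx
  have hd0 : 0 < d := by omega
  obtain ⟨e0, G0, hb0, hG0, u0, hu0, hdet0⟩ := hDisc
  obtain ⟨e, G, hb, hG, hrk⟩ := hGRk
  obtain ⟨u1, hu1, hdet1⟩ := det_change hd0 hb0 hG0 hb hG
  have hdet : G.det = (u1 * u0) * ((X - C c) ^ 2 * h) := by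
    rw [hdet1, hdet0, hf, mul_assoc]
  obtain ⟨H, hH⟩ := exists_H hd G c hrk hdet
  obtain ⟨v, hv⟩ := (hu1.mul hu0).exists_left_inv
  -- division by `dz`
  let x' : LaurentSeries κ := (-(d : κ))⁻¹ • (HahnSeries.single ((d : ℤ) + 1) 1 * x)
  have hdn : (-(d : κ)) ≠ 0 := neg_ne_zero.2 hdκ
  have hxx : x = x' * ld (zz κ d) := by
    ext m
    have h1 : ld (zz κ d) = (-(d : κ)) • HahnSeries.single (-(d : ℤ) - 1) 1 := by
      ext k
      rw [ld_coeff, zz, HahnSeries.coeff_smul, HahnSeries.coeff_single, HahnSeries.coeff_single,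
        smul_eq_mul]
      by_cases hk : k + 1 = -(d : ℤ)
      · rw [if_pos hk, if_pos (by omega), hk]
        push_cast
        ring
      · rw [if_neg hk, if_neg (by omega), mul_zero, mul_zero]
    rw [h1]
    change x.coeff m = (((-(d : κ))⁻¹ • (HahnSeries.single ((d : ℤ) + 1) 1 * x)) *
      ((-(d : κ)) • HahnSeries.single (-(d : ℤ) - 1) 1)).coeff m
    rw [smul_mul_smul_comm, inv_mul_cancel₀ hdn, one_smul, mul_comm, ← mul_assoc,
      HahnSeries.single_mul_single]
    have h2 : (-(d : ℤ) - 1) + ((d : ℤ) + 1) = 0 := by ring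
    rw [h2, HahnSeries.coeff_single_mul, sub_zero, one_mul, one_mul]
  have hq : ∀ k, ∃ q : κ[X], pr0 κ d (x' * e k) = zpol κ d q := by
    intro k
    refine pr0_poly hd0 _ fun n => ?_
    have h1 := hx (zz κ d ^ n * e k) (mul_mem (pow_mem hz n) (hb.mem k))
    change ((-(d : κ))⁻¹ • (HahnSeries.single ((d : ℤ) + 1) 1 * x) * e k).coeff
      ((d : ℤ) * (n + 1)) = 0
    rw [smul_mul_assoc, HahnSeries.coeff_smul, mul_assoc, HahnSeries.coeff_single_mul, one_mul]
    have h2 : (x * (zz κ d ^ n * e k)).coeff (-1) = (x * e k).coeff ((d : ℤ) * n - 1) := by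
      rw [mul_left_comm, zz_pow, HahnSeries.coeff_single_mul, one_mul]
      congr 1
      push_cast
      ring
    rw [h2] at h1
    have h3 : (d : ℤ) * (n + 1) - ((d : ℤ) + 1) = (d : ℤ) * n - 1 := by ring
    rw [h3, h1, smul_zero]
  choose q hq using hq
  let b : Fin d → κ[X] := fun i => v * ∑ j, q j * H j i
  have hbG : ∀ k, ∑ i, b i * G i k = ((X - C c) * h) * q k := by
    intro k
    have h1 : ∀ j, ∑ i, H j i * G i k =
        if j = k then (u1 * u0) * ((X - C c) * h) else 0 := by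
      intro j
      have h2 := congrFun (congrFun hH j) k
      rw [Matrix.mul_apply, Matrix.smul_apply, Matrix.one_apply, smul_eq_mul, mul_ite, mul_one,
        mul_zero] at h2
      exact h2
    calc ∑ i, b i * G i k = v * ∑ j, q j * ∑ i, H j i * G i k := by
          rw [Finset.mul_sum]
          simp only [Finset.mul_sum]
          rw [Finset.sum_comm]
          refine Finset.sum_congr rfl fun i _ => ?_
          change (v * ∑ j, q j * H j i) * G i k = _
          rw [Finset.mul_sum, Finset.sum_mul]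
          refine Finset.sum_congr rfl fun j _ => ?_
          ring
      _ = v * (q k * ((u1 * u0) * ((X - C c) * h))) := by
          simp only [h1, mul_ite, mul_zero]
          rw [Finset.sum_ite_eq', if_pos (Finset.mem_univ _)]
      _ = ((X - C c) * h) * q k := by
          linear_combination (q k * ((X - C c) * h)) * hv
  let y : LaurentSeries κ := ∑ i, zpol κ d (b i) * e i
  have hyR : y ∈ R := Subalgebra.sum_mem _ fun i _ => mul_mem (zpol_mem hz _) (hb.mem i)
  have hy : y = zpol κ d ((X - C c) * h) * x' := by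
    apply sub_eq_zero.1
    apply nondeg hd0 hR hb
    intro k
    rw [sub_mul, map_sub, mul_assoc, pr0_zpol_mul, hq k, sub_eq_zero, ← map_mul, ← hbG k,
      map_sum]
    change pr0 κ d ((∑ i, zpol κ d (b i) * e i) * e k) = _
    rw [Finset.sum_mul, map_sum]
    refine Finset.sum_congr rfl fun i _ => ?_
    rw [mul_assoc, pr0_zpol_mul, map_mul (zpol κ d) (b i) (G i k), hG i k]
  refine ⟨y, hyR, ?_⟩
  rw [hy]
  nth_rewrite 1 [hxx]
  rw [mul_assoc]

end Pool.Agent.MG.G0


end

section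

/-!
# NPG: the normalization of a node (PAPER_NP.md)
-/

open Polynomial

namespace Pool.Agent.MG.G0

namespace NPG

open KRK

/-! ## Linear algebra -/

/-- The kernel of a matrix of corank one. -/
theorem exists_ker {κ : Type} [Field κ] {d : ℕ} (hd : 2 ≤ d) (M : Matrix (Fin d) (Fin d) κ)
    (hr : M.rank = d - 1) : ∃ (v : Fin d → κ) (i₀ : Fin d), v i₀ = 1 ∧ M.mulVec v = 0 ∧
      ∀ w, M.mulVec w = 0 → ∃ a : κ, w = a • v := by
  have h1 := LinearMap.finrank_range_add_finrank_ker M.mulVecLin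
  rw [Module.finrank_fin_fun] at h1
  have h2 : Module.finrank κ (LinearMap.range M.mulVecLin) = d - 1 := hr
  have h3 : Module.finrank κ (LinearMap.ker M.mulVecLin) = 1 := by omega
  obtain ⟨⟨v, hv⟩, hv0, hv1⟩ := finrank_eq_one_iff'.1 h3
  have hv2 : v ≠ 0 := fun h => hv0 (Subtype.ext h)
  obtain ⟨i₀, hi⟩ : ∃ i, v i ≠ 0 := Function.ne_iff.1 hv2
  have hv3 : M.mulVec v = 0 := hv
  refine ⟨(v i₀)⁻¹ • v, i₀, ?_, ?_, ?_⟩
  · rw [Pi.smul_apply, smul_eq_mul, inv_mul_cancel₀ hi]
  · rw [Matrix.mulVec_smul, hv3, smul_zero]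
  · intro w hw
    obtain ⟨a, ha⟩ := hv1 ⟨w, hw⟩
    refine ⟨a * v i₀, ?_⟩
    rw [smul_smul, mul_assoc, mul_inv_cancel₀ hi, mul_one]
    exact (congrArg Subtype.val ha).symm

/-- Division of the Gram matrix. -/
theorem exists_div {κ : Type} [Field κ] {d : ℕ} (hd : 2 ≤ d)
    (G : Matrix (Fin d) (Fin d) κ[X]) (hsym : ∀ i j, G i j = G j i) (c : κ)
    (hr : (G.map (Polynomial.eval c)).rank = d - 1)
    {w h : κ[X]} (hdet : G.det = w * ((X - C c) ^ 2 * h)) :
    ∃ (v : Fin d → κ) (i₀ : Fin d) (r : Fin d → κ[X]) (ρ : κ[X]) (G' : Matrix (Fin d) (Fin d) κ[X]),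
      v i₀ = 1 ∧ (∀ a : Fin d → κ, (∀ k, ∑ j, a j * (G j k).eval c = 0) →
        ∃ b : κ, ∀ j, a j = b * v j) ∧
      (∀ k, ∑ j, C (v j) * G j k = (X - C c) * r k) ∧ (∑ k, r k * C (v k) = (X - C c) * ρ) ∧
      (∀ i j, G' i j = if i = i₀ then (if j = i₀ then ρ else r j) else
        (if j = i₀ then r i else G i j)) ∧ G'.det = w * h := by
  classical
  obtain ⟨v, i₀, hv1, hv2, hv3⟩ := exists_ker hd _ hr
  have h1 : ∀ k, (X - C c) ∣ ∑ j, C (v j) * G j k := by
    intro k
    rw [dvd_iff_isRoot, IsRoot.def, eval_finsetSum]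
    have h2 := congrFun hv2 k
    rw [Matrix.mulVec, dotProduct] at h2
    rw [← Pi.zero_apply (M := fun _ => κ) k, ← h2]
    refine Finset.sum_congr rfl fun j _ => ?_
    rw [eval_mul, eval_C, hsym j k, Matrix.map_apply, mul_comm]
  choose r hr' using h1
  have hX : (X - C c : κ[X]) ≠ 0 := X_sub_C_ne_zero c
  let G₁ := G.updateRow i₀ r
  have hG1 : ∀ j, j ≠ i₀ → ∀ k, G₁ j k = G j k := fun j hj k =>
    congrFun (Matrix.updateRow_ne hj) k
  have hG2 : ∀ k, G₁ i₀ k = r k := fun k => congrFun Matrix.updateRow_self k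
  have h3 : G₁.det = w * ((X - C c) * h) := by
    apply mul_left_cancel₀ hX
    rw [← Matrix.det_updateRow_smul]
    have h4 : (X - C c) • r = ∑ k, C (v k) • G k := by
      funext k
      rw [Pi.smul_apply, smul_eq_mul, ← hr' k, Finset.sum_apply]
      rfl
    rw [h4, Matrix.det_updateRow_sum, hv1, C_1, one_smul, hdet]
    ring
  -- the value at `c` of `∑ r v`
  have h5 : (X - C c) ∣ ∑ k, r k * C (v k) := by
    rw [dvd_iff_isRoot, IsRoot.def, eval_finsetSum]
    have h6 : ((evalRingHom c).mapMatrix G₁).det = 0 := by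
      rw [← RingHom.map_det, h3, map_mul, map_mul]
      simp
    obtain ⟨u, hu0, hu⟩ := Matrix.exists_mulVec_eq_zero_iff.2 h6
    have h7 : ∀ j, j ≠ i₀ → ∑ k, (G j k).eval c * u k = 0 := by
      intro j hj
      have h8 := congrFun hu j
      rw [Matrix.mulVec, dotProduct] at h8
      rw [← Pi.zero_apply (M := fun _ => κ) j, ← h8]
      refine Finset.sum_congr rfl fun k _ => ?_
      rw [RingHom.mapMatrix_apply, Matrix.map_apply, hG1 j hj]
      rfl
    have h9 : ∑ k, (r k).eval c * u k = 0 := by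
      have h8 := congrFun hu i₀
      rw [Matrix.mulVec, dotProduct] at h8
      rw [← Pi.zero_apply (M := fun _ => κ) i₀, ← h8]
      refine Finset.sum_congr rfl fun k _ => ?_
      rw [RingHom.mapMatrix_apply, Matrix.map_apply, hG2]
      rfl
    have h10 : (G.map (Polynomial.eval c)).mulVec u = 0 := by
      funext j
      by_cases hj : j = i₀
      · -- `∑_j v_j G_jk(c) = 0`
        have h11 : ∑ j, v j * (∑ k, (G j k).eval c * u k) = 0 := by
          have h12 : ∀ k, ∑ j, v j * (G j k).eval c = 0 := by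
            intro k
            have h13 := congrArg (Polynomial.eval c) (hr' k)
            rw [eval_finsetSum, eval_mul, eval_sub, eval_X, eval_C, sub_self, zero_mul] at h13
            rw [← h13]
            refine Finset.sum_congr rfl fun j _ => ?_
            rw [eval_mul, eval_C]
          simp only [Finset.mul_sum]
          rw [Finset.sum_comm]
          refine Finset.sum_eq_zero fun k _ => ?_
          have h14 : ∀ j, v j * ((G j k).eval c * u k) = (v j * (G j k).eval c) * u k :=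
            fun j => by ring
          simp only [h14]
          rw [← Finset.sum_mul, h12, zero_mul]
        rw [Finset.sum_eq_single i₀, hv1, one_mul] at h11
        · rw [hj, Matrix.mulVec, dotProduct]
          exact h11
        · intro j _ hj'
          rw [h7 j hj', mul_zero]
        · intro h
          exact absurd (Finset.mem_univ _) h
      · rw [Matrix.mulVec, dotProduct]
        exact h7 j hj
    obtain ⟨a, ha⟩ := hv3 u h10
    have ha0 : a ≠ 0 := by
      rintro rfl
      rw [zero_smul] at ha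
      exact hu0 ha
    apply mul_left_cancel₀ ha0
    rw [mul_zero, ← h9, Finset.mul_sum]
    refine Finset.sum_congr rfl fun k _ => ?_
    rw [ha, eval_mul, eval_C, Pi.smul_apply, smul_eq_mul]
    ring
  obtain ⟨ρ, hρ⟩ := h5
  refine ⟨v, i₀, r, ρ, G₁.updateCol i₀ (fun i => if i = i₀ then ρ else r i), hv1, ?_, hr', hρ,
    ?_, ?_⟩
  · intro a ha
    obtain ⟨b, hb⟩ := hv3 a (by
      funext k
      rw [Matrix.mulVec, dotProduct, Pi.zero_apply, ← ha k]
      refine Finset.sum_congr rfl fun j _ => ?_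
      rw [Matrix.map_apply, hsym k j, mul_comm])
    exact ⟨b, fun j => congrFun hb j⟩
  · intro i j
    rw [Matrix.updateCol_apply]
    by_cases hj : j = i₀
    · rw [if_pos hj, if_pos hj, if_pos hj]
    · rw [if_neg hj, if_neg hj, if_neg hj]
      by_cases hi : i = i₀
      · rw [if_pos hi, hi]
        exact hG2 j
      · rw [if_neg hi]
        exact hG1 i hi j
  · apply mul_left_cancel₀ hX
    rw [← Matrix.det_updateCol_smul]
    have h4 : (X - C c) • (fun i => if i = i₀ then ρ else r i) =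
        fun i => ∑ k, C (v k) • G₁ i k := by
      funext i
      rw [Pi.smul_apply, smul_eq_mul]
      by_cases hi : i = i₀
      · rw [if_pos hi, ← hρ, hi]
        refine Finset.sum_congr rfl fun k _ => ?_
        rw [smul_eq_mul, mul_comm]
        congr 1
        exact (hG2 k).symm
      · rw [if_neg hi, ← hr']
        refine Finset.sum_congr rfl fun k _ => ?_
        rw [smul_eq_mul, hsym k i]
        congr 1
        exact (hG1 i hi k).symm
    rw [h4, Matrix.det_updateCol_sum, hv1, C_1, one_smul, h3]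
    ring

/-- Quadratic polynomials split. -/
theorem exists_roots {κ : Type} [Field κ] [IsAlgClosed κ] (h2 : (2 : κ) ≠ 0) (a b : κ) :
    ∃ r s : κ, r + s = a ∧ r * s = -b := by
  obtain ⟨z, hz⟩ := IsAlgClosed.exists_eq_mul_self (a ^ 2 + 4 * b)
  refine ⟨(a + z) / 2, (a - z) / 2, ?_, ?_⟩
  · field_simp
    ring
  · field_simp
    linear_combination hz

/-! ## The trace -/

section

variable {κ : Type} [Field κ] {g d : ℕ}

theorem zpol_ne_zero (hd : 0 < d) {p : κ[X]} (hp : p ≠ 0) : zpol κ d p ≠ 0 := by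
  intro h
  apply hp
  apply zpol_inj hd.ne'
  rw [h, map_zero]

theorem zpol_C_mul (a : κ) (x : LaurentSeries κ) : zpol κ d (C a) * x = a • x := by
  rw [zpol, aeval_C, Algebra.smul_def]

theorem zpol_X_sub (c : κ) : zpol κ d (X - C c) = zz κ d - algebraMap κ (LaurentSeries κ) c := by
  rw [map_sub, zpol, aeval_X, aeval_C]

/-- An element which acts as a scalar modulo `z - c` up to a multiple of itself. -/
theorem trace_eval (hZDU : Stmt_ZDU) (hd : 0 < d) (hdκ : ((d : ℕ) : κ) ≠ 0)
    {R : Subalgebra κ (LaurentSeries κ)} (hR : Kr g R) (hz : zz κ d ∈ R)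
    {e : Fin d → LaurentSeries κ} {G : Matrix (Fin d) (Fin d) κ[X]} (hb : ZBas d R e)
    (hG : ZGram d e G) (c : κ) {b : LaurentSeries κ} {a f : Fin d → κ}
    (hba : b = ∑ j, a j • e j) {q : κ[X]} (hq : pr0 κ d b = zpol κ d q)
    (h : ∀ i, ∃ r ∈ R, b * e i = f i • b + zpol κ d (X - C c) * r) :
    ∑ i, f i * a i = d * q.eval c := by
  obtain ⟨es, h1, h2, h3, -⟩ := ((hZDU hd hdκ R hR hz).2 e G hb hG).2
  choose r hr hr' using h
  choose n hn hn' using fun i => hb.uni (r i) (hr i)
  have h4 : ∀ i, b * e i = ∑ j, zpol κ d (C (f i * a j) + (X - C c) * n i j) * e j := by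
    intro i
    have h5 : ∀ j, zpol κ d (C (f i * a j) + (X - C c) * n i j) * e j =
        f i • (a j • e j) + zpol κ d (X - C c) * (zpol κ d (n i j) * e j) := by
      intro j
      rw [map_add, add_mul, zpol_C_mul, map_mul, mul_assoc, smul_smul]
    simp only [h5]
    rw [Finset.sum_add_distrib, ← Finset.smul_sum, ← Finset.mul_sum, ← hba, hr' i]
    congr 2
    exact hn i
  have h5 : zpol κ d (∑ i, (C (f i * a i) + (X - C c) * n i i)) =
      (d : LaurentSeries κ) * pr0 κ d b := by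
    rw [← h3 b, map_sum]
    refine Finset.sum_congr rfl fun i _ => ?_
    rw [h4 i, Finset.sum_mul, map_sum]
    have h6 : ∀ j, pr0 κ d (zpol κ d (C (f i * a j) + (X - C c) * n i j) * e j * es i) =
        if j = i then zpol κ d (C (f i * a j) + (X - C c) * n i j) else 0 := by
      intro j
      rw [mul_assoc, pr0_zpol_mul, h1, mul_ite, mul_one, mul_zero]
    simp only [h6]
    rw [Finset.sum_ite_eq', if_pos (Finset.mem_univ _)]
  have h6 : ∑ i, (C (f i * a i) + (X - C c) * n i i) = C (d : κ) * q := by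
    apply zpol_inj hd.ne'
    rw [h5, map_mul, hq]
    congr 1
    rw [zpol, aeval_C, map_natCast]
  have h7 := congrArg (Polynomial.eval c) h6
  rw [eval_finsetSum, eval_mul, eval_C] at h7
  rw [← h7]
  refine Finset.sum_congr rfl fun i _ => ?_
  rw [eval_add, eval_C, eval_mul, eval_sub, eval_X, eval_C, sub_self, zero_mul, add_zero]

end

/-! ## The element `y` -/

/-- The data at the node. -/
structure Node {κ : Type} [Field κ] (d : ℕ) (P : Subalgebra κ (LaurentSeries κ))
    (e : Fin d → LaurentSeries κ) (G : Matrix (Fin d) (Fin d) κ[X]) (c : κ) (v : Fin d → κ)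
    (i₀ : Fin d) (r : Fin d → κ[X]) (ρ : κ[X]) (y : LaurentSeries κ) : Prop where
  hd : 0 < d
  hz : zz κ d ∈ P
  hb : ZBas d P e
  hG : ZGram d e G
  hv : v i₀ = 1
  ker : ∀ a : Fin d → κ, (∀ k, ∑ j, a j * (G j k).eval c = 0) → ∃ b : κ, ∀ j, a j = b * v j
  hr : ∀ k, ∑ j, C (v j) * G j k = (X - C c) * r k
  hρ : ∑ k, r k * C (v k) = (X - C c) * ρ
  hy : zpol κ d (X - C c) * y = ∑ j, v j • e j

namespace Node

variable {κ : Type} [Field κ] {d : ℕ} {P : Subalgebra κ (LaurentSeries κ)}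
  {e : Fin d → LaurentSeries κ} {G : Matrix (Fin d) (Fin d) κ[X]} {c : κ} {v : Fin d → κ}
  {i₀ : Fin d} {r : Fin d → κ[X]} {ρ : κ[X]} {y : LaurentSeries κ}
  (N : Node d P e G c v i₀ r ρ y)

include N

theorem s_ne : zpol κ d (X - C c : κ[X]) ≠ 0 := zpol_ne_zero N.hd (X_sub_C_ne_zero c)

theorem s_mem (q : κ[X]) : zpol κ d q ∈ P := zpol_mem N.hz q

theorem sy_mem : zpol κ d (X - C c) * y ∈ P := by
  rw [N.hy]
  exact Subalgebra.sum_mem _ fun j _ => P.smul_mem (N.hb.mem j) _

theorem pr_y_e (k : Fin d) : pr0 κ d (y * e k) = zpol κ d (r k) := by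
  apply mul_left_cancel₀ N.s_ne
  rw [← pr0_zpol_mul, ← mul_assoc, N.hy, ← map_mul, ← N.hr k, Finset.sum_mul, map_sum, map_sum]
  refine Finset.sum_congr rfl fun j _ => ?_
  rw [smul_mul_assoc, map_smul, ← N.hG j k, map_mul, zpol_C_mul]

/-- `pr0 (x p)` is a polynomial for `p` in `P` if it is one for the basis. -/
theorem pr_poly {x : LaurentSeries κ} (hx : ∀ k, ∃ q : κ[X], pr0 κ d (x * e k) = zpol κ d q)
    {p : LaurentSeries κ} (hp : p ∈ P) : ∃ q : κ[X], pr0 κ d (x * p) = zpol κ d q := by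
  choose q hq using hx
  obtain ⟨a, ha, -⟩ := N.hb.uni p hp
  refine ⟨∑ k, a k * q k, ?_⟩
  rw [ha, Finset.mul_sum, map_sum, map_sum]
  refine Finset.sum_congr rfl fun k _ => ?_
  rw [mul_left_comm, pr0_zpol_mul, hq, map_mul]

theorem pr_y {p : LaurentSeries κ} (hp : p ∈ P) :
    ∃ q : κ[X], pr0 κ d (y * p) = zpol κ d q :=
  N.pr_poly (fun k => ⟨r k, N.pr_y_e k⟩) hp

theorem pr_yy : pr0 κ d (y * y) = zpol κ d ρ := by
  apply mul_left_cancel₀ N.s_ne
  rw [← pr0_zpol_mul, ← mul_assoc, N.hy, ← map_mul, ← N.hρ, Finset.sum_mul, map_sum, map_sum]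
  refine Finset.sum_congr rfl fun j _ => ?_
  rw [smul_mul_assoc, map_smul, mul_comm (e j), N.pr_y_e, mul_comm (r j), map_mul, zpol_C_mul]

theorem mem_span {x : LaurentSeries κ} (hx : zpol κ d (X - C c) * x ∈ P)
    (h : ∀ k, ∃ q : κ[X], pr0 κ d (x * e k) = zpol κ d q) :
    ∃ p ∈ P, ∃ a : κ, x = p + a • y := by
  choose q hq using h
  obtain ⟨a, ha, -⟩ := N.hb.uni _ hx
  have h1 : ∀ k, ∑ j, a j * G j k = (X - C c) * q k := by
    intro k
    apply zpol_inj N.hd.ne'
    rw [map_mul, ← hq k, ← pr0_zpol_mul, ← mul_assoc, ha, Finset.sum_mul, map_sum, map_sum]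
    refine Finset.sum_congr rfl fun j _ => ?_
    rw [mul_assoc, pr0_zpol_mul, map_mul, N.hG j k]
  obtain ⟨b, hb⟩ := N.ker (fun j => (a j).eval c) (by
    intro k
    have h2 := congrArg (Polynomial.eval c) (h1 k)
    rw [eval_finsetSum, eval_mul, eval_sub, eval_X, eval_C, sub_self, zero_mul] at h2
    rw [← h2]
    refine Finset.sum_congr rfl fun j _ => ?_
    rw [eval_mul])
  have h3 : ∀ j, (X - C c) ∣ a j - C (b * v j) := by
    intro j
    rw [dvd_iff_isRoot, IsRoot.def, eval_sub, eval_C, ← hb j, sub_self]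
  choose n hn using h3
  refine ⟨∑ j, zpol κ d (n j) * e j, Subalgebra.sum_mem _ fun j _ =>
    mul_mem (N.s_mem _) (N.hb.mem j), b, ?_⟩
  apply mul_left_cancel₀ N.s_ne
  rw [mul_add, mul_smul_comm, N.hy, ha, Finset.mul_sum, Finset.smul_sum, ← Finset.sum_add_distrib]
  refine Finset.sum_congr rfl fun j _ => ?_
  rw [← mul_assoc, ← map_mul, ← hn j, map_sub, sub_mul, zpol_C_mul, smul_smul, sub_add_cancel]

theorem exists_y {p : LaurentSeries κ} (hp : p ∈ P) : ∃ p' ∈ P, ∃ a : κ, y * p = p' + a • y := by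
  apply N.mem_span
  · rw [← mul_assoc]
    exact mul_mem N.sy_mem hp
  · intro k
    rw [mul_assoc]
    exact N.pr_y (mul_mem hp (N.hb.mem k))

theorem not_mem : y ∉ P := by
  intro h
  obtain ⟨a, ha, -⟩ := N.hb.uni y h
  have h1 := N.hy
  rw [ha, Finset.mul_sum] at h1
  have h2 : (fun j => (X - C c) * a j) = fun j => C (v j) := by
    apply (N.hb.uni _ N.sy_mem).unique
    · rw [ha, Finset.mul_sum]
      refine Finset.sum_congr rfl fun j _ => ?_
      rw [← mul_assoc, map_mul]
    · rw [N.hy]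
      refine Finset.sum_congr rfl fun j _ => ?_
      rw [zpol_C_mul]
  have h3 := congrArg (Polynomial.eval c) (congrFun h2 i₀)
  simp only [eval_mul, eval_sub, eval_X, eval_C, sub_self, zero_mul, N.hv] at h3
  exact zero_ne_one h3

theorem pr_yyp {p : LaurentSeries κ} (hp : p ∈ P) :
    ∃ q : κ[X], pr0 κ d (y * y * p) = zpol κ d q := by
  obtain ⟨p', hp', a, ha⟩ := N.exists_y hp
  obtain ⟨q, hq⟩ := N.pr_y hp'
  refine ⟨q + C a * ρ, ?_⟩
  rw [mul_assoc, ha, mul_add, map_add, hq, mul_smul_comm, map_smul, N.pr_yy, map_add, map_mul,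
    zpol_C_mul]

theorem exists_mu : ∃ μ : LaurentSeries κ →ₗ[κ] κ, (∀ p ∈ P, μ p = 0) ∧ μ y = 1 := by
  obtain ⟨f, hf, hf'⟩ := Submodule.exists_le_ker_of_notMem (p := Subalgebra.toSubmodule P)
    N.not_mem
  refine ⟨(f y)⁻¹ • f, fun p hp => ?_, ?_⟩
  · have h1 : f p = 0 := hf' hp
    rw [LinearMap.smul_apply, h1, smul_zero]
  · rw [LinearMap.smul_apply, smul_eq_mul, inv_mul_cancel₀ hf]

theorem mu_mul {μ : LaurentSeries κ →ₗ[κ] κ} (hμ : ∀ p ∈ P, μ p = 0) (hμy : μ y = 1)
    {p : LaurentSeries κ} (hp : p ∈ P) : ∃ p' ∈ P, y * p = p' + μ (y * p) • y := by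
  obtain ⟨p', hp', a, ha⟩ := N.exists_y hp
  have h1 : μ (y * p) = a := by
    rw [ha, map_add, map_smul, hμ _ hp', hμy, smul_eq_mul, mul_one, zero_add]
  exact ⟨p', hp', by rw [h1, ha]⟩

theorem mu_xy (hZDU : Stmt_ZDU) (hdκ : ((d : ℕ) : κ) ≠ 0) {g : ℕ} (hP : Kr g P)
    {μ : LaurentSeries κ →ₗ[κ] κ} (hμ : ∀ p ∈ P, μ p = 0) (hμy : μ y = 1) :
    μ (y * (zpol κ d (X - C c) * y)) = 0 := by
  obtain ⟨q, hq⟩ := N.pr_y (one_mem P)
  have h1 := trace_eval hZDU N.hd hdκ hP N.hz N.hb N.hG c (b := zpol κ d (X - C c) * y)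
    (a := v) (f := fun i => μ (y * e i)) N.hy (q := (X - C c) * q) (by
      rw [pr0_zpol_mul, map_mul, ← hq, mul_one]) (by
      intro i
      obtain ⟨p', hp', h⟩ := N.mu_mul hμ hμy (N.hb.mem i)
      refine ⟨p', hp', ?_⟩
      rw [mul_assoc, h, mul_add, mul_smul_comm, add_comm, map_add, map_smul, hμ _ hp', hμy,
        zero_add, smul_eq_mul, mul_one])
  rw [eval_mul, eval_sub, eval_X, eval_C, sub_self, zero_mul, mul_zero] at h1
  rw [N.hy, Finset.mul_sum, map_sum, ← h1]
  refine Finset.sum_congr rfl fun i _ => ?_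
  rw [mul_smul_comm, map_smul, smul_eq_mul, mul_comm]

theorem y_y (hZDU : Stmt_ZDU) (hdκ : ((d : ℕ) : κ) ≠ 0) {g : ℕ} (hP : Kr g P) :
    ∃ p ∈ P, ∃ a : κ, y * y = p + a • y := by
  obtain ⟨μ, hμ, hμy⟩ := N.exists_mu
  apply N.mem_span
  · obtain ⟨p', hp', h⟩ := N.mu_mul hμ hμy N.sy_mem
    rw [N.mu_xy hZDU hdκ hP hμ hμy, zero_smul, add_zero] at h
    rw [← mul_assoc, mul_comm, h]
    exact hp'
  · intro k
    exact N.pr_yyp (N.hb.mem k)

/-- The ring `P + κ y`. -/
theorem exists_R (hyy : ∃ p ∈ P, ∃ a : κ, y * y = p + a • y) :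
    ∃ R : Subalgebra κ (LaurentSeries κ), ∀ x, x ∈ R ↔ ∃ p ∈ P, ∃ a : κ, x = p + a • y := by
  refine ⟨{ carrier := {x | ∃ p ∈ P, ∃ a : κ, x = p + a • y}
            mul_mem' := ?_
            add_mem' := ?_
            algebraMap_mem' := ?_ }, fun x => Iff.rfl⟩
  · rintro _ _ ⟨p, hp, a, rfl⟩ ⟨p', hp', b, rfl⟩
    obtain ⟨p₁, hp₁, a₁, h₁⟩ := N.exists_y hp
    obtain ⟨p₂, hp₂, a₂, h₂⟩ := N.exists_y hp'
    obtain ⟨p₃, hp₃, a₃, h₃⟩ := hyy
    refine ⟨p * p' + b • p₁ + a • p₂ + (a * b) • p₃, add_mem (add_mem (add_mem (mul_mem hp hp')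
      (P.smul_mem hp₁ _)) (P.smul_mem hp₂ _)) (P.smul_mem hp₃ _), b * a₁ + a * a₂ + a * b * a₃, ?_⟩
    simp only [Algebra.smul_def, map_add, map_mul] at h₁ h₂ h₃ ⊢
    linear_combination (algebraMap κ (LaurentSeries κ) b) * h₁ +
      (algebraMap κ (LaurentSeries κ) a) * h₂ +
      (algebraMap κ (LaurentSeries κ) a) * (algebraMap κ (LaurentSeries κ) b) * h₃
  · rintro _ _ ⟨p, hp, a, rfl⟩ ⟨p', hp', b, rfl⟩
    refine ⟨p + p', add_mem hp hp', a + b, ?_⟩
    rw [add_smul]
    abel
  · intro a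
    exact ⟨_, P.algebraMap_mem a, 0, by rw [zero_smul, add_zero]⟩

theorem kr_R [IsAlgClosed κ] (h2 : (2 : κ) ≠ 0) {g : ℕ} (hP : Kr (g + 1) P)
    {R : Subalgebra κ (LaurentSeries κ)}
    (hR : ∀ x, x ∈ R ↔ ∃ p ∈ P, ∃ a : κ, x = p + a • y) : Kr g R := by
  obtain ⟨h1, L, hL, hk⟩ := Kr_iff.1 hP
  have hyR : y ∈ R := (hR y).2 ⟨0, zero_mem P, 1, by rw [one_smul, zero_add]⟩
  have hPR : P ≤ R := fun x hx => (hR x).2 ⟨x, hx, 0, by rw [zero_smul, add_zero]⟩
  have K1 : ∀ f ∈ R, f ∈ Po κ 0 → ∃ a : κ, f = algebraMap κ (LaurentSeries κ) a := by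
    intro f hf hf0
    obtain ⟨p, hp, a, ha⟩ := (hR f).1 hf
    by_cases ha0 : a = 0
    · apply h1 f _ hf0
      rw [ha, ha0, zero_smul, add_zero]
      exact hp
    · obtain ⟨p₁, hp₁, a₁, ha₁⟩ := (hR (f * f)).1 (mul_mem hf hf)
      have h3 : p₁ - (a₁ / a) • p = f * f - (a₁ / a) • f := by
        have h4 : (a₁ / a) • f = (a₁ / a) • p + a₁ • y := by
          nth_rewrite 1 [ha]
          rw [smul_add, smul_smul, div_mul_cancel₀ _ ha0]
        rw [h4, ha₁]
        abel
      have h4 : p₁ - (a₁ / a) • p ∈ Po κ 0 := by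
        rw [h3]
        have h5 := ZL.mul_mem_Pl (a := 0) (b := 0) hf0 hf0
        rw [add_zero] at h5
        exact sub_mem h5 (Submodule.smul_mem _ _ hf0)
      obtain ⟨b, hb⟩ := h1 _ (sub_mem hp₁ (P.smul_mem hp _)) h4
      obtain ⟨r', s', h5, h6⟩ := exists_roots h2 (a₁ / a) b
      have h7 : (f - algebraMap κ (LaurentSeries κ) r') *
          (f - algebraMap κ (LaurentSeries κ) s') = 0 := by
        have h8 := congrArg (algebraMap κ (LaurentSeries κ)) h5
        have h9 := congrArg (algebraMap κ (LaurentSeries κ)) h6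
        rw [map_add] at h8
        rw [map_mul, map_neg] at h9
        rw [h3, Algebra.smul_def] at hb
        linear_combination hb - f * h8 + h9
      rcases mul_eq_zero.1 h7 with h8 | h8
      · exact ⟨r', sub_eq_zero.1 h8⟩
      · exact ⟨s', sub_eq_zero.1 h8⟩
  have hLy : L y ≠ 0 := by
    intro h
    obtain ⟨p, hp, hq⟩ := (hk y).1 h
    obtain ⟨a, ha⟩ := K1 _ (sub_mem hyR (hPR hp)) hq
    apply N.not_mem
    have h3 : y = algebraMap κ (LaurentSeries κ) a + p := by rw [← ha, sub_add_cancel]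
    rw [h3]
    exact add_mem (P.algebraMap_mem a) hp
  have h3 := Submodule.finrank_quotient_add_finrank (Submodule.span κ {L y})
  rw [finrank_span_singleton hLy, Module.finrank_fin_fun] at h3
  have h4 : Module.finrank κ ((Fin (g + 1) → κ) ⧸ Submodule.span κ {L y}) =
      Module.finrank κ (Fin g → κ) := by
    rw [Module.finrank_fin_fun]
    omega
  let φ := LinearEquiv.ofFinrankEq _ _ h4
  refine Kr_iff.2 ⟨K1, φ.toLinearMap ∘ₗ (Submodule.span κ {L y}).mkQ ∘ₗ L, ?_, ?_⟩
  · exact φ.surjective.comp ((Submodule.mkQ_surjective _).comp hL)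
  · intro f
    have h5 : (φ.toLinearMap ∘ₗ (Submodule.span κ {L y}).mkQ ∘ₗ L) f = 0 ↔
        L f ∈ Submodule.span κ {L y} := by
      change φ ((Submodule.span κ {L y}).mkQ (L f)) = 0 ↔ _
      rw [LinearEquiv.map_eq_zero_iff, Submodule.mkQ_apply, Submodule.Quotient.mk_eq_zero]
    rw [h5, Submodule.mem_span_singleton]
    constructor
    · rintro ⟨a, ha⟩
      have h6 : L (f - a • y) = 0 := by rw [map_sub, map_smul, ha, sub_self]
      obtain ⟨p, hp, hq⟩ := (hk _).1 h6
      refine ⟨p + a • y, (hR _).2 ⟨p, hp, a, rfl⟩, ?_⟩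
      have h7 : f - (p + a • y) = f - a • y - p := by abel
      rw [h7]
      exact hq
    · rintro ⟨r', hr', hq⟩
      obtain ⟨p, hp, a, ha⟩ := (hR _).1 hr'
      refine ⟨a, ?_⟩
      have h6 : L (f - a • y) = 0 := by
        rw [hk]
        refine ⟨p, hp, ?_⟩
        have h7 : f - a • y - p = f - r' := by
          rw [ha]
          abel
        rw [h7]
        exact hq
      rw [map_sub, map_smul, sub_eq_zero] at h6
      exact h6.symm

/-! ### The basis of `R` -/

omit N in
theorem sum_upd (e : Fin d → LaurentSeries κ) (i₀ : Fin d) (y : LaurentSeries κ)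
    (a : Fin d → κ[X]) : ∑ j, zpol κ d (a j) * Function.update e i₀ y j =
      ∑ j, zpol κ d (a j) * e j + zpol κ d (a i₀) * (y - e i₀) := by
  have h1 : ∀ j, zpol κ d (a j) * Function.update e i₀ y j = zpol κ d (a j) * e j +
      if j = i₀ then zpol κ d (a i₀) * (y - e i₀) else 0 := by
    intro j
    by_cases h : j = i₀
    · rw [if_pos h, h, Function.update_self]
      ring
    · rw [if_neg h, Function.update_of_ne h, add_zero]
  simp only [h1]
  rw [Finset.sum_add_distrib, Finset.sum_ite_eq', if_pos (Finset.mem_univ _)]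

theorem upd_unique {a b : Fin d → κ[X]}
    (h : ∑ j, zpol κ d (a j) * Function.update e i₀ y j =
      ∑ j, zpol κ d (b j) * Function.update e i₀ y j) : a = b := by
  have h1 : ∀ a : Fin d → κ[X], zpol κ d (X - C c) *
      (∑ j, zpol κ d (a j) * Function.update e i₀ y j) =
      ∑ j, zpol κ d (if j = i₀ then a i₀ else (X - C c) * a j + a i₀ * C (v j)) * e j := by
    intro a
    have h2 : ∀ j, zpol κ d (if j = i₀ then a i₀ else (X - C c) * a j + a i₀ * C (v j)) * e j =
        zpol κ d (X - C c) * (zpol κ d (a j) * e j) + zpol κ d (a i₀) * (v j • e j) -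
          if j = i₀ then zpol κ d (X - C c) * (zpol κ d (a i₀) * e i₀) else 0 := by
      intro j
      by_cases h : j = i₀
      · rw [if_pos h, if_pos h, h, N.hv, one_smul]
        ring
      · rw [if_neg h, if_neg h, map_add, map_mul, map_mul, add_mul, mul_assoc, mul_assoc,
          zpol_C_mul, sub_zero]
    simp only [h2]
    rw [sum_upd, Finset.sum_sub_distrib, Finset.sum_add_distrib, ← Finset.mul_sum,
      ← Finset.mul_sum, ← N.hy, Finset.sum_ite_eq', if_pos (Finset.mem_univ _)]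
    ring
  have h2 : (fun j => if j = i₀ then a i₀ else (X - C c) * a j + a i₀ * C (v j)) =
      fun j => if j = i₀ then b i₀ else (X - C c) * b j + b i₀ * C (v j) := by
    have hm : (∑ j, zpol κ d (if j = i₀ then a i₀ else (X - C c) * a j + a i₀ * C (v j)) * e j) ∈
        P := Subalgebra.sum_mem _ fun j _ => mul_mem (N.s_mem _) (N.hb.mem j)
    apply (N.hb.uni _ hm).unique
    · rfl
    · rw [← h1 a, h, h1 b]
  have h3 : a i₀ = b i₀ := by
    have h4 := congrFun h2 i₀
    simp only [if_true] at h4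
    exact h4
  funext j
  by_cases hj : j = i₀
  · rw [hj, h3]
  · have h4 := congrFun h2 j
    simp only [if_neg hj] at h4
    rw [h3] at h4
    exact mul_left_cancel₀ (X_sub_C_ne_zero c) (add_right_cancel h4)

theorem zbas_R {R : Subalgebra κ (LaurentSeries κ)}
    (hR : ∀ x, x ∈ R ↔ ∃ p ∈ P, ∃ a : κ, x = p + a • y) :
    ZBas d R (Function.update e i₀ y) := by
  have hyR : y ∈ R := (hR y).2 ⟨0, zero_mem P, 1, by rw [one_smul, zero_add]⟩
  have hPR : P ≤ R := fun x hx => (hR x).2 ⟨x, hx, 0, by rw [zero_smul, add_zero]⟩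
  refine ⟨fun i => ?_, fun x hx => ?_⟩
  · by_cases h : i = i₀
    · rw [h, Function.update_self]
      exact hyR
    · rw [Function.update_of_ne h]
      exact hPR (N.hb.mem i)
  · obtain ⟨p, hp, a, ha⟩ := (hR x).1 hx
    obtain ⟨b, hb, -⟩ := N.hb.uni p hp
    refine ⟨fun j => (b j - b i₀ * C (v j)) + if j = i₀ then b i₀ * (X - C c) + C a else 0,
      ?_, ?_⟩
    · change x = ∑ j, zpol κ d ((b j - b i₀ * C (v j)) +
        if j = i₀ then b i₀ * (X - C c) + C a else 0) * Function.update e i₀ y j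
      rw [sum_upd]
      have h1 : ∀ j, zpol κ d ((b j - b i₀ * C (v j)) +
          if j = i₀ then b i₀ * (X - C c) + C a else 0) * e j =
          zpol κ d (b j) * e j - zpol κ d (b i₀) * (v j • e j) +
            if j = i₀ then zpol κ d (b i₀ * (X - C c) + C a) * e i₀ else 0 := by
        intro j
        by_cases h : j = i₀
        · rw [if_pos h, if_pos h, h, map_add, map_sub, map_mul, add_mul, sub_mul, mul_assoc,
            zpol_C_mul]
        · rw [if_neg h, if_neg h, map_add, map_sub, map_mul, add_mul, sub_mul, mul_assoc,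
            zpol_C_mul, map_zero, zero_mul]
      simp only [h1]
      rw [Finset.sum_add_distrib, Finset.sum_sub_distrib, ← Finset.mul_sum, ← hb, ← N.hy,
        Finset.sum_ite_eq', if_pos (Finset.mem_univ _), if_pos trivial, N.hv, C_1, mul_one, sub_self,
        zero_add, ha, map_add, map_mul, add_mul, add_mul, mul_sub, mul_sub, zpol_C_mul,
        zpol_C_mul]
      ring
    · intro a' ha'
      apply N.upd_unique
      rw [← ha', sum_upd]
      have h1 : ∀ j, zpol κ d ((b j - b i₀ * C (v j)) +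
          if j = i₀ then b i₀ * (X - C c) + C a else 0) * e j =
          zpol κ d (b j) * e j - zpol κ d (b i₀) * (v j • e j) +
            if j = i₀ then zpol κ d (b i₀ * (X - C c) + C a) * e i₀ else 0 := by
        intro j
        by_cases h : j = i₀
        · rw [if_pos h, if_pos h, h, map_add, map_sub, map_mul, add_mul, sub_mul, mul_assoc,
            zpol_C_mul]
        · rw [if_neg h, if_neg h, map_add, map_sub, map_mul, add_mul, sub_mul, mul_assoc,
            zpol_C_mul, map_zero, zero_mul]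
      simp only [h1]
      rw [Finset.sum_add_distrib, Finset.sum_sub_distrib, ← Finset.mul_sum, ← hb, ← N.hy,
        Finset.sum_ite_eq', if_pos (Finset.mem_univ _), if_pos trivial, N.hv, C_1, mul_one,
        sub_self, zero_add, ha, map_add, map_mul, add_mul, add_mul, mul_sub, mul_sub, zpol_C_mul,
        zpol_C_mul]
      ring

theorem zgram_R {G' : Matrix (Fin d) (Fin d) κ[X]}
    (hG' : ∀ i j, G' i j = if i = i₀ then (if j = i₀ then ρ else r j) else
        (if j = i₀ then r i else G i j)) : ZGram d (Function.update e i₀ y) G' := by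
  intro i j
  rw [hG']
  by_cases hi : i = i₀
  · rw [if_pos hi, hi, Function.update_self]
    by_cases hj : j = i₀
    · rw [if_pos hj, hj, Function.update_self, N.pr_yy]
    · rw [if_neg hj, Function.update_of_ne hj, N.pr_y_e]
  · rw [if_neg hi, Function.update_of_ne hi]
    by_cases hj : j = i₀
    · rw [if_pos hj, hj, Function.update_self, mul_comm, N.pr_y_e]
    · rw [if_neg hj, Function.update_of_ne hj, N.hG]

/-! ### The two points -/

/-- The functional `x ↦ μ (x (y - β))`. -/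
noncomputable def F (μ : LaurentSeries κ →ₗ[κ] κ) (y : LaurentSeries κ) (β : κ) :
    LaurentSeries κ →ₗ[κ] κ :=
  μ ∘ₗ LinearMap.mulRight κ (y - algebraMap κ (LaurentSeries κ) β)

omit N in
theorem F_apply (μ : LaurentSeries κ →ₗ[κ] κ) (y : LaurentSeries κ) (β : κ)
    (x : LaurentSeries κ) : F μ y β x = μ (x * y) - β * μ x := by
  change μ (x * (y - algebraMap κ (LaurentSeries κ) β)) = _
  rw [mul_sub, map_sub, mul_comm x (algebraMap κ (LaurentSeries κ) β), ← Algebra.smul_def,
    map_smul, smul_eq_mul]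

omit N in
theorem F_one {μ : LaurentSeries κ →ₗ[κ] κ} (hμ : ∀ p ∈ P, μ p = 0) (hμy : μ y = 1) (β : κ) :
    F μ y β 1 = 1 := by
  rw [F_apply, one_mul, hμy, hμ 1 (one_mem P), mul_zero, sub_zero]

theorem F_zpol {μ : LaurentSeries κ →ₗ[κ] κ} (hμ : ∀ p ∈ P, μ p = 0) (hμy : μ y = 1) (β : κ)
    (q : κ[X]) : F μ y β (zpol κ d q) = q.eval c := by
  rw [F_apply, hμ _ (N.s_mem q), mul_zero, sub_zero]
  obtain ⟨n, hn⟩ : (X - C c) ∣ q - C (q.eval c) := by
    rw [dvd_iff_isRoot, IsRoot.def, eval_sub, eval_C, sub_self]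
  have h1 : q = (X - C c) * n + C (q.eval c) := by rw [← hn, sub_add_cancel]
  have h2 : zpol κ d q * y = zpol κ d n * (zpol κ d (X - C c) * y) + q.eval c • y := by
    nth_rewrite 1 [h1]
    rw [map_add, add_mul, zpol_C_mul, map_mul]
    ring
  rw [h2, map_add, hμ _ (mul_mem (N.s_mem _) N.sy_mem), map_smul, hμy, zero_add, smul_eq_mul,
    mul_one]

theorem F_mul {μ : LaurentSeries κ →ₗ[κ] κ} (hμ : ∀ p ∈ P, μ p = 0) (hμy : μ y = 1)
    {p₀ : LaurentSeries κ} (hp₀ : p₀ ∈ P) {α β β' : κ} (hyy : y * y = p₀ + α • y)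
    (h1 : β + β' = α) (h2 : β * β' = -μ (y * p₀)) {x x' : LaurentSeries κ}
    (hx : ∃ p ∈ P, ∃ a : κ, x = p + a • y) (hx' : ∃ p ∈ P, ∃ a : κ, x' = p + a • y) :
    F μ y β (x * x') = F μ y β x * F μ y β x' := by
  obtain ⟨p, hp, a, rfl⟩ := hx
  obtain ⟨p', hp', b, rfl⟩ := hx'
  have hyy' : μ (y * y) = α := by
    rw [hyy, map_add, hμ _ hp₀, map_smul, hμy, zero_add, smul_eq_mul, mul_one]
  have c1 : μ (p * p' * y) = μ (p * y) * μ (p' * y) := by
    obtain ⟨p₁, hp₁, h⟩ := N.mu_mul hμ hμy hp'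
    have h3 : p * p' * y = p * p₁ + μ (y * p') • (p * y) := by
      have h4 : p * p' * y = p * (y * p') := by ring
      nth_rewrite 1 [h4, h]
      rw [mul_add, mul_smul_comm]
    rw [h3, map_add, map_smul, hμ _ (mul_mem hp hp₁), zero_add, smul_eq_mul, mul_comm y p',
      mul_comm]
  have c2 : ∀ p ∈ P, μ (p * (y * y)) = α * μ (p * y) := by
    intro p hp
    rw [hyy, mul_add, map_add, hμ _ (mul_mem hp hp₀), mul_smul_comm, map_smul, zero_add,
      smul_eq_mul]
  have c3 : μ (y * (y * y)) = μ (y * p₀) + α * α := by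
    have h3 : y * (y * y) = y * p₀ + α • (y * y) := by
      nth_rewrite 1 [hyy]
      rw [mul_add, mul_smul_comm]
    rw [h3, map_add, map_smul, hyy', smul_eq_mul]
  have h3 : (p + a • y) * (p' + b • y) = p * p' + b • (p * y) + a • (p' * y) +
      (a * b) • (y * y) := by
    simp only [Algebra.smul_def, map_mul]
    ring
  have h4 : (p * p' + b • (p * y) + a • (p' * y) + (a * b) • (y * y)) * y =
      p * p' * y + b • (p * (y * y)) + a • (p' * (y * y)) + (a * b) • (y * (y * y)) := by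
    simp only [Algebra.smul_def, map_mul]
    ring
  have h5 : (p + a • y) * y = p * y + a • (y * y) := by
    rw [add_mul, smul_mul_assoc]
  have h6 : (p' + b • y) * y = p' * y + b • (y * y) := by
    rw [add_mul, smul_mul_assoc]
  rw [F_apply, F_apply, F_apply, h3, h4, h5, h6]
  simp only [map_add, map_smul, smul_eq_mul, hμ _ (mul_mem hp hp'), hμ _ hp, hμ _ hp', c1, c3,
    c2 _ hp, c2 _ hp', hyy', hμy]
  have h7 : μ (y * p₀) = -(β * β') := by rw [h2, neg_neg]
  rw [h7, ← h1]
  ring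

/-- The two values of `y` are different. -/
theorem ne_roots (hZDU : Stmt_ZDU) (hdκ : ((d : ℕ) : κ) ≠ 0) {g : ℕ}
    {R : Subalgebra κ (LaurentSeries κ)} (hKR : Kr g R)
    (hR : ∀ x, x ∈ R ↔ ∃ p ∈ P, ∃ a : κ, x = p + a • y)
    {G' : Matrix (Fin d) (Fin d) κ[X]} (hG' : ZGram d (Function.update e i₀ y) G')
    (hdet : G'.det.eval c ≠ 0)
    {μ : LaurentSeries κ →ₗ[κ] κ} (hμ : ∀ p ∈ P, μ p = 0) (hμy : μ y = 1)
    {p₀ : LaurentSeries κ} (hp₀ : p₀ ∈ P) {α β β' : κ} (hyy : y * y = p₀ + α • y)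
    (h1 : β + β' = α) (h2 : β * β' = -μ (y * p₀)) : β ≠ β' := by
  classical
  intro hβ
  have hyR : y ∈ R := (hR y).2 ⟨0, zero_mem P, 1, by rw [one_smul, zero_add]⟩
  have hPR : P ≤ R := fun x hx => (hR x).2 ⟨x, hx, 0, by rw [zero_smul, add_zero]⟩
  have hzR : ∀ q : κ[X], zpol κ d q ∈ R := fun q => hPR (N.s_mem q)
  have hyy' : μ (y * y) = α := by
    rw [hyy, map_add, hμ _ hp₀, map_smul, hμy, zero_add, smul_eq_mul, mul_one]
  have hb := N.zbas_R hR
  have hF : ∀ x ∈ R, ∀ x' ∈ R, F μ y β (x * x') = F μ y β x * F μ y β x' := fun x hx x' hx' =>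
    N.F_mul hμ hμy hp₀ hyy h1 h2 ((hR x).1 hx) ((hR x').1 hx')
  -- evaluation at `c`
  let M : Matrix (Fin d) (Fin d) κ := G'.map (Polynomial.eval c)
  have hM : M.det ≠ 0 := by
    have h3 : M = (evalRingHom c).mapMatrix G' := rfl
    rw [h3, ← RingHom.map_det]
    exact hdet
  have hM' : IsUnit M.det := isUnit_iff_ne_zero.2 hM
  let f : Fin d → κ := fun k => F μ y β (Function.update e i₀ y k)
  let a : Fin d → κ := Matrix.vecMul f M⁻¹
  have ha : ∀ k, ∑ j, a j * M j k = f k := by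
    intro k
    have h3 : Matrix.vecMul a M = f := by
      change Matrix.vecMul (Matrix.vecMul f M⁻¹) M = f
      rw [Matrix.vecMul_vecMul, Matrix.nonsing_inv_mul _ hM', Matrix.vecMul_one]
    exact congrFun h3 k
  let b : LaurentSeries κ := ∑ j, a j • Function.update e i₀ y j
  have hbR : b ∈ R := Subalgebra.sum_mem _ fun j _ => R.smul_mem (hb.mem j) _
  -- the dual property of `b`
  have hdual : ∀ x ∈ R, ∃ q : κ[X], pr0 κ d (b * x) = zpol κ d q ∧ q.eval c = F μ y β x := by
    intro x hx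
    obtain ⟨n, hn, -⟩ := hb.uni x hx
    refine ⟨∑ k, n k * ∑ j, C (a j) * G' j k, ?_, ?_⟩
    · change pr0 κ d ((∑ j, a j • Function.update e i₀ y j) * x) = _
      rw [hn, Finset.mul_sum, map_sum, map_sum]
      refine Finset.sum_congr rfl fun k _ => ?_
      rw [mul_left_comm, pr0_zpol_mul, map_mul (zpol κ d), Finset.sum_mul, map_sum, map_sum]
      congr 1
      refine Finset.sum_congr rfl fun j _ => ?_
      rw [smul_mul_assoc, map_smul, map_mul (zpol κ d), zpol_C_mul, hG' j k]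
    · rw [eval_finsetSum, hn, map_sum]
      refine Finset.sum_congr rfl fun k _ => ?_
      rw [hF _ (hzR _) _ (hb.mem k), N.F_zpol hμ hμy, eval_mul, eval_finsetSum]
      congr 1
      rw [← show f k = F μ y β (Function.update e i₀ y k) from rfl, ← ha k]
      refine Finset.sum_congr rfl fun j _ => ?_
      rw [eval_mul, eval_C]
      rfl
  have hdiv : ∀ x ∈ R, ∃ r' ∈ R, b * x = F μ y β x • b + zpol κ d (X - C c) * r' := by
    intro x hx
    have hu : b * x - F μ y β x • b ∈ R := sub_mem (mul_mem hbR hx) (R.smul_mem hbR _)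
    obtain ⟨m, hm, -⟩ := hb.uni _ hu
    have h3 : ∀ k, ∑ j, (m j).eval c * M j k = 0 := by
      intro k
      obtain ⟨q₁, hq₁, hq₁'⟩ := hdual (x * Function.update e i₀ y k) (mul_mem hx (hb.mem k))
      obtain ⟨q₂, hq₂, hq₂'⟩ := hdual (Function.update e i₀ y k) (hb.mem k)
      have h4 : ∑ j, m j * G' j k = q₁ - C (F μ y β x) * q₂ := by
        apply zpol_inj N.hd.ne'
        rw [map_sub, ← hq₁, map_mul (zpol κ d), zpol_C_mul, ← hq₂, ← map_smul, ← map_sub]
        have h5 : b * (x * Function.update e i₀ y k) -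
            F μ y β x • (b * Function.update e i₀ y k) =
            (b * x - F μ y β x • b) * Function.update e i₀ y k := by
          rw [sub_mul, smul_mul_assoc, mul_assoc]
        rw [h5, hm, Finset.sum_mul, map_sum, map_sum]
        refine Finset.sum_congr rfl fun j _ => ?_
        rw [mul_assoc, pr0_zpol_mul, map_mul, hG' j k]
      have h5 := congrArg (Polynomial.eval c) h4
      rw [eval_finsetSum, eval_sub, eval_mul, eval_C, hq₁', hq₂', hF _ hx _ (hb.mem k),
        sub_self] at h5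
      rw [← h5]
      refine Finset.sum_congr rfl fun j _ => ?_
      rw [eval_mul]
      rfl
    have h4 : (fun j => (m j).eval c) = 0 :=
      Matrix.eq_zero_of_vecMul_eq_zero hM (funext h3)
    have h5 : ∀ j, (X - C c) ∣ m j := fun j => dvd_iff_isRoot.2 (congrFun h4 j)
    choose n hn using h5
    refine ⟨∑ j, zpol κ d (n j) * Function.update e i₀ y j, Subalgebra.sum_mem _ fun j _ =>
      mul_mem (hzR _) (hb.mem j), ?_⟩
    rw [← sub_eq_iff_eq_add', hm, Finset.mul_sum]
    refine Finset.sum_congr rfl fun j _ => ?_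
    rw [hn j, map_mul, mul_assoc]
  -- the trace
  have hFb : F μ y β b = d := by
    obtain ⟨q, hq, hq'⟩ := hdual 1 (one_mem R)
    rw [mul_one] at hq
    have h3 := trace_eval hZDU N.hd hdκ hKR (hPR N.hz) hb hG' c (b := b) (a := a) (f := f) rfl hq
      (fun i => hdiv _ (hb.mem i))
    rw [hq', F_one hμ hμy, mul_one] at h3
    rw [← h3]
    change F μ y β (∑ j, a j • Function.update e i₀ y j) = _
    rw [map_sum]
    refine Finset.sum_congr rfl fun j _ => ?_
    rw [map_smul, smul_eq_mul, mul_comm]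
  have hn : y - algebraMap κ (LaurentSeries κ) β ∈ R := sub_mem hyR (R.algebraMap_mem β)
  obtain ⟨r', hr', h3⟩ := hdiv _ hn
  have h4 : F μ y β (y - algebraMap κ (LaurentSeries κ) β) = 0 := by
    have h5 : algebraMap κ (LaurentSeries κ) β = β • (1 : LaurentSeries κ) :=
      Algebra.algebraMap_eq_smul_one β
    rw [map_sub, h5, map_smul, F_one hμ hμy, F_apply, hyy', hμy, ← h1, ← hβ, smul_eq_mul]
    ring
  have h5 : zpol κ d (X - C c) * r' ∈ P := by
    obtain ⟨p, hp, a', ha'⟩ := (hR r').1 hr'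
    rw [ha', mul_add, mul_smul_comm]
    exact add_mem (mul_mem (N.s_mem _) hp) (P.smul_mem N.sy_mem _)
  apply hdκ
  rw [← hFb]
  change μ (b * (y - algebraMap κ (LaurentSeries κ) β)) = 0
  rw [h3, h4, zero_smul, zero_add]
  exact hμ _ h5

end Node

end NPG

open _root_.Pool.Agent.MG.G0.NPG KRK in
theorem t_NPG (hZDU : Stmt_ZDU) : Stmt_NPG := by
  intro κ _ _ g d P f h c hd hfac hP hz hDisc hf hhc hGRk
  have hd0 : 0 < d := by omega
  have hdκ : ((d : ℕ) : κ) ≠ 0 := by
    obtain ⟨k, hk⟩ := Nat.dvd_factorial hd0 (le_refl d)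
    intro h0
    apply hfac
    rw [hk, Nat.cast_mul, h0, zero_mul]
  have h2 : (2 : κ) ≠ 0 := by
    obtain ⟨k, hk⟩ := Nat.dvd_factorial (by norm_num : 0 < 2) hd
    intro h0
    apply hfac
    rw [hk, Nat.cast_mul, Nat.cast_ofNat, h0, zero_mul]
  obtain ⟨e0, G0, hb0, hG0, u0, hu0, hdet0⟩ := hDisc
  obtain ⟨e, G, hb, hG, hrk⟩ := hGRk
  obtain ⟨u1, hu1, hdet1⟩ := det_change hd0 hb0 hG0 hb hG
  have hdet : G.det = (u1 * u0) * ((X - C c) ^ 2 * h) := by
    rw [hdet1, hdet0, hf, mul_assoc]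
  have hsym : ∀ i j, G i j = G j i := by
    intro i j
    apply zpol_inj hd0.ne'
    rw [hG i j, hG j i, mul_comm]
  obtain ⟨v, i₀, r, ρ, G', hv, hker, hr, hρ, hG', hdet'⟩ := exists_div hd G hsym c hrk hdet
  have hs : zpol κ d (X - C c : κ[X]) ≠ 0 := zpol_ne_zero hd0 (X_sub_C_ne_zero c)
  let y : LaurentSeries κ := (zpol κ d (X - C c))⁻¹ * ∑ j, v j • e j
  have N : Node d P e G c v i₀ r ρ y :=
    { hd := hd0
      hz := hz
      hb := hb
      hG := hG
      hv := hv
      ker := hker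
      hr := hr
      hρ := hρ
      hy := mul_inv_cancel_left₀ hs _ }
  obtain ⟨p₀, hp₀, α, hyy⟩ := N.y_y hZDU hdκ hP
  obtain ⟨R, hR⟩ := N.exists_R ⟨p₀, hp₀, α, hyy⟩
  have hKR : Kr g R := N.kr_R h2 hP hR
  have hyR : y ∈ R := (hR y).2 ⟨0, zero_mem P, 1, by rw [one_smul, zero_add]⟩
  have hPR : P ≤ R := fun x hx => (hR x).2 ⟨x, hx, 0, by rw [zero_smul, add_zero]⟩
  have hGr := N.zgram_R hG'
  obtain ⟨μ, hμ, hμy⟩ := N.exists_mu
  obtain ⟨β, β', h3, h4⟩ := exists_roots h2 α (μ (y * p₀))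
  have hu : IsUnit (u1 * u0) := hu1.mul hu0
  have hev : G'.det.eval c ≠ 0 := by
    rw [hdet', eval_mul]
    refine mul_ne_zero ?_ hhc
    have h5 : IsUnit ((evalRingHom c) (u1 * u0)) := hu.map _
    exact h5.ne_zero
  have hne := N.ne_roots hZDU hdκ hKR hR hGr hev hμ hμy hp₀ hyy h3 h4
  have hyy' : μ (y * y) = α := by
    rw [hyy, map_add, hμ _ hp₀, map_smul, hμy, zero_add, smul_eq_mul, mul_one]
  -- the homomorphisms
  have hφ : ∀ β β' : κ, β + β' = α → β * β' = -μ (y * p₀) → ∃ p : R →ₐ[κ] κ, ∀ x : R,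
      p x = Node.F μ y β (x : LaurentSeries κ) := by
    intro β β' h3 h4
    refine ⟨AlgHom.ofLinearMap ((Node.F μ y β) ∘ₗ R.val.toLinearMap) ?_ ?_, fun x => rfl⟩
    · exact Node.F_one hμ hμy β
    · intro x x'
      exact N.F_mul hμ hμy hp₀ hyy h3 h4 ((hR x).1 x.2) ((hR x').1 x'.2)
  obtain ⟨p, hp⟩ := hφ β β' h3 h4
  obtain ⟨q, hq⟩ := hφ β' β (by rw [add_comm, h3]) (by rw [mul_comm, h4])
  refine ⟨R, hKR, hPR, ⟨_, G', N.zbas_R hR, hGr, u1 * u0, hu, hdet'⟩, p, q, ?_, ?_, ?_⟩
  · intro hpq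
    apply hne
    have h5 := congrArg (fun F => F (⟨y, hyR⟩ : R)) hpq
    simp only [hp, hq, Node.F_apply, hyy', hμy, mul_one] at h5
    linear_combination -h5
  · intro x
    obtain ⟨p', hp', a, ha⟩ := (hR x).1 x.2
    have h5 : μ x = a := by
      rw [ha, map_add, hμ _ hp', map_smul, hμy, zero_add, smul_eq_mul, mul_one]
    rw [hp, hq, Node.F_apply, Node.F_apply]
    constructor
    · intro hx
      rw [hμ _ hx, mul_zero, mul_zero]
    · intro h6
      have h7 : (β - β') * μ x = 0 := by linear_combination -h6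
      rcases mul_eq_zero.1 h7 with h8 | h8
      · exact absurd (sub_eq_zero.1 h8) hne
      · rw [ha, ← h5, h8, zero_smul, add_zero]
        exact hp'
  · intro z hzz
    have h5 : (z : LaurentSeries κ) = zpol κ d X := by
      rw [hzz, zpol, aeval_X]
    rw [hp, hq, h5, N.F_zpol hμ hμy, N.F_zpol hμ hμy, eval_X]
    exact ⟨rfl, rfl⟩

end Pool.Agent.MG.G0


end

section

/-!
# TRA: the transfer of the vanishing theorem
-/

namespace Pool.Agent.MG.G0

namespace TRA

section series

variable (𝒰 : Ultrafilter ℕ) {R : ℕ → Type} [∀ n, CommRing (R n)]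

/-- The class of a family of series without poles. -/
noncomputable def cl (f : ∀ n, LaurentSeries (R n)) (h : ∀ n, f n ∈ Po (R n) 0) :
    LaurentSeries (Ul 𝒰 R) where
  coeff m := umk 𝒰 fun n => (f n).coeff m
  isPWO_support' := by
    refine Set.IsPWO.mono (t := Set.Ici (0 : ℤ)) ?_ fun m hm => ?_
    · exact (BddBelow.isWF ⟨_, fun _ h => h⟩).isPWO
    · by_contra hc
      rw [Set.mem_Ici, not_le] at hc
      exact hm ((umk_eq_zero 𝒰).2 (Filter.Eventually.of_forall fun n => h n m (by omega)))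

theorem cl_coeff (f : ∀ n, LaurentSeries (R n)) (h : ∀ n, f n ∈ Po (R n) 0) (m : ℤ) :
    (cl 𝒰 f h).coeff m = umk 𝒰 fun n => (f n).coeff m := rfl

theorem cl_user (f : ∀ n, LaurentSeries (R n)) (h : ∀ n, f n ∈ Po (R n) 0) :
    USer 𝒰 (cl 𝒰 f h) f := ⟨⟨0, h⟩, fun _ => rfl⟩

/-- The scalar multiplication. (This instance comes first, to guide the search.) -/
noncomputable local instance (priority := 100000) eeSm
    {P : ∀ n, Subalgebra (R n) (LaurentSeries (R n))} : SMul (Ul 𝒰 R) (EE1 (UP 𝒰 P)) :=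
  (Submodule.module (EE1 (UP 𝒰 P))).toSMul

variable {P : ∀ n, Subalgebra (R n) (LaurentSeries (R n))}
  (hE : ∀ F : LaurentSeries (Ul 𝒰 R), F ∈ EE1 (UP 𝒰 P) ↔
      ∃ f : ∀ n, LaurentSeries (R n), USer 𝒰 F f ∧ ∀ n, f n ∈ EE1 (P n))

/-- The class of a family of regular differentials. -/
noncomputable def ce (f : ∀ n, EE1 (P n)) : EE1 (UP 𝒰 P) :=
  ⟨cl 𝒰 (fun n => (f n : LaurentSeries (R n))) fun n => (f n).2.2,
    (hE _).2 ⟨_, cl_user 𝒰 _ _, fun n => (f n).2⟩⟩

theorem ce_coeff (f : ∀ n, EE1 (P n)) (m : ℤ) : (ce 𝒰 hE f : LaurentSeries (Ul 𝒰 R)).coeff m =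
    umk 𝒰 fun n => (f n : LaurentSeries (R n)).coeff m := rfl

theorem ce_surj (F : EE1 (UP 𝒰 P)) : ∃ f : ∀ n, EE1 (P n), ce 𝒰 hE f = F := by
  obtain ⟨f, h1, h2⟩ := (hE F).1 F.2
  refine ⟨fun n => ⟨f n, h2 n⟩, Subtype.ext ?_⟩
  ext m
  rw [ce_coeff, h1.2]

theorem ce_add (f g : ∀ n, EE1 (P n)) :
    ce 𝒰 hE (fun n => f n + g n) = ce 𝒰 hE f + ce 𝒰 hE g := by
  refine Subtype.ext ?_
  ext m
  rw [Submodule.coe_add, HahnSeries.coeff_add, ce_coeff, ce_coeff, ce_coeff, ← map_add]
  congr 1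

theorem ce_zero : ce 𝒰 hE (fun n => (0 : EE1 (P n))) = 0 := by
  refine Subtype.ext ?_
  ext m
  rw [ce_coeff]
  change umk 𝒰 0 = 0
  exact map_zero _

theorem ce_smul (c : ∀ n, R n) (f : ∀ n, EE1 (P n)) :
    ce 𝒰 hE (fun n => c n • f n) = umk 𝒰 c • ce 𝒰 hE f := by
  refine Subtype.ext ?_
  ext m
  rw [Submodule.coe_smul, HahnSeries.coeff_smul, ce_coeff, ce_coeff, smul_eq_mul, ← map_mul]
  congr 1

theorem ce_sum {ι : Type} (s : Finset ι) (f : ι → ∀ n, EE1 (P n)) :
    ce 𝒰 hE (fun n => ∑ j ∈ s, f j n) = ∑ j ∈ s, ce 𝒰 hE (f j) := by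
  classical
  induction s using Finset.induction_on with
  | empty =>
    simp only [Finset.sum_empty]
    exact ce_zero 𝒰 hE
  | insert a s ha ih =>
    simp only [Finset.sum_insert ha]
    rw [ce_add, ih]

theorem umk_sum {ι : Type} (s : Finset ι) (f : ι → ∀ n, R n) :
    umk 𝒰 (fun n => ∑ j ∈ s, f j n) = ∑ j ∈ s, umk 𝒰 (f j) := by
  rw [← map_sum]
  congr 1
  funext n
  rw [Finset.sum_apply]

theorem umk_prod {ι : Type} (s : Finset ι) (f : ι → ∀ n, R n) :
    umk 𝒰 (fun n => ∏ j ∈ s, f j n) = ∏ j ∈ s, umk 𝒰 (f j) := by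
  rw [← map_prod]
  congr 1
  funext n
  rw [Finset.prod_apply]

theorem umk_zpow (c : ∀ n, (R n)ˣ) (u : (Ul 𝒰 R)ˣ)
    (h : (u : Ul 𝒰 R) = umk 𝒰 fun n => (c n : R n)) (m : ℤ) :
    ((u ^ m : (Ul 𝒰 R)ˣ) : Ul 𝒰 R) = umk 𝒰 fun n => ((c n ^ m : (R n)ˣ) : R n) := by
  have h1 : u = Units.map ((umk 𝒰 : (∀ n, R n) →+* Ul 𝒰 R) : (∀ n, R n) →* Ul 𝒰 R)
      (MulEquiv.piUnits.symm c) := Units.ext h
  rw [h1, ← map_zpow, ← map_zpow]
  rfl

end series

/-- A basis of the regular differentials. -/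
theorem exists_basis (hKFO : Stmt_KFO) {A : Type} [CommRing A] {g : ℕ}
    {R : Subalgebra A (LaurentSeries A)} (h : Kr g R) :
    Nonempty (Module.Basis (Fin g) A (EE1 R)) := by
  obtain ⟨⟨ω, hω⟩, h2⟩ := hKFO h
  obtain ⟨h3, h4⟩ := h2 ω hω
  set v : Fin g → EE1 R := fun j => ⟨ω j (), mem_EE_uno.1 (h3 j)⟩ with hv
  have key : ∀ η : EE1 R, ∃! c : Fin g → A, η = ∑ j, c j • v j := by
    intro η
    obtain ⟨c, hc, hu⟩ := h4 (fun _ => (η : LaurentSeries A)) (mem_EE_uno.2 η.2)
    have hval : ∀ c : Fin g → A, ((∑ j, c j • v j : EE1 R) : LaurentSeries A) =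
        (∑ j, c j • ω j) () := by
      intro c
      rw [AddSubmonoidClass.coe_finsetSum, Finset.sum_apply]
      rfl
    refine ⟨c, Subtype.ext ?_, fun c' hc' => hu c' ?_⟩
    · rw [hval, ← hc]
    · funext i
      have := congrArg Subtype.val hc'
      rw [hval] at this
      exact this
  refine ⟨Module.Basis.mk (v := v) ?_ ?_⟩
  · rw [Fintype.linearIndependent_iff]
    intro c hc i
    obtain ⟨c₀, _, hu⟩ := key 0
    have e1 := hu c hc.symm
    have e2 := hu 0 (by simp)
    rw [e1, ← e2]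
    rfl
  · intro η _
    obtain ⟨c, hc, _⟩ := key η
    rw [hc]
    exact Submodule.sum_mem _ fun j _ => Submodule.smul_mem _ _ (Submodule.subset_span ⟨j, rfl⟩)

/-- The multilinear form with given values on a basis. -/
noncomputable def mk {A M : Type} [CommRing A] [AddCommGroup M] [Module A M] {g r : ℕ}
    (b : Module.Basis (Fin g) A M) (a : (Fin r → Fin g) → A) :
    MultilinearMap A (fun _ : Fin r => M) A :=
  ∑ j : Fin r → Fin g, a j •
    (MultilinearMap.mkPiAlgebra A (Fin r) A).compLinearMap fun i => b.coord (j i)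

theorem mk_apply {A M : Type} [CommRing A] [AddCommGroup M] [Module A M] {g r : ℕ}
    (b : Module.Basis (Fin g) A M) (a : (Fin r → Fin g) → A) (m : Fin r → M) :
    mk b a m = ∑ j : Fin r → Fin g, (∏ i, b.coord (j i) (m i)) * a j := by
  rw [mk, sum_apply]
  refine Finset.sum_congr rfl fun j _ => ?_
  rw [smul_apply, MultilinearMap.compLinearMap_apply,
    MultilinearMap.mkPiAlgebra_apply, smul_eq_mul, mul_comm]

end TRA

/-- **TRA**: the transfer of the vanishing theorem. -/
theorem t_TRA (hKFO : Stmt_KFO) (hUKR : Stmt_UKR) : Stmt_TRA := by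
  intro 𝒰 k L _ _ _ g d r R T hg hKr hT hvan S hS
  have hE := (hUKR 𝒰 R hg hKr).2.1
  have b := fun n => Classical.choice (TRA.exists_basis hKFO (hKr n))
  -- the class of a basis
  set Om : Fin g → EE1 (UP 𝒰 R) := fun j => TRA.ce 𝒰 hE fun n => b n j with hOm
  choose a ha using fun j : Fin r → Fin g => umk_surj 𝒰 (S fun i => Om (j i))
  set Sn : ∀ n, MultilinearMap (L n) (fun _ : Fin r => EE1 (R n)) (L n) :=
    fun n => TRA.mk (b n) fun j => a j n with hSn
  have hexp : ∀ f : ∀ n, EE1 (R n), TRA.ce 𝒰 hE f =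
      ∑ j, umk 𝒰 (fun n => (b n).coord j (f n)) • Om j := by
    intro f
    have h1 : f = fun n => ∑ j, (b n).coord j (f n) • b n j := by
      funext n
      exact ((b n).sum_repr (f n)).symm
    rw [congrArg (TRA.ce 𝒰 hE) h1, TRA.ce_sum 𝒰 hE Finset.univ
      fun j n => (b n).coord j (f n) • b n j]
    exact Finset.sum_congr rfl fun j _ => TRA.ce_smul 𝒰 hE (fun n => (b n).coord j (f n)) fun n => b n j
  have hval : ∀ f : Fin r → ∀ n, EE1 (R n), S (fun i => TRA.ce 𝒰 hE (f i)) =
      umk 𝒰 fun n => Sn n fun i => f i n := by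
    intro f
    have h1 : (fun i => TRA.ce 𝒰 hE (f i)) = fun i =>
        ∑ j, umk 𝒰 (fun n => (b n).coord j (f i n)) • Om j := funext fun i => hexp (f i)
    rw [h1, MultilinearMap.map_sum]
    have h2 : (fun n => Sn n fun i => f i n) = fun n => ∑ j : Fin r → Fin g,
        (∏ i, (b n).coord (j i) (f i n)) * a j n := by
      funext n
      rw [hSn]
      exact TRA.mk_apply _ _ _
    rw [h2, TRA.umk_sum 𝒰 Finset.univ fun (j : Fin r → Fin g) n =>
      (∏ i, (b n).coord (j i) (f i n)) * a j n]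
    refine Finset.sum_congr rfl fun j _ => ?_
    rw [MultilinearMap.map_smul_univ, ← ha j, smul_eq_mul, ← TRA.umk_prod, ← map_mul]
    rfl
  by_cases hA : ∀ᶠ n in (𝒰 : Filter ℕ), ∀ v, T n v → v.Int (Sn n)
  · ext F
    choose f hf using fun i => TRA.ce_surj 𝒰 hE (F i)
    have h1 : F = fun i => TRA.ce 𝒰 hE (f i) := funext fun i => (hf i).symm
    rw [h1, hval, zero_apply, umk_eq_zero]
    filter_upwards [hA] with n hn
    rw [hvan n (Sn n) hn, zero_apply]
  · exfalso
    rw [← Ultrafilter.eventually_not] at hA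
    have hex : ∀ n, ∃ (v : Plc (k n) (L n) g d (R n)) (ω : Fin r → EE1 (R n))
        (η : Fin r → EE1 v.M.P), T n v ∧
        (∀ i, lmap (algebraMap v.O (L n)) (η i : LaurentSeries v.O) =
          ((v.c⁻¹ : (L n)ˣ) : L n) • sc v.c (ω i : LaurentSeries (L n))) ∧
        ((¬ ∀ v, T n v → v.Int (Sn n)) → ¬ ∃ x : v.O, algebraMap v.O (L n) x = Sn n ω) := by
      intro n
      by_cases hn : ∀ v, T n v → v.Int (Sn n)
      · obtain ⟨v, hv⟩ := hT n
        refine ⟨v, fun _ => 0, fun _ => 0, hv, fun i => ?_, fun h => absurd hn h⟩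
        rw [Submodule.coe_zero, Submodule.coe_zero, map_zero, map_zero, smul_zero]
      · have hn' := hn
        push Not at hn
        obtain ⟨v, hv, hv2⟩ := hn
        unfold Plc.Int at hv2
        push Not at hv2
        obtain ⟨ω, η, h1, h2⟩ := hv2
        exact ⟨v, ω, η, hv, h1, fun _ ⟨x, hx⟩ => h2 x hx⟩
    choose v ω η hv h1 h2 using hex
    have hEO := (hUKR 𝒰 (R := fun n => (v n).O) (fun n => (v n).M.P) hg
      fun n => (v n).M.kr).2.1
    obtain ⟨x, hx⟩ := hS v hv (fun i => TRA.ce 𝒰 hE fun n => ω n i)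
      (fun i => TRA.ce 𝒰 hEO fun n => η n i) (by
        intro i
        ext m
        rw [lmap_coeff, TRA.ce_coeff, HahnSeries.coeff_smul, sc_coeff, TRA.ce_coeff]
        have h3 : (((uc 𝒰 v) ^ (-m) : (Ul 𝒰 L)ˣ) : Ul 𝒰 L) =
            umk 𝒰 fun n => (((v n).c ^ (-m) : (L n)ˣ) : L n) :=
          TRA.umk_zpow 𝒰 (fun n => (v n).c) (uc 𝒰 v) rfl (-m)
        have h4 : (((uc 𝒰 v)⁻¹ : (Ul 𝒰 L)ˣ) : Ul 𝒰 L) =
            umk 𝒰 fun n => (((v n).c⁻¹ : (L n)ˣ) : L n) := rfl
        rw [h3, h4, smul_eq_mul, ← map_mul, ← map_mul]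
        change umap 𝒰 (fun n => algebraMap (v n).O (L n)) (umk 𝒰 _) = _
        rw [umap_umk]
        congr 1
        funext n
        have h5 := congrArg (fun F : LaurentSeries (L n) => F.coeff m) (h1 n i)
        exact h5)
    rw [hval] at hx
    obtain ⟨x', rfl⟩ := umk_surj 𝒰 x
    have hx' : umk 𝒰 (fun n => algebraMap (v n).O (L n) (x' n)) =
        umk 𝒰 fun n => Sn n fun i => ω n i := hx
    rw [umk_eq] at hx'
    obtain ⟨n, hn1, hn2⟩ := (hA.and hx').exists
    exact h2 n hn1 ⟨x' n, hn2⟩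

end Pool.Agent.MG.G0


end

section

/-!
# ZRF: the coefficient of `z⁻¹` in `N/f`
-/

open Polynomial

namespace Pool.Agent.MG.G0

namespace ZRFaux

variable {K : Type} [Field K] {d : ℕ}

theorem zpol_coeff_pos (q : K[X]) (m : ℤ) (hm : 0 < m) : (zpol K d q).coeff m = 0 := by
  rw [zpol, aeval_eq_sum_range, HahnSeries.coeff_sum]
  refine Finset.sum_eq_zero fun i _ => ?_
  rw [zz, HahnSeries.single_pow, one_pow, HahnSeries.coeff_smul, HahnSeries.coeff_single_of_ne,
    smul_zero]
  have : i • (-(d : ℤ)) ≤ 0 := by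
    rw [nsmul_eq_mul]
    nlinarith [Int.natCast_nonneg i, Int.natCast_nonneg d]
  omega

theorem inv_low (c : K) (hd : 0 < d) (y : LaurentSeries K) (hy : zpol K d (X - C c) * y = 1) :
    y.coeff d = 1 := by
  have h1 : zz K d * y = 1 + c • y := by
    have e : zpol K d (X - C c) = zz K d - algebraMap K (LaurentSeries K) c := by
      rw [zpol, map_sub, aeval_X, aeval_C]
    rw [e, sub_mul, ← Algebra.smul_def] at hy
    rw [← hy]
    ring
  have h2 : ∀ m : ℤ, y.coeff (m + d) = (if m = 0 then 1 else 0) + c * y.coeff m := by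
    intro m
    rw [← zz_mul_coeff, h1, HahnSeries.coeff_add, HahnSeries.coeff_one, HahnSeries.coeff_smul,
      smul_eq_mul]
    congr 1
    split_ifs <;> rfl
  obtain ⟨n, hn⟩ := exists_low y
  have h3 : ∀ (j : ℕ) (k : ℤ), k < d → k < -(n : ℤ) + j → y.coeff k = 0 := by
    intro j
    induction j with
    | zero => intro k _ hk; exact hn k (by simpa using hk)
    | succ j ih =>
      intro k hk1 hk2
      have h4 := h2 (k - d)
      rw [sub_add_cancel, if_neg (by omega), ih (k - d) (by omega) (by push_cast at hk2; omega),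
        mul_zero, add_zero] at h4
      exact h4
  have h5 := h2 0
  rw [zero_add, if_pos rfl, h3 (n + 1) 0 (by omega) (by push_cast; omega), mul_zero,
    add_zero] at h5
  exact h5

end ZRFaux

open _root_.Pool.Agent.MG.G0.ZRFaux in
theorem t_ZRF : Stmt_ZRF := by
  intro K _ d b β hd hβ N x hx
  classical
  have hne : ∀ p : K[X], p ≠ 0 → zpol K d p ≠ 0 := by
    intro p hp h
    apply hp
    apply KRK.zpol_inj hd.ne'
    rw [h, map_zero]
  let fl : Fin b → K[X] := fun l => ∏ m ∈ Finset.univ.erase l, (X - C (β m))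
  have hfl : ∀ l, (∏ l, (X - C (β l))) = (X - C (β l)) * fl l := fun l =>
    (Finset.mul_prod_erase Finset.univ (fun m => X - C (β m)) (Finset.mem_univ l)).symm
  let w : Fin b → K := fun l => ∏ m ∈ Finset.univ.erase l, (β l - β m)
  have hw : ∀ l, w l ≠ 0 := by
    intro l
    refine Finset.prod_ne_zero_iff.2 fun m hm => ?_
    rw [sub_ne_zero]
    intro h
    exact (Finset.ne_of_mem_erase hm) (hβ h).symm
  have hev : ∀ l, (fl l).eval (β l) = w l := by
    intro l
    rw [eval_prod]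
    simp [w]
  have hev0 : ∀ l m, m ≠ l → (fl m).eval (β l) = 0 := by
    intro l m hml
    rw [eval_prod]
    refine Finset.prod_eq_zero (i := l) (Finset.mem_erase.2 ⟨Ne.symm hml, Finset.mem_univ _⟩) ?_
    simp
  let a : Fin b → K := fun l => N.eval (β l) * (w l)⁻¹
  obtain ⟨q, hq⟩ : (∏ l, (X - C (β l))) ∣ N - ∑ l, C (a l) * fl l := by
    refine Finset.prod_dvd_of_coprime ?_ ?_
    · intro i _ j _ hij
      exact pairwise_coprime_X_sub_C hβ hij
    · intro l _
      rw [dvd_iff_isRoot, IsRoot, eval_sub, eval_finsetSum, Finset.sum_eq_single l]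
      · rw [eval_mul, eval_C, hev, mul_assoc, inv_mul_cancel₀ (hw l), mul_one, sub_self]
      · intro m _ hm
        rw [eval_mul, hev0 l m hm, mul_zero]
      · intro h
        exact absurd (Finset.mem_univ l) h
  have hf0 : zpol K d (∏ l, (X - C (β l))) ≠ 0 :=
    hne _ (Finset.prod_ne_zero_iff.2 fun l _ => X_sub_C_ne_zero _)
  have hinv : ∀ l, zpol K d (X - C (β l)) * (zpol K d (X - C (β l)))⁻¹ = 1 := fun l =>
    mul_inv_cancel₀ (hne _ (X_sub_C_ne_zero _))
  have hxe : x = zpol K d q + ∑ l, a l • (zpol K d (X - C (β l)))⁻¹ := by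
    apply mul_left_cancel₀ hf0
    rw [hx, mul_add, ← map_mul, ← hq, map_sub, map_sum, Finset.mul_sum, sub_add,
      ← Finset.sum_sub_distrib, Finset.sum_eq_zero, sub_zero]
    intro l _
    have e1 : zpol K d (C (a l) * fl l) = a l • zpol K d (fl l) := by
      rw [← smul_eq_C_mul, map_smul]
    rw [hfl l, e1, map_mul, mul_smul_comm, mul_comm (zpol K d (X - C (β l))), mul_assoc, hinv l,
      mul_one, sub_self]
  rw [hxe, HahnSeries.coeff_add, zpol_coeff_pos q _ (by exact_mod_cast hd), zero_add,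
    HahnSeries.coeff_sum]
  refine Finset.sum_congr rfl fun l _ => ?_
  rw [HahnSeries.coeff_smul, inv_low (β l) hd _ (hinv l), smul_eq_mul, mul_one]

end Pool.Agent.MG.G0


end
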