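import Mathlib
import Pool.Agent.KDM.C13
import Pool.Agent.KDM.C14
import Pool.Agent.KDM.C23
import Pool.Agent.KDM.C24
import Pool.Agent.KDM.C25
import Pool.Agent.KDM.C28
import Pool.Agent.KDM.C30
import Pool.Agent.KDM.C32
import Pool.Agent.KDM.C50
import Pool.Agent.KDM.C54
import Pool.Agent.KDM.Fin

/-! Parts: MG.Fin1, MG.KX.Asm, MG.G0.KGP, MG.G0.MPB, MG.G0.PLF, MG.G0.POX, MG.G0.ZQA -/

section

/-!
# Genus one: a generic curve, and the rings at it
-/

open CategoryTheory CategoryTheory.Limits AlgebraicGeometry TensorProduct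

namespace Pool.Agent.MG.Std

open Pool.Agent.MG.W Pool.Agent.MG.One

section

variable {A B D : Type} [CommRing A] [CommRing B] [CommRing D]

/-- Comparison of regular functions. -/
def Reg.of {g n : ℕ} (F : MG.Reg g n) : Reg g n where
  F A _ _ x hx l := F.F A x ((stable_iff g x).1 hx) (Cov.to l)
  nat A B _ _ _ _ φ x y hx hy a _ _ h :=
    F.nat A B φ x y ((stable_iff g x).1 hx) ((stable_iff g y).1 hy) a _ _
      (fun d' d f hf => h (Defo.of d') (Defo.of d) f hf)

/-- The base change arrow. -/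
noncomputable def warrow {m : ℕ} {φ : A →+* B} {P : WD m A} {P' : WD m B}
    (h : WD.Bc φ P P') : Arrow φ (Wei P') (Wei P) :=
  ⟨wmap φ h, t_WBC φ h.a h.b, fun i => wmap_sec φ h i⟩

theorem wmap_id {m : ℕ} {P : WD m A} {φ : A →+* A} (hφ : φ = RingHom.id A) (h : WD.Bc φ P P) :
    wmap φ h = 𝟙 _ := by
  subst hφ
  refine WX.ext' ?_ ?_
  · refine (WX.in1_map _ h.a h.b).trans ?_
    have e : bc1 (RingHom.id A) h.a h.b = RingHom.id _ := by
      refine hom1_ext (fun c => ?_) ?_ ?_
      · rw [bc1_b]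
        rfl
      · rw [bc1_x]
        rfl
      · rw [bc1_y]
        rfl
    rw [e, WCV.spMap_id, Category.id_comp]
    exact (Category.comp_id _).symm
  · refine (WX.in2_map _ h.a h.b).trans ?_
    have e : bc2 (RingHom.id A) h.a h.b = RingHom.id _ := by
      refine hom2_ext (fun c => ?_) ?_ ?_
      · rw [bc2_b]
        rfl
      · rw [bc2_z]
        rfl
      · rw [bc2_t]
        rfl
    rw [e, WCV.spMap_id, Category.id_comp]
    exact (Category.comp_id _).symm

theorem wmap_comp {m : ℕ} {φ : A →+* B} {ψ : B →+* D} {P : WD m A} {P' : WD m B}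
    {P'' : WD m D} (h : WD.Bc φ P P') (h' : WD.Bc ψ P' P'') (h'' : WD.Bc (ψ.comp φ) P P'') :
    wmap ψ h' ≫ wmap φ h = wmap (ψ.comp φ) h'' :=
  WCV.map_comp φ ψ h.a h.b h'.a h'.b rfl h''.a h''.b

end

section

variable {K : Type} [Field K] [Algebra ℂ K]

theorem fst_comp_epsDer (D : Derivation ℂ K K) : (eps0 K).comp (epsDer D) = RingHom.id K :=
  RingHom.ext fun a => by simp [epsDer]

/-- A Weierstrass family whose coefficients can be moved arbitrarily by derivations is generic. -/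
theorem wei_generic {m : ℕ} (P : WD m K) (hy : ∀ i, P.y i ≠ 0)
    (hD : ∀ (α β : K) (γ : Fin m → K), ∃ D : Derivation ℂ K K, D P.a = α ∧ D P.b = β ∧
      ∀ i, D (P.x i) = γ i) : Generic 1 (Wei P) := by
  intro d
  have hc : CharZero K := charZero_of_injective_algebraMap (algebraMap ℂ K).injective
  obtain ⟨P', hb, f, hf⟩ := we (sqEps K) P six (Defo.to d).thk
  have hb' : WD.Bc (eps0 K) P' P := hb
  obtain ⟨D, h1, h2, h3⟩ := hD P'.a.snd P'.b.snd (fun i => (P'.x i).snd)
  have h4 : ∀ i, D (P.y i) = (P'.y i).snd := by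
    intro i
    have e1 := congrArg TrivSqZeroExt.snd (P'.eq i)
    have e2 := congrArg D (P.eq i)
    have ha : P.a = P'.a.fst := hb'.a
    have hx : P.x i = (P'.x i).fst := hb'.x i
    have hyy : P.y i = (P'.y i).fst := hb'.y i
    rw [pow_two, TrivSqZeroExt.snd_add, TrivSqZeroExt.snd_add, snd_mul', snd_mul',
      pow_succ, pow_two, snd_mul', snd_mul', fst_mul', ← ha, ← hx, ← hyy] at e1
    rw [pow_two, Derivation.leibniz, map_add, map_add, Derivation.leibniz, Derivation.leibniz_pow,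
      h1, h2, h3] at e2
    simp only [smul_eq_mul, nsmul_eq_mul] at e2
    have e3 : (2 * P.y i) * (D (P.y i) - (P'.y i).snd) = 0 := by
      push_cast at e2
      linear_combination e2 - e1
    rcases mul_eq_zero.1 e3 with h | h
    · exact absurd h (mul_ne_zero two_ne_zero (hy i))
    · exact sub_eq_zero.1 h
  have hbc : WD.Bc (epsDer D) P P' := by
    refine ⟨?_, ?_, fun i => ?_, fun i => ?_⟩
    · refine TrivSqZeroExt.ext ?_ ?_
      · have := hb'.a
        simpa [epsDer] using this.symm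
      · simp [epsDer, h1]
    · refine TrivSqZeroExt.ext ?_ ?_
      · have := hb'.b
        simpa [epsDer] using this.symm
      · simp [epsDer, h2]
    · refine TrivSqZeroExt.ext ?_ ?_
      · have := hb'.x i
        simpa [epsDer] using this.symm
      · simp [epsDer, h3]
    · refine TrivSqZeroExt.ext ?_ ?_
      · have := hb'.y i
        simpa [epsDer] using this.symm
      · simp [epsDer, h4]
  have hid : WD.Bc ((eps0 K).comp (epsDer D)) P P := by
    rw [fst_comp_epsDer]
    exact ⟨rfl, rfl, fun _ => rfl, fun _ => rfl⟩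
  let g : Arrow ((RingHom.id (Eps K)).comp (epsDer D)) d.y (Wei P) :=
    PBS.comp f (warrow hbc)
  refine ⟨D, ⟨g.f, g.cart, g.sec⟩, ?_⟩
  have e1 : d.r.f ≫ f.f = wmap (eps0 K) hb' := hf
  change d.r.f ≫ f.f ≫ wmap (epsDer D) hbc = _
  refine Eq.trans (Category.assoc _ _ _).symm ?_
  refine Eq.trans (congrArg (fun q => q ≫ wmap (epsDer D) hbc) e1) ?_
  exact (wmap_comp hbc hb' hid).trans (wmap_id (fst_comp_epsDer D) hid)

end

/-- Polynomials in algebraically independent elements do not vanish. -/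
theorem ai_ne {K : Type} [Field K] [Algebra ℂ K] {N : ℕ} {v : Fin N → K}
    (hv : AlgebraicIndependent ℂ v) (p : MvPolynomial (Fin N) ℂ) (w : Fin N → ℂ)
    (hp : MvPolynomial.eval w p ≠ 0) : MvPolynomial.aeval v p ≠ 0 := by
  intro h
  apply hp
  have h1 : p = 0 :=
    (injective_iff_map_eq_zero (MvPolynomial.aeval v : MvPolynomial (Fin N) ℂ →ₐ[ℂ] K)).1 hv p h
  rw [h1, map_zero]

/-- A generic Weierstrass family. -/
theorem exists_wei (m : ℕ) : ∃ (K : Type) (_ : Field K) (_ : IsAlgClosed K) (_ : Algebra ℂ K)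
    (P : WD m K) (t : K), 4 * P.a ^ 3 + 27 * P.b ^ 2 ≠ 0 ∧ (∀ i, P.y i ≠ 0) ∧
      (∀ i j, i ≠ j → P.x i ≠ P.x j) ∧ AlgebraicIndependent ℂ ![P.a, P.b, t] ∧
      ∀ (α β : K) (γ : Fin m → K), ∃ D : Derivation ℂ K K, D P.a = α ∧ D P.b = β ∧
        ∀ i, D (P.x i) = γ i := by
  obtain ⟨K, i1, i2, i3, v, hv, hD⟩ := exists_field (m + 3)
  have hc : CharZero K := charZero_of_injective_algebraMap (algebraMap ℂ K).injective
  let ia : Fin (m + 3) := ⟨0, by omega⟩
  let ib : Fin (m + 3) := ⟨1, by omega⟩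
  let it : Fin (m + 3) := ⟨2, by omega⟩
  let ix : Fin m → Fin (m + 3) := fun i => ⟨i.1 + 3, by omega⟩
  have hab : ia ≠ ib := by simp [ia, ib]
  have hxa : ∀ i, ix i ≠ ia := fun i => by simp [ix, ia]
  have hxb : ∀ i, ix i ≠ ib := fun i => by simp [ix, ib, Fin.ext_iff]
  have hxx : ∀ i j, i ≠ j → ix i ≠ ix j := fun i j h => by
    simpa [ix, Fin.ext_iff] using h
  have hy : ∀ i, ∃ y : K, y ^ 2 = v (ix i) ^ 3 + v ia * v (ix i) + v ib := fun i =>
    IsAlgClosed.exists_pow_nat_eq _ (by norm_num)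
  choose y hy using hy
  let P : WD m K := ⟨v ia, v ib, fun i => v (ix i), y, hy⟩
  refine ⟨K, i1, i2, i3, P, v it, ?_, fun i => ?_, fun i j hij => ?_, ?_, fun α β γ => ?_⟩
  · have h := ai_ne hv (4 * MvPolynomial.X ia ^ 3 + 27 * MvPolynomial.X ib ^ 2)
      (fun j => if j = ia then 1 else 0) (by
        simp [hab.symm])
    simpa using h
  · intro h0
    have h1 : v (ix i) ^ 3 + v ia * v (ix i) + v ib = 0 := by
      rw [← hy i]
      change P.y i ^ 2 = 0
      rw [h0]
      ring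
    have h := ai_ne hv (MvPolynomial.X (ix i) ^ 3 + MvPolynomial.X ia * MvPolynomial.X (ix i) +
      MvPolynomial.X ib) (fun j => if j = ib then 1 else 0) (by
        simp [hab, hxb])
    apply h
    simpa using h1
  · intro h0
    have h := ai_ne hv (MvPolynomial.X (ix i) - MvPolynomial.X (ix j))
      (fun l => if l = ix i then 1 else 0) (by
        simp [(hxx i j hij).symm])
    apply h
    have h1 : v (ix i) = v (ix j) := h0
    simp [h1]
  · have h := hv.comp ![ia, ib, it] (by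
      intro i j
      fin_cases i <;> fin_cases j <;> simp [ia, ib, it])
    have e : v ∘ ![ia, ib, it] = ![P.a, P.b, v it] := by
      funext i
      fin_cases i <;> rfl
    rwa [e] at h
  · obtain ⟨D, hD⟩ := hD (fun j => if j = ia then α else if j = ib then β else
      if h : 3 ≤ j.1 then γ ⟨j.1 - 3, by omega⟩ else 0)
    refine ⟨D, ?_, ?_, fun i => ?_⟩
    · rw [hD]
      exact if_pos rfl
    · rw [hD]
      rw [if_neg hab.symm, if_pos rfl]
    · change D (v (ix i)) = _
      rw [hD, if_neg (hxa i), if_neg (hxb i), dif_pos (by simp [ix])]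
      congr 1

/-- Genus one, at least two points. -/
theorem rigid_1 (n : ℕ) (hn : 2 ≤ n) : Rigid 1 n := by
  obtain ⟨m, rfl⟩ : ∃ m, n = m + 1 := ⟨n - 1, by omega⟩
  obtain ⟨K, i1, i2, i3, P, t, hd, hy, hx, -, hD⟩ := exists_wei m
  have hc : CharZero K := charZero_of_injective_algebraMap (algebraMap ℂ K).injective
  have h6 : (6 : K) ≠ 0 := by norm_num
  have hst : MG.IsStable 1 (Wei P) := wst.2 P h6 hd (fun i j hij => Or.inl (hx i j hij))
  have hsm : Smooth (Wei P).π := by
    have h := wei_smooth P hd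
    exact SmoothOfRelativeDimension.smooth 1 _
  refine ⟨K, i1, i2, i3, Wei P, (stable_iff 1 _).2 hst, hsm, wei_generic P hy hD, fun F => ?_⟩
  obtain ⟨c, hc⟩ := genus_one (m + 1) hn (Reg.to F)
  exact ⟨c, fun l => hc K (Wei P) hst hsm (Cov.to l)⟩

section

variable {K : Type} [Field K] [Algebra ℂ K] {a b : K}

theorem cov_inj (ha : a ≠ 0) (h : Ideal.span {a, b} = ⊤) {τ τ' : K}
    (he : cov six a b τ = cov six a b τ') : τ = τ' := by
  have hc : CharZero K := charZero_of_injective_algebraMap (algebraMap ℂ K).injective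
  have h1 := cov_is six a b τ (dW six h 0 1) 0 1 Fin.elim0 Fin.elim0 (wcls_dW six h 0 1)
  have h2 := cov_is six a b τ' (dW six h 0 1) 0 1 Fin.elim0 Fin.elim0 (wcls_dW six h 0 1)
  rw [he, h2] at h1
  simp only [WT, Finset.univ_eq_empty, Finset.sum_empty, add_zero, mul_zero, zero_add,
    mul_one] at h1
  exact (mul_left_cancel₀ (mul_ne_zero two_ne_zero ha) h1).symm

/-- The coefficient of a covector. -/
noncomputable def tau (h : Ideal.span {a, b} = ⊤) (l : Cov 1 (Wei (WZ a b))) : K :=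
  (cov_ex six h (Cov.to l)).choose

theorem tau_spec (h : Ideal.span {a, b} = ⊤) (l : Cov 1 (Wei (WZ a b))) :
    Cov.to l = cov six a b (tau h l) :=
  (cov_ex six h (Cov.to l)).choose_spec

/-- Invariant polynomials as functions of the covector. -/
noncomputable def evInv (h : Ideal.span {a, b} = ⊤) :
    Inv →ₐ[ℂ] (Cov 1 (Wei (WZ a b)) → K) :=
  AlgHom.pi fun l => (MvPolynomial.aeval ![a, b, tau h l]).comp Inv.val

theorem evInv_apply (h : Ideal.span {a, b} = ⊤) (p : Inv) (l : Cov 1 (Wei (WZ a b))) :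
    evInv h p l = MvPolynomial.aeval ![a, b, tau h l] p.1 := rfl

theorem evInv_range (hEX : WL.Stmt_EX) (h : Ideal.span {a, b} = ⊤)
    (hx : IsStable 1 (Wei (WZ a b))) : (evInv h).range = Img 1 (Wei (WZ a b)) hx := by
  have hx' := (stable_iff 1 _).1 hx
  refine le_antisymm ?_ ?_
  · rintro φ ⟨p, rfl⟩
    obtain ⟨F, hF⟩ := hEX p.1 p.2
    refine ⟨Reg.of F, fun l => ?_⟩
    change evInv h p l = F.F K (Wei (WZ a b)) hx' (Cov.to l)
    rw [evInv_apply, tau_spec h l, hF K a b (tau h l) hx' h]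
  · rintro φ ⟨F, hF⟩
    refine ⟨⟨poly (Reg.to F), poly_mem _⟩, ?_⟩
    funext l
    rw [hF l]
    change evInv h _ l = (Reg.to F).F K (Wei (WZ a b)) hx' (Cov.to l)
    rw [evInv_apply, tau_spec h l, poly_spec (Reg.to F) a b (tau h l) hx' h]

theorem evInv_inj (h : Ideal.span {a, b} = ⊤) {t : K} (ht : AlgebraicIndependent ℂ ![a, b, t]) :
    Function.Injective (evInv h) := by
  have ha : a ≠ 0 := by
    have := ai_ne ht (MvPolynomial.X 0) (fun _ => 1) (by simp)
    simpa using this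
  rw [injective_iff_map_eq_zero]
  intro p hp
  have h1 := congrFun hp (Cov.of (cov six a b t))
  have h2 : tau h (Cov.of (cov six a b t)) = t := by
    have h3 := tau_spec h (Cov.of (cov six a b t))
    exact (cov_inj ha h h3).symm
  rw [evInv_apply, h2] at h1
  exact Subtype.ext ((injective_iff_map_eq_zero
    (MvPolynomial.aeval ![a, b, t] : MvPolynomial (Fin 3) ℂ →ₐ[ℂ] K)).1 ht p.1 h1)

end

/-- Genus one, one point. -/
theorem answer_11 (hEX : WL.Stmt_EX) : Answer 1 1 2 := by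
  obtain ⟨K, i1, i2, i3, P, t, hd, hy, -, hai, hD⟩ := exists_wei 0
  have hc : CharZero K := charZero_of_injective_algebraMap (algebraMap ℂ K).injective
  have h6 : (6 : K) ≠ 0 := by norm_num
  have ha : P.a ≠ 0 := by
    have := ai_ne hai (MvPolynomial.X 0) (fun _ => 1) (by simp)
    simpa using this
  have hsp : Ideal.span {P.a, P.b} = ⊤ := span_of_unit (Or.inl (IsUnit.mk0 _ ha))
  have hP := WZ_eq P
  have hd' : 4 * (WZ P.a P.b).a ^ 3 + 27 * (WZ P.a P.b).b ^ 2 ≠ 0 := hd
  have hst : MG.IsStable 1 (Wei (WZ P.a P.b)) := stable_of hsp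
  have hsm : Smooth (Wei (WZ P.a P.b)).π := by
    have h := wei_smooth (WZ P.a P.b) hd'
    exact SmoothOfRelativeDimension.smooth 1 _
  have hx := (stable_iff 1 _).2 hst
  refine ⟨K, i1, i2, i3, Wei (WZ P.a P.b), hx, hsm, ?_, ?_⟩
  · exact wei_generic (WZ P.a P.b) (fun i => i.elim0) fun α β γ => by
      obtain ⟨D, h1, h2, -⟩ := hD α β γ
      exact ⟨D, h1, h2, fun i => i.elim0⟩
  · rw [← evInv_range hEX hsp hx, ← krull_Inv]
    exact (ringKrullDim_eq_of_ringEquiv
      (AlgEquiv.ofInjective (evInv hsp) (evInv_inj hsp hai)).toRingEquiv).symm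

end Pool.Agent.MG.Std


end

section

/-!
# From Krichever rings to curves: the functions `Ev`, `Ev0`, and the rigidity of `(g, n)`
-/

open CategoryTheory CategoryTheory.Limits AlgebraicGeometry
open scoped TensorProduct

namespace Pool.Agent.MG.KX

open Pool.Agent.MG.G0 Pool.Agent.MG.GLU

/-- The inputs. -/
structure XIn : Prop where
  kbc : Stmt_KBC
  kbt : Stmt_KBT
  sdb : Stmt_SDB
  kau : Stmt_KAU
  ple : Stmt_PLE
  kbp : Stmt_KBP
  gks : Stmt_GKS
  kst : Stmt_KST
  ksx : Stmt_KSX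
  xar : Stmt_XAR
  xau : Stmt_XAU
  xfg : Stmt_XFG
  win : Stmt_WIN
  kce : Stmt_KCE
  kcf : Stmt_KCF
  kcn : Stmt_KCN
  kcz : Stmt_KCZ
  kca : Stmt_KCA
  kcr : Stmt_KCR
  kcg : Stmt_KCG
  gnx : Stmt_GNX
  gnp : Stmt_GNP
  gnm : Stmt_GNM
  nma : H2.Stmt_NMA

section

variable {I A B : Type} [Fintype I] [Nonempty I] [CommRing A] [CommRing B] {g n : ℕ}

theorem good_bc (h : XIn) {P : Subalgebra A (KK I A)} (hP : G0.Good g P) (φ : A →+* B) :
    G0.Good g (bc φ P) := by
  refine ⟨(h.kbc.2.2.2 hP.1 φ).1, fun κ _ _ ψ => ?_⟩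
  rw [← h.kbc.2.1]
  exact hP.2 κ (ψ.comp φ)

theorem typeS_bc (h : XIn) {K L : Type} [Field K] [Field L] {P : Subalgebra K (KK I K)}
    (hP : IsKr g P) (hS : TypeS P) (φ : K →+* L) : TypeS (bc φ P) := by
  let _ := φ.toAlgebra
  obtain ⟨-, e, -⟩ := h.kbt (B := L) hP
  have h1 := hS.1
  refine ⟨?_, (h.sdb hP hS.2 φ).1⟩
  have h2 : Algebra.FormallySmooth L (L ⊗[K] P) := inferInstance
  exact Algebra.FormallySmooth.of_equiv e

theorem good_S (h : XIn) {K : Type} [Field K] {P : Subalgebra K (KK I K)} (hP : IsKr g P)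
    (hS : TypeS P) : G0.Good g P :=
  ⟨hP, fun _ _ _ φ => Or.inl (typeS_bc h hP hS φ)⟩

omit [Fintype I] [Nonempty I] in
theorem marks_nop (P : Subalgebra A (KK I A)) : Marks P (nop P) :=
  ⟨fun i => i.elim0, fun i => i.elim0⟩

omit [Fintype I] [Nonempty I] in
theorem nop_eq {P : Subalgebra A (KK I A)} (p : Fin 0 → (P →ₐ[A] A)) : p = nop P :=
  funext fun i => i.elim0

end

/-! ## The function `Ev` -/

section

variable {g : ℕ} (h : XIn) (hg : 3 ≤ g) (F : Reg g 0)

include h hg

theorem evx_ex {I A : Type} [Fintype I] [Nonempty I] [CommRing A] [Algebra ℂ A]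
    {P : Subalgebra A (KK I A)} (hP : G0.Good g P) (L : CovL P) :
    ∃ v : A, ∀ (z : Pole P) (hst : IsStable g (xfam z (nop P))) (l : Cov g (xfam z (nop P))),
      IsKC z L l → F.F A (xfam z (nop P)) hst l = v := by
  have hK : KS g P (nop P) := h.gks (nop P) hg hP (marks_nop P)
  obtain ⟨z₀⟩ := (h.ple hP.1).1
  obtain ⟨l₀, hl₀⟩ := h.kce hK z₀ L
  have hs₀ := h.kst hK z₀
  refine ⟨F.F A _ hs₀ l₀, fun z hst l hl => ?_⟩
  obtain ⟨a, ha⟩ := h.kcz hK z₀ z
  exact F.nat A A (AlgHom.id ℂ A) _ _ hs₀ hst a l₀ l (ha L l₀ l hl₀ hl)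

open Classical in
/-- The value of the function. -/
noncomputable def evxV (A I : Type) [CommRing A] [Algebra ℂ A] [Fintype I]
    (P : Subalgebra A (KK I A)) (L : CovL P) : A :=
  if hP : Nonempty I ∧ G0.Good g P then
    (have := hP.1; evx_ex h hg F hP.2 L).choose
  else 0

theorem evxV_spec {A I : Type} [CommRing A] [Algebra ℂ A] [Fintype I] [Nonempty I]
    {P : Subalgebra A (KK I A)} (hP : G0.Good g P) (L : CovL P) (z : Pole P)
    (hst : IsStable g (xfam z (nop P))) (l : Cov g (xfam z (nop P))) (hl : IsKC z L l) :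
    evxV h hg F A I P L = F.F A (xfam z (nop P)) hst l := by
  rw [evxV, dif_pos ⟨inferInstance, hP⟩]
  exact ((evx_ex h hg F hP L).choose_spec z hst l hl).symm

/-- The function on Krichever rings given by a regular function on `T^*M̄_g`. -/
noncomputable def evx : Ev g where
  Φ := evxV h hg F
  nat := by
    intro A B I _ _ _ _ _ _ φ P hP L L' hL
    have hK : KS g P (nop P) := h.gks (nop P) hg hP (marks_nop P)
    have hP' := good_bc h hP (φ : A →+* B)
    have hK' : KS g (bc (φ : A →+* B) P) (nop _) := h.gks (nop _) hg hP' (marks_nop _)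
    obtain ⟨z⟩ := (h.ple hP.1).1
    obtain ⟨z'⟩ := (h.ple hP'.1).1
    obtain ⟨a, ha⟩ := h.kcn (φ : A →+* B) hK z z'
    obtain ⟨l, hl⟩ := h.kce hK z L
    obtain ⟨l', hl'⟩ := h.kce hK' z' L'
    rw [evxV_spec h hg F hP L z (h.kst hK z) l hl,
      evxV_spec h hg F hP' L' z' (h.kst hK' z') l' hl']
    exact F.nat A B φ _ _ _ _ a l l' (ha L L' hL l l' hl hl')
  aut := by
    intro A I _ _ _ _ α hα P P' hP hP' hPP L L' hL
    have e : P' = P.map (α : KK I A →ₐ[A] KK I A) := by
      ext f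
      constructor
      · intro hf
        refine ⟨α.symm f, (hPP _).2 ?_, α.apply_symm_apply f⟩
        rwa [α.apply_symm_apply]
      · rintro ⟨f', hf', rfl⟩
        exact (hPP f').1 hf'
    subst e
    have hK : KS g P (nop P) := h.gks (nop P) hg hP (marks_nop P)
    have hK' : KS g (P.map (α : KK I A →ₐ[A] KK I A)) (nop _) :=
      h.gks (nop _) hg hP' (marks_nop _)
    obtain ⟨z⟩ := (h.ple hP.1).1
    obtain ⟨z'⟩ := (h.ple hP'.1).1
    obtain ⟨a, ha⟩ := h.kca α (hα 0) hK z z'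
    obtain ⟨l, hl⟩ := h.kce hK z L
    obtain ⟨l', hl'⟩ := h.kce hK' z' L'
    rw [evxV_spec h hg F hP L z (h.kst hK z) l hl,
      evxV_spec h hg F hP' L' z' (h.kst hK' z') l' hl']
    exact F.nat A A (AlgHom.id ℂ A) _ _ _ _ a l l' (ha L L' hL l l' hl hl')
  rix := by
    intro A I I' _ _ _ _ _ _ e P P' hP hP' hPP L L' hL
    subst hPP
    have hK : KS g P (nop P) := h.gks (nop P) hg hP (marks_nop P)
    have hK' : KS g (reix e P) (nop _) := h.gks (nop _) hg hP' (marks_nop _)
    obtain ⟨z⟩ := (h.ple hP.1).1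
    obtain ⟨z'⟩ := (h.ple hP'.1).1
    obtain ⟨a, ha⟩ := h.kcr e hK z z'
    obtain ⟨l, hl⟩ := h.kce hK z L
    obtain ⟨l', hl'⟩ := h.kce hK' z' L'
    rw [evxV_spec h hg F hP L z (h.kst hK z) l hl,
      evxV_spec h hg F hP' L' z' (h.kst hK' z') l' hl']
    exact F.nat A A (AlgHom.id ℂ A) _ _ _ _ a l l' (ha L L' hL l l' hl hl')
  forget := by
    intro A I J _ _ _ _ _ P W hW hW' hPP hD L L' hL
    subst hPP
    have hK : KS g W (nop W) := h.gks (nop W) hg hW (marks_nop W)
    have hK' : KS g (Rem W) (nop _) := h.gks (nop _) hg hW' (marks_nop _)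
    obtain ⟨z⟩ := (h.ple hW.1).1
    obtain ⟨z'⟩ := (h.ple hW'.1).1
    obtain ⟨a, ha⟩ := h.kcg hK hK' (h.win hW hD) z z'
    obtain ⟨l, hl⟩ := h.kce hK z L'
    obtain ⟨l', hl'⟩ := h.kce hK' z' L
    rw [evxV_spec h hg F hW L' z (h.kst hK z) l hl,
      evxV_spec h hg F hW' L z' (h.kst hK' z') l' hl']
    exact (F.nat A A (AlgHom.id ℂ A) _ _ _ _ a l l' (ha L L' hL l l' hl hl')).symm

theorem evx_spec {A I : Type} [CommRing A] [Algebra ℂ A] [Fintype I] [Nonempty I]
    {P : Subalgebra A (KK I A)} (hP : G0.Good g P) (L : CovL P) (z : Pole P)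
    (hst : IsStable g (xfam z (nop P))) (l : Cov g (xfam z (nop P))) (hl : IsKC z L l) :
    (evx h hg F).Φ A I P L = F.F A (xfam z (nop P)) hst l :=
  evxV_spec h hg F hP L z hst l hl

end

/-! ## The function `Ev0` -/

theorem compat_zero {g n : ℕ} {A B : Type} [CommRing A] [CommRing B] {φ : A →+* B}
    {y : Fam n B} {x : Fam n A} (a : Arrow φ y x) : Compat a (0 : Cov g y) (0 : Cov g x) :=
  fun _ _ _ _ => (map_zero φ).symm

theorem marks_inj {n : ℕ} {A I : Type} [CommRing A] [Nontrivial A] {P : Subalgebra A (KK I A)}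
    {p : Fin n → (P →ₐ[A] A)} (hp : Marks P p) : Function.Injective p := by
  intro i j hij
  by_contra hne
  have h1 := hp.dis i j hne
  rw [hij, sup_idem] at h1
  have h2 : (1 : P) ∈ RingHom.ker (p j) := by
    rw [h1]
    trivial
  rw [RingHom.mem_ker, map_one] at h2
  exact one_ne_zero h2

/-- Different points give different sections. -/
theorem sec_inj {I K : Type} [Fintype I] [CommRing K] {P : Subalgebra K (KK I K)} (z : Pole P)
    {p q : P →ₐ[K] K} (hpq : spMap (p : P →+* K) ≫ (kDuo z).in1 =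
      spMap (q : P →+* K) ≫ (kDuo z).in1) : p = q := by
  have h1 : spMap (p : P →+* K) = spMap (q : P →+* K) := (cancel_mono (kDuo z).in1).1 hpq
  have h2 := Spec.map_injective h1
  have h3 : (p : P →+* K) = (q : P →+* K) := by
    have := congrArg CommRingCat.Hom.hom h2
    exact this
  exact AlgHom.ext fun f => DFunLike.congr_fun h3 f

/-- The curve is smooth of relative dimension one. -/
theorem xfam_smooth {g : ℕ} (h : XIn) {I K : Type} [Fintype I] [Nonempty I] [Field K] [IsAlgClosed K]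
    {P : Subalgebra K (KK I K)} (hP : IsKr g P) (hS : TypeS P) (z : Pole P)
    (hst : IsStable g (xfam z (nop P))) : SmoothOfRelativeDimension 1 (xfam z (nop P)).π := by
  have := h.ksx (nop P) hP hS.1 z
  exact SmNod.smoothOfRelativeDimension_one _ (CST.stableCurve hst).nodal

/-- The curve has infinitely many points. -/
theorem xfam_inf {g : ℕ} (h : XIn) {I K : Type} [Fintype I] [Nonempty I] [Field K] [IsAlgClosed K]
    {P : Subalgebra K (KK I K)} (hP : IsKr g P) (hS : TypeS P) (z : Pole P) :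
    {s : Sp K ⟶ (xfam z (nop P)).X | s ≫ (xfam z (nop P)).π = 𝟙 (Sp K)}.Infinite := by
  intro hf
  obtain ⟨p, hp⟩ := h.gnm hP hS (hf.toFinset.card + 1)
  have h0 : ∀ i, ((xfam z p).σ i : Sp K ⟶ (xfam z (nop P)).X) ∈ hf.toFinset := fun i =>
    hf.mem_toFinset.2 ((xfam z p).sec i)
  have h1 := Finset.card_le_card_of_injOn (s := Finset.univ) (t := hf.toFinset)
    (fun i => ((xfam z p).σ i : Sp K ⟶ (xfam z (nop P)).X)) (fun i _ => h0 i)
    (fun i _ j _ hij => marks_inj hp (sec_inj z hij))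
  rw [Finset.card_univ, Fintype.card_fin] at h1
  omega

section

variable {g n : ℕ} (h : XIn) (hg : 3 ≤ g) (F : Reg g n)

include h hg

theorem ev0_ex {I A : Type} [Fintype I] [Nonempty I] [CommRing A] [Algebra ℂ A]
    {P : Subalgebra A (KK I A)} (p : Fin n → (P →ₐ[A] A)) (hP : G0.Good g P) (hp : Marks P p) :
    ∃ v : A, ∀ (z : Pole P) (hst : IsStable g (xfam z p)), F.F A (xfam z p) hst 0 = v := by
  have hK : KS g P p := h.gks p hg hP hp
  obtain ⟨z₀⟩ := (h.ple hP.1).1
  have hs₀ := h.kst hK z₀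
  refine ⟨F.F A _ hs₀ 0, fun z hst => ?_⟩
  obtain ⟨a, -⟩ := xar' h.xar (p' := p) (RingHom.id A) hP.1 (h.kbc.2.2.1 P) (fun i f f' hf => by
    have e : f' = f := by
      refine Subtype.ext (hf.trans ?_)
      funext k
      ext m
      rfl
    rw [e]
    rfl) z₀ z
  exact F.nat A A (AlgHom.id ℂ A) _ _ hs₀ hst a 0 0 (compat_zero a)

open Classical in
/-- The value of the function. -/
noncomputable def ev0V : Ev0Fun n := fun _ I _ _ _ P p =>
  if hP : Nonempty I ∧ G0.Good g P ∧ Marks P p then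
    (have := hP.1; ev0_ex h hg F p hP.2.1 hP.2.2).choose
  else 0

theorem ev0V_spec {A I : Type} [CommRing A] [Algebra ℂ A] [Fintype I] [Nonempty I]
    {P : Subalgebra A (KK I A)} (p : Fin n → (P →ₐ[A] A)) (hP : G0.Good g P) (hp : Marks P p)
    (z : Pole P) (hst : IsStable g (xfam z p)) :
    ev0V h hg F A I P p = F.F A (xfam z p) hst 0 := by
  rw [ev0V, dif_pos ⟨inferInstance, hP, hp⟩]
  exact ((ev0_ex h hg F p hP hp).choose_spec z hst).symm

/-- The function on Krichever rings with marked points given by a regular function on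
`T^*M̄_{g,n}`, at the zero covector. -/
noncomputable def ev0 : Ev0 g n where
  Φ := ev0V h hg F
  nat := by
    intro A B I _ _ _ _ _ _ φ P p p' hP hp hpp
    have hP' := good_bc h hP (φ : A →+* B)
    have hb : BcP (φ : A →+* B) p p' := fun i f f' hf => by
      have e : f' = bcMap (φ : A →+* B) P f := Subtype.ext hf
      rw [e]
      exact hpp i f
    have hp' := h.kbp.2 hP.1 (φ : A →+* B) p p' hb hp
    obtain ⟨z⟩ := (h.ple hP.1).1
    obtain ⟨z'⟩ := (h.ple hP'.1).1
    obtain ⟨a, -⟩ := h.xar (φ : A →+* B) hP.1 hb z z'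
    rw [ev0V_spec h hg F p hP hp z (h.kst (h.gks p hg hP hp) z),
      ev0V_spec h hg F p' hP' hp' z' (h.kst (h.gks p' hg hP' hp') z')]
    exact F.nat A B φ _ _ _ _ a 0 0 (compat_zero a)
  aut := by
    intro A I _ _ _ _ α hα P p p' hP hp hP' hp' hpp
    obtain ⟨z⟩ := (h.ple hP.1).1
    obtain ⟨z'⟩ := (h.ple hP'.1).1
    obtain ⟨a, -⟩ := h.xau α hP.1 (hα 0) hpp z z'
    rw [ev0V_spec h hg F p hP hp z (h.kst (h.gks p hg hP hp) z),
      ev0V_spec h hg F p' hP' hp' z' (h.kst (h.gks p' hg hP' hp') z')]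
    exact F.nat A A (AlgHom.id ℂ A) _ _ _ _ a 0 0 (compat_zero a)
  forget := by
    intro A I _ _ _ _ W q p hW hP hq hp hD hqp
    obtain ⟨z⟩ := (h.ple hW.1).1
    obtain ⟨z'⟩ := (h.ple hP.1).1
    obtain ⟨a, -⟩ := h.xfg hW.1 hP.1 (h.win hW hD) (fun i f w h1 h2 => hqp i f w h1 (h2 ()))
      z z'
    rw [ev0V_spec h hg F q hW hq z (h.kst (h.gks q hg hW hq) z),
      ev0V_spec h hg F p hP hp z' (h.kst (h.gks p hg hP hp) z')]
    exact (F.nat A A (AlgHom.id ℂ A) _ _ _ _ a 0 0 (compat_zero a)).symm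
  pos := by
    intro K I _ _ _ _ _ P p p' hP hS hp hp'
    have hG := good_S h hP hS
    obtain ⟨z⟩ := (h.ple hP).1
    have hK0 : KS g P (nop P) := h.gks (nop P) hg hG (marks_nop P)
    have hst := h.kst hK0 z
    have h1 := h.kst (h.gks p hg hG hp) z
    have h2 := h.kst (h.gks p' hg hG hp') z
    rw [ev0V_spec h hg F p hG hp z h1, ev0V_spec h hg F p' hG hp' z h2]
    exact h.nma g (by omega) F (xfam z (nop P)) hst (xfam_smooth h hP hS z hst)
      (xfam_inf h hP hS z) (fun i => (xfam z p).σ i) (fun i => (xfam z p').σ i)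
      (fun i => (xfam z p).sec i) (fun i => (xfam z p').sec i)
      (fun i j hij => marks_inj hp (sec_inj z hij))
      (fun i j hij => marks_inj hp' (sec_inj z hij)) h1 h2

end

end Pool.Agent.MG.KX


end

section

/-!
# Module KGP: poles of order at most `2 g - 1` are enough

Over a field the orders which do not occur form a set with at most `g` elements, and if `n` does not
occur then for every `0 < m < n` one of `m`, `n - m` does not occur, so that `n ≤ 2 g - 1`. The
general case follows by reduction modulo all maximal ideals.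
-/

namespace Pool.Agent.MG.G0

namespace KGP

section field

variable {κ : Type} [CommRing κ]

/-- `n` is the pole order of an element of `P`. -/
def NG (P : Subalgebra κ (KK Unit κ)) (n : ℕ) : Prop :=
  ∃ p ∈ P, p ∈ Pol Unit κ n ∧ (p ()).coeff (-(n : ℤ)) ≠ 0

variable {P : Subalgebra κ (KK Unit κ)}

theorem NG_add (hinv : ∀ a : κ, a ≠ 0 → ∃ b, b * a = 1) {m n : ℕ} (hm : NG P m) (hn : NG P n) :
    NG P (m + n) := by
  obtain ⟨p, hp, hp1, hp2⟩ := hm
  obtain ⟨q, hq, hq1, hq2⟩ := hn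
  refine ⟨p * q, mul_mem hp hq, ?_, ?_⟩
  · have := mul_mem_Pol hp1 hq1
    rwa [← Nat.cast_add] at this
  · have := mul_Pol_lead hp1 hq1 ()
    rw [← Nat.cast_add] at this
    rw [this]
    intro h0
    obtain ⟨b, hb⟩ := hinv _ hp2
    apply hq2
    rw [← one_mul ((q ()).coeff (-(n : ℤ))), ← hb, mul_assoc, h0, mul_zero]

/-- The number of the orders which do not occur is at most `g`. -/
theorem card_le [Nontrivial κ] {g : ℕ} (hP : IsKr g P) (G : Finset ℕ)
    (hG : ∀ n ∈ G, 1 ≤ n ∧ ¬ NG P n) : G.card ≤ g := by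
  classical
  obtain ⟨L, _, hk⟩ := hP.k2
  have hli : LinearIndependent κ (fun n : G => L (mon () (-((n : ℕ) : ℤ)) 1)) := by
    rw [Fintype.linearIndependent_iff]
    intro c hc
    by_contra hcon
    push Not at hcon
    obtain ⟨i0, hi0⟩ := hcon
    obtain ⟨i, hi, hmax⟩ := Finset.exists_max_image (Finset.univ.filter fun i : G => c i ≠ 0)
      (fun i => (i : ℕ)) ⟨i0, by simp [hi0]⟩
    have hci : c i ≠ 0 := (Finset.mem_filter.1 hi).2
    have hmax' : ∀ j : G, (i : ℕ) < j → c j = 0 := by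
      intro j hj
      by_contra hcj
      have := hmax j (Finset.mem_filter.2 ⟨Finset.mem_univ j, hcj⟩)
      omega
    have h1 : L (∑ n : G, mon () (-((n : ℕ) : ℤ)) (c n)) = 0 := by
      rw [map_sum, ← hc]
      refine Finset.sum_congr rfl fun n _ => ?_
      rw [← map_smul, smul_mon, mul_one]
    obtain ⟨p, hp, hp0⟩ := (hk _).1 h1
    have hcoef : ∀ k : ℕ, 1 ≤ k → (p ()).coeff (-(k : ℤ)) =
        ∑ n : G, if (n : ℕ) = k then c n else 0 := by
      intro k hk1
      have h2 := hp0 () (-(k : ℤ)) (by omega)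
      rw [Pi.sub_apply, HahnSeries.coeff_sub, sub_eq_zero, Finset.sum_apply,
        HahnSeries.coeff_sum] at h2
      rw [← h2]
      refine Finset.sum_congr rfl fun n _ => ?_
      rw [mon_coeff_self]
      by_cases h3 : (n : ℕ) = k
      · rw [if_pos h3, if_pos (by omega)]
      · rw [if_neg h3, if_neg (by omega)]
    refine (hG i i.2).2 ⟨p, hp, ?_, ?_⟩
    · intro u m hm
      have h4 : m = -((m.natAbs : ℕ) : ℤ) := by omega
      rw [h4]
      have h5 := hcoef m.natAbs (by omega)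
      show (p ()).coeff _ = 0
      rw [h5]
      refine Finset.sum_eq_zero fun n _ => ?_
      split_ifs with h6
      · exact hmax' n (by omega)
      · rfl
    · rw [hcoef _ (hG i i.2).1, Finset.sum_eq_single i]
      · rw [if_pos rfl]
        exact hci
      · intro j _ hj
        rw [if_neg]
        intro h7
        exact hj (Subtype.ext h7)
      · intro h
        exact absurd (Finset.mem_univ i) h
  have h8 := hli.fintype_card_le_finrank
  rw [Module.finrank_fin_fun, Fintype.card_coe] at h8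
  exact h8

/-- All orders from `2 g` on occur. -/
theorem NG_of_le [Nontrivial κ] (hinv : ∀ a : κ, a ≠ 0 → ∃ b, b * a = 1) {g : ℕ}
    (hP : IsKr g P) {n : ℕ} (hn1 : 1 ≤ n) (hn : 2 * g ≤ n) : NG P n := by
  classical
  by_contra hcon
  set Gs := (Finset.Icc 1 (n - 1)).filter fun m => ¬ NG P m with hGs
  have h1 : Finset.Icc 1 (n - 1) ⊆ Gs ∪ Gs.image fun m => n - m := by
    intro m hm
    rw [Finset.mem_Icc] at hm
    by_cases h2 : NG P m
    · have h3 : ¬ NG P (n - m) := by
        intro h3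
        apply hcon
        have h4 := NG_add hinv h2 h3
        rwa [Nat.add_sub_cancel' (by omega)] at h4
      refine Finset.mem_union_right _ (Finset.mem_image.2 ⟨n - m, ?_, by omega⟩)
      rw [hGs, Finset.mem_filter, Finset.mem_Icc]
      exact ⟨by omega, h3⟩
    · refine Finset.mem_union_left _ ?_
      rw [hGs, Finset.mem_filter, Finset.mem_Icc]
      exact ⟨by omega, h2⟩
  have h5 := Finset.card_le_card h1
  have h6 := Finset.card_union_le Gs (Gs.image fun m => n - m)
  have h7 : (Gs.image fun m => n - m).card ≤ Gs.card := Finset.card_image_le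
  rw [Nat.card_Icc] at h5
  have h8 : n ∉ Gs := by
    rw [hGs, Finset.mem_filter, Finset.mem_Icc]
    omega
  have h9 : (insert n Gs).card ≤ g := by
    refine card_le hP _ fun m hm => ?_
    rcases Finset.mem_insert.1 hm with rfl | hm
    · exact ⟨hn1, hcon⟩
    · rw [hGs, Finset.mem_filter, Finset.mem_Icc] at hm
      exact ⟨hm.1.1, hm.2⟩
  rw [Finset.card_insert_of_notMem h8] at h9
  omega

theorem dense_field [Nontrivial κ] (hinv : ∀ a : κ, a ≠ 0 → ∃ b, b * a = 1) {g : ℕ}
    (hg : 1 ≤ g) (hP : IsKr g P) : Dense P (2 * g - 1) := by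
  have key : ∀ (N : ℕ) (f : KK Unit κ), f ∈ Pol Unit κ (2 * g - 1 + N) →
      ∃ p ∈ P, f - p ∈ Pol Unit κ (2 * g - 1) := by
    intro N
    induction N with
    | zero =>
      intro f hf
      refine ⟨0, zero_mem P, ?_⟩
      rw [sub_zero]
      simpa using hf
    | succ N ih =>
      intro f hf
      obtain ⟨q, hq, hq1, hq2⟩ := NG_of_le hinv hP (n := 2 * g + N) (by omega) (by omega)
      obtain ⟨b, hb⟩ := hinv _ hq2
      have h1 : f - ((f ()).coeff (-((2 * g + N : ℕ) : ℤ)) * b) • q ∈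
          Pol Unit κ (2 * g - 1 + N) := by
        intro u m hm
        show ((f ()) - ((f ()).coeff (-((2 * g + N : ℕ) : ℤ)) * b) • (q ())).coeff m = 0
        rw [HahnSeries.coeff_sub, HahnSeries.coeff_smul, smul_eq_mul]
        by_cases h2 : m = -((2 * g + N : ℕ) : ℤ)
        · rw [h2, mul_assoc, hb, mul_one, sub_self]
        · rw [hf () m (by push_cast at h2 ⊢; omega), hq1 () m (by push_cast at h2 ⊢; omega),
            mul_zero, sub_zero]
      obtain ⟨p, hp, hp1⟩ := ih _ h1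
      refine ⟨p + ((f ()).coeff (-((2 * g + N : ℕ) : ℤ)) * b) • q,
        add_mem hp (P.smul_mem hq _), ?_⟩
      rwa [sub_add_eq_sub_sub_swap]
  intro f
  obtain ⟨n, hn⟩ := exists_Pol f
  exact key n f (Pol_mono (by omega) hn)

end field

/-- Lifts of series along a surjection. -/
theorem exists_lift {I A B : Type} [CommRing A] [CommRing B] (φ : A →+* B)
    (hφ : Function.Surjective φ) (n : ℤ) (f : KK I B) (hf : f ∈ Pol I B n) :
    ∃ h ∈ Pol I A n, kmap φ h = f := by
  classical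
  let s : B → A := fun b => if b = 0 then 0 else (hφ b).choose
  have hs0 : s 0 = 0 := if_pos rfl
  have hs : ∀ b, φ (s b) = b := by
    intro b
    by_cases hb : b = 0
    · rw [hb, hs0, map_zero]
    · have : s b = (hφ b).choose := if_neg hb
      rw [this]
      exact (hφ b).choose_spec
  let h : KK I A := fun i => HahnSeries.ofSuppBddBelow (fun m => s ((f i).coeff m)) (by
    refine ⟨-n, fun m hm => ?_⟩
    by_contra hc
    apply hm
    show s ((f i).coeff m) = 0
    rw [hf i m (by omega), hs0])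
  have hc : ∀ i m, (h i).coeff m = s ((f i).coeff m) := fun i m => rfl
  refine ⟨h, fun i m hm => ?_, ?_⟩
  · rw [hc, hf i m hm, hs0]
  · funext i
    ext m
    rw [kmap_apply, lmap_coeff, hc, hs]

theorem dense {A : Type} [CommRing A] (hKFO : Stmt_KFO) (hKBC : Stmt_KBC) {g : ℕ} (hg : 1 ≤ g)
    {P : Subalgebra A (KK Unit A)} (hP : IsKr g P) : Dense P (2 * g - 1) := by
  obtain ⟨ω, hω⟩ := (hKFO hP).1
  let W : Submodule A (Fin g → A) :=
    { carrier := {c | ∃ h ∈ Pol Unit A (2 * g - 1), ∀ j, res (ω j * h) = c j}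
      add_mem' := by
        rintro c c' ⟨h, hh, hc⟩ ⟨h', hh', hc'⟩
        exact ⟨h + h', add_mem hh hh', fun j => by
          rw [mul_add, map_add, hc, hc', Pi.add_apply]⟩
      zero_mem' := ⟨0, zero_mem _, fun j => by rw [mul_zero, map_zero, Pi.zero_apply]⟩
      smul_mem' := by
        rintro a c ⟨h, hh, hc⟩
        exact ⟨a • h, Submodule.smul_mem _ a hh, fun j => by
          rw [mul_smul_comm, map_smul, hc, Pi.smul_apply]⟩ }
  have hW : ∀ c : Fin g → A, c ∈ W := by
    let J : Ideal A :=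
      { carrier := {r | ∀ x : Fin g → A, r • x ∈ W}
        add_mem' := fun {a b} ha hb x => by
          rw [add_smul]
          exact W.add_mem (ha x) (hb x)
        zero_mem' := fun x => by
          rw [zero_smul]
          exact W.zero_mem
        smul_mem' := fun a r hr x => by
          rw [smul_eq_mul, mul_smul]
          exact W.smul_mem a (hr x) }
    by_cases hJ : J = ⊤
    · intro c
      have h1 : (1 : A) ∈ J := by
        rw [hJ]
        trivial
      have h2 := h1 c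
      rwa [one_smul] at h2
    · exfalso
      obtain ⟨m, hm, hJm⟩ := Ideal.exists_le_maximal J hJ
      let φ : A →+* A ⧸ m := Ideal.Quotient.mk m
      have hφ : Function.Surjective φ := Ideal.Quotient.mk_surjective
      have hfld : IsField (A ⧸ m) :=
        (Ideal.Quotient.maximal_ideal_iff_isField_quotient m).1 hm
      have hnt : Nontrivial (A ⧸ m) := hfld.nontrivial
      have hinv : ∀ a : A ⧸ m, a ≠ 0 → ∃ b, b * a = 1 := by
        intro a ha
        obtain ⟨b, hb⟩ := hfld.mul_inv_cancel ha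
        exact ⟨b, by rw [mul_comm, hb]⟩
      obtain ⟨hPk, hωk, _⟩ := hKBC.2.2.2 hP φ
      have hF := hωk ω hω
      have hD := dense_field hinv hg hPk
      have htop : (⊤ : Submodule A (Fin g → A)) ≤ W ⊔ m • (⊤ : Submodule A (Fin g → A)) := by
        intro c _
        obtain ⟨f, hf⟩ := hF.surj fun j => φ (c j)
        obtain ⟨p, hp, hfp⟩ := hD f
        obtain ⟨h, hh, hhf⟩ := exists_lift φ hφ _ _ hfp
        have h3 : ∀ j, φ (res (ω j * h)) = φ (c j) := by
          intro j
          rw [← res_kmap, map_mul, hhf, mul_sub, map_sub, hf j,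
            (hF.ker p).2 ⟨p, hp, by rw [sub_self]; exact zero_mem _⟩ j, sub_zero]
        have h4 : c = (fun j => res (ω j * h)) + ∑ j, (c j - res (ω j * h)) •
            (Pi.single j (1 : A) : Fin g → A) := by
          funext k
          rw [Pi.add_apply, Finset.sum_apply, Finset.sum_eq_single k]
          · simp
          · intro j _ hj
            simp [Pi.single_apply, hj.symm]
          · intro hk
            exact absurd (Finset.mem_univ k) hk
        rw [h4]
        refine Submodule.add_mem_sup ⟨h, hh, fun j => rfl⟩ (Submodule.sum_mem _ fun j _ => ?_)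
        refine Submodule.smul_mem_smul ?_ trivial
        rw [← Ideal.Quotient.eq_zero_iff_mem]
        show φ (c j - res (ω j * h)) = 0
        rw [map_sub, h3, sub_self]
      obtain ⟨r, hr, hrW⟩ := Submodule.exists_sub_one_mem_and_smul_le_of_fg_of_le_sup
        (I := m) (N := W) (N' := ⊤) (P := ⊤) Module.Finite.fg_top le_rfl htop
      have hrJ : r ∈ J := fun x => hrW (Submodule.smul_mem_pointwise_smul x r ⊤ trivial)
      apply hm.ne_top
      rw [Ideal.eq_top_iff_one]
      have h5 := m.sub_mem (hJm hrJ) hr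
      rwa [sub_sub_cancel] at h5
  intro f
  obtain ⟨h, hh, hc⟩ := hW fun j => res (ω j * f)
  obtain ⟨p, hp, hp0⟩ := (hω.ker (f - h)).1 fun j => by
    rw [mul_sub, map_sub, hc, sub_self]
  refine ⟨p, hp, ?_⟩
  have e : f - p = (f - h - p) + h := by abel
  rw [e]
  exact add_mem (Pol_mono (by omega) hp0) hh

end KGP

theorem t_KGP (hKFO : Stmt_KFO) (_hKNZ : Stmt_KNZ) (hKBC : Stmt_KBC) : Stmt_KGP := by
  intro A _ g R hg hR
  exact KGP.dense hKFO hKBC hg hR

end Pool.Agent.MG.G0


end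

section

/-!
# MPB: base change of plumbed curves (PAPER_M.md, MPB)
-/

namespace Pool.Agent.MG.G0

namespace MPB

section

variable {I J A B C : Type} [CommRing A] [CommRing B] [CommRing C]

theorem id_congr {P : Subalgebra A (KK I A)} {p p' : FPt P} (h : p.h = p'.h) : p.id = p'.id := by
  unfold FPt.id
  rw [h]

theorem hat_congr {P : Subalgebra A (KK I A)} {pt pt' : J → FPt P}
    (h : ∀ j, (pt j).h = (pt' j).h) (r : P) : hat pt r = hat pt' r := by
  funext k
  rcases k with i | j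
  · rfl
  · rw [hat_inr, hat_inr, h j]

theorem Ipt_congr {P : Subalgebra A (KK I A)} {pt pt' : J → FPt P}
    (h : ∀ j, (pt j).h = (pt' j).h) : Ipt pt = Ipt pt' := by
  unfold Ipt
  exact iInf_congr fun j => id_congr (h j)

theorem WJ_congr {P : Subalgebra A (KK I A)} {pt pt' : J → FPt P}
    (h : ∀ j, (pt j).h = (pt' j).h) : WJ pt = WJ pt' := by
  ext w
  rw [mem_WJ, mem_WJ, Ipt_congr h]
  simp only [hat_congr h]

theorem Disj_congr {P : Subalgebra A (KK I A)} {pt pt' : J → FPt P}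
    (h : ∀ j, (pt j).h = (pt' j).h) (hd : Disj pt) : Disj pt' := by
  intro j k hjk
  rw [← id_congr (h j), ← id_congr (h k)]
  exact hd j k hjk

theorem PT_congr {P : Subalgebra A (KK I A)} {pt pt' : Bool → FPt P}
    (h : ∀ j, (pt j).h = (pt' j).h) (t : A) : PT pt t = PT pt' t := by
  ext f
  rw [mem_PT, mem_PT, WJ_congr h]

theorem kmap_id (f : KK I A) : kmap (RingHom.id A) f = f := by
  funext i
  ext n
  rw [kmap_apply, lmap_coeff, RingHom.id_apply]

theorem map_id (f : PowerSeries A) : PowerSeries.map (RingHom.id A) f = f := by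
  ext n
  rw [PowerSeries.coeff_map, RingHom.id_apply]

theorem kmap_comp (φ : A →+* B) (ψ : B →+* C) (f : KK I A) :
    kmap (ψ.comp φ) f = kmap ψ (kmap φ f) := by
  funext i
  ext n
  rw [kmap_apply, lmap_coeff, kmap_apply, lmap_coeff, kmap_apply, lmap_coeff, RingHom.comp_apply]

theorem map_comp (φ : A →+* B) (ψ : B →+* C) (f : PowerSeries A) :
    PowerSeries.map (ψ.comp φ) f = PowerSeries.map ψ (PowerSeries.map φ f) := by
  ext n
  rw [PowerSeries.coeff_map, PowerSeries.coeff_map, PowerSeries.coeff_map, RingHom.comp_apply]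

theorem kmap_alg (φ : A →+* B) (a : A) :
    kmap φ (algebraMap A (KK I A) a) = algebraMap B (KK I B) (φ a) := by
  funext i
  ext n
  rw [kmap_apply, lmap_coeff, Pi.algebraMap_apply, Pi.algebraMap_apply, coeff_algebraMap,
    coeff_algebraMap]
  split_ifs
  · rfl
  · exact map_zero φ

theorem map_alg (φ : A →+* B) (a : A) :
    PowerSeries.map φ (algebraMap A (PowerSeries A) a) = algebraMap B (PowerSeries B) (φ a) := by
  ext n
  rw [PowerSeries.coeff_map, PowerSeries.algebraMap_apply, PowerSeries.algebraMap_apply,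
    Algebra.algebraMap_self, Algebra.algebraMap_self, RingHom.id_apply, RingHom.id_apply,
    PowerSeries.coeff_C, PowerSeries.coeff_C]
  split_ifs
  · rfl
  · exact map_zero φ

/-- Two ring homomorphisms on `bc φ P` agree if they agree on the constants and on `P`. -/
theorem hom_ext {S : Type} [CommRing S] (φ : A →+* B) (P : Subalgebra A (KK I A))
    (F G : bc φ P →+* S) (hc : ∀ b : B, F (algebraMap B (bc φ P) b) = G (algebraMap B (bc φ P) b))
    (hP : ∀ f : P, F (bcMap φ P f) = G (bcMap φ P f)) : F = G := by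
  refine RingHom.ext fun f => ?_
  obtain ⟨f, hf⟩ := f
  have key : ∀ (x : KK I B) (hx : x ∈ Algebra.adjoin B (kmap φ '' (P : Set (KK I A)))),
      F (⟨x, hx⟩ : bc φ P) = G (⟨x, hx⟩ : bc φ P) := by
    intro x hx
    refine Algebra.adjoin_induction (p := fun x hx => F (⟨x, hx⟩ : bc φ P) = G (⟨x, hx⟩ : bc φ P))
      ?_ ?_ ?_ ?_ hx
    · rintro y ⟨p, hp, rfl⟩
      exact hP ⟨p, hp⟩
    · intro b
      exact hc b
    · intro y z hy hz h1 h2
      have := congrArg₂ (· + ·) h1 h2
      simp only [← map_add] at this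
      exact this
    · intro y z hy hz h1 h2
      have := congrArg₂ (· * ·) h1 h2
      simp only [← map_mul] at this
      exact this
  exact key f hf

theorem h_eq (φ : A →+* B) {R : Subalgebra A (KK I A)} {p : FPt R} {p' p'' : FPt (bc φ R)}
    (h' : ∀ f : R, p'.h (bcMap φ R f) = PowerSeries.map φ (p.h f))
    (h'' : ∀ f : R, p''.h (bcMap φ R f) = PowerSeries.map φ (p.h f)) : p'.h = p''.h := by
  have e : (p'.h : bc φ R →+* PowerSeries B) = (p''.h : bc φ R →+* PowerSeries B) := by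
    refine hom_ext φ R _ _ (fun b => ?_) fun f => ?_
    · exact (p'.h.commutes b).trans (p''.h.commutes b).symm
    · exact (h' f).trans (h'' f).symm
  exact AlgHom.ext fun x => RingHom.congr_fun e x

theorem comp_h (φ : A →+* B) (ψ : B →+* C) {R : Subalgebra A (KK I A)} {p : FPt R}
    {p' : FPt (bc φ R)} {p'' : FPt (bc ψ (bc φ R))}
    (h' : ∀ f : R, p'.h (bcMap φ R f) = PowerSeries.map φ (p.h f))
    (h'' : ∀ (f : R) (f'' : bc ψ (bc φ R)), (f'' : KK I C) = kmap (ψ.comp φ) (f : KK I A) →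
      p''.h f'' = PowerSeries.map (ψ.comp φ) (p.h f)) (f' : bc φ R) :
    p''.h (bcMap ψ (bc φ R) f') = PowerSeries.map ψ (p'.h f') := by
  have e : (p''.h : bc ψ (bc φ R) →+* PowerSeries C).comp (bcMap ψ (bc φ R)) =
      (PowerSeries.map ψ).comp (p'.h : bc φ R →+* PowerSeries B) := by
    refine hom_ext φ R _ _ (fun b => ?_) fun f => ?_
    · have e1 : bcMap ψ (bc φ R) (algebraMap B (bc φ R) b) =
          algebraMap C (bc ψ (bc φ R)) (ψ b) := Subtype.ext (kmap_alg ψ b)
      change p''.h (bcMap ψ (bc φ R) (algebraMap B (bc φ R) b)) =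
        PowerSeries.map ψ (p'.h (algebraMap B (bc φ R) b))
      rw [e1, AlgHom.commutes, AlgHom.commutes, map_alg]
    · change p''.h (bcMap ψ (bc φ R) (bcMap φ R f)) = PowerSeries.map ψ (p'.h (bcMap φ R f))
      rw [h' f, h'' f _ (kmap_comp φ ψ (f : KK I A)).symm, map_comp]
  exact RingHom.congr_fun e f'

end

end MPB

theorem t_MPB (hKBC : Stmt_KBC) (hAWB : Stmt_AWB) (hAYE : Stmt_AYE) (hAWK : Stmt_AWK)
    (hPL2 : Stmt_PL2) : Stmt_MPB := by
  intro I A _ _ _ h R hR hS pt hd
  refine ⟨?_, ?_, ?_, ?_⟩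
  · intro B _ φ R' pt' hb
    obtain ⟨e, -⟩ := hb true
    subst e
    obtain ⟨hex, hW⟩ := hAWB hR φ
    choose pt'' hpt'' _ using fun b => hex (pt b)
    have hh : ∀ b, (pt'' b).h = (pt' b).h := fun b =>
      MPB.h_eq φ (hpt'' b).1 fun f => (hb b).2 f _ rfl
    obtain ⟨hD, -, -⟩ := hW hS pt pt'' hpt'' hd
    refine ⟨MPB.Disj_congr hh hD, fun t ht => ?_⟩
    rw [← MPB.PT_congr hh]
    exact hPL2.1 hR hS pt hd t ht φ pt'' hpt''
  · intro B C _ _ φ ψ R' R'' pt' pt'' hb hc b
    obtain ⟨e, -⟩ := hb true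
    subst e
    have e2 : R'' = bc ψ (bc φ R) := (hc true).1.trans (hKBC.2.1 φ ψ R)
    subst e2
    refine ⟨rfl, fun f' f'' hf => ?_⟩
    have e3 : f'' = bcMap ψ (bc φ R) f' := Subtype.ext hf
    rw [e3]
    exact MPB.comp_h φ ψ (p := pt b) (fun f => (hb b).2 f _ rfl) (fun f f'' h => (hc b).2 f f'' h)
      f'
  · intro R' pt' hb t
    have e : R' = R := (hb true).1.trans (hKBC.2.2.1 R)
    subst e
    refine MPB.PT_congr (fun b => AlgHom.ext fun f => ?_) t
    rw [(hb b).2 f f (MPB.kmap_id _).symm, MPB.map_id]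
  · intro B _ φ pt' hb b
    refine ⟨rfl, fun f f' hf => ?_⟩
    have e3 : f' = bcMap φ R f := Subtype.ext hf
    rw [e3]
    exact (hb b).1 f

end Pool.Agent.MG.G0


end

section

/-!
# PLF (PAPER.md, L2): restriction of formal points, forgetting punctures of a plumbed curve
-/

namespace Pool.Agent.MG.G0

namespace PLF

section one

variable {A : Type} [CommRing A]

theorem psl_low (f : PowerSeries A) : ∀ m < 0, (psl A f).coeff m = 0 := fun m hm => by
  rw [psl, PowerSeries.coeff_coe, if_pos hm]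

theorem psl_coeff (f : PowerSeries A) (n : ℕ) :
    (psl A f).coeff (n : ℤ) = PowerSeries.coeff n f := by
  rw [psl, PowerSeries.coeff_coe, if_neg (by omega), Int.natAbs_natCast]

theorem psl_low_of {f : PowerSeries A} {n : ℕ} (h : ∀ m < n, PowerSeries.coeff m f = 0) :
    ∀ m < (n : ℤ), (psl A f).coeff m = 0 := fun m hm => by
  by_cases h0 : m < 0
  · exact psl_low f m h0
  · obtain ⟨k, rfl⟩ := Int.eq_ofNat_of_zero_le (not_lt.1 h0)
    rw [psl_coeff]
    exact h k (by omega)

theorem single_mul_single_neg :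
    (HahnSeries.single (1 : ℤ) (1 : A)) * HahnSeries.single (-1 : ℤ) (1 : A) = 1 := by
  rw [HahnSeries.single_mul_single, add_neg_cancel, one_mul]
  rfl

/-- A power series `u · unit`. -/
theorem exists_unit {f : PowerSeries A} (h0 : PowerSeries.constantCoeff f = 0)
    (h1 : IsUnit (PowerSeries.coeff 1 f)) : ∃ t t' : PowerSeries A, f = PowerSeries.X * t ∧
      t * t' = 1 := by
  obtain ⟨t, ht⟩ := PowerSeries.X_dvd_iff.2 h0
  have h2 : IsUnit t := by
    rw [PowerSeries.isUnit_iff_constantCoeff, ← PowerSeries.coeff_zero_eq_constantCoeff_apply]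
    have h3 := PowerSeries.coeff_succ_X_mul 0 t
    rw [← ht] at h3
    rw [← h3]
    exact h1
  obtain ⟨t', ht'⟩ := h2.exists_right_inv
  exact ⟨t, t', ht, ht'⟩

theorem psl_X : psl A PowerSeries.X = HahnSeries.single 1 1 := HahnSeries.ofPowerSeries_X

theorem isUnit_psl {f : PowerSeries A} (h0 : PowerSeries.constantCoeff f = 0)
    (h1 : IsUnit (PowerSeries.coeff 1 f)) : IsUnit (psl A f) := by
  obtain ⟨t, t', ht, htt⟩ := exists_unit h0 h1
  have h2 : psl A f * (HahnSeries.single (-1 : ℤ) (1 : A) * psl A t') = 1 := by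
    rw [ht, map_mul, psl_X]
    have e1 : HahnSeries.single 1 1 * psl A t * (HahnSeries.single (-1 : ℤ) (1 : A) * psl A t') =
        (HahnSeries.single 1 1 * HahnSeries.single (-1 : ℤ) (1 : A)) * (psl A t * psl A t') := by
      ring
    rw [e1, single_mul_single_neg, ← map_mul, htt, map_one, one_mul]
  exact IsUnit.of_mul_eq_one _ h2

theorem mem_Ipt {I J : Type} {P : Subalgebra A (KK I A)} {pt : J → FPt P} {r : P} :
    r ∈ Ipt pt ↔ ∀ j, PowerSeries.constantCoeff ((pt j).h r) = 0 := by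
  rw [Ipt, Ideal.mem_iInf]
  rfl

theorem Pol_zero_iff {I : Type} {f : KK I A} :
    f ∈ Pol I A 0 ↔ ∀ i, ∀ m < 0, (f i).coeff m = 0 := by
  rw [mem_Pol]
  constructor
  · intro h i m hm
    exact h i m (by omega)
  · intro h i m hm
    exact h i m (by omega)

end one

/-! ## The inclusion of the regular functions -/

section lift

variable {I J A : Type} [CommRing A] {Q : Subalgebra A (KK (I ⊕ J) A)}
  {R : Subalgebra A (KK I A)}

theorem atI_eq (F : Forget Q R) {q q' : Q}
    (h : ∀ i, (q : KK (I ⊕ J) A) (Sum.inl i) = (q' : KK (I ⊕ J) A) (Sum.inl i)) : q = q' := by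
  have h1 := F.inj ((q : KK (I ⊕ J) A) - q') (sub_mem q.2 q'.2) fun i =>
    sub_eq_zero.2 (h i)
  exact Subtype.ext (sub_eq_zero.1 h1)

theorem exists_lift (F : Forget Q R) (r : R) : ∃ q : Q,
    (∀ i, (q : KK (I ⊕ J) A) (Sum.inl i) = (r : KK I A) i) ∧
      ∀ j, ∀ m < 0, ((q : KK (I ⊕ J) A) (Sum.inr j)).coeff m = 0 := by
  have h0 : ∀ f ∈ R, f ∈ Rem Q := fun f hf => by rwa [← F.eq]
  have h1 := h0 r r.2
  obtain ⟨w, hw, h2, h3⟩ := h1
  exact ⟨⟨w, hw⟩, h3, h2⟩

/-- The extension of a function which is regular at `J`. -/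
noncomputable def ext (F : Forget Q R) (r : R) : Q := (exists_lift F r).choose

theorem ext_I (F : Forget Q R) (r : R) (i : I) :
    (ext F r : KK (I ⊕ J) A) (Sum.inl i) = (r : KK I A) i := (exists_lift F r).choose_spec.1 i

theorem ext_J (F : Forget Q R) (r : R) (j : J) :
    ∀ m < 0, ((ext F r : KK (I ⊕ J) A) (Sum.inr j)).coeff m = 0 :=
  (exists_lift F r).choose_spec.2 j

/-- The inclusion of the functions which are regular at `J`. -/
noncomputable def io (F : Forget Q R) : R →ₐ[A] Q where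
  toFun := ext F
  map_one' := atI_eq F fun i => ext_I F 1 i
  map_zero' := atI_eq F fun i => ext_I F 0 i
  map_mul' r r' := atI_eq F fun i => by
    refine (ext_I F (r * r') i).trans ?_
    change (r : KK I A) i * (r' : KK I A) i =
      (ext F r : KK (I ⊕ J) A) (Sum.inl i) * (ext F r' : KK (I ⊕ J) A) (Sum.inl i)
    rw [ext_I, ext_I]
  map_add' r r' := atI_eq F fun i => by
    refine (ext_I F (r + r') i).trans ?_
    change (r : KK I A) i + (r' : KK I A) i =
      (ext F r : KK (I ⊕ J) A) (Sum.inl i) + (ext F r' : KK (I ⊕ J) A) (Sum.inl i)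
    rw [ext_I, ext_I]
  commutes' a := atI_eq F fun i => ext_I F (algebraMap A R a) i

theorem io_I (F : Forget Q R) (r : R) (i : I) :
    (io F r : KK (I ⊕ J) A) (Sum.inl i) = (r : KK I A) i := ext_I F r i

theorem io_J (F : Forget Q R) (r : R) (j : J) :
    ∀ m < 0, ((io F r : KK (I ⊕ J) A) (Sum.inr j)).coeff m = 0 := ext_J F r j

theorem exists_io (F : Forget Q R) (w : Q)
    (hw : ∀ j, ∀ m < 0, ((w : KK (I ⊕ J) A) (Sum.inr j)).coeff m = 0) : ∃ r : R, io F r = w := by
  have h1 : atI (w : KK (I ⊕ J) A) ∈ Rem Q := ⟨w, w.2, hw, fun i => rfl⟩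
  rw [← F.eq] at h1
  exact ⟨⟨_, h1⟩, atI_eq F fun i => io_I F ⟨_, h1⟩ i⟩

theorem split_mul {X : Type} [CommRing X] {x y z w : X} (h : z * w = 1) :
    x * y - 1 = (x - z) * y + z * (y - w) := by linear_combination h

theorem single_neg_mul_single (n : ℤ) :
    HahnSeries.single (-n) (1 : A) * HahnSeries.single n (1 : A) = 1 := by
  rw [HahnSeries.single_mul_single, neg_add_cancel, one_mul]
  rfl

theorem mul_sub_one_low {x y : LaurentSeries A} {n : ℤ}
    (hx : ∀ m < 0, x.coeff m = (HahnSeries.single (-n) (1 : A)).coeff m)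
    (hy : ∀ m < 2 * n, y.coeff m = (HahnSeries.single n (1 : A)).coeff m)
    (hy' : ∀ m < n, y.coeff m = 0) : ∀ m < n, (x * y - 1).coeff m = 0 := fun m hm => by
  have h1 : ∀ l < 0, (x - HahnSeries.single (-n) (1 : A)).coeff l = 0 := fun l hl => by
    rw [HahnSeries.coeff_sub, hx l hl, sub_self]
  have h2 : ∀ l < -n, (HahnSeries.single (-n) (1 : A)).coeff l = 0 := fun l hl =>
    HahnSeries.coeff_single_of_ne (by omega)
  have h3 : ∀ l < 2 * n, (y - HahnSeries.single n (1 : A)).coeff l = 0 := fun l hl => by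
    rw [HahnSeries.coeff_sub, hy l hl, sub_self]
  rw [split_mul (single_neg_mul_single n), HahnSeries.coeff_add, mul_low h1 hy' m (by omega),
    mul_low h2 h3 m (by omega), add_zero]

/-- The functions which vanish to high order at `J` generate the unit ideal of `Q`. -/
theorem exists_van (F : Forget Q R) (n : ℕ) : ∃ (s r : R) (a : Q),
    (∀ j, ∀ m < (n : ℤ), ((io F s : KK (I ⊕ J) A) (Sum.inr j)).coeff m = 0) ∧
    (∀ j, ∀ m < (n : ℤ), ((io F r : KK (I ⊕ J) A) (Sum.inr j)).coeff m = 0) ∧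
    a * io F s - io F r = 1 := by
  obtain ⟨s, hs, h1⟩ := F.dns (fun _ => HahnSeries.single (n : ℤ) (1 : A)) (2 * (n : ℤ))
  obtain ⟨a, ha, h2⟩ := F.dns (fun _ => HahnSeries.single (-(n : ℤ)) (1 : A)) 0
  have h3 : ∀ j, ∀ m < (n : ℤ), (s (Sum.inr j)).coeff m = 0 := fun j m hm =>
    (h1 j m (by omega)).trans (HahnSeries.coeff_single_of_ne (by omega))
  have h4 : ∀ j, ∀ m < (n : ℤ), ((a * s - 1) (Sum.inr j)).coeff m = 0 := fun j m hm =>
    mul_sub_one_low (h2 j) (h1 j) (h3 j) m hm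
  obtain ⟨s', hs'⟩ := exists_io F ⟨s, hs⟩ fun j m hm => h3 j m (by omega)
  obtain ⟨r', hr'⟩ := exists_io F ⟨a * s - 1, sub_mem (mul_mem ha hs) (one_mem Q)⟩
    fun j m hm => h4 j m (by omega)
  refine ⟨s', r', ⟨a, ha⟩, ?_, ?_, ?_⟩
  · rw [hs']
    exact h3
  · rw [hr']
    exact h4
  · rw [hs', hr']
    exact Subtype.ext (sub_sub_cancel (a * s) 1)

/-- `Q` is locally the ring of the functions which are regular at `J`. -/
theorem exists_loc [Finite J] (F : Forget Q R) (w : Q) : ∃ (n : ℕ) (s : Fin n → R)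
    (a : Fin n → Q) (y : Fin n → R), (∀ k, io F (s k) * w = io F (y k)) ∧
      ∑ k, a k * io F (s k) = 1 := by
  obtain ⟨n, hn⟩ := exists_Pol (atJ (w : KK (I ⊕ J) A))
  obtain ⟨s, r, a, hs, hr, h1⟩ := exists_van F n
  have h2 : ∀ z : R, (∀ j, ∀ m < (n : ℤ), ((io F z : KK (I ⊕ J) A) (Sum.inr j)).coeff m = 0) →
      ∃ y : R, io F y = io F z * w := fun z hz => exists_io F (io F z * w) fun j m hm =>
    mul_low (hz j) (hn j) m (by omega)
  obtain ⟨y1, hy1⟩ := h2 s hs
  obtain ⟨y2, hy2⟩ := h2 r hr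
  refine ⟨2, ![s, r], ![a, -1], ![y1, y2], Fin.forall_fin_two.2 ⟨hy1.symm, hy2.symm⟩, ?_⟩
  rw [Fin.sum_univ_two]
  refine Eq.trans ?_ h1
  change a * io F s + (-1) * io F r = a * io F s - io F r
  ring

theorem rs_h (F : Forget Q R) {p : FPt Q} {p' : FPt R} (h : p.Rs p') (r : R) :
    p'.h r = p.h (io F r) :=
  h (io F r) r (funext fun i => io_I F r i) (Pol_zero_iff.2 fun j => io_J F r j)

/-- The restriction of a formal point. -/
theorem exists_rs [Finite J] (F : Forget Q R) (p : FPt Q) : ∃ p' : FPt R, p.Rs p' := by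
  obtain ⟨n, s, a, y, h1, h2⟩ := exists_loc F (p.x - algebraMap A Q (p.ev p.x))
  have h3 : PowerSeries.constantCoeff (p.h (p.x - algebraMap A Q (p.ev p.x))) = 0 := by
    rw [map_sub, AlgHom.commutes, map_sub]
    change PowerSeries.constantCoeff (p.h p.x) - PowerSeries.constantCoeff
      (algebraMap A (PowerSeries A) (PowerSeries.constantCoeff (p.h p.x))) = 0
    simp
  have h4 : PowerSeries.coeff 1 (p.h (p.x - algebraMap A Q (p.ev p.x))) =
      PowerSeries.coeff 1 (p.h p.x) := by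
    rw [map_sub, AlgHom.commutes, map_sub]
    simp
  have h5 : ∀ k, PowerSeries.coeff 1 (p.h (io F (y k))) =
      PowerSeries.constantCoeff (p.h (io F (s k))) * PowerSeries.coeff 1 (p.h p.x) := by
    intro k
    rw [← h1 k, map_mul, PowerSeries.coeff_one_mul, h3, h4]
    ring
  have h6 : ∑ k, PowerSeries.constantCoeff (p.h (a k)) *
      PowerSeries.constantCoeff (p.h (io F (s k))) = 1 := by
    rw [← map_one PowerSeries.constantCoeff, ← map_one p.h, ← h2, map_sum, map_sum]
    exact Finset.sum_congr rfl fun k _ => by rw [map_mul, map_mul]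
  refine ⟨⟨p.h.comp (io F), ∑ k, PowerSeries.constantCoeff (p.h (a k)) • y k, ?_⟩, ?_⟩
  · have h7 : PowerSeries.coeff 1 ((p.h.comp (io F))
        (∑ k, PowerSeries.constantCoeff (p.h (a k)) • y k)) = PowerSeries.coeff 1 (p.h p.x) := by
      rw [map_sum, map_sum]
      calc ∑ k, PowerSeries.coeff 1 ((p.h.comp (io F))
            (PowerSeries.constantCoeff (p.h (a k)) • y k)) =
          ∑ k, (PowerSeries.constantCoeff (p.h (a k)) *
            PowerSeries.constantCoeff (p.h (io F (s k)))) * PowerSeries.coeff 1 (p.h p.x) := by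
            refine Finset.sum_congr rfl fun k _ => ?_
            rw [map_smul, map_smul, AlgHom.comp_apply, h5 k, smul_eq_mul]
            ring
        _ = _ := by rw [← Finset.sum_mul, h6, one_mul]
    rw [h7]
    exact p.par
  · intro w f h7 h8
    change p.h (io F f) = p.h w
    congr 1
    exact atI_eq F fun i => (io_I F f i).trans (congrFun h7 i).symm

/-- The restrictions of disjoint formal points are disjoint. -/
theorem disj_rs [Finite J] (F : Forget Q R) {pt : Bool → FPt Q} {pt' : Bool → FPt R}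
    (h : ∀ b, (pt b).Rs (pt' b)) (hd : Disj pt) : Disj pt' := by
  intro j k hjk
  have h0 := hd j k hjk
  rw [Ideal.eq_top_iff_one, Submodule.mem_sup] at h0
  obtain ⟨u, hu, v, hv, huv⟩ := h0
  rw [FPt.mem_id, FPt.ev] at hu hv
  obtain ⟨n, s, c, y, h1, h2⟩ := exists_loc F u
  have e1 : ∀ (b : Bool) (r : R), (pt' b).ev r = (pt b).ev (io F r) := fun b r => by
    rw [FPt.ev, FPt.ev, rs_h F (h b)]
  rw [Ideal.eq_top_iff_one]
  set J0 := (pt' j).id ⊔ (pt' k).id with hJ0
  have h3 : ∀ l, s l ∈ J0 := by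
    intro l
    have h4 : y l ∈ (pt' j).id := by
      rw [FPt.mem_id, e1, ← h1 l, FPt.ev, map_mul, map_mul, hu, mul_zero]
    have h5 : s l - y l ∈ (pt' k).id := by
      rw [FPt.mem_id, e1, map_sub, ← h1 l]
      have h6 : io F (s l) - io F (s l) * u = io F (s l) * v := by
        rw [← mul_one_sub]
        congr 1
        rw [sub_eq_iff_eq_add, add_comm]
        exact huv.symm
      rw [h6, FPt.ev, map_mul, map_mul, hv, mul_zero]
    have h6 : s l = y l + (s l - y l) := by ring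
    rw [h6]
    exact add_mem (Ideal.mem_sup_left h4) (Ideal.mem_sup_right h5)
  have h7 : ∀ l, algebraMap A R ((pt' j).ev (s l)) ∈ J0 := by
    intro l
    have h8 : s l - algebraMap A R ((pt' j).ev (s l)) ∈ (pt' j).id := by
      rw [FPt.mem_id]
      change PowerSeries.constantCoeff ((pt' j).h _) = 0
      rw [map_sub, AlgHom.commutes, map_sub]
      change PowerSeries.constantCoeff ((pt' j).h (s l)) - PowerSeries.constantCoeff
        (algebraMap A (PowerSeries A) (PowerSeries.constantCoeff ((pt' j).h (s l)))) = 0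
      simp
    have h9 := sub_mem (h3 l) (Ideal.mem_sup_left h8 : _ ∈ J0)
    rwa [sub_sub_cancel] at h9
  have h8 : ∑ l, (pt j).ev (c l) * (pt' j).ev (s l) = 1 := by
    have h9 : (pt j).ev 1 = 1 := by rw [FPt.ev, map_one, map_one]
    rw [← h9, ← h2]
    change _ = PowerSeries.constantCoeff ((pt j).h _)
    rw [map_sum, map_sum]
    refine Finset.sum_congr rfl fun l _ => ?_
    rw [e1, map_mul, map_mul]
    rfl
  have h9 : (1 : R) = ∑ l, algebraMap A R ((pt j).ev (c l)) * algebraMap A R ((pt' j).ev (s l)) := by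
    rw [← map_one (algebraMap A R), ← h8, map_sum]
    exact Finset.sum_congr rfl fun l _ => map_mul _ _ _
  rw [h9]
  exact sum_mem fun l _ => Ideal.mul_mem_left _ _ (h7 l)

end lift

/-! ## Functions with poles at the formal points -/

section wj

variable {I J A : Type} [CommRing A] {Q : Subalgebra A (KK (I ⊕ J) A)}
  {R : Subalgebra A (KK I A)} {pt : Bool → FPt Q} {pt' : Bool → FPt R}

/-- Forgetting the punctures `J`. -/
def rs : KK ((I ⊕ J) ⊕ Bool) A →+* KK (I ⊕ Bool) A where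
  toFun w := fun k => w (Sum.map Sum.inl id k)
  map_one' := rfl
  map_zero' := rfl
  map_mul' _ _ := rfl
  map_add' _ _ := rfl

theorem rs_hat (F : Forget Q R) (h : ∀ b, (pt b).Rs (pt' b)) (r : R) :
    rs (hat pt (io F r)) = hat pt' r := by
  funext k
  rcases k with i | b
  · exact io_I F r i
  · change psl A ((pt b).h (io F r)) = psl A ((pt' b).h r)
    rw [rs_h F (h b)]

theorem io_mem_pow (F : Forget Q R) (h : ∀ b, (pt b).Rs (pt' b)) {n : ℕ} {r : R}
    (hr : r ∈ Ipt pt' ^ n) : io F r ∈ Ipt pt ^ n := by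
  have h1 : Ipt pt' ≤ (Ipt pt).comap (io F) := fun x hx => by
    rw [Ideal.mem_comap, mem_Ipt]
    rw [mem_Ipt] at hx
    intro b
    rw [← rs_h F (h b)]
    exact hx b
  exact ((Ideal.pow_right_mono h1 n).trans (Ideal.le_comap_pow _ n)) hr

theorem rs_mem (F : Forget Q R) (h : ∀ b, (pt b).Rs (pt' b)) {w : KK ((I ⊕ J) ⊕ Bool) A}
    (hw : w ∈ WJ pt) (hj : ∀ j : J, ∀ m < 0, (w (Sum.inl (Sum.inr j))).coeff m = 0) :
    rs w ∈ WJ pt' := by
  obtain ⟨n, hn⟩ := hw
  refine ⟨n, fun s hs => ?_⟩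
  obtain ⟨r, hr⟩ := hn (io F s) (io_mem_pow F h hs)
  have h1 : ∀ j, ∀ m < 0, ((r : KK (I ⊕ J) A) (Sum.inr j)).coeff m = 0 := fun j m hm => by
    have h2 : (r : KK (I ⊕ J) A) (Sum.inr j) =
        (io F s : KK (I ⊕ J) A) (Sum.inr j) * w (Sum.inl (Sum.inr j)) :=
      (congrFun hr (Sum.inl (Sum.inr j))).symm
    rw [h2]
    exact mul_low (io_J F s j) (hj j) m (by omega)
  obtain ⟨r', hr'⟩ := exists_io F r h1
  refine ⟨r', ?_⟩
  rw [← rs_hat F h, ← rs_hat F h, hr', ← hr, map_mul]

/-- What is used of AYE and AWK. -/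
structure Dat (pt : Bool → FPt Q) (pt' : Bool → FPt R) : Prop where
  rs : ∀ b, (pt b).Rs (pt' b)
  regQ : ∀ w ∈ WJ pt, (∀ b, ∀ m < 0, (w (Sum.inr b)).coeff m = 0) → ∃ r : Q, w = hat pt r
  regR : ∀ w ∈ WJ pt', (∀ b, ∀ m < 0, (w (Sum.inr b)).coeff m = 0) → ∃ r : R, w = hat pt' r
  appQ : ∀ f : Bool → LaurentSeries A, ∃ w ∈ WJ pt,
    ∀ b, ∀ m < 0, (w (Sum.inr b)).coeff m = (f b).coeff m
  par : ∃ y ∈ Ipt pt', ∀ b, IsUnit (PowerSeries.coeff 1 ((pt' b).h y))
  appR : ∀ (n : ℕ) (f : Bool → PowerSeries A), ∃ r : R,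
    ∀ b, ∀ m < n, PowerSeries.coeff m ((pt' b).h r) = PowerSeries.coeff m (f b)

theorem exists_lift_W (F : Forget Q R) (D : Dat pt pt') {w' : KK (I ⊕ Bool) A} (hw : w' ∈ WJ pt') :
    ∃ w ∈ WJ pt, (∀ j : J, ∀ m < 0, (w (Sum.inl (Sum.inr j))).coeff m = 0) ∧
      PLF.rs w = w' := by
  obtain ⟨v, hv, h1⟩ := D.appQ fun b => w' (Sum.inr b)
  obtain ⟨q, hq, h2⟩ := F.dns (fun j => v (Sum.inl (Sum.inr j))) 0
  have h3 : v - hat pt ⟨q, hq⟩ ∈ WJ pt := sub_mem hv (hat_mem pt _)
  have h4 : ∀ j : J, ∀ m < 0,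
      ((v - hat pt ⟨q, hq⟩) (Sum.inl (Sum.inr j))).coeff m = 0 := fun j m hm => by
    change (v (Sum.inl (Sum.inr j)) - q (Sum.inr j)).coeff m = 0
    rw [HahnSeries.coeff_sub, h2 j m hm, sub_self]
  have h5 := rs_mem F D.rs h3 h4
  obtain ⟨r, hr⟩ := D.regR (PLF.rs (v - hat pt ⟨q, hq⟩) - w') (sub_mem h5 hw) (fun b m hm => by
    change (v (Sum.inr b) - psl A ((pt b).h ⟨q, hq⟩) - w' (Sum.inr b)).coeff m = 0
    rw [HahnSeries.coeff_sub, HahnSeries.coeff_sub, h1 b m hm, psl_low _ m hm, sub_zero,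
      sub_self])
  refine ⟨v - hat pt ⟨q, hq⟩ - hat pt (io F r), sub_mem h3 (hat_mem pt _),
    fun j m hm => ?_, ?_⟩
  · change ((v - hat pt ⟨q, hq⟩) (Sum.inl (Sum.inr j)) -
      (io F r : KK (I ⊕ J) A) (Sum.inr j)).coeff m = 0
    rw [HahnSeries.coeff_sub, h4 j m hm, io_J F r j m hm, sub_zero]
  · rw [map_sub, rs_hat F D.rs, ← hr, sub_sub_cancel]

theorem inj_W (F : Forget Q R) (D : Dat pt pt') {w : KK ((I ⊕ J) ⊕ Bool) A} (hw : w ∈ WJ pt)
    (h0 : ∀ i : I, w (Sum.inl (Sum.inl i)) = 0) : w = 0 := by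
  obtain ⟨y, hy, hu⟩ := D.par
  have hw' := hw
  obtain ⟨n, hn⟩ := hw'
  obtain ⟨r, hr⟩ := hn (io F (y ^ n)) (io_mem_pow F D.rs (Ideal.pow_mem_pow hy n))
  have h1 : r = 0 := atI_eq F fun i => by
    refine (congrFun hr (Sum.inl (Sum.inl i))).symm.trans ?_
    rw [Pi.mul_apply, h0, mul_zero]
    rfl
  have h2 : ∀ b, w (Sum.inr b) = 0 := fun b => by
    have h3 := congrFun hr (Sum.inr b)
    rw [h1, map_zero, Pi.mul_apply, Pi.zero_apply, hat_inr, ← rs_h F (D.rs b), map_pow,
      map_pow] at h3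
    exact (((isUnit_psl (mem_Ipt.1 hy b) (hu b)).pow n).mul_right_eq_zero).1 h3
  obtain ⟨r2, hr2⟩ := D.regQ w hw fun b m _ => by rw [h2, HahnSeries.coeff_zero]
  have h4 : r2 = 0 := atI_eq F fun i => by
    refine (congrFun hr2 (Sum.inl (Sum.inl i))).symm.trans ?_
    rw [h0]
    rfl
  rw [hr2, h4, map_zero]

theorem rem_PT (F : Forget Q R) (D : Dat pt pt') (t : A) : PT pt' t = Rem (PT pt t) := by
  ext f
  symm
  constructor
  · rintro ⟨_, ⟨w, hw, rfl, hN⟩, h1, h2⟩
    exact ⟨PLF.rs w, rs_mem F D.rs hw h1, funext h2, hN⟩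
  · rintro ⟨w', hw, rfl, hN⟩
    obtain ⟨w, h1, h2, rfl⟩ := exists_lift_W F D hw
    exact ⟨atI w, ⟨w, h1, rfl, hN⟩, h2, fun i => rfl⟩

theorem inj_PT (F : Forget Q R) (D : Dat pt pt') (t : A) :
    ∀ w ∈ PT pt t, (∀ i, w (Sum.inl i) = 0) → w = 0 := by
  rintro _ ⟨w, hw, rfl, -⟩ h0
  rw [inj_W F D hw h0]
  rfl

theorem dns_PT (F : Forget Q R) (D : Dat pt pt') {t : A} {N : ℕ}
    (hN : ∀ G ∈ Pol Bool A (-(N : ℤ)), G ∈ Nt t) (f : J → LaurentSeries A) (M : ℤ) :
    ∃ w ∈ PT pt t, ∀ j, ∀ m < M, (w (Sum.inr j)).coeff m = (f j).coeff m := by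
  obtain ⟨q, hq, h1⟩ := F.dns f M
  obtain ⟨s, r, a, hs, hr, h2⟩ := exists_van F M.toNat
  obtain ⟨c, hc⟩ := D.appR N fun b => (pt b).h (⟨q, hq⟩ * a)
  obtain ⟨e, he⟩ := D.appR N fun b => (pt b).h ⟨q, hq⟩
  refine ⟨_, ⟨hat pt (⟨q, hq⟩ - io F (c * s - e * r)), hat_mem pt _, rfl,
    hN _ fun b m hm => ?_⟩, fun j m hm => ?_⟩
  · have h3 : (⟨q, hq⟩ : Q) - io F (c * s - e * r) =
        (⟨q, hq⟩ * a - io F c) * io F s - (⟨q, hq⟩ - io F e) * io F r := by
      rw [map_sub, map_mul, map_mul]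
      have h4 : (⟨q, hq⟩ : Q) = ⟨q, hq⟩ * (a * io F s - io F r) := by rw [h2, mul_one]
      nth_rewrite 1 [h4]
      ring
    have h4 : ∀ k < N, PowerSeries.coeff k ((pt b).h (⟨q, hq⟩ * a - io F c)) = 0 :=
      fun k hk => by rw [map_sub, map_sub, ← rs_h F (D.rs b), hc b k hk, sub_self]
    have h5 : ∀ k < N, PowerSeries.coeff k ((pt b).h (⟨q, hq⟩ - io F e)) = 0 :=
      fun k hk => by rw [map_sub, map_sub, ← rs_h F (D.rs b), he b k hk, sub_self]
    change (psl A ((pt b).h (⟨q, hq⟩ - io F (c * s - e * r)))).coeff m = 0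
    rw [h3, map_sub, map_sub, map_mul, map_mul, map_mul, map_mul, HahnSeries.coeff_sub,
      mul_low (psl_low_of h4) (psl_low _) m (by omega),
      mul_low (psl_low_of h5) (psl_low _) m (by omega), sub_zero]
  · have h3 : (io F (c * s - e * r) : KK (I ⊕ J) A) (Sum.inr j) =
        (io F c : KK (I ⊕ J) A) (Sum.inr j) * (io F s : KK (I ⊕ J) A) (Sum.inr j) -
          (io F e : KK (I ⊕ J) A) (Sum.inr j) * (io F r : KK (I ⊕ J) A) (Sum.inr j) := by
      rw [map_sub, map_mul, map_mul]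
      rfl
    change (q (Sum.inr j) - (io F (c * s - e * r) : KK (I ⊕ J) A) (Sum.inr j)).coeff m = _
    rw [h3, HahnSeries.coeff_sub, HahnSeries.coeff_sub,
      mul_low (io_J F c j) (hs j) m (by omega), mul_low (io_J F e j) (hr j) m (by omega),
      sub_zero, sub_zero, h1 j m hm]

end wj

end PLF

theorem t_PLF (hAID : Stmt_AID) (hAYE : Stmt_AYE) (hAWK : Stmt_AWK) (hPL0 : Stmt_PL0) :
    Stmt_PLF := by
  intro I J A _ _ _ _ h Q R hQ hR sQ sR F
  refine ⟨PLF.exists_rs F, fun pt pt' hrs hd => ?_⟩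
  have hd' := PLF.disj_rs F hrs hd
  refine ⟨hd', fun t ht => ?_⟩
  obtain ⟨N, hN⟩ := ht
  have hNt : ∀ G ∈ Pol Bool A (-(N : ℤ)), G ∈ Nt t := (hPL0 t N hN).1 N le_rfl
  obtain ⟨-, -, -, -, q5, q6, -⟩ := hAWK hQ sQ pt hd
  obtain ⟨-, -, -, -, r5, -, -⟩ := hAWK hR sR pt' hd'
  obtain ⟨-, -, y3, y, -, -, hy, -, -, -, hu, -⟩ := hAYE hR sR pt' hd'
  have D : PLF.Dat pt pt' :=
    { rs := hrs
      regQ := q5
      regR := r5
      appQ := fun f => q6 f 0
      par := ⟨y, hy, hu⟩
      appR := y3 }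
  exact ⟨PLF.rem_PT F D t, PLF.inj_PT F D t, PLF.dns_PT F D hNt⟩

end Pool.Agent.MG.G0


end

section

/-!
# POX: the polarisation and the change of the index set
-/

open TensorProduct

namespace Pool.Agent.MG.G0

namespace POX

section

variable {I I' A B : Type} [CommRing A] [CommRing B]

/-- The base change of `reix e P`. -/
theorem bc_reix (φ : A →+* B) (e : I' ≃ I) (P : Subalgebra A (KK I A)) :
    bc φ (reix e P) = reix e (bc φ P) := by
  apply le_antisymm
  · refine Algebra.adjoin_le ?_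
    rintro _ ⟨f, hf, rfl⟩
    exact kmap_mem_bc φ (P := P) (f := fun i => f (e.symm i)) hf
  · intro f hf
    have h1 : (fun i => f (e.symm i)) ∈ Submodule.span B (kmap φ '' (P : Set (KK I A))) :=
      mem_bc_span φ P hf
    have h2 : ∀ y ∈ Submodule.span B (kmap φ '' (P : Set (KK I A))),
        (fun i => y (e i)) ∈ bc φ (reix e P) := by
      intro y hy
      refine Submodule.span_induction (p := fun y _ => (fun i => y (e i)) ∈ bc φ (reix e P))
        ?_ ?_ ?_ ?_ hy
      · rintro _ ⟨f, hf, rfl⟩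
        refine kmap_mem_bc φ (P := reix e P) (f := fun i => f (e i)) ?_
        change (fun i => f (e (e.symm i))) ∈ P
        have h3 : (fun i => f (e (e.symm i))) = f := funext fun i => by rw [e.apply_symm_apply]
        rw [h3]
        exact hf
      · exact zero_mem (bc φ (reix e P))
      · intro x y _ _ hx hy
        exact add_mem hx hy
      · intro c x _ hx
        exact Subalgebra.smul_mem _ hx c
    have h4 := h2 _ h1
    have h5 : (fun i => (fun j => f (e.symm j)) (e i)) = f := funext fun i => by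
      change f (e.symm (e i)) = f i
      rw [e.symm_apply_apply]
    rw [h5] at h4
    exact h4

variable [Fintype I] [Fintype I']

theorem res_reix (e : I' ≃ I) (f : KK I A) : res (fun i => f (e i)) = res f :=
  Equiv.sum_comp e fun i => (f i).coeff (-1)

/-- The functionals of corresponding quadratic differentials agree. -/
theorem Lq_eq (e : I' ≃ I) {P : Subalgebra A (KK I A)} {P' : Subalgebra A (KK I' A)}
    {D : DD P} {E : DD P'} (h : RelI e D E) {z : QD P × QD P'} (hz : z ∈ QI e P P') :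
    Lq P' z.2 E = Lq P z.1 D := by
  refine Submodule.span_induction (p := fun z _ => Lq P' z.2 E = Lq P z.1 D) ?_ ?_ ?_ ?_ hz
  · rintro _ ⟨x, g, x', g', hx, hg, rfl⟩
    obtain ⟨r, hr⟩ := mk_surj P (D g)
    have h1 := h g g' r hg hr.symm
    change rq x' (E g') = rq x (D g)
    rw [h1, ← hr, rq_mk, rq_mk, ← res_reix e ((x : KK I A) * r)]
    congr 1
    funext i
    change (x' : KK I' A) i * r (e i) = (x : KK I A) (e i) * r (e i)
    rw [hx]
  · change Lq P' 0 E = Lq P 0 D
    rw [map_zero, map_zero]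
    rfl
  · intro y z _ _ hy hz
    change Lq P' (y.2 + z.2) E = Lq P (y.1 + z.1) D
    rw [map_add, map_add, LinearMap.add_apply, LinearMap.add_apply, hy, hz]
  · intro c y _ hy
    change Lq P' (c • y.2) E = Lq P (c • y.1) D
    rw [map_smul, map_smul, LinearMap.smul_apply, LinearMap.smul_apply, hy]

/-- Base change of corresponding quadratic differentials. -/
theorem bcQ_mem (φ : A →+* B) (e : I' ≃ I) {P : Subalgebra A (KK I A)}
    {P' : Subalgebra A (KK I' A)} {z : QD P × QD P'} (hz : z ∈ QI e P P') :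
    (bcQ φ P z.1, bcQ φ P' z.2) ∈ QI e (bc φ P) (bc φ P') := by
  refine Submodule.span_induction
    (p := fun z _ => (bcQ φ P z.1, bcQ φ P' z.2) ∈ QI e (bc φ P) (bc φ P')) ?_ ?_ ?_ ?_ hz
  · rintro _ ⟨x, g, x', g', hx, hg, rfl⟩
    refine Submodule.subset_span ⟨⟨kmap φ x, kmap_mem_Perp φ x.2⟩, bcMap φ P g,
      ⟨kmap φ x', kmap_mem_Perp φ x'.2⟩, bcMap φ P' g', fun i => ?_, fun i => ?_, rfl⟩
    · change lmap φ ((x' : KK I' A) i) = lmap φ ((x : KK I A) (e i))
      rw [hx]
    · change lmap φ ((g' : KK I' A) i) = lmap φ ((g : KK I A) (e i))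
      rw [hg]
  · change (bcQ φ P 0, bcQ φ P' 0) ∈ _
    rw [map_zero, map_zero]
    exact zero_mem _
  · intro y z _ _ hy hz
    change (bcQ φ P (y.1 + z.1), bcQ φ P' (y.2 + z.2)) ∈ _
    rw [map_add, map_add]
    exact add_mem hy hz
  · intro c y _ hy
    change (bcQ φ P (c • y.1), bcQ φ P' (c • y.2)) ∈ _
    rw [map_smulₛₗ, map_smulₛₗ]
    exact Submodule.smul_mem _ (φ c) hy

/-- A sum of multiples of base changes. -/
theorem coe_sum {k : ℕ} (φ : A →+* B) (P : Subalgebra A (KK I A)) (c : Fin k → B)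
    (q : Fin k → QR P) :
    ((∑ i, c i • bcR φ P (q i) : QR (bc φ P)) : QD (bc φ P)) = ∑ i, c i • bcQ φ P (q i) := by
  rw [AddSubmonoidClass.coe_finsetSum]
  rfl

end

end POX

theorem t_POX (hGBC : Stmt_GBC) : Stmt_POX := by
  intro g E I I' A _ _ _ _ _ _ e P P' hP hP' hPP k q q' hq
  have h1 := hGBC (MvPolynomial.C (R := A) (σ := Fin k)) g P hP
  have h2 := hGBC (MvPolynomial.C (R := A) (σ := Fin k)) g P' hP'
  have h3 : bc (MvPolynomial.C (R := A) (σ := Fin k)) P' =
      reix e (bc (MvPolynomial.C (R := A) (σ := Fin k)) P) := by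
    rw [hPP, POX.bc_reix]
  have h4 : ((∑ i, (MvPolynomial.X i : MvPolynomial (Fin k) A) •
        bcQ (MvPolynomial.C (R := A) (σ := Fin k)) P (q i)),
      (∑ i, (MvPolynomial.X i : MvPolynomial (Fin k) A) •
        bcQ (MvPolynomial.C (R := A) (σ := Fin k)) P' (q' i))) ∈
      QI e (bc (MvPolynomial.C (R := A) (σ := Fin k)) P)
        (bc (MvPolynomial.C (R := A) (σ := Fin k)) P') := by
    have h5 := Submodule.sum_mem (QI e (bc (MvPolynomial.C (R := A) (σ := Fin k)) P)
      (bc (MvPolynomial.C (R := A) (σ := Fin k)) P')) (t := Finset.univ)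
      (f := fun i => (MvPolynomial.X i : MvPolynomial (Fin k) A) •
        (bcQ (MvPolynomial.C (R := A) (σ := Fin k)) P (q i : QD P),
          bcQ (MvPolynomial.C (R := A) (σ := Fin k)) P' (q' i : QD P')))
      fun i _ => Submodule.smul_mem _ _ (POX.bcQ_mem _ e (hq i))
    have h6 : (∑ i, (MvPolynomial.X i : MvPolynomial (Fin k) A) •
        (bcQ (MvPolynomial.C (R := A) (σ := Fin k)) P (q i : QD P),
          bcQ (MvPolynomial.C (R := A) (σ := Fin k)) P' (q' i : QD P'))) =
        ((∑ i, (MvPolynomial.X i : MvPolynomial (Fin k) A) •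
          bcQ (MvPolynomial.C (R := A) (σ := Fin k)) P (q i)),
        (∑ i, (MvPolynomial.X i : MvPolynomial (Fin k) A) •
          bcQ (MvPolynomial.C (R := A) (σ := Fin k)) P' (q' i))) := by
      refine Prod.ext ?_ ?_
      · rw [Prod.fst_sum]
        rfl
      · rw [Prod.snd_sum]
        rfl
    rw [h6] at h5
    exact h5
  refine congrArg (MvPolynomial.coeff (ones k)) (E.rix e _ _ h1 h2 h3 _ _ fun D E' hDE => ?_)
  rw [cov_apply, cov_apply, POX.coe_sum, POX.coe_sum]
  exact POX.Lq_eq e hDE h4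

end Pool.Agent.MG.G0


end

section

/-!
# ZQA: the form `res (a(z) ω ω' / dz)` is a sum of squares
-/

open Polynomial

namespace Pool.Agent.MG.G0

namespace ZQA

variable {K : Type} [Field K] {g d b : ℕ} {R : Subalgebra K (LaurentSeries K)}

/-- The products with the elements of `R` have no residue. -/
def Pe (R : Subalgebra K (LaurentSeries K)) (η : LaurentSeries K) : Prop :=
  ∀ p ∈ R, (η * p).coeff (-1) = 0

theorem pe_of (ω : EE1 R) : Pe R (ω : LaurentSeries K) := ω.2.1

theorem pe_of_mem {ω : LaurentSeries K} (h : ω ∈ EE1 R) : Pe R ω := h.1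

/-- `w` is orthogonal to `R` modulo `z - c`. -/
def Rad (d : ℕ) (R : Subalgebra K (LaurentSeries K)) (c : K) (w : LaurentSeries K) : Prop :=
  ∀ p ∈ R, ∃ q : K[X], pr0 K d (w * p) = zpol K d ((X - C c) * q)

/-- `w` is divisible by `z - c` in `R`. -/
def Dv (d : ℕ) (R : Subalgebra K (LaurentSeries K)) (c : K) (w : LaurentSeries K) : Prop :=
  ∃ r ∈ R, w = zpol K d (X - C c) * r

theorem polyV (hd : 0 < d) (hdu : (d : K) ≠ 0) (hz : zz K d ∈ R) {V : LaurentSeries K}
    (hV : V * ld (zz K d) = 1) {η : LaurentSeries K} (hη : Pe R η) {p : LaurentSeries K}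
    (hp : p ∈ R) : ∃ q : K[X], pr0 K d (η * V * p) = zpol K d q := by
  refine KIL.exists_poly hd _ fun k => ?_
  have h1 := hη (zz K d ^ k * p) (mul_mem (pow_mem hz k) hp)
  have h2 : η * (zz K d ^ k * p) = (zz K d ^ k * (η * V * p)) * ld (zz K d) := by
    have : zz K d ^ k * (η * V * p) * ld (zz K d) =
        zz K d ^ k * (η * p) * (V * ld (zz K d)) := by ring
    rw [this, hV]
    ring
  rw [h2, KIL.coeff_mul_ld_zz, KIL.coeff_zzpow_mul] at h1
  exact (mul_eq_zero.1 h1).resolve_left (neg_ne_zero.2 hdu)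

theorem div_of_eval (hz : zz K d ∈ R) {ι : Type} [Fintype ι] {e : ι → LaurentSeries K}
    (he : ∀ i, e i ∈ R) (c : ι → K[X]) (β : K) (h : ∀ i, (c i).eval β = 0) :
    Dv d R β (∑ i, zpol K d (c i) * e i) := by
  have h1 : ∀ i, ∃ q, c i = (X - C β) * q := fun i => dvd_iff_isRoot.2 (h i)
  choose q hq using h1
  refine ⟨∑ i, zpol K d (q i) * e i,
    Subalgebra.sum_mem _ fun i _ => mul_mem (KRK.zpol_mem hz _) (he i), ?_⟩
  rw [Finset.mul_sum]
  refine Finset.sum_congr rfl fun i _ => ?_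
  rw [← mul_assoc, ← map_mul, ← hq i]

theorem gram_eval {e : Fin d → LaurentSeries K} {G : Matrix (Fin d) (Fin d) K[X]} (hd : d ≠ 0)
    (he : ∀ i, e i ∈ R) (hG : ZGram d e G) {c : Fin d → K[X]} {w : LaurentSeries K} {β : K}
    (hw : w = ∑ i, zpol K d (c i) * e i) (hr : Rad d R β w) :
    (G.map (eval β)).mulVec (fun i => (c i).eval β) = 0 := by
  funext j
  obtain ⟨q, hq⟩ := hr (e j) (he j)
  have h1 : zpol K d (∑ i, G j i * c i) = zpol K d ((X - C β) * q) := by
    rw [← hq, hw, Finset.sum_mul, map_sum, map_sum]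
    refine Finset.sum_congr rfl fun i _ => ?_
    rw [map_mul, hG, mul_assoc, pr0_zpol_mul, mul_comm (e i) (e j), mul_comm]
  have h2 := KRK.zpol_inj hd h1
  have h3 := congrArg (eval β) h2
  rw [eval_finsetSum, eval_mul, eval_sub, eval_X, eval_C, sub_self, zero_mul] at h3
  rw [Matrix.mulVec, dotProduct, Pi.zero_apply, ← h3]
  refine Finset.sum_congr rfl fun i _ => ?_
  rw [Matrix.map_apply, eval_mul]

theorem radical_prop (hLA : Stmt_ZLA) {e : Fin d → LaurentSeries K}
    {G : Matrix (Fin d) (Fin d) K[X]} (hd : d ≠ 0) (hz : zz K d ∈ R) (hb : ZBas d R e)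
    (hG : ZGram d e G) {β : K} (hdet : ¬ (X - C β) ^ 2 ∣ G.det) {w w' : LaurentSeries K}
    (hw : w ∈ R) (hw' : w' ∈ R) (hr : Rad d R β w) (hr' : Rad d R β w') (hn : ¬ Dv d R β w) :
    ∃ a : K, Dv d R β (w' - a • w) := by
  obtain ⟨c, hc, -⟩ := hb.uni w hw
  obtain ⟨c', hc', -⟩ := hb.uni w' hw'
  have h1 := gram_eval hd hb.mem hG hc hr
  have h2 := gram_eval hd hb.mem hG hc' hr'
  have h3 : (fun i => (c i).eval β) ≠ 0 := by
    intro h0
    apply hn
    rw [hc]
    exact div_of_eval hz hb.mem c β fun i => congrFun h0 i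
  obtain ⟨a, ha⟩ := hLA.2 G β hdet _ _ h1 h2 h3
  refine ⟨a, ?_⟩
  have h4 : w' - a • w = ∑ i, zpol K d (c' i - a • c i) * e i := by
    rw [hc, hc', Finset.smul_sum, ← Finset.sum_sub_distrib]
    refine Finset.sum_congr rfl fun i _ => ?_
    rw [map_sub, map_smul, sub_mul, smul_mul_assoc]
  rw [h4]
  refine div_of_eval hz hb.mem _ β fun i => ?_
  have h5 := congrFun ha i
  rw [Pi.smul_apply] at h5
  rw [eval_sub, eval_smul, h5, sub_self]

theorem dv_smul {c : K} {w : LaurentSeries K} (a : K) (h : Dv d R c w) : Dv d R c (a • w) := by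
  obtain ⟨r, hr, rfl⟩ := h
  exact ⟨a • r, R.smul_mem hr a, by rw [mul_smul_comm]⟩

theorem dv_add {c : K} {w w' : LaurentSeries K} (h : Dv d R c w) (h' : Dv d R c w') :
    Dv d R c (w + w') := by
  obtain ⟨r, hr, rfl⟩ := h
  obtain ⟨r', hr', rfl⟩ := h'
  exact ⟨r + r', add_mem hr hr', by rw [mul_add]⟩

theorem dv_sub {c : K} {w w' : LaurentSeries K} (h : Dv d R c w) (h' : Dv d R c w') :
    Dv d R c (w - w') := by
  have h1 := dv_add h (dv_smul (-1) h')
  rwa [neg_one_smul, ← sub_eq_add_neg] at h1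

theorem zpol_ne_zero (hd : d ≠ 0) {p : K[X]} (hp : p ≠ 0) : zpol K d p ≠ 0 := by
  intro h
  apply hp
  refine KRK.zpol_inj hd ?_
  rw [h, map_zero]

theorem mem_of_pdp (hPDP : Stmt_PDP) (hR : Kr g R) (u : LaurentSeries K)
    (h : ∀ η : LaurentSeries K, Pe R η → (η * u).coeff (-1) = 0) : u ∈ R := by
  have h1 := hPDP hR (fun _ => u) (by
    intro η hη
    have h2 : res (η * fun _ => u) = (η () * u).coeff (-1) := by
      change ∑ i : Unit, ((η * (fun _ => u : KK Unit K)) i).coeff (-1) = _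
      rw [Finset.univ_unique, Finset.sum_singleton]
      rfl
    rw [h2]
    refine h _ fun p hp => ?_
    have h3 := hη (fun _ => p) hp
    have h4 : res (η * fun _ => p) = (η () * p).coeff (-1) := by
      change ∑ i : Unit, ((η * (fun _ => p : KK Unit K)) i).coeff (-1) = _
      rw [Finset.univ_unique, Finset.sum_singleton]
      rfl
    rwa [h4] at h3)
  exact h1

section

variable {V : LaurentSeries K} {f f' : K[X]} {β : K}

/-- The quotient `f(z) η / dz`. -/
noncomputable def W (d : ℕ) (f : K[X]) (V η : LaurentSeries K) : LaurentSeries K :=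
  zpol K d f * (η * V)

theorem W_add (d : ℕ) (f : K[X]) (V η η' : LaurentSeries K) :
    W d f V (η + η') = W d f V η + W d f V η' := by
  rw [W, W, W, add_mul, mul_add]

theorem W_smul (d : ℕ) (f : K[X]) (V : LaurentSeries K) (a : K) (η : LaurentSeries K) :
    W d f V (a • η) = a • W d f V η := by
  rw [W, W, smul_mul_assoc, mul_smul_comm]

theorem W_mem (hV : V * ld (zz K d) = 1) (hK : Kil d R f) {η : LaurentSeries K} (hη : Pe R η) :
    W d f V η ∈ R := by
  obtain ⟨y, hy, h⟩ := hK η hη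
  have h1 : W d f V η = y := by
    have : W d f V η = zpol K d f * η * V := by
      rw [W]
      ring
    rw [this, h, mul_assoc, mul_comm (ld (zz K d)) V, hV, mul_one]
  rw [h1]
  exact hy

theorem W_rad (hd : 0 < d) (hdu : (d : K) ≠ 0) (hz : zz K d ∈ R) (hV : V * ld (zz K d) = 1)
    (hf : f = (X - C β) * f') {η : LaurentSeries K} (hη : Pe R η) : Rad d R β (W d f V η) := by
  intro p hp
  obtain ⟨q, hq⟩ := polyV hd hdu hz hV hη hp
  refine ⟨f' * q, ?_⟩
  rw [W, mul_assoc, pr0_zpol_mul, hq, ← map_mul, hf, mul_assoc]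

/-- the pairing of a multiple of `z - β` with an element of `Pe` -/
theorem pair_dv (hd : 0 < d) (hdu : (d : K) ≠ 0) (hz : zz K d ∈ R) (hV : V * ld (zz K d) = 1)
    {w η : LaurentSeries K} (hw : Dv d R β w) (hη : Pe R η) :
    ∃ q : K[X], pr0 K d (w * (η * V)) = zpol K d ((X - C β) * q) := by
  obtain ⟨r, hr, rfl⟩ := hw
  obtain ⟨q, hq⟩ := polyV hd hdu hz hV hη hr
  refine ⟨q, ?_⟩
  rw [mul_assoc, pr0_zpol_mul, mul_comm r, hq, map_mul]

theorem pair_ex (hd : 0 < d) (hdu : (d : K) ≠ 0) (hz : zz K d ∈ R) (hV : V * ld (zz K d) = 1)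
    (hK : Kil d R f) {η η' : LaurentSeries K} (hη : Pe R η) (hη' : Pe R η') :
    ∃ q : K[X], pr0 K d (W d f V η * (η' * V)) = zpol K d q := by
  obtain ⟨q, hq⟩ := polyV hd hdu hz hV hη' (W_mem hV hK hη)
  exact ⟨q, by rw [mul_comm, hq]⟩

theorem pair_symm (η η' : LaurentSeries K) :
    W d f V η * (η' * V) = W d f V η' * (η * V) := by
  rw [W, W]
  ring

/-- comparison of the values at `β` -/
theorem pair_eval (hd : 0 < d) (hdu : (d : K) ≠ 0) (hz : zz K d ∈ R) (hV : V * ld (zz K d) = 1)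
    {η η' ω₀ : LaurentSeries K} {a : K}
    (ha : Dv d R β (W d f V η - a • W d f V ω₀)) (hη' : Pe R η') {q q₁ : K[X]}
    (hq : pr0 K d (W d f V η * (η' * V)) = zpol K d q)
    (hq₁ : pr0 K d (W d f V ω₀ * (η' * V)) = zpol K d q₁) : q.eval β = a * q₁.eval β := by
  obtain ⟨q₂, hq₂⟩ := pair_dv hd hdu hz hV ha hη'
  rw [sub_mul, map_sub, smul_mul_assoc, map_smul, hq, hq₁, ← map_smul, ← map_sub] at hq₂
  have h1 := congrArg (eval β) (KRK.zpol_inj hd.ne' hq₂)
  rw [eval_sub, eval_smul, eval_mul, eval_sub, eval_X, eval_C, sub_self, zero_mul,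
    smul_eq_mul, sub_eq_zero] at h1
  exact h1

theorem perl (hPDP : Stmt_PDP) (hLA : Stmt_ZLA) (hd : 0 < d) (hdu : (d : K) ≠ 0) (hR : Kr g R)
    (hz : zz K d ∈ R) (hV : V * ld (zz K d) = 1) (hK : Kil d R f)
    {e : Fin d → LaurentSeries K} {G : Matrix (Fin d) (Fin d) K[X]} (hb : ZBas d R e)
    (hG : ZGram d e G) (hdet : ¬ (X - C β) ^ 2 ∣ G.det) (hf : f = (X - C β) * f') {κ : K}
    (hκ : κ ≠ 0) :
    ∃ (ev : EE1 R →ₗ[K] K) (c : K), c ≠ 0 ∧
      (∀ ω : EE1 R, ev ω = 0 → Dv d R β (W d f V ω)) ∧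
      ∀ (ω ω' : EE1 R) (q : K[X]), pr0 K d (W d f V ω * ((ω' : LaurentSeries K) * V)) =
        zpol K d q → q.eval β * κ = c * (ev ω * ev ω') := by
  classical
  by_cases hall : ∀ ω : EE1 R, Dv d R β (W d f V ω)
  · refine ⟨0, 1, one_ne_zero, fun ω _ => hall ω, fun ω ω' q hq => ?_⟩
    obtain ⟨q₂, hq₂⟩ := pair_dv hd hdu hz hV (hall ω) (pe_of ω')
    rw [hq] at hq₂
    have h1 := congrArg (eval β) (KRK.zpol_inj hd.ne' hq₂)
    rw [eval_mul, eval_sub, eval_X, eval_C, sub_self, zero_mul] at h1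
    rw [h1]
    simp
  · push Not at hall
    obtain ⟨ω₀, hω₀⟩ := hall
    have hex : ∀ η : LaurentSeries K, Pe R η →
        ∃ a : K, Dv d R β (W d f V η - a • W d f V ω₀) := fun η hη =>
      radical_prop hLA hd.ne' hz hb hG hdet (W_mem hV hK (pe_of ω₀)) (W_mem hV hK hη)
        (W_rad hd hdu hz hV hf (pe_of ω₀)) (W_rad hd hdu hz hV hf hη) hω₀
    have huniq : ∀ a : K, Dv d R β (a • W d f V (ω₀ : LaurentSeries K)) → a = 0 := by
      intro a ha
      by_contra hne
      apply hω₀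
      have h1 := dv_smul a⁻¹ ha
      rwa [smul_smul, inv_mul_cancel₀ hne, one_smul] at h1
    let A : EE1 R → K := fun ω => (hex ω (pe_of ω)).choose
    have hA : ∀ ω : EE1 R, Dv d R β (W d f V ω - A ω • W d f V ω₀) := fun ω =>
      (hex ω (pe_of ω)).choose_spec
    have hAeq : ∀ (ω : EE1 R) (a : K), Dv d R β (W d f V ω - a • W d f V ω₀) → A ω = a := by
      intro ω a ha
      have h1 := dv_sub ha (hA ω)
      have h2 : W d f V ω - a • W d f V ω₀ - (W d f V ω - A ω • W d f V ω₀) =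
          (A ω - a) • W d f V (ω₀ : LaurentSeries K) := by
        rw [sub_smul]
        ring
      rw [h2] at h1
      exact sub_eq_zero.1 (huniq _ h1)
    let ev : EE1 R →ₗ[K] K :=
      { toFun := A
        map_add' := fun ω ω' => by
          refine hAeq _ _ ?_
          have h1 := dv_add (hA ω) (hA ω')
          have h2 : W d f V ((ω + ω' : EE1 R) : LaurentSeries K) -
              (A ω + A ω') • W d f V ω₀ =
              W d f V ω - A ω • W d f V ω₀ + (W d f V ω' - A ω' • W d f V ω₀) := by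
            rw [Submodule.coe_add, W_add, add_smul]
            ring
          rw [h2]
          exact h1
        map_smul' := fun a ω => by
          refine hAeq _ _ ?_
          have h1 := dv_smul a (hA ω)
          have h2 : W d f V ((a • ω : EE1 R) : LaurentSeries K) -
              (RingHom.id K a • A ω) • W d f V ω₀ =
              a • (W d f V ω - A ω • W d f V ω₀) := by
            rw [Submodule.coe_smul, W_smul, smul_sub, smul_smul, RingHom.id_apply, smul_eq_mul]
          rw [h2]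
          exact h1 }
    obtain ⟨q₀, hq₀⟩ := pair_ex hd hdu hz hV hK (pe_of ω₀) (pe_of ω₀)
    have hq0ne : q₀.eval β ≠ 0 := by
      intro h0
      apply hω₀
      refine ⟨zpol K d f' * ((ω₀ : LaurentSeries K) * V), ?_, ?_⟩
      · refine mem_of_pdp hPDP hR _ fun η hη => ?_
        obtain ⟨q₁, hq₁⟩ := pair_ex hd hdu hz hV hK (pe_of ω₀) hη
        obtain ⟨a, ha⟩ := hex η hη
        have h1 : q₁.eval β = a * q₀.eval β := by
          refine pair_eval hd hdu hz hV ha (pe_of ω₀) ?_ hq₀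
          rw [pair_symm]
          exact hq₁
        rw [h0, mul_zero] at h1
        obtain ⟨q₃, hq₃⟩ := dvd_iff_isRoot.2 h1
        have h2 : W d f V (ω₀ : LaurentSeries K) * (η * V) = zpol K d (X - C β) *
            (zpol K d f' * ((ω₀ : LaurentSeries K) * V) * (η * V)) := by
          rw [W, hf, map_mul]
          ring
        rw [h2, pr0_zpol_mul, hq₃, map_mul (zpol K d)] at hq₁
        have h3 := mul_left_cancel₀ (zpol_ne_zero hd.ne' (X_sub_C_ne_zero β)) hq₁
        have h4 : η * (zpol K d f' * ((ω₀ : LaurentSeries K) * V)) =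
            (zpol K d f' * ((ω₀ : LaurentSeries K) * V) * (η * V)) * ld (zz K d) := by
          have : zpol K d f' * ((ω₀ : LaurentSeries K) * V) * (η * V) * ld (zz K d) =
              η * (zpol K d f' * ((ω₀ : LaurentSeries K) * V)) * (V * ld (zz K d)) := by ring
          rw [this, hV, mul_one]
        rw [h4, KIL.coeff_mul_ld_zz]
        have h5 := congrArg (fun F => F.coeff (d : ℤ)) h3
        have h6 : (zpol K d q₃).coeff (d : ℤ) = 0 :=
          ZL.ev_coeff_pos d q₃ _ (by exact_mod_cast hd)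
        simp only [pr0_coeff, dvd_refl, if_true] at h5
        rw [h5, h6, mul_zero]
      · rw [W, hf, map_mul]
        ring
    refine ⟨ev, q₀.eval β * κ, mul_ne_zero hq0ne hκ, fun ω h0 => ?_, fun ω ω' q hq => ?_⟩
    · have h1 := hA ω
      have h2 : A ω = 0 := h0
      rw [h2, zero_smul, sub_zero] at h1
      exact h1
    · obtain ⟨q₁, hq₁⟩ := pair_ex hd hdu hz hV hK (pe_of ω₀) (pe_of ω')
      have h1 : q.eval β = A ω * q₁.eval β := pair_eval hd hdu hz hV (hA ω) (pe_of ω') hq hq₁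
      have h2 : q₁.eval β = A ω' * q₀.eval β := by
        refine pair_eval hd hdu hz hV (hA ω') (pe_of ω₀) ?_ hq₀
        rw [pair_symm]
        exact hq₁
      change q.eval β * κ = q₀.eval β * κ * (A ω * A ω')
      rw [h1, h2]
      ring

/-- divisibility by the product -/
theorem dv_prod (hz : zz K d ∈ R) {β : Fin b → K} (hβ : Function.Injective β)
    {w : LaurentSeries K} (hw : w ∈ R) (h : ∀ l, Dv d R (β l) w) (s : Finset (Fin b)) :
    ∃ r ∈ R, w = zpol K d (∏ l ∈ s, (X - C (β l))) * r := by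
  classical
  induction s using Finset.induction_on with
  | empty => exact ⟨w, hw, by rw [Finset.prod_empty, map_one, one_mul]⟩
  | insert l s hl ih =>
    obtain ⟨r, hr, h1⟩ := ih
    obtain ⟨r', hr', h2⟩ := h l
    have hco : IsCoprime (∏ m ∈ s, (X - C (β m))) (X - C (β l)) := by
      refine IsCoprime.prod_left fun m hm => ?_
      refine isCoprime_X_sub_C_of_isUnit_sub ?_
      refine (sub_ne_zero.2 fun h0 => ?_).isUnit
      have := hβ h0
      subst this
      exact hl hm
    obtain ⟨A, B, hAB⟩ := hco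
    refine ⟨zpol K d A * r' + zpol K d B * r,
      add_mem (mul_mem (KRK.zpol_mem hz _) hr') (mul_mem (KRK.zpol_mem hz _) hr), ?_⟩
    rw [Finset.prod_insert hl]
    have h3 : w = zpol K d (A * ∏ m ∈ s, (X - C (β m)) + B * (X - C (β l))) * w := by
      rw [hAB, map_one, one_mul]
    have h4 : zpol K d (A * ∏ m ∈ s, (X - C (β m)) + B * (X - C (β l))) * w =
        zpol K d A * zpol K d (∏ m ∈ s, (X - C (β m))) * w +
          zpol K d B * zpol K d (X - C (β l)) * w := by
      rw [map_add, map_mul, map_mul, add_mul]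
    rw [h4] at h3
    have h5 : w = zpol K d A * zpol K d (∏ m ∈ s, (X - C (β m))) * (zpol K d (X - C (β l)) * r') +
        zpol K d B * zpol K d (X - C (β l)) * (zpol K d (∏ m ∈ s, (X - C (β m))) * r) := by
      rw [← h2, ← h1]
      exact h3
    rw [h5, map_mul]
    ring

end

end ZQA

open _root_.Pool.Agent.MG.G0.ZQA in
theorem t_ZQA (hKIL : Stmt_KIL) (hPDP : Stmt_PDP) (_hZD1 : Stmt_ZD1) (hZLA : Stmt_ZLA)
    (hZRF : Stmt_ZRF) : Stmt_ZQA := by
  classical
  intro K _ g d b R β hd hdu hR hz hβ hD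
  have hd0 : 0 < d := hd
  have hKil : Kil d R (∏ l, (X - C (β l))) := hKIL.1 hd (isUnit_iff_ne_zero.2 hdu) hR hz hD
  obtain ⟨e, G, hb, hG, u, hu, hdet⟩ := hD
  obtain ⟨U, hU⟩ := KIL.isUnit_ld_zz (A := K) (d := d) (isUnit_iff_ne_zero.2 hdu)
  set V : LaurentSeries K := (↑U⁻¹ : LaurentSeries K) with hVdef
  have hV : V * ld (zz K d) = 1 := by rw [hVdef, ← hU, Units.inv_mul]
  let f : K[X] := ∏ l, (X - C (β l))
  let f' : Fin b → K[X] := fun l => ∏ m ∈ Finset.univ.erase l, (X - C (β m))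
  have hff : ∀ l, f = (X - C (β l)) * f' l := fun l =>
    (Finset.mul_prod_erase Finset.univ (fun m => X - C (β m)) (Finset.mem_univ l)).symm
  have hf'ev : ∀ l, (f' l).eval (β l) = ∏ m ∈ Finset.univ.erase l, (β l - β m) := by
    intro l
    simp only [f', eval_prod, eval_sub, eval_X, eval_C]
  have hf'ne : ∀ l, ∏ m ∈ Finset.univ.erase l, (β l - β m) ≠ 0 := by
    intro l
    refine Finset.prod_ne_zero_iff.2 fun m hm h0 => ?_
    exact (Finset.ne_of_mem_erase hm) (hβ (sub_eq_zero.1 h0)).symm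
  have hsq : ∀ l, ¬ (X - C (β l)) ^ 2 ∣ G.det := by
    rintro l ⟨q, hq⟩
    have h1 : (X - C (β l)) * (u * f' l) = (X - C (β l)) * ((X - C (β l)) * q) := by
      have h2 : G.det = u * f := hdet
      rw [hff l] at h2
      have h3 : (X - C (β l)) * (u * f' l) = G.det := by
        rw [h2]
        ring
      rw [h3, hq]
      ring
    have h4 := mul_left_cancel₀ (X_sub_C_ne_zero (β l)) h1
    have h5 := congrArg (eval (β l)) h4
    rw [eval_mul, eval_mul, eval_sub, eval_X, eval_C, sub_self, zero_mul, hf'ev] at h5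
    have h6 : IsUnit (eval (β l) u) := hu.map (evalRingHom (β l))
    exact (mul_ne_zero h6.ne_zero (hf'ne l)) h5
  have hκ : ∀ l, -(d : K) * (∏ m ∈ Finset.univ.erase l, (β l - β m))⁻¹ ≠ 0 := fun l =>
    mul_ne_zero (neg_ne_zero.2 hdu) (inv_ne_zero (hf'ne l))
  have hper := fun l => perl hPDP hZLA hd0 hdu hR hz hV hKil hb hG (hsq l) (hff l) (hκ l)
  choose ev c hc0 hker hform using hper
  refine ⟨ev, c, hc0, ?_, ?_⟩
  · intro ω h0
    obtain ⟨r, hr, h1⟩ := dv_prod hz hβ (W_mem hV hKil (pe_of ω)) (fun l => hker l ω (h0 l))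
      Finset.univ
    have hf0 : f ≠ 0 := Finset.prod_ne_zero_iff.2 fun l _ => X_sub_C_ne_zero (β l)
    have h2 : (ω : LaurentSeries K) * V = r :=
      mul_left_cancel₀ (zpol_ne_zero hd0.ne' hf0) h1
    have h3 : (ω : LaurentSeries K) = r * ld (zz K d) := by
      rw [← h2, mul_assoc, hV, mul_one]
    have h4 : ∀ n : ℤ, n < (d : ℤ) + 1 → r.coeff n = 0 := by
      intro n hn
      have h5 := ω.2.2 (n - d - 1) (by omega)
      have h6 : n - (d : ℤ) - 1 - (-(d : ℤ) - 1) = n := by ring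
      rw [h3, KIL.ld_zz, mul_comm, HahnSeries.coeff_single_mul, h6] at h5
      exact (mul_eq_zero.1 h5).resolve_left (neg_ne_zero.2 hdu)
    obtain ⟨a, ha⟩ := (Kr_iff.1 hR).1 r hr fun m hm => h4 m (by omega)
    have h7 := h4 0 (by omega)
    rw [ha, coeff_algebraMap, if_pos rfl] at h7
    apply Subtype.ext
    rw [h3, ha, h7, map_zero, zero_mul]
    rfl
  · intro a ω ω' y hy
    obtain ⟨q, hq⟩ := pair_ex hd0 hdu hz hV hKil (pe_of ω) (pe_of ω')
    have hy' : y = zpol K d a * ((ω : LaurentSeries K) * V) := by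
      have h1 : y = y * ld (zz K d) * V := by
        rw [mul_assoc, mul_comm (ld (zz K d)) V, hV, mul_one]
      rw [h1, hy]
      ring
    have h2 : (ω' : LaurentSeries K) * y =
        (zpol K d a * (((ω : LaurentSeries K) * V) * ((ω' : LaurentSeries K) * V))) *
          ld (zz K d) := by
      have : (zpol K d a * (((ω : LaurentSeries K) * V) * ((ω' : LaurentSeries K) * V))) *
          ld (zz K d) = (ω' : LaurentSeries K) * (zpol K d a * ((ω : LaurentSeries K) * V)) *
            (V * ld (zz K d)) := by ring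
      rw [this, hV, mul_one, hy']
    have h3 : (zpol K d a * (((ω : LaurentSeries K) * V) *
        ((ω' : LaurentSeries K) * V))).coeff (d : ℤ) = (pr0 K d (zpol K d a *
          (((ω : LaurentSeries K) * V) * ((ω' : LaurentSeries K) * V)))).coeff (d : ℤ) := by
      rw [pr0_coeff, if_pos (dvd_refl _)]
    have h4 : zpol K d (∏ l, (X - C (β l))) * pr0 K d (zpol K d a *
        (((ω : LaurentSeries K) * V) * ((ω' : LaurentSeries K) * V))) = zpol K d (a * q) := by
      rw [pr0_zpol_mul, map_mul (zpol K d), ← hq, W, mul_assoc (zpol K d _), pr0_zpol_mul]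
      ring
    have h5 := hZRF β hd0 hβ (a * q) _ h4
    rw [h2, KIL.coeff_mul_ld_zz, h3, h5, Finset.mul_sum]
    refine Finset.sum_congr rfl fun l _ => ?_
    have h6 := hform l ω ω' q hq
    rw [eval_mul]
    have h7 : -(d : K) * (eval (β l) a * eval (β l) q *
        (∏ m ∈ Finset.univ.erase l, (β l - β m))⁻¹) = eval (β l) a * (eval (β l) q *
          (-(d : K) * (∏ m ∈ Finset.univ.erase l, (β l - β m))⁻¹)) := by ring
    rw [h7, h6]
    ring

end Pool.Agent.MG.G0


end
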