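import Mathlib
import Pool.Agent.KDM.C02
import Pool.Agent.KDM.C08
import Pool.Agent.KDM.C11
import Pool.Agent.KDM.C25
import Pool.Agent.KDM.C29
import Pool.Agent.KDM.C30

/-! Parts: MG.KX.GNB, MG.KX.KRV, MG.KX.XRX, MG.G0.PDP, MG.G0.ZL.L8, MG.G0.ZL.L9, MG.G0.ZL.L10, MG.G0.ZL.L11, MG.G0.ZL.L12, MG.G0.ZL.L13, MG.G0.ZL.L14, MG.G0.ZL.Fin -/

section

/-!
# GNB: genericity and extension of the field

Hypotheses used: `Stmt_KBC`, `Stmt_SCO`, `Stmt_SKK`, `Stmt_SDB` of `Pool.Agent.MG.G0`.
-/

namespace Pool.Agent.MG.KX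

open Pool.Agent.MG.G0

namespace GNB

/-! ## Extension of derivations -/

/-- Extensions of fields of characteristic zero are formally smooth. -/
theorem smooth_ext (K L : Type) [Field K] [CharZero K] [Field L] [Algebra K L] :
    Algebra.FormallySmooth K L := by
  obtain ⟨s, hs⟩ := exists_isTranscendenceBasis K L
  have h1 : Algebra.IsAlgebraic (IntermediateField.adjoin K (Set.range ((↑) : s → L))) L :=
    hs.isAlgebraic_field
  have h3 : Algebra.IsSeparable (IntermediateField.adjoin K (Set.range ((↑) : s → L))) L :=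
    inferInstance
  exact Algebra.FormallySmooth.of_algebraicIndependent_of_isSeparable hs.1

/-- Lifting of a homomorphism along a formally smooth homomorphism `f` through a surjection `q`
with square zero kernel. -/
theorem fs_lift {R S G G' : Type} [CommRing R] [CommRing S] [CommRing G] [CommRing G']
    (f : R →+* S) (hf : f.FormallySmooth) (g : R →+* G) (q : G →+* G')
    (hq : Function.Surjective q) (hk : ∀ v w, q v = 0 → q w = 0 → v * w = 0) (u : S →+* G')
    (h : ∀ r, u (f r) = q (g r)) :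
    ∃ v : S →+* G, (∀ r, v (f r) = g r) ∧ ∀ a, q (v a) = u a := by
  let : Algebra R S := f.toAlgebra
  let : Algebra R G := g.toAlgebra
  let : Algebra R G' := (q.comp g).toAlgebra
  have : Algebra.FormallySmooth R S := hf
  let q' : G →ₐ[R] G' := { q with commutes' := fun r => rfl }
  let u' : S →ₐ[R] G' := { u with commutes' := fun r => h r }
  have hn : IsNilpotent (RingHom.ker (q' : G →+* G')) := by
    refine ⟨2, ?_⟩
    rw [pow_two, Ideal.zero_eq_bot, eq_bot_iff, Ideal.mul_le]
    intro r hr s hs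
    rw [Ideal.mem_bot]
    exact hk r s hr hs
  let v := Algebra.FormallySmooth.liftOfSurjective u' q' hq hn
  refine ⟨(v : S →+* G), fun r => v.commutes r, fun a => ?_⟩
  exact Algebra.FormallySmooth.liftOfSurjective_apply u' q' hq hn a

/-- Derivations extend along extensions of fields of characteristic zero. -/
theorem ext_der {K L : Type} [Field K] [Algebra ℂ K] [Field L] [Algebra ℂ L] (φ : K →ₐ[ℂ] L)
    (D : Derivation ℂ K K) : ∃ E : Derivation ℂ L L, ∀ a, E (φ a) = φ (D a) := by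
  have hK : CharZero K := charZero_of_injective_algebraMap (algebraMap ℂ K).injective
  have hf : (φ : K →+* L).FormallySmooth := by
    let : Algebra K L := (φ : K →+* L).toAlgebra
    exact smooth_ext K L
  obtain ⟨v, hv, hv'⟩ := fs_lift (φ : K →+* L) hf ((epsMap (φ : K →+* L)).comp (Std.epsDer D))
    (eps0 L) (fun a => ⟨TrivSqZeroExt.inl a, rfl⟩) (by
      intro v w h1 h2
      have h1' : v.fst = 0 := h1
      have h2' : w.fst = 0 := h2
      ext
      · rw [TrivSqZeroExt.fst_mul, h1', zero_mul, TrivSqZeroExt.fst_zero]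
      · rw [TrivSqZeroExt.snd_mul, h1', h2', TrivSqZeroExt.snd_zero]
        simp) (RingHom.id L) (by
      intro a
      change φ a = _
      simp [epsMap, Std.epsDer])
  have hfst : ∀ a, (v a).fst = a := hv'
  have hsnd : ∀ a, (v (φ a)).snd = φ (D a) := by
    intro a
    have h1 := congrArg TrivSqZeroExt.snd (hv a)
    refine h1.trans ?_
    simp [epsMap, Std.epsDer]
  refine ⟨Derivation.mk' { toFun := fun a => (v a).snd, map_add' := ?_, map_smul' := ?_ } ?_,
    hsnd⟩
  · intro a b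
    rw [map_add, TrivSqZeroExt.snd_add]
  · intro c a
    have h1 : c • a = φ (algebraMap ℂ K c) * a := by
      rw [AlgHom.commutes, Algebra.smul_def]
    rw [h1, map_mul, TrivSqZeroExt.snd_mul, hsnd, D.map_algebraMap, map_zero, smul_zero, add_zero,
      hfst, AlgHom.commutes, RingHom.id_apply, smul_eq_mul, Algebra.smul_def]
  · intro a b
    change (v (a * b)).snd = a • (v b).snd + b • (v a).snd
    rw [map_mul, TrivSqZeroExt.snd_mul, hfst, hfst, op_smul_eq_smul]

/-! ## Coefficientwise derivations -/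

section

variable {I K L : Type}

theorem kadd_coeff [CommRing L] (D : L →+ L) (f : KK I L) (i : I) (m : ℤ) :
    (kadd D f i).coeff m = D ((f i).coeff m) := rfl

theorem kadd_add [CommRing L] (D : L →+ L) (f g : KK I L) :
    kadd D (f + g) = kadd D f + kadd D g := by
  funext i
  ext m
  rw [kadd_coeff, Pi.add_apply, HahnSeries.coeff_add, map_add, Pi.add_apply,
    HahnSeries.coeff_add, kadd_coeff, kadd_coeff]

theorem kadd_zero' [CommRing L] (D : L →+ L) : kadd D (0 : KK I L) = 0 := by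
  funext i
  ext m
  rw [kadd_coeff, Pi.zero_apply, HahnSeries.coeff_zero, map_zero]

theorem kadd_smul [CommRing L] [Algebra ℂ L] (D : Derivation ℂ L L) (c : L) (f : KK I L) :
    kadd (D : L →+ L) (c • f) = D c • f + c • kadd (D : L →+ L) f := by
  funext i
  ext m
  rw [kadd_coeff, Pi.smul_apply, HahnSeries.coeff_smul, Pi.add_apply, HahnSeries.coeff_add,
    Pi.smul_apply, HahnSeries.coeff_smul, Pi.smul_apply, HahnSeries.coeff_smul, kadd_coeff]
  change D (c • (f i).coeff m) = D c • (f i).coeff m + c • D ((f i).coeff m)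
  rw [smul_eq_mul, Derivation.leibniz, smul_eq_mul, smul_eq_mul, smul_eq_mul]
  ring

theorem add_kadd [CommRing L] [Algebra ℂ L] (D E : Derivation ℂ L L) (f : KK I L) :
    kadd ((D + E : Derivation ℂ L L) : L →+ L) f = kadd (D : L →+ L) f + kadd (E : L →+ L) f := by
  funext i
  ext m
  rw [Pi.add_apply, HahnSeries.coeff_add, kadd_coeff, kadd_coeff, kadd_coeff]
  rfl

theorem smul_kadd [CommRing L] [Algebra ℂ L] (c : L) (D : Derivation ℂ L L) (f : KK I L) :
    kadd ((c • D : Derivation ℂ L L) : L →+ L) f = c • kadd (D : L →+ L) f := by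
  funext i
  ext m
  rw [Pi.smul_apply, HahnSeries.coeff_smul, kadd_coeff, kadd_coeff]
  rfl

theorem zero_kadd [CommRing L] [Algebra ℂ L] (f : KK I L) :
    kadd ((0 : Derivation ℂ L L) : L →+ L) f = 0 := by
  funext i
  ext m
  rw [Pi.zero_apply, HahnSeries.coeff_zero, kadd_coeff]
  rfl

theorem kadd_kmap [CommRing K] [CommRing L] (φ : K →+* L) (D : K →+ K) (E : L →+ L)
    (h : ∀ a, E (φ a) = φ (D a)) (f : KK I K) : kadd E (kmap φ f) = kmap φ (kadd D f) := by
  funext i
  ext m
  rw [kadd_coeff, kmap_apply, lmap_coeff, h, kmap_apply, lmap_coeff, kadd_coeff]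

/-! ## The vector fields which come from derivations of the field -/

/-- The deformation given by `θ` comes from a derivation of `L` and a vector field without
poles. -/
def GD [CommRing L] [Algebra ℂ L] (Q : Subalgebra L (KK I L)) (θ : KK I L) : Prop :=
  ∃ (D : Derivation ℂ L L) (η : KK I L), η ∈ Pol I L 0 ∧
    ∀ f ∈ Q, θ * dd f - kadd (D : L →+ L) f - η * dd f ∈ Q

theorem GD_pol [CommRing L] [Algebra ℂ L] (Q : Subalgebra L (KK I L)) {θ : KK I L}
    (h : θ ∈ Pol I L 0) : GD Q θ := by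
  refine ⟨0, θ, h, fun f _ => ?_⟩
  rw [zero_kadd, sub_zero, sub_self]
  exact zero_mem Q

theorem GD_add [CommRing L] [Algebra ℂ L] {Q : Subalgebra L (KK I L)} {θ θ' : KK I L}
    (h : GD Q θ) (h' : GD Q θ') : GD Q (θ + θ') := by
  obtain ⟨D, η, h1, h2⟩ := h
  obtain ⟨D', η', h1', h2'⟩ := h'
  refine ⟨D + D', η + η', add_mem h1 h1', fun f hf => ?_⟩
  have e : (θ + θ') * dd f - kadd ((D + D' : Derivation ℂ L L) : L →+ L) f - (η + η') * dd f =
      (θ * dd f - kadd (D : L →+ L) f - η * dd f) +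
      (θ' * dd f - kadd (D' : L →+ L) f - η' * dd f) := by
    rw [add_kadd]
    ring
  rw [e]
  exact add_mem (h2 f hf) (h2' f hf)

theorem GD_smul [CommRing L] [Algebra ℂ L] {Q : Subalgebra L (KK I L)} {θ : KK I L} (c : L)
    (h : GD Q θ) : GD Q (c • θ) := by
  obtain ⟨D, η, h1, h2⟩ := h
  refine ⟨c • D, c • η, Submodule.smul_mem _ c h1, fun f hf => ?_⟩
  have e : (c • θ) * dd f - kadd ((c • D : Derivation ℂ L L) : L →+ L) f - (c • η) * dd f =
      c • (θ * dd f - kadd (D : L →+ L) f - η * dd f) := by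
    rw [smul_kadd, smul_mul_assoc, smul_mul_assoc, smul_sub, smul_sub]
  rw [e]
  exact Q.smul_mem (h2 f hf) c

theorem GD_sum [CommRing L] [Algebra ℂ L] {Q : Subalgebra L (KK I L)} {ι : Type} (s : Finset ι)
    (θ : ι → KK I L) (h : ∀ i ∈ s, GD Q (θ i)) : GD Q (∑ i ∈ s, θ i) := by
  classical
  induction s using Finset.induction_on with
  | empty =>
    rw [Finset.sum_empty]
    exact GD_pol Q (zero_mem _)
  | insert a s ha ih =>
    rw [Finset.sum_insert ha]
    exact GD_add (h a (Finset.mem_insert_self a s))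
      (ih fun i hi => h i (Finset.mem_insert_of_mem hi))

/-- The vector fields over the small field. -/
theorem GD_kmap [Field K] [Algebra ℂ K] [Field L] [Algebra ℂ L] (hKBC : Stmt_KBC)
    (φ : K →ₐ[ℂ] L) {P : Subalgebra K (KK I K)} (hP : Gnr P) (θ : KK I K) :
    GD (bc (φ : K →+* L) P) (kmap (φ : K →+* L) θ) := by
  obtain ⟨D, η, hη, hD⟩ := hP (tder P θ)
  obtain ⟨E, hE⟩ := ext_der φ D
  have hE' : ∀ a, (E : L →+ L) ((φ : K →+* L) a) = (φ : K →+* L) ((D : K →+ K) a) := hE
  refine ⟨E, kmap (φ : K →+* L) η, kmap_mem_Pol _ hη, fun f hf => ?_⟩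
  have hf' : f ∈ Submodule.span L (kmap (φ : K →+* L) '' (P : Set (KK I K))) := by
    rw [← hKBC.1 (φ : K →+* L) P]
    exact hf
  induction hf' using Submodule.span_induction with
  | mem x hx =>
    obtain ⟨p, hp, rfl⟩ := hx
    have h1 := hD ⟨p, hp⟩
    rw [tder_apply, ← map_add, mk_eq] at h1
    have h2 : θ * dd p - (kadd (D : K →+ K) p + η * dd p) ∈ P := h1
    rw [kadd_kmap (φ : K →+* L) (D : K →+ K) (E : L →+ L) hE', ← kmap_dd, ← map_mul, ← map_mul,
      ← map_sub, ← map_sub, sub_sub]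
    exact kmap_mem_bc _ h2
  | zero =>
    have h0 : dd (0 : KK I L) = 0 := map_zero (ddD I L)
    rw [h0, kadd_zero', mul_zero, mul_zero, sub_zero, sub_zero]
    exact zero_mem _
  | add x y hx hy h1 h2 =>
    have h3 := h1 (by rw [← Subalgebra.mem_toSubmodule, hKBC.1]; exact hx)
    have h4 := h2 (by rw [← Subalgebra.mem_toSubmodule, hKBC.1]; exact hy)
    have e : kmap (φ : K →+* L) θ * dd (x + y) - kadd (E : L →+ L) (x + y) -
        kmap (φ : K →+* L) η * dd (x + y) =
        (kmap (φ : K →+* L) θ * dd x - kadd (E : L →+ L) x - kmap (φ : K →+* L) η * dd x) +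
        (kmap (φ : K →+* L) θ * dd y - kadd (E : L →+ L) y - kmap (φ : K →+* L) η * dd y) := by
      rw [dd_add, kadd_add]
      ring
    rw [e]
    exact add_mem h3 h4
  | smul c x hx h1 =>
    have hx' : x ∈ bc (φ : K →+* L) P := by
      rw [← Subalgebra.mem_toSubmodule, hKBC.1]
      exact hx
    have h3 := h1 hx'
    have e : kmap (φ : K →+* L) θ * dd (c • x) - kadd (E : L →+ L) (c • x) -
        kmap (φ : K →+* L) η * dd (c • x) =
        c • (kmap (φ : K →+* L) θ * dd x - kadd (E : L →+ L) x - kmap (φ : K →+* L) η * dd x) -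
          E c • x := by
      rw [dd_smul, kadd_smul, mul_smul_comm, mul_smul_comm, smul_sub, smul_sub]
      abel
    rw [e]
    exact sub_mem (Subalgebra.smul_mem _ h3 c) (Subalgebra.smul_mem _ hx' _)

/-- All vector fields. -/
theorem GD_all [Fintype I] [Field K] [Algebra ℂ K] [Field L] [Algebra ℂ L] (hKBC : Stmt_KBC)
    (φ : K →ₐ[ℂ] L) {P : Subalgebra K (KK I K)} (hP : Gnr P) (θ : KK I L) :
    GD (bc (φ : K →+* L) P) θ := by
  obtain ⟨n, hn⟩ := exists_Pol θ
  have h1 := sub_mon_mem_Pol hn 0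
  rw [neg_zero] at h1
  have h2 : GD (bc (φ : K →+* L) P)
      (∑ i, ∑ m ∈ Finset.Ico (-(n : ℤ)) 0, mon i m ((θ i).coeff m)) := by
    refine GD_sum _ _ fun i _ => GD_sum _ _ fun m _ => ?_
    have e : mon i m ((θ i).coeff m) = (θ i).coeff m • kmap (φ : K →+* L) (mon i m 1) := by
      rw [kmap_mon, map_one, smul_mon, mul_one]
    rw [e]
    exact GD_smul _ (GD_kmap hKBC φ hP _)
  have h3 := GD_add (GD_pol (bc (φ : K →+* L) P) h1) h2
  rwa [sub_add_cancel] at h3

end

end GNB

/-- GNB: genericity and extension of the field. -/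
theorem t_GNB (hKBC : Stmt_KBC) (hSCO : Stmt_SCO) (hSKK : Stmt_SKK) (hSDB : Stmt_SDB) :
    Stmt_GNB := by
  intro I K L _ _ _ _ _ _ φ g P hP hT hG δ
  have hP' : IsKr g (bc (φ : K →+* L) P) := (hKBC.2.2.2 hP (φ : K →+* L)).1
  have hS' : SmC L (bc (φ : K →+* L) P) := (hSDB hP hT.2 (φ : K →+* L)).1
  obtain ⟨-, -, h5⟩ := hSCO.2 hS'
  obtain ⟨E, hE⟩ := h5 (KK I L) (MM (bc (φ : K →+* L) P)) (mk (bc (φ : K →+* L) P))
    (mk_surj _) δ
  obtain ⟨θ, hθ, -⟩ := (hSKK hP').2 hS' E
  obtain ⟨D, η, hη, hD⟩ := GNB.GD_all hKBC φ hG θ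
  refine ⟨D, η, hη, fun f => ?_⟩
  have h6 : E f = θ * dd (f : KK I L) := hθ f
  rw [← hE f, h6, ← map_add, mk_eq, ← sub_sub]
  exact hD f f.2

end Pool.Agent.MG.KX


end

section

/-!
# KRV: vector fields on the curve of a Krichever ring

A vector field is `θ d/dτ` with `θ` without poles: the derivation of the second chart is continuous
and the second chart is dense in the series without poles.
-/

open CategoryTheory CategoryTheory.Limits AlgebraicGeometry TensorProduct

namespace Pool.Agent.MG.KX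

open Pool.Agent.MG.G0 Pool.Agent.MG.GLU

namespace KRV

section series

variable {I K : Type} [Fintype I] [Field K]

theorem t_pow {t : KK I K} (h0 : ∀ i, ∀ m < 1, (t i).coeff m = 0)
    (h1 : ∀ i, (t i).coeff 1 = 1) (n : ℕ) (i : I) :
    (∀ m < (n : ℤ), ((t ^ n) i).coeff m = 0) ∧ ((t ^ n) i).coeff n = 1 := by
  induction n with
  | zero =>
    rw [pow_zero, Pi.one_apply]
    refine ⟨fun m hm => ?_, ?_⟩
    · rw [HahnSeries.coeff_one, if_neg (by push_cast at hm; omega)]
    · rw [HahnSeries.coeff_one, if_pos (by simp)]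
  | succ n ih =>
    rw [pow_succ, Pi.mul_apply]
    push_cast
    refine ⟨fun m hm => mul_low ih.1 (h0 i) m hm, ?_⟩
    rw [mul_lead ih.1 (h0 i), ih.2, h1, one_mul]

theorem approx {t : KK I K} (h0 : ∀ i, ∀ m < 1, (t i).coeff m = 0)
    (h1 : ∀ i, (t i).coeff 1 = 1) (f : KK I K) (i : I) (hf : ∀ m < 0, (f i).coeff m = 0)
    (M : ℕ) : ∃ F : Polynomial K, ∀ m < (M : ℤ),
      ((f - Polynomial.aeval t F) i).coeff m = 0 := by
  induction M with
  | zero =>
    refine ⟨0, fun m hm => ?_⟩
    rw [map_zero, sub_zero]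
    exact hf m (by push_cast at hm; omega)
  | succ M ih =>
    obtain ⟨F, hF⟩ := ih
    refine ⟨F + Polynomial.C (((f - Polynomial.aeval t F) i).coeff M) * Polynomial.X ^ M,
      fun m hm => ?_⟩
    have h2 := t_pow h0 h1 M i
    have e : f - Polynomial.aeval t (F + Polynomial.C (((f - Polynomial.aeval t F) i).coeff M) *
        Polynomial.X ^ M) = (f - Polynomial.aeval t F) -
        (((f - Polynomial.aeval t F) i).coeff M) • t ^ M := by
      rw [map_add, map_mul, Polynomial.aeval_C, map_pow, Polynomial.aeval_X, Algebra.smul_def]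
      ring
    rw [e, Pi.sub_apply, HahnSeries.coeff_sub, Pi.smul_apply, HahnSeries.coeff_smul]
    push_cast at hm
    rcases lt_or_eq_of_le (show m ≤ M by omega) with h | h
    · rw [hF m h, h2.1 m h, smul_zero, sub_zero]
    · rw [h, h2.2, smul_eq_mul, mul_one, sub_self]

/-- A series with constant term one has an inverse without poles. -/
theorem unit_of {s : KK I K} (h0 : s ∈ Pol I K 0) (h1 : ∀ i, (s i).coeff 0 = 1) :
    ∃ u ∈ Pol I K 0, s * u = 1 := by
  have h2 : ∀ i, psl K (tops K (s i)) = s i := fun i => psl_tops fun m hm => h0 i m (by omega)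
  have h3 : ∀ i, PowerSeries.constantCoeff (tops K (s i)) = 1 := by
    intro i
    rw [← PowerSeries.coeff_zero_eq_constantCoeff_apply, tops, PowerSeries.coeff_mk]
    exact h1 i
  refine ⟨fun i => psl K (tops K (s i))⁻¹, fun i m hm => psl_coeff_neg _ _ (by omega), ?_⟩
  funext i
  rw [Pi.mul_apply, Pi.one_apply]
  nth_rewrite 1 [← h2 i]
  rw [← map_mul, PowerSeries.mul_inv_cancel _ (by rw [h3 i]; exact one_ne_zero), map_one]

end series

section

variable {I K : Type} [Fintype I] [Field K] {P : Subalgebra K (KK I K)} (z : Pole P)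

theorem wpow (k : ℕ) : z.w ^ k ∈ Pol I K (-((k : ℤ) * z.d)) := by
  induction k with
  | zero =>
    rw [pow_zero, Nat.cast_zero, zero_mul, neg_zero]
    exact one_mem_Pol0
  | succ k ih =>
    have h := mul_mem_Pol ih z.mem
    rw [← pow_succ] at h
    exact Pol_mono (by push_cast; linarith) h

theorem zpow (k : ℕ) : (z.z : KK I K) ^ k ∈ Pol I K ((k : ℤ) * z.d) := by
  induction k with
  | zero =>
    rw [pow_zero, Nat.cast_zero, zero_mul]
    exact one_mem_Pol0
  | succ k ih =>
    have h := mul_mem_Pol ih z.mon.1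
    rw [← pow_succ] at h
    exact Pol_mono (by push_cast; linarith) h

theorem leRw : Rw P z.z ≤ Rz P z.z := inf_le_left

theorem coe_aeval (t : Rw P z.z) (F : Polynomial K) :
    ((Polynomial.aeval t F : Rw P z.z) : KK I K) = Polynomial.aeval (t : KK I K) F :=
  (Polynomial.aeval_algHom_apply (Rw P z.z).val t F).symm

/-- The inverse of the pole as an element of the second chart. -/
noncomputable def ww : Rw P z.z := ⟨z.w, z.mem_Rw⟩

/-- Continuity. -/
theorem cont (E : Derivation K (Rw P z.z) (Rw P z.z)) (g : Rw P z.z) (k : ℕ)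
    (hg : (g : KK I K) ∈ Pol I K (-(((k + 1 : ℕ) : ℤ) * z.d))) :
    (E g : KK I K) ∈ Pol I K (-((k : ℤ) * z.d)) := by
  have h1 : (z.z : KK I K) ^ (k + 1) * (g : KK I K) ∈ Rw P z.z := by
    refine ⟨?_, ?_⟩
    · obtain ⟨n, hn⟩ := g.2.1
      refine ⟨n, ?_⟩
      have e : (z.z : KK I K) ^ n * ((z.z : KK I K) ^ (k + 1) * (g : KK I K)) =
          (z.z : KK I K) ^ (k + 1) * ((z.z : KK I K) ^ n * (g : KK I K)) := by ring
      rw [e]
      exact mul_mem (pow_mem z.z.2 _) hn
    · have h := mul_mem_Pol (zpow z (k + 1)) hg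
      rw [add_neg_cancel] at h
      exact h
  have h2 : g = ww z ^ (k + 1) * ⟨_, h1⟩ := by
    refine Subtype.ext ?_
    change (g : KK I K) = z.w ^ (k + 1) * ((z.z : KK I K) ^ (k + 1) * (g : KK I K))
    rw [← mul_assoc, ← mul_pow, mul_comm z.w, z.zw, one_pow, one_mul]
  have h3 : E g = ww z ^ (k + 1) * E ⟨_, h1⟩ +
      (⟨_, h1⟩ : Rw P z.z) * (((k + 1 : ℕ) : Rw P z.z) * ww z ^ k * E (ww z)) := by
    conv_lhs => rw [h2]
    rw [Derivation.leibniz, Derivation.leibniz_pow, Nat.add_sub_cancel, smul_eq_mul, smul_eq_mul,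
      nsmul_eq_mul, smul_eq_mul, mul_assoc]
  have h4 : (E g : KK I K) = z.w ^ k * ((z.w * (E ⟨_, h1⟩ : Rw P z.z) : KK I K) +
      ((k + 1 : ℕ) : KK I K) * (((z.z : KK I K) ^ (k + 1) * (g : KK I K)) *
        (E (ww z) : KK I K))) := by
    rw [h3]
    change z.w ^ (k + 1) * (E ⟨_, h1⟩ : KK I K) + ((z.z : KK I K) ^ (k + 1) * (g : KK I K)) *
      (((k + 1 : ℕ) : KK I K) * z.w ^ k * (E (ww z) : KK I K)) = _
    ring
  have h5 : (z.w * (E ⟨_, h1⟩ : Rw P z.z) : KK I K) ∈ OO I K :=
    mul_mem z.mem_Rw.2 (E ⟨_, h1⟩).2.2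
  have h6 : ((k + 1 : ℕ) : KK I K) * (((z.z : KK I K) ^ (k + 1) * (g : KK I K)) *
      (E (ww z) : KK I K)) ∈ OO I K :=
    mul_mem (natCast_mem _ _) (mul_mem h1.2 (E (ww z)).2.2)
  have h7 := mul_mem_Pol (wpow z k) (mem_OO.1 (add_mem h5 h6))
  rw [add_zero] at h7
  rw [h4]
  exact h7

/-- The commutator of a derivation of the second chart and `d/dτ`. -/
noncomputable def DD (E : Derivation K (Rw P z.z) (Rw P z.z)) (t f : Rw P z.z) : KK I K :=
  dd (t : KK I K) * (E f : KK I K) - (E t : KK I K) * dd (f : KK I K)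

theorem DD_sub (E : Derivation K (Rw P z.z) (Rw P z.z)) (t f g : Rw P z.z) :
    DD z E t (f - g) = DD z E t f - DD z E t g := by
  have h : dd ((f - g : Rw P z.z) : KK I K) = dd (f : KK I K) - dd (g : KK I K) := by
    change ddD I K ((f : KK I K) - (g : KK I K)) = ddD I K f - ddD I K g
    rw [map_sub]
  rw [DD, DD, DD, h, map_sub]
  change dd (t : KK I K) * ((E f : KK I K) - (E g : KK I K)) - _ = _
  ring

theorem DD_mul (E : Derivation K (Rw P z.z) (Rw P z.z)) (t f g : Rw P z.z) :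
    DD z E t (f * g) = (f : KK I K) * DD z E t g + (g : KK I K) * DD z E t f := by
  have h : dd ((f * g : Rw P z.z) : KK I K) = (f : KK I K) * dd (g : KK I K) +
      dd (f : KK I K) * (g : KK I K) := dd_mul (f : KK I K) (g : KK I K)
  rw [DD, DD, DD, h, Derivation.leibniz]
  change dd (t : KK I K) * ((f : KK I K) * (E g : KK I K) + (g : KK I K) * (E f : KK I K)) - _ = _
  ring

theorem DD_aeval (E : Derivation K (Rw P z.z) (Rw P z.z)) (t : Rw P z.z) (F : Polynomial K) :
    DD z E t (Polynomial.aeval t F) = 0 := by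
  have h : dd ((Polynomial.aeval t F : Rw P z.z) : KK I K) =
      ((Polynomial.aeval t (Polynomial.derivative F) : Rw P z.z) : KK I K) *
        dd (t : KK I K) := by
    rw [coe_aeval, coe_aeval]
    have h' := (ddD I K).map_aeval F (t : KK I K)
    rw [smul_eq_mul] at h'
    exact h'
  have h2 : (E (Polynomial.aeval t F) : KK I K) =
      ((Polynomial.aeval t (Polynomial.derivative F) : Rw P z.z) : KK I K) *
        (E t : KK I K) := by
    rw [E.map_aeval]
    rfl
  rw [DD, h, h2]
  ring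

theorem DD_cont (E : Derivation K (Rw P z.z) (Rw P z.z)) (t g : Rw P z.z) (k : ℕ)
    (hg : (g : KK I K) ∈ Pol I K (-(((k + 1 : ℕ) : ℤ) * z.d))) :
    DD z E t g ∈ Pol I K (-((k : ℤ) * z.d)) := by
  have h1 := cont z E g k hg
  have h2 : dd (g : KK I K) ∈ Pol I K (-((k : ℤ) * z.d)) := by
    refine Pol_mono ?_ (dd_mem_Pol hg)
    have := z.pos
    push_cast
    nlinarith
  have h3 := mul_mem_Pol (dd_mem_Pol0 (show (t : KK I K) ∈ Pol I K 0 from t.2.2)) h1
  have h4 := mul_mem_Pol (show (E t : KK I K) ∈ Pol I K 0 from (E t).2.2) h2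
  rw [zero_add] at h3 h4
  exact sub_mem h3 h4

theorem DD_mem (E : Derivation K (Rw P z.z) (Rw P z.z)) (t g : Rw P z.z) :
    DD z E t g ∈ Pol I K 0 :=
  sub_mem (mul_mem_Pol0 (dd_mem_Pol0 t.2.2) (E g).2.2)
    (mul_mem_Pol0 (E t).2.2 (dd_mem_Pol0 g.2.2))

/-- The commutator is zero. -/
theorem DD_zero (hden : ∀ f ∈ Pol I K 0, ∀ M : ℤ, ∃ r ∈ Rw P z.z, f - r ∈ Pol I K (-M))
    (E : Derivation K (Rw P z.z) (Rw P z.z)) (t : Rw P z.z)
    (h0 : ∀ i, ∀ m < 1, ((t : KK I K) i).coeff m = 0)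
    (h1 : ∀ i, ((t : KK I K) i).coeff 1 = 1) (f : Rw P z.z) : DD z E t f = 0 := by
  classical
  funext i
  ext m
  rw [Pi.zero_apply, HahnSeries.coeff_zero]
  obtain ⟨k, hk⟩ : ∃ k : ℕ, m < (k : ℤ) * z.d := by
    refine ⟨m.toNat + 1, ?_⟩
    have h2 := z.pos
    have h3 : m ≤ m.toNat := Int.self_le_toNat m
    push_cast
    nlinarith
  obtain ⟨M, hM⟩ : ∃ M : ℕ, (M : ℤ) = ((k + 1 : ℕ) : ℤ) * z.d := ⟨(k + 1) * z.d, by push_cast; rfl⟩
  have hkM : (k : ℤ) * z.d ≤ M := by
    rw [hM]
    have := z.pos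
    push_cast
    nlinarith
  obtain ⟨F, hF⟩ := approx h0 h1 (f : KK I K) i (fun m hm => f.2.2 i m (by omega)) M
  have he1 : (fun j => if j = i then 1 else 0 : KK I K) ∈ Pol I K 0 := by
    intro j l hl
    dsimp only
    split_ifs with h
    · rw [HahnSeries.coeff_one, if_neg (by omega)]
    · exact HahnSeries.coeff_zero
  obtain ⟨e', he', he2⟩ := hden _ he1 M
  let e : Rw P z.z := ⟨e', he'⟩
  let h : Rw P z.z := f - Polynomial.aeval t F
  have hh : (h : KK I K) = (f : KK I K) - Polynomial.aeval (t : KK I K) F := by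
    change (f : KK I K) - ((Polynomial.aeval t F : Rw P z.z) : KK I K) = _
    rw [coe_aeval]
  have hhi : ∀ l < (M : ℤ), ((h : KK I K) i).coeff l = 0 := by
    intro l hl
    rw [hh]
    exact hF l hl
  have hhp : ∀ j, ∀ l < (0 : ℤ), ((h : KK I K) j).coeff l = 0 :=
    fun j l hl => h.2.2 j l (by omega)
  have hep : ∀ j, ∀ l < (0 : ℤ), (e' j).coeff l = 0 := fun j l hl => he'.2 j l (by omega)
  have hg : ((e * h : Rw P z.z) : KK I K) ∈ Pol I K (-(((k + 1 : ℕ) : ℤ) * z.d)) := by
    rw [← hM]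
    intro j l hl
    change (e' j * (h : KK I K) j).coeff l = 0
    rw [neg_neg] at hl
    by_cases hj : j = i
    · subst hj
      exact mul_low (hep j) hhi l (by omega)
    · have h3 : ∀ l < (M : ℤ), (e' j).coeff l = 0 := by
        intro l hl
        have h4 := he2 j l (by omega)
        rw [Pi.sub_apply, if_neg hj, zero_sub, HahnSeries.coeff_neg, neg_eq_zero] at h4
        exact h4
      exact mul_low h3 (hhp j) l (by omega)
  have hD := DD_cont z E t (e * h) k hg
  have hDi : ∀ l < (k : ℤ) * z.d, (DD z E t (e * h) i).coeff l = 0 :=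
    fun l hl => hD i l (by omega)
  have hm1 : DD z E t (e * h) = e' * DD z E t f + (h : KK I K) * DD z E t e := by
    rw [DD_mul]
    change e' * DD z E t (f - Polynomial.aeval t F) + _ = _
    rw [DD_sub, DD_aeval, sub_zero]
  have hDe : ∀ l < (0 : ℤ), (DD z E t e i).coeff l = 0 :=
    fun l hl => DD_mem z E t e i l (by omega)
  have hDf : ∀ l < (0 : ℤ), (DD z E t f i).coeff l = 0 :=
    fun l hl => DD_mem z E t f i l (by omega)
  have hei : ∀ l < (M : ℤ), ((1 - e' i) : LaurentSeries K).coeff l = 0 := by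
    intro l hl
    have h4 := he2 i l (by omega)
    rw [Pi.sub_apply, if_pos rfl] at h4
    exact h4
  have h5 : DD z E t f i = DD z E t (e * h) i - (h : KK I K) i * DD z E t e i +
      (1 - e' i) * DD z E t f i := by
    rw [hm1, Pi.add_apply, Pi.mul_apply, Pi.mul_apply]
    ring
  rw [h5, HahnSeries.coeff_add, HahnSeries.coeff_sub, hDi m hk,
    mul_low hhi hDe m (by omega), mul_low hei hDf m (by omega), sub_zero, add_zero]

/-- Vector fields. -/
theorem main (hden : ∀ f ∈ Pol I K 0, ∀ M : ℤ, ∃ r ∈ Rw P z.z, f - r ∈ Pol I K (-M))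
    (hR : RigP P) (E1 : Derivation K P P) (E2 : Derivation K (Rw P z.z) (Rw P z.z))
    (E12 : Derivation K (Rz P z.z) (Rz P z.z))
    (c1 : ∀ r : P, E12 (Subalgebra.inclusion (le_Rz P z.z) r) =
      Subalgebra.inclusion (le_Rz P z.z) (E1 r))
    (c2 : ∀ r : Rw P z.z, E12 (Subalgebra.inclusion (leRw z) r) =
      Subalgebra.inclusion (leRw z) (E2 r)) : E1 = 0 ∧ E2 = 0 := by
  have ht1 : (fun _ => HahnSeries.single (1 : ℤ) (1 : K) : KK I K) ∈ Pol I K 0 := by
    intro j l hl
    rw [HahnSeries.coeff_single_of_ne (by omega)]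
  obtain ⟨t', ht', ht2⟩ := hden _ ht1 2
  have h0 : ∀ i, ∀ m < 1, (t' i).coeff m = 0 := by
    intro i m hm
    have h := ht2 i m (by omega)
    rw [Pi.sub_apply, HahnSeries.coeff_sub, HahnSeries.coeff_single_of_ne (by omega), zero_sub,
      neg_eq_zero] at h
    exact h
  have h1 : ∀ i, (t' i).coeff 1 = 1 := by
    intro i
    have h := ht2 i 1 (by omega)
    rw [Pi.sub_apply, HahnSeries.coeff_sub, HahnSeries.coeff_single_same, sub_eq_zero] at h
    exact h.symm
  let t : Rw P z.z := ⟨t', ht'⟩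
  have hD := DD_zero z hden E2 t h0 h1
  obtain ⟨u, hu, htu⟩ := unit_of (s := dd t') (dd_mem_Pol0 ht'.2) (by
    intro i
    change (ld (t' i)).coeff 0 = 1
    rw [ld_coeff, zero_add, h1 i]
    simp)
  let θ : KK I K := (E2 t : KK I K) * u
  have hθ : θ ∈ Pol I K 0 := mul_mem_Pol0 (E2 t).2.2 hu
  have hE2 : ∀ r : Rw P z.z, (E2 r : KK I K) = θ * dd (r : KK I K) := by
    intro r
    have h2 := hD r
    rw [DD, sub_eq_zero] at h2
    change dd t' * (E2 r : KK I K) = (E2 t : KK I K) * dd (r : KK I K) at h2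
    change (E2 r : KK I K) = (E2 t : KK I K) * u * dd (r : KK I K)
    calc (E2 r : KK I K) = (dd t' * u) * (E2 r : KK I K) := by rw [htu, one_mul]
      _ = u * (dd t' * (E2 r : KK I K)) := by ring
      _ = u * ((E2 t : KK I K) * dd (r : KK I K)) := by rw [h2]
      _ = _ := by ring
  have hE12w : ∀ r : Rw P z.z,
      (E12 (Subalgebra.inclusion (leRw z) r) : KK I K) =
        θ * dd (r : KK I K) := by
    intro r
    rw [c2 r]
    exact hE2 r
  have hE12 : ∀ r : Rz P z.z, (E12 r : KK I K) = θ * dd (r : KK I K) := by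
    intro r
    obtain ⟨n, hn⟩ := z.lift_mem r.2
    have h2 := hE12w ⟨_, hn⟩
    have h3 := hE12w (ww z ^ n)
    have e : Subalgebra.inclusion (leRw z) ⟨_, hn⟩ =
        Subalgebra.inclusion (leRw z) (ww z ^ n) * r :=
      Subtype.ext rfl
    rw [e, Derivation.leibniz] at h2
    change z.w ^ n * (E12 r : KK I K) + (r : KK I K) *
      (E12 (Subalgebra.inclusion (leRw z) (ww z ^ n)) : KK I K) =
      θ * dd (z.w ^ n * (r : KK I K)) at h2
    rw [h3, dd_mul] at h2
    change z.w ^ n * (E12 r : KK I K) + (r : KK I K) * (θ * dd (z.w ^ n)) = _ at h2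
    have h4 : z.w ^ n * (E12 r : KK I K) = z.w ^ n * (θ * dd (r : KK I K)) := by
      linear_combination h2
    have h5 : (z.z : KK I K) ^ n * z.w ^ n = 1 := by rw [← mul_pow, z.zw, one_pow]
    calc (E12 r : KK I K) = (z.z : KK I K) ^ n * (z.w ^ n * (E12 r : KK I K)) := by
          rw [← mul_assoc, h5, one_mul]
      _ = (z.z : KK I K) ^ n * (z.w ^ n * (θ * dd (r : KK I K))) := by rw [h4]
      _ = _ := by rw [← mul_assoc, h5, one_mul]
  have hE1 : ∀ r : P, (E1 r : KK I K) = θ * dd (r : KK I K) := by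
    intro r
    have h2 := hE12 (Subalgebra.inclusion (le_Rz P z.z) r)
    rw [c1 r] at h2
    exact h2
  have hθ0 : θ = 0 := by
    refine hR θ (fun f hf => ?_) hθ
    have h2 := hE1 ⟨f, hf⟩
    change _ = θ * dd f at h2
    rw [← h2]
    exact (E1 ⟨f, hf⟩).2
  refine ⟨?_, ?_⟩
  · ext1 r
    refine Subtype.ext ?_
    rw [hE1, hθ0, zero_mul]
    rfl
  · ext1 r
    refine Subtype.ext ?_
    rw [hE2, hθ0, zero_mul]
    rfl

end

end KRV

theorem t_KRV (hDEN : Stmt_DEN) : Stmt_KRV := by
  intro I K _ _ _ g P hP hR z E1 E2 E12 c1 c2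
  exact KRV.main z (hDEN hP z).2.1 hR E1 E2 E12 c1 c2

end Pool.Agent.MG.KX


end

section

/-!
# XRX: arrows for changes of the index set
-/

open CategoryTheory CategoryTheory.Limits AlgebraicGeometry
open scoped TensorProduct

namespace Pool.Agent.MG.KX

open Pool.Agent.MG.G0 Pool.Agent.MG.GLU

theorem t_XRX (hKPX : Stmt_KPX) (hMCA : Stmt_MCA) (hMIS : Stmt_MIS) (hMRX : Stmt_MRX)
    (hMOC : Stmt_MOC) : Stmt_XRX := by
  clear hMOC
  intro I I' A _ _ _ _ _ g n P p e p' hP hp z z'
  obtain ⟨M0, hM0⟩ := hMCA hP z p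
  obtain ⟨N0, hN0⟩ := hMRX.1 e M0 p' hp
  obtain ⟨a, ha⟩ := hMIS (G0.t_KAU.2 P e hP) (hKPX p hP z).1 N0 z'
  refine ⟨a, fun M N M' hM hN hM' => ?_⟩
  obtain ⟨hmem, hj, hsh⟩ := ha M' hM'
  have h1 : N.j = N0.j := by rw [hN.j, hN0.j, hM.j, hM0.j]
  have h2 : N.sh = N0.sh := by rw [hN.sh, hN0.sh, hM.sh, hM0.sh]
  exact ⟨hmem, by rw [hj, h1], by rw [hsh, h2]⟩

end Pool.Agent.MG.KX


end

section

/-!
# PDP (PERP2): the double orthogonal
-/

namespace Pool.Agent.MG.G0

theorem PDP.res_mon {I A : Type} [Fintype I] [CommRing A] (i : I) (n : ℤ) (a : A) :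
    res (mon i n a) = if n = -1 then a else 0 := by
  have h := res_mul_mon (1 : KK I A) i n a
  rw [one_mul] at h
  rw [h, Pi.one_apply, HahnSeries.coeff_one]
  by_cases hn : n = -1
  · rw [if_pos hn, if_pos (by omega), one_mul]
  · rw [if_neg hn, if_neg (by omega), zero_mul]

theorem PDP.mon_zero {I A : Type} [CommRing A] (i : I) (n : ℤ) : mon i n (0 : A) = 0 := by
  funext j
  ext m
  rw [mon_coeff, Pi.zero_apply, HahnSeries.coeff_zero]
  split_ifs <;> rfl

theorem t_PDP (hKFO : Stmt_KFO) (hPPR : Stmt_PPR) : Stmt_PDP := by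
  intro I A _ _ _ g P hP f hf
  obtain ⟨⟨ω, hω⟩, hE⟩ := hKFO hP
  have hωE := (hE ω hω).1
  obtain ⟨p, hp, ho⟩ := (hω.ker f).1 fun j => hf _ (hωE j).1
  obtain ⟨o, ho'⟩ : ∃ o, o = f - p := ⟨_, rfl⟩
  rw [← ho'] at ho
  have hres : ∀ η ∈ Perp P, res (η * o) = 0 := by
    intro η hη
    rw [ho', mul_sub, map_sub, hf η hη, hη p hp, sub_zero]
  obtain ⟨i₀⟩ : Nonempty I := inferInstance
  obtain ⟨q, hq1, hq2, hq3, hq4⟩ := hPPR hP i₀
  have hx : ∀ x : KK I A, res x = 0 → res (o * x) = 0 := by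
    intro x hx0
    have h1 := hq3 x
    rw [hx0, PDP.mon_zero, sub_zero] at h1
    have h2 : o * x = q x * o + (x - q x) * o := by ring
    rw [h2, map_add, hres _ (hq1 x), res_Pol0 (mul_mem_Pol0 h1 ho), add_zero]
  have hpos : ∀ (i : I) (m : ℤ), 0 < m → (o i).coeff m = 0 := by
    intro i m hm
    have h1 := hx (mon i (-1 - m) 1) (by rw [PDP.res_mon, if_neg (by omega)])
    rw [res_mul_mon, mul_one] at h1
    have e : (-1 : ℤ) - (-1 - m) = m := by ring
    rwa [e] at h1
  have hzero : ∀ i : I, (o i).coeff 0 = (o i₀).coeff 0 := by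
    intro i
    have h1 := hx (mon i (-1) 1 - mon i₀ (-1) 1) (by
      rw [map_sub, PDP.res_mon, PDP.res_mon, if_pos rfl, sub_self])
    rw [mul_sub, map_sub, res_mul_mon, res_mul_mon, mul_one, mul_one, sub_self] at h1
    exact sub_eq_zero.1 h1
  have hoc : o = algebraMap A (KK I A) ((o i₀).coeff 0) := by
    funext i
    ext m
    rw [Pi.algebraMap_apply, coeff_algebraMap]
    rcases lt_trichotomy m 0 with h | h | h
    · rw [if_neg (by omega)]
      exact ho i m (by omega)
    · rw [if_pos h, h]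
      exact hzero i
    · rw [if_neg (by omega)]
      exact hpos i m h
  have hf' : f = o + p := by rw [ho']; ring
  rw [hf']
  refine add_mem ?_ hp
  rw [hoc]
  exact P.algebraMap_mem _

end Pool.Agent.MG.G0


end

section

/-!
# The filtration on a Krichever ring; traces of powers
-/

namespace Pool.Agent.MG.G0.ZL

open Polynomial

section

variable {O L : Type} [CommRing O] [IsDomain O] [IsDiscreteValuationRing O] [Field L]
  [Algebra O L] [IsFractionRing O L] {d : ℕ} [NeZero d] {ϖ : O} {N : ℕ} {w : EL L}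

/-- Division by an integer which is a unit. -/
theorem FF_div (h : Rt ϖ N w) {k : ℕ} (hk : IsUnit (k : O)) {b : ℤ} {y : EL L}
    (hy : FF O d w b ((k : EL L) * y)) : FF O d w b y := by
  obtain ⟨u, hu⟩ := hk
  have h1 : y = phE O L d (C ((u⁻¹ : Oˣ) : O)) * ((k : EL L) * y) := by
    have h2 : phE O L d (C ((u⁻¹ : Oˣ) : O)) * (k : EL L) = 1 := by
      have h3 : (k : EL L) = phE O L d (C (k : O)) := by
        rw [map_natCast, map_natCast]
      rw [h3, ← map_mul, ← C_mul, ← hu, Units.inv_mul, C_1, map_one]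
    rw [← mul_assoc, h2, one_mul]
  rw [h1]
  have h4 := FF_mul h (FF_O (L := L) (d := d) (w := w) (C ((u⁻¹ : Oˣ) : O))) hy
  rwa [zero_add] at h4

theorem unit_of_factorial (hu : IsUnit ((d.factorial : ℕ) : O)) {k : ℕ} (hk : 0 < k)
    (hkd : k ≤ d) : IsUnit (k : O) := by
  obtain ⟨m, hm⟩ := Nat.dvd_factorial hk hkd
  rw [hm, Nat.cast_mul] at hu
  exact isUnit_of_mul_isUnit_left hu

/-- The filtration in terms of the characteristic polynomial. -/
theorem FF_char (h : Rt ϖ N w) (x : LaurentSeries L) (b : ℤ) :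
    FF O d w b (em L x) ↔ ∀ i < d,
      FF O d w (((d - i : ℕ) : ℤ) * b) (em L ((cm d x).charpoly.coeff i)) := by
  have key : ∀ i, em L ((cm d x).charpoly.coeff i) * (w ^ b)⁻¹ ^ (d - i) =
      w ^ (-(((d - i : ℕ) : ℤ) * b)) * em L ((cm d x).charpoly.coeff i) := by
    intro i
    rw [mul_comm, ← zpow_neg, ← zpow_natCast (w ^ (-b)) (d - i), ← zpow_mul]
    congr 2
    ring
  constructor
  · intro hx i _
    have h1 : (w ^ b) ^ N = em L (algebraMap L (LaurentSeries L) (algebraMap O L ϖ ^ b)) := by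
      rw [← ec_apply, map_zpow₀, ← h.pow, ← zpow_natCast, ← zpow_natCast, ← zpow_mul,
        ← zpow_mul, mul_comm]
    have h2 : (w ^ b)⁻¹ * em L x ∈ SS (phE O L d) := by
      rw [← zpow_neg]
      exact hx
    have h3 := coeff_of_mem (zpow_ne_zero b h.ne) h.pos h1 h2 i
    rw [key] at h3
    exact h3
  · intro hx
    have h1 : (w ^ b)⁻¹ * em L x ∈ SS (phE O L d) := by
      refine mem_of_coeff fun i hi => ?_
      rw [key]
      exact hx i hi
    rw [← zpow_neg] at h1
    exact h1

/-- Traces. -/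
theorem FF_pr (h : Rt ϖ N w) (hu : IsUnit ((d.factorial : ℕ) : O)) {x : LaurentSeries L} {b : ℤ}
    (hx : FF O d w b (em L x)) : FF O d w b (em L (pr (0 : ZMod d) x)) := by
  have hd : 0 < d := Nat.pos_of_ne_zero (NeZero.ne d)
  have h1 := (FF_char h x b).1 hx (d - 1) (by omega)
  have h2 : (((d - (d - 1) : ℕ)) : ℤ) = 1 := by omega
  rw [h2, one_mul] at h1
  have h3 := Matrix.trace_eq_neg_charpoly_coeff (cm d x)
  rw [trace_cm, ZMod.card] at h3
  have h4 : (d : EL L) * em L (pr (0 : ZMod d) x) = -em L ((cm d x).charpoly.coeff (d - 1)) := by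
    rw [← map_natCast (em L), ← map_mul, h3, map_neg]
  refine FF_div h (unit_of_factorial hu hd le_rfl) ?_
  rw [h4]
  exact FF_neg h1

/-- Elements whose powers have small traces are small. -/
theorem FF_of_traces {g : ℕ} {R : Subalgebra L (LaurentSeries L)} (hR : Kr g R)
    {e : ZMod d → LaurentSeries L} (he : Spn R e) (h : Rt ϖ d.factorial w)
    (hu : IsUnit ((d.factorial : ℕ) : O)) {x : LaurentSeries L} (hxR : x ∈ R) {b : ℤ}
    (hx : ∀ m : ℕ, 0 < m → m ≤ d → FF O d w (m * b + 1) (em L (pr (0 : ZMod d) (x ^ m)))) :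
    FF O d w (b + 1) (em L x) := by
  classical
  have key : ∀ k : ℕ, 0 < k → k ≤ d →
      FF O d w (k * b + 1) (em L ((cm d x).charpoly.coeff (d - k))) := by
    intro k
    induction k using Nat.strong_induction_on with
    | _ k ih =>
      intro hk hkd
      refine FF_div h (unit_of_factorial hu hk hkd) ?_
      have h1 := newton (cm d x) (d - k)
      rw [ZMod.card] at h1
      have h2 : Finset.Icc (d - k) d = insert (d - k) (Finset.Ioc (d - k) d) := by
        ext i
        simp only [Finset.mem_Icc, Finset.mem_insert, Finset.mem_Ioc]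
        omega
      rw [h2, Finset.sum_insert (by simp), Nat.sub_self, pow_zero, Matrix.trace_one,
        ZMod.card] at h1
      have h3 : (k : LaurentSeries L) * (cm d x).charpoly.coeff (d - k) =
          -∑ i ∈ Finset.Ioc (d - k) d,
            (cm d x).charpoly.coeff i * (cm d x ^ (i - (d - k))).trace := by
        have h4 : ((d - k : ℕ) : LaurentSeries L) = (d : LaurentSeries L) - k := by
          rw [Nat.cast_sub hkd]
        rw [h4] at h1
        linear_combination h1
      have h5 : (k : EL L) * em L ((cm d x).charpoly.coeff (d - k)) =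
          -∑ i ∈ Finset.Ioc (d - k) d, em L ((cm d x).charpoly.coeff i) *
            ((d : EL L) * em L (pr (0 : ZMod d) (x ^ (i - (d - k))))) := by
        rw [← map_natCast (em L), ← map_mul, h3, map_neg, map_sum]
        congr 1
        refine Finset.sum_congr rfl fun i _ => ?_
        rw [← map_pow, trace_cm, map_mul, map_mul, map_natCast]
      rw [h5]
      refine FF_neg (FF_sum _ _ fun i hi => ?_)
      rw [Finset.mem_Ioc] at hi
      obtain ⟨hi1, hi2⟩ := hi
      have hA : FF O d w (((d - i : ℕ) : ℤ) * b) (em L ((cm d x).charpoly.coeff i)) := by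
        rcases Nat.lt_or_ge i d with hid | hid
        · have h6 := ih (d - i) (by omega) (by omega) (by omega)
          have h7 : d - (d - i) = i := by omega
          rw [h7] at h6
          exact FF_mono h (by omega) h6
        · have hid' : i = d := by omega
          subst hid'
          have h8 : (cm i x).charpoly.coeff i = 1 := by
            have h9 := Matrix.charpoly_monic (cm i x)
            rw [Monic, leadingCoeff, Matrix.charpoly_natDegree_eq_dim, ZMod.card] at h9
            exact h9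
          rw [h8, map_one, Nat.sub_self, Nat.cast_zero, zero_mul, FF_zero_iff]
          exact one_mem _
      have hB : FF O d w (((i - (d - k) : ℕ) : ℤ) * b + 1)
          ((d : EL L) * em L (pr (0 : ZMod d) (x ^ (i - (d - k))))) := by
        have h6 := hx (i - (d - k)) (by omega) (by omega)
        have h7 : FF O d w 0 (d : EL L) := by
          have h8 : (d : EL L) = phE O L d (d : O[X]) := by rw [map_natCast]
          rw [h8]
          exact FF_O _
        have h9 := FF_mul h h7 h6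
        rwa [zero_add] at h9
      have hC := FF_mul h hA hB
      have h10 : ((d - i : ℕ) : ℤ) * b + (((i - (d - k) : ℕ) : ℤ) * b + 1) = (k : ℤ) * b + 1 := by
        have h11 : ((d - i : ℕ) : ℤ) + ((i - (d - k) : ℕ) : ℤ) = k := by omega
        rw [← h11]
        ring
      rwa [h10] at hC
  rw [FF_char h]
  intro i hi
  obtain ⟨q, hq⟩ := charpoly_coeff_mem hR he hxR i
  have h1 := key (d - i) (by omega) (by omega)
  have h2 : d - (d - i) = i := by omega
  rw [h2, hq] at h1
  rw [hq]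
  exact FF_mul_succ h q (by omega) (Nat.dvd_factorial (by omega) (by omega)) h1

/-- The leading coefficient. -/
theorem FF_lead {g : ℕ} {R : Subalgebra L (LaurentSeries L)} (hR : Kr g R)
    {e : ZMod d → LaurentSeries L} (he : Spn R e) (h : Rt ϖ N w)
    (hu : IsUnit ((d.factorial : ℕ) : O)) {x : LaurentSeries L} (hxR : x ∈ R) {n : ℕ}
    (hn : x ∈ Pl L n) {b : ℤ} (hx : FF O d w b (em L x)) :
    FF O d w b (ec L (x.coeff (-(n : ℤ)))) := by
  have hd : 0 < d := Nat.pos_of_ne_zero (NeZero.ne d)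
  have hdO : IsUnit (d : O) := unit_of_factorial hu hd le_rfl
  have hdL : IsUnit (d : L) := by
    have := hdO.map (algebraMap O L)
    rwa [map_natCast] at this
  obtain ⟨q, hq⟩ := pr_mem_ev hR he hdL (pow_mem hxR d)
  have h1 : FF O d w (b * d) (em L (ev d q)) := by
    rw [← hq]
    refine FF_pr h hu ?_
    rw [map_pow]
    exact FF_pow h hx d
  have h2 := FF_coeff h q h1 n
  have h3 : q.coeff n = x.coeff (-(n : ℤ)) ^ d := by
    rw [← ev_coeff d hd.ne', ← hq, pr_coeff_same]
    · have h4 := coeff_pow_Pl hn d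
      have h5 : ((d * n : ℕ) : ℤ) = (d : ℤ) * n := by push_cast; ring
      rw [h5]
      exact h4
    · push_cast
      simp
  rw [h3, map_pow] at h2
  have h4 : (w ^ (-b) * ec L (x.coeff (-(n : ℤ)))) ^ d ∈ SS (phE O L d) := by
    have h5 : (w ^ (-b) * ec L (x.coeff (-(n : ℤ)))) ^ d =
        w ^ (-(b * d)) * ec L (x.coeff (-(n : ℤ))) ^ d := by
      have h6 : -(b * (d : ℤ)) = -b * d := by ring
      rw [mul_pow, h6, zpow_mul, zpow_natCast]
    rw [h5]
    exact h2
  exact SS_pow _ hd h4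

/-- Every element of the Krichever ring is in some step of the filtration. -/
theorem exists_FF {g : ℕ} {R : Subalgebra L (LaurentSeries L)} (hR : Kr g R)
    {e : ZMod d → LaurentSeries L} (he : Spn R e) (h : Rt ϖ N w) {x : LaurentSeries L}
    (hxR : x ∈ R) : ∃ δ : ℕ, FF O d w (-(δ : ℤ)) (em L x) := by
  classical
  choose q hq using charpoly_coeff_mem hR he hxR
  have h1 : ∀ i, ∃ δ : ℕ, FF O d w (-(δ : ℤ)) (em L (ev d (q i))) := by
    intro i
    by_cases h0 : q i = 0
    · exact ⟨0, by rw [h0, map_zero, map_zero]; exact FF_zero⟩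
    · obtain ⟨v, q0, h1, h2⟩ := exists_val (L := L) h.irr h0
      refine ⟨(-(N * v)).toNat, ?_⟩
      rw [FF_iff h h1 h2]
      omega
  choose δ hδ using h1
  refine ⟨(Finset.range d).sup δ, ?_⟩
  rw [FF_char h]
  intro i hi
  rw [hq]
  refine FF_mono h ?_ (hδ i)
  have h2 : δ i ≤ (Finset.range d).sup δ := Finset.le_sup (Finset.mem_range.2 hi)
  have h3 : (1 : ℤ) ≤ ((d - i : ℕ) : ℤ) := by omega
  have h4 : (δ i : ℤ) ≤ (((Finset.range d).sup δ : ℕ) : ℤ) := by exact_mod_cast h2
  have h5 : (0 : ℤ) ≤ (((Finset.range d).sup δ : ℕ) : ℤ) := by positivity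
  nlinarith

end

end Pool.Agent.MG.G0.ZL


end

section

/-!
# Monic elements with minimal defect
-/

namespace Pool.Agent.MG.G0.ZL

open Polynomial

section

variable {O L : Type} [CommRing O] [IsDomain O] [IsDiscreteValuationRing O] [Field L]
  [Algebra O L] [IsFractionRing O L] {d : ℕ} [NeZero d] {ϖ : O} {w : EL L} {g : ℕ}
  {R : Subalgebra L (LaurentSeries L)} {e : ZMod d → LaurentSeries L}

/-- The general hypotheses. -/
structure Hyp (O : Type) {L : Type} [CommRing O] [IsDomain O] [IsDiscreteValuationRing O] [Field L]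
    [Algebra O L] [IsFractionRing O L] {d : ℕ} [NeZero d] (ϖ : O) (w : EL L) (g : ℕ)
    (R : Subalgebra L (LaurentSeries L)) (e : ZMod d → LaurentSeries L) : Prop where
  kr : Kr g R
  zm : zz L d ∈ R
  sp : Spn R e
  rt : Rt ϖ d.factorial w
  un : IsUnit ((d.factorial : ℕ) : O)

/-- Monic elements with minimal defect. -/
structure Mini (O : Type) {L : Type} [CommRing O] [Field L]
    [Algebra O L] {d : ℕ} [NeZero d] (w : EL L)
    (R : Subalgebra L (LaurentSeries L)) (δ N : ZMod d → ℕ) (H : ZMod d → LaurentSeries L) :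
    Prop where
  cl : ∀ i, (N i : ZMod d) = i
  mem : ∀ i, H i ∈ R
  ord : ∀ i, H i ∈ Pl L (N i)
  one : ∀ i, (H i).coeff (-(N i : ℤ)) = 1
  flt : ∀ i, FF O d w (-(δ i : ℤ)) (em L (H i))
  min : ∀ n : ℕ, ∀ x ∈ R, x ∈ Pl L n → x.coeff (-(n : ℤ)) = 1 → ∀ b : ℤ,
    FF O d w b (em L x) → b ≤ -(δ (n : ZMod d) : ℤ)

theorem exists_mini (hy : Hyp O ϖ w g R e) :
    ∃ (δ N : ZMod d → ℕ) (H : ZMod d → LaurentSeries L), Mini O w R δ N H := by
  classical
  have h1 : ∀ i : ZMod d, ∃ δ : ℕ, ∃ n : ℕ, (n : ZMod d) = i ∧ ∃ x ∈ R, x ∈ Pl L n ∧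
      x.coeff (-(n : ℤ)) = 1 ∧ FF O d w (-(δ : ℤ)) (em L x) := by
    intro i
    obtain ⟨M, hM⟩ := kr_monic hy.kr
    have hd : 0 < d := Nat.pos_of_ne_zero (NeZero.ne d)
    have h2 : M < i.val + d * (M + 1) := by
      have : M + 1 ≤ d * (M + 1) := Nat.le_mul_of_pos_left _ hd
      omega
    obtain ⟨x, hx, hx1, hx2⟩ := hM _ h2
    obtain ⟨δ, hδ⟩ := exists_FF hy.kr hy.sp hy.rt hx
    refine ⟨δ, _, ?_, x, hx, hx1, hx2, hδ⟩
    push_cast
    rw [ZMod.natCast_self, ZMod.natCast_zmod_val]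
    ring
  choose N hN H hH hH1 hH2 hH3 using fun i => Nat.find_spec (h1 i)
  refine ⟨fun i => Nat.find (h1 i), N, H, hN, hH, hH1, hH2, hH3, ?_⟩
  intro n x hx hx1 hx2 b hb
  by_contra hcon
  push Not at hcon
  rcases le_or_gt b 0 with hb0 | hb0
  · obtain ⟨δ, hδ⟩ := Int.eq_ofNat_of_zero_le (a := -b) (by omega)
    have h2 := Nat.find_min (h1 (n : ZMod d)) (m := δ) (by omega)
    apply h2
    refine ⟨n, rfl, x, hx, hx1, hx2, ?_⟩
    have h3 : -(δ : ℤ) = b := by omega
    rw [h3]
    exact hb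
  · have h2 := FF_lead hy.kr hy.sp hy.rt hy.un hx hx1 (FF_mono hy.rt (by omega : (1 : ℤ) ≤ b) hb)
    rw [hx2, FF_ec_iff hy.rt (v := 0) (c := 1) (by simp) isUnit_one] at h2
    omega

variable {δ N : ZMod d → ℕ} {H : ZMod d → LaurentSeries L}

/-- Minimality for arbitrary elements. -/
theorem lead_min (hy : Hyp O ϖ w g R e) (hm : Mini O w R δ N H) {n : ℕ} {x : LaurentSeries L}
    (hx : x ∈ R) (hn : x ∈ Pl L n) {b : ℤ} (hb : FF O d w b (em L x)) :
    FF O d w (b + δ (n : ZMod d)) (ec L (x.coeff (-(n : ℤ)))) := by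
  by_cases h0 : x.coeff (-(n : ℤ)) = 0
  · rw [h0, map_zero]
    exact FF_zero
  · obtain ⟨v, c, hc, hv⟩ := exists_val_L (O := O) hy.rt.irr h0
    set a := x.coeff (-(n : ℤ)) with ha
    have hinv : FF O d w ((d.factorial : ℤ) * -v) (ec L a⁻¹) := by
      obtain ⟨u, hu⟩ := hc
      rw [FF_ec_iff hy.rt (v := -v) (c := ((u⁻¹ : Oˣ) : O)) ?_ (Units.isUnit _)]
      have h2 : algebraMap O L ((u⁻¹ : Oˣ) : O) = (algebraMap O L c)⁻¹ := by
        apply eq_inv_of_mul_eq_one_left
        rw [← map_mul, ← hu, Units.inv_mul, map_one]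
      rw [hv, mul_inv, h2, zpow_neg]
    have h1 := hm.min n (algebraMap L _ a⁻¹ * x) (mul_mem (R.algebraMap_mem _) hx) ?_ ?_
      ((d.factorial : ℤ) * -v + b) ?_
    · rw [FF_ec_iff hy.rt hv hc]
      have h3 : (d.factorial : ℤ) * -v = -((d.factorial : ℤ) * v) := by ring
      omega
    · rw [← Algebra.smul_def]
      exact Submodule.smul_mem _ _ hn
    · rw [algebraMap_mul_coeff, ← ha, inv_mul_cancel₀ h0]
    · rw [map_mul, ← ec_apply]
      exact FF_mul hy.rt hinv hb

/-- Reduction to bounded order. -/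
theorem exists_red (hy : Hyp O ϖ w g R e) (hm : Mini O w R δ N H) {M : ℕ} (hM : ∀ i, N i ≤ M)
    (b : ℤ) (n : ℕ) : ∀ y ∈ R, y ∈ Pl L n → FF O d w b (em L y) →
      ∃ q : ZMod d → L[X], (∀ j, FF O d w (b + δ j) (em L (ev d (q j)))) ∧
        y - ∑ j, ev d (q j) * H j ∈ R ∧ y - ∑ j, ev d (q j) * H j ∈ Pl L M ∧
        FF O d w b (em L (y - ∑ j, ev d (q j) * H j)) := by
  classical
  have hzero : ∀ n : ℕ, n ≤ M → ∀ y ∈ R, y ∈ Pl L n → FF O d w b (em L y) →
      ∃ q : ZMod d → L[X], (∀ j, FF O d w (b + δ j) (em L (ev d (q j)))) ∧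
        y - ∑ j, ev d (q j) * H j ∈ R ∧ y - ∑ j, ev d (q j) * H j ∈ Pl L M ∧
        FF O d w b (em L (y - ∑ j, ev d (q j) * H j)) := by
    intro n hn y hyR hyn hyb
    refine ⟨0, fun j => ?_, ?_, ?_, ?_⟩
    · rw [Pi.zero_apply, map_zero, map_zero]
      exact FF_zero
    · simpa using hyR
    · simp only [Pi.zero_apply, map_zero, zero_mul, Finset.sum_const_zero, sub_zero]
      exact Pl_mono (by omega) hyn
    · simpa using hyb
  induction n with
  | zero => exact hzero 0 (Nat.zero_le _)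
  | succ n ih =>
    rcases Nat.lt_or_ge M (n + 1) with hMn | hMn
    swap
    · exact hzero (n + 1) hMn
    · intro y hyR hyn hyb
      have hlow : ((n + 1 : ℕ) : ℤ) - 1 = n := by push_cast; ring
      set a := y.coeff (-((n + 1 : ℕ) : ℤ)) with ha
      set i : ZMod d := ((n + 1 : ℕ) : ZMod d) with hi
      have hNi : N i ≤ n + 1 := (hM i).trans hMn.le
      have h2 : d ∣ (n + 1) - N i := by
        rw [← ZMod.natCast_eq_zero_iff, Nat.cast_sub hNi, hm.cl, ← hi, sub_self]
      obtain ⟨k, hk⟩ := h2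
      have h3 : ((n + 1 : ℕ) : ℤ) = (d * k : ℕ) + (N i : ℤ) := by omega
      have hFa : FF O d w (b + δ i) (em L (ev d (C a * X ^ k))) := by
        have h4 := lead_min hy hm hyR hyn hyb
        have h5 : em L (ev d (C a * X ^ k)) = ec L a * phE O L d (X ^ k) := by
          rw [map_mul, map_mul, ← ec_eq_ev, phE_apply, Polynomial.map_pow, map_X]
        rw [h5]
        have h6 := FF_mul hy.rt h4 (FF_O (L := L) (d := d) (w := w) ((X : O[X]) ^ k))
        rwa [add_zero] at h6
      set t : LaurentSeries L := ev d (C a * X ^ k) * H i with ht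
      have htR : t ∈ R := by
        refine mul_mem ?_ (hm.mem i)
        rw [map_mul, ev_C, map_pow, ev_X]
        exact mul_mem (R.algebraMap_mem _) (pow_mem hy.zm k)
      have ht1 : t = a • (ev d (X ^ k) * H i) := by
        rw [ht, map_mul, ev_C, mul_assoc, ← Algebra.smul_def]
      have ht2 : t ∈ Pl L ((n + 1 : ℕ) : ℤ) := by
        rw [ht1, h3]
        exact Submodule.smul_mem _ _ (zzpow_mul_mem_Pl k (hm.ord _))
      have ht3 : t.coeff (-((n + 1 : ℕ) : ℤ)) = a := by
        have h4 := zzpow_mul_coeff (d := d) k (hm.ord i)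
        rw [← h3, hm.one] at h4
        rw [ht1, HahnSeries.coeff_smul, h4, smul_eq_mul, mul_one]
      have htF : FF O d w b (em L t) := by
        rw [ht, map_mul]
        have h4 := FF_mul hy.rt hFa (hm.flt i)
        rwa [add_neg_cancel_right] at h4
      have h5 : y - t ∈ Pl L n := by
        have h6 := mem_Pl_pred (Submodule.sub_mem _ hyn ht2) (by
          rw [HahnSeries.coeff_sub, ht3, ← ha, sub_self])
        rwa [hlow] at h6
      obtain ⟨q, hq1, hq2, hq3, hq4⟩ := ih (y - t) (sub_mem hyR htR) h5 (by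
        rw [map_sub]
        exact FF_sub hyb htF)
      have hsum : y - ∑ j, ev d ((q + Pi.single i (C a * X ^ k) : ZMod d → L[X]) j) * H j =
          y - t - ∑ j, ev d (q j) * H j := by
        have h6 : ∀ j, ev d ((q + Pi.single i (C a * X ^ k) : ZMod d → L[X]) j) * H j =
            ev d (q j) * H j + if j = i then t else 0 := by
          intro j
          rw [Pi.add_apply, map_add, add_mul]
          congr 1
          by_cases hj : j = i
          · rw [if_pos hj, hj, Pi.single_eq_same]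
          · rw [if_neg hj, Pi.single_eq_of_ne hj, map_zero, zero_mul]
        rw [Finset.sum_congr rfl fun j _ => h6 j, Finset.sum_add_distrib, Finset.sum_ite_eq',
          if_pos (Finset.mem_univ _)]
        abel
      refine ⟨q + Pi.single i (C a * X ^ k), fun j => ?_, ?_, ?_, ?_⟩
      · rw [Pi.add_apply, map_add, map_add]
        refine FF_add (hq1 j) ?_
        by_cases hj : j = i
        · subst hj
          rw [Pi.single_eq_same]
          exact hFa
        · rw [Pi.single_eq_of_ne hj, map_zero, map_zero]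
          exact FF_zero
      · rw [hsum]
        exact hq2
      · rw [hsum]
        exact hq3
      · rw [hsum]
        exact hq4

end

end Pool.Agent.MG.G0.ZL


end

section

/-!
# Finiteness modulo the minimal family; the Gram determinant of the minimal family
-/

namespace Pool.Agent.MG.G0.ZL

open Polynomial

section

variable {O L : Type} [CommRing O] [IsDomain O] [IsDiscreteValuationRing O] [Field L]
  [Algebra O L] [IsFractionRing O L] {d : ℕ} [NeZero d] {ϖ : O} {w : EL L} {g : ℕ}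
  {R : Subalgebra L (LaurentSeries L)} {e : ZMod d → LaurentSeries L}

omit [IsDomain O] [IsDiscreteValuationRing O] [IsFractionRing O L] in
theorem smulO_eq (a : O) (f : LaurentSeries L) :
    a • f = algebraMap L (LaurentSeries L) (algebraMap O L a) * f := by
  ext m
  rw [HahnSeries.coeff_smul, Algebra.smul_def, algebraMap_mul_coeff]

omit [IsDomain O] [IsDiscreteValuationRing O] [IsFractionRing O L] in
theorem FF_smulO (a : O) {b : ℤ} {f : LaurentSeries L} (hf : FF O d w b (em L f)) :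
    FF O d w b (em L (a • f)) := by
  have h1 : w ^ (-b) * em L (a • f) = phE O L d (C a) * (w ^ (-b) * em L f) := by
    rw [smulO_eq, map_mul, phE_apply, map_C, ← ec_eq_ev, ec_apply]
    ring
  rw [FF, h1]
  exact mul_mem (SS_map _ _) hf

/-- The elements of `R` of order at most `n` in a step of the filtration. -/
def Wn (O : Type) [CommRing O] {L : Type} [Field L] [Algebra O L] (d : ℕ) [NeZero d] (w : EL L)
    (R : Subalgebra L (LaurentSeries L)) (b n : ℤ) : Submodule O (LaurentSeries L) where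
  carrier := {y | y ∈ R ∧ y ∈ Pl L n ∧ FF O d w b (em L y)}
  add_mem' := by
    rintro x y ⟨h1, h2, h3⟩ ⟨h4, h5, h6⟩
    exact ⟨add_mem h1 h4, Submodule.add_mem _ h2 h5, by rw [map_add]; exact FF_add h3 h6⟩
  zero_mem' := ⟨zero_mem R, Submodule.zero_mem _, by rw [map_zero]; exact FF_zero⟩
  smul_mem' := by
    rintro a x ⟨h1, h2, h3⟩
    refine ⟨?_, ?_, FF_smulO a h3⟩
    · rw [smulO_eq]
      exact mul_mem (R.algebraMap_mem _) h1
    · rw [smulO_eq, ← Algebra.smul_def]
      exact Submodule.smul_mem _ _ h2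

omit [IsDomain O] [IsDiscreteValuationRing O] [IsFractionRing O L] in
theorem mem_Wn {b n : ℤ} {y : LaurentSeries L} :
    y ∈ Wn O d w R b n ↔ y ∈ R ∧ y ∈ Pl L n ∧ FF O d w b (em L y) := Iff.rfl

/-- The coefficients as linear forms. -/
noncomputable def cfO (O : Type) [CommRing O] (L : Type) [Field L] [Algebra O L] (m : ℤ) :
    LaurentSeries L →ₗ[O] L where
  toFun y := y.coeff m
  map_add' _ _ := HahnSeries.coeff_add
  map_smul' _ _ := rfl

theorem Wn_fg (hy : Hyp O ϖ w g R e) (b : ℤ) (n : ℕ) : (Wn O d w R b ((n : ℤ) - 1)).FG := by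
  induction n with
  | zero =>
    have h1 : Wn O d w R b (((0 : ℕ) : ℤ) - 1) = ⊥ := by
      rw [eq_bot_iff]
      rintro y ⟨h1, h2, -⟩
      rw [Submodule.mem_bot]
      exact eq_zero_of_neg hy.kr h1 (by simpa using h2)
    rw [h1]
    exact Submodule.fg_bot
  | succ n ih =>
    refine Submodule.fg_of_fg_map_of_fg_inf_ker (cfO O L (-(n : ℤ))) ?_ ?_
    · have h1 : (Wn O d w R b (((n + 1 : ℕ) : ℤ) - 1)).map (cfO O L (-(n : ℤ))) ≤
          Submodule.span O {algebraMap O L ϖ ^ (-(b.natAbs : ℤ))} := by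
        rintro _ ⟨y, ⟨h1, h2, h3⟩, rfl⟩
        have h2' : y ∈ Pl L n := by
          have h4 : ((n + 1 : ℕ) : ℤ) - 1 = n := by push_cast; ring
          rwa [h4] at h2
        have h4 := FF_lead hy.kr hy.sp hy.rt hy.un h1 h2' h3
        show y.coeff (-(n : ℤ)) ∈ _
        by_cases h0 : y.coeff (-(n : ℤ)) = 0
        · rw [h0]
          exact Submodule.zero_mem _
        · obtain ⟨v, c, hc, hv⟩ := exists_val_L (O := O) hy.rt.irr h0
          rw [FF_ec_iff hy.rt hv hc] at h4
          have h5 : 0 ≤ v + b.natAbs := by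
            have hN : (0 : ℤ) < d.factorial := by exact_mod_cast hy.rt.pos
            by_contra hcon
            push Not at hcon
            have h6 : (d.factorial : ℤ) * v ≤ v := by nlinarith
            omega
          obtain ⟨k, hk⟩ := Int.eq_ofNat_of_zero_le h5
          rw [Submodule.mem_span_singleton]
          refine ⟨ϖ ^ k * c, ?_⟩
          rw [Algebra.smul_def, map_mul, map_pow, hv]
          have h6 : v = k + -(b.natAbs : ℤ) := by omega
          rw [h6, zpow_add₀ hy.rt.pi_ne, zpow_natCast]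
          ring
      have : IsNoetherian O (Submodule.span O {algebraMap O L ϖ ^ (-(b.natAbs : ℤ))}) :=
        isNoetherian_span_of_finite O (Set.finite_singleton _)
      exact Submodule.FG.of_le_of_isNoetherian h1
    · have h1 : Wn O d w R b (((n + 1 : ℕ) : ℤ) - 1) ⊓ LinearMap.ker (cfO O L (-(n : ℤ))) =
          Wn O d w R b ((n : ℤ) - 1) := by
        ext y
        rw [Submodule.mem_inf, mem_Wn, mem_Wn, LinearMap.mem_ker]
        have h4 : ((n + 1 : ℕ) : ℤ) - 1 = n := by push_cast; ring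
        rw [h4]
        constructor
        · rintro ⟨⟨h1, h2, h3⟩, h5⟩
          exact ⟨h1, mem_Pl_pred h2 h5, h3⟩
        · rintro ⟨h1, h2, h3⟩
          exact ⟨⟨h1, Pl_mono (by omega) h2, h3⟩, h2 _ (by omega)⟩
      rw [h1]
      exact ih

variable {δ N : ZMod d → ℕ} {H : ZMod d → LaurentSeries L}

/-- The submodule generated by the minimal family. -/
def Hb (O : Type) [CommRing O] {L : Type} [Field L] [Algebra O L] (d : ℕ) [NeZero d] (w : EL L)
    (δ : ZMod d → ℕ) (H : ZMod d → LaurentSeries L) (b : ℤ) : Submodule O (LaurentSeries L) where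
  carrier := {y | ∃ q : ZMod d → L[X], (∀ j, FF O d w (b + δ j) (em L (ev d (q j)))) ∧
    y = ∑ j, ev d (q j) * H j}
  add_mem' := by
    rintro x y ⟨q, h1, rfl⟩ ⟨q', h2, rfl⟩
    refine ⟨q + q', fun j => ?_, ?_⟩
    · rw [Pi.add_apply, map_add, map_add]
      exact FF_add (h1 j) (h2 j)
    · rw [← Finset.sum_add_distrib]
      refine Finset.sum_congr rfl fun j _ => ?_
      rw [Pi.add_apply, map_add, add_mul]
  zero_mem' := ⟨0, fun j => by rw [Pi.zero_apply, map_zero, map_zero]; exact FF_zero, by simp⟩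
  smul_mem' := by
    rintro a x ⟨q, h1, rfl⟩
    refine ⟨fun j => C (algebraMap O L a) * q j, fun j => ?_, ?_⟩
    · rw [map_mul, ev_C, ← smulO_eq]
      exact FF_smulO a (h1 j)
    · rw [Finset.smul_sum]
      refine Finset.sum_congr rfl fun j _ => ?_
      rw [map_mul, ev_C, smulO_eq, mul_assoc]

omit [IsDomain O] [IsDiscreteValuationRing O] [IsFractionRing O L] in
theorem mem_Hb {b : ℤ} {y : LaurentSeries L} : y ∈ Hb O d w δ H b ↔
    ∃ q : ZMod d → L[X], (∀ j, FF O d w (b + δ j) (em L (ev d (q j)))) ∧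
      y = ∑ j, ev d (q j) * H j := Iff.rfl

/-- The multiplication by `z`. -/
noncomputable def Zl (O L : Type) [CommRing O] [Field L] [Algebra O L] (d : ℕ) :
    LaurentSeries L →ₗ[O] LaurentSeries L where
  toFun y := zz L d * y
  map_add' _ _ := mul_add _ _ _
  map_smul' a y := by
    rw [smulO_eq, smulO_eq, RingHom.id_apply]
    ring

omit [IsDomain O] [IsDiscreteValuationRing O] [IsFractionRing O L] [NeZero d] in
theorem Zl_apply (y : LaurentSeries L) : Zl O L d y = zz L d * y := rfl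

theorem Hb_Zl (hy : Hyp O ϖ w g R e) {b : ℤ} {y : LaurentSeries L} (h : y ∈ Hb O d w δ H b) :
    Zl O L d y ∈ Hb O d w δ H b := by
  obtain ⟨q, h1, rfl⟩ := h
  refine ⟨fun j => X * q j, fun j => ?_, ?_⟩
  · have h2 := FF_mul hy.rt (FF_O (L := L) (d := d) (w := w) (X : O[X])) (h1 j)
    rw [zero_add] at h2
    rw [map_mul, map_mul]
    have h3 : em L (ev d (X : L[X])) = phE O L d X := by
      rw [phE_apply, map_X]
    rw [h3]
    exact h2
  · rw [Zl_apply, Finset.mul_sum]
    refine Finset.sum_congr rfl fun j _ => ?_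
    rw [map_mul, ev_X, mul_assoc]

/-- The elements of a step of the filtration are integral modulo the minimal family. -/
theorem exists_Psi (hy : Hyp O ϖ w g R e) (hm : Mini O w R δ N H) (b : ℤ) :
    ∃ Ψ : O[X], Ψ.Monic ∧ ∀ y ∈ R, FF O d w b (em L y) →
      ∃ q : ZMod d → L[X], (∀ j, FF O d w (b + δ j) (em L (ev d (q j)))) ∧
        phK O L d Ψ * y = ∑ j, ev d (q j) * H j := by
  classical
  -- the quotient
  set HB := Hb O d w δ H b with hHB
  let Zq : (LaurentSeries L ⧸ HB) →ₗ[O] (LaurentSeries L ⧸ HB) :=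
    HB.mapQ HB (Zl O L d) fun y h => Hb_Zl hy h
  have hZq : ∀ y, Zq (HB.mkQ y) = HB.mkQ (zz L d * y) := fun y => rfl
  set M := Finset.univ.sup N with hM
  have hNM : ∀ i, N i ≤ M := fun i => Finset.le_sup (Finset.mem_univ i)
  let Q' : Submodule O (LaurentSeries L ⧸ HB) := (Wn O d w R b M).map HB.mkQ
  have hQ'fg : Q'.FG := by
    have h1 := Wn_fg hy b (M + 1)
    have h2 : ((M + 1 : ℕ) : ℤ) - 1 = M := by push_cast; ring
    rw [h2] at h1
    exact h1.map _
  have hfin : Module.Finite O Q' := Module.Finite.of_fg hQ'fg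
  -- every element of the step is in the image
  have hred : ∀ y ∈ R, FF O d w b (em L y) → HB.mkQ y ∈ Q' := by
    intro y hyR hyF
    obtain ⟨n, hn⟩ := exists_Pl y
    obtain ⟨q, h1, h2, h3, h4⟩ := exists_red hy hm hNM b n y hyR hn hyF
    refine ⟨y - ∑ j, ev d (q j) * H j, ⟨h2, h3, h4⟩, ?_⟩
    rw [map_sub]
    have h5 : HB.mkQ (∑ j, ev d (q j) * H j) = 0 := by
      rw [← LinearMap.mem_ker, Submodule.ker_mkQ]
      exact ⟨q, h1, rfl⟩
    rw [h5, sub_zero]
  have hzF : ∀ y, FF O d w b (em L y) → FF O d w b (em L (zz L d * y)) := by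
    intro y h
    have h2 := FF_mul hy.rt (FF_O (L := L) (d := d) (w := w) (X : O[X])) h
    rw [zero_add] at h2
    rw [map_mul]
    have h3 : em L (zz L d) = phE O L d X := by
      rw [phE_apply, map_X, ev_X]
    rw [h3]
    exact h2
  have hst : ∀ x ∈ Q', Zq x ∈ Q' := by
    rintro _ ⟨y, ⟨h1, h2, h3⟩, rfl⟩
    rw [hZq]
    exact hred _ (mul_mem hy.zm h1) (hzF _ h3)
  let f : Module.End O Q' := Zq.restrict hst
  obtain ⟨Ψ, hΨ, hΨ0⟩ := LinearMap.exists_monic_and_aeval_eq_zero O f
  refine ⟨Ψ, hΨ, fun y hyR hyF => ?_⟩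
  -- the action of polynomials
  have key : ∀ (p : O[X]) (y : LaurentSeries L) (h : HB.mkQ y ∈ Q'),
      ((aeval f p) ⟨HB.mkQ y, h⟩ : LaurentSeries L ⧸ HB) = HB.mkQ (phK O L d p * y) := by
    intro p
    induction p using Polynomial.induction_on with
    | C a =>
      intro y h
      rw [aeval_C, phK_apply, map_C, ev_C, ← smulO_eq, map_smul]
      rfl
    | add p q hp hq =>
      intro y h
      rw [map_add, map_add, add_mul, map_add, ← hp y h, ← hq y h]
      rfl
    | monomial n a hn =>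
      intro y h
      have h1 : (C a * X ^ (n + 1) : O[X]) = (C a * X ^ n) * X := by
        rw [pow_succ, mul_assoc]
      have h2 : HB.mkQ (zz L d * y) ∈ Q' := by
        rw [← hZq]
        exact hst _ h
      have h3 := hn (zz L d * y) h2
      have h4 : phK O L d X = zz L d := by rw [phK_apply, map_X, ev_X]
      have h5 : phK O L d (C a * X ^ n * X) * y = phK O L d (C a * X ^ n) * (zz L d * y) := by
        rw [map_mul (phK O L d) (C a * X ^ n) X, h4, mul_assoc]
      have h6 : aeval f (C a * X ^ n * X : O[X]) = aeval f (C a * X ^ n : O[X]) * f := by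
        rw [map_mul (aeval f) (C a * X ^ n) X, aeval_X]
      rw [h1, h5, h6, ← h3]
      rfl
  have h1 := key Ψ y (hred y hyR hyF)
  rw [hΨ0] at h1
  have h2 : HB.mkQ (phK O L d Ψ * y) = 0 := h1.symm
  rw [← LinearMap.mem_ker, Submodule.ker_mkQ] at h2
  exact h2

/-- The Gram determinant of the minimal family. -/
theorem gram_mini (hy : Hyp O ϖ w g R e) (hm : Mini O w R δ N H) {f : O[X]} (hf : f.Monic)
    {u : L[X]} (hu : IsUnit u) (hdet : (gram e).det = ev d (u * f.map (algebraMap O L))) :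
    ∃ Γ : O[X], Γ.Monic ∧ ((gram H).det = phK O L d Γ ∨ (gram H).det = -phK O L d Γ) := by
  classical
  choose c hc using fun i => hy.sp.2 (H i) (hm.mem i)
  have h1 := gram_det_mul (Matrix.of c) H e hc
  set D := (Matrix.of c : Matrix (ZMod d) (ZMod d) L[X]).det with hD
  -- the determinant divides a monic polynomial
  have h2 : ∀ i, ∃ Ψ : O[X], Ψ.Monic ∧ ∃ q : ZMod d → L[X],
      phK O L d Ψ * e i = ∑ j, ev d (q j) * H j := by
    intro i
    obtain ⟨b, hb⟩ := exists_FF hy.kr hy.sp hy.rt (hy.sp.1 i)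
    obtain ⟨Ψ, hΨ, hΨ'⟩ := exists_Psi hy hm (-(b : ℤ))
    obtain ⟨q, -, hq⟩ := hΨ' (e i) (hy.sp.1 i) hb
    exact ⟨Ψ, hΨ, q, hq⟩
  choose Ψ hΨ q hq using h2
  have h3 : (Matrix.of q : Matrix (ZMod d) (ZMod d) L[X]) * Matrix.of c =
      Matrix.diagonal fun i => (Ψ i).map (algebraMap O L) := by
    have h4 : ∀ i, (fun k => ((Matrix.of q : Matrix (ZMod d) (ZMod d) L[X]) *
        Matrix.of c) i k) = fun k => (Matrix.diagonal fun i =>
          (Ψ i).map (algebraMap O L) : Matrix (ZMod d) (ZMod d) L[X]) i k := by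
      intro i
      apply coef_unique (cmat_isUnit hy.kr hy.sp)
      have h5 : ∑ k, ev d ((Matrix.diagonal fun i =>
          (Ψ i).map (algebraMap O L) : Matrix (ZMod d) (ZMod d) L[X]) i k) * e k =
          phK O L d (Ψ i) * e i := by
        have h6 : ∀ k, ev d ((Matrix.diagonal fun i =>
            (Ψ i).map (algebraMap O L) : Matrix (ZMod d) (ZMod d) L[X]) i k) * e k =
            if i = k then phK O L d (Ψ i) * e i else 0 := by
          intro k
          rw [Matrix.diagonal_apply]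
          split_ifs with h
          · rw [h]
            rfl
          · rw [map_zero, zero_mul]
        rw [Finset.sum_congr rfl fun k _ => h6 k, Finset.sum_ite_eq,
          if_pos (Finset.mem_univ _)]
      rw [h5, hq i]
      have h7 : ∀ k, ev d (((Matrix.of q : Matrix (ZMod d) (ZMod d) L[X]) *
          Matrix.of c) i k) * e k = ∑ l, ev d (q i l) * (ev d (c l k) * e k) := by
        intro k
        rw [Matrix.mul_apply, map_sum, Finset.sum_mul]
        refine Finset.sum_congr rfl fun l _ => ?_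
        rw [map_mul, mul_assoc]
        rfl
      rw [Finset.sum_congr rfl fun k _ => h7 k, Finset.sum_comm]
      refine Finset.sum_congr rfl fun l _ => ?_
      rw [← Finset.mul_sum, ← hc l]
    ext1 i k
    exact congrFun (h4 i) k
  have h4 : D ∣ (∏ i, Ψ i).map (algebraMap O L) := by
    refine ⟨(Matrix.of q : Matrix (ZMod d) (ZMod d) L[X]).det, ?_⟩
    have h5 := congrArg Matrix.det h3
    rw [Matrix.det_mul, Matrix.det_diagonal] at h5
    rw [Polynomial.map_prod, ← h5, mul_comm]
  obtain ⟨D', hD'⟩ := IsIntegrallyClosed.eq_map_mul_C_of_dvd L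
    (monic_prod_of_monic _ _ fun i _ => hΨ i) h4
  have hprod0 : (∏ i, Ψ i).map (algebraMap O L) ≠ 0 :=
    ((monic_prod_of_monic _ _ fun i _ => hΨ i).map _).ne_zero
  have hD0 : D ≠ 0 := by
    rintro h
    rw [h] at h4
    exact hprod0 (zero_dvd_iff.1 h4)
  have hlc : D.leadingCoeff ≠ 0 := leadingCoeff_ne_zero.2 hD0
  have hD'm : D'.Monic := by
    have h5 : (D'.map (algebraMap O L)).leadingCoeff * D.leadingCoeff = D.leadingCoeff := by
      conv_rhs => rw [← hD', leadingCoeff_mul, leadingCoeff_C]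
    have h6 : (D'.map (algebraMap O L)).leadingCoeff = 1 :=
      mul_right_cancel₀ hlc (by rw [h5, one_mul])
    exact monic_of_injective (IsFractionRing.injective O L) h6
  obtain ⟨a, ha, hau⟩ := Polynomial.isUnit_iff.1 hu
  set Γ := D' ^ 2 * f with hΓ
  have hΓm : Γ.Monic := (hD'm.pow 2).mul hf
  set c0 := D.leadingCoeff ^ 2 * a with hc0
  have h5 : (gram H).det = ev d (C c0 * Γ.map (algebraMap O L)) := by
    rw [h1, hdet, ← map_mul]
    congr 1
    rw [← hD', ← hau, hΓ, hc0, Polynomial.map_mul, Polynomial.map_pow, C_mul, C_pow]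
    ring
  -- the leading coefficient
  have hNZ : ∀ i, (((N i : ℕ) : ℤ) : ZMod d) = i := by
    intro i
    rw [Int.cast_natCast, hm.cl]
  obtain ⟨h6, h7⟩ := gram_det_lead H (fun i => (N i : ℤ)) hNZ hm.ord
  have h8 : ∏ i, (H i).coeff (-(N i : ℤ)) = 1 := Finset.prod_eq_one fun i _ => hm.one i
  rw [h8, one_pow] at h7
  have h9 : ∃ k : ℕ, -(2 * ∑ i, (N i : ℤ)) = -((d * k : ℕ) : ℤ) := by
    by_contra hcon
    push Not at hcon
    rw [h5] at h7
    rw [ev_coeff_ne d _ _ hcon] at h7
    rcases h7 with h | h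
    · exact zero_ne_one h
    · exact one_ne_zero (neg_eq_zero.1 h.symm)
  obtain ⟨k, hk⟩ := h9
  have hk' : 2 * ∑ i, (N i : ℤ) = ((d * k : ℕ) : ℤ) := neg_injective hk
  rw [hk'] at h6 h7
  rw [h5] at h6 h7
  have h10 : (ev d (C c0 * Γ.map (algebraMap O L))).coeff (-((d * k : ℕ) : ℤ)) ≠ 0 := by
    rcases h7 with h | h
    · rw [h]
      exact one_ne_zero
    · rw [h]
      exact neg_ne_zero.2 one_ne_zero
  have h11 := natDegree_of_lead h6 h10
  have hc00 : c0 ≠ 0 := mul_ne_zero (pow_ne_zero _ hlc) ha.ne_zero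
  have h12 : (Γ.map (algebraMap O L)).natDegree = k := by
    rw [← h11, natDegree_C_mul hc00]
  have h13 : (Γ.map (algebraMap O L)).coeff k = 1 := by
    rw [← h12]
    exact (hΓm.map (algebraMap O L)).leadingCoeff
  rw [ev_coeff d (NeZero.ne d), coeff_C_mul, h13, mul_one] at h7
  refine ⟨Γ, hΓm, ?_⟩
  rcases h7 with h | h
  · left
    rw [h5, h, C_1, one_mul]
    rfl
  · right
    rw [h5, h, C_neg, C_1, neg_one_mul, map_neg]
    rfl

end

end Pool.Agent.MG.G0.ZL


end

section

/-!
# The minimal family has no defect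
-/

namespace Pool.Agent.MG.G0.ZL

open Polynomial

section

variable {A : Type} [CommRing A] {R : Subalgebra A (LaurentSeries A)} {d : ℕ}

theorem ev_mem (hz : zz A d ∈ R) (q : A[X]) : ev d q ∈ R := by
  induction q using Polynomial.induction_on' with
  | add p q hp hq =>
    rw [map_add]
    exact add_mem hp hq
  | monomial n a =>
    rw [← C_mul_X_pow_eq_monomial, map_mul, ev_C, map_pow, ev_X]
    exact mul_mem (R.algebraMap_mem _) (pow_mem hz n)

end

section

variable {O L : Type} [CommRing O] [IsDomain O] [IsDiscreteValuationRing O] [Field L]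
  [Algebra O L] [IsFractionRing O L] {d : ℕ} [NeZero d] {ϖ : O} {Nf : ℕ} {w : EL L}

/-- Congruent matrices have congruent determinants. -/
theorem FF_det_sub (h : Rt ϖ Nf w) {ι : Type} [Fintype ι] [DecidableEq ι]
    (A B : Matrix ι ι (EL L)) (hA : ∀ i j, FF O d w 0 (A i j)) (hB : ∀ i j, FF O d w 0 (B i j))
    (hAB : ∀ i j, FF O d w 1 (A i j - B i j)) : FF O d w 1 (A.det - B.det) := by
  let A' : Matrix ι ι (SS (phE O L d)) := Matrix.of fun i j => ⟨A i j, FF_zero_iff.1 (hA i j)⟩
  let B' : Matrix ι ι (SS (phE O L d)) := Matrix.of fun i j => ⟨B i j, FF_zero_iff.1 (hB i j)⟩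
  let w' : SS (phE O L d) := ⟨w, h.mem⟩
  let I : Ideal (SS (phE O L d)) := Ideal.span {w'}
  have h1 : (Ideal.Quotient.mk I).mapMatrix A' = (Ideal.Quotient.mk I).mapMatrix B' := by
    ext1 i j
    show Ideal.Quotient.mk I (A' i j) = Ideal.Quotient.mk I (B' i j)
    rw [Ideal.Quotient.eq, Ideal.mem_span_singleton]
    refine ⟨⟨w ^ (-(1 : ℤ)) * (A i j - B i j), hAB i j⟩, Subtype.ext ?_⟩
    show A i j - B i j = w * (w ^ (-(1 : ℤ)) * (A i j - B i j))
    rw [← mul_assoc, zpow_neg_one, mul_inv_cancel₀ h.ne, one_mul]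
  have h2 : Ideal.Quotient.mk I A'.det = Ideal.Quotient.mk I B'.det := by
    rw [RingHom.map_det, RingHom.map_det, h1]
  rw [Ideal.Quotient.eq, Ideal.mem_span_singleton] at h2
  obtain ⟨s, hs⟩ := h2
  have h3 : ((A'.det : SS (phE O L d)) : EL L) = A.det := by
    have h4 := RingHom.map_det (SS (phE O L d)).subtype A'
    exact h4
  have h4 : ((B'.det : SS (phE O L d)) : EL L) = B.det := by
    have h4 := RingHom.map_det (SS (phE O L d)).subtype B'
    exact h4
  have h5 : A.det - B.det = w * (s : EL L) := by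
    rw [← h3, ← h4]
    exact congrArg (fun t : SS (phE O L d) => (t : EL L)) hs
  rw [h5, FF, ← mul_assoc, zpow_neg_one, inv_mul_cancel₀ h.ne, one_mul]
  exact s.2

/-- A polynomial over `O` in the first step of the filtration vanishes modulo `ϖ`. -/
theorem residue_of_FF (h : Rt ϖ Nf w) {q : O[X]} (hq : FF O d w 1 (phE O L d q)) :
    q.map (IsLocalRing.residue O) = 0 := by
  by_contra hcon
  have h1 : FF O d w 1 (em L (ev d (q.map (algebraMap O L)))) := hq
  rw [FF_iff h (v := 0) (q0 := q) ?_ hcon] at h1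
  · omega
  · rw [zpow_zero, C_1, one_mul]

theorem FF_wpow (h : Rt ϖ Nf w) (b c : ℤ) {y : EL L} (hy : FF O d w b y) :
    FF O d w (c + b) (w ^ c * y) := by
  have h1 : w ^ (-(c + b)) * (w ^ c * y) = w ^ (-b) * y := by
    rw [← mul_assoc, ← zpow_add₀ h.ne]
    congr 2
    ring
  rw [FF, h1]
  exact hy

end

section

variable {O L : Type} [CommRing O] [IsDomain O] [IsDiscreteValuationRing O] [Field L]
  [Algebra O L] [IsFractionRing O L] {d : ℕ} [NeZero d] {ϖ : O} {w : EL L} {g : ℕ}
  {R : Subalgebra L (LaurentSeries L)} {e : ZMod d → LaurentSeries L}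
  {δ N : ZMod d → ℕ} {H : ZMod d → LaurentSeries L}

/-- The residual Gram matrix. -/
theorem exists_resGram (hy : Hyp O ϖ w g R e) (hm : Mini O w R δ N H) {f : O[X]} (hf : f.Monic)
    {u : L[X]} (hu : IsUnit u) (hdet : (gram e).det = ev d (u * f.map (algebraMap O L)))
    (hδ : ∃ i, δ i ≠ 0) :
    ∃ (gg : ZMod d → ZMod d → L[X]) (G : Matrix (ZMod d) (ZMod d) O[X]),
      (∀ i j, pr (0 : ZMod d) (H i * H j) = ev d (gg i j)) ∧
      (∀ i j, FF O d w (-(δ i : ℤ) - δ j) (em L (ev d (gg i j)))) ∧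
      (∀ i j, (d.factorial : ℤ) ∣ (δ i : ℤ) + δ j →
        gg i j = C (algebraMap O L ϖ ^ (-(((δ i : ℤ) + δ j) / d.factorial))) *
          (G i j).map (algebraMap O L)) ∧
      (∀ i j, ¬ (d.factorial : ℤ) ∣ (δ i : ℤ) + δ j → G i j = 0) ∧
      ∃ v : ZMod d → (IsLocalRing.ResidueField O)[X], v ≠ 0 ∧
        ∀ i, ∑ j, (G i j).map (IsLocalRing.residue O) * v j = 0 := by
  classical
  have hd : 0 < d := Nat.pos_of_ne_zero (NeZero.ne d)
  have hdO : IsUnit (d : O) := unit_of_factorial hy.un hd le_rfl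
  have hdL : IsUnit (d : L) := by
    have := hdO.map (algebraMap O L)
    rwa [map_natCast] at this
  have hNf : (0 : ℤ) < d.factorial := by exact_mod_cast hy.rt.pos
  choose gg hgg using fun i j => pr_mem_ev hy.kr hy.sp hdL (mul_mem (hm.mem i) (hm.mem j))
  have hgF : ∀ i j, FF O d w (-(δ i : ℤ) - δ j) (em L (ev d (gg i j))) := by
    intro i j
    rw [← hgg]
    refine FF_pr hy.rt hy.un ?_
    rw [map_mul]
    exact FF_mul hy.rt (hm.flt i) (hm.flt j)
  have hG : ∀ i j, ∃ G : O[X], ((d.factorial : ℤ) ∣ (δ i : ℤ) + δ j →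
        gg i j = C (algebraMap O L ϖ ^ (-(((δ i : ℤ) + δ j) / d.factorial))) *
          G.map (algebraMap O L)) ∧ (¬ (d.factorial : ℤ) ∣ (δ i : ℤ) + δ j → G = 0) := by
    intro i j
    by_cases hdiv : (d.factorial : ℤ) ∣ (δ i : ℤ) + δ j
    · obtain ⟨k, hk⟩ := hdiv
      have hk' : ((δ i : ℤ) + δ j) / d.factorial = k := by
        rw [hk, Int.mul_ediv_cancel_left _ hNf.ne']
      by_cases h0 : gg i j = 0
      · refine ⟨0, fun _ => ?_, fun _ => rfl⟩
        rw [h0, Polynomial.map_zero, mul_zero]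
      · obtain ⟨v, q0, h1, h2⟩ := exists_val (O := O) (L := L) hy.rt.irr h0
        have h3 := hgF i j
        rw [FF_iff hy.rt h1 h2] at h3
        have h4 : 0 ≤ v + k := by
          have h5 : (d.factorial : ℤ) * 0 ≤ d.factorial * (v + k) := by
            rw [mul_add, mul_zero, ← hk]
            omega
          exact le_of_mul_le_mul_left h5 hNf
        obtain ⟨n, hn⟩ := Int.eq_ofNat_of_zero_le h4
        refine ⟨C (ϖ ^ n) * q0, fun _ => ?_, fun h => absurd ⟨k, hk⟩ h⟩
        rw [h1, hk', Polynomial.map_mul, map_C, ← mul_assoc, ← C_mul]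
        congr 2
        rw [map_pow, ← zpow_natCast, ← zpow_add₀ hy.rt.pi_ne]
        congr 1
        omega
    · exact ⟨0, fun h => absurd h hdiv, fun _ => rfl⟩
  choose G hG1 hG2 using hG
  refine ⟨gg, Matrix.of G, hgg, hgF, hG1, hG2, ?_⟩
  -- the two matrices
  let A : Matrix (ZMod d) (ZMod d) (EL L) :=
    Matrix.of fun i j => w ^ (δ i : ℤ) * (w ^ (δ j : ℤ) * em L (ev d (gg i j)))
  let B : Matrix (ZMod d) (ZMod d) (EL L) := Matrix.of fun i j => phE O L d (G i j)
  have hA : ∀ i j, FF O d w 0 (A i j) := by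
    intro i j
    have h1 := FF_wpow hy.rt _ (δ i : ℤ) (FF_wpow hy.rt _ (δ j : ℤ) (hgF i j))
    have h2 : (δ i : ℤ) + (δ j + (-(δ i : ℤ) - δ j)) = 0 := by ring
    rw [h2] at h1
    exact h1
  have hB : ∀ i j, FF O d w 0 (B i j) := fun i j => FF_O _
  have hAB : ∀ i j, FF O d w 1 (A i j - B i j) := by
    intro i j
    by_cases hdiv : (d.factorial : ℤ) ∣ (δ i : ℤ) + δ j
    · have h1 : A i j = B i j := by
        show w ^ (δ i : ℤ) * (w ^ (δ j : ℤ) * em L (ev d (gg i j))) = phE O L d (G i j)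
        rw [hG1 i j hdiv]
        obtain ⟨k, hk⟩ := hdiv
        have hk' : ((δ i : ℤ) + δ j) / d.factorial = k := by
          rw [hk, Int.mul_ediv_cancel_left _ hNf.ne']
        rw [hk', map_mul, map_mul, ← ec_eq_ev, map_zpow₀, ← hy.rt.pow, ← zpow_natCast,
          ← zpow_mul, ← mul_assoc, ← mul_assoc, ← zpow_add₀ hy.rt.ne, ← zpow_add₀ hy.rt.ne, hk,
          phE_apply]
        have h2 : (d.factorial : ℤ) * k + d.factorial * -k = 0 := by ring
        rw [h2, zpow_zero, one_mul]
      rw [h1, sub_self]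
      exact FF_zero
    · have h1 : B i j = 0 := by
        show phE O L d (G i j) = 0
        rw [hG2 i j hdiv, map_zero]
      rw [h1, sub_zero]
      have h2 := FF_succ hy.rt (gg i j) (b := -(δ i : ℤ) - δ j) (by
        intro h
        apply hdiv
        have h3 : (δ i : ℤ) + δ j = -(-(δ i : ℤ) - δ j) := by ring
        rw [h3]
        exact (dvd_neg).2 h) (hgF i j)
      have h3 := FF_wpow hy.rt _ (δ i : ℤ) (FF_wpow hy.rt _ (δ j : ℤ) h2)
      have h4 : (δ i : ℤ) + (δ j + (-(δ i : ℤ) - δ j + 1)) = 1 := by ring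
      rw [h4] at h3
      exact h3
  have hdets := FF_det_sub hy.rt A B hA hB hAB
  -- the determinant of `A`
  obtain ⟨Γ, -, hΓ⟩ := gram_mini hy hm hf hu hdet
  have hAdet : A.det = (∏ i, w ^ (δ i : ℤ)) * ((∏ i, w ^ (δ i : ℤ)) * em L (gram H).det) := by
    have h1 : em L (gram H).det = (Matrix.of fun i j => em L (ev d (gg i j))).det := by
      rw [RingHom.map_det]
      congr 1
      ext1 i j
      show em L (pr (0 : ZMod d) (H i * H j)) = em L (ev d (gg i j))
      rw [hgg]
    rw [h1, ← Matrix.det_mul_row, ← Matrix.det_mul_column]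
    rfl
  have hprod : (∏ i, w ^ (δ i : ℤ)) = w ^ (∑ i, (δ i : ℤ)) := by
    simp only [zpow_natCast]
    rw [Finset.prod_pow_eq_pow_sum, ← Nat.cast_sum, zpow_natCast]
  have hsum : 1 ≤ ∑ i, (δ i : ℤ) := by
    obtain ⟨i, hi⟩ := hδ
    have h1 := Finset.single_le_sum (f := fun i => (δ i : ℤ)) (s := Finset.univ)
      (fun j _ => by positivity) (Finset.mem_univ i)
    have h2 : (1 : ℤ) ≤ δ i := by omega
    exact h2.trans h1
  have hAF : FF O d w 1 A.det := by
    have h1 : FF O d w 0 (em L (gram H).det) := by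
      rcases hΓ with h | h
      · rw [h]
        exact FF_O Γ
      · rw [h, map_neg]
        exact FF_neg (FF_O Γ)
    rw [hAdet, hprod]
    have h2 := FF_wpow hy.rt _ (∑ i, (δ i : ℤ)) (FF_wpow hy.rt _ (∑ i, (δ i : ℤ)) h1)
    exact FF_mono hy.rt (by omega) h2
  have hBF : FF O d w 1 B.det := by
    have h1 := FF_sub hAF hdets
    rwa [sub_sub_cancel] at h1
  have hBdet : B.det = phE O L d (Matrix.of G).det := by
    rw [RingHom.map_det]
    rfl
  rw [hBdet] at hBF
  have h1 := residue_of_FF hy.rt hBF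
  have h2 : ((Matrix.of G).map (mapRingHom (IsLocalRing.residue O))).det = 0 := by
    have h3 := RingHom.map_det (mapRingHom (IsLocalRing.residue O)) (Matrix.of G)
    rw [coe_mapRingHom, h1] at h3
    exact h3.symm
  obtain ⟨v, hv, hv'⟩ := Matrix.exists_mulVec_eq_zero_iff.2 h2
  exact ⟨v, hv, fun i => congrFun hv' i⟩

end

end Pool.Agent.MG.G0.ZL


end

section

/-!
# The minimal family has no defect: end of the proof
-/

namespace Pool.Agent.MG.G0.ZL

open Polynomial

section

variable {O L : Type} [CommRing O] [IsDomain O] [IsDiscreteValuationRing O] [Field L]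
  [Algebra O L] [IsFractionRing O L] {d : ℕ} [NeZero d] {ϖ : O} {w : EL L} {g : ℕ}
  {R : Subalgebra L (LaurentSeries L)} {e : ZMod d → LaurentSeries L}
  {δ N : ZMod d → ℕ} {H : ZMod d → LaurentSeries L}

/-- The leading term of a combination of the minimal family. -/
theorem exists_top (hm : Mini O w R δ N H) (q : ZMod d → L[X]) (hq : q ≠ 0) :
    ∃ (n : ℕ) (j : ZMod d), (n : ZMod d) = j ∧ q j ≠ 0 ∧
      ∑ j, ev d (q j) * H j ∈ Pl L n ∧
      (∑ j, ev d (q j) * H j).coeff (-(n : ℤ)) = (q j).leadingCoeff := by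
  classical
  obtain ⟨j0, hj0⟩ : ∃ j, q j ≠ 0 := by
    by_contra hcon
    push Not at hcon
    exact hq (funext hcon)
  let ord : ZMod d → ℕ := fun j => d * (q j).natDegree + N j
  have hordm : ∀ j, ((ord j : ℕ) : ZMod d) = j := by
    intro j
    show ((d * (q j).natDegree + N j : ℕ) : ZMod d) = j
    push_cast
    rw [ZMod.natCast_self, zero_mul, zero_add, hm.cl]
  obtain ⟨j1, hj1, hmax⟩ := Finset.exists_max_image (Finset.univ.filter fun j => q j ≠ 0) ord
    ⟨j0, by simpa using hj0⟩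
  have hq1 : q j1 ≠ 0 := (Finset.mem_filter.1 hj1).2
  have hPl : ∀ j, ev d (q j) * H j ∈ Pl L (ord j) := by
    intro j
    have h1 := mul_mem_Pl (ev_mem_Pl d (q j) le_rfl) (hm.ord j)
    have h2 : ((d * (q j).natDegree : ℕ) : ℤ) + N j = ord j := by
      show ((d * (q j).natDegree : ℕ) : ℤ) + N j = ((d * (q j).natDegree + N j : ℕ) : ℤ)
      push_cast
      rfl
    rwa [h2] at h1
  refine ⟨ord j1, j1, hordm j1, hq1, ?_, ?_⟩
  · refine Submodule.sum_mem _ fun j _ => ?_
    by_cases h0 : q j = 0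
    · rw [h0, map_zero, zero_mul]
      exact Submodule.zero_mem _
    · refine Pl_mono ?_ (hPl j)
      exact_mod_cast hmax j (by simpa using h0)
  · rw [HahnSeries.coeff_sum, Finset.sum_eq_single j1]
    · have h1 := coeff_mul_Pl (ev_mem_Pl d (q j1) le_rfl) (hm.ord j1)
      have h2 : ((d * (q j1).natDegree : ℕ) : ℤ) + N j1 = ord j1 := by
        show ((d * (q j1).natDegree : ℕ) : ℤ) + N j1 = ((d * (q j1).natDegree + N j1 : ℕ) : ℤ)
        push_cast
        rfl
      rw [h2, ev_coeff d (NeZero.ne d), hm.one, mul_one] at h1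
      exact h1
    · intro j _ hj
      by_cases h0 : q j = 0
      · rw [h0, map_zero, zero_mul, HahnSeries.coeff_zero]
      · apply hPl j
        have h1 := hmax j (by simpa using h0)
        have h2 : ord j ≠ ord j1 := by
          intro h
          apply hj
          rw [← hordm j, h, hordm]
        omega
    · intro h
      exact absurd (Finset.mem_univ _) h

/-- All defects vanish. -/
theorem mini_zero (hy : Hyp O ϖ w g R e) (hm : Mini O w R δ N H) {f : O[X]} (hf : f.Monic)
    {u : L[X]} (hu : IsUnit u) (hdet : (gram e).det = ev d (u * f.map (algebraMap O L))) :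
    ∀ i, δ i = 0 := by
  classical
  by_contra hcon
  push Not at hcon
  obtain ⟨gg, G, hgg, hgF, hG1, hG2, v, hv, hv'⟩ := exists_resGram hy hm hf hu hdet hcon
  have hd : 0 < d := Nat.pos_of_ne_zero (NeZero.ne d)
  have hdO : IsUnit (d : O) := unit_of_factorial hy.un hd le_rfl
  have hdL : IsUnit (d : L) := by
    have := hdO.map (algebraMap O L)
    rwa [map_natCast] at this
  have hNf : (0 : ℤ) < d.factorial := by exact_mod_cast hy.rt.pos
  obtain ⟨j0, hj0⟩ : ∃ j, v j ≠ 0 := by
    by_contra hcon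
    push Not at hcon
    exact hv (funext hcon)
  obtain ⟨c, hc⟩ : ∃ c : ℤ, c = (δ j0 : ℤ) := ⟨_, rfl⟩
  -- the lifts
  have hU : ∀ j, ∃ U : O[X], U.map (IsLocalRing.residue O) = v j ∧ U.degree = (v j).degree := by
    intro j
    apply exists_degree_eq_of_mem_lifts
    rw [lifts_iff_coeff_lifts]
    intro n
    exact IsLocalRing.residue_surjective _
  choose U hU1 hU2 using hU
  let q : ZMod d → L[X] := fun j => if (d.factorial : ℤ) ∣ (δ j : ℤ) - c then
    C (algebraMap O L ϖ ^ (((δ j : ℤ) - c) / d.factorial)) * (U j).map (algebraMap O L) else 0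
  have hq1 : ∀ j, (d.factorial : ℤ) ∣ (δ j : ℤ) - c →
      q j = C (algebraMap O L ϖ ^ (((δ j : ℤ) - c) / d.factorial)) *
        (U j).map (algebraMap O L) := fun j h => if_pos h
  have hq2 : ∀ j, ¬ (d.factorial : ℤ) ∣ (δ j : ℤ) - c → q j = 0 := fun j h => if_neg h
  have hUinj : Function.Injective (Polynomial.map (algebraMap O L)) :=
    Polynomial.map_injective _ (IsFractionRing.injective O L)
  -- the filtration
  have hqF : ∀ j, FF O d w ((δ j : ℤ) - c) (em L (ev d (q j))) := by
    intro j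
    by_cases hdiv : (d.factorial : ℤ) ∣ (δ j : ℤ) - c
    · rw [hq1 j hdiv, map_mul, map_mul, ← ec_eq_ev]
      have h1 := (FF_pi_mul (d := d) hy.rt (((δ j : ℤ) - c) / d.factorial) (b := 0)
        (y := em L (ev d ((U j).map (algebraMap O L))))).2 (FF_O (U j))
      rw [zero_add, Int.mul_ediv_cancel' hdiv] at h1
      exact h1
    · rw [hq2 j hdiv, map_zero, map_zero]
      exact FF_zero
  set x : LaurentSeries L := ∑ j, ev d (q j) * H j with hx
  have hxR : x ∈ R := sum_mem fun j _ => mul_mem (ev_mem hy.zm _) (hm.mem j)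
  have hxF : FF O d w (-c) (em L x) := by
    rw [hx, map_sum]
    refine FF_sum _ _ fun j _ => ?_
    rw [map_mul]
    have h1 := FF_mul hy.rt (hqF j) (hm.flt j)
    have h2 : (δ j : ℤ) - c + -(δ j : ℤ) = -c := by ring
    rwa [h2] at h1
  -- the leading term
  have hqj0 : q j0 ≠ 0 := by
    rw [hq1 j0 (by rw [← hc, sub_self]; exact dvd_zero _)]
    refine mul_ne_zero ?_ ?_
    · rw [Ne, C_eq_zero]
      exact zpow_ne_zero _ hy.rt.pi_ne
    · intro h
      apply hj0
      have h1 : U j0 = 0 := hUinj (by rw [h, Polynomial.map_zero])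
      rw [← hU1 j0, h1, Polynomial.map_zero]
  obtain ⟨n, j1, hn, hqj1, htop1, htop2⟩ := exists_top hm q (by
    intro h
    exact hqj0 (congrFun h j0))
  rw [← hx] at htop1 htop2
  have hdiv1 : (d.factorial : ℤ) ∣ (δ j1 : ℤ) - c := by
    by_contra h
    exact hqj1 (hq2 j1 h)
  have hUj1 : U j1 ≠ 0 := by
    intro h
    apply hqj1
    rw [hq1 j1 hdiv1, h, Polynomial.map_zero, mul_zero]
  have hlc : (q j1).leadingCoeff = algebraMap O L ϖ ^ (((δ j1 : ℤ) - c) / d.factorial) *
      algebraMap O L (U j1).leadingCoeff := by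
    rw [hq1 j1 hdiv1, leadingCoeff_mul, leadingCoeff_C,
      leadingCoeff_map_of_injective (IsFractionRing.injective O L)]
  have hunit : IsUnit (U j1).leadingCoeff := by
    by_contra hnu
    have h1 : IsLocalRing.residue O (U j1).leadingCoeff = 0 := by
      rw [IsLocalRing.residue_eq_zero_iff, IsLocalRing.mem_maximalIdeal]
      exact hnu
    have h2 : (v j1).coeff (U j1).natDegree = 0 := by
      rw [← hU1 j1, coeff_map]
      exact h1
    have h3 : (U j1).natDegree = (v j1).natDegree := natDegree_eq_of_degree_eq (hU2 j1)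
    rw [h3] at h2
    have h4 : v j1 = 0 := leadingCoeff_eq_zero.1 h2
    have h5 := hU2 j1
    rw [h4, degree_zero, degree_eq_bot] at h5
    exact hUj1 h5
  -- traces with the minimal family
  have htr : ∀ i, FF O d w (-c - δ i + 1) (em L (pr (0 : ZMod d) (H i * x))) := by
    intro i
    have h1 : pr (0 : ZMod d) (H i * x) = ev d (∑ j, q j * gg i j) := by
      rw [hx, Finset.mul_sum, map_sum, map_sum]
      refine Finset.sum_congr rfl fun j _ => ?_
      rw [map_mul (ev d), ← hgg, ← pr_ev_mul]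
      congr 1
      ring
    rw [h1]
    by_cases hdiv : (d.factorial : ℤ) ∣ (δ i : ℤ) + c
    · have h2 : ∑ j, q j * gg i j =
          C (algebraMap O L ϖ ^ (-(((δ i : ℤ) + c) / d.factorial))) *
            (∑ j, G i j * U j).map (algebraMap O L) := by
        rw [Polynomial.map_sum, Finset.mul_sum]
        refine Finset.sum_congr rfl fun j _ => ?_
        rw [Polynomial.map_mul]
        by_cases hj : (d.factorial : ℤ) ∣ (δ j : ℤ) - c
        · have h3 : (d.factorial : ℤ) ∣ (δ i : ℤ) + δ j := by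
            have h4 : (δ i : ℤ) + δ j = (δ i + c) + (δ j - c) := by ring
            rw [h4]
            exact dvd_add hdiv hj
          rw [hq1 j hj, hG1 i j h3]
          have h4 : algebraMap O L ϖ ^ (-(((δ i : ℤ) + c) / d.factorial)) =
              algebraMap O L ϖ ^ (((δ j : ℤ) - c) / d.factorial) *
                algebraMap O L ϖ ^ (-(((δ i : ℤ) + δ j) / d.factorial)) := by
            rw [← zpow_add₀ hy.rt.pi_ne]
            congr 1
            obtain ⟨a, ha⟩ := hdiv
            obtain ⟨b, hb⟩ := hj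
            have h5 : (δ i : ℤ) + δ j = d.factorial * (a + b) := by
              rw [mul_add, ← ha, ← hb]
              ring
            rw [ha, hb, h5, Int.mul_ediv_cancel_left _ hNf.ne',
              Int.mul_ediv_cancel_left _ hNf.ne', Int.mul_ediv_cancel_left _ hNf.ne']
            ring
          rw [h4, C_mul]
          ring
        · have h3 : ¬ (d.factorial : ℤ) ∣ (δ i : ℤ) + δ j := by
            intro h
            apply hj
            have h4 : (δ j : ℤ) - c = (δ i + δ j) - (δ i + c) := by ring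
            rw [h4]
            exact dvd_sub h hdiv
          rw [hq2 j hj, hG2 i j h3, zero_mul, Polynomial.map_zero, zero_mul, mul_zero]
      have h3 : (∑ j, G i j * U j).map (IsLocalRing.residue O) = 0 := by
        rw [Polynomial.map_sum, ← hv' i]
        refine Finset.sum_congr rfl fun j _ => ?_
        rw [Polynomial.map_mul, hU1]
      rw [h2, map_mul, map_mul, ← ec_eq_ev]
      have h4 := FF_of_residue (d := d) hy.rt _ h3
      have h5 := (FF_pi_mul (d := d) hy.rt (-(((δ i : ℤ) + c) / d.factorial))).2 h4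
      refine FF_mono hy.rt ?_ h5
      rw [mul_neg, Int.mul_ediv_cancel' hdiv]
      omega
    · rw [map_sum, map_sum]
      refine FF_sum _ _ fun j _ => ?_
      by_cases hj : (d.factorial : ℤ) ∣ (δ j : ℤ) - c
      · have h3 : ¬ (d.factorial : ℤ) ∣ -(δ i : ℤ) - δ j := by
          intro h
          apply hdiv
          have h4 : (δ i : ℤ) + c = -((-δ i - δ j) + (δ j - c)) := by ring
          rw [h4]
          exact (dvd_neg).2 (dvd_add h hj)
        have h4 := FF_succ hy.rt (gg i j) h3 (hgF i j)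
        have h5 := FF_mul hy.rt (hqF j) h4
        rw [map_mul, map_mul]
        have h6 : (δ j : ℤ) - c + (-δ i - δ j + 1) = -c - δ i + 1 := by ring
        rwa [h6] at h5
      · rw [hq2 j hj, zero_mul, map_zero, map_zero]
        exact FF_zero
  -- traces with all elements
  have htr2 : ∀ (b : ℤ) (y : LaurentSeries L), y ∈ R → FF O d w b (em L y) →
      FF O d w (b - c + 1) (em L (pr (0 : ZMod d) (y * x))) := by
    intro b y hyR hyF
    obtain ⟨Ψ, hΨ, hΨ'⟩ := exists_Psi hy hm b
    obtain ⟨s, hs1, hs2⟩ := hΨ' y hyR hyF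
    obtain ⟨r, hr⟩ := pr_mem_ev hy.kr hy.sp hdL (mul_mem hyR hxR)
    rw [hr]
    have hres : Ψ.map (IsLocalRing.residue O) ≠ 0 := (hΨ.map _).ne_zero
    refine FF_gauss hy.rt Ψ hres r ?_
    have h1 : phK O L d Ψ * pr (0 : ZMod d) (y * x) =
        ∑ j, ev d (s j) * pr (0 : ZMod d) (H j * x) := by
      rw [phK_apply, ← pr_ev_mul, ← mul_assoc, ← phK_apply, hs2, Finset.sum_mul, map_sum]
      refine Finset.sum_congr rfl fun j _ => ?_
      rw [mul_assoc, pr_ev_mul]
    have h2 : phE O L d Ψ * em L (ev d r) = em L (phK O L d Ψ * pr (0 : ZMod d) (y * x)) := by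
      rw [map_mul, hr]
      rfl
    rw [h2, h1, map_sum]
    refine FF_sum _ _ fun j _ => ?_
    rw [map_mul]
    have h3 := FF_mul hy.rt (hs1 j) (htr j)
    have h4 : b + δ j + (-c - δ j + 1) = b - c + 1 := by ring
    rwa [h4] at h3
  -- the element is smaller than expected
  have hsmall : FF O d w (-c + 1) (em L x) := by
    refine FF_of_traces hy.kr hy.sp hy.rt hy.un hxR fun m hm0 hmd => ?_
    obtain ⟨k, rfl⟩ : ∃ k, m = k + 1 := ⟨m - 1, by omega⟩
    have h1 : FF O d w (-c * k) (em L (x ^ k)) := by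
      rw [map_pow]
      exact FF_pow hy.rt hxF k
    have h2 := htr2 _ _ (pow_mem hxR k) h1
    rw [← pow_succ] at h2
    have h3 : -c * k - c + 1 = ((k + 1 : ℕ) : ℤ) * -c + 1 := by
      push_cast
      ring
    rwa [h3] at h2
  have h1 := lead_min hy hm hxR htop1 hsmall
  rw [htop2, hlc, FF_ec_iff hy.rt rfl hunit, Int.mul_ediv_cancel' hdiv1, hn] at h1
  omega

end

end Pool.Agent.MG.G0.ZL


end

section

/-!
# The integral elements of the Krichever ring are the series with coefficients in `O`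
-/

namespace Pool.Agent.MG.G0.ZL

open Polynomial

section

variable {A B : Type} [CommRing A] [CommRing B]

/-- Series with coefficients in a subring. -/
theorem exists_lmap {φ : A →+* B} (hφ : Function.Injective φ) {x : LaurentSeries B}
    (h : ∀ m, ∃ a, φ a = x.coeff m) : ∃ x' : LaurentSeries A, lmap φ x' = x := by
  choose c hc using h
  refine ⟨⟨c, x.isPWO_support'.mono fun m hm => ?_⟩, ?_⟩
  · rw [Function.mem_support] at hm ⊢
    intro h0
    apply hm
    apply hφ
    rw [hc, map_zero]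
    exact h0
  · ext m
    exact hc m

theorem ev_descend {d : ℕ} [NeZero d] {φ : A →+* B} (hφ : Function.Injective φ)
    {y : LaurentSeries A} {q : B[X]} (h : lmap φ y = ev d q) :
    ∃ q' : A[X], y = ev d q' ∧ q = q'.map φ := by
  have h1 : q ∈ lifts φ := by
    rw [lifts_iff_coeff_lifts]
    intro k
    rw [← ev_coeff d (NeZero.ne d), ← h, lmap_coeff]
    exact ⟨_, rfl⟩
  obtain ⟨q', hq'⟩ := (mem_lifts _).1 h1
  refine ⟨q', lmap_injective hφ ?_, hq'.symm⟩
  rw [h, lmap_ev, hq']

end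

section

variable {O L : Type} [CommRing O] [IsDomain O] [IsDiscreteValuationRing O] [Field L]
  [Algebra O L] [IsFractionRing O L] {d : ℕ} [NeZero d] {ϖ : O} {w : EL L} {g : ℕ}
  {R : Subalgebra L (LaurentSeries L)} {e : ZMod d → LaurentSeries L}
  {δ N : ZMod d → ℕ} {H : ZMod d → LaurentSeries L}

/-- The integral elements of the Krichever ring. -/
def Pint (O : Type) [CommRing O] {L : Type} [Field L] [Algebra O L] (d : ℕ) [NeZero d] (w : EL L)
    (R : Subalgebra L (LaurentSeries L)) : Subring (LaurentSeries L) where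
  carrier := {x | x ∈ R ∧ em L x ∈ SS (phE O L d)}
  mul_mem' := by
    rintro x y ⟨h1, h2⟩ ⟨h3, h4⟩
    exact ⟨mul_mem h1 h3, by rw [map_mul]; exact mul_mem h2 h4⟩
  one_mem' := ⟨one_mem R, by rw [map_one]; exact one_mem _⟩
  add_mem' := by
    rintro x y ⟨h1, h2⟩ ⟨h3, h4⟩
    exact ⟨add_mem h1 h3, by rw [map_add]; exact add_mem h2 h4⟩
  zero_mem' := ⟨zero_mem R, by rw [map_zero]; exact zero_mem _⟩
  neg_mem' := by
    rintro x ⟨h1, h2⟩
    exact ⟨neg_mem h1, by rw [map_neg]; exact neg_mem h2⟩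

theorem Pint_monic (hy : Hyp O ϖ w g R e) (hm : Mini O w R δ N H) (hδ : ∀ i, δ i = 0) :
    ∃ n₀ : ℕ, ∀ n : ℕ, n₀ ≤ n → ∃ h ∈ Pint O d w R, h ∈ Po L n ∧ h.coeff (-(n : ℤ)) = 1 := by
  refine ⟨Finset.univ.sup N, fun n hn => ?_⟩
  have h1 : N (n : ZMod d) ≤ n := (Finset.le_sup (Finset.mem_univ _)).trans hn
  have h2 : d ∣ n - N (n : ZMod d) := by
    rw [← ZMod.natCast_eq_zero_iff, Nat.cast_sub h1, hm.cl, sub_self]
  obtain ⟨k, hk⟩ := h2
  have h3 : (n : ℤ) = (d * k : ℕ) + (N (n : ZMod d) : ℤ) := by omega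
  refine ⟨ev d (X ^ k) * H (n : ZMod d), ⟨mul_mem (ev_mem hy.zm _) (hm.mem _), ?_⟩, ?_, ?_⟩
  · rw [map_mul]
    refine mul_mem ?_ ?_
    · have h4 : em L (ev d (X ^ k : L[X])) = phE O L d (X ^ k) := by
        rw [phE_apply, Polynomial.map_pow, map_X]
      rw [h4]
      exact SS_map _ _
    · have h4 := hm.flt (n : ZMod d)
      rw [hδ, Nat.cast_zero, neg_zero, FF_zero_iff] at h4
      exact h4
  · have h4 := zzpow_mul_mem_Pl (d := d) k (hm.ord (n : ZMod d))
    rw [← h3] at h4
    exact h4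
  · have h4 := zzpow_mul_coeff (d := d) k (hm.ord (n : ZMod d))
    rw [← h3, hm.one] at h4
    exact h4

theorem mem_O_of_FF (hy : Hyp O ϖ w g R e) {l : L} (hl : FF O d w 0 (ec L l)) :
    l ∈ (algebraMap O L).range := by
  by_cases h0 : l = 0
  · rw [h0]
    exact zero_mem _
  · obtain ⟨v, c, hc, hv⟩ := exists_val_L (O := O) hy.rt.irr h0
    rw [FF_ec_iff hy.rt hv hc] at hl
    have hNf : (0 : ℤ) < d.factorial := by exact_mod_cast hy.rt.pos
    have h1 : 0 ≤ v := by
      have h2 : (d.factorial : ℤ) * 0 ≤ d.factorial * v := by rwa [mul_zero]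
      exact le_of_mul_le_mul_left h2 hNf
    obtain ⟨k, rfl⟩ := Int.eq_ofNat_of_zero_le h1
    refine ⟨ϖ ^ k * c, ?_⟩
    rw [map_mul, map_pow, hv, zpow_natCast]

theorem Pint_coeff (hy : Hyp O ϖ w g R e) (hm : Mini O w R δ N H) (hδ : ∀ i, δ i = 0)
    {x : LaurentSeries L} (hx : x ∈ R) (hF : FF O d w 0 (em L x)) (m : ℤ) :
    x.coeff m ∈ (algebraMap O L).range := by
  have hd : 0 < d := Nat.pos_of_ne_zero (NeZero.ne d)
  obtain ⟨n₀, hn₀⟩ := Pint_monic hy hm hδ
  refine t_ZINT L (algebraMap O L).range d (Pint O d w R) n₀ hd ?_ ?_ ?_ hn₀ ?_ x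
    ⟨hx, FF_zero_iff.1 hF⟩ m
  · obtain ⟨u, hu⟩ := unit_of_factorial hy.un hd le_rfl
    refine ⟨algebraMap O L ((u⁻¹ : Oˣ) : O), ⟨_, rfl⟩, ?_⟩
    rw [← map_natCast (algebraMap O L), ← map_mul, ← hu, Units.inv_mul, map_one]
  · rintro _ ⟨a, rfl⟩
    refine ⟨R.algebraMap_mem _, ?_⟩
    have h4 : em L (algebraMap L (LaurentSeries L) (algebraMap O L a)) = phE O L d (C a) := by
      rw [phE_apply, map_C, ev_C]
    rw [h4]
    exact SS_map _ _
  · refine ⟨hy.zm, ?_⟩
    have h3 : em L (zz L d) = phE O L d X := by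
      rw [phE_apply, map_X, ev_X]
    rw [h3]
    exact SS_map _ _
  · rintro n - y ⟨hy1, hy2⟩ hyn
    exact mem_O_of_FF hy (FF_lead hy.kr hy.sp hy.rt hy.un hy1 hyn (FF_zero_iff.2 hy2))

/-- Integral elements have coefficients in `O`. -/
theorem exists_cut (hy : Hyp O ϖ w g R e) (hm : Mini O w R δ N H) (hδ : ∀ i, δ i = 0)
    {x : LaurentSeries L} (hx : x ∈ R) (hF : FF O d w 0 (em L x)) :
    ∃ x' ∈ cut (algebraMap O L) R, lmap (algebraMap O L) x' = x := by
  obtain ⟨x', hx'⟩ := exists_lmap (IsFractionRing.injective O L) (Pint_coeff hy hm hδ hx hF)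
  exact ⟨x', by rw [mem_cut, hx']; exact hx, hx'⟩

/-- The coefficients of the characteristic polynomials. -/
theorem cut_charpoly (hR : Kr g R) (he : Spn R e) {p : LaurentSeries O}
    (hp : p ∈ cut (algebraMap O L) R) (i : ℕ) :
    ∃ q : O[X], (cm d p).charpoly.coeff i = ev d q := by
  obtain ⟨q, hq⟩ := charpoly_coeff_mem hR he hp i
  rw [charpoly_cm_lmap, coeff_map] at hq
  obtain ⟨q', h1, -⟩ := ev_descend (IsFractionRing.injective O L) hq
  exact ⟨q', h1⟩

/-- What is needed about the ring of the series with coefficients in `O`. -/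
structure Good (O : Type) {L : Type} [CommRing O] [Field L] [Algebra O L] (d : ℕ) [NeZero d]
    (R : Subalgebra L (LaurentSeries L)) : Prop where
  mon : ∃ n₀ : ℕ, ∀ n : ℕ, n₀ ≤ n → ∃ p ∈ cut (algebraMap O L) R, p ∈ Po O n ∧
    p.coeff (-(n : ℤ)) = 1
  den : ∀ x ∈ R, ∃ c : O, c ≠ 0 ∧ ∃ x' ∈ cut (algebraMap O L) R,
    lmap (algebraMap O L) x' = algebraMap L (LaurentSeries L) (algebraMap O L c) * x
  chp : ∀ p ∈ cut (algebraMap O L) R, ∀ i, ∃ q : O[X], (cm d p).charpoly.coeff i = ev d q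

theorem good (hy : Hyp O ϖ w g R e) (hm : Mini O w R δ N H) (hδ : ∀ i, δ i = 0) :
    Good O d R := by
  have hinj : Function.Injective (algebraMap O L) := IsFractionRing.injective O L
  refine ⟨?_, ?_, fun p hp i => cut_charpoly hy.kr hy.sp hp i⟩
  · obtain ⟨n₀, hn₀⟩ := Pint_monic hy hm hδ
    refine ⟨n₀, fun n hn => ?_⟩
    obtain ⟨h, ⟨h1, h2⟩, h3, h4⟩ := hn₀ n hn
    obtain ⟨h', h5, rfl⟩ := exists_cut hy hm hδ h1 (FF_zero_iff.2 h2)
    refine ⟨h', h5, fun m hm' => ?_, ?_⟩
    · apply hinj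
      rw [← lmap_coeff, h3 m hm', map_zero]
    · apply hinj
      rw [← lmap_coeff, h4, map_one]
  · intro x hx
    obtain ⟨b, hb⟩ := exists_FF hy.kr hy.sp hy.rt hx
    refine ⟨ϖ ^ b, pow_ne_zero _ hy.rt.irr.ne_zero, ?_⟩
    refine exists_cut hy hm hδ (mul_mem (R.algebraMap_mem _) hx) ?_
    have h1 := (FF_pi_mul (d := d) hy.rt (b : ℤ)).2 hb
    rw [map_mul, ← ec_apply, map_pow]
    rw [zpow_natCast] at h1
    refine FF_mono hy.rt ?_ h1
    have h2 : (1 : ℤ) ≤ d.factorial := by exact_mod_cast hy.rt.pos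
    nlinarith [Int.natCast_nonneg b]

end

end Pool.Agent.MG.G0.ZL


end

section

/-!
# The series with coefficients in `O` form a Krichever ring
-/

namespace Pool.Agent.MG.G0.ZL

open Polynomial

section

variable {O : Type} [CommRing O] [IsDomain O] [IsDiscreteValuationRing O] {ϖ : O}

/-- Divisibility by the uniformizer. -/
theorem exists_pi_smul (hϖ : Irreducible ϖ) {p : LaurentSeries O}
    (h : lmap (IsLocalRing.residue O) p = 0) : ∃ p₁ : LaurentSeries O, p = ϖ • p₁ := by
  have h1 : ∀ m, ∃ c, p.coeff m = ϖ * c := by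
    intro m
    have h2 : IsLocalRing.residue O (p.coeff m) = 0 := by
      rw [← lmap_coeff, h, HahnSeries.coeff_zero]
    rw [IsLocalRing.residue_eq_zero_iff, hϖ.maximalIdeal_eq, Ideal.mem_span_singleton] at h2
    exact h2
  choose c hc using h1
  refine ⟨⟨c, p.isPWO_support'.mono fun m hm => ?_⟩, ?_⟩
  · rw [Function.mem_support] at hm ⊢
    rw [hc]
    exact mul_ne_zero hϖ.ne_zero hm
  · ext m
    exact hc m

variable {L : Type} [Field L] [Algebra O L] [IsFractionRing O L] {d : ℕ} [NeZero d] {g : ℕ}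
  {R : Subalgebra L (LaurentSeries L)}

omit [IsDomain O] [IsDiscreteValuationRing O] [IsFractionRing O L] in
theorem lmap_smulO (a : O) (p : LaurentSeries O) : lmap (algebraMap O L) (a • p) =
    algebraMap L (LaurentSeries L) (algebraMap O L a) * lmap (algebraMap O L) p := by
  ext m
  rw [lmap_coeff, HahnSeries.coeff_smul, smul_eq_mul, map_mul, algebraMap_mul_coeff, lmap_coeff]

omit [IsDiscreteValuationRing O] in
theorem mem_cut_of_smul {a : O} (ha : a ≠ 0) {p : LaurentSeries O}
    (h : a • p ∈ cut (algebraMap O L) R) : p ∈ cut (algebraMap O L) R := by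
  rw [mem_cut, lmap_smulO] at h
  rw [mem_cut]
  have ha' : algebraMap O L a ≠ 0 := by
    rw [Ne, IsFractionRing.to_map_eq_zero_iff (K := L)]
    exact ha
  have h1 := mul_mem (R.algebraMap_mem (algebraMap O L a)⁻¹) h
  rw [← mul_assoc, ← map_mul, inv_mul_cancel₀ ha', map_one, one_mul] at h1
  exact h1

/-- The regular series form a subring. -/
def P0 (A : Type) [CommRing A] : Subring (LaurentSeries A) where
  carrier := {f | f ∈ Pl A 0}
  mul_mem' := by
    intro a b ha hb
    have := mul_mem_Pl ha hb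
    rwa [add_zero] at this
  one_mem' := one_mem_Pl le_rfl
  add_mem' := by
    intro a b ha hb
    exact (Pl A 0).add_mem ha hb
  zero_mem' := (Pl A 0).zero_mem
  neg_mem' := by
    intro a ha
    exact (Pl A 0).neg_mem ha

theorem mem_P0 {A : Type} [CommRing A] {f : LaurentSeries A} : f ∈ P0 A ↔ f ∈ Pl A 0 := Iff.rfl

/-- An element with regular reduction has constant reduction. -/
theorem const_of_res [IsAlgClosed (IsLocalRing.ResidueField O)] (hG : Good O d R)
    {p : LaurentSeries O} (hp : p ∈ cut (algebraMap O L) R)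
    (h : lmap (IsLocalRing.residue O) p ∈ Pl (IsLocalRing.ResidueField O) 0) :
    ∃ a : O, lmap (IsLocalRing.residue O) p =
      lmap (IsLocalRing.residue O) (algebraMap O (LaurentSeries O) a) := by
  classical
  set pb : LaurentSeries (IsLocalRing.ResidueField O) := lmap (IsLocalRing.residue O) p with hpb
  -- the coefficients of the characteristic polynomial are regular
  have h1 : ∀ i, (cm d pb).charpoly.coeff i ∈ P0 (IsLocalRing.ResidueField O) := by
    let M : Matrix (ZMod d) (ZMod d) (P0 (IsLocalRing.ResidueField O)) := Matrix.of fun i j =>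
      ⟨pr (j - i) pb, mem_P0.2 (pr_mem_Pl (j - i) h)⟩
    have h2 : (P0 (IsLocalRing.ResidueField O)).subtype.mapMatrix M = cm d pb := by
      ext1 i j
      rfl
    intro i
    rw [← h2]
    have h3 := Matrix.charpoly_map M (P0 (IsLocalRing.ResidueField O)).subtype
    have h4 : ((P0 (IsLocalRing.ResidueField O)).subtype.mapMatrix M).charpoly = M.charpoly.map (P0 (IsLocalRing.ResidueField O)).subtype := h3
    rw [h4, coeff_map]
    exact (M.charpoly.coeff i).2
  have h2 : (cm d pb).charpoly ∈ lifts (algebraMap (IsLocalRing.ResidueField O) (LaurentSeries (IsLocalRing.ResidueField O))) := by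
    rw [lifts_iff_coeff_lifts]
    intro i
    obtain ⟨q, hq⟩ := hG.chp p hp i
    have h3 : (cm d pb).charpoly.coeff i = ev d (q.map (IsLocalRing.residue O)) := by
      rw [hpb, charpoly_cm_lmap, coeff_map, hq, lmap_ev]
    refine ⟨(q.map (IsLocalRing.residue O)).coeff 0, ?_⟩
    have h4 : q.map (IsLocalRing.residue O) = C ((q.map (IsLocalRing.residue O)).coeff 0) := by
      ext k
      rcases Nat.eq_zero_or_pos k with hk | hk
      · rw [hk, coeff_C_zero]
      · rw [coeff_C, if_neg hk.ne', ← ev_coeff d (NeZero.ne d), ← h3]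
        apply mem_P0.1 (h1 i)
        have h5 : 0 < d * k := Nat.mul_pos (Nat.pos_of_ne_zero (NeZero.ne d)) hk
        omega
    rw [h3]
    conv_rhs => rw [h4]
    rw [ev_C]
  obtain ⟨χ, hχ⟩ := (mem_lifts _).1 h2
  have hχm : χ.Monic := by
    refine monic_of_injective (FaithfulSMul.algebraMap_injective (IsLocalRing.ResidueField O) (LaurentSeries (IsLocalRing.ResidueField O))) ?_
    rw [hχ]
    exact Matrix.charpoly_monic _
  have hint : IsIntegral (IsLocalRing.ResidueField O) pb := by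
    refine ⟨χ, hχm, ?_⟩
    have h3 := charpoly_cm_eval (d := d) pb
    rw [← hχ, eval_map] at h3
    exact h3
  have h3 := IsAlgClosed.degree_eq_one_of_irreducible (IsLocalRing.ResidueField O) (minpoly.irreducible hint)
  obtain ⟨a, ha⟩ := minpoly.mem_range_of_degree_eq_one (IsLocalRing.ResidueField O) pb h3
  obtain ⟨b, hb⟩ := IsLocalRing.residue_surjective a
  refine ⟨b, ?_⟩
  rw [lmap_algebraMap, hb]
  exact ha.symm

/-- Divisibility modulo the regular series. -/
theorem key_tf [IsAlgClosed (IsLocalRing.ResidueField O)] (hϖ : Irreducible ϖ)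
    (hG : Good O d R) {f : LaurentSeries O}
    (h : ∃ p ∈ cut (algebraMap O L) R, ϖ • f - p ∈ Po O 0) :
    ∃ p ∈ cut (algebraMap O L) R, f - p ∈ Po O 0 := by
  obtain ⟨p, hp, hpf⟩ := h
  have hϖ0 : IsLocalRing.residue O ϖ = 0 := by
    rw [IsLocalRing.residue_eq_zero_iff, hϖ.maximalIdeal_eq]
    exact Ideal.mem_span_singleton_self _
  have h1 : lmap (IsLocalRing.residue O) p ∈ Pl (IsLocalRing.ResidueField O) 0 := by
    intro m hm
    have h2 : p.coeff m = ϖ * f.coeff m := by
      have h3 := hpf m hm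
      rw [HahnSeries.coeff_sub, HahnSeries.coeff_smul, smul_eq_mul, sub_eq_zero] at h3
      exact h3.symm
    rw [lmap_coeff, h2, map_mul, hϖ0, zero_mul]
  obtain ⟨a, ha⟩ := const_of_res hG hp h1
  obtain ⟨p₁, hp₁⟩ := exists_pi_smul hϖ (p := p - algebraMap O (LaurentSeries O) a) (by
    rw [map_sub, ha, sub_self])
  refine ⟨p₁, mem_cut_of_smul hϖ.ne_zero (by
    rw [← hp₁]
    exact sub_mem hp (Subalgebra.algebraMap_mem _ _)), ?_⟩
  intro m hm
  have h2 : ϖ * (f - p₁).coeff m = 0 := by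
    have h3 := hpf m hm
    have h4 : p = ϖ • p₁ + algebraMap O (LaurentSeries O) a := by
      rw [← hp₁]
      abel
    rw [h4, HahnSeries.coeff_sub, HahnSeries.coeff_add, HahnSeries.coeff_smul,
      HahnSeries.coeff_smul, coeff_algebraMap, if_neg (by omega), add_zero, smul_eq_mul,
      smul_eq_mul, ← mul_sub] at h3
    rw [HahnSeries.coeff_sub]
    exact h3
  exact (mul_eq_zero.1 h2).resolve_left hϖ.ne_zero

/-- The ring of the series with coefficients in `O` is a Krichever ring. -/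
theorem cut_kr [IsAlgClosed (IsLocalRing.ResidueField O)] (hR : Kr g R) (hG : Good O d R) :
    ∃ r, Kr r (cut (algebraMap O L) R) := by
  classical
  obtain ⟨ϖ, hϖ⟩ := IsDiscreteValuationRing.exists_irreducible O
  have hinj : Function.Injective (algebraMap O L) := IsFractionRing.injective O L
  set S : Submodule O (LaurentSeries O) :=
    Subalgebra.toSubmodule (cut (algebraMap O L) R) ⊔ Po O 0 with hS
  have hmemS : ∀ f, f ∈ S ↔ ∃ p ∈ cut (algebraMap O L) R, f - p ∈ Po O 0 := by
    intro f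
    rw [hS, Submodule.mem_sup]
    constructor
    · rintro ⟨p, hp, h, hh, rfl⟩
      exact ⟨p, hp, by rwa [add_sub_cancel_left]⟩
    · rintro ⟨p, hp, h⟩
      exact ⟨p, hp, f - p, h, by abel⟩
  have hmk : ∀ f, S.mkQ f = 0 ↔ ∃ p ∈ cut (algebraMap O L) R, f - p ∈ Po O 0 := by
    intro f
    rw [← LinearMap.mem_ker, Submodule.ker_mkQ, hmemS]
  -- finiteness
  have hfin : Module.Finite O (LaurentSeries O ⧸ S) := by
    obtain ⟨n₀, hn₀⟩ := hG.mon
    let s : ℕ → (LaurentSeries O ⧸ S) := fun m => S.mkQ (HahnSeries.single (-(m : ℤ)) 1)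
    refine ⟨⟨(Finset.range n₀).image s, ?_⟩⟩
    rw [eq_top_iff]
    rintro v -
    obtain ⟨f, rfl⟩ := Submodule.mkQ_surjective S v
    obtain ⟨n, hn⟩ := exists_Pl f
    have key : ∀ n : ℕ, ∀ f : LaurentSeries O, f ∈ Pl O n →
        S.mkQ f ∈ Submodule.span O (((Finset.range n₀).image s : Finset _) :
          Set (LaurentSeries O ⧸ S)) := by
      intro n
      induction n with
      | zero =>
        intro f hf
        have h1 : S.mkQ f = 0 := (hmk f).2 ⟨0, zero_mem _, by simpa using hf⟩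
        rw [h1]
        exact Submodule.zero_mem _
      | succ n ih =>
        intro f hf
        have h5 : ((n + 1 : ℕ) : ℤ) - 1 = n := by push_cast; ring
        by_cases hn : n + 1 < n₀
        · have h3 : f = (f - f.coeff (-((n + 1 : ℕ) : ℤ)) •
              (HahnSeries.single (-((n + 1 : ℕ) : ℤ)) (1 : O))) +
              f.coeff (-((n + 1 : ℕ) : ℤ)) •
                (HahnSeries.single (-((n + 1 : ℕ) : ℤ)) (1 : O)) := by abel
          rw [h3, map_add, map_smul]
          refine Submodule.add_mem _ (ih _ ?_) (Submodule.smul_mem _ _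
            (Submodule.subset_span ?_))
          · have h4 := mem_Pl_pred (Submodule.sub_mem _ hf (Submodule.smul_mem _
              (f.coeff (-((n + 1 : ℕ) : ℤ)))
              (single_mem_Pl (n := ((n + 1 : ℕ) : ℤ)) (1 : O) le_rfl))) (by
                rw [HahnSeries.coeff_sub, HahnSeries.coeff_smul, HahnSeries.coeff_single_same,
                  smul_eq_mul, mul_one, sub_self])
            rwa [h5] at h4
          · rw [Finset.coe_image]
            exact ⟨n + 1, by simpa using hn, rfl⟩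
        · obtain ⟨p, hp, hp1, hp2⟩ := hn₀ (n + 1) (by omega)
          have h2 : S.mkQ p = 0 := (hmk p).2 ⟨p, hp, by
            rw [sub_self]
            exact Submodule.zero_mem _⟩
          have h3 : f = (f - f.coeff (-((n + 1 : ℕ) : ℤ)) • p) +
              f.coeff (-((n + 1 : ℕ) : ℤ)) • p := by abel
          rw [h3, map_add, map_smul, h2, smul_zero, add_zero]
          refine ih _ ?_
          have h4 := mem_Pl_pred (Submodule.sub_mem _ hf (Submodule.smul_mem _
            (f.coeff (-((n + 1 : ℕ) : ℤ))) hp1)) (by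
              rw [HahnSeries.coeff_sub, HahnSeries.coeff_smul, hp2, smul_eq_mul, mul_one,
                sub_self])
          rwa [h5] at h4
    exact key n f hn
  -- torsion
  have htf : Module.IsTorsionFree O (LaurentSeries O ⧸ S) := by
    refine Module.IsTorsionFree.of_smul_eq_zero fun r v hrv => ?_
    by_cases hr : r = 0
    · exact Or.inl hr
    · right
      obtain ⟨n, u, hu⟩ := IsDiscreteValuationRing.eq_unit_mul_pow_irreducible hr hϖ
      have h1 : ϖ ^ n • v = 0 := by
        rw [hu, mul_smul] at hrv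
        have h2 : ((u⁻¹ : Oˣ) : O) • ((u : O) • ϖ ^ n • v) = ϖ ^ n • v := by
          rw [smul_smul, Units.inv_mul, one_smul]
        rw [← h2, hrv, smul_zero]
      have h2 : ∀ (n : ℕ) (v : LaurentSeries O ⧸ S), ϖ ^ n • v = 0 → v = 0 := by
        intro n
        induction n with
        | zero =>
          intro v hv
          rwa [pow_zero, one_smul] at hv
        | succ n ih =>
          intro v hv
          apply ih
          obtain ⟨f, hf⟩ := Submodule.mkQ_surjective S (ϖ ^ n • v)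
          rw [pow_succ', mul_smul, ← hf, ← map_smul, hmk] at hv
          rw [← hf, hmk]
          exact key_tf hϖ hG hv
      exact h2 n v h1
  refine ⟨Module.finrank O (LaurentSeries O ⧸ S), Kr_iff.2 ⟨fun f hf hf0 => ?_, ?_⟩⟩
  · obtain ⟨a, ha⟩ := (Kr_iff.1 hR).1 _ hf (lmap_mem_Pl _ hf0)
    refine ⟨f.coeff 0, lmap_injective hinj ?_⟩
    rw [lmap_algebraMap, ha]
    congr 1
    have h1 : (lmap (algebraMap O L) f).coeff 0 = a := by
      rw [ha, coeff_algebraMap, if_pos rfl]
    rw [← h1, lmap_coeff]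
  · let b := Module.finBasis O (LaurentSeries O ⧸ S)
    refine ⟨b.equivFun.toLinearMap ∘ₗ S.mkQ, ?_, fun f => ?_⟩
    · exact b.equivFun.surjective.comp (Submodule.mkQ_surjective S)
    · rw [← hmk]
      exact b.equivFun.map_eq_zero_iff

end

end Pool.Agent.MG.G0.ZL


end

section

/-!
# Section ZL: the reduction of a cover
-/

namespace Pool.Agent.MG.G0.ZL

open Polynomial

section

variable {A B : Type} [CommRing A] [CommRing B] {d : ℕ} [NeZero d]

/-- The base change along a surjective homomorphism. -/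
theorem exists_lift_bc {φ : A →+* B} (hφ : Function.Surjective φ)
    {P : Subalgebra A (LaurentSeries A)} {x : LaurentSeries B} (hx : x ∈ bc1 φ P) :
    ∃ y ∈ P, lmap φ y = x := by
  induction hx using Algebra.adjoin_induction with
  | mem x hx =>
    obtain ⟨y, hy, rfl⟩ := hx
    exact ⟨y, hy, rfl⟩
  | algebraMap b =>
    obtain ⟨a, rfl⟩ := hφ b
    exact ⟨algebraMap A _ a, P.algebraMap_mem a, lmap_algebraMap φ a⟩
  | add x y _ _ hx hy =>
    obtain ⟨x', h1, rfl⟩ := hx
    obtain ⟨y', h2, rfl⟩ := hy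
    exact ⟨x' + y', add_mem h1 h2, map_add _ _ _⟩
  | mul x y _ _ hx hy =>
    obtain ⟨x', h1, rfl⟩ := hx
    obtain ⟨y', h2, rfl⟩ := hy
    exact ⟨x' * y', mul_mem h1 h2, map_mul _ _ _⟩

/-- Generators of the base change. -/
theorem spn_of_image (hKBC : Stmt_KBC) (φ : A →+* B) {P : Subalgebra A (LaurentSeries A)}
    {e : ZMod d → LaurentSeries A} (he : ∀ i, e i ∈ P)
    (h : ∀ x ∈ P, ∃ q : ZMod d → B[X], lmap φ x = ∑ i, ev d (q i) * lmap φ (e i)) :
    Spn (bc1 φ P) fun i => lmap φ (e i) := by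
  refine ⟨fun i => Algebra.subset_adjoin ⟨e i, he i, rfl⟩, fun x hx => ?_⟩
  have h1 : (fun _ : Unit => x) ∈ Submodule.span B (kmap φ '' (uno P : Set (KK Unit A))) := by
    rw [← hKBC.1 φ (uno P), bc_uno]
    exact hx
  have key : ∀ y ∈ Submodule.span B (kmap φ '' (uno P : Set (KK Unit A))),
      ∃ q : ZMod d → B[X], y () = ∑ i, ev d (q i) * lmap φ (e i) := by
    intro y hy
    induction hy using Submodule.span_induction with
    | mem y hy =>
      obtain ⟨w, hw, rfl⟩ := hy
      exact h (w ()) hw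
    | zero => exact ⟨0, by simp⟩
    | add y y' _ _ h h' =>
      obtain ⟨q, hq⟩ := h
      obtain ⟨q', hq'⟩ := h'
      refine ⟨q + q', ?_⟩
      rw [Pi.add_apply, hq, hq', ← Finset.sum_add_distrib]
      refine Finset.sum_congr rfl fun i _ => ?_
      rw [Pi.add_apply, map_add, add_mul]
    | smul b y _ h =>
      obtain ⟨q, hq⟩ := h
      refine ⟨fun i => C b * q i, ?_⟩
      rw [Pi.smul_apply, hq, Finset.smul_sum]
      refine Finset.sum_congr rfl fun i _ => ?_
      rw [map_mul, ev_C, mul_assoc, Algebra.smul_def]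
  exact key _ h1

/-- The genus is determined by the ring. -/
theorem genus_unique {κ : Type} [Field κ] {g r : ℕ} {R : Subalgebra κ (LaurentSeries κ)}
    (hR : Kr g R) (hR' : Kr r R) (hz : zz κ d ∈ R) : r = g := by
  obtain ⟨N, hN, hN'⟩ := exists_ech hR hz
  have h1 := sum_ech hR N hN hN'
  have h2 := sum_ech hR' N hN hN'
  have h3 : d * r = d * g := by omega
  exact Nat.eq_of_mul_eq_mul_left (Nat.pos_of_ne_zero (NeZero.ne d)) h3

end

section

variable {O L : Type} [CommRing O] [IsDomain O] [IsDiscreteValuationRing O] [Field L]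
  [Algebra O L] [IsFractionRing O L] {d : ℕ} [NeZero d] {g : ℕ}
  {R : Subalgebra L (LaurentSeries L)}

omit [IsDiscreteValuationRing O] in
theorem bc_cut (hG : Good O d R) : bc1 (algebraMap O L) (cut (algebraMap O L) R) = R := by
  apply le_antisymm
  · refine Algebra.adjoin_le ?_
    rintro _ ⟨y, hy, rfl⟩
    exact hy
  · intro x hx
    obtain ⟨c, hc, x', hx', h⟩ := hG.den x hx
    have hc' : algebraMap O L c ≠ 0 := by
      rw [Ne, IsFractionRing.to_map_eq_zero_iff (K := L)]
      exact hc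
    have h1 : x = algebraMap L (LaurentSeries L) (algebraMap O L c)⁻¹ *
        lmap (algebraMap O L) x' := by
      rw [h, ← mul_assoc, ← map_mul, inv_mul_cancel₀ hc', map_one, one_mul]
    rw [h1]
    exact mul_mem (Subalgebra.algebraMap_mem _ _) (Algebra.subset_adjoin ⟨x', hx', rfl⟩)

theorem zz_mem_cut (hz : zz L d ∈ R) : zz O d ∈ cut (algebraMap O L) R := by
  rw [mem_cut, lmap_zz]
  exact hz

/-- Generation modulo a power of the uniformizer. -/
theorem gen_mod {ϖ : O} (hϖ : Irreducible ϖ) {e : ZMod d → LaurentSeries O}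
    (he : ∀ i, e i ∈ cut (algebraMap O L) R) (hz : zz L d ∈ R)
    (hsp : Spn (bc1 (IsLocalRing.residue O) (cut (algebraMap O L) R))
      fun i => lmap (IsLocalRing.residue O) (e i)) (M : ℕ) :
    ∀ x ∈ cut (algebraMap O L) R, ∃ (q : ZMod d → O[X]) (x₁ : LaurentSeries O),
      x₁ ∈ cut (algebraMap O L) R ∧ x = ∑ i, ev d (q i) * e i + ϖ ^ M • x₁ := by
  classical
  have hstep : ∀ x ∈ cut (algebraMap O L) R, ∃ (q : ZMod d → O[X]) (x₁ : LaurentSeries O),
      x₁ ∈ cut (algebraMap O L) R ∧ x = ∑ i, ev d (q i) * e i + ϖ • x₁ := by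
    intro x hx
    obtain ⟨qb, hqb⟩ := hsp.2 (lmap (IsLocalRing.residue O) x)
      (Algebra.subset_adjoin ⟨x, hx, rfl⟩)
    have hq : ∀ i, ∃ q : O[X], q.map (IsLocalRing.residue O) = qb i := fun i =>
      Polynomial.map_surjective _ IsLocalRing.residue_surjective (qb i)
    choose q hq using hq
    obtain ⟨x₁, hx₁⟩ := exists_pi_smul hϖ (p := x - ∑ i, ev d (q i) * e i) (by
      rw [map_sub, map_sum, hqb, sub_eq_zero]
      refine Finset.sum_congr rfl fun i _ => ?_
      rw [map_mul, lmap_ev, hq])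
    refine ⟨q, x₁, mem_cut_of_smul hϖ.ne_zero (by
      rw [← hx₁]
      exact sub_mem hx (sum_mem fun i _ => mul_mem (ev_mem (zz_mem_cut hz) _) (he i))), ?_⟩
    rw [← hx₁]
    abel
  induction M with
  | zero =>
    intro x hx
    refine ⟨0, x, hx, ?_⟩
    simp
  | succ M ih =>
    intro x hx
    obtain ⟨q, x₁, hx₁, h⟩ := ih x hx
    obtain ⟨q', x₂, hx₂, h'⟩ := hstep x₁ hx₁
    refine ⟨fun i => q i + C (ϖ ^ M) * q' i, x₂, hx₂, ?_⟩
    rw [h, h', smul_add, smul_smul, ← pow_succ, ← add_assoc]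
    congr 1
    rw [Finset.smul_sum, ← Finset.sum_add_distrib]
    refine Finset.sum_congr rfl fun i _ => ?_
    rw [map_add, map_mul, ev_C, add_mul, mul_assoc, ← Algebra.smul_def]

/-- The discriminant of the base change. -/
theorem dsc_cut (hKBC : Stmt_KBC) (hR : Kr g R) (hz : zz L d ∈ R)
    (hK : Kr g (cut (algebraMap O L) R)) {eL : ZMod d → LaurentSeries L} (heL : Spn R eL)
    {f : O[X]} (hf : f.Monic) {u : L[X]} (hu : IsUnit u)
    (hdet : (gram eL).det = ev d (u * f.map (algebraMap O L)))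
    {B : Type} [CommRing B] (φ : O →+* B)
    (hφ : ∀ x ∈ IsLocalRing.maximalIdeal O, IsNilpotent (φ x)) :
    Dsc (bc1 φ (cut (algebraMap O L) R)) d (f.map φ) := by
  classical
  obtain ⟨ϖ, hϖ⟩ := IsDiscreteValuationRing.exists_irreducible O
  have hinj : Function.Injective (algebraMap O L) := IsFractionRing.injective O L
  have hKκ := kr_bc hKBC hK (IsLocalRing.residue O)
  have hzκ := zz_mem_bc (zz_mem_cut (O := O) hz) (IsLocalRing.residue O)
  obtain ⟨N, eb, -, -, heb, -, -⟩ := exists_echelon hKκ hzκ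
  choose e he heb' using fun i => exists_lift_bc IsLocalRing.residue_surjective (heb.1 i)
  have heb'' : (fun i => lmap (IsLocalRing.residue O) (e i)) = eb := funext heb'
  rw [← heb''] at heb
  -- the determinant over `O`
  choose c hc using fun i => heL.2 (lmap (algebraMap O L) (e i)) (he i)
  have h1 := gram_det_mul (Matrix.of c) (fun i => lmap (algebraMap O L) (e i)) eL hc
  rw [lmap_gram_det, hdet, ← map_mul] at h1
  obtain ⟨Q', hQ1, hQ2⟩ := ev_descend hinj h1
  obtain ⟨Q₁, hQ₁⟩ : ∃ Q₁ : O[X], Q' = Q₁ * f := by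
    have h2 : Q' %ₘ f = 0 := by
      apply Polynomial.map_injective _ hinj
      rw [map_modByMonic _ hf, ← hQ2, Polynomial.map_zero, ← mul_assoc]
      exact (modByMonic_eq_zero_iff_dvd (hf.map _)).2 (dvd_mul_left _ _)
    refine ⟨Q' /ₘ f, ?_⟩
    have h3 := modByMonic_add_div Q' f
    rw [h2, zero_add] at h3
    rw [mul_comm, h3]
  rw [hQ₁] at hQ1
  -- the degrees
  have hdetκ : (gram fun i => lmap (IsLocalRing.residue O) (e i)).det =
      ev d ((Q₁ * f).map (IsLocalRing.residue O)) := by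
    rw [lmap_gram_det, hQ1, lmap_ev]
  obtain ⟨h2, h3⟩ := gram_natDegree hKκ hzκ heb hdetκ
  obtain ⟨h4, h5⟩ := gram_natDegree hR hz heL hdet
  rw [Polynomial.map_mul] at h2 h3
  have h6 : Q₁.map (IsLocalRing.residue O) ≠ 0 := left_ne_zero_of_mul h2
  have h7 : f.map (IsLocalRing.residue O) ≠ 0 := right_ne_zero_of_mul h2
  rw [natDegree_mul h6 h7, hf.natDegree_map] at h3
  rw [natDegree_mul hu.ne_zero (right_ne_zero_of_mul h4), natDegree_eq_zero_of_isUnit hu,
    hf.natDegree_map, zero_add] at h5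
  have h8 : (Q₁.map (IsLocalRing.residue O)).natDegree = 0 := by omega
  have h9 : IsUnit (Q₁.coeff 0) := by
    by_contra hnu
    apply h6
    rw [eq_C_of_natDegree_eq_zero h8, coeff_map]
    have h10 : IsLocalRing.residue O (Q₁.coeff 0) = 0 := by
      rw [IsLocalRing.residue_eq_zero_iff, IsLocalRing.mem_maximalIdeal]
      exact hnu
    rw [h10, C_0]
  have h10 : ∀ i, i ≠ 0 → Q₁.coeff i ∈ IsLocalRing.maximalIdeal O := by
    intro i hi
    rw [← IsLocalRing.residue_eq_zero_iff, ← coeff_map]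
    exact coeff_eq_zero_of_natDegree_lt (by omega)
  have hQu : IsUnit (Q₁.map φ) := by
    rw [isUnit_iff_coeff_isUnit_isNilpotent]
    refine ⟨by rw [coeff_map]; exact h9.map φ, fun i hi => ?_⟩
    rw [coeff_map]
    exact hφ _ (h10 i hi)
  -- generation
  have hϖn : IsNilpotent (φ ϖ) := hφ ϖ (by
    rw [hϖ.maximalIdeal_eq]
    exact Ideal.mem_span_singleton_self _)
  obtain ⟨M, hM⟩ := hϖn
  refine ⟨fun i => lmap φ (e i), spn_of_image hKBC φ he fun x hx => ?_, Q₁.map φ, hQu, ?_⟩
  · obtain ⟨q, x₁, hx₁, h⟩ := gen_mod hϖ he hz heb M x hx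
    refine ⟨fun i => (q i).map φ, ?_⟩
    have h11 : lmap φ (ϖ ^ M • x₁) = 0 := by
      ext m
      rw [lmap_coeff, HahnSeries.coeff_smul, smul_eq_mul, map_mul, map_pow, hM, zero_mul,
        HahnSeries.coeff_zero]
    rw [h, map_add, h11, add_zero, map_sum]
    refine Finset.sum_congr rfl fun i _ => ?_
    rw [map_mul, lmap_ev]
  · rw [lmap_gram_det, hQ1, lmap_ev, Polynomial.map_mul]

end

end Pool.Agent.MG.G0.ZL

namespace Pool.Agent.MG.G0

open ZL Polynomial

/-- The reduction of a cover of the projective line. -/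
theorem t_ZL (hKBC : Stmt_KBC) : Stmt_ZL := by
  classical
  intro O L _ _ _ _ _ _ _ g d R f hd hu hR hz hf hDisc
  have : NeZero d := ⟨hd.ne'⟩
  obtain ⟨eL, heL, u, hu', hdet⟩ := dsc_of_disc hDisc
  obtain ⟨ϖ, hϖ⟩ := IsDiscreteValuationRing.exists_irreducible O
  obtain ⟨w, hw⟩ := IsAlgClosed.exists_pow_nat_eq (ec L (algebraMap O L ϖ))
    (Nat.factorial_pos d)
  have hy : Hyp O ϖ w g R eL := ⟨hR, hz, heL, ⟨Nat.factorial_pos d, hϖ, hw⟩, hu⟩
  obtain ⟨δ, N, H, hm⟩ := exists_mini hy
  have hδ := mini_zero hy hm hf hu' hdet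
  have hG := good hy hm hδ
  obtain ⟨r, hr⟩ := cut_kr hR hG
  have hbc := bc_cut hG
  have hrg : r = g := by
    have h1 := kr_bc hKBC hr (algebraMap O L)
    rw [hbc] at h1
    exact genus_unique (d := d) hR h1 hz
  subst hrg
  refine ⟨hr, zz_mem_cut hz, hbc, fun B _ φ hφ => ?_⟩
  refine disc_of_dsc (kr_bc hKBC hr φ) ?_ (dsc_cut hKBC hR hz hr heL hf hu' hdet φ hφ)
  have h1 := (unit_of_factorial hu hd le_rfl).map φ
  rwa [map_natCast] at h1

end Pool.Agent.MG.G0


end
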