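import Mathlib
import Pool.Agent.KDM.C08
import Pool.Agent.KDM.C13
import Pool.Agent.KDM.C14
import Pool.Agent.KDM.C24
import Pool.Agent.KDM.C25
import Pool.Agent.KDM.C26
import Pool.Agent.KDM.C30
import Pool.Agent.KDM.C34
import Pool.Agent.KDM.C45
import Pool.Agent.KDM.C46
import Pool.Agent.KDM.C53
import Pool.Agent.KDM.C54
import Pool.Agent.KDM.C61

/-! Parts: MG.WL.CL.GEN0, MG.WL.VNF, MG.KX.PDT, MG.KX.PDI, MG.KX.KCA, MG.KX.PDF, MG.G0.HV2, MG.G0.UNO, MG.G0.ZFM -/

section

/-!
# GEN0: functions with poles only at `p` are polynomials in `f`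
-/

open CategoryTheory AlgebraicGeometry IsLocalRing TopologicalSpace
open Pool.Agent.MG.Two Pool.Agent.MG.W Pool.Agent.MG.W.W0 Pool.Agent.MG.One

namespace Pool.Agent.MG.WL.CL

namespace GEN0_

/-- The germ of the coordinate generates the maximal ideal. -/
theorem max_eq {X : Scheme.{0}} {p : X} (c : Cht p) :
    maximalIdeal (X.presheaf.stalk p) =
      Ideal.span {X.presheaf.germ c.N p c.mem c.z} := by
  have hz : p ∉ X.basicOpen c.z := (c.gz c.z).2 ⟨1, (mul_one _).symm⟩
  apply le_antisymm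
  · intro a ha
    let := TopCat.Presheaf.algebra_section_stalk X.presheaf ⟨p, c.mem⟩
    have := c.aff.isLocalization_stalk ⟨p, c.mem⟩
    obtain ⟨⟨r, s⟩, hrs⟩ := IsLocalization.surj
      (c.aff.primeIdealOf ⟨p, c.mem⟩).asIdeal.primeCompl a
    have hrs' : a * X.presheaf.germ c.N p c.mem s.1 = X.presheaf.germ c.N p c.mem r := hrs
    have hs : IsUnit (X.presheaf.germ c.N p c.mem s.1) := IsLocalization.map_units
      (M := (c.aff.primeIdealOf ⟨p, c.mem⟩).asIdeal.primeCompl) (X.presheaf.stalk p) s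
    have hr : X.presheaf.germ c.N p c.mem r ∈ maximalIdeal (X.presheaf.stalk p) := by
      rw [← hrs']
      exact Ideal.mul_mem_right _ _ ha
    have hr' : p ∉ X.basicOpen r := by
      rw [Scheme.mem_basicOpen X r p c.mem]
      exact (mem_maximalIdeal _).1 hr
    obtain ⟨t, ht⟩ := (c.gz r).1 hr'
    rw [ht, map_mul] at hrs'
    obtain ⟨w, hw⟩ := hs.exists_right_inv
    rw [Ideal.mem_span_singleton']
    refine ⟨X.presheaf.germ c.N p c.mem t * w, ?_⟩
    calc X.presheaf.germ c.N p c.mem t * w * X.presheaf.germ c.N p c.mem c.z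
        = (X.presheaf.germ c.N p c.mem c.z * X.presheaf.germ c.N p c.mem t) * w := by ring
      _ = a := by rw [← hrs', mul_assoc, hw, mul_one]
  · rw [Ideal.span_singleton_le_iff_mem, mem_maximalIdeal]
    intro h
    exact hz ((Scheme.mem_basicOpen X c.z p c.mem).2 h)

section

variable {k : Type} [Field k] {E : Scheme.{0}} (π : E ⟶ Sp k) [IsIntegral E]

theorem kfun_mem_O (x : E) (γ : k) : kfun π γ ∈ O x := by
  have : Nonempty (⊤ : E.Opens) := ⟨⟨x, trivial⟩⟩
  rw [← germ_kmap π ⊤ γ]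
  exact germ_mem_O (V := (⊤ : E.Opens)) x trivial _

end

end GEN0_

open _root_.Pool.Agent.MG.WL.CL.GEN0_ in
theorem t_GEN0 (hV : Stmt_VAL) : Stmt_GEN0 := by
  intro k _ _ E π _ _ p hp hpir c _ f u hf hu hfu
  have := hpir
  have hne : Nonempty (⊤ : E.Opens) := ⟨⟨p, trivial⟩⟩
  obtain ⟨e, he, hec⟩ := hV π p hp
  let R := E.presheaf.stalk p
  set zp : R := E.presheaf.germ c.N p c.mem c.z with hzp
  have hpN : p ∈ c.N := c.mem
  set up : R := E.presheaf.germ c.N p c.mem u with hup
  have hzK : algebraMap R E.functionField zp = E.germToFunctionField c.N c.z :=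
    Scheme.algebraMap_germ_eq_germToFunctionField (X := E) c.mem c.z
  have huK : algebraMap R E.functionField up = E.germToFunctionField c.N u :=
    Scheme.algebraMap_germ_eq_germToFunctionField (X := E) c.mem u
  have hup' : IsUnit up := (Scheme.mem_basicOpen E u p c.mem).1 hu
  have hmax : maximalIdeal R = Ideal.span {zp} := max_eq c
  have hinj : Function.Injective (algebraMap R E.functionField) :=
    IsFractionRing.injective R E.functionField
  have hfz : f * algebraMap R E.functionField zp = algebraMap R E.functionField up := by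
    rw [hzK, huK, hfu]
  have hz0 : algebraMap R E.functionField zp ≠ 0 := by
    intro h0
    rw [h0, mul_zero] at hfz
    have h1 : up = 0 := hinj (by rw [← hfz, map_zero])
    rw [h1] at hup'
    exact not_isUnit_zero hup'
  have key : ∀ (n : ℕ) (h : E.functionField), (∀ x, x ≠ p → x ∈ dom h) →
      h * algebraMap R E.functionField zp ^ n ∈ O p →
      ∃ P : Polynomial k, h = P.eval₂ (kfun π) f := by
    intro n
    induction n with
    | zero =>
      intro h hh hp0
      rw [pow_zero, mul_one] at hp0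
      obtain ⟨s, hs⟩ := exists_sec (N := (⊤ : E.Opens)) h (by
        intro x _
        by_cases hx : x = p
        · rw [hx]; exact hp0
        · exact hh x hx)
      obtain ⟨a, ha⟩ := exists_const π s
      refine ⟨Polynomial.C a, ?_⟩
      rw [Polynomial.eval₂_C, ← hs, ha, germ_kmap]
    | succ n ih =>
      intro h hh hp0
      obtain ⟨r, hr⟩ := hp0
      have heu : e up ≠ 0 := (hup'.map e).ne_zero
      set γ : k := e r / e up ^ (n + 1) with hγ
      set γp : R := E.presheaf.germ c.N p c.mem (coef π c.N γ) with hγp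
      have hγK : algebraMap R E.functionField γp = kfun π γ := by
        rw [hγp, Scheme.algebraMap_germ_eq_germToFunctionField (X := E) c.mem]
        exact germ_coef (π := π) c.N γ
      have h1 : e (r - γp * up ^ (n + 1)) = 0 := by
        rw [map_sub, map_mul, map_pow, hγp, hec, hγ, div_mul_cancel₀ _ (pow_ne_zero _ heu),
          sub_self]
      have h2 : r - γp * up ^ (n + 1) ∈ maximalIdeal R := by
        rw [← he]
        exact h1
      rw [hmax, Ideal.mem_span_singleton'] at h2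
      obtain ⟨t, ht⟩ := h2
      have h3 : (h - kfun π γ * f ^ (n + 1)) * algebraMap R E.functionField zp ^ (n + 1) =
          algebraMap R E.functionField t * algebraMap R E.functionField zp := by
        rw [← map_mul, ht, map_sub, map_mul, map_pow, hγK, ← hfz, sub_mul, ← hr]
        ring
      have h4 : (h - kfun π γ * f ^ (n + 1)) * algebraMap R E.functionField zp ^ n =
          algebraMap R E.functionField t := by
        apply mul_right_cancel₀ hz0
        rw [← h3, pow_succ]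
        ring
      obtain ⟨P, hP⟩ := ih (h - kfun π γ * f ^ (n + 1)) (by
        intro x hx
        have h5 : h ∈ O x := hh x hx
        have h6 : f ∈ O x := hf x hx
        show h - kfun π γ * f ^ (n + 1) ∈ O x
        exact (O x).sub_mem h5 ((O x).mul_mem (kfun_mem_O π x γ) ((O x).pow_mem h6 _)))
        ⟨t, h4.symm⟩
      refine ⟨P + Polynomial.C γ * Polynomial.X ^ (n + 1), ?_⟩
      rw [Polynomial.eval₂_add, ← hP, Polynomial.eval₂_mul, Polynomial.eval₂_C,
        Polynomial.eval₂_pow, Polynomial.eval₂_X]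
      ring
  intro h hh
  -- the order of the pole
  obtain ⟨a, b, hb, hab⟩ := IsFractionRing.div_surjective (A := R) h
  have hb0 : b ≠ 0 := nonZeroDivisors.ne_zero hb
  obtain ⟨n, v, hv⟩ := exists_eq_unit_mul_pow zp hmax b hb0
  refine key n h hh ⟨a * ((v⁻¹ : Rˣ) : R), ?_⟩
  have hbK : algebraMap R E.functionField b ≠ 0 := by
    intro h0
    exact hb0 (hinj (by rw [h0, map_zero]))
  have hvv : algebraMap R E.functionField (v : R) * algebraMap R E.functionField ((v⁻¹ : Rˣ) : R) =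
      1 := by rw [← map_mul, Units.mul_inv, map_one]
  rw [map_mul, ← hab]
  have h7 : algebraMap R E.functionField b =
      algebraMap R E.functionField (v : R) * algebraMap R E.functionField zp ^ n := by
    rw [hv, map_mul, map_pow]
  have h8 : algebraMap R E.functionField zp ^ n =
      algebraMap R E.functionField b * algebraMap R E.functionField ((v⁻¹ : Rˣ) : R) := by
    rw [h7]
    calc algebraMap R E.functionField zp ^ n
        = (algebraMap R E.functionField (v : R) *
            algebraMap R E.functionField ((v⁻¹ : Rˣ) : R)) *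
            algebraMap R E.functionField zp ^ n := by rw [hvv, one_mul]
      _ = _ := by ring
  rw [h8, ← mul_assoc, div_mul_cancel₀ _ hbK]

end Pool.Agent.MG.WL.CL


end

section

/-!
# VNF: vanishing over an algebraically closed field for a Weierstrass curve
-/

open CategoryTheory CategoryTheory.Limits AlgebraicGeometry TensorProduct TopologicalSpace

namespace Pool.Agent.MG.WL

open Pool.Agent.MG.W Pool.Agent.MG.One Pool.Agent.MG.GLU

namespace VNF

theorem rr {X : Scheme.{0}} {U V W : X.Opens} (h : U ≤ V) (h' : V ≤ W) (a : Γ(X, W)) :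
    rs X h (rs X h' a) = rs X (h.trans h') a := AFF.rs_rs h h' a

section chart

variable {k : Type} [Field k] {a b : k} {X : Scheme.{0}} {σ : Sp k ⟶ X}
  {i1 : Sp (A1 k a b) ⟶ X} {i2 : Sp (A2 k a b) ⟶ X}

/-- The two charts of a Weierstrass curve. -/
structure Cht (σ : Sp k ⟶ X) (i1 : Sp (A1 k a b) ⟶ X) (i2 : Sp (A2 k a b) ⟶ X) : Prop where
  o1 : IsOpenImmersion i1
  o2 : IsOpenImmersion i2
  con : spMap (g1 k a b) ≫ i1 = spMap (g2 k a b) ≫ i2
  cov : ∀ z : X, z ∈ Set.range i1 ∨ z ∈ Set.range i2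
  int : ∀ x y, i1 x = i2 y → ∃ w, spMap (g1 k a b) w = x ∧ spMap (g2 k a b) w = y
  sec : σ = spMap (inf2 k a b) ≫ i2

theorem inf2_z : inf2 k a b (z2 k a b) = 0 := lift2_z _ _ _ _

theorem inf2_b (c : k) : inf2 k a b (algebraMap k _ c) = c := lift2_b _ _ _ _ _

theorem inf2_surj : Function.Surjective (inf2 k a b) := fun c => ⟨algebraMap k _ c, inf2_b c⟩

theorem z_sec (s : Sp k) : z2 k a b ∈ (spMap (inf2 k a b) s).asIdeal := by
  change inf2 k a b (z2 k a b) ∈ s.asIdeal
  rw [inf2_z]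
  exact s.asIdeal.zero_mem

theorem mem_i1 (c : Cht σ i1 i2) (z : X) : z ∈ Set.range i1 ↔ z ∉ Set.range σ := by
  constructor
  · rintro ⟨x, rfl⟩ ⟨s, hs⟩
    rw [c.sec, Scheme.Hom.comp_apply] at hs
    obtain ⟨w, h1, h2⟩ := c.int x _ hs.symm
    have h3 := z_sec (a := a) (b := b) s
    exact (WBC.range_g2 k a b _).1 ⟨w, h2⟩ h3
  · intro hz
    rcases c.cov z with h | ⟨x, rfl⟩
    · exact h
    · by_cases hx : z2 k a b ∈ x.asIdeal
      · exfalso
        apply hz
        let s : Sp k := (⊥ : PrimeSpectrum k)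
        refine ⟨s, ?_⟩
        rw [c.sec, Scheme.Hom.comp_apply]
        congr 1
        have h1 : RingHom.ker (inf2 k a b) ≤ x.asIdeal := by
          intro v hv
          have h2 := (t_WRG k a b).2.1 v
          rw [RingHom.mem_ker] at hv
          rw [hv, map_zero, sub_zero] at h2
          exact (Ideal.span_singleton_le_iff_mem _).2 hx h2
        have h3 : (RingHom.ker (inf2 k a b)).IsMaximal :=
          RingHom.ker_isMaximal_of_surjective _ inf2_surj
        have h4 := h3.eq_of_le x.isPrime.ne_top h1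
        apply PrimeSpectrum.ext
        rw [← h4]
        rfl
      · obtain ⟨w, rfl⟩ := (WBC.range_g2 k a b x).2 hx
        refine ⟨spMap (g1 k a b) w, ?_⟩
        rw [← Scheme.Hom.comp_apply, c.con, Scheme.Hom.comp_apply]

theorem pt (s : Sp k) : s = (⊥ : PrimeSpectrum k) := by
  exact Subsingleton.elim (α := PrimeSpectrum k) s ⊥

/-- A function which vanishes at the section is divisible by `z` near the section. -/
theorem div_z [IsOpenImmersion i2] (hs : σ = spMap (inf2 k a b) ≫ i2) (N : X.Opens)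
    (hN : i2.opensRange = N) (aN : IsAffineOpen N) (leN : ⊤ ≤ i2 ⁻¹ᵁ N) (z : Γ(X, N))
    (hz : gm i2 N leN z = z2 k a b) (V : X.Opens) (leV : ⊤ ≤ σ ⁻¹ᵁ V) (u : Γ(X, V))
    (hu : gm σ V leV u = 0) :
    ∃ (O : X.Opens) (hON : O ≤ N) (hOV : O ≤ V) (_ : ⊤ ≤ σ ⁻¹ᵁ O) (u' : Γ(X, O)),
      rs X hOV u = rs X hON z * u' := by
  let s : Sp k := (⊥ : PrimeSpectrum k)
  have hsN : ⊤ ≤ σ ⁻¹ᵁ N := by
    intro q _
    change σ q ∈ N
    rw [hs, Scheme.Hom.comp_apply]
    exact leN (show _ ∈ ⊤ by trivial)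
  have hp : σ s ∈ V ⊓ N := ⟨leV (show s ∈ ⊤ by trivial), hsN (show s ∈ ⊤ by trivial)⟩
  obtain ⟨h, h1, h2⟩ := aN.exists_basicOpen_le ⟨σ s, hp⟩ hp.2
  have hON : X.basicOpen h ≤ N := X.basicOpen_le h
  have hOV : X.basicOpen h ≤ V := h1.trans inf_le_left
  have hsO : ⊤ ≤ σ ⁻¹ᵁ (X.basicOpen h) := by
    intro q _
    change σ q ∈ X.basicOpen h
    rw [pt q]
    exact h2
  obtain ⟨m, y, hy⟩ := exists_eq_pow_mul_of_isAffineOpen X N aN h (rs X hOV u)
  have hy' : rs X hON y = rs X hON h ^ m * rs X hOV u := hy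
  -- the value of `y`
  have hv : inf2 k a b (gm i2 N leN y) = 0 := by
    have e1 : gm σ N hsN y = inf2 k a b (gm i2 N leN y) := gm_comp i2 (inf2 k a b) σ hs N leN hsN y
    have hid : σ = spMap (RingHom.id k) ≫ σ := by
      have : spMap (RingHom.id k) = 𝟙 _ := Spec.map_id _
      rw [this, Category.id_comp]
    have e2 := gm_rs σ (RingHom.id k) σ hid hON hsN hsO y
    have e3 := gm_rs σ (RingHom.id k) σ hid hOV leV hsO u
    rw [← e1]
    have e4 : gm σ N hsN y = gm σ (X.basicOpen h) hsO (rs X hON y) := e2.symm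
    rw [e4, hy', map_mul, e3, hu, map_zero, mul_zero]
  have hd := (t_WRG k a b).2.1 (gm i2 N leN y)
  rw [hv, map_zero, sub_zero, Ideal.mem_span_singleton] at hd
  obtain ⟨w, hw⟩ := hd
  have hb := gm_bij i2 N leN hN
  obtain ⟨w', rfl⟩ := hb.2 w
  have hyz : y = z * w' := by
    apply hb.1
    rw [hw, map_mul, hz]
  have hun : IsUnit (rs X hON h) := RingedSpace.isUnit_res_basicOpen X.toRingedSpace h
  obtain ⟨v, hv'⟩ := hun.exists_left_inv
  refine ⟨X.basicOpen h, hON, hOV, hsO, v ^ m * rs X hON w', ?_⟩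
  have h3 : v ^ m * rs X hON y = rs X hOV u := by
    rw [hy', ← mul_assoc, ← mul_pow, hv', one_pow, one_mul]
  rw [← h3, hyz, map_mul]
  ring

end chart

end VNF

theorem t_VNF (hCEC : Stmt_CEC) : Stmt_VNF := by
  intro k _ _ y a b _ f hf L N s
  let e : y.X ⟶ WX k a b := f.f
  have he : IsIso e := hf
  let i1 : Sp (A1 k a b) ⟶ y.X := WX.in1 k a b ≫ inv e
  let i2 : Sp (A2 k a b) ⟶ y.X := WX.in2 k a b ≫ inv e
  have hie : ∀ (x : y.X), inv e (e x) = x := by
    intro x
    rw [← Scheme.Hom.comp_apply, IsIso.hom_inv_id]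
    rfl
  have hei : ∀ (x : WX k a b), e (inv e x) = x := by
    intro x
    rw [← Scheme.Hom.comp_apply, IsIso.inv_hom_id]
    rfl
  have hσ : y.σ 0 = spMap (inf2 k a b) ≫ i2 := by
    have h1 := f.sec 0
    have h2 : (Wei (WZ a b)).σ 0 = spMap (inf2 k a b) ≫ WX.in2 k a b := rfl
    have h3 : spMap (RingHom.id k) = 𝟙 _ := Spec.map_id _
    rw [h2, h3, Category.id_comp] at h1
    have h4 : y.σ 0 ≫ e = spMap (inf2 k a b) ≫ WX.in2 k a b := h1
    rw [← Category.assoc, ← h4, Category.assoc, IsIso.hom_inv_id, Category.comp_id]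
  have hC : VNF.Cht (y.σ 0) i1 i2 :=
    { o1 := inferInstance
      o2 := inferInstance
      con := by
        have h : spMap (g1 k a b) ≫ WX.in1 k a b = spMap (g2 k a b) ≫ WX.in2 k a b :=
          pushout.condition
        rw [← Category.assoc, h, Category.assoc]
      cov := by
        intro z
        rcases glue2_surj (spMap (g1 k a b)) (spMap (g2 k a b)) (e z) with ⟨x, hx⟩ | ⟨x, hx⟩
        · left
          refine ⟨x, ?_⟩
          have hx' : WX.in1 k a b x = e z := hx
          rw [Scheme.Hom.comp_apply, hx', hie]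
        · right
          refine ⟨x, ?_⟩
          have hx' : WX.in2 k a b x = e z := hx
          rw [Scheme.Hom.comp_apply, hx', hie]
      int := by
        intro x x' h
        have h1 := congrArg e h
        rw [Scheme.Hom.comp_apply, Scheme.Hom.comp_apply, hei, hei] at h1
        exact glue2_eq (spMap (g1 k a b)) (spMap (g2 k a b)) x x' h1
      sec := hσ }
  have hU1 : i1.opensRange = L.U := by
    ext z
    exact (VNF.mem_i1 hC z).trans (L.mU z).symm
  have hprop : IsProper y.π :=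
    MorphismProperty.of_isPullback (P := @IsProper) f.cart (t_WPR k a b).1
  have aU : IsAffineOpen L.U := hU1 ▸ isAffineOpen_opensRange i1
  let T : y.X.Opens := i2.opensRange
  have aT : IsAffineOpen T := isAffineOpen_opensRange i2
  -- the first application of CEC
  obtain ⟨r, q, hq⟩ := hCEC L.U aU N.W (fun i => N.V i ⊓ L.U) N.leW N.aW (fun i => inf_le_right)
    (fun i => inf_affine hprop (N.aV i) aU)
    (fun z hz => by
      rcases N.cov z with h | ⟨i, h⟩
      · exact Or.inl h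
      · exact Or.inr ⟨i, h, hz⟩)
    (fun i j hij z hz => N.dis i j hij ⟨hz.1.1, hz.2.1⟩)
    (fun i => rs y.X (inf_le_inf_left N.W inf_le_left) (s i))
  -- the second application
  have aUT : IsAffineOpen (L.U ⊓ T) := inf_affine hprop aU aT
  have secT : ⊤ ≤ (y.σ 0) ⁻¹ᵁ T := by
    intro x _
    change y.σ 0 x ∈ T
    rw [hσ, Scheme.Hom.comp_apply]
    exact ⟨_, rfl⟩
  have notU : ∀ z : y.X, z ∉ L.U → ∀ O : y.X.Opens, ⊤ ≤ (y.σ 0) ⁻¹ᵁ O → z ∈ O := by
    intro z hz O hO
    rw [L.mU, not_not] at hz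
    obtain ⟨x, rfl⟩ := hz
    exact hO (show x ∈ ⊤ by trivial)
  have hle0 : (L.U ⊓ T) ⊓ (N.V N.i₀ ⊓ T) ≤ N.V N.i₀ ⊓ L.U := fun z hz => ⟨hz.2.1, hz.1.1⟩
  obtain ⟨v, q2, hq2⟩ := hCEC T aT (ι := Unit) (L.U ⊓ T) (fun _ => N.V N.i₀ ⊓ T) inf_le_right aUT
    (fun _ => inf_le_right) (fun _ => inf_affine hprop (N.aV N.i₀) aT)
    (fun z hz => by
      by_cases h : z ∈ L.U
      · exact Or.inl ⟨h, hz⟩
      · exact Or.inr ⟨(), notU z h _ N.sec, hz⟩)
    (fun i j hij => absurd rfl hij)
    (fun _ => rs y.X hle0 (q N.i₀))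
  -- rings
  let i12 : Sp (A12 k a b) ⟶ y.X := spMap (g2 k a b) ≫ i2
  have h12 : i12 = spMap (g1 k a b) ≫ i1 := hC.con.symm
  have hr12 : i12.opensRange = L.U ⊓ T := by
    ext z
    constructor
    · rintro ⟨w, rfl⟩
      refine ⟨?_, ?_⟩
      · rw [← hU1]
        refine ⟨spMap (g1 k a b) w, ?_⟩
        rw [← Scheme.Hom.comp_apply, ← h12]
      · exact ⟨spMap (g2 k a b) w, by rw [← Scheme.Hom.comp_apply]⟩
    · rintro ⟨h1, ⟨x', h2⟩⟩
      rw [← hU1] at h1
      obtain ⟨x, h1⟩ := h1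
      obtain ⟨w, hw1, hw2⟩ := hC.int x x' (h1.trans h2.symm)
      refine ⟨w, ?_⟩
      rw [Scheme.Hom.comp_apply, hw2]
      exact h2
  have le1 : ⊤ ≤ i1 ⁻¹ᵁ L.U := le_range i1 hU1
  have le2 : ⊤ ≤ i2 ⁻¹ᵁ T := le_range i2 rfl
  have le12 : ⊤ ≤ i12 ⁻¹ᵁ (L.U ⊓ T) := le_range i12 hr12
  have b1 := gm_bij i1 L.U le1 hU1
  have b2 := gm_bij i2 T le2 rfl
  have b12 := gm_bij i12 (L.U ⊓ T) le12 hr12
  have m1 : ∀ w, gm i12 (L.U ⊓ T) le12 (rs y.X inf_le_left w) = g1 k a b (gm i1 L.U le1 w) :=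
    fun w => gm_rs i1 (g1 k a b) i12 h12 inf_le_left le1 le12 w
  have m2 : ∀ w, gm i12 (L.U ⊓ T) le12 (rs y.X inf_le_right w) = g2 k a b (gm i2 T le2 w) :=
    fun w => gm_rs i2 (g2 k a b) i12 rfl inf_le_right le2 le12 w
  have hπ : i12 ≫ y.π = spMap (algebraMap k (A12 k a b)) := by
    have h1 : e ≫ WX.pr k a b = y.π := by
      have h2 := f.cart.w
      have h3 : spMap (RingHom.id k) = 𝟙 _ := Spec.map_id _
      rw [h3, Category.comp_id] at h2
      exact h2
    have h2 : inv e ≫ y.π = WX.pr k a b := by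
      rw [← h1, IsIso.inv_hom_id_assoc]
    have h3 : i12 ≫ y.π = spMap (g2 k a b) ≫ WX.in2 k a b ≫ inv e ≫ y.π := by
      simp only [i12, i2, Category.assoc]
    rw [h3, h2, WX.in2_pr, ← Spec.map_comp]
    rfl
  have mc : ∀ c, gm i12 (L.U ⊓ T) le12 (coef y.π _ c) = algebraMap k (A12 k a b) c :=
    fun c => gm_coef i12 y.π (algebraMap k (A12 k a b)) hπ _ le12 c
  obtain ⟨c, v1, v2, hv⟩ := (t_WRG k a b).2.2.2.2.1 (gm i12 (L.U ⊓ T) le12 v)
  obtain ⟨w1, rfl⟩ := b1.2 v1
  obtain ⟨w2, rfl⟩ := b2.2 v2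
  obtain ⟨z, hz⟩ := b2.2 (z2 k a b)
  obtain ⟨zi, hzi⟩ := b12.2 ((zu k a b)⁻¹).val
  have hv' : v = coef y.π _ c * zi + rs y.X inf_le_left w1 + rs y.X inf_le_right w2 := by
    apply b12.1
    rw [hv, map_add, map_add, map_mul, mc, m1, m2, hzi]
  have hzz : rs y.X inf_le_right z * zi = 1 := by
    apply b12.1
    rw [map_mul, m2, hzi, hz, map_one, ← zu_val]
    exact Units.mul_inv _
  -- the coordinate
  obtain ⟨O, hOT, hOV, hsO, u', hu'⟩ := VNF.div_z hσ T rfl aT le2 z hz L.V L.le L.t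
    ((L.ker L.t).2 ⟨1, (mul_one _).symm⟩)
  -- the extension of `t (q - w1)`
  have hVL : N.V N.i₀ ⊓ L.U ≤ L.V := inf_le_left.trans N.le₀
  let O3 : y.X.Opens := O ⊓ N.V N.i₀
  let I : y.X.Opens := O3 ⊓ L.U
  have I1 : I ≤ N.V N.i₀ ⊓ L.U := fun x hx => ⟨hx.1.2, hx.2⟩
  have I2 : I ≤ O3 := inf_le_left
  have I3 : I ≤ L.U ⊓ T := fun x hx => ⟨hx.2, hOT hx.1.1⟩
  have I4 : I ≤ N.V N.i₀ ⊓ T := fun x hx => ⟨hx.1.2, hOT hx.1.1⟩
  have I5 : I ≤ O := fun x hx => hx.1.1
  have I6 : I ≤ (L.U ⊓ T) ⊓ (N.V N.i₀ ⊓ T) := le_inf I3 I4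
  have hglue := AFF.glue (X := y.X) (U := N.V N.i₀ ⊓ L.U) (V := O3) (W := N.V N.i₀) (I := I)
    inf_le_left inf_le_right
    (fun x hx => by
      by_cases h : x ∈ L.U
      · exact Or.inl ⟨hx, h⟩
      · exact Or.inr ⟨notU x h O hsO, hx⟩)
    I1 I2 (fun x hx => ⟨hx.2, hx.1.2⟩)
    (rs y.X hVL L.t * (q N.i₀ - rs y.X inf_le_right w1))
    (coef y.π O3 c * rs y.X inf_le_left u' + rs y.X (inf_le_left.trans hOV) L.t *
      (rs y.X (inf_le_left.trans hOT) w2 +
        rs y.X (fun x hx => ⟨hx.2, hOT hx.1⟩ : O3 ≤ N.V N.i₀ ⊓ T) (q2 ()))) (by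
      have k1 := congrArg (rs y.X I6) (hq2 ())
      rw [hv'] at k1
      have k2 := congrArg (rs y.X I3) hzz
      have k3 := congrArg (rs y.X I5) hu'
      simp only [map_add, map_mul, map_sub, map_one, VNF.rr, coef_rs] at k1 k2 k3 ⊢
      rw [k1]
      linear_combination (coef y.π I c) * (rs y.X _ zi) * k3 + (coef y.π I c) * (rs y.X _ u') * k2)
  obtain ⟨q0, hq0, -⟩ := hglue
  -- the result
  have hWU : N.W ≤ L.U := N.leW
  have key : ∀ i, ∃ qi : Γ(y.X, N.V i),
      (i ≠ N.i₀ → s i = rs y.X inf_le_left (r + rs y.X hWU w1) + rs y.X inf_le_right qi) ∧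
      (i = N.i₀ → ∀ hV : N.V i ≤ L.V, rs y.X (inf_le_right.trans hV : N.W ⊓ N.V i ≤ L.V) L.t *
        (s i - rs y.X inf_le_left (r + rs y.X hWU w1)) = rs y.X inf_le_right qi) := by
    intro i
    have hle : N.W ⊓ N.V i ≤ N.W ⊓ (N.V i ⊓ L.U) := fun x hx => ⟨hx.1, hx.2, hWU hx.1⟩
    have h1 := congrArg (rs y.X hle) (hq i)
    simp only [map_add, VNF.rr] at h1
    have h2 : rs y.X (le_refl (N.W ⊓ N.V i)) (s i) = s i := by
      change (y.X.presheaf.map (𝟙 _)).hom (s i) = s i
      rw [y.X.presheaf.map_id]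
      rfl
    rw [h2] at h1
    rcases eq_or_ne i N.i₀ with rfl | hi
    · refine ⟨q0, fun h => absurd rfl h, fun _ hV => ?_⟩
      have h3 := congrArg (rs y.X (fun x hx => ⟨hx.2, hWU hx.1⟩ :
        N.W ⊓ N.V N.i₀ ≤ N.V N.i₀ ⊓ L.U)) hq0
      simp only [map_add, map_mul, map_sub, VNF.rr] at h3 ⊢
      rw [h3, h1]
      ring
    · refine ⟨rs y.X (le_inf le_rfl (N.ne i hi)) (q i - rs y.X inf_le_right w1),
        fun _ => ?_, fun h => absurd h hi⟩
      simp only [map_add, map_sub, VNF.rr]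
      rw [h1]
      ring
  choose qq hqq using key
  exact ⟨r + rs y.X hWU w1, qq, fun i hi => (hqq i).1 hi, (hqq N.i₀).2 rfl N.le₀⟩

end Pool.Agent.MG.WL


end

section

/-!
# PDT: automorphisms of the Laurent series and deformations
-/

open CategoryTheory CategoryTheory.Limits AlgebraicGeometry
open scoped TensorProduct

namespace Pool.Agent.MG.KX

open Pool.Agent.MG.G0 Pool.Agent.MG.GLU

namespace PDTm

section

variable {I A : Type} [CommRing A]

/-- The series `h + ε k`. -/
noncomputable def jn (h k : KK I A) : KK I (Eps A) := fun i =>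
  lmap (epsInl A) (h i) + epsL A * lmap (epsInl A) (k i)

theorem kmap_jn (h k : KK I A) : kmap (eps0 A) (jn h k) = h := by
  funext i
  ext m
  rw [kmap_apply, lmap_coeff]
  change eps0 A ((lmap (epsInl A) (h i) + epsL A * lmap (epsInl A) (k i)).coeff m) = _
  rw [HahnSeries.coeff_add, coeff_epsL_mul, lmap_coeff, lmap_coeff]
  simp [epsInl, epsE]

theorem ksnd_jn (h k : KK I A) : ksnd (jn h k) = k :=
  funext fun i => lsnd_inl (h i) (k i)

theorem jn_eq (f : KK I (Eps A)) : f = jn (kmap (eps0 A) f) (ksnd f) :=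
  funext fun i => ls_eq (f i)

theorem ext_eps {f h : KK I (Eps A)} (h1 : kmap (eps0 A) f = kmap (eps0 A) h)
    (h2 : ksnd f = ksnd h) : f = h := by
  rw [jn_eq f, jn_eq h, h1, h2]

theorem mem_Pol_iff {n : ℤ} {f : KK I (Eps A)} :
    f ∈ Pol I (Eps A) n ↔ kmap (eps0 A) f ∈ Pol I A n ∧ ksnd f ∈ Pol I A n := by
  constructor
  · intro h
    refine ⟨fun i m hm => ?_, fun i m hm => ?_⟩
    · rw [kmap_apply, lmap_coeff, h i m hm, map_zero]
    · rw [ksnd_apply, lsnd_coeff, h i m hm]
      rfl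
  · rintro ⟨h1, h2⟩ i m hm
    have e1 := h1 i m hm
    have e2 := h2 i m hm
    rw [kmap_apply, lmap_coeff] at e1
    rw [ksnd_apply, lsnd_coeff] at e2
    exact TrivSqZeroExt.ext e1 e2

/-- The extension of `α` to `A[ε]((τ))`. -/
noncomputable def ext1 (α : KK I A ≃ₐ[A] KK I A) : KK I (Eps A) →ₐ[Eps A] KK I (Eps A) where
  toFun f := jn (α (kmap (eps0 A) f)) (α (ksnd f))
  map_one' := by
    have h1 : ksnd (1 : KK I (Eps A)) = 0 := by
      rw [← map_one (algebraMap (Eps A) (KK I (Eps A))), ksnd_algebraMap, TrivSqZeroExt.snd_one,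
        map_zero]
    apply ext_eps
    · rw [kmap_jn, map_one, map_one]
    · rw [ksnd_jn, h1, map_zero]
  map_zero' := by
    have h1 : ksnd (0 : KK I (Eps A)) = 0 := by
      rw [← map_zero (algebraMap (Eps A) (KK I (Eps A))), ksnd_algebraMap, TrivSqZeroExt.snd_zero,
        map_zero]
    apply ext_eps
    · rw [kmap_jn, map_zero, map_zero]
    · rw [ksnd_jn, h1, map_zero]
  map_add' f h := by
    apply ext_eps
    · rw [kmap_jn, map_add, map_add, map_add, kmap_jn, kmap_jn]
    · rw [ksnd_jn, ksnd_add, ksnd_add, map_add, ksnd_jn, ksnd_jn]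
  map_mul' f h := by
    apply ext_eps
    · rw [kmap_jn, map_mul, map_mul, map_mul, kmap_jn, kmap_jn]
    · rw [ksnd_jn, ksnd_mul, ksnd_mul, map_add, map_mul, map_mul, kmap_jn, kmap_jn, ksnd_jn,
        ksnd_jn]
  commutes' c := by
    apply ext_eps
    · rw [kmap_jn, kmap_algebraMap]
      exact α.commutes _
    · rw [ksnd_jn, ksnd_algebraMap]
      exact α.commutes _

theorem ext1_apply (α : KK I A ≃ₐ[A] KK I A) (f : KK I (Eps A)) :
    ext1 α f = jn (α (kmap (eps0 A) f)) (α (ksnd f)) := rfl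

theorem kmap_ext1 (α : KK I A ≃ₐ[A] KK I A) (f : KK I (Eps A)) :
    kmap (eps0 A) (ext1 α f) = α (kmap (eps0 A) f) := kmap_jn _ _

theorem ksnd_ext1 (α : KK I A ≃ₐ[A] KK I A) (f : KK I (Eps A)) :
    ksnd (ext1 α f) = α (ksnd f) := ksnd_jn _ _

/-- The extension of `α` as an automorphism. -/
noncomputable def ext2 (α : KK I A ≃ₐ[A] KK I A) : KK I (Eps A) ≃ₐ[Eps A] KK I (Eps A) :=
  AlgEquiv.ofAlgHom (ext1 α) (ext1 α.symm)
    (AlgHom.ext fun f => by
      rw [AlgHom.comp_apply]
      apply ext_eps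
      · rw [kmap_ext1, kmap_ext1, α.apply_symm_apply]
        rfl
      · rw [ksnd_ext1, ksnd_ext1, α.apply_symm_apply]
        rfl)
    (AlgHom.ext fun f => by
      rw [AlgHom.comp_apply]
      apply ext_eps
      · rw [kmap_ext1, kmap_ext1, α.symm_apply_apply]
        rfl
      · rw [ksnd_ext1, ksnd_ext1, α.symm_apply_apply]
        rfl)

theorem kmap_ext2 (α : KK I A ≃ₐ[A] KK I A) (f : KK I (Eps A)) :
    kmap (eps0 A) (ext2 α f) = α (kmap (eps0 A) f) := kmap_jn _ _

theorem ksnd_ext2 (α : KK I A ≃ₐ[A] KK I A) (f : KK I (Eps A)) :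
    ksnd (ext2 α f) = α (ksnd f) := ksnd_jn _ _

theorem mem_map {α : KK I A ≃ₐ[A] KK I A} {P : Subalgebra A (KK I A)} {f : KK I A} :
    α f ∈ P.map (α : KK I A →ₐ[A] KK I A) ↔ f ∈ P := by
  constructor
  · rintro ⟨h, hh, he⟩
    have : h = f := α.injective he
    exact this ▸ hh
  · intro h
    exact ⟨f, h, rfl⟩

/-- The map of the quotients. -/
noncomputable def TT' (α : KK I A ≃ₐ[A] KK I A) (P : Subalgebra A (KK I A)) (x : MM P) :
    MM (P.map (α : KK I A →ₐ[A] KK I A)) :=
  mk _ (α (mk_surj P x).choose)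

theorem TT'_mk (α : KK I A ≃ₐ[A] KK I A) (P : Subalgebra A (KK I A)) (h : KK I A) :
    TT' α P (mk P h) = mk _ (α h) := by
  rw [TT', mk_eq, ← map_sub, mem_map, ← mk_eq]
  exact (mk_surj P (mk P h)).choose_spec

theorem TT'_inj (α : KK I A ≃ₐ[A] KK I A) (P : Subalgebra A (KK I A)) {x y : MM P}
    (h : TT' α P x = TT' α P y) : x = y := by
  obtain ⟨a, rfl⟩ := mk_surj P x
  obtain ⟨b, rfl⟩ := mk_surj P y
  rw [TT'_mk, TT'_mk, mk_eq, ← map_sub, mem_map, ← mk_eq] at h
  exact h

theorem TT'_add (α : KK I A ≃ₐ[A] KK I A) (P : Subalgebra A (KK I A)) (x y : MM P) :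
    TT' α P (x + y) = TT' α P x + TT' α P y := by
  obtain ⟨a, rfl⟩ := mk_surj P x
  obtain ⟨b, rfl⟩ := mk_surj P y
  rw [← map_add, TT'_mk, TT'_mk, TT'_mk, map_add, map_add]

theorem TT'_smulA (α : KK I A ≃ₐ[A] KK I A) (P : Subalgebra A (KK I A)) (a : A) (x : MM P) :
    TT' α P (a • x) = a • TT' α P x := by
  obtain ⟨b, rfl⟩ := mk_surj P x
  rw [← mk_smulA, TT'_mk, TT'_mk, map_smul, mk_smulA]

theorem TT'_smul (α : KK I A ≃ₐ[A] KK I A) (P : Subalgebra A (KK I A)) (f : P)
    (f' : P.map (α : KK I A →ₐ[A] KK I A)) (hf : (f' : KK I A) = α f) (x : MM P) :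
    TT' α P (f • x) = f' • TT' α P x := by
  obtain ⟨b, rfl⟩ := mk_surj P x
  rw [← map_smul, TT'_mk, TT'_mk, ← map_smul]
  congr 1
  change α ((f : KK I A) * b) = (f' : KK I A) * α b
  rw [map_mul, hf]

/-- The preimage. -/
noncomputable def pre (α : KK I A ≃ₐ[A] KK I A) (P : Subalgebra A (KK I A))
    (f : P.map (α : KK I A →ₐ[A] KK I A)) : P :=
  ⟨α.symm f, by
    rw [← mem_map (α := α), α.apply_symm_apply]
    exact f.2⟩

theorem pre_spec (α : KK I A ≃ₐ[A] KK I A) (P : Subalgebra A (KK I A))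
    (f : P.map (α : KK I A →ₐ[A] KK I A)) : (f : KK I A) = α (pre α P f : KK I A) :=
  (α.apply_symm_apply _).symm

theorem pre_eq (α : KK I A ≃ₐ[A] KK I A) (P : Subalgebra A (KK I A))
    (f : P.map (α : KK I A →ₐ[A] KK I A)) (h : P) (he : (f : KK I A) = α h) : pre α P f = h := by
  apply Subtype.ext
  apply α.injective
  rw [← pre_spec, he]

/-- The derivation. -/
noncomputable def der (α : KK I A ≃ₐ[A] KK I A) {P : Subalgebra A (KK I A)} (δ : DD P) :
    DD (P.map (α : KK I A →ₐ[A] KK I A)) :=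
  Derivation.mk'
    { toFun := fun f => TT' α P (δ (pre α P f))
      map_add' := fun f h => by
        have e : pre α P (f + h) = pre α P f + pre α P h :=
          pre_eq α P _ _ (by
            change (f : KK I A) + (h : KK I A) = α ((pre α P f : KK I A) + (pre α P h : KK I A))
            rw [map_add, ← pre_spec, ← pre_spec])
        rw [e, map_add, TT'_add]
      map_smul' := fun a f => by
        have e : pre α P (a • f) = a • pre α P f :=
          pre_eq α P _ _ (by
            change a • (f : KK I A) = α (a • (pre α P f : KK I A))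
            rw [map_smul, ← pre_spec])
        rw [e, Derivation.map_smul, TT'_smulA]
        rfl }
    fun f h => by
      have e : pre α P (f * h) = pre α P f * pre α P h :=
        pre_eq α P _ _ (by
          change (f : KK I A) * (h : KK I A) = α ((pre α P f : KK I A) * (pre α P h : KK I A))
          rw [map_mul, ← pre_spec, ← pre_spec])
      change TT' α P (δ (pre α P (f * h))) = f • TT' α P (δ (pre α P h)) +
        h • TT' α P (δ (pre α P f))
      rw [e, Derivation.leibniz, TT'_add, TT'_smul α P _ f (pre_spec α P f),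
        TT'_smul α P _ h (pre_spec α P h)]

theorem der_apply (α : KK I A ≃ₐ[A] KK I A) {P : Subalgebra A (KK I A)} (δ : DD P)
    (f : P.map (α : KK I A →ₐ[A] KK I A)) : der α δ f = TT' α P (δ (pre α P f)) := rfl

end

end PDTm

open _root_.Pool.Agent.MG.KX.PDTm in
/-- PDT. -/
theorem t_PDT : Stmt_PDT := by
  intro I A _ _ α hα
  refine ⟨ext2 α, ?_, kmap_ext2 α, fun P δ => ⟨der α δ, ?_, ?_⟩⟩
  · intro f
    rw [mem_Pol_iff, mem_Pol_iff, kmap_ext2, ksnd_ext2, hα, hα]
  · intro f f' h hf hh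
    rw [der_apply, pre_eq α P f' f hf, hh, TT'_mk]
  · have key : ∀ F : KK I (Eps A), ext2 α F ∈ Pdel (P.map (α : KK I A →ₐ[A] KK I A)) (der α δ) ↔
        F ∈ Pdel P δ := by
      intro F
      rw [mem_Pdel, mem_Pdel]
      constructor
      · rintro ⟨h1, h2⟩
        have h3 : kmap (eps0 A) F ∈ P := by
          rw [kmap_ext2, mem_map] at h1
          exact h1
        refine ⟨h3, ?_⟩
        rw [der_apply, pre_eq α P _ ⟨kmap (eps0 A) F, h3⟩ (kmap_ext2 α F), ksnd_ext2,
          ← TT'_mk] at h2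
        exact TT'_inj α P h2
      · rintro ⟨h1, h2⟩
        have h3 : kmap (eps0 A) (ext2 α F) ∈ P.map (α : KK I A →ₐ[A] KK I A) := by
          rw [kmap_ext2, mem_map]
          exact h1
        refine ⟨h3, ?_⟩
        rw [der_apply, pre_eq α P _ ⟨kmap (eps0 A) F, h1⟩ (kmap_ext2 α F), ksnd_ext2, h2, TT'_mk]
    ext F
    constructor
    · intro hF
      refine ⟨(ext2 α).symm F, ?_, (ext2 α).apply_symm_apply F⟩
      rw [← (ext2 α).apply_symm_apply F] at hF
      exact (key _).1 hF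
    · rintro ⟨G, hG, rfl⟩
      exact (key G).2 hG

end Pool.Agent.MG.KX


end

section

/-!
# PDI: changes of the coordinates and deformations
-/

open CategoryTheory CategoryTheory.Limits AlgebraicGeometry
open scoped TensorProduct

namespace Pool.Agent.MG.KX

open Pool.Agent.MG.G0 Pool.Agent.MG.GLU

namespace PDIm

open PDTm

section

variable {I A : Type} [CommRing A]

/-- The homomorphism `1 + ε θ d/dτ`. -/
noncomputable def ah (θ : KK I A) : KK I (Eps A) →ₐ[Eps A] KK I (Eps A) where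
  toFun f := jn (kmap (eps0 A) f) (ksnd f + θ * dd (kmap (eps0 A) f))
  map_one' := by
    have h1 : ksnd (1 : KK I (Eps A)) = 0 := by
      rw [← map_one (algebraMap (Eps A) (KK I (Eps A))), ksnd_algebraMap, TrivSqZeroExt.snd_one,
        map_zero]
    have h2 : dd (1 : KK I A) = 0 := by
      rw [← map_one (algebraMap A (KK I A)), dd_algebraMap]
    apply ext_eps
    · rw [kmap_jn]
    · rw [ksnd_jn, h1, map_one, h2, mul_zero, add_zero]
  map_zero' := by
    have h1 : ksnd (0 : KK I (Eps A)) = 0 := by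
      rw [← map_zero (algebraMap (Eps A) (KK I (Eps A))), ksnd_algebraMap, TrivSqZeroExt.snd_zero,
        map_zero]
    have h2 : dd (0 : KK I A) = 0 := by
      rw [← map_zero (algebraMap A (KK I A)), dd_algebraMap, map_zero]
    apply ext_eps
    · rw [kmap_jn]
    · rw [ksnd_jn, h1, map_zero, h2, mul_zero, add_zero]
  map_add' f h := by
    apply ext_eps
    · rw [kmap_jn, map_add, map_add, kmap_jn, kmap_jn]
    · rw [ksnd_jn, ksnd_add, ksnd_add, ksnd_jn, ksnd_jn, map_add, dd_add, mul_add]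
      abel
  map_mul' f h := by
    apply ext_eps
    · rw [kmap_jn, map_mul, map_mul, kmap_jn, kmap_jn]
    · rw [ksnd_jn, ksnd_mul, ksnd_mul, map_mul, kmap_jn, kmap_jn, ksnd_jn, ksnd_jn, dd_mul]
      ring
  commutes' c := by
    apply ext_eps
    · rw [kmap_jn]
    · rw [ksnd_jn, kmap_algebraMap, dd_algebraMap, mul_zero, add_zero]

theorem kmap_ah (θ : KK I A) (f : KK I (Eps A)) : kmap (eps0 A) (ah θ f) = kmap (eps0 A) f :=
  kmap_jn _ _

theorem ksnd_ah (θ : KK I A) (f : KK I (Eps A)) :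
    ksnd (ah θ f) = ksnd f + θ * dd (kmap (eps0 A) f) := ksnd_jn _ _

theorem ah_ah (θ θ' : KK I A) (h : θ + θ' = 0) (f : KK I (Eps A)) : ah θ (ah θ' f) = f := by
  apply ext_eps
  · rw [kmap_ah, kmap_ah]
  · rw [ksnd_ah, ksnd_ah, kmap_ah, add_assoc, ← add_mul, add_comm θ' θ, h, zero_mul, add_zero]

/-- The automorphism `1 + ε θ d/dτ`. -/
noncomputable def ae (θ : KK I A) : KK I (Eps A) ≃ₐ[Eps A] KK I (Eps A) :=
  AlgEquiv.ofAlgHom (ah θ) (ah (-θ)) (AlgHom.ext fun f => ah_ah θ (-θ) (add_neg_cancel θ) f)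
    (AlgHom.ext fun f => ah_ah (-θ) θ (neg_add_cancel θ) f)

theorem kmap_ae (θ : KK I A) (f : KK I (Eps A)) : kmap (eps0 A) (ae θ f) = kmap (eps0 A) f :=
  kmap_jn _ _

theorem ksnd_ae (θ : KK I A) (f : KK I (Eps A)) :
    ksnd (ae θ f) = ksnd f + θ * dd (kmap (eps0 A) f) := ksnd_jn _ _

end

end PDIm

open PDTm _root_.Pool.Agent.MG.KX.PDIm in
/-- PDI. -/
theorem t_PDI : Stmt_PDI := by
  intro I A _ _ θ hθ
  refine ⟨ae θ, ?_, kmap_ae θ, fun P δ => ?_⟩
  · intro f
    rw [mem_Pol_iff, mem_Pol_iff, kmap_ae, ksnd_ae]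
    refine and_congr_right fun h => ?_
    have h1 : θ * dd (kmap (eps0 A) f) ∈ Pol I A 0 := mul_mem_Pol0 hθ (dd_mem_Pol0 h)
    exact (Pol I A 0).add_mem_iff_left h1
  · have key : ∀ F : KK I (Eps A), ae θ F ∈ Pdel P (δ + tder P θ) ↔ F ∈ Pdel P δ := by
      intro F
      rw [mem_Pdel, mem_Pdel]
      simp only [kmap_ae, ksnd_ae]
      refine exists_congr fun h => ?_
      rw [Derivation.add_apply, tder_apply, map_add, add_left_inj]
    ext F
    constructor
    · intro hF
      refine ⟨(ae θ).symm F, ?_, (ae θ).apply_symm_apply F⟩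
      rw [← (ae θ).apply_symm_apply F] at hF
      exact (key _).1 hF
    · rintro ⟨G, hG, rfl⟩
      exact (key G).2 hG

end Pool.Agent.MG.KX


end

section

/-!
# KCA: covectors and changes of the coordinates
-/

open CategoryTheory CategoryTheory.Limits AlgebraicGeometry
open scoped TensorProduct

namespace Pool.Agent.MG.KX

open Pool.Agent.MG.G0 Pool.Agent.MG.GLU

namespace KCAx

theorem epsMap_id (A : Type) [CommRing A] : epsMap (RingHom.id A) = RingHom.id (Eps A) :=
  RingHom.ext fun z => TrivSqZeroExt.ext (by simp [epsMap]) (by simp [epsMap])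

end KCAx

theorem t_KCA (hMCA : Stmt_MCA) (hMBC : Stmt_MBC) (hMOC : Stmt_MOC) (hMAU : Stmt_MAU)
    (hXAU : Stmt_XAU) (hDMD : Stmt_DMD) (hPDT : Stmt_PDT) (hPDK : Stmt_PDK) : Stmt_KCA := by
  intro I A _ _ _ g P α hα hKS z z'
  have hP : IsKr g P := hKS.kr
  have hPe : IsKr g (P.map (α : KK I A →ₐ[A] KK I A)) := G0.t_KAU.1 P α hα hP
  obtain ⟨a, ha⟩ := hXAU (p := nop P) α (p' := nop (P.map (α : KK I A →ₐ[A] KK I A))) hP hα
    (fun i => i.elim0) z z'
  refine ⟨a, ?_⟩
  intro L L' hL l l' hl hl' d' d f hf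
  obtain ⟨M, hM⟩ := hMCA hP z (nop P)
  obtain ⟨N, hN⟩ := hMAU.1 α hα M (nop (P.map (α : KK I A →ₐ[A] KK I A))) (fun i => i.elim0)
  obtain ⟨M', hM'⟩ := hMCA hPe z' (nop (P.map (α : KK I A →ₐ[A] KK I A)))
  have haM : N.Over a M' := ha M N M' hM hN hM'
  obtain ⟨δ, Md, hMd⟩ := hDMD hP M d
  obtain ⟨β, hβ, hαβ, hT⟩ := hPDT α hα
  obtain ⟨δ', hδ, hQ⟩ := hT P δ
  obtain ⟨Nd, hNd⟩ := hMAU.1 β hβ Md
    (nop ((Pdel P δ).map (β : KK I (Eps A) →ₐ[Eps A] KK I (Eps A)))) (fun i => i.elim0)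
  have hNdN : Nd.Over d.r N := hMAU.2 d.r β α hβ hα hαβ Md M _ _ Nd N hNd hN hMd
  have hK : IsKr g ((Pdel P δ).map (β : KK I (Eps A) →ₐ[Eps A] KK I (Eps A))) :=
    G0.t_KAU.1 (Pdel P δ) β hβ (hPDK hP δ).1
  have hb : bc (epsMap (RingHom.id A))
      ((Pdel P δ).map (β : KK I (Eps A) →ₐ[Eps A] KK I (Eps A))) =
      Pdel (P.map (α : KK I A →ₐ[A] KK I A)) δ' := by
    rw [KCAx.epsMap_id, hQ]
    exact G0.KBC.bc_id _
  obtain ⟨M'', hM''⟩ := mbc' hMBC f hK Nd hb
    (nop (Pdel (P.map (α : KK I A →ₐ[A] KK I A)) δ')) (bcP_nop (epsMap (RingHom.id A)))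
  have h1 : M''.Over d'.r M' :=
    KCN.ovr hMOC a d.r d'.r f hf N M' Nd M'' haM hNdN hM'' fun F hF => (mem_Pdel.1 hF).1
  rw [hl' M' hM' d' δ' M'' h1, hl M hM d δ Md hMd]
  exact hL δ δ' hδ

end Pool.Agent.MG.KX


end

section

/-!
# PDF: forgetting a puncture, for deformations
-/

namespace Pool.Agent.MG.KX

open Pool.Agent.MG.G0

namespace PDF

section

variable {I J A : Type} [CommRing A]

/-- The series over `A[ε]` with given parts. -/
noncomputable def prk (w h : KK I A) : KK I (Eps A) := fun i =>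
  lmap (epsInl A) (w i) + epsL A * lmap (epsInl A) (h i)

theorem lmap_prk (w h : LaurentSeries A) :
    lmap (eps0 A) (lmap (epsInl A) w + epsL A * lmap (epsInl A) h) = w := by
  have h1 : lmap (eps0 A) (epsL A) = 0 := by
    rw [epsL, lmap_algebraMap]
    have h2 : eps0 A (epsE A) = 0 := rfl
    rw [h2, map_zero]
  rw [map_add, map_mul, h1, zero_mul, add_zero]
  ext n
  rfl

theorem kmap_prk (w h : KK I A) : kmap (eps0 A) (prk w h) = w :=
  funext fun i => lmap_prk (w i) (h i)

theorem ksnd_prk (w h : KK I A) : ksnd (prk w h) = h :=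
  funext fun i => lsnd_inl (w i) (h i)

theorem prk_eq (F : KK I (Eps A)) : prk (kmap (eps0 A) F) (ksnd F) = F :=
  funext fun i => (ls_eq (F i)).symm

theorem ext_iff' {F G : KK I (Eps A)} (h1 : kmap (eps0 A) F = kmap (eps0 A) G)
    (h2 : ksnd F = ksnd G) : F = G := by
  rw [← prk_eq F, h1, h2, prk_eq]

theorem prk_mem {P : Subalgebra A (KK I A)} {δ : DD P} {w : P} {h : KK I A}
    (e : δ w = mk P h) : prk (w : KK I A) h ∈ Pdel P δ := by
  have h1 : kmap (eps0 A) (prk (w : KK I A) h) ∈ P := by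
    rw [kmap_prk]
    exact w.2
  refine ⟨h1, ?_⟩
  have h2 : (⟨kmap (eps0 A) (prk (w : KK I A) h), h1⟩ : P) = w := Subtype.ext (kmap_prk _ _)
  rw [h2, e, ksnd_prk]

theorem coeff_prk (w h : KK I A) (i : I) (n : ℤ) {x : Eps A} (h1 : (w i).coeff n = x.fst)
    (h2 : (h i).coeff n = x.snd) : (prk w h i).coeff n = x := by
  have e1 : ((prk w h i).coeff n).fst = (w i).coeff n := by
    have := congrArg (fun f : KK I A => (f i).coeff n) (kmap_prk w h)
    exact this
  have e2 : ((prk w h i).coeff n).snd = (h i).coeff n := by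
    have := congrArg (fun f : KK I A => (f i).coeff n) (ksnd_prk w h)
    exact this
  exact TrivSqZeroExt.ext (e1.trans h1) (e2.trans h2)

/-- Regular at the punctures `J`. -/
def Rg (w : KK (I ⊕ J) A) : Prop := ∀ j : J, ∀ m < 0, (w (Sum.inr j)).coeff m = 0

/-- The part at the punctures `I`. -/
def pI (w : KK (I ⊕ J) A) : KK I A := fun i => w (Sum.inl i)

theorem Rg.add {w v : KK (I ⊕ J) A} (hw : Rg w) (hv : Rg v) : Rg (w + v) := fun j m hm => by
  rw [Pi.add_apply, HahnSeries.coeff_add, hw j m hm, hv j m hm, add_zero]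

theorem Rg.sub {w v : KK (I ⊕ J) A} (hw : Rg w) (hv : Rg v) : Rg (w - v) := fun j m hm => by
  rw [Pi.sub_apply, HahnSeries.coeff_sub, hw j m hm, hv j m hm, sub_zero]

theorem Rg.mul {w v : KK (I ⊕ J) A} (hw : Rg w) (hv : Rg v) : Rg (w * v) := fun j m hm => by
  rw [Pi.mul_apply]
  exact mul_low (hw j) (hv j) m (by omega)

theorem Rg.smul {w : KK (I ⊕ J) A} (a : A) (hw : Rg w) : Rg (a • w) := fun j m hm => by
  rw [Pi.smul_apply, HahnSeries.coeff_smul, hw j m hm, smul_zero]

variable {W : Subalgebra A (KK (I ⊕ J) A)}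

theorem pI_mem {w : KK (I ⊕ J) A} (hw : w ∈ W) (h : Rg w) : pI w ∈ Rem W :=
  ⟨w, hw, h, fun _ => rfl⟩

theorem exists_lift (f : Rem W) : ∃ w : W, Rg (w : KK (I ⊕ J) A) ∧
    pI (w : KK (I ⊕ J) A) = (f : KK I A) := by
  obtain ⟨w, hw, h1, h2⟩ := f.2
  exact ⟨⟨w, hw⟩, h1, funext h2⟩

theorem lift_unique (hW : Forget W (Rem W)) {w v : W}
    (h : pI (w : KK (I ⊕ J) A) = pI (v : KK (I ⊕ J) A)) : w = v := by
  have h1 := hW.inj ((w : KK (I ⊕ J) A) - v) (sub_mem w.2 v.2) fun i => by
    have h2 := congrFun h i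
    change (w : KK (I ⊕ J) A) (Sum.inl i) - (v : KK (I ⊕ J) A) (Sum.inl i) = 0
    exact sub_eq_zero.2 h2
  exact Subtype.ext (sub_eq_zero.1 h1)

theorem exists_reg (hW : Forget W (Rem W)) (x : MM W) :
    ∃ h : KK (I ⊕ J) A, x = mk W h ∧ Rg h := by
  obtain ⟨h, rfl⟩ := mk_surj W x
  obtain ⟨v, hv, h1⟩ := hW.dns (fun j => h (Sum.inr j)) 0
  refine ⟨h - v, ?_, fun j m hm => ?_⟩
  · rw [mk_eq, sub_sub_cancel]
    exact hv
  · rw [Pi.sub_apply, HahnSeries.coeff_sub, h1 j m hm, sub_self]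

/-- The defining relation. -/
def Rl (E : DD W) (f : Rem W) (y : MM (Rem W)) : Prop :=
  ∃ (w : W) (h : KK (I ⊕ J) A), Rg (w : KK (I ⊕ J) A) ∧ pI (w : KK (I ⊕ J) A) = (f : KK I A) ∧
    E w = mk W h ∧ Rg h ∧ y = mk (Rem W) (pI h)

theorem Rl.exists (hW : Forget W (Rem W)) (E : DD W) (f : Rem W) : ∃ y, Rl E f y := by
  obtain ⟨w, h1, h2⟩ := exists_lift f
  obtain ⟨h, h3, h4⟩ := exists_reg hW (E w)
  exact ⟨_, w, h, h1, h2, h3, h4, rfl⟩

theorem Rl.unique (hW : Forget W (Rem W)) {E : DD W} {f : Rem W} {y z : MM (Rem W)}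
    (hy : Rl E f y) (hz : Rl E f z) : y = z := by
  obtain ⟨w, h, h1, h2, h3, h4, rfl⟩ := hy
  obtain ⟨v, k, k1, k2, k3, k4, rfl⟩ := hz
  have e : w = v := lift_unique hW (h2.trans k2.symm)
  subst e
  rw [h3, mk_eq] at k3
  rw [mk_eq]
  exact pI_mem k3 (h4.sub k4)

/-- The class of the deformation of `Rem W`. -/
noncomputable def cl (hW : Forget W (Rem W)) (E : DD W) (f : Rem W) : MM (Rem W) :=
  (Rl.exists hW E f).choose

theorem cl_spec (hW : Forget W (Rem W)) (E : DD W) (f : Rem W) : Rl E f (cl hW E f) :=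
  (Rl.exists hW E f).choose_spec

/-- The deformation of `Rem W`. -/
noncomputable def rd (hW : Forget W (Rem W)) (E : DD W) : DD (Rem W) where
  toFun := cl hW E
  map_add' f g := by
    obtain ⟨w, h, h1, h2, h3, h4, h5⟩ := cl_spec hW E f
    obtain ⟨v, k, k1, k2, k3, k4, k5⟩ := cl_spec hW E g
    refine Rl.unique hW (cl_spec hW E (f + g)) ⟨w + v, h + k, h1.add k1, ?_, ?_, h4.add k4, ?_⟩
    · change pI (w : KK (I ⊕ J) A) + pI (v : KK (I ⊕ J) A) = (f : KK I A) + (g : KK I A)
      rw [h2, k2]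
    · rw [map_add, map_add, h3, k3]
    · change cl hW E f + cl hW E g = mk (Rem W) (pI h + pI k)
      rw [map_add, h5, k5]
  map_smul' a f := by
    obtain ⟨w, h, h1, h2, h3, h4, h5⟩ := cl_spec hW E f
    refine Rl.unique hW (cl_spec hW E (a • f)) ⟨a • w, a • h, h1.smul a, ?_, ?_, h4.smul a, ?_⟩
    · change a • pI (w : KK (I ⊕ J) A) = a • (f : KK I A)
      rw [h2]
    · rw [Derivation.map_smul, mk_smulA, h3]
    · change a • cl hW E f = mk (Rem W) (a • pI h)
      rw [mk_smulA, h5]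
  map_one_eq_zero' := by
    refine Rl.unique hW (cl_spec hW E 1) ⟨1, 0, fun j m hm => ?_, rfl, ?_, fun j m _ => ?_, ?_⟩
    · change ((1 : LaurentSeries A)).coeff m = 0
      rw [HahnSeries.coeff_one, if_neg (by omega)]
    · rw [Derivation.map_one_eq_zero, map_zero]
    · rfl
    · exact (map_zero (mk (Rem W))).symm
  leibniz' f g := by
    obtain ⟨w, h, h1, h2, h3, h4, h5⟩ := cl_spec hW E f
    obtain ⟨v, k, k1, k2, k3, k4, k5⟩ := cl_spec hW E g
    refine Rl.unique hW (cl_spec hW E (f * g))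
      ⟨w * v, (w : KK (I ⊕ J) A) * k + (v : KK (I ⊕ J) A) * h, h1.mul k1, ?_, ?_,
        (h1.mul k4).add (k1.mul h4), ?_⟩
    · change pI (w : KK (I ⊕ J) A) * pI (v : KK (I ⊕ J) A) = (f : KK I A) * (g : KK I A)
      rw [h2, k2]
    · rw [Derivation.leibniz, h3, k3, ← map_smul, ← map_smul, ← map_add]
      rfl
    · change f • cl hW E g + g • cl hW E f = mk (Rem W)
        (pI (w : KK (I ⊕ J) A) * pI k + pI (v : KK (I ⊕ J) A) * pI h)
      rw [h5, k5, ← map_smul, ← map_smul, ← map_add, h2, k2]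
      rfl

theorem rd_spec (hW : Forget W (Rem W)) (E : DD W) (f : Rem W) : Rl E f (rd hW E f) :=
  cl_spec hW E f

theorem rd_eq (hW : Forget W (Rem W)) {E : DD W} {f : Rem W} {w : W} {h : KK (I ⊕ J) A}
    (h1 : Rg (w : KK (I ⊕ J) A)) (h2 : pI (w : KK (I ⊕ J) A) = (f : KK I A))
    (h3 : E w = mk W h) (h4 : Rg h) : rd hW E f = mk (Rem W) (pI h) :=
  Rl.unique hW (rd_spec hW E f) ⟨w, h, h1, h2, h3, h4, rfl⟩

theorem relF_rd (hW : Forget W (Rem W)) (E : DD W) : RelF (rd hW E) E := by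
  intro f w h1 h2
  obtain ⟨h, h3, h4⟩ := exists_reg hW (E w)
  exact ⟨h, h3, h4, rd_eq hW h2 (funext h1) h3 h4⟩

theorem rem_eq (hW : Forget W (Rem W)) (E : DD W) :
    Rem (Pdel W E) = Pdel (Rem W) (rd hW E) := by
  apply le_antisymm
  · rintro F ⟨X, ⟨h1, h2⟩, h3, h4⟩
    have h5 : Rg (kmap (eps0 A) X) := fun j m hm => by
      change ((X (Sum.inr j)).coeff m).fst = 0
      rw [h3 j m hm]
      rfl
    have h6 : Rg (ksnd X) := fun j m hm => by
      change ((X (Sum.inr j)).coeff m).snd = 0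
      rw [h3 j m hm]
      rfl
    have h7 : pI (kmap (eps0 A) X) = kmap (eps0 A) F := funext fun i => by
      change lmap (eps0 A) (X (Sum.inl i)) = lmap (eps0 A) (F i)
      rw [h4]
    have h8 : pI (ksnd X) = ksnd F := funext fun i => by
      change lsnd (X (Sum.inl i)) = lsnd (F i)
      rw [h4]
    have h9 : kmap (eps0 A) F ∈ Rem W := by
      rw [← h7]
      exact pI_mem h1 h5
    refine ⟨h9, ?_⟩
    rw [rd_eq hW (f := ⟨kmap (eps0 A) F, h9⟩) (w := ⟨_, h1⟩) h5 h7 h2 h6, h8]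
  · rintro F ⟨h1, h2⟩
    obtain ⟨w, h, h3, h4, h5, h6, h7⟩ := rd_spec hW E ⟨kmap (eps0 A) F, h1⟩
    rw [h2, mk_eq] at h7
    obtain ⟨v, hv, h8, h9⟩ := h7
    have h10 : E w = mk W (h + v) := by
      rw [map_add, mk_zero.2 hv, add_zero]
      exact h5
    refine ⟨_, prk_mem h10, fun j m hm => ?_, fun i => ?_⟩
    · exact coeff_prk _ _ _ _ (h3 j m hm) (h6.add h8 j m hm)
    · have e1 : (w : KK (I ⊕ J) A) (Sum.inl i) = kmap (eps0 A) F i := congrFun h4 i
      have e2 : (h + v) (Sum.inl i) = ksnd F i := by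
        rw [Pi.add_apply, h9 i]
        change h (Sum.inl i) + (ksnd F i - h (Sum.inl i)) = ksnd F i
        ring
      have e3 := congrFun (prk_eq F) i
      rw [← e3]
      change lmap (epsInl A) ((w : KK (I ⊕ J) A) (Sum.inl i)) +
        epsL A * lmap (epsInl A) ((h + v) (Sum.inl i)) = _
      rw [e1, e2]
      rfl

theorem forget_Pdel (hW : Forget W (Rem W)) (E : DD W) :
    Forget (Pdel W E) (Pdel (Rem W) (rd hW E)) := by
  refine ⟨(rem_eq hW E).symm, ?_, ?_⟩
  · rintro F ⟨h1, h2⟩ h3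
    have h4 : kmap (eps0 A) F = 0 := hW.inj _ h1 fun i => by
      change lmap (eps0 A) (F (Sum.inl i)) = 0
      rw [h3 i, map_zero]
    have h5 : (⟨kmap (eps0 A) F, h1⟩ : W) = 0 := Subtype.ext h4
    rw [h5, map_zero] at h2
    have h6 : ksnd F = 0 := hW.inj _ (mk_zero.1 h2.symm) fun i => by
      change lsnd (F (Sum.inl i)) = 0
      rw [h3 i]
      rfl
    refine ext_iff' ?_ ?_
    · rw [h4, map_zero]
    · rw [h6]
      rfl
  · intro f M
    obtain ⟨w, hw, h1⟩ := hW.dns (fun j => lmap (eps0 A) (f j)) M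
    obtain ⟨h, h2⟩ := mk_surj W (E ⟨w, hw⟩)
    obtain ⟨v, hv, h3⟩ := hW.dns (fun j => lsnd (f j) - h (Sum.inr j)) M
    have h4 : E ⟨w, hw⟩ = mk W (h + v) := by
      rw [map_add, mk_zero.2 hv, add_zero]
      exact h2.symm
    refine ⟨_, prk_mem h4, fun j m hm => coeff_prk _ _ _ _ (h1 j m hm) ?_⟩
    rw [Pi.add_apply, HahnSeries.coeff_add, h3 j m hm, HahnSeries.coeff_sub]
    change (h (Sum.inr j)).coeff m + (((f j).coeff m).snd - (h (Sum.inr j)).coeff m) = _
    ring

end

end PDF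

/-- PDF: forgetting a puncture. -/
theorem t_PDF : Stmt_PDF := by
  intro I J A _ _ _ _ g W _ _ hW E
  exact ⟨PDF.rd hW E, PDF.relF_rd hW E, PDF.rem_eq hW E, PDF.forget_Pdel hW E⟩

end Pool.Agent.MG.KX


end

section

/-!
# HV2: uniqueness of the values up to elements killed by `t`, and multilinearity
-/

open TensorProduct

namespace Pool.Agent.MG.G0

namespace HV2

section

variable {I A : Type} [CommRing A]

/-- Every element of `Om P` is the differential of a tensor. -/
theorem exists_dk (P : Subalgebra A (KK I A)) {z : KK I A} (hz : z ∈ Om P) :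
    ∃ η : P ⊗[A] P, dk P η = z := by
  refine Submodule.span_induction (p := fun z _ => ∃ η : P ⊗[A] P, dk P η = z) ?_ ?_ ?_ ?_ hz
  · rintro _ ⟨p, hp, f, hf, rfl⟩
    exact ⟨(⟨p, hp⟩ : P) ⊗ₜ (⟨f, hf⟩ : P), dk_tmul P _ _⟩
  · exact ⟨0, map_zero _⟩
  · rintro x y _ _ ⟨a, rfl⟩ ⟨b, rfl⟩
    exact ⟨a + b, map_add _ _ _⟩
  · rintro c x _ ⟨a, rfl⟩
    exact ⟨c • a, map_smul _ _ _⟩

variable [Fintype I]

/-- Regular differentials divided by `t` come from regular tensors. -/
theorem exists_eta (P : Subalgebra A (KK I A)) (t : A) (h : ∀ ω ∈ EE P, t • ω ∈ Om P)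
    (ω : EE P) : ∃ η : DR P, dk P (η : P ⊗[A] P) = t • (ω : KK I A) := by
  obtain ⟨η, hη⟩ := exists_dk P (h ω ω.2)
  refine ⟨⟨η, ?_⟩, hη⟩
  rw [DR, Submodule.mem_comap, hη]
  exact Submodule.smul_mem _ _ ω.2.2

theorem twR_add_left (P : Subalgebra A (KK I A)) (x y : EE P) (η : DR P) :
    twR P (x + y) η = twR P x η + twR P y η :=
  Subtype.ext (by
    change tw P (x + y) (η : P ⊗[A] P) = tw P x (η : P ⊗[A] P) + tw P y (η : P ⊗[A] P)
    rw [map_add, LinearMap.add_apply])

theorem twR_smul_left (P : Subalgebra A (KK I A)) (c : A) (x : EE P) (η : DR P) :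
    twR P (c • x) η = c • twR P x η :=
  Subtype.ext (by
    change tw P (c • x) (η : P ⊗[A] P) = c • tw P x (η : P ⊗[A] P)
    rw [map_smul, LinearMap.smul_apply])

theorem qk_twR (P : Subalgebra A (KK I A)) (ω : EE P) (η : DR P) :
    qk P (twR P ω η : QD P) = (ω : KK I A) * dk P (η : P ⊗[A] P) := qk_tw P ω η

/-- The family of quadratic differentials of a family of pairs of differentials. -/
noncomputable def fam (P : Subalgebra A (KK I A)) (η : EE P → DR P) {k : ℕ}
    (v : Fin k ⊕ Fin k → EE P) : Fin k → QR P := fun i => twR P (v (Sum.inr i)) (η (v (Sum.inl i)))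

theorem fam_update_inr (P : Subalgebra A (KK I A)) (η : EE P → DR P) {k : ℕ}
    [DecidableEq (Fin k ⊕ Fin k)] (v : Fin k ⊕ Fin k → EE P) (j : Fin k) (z : EE P) :
    fam P η (Function.update v (Sum.inr j) z) =
      Function.update (fam P η v) j (twR P z (η (v (Sum.inl j)))) := by
  funext i
  have h0 : Function.update v (Sum.inr j) z (Sum.inl i) = v (Sum.inl i) :=
    Function.update_of_ne Sum.inl_ne_inr _ _
  rw [fam, h0]
  by_cases h : i = j
  · subst h
    rw [Function.update_self, Function.update_self]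
  · have h1 : Function.update v (Sum.inr j) z (Sum.inr i) = v (Sum.inr i) :=
      Function.update_of_ne (fun h' => h (Sum.inr_injective h')) _ _
    rw [h1, Function.update_of_ne h, fam]

theorem fam_update_inl (P : Subalgebra A (KK I A)) (η : EE P → DR P) {k : ℕ}
    [DecidableEq (Fin k ⊕ Fin k)] (v : Fin k ⊕ Fin k → EE P) (j : Fin k) (z : EE P) :
    fam P η (Function.update v (Sum.inl j) z) =
      Function.update (fam P η v) j (twR P (v (Sum.inr j)) (η z)) := by
  funext i
  have h0 : Function.update v (Sum.inl j) z (Sum.inr i) = v (Sum.inr i) :=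
    Function.update_of_ne Sum.inr_ne_inl _ _
  rw [fam, h0]
  by_cases h : i = j
  · subst h
    rw [Function.update_self, Function.update_self]
  · have h1 : Function.update v (Sum.inl j) z (Sum.inl i) = v (Sum.inl i) :=
      Function.update_of_ne (fun h' => h (Sum.inl_injective h')) _ _
    rw [h1, Function.update_of_ne h, fam]

end

end HV2

open _root_.Pool.Agent.MG.G0.HV2 in
theorem t_HV2 (hPOL : Stmt_POL) (hPTO : Stmt_PTO) : Stmt_HV2 := by
  intro A I _ _ _ _ g E P t hG hD k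
  have hI : Ivk E P t k := hPTO E P hG t k fun D => hD (MvPolynomial.C (σ := Fin k)) D
  refine ⟨?_, fun hOm => ?_⟩
  · rintro u u' x y ⟨hu, η, hη, rfl⟩ ⟨hu', η', hη', rfl⟩
    rw [mul_sub, sub_eq_zero]
    refine hI _ _ fun i => ?_
    rw [qk_twR, qk_twR, hη, hη']
  · obtain ⟨M, hM⟩ := (hPOL E P hG).2.1 k
    choose η hη using exists_eta P t hOm
    have hI' : ∀ q q' : Fin k → QR P, (∀ i, qk P (q i : QD P) = qk P (q' i : QD P)) →
        t * M q = t * M q' := by
      intro q q' h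
      rw [hM, hM]
      exact hI q q' h
    refine ⟨{ toFun := fun v => t * M (fam P η v), map_update_add' := ?_, map_update_smul' := ?_ },
      ?_⟩
    · intro _ v i x y
      rcases i with j | j
      · rw [fam_update_inl, fam_update_inl, fam_update_inl, ← mul_add, ← M.map_update_add]
        refine hI' _ _ fun i => ?_
        by_cases h : i = j
        · subst h
          rw [Function.update_self, Function.update_self]
          change _ = qk P ((twR P (v (Sum.inr i)) (η x) : QD P) +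
            (twR P (v (Sum.inr i)) (η y) : QD P))
          rw [map_add, qk_twR, qk_twR, qk_twR, hη, hη, hη, ← mul_add, ← smul_add]
          rfl
        · rw [Function.update_of_ne h, Function.update_of_ne h]
      · rw [fam_update_inr, fam_update_inr, fam_update_inr, ← mul_add, ← M.map_update_add,
          twR_add_left]
    · intro _ v i c x
      rcases i with j | j
      · rw [fam_update_inl, fam_update_inl, smul_eq_mul, mul_left_comm, ← smul_eq_mul c,
          ← M.map_update_smul]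
        refine hI' _ _ fun i => ?_
        by_cases h : i = j
        · subst h
          rw [Function.update_self, Function.update_self]
          change _ = qk P (c • (twR P (v (Sum.inr i)) (η x) : QD P))
          rw [map_smul, qk_twR, qk_twR, hη, hη, ← mul_smul_comm, smul_comm]
          rfl
        · rw [Function.update_of_ne h, Function.update_of_ne h]
      · rw [fam_update_inr, fam_update_inr, smul_eq_mul, mul_left_comm, ← smul_eq_mul c,
          ← M.map_update_smul, twR_smul_left]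
    · rintro ω x ⟨hu, η', hη', rfl⟩
      change t * M (fam P η ω) = _
      rw [hM]
      refine hI _ _ fun i => ?_
      rw [fam, qk_twR, qk_twR, hη, hη']

end Pool.Agent.MG.G0


end

section

/-!
# UNO: Noether's theorem at the generic point of a family

Let `ω` be a basis of the regular differentials of `R` over `O`. The matrix `(ωᵢ ωⱼ)_m` with
`0 ≤ m < n` describes the functionals `θ ↦ res (θ ωᵢ ωⱼ)` on the principal parts of order at most
`n`. At the special point its kernel consists of principal parts of vector fields, so that the rank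
is at least `3 g - 3`; a minor shows the same at the generic point, and there the kernel contains
the principal parts of the vector fields, a space of the same dimension.
-/

open Polynomial

namespace Pool.Agent.MG.G0

namespace UNO

section minors

/-- A nonzero minor. -/
theorem exists_minor {κ m n : Type} [Field κ] [Fintype m] [Fintype n] (A : Matrix m n κ) {r : ℕ}
    (h : r ≤ A.rank) : ∃ (a : Fin r → m) (b : Fin r → n), (A.submatrix a b).det ≠ 0 := by
  classical
  rw [Matrix.rank_eq_finrank_span_cols] at h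
  obtain ⟨f, hf, -, hli⟩ := Submodule.exists_fun_fin_finrank_span_eq κ (Set.range A.col)
  choose b hb using hf
  let b' : Fin r → n := fun i => b (Fin.castLE h i)
  have hB : LinearIndependent κ (A.submatrix id b').col := by
    have h1 : (A.submatrix id b').col = fun i => f (Fin.castLE h i) := by
      funext i
      rw [← hb]
      rfl
    rw [h1]
    exact hli.comp _ (Fin.castLE_injective h)
  have hrk : (A.submatrix id b').rank = r := by
    rw [← Matrix.rank_transpose, LinearIndependent.rank_matrix (by exact hB), Fintype.card_fin]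
  rw [Matrix.rank_eq_finrank_span_row] at hrk
  obtain ⟨f', hf', -, hli'⟩ := Submodule.exists_fun_fin_finrank_span_eq κ
    (Set.range (A.submatrix id b').row)
  choose a ha using hf'
  let a' : Fin r → m := fun i => a (Fin.cast hrk.symm i)
  refine ⟨a', b', ?_⟩
  have hC : LinearIndependent κ (A.submatrix a' b').row := by
    have h1 : (A.submatrix a' b').row = fun i => f' (Fin.cast hrk.symm i) := by
      funext i
      rw [← ha]
      rfl
    rw [h1]
    exact hli'.comp _ (Fin.cast_injective _)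
  have hu := Matrix.linearIndependent_rows_iff_isUnit.1 hC
  exact ((Matrix.isUnit_iff_isUnit_det _).1 hu).ne_zero

/-- A nonzero minor bounds the rank. -/
theorem le_rank {κ m n : Type} [Field κ] [Fintype m] [Fintype n] (A : Matrix m n κ) {r : ℕ}
    (a : Fin r → m) (b : Fin r → n) (h : (A.submatrix a b).det ≠ 0) : r ≤ A.rank := by
  classical
  have hu : IsUnit (A.submatrix a b) := (Matrix.isUnit_iff_isUnit_det _).2 (Ne.isUnit h)
  have hli : LinearIndependent κ (A.submatrix a b).col :=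
    Matrix.linearIndependent_cols_iff_isUnit.2 hu
  have h1 : LinearIndependent κ fun i => A.col (b i) := by
    refine LinearIndependent.of_comp (LinearMap.funLeft κ κ a) ?_
    exact hli
  rw [Matrix.rank_eq_finrank_span_cols]
  have h2 : LinearIndependent κ fun i : Fin r =>
      (⟨A.col (b i), Submodule.subset_span ⟨b i, rfl⟩⟩ : Submodule.span κ (Set.range A.col)) := by
    refine LinearIndependent.of_comp (Submodule.subtype _) ?_
    exact h1
  have h3 := h2.fintype_card_le_finrank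
  rwa [Fintype.card_fin] at h3

/-- The rank does not drop at the generic point. -/
theorem rank_le {O κ K m n : Type} [CommRing O] [Field κ] [Field K] [Fintype m] [Fintype n]
    (ρ : O →+* κ) (φ : O →+* K) (hφ : Function.Injective φ) (A : Matrix m n O) {r : ℕ}
    (h : r ≤ (A.map ρ).rank) : r ≤ (A.map φ).rank := by
  obtain ⟨a, b, hab⟩ := exists_minor (A.map ρ) h
  refine le_rank _ a b ?_
  have h1 : ((A.map ρ).submatrix a b).det = ρ ((A.submatrix a b).det) := by
    rw [RingHom.map_det]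
    rfl
  have h2 : ((A.map φ).submatrix a b).det = φ ((A.submatrix a b).det) := by
    rw [RingHom.map_det]
    rfl
  rw [h2]
  intro h0
  apply hab
  rw [h1, hφ (h0.trans (map_zero φ).symm), map_zero]

end minors

section polar

variable {F : Type} [CommRing F]

/-- The principal part of order at most `n`. -/
noncomputable def pol (F : Type) [CommRing F] (n : ℕ) : LaurentSeries F →ₗ[F] (Fin n → F) where
  toFun θ m := θ.coeff (-((m : ℕ) + 1 : ℤ))
  map_add' x y := by
    funext m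
    rw [HahnSeries.coeff_add]
    rfl
  map_smul' a x := by
    funext m
    rw [HahnSeries.coeff_smul]
    rfl

theorem pol_apply (n : ℕ) (θ : LaurentSeries F) (m : Fin n) :
    pol F n θ m = θ.coeff (-((m : ℕ) + 1 : ℤ)) := rfl

/-- The series with a given principal part. -/
noncomputable def thc (n : ℕ) (c : Fin n → F) : LaurentSeries F :=
  ∑ m : Fin n, HahnSeries.single (-((m : ℕ) + 1 : ℤ)) (c m)

theorem thc_mem (n : ℕ) (c : Fin n → F) : thc n c ∈ Po F n := by
  refine Submodule.sum_mem _ fun m _ => ?_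
  intro k hk
  refine HahnSeries.coeff_single_of_ne ?_
  have := m.2
  omega

theorem pol_thc (n : ℕ) (c : Fin n → F) : pol F n (thc n c) = c := by
  funext m
  rw [pol_apply, thc, HahnSeries.coeff_sum, Finset.sum_eq_single m]
  · exact HahnSeries.coeff_single_same _ _
  · intro k _ hk
    refine HahnSeries.coeff_single_of_ne ?_
    intro h
    apply hk
    apply Fin.ext
    omega
  · intro h
    exact (h (Finset.mem_univ _)).elim

theorem pol_eq_zero {n : ℕ} {θ : LaurentSeries F} (h0 : θ ∈ Po F 0) : pol F n θ = 0 := by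
  funext m
  exact h0 _ (by omega)

theorem mem_Po0 {n : ℕ} {θ : LaurentSeries F} (h : θ ∈ Po F n) (h0 : pol F n θ = 0) :
    θ ∈ Po F 0 := by
  intro m hm
  by_cases hmn : m < -(n : ℤ)
  · exact h m hmn
  · have hlt : (-m - 1).toNat < n := by omega
    have h1 := congrFun h0 ⟨(-m - 1).toNat, hlt⟩
    rw [pol_apply] at h1
    have h2 : (-((((-m - 1).toNat : ℕ) : ℤ) + 1) : ℤ) = m := by omega
    simp only [h2] at h1
    exact h1

theorem Po_mono {m n : ℤ} (h : m ≤ n) : Po F m ≤ Po F n := fun _ hf k hk => hf k (by omega)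

/-- The residue of a product with a series without pole. -/
theorem coeff_mul_neg_one {n : ℕ} {θ u : LaurentSeries F} (hθ : θ ∈ Po F n) (hu : u ∈ Po F 0) :
    (θ * u).coeff (-1) = ∑ m : Fin n, u.coeff ((m : ℕ) : ℤ) * pol F n θ m := by
  have hu' : ∀ m < (0 : ℤ), u.coeff m = 0 := fun m hm => hu m (by omega)
  rw [coeff_mul_Icc hθ hu']
  symm
  refine Finset.sum_bij' (fun (m : Fin n) _ => (-((m : ℕ) + 1 : ℤ)))
    (fun i hi => ⟨(-i - 1).toNat, by rw [Finset.mem_Icc] at hi; omega⟩) ?_ ?_ ?_ ?_ ?_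
  · intro m _
    have := m.2
    rw [Finset.mem_Icc]
    omega
  · intro i _
    exact Finset.mem_univ _
  · intro m _
    apply Fin.ext
    simp only
    omega
  · intro i hi
    rw [Finset.mem_Icc] at hi
    simp only
    omega
  · intro m _
    rw [pol_apply, mul_comm]
    congr 2
    omega

end polar

section matrices

variable {O F : Type} [CommRing O] [CommRing F] {g : ℕ}

/-- The matrix of the coefficients of the products. -/
noncomputable def mat (w : Fin g → LaurentSeries O) (n : ℕ) : Matrix (Fin g × Fin g) (Fin n) O :=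
  Matrix.of fun ij m => (w ij.1 * w ij.2).coeff ((m : ℕ) : ℤ)

theorem mat_map (ψ : O →+* F) (w : Fin g → LaurentSeries O) (n : ℕ) :
    (mat w n).map ψ = mat (fun j => lmap ψ (w j)) n := by
  ext ij m
  change ψ ((w ij.1 * w ij.2).coeff _) = (lmap ψ (w ij.1) * lmap ψ (w ij.2)).coeff _
  rw [← map_mul, lmap_coeff]

theorem mulVec_mat {n : ℕ} {w : Fin g → LaurentSeries F} (hw : ∀ j, w j ∈ Po F 0)
    {θ : LaurentSeries F} (hθ : θ ∈ Po F n) (ij : Fin g × Fin g) :
    (mat w n).mulVec (pol F n θ) ij = (θ * w ij.1 * w ij.2).coeff (-1) := by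
  have h : w ij.1 * w ij.2 ∈ Po F 0 := by
    intro m hm
    exact mul_low (a := 0) (b := 0) (fun k hk => hw ij.1 k (by omega))
      (fun k hk => hw ij.2 k (by omega)) m (by omega)
  rw [mul_assoc, coeff_mul_neg_one hθ h]
  rfl

end matrices

section forms

variable {O F : Type} [CommRing O] [CommRing F] {g : ℕ} {R : Subalgebra O (LaurentSeries O)}

theorem mem_kmap (ψ : O →+* F) {η : KK Unit O} (h6 : kmap ψ η ∈ EE (uno (bc1 ψ R))) :
    lmap ψ (η ()) ∈ EE1 (bc1 ψ R) := by
  have h := (mem_EE_uno (η := kmap ψ η)).1 h6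
  rw [kmap_apply] at h
  exact h

/-- The base change of the basis of the regular differentials. -/
theorem forms_bc (hKFO : Stmt_KFO) (hKBC : Stmt_KBC) (hR : Kr g R) (ψ : O →+* F)
    {ω : Fin g → KK Unit O} (hω : IsForms (uno R) ω) :
    Kr g (bc1 ψ R) ∧ (∀ j, lmap ψ (ω j ()) ∈ EE1 (bc1 ψ R)) ∧
      ∀ η ∈ EE1 (bc1 ψ R), ∃ c : Fin g → F, η = ∑ j, c j • lmap ψ (ω j ()) := by
  have h0 := hKBC.2.2.2 hR ψ
  have h1 := h0.1
  have h2 := h0.2.1 ω hω
  rw [bc_uno] at h1 h2
  have h6 := (hKFO h1).2 (fun j => kmap ψ (ω j)) h2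
  have h7 : ∀ j, lmap ψ (ω j ()) ∈ EE1 (bc1 ψ R) := fun j => mem_kmap ψ (h6.1 j)
  have h8 : ∀ η ∈ EE1 (bc1 ψ R), ∃ c : Fin g → F, η = ∑ j, c j • lmap ψ (ω j ()) := by
    intro η hη
    obtain ⟨c, hc, -⟩ := h6.2 (fun _ => η) ((mem_EE_uno (η := (fun _ : Unit => η : KK Unit F))).2 hη)
    refine ⟨c, ?_⟩
    have h9 : η = (∑ j, c j • kmap ψ (ω j)) () := congrFun hc ()
    rw [h9, Finset.sum_apply]
    refine Finset.sum_congr rfl fun j _ => ?_
    rw [Pi.smul_apply, kmap_apply]
  exact ⟨h1, h7, h8⟩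

/-- The residues with all regular differentials. -/
theorem res_all {w : Fin g → LaurentSeries F} {θ ω ω' : LaurentSeries F} {c c' : Fin g → F}
    (hω : ω = ∑ j, c j • w j) (hω' : ω' = ∑ j, c' j • w j)
    (h : ∀ i j, (θ * w i * w j).coeff (-1) = 0) : (θ * ω * ω').coeff (-1) = 0 := by
  have e : θ * ω * ω' = ∑ i, ∑ j, (c i * c' j) • (θ * w i * w j) := by
    rw [hω, Finset.mul_sum, Finset.sum_mul, hω']
    refine Finset.sum_congr rfl fun i _ => ?_
    rw [Finset.mul_sum]
    refine Finset.sum_congr rfl fun j _ => ?_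
    rw [mul_smul_comm, mul_smul_comm, smul_mul_assoc, smul_smul, mul_comm]
  rw [e, HahnSeries.coeff_sum]
  refine Finset.sum_eq_zero fun i _ => ?_
  rw [HahnSeries.coeff_sum]
  refine Finset.sum_eq_zero fun j _ => ?_
  rw [HahnSeries.coeff_smul, h, smul_zero]

end forms

section dims

variable {F : Type} [Field F] {g : ℕ} {R : Subalgebra F (LaurentSeries F)}

/-- The rank at the special point. -/
theorem rank_ge {w : Fin g → LaurentSeries F} (hw : ∀ j, w j ∈ EE1 R)
    (hspan : ∀ η ∈ EE1 R, ∃ c : Fin g → F, η = ∑ j, c j • w j) (hN : Noe R) {n : ℕ}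
    [Module.Finite F (TT1 R ⊓ Po F n : Submodule F (LaurentSeries F))]
    (hdim : Module.finrank F (TT1 R ⊓ Po F n : Submodule F (LaurentSeries F)) + 3 * g = n + 3) :
    3 * g - 3 ≤ (mat w n).rank := by
  have hw0 : ∀ j, w j ∈ Po F 0 := fun j => (hw j).2
  have hle : LinearMap.ker (mat w n).mulVecLin ≤
      (TT1 R ⊓ Po F n : Submodule F (LaurentSeries F)).map (pol F n) := by
    intro c hc
    have hc' : (mat w n).mulVec c = 0 := hc
    have hres : ∀ i j, (thc n c * w i * w j).coeff (-1) = 0 := by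
      intro i j
      rw [← mulVec_mat hw0 (thc_mem n c) (i, j), pol_thc, hc']
      rfl
    obtain ⟨θ', hθ', hd⟩ := hN (thc n c) fun ω hω ω' hω' => by
      obtain ⟨a, ha⟩ := hspan ω hω
      obtain ⟨b, hb⟩ := hspan ω' hω'
      exact res_all ha hb hres
    refine ⟨θ', ⟨hθ', ?_⟩, ?_⟩
    · have e : θ' = thc n c - (thc n c - θ') := by ring
      rw [e]
      exact sub_mem (thc_mem n c) (Po_mono (by positivity) hd)
    · have h1 := pol_eq_zero (n := n) hd
      rw [map_sub, pol_thc, sub_eq_zero] at h1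
      exact h1.symm
  have h1 : Module.finrank F (LinearMap.ker (mat w n).mulVecLin) ≤
      Module.finrank F (TT1 R ⊓ Po F n : Submodule F (LaurentSeries F)) :=
    (Submodule.finrank_mono hle).trans (Submodule.finrank_map_le _ _)
  have h2 := LinearMap.finrank_range_add_finrank_ker (mat w n).mulVecLin
  rw [Module.finrank_fin_fun] at h2
  have h3 : (mat w n).rank = Module.finrank F (LinearMap.range (mat w n).mulVecLin) := rfl
  omega

/-- Noether's theorem from the rank. -/
theorem noe_of_rank {w : Fin g → LaurentSeries F} (hg : 1 ≤ g) (hw : ∀ j, w j ∈ EE1 R)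
    (hdual : ∀ θ ∈ TT1 R, ∀ ω ∈ EE1 R, ∀ ω' ∈ EE1 R, (θ * ω * ω').coeff (-1) = 0)
    (hR : Rgd R) {n : ℕ} (hr : 3 * g - 3 ≤ (mat w n).rank)
    [Module.Finite F (TT1 R ⊓ Po F n : Submodule F (LaurentSeries F))]
    (hdim : Module.finrank F (TT1 R ⊓ Po F n : Submodule F (LaurentSeries F)) + 3 * g = n + 3)
    {θ : LaurentSeries F} (hθ : θ ∈ Po F n)
    (h : ∀ i j, (θ * w i * w j).coeff (-1) = 0) : ∃ θ' ∈ TT1 R, θ - θ' ∈ Po F 0 := by
  have hw0 : ∀ j, w j ∈ Po F 0 := fun j => (hw j).2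
  let T : Submodule F (LaurentSeries F) := TT1 R ⊓ Po F n
  have hle : T.map (pol F n) ≤ LinearMap.ker (mat w n).mulVecLin := by
    rintro _ ⟨x, ⟨hx, hxn⟩, rfl⟩
    change (mat w n).mulVec (pol F n x) = 0
    funext ij
    rw [mulVec_mat hw0 hxn]
    exact hdual x hx _ (hw ij.1) _ (hw ij.2)
  have hinj : Function.Injective ((pol F n).domRestrict T) := by
    rw [injective_iff_map_eq_zero]
    rintro ⟨x, hx, hxn⟩ h0
    have h1 : pol F n x = 0 := h0
    exact Subtype.ext (hR x hx (mem_Po0 hxn h1))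
  have h1 : Module.finrank F (T.map (pol F n)) = Module.finrank F T := by
    rw [← LinearMap.range_domRestrict]
    exact LinearMap.finrank_range_of_inj hinj
  have h2 := LinearMap.finrank_range_add_finrank_ker (mat w n).mulVecLin
  rw [Module.finrank_fin_fun] at h2
  have h3 : (mat w n).rank = Module.finrank F (LinearMap.range (mat w n).mulVecLin) := rfl
  have hdim' : Module.finrank F T + 3 * g = n + 3 := hdim
  have heq : T.map (pol F n) = LinearMap.ker (mat w n).mulVecLin :=
    Submodule.eq_of_le_of_finrank_le hle (by omega)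
  have hmem : pol F n θ ∈ LinearMap.ker (mat w n).mulVecLin := by
    change (mat w n).mulVec (pol F n θ) = 0
    funext ij
    rw [mulVec_mat hw0 hθ]
    exact h ij.1 ij.2
  rw [← heq] at hmem
  obtain ⟨θ', ⟨hθ', hθn⟩, he⟩ := hmem
  refine ⟨θ', hθ', mem_Po0 (n := n) (sub_mem hθ hθn) ?_⟩
  rw [map_sub, he, sub_self]

end dims

/-- Duality for a smooth curve with one puncture. -/
theorem dual_res (hKIL : Stmt_KIL) (hKIS : Stmt_KIS) (hSDF : Stmt_SDF) {K : Type} [Field K]
    [IsAlgClosed K] {g d : ℕ} {R : Subalgebra K (LaurentSeries K)} {f : K[X]} (hd : 1 ≤ d)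
    (hfac : ((d.factorial : ℕ) : K) ≠ 0) (hR : Kr g R) (hz : zz K d ∈ R) (hD : Disc d R f)
    (hf : f.Separable) :
    ∀ θ ∈ TT1 R, ∀ ω ∈ EE1 R, ∀ ω' ∈ EE1 R, (θ * ω * ω').coeff (-1) = 0 := by
  have hd0 : (d : K) ≠ 0 := by
    intro h0
    apply hfac
    obtain ⟨k, hk⟩ := Nat.dvd_factorial hd le_rfl
    rw [hk, Nat.cast_mul, h0, zero_mul]
  obtain ⟨h1, h2⟩ := hKIS hd hfac hR hz (hKIL.1 hd (Ne.isUnit hd0) hR hz hD) hf
  have h3 : Dual (uno R) := hSDF hR h1 h2
  intro θ hθ ω hω ω' hω'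
  have h5 : (fun _ : Unit => θ : KK Unit K) ∈ TT (uno R) :=
    (mem_TT_uno (θ := (fun _ : Unit => θ : KK Unit K))).2 hθ
  have h6 : (fun _ : Unit => ω : KK Unit K) ∈ EE (uno R) :=
    (mem_EE_uno (η := (fun _ : Unit => ω : KK Unit K))).2 hω
  have h7 : (fun _ : Unit => θ : KK Unit K) * (fun _ : Unit => ω : KK Unit K) ∈ uno R :=
    h3 _ h5 _ h6.1
  have h4 : θ * ω ∈ R := h7
  rw [mul_comm (θ * ω)]
  exact hω'.1 (θ * ω) h4

end UNO

open _root_.Pool.Agent.MG.G0.UNO in
/-- UNO (U6): Noether's theorem at the generic point of a family. -/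
theorem t_UNO (hKFO : Stmt_KFO) (hKBC : Stmt_KBC) (hDIT : Stmt_DIT) (hKIL : Stmt_KIL)
    (hKIS : Stmt_KIS) (hSDF : Stmt_SDF) : Stmt_UNO := by
  intro O κ K _ _ _ _ _ ρ φ g d R f f' hφ hg hd hfac hfac' hR hz hD hf hdeg hD' hf' hdeg' hN
  obtain ⟨ω, hω⟩ := (hKFO hR).1
  obtain ⟨hRκ, hwκ, hsκ⟩ := forms_bc hKFO hKBC hR ρ hω
  obtain ⟨hRK, hwK, -⟩ := forms_bc hKFO hKBC hR φ hω
  have hzκ : zz κ d ∈ bc1 ρ R := Algebra.subset_adjoin ⟨zz O d, hz, lmap_zz ρ d⟩
  have hzK : zz K d ∈ bc1 φ R := Algebra.subset_adjoin ⟨zz O d, hz, lmap_zz φ d⟩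
  obtain ⟨-, N1, hN1⟩ := hDIT hg hd hfac hRκ hzκ hD hf hdeg
  obtain ⟨hrig, N2, hN2⟩ := hDIT hg hd hfac' hRK hzK hD' hf' hdeg'
  intro θ hθ
  obtain ⟨N3, hN3⟩ := exists_low θ
  obtain ⟨n, hn1, hn2, hn3⟩ : ∃ n : ℕ, N1 ≤ n ∧ N2 ≤ n ∧ N3 ≤ n :=
    ⟨max N1 (max N2 N3), by omega, by omega, by omega⟩
  obtain ⟨i1, d1⟩ := hN1 n hn1
  obtain ⟨i2, d2⟩ := hN2 n hn2
  have hr := rank_ge hwκ hsκ hN d1
  rw [← mat_map] at hr
  have hr2 := rank_le ρ φ hφ _ hr
  rw [mat_map] at hr2
  refine noe_of_rank (n := n) (by omega) hwK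
    (dual_res hKIL hKIS hSDF hd hfac' hRK hzK hD' hf') hrig hr2 d2 ?_ ?_
  · intro m hm
    exact hN3 m (by omega)
  · intro i j
    exact hθ _ (hwK i) _ (hwK j)

end Pool.Agent.MG.G0


end

section

/-!
# The family of covers through a given curve
-/

open Polynomial

namespace Pool.Agent.MG.G0.ZFM

open Pool.Agent.MG.G0.ZL

section

variable {k : Type} [Field k]

theorem aeval_single (q : k[X]) :
    aeval (HahnSeries.single (1 : ℤ) (1 : k) : LaurentSeries k) q =
      HahnSeries.ofPowerSeries ℤ k (q : PowerSeries k) := by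
  induction q using Polynomial.induction_on with
  | C a =>
    rw [aeval_C, Polynomial.coe_C, HahnSeries.ofPowerSeries_C]
    rfl
  | add p q hp hq =>
    rw [map_add, hp, hq, Polynomial.coe_add, map_add]
  | monomial n a h =>
    have h1 : ((C a * X ^ n * X : k[X]) : PowerSeries k) =
        ((C a * X ^ n : k[X]) : PowerSeries k) * PowerSeries.X := by
      rw [Polynomial.coe_mul, Polynomial.coe_X]
    rw [pow_succ, ← mul_assoc, map_mul, h, aeval_X, h1, map_mul (HahnSeries.ofPowerSeries ℤ k),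
      HahnSeries.ofPowerSeries_X]

theorem transcendental_single :
    Transcendental k (HahnSeries.single (1 : ℤ) (1 : k) : LaurentSeries k) := by
  rw [transcendental_iff]
  intro p hp
  rw [aeval_single] at hp
  have h1 : (p : PowerSeries k) = 0 := by
    apply HahnSeries.ofPowerSeries_injective (Γ := ℤ)
    rw [hp, map_zero]
  exact Polynomial.coe_eq_zero_iff.1 h1

end

section

variable {A B : Type} [CommRing A] [CommRing B]

/-- The derivative `d/dz` commutes with the change of the ring of coefficients. -/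
theorem lmap_dz (hPSI : Stmt_PSI) {d : ℕ} (hd : 0 < d) (hA : IsUnit (d : A)) (φ : A →+* B)
    (f : LaurentSeries A) : lmap φ (dz A d 1 f) = dz B d 1 (lmap φ f) := by
  have hB : IsUnit (d : B) := by
    have := hA.map φ
    rwa [map_natCast] at this
  have h1 := (hPSI (A := A) d hd hA).1 f
  have h2 := (hPSI (A := B) d hd hB).1 (lmap φ f)
  have h3 := congrArg (lmap φ) h1
  rw [lmap_smul, map_natCast, map_neg, map_mul, lmap_single, map_one, lmap_ld, ← h2] at h3
  obtain ⟨u, hu⟩ := hB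
  have h4 := congrArg (fun x => ((u⁻¹ : Bˣ) : B) • x) h3
  simp only [smul_smul] at h4
  rw [← hu, Units.inv_mul, one_smul, one_smul] at h4
  exact h4

end

section

variable {A : Type} [CommRing A] [IsDomain A]

/-- Divisibility of series. -/
theorem exists_smul_of_dvd {r : A} (hr : r ≠ 0) {z : LaurentSeries A}
    (h : ∀ m, r ∣ z.coeff m) : ∃ w : LaurentSeries A, z = r • w := by
  choose c hc using h
  refine ⟨⟨c, z.isPWO_support'.mono fun m hm => ?_⟩, ?_⟩
  · rw [Function.mem_support] at hm ⊢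
    rw [hc]
    exact mul_ne_zero hr hm
  · ext m
    exact hc m

end

section

variable {k : Type} [Field k]

theorem dz_mul_ld_zz (hPSI : Stmt_PSI) {d : ℕ} (hd : 0 < d) (hdk : (d : k) ≠ 0)
    (h : LaurentSeries k) : dz k d 1 h * ld (zz k d) = ld h := by
  have h1 := (hPSI (A := k) d hd (IsUnit.mk0 _ hdk)).1 h
  have h2 : ld (zz k d) = (d : k) • HahnSeries.single (-((d : ℤ) + 1)) (-1 : k) := by
    ext m
    rw [ld_coeff, zz, HahnSeries.coeff_smul, smul_eq_mul]
    by_cases hm : m = -((d : ℤ) + 1)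
    · subst hm
      have h3 : -((d : ℤ) + 1) + 1 = -(d : ℤ) := by ring
      rw [h3, HahnSeries.coeff_single_same, HahnSeries.coeff_single_same]
      push_cast
      ring
    · rw [HahnSeries.coeff_single_of_ne hm, HahnSeries.coeff_single_of_ne (by omega), mul_zero,
        mul_zero]
  rw [h2, mul_smul_comm, ← smul_mul_assoc, h1, neg_mul, mul_comm _ (ld h), mul_assoc,
    HahnSeries.single_mul_single]
  have h3 : (d : ℤ) + 1 + -((d : ℤ) + 1) = 0 := by ring
  rw [h3, one_mul]
  have h4 : (HahnSeries.single (0 : ℤ) (-1 : k) : LaurentSeries k) = -1 := by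
    ext m
    rw [HahnSeries.coeff_neg, HahnSeries.coeff_single, HahnSeries.coeff_one]
    split_ifs <;> simp
  rw [h4, mul_neg, mul_one, neg_neg]

/-- The first order part of the family. -/
theorem fst_of (hPSI : Stmt_PSI) {d b : ℕ} (hd : 0 < d) (hdk : (d : k) ≠ 0)
    {Rb : Subalgebra k (LaurentSeries k)} {β α : Fin b → k} {a : (PowerSeries k)[X]}
    {P : Subalgebra (PowerSeries k) (LaurentSeries (PowerSeries k))}
    (ha : ∀ i, (PowerSeries.X : PowerSeries k) ^ d ∣ a.coeff i)
    (hev : ∀ l, a.eval (bpt d β α l) = -(PowerSeries.X ^ d * PowerSeries.C (α l)))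
    (hbc : bc1 (tmk k (d + 1)) P = psiR d (zpol _ d (a.map (tmk k (d + 1))))
      (bc1 (algebraMap k (Tr k (d + 1))) Rb)) :
    ∃ a₀ : k[X], (∀ l, a₀.eval (β l) = α l) ∧ Fst d Rb P a₀ := by
  classical
  obtain ⟨a', ha'⟩ := (C_dvd_iff_dvd_coeff _ _).2 ha
  have hX : (PowerSeries.X : PowerSeries k) ^ d ≠ 0 := pow_ne_zero _ PowerSeries.X_ne_zero
  set a₁ : k[X] := a'.map (PowerSeries.constantCoeff (R := k)) with ha₁
  refine ⟨-a₁, fun l => ?_, fun h hh => ?_⟩
  · have h1 : a'.eval (bpt d β α l) = -PowerSeries.C (α l) := by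
      have h2 := hev l
      rw [ha', eval_mul, eval_C, ← mul_neg] at h2
      exact mul_left_cancel₀ hX h2
    have h2 : PowerSeries.constantCoeff (bpt d β α l) = β l := by
      rw [bpt, map_add, PowerSeries.constantCoeff_C, map_mul, map_pow,
        PowerSeries.constantCoeff_X, zero_pow hd.ne', zero_mul, add_zero]
    have h3 : a₁.eval (β l) = -α l := by
      rw [ha₁, ← h2, eval_map, eval₂_at_apply, h1, map_neg, PowerSeries.constantCoeff_C]
    rw [eval_neg, h3, neg_neg]
  · refine ⟨zpol k d (-a₁) * dz k d 1 h, ?_⟩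
    have hdP : IsUnit (d : PowerSeries k) := by
      have := (IsUnit.mk0 _ hdk).map (PowerSeries.C (R := k))
      rwa [map_natCast] at this
    have hdT : IsUnit (d : Tr k (d + 1)) := by
      have := hdP.map (tmk k (d + 1))
      rwa [map_natCast] at this
    -- the lift
    have ht : psi d (zpol _ d (a.map (tmk k (d + 1)))) (lmap (algebraMap k (Tr k (d + 1))) h) ∈
        bc1 (tmk k (d + 1)) P := by
      rw [hbc]
      exact Algebra.subset_adjoin ⟨_, Algebra.subset_adjoin ⟨h, hh, rfl⟩, rfl⟩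
    obtain ⟨p, hp, hp'⟩ := exists_lift_bc Ideal.Quotient.mk_surjective ht
    have hlift : lmap (algebraMap k (Tr k (d + 1))) h =
        lmap (tmk k (d + 1)) (lmap (PowerSeries.C (R := k)) h) := by
      ext m
      rfl
    have hTX : tmk k (d + 1) (PowerSeries.X ^ (d + 1)) = 0 :=
      Ideal.Quotient.eq_zero_iff_mem.2 (Ideal.mem_span_singleton_self _)
    have hsq : zpol (Tr k (d + 1)) d (a.map (tmk k (d + 1))) *
        zpol (Tr k (d + 1)) d (a.map (tmk k (d + 1))) = 0 := by
      rw [← map_mul, ha', Polynomial.map_mul, map_C]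
      have h1 : (C (tmk k (d + 1) (PowerSeries.X ^ d)) * a'.map (tmk k (d + 1))) *
          (C (tmk k (d + 1) (PowerSeries.X ^ d)) * a'.map (tmk k (d + 1))) =
          C (tmk k (d + 1) (PowerSeries.X ^ (d + 1))) *
            (C (tmk k (d + 1) (PowerSeries.X ^ (d - 1))) *
              (a'.map (tmk k (d + 1)) * a'.map (tmk k (d + 1)))) := by
        have h2 : C (tmk k (d + 1) (PowerSeries.X ^ d)) * C (tmk k (d + 1) (PowerSeries.X ^ d)) =
            C (tmk k (d + 1) (PowerSeries.X ^ (d + 1))) *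
              C (tmk k (d + 1) (PowerSeries.X ^ (d - 1))) := by
          have h3 : d + d = (d + 1) + (d - 1) := by omega
          rw [← C_mul, ← C_mul, ← map_mul, ← map_mul, ← pow_add, ← pow_add, h3]
        calc (C (tmk k (d + 1) (PowerSeries.X ^ d)) * a'.map (tmk k (d + 1))) *
            (C (tmk k (d + 1) (PowerSeries.X ^ d)) * a'.map (tmk k (d + 1))) =
            (C (tmk k (d + 1) (PowerSeries.X ^ d)) * C (tmk k (d + 1) (PowerSeries.X ^ d))) *
              (a'.map (tmk k (d + 1)) * a'.map (tmk k (d + 1))) := by ring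
          _ = _ := by rw [h2, mul_assoc]
      rw [h1, hTX, C_0, zero_mul, map_zero]
    have hpsi := (hPSI (A := Tr k (d + 1)) d hd hdT).2.2.2.2
      (zpol (Tr k (d + 1)) d (a.map (tmk k (d + 1)))) ⟨2, by rw [pow_two, hsq]⟩
    have hpsi2 := hpsi.2.2.2.2.2.2.2 hsq (lmap (algebraMap k (Tr k (d + 1))) h)
    rw [hpsi2, hlift, ← lmap_dz hPSI hd hdP, ← lmap_zpol, ← map_mul, ← map_add] at hp'
    -- the difference
    obtain ⟨a'', ha''⟩ : C PowerSeries.X ∣ a' - a₁.map (PowerSeries.C (R := k)) := by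
      rw [C_dvd_iff_dvd_coeff]
      intro i
      rw [PowerSeries.X_dvd_iff, coeff_sub, coeff_map, ha₁, coeff_map, map_sub,
        PowerSeries.constantCoeff_C, sub_self]
    have hcomb : a + C (PowerSeries.X ^ d) * (-a₁).map (PowerSeries.C (R := k)) =
        C (PowerSeries.X ^ (d + 1)) * a'' := by
      rw [ha', ← mul_add, Polynomial.map_neg, ← sub_eq_add_neg, ha'', ← mul_assoc, ← C_mul,
        ← pow_succ]
    set z : LaurentSeries (PowerSeries k) := p - (lmap (PowerSeries.C (R := k)) h -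
      (PowerSeries.X : PowerSeries k) ^ d • lmap (PowerSeries.C (R := k))
        (zpol k d (-a₁) * dz k d 1 h)) with hz
    have hzT : lmap (tmk k (d + 1)) z = 0 := by
      have h1 : lmap (PowerSeries.C (R := k)) h + zpol (PowerSeries k) d a *
          dz (PowerSeries k) d 1 (lmap (PowerSeries.C (R := k)) h) -
          (lmap (PowerSeries.C (R := k)) h - (PowerSeries.X : PowerSeries k) ^ d •
            lmap (PowerSeries.C (R := k)) (zpol k d (-a₁) * dz k d 1 h)) =
          zpol (PowerSeries k) d (C (PowerSeries.X ^ (d + 1)) * a'') *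
            dz (PowerSeries k) d 1 (lmap (PowerSeries.C (R := k)) h) := by
        rw [← hcomb, map_add, map_mul (zpol (PowerSeries k) d), map_mul (lmap _), lmap_zpol,
          lmap_dz hPSI hd (IsUnit.mk0 _ hdk)]
        have h2 : zpol (PowerSeries k) d (C (PowerSeries.X ^ d)) =
            algebraMap (PowerSeries k) _ (PowerSeries.X ^ d) := by
          rw [zpol, aeval_C]
        rw [h2, Algebra.smul_def]
        ring
      rw [hz, map_sub, hp', ← map_sub, h1, map_mul (lmap _), lmap_zpol, Polynomial.map_mul,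
        map_C, hTX, C_0, zero_mul, map_zero, zero_mul]
    obtain ⟨w, hw⟩ := exists_smul_of_dvd (r := (PowerSeries.X : PowerSeries k) ^ (d + 1))
      (pow_ne_zero _ PowerSeries.X_ne_zero) (z := z) (fun m => by
        rw [← Ideal.mem_span_singleton, ← Ideal.Quotient.eq_zero_iff_mem]
        have h1 := congrArg (fun x => x.coeff m) hzT
        exact h1)
    refine ⟨w, ?_, ?_⟩
    · rw [mul_assoc, dz_mul_ld_zz hPSI hd hdk]
    · rw [← hw, hz]
      have h1 : lmap (PowerSeries.C (R := k)) h - (PowerSeries.X : PowerSeries k) ^ d •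
          lmap (PowerSeries.C (R := k)) (zpol k d (-a₁) * dz k d 1 h) +
          (p - (lmap (PowerSeries.C (R := k)) h - (PowerSeries.X : PowerSeries k) ^ d •
            lmap (PowerSeries.C (R := k)) (zpol k d (-a₁) * dz k d 1 h))) = p := by
        abel
      rw [h1]
      exact hp

end

end Pool.Agent.MG.G0.ZFM

namespace Pool.Agent.MG.G0

open ZFM ZL

/-- The family exists. -/
theorem t_ZFM (hKBC : Stmt_KBC) (hBGA : Stmt_BGA) (hBGL : Stmt_BGL) (hPSI : Stmt_PSI)
    (hZBT : Stmt_ZBT) (hZBO : Stmt_ZBO) (hZBE : Stmt_ZBE) : Stmt_ZFM := by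
  classical
  intro k _ g d b Rb β α hd hdk hR hz hβ hDisc
  have hd0 : 0 < d := hd
  have hdk' : (d : k) ≠ 0 := by
    intro h
    apply hdk
    push_cast
    rw [h, mul_zero]
  obtain ⟨Γ, hΓ, hGS, -⟩ := hBGL.2.1 Rb hR
  obtain ⟨a, P, ha, hev, hzP, hGSP, hbcP, hredP, hDiscP⟩ :=
    hZBT hd0 hdk Rb hR hz β α hβ hDisc
  have hKrP : Kr g P := by
    have h1 := (hBGA.1 Γ P (hGSP Γ hGS)).1
    rwa [hΓ] at h1
  obtain ⟨a₀, ha₀, hFst⟩ := fst_of hPSI hd0 hdk' ha hev (hbcP (d + 1))
  have hDiscΩ := hZBO hd0 hdk β α hβ P hKrP hzP hDiscP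
  -- the field `k(t)`
  let F : IntermediateField k (LaurentSeries k) :=
    IntermediateField.adjoin k {HahnSeries.single (1 : ℤ) (1 : k)}
  have hmem : (HahnSeries.single (1 : ℤ) (1 : k) : LaurentSeries k) ∈ F :=
    IntermediateField.mem_adjoin_simple_self k _
  let t : F := ⟨HahnSeries.single (1 : ℤ) (1 : k), hmem⟩
  let r : Fin b → F := fun l => algebraMap k F (β l) + t ^ d * algebraMap k F (α l)
  have hr : ∀ l, algebraMap F (LaurentSeries k) (r l) =
      HahnSeries.ofPowerSeries ℤ k (bpt d β α l) := by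
    intro l
    show algebraMap F (LaurentSeries k) (algebraMap k F (β l) + t ^ d * algebraMap k F (α l)) = _
    rw [map_add, map_mul, map_pow, bpt, map_add, map_mul (HahnSeries.ofPowerSeries ℤ k),
      map_pow, HahnSeries.ofPowerSeries_C, HahnSeries.ofPowerSeries_C,
      HahnSeries.ofPowerSeries_X]
    rfl
  have hrinj : Function.Injective r := by
    intro l m hlm
    apply hβ
    have h1 : bpt d β α l = bpt d β α m := by
      apply HahnSeries.ofPowerSeries_injective (Γ := ℤ)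
      rw [← hr, ← hr, hlm]
    have h2 := congrArg (PowerSeries.constantCoeff (R := k)) h1
    simp only [bpt, map_add, map_mul, map_pow, PowerSeries.constantCoeff_C,
      PowerSeries.constantCoeff_X, zero_pow hd0.ne', zero_mul, add_zero] at h2
    exact h2
  have : NeZero d := ⟨hd0.ne'⟩
  have hKrΩ : Kr g (bc1 (psl k) P) := kr_bc hKBC hKrP (psl k)
  have hzΩ : zz (LaurentSeries k) d ∈ bc1 (psl k) P := zz_mem_bc hzP (psl k)
  have hDiscΩ' : Disc d (bc1 (psl k) P)
      (∏ l, (X - C (algebraMap F (LaurentSeries k) (r l)))) := by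
    simp only [hr]
    exact hDiscΩ
  have hdF : ((2 * d : ℕ) : F) ≠ 0 := by
    intro h
    apply hdk
    apply (algebraMap k F).injective
    rw [map_natCast, h, map_zero]
  obtain ⟨L, S, hfin, hsep, hKrS, hzS, hbcS, hDiscS, hmini⟩ :=
    hZBE hd0 hdF (bc1 (psl k) P) hKrΩ hzΩ r hrinj hDiscΩ'
  refine ⟨{
    F := F
    L := L
    t := t
    R := S
    ψ := L.val.restrictScalars k
    RI := P
    tr := ?_
    gen := ?_
    fin := hfin
    sep := hsep
    ψt := rfl
    kr := hKrS
    z := hzS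
    disc := ?_
    krI := hKrP
    redI := hredP
    bcI := hbcS
    first := ⟨a₀, ha₀, hFst⟩
    mini := hmini }⟩
  · have h1 := transcendental_single (k := k)
    rw [transcendental_iff] at h1 ⊢
    intro p hp
    apply h1 p
    have h2 : (aeval (HahnSeries.single (1 : ℤ) (1 : k) : LaurentSeries k) p) =
        algebraMap F (LaurentSeries k) (aeval t p) := by
      rw [← aeval_algebraMap_apply]
      rfl
    rw [h2, hp, map_zero]
  · apply IntermediateField.lift_injective F
    rw [IntermediateField.lift_adjoin_simple, IntermediateField.lift_top]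
  · have h1 : ft d β α (algebraMap F L t) = ∏ l, (X - C (algebraMap F L (r l))) := by
      rw [ft]
      refine Finset.prod_congr rfl fun l _ => ?_
      have h2 : algebraMap F L (r l) = algebraMap k L (β l) +
          (algebraMap F L t) ^ d * algebraMap k L (α l) := by
        show algebraMap F L (algebraMap k F (β l) + t ^ d * algebraMap k F (α l)) = _
        rw [map_add, map_mul, map_pow]
        rfl
      rw [h2]
    rw [h1]
    exact hDiscS

end Pool.Agent.MG.G0


end
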