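import Mathlib
import Pool.Agent.KDM.C02
import Pool.Agent.KDM.C08
import Pool.Agent.KDM.C11
import Pool.Agent.KDM.C12
import Pool.Agent.KDM.C13
import Pool.Agent.KDM.C14
import Pool.Agent.KDM.C15
import Pool.Agent.KDM.C22
import Pool.Agent.KDM.C23
import Pool.Agent.KDM.C24
import Pool.Agent.KDM.C25
import Pool.Agent.KDM.C26
import Pool.Agent.KDM.C29
import Pool.Agent.KDM.C30

/-! Parts: MG.G0.SCO, MG.KX.KDM, MG.KX.KRS, MG.G0.StmtsW, MG.G0.MCB, MG.G0.NPA, MG.G0.TG.TCR, MG.G0.TG.TZF, MG.G0.UFI, MG.G0.UH1, MG.G0.UPR, MG.G0.ZZZ, MG.G0.UZU, MG.G0.ZOB -/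

section

/-!
# SCO: consequences of a certificate of smoothness
-/

open TensorProduct

namespace Pool.Agent.MG.G0

namespace SCO

variable {A R : Type} [CommRing A] [CommRing R] [Algebra A R] {n : ℕ}
  {D : Fin n → Derivation A R R} {g : Fin n → R}

section

variable {M : Type} [AddCommGroup M] [Module A M] [Module R M] [IsScalarTower A R M]

theorem cross (h : IsCert A R D g) (E : Derivation A R M) (i : Fin n) (f k : R) :
    D i f • E k = D i k • E f := by
  have h1 := congrArg E.liftKaehlerDifferential (h.cross i f k)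
  rwa [map_smul, map_smul, Derivation.liftKaehlerDifferential_comp_D,
    Derivation.liftKaehlerDifferential_comp_D] at h1

theorem expand (h : IsCert A R D g) (E : Derivation A R M) (f : R) :
    E f = ∑ i, D i f • E (g i) := by
  have h1 : ∀ i, D i f • E (g i) = D i (g i) • E f := fun i => cross h E i f (g i)
  rw [Finset.sum_congr rfl fun i _ => h1 i, ← Finset.sum_smul, h.one, one_smul]

end

theorem smC (h : IsCert A R D g) : SmC A R := by
  refine ⟨n, D, g, h.one, fun E f k => ?_⟩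
  rw [expand h E f, expand h E k, Finset.sum_smul, Finset.sum_smul]
  refine Finset.sum_congr rfl fun i _ => ?_
  rw [smul_eq_mul, smul_eq_mul, mul_comm (D i f), mul_comm (D i k), mul_smul, mul_smul,
    h.cross i f k]

end SCO

theorem t_SCO : Stmt_SCO := by
  refine ⟨?_, ?_⟩
  · intro A R _ _ _ n D g h
    exact ⟨SCO.smC h, fun M _ _ _ _ E f => SCO.expand h E f⟩
  · intro A R _ _ _ hS
    obtain ⟨n, D, g, h1, h2⟩ := hS
    have h : IsCert A R D g := ⟨h1, fun i f k => h2 (D i) f k⟩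
    refine ⟨⟨n, D, g, h⟩, ?_, ?_⟩
    · intro S _ _ _ _ E E' f k
      rw [SCO.expand h E f, SCO.expand h E k, Finset.sum_mul, Finset.sum_mul]
      refine Finset.sum_congr rfl fun i _ => ?_
      rw [smul_mul_assoc, smul_mul_assoc, ← mul_smul_comm, ← mul_smul_comm,
        SCO.cross h E' i f k]
    · intro M N _ _ _ _ _ _ _ _ π hπ E
      choose m hm using fun i => hπ (E (g i))
      refine ⟨∑ i, (LinearMap.toSpanSingleton R M (m i)).compDer (D i), fun f => ?_⟩
      have h3 : (∑ i, (LinearMap.toSpanSingleton R M (m i)).compDer (D i)) f =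
          ∑ i, D i f • m i := by
        have h4 : ∀ s : Finset (Fin n),
            (∑ i ∈ s, (LinearMap.toSpanSingleton R M (m i)).compDer (D i)) f =
              ∑ i ∈ s, D i f • m i := by
          intro s
          classical
          induction s using Finset.induction_on with
          | empty => rfl
          | insert a s ha ih =>
            rw [Finset.sum_insert ha, Finset.sum_insert ha, Derivation.add_apply, ih]
            rfl
        exact h4 Finset.univ
      rw [h3, map_sum, SCO.expand h E f]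
      exact Finset.sum_congr rfl fun i _ => by rw [map_smul, hm]

end Pool.Agent.MG.G0


end

section

/-!
# KDM: smooth Krichever rings are domains
-/

namespace Pool.Agent.MG.KX

open Pool.Agent.MG.G0 Pool.Agent.MG.GLU

namespace KDM

/-- A reduced Noetherian local ring with principal maximal ideal has no zero divisors. -/
theorem mul_ne_zero_of_principal {A : Type} [CommRing A] [IsNoetherianRing A] [IsLocalRing A]
    [IsReduced A] (t : A) (ht : IsLocalRing.maximalIdeal A ≤ Ideal.span {t})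
    (ht' : t ∈ IsLocalRing.maximalIdeal A) {x y : A} (hx : x ≠ 0) (hy : y ≠ 0) : x * y ≠ 0 := by
  classical
  have hM : IsLocalRing.maximalIdeal A = Ideal.span {t} :=
    le_antisymm ht ((Ideal.span_singleton_le_iff_mem _).2 ht')
  have key : ∀ z : A, z ≠ 0 → ∃ (n : ℕ) (u : A), IsUnit u ∧ z = t ^ n * u := by
    intro z hz
    have h1 : ∃ n : ℕ, z ∉ IsLocalRing.maximalIdeal A ^ n := by
      by_contra hcon
      push Not at hcon
      have h2 : z ∈ ⨅ i : ℕ, IsLocalRing.maximalIdeal A ^ i := by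
        rw [Submodule.mem_iInf]
        exact hcon
      rw [Ideal.iInf_pow_eq_bot_of_isLocalRing _ (IsLocalRing.maximalIdeal.isMaximal A).ne_top]
        at h2
      exact hz ((Submodule.mem_bot A).1 h2)
    have h3 := Nat.find_spec h1
    have h4 : Nat.find h1 ≠ 0 := by
      intro h0
      rw [h0, pow_zero, Ideal.one_eq_top] at h3
      exact h3 trivial
    obtain ⟨n, hn⟩ := Nat.exists_eq_succ_of_ne_zero h4
    have h5 : z ∈ IsLocalRing.maximalIdeal A ^ n := by
      by_contra h6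
      exact Nat.find_min h1 (m := n) (by omega) h6
    rw [hM, Ideal.span_singleton_pow, Ideal.mem_span_singleton] at h5
    obtain ⟨u, hu⟩ := h5
    refine ⟨n, u, ?_, hu⟩
    by_contra hnu
    apply h3
    have h6 : u ∈ IsLocalRing.maximalIdeal A := (IsLocalRing.mem_maximalIdeal u).2 hnu
    rw [hM, Ideal.mem_span_singleton] at h6
    obtain ⟨v, hv⟩ := h6
    rw [hn, hM, Ideal.span_singleton_pow, Ideal.mem_span_singleton]
    refine ⟨v, ?_⟩
    rw [hu, hv, pow_succ]
    ring
  obtain ⟨n, u, hu, rfl⟩ := key x hx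
  obtain ⟨m, v, hv, rfl⟩ := key y hy
  intro h0
  have h1 : t ^ (n + m) * (u * v) = 0 := by
    rw [← h0, pow_add]
    ring
  have h2 : t ^ (n + m) = 0 := by
    obtain ⟨w, hw⟩ := (hu.mul hv).exists_right_inv
    calc t ^ (n + m) = t ^ (n + m) * (u * v * w) := by rw [hw, mul_one]
      _ = t ^ (n + m) * (u * v) * w := by ring
      _ = 0 := by rw [h1, zero_mul]
  by_cases h3 : n + m = 0
  · rw [h3, pow_zero] at h2
    exact one_ne_zero h2
  · have h4 : t = 0 := by
      exact (pow_eq_zero_iff h3).1 h2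
    rcases Nat.eq_zero_or_pos n with h5 | h5
    · apply hy
      have h6 : m ≠ 0 := by omega
      rw [h4, zero_pow h6, zero_mul]
    · apply hx
      rw [h4, zero_pow h5.ne', zero_mul]

/-- The points of a finitely generated algebra over an algebraically closed field. -/
theorem exists_point {K P : Type} [Field K] [IsAlgClosed K] [CommRing P] [Algebra K P]
    [Algebra.FiniteType K P] (m : Ideal P) [m.IsMaximal] :
    ∃ x : P → K, ∀ f : P, f - algebraMap K P (x f) ∈ m := by
  letI := Ideal.Quotient.field m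
  haveI : Algebra.FiniteType K (P ⧸ m) :=
    Algebra.FiniteType.of_surjective (Ideal.Quotient.mkₐ K m) Ideal.Quotient.mk_surjective
  haveI : Module.Finite K (P ⧸ m) := finite_of_finite_type_of_isJacobsonRing K (P ⧸ m)
  haveI : Algebra.IsIntegral K (P ⧸ m) := inferInstance
  have h1 := (IsAlgClosed.algebraMap_bijective_of_isIntegral (k := K) (K := P ⧸ m)).2
  have h2 : ∀ f : P, ∃ c : K, f - algebraMap K P c ∈ m := by
    intro f
    obtain ⟨c, hc⟩ := h1 (Ideal.Quotient.mk m f)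
    refine ⟨c, ?_⟩
    rw [← Ideal.Quotient.eq]
    rw [← hc]
    rfl
  choose x hx using h2
  exact ⟨x, hx⟩

/-- The cotangent space is generated by one element. -/
theorem exists_param {K P : Type} [Field K] [IsAlgClosed K] [CommRing P] [Algebra K P]
    [Algebra.FiniteType K P] (hS : SmC K P) (m : Ideal P) [hm : m.IsMaximal] :
    ∃ t ∈ m, m ≤ Ideal.span {t} ⊔ m * m := by
  obtain ⟨x, hx⟩ := exists_point (K := K) m
  have huniq : ∀ (f : P) (c : K), f - algebraMap K P c ∈ m → x f = c := by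
    intro f c hc
    by_contra hne
    have h1 : algebraMap K P (x f - c) ∈ m := by
      have := sub_mem hc (hx f)
      rw [map_sub]
      have h2 : f - algebraMap K P c - (f - algebraMap K P (x f)) =
        algebraMap K P (x f) - algebraMap K P c := by ring
      rw [h2] at this
      exact this
    have h2 : IsUnit (algebraMap K P (x f - c)) :=
      (IsUnit.mk0 _ (sub_ne_zero.2 hne)).map (algebraMap K P)
    exact hm.ne_top (Ideal.eq_top_of_isUnit_mem _ h1 h2)
  have hxm : ∀ f ∈ m, x f = 0 := fun f hf => huniq f 0 (by rw [map_zero, sub_zero]; exact hf)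
  have hxmul : ∀ f g, x (f * g) = x f * x g := by
    intro f g
    apply huniq
    have h1 : f * g - algebraMap K P (x f * x g) =
        g * (f - algebraMap K P (x f)) + algebraMap K P (x f) * (g - algebraMap K P (x g)) := by
      rw [map_mul]
      ring
    rw [h1]
    exact add_mem (m.mul_mem_left _ (hx f)) (m.mul_mem_left _ (hx g))
  obtain ⟨n, D, g, hD1, hD2⟩ := hS
  have hex : ∃ i, D i (g i) ∉ m := by
    by_contra hcon
    push Not at hcon
    apply hm.ne_top
    rw [Ideal.eq_top_iff_one, ← hD1]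
    exact sum_mem fun i _ => hcon i
  obtain ⟨i, hi⟩ := hex
  set t := g i - algebraMap K P (x (g i)) with ht
  refine ⟨t, hx _, ?_⟩
  intro h hh
  by_contra hcon
  let W : Submodule K P := (Ideal.span {t} ⊔ m * m).restrictScalars K
  have hhW : h ∉ W := hcon
  obtain ⟨φ, hφ1, hφ2⟩ := Submodule.exists_dual_map_eq_bot_of_notMem hhW inferInstance
  have hφW : ∀ w ∈ Ideal.span {t} ⊔ m * m, φ w = 0 := by
    intro w hw
    have h1 : φ w ∈ W.map φ := Submodule.mem_map_of_mem (p := W) hw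
    rw [hφ2] at h1
    exact (Submodule.mem_bot K).1 h1
  -- the derivation
  let δ₀ : P →ₗ[K] (P ⧸ m) :=
    { toFun := fun f => algebraMap K (P ⧸ m) (φ (f - algebraMap K P (x f)))
      map_add' := by
        intro f f'
        have h1 : x (f + f') = x f + x f' := by
          apply huniq
          have h2 : f + f' - algebraMap K P (x f + x f') =
            (f - algebraMap K P (x f)) + (f' - algebraMap K P (x f')) := by
            rw [map_add]; ring
          rw [h2]
          exact add_mem (hx f) (hx f')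
        rw [h1, ← map_add, ← map_add]
        congr 2
        rw [map_add]
        ring
      map_smul' := by
        intro c f
        have h1 : x (c • f) = c * x f := by
          apply huniq
          have h2 : c • f - algebraMap K P (c * x f) = c • (f - algebraMap K P (x f)) := by
            rw [smul_sub, map_mul, Algebra.smul_def, Algebra.smul_def]
          rw [h2, Algebra.smul_def]
          exact m.mul_mem_left _ (hx f)
        have h3 : c • f - algebraMap K P (x (c • f)) = c • (f - algebraMap K P (x f)) := by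
          rw [h1, smul_sub, map_mul, Algebra.smul_def, Algebra.smul_def]
        rw [h3, map_smul, RingHom.id_apply, smul_eq_mul, map_mul, Algebra.smul_def] }
  have hδ₀ : ∀ f, δ₀ f = algebraMap K (P ⧸ m) (φ (f - algebraMap K P (x f))) := fun _ => rfl
  have hmk : ∀ f : P, Ideal.Quotient.mk m f = algebraMap K (P ⧸ m) (x f) := by
    intro f
    have h1 := Ideal.Quotient.eq.2 (hx f)
    rw [h1]
    rfl
  let δ : Derivation K P (P ⧸ m) := Derivation.mk' δ₀ (by
    intro f f'
    have h1 : f * f' - algebraMap K P (x (f * f')) =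
        (f - algebraMap K P (x f)) * (f' - algebraMap K P (x f')) +
        (x f • (f' - algebraMap K P (x f')) + x f' • (f - algebraMap K P (x f))) := by
      rw [hxmul, map_mul, Algebra.smul_def, Algebra.smul_def]
      ring
    have h2 : φ ((f - algebraMap K P (x f)) * (f' - algebraMap K P (x f'))) = 0 :=
      hφW _ (Ideal.mem_sup_right (Ideal.mul_mem_mul (hx f) (hx f')))
    have h3 : ∀ (a : P) (b : P ⧸ m), a • b = Ideal.Quotient.mk m a * b := fun a b => rfl
    rw [hδ₀, hδ₀, hδ₀, h1, map_add, h2, zero_add, map_add, map_smul, map_smul, h3, h3, hmk, hmk,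
      smul_eq_mul, smul_eq_mul, map_add, map_mul, map_mul])
  have hδ : ∀ f, δ f = algebraMap K (P ⧸ m) (φ (f - algebraMap K P (x f))) := fun _ => rfl
  have h1 := congrArg δ.liftKaehlerDifferential (hD2 (D i) (g i) h)
  rw [map_smul, map_smul, Derivation.liftKaehlerDifferential_comp_D,
    Derivation.liftKaehlerDifferential_comp_D] at h1
  have h2 : δ (g i) = 0 := by
    rw [hδ, hφW _ (Ideal.mem_sup_left (Ideal.mem_span_singleton_self t)), map_zero]
  rw [h2, smul_zero, hδ, hxm h hh, map_zero, sub_zero] at h1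
  have h3 : Ideal.Quotient.mk m (D i (g i)) * algebraMap K (P ⧸ m) (φ h) = 0 := h1
  haveI : IsDomain (P ⧸ m) := Ideal.Quotient.isDomain m
  rcases mul_eq_zero.1 h3 with h4 | h4
  · exact hi (Ideal.Quotient.eq_zero_iff_mem.1 h4)
  · apply hφ1
    haveI : Nontrivial (P ⧸ m) := inferInstance
    exact (map_eq_zero_iff (algebraMap K (P ⧸ m)) (algebraMap K (P ⧸ m)).injective).1 h4

/-- The localizations at the maximal ideals have no zero divisors. -/
theorem local_domain {K P : Type} [Field K] [IsAlgClosed K] [CommRing P] [Algebra K P]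
    [Algebra.FiniteType K P] [IsReduced P] (hS : SmC K P) (m : Ideal P) [hm : m.IsMaximal]
    {f h : P} (hfh : f * h = 0) : ∃ s ∉ m, s * f = 0 ∨ s * h = 0 := by
  haveI : IsNoetherianRing P := Algebra.FiniteType.isNoetherianRing K P
  haveI : m.IsPrime := hm.isPrime
  obtain ⟨t, htm, ht⟩ := exists_param (K := K) hS m
  let A := Localization.AtPrime m
  haveI : IsNoetherianRing A := IsLocalization.isNoetherianRing m.primeCompl A inferInstance
  haveI : IsReduced A := inferInstance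
  have hmax : Ideal.map (algebraMap P A) m = IsLocalRing.maximalIdeal A :=
    Localization.AtPrime.map_eq_maximalIdeal
  have h1 : IsLocalRing.maximalIdeal A ≤ Ideal.span {algebraMap P A t} := by
    refine Submodule.le_of_le_smul_of_le_jacobson_bot (I := IsLocalRing.maximalIdeal A)
      (IsNoetherian.noetherian _) (IsLocalRing.maximalIdeal_le_jacobson ⊥) ?_
    have h2 := Ideal.map_mono (f := algebraMap P A) ht
    rw [Ideal.map_sup, Ideal.map_mul, Ideal.map_span, Set.image_singleton, hmax] at h2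
    exact h2
  have h2 : algebraMap P A t ∈ IsLocalRing.maximalIdeal A := by
    rw [← hmax]
    exact Ideal.mem_map_of_mem _ htm
  have h3 : algebraMap P A f * algebraMap P A h = 0 := by rw [← map_mul, hfh, map_zero]
  have h4 : algebraMap P A f = 0 ∨ algebraMap P A h = 0 := by
    by_contra hcon
    push Not at hcon
    exact mul_ne_zero_of_principal (algebraMap P A t) h1 h2 hcon.1 hcon.2 h3
  rcases h4 with h4 | h4
  · obtain ⟨s, hs⟩ := (IsLocalization.map_eq_zero_iff m.primeCompl A f).1 h4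
    exact ⟨s, s.2, Or.inl hs⟩
  · obtain ⟨s, hs⟩ := (IsLocalization.map_eq_zero_iff m.primeCompl A h).1 h4
    exact ⟨s, s.2, Or.inr hs⟩

open Polynomial in
/-- A partner of a zero divisor. -/
theorem exists_partner {I K : Type} [Field K] {P : Subalgebra K (KK I K)} (z : P)
    (hfin : (Polynomial.aeval (R := K) z).toRingHom.Finite)
    (hunit : ∀ h : K[X], h.Monic → IsUnit (Polynomial.aeval (z : KK I K) h)) (f : P) :
    ∃ h : P, f * h = 0 ∧ ∀ i : I, (f : KK I K) i = 0 → (h : KK I K) i ≠ 0 := by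
  classical
  haveI : IsReduced P := isReduced_of_injective P.val Subtype.val_injective
  obtain ⟨q, hq1, hq2⟩ := hfin.to_isIntegral f
  obtain ⟨q', hq3, hq4⟩ := q.exists_eq_pow_rootMultiplicity_mul_and_not_dvd hq1.ne_zero 0
  rw [C_0, sub_zero] at hq3 hq4
  rw [X_dvd_iff] at hq4
  set e := q.rootMultiplicity 0 with he
  set φ : K[X] →+* P := (Polynomial.aeval (R := K) z).toRingHom with hφ
  refine ⟨q'.eval₂ φ f, ?_, ?_⟩
  · rw [hq3, eval₂_mul, eval₂_X_pow] at hq2
    have h1 : (f * q'.eval₂ φ f) ^ (e + 1) = 0 := by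
      rw [mul_pow, pow_succ f, pow_succ (q'.eval₂ φ f)]
      calc f ^ e * f * ((q'.eval₂ φ f) ^ e * q'.eval₂ φ f) =
          (f ^ e * q'.eval₂ φ f) * (f * (q'.eval₂ φ f) ^ e) := by ring
        _ = 0 := by rw [hq2, zero_mul]
    exact (pow_eq_zero_iff (Nat.succ_ne_zero e)).1 h1
  · intro i hi h0
    let ev : P →+* LaurentSeries K := (Pi.evalRingHom (fun _ : I => LaurentSeries K) i).comp
      (P.val : P →+* KK I K)
    have hev : ∀ x : P, ev x = (x : KK I K) i := fun _ => rfl
    have h1 : ev (q'.eval₂ φ f) = 0 := by rw [hev]; exact h0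
    rw [hom_eval₂, hev, hi, eval₂_at_zero] at h1
    set a := q'.coeff 0 with ha
    have h2 : (ev.comp φ) a = (Polynomial.aeval (z : KK I K) a) i := by
      have h3 : ((Polynomial.aeval (R := K) z a : P) : KK I K) =
          Polynomial.aeval (z : KK I K) a := by
        have := Polynomial.aeval_algHom_apply P.val z a
        exact this.symm
      rw [← h3]
      rfl
    have h4 : IsUnit (Polynomial.aeval (z : KK I K) a) := by
      have h5 := hunit _ (monic_mul_leadingCoeff_inv hq4)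
      rw [map_mul] at h5
      exact isUnit_of_mul_isUnit_left h5
    rw [h2] at h1
    have h6 : IsUnit ((Polynomial.aeval (z : KK I K) a) i) := h4.map (Pi.evalRingHom _ i)
    rw [h1] at h6
    exact not_isUnit_zero h6

end KDM

/-- Smooth Krichever rings are domains. -/
theorem t_KDM (hKNZ : Stmt_KNZ) (hKFG : Stmt_KFG) : Stmt_KDM := by
  classical
  intro I K _ _ _ _ g P hP hT
  obtain ⟨hfp, hfg⟩ := hKFG hP
  haveI : Algebra.FiniteType K P := inferInstance
  haveI : IsReduced P := isReduced_of_injective P.val Subtype.val_injective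
  obtain ⟨⟨N, hN⟩, hNN⟩ := hKNZ hP
  obtain ⟨z, hzP, hz⟩ := (hNN N hN).2.2 (N + 1) (by omega)
  obtain ⟨-, -, hfin, hunit, -⟩ := hfg N (N + 1) ⟨z, hzP⟩ hN (by omega) hz
  have key : ∀ (i : I) (f : P), (f : KK I K) i = 0 → f = 0 := by
    intro i₀ f hf
    by_contra hf0
    obtain ⟨h, hfh, hh⟩ := KDM.exists_partner (⟨z, hzP⟩ : P) hfin hunit f
    have hi₁ : ∃ i₁, (f : KK I K) i₁ ≠ 0 := by
      by_contra hcon
      push Not at hcon
      exact hf0 (Subtype.ext (funext hcon))
    obtain ⟨i₁, hi₁⟩ := hi₁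
    let 𝔞 : Ideal P := LinearMap.ker (LinearMap.toSpanSingleton P P h)
    let 𝔟 : Ideal P := LinearMap.ker (LinearMap.toSpanSingleton P P f)
    have h𝔞 : ∀ x, x ∈ 𝔞 ↔ x * h = 0 := fun x => Iff.rfl
    have h𝔟 : ∀ x, x ∈ 𝔟 ↔ x * f = 0 := fun x => Iff.rfl
    have htop : 𝔞 ⊔ 𝔟 = ⊤ := by
      by_contra hne
      obtain ⟨m, hm, hle⟩ := Ideal.exists_le_maximal _ hne
      obtain ⟨s, hs, h1 | h1⟩ := KDM.local_domain (K := K) hT.2 m hfh
      · exact hs (hle (Ideal.mem_sup_right ((h𝔟 s).2 h1)))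
      · exact hs (hle (Ideal.mem_sup_left ((h𝔞 s).2 h1)))
    have h1 : (1 : P) ∈ 𝔞 ⊔ 𝔟 := by rw [htop]; trivial
    obtain ⟨a, ha, b, hb, hab⟩ := Submodule.mem_sup.1 h1
    rw [h𝔞] at ha
    rw [h𝔟] at hb
    have hai : ∀ i, (f : KK I K) i = 0 → (a : KK I K) i = 0 := by
      intro i hi
      have h2 : (a : KK I K) i * (h : KK I K) i = 0 := congrFun (congrArg Subtype.val ha) i
      exact (mul_eq_zero.1 h2).resolve_right (hh i hi)
    have hbi : ∀ i, (f : KK I K) i ≠ 0 → (a : KK I K) i = 1 := by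
      intro i hi
      have h2 : (b : KK I K) i * (f : KK I K) i = 0 := congrFun (congrArg Subtype.val hb) i
      have h3 : (b : KK I K) i = 0 := (mul_eq_zero.1 h2).resolve_right hi
      have h4 : (a : KK I K) i + (b : KK I K) i = 1 := congrFun (congrArg Subtype.val hab) i
      rw [h3, add_zero] at h4
      exact h4
    have haP : (a : KK I K) ∈ Pol I K 0 := by
      intro i m hm
      by_cases hi : (f : KK I K) i = 0
      · rw [hai i hi, HahnSeries.coeff_zero]
      · rw [hbi i hi, HahnSeries.coeff_one, if_neg (by omega)]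
    obtain ⟨c, hc⟩ := hP.k1 _ a.2 haP
    have h5 : algebraMap K (LaurentSeries K) c = 0 := by
      rw [← hai i₀ hf, hc]
      rfl
    have h6 : algebraMap K (LaurentSeries K) c = 1 := by
      rw [← hbi i₁ hi₁, hc]
      rfl
    rw [h5] at h6
    exact zero_ne_one h6
  refine ⟨?_, key⟩
  haveI : Nontrivial P := by
    refine ⟨⟨0, 1, fun h01 => ?_⟩⟩
    have i := Classical.arbitrary I
    have h2 : (0 : LaurentSeries K) = 1 := congrFun (congrArg Subtype.val h01) i
    exact zero_ne_one h2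
  haveI : NoZeroDivisors P := by
    refine ⟨fun {x y} hxy => ?_⟩
    have i := Classical.arbitrary I
    have h2 : (x : KK I K) i * (y : KK I K) i = 0 := congrFun (congrArg Subtype.val hxy) i
    rcases mul_eq_zero.1 h2 with h3 | h3
    · exact Or.inl (key i x h3)
    · exact Or.inr (key i y h3)
  exact NoZeroDivisors.to_isDomain P

end Pool.Agent.MG.KX


end

section

/-!
# KRS: no vector fields on smooth curves of genus at least two
-/

namespace Pool.Agent.MG.KX

open Pool.Agent.MG.G0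

/-- KRS: no vector fields on smooth curves of genus at least two. -/
theorem t_KRS (hKDM : Stmt_KDM) (hSDF : G0.Stmt_SDF) : Stmt_KRS := by
  intro I K _ _ _ _ g P hP hS hg θ hθ hθ0
  have hdual := hSDF hP hS.1 hS.2
  obtain ⟨-, hinj⟩ := hKDM hP hS
  obtain ⟨⟨ω, hω⟩, hforms⟩ := t_KFO t_KDU hP
  obtain ⟨hωE, -⟩ := hforms ω hω
  obtain ⟨⟨m, c, f, hcf⟩, -⟩ := t_SKK t_KNZ t_SCO hP
  by_contra hne
  -- no component of `θ` is zero
  have hcomp : ∀ i, θ i ≠ 0 := by
    intro i hi
    apply hne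
    have h1 : ∀ l, θ * dd (f l : KK I K) = 0 := by
      intro l
      have h2 := hθ (f l : KK I K) (f l).2
      have h3 := hinj i ⟨_, h2⟩ (by
        change (θ * dd (f l : KK I K)) i = 0
        rw [Pi.mul_apply, hi, zero_mul])
      exact congrArg Subtype.val h3
    calc θ = θ * ∑ l, c l * dd (f l : KK I K) := by rw [hcf, mul_one]
      _ = ∑ l, c l * (θ * dd (f l : KK I K)) := by
          rw [Finset.mul_sum]
          exact Finset.sum_congr rfl fun l _ => by ring
      _ = 0 := Finset.sum_eq_zero fun l _ => by rw [h1, mul_zero]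
  -- multiplication by `θ` is injective
  have hcancel : ∀ x : KK I K, θ * x = 0 → x = 0 := by
    intro x hx
    funext i
    have h1 := congrFun hx i
    rw [Pi.mul_apply, Pi.zero_apply] at h1
    exact (mul_eq_zero.1 h1).resolve_left (hcomp i)
  -- `θ ω` is a constant
  have hconst : ∀ j, ∃ a : K, θ * ω j = algebraMap K (KK I K) a := by
    intro j
    refine hP.k1 _ (hdual θ hθ _ (hωE j).1) ?_
    have h1 : ω j ∈ Pol I K 0 := (hωE j).2
    exact mul_mem_Pol0 hθ0 h1
  choose a ha using hconst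
  -- linear independence
  have hind : ∀ j k : Fin g, j ≠ k → ∀ x y : K, x • ω j - y • ω k = 0 → x = 0 := by
    intro j k hjk x y hxy
    classical
    obtain ⟨h, hh⟩ := hω.surj (Pi.single j 1)
    have h1 : res ((x • ω j - y • ω k) * h) = 0 := by rw [hxy, zero_mul, map_zero]
    rw [sub_mul, map_sub, smul_mul_assoc, smul_mul_assoc, map_smul, map_smul, hh, hh,
      Pi.single_eq_same, Pi.single_eq_of_ne hjk.symm, smul_zero, sub_zero, smul_eq_mul,
      mul_one] at h1
    exact h1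
  have h01 : (⟨0, by omega⟩ : Fin g) ≠ ⟨1, by omega⟩ := by
    intro h
    have := congrArg Fin.val h
    simp at this
  have key : a ⟨1, by omega⟩ • ω ⟨0, by omega⟩ - a ⟨0, by omega⟩ • ω ⟨1, by omega⟩ = 0 := by
    apply hcancel
    rw [mul_sub, mul_smul_comm, mul_smul_comm, ha, ha, Algebra.smul_def, Algebra.smul_def, mul_comm,
      sub_self]
  have ha1 : a ⟨1, by omega⟩ = 0 := hind _ _ h01 _ _ key
  have hω1 : ω ⟨1, by omega⟩ = 0 := by
    apply hcancel
    rw [ha, ha1, map_zero]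
  have h10 : (1 : K) = 0 := hind ⟨1, by omega⟩ ⟨0, by omega⟩ h01.symm 1 0 (by
    rw [hω1, smul_zero, zero_smul, sub_zero])
  exact one_ne_zero h10

end Pool.Agent.MG.KX


end

section

/-!
# Statements: Theorem Z in characteristic zero (PAPER.md, U0, U1, U4 (b); PAPER_V.md)
-/

open Polynomial

namespace Pool.Agent.MG.G0

/-- URG: the ultraproduct of special curves is a special curve. -/
def Stmt_URG : Prop :=
  ∀ (𝒰 : Ultrafilter ℕ) {k : ℕ → Type} [∀ n, Field (k n)] {g : ℕ} (ζ : ∀ n, k n)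
    (R : ∀ n, Subalgebra (k n) (LaurentSeries (k n))), 2 ≤ g →
    (∀ n, (((6 * g + 9).factorial : ℕ) : k n) ≠ 0) → (∀ n, RG g (ζ n) (R n)) →
    RG g (umk 𝒰 ζ) (UP 𝒰 R)

/-- UPL: ultraproducts of places. -/
def Stmt_UPL : Prop :=
  ∀ (𝒰 : Ultrafilter ℕ) {k L : ℕ → Type} [∀ n, Field (k n)] [∀ n, Field (L n)]
    [∀ n, Algebra (k n) (L n)] {g d : ℕ} {R : ∀ n, Subalgebra (L n) (LaurentSeries (L n))}
    (v : ∀ n, Plc (k n) (L n) g d (R n)), 1 ≤ g → 1 ≤ d → (∀ n, Kr g (R n)) →
    (∀ n, (v n).Tst) →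
    letI : Algebra (Ul 𝒰 k) (Ul 𝒰 L) := (umap 𝒰 fun n => algebraMap (k n) (L n)).toAlgebra
    ∃ w : Plc (Ul 𝒰 k) (Ul 𝒰 L) g d (UP 𝒰 R), w.Tst ∧
      ((∀ n, (v n).c = 1) → w.c = 1) ∧ w.M.Pb = UP 𝒰 (fun n => (v n).M.Pb) ∧
      (∀ s : Ul 𝒰 L, (∃ x : w.O, algebraMap w.O (Ul 𝒰 L) x = s) →
        ∃ x : UO 𝒰 v, uOL 𝒰 v x = s) ∧
      ∀ (r : ℕ) (S : MultilinearMap (Ul 𝒰 L) (fun _ : Fin r => EE1 (UP 𝒰 R)) (Ul 𝒰 L)),
        w.Int S → UInt 𝒰 v S

/-- UAI: the branch points are algebraically independent. -/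
def Stmt_UAI : Prop :=
  (∀ {F k L : Type} [Field F] [Field k] [Field L] [Algebra F k] [Algebra k L] [Algebra F L]
    [IsScalarTower F k L] {b d : ℕ} (β α : Fin b → k) (t : L), 0 < d →
    AlgebraicIndependent F α → Transcendental k t →
    AlgebraicIndependent F fun l => algebraMap k L (β l) + t ^ d * algebraMap k L (α l)) ∧
  (∀ (𝒰 : Ultrafilter ℕ) {k L : ℕ → Type} [∀ n, Field (k n)] [∀ n, Field (L n)]
    [∀ n, Algebra (k n) (L n)] (t : ∀ n, L n), (∀ n, Transcendental (k n) (t n)) →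
    letI : Algebra (Ul 𝒰 k) (Ul 𝒰 L) := (umap 𝒰 fun n => algebraMap (k n) (L n)).toAlgebra
    Transcendental (Ul 𝒰 k) (umk 𝒰 t)) ∧
  ∀ {F K : Type} [Field F] [Field K] [IsAlgClosed K] [Algebra F K] {b : ℕ}
    (v : Fin (b + 1) → K), AlgebraicIndependent F v →
    ∃ (k₁ : Type) (_ : Field k₁) (_ : IsAlgClosed k₁) (_ : Algebra F k₁) (_ : Algebra k₁ K)
      (_ : IsScalarTower F k₁ K) (ζ : k₁), algebraMap k₁ K ζ = v 0 ∧ Transcendental F ζ ∧
      AlgebraicIndependent k₁ fun l : Fin b => v l.succ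

/-- UPR: primes. -/
def Stmt_UPR : Prop :=
  ∀ (m N : ℕ), 1 ≤ m → ∃ p : ℕ, N < p ∧ p.Prime ∧ p % m = m - 1

/-- UZU: Theorem Z in characteristic zero. -/
def Stmt_UZU : Prop :=
  ∀ g : ℕ, 2 ≤ g → ∃ (k L : Type) (_ : Field k) (_ : IsAlgClosed k) (_ : Field L)
    (_ : Algebra ℂ k) (_ : Algebra ℂ L) (_ : Algebra k L) (_ : IsScalarTower ℂ k L)
    (R : Subalgebra L (LaurentSeries L)) (r : Fin (8 * g + 8) → L), Kr g R ∧
    zz L (6 * g + 9) ∈ R ∧ Disc (6 * g + 9) R (∏ l, (X - C (r l))) ∧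
    AlgebraicIndependent ℂ r ∧
    (∃ (v : Plc k L g (6 * g + 9) R) (ζ : k), v.Tst ∧ v.c = 1 ∧ RG g ζ v.M.Pb ∧
      ∃ β : Fin (8 * g + 8) → k, Function.Injective β ∧
        Disc (6 * g + 9) v.M.Pb (∏ l, (X - C (β l)))) ∧
    (∀ s : L, (∀ v : Plc k L g (6 * g + 9) R, v.Tst → ∃ x : v.O, algebraMap v.O L x = s) →
      ∃ a : k, algebraMap k L a = s) ∧
    ∀ m : ℕ, 1 ≤ m → ∀ S : MultilinearMap L (fun _ : Fin m => EE1 R) L,
      (∀ v : Plc k L g (6 * g + 9) R, v.Tst → v.Int S) → S = 0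

/-- UFI: the final statement on Krichever rings. -/
def Stmt_UFI : Prop :=
  ∀ g : ℕ, 3 ≤ g → ∃ (K : Type) (_ : Field K) (_ : IsAlgClosed K) (_ : Algebra ℂ K)
    (P : Subalgebra K (KK Unit K)), IsKr g P ∧ TypeS P ∧ Gnr P ∧
    (∀ E : Ev g, ∃ c : ℂ, ∀ l : CovL P, E.Φ K Unit P l = algebraMap ℂ K c) ∧
    ∀ (n : ℕ) (E : Ev0 g n), ∃ c : ℂ, ∀ p, Marks P p → E.Φ K Unit P p = algebraMap ℂ K c

end Pool.Agent.MG.G0


end

section

/-!
# MCB: base change of a pair of charts
-/

open TensorProduct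

namespace Pool.Agent.MG.G0

namespace MCBaux

section

variable {I J A B : Type} [CommRing A] [CommRing B]

/-- Extension by zero at the additional punctures. -/
noncomputable def ext (I J A : Type) [CommRing A] : KK I A →ₗ[A] KK (I ⊕ J) A where
  toFun f := Sum.elim f fun _ => 0
  map_add' f g := by
    funext k
    rcases k with i | j
    · rfl
    · change (0 : LaurentSeries A) = 0 + 0
      rw [add_zero]
  map_smul' a f := by
    funext k
    rcases k with i | j
    · rfl
    · change (0 : LaurentSeries A) = a • 0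
      rw [smul_zero]

theorem ext_inl (f : KK I A) (i : I) : ext I J A f (Sum.inl i) = f i := rfl

theorem ext_inr (f : KK I A) (j : J) : ext I J A f (Sum.inr j) = 0 := rfl

theorem L_Pol0 {h : ℕ} {W : Subalgebra A (KK (I ⊕ J) A)}
    {L : KK (I ⊕ J) A →ₗ[A] (Fin h → A)}
    (hL : ∀ f, L f = 0 ↔ ∃ p ∈ W, f - p ∈ Pol (I ⊕ J) A 0) {f : KK (I ⊕ J) A}
    (hf : f ∈ Pol (I ⊕ J) A 0) : L f = 0 :=
  (hL f).2 ⟨0, zero_mem W, by rwa [sub_zero]⟩

theorem L_W {h : ℕ} {W : Subalgebra A (KK (I ⊕ J) A)}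
    {L : KK (I ⊕ J) A →ₗ[A] (Fin h → A)}
    (hL : ∀ f, L f = 0 ↔ ∃ p ∈ W, f - p ∈ Pol (I ⊕ J) A 0) {f : KK (I ⊕ J) A}
    (hf : f ∈ W) : L f = 0 :=
  (hL f).2 ⟨f, hf, by rw [sub_self]; exact zero_mem _⟩

theorem isKr_Rem {h : ℕ} {W : Subalgebra A (KK (I ⊕ J) A)} (hW : IsKr h W) (hD : Dn W) :
    IsKr h (Rem W) := by
  refine ⟨?_, ?_⟩
  · rintro f ⟨w, hw, h1, h2⟩ hf
    obtain ⟨a, ha⟩ := hW.k1 w hw (by
      intro k m hm
      rcases k with i | j
      · rw [h2]
        exact hf i m hm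
      · exact h1 j m (by omega))
    refine ⟨a, ?_⟩
    funext i
    rw [← h2, ha]
    rfl
  · obtain ⟨L, hs, hL⟩ := hW.k2
    refine ⟨L ∘ₗ ext I J A, ?_, ?_⟩
    · intro c
      obtain ⟨F, hF⟩ := hs c
      obtain ⟨w, hw, hwF⟩ := hD (fun j => F (Sum.inr j)) 0
      refine ⟨fun i => (F - w) (Sum.inl i), ?_⟩
      rw [LinearMap.comp_apply]
      have h1 : (F - w) - ext I J A (fun i => (F - w) (Sum.inl i)) ∈ Pol (I ⊕ J) A 0 := by
        intro k m hm
        rcases k with i | j
        · rw [Pi.sub_apply, ext_inl, sub_self, HahnSeries.coeff_zero]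
        · rw [Pi.sub_apply, ext_inr, sub_zero, Pi.sub_apply, HahnSeries.coeff_sub]
          rw [hwF j m (by omega), sub_self]
      have h2 := L_Pol0 hL h1
      rw [map_sub, map_sub, L_W hL hw, sub_zero, hF, sub_eq_zero] at h2
      exact h2.symm
    · intro f
      rw [LinearMap.comp_apply, hL]
      constructor
      · rintro ⟨p, hp, hfp⟩
        refine ⟨fun i => p (Sum.inl i), ⟨p, hp, fun j m hm => ?_, fun i => rfl⟩, fun i m hm => ?_⟩
        · have h3 := hfp (Sum.inr j) m (by omega)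
          rw [Pi.sub_apply, ext_inr, zero_sub, HahnSeries.coeff_neg, neg_eq_zero] at h3
          exact h3
        · exact hfp (Sum.inl i) m hm
      · rintro ⟨p, ⟨w, hw, h1, h2⟩, hfp⟩
        refine ⟨w, hw, ?_⟩
        intro k m hm
        rcases k with i | j
        · rw [Pi.sub_apply, ext_inl, h2]
          exact hfp i m hm
        · rw [Pi.sub_apply, ext_inr, zero_sub, HahnSeries.coeff_neg, h1 j m (by omega), neg_zero]

theorem bc_Rem_le (W : Subalgebra A (KK (I ⊕ J) A)) (φ : A →+* B) :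
    bc φ (Rem W) ≤ Rem (bc φ W) := by
  refine Algebra.adjoin_le ?_
  rintro _ ⟨f, ⟨w, hw, h1, h2⟩, rfl⟩
  refine ⟨kmap φ w, kmap_mem_bc φ hw, fun j m hm => ?_, fun i => ?_⟩
  · rw [kmap_apply, lmap_coeff, h1 j m hm, map_zero]
  · rw [kmap_apply, kmap_apply, h2]

theorem Dn_bc [Fintype J] {W : Subalgebra A (KK (I ⊕ J) A)} (hD : Dn W) (φ : A →+* B) :
    Dn (bc φ W) := by
  classical
  intro f M
  obtain ⟨n, hn⟩ := exists_Pol f
  choose w hw hwc using fun q : J × ℤ => hD (mon q.1 q.2 (1 : A)) M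
  refine ⟨∑ j : J, ∑ m ∈ Finset.Ico (-(n : ℤ)) M, (f j).coeff m • kmap φ (w (j, m)), ?_, ?_⟩
  · refine Subalgebra.sum_mem _ fun j _ => Subalgebra.sum_mem _ fun m _ => ?_
    exact Subalgebra.smul_mem _ (kmap_mem_bc φ (hw (j, m))) _
  · intro j l hl
    have h1 : ∀ j' : J, ((∑ m ∈ Finset.Ico (-(n : ℤ)) M, (f j').coeff m • kmap φ (w (j', m)))
        (Sum.inr j)).coeff l = if j' = j then (f j).coeff l else 0 := by
      intro j'
      rw [Finset.sum_apply, HahnSeries.coeff_sum]
      have h2 : ∀ m, (((f j').coeff m • kmap φ (w (j', m))) (Sum.inr j)).coeff l =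
          (f j').coeff m * (if j = j' ∧ l = m then 1 else 0) := by
        intro m
        rw [Pi.smul_apply, HahnSeries.coeff_smul, smul_eq_mul, kmap_apply, lmap_coeff,
          hwc (j', m) j l hl, mon_coeff]
        congr 1
        split_ifs <;> simp
      simp only [h2]
      by_cases h : j' = j
      · subst h
        simp only [true_and, mul_ite, mul_one, mul_zero, if_true]
        rw [Finset.sum_ite_eq]
        split_ifs with h3
        · rfl
        · rw [Finset.mem_Ico, not_and_or] at h3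
          rcases h3 with h3 | h3
          · exact (hn j' l (by omega)).symm
          · exact absurd hl h3
      · rw [if_neg h]
        refine Finset.sum_eq_zero fun m _ => ?_
        rw [if_neg (fun h3 => h h3.1.symm), mul_zero]
    rw [Finset.sum_apply, HahnSeries.coeff_sum]
    simp only [h1, Finset.sum_ite_eq', Finset.mem_univ, if_true]

/-- An element which vanishes at `I` vanishes. -/
theorem inj_I [Fintype J] [Fintype I] [Nonempty I] {h : ℕ} {W : Subalgebra A (KK (I ⊕ J) A)}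
    (hW : IsKr h W) (hD : Dn W) (w : KK (I ⊕ J) A) (hw : w ∈ W)
    (h0 : ∀ i, w (Sum.inl i) = 0) : w = 0 := by
  classical
  obtain ⟨i₀⟩ := (inferInstance : Nonempty I)
  -- a regular element which vanishes at `I` is zero
  have key : ∀ x ∈ W, (∀ i, x (Sum.inl i) = 0) →
      (∀ j, ∀ m < 0, (x (Sum.inr j)).coeff m = 0) → x = 0 := by
    intro x hx hx0 hxr
    obtain ⟨a, ha⟩ := hW.k1 x hx (by
      intro k m hm
      rcases k with i | j
      · rw [hx0, HahnSeries.coeff_zero]
      · exact hxr j m (by omega))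
    have h1 := congrArg (fun f : KK (I ⊕ J) A => (f (Sum.inl i₀)).coeff 0) ha
    simp only [hx0, Pi.algebraMap_apply, coeff_algebraMap, HahnSeries.coeff_zero, if_true] at h1
    rw [ha, ← h1, map_zero]
  obtain ⟨n, hn⟩ := exists_Pol w
  obtain ⟨s, hs, hsc⟩ := hD (fun _ => HahnSeries.single (n : ℤ) (1 : A)) (2 * n + 1)
  obtain ⟨a, ha, hac⟩ := hD (fun _ => HahnSeries.single (-(n : ℤ)) (1 : A)) (2 * n + 1)
  have hs1 : ∀ j, ∀ m < (n : ℤ), (s (Sum.inr j)).coeff m = 0 := by
    intro j m hm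
    rw [hsc j m (by omega), HahnSeries.coeff_single_of_ne (by omega)]
  have ha1 : ∀ j, ∀ m < -(n : ℤ), (a (Sum.inr j)).coeff m = 0 := by
    intro j m hm
    rw [hac j m (by omega), HahnSeries.coeff_single_of_ne (by omega)]
  have h1 : s * w = 0 := by
    refine key _ (mul_mem hs hw) (fun i => by rw [Pi.mul_apply, h0, mul_zero]) fun j m hm => ?_
    rw [Pi.mul_apply]
    exact mul_low (hs1 j) (fun m hm => hn (Sum.inr j) m hm) m (by omega)
  have h2 : ∀ j, ∀ m < (n : ℤ), ((a * s - 1) (Sum.inr j)).coeff m = 0 := by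
    intro j m hm
    have e1 : (a * s - 1) (Sum.inr j) =
        (a (Sum.inr j) - HahnSeries.single (-(n : ℤ)) (1 : A)) * s (Sum.inr j) +
        HahnSeries.single (-(n : ℤ)) (1 : A) *
          (s (Sum.inr j) - HahnSeries.single (n : ℤ) (1 : A)) := by
      have e2 : (HahnSeries.single (-(n : ℤ)) (1 : A) : LaurentSeries A) *
          HahnSeries.single (n : ℤ) (1 : A) = 1 := by
        rw [HahnSeries.single_mul_single, neg_add_cancel, mul_one]
        rfl
      rw [Pi.sub_apply, Pi.mul_apply, Pi.one_apply, mul_sub, e2]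
      ring
    rw [e1, HahnSeries.coeff_add]
    have e3 : ∀ m < (2 * n + 1 : ℤ),
        (a (Sum.inr j) - HahnSeries.single (-(n : ℤ)) (1 : A)).coeff m = 0 := by
      intro m hm
      rw [HahnSeries.coeff_sub, hac j m hm, sub_self]
    have e4 : ∀ m < (2 * n + 1 : ℤ),
        (s (Sum.inr j) - HahnSeries.single (n : ℤ) (1 : A)).coeff m = 0 := by
      intro m hm
      rw [HahnSeries.coeff_sub, hsc j m hm, sub_self]
    have e5 : ∀ m < -(n : ℤ),
        (HahnSeries.single (-(n : ℤ)) (1 : A) : LaurentSeries A).coeff m = 0 := fun m hm =>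
      HahnSeries.coeff_single_of_ne (by omega)
    rw [mul_low e3 (hs1 j) m (by omega), mul_low e5 e4 m (by omega), add_zero]
  have h3 : (a * s - 1) * w = 0 := by
    refine key _ (mul_mem (sub_mem (mul_mem ha hs) (one_mem W)) hw)
      (fun i => by rw [Pi.mul_apply, h0, mul_zero]) fun j m hm => ?_
    rw [Pi.mul_apply]
    exact mul_low (h2 j) (fun m hm => hn (Sum.inr j) m hm) m (by omega)
  calc w = a * (s * w) - (a * s - 1) * w := by ring
    _ = 0 := by rw [h1, h3, mul_zero, sub_zero]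

theorem mem_reix {I' : Type} (e : I' ≃ I) (P : Subalgebra A (KK I A)) (f : KK I' A) :
    f ∈ reix e P ↔ (fun i => f (e.symm i)) ∈ P := Iff.rfl

theorem bc_reix {I' : Type} (φ : A →+* B) (e : I' ≃ I) (P : Subalgebra A (KK I A)) :
    bc φ (reix e P) = reix e (bc φ P) := by
  apply le_antisymm
  · refine Algebra.adjoin_le ?_
    rintro _ ⟨f, hf, rfl⟩
    exact kmap_mem_bc φ (P := P) hf
  · have h1 : bc φ P ≤ reix e.symm (bc φ (reix e P)) := by
      refine Algebra.adjoin_le ?_
      rintro _ ⟨f, hf, rfl⟩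
      have h2 : (fun i => f (e i)) ∈ reix e P := by
        rw [mem_reix]
        simpa using hf
      exact kmap_mem_bc φ h2
    intro x hx
    have h3 := h1 hx
    rw [mem_reix] at h3
    simpa using h3

theorem skr_bc (hKBC : Stmt_KBC) (hKBT : Stmt_KBT) (hSDB : Stmt_SDB) [Fintype I] [Nonempty I]
    {h : ℕ} {R : Subalgebra A (KK I A)} (hR : SKr h R) (φ : A →+* B) : SKr h (bc φ R) := by
  refine ⟨(hKBC.2.2.2 hR.kr φ).1, ?_, (hSDB hR.kr hR.smc φ).1, (hSDB hR.kr hR.smc φ).2.1 hR.dual⟩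
  letI := φ.toAlgebra
  obtain ⟨e, _⟩ := (hKBT (B := B) hR.kr).2
  haveI := hR.fs
  have h1 : Algebra.FormallySmooth B (B ⊗[A] R) := inferInstance
  exact Algebra.FormallySmooth.of_equiv e

end

end MCBaux

open _root_.Pool.Agent.MG.G0.MCBaux in
theorem t_MCB (hKEQ : Stmt_KEQ) (hKBC : Stmt_KBC) (_hKNZ : Stmt_KNZ) (hKAU : Stmt_KAU)
    (hKBT : Stmt_KBT) (hSDB : Stmt_SDB) (_hMPG : Stmt_MPG) : Stmt_MCB := by
  have main : ∀ {I J A B : Type} [Fintype I] [Nonempty I] [Fintype J] [CommRing A] [CommRing B]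
      {h : ℕ} {W : Subalgebra A (KK (I ⊕ J) A)}, IsKr h W → Dn W → IsKr h (Rem W) ∧
      ∀ φ : A →+* B, Dn (bc φ W) ∧ Rem (bc φ W) = bc φ (Rem W) ∧
        ∀ w ∈ bc φ W, (∀ i, w (Sum.inl i) = 0) → w = 0 := by
    intro I J A B _ _ _ _ _ h W hW hD
    refine ⟨isKr_Rem hW hD, fun φ => ?_⟩
    have hDB := Dn_bc hD φ
    have hWB : IsKr h (bc φ W) := (hKBC.2.2.2 hW φ).1
    refine ⟨hDB, ?_, fun w hw h0 => inj_I hWB hDB w hw h0⟩
    have h1 : IsKr h (bc φ (Rem W)) := (hKBC.2.2.2 (isKr_Rem hW hD) φ).1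
    have h2 : IsKr h (Rem (bc φ W)) := isKr_Rem hWB hDB
    exact (hKEQ h1 h2 (bc_Rem_le W φ)).symm
  refine ⟨main, fun φ e P => bc_reix φ e P, ?_⟩
  intro B₀ A I₁ I₂ _ _ _ _ _ _ h R₁ R₂ R₁₂ hC φ
  obtain ⟨e, he⟩ : ∃ e : I₂ ⊕ I₁ ≃ I₁ ⊕ I₂, e = Equiv.sumComm I₂ I₁ := ⟨_, rfl⟩
  have hf2 := hC.f2
  have hd2 := hC.d2
  rw [← he] at hf2 hd2
  have hW' : IsKr h (reix e R₁₂) := hKAU.2 _ e hC.s12.kr
  obtain ⟨a1, a2, a3⟩ := (main hC.s12.kr hC.d1).2 φ
  obtain ⟨b1, b2, b3⟩ := (main hW' hd2).2 φ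
  rw [bc_reix] at b1 b2 b3
  refine ⟨skr_bc hKBC hKBT hSDB hC.s1 φ, skr_bc hKBC hKBT hSDB hC.s2 φ,
    skr_bc hKBC hKBT hSDB hC.s12 φ, ?_, ?_, a1, ?_, a3, ?_⟩
  · rw [a2, ← hC.f1]
  · rw [← he, b2, ← hf2]
  · rw [← he]
    exact b1
  · intro w hw h0
    have h1 : (fun k => w (e k)) ∈ reix e (bc φ R₁₂) := by
      rw [mem_reix]
      simpa using hw
    have h2 := b3 _ h1 (by
      intro i
      change w (e (Sum.inl i)) = 0
      rw [he]
      exact h0 i)
    funext k
    have h3 := congrFun h2 (e.symm k)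
    simpa using h3

end Pool.Agent.MG.G0


end

section

/-!
# NPA: normalization of a node over a field: formal points (PAPER_NP.md)
-/

open Polynomial

namespace Pool.Agent.MG.G0

namespace NPAx

/-! ### Derivations at a point of `R` -/

section der

variable {κ : Type} [Field κ] {d : ℕ} {R : Subalgebra κ (LaurentSeries κ)}

/-- polynomials in `z` as elements of `R` -/
noncomputable def Z (hz : zz κ d ∈ R) : κ[X] →ₐ[κ] R := Polynomial.aeval (⟨zz κ d, hz⟩ : R)

theorem Z_val (hz : zz κ d ∈ R) (a : κ[X]) :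
    ((Z hz a : R) : LaurentSeries κ) = zpol κ d a := by
  have h := Polynomial.aeval_algHom_apply R.val (⟨zz κ d, hz⟩ : R) a
  exact h.symm

theorem p_Z (hz : zz κ d ∈ R) (p : R →ₐ[κ] κ) (c : κ) (hp : p ⟨zz κ d, hz⟩ = c) (a : κ[X]) :
    p (Z hz a) = a.eval c := by
  have h := Polynomial.aeval_algHom_apply p (⟨zz κ d, hz⟩ : R) a
  rw [hp] at h
  rw [Z, ← h]
  exact Polynomial.coe_aeval_eq_eval c ▸ rfl

theorem E_Z (hz : zz κ d ∈ R) (p : R →ₐ[κ] κ) (E : R →ₗ[κ] κ)
    (hE : ∀ x y, E (x * y) = p x * E y + p y * E x) (hEz : E ⟨zz κ d, hz⟩ = 0) (a : κ[X]) :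
    E (Z hz a) = 0 := by
  have h1 : E 1 = 0 := by
    have := hE 1 1
    rw [mul_one, map_one p, one_mul] at this
    exact left_eq_add.1 this
  have hpow : ∀ n : ℕ, E ((⟨zz κ d, hz⟩ : R) ^ n) = 0 := by
    intro n
    induction n with
    | zero => rw [pow_zero, h1]
    | succ n ih => rw [pow_succ, hE, ih, hEz, mul_zero, mul_zero, add_zero]
  induction a using Polynomial.induction_on' with
  | add a b ha hb => rw [map_add, map_add, ha, hb, add_zero]
  | monomial n b =>
    rw [Z, Polynomial.aeval_monomial, ← Algebra.smul_def, map_smul, hpow, smul_zero]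

theorem zpol_inj (hd : 0 < d) {e : Fin d → LaurentSeries κ} (hb : ZBas d R e)
    (hz : zz κ d ∈ R) {a b : κ[X]} (h : zpol κ d a = zpol κ d b) : a = b := by
  have hm : zpol κ d a * e ⟨0, hd⟩ ∈ R := by
    rw [← Z_val hz]
    exact mul_mem (Z hz a).2 (hb.mem _)
  obtain ⟨c, _, hu⟩ := hb.uni _ hm
  have h1 := hu (Pi.single ⟨0, hd⟩ a) (by
    simp only [Pi.single_apply]
    rw [Finset.sum_eq_single (⟨0, hd⟩ : Fin d)]
    · rw [if_pos rfl]
    · intro i _ hi
      rw [if_neg hi, map_zero, zero_mul]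
    · intro hi
      exact absurd (Finset.mem_univ _) hi)
  have h2 := hu (Pi.single ⟨0, hd⟩ b) (by
    simp only [Pi.single_apply]
    rw [Finset.sum_eq_single (⟨0, hd⟩ : Fin d)]
    · rw [if_pos rfl, h]
    · intro i _ hi
      rw [if_neg hi, map_zero, zero_mul]
    · intro hi
      exact absurd (Finset.mem_univ _) hi)
  have h3 := congrFun (h1.trans h2.symm) ⟨0, hd⟩
  rwa [Pi.single_eq_same, Pi.single_eq_same] at h3

/-- A derivation `R → κ` at a point which is unramified over the `z`-line and which kills `z` is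
zero. -/
theorem der_zero (hZDU : Stmt_ZDU) {g : ℕ} (hd : 0 < d) (hdκ : (d : κ) ≠ 0) (hR : Kr g R)
    (hz : zz κ d ∈ R) {h : κ[X]} {c : κ} (hD : Disc d R h) (hc : h.eval c ≠ 0) (p : R →ₐ[κ] κ)
    (hpz : p ⟨zz κ d, hz⟩ = c) (E : R →ₗ[κ] κ)
    (hE : ∀ x y, E (x * y) = p x * E y + p y * E x) (hEz : E ⟨zz κ d, hz⟩ = 0) (r : R) :
    E r = 0 := by
  obtain ⟨e, G, hb, hG, u, hu, hGu⟩ := hD
  obtain ⟨hdet, es, _, hes2, hes3, hes4⟩ := (hZDU hd hdκ R hR hz).2 e G hb hG
  have inj : ∀ {a b : κ[X]}, zpol κ d a = zpol κ d b → a = b := fun h => zpol_inj hd hb hz h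
  -- the matrix of `r`
  have hH : ∀ j, ∃ c : Fin d → κ[X], (r : LaurentSeries κ) * e j = ∑ i, zpol κ d (c i) * e i :=
    fun j => (hb.uni _ (mul_mem r.2 (hb.mem j))).exists
  choose H' hH using hH
  set H : Matrix (Fin d) (Fin d) κ[X] := Matrix.of H' with hHdef
  have hH2 : ∀ j, (r : LaurentSeries κ) * e j = ∑ k, zpol κ d (H j k) * e k := hH
  -- self-adjointness
  have hadj : H * G = G * H.transpose := by
    ext1 i j
    apply inj
    have h1 : zpol κ d ((H * G) i j) = pr0 κ d ((r : LaurentSeries κ) * e i * e j) := by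
      rw [Matrix.mul_apply, map_sum, hH2 i, Finset.sum_mul, map_sum]
      refine Finset.sum_congr rfl fun k _ => ?_
      rw [map_mul, hG k j, mul_assoc, pr0_zpol_mul]
    have h2 : zpol κ d ((G * H.transpose) i j) = pr0 κ d (e i * ((r : LaurentSeries κ) * e j)) := by
      rw [Matrix.mul_apply, map_sum, hH2 j, Finset.mul_sum, map_sum]
      refine Finset.sum_congr rfl fun k _ => ?_
      rw [map_mul, hG i k, Matrix.transpose_apply, mul_left_comm, pr0_zpol_mul, mul_comm]
    rw [h1, h2]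
    congr 1
    ring
  have hadj2 : G.adjugate * H = H.transpose * G.adjugate := by
    have h1 : G.adjugate * (H * G) * G.adjugate = G.adjugate * (G * H.transpose) * G.adjugate := by
      rw [hadj]
    have h2 : G.adjugate * (H * G) * G.adjugate = G.det • (G.adjugate * H) := by
      rw [← mul_assoc, mul_assoc (G.adjugate * H), Matrix.mul_adjugate, Matrix.mul_smul, mul_one]
    have h3 : G.adjugate * (G * H.transpose) * G.adjugate = G.det • (H.transpose * G.adjugate) := by
      rw [← mul_assoc, Matrix.adjugate_mul, Matrix.smul_mul, one_mul, Matrix.smul_mul]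
    rw [h2, h3] at h1
    ext1 i j
    have h4 := congrFun (congrFun h1 i) j
    rw [Matrix.smul_apply, Matrix.smul_apply, smul_eq_mul, smul_eq_mul] at h4
    exact mul_left_cancel₀ hdet h4
  -- elements of `R`
  set eR : Fin d → R := fun j => ⟨e j, hb.mem j⟩ with heR
  set D : Fin d → R := fun k => ∑ i, Z hz (G.adjugate k i) * eR i with hDdef
  have r1 : ∀ j, r * eR j = ∑ k, Z hz (H j k) * eR k := by
    intro j
    apply Subtype.ext
    rw [MulMemClass.coe_mul, hH2 j, AddSubmonoidClass.coe_finsetSum]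
    refine Finset.sum_congr rfl fun k _ => ?_
    rw [MulMemClass.coe_mul, Z_val]
  have r2 : ∀ k, r * D k = ∑ j, Z hz (H j k) * D j := by
    intro k
    have h1 : r * D k = ∑ l, Z hz ((G.adjugate * H) k l) * eR l := by
      simp only [hDdef]
      rw [Finset.mul_sum]
      have h2 : ∀ i, r * (Z hz (G.adjugate k i) * eR i) =
          ∑ l, Z hz (G.adjugate k i * H i l) * eR l := by
        intro i
        rw [mul_left_comm, r1 i, Finset.mul_sum]
        refine Finset.sum_congr rfl fun l _ => ?_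
        rw [map_mul, mul_assoc]
      rw [Finset.sum_congr rfl fun i _ => h2 i, Finset.sum_comm]
      refine Finset.sum_congr rfl fun l _ => ?_
      rw [← Finset.sum_mul, ← map_sum, Matrix.mul_apply]
    have h3 : ∑ j, Z hz (H j k) * D j = ∑ l, Z hz ((H.transpose * G.adjugate) k l) * eR l := by
      simp only [hDdef, Finset.mul_sum]
      rw [Finset.sum_comm]
      refine Finset.sum_congr rfl fun l _ => ?_
      rw [Matrix.mul_apply, map_sum, Finset.sum_mul]
      refine Finset.sum_congr rfl fun j _ => ?_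
      rw [map_mul, mul_assoc, Matrix.transpose_apply]
    rw [h1, h3, hadj2]
  have r3 : ∑ j, D j * eR j = (d : R) * Z hz G.det := by
    have hy : ∑ j, e j * es j = (d : LaurentSeries κ) := by
      set w := ∑ j, e j * es j - (d : LaurentSeries κ) with hw
      have hw0 : ∀ x, pr0 κ d (w * x) = 0 := by
        intro x
        have h1 : w * x = ∑ j, x * e j * es j - d • x := by
          rw [hw, sub_mul, Finset.sum_mul, nsmul_eq_mul]
          congr 1
          refine Finset.sum_congr rfl fun j _ => ?_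
          ring
        rw [h1, map_sub, map_sum, hes3 x, map_nsmul, nsmul_eq_mul, sub_self]
      have h2 : w = 0 := by
        rw [hes2 w]
        refine Finset.sum_eq_zero fun j _ => ?_
        rw [hw0, zero_mul]
      exact sub_eq_zero.1 h2
    have hDv : ∀ j, ((D j : R) : LaurentSeries κ) = zpol κ d G.det * es j := by
      intro j
      rw [hes4 j]
      simp only [hDdef]
      rw [AddSubmonoidClass.coe_finsetSum]
      refine Finset.sum_congr rfl fun i _ => ?_
      rw [MulMemClass.coe_mul, Z_val]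
    apply Subtype.ext
    rw [AddSubmonoidClass.coe_finsetSum, MulMemClass.coe_mul, Z_val]
    have h5 : ∀ j, ((D j * eR j : R) : LaurentSeries κ) = zpol κ d G.det * (e j * es j) := by
      intro j
      rw [MulMemClass.coe_mul, hDv]
      simp only [heR]
      ring
    rw [Finset.sum_congr rfl fun j _ => h5 j, ← Finset.mul_sum, hy, mul_comm]
    rfl
  -- the two evaluations
  have s1 : ∑ j, p (D j) * E (r * eR j) = p r * ∑ k, p (D k) * E (eR k) := by
    have h1 : ∀ j, E (r * eR j) = ∑ k, (H j k).eval c * E (eR k) := by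
      intro j
      rw [r1 j, map_sum]
      refine Finset.sum_congr rfl fun k _ => ?_
      rw [hE, E_Z hz p E hE hEz, mul_zero, add_zero, p_Z hz p c hpz]
    have h2 : ∀ j, p (D j) * E (r * eR j) = ∑ k, p (Z hz (H j k) * D j) * E (eR k) := by
      intro j
      rw [h1 j, Finset.mul_sum]
      refine Finset.sum_congr rfl fun k _ => ?_
      rw [map_mul, p_Z hz p c hpz]
      ring
    rw [Finset.sum_congr rfl fun j _ => h2 j, Finset.sum_comm, Finset.mul_sum]
    refine Finset.sum_congr rfl fun k _ => ?_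
    rw [← Finset.sum_mul, ← map_sum, ← r2 k, map_mul, mul_assoc]
  have s2 : ∑ j, p (D j) * E (r * eR j) =
      p r * ∑ k, p (D k) * E (eR k) + p (∑ j, D j * eR j) * E r := by
    rw [map_sum, Finset.sum_mul, Finset.mul_sum, ← Finset.sum_add_distrib]
    refine Finset.sum_congr rfl fun j _ => ?_
    rw [hE, map_mul]
    ring
  have s3 : p (∑ j, D j * eR j) * E r = 0 := by
    have := s1.symm.trans s2
    exact left_eq_add.1 this
  rw [r3, map_mul, map_natCast, p_Z hz p c hpz, hGu, eval_mul] at s3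
  have hu0 : u.eval c ≠ 0 := (hu.map (evalRingHom c)).ne_zero
  exact (mul_eq_zero.1 s3).resolve_left (mul_ne_zero hdκ (mul_ne_zero hu0 hc))

end der

/-! ### Coordinate change of power series -/

section coord

variable {A : Type} [CommRing A]

theorem psl_coeff (f : PowerSeries A) (n : ℕ) :
    (psl A f).coeff (n : ℤ) = PowerSeries.coeff n f := HahnSeries.ofPowerSeries_apply_coeff f n

theorem psl_Po (f : PowerSeries A) : psl A f ∈ Po A 0 := by
  intro m hm
  refine HahnSeries.embDomain_of_notMem_range ?_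
  rintro ⟨k, hk⟩
  have : (k : ℤ) = m := hk
  omega

theorem psl_injective : Function.Injective (psl A) := HahnSeries.ofPowerSeries_injective

theorem exists_psl {f : LaurentSeries A} (h : f ∈ Po A 0) : ∃ a : PowerSeries A, psl A a = f := by
  refine ⟨PowerSeries.mk fun n => f.coeff (n : ℤ), ?_⟩
  ext m
  rcases lt_or_ge m 0 with hm | hm
  · rw [psl_Po _ m (by omega), h m (by omega)]
  · obtain ⟨n, rfl⟩ := Int.eq_ofNat_of_zero_le hm
    rw [psl_coeff, PowerSeries.coeff_mk]

/-- the inverse of the coordinate change `u ↦ w` on power series -/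
theorem exists_inv (hSUB : Stmt_SUB) (w : PowerSeries A) (h0 : PowerSeries.constantCoeff w = 0)
    (h1 : IsUnit (PowerSeries.coeff 1 w)) :
    ∃ σ : PowerSeries A →ₐ[A] PowerSeries A, σ w = PowerSeries.X ∧
      ∀ f, PowerSeries.constantCoeff (σ f) = PowerSeries.constantCoeff f := by
  obtain ⟨Φ, hΦ⟩ := hSUB.1 w h0 h1
  obtain ⟨_, hPo, _, _, _, _, _⟩ := hSUB.2.1 w h0 h1 _ hΦ
  have hPo' : ∀ (n : ℤ) (f : LaurentSeries A), Φ f ∈ Po A n ↔ f ∈ Po A n := hPo
  have hsymm : ∀ (n : ℤ) (f : LaurentSeries A), Φ.symm f ∈ Po A n ↔ f ∈ Po A n := by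
    intro n f
    rw [← hPo' n (Φ.symm f), AlgEquiv.apply_symm_apply]
  have hex : ∀ f : PowerSeries A, ∃ a : PowerSeries A, psl A a = Φ.symm (psl A f) := fun f =>
    exists_psl ((hsymm 0 _).2 (psl_Po f))
  choose σ hσ using hex
  have hC : ∀ a : A, psl A (algebraMap A (PowerSeries A) a) = algebraMap A (LaurentSeries A) a :=
    fun a => HahnSeries.ofPowerSeries_C a
  refine ⟨
    { toFun := σ
      map_one' := psl_injective (by rw [hσ, map_one, map_one])
      map_mul' := fun f g => psl_injective (by rw [hσ, map_mul, map_mul, map_mul, hσ, hσ])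
      map_zero' := psl_injective (by rw [hσ, map_zero, map_zero])
      map_add' := fun f g => psl_injective (by rw [hσ, map_add, map_add, map_add, hσ, hσ])
      commutes' := fun a => psl_injective (by rw [hσ, hC, AlgEquiv.commutes]) }, ?_, ?_⟩
  · change σ w = PowerSeries.X
    apply psl_injective
    have htau : Φ (HahnSeries.single 1 1) = psl A w := hΦ.tau
    rw [hσ, ← htau, AlgEquiv.symm_apply_apply]
    exact HahnSeries.ofPowerSeries_X.symm
  · intro f
    change PowerSeries.constantCoeff (σ f) = PowerSeries.constantCoeff f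
    have h2 : psl A (f - PowerSeries.C (PowerSeries.constantCoeff f)) ∈ Po A (-1) := by
      intro m hm
      rcases lt_or_ge m 0 with h | h
      · exact psl_Po _ m (by omega)
      · have hm0 : m = ((0 : ℕ) : ℤ) := by omega
        rw [hm0, psl_coeff, map_sub, PowerSeries.coeff_zero_eq_constantCoeff_apply,
          PowerSeries.coeff_zero_eq_constantCoeff_apply, PowerSeries.constantCoeff_C, sub_self]
    have h3 := (hsymm (-1) _).2 h2 0 (by omega)
    have h4 : Φ.symm (psl A (f - PowerSeries.C (PowerSeries.constantCoeff f))) =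
        psl A (σ f) - algebraMap A (LaurentSeries A) (PowerSeries.constantCoeff f) := by
      have h5 : psl A (PowerSeries.C (PowerSeries.constantCoeff f)) =
          algebraMap A (LaurentSeries A) (PowerSeries.constantCoeff f) := hC _
      rw [map_sub, h5, map_sub, AlgEquiv.commutes, hσ]
    rw [h4, HahnSeries.coeff_sub, coeff_algebraMap, if_pos rfl] at h3
    have h6 := psl_coeff (σ f) 0
    rw [PowerSeries.coeff_zero_eq_constantCoeff_apply] at h6
    rw [← h6]
    exact sub_eq_zero.1 h3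

end coord

/-! ### The formal point with parameter `z - c` -/

section pt

variable {κ : Type} [Field κ] {d : ℕ} {R : Subalgebra κ (LaurentSeries κ)}

/-- the isomorphism of `uno R` and `R` -/
def un (R : Subalgebra κ (LaurentSeries κ)) : uno R →ₐ[κ] R where
  toFun x := ⟨(x : KK Unit κ) (), x.2⟩
  map_one' := rfl
  map_mul' _ _ := rfl
  map_zero' := rfl
  map_add' _ _ := rfl
  commutes' _ := rfl

theorem exists_pt (hAPT : Stmt_APT) (hSUB : Stmt_SUB) (hZDU : Stmt_ZDU) {g : ℕ} (hd : 0 < d)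
    (hdκ : (d : κ) ≠ 0) (hR : Kr g R) (hz : zz κ d ∈ R) {h : κ[X]} {c : κ} (hD : Disc d R h)
    (hc : h.eval c ≠ 0) (hfs : Algebra.FormallySmooth κ (uno R)) (hsm : SmC κ (uno R))
    (p : R →ₐ[κ] κ) (hpz : p ⟨zz κ d, hz⟩ = c) :
    ∃ pt : FPt (uno R), (∀ f, pt.ev f = p (un R f)) ∧
      ∀ z : uno R, (z : KK Unit κ) () = zz κ d → pt.h z = PowerSeries.C c + PowerSeries.X := by
  obtain ⟨pt, hpt⟩ := hAPT hfs hsm (p.comp (un R))
  set zR : uno R := ⟨fun _ => zz κ d, hz⟩ with hzR
  -- the coefficient of `u` of the expansion of `z`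
  have hne : PowerSeries.coeff 1 (pt.h zR) ≠ 0 := by
    intro h1
    have hco : ∀ a b : PowerSeries κ, PowerSeries.coeff 1 (a * b) =
        PowerSeries.constantCoeff a * PowerSeries.coeff 1 b +
          PowerSeries.constantCoeff b * PowerSeries.coeff 1 a := by
      intro a b
      rw [PowerSeries.coeff_mul, Finset.Nat.sum_antidiagonal_eq_sum_range_succ_mk]
      simp only [Finset.sum_range_succ, Finset.sum_range_zero, zero_add, Nat.sub_zero,
        Nat.sub_self, PowerSeries.coeff_zero_eq_constantCoeff_apply]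
      ring
    let up : R → uno R := fun x => ⟨fun _ => (x : LaurentSeries κ), x.2⟩
    let E : R →ₗ[κ] κ :=
      { toFun := fun x => PowerSeries.coeff 1 (pt.h (up x))
        map_add' := fun x y => by
          have h2 : up (x + y) = up x + up y := rfl
          rw [h2, map_add, map_add]
        map_smul' := fun a x => by
          have h2 : up (a • x) = a • up x := rfl
          rw [h2, map_smul, map_smul]
          rfl }
    have hE := der_zero hZDU hd hdκ hR hz hD hc p hpz E (fun x y => by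
      change PowerSeries.coeff 1 (pt.h (up (x * y))) = p x * PowerSeries.coeff 1 (pt.h (up y)) +
        p y * PowerSeries.coeff 1 (pt.h (up x))
      have h2 : up (x * y) = up x * up y := rfl
      rw [h2, map_mul, hco]
      have h3 : ∀ x, PowerSeries.constantCoeff (pt.h (up x)) = p x := fun x => hpt (up x)
      rw [h3, h3]) h1
    have h4 := hE (un R pt.x)
    exact pt.par.ne_zero h4
  have hcc : PowerSeries.constantCoeff (pt.h zR) = c := (hpt zR).trans hpz
  obtain ⟨σ, hσ1, hσ2⟩ := exists_inv hSUB (pt.h zR - PowerSeries.C c) (by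
    rw [map_sub, hcc, PowerSeries.constantCoeff_C, sub_self]) (by
    rw [map_sub, PowerSeries.coeff_C, if_neg one_ne_zero, sub_zero]
    exact IsUnit.mk0 _ hne)
  have hCa : algebraMap κ (PowerSeries κ) c = PowerSeries.C c := rfl
  have hσz : σ (pt.h zR) = PowerSeries.C c + PowerSeries.X := by
    have h5 : pt.h zR = algebraMap κ (PowerSeries κ) c + (pt.h zR - PowerSeries.C c) := by
      rw [hCa]
      ring
    rw [h5, map_add, AlgHom.commutes, hσ1, hCa]
  refine ⟨⟨σ.comp pt.h, zR, ?_⟩, fun f => ?_, fun z hz' => ?_⟩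
  · rw [AlgHom.comp_apply, hσz, map_add, PowerSeries.coeff_C, if_neg one_ne_zero, zero_add,
      PowerSeries.coeff_one_X]
    exact isUnit_one
  · change PowerSeries.constantCoeff (σ (pt.h f)) = p (un R f)
    rw [hσ2]
    exact hpt f
  · have h6 : z = zR := by
      apply Subtype.ext
      funext i
      exact hz'
    rw [h6]
    exact hσz

end pt

end NPAx

open _root_.Pool.Agent.MG.G0.NPAx in
theorem t_NPA (hAPT : Stmt_APT) (hSUB : Stmt_SUB) (hKIL : Stmt_KIL) (hKIS : Stmt_KIS)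
    (hPL2 : Stmt_PL2) (hZDU : Stmt_ZDU) (hNPG : Stmt_NPG) : Stmt_NPA := by
  intro κ _ _ g d P f h c hd hfac hP hz hDP hf hsep hc hrk
  obtain ⟨R, hR, hPR, hDR, p, q, hpq, hmem, hpqz⟩ := hNPG hd hfac hP hz hDP hf hc hrk
  have hd0 : 0 < d := by omega
  have hdκ : (d : κ) ≠ 0 := by
    intro h0
    apply hfac
    obtain ⟨k, hk⟩ := Nat.dvd_factorial hd0 (le_refl d)
    rw [hk, Nat.cast_mul, h0, zero_mul]
  have hzR : zz κ d ∈ R := hPR hz
  obtain ⟨hfs, hsm⟩ := hKIS (by omega) hfac hR hzR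
    (hKIL.1 (by omega) (IsUnit.mk0 _ hdκ) hR hzR hDR) hsep
  obtain ⟨hpz, hqz⟩ := hpqz ⟨zz κ d, hzR⟩ rfl
  obtain ⟨pp, hpp1, hpp2⟩ := exists_pt hAPT hSUB hZDU hd0 hdκ hR hzR hDR hc hfs hsm p hpz
  obtain ⟨pq, hpq1, hpq2⟩ := exists_pt hAPT hSUB hZDU hd0 hdκ hR hzR hDR hc hfs hsm q hqz
  -- the two ideals are comaximal
  have hsup : pp.id ⊔ pq.id = ⊤ := by
    obtain ⟨x, hx⟩ : ∃ x : R, p x ≠ q x := by
      by_contra hcon
      push Not at hcon
      exact hpq (AlgHom.ext hcon)
    set y : uno R := ⟨fun _ => (x : LaurentSeries κ), x.2⟩ with hy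
    have hy1 : ∀ a : κ, un R (y - algebraMap κ (uno R) a) = x - algebraMap κ R a := fun a => rfl
    rw [Ideal.eq_top_iff_one]
    have h1 : (y - algebraMap κ (uno R) (p x)) ∈ pp.id := by
      rw [FPt.mem_id, hpp1, hy1, map_sub, AlgHom.commutes, Algebra.algebraMap_self,
        RingHom.id_apply, sub_self]
    have h2 : (y - algebraMap κ (uno R) (q x)) ∈ pq.id := by
      rw [FPt.mem_id, hpq1, hy1, map_sub, AlgHom.commutes, Algebra.algebraMap_self,
        RingHom.id_apply, sub_self]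
    have h3 : (1 : uno R) = algebraMap κ (uno R) (q x - p x)⁻¹ *
        (y - algebraMap κ (uno R) (p x)) + (-algebraMap κ (uno R) (q x - p x)⁻¹) *
          (y - algebraMap κ (uno R) (q x)) := by
      have h4 : algebraMap κ (uno R) (q x - p x)⁻¹ * (y - algebraMap κ (uno R) (p x)) +
          (-algebraMap κ (uno R) (q x - p x)⁻¹) * (y - algebraMap κ (uno R) (q x)) =
          algebraMap κ (uno R) (q x - p x)⁻¹ * algebraMap κ (uno R) (q x - p x) := by
        rw [map_sub]
        ring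
      rw [h4, ← map_mul, inv_mul_cancel₀ (sub_ne_zero.2 (Ne.symm hx)), map_one]
    rw [h3]
    exact Ideal.add_mem _ (Ideal.mem_sup_left (Ideal.mul_mem_left _ _ h1))
      (Ideal.mem_sup_right (Ideal.mul_mem_left _ _ h2))
  have hdisj : Disj (fun b : Bool => if b then pp else pq) := by
    intro j k hjk
    cases j <;> cases k
    · exact absurd rfl hjk
    · change pq.id ⊔ pp.id = ⊤
      rw [sup_comm]
      exact hsup
    · exact hsup
    · exact absurd rfl hjk
  refine ⟨R, hR, hPR, hDR, hfs, hsm, fun b => if b then pp else pq, hdisj, ?_, ?_⟩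
  · intro b z hz'
    cases b
    · exact hpq2 z hz'
    · exact hpp2 z hz'
  · ext f
    rw [hPL2.2.2 hR hsm _ hdisj f]
    constructor
    · rintro ⟨r, rfl, hr⟩
      have hr' : p (un R r) = q (un R r) := by
        rw [← hpp1, ← hpq1]
        exact hr
      exact (hmem (un R r)).2 hr'
    · intro hf'
      refine ⟨⟨f, hPR hf'⟩, rfl, ?_⟩
      change pp.ev ⟨f, hPR hf'⟩ = pq.ev ⟨f, hPR hf'⟩
      rw [hpp1, hpq1]
      exact (hmem (un R ⟨f, hPR hf'⟩)).1 hf'


end Pool.Agent.MG.G0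


end

section

/-!
# TCR: the second chart
-/

namespace Pool.Agent.MG.G0

namespace TCR

theorem kmap_id {I A : Type} [CommRing A] (f : KK I A) : kmap (RingHom.id A) f = f := by
  funext i
  ext n
  rfl

theorem mem_bc_id {I A : Type} [CommRing A] {P : Subalgebra A (KK I A)} {f : KK I A}
    (hf : f ∈ P) : f ∈ bc (RingHom.id A) P := by
  have h := kmap_mem_bc (RingHom.id A) hf
  rwa [kmap_id] at h

/-- Injectivity of the component at the remaining punctures. -/
theorem inj (hMCB : Stmt_MCB) {I J A : Type} [Fintype I] [Nonempty I] [Fintype J] [CommRing A]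
    {h : ℕ} {W : Subalgebra A (KK (I ⊕ J) A)} (hW : IsKr h W) (hD : Dn W) {w : KK (I ⊕ J) A}
    (hw : w ∈ W) (h0 : ∀ i, w (Sum.inl i) = 0) : w = 0 :=
  ((hMCB.1 (B := A) hW hD).2 (RingHom.id A)).2.2 w (mem_bc_id hw) h0

end TCR

theorem t_TCR (hTDN : Stmt_TDN) (hMCB : Stmt_MCB) (hTRX : Stmt_TRX) (hTCA : Stmt_TCA)
    (hTCO : Stmt_TCO) (hTCY : Stmt_TCY) (hKAU : Stmt_KAU) : Stmt_TCR := by
  intro A κ _ _ _ _ _ r hn hfg h R P hR hP hRP hD
  have hD' : Dn (reix (Equiv.sumComm Unit Unit) P) := hTDN r hn hP.kr hD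
  have hkr' : IsKr h (reix (Equiv.sumComm Unit Unit) P) := hKAU.2 P _ hP.kr
  have hm := hMCB.1 (B := κ) hkr' hD'
  have hm' := hm.2 (r : A →+* κ)
  have hkr2 : IsKr h (Rem (reix (Equiv.sumComm Unit Unit) P)) := hm.1
  -- the special fibre
  have hbP : SKr h (bc (r : A →+* κ) P) := hTRX.1 hP (r : A →+* κ)
  have hW : SKr h (reix (Equiv.sumComm Unit Unit) (bc (r : A →+* κ) P)) := hTRX.2 _ hbP
  have he : bc (r : A →+* κ) (reix (Equiv.sumComm Unit Unit) P) =
      reix (Equiv.sumComm Unit Unit) (bc (r : A →+* κ) P) := hMCB.2.1 _ _ _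
  rw [← he] at hW
  have hO : Perp (Rem (bc (r : A →+* κ) (reix (Equiv.sumComm Unit Unit) P))) ≤
      Om (Rem (bc (r : A →+* κ) (reix (Equiv.sumComm Unit Unit) P))) :=
    hTCO hW.kr hW.smc hW.dual hm'.1
  have hkrW : IsKr h (Rem (bc (r : A →+* κ) (reix (Equiv.sumComm Unit Unit) P))) :=
    (hMCB.1 (B := κ) hW.kr hm'.1).1
  have hS := hTCY hkrW hO
  rw [hm'.2.1] at hS
  obtain ⟨hfs, hsm⟩ := hS
  obtain ⟨h1, h2, h3⟩ := hTCA r hn hkr2 hfs hsm
  have hs2 : SKr h (Rem (reix (Equiv.sumComm Unit Unit) P)) := ⟨hkr2, h1, h2, h3 inferInstance hfg⟩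
  refine ⟨Rem (reix (Equiv.sumComm Unit Unit) P), ⟨hR, hs2, hP, hRP, rfl, hD, hD', ?_, ?_⟩⟩
  · intro w hw h0
    exact TCR.inj hMCB hP.kr hD hw h0
  · intro w hw h0
    have h4 : (fun i => w (Equiv.sumComm Unit Unit i)) ∈ reix (Equiv.sumComm Unit Unit) P := by
      change (fun i => w (Equiv.sumComm Unit Unit ((Equiv.sumComm Unit Unit).symm i))) ∈ P
      have h5 : (fun i => w (Equiv.sumComm Unit Unit ((Equiv.sumComm Unit Unit).symm i))) = w := by
        funext i
        rw [Equiv.apply_symm_apply]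
      rw [h5]
      exact hw
    have h6 := TCR.inj hMCB hkr' hD' h4 (fun i => h0 i)
    funext i
    have h7 := congrFun h6 ((Equiv.sumComm Unit Unit).symm i)
    change w (Equiv.sumComm Unit Unit ((Equiv.sumComm Unit Unit).symm i)) = 0 at h7
    rw [Equiv.apply_symm_apply] at h7
    exact h7

end Pool.Agent.MG.G0


end

section

/-!
# TZF: two independent regular differentials
-/

namespace Pool.Agent.MG.G0

namespace TZF

variable {I : Type} [Fintype I] {A B : Type} [CommRing A] [CommRing B]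

/-- Two members of a basis of the regular differentials are independent after base change. -/
theorem indep {h : ℕ} {P : Subalgebra B (KK I B)} {ω : Fin h → KK I B} (hω : IsForms P ω)
    {i j : Fin h} (hij : i ≠ j) (a a' : B) (he : a • ω i = a' • ω j) : a = 0 := by
  classical
  obtain ⟨f, hf⟩ := hω.surj (fun k => if k = i then 1 else 0)
  have h1 := congrArg (fun x => res (x * f)) he
  simp only [smul_mul_assoc, map_smul, hf, smul_eq_mul] at h1
  rw [if_neg (Ne.symm hij), if_true, mul_one, mul_zero] at h1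
  exact h1

/-- A regular differential all of whose products with vector fields vanish is zero. -/
theorem zero_of {h : ℕ} [Nonempty I] (hSTO : Stmt_STO) {P : Subalgebra B (KK I B)}
    (hP : IsKr h P) (hS : SmC B P) {ω : KK I B} (hω : ∀ θ ∈ TT P, θ * ω = 0) : ω = 0 := by
  obtain ⟨-, -, -, -, hK⟩ := hSTO hP
  obtain ⟨-, ⟨n, θ, g', hθ, -, h1⟩, -⟩ := hK hS
  calc ω = (∑ i, θ i * dd (g' i)) * ω := by rw [h1, one_mul]
    _ = ∑ i, θ i * ω * dd (g' i) := by
        rw [Finset.sum_mul]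
        refine Finset.sum_congr rfl fun i _ => ?_
        ring
    _ = 0 := Finset.sum_eq_zero fun i _ => by rw [hω _ (hθ i), zero_mul]

end TZF

theorem t_TZF (hKFO : Stmt_KFO) (hKBC : Stmt_KBC) (hMCB : Stmt_MCB) (hSTO : Stmt_STO)
    (hTZU : Stmt_TZU) : Stmt_TZF := by
  intro A κ _ _ _ r hr h hh R₁ R₂ P hC
  obtain ⟨⟨ω, hω⟩, hE⟩ := hKFO hC.s12.kr
  obtain ⟨hE1, -⟩ := hE ω hω
  have hfo : ∀ {B : Type} [CommRing B] (φ : A →+* B),
      IsForms (bc φ P) fun j => kmap φ (ω j) := fun φ =>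
    (hKBC.2.2.2 hC.s12.kr φ).2.1 ω hω
  set i₀ : Fin h := ⟨0, by omega⟩ with hi₀
  set i₁ : Fin h := ⟨1, by omega⟩ with hi₁
  have hne : i₀ ≠ i₁ := by
    rw [hi₀, hi₁]
    simp
  refine ⟨ω i₀, ω i₁, hE1 _, hE1 _, ?_, ?_⟩
  · have hCk := hMCB.2.2 hC (r : A →+* κ)
    have hnz : kmap (r : A →+* κ) (ω i₀) ≠ 0 := by
      intro h0
      classical
      obtain ⟨f, hf⟩ := (hfo (r : A →+* κ)).surj (fun _ => 1)
      have h1 := hf i₀
      simp only [h0, zero_mul, map_zero] at h1
      exact zero_ne_one h1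
    have hperp : kmap (r : A →+* κ) (ω i₀) ∈ Perp (bc (r : A →+* κ) P) :=
      kmap_mem_Perp _ (hE1 i₀).1
    refine (hTZU r hr).2.1 _ fun i hi => hnz ?_
    refine TZF.zero_of hSTO hCk.s12.kr hCk.s12.smc fun θ hθ => ?_
    have hmem := hCk.s12.dual θ hθ _ hperp
    rcases i with i | i
    · refine hCk.i1 _ hmem fun i' => ?_
      rw [Pi.mul_apply, Subsingleton.elim i' i, hi, mul_zero]
    · refine hCk.i2 _ hmem fun i' => ?_
      rw [Pi.mul_apply, Subsingleton.elim i' i, hi, mul_zero]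
  · intro B _ φ a a' he
    exact ⟨TZF.indep (hfo φ) hne.symm a a' he, TZF.indep (hfo φ) hne a' a he.symm⟩

end Pool.Agent.MG.G0


end

section

/-!
# The final statement on Krichever rings: assembly
-/

open Polynomial

namespace Pool.Agent.MG.G0

namespace UFI

theorem kr_bc1 (hKBC : Stmt_KBC) {A B : Type} [CommRing A] [CommRing B] {g : ℕ}
    {R : Subalgebra A (LaurentSeries A)} (h : Kr g R) (φ : A →+* B) : Kr g (bc1 φ R) := by
  have h1 := (hKBC.2.2.2 (P := uno R) h φ).1
  rw [bc_uno] at h1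
  exact h1

theorem zz_bc1 {A B : Type} [CommRing A] [CommRing B] {d : ℕ}
    {R : Subalgebra A (LaurentSeries A)} (h : zz A d ∈ R) (φ : A →+* B) : zz B d ∈ bc1 φ R := by
  rw [← lmap_zz φ d]
  exact Algebra.subset_adjoin ⟨zz A d, h, rfl⟩

theorem map_sc_one {A : Type} [CommRing A] (R : Subalgebra A (LaurentSeries A)) :
    R.map (sc (1 : Aˣ)) = R := by
  ext f
  rw [Subalgebra.mem_map]
  constructor
  · rintro ⟨x, hx, rfl⟩
    rwa [sc_one]
  · intro hf
    exact ⟨f, hf, sc_one f⟩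

theorem mprod {A B : Type} [CommRing A] [CommRing B] (φ : A →+* B) {b : ℕ} (r : Fin b → A) :
    (∏ l, (X - C (r l))).map φ = ∏ l, (X - C (φ (r l))) := by
  rw [Polynomial.map_prod]
  refine Finset.prod_congr rfl fun l _ => ?_
  rw [Polynomial.map_sub, Polynomial.map_X, Polynomial.map_C]

theorem bc1_comp (hKBC : Stmt_KBC) {A B C' : Type} [CommRing A] [CommRing B] [CommRing C']
    (φ : A →+* B) (ψ : B →+* C') (R : Subalgebra A (LaurentSeries A)) :
    bc1 (ψ.comp φ) R = bc1 ψ (bc1 φ R) := by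
  have h1 := hKBC.2.1 φ ψ (uno R)
  rw [bc_uno, bc_uno, bc_uno] at h1
  rw [← duo_uno (bc1 (ψ.comp φ) R), h1, duo_uno]

theorem natDegree_mprod {K : Type} [Field K] {b : ℕ} (r : Fin b → K) :
    (∏ l, (X - C (r l))).natDegree = b := by
  rw [natDegree_prod_of_monic _ _ fun l _ => monic_X_sub_C _]
  simp

theorem factorial_ne {K : Type} [Field K] [Algebra ℂ K] (n : ℕ) : ((n.factorial : ℕ) : K) ≠ 0 := by
  have : CharZero K := charZero_of_injective_algebraMap (algebraMap ℂ K).injective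
  exact Nat.cast_ne_zero.2 (Nat.factorial_ne_zero n)

/-- An element of the field of constants which comes from the valuation ring is its own
residue. -/
theorem rs_const {k O L : Type} [Field k] [CommRing O] [IsDomain O] [Field L] [Algebra k L]
    [Algebra k O] [Algebra O L] [IsScalarTower k O L] {g d : ℕ}
    {R : Subalgebra L (LaurentSeries L)} (M : Mdl k O L g d R) {x : O} {a : k}
    (h : algebraMap O L x = algebraMap k L a) : M.rs x = a := by
  have hfrac : IsFractionRing O L := M.frac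
  have h1 : x = algebraMap k O a := by
    apply IsFractionRing.injective O L
    rw [h, IsScalarTower.algebraMap_apply k O L]
  rw [h1]
  exact M.rs.commutes a

end UFI

open _root_.Pool.Agent.MG.G0.UFI in
theorem t_UFI (hKBC : Stmt_KBC) (hGRA : Stmt_GRA) (hUGL : Stmt_UGL) (hUNO : Stmt_UNO)
    (hUGN : Stmt_UGN) (hUH1 : Stmt_UH1) (hUSC : Stmt_USC) (hUSN : Stmt_USN) (hUM1 : Stmt_UM1)
    (hUM2 : Stmt_UM2) (hUSX : Stmt_USX) (hUIN : Stmt_UIN) (hUVK : Stmt_UVK) (hUZU : Stmt_UZU)
    (hUM0 : Stmt_UM0) (hMSM : Stmt_MSM) : Stmt_UFI := by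
  intro g hg
  obtain ⟨k, L, ik, iak, iL, aCk, aCL, akL, tw, R, r, hkr, hz, hdisc, hind,
    ⟨v, ζ, hTst, hc, hRG, β, hβ, hdβ⟩, hconst, hform⟩ := hUZU g (by omega)
  have chL : CharZero L := charZero_of_injective_algebraMap (algebraMap ℂ L).injective
  have hd1 : 1 ≤ 6 * g + 9 := by omega
  have hd2 : 2 ≤ 6 * g + 9 := by omega
  have hrinj : Function.Injective r := hind.injective
  have hsep : (∏ l, (X - C (r l))).Separable := separable_prod_X_sub_C_iff.2 hrinj
  -- the algebraic closure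
  let φ : L →ₐ[ℂ] AlgebraicClosure L := IsScalarTower.toAlgHom ℂ L (AlgebraicClosure L)
  have hφ : (φ : L →+* AlgebraicClosure L) = algebraMap L (AlgebraicClosure L) := rfl
  have hGL := hUGL hd1 hkr hz hdisc hsep
  have hGK := hGL.2.2.2.2 (φ : L →+* AlgebraicClosure L)
  have hkrK : Kr g (bc1 (φ : L →+* AlgebraicClosure L) R) := kr_bc1 hKBC hkr _
  have hzK : zz (AlgebraicClosure L) (6 * g + 9) ∈ bc1 (φ : L →+* AlgebraicClosure L) R :=
    zz_bc1 hz _
  have hdK : Disc (6 * g + 9) (bc1 (φ : L →+* AlgebraicClosure L) R)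
      (∏ l, (X - C (φ (r l)))) := by
    have h1 := hGK.2.2
    rw [mprod] at h1
    exact h1
  have hsepK : (∏ l, (X - C (φ (r l)))).Separable :=
    separable_prod_X_sub_C_iff.2 ((φ : L →+* AlgebraicClosure L).injective.comp hrinj)
  have hindK : AlgebraicIndependent ℂ fun l => φ (r l) :=
    hind.map' (f := φ) (φ : L →+* AlgebraicClosure L).injective
  -- Noether's theorem
  have hRGb := hGRA g (by omega)
  have hb := hRGb.2.1 ζ v.M.Pb hRG
  have hbcv : bc1 ((φ : L →+* AlgebraicClosure L).comp (algebraMap v.O L)) v.M.P =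
      bc1 (φ : L →+* AlgebraicClosure L) R := by
    rw [bc1_comp hKBC, v.M.bc, hc, map_sc_one]
  have hfrac : IsFractionRing v.O L := v.M.frac
  have hNoe : Noe (bc1 (φ : L →+* AlgebraicClosure L) R) := by
    have h1 := hUNO (v.M.rs : v.O →+* k)
      ((φ : L →+* AlgebraicClosure L).comp (algebraMap v.O L)) (g := g) (d := 6 * g + 9)
      (R := v.M.P) (f := ∏ l, (X - C (β l))) (f' := ∏ l, (X - C (φ (r l))))
      ((φ : L →+* AlgebraicClosure L).injective.comp (IsFractionRing.injective v.O L))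
      (by omega) hd1 (factorial_ne _) (factorial_ne _) v.M.kr v.M.z hdβ
      (separable_prod_X_sub_C_iff.2 hβ) (by rw [natDegree_mprod]; omega)
      (by rw [hbcv]; exact hdK) hsepK (by rw [natDegree_mprod]; omega) hb.2.2.2.2.2.2.1
    rw [hbcv] at h1
    exact h1
  -- the reduction at v is smooth
  have hPbz : zz k (6 * g + 9) ∈ v.M.Pb := hb.2.2.1
  have hPbk : Kr g v.M.Pb := hb.2.1
  have hSmo : v.M.Smo := by
    left
    have h1 : Disc (6 * g + 9) v.M.Pb v.M.fb :=
      (hMSM v.M hd2 (factorial_ne _)).2.1 (v.M.rs : v.O →+* k)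
        ⟨1, by rw [pow_one]; exact v.M.rsπ⟩
    have h2 : v.M.fb = ∏ l, (X - C (β l)) :=
      ZBEm.disc_unique (by omega) hPbk (v.M.monic.map _)
        (monic_prod_of_monic _ _ fun l _ => monic_X_sub_C _) h1 hdβ
    rw [h2]
    exact separable_prod_X_sub_C_iff.2 hβ
  have hTypS : TypeS (uno v.M.Pb) := ⟨hb.2.2.2.1, hb.2.2.2.2.1⟩
  refine ⟨AlgebraicClosure L, inferInstance, inferInstance, inferInstance,
    bc (φ : L →+* AlgebraicClosure L) (uno R), ?_, hGK.1, ?_, ?_, ?_⟩
  · rw [bc_uno]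
    exact hkrK
  · rw [bc_uno]
    exact hUGN (fun l => φ (r l)) hd1 (by omega) hkrK hzK hdK hindK
  · intro E
    obtain ⟨c, hcc⟩ := hUSC (g := g) (by omega) (k := k) E
    refine ⟨c, fun l => ?_⟩
    -- the value at zero is a constant
    have h1 := hUH1 (k := k) E (by omega) hd2 hkr hz hdisc hsep
    obtain ⟨a, ha⟩ := hconst (E.Φ L Unit (uno R) 0) fun w hw => by
      obtain ⟨x, hx, -⟩ := h1 w hw
      exact ⟨x, hx⟩
    obtain ⟨x, hx, hx2⟩ := h1 v hTst
    have h2 : v.M.rs x = a := rs_const v.M (by rw [hx, ha])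
    have h3 : a = algebraMap ℂ k c := by
      rw [← h2, hx2]
      exact hcc ζ v.M.Pb hRG
    have h4 : E.Φ L Unit (uno R) 0 = algebraMap ℂ L c := by
      rw [← ha, h3, ← IsScalarTower.algebraMap_apply ℂ k L]
    have h5 : ∀ m : ℕ, 1 ≤ m → IsS E R m 0 := by
      intro m hm
      obtain ⟨S, hS⟩ := hUSX E m hd1 hkr hz hdisc hsep
      have h6 : S = 0 := hform (m + m) (by omega) S fun w hw =>
        hUIN E m S hg hd2 hkr hz hdisc hsep hS w hw
      rw [h6] at hS
      exact hS
    rw [hUVK φ E hd1 hkr hz hdisc hsep hNoe h5 l, h4]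
    exact φ.commutes c
  · intro n E
    obtain ⟨c, hcc⟩ := hUSN (g := g) (n := n) (by omega) (k := k) E
    refine ⟨c, fun p hp => ?_⟩
    obtain ⟨s, hs⟩ := hUM1 (K := AlgebraicClosure L) E hd1 hkr hz hdisc hsep
    have h1 := hUM2 (k := k) (K := AlgebraicClosure L) E (by omega) hd2 hkr hz hdisc hsep s hs
    obtain ⟨a, ha⟩ := hconst s fun w hw => by
      obtain ⟨x, hx, -⟩ := h1 w hw
      exact ⟨x, hx⟩
    obtain ⟨x, hx, hx2⟩ := h1 v hTst
    obtain ⟨q, hq⟩ := hUM0 n hd1 hPbk hPbz hTypS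
    have h2 : v.M.rs x = a := rs_const v.M (by rw [hx, ha])
    have h3 : a = algebraMap ℂ k c := by
      rw [← h2, hx2 hSmo q hq]
      exact hcc ζ v.M.Pb hRG q hq
    have h4 : s = algebraMap ℂ L c := by
      rw [← ha, h3, ← IsScalarTower.algebraMap_apply ℂ k L]
    have h5 := hs p hp
    rw [h4] at h5
    exact h5.trans (φ.commutes c)

end Pool.Agent.MG.G0


end

section

/-!
# UH1: the value at the zero covector is integral and reduces to the value of the reduction
-/

open Polynomial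

namespace Pool.Agent.MG.G0

namespace UH1

section

variable {A : Type} [CommRing A]

/-- Scaling at one puncture. -/
noncomputable def kk (c : Aˣ) : KK Unit A ≃ₐ[A] KK Unit A := AlgEquiv.piCongrRight fun _ => scE c

theorem kk_apply (c : Aˣ) (f : KK Unit A) (i : Unit) : kk c f i = sc c (f i) := rfl

theorem kk_pol (c : Aˣ) (n : ℤ) (f : KK Unit A) : kk c f ∈ Pol Unit A n ↔ f ∈ Pol Unit A n := by
  constructor
  · intro h i m hm
    have h1 := h i m hm
    rw [kk_apply, sc_coeff] at h1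
    exact (Units.mul_right_eq_zero _).1 h1
  · intro h i m hm
    rw [kk_apply, sc_coeff, h i m hm, mul_zero]

theorem sc_inj (c : Aˣ) {f h : LaurentSeries A} (e : sc c f = sc c h) : f = h :=
  (scE c).injective e

theorem mem_iff (c : Aˣ) (R : Subalgebra A (LaurentSeries A)) (f : KK Unit A) :
    f ∈ uno R ↔ kk c f ∈ uno (R.map (sc c)) := by
  rw [mem_uno, mem_uno, kk_apply, Subalgebra.mem_map]
  constructor
  · intro h
    exact ⟨f (), h, rfl⟩
  · rintro ⟨h, hh, e⟩
    rwa [← sc_inj c e]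

theorem kr {g : ℕ} (c : Aˣ) {R : Subalgebra A (LaurentSeries A)} (h : Kr g R) :
    Kr g (R.map (sc c)) := by
  have h1 := t_KAU.1 (uno R) (kk c) (kk_pol c 0) h
  have h2 : (uno R).map (kk c : KK Unit A →ₐ[A] KK Unit A) = uno (R.map (sc c)) := by
    ext f
    rw [Subalgebra.mem_map]
    constructor
    · rintro ⟨h, hh, rfl⟩
      exact (mem_iff c R h).1 hh
    · intro hf
      refine ⟨(kk c).symm f, (mem_iff c R _).2 ?_, (kk c).apply_symm_apply f⟩
      rw [AlgEquiv.apply_symm_apply]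
      exact hf
  rw [h2] at h1
  exact h1

theorem zz_mem (c : Aˣ) (d : ℕ) {R : Subalgebra A (LaurentSeries A)} (h : zz A d ∈ R) :
    zz A d ∈ R.map (sc c) := by
  have h1 : sc c (zz A d) ∈ R.map (sc c) := ⟨_, h, rfl⟩
  rw [sc_zz] at h1
  have h2 := (R.map (sc c)).smul_mem h1 (((c ^ (d : ℤ))⁻¹ : Aˣ) : A)
  rwa [smul_smul, Units.inv_mul, one_smul] at h2

end

/-- The value at `0` depends only on the ring. -/
theorem val_congr {g : ℕ} (E : Ev g) {A I : Type} [CommRing A] [Algebra ℂ A] [Fintype I]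
    {P P' : Subalgebra A (KK I A)} (h : P = P') : E.Φ A I P 0 = E.Φ A I P' 0 := by
  subst h
  rfl

theorem nat0 {g : ℕ} (E : Ev g) {A B I : Type} [CommRing A] [CommRing B] [Algebra ℂ A]
    [Algebra ℂ B] [Fintype I] [Nonempty I] (φ : A →ₐ[ℂ] B) (P : Subalgebra A (KK I A))
    (h : Good g P) : E.Φ B I (bc (φ : A →+* B) P) 0 = φ (E.Φ A I P 0) := by
  refine E.nat φ P h 0 0 fun D D' _ => ?_
  change (0 : B) = φ ((0 : A))
  rw [map_zero]

theorem aut0 {g : ℕ} (E : Ev g) {A : Type} [CommRing A] [Algebra ℂ A]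
    {R : Subalgebra A (LaurentSeries A)} (c : Aˣ) (h : Good g (uno R))
    (h' : Good g (uno (R.map (sc c)))) :
    E.Φ A Unit (uno (R.map (sc c))) 0 = E.Φ A Unit (uno R) 0 :=
  E.aut (kk c) (kk_pol c) (uno R) (uno (R.map (sc c))) h h' (mem_iff c R) 0 0 fun _ _ _ => rfl

end UH1

theorem t_UH1 (hUGL : Stmt_UGL) (hUGD : Stmt_UGD) : Stmt_UH1 := by
  intro k L _ _ _ _ _ _ _ g d R f E hg hd hkr hz hdisc hsep v hv
  haveI : CharZero k := charZero_of_injective_algebraMap (algebraMap ℂ k).injective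
  haveI : CharZero L := charZero_of_injective_algebraMap (algebraMap ℂ L).injective
  letI : Algebra ℂ v.O := ((algebraMap k v.O).comp (algebraMap ℂ k)).toAlgebra
  have hM := (hUGD v.M hg hd hv).1
  have hR := (hUGL (show 1 ≤ d by omega) hkr hz hdisc hsep).1
  have hR' := (hUGL (show 1 ≤ d by omega) (UH1.kr v.c hkr) (UH1.zz_mem v.c d hz) v.M.disc
    v.M.sep).1
  let φ : v.O →ₐ[ℂ] L :=
    { algebraMap v.O L with
      commutes' := fun z => by
        change algebraMap v.O L (algebraMap k v.O (algebraMap ℂ k z)) = algebraMap ℂ L z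
        rw [← IsScalarTower.algebraMap_apply k v.O L, ← IsScalarTower.algebraMap_apply ℂ k L] }
  let ψ : v.O →ₐ[ℂ] k :=
    { (v.M.rs : v.O →+* k) with
      commutes' := fun z => by
        change v.M.rs (algebraMap k v.O (algebraMap ℂ k z)) = algebraMap ℂ k z
        rw [AlgHom.commutes]
        rfl }
  refine ⟨E.Φ v.O Unit (uno v.M.P) 0, ?_, ?_⟩
  · have h1 := UH1.nat0 E φ (uno v.M.P) hM
    have h2 : bc (φ : v.O →+* L) (uno v.M.P) = uno (R.map (sc v.c)) := by
      rw [bc_uno]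
      exact congrArg uno v.M.bc
    rw [UH1.val_congr E h2, UH1.aut0 E v.c hR hR'] at h1
    exact h1.symm
  · have h1 := UH1.nat0 E ψ (uno v.M.P) hM
    have h2 : bc (ψ : v.O →+* k) (uno v.M.P) = uno v.M.Pb := by
      rw [bc_uno]
      rfl
    rw [UH1.val_congr E h2] at h1
    exact h1.symm

end Pool.Agent.MG.G0


end

section

/-!
# UPR: primes congruent to -1 modulo m
-/

namespace Pool.Agent.MG.G0

theorem t_UPR : Stmt_UPR := by
  intro m N hm
  have : NeZero m := ⟨by omega⟩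
  obtain ⟨p, hp, hpp, hpm⟩ := Nat.forall_exists_prime_gt_and_eq_mod
    (q := m) (a := -1) isUnit_one.neg N
  refine ⟨p, hp, hpp, ?_⟩
  have h1 : ((p + 1 : ℕ) : ZMod m) = 0 := by
    push_cast
    rw [hpm]
    ring
  rw [ZMod.natCast_eq_zero_iff] at h1
  obtain ⟨c, hc⟩ := h1
  have hc0 : 1 ≤ c := by
    rcases Nat.eq_zero_or_pos c with h | h
    · subst h
      omega
    · exact h
  obtain ⟨c', rfl⟩ := Nat.exists_eq_add_of_le hc0
  have h2 : p = (m - 1) + m * c' := by
    have : p + 1 = m + m * c' := by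
      rw [hc]
      ring
    omega
  rw [h2, Nat.add_mul_mod_self_left]
  exact Nat.mod_eq_of_lt (by omega)

end Pool.Agent.MG.G0


end

section

/-!
# Theorem Z: assembly
-/

open Polynomial

namespace Pool.Agent.MG.G0

namespace ZZZ

theorem kr_bc1 (hKBC : Stmt_KBC) {A B : Type} [CommRing A] [CommRing B] {g : ℕ}
    {R : Subalgebra A (LaurentSeries A)} (h : Kr g R) (φ : A →+* B) : Kr g (bc1 φ R) := by
  have h1 := (hKBC.2.2.2 (P := uno R) h φ).1
  rw [bc_uno] at h1
  exact h1

theorem zz_bc1 {A B : Type} [CommRing A] [CommRing B] {d : ℕ}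
    {R : Subalgebra A (LaurentSeries A)} (h : zz A d ∈ R) (φ : A →+* B) : zz B d ∈ bc1 φ R := by
  rw [← lmap_zz φ d]
  exact Algebra.subset_adjoin ⟨zz A d, h, rfl⟩

theorem map_sc_one {A : Type} [CommRing A] (R : Subalgebra A (LaurentSeries A)) :
    R.map (sc (1 : Aˣ)) = R := by
  ext f
  rw [Subalgebra.mem_map]
  constructor
  · rintro ⟨x, hx, rfl⟩
    rwa [sc_one]
  · intro hf
    exact ⟨f, hf, sc_one f⟩

theorem mprod {A B : Type} [CommRing A] [CommRing B] (φ : A →+* B) {b : ℕ} (r : Fin b → A) :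
    (∏ l, (X - C (r l))).map φ = ∏ l, (X - C (φ (r l))) := by
  rw [Polynomial.map_prod]
  refine Finset.prod_congr rfl fun l _ => ?_
  rw [Polynomial.map_sub, Polynomial.map_X, Polynomial.map_C]

/-- The residue map. -/
noncomputable def rs {k O : Type} [Field k] [CommRing O] [Algebra k O]
    (j : O →ₐ[k] PowerSeries k) : O →ₐ[k] k where
  toRingHom := (PowerSeries.constantCoeff (R := k)).comp (j : O →+* PowerSeries k)
  commutes' a := by
    change PowerSeries.constantCoeff (j (algebraMap k O a)) = a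
    rw [AlgHom.commutes]
    change PowerSeries.constantCoeff (PowerSeries.C (R := k) a) = a
    exact PowerSeries.constantCoeff_C a

theorem rs_apply {k O : Type} [Field k] [CommRing O] [Algebra k O]
    (j : O →ₐ[k] PowerSeries k) (x : O) : rs j x = PowerSeries.constantCoeff (j x) := rfl

end ZZZ

open _root_.Pool.Agent.MG.G0.ZZZ in
theorem t_ZZZ (hKBC : Stmt_KBC) (hZDB : Stmt_ZDB) (hZPC : Stmt_ZPC) (hZFM : Stmt_ZFM)
    (hZOR : Stmt_ZOR) (hZOI : Stmt_ZOI) (hZOD : Stmt_ZOD) (hZPL : Stmt_ZPL) (hZOB : Stmt_ZOB)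
    (hZPM : Stmt_ZPM) (hZPB : Stmt_ZPB) (hZFD : Stmt_ZFD) (hZFV : Stmt_ZFV) : Stmt_ZZZ := by
  intro k₁ k _ _ _ _ p hp hchar g d b R₁ β α hg hd hfac hb hkr hz hβ hdisc hSm hDu hSs hα
  have hd0 : 0 < d := by omega
  have hdk : (d : k) ≠ 0 := by
    intro h
    apply hfac
    obtain ⟨e, he⟩ := Nat.dvd_factorial hd0 le_rfl
    rw [he, Nat.cast_mul, h, zero_mul]
  have h2k : ((2 * d : ℕ) : k) ≠ 0 := by
    rw [Nat.cast_mul]
    refine mul_ne_zero ?_ hdk
    intro h
    apply hfac
    obtain ⟨e, he⟩ := Nat.dvd_factorial (by omega : 0 < 2) hd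
    rw [he, Nat.cast_mul, h, zero_mul]
  have hkrb : Kr g (bc1 (algebraMap k₁ k) R₁) := kr_bc1 hKBC hkr _
  have hzb : zz k d ∈ bc1 (algebraMap k₁ k) R₁ := zz_bc1 hz _
  have hβ' : Function.Injective fun l => algebraMap k₁ k (β l) := fun l m h =>
    hβ ((algebraMap k₁ k).injective h)
  have hdb : Disc d (bc1 (algebraMap k₁ k) R₁) (∏ l, (X - C (algebraMap k₁ k (β l)))) := by
    have h1 := (hZDB k₁ k (algebraMap k₁ k) g d R₁ hd0 hkr hz).2.2 _ hdisc
    rwa [mprod] at h1
  obtain ⟨Y⟩ := hZFM (fun l => algebraMap k₁ k (β l)) α hd0 h2k hkrb hzb hβ' hdb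
  -- ordinarity
  obtain ⟨a, ha, hfst⟩ := Y.first
  have hOr := hZOR p hp hchar β α hd0 hdk hkr hz hβ hdisc hSm hDu hSs hα a ha
  have hOI := hZOI p hp hchar a hd0 hdk hkrb Y.krI Y.redI hfst hOr
  rw [← Y.bcI] at hOI
  have hcL : CharP Y.L p := charP_of_injective_algebraMap (algebraMap k Y.L).injective p
  have hOrd : Ord p Y.R := hZOD _ p hp hcL Y.kr hOI
  -- the parameter
  have htr : Transcendental k (algebraMap Y.F Y.L Y.t) :=
    (transcendental_algebraMap_iff (algebraMap Y.F Y.L).injective).2 Y.tr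
  have hEn := hZPL (bc1 (algebraMap k₁ k) R₁) β α hg hd hfac hb hβ hα Y
  -- the base point
  obtain ⟨O, _, _, _, _, _, _, _, j, x, hx1, hx2, hx3, hx4⟩ := hZOB Y.ψ _ Y.ψt
  have hrx : PowerSeries.constantCoeff (j x) = 0 := by
    rw [hx4, IsLocalRing.mem_maximalIdeal]
    exact hx2.not_isUnit
  have hr : ∀ l, algebraMap O Y.L (algebraMap k O (algebraMap k₁ k (β l)) +
      x ^ d * algebraMap k O (α l)) = algebraMap k Y.L (algebraMap k₁ k (β l)) +
      algebraMap Y.F Y.L Y.t ^ d * algebraMap k Y.L (α l) := by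
    intro l
    rw [map_add, map_mul, map_pow, hx1, ← IsScalarTower.algebraMap_apply k O Y.L,
      ← IsScalarTower.algebraMap_apply k O Y.L]
  have hinj : Function.Injective fun l => algebraMap k O (algebraMap k₁ k (β l)) +
      x ^ d * algebraMap k O (α l) := by
    intro l m h
    refine (hZPC β α hd0 hβ hα).2.1 Y.L _ htr ?_
    change algebraMap k Y.L (algebraMap k₁ k (β l)) + algebraMap Y.F Y.L Y.t ^ d *
      algebraMap k Y.L (α l) = algebraMap k Y.L (algebraMap k₁ k (β m)) +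
      algebraMap Y.F Y.L Y.t ^ d * algebraMap k Y.L (α m)
    rw [← hr, ← hr]
    exact congrArg (algebraMap O Y.L) h
  obtain ⟨M, hM1, hM2, hM3, hM4, hM5, hM6, hM7⟩ := hZPM (g := g) (d := d) (L := Y.L)
    (R := Y.R.map (sc (1 : Y.Lˣ))) (ZZZ.rs j) x
    (fun l => algebraMap k O (algebraMap k₁ k (β l)) + x ^ d * algebraMap k O (α l))
    hd0 hfac hb (fun y => by rw [rs_apply]; exact hx4 y) hx2
    (by rw [map_sc_one]; exact Y.kr) (by rw [map_sc_one]; exact Y.z) hinj (by
      rw [map_sc_one]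
      simp only [hr]
      exact Y.disc)
  let v₀ : Plc k Y.L g d Y.R := { O := O, c := 1, M := M }
  have hPb : v₀.M.Pb = bc1 (algebraMap k₁ k) R₁ := by
    change bc1 (M.rs : O →+* k) M.P = _
    rw [hM1, hM3]
    have hkc : Kr g (cut (algebraMap O Y.L) (Y.R.map (sc (1 : Y.Lˣ)))) := by
      rw [← hM3]
      exact M.kr
    rw [map_sc_one] at hkc ⊢
    have h1 := hZPB (g := g) (Y.ψ : Y.L →+* LaurentSeries k) (j : O →+* PowerSeries k) Y.R Y.RI
      Y.krI hkc Y.bcI hx3
    rw [Y.redI] at h1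
    exact h1
  have hT : v₀.Tst := by
    left
    left
    change (M.f.map (M.rs : O →+* k)).Separable
    rw [hM4, hM1, mprod, separable_prod_X_sub_C_iff]
    intro l m h
    apply hβ'
    have h2 : ∀ l, (ZZZ.rs j : O →+* k) (algebraMap k O (algebraMap k₁ k (β l)) +
        x ^ d * algebraMap k O (α l)) = algebraMap k₁ k (β l) := by
      intro l
      rw [map_add, map_mul, map_pow]
      have h3 : (ZZZ.rs j : O →+* k) x = 0 := hrx
      rw [h3, zero_pow hd0.ne', zero_mul, add_zero]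
      exact (ZZZ.rs j).commutes _
    have h4 := h
    simp only [h2] at h4
    exact h4
  have hcap : ∀ y : v₀.O, (∀ n : ℕ, v₀.M.π ^ n ∣ y) → y = 0 := by
    intro y hy
    change ∀ n : ℕ, M.π ^ n ∣ y at hy
    rw [hM2] at hy
    by_contra hne
    obtain ⟨n, u, hu⟩ := IsDiscreteValuationRing.associated_pow_irreducible hne hx2
    obtain ⟨w, hw⟩ := hy (n + 1)
    apply hx2.not_isUnit
    have hxn : x ^ n ≠ 0 := pow_ne_zero _ hx2.ne_zero
    have h5 : x ^ n * (x * w * u) = x ^ n * 1 := by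
      calc x ^ n * (x * w * u) = (x ^ (n + 1) * w) * u := by ring
        _ = y * u := by rw [← hw]
        _ = x ^ n * 1 := by rw [mul_one]; exact hu
    exact IsUnit.of_mul_eq_one (w * u) (by
      rw [← mul_assoc]
      exact mul_left_cancel₀ hxn h5)
  refine ⟨Y.L, Y.fL, Y.kL, algebraMap Y.F Y.L Y.t, Y.R, htr, Y.kr, Y.z, Y.disc,
    ⟨v₀, hT, rfl, hPb⟩, ?_, ?_⟩
  · exact (hZFD Y.t Y.tr Y.gen Y.fin Y.sep Plc.Tst {1, algebraMap Y.F Y.L Y.t}
      (Set.toFinite _) hg Y.kr hEn).2
  · intro r hr1 S hS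
    exact hZFV Y.t Y.tr Y.gen Y.fin Y.sep p hp hchar Plc.Tst {1, algebraMap Y.F Y.L Y.t}
      (Set.toFinite _) hg Y.kr hEn hOrd v₀ hT (by rw [hPb]; exact hSs) hcap r hr1 S hS

end Pool.Agent.MG.G0


end

section

/-!
# UZU: Theorem Z in characteristic zero (PAPER_V.md)
-/

open Polynomial

namespace Pool.Agent.MG.G0

namespace UZU

/-- Theorem Z over `k`, in characteristic `p`. -/
theorem level (hGRA : Stmt_GRA) (hGRF : Stmt_GRF) (hZZZ : Stmt_ZZZ) (hUAI : Stmt_UAI) {g : ℕ}
    (hg : 2 ≤ g) (p : ℕ) (hp : p.Prime) (hpd : 6 * g + 9 < p) (hpm : p % (3 * g) = 3 * g - 1)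
    (k : Type) [Field k] [CharP k p] [IsAlgClosed k] (v : Fin (8 * g + 8 + 1) → k)
    (hv : @AlgebraicIndependent (Fin (8 * g + 8 + 1)) (ZMod p) k v _ _ (ZMod.algebra _ _)) :
    ∃ (β : Fin (8 * g + 8) → k) (P : Subalgebra k (LaurentSeries k)) (L : Type) (_ : Field L)
      (_ : Algebra k L) (t : L) (R : Subalgebra L (LaurentSeries L)), RG g (v 0) P ∧
      Transcendental k t ∧ Kr g R ∧ zz L (6 * g + 9) ∈ R ∧
      Disc (6 * g + 9) R (ft (6 * g + 9) β (fun l => v l.succ) t) ∧
      (∃ w : Plc k L g (6 * g + 9) R, w.Tst ∧ w.c = 1 ∧ w.M.Pb = P) ∧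
      (∀ s : L, (∀ w : Plc k L g (6 * g + 9) R, w.Tst → ∃ x : w.O, algebraMap w.O L x = s) →
        ∃ a : k, algebraMap k L a = s) ∧
      ∀ r : ℕ, 1 ≤ r → ∀ S : MultilinearMap L (fun _ : Fin r => EE1 R) L,
        (∀ w : Plc k L g (6 * g + 9) R, w.Tst → w.Int S) → S = 0 := by
  have : Fact p.Prime := ⟨hp⟩
  let _ : Algebra (ZMod p) k := ZMod.algebra k p
  obtain ⟨k₁, f1, ac1, aF, ak, tow, ζ, hζ, hζt, hα⟩ := hUAI.2.2 v hv
  have hc1 : CharP k₁ p := RingHom.charP (algebraMap k₁ k) (algebraMap k₁ k).injective p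
  have hnd : ¬ p ∣ (6 * g + 9).factorial := by
    rw [hp.dvd_factorial]
    omega
  have hu1 : IsUnit (((6 * g + 9).factorial : ℕ) : k₁) := by
    rw [isUnit_iff_ne_zero, Ne, CharP.cast_eq_zero_iff k₁ p]
    exact hnd
  have hu : (((6 * g + 9).factorial : ℕ) : k) ≠ 0 := by
    rw [Ne, CharP.cast_eq_zero_iff k p]
    exact hnd
  obtain ⟨G1, G2, G3⟩ := hGRA g hg
  obtain ⟨R₁, hR₁⟩ := G1 ζ hu1
  obtain ⟨-, hK, hz, -⟩ := G2 ζ R₁ hR₁
  obtain ⟨-, hF⟩ := hGRF g hg ζ R₁ hR₁
  obtain ⟨β, hβ, hD, -⟩ := hF (F := ZMod p) hζt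
  have hR : RG g (v 0) (bc1 (algebraMap k₁ k) R₁) := by
    rw [← hζ]
    exact G3 ζ R₁ hR₁ (algebraMap k₁ k)
  obtain ⟨-, -, -, -, hS, -, -, hSs⟩ := G2 (v 0) _ hR
  obtain ⟨hDu, -⟩ := hGRF g hg (v 0) _ hR
  obtain ⟨L, fL, aL, t, R, ht, hKR, hzR, hDR, hP, hs, hr⟩ := hZZZ (k₁ := k₁) (k := k) p hp
    inferInstance β (fun l => v l.succ) (by omega) (by omega) hu (by omega) hK hz hβ hD hS hDu
    (hSs p hp inferInstance hpm) hα
  exact ⟨fun l => algebraMap k₁ k (β l), bc1 (algebraMap k₁ k) R₁, L, fL, aL, t, R, hR, ht, hKR,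
    hzR, hDR, hP, hs, hr⟩

/-- The monic discriminant is unique. -/
theorem disc_unique {κ : Type} [Field κ] {d : ℕ} (hd : 0 < d)
    {R : Subalgebra κ (LaurentSeries κ)} {f f' : κ[X]} (hf : f.Monic) (hf' : f'.Monic)
    (h : Disc d R f) (h' : Disc d R f') : f = f' := by
  obtain ⟨e, G, hb, hG, u, hu, hdet⟩ := h
  obtain ⟨e', G', hb', hG', u', hu', hdet'⟩ := h'
  obtain ⟨w, hw, hww⟩ := KRK.det_change hd hb hG hb' hG'
  rw [hdet, hdet'] at hww
  apply eq_of_monic_of_associated hf hf'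
  have h1 : Associated f (u' * f') := by
    rw [hww, ← mul_assoc]
    exact (associated_unit_mul_left f (w * u) (hw.mul hu)).symm
  exact h1.trans (associated_unit_mul_left f' u' hu')

theorem disc_cast {A : Type} [CommRing A] {d : ℕ} {R R' : Subalgebra A (LaurentSeries A)}
    (h : R' = R) {f : A[X]} (hf : Disc d R' f) : Disc d R f := by
  subst h
  exact hf

theorem ft_monic {k R : Type} [Field k] [CommRing R] [Nontrivial R] [Algebra k R] {b : ℕ}
    (d : ℕ) (β α : Fin b → k) (t : R) : (ft d β α t).Monic :=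
  monic_prod_of_monic _ _ fun _ _ => monic_X_sub_C _

/-- The product `∏ (X - r_l)` over an ultraproduct. -/
theorem prod_coeff (𝒰 : Ultrafilter ℕ) {L : ℕ → Type} [∀ n, CommRing (L n)] {b : ℕ}
    (r : ∀ n, Fin b → L n) (m : ℕ) :
    (∏ l, (X - C (umk 𝒰 fun n => r n l)) : (Ul 𝒰 L)[X]).coeff m =
      umk 𝒰 fun n => (∏ l, (X - C (r n l)) : (L n)[X]).coeff m := by
  let F : (∀ n, L n)[X] := ∏ l, (X - C fun n => r n l)
  have h1 : (∏ l, (X - C (umk 𝒰 fun n => r n l)) : (Ul 𝒰 L)[X]) = F.map (umk 𝒰) := by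
    rw [Polynomial.map_prod]
    refine Finset.prod_congr rfl fun l _ => ?_
    rw [Polynomial.map_sub, Polynomial.map_X, Polynomial.map_C]
  rw [h1, coeff_map]
  congr 1
  funext n
  have h2 : (∏ l, (X - C (r n l)) : (L n)[X]) = F.map (Pi.evalRingHom L n) := by
    rw [Polynomial.map_prod]
    refine Finset.prod_congr rfl fun l _ => ?_
    rw [Polynomial.map_sub, Polynomial.map_X, Polynomial.map_C]
    rfl
  rw [h2, coeff_map]
  rfl

end UZU

open _root_.Pool.Agent.MG.G0.UZU in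
theorem t_UZU (hKBC : Stmt_KBC) (hULR : Stmt_ULR) (hUEM : Stmt_UEM) (hUKR : Stmt_UKR)
    (hTRA : Stmt_TRA) (hTRZ : Stmt_TRZ) (hUMD : Stmt_UMD) (hGRA : Stmt_GRA) (hGRF : Stmt_GRF)
    (hZZZ : Stmt_ZZZ) (hURG : Stmt_URG) (hUPL : Stmt_UPL) (hUAI : Stmt_UAI) (hUPR : Stmt_UPR) :
    Stmt_UZU := by
  intro g hg
  choose p hpN hpp hpm using fun n : ℕ => hUPR (3 * g) (n + (6 * g + 9)) (by omega)
  let 𝒰 : Ultrafilter ℕ := Filter.hyperfilter ℕ
  obtain ⟨k, fk, cp, ac, v, i, hv, hvi⟩ := hUEM 𝒰 (8 * g + 8 + 1) p hpp (by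
    intro N
    have h1 : ∀ᶠ n : ℕ in Filter.cofinite, N < p n := by
      rw [Nat.cofinite_eq_atTop]
      filter_upwards [Filter.eventually_ge_atTop N] with n hn
      have := hpN n
      omega
    exact h1.filter_mono Filter.hyperfilter_le_cofinite)
  choose β P L fL aL t R h1 h2 h3 h4 h5 h6 h7 h8 using fun n =>
    level hGRA hGRF hZZZ hUAI hg (p n) (hpp n) (by have := hpN n; omega) (hpm n) (k n) (v n) (hv n)
  choose v0 w1 w2 w3 using h6
  have hg1 : 1 ≤ g := by omega
  have hd1 : 1 ≤ 6 * g + 9 := by omega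
  let kL : Ul 𝒰 k →+* Ul 𝒰 L := umap 𝒰 fun n => algebraMap (k n) (L n)
  let _ : Algebra ℂ (Ul 𝒰 k) := i.toAlgebra
  let _ : Algebra (Ul 𝒰 k) (Ul 𝒰 L) := kL.toAlgebra
  let _ : Algebra ℂ (Ul 𝒰 L) := (kL.comp i).toAlgebra
  have tow : IsScalarTower ℂ (Ul 𝒰 k) (Ul 𝒰 L) := IsScalarTower.of_algebraMap_eq fun _ => rfl
  have hac : IsAlgClosed (Ul 𝒰 k) := (hULR 𝒰).2.2.2.1 k ac
  have hnd : ∀ n, (((6 * g + 9).factorial : ℕ) : k n) ≠ 0 := by
    intro n
    have := cp n
    rw [Ne, CharP.cast_eq_zero_iff (k n) (p n), (hpp n).dvd_factorial]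
    have := hpN n
    omega
  -- the branch points
  let ρ : ∀ n, Fin (8 * g + 8) → L n := fun n l =>
    algebraMap (k n) (L n) (β n l) + t n ^ (6 * g + 9) * algebraMap (k n) (L n) (v n l.succ)
  let r : Fin (8 * g + 8) → Ul 𝒰 L := fun l => umk 𝒰 fun n => ρ n l
  have hKR := hUKR 𝒰 R hg1 h3
  refine ⟨Ul 𝒰 k, Ul 𝒰 L, inferInstance, hac, inferInstance, inferInstance, inferInstance,
    inferInstance, tow, UP 𝒰 R, r, hKR.1, hKR.2.2.2.2.2 _ h4, ?_, ?_, ?_, ?_, ?_⟩
  · let _ : Algebra (Ul 𝒰 k) (Ul 𝒰 fun n => (v0 n).O) :=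
      (umap 𝒰 fun n => algebraMap (k n) (v0 n).O).toAlgebra
    let _ : Algebra (Ul 𝒰 fun n => (v0 n).O) (Ul 𝒰 L) :=
      (umap 𝒰 fun n => algebraMap (v0 n).O (L n)).toAlgebra
    obtain ⟨hdom, M', -, -, -, hM'f, -, -⟩ := hUMD 𝒰 (fun n => (v0 n).M) hg1 hd1
    have hRR : ∀ n, (R n).map (sc (v0 n).c) = R n := by
      intro n
      rw [w2 n, ZZZ.map_sc_one]
    have hf : ∀ n, (v0 n).M.f.map (algebraMap (v0 n).O (L n)) =
        ft (6 * g + 9) (β n) (fun l => v n l.succ) (t n) := by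
      intro n
      exact disc_unique (by omega) ((v0 n).M.monic.map _) (ft_monic _ _ _ _)
        (disc_cast (hRR n) (v0 n).M.disc) (h5 n)
    have hff : M'.f.map (algebraMap (Ul 𝒰 fun n => (v0 n).O) (Ul 𝒰 L)) =
        ∏ l, (X - C (r l)) := by
      ext m
      rw [coeff_map, hM'f.2 m]
      refine Eq.trans ?_ (prod_coeff 𝒰 ρ m).symm
      change umk 𝒰 (fun n => algebraMap (v0 n).O (L n) ((v0 n).M.f.coeff m)) = _
      congr 1
      funext n
      rw [← coeff_map, hf n]
      rfl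
    have h9 := M'.disc
    rw [hff] at h9
    exact disc_cast (congrArg (UP 𝒰) (funext hRR)) h9
  · have h9 := hUAI.1 (F := ℂ) (k := Ul 𝒰 k) (L := Ul 𝒰 L) (d := 6 * g + 9)
      (fun l => umk 𝒰 fun n => β n l) (fun l : Fin (8 * g + 8) => umk 𝒰 fun n => v n l.succ)
      (umk 𝒰 t) (by omega) (hvi.comp Fin.succ (Fin.succ_injective _)) (hUAI.2.1 𝒰 t h2)
    have h10 : r = fun l => algebraMap (Ul 𝒰 k) (Ul 𝒰 L) (umk 𝒰 fun n => β n l) +
        umk 𝒰 t ^ (6 * g + 9) * algebraMap (Ul 𝒰 k) (Ul 𝒰 L) (umk 𝒰 fun n => v n l.succ) := by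
      funext l
      change umk 𝒰 (fun n => ρ n l) = umk 𝒰 (fun n => algebraMap (k n) (L n) (β n l)) +
        umk 𝒰 t ^ (6 * g + 9) * umk 𝒰 (fun n => algebraMap (k n) (L n) (v n l.succ))
      rw [← map_pow, ← map_mul, ← map_add]
      rfl
    rw [h10]
    exact h9
  · obtain ⟨w, hw1, hw2, hw3, -, -⟩ := hUPL 𝒰 v0 hg1 hd1 h3 w1
    have h9 : RG g (umk 𝒰 fun n => v n 0) w.M.Pb := by
      rw [hw3, funext w3]
      exact hURG 𝒰 (fun n => v n 0) P hg hnd h1
    obtain ⟨β', hβ', hD', -⟩ := (hGRF g hg _ _ h9).2 (F := ℂ) (hvi.transcendental 0)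
    exact ⟨w, _, hw1, hw2 w2, h9, β', hβ', hD'⟩
  · intro s hs
    exact hTRZ 𝒰 R (fun n w => w.Tst) (fun n => ⟨v0 n, w1 n⟩) h7 s fun v hv => by
      obtain ⟨w, hw1, -, -, hw4, -⟩ := hUPL 𝒰 v hg1 hd1 h3 hv
      exact hw4 s (hs w hw1)
  · intro m hm S hS
    exact hTRA 𝒰 R (fun n w => w.Tst) hg1 h3 (fun n => ⟨v0 n, w1 n⟩) (fun n => h8 n m hm) S
      fun v hv => by
        obtain ⟨w, hw1, -, -, -, hw5⟩ := hUPL 𝒰 v hg1 hd1 h3 hv
        exact hw5 m S (hS w hw1)

end Pool.Agent.MG.G0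


end

section

/-!
# ZOB: the discrete valuation ring given by an embedding in `k((t))` (PAPER_Z.md)
-/

open Polynomial

namespace Pool.Agent.MG.G0

namespace ZOBx

section

variable {k L : Type} [Field k] [Field L] [Algebra k L]

theorem psl_coeff (f : PowerSeries k) (n : ℕ) :
    (psl k f).coeff (n : ℤ) = PowerSeries.coeff n f := HahnSeries.ofPowerSeries_apply_coeff f n

theorem psl_Po (f : PowerSeries k) : psl k f ∈ Po k 0 := by
  intro m hm
  refine HahnSeries.embDomain_of_notMem_range ?_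
  rintro ⟨n, hn⟩
  have : (n : ℤ) = m := hn
  omega

theorem psl_inj : Function.Injective (psl k) := HahnSeries.ofPowerSeries_injective

theorem exists_psl {f : LaurentSeries k} (h : f ∈ Po k 0) : ∃ a : PowerSeries k, psl k a = f := by
  refine ⟨PowerSeries.mk fun n => f.coeff (n : ℤ), ?_⟩
  ext m
  rcases lt_or_ge m 0 with hm | hm
  · rw [psl_Po _ m (by omega), h m (by omega)]
  · obtain ⟨n, rfl⟩ := Int.eq_ofNat_of_zero_le hm
    rw [psl_coeff, PowerSeries.coeff_mk]

/-- the elements of `L` whose series is a power series -/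
noncomputable def OO (ψ : L →ₐ[k] LaurentSeries k) : Subalgebra k L where
  carrier := {y | ψ y ∈ Po k 0}
  mul_mem' := by
    intro a b ha hb m hm
    rw [map_mul]
    exact mul_low (a := 0) (b := 0) (fun m hm => ha m (by omega)) (fun m hm => hb m (by omega)) m
      (by omega)
  add_mem' := by
    intro a b ha hb
    change ψ (a + b) ∈ Po k 0
    rw [map_add]
    exact add_mem ha hb
  algebraMap_mem' := by
    intro a
    change ψ (algebraMap k L a) ∈ Po k 0
    rw [AlgHom.commutes]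
    intro m hm
    rw [coeff_algebraMap, if_neg (by omega)]

theorem mem_OO {ψ : L →ₐ[k] LaurentSeries k} {y : L} : y ∈ OO ψ ↔ ψ y ∈ Po k 0 := Iff.rfl

theorem exists_j (ψ : L →ₐ[k] LaurentSeries k) :
    ∃ j : OO ψ →ₐ[k] PowerSeries k, ∀ y : OO ψ, psl k (j y) = ψ (y : L) := by
  have h : ∀ y : OO ψ, ∃ a : PowerSeries k, psl k a = ψ (y : L) := fun y => exists_psl y.2
  choose j hj using h
  have hC : ∀ a : k, psl k (algebraMap k (PowerSeries k) a) = algebraMap k (LaurentSeries k) a :=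
    fun a => HahnSeries.ofPowerSeries_C a
  exact ⟨
    { toFun := j
      map_one' := psl_inj (by rw [hj, map_one, OneMemClass.coe_one, map_one])
      map_mul' := fun a b => psl_inj (by
        rw [hj, map_mul, MulMemClass.coe_mul, map_mul, hj, hj])
      map_zero' := psl_inj (by rw [hj, map_zero, ZeroMemClass.coe_zero, map_zero])
      map_add' := fun a b => psl_inj (by
        rw [hj, map_add, AddMemClass.coe_add, map_add, hj, hj])
      commutes' := fun a => psl_inj (by
        rw [hj, hC]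
        exact ψ.commutes a) }, hj⟩

end

end ZOBx

open _root_.Pool.Agent.MG.G0.ZOBx in
theorem t_ZOB : Stmt_ZOB := by
  intro k L _ _ _ ψ t ht
  obtain ⟨j, hj⟩ := exists_j ψ
  have hψ : Function.Injective ψ := ψ.toRingHom.injective
  have hs : psl k PowerSeries.X = HahnSeries.single 1 1 := HahnSeries.ofPowerSeries_X
  have htO : t ∈ OO ψ := by
    rw [mem_OO, ht, ← hs]
    exact psl_Po _
  set x : OO ψ := ⟨t, htO⟩ with hx
  have hjx : j x = PowerSeries.X := psl_inj (by rw [hj, hs]; exact ht)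
  have hjinj : Function.Injective j := by
    intro a b hab
    apply Subtype.ext
    apply hψ
    rw [← hj, ← hj, hab]
  have ht0 : t ≠ 0 := by
    intro h
    rw [h, map_zero] at ht
    have h1 := congrArg (fun f => HahnSeries.coeff f (1 : ℤ)) ht
    simp at h1
  -- units
  have hunit : ∀ y : OO ψ, PowerSeries.constantCoeff (j y) ≠ 0 → IsUnit y := by
    intro y hy
    have hy0 : (y : L) ≠ 0 := by
      intro h
      have h1 : y = 0 := Subtype.ext h
      rw [h1, map_zero, map_zero] at hy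
      exact hy rfl
    obtain ⟨w, hw⟩ := (PowerSeries.isUnit_iff_constantCoeff.2 (IsUnit.mk0 _ hy) :
      IsUnit (j y)).exists_right_inv
    have h2 : ψ ((y : L)⁻¹) = psl k w := by
      have h3 : ψ (y : L) * psl k w = 1 := by
        rw [← hj, ← map_mul, hw, map_one]
      have h4 : ψ (y : L) * ψ ((y : L)⁻¹) = 1 := by
        rw [← map_mul, mul_inv_cancel₀ hy0, map_one]
      have h5 : ψ (y : L) ≠ 0 := fun h => one_ne_zero (α := LaurentSeries k) (by
        rw [← h4, h, zero_mul])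
      exact mul_left_cancel₀ h5 (h4.trans h3.symm)
    have h6 : (y : L)⁻¹ ∈ OO ψ := by
      rw [mem_OO, h2]
      exact psl_Po _
    refine IsUnit.of_mul_eq_one ⟨(y : L)⁻¹, h6⟩ (Subtype.ext ?_)
    rw [MulMemClass.coe_mul, OneMemClass.coe_one]
    exact mul_inv_cancel₀ hy0
  have hunit' : ∀ y : OO ψ, IsUnit y ↔ PowerSeries.constantCoeff (j y) ≠ 0 := by
    intro y
    refine ⟨fun h => ?_, hunit y⟩
    have h1 := h.map ((PowerSeries.constantCoeff (R := k)).comp (j : OO ψ →+* PowerSeries k))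
    exact h1.ne_zero
  have hirr : Irreducible x := by
    rw [irreducible_iff]
    constructor
    · rw [hunit', hjx, PowerSeries.constantCoeff_X]
      exact fun h => h rfl
    · intro a b hab
      have h1 : (PowerSeries.X : PowerSeries k) = j a * j b := by rw [← hjx, hab, map_mul]
      rcases (PowerSeries.X_irreducible (R := k)).isUnit_or_isUnit h1 with h | h
      · exact Or.inl (hunit a (PowerSeries.isUnit_iff_constantCoeff.1 h).ne_zero)
      · exact Or.inr (hunit b (PowerSeries.isUnit_iff_constantCoeff.1 h).ne_zero)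
  have hfac : ∀ y : OO ψ, y ≠ 0 → ∃ n : ℕ, Associated (x ^ n) y := by
    intro y hy
    have hjy : j y ≠ 0 := fun h => hy (hjinj (by rw [h, map_zero]))
    obtain ⟨n, u, hu⟩ := IsDiscreteValuationRing.eq_unit_mul_pow_irreducible hjy
      (PowerSeries.X_irreducible (R := k))
    have h1 : ψ ((y : L) * (t ^ n)⁻¹) = psl k (u : PowerSeries k) := by
      have h2 : ψ ((y : L) * (t ^ n)⁻¹) * ψ (t ^ n) = psl k (u : PowerSeries k) * ψ (t ^ n) := by
        rw [← map_mul, mul_assoc, inv_mul_cancel₀ (pow_ne_zero _ ht0), mul_one, ← hj, hu, map_mul,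
          map_pow, map_pow, hs, ht]
      have h3 : ψ (t ^ n) ≠ 0 := fun h => pow_ne_zero n ht0 (hψ (by rw [h, map_zero]))
      exact mul_right_cancel₀ h3 h2
    have h4 : (y : L) * (t ^ n)⁻¹ ∈ OO ψ := by
      rw [mem_OO, h1]
      exact psl_Po _
    have h5 : j ⟨(y : L) * (t ^ n)⁻¹, h4⟩ = u := psl_inj (by rw [hj]; exact h1)
    have h6 : IsUnit (⟨(y : L) * (t ^ n)⁻¹, h4⟩ : OO ψ) := by
      apply hunit
      rw [h5]
      exact (PowerSeries.isUnit_iff_constantCoeff.1 u.isUnit).ne_zero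
    refine ⟨n, h6.unit, Subtype.ext ?_⟩
    rw [MulMemClass.coe_mul, SubmonoidClass.coe_pow, IsUnit.unit_spec]
    change t ^ n * ((y : L) * (t ^ n)⁻¹) = y
    rw [mul_left_comm, mul_inv_cancel₀ (pow_ne_zero _ ht0), mul_one]
  have hdvr : IsDiscreteValuationRing (OO ψ) :=
    IsDiscreteValuationRing.ofHasUnitMulPowIrreducibleFactorization ⟨x, hirr, fun {y} hy => hfac y hy⟩
  have hfrac : IsFractionRing (OO ψ) L := by
    refine (isLocalization_iff (nonZeroDivisors (OO ψ)) L).2 ⟨?_, ?_, ?_⟩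
    · intro y
      refine IsUnit.mk0 _ fun h => ?_
      have h1 : (y : OO ψ) = 0 := Subtype.ext h
      exact nonZeroDivisors.ne_zero y.2 h1
    · intro z
      obtain ⟨n, hn⟩ := exists_low (ψ z)
      have h1 : z * t ^ n ∈ OO ψ := by
        rw [mem_OO, map_mul, map_pow, ht]
        intro m hm
        rw [HahnSeries.single_pow]
        refine mul_low (a := -(n : ℤ)) (b := (n : ℤ)) hn (fun i hi => ?_) m (by omega)
        rw [HahnSeries.coeff_single_of_ne]
        simp only [nsmul_eq_mul, mul_one]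
        omega
      have h2 : x ^ n ∈ nonZeroDivisors (OO ψ) :=
        mem_nonZeroDivisors_of_ne_zero (pow_ne_zero _ hirr.ne_zero)
      refine ⟨(⟨z * t ^ n, h1⟩, ⟨x ^ n, h2⟩), ?_⟩
      change z * ((x ^ n : OO ψ) : L) = z * t ^ n
      rw [SubmonoidClass.coe_pow]
    · intro a b hab
      refine ⟨1, ?_⟩
      rw [Subtype.ext hab]
  refine ⟨OO ψ, inferInstance, inferInstance, hdvr, inferInstance, inferInstance, inferInstance,
    hfrac, j, x, rfl, hirr, hj, fun y => ?_⟩
  rw [IsLocalRing.mem_maximalIdeal, mem_nonunits_iff, hunit', not_not]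

end Pool.Agent.MG.G0


end
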