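import Mathlib
import Pool.Agent.KDM.C02
import Pool.Agent.KDM.C24

/-! Parts: MG.G0.KFG, MG.G0.LOC, MG.G0.SDB, MG.G0.TG.TCI -/

section

/-!
# KFG: Krichever rings are finite over `A[z]` and finitely presented
-/

open TensorProduct

namespace Pool.Agent.MG.G0

namespace KFG

section one

variable {A : Type} [CommRing A]

theorem isUnit_of_lead {f : LaurentSeries A} (n : ℤ) (h0 : ∀ m < n, f.coeff m = 0)
    (h1 : f.coeff n = 1) : IsUnit f := by
  have hs : ∀ m < -n, (HahnSeries.single (-n) (1 : A)).coeff m = 0 := fun m hm =>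
    HahnSeries.coeff_single_of_ne (by omega)
  have h2 : IsUnit (f * HahnSeries.single (-n) 1) := by
    apply HahnSeries.isUnit_of_orderTop_pos
    set y : LaurentSeries A := f * HahnSeries.single (-n) 1 - 1 with hy
    have h3 : ∀ m ≤ 0, y.coeff m = 0 := by
      intro m hm
      rw [hy, HahnSeries.coeff_sub, HahnSeries.coeff_one]
      rcases hm.lt_or_eq with h4 | h4
      · rw [mul_low h0 hs m (by omega), if_neg (by omega), sub_zero]
      · have h5 := mul_lead h0 hs
        rw [h1, HahnSeries.coeff_single_same, add_neg_cancel] at h5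
        rw [h4, h5, if_pos rfl, mul_one, sub_self]
    by_cases h6 : y = 0
    · rw [h6, HahnSeries.orderTop_zero]
      exact WithTop.coe_lt_top 0
    · rw [HahnSeries.zero_lt_orderTop_iff h6]
      by_contra h7
      exact h6 (HahnSeries.coeff_order_eq_zero.1 (h3 _ (not_lt.1 h7)))
  exact isUnit_of_mul_isUnit_left h2

end one

section many

variable {I A : Type} [CommRing A]

theorem pow_mem_Pol {d : ℤ} {z : KK I A} (hz : z ∈ Pol I A d) (k : ℕ) :
    z ^ k ∈ Pol I A (k * d) := by
  induction k with
  | zero =>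
    rw [pow_zero, Nat.cast_zero, zero_mul]
    exact one_mem_Pol0
  | succ k ih =>
    rw [pow_succ]
    have h1 : ((k + 1 : ℕ) : ℤ) * d = k * d + d := by push_cast; ring
    rw [h1]
    exact mul_mem_Pol ih hz

theorem pow_lead {d : ℤ} {z : KK I A} (hz : Mon d z) (k : ℕ) (i : I) :
    ((z ^ k) i).coeff (-(k * d)) = 1 := by
  induction k with
  | zero => simp
  | succ k ih =>
    rw [pow_succ]
    have h1 : ((k + 1 : ℕ) : ℤ) * d = k * d + d := by push_cast; ring
    rw [h1, mul_Pol_lead (pow_mem_Pol hz.1 k) hz.1, ih, hz.2 i, mul_one]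

/-- The value at `z` of a polynomial of degree at most `k`. -/
theorem aeval_mem_Pol {d : ℤ} (hd : 1 ≤ d) {z : KK I A} (hz : Mon d z) (h : Polynomial A) (k : ℕ)
    (hk : h.natDegree ≤ k) : Polynomial.aeval z h ∈ Pol I A (k * d) ∧
      ∀ i, (Polynomial.aeval z h i).coeff (-(k * d)) = h.coeff k := by
  rw [Polynomial.aeval_eq_sum_range' (n := k + 1) (by omega)]
  have h1 : ∀ j ∈ Finset.range k, h.coeff j • z ^ j ∈ Pol I A (k * d - 1) := by
    intro j hj
    refine (Pol I A _).smul_mem _ (Pol_mono ?_ (pow_mem_Pol hz.1 j))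
    have h2 : (j : ℤ) + 1 ≤ k := by
      have := Finset.mem_range.1 hj
      omega
    nlinarith
  have h2 := Submodule.sum_mem _ h1
  rw [Finset.sum_range_succ]
  refine ⟨Submodule.add_mem _ (Pol_mono (by omega) h2)
    ((Pol I A _).smul_mem _ (pow_mem_Pol hz.1 k)), fun i => ?_⟩
  rw [Pi.add_apply, HahnSeries.coeff_add, h2 i _ (by omega), Pi.smul_apply, HahnSeries.coeff_smul,
    pow_lead hz, smul_eq_mul, mul_one, zero_add]

theorem isUnit_aeval {d : ℤ} (hd : 1 ≤ d) {z : KK I A} (hz : Mon d z) {h : Polynomial A}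
    (hh : h.Monic) : IsUnit (Polynomial.aeval z h) := by
  obtain ⟨h1, h2⟩ := aeval_mem_Pol hd hz h h.natDegree le_rfl
  rw [Pi.isUnit_iff]
  intro i
  refine isUnit_of_lead (-(h.natDegree * d)) (h1 i) ?_
  rw [h2 i]
  exact hh

theorem aeval_inj [Nonempty I] {d : ℤ} (hd : 1 ≤ d) {z : KK I A} (hz : Mon d z) {h : Polynomial A}
    (hh : Polynomial.aeval z h = 0) : h = 0 := by
  obtain ⟨i⟩ := ‹Nonempty I›
  obtain ⟨-, h2⟩ := aeval_mem_Pol hd hz h h.natDegree le_rfl
  have h3 := h2 i
  rw [hh, Pi.zero_apply, HahnSeries.coeff_zero] at h3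
  exact Polynomial.leadingCoeff_eq_zero.1 h3.symm

/-- Division by `z`. -/
theorem div_mem_Pol [Finite I] {d : ℤ} {z y : KK I A} (hz : Mon d z) {n : ℤ}
    (h : z * y ∈ Pol I A (n + d)) : y ∈ Pol I A n := by
  obtain ⟨m, hm⟩ := exists_Pol y
  have key : ∀ k : ℕ, y ∈ Pol I A (n + k) → y ∈ Pol I A n := by
    intro k
    induction k with
    | zero =>
      intro hk
      simpa using hk
    | succ k ih =>
      intro hk
      apply ih
      intro i l hl
      rcases lt_or_ge l (-(n + ((k + 1 : ℕ) : ℤ))) with h1 | h1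
      · exact hk i l h1
      · have h2 : l = -(n + ((k + 1 : ℕ) : ℤ)) := by
          push_cast at h1 ⊢
          omega
        have h3 := mul_Pol_lead hz.1 hk i
        rw [hz.2 i, one_mul, ← h2] at h3
        rw [← h3]
        refine h i _ ?_
        push_cast
        omega
  rcases le_or_gt (m : ℤ) n with h1 | h1
  · exact Pol_mono h1 hm
  · refine key (m - n).toNat (Pol_mono ?_ hm)
    omega

theorem div_pow_mem_Pol [Finite I] {d : ℤ} {z y : KK I A} (hz : Mon d z) {n : ℤ} (k : ℕ)
    (h : z ^ k * y ∈ Pol I A (n + k * d)) : y ∈ Pol I A n := by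
  induction k with
  | zero => simpa using h
  | succ k ih =>
    refine ih (div_mem_Pol hz ?_)
    rw [← mul_assoc, ← pow_succ', add_assoc]
    have h1 : ((k + 1 : ℕ) : ℤ) * d = k * d + d := by push_cast; ring
    rwa [← h1]

end many

section main

variable {I A : Type} [Fintype I] [Nonempty I] [CommRing A] {g : ℕ} {P : Subalgebra A (KK I A)}

/-- The elements of `P` with poles of order at most `n`, as a submodule of `P`. -/
noncomputable def Q (P : Subalgebra A (KK I A)) (n : ℤ) : Submodule A P :=
  (Pol I A n).comap P.val.toLinearMap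

omit [Fintype I] [Nonempty I] in
theorem mem_Q {n : ℤ} {f : P} : f ∈ Q P n ↔ (f : KK I A) ∈ Pol I A n := Iff.rfl

omit [Fintype I] [Nonempty I] in
theorem map_Q (n : ℤ) : (Q P n).map P.val.toLinearMap = PP P n := by
  ext f
  rw [Submodule.mem_map, mem_PP]
  constructor
  · rintro ⟨x, hx, rfl⟩
    exact ⟨x.2, hx⟩
  · rintro ⟨h1, h2⟩
    exact ⟨⟨f, h1⟩, h2, rfl⟩

omit [Fintype I] [Nonempty I] in
theorem fg_Q {n : ℤ} (h : Module.Finite A (PP P n)) : (Q P n).FG := by
  refine Submodule.fg_of_fg_map_injective P.val.toLinearMap Subtype.val_injective ?_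
  rw [map_Q]
  exact Module.Finite.iff_fg.1 h

omit [Fintype I] [Nonempty I] in
theorem finite_Q {n : ℤ} (h : Module.Finite A (PP P n)) : Module.Finite A (Q P n) :=
  Module.Finite.iff_fg.2 (fg_Q h)

/-- The two forms of this module. -/
noncomputable def eQ (P : Subalgebra A (KK I A)) (n : ℤ) : Q P n ≃ₗ[A] PP P n :=
  (Submodule.equivMapOfInjective P.val.toLinearMap Subtype.val_injective (Q P n)).trans
    (LinearEquiv.ofEq _ _ (map_Q n))

omit [Fintype I] [Nonempty I] in
theorem fp_Q {n : ℤ} (h : Module.Finite A (PP P n)) (h' : Module.Projective A (PP P n)) :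
    Module.FinitePresentation A (Q P n) := by
  have h1 : Module.Projective A (Q P n) := Module.Projective.of_equiv (eQ P n).symm
  have h2 : Module.Finite A (Q P n) := finite_Q h
  exact Module.finitePresentation_of_projective A (Q P n)

omit [Nonempty I] in
/-- Lowering the order of the pole with a multiple of `z`. -/
theorem step (hKNZ : Stmt_KNZ) (hP : IsKr g P) {N : ℕ} (hN : Dense P N) {d : ℤ} {z : P}
    (hz : Mon d (z : KK I A)) {n : ℤ} (hn : N + d < n) {f : P} (hf : f ∈ Q P n) :
    ∃ p ∈ Q P (n - d), f - z * p ∈ Q P (n - 1) := by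
  obtain ⟨-, h1⟩ := hKNZ hP
  obtain ⟨-, h2, -⟩ := h1 N hN
  obtain ⟨p, hp, hp1, hp2⟩ := h2 (n - d) (by omega) (fun i => ((f : KK I A) i).coeff (-n))
  refine ⟨⟨p, hp⟩, hp1, ?_⟩
  intro i m hm
  have h3 : (z : KK I A) * p ∈ Pol I A (d + (n - d)) := mul_mem_Pol hz.1 hp1
  have h4 : d + (n - d) = n := by ring
  rw [h4] at h3
  change (((f : KK I A) - (z : KK I A) * p) i).coeff m = 0
  rw [Pi.sub_apply, HahnSeries.coeff_sub]
  rcases lt_or_ge m (-n) with h5 | h5
  · rw [mem_Q.1 hf i m h5, h3 i m h5, sub_zero]
  · have h6 : m = -n := by omega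
    have h7 := mul_Pol_lead hz.1 hp1 i
    rw [h4, hz.2 i, one_mul, hp2 i] at h7
    rw [h6, h7, sub_self]

omit [Nonempty I] in
/-- Every element is a polynomial in `z` with coefficients with poles of order at most `N + d`. -/
theorem exists_poly (hKNZ : Stmt_KNZ) (hP : IsKr g P) {N : ℕ} (hN : Dense P N) {d : ℤ}
    (hd : 1 ≤ d) {z : P} (hz : Mon d (z : KK I A)) (f : P) :
    ∃ F : Polynomial P, (∀ k, F.coeff k ∈ Q P (N + d)) ∧ f = F.eval z := by
  have key : ∀ n : ℕ, ∀ f : P, f ∈ Q P n →
      ∃ F : Polynomial P, (∀ k, F.coeff k ∈ Q P (N + d)) ∧ f = F.eval z := by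
    intro n
    induction n using Nat.strong_induction_on with
    | _ n ih =>
      intro f hf
      by_cases hn : (n : ℤ) ≤ N + d
      · refine ⟨Polynomial.C f, fun k => ?_, (Polynomial.eval_C).symm⟩
        rw [Polynomial.coeff_C]
        split_ifs
        · exact Pol_mono hn hf
        · exact Submodule.zero_mem _
      · obtain ⟨p, hp, hp1⟩ := step hKNZ hP hN hz (not_le.1 hn) hf
        have h1 : ((n - d : ℤ).toNat : ℤ) = n - d := Int.toNat_of_nonneg (by omega)
        have h2 : ((n - 1 : ℤ).toNat : ℤ) = n - 1 := Int.toNat_of_nonneg (by omega)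
        obtain ⟨F, hF, hF1⟩ := ih (n - d : ℤ).toNat (by omega) p (by rw [h1]; exact hp)
        obtain ⟨G, hG, hG1⟩ := ih (n - 1 : ℤ).toNat (by omega) _ (by rw [h2]; exact hp1)
        refine ⟨Polynomial.X * F + G, fun k => ?_, ?_⟩
        · rw [Polynomial.coeff_add]
          refine Submodule.add_mem _ ?_ (hG k)
          rcases k with _ | k
          · rw [Polynomial.coeff_X_mul_zero]
            exact Submodule.zero_mem _
          · rw [Polynomial.coeff_X_mul]
            exact hF k
        · rw [Polynomial.eval_add, Polynomial.eval_mul, Polynomial.eval_X, ← hF1, ← hG1]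
          ring
  obtain ⟨n, hn⟩ := exists_Pol (f : KK I A)
  exact key n f hn

omit [Nonempty I] in
theorem exists_sum (hKNZ : Stmt_KNZ) (hP : IsKr g P) {N : ℕ} (hN : Dense P N) {d : ℤ}
    (hd : 1 ≤ d) {z : P} (hz : Mon d (z : KK I A)) (f : P) :
    ∃ (m : ℕ) (x : Fin m → P), (∀ k, (x k : KK I A) ∈ Pol I A (N + d)) ∧
      f = ∑ k : Fin m, z ^ (k : ℕ) * x k := by
  obtain ⟨F, hF, hF1⟩ := exists_poly hKNZ hP hN hd hz f
  refine ⟨F.natDegree + 1, fun k => F.coeff k, fun k => hF k, ?_⟩
  rw [hF1, Polynomial.eval_eq_sum_range, Finset.sum_range]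
  exact Finset.sum_congr rfl fun k _ => mul_comm _ _

omit [Fintype I] [Nonempty I] in
/-- The structure of an algebra over the polynomial ring. -/
theorem tower (z : P) :
    letI := (Polynomial.aeval (R := A) z).toRingHom.toAlgebra
    IsScalarTower A (Polynomial A) P := by
  letI := (Polynomial.aeval (R := A) z).toRingHom.toAlgebra
  refine IsScalarTower.of_algebraMap_eq fun a => ?_
  change algebraMap A P a = Polynomial.aeval z (algebraMap A (Polynomial A) a)
  rw [AlgHom.commutes]

theorem finite_aeval (hKNZ : Stmt_KNZ) (hKSP : Stmt_KSP) (hP : IsKr g P) {N : ℕ}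
    (hN : Dense P N) {d : ℤ} (hd : 1 ≤ d) {z : P} (hz : Mon d (z : KK I A)) :
    (Polynomial.aeval (R := A) z).toRingHom.Finite := by
  letI := (Polynomial.aeval (R := A) z).toRingHom.toAlgebra
  haveI := tower (P := P) z
  change Module.Finite (Polynomial A) P
  obtain ⟨-, h0⟩ := hKSP hP
  obtain ⟨-, h1⟩ := h0 N hN
  obtain ⟨S, hS⟩ := fg_Q (h1 (N + d) (by omega)).1
  refine ⟨⟨S, ?_⟩⟩
  rw [eq_top_iff]
  intro f _
  obtain ⟨F, hF, rfl⟩ := exists_poly hKNZ hP hN hd hz f
  rw [Polynomial.eval_eq_sum_range]
  refine Submodule.sum_mem _ fun k _ => ?_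
  have h2 : F.coeff k * z ^ k = (Polynomial.X ^ k : Polynomial A) • F.coeff k := by
    rw [Algebra.smul_def]
    change _ = Polynomial.aeval z (Polynomial.X ^ k : Polynomial A) * F.coeff k
    rw [map_pow, Polynomial.aeval_X, mul_comm]
  rw [h2]
  refine Submodule.smul_mem _ _ ?_
  have h3 : F.coeff k ∈ Submodule.span A (S : Set P) := by
    rw [hS]
    exact hF k
  exact Submodule.span_le_restrictScalars A (Polynomial A) (S : Set P) h3

section fp

variable (P) (z : P) (n d : ℤ)

/-- The inclusion. -/
noncomputable def i1 (hd : 0 ≤ d) : Q P n →ₗ[A] Q P (n + d) :=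
  Submodule.inclusion fun _ hx => Pol_mono (by omega) hx

variable {z d} in
/-- The multiplication by `z`. -/
noncomputable def i2 (hz : (z : KK I A) ∈ Pol I A d) : Q P n →ₗ[A] Q P (n + d) :=
  (LinearMap.mulLeft A z).restrict fun x hx => by
    change (z : KK I A) * x ∈ Pol I A (n + d)
    rw [add_comm]
    exact mul_mem_Pol hz hx

/-- The relations. -/
noncomputable def rel (hd : 0 ≤ d) (hz : (z : KK I A) ∈ Pol I A d) :
    Q P n →ₗ[A] Polynomial A ⊗[A] Q P (n + d) :=
  TensorProduct.mk A (Polynomial A) (Q P (n + d)) Polynomial.X ∘ₗ i1 P n d hd -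
    TensorProduct.mk A (Polynomial A) (Q P (n + d)) 1 ∘ₗ i2 P n hz

omit [Fintype I] [Nonempty I] in
theorem rel_apply (hd : 0 ≤ d) (hz : (z : KK I A) ∈ Pol I A d) (x : Q P n) :
    rel P z n d hd hz x = (Polynomial.X : Polynomial A) ⊗ₜ i1 P n d hd x - 1 ⊗ₜ i2 P n hz x := rfl

end fp

/-- The elements of the tensor product. -/
theorem exists_tensor {M : Type} [AddCommMonoid M] [Module A M] (t : Polynomial A ⊗[A] M) :
    ∃ (n : ℕ) (y : ℕ → M), t = ∑ k ∈ Finset.range n, (Polynomial.X ^ k : Polynomial A) ⊗ₜ[A] y k := by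
  induction t using TensorProduct.induction_on with
  | zero => exact ⟨0, fun _ => 0, by simp⟩
  | tmul p q =>
    refine ⟨p.natDegree + 1, fun k => p.coeff k • q, ?_⟩
    conv_lhs => rw [p.as_sum_range_C_mul_X_pow]
    rw [TensorProduct.sum_tmul]
    refine Finset.sum_congr rfl fun k _ => ?_
    rw [← Polynomial.smul_eq_C_mul, TensorProduct.smul_tmul]
  | add s t hs ht =>
    obtain ⟨n, y, rfl⟩ := hs
    obtain ⟨m, x, rfl⟩ := ht
    refine ⟨max n m, fun k => (if k < n then y k else 0) + (if k < m then x k else 0), ?_⟩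
    simp only [TensorProduct.tmul_add, Finset.sum_add_distrib]
    congr 1
    · rw [← Finset.sum_subset (Finset.range_subset_range.2 (le_max_left n m))]
      · refine Finset.sum_congr rfl fun k hk => ?_
        rw [if_pos (Finset.mem_range.1 hk)]
      · intro k _ hk
        rw [if_neg (fun h => hk (Finset.mem_range.2 h)), TensorProduct.tmul_zero]
    · rw [← Finset.sum_subset (Finset.range_subset_range.2 (le_max_right n m))]
      · refine Finset.sum_congr rfl fun k hk => ?_
        rw [if_pos (Finset.mem_range.1 hk)]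
      · intro k _ hk
        rw [if_neg (fun h => hk (Finset.mem_range.2 h)), TensorProduct.tmul_zero]

theorem fp_tensor (M : Type) [AddCommGroup M] [Module A M] (_ : Module.FinitePresentation A M) :
    Module.FinitePresentation (Polynomial A) (Polynomial A ⊗[A] M) := inferInstance

theorem finitePresentation (hKNZ : Stmt_KNZ) (hKSP : Stmt_KSP) (hP : IsKr g P) :
    Algebra.FinitePresentation A P := by
  obtain ⟨⟨N, hN⟩, hK⟩ := hKNZ hP
  obtain ⟨-, -, h0⟩ := hK N hN
  obtain ⟨z', hz', hz⟩ := h0 (N + 1) (by omega)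
  set z : P := ⟨z', hz'⟩ with hzdef
  set d : ℤ := N + 1 with hddef
  have hd : 1 ≤ d := by omega
  have hzM : Mon d (z : KK I A) := hz
  obtain ⟨-, hS⟩ := hKSP hP
  obtain ⟨-, hS1⟩ := hS N hN
  let _ := (Polynomial.aeval (R := A) z).toRingHom.toAlgebra
  have _ := tower (P := P) z
  have hsm : ∀ (q : Polynomial A) (x : P), q • x = Polynomial.aeval z q * x := fun q x =>
    Algebra.smul_def q x
  have hfin1 : Module.Finite A (Q P (N + d)) := finite_Q (hS1 (N + d) (by omega)).1
  have hfp : Module.FinitePresentation A (Q P (N + d + d)) :=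
    fp_Q (hS1 (N + d + d) (by omega)).1 (hS1 (N + d + d) (by omega)).2
  set r := rel P z (N + d) d (by omega) hzM.1 with hr
  set l : Polynomial A ⊗[A] Q P (N + d + d) →ₗ[Polynomial A] P :=
    LinearMap.liftBaseChange (Polynomial A) (Q P (N + d + d)).subtype with hl
  have hl1 : ∀ (p : Polynomial A) (x : Q P (N + d + d)), l (p ⊗ₜ x) = Polynomial.aeval z p * x := by
    intro p x
    rw [hl, LinearMap.liftBaseChange_tmul, hsm]
    rfl
  have hlr : ∀ x, l (r x) = 0 := by
    intro x
    rw [hr, rel_apply, map_sub, hl1, hl1, Polynomial.aeval_X, map_one, one_mul, sub_eq_zero]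
    rfl
  have hsurj : Function.Surjective l := by
    intro f
    obtain ⟨F, hF, rfl⟩ := exists_poly hKNZ hP hN hd hzM f
    refine ⟨∑ k ∈ Finset.range (F.natDegree + 1), (Polynomial.X ^ k : Polynomial A) ⊗ₜ[A]
      (⟨F.coeff k, Pol_mono (by omega) (hF k)⟩ : Q P (N + d + d)), ?_⟩
    rw [map_sum, Polynomial.eval_eq_sum_range]
    refine Finset.sum_congr rfl fun k _ => ?_
    rw [hl1, map_pow, Polynomial.aeval_X, mul_comm]
  have hker : LinearMap.ker l = LinearMap.range (LinearMap.liftBaseChange (Polynomial A) r) := by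
    apply le_antisymm
    · intro t ht
      rw [LinearMap.mem_ker] at ht
      obtain ⟨n, y, rfl⟩ := exists_tensor t
      revert y
      induction n with
      | zero =>
        intro y _
        rw [Finset.sum_range_zero]
        exact Submodule.zero_mem _
      | succ n ih =>
        intro y hy
        have h1 : ∑ k ∈ Finset.range n, z ^ k * (y k : P) + z ^ n * (y n : P) = 0 := by
          rw [← Finset.sum_range_succ, ← hy, map_sum]
          refine Finset.sum_congr rfl fun k _ => ?_
          rw [hl1, map_pow, Polynomial.aeval_X]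
        rcases n with _ | n
        · rw [Finset.sum_range_zero, zero_add, pow_zero, one_mul] at h1
          have h2 : y 0 = 0 := Subtype.ext h1
          rw [Finset.sum_range_one, h2, TensorProduct.tmul_zero]
          exact Submodule.zero_mem _
        · have h2 : (y (n + 1) : P) ∈ Q P (N + d) := by
            rw [mem_Q]
            refine div_pow_mem_Pol hzM (n + 1) ?_
            have h3 : (z : KK I A) ^ (n + 1) * ((y (n + 1) : P) : KK I A) =
                -∑ k ∈ Finset.range (n + 1), (z : KK I A) ^ k * ((y k : P) : KK I A) := by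
              have h4 := congrArg (fun x : P => (x : KK I A)) (eq_neg_of_add_eq_zero_right h1)
              simpa using h4
            rw [h3]
            refine Submodule.neg_mem _ (Submodule.sum_mem _ fun k hk => ?_)
            have h5 := mul_mem_Pol (pow_mem_Pol hzM.1 k) (mem_Q.1 (y k).2)
            refine Pol_mono ?_ h5
            have h6 : (k : ℤ) ≤ n := by
              have := Finset.mem_range.1 hk
              omega
            push_cast
            nlinarith
          set w : Q P (N + d) := ⟨(y (n + 1) : P), h2⟩ with hw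
          have h3 : (Polynomial.X ^ (n + 1) : Polynomial A) ⊗ₜ[A] y (n + 1) =
              (Polynomial.X ^ n : Polynomial A) • r w +
                (Polynomial.X ^ n : Polynomial A) ⊗ₜ[A] i2 P (N + d) hzM.1 w := by
            rw [hr, rel_apply, smul_sub, TensorProduct.smul_tmul', TensorProduct.smul_tmul',
              smul_eq_mul, smul_eq_mul, mul_one, ← pow_succ, sub_add_cancel]
            rfl
          have h4 : ∑ k ∈ Finset.range (n + 1 + 1), (Polynomial.X ^ k : Polynomial A) ⊗ₜ[A] y k =
              (Polynomial.X ^ n : Polynomial A) • r w + ∑ k ∈ Finset.range (n + 1),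
                (Polynomial.X ^ k : Polynomial A) ⊗ₜ[A]
                  (Function.update y n (y n + i2 P (N + d) hzM.1 w)) k := by
            rw [Finset.sum_range_succ, Finset.sum_range_succ, Finset.sum_range_succ (n := n), h3,
              Function.update_self, TensorProduct.tmul_add]
            have h5 : ∑ k ∈ Finset.range n, (Polynomial.X ^ k : Polynomial A) ⊗ₜ[A]
                  (Function.update y n (y n + i2 P (N + d) hzM.1 w)) k =
                ∑ k ∈ Finset.range n, (Polynomial.X ^ k : Polynomial A) ⊗ₜ[A] y k := by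
              refine Finset.sum_congr rfl fun k hk => ?_
              rw [Function.update_of_ne (Finset.mem_range.1 hk).ne]
            rw [h5]
            abel
          rw [h4]
          refine Submodule.add_mem _ (Submodule.smul_mem _ _ ?_) (ih _ ?_)
          · exact ⟨1 ⊗ₜ w, LinearMap.liftBaseChange_one_tmul _ _ _⟩
          · rw [h4, map_add, map_smul, hlr, smul_zero, zero_add] at hy
            exact hy
    · rintro _ ⟨t, rfl⟩
      rw [LinearMap.mem_ker]
      induction t using TensorProduct.induction_on with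
      | zero => simp
      | tmul p x => rw [LinearMap.liftBaseChange_tmul, map_smul, hlr, smul_zero]
      | add s t hs ht => rw [map_add, map_add, hs, ht, add_zero]
  have hfg : (LinearMap.ker l).FG := by
    rw [hker]
    exact Submodule.fg_range _
  have hT := fp_tensor (Q P (N + d + d)) hfp
  have h1 : Module.FinitePresentation (Polynomial A) P :=
    Module.finitePresentation_of_surjective l hsurj hfg
  have h2 : Algebra.FinitePresentation (Polynomial A) P :=
    Algebra.FinitePresentation.of_finitePresentation (Polynomial A) P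
  exact Algebra.FinitePresentation.trans A (Polynomial A) P

end main

end KFG

theorem t_KFG (hKNZ : Stmt_KNZ) (hKSP : Stmt_KSP) : Stmt_KFG := by
  intro I A _ _ _ g P hP
  refine ⟨KFG.finitePresentation hKNZ hKSP hP, fun N d z hN hd hz => ⟨?_, ?_, ?_, ?_, ?_⟩⟩
  · intro n hn f hf
    obtain ⟨p, hp, hp1⟩ := KFG.step hKNZ hP hN hz hn (f := ⟨f, hf.1⟩) hf.2
    exact ⟨p, ⟨p.2, hp⟩, hp1⟩
  · exact KFG.exists_sum hKNZ hP hN hd hz
  · exact KFG.finite_aeval hKNZ hKSP hP hN hd hz
  · intro h hh
    exact KFG.isUnit_aeval hd hz hh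
  · rw [injective_iff_map_eq_zero]
    intro h hh
    refine KFG.aeval_inj hd hz ?_
    have h1 := congrArg P.val hh
    rw [← Polynomial.aeval_algHom_apply, map_zero] at h1
    exact h1

end Pool.Agent.MG.G0


end

section

/-!
# LOC: extension of derivations
-/

open TensorProduct

namespace Pool.Agent.MG.G0

namespace LOC

section

variable {R W M : Type} [CommRing R] [CommRing W] [Algebra R W] [AddCommGroup M] [Module R M]
  [Module W M] [IsScalarTower R W M]

/-- Equality can be tested after multiplication with the members of a family which generates the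
unit ideal. -/
theorem ext_of {n : ℕ} (s : Fin n → R) (a : Fin n → W)
    (h : ∑ k, a k * algebraMap R W (s k) = 1) {m m' : M} (hm : ∀ k, s k • m = s k • m') :
    m = m' := by
  have key : ∀ x : M, x = ∑ k, a k • (s k • x) := by
    intro x
    calc x = (1 : W) • x := (one_smul W x).symm
      _ = (∑ k, a k * algebraMap R W (s k)) • x := by rw [h]
      _ = ∑ k, (a k * algebraMap R W (s k)) • x := Finset.sum_smul
      _ = ∑ k, a k • (s k • x) := Finset.sum_congr rfl fun k _ => by
          rw [mul_smul, algebraMap_smul]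
  rw [key m, key m']
  exact Finset.sum_congr rfl fun k _ => by rw [hm k]

/-- The same for products of two families. -/
theorem ext_of₂ {n n' : ℕ} (s : Fin n → R) (a : Fin n → W) (t : Fin n' → R) (b : Fin n' → W)
    (h : ∑ k, a k * algebraMap R W (s k) = 1) (h' : ∑ k, b k * algebraMap R W (t k) = 1)
    {m m' : M} (hm : ∀ k l, (s k * t l) • m = (s k * t l) • m') : m = m' := by
  refine ext_of s a h fun k => ?_
  refine ext_of t b h' fun l => ?_
  rw [smul_smul, smul_smul, mul_comm (t l)]
  exact hm k l

end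

variable {A R W : Type} [CommRing A] [CommRing R] [CommRing W] [Algebra A R] [Algebra A W]
  [Algebra R W] [IsScalarTower A R W]
  {M : Type} [AddCommGroup M] [Module A M] [Module R M] [Module W M] [IsScalarTower A R M]
  [IsScalarTower A W M] [IsScalarTower R W M]

omit [Algebra A W] [IsScalarTower A R W] [IsScalarTower A R M] [IsScalarTower A W M] in
/-- The value of the extension. -/
theorem exists_value (hE : Ep R W) (D : Derivation A R M) (w : W) :
    ∃ m : M, ∀ s r : R, algebraMap R W s * w = algebraMap R W r → s • m = D r - w • D s := by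
  obtain ⟨n, s, a, h1, h2⟩ := hE.2 w
  choose r hr using h2
  refine ⟨∑ k, a k • (D (r k) - w • D (s k)), fun s' r' hs' => ?_⟩
  have cross : ∀ k, s' • (D (r k) - w • D (s k)) = s k • (D r' - w • D s') := by
    intro k
    have e1 : s' * r k = s k * r' := by
      apply hE.1
      rw [map_mul, map_mul, ← hr k, ← hs']
      ring
    have e2 : s' • D (r k) + r k • D s' = s k • D r' + r' • D (s k) := by
      rw [← Derivation.leibniz, ← Derivation.leibniz, e1]
    have e3 : r k • D s' = s k • (w • D s') := by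
      rw [← algebraMap_smul W (r k), ← hr k, mul_smul, algebraMap_smul]
    have e4 : r' • D (s k) = s' • (w • D (s k)) := by
      rw [← algebraMap_smul W r', ← hs', mul_smul, algebraMap_smul]
    rw [e3, e4] at e2
    rw [smul_sub, smul_sub, sub_eq_sub_iff_add_eq_add]
    exact e2
  rw [Finset.smul_sum]
  calc ∑ k, s' • (a k • (D (r k) - w • D (s k)))
      = ∑ k, (a k * algebraMap R W (s k)) • (D r' - w • D s') := by
        refine Finset.sum_congr rfl fun k _ => ?_
        rw [smul_comm s' (a k), cross k, mul_smul, algebraMap_smul]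
    _ = D r' - w • D s' := by rw [← Finset.sum_smul, h1, one_smul]

end LOC

open _root_.Pool.Agent.MG.G0.LOC

theorem t_LOC : Stmt_LOC := by
  intro A R W _ _ _ _ _ _ _ hE M _ _ _ _ _ _ _ D
  choose e he using exists_value hE D
  have hadd : ∀ w w', e (w + w') = e w + e w' := by
    intro w w'
    obtain ⟨n, s, a, h1, h2⟩ := hE.2 w
    obtain ⟨n', t, b, h1', h2'⟩ := hE.2 w'
    choose r hr using h2
    choose r' hr' using h2'
    refine ext_of₂ s a t b h1 h1' fun k l => ?_
    have e1 : algebraMap R W (s k * t l) * w = algebraMap R W (t l * r k) := by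
      rw [map_mul, map_mul, ← hr k]
      ring
    have e2 : algebraMap R W (s k * t l) * w' = algebraMap R W (s k * r' l) := by
      rw [map_mul, map_mul, ← hr' l]
      ring
    have e3 : algebraMap R W (s k * t l) * (w + w') = algebraMap R W (t l * r k + s k * r' l) := by
      rw [mul_add, e1, e2, map_add]
    rw [smul_add, he w _ _ e1, he w' _ _ e2, he (w + w') _ _ e3, map_add, add_smul]
    abel
  have hsmul : ∀ (c : A) (w : W), e (c • w) = c • e w := by
    intro c w
    obtain ⟨n, s, a, h1, h2⟩ := hE.2 w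
    choose r hr using h2
    refine ext_of s a h1 fun k => ?_
    have e1 : algebraMap R W (s k) * (c • w) = algebraMap R W (c • r k) := by
      rw [mul_smul_comm, hr k, Algebra.smul_def, Algebra.smul_def, map_mul,
        ← IsScalarTower.algebraMap_apply]
    rw [he _ _ _ e1, smul_comm (s k) c (e w), he w _ _ (hr k),
      D.map_smul c (r k), smul_sub, smul_assoc]
  have hleib : ∀ w w', e (w * w') = w • e w' + w' • e w := by
    intro w w'
    obtain ⟨n, s, a, h1, h2⟩ := hE.2 w
    obtain ⟨n', t, b, h1', h2'⟩ := hE.2 w'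
    choose r hr using h2
    choose r' hr' using h2'
    refine ext_of₂ s a t b h1 h1' fun k l => ?_
    have e1 : algebraMap R W (s k * t l) * (w * w') = algebraMap R W (r k * r' l) := by
      rw [map_mul, map_mul, ← hr k, ← hr' l]
      ring
    have e2 := he w _ _ (hr k)
    have e3 := he w' _ _ (hr' l)
    have e4 : (s k * t l) • (w • e w') = r k • (t l • e w') := by
      rw [← algebraMap_smul W (r k), ← hr k, ← algebraMap_smul W (s k * t l),
        ← algebraMap_smul W (t l), smul_smul, smul_smul, map_mul]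
      congr 1
      ring
    have e5 : (s k * t l) • (w' • e w) = r' l • (s k • e w) := by
      rw [← algebraMap_smul W (r' l), ← hr' l, ← algebraMap_smul W (s k * t l),
        ← algebraMap_smul W (s k), smul_smul, smul_smul, map_mul]
      congr 1
      ring
    rw [smul_add, e4, e5, e3, e2, he _ _ _ e1, Derivation.leibniz, Derivation.leibniz, smul_sub,
      smul_sub, smul_add]
    have e6 : r k • (w' • D (t l)) = (w * w') • (s k • D (t l)) := by
      rw [← algebraMap_smul W (r k), ← hr k, ← algebraMap_smul W (s k), smul_smul, smul_smul]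
      congr 1
      ring
    have e7 : r' l • (w • D (s k)) = (w * w') • (t l • D (s k)) := by
      rw [← algebraMap_smul W (r' l), ← hr' l, ← algebraMap_smul W (t l), smul_smul, smul_smul]
      congr 1
      ring
    rw [e6, e7]
    abel
  let L : W →ₗ[A] M :=
    { toFun := e
      map_add' := hadd
      map_smul' := hsmul }
  refine ⟨Derivation.mk' L hleib, fun r => ?_, fun E' hE' => ?_⟩
  · show e (algebraMap R W r) = D r
    have h1 := he (algebraMap R W r) 1 r (by rw [map_one, one_mul])
    rw [one_smul, Derivation.map_one_eq_zero, smul_zero, sub_zero] at h1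
    exact h1
  · refine Derivation.ext fun w => ?_
    show E' w = e w
    obtain ⟨n, s, a, h1, h2⟩ := hE.2 w
    choose r hr using h2
    refine ext_of s a h1 fun k => ?_
    rw [he w _ _ (hr k), ← hE' (r k), ← hE' (s k), ← hr k, Derivation.leibniz,
      algebraMap_smul, add_sub_cancel_right]

end Pool.Agent.MG.G0


end

section

/-!
# Base change of smooth Krichever rings (PAPER SM6)
-/

open TensorProduct

namespace Pool.Agent.MG.G0

namespace SDB

variable {I A B : Type} [CommRing A] [CommRing B]

theorem mem_bc_iff (hKBC : Stmt_KBC) (φ : A →+* B) (P : Subalgebra A (KK I A)) {f : KK I B} :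
    f ∈ bc φ P ↔ f ∈ Submodule.span B (kmap φ '' (P : Set (KK I A))) := by
  rw [← hKBC.1 φ P, Subalgebra.mem_toSubmodule]

theorem kmap_mem_TT (hKBC : Stmt_KBC) (φ : A →+* B) {P : Subalgebra A (KK I A)} {θ : KK I A}
    (hθ : θ ∈ TT P) : kmap φ θ ∈ TT (bc φ P) := by
  intro f hf
  rw [mem_bc_iff hKBC] at hf
  induction hf using Submodule.span_induction with
  | mem x hx =>
    obtain ⟨p, hp, rfl⟩ := hx
    rw [← kmap_dd, ← map_mul]
    exact kmap_mem_bc φ (hθ p hp)
  | zero =>
    have h0 : dd (0 : KK I B) = 0 := map_zero (ddD I B)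
    rw [h0, mul_zero]
    exact zero_mem _
  | add x y _ _ hx hy =>
    rw [dd_add, mul_add]
    exact add_mem hx hy
  | smul b x _ hx =>
    rw [dd_smul, mul_smul_comm]
    exact (bc φ P).smul_mem hx b

theorem mul_mem_TT {P : Subalgebra A (KK I A)} {p θ : KK I A} (hp : p ∈ P) (hθ : θ ∈ TT P) :
    p * θ ∈ TT P := fun f hf => by
  rw [mul_assoc]
  exact mul_mem hp (hθ f hf)

/-- The vector fields on the base change. -/
theorem TT_bc [Fintype I] [Nonempty I] (hKBC : Stmt_KBC) (hSTO : Stmt_STO) {g : ℕ}
    {P : Subalgebra A (KK I A)} (hP : IsKr g P) (hS : SmC A P) (φ : A →+* B) :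
    TT (bc φ P) = Submodule.span B (kmap φ '' (TT P : Set (KK I A))) := by
  obtain ⟨-, -, -, -, h⟩ := hSTO hP
  obtain ⟨-, ⟨n, θ, g', hθ, hg', h1⟩, -⟩ := h hS
  refine le_antisymm ?_ ?_
  · intro x hx
    have e1 : x = ∑ i, (x * dd (kmap φ (g' i))) * kmap φ (θ i) := by
      have e2 : kmap φ (∑ i, θ i * dd (g' i)) = 1 := by rw [h1, map_one]
      rw [map_sum] at e2
      calc x = x * 1 := (mul_one x).symm
        _ = x * ∑ i, kmap φ (θ i * dd (g' i)) := by rw [e2]
        _ = ∑ i, (x * dd (kmap φ (g' i))) * kmap φ (θ i) := by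
          rw [Finset.mul_sum]
          refine Finset.sum_congr rfl fun i _ => ?_
          rw [map_mul, kmap_dd]
          ring
    rw [e1]
    refine sum_mem fun i _ => ?_
    have h2 : x * dd (kmap φ (g' i)) ∈ bc φ P := hx _ (kmap_mem_bc φ (hg' i))
    rw [mem_bc_iff hKBC] at h2
    generalize x * dd (kmap φ (g' i)) = w at h2 ⊢
    induction h2 using Submodule.span_induction with
    | mem y hy =>
      obtain ⟨p, hp, rfl⟩ := hy
      rw [← map_mul]
      exact Submodule.subset_span ⟨p * θ i, mul_mem_TT hp (hθ i), rfl⟩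
    | zero =>
      rw [zero_mul]
      exact zero_mem _
    | add y z _ _ hy hz =>
      rw [add_mul]
      exact add_mem hy hz
    | smul b y _ hy =>
      rw [smul_mul_assoc]
      exact Submodule.smul_mem _ b hy
  · rw [Submodule.span_le]
    rintro _ ⟨θ', hθ', rfl⟩
    exact kmap_mem_TT hKBC φ hθ'

/-- Smoothness of the base change. -/
theorem SmC_bc [Fintype I] [Nonempty I] (hKBT : Stmt_KBT) (hSBC : Stmt_SBC) {g : ℕ}
    {P : Subalgebra A (KK I A)} (hP : IsKr g P) (hS : SmC A P) (φ : A →+* B) :
    SmC B (bc φ P) := by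
  let _ : Algebra A B := φ.toAlgebra
  obtain ⟨-, e, -⟩ := hKBT (B := B) hP
  exact hSBC.2.1 e (hSBC.1 hS)

end SDB

theorem t_SDB (hKBC : Stmt_KBC) (hKBT : Stmt_KBT) (hSTO : Stmt_STO) (hSBC : Stmt_SBC)
    (hPBC : Stmt_PBC) : Stmt_SDB := by
  intro I A B _ _ _ _ g P hP hS φ
  refine ⟨SDB.SmC_bc hKBT hSBC hP hS φ, fun hD => ?_, SDB.TT_bc hKBC hSTO hP hS φ⟩
  intro θ hθ η hη
  rw [SDB.TT_bc hKBC hSTO hP hS φ] at hθ
  rw [hPBC hP φ] at hη
  induction hθ using Submodule.span_induction with
  | mem x hx =>
    obtain ⟨θ', hθ', rfl⟩ := hx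
    induction hη using Submodule.span_induction with
    | mem y hy =>
      obtain ⟨η', hη', rfl⟩ := hy
      rw [← map_mul]
      exact kmap_mem_bc φ (hD θ' hθ' η' hη')
    | zero =>
      rw [mul_zero]
      exact zero_mem _
    | add y z _ _ hy hz =>
      rw [mul_add]
      exact add_mem hy hz
    | smul b y _ hy =>
      rw [mul_smul_comm]
      exact (bc φ P).smul_mem hy b
  | zero =>
    rw [zero_mul]
    exact zero_mem _
  | add y z _ _ hy hz =>
    rw [add_mul]
    exact add_mem hy hz
  | smul b y _ hy =>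
    rw [smul_mul_assoc]
    exact (bc φ P).smul_mem hy b

end Pool.Agent.MG.G0


end

section

/-!
# TCI: the base change of `R[1/b]` in the Laurent series (PAPER_TG.md)
-/

open TensorProduct

namespace Pool.Agent.MG.G0

namespace TCI

section

variable {I A B : Type} [CommRing A] [CommRing B] [Algebra A B]

theorem tower : IsScalarTower A B (KK I B) :=
  IsScalarTower.of_algebraMap_eq fun _ => rfl

/-- The map `R → KK I B`. -/
noncomputable def kR (R : Subalgebra A (KK I A)) : R →ₐ[A] KK I B :=
  { toRingHom := (kmap (algebraMap A B)).comp (R.val : R →+* KK I A)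
    commutes' := fun a => by
      change kmap (algebraMap A B) (algebraMap A (KK I A) a) = _
      rw [kmap_algebraMap]
      rfl }

theorem kR_apply (R : Subalgebra A (KK I A)) (f : R) :
    kR (B := B) R f = kmap (algebraMap A B) (f : KK I A) := rfl

theorem isUnit_kR (R : Subalgebra A (KK I A)) (b : R) (hb : IsUnit (b : KK I A)) :
    ∀ y : Submonoid.powers b, IsUnit (kR (B := B) R y) := by
  rintro ⟨y, n, hn⟩
  change IsUnit (kR (B := B) R y)
  subst hn
  rw [map_pow]
  exact (hb.map (kmap (algebraMap A B))).pow n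

/-- The map `R[1/b] → KK I B`. -/
noncomputable def kL (R : Subalgebra A (KK I A)) (b : R) (hb : IsUnit (b : KK I A)) :
    Localization.Away b →ₐ[A] KK I B :=
  IsLocalization.liftAlgHom (M := Submonoid.powers b) (f := kR (B := B) R) (isUnit_kR R b hb)

theorem kL_algebraMap (R : Subalgebra A (KK I A)) (b : R) (hb : IsUnit (b : KK I A)) (f : R) :
    kL (B := B) R b hb (algebraMap R (Localization.Away b) f) =
      kmap (algebraMap A B) (f : KK I A) := by
  rw [kL, IsLocalization.liftAlgHom_apply, IsLocalization.lift_eq]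
  rfl

/-- Common denominators. -/
theorem denom (R : Subalgebra A (KK I A)) (b : R) (y : B ⊗[A] Localization.Away b) :
    ∃ (n m : ℕ) (a : Fin m → B) (f : Fin m → R),
      ((1 : B) ⊗ₜ[A] algebraMap R (Localization.Away b) (b ^ n)) * y =
        ∑ k, a k ⊗ₜ[A] algebraMap R (Localization.Away b) (f k) := by
  have step : ∀ (n n' m : ℕ) (a : Fin m → B) (f : Fin m → R) (z : B ⊗[A] Localization.Away b),
      ((1 : B) ⊗ₜ[A] algebraMap R (Localization.Away b) (b ^ n)) * z =
        ∑ k, a k ⊗ₜ[A] algebraMap R (Localization.Away b) (f k) →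
      ((1 : B) ⊗ₜ[A] algebraMap R (Localization.Away b) (b ^ (n + n'))) * z =
        ∑ k, a k ⊗ₜ[A] algebraMap R (Localization.Away b) (b ^ n' * f k) := by
    intro n n' m a f z hz
    have e1 : ((1 : B) ⊗ₜ[A] algebraMap R (Localization.Away b) (b ^ (n + n'))) =
        ((1 : B) ⊗ₜ[A] algebraMap R (Localization.Away b) (b ^ n')) *
          ((1 : B) ⊗ₜ[A] algebraMap R (Localization.Away b) (b ^ n)) := by
      rw [Algebra.TensorProduct.tmul_mul_tmul, one_mul, ← map_mul, ← pow_add, add_comm n']
    rw [e1, mul_assoc, hz, Finset.mul_sum]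
    refine Finset.sum_congr rfl fun k _ => ?_
    rw [Algebra.TensorProduct.tmul_mul_tmul, one_mul, ← map_mul]
  induction y using TensorProduct.induction_on with
  | zero => exact ⟨0, 0, fun _ => 0, fun _ => 0, by rw [mul_zero, Finset.univ_eq_empty,
      Finset.sum_empty]⟩
  | tmul x s =>
    obtain ⟨⟨f, ⟨_, n, rfl⟩⟩, hs⟩ := IsLocalization.surj (Submonoid.powers b) s
    refine ⟨n, 1, fun _ => x, fun _ => f, ?_⟩
    rw [Algebra.TensorProduct.tmul_mul_tmul, one_mul, Finset.univ_unique, Finset.sum_singleton,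
      mul_comm (algebraMap R (Localization.Away b) (b ^ n)) s]
    exact congrArg (fun z => x ⊗ₜ[A] z) hs
  | add y z hy hz =>
    obtain ⟨n, m, a, f, h1⟩ := hy
    obtain ⟨n', m', a', f', h2⟩ := hz
    refine ⟨n + n', m + m', Fin.append a a',
      Fin.append (fun k => b ^ n' * f k) (fun k => b ^ n * f' k), ?_⟩
    rw [mul_add, step n n' m a f y h1, Fin.sum_univ_add]
    have h3 := step n' n m' a' f' z h2
    rw [add_comm n' n] at h3
    rw [h3]
    congr 1
    · refine Finset.sum_congr rfl fun k _ => ?_
      rw [Fin.append_left, Fin.append_left]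
    · refine Finset.sum_congr rfl fun k _ => ?_
      rw [Fin.append_right, Fin.append_right]

end

end TCI

theorem t_TCI (hKBT : Stmt_KBT) : Stmt_TCI := by
  intro I A B _ _ _ _ _ h R hR b hb
  have := TCI.tower (I := I) (A := A) (B := B)
  let E : (B ⊗[A] Localization.Away b) →ₐ[B] KK I B :=
    Algebra.TensorProduct.lift (Algebra.ofId B (KK I B)) (TCI.kL R b hb)
      fun _ _ => Commute.all _ _
  have hE : ∀ (a : B) (f : R), E (a ⊗ₜ[A] algebraMap R (Localization.Away b) f) =
      a • kmap (algebraMap A B) (f : KK I A) := by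
    intro a f
    change Algebra.TensorProduct.lift _ _ _ _ = _
    rw [Algebra.TensorProduct.lift_tmul, TCI.kL_algebraMap, Algebra.smul_def]
    rfl
  refine ⟨E, ?_, hE, TCI.denom R b⟩
  rw [injective_iff_map_eq_zero]
  intro y hy
  obtain ⟨n, m, a, f, h1⟩ := TCI.denom R b y
  have h2 : ∑ k, a k • kmap (algebraMap A B) (f k : KK I A) = 0 := by
    have h3 := congrArg E h1
    rw [map_mul, hy, mul_zero, map_sum] at h3
    simp only [hE] at h3
    exact h3.symm
  have h4 := (hKBT hR).1 m a f h2
  have h5 : ∑ k, a k ⊗ₜ[A] algebraMap R (Localization.Away b) (f k) = 0 := by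
    have h6 := congrArg (LinearMap.lTensor B
      (IsScalarTower.toAlgHom A R (Localization.Away b)).toLinearMap) h4
    rw [map_sum, map_zero] at h6
    exact h6
  rw [h5] at h1
  have hu : IsUnit ((1 : B) ⊗ₜ[A] algebraMap R (Localization.Away b) (b ^ n)) := by
    have h7 : IsUnit (algebraMap R (Localization.Away b) (b ^ n)) := by
      rw [map_pow]
      exact (IsLocalization.Away.algebraMap_isUnit b).pow n
    exact h7.map (Algebra.TensorProduct.includeRight : Localization.Away b →ₐ[A]
      B ⊗[A] Localization.Away b)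
  exact (hu.mul_right_eq_zero).1 h1

end Pool.Agent.MG.G0


end
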