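import Mathlib
import Pool.Agent.KDM.C08
import Pool.Agent.KDM.C13
import Pool.Agent.KDM.C15
import Pool.Agent.KDM.C24
import Pool.Agent.KDM.C25
import Pool.Agent.KDM.C26
import Pool.Agent.KDM.C28
import Pool.Agent.KDM.C30
import Pool.Agent.KDM.C31
import Pool.Agent.KDM.C33
import Pool.Agent.KDM.C35
import Pool.Agent.KDM.C37
import Pool.Agent.KDM.C45
import Pool.Agent.KDM.C54
import Pool.Agent.KDM.C56

/-! Parts: MG.WL.PNE, MG.KX.MTHA, MG.KX.MTH, MG.G0.HV8, MG.G0.TG.TRX, MG.G0.UEM, MG.G0.UGL, MG.G0.UZT -/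

section

/-!
# Preliminary nice covers over local rings
-/

open CategoryTheory CategoryTheory.Limits AlgebraicGeometry TensorProduct

namespace Pool.Agent.MG.WL

open Pool.Agent.MG.W Pool.Agent.MG.One Pool.Agent.MG.GLU

namespace PNE

/-! ### The topology of a Weierstrass curve over a field -/

section WXtop

variable (K : Type) [Field K] (a b : K)

/-- Nonzero primes of the ring of the affine curve are maximal. -/
theorem max1 (P : Ideal (A1 K a b)) (hP : P.IsPrime) (h0 : P ≠ ⊥) : P.IsMaximal := by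
  have hdom := WDM.dom1 K a b
  obtain ⟨w1, -⟩ := t_WRG K a b
  let _ : Algebra (Polynomial K) (A1 K a b) := (Polynomial.aeval (x1 K a b)).toRingHom.toAlgebra
  have halg : ∀ p : Polynomial K, algebraMap (Polynomial K) (A1 K a b) p =
      Polynomial.aeval (x1 K a b) p := fun _ => rfl
  have hfin : Module.Finite (Polynomial K) (A1 K a b) := by
    classical
    refine ⟨⟨{1, y1 K a b}, ?_⟩⟩
    rw [Submodule.eq_top_iff']
    intro v
    obtain ⟨⟨p, q⟩, hpq, -⟩ := w1 v
    rw [Finset.coe_insert, Finset.coe_singleton, Submodule.mem_span_pair]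
    refine ⟨p, q, ?_⟩
    rw [Algebra.smul_def, Algebra.smul_def, halg, halg, mul_one]
    exact hpq.symm
  have hint : Algebra.IsIntegral (Polynomial K) (A1 K a b) := Algebra.IsIntegral.of_finite _ _
  obtain ⟨v, hv, hv0⟩ := Submodule.exists_mem_ne_zero_of_ne_bot h0
  have h1 : P.comap (algebraMap (Polynomial K) (A1 K a b)) ≠ ⊥ :=
    Ideal.comap_ne_bot_of_integral_mem hv0 hv (Algebra.IsIntegral.isIntegral v)
  have h2 : (P.comap (algebraMap (Polynomial K) (A1 K a b))).IsPrime := hP.comap _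
  have h3 : (P.comap (algebraMap (Polynomial K) (A1 K a b))).IsMaximal := h2.isMaximal h1
  exact Ideal.isMaximal_of_isIntegral_of_isMaximal_comap P h3

/-- A closed set of the affine curve which does not contain the generic point is finite. -/
theorem fin1 [IsDomain (A1 K a b)] (Z : Set (PrimeSpectrum (A1 K a b))) (hZ : IsClosed Z)
    (h : (⊥ : PrimeSpectrum (A1 K a b)) ∉ Z) : Z.Finite := by
  obtain ⟨I, rfl⟩ := (PrimeSpectrum.isClosed_iff_zeroLocus_ideal Z).mp hZ
  have hI : I ≠ ⊥ := by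
    rintro rfl
    apply h
    exact le_refl (⊥ : Ideal (A1 K a b))
  have h1 := Ideal.finite_minimalPrimes_of_isNoetherianRing (A1 K a b) I
  refine Set.Finite.of_finite_image (f := PrimeSpectrum.asIdeal) (h1.subset ?_)
    (fun x _ y _ hxy => PrimeSpectrum.ext hxy)
  rintro _ ⟨p, hp, rfl⟩
  have hp' : I ≤ p.asIdeal := hp
  have := p.isPrime
  obtain ⟨q, hq, hqp⟩ := Ideal.exists_minimalPrimes_le hp'
  have hq0 : q ≠ ⊥ := by
    rintro rfl
    exact hI (le_bot_iff.mp hq.1.2)
  have hm := max1 K a b q hq.1.1 hq0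
  have h2 : q = p.asIdeal := hm.eq_of_le p.isPrime.ne_top hqp
  rw [← h2]
  exact hq

/-- The points of the second chart which do not lie in the first one. -/
theorem two2 (p : PrimeSpectrum (A2 K a b)) (hp : z2 K a b ∈ p.asIdeal) :
    p.asIdeal = Ideal.span {z2 K a b} := by
  obtain ⟨-, w2, -⟩ := t_WRG K a b
  apply le_antisymm
  · intro v hv
    have h1 := w2 v
    have h2 : algebraMap K (A2 K a b) (inf2 K a b v) ∈ p.asIdeal := by
      have h3 : v - algebraMap K (A2 K a b) (inf2 K a b v) ∈ p.asIdeal := by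
        refine (Ideal.span_le.mpr ?_) h1
        rw [Set.singleton_subset_iff]
        exact hp
      have h4 := p.asIdeal.sub_mem hv h3
      rwa [sub_sub_cancel] at h4
    have h5 : inf2 K a b v = 0 := by
      by_contra hne
      have h6 : IsUnit (algebraMap K (A2 K a b) (inf2 K a b v)) :=
        (IsUnit.mk0 _ hne).map (algebraMap K (A2 K a b))
      exact p.isPrime.ne_top (Ideal.eq_top_of_isUnit_mem _ h2 h6)
    rw [h5, map_zero, sub_zero] at h1
    exact h1
  · rw [Ideal.span_le, Set.singleton_subset_iff]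
    exact hp

theorem cond_pt (q : Sp (A12 K a b)) :
    WX.in1 K a b (spMap (g1 K a b) q) = WX.in2 K a b (spMap (g2 K a b) q) := by
  have hcond : spMap (g1 K a b) ≫ WX.in1 K a b = spMap (g2 K a b) ≫ WX.in2 K a b :=
    pushout.condition
  rw [← Scheme.Hom.comp_apply, hcond, Scheme.Hom.comp_apply]

theorem wx_cover (x : WX K a b) : (∃ p, WX.in1 K a b p = x) ∨
    ∃ p : PrimeSpectrum (A2 K a b), z2 K a b ∈ p.asIdeal ∧ WX.in2 K a b p = x := by
  have h0 : x ∈ Set.range (WX.in1 K a b) ∪ Set.range (WX.in2 K a b) :=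
    glue2_surj (spMap (g1 K a b)) (spMap (g2 K a b)) x
  rcases h0 with ⟨p, hp⟩ | ⟨p, hp⟩
  · exact Or.inl ⟨p, hp⟩
  · by_cases hz : z2 K a b ∈ (p : PrimeSpectrum (A2 K a b)).asIdeal
    · exact Or.inr ⟨p, hz, hp⟩
    · left
      have h1 : (p : PrimeSpectrum (A2 K a b)) ∈
          Set.range (PrimeSpectrum.comap (algebraMap (A2 K a b) (A12 K a b))) := by
        rw [PrimeSpectrum.localization_away_comap_range (A12 K a b) (z2 K a b)]
        exact hz
      obtain ⟨p', hp'⟩ := h1
      exact ⟨spMap (g1 K a b) p', (cond_pt K a b p').trans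
        ((congrArg (WX.in2 K a b) hp').trans hp)⟩

/-- The generic point. -/
noncomputable def eta [IsDomain (A1 K a b)] : WX K a b :=
  WX.in1 K a b (⊥ : PrimeSpectrum (A1 K a b))

theorem eta_eq [IsDomain (A1 K a b)] [IsDomain (A2 K a b)] :
    eta K a b = WX.in2 K a b (⊥ : PrimeSpectrum (A2 K a b)) := by
  have := WDM.dom12 K a b
  obtain ⟨-, -, w3, w4, -⟩ := t_WRG K a b
  have e1 : spMap (g1 K a b) (⊥ : PrimeSpectrum (A12 K a b)) =
      (⊥ : PrimeSpectrum (A1 K a b)) := by
    apply PrimeSpectrum.ext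
    change Ideal.comap (g1 K a b) ⊥ = ⊥
    exact Ideal.comap_bot_of_injective _ w4
  have e2 : spMap (g2 K a b) (⊥ : PrimeSpectrum (A12 K a b)) =
      (⊥ : PrimeSpectrum (A2 K a b)) := by
    apply PrimeSpectrum.ext
    change Ideal.comap (g2 K a b) ⊥ = ⊥
    exact Ideal.comap_bot_of_injective _ w3
  exact (congrArg (WX.in1 K a b) e1.symm).trans
    ((cond_pt K a b (⊥ : PrimeSpectrum (A12 K a b))).trans (congrArg (WX.in2 K a b) e2))

theorem eta_spec [IsDomain (A1 K a b)] [IsDomain (A2 K a b)] (x : WX K a b) :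
    eta K a b ⤳ x := by
  rcases wx_cover K a b x with ⟨p, rfl⟩ | ⟨p, -, rfl⟩
  · exact Specializes.map ((PrimeSpectrum.le_iff_specializes _ _).mp bot_le)
      (WX.in1 K a b).continuous
  · rw [eta_eq]
    exact Specializes.map ((PrimeSpectrum.le_iff_specializes _ _).mp bot_le)
      (WX.in2 K a b).continuous

/-- A closed set of the curve which does not contain the generic point is finite. -/
theorem eta_fin [IsDomain (A1 K a b)] (Z : Set (WX K a b)) (hZ : IsClosed Z)
    (h : eta K a b ∉ Z) : Z.Finite := by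
  have h1 : ((WX.in1 K a b) ⁻¹' Z).Finite :=
    fin1 K a b _ (hZ.preimage (WX.in1 K a b).continuous) h
  have h2 : {p : PrimeSpectrum (A2 K a b) | z2 K a b ∈ p.asIdeal}.Finite := by
    refine Set.Subsingleton.finite fun p hp p' hp' => ?_
    apply PrimeSpectrum.ext
    rw [two2 K a b p hp, two2 K a b p' hp']
  refine ((h1.image (WX.in1 K a b)).union (h2.image (WX.in2 K a b))).subset ?_
  intro x hx
  rcases wx_cover K a b x with ⟨p, rfl⟩ | ⟨p, hp, rfl⟩
  · exact Or.inl ⟨p, hx, rfl⟩
  · exact Or.inr ⟨p, hp, rfl⟩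

/-- The point at infinity is not the generic point. -/
theorem inf_ne [IsDomain (A1 K a b)] [IsDomain (A2 K a b)] (s : Sp K) :
    WX.in2 K a b (spMap (inf2 K a b) s) ≠ eta K a b := by
  rw [eta_eq]
  intro h
  have h1 := (WX.in2 K a b).isOpenEmbedding.injective h
  have h2 : z2 K a b ∈ ((⊥ : PrimeSpectrum (A2 K a b))).asIdeal := by
    rw [← h1]
    change inf2 K a b (z2 K a b) ∈ (s : PrimeSpectrum K).asIdeal
    have h3 : inf2 K a b (z2 K a b) = 0 := lift2_z _ _ _ _
    rw [h3]
    exact Ideal.zero_mem _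
  have h3 : z2 K a b = 0 := h2
  have h4 : IsUnit (g2 K a b (z2 K a b)) :=
    IsLocalization.Away.algebraMap_isUnit (S := A12 K a b) (z2 K a b)
  have := WDM.dom12 K a b
  have h5 : g2 K a b (z2 K a b) = 0 := (congrArg (g2 K a b) h3).trans (map_zero _)
  rw [h5] at h4
  exact not_isUnit_zero h4

end WXtop

/-! ### The closed fibre -/

section closedFibre

variable (B : Type) [CommRing B] [IsLocalRing B]

/-- An algebraic closure of the residue field. -/
abbrev kb : Type := AlgebraicClosure (IsLocalRing.ResidueField B)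

/-- The geometric point over the closed point. -/
noncomputable def sb : B →+* kb B :=
  (algebraMap (IsLocalRing.ResidueField B) (kb B)).comp (IsLocalRing.residue B)

theorem sb_int : (sb B).IsIntegral := by
  refine RingHom.IsIntegral.trans _ _ ?_ ?_
  · exact RingHom.isIntegral_of_surjective _ Ideal.Quotient.mk_surjective
  · intro x
    exact Algebra.IsIntegral.isIntegral (R := IsLocalRing.ResidueField B) x

theorem sb_pt (s : Sp (kb B)) : spMap (sb B) s = IsLocalRing.closedPoint B := by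
  apply PrimeSpectrum.ext
  change Ideal.comap (sb B) (s : PrimeSpectrum (kb B)).asIdeal = IsLocalRing.maximalIdeal B
  have h1 : (s : PrimeSpectrum (kb B)).asIdeal = ⊥ :=
    (Ideal.eq_bot_or_top _).resolve_right (s : PrimeSpectrum (kb B)).isPrime.ne_top
  rw [h1]
  ext x
  rw [Ideal.mem_comap, Ideal.mem_bot]
  change algebraMap _ (kb B) (IsLocalRing.residue B x) = 0 ↔ _
  rw [map_eq_zero_iff _ (algebraMap (IsLocalRing.ResidueField B) (kb B)).injective,
    IsLocalRing.residue_eq_zero_iff]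

theorem kb_char [Algebra ℂ B] : CharZero (kb B) :=
  charZero_of_injective_ringHom ((sb B).comp (algebraMap ℂ B)).injective

variable {B}

/-- The square of the sections of an arrow is cartesian. -/
theorem sec_cart {n : ℕ} {A A' : Type} [CommRing A] [CommRing A'] {φ : A →+* A'} {C : Fam n A}
    {y : Fam n A'} (a : Arrow φ y C) (i : Fin n) :
    IsPullback (spMap φ) (y.σ i) (C.σ i) a.f := by
  refine IsPullback.of_bot ?_ (a.sec i).symm a.cart
  rw [y.sec, C.sec]
  exact IsPullback.of_vert_isIso ⟨by rw [Category.comp_id, Category.id_comp]⟩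

theorem sec_pt {n : ℕ} {A : Type} [CommRing A] (C : Fam n A) (i : Fin n) (s : Sp A) :
    C.π (C.σ i s) = s := by
  rw [← Scheme.Hom.comp_apply, C.sec]
  rfl

/-- The topology of the closed fibre: it has a generic point `η`, it is not the point of the
section, closed subsets which do not contain `η` are finite, and the other points are closed. -/
theorem fibre [Algebra ℂ B] (hCL : Stmt_CL) (y : Fam 1 B) (hy : IsStable 1 y) :
    ∃ η : y.X, y.π η = IsLocalRing.closedPoint B ∧ η ∉ Set.range (y.σ 0) ∧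
      (∀ x : y.X, y.π x = IsLocalRing.closedPoint B → η ⤳ x) ∧
      (∀ Z : Set y.X, IsClosed Z → η ∉ Z →
        (Z ∩ {x | y.π x = IsLocalRing.closedPoint B}).Finite) ∧
      ∀ x : y.X, y.π x = IsLocalRing.closedPoint B → x ≠ η → IsClosed {x} := by
  have hchar := kb_char B
  obtain ⟨a, b, -, f, hf⟩ := hCL (PBS.bc (sb B) y) (PBS.bc_stable _ _ hy)
  have hst := PBS.bc_stable (sb B) y hy
  have hd1 : IsDomain (A1 (kb B) a b) := WDM.dom1 (kb B) a b
  have hd2 : IsDomain (A2 (kb B) a b) := WDM.dom2 (kb B) a b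
  let ar : Arrow (sb B) (PBS.bc (sb B) y) y := PBS.bcArrow (sb B) y
  let F : (PBS.bc (sb B) y).X ⟶ WX (kb B) a b := f.f
  have hF : IsIso F := hf
  let G : WX (kb B) a b ⟶ y.X := inv F ≫ ar.f
  have hint : IsIntegralHom ar.f := by
    have h0 : IsIntegralHom (spMap (sb B)) := IsIntegralHom.SpecMap_iff.mpr (sb_int B)
    exact MorphismProperty.of_isPullback (P := @IsIntegralHom) ar.cart.flip h0
  have hGint : IsIntegralHom G := inferInstance
  have hGclosed : IsClosedMap G := G.isClosedMap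
  have hGπ : ∀ w, y.π (G w) = IsLocalRing.closedPoint B := by
    intro w
    have e : G ≫ y.π = (inv F ≫ (PBS.bc (sb B) y).π) ≫ spMap (sb B) := by
      rw [Category.assoc, Category.assoc, ar.cart.w]
    rw [← Scheme.Hom.comp_apply, e, Scheme.Hom.comp_apply, sb_pt]
  have hGsurj : ∀ x : y.X, y.π x = IsLocalRing.closedPoint B → ∃ w, G w = x := by
    intro x hx
    obtain ⟨z, hz, -⟩ := Scheme.exists_preimage_of_isPullback ar.cart x
      (IsLocalRing.closedPoint (kb B) : PrimeSpectrum (kb B))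
      (by
        refine hx.trans ?_
        exact (sb_pt B _).symm)
    refine ⟨F z, ?_⟩
    rw [← Scheme.Hom.comp_apply, IsIso.hom_inv_id_assoc]
    exact hz
  have hJ : JacobsonSpace (WX (kb B) a b) := by
    have h0 : LocallyOfFinitePresentation (PBS.bc (sb B) y).π := hst.fp
    have h1 : LocallyOfFiniteType (inv F ≫ (PBS.bc (sb B) y).π) := inferInstance
    exact LocallyOfFiniteType.jacobsonSpace (inv F ≫ (PBS.bc (sb B) y).π)
  have hcl : ∀ w : WX (kb B) a b, w ≠ eta (kb B) a b → IsClosed {w} := by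
    intro w hw
    have h1 : eta (kb B) a b ∉ closure {w} := by
      intro h
      have h2 : w ⤳ eta (kb B) a b := specializes_iff_mem_closure.mpr h
      exact hw (h2.antisymm (eta_spec (kb B) a b w)).eq
    have h2 : (closure {w} : Set (WX (kb B) a b)).Finite :=
      eta_fin (kb B) a b _ isClosed_closure h1
    have h3 : closure (closure {w} ∩ closedPoints (WX (kb B) a b)) = closure {w} :=
      closure_inter_closedPoints isClosed_closure
    have h4 : IsClosed (closure {w} ∩ closedPoints (WX (kb B) a b)) := by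
      have h5 : (closure {w} ∩ closedPoints (WX (kb B) a b)).Finite :=
        h2.subset Set.inter_subset_left
      rw [← Set.biUnion_of_singleton (closure {w} ∩ closedPoints (WX (kb B) a b))]
      exact h5.isClosed_biUnion fun x hx => hx.2
    rw [h4.closure_eq] at h3
    have h6 : w ∈ closure {w} ∩ closedPoints (WX (kb B) a b) := by
      rw [h3]
      exact subset_closure rfl
    exact h6.2
  refine ⟨G (eta (kb B) a b), hGπ _, ?_, ?_, ?_, ?_⟩
  · rintro ⟨s, hs⟩
    obtain ⟨t, -, ht⟩ := Scheme.exists_preimage_of_isPullback (sec_cart ar 0) s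
      ((inv F) (eta (kb B) a b)) (by
        refine hs.trans ?_
        exact Scheme.Hom.comp_apply _ _ _)
    have h1 : F ((PBS.bc (sb B) y).σ 0 t) = eta (kb B) a b := by
      have h2 : (PBS.bc (sb B) y).σ 0 t = (inv F) (eta (kb B) a b) := ht
      rw [h2, ← Scheme.Hom.comp_apply, IsIso.inv_hom_id]
      rfl
    have h2 : (Wei (WZ a b)).σ 0 (spMap (RingHom.id (kb B)) t) = eta (kb B) a b := by
      rw [← h1, ← Scheme.Hom.comp_apply, ← Scheme.Hom.comp_apply]
      exact congrArg (fun q => (q : Sp (kb B) ⟶ WX (kb B) a b) t) (f.sec 0).symm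
    exact inf_ne (kb B) a b (spMap (RingHom.id (kb B)) t) h2
  · intro x hx
    obtain ⟨w, rfl⟩ := hGsurj x hx
    exact (eta_spec (kb B) a b w).map G.continuous
  · intro Z hZ hη
    have h1 : (G ⁻¹' Z).Finite := eta_fin (kb B) a b _ (hZ.preimage G.continuous) hη
    refine (h1.image G).subset ?_
    rintro x ⟨hx, hx'⟩
    obtain ⟨w, rfl⟩ := hGsurj x hx'
    exact ⟨w, hx, rfl⟩
  · intro x hx hne
    obtain ⟨w, rfl⟩ := hGsurj x hx
    have h1 : w ≠ eta (kb B) a b := by
      rintro rfl
      exact hne rfl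
    have h2 := hGclosed _ (hcl w h1)
    rwa [Set.image_singleton] at h2

/-- The chart at a point of the closed fibre outside `W`. -/
theorem chart (y : Fam 1 B) (η : y.X)
    (h3 : ∀ x : y.X, y.π x = IsLocalRing.closedPoint B → η ⤳ x)
    (h4 : ∀ Z : Set y.X, IsClosed Z → η ∉ Z →
        (Z ∩ {x | y.π x = IsLocalRing.closedPoint B}).Finite)
    (h5 : ∀ x : y.X, y.π x = IsLocalRing.closedPoint B → x ≠ η → IsClosed {x})
    (W : y.X.Opens) (hη : η ∈ W) (T : y.X.Opens) (x : y.X) (hx : x ∈ T)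
    (hπ : y.π x = IsLocalRing.closedPoint B) :
    ∃ V : y.X.Opens, IsAffineOpen V ∧ V ≤ T ∧ x ∈ V ∧ ∃ β : Γ(y.X, V), y.X.basicOpen β ≤ W ∧
      ∀ x' : y.X, x' ∈ V → y.π x' = IsLocalRing.closedPoint B → x' ∉ y.X.basicOpen β → x' = x := by
  obtain ⟨V', aV', xV', leV'⟩ := exists_isAffineOpen_mem_and_subset hx
  have ηV' : η ∈ V' := (h3 x hπ).mem_open V'.isOpen xV'
  obtain ⟨β', hβ', ηβ'⟩ := aV'.exists_basicOpen_le (V := W) ⟨η, hη⟩ ηV'
  let N : Set y.X := {x' | y.π x' = IsLocalRing.closedPoint B ∧ x' ∉ y.X.basicOpen β' ∧ x' ≠ x}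
  have hN : N.Finite := by
    refine (h4 ((y.X.basicOpen β' : Set y.X)ᶜ) (y.X.basicOpen β').isOpen.isClosed_compl
      (fun h => h ηβ')).subset ?_
    rintro x' ⟨h, h', -⟩
    exact ⟨h', h⟩
  have hNc : IsClosed N := by
    rw [← Set.biUnion_of_singleton N]
    refine hN.isClosed_biUnion fun x' hx' => h5 x' hx'.1 ?_
    rintro rfl
    exact hx'.2.1 ηβ'
  obtain ⟨g, hg, xg⟩ := aV'.exists_basicOpen_le (V := (⟨Nᶜ, hNc.isOpen_compl⟩ : y.X.Opens))
    ⟨x, fun h => h.2.2 rfl⟩ xV'
  refine ⟨y.X.basicOpen g, aV'.basicOpen g, (y.X.basicOpen_le g).trans leV', xg,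
    rs y.X (y.X.basicOpen_le g) β', ?_, ?_⟩
  · rw [Scheme.basicOpen_res]
    exact inf_le_right.trans hβ'
  · intro x' hx' hx'π hx'β
    rw [Scheme.basicOpen_res] at hx'β
    by_contra hne
    exact hg hx' ⟨hx'π, fun h => hx'β ⟨hx', h⟩, hne⟩

end closedFibre

end PNE

/-- Preliminary nice covers exist over local rings. -/
theorem t_PNE (hCL : Stmt_CL) : Stmt_PNE := by
  intro B _ _ _ y hy L
  obtain ⟨η, h1, h2, h3, h4, h5⟩ := PNE.fibre hCL y hy
  obtain ⟨W, aW, ηW, leW⟩ := exists_isAffineOpen_mem_and_subset ((L.mU η).mpr h2)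
  let ι : Type := {x : y.X // y.π x = IsLocalRing.closedPoint B ∧ x ∉ W}
  have hfin : Finite ι := by
    have h := h4 ((W : Set y.X)ᶜ) W.isOpen.isClosed_compl (fun h => h ηW)
    refine (h.subset (t := {x : y.X | y.π x = IsLocalRing.closedPoint B ∧ x ∉ W}) ?_).to_subtype
    rintro x ⟨h, h'⟩
    exact ⟨h', h⟩
  have hπ0 : y.π (y.σ 0 (IsLocalRing.closedPoint B)) = IsLocalRing.closedPoint B :=
    PNE.sec_pt y 0 (IsLocalRing.closedPoint B)
  let i₀ : ι := ⟨y.σ 0 (IsLocalRing.closedPoint B), hπ0,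
    fun h => (L.mU _).mp (leW h) ⟨_, rfl⟩⟩
  have key : ∀ i : ι, ∃ V : y.X.Opens, IsAffineOpen V ∧ (i = i₀ → V ≤ L.V) ∧ i.1 ∈ V ∧
      ∃ β : Γ(y.X, V), y.X.basicOpen β ≤ W ∧
        ∀ x' : y.X, x' ∈ V → y.π x' = IsLocalRing.closedPoint B → x' ∉ y.X.basicOpen β →
          x' = i.1 := by
    intro i
    by_cases hi : i = i₀
    · have hiV : i.1 ∈ L.V := by
        rw [hi]
        exact L.le (Set.mem_univ (IsLocalRing.closedPoint B : PrimeSpectrum B))
      obtain ⟨V, aV, leV, mV, β, hβ, hu⟩ := PNE.chart y η h3 h4 h5 W ηW L.V i.1 hiV i.2.1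
      exact ⟨V, aV, fun _ => leV, mV, β, hβ, hu⟩
    · obtain ⟨V, aV, leV, mV, β, hβ, hu⟩ :=
        PNE.chart y η h3 h4 h5 W ηW ⊤ i.1 (Set.mem_univ _) i.2.1
      exact ⟨V, aV, fun h => absurd h hi, mV, β, hβ, hu⟩
  choose V aV leV mV β hβ hu using key
  refine ⟨?_⟩
  exact {
    W := W
    aW := aW
    leW := leW
    ι := ι
    fin := Fintype.ofFinite ι
    dec := Classical.decEq ι
    V := V
    aV := aV
    β := β
    bas := hβ
    z := fun i => i.1
    zc := fun i => i.2.1
    inj := Subtype.val_injective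
    mem := mV
    nW := fun i => i.2.2
    uniq := fun i x hx hx' hx'' => hu i x hx hx' hx''
    cov := fun x hx => by
      by_cases hxW : x ∈ W
      · exact Or.inl hxW
      · exact Or.inr ⟨⟨x, hx, hxW⟩, rfl⟩
    i₀ := i₀
    le₀ := leV i₀ rfl
    sec := rfl }

end Pool.Agent.MG.WL


end

section

/-!
# MTH, algebra: expansions of the functions on a thickening
-/

open TensorProduct

namespace Pool.Agent.MG.KX.MTH

theorem cc_map {A B : Type} [CommRing A] [CommRing B] (φ : A →+* B) (f : PowerSeries A) :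
    PowerSeries.constantCoeff (PowerSeries.map φ f) = φ (PowerSeries.constantCoeff f) := by
  rw [← PowerSeries.coeff_zero_eq_constantCoeff_apply, PowerSeries.coeff_map,
    PowerSeries.coeff_zero_eq_constantCoeff_apply]

section taylor

variable {E Q : Type} [CommRing E] [CommRing Q]

/-- Taylor expansion. -/
theorem taylor (a : E →+* Q) (c : Q →+* E) (ca : ∀ x, c (a x) = x) (t : Q)
    (nz : ∀ v, t * v = 0 → v = 0) (ct : c t = 0) (k : ∀ v, c v = 0 → ∃ r, v = t * r) :
    ∃ g : Q →+* PowerSeries E, (∀ x, g (a x) = PowerSeries.C x) ∧ g t = PowerSeries.X ∧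
      ∀ v, PowerSeries.constantCoeff (g v) = c v := by
  have h1 : ∀ v, ∃ r, v - a (c v) = t * r := fun v => k _ (by rw [map_sub, ca, sub_self])
  choose D hD using h1
  have inj : ∀ v w, t * v = t * w → v = w := fun v w h => by
    rw [← sub_eq_zero]
    exact nz _ (by rw [mul_sub, h, sub_self])
  have Dadd : ∀ v w, D (v + w) = D v + D w := fun v w => inj _ _ (by
    rw [← hD, mul_add, ← hD, ← hD, map_add, map_add]
    ring)
  have Dmul : ∀ v w, D (v * w) = D v * w + a (c v) * D w := fun v w => inj _ _ (by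
    have e1 := hD v
    have e2 := hD w
    rw [← hD, map_mul, map_mul]
    linear_combination w * e1 + a (c v) * e2)
  have Da : ∀ x, D (a x) = 0 := fun x => nz _ (by rw [← hD, ca, sub_self])
  have Dt : D t = 1 := inj _ _ (by rw [← hD, ct, map_zero, sub_zero, mul_one])
  have D0 : D 0 = 0 := by
    have := Da 0
    rwa [map_zero] at this
  have Dam : ∀ x v, D (a x * v) = a x * D v := fun x v => by
    rw [Dmul, Da, zero_mul, zero_add, ca]
  let gf : Q → PowerSeries E := fun v => PowerSeries.mk fun m => c (D^[m] v)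
  have gc : ∀ m v, PowerSeries.coeff m (gf v) = c (D^[m] v) := fun m v =>
    PowerSeries.coeff_mk _ _
  have gs : ∀ v, gf v = PowerSeries.C (c v) + PowerSeries.X * gf (D v) := by
    intro v
    ext m
    rcases m with _ | m
    · rw [gc]
      simp
    · rw [gc, map_add, PowerSeries.coeff_succ_X_mul, gc, PowerSeries.coeff_C,
        if_neg (Nat.succ_ne_zero m), zero_add]
      rfl
  have iadd : ∀ m v w, D^[m] (v + w) = D^[m] v + D^[m] w := by
    intro m
    induction m with
    | zero => intro v w; rfl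
    | succ m ih =>
      intro v w
      rw [Function.iterate_succ_apply, Function.iterate_succ_apply, Function.iterate_succ_apply,
        Dadd, ih]
  have iam : ∀ m x v, D^[m] (a x * v) = a x * D^[m] v := by
    intro m
    induction m with
    | zero => intro x v; rfl
    | succ m ih =>
      intro x v
      rw [Function.iterate_succ_apply, Function.iterate_succ_apply, Dam, ih]
  have gadd : ∀ v w, gf (v + w) = gf v + gf w := fun v w => by
    ext m
    rw [map_add, gc, gc, gc, iadd, map_add]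
  have gam : ∀ x v, gf (a x * v) = PowerSeries.C x * gf v := fun x v => by
    ext m
    rw [PowerSeries.coeff_C_mul, gc, gc, iam, map_mul, ca]
  have gm : ∀ m v w, PowerSeries.coeff m (gf (v * w)) = PowerSeries.coeff m (gf v * gf w) := by
    intro m
    induction m with
    | zero =>
      intro v w
      have e1 : ∀ v, PowerSeries.constantCoeff (gf v) = c v := fun v => by
        rw [← PowerSeries.coeff_zero_eq_constantCoeff_apply, gc]
        rfl
      rw [PowerSeries.coeff_zero_eq_constantCoeff_apply,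
        PowerSeries.coeff_zero_eq_constantCoeff_apply, map_mul PowerSeries.constantCoeff, e1, e1,
        e1, map_mul c]
    | succ m ih =>
      intro v w
      have e1 : gf (v * w) = PowerSeries.C (c v * c w) +
          PowerSeries.X * (gf (D v * w) + PowerSeries.C (c v) * gf (D w)) := by
        rw [gs (v * w), Dmul, gadd, gam, map_mul c]
      have e2 : gf v * gf w = PowerSeries.C (c v * c w) +
          PowerSeries.X * (gf (D v) * gf w + PowerSeries.C (c v) * gf (D w)) := by
        have e3 := gs v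
        have e4 := gs w
        rw [map_mul PowerSeries.C]
        linear_combination gf w * e3 + PowerSeries.C (c v) * e4
      rw [e1, e2, map_add, map_add, PowerSeries.coeff_succ_X_mul, PowerSeries.coeff_succ_X_mul,
        map_add, map_add, ih]
  have h3 : D 1 = 0 := by
    have := Da 1
    rwa [map_one] at this
  have h4 : gf 0 = 0 := by
    have := gam 0 0
    rwa [map_zero, zero_mul, map_zero, zero_mul] at this
  have h5 : gf 1 = 1 := by
    have h2 := gs 1
    rw [h3, h4, mul_zero, add_zero, map_one, map_one] at h2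
    exact h2
  let G : Q →+* PowerSeries E :=
    { toFun := gf
      map_one' := h5
      map_zero' := h4
      map_add' := gadd
      map_mul' := fun v w => PowerSeries.ext fun m => gm m v w }
  refine ⟨G, ?_, ?_, ?_⟩
  · intro x
    change gf (a x) = PowerSeries.C x
    rw [gs, Da, h4, mul_zero, add_zero, ca]
  · change gf t = PowerSeries.X
    rw [gs, Dt, h5, ct, map_zero, zero_add, mul_one]
  · intro v
    change PowerSeries.constantCoeff (gf v) = c v
    rw [← PowerSeries.coeff_zero_eq_constantCoeff_apply, gc]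
    rfl

/-- Expansion at a point which is a connected component of the zero set of `t`. -/
theorem point (a : E →+* Q) (c : Q →+* E) (ca : ∀ x, c (a x) = x) (t e : Q)
    (nz : ∀ v, t * v = 0 → v = 0) (ct : c t = 0) (ce : c e = 1)
    (k : ∀ v, c v = 0 → ∃ r, e * v = t * r) (θ : PowerSeries E)
    (hθ : PowerSeries.constantCoeff θ = 0) :
    ∃ g : Q →+* PowerSeries E, (∀ x, g (a x) = PowerSeries.C x) ∧ g t = θ ∧
      ∀ v, PowerSeries.constantCoeff (g v) = c v := by
  let L := Localization.Away e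
  let al : Q →+* L := algebraMap Q L
  have hu : IsUnit (c e) := by rw [ce]; exact isUnit_one
  let cL : L →+* E := IsLocalization.Away.lift e hu
  have hcL : ∀ v, cL (al v) = c v := fun v => IsLocalization.Away.lift_eq e hu v
  have ue : IsUnit (al e) := IsLocalization.Away.algebraMap_isUnit e
  have nzL : ∀ z, al t * z = 0 → z = 0 := by
    intro z hz
    obtain ⟨n, v, hv⟩ := IsLocalization.Away.surj e z
    have h1 : al (t * v) = al 0 := by
      have hv' : z * al e ^ n = al v := hv
      rw [map_mul, ← hv', ← mul_assoc, hz, zero_mul, map_zero]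
    obtain ⟨m, hm⟩ := IsLocalization.Away.exists_of_eq (S := L) e h1
    rw [mul_zero] at hm
    have h2 : e ^ m * v = 0 := nz _ (by rw [← hm]; ring)
    have h3 : al e ^ m * al v = 0 := by rw [← map_pow, ← map_mul, h2, map_zero]
    have h4 : al v = 0 := (ue.pow m).mul_right_eq_zero.1 h3
    have h5 : z * al e ^ n = 0 := hv.trans h4
    exact (ue.pow n).mul_left_eq_zero.1 h5
  have kL : ∀ z, cL z = 0 → ∃ r, z = al t * r := by
    intro z hz
    obtain ⟨n, v, hv⟩ := IsLocalization.Away.surj e z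
    have hv' : z * al e ^ n = al v := hv
    have h1 : c v = 0 := by rw [← hcL, ← hv', map_mul, hz, zero_mul]
    obtain ⟨r, hr⟩ := k v h1
    obtain ⟨u, hu'⟩ := ue.pow (n + 1)
    refine ⟨al r * ↑u⁻¹, ?_⟩
    have h2 : z * al e ^ (n + 1) = al t * al r := by
      rw [← map_mul, ← hr, map_mul, ← hv']
      ring
    rw [← hu'] at h2
    rw [← mul_assoc, ← h2, mul_assoc, Units.mul_inv, mul_one]
  obtain ⟨g0, g1, g2, g3⟩ := taylor (al.comp a) cL (fun x => (hcL _).trans (ca x)) (al t) nzL
    ((hcL _).trans ct) kL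
  have hs : PowerSeries.HasSubst θ := PowerSeries.HasSubst.of_constantCoeff_zero' hθ
  let sb : PowerSeries E →+* PowerSeries E :=
    ((PowerSeries.substAlgHom (R := E) hs : PowerSeries E →ₐ[E] PowerSeries E) :
      PowerSeries E →+* PowerSeries E)
  have sbC : ∀ x, sb (PowerSeries.C x) = PowerSeries.C x := fun x =>
    (PowerSeries.substAlgHom (R := E) hs : PowerSeries E →ₐ[E] PowerSeries E).commutes x
  have sbX : sb PowerSeries.X = θ := PowerSeries.substAlgHom_X hs
  have h1 : ∀ x, (sb.comp (g0.comp al)) (a x) = PowerSeries.C x := fun x => by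
    change sb (g0 ((al.comp a) x)) = _
    rw [g1 x, sbC]
  have h2 : (sb.comp (g0.comp al)) t = θ := by
    change sb (g0 (al t)) = _
    rw [g2, sbX]
  refine ⟨sb.comp (g0.comp al), h1, h2, fun v => ?_⟩
  obtain ⟨r, hr⟩ := kL (al v - al (a (c v))) (by rw [map_sub, hcL, hcL, ca, sub_self])
  have h3 : sb (g0 (al v)) - PowerSeries.C (c v) = θ * sb (g0 r) := by
    have h4 := congrArg (fun z => sb (g0 z)) hr
    simp only [map_sub, map_mul] at h4
    rw [g2, sbX] at h4
    rw [← h4]
    congr 1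
    exact (h1 (c v)).symm
  have h5 := congrArg PowerSeries.constantCoeff h3
  rw [map_sub, map_mul, hθ, zero_mul, sub_eq_zero] at h5
  exact h5.trans (by simp)

end taylor

/-- Uniqueness of expansions. -/
theorem uniq {A Q : Type} [CommRing A] [CommRing Q] (f1 f2 : Q →+* PowerSeries A) (t e : Q)
    (θ : PowerSeries A) (hθ : PowerSeries.constantCoeff θ = 0) (h1 : f1 t = θ) (h2 : f2 t = θ)
    (he : PowerSeries.constantCoeff (f2 e) = 1)
    (k : ∀ v, ∃ b r : Q, e * (v - b) = t * r ∧ f1 b = f2 b ∧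
      PowerSeries.constantCoeff (f1 (v - b)) = 0) (v : Q) : f1 v = f2 v := by
  have ue : IsUnit (f2 e) := by
    rw [PowerSeries.isUnit_iff_constantCoeff, he]
    exact isUnit_one
  have xt : (PowerSeries.X : PowerSeries A) ∣ θ := PowerSeries.X_dvd_iff.2 hθ
  have main : ∀ m v, (PowerSeries.X : PowerSeries A) ^ m ∣ f1 v - f2 v := by
    intro m
    induction m with
    | zero => intro v; rw [pow_zero]; exact one_dvd _
    | succ m ih =>
      intro v
      obtain ⟨b, r, hr, hb, hc⟩ := k v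
      have e1 : f1 e * (f1 v - f1 b) = θ * f1 r := by
        rw [← h1, ← map_mul, ← hr, map_mul, map_sub]
      have e2 : f2 e * (f2 v - f2 b) = θ * f2 r := by
        rw [← h2, ← map_mul, ← hr, map_mul, map_sub]
      have e3 : f2 e * (f1 v - f2 v) = θ * (f1 r - f2 r) - (f1 e - f2 e) * (f1 v - f1 b) := by
        linear_combination e1 - e2 + f2 e * hb
      have xb : (PowerSeries.X : PowerSeries A) ∣ f1 v - f1 b := by
        rw [PowerSeries.X_dvd_iff, ← map_sub, hc]
      have e4 : (PowerSeries.X : PowerSeries A) ^ (m + 1) ∣ f2 e * (f1 v - f2 v) := by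
        rw [e3]
        refine dvd_sub ?_ ?_
        · rw [pow_succ, mul_comm]
          exact mul_dvd_mul xt (ih r)
        · rw [pow_succ]
          exact mul_dvd_mul (ih e) xb
      exact ue.dvd_mul_left.1 e4
  ext m
  rw [← sub_eq_zero, ← map_sub]
  exact PowerSeries.X_pow_dvd_iff.1 (main (m + 1) v) m (Nat.lt_succ_self m)

section sqz

variable {A E K R R' : Type} [CommRing A] [CommRing E] [Fintype K] [CommRing R] [CommRing R']

/-- A flat square zero thickening of rings. -/
structure FT (S : SqE A E K) (a : A →+* R) (a' : E →+* R') (q : R' →+* R) : Prop where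
  qa : ∀ e, q (a' e) = a (S.p e)
  sur : Function.Surjective q
  ker : ∀ v, q v = 0 → ∃ w : K → R', v = ∑ j, a' (S.ε j) * w j
  un : ∀ w : K → R', ∑ j, a' (S.ε j) * w j = 0 → ∀ j, q (w j) = 0

variable {S : SqE A E K} {a : A →+* R} {a' : E →+* R'} {q : R' →+* R} (H : FT S a a' q)

include H

theorem FT.sq0 {v w : R'} (hv : q v = 0) (hw : q w = 0) : v * w = 0 := by
  obtain ⟨v1, rfl⟩ := H.ker v hv
  obtain ⟨w1, rfl⟩ := H.ker w hw
  rw [Finset.sum_mul_sum]
  refine Finset.sum_eq_zero fun i _ => Finset.sum_eq_zero fun j _ => ?_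
  calc a' (S.ε i) * v1 i * (a' (S.ε j) * w1 j) = a' (S.ε i * S.ε j) * (v1 i * w1 j) := by
        rw [map_mul]
        ring
    _ = 0 := by rw [S.mul, map_zero, zero_mul]

theorem FT.eps_mul (j : K) {w : R'} (hw : q w = 0) : a' (S.ε j) * w = 0 :=
  H.sq0 (by rw [H.qa, S.pe, map_zero]) hw

theorem FT.nz {t : R} (nz : ∀ v, t * v = 0 → v = 0) {t' : R'} (qt : q t' = t) {v : R'}
    (hv : t' * v = 0) : v = 0 := by
  have h1 : q v = 0 := nz _ (by rw [← qt, ← map_mul, hv, map_zero])
  obtain ⟨w, hw⟩ := H.ker v h1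
  have h2 : ∑ j, a' (S.ε j) * (t' * w j) = 0 := by
    rw [← hv, hw, Finset.mul_sum]
    exact Finset.sum_congr rfl fun j _ => by ring
  have h3 := H.un _ h2
  have h4 : ∀ j, q (w j) = 0 := fun j => nz _ (by rw [← qt, ← map_mul]; exact h3 j)
  rw [hw]
  exact Finset.sum_eq_zero fun j _ => H.eps_mul j (h4 j)

/-- The values at the punctures. -/
theorem FT.exists_c {I : Type} [Fintype I] (c0 : R →+* (I → A)) (c0a : ∀ x i, c0 (a x) i = x)
    {t : R} (nz : ∀ v, t * v = 0 → v = 0) (ct : c0 t = 0) (k0 : ∀ v, c0 v = 0 → ∃ r, v = t * r)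
    (s0 : Function.Surjective c0) {t' : R'} (qt : q t' = t) :
    ∃ c' : R' →+* (I → E), (∀ x i, c' (a' x) i = x) ∧ (∀ v, c' v = 0 → ∃ r, v = t' * r) ∧
      c' t' = 0 ∧ Function.Surjective c' ∧ ∀ v i, S.p (c' v i) = c0 (q v) i := by
  classical
  let Q0 := R' ⧸ Ideal.span {t'}
  let π : R' →+* Q0 := Ideal.Quotient.mk _
  have πt : ∀ r, π (t' * r) = 0 := fun r =>
    Ideal.Quotient.eq_zero_iff_mem.2 (Ideal.mem_span_singleton.2 ⟨r, rfl⟩)
  have πs : Function.Surjective π := Ideal.Quotient.mk_surjective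
  let κ : Q0 →+* (I → A) := Ideal.Quotient.lift _ (c0.comp q) (by
    intro v hv
    obtain ⟨r, rfl⟩ := Ideal.mem_span_singleton.1 hv
    change c0 (q (t' * r)) = 0
    rw [map_mul, qt, map_mul, ct, zero_mul])
  have κπ : ∀ v, κ (π v) = c0 (q v) := fun v => rfl
  have dec : ∀ v : R', c0 (q v) = 0 → ∃ r k : R', q k = 0 ∧ v = t' * r + k := by
    intro v hv
    obtain ⟨ρ, hρ⟩ := k0 _ hv
    obtain ⟨r, rfl⟩ := H.sur ρ
    exact ⟨r, v - t' * r, by rw [map_sub, map_mul, qt, ← hρ, sub_self], by ring⟩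
  have nil : ∀ x ∈ RingHom.ker κ, IsNilpotent x := by
    intro x hx
    obtain ⟨v, rfl⟩ := πs x
    obtain ⟨r, k, hk, hv⟩ := dec v hx
    refine ⟨2, ?_⟩
    rw [hv, map_add, πt, zero_add, pow_two, ← map_mul, H.sq0 hk hk, map_zero]
  have κs : Function.Surjective κ := fun c => by
    obtain ⟨w, rfl⟩ := s0 c
    obtain ⟨v, rfl⟩ := H.sur w
    exact ⟨π v, rfl⟩
  obtain ⟨e0, he0, hκ⟩ := CompleteOrthogonalIdempotents.lift_of_isNilpotent_ker κ nil
    (CompleteOrthogonalIdempotents.single (fun _ : I => A)) (fun i => κs _)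
  choose e he using fun i => πs (e0 i)
  have ce : ∀ i l, c0 (q (e i)) l = if l = i then 1 else 0 := by
    intro i l
    have h1 : κ (e0 i) = Pi.single i 1 := congrFun hκ i
    rw [← κπ, he, h1, Pi.single_apply]
  let F : (I → E) →+* Q0 :=
    { toFun := fun c => ∑ i, π (a' (c i)) * e0 i
      map_one' := by
        simp only [Pi.one_apply, map_one, one_mul]
        exact he0.complete
      map_zero' := by simp only [Pi.zero_apply, map_zero, zero_mul, Finset.sum_const_zero]
      map_add' := fun c d => by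
        rw [← Finset.sum_add_distrib]
        exact Finset.sum_congr rfl fun i _ => by rw [Pi.add_apply, map_add, map_add, add_mul]
      map_mul' := fun c d => by
        rw [Finset.sum_mul_sum]
        refine Finset.sum_congr rfl fun i _ => ?_
        rw [Finset.sum_eq_single i]
        · rw [Pi.mul_apply, map_mul, map_mul]
          have h1 : e0 i * e0 i = e0 i := he0.idem i
          linear_combination (-(π (a' (c i)) * π (a' (d i)))) * h1
        · intro j _ hj
          have h1 : e0 i * e0 j = 0 := he0.ortho (Ne.symm hj)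
          linear_combination (π (a' (c i)) * π (a' (d j))) * h1
        · intro h
          exact absurd (Finset.mem_univ i) h }
  have Fπ : ∀ c, F c = π (∑ i, a' (c i) * e i) := fun c => by
    rw [map_sum]
    exact Finset.sum_congr rfl fun i _ => by rw [map_mul, he]
  have c0s : ∀ (b : I → E) (l : I), c0 (q (∑ i, a' (b i) * e i)) l = S.p (b l) := by
    intro b l
    rw [map_sum, map_sum, Finset.sum_apply]
    have h1 : ∀ i, c0 (q (a' (b i) * e i)) l = if l = i then S.p (b i) else 0 := fun i => by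
      rw [map_mul, map_mul, Pi.mul_apply, H.qa, c0a, ce]
      split_ifs <;> simp
    simp only [h1, Finset.sum_ite_eq, Finset.mem_univ, if_true]
  have Finj : Function.Injective F := by
    rw [injective_iff_map_eq_zero]
    intro b hb
    rw [Fπ] at hb
    obtain ⟨r, hr⟩ := Ideal.mem_span_singleton.1 (Ideal.Quotient.eq_zero_iff_mem.1 hb)
    have hp : ∀ l, S.p (b l) = 0 := fun l => by
      rw [← c0s b l, hr, map_mul, qt, map_mul, ct, zero_mul]
      rfl
    choose d hd using fun i => S.ex (b i) (hp i)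
    have hqr : q r = 0 := nz _ (by
      rw [← qt, ← map_mul, ← hr, map_sum]
      refine Finset.sum_eq_zero fun i _ => ?_
      rw [map_mul, H.qa, hp, map_zero, zero_mul])
    obtain ⟨w, hw⟩ := H.ker r hqr
    have h1 : ∑ j, a' (S.ε j) * (∑ i, a' (S.i (d i j)) * e i - t' * w j) = 0 := by
      have h2 : ∑ j, a' (S.ε j) * (∑ i, a' (S.i (d i j)) * e i) = ∑ i, a' (b i) * e i := by
        simp only [Finset.mul_sum]
        rw [Finset.sum_comm]
        refine Finset.sum_congr rfl fun i _ => ?_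
        conv_rhs => rw [hd i, map_sum, Finset.sum_mul]
        exact Finset.sum_congr rfl fun j _ => by rw [map_mul]; ring
      have h3 : ∑ j, a' (S.ε j) * (t' * w j) = t' * r := by
        rw [hw, Finset.mul_sum]
        exact Finset.sum_congr rfl fun j _ => by ring
      simp only [mul_sub, Finset.sum_sub_distrib]
      rw [h2, h3, hr, sub_self]
    have h4 := H.un _ h1
    funext i
    rw [hd i]
    refine Finset.sum_eq_zero fun j _ => ?_
    have h5 : c0 (q (∑ i, a' (S.i (d i j)) * e i - t' * w j)) i = d i j := by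
      rw [map_sub, map_sub, Pi.sub_apply, c0s (fun i => S.i (d i j)) i, S.pi, map_mul, qt,
        map_mul, ct, zero_mul, Pi.zero_apply, sub_zero]
    rw [h4 j, map_zero] at h5
    rw [← h5, Pi.zero_apply, map_zero S.i, mul_zero]
  have L2 : ∀ v : R', ∃ (b : I → A) (r k : R'), q k = 0 ∧
      v = ∑ i, a' (S.i (b i)) * e i + t' * r + k := by
    intro v
    have h1 : c0 (q (v - ∑ i, a' (S.i (c0 (q v) i)) * e i)) = 0 := by
      funext l
      rw [map_sub, map_sub, Pi.sub_apply, c0s (fun i => S.i (c0 (q v) i)) l, S.pi, sub_self,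
        Pi.zero_apply]
    obtain ⟨r, k, hk, h2⟩ := dec _ h1
    exact ⟨fun i => c0 (q v) i, r, k, hk, by linear_combination h2⟩
  have Fsur : Function.Surjective F := by
    intro y
    obtain ⟨v, rfl⟩ := πs y
    obtain ⟨b, r, k, hk, hv⟩ := L2 v
    obtain ⟨w, hw⟩ := H.ker k hk
    choose b1 r1 k1 hk1 hw1 using fun j => L2 (w j)
    refine ⟨fun i => S.i (b i) + ∑ j, S.ε j * S.i (b1 j i), ?_⟩
    rw [Fπ]
    have h1 : v = ∑ i, a' (S.i (b i) + ∑ j, S.ε j * S.i (b1 j i)) * e i +
        t' * (r + ∑ j, a' (S.ε j) * r1 j) := by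
      have h2 : k = ∑ j, a' (S.ε j) * (∑ i, a' (S.i (b1 j i)) * e i) +
          t' * ∑ j, a' (S.ε j) * r1 j := by
        rw [hw, Finset.mul_sum, ← Finset.sum_add_distrib]
        refine Finset.sum_congr rfl fun j _ => ?_
        have h3 := H.eps_mul j (hk1 j)
        conv_lhs => rw [hw1 j]
        linear_combination h3
      have h4 : ∑ i, a' (S.i (b i) + ∑ j, S.ε j * S.i (b1 j i)) * e i =
          ∑ i, a' (S.i (b i)) * e i + ∑ j, a' (S.ε j) * (∑ i, a' (S.i (b1 j i)) * e i) := by
        simp only [Finset.mul_sum]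
        rw [Finset.sum_comm, ← Finset.sum_add_distrib]
        refine Finset.sum_congr rfl fun i _ => ?_
        rw [map_add, map_sum, add_mul, Finset.sum_mul]
        congr 1
        exact Finset.sum_congr rfl fun j _ => by rw [map_mul]; ring
      rw [h4]
      linear_combination hv + h2
    conv_rhs => rw [h1]
    rw [map_add, πt, add_zero]
  let G := RingEquiv.ofBijective F ⟨Finj, Fsur⟩
  have GF : ∀ v, F (G.symm (π v)) = π v := fun v => G.apply_symm_apply (π v)
  refine ⟨(G.symm : Q0 →+* (I → E)).comp π, ?_, ?_, ?_, ?_, ?_⟩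
  · intro x i
    change G.symm (π (a' x)) i = x
    have h1 : G.symm (π (a' x)) = fun _ => x := by
      rw [RingEquiv.symm_apply_eq]
      change π (a' x) = ∑ i, π (a' x) * e0 i
      rw [← Finset.mul_sum, he0.complete, mul_one]
    rw [h1]
  · intro v hv
    have hv' : G.symm (π v) = 0 := hv
    rw [RingEquiv.symm_apply_eq, map_zero] at hv'
    exact Ideal.mem_span_singleton.1 (Ideal.Quotient.eq_zero_iff_mem.1 hv')
  · change G.symm (π t') = 0
    have := πt 1
    rw [mul_one] at this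
    rw [this, map_zero]
  · intro c
    obtain ⟨v, hv⟩ := πs (F c)
    refine ⟨v, ?_⟩
    change G.symm (π v) = c
    rw [RingEquiv.symm_apply_eq, hv]
    rfl
  · intro v i
    change S.p (G.symm (π v) i) = _
    rw [← c0s (G.symm (π v)) i, ← κπ, ← Fπ, GF, κπ]

/-- The expansions at the punctures. -/
theorem FT.exists_exp {I : Type} [Fintype I] (g : R →+* (I → PowerSeries A))
    (ga : ∀ x i, g (a x) i = PowerSeries.C x) {t : R} (nz : ∀ v, t * v = 0 → v = 0)
    (u : I → PowerSeries A) (hu : IsUnit u) (gt : g t = (fun _ => PowerSeries.X) * u)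
    (k : ∀ v, ccI I A (g v) = 0 → ∃ r, v = t * r) (s : ∀ c : I → A, ∃ v, ccI I A (g v) = c)
    {t' : R'} (qt : q t' = t) :
    ∃ g' : R' →+* (I → PowerSeries E), (∀ v, psm I S.p (g' v) = g (q v)) ∧
      (∀ x, g' (a' x) = algebraMap E (I → PowerSeries E) x) ∧
      (∃ u' : I → PowerSeries E, IsUnit u' ∧ g' t' = (fun _ => PowerSeries.X) * u') ∧
      (∀ v, ccI I E (g' v) = 0 → ∃ r, v = t' * r) ∧ ∀ c : I → E, ∃ v, ccI I E (g' v) = c := by
  classical
  have gti : ∀ i, g t i = PowerSeries.X * u i := fun i => by rw [gt]; rfl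
  have ct0 : ∀ i, PowerSeries.constantCoeff (g t i) = 0 := fun i => by
    rw [gti, map_mul, PowerSeries.constantCoeff_X, zero_mul]
  obtain ⟨c', c1, c2, c3, c4, c5⟩ := H.exists_c ((ccI I A).comp g)
    (fun x i => by
      change PowerSeries.constantCoeff (g (a x) i) = x
      rw [ga, PowerSeries.constantCoeff_C]) nz
    (funext fun i => ct0 i) k s qt
  have nz' : ∀ v, t' * v = 0 → v = 0 := fun v hv => H.nz nz qt hv
  choose e he using fun i : I => c4 (Pi.single i 1)
  let θ : I → PowerSeries E := fun i => PowerSeries.map S.i (g t i)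
  have hθ : ∀ i, PowerSeries.constantCoeff (θ i) = 0 := fun i => by
    change PowerSeries.constantCoeff (PowerSeries.map S.i (g t i)) = 0
    rw [cc_map, ct0, map_zero]
  have ke : ∀ i v, c' v i = 0 → ∃ r, e i * v = t' * r := fun i v hv => c2 _ (by
    funext l
    rw [map_mul, he, Pi.mul_apply]
    by_cases h : l = i
    · subst h
      rw [hv, mul_zero, Pi.zero_apply]
    · rw [Pi.single_eq_of_ne h, zero_mul, Pi.zero_apply])
  have hex : ∀ i, ∃ g : R' →+* PowerSeries E, (∀ x, g (a' x) = PowerSeries.C x) ∧ g t' = θ i ∧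
      ∀ v, PowerSeries.constantCoeff (g v) = c' v i := fun i =>
    point a' ((Pi.evalRingHom _ i).comp c') (fun x => c1 x i) t' (e i) nz'
      (by
        change c' t' i = 0
        rw [c3, Pi.zero_apply])
      (by
        change c' (e i) i = 1
        rw [he, Pi.single_eq_same]) (ke i) (θ i) (hθ i)
  choose gi g1 g2 g3 using hex
  have cc : ∀ v i, ccI I E ((RingHom.pi gi : R' →+* (I → PowerSeries E)) v) i = c' v i :=
    fun v i => g3 i v
  refine ⟨RingHom.pi gi, ?_, ?_, ?_, ?_, ?_⟩
  · intro v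
    funext i
    change PowerSeries.map S.p (gi i v) = g (q v) i
    refine uniq ((PowerSeries.map S.p).comp (gi i)) ((Pi.evalRingHom _ i).comp (g.comp q)) t'
      (e i) (g t i) (ct0 i) ?_ ?_ ?_ ?_ v
    · change PowerSeries.map S.p (gi i t') = g t i
      rw [g2]
      ext m
      change S.p (PowerSeries.coeff m (PowerSeries.map S.i (g t i))) = _
      rw [PowerSeries.coeff_map, S.pi]
    · change g (q t') i = g t i
      rw [qt]
    · change PowerSeries.constantCoeff (g (q (e i)) i) = 1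
      have h1 := c5 (e i) i
      rw [he, Pi.single_eq_same, map_one] at h1
      exact h1.symm
    · intro w
      obtain ⟨r, hr⟩ := ke i (w - a' (c' w i)) (by
        rw [map_sub, Pi.sub_apply, c1, sub_self])
      refine ⟨a' (c' w i), r, hr, ?_, ?_⟩
      · change PowerSeries.map S.p (gi i (a' (c' w i))) = g (q (a' (c' w i))) i
        rw [g1, H.qa, ga, PowerSeries.map_C]
      · change PowerSeries.constantCoeff (PowerSeries.map S.p (gi i (w - a' (c' w i)))) = 0
        rw [cc_map, g3, map_sub, Pi.sub_apply, c1, sub_self, map_zero]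
  · intro x
    funext i
    exact g1 i x
  · refine ⟨psm I S.i u, hu.map _, ?_⟩
    funext i
    change gi i t' = PowerSeries.X * PowerSeries.map S.i (u i)
    rw [g2]
    change PowerSeries.map S.i (g t i) = _
    rw [gti, map_mul, PowerSeries.map_X]
  · intro v hv
    refine c2 v (funext fun i => ?_)
    rw [← cc v i, hv]
  · intro c
    obtain ⟨v, hv⟩ := c4 c
    exact ⟨v, funext fun i => by rw [cc, hv]⟩

end sqz

end Pool.Agent.MG.KX.MTH


end

section

/-!
# MTH: Krichever models of flat square zero thickenings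
-/

open CategoryTheory CategoryTheory.Limits AlgebraicGeometry
open scoped TensorProduct

namespace Pool.Agent.MG.KX

open Pool.Agent.MG.G0 Pool.Agent.MG.GLU

namespace MTH

section gen

variable {A R R' : Type} [CommRing A] [CommRing R] [CommRing R'] {X : Scheme.{0}}

/-- Morphisms to an affine open set are determined by their effect on functions. -/
theorem eq_of_gm {i i' : Sp R ⟶ X} {W : X.Opens} (hW : IsAffineOpen W) (h : ⊤ ≤ i ⁻¹ᵁ W)
    (h' : ⊤ ≤ i' ⁻¹ᵁ W) (e : ∀ v, gm i W h v = gm i' W h' v) : i = i' := by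
  rw [eq_fromSpec i W hW h, eq_fromSpec i' W hW h', RingHom.ext e]

/-- The structure map in terms of functions. -/
theorem comp_pi (i : Sp R ⟶ X) (π : X ⟶ Sp A) (W : X.Opens) (h : ⊤ ≤ i ⁻¹ᵁ W) :
    i ≫ π = spMap ((gm i W h).comp (coef π W)) := by
  obtain ⟨w, hw⟩ : ∃ w : A →+* R, i ≫ π = spMap w :=
    ⟨(Spec.preimage (i ≫ π)).hom, (Spec.map_preimage _).symm⟩
  have e : (gm i W h).comp (coef π W) = w := RingHom.ext fun a => gm_coef i π w hw W h a
  rw [e, hw]

theorem top_le {i : Sp R ⟶ X} {W : X.Opens} (h : ∀ s, i s ∈ W) : ⊤ ≤ i ⁻¹ᵁ W := fun s _ => h s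

theorem mem_of {i : Sp R ⟶ X} {W : X.Opens} (h : ⊤ ≤ i ⁻¹ᵁ W) (s : Sp R) : i s ∈ W := h trivial

/-- The morphism of a homomorphism from the functions on an affine open set. -/
noncomputable def fsp {W : X.Opens} (hW : IsAffineOpen W) (f : Γ(X, W) →+* R) : Sp R ⟶ X :=
  spMap f ≫ hW.fromSpec

theorem from_le {W : X.Opens} (hW : IsAffineOpen W) :
    ⊤ ≤ (hW.fromSpec : Sp Γ(X, W) ⟶ X) ⁻¹ᵁ W := fun s _ => by
  have h : hW.fromSpec s ∈ Set.range hW.fromSpec := ⟨s, rfl⟩
  rw [hW.range_fromSpec] at h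
  exact h

theorem fsp_le {W : X.Opens} (hW : IsAffineOpen W) (f : Γ(X, W) →+* R) :
    ⊤ ≤ fsp hW f ⁻¹ᵁ W := fun s _ => from_le hW (show spMap f s ∈ (⊤ : (Sp Γ(X, W)).Opens) from trivial)

theorem gm_fsp {W : X.Opens} (hW : IsAffineOpen W) (f : Γ(X, W) →+* R)
    (h : ⊤ ≤ fsp hW f ⁻¹ᵁ W) (v : Γ(X, W)) : gm (fsp hW f) W h v = f v := by
  rw [gm_comp (A := Γ(X, W)) hW.fromSpec f (fsp hW f) rfl W (from_le hW) h v]
  congr 1
  exact gm_fromSpec W hW _ v

/-- A morphism lands in a basic open set if the function becomes a unit. -/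
theorem le_basic (i : Sp R ⟶ X) (W : X.Opens) (h : ⊤ ≤ i ⁻¹ᵁ W) (v : Γ(X, W))
    (hv : IsUnit (gm i W h v)) : ⊤ ≤ i ⁻¹ᵁ X.basicOpen v := by
  have h1 : IsUnit ((i.appLE W ⊤ h).hom v) := by
    have h2 : IsUnit ((Scheme.ΓSpecIso (CommRingCat.of R)).inv.hom (gm i W h v)) := hv.map _
    have h3 : (Scheme.ΓSpecIso (CommRingCat.of R)).inv.hom (gm i W h v) =
        (i.appLE W ⊤ h).hom v :=
      ConcreteCategory.congr_hom (Scheme.ΓSpecIso (CommRingCat.of R)).hom_inv_id _
    rwa [h3] at h2
  have h4 := Scheme.basicOpen_appLE i ⊤ W h v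
  have h5 := Scheme.basicOpen_of_isUnit (X := Sp R) h1
  rw [h4] at h5
  exact h5.symm.le.trans inf_le_right

end gen

theorem psI_algebraMap {I E : Type} [CommRing E] (x : E) :
    psI I E (algebraMap E (I → PowerSeries E) x) = algebraMap E (KK I E) x :=
  funext fun _ => HahnSeries.ofPowerSeries_C x

theorem psl_map {A B : Type} [CommRing A] [CommRing B] (φ : A →+* B) (f : PowerSeries A) :
    lmap φ (psl A f) = psl B (PowerSeries.map φ f) := by
  ext m
  rw [lmap_coeff]
  rcases lt_or_ge m 0 with h | h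
  · rw [psl_coeff_neg _ _ h, psl_coeff_neg _ _ h, map_zero]
  · obtain ⟨k, rfl⟩ := Int.eq_ofNat_of_zero_le h
    rw [psl_coeff, psl_coeff, PowerSeries.coeff_map]

theorem kmap_psI {I A B : Type} [CommRing A] [CommRing B] (φ : A →+* B) :
    (kmap φ).comp (psI I A) = (psI I B).comp (psm I φ) :=
  RingHom.ext fun f => funext fun i => psl_map φ (f i)

theorem isUnit_psX {I E : Type} [CommRing E] :
    IsUnit (psI I E (fun _ => PowerSeries.X)) := by
  refine IsUnit.of_mul_eq_one (fun _ => HahnSeries.single (-1 : ℤ) (1 : E)) (funext fun i => ?_)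
  change psl E PowerSeries.X * HahnSeries.single (-1 : ℤ) (1 : E) = 1
  rw [psl, HahnSeries.ofPowerSeries_X, HahnSeries.single_mul_single, one_mul, add_neg_cancel]
  rfl

/-- The coefficientwise reduction of `∏ E → ∏ A`. -/
noncomputable def pip (I : Type) {A E : Type} [CommRing A] [CommRing E] (φ : E →+* A) :
    (I → E) →+* (I → A) := RingHom.pi fun i => φ.comp (Pi.evalRingHom _ i)

theorem pip_surj {I A E K : Type} [CommRing A] [CommRing E] [Fintype K] (S : SqE A E K) :
    Function.Surjective (spMap (pip I S.p)) := by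
  have hs : Function.Surjective (pip I S.p) := fun c =>
    ⟨fun i => S.i (c i), funext fun i => S.pi (c i)⟩
  change Function.Surjective (PrimeSpectrum.comap (pip I S.p))
  rw [← Set.range_eq_univ, range_comap_of_surjective _ _ hs,
    PrimeSpectrum.zeroLocus_eq_univ_iff]
  intro a ha
  refine mem_nilradical.2 ⟨2, funext fun i => ?_⟩
  have h1 : S.p (a i) = 0 := congrFun (show pip I S.p a = 0 from ha) i
  rw [pow_two]
  exact S.mul_of_p_eq_zero h1 h1

theorem pip_cc {I A E K : Type} [CommRing A] [CommRing E] [Fintype K] (S : SqE A E K) :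
    (pip I S.p).comp (ccI I E) = (ccI I A).comp (psm I S.p) :=
  RingHom.ext fun f => funext fun i => (cc_map S.p (f i)).symm

/-- A combination of the `ε j` in the Laurent series. -/
theorem red_zero {I A E K : Type} [CommRing A] [CommRing E] [Fintype K] (S : SqE A E K)
    (w : K → KK I E) (h : ∑ j, algebraMap E (KK I E) (S.ε j) * w j = 0) (j : K) :
    kmap S.p (w j) = 0 := by
  funext i
  ext m
  have h1 : ∑ j, S.ε j * (w j i).coeff m = 0 := by
    have h2 := congrArg (fun f : KK I E => (f i).coeff m) h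
    simp only [Finset.sum_apply, HahnSeries.coeff_sum, Pi.zero_apply, HahnSeries.coeff_zero] at h2
    rw [← h2]
    refine Finset.sum_congr rfl fun j _ => ?_
    rw [← Algebra.smul_def]
    rfl
  have h3 : ∑ j, S.ε j * S.i (S.p ((w j i).coeff m)) = 0 := by
    rw [← h1]
    refine Finset.sum_congr rfl fun j _ => ?_
    rw [← sub_eq_zero, ← mul_sub]
    exact S.mul_of_p_eq_zero (S.pe j) (by rw [map_sub, S.pi, sub_self])
  exact congrFun (S.un _ h3) j

end MTH

open _root_.Pool.Agent.MG.KX.MTH in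
/-- MTH: models of flat thickenings. -/
theorem t_MTH : Stmt_MTH := by
  intro I A E K _ _ _ _ _ g n S x P p hP M t
  obtain ⟨V, tt, le, hV, hb, nz, ⟨u, hu, ht⟩, kk, ss⟩ := M.loc
  have jo := M.jo
  let U : x.X.Opens := M.j.opensRange
  have hU : IsAffineOpen U := isAffineOpen_opensRange M.j
  have memU : ∀ y : x.X, y ∈ U ↔ y ∈ Set.range M.j := fun _ => Iff.rfl
  have aU : IsAffineOpen (t.op U) := t_AFF t U hU
  have aV : IsAffineOpen (t.op V) := t_AFF t V hV
  have gU := goodAff t U aU
  have gV := goodAff t V aV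
  have HV : FT S (coef x.π V) (coef t.y.π (t.op V)) (t.q V) :=
    ⟨t.q_coef V, gV.sur, gV.ker, gV.un⟩
  have HU : FT S (coef x.π U) (coef t.y.π (t.op U)) (t.q U) :=
    ⟨t.q_coef U, gU.sur, gU.ker, gU.un⟩
  obtain ⟨t', qt⟩ := gV.sur tt
  obtain ⟨g', g1, g2, ⟨u', hu', g3⟩, g4, g5⟩ := HV.exists_exp (gm M.sh V le)
    (fun a i => by
      rw [gm_coef M.sh x.π _ M.shp V le a]
      rfl) nz u hu ht kk ss qt
  -- the formal neighbourhood
  let sh' : Sp (I → PowerSeries E) ⟶ t.y.X := fsp aV g'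
  have le' : ⊤ ≤ sh' ⁻¹ᵁ (t.op V) := fsp_le aV g'
  have gm' : ∀ v, gm sh' (t.op V) le' v = g' v := fun v => gm_fsp aV g' le' v
  have shp' : sh' ≫ t.y.π = spMap (algebraMap E (I → PowerSeries E)) := by
    rw [comp_pi sh' t.y.π (t.op V) le']
    congr 2
    refine RingHom.ext fun a => ?_
    change gm sh' (t.op V) le' (coef t.y.π (t.op V) a) = _
    rw [gm', g2]
  have leV : ⊤ ≤ (M.sh ≫ t.r.f) ⁻¹ᵁ (t.op V) := top_le fun s => by
    have h1 : M.sh s ∈ t.r.f ⁻¹ᵁ (t.op V) := by
      rw [t.pre]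
      exact mem_of le s
    rw [Scheme.Hom.comp_apply]
    exact h1
  have shc : M.sh ≫ t.r.f = spMap (psm I S.p) ≫ sh' := by
    have leW : ⊤ ≤ (spMap (psm I S.p) ≫ sh') ⁻¹ᵁ (t.op V) := top_le fun s => by
      rw [Scheme.Hom.comp_apply]
      exact mem_of le' _
    refine eq_of_gm aV leV leW fun v => ?_
    rw [gm_comp sh' (psm I S.p) _ rfl (t.op V) le' leW v, gm', g1]
    have h1 := gm_nat t.r.f (M.sh ≫ t.r.f) M.sh (RingHom.id _)
      (by
        have : spMap (RingHom.id (I → PowerSeries A)) = 𝟙 _ := Spec.map_id _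
        rw [this, Category.id_comp]) (t.op V) V leV le (t.pre V).ge v
    exact h1.symm
  -- the intersection
  have bas : t.y.X.basicOpen t' = t.op (U ⊓ V) := by
    apply t.pre_inj
    rw [t.pre]
    have h1 := Scheme.basicOpen_appLE t.r.f V (t.op V) (t.pre V).ge t'
    have h2 : (t.r.f.appLE (t.op V) V (t.pre V).ge) t' = tt := qt
    rw [h2] at h1
    have h3 : t.r.f ⁻¹ᵁ t.y.X.basicOpen t' ≤ V := by
      have h4 : t.r.f ⁻¹ᵁ t.y.X.basicOpen t' ≤ t.r.f ⁻¹ᵁ (t.op V) :=
        fun s hs => t.y.X.basicOpen_le t' hs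
      rwa [t.pre] at h4
    rw [inf_eq_right.2 h3] at h1
    rw [← h1]
    exact SetLike.coe_injective hb
  let η : Sp (KK I E) ⟶ t.y.X := spMap (psI I E) ≫ sh'
  have leη' : ⊤ ≤ η ⁻¹ᵁ (t.op V) := top_le fun s => by
    change (spMap (psI I E) ≫ sh') s ∈ _
    rw [Scheme.Hom.comp_apply]
    exact mem_of le' _
  have leη : ⊤ ≤ η ⁻¹ᵁ (t.op U) := by
    have h1 : ⊤ ≤ η ⁻¹ᵁ t.y.X.basicOpen t' := by
      refine le_basic η (t.op V) leη' t' ?_
      rw [gm_comp sh' (psI I E) η rfl (t.op V) le' leη' t', gm', g3, map_mul]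
      exact isUnit_psX.mul (hu'.map _)
    rw [bas] at h1
    exact h1.trans fun s hs => t.op_mono inf_le_left hs
  let e' : Γ(t.y.X, t.op U) →+* KK I E := gm η (t.op U) leη
  have ηp : η ≫ t.y.π = spMap (algebraMap E (KK I E)) := by
    change (spMap (psI I E) ≫ sh') ≫ t.y.π = _
    rw [Category.assoc, shp', spMap_comp'']
    exact congrArg (fun f => spMap f) (RingHom.ext fun a => psI_algebraMap a)
  have ecoef : ∀ a, e' (coef t.y.π (t.op U) a) = algebraMap E (KK I E) a := fun a =>
    gm_coef η t.y.π _ ηp (t.op U) leη a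
  have leU : ⊤ ≤ M.j ⁻¹ᵁ U := top_le fun s => ⟨s, rfl⟩
  have leU' : ⊤ ≤ (M.j ≫ t.r.f) ⁻¹ᵁ (t.op U) := top_le fun s => by
    have h1 : M.j s ∈ t.r.f ⁻¹ᵁ (t.op U) := by
      rw [t.pre]
      exact mem_of leU s
    rw [Scheme.Hom.comp_apply]
    exact h1
  have gmj : ∀ v, gm (M.j ≫ t.r.f) (t.op U) leU' v = gm M.j U leU (t.q U v) := fun v => by
    have h1 := gm_nat t.r.f (M.j ≫ t.r.f) M.j (RingHom.id _)
      (by
        have : spMap (RingHom.id P) = 𝟙 _ := Spec.map_id _
        rw [this, Category.id_comp]) (t.op U) U leU' leU (t.pre U).ge v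
    exact h1.symm
  have cmpη : spMap (kmap S.p) ≫ η = spMap (P.val : P →+* KK I A) ≫ (M.j ≫ t.r.f) := by
    change spMap (kmap S.p) ≫ spMap (psI I E) ≫ sh' = _
    rw [← Category.assoc, spMap_comp'', kmap_psI, ← spMap_comp'', Category.assoc, ← shc,
      ← Category.assoc, M.cmp, Category.assoc]
  have ekm : ∀ v, kmap S.p (e' v) = (gm M.j U leU (t.q U v) : KK I A) := fun v => by
    have leζ : ⊤ ≤ (spMap (kmap S.p) ≫ η) ⁻¹ᵁ (t.op U) := top_le fun s => by
      rw [Scheme.Hom.comp_apply]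
      exact mem_of leη _
    have h1 := gm_comp η (kmap S.p) _ rfl (t.op U) leη leζ v
    have h2 := gm_comp (M.j ≫ t.r.f) (P.val : P →+* KK I A) _ cmpη (t.op U) leU' leζ v
    rw [gmj] at h2
    exact h1.symm.trans h2
  have bij := gm_bij M.j U leU rfl
  have qz : ∀ v, kmap S.p (e' v) = 0 → t.q U v = 0 := fun v hv => by
    rw [ekm] at hv
    have h1 : gm M.j U leU (t.q U v) = 0 := Subtype.ext hv
    exact bij.1 (h1.trans (map_zero _).symm)
  have einj : Function.Injective e' := by
    rw [injective_iff_map_eq_zero]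
    intro v hv
    obtain ⟨w, hw⟩ := gU.ker v (qz v (by rw [hv, map_zero]))
    have h1 : ∑ j, algebraMap E (KK I E) (S.ε j) * e' (w j) = 0 := by
      rw [← hv]
      conv_rhs => rw [hw]
      rw [map_sum]
      exact Finset.sum_congr rfl fun j _ => by rw [map_mul, ecoef]
    rw [hw]
    exact Finset.sum_eq_zero fun j _ => HU.eps_mul j (qz _ (red_zero S _ h1 j))
  -- the ring
  let P' : Subalgebra E (KK I E) :=
    { carrier := Set.range e'
      mul_mem' := by
        rintro _ _ ⟨a, rfl⟩ ⟨b, rfl⟩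
        exact ⟨a * b, map_mul _ _ _⟩
      add_mem' := by
        rintro _ _ ⟨a, rfl⟩ ⟨b, rfl⟩
        exact ⟨a + b, map_add _ _ _⟩
      algebraMap_mem' := fun a => ⟨_, ecoef a⟩ }
  let ρ : Γ(t.y.X, t.op U) →+* P' := e'.codRestrict P' fun v => ⟨v, rfl⟩
  have ρval : ∀ v, (ρ v : KK I E) = e' v := fun v => rfl
  have ρbij : Function.Bijective ρ := by
    refine ⟨fun v w h => einj (congrArg Subtype.val h), ?_⟩
    rintro ⟨_, v, rfl⟩
    exact ⟨v, rfl⟩
  have ρcoef : ∀ a, ρ (coef t.y.π (t.op U) a) = algebraMap E P' a := fun a =>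
    Subtype.ext (ecoef a)
  have mem : ∀ f ∈ P', kmap S.p f ∈ P := by
    rintro _ ⟨v, rfl⟩
    rw [ekm]
    exact (gm M.j U leU (t.q U v)).2
  have hbc : bc S.p P' = P := by
    have h1 : kmap S.p '' (P' : Set (KK I E)) = (P : Set (KK I A)) := by
      ext f
      constructor
      · rintro ⟨f', hf', rfl⟩
        exact mem f' hf'
      · intro hf
        obtain ⟨s, hs⟩ := bij.2 ⟨f, hf⟩
        obtain ⟨v, rfl⟩ := gU.sur s
        exact ⟨e' v, ⟨v, rfl⟩, by rw [ekm, hs]⟩
    rw [bc, h1, Algebra.adjoin_eq]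
  have hKr : IsKr g P' := by
    refine t_KFL (t_KSP t_KNZ) S.p S.p_surjective ⟨2, ?_⟩ P' (by rw [hbc]; exact hP) ?_
    · rw [pow_two, eq_bot_iff, Ideal.mul_le]
      intro r hr s hs
      exact (Submodule.mem_bot E).2 (S.mul_of_p_eq_zero hr hs)
    · rintro _ ⟨v, rfl⟩ hv
      obtain ⟨w, hw⟩ := gU.ker v (qz v hv)
      rw [hw, map_sum]
      refine Submodule.sum_mem _ fun j _ => ?_
      rw [map_mul, ecoef, ← Algebra.smul_def]
      exact Submodule.smul_mem_smul (S.pe j) ⟨w j, rfl⟩
  -- the complement of the punctures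
  have iso : IsIso (spMap ρ) := by
    have h1 : IsIso (CommRingCat.ofHom ρ) :=
      (RingEquiv.ofBijective ρ ρbij).toCommRingCatIso.isIso_hom
    infer_instance
  let j' : Sp P' ⟶ t.y.X := fsp aU ρ
  have jo' : IsOpenImmersion j' := by
    change IsOpenImmersion (spMap ρ ≫ aU.fromSpec)
    infer_instance
  have lej : ⊤ ≤ j' ⁻¹ᵁ (t.op U) := fsp_le aU ρ
  have gmj' : ∀ v, gm j' (t.op U) lej v = ρ v := fun v => gm_fsp aU ρ lej v
  have rangej : ∀ y, y ∈ Set.range j' ↔ y ∈ t.op U := by
    intro y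
    constructor
    · rintro ⟨s, rfl⟩
      exact mem_of lej s
    · intro hy
      have h1 : y ∈ Set.range aU.fromSpec := by
        rw [aU.range_fromSpec]
        exact hy
      obtain ⟨s, rfl⟩ := h1
      obtain ⟨s', rfl⟩ := (spMap ρ).surjective s
      exact ⟨s', Scheme.Hom.comp_apply _ _ _⟩
  have memop : ∀ y : x.X, t.r.f y ∈ t.op U ↔ y ∈ U := fun y => by
    have h1 : t.r.f y ∈ t.op U ↔ y ∈ t.r.f ⁻¹ᵁ (t.op U) := Iff.rfl
    rw [h1, t.pre]
  -- the marked points
  have leσ : ∀ i, ⊤ ≤ t.y.σ i ⁻¹ᵁ (t.op U) := fun i => top_le fun s => by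
    obtain ⟨s', rfl⟩ := (spMap S.p).surjective s
    rw [← Scheme.Hom.comp_apply, ← t.r.sec, Scheme.Hom.comp_apply, memop, M.mrk]
    rw [Scheme.Hom.comp_apply]
    exact ⟨_, rfl⟩
  let eρ : Γ(t.y.X, t.op U) ≃+* P' := RingEquiv.ofBijective ρ ρbij
  have eρs : ∀ v, eρ.symm (ρ v) = v := fun v => eρ.symm_apply_apply v
  let p' : Fin n → (P' →ₐ[E] E) := fun i =>
    { ((gm (t.y.σ i) (t.op U) (leσ i)).comp (eρ.symm : P' →+* Γ(t.y.X, t.op U))) with
      commutes' := fun a => by
        change gm (t.y.σ i) (t.op U) (leσ i) (eρ.symm (algebraMap E P' a)) = a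
        rw [← ρcoef, eρs]
        exact gm_coef (t.y.σ i) t.y.π (RingHom.id E)
          ((t.y.sec i).trans (Spec.map_id _).symm) (t.op U) (leσ i) a }
  have p'ρ : ∀ i v, p' i (ρ v) = gm (t.y.σ i) (t.op U) (leσ i) v := fun i v => by
    change gm (t.y.σ i) (t.op U) (leσ i) (eρ.symm (ρ v)) = _
    rw [eρs]
  have ccs : spMap (ccI I A) ≫ M.sh ≫ t.r.f = spMap (pip I S.p) ≫ spMap (ccI I E) ≫ sh' := by
    rw [shc, ← Category.assoc, ← Category.assoc, spMap_comp'', spMap_comp'', pip_cc]
  refine ⟨P', p', ⟨j', jo', ?_, sh', shp', ?_, ?_, ?_, ?_, ?_⟩, hKr, hbc, mem, ?_, shc⟩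
  · rw [comp_pi j' t.y.π (t.op U) lej]
    congr 2
    refine RingHom.ext fun a => ?_
    change gm j' (t.op U) lej (coef t.y.π (t.op U) a) = _
    rw [gmj', ρcoef]
  · have leθ : ⊤ ≤ (spMap (P'.val : P' →+* KK I E) ≫ j') ⁻¹ᵁ (t.op U) := top_le fun s => by
      rw [Scheme.Hom.comp_apply]
      exact mem_of lej _
    refine eq_of_gm aU leη leθ fun v => ?_
    rw [gm_comp j' (P'.val : P' →+* KK I E) _ rfl (t.op U) lej leθ v, gmj']
    rfl
  · intro y
    obtain ⟨y0, rfl⟩ := t.r.f.surjective y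
    rcases M.cov y0 with h | ⟨s, rfl⟩
    · exact Or.inl ((rangej _).2 ((memop _).2 h))
    · refine Or.inr ⟨spMap (pip I S.p) s, ?_⟩
      rw [← Scheme.Hom.comp_apply, ← ccs, ← Scheme.Hom.comp_apply, Category.assoc]
  · rintro y hy ⟨s, rfl⟩
    obtain ⟨s', rfl⟩ := pip_surj (I := I) S s
    rw [← Scheme.Hom.comp_apply, ← ccs, ← Category.assoc, Scheme.Hom.comp_apply, rangej,
      memop] at hy
    exact M.exc _ hy ⟨s', rfl⟩
  · intro i
    have leθ : ⊤ ≤ (spMap (p' i : P' →+* E) ≫ j') ⁻¹ᵁ (t.op U) := top_le fun s => by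
      rw [Scheme.Hom.comp_apply]
      exact mem_of lej _
    refine eq_of_gm aU (leσ i) leθ fun v => ?_
    rw [gm_comp j' (p' i : P' →+* E) _ rfl (t.op U) lej leθ v, gmj']
    exact (p'ρ i v).symm
  · refine ⟨t.op V, t', le', aV, ?_, fun v hv => HV.nz nz qt hv, ⟨u', hu', by rw [gm', g3]⟩,
      fun v hv => g4 v (by rwa [gm'] at hv), fun c => ?_⟩
    · rw [bas, t.op_inf]
      ext y
      constructor
      · rintro ⟨h1, h2⟩
        exact ⟨(rangej y).2 h1, h2⟩
      · rintro ⟨h1, h2⟩
        exact ⟨(rangej y).1 h1, h2⟩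
    · obtain ⟨v, hv⟩ := g5 c
      exact ⟨v, by rw [gm', hv]⟩
  · have leθ : ⊤ ≤ (spMap (rres (kmap S.p) mem) ≫ j') ⁻¹ᵁ (t.op U) := top_le fun s => by
      rw [Scheme.Hom.comp_apply]
      exact mem_of lej _
    refine eq_of_gm aU leU' leθ fun v => ?_
    rw [gm_comp j' (rres (kmap S.p) mem) _ rfl (t.op U) lej leθ v, gmj', gmj]
    exact Subtype.ext (ekm v).symm

end Pool.Agent.MG.KX


end

section

/-!
# Scaling of the coordinate and the values `HV` (PAPER_Q.md, HV8)
-/

open TensorProduct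

namespace Pool.Agent.MG.G0

namespace HV8

section

variable {A B : Type} [CommRing A] [CommRing B]

/-- Scaling of the coordinate, as an automorphism of `KK Unit A`. -/
noncomputable def al (c : Aˣ) : KK Unit A ≃ₐ[A] KK Unit A := AlgEquiv.piCongrRight fun _ => scE c

theorem al_apply (c : Aˣ) (f : KK Unit A) (i : Unit) : al c f i = sc c (f i) := rfl

theorem sc_inj (c : Aˣ) {f f' : LaurentSeries A} (h : sc c f = sc c f') : f = f' := by
  have h1 := congrArg (sc c⁻¹) h
  rw [sc_sc, sc_sc, inv_mul_cancel, sc_one, sc_one] at h1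
  exact h1

theorem al_mem_Pol (c : Aˣ) (n : ℤ) (f : KK Unit A) : al c f ∈ Pol Unit A n ↔ f ∈ Pol Unit A n := by
  rw [mem_Pol_unit, mem_Pol_unit, al_apply]
  constructor
  · intro h
    have h1 := sc_mem_Po c⁻¹ h
    rw [sc_sc, inv_mul_cancel, sc_one] at h1
    exact h1
  · exact sc_mem_Po c

theorem al_dd (c : Aˣ) (f : KK Unit A) : dd (al c f) = ((c⁻¹ : Aˣ) : A) • al c (dd f) :=
  funext fun _ => sc_ld c _

theorem kmap_al (φ : A →+* B) (c : Aˣ) (f : KK Unit A) :
    kmap φ (al c f) = al (Units.map (φ : A →* B) c) (kmap φ f) :=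
  funext fun _ => lmap_sc φ c _

theorem res_al (c : Aˣ) (f : KK Unit A) : res (((c⁻¹ : Aˣ) : A) • al c f) = res f := by
  rw [res_unit, res_unit, Pi.smul_apply, HahnSeries.coeff_smul, al_apply, sc_coeff, smul_eq_mul,
    ← mul_assoc, ← Units.val_mul]
  have h : c⁻¹ * c ^ (-(-1 : ℤ)) = 1 := by
    rw [neg_neg, zpow_one, inv_mul_cancel]
  rw [h, Units.val_one, one_mul]

theorem res_al_mul (c : Aˣ) (f h : KK Unit A) :
    res ((((c⁻¹ : Aˣ) : A) • al c f) * al c h) = res (f * h) := by
  rw [smul_mul_assoc, ← map_mul, res_al]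

theorem al_mem (c : Aˣ) (R : Subalgebra A (LaurentSeries A)) (f : KK Unit A) :
    f ∈ uno R ↔ al c f ∈ uno (R.map (sc c)) := by
  rw [mem_uno, mem_uno, al_apply, Subalgebra.mem_map]
  constructor
  · intro h
    exact ⟨f (), h, rfl⟩
  · rintro ⟨r, hr, h⟩
    rw [← sc_inj c h]
    exact hr

theorem al_EE (c : Aˣ) {R : Subalgebra A (LaurentSeries A)} {ω : KK Unit A}
    (h : ω ∈ EE (uno R)) : ((c⁻¹ : Aˣ) : A) • al c ω ∈ EE (uno (R.map (sc c))) := by
  refine ⟨fun p hp => ?_, Submodule.smul_mem _ _ ((al_mem_Pol c 0 ω).2 h.2)⟩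
  obtain ⟨q, rfl⟩ := (al c).surjective p
  rw [res_al_mul]
  exact h.1 q ((al_mem c R q).2 hp)

/-- Scaling of the coordinate on the functions. -/
noncomputable def aP (c : Aˣ) (R : Subalgebra A (LaurentSeries A)) :
    uno R →ₗ[A] uno (R.map (sc c)) where
  toFun f := ⟨al c f, (al_mem c R f).1 f.2⟩
  map_add' x y := Subtype.ext (map_add (al c) (x : KK Unit A) y)
  map_smul' a x := Subtype.ext (map_smul (al c) a (x : KK Unit A))

@[simp] theorem aP_val (c : Aˣ) (R : Subalgebra A (LaurentSeries A)) (f : uno R) :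
    (aP c R f : KK Unit A) = al c f := rfl

/-- Scaling of the coordinate on `∑ p ⊗ g`. -/
noncomputable def aT (c : Aˣ) (R : Subalgebra A (LaurentSeries A)) :
    uno R ⊗[A] uno R →ₗ[A] uno (R.map (sc c)) ⊗[A] uno (R.map (sc c)) :=
  TensorProduct.map (aP c R) (aP c R)

@[simp] theorem aT_tmul (c : Aˣ) (R : Subalgebra A (LaurentSeries A)) (p g : uno R) :
    aT c R (p ⊗ₜ g) = aP c R p ⊗ₜ aP c R g := rfl

theorem dk_aT (c : Aˣ) (R : Subalgebra A (LaurentSeries A)) (η : uno R ⊗[A] uno R) :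
    dk (uno (R.map (sc c))) (aT c R η) = ((c⁻¹ : Aˣ) : A) • al c (dk (uno R) η) := by
  induction η using TensorProduct.induction_on with
  | zero => rw [map_zero, map_zero, map_zero, map_zero, smul_zero]
  | tmul p g =>
    rw [aT_tmul, dk_tmul, dk_tmul, map_mul, aP_val, aP_val, al_dd, mul_smul_comm]
  | add a b ha hb => rw [map_add, map_add, map_add, map_add, ha, hb, smul_add]

/-- Scaling of the coordinate on the differentials without poles. -/
noncomputable def aD (c : Aˣ) (R : Subalgebra A (LaurentSeries A)) (η : DR (uno R)) :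
    DR (uno (R.map (sc c))) :=
  ⟨aT c R η, by
    rw [DR, Submodule.mem_comap, dk_aT]
    exact Submodule.smul_mem _ _ ((al_mem_Pol c 0 _).2 η.2)⟩

theorem dk_aD (c : Aˣ) (R : Subalgebra A (LaurentSeries A)) (η : DR (uno R)) :
    dk (uno (R.map (sc c))) (aD c R η) = ((c⁻¹ : Aˣ) : A) • al c (dk (uno R) η) := dk_aT c R η

theorem tw_mem_QA (c : Aˣ) (R : Subalgebra A (LaurentSeries A)) (ω : EE (uno R))
    (η : uno R ⊗[A] uno R) :
    (tw (uno R) ω η, tw (uno (R.map (sc c))) ⟨((c⁻¹ : Aˣ) : A) • al c (ω : KK Unit A),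
      al_EE c ω.2⟩ (aT c R η)) ∈ QA (al c) (uno R) (uno (R.map (sc c))) := by
  induction η using TensorProduct.induction_on with
  | zero =>
    rw [map_zero, map_zero, map_zero]
    exact zero_mem _
  | tmul p g =>
    refine Submodule.subset_span ⟨⟨(p : KK Unit A) * ω, mul_mem_Perp p.2 ω.2.1⟩, g,
      ⟨(aP c R p : KK Unit A) * (((c⁻¹ : Aˣ) : A) • al c (ω : KK Unit A)),
        mul_mem_Perp (aP c R p).2 (al_EE c ω.2).1⟩, aP c R g, fun h => ?_, rfl, rfl⟩
    change res (((aP c R p : KK Unit A) * (((c⁻¹ : Aˣ) : A) • al c (ω : KK Unit A))) * al c h) =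
      res (((p : KK Unit A) * (ω : KK Unit A)) * h)
    rw [aP_val, mul_smul_comm, ← map_mul, res_al_mul]
  | add a b ha hb =>
    rw [map_add, map_add, map_add]
    exact add_mem ha hb

end

end HV8

/-- HV8: scaling of the coordinate (one puncture). -/
theorem t_HV8 (hPOA : Stmt_POA) (hGRX : Stmt_GRX) : Stmt_HV8 := by
  intro A _ _ g E R c t hG
  refine ⟨hGRX.2 c g R hG, ?_⟩
  rintro k u u' x ⟨hu, η, hη, hx⟩
  refine ⟨fun i => HV8.al_EE c (hu i), fun i => HV8.aD c R (η i), fun i => ?_, ?_⟩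
  · rw [HV8.dk_aD, hη i, map_smul, smul_comm]
    rfl
  · rw [hx]
    symm
    exact hPOA E (HV8.al c)
      (HV8.al (Units.map ((MvPolynomial.C (R := A) (σ := Fin k) : A →+* MvPolynomial (Fin k) A) :
        A →* MvPolynomial (Fin k) A) c))
      (HV8.al_mem_Pol c) (HV8.al_mem_Pol _)
      (HV8.kmap_al (MvPolynomial.C (R := A) (σ := Fin k)) c)
      (uno R) (uno (R.map (sc c))) hG (hGRX.2 c g R hG) (HV8.al_mem c R)
      (fun i => twR (uno R) ⟨u' i, hu i⟩ (η i))
      (fun i => twR (uno (R.map (sc c))) ⟨((c⁻¹ : Aˣ) : A) • HV8.al c (u' i),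
        HV8.al_EE c (hu i)⟩ (HV8.aD c R (η i)))
      (fun i => HV8.tw_mem_QA c R ⟨u' i, hu i⟩ (η i : uno R ⊗[A] uno R))

end Pool.Agent.MG.G0


end

section

/-!
# TRX: base change and change of the index set of smooth Krichever rings (PAPER_TG.md)
-/

open TensorProduct

namespace Pool.Agent.MG.G0

namespace TRX

/-- A smoothness certificate is transported by an isomorphism. -/
theorem smC_equiv {A R R' : Type} [CommRing A] [CommRing R] [CommRing R'] [Algebra A R]
    [Algebra A R'] (e : R ≃ₐ[A] R') (h : SmC A R) : SmC A R' := by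
  obtain ⟨n, D, g, h1, h2⟩ := h
  letI : Algebra R R' := (e : R →+* R').toAlgebra
  have hm : ∀ r, algebraMap R R' r = e r := fun r => rfl
  have : IsScalarTower A R R' := IsScalarTower.of_algebraMap_eq fun a => by
    rw [hm]
    exact (e.commutes a).symm
  let D' : Fin n → Derivation A R' R' := fun i =>
    { toFun := fun f => e (D i (e.symm f))
      map_add' := fun f g => by rw [map_add, map_add, map_add]
      map_smul' := fun a f => by
        rw [map_smul, Derivation.map_smul, map_smul, RingHom.id_apply]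
      map_one_eq_zero' := by
        change e (D i (e.symm 1)) = 0
        rw [map_one, Derivation.map_one_eq_zero, map_zero]
      leibniz' := fun f g => by
        change e (D i (e.symm (f * g))) = f • e (D i (e.symm g)) + g • e (D i (e.symm f))
        rw [map_mul, Derivation.leibniz, smul_eq_mul, smul_eq_mul, smul_eq_mul, smul_eq_mul,
          map_add, map_mul, map_mul, e.apply_symm_apply, e.apply_symm_apply] }
  refine ⟨n, D', fun i => e (g i), ?_, ?_⟩
  · have h3 : ∀ i, D' i (e (g i)) = e (D i (g i)) := fun i => by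
      change e (D i (e.symm (e (g i)))) = _
      rw [e.symm_apply_apply]
    simp only [h3]
    rw [← map_sum, h1, map_one]
  · intro E' f' k'
    let E : Derivation A R R :=
      { toFun := fun f => e.symm (E' (e f))
        map_add' := fun f g => by rw [map_add, map_add, map_add]
        map_smul' := fun a f => by
          rw [map_smul, Derivation.map_smul, map_smul, RingHom.id_apply]
        map_one_eq_zero' := by
          change e.symm (E' (e 1)) = 0
          rw [map_one, Derivation.map_one_eq_zero, map_zero]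
        leibniz' := fun f g => by
          change e.symm (E' (e (f * g))) = f • e.symm (E' (e g)) + g • e.symm (E' (e f))
          rw [map_mul, Derivation.leibniz, smul_eq_mul, smul_eq_mul, smul_eq_mul, smul_eq_mul,
            map_add, map_mul, map_mul, e.symm_apply_apply, e.symm_apply_apply] }
    have key := congrArg (KaehlerDifferential.map A A R R') (h2 E (e.symm f') (e.symm k'))
    rw [map_smul, map_smul, KaehlerDifferential.map_D, KaehlerDifferential.map_D,
      ← algebraMap_smul R' (E (e.symm f')), ← algebraMap_smul R' (E (e.symm k')), hm, hm, hm,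
      hm, e.apply_symm_apply, e.apply_symm_apply] at key
    have a1 : e (E (e.symm f')) = E' f' := by
      change e (e.symm (E' (e (e.symm f')))) = E' f'
      rw [e.apply_symm_apply, e.apply_symm_apply]
    have a2 : e (E (e.symm k')) = E' k' := by
      change e (e.symm (E' (e (e.symm k')))) = E' k'
      rw [e.apply_symm_apply, e.apply_symm_apply]
    rw [a1, a2] at key
    exact key

variable {I I' : Type} {A B : Type} [CommRing A] [CommRing B]

theorem mem_reix (e : I' ≃ I) {P : Subalgebra A (KK I A)} {f : KK I' A} :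
    f ∈ reix e P ↔ (fun i => f (e.symm i) : KK I A) ∈ P := Iff.rfl

theorem comp_mem (e : I' ≃ I) {P : Subalgebra A (KK I A)} {f : KK I A} (hf : f ∈ P) :
    (fun i => f (e i) : KK I' A) ∈ reix e P := by
  rw [mem_reix]
  have h : (fun i => (fun i => f (e i) : KK I' A) (e.symm i) : KK I A) = f := by
    funext i
    change f (e (e.symm i)) = f i
    rw [e.apply_symm_apply]
  rw [h]
  exact hf

/-- The isomorphism of `P` and `reix e P`. -/
noncomputable def eqv (e : I' ≃ I) (P : Subalgebra A (KK I A)) : P ≃ₐ[A] reix e P where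
  toFun f := ⟨fun i => (f : KK I A) (e i), comp_mem e f.2⟩
  invFun f := ⟨fun i => (f : KK I' A) (e.symm i), f.2⟩
  left_inv f := Subtype.ext (funext fun i => by
    change (f : KK I A) (e (e.symm i)) = _
    rw [e.apply_symm_apply])
  right_inv f := Subtype.ext (funext fun i => by
    change (f : KK I' A) (e.symm (e i)) = _
    rw [e.symm_apply_apply])
  map_mul' _ _ := rfl
  map_add' _ _ := rfl
  commutes' _ := rfl

theorem eqv_apply (e : I' ≃ I) (P : Subalgebra A (KK I A)) (f : P) (i : I') :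
    (eqv e P f : KK I' A) i = (f : KK I A) (e i) := rfl

theorem reix_symm (e : I' ≃ I) (P : Subalgebra A (KK I A)) : reix e.symm (reix e P) = P := by
  ext f
  rw [mem_reix, mem_reix]
  have h : (fun i => (fun i => f (e.symm.symm i) : KK I' A) (e.symm i) : KK I A) = f := by
    funext i
    change f (e (e.symm i)) = f i
    rw [e.apply_symm_apply]
  rw [h]

theorem res_comp [Fintype I] [Fintype I'] (e : I' ≃ I) (f : KK I A) :
    res (fun i => f (e i) : KK I' A) = res f :=
  Fintype.sum_equiv e _ _ fun _ => rfl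

theorem dual_reix [Fintype I] [Fintype I'] (e : I' ≃ I) {P : Subalgebra A (KK I A)}
    (hP : Dual P) : Dual (reix e P) := by
  intro θ hθ η hη
  rw [mem_reix]
  have h1 : (fun i => θ (e.symm i) : KK I A) ∈ TT P := by
    intro f hf
    have h2 := hθ _ (comp_mem e hf)
    rw [mem_reix] at h2
    have h3 : (fun i => (θ * dd (fun i => f (e i) : KK I' A)) (e.symm i) : KK I A) =
        (fun i => θ (e.symm i) : KK I A) * dd f := by
      funext i
      change θ (e.symm i) * ld (f (e (e.symm i))) = θ (e.symm i) * ld (f i)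
      rw [e.apply_symm_apply]
    rw [h3] at h2
    exact h2
  have h4 : (fun i => η (e.symm i) : KK I A) ∈ Perp P := by
    intro p hp
    have h5 := hη _ (comp_mem e hp)
    rw [← res_comp e.symm] at h5
    have h6 : (fun i => (η * (fun i => p (e i) : KK I' A)) (e.symm i) : KK I A) =
        (fun i => η (e.symm i) : KK I A) * p := by
      funext i
      change η (e.symm i) * p (e (e.symm i)) = η (e.symm i) * p i
      rw [e.apply_symm_apply]
    rw [h6] at h5
    exact h5
  exact hP _ h1 _ h4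

theorem skr_reix (hKAU : Stmt_KAU) [Fintype I] [Fintype I'] (e : I' ≃ I) {h : ℕ}
    {R : Subalgebra A (KK I A)} (hR : SKr h R) : SKr h (reix e R) where
  kr := hKAU.2 R e hR.kr
  fs := by
    have := hR.fs
    exact Algebra.FormallySmooth.of_equiv (eqv e R)
  smc := smC_equiv (eqv e R) hR.smc
  dual := dual_reix e hR.dual

/-- The base change of a smooth Krichever ring. -/
theorem skr_bc (hKBC : Stmt_KBC) (hKBT : Stmt_KBT) (hSDB : Stmt_SDB) [Fintype I] [Nonempty I]
    {h : ℕ} {R : Subalgebra A (KK I A)} (hR : SKr h R) (φ : A →+* B) : SKr h (bc φ R) := by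
  refine ⟨(hKBC.2.2.2 hR.kr φ).1, ?_, (hSDB hR.kr hR.smc φ).1, (hSDB hR.kr hR.smc φ).2.1 hR.dual⟩
  let _ : Algebra A B := φ.toAlgebra
  obtain ⟨e, -⟩ := (hKBT (B := B) hR.kr).2
  have := hR.fs
  exact Algebra.FormallySmooth.of_equiv (A := B ⊗[A] R) (B := bc (algebraMap A B) R) e


end TRX

theorem t_TRX (hKBC : Stmt_KBC) (hKBT : Stmt_KBT) (hSDB : Stmt_SDB) (hKAU : Stmt_KAU) :
    Stmt_TRX :=
  ⟨fun hR φ => TRX.skr_bc hKBC hKBT hSDB hR φ, fun e hR => TRX.skr_reix hKAU e hR⟩

end Pool.Agent.MG.G0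


end

section

/-!
# Ultraproducts of algebraically closed fields which contain the complex numbers (PAPER.md, U0)
-/

open Polynomial

namespace Pool.Agent.MG.G0

namespace UEM

section alg

variable (𝒰 : Ultrafilter ℕ) {k : ℕ → Type} [∀ n, Field (k n)]

theorem algClosed (h : ∀ n, IsAlgClosed (k n)) : IsAlgClosed (Ul 𝒰 k) := by
  refine IsAlgClosed.of_exists_root _ fun F hF hirr => ?_
  have hd : F.natDegree ≠ 0 := hirr.natDegree_pos.ne'
  choose c hc using fun m : ℕ => umk_surj 𝒰 (F.coeff m)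
  have hroot : ∀ n, ∃ r : k n, r ^ F.natDegree +
      ∑ m ∈ Finset.range F.natDegree, c m n * r ^ m = 0 := by
    intro n
    let f : (k n)[X] := X ^ F.natDegree + ∑ m ∈ Finset.range F.natDegree, C (c m n) * X ^ m
    have hlt : (∑ m ∈ Finset.range F.natDegree, C (c m n) * X ^ m : (k n)[X]).degree <
        (F.natDegree : WithBot ℕ) := by
      refine (Polynomial.degree_sum_le _ _).trans_lt ?_
      rw [Finset.sup_lt_iff (WithBot.bot_lt_coe _)]
      intro m hm
      refine (Polynomial.degree_C_mul_X_pow_le _ _).trans_lt ?_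
      exact_mod_cast Finset.mem_range.1 hm
    have hfd : f.degree = (F.natDegree : WithBot ℕ) := by
      change (X ^ F.natDegree + _ : (k n)[X]).degree = _
      rw [Polynomial.degree_add_eq_left_of_degree_lt, Polynomial.degree_X_pow]
      rw [Polynomial.degree_X_pow]
      exact hlt
    obtain ⟨r, hr⟩ := IsAlgClosed.exists_root f (by
      rw [hfd]
      exact_mod_cast hd)
    refine ⟨r, ?_⟩
    have h1 : f.eval r = r ^ F.natDegree +
        ∑ m ∈ Finset.range F.natDegree, c m n * r ^ m := by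
      change (X ^ F.natDegree + _ : (k n)[X]).eval r = _
      rw [Polynomial.eval_add, Polynomial.eval_pow, Polynomial.eval_X,
        Polynomial.eval_finsetSum]
      simp only [Polynomial.eval_mul, Polynomial.eval_C, Polynomial.eval_pow, Polynomial.eval_X]
    rw [← h1]
    exact hr
  choose r hr using hroot
  refine ⟨umk 𝒰 r, ?_⟩
  rw [Polynomial.eval_eq_sum_range, Finset.sum_range_succ]
  have h1 : F.coeff F.natDegree = 1 := hF
  rw [h1, one_mul]
  simp only [← hc, ← map_pow, ← map_mul, ← map_sum, ← map_add]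
  rw [umk_eq_zero]
  refine Filter.Eventually.of_forall fun n => ?_
  rw [← hr n, add_comm]
  simp only [Pi.add_apply, Pi.pow_apply, Finset.sum_apply, Pi.mul_apply]

end alg

section ind

variable (𝒰 : Ultrafilter ℕ) {k : ℕ → Type} [∀ n, Field (k n)] {p : ℕ → ℕ}
  [∀ n, CharP (k n) (p n)]

theorem indep (hp : ∀ N : ℕ, ∀ᶠ n in (𝒰 : Filter ℕ), N < p n) {σ : Type} (x : ∀ n, σ → k n)
    (hx : ∀ n, @AlgebraicIndependent σ (ZMod (p n)) (k n) (x n) _ _ (ZMod.algebra _ _)) :
    AlgebraicIndependent ℤ (fun s => umk 𝒰 fun n => x n s : σ → Ul 𝒰 k) := by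
  rw [algebraicIndependent_iff]
  intro P hP
  by_contra hne
  obtain ⟨m, hm⟩ := MvPolynomial.ne_zero_iff.1 hne
  have h1 : MvPolynomial.aeval (fun s => umk 𝒰 fun n => x n s : σ → Ul 𝒰 k) P =
      umk 𝒰 fun n => MvPolynomial.aeval (x n) P := by
    clear hP hne hm
    induction P using MvPolynomial.induction_on with
    | C a =>
      have h : ∀ n, MvPolynomial.aeval (x n) (MvPolynomial.C a) = (a : k n) := fun n => by
        rw [MvPolynomial.aeval_C, eq_intCast]
      simp only [h]
      rw [MvPolynomial.aeval_C, eq_intCast]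
      exact (map_intCast (umk 𝒰 : (∀ n, k n) →+* Ul 𝒰 k) a).symm
    | add P Q hP hQ =>
      rw [map_add, hP, hQ, ← map_add]
      simp only [map_add]
      rfl
    | mul_X P s hP =>
      rw [map_mul, hP, MvPolynomial.aeval_X, ← map_mul]
      simp only [map_mul, MvPolynomial.aeval_X]
      rfl
  rw [h1, umk_eq_zero] at hP
  have h2 : ∀ᶠ n in (𝒰 : Filter ℕ), (P.coeff m).natAbs < p n := hp _
  obtain ⟨n, hn1, hn2⟩ := (hP.and h2).exists
  let _ := ZMod.algebra (k n) (p n)
  have h3 : MvPolynomial.aeval (x n) (MvPolynomial.map (Int.castRingHom (ZMod (p n))) P) =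
      MvPolynomial.aeval (x n) P := by
    rw [MvPolynomial.aeval_def, MvPolynomial.eval₂_map, MvPolynomial.aeval_def]
    congr 1
    exact RingHom.ext_int _ _
  rw [hn1] at h3
  have h4 := (algebraicIndependent_iff.1 (hx n)) _ h3
  have h5 := congrArg (MvPolynomial.coeff m) h4
  rw [MvPolynomial.coeff_map, MvPolynomial.coeff_zero] at h5
  have h6 : ((P.coeff m : ℤ) : ZMod (p n)) = 0 := h5
  rw [ZMod.intCast_zmod_eq_zero_iff_dvd] at h6
  have h7 := Int.natAbs_dvd_natAbs.2 h6
  rw [Int.natAbs_natCast] at h7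
  have h8 := Nat.le_of_dvd (Int.natAbs_pos.2 hm) h7
  omega

/-- The embedding of the complex numbers. -/
theorem embed (hp : ∀ N : ℕ, ∀ᶠ n in (𝒰 : Filter ℕ), N < p n) (hcl : ∀ n, IsAlgClosed (k n))
    {ι β : Type} {t : ι → ℂ} (ht : IsTranscendenceBasis ℤ t) (x : ∀ n, β ⊕ ι → k n)
    (hx : ∀ n, @AlgebraicIndependent (β ⊕ ι) (ZMod (p n)) (k n) (x n) _ _ (ZMod.algebra _ _)) :
    ∃ i : ℂ →+* Ul 𝒰 k, @AlgebraicIndependent β ℂ (Ul 𝒰 k)
      (fun j => umk 𝒰 fun n => x n (Sum.inl j)) _ _ i.toAlgebra := by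
  have hcl' : IsAlgClosed (Ul 𝒰 k) := algClosed 𝒰 hcl
  have hX := indep 𝒰 hp x hx
  let X : ι → Ul 𝒰 k := fun s => umk 𝒰 fun n => x n (Sum.inr s)
  let Y : β → Ul 𝒰 k := fun s => umk 𝒰 fun n => x n (Sum.inl s)
  have hXY : (fun s => umk 𝒰 fun n => x n s : β ⊕ ι → Ul 𝒰 k) = Sum.elim Y X := by
    funext s
    cases s <;> rfl
  rw [hXY, AlgebraicIndependent.sumElim_iff] at hX
  obtain ⟨hX, hY⟩ := hX
  let S := Algebra.adjoin ℤ (Set.range X)
  let T := Algebra.adjoin ℤ (Set.range t)
  let e : S ≃+* T := (hX.aevalEquiv.symm.trans ht.1.aevalEquiv).toRingEquiv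
  let _ : Algebra S ℂ := ((algebraMap T ℂ).comp (e : S →+* T)).toAlgebra
  have hT : Algebra.IsAlgebraic T ℂ := ht.isAlgebraic
  have hS : Algebra.IsAlgebraic S ℂ := by
    refine ⟨fun z => ?_⟩
    obtain ⟨q, hq0, hq⟩ := hT.isAlgebraic z
    refine ⟨q.map (e.symm : T →+* S), ?_, ?_⟩
    · rw [Polynomial.map_ne_zero_iff e.symm.injective]
      exact hq0
    · rw [Polynomial.aeval_def, Polynomial.eval₂_map]
      have h1 : (algebraMap S ℂ).comp (e.symm : T →+* S) = algebraMap T ℂ := by
        refine RingHom.ext fun y => ?_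
        change algebraMap T ℂ (e (e.symm y)) = _
        rw [e.apply_symm_apply]
      rw [h1]
      exact hq
  have hinj : Function.Injective (algebraMap S ℂ) := fun a b hab =>
    e.injective (Subtype.val_injective hab)
  have hf1 : Module.IsTorsionFree S ℂ := Module.isTorsionFree_iff_algebraMap_injective.2 hinj
  have hf2 : Module.IsTorsionFree S (Ul 𝒰 k) :=
    Module.isTorsionFree_iff_algebraMap_injective.2 Subtype.val_injective
  let i : ℂ →ₐ[S] Ul 𝒰 k := IsAlgClosed.lift
  refine ⟨i, ?_⟩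
  let _ : Algebra ℂ (Ul 𝒰 k) := (i : ℂ →+* Ul 𝒰 k).toAlgebra
  have : IsScalarTower S ℂ (Ul 𝒰 k) := IsScalarTower.of_algebraMap_eq fun y => (i.commutes y).symm
  exact AlgebraicIndependent.extendScalars ℂ hY

end ind

end UEM

open _root_.Pool.Agent.MG.G0.UEM in
theorem t_UEM : Stmt_UEM := by
  intro 𝒰 b p hpr hp
  have hpf : ∀ n, Fact (p n).Prime := fun n => ⟨hpr n⟩
  obtain ⟨ι, t, ht⟩ := exists_isTranscendenceBasis' ℤ ℂ
  let k : ℕ → Type := fun n =>
    AlgebraicClosure (FractionRing (MvPolynomial (Fin b ⊕ ι) (ZMod (p n))))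
  have hdom : ∀ n, IsDomain (MvPolynomial (Fin b ⊕ ι) (ZMod (p n))) := fun n => inferInstance
  let φ : ∀ n, MvPolynomial (Fin b ⊕ ι) (ZMod (p n)) →+* k n := fun n =>
    (algebraMap (FractionRing (MvPolynomial (Fin b ⊕ ι) (ZMod (p n))))
      (AlgebraicClosure (FractionRing (MvPolynomial (Fin b ⊕ ι) (ZMod (p n)))))).comp
      (algebraMap (MvPolynomial (Fin b ⊕ ι) (ZMod (p n)))
        (FractionRing (MvPolynomial (Fin b ⊕ ι) (ZMod (p n)))))
  have hφ : ∀ n, Function.Injective (φ n) := fun n => by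
    have h1 : Function.Injective
        (algebraMap (FractionRing (MvPolynomial (Fin b ⊕ ι) (ZMod (p n))))
          (AlgebraicClosure (FractionRing (MvPolynomial (Fin b ⊕ ι) (ZMod (p n)))))) :=
      RingHom.injective _
    have h2 : Function.Injective (algebraMap (MvPolynomial (Fin b ⊕ ι) (ZMod (p n)))
        (FractionRing (MvPolynomial (Fin b ⊕ ι) (ZMod (p n))))) :=
      IsFractionRing.injective _ _
    exact h1.comp h2
  let x : ∀ n, Fin b ⊕ ι → k n := fun n s => φ n (MvPolynomial.X s)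
  have hc : ∀ n, CharP (k n) (p n) := fun n => charP_of_injective_ringHom (hφ n) (p n)
  have hx : ∀ n, @AlgebraicIndependent (Fin b ⊕ ι) (ZMod (p n)) (k n) (x n) _ _
      (ZMod.algebra _ _) := by
    intro n
    let _ := ZMod.algebra (k n) (p n)
    rw [algebraicIndependent_iff]
    intro P hP
    refine hφ n ?_
    rw [map_zero, ← hP]
    have h : (φ n) = (MvPolynomial.aeval (x n) : MvPolynomial (Fin b ⊕ ι) (ZMod (p n)) →ₐ[_] k n)
        := by
      refine MvPolynomial.ringHom_ext' (RingHom.ext_zmod _ _) fun s => ?_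
      change φ n (MvPolynomial.X s) = MvPolynomial.aeval (x n) (MvPolynomial.X s)
      rw [MvPolynomial.aeval_X]
    exact congrArg (fun F => F P) h
  obtain ⟨i, hi⟩ := embed 𝒰 hp (fun n => inferInstanceAs (IsAlgClosed (AlgebraicClosure _))) ht
    x hx
  refine ⟨k, inferInstance, hc, fun n => inferInstanceAs (IsAlgClosed (AlgebraicClosure _)),
    fun n j => x n (Sum.inl j), i, fun n => ?_, hi⟩
  let _ := ZMod.algebra (k n) (p n)
  exact (hx n).comp _ Sum.inl_injective

end Pool.Agent.MG.G0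


end

section

/-!
# UGL: Krichever rings over fields of characteristic zero with separable discriminant
-/

open Polynomial TensorProduct

namespace Pool.Agent.MG.G0

namespace UGL

section desc

variable {I L K : Type} [Field L] [Field K] [Algebra L K]

/-- An `L`-linear functional applied to the coefficients. -/
noncomputable def kl (lam : K →ₗ[L] L) : KK I K →+ KK I L where
  toFun f i := HahnSeries.map (f i) lam
  map_zero' := by
    funext i
    ext n
    rw [HahnSeries.map_coeff, Pi.zero_apply, HahnSeries.coeff_zero, Pi.zero_apply,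
      HahnSeries.coeff_zero, map_zero]
  map_add' f g := by
    funext i
    ext n
    rw [Pi.add_apply, HahnSeries.map_coeff, Pi.add_apply, HahnSeries.coeff_add,
      HahnSeries.coeff_add, HahnSeries.map_coeff, HahnSeries.map_coeff, map_add]

theorem kl_coeff (lam : K →ₗ[L] L) (f : KK I K) (i : I) (n : ℤ) :
    (kl lam f i).coeff n = lam ((f i).coeff n) := rfl

/-- The functional `x ↦ lam (b x)`. -/
noncomputable def tw (lam : K →ₗ[L] L) (b : K) : K →ₗ[L] L := lam ∘ₗ LinearMap.mulLeft L b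

theorem tw_apply (lam : K →ₗ[L] L) (b x : K) : tw lam b x = lam (b * x) := rfl

theorem kl_smul (lam : K →ₗ[L] L) (b : K) (f : KK I K) : kl lam (b • f) = kl (tw lam b) f := by
  funext i
  ext n
  rw [kl_coeff, kl_coeff, tw_apply, Pi.smul_apply, HahnSeries.coeff_smul, smul_eq_mul]

theorem kl_mul_kmap (lam : K →ₗ[L] L) (x : KK I K) (y : KK I L) :
    kl lam (x * kmap (algebraMap L K) y) = kl lam x * y := by
  funext i
  obtain ⟨a, ha⟩ := exists_low (x i)
  obtain ⟨b, hb⟩ := exists_low (y i)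
  ext n
  have ha' : ∀ m < -(a : ℤ), (kl lam x i).coeff m = 0 := fun m hm => by
    rw [kl_coeff, ha m hm, map_zero]
  have hb' : ∀ m < -(b : ℤ), (kmap (algebraMap L K) y i).coeff m = 0 := fun m hm => by
    rw [kmap_apply, lmap_coeff, hb m hm, map_zero]
  rw [kl_coeff, Pi.mul_apply, Pi.mul_apply, coeff_mul_Icc ha hb', coeff_mul_Icc ha' hb, map_sum]
  refine Finset.sum_congr rfl fun j _ => ?_
  rw [kl_coeff, kmap_apply, lmap_coeff, mul_comm, ← Algebra.smul_def, map_smul, smul_eq_mul,
    mul_comm]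

theorem kl_one (lam : K →ₗ[L] L) (h : lam 1 = 1) : kl lam (1 : KK I K) = 1 := by
  funext i
  ext n
  rw [kl_coeff, Pi.one_apply, Pi.one_apply, HahnSeries.coeff_one, HahnSeries.coeff_one]
  split_ifs
  · exact h
  · exact map_zero lam

theorem kl_kmap (lam : K →ₗ[L] L) (y : KK I L) :
    kl lam (kmap (algebraMap L K) y) = lam 1 • y := by
  funext i
  ext n
  rw [kl_coeff, kmap_apply, lmap_coeff, Algebra.algebraMap_eq_smul_one, map_smul, Pi.smul_apply,
    HahnSeries.coeff_smul, smul_eq_mul, smul_eq_mul, mul_comm]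

/-- The `K`-span of a space over `L` is mapped to this space. -/
theorem kl_span {M : Submodule L (KK I L)} {x : KK I K}
    (hx : x ∈ Submodule.span K (kmap (algebraMap L K) '' (M : Set (KK I L)))) :
    ∀ lam : K →ₗ[L] L, kl lam x ∈ M := by
  induction hx using Submodule.span_induction with
  | mem x hx =>
    obtain ⟨y, hy, rfl⟩ := hx
    intro lam
    rw [kl_kmap]
    exact M.smul_mem _ hy
  | zero =>
    intro lam
    rw [map_zero]
    exact zero_mem _
  | add x y _ _ hx hy =>
    intro lam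
    rw [map_add]
    exact add_mem (hx lam) (hy lam)
  | smul b x _ hx =>
    intro lam
    rw [kl_smul]
    exact hx _

theorem kl_bc {P : Subalgebra L (KK I L)} {x : KK I K} (hx : x ∈ bc (algebraMap L K) P)
    (lam : K →ₗ[L] L) : kl lam x ∈ P :=
  kl_span (M := Subalgebra.toSubmodule P) (mem_bc_span (algebraMap L K) P hx) lam

theorem kl_TT {P : Subalgebra L (KK I L)} {θ : KK I K} (hθ : θ ∈ TT (bc (algebraMap L K) P))
    (lam : K →ₗ[L] L) : kl lam θ ∈ TT P := by
  intro f hf
  have h1 := hθ _ (kmap_mem_bc (algebraMap L K) hf)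
  rw [← kmap_dd] at h1
  have h2 := kl_bc h1 lam
  rwa [kl_mul_kmap] at h2

/-- Kähler differentials over `K` are mapped to Kähler differentials over `L`. -/
theorem kl_Om {P : Subalgebra L (KK I L)} {η : KK I K} (hη : η ∈ Om (bc (algebraMap L K) P))
    (lam : K →ₗ[L] L) : kl lam η ∈ Om P := by
  refine kl_span (M := Om P) ?_ lam
  have key : ∀ p ∈ bc (algebraMap L K) P, ∀ f ∈ bc (algebraMap L K) P,
      p * dd f ∈ Submodule.span K (kmap (algebraMap L K) '' (Om P : Set (KK I L))) := by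
    intro p hp f hf
    have hp' := mem_bc_span (algebraMap L K) P hp
    have hf' := mem_bc_span (algebraMap L K) P hf
    clear hp hf
    induction hp' using Submodule.span_induction with
    | mem x hx =>
      obtain ⟨q, hq, rfl⟩ := hx
      induction hf' using Submodule.span_induction with
      | mem y hy =>
        obtain ⟨r, hr, rfl⟩ := hy
        rw [← kmap_dd, ← map_mul]
        exact Submodule.subset_span ⟨q * dd r, Submodule.subset_span ⟨q, hq, r, hr, rfl⟩, rfl⟩
      | zero =>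
        have h0 : dd (0 : KK I K) = 0 := map_zero (ddD I K)
        rw [h0, mul_zero]
        exact zero_mem _
      | add x y _ _ hx hy =>
        rw [dd_add, mul_add]
        exact add_mem hx hy
      | smul b x _ hx =>
        rw [dd_smul, mul_smul_comm]
        exact Submodule.smul_mem _ b hx
    | zero =>
      rw [zero_mul]
      exact zero_mem _
    | add x y _ _ hx hy =>
      rw [add_mul]
      exact add_mem hx hy
    | smul b x _ hx =>
      rw [smul_mul_assoc]
      exact Submodule.smul_mem _ b hx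
  have h1 : Om (bc (algebraMap L K) P) ≤
      Submodule.span K (kmap (algebraMap L K) '' (Om P : Set (KK I L))) := by
    refine Submodule.span_le.2 ?_
    rintro _ ⟨p, hp, f, hf, rfl⟩
    exact key p hp f hf
  exact h1 hη

/-- Sums of `θ dg`. -/
noncomputable def SS {A : Type} [CommRing A] (P : Subalgebra A (KK I A)) :
    Submodule A (KK I A) :=
  Submodule.span A {x | ∃ θ ∈ TT P, ∃ f ∈ P, x = θ * dd f}

theorem kl_SS {P : Subalgebra L (KK I L)} {f : KK I K} (hf : f ∈ bc (algebraMap L K) P)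
    (lam : K →ₗ[L] L) :
    ∀ θ ∈ TT (bc (algebraMap L K) P), kl lam (θ * dd f) ∈ SS P := by
  have hf' := mem_bc_span (algebraMap L K) P hf
  clear hf
  induction hf' using Submodule.span_induction with
  | mem y hy =>
    obtain ⟨r, hr, rfl⟩ := hy
    intro θ hθ
    rw [← kmap_dd, kl_mul_kmap]
    exact Submodule.subset_span ⟨_, kl_TT hθ lam, r, hr, rfl⟩
  | zero =>
    intro θ hθ
    have h0 : dd (0 : KK I K) = 0 := map_zero (ddD I K)
    rw [h0, mul_zero, map_zero]
    exact zero_mem _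
  | add x y _ _ hx hy =>
    intro θ hθ
    rw [dd_add, mul_add, map_add]
    exact add_mem (hx θ hθ) (hy θ hθ)
  | smul b x _ hx =>
    intro θ hθ
    rw [dd_smul, mul_smul_comm, ← smul_mul_assoc]
    exact hx _ (Submodule.smul_mem _ b hθ)

theorem SS_sum {P : Subalgebra L (KK I L)} {x : KK I L} (hx : x ∈ SS P) :
    ∃ (n : ℕ) (θ g : Fin n → KK I L), (∀ i, θ i ∈ TT P) ∧ (∀ i, g i ∈ P) ∧
      ∑ i, θ i * dd (g i) = x := by
  obtain ⟨n, a, s, hs⟩ := Submodule.mem_span_set'.1 hx
  choose θ hθ f hf he using fun i => (s i).2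
  refine ⟨n, fun i => a i • θ i, f, fun i => Submodule.smul_mem _ _ (hθ i), hf, ?_⟩
  rw [← hs]
  refine Finset.sum_congr rfl fun i _ => ?_
  rw [smul_mul_assoc, ← he i]

end desc

/-! ## Kähler differentials -/

theorem ex_lam (L K : Type) [Field L] [Field K] [Algebra L K] :
    ∃ lam : K →ₗ[L] L, lam 1 = 1 := by
  obtain ⟨l, hl⟩ := (Algebra.linearMap L K).exists_leftInverse_of_injective
    (LinearMap.ker_eq_bot.2 (algebraMap L K).injective)
  refine ⟨l, ?_⟩
  have h := LinearMap.congr_fun hl 1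
  rwa [LinearMap.comp_apply, Algebra.linearMap_apply, map_one, LinearMap.id_apply] at h

attribute [local instance] Algebra.TensorProduct.rightAlgebra in
theorem map_inj (L K P : Type) [Field L] [Field K] [Algebra L K] [CommRing P] [Algebra L P]
    (x : Ω[P⁄L]) (hx : KaehlerDifferential.map L K P (K ⊗[L] P) x = 0) : x = 0 := by
  obtain ⟨lam, hlam⟩ := ex_lam L K
  have h1 : KaehlerDifferential.tensorKaehlerEquivBase L K P (K ⊗[L] P) ((1 : K) ⊗ₜ[L] x) = 0 := by
    have h2 : KaehlerDifferential.tensorKaehlerEquivBase L K P (K ⊗[L] P) ((1 : K) ⊗ₜ[L] x) =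
        (1 : K) • KaehlerDifferential.map L K P (K ⊗[L] P) x := rfl
    rw [h2, hx, smul_zero]
  have h2 : (1 : K) ⊗ₜ[L] x = 0 := by
    rwa [LinearEquiv.map_eq_zero_iff] at h1
  have h3 := congrArg (fun y => TensorProduct.lid L (Ω[P⁄L]) (lam.rTensor (Ω[P⁄L]) y)) h2
  simp only [LinearMap.rTensor_tmul, TensorProduct.lid_tmul, hlam, one_smul, map_zero] at h3
  exact h3

attribute [local instance] Algebra.TensorProduct.rightAlgebra in
/-- The cross relation descends. -/
theorem cross {L K P : Type} [Field L] [Field K] [Algebra L K] [CommRing P] [Algebra L P]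
    (h : SmC K (K ⊗[L] P)) (E : Derivation L P P) (f g : P) :
    E f • KaehlerDifferential.D L P g = E g • KaehlerDifferential.D L P f := by
  rw [← sub_eq_zero]
  refine map_inj L K P _ ?_
  obtain ⟨n, D, s, -, hc⟩ := h
  have e := hc (SBC.bD E) ((1 : K) ⊗ₜ[L] f) ((1 : K) ⊗ₜ[L] g)
  rw [SBC.bD_tmul, SBC.bD_tmul] at e
  rw [map_sub, map_smul, map_smul, KaehlerDifferential.map_D, KaehlerDifferential.map_D,
    ← algebraMap_smul (K ⊗[L] P) (E f), ← algebraMap_smul (K ⊗[L] P) (E g)]
  exact sub_eq_zero.2 e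

/-- The geometric fibres. -/
theorem geo (hKBC : Stmt_KBC) (hKIL : Stmt_KIL) (hKIS : Stmt_KIS) (hSDF : Stmt_SDF) {L : Type}
    [Field L] [CharZero L] {g d : ℕ} {R : Subalgebra L (LaurentSeries L)} {f : L[X]}
    (hd : 1 ≤ d) (hK : Kr g R) (hz : zz L d ∈ R) (hD : Disc d R f) (hf : f.Separable)
    {K : Type} [Field K] [IsAlgClosed K] (φ : L →+* K) :
    TypeS (bc φ (uno R)) ∧ Dual (bc φ (uno R)) ∧ Disc d (bc1 φ R) (f.map φ) := by
  have hDB := t_ZDB hKBC L K φ g d R hd hK hz
  have h1 : Disc d (bc1 φ R) (f.map φ) := hDB.2.2 f hD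
  have h2 : Kr g (bc1 φ R) := by
    have h := (hKBC.2.2.2 hK φ).1
    rwa [bc_uno] at h
  have : CharZero K := charZero_of_injective_ringHom φ.injective
  have hd0 : (d : K) ≠ 0 := Nat.cast_ne_zero.2 (by omega)
  have hkil := hKIL.1 hd (isUnit_iff_ne_zero.2 hd0) h2 hDB.1 h1
  have h3 := hKIS hd (Nat.cast_ne_zero.2 (Nat.factorial_ne_zero d)) h2 hDB.1 hkil hf.map
  rw [bc_uno]
  exact ⟨h3, hSDF (P := uno (bc1 φ R)) h2 h3.1 h3.2, h1⟩

/-- Smoothness descends. -/
theorem smc_desc (hKBT : Stmt_KBT) (hSTO : Stmt_STO) {I : Type} [Fintype I] [Nonempty I]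
    {L K : Type} [Field L] [Field K] [Algebra L K] {g : ℕ} {P : Subalgebra L (KK I L)}
    (hP : IsKr g P) (hPK : IsKr g (bc (algebraMap L K) P))
    (hS : SmC K (bc (algebraMap L K) P)) : SmC L P := by
  obtain ⟨lam, hlam⟩ := ex_lam L K
  obtain ⟨-, -, -, hD, -⟩ := hSTO hP
  obtain ⟨-, -, -, -, hK⟩ := hSTO hPK
  obtain ⟨-, ⟨n, θ, g', hθ, hg', h1⟩, -⟩ := hK hS
  have h2 : (1 : KK I L) ∈ SS P := by
    rw [← kl_one lam hlam, ← h1, map_sum]
    exact sum_mem fun i _ => kl_SS (hg' i) lam _ (hθ i)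
  obtain ⟨m, θ', g₁, hθ', hg₁, h3⟩ := SS_sum h2
  choose D hDe using fun i => hD (θ' i) (hθ' i)
  have hT : SmC K (K ⊗[L] P) := by
    obtain ⟨-, e, -⟩ := hKBT (B := K) hP
    exact (t_SBC t_SCO t_LOC).2.1 e.symm hS
  refine ⟨m, D, fun i => ⟨g₁ i, hg₁ i⟩, ?_, fun E f h => cross hT E f h⟩
  apply Subtype.ext
  rw [AddSubmonoidClass.coe_finsetSum]
  simp only [hDe]
  exact h3

end UGL

theorem t_UGL (hKBC : Stmt_KBC) (hKBT : Stmt_KBT) (_hKFG : Stmt_KFG) (_hPBC : Stmt_PBC)
    (hSTO : Stmt_STO) (_hSDB : Stmt_SDB) (hSDF : Stmt_SDF) (hKIL : Stmt_KIL)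
    (hKIS : Stmt_KIS) : Stmt_UGL := by
  intro L _ _ g d R f hd hK hz hD hf
  have hgeo : ∀ {K : Type} [Field K] [IsAlgClosed K] (φ : L →+* K), TypeS (bc φ (uno R)) ∧
      Dual (bc φ (uno R)) ∧ Disc d (bc1 φ R) (f.map φ) := fun φ =>
    UGL.geo hKBC hKIL hKIS hSDF hd hK hz hD hf φ
  obtain ⟨⟨-, hS⟩, hDu, -⟩ := hgeo (algebraMap L (AlgebraicClosure L))
  have hPK : IsKr g (bc (algebraMap L (AlgebraicClosure L)) (uno R)) := (hKBC.2.2.2 hK _).1
  have hSL : SmC L (uno R) := UGL.smc_desc hKBT hSTO hK hPK hS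
  have hOm : Perp (uno R) ≤ Om (uno R) := by
    intro x hx
    obtain ⟨lam, hlam⟩ := UGL.ex_lam L (AlgebraicClosure L)
    obtain ⟨-, -, -, -, hKs⟩ := hSTO hPK
    have h1 := (hKs hS).2.2.1 hDu (kmap_mem_Perp (algebraMap L (AlgebraicClosure L)) hx)
    have h2 := UGL.kl_Om h1 lam
    rwa [UGL.kl_kmap, hlam, one_smul] at h2
  refine ⟨⟨hK, fun K _ _ φ => Or.inl (hgeo φ).1⟩, hSL, ?_, hOm, hgeo⟩
  obtain ⟨-, -, -, -, hLs⟩ := hSTO hK
  exact (hLs hSL).2.2.2 hOm

end Pool.Agent.MG.G0


end

section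

/-!
# UZT: the ideal `T dz`
-/

namespace Pool.Agent.MG.G0

namespace UZT

open Polynomial ZL Matrix

section

variable {K : Type} [Field K] {d : ℕ}

/-- The adjugate does not vanish at a simple zero of the determinant. -/
theorem adj_ne (hd : 1 ≤ d) {G : Matrix (Fin d) (Fin d) K[X]} {f u : K[X]} (hu : IsUnit u)
    (hdet : G.det = u * f) (hf : f.Separable) {β : K} (hβ : f.eval β = 0) :
    ∃ j i, (G.adjugate j i).eval β ≠ 0 := by
  by_contra hcon
  simp only [not_exists, not_not] at hcon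
  have h1 : ∀ j i, ∃ q, G.adjugate j i = (X - C β) * q :=
    fun j i => dvd_iff_isRoot.2 (hcon j i)
  choose N hN using h1
  have h2 : G.adjugate = (X - C β) • Matrix.of N := by
    ext1 j i
    exact hN j i
  obtain ⟨h, hh⟩ : ∃ h, f = (X - C β) * h := dvd_iff_isRoot.2 hβ
  have h3 : h.eval β ≠ 0 := by
    have h4 : f.derivative.eval β ≠ 0 := by
      have h5 := hf.eval₂_derivative_ne_zero (RingHom.id K) (x := β)
        (by rw [eval₂_id]; exact hβ)
      rwa [eval₂_id] at h5
    rw [hh, derivative_mul] at h4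
    simpa using h4
  have h5 := congrArg Matrix.det h2
  rw [Matrix.det_adjugate, Matrix.det_smul, Fintype.card_fin, hdet, hh] at h5
  obtain ⟨n, rfl⟩ : ∃ n, d = n + 1 := ⟨d - 1, by omega⟩
  rw [Nat.add_sub_cancel] at h5
  have h6 : (X - C β) ^ n * ((u * h) ^ n) = (X - C β) ^ n * ((X - C β) * (Matrix.of N).det) := by
    calc (X - C β) ^ n * ((u * h) ^ n) = (u * ((X - C β) * h)) ^ n := by
          rw [mul_pow, mul_pow, mul_pow, mul_left_comm]
      _ = (X - C β) ^ (n + 1) * (Matrix.of N).det := h5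
      _ = _ := by ring
  have h7 := mul_left_cancel₀ (pow_ne_zero n (X_sub_C_ne_zero β)) h6
  have h8 := congrArg (eval β) h7
  rw [eval_pow, eval_mul, eval_mul, eval_sub, eval_X, eval_C, sub_self, zero_mul] at h8
  have h9 : u.eval β ≠ 0 := by
    obtain ⟨c, hc, rfl⟩ := Polynomial.isUnit_iff.1 hu
    rw [eval_C]
    exact hc.ne_zero
  exact pow_ne_zero n (mul_ne_zero h9 h3) h8

theorem vecMul_update {G : Matrix (Fin d) (Fin d) K} (i : Fin d) (r w : Fin d → K)
    (hw : w i = 0) : w ᵥ* (G.updateRow i r) = w ᵥ* G := by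
  ext k
  simp only [Matrix.vecMul, dotProduct]
  refine Finset.sum_congr rfl fun l _ => ?_
  by_cases h : l = i
  · subst h
    rw [hw, zero_mul, zero_mul]
  · rw [Matrix.updateRow_ne h]

/-- The left kernel is spanned by a nonzero row of the adjugate. -/
theorem ker_row {G : Matrix (Fin d) (Fin d) K} (hG : G.det = 0) {j i : Fin d}
    (h : G.adjugate j i ≠ 0) (w : Fin d → K) (hw : w ᵥ* G = 0) :
    w = (w i / G.adjugate j i) • G.adjugate j := by
  have h0 : (G.adjugate j) ᵥ* G = 0 := by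
    ext k
    have h1 : (G.adjugate * G) j k = 0 := by
      rw [Matrix.adjugate_mul, hG, zero_smul]
      rfl
    exact h1
  have h1 : (w - (w i / G.adjugate j i) • G.adjugate j) ᵥ*
      (G.updateRow i (Pi.single j 1)) = 0 := by
    rw [vecMul_update i _ _ (by
      rw [Pi.sub_apply, Pi.smul_apply, smul_eq_mul, div_mul_cancel₀ _ h, sub_self]),
      Matrix.sub_vecMul, Matrix.smul_vecMul, hw, h0, smul_zero, sub_zero]
  have h2 : (G.updateRow i (Pi.single j 1)).det ≠ 0 := by
    rw [← Matrix.adjugate_apply]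
    exact h
  exact sub_eq_zero.1 (Matrix.eq_zero_of_vecMul_eq_zero h2 h1)

/-- If `M G` is symmetric at a simple zero, then `adj(G) M` is a multiple of `adj(G)`. -/
theorem adj_char {G M : Matrix (Fin d) (Fin d) K} (hG : G.det = 0) {j i : Fin d}
    (h : G.adjugate j i ≠ 0) (hM : M * G = G * Mᵀ) :
    ∃ χ : K, G.adjugate * M = χ • G.adjugate := by
  set N := G.adjugate with hN
  have h1 : N * M * G = 0 := by
    rw [Matrix.mul_assoc, hM, ← Matrix.mul_assoc, hN, Matrix.adjugate_mul, hG, zero_smul,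
      Matrix.zero_mul]
  have h2 : N * G = 0 := by
    rw [hN, Matrix.adjugate_mul, hG, zero_smul]
  have h3 : ∀ k, N k = (N k i / N j i) • N j := fun k =>
    ker_row hG h (N k) (by
      ext l
      exact congrFun (congrFun h2 k) l)
  have h4 : (N * M) j = ((N * M) j i / N j i) • N j :=
    ker_row hG h ((N * M) j) (by
      ext l
      exact congrFun (congrFun h1 j) l)
  refine ⟨(N * M) j i / N j i, ?_⟩
  ext k l
  have h5 : (N * M) k l = (N k i / N j i) * (N * M) j l := by
    rw [Matrix.mul_apply, Matrix.mul_apply, Finset.mul_sum]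
    refine Finset.sum_congr rfl fun m _ => ?_
    have h6 := congrFun (h3 k) m
    rw [Pi.smul_apply, smul_eq_mul] at h6
    rw [← mul_assoc, ← h6]
  have h6 := congrFun h4 l
  rw [Pi.smul_apply, smul_eq_mul] at h6
  have h7 := congrFun (h3 k) l
  rw [Pi.smul_apply, smul_eq_mul] at h7
  rw [h5, h6, Matrix.smul_apply, smul_eq_mul, h7]
  ring

theorem dvd_of_roots [IsAlgClosed K] {f a : K[X]} (hf : f.Separable)
    (h : ∀ β, f.eval β = 0 → a.eval β = 0) : f ∣ a := by
  classical
  by_cases ha : a = 0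
  · rw [ha]
    exact dvd_zero f
  have hf0 : f ≠ 0 := hf.ne_zero
  refine ((IsAlgClosed.splits f).dvd_iff_roots_le_roots hf0 ha).2 ?_
  refine (Multiset.le_iff_subset (nodup_roots hf)).2 fun β hβ => ?_
  rw [mem_roots hf0] at hβ
  rw [mem_roots ha]
  exact h β hβ

end

section

variable {K : Type} [Field K] {g d : ℕ} {R : Subalgebra K (LaurentSeries K)}

theorem zpol_mem (hz : zz K d ∈ R) (p : K[X]) : zpol K d p ∈ R :=
  (Algebra.adjoin_le (S := R) (Set.singleton_subset_iff.2 hz))
    (Polynomial.aeval_mem_adjoin_singleton K (zz K d))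

theorem ld_perp (hOP : Om (uno R) ≤ Perp (uno R)) {h : LaurentSeries K} (hh : h ∈ R) :
    ∀ p ∈ R, (ld h * p).coeff (-1) = 0 := by
  have h1 : dd (fun _ : Unit => h) ∈ Perp (uno R) := by
    refine hOP (Submodule.subset_span ?_)
    exact ⟨1, one_mem _, fun _ => h, hh, (one_mul _).symm⟩
  intro p hp
  have h2 := mem_Perp.1 h1 (fun _ => p) hp
  rw [res_unit] at h2
  exact h2

/-- The expansion of the elements of `R^⊥`. -/
theorem perp_exp {e es : Fin d → LaurentSeries K} (hd : 1 ≤ d) (hdK : (d : K) ≠ 0) (hR : Kr g R)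
    (hz : zz K d ∈ R) (he : ZBas d R e)
    (hes : ∀ i j, pr0 K d (e i * es j) = if i = j then 1 else 0) {x : LaurentSeries K}
    (hx : ∀ p ∈ R, (x * p).coeff (-1) = 0) :
    ∃ q : Fin d → K[X], x = (∑ j, zpol K d (q j) * es j) * ld (zz K d) := by
  have : NeZero d := ⟨by omega⟩
  have hC := cmat_isUnit hR (spn_of_zbas he)
  have hu : IsUnit (d : K) := IsUnit.mk0 _ hdK
  obtain ⟨U, hU⟩ := KIL.isUnit_ld_zz (A := K) hu
  set x' : LaurentSeries K := x * (↑U⁻¹ : LaurentSeries K) with hx'
  have hxx : x' * ld (zz K d) = x := by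
    rw [hx', ← hU, mul_assoc, Units.inv_mul, mul_one]
  have h1 : ∀ j, ∃ q : K[X], pr0 K d (e j * x') = zpol K d q := by
    intro j
    refine KIL.exists_poly hd _ fun k => ?_
    have h2 := hx (zz K d ^ k * e j) (mul_mem (pow_mem hz k) (he.mem j))
    have h3 : x * (zz K d ^ k * e j) = (zz K d ^ k * (e j * x')) * ld (zz K d) := by
      conv_lhs => rw [← hxx]
      ring
    rw [h3, KIL.coeff_mul_ld_zz, KIL.coeff_zzpow_mul] at h2
    exact (mul_eq_zero.1 h2).resolve_left (neg_ne_zero.2 hdK)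
  choose q hq using h1
  refine ⟨q, ?_⟩
  have h5 : ∀ i, pr0 K d (e i * (x' - ∑ j, zpol K d (q j) * es j)) = 0 := by
    intro i
    have h6 : e i * (∑ j, zpol K d (q j) * es j) = ∑ j, zpol K d (q j) * (e i * es j) := by
      rw [Finset.mul_sum]
      exact Finset.sum_congr rfl fun j _ => mul_left_comm _ _ _
    have h7 : ∀ j, pr0 K d (zpol K d (q j) * (e i * es j)) =
        if i = j then zpol K d (q j) else 0 := by
      intro j
      rw [pr0_zpol_mul, hes, mul_ite, mul_one, mul_zero]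
    rw [mul_sub, map_sub, hq, h6, map_sum, Finset.sum_congr rfl fun j _ => h7 j,
      Finset.sum_ite_eq, if_pos (Finset.mem_univ _), sub_self]
  have h11 : x' - ∑ j, zpol K d (q j) * es j = 0 := by
    refine KIL.nondeg hC fun i => ?_
    rw [pr_zero_eq]
    exact h5 _
  rw [← sub_eq_zero.1 h11, hxx]

/-- The dual basis times `∂z` is in `R^⊥`. -/
theorem es_perp {e es : Fin d → LaurentSeries K} (hd : 1 ≤ d) (he : ZBas d R e)
    (hes : ∀ i j, pr0 K d (e i * es j) = if i = j then 1 else 0) (j : Fin d) :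
    ∀ p ∈ R, (es j * ld (zz K d) * p).coeff (-1) = 0 := by
  intro p hp
  obtain ⟨c, hc, -⟩ := he.uni p hp
  have h1 : es j * ld (zz K d) * p = (es j * p) * ld (zz K d) := by ring
  have h2 : pr0 K d (es j * p) = zpol K d (c j) := by
    have h3 : es j * p = ∑ i, zpol K d (c i) * (e i * es j) := by
      conv_lhs => rw [hc]
      rw [Finset.mul_sum]
      refine Finset.sum_congr rfl fun i _ => ?_
      ring
    have h4 : ∀ i, pr0 K d (zpol K d (c i) * (e i * es j)) =
        if i = j then zpol K d (c i) else 0 := by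
      intro i
      rw [pr0_zpol_mul, hes, mul_ite, mul_one, mul_zero]
    rw [h3, map_sum, Finset.sum_congr rfl fun i _ => h4 i, Finset.sum_ite_eq',
      if_pos (Finset.mem_univ _)]
  have h3 : (es j * p).coeff (d : ℤ) = (pr0 K d (es j * p)).coeff (d : ℤ) := by
    rw [pr0_coeff, if_pos (dvd_refl _)]
  have h4 : (zpol K d (c j)).coeff (d : ℤ) = 0 := ev_coeff_pos d (c j) _ (by omega)
  rw [h1, KIL.coeff_mul_ld_zz, h3, h2, h4, mul_zero]

/-- The matrix of the multiplication by an element. -/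
theorem mulMat {e : Fin d → LaurentSeries K} (he : ZBas d R e) {x : LaurentSeries K}
    (hx : x ∈ R) :
    ∃ M : Matrix (Fin d) (Fin d) K[X], ∀ i, x * e i = ∑ j, zpol K d (M i j) * e j := by
  choose c hc hu using fun i => he.uni (x * e i) (mul_mem hx (he.mem i))
  exact ⟨Matrix.of c, fun i => hc i⟩

theorem mat_sym (hd : 1 ≤ d) {e : Fin d → LaurentSeries K} {G M : Matrix (Fin d) (Fin d) K[X]}
    (hG : ZGram d e G) {x : LaurentSeries K}
    (hM : ∀ i, x * e i = ∑ j, zpol K d (M i j) * e j) : M * G = G * Mᵀ := by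
  have hinj := ev_injective (A := K) d (by omega)
  have hsym : ∀ i j, G i j = G j i := by
    intro i j
    apply hinj
    show zpol K d (G i j) = zpol K d (G j i)
    rw [hG, hG, mul_comm]
  have h1 : ∀ i k, zpol K d ((M * G) i k) = pr0 K d (x * e i * e k) := by
    intro i k
    rw [Matrix.mul_apply, map_sum, hM, Finset.sum_mul, map_sum]
    refine Finset.sum_congr rfl fun j _ => ?_
    rw [map_mul, hG, mul_assoc, pr0_zpol_mul]
  have h2 : ∀ i k, (G * Mᵀ) i k = (M * G) k i := by
    intro i k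
    rw [Matrix.mul_apply, Matrix.mul_apply]
    refine Finset.sum_congr rfl fun j _ => ?_
    rw [Matrix.transpose_apply, hsym i j, mul_comm]
  ext1 i k
  apply hinj
  show zpol K d ((M * G) i k) = zpol K d ((G * Mᵀ) i k)
  rw [h1, h2, h1]
  congr 1
  ring

/-- `x` is congruent to a polynomial in `z` modulo the different. -/
theorem exists_poly_diff [IsAlgClosed K] {e es : Fin d → LaurentSeries K}
    {G : Matrix (Fin d) (Fin d) K[X]} {f u : K[X]} (hd : 1 ≤ d) (hz : zz K d ∈ R)
    (he : ZBas d R e) (hG : ZGram d e G) (hu : IsUnit u) (hdet : G.det = u * f)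
    (hf : f.Separable) (hes : ∀ j, zpol K d G.det * es j = ∑ i, zpol K d (G.adjugate j i) * e i)
    {x : LaurentSeries K} (hx : x ∈ R) :
    ∃ a : K[X], ∀ j, es j * (x - zpol K d a) ∈ R := by
  classical
  obtain ⟨M, hM⟩ := mulMat he hx
  have hMG := mat_sym hd hG hM
  have hdet0 : G.det ≠ 0 := by
    rw [hdet]
    exact mul_ne_zero hu.ne_zero hf.ne_zero
  have hinj := ev_injective (A := K) d (by omega)
  have h0 : ∀ β : K, ∃ χ : K, f.eval β = 0 →
      ∀ j k, ((G.adjugate * M) j k).eval β = χ * (G.adjugate j k).eval β := by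
    intro β
    by_cases hβ : f.eval β = 0
    · obtain ⟨j, i, hji⟩ := adj_ne hd hu hdet hf hβ
      have h1 : (G.map (evalRingHom β)).det = 0 := by
        have h2 := RingHom.map_det (evalRingHom β) G
        rw [RingHom.mapMatrix_apply] at h2
        rw [← h2, hdet, map_mul, coe_evalRingHom, hβ, mul_zero]
      have h2 : (G.map (evalRingHom β)).adjugate = G.adjugate.map (evalRingHom β) := by
        have h3 := RingHom.map_adjugate (evalRingHom β) G
        rw [RingHom.mapMatrix_apply, RingHom.mapMatrix_apply] at h3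
        exact h3.symm
      have h3 : M.map (evalRingHom β) * G.map (evalRingHom β) =
          G.map (evalRingHom β) * (M.map (evalRingHom β))ᵀ := by
        have h4 := congrArg (fun F => Matrix.map F (evalRingHom β)) hMG
        simp only [Matrix.map_mul] at h4
        rw [h4, Matrix.transpose_map]
      obtain ⟨χ, hχ⟩ := adj_char (j := j) (i := i) h1 (by rw [h2]; exact hji) h3
      refine ⟨χ, fun _ j k => ?_⟩
      have h5 := congrFun (congrFun hχ j) k
      rw [h2, ← Matrix.map_mul] at h5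
      exact h5
    · exact ⟨0, fun h => absurd h hβ⟩
  choose χ hχ using h0
  let s : Finset K := f.roots.toFinset
  let a : K[X] := Lagrange.interpolate s id χ
  have ha : ∀ β, f.eval β = 0 → a.eval β = χ β := by
    intro β hβ
    have h1 : β ∈ s := by
      rw [Multiset.mem_toFinset, mem_roots hf.ne_zero]
      exact hβ
    exact Lagrange.eval_interpolate_at_node χ (fun _ _ _ _ h => h) h1
  have hN : ∀ j k, G.det ∣ (G.adjugate * (M - a • (1 : Matrix (Fin d) (Fin d) K[X]))) j k := by
    intro j k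
    have h1 : f ∣ (G.adjugate * (M - a • (1 : Matrix (Fin d) (Fin d) K[X]))) j k := by
      refine dvd_of_roots hf fun β hβ => ?_
      rw [Matrix.mul_sub, Matrix.mul_smul, Matrix.mul_one, Matrix.sub_apply, Matrix.smul_apply,
        smul_eq_mul, eval_sub, eval_mul, hχ β hβ j k, ha β hβ, sub_self]
    rw [hdet]
    exact (hu.mul_left_dvd).2 h1
  choose Q hQ using hN
  refine ⟨a, fun j => ?_⟩
  have h1 : ∀ i, e i * (x - zpol K d a) =
      ∑ k, zpol K d ((M - a • (1 : Matrix (Fin d) (Fin d) K[X])) i k) * e k := by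
    intro i
    have h2 : ∀ k, zpol K d ((M - a • (1 : Matrix (Fin d) (Fin d) K[X])) i k) * e k =
        zpol K d (M i k) * e k - (if i = k then zpol K d a * e k else 0) := by
      intro k
      rw [Matrix.sub_apply, Matrix.smul_apply, Matrix.one_apply, smul_eq_mul, map_sub, sub_mul]
      split_ifs
      · rw [mul_one]
      · rw [mul_zero, map_zero, zero_mul]
    rw [Finset.sum_congr rfl fun k _ => h2 k, Finset.sum_sub_distrib, ← hM i, Finset.sum_ite_eq,
      if_pos (Finset.mem_univ _)]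
    ring
  have h2 : zpol K d G.det * (es j * (x - zpol K d a)) =
      zpol K d G.det * ∑ k, zpol K d (Q j k) * e k := by
    rw [← mul_assoc, hes, Finset.sum_mul, Finset.mul_sum]
    have h3 : ∀ i, zpol K d (G.adjugate j i) * e i * (x - zpol K d a) =
        ∑ k, zpol K d (G.adjugate j i * (M - a • (1 : Matrix (Fin d) (Fin d) K[X])) i k) * e k := by
      intro i
      rw [mul_assoc, h1, Finset.mul_sum]
      refine Finset.sum_congr rfl fun k _ => ?_
      rw [map_mul, mul_assoc]
    rw [Finset.sum_congr rfl fun i _ => h3 i, Finset.sum_comm]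
    refine Finset.sum_congr rfl fun k _ => ?_
    rw [← Finset.sum_mul, ← map_sum, ← Matrix.mul_apply, hQ, map_mul, mul_assoc]
  have h3 : zpol K d G.det ≠ 0 := fun h => hdet0 (hinj (by
    show zpol K d G.det = zpol K d 0
    rw [h, map_zero]))
  rw [mul_left_cancel₀ h3 h2]
  exact sum_mem fun k _ => mul_mem (zpol_mem hz _) (he.mem k)

end

end UZT

open Polynomial ZL _root_.Pool.Agent.MG.G0.UZT in
/-- UZT -/
theorem t_UZT (hSTO : Stmt_STO) (hSDF : Stmt_SDF) (hPPR : Stmt_PPR) (hKIL : Stmt_KIL)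
    (hKIS : Stmt_KIS) : Stmt_UZT := by
  classical
  intro K _ _ g d R f hd hfac hR hz hD hf
  have hdK : (d : K) ≠ 0 := by
    intro h
    apply hfac
    obtain ⟨n, rfl⟩ : ∃ n, d = n + 1 := ⟨d - 1, by omega⟩
    rw [Nat.factorial_succ, Nat.cast_mul, h, zero_mul]
  have hu : IsUnit (d : K) := IsUnit.mk0 _ hdK
  have hKil := hKIL.1 hd hu hR hz hD
  obtain ⟨hFS, hSm⟩ := hKIS hd hfac hR hz hKil hf
  have hDual : Dual (uno R) := hSDF hR hFS hSm
  obtain ⟨hOP, -⟩ := hSTO (P := uno R) hR
  have hld : ∀ h ∈ R, ∀ p ∈ R, (ld h * p).coeff (-1) = 0 := fun h hh => ld_perp hOP hh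
  obtain ⟨e, G, he, hG, u, hu', hdet⟩ := hD
  obtain ⟨hdet0, es, hes, -, -, hes4⟩ := (t_ZDU (by omega) hdK R hR hz).2 e G he hG
  obtain ⟨U, hU⟩ := KIL.isUnit_ld_zz (A := K) hu
  refine ⟨⟨zpol K d f * (↑U⁻¹ : LaurentSeries K), fun h hh => ?_, ?_⟩, fun x hx => ?_,
    fun a ha => ?_⟩
  · obtain ⟨y, hy, hyy⟩ := hKil (ld h) (hld h hh)
    have h1 : zpol K d f * (↑U⁻¹ : LaurentSeries K) * ld h = y := by
      rw [mul_right_comm, hyy, ← hU, Units.mul_inv_cancel_right]
    rw [h1]
    exact hy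
  · rw [← hU, Units.inv_mul_cancel_right]
  · obtain ⟨a, ha⟩ := exists_poly_diff hd hz he hG hu' hdet hf hes4 hx
    refine ⟨a, (x - zpol K d a) * (↑U⁻¹ : LaurentSeries K), fun h hh => ?_, ?_⟩
    · obtain ⟨q, hq⟩ := perp_exp hd hdK hR hz he hes (hld h hh)
      have h1 : (x - zpol K d a) * (↑U⁻¹ : LaurentSeries K) * ld h =
          ∑ j, zpol K d (q j) * (es j * (x - zpol K d a)) := by
        have h2 : (x - zpol K d a) * (↑U⁻¹ : LaurentSeries K) * ld h =
            (∑ j, zpol K d (q j) * es j) * (x - zpol K d a) *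
              ((U : LaurentSeries K) * (↑U⁻¹ : LaurentSeries K)) := by
          rw [hq, ← hU]
          ring
        rw [h2, Units.mul_inv, mul_one, Finset.sum_mul]
        exact Finset.sum_congr rfl fun j _ => mul_assoc _ _ _
      rw [h1]
      exact sum_mem fun j _ => mul_mem (zpol_mem hz _) (ha j)
    · rw [← hU, Units.inv_mul_cancel_right]
      ring
  · obtain ⟨θ, hθ, hθa⟩ := ha
    have h1 : ∀ j, zpol K d a * es j ∈ R := by
      intro j
      have h2 := hDual (fun _ => θ) (mem_TT_uno.2 hθ) (fun _ => es j * ld (zz K d))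
        (KIL.perp_unit.2 (es_perp hd he hes j))
      have h3 : θ * (es j * ld (zz K d)) = zpol K d a * es j := by
        rw [hθa]
        ring
      rw [← h3]
      exact h2
    have h2 : ∀ j i, f ∣ a * G.adjugate j i := by
      intro j i
      obtain ⟨c, hc, -⟩ := he.uni _ (h1 j)
      have h3 : zpol K d G.det * (zpol K d a * es j) ∈ R := mul_mem (zpol_mem hz _) (h1 j)
      obtain ⟨c', -, huniq⟩ := he.uni _ h3
      have h4 : (fun i => a * G.adjugate j i) = c' := by
        refine huniq _ ?_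
        show zpol K d G.det * (zpol K d a * es j) = ∑ i, zpol K d (a * G.adjugate j i) * e i
        rw [mul_left_comm, hes4, Finset.mul_sum]
        refine Finset.sum_congr rfl fun i _ => ?_
        rw [map_mul, mul_assoc]
      have h5 : (fun i => G.det * c i) = c' := by
        refine huniq _ ?_
        show zpol K d G.det * (zpol K d a * es j) = ∑ i, zpol K d (G.det * c i) * e i
        rw [hc, Finset.mul_sum]
        refine Finset.sum_congr rfl fun i _ => ?_
        rw [map_mul, mul_assoc]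
      have h6 : a * G.adjugate j i = G.det * c i := congrFun (h4.trans h5.symm) i
      refine ⟨u * c i, ?_⟩
      rw [h6, hdet]
      ring
    refine dvd_of_roots hf fun β hβ => ?_
    obtain ⟨j, i, hji⟩ := adj_ne hd hu' hdet hf hβ
    obtain ⟨q, hq⟩ := h2 j i
    have h3 := congrArg (eval β) hq
    rw [eval_mul, eval_mul, hβ, zero_mul] at h3
    exact (mul_eq_zero.1 h3).resolve_right hji

end Pool.Agent.MG.G0


end
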