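import Mathlib.RingTheory.Smooth.Locus
import Pool.Agent.KDM.C02
import Pool.Agent.KDM.C08
import Pool.Agent.KDM.C11
import Pool.Agent.KDM.C24
import Pool.Agent.KDM.C30
import Pool.Agent.KDM.C31
import Pool.Agent.KDM.C39
import Pool.Agent.KDM.C54

/-! Parts: MG.WL.CL.CNT, MG.WL.QFV, MG.WL.RGD, MG.G0.PPR, MG.KX.XAU, MG.G0.TG.TNS, MG.G0.URG -/

section

/-!
# `M̄_{1,1}`, block `CL`: `CNT`, the count of the components and the double points
-/

open CategoryTheory AlgebraicGeometry IsLocalRing TopologicalSpace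
open Pool.Agent.MG.Two Pool.Agent.MG.W Pool.Agent.MG.W.W0 Pool.Agent.MG.One

namespace Pool.Agent.MG.WL.CL

namespace CNT_

section sec

variable {k : Type} [Field k] {X : Scheme.{0}} (π : X ⟶ Sp k)

/-- Sections as an algebra over the ground field. -/
def Sec (_π : X ⟶ Sp k) (U : X.Opens) : Type := Γ(X, U)

noncomputable instance (U : X.Opens) : CommRing (Sec π U) := inferInstanceAs (CommRing Γ(X, U))

noncomputable instance (U : X.Opens) : Algebra k (Sec π U) := (coef π U).toAlgebra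

theorem algebraMap_eq (U : X.Opens) (c : k) : algebraMap k (Sec π U) c = coef π U c := rfl

theorem map_coef {U V : X.Opens} (h : U ≤ V) (c : k) :
    X.presheaf.map (homOfLE h).op (coef π V c) = coef π U c := by
  have h1 : (Scheme.ΓSpecIso (CommRingCat.of k)).inv ≫ π.appTop ≫
      X.presheaf.map (homOfLE (le_top : V ≤ ⊤)).op ≫ X.presheaf.map (homOfLE h).op =
      (Scheme.ΓSpecIso (CommRingCat.of k)).inv ≫ π.appTop ≫
      X.presheaf.map (homOfLE (le_top : U ≤ ⊤)).op := by
    rw [← X.presheaf.map_comp]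
    rfl
  exact ConcreteCategory.congr_hom h1 c

theorem app_coef {E : Scheme.{0}} (ι : E ⟶ X) (U : X.Opens) (c : k) :
    (ι.app U).hom (coef π U c) = coef (ι ≫ π) (ι ⁻¹ᵁ U) c := by
  have h := coef_comp π ι U (ι ⁻¹ᵁ U) le_rfl c
  rw [Scheme.Hom.appLE_eq_app] at h
  exact h

/-- Restriction. -/
noncomputable def res {U V : X.Opens} (h : U ≤ V) : Sec π V →ₐ[k] Sec π U where
  toRingHom := (X.presheaf.map (homOfLE h).op).hom
  commutes' := fun c => map_coef π h c

/-- Pull back. -/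
noncomputable def pb {E : Scheme.{0}} (ι : E ⟶ X) (U : X.Opens) :
    Sec π U →ₐ[k] Sec (ι ≫ π) (ι ⁻¹ᵁ U) where
  toRingHom := (ι.app U).hom
  commutes' := fun c => app_coef π ι U c

theorem pb_res {E : Scheme.{0}} (ι : E ⟶ X) {U V : X.Opens} (h : U ≤ V)
    (h' : ι ⁻¹ᵁ U ≤ ι ⁻¹ᵁ V) (s : Sec π V) :
    res (ι ≫ π) h' (pb π ι V s) = pb π ι U (res π h s) := by
  exact (ConcreteCategory.congr_hom (ι.naturality (homOfLE h).op) s).symm

/-- The value at a closed point. -/
structure Val (x : X) where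
  e : X.presheaf.stalk x →+* k
  ker : RingHom.ker e = maximalIdeal _
  coe : ∀ (U : X.Opens) (hx : x ∈ U) (c : k), e (X.presheaf.germ U x hx (coef π U c)) = c

variable {π}

/-- The values of sections. -/
noncomputable def Val.val {x : X} (v : Val π x) (U : X.Opens) (hx : x ∈ U) : Sec π U →ₐ[k] k where
  toRingHom := v.e.comp (X.presheaf.germ U x hx).hom
  commutes' := fun c => v.coe U hx c

theorem Val.eq_zero_iff {x : X} (v : Val π x) (U : X.Opens) (hx : x ∈ U) (s : Γ(X, U)) :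
    v.val U hx s = 0 ↔ x ∉ X.basicOpen s := by
  rw [Scheme.mem_basicOpen X s x hx]
  have h1 : v.val U hx s = 0 ↔ X.presheaf.germ U x hx s ∈ RingHom.ker v.e := Iff.rfl
  rw [h1, v.ker, mem_maximalIdeal, mem_nonunits_iff]

theorem Val.val_res {x : X} (v : Val π x) {U V : X.Opens} (h : U ≤ V) (hx : x ∈ U)
    (s : Sec π V) : v.val U hx (res π h s) = v.val V (h hx) s :=
  congrArg v.e (X.presheaf.germ_res_apply (homOfLE h) x hx s)

theorem val_pb {E : Scheme.{0}} (ι : E ⟶ X) {x : X} {y : E} (h : ι y = x) (v : Val π x)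
    (w : Val (ι ≫ π) y) (U : X.Opens) (hx : x ∈ U) (hy : y ∈ ι ⁻¹ᵁ U) (s : Sec π U) :
    w.val _ hy (pb π ι U s) = v.val U hx s := by
  have h1 : v.val U hx (s - algebraMap k (Sec π U) (v.val U hx s)) = 0 := by
    rw [map_sub, AlgHom.commutes]
    exact sub_self _
  have h2 : w.val _ hy (pb π ι U (s - algebraMap k (Sec π U) (v.val U hx s))) = 0 := by
    refine (w.eq_zero_iff _ hy _).2 ?_
    have h3 := (v.eq_zero_iff _ hx _).1 h1
    intro h4
    apply h3
    have h5 := Scheme.preimage_basicOpen ι (U := U)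
      (s - algebraMap k (Sec π U) (v.val U hx s) : Sec π U)
    have h6 : y ∈ ι ⁻¹ᵁ X.basicOpen (s - algebraMap k (Sec π U) (v.val U hx s) : Sec π U) := by
      rw [h5]
      exact h4
    have h7 : ι y ∈ X.basicOpen (s - algebraMap k (Sec π U) (v.val U hx s) : Sec π U) := h6
    rw [h] at h7
    exact h7
  rw [map_sub, map_sub, AlgHom.commutes, AlgHom.commutes] at h2
  exact sub_eq_zero.1 h2

end sec

/-- The components and the double points. -/
structure Dt {k : Type} [Field k] {X : Scheme.{0}} (π : X ⟶ Sp k) where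
  E : {Z : Set X // Z ∈ irreducibleComponents X} → Scheme.{0}
  ι : ∀ i, E i ⟶ X
  comp : ∀ i, IsComp (ι i)
  rng : ∀ i, Set.range (ι i) = i.1
  i₁ : dbl X → {Z : Set X // Z ∈ irreducibleComponents X}
  i₂ : dbl X → {Z : Set X // Z ∈ irreducibleComponents X}
  ne : ∀ d, i₁ d ≠ i₂ d
  y₁ : ∀ d, E (i₁ d)
  y₂ : ∀ d, E (i₂ d)
  h₁ : ∀ d, ι (i₁ d) (y₁ d) = (d : X)
  h₂ : ∀ d, ι (i₂ d) (y₂ d) = (d : X)
  v : ∀ d : dbl X, Val π (d : X)
  w₁ : ∀ d, Val (ι (i₁ d) ≫ π) (y₁ d)
  w₂ : ∀ d, Val (ι (i₂ d) ≫ π) (y₂ d)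

theorem exists_Dt (hC : Stmt_CE) (hD : Stmt_DFIN) (hV : Stmt_VAL) {k : Type} [Field k]
    [IsAlgClosed k] {X : Scheme.{0}} (π : X ⟶ Sp k) [IsProper π] [NoetherianSpace X]
    (hN : Nodal π) (hL : NodeLocs X) : Nonempty (Dt π) := by
  have h1 := fun i : {Z : Set X // Z ∈ irreducibleComponents X} => hC π hN hL i.1 i.2
  choose E ι hcomp hrng using h1
  obtain ⟨-, hcl, -, -⟩ := hD hL
  have h2 : ∀ d : dbl X, ∃ i j : {Z : Set X // Z ∈ irreducibleComponents X}, i ≠ j ∧
      (∃ y : E i, ι i y = (d : X)) ∧ ∃ y : E j, ι j y = (d : X) := by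
    rintro ⟨d, Z, hZ, Z', hZ', hne, hd, hd'⟩
    refine ⟨⟨Z, hZ⟩, ⟨Z', hZ'⟩, fun h => hne (congrArg Subtype.val h), ?_, ?_⟩
    · exact (Set.ext_iff.1 (hrng ⟨Z, hZ⟩) d).2 hd
    · exact (Set.ext_iff.1 (hrng ⟨Z', hZ'⟩) d).2 hd'
  choose i j hij h3 h4 using h2
  choose y₁ hy₁ using h3
  choose y₂ hy₂ using h4
  have h5 : ∀ d : dbl X, Nonempty (Val π (d : X)) := by
    intro d
    obtain ⟨e, he1, he2⟩ := hV π (d : X) (hcl _ d.2)
    exact ⟨⟨e, he1, he2⟩⟩
  have h6 : ∀ (a : {Z : Set X // Z ∈ irreducibleComponents X}) (y : E a) (d : dbl X),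
      ι a y = (d : X) → Nonempty (Val (ι a ≫ π) y) := by
    intro a y d hyd
    have := (hcomp a).cl
    have hcl' : IsClosed ({y} : Set (E a)) := by
      have h7 : ({y} : Set (E a)) = ι a ⁻¹' {(d : X)} := by
        ext z
        constructor
        · rintro rfl
          exact hyd
        · intro hz
          exact (ι a).isClosedEmbedding.injective (Eq.trans hz hyd.symm)
      rw [h7]
      exact (hcl _ d.2).preimage (ι a).continuous
    obtain ⟨e, he1, he2⟩ := hV (ι a ≫ π) y hcl'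
    exact ⟨⟨e, he1, he2⟩⟩
  exact ⟨{
    E := E
    ι := ι
    comp := hcomp
    rng := hrng
    i₁ := i
    i₂ := j
    ne := hij
    y₁ := y₁
    y₂ := y₂
    h₁ := hy₁
    h₂ := hy₂
    v := fun d => (h5 d).some
    w₁ := fun d => (h6 _ _ d (hy₁ d)).some
    w₂ := fun d => (h6 _ _ d (hy₂ d)).some }⟩

namespace Dt

variable {k : Type} [Field k] {X : Scheme.{0}} {π : X ⟶ Sp k} (T : Dt π)

/-- The functions on the components over `W`. -/
abbrev M (W : X.Opens) (i : {Z : Set X // Z ∈ irreducibleComponents X}) : Type :=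
  Sec (T.ι i ≫ π) (T.ι i ⁻¹ᵁ W)

theorem mem₁ {W : X.Opens} {d : dbl X} (h : (d : X) ∈ W) : T.y₁ d ∈ T.ι (T.i₁ d) ⁻¹ᵁ W := by
  change T.ι (T.i₁ d) (T.y₁ d) ∈ W
  rw [T.h₁]
  exact h

theorem mem₂ {W : X.Opens} {d : dbl X} (h : (d : X) ∈ W) : T.y₂ d ∈ T.ι (T.i₂ d) ⁻¹ᵁ W := by
  change T.ι (T.i₂ d) (T.y₂ d) ∈ W
  rw [T.h₂]
  exact h

/-- The difference of the values at a double point. -/
noncomputable def δ' (W : X.Opens) (d : dbl X) (h : (d : X) ∈ W) : (∀ i, T.M W i) →ₗ[k] k :=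
  ((T.w₁ d).val _ (T.mem₁ h)).toLinearMap ∘ₗ LinearMap.proj (T.i₁ d) -
    ((T.w₂ d).val _ (T.mem₂ h)).toLinearMap ∘ₗ LinearMap.proj (T.i₂ d)

open Classical in
/-- The difference of the values at a double point, zero if the point is not in `W`. -/
noncomputable def δ (W : X.Opens) (d : dbl X) : (∀ i, T.M W i) →ₗ[k] k :=
  if h : (d : X) ∈ W then T.δ' W d h else 0

theorem δ_apply {W : X.Opens} {d : dbl X} (h : (d : X) ∈ W) (m : ∀ i, T.M W i) :
    T.δ W d m = (T.w₁ d).val _ (T.mem₁ h) (m (T.i₁ d)) - (T.w₂ d).val _ (T.mem₂ h) (m (T.i₂ d)) := by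
  rw [δ, dif_pos h]
  rfl

theorem val₁ {W : X.Opens} {d : dbl X} (h : (d : X) ∈ W) (a : Sec π W) :
    (T.w₁ d).val _ (T.mem₁ h) (pb π (T.ι (T.i₁ d)) W a) = (T.v d).val W h a :=
  val_pb _ (T.h₁ d) _ _ _ _ _ _

theorem val₂ {W : X.Opens} {d : dbl X} (h : (d : X) ∈ W) (a : Sec π W) :
    (T.w₂ d).val _ (T.mem₂ h) (pb π (T.ι (T.i₂ d)) W a) = (T.v d).val W h a :=
  val_pb _ (T.h₂ d) _ _ _ _ _ _

theorem δ_pb {W : X.Opens} {d : dbl X} (h : (d : X) ∈ W) (a : Sec π W) :
    T.δ W d (fun i => pb π (T.ι i) W a) = 0 := by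
  rw [T.δ_apply h, T.val₁ h, T.val₂ h, sub_self]

theorem δ_res {W W' : X.Opens} (hW : W ≤ W') {d : dbl X} (h : (d : X) ∈ W)
    (m : ∀ i, T.M W' i) (hi : ∀ i, T.ι i ⁻¹ᵁ W ≤ T.ι i ⁻¹ᵁ W') :
    T.δ W d (fun i => res (T.ι i ≫ π) (hi i) (m i)) = T.δ W' d m := by
  rw [T.δ_apply h, T.δ_apply (hW h), Val.val_res, Val.val_res]

/-- Surjectivity. -/
theorem surj {W : X.Opens} (hW : IsAffineOpen W) [Finite (dbl X)] (c : dbl X → k) :
    ∃ m, ∀ d : dbl X, (d : X) ∈ W → T.δ W d m = c d := by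
  classical
  let J : {d : dbl X // (d : X) ∈ W} → Ideal Γ(X, W) := fun d =>
    (hW.primeIdealOf ⟨(d.1 : X), d.2⟩).asIdeal
  have hJ : ∀ (d : {d : dbl X // (d : X) ∈ W}) (s : Γ(X, W)),
      s ∈ J d ↔ (T.v d.1).val W d.2 s = 0 := by
    intro d s
    rw [Val.eq_zero_iff, ← mem_primeIdealOf_iff hW]
  have hmax : ∀ d, (J d).IsMaximal := by
    intro d
    have h1 : J d = RingHom.ker ((T.v d.1).val W d.2).toRingHom := by
      ext s
      exact hJ d s
    rw [h1]
    refine RingHom.ker_isMaximal_of_surjective _ fun c => ⟨coef π W c, ?_⟩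
    exact ((T.v d.1).val W d.2).commutes c
  have hco : Pairwise (Function.onFun IsCoprime J) := by
    intro d d' hne
    have h1 : J d ≠ J d' := by
      intro h
      apply hne
      have h2 := primeIdealOf_injective hW (PrimeSpectrum.ext h)
      exact Subtype.ext (Subtype.ext (congrArg (fun z : W => (z : X)) h2))
    have h3 := hmax d
    have h4 := hmax d'
    exact Ideal.isCoprime_of_isMaximal h1
  have key : ∀ b : dbl X → k, ∃ a : Sec π W, ∀ (d : dbl X) (h : (d : X) ∈ W),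
      (T.v d).val W h a = b d := by
    intro b
    obtain ⟨r, hr⟩ := Ideal.exists_forall_sub_mem_ideal hco (fun d => coef π W (b d.1))
    refine ⟨r, fun d h => ?_⟩
    have h1 := (hJ ⟨d, h⟩ _).1 (hr ⟨d, h⟩)
    have h2 : (T.v d).val W h ((show Sec π W from r) - algebraMap k (Sec π W) (b d)) = 0 := h1
    rw [map_sub, AlgHom.commutes] at h2
    exact sub_eq_zero.1 h2
  choose a ha using fun i : {Z : Set X // Z ∈ irreducibleComponents X} =>
    key fun d => if T.i₁ d = i then c d else 0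
  refine ⟨fun i => pb π (T.ι i) W (a i), fun d h => ?_⟩
  rw [T.δ_apply h, T.val₁ h, T.val₂ h, ha, ha, if_pos rfl, if_neg (T.ne d), sub_zero]

theorem ran_inj {i j : {Z : Set X // Z ∈ irreducibleComponents X}}
    (h : Set.range (T.ι i) = Set.range (T.ι j)) : i = j := by
  apply Subtype.ext
  rw [← T.rng, ← T.rng]
  exact h

/-- The kernel. -/
theorem kern (hA : Stmt_NAFF) (hG : Stmt_NGEO) (hD : Stmt_DFIN) [NoetherianSpace X]
    (hL : NodeLocs X) {W : X.Opens} (hW : IsAffineOpen W) (m : ∀ i, T.M W i)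
    (hm : ∀ d : dbl X, (d : X) ∈ W → T.δ W d m = 0) :
    ∃ a : Sec π W, ∀ i, pb π (T.ι i) W a = m i := by
  obtain ⟨n1, n2, n3, n4⟩ := hG hL hW T.E T.ι T.comp (fun i j h => T.ran_inj h)
  have n3' := n3 (fun Z hZ => ⟨⟨Z, hZ⟩, T.rng _⟩)
  obtain ⟨-, -, -, d4⟩ := hD hL
  have hfin : Finite {Z : Set X // Z ∈ irreducibleComponents X} :=
    (NoetherianSpace.finite_irreducibleComponents (α := X)).to_subtype
  have n1' : ∀ (P : Ideal Γ(X, W)) (hP : P.IsMaximal) (i : {Z : Set X // Z ∈ irreducibleComponents X}),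
      RingHom.ker ((T.ι i).app W).hom ≤ P → hW.fromSpec ⟨P, hP.isPrime⟩ ∈ i.1 := by
    intro P hP i hi
    have h := (n1 ⟨P, hP.isPrime⟩ i).1 hi
    rw [T.rng] at h
    exact h
  obtain ⟨l, hl⟩ : ∃ l : {Z : Set X // Z ∈ irreducibleComponents X} → Sec π W,
      ∀ i, pb π (T.ι i) W (l i) = m i :=
    ⟨fun i => (n4 i (m i)).choose, fun i => (n4 i (m i)).choose_spec⟩
  obtain ⟨a, ha⟩ := hA (fun i => RingHom.ker ((T.ι i).app W).hom) n3' (by
      intro P hP i j l hi hj hl hij
      rcases d4 i.1 i.2 j.1 j.2 (fun h => hij (Subtype.ext h)) l.1 l.2 _ (n1' P hP i hi)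
        (n1' P hP j hj) (n1' P hP l hl) with h | h
      · exact Or.inl (Subtype.ext h)
      · exact Or.inr (Subtype.ext h))
    (by
      intro P hP i j hi hj hij a ha
      exact n2 ⟨P, hP.isPrime⟩ i j hij ((n1 ⟨P, hP.isPrime⟩ i).1 hi)
        ((n1 ⟨P, hP.isPrime⟩ j).1 hj) a ha) l (by
      intro P hP i j hi hj
      by_cases hij : i = j
      · have h0 : (show Γ(X, W) from l i) - (show Γ(X, W) from l j) = 0 := by
          rw [hij]
          exact sub_self _
        exact (congrArg (· ∈ P) h0).mpr P.zero_mem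
      have hxi := n1' P hP i hi
      have hxj := n1' P hP j hj
      have hxW : hW.fromSpec ⟨P, hP.isPrime⟩ ∈ W := by
        have h1 : hW.fromSpec ⟨P, hP.isPrime⟩ ∈ Set.range hW.fromSpec := ⟨_, rfl⟩
        rw [hW.range_fromSpec] at h1
        exact h1
      have hxD : hW.fromSpec ⟨P, hP.isPrime⟩ ∈ dbl X :=
        ⟨i.1, i.2, j.1, j.2, fun h => hij (Subtype.ext h), hxi, hxj⟩
      set d : dbl X := ⟨_, hxD⟩ with hd
      have hdW : (d : X) ∈ W := hxW
      have m1 : (d : X) ∈ (T.i₁ d).1 := by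
        rw [← T.rng]
        exact ⟨_, T.h₁ d⟩
      have m2 : (d : X) ∈ (T.i₂ d).1 := by
        rw [← T.rng]
        exact ⟨_, T.h₂ d⟩
      have h12 : (T.v d).val W hdW (l (T.i₁ d)) = (T.v d).val W hdW (l (T.i₂ d)) := by
        have h1 := hm d hdW
        rw [T.δ_apply hdW] at h1
        rw [← hl, ← hl, T.val₁ hdW, T.val₂ hdW] at h1
        exact sub_eq_zero.1 h1
      have hall : ∀ a : {Z : Set X // Z ∈ irreducibleComponents X}, (d : X) ∈ a.1 →
          (T.v d).val W hdW (l a) = (T.v d).val W hdW (l (T.i₁ d)) := by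
        intro a hda
        rcases d4 _ (T.i₁ d).2 _ (T.i₂ d).2 (fun h => T.ne d (Subtype.ext h)) a.1 a.2 _ m1 m2 hda
          with h | h
        · rw [show a = T.i₁ d from Subtype.ext h]
        · rw [show a = T.i₂ d from Subtype.ext h, h12]
      have h0 : (T.v d).val W hdW (l i - l j) = 0 := by
        rw [map_sub, sub_eq_zero]
        exact (hall i hxi).trans (hall j hxj).symm
      have h1 := ((T.v d).eq_zero_iff W hdW (l i - l j)).1 h0
      have h2 := hW.fromSpec_preimage_basicOpen (l i - l j)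
      by_contra hcon
      apply h1
      have h3 : (⟨P, hP.isPrime⟩ : PrimeSpectrum Γ(X, W)) ∈
          hW.fromSpec ⁻¹ᵁ X.basicOpen (l i - l j) := by
        rw [h2]
        exact hcon
      exact h3)
  refine ⟨a, fun i => ?_⟩
  have h1 : pb π (T.ι i) W ((show Sec π W from a) - l i) = 0 := ha i
  rw [map_sub, hl] at h1
  exact sub_eq_zero.1 h1

/-- Injectivity. -/
theorem inj (hG : Stmt_NGEO) (hL : NodeLocs X) {W : X.Opens} (hW : IsAffineOpen W) (a : Sec π W)
    (ha : ∀ i, pb π (T.ι i) W a = 0) : a = 0 := by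
  obtain ⟨-, -, n3, -⟩ := hG hL hW T.E T.ι T.comp (fun i j h => T.ran_inj h)
  have n3' := n3 (fun Z hZ => ⟨⟨Z, hZ⟩, T.rng _⟩)
  have h1 : (show Γ(X, W) from a) ∈ ⨅ i, RingHom.ker ((T.ι i).app W).hom := by
    rw [Ideal.mem_iInf]
    exact fun i => ha i
  rw [n3'] at h1
  exact h1

end Dt

/-- Functions on an affine cover of a proper integral scheme which agree are constant. -/
theorem glue_const {k : Type} [Field k] [IsAlgClosed k] {E : Scheme.{0}} (π : E ⟶ Sp k)
    [IsProper π] [IsIntegral E] {V1 V2 : E.Opens} (h12 : V1 ⊔ V2 = ⊤) (a : Γ(E, V1))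
    (b : Γ(E, V2)) (h : E.presheaf.map (homOfLE (inf_le_left : V1 ⊓ V2 ≤ V1)).op a =
      E.presheaf.map (homOfLE (inf_le_right : V1 ⊓ V2 ≤ V2)).op b) :
    ∃ c : k, a = coef π V1 c ∧ b = coef π V2 c := by
  have hgl := E.sheaf.existsUnique_gluing' (fun i : Bool => if i then V1 else V2) ⊤
    (fun i => homOfLE le_top) (by
      rw [← h12]
      apply sup_le
      · exact le_iSup (fun i : Bool => if i then V1 else V2) true
      · exact le_iSup (fun i : Bool => if i then V1 else V2) false)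
    (fun i => match i with
      | true => a
      | false => b) (by
      intro i j
      rcases i with _ | _ <;> rcases j with _ | _
      · rfl
      · have h' := congrArg (E.presheaf.map (homOfLE (le_inf inf_le_right inf_le_left :
          V2 ⊓ V1 ≤ V1 ⊓ V2)).op) h
        rw [← ConcreteCategory.comp_apply, ← ConcreteCategory.comp_apply, ← E.presheaf.map_comp,
          ← E.presheaf.map_comp] at h'
        exact h'.symm
      · exact h
      · rfl)
  obtain ⟨s, hs, -⟩ := hgl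
  obtain ⟨c, hc⟩ := exists_const π s
  rw [← coef_eq_kmap] at hc
  refine ⟨c, ?_, ?_⟩
  · refine Eq.trans (hs true).symm ?_
    rw [hc]
    exact map_coef π le_top c
  · refine Eq.trans (hs false).symm ?_
    rw [hc]
    exact map_coef π le_top c

end CNT_

open _root_.Pool.Agent.MG.WL.CL.CNT_ in
theorem t_CNT (h0 : Stmt_CNT0) (hA : Stmt_NAFF) (hD : Stmt_DFIN) (hV : Stmt_VAL)
    (hN : Stmt_NGEO) (hC : Stmt_CE) : Stmt_CNT := by
  classical
  intro k _ _ X π _ hnod hL hg
  have hnoe : NoetherianSpace X := by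
    have h1 : IsLocallyNoetherian X := LocallyOfFiniteType.isLocallyNoetherian π
    have h2 : CompactSpace X := QuasiCompact.compactSpace_of_compactSpace π
    have h3 : IsNoetherian X := {}
    infer_instance
  obtain ⟨T⟩ := exists_Dt hC hD hV π hnod hL
  obtain ⟨hdfin, -, -, -⟩ := hD hL
  have hfI : Finite {Z : Set X // Z ∈ irreducibleComponents X} :=
    (NoetherianSpace.finite_irreducibleComponents (α := X)).to_subtype
  have hfD : Finite (dbl X) := hdfin.to_subtype
  let _ : Fintype {Z : Set X // Z ∈ irreducibleComponents X} := Fintype.ofFinite _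
  let _ : Fintype (dbl X) := Fintype.ofFinite _
  obtain ⟨U, V, hU, hV, hUV, L, hLs, hLc, hL0⟩ := hg
  have hUVa : IsAffineOpen (U ⊓ V) := isAffineOpen_inf π hU hV
  let L' : Sec π (U ⊓ V) →ₗ[k] k :=
    { toFun := fun s => L s 0
      map_add' := fun s t => by
        have : L ((show Γ(X, U ⊓ V) from s) + (show Γ(X, U ⊓ V) from t)) = L s + L t :=
          L.map_add _ _
        exact congrFun this 0
      map_smul' := fun c s => by
        have := hLc c s
        exact congrFun this 0 }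
  have key := h0 k {Z : Set X // Z ∈ irreducibleComponents X} (dbl X) (Sec π U) (Sec π V)
    (Sec π (U ⊓ V)) (T.M U) (T.M V) (T.M (U ⊓ V))
    (res π inf_le_left).toLinearMap (res π inf_le_right).toLinearMap
    (fun i => (res (T.ι i ≫ π) (fun _ h => h.1 : T.ι i ⁻¹ᵁ (U ⊓ V) ≤ T.ι i ⁻¹ᵁ U)).toLinearMap)
    (fun i => (res (T.ι i ≫ π) (fun _ h => h.2 : T.ι i ⁻¹ᵁ (U ⊓ V) ≤ T.ι i ⁻¹ᵁ V)).toLinearMap)
    (fun i => (pb π (T.ι i) U).toLinearMap) (fun i => (pb π (T.ι i) V).toLinearMap)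
    (fun i => (pb π (T.ι i) (U ⊓ V)).toLinearMap) L' (fun d => (d : X) ∈ U) (fun d => (d : X) ∈ V)
    (T.δ U) (T.δ V) (T.δ (U ⊓ V)) 1 1
    (fun i a => pb_res π (T.ι i) inf_le_left _ a) (fun i a => pb_res π (T.ι i) inf_le_right _ a)
    (by
      intro c
      obtain ⟨s, hs⟩ := hLs (fun _ => c)
      exact ⟨s, congrFun hs 0⟩)
    (by
      intro s
      refine Iff.trans ?_ (hL0 s)
      constructor
      · intro h
        funext j
        rw [Subsingleton.elim j 0]
        exact h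
      · intro h
        exact congrFun h 0)
    (by
      intro d
      have h1 : (d : X) ∈ U ⊔ V := by
        rw [hUV]
        trivial
      exact h1)
    (fun a d h => T.δ_pb h a) (fun a d h => T.δ_pb h a) 
    (fun a d h h' => T.δ_pb (W := U ⊓ V) (d := d) ⟨h, h'⟩ a)
    (T.surj hU) (T.surj hV)
    (fun d m h h' => T.δ_res (W := U ⊓ V) inf_le_left ⟨h, h'⟩ m (fun _ _ h => h.1))
    (fun d m h h' => T.δ_res (W := U ⊓ V) inf_le_right ⟨h, h'⟩ m (fun _ _ h => h.2))
    (fun m hm => T.kern hA hN hD hL hUVa m (fun d h => hm d h.1 h.2))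
    (fun a ha => T.inj hN hL hUVa a ha)
    (by
      intro i a b hab
      have h1 := (T.comp i).cl
      have h2 := (T.comp i).int
      obtain ⟨c, hca, hcb⟩ := glue_const (T.ι i ≫ π) (V1 := T.ι i ⁻¹ᵁ U) (V2 := T.ι i ⁻¹ᵁ V)
        (by
          rw [eq_top_iff]
          intro x _
          have h1 : T.ι i x ∈ U ⊔ V := by
            rw [hUV]
            trivial
          exact h1) a b hab
      refine ⟨c, ?_, ?_⟩
      · rw [AlgHom.toLinearMap_apply, map_one, Algebra.smul_def, mul_one]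
        exact hca
      · rw [AlgHom.toLinearMap_apply, map_one, Algebra.smul_def, mul_one]
        exact hcb)
    (by rw [AlgHom.toLinearMap_apply, AlgHom.toLinearMap_apply, map_one, map_one])
  have e1 : (dbl X).ncard = Fintype.card (dbl X) := by
    rw [Set.ncard_eq_toFinset_card', Set.toFinset_card]
  have e2 : (irreducibleComponents X).ncard =
      Fintype.card {Z : Set X // Z ∈ irreducibleComponents X} := by
    rw [← Nat.card_eq_fintype_card]
    rfl
  rw [e1, e2]
  refine le_trans (Nat.add_le_add_left ?_ _) key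
  have hfin : {i : {Z : Set X // Z ∈ irreducibleComponents X} |
      ¬ ∀ s : T.M (U ⊓ V) i, ∃ (a : T.M U i) (b : T.M V i),
        s = (res (T.ι i ≫ π) (fun _ h => h.1 : T.ι i ⁻¹ᵁ (U ⊓ V) ≤ T.ι i ⁻¹ᵁ U)).toLinearMap a +
          (res (T.ι i ≫ π) (fun _ h => h.2 : T.ι i ⁻¹ᵁ (U ⊓ V) ≤ T.ι i ⁻¹ᵁ V)).toLinearMap
            b}.Finite := Set.toFinite _
  refine le_trans (Set.ncard_le_ncard (t := Subtype.val '' _) ?_ (hfin.image _))
    (Set.ncard_image_le hfin)
  rintro Z ⟨hZ, hbad⟩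
  refine ⟨⟨Z, hZ⟩, ?_, rfl⟩
  intro hall
  apply hbad
  have h1 := (T.comp ⟨Z, hZ⟩).cl
  refine ⟨T.E ⟨Z, hZ⟩, T.ι ⟨Z, hZ⟩, T.comp _, T.rng _, T.ι ⟨Z, hZ⟩ ⁻¹ᵁ U, T.ι ⟨Z, hZ⟩ ⁻¹ᵁ V,
    hU.preimage _, hV.preimage _, ?_, 0, ?_, ?_, ?_⟩
  · rw [eq_top_iff]
    intro x _
    have h1 : T.ι ⟨Z, hZ⟩ x ∈ U ⊔ V := by
      rw [hUV]
      trivial
    exact h1
  · intro x
    exact ⟨0, Subsingleton.elim _ _⟩
  · intro c s
    exact Subsingleton.elim _ _
  · intro s
    exact ⟨fun _ => hall s, fun _ => Subsingleton.elim _ _⟩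

end Pool.Agent.MG.WL.CL


end

section

/-!
# QFV: quasi-finiteness of the charts of the graph
-/

namespace Pool.Agent.MG.WL

namespace QFV

open Polynomial

/-- Quasi-finiteness of `P → T` from quasi-finiteness on `V(t)` and on `D(t)`. -/
theorem of_parts {P T T2 : Type} [CommRing P] [CommRing T] [CommRing T2]
    (c : P →+* T) (hc : c.FiniteType) (t : T)
    (h1 : ((Ideal.Quotient.mk (Ideal.span {t})).comp c).QuasiFinite) (ψ : T →+* T2)
    (h2 : (ψ.comp c).QuasiFinite)
    (hψ : ∀ q : PrimeSpectrum T, t ∉ q.asIdeal → q ∈ Set.range (PrimeSpectrum.comap ψ)) :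
    c.QuasiFinite := by
  have f1 : ∀ x, (PrimeSpectrum.comap ((Ideal.Quotient.mk (Ideal.span {t})).comp c) ⁻¹'
      {x}).Finite := by
    intro x
    algebraize [(Ideal.Quotient.mk (Ideal.span {t})).comp c]
    exact Algebra.QuasiFinite.finite_comap_preimage_singleton (R := P)
      (S := T ⧸ Ideal.span {t}) x
  have f2 : ∀ x, (PrimeSpectrum.comap (ψ.comp c) ⁻¹' {x}).Finite := by
    intro x
    algebraize [ψ.comp c]
    exact Algebra.QuasiFinite.finite_comap_preimage_singleton (R := P) (S := T2) x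
  algebraize [c]
  have h3 : ∀ x, (PrimeSpectrum.comap (algebraMap P T) ⁻¹' {x}).Finite := by
    intro x
    refine (((f1 x).image (PrimeSpectrum.comap (Ideal.Quotient.mk (Ideal.span {t})))).union
      ((f2 x).image (PrimeSpectrum.comap ψ))).subset ?_
    intro q hq
    by_cases ht : t ∈ q.asIdeal
    · left
      have h4 : q ∈ Set.range (PrimeSpectrum.comap (Ideal.Quotient.mk (Ideal.span {t}))) := by
        rw [range_comap_of_surjective _ _ Ideal.Quotient.mk_surjective, Ideal.mk_ker]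
        exact (Ideal.span_singleton_le_iff_mem _).2 ht
      obtain ⟨q', rfl⟩ := h4
      exact ⟨q', hq, rfl⟩
    · right
      obtain ⟨q', rfl⟩ := hψ q ht
      exact ⟨q', hq, rfl⟩
  exact Algebra.QuasiFinite.iff_finite_comap_preimage_singleton.2 h3

attribute [local instance] Polynomial.algebra in
theorem finite_map {B Q : Type} [CommRing B] [CommRing Q] (c : B →+* Q) (hc : c.Finite) :
    (mapRingHom c).Finite := by
  algebraize [c]
  exact RingHom.finite_isStableUnderBaseChange B Q B[X] Q[X] (RingHom.finite_algebraMap.2 hc)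

theorem finiteType_map {B Q : Type} [CommRing B] [CommRing Q] (c : B →+* Q)
    (hc : c.FiniteType) : (mapRingHom c).FiniteType := by
  have h1 : ((mapRingHom c).comp C).FiniteType := by
    rw [mapRingHom_comp_C]
    exact RingHom.FiniteType.comp (by
      have : Algebra.FiniteType Q Q[X] := inferInstance
      exact (RingHom.finiteType_algebraMap (A := Q) (B := Q[X])).2 this) hc
  exact h1.of_comp_finiteType

/-- Quotients of `R[X]/β` are finite over `B[X]`. -/
theorem finite_part {B R T : Type} [CommRing B] [CommRing R] [CommRing T] (c : B →+* R) (β : R)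
    (hf : ((Ideal.Quotient.mk (Ideal.span {β})).comp c).Finite) (κ : R[X] →+* T)
    (hκ : Function.Surjective κ) (h0 : κ (C β) = 0) : (κ.comp (mapRingHom c)).Finite := by
  let k0 : R ⧸ Ideal.span {β} →+* T := Ideal.Quotient.lift (Ideal.span {β}) (κ.comp C) (by
    intro a ha
    rw [Ideal.mem_span_singleton] at ha
    obtain ⟨b, rfl⟩ := ha
    rw [RingHom.comp_apply, map_mul, map_mul, h0, zero_mul])
  let κ' : (R ⧸ Ideal.span {β})[X] →+* T := eval₂RingHom k0 (κ X)
  have h1 : κ = κ'.comp (mapRingHom (Ideal.Quotient.mk (Ideal.span {β}))) := by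
    refine ringHom_ext (fun a => ?_) ?_
    · simp [κ', k0]
    · simp [κ']
  have h2 : Function.Surjective κ' := by
    intro y
    obtain ⟨x, rfl⟩ := hκ y
    exact ⟨_, (congrArg (fun φ => φ x) h1).symm⟩
  have h3 : κ.comp (mapRingHom c) =
      κ'.comp (mapRingHom ((Ideal.Quotient.mk (Ideal.span {β})).comp c)) := by
    conv_lhs => rw [h1]
    rw [RingHom.comp_assoc, mapRingHom_comp]
  rw [h3]
  exact (RingHom.Finite.of_surjective _ h2).comp (finite_map _ hf)

/-- Primes of `T` outside `V(s)` from primes of `S`. -/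
theorem primes {R T S : Type} [CommRing R] [CommRing T] [CommRing S] (ι : R →+* T)
    (ψ : T →+* S) (s : R) (hs : IsUnit (ψ (ι s)))
    (hS : ∀ p : PrimeSpectrum R, s ∉ p.asIdeal → p ∈ Set.range (PrimeSpectrum.comap (ψ.comp ι)))
    (hT : ∀ x : T, ∃ (k : ℕ) (r : R), ι s ^ k * x = ι r) (q : PrimeSpectrum T)
    (hq : ι s ∉ q.asIdeal) : q ∈ Set.range (PrimeSpectrum.comap ψ) := by
  obtain ⟨q', hq'⟩ := hS (PrimeSpectrum.comap ι q) hq
  refine ⟨q', ?_⟩
  ext x
  obtain ⟨k, r, hr⟩ := hT x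
  have h1 : x ∈ q.asIdeal ↔ r ∈ (PrimeSpectrum.comap ι q).asIdeal := by
    constructor
    · intro hx
      change ι r ∈ q.asIdeal
      rw [← hr]
      exact q.asIdeal.mul_mem_left _ hx
    · intro hx
      change ι r ∈ q.asIdeal at hx
      rw [← hr] at hx
      rcases q.isPrime.mem_or_mem hx with h | h
      · exact (hq (q.isPrime.mem_of_pow_mem _ h)).elim
      · exact h
  rw [h1, ← hq']
  change ψ x ∈ q'.asIdeal ↔ ψ (ι r) ∈ q'.asIdeal
  rw [← hr, map_mul, map_pow]
  constructor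
  · intro hx
    exact q'.asIdeal.mul_mem_left _ hx
  · intro hx
    rcases q'.isPrime.mem_or_mem hx with h | h
    · exact (q'.isPrime.ne_top (Ideal.eq_top_of_isUnit_mem _ (q'.isPrime.mem_of_pow_mem _ h)
        hs)).elim
    · exact h

/-- Elements of `R[X]/(a X - b)`. -/
theorem clear {R T : Type} [CommRing R] [CommRing T] (κ : R[X] →+* T)
    (hκ : Function.Surjective κ) (a b s : R) (hs : ∃ d, s = a * d)
    (h0 : κ (C a) * κ X = κ (C b)) (x : T) :
    ∃ (k : ℕ) (r : R), κ (C s) ^ k * x = κ (C r) := by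
  obtain ⟨p, rfl⟩ := hκ x
  induction p using Polynomial.induction_on' with
  | add p q hp hq =>
    obtain ⟨k, r, hk⟩ := hp
    obtain ⟨l, r', hl⟩ := hq
    refine ⟨k + l, s ^ l * r + s ^ k * r', ?_⟩
    rw [map_add, pow_add, C_add, map_add, C_mul, C_mul, map_mul, map_mul, ← hk, ← hl, C_pow,
      C_pow, map_pow, map_pow]
    ring
  | monomial k r =>
    obtain ⟨d, rfl⟩ := hs
    refine ⟨k, d ^ k * (r * b ^ k), ?_⟩
    rw [← C_mul_X_pow_eq_monomial, map_mul κ, map_pow κ, C_mul, map_mul, mul_pow, C_mul, C_mul,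
      map_mul, map_mul, C_pow, map_pow, C_pow, map_pow, ← h0, mul_pow]
    ring

section

variable {B R S T : Type} [CommRing B] [CommRing R] [CommRing S] [CommRing T] (c : B →+* R)
  (j : R →+* S) (β : R) (h : S) (α : R) (N : ℕ) (hc : c.FiniteType)
  (hfin : ((Ideal.Quotient.mk (Ideal.span {β})).comp c).Finite)
  (hu : IsUnit (j β))
  (hS : ∀ p : PrimeSpectrum R, β ∉ p.asIdeal → p ∈ Set.range (PrimeSpectrum.comap j))
  (hh : j β ^ N * h = j α) (hqf : (eval₂RingHom (j.comp c) h).QuasiFinite)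
  (κ : R[X] →+* T) (hκ : Function.Surjective κ)

include hc hfin hκ

theorem common {T2 : Type} [CommRing T2] (ψ : T →+* T2)
    (h2 : (ψ.comp (κ.comp (mapRingHom c))).QuasiFinite)
    (hψ : ∀ q : PrimeSpectrum T, κ (C β) ∉ q.asIdeal → q ∈ Set.range (PrimeSpectrum.comap ψ)) :
    (κ.comp (mapRingHom c)).QuasiFinite := by
  refine of_parts (κ.comp (mapRingHom c)) ?_ (κ (C β)) ?_ ψ h2 hψ
  · exact (RingHom.FiniteType.of_surjective _ hκ).comp (finiteType_map c hc)
  · rw [← RingHom.comp_assoc]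
    exact RingHom.QuasiFinite.of_finite (finite_part c β hfin _
      (Ideal.Quotient.mk_surjective.comp hκ)
      (Ideal.Quotient.eq_zero_iff_mem.2 (Ideal.mem_span_singleton_self _)))

include hu hS hqf

theorem first (h0 : κ (C (β ^ N)) * κ X = κ (C α)) (ψ : T →+* S)
    (hψκ : ψ.comp κ = eval₂RingHom j h) : (κ.comp (mapRingHom c)).QuasiFinite := by
  refine common c β hc hfin κ hκ ψ ?_ ?_
  · have h1 : ψ.comp (κ.comp (mapRingHom c)) = eval₂RingHom (j.comp c) h := by
      rw [← RingHom.comp_assoc, hψκ]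
      refine ringHom_ext (fun a => ?_) ?_
      · simp
      · simp
    rw [h1]
    exact hqf
  · intro q hq
    have h3 : ψ.comp (κ.comp C) = j := by
      rw [← RingHom.comp_assoc, hψκ]
      ext a
      simp
    refine primes (κ.comp C) ψ β ?_ ?_ (fun x => ?_) q hq
    · have h4 := congrArg (fun f => f β) h3
      change ψ (κ (C β)) = j β at h4
      change IsUnit (ψ (κ (C β)))
      rw [h4]
      exact hu
    · rw [h3]
      exact hS
    · obtain ⟨k, r, hk⟩ := clear κ hκ (β ^ N) α (β ^ N) ⟨1, (mul_one _).symm⟩ h0 x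
      refine ⟨N * k, r, ?_⟩
      rw [pow_mul]
      change (κ (C β) ^ N) ^ k * x = κ (C r)
      rw [← map_pow, ← C_pow]
      exact hk

include hh

theorem second (h0 : κ (C α) * κ X = κ (C (β ^ N))) {S' : Type} [CommRing S'] [Algebra S S']
    [IsLocalization.Away h S'] (w : S'ˣ) (hw : (w : S') = algebraMap S S' h) (ψ : T →+* S')
    (hψκ : ψ.comp κ = eval₂RingHom ((algebraMap S S').comp j) (w⁻¹ : S'ˣ)) :
    (κ.comp (mapRingHom c)).QuasiFinite := by
  let a : S →+* S' := algebraMap S S'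
  have hua : IsUnit (a h) := IsLocalization.Away.algebraMap_isUnit (S := S') h
  refine common c β hc hfin κ hκ ψ ?_ ?_
  · -- inversion of the coordinate
    let v : LaurentPolynomial B →+* S' := LaurentPolynomial.eval₂ ((a.comp j).comp c) w
    have h1 : (v.comp (toLaurent : B[X] →+* LaurentPolynomial B)).QuasiFinite := by
      have h2 : v.comp (toLaurent : B[X] →+* LaurentPolynomial B) =
          a.comp (eval₂RingHom (j.comp c) h) := by
        refine ringHom_ext (fun x => ?_) ?_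
        · simp [v]
        · simp [v, hw, a]
      rw [h2]
      refine RingHom.QuasiFinite.comp ?_ hqf
      exact RingHom.quasiFinite_algebraMap.2
        (Algebra.QuasiFinite.of_isLocalization (.powers h))
    have h2 : v.QuasiFinite := h1.of_comp
    have h3 : (toLaurent : B[X] →+* LaurentPolynomial B).QuasiFinite :=
      RingHom.quasiFinite_algebraMap.2
        (Algebra.QuasiFinite.of_isLocalization (S := B[X]) (.powers (X : B[X])))
    have h4 : ψ.comp (κ.comp (mapRingHom c)) = (v.comp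
        (LaurentPolynomial.invert (R := B) : LaurentPolynomial B →+* LaurentPolynomial B)).comp
          (toLaurent : B[X] →+* LaurentPolynomial B) := by
      rw [← RingHom.comp_assoc, hψκ]
      refine ringHom_ext (fun x => ?_) ?_
      · simp [v, a]
      · simp [v]
    rw [h4]
    exact (h2.comp (RingHom.QuasiFinite.of_finite (LaurentPolynomial.invert
      (R := B)).toRingEquiv.finite)).comp h3
  · intro q hq
    have h3 : ψ.comp (κ.comp C) = a.comp j := by
      rw [← RingHom.comp_assoc, hψκ]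
      ext x
      simp [a]
    have hαβ : (κ.comp C) (α * β) ∉ q.asIdeal := by
      intro hx
      rw [map_mul] at hx
      rcases q.isPrime.mem_or_mem hx with h5 | h5
      · have h6 : κ (C β) ^ N ∈ q.asIdeal := by
          rw [← map_pow, ← C_pow, ← h0]
          exact q.asIdeal.mul_mem_right _ h5
        exact hq (q.isPrime.mem_of_pow_mem _ h6)
      · exact hq h5
    refine primes (κ.comp C) ψ (α * β) ?_ ?_ (fun x => ?_) q hαβ
    · have h4 := congrArg (fun f => f (α * β)) h3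
      change ψ ((κ.comp C) (α * β)) = a (j (α * β)) at h4
      rw [h4, map_mul, ← hh, map_mul, map_mul]
      refine (IsUnit.mul ?_ hua).mul (hu.map a)
      rw [map_pow]
      exact (hu.map a).pow N
    · rw [h3]
      intro p hp
      have hβ : β ∉ p.asIdeal := fun h => hp (p.asIdeal.mul_mem_left _ h)
      have hα : α ∉ p.asIdeal := fun h => hp (p.asIdeal.mul_mem_right _ h)
      obtain ⟨p', hp'⟩ := hS p hβ
      have hh' : h ∉ p'.asIdeal := by
        intro h7
        apply hα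
        rw [← hp']
        change j α ∈ p'.asIdeal
        rw [← hh]
        exact p'.asIdeal.mul_mem_left _ h7
      have h8 : p' ∈ Set.range (PrimeSpectrum.comap a) := by
        change p' ∈ Set.range (PrimeSpectrum.comap (algebraMap S S'))
        rw [PrimeSpectrum.localization_away_comap_range S' h]
        exact hh'
      obtain ⟨p'', rfl⟩ := h8
      exact ⟨p'', hp'⟩
    · exact clear κ hκ α (β ^ N) (α * β) ⟨β, rfl⟩ h0 x

end

end QFV

open Polynomial in
theorem t_QFV : Stmt_QFV := by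
  intro B R S _ _ _ c j β h α N hc hfin hloc hh hqf
  let A : Algebra R S := j.toAlgebra
  have hloc' : IsLocalization.Away β S := hloc
  have hj : algebraMap R S = j := rfl
  have hu : IsUnit (j β) := IsLocalization.Away.algebraMap_isUnit (S := S) β
  have hS : ∀ p : PrimeSpectrum R, β ∉ p.asIdeal → p ∈ Set.range (PrimeSpectrum.comap j) := by
    intro p hp
    rw [← hj, PrimeSpectrum.localization_away_comap_range S β]
    exact hp
  constructor
  · refine QFV.first c j β h α N hc hfin hu hS hqf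
      (Ideal.Quotient.mk (Ideal.span {(C (β ^ N) * X - C α : R[X])}))
      Ideal.Quotient.mk_surjective ?_ (Ideal.Quotient.lift _ (eval₂RingHom j h) (by
        intro a ha
        rw [Ideal.mem_span_singleton] at ha
        obtain ⟨b, rfl⟩ := ha
        rw [map_mul, coe_eval₂RingHom, eval₂_sub, eval₂_mul, eval₂_C, eval₂_X, eval₂_C,
          map_pow, hh, sub_self, zero_mul])) (Ideal.Quotient.lift_comp_mk _ _ _)
    rw [← map_mul, ← sub_eq_zero, ← map_sub]
    exact Ideal.Quotient.eq_zero_iff_mem.2 (Ideal.mem_span_singleton_self _)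
  · have hua : IsUnit (algebraMap S (Localization.Away h) h) :=
      IsLocalization.Away.algebraMap_isUnit (S := Localization.Away h) h
    have hwi : algebraMap S (Localization.Away h) (j α) * (hua.unit⁻¹ : (Localization.Away h)ˣ) =
        algebraMap S (Localization.Away h) (j (β ^ N)) := by
      rw [← hh, map_mul, mul_assoc, IsUnit.mul_val_inv, mul_one, map_pow j]
    refine QFV.second c j β h α N hc hfin hu hS hh hqf
      (Ideal.Quotient.mk (Ideal.span {(C α * X - C (β ^ N) : R[X])}))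
      Ideal.Quotient.mk_surjective ?_ hua.unit rfl (Ideal.Quotient.lift _
      (eval₂RingHom ((algebraMap S (Localization.Away h)).comp j) (hua.unit⁻¹ : _ˣ)) (by
        intro x hx
        rw [Ideal.mem_span_singleton] at hx
        obtain ⟨b, rfl⟩ := hx
        rw [map_mul, coe_eval₂RingHom, eval₂_sub, eval₂_mul, eval₂_C, eval₂_X, eval₂_C,
          RingHom.comp_apply, RingHom.comp_apply, hwi, sub_self, zero_mul]))
      (Ideal.Quotient.lift_comp_mk _ _ _)
    rw [← map_mul, ← sub_eq_zero, ← map_sub]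
    exact Ideal.Quotient.eq_zero_iff_mem.2 (Ideal.mem_span_singleton_self _)

end Pool.Agent.MG.WL


end

section

/-!
# RGD: rigidity of deformations
-/

open CategoryTheory CategoryTheory.Limits AlgebraicGeometry TensorProduct

namespace Pool.Agent.MG.WL

open Pool.Agent.MG.W Pool.Agent.MG.One

namespace RGD

/-- Scaling with `u = 1` is the identity. -/
theorem sc_id {B : Type} [CommRing B] {a b u v : B} (huv : u * v = 1) (ha : a = u ^ 4 * a)
    (hb : b = u ^ 6 * b) (hu : u = 1) : WX.sc huv ha hb = 𝟙 _ := by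
  subst hu
  have hv : v = 1 := by rw [one_mul] at huv; exact huv
  subst hv
  exact sc_one ha hb

/-- A unit `u = 1 + t ε` fixing `a + ε α` and `b + ε β`, where `(a, b) = 1`, is `1`. -/
theorem unit_eq_one {D : Type} [CommRing D] (h6 : IsUnit (6 : D)) {a b : D}
    (h : Ideal.span {a, b} = ⊤) {α β : D} {u : Eps D} (hu : u.fst = 1)
    (ha : ep a α = u ^ 4 * ep a α) (hb : ep b β = u ^ 6 * ep b β) : u = 1 := by
  obtain ⟨i6, hi⟩ := h6.exists_right_inv
  rw [Ideal.eq_top_iff_one, Ideal.mem_span_pair] at h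
  obtain ⟨r, s, hrs⟩ := h
  have h2f : (u * u).fst = 1 := by rw [fst_mul', hu, one_mul]
  have h2s : (u * u).snd = 2 * u.snd := by rw [snd_mul', hu]; ring
  have h4 : u ^ 4 = (u * u) * (u * u) := by ring
  have h6' : u ^ 6 = (u * u) * ((u * u) * (u * u)) := by ring
  have h4f : (u * u * (u * u)).fst = 1 := by rw [fst_mul', h2f, one_mul]
  have h4s : (u * u * (u * u)).snd = 4 * u.snd := by rw [snd_mul', h2f, h2s]; ring
  have h6f : (u * u * (u * u * (u * u))).fst = 1 := by rw [fst_mul', h2f, h4f, one_mul]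
  have h6s : (u * u * (u * u * (u * u))).snd = 6 * u.snd := by
    rw [snd_mul', h2f, h2s, h4f, h4s]; ring
  have e1 := congrArg TrivSqZeroExt.snd ha
  have e2 := congrArg TrivSqZeroExt.snd hb
  rw [h4, snd_mul', h4f, h4s, snd_ep, fst_ep] at e1
  rw [h6', snd_mul', h6f, h6s, snd_ep, fst_ep] at e2
  have ht : u.snd = 0 := by
    linear_combination (-9 * i6 ^ 2 * r) * e1 - (i6 * s) * e2 - u.snd * hrs
      - (r * u.snd * a * (6 * i6 + 1) + s * u.snd * b) * hi
  refine TrivSqZeroExt.ext ?_ ?_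
  · rw [hu, TrivSqZeroExt.fst_one]
  · rw [ht, TrivSqZeroExt.snd_one]

theorem local_aux (hEXA : Stmt_EXA) {D : Type} [CommRing D] (h6 : IsUnit (6 : D)) {a b : D}
    (h : Ideal.span {a, b} = ⊤) (z : Fam 1 (Eps D)) (hz : IsStable 1 z)
    (r : Arrow (eps0 D) (Wei (WZ a b)) z) (k : Arrow (RingHom.id (Eps D)) z z)
    (hk : r.f ≫ k.f = r.f) : k.f = 𝟙 _ := by
  obtain ⟨α, β, g, hg⟩ := exists_dW h6 h ⟨z, hz, r⟩
  have hg' : r.f ≫ g.f = (dW h6 h α β).r.f := hg
  let gi : Arrow (RingHom.id (Eps D)) (dW h6 h α β).y z :=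
    arrowLift (castA (RingHom.comp_id _).symm (idArr (dW h6 h α β).y)) g
  have hgi : gi.f ≫ g.f = 𝟙 _ := arrowLift_f _ _
  have hiso : IsIso g.f := arrow_id_iso g
  have hgi2 : g.f ≫ gi.f = 𝟙 _ := by
    rw [← cancel_mono g.f, Category.assoc, hgi, Category.comp_id, Category.id_comp]
  let h0 : Arrow (RingHom.id (Eps D)) (dW h6 h α β).y (dW h6 h α β).y :=
    castA (by rw [RingHom.comp_id, RingHom.comp_id]) (PBS.comp (PBS.comp gi k) g)
  have hh0 : h0.f = (gi.f ≫ k.f) ≫ g.f := rfl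
  have hr0 : (dW h6 h α β).r.f ≫ h0.f = (dW h6 h α β).r.f := by
    rw [hh0, ← hg', Category.assoc, Category.assoc, reassoc_of% hgi2, reassoc_of% hk]
  obtain ⟨u, v, huv, ha, hb, e⟩ := hEXA.1 (isUnit6_map (algebraMap D (Eps D)) h6) h0
  have hws : u.fst * v.fst = 1 := by
    rw [← fst_mul', huv, TrivSqZeroExt.fst_one]
  have hpow : ∀ (w : Eps D) (n : ℕ), (w ^ n).fst = w.fst ^ n := fun w n =>
    TrivSqZeroExt.fst_pow w n
  have hc : a = u.fst ^ 4 * a := by
    have := congrArg TrivSqZeroExt.fst ha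
    rwa [fst_mul', hpow, fst_ep] at this
  have hd : b = u.fst ^ 6 * b := by
    have := congrArg TrivSqZeroExt.fst hb
    rwa [fst_mul', hpow, fst_ep] at this
  have h1 := t_WSC.2.2 (eps0 D) huv ha hb (c := a) (d := b) (c' := a) (d' := b) (w := u.fst)
      (s := v.fst) hws hc hd (fst_ep a α).symm (fst_ep b β).symm
      (fst_ep a α).symm (fst_ep b β).symm rfl
  have h2 : WX.sc hws hc hd ≫ (dW h6 h α β).r.f = (dW h6 h α β).r.f := by
    refine Eq.trans ?_ hr0
    rw [e]
    exact h1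
  have h3 : WX.sc hws hc hd = 𝟙 _ := by
    refine (dW h6 h α β).r.cart.hom_ext ?_ ?_
    · exact h2.trans (Category.id_comp _).symm
    · exact (WX.sc_pr hws hc hd).trans (Category.id_comp _).symm
  have h4 : u.fst = 1 := by
    refine hEXA.2 hws hc hd (mul_one 1) (by ring) (by ring) ?_
    rw [h3, sc_one]
  have h5 : u = 1 := unit_eq_one h6 h h4 ha hb
  have h6 : h0.f = 𝟙 _ := by
    rw [e]
    exact sc_id huv ha hb h5
  have h7 : k.f = (g.f ≫ gi.f) ≫ k.f ≫ (g.f ≫ gi.f) := by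
    rw [hgi2, Category.id_comp, Category.comp_id]
  have h8 : (g.f ≫ gi.f) ≫ k.f ≫ (g.f ≫ gi.f) = g.f ≫ h0.f ≫ gi.f := by
    rw [hh0]
    simp only [Category.assoc]
  rw [h7, h8, h6, Category.id_comp, hgi2]

theorem local_thm (hEXA : Stmt_EXA) {D : Type} [CommRing D] (h6 : IsUnit (6 : D)) {a b : D}
    (h : Ideal.span {a, b} = ⊤) (z z' : Fam 1 (Eps D)) (hz : IsStable 1 z)
    (r : Arrow (eps0 D) (Wei (WZ a b)) z) (f f' : Arrow (RingHom.id (Eps D)) z z')
    (hf : r.f ≫ f.f = r.f ≫ f'.f) : f.f = f'.f := by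
  let k : Arrow (RingHom.id (Eps D)) z z := arrowLift (castA (RingHom.comp_id _).symm f') f
  have hk : k.f ≫ f.f = f'.f := arrowLift_f _ _
  have hi : IsIso f.f := arrow_id_iso f
  have h1 : r.f ≫ k.f = r.f := by
    rw [← cancel_mono f.f, Category.assoc, hk, hf]
  have h2 := local_aux hEXA h6 h z hz r k h1
  rw [← hk, h2, Category.id_comp]

end RGD

theorem t_RGD (hEXA : Stmt_EXA) (hLOE : Stmt_LOE) : Stmt_RGD := by
  intro D _ h6 x hx z z' hz hz' r f f' hf
  refine Scheme.hom_ext_of_forall _ _ fun y => ?_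
  let q : PrimeSpectrum (Eps D) := z.π y
  obtain ⟨f0, hf0, ⟨c⟩⟩ := hx (PrimeSpectrum.comap (algebraMap D (Eps D)) q)
  set φ : D →+* Localization.Away f0 := algebraMap D (Localization.Away f0) with hφ
  -- the open immersion
  have hloc := hLOE (A := D) (B := Localization.Away f0) f0
  have hoi : IsOpenImmersion (spMap (epsMap φ)) := by
    let _ := (epsMap (algebraMap D (Localization.Away f0))).toAlgebra
    exact IsOpenImmersion.of_isLocalization (TrivSqZeroExt.inl f0 : Eps D)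
  have hrange : ∃ w : PrimeSpectrum (Eps (Localization.Away f0)),
      PrimeSpectrum.comap (epsMap φ) w = q := by
    let _ := (epsMap (algebraMap D (Localization.Away f0))).toAlgebra
    have h1 := PrimeSpectrum.localization_away_comap_range (Eps (Localization.Away f0))
      (TrivSqZeroExt.inl f0 : Eps D)
    have h2 : q ∈ (PrimeSpectrum.basicOpen (TrivSqZeroExt.inl f0 : Eps D) :
        Set (PrimeSpectrum (Eps D))) := by
      intro h3
      exact hf0 h3
    rw [← h1] at h2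
    exact h2
  obtain ⟨w, hw⟩ := hrange
  -- base change
  let bz := PBS.bcArrow (epsMap φ) z
  let bz' := PBS.bcArrow (epsMap φ) z'
  have hbz : IsOpenImmersion bz.f := by
    change IsOpenImmersion (pullback.fst z.π (spMap (epsMap φ)))
    infer_instance
  let F : Arrow (RingHom.id _) (PBS.bc (epsMap φ) z) (PBS.bc (epsMap φ) z') :=
    arrowLift (castA (by rw [RingHom.comp_id, RingHom.id_comp]) (PBS.comp bz f)) bz'
  let F' : Arrow (RingHom.id _) (PBS.bc (epsMap φ) z) (PBS.bc (epsMap φ) z') :=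
    arrowLift (castA (by rw [RingHom.comp_id, RingHom.id_comp]) (PBS.comp bz f')) bz'
  have hF : F.f ≫ bz'.f = bz.f ≫ f.f := arrowLift_f _ _
  have hF' : F'.f ≫ bz'.f = bz.f ≫ f'.f := arrowLift_f _ _
  let d : Defo 1 (Wei (WZ c.a c.b)) := bcD c.e ⟨z, hz, r⟩
  let dr : Arrow (eps0 (Localization.Away f0)) (Wei (WZ c.a c.b)) (PBS.bc (epsMap φ) z) := d.r
  have hd : dr.f ≫ bz.f = c.e.f ≫ r.f := bcD_r c.e ⟨z, hz, r⟩
  have hdF : dr.f ≫ F.f = dr.f ≫ F'.f := by
    refine arrow_ext (PBS.comp dr F) (PBS.comp dr F') bz' ?_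
    change (dr.f ≫ F.f) ≫ bz'.f = (dr.f ≫ F'.f) ≫ bz'.f
    rw [Category.assoc, Category.assoc, hF, hF', reassoc_of% hd, reassoc_of% hd, hf]
  have hFF : F.f = F'.f :=
    RGD.local_thm hEXA (isUnit6_map φ h6) c.h (PBS.bc (epsMap φ) z) (PBS.bc (epsMap φ) z')
      d.stable dr F F' hdF
  have hmain : bz.f ≫ f.f = bz.f ≫ f'.f := by rw [← hF, ← hF', hFF]
  refine ⟨bz.f.opensRange, ?_, ?_⟩
  · have h1 : z.π y = spMap (epsMap φ) w := hw.symm
    obtain ⟨t, ht, -⟩ := Scheme.Pullback.exists_preimage_pullback (f := z.π)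
      (g := spMap (epsMap φ)) y w h1
    exact ⟨t, ht⟩
  · have e1 := Scheme.Hom.isoOpensRange_inv_comp bz.f
    have e2 : (bz.f.isoOpensRange.inv ≫ bz.f) ≫ f.f = (bz.f.isoOpensRange.inv ≫ bz.f) ≫ f'.f := by
      rw [Category.assoc, Category.assoc, hmain]
    rw [e1] at e2
    exact e2

end Pool.Agent.MG.WL


end

section

/-!
# The projection to `Perp P` (PERP1)
-/

namespace Pool.Agent.MG.G0

namespace PPR

section

variable {I A : Type} [Fintype I] [CommRing A]

theorem exists_dense {g : ℕ} {P : Subalgebra A (KK I A)} (hP : IsKr g P) :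
    ∃ N : ℕ, Dense P N := by
  classical
  obtain ⟨L, hL, hker⟩ := hP.k2
  choose v hv using fun j : Fin g => hL (Pi.single j 1)
  choose n hn using fun j : Fin g => exists_Pol (v j)
  refine ⟨Finset.univ.sup n, fun f => ?_⟩
  have h0 : L (f - ∑ j, L f j • v j) = 0 := by
    rw [map_sub, map_sum]
    simp only [map_smul, hv]
    rw [sub_eq_zero]
    funext k
    simp [Finset.sum_apply, Pi.single_apply]
  obtain ⟨p, hp, hfp⟩ := (hker _).1 h0
  refine ⟨p, hp, ?_⟩
  have h1 : f - p = (f - ∑ j, L f j • v j - p) + ∑ j, L f j • v j := by abel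
  rw [h1]
  refine add_mem (Pol_mono (by omega) hfp) (Submodule.sum_mem _ fun j _ =>
    Submodule.smul_mem _ _ (Pol_mono ?_ (hn j)))
  have : n j ≤ Finset.univ.sup n := Finset.le_sup (Finset.mem_univ j)
  omega

/-- The functional `f -> res ((x - res x κ₀) s f)`, linear in `x` and `f`. -/
noncomputable def fn (i₀ : I) (s : KK I A →ₗ[A] KK I A) :
    KK I A →ₗ[A] KK I A →ₗ[A] A :=
  LinearMap.mk₂ A (fun x f => res ((x - res x • mon i₀ (-1) 1) * s f))
    (fun x y f => by
      rw [← map_add, ← add_mul, map_add, add_smul]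
      congr 2
      abel)
    (fun c x f => by
      rw [← map_smul, ← smul_mul_assoc, map_smul, smul_sub, smul_assoc])
    (fun x f g => by rw [map_add, mul_add, map_add])
    (fun c x f => by rw [map_smul, mul_smul_comm, map_smul])

theorem fn_apply (i₀ : I) (s : KK I A →ₗ[A] KK I A) (x f : KK I A) :
    fn i₀ s x f = res ((x - res x • mon i₀ (-1) 1) * s f) := rfl

theorem res_mon (i : I) (a : A) : res (mon i (-1) a) = a := by
  have := res_mul_mon (1 : KK I A) i (-1) a
  rw [one_mul] at this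
  rw [this]
  simp

end

end PPR

open _root_.Pool.Agent.MG.G0.PPR in
theorem t_PPR (hKDU : Stmt_KDU) (hKSP : Stmt_KSP) : Stmt_PPR := by
  classical
  intro I A _ _ g P hP i₀
  haveI : Nonempty I := ⟨i₀⟩
  obtain ⟨N, hN⟩ := exists_dense hP
  obtain ⟨⟨s, hs, _⟩, _⟩ := (hKSP hP).2 N hN
  have hz : ∀ x : KK I A, ∀ f ∈ Pol I A (-0), fn i₀ s x f = 0 := by
    intro x f hf
    rw [neg_zero] at hf
    rw [fn_apply, hs.zero f hf, mul_zero, map_zero]
  choose E hE hEu using fun x : KK I A => hKDU 0 (fn i₀ s x) (hz x)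
  have hEl : ∃ E' : KK I A →ₗ[A] KK I A, ∀ x, E' x = E x := by
    refine ⟨{ toFun := E, map_add' := fun x y => ?_, map_smul' := fun c x => ?_ }, fun x => rfl⟩
    · refine (hEu (x + y) _ ⟨add_mem (hE x).1 (hE y).1, fun f => ?_⟩).symm
      rw [map_add (fn i₀ s), LinearMap.add_apply, (hE x).2 f, (hE y).2 f, add_mul,
        map_add (res (I := I) (A := A))]
    · refine (hEu (c • x) _ ⟨Submodule.smul_mem _ _ (hE x).1, fun f => ?_⟩).symm
      rw [map_smul (fn i₀ s), LinearMap.smul_apply, (hE x).2 f, RingHom.id_apply,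
        smul_mul_assoc, map_smul (res (I := I) (A := A))]
  obtain ⟨E', hE'⟩ := hEl
  have hq : ∃ q : KK I A →ₗ[A] KK I A, ∀ x, q x = x - res x • mon i₀ (-1) 1 - E x :=
    ⟨LinearMap.id - (res (I := I) (A := A)).smulRight (mon i₀ (-1) 1) - E', fun x => by
      rw [LinearMap.sub_apply, LinearMap.sub_apply, hE']; rfl⟩
  obtain ⟨q, hq⟩ := hq
  refine ⟨q, fun x p hp => ?_, fun x hx => ?_, fun x => ?_, fun n hn x hx => ?_⟩
  · obtain ⟨a, ha⟩ := hs.eq p hp
    have h1 : res ((x - res x • mon i₀ (-1) 1) * s p) = res (E x * p) := by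
      rw [← fn_apply]
      exact (hE x).2 p
    have h2 : res ((x - res x • mon i₀ (-1) 1) * algebraMap A (KK I A) a) = 0 := by
      rw [mul_comm, ← Algebra.smul_def, map_smul, map_sub, map_smul, res_mon, smul_eq_mul,
        smul_eq_mul, mul_one, sub_self, mul_zero]
    rw [hq, sub_mul, map_sub, ← h1, ha, mul_add, map_add, h2, add_zero, sub_self]
  · have hr : res x = 0 := by
      have := hx 1 (one_mem P)
      rwa [mul_one] at this
    have h0 : (0 : KK I A) = E x := by
      refine hEu x 0 ⟨zero_mem _, fun f => ?_⟩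
      rw [fn_apply, hr, zero_smul, sub_zero, zero_mul, map_zero]
      exact hx _ (hs.mem f)
    rw [hq, hr, zero_smul, sub_zero, ← h0, sub_zero]
  · have h1 : x - q x - mon i₀ (-1) (res x) = E x := by
      rw [hq, smul_mon, mul_one]
      abel
    rw [h1]
    exact (hE x).1
  · rw [hq]
    exact sub_mem (sub_mem hx (Submodule.smul_mem _ _ (mon_mem_Pol _ (by omega) _)))
      (Pol_mono (by omega) (hE x).1)

end Pool.Agent.MG.G0


end

section

/-!
# XAU: arrows for changes of the coordinates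
-/

open CategoryTheory CategoryTheory.Limits AlgebraicGeometry
open scoped TensorProduct

namespace Pool.Agent.MG.KX

open Pool.Agent.MG.G0 Pool.Agent.MG.GLU

namespace XAU_

variable {I A : Type} [CommRing A]

theorem psI_inj {f g : I → PowerSeries A} (h : psI I A f = psI I A g) : f = g := by
  funext i
  exact psl_inj (congrFun h i)

end XAU_

open _root_.Pool.Agent.MG.KX.XAU_ in
theorem t_XAU (hKPX : Stmt_KPX) (hMCA : Stmt_MCA) (hMIS : Stmt_MIS) (hMAU : Stmt_MAU)
    (_hMOC : Stmt_MOC) : Stmt_XAU := by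
  intro I A _ _ _ g n P p α p' hP hα hp z z'
  obtain ⟨M0, hM0⟩ := hMCA hP z p
  obtain ⟨N0, hN0⟩ := hMAU.1 α hα M0 p' hp
  have hP' : IsKr g (P.map (α : KK I A →ₐ[A] KK I A)) := t_KAU.1 P α hα hP
  obtain ⟨a, ha⟩ := hMIS hP' (hKPX p hP z).1 N0 z'
  refine ⟨a, fun M N M' hM hN hM' => ?_⟩
  have h := ha M' hM'
  have hj : N.j = N0.j := by
    rw [hN.j, hN0.j, hM.j, hM0.j]
  have hs : N.sh = N0.sh := by
    obtain ⟨ρ, hρ, hρ'⟩ := hN.sh
    obtain ⟨ρ0, hρ0, hρ0'⟩ := hN0.sh
    have e : ρ = ρ0 := RingHom.ext fun f => psI_inj ((hρ f).trans (hρ0 f).symm)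
    rw [hρ', hρ0', hM.sh, hM0.sh, e]
  refine ⟨h.mem, ?_, ?_⟩
  · rw [hj]
    exact h.j
  · rw [hs]
    exact h.sh

end Pool.Agent.MG.KX


end

section

/-!
# TNS: formal smoothness with an additional puncture
-/

namespace Pool.Agent.MG.G0

namespace TNS

/-- A localization of a formally smooth subalgebra. -/
theorem loc {κ R W : Type} [CommRing κ] [CommRing R] [CommRing W] [Algebra κ R] [Algebra κ W]
    (ι : R →ₐ[κ] W) (hι : Function.Injective ι) (s : R)
    (hs : ∀ w : W, ∃ (n : ℕ) (r : R), ι r = ι s ^ n * w)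
    (hR : Algebra.FormallySmooth κ R) : Algebra.FormallySmooth κ (Localization.Away (ι s)) := by
  let : Algebra R (Localization.Away (ι s)) :=
    ((algebraMap W (Localization.Away (ι s))).comp (ι : R →+* W)).toAlgebra
  have hmap : ∀ x : R, algebraMap R (Localization.Away (ι s)) x =
      algebraMap W (Localization.Away (ι s)) (ι x) := fun x => rfl
  have : IsScalarTower κ R (Localization.Away (ι s)) := IsScalarTower.of_algebraMap_eq fun x => by
    rw [hmap, AlgHom.commutes, ← IsScalarTower.algebraMap_apply]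
  have : IsLocalization.Away s (Localization.Away (ι s)) := by
    refine ⟨?_, ?_, ?_⟩
    · rintro ⟨x, n, rfl⟩
      change IsUnit (algebraMap R (Localization.Away (ι s)) (s ^ n))
      rw [hmap, map_pow, map_pow]
      exact (IsLocalization.Away.algebraMap_isUnit (ι s)).pow n
    · intro z
      obtain ⟨⟨w, y⟩, hz⟩ := IsLocalization.surj (Submonoid.powers (ι s)) z
      obtain ⟨m, hm⟩ := y.2
      obtain ⟨n, r, hr⟩ := hs w
      refine ⟨(r, ⟨s ^ (m + n), m + n, rfl⟩), ?_⟩
      change z * algebraMap R (Localization.Away (ι s)) (s ^ (m + n)) =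
        algebraMap R (Localization.Away (ι s)) r
      have hm' : ι s ^ m = (y : W) := hm
      rw [hmap, hmap, hr, map_pow, pow_add, map_mul, map_mul, hm', ← mul_assoc]
      change z * algebraMap W (Localization.Away (ι s)) (y : W) =
        algebraMap W (Localization.Away (ι s)) w at hz
      rw [hz, mul_comm]
    · intro x y hxy
      rw [hmap, hmap] at hxy
      obtain ⟨⟨c, n, hn⟩, hc⟩ := IsLocalization.exists_of_eq (M := Submonoid.powers (ι s)) hxy
      refine ⟨⟨s ^ n, n, rfl⟩, ?_⟩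
      change s ^ n * x = s ^ n * y
      apply hι
      have hn' : ι s ^ n = c := hn
      change c * ι x = c * ι y at hc
      rw [map_mul, map_mul, map_pow, hn', hc]
  have : Algebra.FormallySmooth R (Localization.Away (ι s)) :=
    Algebra.FormallySmooth.of_isLocalization (Submonoid.powers s)
  exact Algebra.FormallySmooth.comp κ R (Localization.Away (ι s))

/-- Formal smoothness is local. -/
theorem glue {κ W : Type} [CommRing κ] [CommRing W] [Algebra κ W]
    [Algebra.FinitePresentation κ W] {n : ℕ} (s a : Fin n → W) (h : ∑ k, a k * s k = 1)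
    (hs : ∀ k, Algebra.FormallySmooth κ (Localization.Away (s k))) :
    Algebra.FormallySmooth κ W := by
  rw [← Algebra.smoothLocus_eq_univ_iff, Set.eq_univ_iff_forall]
  intro q
  obtain ⟨k, hk⟩ : ∃ k, s k ∉ q.asIdeal := by
    by_contra hc
    push Not at hc
    apply q.isPrime.ne_top
    rw [Ideal.eq_top_iff_one, ← h]
    exact sum_mem fun k _ => Ideal.mul_mem_left _ _ (hc k)
  exact (Algebra.basicOpen_subset_smoothLocus_iff (f := s k)).2 (hs k) hk

theorem pow_low {A : Type} [CommRing A] {f : LaurentSeries A} (hf : ∀ m < 1, f.coeff m = 0)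
    (n : ℕ) : ∀ m < (n : ℤ), (f ^ n).coeff m = 0 := by
  induction n with
  | zero =>
    intro m hm
    rw [pow_zero, HahnSeries.coeff_one, if_neg (by push_cast at hm; omega)]
  | succ n ih =>
    intro m hm
    rw [pow_succ]
    exact mul_low ih hf m (by push_cast at hm; omega)

end TNS

/-- Formal smoothness with an additional puncture. -/
theorem t_TNS (h1 : Stmt_TEP) (h2 : Stmt_KFG) : Stmt_TNS := by
  intro I κ _ _ _ h W hW hD hS
  have := (h2 hW).1
  obtain ⟨ι, hinj, -, -, hsur, hM⟩ := h1 hW hD rfl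
  obtain ⟨n, s, a, hsum, hs⟩ := hM 1
  refine TNS.glue (fun k => ι (s k)) a hsum fun k => TNS.loc ι hinj (s k) (fun w => ?_) hS
  obtain ⟨N, hN⟩ := exists_low ((w : KK (I ⊕ Unit) κ) (Sum.inr ()))
  obtain ⟨r, hr⟩ := hsur (ι (s k) ^ N * w) fun m hm => by
    change (((ι (s k) : KK (I ⊕ Unit) κ) (Sum.inr ())) ^ N *
      (w : KK (I ⊕ Unit) κ) (Sum.inr ())).coeff m = 0
    exact mul_low (TNS.pow_low (hs k) N) hN m (by omega)
  exact ⟨N, r, hr⟩

end Pool.Agent.MG.G0


end

section

/-!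
# URG: the ultraproduct of special curves is a special curve (PAPER_V.md, URG)
-/

namespace Pool.Agent.MG.G0

namespace URG

variable (𝒰 : Ultrafilter ℕ) {k : ℕ → Type} [∀ n, Field (k n)]

theorem USer_lmap (f : LaurentSeries (∀ n, k n)) :
    USer 𝒰 (lmap (umk 𝒰) f) (fun n => lmap (Pi.evalRingHom k n) f) := by
  obtain ⟨N, hN⟩ := exists_low f
  refine ⟨⟨N, fun n m hm => ?_⟩, fun m => ?_⟩
  · rw [lmap_coeff, hN m hm, map_zero]
  · rw [lmap_coeff]
    rfl

theorem le_UP (R' : Subalgebra (∀ n, k n) (LaurentSeries (∀ n, k n)))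
    (R : ∀ n, Subalgebra (k n) (LaurentSeries (k n)))
    (h : ∀ n, bc1 (Pi.evalRingHom k n) R' = R n) : bc1 (umk 𝒰) R' ≤ UP 𝒰 R := by
  refine Algebra.adjoin_le ?_
  rintro _ ⟨f, hf, rfl⟩
  refine ⟨_, USer_lmap 𝒰 f, fun n => ?_⟩
  rw [← h n]
  exact Algebra.subset_adjoin ⟨f, hf, rfl⟩

end URG

theorem t_URG (hKEQ : Stmt_KEQ) (hUKR : Stmt_UKR) (hGRA : Stmt_GRA) : Stmt_URG := by
  intro 𝒰 k _ g ζ R hg hfac hR
  obtain ⟨h1, h2, h3⟩ := hGRA g hg
  have hu : IsUnit (((6 * g + 9).factorial : ℕ) : ∀ n, k n) := by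
    rw [Pi.isUnit_iff]
    intro n
    rw [Pi.natCast_apply]
    exact (hfac n).isUnit
  obtain ⟨R', hR'⟩ := h1 ζ hu
  have hb : ∀ n, bc1 (Pi.evalRingHom k n) R' = R n := fun n =>
    (h2 (ζ n) (R n) (hR n)).1 _ (h3 ζ R' hR' (Pi.evalRingHom k n))
  have hU : RG g (umk 𝒰 ζ) (bc1 (umk 𝒰) R') := h3 ζ R' hR' (umk 𝒰)
  have hK1 : Kr g (bc1 (umk 𝒰) R') := (h2 _ _ hU).2.1
  have hK2 : Kr g (UP 𝒰 R) := (hUKR 𝒰 R (by omega) fun n => (h2 _ _ (hR n)).2.1).1
  have hle : uno (bc1 (umk 𝒰) R') ≤ uno (UP 𝒰 R) := fun f hf => URG.le_UP 𝒰 R' R hb hf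
  have he := hKEQ hK1 hK2 hle
  have he' : bc1 (umk 𝒰) R' = UP 𝒰 R := by
    rw [← duo_uno (bc1 (umk 𝒰) R'), he, duo_uno]
  rw [← he']
  exact hU

end Pool.Agent.MG.G0


end
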