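import Mathlib
import Pool.Agent.KDM.C06
import Pool.Agent.KDM.C12
import Pool.Agent.KDM.C20
import Pool.Agent.KDM.C22
import Pool.Agent.KDM.C24
import Pool.Agent.KDM.C29
import Pool.Agent.KDM.C32
import Pool.Agent.KDM.C35
import Pool.Agent.KDM.C39
import Pool.Agent.KDM.C40

/-! Parts: MG.WL.CL.L1, MG.WL.CL.L2, MG.WL.CL.L, MG.H2.YPR, MG.KX.DPR, MG.G0.PL0, MG.G0.NPB, MG.G0.NPY -/

section

/-!
# Local rings of nodal curves: descent along flat unramified local homomorphisms
-/

open IsLocalRing TensorProduct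

namespace Pool.Agent.MG.WL.CL

section

variable {R S : Type} [CommRing R] [IsLocalRing R] [CommRing S] [IsLocalRing S] [Algebra R S]

theorem EU.inj (h : EU R S) : Function.Injective (algebraMap R S) := by
  rw [RingHom.injective_iff_ker_eq_bot]
  have := h.comap_map ⊥
  rw [Ideal.map_bot] at this
  exact this

theorem EU.noeth_down (h : EU R S) [IsNoetherianRing S] : IsNoetherianRing R := by
  have h1 : StrictMono (fun I : Ideal R => I.map (algebraMap R S)) := by
    refine Monotone.strictMono_of_injective (fun I J hIJ => Ideal.map_mono hIJ) ?_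
    intro I J hIJ
    rw [← h.comap_map I, ← h.comap_map J]
    exact congrArg _ hIJ
  have h2 : WellFoundedGT (Ideal S) := inferInstance
  have h3 : WellFoundedGT (Ideal R) := h1.wellFoundedGT
  exact isNoetherian_iff'.2 h3

/-- The quotient by an ideal of the source. -/
theorem EU.quot (h : EU R S) (I : Ideal R) [IsLocalRing (R ⧸ I)]
    [IsLocalRing (S ⧸ I.map (algebraMap R S))] :
    EU (R ⧸ I) (S ⧸ I.map (algebraMap R S)) := by
  have h1 := h.loc
  have h2 := h.flat
  have h3 := h.unr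
  have h4 := h.ess
  refine ⟨?_, ?_, ?_, ?_⟩
  · have h5 : (algebraMap (R ⧸ I) (S ⧸ I.map (algebraMap R S))).comp (Ideal.Quotient.mk I) =
        (Ideal.Quotient.mk (I.map (algebraMap R S))).comp (algebraMap R S) := by
      ext x
      rfl
    have h6 : IsLocalHom ((algebraMap (R ⧸ I) (S ⧸ I.map (algebraMap R S))).comp
        (Ideal.Quotient.mk I)) := by
      rw [h5]
      have : IsLocalHom (Ideal.Quotient.mk (I.map (algebraMap R S))) :=
        IsLocalHom.of_surjective _ Ideal.Quotient.mk_surjective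
      infer_instance
    constructor
    intro a ha
    obtain ⟨a, rfl⟩ := Ideal.Quotient.mk_surjective a
    exact (h6.map_nonunit a ha).map _
  · exact Module.Flat.of_linearEquiv
      (Algebra.TensorProduct.quotIdealMapEquivQuotTensor S I).toLinearEquiv
  · exact inferInstance
  · exact inferInstance

/-- The extension of a minimal prime. -/
theorem EU.map_min (h : EU R S) (hS : NodeLoc S) (P : Ideal R) (hP : P ∈ minimalPrimes R)
    (Q : Ideal S) (hQ : Q ∈ minimalPrimes S) (hQP : Q.comap (algebraMap R S) = P)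
    (huniq : ∀ Q' ∈ minimalPrimes S, Q'.comap (algebraMap R S) = P → Q' = Q) :
    P.map (algebraMap R S) = Q := by
  have hPp : P.IsPrime := hP.1.1
  have hQp : Q.IsPrime := hQ.1.1
  have hle : P.map (algebraMap R S) ≤ Q := by
    rw [Ideal.map_le_iff_le_comap, hQP]
  have hn : Nontrivial (R ⧸ P) := Ideal.Quotient.nontrivial_iff.2 hPp.ne_top
  have hn' : Nontrivial (S ⧸ P.map (algebraMap R S)) := Ideal.Quotient.nontrivial_iff.2
    (fun h1 => hQp.ne_top (top_le_iff.1 (h1 ▸ hle)))
  have h1 : IsLocalRing (R ⧸ P) := IsLocalRing.of_surjective' (Ideal.Quotient.mk P)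
    Ideal.Quotient.mk_surjective
  have h2 : IsLocalRing (S ⧸ P.map (algebraMap R S)) :=
    IsLocalRing.of_surjective' (Ideal.Quotient.mk _) Ideal.Quotient.mk_surjective
  have h3 : IsReduced (S ⧸ P.map (algebraMap R S)) := (h.quot P).red
  have h4 : (P.map (algebraMap R S)).IsRadical := by
    rw [Ideal.isRadical_iff_quotient_reduced]
    exact h3
  refine le_antisymm hle ?_
  rw [← h4.radical, Ideal.radical_eq_sInf]
  refine le_sInf ?_
  rintro J ⟨hJ, hJp⟩
  rcases hS.dim J hJp with hmin | hmax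
  · have h5 : J.comap (algebraMap R S) = P := by
      have h6 := h.min_comap J hmin
      have h7 : P ≤ J.comap (algebraMap R S) := by
        rw [← Ideal.map_le_iff_le_comap]
        exact hJ
      exact le_antisymm (h6.2 hP.1 h7) h7
    rw [huniq J hmin h5]
  · rw [hmax]
    exact le_maximalIdeal hQp.ne_top

/-- Descent. -/
theorem NodeLoc.down (h : EU R S) (hS : NodeLoc S) : NodeLoc R := by
  have hred := hS.red
  have hnoe := hS.noeth
  have hmin : ∀ P ∈ minimalPrimes R, ∃ Q ∈ minimalPrimes S, Q.comap (algebraMap R S) = P :=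
    h.exists_min
  refine ⟨isReduced_of_injective _ h.inj, h.noeth_down, ?_, ?_, ?_⟩
  · intro P hP
    obtain ⟨Q, hQ, hQP⟩ : ∃ Q : Ideal S, Q.IsPrime ∧ Q.comap (algebraMap R S) = P := by
      obtain ⟨Q, h1, -, h3⟩ := h.down P (maximalIdeal S) (by
        have := h.loc
        rw [((local_hom_TFAE (algebraMap R S)).out 0 4 rfl rfl).mp ‹_›]
        exact le_maximalIdeal hP.ne_top)
      exact ⟨Q, h1, h3⟩
    rcases hS.dim Q hQ with h1 | h1
    · left
      rw [← hQP]
      exact h.min_comap Q h1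
    · right
      have := h.loc
      rw [← hQP, h1]
      exact ((local_hom_TFAE (algebraMap R S)).out 0 4 rfl rfl).mp ‹_›
  · intro P₁ h₁ P₂ h₂ hne
    obtain ⟨Q₁, hQ₁, e₁⟩ := hmin P₁ h₁
    obtain ⟨Q₂, hQ₂, e₂⟩ := hmin P₂ h₂
    have hQ : Q₁ ≠ Q₂ := by
      rintro rfl
      exact hne (e₁.symm.trans e₂)
    have f₁ : P₁.map (algebraMap R S) = Q₁ := by
      refine h.map_min hS P₁ h₁ Q₁ hQ₁ e₁ fun Q' hQ' e' => ?_
      rcases hS.two Q₁ hQ₁ Q₂ hQ₂ hQ Q' hQ' with h3 | h3
      · exact h3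
      · exfalso
        rw [h3, e₂] at e'
        exact hne e'.symm
    have f₂ : P₂.map (algebraMap R S) = Q₂ := by
      refine h.map_min hS P₂ h₂ Q₂ hQ₂ e₂ fun Q' hQ' e' => ?_
      rcases hS.two Q₁ hQ₁ Q₂ hQ₂ hQ Q' hQ' with h3 | h3
      · exfalso
        rw [h3, e₁] at e'
        exact hne e'
      · exact h3
    rw [← h.comap_map (P₁ ⊔ P₂), Ideal.map_sup, f₁, f₂, hS.sum Q₁ hQ₁ Q₂ hQ₂ hQ]
    have := h.loc
    exact ((local_hom_TFAE (algebraMap R S)).out 0 4 rfl rfl).mp ‹_›
  · intro P₁ h₁ P₂ h₂ hne P₃ h₃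
    obtain ⟨Q₁, hQ₁, e₁⟩ := hmin P₁ h₁
    obtain ⟨Q₂, hQ₂, e₂⟩ := hmin P₂ h₂
    obtain ⟨Q₃, hQ₃, e₃⟩ := hmin P₃ h₃
    have hQ : Q₁ ≠ Q₂ := by
      rintro rfl
      exact hne (e₁.symm.trans e₂)
    rcases hS.two Q₁ hQ₁ Q₂ hQ₂ hQ Q₃ hQ₃ with h4 | h4
    · left
      rw [← e₃, h4, e₁]
    · right
      rw [← e₃, h4, e₂]

end

end Pool.Agent.MG.WL.CL


end

section

/-!
# Local rings which are flat and unramified over the local rings of the node
-/

open IsLocalRing TensorProduct

namespace Pool.Agent.MG.WL.CL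

section branch

variable {A D R : Type} [CommRing A] [CommRing D] [IsDomain D] [IsPrincipalIdealRing D]
  [CommRing R] [Algebra A R] (n : Ideal A) [n.IsPrime] [IsLocalization.AtPrime R n]
  (ν : A →+* D) (μ : D →+* A) (v : A)

/-- A branch of the node at a point of the branch. -/
theorem branch (h1 : ∀ d, ν (μ d) = d) (hv : ν v = 0) (h2 : ∀ a, ∃ w, a = μ (ν a) + v * w)
    (hvn : v ∈ n) :
    IsDomain (R ⧸ Ideal.span {algebraMap A R v}) ∧
      IsPrincipalIdealRing (R ⧸ Ideal.span {algebraMap A R v}) := by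
  set J : Ideal R := Ideal.span {algebraMap A R v} with hJ
  set ρ : D →+* R ⧸ J := (Ideal.Quotient.mk J).comp ((algebraMap A R).comp μ) with hρ
  have hnil : ∀ a : A, ν a = 0 → a ∈ n := by
    intro a ha
    obtain ⟨w, hw⟩ := h2 a
    rw [hw, ha, map_zero, zero_add]
    exact n.mul_mem_right _ hvn
  have hvJ : Ideal.Quotient.mk J (algebraMap A R v) = 0 := by
    rw [Ideal.Quotient.eq_zero_iff_mem]
    exact Ideal.subset_span rfl
  have hmk : ∀ a : A, Ideal.Quotient.mk J (algebraMap A R a) = ρ (ν a) := by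
    intro a
    obtain ⟨w, hw⟩ := h2 a
    conv_lhs => rw [hw]
    rw [map_add, map_mul, map_add, map_mul, hvJ, zero_mul, add_zero]
    rfl
  have hrep : ∀ b : R ⧸ J, ∃ (a : A) (s : (R ⧸ J)ˣ), (s : R ⧸ J) * b = ρ (ν a) := by
    intro b
    obtain ⟨r, rfl⟩ := Ideal.Quotient.mk_surjective b
    obtain ⟨⟨a, s⟩, hs⟩ := IsLocalization.surj n.primeCompl r
    have hu : IsUnit (Ideal.Quotient.mk J (algebraMap A R s)) :=
      (IsLocalization.map_units R s).map _
    refine ⟨a, hu.unit, ?_⟩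
    rw [IsUnit.unit_spec, ← hmk, ← map_mul, mul_comm, hs]
  have hinj : ∀ d : D, ρ d = 0 → d = 0 := by
    intro d hd
    have h3 : algebraMap A R (μ d) ∈ J := by
      rw [← Ideal.Quotient.eq_zero_iff_mem]
      exact hd
    rw [hJ, Ideal.mem_span_singleton] at h3
    obtain ⟨r, hr⟩ := h3
    obtain ⟨⟨w, t⟩, ht⟩ := IsLocalization.surj n.primeCompl r
    have h4 : algebraMap A R (t * μ d) = algebraMap A R (v * w) := by
      have ht' : r * algebraMap A R t = algebraMap A R w := ht
      rw [map_mul, map_mul, hr, ← ht']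
      ring
    obtain ⟨t', ht'⟩ := (IsLocalization.eq_iff_exists n.primeCompl R).1 h4
    have h5 := congrArg ν ht'
    rw [map_mul, map_mul, map_mul, map_mul, hv, zero_mul, mul_zero, h1, ← mul_assoc,
      ← map_mul] at h5
    rcases mul_eq_zero.1 h5 with h6 | h6
    · exfalso
      exact (n.primeCompl.mul_mem t'.2 t.2) (hnil _ h6)
    · exact h6
  have hJtop : J ≠ ⊤ := by
    intro htop
    have h3 : algebraMap A R v ∈ n.map (algebraMap A R) := Ideal.mem_map_of_mem _ hvn
    have h4 : (⊤ : Ideal R) ≤ n.map (algebraMap A R) := by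
      rw [← htop, hJ, Ideal.span_singleton_le_iff_mem]
      exact h3
    have h5 : (n.map (algebraMap A R)).comap (algebraMap A R) = n :=
      IsLocalization.comap_map_of_isPrime_disjoint n.primeCompl R ‹n.IsPrime›
        (by exact (Set.disjoint_left.2 fun x hx hx' => hx hx'))
    have h6 : (1 : A) ∈ n := by
      rw [← h5, Ideal.mem_comap]
      exact h4 trivial
    exact ‹n.IsPrime›.ne_top ((Ideal.eq_top_iff_one _).2 h6)
  have hnt : Nontrivial (R ⧸ J) := Ideal.Quotient.nontrivial_iff.2 hJtop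
  constructor
  · have hnz : NoZeroDivisors (R ⧸ J) := by
      refine ⟨fun {b b'} hbb => ?_⟩
      obtain ⟨a, s, hs⟩ := hrep b
      obtain ⟨a', s', hs'⟩ := hrep b'
      have h3 : ρ (ν a * ν a') = 0 := by
        rw [map_mul, ← hs, ← hs']
        calc (s : R ⧸ J) * b * (s' * b') = s * s' * (b * b') := by ring
          _ = 0 := by rw [hbb, mul_zero]
      rcases mul_eq_zero.1 (hinj _ h3) with h4 | h4
      · left
        rw [h4, map_zero] at hs
        exact (Units.mul_right_eq_zero s).1 hs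
      · right
        rw [h4, map_zero] at hs'
        exact (Units.mul_right_eq_zero s').1 hs'
    exact NoZeroDivisors.to_isDomain _
  · refine ⟨fun I => ?_⟩
    obtain ⟨g, hg⟩ := (IsPrincipalIdealRing.principal (I.comap ρ)).principal
    refine ⟨ρ g, le_antisymm ?_ ?_⟩
    · intro b hb
      obtain ⟨a, s, hs⟩ := hrep b
      have h3 : ν a ∈ I.comap ρ := by
        rw [Ideal.mem_comap, ← hs]
        exact I.mul_mem_left _ hb
      rw [hg, Ideal.submodule_span_eq, Ideal.mem_span_singleton] at h3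
      obtain ⟨e, he⟩ := h3
      rw [Ideal.submodule_span_eq, Ideal.mem_span_singleton]
      refine ⟨ρ e * ((s⁻¹ : (R ⧸ J)ˣ) : R ⧸ J), ?_⟩
      have h4 : b = ((s⁻¹ : (R ⧸ J)ˣ) : R ⧸ J) * (s * b) := by
        rw [← mul_assoc, Units.inv_mul, one_mul]
      rw [h4, hs, he, map_mul]
      ring
    · rw [Ideal.submodule_span_eq, Ideal.span_singleton_le_iff_mem]
      have : g ∈ I.comap ρ := by
        rw [hg]
        exact Submodule.mem_span_singleton_self g
      exact this

end branch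

section

variable {R S : Type} [CommRing R] [IsLocalRing R] [CommRing S] [IsLocalRing S] [Algebra R S]

theorem nodeLoc_of_dim (S : Type) [CommRing S] [IsLocalRing S] [IsDomain S] [IsNoetherianRing S]
    (h : ∀ Q : Ideal S, Q.IsPrime → Q = ⊥ ∨ Q = maximalIdeal S) : NodeLoc S := by
  have hm : minimalPrimes S = {⊥} := IsDomain.minimalPrimes_eq_singleton_bot _
  refine ⟨inferInstance, inferInstance, ?_, ?_, ?_⟩
  · intro P hP
    rcases h P hP with h1 | h1
    · left
      rw [hm]
      exact h1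
    · exact Or.inr h1
  · intro P₁ h₁ P₂ h₂ hne
    rw [hm] at h₁ h₂
    exact absurd ((show P₁ = ⊥ from h₁).trans (show P₂ = ⊥ from h₂).symm) hne
  · intro P₁ h₁ P₂ h₂ hne
    rw [hm] at h₁ h₂
    exact absurd ((show P₁ = ⊥ from h₁).trans (show P₂ = ⊥ from h₂).symm) hne

/-- Over a local principal ideal domain. -/
theorem EU.nodeLoc_of_pid (h : EU R S) [IsDomain R] [IsPrincipalIdealRing R] : NodeLoc S := by
  obtain ⟨⟨h1, h2⟩, -⟩ := h.pid
  have := h.noeth
  exact nodeLoc_of_dim S h2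

/-- Over the node. -/
theorem EU.nodeLoc_of_node (h : EU R S) [IsNoetherianRing R] (u v : R) (huv : u * v = 0)
    (hu : IsDomain (R ⧸ Ideal.span {u}) ∧ IsPrincipalIdealRing (R ⧸ Ideal.span {u}))
    (hv : IsDomain (R ⧸ Ideal.span {v}) ∧ IsPrincipalIdealRing (R ⧸ Ideal.span {v}))
    (hm : Ideal.span {u} ⊔ Ideal.span {v} = maximalIdeal R)
    (hreg : ∀ z, (u + v) * z = 0 → z = 0) : NodeLoc S := by
  have hflat := h.flat
  have hloc := h.loc
  have hnoe := h.noeth
  -- the quotients
  have key : ∀ w : R, IsDomain (R ⧸ Ideal.span {w}) ∧ IsPrincipalIdealRing (R ⧸ Ideal.span {w}) →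
      (Ideal.span {algebraMap R S w}).IsPrime ∧ ∀ Q : Ideal S, Q.IsPrime →
        Ideal.span {algebraMap R S w} ≤ Q → Q = Ideal.span {algebraMap R S w} ∨
          Q = maximalIdeal S := by
    rintro w ⟨hw1, hw2⟩
    have hmap : (Ideal.span {w}).map (algebraMap R S) = Ideal.span {algebraMap R S w} := by
      rw [Ideal.map_span, Set.image_singleton]
    have hle : Ideal.span {w} ≤ maximalIdeal R :=
      le_maximalIdeal (Ideal.Quotient.nontrivial_iff.1 inferInstance)
    have hle' : Ideal.span {algebraMap R S w} ≤ maximalIdeal S := by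
      rw [← hmap, Ideal.map_le_iff_le_comap]
      rw [((local_hom_TFAE (algebraMap R S)).out 0 4 rfl rfl).mp ‹_›]
      exact hle
    rw [← hmap] at hle' ⊢
    have hn' : Nontrivial (S ⧸ (Ideal.span {w}).map (algebraMap R S)) :=
      Ideal.Quotient.nontrivial_iff.2
        (fun h1 => (maximalIdeal.isMaximal S).ne_top (top_le_iff.1 (h1 ▸ hle')))
    have h1 : IsLocalRing (R ⧸ Ideal.span {w}) := IsLocalRing.of_surjective'
      (Ideal.Quotient.mk _) Ideal.Quotient.mk_surjective
    have h2 : IsLocalRing (S ⧸ (Ideal.span {w}).map (algebraMap R S)) :=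
      IsLocalRing.of_surjective' (Ideal.Quotient.mk _) Ideal.Quotient.mk_surjective
    obtain ⟨⟨h3, h4⟩, -⟩ := (h.quot (Ideal.span {w})).pid
    refine ⟨(Ideal.Quotient.isDomain_iff_prime _).1 h3, fun Q hQ hwQ => ?_⟩
    set K := (Ideal.span {w}).map (algebraMap R S) with hK
    have h5 : (Q.map (Ideal.Quotient.mk K)).IsPrime :=
      Ideal.map_isPrime_of_surjective Ideal.Quotient.mk_surjective (by rwa [Ideal.mk_ker])
    have h6 : (Q.map (Ideal.Quotient.mk K)).comap (Ideal.Quotient.mk K) = Q := by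
      rw [Ideal.comap_map_of_surjective _ Ideal.Quotient.mk_surjective,
        ← RingHom.ker_eq_comap_bot, Ideal.mk_ker, sup_eq_left]
      exact hwQ
    rcases h4 _ h5 with h7 | h7
    · left
      rw [← h6, h7, ← RingHom.ker_eq_comap_bot, Ideal.mk_ker]
    · right
      rw [← h6, h7]
      have : IsLocalHom (Ideal.Quotient.mk K) :=
        IsLocalHom.of_surjective _ Ideal.Quotient.mk_surjective
      exact ((local_hom_TFAE (Ideal.Quotient.mk K)).out 0 4 rfl rfl).mp this
  obtain ⟨hQu, hQu'⟩ := key u hu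
  obtain ⟨hQv, hQv'⟩ := key v hv
  set Qu := Ideal.span {algebraMap R S u} with hQudef
  set Qv := Ideal.span {algebraMap R S v} with hQvdef
  have huvS : algebraMap R S u * algebraMap R S v = 0 := by rw [← map_mul, huv, map_zero]
  have hregS : ∀ z, algebraMap R S (u + v) * z = 0 → z = 0 := by
    have h1 : IsSMulRegular R (u + v) := by
      intro a b hab
      have h2 : (u + v) * (a - b) = 0 := by
        have : (u + v) * a = (u + v) * b := hab
        rw [mul_sub, this, sub_self]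
      exact sub_eq_zero.1 (hreg _ h2)
    have h2 : IsSMulRegular S (u + v) := by
      have := h1.of_flat (S := S)
      intro a b hab
      apply this
      change algebraMap R S (u + v) * a = algebraMap R S (u + v) * b
      rw [← Algebra.smul_def, ← Algebra.smul_def]
      exact hab
    intro z hz
    apply h2
    change (u + v) • z = (u + v) • (0 : S)
    rw [Algebra.smul_def, hz, smul_zero]
  have hinf : ∀ x, x ∈ Qu → x ∈ Qv → x = 0 := by
    intro x hx hx'
    rw [hQudef, Ideal.mem_span_singleton] at hx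
    rw [hQvdef, Ideal.mem_span_singleton] at hx'
    obtain ⟨a, ha⟩ := hx
    obtain ⟨b, hb⟩ := hx'
    apply hregS
    rw [map_add, add_mul]
    nth_rewrite 1 [hb]
    rw [ha]
    linear_combination (a + b) * huvS
  have hor : ∀ Q : Ideal S, Q.IsPrime → Qu ≤ Q ∨ Qv ≤ Q := by
    intro Q hQ
    have : algebraMap R S u * algebraMap R S v ∈ Q := by
      rw [huvS]
      exact Q.zero_mem
    rcases hQ.mem_or_mem this with h1 | h1
    · left
      rw [hQudef, Ideal.span_singleton_le_iff_mem]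
      exact h1
    · right
      rw [hQvdef, Ideal.span_singleton_le_iff_mem]
      exact h1
  have hmin : ∀ Q ∈ minimalPrimes S, Q = Qu ∨ Q = Qv := by
    intro Q hQ
    rcases hor Q hQ.1.1 with h1 | h1
    · left
      exact le_antisymm (hQ.2 ⟨hQu, bot_le⟩ h1) h1
    · right
      exact le_antisymm (hQ.2 ⟨hQv, bot_le⟩ h1) h1
  have hsum : Qu ⊔ Qv = maximalIdeal S := by
    rw [← h.map_max, ← hm, Ideal.map_sup, Ideal.map_span, Ideal.map_span, Set.image_singleton,
      Set.image_singleton]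
  refine ⟨?_, hnoe, ?_, ?_, ?_⟩
  · refine ⟨fun x hx => ?_⟩
    obtain ⟨n, hn⟩ := hx
    refine hinf x (hQu.mem_of_pow_mem n ?_) (hQv.mem_of_pow_mem n ?_)
    · rw [hn]
      exact Qu.zero_mem
    · rw [hn]
      exact Qv.zero_mem
  · intro Q hQ
    by_cases hQm : Q = maximalIdeal S
    · exact Or.inr hQm
    left
    obtain ⟨Q', hQ', hle⟩ := Ideal.exists_minimalPrimes_le (I := (⊥ : Ideal S)) (J := Q) bot_le
    have : Q = Q' := by
      rcases hmin Q' hQ' with h1 | h1
      · rcases hQu' Q hQ (h1 ▸ hle) with h2 | h2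
        · rw [h2, h1]
        · exact absurd h2 hQm
      · rcases hQv' Q hQ (h1 ▸ hle) with h2 | h2
        · rw [h2, h1]
        · exact absurd h2 hQm
    rw [this]
    exact hQ'
  · intro P₁ h₁ P₂ h₂ hne
    rcases hmin P₁ h₁ with e₁ | e₁ <;> rcases hmin P₂ h₂ with e₂ | e₂
    · exact absurd (e₁.trans e₂.symm) hne
    · rw [e₁, e₂, hsum]
    · rw [e₁, e₂, sup_comm, hsum]
    · exact absurd (e₁.trans e₂.symm) hne
  · intro P₁ h₁ P₂ h₂ hne P₃ h₃
    rcases hmin P₁ h₁ with e₁ | e₁ <;> rcases hmin P₂ h₂ with e₂ | e₂ <;>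
      rcases hmin P₃ h₃ with e₃ | e₃
    · exact Or.inl (e₃.trans e₁.symm)
    · exact absurd (e₁.trans e₂.symm) hne
    · exact Or.inl (e₃.trans e₁.symm)
    · exact Or.inr (e₃.trans e₂.symm)
    · exact Or.inr (e₃.trans e₂.symm)
    · exact Or.inl (e₃.trans e₁.symm)
    · exact absurd (e₁.trans e₂.symm) hne
    · exact Or.inl (e₃.trans e₁.symm)

end

end Pool.Agent.MG.WL.CL


end

section

/-!
# Local rings of nodal curves
-/

open CategoryTheory AlgebraicGeometry IsLocalRing TensorProduct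

namespace Pool.Agent.MG.WL.CL

namespace L_

open NOD

theorem eu_stalk {U X : Scheme.{0}} (f : U ⟶ X) [Etale f] (u : U) :
    @EU (X.presheaf.stalk (f u)) (U.presheaf.stalk u) _ _ _ _ (f.stalkMap u).hom.toAlgebra := by
  algebraize [(f.stalkMap u).hom]
  refine ⟨?_, ?_, ?_, ?_⟩
  · exact inferInstanceAs (IsLocalHom (f.stalkMap u).hom)
  · exact Flat.stalkMap f u
  · exact FormallyUnramified.stalkMap f u
  · exact LocallyOfFiniteType.stalkMap f u

variable {k : Type} [Field k]

/-- The local ring of the node. -/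
theorem node_cases {R : Type} [CommRing R] [IsLocalRing R] [Algebra (NodeRing k) R]
    (n : Ideal (NodeRing k)) [hn : n.IsPrime] [IsLocalization.AtPrime R n] :
    (IsDomain R ∧ IsPrincipalIdealRing R) ∨
    (uu k ∈ n ∧ vv k ∈ n ∧
      (IsDomain (R ⧸ Ideal.span {algebraMap (NodeRing k) R (uu k)}) ∧
        IsPrincipalIdealRing (R ⧸ Ideal.span {algebraMap (NodeRing k) R (uu k)})) ∧
      (IsDomain (R ⧸ Ideal.span {algebraMap (NodeRing k) R (vv k)}) ∧
        IsPrincipalIdealRing (R ⧸ Ideal.span {algebraMap (NodeRing k) R (vv k)}))) := by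
  have hv : vv k ∈ n → (IsDomain (R ⧸ Ideal.span {algebraMap (NodeRing k) R (vv k)}) ∧
        IsPrincipalIdealRing (R ⧸ Ideal.span {algebraMap (NodeRing k) R (vv k)})) := by
    intro hvn
    refine branch n (nu k 0).toRingHom (mu k 0).toRingHom (vv k) (fun d => nu_mu k 0 d)
      (nu_vv k 0) (fun a => SmNod.exists_vv_mul k a) hvn
  have hu : uu k ∈ n → (IsDomain (R ⧸ Ideal.span {algebraMap (NodeRing k) R (uu k)}) ∧
        IsPrincipalIdealRing (R ⧸ Ideal.span {algebraMap (NodeRing k) R (uu k)})) := by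
    intro hun
    refine branch n ((nu k 0).toRingHom.comp (SmNod.sw k).toRingHom)
      ((SmNod.sw k).toRingHom.comp (mu k 0).toRingHom) (uu k) (fun d => ?_) ?_ (fun a => ?_) hun
    · change nu k 0 (SmNod.sw k (SmNod.sw k (mu k 0 d))) = d
      rw [SmNod.sw_sw, nu_mu]
    · change nu k 0 (SmNod.sw k (uu k)) = 0
      rw [SmNod.sw_uu, nu_vv]
    · obtain ⟨w, hw⟩ := SmNod.exists_vv_mul k (SmNod.sw k a)
      refine ⟨SmNod.sw k w, ?_⟩
      change a = SmNod.sw k (mu k 0 (nu k 0 (SmNod.sw k a))) + uu k * SmNod.sw k w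
      conv_lhs => rw [← SmNod.sw_sw k a, hw]
      rw [map_add, map_mul, SmNod.sw_vv]
  have key : ∀ w w' : NodeRing k, w * w' = 0 → w' ∉ n →
      (IsDomain (R ⧸ Ideal.span {algebraMap (NodeRing k) R w}) ∧
        IsPrincipalIdealRing (R ⧸ Ideal.span {algebraMap (NodeRing k) R w})) →
      IsDomain R ∧ IsPrincipalIdealRing R := by
    intro w w' hww hw' h
    have h1 : IsUnit (algebraMap (NodeRing k) R w') :=
      IsLocalization.map_units R (⟨w', hw'⟩ : n.primeCompl)
    have h2 : algebraMap (NodeRing k) R w = 0 := by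
      apply h1.mul_left_eq_zero.1
      rw [← map_mul, hww, map_zero]
    rw [h2] at h
    have h3 : Ideal.span {(0 : R)} = ⊥ := by simp
    rw [h3] at h
    have e : (R ⧸ (⊥ : Ideal R)) ≃+* R := RingEquiv.quotientBot R
    obtain ⟨h4, h5⟩ := h
    exact ⟨e.symm.toMulEquiv.isDomain _, IsPrincipalIdealRing.of_surjective e.toRingHom e.surjective⟩
  have huv : uu k * vv k = 0 := uu_vv k
  by_cases h1 : uu k ∈ n
  · by_cases h2 : vv k ∈ n
    · exact Or.inr ⟨h1, h2, hu h1, hv h2⟩
    · exact Or.inl (key _ _ huv h2 (hu h1))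
  · have h2 : vv k ∈ n := by
      have : uu k * vv k ∈ n := by
        rw [huv]
        exact n.zero_mem
      exact (hn.mem_or_mem this).resolve_left h1
    exact Or.inl (key _ _ (by rw [mul_comm, huv]) h1 (hv h2))

theorem span_max (n : Ideal (NodeRing k)) [hn : n.IsPrime] (hu : uu k ∈ n) (hv : vv k ∈ n) :
    n = Ideal.span {uu k} ⊔ Ideal.span {vv k} := by
  refine le_antisymm ?_ ?_
  · intro a ha
    obtain ⟨w, hw⟩ := SmNod.exists_vv_mul k a
    have h1 : mu k 0 (nu k 0 a) ∈ n := by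
      have : mu k 0 (nu k 0 a) = a - vv k * w := by
        conv_rhs => rw [hw]
        ring
      rw [this]
      exact n.sub_mem ha (n.mul_mem_right _ hv)
    have h2 : ∀ p : Polynomial k, ∃ e, mu k 0 p = algebraMap k _ (p.coeff 0) + uu k * e := by
      intro p
      refine ⟨mu k 0 p.divX, ?_⟩
      conv_lhs => rw [← Polynomial.divX_mul_X_add p]
      rw [map_add, map_mul, ← Polynomial.algebraMap_eq, AlgHom.commutes]
      have : mu k 0 Polynomial.X = uu k := by
        have := mu_nu_uu k 0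
        rw [nu_uu] at this
        rw [map_zero, add_zero] at this
        exact this
      rw [this]
      ring
    obtain ⟨e, he⟩ := h2 (nu k 0 a)
    have h3 : algebraMap k (NodeRing k) ((nu k 0 a).coeff 0) ∈ n := by
      have : algebraMap k (NodeRing k) ((nu k 0 a).coeff 0) = mu k 0 (nu k 0 a) - uu k * e := by
        rw [he]
        ring
      rw [this]
      exact n.sub_mem h1 (n.mul_mem_right _ hu)
    have h4 : (nu k 0 a).coeff 0 = 0 := by
      by_contra hne
      have h5 : IsUnit (algebraMap k (NodeRing k) ((nu k 0 a).coeff 0)) :=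
        (IsUnit.mk0 _ hne).map _
      exact hn.ne_top (Ideal.eq_top_of_isUnit_mem _ h3 h5)
    rw [hw, he, h4, map_zero, zero_add]
    refine Ideal.add_mem _ ?_ ?_
    · exact Ideal.mem_sup_left (Ideal.mem_span_singleton.2 ⟨e, rfl⟩)
    · exact Ideal.mem_sup_right (Ideal.mem_span_singleton.2 ⟨w, rfl⟩)
  · rw [sup_le_iff, Ideal.span_singleton_le_iff_mem, Ideal.span_singleton_le_iff_mem]
    exact ⟨hu, hv⟩

/-- Local rings over the local rings of the node. -/
theorem nodeLoc_over {R S : Type} [CommRing R] [IsLocalRing R] [CommRing S] [IsLocalRing S]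
    [Algebra R S] [Algebra (NodeRing k) R] (n : Ideal (NodeRing k)) [hn : n.IsPrime]
    [IsLocalization.AtPrime R n] (h : EU R S) : NodeLoc S := by
  have hnoeN : IsNoetherianRing (NodeRing k) := inferInstance
  have hnoe : IsNoetherianRing R := IsLocalization.isNoetherianRing n.primeCompl R hnoeN
  rcases node_cases (R := R) n with ⟨h1, h2⟩ | ⟨hun, hvn, hu, hv⟩
  · exact h.nodeLoc_of_pid
  · refine h.nodeLoc_of_node (algebraMap _ R (uu k)) (algebraMap _ R (vv k)) ?_ hu hv ?_ ?_
    · rw [← map_mul, uu_vv, map_zero]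
    · have h1 : n.map (algebraMap (NodeRing k) R) = maximalIdeal R :=
        IsLocalization.AtPrime.map_eq_maximalIdeal n R
      rw [← h1]
      conv_rhs => rw [span_max n hun hvn]
      rw [Ideal.map_sup, Ideal.map_span, Ideal.map_span, Set.image_singleton, Set.image_singleton]
    · intro z hz
      obtain ⟨⟨a, s⟩, hs⟩ := IsLocalization.surj n.primeCompl z
      have hs' : z * algebraMap _ R (s : NodeRing k) = algebraMap _ R a := hs
      have h2 : algebraMap (NodeRing k) R ((uu k + vv k) * a) = 0 := by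
        rw [map_mul, map_add, ← hs']
        linear_combination algebraMap _ R (s : NodeRing k) * hz
      obtain ⟨t, ht⟩ := (IsLocalization.map_eq_zero_iff n.primeCompl R _).1 h2
      have h3 : (t : NodeRing k) * a = 0 := by
        apply SmNod.regular
        linear_combination ht
      have h4 : algebraMap (NodeRing k) R a = 0 :=
        (IsLocalization.map_eq_zero_iff n.primeCompl R _).2 ⟨t, h3⟩
      rw [h4] at hs'
      exact (IsLocalization.map_units R s).mul_left_eq_zero.1 hs'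

theorem exists_alg (A : CommRingCat.{0}) (y : Spec A) :
    ∃ alg : Algebra A ((Spec A).presheaf.stalk y),
      @IsLocalization.AtPrime A _ ((Spec A).presheaf.stalk y) _ alg y.asIdeal _ :=
  ⟨StructureSheaf.stalkAlgebra A y, StructureSheaf.IsLocalization.to_stalk A y⟩

theorem nodeLoc_stalk {U : Scheme.{0}} (h : U ⟶ Sp (NodeRing k)) [Etale h] (u : U) :
    NodeLoc (U.presheaf.stalk u) := by
  obtain ⟨alg, hloc⟩ := exists_alg (CommRingCat.of (NodeRing k)) (h u)
  let a2 : Algebra ((Sp (NodeRing k)).presheaf.stalk (h u)) (U.presheaf.stalk u) :=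
    (h.stalkMap u).hom.toAlgebra
  let a3 : Algebra (NodeRing k) ((Sp (NodeRing k)).presheaf.stalk (h u)) := alg
  have hp : (h u : PrimeSpectrum (NodeRing k)).asIdeal.IsPrime := (h u).2
  have hl : @IsLocalization.AtPrime (NodeRing k) _ ((Sp (NodeRing k)).presheaf.stalk (h u)) _ a3
    (h u : PrimeSpectrum (NodeRing k)).asIdeal hp := hloc
  exact nodeLoc_over (R := (Sp (NodeRing k)).presheaf.stalk (h u))
    (h u : PrimeSpectrum (NodeRing k)).asIdeal (eu_stalk h u)

end L_

open _root_.Pool.Agent.MG.WL.CL.L_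

theorem t_L : Stmt_L := by
  intro k _ X π hπ x
  obtain ⟨U, f, h, hf, hh, -, u, rfl⟩ := hπ x
  let _ := (f.stalkMap u).hom.toAlgebra
  exact NodeLoc.down (eu_stalk f u) (nodeLoc_stalk h u)

end Pool.Agent.MG.WL.CL


end

section

/-!
# The family `YX B p t` is proper, flat and of finite presentation
-/

open CategoryTheory CategoryTheory.Limits AlgebraicGeometry TensorProduct IsLocalRing

namespace Pool.Agent.MG.H2

namespace YPR

variable (B : Type) [CommRing B] (p : Fin 7 → B) (t : B)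

/-- The cover by the three charts. -/
noncomputable def U : Fin 3 → (YX B p t).Opens :=
  ![(YX.inT B p t).opensRange, (YX.inN B p t).opensRange, (YX.inQ B p t).opensRange]

theorem U_top : ⨆ i, U B p t i = ⊤ := by
  refine top_unique fun x _ => ?_
  rw [TopologicalSpace.Opens.mem_iSup]
  rcases YX.surj3 x with h | h | h
  · exact ⟨0, h⟩
  · exact ⟨1, h⟩
  · exact ⟨2, h⟩

theorem loc_one (P : MorphismProperty Scheme.{0}) [IsZariskiLocalAtSource P] {Z : Scheme.{0}}
    (i : Z ⟶ YX B p t) [IsOpenImmersion i] (h : P (i ≫ YX.pr B p t)) :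
    P (i.opensRange.ι ≫ YX.pr B p t) := by
  rw [← IsOpenImmersion.isoOfRangeEq_inv_fac i (Scheme.Opens.ι _)
    (congr_arg TopologicalSpace.Opens.carrier i.opensRange.opensRange_ι.symm),
    Category.assoc, P.cancel_left_of_respectsIso]
  exact h

theorem loc3 (P : MorphismProperty Scheme.{0}) [IsZariskiLocalAtSource P]
    (hT : P (spMap (algebraMap B (TT B p t)))) (hN : P (spMap (algebraMap B (NN B p t))))
    (hQ : P (spMap (algebraMap B (QQ B p t)))) : P (YX.pr B p t) := by
  refine IsZariskiLocalAtSource.of_iSup_eq_top (U B p t) (U_top B p t) ?_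
  intro i
  fin_cases i
  · refine loc_one B p t P (YX.inT B p t) ?_
    rw [YX.inT_pr]
    exact hT
  · refine loc_one B p t P (YX.inN B p t) ?_
    rw [YX.inN_pr]
    exact hN
  · refine loc_one B p t P (YX.inQ B p t) ?_
    rw [YX.inQ_pr]
    exact hQ

theorem cptT : IsCompact (Set.range (YX.inT B p t)) := isCompact_range (YX.inT B p t).continuous

theorem cptN : IsCompact (Set.range (YX.inN B p t)) := isCompact_range (YX.inN B p t).continuous

theorem cptQ : IsCompact (Set.range (YX.inQ B p t)) := isCompact_range (YX.inQ B p t).continuous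

theorem cpt : CompactSpace (YX B p t) := by
  constructor
  have h : (Set.univ : Set (YX B p t)) = Set.range (YX.inT B p t) ∪
      (Set.range (YX.inN B p t) ∪ Set.range (YX.inQ B p t)) := by
    ext x
    simp only [Set.mem_univ, Set.mem_union, true_iff]
    exact YX.surj3 x
  rw [h]
  exact (cptT B p t).union ((cptN B p t).union (cptQ B p t))

theorem cptNT : IsCompact (Set.range (YX.inN B p t) ∩ Set.range (YX.inT B p t)) := by
  have h : Set.range (YX.inN B p t) ∩ Set.range (YX.inT B p t) =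
      Set.range (spMap (nT B p t) ≫ YX.inN B p t) := by
    ext x
    constructor
    · rintro ⟨⟨a, rfl⟩, ⟨b, hb⟩⟩
      obtain ⟨w, h1, _⟩ := YX.meetNT a b hb.symm
      exact ⟨w, by rw [Scheme.Hom.comp_apply, h1]⟩
    · rintro ⟨w, rfl⟩
      refine ⟨⟨spMap (nT B p t) w, by rw [Scheme.Hom.comp_apply]⟩, ⟨spMap (tT B p t) w, ?_⟩⟩
      rw [YX.condT, Scheme.Hom.comp_apply]
  rw [h]
  exact isCompact_range (spMap (nT B p t) ≫ YX.inN B p t).continuous

theorem cptNQ : IsCompact (Set.range (YX.inN B p t) ∩ Set.range (YX.inQ B p t)) := by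
  have h : Set.range (YX.inN B p t) ∩ Set.range (YX.inQ B p t) =
      Set.range (spMap (nQ B p t) ≫ YX.inN B p t) := by
    ext x
    constructor
    · rintro ⟨⟨a, rfl⟩, ⟨b, hb⟩⟩
      obtain ⟨w, h1, _⟩ := YX.meetNQ a b hb.symm
      exact ⟨w, by rw [Scheme.Hom.comp_apply, h1]⟩
    · rintro ⟨w, rfl⟩
      refine ⟨⟨spMap (nQ B p t) w, by rw [Scheme.Hom.comp_apply]⟩, ⟨spMap (qQ B p t) w, ?_⟩⟩
      rw [YX.condQ, Scheme.Hom.comp_apply]
  rw [h]
  exact isCompact_range (spMap (nQ B p t) ≫ YX.inN B p t).continuous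

theorem cptTQ : IsCompact (Set.range (YX.inT B p t) ∩ Set.range (YX.inQ B p t)) := by
  have h : Set.range (YX.inT B p t) ∩ Set.range (YX.inQ B p t) =
      YX.inN B p t '' {a : Sp (NN B p t) | xN B p t * zN B p t ∉ a.asIdeal} := by
    ext x
    constructor
    · rintro ⟨⟨a, rfl⟩, ⟨b, hb⟩⟩
      obtain ⟨w, w', h1, _, h3⟩ := YX.meetTQ a b hb.symm
      refine ⟨spMap (nT B p t) w, ?_, ?_⟩
      · have h4 := (range_nT B p t (spMap (nT B p t) w)).1 ⟨w, rfl⟩
        have h5 := (range_nQ B p t (spMap (nT B p t) w)).1 ⟨w', h3.symm⟩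
        change xN B p t * zN B p t ∉ (spMap (nT B p t) w).asIdeal
        intro h6
        rcases (spMap (nT B p t) w).isPrime.mem_or_mem h6 with h7 | h7
        · exact h4 h7
        · exact h5 h7
      · rw [← Scheme.Hom.comp_apply, YX.condT, Scheme.Hom.comp_apply, h1]
    · rintro ⟨a, ha, rfl⟩
      have ha' : xN B p t * zN B p t ∉ a.asIdeal := ha
      have h4 : xN B p t ∉ a.asIdeal := fun h => ha' (Ideal.mul_mem_right _ _ h)
      have h5 : zN B p t ∉ a.asIdeal := fun h => ha' (Ideal.mul_mem_left _ _ h)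
      obtain ⟨w, rfl⟩ := (range_nT B p t a).2 h4
      obtain ⟨w', hw'⟩ := (range_nQ B p t _).2 h5
      refine ⟨⟨spMap (tT B p t) w, ?_⟩, ⟨spMap (qQ B p t) w', ?_⟩⟩
      · rw [← Scheme.Hom.comp_apply, ← YX.condT, Scheme.Hom.comp_apply]
      · rw [← hw', ← Scheme.Hom.comp_apply, ← YX.condQ, Scheme.Hom.comp_apply]
  have hc : IsCompact {a : Sp (NN B p t) | xN B p t * zN B p t ∉ a.asIdeal} :=
    PrimeSpectrum.isCompact_basicOpen (xN B p t * zN B p t)
  rw [h]
  exact hc.image (YX.inN B p t).continuous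

theorem qsep : QuasiSeparatedSpace (YX B p t) := by
  refine Scheme.quasiSeparatedSpace_of_isOpenCover (U B p t) (U_top B p t) ?_ ?_
  · intro i
    fin_cases i
    · exact isAffineOpen_opensRange (YX.inT B p t)
    · exact isAffineOpen_opensRange (YX.inN B p t)
    · exact isAffineOpen_opensRange (YX.inQ B p t)
  · intro i j
    fin_cases i <;> fin_cases j
    · change IsCompact (Set.range (YX.inT B p t) ∩ Set.range (YX.inT B p t))
      rw [Set.inter_self]
      exact cptT B p t
    · change IsCompact (Set.range (YX.inT B p t) ∩ Set.range (YX.inN B p t))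
      rw [Set.inter_comm]
      exact cptNT B p t
    · exact cptTQ B p t
    · exact cptNT B p t
    · change IsCompact (Set.range (YX.inN B p t) ∩ Set.range (YX.inN B p t))
      rw [Set.inter_self]
      exact cptN B p t
    · exact cptNQ B p t
    · change IsCompact (Set.range (YX.inQ B p t) ∩ Set.range (YX.inT B p t))
      rw [Set.inter_comm]
      exact cptTQ B p t
    · change IsCompact (Set.range (YX.inQ B p t) ∩ Set.range (YX.inN B p t))
      rw [Set.inter_comm]
      exact cptNQ B p t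
    · change IsCompact (Set.range (YX.inQ B p t) ∩ Set.range (YX.inQ B p t))
      rw [Set.inter_self]
      exact cptQ B p t

theorem valu (hVE : Stmt_YVE) (hVU : Stmt_YVU) : ValuativeCriterion (YX.pr B p t) := by
  rw [ValuativeCriterion.iff]
  constructor
  · intro S
    obtain ⟨l, e1, e2⟩ := hVE p t (R := S.R) (K := S.K) S.i₁ S.i₂ S.commSq.w
    exact ⟨⟨l, e1, e2⟩⟩
  · intro S
    constructor
    intro l l'
    exact CommSq.LiftStruct.ext (hVU p t (R := S.R) (K := S.K) l.l l'.l
      (l.fac_right.trans l'.fac_right.symm) (l.fac_left.trans l'.fac_left.symm))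

end YPR

/-- **YPR**: the family is proper, flat and of finite presentation. -/
theorem t_YPR (hVE : Stmt_YVE) (hVU : Stmt_YVU) (hFP : Stmt_YFP) : Stmt_YPR := by
  intro B _ p t
  obtain ⟨⟨n1, n2⟩, hA⟩ := hFP B p t
  have h1 : Flat (YX.pr B p t) := by
    refine YPR.loc3 B p t @Flat ?_ ?_ ?_
    · rw [Flat.SpecMap_iff]
      exact (hA (pT p t)).1
    · rw [Flat.SpecMap_iff]
      exact n1
    · rw [Flat.SpecMap_iff]
      exact (hA (pT (rev p) t)).1
  have h2 : LocallyOfFinitePresentation (YX.pr B p t) := by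
    refine YPR.loc3 B p t @LocallyOfFinitePresentation ?_ ?_ ?_
    · rw [LocallyOfFinitePresentation.SpecMap_iff]
      exact (hA (pT p t)).2
    · rw [LocallyOfFinitePresentation.SpecMap_iff]
      exact n2
    · rw [LocallyOfFinitePresentation.SpecMap_iff]
      exact (hA (pT (rev p) t)).2
  have h3 : QuasiCompact (YX.pr B p t) := HasAffineProperty.iff_of_isAffine.mpr (YPR.cpt B p t)
  have h4 : QuasiSeparated (YX.pr B p t) :=
    HasAffineProperty.iff_of_isAffine.mpr (YPR.qsep B p t)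
  exact ⟨IsProper.of_valuativeCriterion _ (YPR.valu B p t hVE hVU), h1, h2⟩

end Pool.Agent.MG.H2


end

section

/-!
# DPR: properness of a scheme with two affine charts
-/

open CategoryTheory CategoryTheory.Limits AlgebraicGeometry TensorProduct IsLocalRing

namespace Pool.Agent.MG.KX

namespace DPR

section sch

variable {A : Type} [CommRing A] (D : Duo A)

theorem loc2 (P : MorphismProperty Scheme.{0}) [IsZariskiLocalAtSource P]
    (h1 : P (spMap (algebraMap A D.R1))) (h2 : P (spMap (algebraMap A D.R2))) : P D.pr := by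
  refine IsZariskiLocalAtSource.of_iSup_eq_top
    (fun i : Bool => if i then D.in1.opensRange else D.in2.opensRange) ?_ ?_
  · rw [iSup_bool_eq]
    exact glue2_range (spMap (D.j1 : D.R1 →+* D.R12)) (spMap (D.j2 : D.R2 →+* D.R12))
  · intro i
    cases i
    · change P (D.in2.opensRange.ι ≫ D.pr)
      rw [← IsOpenImmersion.isoOfRangeEq_inv_fac D.in2 (Scheme.Opens.ι _)
        (congr_arg TopologicalSpace.Opens.carrier D.in2.opensRange.opensRange_ι.symm),
        Category.assoc, P.cancel_left_of_respectsIso, D.in2_pr]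
      exact h2
    · change P (D.in1.opensRange.ι ≫ D.pr)
      rw [← IsOpenImmersion.isoOfRangeEq_inv_fac D.in1 (Scheme.Opens.ι _)
        (congr_arg TopologicalSpace.Opens.carrier D.in1.opensRange.opensRange_ι.symm),
        Category.assoc, P.cancel_left_of_respectsIso, D.in1_pr]
      exact h1

theorem cpt : CompactSpace D.X := by
  constructor
  have h : (Set.univ : Set D.X) = Set.range D.in1 ∪ Set.range D.in2 := by
    ext x
    simp only [Set.mem_univ, Set.mem_union, true_iff]
    exact D.cov x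
  rw [h]
  exact (isCompact_range D.in1.continuous).union (isCompact_range D.in2.continuous)

theorem inter : (D.in1.opensRange : Set D.X) ∩ D.in2.opensRange =
    Set.range (spMap (D.j1 : D.R1 →+* D.R12) ≫ D.in1) := by
  have h := congrArg (fun U : D.X.Opens => (U : Set D.X))
    (glue2_inter (spMap (D.j1 : D.R1 →+* D.R12)) (spMap (D.j2 : D.R2 →+* D.R12)))
  exact h

theorem qsep : QuasiSeparatedSpace D.X := by
  refine Scheme.quasiSeparatedSpace_of_isOpenCover
    (fun i : Bool => if i then D.in1.opensRange else D.in2.opensRange) ?_ ?_ ?_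
  · change iSup _ = _
    rw [iSup_bool_eq]
    exact glue2_range (spMap (D.j1 : D.R1 →+* D.R12)) (spMap (D.j2 : D.R2 →+* D.R12))
  · intro i
    cases i
    · exact isAffineOpen_opensRange D.in2
    · exact isAffineOpen_opensRange D.in1
  · have hc : IsCompact (Set.range (spMap (D.j1 : D.R1 →+* D.R12) ≫ D.in1)) :=
      isCompact_range (spMap (D.j1 : D.R1 →+* D.R12) ≫ D.in1).continuous
    intro i j
    cases i <;> cases j
    · change IsCompact ((D.in2.opensRange : Set D.X) ∩ D.in2.opensRange)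
      rw [Set.inter_self]
      exact isCompact_range D.in2.continuous
    · change IsCompact ((D.in2.opensRange : Set D.X) ∩ D.in1.opensRange)
      rw [Set.inter_comm, inter]
      exact hc
    · change IsCompact ((D.in1.opensRange : Set D.X) ∩ D.in2.opensRange)
      rw [inter]
      exact hc
    · change IsCompact ((D.in1.opensRange : Set D.X) ∩ D.in1.opensRange)
      rw [Set.inter_self]
      exact isCompact_range D.in1.continuous

/-! ## Points with values in local rings -/

theorem mem_of_closed {X : Scheme.{0}} {R : Type} [CommRing R] [IsLocalRing R]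
    (l : Sp R ⟶ X) (V : X.Opens) (h : l (closedPoint R) ∈ V) (y : Sp R) : l y ∈ V :=
  ((specializes_closedPoint (R := R) y).map l.continuous).mem_open V.isOpen h

variable {D}

theorem fac {R : Type} [CommRing R] [IsLocalRing R] (l : Sp R ⟶ D.X) :
    (∃ h : D.R1 →+* R, l = spMap h ≫ D.in1) ∨ (∃ h : D.R2 →+* R, l = spMap h ≫ D.in2) := by
  rcases D.cov (l (closedPoint R)) with h | h
  · left
    have hr : Set.range l ⊆ Set.range D.in1 := by
      rintro _ ⟨y, rfl⟩
      exact mem_of_closed l D.in1.opensRange h y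
    obtain ⟨φ, hφ⟩ := Spec.map_surjective (IsOpenImmersion.lift D.in1 l hr)
    refine ⟨φ.hom, ?_⟩
    have h2 : spMap φ.hom = IsOpenImmersion.lift D.in1 l hr := hφ
    rw [h2, IsOpenImmersion.lift_fac]
  · right
    have hr : Set.range l ⊆ Set.range D.in2 := by
      rintro _ ⟨y, rfl⟩
      exact mem_of_closed l D.in2.opensRange h y
    obtain ⟨φ, hφ⟩ := Spec.map_surjective (IsOpenImmersion.lift D.in2 l hr)
    refine ⟨φ.hom, ?_⟩
    have h2 : spMap φ.hom = IsOpenImmersion.lift D.in2 l hr := hφ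
    rw [h2, IsOpenImmersion.lift_fac]

theorem spMap_inj {B C : Type} [CommRing B] [CommRing C] {φ ψ : B →+* C}
    (h : spMap φ = spMap ψ) : φ = ψ := by
  have h2 := Spec.map_injective h
  exact congrArg CommRingCat.Hom.hom h2

theorem swap {R : Type} [CommRing R] (h : D.R12 →+* R) :
    spMap (h.comp (D.j1 : D.R1 →+* D.R12)) ≫ D.in1 =
      spMap (h.comp (D.j2 : D.R2 →+* D.R12)) ≫ D.in2 := by
  rw [← spMap_comp'', ← spMap_comp'', Category.assoc, Category.assoc, D.cond]

/-- Extension to the intersection. -/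
theorem ext1 {R : Type} [CommRing R] (h : D.R1 →+* R) (hz : IsUnit (h D.z)) :
    ∃ h12 : D.R12 →+* R, h12.comp (D.j1 : D.R1 →+* D.R12) = h := by
  let _ := (D.j1 : D.R1 →+* D.R12).toAlgebra
  have := away_of (D.j1 : D.R1 →+* D.R12) D.z D.unit1 D.ker1 D.sur1
  refine ⟨IsLocalization.Away.lift (S := D.R12) D.z hz, ?_⟩
  exact RingHom.ext fun v => IsLocalization.Away.lift_eq (S := D.R12) D.z hz v

/-- Extension to the intersection. -/
theorem ext2 {R : Type} [CommRing R] (h : D.R2 →+* R) (hz : IsUnit (h D.w)) :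
    ∃ h12 : D.R12 →+* R, h12.comp (D.j2 : D.R2 →+* D.R12) = h := by
  let _ := (D.j2 : D.R2 →+* D.R12).toAlgebra
  have := away_of (D.j2 : D.R2 →+* D.R12) D.w D.unit2 D.ker2 D.sur2
  refine ⟨IsLocalization.Away.lift (S := D.R12) D.w hz, ?_⟩
  exact RingHom.ext fun v => IsLocalization.Away.lift_eq (S := D.R12) D.w hz v

section uniq

variable {R K : Type} [CommRing R] [IsLocalRing R] [Field K] [Algebra R K]
  (hinj : Function.Injective (algebraMap R K))

include hinj in
omit [IsLocalRing R] in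
theorem cancel_inj {B : Type} [CommRing B] {h h' : B →+* R}
    (H : spMap (algebraMap R K) ≫ spMap h = spMap (algebraMap R K) ≫ spMap h') : h = h' := by
  rw [spMap_comp'', spMap_comp''] at H
  have h2 := spMap_inj H
  ext v
  exact hinj (RingHom.congr_fun h2 v)

include hinj in
omit [IsLocalRing R] in
theorem mixed (h : D.R1 →+* R) (h' : D.R2 →+* R)
    (H : spMap (algebraMap R K) ≫ spMap h ≫ D.in1 =
      spMap (algebraMap R K) ≫ spMap h' ≫ D.in2) :
    spMap h ≫ D.in1 = spMap h' ≫ D.in2 := by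
  have hp := glue2_isPullback (spMap (D.j1 : D.R1 →+* D.R12)) (spMap (D.j2 : D.R2 →+* D.R12))
  have H' : (spMap (algebraMap R K) ≫ spMap h) ≫ D.in1 =
      (spMap (algebraMap R K) ≫ spMap h') ≫ D.in2 := by
    rw [Category.assoc, Category.assoc, H]
  obtain ⟨m, hm⟩ := Spec.map_surjective (hp.lift _ _ H')
  have hm1 : spMap m.hom ≫ spMap (D.j1 : D.R1 →+* D.R12) =
      spMap (algebraMap R K) ≫ spMap h := by
    have : spMap m.hom = hp.lift _ _ H' := hm
    rw [this]
    exact hp.lift_fst _ _ H'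
  have hm2 : spMap m.hom ≫ spMap (D.j2 : D.R2 →+* D.R12) =
      spMap (algebraMap R K) ≫ spMap h' := by
    have : spMap m.hom = hp.lift _ _ H' := hm
    rw [this]
    exact hp.lift_snd _ _ H'
  rw [spMap_comp'', spMap_comp''] at hm1 hm2
  have e1 : m.hom (D.j1 D.z) = algebraMap R K (h D.z) :=
    RingHom.congr_fun (spMap_inj hm1) D.z
  have e2 : m.hom (D.j2 D.w) = algebraMap R K (h' D.w) :=
    RingHom.congr_fun (spMap_inj hm2) D.w
  have h3 := congrArg m.hom D.zw
  rw [map_mul, map_one] at h3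
  have h4 : h D.z * h' D.w = 1 := hinj (by rw [map_mul, map_one, ← e1, ← e2]; exact h3)
  have h5 : IsUnit (h' D.w) := IsUnit.of_mul_eq_one (h D.z) ((mul_comm _ _).trans h4)
  obtain ⟨h12, hh⟩ := ext2 h' h5
  rw [← hh, ← swap]
  congr 2
  refine cancel_inj hinj ?_
  rw [← cancel_mono D.in1, Category.assoc, Category.assoc, H, swap, hh]

include hinj in
theorem uniq (l l' : Sp R ⟶ D.X)
    (H : spMap (algebraMap R K) ≫ l = spMap (algebraMap R K) ≫ l') : l = l' := by
  rcases fac l with ⟨h, rfl⟩ | ⟨h, rfl⟩ <;> rcases fac l' with ⟨h', rfl⟩ | ⟨h', rfl⟩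
  · congr 2
    refine cancel_inj hinj ?_
    rw [← cancel_mono D.in1, Category.assoc, Category.assoc, H]
  · exact mixed hinj h h' H
  · exact (mixed hinj h' h H.symm).symm
  · congr 2
    refine cancel_inj hinj ?_
    rw [← cancel_mono D.in2, Category.assoc, Category.assoc, H]

end uniq

/-! ## Points with values in valuation rings -/

/-- A homomorphism with values in the image of a subring. -/
theorem lift_of {S R K : Type} [CommRing S] [CommRing R] [CommRing K] [Algebra R K]
    (hinj : Function.Injective (algebraMap R K)) (h : S →+* K)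
    (H : ∀ r, ∃ y, algebraMap R K y = h r) : ∃ h' : S →+* R, (algebraMap R K).comp h' = h := by
  choose f hf using H
  refine ⟨{ toFun := f, map_one' := ?_, map_zero' := ?_, map_mul' := ?_, map_add' := ?_ }, ?_⟩
  · exact hinj (by rw [hf, map_one, map_one])
  · intro x y
    exact hinj (by rw [hf, map_mul, map_mul, hf, hf])
  · exact hinj (by rw [hf, map_zero, map_zero])
  · intro x y
    exact hinj (by rw [hf, map_add, map_add, hf, hf])
  · exact RingHom.ext hf

section val

variable {R K : Type} [CommRing R] [IsDomain R] [ValuationRing R] [Field K] [Algebra R K]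
  [IsFractionRing R K]

/-- If `S` is integral over `A[z]` and `h z` is in `R` then `h` has values in `R`. -/
theorem lift_int {S : Type} [CommRing S] [Algebra A S] (z : S)
    (hS : ∀ r : S, ((Polynomial.aeval z : Polynomial A →ₐ[A] S) :
      Polynomial A →+* S).IsIntegralElem r) (β : A →+* R) (h : S →+* K)
    (hβ : h.comp (algebraMap A S) = (algebraMap R K).comp β) (s : R)
    (hs : algebraMap R K s = h z) :
    ∃ h' : S →+* R, (algebraMap R K).comp h' = h ∧ h'.comp (algebraMap A S) = β := by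
  have hinj := IsFractionRing.injective R K
  have key : h.comp ((Polynomial.aeval z : Polynomial A →ₐ[A] S) : Polynomial A →+* S) =
      (algebraMap R K).comp (Polynomial.eval₂RingHom β s) := by
    refine Polynomial.ringHom_ext (fun a => ?_) ?_
    · have h1 := RingHom.congr_fun hβ a
      simp only [RingHom.comp_apply] at h1
      simp [h1]
    · simp [hs]
  have H : ∀ r, ∃ y, algebraMap R K y = h r := by
    intro r
    obtain ⟨p, hp, hr⟩ := hS r
    have h2 : IsIntegral R (h r) := by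
      refine ⟨p.map (Polynomial.eval₂RingHom β s), hp.map _, ?_⟩
      rw [Polynomial.eval₂_map, ← key, ← Polynomial.hom_eval₂, hr, map_zero]
    exact IsIntegrallyClosed.algebraMap_eq_of_integral h2
  obtain ⟨h', hh⟩ := lift_of hinj h H
  refine ⟨h', hh, RingHom.ext fun a => hinj ?_⟩
  have h3 := RingHom.congr_fun hβ a
  rw [← hh] at h3
  exact h3

variable (H1 : ∀ r : D.R1, ((Polynomial.aeval D.z : Polynomial A →ₐ[A] D.R1) :
      Polynomial A →+* D.R1).IsIntegralElem r)
    (H2 : ∀ r : D.R2, ((Polynomial.aeval D.w : Polynomial A →ₐ[A] D.R2) :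
      Polynomial A →+* D.R2).IsIntegralElem r)

include H1 H2

/-- The existence part of the valuative criterion, first chart. -/
theorem exA (β : A →+* R) (h : D.R1 →+* K)
    (hβ : h.comp (algebraMap A D.R1) = (algebraMap R K).comp β) :
    ∃ l : Sp R ⟶ D.X, spMap (algebraMap R K) ≫ l = spMap h ≫ D.in1 ∧ l ≫ D.pr = spMap β := by
  by_cases hz : ∃ s : R, algebraMap R K s = h D.z
  · obtain ⟨s, hs⟩ := hz
    obtain ⟨h', e1, e2⟩ := lift_int D.z H1 β h hβ s hs
    refine ⟨spMap h' ≫ D.in1, ?_, ?_⟩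
    · rw [← Category.assoc, spMap_comp'', e1]
    · rw [Category.assoc, D.in1_pr, spMap_comp'', e2]
  · obtain ⟨s, hs⟩ : ∃ s : R, algebraMap R K s = (h D.z)⁻¹ := by
      rcases ValuationRing.isInteger_or_isInteger R (h D.z) with ⟨s, hs⟩ | ⟨s, hs⟩
      · exact absurd ⟨s, hs⟩ hz
      · exact ⟨s, hs⟩
    have hz0 : h D.z ≠ 0 := fun h0 => hz ⟨0, by rw [h0, map_zero]⟩
    obtain ⟨h12, hh⟩ := ext1 h (IsUnit.mk0 _ hz0)
    have hw : algebraMap R K s = (h12.comp (D.j2 : D.R2 →+* D.R12)) D.w := by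
      have h1 := congrArg h12 D.zw
      rw [map_mul, map_one] at h1
      have h2 : h12 (D.j1 D.z) = h D.z := RingHom.congr_fun hh D.z
      rw [h2] at h1
      rw [hs]
      exact (eq_inv_of_mul_eq_one_right h1).symm
    have hβ' : (h12.comp (D.j2 : D.R2 →+* D.R12)).comp (algebraMap A D.R2) =
        (algebraMap R K).comp β := by
      rw [← hβ, ← hh, RingHom.comp_assoc, RingHom.comp_assoc]
      congr 1
      refine RingHom.ext fun a => ?_
      exact (D.j2.commutes a).trans (D.j1.commutes a).symm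
    obtain ⟨h', e1, e2⟩ := lift_int D.w H2 β _ hβ' s hw
    refine ⟨spMap h' ≫ D.in2, ?_, ?_⟩
    · rw [← Category.assoc, spMap_comp'', e1, ← swap, hh]
    · rw [Category.assoc, D.in2_pr, spMap_comp'', e2]

/-- The existence part of the valuative criterion, second chart. -/
theorem exB (β : A →+* R) (h : D.R2 →+* K)
    (hβ : h.comp (algebraMap A D.R2) = (algebraMap R K).comp β) :
    ∃ l : Sp R ⟶ D.X, spMap (algebraMap R K) ≫ l = spMap h ≫ D.in2 ∧ l ≫ D.pr = spMap β := by
  by_cases hz : h D.w = 0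
  · obtain ⟨h', e1, e2⟩ := lift_int D.w H2 β h hβ 0 (by rw [hz, map_zero])
    refine ⟨spMap h' ≫ D.in2, ?_, ?_⟩
    · rw [← Category.assoc, spMap_comp'', e1]
    · rw [Category.assoc, D.in2_pr, spMap_comp'', e2]
  · obtain ⟨h12, hh⟩ := ext2 h (IsUnit.mk0 _ hz)
    have hβ' : (h12.comp (D.j1 : D.R1 →+* D.R12)).comp (algebraMap A D.R1) =
        (algebraMap R K).comp β := by
      rw [← hβ, ← hh, RingHom.comp_assoc, RingHom.comp_assoc]
      congr 1
      refine RingHom.ext fun a => ?_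
      exact (D.j1.commutes a).trans (D.j2.commutes a).symm
    obtain ⟨l, e1, e2⟩ := exA H1 H2 β (h12.comp (D.j1 : D.R1 →+* D.R12)) hβ'
    refine ⟨l, ?_, e2⟩
    rw [e1, swap, hh]

omit [CommRing R] [IsDomain R] [ValuationRing R] [Field K] [Algebra R K] [IsFractionRing R K] in
theorem valu : ValuativeCriterion D.pr := by
  rw [ValuativeCriterion.iff]
  constructor
  · intro S
    obtain ⟨β, hβ⟩ := Spec.map_surjective S.i₂
    have hβ' : spMap β.hom = S.i₂ := hβ
    have hw := S.commSq.w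
    rcases fac S.i₁ with ⟨h, hh⟩ | ⟨h, hh⟩
    · have h1 : h.comp (algebraMap A _) = (algebraMap S.R S.K).comp β.hom := by
        apply spMap_inj
        rw [hh, Category.assoc, D.in1_pr, ← hβ'] at hw
        exact (spMap_comp'' _ _).symm.trans (hw.trans (spMap_comp'' _ _))
      obtain ⟨l, e1, e2⟩ := exA H1 H2 β.hom h h1
      exact ⟨⟨l, e1.trans hh.symm, e2.trans hβ'⟩⟩
    · have h1 : h.comp (algebraMap A _) = (algebraMap S.R S.K).comp β.hom := by
        apply spMap_inj
        rw [hh, Category.assoc, D.in2_pr, ← hβ'] at hw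
        exact (spMap_comp'' _ _).symm.trans (hw.trans (spMap_comp'' _ _))
      obtain ⟨l, e1, e2⟩ := exB H1 H2 β.hom h h1
      exact ⟨⟨l, e1.trans hh.symm, e2.trans hβ'⟩⟩
  · intro S
    constructor
    intro l l'
    have h := uniq (D := D) (IsFractionRing.injective S.R S.K) l.l l'.l
      (l.fac_left.trans l'.fac_left.symm)
    exact CommSq.LiftStruct.ext h

end val

end sch

end DPR

/-- **DPR**: a duo is proper if the charts are integral over `A[z]`, `A[w]`, and of finite
type. -/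
theorem t_DPR : Stmt_DPR := by
  intro A _ D f1 f2 H1 H2
  have h2 : LocallyOfFiniteType D.pr := by
    refine DPR.loc2 D @LocallyOfFiniteType ?_ ?_
    · change LocallyOfFiniteType (Spec.map (CommRingCat.ofHom (algebraMap A D.R1)))
      rw [HasRingHomProperty.Spec_iff (P := @LocallyOfFiniteType)]
      exact (RingHom.finiteType_algebraMap).2 f1
    · change LocallyOfFiniteType (Spec.map (CommRingCat.ofHom (algebraMap A D.R2)))
      rw [HasRingHomProperty.Spec_iff (P := @LocallyOfFiniteType)]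
      exact (RingHom.finiteType_algebraMap).2 f2
  have h3 : QuasiCompact D.pr := HasAffineProperty.iff_of_isAffine.mpr (DPR.cpt D)
  have h4 : QuasiSeparated D.pr := HasAffineProperty.iff_of_isAffine.mpr (DPR.qsep D)
  exact IsProper.of_valuativeCriterion _ (DPR.valu H1 H2)

end Pool.Agent.MG.KX


end

section

/-!
# PL0: the functions on the annulus `u v = t`
-/

namespace Pool.Agent.MG.G0

namespace PL0

variable {A : Type} [CommRing A] {t : A}

theorem uv_self (t : A) (b : Bool) : uv t b b = HahnSeries.single 1 1 := if_pos rfl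

theorem uv_not (t : A) (b : Bool) : uv t b (!b) = HahnSeries.single (-1) t :=
  if_neg (by cases b <;> decide)

theorem uv_pow_self (t : A) (b : Bool) (j : ℕ) :
    (uv t b ^ j) b = HahnSeries.single (j : ℤ) 1 := by
  have h : j • (1 : ℤ) = (j : ℤ) := by rw [nsmul_eq_mul, mul_one]
  rw [Pi.pow_apply, uv_self, HahnSeries.single_pow, one_pow, h]

theorem uv_pow_not (t : A) (b : Bool) (j : ℕ) :
    (uv t b ^ j) (!b) = HahnSeries.single (-(j : ℤ)) (t ^ j) := by
  have h : j • (-1 : ℤ) = -(j : ℤ) := by rw [nsmul_eq_mul, mul_neg, mul_one]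
  rw [Pi.pow_apply, uv_not, HahnSeries.single_pow, h]

theorem eq_or_not (b c : Bool) : c = b ∨ c = !b := by
  cases b <;> cases c <;> simp

theorem uv_mem (t : A) (b : Bool) : uv t b ∈ Nt t := by
  intro c j
  rcases eq_or_not b c with rfl | rfl
  · rw [uv_self, uv_not, HahnSeries.coeff_single_of_ne (by omega),
      HahnSeries.coeff_single_of_ne (by omega), mul_zero]
  · rw [Bool.not_not, uv_self, uv_not]
    by_cases h : j = 1
    · subst h
      rw [Nat.cast_one, HahnSeries.coeff_single_same, HahnSeries.coeff_single_same, pow_one,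
        mul_one]
    · rw [HahnSeries.coeff_single_of_ne (by omega), HahnSeries.coeff_single_of_ne (by omega),
        mul_zero]

theorem nt_zero {F : KK Bool A} (hF : F ∈ Nt t) (b : Bool) :
    (F (!b)).coeff 0 = (F b).coeff 0 := by
  have h := hF (!b) 0
  rw [Bool.not_not, pow_zero, one_mul, Nat.cast_zero, neg_zero] at h
  exact h

theorem nt_neg {F : KK Bool A} (hF : F ∈ Nt t) (b : Bool) {n : ℤ} {j : ℕ} (h : n = -(j : ℤ)) :
    (F b).coeff n = t ^ j * (F (!b)).coeff j := by
  rw [h]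
  exact hF b j

theorem nt_ext {F F' : KK Bool A} (hF : F ∈ Nt t) (hF' : F' ∈ Nt t)
    (h : ∀ (b : Bool) (j : ℕ), (F b).coeff j = (F' b).coeff j) : F = F' := by
  funext b
  ext n
  rcases le_total 0 n with hn | hn
  · obtain ⟨j, rfl⟩ := Int.eq_ofNat_of_zero_le hn
    exact h b j
  · obtain ⟨j, hj⟩ := Int.eq_ofNat_of_zero_le (neg_nonneg.2 hn)
    have h1 : n = -(j : ℤ) := by omega
    rw [nt_neg hF b h1, nt_neg hF' b h1, h]

/-- The function on the annulus with given coefficients. -/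
theorem exists_nt {N : ℕ} (hN : t ^ N = 0) (a : Bool → ℕ → A) (ha : ∀ b, a b 0 = a (!b) 0) :
    ∃ F : KK Bool A, F ∈ Nt t ∧ ∀ (b : Bool) (j : ℕ), (F b).coeff j = a b j := by
  refine ⟨fun b => ⟨fun m => if m < -(N : ℤ) then 0 else
    if 0 ≤ m then a b m.toNat else t ^ (-m).toNat * a (!b) (-m).toNat, ?_⟩, ?_, ?_⟩
  · refine Set.IsPWO.mono (t := Set.Ici (-(N : ℤ))) ?_ fun m hm => ?_
    · exact (BddBelow.isWF ⟨_, fun _ h => h⟩).isPWO
    · by_contra h
      rw [Set.mem_Ici, not_le] at h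
      exact hm (if_pos h)
  · intro b j
    change (if -(j : ℤ) < -(N : ℤ) then 0 else if 0 ≤ -(j : ℤ) then a b (-(j : ℤ)).toNat else
      t ^ (-(-(j : ℤ))).toNat * a (!b) (-(-(j : ℤ))).toNat) = t ^ j *
      (if (j : ℤ) < -(N : ℤ) then 0 else if 0 ≤ (j : ℤ) then a (!b) (j : ℤ).toNat else
      t ^ (-(j : ℤ)).toNat * a (!!b) (-(j : ℤ)).toNat)
    rw [if_neg (show ¬ (j : ℤ) < -(N : ℤ) by omega), if_pos (show (0 : ℤ) ≤ j by omega),
      Int.toNat_natCast, neg_neg, Int.toNat_natCast]
    split_ifs with h1 h2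
    · have h3 : N ≤ j := by omega
      rw [pow_eq_zero_of_le h3 hN, zero_mul]
    · have h3 : j = 0 := by omega
      subst h3
      rw [pow_zero, one_mul, ← ha]
      rfl
    · rfl
  · intro b j
    change (if (j : ℤ) < -(N : ℤ) then 0 else if 0 ≤ (j : ℤ) then a b (j : ℤ).toNat else
      t ^ (-(j : ℤ)).toNat * a (!b) (-(j : ℤ)).toNat) = a b j
    rw [if_neg (by omega), if_pos (by omega), Int.toNat_natCast]

/-! ### Derivatives -/

theorem exists_pd {N : ℕ} (hN : t ^ N = 0) (F : KK Bool A) (b : Bool) : ∃ G, IsPd t b F G := by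
  obtain ⟨G, hG, h⟩ := exists_nt hN (fun c m => if c = b then (m + 1 : A) * (F b).coeff (m + 1)
    else if m = 0 then (F b).coeff 1 else 0) (by
      intro c
      cases b <;> cases c <;> simp)
  refine ⟨G, hG, fun m => ?_, fun m hm => ?_⟩
  · rw [h, if_pos rfl]
  · rw [h, if_neg (by cases b <;> decide), if_neg (by omega)]

theorem pd_unique {F G G' : KK Bool A} {b : Bool} (h : IsPd t b F G) (h' : IsPd t b F G') :
    G = G' := by
  refine nt_ext h.mem h'.mem fun c j => ?_
  rcases eq_or_not b c with rfl | rfl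
  · rw [h.pos, h'.pos]
  · rcases Nat.eq_zero_or_pos j with rfl | hj
    · rw [Nat.cast_zero, nt_zero h.mem, nt_zero h'.mem]
      have h1 := h.pos 0
      have h2 := h'.pos 0
      rw [Nat.cast_zero (R := ℤ)] at h1 h2
      rw [h1, h2]
    · rw [h.neg j hj, h'.neg j hj]

theorem pd_add {F G F' G' : KK Bool A} {b : Bool} (h : IsPd t b F G) (h' : IsPd t b F' G') :
    IsPd t b (F + F') (G + G') := by
  refine ⟨add_mem h.mem h'.mem, fun m => ?_, fun m hm => ?_⟩
  · rw [Pi.add_apply, Pi.add_apply, HahnSeries.coeff_add, HahnSeries.coeff_add, h.pos, h'.pos,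
      mul_add]
  · rw [Pi.add_apply, HahnSeries.coeff_add, h.neg m hm, h'.neg m hm, add_zero]

theorem pd_smul {F G : KK Bool A} {b : Bool} (a : A) (h : IsPd t b F G) :
    IsPd t b (a • F) (a • G) := by
  refine ⟨(Nt t).smul_mem h.mem a, fun m => ?_, fun m hm => ?_⟩
  · rw [Pi.smul_apply, Pi.smul_apply, HahnSeries.coeff_smul, HahnSeries.coeff_smul, h.pos,
      smul_eq_mul, smul_eq_mul]
    ring
  · rw [Pi.smul_apply, HahnSeries.coeff_smul, h.neg m hm, smul_zero]

theorem pd_pow_self (t : A) (b : Bool) (j : ℕ) :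
    IsPd t b (uv t b ^ j) ((j : A) • uv t b ^ (j - 1)) := by
  refine ⟨(Nt t).smul_mem (pow_mem (uv_mem t b) _) _, fun m => ?_, fun m hm => ?_⟩
  · rw [Pi.smul_apply, HahnSeries.coeff_smul, uv_pow_self, uv_pow_self, smul_eq_mul]
    by_cases h : j = m + 1
    · subst h
      have h1 : ((m + 1 : ℕ) : ℤ) = (m : ℤ) + 1 := by push_cast; ring
      rw [Nat.add_sub_cancel, HahnSeries.coeff_single_same, h1, HahnSeries.coeff_single_same]
      push_cast
      ring
    · rw [HahnSeries.coeff_single_of_ne (a := (j : ℤ)) (by omega), mul_zero]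
      by_cases h0 : j = 0
      · rw [h0, Nat.cast_zero, zero_mul]
      · rw [HahnSeries.coeff_single_of_ne (by omega), mul_zero]
  · rw [Pi.smul_apply, HahnSeries.coeff_smul, uv_pow_not,
      HahnSeries.coeff_single_of_ne (by omega), smul_zero]

theorem pd_pow_not (t : A) (b : Bool) (j : ℕ) : IsPd t (!b) (uv t b ^ j) 0 := by
  refine ⟨zero_mem _, fun m => ?_, fun m hm => ?_⟩
  · rw [uv_pow_not, HahnSeries.coeff_single_of_ne (by omega), mul_zero]
    rfl
  · rfl

/-- The derivative `d/dτ` of a function on the annulus. -/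
theorem dd_comp {F G G' : KK Bool A} {b : Bool} (hF : F ∈ Nt t) (h : IsPd t b F G)
    (h' : IsPd t (!b) F G') :
    ld (F b) = G b * ld (uv t b b) + G' b * ld (uv t (!b) b) := by
  have e1 : ld (uv t b b) = 1 := by
    rw [uv_self]
    ext n
    rw [ld_coeff, HahnSeries.coeff_one]
    by_cases hn : n = 0
    · subst hn
      rw [zero_add, HahnSeries.coeff_single_same, if_pos rfl]
      simp
    · rw [HahnSeries.coeff_single_of_ne (by omega), if_neg hn, mul_zero]
  have e2 : ld (uv t (!b) b) = HahnSeries.single (-2) (-t) := by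
    have e3 : uv t (!b) b = HahnSeries.single (-1) t := by
      have := uv_not t (!b)
      rwa [Bool.not_not] at this
    rw [e3]
    ext n
    rw [ld_coeff]
    by_cases hn : n = -2
    · subst hn
      have e4 : (-2 : ℤ) + 1 = -1 := by norm_num
      rw [e4, HahnSeries.coeff_single_same, HahnSeries.coeff_single_same]
      push_cast
      ring
    · rw [HahnSeries.coeff_single_of_ne (by omega), HahnSeries.coeff_single_of_ne hn, mul_zero]
  rw [e1, e2, mul_one]
  ext n
  have e5 : (G' b * HahnSeries.single (-2) (-t)).coeff n = (G' b).coeff (n + 2) * -t := by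
    have e6 : n = (n + 2) + -2 := by ring
    nth_rewrite 1 [e6]
    exact HahnSeries.coeff_mul_single_add
  rw [HahnSeries.coeff_add, e5, ld_coeff]
  rcases lt_trichotomy n (-1) with hn | hn | hn
  · obtain ⟨j, hj⟩ := Int.eq_ofNat_of_zero_le (a := -n - 2) (by omega)
    have h1 : n + 1 = -((j + 1 : ℕ) : ℤ) := by omega
    have h2 : n = -((j + 2 : ℕ) : ℤ) := by omega
    have h3 : n + 2 = -(j : ℤ) := by omega
    have h4 := h'.pos j
    have h5 : ((j + 1 : ℕ) : ℤ) = (j : ℤ) + 1 := by push_cast; ring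
    rw [nt_neg hF b h1, nt_neg h.mem b h2, nt_neg h'.mem b h3, h.neg _ (by omega), h4, h1, h5]
    push_cast
    ring
  · subst hn
    have h1 : (-1 : ℤ) = -((1 : ℕ) : ℤ) := by simp
    have h3 := h'.neg 1 le_rfl
    rw [Bool.not_not] at h3
    have h4 : (-1 : ℤ) + 2 = ((1 : ℕ) : ℤ) := by norm_num
    rw [nt_neg h.mem b h1, h.neg 1 le_rfl, h4, h3]
    simp
  · obtain ⟨j, rfl⟩ := Int.eq_ofNat_of_zero_le (a := n) (by omega)
    have h3 := h'.neg (j + 2) (by omega)
    rw [Bool.not_not] at h3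
    have h4 : (j : ℤ) + 2 = ((j + 2 : ℕ) : ℤ) := by push_cast; ring
    rw [h.pos, h4, h3]
    push_cast
    ring

/-! ### Derivations -/

theorem pd_small {N : ℕ} (hN : t ^ N = 0) {F G : KK Bool A} {b : Bool} (h : IsPd t b F G) {K : ℕ}
    (hK : N ≤ K) (hF : F ∈ Pol Bool A (-((K + 2 : ℕ) : ℤ))) :
    G ∈ Pol Bool A (-((K + 1 : ℕ) : ℤ)) := by
  have h0 : ∀ j : ℕ, j < K + 1 → (G b).coeff j = 0 := by
    intro j hj
    rw [h.pos, hF b _ (by push_cast; omega), mul_zero]
  intro c n hn
  rw [neg_neg] at hn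
  rcases eq_or_not b c with rfl | rfl
  · rcases le_total 0 n with h1 | h1
    · obtain ⟨j, rfl⟩ := Int.eq_ofNat_of_zero_le h1
      exact h0 j (by omega)
    · obtain ⟨j, hj⟩ := Int.eq_ofNat_of_zero_le (neg_nonneg.2 h1)
      have h2 : n = -(j : ℤ) := by omega
      rcases Nat.eq_zero_or_pos j with rfl | h3
      · have h4 : n = ((0 : ℕ) : ℤ) := by omega
        rw [h4]
        exact h0 0 (by omega)
      · rw [nt_neg h.mem c h2, h.neg j h3, mul_zero]
  · rcases lt_trichotomy n 0 with h1 | h1 | h1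
    · obtain ⟨j, hj⟩ := Int.eq_ofNat_of_zero_le (a := -n) (by omega)
      have h2 : n = -(j : ℤ) := by omega
      rw [nt_neg h.mem _ h2, Bool.not_not]
      by_cases h3 : j < K + 1
      · rw [h0 j h3, mul_zero]
      · rw [pow_eq_zero_of_le (by omega) hN, zero_mul]
    · rw [h1, nt_zero h.mem]
      exact h0 0 (by omega)
    · obtain ⟨j, rfl⟩ := Int.eq_ofNat_of_zero_le (a := n) (by omega)
      exact h.neg j (by omega)

theorem uv_mem_Pol (t : A) (b : Bool) : uv t b ∈ Pol Bool A 1 := by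
  intro c n hn
  rcases eq_or_not b c with rfl | rfl
  · rw [uv_self, HahnSeries.coeff_single_of_ne (by omega)]
  · rw [uv_not, HahnSeries.coeff_single_of_ne (by omega)]

variable {M : Type} [AddCommGroup M] [Module A M] [Module (Nt t) M] [IsScalarTower A (Nt t) M]

omit [IsScalarTower A (Nt t) M] in
theorem smul_der_zero {N : ℕ} (hN : t ^ N = 0) (δ : Derivation A (Nt t) M) {K : ℕ}
    (hδ : ∀ x : Nt t, (x : KK Bool A) ∈ Pol Bool A (-(K : ℤ)) → δ x = 0) (hK : N ≤ K) {b : Bool}
    {F G U : Nt t} (h : IsPd t b (F : KK Bool A) G)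
    (hF : (F : KK Bool A) ∈ Pol Bool A (-((K + 2 : ℕ) : ℤ))) (c : Bool)
    (hU : (U : KK Bool A) = uv t c) : G • δ U = 0 := by
  have h1 := pd_small hN h hK hF
  have h2 : δ G = 0 := hδ G (Pol_mono (by push_cast; omega) h1)
  have h3 : δ (G * U) = 0 := by
    refine hδ _ ?_
    have h4 : ((G * U : Nt t) : KK Bool A) = (G : KK Bool A) * uv t c := by rw [← hU]; rfl
    rw [h4]
    exact Pol_mono (by push_cast; omega) (mul_mem_Pol h1 (uv_mem_Pol t c))
  rw [δ.leibniz, h2, smul_zero, add_zero] at h3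
  exact h3

theorem nt_small {N : ℕ} (hN : t ^ N = 0) {x : KK Bool A} (hx : x ∈ Nt t) {m : ℕ} (hm : N ≤ m)
    (h : ∀ (b : Bool) (j : ℕ), j < m → (x b).coeff j = 0) : x ∈ Pol Bool A (-(m : ℤ)) := by
  intro b n hn
  rw [neg_neg] at hn
  rcases le_total 0 n with h1 | h1
  · obtain ⟨j, rfl⟩ := Int.eq_ofNat_of_zero_le h1
    exact h b j (by omega)
  · obtain ⟨j, hj⟩ := Int.eq_ofNat_of_zero_le (neg_nonneg.2 h1)
    have h2 : n = -(j : ℤ) := by omega
    rw [nt_neg hx b h2]
    by_cases h3 : j < m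
    · rw [h _ j h3, mul_zero]
    · rw [pow_eq_zero_of_le (by omega) hN, zero_mul]

theorem coeff_smul_pow_self (b : Bool) (a : A) (j m : ℕ) :
    ((a • uv t b ^ j) b).coeff (m : ℤ) = if m = j then a else 0 := by
  rw [Pi.smul_apply, HahnSeries.coeff_smul, uv_pow_self, smul_eq_mul]
  split_ifs with h
  · rw [h, HahnSeries.coeff_single_same, mul_one]
  · rw [HahnSeries.coeff_single_of_ne (by omega), mul_zero]

theorem coeff_smul_pow_not (b : Bool) (a : A) (j m : ℕ) (h : 0 < j + m) :
    ((a • uv t b ^ j) (!b)).coeff (m : ℤ) = 0 := by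
  rw [Pi.smul_apply, HahnSeries.coeff_smul, uv_pow_not, HahnSeries.coeff_single_of_ne (by omega),
    smul_zero]

/-- The formula for derivations. -/
theorem der_formula {N : ℕ} (hN : t ^ N = 0) (δ : Derivation A (Nt t) M) (K : ℕ)
    (hδ : ∀ x : Nt t, (x : KK Bool A) ∈ Pol Bool A (-(K : ℤ)) → δ x = 0) (U V : Nt t)
    (hU : (U : KK Bool A) = uv t true) (hV : (V : KK Bool A) = uv t false) (F : Nt t) :
    ∀ G G' : Nt t, IsPd t true (F : KK Bool A) G → IsPd t false (F : KK Bool A) G' →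
      δ F = G • δ U + G' • δ V := by
  classical
  let P : Nt t → Prop := fun x => ∀ G G' : Nt t, IsPd t true (x : KK Bool A) G →
    IsPd t false (x : KK Bool A) G' → δ x = G • δ U + G' • δ V
  have hadd : ∀ x y, P x → P y → P (x + y) := by
    intro x y hx hy G G' h h'
    obtain ⟨G1, h1⟩ := exists_pd hN (x : KK Bool A) true
    obtain ⟨G2, h2⟩ := exists_pd hN (y : KK Bool A) true
    obtain ⟨G3, h3⟩ := exists_pd hN (x : KK Bool A) false
    obtain ⟨G4, h4⟩ := exists_pd hN (y : KK Bool A) false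
    have e1 : G = ⟨G1, h1.mem⟩ + ⟨G2, h2.mem⟩ := Subtype.ext (pd_unique h (pd_add h1 h2))
    have e2 : G' = ⟨G3, h3.mem⟩ + ⟨G4, h4.mem⟩ := Subtype.ext (pd_unique h' (pd_add h3 h4))
    rw [e1, e2, map_add, hx ⟨G1, h1.mem⟩ ⟨G3, h3.mem⟩ h1 h3, hy ⟨G2, h2.mem⟩ ⟨G4, h4.mem⟩ h2 h4,
      add_smul, add_smul]
    abel
  have hsmul : ∀ (a : A) x, P x → P (a • x) := by
    intro a x hx G G' h h'
    obtain ⟨G1, h1⟩ := exists_pd hN (x : KK Bool A) true
    obtain ⟨G3, h3⟩ := exists_pd hN (x : KK Bool A) false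
    have e1 : G = a • (⟨G1, h1.mem⟩ : Nt t) := Subtype.ext (pd_unique h (pd_smul a h1))
    have e2 : G' = a • (⟨G3, h3.mem⟩ : Nt t) := Subtype.ext (pd_unique h' (pd_smul a h3))
    rw [e1, e2, δ.map_smul, hx ⟨G1, h1.mem⟩ ⟨G3, h3.mem⟩ h1 h3, smul_add, smul_assoc, smul_assoc]
  have hzero : P 0 := by
    intro G G' h h'
    have e1 : G = 0 := Subtype.ext (pd_unique h (by
      have h1 := pd_smul (0 : A) h
      rw [zero_smul, zero_smul] at h1
      exact h1))
    have e2 : G' = 0 := Subtype.ext (pd_unique h' (by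
      have h1 := pd_smul (0 : A) h'
      rw [zero_smul, zero_smul] at h1
      exact h1))
    rw [e1, e2, map_zero, zero_smul, zero_smul, add_zero]
  have hsum : ∀ (s : Finset ℕ) (f : ℕ → Nt t), (∀ j, P (f j)) → P (∑ j ∈ s, f j) := by
    intro s f hf
    induction s using Finset.induction_on with
    | empty => rw [Finset.sum_empty]; exact hzero
    | insert a s ha ih => rw [Finset.sum_insert ha]; exact hadd _ _ (hf a) ih
  have hpow : ∀ (b : Bool) (W : Nt t), (W : KK Bool A) = uv t b → ∀ (j : ℕ) (G G' : Nt t),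
      IsPd t b ((W ^ j : Nt t) : KK Bool A) G → IsPd t (!b) ((W ^ j : Nt t) : KK Bool A) G' →
      δ (W ^ j) = G • δ W ∧ G' = 0 := by
    intro b W hW j G G' h h'
    have e0 : ((W ^ j : Nt t) : KK Bool A) = uv t b ^ j := by rw [← hW]; rfl
    rw [e0] at h h'
    have e1 : G = (j : A) • W ^ (j - 1) := by
      refine Subtype.ext (pd_unique h ?_)
      have h1 := pd_pow_self t b j
      rw [← hW] at h1 ⊢
      exact h1
    have e2 : G' = 0 := Subtype.ext (pd_unique h' (pd_pow_not t b j))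
    refine ⟨?_, e2⟩
    rw [e1, δ.leibniz_pow, smul_assoc, Nat.cast_smul_eq_nsmul]
  have hPU : ∀ j, P (U ^ j) := by
    intro j G G' h h'
    obtain ⟨h1, h2⟩ := hpow true U hU j G G' h h'
    rw [h1, h2, zero_smul, add_zero]
  have hPV : ∀ j, P (V ^ j) := by
    intro j G G' h h'
    obtain ⟨h1, h2⟩ := hpow false V hV j G' G h' h
    rw [h1, h2, zero_smul, zero_add]
  -- small elements
  have hδ' : ∀ x : Nt t, (x : KK Bool A) ∈ Pol Bool A (-((K + N : ℕ) : ℤ)) → δ x = 0 :=
    fun x hx => hδ x (Pol_mono (by push_cast; omega) hx)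
  have hPs : ∀ x : Nt t, (x : KK Bool A) ∈ Pol Bool A (-((K + N + 2 : ℕ) : ℤ)) → P x := by
    intro x hx G G' h h'
    rw [smul_der_zero hN δ hδ' (by omega) h hx true hU,
      smul_der_zero hN δ hδ' (by omega) h' hx false hV, add_zero]
    exact hδ x (Pol_mono (by push_cast; omega) hx)
  -- decomposition
  set n : ℕ := K + N + 2 with hn
  set x₁ : Nt t := ∑ j ∈ Finset.range n, ((F : KK Bool A) true).coeff (j : ℤ) • U ^ j with hx₁
  set x₂ : Nt t := ∑ j ∈ Finset.range n,
    ((F : KK Bool A) false).coeff ((j + 1 : ℕ) : ℤ) • V ^ (j + 1) with hx₂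
  have hP1 : P x₁ := hsum _ _ fun j => hsmul _ _ (hPU j)
  have hP2 : P x₂ := hsum _ _ fun j => hsmul _ _ (hPV (j + 1))
  have c1 : (x₁ : KK Bool A) =
      ∑ j ∈ Finset.range n, ((F : KK Bool A) true).coeff (j : ℤ) • uv t true ^ j := by
    rw [hx₁, AddSubmonoidClass.coe_finsetSum]
    refine Finset.sum_congr rfl fun j _ => ?_
    rw [← hU]
    rfl
  have c2 : (x₂ : KK Bool A) = ∑ j ∈ Finset.range n,
      ((F : KK Bool A) false).coeff ((j + 1 : ℕ) : ℤ) • uv t false ^ (j + 1) := by
    rw [hx₂, AddSubmonoidClass.coe_finsetSum]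
    refine Finset.sum_congr rfl fun j _ => ?_
    rw [← hV]
    rfl
  have hR : ((F - x₁ - x₂ : Nt t) : KK Bool A) ∈ Pol Bool A (-(n : ℤ)) := by
    have ht : ∀ m : ℕ, m < n → (((F - x₁ - x₂ : Nt t) : KK Bool A) true).coeff (m : ℤ) = 0 := by
      intro m hm
      have e1 : ((x₁ : KK Bool A) true).coeff (m : ℤ) = ((F : KK Bool A) true).coeff (m : ℤ) := by
        rw [c1, Finset.sum_apply, HahnSeries.coeff_sum]
        rw [Finset.sum_congr rfl fun j _ => coeff_smul_pow_self true _ j m,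
          Finset.sum_ite_eq, if_pos (Finset.mem_range.2 hm)]
      have e2 : ((x₂ : KK Bool A) true).coeff (m : ℤ) = 0 := by
        rw [c2, Finset.sum_apply, HahnSeries.coeff_sum]
        exact Finset.sum_eq_zero fun j _ => coeff_smul_pow_not false _ (j + 1) m (by omega)
      change (((F : KK Bool A) true - (x₁ : KK Bool A) true) -
        (x₂ : KK Bool A) true).coeff (m : ℤ) = 0
      rw [HahnSeries.coeff_sub, HahnSeries.coeff_sub, e1, e2, sub_self, sub_zero]
    have hf : ∀ m : ℕ, m < n → (((F - x₁ - x₂ : Nt t) : KK Bool A) false).coeff (m : ℤ) = 0 := by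
      intro m hm
      rcases Nat.eq_zero_or_pos m with rfl | hm0
      · have h1 := nt_zero (F - x₁ - x₂ : Nt t).2 true
        rw [Nat.cast_zero]
        exact h1.trans (ht 0 hm)
      · obtain ⟨k, rfl⟩ : ∃ k, m = k + 1 := ⟨m - 1, by omega⟩
        have e1 : ((x₁ : KK Bool A) false).coeff ((k + 1 : ℕ) : ℤ) = 0 := by
          rw [c1, Finset.sum_apply, HahnSeries.coeff_sum]
          exact Finset.sum_eq_zero fun j _ => coeff_smul_pow_not true _ j (k + 1) (by omega)
        have e2 : ((x₂ : KK Bool A) false).coeff ((k + 1 : ℕ) : ℤ) =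
            ((F : KK Bool A) false).coeff ((k + 1 : ℕ) : ℤ) := by
          rw [c2, Finset.sum_apply, HahnSeries.coeff_sum]
          rw [Finset.sum_congr rfl fun j _ => coeff_smul_pow_self false _ (j + 1) (k + 1)]
          simp only [Nat.add_right_cancel_iff]
          rw [Finset.sum_ite_eq, if_pos (Finset.mem_range.2 (by omega))]
        change (((F : KK Bool A) false - (x₁ : KK Bool A) false) -
          (x₂ : KK Bool A) false).coeff ((k + 1 : ℕ) : ℤ) = 0
        rw [HahnSeries.coeff_sub, HahnSeries.coeff_sub, e1, e2, sub_zero, sub_self]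
    refine nt_small hN (F - x₁ - x₂ : Nt t).2 (by omega) fun b j hj => ?_
    cases b
    · exact hf j hj
    · exact ht j hj
  have hfin : P ((F - x₁ - x₂) + (x₁ + x₂)) := hadd _ _ (hPs _ hR) (hadd _ _ hP1 hP2)
  have e : (F - x₁ - x₂) + (x₁ + x₂) = F := by abel
  rw [e] at hfin
  exact hfin

end PL0

open _root_.Pool.Agent.MG.G0.PL0 in
/-- PL0 -/
theorem t_PL0 : Stmt_PL0 := by
  intro A _ t N hN
  refine ⟨?_, ?_, uv_mem t, ?_, ?_, ?_, ?_, ?_⟩
  · intro m hm F hF b j
    by_cases h0 : m = 0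
    · have h1 : (1 : A) = 0 := by
        have h2 : N = 0 := by omega
        rw [h2, pow_zero] at hN
        exact hN
      have : Subsingleton A := subsingleton_of_zero_eq_one h1.symm
      exact Subsingleton.elim _ _
    · rw [hF b _ (by omega)]
      by_cases h3 : j < m
      · rw [hF _ _ (by omega), mul_zero]
      · rw [pow_eq_zero_of_le (by omega) hN, zero_mul]
  · intro a b hab
    obtain ⟨F, hF, h⟩ := exists_nt hN (fun c m => if c then PowerSeries.coeff m a else
      PowerSeries.coeff m b) (by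
        intro c
        rw [← PowerSeries.coeff_zero_eq_constantCoeff_apply,
          ← PowerSeries.coeff_zero_eq_constantCoeff_apply] at hab
        cases c <;> simp [hab])
    refine ⟨F, ⟨hF, fun j => ⟨?_, ?_⟩⟩, ?_⟩
    · rw [h, if_pos rfl]
    · rw [h]
      rfl
    · rintro F' ⟨hF', h'⟩
      refine nt_ext hF' hF fun c j => ?_
      rw [h]
      cases c
      · rw [(h' j).2]
        rfl
      · rw [(h' j).1, if_pos rfl]
  · funext b
    rw [Pi.mul_apply, Pi.algebraMap_apply]
    cases b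
    · have h1 := uv_self t false
      have h2 := uv_not t true
      rw [Bool.not_true] at h2
      rw [h1, h2, HahnSeries.single_mul_single, mul_one]
      rfl
    · have h1 := uv_self t true
      have h2 := uv_not t false
      rw [Bool.not_false] at h2
      rw [h1, h2, HahnSeries.single_mul_single, one_mul]
      rfl
  · intro F _ b
    exact exists_pd hN F b
  · intro F hF G G' h h'
    funext b
    cases b
    · have h1 := dd_comp hF h' h
      change ld (F false) = G false * ld (uv t true false) + G' false * ld (uv t false false)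
      rw [h1, Bool.not_false, add_comm]
    · exact dd_comp hF h h'
  · intro M _ _ _ _ δ K hδ F G G' U V h h' hU hV
    exact der_formula hN δ K hδ U V hU hV F G G' h h'
  · intro η
    have hvp : vp A * (fun b => HahnSeries.single 1 (if b then (1 : A) else -1)) = 1 := by
      funext b
      rw [Pi.mul_apply, vp, HahnSeries.single_mul_single]
      cases b
      · simp
      · simp
    constructor
    · intro h
      refine ⟨η * (fun b => HahnSeries.single 1 (if b then (1 : A) else -1)), ?_, ?_⟩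
      · intro b j
        have h1 := h (uv t b ^ j) (pow_mem (uv_mem t b) j)
        have e1 : ∀ (c : Bool) (n : ℤ), (((η * (fun b => HahnSeries.single (1 : ℤ)
            (if b then (1 : A) else -1)) : KK Bool A)) c).coeff n =
            (η c).coeff (n - 1) * (if c then 1 else -1) := by
          intro c n
          rw [Pi.mul_apply]
          have e2 : n = (n - 1) + 1 := by ring
          nth_rewrite 1 [e2]
          exact HahnSeries.coeff_mul_single_add
        have e3 : ((η * uv t b ^ j) b).coeff (-1) = (η b).coeff (-(j : ℤ) - 1) := by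
          rw [Pi.mul_apply, uv_pow_self]
          have e4 : (-1 : ℤ) = (-(j : ℤ) - 1) + j := by ring
          nth_rewrite 1 [e4]
          rw [HahnSeries.coeff_mul_single_add, mul_one]
        have e5 : ((η * uv t b ^ j) (!b)).coeff (-1) = (η (!b)).coeff ((j : ℤ) - 1) * t ^ j := by
          rw [Pi.mul_apply, uv_pow_not]
          have e4 : (-1 : ℤ) = ((j : ℤ) - 1) + -(j : ℤ) := by ring
          nth_rewrite 1 [e4]
          exact HahnSeries.coeff_mul_single_add
        have e6 : res (η * uv t b ^ j) = ((η * uv t b ^ j) b).coeff (-1) +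
            ((η * uv t b ^ j) (!b)).coeff (-1) := by
          change ∑ c, ((η * uv t b ^ j) c).coeff (-1) = _
          rw [Fintype.sum_bool]
          cases b
          · rw [Bool.not_false, add_comm]
          · rfl
        rw [e6, e3, e5] at h1
        rw [e1, e1]
        cases b
        · rw [Bool.not_false] at h1 ⊢
          rw [if_neg (by decide), if_pos rfl]
          linear_combination -h1
        · rw [Bool.not_true] at h1 ⊢
          rw [if_pos rfl, if_neg (by decide)]
          linear_combination h1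
      · rw [mul_assoc, mul_comm _ (vp A), hvp, mul_one]
    · rintro ⟨F, hF, rfl⟩ G hG
      have h1 : F * vp A * G = (F * G) * vp A := by ring
      rw [h1]
      have h2 := mul_mem hF hG
      have e1 : ∀ c : Bool, (((F * G) * vp A) c).coeff (-1) =
          ((F * G) c).coeff 0 * (if c then 1 else -1) := by
        intro c
        rw [Pi.mul_apply]
        have e2 : (-1 : ℤ) = 0 + -1 := by ring
        nth_rewrite 1 [e2]
        exact HahnSeries.coeff_mul_single_add
      change ∑ c, (((F * G) * vp A) c).coeff (-1) = 0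
      rw [Fintype.sum_bool, e1, e1, if_pos rfl, if_neg (by decide)]
      have h3 := nt_zero h2 true
      rw [Bool.not_true] at h3
      rw [h3]
      ring

end Pool.Agent.MG.G0


end

section

/-!
# NPB: the local structure at a node over an artinian base
-/

open Polynomial

namespace Pool.Agent.MG.G0

namespace NPB

section

variable {A B κ : Type} [CommRing A] [CommRing B] [Field κ]

theorem psl_C (a : A) : psl A (PowerSeries.C a) = algebraMap A (LaurentSeries A) a :=
  HahnSeries.ofPowerSeries_C a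

theorem psl_X : psl A PowerSeries.X = HahnSeries.single 1 1 := HahnSeries.ofPowerSeries_X

theorem lmap_psl (φ : A →+* B) (f : PowerSeries A) :
    lmap φ (psl A f) = psl B (PowerSeries.map φ f) := by
  ext m
  rw [lmap_coeff]
  rcases lt_or_ge m 0 with h | h
  · rw [NPO.coeff_psl_neg _ h, NPO.coeff_psl_neg _ h, map_zero]
  · obtain ⟨n, rfl⟩ := Int.eq_ofNat_of_zero_le h
    rw [NPO.coeff_psl, NPO.coeff_psl, PowerSeries.coeff_map]

theorem isUnit_of_rs {φ : A →+* κ} (hφ : Function.Surjective φ)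
    (hn : ∃ n : ℕ, RingHom.ker φ ^ n = ⊥) {a : A} (ha : φ a ≠ 0) : IsUnit a := by
  obtain ⟨N, hN⟩ := hn
  obtain ⟨b, hb⟩ := hφ (φ a)⁻¹
  have h3 : 1 - a * b ∈ RingHom.ker φ := by
    rw [RingHom.mem_ker, map_sub, map_one, map_mul, hb, mul_inv_cancel₀ ha, sub_self]
  have h4 : IsNilpotent (1 - a * b) := by
    refine ⟨N, ?_⟩
    have h5 := Ideal.pow_mem_pow h3 N
    rw [hN] at h5
    exact h5
  have h5 : IsUnit (a * b) := by
    have h6 := h4.isUnit_one_sub
    rw [sub_sub_cancel] at h6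
    exact h6
  exact isUnit_of_mul_isUnit_left h5

theorem isUnit_of_lmap {φ : A →+* κ} (hφ : Function.Surjective φ)
    (hn : ∃ n : ℕ, RingHom.ker φ ^ n = ⊥) {x : LaurentSeries A} (hx : lmap φ x ≠ 0) :
    IsUnit x := by
  obtain ⟨w, hw⟩ := KFL.kmap_surj (I := Unit) hφ fun _ => (lmap φ x)⁻¹
  have hw' : lmap φ (w ()) = (lmap φ x)⁻¹ := congrFun hw ()
  have h1 : lmap φ (1 - x * w ()) = 0 := by
    rw [map_sub, map_one, map_mul, hw', mul_inv_cancel₀ hx, sub_self]
  have h2 : IsNilpotent (1 - x * w ()) := by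
    refine PSK_.nilp hn fun m => ?_
    rw [RingHom.mem_ker, ← lmap_coeff, h1, HahnSeries.coeff_zero]
  have h3 := h2.isUnit_one_sub
  rw [sub_sub_cancel] at h3
  exact isUnit_of_mul_isUnit_left h3

/-- `A[z] → A[[s]]`. -/
noncomputable def zevP (c : A) : A[X] →ₐ[A] PowerSeries A :=
  aeval (PowerSeries.C c + PowerSeries.X)

theorem psl_zevP (c : A) (p : A[X]) : psl A (zevP c p) = zev c p := by
  have h : (psl A).comp (zevP c : A[X] →+* PowerSeries A) = (zev c : A[X] →+* LaurentSeries A) := by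
    refine Polynomial.ringHom_ext (fun a => ?_) ?_
    · change psl A (zevP c (C a)) = zev c (C a)
      rw [zevP, zev, aeval_C, aeval_C]
      exact psl_C a
    · change psl A (zevP c X) = zev c X
      rw [zevP, zev, aeval_X, aeval_X, map_add, psl_C, psl_X]
  exact congrArg (fun F => F p) h

theorem const_zevP (c : A) (p : A[X]) : PowerSeries.constantCoeff (zevP c p) = p.eval c := by
  have h : (PowerSeries.constantCoeff (R := A)).comp (zevP c : A[X] →+* PowerSeries A) =
      (evalRingHom c) := by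
    refine Polynomial.ringHom_ext (fun a => ?_) ?_
    · change PowerSeries.constantCoeff (zevP c (C a)) = eval c (C a)
      rw [zevP, aeval_C, eval_C]
      exact PowerSeries.constantCoeff_C a
    · change PowerSeries.constantCoeff (zevP c X) = eval c X
      rw [zevP, aeval_X, eval_X, map_add, PowerSeries.constantCoeff_C,
        PowerSeries.constantCoeff_X, add_zero]
  exact congrArg (fun F => F p) h

theorem zev_map (φ : A →+* B) (c : A) (p : A[X]) : lmap φ (zev c p) = zev (φ c) (p.map φ) := by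
  have h : (lmap φ).comp (zev c : A[X] →+* LaurentSeries A) =
      (zev (φ c) : B[X] →+* LaurentSeries B).comp (mapRingHom φ) := by
    refine Polynomial.ringHom_ext (fun a => ?_) ?_
    · change lmap φ (zev c (C a)) = zev (φ c) ((C a).map φ)
      rw [zev, zev, map_C, aeval_C, aeval_C, lmap_algebraMap]
    · change lmap φ (zev c X) = zev (φ c) (map φ X)
      rw [zev, zev, map_X, aeval_X, aeval_X, map_add, lmap_algebraMap, lmap_single, map_one]
  exact congrArg (fun F => F p) h

/-- The conclusion from `T = A[[s]] + A[[s]] y` and the comparison of the discriminants. -/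
theorem key {φ : A →+* κ} (hφ : Function.Surjective φ) (hn : ∃ n : ℕ, RingHom.ker φ ^ n = ⊥)
    (h2 : (2 : κ) ≠ 0) {P : Type} [CommRing P] {Ψ : Bool → (P →+* LaurentSeries A)} {y : P}
    {W : PowerSeries A} (hW : IsUnit W) {y₀ : LaurentSeries A}
    (hy₀ : lmap φ y₀ = HahnSeries.single 1 1)
    (hT : ∀ x : P, ∃ a b : PowerSeries A, ∀ β : Bool, Ψ β x = psl A a + psl A b * Ψ β y)
    (hs : ∃ τ : PowerSeries A, Ψ true y + Ψ false y = psl A τ)
    (hβ : ∃ β : PowerSeries A, psl A W * (y₀ * y₀) = psl A β * (Ψ true y - Ψ false y) ^ 2)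
    {a' : PowerSeries κ} (ha' : PowerSeries.constantCoeff a' ≠ 0)
    (hη : lmap φ (Ψ true y - Ψ false y) = HahnSeries.single 1 1 * psl κ a') (x : P) :
    ∃ a b : PowerSeries A, ∀ β : Bool,
      Ψ β x = psl A a + if β then psl A b * y₀ else -(psl A b * y₀) := by
  set η := Ψ true y - Ψ false y with hηd
  have hs1 : (HahnSeries.single 1 1 : LaurentSeries κ) ≠ 0 :=
    HahnSeries.single_ne_zero one_ne_zero
  have ha'u : IsUnit a' := PowerSeries.isUnit_iff_constantCoeff.2 (IsUnit.mk0 _ ha')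
  obtain ⟨w', hw'⟩ := ha'u.exists_right_inv
  have hηu : IsUnit η := by
    refine isUnit_of_lmap hφ hn ?_
    rw [hη]
    refine mul_ne_zero hs1 ?_
    exact ((ha'u.map (psl κ)).ne_zero)
  obtain ⟨η', hη'⟩ := hηu.exists_right_inv
  set γ := y₀ * η' with hγ
  have hγη : γ * η = y₀ := by
    rw [hγ, mul_assoc, mul_comm η', hη', mul_one]
  -- the reduction of `γ`
  have hγr : lmap φ γ = psl κ w' := by
    have h1 : lmap φ γ * (HahnSeries.single 1 1 * psl κ a') = HahnSeries.single 1 1 := by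
      rw [← hη, ← map_mul, hγη, hy₀]
    have h3 : psl κ a' * psl κ w' = 1 := by rw [← map_mul, hw', map_one]
    have h4 : (HahnSeries.single 1 1 : LaurentSeries κ) * (lmap φ γ - psl κ w') = 0 := by
      linear_combination (psl κ w') * h1 - (HahnSeries.single 1 1 : LaurentSeries κ) *
        (lmap φ γ) * h3
    exact sub_eq_zero.1 ((mul_eq_zero.1 h4).resolve_left hs1)
  have hw0 : PowerSeries.constantCoeff w' ≠ 0 := by
    intro h
    have h1 := congrArg (PowerSeries.constantCoeff (R := κ)) hw'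
    rw [map_mul, h, mul_zero, map_one] at h1
    exact zero_ne_one h1
  obtain ⟨β, hβ⟩ := hβ
  obtain ⟨V, hV⟩ := hW.exists_right_inv
  have hγ2 : γ * γ = psl A (V * β) := by
    have h1 : psl A W * psl A V = 1 := by rw [← map_mul, hV, map_one]
    have h3 : psl A W * (γ * γ) = psl A β := by
      have h4 : (psl A W * (γ * γ)) * η ^ 2 = psl A β * η ^ 2 := by
        rw [← hβ, ← hγη]
        ring
      exact (hηu.pow 2).mul_right_cancel h4
    rw [map_mul, ← h3]
    linear_combination -(γ * γ) * h1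
  have hγ0 : γ ∈ Po A 0 := by
    refine t_NPO φ hφ hn h2 γ ?_ ?_ ?_
    · rw [hγ2]
      exact NPO.psl_mem _
    · rw [hγr]
      exact NPO.psl_mem _
    · rw [hγr]
      have := NPO.coeff_psl w' 0
      rw [Nat.cast_zero] at this
      rw [this, PowerSeries.coeff_zero_eq_constantCoeff_apply]
      exact hw0
  obtain ⟨g, hg⟩ := NPO.exists_psl hγ0
  have hgu : IsUnit g := by
    rw [PowerSeries.isUnit_iff_constantCoeff]
    refine isUnit_of_rs hφ hn ?_
    have h1 : PowerSeries.map φ g = w' := by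
      have h3 : psl κ (PowerSeries.map φ g) = psl κ w' := by
        rw [← lmap_psl, hg, hγr]
      exact HahnSeries.ofPowerSeries_injective h3
    rw [← h1] at hw0
    rw [← PowerSeries.coeff_zero_eq_constantCoeff_apply, PowerSeries.coeff_map] at hw0
    rw [← PowerSeries.coeff_zero_eq_constantCoeff_apply]
    exact hw0
  obtain ⟨g', hg'⟩ := hgu.exists_right_inv
  have h2u : IsUnit (2 : A) := by
    refine isUnit_of_rs hφ hn ?_
    rw [map_ofNat]
    exact h2
  obtain ⟨v, hv⟩ := h2u.exists_right_inv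
  obtain ⟨τ, hτ⟩ := hs
  obtain ⟨a, b, hab⟩ := hT x
  have hηy : psl A g' * y₀ = η := by
    have h1 : psl A g * psl A g' = 1 := by rw [← map_mul, hg', map_one]
    rw [← hγη, ← hg]
    linear_combination η * h1
  have hv2 : (2 : LaurentSeries A) * psl A (PowerSeries.C v) = 1 := by
    have h1 : (2 : LaurentSeries A) = psl A (PowerSeries.C 2) := by
      rw [map_ofNat, map_ofNat]
    rw [h1, ← map_mul, ← map_mul, hv, map_one, map_one]
  refine ⟨a + PowerSeries.C v * (b * τ), PowerSeries.C v * (b * g'), fun β => ?_⟩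
  rw [hab β]
  have e1 : Ψ true y = psl A (PowerSeries.C v) * (psl A τ + η) := by
    rw [← hτ, hηd]
    linear_combination (-(Ψ true y)) * hv2
  have e2 : Ψ false y = psl A (PowerSeries.C v) * (psl A τ - η) := by
    rw [← hτ, hηd]
    linear_combination (-(Ψ false y)) * hv2
  cases β
  · rw [e2]
    simp only [Bool.false_eq_true, if_false, map_add, map_mul]
    rw [← hηy]
    ring
  · rw [e1]
    simp only [if_true, map_add, map_mul]
    rw [← hηy]
    ring

/-- `A[z] → P`. -/
noncomputable def zP {P : Subalgebra A (LaurentSeries A)} {d : ℕ} (hz : zz A d ∈ P) :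
    A[X] →ₐ[A] P := aeval (⟨zz A d, hz⟩ : P)

theorem zP_val {P : Subalgebra A (LaurentSeries A)} {d : ℕ} (hz : zz A d ∈ P) (p : A[X]) :
    (zP hz p : LaurentSeries A) = zpol A d p := by
  have h : (P.val).comp (zP hz) = zpol A d := by
    refine Polynomial.algHom_ext ?_
    change ((zP hz X : P) : LaurentSeries A) = zpol A d X
    rw [zP, zpol, aeval_X, aeval_X]
  exact congrArg (fun F => F p) h

/-- The reduction map from `P` to `R`. -/
noncomputable def rd (φ : A →+* κ) {P : Subalgebra A (LaurentSeries A)}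
    {R : Subalgebra κ (LaurentSeries κ)} (h : bc1 φ P ≤ R) : P →+* uno R where
  toFun x := ⟨fun _ => lmap φ x, h (Algebra.subset_adjoin ⟨x, x.2, rfl⟩)⟩
  map_one' := Subtype.ext (funext fun _ => map_one (lmap φ))
  map_zero' := Subtype.ext (funext fun _ => map_zero (lmap φ))
  map_add' x y := Subtype.ext (funext fun _ => map_add (lmap φ) (x : LaurentSeries A) y)
  map_mul' x y := Subtype.ext (funext fun _ => map_mul (lmap φ) (x : LaurentSeries A) y)

theorem rd_val (φ : A →+* κ) {P : Subalgebra A (LaurentSeries A)}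
    {R : Subalgebra κ (LaurentSeries κ)} (h : bc1 φ P ≤ R) (x : P) :
    (rd φ h x : KK Unit κ) () = lmap φ x := rfl

theorem rd_mem (φ : A →+* κ) {P : Subalgebra A (LaurentSeries A)}
    {R : Subalgebra κ (LaurentSeries κ)} (h : bc1 φ P ≤ R) (x : P) :
    (rd φ h x : KK Unit κ) ∈ uno (bc1 φ P) :=
  Algebra.subset_adjoin ⟨x, x.2, rfl⟩

theorem rd_algebraMap (φ : A →+* κ) {P : Subalgebra A (LaurentSeries A)}
    {R : Subalgebra κ (LaurentSeries κ)} (h : bc1 φ P ≤ R) (a : A) :
    rd φ h (algebraMap A P a) = algebraMap κ (uno R) (φ a) :=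
  Subtype.ext (funext fun _ => lmap_algebraMap φ a)

theorem rd_smul (φ : A →+* κ) {P : Subalgebra A (LaurentSeries A)}
    {R : Subalgebra κ (LaurentSeries κ)} (h : bc1 φ P ≤ R) (a : A) (x : P) :
    rd φ h (a • x) = φ a • rd φ h x :=
  Subtype.ext (funext fun _ => lmap_smul φ a (x : LaurentSeries A))

/-- The expansions of the reduction. -/
theorem psi_zpol {φ : A →+* κ} {P : Subalgebra A (LaurentSeries A)} {d : ℕ}
    (hz : zz A d ∈ P) {R : Subalgebra κ (LaurentSeries κ)} (h : bc1 φ P ≤ R) {s : A}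
    (F : uno R →ₐ[κ] PowerSeries κ)
    (hF : F (rd φ h ⟨zz A d, hz⟩) = PowerSeries.C (φ s) + PowerSeries.X) (a : A[X]) (z : P)
    (haz : (z : LaurentSeries A) = zpol A d a) :
    psl κ (F (rd φ h z)) = zev (φ s) (a.map φ) := by
  have hz' : z = zP hz a := Subtype.ext (haz.trans (zP_val hz a).symm)
  have key : ((psl κ).comp ((F : uno R →+* PowerSeries κ).comp (rd φ h))).comp
      (zP hz : A[X] →+* P) = (zev (φ s) : κ[X] →+* LaurentSeries κ).comp (mapRingHom φ) := by
    refine Polynomial.ringHom_ext (fun a => ?_) ?_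
    · change psl κ (F (rd φ h (zP hz (C a)))) = zev (φ s) ((C a).map φ)
      rw [zP, aeval_C, rd_algebraMap, AlgHom.commutes, map_C, zev, aeval_C]
      exact psl_C _
    · change psl κ (F (rd φ h (zP hz X))) = zev (φ s) (X.map φ)
      rw [zP, aeval_X, hF, map_X, zev, aeval_X, map_add, psl_C, psl_X]
  rw [hz']
  exact congrArg (fun G => G a) key

end

end NPB

open _root_.Pool.Agent.MG.G0.NPB in
theorem t_NPB (hPL2 : Stmt_PL2) (hNLI : Stmt_NLI) (hNDB : Stmt_NDB) (hNSG : Stmt_NSG)
    (hNQY : Stmt_NQY) (hNKE : Stmt_NKE) (hNNK : Stmt_NNK) (hNCO : Stmt_NCO) : Stmt_NPB := by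
  intro κ A _ _ _ _ rs g d P h s t R pt hnil hd hdf hKP hz hDisc hrt _ hev _ hKR hPR _ _ hSm
    hdis hpz hPT
  have hφ : Function.Surjective (rs : A →+* κ) := fun c => ⟨algebraMap κ A c, rs.commutes c⟩
  have h2 : (2 : κ) ≠ 0 := by
    intro h2
    apply hdf
    obtain ⟨m, hm⟩ := Nat.dvd_factorial (by norm_num : 0 < 2) hd
    rw [hm, Nat.cast_mul, Nat.cast_ofNat, h2, zero_mul]
  have hdκ : ((d : ℕ) : κ) ≠ 0 := by
    intro h2
    apply hdf
    obtain ⟨m, hm⟩ := Nat.dvd_factorial (by omega : 0 < d) le_rfl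
    rw [hm, Nat.cast_mul, h2, zero_mul]
  -- the expansions of the reduction
  have hψ : ∀ (b : Bool) (a : A[X]) (z : P), (z : LaurentSeries A) = zpol A d a →
      psl κ ((pt b).h (NPB.rd (rs : A →+* κ) hPR z)) = zev (rs s) (a.map (rs : A →+* κ)) :=
    fun b a z haz => psi_zpol hz hPR (pt b).h (hpz b _ (lmap_zz _ d)) a z haz
  have hf0 : (((X - C s) ^ 2 - C (4 * t)) * h).map (rs : A →+* κ) ≠ 0 := by
    rw [Polynomial.map_mul, Polynomial.map_sub, Polynomial.map_pow, Polynomial.map_sub, map_X,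
      map_C, map_C]
    have e : (rs : A →+* κ) (4 * t) = 0 := by
      change rs (4 * t) = 0
      rw [map_mul, hrt, mul_zero]
    rw [e, C_0, sub_zero]
    refine mul_ne_zero (pow_ne_zero _ (X_sub_C_ne_zero _)) ?_
    intro h0
    rw [h0, eval_zero] at hev
    exact hev rfl
  choose Ψ hΨz hΨr using fun b => hNLI rs hnil (by omega) hdκ hKP hz hDisc hf0
    ((psl κ).comp (((pt b).h : uno R →+* PowerSeries κ).comp (NPB.rd (rs : A →+* κ) hPR))) (hψ b)
  replace hΨr : ∀ b x, lmap (rs : A →+* κ) (Ψ b x) =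
      psl κ ((pt b).h (NPB.rd (rs : A →+* κ) hPR x)) := hΨr
  -- the reduction of `P`
  have hmem : ∀ r : uno R, (pt true).ev r = (pt false).ev r ↔
      (r : KK Unit κ) () ∈ bc1 (rs : A →+* κ) P := by
    intro r
    have h1 := hPL2.2.2 hKR hSm pt hdis (r : KK Unit κ)
    rw [hPT] at h1
    constructor
    · intro h3
      exact h1.2 ⟨r, rfl, h3⟩
    · intro h3
      obtain ⟨r', hr', h4⟩ := h1.1 h3
      have h5 : r' = r := Subtype.ext hr'
      rw [← h5]
      exact h4
  obtain ⟨hlift, hker⟩ := hNKE (rs : A →+* κ) hφ hKP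
  have lift : ∀ r : uno R, (pt true).ev r = (pt false).ev r →
      ∃ p : P, NPB.rd (rs : A →+* κ) hPR p = r := by
    intro r hr
    obtain ⟨p, hp, hpr⟩ := hlift _ ((hmem r).1 hr)
    exact ⟨⟨p, hp⟩, Subtype.ext (funext fun _ => hpr)⟩
  have hrev : ∀ x : P, (pt true).ev (NPB.rd (rs : A →+* κ) hPR x) =
      (pt false).ev (NPB.rd (rs : A →+* κ) hPR x) := fun x => (hmem _).2 (rd_mem _ hPR x)
  obtain ⟨q₀, y₁, hq₀, hy₁, hyt, hyf, hx₀⟩ := hNQY (c := rs s)
    (NPB.rd (rs : A →+* κ) hPR ⟨zz A d, hz⟩) h2 hKR hSm hdis fun b => hpz b _ (lmap_zz _ d)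
  obtain ⟨q, hq⟩ := lift q₀ (by rw [hq₀, hq₀])
  obtain ⟨y, hy⟩ := lift y₁ (by rw [hy₁, hy₁])
  have hker' : ∀ p₀ : P, NPB.rd (rs : A →+* κ) hPR p₀ = 0 → ∃ (n : ℕ) (μ : Fin n → A)
      (p : Fin n → P), (∀ k, (rs : A →+* κ) (μ k) = 0) ∧ p₀ = ∑ k, μ k • p k := by
    intro p₀ h0
    have h3 : lmap (rs : A →+* κ) (p₀ : LaurentSeries A) = 0 :=
      congrFun (congrArg (fun r : uno R => (r : KK Unit κ)) h0) ()
    obtain ⟨n, μ, p, hμ, hp, hsum⟩ := hker _ p₀.2 h3
    refine ⟨n, μ, fun k => ⟨p k, hp k⟩, hμ, ?_⟩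
    refine Subtype.ext ?_
    rw [hsum, AddSubmonoidClass.coe_finsetSum]
    rfl
  have hH : ∀ x : P, ∃ (α β : A) (r : P) (n : ℕ) (μ : Fin n → A) (p : Fin n → P),
      (∀ k, (rs : A →+* κ) (μ k) = 0) ∧ q * (x - algebraMap A P α - β • y) =
        (⟨zz A d, hz⟩ - algebraMap A P s) * r + ∑ k, μ k • p k := by
    intro x
    obtain ⟨α, β, r, hr, hqr⟩ := hx₀ (NPB.rd (rs : A →+* κ) hPR x) (hrev x)
    obtain ⟨r', hr'⟩ := lift r hr
    have e1 : ∀ a : κ, (rs : A →+* κ) (algebraMap κ A a) = a := fun a => rs.commutes a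
    have h3 : NPB.rd (rs : A →+* κ) hPR (q * (x - algebraMap A P (algebraMap κ A α) -
        (algebraMap κ A β) • y) - (⟨zz A d, hz⟩ - algebraMap A P s) * r') = 0 := by
      rw [map_sub, map_mul, map_sub, map_sub, rd_algebraMap, rd_smul, map_mul, map_sub,
        rd_algebraMap, hq, hy, hr', e1, e1, hqr]
      exact sub_self _
    obtain ⟨n, μ, p, hμ, hsum⟩ := hker' _ h3
    exact ⟨algebraMap κ A α, algebraMap κ A β, r', n, μ, p, hμ, sub_eq_iff_eq_add'.1 hsum⟩
  obtain ⟨e, G, hZB, hZG, u, hu, hdet⟩ := hDisc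
  have hT := hNNK (rs : A →+* κ) Ψ q y ⟨zz A d, hz⟩ hφ hnil h2 rfl hZB hΨz
    (fun x => ⟨fun b => (pt b).h (NPB.rd (rs : A →+* κ) hPR x), hrev x, fun b => hΨr b x⟩)
    (fun b => by
      rw [hΨr, hq]
      exact (NPO.coeff_psl _ 0).trans
        ((PowerSeries.coeff_zero_eq_constantCoeff_apply _).trans (hq₀ b)))
    (fun b => by
      rw [hΨr, hy]
      exact (NPO.coeff_psl _ 0).trans
        ((PowerSeries.coeff_zero_eq_constantCoeff_apply _).trans (hy₁ b)))
    (by
      rw [hΨr, hy]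
      exact (NPO.coeff_psl _ 1).trans hyt)
    (by
      rw [hΨr, hy]
      exact (NPO.coeff_psl _ 1).trans hyf) hH
  -- the difference of the expansions of `y`
  obtain ⟨a', ha'⟩ : ∃ a' : PowerSeries κ,
      (pt true).h y₁ - (pt false).h y₁ = PowerSeries.X * a' := by
    refine PowerSeries.X_dvd_iff.2 ?_
    rw [map_sub]
    exact sub_eq_zero.2 ((hy₁ true).trans (hy₁ false).symm)
  have ha'0 : PowerSeries.constantCoeff a' ≠ 0 := by
    have h1 := congrArg (PowerSeries.coeff (0 + 1)) ha'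
    rw [map_sub, PowerSeries.coeff_succ_X_mul, PowerSeries.coeff_zero_eq_constantCoeff_apply,
      zero_add, hyt, hyf] at h1
    rw [← h1, sub_neg_eq_add, one_add_one_eq_two]
    exact h2
  have hη : lmap (rs : A →+* κ) (Ψ true y - Ψ false y) = HahnSeries.single 1 1 * psl κ a' := by
    rw [map_sub, hΨr, hΨr, hy, ← map_sub, ha', map_mul, psl_X]
  have hηu : IsUnit (Ψ true y - Ψ false y) := by
    refine isUnit_of_lmap hφ hnil ?_
    rw [hη]
    refine mul_ne_zero (HahnSeries.single_ne_zero one_ne_zero) ?_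
    exact ((PowerSeries.isUnit_iff_constantCoeff.2 (IsUnit.mk0 _ ha'0)).map (psl κ)).ne_zero
  -- the discriminant
  obtain ⟨c, hcP, hcD, hcH⟩ := hNDB (by omega) P hKP hz e G hZB hZG
  have hL : ∀ x ∈ ((zP hz : A[X] →ₐ[A] P) : A[X] →+* P).range, ∃ a : A[X],
      (x : LaurentSeries A) = zpol A d a := by
    rintro _ ⟨a, rfl⟩
    exact ⟨a, zP_val hz a⟩
  obtain ⟨hs, β, hβ, hβe⟩ := hNCO (psl A).range ((zP hz : A[X] →ₐ[A] P) : A[X] →+* P).range Ψ
    (fun k => ⟨e k, hZB.mem k⟩) (fun k => ⟨c k, hcP k⟩) ((d : P) * zP hz G.det) y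
    (fun x hx => by
      obtain ⟨a, ha⟩ := hL x hx
      rw [hΨz true a x ha, hΨz false a x ha])
    (fun x => by
      obtain ⟨a, ha, -⟩ := hZB.uni x x.2
      refine ⟨fun k => zP hz (a k), fun k => ⟨a k, rfl⟩, Subtype.ext ?_⟩
      rw [AddSubmonoidClass.coe_finsetSum]
      refine ha.trans (Finset.sum_congr rfl fun k _ => ?_)
      rw [← zP_val hz]
      rfl)
    (fun x H hH hxe l => by
      choose H' hH' using fun k l => hH k l
      refine Subtype.ext ?_
      rw [AddSubmonoidClass.coe_finsetSum]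
      have h1 := hcH x x.2 H' (fun k => by
        have h3 := congrArg Subtype.val (hxe k)
        rw [AddSubmonoidClass.coe_finsetSum] at h3
        refine h3.trans (Finset.sum_congr rfl fun l _ => ?_)
        rw [← zP_val hz, ← hH' l k]
        rfl) l
      refine h1.trans (Finset.sum_congr rfl fun k _ => ?_)
      rw [← zP_val hz, ← hH' l k]
      rfl)
    (by
      refine Subtype.ext ?_
      rw [AddSubmonoidClass.coe_finsetSum]
      refine hcD.trans ?_
      rw [← zP_val hz]
      rfl)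
    (mul_mem (natCast_mem _ d) ⟨G.det, rfl⟩)
    (fun x => by
      obtain ⟨a, b, hab⟩ := hT x
      exact ⟨_, _, ⟨a, rfl⟩, ⟨b, rfl⟩, hab⟩)
    hηu
  obtain ⟨τ, hτ⟩ := hs
  obtain ⟨β₀, rfl⟩ := hβ
  -- the substitution
  have htn : IsNilpotent t := by
    obtain ⟨n, hn⟩ := hnil
    refine ⟨n, ?_⟩
    have h3 := Ideal.pow_mem_pow (show t ∈ RingHom.ker (rs : A →+* κ) from hrt) n
    rw [hn] at h3
    exact h3
  obtain ⟨σ, hσ, hσN, hσr⟩ := hNSG t htn
  obtain ⟨y₀, hσy⟩ : ∃ y₀, σ y₀ = HahnSeries.single 1 1 - HahnSeries.single (-1) t :=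
    ⟨_, σ.apply_symm_apply _⟩
  have hy₀ : lmap (rs : A →+* κ) y₀ = HahnSeries.single 1 1 := by
    have e : (rs : A →+* κ) t = 0 := hrt
    rw [← hσr (rs : A →+* κ) hrt y₀, hσy, map_sub, lmap_single, lmap_single, map_one, e,
      HahnSeries.single_eq_zero, sub_zero]
  have hzev : zev s ((X - C s) ^ 2 - C (4 * t)) = y₀ * y₀ := by
    apply σ.injective
    have e1 : zev s ((X - C s) ^ 2 - C (4 * t)) =
        HahnSeries.single 1 1 ^ 2 - algebraMap A (LaurentSeries A) (4 * t) := by
      rw [zev, map_sub, map_pow, map_sub, aeval_X, aeval_C, aeval_C, add_sub_cancel_left]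
    have e2 : (HahnSeries.single 1 1 : LaurentSeries A) * HahnSeries.single (-1) t =
        algebraMap A (LaurentSeries A) t := by
      rw [HahnSeries.single_mul_single, one_mul, add_neg_cancel]
      rfl
    rw [e1, map_sub, map_pow, hσ, AlgEquiv.commutes, map_mul σ, hσy, map_mul, map_ofNat]
    linear_combination 4 * e2
  have hd1 : IsUnit ((d : ℕ) : A) := isUnit_of_rs hφ hnil (by
    rw [map_natCast]
    exact hdκ)
  have h21 : IsUnit (2 : A) := isUnit_of_rs hφ hnil (by
    rw [map_ofNat]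
    exact h2)
  have hW : IsUnit (PowerSeries.C 2 * PowerSeries.C (d : A) * zevP s u * zevP s h) := by
    refine (((h21.map PowerSeries.C).mul (hd1.map PowerSeries.C)).mul (hu.map (zevP s))).mul ?_
    rw [PowerSeries.isUnit_iff_constantCoeff, const_zevP]
    refine isUnit_of_rs hφ hnil ?_
    rw [← eval₂_at_apply, ← eval_map]
    exact hev
  have hβ' : ∃ β : PowerSeries A,
      psl A (PowerSeries.C 2 * PowerSeries.C (d : A) * zevP s u * zevP s h) * (y₀ * y₀) =
        psl A β * (Ψ true y - Ψ false y) ^ 2 := by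
    refine ⟨β₀, Eq.trans ?_ hβe⟩
    have e1 : Ψ true ((d : P) * zP hz G.det) =
        (d : LaurentSeries A) * (zev s u * (y₀ * y₀ * zev s h)) := by
      rw [map_mul (Ψ true), map_natCast, hΨz true G.det _ (zP_val hz _), hdet, map_mul (zev s),
        map_mul (zev s), hzev]
    have e2 : psl A (PowerSeries.C 2) = 2 := by rw [map_ofNat, map_ofNat]
    have e3 : psl A (PowerSeries.C (d : A)) = d := by rw [map_natCast, map_natCast]
    rw [e1, map_mul, map_mul, map_mul, e2, e3, psl_zevP, psl_zevP]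
    ring
  have hK := key hφ hnil h2 hW hy₀ hT ⟨τ, hτ.symm⟩ hβ' ha'0 hη
  let j : uno P →ₐ[A] KK Bool A :=
    { toFun := fun x b => σ (Ψ b ⟨(x : KK Unit A) (), x.2⟩)
      map_one' := funext fun b => by
        change σ (Ψ b 1) = 1
        rw [map_one, map_one]
      map_zero' := funext fun b => by
        change σ (Ψ b 0) = 0
        rw [map_zero, map_zero]
      map_add' := fun x y => funext fun b => by
        change σ (Ψ b (⟨(x : KK Unit A) (), x.2⟩ + ⟨(y : KK Unit A) (), y.2⟩)) = _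
        rw [map_add, map_add]
        rfl
      map_mul' := fun x y => funext fun b => by
        change σ (Ψ b (⟨(x : KK Unit A) (), x.2⟩ * ⟨(y : KK Unit A) (), y.2⟩)) = _
        rw [map_mul, map_mul]
        rfl
      commutes' := fun a => funext fun b => by
        change σ (Ψ b (algebraMap A P a)) = algebraMap A (LaurentSeries A) a
        rw [hΨz b (C a) _ (by rw [zpol, aeval_C]; rfl), zev, aeval_C, AlgEquiv.commutes] }
  have hj : ∀ (x : uno P) (b : Bool), j x b = σ (Ψ b ⟨(x : KK Unit A) (), x.2⟩) :=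
    fun x b => rfl
  refine ⟨j, fun p => ?_, fun z hz' => ?_, fun p r hr b => ?_⟩
  · obtain ⟨a, b, hab⟩ := hK ⟨(p : KK Unit A) (), p.2⟩
    have e : j p = (fun _ => σ (psl A a)) + (fun _ => σ (psl A b)) * (uv t true - uv t false) := by
      funext β
      rw [hj, hab β, map_add]
      change _ = σ (psl A a) + σ (psl A b) * (uv t true β - uv t false β)
      cases β
      · have e1 : uv t true false - uv t false false =
            -(HahnSeries.single 1 1 - HahnSeries.single (-1) t) := by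
          have h3 := PL0.uv_self t false
          have h4 := PL0.uv_not t true
          rw [Bool.not_true] at h4
          rw [h3, h4]
          ring
        rw [e1, ← hσy]
        simp only [Bool.false_eq_true, if_false, map_neg, map_mul, mul_neg]
      · have e1 : uv t true true - uv t false true =
            HahnSeries.single 1 1 - HahnSeries.single (-1) t := by
          have h3 := PL0.uv_self t true
          have h4 := PL0.uv_not t false
          rw [Bool.not_false] at h4
          rw [h3, h4]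
        rw [e1, ← hσy]
        simp only [if_true, map_mul]
    rw [e]
    exact add_mem (hσN a) (mul_mem (hσN b) (sub_mem (PL0.uv_mem t true) (PL0.uv_mem t false)))
  · funext b
    rw [hj, hΨz b X _ (by rw [zpol, aeval_X]; exact hz'), zev, aeval_X, map_add,
      AlgEquiv.commutes, hσ]
    change _ = algebraMap A (LaurentSeries A) s + uv t true b + uv t false b
    rw [add_assoc]
    congr 1
    cases b
    · have h3 := PL0.uv_self t false
      have h4 := PL0.uv_not t true
      rw [Bool.not_true] at h4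
      rw [h3, h4, add_comm]
    · have h3 := PL0.uv_self t true
      have h4 := PL0.uv_not t false
      rw [Bool.not_false] at h4
      rw [h3, h4]
  · rw [hj, hσr (rs : A →+* κ) hrt, hΨr]
    congr 2
    refine Subtype.ext ?_
    rw [hr]
    rfl

end Pool.Agent.MG.G0


end

section

/-!
# NPY: approximation at a node of the reduction
-/

open TensorProduct

namespace Pool.Agent.MG.G0

namespace NPY

section gen

variable {I A B : Type} [CommRing A] [CommRing B]

theorem psl_coeff (f : PowerSeries A) (n : ℕ) :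
    (psl A f).coeff (n : ℤ) = PowerSeries.coeff n f :=
  HahnSeries.ofPowerSeries_apply_coeff f n

theorem psl_neg (f : PowerSeries A) {m : ℤ} (h : m < 0) : (psl A f).coeff m = 0 := by
  rw [SUB.psl_coeff, if_pos h]

theorem psl_inj : Function.Injective (psl A) := HahnSeries.ofPowerSeries_injective

theorem psl_X_pow (n : ℕ) : psl A (PowerSeries.X ^ n) = HahnSeries.single (n : ℤ) 1 :=
  HahnSeries.ofPowerSeries_X_pow n

/-- A series without terms below `m` is `u^m` times a power series. -/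
theorem eq_single_mul (f : LaurentSeries A) (m : ℤ) (h : ∀ k < m, f.coeff k = 0) :
    f = HahnSeries.single m 1 * psl A (PowerSeries.mk fun i => f.coeff (m + i)) := by
  ext k
  obtain ⟨l, rfl⟩ : ∃ l, k = l + m := ⟨k - m, by ring⟩
  rw [HahnSeries.coeff_single_mul_add, one_mul]
  rcases lt_or_ge l 0 with h1 | h1
  · rw [psl_neg _ h1]
    exact h _ (by omega)
  · obtain ⟨i, rfl⟩ := Int.eq_ofNat_of_zero_le h1
    rw [psl_coeff, PowerSeries.coeff_mk, add_comm]

theorem mul_coeff_mem {J K : Ideal A} {f h : LaurentSeries A} (hf : ∀ m, f.coeff m ∈ J)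
    (hh : ∀ m, h.coeff m ∈ K) (m : ℤ) : (f * h).coeff m ∈ J * K := by
  rw [HahnSeries.coeff_mul]
  exact Ideal.sum_mem _ fun ij _ => Ideal.mul_mem_mul (hf _) (hh _)

theorem pow_coeff_mem {J : Ideal A} {a : LaurentSeries A} (ha : ∀ m, a.coeff m ∈ J) (n : ℕ) :
    ∀ m, (a ^ n).coeff m ∈ J ^ n := by
  induction n with
  | zero =>
    intro m
    rw [pow_zero, Ideal.one_eq_top]
    exact Submodule.mem_top
  | succ n ih =>
    intro m
    rw [pow_succ, pow_succ]
    exact mul_coeff_mem ih ha m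

theorem kmap_eq_zero_iff (φ : A →+* B) {f : KK I A} :
    kmap φ f = 0 ↔ ∀ i m, (f i).coeff m ∈ RingHom.ker φ := by
  constructor
  · intro h i m
    have h1 := congrArg (fun F : KK I B => (F i).coeff m) h
    exact h1
  · intro h
    funext i
    ext m
    exact h i m

/-- Units modulo a nilpotent kernel. -/
theorem isUnit_of_kmap {φ : A →+* B} {σ : B →+* A} (hσ : ∀ b, φ (σ b) = b)
    (hn : ∃ n : ℕ, RingHom.ker φ ^ n = ⊥) {y : KK I A} (h : IsUnit (kmap φ y)) : IsUnit y := by
  obtain ⟨n, hn⟩ := hn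
  obtain ⟨z, hz⟩ := h.exists_right_inv
  have h1 : kmap φ (y * kmap σ z - 1) = 0 := by
    have h2 : kmap φ (kmap σ z) = z := by
      funext i
      ext m
      exact hσ _
    rw [map_sub, map_mul, h2, hz, map_one, sub_self]
  rw [kmap_eq_zero_iff] at h1
  have h3 : IsNilpotent (y * kmap σ z - 1) := by
    refine ⟨n, ?_⟩
    funext i
    ext m
    have h4 := pow_coeff_mem (h1 i) n m
    rw [hn] at h4
    exact h4
  have h5 : IsUnit (y * kmap σ z) := by
    have h6 := h3.isUnit_one_add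
    rwa [add_sub_cancel] at h6
  exact isUnit_of_mul_isUnit_left h5

/-- Units of the base ring modulo a nilpotent kernel. -/
theorem isUnit_of_map {φ : A →+* B} {σ : B →+* A} (hσ : ∀ b, φ (σ b) = b)
    (hn : ∃ n : ℕ, RingHom.ker φ ^ n = ⊥) {y : A} (h : IsUnit (φ y)) : IsUnit y := by
  obtain ⟨n, hn⟩ := hn
  obtain ⟨z, hz⟩ := h.exists_right_inv
  have h1 : y * σ z - 1 ∈ RingHom.ker φ := by
    rw [RingHom.mem_ker, map_sub, map_mul, hσ, hz, map_one, sub_self]
  have h3 : IsNilpotent (y * σ z - 1) := by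
    refine ⟨n, ?_⟩
    have h4 := Ideal.pow_mem_pow h1 n
    rw [hn] at h4
    exact h4
  have h5 : IsUnit (y * σ z) := by
    have h6 := h3.isUnit_one_add
    rwa [add_sub_cancel] at h6
  exact isUnit_of_mul_isUnit_left h5

/-- Elements of `P` with coefficients in the kernel. -/
theorem mem_smul [Fintype I] [Nonempty I] (hKBT : Stmt_KBT) (φ : A →+* B) {g : ℕ}
    {P : Subalgebra A (KK I A)} (hP : IsKr g P) (p : P) (h : kmap φ (p : KK I A) = 0) :
    p ∈ RingHom.ker φ • (⊤ : Submodule A P) := by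
  obtain ⟨h1, -⟩ := hKBT (B := A ⧸ RingHom.ker φ) hP
  have h2 := h1 1 (fun _ => 1) (fun _ => p) (by
    rw [Fin.sum_univ_one, one_smul, kmap_eq_zero_iff]
    intro i m
    have h3 := (kmap_eq_zero_iff φ).1 h i m
    rw [RingHom.mem_ker]
    exact Ideal.Quotient.eq_zero_iff_mem.2 h3)
  rw [Fin.sum_univ_one] at h2
  rw [← Submodule.Quotient.mk_eq_zero, ← TensorProduct.quotTensorEquivQuotSMul_mk_one_tmul,
    h2, map_zero]

theorem kmap_smul_mem (φ : A →+* B) {P : Subalgebra A (KK I A)} {p : P}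
    (h : p ∈ RingHom.ker φ • (⊤ : Submodule A P)) : kmap φ (p : KK I A) = 0 := by
  refine Submodule.smul_induction_on h ?_ ?_
  · intro a ha x _
    change kmap φ (a • (x : KK I A)) = 0
    rw [kmap_smul, (RingHom.mem_ker).1 ha, zero_smul]
  · intro x y hx hy
    change kmap φ ((x : KK I A) + (y : KK I A)) = 0
    rw [map_add, hx, hy, add_zero]

theorem exists_lift {φ : A →+* B} {σ : B →+* A} (hσ : ∀ b, φ (σ b) = b)
    {P : Subalgebra A (KK I A)} {w : KK I B} (hw : w ∈ bc φ P) :
    ∃ p : P, kmap φ (p : KK I A) = w := by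
  refine Algebra.adjoin_induction (p := fun w _ => ∃ p : P, kmap φ (p : KK I A) = w)
    ?_ ?_ ?_ ?_ hw
  · rintro _ ⟨p, hp, rfl⟩
    exact ⟨⟨p, hp⟩, rfl⟩
  · intro b
    refine ⟨algebraMap A P (σ b), ?_⟩
    change kmap φ (algebraMap A (KK I A) (σ b)) = _
    rw [kmap_algebraMap, hσ]
  · rintro x y _ _ ⟨p, rfl⟩ ⟨q, rfl⟩
    exact ⟨p + q, map_add _ _ _⟩
  · rintro x y _ _ ⟨p, rfl⟩ ⟨q, rfl⟩
    exact ⟨p * q, map_mul _ _ _⟩

end gen

/-! ### The annulus -/

section annulus

variable {A : Type} [CommRing A] {t : A}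

/-- The coefficient of order `i` at `b`. -/
def cf (A : Type) [CommRing A] (b : Bool) (i : ℤ) : KK Bool A →ₗ[A] A where
  toFun F := (F b).coeff i
  map_add' F G := by rw [Pi.add_apply, HahnSeries.coeff_add]
  map_smul' a F := by rw [Pi.smul_apply, HahnSeries.coeff_smul, RingHom.id_apply]

theorem cf_apply (b : Bool) (i : ℤ) (F : KK Bool A) : cf A b i F = (F b).coeff i := rfl

/-- The combination of the elements `p b i` with the coefficients of a function on the annulus. -/
noncomputable def sec {M : Type} [AddCommGroup M] [Module A M] (m : ℕ) (o : M)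
    (p : Bool → ℕ → M) : KK Bool A →ₗ[A] M :=
  (cf A true 0).smulRight o +
    ∑ b : Bool, ∑ i ∈ Finset.Ico 1 m, (cf A b i).smulRight (p b i)

theorem sec_apply {M : Type} [AddCommGroup M] [Module A M] (m : ℕ) (o : M)
    (p : Bool → ℕ → M) (F : KK Bool A) : sec m o p F = (F true).coeff 0 • o +
      ∑ b : Bool, ∑ i ∈ Finset.Ico 1 m, (F b).coeff i • p b i := by
  rw [sec, LinearMap.add_apply, LinearMap.smulRight_apply, LinearMap.sum_apply, cf_apply]
  congr 1
  refine Finset.sum_congr rfl fun b _ => ?_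
  rw [LinearMap.sum_apply]
  refine Finset.sum_congr rfl fun i _ => ?_
  rw [LinearMap.smulRight_apply, cf_apply]

/-- A function on the annulus is determined, up to high order, by its coefficients. -/
theorem decomp {N : ℕ} (hN : t ^ N = 0) {m : ℕ} (hm : N ≤ m) {G : KK Bool A} (hG : G ∈ Nt t) :
    G - sec m 1 (fun b i => uv t b ^ i) G ∈ Pol Bool A (-(m : ℤ)) := by
  have h0 : sec m 1 (fun b i => uv t b ^ i) G ∈ Nt t := by
    rw [sec_apply]
    exact add_mem (Subalgebra.smul_mem _ (one_mem _) _) (sum_mem fun b _ => sum_mem fun i _ =>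
      Subalgebra.smul_mem _ (pow_mem (PL0.uv_mem t b) i) _)
  refine PL0.nt_small hN (sub_mem hG h0) hm fun b k hk => ?_
  rw [Pi.sub_apply, HahnSeries.coeff_sub, sec_apply, Pi.add_apply, HahnSeries.coeff_add,
    Finset.sum_apply, HahnSeries.coeff_sum]
  have h1 : ∀ c : Bool, ((∑ i ∈ Finset.Ico 1 m, (G c).coeff i • uv t c ^ i : KK Bool A) b).coeff
      (k : ℤ) = if c = b ∧ 1 ≤ k then (G b).coeff k else 0 := by
    intro c
    rw [Finset.sum_apply, HahnSeries.coeff_sum]
    rcases PL0.eq_or_not c b with rfl | rfl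
    · have h2 : ∀ i ∈ Finset.Ico 1 m, ((((G b).coeff i • uv t b ^ i : KK Bool A)) b).coeff
          (k : ℤ) = if k = i then (G b).coeff i else 0 := fun i _ =>
        PL0.coeff_smul_pow_self b _ i k
      rw [Finset.sum_congr rfl h2, Finset.sum_ite_eq]
      simp only [Finset.mem_Ico, true_and]
      split_ifs with h3 h4 h4
      · rfl
      · exact absurd h3.1 h4
      · exact absurd ⟨h4, hk⟩ h3
      · rfl
    · rw [if_neg (by simp)]
      refine Finset.sum_eq_zero fun i hi => ?_
      have h3 := Finset.mem_Ico.1 hi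
      exact PL0.coeff_smul_pow_not c _ i k (by omega)
  rw [Finset.sum_congr rfl fun c _ => h1 c, Fintype.sum_bool, Pi.smul_apply,
    HahnSeries.coeff_smul, Pi.one_apply, HahnSeries.coeff_one]
  rcases Nat.eq_zero_or_pos k with rfl | h4
  · have h5 : (G true).coeff 0 = (G b).coeff 0 := by
      cases b
      · exact PL0.nt_zero hG false
      · rfl
    simp [h5]
  · cases b
    · simp [h4.ne', Nat.one_le_iff_ne_zero]
    · simp [h4.ne', Nat.one_le_iff_ne_zero]

theorem sec_eq_zero {M : Type} [AddCommGroup M] [Module A M] {m : ℕ} (hm : 1 ≤ m) (o : M)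
    (p : Bool → ℕ → M) {F : KK Bool A} (hF : F ∈ Pol Bool A (-(m : ℤ))) : sec m o p F = 0 := by
  rw [sec_apply, hF true 0 (by omega), zero_smul, zero_add]
  refine Finset.sum_eq_zero fun b _ => Finset.sum_eq_zero fun i hi => ?_
  have h3 := Finset.mem_Ico.1 hi
  rw [hF b i (by omega), zero_smul]

theorem sec_mem {M : Type} [AddCommGroup M] [Module A M] {m : ℕ} (hm : 1 ≤ m) (o : M)
    (p : Bool → ℕ → M) {J : Ideal A} {S : Submodule A M} (ho : o ∈ S) (hp : ∀ b i, p b i ∈ S)
    {F : KK Bool A} (hF : ∀ b, ∀ i : ℕ, i < m → (F b).coeff i ∈ J) :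
    sec m o p F ∈ J • S := by
  rw [sec_apply]
  refine add_mem (Submodule.smul_mem_smul ?_ ho) (sum_mem fun b _ => sum_mem fun i hi => ?_)
  · exact hF true 0 (by omega)
  · exact Submodule.smul_mem_smul (hF b i (Finset.mem_Ico.1 hi).2) (hp b i)

/-- The map `sec` for approximations of the powers of `u` and `v`. -/
theorem map_sec {M : Type} [AddCommGroup M] [Module A M] (j : M →ₗ[A] KK Bool A) {N : ℕ}
    (hN : t ^ N = 0) {m : ℕ} (hm : N ≤ m) {o : M} {p : Bool → ℕ → M} (ho : j o = 1)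
    (hp : ∀ b i, j (p b i) - uv t b ^ i ∈ Pol Bool A (-(m : ℤ))) {G : KK Bool A}
    (hG : G ∈ Nt t) : j (sec m o p G) - G ∈ Pol Bool A (-(m : ℤ)) := by
  have h1 : j (sec m o p G) - G = (j (sec m o p G) - sec m 1 (fun b i => uv t b ^ i) G) -
      (G - sec m 1 (fun b i => uv t b ^ i) G) := by abel
  rw [h1]
  refine sub_mem ?_ (decomp hN hm hG)
  rw [sec_apply, sec_apply, map_add, map_smul, ho, add_sub_add_left_eq_sub, map_sum,
    ← Finset.sum_sub_distrib]
  refine sum_mem fun b _ => ?_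
  rw [map_sum, ← Finset.sum_sub_distrib]
  refine sum_mem fun i _ => ?_
  rw [map_smul, ← smul_sub]
  exact Submodule.smul_mem _ _ (hp b i)

end annulus

/-! ### The special fibre -/

section fibre

variable {I κ : Type} [Field κ] {R₀ : Subalgebra κ (KK I κ)}

theorem mem_Ipt {J : Type} {A : Type} [CommRing A] {P : Subalgebra A (KK I A)} {pt : J → FPt P}
    {x : P} : x ∈ Ipt pt ↔ ∀ b, PowerSeries.constantCoeff ((pt b).h x) = 0 := by
  rw [Ipt, Submodule.mem_iInf]
  exact Iff.rfl

theorem divide {pt₀ : Bool → FPt R₀} {y₀ e₀ : R₀} (hy₀ : y₀ ∈ Ipt pt₀)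
    (hlin : ∀ j, IsUnit (PowerSeries.coeff 1 ((pt₀ j).h y₀)))
    (hdiv : ∀ s ∈ Ipt pt₀, ∃ r : R₀, (1 - e₀) * s = y₀ * r) (k : ℕ) :
    ∀ (x : R₀) (f : Bool → PowerSeries κ), (∀ b, (pt₀ b).h x = (pt₀ b).h y₀ ^ k * f b) →
      ∃ r : R₀, (1 - e₀) ^ k * x = y₀ ^ k * r ∧
        ∀ b, (pt₀ b).h r = (1 - (pt₀ b).h e₀) ^ k * f b := by
  induction k with
  | zero =>
    intro x f hf
    refine ⟨x, by rw [pow_zero, pow_zero], fun b => ?_⟩
    rw [hf b, pow_zero, pow_zero]
  | succ k ih =>
    intro x f hf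
    have hne : ∀ b, (pt₀ b).h y₀ ≠ 0 := by
      intro b h0
      have h1 := hlin b
      rw [h0, map_zero] at h1
      exact not_isUnit_zero h1
    have hx : x ∈ Ipt pt₀ := by
      rw [mem_Ipt]
      intro b
      rw [hf b, pow_succ, map_mul, map_mul, (mem_Ipt.1 hy₀) b, mul_zero, zero_mul]
    obtain ⟨r₁, hr₁⟩ := hdiv x hx
    obtain ⟨r, hr, hr'⟩ := ih r₁ (fun b => (1 - (pt₀ b).h e₀) * f b) (fun b => by
      have h1 : (pt₀ b).h y₀ * (pt₀ b).h r₁ =
          (pt₀ b).h y₀ * ((pt₀ b).h y₀ ^ k * ((1 - (pt₀ b).h e₀) * f b)) := by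
        rw [← map_mul, ← hr₁, map_mul, map_sub, map_one, hf b, pow_succ]
        ring
      exact mul_left_cancel₀ (hne b) h1)
    refine ⟨r, ?_, fun b => ?_⟩
    · calc (1 - e₀) ^ (k + 1) * x = (1 - e₀) ^ k * ((1 - e₀) * x) := by ring
        _ = y₀ * ((1 - e₀) ^ k * r₁) := by rw [hr₁]; ring
        _ = y₀ ^ (k + 1) * r := by rw [hr]; ring
    · rw [hr' b, pow_succ]
      ring

/-- The `m`-th power of `1 - (1 - e₀)^k` vanishes to order `m`. -/
theorem low_pow {a : PowerSeries κ} (ha : PowerSeries.constantCoeff a = 0) (k m i : ℕ)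
    (hi : i < m) : PowerSeries.coeff i ((1 - (1 - a) ^ k) ^ m) = 0 := by
  have h1 : PowerSeries.X ∣ 1 - (1 - a) ^ k := by
    rw [PowerSeries.X_dvd_iff, map_sub, map_pow, map_sub, ha, map_one, sub_zero, one_pow, sub_self]
  exact (PowerSeries.X_pow_dvd_iff.1 (pow_dvd_pow_of_dvd h1 m)) i hi

end fibre

/-! ### Density -/

section main

variable {I κ A : Type} [Field κ] [CommRing A] {φ : A →+* κ} {σ : κ →+* A}
  {P : Subalgebra A (KK I A)} {R₀ : Subalgebra κ (KK I κ)} {pt₀ : Bool → FPt R₀} {t : A} {N : ℕ}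
  {j : P →ₐ[A] KK Bool A}

/-- The situation at the node. -/
structure Hyp (φ : A →+* κ) (σ : κ →+* A) (pt₀ : Bool → FPt R₀) (t : A) (N : ℕ)
    (j : P →ₐ[A] KK Bool A) : Prop where
  hσ : ∀ b, φ (σ b) = b
  nil : ∃ n : ℕ, RingHom.ker φ ^ n = ⊥
  hN : t ^ N = 0
  ht : φ t = 0
  one : 1 ≤ N
  mem : ∀ p, j p ∈ Nt t
  lift : ∀ r : R₀, PowerSeries.constantCoeff ((pt₀ true).h r) =
    PowerSeries.constantCoeff ((pt₀ false).h r) → ∃ p : P, kmap φ (p : KK I A) = r
  red : ∀ p : P, ∃ r : R₀, (r : KK I κ) = kmap φ (p : KK I A)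
  hj : ∀ (p : P) (r : R₀), (r : KK I κ) = kmap φ (p : KK I A) → ∀ b,
    lmap φ (j p b) = psl κ ((pt₀ b).h r)
  sm : ∀ p : P, kmap φ (p : KK I A) = 0 → p ∈ RingHom.ker φ • (⊤ : Submodule A P)
  tay : ∀ (n : ℕ) (f : Bool → PowerSeries κ), ∃ r : R₀,
    ∀ b, ∀ m < n, PowerSeries.coeff m ((pt₀ b).h r) = PowerSeries.coeff m (f b)

theorem Hyp.coeff (H : Hyp φ σ pt₀ t N j) {p : P} {r : R₀}
    (h : (r : KK I κ) = kmap φ (p : KK I A)) (b : Bool) (i : ℕ) :
    φ ((j p b).coeff i) = PowerSeries.coeff i ((pt₀ b).h r) := by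
  have h1 := congrArg (fun f : LaurentSeries κ => f.coeff (i : ℤ)) (H.hj p r h b)
  rw [← psl_coeff]
  exact h1

theorem Hyp.dens (H : Hyp φ σ pt₀ t N j) {m : ℕ} (hm : N ≤ m) {F : KK Bool A}
    (hF : F ∈ Nt t) : ∃ p : P, j p - F ∈ Pol Bool A (-(m : ℤ)) := by
  have hm1 : 1 ≤ m := H.one.trans hm
  have key : Subalgebra.toSubmodule (Nt t) ≤
      LinearMap.range j.toLinearMap ⊔ Pol Bool A (-(m : ℤ)) := by
    refine KFL.nak H.nil fun F hF => ?_
    obtain ⟨r, hr⟩ := H.tay m fun b => PowerSeries.mk fun i => φ ((F b).coeff i)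
    obtain ⟨p, hp⟩ := H.lift r (by
      rw [← PowerSeries.coeff_zero_eq_constantCoeff_apply,
        ← PowerSeries.coeff_zero_eq_constantCoeff_apply, hr true 0 (by omega),
        hr false 0 (by omega), PowerSeries.coeff_mk, PowerSeries.coeff_mk, Nat.cast_zero]
      exact congrArg φ (PL0.nt_zero hF false))
    have hG : F - j p ∈ Nt t := sub_mem hF (H.mem p)
    have hGc : ∀ b, ∀ i : ℕ, i < m → ((F - j p) b).coeff i ∈ RingHom.ker φ := by
      intro b i hi
      rw [RingHom.mem_ker, Pi.sub_apply, HahnSeries.coeff_sub, map_sub, H.coeff hp.symm,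
        hr b i hi, PowerSeries.coeff_mk, sub_self]
    have e : F = j p + ((F - j p) - sec m 1 (fun b i => uv t b ^ i) (F - j p)) +
        sec m 1 (fun b i => uv t b ^ i) (F - j p) := by abel
    rw [e]
    refine Submodule.add_mem_sup (Submodule.add_mem_sup ⟨p, rfl⟩ (decomp H.hN hm hG)) ?_
    exact sec_mem hm1 1 _ (one_mem (Nt t)) (fun b i => pow_mem (PL0.uv_mem t b) i) hGc
  obtain ⟨_, ⟨p, rfl⟩, q, hq, hpq⟩ := Submodule.mem_sup.1 (key hF)
  refine ⟨p, ?_⟩
  rw [← hpq]
  change j p - (j p + q) ∈ _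
  rw [sub_add_cancel_left]
  exact neg_mem hq

/-- Lifts of elements which vanish to high order. -/
theorem Hyp.lift_low (H : Hyp φ σ pt₀ t N j) {m : ℕ} (hm : N ≤ m) {r : R₀}
    (hr : ∀ b, ∀ i < m, PowerSeries.coeff i ((pt₀ b).h r) = 0) :
    ∃ p : P, kmap φ (p : KK I A) = r ∧ j p ∈ Pol Bool A (-(m : ℤ)) := by
  have hm1 : 1 ≤ m := H.one.trans hm
  choose p₀ hp₀ using fun (b : Bool) (i : ℕ) => H.dens hm (pow_mem (PL0.uv_mem t b) i)
  obtain ⟨p₁, hp₁⟩ := H.lift r (by
    rw [← PowerSeries.coeff_zero_eq_constantCoeff_apply,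
      ← PowerSeries.coeff_zero_eq_constantCoeff_apply, hr true 0 (by omega),
      hr false 0 (by omega)])
  have h1 : sec m 1 p₀ (j p₁) ∈ RingHom.ker φ • (⊤ : Submodule A P) :=
    sec_mem hm1 1 _ Submodule.mem_top (fun _ _ => Submodule.mem_top) fun b i hi => by
      rw [RingHom.mem_ker, H.coeff hp₁.symm, hr b i hi]
  refine ⟨p₁ - sec m 1 p₀ (j p₁), ?_, ?_⟩
  · change kmap φ ((p₁ : KK I A) - ((sec m 1 p₀ (j p₁) : P) : KK I A)) = _
    rw [map_sub, kmap_smul_mem φ h1, sub_zero, hp₁]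
  · have h2 := map_sec j.toLinearMap H.hN hm (o := (1 : P)) (map_one j) hp₀ (H.mem p₁)
    rw [map_sub, ← neg_sub]
    exact neg_mem h2

/-- The elements of `P` divisible by `(j y)^L` on the annulus. -/
noncomputable def KY (t : A) (j : P →ₐ[A] KK Bool A) (Y : KK Bool A) : Submodule A P :=
  ((Subalgebra.toSubmodule (Nt t)).map (LinearMap.mulLeft A Y)).comap j.toLinearMap

theorem mem_KY {Y : KK Bool A} {q : P} : q ∈ KY t j Y ↔ ∃ F ∈ Nt t, j q = Y * F := by
  constructor
  · rintro ⟨F, hF, h⟩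
    exact ⟨F, hF, h.symm⟩
  · rintro ⟨F, hF, h⟩
    exact ⟨F, hF, h.symm⟩

theorem Hyp.mul_KY (H : Hyp φ σ pt₀ t N j) {Y : KK Bool A} (p : P) {q : P}
    (hq : q ∈ KY t j Y) : p * q ∈ KY t j Y := by
  obtain ⟨F, hF, h⟩ := mem_KY.1 hq
  refine mem_KY.2 ⟨j p * F, mul_mem (H.mem p) hF, ?_⟩
  rw [map_mul, h]
  ring

theorem pow_mem_Pol {J B : Type} [CommRing B] {f : KK J B} {n : ℤ} (h : f ∈ Pol J B n) (L : ℕ) :
    f ^ L ∈ Pol J B (L * n) := by
  induction L with
  | zero =>
    rw [pow_zero, Nat.cast_zero, zero_mul]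
    exact one_mem_Pol0
  | succ L ih =>
    rw [pow_succ]
    refine Pol_mono ?_ (mul_mem_Pol ih h)
    push_cast
    linarith

/-- Elements which vanish to high order are in `KY`. -/
theorem Hyp.low_KY (H : Hyp φ σ pt₀ t N j) {Y V : KK Bool A} (hV : Y * V = 1) {k : ℕ}
    (hVk : V ∈ Pol Bool A k) {q : P} (hq : j q ∈ Pol Bool A (-((k + N : ℕ) : ℤ))) :
    q ∈ KY t j Y := by
  refine mem_KY.2 ⟨j q * V, ?_, ?_⟩
  · refine (t_PL0 t N H.hN).1 N le_rfl _ (Pol_mono ?_ (mul_mem_Pol hq hVk))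
    push_cast
    linarith
  · rw [mul_left_comm, hV, mul_one]

/-- Elements of `KY` with coefficients in the kernel. -/
theorem Hyp.ker_KY (H : Hyp φ σ pt₀ t N j) {Y V : KK Bool A} (hV : Y * V = 1) {k : ℕ}
    (hVk : V ∈ Pol Bool A k) (hY : Y ∈ Pol Bool A 0) {z w : P} (hw : j w = Y)
    (hz : z ∈ KY t j Y) (hz0 : kmap φ (z : KK I A) = 0) :
    z ∈ LinearMap.range (LinearMap.mulLeft A w) ⊔ RingHom.ker φ • KY t j Y := by
  have hm : N ≤ k + N := by omega
  have hm1 : 1 ≤ k + N := H.one.trans hm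
  choose p₀ hp₀ using fun (b : Bool) (i : ℕ) => H.dens hm (pow_mem (PL0.uv_mem t b) i)
  obtain ⟨F, hF, hzF⟩ := mem_KY.1 hz
  have hFV : F = j z * V := by
    rw [hzF, mul_right_comm, hV, one_mul]
  have hFc : ∀ b, ∀ i : ℕ, i < k + N → (F b).coeff i ∈ RingHom.ker φ := by
    intro b i _
    have h1 : lmap φ (F b) = 0 := by
      have h2 := H.hj z 0 (by rw [hz0]; rfl) b
      rw [map_zero, map_zero] at h2
      rw [hFV, Pi.mul_apply, map_mul, h2, zero_mul]
    exact congrArg (fun f : LaurentSeries κ => f.coeff (i : ℤ)) h1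
  have hx := sec_mem hm1 (1 : P) p₀ (J := RingHom.ker φ) (S := ⊤) Submodule.mem_top
    (fun _ _ => Submodule.mem_top) hFc
  have hxF := map_sec j.toLinearMap H.hN hm (o := (1 : P)) (map_one j) hp₀ hF
  set x : P := sec (k + N) 1 p₀ F with hxdef
  -- the projection
  let π : P →ₗ[A] P := LinearMap.id - sec (k + N) 1 p₀ ∘ₗ j.toLinearMap
  have hπ : ∀ q, π q = q - sec (k + N) 1 p₀ (j q) := fun q => rfl
  have hπK : ∀ q, π q ∈ KY t j Y := by
    intro q
    refine H.low_KY hV hVk ?_
    have h1 := map_sec j.toLinearMap H.hN hm (o := (1 : P)) (map_one j) hp₀ (H.mem q)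
    rw [hπ, map_sub, ← neg_sub]
    exact neg_mem h1
  have hz' : z - w * x ∈ RingHom.ker φ • (⊤ : Submodule A P) := by
    refine sub_mem (H.sm z hz0) ?_
    have h1 : w * x ∈ (RingHom.ker φ • (⊤ : Submodule A P)).map (LinearMap.mulLeft A w) :=
      ⟨x, hx, rfl⟩
    rw [Submodule.map_smul''] at h1
    exact Submodule.smul_mono le_rfl le_top h1
  have hjz' : j (z - w * x) ∈ Pol Bool A (-((k + N : ℕ) : ℤ)) := by
    have h1 : j (z - w * x) = Y * -(j x - F) := by
      rw [map_sub, map_mul, hw, hzF]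
      ring
    rw [h1]
    refine Pol_mono ?_ (mul_mem_Pol hY (neg_mem hxF))
    rw [zero_add]
  have hfix : π (z - w * x) = z - w * x := by
    rw [hπ, sec_eq_zero hm1 _ _ hjz', sub_zero]
  have h2 : z - w * x ∈ RingHom.ker φ • KY t j Y := by
    have h3 : π (z - w * x) ∈ (RingHom.ker φ • (⊤ : Submodule A P)).map π := ⟨_, hz', rfl⟩
    rw [hfix, Submodule.map_smul''] at h3
    refine Submodule.smul_mono le_rfl ?_ h3
    rintro _ ⟨q, -, rfl⟩
    exact hπK q
  rw [← add_sub_cancel (w * x) z]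
  exact Submodule.add_mem_sup ⟨x, rfl⟩ h2

/-- The main step. -/
theorem Hyp.step (H : Hyp φ σ pt₀ t N j) {y₀ e₀ : R₀} (hy₀ : y₀ ∈ Ipt pt₀) (he₀ : e₀ ∈ Ipt pt₀)
    (hlin : ∀ j, IsUnit (PowerSeries.coeff 1 ((pt₀ j).h y₀)))
    (hdiv : ∀ s ∈ Ipt pt₀, ∃ r : R₀, (1 - e₀) * s = y₀ * r) {y : P}
    (hy : kmap φ (y : KK I A) = ((y₀ ^ N : R₀) : KK I κ)) {v : KK Bool A} (hv : j y * v = 1)
    (hvN : v ∈ Pol Bool A N) (hyN : j y ∈ Pol Bool A (-(N : ℤ))) (L : ℕ) {e₁ : P}
    (he₁ : kmap φ (e₁ : KK I A) =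
      (((1 - (1 - e₀) ^ (N * L)) ^ (N * L + N) : R₀) : KK I κ))
    {x : P} (hx : x ∈ KY t j (j y ^ L)) : (1 - e₁) * x ∈
      LinearMap.range (LinearMap.mulLeft A (y ^ L)) ⊔ RingHom.ker φ • KY t j (j y ^ L) := by
  have hvL : j y ^ L * v ^ L = 1 := by rw [← mul_pow, hv, one_pow]
  have hvLN : v ^ L ∈ Pol Bool A ((N * L : ℕ) : ℤ) := by
    refine Pol_mono ?_ (pow_mem_Pol hvN L)
    push_cast
    linarith
  have hyL : j y ^ L ∈ Pol Bool A 0 := by
    refine Pol_mono ?_ (pow_mem_Pol hyN L)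
    have : (0 : ℤ) ≤ L * N := by positivity
    linarith
  obtain ⟨F, hF, hxF⟩ := mem_KY.1 hx
  obtain ⟨r₁, hr₁⟩ := H.red x
  -- the power series of `F` over `κ`
  have hFb : ∀ b, lmap φ (F b) = psl κ (PowerSeries.mk fun i => φ ((F b).coeff i)) := by
    intro b
    ext n
    rw [lmap_coeff]
    rcases lt_or_ge n 0 with h | h
    · obtain ⟨i, hi⟩ := Int.eq_ofNat_of_zero_le (neg_nonneg.2 h.le)
      have h1 : n = -(i : ℤ) := by omega
      rw [psl_neg _ h, PL0.nt_neg hF b h1, map_mul, map_pow, H.ht, zero_pow (by omega), zero_mul]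
    · obtain ⟨i, rfl⟩ := Int.eq_ofNat_of_zero_le h
      rw [psl_coeff, PowerSeries.coeff_mk]
  have hr₁F : ∀ b, (pt₀ b).h r₁ = (pt₀ b).h y₀ ^ (N * L) *
      PowerSeries.mk fun i => φ ((F b).coeff i) := by
    intro b
    apply psl_inj
    rw [← H.hj x r₁ hr₁ b, hxF, Pi.mul_apply, map_mul, hFb, Pi.pow_apply, map_pow,
      H.hj y (y₀ ^ N) hy.symm b, map_mul, map_pow, map_pow, map_pow, pow_mul]
  obtain ⟨r, hr, hr'⟩ := divide hy₀ hlin hdiv (N * L) r₁ _ hr₁F
  have hce : ∀ b, PowerSeries.constantCoeff ((pt₀ b).h e₀) = 0 := mem_Ipt.1 he₀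
  set w' : R₀ := ∑ i ∈ Finset.range (N * L + N), (1 - (1 - e₀) ^ (N * L)) ^ i with hw'
  have hgeo : 1 - (1 - (1 - e₀) ^ (N * L)) ^ (N * L + N) = w' * (1 - e₀) ^ (N * L) := by
    have h1 := geom_sum_mul (1 - (1 - e₀) ^ (N * L)) (N * L + N)
    rw [← hw'] at h1
    linear_combination h1
  have hcw : ∀ b, PowerSeries.constantCoeff ((pt₀ b).h w') = 1 := by
    intro b
    rw [hw', map_sum, map_sum, Finset.sum_eq_single 0]
    · rw [pow_zero, map_one, map_one]
    · intro i _ hi
      simp only [map_pow, map_sub, map_one, hce, sub_zero, one_pow, sub_self, zero_pow hi]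
    · intro h
      exact absurd (Finset.mem_range.2 (by have := H.one; omega)) h
  obtain ⟨ρ, hρ⟩ := H.lift (w' * r) (by
    have h1 : ∀ b, PowerSeries.constantCoeff ((pt₀ b).h (w' * r)) = φ ((F b).coeff 0) := by
      intro b
      rw [map_mul, map_mul, hcw, one_mul, hr' b, map_mul, map_pow, map_sub, hce, map_one,
        sub_zero, one_pow, one_mul, ← PowerSeries.coeff_zero_eq_constantCoeff_apply,
        PowerSeries.coeff_mk, Nat.cast_zero]
    rw [h1, h1]
    exact congrArg φ (PL0.nt_zero hF false))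
  have hz0 : kmap φ (((1 - e₁) * x - y ^ L * ρ : P) : KK I A) = 0 := by
    change kmap φ ((1 - (e₁ : KK I A)) * (x : KK I A) - (y : KK I A) ^ L * (ρ : KK I A)) = 0
    have h1 : ((1 - (1 - (1 - e₀) ^ (N * L)) ^ (N * L + N)) * r₁ - (y₀ ^ N) ^ L * (w' * r) :
        R₀) = 0 := by
      rw [hgeo, mul_assoc, hr, ← pow_mul]
      ring
    rw [map_sub, map_mul, map_sub, map_one, map_mul, map_pow, he₁, hy, hρ, ← hr₁]
    exact congrArg (fun f : R₀ => (f : KK I κ)) h1
  have hzK : (1 - e₁) * x - y ^ L * ρ ∈ KY t j (j y ^ L) := by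
    refine sub_mem (H.mul_KY _ hx) (mem_KY.2 ⟨j ρ, H.mem ρ, ?_⟩)
    rw [map_mul, map_pow]
  have h4 := H.ker_KY hvL hvLN hyL (w := y ^ L) (map_pow j y L) hzK hz0
  rw [← add_sub_cancel (y ^ L * ρ) ((1 - e₁) * x)]
  exact add_mem (Submodule.mem_sup_left ⟨ρ, rfl⟩) h4

end main

theorem iter {A M : Type} [CommRing A] [AddCommGroup M] [Module A M] (J : Ideal A)
    (ψ : M →ₗ[A] M) (K T : Submodule A M) (hT : ∀ x ∈ T, ψ x ∈ T)
    (h : ∀ x ∈ K, ψ x ∈ T ⊔ J • K) (n : ℕ) : ∀ x ∈ K, (ψ ^ n) x ∈ T ⊔ J ^ n • K := by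
  induction n with
  | zero =>
    intro x hx
    rw [pow_zero, pow_zero, Ideal.one_eq_top, Submodule.top_smul]
    exact Submodule.mem_sup_right hx
  | succ n ih =>
    intro x hx
    have h0 : (ψ ^ (n + 1)) x = ψ ((ψ ^ n) x) := by
      rw [pow_succ' ψ n, Module.End.mul_apply]
    obtain ⟨a, ha, b, hb, hab⟩ := Submodule.mem_sup.1 (ih x hx)
    rw [h0, ← hab, map_add]
    refine add_mem (Submodule.mem_sup_left (hT a ha)) ?_
    have h1 : ψ b ∈ (J ^ n • K).map ψ := ⟨b, hb, rfl⟩
    rw [Submodule.map_smul''] at h1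
    have h2 : K.map ψ ≤ T ⊔ J • K := by
      rintro _ ⟨y, hy, rfl⟩
      exact h y hy
    have h3 := Submodule.smul_mono (le_refl (J ^ n)) h2 h1
    rw [Submodule.smul_sup, ← Submodule.mul_smul, ← pow_succ] at h3
    have h4 : J ^ n • T ⊔ J ^ (n + 1) • K ≤ T ⊔ J ^ (n + 1) • K :=
      sup_le_sup_right Submodule.smul_le_right _
    exact h4 h3

theorem coeff_pow_lin {B : Type} [CommRing B] {a : PowerSeries B}
    (ha : PowerSeries.constantCoeff a = 0) (n : ℕ) :
    PowerSeries.coeff n (a ^ n) = PowerSeries.coeff 1 a ^ n := by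
  obtain ⟨c, rfl⟩ := PowerSeries.X_dvd_iff.2 ha
  have h1 : PowerSeries.coeff 1 (PowerSeries.X * c) = PowerSeries.constantCoeff c := by
    have h2 := PowerSeries.coeff_succ_X_mul 0 c
    rw [zero_add] at h2
    rw [h2, PowerSeries.coeff_zero_eq_constantCoeff_apply]
  have h3 := PowerSeries.coeff_X_pow_mul (c ^ n) n 0
  rw [zero_add] at h3
  rw [h1, mul_pow, h3, PowerSeries.coeff_zero_eq_constantCoeff_apply, map_pow]

end NPY

theorem t_NPY (_hKSP : Stmt_KSP) (hKBT : Stmt_KBT) (hAYE : Stmt_AYE) (_hPL0 : Stmt_PL0)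
    (hPL2 : Stmt_PL2) : Stmt_NPY := by
  intro I κ A _ _ _ _ _ rs g P R₀ pt₀ t j hnil hP hR₀ _ hSm hd ht hPT hmem hj
  obtain ⟨-, -, htay, y₀, e₀, d, hy₀, he₀, -, hmon, hlin, hdiv⟩ := hAYE hR₀ hSm pt₀ hd
  obtain ⟨n, hn⟩ := hnil
  have hσ : ∀ b : κ, (rs : A →+* κ) (algebraMap κ A b) = b := fun b => rs.commutes b
  have H : NPY.Hyp (rs : A →+* κ) (algebraMap κ A) pt₀ t (n + 1) j := by
    refine ⟨hσ, ⟨n, hn⟩, ?_, ht, by omega, hmem, fun r hr => ?_, fun p => ?_, hj,
      fun p hp => NPY.mem_smul hKBT _ hP p hp, htay⟩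
    · have h1 : t ^ n ∈ RingHom.ker (rs : A →+* κ) ^ n := Ideal.pow_mem_pow ht n
      rw [hn] at h1
      rw [pow_succ, (Ideal.mem_bot).1 h1, zero_mul]
    · have h1 : (r : KK I κ) ∈ PT pt₀ 0 := (hPL2.2.2 hR₀ hSm pt₀ hd _).2 ⟨r, rfl, hr⟩
      rw [hPT] at h1
      exact NPY.exists_lift hσ h1
    · have h1 : kmap (rs : A →+* κ) (p : KK I A) ∈ PT pt₀ 0 := by
        rw [hPT]
        exact kmap_mem_bc _ p.2
      obtain ⟨r, hr, -⟩ := (hPL2.2.2 hR₀ hSm pt₀ hd _).1 h1
      exact ⟨r, hr⟩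
  have hcy : ∀ b, PowerSeries.constantCoeff ((pt₀ b).h y₀) = 0 := NPY.mem_Ipt.1 hy₀
  have hce : ∀ b, PowerSeries.constantCoeff ((pt₀ b).h e₀) = 0 := NPY.mem_Ipt.1 he₀
  refine ⟨fun F hF m => ?_, ?_⟩
  · obtain ⟨p, hp⟩ := H.dens (m := max m (n + 1)) (le_max_right _ _) hF
    exact ⟨p, Pol_mono (by omega) hp⟩
  obtain ⟨y, hy, hyN⟩ := H.lift_low (m := n + 1) le_rfl (r := y₀ ^ (n + 1)) (fun b i hi => by
    rw [map_pow]
    exact (PowerSeries.X_pow_dvd_iff.1 (pow_dvd_pow_of_dvd
      (PowerSeries.X_dvd_iff.2 (hcy b)) (n + 1))) i hi)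
  have ha : ∀ b, ∃ a : PowerSeries A, IsUnit a ∧
      j y b = HahnSeries.single ((n + 1 : ℕ) : ℤ) 1 * psl A a := by
    intro b
    refine ⟨_, ?_, NPY.eq_single_mul (j y b) ((n + 1 : ℕ) : ℤ) (fun k hk => hyN b k (by omega))⟩
    rw [PowerSeries.isUnit_iff_constantCoeff, ← PowerSeries.coeff_zero_eq_constantCoeff_apply,
      PowerSeries.coeff_mk, Nat.cast_zero, add_zero]
    refine NPY.isUnit_of_map hσ ⟨n, hn⟩ ?_
    rw [H.coeff hy.symm, map_pow, NPY.coeff_pow_lin (hcy b)]
    exact (hlin b).pow _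
  refine ⟨n + 1, y, by omega, H.hN, ?_, ha, fun L => ?_⟩
  · refine NPY.isUnit_of_kmap hσ ⟨n, hn⟩ ?_
    rw [hy, Pi.isUnit_iff]
    intro i
    change IsUnit (((y₀ : KK I κ) i) ^ (n + 1))
    refine IsUnit.pow _ (IsUnit.mk0 _ fun h0 => ?_)
    have h1 := hmon.2 i
    rw [h0, HahnSeries.coeff_zero] at h1
    exact zero_ne_one h1
  · choose a hau hya using ha
    choose c hc using fun b => (hau b).exists_right_inv
    obtain ⟨v, hv, hvN⟩ : ∃ v : KK Bool A, j y * v = 1 ∧ v ∈ Pol Bool A ((n + 1 : ℕ) : ℤ) := by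
      refine ⟨fun b => SUB.ta A (-((n + 1 : ℕ) : ℤ)) * psl A (c b), ?_, ?_⟩
      · funext b
        change j y b * (SUB.ta A (-((n + 1 : ℕ) : ℤ)) * psl A (c b)) = 1
        rw [hya b]
        change SUB.ta A ((n + 1 : ℕ) : ℤ) * psl A (a b) *
          (SUB.ta A (-((n + 1 : ℕ) : ℤ)) * psl A (c b)) = 1
        rw [mul_mul_mul_comm, SUB.ta_mul, ← map_mul, hc b, map_one, mul_one, add_neg_cancel,
          SUB.ta_zero]
      · intro b k hk
        refine mul_low (a := -((n + 1 : ℕ) : ℤ)) (b := 0) (fun m hm => ?_)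
          (fun m hm => NPY.psl_neg _ hm) k (by omega)
        rw [SUB.ta_coeff, if_neg (by omega)]
    obtain ⟨e₁, he₁, he₁N⟩ := H.lift_low (m := (n + 1) * L + (n + 1)) (by omega)
      (r := (1 - (1 - e₀) ^ ((n + 1) * L)) ^ ((n + 1) * L + (n + 1))) (fun b i hi => by
        have h1 : (pt₀ b).h ((1 - (1 - e₀) ^ ((n + 1) * L)) ^ ((n + 1) * L + (n + 1))) =
            (1 - (1 - (pt₀ b).h e₀) ^ ((n + 1) * L)) ^ ((n + 1) * L + (n + 1)) := by
          rw [map_pow, map_sub, map_one, map_pow, map_sub, map_one]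
        rw [h1]
        exact NPY.low_pow (hce b) _ _ i hi)
    have hstep : ∀ x ∈ NPY.KY t j (j y ^ L), (1 - e₁) * x ∈ _ := fun x hx =>
      H.step hy₀ he₀ hlin hdiv hy hv hvN hyN L he₁ hx
    have hvLN : v ^ L ∈ Pol Bool A (((n + 1) * L : ℕ) : ℤ) := by
      refine Pol_mono ?_ (NPY.pow_mem_Pol hvN L)
      push_cast
      linarith
    have he₁K : e₁ ∈ NPY.KY t j (j y ^ L) :=
      H.low_KY (by rw [← mul_pow, hv, one_pow]) hvLN he₁N
    have heK : 1 - (1 - e₁) ^ n ∈ NPY.KY t j (j y ^ L) := by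
      have h1 := sub_dvd_pow_sub_pow (1 : P) (1 - e₁) n
      rw [one_pow, sub_sub_cancel] at h1
      obtain ⟨z, hz⟩ := h1
      rw [hz, mul_comm]
      exact H.mul_KY z he₁K
    refine ⟨1 - (1 - e₁) ^ n, NPY.mem_KY.1 heK, fun q hq => ?_⟩
    have h2 := NPY.iter (RingHom.ker (rs : A →+* κ)) (LinearMap.mulLeft A (1 - e₁))
      (NPY.KY t j (j y ^ L)) (LinearMap.range (LinearMap.mulLeft A (y ^ L)))
      (by
        rintro _ ⟨r, rfl⟩
        refine ⟨(1 - e₁) * r, ?_⟩
        rw [LinearMap.mulLeft_apply, LinearMap.mulLeft_apply, LinearMap.mulLeft_apply]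
        ring) hstep n q (NPY.mem_KY.2 hq)
    rw [hn, Submodule.bot_smul, sup_bot_eq, LinearMap.pow_mulLeft, LinearMap.mulLeft_apply] at h2
    obtain ⟨r, hr⟩ := h2
    rw [LinearMap.mulLeft_apply] at hr
    refine ⟨r, ?_⟩
    rw [hr, sub_sub_cancel]

end Pool.Agent.MG.G0


end
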