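import Mathlib
import Pool.Agent.KDM.C02
import Pool.Agent.KDM.C08
import Pool.Agent.KDM.C15
import Pool.Agent.KDM.C22
import Pool.Agent.KDM.C24
import Pool.Agent.KDM.C25
import Pool.Agent.KDM.C26
import Pool.Agent.KDM.C28
import Pool.Agent.KDM.C30
import Pool.Agent.KDM.C39
import Pool.Agent.KDM.C54
import Pool.Agent.KDM.C65

/-! Parts: MG.WL.CL.LS, MG.WL.CL.MPC, MG.WL.CL.CE, MG.WL.CL.EXT, MG.WL.CL.POLE, MG.WL.CL.SMP, MG.WL.DEC, MG.WL.TAU, MG.KX.MTR, MG.KX.PDC, MG.G0.MFE, MG.G0.EEF, MG.G0.UPO -/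

section

/-!
# The smooth locus of a nodal curve is dense
-/

open CategoryTheory AlgebraicGeometry IsLocalRing TensorProduct

namespace Pool.Agent.MG.WL.CL

namespace LS_

open NOD L_

theorem pir_down {R S : Type} [CommRing R] [IsLocalRing R] [CommRing S] [IsLocalRing S]
    [Algebra R S] (h : EU R S) [IsDomain S] [IsNoetherianRing S] (t : S)
    (ht : maximalIdeal S = Ideal.span {t}) : IsDomain R ∧ IsPrincipalIdealRing R := by
  have hnoe := h.noeth_down
  have hdom : IsDomain R := h.inj.isDomain (algebraMap R S)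
  have hmax := h.map_max
  refine ⟨hdom, ?_⟩
  by_cases h0 : t = 0
  · have h1 : maximalIdeal R = Ideal.span {0} := by
      rw [← h.comap_map (maximalIdeal R), hmax, ht, h0]
      have h2 := h.comap_map ⊥
      rw [Ideal.map_bot] at h2
      simpa using h2
    exact Two.isPrincipalIdealRing_of_maximalIdeal 0 h1
  · obtain ⟨r, hr, hrt⟩ : ∃ r ∈ maximalIdeal R,
        algebraMap R S r ∉ Ideal.span {t} * maximalIdeal S := by
      by_contra hcon
      push Not at hcon
      have h1 : maximalIdeal S ≤ Ideal.span {t} * maximalIdeal S := by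
        rw [← hmax, Ideal.map_le_iff_le_comap]
        intro r hr
        have := hcon r hr
        rw [← hmax] at this
        exact this
      have h2 : t ∈ Ideal.span {t} * maximalIdeal S := by
        apply h1
        rw [ht]
        exact Ideal.mem_span_singleton_self t
      rw [Ideal.mem_span_singleton_mul] at h2
      obtain ⟨s, hs, hs'⟩ := h2
      have h3 : s = 1 := by
        apply mul_left_cancel₀ h0
        rw [hs', mul_one]
      rw [h3] at hs
      exact (maximalIdeal.isMaximal S).ne_top ((Ideal.eq_top_iff_one _).2 hs)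
    have hrS : algebraMap R S r ∈ maximalIdeal S := by
      rw [← hmax]
      exact Ideal.mem_map_of_mem _ hr
    rw [ht, Ideal.mem_span_singleton] at hrS
    obtain ⟨w, hw⟩ := hrS
    have hwu : IsUnit w := by
      by_contra hwn
      apply hrt
      rw [hw]
      exact Ideal.mul_mem_mul (Ideal.mem_span_singleton_self t) hwn
    have h4 : Ideal.span {algebraMap R S r} = maximalIdeal S := by
      rw [ht, hw]
      obtain ⟨w, rfl⟩ := hwu
      exact Ideal.span_singleton_mul_right_unit w.isUnit t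
    have h5 : maximalIdeal R = Ideal.span {r} := by
      rw [← h.comap_map (maximalIdeal R), hmax, ← h4, ← h.comap_map (Ideal.span {r}),
        Ideal.map_span, Set.image_singleton]
    exact Two.isPrincipalIdealRing_of_maximalIdeal r h5

variable {k : Type} [Field k]

theorem stalk_pid {X U : Scheme.{0}} (f : U ⟶ X) [Etale f] (h : U ⟶ Sp (NodeRing k)) [Etale h]
    (u : U) (hu : uu k + vv k ∉ (h u : PrimeSpectrum (NodeRing k)).asIdeal) :
    IsDomain (X.presheaf.stalk (f u)) ∧ IsPrincipalIdealRing (X.presheaf.stalk (f u)) := by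
  obtain ⟨alg, hloc⟩ := exists_alg (CommRingCat.of (NodeRing k)) (h u)
  let a2 : Algebra ((Sp (NodeRing k)).presheaf.stalk (h u)) (U.presheaf.stalk u) :=
    (h.stalkMap u).hom.toAlgebra
  let a3 : Algebra (NodeRing k) ((Sp (NodeRing k)).presheaf.stalk (h u)) := alg
  have hp : (h u : PrimeSpectrum (NodeRing k)).asIdeal.IsPrime := (h u).2
  have hl : @IsLocalization.AtPrime (NodeRing k) _ ((Sp (NodeRing k)).presheaf.stalk (h u)) _ a3
    (h u : PrimeSpectrum (NodeRing k)).asIdeal hp := hloc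
  have hcase := node_cases (R := (Sp (NodeRing k)).presheaf.stalk (h u))
    (h u : PrimeSpectrum (NodeRing k)).asIdeal
  rcases hcase with ⟨h1, h2⟩ | ⟨h1, h2, -⟩
  · have hEU : EU ((Sp (NodeRing k)).presheaf.stalk (h u)) (U.presheaf.stalk u) := eu_stalk h u
    obtain ⟨⟨h3, -⟩, t, ht⟩ := hEU.pid
    have h4 := hEU.noeth
    let a4 : Algebra (X.presheaf.stalk (f u)) (U.presheaf.stalk u) :=
      (f.stalkMap u).hom.toAlgebra
    exact pir_down (eu_stalk f u) t ht
  · exact absurd (Ideal.add_mem _ h1 h2) hu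

end LS_

open _root_.Pool.Agent.MG.WL.CL.LS_ NOD L_

theorem t_LS : Stmt_LS := by
  intro k _ X π hπ W ⟨⟨x, hx⟩⟩
  obtain ⟨U, f, h, hf, hh, -, u, rfl⟩ := hπ x
  let G : (Sp (NodeRing k)).Opens := PrimeSpectrum.basicOpen (uu k + vv k)
  let W' : U.Opens := f ⁻¹ᵁ W
  have hfo : IsOpenMap f := f.isOpenMap
  have hho : IsOpenMap h := h.isOpenMap
  let V' : U.Opens := W' ⊓ h ⁻¹ᵁ G
  have hV' : ∃ u', u' ∈ V' := by
    have h1 : IsOpen (h '' (W' : Set U)) := hho _ W'.isOpen
    have h2 : h u ∈ h '' (W' : Set U) := ⟨u, hx, rfl⟩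
    obtain ⟨_, ⟨a, rfl⟩, ha1, ha2⟩ := PrimeSpectrum.isTopologicalBasis_basic_opens.isOpen_iff.1 h1
      _ h2
    have h3 : ¬ IsNilpotent (a * (uu k + vv k)) := by
      rintro ⟨n, hn⟩
      rw [mul_pow] at hn
      have h4 : ∀ m : ℕ, ∀ z : NodeRing k, z * (uu k + vv k) ^ m = 0 → z = 0 := by
        intro m
        induction m with
        | zero =>
          intro z hz
          rwa [pow_zero, mul_one] at hz
        | succ m ih =>
          intro z hz
          apply ih
          apply SmNod.regular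
          rw [← hz]
          ring
      have h5 : IsNilpotent a := ⟨n, h4 n _ hn⟩
      exact ha1 (nilpotent_iff_mem_prime.1 h5 _ (h u).2)
    rw [nilpotent_iff_mem_prime] at h3
    push Not at h3
    obtain ⟨P, hP, hPa⟩ := h3
    let y : PrimeSpectrum (NodeRing k) := ⟨P, hP⟩
    have h6 : y ∈ (PrimeSpectrum.basicOpen a : Set (PrimeSpectrum (NodeRing k))) := by
      intro hmem
      exact hPa (P.mul_mem_right _ hmem)
    obtain ⟨u', hu', hu''⟩ := ha2 h6
    refine ⟨u', hu', ?_⟩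
    change h u' ∈ G
    rw [hu'']
    intro hmem
    exact hPa (P.mul_mem_left _ hmem)
  obtain ⟨u', hu'⟩ := hV'
  refine ⟨⟨f '' (V' : Set U), hfo _ V'.isOpen⟩, ⟨⟨f u', u', hu', rfl⟩⟩, ?_, ?_⟩
  · rintro _ ⟨v, hv, rfl⟩
    exact hv.1
  · rintro _ ⟨v, hv, rfl⟩
    exact stalk_pid f h v hv.2

end Pool.Agent.MG.WL.CL


end

section

/-!
# MPC: minimal primes of local rings of reduced schemes
-/

open CategoryTheory AlgebraicGeometry IsLocalRing TopologicalSpace
open Pool.Agent.MG.Two Pool.Agent.MG.W Pool.Agent.MG.W.W0 Pool.Agent.MG.One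

namespace Pool.Agent.MG.WL.CL

namespace MPC_

variable {X : Scheme.{0}}

/-- The prime ideal of a generisation. -/
noncomputable def pr {x y : X} (h : y ⤳ x) : Ideal (X.presheaf.stalk x) :=
  (maximalIdeal (X.presheaf.stalk y)).comap (X.presheaf.stalkSpecializes h).hom

theorem pr_prime {x y : X} (h : y ⤳ x) : (pr h).IsPrime := by
  unfold pr
  infer_instance

/-- The local rings at the generic points are fields. -/
theorem max_bot [IsReduced X] (hG : Stmt_GSP) {η : X} (hη : Gen η) :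
    maximalIdeal (X.presheaf.stalk η) = ⊥ := by
  rw [eq_bot_iff]
  intro a ha
  obtain ⟨h1, -, h3⟩ := hG η
  have h4 : IsNilpotent a := by
    rw [nilpotent_iff_mem_prime]
    intro P hP
    obtain ⟨y, h, hy⟩ := h1 P hP
    have e : y = η := hη y h
    subst e
    rw [← hy, h3 h]
    exact ha
  exact h4.eq_zero

theorem ker_eq [IsReduced X] (hG : Stmt_GSP) {x η : X} (h : η ⤳ x) (hη : Gen η) :
    RingHom.ker (X.presheaf.stalkSpecializes h).hom = pr h := by
  unfold pr
  rw [max_bot hG hη]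
  rfl

end MPC_

open _root_.Pool.Agent.MG.WL.CL.MPC_ in
theorem t_MPC (hG : Stmt_GSP) : Stmt_MPC := by
  intro X _ x
  obtain ⟨g1, g2, -⟩ := hG x
  have g2' : ∀ (y y' : X) (h : y ⤳ x) (h' : y' ⤳ x), pr h ≤ pr h' ↔ y ⤳ y' := g2
  have g1' : ∀ P : Ideal (X.presheaf.stalk x), P.IsPrime → ∃ (y : X) (h : y ⤳ x), pr h = P := g1
  refine ⟨?_, ?_, ?_⟩
  · intro η h hη
    rw [ker_eq hG h hη]
    refine ⟨⟨pr_prime h, bot_le⟩, ?_⟩
    rintro Q ⟨hQ, -⟩ hle
    obtain ⟨y, hy, rfl⟩ := g1' Q hQ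
    have e : y = η := hη y ((g2' y η hy h).1 hle)
    subst e
    exact le_rfl
  · intro η η' h h' hη hη' he
    rw [ker_eq hG h hη, ker_eq hG h' hη'] at he
    exact hη' η ((g2' η η' h h').1 he.le)
  · intro P hP
    obtain ⟨y, h, rfl⟩ := g1' P hP.1.1
    have hy : Gen y := by
      intro z hz
      have hzx : z ⤳ x := hz.trans h
      have h1 : pr hzx ≤ pr h := (g2' z y hzx h).2 hz
      have h2 : pr h ≤ pr hzx := hP.2 ⟨pr_prime hzx, bot_le⟩ h1
      exact (hz.antisymm ((g2' y z h hzx).1 h2)).eq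
    exact ⟨y, h, hy, ker_eq hG h hy⟩

end Pool.Agent.MG.WL.CL


end

section

/-!
# CE: the irreducible components of a nodal curve
-/

open CategoryTheory AlgebraicGeometry IsLocalRing TopologicalSpace
open Pool.Agent.MG.Two Pool.Agent.MG.W Pool.Agent.MG.W.W0 Pool.Agent.MG.One

namespace Pool.Agent.MG.WL.CL

namespace CE_

/-- The quotient by the kernel of a map to a reduced ring is reduced. -/
theorem isReduced_quot {A B : Type} [CommRing A] [CommRing B] [_root_.IsReduced B] (f : A →+* B)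
    (I : Ideal A) (hI : I = RingHom.ker f) : _root_.IsReduced (A ⧸ I) := by
  subst hI
  have h := RingHom.kerLift_injective f
  exact isReduced_of_injective (RingHom.kerLift f) h

theorem isReduced_comp {X : Scheme.{0}} [IsNoetherian X] [IsReduced X] {Z : Set X}
    (hZ : Z ∈ irreducibleComponents X) : IsReduced (X.irreducibleComponent Z hZ) := by
  let I := X.irreducibleComponentIdeal Z hZ
  have h : ∀ U : X.affineOpens, _root_.IsReduced (Γ(X, U) ⧸ I.ideal U) := by
    intro U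
    apply isReduced_quot ((X.irreducibleComponentOpen Z).ι.app U.1).hom
    rw [← Scheme.Hom.ker_apply]
    congr 1
    exact X.irreducibleComponentIdeal_def Z hZ
  have h2 : ∀ U : I.subschemeCover.openCover.I₀, IsReduced (I.subschemeCover.openCover.X U) := by
    intro U
    have h3 : _root_.IsReduced (I.subschemeCover.X U) := h U
    exact (inferInstance : IsReduced (Spec (I.subschemeCover.X U)))
  exact IsReduced.of_openCover _ I.subschemeCover.openCover

/-- The generic point of a component. -/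
theorem gen_of_range {E X : Scheme.{0}} (ι : E ⟶ X) [IsClosedImmersion ι] [IsIntegral E]
    (hr : Set.range ι ∈ irreducibleComponents X) : Gen (ι (genericPoint E)) := by
  intro y hy
  have h1 : closure {ι (genericPoint E)} = Set.range ι := by
    have h2 := ι.isClosedEmbedding.closure_image_eq {genericPoint E}
    rw [Set.image_singleton, genericPoint_closure, Set.image_univ] at h2
    exact h2
  have h3 : Set.range ι ⊆ closure {y} := by
    rw [← h1]
    exact hy.closure_subset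
  have h4 : closure {y} ⊆ Set.range ι := hr.2 isIrreducible_singleton.closure h3
  have h5 : ι (genericPoint E) ⤳ y := by
    rw [specializes_iff_mem_closure, h1]
    exact h4 (subset_closure rfl)
  exact (hy.antisymm h5).eq

/-- The kernel on local rings. -/
theorem ker_min (hM : Stmt_MPC) {E X : Scheme.{0}} (ι : E ⟶ X) [IsClosedImmersion ι]
    [IsIntegral E] [IsReduced X] (hr : Set.range ι ∈ irreducibleComponents X)
    (hf : IsField (X.presheaf.stalk (ι (genericPoint E)))) (y : E) :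
    RingHom.ker (ι.stalkMap y).hom ∈ minimalPrimes (X.presheaf.stalk (ι y)) := by
  have hs : genericPoint E ⤳ y := genericPoint_specializes y
  have hs' : ι (genericPoint E) ⤳ ι y := hs.map ι.continuous
  have h1 := (hM (ι y)).1 _ hs' (gen_of_range ι hr)
  have h2 : RingHom.ker (ι.stalkMap y).hom =
      RingHom.ker (X.presheaf.stalkSpecializes hs').hom := by
    ext a
    rw [RingHom.mem_ker, RingHom.mem_ker]
    have h3 := Scheme.Hom.stalkSpecializes_stalkMap_apply ι _ _ hs a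
    have i1 : Function.Injective (E.presheaf.stalkSpecializes hs).hom := by
      have := IsFractionRing.injective (E.presheaf.stalk y) E.functionField
      exact this
    let _ := hf.toField
    have i2 : Function.Injective (ι.stalkMap (genericPoint E)).hom :=
      (ι.stalkMap (genericPoint E)).hom.injective
    constructor
    · intro h
      apply i2
      rw [map_zero]
      refine Eq.trans h3 ?_
      refine Eq.trans (congrArg (E.presheaf.stalkSpecializes hs).hom h) ?_
      exact map_zero _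
    · intro h
      apply i1
      rw [map_zero]
      refine Eq.trans h3.symm ?_
      refine Eq.trans (congrArg (ι.stalkMap (genericPoint E)).hom h) ?_
      exact map_zero _
  rw [h2]
  exact h1

/-- The dimension of the component. -/
theorem dim1 {A B : Type} [CommRing A] [IsLocalRing A] [CommRing B] [IsLocalRing B] [IsDomain B]
    (f : A →+* B) [IsLocalHom f] (hf : Function.Surjective f) (hA : NodeLoc A) (P : Ideal B)
    (hP : P.IsPrime) : P = ⊥ ∨ P = maximalIdeal B := by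
  rcases hA.dim (P.comap f) inferInstance with h | h
  · left
    rw [eq_bot_iff]
    intro b hb
    obtain ⟨a, rfl⟩ := hf b
    have h1 : RingHom.ker f ≤ P.comap f := Ideal.comap_mono bot_le
    have h2 : P.comap f ≤ RingHom.ker f := h.2 ⟨RingHom.ker_isPrime f, bot_le⟩ h1
    exact h2 hb
  · right
    refine le_antisymm (IsLocalRing.le_maximalIdeal hP.ne_top) ?_
    intro b hb
    obtain ⟨a, rfl⟩ := hf b
    have h1 : a ∈ maximalIdeal A := by
      rw [mem_maximalIdeal, mem_nonunits_iff] at hb ⊢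
      exact fun h => hb (h.map f)
    rw [← h] at h1
    exact h1

end CE_

open _root_.Pool.Agent.MG.WL.CL.CE_ in
theorem t_CE (hLS : Stmt_LS) (hG : Stmt_GSP) (hM : Stmt_MPC) : Stmt_CE := by
  have _ : Stmt_GSP := @hG
  intro k _ X π _ hN hL Z hZ
  have i1 := LocallyOfFiniteType.isLocallyNoetherian π
  have i2 := QuasiCompact.compactSpace_of_compactSpace π
  have i3 : IsNoetherian X := {}
  have hred : ∀ x : X, _root_.IsReduced (X.presheaf.stalk x) := fun x => (hL x).red
  have i4 : IsReduced X := isReduced_of_isReduced_stalk X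
  have i5 : IsReduced (X.irreducibleComponent Z hZ) := isReduced_comp hZ
  have hint : IsIntegral (X.irreducibleComponent Z hZ) :=
    isIntegral_of_irreducibleSpace_of_isReduced _
  have hran : Set.range (X.irreducibleComponentι Z hZ) = Z := by
    ext x
    constructor
    · rintro ⟨y, rfl⟩
      exact y.2
    · intro hx
      exact ⟨⟨x, hx⟩, rfl⟩
  have hr : Set.range (X.irreducibleComponentι Z hZ) ∈ irreducibleComponents X := by
    rw [hran]
    exact hZ
  refine ⟨X.irreducibleComponent Z hZ, X.irreducibleComponentι Z hZ, ?_, hran⟩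
  have hsur := fun y => (X.irreducibleComponentι Z hZ).stalkMap_surjective y
  refine ⟨inferInstance, hint, hr, ?_, ?_, ?_⟩
  · intro y
    refine ker_min hM _ hr ?_ y
    apply isField_stalk_of_closure_mem_irreducibleComponents
    have h2 := (X.irreducibleComponentι Z hZ).isClosedEmbedding.closure_image_eq
      {genericPoint (X.irreducibleComponent Z hZ)}
    rw [Set.image_singleton, genericPoint_closure, Set.image_univ] at h2
    rw [h2]
    exact hr
  · intro y P hP
    exact dim1 ((X.irreducibleComponentι Z hZ).stalkMap y).hom (hsur y) (hL _) P hP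
  · have hcl := closure_sUnion_irreducibleComponents_sdiff_singleton
      (NoetherianSpace.finite_irreducibleComponents (α := X)) Z hZ
    have hW : Nonempty (X.irreducibleComponentOpen Z) := by
      have h1 : (closure (⋃₀ (irreducibleComponents X \ {Z}))ᶜ).Nonempty := by
        rw [hcl]
        exact hZ.1.nonempty
      exact (closure_nonempty_iff.1 h1).to_subtype
    obtain ⟨V, hV, hVW, hV2⟩ := hLS π hN (X.irreducibleComponentOpen Z) hW
    obtain ⟨v, hv⟩ := hV
    have hvZ : v ∈ Z := by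
      rw [← hcl]
      exact subset_closure (hVW hv)
    refine ⟨(X.irreducibleComponentι Z hZ) ⁻¹ᵁ V, ⟨⟨⟨v, hvZ⟩, hv⟩⟩, ?_⟩
    intro y hy
    have h3 := (hV2 _ hy).2
    exact IsPrincipalIdealRing.of_surjective ((X.irreducibleComponentι Z hZ).stalkMap y).hom
      (hsur y)

end Pool.Agent.MG.WL.CL


end

section

/-!
# EXT: extension by zero of a vector field from a component
-/

open CategoryTheory AlgebraicGeometry IsLocalRing TopologicalSpace
open Pool.Agent.MG.Two Pool.Agent.MG.W Pool.Agent.MG.W.W0 Pool.Agent.MG.One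

namespace Pool.Agent.MG.WL.CL

namespace EXT_

variable {E X : Scheme.{0}}

theorem app_coef {k : Type} [Field k] (π : X ⟶ Sp k) (ι : E ⟶ X) (U : X.Opens) (c : k) :
    (ι.app U).hom (coef π U c) = coef (ι ≫ π) (ι ⁻¹ᵁ U) c := by
  have h := coef_comp π ι U (ι ⁻¹ᵁ U) le_rfl c
  rw [Scheme.Hom.appLE_eq_app] at h
  exact h

section gen

variable {ι : E ⟶ X} [IsIntegral E]

/-- The image of the generic point. -/
theorem range_le (ι : E ⟶ X) : Set.range ι ⊆ closure {ι (genericPoint E)} := by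
  rintro _ ⟨z, rfl⟩
  have h1 : genericPoint E ⤳ z := (genericPoint_spec E).specializes trivial
  exact specializes_iff_mem_closure.1 (h1.map ι.continuous)

theorem gen_gen (h : IsComp ι) : Gen (ι (genericPoint E)) := by
  intro y hy
  have h2 : ι (genericPoint E) ∈ closure {y} := specializes_iff_mem_closure.1 hy
  have h3 : Set.range ι ⊆ closure {y} := (range_le ι).trans
    (closure_minimal (Set.singleton_subset_iff.2 h2) isClosed_closure)
  have h4 : closure {y} ⊆ Set.range ι := h.range.2 isIrreducible_singleton.closure h3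
  have h5 : y ∈ closure {ι (genericPoint E)} := range_le ι (h4 (subset_closure rfl))
  exact (hy.antisymm (specializes_iff_mem_closure.2 h5)).eq

theorem exists_pt (h : IsComp ι) {x : X} (hx : ι (genericPoint E) ⤳ x) : ∃ y : E, ι y = x := by
  have hcl := h.cl
  have h1 : IsClosed (Set.range ι) := ι.isClosedEmbedding.isClosed_range
  have h2 : closure {ι (genericPoint E)} ⊆ Set.range ι :=
    closure_minimal (Set.singleton_subset_iff.2 ⟨_, rfl⟩) h1
  exact h2 (specializes_iff_mem_closure.1 hx)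

theorem bij (hM : Stmt_MPC) [IsReduced X] (h : IsComp ι) :
    Function.Bijective (ι.stalkMap (genericPoint E)).hom := by
  have hcl := h.cl
  refine ⟨?_, ι.stalkMap_surjective (genericPoint E)⟩
  have h1 := (hM (ι (genericPoint E))).1 _ (specializes_refl _) (gen_gen h)
  have h2 : RingHom.ker (X.presheaf.stalkSpecializes
      (specializes_refl (ι (genericPoint E)))).hom = ⊥ := by
    rw [TopCat.Presheaf.stalkSpecializes_refl]
    ext z
    rfl
  rw [h2] at h1
  have h3 := h.ker_min (genericPoint E)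
  have h4 : RingHom.ker (ι.stalkMap (genericPoint E)).hom = ⊥ := by
    rw [eq_bot_iff]
    exact h3.2 ⟨h1.1.1, bot_le⟩ bot_le
  exact (RingHom.injective_iff_ker_eq_bot _).2 h4

/-- The local ring at the generic point is the function field. -/
noncomputable def φ (hM : Stmt_MPC) [IsReduced X] (h : IsComp ι) :
    X.presheaf.stalk (ι (genericPoint E)) ≃+* E.functionField :=
  RingEquiv.ofBijective (ι.stalkMap (genericPoint E)).hom (bij hM h)

theorem φ_spec (hM : Stmt_MPC) [IsReduced X] (h : IsComp ι) (y : E)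
    (hy : ι (genericPoint E) ⤳ ι y) (g : X.presheaf.stalk (ι y)) :
    φ hM h (X.presheaf.stalkSpecializes hy g) =
      algebraMap (E.presheaf.stalk y) E.functionField (ι.stalkMap y g) :=
  Scheme.Hom.stalkSpecializes_stalkMap_apply ι (genericPoint E) y
    ((genericPoint_spec E).specializes trivial) g

theorem φ_germ (hM : Stmt_MPC) [IsReduced X] (h : IsComp ι) (U : X.Opens)
    (hU : ι (genericPoint E) ∈ U) (a : Γ(X, U)) :
    φ hM h (X.presheaf.germ U _ hU a) =
      E.presheaf.germ (ι ⁻¹ᵁ U) (genericPoint E) hU (ι.app U a) :=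
  Scheme.Hom.germ_stalkMap_apply ι U (genericPoint E) hU a

end gen

theorem gen_comp {y : X} (hy : Gen y) : closure {y} ∈ irreducibleComponents X := by
  refine ⟨isIrreducible_singleton.closure, ?_⟩
  intro Z hZ hle
  have hZ' : IsIrreducible (closure Z) := hZ.closure
  have hg := hZ'.isGenericPoint_genericPoint isClosed_closure
  have h1 : y ∈ closure Z := subset_closure (hle (subset_closure rfl))
  have h2 : hZ'.genericPoint ⤳ y := by
    rw [specializes_iff_mem_closure, hg.def]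
    exact h1
  have h3 := hy _ h2
  intro z hz
  have h4 : z ∈ closure Z := subset_closure hz
  rw [← hg.def, h3] at h4
  exact h4

theorem mem_dbl {y y' x : X} (hy : Gen y) (hy' : Gen y') (hne : y ≠ y') (h : y ⤳ x)
    (h' : y' ⤳ x) : x ∈ dbl X := by
  refine ⟨_, gen_comp hy, _, gen_comp hy', ?_, specializes_iff_mem_closure.1 h,
    specializes_iff_mem_closure.1 h'⟩
  intro he
  apply hne
  have h1 : y ∈ closure {y'} := he ▸ subset_closure rfl
  exact (hy _ (specializes_iff_mem_closure.2 h1)).symm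

/-- The section of a point of the spectrum of a field. -/
theorem sec_zero {k : Type} [Field k] (σ : Sp k ⟶ X) (U : X.Opens) (s : Γ(X, U))
    (h : ∀ (q : Sp k) (hq : σ q ∈ U), X.presheaf.germ U (σ q) hq s ∈ maximalIdeal _) :
    (σ.app U).hom s = 0 := by
  have hr : IsReduced (Sp k) := by
    unfold Sp
    infer_instance
  apply eq_zero_of_basicOpen_eq_bot
  rw [← Scheme.preimage_basicOpen]
  rw [eq_bot_iff]
  intro q hq
  have h1 : σ q ∈ X.basicOpen s := hq
  have h2 : σ q ∈ U := X.basicOpen_le s h1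
  rw [Scheme.mem_basicOpen X s _ h2] at h1
  exact ((mem_maximalIdeal _).1 (h q h2) h1).elim

end EXT_

open _root_.Pool.Agent.MG.WL.CL.EXT_ in
theorem t_EXT (hU : Stmt_UNQ) (_hG : Stmt_GSP) (hM : Stmt_MPC) (hV : Stmt_VF) : Stmt_EXT := by
  intro k _ _ C hprop hnod hL q E ι h _ δ hδ hd hq hf
  have hst : ∀ x : C.X, _root_.IsReduced (C.X.presheaf.stalk x) := fun x => (hL x).red
  have hred : IsReduced C.X := isReduced_of_isReduced_stalk C.X
  have hnoe : NoetherianSpace C.X := by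
    have h1 : IsLocallyNoetherian C.X := LocallyOfFiniteType.isLocallyNoetherian C.π
    have h2 : CompactSpace C.X := QuasiCompact.compactSpace_of_compactSpace C.π
    have h3 : IsNoetherian C.X := {}
    infer_instance
  have hcl := h.cl
  set η : C.X := ι (genericPoint E) with hη
  have hgen : Gen η := gen_gen h
  let e := φ hM h
  let D : C.X.presheaf.stalk η → C.X.presheaf.stalk η := fun g => e.symm (δ (e g))
  have heD : ∀ g, e (D g) = δ (e g) := fun g => e.apply_symm_apply _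
  have hlift : ∀ (x : C.X) (hx : η ⤳ x) (g : C.X.presheaf.stalk x), ∃ g' : C.X.presheaf.stalk x,
      C.X.presheaf.stalkSpecializes hx g' = D (C.X.presheaf.stalkSpecializes hx g) ∧
      ∀ (y : C.X) (hy : y ⤳ x), Gen y → y ≠ η → C.X.presheaf.stalkSpecializes hy g' = 0 := by
    intro x hx g
    obtain ⟨y, rfl⟩ := exists_pt h hx
    have hOg : algebraMap (E.presheaf.stalk y) E.functionField (ι.stalkMap y g) ∈ O y := ⟨_, rfl⟩
    have hkey : ∀ (g' : C.X.presheaf.stalk (ι y)),
        algebraMap (E.presheaf.stalk y) E.functionField (ι.stalkMap y g') =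
          δ (algebraMap (E.presheaf.stalk y) E.functionField (ι.stalkMap y g)) →
        C.X.presheaf.stalkSpecializes hx g' = D (C.X.presheaf.stalkSpecializes hx g) := by
      intro g' hg'
      apply e.injective
      rw [heD]
      have h1 := φ_spec hM h y hx g'
      have h2 := φ_spec hM h y hx g
      rw [show e = φ hM h from rfl, h1, h2, hg']
    by_cases hex : ∃ (y' : C.X), ∃ (_ : y' ⤳ ι y), Gen y' ∧ y' ≠ η
    · obtain ⟨y', hy', hg', hne⟩ := hex
      have hdb : ι y ∈ dbl C.X := mem_dbl hgen hg' (Ne.symm hne) hx hy'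
      obtain ⟨a, ha, haδ⟩ := hd y hdb _ hOg
      obtain ⟨m, hm⟩ := ι.stalkMap_surjective y a
      have hmm : m ∈ maximalIdeal (C.X.presheaf.stalk (ι y)) := by
        rw [mem_maximalIdeal, mem_nonunits_iff]
        intro hu
        rw [mem_maximalIdeal, mem_nonunits_iff] at ha
        apply ha
        rw [← hm]
        exact hu.map (ι.stalkMap y).hom
      obtain ⟨m1, m2, -⟩ := hM (ι y)
      have hP1 := m1 η hx hgen
      have hP2 := m1 y' hy' hg'
      have hP12 : RingHom.ker (C.X.presheaf.stalkSpecializes hx).hom ≠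
          RingHom.ker (C.X.presheaf.stalkSpecializes hy').hom := fun he =>
        hne (m2 η y' hx hy' hgen hg' he).symm
      have hsum := (hL (ι y)).sum _ hP1 _ hP2 hP12
      rw [← hsum, Submodule.mem_sup] at hmm
      obtain ⟨p1, hp1, p2, hp2, hp⟩ := hmm
      have hp1' : C.X.presheaf.stalkSpecializes hx p1 = 0 := hp1
      have hp2' : C.X.presheaf.stalkSpecializes hy' p2 = 0 := hp2
      refine ⟨p2, ?_, ?_⟩
      · have h1 : C.X.presheaf.stalkSpecializes hx m = C.X.presheaf.stalkSpecializes hx p2 := by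
          rw [← hp, map_add, hp1', zero_add]
        rw [← h1]
        apply hkey
        rw [← haδ]
        exact congrArg _ hm
      · intro y'' hy'' hg'' hne''
        have hP3 := m1 y'' hy'' hg''
        rcases (hL (ι y)).two _ hP1 _ hP2 hP12 _ hP3 with h3 | h3
        · exact (hne'' (m2 y'' η hy'' hx hg'' hgen h3)).elim
        · have h4 : p2 ∈ RingHom.ker (C.X.presheaf.stalkSpecializes hy'').hom := by
            rw [h3]
            exact hp2
          exact h4
    · obtain ⟨a, ha⟩ := hδ.reg y _ hOg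
      obtain ⟨g', hg'⟩ := ι.stalkMap_surjective y a
      refine ⟨g', hkey g' ?_, ?_⟩
      · rw [← ha]
        exact congrArg _ hg'
      · intro y' hy' hgy hne
        exact (hex ⟨y', hy', hgy, hne⟩).elim
  obtain ⟨F, hF1, hF2, hF3, hF4⟩ := hV η hgen D hlift
  have hD0 : ∀ a b, D (a + b) = D a + D b := by
    intro a b
    apply e.injective
    rw [map_add, heD, heD, heD, map_add, hδ.add]
  have hDm : ∀ a b, D (a * b) = a * D b + b * D a := by
    intro a b
    apply e.injective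
    rw [map_add, map_mul, map_mul, heD, heD, heD, map_mul, hδ.mul]
  have hadd : ∀ (U : C.X.Opens) (a b : Γ(C.X, U)), F U (a + b) = F U a + F U b := by
    intro U a b
    refine hU U _ _ fun y hy hgy => ?_
    by_cases hne : y = η
    · subst hne
      rw [hF1 U hy, map_add, map_add, hF1 U hy, hF1 U hy, hD0]
    · rw [hF2 U y hy hgy hne, map_add, hF2 U y hy hgy hne, hF2 U y hy hgy hne, add_zero]
  have hmul : ∀ (U : C.X.Opens) (a b : Γ(C.X, U)), F U (a * b) = a * F U b + b * F U a := by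
    intro U a b
    refine hU U _ _ fun y hy hgy => ?_
    by_cases hne : y = η
    · subst hne
      rw [hF1 U hy, map_add, map_mul, map_mul, map_mul, hF1 U hy, hF1 U hy, hDm]
    · rw [hF2 U y hy hgy hne, map_add, map_mul, map_mul, hF2 U y hy hgy hne,
        hF2 U y hy hgy hne, mul_zero, mul_zero, add_zero]
  have hconst : ∀ (U : C.X.Opens) (c : k), F U (coef C.π U c) = 0 := by
    intro U c
    refine hU U _ _ fun y hy hgy => ?_
    rw [map_zero]
    by_cases hne : y = η
    · subst hne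
      rw [hF1 U hy]
      apply e.injective
      rw [heD, map_zero]
      have h1 := φ_germ hM h U hy (coef C.π U c)
      have h2 := app_coef C.π ι U c
      have hne' : Nonempty (ι ⁻¹ᵁ U) := ⟨⟨genericPoint E, hy⟩⟩
      have h3 := germ_coef (π := ι ≫ C.π) (ι ⁻¹ᵁ U) c
      have h4 : e (C.X.presheaf.germ U η hy (coef C.π U c)) = kfun (ι ≫ C.π) c := by
        rw [← h3]
        refine h1.trans ?_
        exact congrArg _ h2
      rw [h4]
      exact hδ.const c
    · exact hF2 U y hy hgy hne _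
  have hres : ∀ (U V : C.X.Opens) (hUV : U ≤ V) (a : Γ(C.X, V)),
      F U (C.X.presheaf.map (homOfLE hUV).op a) = C.X.presheaf.map (homOfLE hUV).op (F V a) := by
    intro U V hUV a
    refine hU U _ _ fun y hy hgy => ?_
    have h1 : ∀ s : Γ(C.X, V), C.X.presheaf.germ U y hy (C.X.presheaf.map (homOfLE hUV).op s) =
        C.X.presheaf.germ V y (hUV hy) s := fun s =>
      C.X.presheaf.germ_res_apply (homOfLE hUV) y hy s
    rw [h1]
    by_cases hne : y = η
    · subst hne
      rw [hF1 U hy, hF1 V (hUV hy), h1]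
    · rw [hF2 U y hy hgy hne, hF2 V y (hUV hy) hgy hne]
  have hsec : ∀ (U : C.X.Opens) (i : Fin 1) (a : Γ(C.X, U)), (C.σ i).app U (F U a) = 0 := by
    intro U i a
    refine sec_zero (C.σ i) U (F U a) fun q' hq' => ?_
    have hi : i = 0 := Subsingleton.elim _ _
    subst hi
    have hqq : q' = q := Subsingleton.elim _ _
    subst hqq
    by_cases hsp : η ⤳ C.σ 0 q'
    · obtain ⟨g', hg1, hg2⟩ := hlift _ hsp (C.X.presheaf.germ U _ hq' a)
      rw [hF4 U _ hq' a hsp g' hg1 hg2]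
      obtain ⟨y, hy⟩ := exists_pt h hsp
      rw [mem_maximalIdeal, mem_nonunits_iff]
      intro hu
      generalize hx : C.σ 0 q' = x at *
      subst hy
      have h1 := φ_spec hM h y hsp g'
      have h2 := φ_spec hM h y hsp (C.X.presheaf.germ U _ hq' a)
      have h3 : algebraMap (E.presheaf.stalk y) E.functionField (ι.stalkMap y g') =
          δ (algebraMap (E.presheaf.stalk y) E.functionField
            (ι.stalkMap y (C.X.presheaf.germ U _ hq' a))) := by
        rw [← h1, ← h2, hg1]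
        exact heD _
      obtain ⟨b, hb, hb'⟩ := hq y rfl _ ⟨_, rfl⟩
      rw [← h3] at hb'
      have h4 := IsFractionRing.injective (E.presheaf.stalk y) E.functionField hb'
      rw [h4, mem_maximalIdeal, mem_nonunits_iff] at hb
      exact hb (hu.map (ι.stalkMap y).hom)
    · rw [hF3 U _ hq' a hsp]
      exact zero_mem _
  obtain ⟨f, hf⟩ := hf
  obtain ⟨U, hηU, a, ha⟩ := C.X.presheaf.exists_germ_eq (e.symm f)
  refine ⟨⟨fun U => AddMonoidHom.mk' (F U) (hadd U), hmul, hconst, hres, hsec⟩, U, fun h0 => ?_⟩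
  have h1 : F U a = 0 := DFunLike.congr_fun h0 a
  have h2 := hF1 U hηU a
  rw [h1, map_zero, ha] at h2
  apply hf
  have h3 : e (D (e.symm f)) = 0 := by rw [← h2, map_zero]
  rw [heD, e.apply_symm_apply] at h3
  exact h3

end Pool.Agent.MG.WL.CL


end

section

/-!
# Block CL, module POLE: a function with a pole of small order at one point
-/

open CategoryTheory CategoryTheory.Limits AlgebraicGeometry IsLocalRing TopologicalSpace
open Pool.Agent.MG.Two Pool.Agent.MG.W Pool.Agent.MG.W.W0 Pool.Agent.MG.One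

namespace Pool.Agent.MG.WL.CL

namespace POLE_

/-- The form of `Stmt_POLE` which is proved. -/
def Stmt : Prop :=
  ∀ {k : Type} [Field k] [IsAlgClosed k] {X : Scheme.{0}} (π : X ⟶ Sp k) [IsProper π]
    [IsIntegral X] (g : ℕ), HasGenus π g → ∀ {p : X}, IsClosed {p} → p ≠ genericPoint X →
      ∀ (c : Cht p) [Nonempty c.N],
      ∃ (f : X.functionField) (n : ℕ) (u : Γ(X, c.N)), 1 ≤ n ∧ n ≤ g + 1 ∧
        (∀ x, x ≠ p → x ∈ dom f) ∧ p ∈ X.basicOpen u ∧
        f * X.germToFunctionField c.N c.z ^ n = X.germToFunctionField c.N u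

/-- The complement of a closed point in an open set. -/
def rem {X : Scheme.{0}} {p : X} (hp : IsClosed {p}) (V : X.Opens) : X.Opens :=
  V ⊓ ⟨{p}ᶜ, hp.isOpen_compl⟩

lemma mem_rem {X : Scheme.{0}} {p : X} (hp : IsClosed {p}) (V : X.Opens) (x : X) :
    x ∈ rem hp V ↔ x ∈ V ∧ x ≠ p := Iff.rfl

lemma rem_le {X : Scheme.{0}} {p : X} (hp : IsClosed {p}) (V : X.Opens) : rem hp V ≤ V :=
  inf_le_left

/-- A non trivial relation between `g + 1` vectors in `k^g`, with the last non zero coefficient. -/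
lemma exists_rel {k : Type} [Field k] (g : ℕ) (v : Fin (g + 1) → (Fin g → k)) :
    ∃ (α : Fin (g + 1) → k) (i₀ : Fin (g + 1)), ∑ i, α i • v i = 0 ∧ α i₀ ≠ 0 ∧
      ∀ i, i₀ < i → α i = 0 := by
  classical
  have hn : ¬ LinearIndependent k v := by
    intro h
    have h1 := h.fintype_card_le_finrank
    simp at h1
  rw [Fintype.not_linearIndependent_iff] at hn
  obtain ⟨α, hα, i, hi⟩ := hn
  have hne : (Finset.univ.filter (fun i => α i ≠ 0)).Nonempty := ⟨i, by simpa using hi⟩
  refine ⟨α, (Finset.univ.filter (fun i => α i ≠ 0)).max' hne, hα, ?_, ?_⟩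
  · have h := Finset.max'_mem _ hne
    simpa using h
  · intro j hj
    by_contra hj'
    have h := Finset.le_max' (Finset.univ.filter (fun i => α i ≠ 0)) j (by simpa using hj')
    exact absurd hj (not_lt.2 h)

/-- The computation in a field. -/
lemma field_comp {K : Type} [Field K] {g : ℕ} (α A : Fin (g + 1) → K) (Z U : K) (hZ : Z ≠ 0)
    (i₀ : Fin (g + 1)) (h0 : ∀ i, i₀ < i → α i = 0) :
    (∑ i, α i * (A i - (Z⁻¹) ^ (i.1 + 1)) - U) * Z ^ (i₀.1 + 1) =
      Z * (∑ i, α i * (Z ^ i₀.1 * A i) -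
        ∑ i, (if i < i₀ then α i * Z ^ (i₀.1 - i.1 - 1) else 0) - Z ^ i₀.1 * U) - α i₀ := by
  have h1 : ∀ i : Fin (g + 1), α i * (A i - (Z⁻¹) ^ (i.1 + 1)) * Z ^ (i₀.1 + 1) =
      Z * (α i * (Z ^ i₀.1 * A i)) -
        Z * (if i < i₀ then α i * Z ^ (i₀.1 - i.1 - 1) else 0) - (if i = i₀ then α i else 0) := by
    intro i
    have e0 : α i * (A i - (Z⁻¹) ^ (i.1 + 1)) * Z ^ (i₀.1 + 1) =
        Z * (α i * (Z ^ i₀.1 * A i)) - α i * ((Z⁻¹) ^ (i.1 + 1) * Z ^ (i₀.1 + 1)) := by ring
    rw [e0, sub_sub]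
    congr 1
    rcases lt_trichotomy i i₀ with h | h | h
    · rw [if_pos h, if_neg h.ne, add_zero]
      have hlt : i.1 < i₀.1 := h
      obtain ⟨d, hd⟩ : ∃ d, i₀.1 = i.1 + 1 + d := ⟨i₀.1 - i.1 - 1, by omega⟩
      have e1 : i₀.1 - i.1 - 1 = d := by omega
      have e2 : (Z⁻¹) ^ (i.1 + 1) * Z ^ (i.1 + 1) = 1 := by
        rw [← mul_pow, inv_mul_cancel₀ hZ, one_pow]
      rw [e1, hd]
      calc α i * ((Z⁻¹) ^ (i.1 + 1) * Z ^ (i.1 + 1 + d + 1))
          = ((Z⁻¹) ^ (i.1 + 1) * Z ^ (i.1 + 1)) * (α i * Z ^ (d + 1)) := by ring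
        _ = Z * (α i * Z ^ d) := by rw [e2, one_mul]; ring
    · subst h
      rw [if_neg (lt_irrefl _), if_pos rfl, ← mul_pow, inv_mul_cancel₀ hZ, one_pow]
      ring
    · rw [h0 i h, if_neg (not_lt.2 h.le), if_neg h.ne']
      ring
  rw [sub_mul, Finset.sum_mul, Finset.sum_congr rfl (fun i _ => h1 i), Finset.sum_sub_distrib,
    Finset.sum_sub_distrib, ← Finset.mul_sum, ← Finset.mul_sum, Finset.sum_ite_eq']
  simp only [Finset.mem_univ, if_true]
  ring

end POLE_

open _root_.Pool.Agent.MG.WL.CL.POLE_ in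
theorem t_POLE' (hA : Stmt_AFC) : POLE_.Stmt := by
  intro k _ _ X π _ _ g hg p hp hgen c _
  classical
  -- an affine cover
  obtain ⟨U, V, hU, hV, hcov, hpU⟩ : ∃ U V : X.Opens, IsAffineOpen U ∧ IsAffineOpen V ∧
      U ⊔ V = ⊤ ∧ p ∈ U := by
    obtain ⟨U, V, hU, hV, hcov, -⟩ := hg
    have h1 : p ∈ U ⊔ V := by rw [hcov]; trivial
    rcases h1 with h1 | h1
    · exact ⟨U, V, hU, hV, hcov, h1⟩
    · exact ⟨V, U, hV, hU, by rw [sup_comm]; exact hcov, h1⟩
  have hV' : IsAffineOpen (rem hp V) := hA c hV (fun x => mem_rem hp V x)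
  have hU' : IsAffineOpen (rem hp U) := hA c hU (fun x => mem_rem hp U x)
  have hN : IsAffineOpen (c.N ⊓ U) := isAffineOpen_inf π c.aff hU
  have hN' : IsAffineOpen (rem hp (c.N ⊓ U)) := hA c hN (fun x => mem_rem hp _ x)
  have hcov' : U ⊔ rem hp V = ⊤ := by
    rw [eq_top_iff]
    intro x _
    by_cases hx : x = p
    · left
      rw [hx]
      exact hpU
    · have h1 : x ∈ U ⊔ V := by rw [hcov]; trivial
      rcases h1 with h1 | h1
      · left; exact h1
      · right; exact ⟨h1, hx⟩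
  -- the opens are not empty
  have hη : ∀ W : X.Opens, Nonempty W → Nonempty (rem hp W) := by
    intro W hW
    have h1 := ((genericPoint_spec X).mem_open_set_iff W.isOpen).mpr (by simpa using hW)
    exact ⟨⟨genericPoint X, h1, fun h => hgen h.symm⟩⟩
  have neU : Nonempty U := ⟨⟨p, hpU⟩⟩
  have neN : Nonempty (c.N ⊓ U : X.Opens) := ⟨⟨p, c.mem, hpU⟩⟩
  have neU' : Nonempty (rem hp U) := hη U neU
  have neN' : Nonempty (rem hp (c.N ⊓ U)) := hη _ neN
  obtain ⟨L, -, hLc, hL0⟩ := t_COVI π g hg U (rem hp V) hU hV' hcov'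
  set Z : X.functionField := X.germToFunctionField c.N c.z with hZdef
  -- the inverse of `z`
  have hle : rem hp (c.N ⊓ U) ≤ X.basicOpen c.z := fun x hx => (c.bas x hx.1.1).2 hx.2
  have hleN : rem hp (c.N ⊓ U) ≤ c.N := (rem_le hp _).trans inf_le_left
  have hzu : IsUnit (rs X hleN c.z) := by
    have h1 : IsUnit (rs X (X.basicOpen_le c.z) c.z) := X.toRingedSpace.isUnit_res_basicOpen c.z
    have h2 := h1.map (rs X hle)
    rwa [COVI.rs_rs] at h2
  obtain ⟨zi, hzi⟩ := hzu.exists_right_inv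
  have hzi' : X.germToFunctionField _ zi = Z⁻¹ := by
    rw [germ_inv hzi, germ_rs]
  have hZ0 : Z ≠ 0 := by
    intro h
    rw [h, inv_zero] at hzi'
    have h1 := congrArg (X.germToFunctionField _) hzi
    rw [map_mul, hzi', mul_zero, map_one] at h1
    exact zero_ne_one h1
  -- the principal parts
  have hNU : rem hp (c.N ⊓ U) ≤ rem hp U := fun x hx => ⟨hx.1.2, hx.2⟩
  have hac : ∀ m : ℕ, ∃ (a : Γ(X, c.N ⊓ U)) (b : Γ(X, rem hp U)),
      zi ^ m = rs X (rem_le hp (c.N ⊓ U)) a - rs X hNU b := by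
    intro m
    refine COVI.acyc (X := X) (W := U) hU inf_le_right (rem_le hp U) ?_ _ _ ?_ hN hU' hN' _
    · intro x hx
      by_cases hxp : x = p
      · left
        rw [hxp]
        exact ⟨c.mem, hpU⟩
      · right
        exact ⟨hx, hxp⟩
    · intro x hx
      exact ⟨hx.1, hx.2.2⟩
  choose a b hab using hac
  have hab' : ∀ m, X.germToFunctionField _ (b m) = X.germToFunctionField _ (a m) - (Z⁻¹) ^ m := by
    intro m
    have h1 := congrArg (X.germToFunctionField _) (hab m)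
    rw [map_sub, map_pow, hzi', germ_rs, germ_rs] at h1
    rw [h1]
    ring
  -- the relation
  have hUV : U ⊓ rem hp V ≤ rem hp U := fun x hx => ⟨hx.1, hx.2.2⟩
  obtain ⟨α, i₀, hrel, hα0, hαi⟩ := exists_rel g (fun i => L (rs X hUV (b (i.1 + 1))))
  have hL : L (∑ i : Fin (g + 1), coef π (U ⊓ rem hp V) (α i) * rs X hUV (b (i.1 + 1))) = 0 := by
    rw [map_sum, ← hrel]
    exact Finset.sum_congr rfl (fun i _ => hLc _ _)
  obtain ⟨u', v', huv⟩ := (hL0 _).1 hL
  set f : X.functionField := ∑ i : Fin (g + 1), kfun π (α i) *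
    X.germToFunctionField _ (b (i.1 + 1)) - X.germToFunctionField U u' with hf
  have hdom : ∀ x, x ≠ p → x ∈ dom f := by
    intro x hx
    have h1 : x ∈ U ⊔ rem hp V := by rw [hcov']; trivial
    rcases h1 with h1 | h1
    · refine (mem_dom_iff' f x).mpr ⟨rem hp U, ⟨h1, hx⟩, neU',
        ∑ i : Fin (g + 1), coef π (rem hp U) (α i) * b (i.1 + 1) - rs X (rem_le hp U) u', ?_⟩
      rw [map_sub, map_sum, germ_rs, hf]
      congr 1
      refine Finset.sum_congr rfl (fun i _ => ?_)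
      rw [map_mul, germ_coef]
    · have neV' : Nonempty (rem hp V) := ⟨⟨x, h1⟩⟩
      have neW : Nonempty (U ⊓ rem hp V : X.Opens) := nonempty_inf neU neV'
      refine (mem_dom_iff' f x).mpr ⟨rem hp V, h1, neV', v', ?_⟩
      have h2 := congrArg (X.germToFunctionField (U ⊓ rem hp V)) huv
      rw [map_add, germ_rs, germ_rs, map_sum] at h2
      rw [hf, eq_sub_iff_add_eq, add_comm, ← h2]
      refine Finset.sum_congr rfl (fun i _ => ?_)
      rw [map_mul, germ_coef, germ_rs]
  -- the function near `p`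
  set z' : Γ(X, c.N ⊓ U) := rs X inf_le_left c.z with hz'
  set w : Γ(X, c.N ⊓ U) := ∑ i : Fin (g + 1), coef π _ (α i) * (z' ^ i₀.1 * a (i.1 + 1)) -
    ∑ i : Fin (g + 1), (if i < i₀ then coef π _ (α i) * z' ^ (i₀.1 - i.1 - 1) else 0) -
      z' ^ i₀.1 * rs X inf_le_right u' with hw
  have gz' : X.germToFunctionField _ z' = Z := germ_rs _ _
  have key : f * Z ^ (i₀.1 + 1) = X.germToFunctionField _ (z' * w - coef π _ (α i₀)) := by
    have h1 := field_comp (fun i => kfun π (α i)) (fun i : Fin (g + 1) =>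
      X.germToFunctionField _ (a (i.1 + 1))) Z (X.germToFunctionField U u') hZ0 i₀
      (fun i hi => by rw [hαi i hi, map_zero])
    rw [hf, map_sub, map_mul, hw, map_sub, map_sub, map_sum, map_sum, map_mul, map_pow, gz',
      germ_coef, germ_rs]
    simp only [hab']
    rw [h1]
    congr 4
    · refine Finset.sum_congr rfl (fun i _ => ?_)
      rw [map_mul, map_mul, map_pow, gz', germ_coef]
    · refine Finset.sum_congr rfl (fun i _ => ?_)
      split_ifs
      · rw [map_mul, map_pow, gz', germ_coef]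
      · rw [map_zero]
  have hpt : p ∈ X.basicOpen (z' * w - coef π _ (α i₀)) := by
    have hpN : p ∈ c.N ⊓ U := ⟨c.mem, hpU⟩
    rw [← X.evaluation_ne_zero_iff_mem_basicOpen p hpN]
    have e1 : X.evaluation _ p hpN z' = 0 := by
      rw [X.evaluation_eq_zero_iff_notMem_basicOpen p hpN]
      intro h
      have h2 : p ∈ X.basicOpen c.z := by
        have h3 := X.basicOpen_res c.z (homOfLE (inf_le_left : c.N ⊓ U ≤ c.N)).op
        have h4 : p ∈ (c.N ⊓ U) ⊓ X.basicOpen c.z := by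
          rw [← h3]
          exact h
        exact h4.2
      exact (c.bas p c.mem).1 h2 rfl
    intro h0
    have h1 : (X.evaluation (c.N ⊓ U) p hpN).hom (z' * w - coef π _ (α i₀)) = 0 := h0
    rw [map_sub, map_mul] at h1
    have h2 : (X.evaluation (c.N ⊓ U) p hpN).hom z' = 0 := e1
    rw [h2, zero_mul, zero_sub, neg_eq_zero] at h1
    have h3 : IsUnit ((X.evaluation (c.N ⊓ U) p hpN).hom (coef π (c.N ⊓ U) (α i₀))) :=
      ((IsUnit.mk0 _ hα0).map (coef π (c.N ⊓ U))).map (X.evaluation (c.N ⊓ U) p hpN).hom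
    exact h3.ne_zero h1
  -- the section over `c.N`
  have hcN : c.N ≤ dom (f * Z ^ (i₀.1 + 1)) := by
    intro x hx
    by_cases hxp : x = p
    · subst hxp
      exact (mem_dom_iff' _ _).mpr ⟨c.N ⊓ U, ⟨hx, hpU⟩, neN, _, key.symm⟩
    · obtain ⟨W, hW, neW, s, hs⟩ := (mem_dom_iff' f x).mp (hdom x hxp)
      have neWN : Nonempty (W ⊓ c.N : X.Opens) := ⟨⟨x, hW, hx⟩⟩
      refine (mem_dom_iff' _ _).mpr ⟨W ⊓ c.N, ⟨hW, hx⟩, neWN,
        rs X inf_le_left s * rs X inf_le_right c.z ^ (i₀.1 + 1), ?_⟩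
      rw [map_mul, map_pow, germ_rs, germ_rs, hs]
  refine ⟨f, i₀.1 + 1, rs X hcN (sec (f * Z ^ (i₀.1 + 1))), by omega, by omega, hdom, ?_, ?_⟩
  · have h1 : rs X (inf_le_left : c.N ⊓ U ≤ c.N) (rs X hcN (sec (f * Z ^ (i₀.1 + 1)))) =
        z' * w - coef π _ (α i₀) := by
      apply X.germToFunctionField_injective (c.N ⊓ U)
      rw [germ_rs, germ_rs, germ_sec, key]
    have h2 := X.basicOpen_res (rs X hcN (sec (f * Z ^ (i₀.1 + 1))))
      (homOfLE (inf_le_left : c.N ⊓ U ≤ c.N)).op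
    have h3 : p ∈ X.basicOpen (rs X (inf_le_left : c.N ⊓ U ≤ c.N)
        (rs X hcN (sec (f * Z ^ (i₀.1 + 1))))) := by
      rw [h1]
      exact hpt
    have h4 : p ∈ (c.N ⊓ U) ⊓ X.basicOpen (rs X hcN (sec (f * Z ^ (i₀.1 + 1)))) := by
      rw [← h2]
      exact h3
    exact h4.2
  · rw [germ_rs, germ_sec]

theorem t_POLE (hA : Stmt_AFC) : Stmt_POLE := t_POLE' hA

end Pool.Agent.MG.WL.CL


end

section

/-!
# `M̄_{1,1}`, block `CL`: smooth points of nodal curves are regular
-/

open CategoryTheory AlgebraicGeometry IsLocalRing TopologicalSpace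
open Pool.Agent.MG.Two Pool.Agent.MG.W Pool.Agent.MG.W.W0 Pool.Agent.MG.One

namespace Pool.Agent.MG.WL.CL

namespace SMP_

/-- An open subscheme of a nodal curve is a nodal curve. -/
theorem nodal_open {k : Type} [Field k] {X : Scheme.{0}} (π : X ⟶ Sp k) (h : Nodal π)
    (U : X.Opens) : Nodal (U.ι ≫ π) := by
  intro x
  obtain ⟨Y, f, g, hf, hg, hc, y, hy⟩ := h (U.ι x)
  have hyU : y ∈ f ⁻¹ᵁ U := by
    show f y ∈ U
    rw [hy]
    exact x.2
  refine ⟨(f ⁻¹ᵁ U : Y.Opens), f ∣_ U, (f ⁻¹ᵁ U).ι ≫ g, inferInstance, inferInstance, ?_,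
    ⟨⟨y, hyU⟩, ?_⟩⟩
  · rw [← Category.assoc, morphismRestrict_ι, Category.assoc, hc, Category.assoc]
  · have h0 : ∀ z, U.ι ((f ∣_ U) z) = f ((f ⁻¹ᵁ U).ι z) := by
      intro z
      rw [← Scheme.Hom.comp_apply, morphismRestrict_ι, Scheme.Hom.comp_apply]
    have h1 : U.ι ((f ∣_ U) ⟨y, hyU⟩) = U.ι x := (h0 ⟨y, hyU⟩).trans hy
    exact U.ι.injective h1

end SMP_

theorem t_SMP : Stmt_SMP := by
  intro k _ X π hnod U hsm x hx
  have h1 : Nodal (U.ι ≫ π) := SMP_.nodal_open π hnod U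
  have h2 : SmoothOfRelativeDimension 1 (U.ι ≫ π) :=
    SmNod.smoothOfRelativeDimension_one (U.ι ≫ π) h1
  have h3 := isDomain_stalk (U.ι ≫ π) ⟨x, hx⟩
  have h4 := pir_stalk (U.ι ≫ π) ⟨x, hx⟩
  let e := (U.stalkIso ⟨x, hx⟩).commRingCatIsoToRingEquiv
  constructor
  · exact e.symm.toMulEquiv.isDomain _
  · exact IsPrincipalIdealRing.of_surjective e.toRingHom e.surjective

end Pool.Agent.MG.WL.CL


end

section

/-!
# DEC: functoriality of the class of a deformation in a chart
-/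

open CategoryTheory CategoryTheory.Limits AlgebraicGeometry TensorProduct

namespace Pool.Agent.MG.WL

open Pool.Agent.MG.W Pool.Agent.MG.One

namespace DEC92

theorem eps0_epsMap' {A B : Type} [CommRing A] [CommRing B] (φ : A →+* B) :
    (eps0 B).comp (epsMap φ) = φ.comp (eps0 A) := eps0_epsMap φ

/-- The restriction of `a + ε α`, `b + ε β`. -/
noncomputable def rr {B : Type} [CommRing B] (a b α β : B) :
    Arrow (eps0 B) (Wei (WZ a b)) (Wei (WZ (ep a α) (ep b β))) :=
  warr (eps0 B) (fst_ep a α).symm (fst_ep b β).symm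

/-- Base change of the deformation `a + ε α`, `b + ε β`. -/
noncomputable def rw' {B D : Type} [CommRing B] [CommRing D] (ψ : B →+* D) (a b α β : B) :
    Arrow (epsMap ψ) (Wei (WZ (ep (ψ a) (ψ α)) (ep (ψ b) (ψ β)))) (Wei (WZ (ep a α) (ep b β))) :=
  warr (epsMap ψ) (epsMap_ep ψ a α).symm (epsMap_ep ψ b β).symm

theorem rr_rw {B D : Type} [CommRing B] [CommRing D] (ψ : B →+* D) (a b α β : B) :
    (rr (ψ a) (ψ b) (ψ α) (ψ β)).f ≫ (rw' ψ a b α β).f =
      (warr ψ (a := a) (b := b) rfl rfl).f ≫ (rr a b α β).f := by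
  have ea : a = eps0 B (ep a α) := (fst_ep a α).symm
  have eb : b = eps0 B (ep b β) := (fst_ep b β).symm
  have ea' : ψ a = ψ.comp (eps0 B) (ep a α) := congrArg ψ ea
  have eb' : ψ b = ψ.comp (eps0 B) (ep b β) := congrArg ψ eb
  have h1 := warr_comp (epsMap ψ) (eps0 D) (χ := ψ.comp (eps0 B)) (eps0_epsMap ψ)
    (epsMap_ep ψ a α).symm (epsMap_ep ψ b β).symm (fst_ep (ψ a) (ψ α)).symm
    (fst_ep (ψ b) (ψ β)).symm ea' eb'
  have h2 := warr_comp (eps0 B) ψ (χ := ψ.comp (eps0 B)) rfl ea eb (rfl : ψ a = ψ a)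
    (rfl : ψ b = ψ b) ea' eb'
  exact h1.trans h2.symm

/-- Composition of compatible squares. -/
theorem asq {X1 X2 X3 X4 X5 : Scheme.{0}} {p : X1 ⟶ X2} {q : X2 ⟶ X3} {f : X3 ⟶ X4}
    {u : X1 ⟶ X5} {v : X5 ⟶ X3} {w : X5 ⟶ X4} (h1 : p ≫ q = u ≫ v) (h2 : v ≫ f = w) :
    p ≫ (q ≫ f) = u ≫ w := by
  rw [← Category.assoc, h1, Category.assoc, h2]

theorem push {A B D : Type} [CommRing A] [CommRing B] [CommRing D] {φ : A →+* B} {C : Fam 1 A}
    (c : Ch φ C) (ψ : B →+* D) (d : Defo 1 C) (δ : B) (h : IsDelta c d δ) :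
    IsDelta (c.push ψ) d (ψ δ) := by
  obtain ⟨α, β, f, hf, hδ⟩ := h
  refine ⟨ψ α, ψ β, castA (epsMap_comp φ ψ) (PBS.comp (rw' ψ c.a c.b α β) f), ?_, ?_⟩
  · rw [castA_f]
    have e2 : (rr c.a c.b α β).f ≫ f.f = c.e.f ≫ d.r.f := hf
    exact (asq (rr_rw ψ c.a c.b α β) e2).trans (Category.assoc _ _ _).symm
  · rw [hδ]
    change _ = 2 * ψ c.a * ψ β - 3 * ψ c.b * ψ α
    rw [map_sub, map_mul, map_mul, map_mul, map_mul, map_ofNat, map_ofNat]

theorem iso {A B : Type} [CommRing A] [CommRing B] {φ : A →+* B} {C : Fam 1 A} (c : Ch φ C)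
    (d d' : Defo 1 C) (f : Arrow (RingHom.id (Eps A)) d.y d'.y) (hf : d.r.f ≫ f.f = d'.r.f)
    (δ : B) (h : IsDelta c d δ) : IsDelta c d' δ := by
  obtain ⟨α, β, g, hg, hδ⟩ := h
  refine ⟨α, β, castA (RingHom.comp_id _) (PBS.comp g f), ?_, hδ⟩
  rw [castA_f]
  change _ ≫ (g.f ≫ f.f) = _
  rw [← Category.assoc, hg, Category.assoc, hf]

theorem scale {A B : Type} [CommRing A] [CommRing B] {φ : A →+* B} {C : Fam 1 A} (c : Ch φ C)
    (s : A) (d : Defo 1 C) (δ : B) (h : IsDelta c d δ) : IsDelta c (scD s d) (φ s * δ) := by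
  obtain ⟨α, β, f, hf, hδ⟩ := h
  have e : ∀ x y : B, ep x (φ s * y) = epsScale (φ s) (ep x y) := by
    intro x y
    refine TrivSqZeroExt.ext ?_ ?_
    · simp
    · simp
  let f' : Arrow (epsMap φ) (Wei (WZ (ep c.a (φ s * α)) (ep c.b (φ s * β)))) (scD s d).y :=
    arrowLift (castA (epsMap_epsScale φ s).symm (PBS.comp (warr (epsScale (φ s))
      (e c.a α) (e c.b β)) f)) (PBS.bcArrow (epsScale s) d.y)
  have hf' : f'.f ≫ (PBS.bcArrow (epsScale s) d.y).f =
      (warr (epsScale (φ s)) (e c.a α) (e c.b β)).f ≫ f.f := arrowLift_f _ _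
  refine ⟨φ s * α, φ s * β, f', ?_, ?_⟩
  · refine arrow_ext (PBS.comp (warr (eps0 B) (fst_ep c.a (φ s * α)).symm
      (fst_ep c.b (φ s * β)).symm) f') (castA (eps0_epsMap φ).symm (PBS.comp c.e (scD s d).r))
      (PBS.bcArrow (epsScale s) d.y) ?_
    have e1 : (rr c.a c.b (φ s * α) (φ s * β)).f ≫ (warr (epsScale (φ s))
        (e c.a α) (e c.b β)).f = (rr c.a c.b α β).f :=
      warr_comp (epsScale (φ s)) (eps0 B) (χ := eps0 B) (eps0_epsScale (φ s)) _ _ _ _
        (fst_ep _ _).symm (fst_ep _ _).symm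
    have e2 : (rr c.a c.b α β).f ≫ f.f = c.e.f ≫ d.r.f := hf
    have e3 : (rr c.a c.b (φ s * α) (φ s * β)).f ≫ (f'.f ≫ (PBS.bcArrow (epsScale s) d.y).f) =
        c.e.f ≫ d.r.f := by
      rw [hf']
      refine (Category.assoc _ _ _).symm.trans ?_
      rw [e1]
      exact e2
    have e4 : (scD s d).r.f ≫ (PBS.bcArrow (epsScale s) d.y).f = d.r.f := scD_r s d
    refine (Category.assoc _ _ _).trans (e3.trans ?_)
    refine Eq.trans ?_ (Category.assoc _ _ _).symm
    exact congrArg (fun q => c.e.f ≫ q) e4.symm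
  · rw [hδ]
    ring

theorem change {A B B' D : Type} [CommRing A] [CommRing B] [CommRing B'] [CommRing D]
    {φ : A →+* B} {φ' : A →+* B'} {C : Fam 1 A} (c : Ch φ C) (c' : Ch φ' C) (ψ : B →+* D)
    (ψ' : B' →+* D) (u : D) (h : ψ.comp φ = ψ'.comp φ') (hr : Rel c c' ψ ψ' u) (d : Defo 1 C)
    (δ : B) (hd : IsDelta c d δ) : IsDelta (c'.push ψ') d (u ^ 10 * ψ δ) := by
  obtain ⟨α, β, f, hf, hδ⟩ := push c ψ d δ hd
  obtain ⟨v, huv, ha, hb, hr⟩ := hr
  have huv' : (TrivSqZeroExt.inl u : Eps D) * TrivSqZeroExt.inl v = 1 := by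
    rw [← TrivSqZeroExt.inl_mul, huv, TrivSqZeroExt.inl_one]
  have e : ∀ (k : ℕ) (x y : D), ep (u ^ k * x) (u ^ k * y) =
      (TrivSqZeroExt.inl u : Eps D) ^ k * ep x y := by
    intro k x y
    have hp : (TrivSqZeroExt.inl u : Eps D) ^ k = TrivSqZeroExt.inl (u ^ k) :=
      (map_pow (TrivSqZeroExt.inlHom D D) u k).symm
    rw [hp]
    refine TrivSqZeroExt.ext ?_ ?_
    · simp
    · simp
  have ha' : ep (ψ' c'.a) (u ^ 4 * α) = (TrivSqZeroExt.inl u : Eps D) ^ 4 * ep (ψ c.a) α := by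
    rw [ha, e]
  have hb' : ep (ψ' c'.b) (u ^ 6 * β) = (TrivSqZeroExt.inl u : Eps D) ^ 6 * ep (ψ c.b) β := by
    rw [hb, e]
  have hep : (RingHom.id (Eps D)).comp (epsMap (ψ.comp φ)) = epsMap (ψ'.comp φ') := by
    rw [RingHom.id_comp, h]
  have h3 := t_WSC.2.2 (eps0 D) huv' ha' hb' (c := ψ c.a) (d := ψ c.b) (c' := ψ' c'.a)
      (d' := ψ' c'.b) (w := u) (s := v) huv ha hb (fst_ep (ψ c.a) α).symm
      (fst_ep (ψ c.b) β).symm (fst_ep (ψ' c'.a) _).symm (fst_ep (ψ' c'.b) _).symm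
      (TrivSqZeroExt.fst_inl D u).symm
  refine ⟨u ^ 4 * α, u ^ 6 * β, castA hep (PBS.comp (scarr huv' ha' hb') f), ?_, ?_⟩
  · rw [castA_f]
    have hf' : WX.map (eps0 D) (fst_ep (ψ c.a) α).symm (fst_ep (ψ c.b) β).symm ≫ f.f =
      ((warr ψ (a := c.a) (b := c.b) rfl rfl).f ≫ c.e.f) ≫ d.r.f := hf
    refine (asq h3.symm hf').trans ?_
    refine ((Category.assoc _ _ _).symm.trans ?_)
    exact congrArg (fun q => q ≫ d.r.f) hr
  · rw [hδ]
    change _ = 2 * ψ' c'.a * (u ^ 6 * β) - 3 * ψ' c'.b * (u ^ 4 * α)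
    change u ^ 10 * (2 * ψ c.a * β - 3 * ψ c.b * α) = _
    rw [ha, hb]
    ring

theorem pull {A A' B B' : Type} [CommRing A] [CommRing A'] [CommRing B] [CommRing B']
    {φ : A →+* A'} {χ : A →+* B} {χ' : A' →+* B'} {C : Fam 1 A} {C' : Fam 1 A'}
    (g : Arrow φ C' C) (c : Ch χ C) (ω : B →+* B') (h : ω.comp χ = χ'.comp φ) (d : Defo 1 C)
    (δ : B) (hd : IsDelta c d δ) : IsDelta (c.pull g ω h) (bcD g d) (ω δ) := by
  obtain ⟨α, β, f, hf, hδ⟩ := hd
  have hep : (epsMap ω).comp (epsMap χ) = (epsMap χ').comp (epsMap φ) := by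
    rw [epsMap_comp, epsMap_comp, h]
  let f' : Arrow (epsMap χ') (Wei (WZ (ep (ω c.a) (ω α)) (ep (ω c.b) (ω β)))) (bcD g d).y :=
    arrowLift (castA hep (PBS.comp (warr (epsMap ω) (epsMap_ep ω c.a α).symm
      (epsMap_ep ω c.b β).symm) f)) (PBS.bcArrow (epsMap φ) d.y)
  have hf' : f'.f ≫ (PBS.bcArrow (epsMap φ) d.y).f =
      (warr (epsMap ω) (epsMap_ep ω c.a α).symm (epsMap_ep ω c.b β).symm).f ≫ f.f :=
    arrowLift_f _ _
  have hp : (c.pull g ω h).e.f ≫ g.f = (warr ω (a := c.a) (b := c.b) rfl rfl).f ≫ c.e.f :=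
    arrowLift_f _ _
  refine ⟨ω α, ω β, f', ?_, ?_⟩
  · refine arrow_ext (PBS.comp (warr (eps0 B') (fst_ep (ω c.a) (ω α)).symm
      (fst_ep (ω c.b) (ω β)).symm) f')
      (castA (eps0_epsMap χ').symm (PBS.comp (c.pull g ω h).e (bcD g d).r))
      (PBS.bcArrow (epsMap φ) d.y) ?_
    have e2 : (rr c.a c.b α β).f ≫ f.f = c.e.f ≫ d.r.f := hf
    have e3 : (rr (ω c.a) (ω c.b) (ω α) (ω β)).f ≫ ((rw' ω c.a c.b α β).f ≫ f.f) =
        (warr ω (a := c.a) (b := c.b) rfl rfl).f ≫ (c.e.f ≫ d.r.f) :=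
      asq (rr_rw ω c.a c.b α β) e2
    have e4 : (rr (ω c.a) (ω c.b) (ω α) (ω β)).f ≫ (f'.f ≫ (PBS.bcArrow (epsMap φ) d.y).f) =
        (warr ω (a := c.a) (b := c.b) rfl rfl).f ≫ (c.e.f ≫ d.r.f) := by
      rw [hf']
      exact e3
    refine (Category.assoc _ _ _).trans (e4.trans ?_)
    refine Eq.trans ?_ (Category.assoc _ _ _).symm
    rw [bcD_r]
    refine (Category.assoc _ _ _).symm.trans (Eq.trans ?_ (Category.assoc _ _ _))
    exact congrArg (fun q => q ≫ d.r.f) hp.symm
  · rw [hδ]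
    change _ = 2 * ω c.a * ω β - 3 * ω c.b * ω α
    rw [map_sub, map_mul, map_mul, map_mul, map_mul, map_ofNat, map_ofNat]

end DEC92

open _root_.Pool.Agent.MG.WL.DEC92 in
/-- DEC: functoriality of the class. -/
theorem t_DEC (hDEA : Stmt_DEA) : Stmt_DEC := by
  refine ⟨fun c ψ d δ h => push c ψ d δ h, fun c d d' f hf δ h => iso c d d' f hf δ h,
    fun c s d δ h => scale c s d δ h, ?_, fun g c ω h d δ hd => pull g c ω h d δ hd⟩
  intro A B B' D _ _ _ _ φ φ' C c c' ψ ψ' u h6 h hr d δ δ' hd hd'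
  exact (hDEA (c'.push ψ') h6 d).unique (push c' ψ' d δ' hd') (change c c' ψ ψ' u h hr d δ hd)

end Pool.Agent.MG.WL


end

section

/-!
# TAU: the coefficient of a covector in a chart
-/

open CategoryTheory CategoryTheory.Limits AlgebraicGeometry TensorProduct

namespace Pool.Agent.MG.WL

open Pool.Agent.MG.W Pool.Agent.MG.One

namespace TAU

/-- Finitely many charts which cover the base. -/
theorem exists_cover {A : Type} [CommRing A] {C : Fam 1 A} (h : LW C) :
    ∃ (r : ℕ) (g : Fin r → A), Ideal.span (Set.range g) = ⊤ ∧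
      ∀ i, Nonempty (Ch (algebraMap A (Localization.Away (g i))) C) := by
  have h1 : Ideal.span (chI C) = ⊤ := by
    by_contra hne
    obtain ⟨m, hm, hle⟩ := Ideal.exists_le_maximal _ hne
    obtain ⟨f, hf, hc⟩ := h ⟨m, hm.isPrime⟩
    exact hf (hle (Ideal.subset_span hc))
  rw [Ideal.eq_top_iff_one] at h1
  obtain ⟨T, hT, h2⟩ := Submodule.mem_span_finite_of_mem_span h1
  refine ⟨T.card, fun i => (T.equivFin.symm i : A), ?_, fun i => hT (T.equivFin.symm i).2⟩
  rw [Ideal.eq_top_iff_one]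
  have h3 : Set.range (fun i => (T.equivFin.symm i : A)) = (T : Set A) := by
    ext x
    constructor
    · rintro ⟨i, rfl⟩
      exact (T.equivFin.symm i).2
    · intro hx
      exact ⟨T.equivFin ⟨x, hx⟩, by simp⟩
  rw [h3]
  exact h2

theorem six_loc {A B : Type} [CommRing A] [CommRing B] (φ : A →+* B) (h : IsUnit (6 : A)) :
    IsUnit (6 : B) := by
  have := h.map φ
  rwa [map_ofNat] at this

variable {A : Type} [CommRing A]

/-- The classes of a deformation in charts are compatible. -/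
theorem cpt_of_delta (hDEC : Stmt_DEC) (h6 : IsUnit (6 : A)) {r : ℕ} {f : Fin r → A} {C : Fam 1 A}
    (c : ∀ i, Ch (algebraMap A (Localization.Away (f i))) C)
    (δ : ∀ i, Localization.Away (f i)) (d : Defo 1 C) (hd : ∀ i, IsDelta (c i) d (δ i)) :
    Cpt c δ := by
  intro i j D _ ψ ψ' u hψ hR
  have h6D : IsUnit (6 : D) := six_loc (ψ.comp (algebraMap A _)) h6
  exact hDEC.2.2.2.1 (c i) (c j) ψ ψ' u h6D hψ hR d (δ i) (δ j) (hd i) (hd j)

theorem core (hDEA : Stmt_DEA) (hDEC : Stmt_DEC) (hDSP : Stmt_DSP) (hDGL : Stmt_DGL)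
    (hEXT : Stmt_EXT) (h6 : IsUnit (6 : A)) {C : Fam 1 A} {r : ℕ} (f : Fin r → A)
    (hf : Ideal.span (Set.range f) = ⊤)
    (c : ∀ i, Ch (algebraMap A (Localization.Away (f i))) C) (i₀ : Fin r) :
    (∃ (N : ℕ) (d : Defo 1 C), IsDelta (c i₀) d (algebraMap A _ (f i₀) ^ N)) ∧
    ∀ l : Cov 1 C, ∃! τ : Localization.Away (f i₀), IsTau (c i₀) l τ := by
  obtain ⟨N, δ0, hδ0, hcpt⟩ := hEXT.1 h6 f c i₀ 1
  obtain ⟨d0, hd0⟩ := hDGL h6 f hf c δ0 hcpt
  have hu : IsUnit (algebraMap A (Localization.Away (f i₀)) (f i₀)) :=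
    IsLocalization.Away.algebraMap_isUnit (f i₀)
  have hd0' : IsDelta (c i₀) d0 (algebraMap A _ (f i₀) ^ N) := by
    have := hd0 i₀
    rwa [hδ0, mul_one] at this
  refine ⟨⟨N, d0, hd0'⟩, fun l => ?_⟩
  have huN : IsUnit (algebraMap A (Localization.Away (f i₀)) (f i₀) ^ N) := hu.pow N
  obtain ⟨w, hw⟩ := huN.exists_right_inv
  refine ⟨algebraMap A _ (l.l d0) * w, ?_, ?_⟩
  · intro d δ hδ
    have h6i : ∀ i, IsUnit (6 : Localization.Away (f i)) := fun i => six_loc (algebraMap A _) h6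
    have hex : ∀ i, ∃ δ' : Localization.Away (f i), IsDelta (c i) d δ' := fun i =>
      (hDEA (c i) (h6i i) d).exists
    choose δ' hδ' using hex
    have hδi : δ' i₀ = δ := (hDEA (c i₀) (h6i i₀) d).unique (hδ' i₀) hδ
    obtain ⟨M, a, ha⟩ := IsLocalization.Away.surj (f i₀) δ
    have e1 : ∀ i, IsDelta (c i) (scD (f i₀ ^ (N + M)) d)
        (algebraMap A _ (f i₀ ^ (N + M)) * δ' i) := fun i =>
      hDEC.2.2.1 (c i) _ d (δ' i) (hδ' i)
    have e2 : ∀ i, IsDelta (c i) (scD a d0) (algebraMap A _ a * δ0 i) := fun i =>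
      hDEC.2.2.1 (c i) _ d0 (δ0 i) (hd0 i)
    have c1 := cpt_of_delta hDEC h6 c _ _ e1
    have c2 := cpt_of_delta hDEC h6 c _ _ e2
    have e0 : algebraMap A (Localization.Away (f i₀)) (f i₀ ^ (N + M)) * δ' i₀ =
        algebraMap A (Localization.Away (f i₀)) a * δ0 i₀ := by
      rw [hδi, hδ0, mul_one, ← ha, map_pow, pow_add]
      ring
    obtain ⟨K, hK⟩ := hEXT.2 h6 f c i₀ _ _ c1 c2 e0
    have g1 : ∀ i, IsDelta (c i) (scD (f i₀ ^ K) (scD (f i₀ ^ (N + M)) d))
        (algebraMap A _ (f i₀) ^ K * (algebraMap A _ (f i₀ ^ (N + M)) * δ' i)) := fun i => by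
      have := hDEC.2.2.1 (c i) (f i₀ ^ K) _ _ (e1 i)
      rwa [map_pow] at this
    have g2 : ∀ i, IsDelta (c i) (scD (f i₀ ^ K) (scD a d0))
        (algebraMap A _ (f i₀) ^ K * (algebraMap A _ (f i₀ ^ (N + M)) * δ' i)) := fun i => by
      have := hDEC.2.2.1 (c i) (f i₀ ^ K) _ _ (e2 i)
      rw [map_pow] at this
      rw [hK i]
      exact this
    obtain ⟨g, hg⟩ := hDSP h6 f hf c _ _ _ g1 g2
    have h1 := l.iso _ _ g hg
    rw [scD_l, scD_l, scD_l, scD_l] at h1
    have h2 := congrArg (algebraMap A (Localization.Away (f i₀))) h1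
    simp only [map_mul, map_pow] at h2
    have h3 := (hu.pow K).mul_left_cancel h2
    -- f ^ (N + M) l(d) = a l(d0)
    have h4 : algebraMap A (Localization.Away (f i₀)) (f i₀) ^ (N + M) *
        (algebraMap A _ (l.l d0) * w * δ) =
        algebraMap A (Localization.Away (f i₀)) a * algebraMap A _ (l.l d0) := by
      rw [← ha, pow_add]
      linear_combination (algebraMap A (Localization.Away (f i₀)) (l.l d0) * δ *
        algebraMap A (Localization.Away (f i₀)) (f i₀) ^ M) * hw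
    exact (hu.pow (N + M)).mul_left_cancel (h3.trans h4.symm)
  · intro τ hτ
    have h1 := hτ d0 _ hd0'
    rw [h1]
    linear_combination (-τ) * hw

end TAU

theorem t_TAU (hDEA : Stmt_DEA) (hDEC : Stmt_DEC) (hDSP : Stmt_DSP) (hDGL : Stmt_DGL)
    (hEXT : Stmt_EXT) : Stmt_TAU := by
  intro A _ h6 C _ hLW f c
  obtain ⟨r, g, hg, hc⟩ := TAU.exists_cover hLW
  have hspan : Ideal.span (Set.range (Fin.cons f g : Fin (r + 1) → A)) = ⊤ := by
    rw [eq_top_iff, ← hg]
    apply Ideal.span_mono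
    rintro x ⟨i, rfl⟩
    exact ⟨i.succ, by simp⟩
  have c' : ∀ i : Fin r, Ch (algebraMap A (Localization.Away (g i))) C := fun i => (hc i).some
  let cc : ∀ i : Fin (r + 1),
      Ch (algebraMap A (Localization.Away ((Fin.cons f g : Fin (r + 1) → A) i))) C :=
    Fin.cases c c'
  exact TAU.core hDEA hDEC hDSP hDGL hEXT h6 (Fin.cons f g : Fin (r + 1) → A) hspan cc 0

end Pool.Agent.MG.WL


end

section

/-!
# MTR: transport of models along isomorphisms
-/

open CategoryTheory CategoryTheory.Limits AlgebraicGeometry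
open scoped TensorProduct

namespace Pool.Agent.MG.KX

open Pool.Agent.MG.G0 Pool.Agent.MG.GLU

namespace MTR

section

variable {I A : Type} [CommRing A] {n : ℕ} {P : Subalgebra A (KK I A)} {p : Fin n → (P →ₐ[A] A)}

theorem spMap_id {R : Type} [CommRing R] : spMap (RingHom.id R) = 𝟙 (Sp R) := Spec.map_id _

theorem range_comp {X Y Z : Scheme.{0}} (f : X ⟶ Y) (h : Y ⟶ Z) [IsIso h] (q : Z) :
    q ∈ Set.range (f ≫ h) ↔ (inv h) q ∈ Set.range f := by
  constructor
  · rintro ⟨s, rfl⟩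
    refine ⟨s, ?_⟩
    rw [← Scheme.Hom.comp_apply, Category.assoc, IsIso.hom_inv_id, Category.comp_id]
  · rintro ⟨s, hs⟩
    refine ⟨s, ?_⟩
    rw [Scheme.Hom.comp_apply, hs, ← Scheme.Hom.comp_apply, IsIso.inv_hom_id]
    rfl

/-- Transport along an isomorphism. -/
theorem trans {x y : Fam n A} (h : x.X ⟶ y.X) [IsIso h] (hπ : h ≫ y.π = x.π)
    (hσ : ∀ i, x.σ i ≫ h = y.σ i) (M : Mod x P p) :
    ∃ N : Mod y P p, N.j = M.j ≫ h ∧ N.sh = M.sh ≫ h := by
  have := M.jo
  refine ⟨{ j := M.j ≫ h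
            jo := inferInstance
            jp := by rw [Category.assoc, hπ, M.jp]
            sh := M.sh ≫ h
            shp := by rw [Category.assoc, hπ, M.shp]
            cmp := by rw [← Category.assoc, M.cmp, Category.assoc]
            cov := fun q => ?_
            exc := fun q => ?_
            mrk := fun i => by rw [← hσ, M.mrk, Category.assoc]
            loc := ?_ }, rfl, rfl⟩
  · rw [← Category.assoc, range_comp, range_comp]
    exact M.cov _
  · rw [← Category.assoc, range_comp, range_comp]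
    exact M.exc _
  · obtain ⟨V, t, le, hV, hb, hz, ⟨u, hu, hut⟩, hk, hs⟩ := M.loc
    let k : y.X ⟶ x.X := inv h
    have hbij : Function.Bijective (k.appLE V (k ⁻¹ᵁ V) le_rfl).hom := by
      rw [Scheme.Hom.appLE_eq_app]
      exact ConcreteCategory.bijective_of_isIso (k.app V)
    have hcomp : (M.sh ≫ h) ≫ k = spMap (RingHom.id (I → PowerSeries A)) ≫ M.sh := by
      rw [Category.assoc, IsIso.hom_inv_id, Category.comp_id, spMap_id, Category.id_comp]
    have le' : ⊤ ≤ (M.sh ≫ h) ⁻¹ᵁ (k ⁻¹ᵁ V) := by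
      rw [← Scheme.Hom.comp_preimage, hcomp, spMap_id, Category.id_comp]
      exact le
    have hg : ∀ v : Γ(x.X, V), gm (M.sh ≫ h) (k ⁻¹ᵁ V) le'
        ((k.appLE V (k ⁻¹ᵁ V) le_rfl).hom v) = gm M.sh V le v := fun v =>
      gm_nat k M.sh (M.sh ≫ h) (RingHom.id _) hcomp V (k ⁻¹ᵁ V) le le' le_rfl v
    refine ⟨k ⁻¹ᵁ V, (k.appLE V (k ⁻¹ᵁ V) le_rfl).hom t, le', hV.preimage_of_isIso k, ?_, ?_,
      ⟨u, hu, ?_⟩, ?_, ?_⟩
    · have h1 : y.X.basicOpen ((k.appLE V (k ⁻¹ᵁ V) le_rfl).hom t) = k ⁻¹ᵁ x.X.basicOpen t := by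
        rw [Scheme.Hom.appLE_eq_app]
        exact (Scheme.preimage_basicOpen k t).symm
      rw [h1]
      ext q
      have h2 : (k q ∈ (x.X.basicOpen t : Set x.X)) ↔ k q ∈ Set.range M.j ∩ V := by rw [hb]
      rw [Set.mem_inter_iff, range_comp]
      exact h2
    · intro v' hv'
      obtain ⟨v, rfl⟩ := hbij.2 v'
      rw [← map_mul] at hv'
      have h1 : t * v = 0 := hbij.1 (by rw [hv', map_zero])
      rw [hz v h1, map_zero]
    · rw [hg, hut]
    · intro v' hv'
      obtain ⟨v, rfl⟩ := hbij.2 v'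
      rw [hg] at hv'
      obtain ⟨r, rfl⟩ := hk v hv'
      exact ⟨_, map_mul _ _ _⟩
    · intro c
      obtain ⟨v, hv⟩ := hs c
      exact ⟨(k.appLE V (k ⁻¹ᵁ V) le_rfl).hom v, by rw [hg, hv]⟩

theorem kmap_id (f : KK I A) : kmap (RingHom.id A) f = f := by
  funext i
  ext m
  rfl

theorem psm_id : psm I (RingHom.id A) = RingHom.id (I → PowerSeries A) := by
  ext f i m
  rw [psm_apply, PowerSeries.coeff_map]
  rfl

/-- The models correspond. -/
theorem ovr {x y : Fam n A} (a : Arrow (RingHom.id A) y x) (M : Mod x P p) (M' : Mod y P p)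
    (hj : M'.j ≫ a.f = M.j) (hs : M'.sh ≫ a.f = M.sh) : M.Over a M' := by
  have hm : ∀ f ∈ P, kmap (RingHom.id A) f ∈ P := fun f hf => by
    rw [kmap_id]
    exact hf
  refine ⟨hm, ?_, ?_⟩
  · have h1 : rres (kmap (RingHom.id A)) hm = RingHom.id P := by
      ext1 f
      exact Subtype.ext (kmap_id _)
    rw [h1, spMap_id, Category.id_comp, hj]
  · rw [psm_id, spMap_id, Category.id_comp, hs]

end

end MTR

open _root_.Pool.Agent.MG.KX.MTR in
/-- MTR: transport of models along isomorphisms. -/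
theorem t_MTR : Stmt_MTR := by
  intro I A _ n P p x y a
  have hiso : IsIso a.f := by
    have h : IsIso (spMap (RingHom.id A)) := by
      rw [spMap_id]
      infer_instance
    exact a.cart.isIso_fst_of_isIso
  have hπ : a.f ≫ x.π = y.π := by
    have h := a.cart.w
    rwa [spMap_id, Category.comp_id] at h
  have hσ : ∀ i, y.σ i ≫ a.f = x.σ i := by
    intro i
    have h := a.sec i
    rwa [spMap_id, Category.id_comp] at h
  refine ⟨fun M => ?_, fun M' => ?_⟩
  · obtain ⟨N, h1, h2⟩ := trans (x := x) (y := y) (inv a.f) (by rw [IsIso.inv_comp_eq, hπ])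
      (fun i => by rw [← hσ, Category.assoc, IsIso.hom_inv_id, Category.comp_id]) M
    refine ⟨N, ovr a M N ?_ ?_⟩
    · rw [h1, Category.assoc, IsIso.inv_hom_id, Category.comp_id]
    · rw [h2, Category.assoc, IsIso.inv_hom_id, Category.comp_id]
  · obtain ⟨N, h1, h2⟩ := trans (x := y) (y := x) a.f hπ hσ M'
    exact ⟨N, ovr a N M' h1.symm h2.symm⟩

end Pool.Agent.MG.KX


end

section

/-!
# PDC: every lift of `P` to `A[ε]` is a `Pdel P δ`
-/

open TensorProduct

namespace Pool.Agent.MG.KX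

open Pool.Agent.MG.G0 Pool.Agent.MG.GLU

namespace PDC

/-- KBT, without hypotheses. -/
theorem kbt : Stmt_KBT := t_KBT (t_KSP t_KNZ) (t_KBC (t_KFO t_KDU) t_KNZ (t_KSP t_KNZ))

/-- Elements of `P` with all coefficients in the ideal `m`. -/
theorem mem_smul {I E : Type} [CommRing E] [Fintype I] [Nonempty I] (m : Ideal E) {g : ℕ}
    {P : Subalgebra E (KK I E)} (hP : IsKr g P) {F : KK I E} (hF : F ∈ P)
    (h : kmap (Ideal.Quotient.mk m) F = 0) : F ∈ m • Subalgebra.toSubmodule P := by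
  obtain ⟨h1, -⟩ := kbt (I := I) (A := E) (B := E ⧸ m) (P := P) hP
  let r : P := ⟨F, hF⟩
  have h2 := h1 1 (fun _ => 1) (fun _ => r) (by
    rw [Fin.sum_univ_one, one_smul]
    exact h)
  rw [Fin.sum_univ_one] at h2
  have h3 : r ∈ m • (⊤ : Submodule E P) := by
    rw [← Submodule.Quotient.mk_eq_zero, ← TensorProduct.quotTensorEquivQuotSMul_mk_one_tmul,
      h2, LinearEquiv.map_zero]
  have h4 : P.val.toLinearMap r ∈ (m • (⊤ : Submodule E P)).map P.val.toLinearMap :=
    Submodule.mem_map_of_mem h3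
  rw [Submodule.map_smul''] at h4
  refine Submodule.smul_mono le_rfl ?_ h4
  rintro _ ⟨x, -, rfl⟩
  exact x.2

section

variable {I A : Type} [CommRing A]

theorem ls_ext {f h : LaurentSeries (Eps A)} (h1 : lmap (eps0 A) f = lmap (eps0 A) h)
    (h2 : lsnd f = lsnd h) : f = h := by
  rw [ls_eq f, ls_eq h, h1, h2]

theorem kk_ext {f h : KK I (Eps A)} (h1 : kmap (eps0 A) f = kmap (eps0 A) h)
    (h2 : ksnd f = ksnd h) : f = h :=
  funext fun i => ls_ext (congrFun h1 i) (congrFun h2 i)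

theorem ksnd_smul (c : Eps A) (f : KK I (Eps A)) :
    ksnd (c • f) = c.fst • ksnd f + c.snd • kmap (eps0 A) f := by
  have e : c • f = algebraMap (Eps A) (KK I (Eps A)) c * f := Algebra.smul_def c f
  rw [e, ksnd_mul, kmap_algebraMap, ksnd_algebraMap, Algebra.smul_def, Algebra.smul_def,
    mul_comm (kmap (eps0 A) f)]
  rfl

theorem kmap_inl (a : A) (f : KK I (Eps A)) :
    kmap (eps0 A) (epsInl A a • f) = a • kmap (eps0 A) f := by
  rw [kmap_smul]
  rfl

theorem ksnd_inl (a : A) (f : KK I (Eps A)) : ksnd (epsInl A a • f) = a • ksnd f := by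
  rw [ksnd_smul]
  change a • ksnd f + (0 : A) • _ = _
  rw [zero_smul, add_zero]

theorem kmap_eps (f : KK I (Eps A)) : kmap (eps0 A) (epsE A • f) = 0 := by
  rw [kmap_smul]
  change (0 : A) • _ = _
  rw [zero_smul]

theorem ksnd_eps (f : KK I (Eps A)) : ksnd (epsE A • f) = kmap (eps0 A) f := by
  rw [ksnd_smul]
  change (0 : A) • _ + (1 : A) • _ = _
  rw [zero_smul, one_smul, zero_add]

variable {P : Subalgebra A (KK I A)} {P' : Subalgebra (Eps A) (KK I (Eps A))}

/-- The elements of `P` lift. -/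
theorem lift (h : bc (eps0 A) P' = P) {f : KK I A} (hf : f ∈ P) :
    ∃ F ∈ P', kmap (eps0 A) F = f := by
  rw [← h] at hf
  obtain ⟨m, b, p, hp, rfl⟩ := KBC.exists_sum (eps0 A) P' hf
  refine ⟨∑ k, epsInl A (b k) • p k, sum_mem fun k _ => P'.smul_mem (hp k) _, ?_⟩
  rw [map_sum]
  exact Finset.sum_congr rfl fun k _ => kmap_inl _ _

/-- The multiples of `ε`. -/
theorem ker [Fintype I] [Nonempty I] {g : ℕ} (hP : IsKr g P') {F : KK I (Eps A)} (hF : F ∈ P')
    (h : kmap (eps0 A) F = 0) : ∃ H ∈ P', F = epsE A • H := by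
  have h3 := mem_smul (RingHom.ker (eps0 A)) hP hF (by
    funext i
    ext n
    have h4 : eps0 A ((F i).coeff n) = 0 := congrArg (fun x : KK I A => (x i).coeff n) h
    exact Ideal.Quotient.eq_zero_iff_mem.2 h4)
  refine Submodule.smul_induction_on h3 ?_ ?_
  · intro a ha n hn
    have h4 : a.fst = 0 := ha
    refine ⟨epsInl A a.snd • n, P'.smul_mem hn _, ?_⟩
    rw [smul_smul]
    congr 1
    ext
    · rw [h4]
      simp [epsE, epsInl]
    · simp [epsE, epsInl]
  · rintro x y ⟨r, hr, hr'⟩ ⟨s, hs, hs'⟩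
    exact ⟨r + s, add_mem hr hs, by rw [hr', hs', smul_add]⟩

/-- The class of the coefficient of `ε` is determined by the reduction. -/
theorem uniq [Fintype I] [Nonempty I] {g : ℕ} (hP : IsKr g P') (h : bc (eps0 A) P' = P)
    {F G : KK I (Eps A)} (hF : F ∈ P') (hG : G ∈ P') (e : kmap (eps0 A) F = kmap (eps0 A) G) :
    mk P (ksnd F) = mk P (ksnd G) := by
  rw [mk_eq]
  obtain ⟨H, hH, e'⟩ := ker hP (sub_mem hF hG) (by rw [map_sub, e, sub_self])
  have e1 : ksnd F = ksnd (F - G) + ksnd G := by rw [← ksnd_add, sub_add_cancel]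
  rw [e1, add_sub_cancel_right, e', ksnd_eps, ← h]
  exact kmap_mem_bc _ hH

end

end PDC

open _root_.Pool.Agent.MG.KX.PDC in
theorem t_PDC : Stmt_PDC := by
  intro I A _ _ _ g P P' _ hP' h
  choose F hF hF' using fun f : P => lift h f.2
  have hu : ∀ (f : P) (G : KK I (Eps A)), G ∈ P' → kmap (eps0 A) G = (f : KK I A) →
      mk P (ksnd (F f)) = mk P (ksnd G) := fun f G hG hG' =>
    uniq hP' h (hF f) hG ((hF' f).trans hG'.symm)
  let D : P →ₗ[A] MM P :=
    { toFun := fun f => mk P (ksnd (F f))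
      map_add' := fun f f' => by
        rw [hu (f + f') (F f + F f') (add_mem (hF f) (hF f'))
          (by rw [map_add, hF', hF']; rfl), ksnd_add, map_add]
      map_smul' := fun a f => by
        rw [hu (a • f) (epsInl A a • F f) (P'.smul_mem (hF f) _)
          (by rw [kmap_inl, hF']; rfl), ksnd_inl, mk_smulA]
        rfl }
  let δ : DD P :=
    { toLinearMap := D
      map_one_eq_zero' := by
        change mk P (ksnd (F 1)) = 0
        rw [hu 1 1 (one_mem P') (map_one _), mk_zero]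
        have e := ksnd_algebraMap (I := I) (1 : Eps A)
        rw [map_one] at e
        rw [e]
        exact P.algebraMap_mem _
      leibniz' := fun f f' => by
        change mk P (ksnd (F (f * f'))) = f • mk P (ksnd (F f')) + f' • mk P (ksnd (F f))
        rw [hu (f * f') (F f * F f') (mul_mem (hF f) (hF f'))
          (by rw [map_mul, hF', hF']; rfl), ksnd_mul, hF', hF', ← map_smul, ← map_smul, ← map_add]
        rfl }
  refine ⟨δ, le_antisymm ?_ ?_⟩
  · intro G hG
    have hm : kmap (eps0 A) G ∈ P := by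
      rw [← h]
      exact kmap_mem_bc _ hG
    exact ⟨hm, hu ⟨_, hm⟩ G hG rfl⟩
  · rintro G ⟨hm, hd⟩
    have h1 : mk P (ksnd (F ⟨kmap (eps0 A) G, hm⟩)) = mk P (ksnd G) := hd
    rw [mk_eq] at h1
    obtain ⟨H, hH, hH'⟩ := lift h h1
    have e : G = F ⟨kmap (eps0 A) G, hm⟩ - epsE A • H := by
      apply kk_ext
      · rw [map_sub, hF', kmap_eps, sub_zero]
      · have e1 : ksnd (F ⟨kmap (eps0 A) G, hm⟩) =
            ksnd (F ⟨kmap (eps0 A) G, hm⟩ - epsE A • H) + ksnd (epsE A • H) := by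
          rw [← ksnd_add, sub_add_cancel]
        rw [ksnd_eps, hH'] at e1
        rw [← sub_eq_zero]
        linear_combination e1
    rw [e]
    exact sub_mem (hF _) (P'.smul_mem hH _)

end Pool.Agent.MG.KX


end

section

/-!
# Regular differentials and forgetting punctures

The module MFE (PAPER_M.md).
-/

open TensorProduct

namespace Pool.Agent.MG.G0

namespace MFE

section

variable {I J A : Type} [Fintype I] [Fintype J] [CommRing A]

theorem res_split (f g : KK (I ⊕ J) A) :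
    res (f * g) = res (atI f * atI g) + res (atJ f * atJ g) :=
  Fintype.sum_sum_type fun k => ((f * g) k).coeff (-1)

omit [Fintype I] [Fintype J] in
theorem atI_mem {n : ℤ} {f : KK (I ⊕ J) A} (h : f ∈ Pol (I ⊕ J) A n) : atI f ∈ Pol I A n :=
  fun i m hm => h (Sum.inl i) m hm

omit [Fintype I] [Fintype J] in
theorem atJ_mem {n : ℤ} {f : KK (I ⊕ J) A} (h : f ∈ Pol (I ⊕ J) A n) : atJ f ∈ Pol J A n :=
  fun j m hm => h (Sum.inr j) m hm

omit [Fintype I] [Fintype J] in
theorem mem_Pol0_iff {f : KK J A} : f ∈ Pol J A 0 ↔ ∀ j, ∀ m < 0, (f j).coeff m = 0 := by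
  constructor
  · intro h j m hm
    exact h j m (by omega)
  · intro h j m hm
    exact h j m (by omega)

omit [Fintype I] [Fintype J] in
/-- An element of `P = Rem W` comes from an element of `W`. -/
theorem lift {W : Subalgebra A (KK (I ⊕ J) A)} {P : Subalgebra A (KK I A)} (hF : Forget W P)
    {f : KK I A} (hf : f ∈ P) : ∃ w ∈ W, atI w = f ∧ atJ w ∈ Pol J A 0 := by
  rw [hF.eq] at hf
  obtain ⟨w, hw, h1, h2⟩ := hf
  exact ⟨w, hw, funext h2, mem_Pol0_iff.2 h1⟩

omit [Fintype I] [Fintype J] in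
theorem atI_mem_P {W : Subalgebra A (KK (I ⊕ J) A)} {P : Subalgebra A (KK I A)} (hF : Forget W P)
    {w : KK (I ⊕ J) A} (hw : w ∈ W) (h : atJ w ∈ Pol J A 0) : atI w ∈ P := by
  rw [hF.eq]
  exact ⟨w, hw, mem_Pol0_iff.1 h, fun _ => rfl⟩

omit [Fintype I] [Fintype J] in
theorem approx {W : Subalgebra A (KK (I ⊕ J) A)} {P : Subalgebra A (KK I A)} (hF : Forget W P)
    (y : KK J A) : ∃ w ∈ W, atJ w - y ∈ Pol J A 0 := by
  obtain ⟨w, hw, h⟩ := hF.dns y 0
  refine ⟨w, hw, mem_Pol0_iff.2 fun j m hm => ?_⟩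
  rw [Pi.sub_apply, HahnSeries.coeff_sub]
  change (w (Sum.inr j)).coeff m - (y j).coeff m = 0
  rw [h j m hm, sub_self]

theorem fst {W : Subalgebra A (KK (I ⊕ J) A)} {P : Subalgebra A (KK I A)} (hF : Forget W P)
    {u : KK (I ⊕ J) A} (hu : u ∈ EE W) : atI u ∈ EE P := by
  refine ⟨fun f hf => ?_, atI_mem hu.2⟩
  obtain ⟨w, hw, rfl, hr⟩ := lift hF hf
  have h := hu.1 w hw
  rw [res_split, res_Pol0 (mul_mem_Pol0 (atJ_mem hu.2) hr), add_zero] at h
  exact h

omit [Fintype J] in
/-- The functional given by the residues of a regular differential. -/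
theorem exists_lam {W : Subalgebra A (KK (I ⊕ J) A)} {P : Subalgebra A (KK I A)}
    (hF : Forget W P) {ω : KK I A} (hω : ω ∈ EE P) : ∃ l : KK J A →ₗ[A] A,
      (∀ f ∈ Pol J A 0, l f = 0) ∧ ∀ w ∈ W, l (atJ w) = -res (ω * atI w) := by
  have key : ∀ w ∈ W, ∀ w' ∈ W, atJ w - atJ w' ∈ Pol J A 0 →
      res (ω * atI w) = res (ω * atI w') := by
    intro w hw w' hw' h
    have h1 : atI (w - w') ∈ P := atI_mem_P hF (sub_mem hw hw') h
    have h2 := hω.1 _ h1
    have h3 : ω * atI (w - w') = ω * atI w - ω * atI w' := mul_sub ω (atI w) (atI w')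
    rw [h3, map_sub] at h2
    exact sub_eq_zero.1 h2
  choose s hs1 hs2 using approx hF
  have hl : ∀ (y : KK J A) (w : KK (I ⊕ J) A), w ∈ W → atJ w - y ∈ Pol J A 0 →
      res (ω * atI (s y)) = res (ω * atI w) := by
    intro y w hw h
    refine key _ (hs1 y) _ hw ?_
    have h1 := sub_mem (hs2 y) h
    rwa [sub_sub_sub_cancel_right] at h1
  refine ⟨{ toFun := fun y => -res (ω * atI (s y))
            map_add' := fun y y' => ?_
            map_smul' := fun a y => ?_ }, fun f hf => ?_, fun w hw => ?_⟩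
  · have h1 : atJ (s y + s y') - (y + y') ∈ Pol J A 0 := by
      have h2 := add_mem (hs2 y) (hs2 y')
      rwa [sub_add_sub_comm] at h2
    have h3 := hl (y + y') (s y + s y') (add_mem (hs1 y) (hs1 y')) h1
    have h4 : ω * atI (s y + s y') = ω * atI (s y) + ω * atI (s y') :=
      mul_add ω (atI (s y)) (atI (s y'))
    rw [h3, h4, map_add, neg_add]
  · have h1 : atJ (a • s y) - a • y ∈ Pol J A 0 := by
      have h2 := (Pol J A 0).smul_mem a (hs2 y)
      rwa [smul_sub] at h2
    have h3 := hl (a • y) (a • s y) (W.smul_mem (hs1 y) a) h1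
    have h4 : ω * atI (a • s y) = a • (ω * atI (s y)) := mul_smul_comm a ω (atI (s y))
    rw [h3, h4, map_smul, RingHom.id_apply, smul_neg]
  · change -res (ω * atI (s f)) = 0
    have h1 : atJ (0 : KK (I ⊕ J) A) - f ∈ Pol J A 0 := by
      have h2 := (Pol J A 0).neg_mem hf
      rw [← zero_sub] at h2
      exact h2
    rw [hl f 0 (zero_mem W) h1]
    have h4 : ω * atI (0 : KK (I ⊕ J) A) = 0 := mul_zero ω
    rw [h4, map_zero, neg_zero]
  · change -res (ω * atI (s (atJ w))) = _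
    rw [hl (atJ w) w hw (by rw [sub_self]; exact zero_mem _)]

theorem snd (hKDU : Stmt_KDU) {W : Subalgebra A (KK (I ⊕ J) A)} {P : Subalgebra A (KK I A)}
    (hF : Forget W P) {ω : KK I A} (hω : ω ∈ EE P) : ∃! u, u ∈ EE W ∧ atI u = ω := by
  obtain ⟨l, hl0, hl⟩ := exists_lam hF hω
  obtain ⟨v, ⟨hv0, hv⟩, -⟩ := hKDU (0 : ℤ) l (by rw [neg_zero]; exact hl0)
  refine ⟨Sum.elim ω v, ⟨⟨fun w hw => ?_, ?_⟩, rfl⟩, ?_⟩
  · rw [res_split]
    change res (ω * atI w) + res (v * atJ w) = 0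
    rw [← hv, hl w hw, add_neg_cancel]
  · rintro (i | j) m hm
    · exact hω.2 i m hm
    · exact hv0 j m hm
  · rintro u ⟨hu, hu1⟩
    obtain ⟨z, -, hz⟩ := hKDU (I := J) (A := A) (0 : ℤ) 0 (fun _ _ => rfl)
    have hd1 : u - Sum.elim ω v ∈ Pol (I ⊕ J) A 0 := by
      refine sub_mem hu.2 ?_
      rintro (i | j) m hm
      · exact hω.2 i m hm
      · exact hv0 j m hm
    have hd2 : ∀ w ∈ W, res (atJ (u - Sum.elim ω v) * atJ w) = 0 := by
      intro w hw
      have h1 := hu.1 w hw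
      rw [res_split, hu1] at h1
      have h2 : res (ω * atI w) + res (v * atJ w) = 0 := by
        rw [← hv, hl w hw, add_neg_cancel]
      have h3 : atJ (u - Sum.elim ω v) * atJ w = atJ u * atJ w - v * atJ w :=
        sub_mul (atJ u) v (atJ w)
      rw [h3, map_sub]
      linear_combination h1 - h2
    have h5 : atJ (u - Sum.elim ω v) = z := by
      refine hz _ ⟨atJ_mem hd1, fun f => ?_⟩
      obtain ⟨w, hw, hf⟩ := approx hF f
      have h6 : atJ (u - Sum.elim ω v) * f = atJ (u - Sum.elim ω v) * atJ w -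
          atJ (u - Sum.elim ω v) * (atJ w - f) := by ring
      rw [h6, map_sub, hd2 w hw, res_Pol0 (mul_mem_Pol0 (atJ_mem hd1) hf), sub_zero]
      rfl
    have h7 : (0 : KK J A) = z := by
      refine hz _ ⟨zero_mem _, fun f => ?_⟩
      rw [zero_mul, map_zero]
      rfl
    have h8 : atJ (u - Sum.elim ω v) = 0 := h5.trans h7.symm
    funext k
    rcases k with i | j
    · exact congrFun hu1 i
    · have h9 := congrFun h8 j
      exact sub_eq_zero.1 h9

theorem third {W : Subalgebra A (KK (I ⊕ J) A)} {P : Subalgebra A (KK I A)}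
    (hF : Forget W P) (pt : Bool → FPt W) (pt' : Bool → FPt P) (hR : ∀ b, (pt b).Rs (pt' b))
    (η : KK (I ⊕ J) A) (ρ : A) (hη : η ∈ Pol (I ⊕ J) A 0) (h : IsRho pt η ρ) :
    IsRho pt' (atI η) ρ := by
  intro r
  obtain ⟨w, hw, hw1, hw2⟩ := lift hF r.2
  have h1 := h ⟨w, hw⟩
  have h2 : res (η * w) = res (atI η * (r : KK I A)) := by
    rw [res_split, hw1, res_Pol0 (mul_mem_Pol0 (atJ_mem hη) hw2), add_zero]
  have h3 : ∀ b, (pt' b).ev r = (pt b).ev ⟨w, hw⟩ := fun b => by
    rw [FPt.ev, FPt.ev, hR b ⟨w, hw⟩ r hw1 hw2]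
  rw [h3, h3, ← h2]
  exact h1

end

end MFE

/-- Regular differentials and forgetting punctures. -/
theorem t_MFE (hKDU : Stmt_KDU) (_hKFO : Stmt_KFO) : Stmt_MFE :=
  ⟨fun _ _ hF => ⟨fun _ hu => MFE.fst hF hu, fun _ hω => MFE.snd hKDU hF hω⟩,
    fun hF pt pt' hR η ρ hη h => MFE.third hF pt pt' hR η ρ hη h⟩

end Pool.Agent.MG.G0


end

section

/-!
# Regular differentials and forgetting punctures

The module EEF (PAPER_Q.md).
-/

namespace Pool.Agent.MG.G0

namespace EEF

/-- A differential of the punctured curve which vanishes at the old punctures and is regular at the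
new punctures is zero. -/
theorem zero {I J A : Type} [Fintype I] [Fintype J] [CommRing A] (hKDU : Stmt_KDU)
    {W : Subalgebra A (KK (I ⊕ J) A)} {P : Subalgebra A (KK I A)} (hF : Forget W P)
    {ω : KK (I ⊕ J) A} (h : ω ∈ Perp W) (h1 : atI ω = 0) (h2 : atJ ω ∈ Pol J A 0) : ω = 0 := by
  obtain ⟨z, -, hz⟩ := hKDU (I := J) (A := A) (0 : ℤ) 0 (fun _ _ => rfl)
  have h5 : atJ ω = z := by
    refine hz _ ⟨h2, fun f => ?_⟩
    obtain ⟨w, hw, hf⟩ := MFE.approx hF f
    have h6 : atJ ω * f = atJ ω * atJ w - atJ ω * (atJ w - f) := by ring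
    have h7 := h w hw
    rw [MFE.res_split, h1, zero_mul, map_zero, zero_add] at h7
    rw [h6, map_sub, h7, res_Pol0 (mul_mem_Pol0 h2 hf), sub_zero]
    rfl
  have h8 : (0 : KK J A) = z := by
    refine hz _ ⟨zero_mem _, fun f => ?_⟩
    rw [zero_mul, map_zero]
    rfl
  have h9 : atJ ω = 0 := h5.trans h8.symm
  funext k
  rcases k with i | j
  · exact congrFun h1 i
  · exact congrFun h9 j

end EEF

theorem t_EEF (hKDU : Stmt_KDU) : Stmt_EEF := by
  intro I J A _ _ _ _ h P W _ hF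
  exact ⟨fun ω hω => MFE.fst hF hω, fun ω hω h1 h2 => EEF.zero hKDU hF hω h1 h2,
    fun ω hω => MFE.snd hKDU hF hω⟩

end Pool.Agent.MG.G0


end

section

/-!
# UPO: Kähler differentials on a model (helper98)
-/

open Polynomial

namespace Pool.Agent.MG.G0

namespace UPO

theorem kr_bc1 (hKBC : Stmt_KBC) {A B : Type} [CommRing A] [CommRing B] {g : ℕ}
    {R : Subalgebra A (LaurentSeries A)} (h : Kr g R) (φ : A →+* B) : Kr g (bc1 φ R) := by
  have h1 := (hKBC.2.2.2 (P := uno R) h φ).1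
  rw [bc_uno] at h1
  exact h1

theorem zz_bc1 {A B : Type} [CommRing A] [CommRing B] {d : ℕ}
    {R : Subalgebra A (LaurentSeries A)} (h : zz A d ∈ R) (φ : A →+* B) : zz B d ∈ bc1 φ R := by
  rw [← lmap_zz φ d]
  exact Algebra.subset_adjoin ⟨zz A d, h, rfl⟩

theorem bc1_comp (hKBC : Stmt_KBC) {A B C : Type} [CommRing A] [CommRing B] [CommRing C]
    (φ : A →+* B) (ψ : B →+* C) (R : Subalgebra A (LaurentSeries A)) :
    bc1 (ψ.comp φ) R = bc1 ψ (bc1 φ R) := by
  have h := hKBC.2.1 (I := Unit) φ ψ (uno R)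
  rw [bc_uno, bc_uno, bc_uno] at h
  have h2 := congrArg duo h
  rwa [duo_uno, duo_uno] at h2

/-- The quotient of `O` by the power `π ^ 3`, and its residue map. -/
theorem quot {κ O : Type} [Field κ] [CommRing O] [Algebra κ O] (D : LD κ O) :
    ∃ (A : Type) (_ : CommRing A) (_ : Algebra κ A) (ρ : O →+* A) (rs : A →ₐ[κ] κ),
      Function.Surjective ρ ∧ (∀ x, ρ x = 0 ↔ D.π ^ 3 ∣ x) ∧
      (rs : A →+* κ).comp ρ = (D.rs : O →+* κ) ∧ RingHom.ker (rs : A →+* κ) ^ 3 = ⊥ ∧
      (RingHom.ker (rs : A →+* κ)).FG := by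
  let I : Ideal O := Ideal.span {D.π ^ 3}
  have hI : ∀ a, a ∈ I → D.rs a = 0 := by
    intro a ha
    obtain ⟨b, rfl⟩ := Ideal.mem_span_singleton.1 ha
    rw [map_mul, map_pow, D.rsπ]
    ring
  let rs : (O ⧸ I) →ₐ[κ] κ := Ideal.Quotient.liftₐ I D.rs hI
  have hrs : ∀ x : O, rs (Ideal.Quotient.mk I x) = D.rs x := fun x => rfl
  have hker : RingHom.ker (rs : (O ⧸ I) →+* κ) = Ideal.span {Ideal.Quotient.mk I D.π} := by
    apply le_antisymm
    · intro x hx
      obtain ⟨y, rfl⟩ := Ideal.Quotient.mk_surjective x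
      have h1 : D.rs y = 0 := hx
      obtain ⟨z, rfl⟩ := D.ker y h1
      rw [Ideal.mem_span_singleton]
      exact ⟨Ideal.Quotient.mk I z, map_mul _ _ _⟩
    · rw [Ideal.span_singleton_le_iff_mem]
      change rs (Ideal.Quotient.mk I D.π) = 0
      rw [hrs, D.rsπ]
  refine ⟨O ⧸ I, inferInstance, inferInstance, Ideal.Quotient.mk I, rs,
    Ideal.Quotient.mk_surjective, ?_, ?_, ?_, ?_⟩
  · intro x
    rw [Ideal.Quotient.eq_zero_iff_mem]
    exact Ideal.mem_span_singleton
  · exact RingHom.ext fun x => hrs x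
  · rw [hker, Ideal.span_singleton_pow, ← map_pow]
    have h0 : Ideal.Quotient.mk I (D.π ^ 3) = 0 :=
      Ideal.Quotient.eq_zero_iff_mem.2 (Ideal.mem_span_singleton_self _)
    rw [h0, Ideal.span_singleton_eq_bot]
  · rw [hker]
    exact ⟨{Ideal.Quotient.mk I D.π}, by rw [Finset.coe_singleton]⟩

end UPO

open _root_.Pool.Agent.MG.G0.UPO in
/-- UPO -/
theorem t_UPO (hKBC : Stmt_KBC) (hSDF : Stmt_SDF) (hSTO : Stmt_STO) (hMSM : Stmt_MSM)
    (hPL7 : Stmt_PL7) (hNPL : Stmt_NPL) (hSPR : Stmt_SPR) : Stmt_UPO := by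
  intro κ O L _ _ _ _ _ _ _ _ g d R M hg hd
  obtain ⟨g', rfl⟩ : ∃ g', g = g' + 1 := ⟨g - 1, by omega⟩
  have hfac : ((d.factorial : ℕ) : κ) ≠ 0 := Nat.cast_ne_zero.2 (Nat.factorial_ne_zero d)
  have hval : ValuationRing O := M.val
  have hd1 : 1 ≤ d := by omega
  have hcast : ∀ n : ℕ, n ≠ 0 → IsUnit (n : O) := by
    intro n hn
    have h1 : IsUnit (n : κ) := isUnit_iff_ne_zero.2 (Nat.cast_ne_zero.2 hn)
    have h2 := h1.map (algebraMap κ O)
    rwa [map_natCast] at h2
  have hdO : IsUnit (d : O) := hcast d (by omega)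
  have hπu : ¬ IsUnit M.π := by
    intro h
    have h1 := h.map M.rs
    rw [M.rsπ] at h1
    exact not_isUnit_zero h1
  obtain ⟨hKil, hDisc, hSm⟩ := hMSM M hd hfac
  refine ⟨fun hS => ?_, fun hN => ?_⟩
  · obtain ⟨h1, h2⟩ := hSm inferInstance hS
    have hkr : IsKr (g' + 1) (uno M.Pb) := kr_bc1 hKBC M.kr _
    have hD : Dual (uno M.Pb) := hSDF hkr h1 h2
    have hP : Perp (uno M.Pb) ≤ Om (uno M.Pb) := ((hSTO hkr).2.2.2.2 h2).2.2.1 hD
    have hrs : Function.Surjective (M.rs : O →+* κ) :=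
      fun c => ⟨algebraMap κ O c, M.rs.commutes c⟩
    have h3 := hSPR (M.rs : O →+* κ) (R := M.P) (f := M.f) (π := M.π) (u := 1) (m := 0) (M := 1)
      hrs M.ne hπu isUnit_one (by norm_num)
      (fun x => ⟨fun h => by rw [pow_one]; exact M.ker x h, fun h => by
        rw [pow_one] at h
        obtain ⟨y, rfl⟩ := h
        change M.rs (M.π * y) = 0
        rw [map_mul, M.rsπ, zero_mul]⟩) hd1 hdO M.kr M.z M.monic hKil
      (fun x hx => by
        rw [pow_zero, mul_one, map_one, one_smul]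
        exact hP hx)
    intro x hx
    have h4 := h3 x hx
    rwa [pow_zero, mul_one, one_smul] at h4
  · obtain ⟨c, s₀, u, h, ⟨h', hfb, hc', hsep⟩, hGRk, hs, hu, hf, hev⟩ := hN
    obtain ⟨A, _, _, ρ, rs, hρ, hρ0, hcomp, hk3, hFG⟩ := quot M.toLD
    have hcomp' : ∀ x, rs (ρ x) = M.rs x := fun x => congrArg (fun F => F x) hcomp
    have h4O : IsUnit (4 : O) := by
      have := hcast 4 (by norm_num)
      exact_mod_cast this
    obtain ⟨v, hv⟩ := h4O.exists_left_inv
    have hv' : IsUnit v := IsUnit.of_mul_eq_one (4 : O) hv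
    have hvu : IsUnit (v * u) := hv'.mul hu
    have h4t : (4 : O) * (v * u * M.π ^ 2) = M.π ^ 2 * u := by
      linear_combination (u * M.π ^ 2) * hv
    have h4t' : (4 : A) * ρ (v * u * M.π ^ 2) = ρ (M.π ^ 2 * u) := by
      rw [← h4t, map_mul ρ 4, map_ofNat]
    have hdisc : Disc d (bc1 ρ M.P)
        (((X - C (ρ s₀)) ^ 2 - C (4 * ρ (v * u * M.π ^ 2))) * h.map ρ) := by
      have h1 := hDisc ρ ⟨3, (hρ0 _).2 (dvd_refl _)⟩
      rw [hf, Polynomial.map_mul, Polynomial.map_sub, Polynomial.map_pow, Polynomial.map_sub,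
        Polynomial.map_X, Polynomial.map_C, Polynomial.map_C, ← h4t'] at h1
      exact h1
    have hmap : (h.map ρ).map (rs : A →+* κ) = h.map (M.rs : O →+* κ) := by
      rw [Polynomial.map_map, hcomp]
    have hπ0 : M.rs (M.π ^ 2 * u) = 0 := by
      rw [map_mul, map_pow, M.rsπ]
      ring
    have hfb2 : M.fb = (X - C c) ^ 2 * h.map (M.rs : O →+* κ) := by
      have h1 : M.fb = M.f.map (M.rs : O →+* κ) := rfl
      have h2 : (M.rs : O →+* κ) (M.π ^ 2 * u) = 0 := hπ0
      have h3 : (M.rs : O →+* κ) s₀ = c := hs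
      rw [h1, hf, Polynomial.map_mul, Polynomial.map_sub, Polynomial.map_pow, Polynomial.map_sub,
        Polynomial.map_X, Polynomial.map_C, Polynomial.map_C, h2, h3, C_0, sub_zero]
    have hh' : h.map (M.rs : O →+* κ) = h' := by
      have h1 : (X - C c) ^ 2 ≠ 0 := pow_ne_zero 2 (X_sub_C_ne_zero c)
      exact mul_left_cancel₀ h1 (hfb2.symm.trans hfb)
    have hbcb : bc1 (rs : A →+* κ) (bc1 ρ M.P) = M.Pb := by
      rw [← bc1_comp hKBC, hcomp]
      rfl
    have ht0 : rs (ρ (v * u * M.π ^ 2)) = 0 := by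
      rw [hcomp', map_mul, map_pow, M.rsπ]
      ring
    obtain ⟨R', hR', hfs, hsm, hdual, pt, hdisj, hPT⟩ := hNPL rs (P := bc1 ρ M.P)
      (h := h.map ρ) (s := ρ s₀) (t := ρ (v * u * M.π ^ 2)) ⟨3, hk3⟩ hFG hd hfac
      (kr_bc1 hKBC M.kr ρ) (zz_bc1 M.z ρ) hdisc ht0 (by rw [hmap, hh']; exact hsep)
      (by
        rw [hmap, hcomp', hs]
        exact hev)
      (by
        rw [hbcb, hcomp', hs]
        exact hGRk)
    have hnil : IsNilpotent (ρ (v * u * M.π ^ 2)) := by
      refine ⟨2, ?_⟩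
      rw [← map_pow, hρ0]
      exact ⟨(v * u) ^ 2 * M.π, by ring⟩
    have hP7 := hPL7 hR' hsm hdual pt hdisj _ hnil
    rw [hPT] at hP7
    have h3 := hSPR ρ (R := M.P) (f := M.f) (π := M.π) (u := v * u) (m := 2) (M := 3)
      hρ M.ne hπu hvu (by norm_num) hρ0 hd1 hdO M.kr M.z M.monic hKil hP7
    intro x hx
    have h4 := h3 x hx
    obtain ⟨w, hw⟩ := hvu.exists_left_inv
    have h5 := Submodule.smul_mem (Om (uno M.P)) w h4
    rw [smul_smul, ← mul_assoc, hw, one_mul] at h5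
    exact h5

end Pool.Agent.MG.G0


end
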