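import Mathlib
import Pool.Agent.KDM.C02
import Pool.Agent.KDM.C08
import Pool.Agent.KDM.C15
import Pool.Agent.KDM.C22
import Pool.Agent.KDM.C24
import Pool.Agent.KDM.C26
import Pool.Agent.KDM.C28
import Pool.Agent.KDM.C29
import Pool.Agent.KDM.C31
import Pool.Agent.KDM.C33
import Pool.Agent.KDM.C36
import Pool.Agent.KDM.C37
import Pool.Agent.KDM.C41
import Pool.Agent.KDM.C54
import Pool.Agent.KDM.C56

/-! Parts: MG.WL.DGL, MG.WL.SCC, MG.G0.AWK, MG.KX.KCO, MG.KX.KFW, MG.KX.KPT, MG.G0.TG.TEP, MG.G0.UAI, MG.G0.UGD -/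

section

/-!
# DGL: compatible classes come from a deformation
-/

open CategoryTheory CategoryTheory.Limits AlgebraicGeometry TensorProduct

namespace Pool.Agent.MG.WL

open Pool.Agent.MG.W Pool.Agent.MG.One

namespace DGL

section

variable {A B B' D : Type} [CommRing A] [CommRing B] [CommRing B'] [CommRing D]

theorem map_id' {a b a' b' : B} (ha : a' = RingHom.id B a) (hb : b' = RingHom.id B b)
    (hab : a' = a ∧ b' = b) :
    WX.map (RingHom.id B) ha hb = eqToHom (by rw [hab.1, hab.2]) := by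
  obtain ⟨h1, h2⟩ := hab
  subst h1
  subst h2
  rw [eqToHom_refl]
  refine WX.ext' ?_ ?_
  · rw [WX.in1_map, Category.comp_id]
    have e : bc1 (RingHom.id B) ha hb = RingHom.id _ := by
      refine hom1_ext (fun c => ?_) ?_ ?_
      · rw [bc1_b]
        rfl
      · rw [bc1_x]
        rfl
      · rw [bc1_y]
        rfl
    rw [e, spMap_id, Category.id_comp]
  · rw [WX.in2_map, Category.comp_id]
    have e : bc2 (RingHom.id B) ha hb = RingHom.id _ := by
      refine hom2_ext (fun c => ?_) ?_ ?_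
      · rw [bc2_b]
        rfl
      · rw [bc2_z]
        rfl
      · rw [bc2_t]
        rfl
    rw [e, spMap_id, Category.id_comp]

/-- The scaling of the dual numbers. -/
theorem exU (h6 : IsUnit (6 : D)) {a b u v α β α' β' a' b' : D} (huv : u * v = 1)
    (ha : a' = u ^ 4 * a) (hb : b' = u ^ 6 * b) (hs : Ideal.span {a', b'} = ⊤)
    (h : 2 * a' * β' - 3 * b' * α' = u ^ 10 * (2 * a * β - 3 * b * α)) :
    ∃ U V : Eps D, U * V = 1 ∧ U.fst = u ∧ ep a' α' = U ^ 4 * ep a α ∧
      ep b' β' = U ^ 6 * ep b β := by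
  obtain ⟨i6, hi⟩ := h6.exists_right_inv
  rw [Ideal.eq_top_iff_one, Ideal.mem_span_pair] at hs
  obtain ⟨r, s, hrs⟩ := hs
  obtain ⟨X, hX⟩ : ∃ X, X = α' - u ^ 4 * α := ⟨_, rfl⟩
  obtain ⟨Z, hZ⟩ : ∃ Z, Z = β' - u ^ 6 * β := ⟨_, rfl⟩
  have hXZ : 2 * a' * Z = 3 * b' * X := by
    rw [hX, hZ]
    have e : u ^ 10 * (2 * a * β - 3 * b * α) =
        2 * (u ^ 4 * a) * (u ^ 6 * β) - 3 * (u ^ 6 * b) * (u ^ 4 * α) := by ring
    rw [e, ← ha, ← hb] at h
    linear_combination h
  -- `w = r X / 4 + s Z / 6`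
  obtain ⟨w, hw⟩ : ∃ w, w = r * X * (9 * i6 ^ 2) + s * Z * i6 := ⟨_, rfl⟩
  have h1 : 4 * w * a' = X := by
    have : X = (r * a' + s * b') * X := by rw [hrs, one_mul]
    rw [hw]
    linear_combination (-1 : D) * this + (r * X * a' * (6 * i6 + 1) - s * b' * X * 0) * hi +
      2 * s * i6 * hXZ + s * b' * X * hi
  have h2 : 6 * w * b' = Z := by
    have : Z = (r * a' + s * b') * Z := by rw [hrs, one_mul]
    rw [hw]
    linear_combination (-1 : D) * this + s * Z * b' * hi - 18 * r * i6 ^ 2 * hXZ +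
      r * a' * Z * (6 * i6 + 1) * hi
  have hpow : ∀ k : ℕ, (ep u (u * w)) ^ k = ep (u ^ k) (k * u ^ k * w) := by
    intro k
    induction k with
    | zero =>
      refine TrivSqZeroExt.ext ?_ ?_
      · rw [pow_zero, fst_ep, TrivSqZeroExt.fst_one, pow_zero]
      · rw [pow_zero, snd_ep, TrivSqZeroExt.snd_one, Nat.cast_zero]
        ring
    | succ k ih =>
      rw [pow_succ, ih]
      refine TrivSqZeroExt.ext ?_ ?_
      · rw [fst_mul', fst_ep, fst_ep, fst_ep, pow_succ]
      · rw [snd_mul', fst_ep, fst_ep, snd_ep, snd_ep, snd_ep, Nat.cast_succ]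
        ring
  refine ⟨ep u (u * w), ep v (-(v * w)), ?_, fst_ep _ _, ?_, ?_⟩
  · refine TrivSqZeroExt.ext ?_ ?_
    · rw [fst_mul', fst_ep, fst_ep, TrivSqZeroExt.fst_one, huv]
    · rw [snd_mul', fst_ep, fst_ep, snd_ep, snd_ep, TrivSqZeroExt.snd_one]
      ring
  · rw [hpow]
    refine TrivSqZeroExt.ext ?_ ?_
    · rw [fst_mul', fst_ep, fst_ep, fst_ep, ha]
    · rw [snd_mul', fst_ep, fst_ep, snd_ep, snd_ep, snd_ep]
      push_cast
      rw [ha] at h1
      linear_combination (-1 : D) * h1 - hX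
  · rw [hpow]
    refine TrivSqZeroExt.ext ?_ ?_
    · rw [fst_mul', fst_ep, fst_ep, fst_ep, hb]
    · rw [snd_mul', fst_ep, fst_ep, snd_ep, snd_ep, snd_ep]
      push_cast
      rw [hb] at h2
      linear_combination (-1 : D) * h2 - hZ

/-- Uniqueness of arrows of deformations with given restriction. -/
theorem uniq (hRGD : Stmt_RGD) (ρ : B →+* D) (h6 : IsUnit (6 : D)) {x : Fam 1 D} (hx : LW x)
    {z : Fam 1 (Eps D)} (hz : IsStable 1 z) {y : Fam 1 (Eps B)} (hy : IsStable 1 y)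
    (r : Arrow (eps0 D) x z) (g g' : Arrow (epsMap ρ) z y) (h : r.f ≫ g.f = r.f ≫ g'.f) :
    g.f = g'.f := by
  let b := PBS.bcArrow (epsMap ρ) y
  let G : Arrow (RingHom.id (Eps D)) z (PBS.bc (epsMap ρ) y) :=
    arrowLift (castA (RingHom.id_comp (epsMap ρ)).symm g) b
  let G' : Arrow (RingHom.id (Eps D)) z (PBS.bc (epsMap ρ) y) :=
    arrowLift (castA (RingHom.id_comp (epsMap ρ)).symm g') b
  have hG : G.f ≫ b.f = g.f := arrowLift_f _ _
  have hG' : G'.f ≫ b.f = g'.f := arrowLift_f _ _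
  have hr : r.f ≫ G.f = r.f ≫ G'.f := by
    refine arrow_ext (PBS.comp r G) (PBS.comp r G') b ?_
    change (r.f ≫ G.f) ≫ b.f = (r.f ≫ G'.f) ≫ b.f
    rw [Category.assoc, Category.assoc, hG, hG', h]
  have e := hRGD h6 hx z (PBS.bc (epsMap ρ) y) hz (PBS.bc_stable _ _ hy) r G G' hr
  rw [← hG, ← hG', e]

/-- The restriction of `a + ε α`, `b + ε β`. -/
noncomputable def rr (a b α β : B) :
    Arrow (eps0 B) (Wei (WZ a b)) (Wei (WZ (ep a α) (ep b β))) :=
  warr (eps0 B) (fst_ep a α).symm (fst_ep b β).symm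

/-- Base change of the deformation `a + ε α`, `b + ε β`. -/
noncomputable def rw' (ψ : B →+* D) (a b α β : B) :
    Arrow (epsMap ψ) (Wei (WZ (ep (ψ a) (ψ α)) (ep (ψ b) (ψ β)))) (Wei (WZ (ep a α) (ep b β))) :=
  warr (epsMap ψ) (epsMap_ep ψ a α).symm (epsMap_ep ψ b β).symm

theorem rr_rw (ψ : B →+* D) (a b α β : B) :
    (rr (ψ a) (ψ b) (ψ α) (ψ β)).f ≫ (rw' ψ a b α β).f =
      (warr ψ (a := a) (b := b) rfl rfl).f ≫ (rr a b α β).f := by
  have ea : a = eps0 B (ep a α) := (fst_ep a α).symm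
  have eb : b = eps0 B (ep b β) := (fst_ep b β).symm
  have ea' : ψ a = ψ.comp (eps0 B) (ep a α) := congrArg ψ ea
  have eb' : ψ b = ψ.comp (eps0 B) (ep b β) := congrArg ψ eb
  have h1 := warr_comp (epsMap ψ) (eps0 D) (χ := ψ.comp (eps0 B)) (eps0_epsMap ψ)
    (epsMap_ep ψ a α).symm (epsMap_ep ψ b β).symm (fst_ep (ψ a) (ψ α)).symm
    (fst_ep (ψ b) (ψ β)).symm ea' eb'
  have h2 := warr_comp (eps0 B) ψ (χ := ψ.comp (eps0 B)) rfl ea eb (rfl : ψ a = ψ a)
    (rfl : ψ b = ψ b) ea' eb'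
  exact h1.trans h2.symm

/-- Comparison of the deformations in two charts. -/
theorem key (hREL : Stmt_REL) (h6 : IsUnit (6 : D)) {φ : A →+* B} {φ' : A →+* B'} {C : Fam 1 A}
    (c : Ch φ C) (c' : Ch φ' C) (ψ : B →+* D) (ψ' : B' →+* D) (h : ψ.comp φ = ψ'.comp φ')
    (α β : B) (α' β' : B')
    (hδ : ∀ u, Rel c c' ψ ψ' u → ψ' (2 * c'.a * β' - 3 * c'.b * α') =
      u ^ 10 * ψ (2 * c.a * β - 3 * c.b * α)) :
    ∃ (s : Arrow (RingHom.id D) (Wei (WZ (ψ' c'.a) (ψ' c'.b))) (Wei (WZ (ψ c.a) (ψ c.b))))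
      (g : Arrow (RingHom.id (Eps D)) (Wei (WZ (ep (ψ' c'.a) (ψ' α')) (ep (ψ' c'.b) (ψ' β'))))
        (Wei (WZ (ep (ψ c.a) (ψ α)) (ep (ψ c.b) (ψ β))))),
      (rr (ψ' c'.a) (ψ' c'.b) (ψ' α') (ψ' β')).f ≫ g.f =
        s.f ≫ (rr (ψ c.a) (ψ c.b) (ψ α) (ψ β)).f ∧
      s.f ≫ (warr ψ (a := c.a) (b := c.b) rfl rfl).f ≫ c.e.f =
        (warr ψ' (a := c'.a) (b := c'.b) rfl rfl).f ≫ c'.e.f := by
  obtain ⟨u, hu⟩ := hREL.1 c c' ψ ψ' h6 h
  have hd := hδ u hu
  obtain ⟨v, huv, ha, hb, hc⟩ := hu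
  have hs : Ideal.span {ψ' c'.a, ψ' c'.b} = ⊤ := (c'.push ψ').h
  obtain ⟨U, V, hUV, hU, hA, hB⟩ := exU h6 (a := ψ c.a) (b := ψ c.b) (α := ψ α) (β := ψ β)
    (α' := ψ' α') (β' := ψ' β') huv ha hb hs (by
      have e := hd
      simp only [map_sub, map_mul, map_ofNat] at e
      exact e)
  refine ⟨scarr huv ha hb, scarr hUV hA hB, ?_, hc⟩
  exact (t_WSC.2.2 (eps0 D) hUV hA hB huv ha hb (fst_ep _ _).symm (fst_ep _ _).symm
    (fst_ep _ _).symm (fst_ep _ _).symm hU.symm).symm

/-- The arrow `g` of deformations is compatible with the arrows to `C`. -/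
def Good {φ : A →+* B} {φ' : A →+* D} {C : Fam 1 A} {x : Fam 1 B} {x' : Fam 1 D}
    {y : Fam 1 (Eps B)} {y' : Fam 1 (Eps D)} (r : Arrow (eps0 B) x y)
    (r' : Arrow (eps0 D) x' y') (e : Arrow φ x C) (e' : Arrow φ' x' C) (ρ : B →+* D)
    (g : Arrow (epsMap ρ) y' y) : Prop :=
  ∃ s : Arrow ρ x' x, r'.f ≫ g.f = s.f ≫ r.f ∧ s.f ≫ e.f = e'.f

theorem Good.uniq {φ : A →+* B} {φ' : A →+* D} {C : Fam 1 A} {x : Fam 1 B} {x' : Fam 1 D}
    {y : Fam 1 (Eps B)} {y' : Fam 1 (Eps D)} {r : Arrow (eps0 B) x y}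
    {r' : Arrow (eps0 D) x' y'} {e : Arrow φ x C} {e' : Arrow φ' x' C} {ρ : B →+* D}
    {g g' : Arrow (epsMap ρ) y' y} (hRGD : Stmt_RGD) (h6 : IsUnit (6 : D)) (hx : LW x')
    (hy' : IsStable 1 y') (hy : IsStable 1 y) (hg : Good r r' e e' ρ g)
    (hg' : Good r r' e e' ρ g') : g.f = g'.f := by
  obtain ⟨s, h1, h2⟩ := hg
  obtain ⟨s', h1', h2'⟩ := hg'
  have hs : s.f = s'.f := arrow_ext s s' e (h2.trans h2'.symm)
  refine DGL.uniq hRGD ρ h6 hx hy' hy r' g g' ?_
  rw [h1, h1', hs]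

theorem epsMap_id : epsMap (RingHom.id B) = RingHom.id (Eps B) :=
  RingHom.ext fun z => by
    refine TrivSqZeroExt.ext ?_ ?_ <;> simp [epsMap]

theorem Good.id {φ : A →+* B} {C : Fam 1 A} {x : Fam 1 B} {y : Fam 1 (Eps B)}
    (r : Arrow (eps0 B) x y) (e : Arrow φ x C) :
    Good r r e e (RingHom.id B) (castA epsMap_id.symm (idArr y)) := by
  refine ⟨idArr x, ?_, ?_⟩
  · change r.f ≫ 𝟙 _ = 𝟙 _ ≫ r.f
    rw [Category.comp_id, Category.id_comp]
  · change 𝟙 _ ≫ e.f = e.f
    rw [Category.id_comp]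

theorem Good.comp {φ : A →+* B} {φ' : A →+* D} {φ'' : A →+* B'} {C : Fam 1 A} {x : Fam 1 B}
    {x' : Fam 1 D} {x'' : Fam 1 B'} {y : Fam 1 (Eps B)} {y' : Fam 1 (Eps D)}
    {y'' : Fam 1 (Eps B')} {r : Arrow (eps0 B) x y}
    {r' : Arrow (eps0 D) x' y'} {r'' : Arrow (eps0 B') x'' y''} {e : Arrow φ x C}
    {e' : Arrow φ' x' C} {e'' : Arrow φ'' x'' C} {ρ : B →+* D} {ρ' : D →+* B'}
    {g : Arrow (epsMap ρ) y' y} {g' : Arrow (epsMap ρ') y'' y'}
    (hg : Good r r' e e' ρ g) (hg' : Good r' r'' e' e'' ρ' g') :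
    Good r r'' e e'' (ρ'.comp ρ) (castA (epsMap_comp ρ ρ') (PBS.comp g' g)) := by
  obtain ⟨s, h1, h2⟩ := hg
  obtain ⟨s', h1', h2'⟩ := hg'
  refine ⟨PBS.comp s' s, ?_, ?_⟩
  · change r''.f ≫ g'.f ≫ g.f = (s'.f ≫ s.f) ≫ r.f
    rw [reassoc_of% h1', h1, Category.assoc]
  · change (s'.f ≫ s.f) ≫ e.f = e''.f
    rw [Category.assoc, h2, h2']

theorem Good.cast {φ : A →+* B} {φ' : A →+* D} {C : Fam 1 A} {x : Fam 1 B} {x' : Fam 1 D}
    {y : Fam 1 (Eps B)} {y' : Fam 1 (Eps D)} {r : Arrow (eps0 B) x y}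
    {r' : Arrow (eps0 D) x' y'} {e : Arrow φ x C} {e' : Arrow φ' x' C} {ρ ρ' : B →+* D}
    (h : ρ = ρ') {g : Arrow (epsMap ρ) y' y} (hg : Good r r' e e' ρ g) :
    Good r r' e e' ρ' (castA (congrArg epsMap h) g) := by
  subst h
  exact hg

/-- Comparison of the deformations in two charts, over a ring extension. -/
theorem key2 {B0 : Type} [CommRing B0] (hREL : Stmt_REL) (h6 : IsUnit (6 : D)) {φ : A →+* B}
    {φ' : A →+* B'} {C : Fam 1 A} (c : Ch φ C) (c' : Ch φ' C) (ψ : B →+* B0) (ρ : B0 →+* D)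
    (ψ' : B' →+* D) (h : (ρ.comp ψ).comp φ = ψ'.comp φ') (α β : B) (α' β' : B')
    (hδ : ∀ u, Rel c c' (ρ.comp ψ) ψ' u → ψ' (2 * c'.a * β' - 3 * c'.b * α') =
      u ^ 10 * (ρ.comp ψ) (2 * c.a * β - 3 * c.b * α)) :
    ∃ g : Arrow (epsMap ρ) (Wei (WZ (ep (ψ' c'.a) (ψ' α')) (ep (ψ' c'.b) (ψ' β'))))
        (Wei (WZ (ep (ψ c.a) (ψ α)) (ep (ψ c.b) (ψ β)))),
      Good (rr (ψ c.a) (ψ c.b) (ψ α) (ψ β)) (rr (ψ' c'.a) (ψ' c'.b) (ψ' α') (ψ' β'))
        (c.push ψ).e (c'.push ψ').e ρ g := by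
  obtain ⟨s, g, h1, h2⟩ := key hREL h6 c c' (ρ.comp ψ) ψ' h α β α' β' hδ
  let w := rw' ρ (ψ c.a) (ψ c.b) (ψ α) (ψ β)
  have hw : (rr ((ρ.comp ψ) c.a) ((ρ.comp ψ) c.b) ((ρ.comp ψ) α) ((ρ.comp ψ) β)).f ≫ w.f =
      (warr ρ (a := ψ c.a) (b := ψ c.b) rfl rfl).f ≫
        (rr (ψ c.a) (ψ c.b) (ψ α) (ψ β)).f := rr_rw ρ (ψ c.a) (ψ c.b) (ψ α) (ψ β)
  have hv : (warr ρ (a := ψ c.a) (b := ψ c.b) rfl rfl).f ≫
      (warr ψ (a := c.a) (b := c.b) rfl rfl).f =
      (warr (ρ.comp ψ) (a := c.a) (b := c.b) rfl rfl).f :=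
    warr_comp ψ ρ rfl rfl rfl rfl rfl rfl rfl
  refine ⟨castA (RingHom.id_comp (epsMap ρ)) (PBS.comp g w),
    castA (RingHom.id_comp ρ) (PBS.comp s (warr ρ rfl rfl)), ?_, ?_⟩
  · change (rr (ψ' c'.a) (ψ' c'.b) (ψ' α') (ψ' β')).f ≫ g.f ≫ w.f =
      (s.f ≫ (warr ρ (a := ψ c.a) (b := ψ c.b) rfl rfl).f) ≫
        (rr (ψ c.a) (ψ c.b) (ψ α) (ψ β)).f
    rw [reassoc_of% h1, Category.assoc, ← hw]
  · change (s.f ≫ (warr ρ (a := ψ c.a) (b := ψ c.b) rfl rfl).f) ≫
      (warr ψ (a := c.a) (b := c.b) rfl rfl).f ≫ c.e.f =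
        (warr ψ' (a := c'.a) (b := c'.b) rfl rfl).f ≫ c'.e.f
    rw [Category.assoc, reassoc_of% hv, ← h2]

theorem factor2 {φ : A →+* B} {φ' : A →+* D} {C : Fam 1 A} {x : Fam 1 B} {x' : Fam 1 D}
    (e : Arrow φ x C) (e' : Arrow φ' x' C) {ρ : B →+* D} (s : Arrow ρ x' x)
    (hs : s.f ≫ e.f = e'.f) (hm : Mono (spMap φ)) {Z : Scheme.{0}} (p : Z ⟶ x.X)
    (ζ : Z ⟶ x'.X) (hζ : ζ ≫ e'.f = p ≫ e.f) : ζ ≫ s.f = p := by
  refine e.cart.hom_ext ?_ ?_
  · rw [Category.assoc, hs, hζ]
  · rw [← cancel_mono (spMap φ), Category.assoc, Category.assoc, Category.assoc, ← e.cart.w,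
      reassoc_of% hs, reassoc_of% hζ]

end

section

variable {A : Type} [CommRing A] {r : ℕ} (f : Fin r → A)

/-- The ring of the intersection of the `D(f i)`, `i ∈ S`. -/
abbrev AS (S : {S : Finset (Fin r) // S.Nonempty}) : Type := Localization.Away (∏ i ∈ S.1, f i)

theorem unitAS {S T : Finset (Fin r)} (h : S ⊆ T) {R : Type} [CommRing R] [Algebra A R]
    (hR : IsUnit (algebraMap A R (∏ i ∈ T, f i))) :
    IsUnit (algebraMap A R (∏ i ∈ S, f i)) :=
  isUnit_of_dvd_unit (map_dvd _ (Finset.prod_dvd_prod_of_subset _ _ _ h)) hR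

theorem unitAS1 {T : Finset (Fin r)} {i : Fin r} (h : i ∈ T) {R : Type} [CommRing R] [Algebra A R]
    (hR : IsUnit (algebraMap A R (∏ i ∈ T, f i))) :
    IsUnit (algebraMap A R (f i)) :=
  isUnit_of_dvd_unit (map_dvd _ (Finset.dvd_prod_of_mem _ h)) hR

variable {f} {S T U : {S : Finset (Fin r) // S.Nonempty}}

/-- Restriction. -/
noncomputable def res (h : S ≤ T) : AS f S →+* AS f T :=
  IsLocalization.Away.lift (∏ i ∈ S.1, f i) (g := algebraMap A (AS f T))
    (unitAS f h (IsLocalization.Away.algebraMap_isUnit (S := AS f T) _))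

/-- Restriction. -/
noncomputable def res1 {i : Fin r} (h : i ∈ T.1) : Localization.Away (f i) →+* AS f T :=
  IsLocalization.Away.lift (f i) (g := algebraMap A (AS f T))
    (unitAS1 f h (IsLocalization.Away.algebraMap_isUnit (S := AS f T) _))

theorem res_comp (h : S ≤ T) : (res h).comp (algebraMap A (AS f S)) = algebraMap A (AS f T) :=
  IsLocalization.Away.lift_comp (∏ i ∈ S.1, f i) (g := algebraMap A (AS f T))
    (unitAS f h (IsLocalization.Away.algebraMap_isUnit (S := AS f T) _))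

theorem res1_comp {i : Fin r} (h : i ∈ T.1) :
    (res1 h).comp (algebraMap A (Localization.Away (f i))) = algebraMap A (AS f T) :=
  IsLocalization.Away.lift_comp (f i) (g := algebraMap A (AS f T))
    (unitAS1 f h (IsLocalization.Away.algebraMap_isUnit (S := AS f T) _))

theorem AS_ext {R : Type} [CommRing R] {g g' : AS f S →+* R}
    (h : g.comp (algebraMap A (AS f S)) = g'.comp (algebraMap A (AS f S))) : g = g' :=
  IsLocalization.ringHom_ext (Submonoid.powers (∏ i ∈ S.1, f i)) h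

theorem res_self : res (le_refl S) = RingHom.id (AS f S) := by
  refine AS_ext ?_
  rw [res_comp, RingHom.id_comp]

theorem res_res (h : S ≤ T) (h' : T ≤ U) : (res h').comp (res h) =
    (res (h.trans h') : AS f S →+* AS f U) := by
  refine AS_ext ?_
  rw [RingHom.comp_assoc, res_comp, res_comp, res_comp]

/-- The first element. -/
def mS (S : {S : Finset (Fin r) // S.Nonempty}) : Fin r := S.1.min' S.2

theorem mS_mem : mS S ∈ S.1 := Finset.min'_mem _ _

theorem open_sp (a : A) : IsOpenImmersion (spMap (algebraMap A (Localization.Away a))) :=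
  inferInstance

theorem mono_sp (a : A) : Mono (spMap (algebraMap A (Localization.Away a))) := by
  have := open_sp a
  infer_instance

theorem range_sp (a : A) : Set.range (spMap (algebraMap A (Localization.Away a))) =
    (PrimeSpectrum.basicOpen a : Set (PrimeSpectrum A)) :=
  PrimeSpectrum.localization_away_comap_range (Localization.Away a) a

theorem pt_mem (S S' T : Finset (Fin r)) (hT : T ⊆ S ∪ S') (w : PrimeSpectrum A)
    (h1 : w ∈ (PrimeSpectrum.basicOpen (∏ i ∈ S, f i) : Set (PrimeSpectrum A)))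
    (h2 : w ∈ (PrimeSpectrum.basicOpen (∏ i ∈ S', f i) : Set (PrimeSpectrum A))) :
    w ∈ (PrimeSpectrum.basicOpen (∏ i ∈ T, f i) : Set (PrimeSpectrum A)) := by
  rw [SetLike.mem_coe, PrimeSpectrum.mem_basicOpen, w.2.prod_mem_iff] at h1 h2 ⊢
  rintro ⟨i, hi, hf⟩
  rcases Finset.mem_union.1 (hT hi) with h' | h'
  · exact h1 ⟨i, h', hf⟩
  · exact h2 ⟨i, h', hf⟩

/-- Factorisation through the intersection. -/
theorem factor (S S' T : {S : Finset (Fin r) // S.Nonempty})
    (hT : T.1 ⊆ S.1 ∪ S'.1) {Z : Scheme.{0}} (p : Z ⟶ Sp (AS f S)) (q : Z ⟶ Sp (AS f S'))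
    (h : p ≫ spMap (algebraMap A (AS f S)) = q ≫ spMap (algebraMap A (AS f S'))) :
    ∃ t : Z ⟶ Sp (AS f T), t ≫ spMap (algebraMap A (AS f T)) =
      p ≫ spMap (algebraMap A (AS f S)) := by
  have := open_sp (∏ i ∈ T.1, f i)
  refine ⟨IsOpenImmersion.lift (spMap (algebraMap A (AS f T)))
    (p ≫ spMap (algebraMap A (AS f S))) ?_, IsOpenImmersion.lift_fac _ _ _⟩
  rintro _ ⟨z, rfl⟩
  have h1 : (p ≫ spMap (algebraMap A (AS f S))) z ∈
      (PrimeSpectrum.basicOpen (∏ i ∈ S.1, f i) : Set (PrimeSpectrum A)) := by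
    rw [← range_sp]
    exact ⟨p z, rfl⟩
  have h2 : (p ≫ spMap (algebraMap A (AS f S))) z ∈
      (PrimeSpectrum.basicOpen (∏ i ∈ S'.1, f i) : Set (PrimeSpectrum A)) := by
    rw [← range_sp, h]
    exact ⟨q z, rfl⟩
  rw [range_sp]
  exact pt_mem S.1 S'.1 T.1 hT _ h1 h2

theorem lw_Wei {B : Type} [CommRing B] {a b : B} (h : Ideal.span {a, b} = ⊤) :
    LW (Wei (WZ a b)) := by
  intro p
  refine ⟨1, fun h1 => p.2.ne_top ((Ideal.eq_top_iff_one _).2 h1), ⟨?_⟩⟩
  have h' : Ideal.span {algebraMap B (Localization.Away (1 : B)) a,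
      algebraMap B (Localization.Away (1 : B)) b} = ⊤ := by
    rw [Ideal.eq_top_iff_one, Ideal.mem_span_pair] at h ⊢
    obtain ⟨r, s, hrs⟩ := h
    exact ⟨algebraMap B _ r, algebraMap B _ s, by
      rw [← map_mul, ← map_mul, ← map_add, hrs, map_one]⟩
  exact ⟨_, _, h', warr (algebraMap B (Localization.Away (1 : B))) rfl rfl⟩

end

section

variable {A : Type} [CommRing A] {r : ℕ} {f : Fin r → A} {C : Fam 1 A}
  (c : ∀ i, Ch (algebraMap A (Localization.Away (f i))) C) (α β : ∀ i, Localization.Away (f i))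
  (S T : {S : Finset (Fin r) // S.Nonempty})

/-- The curve over the intersection. -/
noncomputable def xS : Fam 1 (AS f S) :=
  Wei (WZ (res1 (mS_mem (S := S)) (c (mS S)).a) (res1 (mS_mem (S := S)) (c (mS S)).b))

/-- The deformation over the intersection. -/
noncomputable def yS : Fam 1 (Eps (AS f S)) :=
  Wei (WZ (ep (res1 (mS_mem (S := S)) (c (mS S)).a) (res1 (mS_mem (S := S)) (α (mS S))))
    (ep (res1 (mS_mem (S := S)) (c (mS S)).b) (res1 (mS_mem (S := S)) (β (mS S)))))

/-- The restriction. -/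
noncomputable def rS : Arrow (eps0 (AS f S)) (xS c S) (yS c α β S) :=
  rr (res1 (mS_mem (S := S)) (c (mS S)).a) (res1 (mS_mem (S := S)) (c (mS S)).b)
    (res1 (mS_mem (S := S)) (α (mS S))) (res1 (mS_mem (S := S)) (β (mS S)))

/-- The chart. -/
noncomputable def eS : Arrow (algebraMap A (AS f S)) (xS c S) C :=
  castA (res1_comp (mS_mem (S := S))) ((c (mS S)).push (res1 (mS_mem (S := S)))).e

theorem lw_xS : LW (xS c S) := lw_Wei ((c (mS S)).push (res1 (mS_mem (S := S)))).h

theorem st_yS (h6 : IsUnit (6 : A)) : IsStable 1 (yS c α β S) :=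
  wst.1 _ (WZ_ok (isUnit6_map (algebraMap (AS f S) (Eps (AS f S)))
    (isUnit6_map (algebraMap A (AS f S)) h6))
    (span_ep ((c (mS S)).push (res1 (mS_mem (S := S)))).h _ _))

variable {S T c α β}

theorem exG (hREL : Stmt_REL) (h6 : IsUnit (6 : A)) {δ : ∀ i, Localization.Away (f i)}
    (hC : Cpt c δ) (hδ : ∀ i, δ i = 2 * (c i).a * β i - 3 * (c i).b * α i) (h : S ≤ T) :
    ∃ g : Arrow (epsMap (res h)) (yS c α β T) (yS c α β S),
      Good (rS c α β S) (rS c α β T) (eS c S) (eS c T) (res h) g := by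
  have hh : ((res h).comp (res1 (f := f) (mS_mem (S := S)))).comp (algebraMap A _) =
      (res1 (f := f) (mS_mem (S := T))).comp (algebraMap A _) := by
    rw [RingHom.comp_assoc, res1_comp, res_comp, res1_comp]
  obtain ⟨g, s, h1, h2⟩ := key2 hREL (isUnit6_map (algebraMap A (AS f T)) h6) (c (mS S))
    (c (mS T)) (res1 (mS_mem (S := S))) (res h) (res1 (mS_mem (S := T))) hh (α (mS S))
    (β (mS S)) (α (mS T)) (β (mS T)) (fun u hu => by
      rw [← hδ, ← hδ]
      exact hC (mS S) (mS T) (AS f T) _ _ u hh hu)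
  exact ⟨g, s, h1, h2⟩

theorem exAB (h6 : IsUnit (6 : A)) (δ : ∀ i, Localization.Away (f i))
    (c : ∀ i, Ch (algebraMap A (Localization.Away (f i))) C) :
    ∃ α β : ∀ i, Localization.Away (f i), ∀ i, δ i = 2 * (c i).a * β i - 3 * (c i).b * α i := by
  have h : ∀ i, ∃ x y : Localization.Away (f i), δ i = 2 * (c i).a * y - 3 * (c i).b * x := by
    intro i
    obtain ⟨i6, hi⟩ := (isUnit6_map (algebraMap A (Localization.Away (f i))) h6).exists_right_inv
    have hs := (c i).h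
    rw [Ideal.eq_top_iff_one, Ideal.mem_span_pair] at hs
    obtain ⟨p, q, hpq⟩ := hs
    refine ⟨-2 * i6 * q * δ i, 3 * i6 * p * δ i, ?_⟩
    linear_combination (-δ i) * hi - 6 * i6 * δ i * hpq
  choose α β h using h
  exact ⟨α, β, h⟩

/-- The overlap condition for the arrow to the glued curve. -/
theorem overlap {y : Fam 1 (Eps A)}
    (k : ∀ S : {S : Finset (Fin r) // S.Nonempty},
      Arrow (epsMap (algebraMap A (AS f S))) (yS c α β S) y)
    (g : ∀ (S T : {S : Finset (Fin r) // S.Nonempty}) (h : S ≤ T),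
      Arrow (epsMap (res (f := f) h)) (yS c α β T) (yS c α β S))
    (hg : ∀ S T h, Good (rS c α β S) (rS c α β T) (eS c S) (eS c T) (res (f := f) h) (g S T h))
    (hk : ∀ S T h, (g S T h).f ≫ (k S).f = (k T).f) {Z : Scheme.{0}} (p : Z ⟶ (xS c S).X)
    (q : Z ⟶ (xS c T).X) (h : p ≫ (eS c S).f = q ≫ (eS c T).f) :
    p ≫ (rS c α β S).f ≫ (k S).f = q ≫ (rS c α β T).f ≫ (k T).f := by
  let V : {S : Finset (Fin r) // S.Nonempty} := ⟨S.1 ∪ T.1, S.2.mono Finset.subset_union_left⟩
  have hS : S ≤ V := Finset.subset_union_left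
  have hT : T ≤ V := Finset.subset_union_right
  obtain ⟨t, ht⟩ := factor (f := f) S T V le_rfl (p ≫ (xS c S).π) (q ≫ (xS c T).π) (by
    rw [Category.assoc, Category.assoc, ← (eS c S).cart.w, ← (eS c T).cart.w, reassoc_of% h])
  obtain ⟨ζ, hζ⟩ : ∃ ζ : Z ⟶ (xS c V).X, ζ ≫ (eS c V).f = p ≫ (eS c S).f :=
    ⟨(eS c V).cart.lift (p ≫ (eS c S).f) t (by
      rw [ht, Category.assoc, Category.assoc, ← (eS c S).cart.w]), (eS c V).cart.lift_fst _ _ _⟩
  obtain ⟨s, h1, h2⟩ := hg S V hS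
  obtain ⟨s', h1', h2'⟩ := hg T V hT
  have e1 : ζ ≫ s.f = p := factor2 (eS c S) (eS c V) s h2 (mono_sp _) p ζ hζ
  have e2 : ζ ≫ s'.f = q := factor2 (eS c T) (eS c V) s' h2' (mono_sp _) q ζ (hζ.trans h)
  rw [← e1, ← e2, Category.assoc, Category.assoc, ← reassoc_of% h1, ← reassoc_of% h1', hk, hk]

/-- The map back to the localisation at one element. -/
noncomputable def bk (i : Fin r) : AS f ⟨{i}, Finset.singleton_nonempty i⟩ →+*
    Localization.Away (f i) :=
  IsLocalization.Away.lift (∏ j ∈ {i}, f j) (g := algebraMap A (Localization.Away (f i))) (by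
    rw [Finset.prod_singleton]
    exact IsLocalization.Away.algebraMap_isUnit (f i))

theorem bk_comp (i : Fin r) : (bk (f := f) i).comp (algebraMap A _) =
    algebraMap A (Localization.Away (f i)) :=
  IsLocalization.Away.lift_comp (∏ j ∈ {i}, f j) (g := algebraMap A (Localization.Away (f i))) (by
    rw [Finset.prod_singleton]
    exact IsLocalization.Away.algebraMap_isUnit (f i))

theorem cat5 {X Y Z W V P : Scheme.{0}} {a : X ⟶ Y} {g : Y ⟶ Z} {s : X ⟶ W} {r : W ⟶ Z}
    {k : Z ⟶ V} {e : W ⟶ P} {dr : P ⟶ V} {ce : X ⟶ P} (h1 : a ≫ g = s ≫ r)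
    (hk : r ≫ k = e ≫ dr) (h2 : s ≫ e = ce) : a ≫ g ≫ k = ce ≫ dr := by
  rw [reassoc_of% h1, hk, reassoc_of% h2]

/-- The class of the glued deformation. -/
theorem isD (hREL : Stmt_REL) (h6 : IsUnit (6 : A)) {δ : ∀ i, Localization.Away (f i)}
    (hC : Cpt c δ) (hδ : ∀ i, δ i = 2 * (c i).a * β i - 3 * (c i).b * α i) (i : Fin r)
    (d : Defo 1 C)
    (k : Arrow (epsMap (algebraMap A (AS f ⟨{i}, Finset.singleton_nonempty i⟩)))
      (yS c α β ⟨{i}, Finset.singleton_nonempty i⟩) d.y)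
    (hk : (rS c α β ⟨{i}, Finset.singleton_nonempty i⟩).f ≫ k.f =
      (eS c ⟨{i}, Finset.singleton_nonempty i⟩).f ≫ d.r.f) : IsDelta (c i) d (δ i) := by
  have hh : ((bk (f := f) i).comp (res1 (f := f) (mS_mem
      (S := ⟨{i}, Finset.singleton_nonempty i⟩)))).comp (algebraMap A _) =
      (RingHom.id (Localization.Away (f i))).comp (algebraMap A _) := by
    rw [RingHom.comp_assoc, res1_comp, bk_comp, RingHom.id_comp]
  obtain ⟨g, s, h1, h2⟩ := key2 hREL (isUnit6_map (algebraMap A (Localization.Away (f i))) h6)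
    (c (mS ⟨{i}, Finset.singleton_nonempty i⟩)) (c i)
    (res1 (mS_mem (S := ⟨{i}, Finset.singleton_nonempty i⟩))) (bk (f := f) i) (RingHom.id _) hh
    (α (mS ⟨{i}, Finset.singleton_nonempty i⟩))
    (β (mS ⟨{i}, Finset.singleton_nonempty i⟩)) (α i) (β i) (fun u hu => by
      rw [← hδ, ← hδ]
      exact hC _ i _ _ _ u hh hu)
  have hid : (warr (RingHom.id (Localization.Away (f i))) (a := (c i).a) (b := (c i).b) rfl
      rfl).f = 𝟙 _ := map_id' rfl rfl ⟨rfl, rfl⟩
  refine ⟨α i, β i, castA ((epsMap_comp _ _).trans (congrArg epsMap (bk_comp i)))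
    (PBS.comp g k), ?_, hδ i⟩
  change (rr (c i).a (c i).b (α i) (β i)).f ≫ g.f ≫ k.f = (c i).e.f ≫ d.r.f
  have h1' : (rr (c i).a (c i).b (α i) (β i)).f ≫ g.f = s.f ≫
    (rS c α β ⟨{i}, Finset.singleton_nonempty i⟩).f := h1
  have h2' : s.f ≫ (eS c ⟨{i}, Finset.singleton_nonempty i⟩).f = (c i).e.f := by
    have h3 : s.f ≫ (eS c ⟨{i}, Finset.singleton_nonempty i⟩).f =
      (warr (RingHom.id (Localization.Away (f i))) (a := (c i).a) (b := (c i).b) rfl
      rfl).f ≫ (c i).e.f := h2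
    rw [h3, hid]
    exact Category.id_comp _
  exact cat5 h1' hk h2'

theorem loc_congr {R : Type} [CommRing R] [Algebra A R] {x y : A} (h : x = y)
    (hx : IsLocalization.Away x R) : IsLocalization.Away y R := by
  subst h
  exact hx

end

end DGL

open _root_.Pool.Agent.MG.WL.DGL in
theorem t_DGL (hREL : Stmt_REL) (_ : Stmt_DEI) (hGLD : Stmt_GLD) (hGAR : Stmt_GAR)
    (hSTL : Stmt_STL) (hRGD : Stmt_RGD) (hLOE : Stmt_LOE) : Stmt_DGL := by
  intro A _ h6 r f hf C c δ hC
  obtain ⟨α, β, hδ⟩ := exAB h6 δ c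
  have hex := fun (S T : {S : Finset (Fin r) // S.Nonempty}) (h : S ≤ T) =>
    exG hREL h6 hC hδ h
  choose g hg using hex
  -- functoriality
  have hgid : ∀ S, (g S S le_rfl).f = 𝟙 _ := by
    intro S
    have h1 := (Good.id (rS c α β S) (eS c S)).cast (res_self (f := f) (S := S)).symm
    exact (hg S S le_rfl).uniq hRGD (isUnit6_map (algebraMap A _) h6) (lw_xS c S)
      (st_yS c α β S h6) (st_yS c α β S h6) h1
  have hgcomp : ∀ S T U (h : S ≤ T) (h' : T ≤ U),
      (g T U h').f ≫ (g S T h).f = (g S U (h.trans h')).f := by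
    intro S T U h h'
    have h1 := (Good.comp (hg S T h) (hg T U h')).cast (res_res h h')
    exact h1.uniq hRGD (isUnit6_map (algebraMap A _) h6) (lw_xS c U)
      (st_yS c α β U h6) (st_yS c α β S h6) (hg S U (h.trans h'))
  -- gluing
  let alg : ∀ S : {S : Finset (Fin r) // S.Nonempty}, Algebra (Eps A) (Eps (AS f S)) :=
    fun S => (epsMap (algebraMap A (AS f S))).toAlgebra
  have hmap : ∀ S, algebraMap (Eps A) (Eps (AS f S)) = epsMap (algebraMap A (AS f S)) :=
    fun S => rfl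
  have hprod : ∀ S : Finset (Fin r), (TrivSqZeroExt.inl (∏ i ∈ S, f i) : Eps A) =
      ∏ i ∈ S, (TrivSqZeroExt.inl (f i) : Eps A) := fun S =>
    map_prod (TrivSqZeroExt.inlHom A A) f S
  have hloc : ∀ S : {S : Finset (Fin r) // S.Nonempty},
      IsLocalization.Away (∏ i ∈ S.1, (TrivSqZeroExt.inl (f i) : Eps A)) (Eps (AS f S)) := by
    intro S
    rw [← hprod]
    exact hLOE (B := AS f S) (∏ i ∈ S.1, f i)
  have hspan : Ideal.span (Set.range fun i => (TrivSqZeroExt.inl (f i) : Eps A)) = ⊤ := by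
    have h1 := congrArg (Ideal.map (TrivSqZeroExt.inlHom A A)) hf
    rw [Ideal.map_span, Ideal.map_top, ← Set.range_comp] at h1
    exact h1
  let ρ : ∀ S T : {S : Finset (Fin r) // S.Nonempty}, S ≤ T →
      (Eps (AS f S) →ₐ[Eps A] Eps (AS f T)) := fun S T h =>
    { epsMap (res (f := f) h) with
      commutes' := fun z => by
        change ((epsMap (res (f := f) h)).comp (epsMap (algebraMap A (AS f S)))) z =
          epsMap (algebraMap A (AS f T)) z
        rw [epsMap_comp, res_comp] }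
  obtain ⟨y, k, hk⟩ := hGLD (n := 1) (E := Eps A) (fun i => TrivSqZeroExt.inl (f i)) hspan
    (fun S => Eps (AS f S)) ρ (fun S => yS c α β S) (fun S T h => g S T h) hgid hgcomp
  let T : Fin r → {S : Finset (Fin r) // S.Nonempty} := fun i => ⟨{i}, Finset.singleton_nonempty i⟩
  let k' : ∀ S : {S : Finset (Fin r) // S.Nonempty},
      Arrow (epsMap (algebraMap A (AS f S))) (yS c α β S) y := fun S => k S
  have hk' : ∀ S T h, (g S T h).f ≫ (k' S).f = (k' T).f := hk
  have hst : IsStable 1 y := by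
    have hl : ∀ i, IsLocalization.Away (TrivSqZeroExt.inl (f i) : Eps A) (Eps (AS f (T i))) := by
      intro i
      have h1 := hloc (T i)
      rw [Finset.prod_singleton] at h1
      exact h1
    exact hSTL (n := 1) (g := 1) (E := Eps A) (fun i => TrivSqZeroExt.inl (f i)) hspan
      (fun i => Eps (AS f (T i))) y (fun i => yS c α β (T i)) (fun i => ⟨k (T i)⟩)
      (fun i => st_yS c α β (T i) h6)
  have hl : ∀ i, IsLocalization.Away (f i) (AS f (T i)) := by
    intro i
    exact loc_congr (Finset.prod_singleton f i) (inferInstanceAs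
      (IsLocalization.Away (∏ j ∈ ({i} : Finset (Fin r)), f j) (AS f (T i))))
  obtain ⟨e, he⟩ := hGAR (eps0 A) (Y := y) (C := C) f hf (fun i => AS f (T i))
    (fun i => xS c (T i)) (fun i => eS c (T i))
    (fun i => castA (eps0_epsMap (algebraMap A (AS f (T i))))
      (PBS.comp (rS c α β (T i)) (k' (T i))))
    (fun i j Z p q h => overlap k' g hg hk' p q h)
  refine ⟨⟨y, hst, e⟩, fun i => ?_⟩
  exact isD hREL h6 hC hδ i ⟨y, hst, e⟩ (k' (T i)) (he i).symm

end Pool.Agent.MG.WL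


end

section

/-!
# SCC: composition of scalings
-/

open CategoryTheory CategoryTheory.Limits AlgebraicGeometry TensorProduct

namespace Pool.Agent.MG.WL

open Pool.Agent.MG.W Pool.Agent.MG.One

theorem t_SCC : Stmt_SCC := by
  intro D _ a b a' b' a'' b'' u v u' v' w s huv ha hb huv' ha' hb' hws hc hd hw
  have hs : s = v * v' := by
    calc s = (u * v) * (u' * v') * s := by rw [huv, huv']; ring
      _ = (w * s) * (v * v') := by rw [hw]; ring
      _ = v * v' := by rw [hws, one_mul]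
  have h1 : (sc1 huv' ha' hb').comp (sc1 huv ha hb) = sc1 hws hc hd := by
    refine hom1_ext ?_ ?_ ?_
    · intro c
      rw [RingHom.comp_apply, sc1_b, sc1_b, sc1_b]
    · rw [RingHom.comp_apply, sc1_x, map_mul, map_pow, sc1_b, sc1_x, sc1_x, hs, map_mul]
      ring
    · rw [RingHom.comp_apply, sc1_y, map_mul, map_pow, sc1_b, sc1_y, sc1_y, hs, map_mul]
      ring
  have h2 : (sc2 ha' hb').comp (sc2 ha hb) = sc2 hc hd := by
    refine hom2_ext ?_ ?_ ?_
    · intro c
      rw [RingHom.comp_apply, sc2_b, sc2_b, sc2_b]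
    · rw [RingHom.comp_apply, sc2_z, map_mul, sc2_b, sc2_z, sc2_z, hw, map_mul]
      ring
    · rw [RingHom.comp_apply, sc2_t, sc2_t, sc2_t]
  refine WX.ext' ?_ ?_
  · rw [← Category.assoc, WX.in1_sc, Category.assoc, WX.in1_sc, ← Category.assoc,
      W.spMap_comp', h1, WX.in1_sc]
  · rw [← Category.assoc, WX.in2_sc, Category.assoc, WX.in2_sc, ← Category.assoc,
      W.spMap_comp', h2, WX.in2_sc]

end Pool.Agent.MG.WL


end

section

/-!
# AWK (PAPER ADD3, ADD4): functions with poles at additional formal points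
-/

open TensorProduct

namespace Pool.Agent.MG.G0

namespace AWK

section one

variable {A : Type} [CommRing A]

theorem psl_low (f : PowerSeries A) : ∀ m < 0, (psl A f).coeff m = 0 := fun m hm => by
  rw [psl, PowerSeries.coeff_coe, if_pos hm]

theorem psl_coeff (f : PowerSeries A) (n : ℕ) :
    (psl A f).coeff (n : ℤ) = PowerSeries.coeff n f := by
  rw [psl, PowerSeries.coeff_coe, if_neg (by omega), Int.natAbs_natCast]

theorem exists_psl {f : LaurentSeries A} (h : ∀ m < 0, f.coeff m = 0) :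
    ∃ g : PowerSeries A, psl A g = f := by
  refine ⟨PowerSeries.mk fun n => f.coeff n, ?_⟩
  ext m
  by_cases hm : m < 0
  · rw [psl_low _ m hm, h m hm]
  · obtain ⟨n, rfl⟩ := Int.eq_ofNat_of_zero_le (not_lt.1 hm)
    rw [psl_coeff, PowerSeries.coeff_mk]

theorem psl_low_of {f : PowerSeries A} {n : ℕ} (h : ∀ m < n, PowerSeries.coeff m f = 0) :
    ∀ m < (n : ℤ), (psl A f).coeff m = 0 := fun m hm => by
  by_cases h0 : m < 0
  · exact psl_low f m h0
  · obtain ⟨k, rfl⟩ := Int.eq_ofNat_of_zero_le (not_lt.1 h0)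
    rw [psl_coeff]
    exact h k (by omega)

theorem pow_low {f : LaurentSeries A} {a : ℤ} (hf : ∀ m < a, f.coeff m = 0) (n : ℕ) :
    ∀ m < (n : ℤ) * a, (f ^ n).coeff m = 0 := by
  induction n with
  | zero =>
    intro m hm
    rw [Nat.cast_zero, zero_mul] at hm
    rw [pow_zero, HahnSeries.coeff_one, if_neg (by omega)]
  | succ n ih =>
    intro m hm
    rw [pow_succ]
    refine mul_low ih hf m ?_
    push_cast at hm
    linarith

theorem isUnit_of_lead {f : LaurentSeries A} (n : ℤ) (h0 : ∀ m < n, f.coeff m = 0)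
    (h1 : f.coeff n = 1) : IsUnit f := by
  have hs : ∀ m < -n, (HahnSeries.single (-n) (1 : A)).coeff m = 0 := fun m hm =>
    HahnSeries.coeff_single_of_ne (by omega)
  have h2 : IsUnit (f * HahnSeries.single (-n) 1) := by
    apply HahnSeries.isUnit_of_orderTop_pos
    set y : LaurentSeries A := f * HahnSeries.single (-n) 1 - 1 with hy
    have h3 : ∀ m ≤ 0, y.coeff m = 0 := by
      intro m hm
      rw [hy, HahnSeries.coeff_sub, HahnSeries.coeff_one]
      rcases hm.lt_or_eq with h4 | h4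
      · rw [mul_low h0 hs m (by omega), if_neg (by omega), sub_zero]
      · have h5 := mul_lead h0 hs
        rw [h1, HahnSeries.coeff_single_same, add_neg_cancel] at h5
        rw [h4, h5, if_pos rfl, mul_one, sub_self]
    by_cases h6 : y = 0
    · rw [h6, HahnSeries.orderTop_zero]
      exact WithTop.coe_lt_top 0
    · rw [HahnSeries.zero_lt_orderTop_iff h6]
      by_contra h7
      exact h6 (HahnSeries.coeff_order_eq_zero.1 (h3 _ (not_lt.1 h7)))
  exact isUnit_of_mul_isUnit_left h2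

theorem single_mul_single_neg :
    (HahnSeries.single (1 : ℤ) (1 : A)) * HahnSeries.single (-1 : ℤ) (1 : A) = 1 := by
  rw [HahnSeries.single_mul_single, add_neg_cancel, one_mul]
  rfl

/-- A power series `u · unit`. -/
theorem exists_unit {f : PowerSeries A} (h0 : PowerSeries.constantCoeff f = 0)
    (h1 : IsUnit (PowerSeries.coeff 1 f)) : ∃ t t' : PowerSeries A, f = PowerSeries.X * t ∧
      t * t' = 1 := by
  obtain ⟨t, ht⟩ := PowerSeries.X_dvd_iff.2 h0
  have h2 : IsUnit t := by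
    rw [PowerSeries.isUnit_iff_constantCoeff, ← PowerSeries.coeff_zero_eq_constantCoeff_apply]
    have h3 := PowerSeries.coeff_succ_X_mul 0 t
    rw [← ht] at h3
    rw [← h3]
    exact h1
  obtain ⟨t', ht'⟩ := h2.exists_right_inv
  exact ⟨t, t', ht, ht'⟩

theorem psl_X : psl A PowerSeries.X = HahnSeries.single 1 1 := HahnSeries.ofPowerSeries_X

/-- The inverse of a power series `u · unit` is `u⁻¹ · unit`. -/
theorem isUnit_psl {f : PowerSeries A} (h0 : PowerSeries.constantCoeff f = 0)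
    (h1 : IsUnit (PowerSeries.coeff 1 f)) : IsUnit (psl A f) ∧
      ∀ v : LaurentSeries A, psl A f * v = 1 → ∀ m < -1, v.coeff m = 0 := by
  obtain ⟨t, t', ht, htt⟩ := exists_unit h0 h1
  have h2 : psl A f * (HahnSeries.single (-1 : ℤ) (1 : A) * psl A t') = 1 := by
    rw [ht, map_mul, psl_X]
    have e1 : HahnSeries.single 1 1 * psl A t * (HahnSeries.single (-1 : ℤ) (1 : A) * psl A t') =
        (HahnSeries.single 1 1 * HahnSeries.single (-1 : ℤ) (1 : A)) * (psl A t * psl A t') := by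
      ring
    rw [e1, single_mul_single_neg, ← map_mul, htt, map_one, one_mul]
  refine ⟨IsUnit.of_mul_eq_one _ h2, fun v hv m hm => ?_⟩
  have h3 : v = HahnSeries.single (-1 : ℤ) (1 : A) * psl A t' := by
    calc v = (psl A f * (HahnSeries.single (-1 : ℤ) (1 : A) * psl A t')) * v := by
          rw [h2, one_mul]
      _ = (psl A f * v) * (HahnSeries.single (-1 : ℤ) (1 : A) * psl A t') := by ring
      _ = _ := by rw [hv, one_mul]
  rw [h3]
  exact mul_low (a := -1) (b := 0) (fun k hk => HahnSeries.coeff_single_of_ne (by omega))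
    (psl_low t') m (by omega)

end one

section many

variable {I J A : Type} [CommRing A] {P : Subalgebra A (KK I A)} {pt : J → FPt P}

theorem mem_Ipt {r : P} : r ∈ Ipt pt ↔ ∀ j, PowerSeries.constantCoeff ((pt j).h r) = 0 := by
  rw [Ipt, Ideal.mem_iInf]
  rfl

theorem hat_eq_zero {r : P} (h : ∀ i, hat pt r (Sum.inl i) = 0) : r = 0 :=
  Subtype.ext (funext fun i => h i)

/-- The data of AYE. -/
structure Dat (pt : J → FPt P) (y e : P) (d : ℤ) : Prop where
  hy : y ∈ Ipt pt
  he : e ∈ Ipt pt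
  mon : Mon d (y : KK I A)
  hu : ∀ j, IsUnit (PowerSeries.coeff 1 ((pt j).h y))
  hye : ∀ s ∈ Ipt pt, ∃ r : P, (1 - e) * s = y * r

variable {y e : P} {d : ℤ}

theorem Dat.unit (D : Dat pt y e d) : IsUnit (hat pt y) := by
  rw [Pi.isUnit_iff]
  rintro (i | j)
  · exact isUnit_of_lead (-d) (D.mon.1 i) (D.mon.2 i)
  · exact (isUnit_psl (mem_Ipt.1 D.hy j) (D.hu j)).1

/-- (A0) -/
theorem Dat.a0 (D : Dat pt y e d) {w : KK (I ⊕ J) A} (hw : w ∈ WJ pt)
    (h : ∀ i, w (Sum.inl i) = 0) : w = 0 := by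
  obtain ⟨n, hn⟩ := hw
  obtain ⟨r, hr⟩ := hn (y ^ n) (Ideal.pow_mem_pow D.hy n)
  have h1 : r = 0 := hat_eq_zero (pt := pt) fun i => by
    rw [← hr, Pi.mul_apply, h i, mul_zero]
  rw [h1, map_zero, map_pow] at hr
  exact (D.unit.pow n).mul_right_eq_zero.1 hr

theorem Dat.a1one (D : Dat pt y e d) {w : KK (I ⊕ J) A}
    (hreg : ∀ j : J, ∀ m < 0, (w (Sum.inr j)).coeff m = 0)
    (h : ∀ s ∈ Ipt pt, ∃ r : P, hat pt s * w = hat pt r) : ∃ r : P, w = hat pt r := by
  obtain ⟨r, hr⟩ := h y D.hy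
  obtain ⟨r2, hr2⟩ := h e D.he
  have hrI : r ∈ Ipt pt := by
    rw [mem_Ipt]
    intro j
    have h1 := congrFun hr (Sum.inr j)
    rw [Pi.mul_apply, hat_inr, hat_inr] at h1
    have h2 := mul_lead (psl_low ((pt j).h y)) (hreg j)
    rw [h1] at h2
    have h3 := psl_coeff ((pt j).h r) 0
    have h4 := psl_coeff ((pt j).h y) 0
    have h5 := mem_Ipt.1 D.hy j
    rw [PowerSeries.coeff_zero_eq_constantCoeff_apply] at h3 h4
    rw [h5, Nat.cast_zero] at h4
    rw [Nat.cast_zero] at h3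
    rw [add_zero, h4, zero_mul, h3] at h2
    exact h2
  obtain ⟨r', hr'⟩ := D.hye r hrI
  refine ⟨r' + r2, ?_⟩
  have h1 : hat pt y * (hat pt (1 - e) * w) = hat pt y * hat pt r' := by
    rw [← map_mul (hat pt) y r', ← hr', map_mul, ← hr]
    ring
  have h2 := D.unit.mul_left_cancel h1
  rw [map_add, ← hr2, ← h2, map_sub, map_one]
  ring

/-- (A1) -/
theorem Dat.a1 (D : Dat pt y e d) {w : KK (I ⊕ J) A} (hw : w ∈ WJ pt)
    (hreg : ∀ j : J, ∀ m < 0, (w (Sum.inr j)).coeff m = 0) : ∃ r : P, w = hat pt r := by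
  obtain ⟨n, hn⟩ := hw
  induction n generalizing w with
  | zero =>
    obtain ⟨r, hr⟩ := hn 1 (by simp)
    rw [map_one, one_mul] at hr
    exact ⟨r, hr⟩
  | succ n ih =>
    refine ih hreg fun s hs => ?_
    have hreg' : ∀ j : J, ∀ m < 0, ((hat pt s * w) (Sum.inr j)).coeff m = 0 := fun j m hm => by
      rw [Pi.mul_apply, hat_inr]
      exact mul_low (psl_low _) (hreg j) m (by omega)
    refine D.a1one hreg' fun t ht => ?_
    obtain ⟨r, hr⟩ := hn (s * t) (by
      rw [pow_succ]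
      exact Ideal.mul_mem_mul hs ht)
    refine ⟨r, ?_⟩
    rw [← hr, map_mul]
    ring

/-- The element `w₁ = (1 - e)/y`. -/
theorem Dat.exists_w1 (D : Dat pt y e d) : ∃ w₁ ∈ WJ pt, w₁ * hat pt y + hat pt e = 1 ∧
    (∀ j : J, ∀ m < -1, (w₁ (Sum.inr j)).coeff m = 0) ∧
    ∀ j : J, ∃ q : PowerSeries A, PowerSeries.constantCoeff q = 0 ∧
      w₁ (Sum.inr j) * psl A q = 1 := by
  obtain ⟨v, hv⟩ := D.unit.exists_right_inv
  have hvj : ∀ j, psl A ((pt j).h y) * v (Sum.inr j) = 1 := fun j => congrFun hv (Sum.inr j)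
  have hvlow : ∀ j : J, ∀ m < -1, (v (Sum.inr j)).coeff m = 0 := fun j =>
    (isUnit_psl (mem_Ipt.1 D.hy j) (D.hu j)).2 _ (hvj j)
  refine ⟨hat pt (1 - e) * v, ⟨1, fun s hs => ?_⟩, ?_, fun j m hm => ?_, fun j => ?_⟩
  · rw [pow_one] at hs
    obtain ⟨r, hr⟩ := D.hye s hs
    refine ⟨r, ?_⟩
    have h1 : hat pt s * (hat pt (1 - e) * v) = hat pt ((1 - e) * s) * v := by
      rw [map_mul]
      ring
    rw [h1, hr, map_mul]
    have h2 : hat pt y * hat pt r * v = (hat pt y * v) * hat pt r := by ring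
    rw [h2, hv, one_mul]
  · have h1 : hat pt (1 - e) * v * hat pt y = hat pt (1 - e) * (hat pt y * v) := by ring
    rw [h1, hv, mul_one, map_sub, map_one]
    ring
  · rw [Pi.mul_apply, hat_inr]
    exact mul_low (psl_low _) (hvlow j) m (by omega)
  · have h1 : IsUnit ((pt j).h (1 - e)) := by
      rw [PowerSeries.isUnit_iff_constantCoeff, map_sub, map_sub, map_one, map_one,
        mem_Ipt.1 D.he j, sub_zero]
      exact isUnit_one
    obtain ⟨c, hc⟩ := h1.exists_right_inv
    refine ⟨(pt j).h y * c, ?_, ?_⟩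
    · rw [map_mul, mem_Ipt.1 D.hy j, zero_mul]
    · rw [Pi.mul_apply, hat_inr, map_mul]
      have h2 : psl A ((pt j).h (1 - e)) * v (Sum.inr j) * (psl A ((pt j).h y) * psl A c) =
          (psl A ((pt j).h (1 - e)) * psl A c) * (psl A ((pt j).h y) * v (Sum.inr j)) := by ring
      rw [h2, hvj, ← map_mul, hc, map_one, one_mul]

/-- (A4) -/
theorem Dat.a4 (D : Dat pt y e d) (n : ℕ) :
    ∃ (m : ℕ) (s : Fin m → P) (a : Fin m → KK (I ⊕ J) A),
      (∀ k, s k ∈ Ipt pt ^ n) ∧ (∀ k, a k ∈ WJ pt) ∧ ∑ k, a k * hat pt (s k) = 1 := by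
  obtain ⟨w₁, hw, h1, -, -⟩ := D.exists_w1
  refine ⟨n + 1, fun k => y ^ (k : ℕ) * e ^ (n - k), fun k => (n.choose k : KK (I ⊕ J) A) *
    w₁ ^ (k : ℕ), fun k => ?_, fun k => ?_, ?_⟩
  · have h2 : Ipt pt ^ n = Ipt pt ^ (k : ℕ) * Ipt pt ^ (n - k) := by
      rw [← pow_add]
      congr 1
      omega
    rw [h2]
    exact Ideal.mul_mem_mul (Ideal.pow_mem_pow D.hy _) (Ideal.pow_mem_pow D.he _)
  · exact mul_mem (natCast_mem _ _) (pow_mem hw _)
  · have h3 : (w₁ * hat pt y + hat pt e) ^ n = 1 := by rw [h1, one_pow]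
    rw [add_pow, Finset.sum_range] at h3
    rw [← h3]
    refine Finset.sum_congr rfl fun k _ => ?_
    rw [map_mul, map_pow, map_pow, mul_pow]
    ring

/-- (A2) -/
theorem Dat.a2 [Finite J] (D : Dat pt y e d)
    (happ : ∀ (n : ℕ) (f : J → PowerSeries A), ∃ r : P,
      ∀ j, ∀ m < n, PowerSeries.coeff m ((pt j).h r) = PowerSeries.coeff m (f j))
    (f : J → LaurentSeries A) (M : ℤ) :
    ∃ w ∈ WJ pt, ∀ j, ∀ m < M, (w (Sum.inr j)).coeff m = (f j).coeff m := by
  obtain ⟨n, hn⟩ := exists_Pol (I := J) f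
  obtain ⟨w₁, hw, -, hlow, hq⟩ := D.exists_w1
  choose q hq0 hq1 using hq
  have hqlow : ∀ j, ∀ m < (1 : ℤ), (psl A (q j)).coeff m = 0 := fun j => by
    refine psl_low_of (n := 1) fun m hm => ?_
    obtain rfl : m = 0 := by omega
    rw [PowerSeries.coeff_zero_eq_constantCoeff_apply]
    exact hq0 j
  have hg : ∀ j, ∃ g : PowerSeries A, psl A g = f j * psl A (q j) ^ n := fun j => by
    refine exists_psl fun m hm => ?_
    exact mul_low (hn j) (pow_low (hqlow j) n) m (by rw [mul_one]; omega)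
  choose G hG using hg
  obtain ⟨r, hr⟩ := happ (M + n).toNat G
  refine ⟨w₁ ^ n * hat pt r, mul_mem (pow_mem hw n) (hat_mem pt r), fun j m hm => ?_⟩
  have h1 : f j = w₁ (Sum.inr j) ^ n * psl A (G j) := by
    rw [hG]
    have h2 : w₁ (Sum.inr j) ^ n * (f j * psl A (q j) ^ n) =
        f j * (w₁ (Sum.inr j) * psl A (q j)) ^ n := by
      rw [mul_pow]
      ring
    rw [h2, hq1, one_pow, mul_one]
  have h2 : (w₁ ^ n * hat pt r) (Sum.inr j) - f j =
      w₁ (Sum.inr j) ^ n * psl A ((pt j).h r - G j) := by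
    rw [Pi.mul_apply, Pi.pow_apply, hat_inr, map_sub, mul_sub, ← h1]
  have h3 : ∀ m < ((M + n).toNat : ℤ), (psl A ((pt j).h r - G j)).coeff m = 0 :=
    psl_low_of fun m hm => by
      rw [map_sub, hr j m hm, sub_self]
  have h4 : (w₁ (Sum.inr j) ^ n * psl A ((pt j).h r - G j)).coeff m = 0 :=
    mul_low (pow_low (hlow j) n) h3 m (by omega)
  rw [← h2, HahnSeries.coeff_sub] at h4
  exact sub_eq_zero.1 h4

end many

end AWK

open _root_.Pool.Agent.MG.G0.AWK in
/-- AWK -/
theorem t_AWK (_hKNZ : Stmt_KNZ) (hSBC : Stmt_SBC) (hAYE : Stmt_AYE) : Stmt_AWK := by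
  intro I J A _ _ _ _ g P hP hSm pt hdis
  obtain ⟨-, -, happ, y, e, d, hy, he, -, hmon, hu, hye⟩ := hAYE hP hSm pt hdis
  have D : Dat pt y e d := ⟨hy, he, hmon, hu, hye⟩
  have A0 := fun (w : KK (I ⊕ J) A) (hw : w ∈ WJ pt) (h : ∀ i, w (Sum.inl i) = 0) => D.a0 hw h
  have A1 := fun (w : KK (I ⊕ J) A) (hw : w ∈ WJ pt)
    (h : ∀ j : J, ∀ m < 0, (w (Sum.inr j)).coeff m = 0) => D.a1 hw h
  have A2 := fun (f : J → LaurentSeries A) (M : ℤ) => D.a2 happ f M
  have A4 := fun n : ℕ => D.a4 n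
  refine ⟨?_, ?_, ?_, A0, A1, A2, A4⟩
  · -- Krichever ring
    refine ⟨fun f hf hf0 => ?_, ?_⟩
    · obtain ⟨r, rfl⟩ := A1 f hf fun j m hm => hf0 (Sum.inr j) m (by omega)
      obtain ⟨a, ha⟩ := hP.k1 r r.2 fun i m hm => hf0 (Sum.inl i) m hm
      refine ⟨a, ?_⟩
      have h1 : r = algebraMap A P a := Subtype.ext ha
      rw [h1, AlgHom.commutes]
    · obtain ⟨L, hL1, hL2⟩ := hP.k2
      -- the restriction to `I`
      let R : KK (I ⊕ J) A →ₗ[A] KK I A := LinearMap.funLeft A (LaurentSeries A) Sum.inl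
      have hR : ∀ f i, R f i = f (Sum.inl i) := fun _ _ => rfl
      have hL0 : ∀ f ∈ Pol I A 0, L f = 0 := fun f hf =>
        (hL2 f).2 ⟨0, zero_mem P, by rw [sub_zero]; exact hf⟩
      have hLP : ∀ p ∈ P, L p = 0 := fun p hp =>
        (hL2 p).2 ⟨p, hp, by rw [sub_self]; exact zero_mem _⟩
      have hex : ∀ f : KK (I ⊕ J) A, ∃ w ∈ WJ pt,
          ∀ j : J, ∀ m < 0, ((f - w) (Sum.inr j)).coeff m = 0 := fun f => by
        obtain ⟨w, hw, h⟩ := A2 (fun j => f (Sum.inr j)) 0
        refine ⟨w, hw, fun j m hm => ?_⟩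
        rw [Pi.sub_apply, HahnSeries.coeff_sub, h j m hm, sub_self]
      choose W hW1 hW2 using hex
      have key : ∀ (f w w' : KK (I ⊕ J) A), w ∈ WJ pt → w' ∈ WJ pt →
          (∀ j : J, ∀ m < 0, ((f - w) (Sum.inr j)).coeff m = 0) →
          (∀ j : J, ∀ m < 0, ((f - w') (Sum.inr j)).coeff m = 0) →
          L (R (f - w)) = L (R (f - w')) := by
        intro f w w' hw hw' h h'
        obtain ⟨r, hr⟩ := A1 (w' - w) (sub_mem hw' hw) fun j m hm => by
          have e1 : w' - w = (f - w) - (f - w') := by ring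
          rw [e1, Pi.sub_apply, HahnSeries.coeff_sub, h j m hm, h' j m hm, sub_self]
        have h1 : R (f - w) = R (f - w') + (r : KK I A) := by
          have e1 : f - w = (f - w') + (w' - w) := by ring
          rw [e1, map_add, hr]
          rfl
        rw [h1, map_add, hLP _ r.2, add_zero]
      let L' : KK (I ⊕ J) A →ₗ[A] (Fin g → A) :=
        { toFun := fun f => L (R (f - W f))
          map_add' := fun f f' => by
            rw [key (f + f') (W (f + f')) (W f + W f') (hW1 _) (add_mem (hW1 _) (hW1 _))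
              (hW2 _) fun j m hm => ?_, ← map_add, ← map_add]
            · congr 2
              ring
            · have e1 : f + f' - (W f + W f') = (f - W f) + (f' - W f') := by ring
              rw [e1, Pi.add_apply, HahnSeries.coeff_add, hW2 f j m hm, hW2 f' j m hm, add_zero]
          map_smul' := fun a f => by
            rw [key (a • f) (W (a • f)) (a • W f) (hW1 _) ((WJ pt).smul_mem (hW1 _) a)
              (hW2 _) fun j m hm => ?_, RingHom.id_apply, ← map_smul, ← map_smul, smul_sub]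
            rw [← smul_sub, Pi.smul_apply, HahnSeries.coeff_smul, hW2 f j m hm, smul_zero] }
      have hL' : ∀ f, L' f = L (R (f - W f)) := fun _ => rfl
      refine ⟨L', fun c => ?_, fun f => ⟨fun h => ?_, ?_⟩⟩
      · obtain ⟨f₀, hf₀⟩ := hL1 c
        refine ⟨Sum.elim f₀ 0, ?_⟩
        rw [hL', key _ _ 0 (hW1 _) (zero_mem _) (hW2 _) fun j m _ => ?_, sub_zero]
        · exact hf₀
        · rw [sub_zero]
          exact HahnSeries.coeff_zero
      · obtain ⟨p, hp, hfp⟩ := (hL2 _).1 h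
        refine ⟨W f + hat pt ⟨p, hp⟩, add_mem (hW1 f) (hat_mem pt _), ?_⟩
        rintro (i | j) m hm
        · exact (congrArg (fun x : LaurentSeries A => x.coeff m)
            (sub_sub (f (Sum.inl i)) (W f (Sum.inl i)) (p i))).symm.trans (hfp i m hm)
        · have e1 : f - (W f + hat pt ⟨p, hp⟩) = (f - W f) - hat pt ⟨p, hp⟩ := by ring
          rw [neg_zero] at hm
          rw [e1, Pi.sub_apply, HahnSeries.coeff_sub, hW2 f j m hm, hat_inr, psl_low _ m hm,
            sub_zero]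
      · rintro ⟨w, hw, hfw⟩
        rw [hL', key f (W f) w (hW1 f) hw (hW2 f) fun j m hm =>
          hfw (Sum.inr j) m (by rw [neg_zero]; exact hm)]
        exact hL0 _ fun i m hm => hfw (Sum.inl i) m hm
  · -- smoothness
    let _ : Algebra P (WJ pt) :=
      ((hat pt).codRestrict (WJ pt) (hat_mem pt)).toRingHom.toAlgebra
    have hval : ∀ r : P, ((algebraMap P (WJ pt) r : WJ pt) : KK (I ⊕ J) A) = hat pt r :=
      fun _ => rfl
    have : IsScalarTower A P (WJ pt) := IsScalarTower.of_algebraMap_eq fun a =>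
      (((hat pt).codRestrict (WJ pt) (hat_mem pt)).commutes a).symm
    refine hSBC.2.2 (R := P) ⟨fun r r' h => ?_, fun w => ?_⟩ hSm
    · have h1 : hat pt r = hat pt r' := congrArg Subtype.val h
      have h2 : r - r' = 0 := hat_eq_zero (pt := pt) fun i => by
        rw [map_sub, h1, sub_self]
        rfl
      exact sub_eq_zero.1 h2
    · obtain ⟨n, hn⟩ := w.2
      obtain ⟨m, s, a, hs, ha, hsum⟩ := A4 n
      refine ⟨m, s, fun k => ⟨a k, ha k⟩, ?_, fun k => ?_⟩
      · apply Subtype.ext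
        refine Eq.trans ?_ hsum
        simp only [AddSubmonoidClass.coe_finsetSum, MulMemClass.coe_mul, hval]
      · obtain ⟨r, hr⟩ := hn (s k) (hs k)
        exact ⟨r, Subtype.ext hr⟩
  · -- the ring `P` is recovered
    ext f
    constructor
    · rintro ⟨w, hw, hreg, hf⟩
      obtain ⟨r, rfl⟩ := A1 w hw hreg
      have h1 : f = (r : KK I A) := funext fun i => (hf i).symm
      rw [h1]
      exact r.2
    · intro hf
      exact ⟨hat pt ⟨f, hf⟩, hat_mem pt _, fun j m hm => psl_low _ m hm, fun i => rfl⟩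

end Pool.Agent.MG.G0


end

section

/-!
# KCO: functions and first cohomology of the duo of a Krichever ring
-/

open CategoryTheory CategoryTheory.Limits AlgebraicGeometry TensorProduct

namespace Pool.Agent.MG.KX

open Pool.Agent.MG.G0 Pool.Agent.MG.GLU

namespace KCO

variable {I A : Type} [Fintype I] [CommRing A] {g : ℕ} {P : Subalgebra A (KK I A)}

theorem const (hP : IsKr g P) (z : Pole P) (p : P) (q : Rw P z.z)
    (h : (p : KK I A) = (q : KK I A)) : ∃ c : A, (p : KK I A) = algebraMap A (KK I A) c :=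
  hP.k1 p p.2 (by
    rw [h]
    exact q.2.2)

theorem coho (hDEN : Stmt_DEN) (hP : IsKr g P) (z : Pole P) :
    ∃ L : Rz P z.z →ₗ[A] (Fin g → A), Function.Surjective L ∧
      ∀ t : Rz P z.z, L t = 0 ↔ ∃ (p : P) (q : Rw P z.z), (t : KK I A) = p + q := by
  obtain ⟨L, h1, h2⟩ := hP.k2
  have h0 : ∀ f ∈ Pol I A 0, L f = 0 := fun f hf => (h2 f).2 ⟨0, zero_mem P, by rwa [sub_zero]⟩
  refine ⟨L ∘ₗ (Rz P z.z).val.toLinearMap, fun c => ?_, fun t => ?_⟩
  · obtain ⟨f, rfl⟩ := h1 c
    obtain ⟨r, hr, hfr⟩ := (hDEN hP z).1 f 0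
    rw [neg_zero] at hfr
    refine ⟨⟨r, hr⟩, ?_⟩
    have h3 := h0 _ hfr
    rw [map_sub, sub_eq_zero] at h3
    exact h3.symm
  · refine (Iff.trans (Iff.of_eq rfl) (h2 (t : KK I A))).trans ?_
    constructor
    · rintro ⟨p, hp, hq⟩
      exact ⟨⟨p, hp⟩, ⟨(t : KK I A) - p, sub_mem t.2 (le_Rz P z.z hp), hq⟩,
        (add_sub_cancel p (t : KK I A)).symm⟩
    · rintro ⟨p, q, h⟩
      refine ⟨p, p.2, ?_⟩
      rw [h, add_sub_cancel_left]
      exact q.2.2

end KCO

theorem t_KCO (hDEN : Stmt_DEN) : Stmt_KCO := by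
  intro I A _ _ g P hP z
  constructor
  · intro p q h
    have h' : Subtype.val (show P from p) = Subtype.val (show Rw P z.z from q) :=
      congrArg (fun r : Rz P z.z => (r : KK I A)) h
    obtain ⟨c, hc⟩ := KCO.const hP z p q h'
    exact ⟨c, Subtype.ext hc, Subtype.ext (h'.symm.trans hc)⟩
  · obtain ⟨L, h1, h2⟩ := KCO.coho hDEN hP z
    refine ⟨L, h1, fun t => (h2 t).trans ?_⟩
    constructor
    · rintro ⟨p, q, h⟩
      exact ⟨p, q, Subtype.ext h⟩
    · rintro ⟨p, q, h⟩
      exact ⟨p, q, congrArg Subtype.val h⟩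

end Pool.Agent.MG.KX


end

section

/-!
# Finiteness of the second chart
-/

open CategoryTheory CategoryTheory.Limits AlgebraicGeometry TensorProduct

namespace Pool.Agent.MG.KX

open Pool.Agent.MG.G0 Pool.Agent.MG.GLU

namespace KFWx

section abs

variable {A R : Type} [CommRing A] [CommRing R] [Algebra A R]

/-- The structure of an algebra over the polynomial ring. -/
theorem tower (w : R) :
    letI := (Polynomial.aeval (R := A) w).toRingHom.toAlgebra
    IsScalarTower A (Polynomial A) R := by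
  letI := (Polynomial.aeval (R := A) w).toRingHom.toAlgebra
  refine IsScalarTower.of_algebraMap_eq fun a => ?_
  change algebraMap A R a = Polynomial.aeval w (algebraMap A (Polynomial A) a)
  rw [AlgHom.commutes]

theorem finite_aeval (w : R) (Q : Submodule A R) (hfg : Q.FG)
    (hgen : ∀ f : R, ∃ F : Polynomial R, (∀ k, F.coeff k ∈ Q) ∧ f = F.eval w) :
    (Polynomial.aeval (R := A) w).toRingHom.Finite := by
  letI := (Polynomial.aeval (R := A) w).toRingHom.toAlgebra
  haveI := tower (A := A) w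
  change Module.Finite (Polynomial A) R
  obtain ⟨S, hS⟩ := hfg
  refine ⟨⟨S, ?_⟩⟩
  rw [eq_top_iff]
  intro f _
  obtain ⟨F, hF, rfl⟩ := hgen f
  rw [Polynomial.eval_eq_sum_range]
  refine Submodule.sum_mem _ fun k _ => ?_
  have h2 : F.coeff k * w ^ k = (Polynomial.X ^ k : Polynomial A) • F.coeff k := by
    rw [Algebra.smul_def]
    change _ = Polynomial.aeval w (Polynomial.X ^ k : Polynomial A) * F.coeff k
    rw [map_pow, Polynomial.aeval_X, mul_comm]
  rw [h2]
  refine Submodule.smul_mem _ _ ?_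
  have h3 : F.coeff k ∈ Submodule.span A (S : Set R) := by
    rw [hS]
    exact hF k
  exact Submodule.span_le_restrictScalars A (Polynomial A) (S : Set R) h3

/-- The multiplication by `w`. -/
noncomputable def i2 (w : R) (Q0 Q : Submodule A R) (h : ∀ x ∈ Q0, w * x ∈ Q) : Q0 →ₗ[A] Q :=
  (LinearMap.mulLeft A w).restrict fun x hx => h x hx

/-- The relations. -/
noncomputable def rel (w : R) (Q0 Q : Submodule A R) (hle : Q0 ≤ Q) (h : ∀ x ∈ Q0, w * x ∈ Q) :
    Q0 →ₗ[A] Polynomial A ⊗[A] Q :=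
  TensorProduct.mk A (Polynomial A) Q Polynomial.X ∘ₗ Submodule.inclusion hle -
    TensorProduct.mk A (Polynomial A) Q 1 ∘ₗ i2 w Q0 Q h

theorem rel_apply (w : R) (Q0 Q : Submodule A R) (hle : Q0 ≤ Q) (h : ∀ x ∈ Q0, w * x ∈ Q)
    (x : Q0) : rel w Q0 Q hle h x = (Polynomial.X : Polynomial A) ⊗ₜ Submodule.inclusion hle x -
      1 ⊗ₜ i2 w Q0 Q h x := rfl

theorem finitePresentation (w : R) (Q0 Q : Submodule A R) (hle : Q0 ≤ Q)
    (h : ∀ x ∈ Q0, w * x ∈ Q) (hcan : ∀ x : R, w * x = 0 → x = 0)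
    (hk : ∀ x ∈ Q, ∀ y : R, x = w * y → ∃ x' ∈ Q0, x = w * x')
    (hgen : ∀ f : R, ∃ F : Polynomial R, (∀ k, F.coeff k ∈ Q) ∧ f = F.eval w)
    (hfin : Module.Finite A Q0) (hfp : Module.FinitePresentation A Q) :
    Algebra.FinitePresentation A R := by
  let _ := (Polynomial.aeval (R := A) w).toRingHom.toAlgebra
  have _ := tower (A := A) w
  have hsm : ∀ (q : Polynomial A) (x : R), q • x = Polynomial.aeval w q * x := fun q x =>
    Algebra.smul_def q x
  set r := rel w Q0 Q hle h with hr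
  set l : Polynomial A ⊗[A] Q →ₗ[Polynomial A] R :=
    LinearMap.liftBaseChange (Polynomial A) Q.subtype with hl
  have hl1 : ∀ (p : Polynomial A) (x : Q), l (p ⊗ₜ x) = Polynomial.aeval w p * x := by
    intro p x
    rw [hl, LinearMap.liftBaseChange_tmul, hsm]
    rfl
  have hlr : ∀ x, l (r x) = 0 := by
    intro x
    rw [hr, rel_apply, map_sub, hl1, hl1, Polynomial.aeval_X, map_one, one_mul, sub_eq_zero]
    rfl
  have hsurj : Function.Surjective l := by
    intro f
    obtain ⟨F, hF, rfl⟩ := hgen f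
    refine ⟨∑ k ∈ Finset.range (F.natDegree + 1), (Polynomial.X ^ k : Polynomial A) ⊗ₜ[A]
      (⟨F.coeff k, hF k⟩ : Q), ?_⟩
    rw [map_sum, Polynomial.eval_eq_sum_range]
    refine Finset.sum_congr rfl fun k _ => ?_
    rw [hl1, map_pow, Polynomial.aeval_X, mul_comm]
  have hker : LinearMap.ker l = LinearMap.range (LinearMap.liftBaseChange (Polynomial A) r) := by
    apply le_antisymm
    · intro t ht
      rw [LinearMap.mem_ker] at ht
      obtain ⟨n, y, rfl⟩ := KFG.exists_tensor t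
      revert y
      induction n with
      | zero =>
        intro y _
        rw [Finset.sum_range_zero]
        exact Submodule.zero_mem _
      | succ n ih =>
        intro y hy
        have h1 : ∑ k ∈ Finset.range (n + 1), w ^ k * (y k : R) = 0 := by
          rw [← hy, map_sum]
          refine Finset.sum_congr rfl fun k _ => ?_
          rw [hl1, map_pow, Polynomial.aeval_X]
        rw [Finset.sum_range_succ', pow_zero, one_mul] at h1
        have h2 : ∑ k ∈ Finset.range n, w ^ (k + 1) * (y (k + 1) : R) =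
            w * ∑ k ∈ Finset.range n, w ^ k * (y (k + 1) : R) := by
          rw [Finset.mul_sum]
          exact Finset.sum_congr rfl fun k _ => by rw [pow_succ']; ring
        have h3 : (y 0 : R) = w * -∑ k ∈ Finset.range n, w ^ k * (y (k + 1) : R) := by
          rw [mul_neg, ← h2]
          exact eq_neg_of_add_eq_zero_right h1
        rcases n with _ | n
        · rw [Finset.sum_range_zero, neg_zero, mul_zero] at h3
          have h4 : y 0 = 0 := Subtype.ext h3
          rw [Finset.sum_range_one, h4, TensorProduct.tmul_zero]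
          exact Submodule.zero_mem _
        · obtain ⟨x', hx', hx⟩ := hk _ (y 0).2 _ h3
          have h4 : y 0 = i2 w Q0 Q h ⟨x', hx'⟩ := Subtype.ext hx
          have h5 : ∑ k ∈ Finset.range (n + 1 + 1), (Polynomial.X ^ k : Polynomial A) ⊗ₜ[A] y k =
              (Polynomial.X : Polynomial A) • (∑ k ∈ Finset.range (n + 1),
                (Polynomial.X ^ k : Polynomial A) ⊗ₜ[A]
                  (Function.update (fun k => y (k + 1)) 0
                    (y 1 + Submodule.inclusion hle ⟨x', hx'⟩)) k) - r ⟨x', hx'⟩ := by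
            rw [Finset.sum_range_succ', Finset.sum_range_succ' (n := n),
              Finset.sum_range_succ' (n := n) (f := fun k => (Polynomial.X ^ k : Polynomial A) ⊗ₜ[A]
                  (Function.update (fun k => y (k + 1)) 0
                    (y 1 + Submodule.inclusion hle ⟨x', hx'⟩)) k), Function.update_self,
              h4, hr, rel_apply, pow_zero, TensorProduct.tmul_add, smul_add, smul_add,
              TensorProduct.smul_tmul', TensorProduct.smul_tmul', smul_eq_mul, mul_one,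
              Finset.smul_sum]
            have h6 : ∀ k ∈ Finset.range n, (Polynomial.X : Polynomial A) •
                ((Polynomial.X ^ (k + 1) : Polynomial A) ⊗ₜ[A]
                  (Function.update (fun k => y (k + 1)) 0
                    (y 1 + Submodule.inclusion hle ⟨x', hx'⟩)) (k + 1)) =
                (Polynomial.X ^ (k + 1 + 1) : Polynomial A) ⊗ₜ[A] y (k + 1 + 1) := by
              intro k _
              rw [Function.update_of_ne (Nat.succ_ne_zero k), TensorProduct.smul_tmul',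
                smul_eq_mul, ← pow_succ']
            rw [Finset.sum_congr rfl h6, zero_add, pow_one]
            abel
          rw [h5]
          have h6 : l (∑ k ∈ Finset.range (n + 1),
                (Polynomial.X ^ k : Polynomial A) ⊗ₜ[A]
                  (Function.update (fun k => y (k + 1)) 0
                    (y 1 + Submodule.inclusion hle ⟨x', hx'⟩)) k) = 0 := by
            refine hcan _ ?_
            rw [h5, map_sub, hlr, sub_zero, map_smul, hsm, Polynomial.aeval_X] at hy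
            exact hy
          exact Submodule.sub_mem _ (Submodule.smul_mem _ _ (ih _ h6))
            ⟨1 ⊗ₜ ⟨x', hx'⟩, LinearMap.liftBaseChange_one_tmul _ _ _⟩
    · rintro _ ⟨t, rfl⟩
      rw [LinearMap.mem_ker]
      induction t using TensorProduct.induction_on with
      | zero => simp
      | tmul p x => rw [LinearMap.liftBaseChange_tmul, map_smul, hlr, smul_zero]
      | add s t hs ht => rw [map_add, map_add, hs, ht, add_zero]
  have hfg : (LinearMap.ker l).FG := by
    rw [hker]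
    exact Submodule.fg_range _
  have hT := KFG.fp_tensor Q hfp
  have h1 : Module.FinitePresentation (Polynomial A) R :=
    Module.finitePresentation_of_surjective l hsurj hfg
  have h2 : Algebra.FinitePresentation (Polynomial A) R :=
    Algebra.FinitePresentation.of_finitePresentation (Polynomial A) R
  exact Algebra.FinitePresentation.trans A (Polynomial A) R

/-- A union of flat submodules is flat. -/
theorem flat_union {M : Type} [AddCommGroup M] [Module A M] (W : ℕ → Submodule A M)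
    (hmono : Monotone W) (m : ℕ) (hflat : ∀ n, m ≤ n → Module.Flat A (W n))
    (hun : ∀ x : M, ∃ n, x ∈ W n) : Module.Flat A M := by
  refine Module.Flat.of_forall_isTrivialRelation fun {l f x} hfx => ?_
  choose n hn using fun i => hun (x i)
  obtain ⟨N, hN⟩ : ∃ N, m ≤ N ∧ ∀ i, n i ≤ N := by
    refine ⟨m + ∑ i, n i, by omega, fun i => ?_⟩
    have := Finset.single_le_sum (f := n) (fun _ _ => Nat.zero_le _) (Finset.mem_univ i)
    omega
  have hmem : ∀ i, x i ∈ W N := fun i => hmono (hN.2 i) (hn i)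
  have hF := hflat N hN.1
  have h1 : ∑ i, f i • (⟨x i, hmem i⟩ : W N) = 0 := by
    apply Subtype.ext
    rw [AddSubmonoidClass.coe_finsetSum]
    simpa using hfx
  obtain ⟨κ, a, y, h2, h3⟩ := Module.Flat.isTrivialRelation_of_sum_smul_eq_zero h1
  refine ⟨κ, a, fun j => (y j : M), fun i => ?_, h3⟩
  have h4 := congrArg (Subtype.val) (h2 i)
  rw [AddSubmonoidClass.coe_finsetSum] at h4
  exact h4

end abs

section main

variable {I A : Type} [CommRing A] {g : ℕ} {P : Subalgebra A (KK I A)}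

/-- The elements `x` of the second chart with `z ^ n x ∈ P`. -/
noncomputable def W (z : Pole P) (n : ℕ) : Submodule A (Rw P z.z) where
  carrier := {x | (z.z : KK I A) ^ n * (x : KK I A) ∈ P}
  add_mem' {x y} hx hy := by
    change (z.z : KK I A) ^ n * ((x : KK I A) + (y : KK I A)) ∈ P
    rw [mul_add]
    exact add_mem hx hy
  zero_mem' := by
    change (z.z : KK I A) ^ n * (0 : KK I A) ∈ P
    rw [mul_zero]
    exact zero_mem P
  smul_mem' a x hx := by
    change (z.z : KK I A) ^ n * (a • (x : KK I A)) ∈ P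
    rw [mul_smul_comm]
    exact P.smul_mem hx a

theorem mem_W {z : Pole P} {n : ℕ} {x : Rw P z.z} :
    x ∈ W z n ↔ (z.z : KK I A) ^ n * (x : KK I A) ∈ P := Iff.rfl

theorem W_mono (z : Pole P) : Monotone (W z) := by
  refine monotone_nat_of_le_succ fun n x hx => ?_
  rw [mem_W, pow_succ', mul_assoc]
  exact mul_mem z.z.2 hx

theorem exists_W (z : Pole P) (x : Rw P z.z) : ∃ n, x ∈ W z n := x.2.1

theorem zw_pow (z : Pole P) (n : ℕ) : (z.z : KK I A) ^ n * z.w ^ n = 1 := by
  rw [← mul_pow, z.zw, one_pow]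

theorem wpow_mem (z : Pole P) (n : ℕ) : z.w ^ n ∈ Pol I A (-(n * z.d : ℤ)) := by
  have h := KFG.pow_mem_Pol z.mem n
  rwa [mul_neg] at h

theorem mul_mem_PP {z : Pole P} {n : ℕ} {x : Rw P z.z} (hx : x ∈ W z n) :
    (z.z : KK I A) ^ n * (x : KK I A) ∈ G0.PP P (n * z.d) := by
  refine ⟨hx, ?_⟩
  have h := mul_mem_Pol (KFG.pow_mem_Pol z.mon.1 n) x.2.2
  rwa [add_zero] at h

theorem div_mem_Rw {z : Pole P} {n : ℕ} {p : KK I A} (hp : p ∈ G0.PP P (n * z.d)) :
    z.w ^ n * p ∈ Rw P z.z := by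
  refine ⟨⟨n, ?_⟩, ?_⟩
  · rw [← mul_assoc, zw_pow, one_mul]
    exact hp.1
  · have h := mul_mem_Pol (wpow_mem z n) hp.2
    rwa [neg_add_cancel] at h

theorem div_mem_W {z : Pole P} {n : ℕ} {p : KK I A} (hp : p ∈ G0.PP P (n * z.d)) :
    (⟨z.w ^ n * p, div_mem_Rw hp⟩ : Rw P z.z) ∈ W z n := by
  rw [mem_W]
  change (z.z : KK I A) ^ n * (z.w ^ n * p) ∈ P
  rw [← mul_assoc, zw_pow, one_mul]
  exact hp.1

/-- `W z n` and `P_{nd}` are isomorphic. -/
noncomputable def eW (z : Pole P) (n : ℕ) : W z n ≃ₗ[A] G0.PP P (n * z.d) where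
  toFun x := ⟨_, mul_mem_PP x.2⟩
  map_add' x y := Subtype.ext (mul_add _ _ _)
  map_smul' a x := Subtype.ext (mul_smul_comm _ _ _)
  invFun p := ⟨⟨z.w ^ n * p, div_mem_Rw p.2⟩, div_mem_W p.2⟩
  left_inv x := by
    apply Subtype.ext
    apply Subtype.ext
    change z.w ^ n * ((z.z : KK I A) ^ n * _) = _
    rw [← mul_assoc, mul_comm (z.w ^ n), zw_pow, one_mul]
  right_inv p := by
    apply Subtype.ext
    change (z.z : KK I A) ^ n * (z.w ^ n * _) = _
    rw [← mul_assoc, zw_pow, one_mul]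

/-- `P_{m+s} ⊂ z P_m + P_m` for `N + d ≤ m`, `s ≤ d`. -/
theorem split [Fintype I] [Nonempty I] (hKFG : Stmt_KFG) (hP : IsKr g P) {N : ℕ}
    (hN : Dense P N) (z : Pole P) (m : ℤ) (hm : N + z.d ≤ m) (s : ℕ) (hs : s ≤ z.d) :
    ∀ f ∈ G0.PP P (m + s), ∃ p ∈ G0.PP P m, ∃ q ∈ G0.PP P m, f = z.z * p + q := by
  induction s with
  | zero =>
    intro f hf
    refine ⟨0, Submodule.zero_mem _, f, ?_, by rw [mul_zero, zero_add]⟩
    simpa using hf
  | succ s ih =>
    intro f hf
    obtain ⟨-, h⟩ := hKFG hP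
    obtain ⟨h1, -⟩ := h N z.d z.z hN (by exact_mod_cast z.pos) z.mon
    obtain ⟨p, hp, hp1⟩ := h1 (m + ((s + 1 : ℕ) : ℤ)) (by push_cast; omega) f hf
    have hp2 : p ∈ G0.PP P m := ⟨hp.1, Pol_mono (by push_cast; omega) hp.2⟩
    have h2 : f - z.z * p ∈ G0.PP P (m + s) :=
      ⟨P.sub_mem hf.1 (P.mul_mem z.z.2 hp.1), Pol_mono (by push_cast; omega) hp1⟩
    obtain ⟨p', hp', q, hq, h3⟩ := ih (by omega) _ h2
    refine ⟨p + p', Submodule.add_mem _ hp2 hp', q, hq, ?_⟩
    rw [mul_add, add_assoc, ← h3]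
    ring

/-- `W (n+1) ⊂ W n + w W n`. -/
theorem split_W [Fintype I] [Nonempty I] (hKFG : Stmt_KFG) (hP : IsKr g P) {N : ℕ}
    (hN : Dense P N) (z : Pole P) (n : ℕ) (hn : (N : ℤ) + z.d ≤ n * z.d) (x : Rw P z.z)
    (hx : x ∈ W z (n + 1)) : ∃ u ∈ W z n, ∃ v ∈ W z n, x = u + ⟨z.w, z.mem_Rw⟩ * v := by
  have h1 := mul_mem_PP hx
  have h2 : (((n + 1 : ℕ) : ℤ) * z.d) = n * z.d + (z.d : ℕ) := by push_cast; ring
  rw [h2] at h1
  obtain ⟨p, hp, q, hq, h3⟩ := split hKFG hP hN z _ hn z.d le_rfl _ h1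
  refine ⟨_, div_mem_W hp, _, div_mem_W hq, ?_⟩
  apply Subtype.ext
  change (x : KK I A) = z.w ^ n * p + z.w * (z.w ^ n * q)
  have h4 : (x : KK I A) = ((z.z : KK I A) ^ (n + 1) * z.w ^ (n + 1)) * x := by
    rw [zw_pow, one_mul]
  rw [h4]
  have h5 : ((z.z : KK I A) ^ (n + 1) * z.w ^ (n + 1)) * (x : KK I A) =
      z.w ^ (n + 1) * ((z.z : KK I A) ^ (n + 1) * (x : KK I A)) := by ring
  rw [h5, h3]
  have h6 : z.w ^ (n + 1) * ((z.z : KK I A) * p + q) =
      ((z.z : KK I A) * z.w) * (z.w ^ n * p) + z.w * (z.w ^ n * q) := by ring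
  rw [h6, z.zw, one_mul]

/-- Every element is a polynomial in `w` with coefficients in `W m`. -/
theorem exists_poly [Fintype I] [Nonempty I] (hKFG : Stmt_KFG) (hP : IsKr g P) {N : ℕ}
    (hN : Dense P N) (z : Pole P) (m : ℕ) (hm : (N : ℤ) + z.d ≤ m * z.d) (x : Rw P z.z) :
    ∃ F : Polynomial (Rw P z.z), (∀ k, F.coeff k ∈ W z m) ∧
      x = F.eval ⟨z.w, z.mem_Rw⟩ := by
  have key : ∀ s : ℕ, ∀ x ∈ W z (m + s), ∃ F : Polynomial (Rw P z.z),
      (∀ k, F.coeff k ∈ W z m) ∧ x = F.eval ⟨z.w, z.mem_Rw⟩ := by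
    intro s
    induction s with
    | zero =>
      intro x hx
      refine ⟨Polynomial.C x, fun k => ?_, (Polynomial.eval_C).symm⟩
      rw [Polynomial.coeff_C]
      split_ifs
      · exact hx
      · exact Submodule.zero_mem _
    | succ s ih =>
      intro x hx
      have h0 : (N : ℤ) + z.d ≤ ((m + s : ℕ) : ℤ) * z.d := by
        push_cast
        have h1 : (0 : ℤ) ≤ s * z.d := by positivity
        linarith [add_mul (m : ℤ) s z.d]
      obtain ⟨u, hu, v, hv, rfl⟩ := split_W hKFG hP hN z (m + s) h0 x hx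
      obtain ⟨F, hF, hF1⟩ := ih u hu
      obtain ⟨G, hG, hG1⟩ := ih v hv
      refine ⟨F + Polynomial.X * G, fun k => ?_, ?_⟩
      · rw [Polynomial.coeff_add]
        refine Submodule.add_mem _ (hF k) ?_
        rcases k with _ | k
        · rw [Polynomial.coeff_X_mul_zero]
          exact Submodule.zero_mem _
        · rw [Polynomial.coeff_X_mul]
          exact hG k
      · rw [Polynomial.eval_add, Polynomial.eval_mul, Polynomial.eval_X, ← hF1, ← hG1]
  obtain ⟨n, hn⟩ := exists_W z x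
  exact key n x (W_mono z (by omega) hn)

theorem core [Fintype I] [Nonempty I] (hP : IsKr g P) (z : Pole P) :
    Algebra.FinitePresentation A (Rw P z.z) ∧ Module.Flat A (Rw P z.z) ∧
      ∀ r : Rw P z.z, ((Polynomial.aeval (⟨z.w, z.mem_Rw⟩ : Rw P z.z) :
        Polynomial A →ₐ[A] Rw P z.z) : Polynomial A →+* Rw P z.z).IsIntegralElem r := by
  have hKNZ : Stmt_KNZ := t_KNZ
  have hKSP : Stmt_KSP := t_KSP hKNZ
  have hKFG : Stmt_KFG := t_KFG hKNZ hKSP
  obtain ⟨N, hN⟩ := (hKNZ hP).1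
  obtain ⟨-, hS⟩ := hKSP hP
  obtain ⟨-, hS1⟩ := hS N hN
  have hd := z.pos
  have hfin : ∀ n : ℕ, (N : ℤ) ≤ n * z.d → Module.Finite A (W z n) ∧
      Module.Projective A (W z n) := fun n hn => by
    have h1 := (hS1 _ hn).1
    have h2 := (hS1 _ hn).2
    exact ⟨Module.Finite.equiv (eW z n).symm, Module.Projective.of_equiv (eW z n).symm⟩
  have hbig : ∀ n : ℕ, N ≤ n → (N : ℤ) ≤ n * z.d := fun n hn => by
    have h1 : N ≤ n * z.d := hn.trans (Nat.le_mul_of_pos_right n hd)
    exact_mod_cast h1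
  set m : ℕ := N + 1 with hmdef
  have hm : (N : ℤ) + z.d ≤ m * z.d := by
    rw [hmdef]
    have h1 := hbig N le_rfl
    push_cast
    linarith [add_mul (N : ℤ) 1 z.d, one_mul (z.d : ℤ)]
  have hgen := exists_poly hKFG hP hN z m hm
  have hfinm := hfin m (hbig m (by omega))
  have hfinN := hfin N (hbig N le_rfl)
  have hfp : Module.FinitePresentation A (W z m) := by
    have h1 := hfinm.1
    have h2 := hfinm.2
    exact Module.finitePresentation_of_projective A (W z m)
  refine ⟨?_, ?_, ?_⟩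
  · refine finitePresentation (A := A) (⟨z.w, z.mem_Rw⟩ : Rw P z.z) (W z N) (W z m)
      (W_mono z (by omega)) ?_ ?_ ?_ hgen hfinN.1 hfp
    · intro x hx
      rw [mem_W]
      change (z.z : KK I A) ^ (N + 1) * (z.w * (x : KK I A)) ∈ P
      have h1 : (z.z : KK I A) ^ (N + 1) * (z.w * (x : KK I A)) =
          ((z.z : KK I A) * z.w) * ((z.z : KK I A) ^ N * (x : KK I A)) := by ring
      rw [h1, z.zw, one_mul]
      exact hx
    · intro x hx
      apply Subtype.ext
      have h1 : z.w * (x : KK I A) = 0 := congrArg Subtype.val hx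
      have h2 : (x : KK I A) = (z.z : KK I A) * z.w * x := by rw [z.zw, one_mul]
      change (x : KK I A) = 0
      rw [h2, mul_assoc, h1, mul_zero]
    · intro x hx y hxy
      refine ⟨y, ?_, hxy⟩
      rw [mem_W]
      have h1 := mem_W.1 hx
      rw [hxy] at h1
      change (z.z : KK I A) ^ (N + 1) * (z.w * (y : KK I A)) ∈ P at h1
      have h2 : (z.z : KK I A) ^ (N + 1) * (z.w * (y : KK I A)) =
          ((z.z : KK I A) * z.w) * ((z.z : KK I A) ^ N * (y : KK I A)) := by ring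
      rw [h2, z.zw, one_mul] at h1
      exact h1
  · refine flat_union (W z) (W_mono z) N (fun n hn => ?_) (exists_W z)
    have h1 := (hfin n (hbig n hn)).2
    exact inferInstance
  · intro r
    have h1 := finite_aeval (A := A) (⟨z.w, z.mem_Rw⟩ : Rw P z.z) (W z m)
      (Module.Finite.iff_fg.1 hfinm.1) hgen
    exact h1.to_isIntegral r

end main

end KFWx

theorem t_KFW : Stmt_KFW := by
  intro I A _ _ _ g P hP z
  exact KFWx.core hP z

end Pool.Agent.MG.KX


end

section

/-!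
# KPT: étale coordinates at the punctures
-/

open CategoryTheory CategoryTheory.Limits AlgebraicGeometry TensorProduct

namespace Pool.Agent.MG.KX

open Pool.Agent.MG.G0 Pool.Agent.MG.GLU

namespace KPT_

open Polynomial

/-- A power series without constant term is transcendental. -/
theorem transc {K : Type} [Field K] {t : PowerSeries K} (ht : t ≠ 0)
    (h0 : PowerSeries.constantCoeff t = 0) (n : ℕ) :
    ∀ F : K[X], F.natDegree ≤ n → F.eval₂ (PowerSeries.C (R := K)) t = 0 → F = 0 := by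
  induction n with
  | zero =>
    intro F hF h
    rw [Polynomial.eq_C_of_natDegree_le_zero hF] at h ⊢
    rw [Polynomial.eval₂_C] at h
    have h1 := congrArg (PowerSeries.constantCoeff (R := K)) h
    rw [PowerSeries.constantCoeff_C, map_zero] at h1
    rw [h1, Polynomial.C_0]
  | succ n ih =>
    intro F hF h
    have e := Polynomial.divX_mul_X_add F
    have h1 : F.coeff 0 = 0 := by
      have h2 := congrArg (PowerSeries.constantCoeff (R := K)) h
      rw [← e, Polynomial.eval₂_add, Polynomial.eval₂_mul, Polynomial.eval₂_X,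
        Polynomial.eval₂_C, map_add, map_mul, h0, mul_zero, zero_add,
        PowerSeries.constantCoeff_C, map_zero] at h2
      exact h2
    rw [h1, Polynomial.C_0, add_zero] at e
    have h2 : F.divX.eval₂ (PowerSeries.C (R := K)) t = 0 := by
      rw [← e, Polynomial.eval₂_mul, Polynomial.eval₂_X] at h
      exact (mul_eq_zero.1 h).resolve_right ht
    have h3 : F.divX = 0 := by
      refine ih _ ?_ h2
      rw [Polynomial.natDegree_divX_eq_natDegree_tsub_one]
      omega
    rw [← e, h3, zero_mul]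

section

variable {K R I : Type} [Field K] [CommRing R] [Algebra K R]

/-- The expansions of the elements of a ring at finitely many points. -/
structure Ex (K R I : Type) [Field K] [CommRing R] [Algebra K R] where
  w : R
  d : ℕ
  pos : 1 ≤ d
  ρ : I → R →+* PowerSeries K
  alg : ∀ i c, ρ i (algebraMap K R c) = PowerSeries.C c
  inj : ∀ f, (∀ i, ρ i f = 0) → f = 0
  div : ∀ f m, (∀ i, PowerSeries.X ^ (d + m) ∣ ρ i f) →
    ∃ f', f = w * f' ∧ ∀ i, PowerSeries.X ^ m ∣ ρ i f'
  den : ∀ (f : I → PowerSeries K) (M : ℕ), ∃ r, ∀ i, PowerSeries.X ^ M ∣ ρ i r - f i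

variable (T : Ex K R I)

/-- The maximal ideal of a point. -/
noncomputable def J (i : I) : Ideal R :=
  RingHom.ker ((PowerSeries.constantCoeff (R := K)).comp (T.ρ i))

theorem mem_J {i : I} {f : R} : f ∈ J T i ↔ PowerSeries.constantCoeff (T.ρ i f) = 0 := Iff.rfl

theorem J_max (i : I) : (J T i).IsMaximal := by
  refine RingHom.ker_isMaximal_of_surjective _ fun c => ⟨algebraMap K R c, ?_⟩
  rw [RingHom.comp_apply, T.alg, PowerSeries.constantCoeff_C]

theorem exists_eq [Finite I] (q : Ideal R) [hq : q.IsPrime] (hw : T.w ∈ q) : ∃ i, q = J T i := by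
  classical
  have : Fintype I := Fintype.ofFinite I
  have h1 : Finset.univ.inf (J T) ≤ q := by
    intro f hf
    have hf' : ∀ i, f ∈ J T i := fun i => (Finset.inf_le (Finset.mem_univ i) : _ ≤ J T i) hf
    have h2 : ∀ i, PowerSeries.X ^ (T.d + 0) ∣ T.ρ i (f ^ T.d) := by
      intro i
      rw [add_zero, map_pow]
      exact pow_dvd_pow_of_dvd (PowerSeries.X_dvd_iff.2 (hf' i)) _
    obtain ⟨f', hf1, -⟩ := T.div _ _ h2
    refine hq.mem_of_pow_mem T.d ?_
    rw [hf1]
    exact q.mul_mem_right _ hw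
  obtain ⟨i, -, hi⟩ := (Ideal.IsPrime.inf_le' hq).1 h1
  exact ⟨i, ((J_max T i).eq_of_le hq.ne_top hi).symm⟩

theorem coeff_of_dvd {f g : PowerSeries K} {M : ℕ} (h : PowerSeries.X ^ M ∣ f - g) (m : ℕ)
    (hm : m < M) : PowerSeries.coeff m f = PowerSeries.coeff m g := by
  have h1 := PowerSeries.X_pow_dvd_iff.1 h m hm
  rw [map_sub] at h1
  exact sub_eq_zero.1 h1

/-- A coordinate. -/
theorem exists_t : ∃ t : R, ∀ i, ∃ u : PowerSeries K, IsUnit u ∧ T.ρ i t = PowerSeries.X * u ∧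
    PowerSeries.coeff 1 (T.ρ i t) = 1 := by
  obtain ⟨t, ht⟩ := T.den (fun _ => PowerSeries.X) 2
  refine ⟨t, fun i => ?_⟩
  have h0 := coeff_of_dvd (ht i) 0 (by norm_num)
  have h1 := coeff_of_dvd (ht i) 1 (by norm_num)
  rw [PowerSeries.coeff_one_X] at h1
  rw [PowerSeries.coeff_zero_X, PowerSeries.coeff_zero_eq_constantCoeff_apply] at h0
  obtain ⟨u, hu⟩ := PowerSeries.X_dvd_iff.2 h0
  refine ⟨u, ?_, hu, h1⟩
  rw [PowerSeries.isUnit_iff_constantCoeff, ← PowerSeries.coeff_zero_eq_constantCoeff_apply]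
  have h2 : PowerSeries.coeff 1 (PowerSeries.X * u) = PowerSeries.coeff 0 u :=
    PowerSeries.coeff_succ_X_mul 0 u
  rw [← h2, ← hu, h1]
  exact isUnit_one

/-- Local generation of the maximal ideal by a coordinate. -/
theorem local_gen {t : R} (ht : ∀ i, ∃ u : PowerSeries K, IsUnit u ∧ T.ρ i t = PowerSeries.X * u ∧
    PowerSeries.coeff 1 (T.ρ i t) = 1) (i : I) (hw : T.w ∈ J T i) {f : R} (hf : f ∈ J T i) :
    ∃ (c : K) (e : R), e ∉ J T i ∧ (f - algebraMap K R c * t) * e ∈ J T i * J T i := by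
  classical
  obtain ⟨e, he⟩ := T.den (fun j => if j = i then 1 else 0) (T.d + 1)
  have hd := T.pos
  set c := PowerSeries.coeff 1 (T.ρ i f) with hc
  refine ⟨c, e, ?_, ?_⟩
  · intro h
    have h1 := coeff_of_dvd (he i) 0 (by omega)
    rw [if_pos rfl, PowerSeries.coeff_zero_eq_constantCoeff_apply, (mem_J T).1 h,
      PowerSeries.coeff_zero_eq_constantCoeff_apply, map_one] at h1
    exact zero_ne_one h1
  set g := (f - algebraMap K R c * t) * e with hg
  have htJ : t ∈ J T i := by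
    obtain ⟨u, -, hu, -⟩ := ht i
    rw [mem_J, hu, map_mul, PowerSeries.constantCoeff_X, zero_mul]
  have hX2 : ∀ j, PowerSeries.X ^ 2 ∣ T.ρ j g := by
    intro j
    rw [hg, map_mul]
    by_cases hj : j = i
    · subst hj
      refine dvd_mul_of_dvd_left ?_ _
      rw [PowerSeries.X_pow_dvd_iff]
      intro m hm
      obtain ⟨u, -, -, h1⟩ := ht j
      rw [map_sub, map_mul, T.alg, map_sub, PowerSeries.coeff_C_mul]
      have h2 : m = 0 ∨ m = 1 := by omega
      rcases h2 with rfl | rfl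
      · rw [PowerSeries.coeff_zero_eq_constantCoeff_apply,
          PowerSeries.coeff_zero_eq_constantCoeff_apply, (mem_J T).1 hf, (mem_J T).1 htJ, mul_zero,
          sub_zero]
      · rw [h1, mul_one, hc, sub_self]
    · refine dvd_mul_of_dvd_right ?_ _
      have h1 := he j
      rw [if_neg hj, sub_zero] at h1
      exact (pow_dvd_pow _ (by omega)).trans h1
  choose F hF using hX2
  choose u hu1 hu2 _ using ht
  choose v hv using fun j => (hu1 j).exists_right_inv
  obtain ⟨G, hG⟩ := T.den (fun j => F j * v j ^ 2) (T.d + 1)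
  have h1 : ∀ j, PowerSeries.X ^ (T.d + 1) ∣ T.ρ j (g - t ^ 2 * G) := by
    intro j
    have e1 : T.ρ j (g - t ^ 2 * G) =
        (T.ρ j G - F j * v j ^ 2) * (-(PowerSeries.X ^ 2 * u j ^ 2)) := by
      rw [map_sub, map_mul (T.ρ j) (t ^ 2) G, map_pow, hF j, hu2 j]
      have e2 : u j ^ 2 * v j ^ 2 = 1 := by rw [← mul_pow, hv j, one_pow]
      linear_combination (-(PowerSeries.X ^ 2 * F j)) * e2
    rw [e1]
    exact dvd_mul_of_dvd_left (hG j) _
  obtain ⟨f', hf1, hf2⟩ := T.div _ _ h1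
  have hf'J : f' ∈ J T i := by
    rw [mem_J]
    have h2 := hf2 i
    rw [pow_one] at h2
    exact PowerSeries.X_dvd_iff.1 h2
  have e3 : g = t * (t * G) + T.w * f' := by
    rw [← hf1]
    ring
  rw [e3]
  exact (J T i * J T i).add_mem (Ideal.mul_mem_mul htJ ((J T i).mul_mem_right _ htJ))
    (Ideal.mul_mem_mul hw hf'J)

theorem main [Finite I] [Algebra.FinitePresentation K R] (q : Ideal R) [hq : q.IsPrime]
    (hw : T.w ∈ q) : ∃ h t : R, h ∉ q ∧ ((algebraMap R (Localization.Away h)).comp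
      (Polynomial.eval₂RingHom (algebraMap K R) t)).Etale := by
  obtain ⟨i, hi⟩ := exists_eq T q hw
  subst hi
  obtain ⟨t, ht⟩ := exists_t T
  let _ : Algebra K[X] R := (Polynomial.eval₂RingHom (algebraMap K R) t).toAlgebra
  have hX : ∀ F : K[X], algebraMap K[X] R F = F.eval₂ (algebraMap K R) t := fun F => rfl
  have hst : IsScalarTower K K[X] R := IsScalarTower.of_algebraMap_eq fun c => by
    rw [hX, Polynomial.algebraMap_apply, Polynomial.eval₂_C]
    rfl
  have hfp : Algebra.FinitePresentation K[X] R :=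
    Algebra.FinitePresentation.of_restrict_scalars_finitePresentation K K[X] R
  have hρ : ∀ j (F : K[X]), T.ρ j (algebraMap K[X] R F) =
      F.eval₂ (PowerSeries.C (R := K)) (T.ρ j t) := by
    intro j F
    rw [hX, Polynomial.hom_eval₂]
    have e : (T.ρ j).comp (algebraMap K R) = PowerSeries.C (R := K) :=
      RingHom.ext fun c => T.alg j c
    rw [e]
  have htor : Module.IsTorsionFree K[X] R := by
    refine ⟨fun F hF => ?_⟩
    have hF0 : F ≠ 0 := hF.ne_zero
    have key : ∀ x : R, F • x = 0 → x = 0 := by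
      intro x hx
      refine T.inj x fun j => ?_
      rw [Algebra.smul_def] at hx
      have h1 := congrArg (T.ρ j) hx
      rw [map_mul, map_zero, hρ] at h1
      refine (mul_eq_zero.1 h1).resolve_left fun h2 => hF0 ?_
      obtain ⟨u, hu, hu', -⟩ := ht j
      refine transc (t := T.ρ j t) ?_ ?_ F.natDegree F le_rfl h2
      · rw [hu']
        exact mul_ne_zero PowerSeries.X_ne_zero hu.ne_zero
      · rw [hu', map_mul, PowerSeries.constantCoeff_X, zero_mul]
    intro x y hxy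
    have h1 := key (x - y) (by
      rw [smul_sub, sub_eq_zero]
      exact hxy)
    exact sub_eq_zero.1 h1
  have hflat : Module.Flat K[X] R := inferInstance
  have htJ : t ∈ J T i := by
    obtain ⟨u, -, hu, -⟩ := ht i
    rw [mem_J, hu, map_mul, PowerSeries.constantCoeff_X, zero_mul]
  have hmax := J_max T i
  set N : Submodule R Ω[R⁄K[X]] := J T i • ⊤ with hN
  have hmul : ∀ {a : R}, a ∈ J T i → ∀ x : Ω[R⁄K[X]], a • x ∈ N := fun ha x =>
    Submodule.smul_mem_smul ha trivial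
  have hcan : ∀ {e : R}, e ∉ J T i → ∀ x : Ω[R⁄K[X]], e • x ∈ N → x ∈ N := by
    intro e he x hx
    obtain ⟨a, b, hb, hab⟩ : ∃ a, ∃ b ∈ J T i, a * e + b = 1 := by
      have h1 := hmax.exists_inv he
      obtain ⟨a, b, hb, hab⟩ := h1
      exact ⟨a, b, hb, hab⟩
    have h2 : x = a • (e • x) + b • x := by
      rw [smul_smul, ← add_smul, hab, one_smul]
    rw [h2]
    exact N.add_mem (N.smul_mem _ hx) (hmul hb x)
  have hDc : ∀ c : K, KaehlerDifferential.D K[X] R (algebraMap K R c) = 0 := by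
    intro c
    have e : algebraMap K R c = algebraMap K[X] R (C c) := by
      rw [hX, Polynomial.eval₂_C]
    rw [e]
    exact Derivation.map_algebraMap _ _
  have hDt : KaehlerDifferential.D K[X] R t = 0 := by
    have e : t = algebraMap K[X] R X := by
      rw [hX, Polynomial.eval₂_X]
    rw [e]
    exact Derivation.map_algebraMap _ _
  have hD2 : ∀ g ∈ J T i * J T i, KaehlerDifferential.D K[X] R g ∈ N := by
    intro g hg
    refine Submodule.mul_induction_on hg ?_ ?_
    · intro a ha b hb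
      rw [Derivation.leibniz]
      exact N.add_mem (hmul ha _) (hmul hb _)
    · intro a b ha hb
      rw [map_add]
      exact N.add_mem ha hb
  have hDJ : ∀ f ∈ J T i, KaehlerDifferential.D K[X] R f ∈ N := by
    intro f hf
    obtain ⟨c, e, he, hfe⟩ := local_gen T ht i hw hf
    refine hcan he _ ?_
    have h1 := hD2 _ hfe
    have h2 : f - algebraMap K R c * t ∈ J T i := (J T i).sub_mem hf ((J T i).mul_mem_left _ htJ)
    have h3 : KaehlerDifferential.D K[X] R (f - algebraMap K R c * t) =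
        KaehlerDifferential.D K[X] R f := by
      rw [map_sub, Derivation.leibniz, hDc, hDt, smul_zero, smul_zero, add_zero, sub_zero]
    rw [Derivation.leibniz, h3] at h1
    exact (N.add_mem_iff_right (hmul h2 _)).1 h1
  have hDall : ∀ f : R, KaehlerDifferential.D K[X] R f ∈ N := by
    intro f
    have h1 : f - algebraMap K R (PowerSeries.constantCoeff (T.ρ i f)) ∈ J T i := by
      rw [mem_J, map_sub, T.alg, map_sub, PowerSeries.constantCoeff_C, sub_self]
    have h2 := hDJ _ h1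
    rw [map_sub, hDc, sub_zero] at h2
    exact h2
  have htop : (⊤ : Submodule R Ω[R⁄K[X]]) ≤ J T i • ⊤ := by
    rw [← KaehlerDifferential.span_range_derivation, Submodule.span_le]
    rintro _ ⟨f, rfl⟩
    rw [KaehlerDifferential.span_range_derivation]
    exact hDall f
  obtain ⟨r, hr1, hr2⟩ := Submodule.exists_sub_one_mem_and_smul_eq_zero_of_fg_of_le_smul
    (J T i) ⊤ Module.Finite.fg_top htop
  have hrJ : r ∉ J T i := by
    intro h
    apply hmax.ne_top
    rw [Ideal.eq_top_iff_one]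
    have := (J T i).sub_mem h hr1
    rwa [sub_sub_cancel] at this
  have hunr : Algebra.IsUnramifiedAt K[X] (J T i) := by
    have h1 : (⟨J T i, hq⟩ : PrimeSpectrum R) ∈ Algebra.unramifiedLocus K[X] R := by
      rw [Algebra.unramifiedLocus_eq_compl_support, Set.mem_compl_iff,
        Module.notMem_support_iff']
      exact fun m => ⟨r, hrJ, hr2 m trivial⟩
    exact h1
  have het : Algebra.IsEtaleAt K[X] (J T i) :=
    Algebra.IsEtaleAt.of_isUnramifiedAt_of_flat _
  obtain ⟨h, hh, hE⟩ := Algebra.exists_etale_of_isEtaleAt (R := K[X]) (J T i)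
  refine ⟨h, t, hh, ?_⟩
  have e : (algebraMap R (Localization.Away h)).comp
      (Polynomial.eval₂RingHom (algebraMap K R) t) = algebraMap K[X] (Localization.Away h) :=
    (IsScalarTower.algebraMap_eq K[X] R (Localization.Away h)).symm
  rw [e, RingHom.etale_algebraMap]
  exact hE

end

section rsh

variable {I K : Type} [Field K] {P : Subalgebra K (KK I K)} (z : Pole P)

theorem rsh_coeff (f : Rw P z.z) (i : I) (m : ℕ) :
    PowerSeries.coeff m (rsh z.z i f) = ((f : KK I K) i).coeff (m : ℤ) := by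
  rw [← psl_rsh i f, psl_coeff]

theorem rsh_alg (i : I) (c : K) :
    rsh z.z i (algebraMap K (Rw P z.z) c) = PowerSeries.C c := by
  ext m
  have h1 : PowerSeries.coeff m (rsh z.z i (algebraMap K (Rw P z.z) c)) =
      (algebraMap K (LaurentSeries K) c).coeff (m : ℤ) := rsh_coeff z _ i m
  rw [h1, coeff_algebraMap, PowerSeries.coeff_C]
  simp only [Nat.cast_eq_zero]

theorem mem_of_dvd {f : Rw P z.z} {m : ℕ} (h : ∀ i, PowerSeries.X ^ m ∣ rsh z.z i f) :
    (f : KK I K) ∈ Pol I K (-(m : ℤ)) := by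
  intro i k hk
  rw [neg_neg] at hk
  rcases lt_or_ge k 0 with h0 | h0
  · exact f.2.2 i k (by omega)
  · obtain ⟨l, rfl⟩ := Int.eq_ofNat_of_zero_le h0
    rw [← rsh_coeff]
    exact PowerSeries.X_pow_dvd_iff.1 (h i) l (by omega)

theorem dvd_of_mem {f : Rw P z.z} {m : ℕ} (h : (f : KK I K) ∈ Pol I K (-(m : ℤ))) (i : I) :
    PowerSeries.X ^ m ∣ rsh z.z i f := by
  rw [PowerSeries.X_pow_dvd_iff]
  intro l hl
  rw [rsh_coeff]
  exact h i l (by omega)

theorem rsh_div (f : Rw P z.z) (m : ℕ) (h : ∀ i, PowerSeries.X ^ (z.d + m) ∣ rsh z.z i f) :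
    ∃ f' : Rw P z.z, f = ⟨z.w, z.mem_Rw⟩ * f' ∧ ∀ i, PowerSeries.X ^ m ∣ rsh z.z i f' := by
  have h1 := mem_of_dvd z h
  have h2 : (z.z : KK I K) * (f : KK I K) ∈ Pol I K (-(m : ℤ)) := by
    have h3 := mul_mem_Pol z.mon.1 h1
    have e : (z.d : ℤ) + -((z.d + m : ℕ) : ℤ) = -(m : ℤ) := by
      push_cast
      ring
    rwa [e] at h3
  refine ⟨⟨(z.z : KK I K) * (f : KK I K), (Rz P z.z).mul_mem (le_Rz P z.z z.z.2) f.2.1,
    Pol_mono (by omega) h2⟩, ?_, fun i => dvd_of_mem z h2 i⟩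
  apply Subtype.ext
  change (f : KK I K) = z.w * ((z.z : KK I K) * (f : KK I K))
  rw [← mul_assoc, mul_comm z.w, z.zw, one_mul]

end rsh

end KPT_

open _root_.Pool.Agent.MG.KX.KPT_ in
theorem t_KPT (hDEN : Stmt_DEN) (hKFW : Stmt_KFW) : Stmt_KPT := by
  intro I K _ _ _ g P hP z q hq
  obtain ⟨hfp, -, -⟩ := hKFW hP z
  obtain ⟨-, -, hden⟩ := hDEN hP z
  let T : Ex K (Rw P z.z) I :=
    { w := ⟨z.w, z.mem_Rw⟩
      d := z.d
      pos := z.pos
      ρ := rsh z.z
      alg := fun i c => rsh_alg z i c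
      inj := fun f hf => Subtype.ext (funext fun i => by
        rw [← psl_rsh i f, hf i, map_zero]
        rfl)
      div := fun f m hf => rsh_div z f m hf
      den := fun f M => by
        obtain ⟨r, hr⟩ := hden f M
        refine ⟨r, fun i => ?_⟩
        rw [PowerSeries.X_pow_dvd_iff]
        intro m hm
        rw [map_sub, hr i m hm, sub_self] }
  exact @main K (Rw P z.z) I _ _ _ T _ hfp q.asIdeal q.2 hq

end Pool.Agent.MG.KX


end

section

/-!
# TEP: functions without poles at a puncture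
-/

namespace Pool.Agent.MG.G0

namespace TEP

section

variable {I A : Type} [CommRing A]

/-- The condition on the lift. -/
def Lift (W : Subalgebra A (KK (I ⊕ Unit) A)) (f : KK I A) (w : KK (I ⊕ Unit) A) : Prop :=
  w ∈ W ∧ (∀ m < 0, (w (Sum.inr ())).coeff m = 0) ∧ ∀ i, w (Sum.inl i) = f i

theorem Lift.uniq {W : Subalgebra A (KK (I ⊕ Unit) A)}
    (hinj : ∀ w ∈ W, (∀ i, w (Sum.inl i) = 0) → w = 0) {f : KK I A} {w w' : KK (I ⊕ Unit) A}
    (h : Lift W f w) (h' : Lift W f w') : w = w' := by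
  have h1 := hinj (w - w') (sub_mem h.1 h'.1) fun i => by
    rw [Pi.sub_apply, h.2.2, h'.2.2, sub_self]
  exact sub_eq_zero.1 h1

theorem Lift.mul {W : Subalgebra A (KK (I ⊕ Unit) A)} {f g : KK I A} {w v : KK (I ⊕ Unit) A}
    (h : Lift W f w) (h' : Lift W g v) : Lift W (f * g) (w * v) :=
  ⟨mul_mem h.1 h'.1, fun m hm => by
    rw [Pi.mul_apply]
    exact mul_low h.2.1 h'.2.1 m (by omega), fun i => by
    rw [Pi.mul_apply, h.2.2, h'.2.2, Pi.mul_apply]⟩

theorem Lift.add {W : Subalgebra A (KK (I ⊕ Unit) A)} {f g : KK I A} {w v : KK (I ⊕ Unit) A}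
    (h : Lift W f w) (h' : Lift W g v) : Lift W (f + g) (w + v) :=
  ⟨add_mem h.1 h'.1, fun m hm => by
    rw [Pi.add_apply, HahnSeries.coeff_add, h.2.1 m hm, h'.2.1 m hm, add_zero], fun i => by
    rw [Pi.add_apply, h.2.2, h'.2.2, Pi.add_apply]⟩

theorem Lift.alg (W : Subalgebra A (KK (I ⊕ Unit) A)) (a : A) :
    Lift W (algebraMap A (KK I A) a) (algebraMap A (KK (I ⊕ Unit) A) a) :=
  ⟨W.algebraMap_mem a, fun m hm => by
    rw [Pi.algebraMap_apply, coeff_algebraMap, if_neg (by omega)], fun _ => rfl⟩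

theorem exists_lift {W : Subalgebra A (KK (I ⊕ Unit) A)} (f : Rem W) :
    ∃ w, Lift W (f : KK I A) w := by
  obtain ⟨w, hw, h1, h2⟩ := f.2
  exact ⟨w, hw, h1 (), h2⟩

/-- The lift. -/
noncomputable def iot (W : Subalgebra A (KK (I ⊕ Unit) A))
    (hinj : ∀ w ∈ W, (∀ i, w (Sum.inl i) = 0) → w = 0) : Rem W →ₐ[A] W where
  toFun f := ⟨(exists_lift f).choose, (exists_lift f).choose_spec.1⟩
  map_one' := by
    apply Subtype.ext
    have h1 := Lift.alg W (1 : A)
    rw [map_one, map_one] at h1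
    exact Lift.uniq hinj (exists_lift (1 : Rem W)).choose_spec h1
  map_zero' := by
    apply Subtype.ext
    have h1 := Lift.alg W (0 : A)
    rw [map_zero, map_zero] at h1
    exact Lift.uniq hinj (exists_lift (0 : Rem W)).choose_spec h1
  map_mul' f g := Subtype.ext (Lift.uniq hinj (exists_lift (f * g)).choose_spec
    ((exists_lift f).choose_spec.mul (exists_lift g).choose_spec))
  map_add' f g := Subtype.ext (Lift.uniq hinj (exists_lift (f + g)).choose_spec
    ((exists_lift f).choose_spec.add (exists_lift g).choose_spec))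
  commutes' a := Subtype.ext (Lift.uniq hinj
    (exists_lift (algebraMap A (Rem W) a)).choose_spec (Lift.alg W a))

theorem iot_spec (W : Subalgebra A (KK (I ⊕ Unit) A))
    (hinj : ∀ w ∈ W, (∀ i, w (Sum.inl i) = 0) → w = 0) (f : Rem W) :
    Lift W (f : KK I A) (iot W hinj f : KK (I ⊕ Unit) A) := (exists_lift f).choose_spec

theorem approx {a b : LaurentSeries A} {M : ℕ}
    (ha : ∀ m < 2 * (M : ℤ), a.coeff m = (HahnSeries.single (M : ℤ) (1 : A)).coeff m)
    (hb : ∀ m < (0 : ℤ), b.coeff m = (HahnSeries.single (-(M : ℤ)) (1 : A)).coeff m) (m : ℤ)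
    (hm : m < (M : ℤ)) : (1 - b * a).coeff m = 0 := by
  obtain ⟨c, hc⟩ : ∃ c, c = a - HahnSeries.single (M : ℤ) (1 : A) := ⟨_, rfl⟩
  obtain ⟨d, hd⟩ : ∃ d, d = b - HahnSeries.single (-(M : ℤ)) (1 : A) := ⟨_, rfl⟩
  have h1 : HahnSeries.single (M : ℤ) (1 : A) * HahnSeries.single (-(M : ℤ)) (1 : A) = 1 := by
    rw [HahnSeries.single_mul_single, add_neg_cancel, mul_one]
    rfl
  have h2 : 1 - b * a = -(HahnSeries.single (M : ℤ) (1 : A) * d +
      c * HahnSeries.single (-(M : ℤ)) (1 : A) + c * d) := by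
    have ea : a = HahnSeries.single (M : ℤ) (1 : A) + c := by rw [hc]; ring
    have eb : b = HahnSeries.single (-(M : ℤ)) (1 : A) + d := by rw [hd]; ring
    rw [ea, eb]
    linear_combination (-1 : LaurentSeries A) * h1
  have hc' : ∀ n < 2 * (M : ℤ), c.coeff n = 0 := fun n hn => by
    rw [hc, HahnSeries.coeff_sub, ha n hn, sub_self]
  have hd' : ∀ n < (0 : ℤ), d.coeff n = 0 := fun n hn => by
    rw [hd, HahnSeries.coeff_sub, hb n hn, sub_self]
  have hs : ∀ k : ℤ, ∀ n < k, (HahnSeries.single k (1 : A)).coeff n = 0 := fun k n hn => by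
    rw [HahnSeries.coeff_single, if_neg (by omega)]
  rw [h2, HahnSeries.coeff_neg, HahnSeries.coeff_add, HahnSeries.coeff_add,
    mul_low (hs _) hd' m (by omega), mul_low hc' (hs _) m (by omega),
    mul_low hc' hd' m (by omega), add_zero, add_zero, neg_zero]

end

end TEP

open _root_.Pool.Agent.MG.G0.TEP in
theorem t_TEP (hMCB : Stmt_MCB) (hKBC : Stmt_KBC) : Stmt_TEP := by
  intro I A _ _ _ h W R hW hD hR
  subst hR
  have hinj : ∀ w ∈ W, (∀ i, w (Sum.inl i) = 0) → w = 0 := by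
    have h1 := ((hMCB.1 hW hD).2 (RingHom.id A)).2.2
    rw [hKBC.2.2.1 W] at h1
    exact h1
  have key : ∀ w : W, (∀ m < 0, ((w : KK (I ⊕ Unit) A) (Sum.inr ())).coeff m = 0) →
      ∃ f, iot W hinj f = w := by
    intro w hw
    refine ⟨⟨fun i => (w : KK (I ⊕ Unit) A) (Sum.inl i), w, w.2, fun _ => hw, fun _ => rfl⟩, ?_⟩
    exact Subtype.ext (Lift.uniq hinj (iot_spec W hinj _) ⟨w.2, hw, fun _ => rfl⟩)
  refine ⟨iot W hinj, ?_, fun f i => (iot_spec W hinj f).2.2 i,
    fun f m hm => (iot_spec W hinj f).2.1 m hm, key, ?_⟩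
  · intro f g hfg
    apply Subtype.ext
    funext i
    rw [← (iot_spec W hinj f).2.2 i, ← (iot_spec W hinj g).2.2 i, hfg]
  · intro M
    obtain ⟨y, hy, hyc⟩ := hD (fun _ => HahnSeries.single (-(M : ℤ)) (1 : A)) 0
    obtain ⟨s, hs, hsc⟩ := hD (fun _ => HahnSeries.single (M : ℤ) (1 : A)) (2 * (M : ℤ))
    have h1 := approx (hsc ()) (hyc ())
    have h2 : ∀ m < (M : ℤ), (s (Sum.inr ())).coeff m = 0 := by
      intro m hm
      rw [hsc () m (by omega), HahnSeries.coeff_single, if_neg (by omega)]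
    have h3 : ∀ m < (M : ℤ), ((1 - y * s : KK (I ⊕ Unit) A) (Sum.inr ())).coeff m = 0 := by
      intro m hm
      exact h1 m hm
    obtain ⟨f, hf⟩ := key ⟨s, hs⟩ fun m hm => h2 m (by omega)
    obtain ⟨g, hg⟩ := key ⟨1 - y * s, sub_mem (one_mem W) (mul_mem hy hs)⟩
      fun m hm => h3 m (by omega)
    refine ⟨2, ![f, g], ![⟨y, hy⟩, 1], ?_, ?_⟩
    · rw [Fin.sum_univ_two]
      change ⟨y, hy⟩ * iot W hinj f + 1 * iot W hinj g = 1
      rw [hf, hg]
      apply Subtype.ext
      change y * s + 1 * (1 - y * s) = 1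
      ring
    · intro k m hm
      fin_cases k
      · change ((iot W hinj f : KK (I ⊕ Unit) A) (Sum.inr ())).coeff m = 0
        rw [hf]
        exact h2 m hm
      · change ((iot W hinj g : KK (I ⊕ Unit) A) (Sum.inr ())).coeff m = 0
        rw [hg]
        exact h3 m hm

end Pool.Agent.MG.G0


end

section

/-!
# UAI: the branch points are algebraically independent
-/

open Polynomial

namespace Pool.Agent.MG.G0

namespace UAI

section one

variable {F k : Type} [Field F] [Field k] [Algebra F k]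

theorem prod_bnd {ι : Type} (s : Finset ι) (f : ι → k[X]) (d : ι → ℕ)
    (h : ∀ i ∈ s, (f i).natDegree ≤ d i) :
    (∏ i ∈ s, f i).natDegree ≤ ∑ i ∈ s, d i ∧
      (∏ i ∈ s, f i).coeff (∑ i ∈ s, d i) = ∏ i ∈ s, (f i).coeff (d i) := by
  classical
  induction s using Finset.induction_on with
  | empty => simp
  | insert a s ha ih =>
    obtain ⟨h1, h2⟩ := ih fun i hi => h i (Finset.mem_insert_of_mem hi)
    have h3 := h a (Finset.mem_insert_self a s)
    rw [Finset.prod_insert ha, Finset.sum_insert ha, Finset.prod_insert ha]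
    exact ⟨natDegree_mul_le.trans (add_le_add h3 h1), by
      rw [coeff_mul_add_eq_of_natDegree_le h3 h1, h2]⟩

theorem term {b : ℕ} (β α : Fin b → k) (s : Fin b →₀ ℕ) :
    (∏ i, (C (β i) + X * C (α i)) ^ s i).natDegree ≤ s.degree ∧
      (∏ i, (C (β i) + X * C (α i)) ^ s i).coeff s.degree = ∏ i, α i ^ s i := by
  have hd : s.degree = ∑ i, s i := Finsupp.degree_eq_sum s
  have h1 : ∀ i, (C (β i) + X * C (α i)).natDegree ≤ 1 := fun i => by
    refine (natDegree_add_le _ _).trans (max_le (by simp) ?_)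
    refine natDegree_mul_le.trans ?_
    rw [natDegree_X, natDegree_C]
  have h2 : ∀ i, ((C (β i) + X * C (α i)) ^ s i).natDegree ≤ s i := fun i => by
    refine natDegree_pow_le.trans ?_
    calc s i * _ ≤ s i * 1 := Nat.mul_le_mul_left _ (h1 i)
      _ = s i := mul_one _
  obtain ⟨h3, h4⟩ := prod_bnd Finset.univ (fun i => (C (β i) + X * C (α i)) ^ s i) (fun i => s i)
    fun i _ => h2 i
  rw [hd]
  refine ⟨h3, h4.trans (Finset.prod_congr rfl fun i _ => ?_)⟩
  have h5 := coeff_pow_of_natDegree_le (m := s i) (h1 i)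
  rw [mul_one] at h5
  rw [h5]
  simp [coeff_C]

theorem top {b : ℕ} (β α : Fin b → k) (G : MvPolynomial (Fin b) F) (D : ℕ)
    (hD : ∀ s ∈ G.support, s.degree ≤ D) :
    (MvPolynomial.aeval (fun l => C (β l) + X * C (α l)) G : k[X]).coeff D =
      MvPolynomial.aeval α (MvPolynomial.homogeneousComponent D G) := by
  rw [MvPolynomial.aeval_def, MvPolynomial.eval₂_eq', finsetSum_coeff,
    MvPolynomial.homogeneousComponent_apply, map_sum, Finset.sum_filter]
  refine Finset.sum_congr rfl fun s hs => ?_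
  obtain ⟨h1, h2⟩ := term β α s
  have h3 : algebraMap F k[X] (MvPolynomial.coeff s G) =
      C (algebraMap F k (MvPolynomial.coeff s G)) := rfl
  rw [h3, coeff_C_mul]
  split_ifs with h
  · rw [← h, h2, MvPolynomial.aeval_monomial, Finsupp.prod_fintype _ _ fun i => pow_zero _]
  · rw [coeff_eq_zero_of_natDegree_lt, mul_zero]
    exact lt_of_le_of_lt h1 (lt_of_le_of_ne (hD s hs) h)

theorem ind {b : ℕ} (β α : Fin b → k) (h : AlgebraicIndependent F α) (G : MvPolynomial (Fin b) F)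
    (hG : (MvPolynomial.aeval (fun l => C (β l) + X * C (α l)) G : k[X]) = 0) : G = 0 := by
  by_contra h0
  obtain ⟨s, hs, hm⟩ := Finset.exists_max_image G.support (fun s => s.degree)
    (MvPolynomial.support_nonempty.2 h0)
  have h1 := top β α G s.degree hm
  rw [hG, coeff_zero] at h1
  have h2 := (algebraicIndependent_iff.1 h) _ h1.symm
  have h3 := MvPolynomial.coeff_homogeneousComponent s.degree G s
  rw [h2, if_pos rfl, MvPolynomial.coeff_zero] at h3
  exact MvPolynomial.mem_support_iff.1 hs h3.symm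

end one

theorem part1 {F k L : Type} [Field F] [Field k] [Field L] [Algebra F k] [Algebra k L]
    [Algebra F L] [IsScalarTower F k L] {b d : ℕ} (β α : Fin b → k) (t : L) (hd : 0 < d)
    (hα : AlgebraicIndependent F α) (ht : Transcendental k t) :
    AlgebraicIndependent F fun l => algebraMap k L (β l) + t ^ d * algebraMap k L (α l) := by
  rw [algebraicIndependent_iff]
  intro G hG
  refine ind β α hα G ?_
  have ht' : Transcendental k (t ^ d) := ht.pow hd
  have h1 : Function.Injective (aeval (t ^ d) : k[X] →ₐ[k] L) := transcendental_iff_injective.1 ht'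
  refine h1 ?_
  rw [map_zero, ← hG]
  have h2 : ((aeval (t ^ d) : k[X] →ₐ[k] L).restrictScalars F).comp
      (MvPolynomial.aeval fun l => C (β l) + X * C (α l)) =
      MvPolynomial.aeval fun l => algebraMap k L (β l) + t ^ d * algebraMap k L (α l) := by
    ext l
    simp only [AlgHom.comp_apply, AlgHom.restrictScalars_apply, MvPolynomial.aeval_X, map_add,
      map_mul, aeval_C, aeval_X]
  exact DFunLike.congr_fun h2 G

theorem part2 (𝒰 : Ultrafilter ℕ) {k L : ℕ → Type} [∀ n, Field (k n)] [∀ n, Field (L n)]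
    [∀ n, Algebra (k n) (L n)] (t : ∀ n, L n) (ht : ∀ n, Transcendental (k n) (t n)) :
    letI : Algebra (Ul 𝒰 k) (Ul 𝒰 L) := (umap 𝒰 fun n => algebraMap (k n) (L n)).toAlgebra
    Transcendental (Ul 𝒰 k) (umk 𝒰 t) := by
  let _ : Algebra (Ul 𝒰 k) (Ul 𝒰 L) := (umap 𝒰 fun n => algebraMap (k n) (L n)).toAlgebra
  change Transcendental (Ul 𝒰 k) (umk 𝒰 t)
  rw [transcendental_iff]
  intro P hP
  choose p hp using fun i : ℕ => umk_surj 𝒰 (P.coeff i)
  have h1 : (aeval (umk 𝒰 t) P : Ul 𝒰 L) = umk 𝒰 fun n =>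
      ∑ i ∈ Finset.range (P.natDegree + 1), algebraMap (k n) (L n) (p i n) * t n ^ i := by
    have h2 : (fun n => ∑ i ∈ Finset.range (P.natDegree + 1),
        algebraMap (k n) (L n) (p i n) * t n ^ i) =
        ∑ i ∈ Finset.range (P.natDegree + 1),
          (fun n => algebraMap (k n) (L n) (p i n)) * t ^ i := by
      funext n
      simp [Finset.sum_apply]
    rw [h2, map_sum, aeval_eq_sum_range]
    refine Finset.sum_congr rfl fun i _ => ?_
    rw [map_mul, map_pow, Algebra.smul_def, ← hp i]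
    rfl
  rw [h1, umk_eq_zero] at hP
  ext j
  rw [coeff_zero]
  by_cases hj : j ≤ P.natDegree
  · rw [← hp j, umk_eq_zero]
    filter_upwards [hP] with n hn
    have h3 : (∑ i ∈ Finset.range (P.natDegree + 1), C (p i n) * X ^ i : (k n)[X]) = 0 := by
      refine (transcendental_iff.1 (ht n)) _ ?_
      rw [map_sum, ← hn]
      refine Finset.sum_congr rfl fun i _ => ?_
      rw [map_mul, aeval_C, map_pow, aeval_X]
    have h4 := congrArg (fun Q => Polynomial.coeff Q j) h3
    simp only [finsetSum_coeff, coeff_C_mul, coeff_X_pow, coeff_zero] at h4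
    rw [Finset.sum_eq_single j] at h4
    · simpa using h4
    · intro i _ hi
      rw [if_neg hi.symm, mul_zero]
    · intro h5
      exact absurd (Finset.mem_range.2 (by omega)) h5
  · exact coeff_eq_zero_of_natDegree_lt (by omega)

open scoped IntermediateField.algebraAdjoinAdjoin in
theorem part3 {F K : Type} [Field F] [Field K] [IsAlgClosed K] [Algebra F K] {b : ℕ}
    (v : Fin (b + 1) → K) (hv : AlgebraicIndependent F v) :
    ∃ (k₁ : Type) (_ : Field k₁) (_ : IsAlgClosed k₁) (_ : Algebra F k₁) (_ : Algebra k₁ K)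
      (_ : IsScalarTower F k₁ K) (ζ : k₁), algebraMap k₁ K ζ = v 0 ∧ Transcendental F ζ ∧
      AlgebraicIndependent k₁ fun l : Fin b => v l.succ := by
  have h1 : AlgebraicIndependent F (Sum.elim (fun l : Fin b => v l.succ) fun _ : Unit => v 0) := by
    have h2 := hv.comp (Sum.elim (fun l : Fin b => l.succ) fun _ : Unit => 0) (by
      rintro (i | i) (j | j) h
      · exact congrArg Sum.inl (Fin.succ_injective _ h)
      · exact absurd h (Fin.succ_ne_zero i)
      · exact absurd h.symm (Fin.succ_ne_zero j)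
      · rfl)
    have e : (Sum.elim (fun l : Fin b => v l.succ) fun _ : Unit => v 0) =
        v ∘ (Sum.elim (fun l : Fin b => l.succ) fun _ : Unit => 0) := by
      funext x
      rcases x with x | x <;> rfl
    rw [e]
    exact h2
  obtain ⟨_, h3⟩ := AlgebraicIndependent.sumElim_iff.1 h1
  set S : Set K := Set.range fun _ : Unit => v 0 with hS
  have h4 : Algebra.IsAlgebraic (Algebra.adjoin F S) (IntermediateField.adjoin F S) :=
    IsLocalization.isAlgebraic _ (nonZeroDivisors (Algebra.adjoin F S))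
  have h5 : AlgebraicIndependent (IntermediateField.adjoin F S) fun l : Fin b => v l.succ :=
    h3.extendScalars _
  have h6 := h5.algebraicClosure
  have h7 : v 0 ∈ IntermediateField.adjoin F S := IntermediateField.subset_adjoin F S ⟨(), rfl⟩
  have h9 : IsScalarTower F (algebraicClosure (IntermediateField.adjoin F S) K) K :=
    IsScalarTower.of_algebraMap_eq fun _ => rfl
  refine ⟨algebraicClosure (IntermediateField.adjoin F S) K, inferInstance,
    IsAlgClosure.isAlgClosed (IntermediateField.adjoin F S), inferInstance, inferInstance,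
    h9, algebraMap (IntermediateField.adjoin F S) _ ⟨v 0, h7⟩, rfl, ?_, h6⟩
  intro h8
  refine hv.transcendental 0 ?_
  exact h8.algebraMap

end UAI

/-- UAI: the branch points are algebraically independent. -/
theorem t_UAI : Stmt_UAI :=
  ⟨fun β α t hd hα ht => UAI.part1 β α t hd hα ht, fun 𝒰 _ _ _ _ _ t ht => UAI.part2 𝒰 t ht,
    fun v hv => UAI.part3 v hv⟩

end Pool.Agent.MG.G0


end

section

/-!
# UGD: models are good
-/

open Polynomial TensorProduct

namespace Pool.Agent.MG.G0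

namespace UGD

section

variable {O κ : Type} [CommRing O] [Field κ]

/-- Coprimality lifts from the residue field, for monic polynomials. -/
theorem coprime_lift (rs : O →+* κ) (hu : ∀ x, rs x ≠ 0 → IsUnit x) {f g : O[X]} (hf : f.Monic)
    (h : IsCoprime (f.map rs) (g.map rs)) : IsCoprime f g := by
  rw [← isUnit_resultant_iff_isCoprime hf]
  rw [← isUnit_resultant_iff_isCoprime (hf.map rs)] at h
  apply hu
  have h1 : (f.map rs).natDegree = f.natDegree := hf.natDegree_map rs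
  have hle : (g.map rs).natDegree ≤ g.natDegree := natDegree_map_le
  obtain ⟨k, hk⟩ := Nat.exists_eq_add_of_le hle
  have h2 := resultant_add_right_deg (f.map rs) (g.map rs) (f.map rs).natDegree
    (g.map rs).natDegree k le_rfl
  rw [(hf.map rs).coeff_natDegree, one_pow, one_mul, ← hk, h1, resultant_map_map] at h2
  rw [h2]
  rw [h1] at h
  exact h.ne_zero

/-- Separability of a monic polynomial lifts from the residue field. -/
theorem separable_lift (rs : O →+* κ) (hu : ∀ x, rs x ≠ 0 → IsUnit x) {f : O[X]} (hf : f.Monic)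
    (h : (f.map rs).Separable) : f.Separable := by
  refine coprime_lift rs hu hf ?_
  rw [← derivative_map]
  exact h

/-- The quadratic factor is separable. -/
theorem quad_separable {K : Type} [Field K] (h2 : (2 : K) ≠ 0) {s w : K} (hw : w ≠ 0) :
    ((X - C s) ^ 2 - C w : K[X]).Separable := by
  refine ⟨-C w⁻¹, C (w⁻¹ * 2⁻¹) * (X - C s), ?_⟩
  have e1 : derivative ((X - C s) ^ 2 - C w : K[X]) = C 2 * (X - C s) := by
    simp only [derivative_sub, derivative_pow, derivative_X, derivative_C, sub_zero, mul_one]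
    norm_num
  have e2 : (C w⁻¹ * C w : K[X]) = 1 := by
    rw [← C_mul, inv_mul_cancel₀ hw, C_1]
  have e3 : (C (w⁻¹ * 2⁻¹) * C 2 : K[X]) = C w⁻¹ := by
    rw [← C_mul, mul_assoc, inv_mul_cancel₀ h2, mul_one]
  rw [e1]
  linear_combination e2 + (X - C s) ^ 2 * e3

theorem quad_monic (s w : O) [Nontrivial O] : ((X - C s) ^ 2 - C w : O[X]).Monic := by
  refine ((monic_X_sub_C s).pow 2).sub_of_left ?_
  have h1 : ((X - C s : O[X]) ^ 2).natDegree = 2 := by
    rw [(monic_X_sub_C s).natDegree_pow, natDegree_X_sub_C, mul_one]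
  have h2 : 0 < ((X - C s : O[X]) ^ 2).degree :=
    natDegree_pos_iff_degree_pos.1 (by omega)
  exact degree_C_le.trans_lt h2

/-- The discriminant stays separable where the parameter of the node does not vanish. -/
theorem nod_separable [IsDomain O] {K : Type} [Field K] (h2 : (2 : K) ≠ 0) (rs : O →+* κ)
    (hu : ∀ x, rs x ≠ 0 → IsUnit x) {f h : O[X]} {s w : O} (hf : f.Monic)
    (e : f = ((X - C s) ^ 2 - C w) * h) (hw : rs w = 0) (hs : (h.map rs).Separable)
    (h0 : (h.map rs).eval (rs s) ≠ 0) (φ : O →+* K) (hφ : φ w ≠ 0) : (f.map φ).Separable := by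
  have hm : h.Monic := by
    rw [e] at hf
    exact (quad_monic s w).of_mul_monic_left hf
  have h3 : (h.map φ).Separable := (separable_lift rs hu hm hs).map
  have h4 : IsCoprime ((X - C s) ^ 2 - C w) h := by
    refine coprime_lift rs hu (quad_monic s w) ?_
    have e1 : ((X - C s) ^ 2 - C w : O[X]).map rs = (X - C (rs s)) ^ 2 := by
      rw [Polynomial.map_sub, Polynomial.map_pow, Polynomial.map_sub, map_X, map_C, map_C, hw,
        C_0, sub_zero]
    rw [e1]
    refine IsCoprime.pow_left ?_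
    refine ((Polynomial.irreducible_X_sub_C (rs s)).coprime_iff_not_dvd).2 fun h5 => h0 ?_
    exact Polynomial.dvd_iff_isRoot.1 h5
  have h5 : (((X - C s) ^ 2 - C w : O[X]).map φ).Separable := by
    have e1 : ((X - C s) ^ 2 - C w : O[X]).map φ = (X - C (φ s)) ^ 2 - C (φ w) := by
      rw [Polynomial.map_sub, Polynomial.map_pow, Polynomial.map_sub, map_X, map_C, map_C]
    rw [e1]
    exact quad_separable h2 hφ
  rw [e, Polynomial.map_mul]
  refine h5.mul h3 ?_
  exact h4.map (Polynomial.mapRingHom φ)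

end

section

variable {I A B : Type} [CommRing A] [CommRing B]

theorem kmap_mem_Om (φ : A →+* B) {P : Subalgebra A (KK I A)} {η : KK I A} (h : η ∈ Om P) :
    kmap φ η ∈ Om (bc φ P) := by
  rw [Om] at h
  induction h using Submodule.span_induction with
  | mem x hx =>
    obtain ⟨p, hp, f, hf, rfl⟩ := hx
    refine Submodule.subset_span ⟨kmap φ p, kmap_mem_bc φ hp, kmap φ f, kmap_mem_bc φ hf, ?_⟩
    rw [map_mul, kmap_dd]
  | zero =>
    rw [map_zero]
    exact zero_mem _
  | add x y _ _ hx hy =>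
    rw [map_add]
    exact add_mem hx hy
  | smul a x _ hx =>
    rw [kmap_smul]
    exact Submodule.smul_mem _ _ hx

theorem perp_le_om [Fintype I] [Nonempty I] (hPBC : Stmt_PBC) {g : ℕ}
    {P : Subalgebra A (KK I A)} (hP : IsKr g P) (h : Perp P ≤ Om P) (φ : A →+* B) :
    Perp (bc φ P) ≤ Om (bc φ P) := by
  rw [hPBC hP φ, Submodule.span_le]
  rintro _ ⟨η, hη, rfl⟩
  exact kmap_mem_Om φ (h hη)

/-- Evaluation at a formal point. -/
noncomputable def pa {P : Subalgebra A (KK I A)} (p : FPt P) : P →ₐ[A] A :=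
  { toRingHom := (PowerSeries.constantCoeff (R := A)).comp (p.h : P →+* PowerSeries A)
    commutes' := fun a => by
      change PowerSeries.constantCoeff (p.h (algebraMap A P a)) = a
      rw [AlgHom.commutes]
      exact PowerSeries.constantCoeff_C a }

theorem pa_apply {P : Subalgebra A (KK I A)} (p : FPt P) (f : P) : pa p f = p.ev f := rfl

theorem fs_bc [Fintype I] [Nonempty I] (hKBT : Stmt_KBT) {g : ℕ}
    {P : Subalgebra A (KK I A)} (hP : IsKr g P) (hS : Algebra.FormallySmooth A P) (φ : A →+* B) :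
    Algebra.FormallySmooth B (bc φ P) := by
  let _ : Algebra A B := φ.toAlgebra
  obtain ⟨-, e, -⟩ := hKBT (B := B) hP
  have h1 : Algebra.FormallySmooth B (B ⊗[A] P) := inferInstance
  exact Algebra.FormallySmooth.of_equiv e

theorem pa_ne [Nontrivial A] {P : Subalgebra A (KK I A)} {pt : Bool → FPt P} (hd : Disj pt) :
    pa (pt true) ≠ pa (pt false) := by
  intro h
  have h1 : (pt true).id = (pt false).id := by
    ext f
    rw [FPt.mem_id, FPt.mem_id, ← pa_apply, ← pa_apply, h]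
  have h2 := hd true false (by decide)
  rw [h1, sup_idem] at h2
  have h3 : (1 : P) ∈ (pt false).id := by
    rw [h2]
    exact Submodule.mem_top
  rw [FPt.mem_id, ← pa_apply, map_one] at h3
  exact one_ne_zero h3

theorem typeN_bc {κ κ' : Type} [Field κ] [Field κ'] [Fintype I] [Nonempty I] (hKBC : Stmt_KBC)
    (hKBT : Stmt_KBT) (hSBC : Stmt_SBC) (hAWB : Stmt_AWB) (hPL2 : Stmt_PL2) {g : ℕ}
    {R : Subalgebra κ (KK I κ)} (hR : IsKr g R) (hF : Algebra.FormallySmooth κ R)
    (hS : SmC κ R) (pt : Bool → FPt R) (hd : Disj pt) (ψ : κ →+* κ') :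
    TypeN (g + 1) (bc ψ (PT pt 0)) := by
  have hR' : IsKr g (bc ψ R) := (hKBC.2.2.2 hR ψ).1
  have hS' : SmC κ' (bc ψ R) := SDB.SmC_bc hKBT hSBC hR hS ψ
  have hF' := fs_bc hKBT hR hF ψ
  choose pt' hpt' using fun b => ((hAWB hR ψ).1 (pt b)).exists
  obtain ⟨hd', -, -⟩ := (hAWB hR ψ).2 hS pt pt' hpt' hd
  have h1 : PT pt' 0 = bc ψ (PT pt 0) := by
    have h2 := hPL2.1 hR hS pt hd 0 IsNilpotent.zero ψ pt' hpt'
    rwa [map_zero] at h2
  refine ⟨g, bc ψ R, pa (pt' true), pa (pt' false), rfl, hR', ⟨hF', hS'⟩, pa_ne hd', fun f => ?_⟩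
  rw [← h1, hPL2.2.2 hR' hS' pt' hd' f]
  constructor
  · rintro ⟨r, rfl, h2⟩
    exact ⟨r.2, h2⟩
  · rintro ⟨hf, h2⟩
    exact ⟨⟨f, hf⟩, rfl, h2⟩

end

section

variable {κ O L : Type} [Field κ] [CommRing O] [IsDomain O] [Field L] [Algebra κ O]
  [Algebra O L] {g d : ℕ} {R : Subalgebra L (LaurentSeries L)}

/-- A homomorphism which kills `π` factors through the residue field. -/
theorem factor (M : Mdl κ O L g d R) {K : Type} [Field K] (φ : O →+* K) (h : φ M.π = 0) :
    φ = (φ.comp (algebraMap κ O)).comp (M.rs : O →+* κ) := by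
  ext x
  have h1 : M.rs (x - algebraMap κ O (M.rs x)) = 0 := by
    rw [map_sub, AlgHom.commutes, Algebra.algebraMap_self, RingHom.id_apply, sub_self]
  obtain ⟨y, hy⟩ := M.ker _ h1
  have h2 : φ (x - algebraMap κ O (M.rs x)) = 0 := by
    rw [hy, map_mul, h, zero_mul]
  rw [map_sub, sub_eq_zero] at h2
  exact h2

/-- The reduction of the cofactor of the double factor. -/
theorem red_cofactor (M : Mdl κ O L g d R) {c : κ} {s₀ u : O} {h : O[X]} (hD : Dbl M.fb c)
    (hs : M.rs s₀ = c) (e : M.f = ((X - C s₀) ^ 2 - C (M.π ^ 2 * u)) * h) :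
    M.fb = (X - C c) ^ 2 * h.map (M.rs : O →+* κ) ∧ (h.map (M.rs : O →+* κ)).Separable := by
  have h1 : M.fb = (X - C c) ^ 2 * h.map (M.rs : O →+* κ) := by
    rw [Mdl.fb, e, Polynomial.map_mul, Polynomial.map_sub, Polynomial.map_pow,
      Polynomial.map_sub, map_X, map_C, map_C]
    have h2 : (M.rs : O →+* κ) s₀ = c := hs
    have h3 : (M.rs : O →+* κ) (M.π ^ 2 * u) = 0 := by
      rw [map_mul, map_pow]
      have h4 : (M.rs : O →+* κ) M.π = 0 := M.rsπ
      rw [h4, zero_pow two_ne_zero, zero_mul]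
    rw [h2, h3, C_0, sub_zero]
  refine ⟨h1, ?_⟩
  obtain ⟨h', h5, -, h6⟩ := hD
  have h7 : ((X - C c) ^ 2 : κ[X]) ≠ 0 := pow_ne_zero 2 (X_sub_C_ne_zero c)
  have h8 : h.map (M.rs : O →+* κ) = h' := mul_left_cancel₀ h7 (h1.symm.trans h5)
  rw [h8]
  exact h6

end

end UGD

open _root_.Pool.Agent.MG.G0.UGD in
/-- UGD (U2): models are good. -/
theorem t_UGD (hKBC : Stmt_KBC) (hPBC : Stmt_PBC) (hSBC : Stmt_SBC) (hKIL : Stmt_KIL)
    (hKIS : Stmt_KIS) (hMSM : Stmt_MSM) (hPL2 : Stmt_PL2) (hNPL : Stmt_NPL) (hUPO : Stmt_UPO)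
    (hSMO : Stmt_SMO) : Stmt_UGD := by
  have hKSP : Stmt_KSP := t_KSP t_KNZ
  have hKBT : Stmt_KBT := t_KBT hKSP hKBC
  have hAWK : Stmt_AWK := t_AWK t_KNZ hSBC (t_AYE t_KNZ (t_AID t_SCO (t_KFG t_KNZ hKSP)))
  have hAWB : Stmt_AWB := t_AWB hKBC hKBT t_KEQ hAWK
  intro κ O L _ _ _ _ _ _ _ _ g d R M hg hd hT
  have hd1 : 1 ≤ d := by omega
  have hfac : ((d.factorial : ℕ) : κ) ≠ 0 := by
    exact_mod_cast d.factorial_ne_zero
  obtain ⟨hKil, hDisc, hSm⟩ := hMSM M hd hfac
  have hkr : IsKr g (uno M.P) := M.kr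
  refine ⟨⟨hkr, fun κ' _ _ φ => ?_⟩, fun h => hSm inferInstance h⟩
  have hcz : CharZero κ' := (RingHom.charZero_iff (φ.comp (algebraMap κ O)).injective).1
    inferInstance
  have hfac' : ((d.factorial : ℕ) : κ') ≠ 0 := by
    exact_mod_cast d.factorial_ne_zero
  have hkr' : Kr g (bc1 φ M.P) := MSM.kr_bc1 hKBC M.kr φ
  have hz' : zz κ' d ∈ bc1 φ M.P := MSM.zz_bc1 M.z φ
  rcases hT with hT | ⟨c, s₀, u, h, hD, hG, hs, hu, e, h0⟩
  · left
    have h1 := perp_le_om hPBC hkr ((hUPO M hg hd).1 hT) φ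
    rw [bc_uno] at h1 ⊢
    exact hSMO hd1 hkr' hz' h1
  · obtain ⟨e1, hsep⟩ := red_cofactor M hD hs e
    by_cases hπ : φ M.π = 0
    · right
      have hfac2 := factor M φ hπ
      obtain ⟨g', rfl⟩ : ∃ g', g = g' + 1 := ⟨g - 1, by omega⟩
      have hbid : bc1 (RingHom.id κ) M.Pb = M.Pb := by
        have h2 := hKBC.2.2.1 (uno M.Pb)
        rw [bc_uno] at h2
        have h3 := congrArg duo h2
        rwa [duo_uno, duo_uno] at h3
      have hDb : Disc d M.Pb M.fb := hDisc (M.rs : O →+* κ) ⟨1, by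
        rw [pow_one]
        exact M.rsπ⟩
      obtain ⟨R', hR', hF', hS', -, pt, hpt, hPT⟩ := hNPL (A := κ) (AlgHom.id κ κ) (g := g')
        (d := d) (P := M.Pb) (h := h.map (M.rs : O →+* κ)) (s := c) (t := 0) ⟨1, by
          rw [pow_one]
          exact (RingHom.injective_iff_ker_eq_bot _).1 fun x y hxy => hxy⟩ (by
            have h4 : RingHom.ker ((AlgHom.id κ κ : κ →ₐ[κ] κ) : κ →+* κ) = ⊥ :=
              (RingHom.injective_iff_ker_eq_bot _).1 fun x y hxy => hxy
            rw [h4]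
            exact Submodule.fg_bot) hd hfac (MSM.kr_bc1 hKBC M.kr _) (MSM.zz_bc1 M.z _) (by
            rw [mul_zero, C_0, sub_zero, ← e1]
            exact hDb) rfl (by
            have h5 : (h.map (M.rs : O →+* κ)).map ((AlgHom.id κ κ : κ →ₐ[κ] κ) : κ →+* κ) =
                h.map (M.rs : O →+* κ) := Polynomial.map_id
            rw [h5]
            exact hsep) (by
            have h5 : (h.map (M.rs : O →+* κ)).map ((AlgHom.id κ κ : κ →ₐ[κ] κ) : κ →+* κ) =
                h.map (M.rs : O →+* κ) := Polynomial.map_id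
            rw [h5]
            exact h0) (by
            have h6 : bc1 ((AlgHom.id κ κ : κ →ₐ[κ] κ) : κ →+* κ) M.Pb = M.Pb := hbid
            rw [h6]
            exact hG)
      have h7 := typeN_bc hKBC hKBT hSBC hAWB hPL2 hR' hF' hS' pt hpt
        (φ.comp (algebraMap κ O))
      rw [hPT] at h7
      have h8 : bc φ (uno M.P) = bc (φ.comp (algebraMap κ O)) (uno M.Pb) := by
        conv_lhs => rw [hfac2]
        rw [hKBC.2.1, Mdl.Pb, bc_uno]
      rw [h8]
      exact h7
    · left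
      have h2 : (2 : κ') ≠ 0 := two_ne_zero
      have hw : φ (M.π ^ 2 * u) ≠ 0 := by
        rw [map_mul, map_pow]
        exact mul_ne_zero (pow_ne_zero 2 hπ) (hu.map φ).ne_zero
      have hw0 : (M.rs : O →+* κ) (M.π ^ 2 * u) = 0 := by
        rw [map_mul, map_pow]
        have h4 : (M.rs : O →+* κ) M.π = 0 := M.rsπ
        rw [h4, zero_pow two_ne_zero, zero_mul]
      have h3 : (M.f.map φ).Separable := nod_separable h2 (M.rs : O →+* κ) M.unit M.monic e hw0
        hsep (by
          have h5 : (M.rs : O →+* κ) s₀ = c := hs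
          rw [h5]
          exact h0) φ hw
      have h4 := hKIS hd1 hfac' hkr' hz' (hKIL.2.1 φ M.kr hKil) h3
      rw [bc_uno]
      exact h4

end Pool.Agent.MG.G0


end
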