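import Mathlib.FieldTheory.IsAlgClosed.Basic
import Mathlib.LinearAlgebra.FreeModule.Finite.Matrix
import Mathlib.RingTheory.AdjoinRoot
import Pool.Agent.KDM.C08
import Pool.Agent.KDM.C15
import Pool.Agent.KDM.C22
import Pool.Agent.KDM.C24
import Pool.Agent.KDM.C25
import Pool.Agent.KDM.C26
import Pool.Agent.KDM.C28
import Pool.Agent.KDM.C30
import Pool.Agent.KDM.C31
import Pool.Agent.KDM.C33
import Pool.Agent.KDM.C54
import Pool.Agent.KDM.C56

/-! Parts: MG.WL.ALGF, MG.WL.CL.CUSP, MG.WL.DSC, MG.KX.KSN, MG.KX.XAR, MG.G0.PL2, MG.G0.TG.TCF, MG.G0.TG.TCN -/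

section

/-!
# ALGF: the graph trick, algebra
-/

namespace Pool.Agent.MG.WL

namespace ALGF

open Polynomial

section

variable {Q S : Type} [CommRing Q] [CommRing S] (j : Q →+* S) (h : S)

/-- `τ_n p = ∑_k p_{n + k} h ^ k`. -/
noncomputable def tau (n : ℕ) (p : Q[X]) : S := eval₂ j h (divX^[n] p)

theorem tau_zero (p : Q[X]) : tau j h 0 p = eval₂ j h p := rfl

theorem tau_succ (n : ℕ) (p : Q[X]) : tau j h (n + 1) p = tau j h n (divX p) := rfl

theorem tau_add (n : ℕ) (p q : Q[X]) : tau j h n (p + q) = tau j h n p + tau j h n q := by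
  induction n generalizing p q with
  | zero => simp [tau_zero]
  | succ n ih => rw [tau_succ, divX_add, ih, ← tau_succ, ← tau_succ]

theorem tau_C_mul (n : ℕ) (a : Q) (p : Q[X]) : tau j h n (C a * p) = j a * tau j h n p := by
  induction n generalizing p with
  | zero => simp [tau_zero, eval₂_mul]
  | succ n ih => rw [tau_succ, divX_C_mul, ih, ← tau_succ]

/-- `τ_n` as an additive homomorphism. -/
noncomputable def tauHom (n : ℕ) : Q[X] →+ S where
  toFun := tau j h n
  map_zero' := by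
    have h1 := tau_add j h n 0 0
    rw [add_zero] at h1
    exact left_eq_add.1 h1
  map_add' := tau_add j h n

theorem tau_sub (n : ℕ) (p q : Q[X]) : tau j h n (p - q) = tau j h n p - tau j h n q :=
  map_sub (tauHom j h n) p q

theorem tau_sum {ι : Type*} (s : Finset ι) (n : ℕ) (p : ι → Q[X]) :
    tau j h n (∑ i ∈ s, p i) = ∑ i ∈ s, tau j h n (p i) :=
  map_sum (tauHom j h n) p s

theorem tau_X_mul (n : ℕ) (p : Q[X]) : tau j h (n + 1) (X * p) = tau j h n p := by
  rw [tau_succ]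
  congr 1
  ext k
  rw [coeff_divX, coeff_X_mul]

theorem tau_X_pow_mul (n k : ℕ) (p : Q[X]) : tau j h (n + k) (X ^ k * p) = tau j h n p := by
  induction k with
  | zero => simp
  | succ k ih => rw [pow_succ', mul_assoc, ← add_assoc, tau_X_mul, ih]

theorem tau_eq (n : ℕ) (p : Q[X]) : tau j h n p = j (p.coeff n) + h * tau j h (n + 1) p := by
  induction n generalizing p with
  | zero =>
    conv_lhs => rw [← divX_mul_X_add p]
    rw [tau_zero, eval₂_add, eval₂_mul, eval₂_X, eval₂_C, tau_succ, tau_zero]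
    ring
  | succ n ih =>
    rw [tau_succ, ih, coeff_divX, tau_succ _ _ (n + 1) p]

theorem tau_big {n : ℕ} {p : Q[X]} (hn : p.natDegree < n) : tau j h n p = 0 := by
  induction n generalizing p with
  | zero => omega
  | succ n ih =>
    rw [tau_succ]
    rcases Nat.eq_zero_or_pos p.natDegree with h0 | h0
    · rw [natDegree_eq_zero] at h0
      obtain ⟨a, rfl⟩ := h0
      rw [divX_C]
      exact map_zero (tauHom j h n)
    · refine ih ?_
      rw [natDegree_divX_eq_natDegree_tsub_one]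
      omega

/-- `τ` kills multiples of `β X - α` up to `Q`. -/
theorem tau_mul (α β : Q) (hh : j β * h = j α) (n : ℕ) (u : Q[X]) :
    tau j h (n + 1) ((C β * X - C α) * u) = j (β * u.coeff n) := by
  rw [sub_mul, tau_sub, mul_assoc, tau_C_mul, tau_C_mul, tau_X_mul, tau_eq, ← hh, map_mul]
  ring

/-- `H_n g = ∑_{k ≤ n} g_k h ^ (n - k)`. -/
noncomputable def hom (n : ℕ) (g : S[X]) : S :=
  ∑ k ∈ Finset.range (n + 1), g.coeff k * h ^ (n - k)

theorem hom_succ (n : ℕ) (g : S[X]) : hom h (n + 1) g = h * hom h n g + g.coeff (n + 1) := by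
  rw [hom, Finset.sum_range_succ, Nat.sub_self, pow_zero, mul_one, hom, Finset.mul_sum]
  congr 1
  refine Finset.sum_congr rfl fun k hk => ?_
  rw [Finset.mem_range] at hk
  rw [show n + 1 - k = (n - k) + 1 by omega, pow_succ]
  ring

theorem hom_kill (n : ℕ) (u : S[X]) : hom h n ((C h * X - 1) * u) = - u.coeff n := by
  induction n with
  | zero => simp [hom, mul_coeff_zero]
  | succ n ih =>
    rw [hom_succ, ih, sub_mul, one_mul, mul_assoc, coeff_sub, coeff_C_mul, coeff_X_mul]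
    ring

theorem hom_sub (n : ℕ) (g g' : S[X]) : hom h n (g - g') = hom h n g - hom h n g' := by
  simp only [hom, coeff_sub, sub_mul, Finset.sum_sub_distrib]

theorem hom_C (n : ℕ) (s : S) : hom h n (C s) = s * h ^ n := by
  rw [hom, Finset.sum_eq_single 0]
  · simp
  · intro k _ hk
    rw [coeff_C, if_neg hk, zero_mul]
  · simp

/-- The reversed polynomial. -/
noncomputable def rev (n : ℕ) (q : Q[X]) : Q[X] :=
  ∑ k ∈ Finset.range (n + 1), C (q.coeff k) * X ^ (n - k)

theorem eval_rev (n : ℕ) (q : Q[X]) : eval₂ j h (rev n q) = hom h n (q.map j) := by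
  rw [rev, hom, eval₂_finsetSum]
  refine Finset.sum_congr rfl fun k _ => ?_
  rw [eval₂_mul, eval₂_C, eval₂_X_pow, coeff_map]

theorem tau_rev (n : ℕ) (q : Q[X]) : tau j h n (rev n q) = j (q.coeff 0) := by
  rw [rev, tau_sum, Finset.sum_eq_single 0]
  · rw [Nat.sub_zero, tau_C_mul]
    have := tau_X_pow_mul j h 0 n 1
    rw [zero_add, mul_one] at this
    rw [this, tau_zero, eval₂_one, mul_one]
  · intro k hk h0
    rw [Finset.mem_range] at hk
    rw [tau_C_mul]
    have := tau_X_pow_mul j h k (n - k) 1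
    rw [mul_one, show k + (n - k) = n by omega] at this
    rw [this, tau_big _ _ (by rw [natDegree_one]; omega), mul_zero]
  · simp

theorem hom_map (j : Q →+* S) (h : Q) (n : ℕ) (g : Q[X]) : hom (j h) n (g.map j) = j (hom h n g) := by
  simp [hom]

end

variable {B : Type} [CommRing B] {ι : Type} (D : SRings B ι)

/-- The trivial elements and the combinations of the `e`. -/
def M {J : Type} [Fintype J] (e : J → ∀ i, D.S i) : AddSubgroup (∀ i, D.S i) where
  carrier := {s | ∃ (c : J → B) (r : D.R) (q : ∀ i, D.Q i),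
    ∀ i, s i = ∑ l, D.cs i (c l) * e l i + D.jr i r + D.jq i (q i)}
  zero_mem' := ⟨0, 0, 0, fun i => by simp⟩
  add_mem' := by
    rintro s s' ⟨c, r, q, hs⟩ ⟨c', r', q', hs'⟩
    refine ⟨c + c', r + r', q + q', fun i => ?_⟩
    simp only [Pi.add_apply, hs, hs', map_add, add_mul, Finset.sum_add_distrib]
    ring
  neg_mem' := by
    rintro s ⟨c, r, q, hs⟩
    refine ⟨-c, -r, -q, fun i => ?_⟩
    simp only [Pi.neg_apply, hs, map_neg, neg_mul, Finset.sum_neg_distrib]
    ring

variable {D} {J : Type} [Fintype J] {e : J → ∀ i, D.S i}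

theorem mem_r (r : D.R) : (fun i => D.jr i r) ∈ M D e := ⟨0, r, 0, fun i => by simp⟩

theorem mem_q (q : ∀ i, D.Q i) : (fun i => D.jq i (q i)) ∈ M D e := ⟨0, 0, q, fun i => by simp⟩

theorem mem_e (b : B) (l : J) : (fun i => D.cs i b * e l i) ∈ M D e := by
  classical
  refine ⟨fun l' => if l' = l then b else 0, 0, 0, fun i => ?_⟩
  rw [Finset.sum_eq_single l]
  · simp
  · intro l' _ hl
    simp [hl]
  · simp

theorem main (h : D.R) (α β : ∀ i, D.Q i) [Finite ι]
    (hh : ∀ i, D.jq i (β i) * D.jr i h = D.jq i (α i))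
    (G0 : D.Geo (X - C h) (fun i => C (β i) * X - C (α i)))
    (G1 : D.Geo (C h * X - 1) (fun i => C (α i) * X - C (β i))) :
    ∃ (J : Type) (_ : Fintype J) (e : J → ∀ i, D.S i), ∀ s, s ∈ M D e := by
  classical
  have := Fintype.ofFinite ι
  obtain ⟨⟨m, e, e', he, hG⟩, hs0⟩ := G0
  have hev : ∀ (i) (r : Polynomial D.R) (q : Polynomial (D.Q i)), r.map (D.jr i) - q.map (D.jq i) ∈
      Ideal.span {(X - C h : Polynomial D.R).map (D.jr i)} →
      eval₂ (D.jq i) (D.jr i h) q = D.jr i (r.eval h) := by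
    intro i r q hrq
    rw [Ideal.mem_span_singleton] at hrq
    obtain ⟨u, hu⟩ := hrq
    have h1 := congrArg (eval (D.jr i h)) hu
    rw [eval_sub, eval_mul, Polynomial.map_sub, map_X, map_C, eval_sub, eval_X, eval_C, sub_self,
      zero_mul, sub_eq_zero, eval_map, eval_map, eval₂_hom] at h1
    exact h1.symm
  -- a bound for the degrees
  obtain ⟨L, hL⟩ : ∃ L, ∀ j i, (e' j i).natDegree ≤ L :=
    ⟨∑ j, ∑ i, (e' j i).natDegree, fun j i =>
      (Finset.single_le_sum (f := fun i => (e' j i).natDegree) (fun _ _ => Nat.zero_le _)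
        (Finset.mem_univ i)).trans
      (Finset.single_le_sum (f := fun j => ∑ i, (e' j i).natDegree) (fun _ _ => Nat.zero_le _)
        (Finset.mem_univ j))⟩
  let E : Fin m × Fin L → ∀ i, D.S i := fun jl i =>
    tau (D.jq i) (D.jr i h) (jl.2 + 1) (e' jl.1 i)
  refine ⟨Fin m × Fin L, inferInstance, E, ?_⟩
  -- the values of `τ` on the multiples of the generators
  have key : ∀ (n : ℕ) (j : Fin m) (c : Polynomial B),
      (fun i => tau (D.jq i) (D.jr i h) n (c.map (D.cq i) * e' j i)) ∈ M D E := by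
    intro n j c
    induction c using Polynomial.induction_on' with
    | add p q hp hq =>
      have := add_mem hp hq
      convert this using 1
      funext i
      rw [Pi.add_apply, Polynomial.map_add, add_mul, tau_add]
    | monomial k b =>
      have h1 : (fun i => tau (D.jq i) (D.jr i h) n ((monomial k b).map (D.cq i) * e' j i)) =
          fun i => D.cs i b * tau (D.jq i) (D.jr i h) n (X ^ k * e' j i) := by
        funext i
        rw [map_monomial, ← C_mul_X_pow_eq_monomial, mul_assoc, tau_C_mul, D.hq]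
      rw [h1]
      rcases Nat.lt_or_ge k n with hk | hk
      · obtain ⟨d, rfl⟩ := Nat.exists_eq_add_of_lt hk
        have h2 : ∀ i, tau (D.jq i) (D.jr i h) (k + d + 1) (X ^ k * e' j i) =
            tau (D.jq i) (D.jr i h) (d + 1) (e' j i) := by
          intro i
          rw [show k + d + 1 = (d + 1) + k by omega, tau_X_pow_mul]
        simp only [h2]
        rcases Nat.lt_or_ge d L with hd | hd
        · exact mem_e b (⟨j, ⟨d, hd⟩⟩ : Fin m × Fin L)
        · have h3 : (fun i => D.cs i b * tau (D.jq i) (D.jr i h) (d + 1) (e' j i)) = 0 := by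
            funext i
            rw [tau_big _ _ (by have := hL j i; omega), mul_zero]
            rfl
          rw [h3]
          exact zero_mem _
      · obtain ⟨d, rfl⟩ := Nat.exists_eq_add_of_le hk
        have h2 : (fun i => D.cs i b * tau (D.jq i) (D.jr i h) n (X ^ (n + d) * e' j i)) =
            fun i => D.jr i (D.cr b * (h ^ d * (e j).eval h)) := by
          funext i
          have h3 := tau_X_pow_mul (D.jq i) (D.jr i h) 0 n (X ^ d * e' j i)
          rw [zero_add, ← mul_assoc, ← pow_add, tau_zero, eval₂_mul, eval₂_X_pow,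
            hev i (e j) (e' j i) (he j i)] at h3
          rw [h3, map_mul, map_mul, map_pow, D.hr]
        rw [h2]
        exact mem_r _
  -- values of polynomials over `Q`
  have key2 : ∀ p : ∀ i, Polynomial (D.Q i), (fun i => eval₂ (D.jq i) (D.jr i h) (p i)) ∈ M D E := by
    intro p
    obtain ⟨r, q, hrq⟩ := G1.2 (fun i => C (eval₂ (D.jq i) (D.jr i h) (p i)))
    simp only [Ideal.mem_span_singleton'] at hrq
    choose u hu using hrq
    obtain ⟨n, hn⟩ : ∃ n, ∀ i, (u i).natDegree ≤ n :=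
      ⟨∑ i, (u i).natDegree, fun i =>
        Finset.single_le_sum (f := fun i => (u i).natDegree) (fun _ _ => Nat.zero_le _)
          (Finset.mem_univ i)⟩
    have h1 : ∀ i, eval₂ (D.jq i) (D.jr i h) (X ^ (n + 1) * p i - rev (n + 1) (q i)) =
        D.jr i (hom h (n + 1) r) := by
      intro i
      have h2 := congrArg (hom (D.jr i h) (n + 1)) (hu i)
      rw [Polynomial.map_sub, Polynomial.map_mul, map_C, map_X, Polynomial.map_one, mul_comm,
        hom_kill, coeff_eq_zero_of_natDegree_lt (by have := hn i; omega), neg_zero, hom_sub,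
        hom_sub, hom_C, hom_map, ← eval_rev] at h2
      rw [eval₂_sub, eval₂_mul, eval₂_X_pow]
      linear_combination -h2
    obtain ⟨c, -, hc⟩ := hG (C (hom h (n + 1) r)) (fun i => X ^ (n + 1) * p i - rev (n + 1) (q i))
      (fun i => by
        rw [Polynomial.map_sub, map_X, map_C, map_C, Ideal.mem_span_singleton,
          dvd_iff_isRoot, IsRoot.def, eval_sub, eval_C, eval_map, h1, sub_self])
    simp only [Ideal.mem_span_singleton'] at hc
    choose w hw using hc
    have h2 : (fun i => eval₂ (D.jq i) (D.jr i h) (p i)) =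
        (∑ j, fun i => tau (D.jq i) (D.jr i h) (n + 1) ((c j).map (D.cq i) * e' j i)) +
        (fun i => D.jq i (β i * (w i).coeff n + (q i).coeff 0)) := by
      funext i
      have h3 := congrArg (tau (D.jq i) (D.jr i h) (n + 1)) (hw i)
      rw [mul_comm, tau_mul _ _ _ _ (hh i), tau_sub, tau_sub, tau_rev, tau_sum] at h3
      have h4 := tau_X_pow_mul (D.jq i) (D.jr i h) 0 (n + 1) (p i)
      rw [zero_add, tau_zero] at h4
      rw [h4] at h3
      rw [Pi.add_apply, Finset.sum_apply, map_add, h3]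
      ring
    rw [h2]
    exact add_mem (sum_mem fun j _ => key _ j _) (mem_q _)
  intro s
  obtain ⟨r, q, hrq⟩ := hs0 (fun i => C (s i))
  have h1 : s = (fun i => D.jr i (r.eval h)) + fun i => eval₂ (D.jq i) (D.jr i h) (q i) := by
    funext i
    have h2 := hrq i
    rw [Ideal.mem_span_singleton] at h2
    obtain ⟨u, hu⟩ := h2
    have h3 := congrArg (eval (D.jr i h)) hu
    rw [eval_sub, eval_sub, eval_mul, Polynomial.map_sub, map_X, map_C, eval_sub, eval_X, eval_C,
      eval_C, sub_self, zero_mul, eval_map, eval_map, eval₂_hom] at h3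
    rw [Pi.add_apply]
    linear_combination h3
  rw [h1]
  exact add_mem (mem_r _) (key2 _)

end ALGF

theorem t_ALGF : Stmt_ALGF := by
  intro B _ ι _ D h α β _ hh G0 G1
  obtain ⟨J, hJ, e, he⟩ := ALGF.main h α β hh G0 G1
  let E := Fintype.equivFin J
  refine ⟨Fintype.card J, fun l => e (E.symm l), fun s => ?_⟩
  obtain ⟨c, r, q, hs⟩ := he s
  refine ⟨fun l => c (E.symm l), r, q, fun i => ?_⟩
  rw [hs, Equiv.sum_comp E.symm (fun l => D.cs i (c l) * e l i)]

end Pool.Agent.MG.WL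


end

section

/-!
# The Euler vector field on the cuspidal cubic
-/

open CategoryTheory CategoryTheory.Limits AlgebraicGeometry IsLocalRing TopologicalSpace
open Pool.Agent.MG.Two Pool.Agent.MG.W Pool.Agent.MG.W.W0 Pool.Agent.MG.One

namespace Pool.Agent.MG.WL.CL

namespace CUSP_

section frac

variable {X : Scheme.{0}} [IsIntegral X]

/-- A function which is regular at `x` as a fraction. -/
theorem frac {V : X.Opens} (hV : IsAffineOpen V) [Nonempty V] (x : X) (hx : x ∈ V)
    (f : X.functionField) (hf : f ∈ O x) : ∃ a b : Γ(X, V), x ∈ X.basicOpen b ∧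
      f * X.germToFunctionField V b = X.germToFunctionField V a := by
  obtain ⟨U, hxU, hne, s, hs⟩ := (mem_dom_iff' f x).mp hf
  obtain ⟨b, hbU, hxb⟩ := hV.exists_basicOpen_le ⟨x, hxU⟩ hx
  have hne2 : Nonempty (X.basicOpen b) := ⟨⟨x, hxb⟩⟩
  have hloc : IsLocalization.Away b Γ(X, X.basicOpen b) := hV.isLocalization_basicOpen b
  obtain ⟨n, a, ha⟩ := IsLocalization.Away.surj b (rs X hbU s)
  have h1 := congrArg (X.germToFunctionField (X.basicOpen b)) ha
  have h2 : ∀ u : Γ(X, V), algebraMap Γ(X, V) Γ(X, X.basicOpen b) u =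
      rs X (X.basicOpen_le b) u := fun u => rfl
  rw [h2, h2, map_mul, map_pow, germ_rs, germ_rs, germ_rs, hs] at h1
  refine ⟨a * b, b ^ (n + 1), ?_, ?_⟩
  · rw [Scheme.mem_basicOpen X _ x hx] at hxb ⊢
    rw [map_pow]
    exact hxb.pow _
  · rw [map_pow, map_mul, ← h1]
    ring

theorem germ_ne_zero {V : X.Opens} [Nonempty V] (x : X) (hx : x ∈ V) (b : Γ(X, V))
    (hb : x ∈ X.basicOpen b) : X.germToFunctionField V b ≠ 0 := by
  rw [Scheme.mem_basicOpen X _ x hx] at hb
  have h1 := hb.map (algebraMap (X.presheaf.stalk x) X.functionField)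
  rw [Scheme.algebraMap_germ_eq_germToFunctionField (X := X) hx b] at h1
  exact h1.ne_zero

end frac

section mk

variable {k : Type} [Field k] {n : ℕ} (C : Fam n k) [IsIntegral C.X]
  (δ : C.X.functionField → C.X.functionField)

theorem ex_D (h : FDer C.π δ) (U : C.X.Opens) [Nonempty U] (a : Γ(C.X, U)) :
    ∃ r : Γ(C.X, U), C.X.germToFunctionField U r = δ (C.X.germToFunctionField U a) :=
  exists_sec _ fun p hp => h.reg p _ (germ_mem_O p hp a)

open Classical in
/-- The derivation of the functions on `U`. -/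
noncomputable def DD (h : FDer C.π δ) (U : C.X.Opens) (a : Γ(C.X, U)) : Γ(C.X, U) :=
  if hU : Nonempty U then (ex_D C δ h U a).choose else 0

theorem germ_DD (h : FDer C.π δ) (U : C.X.Opens) [hU : Nonempty U] (a : Γ(C.X, U)) :
    C.X.germToFunctionField U (DD C δ h U a) = δ (C.X.germToFunctionField U a) := by
  rw [DD, dif_pos hU]
  exact (ex_D C δ h U a).choose_spec

theorem DD_empty (h : FDer C.π δ) (U : C.X.Opens) (hU : ¬ Nonempty U) (a : Γ(C.X, U)) :
    DD C δ h U a = 0 := by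
  rw [DD, dif_neg hU]

theorem sub_of_empty {X : Scheme.{0}} (U : X.Opens) (hU : ¬ Nonempty U) :
    Subsingleton Γ(X, U) := by
  have h1 : U = ⊥ := by
    ext x
    constructor
    · intro hx
      exact (hU ⟨⟨x, hx⟩⟩).elim
    · intro hx
      exact hx.elim
  subst h1
  exact CommRingCat.subsingleton_of_isTerminal X.sheaf.isTerminalOfEmpty

/-- The vector field. -/
noncomputable def mkV (h : FDer C.π δ)
    (hs : ∀ (U : C.X.Opens) (i : Fin n) (a : Γ(C.X, U)), (C.σ i).app U (DD C δ h U a) = 0) :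
    VField C where
  D U := AddMonoidHom.mk' (DD C δ h U) (by
    intro a b
    by_cases hU : Nonempty U
    · apply C.X.germToFunctionField_injective U
      rw [map_add, germ_DD, germ_DD, germ_DD, map_add, h.add]
    · rw [DD_empty _ _ _ _ hU, DD_empty _ _ _ _ hU, DD_empty _ _ _ _ hU, add_zero])
  mul U a b := by
    show DD C δ h U (a * b) = a * DD C δ h U b + b * DD C δ h U a
    by_cases hU : Nonempty U
    · apply C.X.germToFunctionField_injective U
      rw [map_add, map_mul, map_mul, germ_DD, germ_DD, germ_DD, map_mul, h.mul]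
    · rw [DD_empty _ _ _ _ hU, DD_empty _ _ _ _ hU, DD_empty _ _ _ _ hU, mul_zero, mul_zero,
        add_zero]
  const U c := by
    show DD C δ h U _ = 0
    by_cases hU : Nonempty U
    · apply C.X.germToFunctionField_injective U
      rw [germ_DD, germ_coef, h.const, map_zero]
    · rw [DD_empty _ _ _ _ hU]
  res U V hUV a := by
    show DD C δ h U (rs C.X hUV a) = rs C.X hUV (DD C δ h V a)
    by_cases hU : Nonempty U
    · have hV : Nonempty V := ⟨⟨hU.some.1, hUV hU.some.2⟩⟩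
      apply C.X.germToFunctionField_injective U
      rw [germ_DD, germ_rs, germ_rs, germ_DD]
    · have := sub_of_empty U hU
      exact Subsingleton.elim _ _
  sec U i a := hs U i a

end mk

section charts

variable {A : Type} [CommRing A] {k : Type} [Field k] {n : ℕ} {C : Fam n k} [IsIntegral C.X]
  (i : Sp A ⟶ C.X) [IsOpenImmersion i]

omit [IsIntegral C.X] in
theorem ne_range [Nontrivial A] : Nonempty i.opensRange := by
  obtain ⟨p⟩ := (inferInstance : Nonempty (PrimeSpectrum A))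
  exact ⟨⟨i p, ⟨p, rfl⟩⟩⟩

/-- The functions of a chart as rational functions. -/
noncomputable def rr [Nonempty i.opensRange] : A →+* C.X.functionField :=
  (C.X.germToFunctionField i.opensRange).hom.comp ((WRI.ev i).symm : A →+* Γ(C.X, i.opensRange))

theorem rr_ev [Nonempty i.opensRange] (u : Γ(C.X, i.opensRange)) :
    rr i (WRI.ev i u) = C.X.germToFunctionField i.opensRange u := by
  show C.X.germToFunctionField i.opensRange ((WRI.ev i).symm (WRI.ev i u)) = _
  rw [RingEquiv.symm_apply_apply]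

theorem rr_apply [Nonempty i.opensRange] (a : A) :
    rr i a = C.X.germToFunctionField i.opensRange ((WRI.ev i).symm a) := rfl

theorem rr_const [Nonempty i.opensRange] (ψ : k →+* A) (hψ : i ≫ C.π = spMap ψ) (c : k) :
    rr i (ψ c) = kfun C.π c := by
  have h : (WRI.ev i).symm (ψ c) = coef C.π i.opensRange c := by
    rw [RingEquiv.symm_apply_eq, WRI.ev_apply]
    exact (evO_coef i C.π ψ hψ (range_pre i) c).symm
  rw [rr_apply, h, germ_coef]

/-- Compatibility with restriction. -/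
theorem rr_comp {A' : Type} [CommRing A'] (g : A →+* A') (j : Sp A' ⟶ C.X)
    [IsOpenImmersion j] (hj : j = spMap g ≫ i) [Nonempty i.opensRange] [Nonempty j.opensRange]
    (f : A) : rr j (g f) = rr i f := by
  subst hj
  have hle : (spMap g ≫ i).opensRange ≤ i.opensRange := by
    rintro _ ⟨p, rfl⟩
    exact ⟨spMap g p, by simp⟩
  have hr : ∀ u : Γ(C.X, i.opensRange), WRI.ev (spMap g ≫ i) (rs C.X hle u) =
      g (WRI.ev i u) := by
    intro u
    have h' : ⊤ ≤ (spMap g ≫ i) ⁻¹ᵁ i.opensRange := by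
      intro p _
      exact ⟨spMap g p, by simp⟩
    rw [WRI.ev_apply, WRI.ev_apply, evO_rs (spMap g ≫ i) hle (range_pre _) h' u]
    exact evO_spMap i g (range_pre i) h' u
  have h1 : (WRI.ev (spMap g ≫ i)).symm (g f) = rs C.X hle ((WRI.ev i).symm f) := by
    rw [RingEquiv.symm_apply_eq, hr, RingEquiv.apply_symm_apply]
  rw [rr_apply, rr_apply, h1, germ_rs]

end charts

/-- A derivation maps the functions of a chart to an ideal. -/
theorem closed {k K : Type} [Field k] [Field K] (I : Ideal (MvPolynomial (Fin 2) k))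
    (r : (MvPolynomial (Fin 2) k ⧸ I) →+* K) (δ : K → K)
    (ha : ∀ f g, δ (f + g) = δ f + δ g) (hm : ∀ f g, δ (f * g) = f * δ g + g * δ f)
    (J : Ideal (MvPolynomial (Fin 2) k ⧸ I))
    (hc : ∀ c : k, δ (r (algebraMap k _ c)) = 0)
    (h0 : ∃ a ∈ J, δ (r (Ideal.Quotient.mk I (MvPolynomial.X 0))) = r a)
    (h1 : ∃ a ∈ J, δ (r (Ideal.Quotient.mk I (MvPolynomial.X 1))) = r a)
    (v : MvPolynomial (Fin 2) k ⧸ I) : ∃ a ∈ J, δ (r v) = r a := by
  obtain ⟨p, rfl⟩ := Ideal.Quotient.mk_surjective v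
  induction p using MvPolynomial.induction_on with
  | C c => exact ⟨0, J.zero_mem, by rw [map_zero]; exact hc c⟩
  | add p q hp hq =>
    obtain ⟨a, haJ, hp⟩ := hp
    obtain ⟨b, hbJ, hq⟩ := hq
    exact ⟨a + b, J.add_mem haJ hbJ, by rw [map_add, map_add, ha, hp, hq, map_add]⟩
  | mul_X p i hp =>
    obtain ⟨a, haJ, hp⟩ := hp
    have hX : ∃ a ∈ J, δ (r (Ideal.Quotient.mk I (MvPolynomial.X i))) = r a := by
      fin_cases i
      · exact h0
      · exact h1
    obtain ⟨b, hbJ, hX⟩ := hX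
    refine ⟨Ideal.Quotient.mk I p * b + Ideal.Quotient.mk I (MvPolynomial.X i) * a,
      J.add_mem (J.mul_mem_left _ hbJ) (J.mul_mem_left _ haJ), ?_⟩
    rw [map_mul, map_mul, hm, hp, hX, map_add, map_mul, map_mul]

/-- Regularity of the derivative. -/
theorem reg_of {X : Scheme.{0}} [IsIntegral X] (δ : X.functionField → X.functionField)
    (hm : ∀ f g, δ (f * g) = f * δ g + g * δ f) {V : X.Opens} (hV : IsAffineOpen V)
    [Nonempty V] (hr : ∀ a : Γ(X, V), ∃ b : Γ(X, V),
      δ (X.germToFunctionField V a) = X.germToFunctionField V b) (x : X) (hx : x ∈ V)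
    (f : X.functionField) (hf : f ∈ O x) : δ f ∈ O x := by
  obtain ⟨a, b, hb, hab⟩ := frac hV x hx f hf
  obtain ⟨a', ha'⟩ := hr a
  obtain ⟨b', hb'⟩ := hr b
  have h1 := congrArg δ hab
  rw [hm, ha', hb'] at h1
  have hb0 := germ_ne_zero x hx b hb
  have h2 : δ f = (X.germToFunctionField V a' - f * X.germToFunctionField V b') *
      (X.germToFunctionField V b)⁻¹ := by
    rw [eq_mul_inv_iff_mul_eq₀ hb0]
    linear_combination h1
  rw [h2]
  exact (O x).mul_mem ((O x).sub_mem (germ_mem_O x hx a') ((O x).mul_mem hf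
    (germ_mem_O x hx b'))) (inv_mem_O x b hb)

section der

variable (k : Type) [Field k]

/-- The curve. -/
noncomputable abbrev CC : Fam 1 k := Wei (WZ (0 : k) 0)

/-- The affine chart. -/
noncomputable abbrev j1 : Sp (A1 k 0 0) ⟶ (CC k).X := WX.in1 k 0 0

/-- The chart at infinity. -/
noncomputable abbrev j2 : Sp (A2 k 0 0) ⟶ (CC k).X := WX.in2 k 0 0

instance o1 : IsOpenImmersion (j1 k) := inferInstanceAs (IsOpenImmersion (WX.in1 k 0 0))

instance o2 : IsOpenImmersion (j2 k) := inferInstanceAs (IsOpenImmersion (WX.in2 k 0 0))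

theorem cond : spMap (g1 k (0 : k) 0) ≫ j1 k = spMap (g2 k (0 : k) 0) ≫ j2 k :=
  pushout.condition

instance nt2 : Nontrivial (A2 k 0 0) := (inf2 k (0 : k) 0).domain_nontrivial

instance nt1 : Nontrivial (A1 k 0 0) :=
  (lift1 (a := (0 : k)) (b := 0) (RingHom.id k) 0 0 (by simp)).domain_nontrivial

instance nt12 : Nontrivial (A12 k 0 0) := by
  have h : (A12 k 0 0) →+* k := IsLocalization.Away.lift (z2 k (0 : k) 0)
    (g := lift2 (a := (0 : k)) (b := 0) (RingHom.id k) 1 1 (by simp)) (by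
      rw [lift2_z]
      exact isUnit_one)
  exact h.domain_nontrivial

instance ne1 : Nonempty (j1 k).opensRange := ne_range _

instance ne2 : Nonempty (j2 k).opensRange := ne_range _

variable [IsIntegral (CC k).X]

/-- The function field. -/
abbrev FF : Type := (CC k).X.functionField

theorem t_one : t2 k (0 : k) 0 = 1 := by
  have h := rel2 k (0 : k) 0
  simpa using h

theorem rel_x : rr (j1 k) (x1 k 0 0) * rr (j2 k) (z2 k 0 0) ^ 2 = 1 := by
  have hne : Nonempty (spMap (g1 k (0 : k) 0) ≫ j1 k).opensRange := ne_range _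
  have h1 := rr_comp (j1 k) (g1 k (0 : k) 0) _ rfl (x1 k 0 0)
  have h2 := rr_comp (j2 k) (g2 k (0 : k) 0) _ (cond k) (z2 k 0 0)
  rw [← h1, ← h2, ← map_pow, ← map_mul, g1_x]
  have ht : (tu k (0 : k) 0) = 1 := by
    ext1
    rw [tu_val, t_one, map_one]
    rfl
  rw [ht, ← zu_val, ← Units.val_pow_eq_pow_val, ← Units.val_mul]
  have h3 : (zu k (0 : k) 0)⁻¹ ^ 2 * 1⁻¹ * zu k (0 : k) 0 ^ 2 = 1 := by group
  rw [h3, Units.val_one, map_one]

theorem rel_y : rr (j1 k) (y1 k 0 0) * rr (j2 k) (z2 k 0 0) ^ 3 = 1 := by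
  have hne : Nonempty (spMap (g1 k (0 : k) 0) ≫ j1 k).opensRange := ne_range _
  have h1 := rr_comp (j1 k) (g1 k (0 : k) 0) _ rfl (y1 k 0 0)
  have h2 := rr_comp (j2 k) (g2 k (0 : k) 0) _ (cond k) (z2 k 0 0)
  rw [← h1, ← h2, ← map_pow, ← map_mul, g1_y]
  have ht : (tu k (0 : k) 0) = 1 := by
    ext1
    rw [tu_val, t_one, map_one]
    rfl
  rw [ht, ← zu_val, ← Units.val_pow_eq_pow_val, ← Units.val_mul]
  have h3 : (zu k (0 : k) 0)⁻¹ ^ 3 * 1⁻¹ * zu k (0 : k) 0 ^ 3 = 1 := by group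
  rw [h3, Units.val_one, map_one]

/-- The derivation `- z d/dz` as a homomorphism to the dual numbers. -/
noncomputable def φ2 : A2 k 0 0 →+* TrivSqZeroExt (FF k) (FF k) :=
  lift2 ((TrivSqZeroExt.inlHom (FF k) (FF k)).comp (kfun (CC k).π))
    (TrivSqZeroExt.inl (rr (j2 k) (z2 k 0 0)) + TrivSqZeroExt.inr (- rr (j2 k) (z2 k 0 0))) 1
    (by rw [map_zero]; ring)

theorem φ2_z : φ2 k (z2 k 0 0) =
    TrivSqZeroExt.inl (rr (j2 k) (z2 k 0 0)) + TrivSqZeroExt.inr (- rr (j2 k) (z2 k 0 0)) :=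
  lift2_z _ _ _ _

theorem φ2_t : φ2 k (t2 k 0 0) = 1 := lift2_t _ _ _ _

theorem φ2_c (c : k) : φ2 k (algebraMap k _ c) = TrivSqZeroExt.inl (kfun (CC k).π c) :=
  lift2_b _ _ _ _ _

theorem rr2_c (c : k) : rr (j2 k) (algebraMap k _ c) = kfun (CC k).π c :=
  rr_const (j2 k) (algebraMap k _) (WX.in2_pr k 0 0) c

theorem rr1_c (c : k) : rr (j1 k) (algebraMap k _ c) = kfun (CC k).π c :=
  rr_const (j1 k) (algebraMap k _) (WX.in1_pr k 0 0) c

theorem fst_φ2 (a : A2 k 0 0) : (φ2 k a).fst = rr (j2 k) a := by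
  have h : (TrivSqZeroExt.fstHom (FF k) (FF k) (FF k)).toRingHom.comp (φ2 k) = rr (j2 k) := by
    apply hom2_ext
    · intro c
      show (φ2 k (algebraMap k _ c)).fst = _
      rw [φ2_c, rr2_c]
      exact TrivSqZeroExt.fst_inl _ _
    · show (φ2 k (z2 k 0 0)).fst = _
      rw [φ2_z]
      simp
    · show (φ2 k (t2 k 0 0)).fst = _
      rw [φ2_t, t_one, map_one]
      exact TrivSqZeroExt.fst_one
  exact congrArg (fun g => g a) h

theorem ex_ψ : ∃ ψ : FF k →+* TrivSqZeroExt (FF k) (FF k),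
    (∀ f, (ψ f).fst = f) ∧ ∀ a, ψ (rr (j2 k) a) = φ2 k a := by
  have hfr := functionField_isFractionRing_of_isAffineOpen (CC k).X (j2 k).opensRange
    (isAffineOpen_opensRange (j2 k))
  have hu : ∀ y : nonZeroDivisors Γ((CC k).X, (j2 k).opensRange),
      IsUnit (((φ2 k).comp (WRI.ev (j2 k) : Γ((CC k).X, (j2 k).opensRange) →+* A2 k 0 0))
        (y : Γ((CC k).X, (j2 k).opensRange))) := by
    intro y
    rw [TrivSqZeroExt.isUnit_iff_isUnit_fst]
    show IsUnit (φ2 k (WRI.ev (j2 k) y.1)).fst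
    rw [fst_φ2, rr_ev, isUnit_iff_ne_zero]
    intro h
    have h1 : (y : Γ((CC k).X, (j2 k).opensRange)) = 0 :=
      (CC k).X.germToFunctionField_injective (j2 k).opensRange (by rw [h, map_zero])
    exact nonZeroDivisors.ne_zero y.2 h1
  have hψ : ∀ u : Γ((CC k).X, (j2 k).opensRange),
      IsLocalization.lift (M := nonZeroDivisors Γ((CC k).X, (j2 k).opensRange)) (S := FF k) hu
        ((CC k).X.germToFunctionField (j2 k).opensRange u) = φ2 k (WRI.ev (j2 k) u) := fun u =>
    IsLocalization.lift_eq hu u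
  refine ⟨IsLocalization.lift (M := nonZeroDivisors Γ((CC k).X, (j2 k).opensRange))
    (S := FF k) hu, ?_, ?_⟩
  · have h : (TrivSqZeroExt.fstHom (FF k) (FF k) (FF k)).toRingHom.comp
        (IsLocalization.lift (M := nonZeroDivisors Γ((CC k).X, (j2 k).opensRange))
          (S := FF k) hu) = RingHom.id (FF k) := by
      apply IsLocalization.ringHom_ext (nonZeroDivisors Γ((CC k).X, (j2 k).opensRange))
      ext u
      show (IsLocalization.lift (M := nonZeroDivisors Γ((CC k).X, (j2 k).opensRange))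
        (S := FF k) hu ((CC k).X.germToFunctionField (j2 k).opensRange u)).fst = _
      rw [hψ, fst_φ2, rr_ev]
      rfl
    intro f
    exact congrArg (fun g => g f) h
  · intro a
    rw [rr_apply, hψ, RingEquiv.apply_symm_apply]

theorem ex_δ : ∃ δ : FF k → FF k, (∀ f g, δ (f + g) = δ f + δ g) ∧
    (∀ f g, δ (f * g) = f * δ g + g * δ f) ∧ (∀ c : k, δ (kfun (CC k).π c) = 0) ∧
    (∀ a, ∃ b ∈ Ideal.span {z2 k (0 : k) 0}, δ (rr (j2 k) a) = rr (j2 k) b) ∧
    (∀ a, ∃ b ∈ (⊤ : Ideal (A1 k 0 0)), δ (rr (j1 k) a) = rr (j1 k) b) ∧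
    δ (rr (j1 k) (x1 k 0 0)) = 2 * rr (j1 k) (x1 k 0 0) := by
  obtain ⟨ψ, h1, h2⟩ := ex_ψ k
  have ha : ∀ f g, (ψ (f + g)).snd = (ψ f).snd + (ψ g).snd := fun f g => by
    rw [map_add, TrivSqZeroExt.snd_add]
  have hm : ∀ f g, (ψ (f * g)).snd = f * (ψ g).snd + g * (ψ f).snd := fun f g => by
    rw [map_mul, TrivSqZeroExt.snd_mul, h1, h1]
    simp only [smul_eq_mul, MulOpposite.smul_eq_mul_unop, MulOpposite.unop_op]
    ring
  have hc : ∀ c : k, (ψ (kfun (CC k).π c)).snd = 0 := fun c => by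
    rw [← rr2_c, h2, φ2_c, TrivSqZeroExt.snd_inl]
  have hz : (ψ (rr (j2 k) (z2 k 0 0))).snd = - rr (j2 k) (z2 k 0 0) := by
    rw [h2, φ2_z]
    simp
  have hone : (ψ 1).snd = 0 := by rw [map_one, TrivSqZeroExt.snd_one]
  have hz0 : rr (j2 k) (z2 k 0 0) ≠ 0 := by
    intro h
    have h3 := rel_x k
    rw [h] at h3
    simp at h3
  have hx : (ψ (rr (j1 k) (x1 k 0 0))).snd = 2 * rr (j1 k) (x1 k 0 0) := by
    have h3 := congrArg (fun u => (ψ u).snd) (rel_x k)
    beta_reduce at h3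
    rw [hone, hm, pow_two, hm, hz] at h3
    have h4 : rr (j2 k) (z2 k 0 0) ^ 2 * (ψ (rr (j1 k) (x1 k 0 0))).snd =
        rr (j2 k) (z2 k 0 0) ^ 2 * (2 * rr (j1 k) (x1 k 0 0)) := by
      linear_combination h3
    exact mul_left_cancel₀ (pow_ne_zero 2 hz0) h4
  have hy : (ψ (rr (j1 k) (y1 k 0 0))).snd = 3 * rr (j1 k) (y1 k 0 0) := by
    have h3 := congrArg (fun u => (ψ u).snd) (rel_y k)
    beta_reduce at h3
    rw [hone, hm, pow_succ, hm, pow_two, hm, hz] at h3
    have h4 : rr (j2 k) (z2 k 0 0) ^ 3 * (ψ (rr (j1 k) (y1 k 0 0))).snd =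
        rr (j2 k) (z2 k 0 0) ^ 3 * (3 * rr (j1 k) (y1 k 0 0)) := by
      linear_combination h3
    exact mul_left_cancel₀ (pow_ne_zero 3 hz0) h4
  refine ⟨fun f => (ψ f).snd, ha, hm, hc, ?_, ?_, hx⟩
  · refine closed _ (rr (j2 k)) (fun f => (ψ f).snd) ha hm _ (fun c => ?_) ?_ ?_
    · show (ψ (rr (j2 k) (algebraMap k _ c))).snd = 0
      rw [rr2_c]
      exact hc c
    · refine ⟨-z2 k 0 0, Ideal.neg_mem_iff _ |>.2 (Ideal.subset_span rfl), ?_⟩
      show (ψ (rr (j2 k) (z2 k 0 0))).snd = _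
      rw [hz, map_neg]
    · refine ⟨0, Ideal.zero_mem _, ?_⟩
      show (ψ (rr (j2 k) (t2 k 0 0))).snd = _
      rw [t_one, map_one, hone, map_zero]
  · refine closed _ (rr (j1 k)) (fun f => (ψ f).snd) ha hm _ (fun c => ?_) ?_ ?_
    · show (ψ (rr (j1 k) (algebraMap k _ c))).snd = 0
      rw [rr1_c]
      exact hc c
    · refine ⟨2 * x1 k 0 0, trivial, ?_⟩
      show (ψ (rr (j1 k) (x1 k 0 0))).snd = _
      rw [hx, map_mul, map_ofNat]
    · refine ⟨3 * y1 k 0 0, trivial, ?_⟩
      show (ψ (rr (j1 k) (y1 k 0 0))).snd = _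
      rw [hy, map_mul, map_ofNat]

theorem main [CharZero k] : ∃ (v : VField (CC k)) (U : (CC k).X.Opens), v.D U ≠ 0 := by
  obtain ⟨δ, ha, hm, hc, h2, h1, hx⟩ := ex_δ k
  have hF : FDer (CC k).π δ := by
    refine ⟨ha, hm, hc, ?_⟩
    intro x g hg
    have hcov : x ∈ (j1 k).opensRange ⊔ (j2 k).opensRange := by
      have h := glue2_range (spMap (g1 k (0 : k) 0)) (spMap (g2 k (0 : k) 0))
      have h' : (j1 k).opensRange ⊔ (j2 k).opensRange = ⊤ := h
      rw [h']
      trivial
    rcases hcov with hx | hx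
    · refine reg_of δ hm (isAffineOpen_opensRange (j1 k)) (fun a => ?_) x hx g hg
      obtain ⟨b, -, hb⟩ := h1 (WRI.ev (j1 k) a)
      refine ⟨(WRI.ev (j1 k)).symm b, ?_⟩
      rw [← rr_ev, hb, rr_apply]
    · refine reg_of δ hm (isAffineOpen_opensRange (j2 k)) (fun a => ?_) x hx g hg
      obtain ⟨b, -, hb⟩ := h2 (WRI.ev (j2 k) a)
      refine ⟨(WRI.ev (j2 k)).symm b, ?_⟩
      rw [← rr_ev, hb, rr_apply]
  have hs : ∀ (U : (CC k).X.Opens) (i : Fin 1) (a : Γ((CC k).X, U)),
      ((CC k).σ i).app U (DD (CC k) δ hF U a) = 0 := by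
    intro U i a
    obtain ⟨q⟩ := (inferInstance : Nonempty (PrimeSpectrum k))
    by_cases hq : (CC k).σ i q ∈ U
    · have hU : Nonempty U := ⟨⟨_, hq⟩⟩
      have htop := top_le_of_mem ((CC k).σ i) U q hq
      have hev : evs ((CC k).σ i) U htop (DD (CC k) δ hF U a) = 0 := by
        rw [evs_eq_zero_iff _ _ _ _ q]
        intro hbo
        have hσ : (CC k).σ i = spMap (inf2 k (0 : k) 0) ≫ j2 k := by
          have : i = 0 := Subsingleton.elim _ _
          rw [this]
          rfl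
        have hq2 : (CC k).σ i q ∈ (j2 k).opensRange := by
          rw [hσ]
          exact ⟨spMap (inf2 k (0 : k) 0) q, by simp⟩
        obtain ⟨a', b', hb', hab⟩ := frac (isAffineOpen_opensRange (j2 k)) _ hq2
          ((CC k).X.germToFunctionField U a) (germ_mem_O _ hq a)
        obtain ⟨c, hcJ, hc'⟩ := h2 (WRI.ev (j2 k) a')
        obtain ⟨d, hdJ, hd'⟩ := h2 (WRI.ev (j2 k) b')
        obtain ⟨c1, rfl⟩ := Ideal.mem_span_singleton'.1 hcJ
        obtain ⟨d1, rfl⟩ := Ideal.mem_span_singleton'.1 hdJ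
        rw [rr_ev, map_mul] at hc' hd'
        have e1 := congrArg δ hab
        rw [hm, hc', hd', ← germ_DD (CC k) δ hF U a] at e1
        have hb0 := germ_ne_zero _ hq2 b' hb'
        have hD0 := germ_ne_zero _ hq _ hbo
        have hinv := inv_mem_O _ b' hb'
        have hinv2 := inv_mem_O _ _ hbo
        have hz0 : rr (j2 k) (z2 k 0 0) ≠ 0 := by
          intro h
          have h3 := rel_x k
          rw [h] at h3
          simp at h3
        have e2 : (rr (j2 k) (z2 k 0 0))⁻¹ = (rr (j2 k) c1 -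
            (CC k).X.germToFunctionField U a * rr (j2 k) d1) *
            ((CC k).X.germToFunctionField (j2 k).opensRange b')⁻¹ *
            ((CC k).X.germToFunctionField U (DD (CC k) δ hF U a))⁻¹ := by
          field_simp
          linear_combination e1
        have hreg : ∀ u : A2 k 0 0, rr (j2 k) u ∈ O ((CC k).σ i q) := fun u => by
          rw [rr_apply]
          exact germ_mem_O _ hq2 _
        have hzi : (rr (j2 k) (z2 k 0 0))⁻¹ ∈ O ((CC k).σ i q) := by
          rw [e2]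
          exact (O _).mul_mem ((O _).mul_mem ((O _).sub_mem (hreg c1)
            ((O _).mul_mem (germ_mem_O _ hq a) (hreg d1))) hinv) hinv2
        rw [rr_apply] at hzi hz0
        have hbz := mem_basicOpen_of_inv _ hq2 _ hz0 hzi
        have htop2 := top_le_of_mem ((CC k).σ i) (j2 k).opensRange q hq2
        have h5 := (evs_eq_zero_iff ((CC k).σ i) (j2 k).opensRange htop2
          ((WRI.ev (j2 k)).symm (z2 k 0 0)) q).not.2 (not_not.2 hbz)
        apply h5
        have h6 : ∀ (s : Sp k ⟶ (CC k).X) (hs : s = spMap (inf2 k (0 : k) 0) ≫ j2 k)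
            (ht : ⊤ ≤ s ⁻¹ᵁ (j2 k).opensRange),
            evs s (j2 k).opensRange ht ((WRI.ev (j2 k)).symm (z2 k 0 0)) = 0 := by
          intro s hs ht
          subst hs
          refine (evO_spMap (j2 k) (inf2 k (0 : k) 0) (range_pre (j2 k)) ht _).trans ?_
          rw [← WRI.ev_apply, RingEquiv.apply_symm_apply]
          exact lift2_z _ _ _ _
        exact h6 _ hσ htop2
      have h7 : ((CC k).σ i).appLE U ⊤ htop (DD (CC k) δ hF U a) = 0 := by
        apply (ConcreteCategory.bijective_of_isIso (Scheme.ΓSpecIso (.of k)).hom).1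
        rw [map_zero]
        exact hev
      have h8 : (CC k).σ i ⁻¹ᵁ U = ⊤ := top_le_iff.1 htop
      have h9 : IsIso ((Sp k).presheaf.map (homOfLE htop).op) := by
        have h5 : IsIso (homOfLE htop) := by
          have h6 : homOfLE htop = eqToHom h8.symm := Subsingleton.elim _ _
          rw [h6]
          infer_instance
        infer_instance
      apply (ConcreteCategory.bijective_of_isIso ((Sp k).presheaf.map (homOfLE htop).op)).1
      rw [map_zero]
      exact h7
    · have h3 : ¬ Nonempty ((CC k).σ i ⁻¹ᵁ U : (Sp k).Opens) := by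
        rintro ⟨⟨q', hq'⟩⟩
        have h4 : q' = q := Subsingleton.elim (α := PrimeSpectrum k) _ _
        rw [h4] at hq'
        exact hq hq'
      have := sub_of_empty _ h3
      exact Subsingleton.elim _ _
  refine ⟨mkV (CC k) δ hF hs, (j1 k).opensRange, fun h => ?_⟩
  have h3 := congrArg (fun D => D ((WRI.ev (j1 k)).symm (x1 k 0 0))) h
  have h4 : DD (CC k) δ hF (j1 k).opensRange ((WRI.ev (j1 k)).symm (x1 k 0 0)) = 0 := h3
  have h5 := germ_DD (CC k) δ hF (j1 k).opensRange ((WRI.ev (j1 k)).symm (x1 k 0 0))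
  rw [h4, map_zero, ← rr_apply, hx] at h5
  have h6 : rr (j1 k) (x1 k 0 0) ≠ 0 := by
    intro h
    have h3 := rel_x k
    rw [h] at h3
    simp at h3
  have hchar : CharZero (FF k) := charZero_of_injective_ringHom (kfun (CC k).π).injective
  rcases mul_eq_zero.1 h5.symm with h7 | h7
  · exact two_ne_zero h7
  · exact h6 h7

end der

end CUSP_

theorem t_CUSP (_hU : Stmt_UNQ) (_hV : Stmt_VF) : Stmt_CUSP := by
  intro k _ _ hI
  have : IsIntegral (CUSP_.CC k).X := hI
  exact CUSP_.main k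

end Pool.Agent.MG.WL.CL


end

section

/-!
# Descent of functions with prescribed poles
-/

open CategoryTheory CategoryTheory.Limits AlgebraicGeometry TensorProduct

namespace Pool.Agent.MG.WL

open Pool.Agent.MG.W Pool.Agent.MG.One Pool.Agent.MG.GLU

namespace DSC

section Alg

variable {A B RU RV RW : Type} [CommRing A] [CommRing B] [CommRing RU] [CommRing RV]
  [CommRing RW] [Algebra A B] [Algebra A RU] [Algebra A RV] [Algebra A RW]

/-- The map `(c, X, r) ↦ s X - c - u r`. -/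
noncomputable def Th (iU : RU →ₐ[A] RW) (iV : RV →ₐ[A] RW) (s u : RW) :
    (A × RU × RV) →ₗ[A] RW :=
  LinearMap.mulLeft A s ∘ₗ iU.toLinearMap ∘ₗ LinearMap.fst A RU RV ∘ₗ
      LinearMap.snd A A (RU × RV) -
    Algebra.linearMap A RW ∘ₗ LinearMap.fst A A (RU × RV) -
    LinearMap.mulLeft A u ∘ₗ iV.toLinearMap ∘ₗ LinearMap.snd A RU RV ∘ₗ
      LinearMap.snd A A (RU × RV)

theorem Th_apply (iU : RU →ₐ[A] RW) (iV : RV →ₐ[A] RW) (s u : RW) (c : A) (X : RU) (r : RV) :
    Th iU iV s u (c, X, r) = s * iU X - algebraMap A RW c - u * iV r := rfl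

theorem lT (i : RU →ₐ[A] RW) (s : RW) (x : B ⊗[A] RU) :
    (LinearMap.mulLeft A s ∘ₗ i.toLinearMap).lTensor B x =
      (1 ⊗ₜ[A] s) * Algebra.TensorProduct.map (AlgHom.id A B) i x := by
  induction x using TensorProduct.induction_on with
  | zero => rw [map_zero, map_zero, mul_zero]
  | tmul b r =>
    rw [LinearMap.lTensor_tmul, Algebra.TensorProduct.map_tmul,
      Algebra.TensorProduct.tmul_mul_tmul, one_mul]
    rfl
  | add x y hx hy => rw [map_add, map_add, mul_add, hx, hy]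

theorem alg [Module.Flat A B] (iU : RU →ₐ[A] RW) (iV : RV →ₐ[A] RW) (s u : RW) (I : Ideal A)
    (hI : ∀ c X r, s * iU X = algebraMap A RW c + u * iV r → c ∈ I)
    (X' : B ⊗[A] RU) (r' : B ⊗[A] RV)
    (h : (1 ⊗ₜ[A] s) * Algebra.TensorProduct.map (AlgHom.id A B) iU X' =
      1 + (1 ⊗ₜ[A] u) * Algebra.TensorProduct.map (AlgHom.id A B) iV r') :
    (1 : B) ∈ I.map (algebraMap A B) := by
  have hex : Function.Exact (LinearMap.ker (Th iU iV s u)).subtype (Th iU iV s u) :=
    LinearMap.exact_subtype_ker_map _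
  have hex' := Module.Flat.lTensor_exact B hex
  set J1 : RU →ₗ[A] (A × RU × RV) := LinearMap.inr A A (RU × RV) ∘ₗ LinearMap.inl A RU RV
    with hJ1
  set J2 : RV →ₗ[A] (A × RU × RV) := LinearMap.inr A A (RU × RV) ∘ₗ LinearMap.inr A RU RV
    with hJ2
  have e1 : Th iU iV s u ∘ₗ J1 = LinearMap.mulLeft A s ∘ₗ iU.toLinearMap := by
    ext X
    show Th iU iV s u (0, X, 0) = s * iU X
    rw [Th_apply, map_zero, map_zero, mul_zero, sub_zero, sub_zero]
  have e2 : Th iU iV s u ∘ₗ J2 = - (LinearMap.mulLeft A u ∘ₗ iV.toLinearMap) := by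
    ext r
    show Th iU iV s u (0, 0, r) = - (u * iV r)
    rw [Th_apply, map_zero, map_zero, mul_zero, sub_zero, zero_sub]
  have h0 : (Th iU iV s u).lTensor B
      ((1 : B) ⊗ₜ[A] ((1, 0, 0) : A × RU × RV) + J1.lTensor B X' + J2.lTensor B r') = 0 := by
    rw [map_add, map_add, ← LinearMap.comp_apply, ← LinearMap.comp_apply,
      ← LinearMap.lTensor_comp, ← LinearMap.lTensor_comp, e1, e2, LinearMap.lTensor_neg,
      LinearMap.neg_apply, lT, lT, h, LinearMap.lTensor_tmul, Th_apply, map_zero, map_zero,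
      mul_zero, mul_zero, map_one, zero_sub, sub_zero, TensorProduct.tmul_neg,
      ← Algebra.TensorProduct.one_def]
    ring
  obtain ⟨z, hz⟩ := (hex' _).1 h0
  set f : B ⊗[A] (A × RU × RV) →ₗ[A] B :=
    (TensorProduct.rid A B).toLinearMap ∘ₗ (LinearMap.fst A A (RU × RV)).lTensor B with hf
  have f1 : f ((1 : B) ⊗ₜ[A] ((1, 0, 0) : A × RU × RV) + J1.lTensor B X' +
      J2.lTensor B r') = 1 := by
    have g1 : (LinearMap.fst A A (RU × RV)) ∘ₗ J1 = 0 := by
      ext X
      rfl
    have g2 : (LinearMap.fst A A (RU × RV)) ∘ₗ J2 = 0 := by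
      ext X
      rfl
    rw [hf, map_add, map_add, LinearMap.comp_apply, LinearMap.comp_apply, LinearMap.comp_apply,
      ← LinearMap.comp_apply (LinearMap.lTensor B _) (LinearMap.lTensor B J1),
      ← LinearMap.comp_apply (LinearMap.lTensor B _) (LinearMap.lTensor B J2),
      ← LinearMap.lTensor_comp, ← LinearMap.lTensor_comp, g1, g2, LinearMap.lTensor_zero,
      LinearMap.lTensor_zero, LinearMap.zero_apply, LinearMap.zero_apply, map_zero, add_zero,
      add_zero, LinearMap.lTensor_tmul]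
    show (TensorProduct.rid A B) ((1 : B) ⊗ₜ[A] (1 : A)) = 1
    rw [TensorProduct.rid_tmul, one_smul]
  rw [← f1, ← hz]
  clear hz f1 h0 h
  induction z using TensorProduct.induction_on with
  | zero =>
    rw [map_zero, map_zero]
    exact Ideal.zero_mem _
  | tmul b k =>
    obtain ⟨⟨c, X, r⟩, hk⟩ := k
    rw [LinearMap.mem_ker, Th_apply, sub_sub, sub_eq_zero] at hk
    have hc := hI c X r hk
    rw [LinearMap.lTensor_tmul, hf, LinearMap.comp_apply, LinearMap.lTensor_tmul]
    show (TensorProduct.rid A B) (b ⊗ₜ[A] c) ∈ _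
    rw [TensorProduct.rid_tmul, Algebra.smul_def]
    exact Ideal.mul_mem_right _ _ (Ideal.mem_map_of_mem _ hc)
  | add x y hx hy =>
    rw [map_add, map_add]
    exact Ideal.add_mem _ hx hy

end Alg

section Geo

variable {n : ℕ} {A B : Type} [CommRing A] [CommRing B] {φ : A →+* B}
  {C : Fam n A} {y : Fam n B}

theorem rs_rs {X : Scheme.{0}} {U V W : X.Opens} (h : U ≤ V) (h' : V ≤ W) (a : Γ(X, W)) :
    rs X h (rs X h' a) = rs X (h.trans h') a := by
  change (X.presheaf.map (homOfLE h').op ≫ X.presheaf.map (homOfLE h).op) a = _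
  rw [← Functor.map_comp, ← op_comp]
  rfl

theorem appLE_rs (a : Arrow φ y C) {V V' : C.X.Opens} (h : V' ≤ V) (W W' : y.X.Opens)
    (hW : W ≤ a.f ⁻¹ᵁ V) (hW' : W' ≤ a.f ⁻¹ᵁ V') (hh : W' ≤ W) (r : Γ(C.X, V)) :
    (a.f.appLE V' W' hW').hom (rs C.X h r) = rs y.X hh ((a.f.appLE V W hW).hom r) := by
  change (C.X.presheaf.map (homOfLE h).op ≫ a.f.appLE V' W' hW') r =
    (a.f.appLE V W hW ≫ y.X.presheaf.map (homOfLE hh).op) r
  rw [Scheme.Hom.map_appLE, Scheme.Hom.appLE_map]

theorem compactU (hC : IsProper C.π) (U V : C.X.Opens)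
    (h1 : ∀ z : C.X, z ∉ V → z ∈ U) (h2 : IsAffineOpen (U ⊓ V)) :
    IsCompact (U : Set C.X) := by
  have hcs : CompactSpace C.X := by
    have := hC
    exact QuasiCompact.compactSpace_of_compactSpace C.π
  have e : (U : Set C.X) = (V : Set C.X)ᶜ ∪ ((U ⊓ V : C.X.Opens) : Set C.X) := by
    ext z
    constructor
    · intro hz
      by_cases hzV : z ∈ V
      · exact Or.inr ⟨hz, hzV⟩
      · exact Or.inl hzV
    · rintro (hz | hz)
      · exact h1 z hz
      · exact hz.1
  rw [e]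
  exact V.isOpen.isClosed_compl.isCompact.union h2.isCompact

end Geo

end DSC

/-- Descent of functions with prescribed poles. -/
theorem t_DSC : Stmt_DSC := by
  intro A B _ _ _ φ C y a hC L L' hb hφ p hp n hX
  obtain ⟨X', r', hX'⟩ := hX
  by_contra hcon
  push Not at hcon
  have hUV : IsAffineOpen (L.U ⊓ L.V) := by
    rw [← L.bas]
    exact L.aff.basicOpen L.t
  have hUc : IsCompact (L.U : Set C.X) := by
    refine DSC.compactU hC L.U L.V (fun z hz => ?_) hUV
    rw [L.mU]
    rintro ⟨x, rfl⟩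
    exact hz (L.le (show x ∈ (⊤ : (Sp A).Opens) from trivial))
  have hsep := sep_of_proper hC
  have hUs : IsQuasiSeparated (L.U : Set C.X) := IsQuasiSeparated.of_quasiSeparatedSpace _
  have tU := tp_flat a hφ hUc hUs
  have tV := tp_affine a L.aff
  have tW := tp_affine a hUV
  let _ := φ.toAlgebra
  let _ := (coef C.π L.U).toAlgebra
  let _ := (coef C.π L.V).toAlgebra
  let _ := (coef C.π (L.U ⊓ L.V)).toAlgebra
  have hfl : Module.Flat A B := hφ
  obtain ⟨eU, heU⟩ := tU
  obtain ⟨eV, heV⟩ := tV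
  obtain ⟨eW, heW⟩ := tW
  let iU : Γ(C.X, L.U) →ₐ[A] Γ(C.X, L.U ⊓ L.V) :=
    { rs C.X (inf_le_left : L.U ⊓ L.V ≤ L.U) with
      commutes' := fun c => coef_rs C.π _ c }
  let iV : Γ(C.X, L.V) →ₐ[A] Γ(C.X, L.U ⊓ L.V) :=
    { rs C.X (inf_le_right : L.U ⊓ L.V ≤ L.V) with
      commutes' := fun c => coef_rs C.π _ c }
  have hiU : ∀ r, iU r = rs C.X inf_le_left r := fun _ => rfl
  have hiV : ∀ r, iV r = rs C.X inf_le_right r := fun _ => rfl
  have lU : a.f ⁻¹ᵁ (L.U ⊓ L.V) ≤ a.f ⁻¹ᵁ L.U := fun _ h => h.1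
  have lV : a.f ⁻¹ᵁ (L.U ⊓ L.V) ≤ a.f ⁻¹ᵁ L.V := fun _ h => h.2
  have cU : ∀ x, eW (Algebra.TensorProduct.map (AlgHom.id A B) iU x) =
      rs y.X lU (eU x) := by
    intro x
    induction x using TensorProduct.induction_on with
    | zero => rw [map_zero, map_zero, map_zero, map_zero]
    | tmul b r =>
      rw [Algebra.TensorProduct.map_tmul, heW, heU, map_mul, coef_rs, AlgHom.id_apply, hiU,
        DSC.appLE_rs a inf_le_left (a.f ⁻¹ᵁ L.U) (a.f ⁻¹ᵁ (L.U ⊓ L.V)) le_rfl le_rfl lU]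
    | add x y hx hy => rw [map_add, map_add, map_add, map_add, hx, hy]
  have cV : ∀ x, eW (Algebra.TensorProduct.map (AlgHom.id A B) iV x) =
      rs y.X lV (eV x) := by
    intro x
    induction x using TensorProduct.induction_on with
    | zero => rw [map_zero, map_zero, map_zero, map_zero]
    | tmul b r =>
      rw [Algebra.TensorProduct.map_tmul, heW, heV, map_mul, coef_rs, AlgHom.id_apply, hiV,
        DSC.appLE_rs a inf_le_right (a.f ⁻¹ᵁ L.V) (a.f ⁻¹ᵁ (L.U ⊓ L.V)) le_rfl le_rfl lV]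
    | add x y hx hy => rw [map_add, map_add, map_add, map_add, hx, hy]
  have key := DSC.alg (B := B) iU iV (iV L.t ^ n) (iV L.t) p.asIdeal (by
    intro c X r hcXr
    by_contra hc
    refine hcon c hc X ⟨r, ?_⟩
    rw [map_add, map_mul, coef_rs]
    exact hcXr)
    (eU.symm (rs y.X hb.U.ge X')) (eV.symm (rs y.X hb.V.ge r')) (by
    apply eW.injective
    have hle : a.f ⁻¹ᵁ (L.U ⊓ L.V) ≤ L'.U ⊓ L'.V := by
      rw [hb.U, hb.V]
      exact le_rfl
    have h1 := congrArg (rs y.X hle) hX'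
    rw [map_mul, map_add, map_one, map_mul, cU, cV, RingEquiv.apply_symm_apply,
      RingEquiv.apply_symm_apply, heW, heW, map_one, one_mul, one_mul, map_pow, hiV]
    have ht : (a.f.appLE (L.U ⊓ L.V) (a.f ⁻¹ᵁ (L.U ⊓ L.V)) le_rfl).hom
        (rs C.X inf_le_right L.t) = rs y.X (hle.trans inf_le_right) L'.t := by
      rw [hb.t]
      exact DSC.appLE_rs a inf_le_right _ _ _ _ _ _
    rw [ht]
    simp only [map_mul, map_pow, map_add, map_one, DSC.rs_rs] at h1 ⊢
    exact h1)
  have h2 : p.asIdeal.map (algebraMap A B) ≤ IsLocalRing.maximalIdeal B :=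
    Ideal.map_le_iff_le_comap.2 hp.ge
  exact (Ideal.ne_top_iff_one _).1 (IsLocalRing.maximalIdeal.isMaximal B).ne_top (h2 key)

end Pool.Agent.MG.WL


end

section

/-!
# KSN: nilpotent thickenings of KS
-/

open CategoryTheory CategoryTheory.Limits AlgebraicGeometry
open scoped TensorProduct

namespace Pool.Agent.MG.KX

open Pool.Agent.MG.G0 Pool.Agent.MG.GLU

namespace KSN

theorem exists_factor {E A K : Type} [CommRing E] [CommRing A] [Field K] (φ : E →+* A)
    (hφ : Function.Surjective φ) (hn : ∃ n : ℕ, RingHom.ker φ ^ n = ⊥) (ψ : E →+* K) :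
    ∃ ψ' : A →+* K, ψ = ψ'.comp φ := by
  obtain ⟨n, hn⟩ := hn
  have h : ∀ e, φ e = 0 → ψ e = 0 := by
    intro e he
    have h1 : e ^ n ∈ RingHom.ker φ ^ n := Ideal.pow_mem_pow he n
    rw [hn, Ideal.mem_bot] at h1
    have h2 : ψ e ^ n = 0 := by rw [← map_pow, h1, map_zero]
    exact eq_zero_of_pow_eq_zero h2
  have hr := Function.rightInverse_surjInv hφ
  refine ⟨RingHom.liftOfRightInverse φ _ hr ⟨ψ, fun e he => h e he⟩, RingHom.ext fun e => ?_⟩
  exact (RingHom.liftOfRightInverse_comp_apply φ _ hr ⟨ψ, fun e he => h e he⟩ e).symm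

end KSN

theorem t_KSN : Stmt_KSN := by
  intro I E A _ _ _ _ g Q P φ hφ hn hQ hb h
  refine ⟨hQ, ⟨fun i => i.elim0, fun i => i.elim0⟩, ?_⟩
  intro K _ _ ψ
  obtain ⟨ψ', rfl⟩ := KSN.exists_factor φ hφ hn ψ
  have h1 : bc (ψ'.comp φ) Q = bc ψ' P := by rw [KBC.bc_comp, hb]
  rw [h1]
  exact h.fib K ψ'

end Pool.Agent.MG.KX


end

section

/-!
# XAR: arrows for base change
-/

open CategoryTheory CategoryTheory.Limits AlgebraicGeometry
open scoped TensorProduct

namespace Pool.Agent.MG.KX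

open Pool.Agent.MG.G0 Pool.Agent.MG.GLU

namespace XAR_

theorem spMap_id (B : Type) [CommRing B] : spMap (RingHom.id B) = 𝟙 (Sp B) := Spec.map_id _

/-- Composition with an arrow over the identity. -/
noncomputable def compId {n : ℕ} {A B : Type} [CommRing A] [CommRing B] {φ : A →+* B}
    {w y : Fam n B} {x : Fam n A} (b : Arrow (RingHom.id B) w y) (a : Arrow φ y x) :
    Arrow φ w x where
  f := b.f ≫ a.f
  cart := by
    have h := b.cart.paste_horiz a.cart
    rw [spMap_id] at h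
    rwa [Category.id_comp] at h
  sec i := by
    have h := b.sec i
    rw [spMap_id, Category.id_comp] at h
    rw [← Category.assoc, h, a.sec i]

/-- Homomorphisms of duos are compatible with morphisms to the second chart. -/
theorem sh_of {A B : Type} [CommRing A] [CommRing B] {φ : A →+* B} {D : Duo A} {E : Duo B}
    (h : Duo.Hom φ D E) {S T : Type} [CommRing S] [CommRing T] (r : D.R2 →+* S) (r' : E.R2 →+* T)
    (s : S →+* T) (hs : r'.comp h.f2 = s.comp r) :
    (spMap r' ≫ E.in2) ≫ h.map = spMap s ≫ spMap r ≫ D.in2 := by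
  rw [Category.assoc, h.in2_map, ← Category.assoc, ← Category.assoc, spMap_comp'',
    spMap_comp'', hs]

section

variable {I : Type} {A B : Type} [CommRing A] [CommRing B]

theorem rsh_kres [Finite I] (φ : A →+* B) {P : Subalgebra A (KK I A)} (z : Pole P) (i : I)
    (f : Rw P z.z) : rsh (z.bc φ).z i ((kHom φ z).f2 f) = PowerSeries.map φ (rsh z.z i f) := by
  ext m
  rw [PowerSeries.coeff_map]
  change PowerSeries.coeff m (PowerSeries.mk fun m => (kmap φ (f : KK I A) i).coeff m) =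
    φ (PowerSeries.coeff m (PowerSeries.mk fun m => ((f : KK I A) i).coeff m))
  rw [PowerSeries.coeff_mk, PowerSeries.coeff_mk, kmap_apply, lmap_coeff]

theorem rshI_kres [Finite I] (φ : A →+* B) {P : Subalgebra A (KK I A)} (z : Pole P) :
    (rshI (z.bc φ).z).comp (kHom φ z).f2 = (psm I φ).comp (rshI z.z) := by
  refine RingHom.ext fun f => funext fun i => ?_
  exact rsh_kres φ z i f

/-- The canonical models correspond. -/
theorem over_can [Finite I] (φ : A →+* B) {P : Subalgebra A (KK I A)} (z : Pole P) {n : ℕ}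
    {p : Fin n → (P →ₐ[A] A)} {p' : Fin n → (bc φ P →ₐ[B] B)}
    (a : Arrow φ (xfam (z.bc φ) p') (xfam z p)) (ha : a.f = (kHom φ z).map)
    (M : Mod (xfam z p) P p) (M' : Mod (xfam (z.bc φ) p') (bc φ P) p') (hM : M.Can z)
    (hM' : M'.Can (z.bc φ)) : M.Over a M' where
  mem _ hf := kmap_mem_bc φ hf
  j := by
    rw [ha, hM.j, hM'.j]
    exact (kHom φ z).in1_map
  sh := by
    rw [ha, hM.sh, hM'.sh]
    exact sh_of (kHom φ z) (rshI z.z) (rshI (z.bc φ).z) (psm I φ) (rshI_kres φ z)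

end

end XAR_

open _root_.Pool.Agent.MG.KX.XAR_ in
/-- XAR: base change. -/
theorem t_XAR (hKAR : Stmt_KAR) (hKPX : Stmt_KPX) (hMCA : Stmt_MCA) (hMIS : Stmt_MIS)
    (hMOC : Stmt_MOC) : Stmt_XAR := by
  have hKBC : Stmt_KBC := t_KBC (t_KFO t_KDU) t_KNZ (t_KSP t_KNZ)
  intro I A B _ _ _ _ g n P p φ p' hP hp z z'
  have hP' : IsKr g (bc φ P) := (hKBC.2.2.2 hP φ).1
  obtain ⟨a1, ha1⟩ := hKAR hP z φ p p' hp
  obtain ⟨M1, hM1⟩ := hMCA hP' (z.bc φ) p'
  obtain ⟨a2, ha2⟩ := hMIS hP' (hKPX p' hP' (z.bc φ)).1 M1 z'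
  refine ⟨compId a2 a1, fun M M' hM hM' => ?_⟩
  have h1 := over_can φ z a1 ha1 M M1 hM hM1
  exact (hMOC.1 a1 a2 (compId a2 a1) M M1 M' (RingHom.id_comp φ).symm rfl h1).1 (ha2 M' hM')

end Pool.Agent.MG.KX


end

section

/-!
# PL2: base change, rescaling of the parameters, the nodal curve
-/

open TensorProduct

namespace Pool.Agent.MG.G0

namespace PL2

section

variable {I A B : Type} [CommRing A] [CommRing B]

theorem psl_coeff (f : PowerSeries A) (n : ℕ) : (psl A f).coeff (n : ℤ) = PowerSeries.coeff n f := by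
  have h1 := PowerSeries.coeff_coe f (n : ℤ)
  unfold psl
  rw [h1, if_neg (by omega), Int.natAbs_natCast]

theorem psl_low (f : PowerSeries A) (m : ℤ) (hm : m < 0) : (psl A f).coeff m = 0 := by
  have h1 := PowerSeries.coeff_coe f m
  unfold psl
  rw [h1, if_pos hm]

theorem psl_zero (f : PowerSeries A) : (psl A f).coeff 0 = PowerSeries.constantCoeff f := by
  have h := psl_coeff f 0
  rw [Nat.cast_zero] at h
  rw [h, PowerSeries.coeff_zero_eq_constantCoeff]

/-- The rescaling of the components at the new punctures. -/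
noncomputable def S {J : Type} (c : J → Aˣ) : KK (I ⊕ J) A →+* KK (I ⊕ J) A :=
  RingHom.pi fun k => match k with
    | Sum.inl i => Pi.evalRingHom _ (Sum.inl i)
    | Sum.inr j => ((sc (c j)⁻¹ : LaurentSeries A →ₐ[A] LaurentSeries A) :
        LaurentSeries A →+* LaurentSeries A).comp (Pi.evalRingHom _ (Sum.inr j))

theorem S_inl {J : Type} (c : J → Aˣ) (w : KK (I ⊕ J) A) (i : I) :
    S c w (Sum.inl i) = w (Sum.inl i) := rfl

theorem S_inr {J : Type} (c : J → Aˣ) (w : KK (I ⊕ J) A) (j : J) :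
    S c w (Sum.inr j) = sc (c j)⁻¹ (w (Sum.inr j)) := rfl

theorem S_S {J : Type} (c : J → Aˣ) (w : KK (I ⊕ J) A) : S c (S (fun j => (c j)⁻¹) w) = w := by
  funext k
  rcases k with i | j
  · rfl
  · rw [S_inr, S_inr, sc_sc, inv_inv, inv_mul_cancel, sc_one]

theorem psl_rescale (c : Aˣ) (f : PowerSeries A) :
    psl A (PowerSeries.rescale (c : A) f) = sc c⁻¹ (psl A f) := by
  ext m
  rcases lt_or_ge m 0 with h | h
  · rw [psl_low _ _ h, sc_coeff, psl_low _ _ h, mul_zero]
  · obtain ⟨n, rfl⟩ := Int.eq_ofNat_of_zero_le h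
    rw [psl_coeff, sc_coeff, psl_coeff, PowerSeries.coeff_rescale, inv_zpow, zpow_neg, inv_inv,
      zpow_natCast, Units.val_pow_eq_pow_val]

variable {R : Subalgebra A (KK I A)}

theorem resc_id (p : FPt R) (c : Aˣ) : (p.resc c).id = p.id := by
  ext f
  rw [FPt.mem_id, FPt.mem_id]
  have h : (p.resc c).ev f = p.ev f := by
    change PowerSeries.constantCoeff (PowerSeries.rescale (c : A) (p.h f)) = _
    rw [← PowerSeries.coeff_zero_eq_constantCoeff, PowerSeries.coeff_rescale, pow_zero, one_mul,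
      PowerSeries.coeff_zero_eq_constantCoeff]
    rfl
  rw [h]

theorem hat_resc {J : Type} (pt : J → FPt R) (c : J → Aˣ) (r : R) :
    hat (fun j => (pt j).resc (c j)) r = S c (hat pt r) := by
  funext k
  rcases k with i | j
  · rfl
  · rw [S_inr, hat_inr, hat_inr, ← psl_rescale]
    rfl

theorem Ipt_resc {J : Type} (pt : J → FPt R) (c : J → Aˣ) :
    Ipt (fun j => (pt j).resc (c j)) = Ipt pt :=
  iInf_congr fun j => resc_id (pt j) (c j)

theorem S_mem {J : Type} (pt : J → FPt R) (c : J → Aˣ) {w : KK (I ⊕ J) A} (hw : w ∈ WJ pt) :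
    S c w ∈ WJ fun j => (pt j).resc (c j) := by
  obtain ⟨n, hn⟩ := hw
  refine ⟨n, fun s hs => ?_⟩
  rw [Ipt_resc] at hs
  obtain ⟨r, hr⟩ := hn s hs
  exact ⟨r, by rw [hat_resc, hat_resc, ← map_mul, hr]⟩

theorem S_mem' {J : Type} (pt : J → FPt R) (c : J → Aˣ) {w : KK (I ⊕ J) A}
    (hw : w ∈ WJ fun j => (pt j).resc (c j)) : S (fun j => (c j)⁻¹) w ∈ WJ pt := by
  obtain ⟨n, hn⟩ := hw
  refine ⟨n, fun s hs => ?_⟩
  rw [← Ipt_resc pt c] at hs
  obtain ⟨r, hr⟩ := hn s hs
  refine ⟨r, ?_⟩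
  rw [hat_resc, hat_resc] at hr
  have h := congrArg (S fun j => (c j)⁻¹) hr
  have e : ∀ w : KK (I ⊕ J) A, S (fun j => (c j)⁻¹) (S c w) = w := by
    intro w
    have := S_S (fun j => (c j)⁻¹) w
    simpa only [inv_inv] using this
  rw [map_mul, e, e] at h
  exact h

theorem S_Nt (c : Bool → Aˣ) (t : A) (w : KK (I ⊕ Bool) A) :
    atJ (S c w) ∈ Nt t ↔ atJ w ∈ Nt ((c true : A) * (c false : A) * t) := by
  have hc : ∀ b : Bool, (c true : A) * (c false : A) = (c b : A) * (c (!b) : A) := by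
    intro b
    cases b
    · exact mul_comm _ _
    · rfl
  have key : ∀ (b : Bool) (j : ℕ),
      ((atJ (S c w) b).coeff (-(j : ℤ)) = t ^ j * (atJ (S c w) (!b)).coeff j) ↔
      ((atJ w b).coeff (-(j : ℤ)) =
        ((c true : A) * (c false : A) * t) ^ j * (atJ w (!b)).coeff j) := by
    intro b j
    change (sc (c b)⁻¹ (w (Sum.inr b))).coeff (-(j : ℤ)) =
      t ^ j * (sc (c (!b))⁻¹ (w (Sum.inr (!b)))).coeff j ↔
      (w (Sum.inr b)).coeff (-(j : ℤ)) = _ * (w (Sum.inr (!b))).coeff j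
    rw [sc_coeff, sc_coeff, hc b, neg_neg, zpow_natCast, inv_zpow, zpow_neg, inv_inv, zpow_natCast]
    simp only [Units.val_pow_eq_pow_val]
    have hu : (c b : A) ^ j * (((c b)⁻¹ : Aˣ) : A) ^ j = 1 := by
      rw [← mul_pow, Units.mul_inv, one_pow]
    constructor
    · intro h
      rw [mul_pow, mul_pow]
      linear_combination (c b : A) ^ j * h - (w (Sum.inr b)).coeff (-(j : ℤ)) * hu
    · intro h
      rw [h, mul_pow, mul_pow]
      linear_combination (c (!b) : A) ^ j * t ^ j * (w (Sum.inr (!b))).coeff j * hu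
  exact ⟨fun h b j => (key b j).1 (h b j), fun h b j => (key b j).2 (h b j)⟩

end

end PL2

open _root_.Pool.Agent.MG.G0.PL2 in
theorem t_PL2 (hKBC : Stmt_KBC) (hKEQ : Stmt_KEQ) (_hAYE : Stmt_AYE) (hAWK : Stmt_AWK)
    (hAWB : Stmt_AWB) (hPL1 : Stmt_PL1) : Stmt_PL2 := by
  refine ⟨?_, ?_, ?_⟩
  · intro I A B _ _ _ _ h R hR hS pt hd t ht φ pt' hpt'
    have hKBT : Stmt_KBT := t_KBT (t_KSP t_KNZ) hKBC
    have hSBC : Stmt_SBC := t_SBC t_SCO t_LOC
    have hS' : SmC B (bc φ R) := by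
      let _ := φ.toAlgebra
      obtain ⟨-, e, -⟩ := hKBT (B := B) hR
      exact hSBC.2.1 e (hSBC.1 hS)
    obtain ⟨hd', hW, -⟩ := (hAWB hR φ).2 hS pt pt' hpt' hd
    have ht' : IsNilpotent (φ t) := ht.map φ
    have h1 : IsKr (h + 1) (bc φ (PT pt t)) := (hKBC.2.2.2 (hPL1 hR hS pt hd t ht) φ).1
    have h2 : IsKr (h + 1) (PT pt' (φ t)) := hPL1 (hKBC.2.2.2 hR φ).1 hS' pt' hd' _ ht'
    refine (hKEQ h1 h2 (Algebra.adjoin_le ?_)).symm
    rintro _ ⟨f, ⟨w, hw, rfl, hN⟩, rfl⟩
    refine ⟨kmap φ w, ?_, rfl, ?_⟩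
    · rw [hW]
      exact kmap_mem_bc φ hw
    · intro b j
      have h3 := congrArg φ (hN b j)
      rw [map_mul, map_pow] at h3
      exact h3
  · intro I A _ R pt c t
    refine ⟨fun b => resc_id _ _, ?_⟩
    ext f
    constructor
    · rintro ⟨w, hw, rfl, hN⟩
      refine ⟨S (fun b => (c b)⁻¹) w, S_mem' pt c hw, rfl, ?_⟩
      rw [← S_Nt c t, S_S]
      exact hN
    · rintro ⟨w, hw, rfl, hN⟩
      exact ⟨S c w, S_mem pt c hw, rfl, (S_Nt c t w).2 hN⟩
  · intro I A _ _ _ h R hR hS pt hd f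
    constructor
    · rintro ⟨w, hw, rfl, hN⟩
      have h0 : ∀ j : Bool, ∀ m < 0, (w (Sum.inr j)).coeff m = 0 := by
        intro j m hm
        obtain ⟨n, hn⟩ := Int.eq_ofNat_of_zero_le (show 0 ≤ -m by omega)
        have h1 := hN j n
        rw [zero_pow (by omega), zero_mul] at h1
        have e : m = -(n : ℤ) := by omega
        rw [e]
        exact h1
      obtain ⟨r, rfl⟩ := (hAWK hR hS pt hd).2.2.2.2.1 w hw h0
      refine ⟨r, rfl, ?_⟩
      have h1 := hN true 0
      rw [pow_zero, one_mul, Nat.cast_zero, neg_zero] at h1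
      have h2 : (psl A ((pt true).h r)).coeff 0 = (psl A ((pt false).h r)).coeff 0 := h1
      rw [psl_zero, psl_zero] at h2
      exact h2
    · rintro ⟨r, rfl, hr⟩
      refine ⟨hat pt r, hat_mem pt r, rfl, ?_⟩
      have h2 : (psl A ((pt true).h r)).coeff 0 = (psl A ((pt false).h r)).coeff 0 := by
        rw [psl_zero, psl_zero]
        exact hr
      intro b j
      change (psl A ((pt b).h r)).coeff (-(j : ℤ)) = 0 ^ j * (psl A ((pt (!b)).h r)).coeff j
      rcases Nat.eq_zero_or_pos j with rfl | hj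
      · rw [pow_zero, one_mul, Nat.cast_zero, neg_zero]
        cases b
        · exact h2.symm
        · exact h2
      · rw [psl_low _ _ (by omega), zero_pow (by omega), zero_mul]

end Pool.Agent.MG.G0


end

section

/-!
# TCF: the zeros of a function (PAPER_TG.md, section TC)
-/

namespace Pool.Agent.MG.G0

namespace TCF

/-- A non-zero-divisor `f` with a non-trivial equation over `κ[X]` divides the image of a non-zero
element of `κ[X]`. -/
theorem exists_const {C P : Type} [CommRing C] [CommRing P] (φ : C →+* P) (f : P)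
    (hf : ∀ x : P, x * f = 0 → x = 0) :
    ∀ (n : ℕ) (p : Polynomial C), p ≠ 0 → p.natDegree ≤ n → Polynomial.eval₂ φ f p = 0 →
      ∃ c : C, c ≠ 0 ∧ ∃ q : P, φ c = q * f := by
  intro n
  induction n with
  | zero =>
    intro p hp hn h0
    have h1 : p = Polynomial.C (p.coeff 0) := Polynomial.eq_C_of_natDegree_le_zero hn
    refine ⟨p.coeff 0, fun h => hp ?_, 0, ?_⟩
    · rw [h1, h, Polynomial.C_0]
    · rw [h1, Polynomial.eval₂_C] at h0
      rw [h0, zero_mul]
  | succ n ih =>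
    intro p hp hn h0
    have h1 : p.divX * Polynomial.X + Polynomial.C (p.coeff 0) = p := Polynomial.divX_mul_X_add p
    have h2 : Polynomial.eval₂ φ f p.divX * f + φ (p.coeff 0) = 0 := by
      rw [← h0]
      conv_rhs => rw [← h1]
      rw [Polynomial.eval₂_add, Polynomial.eval₂_mul_X, Polynomial.eval₂_C]
    by_cases hc : p.coeff 0 = 0
    · rw [hc, map_zero, add_zero] at h2
      refine ih p.divX (fun h => hp ?_) ?_ (hf _ h2)
      · rw [← h1, h, hc, zero_mul, Polynomial.C_0, add_zero]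
      · rw [Polynomial.natDegree_divX_eq_natDegree_tsub_one]
        omega
    · refine ⟨p.coeff 0, hc, -Polynomial.eval₂ φ f p.divX, ?_⟩
      linear_combination h2

/-- The quotient of a finite `κ[X]`-algebra by an ideal which contains a non-zero polynomial. -/
theorem finite_quot {κ P : Type} [Field κ] [CommRing P] [Algebra κ P]
    (φ : Polynomial κ →+* P) (hφ : φ.Finite) (hC : ∀ a : κ, φ (Polynomial.C a) = algebraMap κ P a)
    (J : Ideal P) (c : Polynomial κ) (hc : c ≠ 0) (hcJ : φ c ∈ J) :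
    Module.Finite κ (P ⧸ J) := by
  -- make `c` monic
  obtain ⟨c', hc', hc'J⟩ : ∃ c' : Polynomial κ, c'.Monic ∧ φ c' ∈ J := by
    refine ⟨c * Polynomial.C c.leadingCoeff⁻¹, Polynomial.monic_mul_leadingCoeff_inv hc, ?_⟩
    rw [map_mul]
    exact J.mul_mem_right _ hcJ
  have hfin1 : ((Ideal.Quotient.mk J).comp φ).Finite :=
    RingHom.Finite.comp (RingHom.Finite.of_surjective _ Ideal.Quotient.mk_surjective) hφ
  let ψ : (Polynomial κ ⧸ Ideal.span {c'}) →+* P ⧸ J :=
    Ideal.Quotient.lift (Ideal.span {c'}) ((Ideal.Quotient.mk J).comp φ) (by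
      intro a ha
      obtain ⟨q, rfl⟩ := Ideal.mem_span_singleton'.1 ha
      rw [RingHom.comp_apply, map_mul, map_mul, Ideal.Quotient.eq_zero_iff_mem.2 hc'J, mul_zero])
  have hψ : ψ.Finite := by
    refine RingHom.Finite.of_comp_finite (f := Ideal.Quotient.mk (Ideal.span {c'})) ?_
    have : ψ.comp (Ideal.Quotient.mk (Ideal.span {c'})) = (Ideal.Quotient.mk J).comp φ :=
      Ideal.Quotient.lift_comp_mk _ _ _
    rw [this]
    exact hfin1
  have h2 : (algebraMap κ (Polynomial κ ⧸ Ideal.span {c'})).Finite := by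
    rw [RingHom.finite_algebraMap]
    exact hc'.finite_quotient
  have h3 : (ψ.comp (algebraMap κ (Polynomial κ ⧸ Ideal.span {c'}))).Finite := hψ.comp h2
  have h4 : ψ.comp (algebraMap κ (Polynomial κ ⧸ Ideal.span {c'})) = algebraMap κ (P ⧸ J) := by
    ext a
    change (Ideal.Quotient.mk J) (φ (Polynomial.C a)) = (Ideal.Quotient.mk J) (algebraMap κ P a)
    rw [hC]
  rw [h4, RingHom.finite_algebraMap] at h3
  exact h3

/-- The points of a finite subscheme. -/
theorem points {κ P : Type} [Field κ] [IsAlgClosed κ] [CommRing P] [Algebra κ P] (f : P)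
    (h : Module.Finite κ (P ⧸ Ideal.span {f})) :
    {e : P →ₐ[κ] κ | e f = 0}.Finite ∧
    ∀ b : P, (∀ e : P →ₐ[κ] κ, e f = 0 → e b ≠ 0) → ∃ u v : P, u * f + v * b = 1 := by
  constructor
  · have hfin : Finite ((P ⧸ Ideal.span {f}) →ₐ[κ] κ) := inferInstance
    let F : ((P ⧸ Ideal.span {f}) →ₐ[κ] κ) → (P →ₐ[κ] κ) := fun g =>
      g.comp (Ideal.Quotient.mkₐ κ (Ideal.span {f}))
    refine (Set.finite_range F).subset ?_
    intro e he
    refine ⟨Ideal.Quotient.liftₐ (Ideal.span {f}) e ?_, ?_⟩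
    · intro a ha
      obtain ⟨q, rfl⟩ := Ideal.mem_span_singleton'.1 ha
      rw [map_mul, show e f = 0 from he, mul_zero]
    · ext a
      rfl
  · intro b hb
    by_contra hcon
    have hne : Ideal.span {f, b} ≠ ⊤ := by
      intro h1
      have h2 : (1 : P) ∈ Ideal.span {f, b} := by rw [h1]; exact Submodule.mem_top
      obtain ⟨u, v, huv⟩ := Ideal.mem_span_pair.1 h2
      exact hcon ⟨u, v, huv⟩
    obtain ⟨n, hn, hle⟩ := Ideal.exists_le_maximal _ hne
    have hfn : f ∈ n := hle (Ideal.subset_span (by simp))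
    have hbn : b ∈ n := hle (Ideal.subset_span (by simp))
    let _ : Field (P ⧸ n) := Ideal.Quotient.field n
    have hfle : Ideal.span {f} ≤ n := (Ideal.span_singleton_le_iff_mem _).2 hfn
    have hfin : Module.Finite κ (P ⧸ n) :=
      Module.Finite.of_surjective (Ideal.Quotient.factorₐ κ hfle).toLinearMap
        (Ideal.Quotient.factor_surjective hfle)
    have hbij : Function.Bijective (algebraMap κ (P ⧸ n)) :=
      IsAlgClosed.algebraMap_bijective_of_isIntegral
    let E : κ ≃ₐ[κ] (P ⧸ n) := AlgEquiv.ofBijective (Algebra.ofId κ (P ⧸ n)) hbij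
    let e : P →ₐ[κ] κ := (E.symm : (P ⧸ n) →ₐ[κ] κ).comp (Ideal.Quotient.mkₐ κ n)
    have hker : ∀ x ∈ n, e x = 0 := by
      intro x hx
      change E.symm (Ideal.Quotient.mk n x) = 0
      rw [Ideal.Quotient.eq_zero_iff_mem.2 hx, map_zero]
    exact hb e (hker f hfn) (hker b hbn)

end TCF

theorem t_TCF (h1 : Stmt_KNZ) (h2 : Stmt_KFG) : Stmt_TCF := by
  intro I κ _ _ _ _ h P hP f hf
  obtain ⟨⟨N, hN⟩, hK⟩ := h1 hP
  obtain ⟨z, hzP, hz⟩ := (hK N hN).2.2 (N + 1) (by omega)
  obtain ⟨-, -, hfin, -, hinj⟩ := (h2 hP).2 N (N + 1) ⟨z, hzP⟩ hN (by omega) hz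
  -- `f` is not a zero divisor
  have hreg : ∀ x : P, x * f = 0 → x = 0 := by
    intro x hx
    have h3 : (x : KK I κ) * (f : KK I κ) = 0 := by
      have := congrArg Subtype.val hx
      exact this
    have h4 : (x : KK I κ) = 0 := by
      rwa [hf.mul_left_eq_zero] at h3
    exact Subtype.ext h4
  obtain ⟨p, hp, hp0⟩ := hfin.to_isIntegral f
  obtain ⟨c, hc, q, hq⟩ := TCF.exists_const _ f hreg p.natDegree p hp.ne_zero le_rfl hp0
  refine TCF.points f (TCF.finite_quot _ hfin (fun a => ?_) (Ideal.span {f}) c hc ?_)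
  · exact Polynomial.aeval_C _ _
  · rw [hq]
    exact Ideal.mul_mem_left _ _ (Ideal.subset_span rfl)

end Pool.Agent.MG.G0


end

section

/-!
# TCN: a second puncture (PAPER_TG.md, TC)
-/

open TensorProduct

namespace Pool.Agent.MG.G0

namespace TCN

/-- The reduction is surjective. -/
theorem bcMap_surj {I κ A : Type} [Field κ] [CommRing A] [Algebra κ A] (rs : A →ₐ[κ] κ)
    (R : Subalgebra A (KK I A)) : Function.Surjective (bcMap (rs : A →+* κ) R) := by
  rintro ⟨y, hy⟩
  suffices h : ∃ x ∈ R, kmap (rs : A →+* κ) x = y by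
    obtain ⟨x, hx, hxy⟩ := h
    exact ⟨⟨x, hx⟩, Subtype.ext hxy⟩
  refine Algebra.adjoin_induction (p := fun y _ => ∃ x ∈ R, kmap (rs : A →+* κ) x = y)
    ?_ ?_ ?_ ?_ hy
  · rintro _ ⟨x, hx, rfl⟩
    exact ⟨x, hx, rfl⟩
  · intro c
    refine ⟨algebraMap A (KK I A) (algebraMap κ A c), R.algebraMap_mem _, ?_⟩
    rw [kmap_algebraMap]
    congr 1
    change rs (algebraMap κ A c) = c
    rw [AlgHom.commutes]
    rfl
  · rintro _ _ _ _ ⟨x, hx, rfl⟩ ⟨x', hx', rfl⟩
    exact ⟨x + x', add_mem hx hx', map_add _ _ _⟩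
  · rintro _ _ _ _ ⟨x, hx, rfl⟩ ⟨x', hx', rfl⟩
    exact ⟨x * x', mul_mem hx hx', map_mul _ _ _⟩

/-- A point of a nonzero algebra of finite type over an algebraically closed field. -/
theorem exists_point {κ P : Type} [Field κ] [IsAlgClosed κ] [CommRing P] [Algebra κ P]
    [Nontrivial P] (hf : Algebra.FiniteType κ P) : Nonempty (P →ₐ[κ] κ) := by
  obtain ⟨m, hm⟩ := Ideal.exists_maximal P
  let _ : Field (P ⧸ m) := Ideal.Quotient.field m
  have h1 : Algebra.FiniteType κ (P ⧸ m) :=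
    Algebra.FiniteType.of_surjective (Ideal.Quotient.mkₐ κ m) (Ideal.Quotient.mkₐ_surjective κ m)
  have h2 : Module.Finite κ (P ⧸ m) := finite_of_finite_type_of_isJacobsonRing κ (P ⧸ m)
  have h3 := IsAlgClosed.algebraMap_bijective_of_isIntegral (k := κ) (K := P ⧸ m)
  let e : κ ≃ₐ[κ] (P ⧸ m) := AlgEquiv.ofBijective (Algebra.ofId κ (P ⧸ m)) h3
  exact ⟨(e.symm : (P ⧸ m) →ₐ[κ] κ).comp (Ideal.Quotient.mkₐ κ m)⟩

section nil

variable {A : Type} [CommRing A]

/-- The series with coefficients in an ideal. -/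
def coId (J : Ideal A) : Ideal (PowerSeries A) where
  carrier := {f | ∀ m, PowerSeries.coeff m f ∈ J}
  add_mem' {f g} hf hg m := by
    rw [map_add]
    exact J.add_mem (hf m) (hg m)
  zero_mem' m := by
    rw [map_zero]
    exact J.zero_mem
  smul_mem' c f hf m := by
    rw [smul_eq_mul, PowerSeries.coeff_mul]
    exact J.sum_mem fun p _ => J.mul_mem_left _ (hf _)

theorem coId_mul (J K : Ideal A) : coId J * coId K ≤ coId (J * K) := by
  rw [Ideal.mul_le]
  intro f hf g hg m
  rw [PowerSeries.coeff_mul]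
  exact (J * K).sum_mem fun p _ => Ideal.mul_mem_mul (hf _) (hg _)

theorem coId_pow (J : Ideal A) (n : ℕ) : coId J ^ n ≤ coId (J ^ n) := by
  induction n with
  | zero =>
    intro f _ m
    rw [pow_zero, Ideal.one_eq_top]
    trivial
  | succ n ih =>
    rw [pow_succ, pow_succ]
    exact (Ideal.mul_mono_left ih).trans (coId_mul _ _)

theorem coId_bot : coId (⊥ : Ideal A) = ⊥ := by
  rw [eq_bot_iff]
  intro f hf
  rw [Ideal.mem_bot]
  ext m
  exact hf m

/-- Units modulo a nilpotent ideal. -/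
theorem unit_of {κ : Type} [Field κ] [Algebra κ A] (r : A →ₐ[κ] κ)
    (hn : ∃ n : ℕ, RingHom.ker (r : A →+* κ) ^ n = ⊥) {a : A} (ha : r a ≠ 0) : IsUnit a := by
  have h1 : r (algebraMap κ A (r a)⁻¹ * a - 1) = 0 := by
    rw [map_sub, map_mul, map_one, AlgHom.commutes]
    change (r a)⁻¹ * r a - 1 = 0
    rw [inv_mul_cancel₀ ha, sub_self]
  have h2 : IsNilpotent (algebraMap κ A (r a)⁻¹ * a - 1) := by
    obtain ⟨n, hn⟩ := hn
    refine ⟨n, ?_⟩
    have h3 : (algebraMap κ A (r a)⁻¹ * a - 1) ^ n ∈ RingHom.ker (r : A →+* κ) ^ n :=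
      Ideal.pow_mem_pow h1 n
    rw [hn] at h3
    exact h3
  have h3 : IsUnit (algebraMap κ A (r a)⁻¹ * a) := by
    have h4 := h2.isUnit_add_one
    rwa [sub_add_cancel] at h4
  exact isUnit_of_mul_isUnit_right h3

end nil

end TCN

theorem t_TCN (hTRX : Stmt_TRX) (hAPT : Stmt_APT) (hAWK : Stmt_AWK) (hAWD : Stmt_AWD)
    (hTCA : Stmt_TCA) (hTNS : Stmt_TNS) (hMCB : Stmt_MCB) (hSDB : Stmt_SDB) (hKFG : Stmt_KFG)
    (hKBC : Stmt_KBC) : Stmt_TCN := by
  intro A κ _ _ _ _ _ r hn _ h R hR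
  have hRk : SKr h (bc (r : A →+* κ) R) := hTRX.1 hR (r : A →+* κ)
  have hft : Algebra.FiniteType κ (bc (r : A →+* κ) R) := by
    have := (hKFG hRk.kr).1
    infer_instance
  obtain ⟨e⟩ := TCN.exists_point hft
  obtain ⟨p0, -⟩ := hAPT hRk.fs hRk.smc e
  -- the lifting problem
  let _ : Algebra A κ := (r : A →+* κ).toAlgebra
  have halg : ∀ a : A, algebraMap A κ a = r a := fun _ => rfl
  let π : PowerSeries A →ₐ[A] PowerSeries κ :=
    { PowerSeries.map (r : A →+* κ) with
      commutes' := fun a => by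
        change PowerSeries.map (r : A →+* κ) (algebraMap A (PowerSeries A) a) =
          algebraMap A (PowerSeries κ) a
        rw [PowerSeries.algebraMap_apply, PowerSeries.algebraMap_apply, PowerSeries.map_C]
        rfl }
  have hπ : ∀ f, π f = PowerSeries.map (r : A →+* κ) f := fun _ => rfl
  have hr : ∀ c : κ, r (algebraMap κ A c) = c := fun c => by
    rw [AlgHom.commutes]
    rfl
  have hsurj : Function.Surjective π := by
    intro f
    refine ⟨PowerSeries.map (algebraMap κ A) f, ?_⟩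
    rw [hπ]
    ext m
    rw [PowerSeries.coeff_map, PowerSeries.coeff_map]
    exact hr _
  have hnil : IsNilpotent (RingHom.ker (π : PowerSeries A →+* PowerSeries κ)) := by
    obtain ⟨n, hn⟩ := hn
    refine ⟨n, ?_⟩
    have h1 : RingHom.ker (π : PowerSeries A →+* PowerSeries κ) ≤
        TCN.coId (RingHom.ker (r : A →+* κ)) := by
      intro f hf m
      have h2 : PowerSeries.map (r : A →+* κ) f = 0 := hf
      have h3 := congrArg (PowerSeries.coeff m) h2
      rw [PowerSeries.coeff_map, map_zero] at h3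
      exact h3
    have h2 := (Ideal.pow_right_mono h1 n).trans (TCN.coId_pow _ n)
    have hn' : RingHom.ker (r : A →+* κ) ^ n = ⊥ := hn
    rw [hn', TCN.coId_bot] at h2
    exact le_bot_iff.mp h2
  let g : R →ₐ[A] PowerSeries κ :=
    { (p0.h : bc (r : A →+* κ) R →+* PowerSeries κ).comp (bcMap (r : A →+* κ) R) with
      commutes' := fun a => by
        change p0.h (bcMap (r : A →+* κ) R (algebraMap A R a)) = algebraMap A (PowerSeries κ) a
        have h1 : bcMap (r : A →+* κ) R (algebraMap A R a) =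
            algebraMap κ (bc (r : A →+* κ) R) (r a) :=
          Subtype.ext (kmap_algebraMap (r : A →+* κ) a)
        rw [h1, AlgHom.commutes, PowerSeries.algebraMap_apply, PowerSeries.algebraMap_apply]
        rfl }
  have hg : ∀ f, g f = p0.h (bcMap (r : A →+* κ) R f) := fun _ => rfl
  have hfs : Algebra.FormallySmooth A R := hR.fs
  let hh : R →ₐ[A] PowerSeries A := Algebra.FormallySmooth.liftOfSurjective g π hsurj hnil
  have hhh : ∀ f, π (hh f) = g f := fun f =>
    Algebra.FormallySmooth.liftOfSurjective_apply g π hsurj hnil f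
  obtain ⟨x, hx⟩ := TCN.bcMap_surj r R p0.x
  let p : FPt R :=
    { h := hh
      x := x
      par := by
        refine TCN.unit_of r hn ?_
        have h1 := congrArg (PowerSeries.coeff 1) (hhh x)
        rw [hπ, PowerSeries.coeff_map, hg, hx] at h1
        have h2 := p0.par.ne_zero
        rw [← h1] at h2
        exact h2 }
  let pt : Unit → FPt R := fun _ => p
  have hD : Disj pt := fun j k hjk => absurd (Subsingleton.elim j k) hjk
  have hK := hAWK hR.kr hR.smc pt hD
  have hDn : Dn (WJ pt) := hK.2.2.2.2.2.1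
  have hdual : Dual (WJ pt) := hAWD hR.kr hR.smc pt hD hR.dual
  have hM := (hMCB.1 hK.1 hDn).2 (r : A →+* κ)
  have hkW : IsKr h (bc (r : A →+* κ) (WJ pt)) := (hKBC.2.2.2 hK.1 (r : A →+* κ)).1
  have hfs1 : Algebra.FormallySmooth κ (Rem (bc (r : A →+* κ) (WJ pt))) := by
    rw [hM.2.1, hK.2.2.1]
    exact hRk.fs
  have hfs2 : Algebra.FormallySmooth κ (bc (r : A →+* κ) (WJ pt)) := hTNS hkW hM.1 hfs1
  have hsm2 : SmC κ (bc (r : A →+* κ) (WJ pt)) := (hSDB hK.1 hK.2.1 (r : A →+* κ)).1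
  have hfs3 := (hTCA r hn hK.1 hfs2 hsm2).1
  refine ⟨WJ pt, (hat pt).codRestrict (WJ pt) (hat_mem pt), p,
    ⟨hK.1, hfs3, hK.2.1, hdual⟩, hK.2.2.1.symm, hDn, fun f => ⟨rfl, rfl⟩⟩

end Pool.Agent.MG.G0


end
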