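import Mathlib
import Pool.Agent.KDM.C18
import Pool.Agent.KDM.C21
import Pool.Agent.KDM.C45
import Pool.Agent.KDM.C52

/-! Parts: MG.H2.HMapT, MG.H2.HMu, MG.H2.HArr -/

section

/-!
# Comparison of the forms: infinitesimal translation and swap
-/

open CategoryTheory CategoryTheory.Limits AlgebraicGeometry TensorProduct

namespace Pool.Agent.MG.H2

section ch

variable {B : Type} [CommRing B] {f f' : Fin 7 → B} {R R₁ R' : Type} [CommRing R] [CommRing R₁]
  [CommRing R'] {c : B →+* R} {c' : B →+* R₁} {x y : R} {x' y' : R₁} {r : R₁ →+* R'} {δ : R₁ → R'}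
  {e : B}

/-- Translation. -/
theorem om_tr (rel : y ^ 2 = pol (fun i => c (f i)) x) (z : Bz f)
    (rel' : y' ^ 2 = pol (fun i => c' (f' i)) x') (z' : Bz f') (h : DerA c' r δ)
    (G : R →+* R₁) (hc : ∀ b, G (c b) = c' b) (he : e * e = 0) (hf : IsTr e f f')
    (hx : G x = x' + c' e) (hy : G y = y') :
    om z' c' x' y' r δ = om z c x y (r.comp G) (fun v => δ (G v)) := by
  obtain ⟨h1, h2⟩ := om_pull (φ := RingHom.id B) rel z h G hc
  rw [hx, hy] at h1 h2
  rw [h.add, h.const, add_zero] at h1
  simp only [RingHom.id_apply] at h2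
  refine (om_eq rel' z' h1 ?_).symm
  have h3 := dpol_tr (alg_sq (r.comp c') he) (hf.map (r.comp c')) (r x')
  simp only [RingHom.comp_apply] at h3
  rw [h3, ← map_add]
  exact h2

/-- Translation in the coordinates at infinity. -/
theorem om_trq (rel : y ^ 2 = pol (fun i => c (rev f i)) x) (z : Bz (rev f))
    (rel' : y' ^ 2 = pol (fun i => c' (rev f' i)) x') (z' : Bz (rev f')) (h : DerA c' r δ)
    (G : R →+* R₁) (hc : ∀ b, G (c b) = c' b) (he : e * e = 0) (hf : IsTr e f f')
    (hx : G x = x' - c' e * x' ^ 2) (hy : G y = (1 - 3 * c' e * x') * y') :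
    om z' c' x' y' r δ = r (1 - c' e * x') * om z c x y (r.comp G) (fun v => δ (G v)) := by
  obtain ⟨h1, h2⟩ := om_pull (φ := RingHom.id B) rel z h G hc
  set w := om z c x y (r.comp G) (fun v => δ (G v)) with hw
  have hsq : r (c' e) * r (c' e) = 0 := alg_sq (r.comp c') he
  have d1 : δ (x' - c' e * x' ^ 2) = (1 - 2 * r (c' e) * r x') * δ x' := by
    have : δ (x' - c' e * x' ^ 2) = δ (x' + c' (-e) * x' ^ 2) := by
      rw [map_neg]
      congr 1
      ring
    rw [this, h.add, h.cmul, h.sq, map_neg, map_neg]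
    ring
  have d2 : δ ((1 - 3 * c' e * x') * y') = (1 - 3 * r (c' e) * r x') * δ y' -
      3 * r (c' e) * r y' * δ x' := by
    have : (1 - 3 * c' e * x') * y' = c' 1 * y' + c' (-3 * e) * (x' * y') := by
      rw [map_one, map_mul, map_neg, map_ofNat]
      ring
    rw [this, h.add, h.cmul, h.cmul, h.mul, map_one, map_one, map_mul, map_mul, map_neg, map_neg,
      map_ofNat, map_ofNat]
    ring
  rw [hx, hy, d1, map_mul, map_sub, map_one, map_mul, map_mul, map_ofNat] at h1
  rw [hx, hy, d2] at h2
  simp only [RingHom.id_apply, map_sub, map_mul, map_pow] at h2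
  have h3 := dpol_trq (alg_sq (r.comp c') he) (hf.map (r.comp c')) (r x')
  have h4 : ∀ g : Fin 7 → B, rev (fun i => (r.comp c') (g i)) = fun i => r (c' (rev g i)) :=
    fun g => rfl
  rw [h4, h4] at h3
  simp only [RingHom.comp_apply] at h3
  have h5 := om_rel (r := r) rel'
  have h6 := om_der rel' h
  have k1 : r y' * (r (1 - c' e * x') * w) = δ x' := by
    rw [map_sub, map_one, map_mul]
    linear_combination (1 + 2 * r (c' e) * r x') * h1 +
      (-4 * r x' ^ 2 * δ x' + 6 * r x' ^ 2 * r y' * w) * hsq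
  refine (om_eq rel' z' k1 ?_).symm
  rw [map_sub, map_one, map_mul]
  rw [map_sub, map_one, map_mul] at k1
  set E := r (c' e) with hE
  set X := r x' with hX
  set Y := r y' with hY
  set D := dpol (fun i => r (c' (rev f' i))) X with hD
  set D0 := dpol (fun i => r (c' (rev f i))) (X - E * X ^ 2) with hD0
  -- h3 : (1 - 6 E X) D - 6 E Y^2 = (1 - 2 E X) D0 ; h2 : D0 w = 2 ((1 - 3 E X) δy - 3 E Y δx)
  have h7 : (1 - 6 * E * X) * D - 6 * E * Y ^ 2 = (1 - 2 * E * X) * D0 := by
    rw [h5]
    exact h3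
  linear_combination ((1 + 6 * E * X) * (1 - E * X) * w) * h7 + (1 + 3 * E * X) * h2 +
    (6 * E * Y) * k1 + (36 * X ^ 2 * (1 - E * X) * w * D + 6 * (5 * X - 6 * E * X ^ 2) * Y ^ 2 * w +
      6 * X * Y ^ 2 * w - 18 * X ^ 2 * δ y' - 18 * X * Y * δ x' +
      (-16 * X ^ 2 + 12 * E * X ^ 3) * w * D0) * hsq

end ch

section tr

variable {B : Type} [CommRing B] {e : B} {f f' : Fin 7 → B} (he : e * e = 0) (h : IsTr e f f')

/-- Translation. -/
noncomputable def hhTR : HH (RingHom.id B) f f' where
  g := fun i => match i with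
    | .T => tr1 he h
    | .N => tr12 he h
    | .Q => trq he h
  gc := fun i => match i with
    | .T => tr1_b he h
    | .N => tr12_b he h
    | .Q => trq_b he h
  gE := trE he h
  e1 := tr12_g1 he h
  e2 := trE_g1 he h
  e3 := trE_inv he h

/-- The factors of the forms: `θ₁' = θ₁`, `θ₂' = θ₂ + e θ₁`. -/
abbrev ctr (e : B) : Bool → Bool → B := fun k' k =>
  if k = k' then 1 else if k then e else 0

/-- Translation of the forms. -/
theorem omTR (o : HOk f) (o' : HOk f') : (hhTR he h).Om o o' (ctr e) := by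
    intro k i R' _ r δ hδ
    have hT : ∀ {R' : Type} [CommRing R'] (r : A1 B f' →+* R') (δ : A1 B f' → R'),
        DerA (algebraMap B (A1 B f')) r δ → om o'.z (algebraMap B (A1 B f')) (x1 B f') (y1 B f') r δ =
          om o.z (algebraMap B (A1 B f))
          (x1 B f) (y1 B f) (r.comp (tr1 he h)) (fun v => δ (tr1 he h v)) := fun r δ hδ =>
      om_tr (rel1 B f) o.z (rel1 B f') o'.z hδ (tr1 he h) (tr1_b he h) he h (tr1_x he h)
        (tr1_y he h)
    have hN : ∀ {R' : Type} [CommRing R'] (r : A12 B f' →+* R') (δ : A12 B f' → R'),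
        DerA (algebraMap B (A12 B f')) r δ → om o'.z (algebraMap B (A12 B f')) (xu B f' : A12 B f')
          (yv B f') r δ =
          om o.z (algebraMap B (A12 B f)) (xu B f : A12 B f) (yv B f) (r.comp (tr12 he h))
            (fun v => δ (tr12 he h v)) := fun r δ hδ =>
      om_tr (rel12 B f) o.z (rel12 B f') o'.z hδ (tr12 he h) (tr12_b he h) he h (tr12_x he h)
        (tr12_y he h)
    have hQ : ∀ {R' : Type} [CommRing R'] (r : A1 B (rev f') →+* R') (δ : A1 B (rev f') → R'),
        DerA (algebraMap B (A1 B (rev f'))) r δ → om o'.z' (algebraMap B (A1 B (rev f')))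
          (x1 B (rev f')) (y1 B (rev f')) r δ =
          r (1 - algebraMap B (A1 B (rev f')) e * x1 B (rev f')) *
          om o.z' (algebraMap B (A1 B (rev f))) (x1 B (rev f)) (y1 B (rev f))
            (r.comp (trq he h)) (fun v => δ (trq he h v)) := fun r δ hδ =>
      om_trq (rel1 B (rev f)) o.z' (rel1 B (rev f')) o'.z' hδ (trq he h) (trq_b he h) he h
        (trq_x he h) (trq_y he h)
    cases k <;> cases i
    · -- false T
      change r (-x1 B f') * om o'.z (algebraMap B (A1 B f')) (x1 B f') (y1 B f') r δ =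
        (r (algebraMap B (A1 B f') e) * r (tr1 he h 1) +
          r (algebraMap B (A1 B f') 1) * r (tr1 he h (-x1 B f))) *
          om o.z (algebraMap B (A1 B f)) (x1 B f) (y1 B f) (r.comp (tr1 he h))
            (fun v => δ (tr1 he h v))
      rw [hT r δ hδ]
      simp only [map_neg, tr1_x, map_one, map_add]
      ring
    · -- false N
      change r (-(xu B f' : A12 B f')) * om o'.z (algebraMap B (A12 B f')) (xu B f' : A12 B f')
          (yv B f') r δ =
        (r (algebraMap B (A12 B f') e) * r (tr12 he h 1) +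
          r (algebraMap B (A12 B f') 1) * r (tr12 he h (-(xu B f : A12 B f)))) *
          om o.z (algebraMap B (A12 B f)) (xu B f : A12 B f) (yv B f) (r.comp (tr12 he h))
            (fun v => δ (tr12 he h v))
      rw [hN r δ hδ]
      simp only [map_neg, tr12_x, map_one, map_add]
      ring
    · -- false Q
      change r 1 * om o'.z' (algebraMap B (A1 B (rev f'))) (x1 B (rev f')) (y1 B (rev f')) r δ =
        (r (algebraMap B (A1 B (rev f')) e) * r (trq he h (-x1 B (rev f))) +
          r (algebraMap B (A1 B (rev f')) 1) * r (trq he h 1)) *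
          om o.z' (algebraMap B (A1 B (rev f))) (x1 B (rev f)) (y1 B (rev f))
            (r.comp (trq he h)) (fun v => δ (trq he h v))
      have hsq : r (algebraMap B (A1 B (rev f')) e) * r (algebraMap B (A1 B (rev f')) e) = 0 :=
        alg_sq (r.comp (algebraMap B (A1 B (rev f')))) he
      rw [hQ r δ hδ]
      simp only [map_neg, trq_x, map_one, map_mul, map_sub, map_pow]
      linear_combination (-(r (x1 B (rev f')) ^ 2) *
        om o.z' (algebraMap B (A1 B (rev f))) (x1 B (rev f)) (y1 B (rev f))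
            (r.comp (trq he h)) (fun v => δ (trq he h v))) * hsq
    · -- true T
      change r 1 * om o'.z (algebraMap B (A1 B f')) (x1 B f') (y1 B f') r δ =
        (r (algebraMap B (A1 B f') 1) * r (tr1 he h 1) +
          r (algebraMap B (A1 B f') 0) * r (tr1 he h (-x1 B f))) *
          om o.z (algebraMap B (A1 B f)) (x1 B f) (y1 B f) (r.comp (tr1 he h))
            (fun v => δ (tr1 he h v))
      rw [hT r δ hδ]
      simp only [map_zero, map_one]
      ring
    · -- true N
      change r 1 * om o'.z (algebraMap B (A12 B f')) (xu B f' : A12 B f')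
          (yv B f') r δ =
        (r (algebraMap B (A12 B f') 1) * r (tr12 he h 1) +
          r (algebraMap B (A12 B f') 0) * r (tr12 he h (-(xu B f : A12 B f)))) *
          om o.z (algebraMap B (A12 B f)) (xu B f : A12 B f) (yv B f) (r.comp (tr12 he h))
            (fun v => δ (tr12 he h v))
      rw [hN r δ hδ]
      simp only [map_zero, map_one]
      ring
    · -- true Q
      change r (-x1 B (rev f')) * om o'.z' (algebraMap B (A1 B (rev f'))) (x1 B (rev f'))
          (y1 B (rev f')) r δ =
        (r (algebraMap B (A1 B (rev f')) 1) * r (trq he h (-x1 B (rev f))) +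
          r (algebraMap B (A1 B (rev f')) 0) * r (trq he h 1)) *
          om o.z' (algebraMap B (A1 B (rev f))) (x1 B (rev f)) (y1 B (rev f))
            (r.comp (trq he h)) (fun v => δ (trq he h v))
      rw [hQ r δ hδ]
      simp only [map_neg, trq_x, map_mul, map_zero, map_one, map_sub, map_pow]
      ring

end tr

/-! ### Swap -/

section ch

variable {B : Type} [CommRing B] {f f' : Fin 7 → B} {R R₁ R' : Type} [CommRing R] [CommRing R₁]
  [CommRing R'] {c : B →+* R} {c' : B →+* R₁} {x y : R} {x' y' u' : R₁} {r : R₁ →+* R'}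
  {δ : R₁ → R'}

/-- `dx/y = - u du/v`. -/
theorem om_inv (rel : y ^ 2 = pol (fun i => c (f i)) x) (z : Bz f)
    (rel' : y' ^ 2 = pol (fun i => c' (f' i)) x') (z' : Bz f') (h : DerA c' r δ)
    (G : R →+* R₁) (hc : ∀ b, G (c b) = c' b) (hf : ∀ i, f' i = f (Fin.rev i))
    (hu : x' * u' = 1) (hx : G x = u') (hy : G y = y' * u' ^ 3) :
    om z' c' x' y' r δ = - r u' * om z c x y (r.comp G) (fun v => δ (G v)) := by
  obtain ⟨h1, h2⟩ := om_pull (φ := RingHom.id B) rel z h G hc
  have h0 := congrArg G rel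
  rw [map_pow, pol_map] at h0
  simp only [hc] at h0
  rw [hx, hy] at h0 h1 h2
  simp only [RingHom.id_apply] at h2
  set w := om z c x y (r.comp G) (fun v => δ (G v)) with hw
  have ru : r x' * r u' = 1 := by rw [← map_mul, hu, map_one]
  have d0 : r x' * δ u' + r u' * δ x' = 0 := by rw [← h.mul, hu, h.one]
  have d1 : δ x' = - r x' ^ 2 * δ u' := by linear_combination (r x') * d0 - (δ x') * ru
  have d2 : δ (y' * u' ^ 3) = r u' ^ 3 * δ y' + 3 * r y' * r u' ^ 2 * δ u' := by
    have := h.pow u' 2
    norm_num at this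
    rw [h.mul, this, map_pow]
    ring
  rw [d2] at h2
  rw [map_mul, map_pow] at h1
  have h3 := dpol_rev (fun i => r (c' (f' i))) (r x') (r u') ru
  have h4 : rev (fun i => r (c' (f' i))) = fun i => r (c' (f i)) := by
    funext i
    change r (c' (f' (Fin.rev i))) = _
    rw [hf, Fin.rev_rev]
  have h5 := congrArg r h0
  rw [pol_map, map_pow, map_mul, map_pow] at h5
  rw [h4, ← h5] at h3
  refine (om_eq rel' z' ?_ ?_).symm
  · rw [d1]
    linear_combination (-(r x') ^ 2) * h1 + (r y' * r u' * w * (r x' * r u' + 1)) * ru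
  · rw [h3]
    set X := r x'
    set U := r u'
    set Y := r y'
    set D := dpol (fun i => r (c' (f i))) U
    have x2 : X ^ 2 * U ^ 2 = 1 := by rw [← mul_pow, ru, one_pow]
    have x3 : X ^ 3 * U ^ 3 = 1 := by rw [← mul_pow, ru, one_pow]
    have x5 : X ^ 5 * U ^ 5 = 1 := by rw [← mul_pow, ru, one_pow]
    have x4 : X ^ 4 * U ^ 4 = 1 := by rw [← mul_pow, ru, one_pow]
    have e1 : (6 * X ^ 5 * (Y * U ^ 3) ^ 2 - X ^ 4 * D) * (-U * w) =
        -6 * Y * (X ^ 5 * U ^ 5) * (Y * U ^ 2 * w) + X ^ 3 * (X * U) * (D * w) := by ring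
    have e2 : Y * U ^ 2 * w = X * δ u' := by
      linear_combination X * h1 - (Y * U ^ 2 * w) * ru
    rw [e1, e2, x5, ru, h2]
    linear_combination (2 * δ y') * x3 + (6 * X * Y * δ u') * x2

end ch

section sw

variable {B : Type} [CommRing B] {f f' : Fin 7 → B} (h : ∀ i, f' i = f (Fin.rev i))

/-- The swap on the charts. -/
def swc : Ct → Ct
  | .T => .Q
  | .N => .N
  | .Q => .T

/-- The swap on rings. -/
noncomputable def swg : ∀ i, hR f (swc i) →+* hR f' i
  | .T => bc1 (RingHom.id B) (f := rev f) (f' := f') h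
  | .N => inv12 h
  | .Q => bc1 (RingHom.id B) (f := f) (f' := rev f') (fun i => by
      change f' (Fin.rev i) = f i
      rw [h, Fin.rev_rev])

include h in
theorem revh (i : Fin 7) : rev f' i = RingHom.id B (f i) := by
  change f' (Fin.rev i) = f i
  rw [h, Fin.rev_rev]

/-- The swap on the rings of the edges. -/
noncomputable def swgE : ∀ e : Bool, hRE f (!e) →+* hRE f' e
  | true => bc12 (RingHom.id B) (f := rev f) (f' := f') h
  | false => bc12 (RingHom.id B) (f := f) (f' := rev f') (revh h)

theorem sw_form (o : HOk f) (o' : HOk f') (k' : Bool) (i : Ct) {R' : Type} [CommRing R']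
    (r : hR f' i →+* R') (δ : hR f' i → R') (hδ : DerA (hc f' i) r δ) :
    ∑ j, r (hp o' k' i j) * δ (hq f' i j) =
      ∑ k : Bool, r (hc f' i (if k = !k' then 1 else 0)) *
        ∑ j, r (swg h i (hp o k (swc i) j)) * δ (swg h i (hq f (swc i) j)) := by
  have h2 := hsum o' k' i r δ
  have h3 := hsum o (!k') (swc i) (r.comp (swg h i)) (fun v => δ (swg h i v))
  have h5 : ∑ k : Bool, r (hc f' i (if k = !k' then 1 else 0)) *
      ∑ j, (r.comp (swg h i)) (hp o k (swc i) j) * δ (swg h i (hq f (swc i) j)) =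
      ∑ j, (r.comp (swg h i)) (hp o (!k') (swc i) j) * δ (swg h i (hq f (swc i) j)) := by
    rw [Finset.sum_eq_single (!k')]
    · rw [if_pos rfl, map_one, map_one, one_mul]
    · intro k _ hk
      rw [if_neg hk, map_zero, map_zero, zero_mul]
    · intro hh
      exact absurd (Finset.mem_univ _) hh
  refine h2.trans (Eq.trans ?_ (h3.symm.trans h5.symm))
  cases k' <;> cases i
  · change r (-x1 B f') * om o'.z (algebraMap B (A1 B f')) (x1 B f') (y1 B f') r δ =
      r (bc1 (RingHom.id B) h (-x1 B (rev f))) *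
        om o.z' (algebraMap B (A1 B (rev f))) (x1 B (rev f)) (y1 B (rev f))
        (r.comp (bc1 (RingHom.id B) h)) (fun v => δ (bc1 (RingHom.id B) h v))
    rw [om_bc (rel1 B (rev f)) o.z' (rel1 B f') o'.z hδ (bc1 (RingHom.id B) h)
      (bc1_b (RingHom.id B) h) h (bc1_x _ _) (bc1_y _ _)]
    exact congrArg₂ (· * ·) (congrArg r
      ((map_neg _ _).trans (congrArg _ (bc1_x (RingHom.id B) (f := rev f) h))).symm) rfl
  · change r (-(xu B f' : A12 B f')) * om o'.z (algebraMap B (A12 B f')) (xu B f' : A12 B f')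
        (yv B f') r δ = r (inv12 h 1) *
        om o.z (algebraMap B (A12 B f)) (xu B f : A12 B f) (yv B f) (r.comp (inv12 h))
          (fun v => δ (inv12 h v))
    have hxu : (xu B f' : A12 B f') * ((xu B f')⁻¹ : (A12 B f')ˣ).val = 1 := Units.mul_inv _
    have hr : r (xu B f' : A12 B f') * r ((xu B f')⁻¹ : (A12 B f')ˣ).val = 1 := by
      rw [← map_mul, hxu, map_one]
    rw [om_inv (rel12 B f) o.z (rel12 B f') o'.z hδ (inv12 h) (inv12_b h) h hxu (inv12_x h)
      ((inv12_y h).trans (by rw [Units.val_pow_eq_pow_val])), map_neg, map_one, map_one]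
    linear_combination (om o.z (algebraMap B (A12 B f)) (xu B f : A12 B f) (yv B f)
      (r.comp (inv12 h)) (fun v => δ (inv12 h v))) * hr
  · change r 1 * om o'.z' (algebraMap B (A1 B (rev f'))) (x1 B (rev f')) (y1 B (rev f')) r δ =
      r (bc1 (RingHom.id B) (revh h) 1) *
        om o.z (algebraMap B (A1 B f)) (x1 B f) (y1 B f)
        (r.comp (bc1 (RingHom.id B) (revh h))) (fun v => δ (bc1 (RingHom.id B) (revh h) v))
    rw [om_bc (rel1 B f) o.z (rel1 B (rev f')) o'.z' hδ (bc1 (RingHom.id B) (revh h))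
      (bc1_b (RingHom.id B) (revh h)) (revh h) (bc1_x _ _) (bc1_y _ _)]
    exact congrArg₂ (· * ·) (congrArg r (map_one _).symm) rfl
  · change r 1 * om o'.z (algebraMap B (A1 B f')) (x1 B f') (y1 B f') r δ =
      r (bc1 (RingHom.id B) h 1) *
        om o.z' (algebraMap B (A1 B (rev f))) (x1 B (rev f)) (y1 B (rev f))
        (r.comp (bc1 (RingHom.id B) h)) (fun v => δ (bc1 (RingHom.id B) h v))
    rw [om_bc (rel1 B (rev f)) o.z' (rel1 B f') o'.z hδ (bc1 (RingHom.id B) h)
      (bc1_b (RingHom.id B) h) h (bc1_x _ _) (bc1_y _ _)]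
    exact congrArg₂ (· * ·) (congrArg r (map_one _).symm) rfl
  · change r 1 * om o'.z (algebraMap B (A12 B f')) (xu B f' : A12 B f')
        (yv B f') r δ = r (inv12 h (-(xu B f : A12 B f))) *
        om o.z (algebraMap B (A12 B f)) (xu B f : A12 B f) (yv B f) (r.comp (inv12 h))
          (fun v => δ (inv12 h v))
    have hxu : (xu B f' : A12 B f') * ((xu B f')⁻¹ : (A12 B f')ˣ).val = 1 := Units.mul_inv _
    rw [om_inv (rel12 B f) o.z (rel12 B f') o'.z hδ (inv12 h) (inv12_b h) h hxu (inv12_x h)
      ((inv12_y h).trans (by rw [Units.val_pow_eq_pow_val])), map_neg, inv12_x, map_neg, map_one,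
      one_mul]
  · change r (-x1 B (rev f')) * om o'.z' (algebraMap B (A1 B (rev f'))) (x1 B (rev f'))
        (y1 B (rev f')) r δ =
      r (bc1 (RingHom.id B) (revh h) (-x1 B f)) *
        om o.z (algebraMap B (A1 B f)) (x1 B f) (y1 B f)
        (r.comp (bc1 (RingHom.id B) (revh h))) (fun v => δ (bc1 (RingHom.id B) (revh h) v))
    rw [om_bc (rel1 B f) o.z (rel1 B (rev f')) o'.z' hδ (bc1 (RingHom.id B) (revh h))
      (bc1_b (RingHom.id B) (revh h)) (revh h) (bc1_x _ _) (bc1_y _ _)]
    exact congrArg₂ (· * ·) (congrArg r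
      ((map_neg _ _).trans (congrArg _ (bc1_x (RingHom.id B) (revh h)))).symm) rfl

/-- The swap of the forms. -/
noncomputable def rmSW (o : HOk f) (o' : HOk f') :
    RMap (RingHom.id B) (hRF o') (hRF o) (fun k' k : Bool => if k = !k' then 1 else 0) where
  κ := swc
  lam := fun e : Bool => !e
  hs e := by cases e <;> rfl
  ht e := by cases e <;> rfl
  g := swg h
  gE := swgE h
  form k' i R' _ r δ hδ := sw_form h o o' k' i r δ hδ

end sw

end Pool.Agent.MG.H2


end

section

/-!
# The covectors of quadratic polynomials on the curves `y² = f(x)`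
-/

open CategoryTheory CategoryTheory.Limits AlgebraicGeometry TensorProduct

namespace Pool.Agent.MG.H2

section

variable {B : Type} [CommRing B] {f : Fin 7 → B}

/-- The functionals on `H¹(O)`. -/
noncomputable def mab (f : Fin 7 → B) (al be : B) : ∀ e : Bool, hRE f e → B
  | true => fun v => al * cf (f := f) (-1) v - be * cf (f := f) (-2) v
  | false => fun v => - al * cf (f := rev f) (-2) v + be * cf (f := rev f) (-1) v

/-- The coefficients. -/
def cal (w : B) (c : Fin 3 → B) : Bool → B
  | true => c 0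
  | false => w * c 1

/-- The coefficients. -/
def cbe (w : B) (c : Fin 3 → B) : Bool → B
  | true => w * c 1
  | false => c 2

theorem mab_add (al be : B) (e : Bool) (v v' : hRE f e) :
    mab f al be e (v + v') = mab f al be e v + mab f al be e v' := by
  cases e
  · change - al * cf (f := rev f) (-2) (v + v') + be * cf (f := rev f) (-1) (v + v') =
      (- al * cf (f := rev f) (-2) v + be * cf (f := rev f) (-1) v) +
      (- al * cf (f := rev f) (-2) v' + be * cf (f := rev f) (-1) v')
    rw [map_add, map_add]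
    ring
  · change al * cf (f := f) (-1) (v + v') - be * cf (f := f) (-2) (v + v') =
      (al * cf (f := f) (-1) v - be * cf (f := f) (-2) v) +
      (al * cf (f := f) (-1) v' - be * cf (f := f) (-2) v')
    rw [map_add, map_add]
    ring

theorem mab_smul (al be : B) (e : Bool) (b : B) (v : hRE f e) :
    mab f al be e (hcE f e b * v) = b * mab f al be e v := by
  cases e
  · change - al * cf (f := rev f) (-2) (algebraMap B _ b * v) +
      be * cf (f := rev f) (-1) (algebraMap B _ b * v) =
      b * (- al * cf (f := rev f) (-2) v + be * cf (f := rev f) (-1) v)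
    rw [cf_b, cf_b]
    ring
  · change al * cf (f := f) (-1) (algebraMap B _ b * v) -
      be * cf (f := f) (-2) (algebraMap B _ b * v) =
      b * (al * cf (f := f) (-1) v - be * cf (f := f) (-2) v)
    rw [cf_b, cf_b]
    ring

theorem mab_ker (al be : B) (a : ∀ i, hR f i) :
    mab f al be true (hjs f true (a .T) - hjt f true (a .N)) +
      mab f al be false (hjs f false (a .Q) - hjt f false (a .N)) = 0 := by
  change (al * cf (f := f) (-1) (g1 B f (a .T) - a .N) -
      be * cf (f := f) (-2) (g1 B f (a .T) - a .N)) +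
    (- al * cf (f := rev f) (-2) (g1 B (rev f) (a .Q) - inv12 (rev_h' f) (a .N)) +
      be * cf (f := rev f) (-1) (g1 B (rev f) (a .Q) - inv12 (rev_h' f) (a .N))) = 0
  rw [map_sub, map_sub, map_sub, map_sub, cf_g1 (by norm_num), cf_g1 (by norm_num),
    cf_g1 (by norm_num), cf_g1 (by norm_num), (cf_inv12 _ _ _).1, (cf_inv12 _ _ _).1]
  norm_num
  ring

/-- The functionals of the covector with coefficients `c`. -/
noncomputable def hRM (o : HOk f) (w : B) (c : Fin 3 → B) : RM (hRF o) where
  μ := fun k e v => mab f (cal w c k) (cbe w c k) e v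
  add := fun _ e a b => mab_add _ _ e a b
  smul := fun _ e b a => mab_smul _ _ e b a
  ker := fun _ a => (Fintype.sum_bool _).trans (mab_ker _ _ a)

/-- The covector with coefficients `c` on `y² = f(x)`: it belongs to the quadratic polynomial
`c₀ - c₁ x + c₂ x²` if `2 w = 1`. -/
noncomputable def hcov (o : HOk f) (w : B) (c : Fin 3 → B) (g : ℕ) : Cov g (Hyp f) :=
  (hRM o w c).cov (hCh o) g

end

/-! ### Compatibility -/

section

variable {B B' : Type} [CommRing B] [CommRing B'] (φ : B →+* B') {f : Fin 7 → B}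
  {f' : Fin 7 → B'}

/-- Criterion. -/
theorem sum_crit (w : B) (c : Fin 3 → B) (w' : B') (c' : Fin 3 → B')
    {cc : Bool → Bool → B'} (lam : Bool → Bool) (gE : ∀ e, hRE f (lam e) →+* hRE f' e)
    (h : ∀ (k : Bool) (v : ∀ e, hRE f e),
      (mab f' (cc true k * cal w' c' true + cc false k * cal w' c' false)
          (cc true k * cbe w' c' true + cc false k * cbe w' c' false) true (gE true (v (lam true))) +
        mab f' (cc true k * cal w' c' true + cc false k * cal w' c' false)
          (cc true k * cbe w' c' true + cc false k * cbe w' c' false) false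
          (gE false (v (lam false)))) =
      φ (mab f (cal w c k) (cbe w c k) true (v true) +
        mab f (cal w c k) (cbe w c k) false (v false)))
    (v : Bool → ∀ e, hRE f e) :
    ∑ k' : Bool, ∑ e' : Bool, mab f' (cal w' c' k') (cbe w' c' k') e'
      (∑ k : Bool, hcE f' e' (cc k' k) * gE e' (v k (lam e'))) =
        φ (∑ k : Bool, ∑ e : Bool, mab f (cal w c k) (cbe w c k) e (v k e)) := by
  have lin : ∀ (al be al' be' s t : B') (e : Bool) (u : hRE f' e),
      s * mab f' al be e u + t * mab f' al' be' e u =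
        mab f' (s * al + t * al') (s * be + t * be') e u := by
    intro al be al' be' s t e u
    cases e
    · change s * (- al * cf (f := rev f') (-2) u + be * cf (f := rev f') (-1) u) +
        t * (- al' * cf (f := rev f') (-2) u + be' * cf (f := rev f') (-1) u) =
        - (s * al + t * al') * cf (f := rev f') (-2) u +
          (s * be + t * be') * cf (f := rev f') (-1) u
      ring
    · change s * (al * cf (f := f') (-1) u - be * cf (f := f') (-2) u) +
        t * (al' * cf (f := f') (-1) u - be' * cf (f := f') (-2) u) =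
        (s * al + t * al') * cf (f := f') (-1) u - (s * be + t * be') * cf (f := f') (-2) u
      ring
  have h1 := h true (v true)
  have h2 := h false (v false)
  rw [← lin, ← lin] at h1 h2
  simp only [Fintype.sum_bool, mab_add, mab_smul]
  rw [map_add, ← h1, ← h2]
  ring

end

end Pool.Agent.MG.H2


end

section

/-!
# The arrows between the curves `y² = f(x)` and the compatibility of the covectors
-/

open CategoryTheory CategoryTheory.Limits AlgebraicGeometry TensorProduct

namespace Pool.Agent.MG.H2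

section

variable {B B' : Type} [CommRing B] [CommRing B'] {φ : B →+* B'} {f : Fin 7 → B}
  {f' : Fin 7 → B'}

theorem inv12_g2 {B : Type} [CommRing B] (f : Fin 7 → B) (v : A2 B f) :
    inv12 (rev_h' f) (g2 B f v) = g1 B (rev f) v :=
  congrArg (fun g => g (g1 B (rev f) v)) (inv12_inv12 (rev_h f) (rev_h' f))

theorem inv12_inj {f f' : Fin 7 → B} (h : ∀ i, f' i = f (Fin.rev i)) :
    Function.Injective (inv12 h) := by
  have h' : ∀ i, f i = f' (Fin.rev i) := fun i => by simp [h]
  exact (invEquiv h h').injective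

theorem HH.c2 (h : HH φ f f') (v : A2 B f) : h.g .N (g2 B f v) = g2 B' f' (h.g .Q v) := by
  apply inv12_inj (rev_h' f')
  rw [← h.e3, inv12_g2, h.e2, inv12_g2]

/-- The ring homomorphisms. -/
noncomputable def HH.rhom (h : HH φ f f') : RHom φ f f' where
  h1 := h.g .T
  h2 := h.g .Q
  h12 := h.g .N
  b1 := h.gc .T
  b2 := h.gc .Q
  c1 := h.e1
  c2 := h.c2

theorem spMap_comp_assoc' {A B C : Type} [CommRing A] [CommRing B] [CommRing C] (f : A →+* B)
    (g : B →+* C) {Z : Scheme.{0}} (h : Sp A ⟶ Z) :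
    spMap g ≫ spMap f ≫ h = spMap (g.comp f) ≫ h := by
  rw [← Category.assoc, spMap_comp']

theorem HH.ι (h : HH φ f f') (o : HOk f) (o' : HOk f') (i : Ct) :
    (hCh o').ι i ≫ h.rhom.mor = spMap (h.g i) ≫ (hCh o).ι i := by
  cases i
  · exact h.rhom.in1_mor
  · change (spMap (g1 B' f') ≫ HX.in1 B' f') ≫ h.rhom.mor =
      spMap (h.g .N) ≫ spMap (g1 B f) ≫ HX.in1 B f
    rw [Category.assoc, h.rhom.in1_mor, spMap_comp_assoc', spMap_comp_assoc']
    congr 2
    exact RingHom.ext fun v => (h.e1 v).symm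
  · exact h.rhom.in2_mor

theorem HH.η (h : HH φ f f') (o : HOk f) (o' : HOk f') (e : Bool) :
    (hCh o').η e ≫ h.rhom.mor = spMap (h.ge e) ≫ (hCh o).η e := by
  cases e
  · change (spMap (g1 B' (rev f')) ≫ HX.in2 B' f') ≫ h.rhom.mor =
      spMap h.gE ≫ spMap (g1 B (rev f)) ≫ HX.in2 B f
    rw [Category.assoc, h.rhom.in2_mor, spMap_comp_assoc', spMap_comp_assoc']
    congr 2
    exact RingHom.ext fun v => (h.e2 v).symm
  · change (spMap (g1 B' f') ≫ HX.in1 B' f') ≫ h.rhom.mor =
      spMap (h.g .N) ≫ spMap (g1 B f) ≫ HX.in1 B f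
    rw [Category.assoc, h.rhom.in1_mor, spMap_comp_assoc', spMap_comp_assoc']
    congr 2
    exact RingHom.ext fun v => (h.e1 v).symm

/-- Compatibility of the covectors. -/
theorem HH.compat (h : HH φ f f') {o : HOk f} {o' : HOk f'} {cc : Bool → Bool → B'}
    (hom : h.Om o o' cc)
    (a : Arrow φ (Hyp f') (Hyp f)) (ha : a.f = h.rhom.mor) (w : B) (c : Fin 3 → B) (w' : B')
    (c' : Fin 3 → B')
    (hcc : ∀ (k : Bool) (v : ∀ e, hRE f e),
      (mab f' (cc true k * cal w' c' true + cc false k * cal w' c' false)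
          (cc true k * cbe w' c' true + cc false k * cbe w' c' false) true (h.ge true (v true)) +
        mab f' (cc true k * cal w' c' true + cc false k * cal w' c' false)
          (cc true k * cbe w' c' true + cc false k * cbe w' c' false) false
          (h.ge false (v false))) =
      φ (mab f (cal w c k) (cbe w c k) true (v true) +
        mab f (cal w c k) (cbe w c k) false (v false))) (g : ℕ) :
    Compat a (hcov o' w' c' g) (hcov o w c g) := by
  refine (h.rmap o o' cc hom).compat a (hCh o') (hCh o) ?_ ?_ (hRM o' w' c') (hRM o w c) ?_ g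
  · intro i
    rw [ha]
    exact h.ι o o' i
  · intro e
    rw [ha]
    exact h.η o o' e
  · intro v
    exact sum_crit φ w c w' c' (fun e => e) h.ge hcc v

end

/-! ### Isomorphisms -/

section iso

variable {B : Type} [CommRing B] {f f' : Fin 7 → B}

theorem RHom.mor_mor {f f' : Fin 7 → B} (h : RHom (RingHom.id B) f f')
    (h' : RHom (RingHom.id B) f' f) (h1 : ∀ v, h'.h1 (h.h1 v) = v) (h2 : ∀ v, h'.h2 (h.h2 v) = v) :
    h'.mor ≫ h.mor = 𝟙 _ := by
  refine HX.ext' ?_ ?_
  · have e : (h'.h1).comp h.h1 = RingHom.id _ := RingHom.ext h1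
    rw [← Category.assoc, h'.in1_mor, Category.assoc, h.in1_mor, spMap_comp_assoc', e, spMap_id,
      Category.id_comp, Category.comp_id]
  · have e : (h'.h2).comp h.h2 = RingHom.id _ := RingHom.ext h2
    rw [← Category.assoc, h'.in2_mor, Category.assoc, h.in2_mor, spMap_comp_assoc', e, spMap_id,
      Category.id_comp, Category.comp_id]

/-- The arrow of an isomorphism. -/
noncomputable def isoArr {x y : Fam 0 B} (g : x.X ⟶ y.X) (_ : IsIso g)
    (h : g ≫ y.π = x.π) : Arrow (RingHom.id B) x y where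
  f := g
  cart := by
    rw [spMap_id]
    exact IsPullback.of_horiz_isIso ⟨by rw [h, Category.comp_id]⟩
  sec i := i.elim0

theorem isIso_mor (h : RHom (RingHom.id B) f f')
    (h' : RHom (RingHom.id B) f' f) (h1 : ∀ v, h'.h1 (h.h1 v) = v) (h2 : ∀ v, h'.h2 (h.h2 v) = v)
    (h3 : ∀ v, h.h1 (h'.h1 v) = v) (h4 : ∀ v, h.h2 (h'.h2 v) = v) : IsIso h.mor :=
  ⟨h'.mor, h'.mor_mor h h3 h4, h.mor_mor h' h1 h2⟩

end iso

/-! ### Base change -/

section bc

variable {B B' : Type} [CommRing B] [CommRing B'] (φ : B →+* B') {f : Fin 7 → B}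
  {f' : Fin 7 → B'} (hf : ∀ i, f' i = φ (f i))

/-- Base change. -/
noncomputable def arrBC : Arrow φ (Hyp f') (Hyp f) where
  f := HX.map φ hf
  cart := t_HBC φ hf
  sec i := i.elim0

theorem arrBC_in1 : HX.in1 B' f' ≫ (arrBC φ hf).f = spMap (bc1 φ hf) ≫ HX.in1 B f :=
  HX.in1_map φ hf

theorem arrBC_compat (o : HOk f) (o' : HOk f') (w : B) (c : Fin 3 → B) (w' : B')
    (c' : Fin 3 → B') (hw : w' = φ w) (hc : ∀ j, c' j = φ (c j)) (g : ℕ) :
    Compat (arrBC φ hf) (hcov o' w' c' g) (hcov o w c g) := by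
  refine (hhBC φ hf).compat (omBC φ hf o o') (arrBC φ hf) rfl w c w' c' ?_ g
  intro k v
  have key : ∀ al be : B, mab f' (φ al) (φ be) true ((hhBC φ hf).ge true (v true)) +
      mab f' (φ al) (φ be) false ((hhBC φ hf).ge false (v false)) =
      φ (mab f al be true (v true) + mab f al be false (v false)) := by
    intro al be
    change (φ al * cf (f := f') (-1) (bc12 φ hf (v true)) -
        φ be * cf (f := f') (-2) (bc12 φ hf (v true))) +
      (- φ al * cf (f := rev f') (-2) (bc12 φ (rev_bc φ hf) (v false)) +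
        φ be * cf (f := rev f') (-1) (bc12 φ (rev_bc φ hf) (v false))) =
      φ ((al * cf (f := f) (-1) (v true) - be * cf (f := f) (-2) (v true)) +
        (- al * cf (f := rev f) (-2) (v false) + be * cf (f := rev f) (-1) (v false)))
    rw [(cf_bc12 φ hf _ _).1, (cf_bc12 φ hf _ _).1, (cf_bc12 φ (rev_bc φ hf) _ _).1,
      (cf_bc12 φ (rev_bc φ hf) _ _).1]
    simp only [map_add, map_sub, map_mul, map_neg]
  rw [← key]
  cases k
  · have e1 : cbc B' true false * cal w' c' true + cbc B' false false * cal w' c' false =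
        φ (cal w c false) := by
      simp [cal, hw, hc]
    have e2 : cbc B' true false * cbe w' c' true + cbc B' false false * cbe w' c' false =
        φ (cbe w c false) := by
      simp [cbe, hc]
    rw [e1, e2]
  · have e1 : cbc B' true true * cal w' c' true + cbc B' false true * cal w' c' false =
        φ (cal w c true) := by
      simp [cal, hc]
    have e2 : cbc B' true true * cbe w' c' true + cbc B' false true * cbe w' c' false =
        φ (cbe w c true) := by
      simp [cbe, hw, hc]
    rw [e1, e2]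

end bc

/-! ### Scaling -/

section sc

variable {B : Type} [CommRing B] {lam nu : Bˣ} {f f' : Fin 7 → B}
  (h : IsSc (lam : B) (nu : B) f f')

theorem sc1_inv1 (v : A1 B f) : sc1 h.inv (sc1 h v) = v :=
  congrArg (fun g => g v) (sc1_sc1 h h.inv)

theorem sc1_inv2 (v : A1 B f') : sc1 h (sc1 h.inv v) = v := by
  have : (sc1 h).comp (sc1 h.inv) = RingHom.id _ := by
    refine hom1_ext ?_ ?_ ?_
    · intro c
      simp
    · rw [RingHom.comp_apply, sc1_x, map_mul, sc1_b, sc1_x, ← mul_assoc, ← map_mul, Units.inv_mul,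
        map_one, one_mul, RingHom.id_apply]
    · rw [RingHom.comp_apply, sc1_y, map_mul, sc1_b, sc1_y, ← mul_assoc, ← map_mul, Units.inv_mul,
        map_one, one_mul, RingHom.id_apply]
  exact congrArg (fun g => g v) this

theorem units_aux (lam nu : Bˣ) : (nu : B) * ((lam⁻¹ ^ 3 : Bˣ) : B) *
    (((nu⁻¹ : Bˣ) : B) * (((lam⁻¹)⁻¹ ^ 3 : Bˣ) : B)) = 1 := by
  rw [← Units.val_mul, ← Units.val_mul, ← Units.val_mul, inv_inv]
  have : nu * lam⁻¹ ^ 3 * (nu⁻¹ * lam ^ 3) = 1 := by
    rw [mul_mul_mul_comm, mul_inv_cancel, one_mul, ← mul_pow, inv_mul_cancel, one_pow]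
  rw [this, Units.val_one]

theorem sc1_rev1 (v : A2 B f) : sc1 h.inv.rev (sc1 h.rev v) = v := by
  have : (sc1 h.inv.rev).comp (sc1 h.rev) = RingHom.id _ := by
    refine hom1_ext ?_ ?_ ?_
    · intro c
      simp
    · rw [RingHom.comp_apply, sc1_x, map_mul, sc1_b, sc1_x, ← mul_assoc, ← map_mul, Units.mul_inv,
        map_one, one_mul, RingHom.id_apply]
    · rw [RingHom.comp_apply, sc1_y, map_mul, sc1_b, sc1_y, ← mul_assoc, ← map_mul, units_aux,
        map_one, one_mul, RingHom.id_apply]
  exact congrArg (fun g => g v) this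

theorem sc1_rev2 (v : A2 B f') : sc1 h.rev (sc1 h.inv.rev v) = v := by
  have : (sc1 h.rev).comp (sc1 h.inv.rev) = RingHom.id _ := by
    refine hom1_ext ?_ ?_ ?_
    · intro c
      simp
    · rw [RingHom.comp_apply, sc1_x, map_mul, sc1_b, sc1_x, ← mul_assoc, ← map_mul, Units.inv_mul,
        map_one, one_mul, RingHom.id_apply]
    · rw [RingHom.comp_apply, sc1_y, map_mul, sc1_b, sc1_y, ← mul_assoc, ← map_mul,
        mul_comm (((nu⁻¹ : Bˣ) : B) * _), units_aux, map_one, one_mul, RingHom.id_apply]
  exact congrArg (fun g => g v) this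

theorem isIso_sc : IsIso (hhSC h).rhom.mor :=
  isIso_mor (hhSC h).rhom (hhSC h.inv).rhom (sc1_inv1 h) (sc1_rev1 h) (sc1_inv2 h) (sc1_rev2 h)

/-- Scaling. -/
noncomputable def arrSC : Arrow (RingHom.id B) (Hyp f') (Hyp f) :=
  isoArr (x := Hyp f') (y := Hyp f) (hhSC h).rhom.mor (isIso_sc h) (by
    have := (hhSC h).rhom.mor_pr
    rw [spMap_id, Category.comp_id] at this
    exact this)

theorem arrSC_in1 : HX.in1 B f' ≫ (arrSC h).f = spMap (sc1 h) ≫ HX.in1 B f :=
  (hhSC h).rhom.in1_mor

theorem arrSC_compat (o : HOk f) (o' : HOk f') (w : B) (c c' : Fin 3 → B)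
    (hc : ∀ j : Fin 3, (nu : B) ^ 2 * c' j = (lam : B) ^ (2 + (j : ℕ)) * c j) (g : ℕ) :
    Compat (arrSC h) (hcov o' w c' g) (hcov o w c g) := by
  refine (hhSC h).compat (omSC h o o') (arrSC h) rfl w c w c' ?_ g
  intro k v
  set li : B := ((lam⁻¹ : Bˣ) : B) with hli
  have l1 : (lam : B) * li = 1 := Units.mul_inv _
  have c0 : (nu : B) ^ 2 * li ^ 2 * c' 0 = c 0 := by
    have := hc 0
    simp only [Fin.val_zero, add_zero] at this
    linear_combination li ^ 2 * this + (c 0 * (lam * li + 1)) * l1
  have c1 : (nu : B) ^ 2 * li ^ 3 * c' 1 = c 1 := by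
    have := hc 1
    simp only [Fin.val_one] at this
    have l3 : (lam : B) ^ 3 * li ^ 3 = 1 := by rw [← mul_pow, l1, one_pow]
    linear_combination li ^ 3 * this + (c 1) * l3
  have c2 : (nu : B) ^ 2 * li ^ 4 * c' 2 = c 2 := by
    have := hc 2
    simp only [Fin.val_two] at this
    have l4 : (lam : B) ^ 4 * li ^ 4 = 1 := by rw [← mul_pow, l1, one_pow]
    linear_combination li ^ 4 * this + (c 2) * l4
  have p1 : ((lam ^ (-1 : ℤ) : Bˣ) : B) * (nu : B) = nu * li := by
    rw [zpow_neg_one]
    ring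
  have p2 : ((lam ^ (-2 : ℤ) : Bˣ) : B) * (nu : B) = nu * li ^ 2 := by
    have : lam ^ (-2 : ℤ) = lam⁻¹ ^ 2 := by
      rw [← zpow_natCast, inv_zpow', Nat.cast_ofNat]
    rw [this, Units.val_pow_eq_pow_val]
    ring
  have p3 : (((lam⁻¹ : Bˣ) ^ (-2 : ℤ) : Bˣ) : B) * ((nu : B) * ((lam⁻¹ ^ 3 : Bˣ) : B)) =
      nu * li := by
    have : (lam⁻¹ : Bˣ) ^ (-2 : ℤ) = lam ^ 2 := by
      rw [← zpow_natCast, inv_zpow', Nat.cast_ofNat, neg_neg]
    rw [this, Units.val_pow_eq_pow_val, Units.val_pow_eq_pow_val]
    linear_combination (nu * li * (lam * li + 1)) * l1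
  have p4 : (((lam⁻¹ : Bˣ) ^ (-1 : ℤ) : Bˣ) : B) * ((nu : B) * ((lam⁻¹ ^ 3 : Bˣ) : B)) =
      nu * li ^ 2 := by
    have : (lam⁻¹ : Bˣ) ^ (-1 : ℤ) = lam := by
      rw [zpow_neg_one, inv_inv]
    rw [this, Units.val_pow_eq_pow_val]
    linear_combination (nu * li ^ 2) * l1
  have key : ∀ al be : B, mab f' al be true ((hhSC h).ge true (v true)) +
      mab f' al be false ((hhSC h).ge false (v false)) =
      mab f (nu * li * al) (nu * li ^ 2 * be) true (v true) +
        mab f (nu * li * al) (nu * li ^ 2 * be) false (v false) := by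
    intro al be
    change (al * cf (f := f') (-1) (sc12 h (v true)) -
        be * cf (f := f') (-2) (sc12 h (v true))) +
      (- al * cf (f := rev f') (-2) (sc12 h.rev (v false)) +
        be * cf (f := rev f') (-1) (sc12 h.rev (v false))) =
      ((nu * li * al) * cf (f := f) (-1) (v true) - (nu * li ^ 2 * be) * cf (f := f) (-2) (v true)) +
        (- (nu * li * al) * cf (f := rev f) (-2) (v false) +
          (nu * li ^ 2 * be) * cf (f := rev f) (-1) (v false))
    rw [(cf_sc12 h _ _).1, (cf_sc12 h _ _).1, (cf_sc12 h.rev _ _).1, (cf_sc12 h.rev _ _).1, p1, p2,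
      p3, p4]
    ring
  rw [key, RingHom.id_apply]
  cases k
  · have e1 : nu * li * (csc lam nu true false * cal w c' true +
        csc lam nu false false * cal w c' false) = cal w c false := by
      simp only [csc, cal, if_true, Bool.false_eq_true, if_false, Units.val_mul,
        Units.val_pow_eq_pow_val]
      linear_combination w * c1
    have e2 : nu * li ^ 2 * (csc lam nu true false * cbe w c' true +
        csc lam nu false false * cbe w c' false) = cbe w c false := by
      simp only [csc, cbe, if_true, Bool.false_eq_true, if_false, Units.val_mul,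
        Units.val_pow_eq_pow_val]
      linear_combination c2
    rw [e1, e2]
  · have e1 : nu * li * (csc lam nu true true * cal w c' true +
        csc lam nu false true * cal w c' false) = cal w c true := by
      simp only [csc, cal, if_true, if_false, Bool.true_eq_false, Units.val_mul,
        Units.val_pow_eq_pow_val]
      linear_combination c0
    have e2 : nu * li ^ 2 * (csc lam nu true true * cbe w c' true +
        csc lam nu false true * cbe w c' false) = cbe w c true := by
      simp only [csc, cbe, if_true, if_false, Bool.true_eq_false, Units.val_mul,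
        Units.val_pow_eq_pow_val]
      linear_combination w * c1
    rw [e1, e2]

end sc

/-! ### Infinitesimal translation -/

section tr

variable {B : Type} [CommRing B] {e : B} {f f' : Fin 7 → B} (he : e * e = 0) (h : IsTr e f f')

theorem neg_sq (he : e * e = 0) : (-e) * (-e) = 0 := by rw [neg_mul_neg, he]

theorem tr1_inv {e' : B} (he : e * e = 0) (he' : e' * e' = 0) (hs : e' + e = 0) {f f' : Fin 7 → B}
    (h : IsTr e f f') (h' : IsTr e' f' f) (v : A1 B f) : tr1 he' h' (tr1 he h v) = v := by
  have : (tr1 he' h').comp (tr1 he h) = RingHom.id _ := by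
    refine hom1_ext ?_ ?_ ?_
    · intro c
      simp
    · rw [RingHom.comp_apply, tr1_x, map_add, tr1_b, tr1_x, add_assoc, ← map_add, hs, map_zero,
        add_zero, RingHom.id_apply]
    · rw [RingHom.comp_apply, tr1_y, tr1_y, RingHom.id_apply]
  exact congrArg (fun g => g v) this

theorem trq_inv {e' : B} (he : e * e = 0) (he' : e' * e' = 0) (hs : e' + e = 0) {f f' : Fin 7 → B}
    (h : IsTr e f f') (h' : IsTr e' f' f) (v : A2 B f) : trq he' h' (trq he h v) = v := by
  have hs1 : e' = -e := by linear_combination hs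
  subst hs1
  have hc : algebraMap B (A2 B f) e * algebraMap B (A2 B f) e = 0 := alg_sq _ he
  have : (trq he' h').comp (trq he h) = RingHom.id _ := by
    refine hom1_ext ?_ ?_ ?_
    · intro c
      simp
    · rw [RingHom.comp_apply, trq_x, map_sub, map_mul, map_pow, trq_b, trq_x, RingHom.id_apply,
        map_neg]
      linear_combination (-2 * x1 B (rev f) ^ 3 - algebraMap B _ e * x1 B (rev f) ^ 4) * hc
    · rw [RingHom.comp_apply, trq_y, map_mul, map_sub, map_mul, map_mul, map_one, map_ofNat, trq_b,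
        trq_x, trq_y, RingHom.id_apply, map_neg]
      linear_combination (-12 * x1 B (rev f) ^ 2 * y1 B (rev f) -
        9 * algebraMap B _ e * x1 B (rev f) ^ 3 * y1 B (rev f)) * hc
  exact congrArg (fun g => g v) this

theorem isIso_tr : IsIso (hhTR he h).rhom.mor :=
  isIso_mor (hhTR he h).rhom (hhTR (neg_sq he) (h.neg he)).rhom
    (tr1_inv he (neg_sq he) (neg_add_cancel e) h (h.neg he))
    (trq_inv he (neg_sq he) (neg_add_cancel e) h (h.neg he))
    (tr1_inv (neg_sq he) he (add_neg_cancel e) (h.neg he) h)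
    (trq_inv (neg_sq he) he (add_neg_cancel e) (h.neg he) h)

/-- Infinitesimal translation. -/
noncomputable def arrTR : Arrow (RingHom.id B) (Hyp f') (Hyp f) :=
  isoArr (x := Hyp f') (y := Hyp f) (hhTR he h).rhom.mor (isIso_tr he h) (by
    have := (hhTR he h).rhom.mor_pr
    rw [spMap_id, Category.comp_id] at this
    exact this)

theorem arrTR_in1 : HX.in1 B f' ≫ (arrTR he h).f = spMap (tr1 he h) ≫ HX.in1 B f :=
  (hhTR he h).rhom.in1_mor

theorem utr_zpow {S : Type} [CommRing S] (x : Sˣ) (e : S) (he : e * e = 0) (m : ℤ) :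
    ((utr x e he ^ m : Sˣ) : S) = (x ^ m : Sˣ) + (m : S) * e * ((x ^ (m - 1) : Sˣ) : S) := by
  have hi : ((utr x e he)⁻¹ : Sˣ).val = ((x⁻¹ : Sˣ) : S) - e * ((x⁻¹ : Sˣ) : S) ^ 2 := rfl
  have hv : (utr x e he : S) = x + e := rfl
  have hx : (x : S) * (x⁻¹ : Sˣ) = 1 := Units.mul_inv x
  induction m using Int.induction_on with
  | zero => simp
  | succ m ih =>
    rw [zpow_add_one, Units.val_mul, ih, hv, zpow_add_one, Units.val_mul, add_sub_cancel_right]
    have h1 : ((x ^ ((m : ℤ) - 1) : Sˣ) : S) * x = ((x ^ (m : ℤ) : Sˣ) : S) := by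
      rw [← Units.val_mul, ← zpow_add_one, sub_add_cancel]
    push_cast
    linear_combination ((m : S) * e) * h1 + ((m : S) * ((x ^ ((m : ℤ) - 1) : Sˣ) : S)) * he
  | pred m ih =>
    rw [zpow_sub_one, Units.val_mul, ih, hi, zpow_sub_one, Units.val_mul]
    have h1 : ((x ^ (-(m : ℤ) - 1) : Sˣ) : S) = ((x ^ (-(m : ℤ)) : Sˣ) : S) * (x⁻¹ : Sˣ) := by
      rw [← Units.val_mul, ← zpow_sub_one]
    have h2 : ((x ^ (-(m : ℤ) - 1 - 1) : Sˣ) : S) =
        ((x ^ (-(m : ℤ)) : Sˣ) : S) * (x⁻¹ : Sˣ) * (x⁻¹ : Sˣ) := by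
      rw [zpow_sub_one, Units.val_mul, h1]
    rw [h2]
    push_cast
    linear_combination ((m : S) * ((x ^ (-(m : ℤ)) : Sˣ) : S) * ((x⁻¹ : Sˣ) : S) ^ 3) * he

theorem utq_zpow {S : Type} [CommRing S] (x : Sˣ) (e : S) (he : e * e = 0) (m : ℤ) :
    ((utq x e he ^ m : Sˣ) : S) = (x ^ m : Sˣ) - (m : S) * e * ((x ^ (m + 1) : Sˣ) : S) := by
  have hi : ((utq x e he)⁻¹ : Sˣ).val = ((x⁻¹ : Sˣ) : S) + e := rfl
  have hv : (utq x e he : S) = x - e * (x : S) ^ 2 := rfl
  have hx : (x : S) * (x⁻¹ : Sˣ) = 1 := Units.mul_inv x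
  induction m using Int.induction_on with
  | zero => simp
  | succ m ih =>
    rw [zpow_add_one, Units.val_mul, ih, hv, zpow_add_one (x) ((m : ℤ) + 1), Units.val_mul,
      zpow_add_one, Units.val_mul]
    push_cast
    linear_combination ((m : S) * ((x ^ (m : ℤ) : Sˣ) : S) * (x : S) ^ 3) * he
  | pred m ih =>
    rw [zpow_sub_one, Units.val_mul, ih, hi, sub_add_cancel, zpow_sub_one, Units.val_mul]
    have h1 : ((x ^ (-(m : ℤ) + 1) : Sˣ) : S) = ((x ^ (-(m : ℤ)) : Sˣ) : S) * x := by
      rw [← Units.val_mul, ← zpow_add_one]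
    rw [h1]
    push_cast
    linear_combination ((m : S) * ((x ^ (-(m : ℤ)) : Sˣ) : S) * e) * hx +
      ((m : S) * ((x ^ (-(m : ℤ)) : Sˣ) : S) * x) * he

theorem cf_tr12 (v : A12 B f) (j : ℤ) : cf j (tr12 he h v) =
    cf j v + (j + 1) * e * cf (j + 1) v := by
  have hc : algebraMap B (A12 B f') e * algebraMap B (A12 B f') e = 0 := alg_sq _ he
  have hp : ∀ m : ℤ, tr12 he h ((xu B f) ^ m : (A12 B f)ˣ).val =
      ((xu B f') ^ m : (A12 B f')ˣ).val + algebraMap B _ ((m : B) * e) *
        ((xu B f') ^ (m - 1) : (A12 B f')ˣ).val := by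
    intro m
    rw [map_zpow_val (tr12 he h) (xu B f) (utr (xu B f') (algebraMap B _ e) hc) (tr12_x he h) m,
      utr_zpow, map_mul, map_intCast]
  refine A12_ind (P := fun v => cf j (tr12 he h v) = cf j v + (j + 1) * e * cf (j + 1) v) v
    ?_ ?_ ?_
  · intro v w h1 h2
    simp only [map_add, h1, h2]
    ring
  · intro c m
    have e1 : tr12 he h (algebraMap B (A12 B f) c * ((xu B f) ^ m : (A12 B f)ˣ).val) =
        algebraMap B (A12 B f') c * ((xu B f') ^ m : (A12 B f')ˣ).val +
        algebraMap B (A12 B f') (c * ((m : B) * e)) * ((xu B f') ^ (m - 1) : (A12 B f')ˣ).val := by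
      rw [map_mul, tr12_b, hp, map_mul (algebraMap B (A12 B f')) c]
      ring
    rw [e1, map_add, cf_mono, cf_mono, cf_mono, cf_mono]
    ring
  · intro c m
    have e1 : tr12 he h (algebraMap B (A12 B f) c * ((xu B f) ^ m : (A12 B f)ˣ).val * yv B f) =
        algebraMap B (A12 B f') c * ((xu B f') ^ m : (A12 B f')ˣ).val * yv B f' +
        algebraMap B (A12 B f') (c * ((m : B) * e)) * ((xu B f') ^ (m - 1) : (A12 B f')ˣ).val *
          yv B f' := by
      rw [map_mul, map_mul, tr12_b, hp, tr12_y, map_mul (algebraMap B (A12 B f')) c]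
      ring
    rw [e1, map_add, cf_mono_y, cf_mono_y, cf_mono_y, cf_mono_y]
    by_cases hm : m = j + 1
    · rw [if_pos (show m - 1 = j by omega), if_pos hm, hm]
      push_cast
      ring
    · rw [if_neg (show ¬ (m - 1 = j) by omega), if_neg hm]
      ring

theorem cf_trE (v : A12 B (rev f)) (j : ℤ) : cf j (trE he h v) =
    cf j v - (j + 2) * e * cf (j - 1) v := by
  have hc : algebraMap B (A12 B (rev f')) e * algebraMap B (A12 B (rev f')) e = 0 := alg_sq _ he
  have hp : ∀ m : ℤ, trE he h ((xu B (rev f)) ^ m : (A12 B (rev f))ˣ).val =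
      ((xu B (rev f')) ^ m : (A12 B (rev f'))ˣ).val - algebraMap B _ ((m : B) * e) *
        ((xu B (rev f')) ^ (m + 1) : (A12 B (rev f'))ˣ).val := by
    intro m
    rw [map_zpow_val (trE he h) (xu B (rev f)) (utq (xu B (rev f')) (algebraMap B _ e) hc)
      (trE_x he h) m, utq_zpow, map_mul, map_intCast]
  refine A12_ind (P := fun v => cf j (trE he h v) = cf j v - (j + 2) * e * cf (j - 1) v) v
    ?_ ?_ ?_
  · intro v w h1 h2
    simp only [map_add, h1, h2]
    ring
  · intro c m
    have e1 : trE he h (algebraMap B (A12 B (rev f)) c *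
          ((xu B (rev f)) ^ m : (A12 B (rev f))ˣ).val) =
        algebraMap B (A12 B (rev f')) c * ((xu B (rev f')) ^ m : (A12 B (rev f'))ˣ).val -
        algebraMap B (A12 B (rev f')) (c * ((m : B) * e)) *
          ((xu B (rev f')) ^ (m + 1) : (A12 B (rev f'))ˣ).val := by
      rw [map_mul, trE_b, hp, map_mul (algebraMap B (A12 B (rev f'))) c]
      ring
    rw [e1, map_sub, cf_mono, cf_mono, cf_mono, cf_mono]
    ring
  · intro c m
    have hq : ((xu B (rev f')) ^ (m + 1) : (A12 B (rev f'))ˣ).val =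
        ((xu B (rev f')) ^ m : (A12 B (rev f'))ˣ).val * (xu B (rev f') : A12 B (rev f')) := by
      rw [zpow_add_one, Units.val_mul]
    have e1 : trE he h (algebraMap B (A12 B (rev f)) c *
          ((xu B (rev f)) ^ m : (A12 B (rev f))ˣ).val * yv B (rev f)) =
        algebraMap B (A12 B (rev f')) c * ((xu B (rev f')) ^ m : (A12 B (rev f'))ˣ).val *
          yv B (rev f') -
        algebraMap B (A12 B (rev f')) (c * (((m : B) + 3) * e)) *
          ((xu B (rev f')) ^ (m + 1) : (A12 B (rev f'))ˣ).val * yv B (rev f') := by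
      rw [map_mul, map_mul, trE_b, hp, trE_y, map_mul (algebraMap B (A12 B (rev f'))) c,
        map_mul (algebraMap B (A12 B (rev f'))) _ e, map_mul (algebraMap B (A12 B (rev f'))) _ e,
        map_add, map_ofNat, hq]
      linear_combination (3 * algebraMap B (A12 B (rev f')) c *
        algebraMap B (A12 B (rev f')) (m : B) *
        ((xu B (rev f')) ^ m : (A12 B (rev f'))ˣ).val *
        (xu B (rev f') : A12 B (rev f')) ^ 2 * yv B (rev f')) * hc
    rw [e1, map_sub, cf_mono_y, cf_mono_y, cf_mono_y, cf_mono_y]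
    by_cases hm : m + 1 = j
    · rw [if_pos hm, if_pos (show m = j - 1 by omega), ← hm]
      push_cast
      ring
    · rw [if_neg hm, if_neg (show ¬ (m = j - 1) by omega)]
      ring

theorem arrTR_compat (o : HOk f) (o' : HOk f') (w : B) (hw : 2 * w = 1) (c c' : Fin 3 → B)
    (hc0 : c 0 = c' 0 + e * c' 1) (hc1 : c 1 = c' 1 + 2 * e * c' 2) (hc2 : c 2 = c' 2) (g : ℕ) :
    Compat (arrTR he h) (hcov o' w c' g) (hcov o w c g) := by
  refine (hhTR he h).compat (omTR he h o o') (arrTR he h) rfl w c w c' ?_ g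
  intro k v
  have key : ∀ al be : B, mab f' al be true ((hhTR he h).ge true (v true)) +
      mab f' al be false ((hhTR he h).ge false (v false)) =
      mab f (al + e * be) be true (v true) + mab f (al + e * be) be false (v false) := by
    intro al be
    change (al * cf (f := f') (-1) (tr12 he h (v true)) -
        be * cf (f := f') (-2) (tr12 he h (v true))) +
      (- al * cf (f := rev f') (-2) (trE he h (v false)) +
        be * cf (f := rev f') (-1) (trE he h (v false))) =
      ((al + e * be) * cf (f := f) (-1) (v true) - be * cf (f := f) (-2) (v true)) +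
        (- (al + e * be) * cf (f := rev f) (-2) (v false) +
          be * cf (f := rev f) (-1) (v false))
    rw [cf_tr12, cf_tr12, cf_trE, cf_trE]
    norm_num
    ring
  rw [key, RingHom.id_apply]
  cases k
  · have e1 : ctr e true false * cal w c' true + ctr e false false * cal w c' false +
        e * (ctr e true false * cbe w c' true + ctr e false false * cbe w c' false) =
        cal w c false := by
      simp only [ctr, cal, cbe, if_true, Bool.false_eq_true, if_false]
      linear_combination (-w) * hc1 - (e * c' 2) * hw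
    have e2 : ctr e true false * cbe w c' true + ctr e false false * cbe w c' false =
        cbe w c false := by
      simp only [ctr, cbe, if_true, Bool.false_eq_true, if_false]
      linear_combination -hc2
    rw [e1, e2]
  · have e1 : ctr e true true * cal w c' true + ctr e false true * cal w c' false +
        e * (ctr e true true * cbe w c' true + ctr e false true * cbe w c' false) =
        cal w c true := by
      simp only [ctr, cal, cbe, if_true, if_false, Bool.true_eq_false]
      linear_combination -hc0 + (e * c' 1) * hw + c' 2 * he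
    have e2 : ctr e true true * cbe w c' true + ctr e false true * cbe w c' false =
        cbe w c true := by
      simp only [ctr, cbe, if_true, if_false, Bool.true_eq_false]
      linear_combination (-w) * hc1 - (e * c' 2) * hw
    rw [e1, e2]

end tr

/-! ### Swap -/

section sw

variable {B : Type} [CommRing B] {f f' : Fin 7 → B} (h : ∀ i, f' i = f (Fin.rev i))

/-- The swap on the first chart. -/
noncomputable def sw1 : A1 B (rev f) →+* A1 B f' :=
  bc1 (RingHom.id B) (f := rev f) (f' := f') h

/-- The swap on the second chart. -/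
noncomputable def sw2 : A1 B f →+* A1 B (rev f') := bc1 (RingHom.id B) (revh h)

/-- The swap on the first edge. -/
noncomputable def swE : A12 B (rev f) →+* A12 B f' :=
  bc12 (RingHom.id B) (f := rev f) (f' := f') h

/-- The swap on the second edge. -/
noncomputable def swF : A12 B f →+* A12 B (rev f') := bc12 (RingHom.id B) (revh h)

theorem sw_e1 : (g1 B f').comp (sw1 h) = (swE h).comp (g1 B (rev f)) :=
  RingHom.ext fun v => (bc12_g1 (RingHom.id B) (f := rev f) (f' := f') h v).symm

theorem sw_e1' : (g1 B (rev f')).comp (sw2 h) = (swF h).comp (g1 B f) :=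
  RingHom.ext fun v => (bc12_g1 (RingHom.id B) (revh h) v).symm

theorem sw_e2 : (g2 B f').comp (sw2 h) = (inv12 h).comp (g1 B f) := by
  refine hom1_ext ?_ ?_ ?_
  · intro c
    change g2 B f' (bc1 (RingHom.id B) (revh h) (algebraMap B _ c)) =
      inv12 h (g1 B f (algebraMap B _ c))
    rw [bc1_b, g2_b, g1_b, inv12_b, RingHom.id_apply]
  · change g2 B f' (bc1 (RingHom.id B) (revh h) (x1 B f)) = inv12 h (g1 B f (x1 B f))
    rw [bc1_x, g2_u, ← xu_val, inv12_x]
  · change g2 B f' (bc1 (RingHom.id B) (revh h) (y1 B f)) = inv12 h (g1 B f (y1 B f))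
    rw [bc1_y, g2_v, g1_y, inv12_y]

theorem sw_e3 : (swE h).comp (inv12 (rev_h' f)) = inv12 h := by
  refine hom12_ext ?_ ?_ ?_
  · intro c
    change bc12 (RingHom.id B) (f := rev f) (f' := f') h (inv12 (rev_h' f) _) = _
    simp
  · change bc12 (RingHom.id B) (f := rev f) (f' := f') h (inv12 (rev_h' f) _) = _
    rw [inv12_x, bc12_xi, inv12_x]
  · change bc12 (RingHom.id B) (f := rev f) (f' := f') h (inv12 (rev_h' f) _) = _
    rw [inv12_y, map_mul, bc12_y, Units.val_pow_eq_pow_val, map_pow, bc12_xi, inv12_y,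
      Units.val_pow_eq_pow_val]

theorem sw_e3' {Z : Scheme.{0}} (g : Sp (A12 B f) ⟶ Z) :
    spMap (swE h) ≫ spMap (inv12 (rev_h' f)) ≫ g = spMap (inv12 h) ≫ g := by
  rw [spMap_comp_assoc', sw_e3]

/-- The swap as a morphism. -/
noncomputable def swMor : HX B f' ⟶ HX B f :=
  pushout.desc (spMap (sw1 h) ≫ HX.in2 B f) (spMap (sw2 h) ≫ HX.in1 B f) (by
    rw [spMap_comp_assoc', spMap_comp_assoc', sw_e1, sw_e2, ← spMap_comp_assoc', HX.cond', sw_e3',
      spMap_comp_assoc'])

@[reassoc]
theorem in1_sw : HX.in1 B f' ≫ swMor h = spMap (sw1 h) ≫ HX.in2 B f := pushout.inl_desc _ _ _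

@[reassoc]
theorem in2_sw : HX.in2 B f' ≫ swMor h = spMap (sw2 h) ≫ HX.in1 B f := pushout.inr_desc _ _ _

theorem bc1_id_inv {p q : Fin 7 → B} (h1 : ∀ i, q i = RingHom.id B (p i))
    (h2 : ∀ i, p i = RingHom.id B (q i)) :
    (bc1 (RingHom.id B) h2).comp (bc1 (RingHom.id B) h1) = RingHom.id _ := by
  refine hom1_ext ?_ ?_ ?_
  · intro c
    simp
  · simp
  · simp

theorem sw_sw (h' : ∀ i, f i = f' (Fin.rev i)) : swMor h' ≫ swMor h = 𝟙 _ := by
  refine HX.ext' ?_ ?_
  · have e : (sw1 h').comp (sw2 h) = RingHom.id _ := bc1_id_inv (revh h) h'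
    rw [← Category.assoc, in1_sw, Category.assoc, in2_sw, spMap_comp_assoc', e, spMap_id,
      Category.id_comp, Category.comp_id]
  · have e : (sw2 h').comp (sw1 h) = RingHom.id _ :=
      bc1_id_inv (p := rev f) (q := f') h (revh h')
    rw [← Category.assoc, in2_sw, Category.assoc, in1_sw, spMap_comp_assoc', e, spMap_id,
      Category.id_comp, Category.comp_id]

omit [CommRing B] in
include h in
theorem sw_hsymm (i : Fin 7) : f i = f' (Fin.rev i) := by rw [h, Fin.rev_rev]

theorem isIso_sw : IsIso (swMor h) :=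
  ⟨swMor (sw_hsymm h), sw_sw (sw_hsymm h) h, sw_sw h (sw_hsymm h)⟩

/-- The swap. -/
noncomputable def arrSW : Arrow (RingHom.id B) (Hyp f') (Hyp f) :=
  isoArr (x := Hyp f') (y := Hyp f) (swMor h) (isIso_sw h) (by
    change swMor h ≫ HX.pr B f = HX.pr B f'
    have e1 : (sw1 h).comp (algebraMap B (A1 B (rev f))) = algebraMap B (A1 B f') :=
      RingHom.ext fun c => bc1_b (RingHom.id B) (f := rev f) (f' := f') h c
    have e2 : (sw2 h).comp (algebraMap B (A1 B f)) = algebraMap B (A1 B (rev f')) :=
      RingHom.ext fun c => bc1_b (RingHom.id B) (revh h) c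
    refine HX.ext' ?_ ?_
    · rw [← Category.assoc, in1_sw, Category.assoc, HX.in2_pr, HX.in1_pr, spMap_comp', e1]
    · rw [← Category.assoc, in2_sw, Category.assoc, HX.in1_pr, HX.in2_pr, spMap_comp', e2])

theorem arrSW_in1 : HX.in1 B f' ≫ (arrSW h).f = spMap (sw1 h) ≫ HX.in2 B f := in1_sw h

theorem arrSW_in2 : HX.in2 B f' ≫ (arrSW h).f = spMap (sw2 h) ≫ HX.in1 B f := in2_sw h

theorem arrSW_compat (o : HOk f) (o' : HOk f') (w : B) (c c' : Fin 3 → B)
    (hc : ∀ j, c' j = c (Fin.rev j)) (g : ℕ) :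
    Compat (arrSW h) (hcov o' w c' g) (hcov o w c g) := by
  refine (rmSW h o o').compat (arrSW h) (hCh o') (hCh o) ?_ ?_ (hRM o' w c') (hRM o w c) ?_ g
  · intro i
    cases i
    · exact in1_sw h
    · change (spMap (g1 B f') ≫ HX.in1 B f') ≫ swMor h =
        spMap (inv12 h) ≫ spMap (g1 B f) ≫ HX.in1 B f
      rw [Category.assoc, in1_sw, spMap_comp_assoc', sw_e1, ← spMap_comp_assoc', HX.cond', sw_e3']
    · exact in2_sw h
  · intro e
    cases e
    · change (spMap (g1 B (rev f')) ≫ HX.in2 B f') ≫ swMor h =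
        spMap (swF h) ≫ spMap (g1 B f) ≫ HX.in1 B f
      rw [Category.assoc, in2_sw, spMap_comp_assoc', sw_e1', ← spMap_comp_assoc']
    · change (spMap (g1 B f') ≫ HX.in1 B f') ≫ swMor h =
        spMap (swE h) ≫ spMap (g1 B (rev f)) ≫ HX.in2 B f
      rw [Category.assoc, in1_sw, spMap_comp_assoc', sw_e1, ← spMap_comp_assoc']
  · intro v
    refine sum_crit (RingHom.id B) w c w c' (cc := fun k' k : Bool => if k = !k' then 1 else 0)
      (fun e => !e) (swgE h) ?_ v
    intro k u
    have key : ∀ al be : B, mab f' al be true (swgE h true (u (!true))) +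
        mab f' al be false (swgE h false (u (!false))) =
        mab f be al true (u true) + mab f be al false (u false) := by
      intro al be
      change (al * cf (f := f') (-1) (bc12 (RingHom.id B) (f := rev f) (f' := f') h (u false)) -
          be * cf (f := f') (-2) (bc12 (RingHom.id B) (f := rev f) (f' := f') h (u false))) +
        (- al * cf (f := rev f') (-2) (bc12 (RingHom.id B) (revh h) (u true)) +
          be * cf (f := rev f') (-1) (bc12 (RingHom.id B) (revh h) (u true))) =
        (be * cf (f := f) (-1) (u true) - al * cf (f := f) (-2) (u true)) +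
          (- be * cf (f := rev f) (-2) (u false) + al * cf (f := rev f) (-1) (u false))
      rw [(cf_bc12 (RingHom.id B) (f := rev f) (f' := f') h _ _).1,
        (cf_bc12 (RingHom.id B) (f := rev f) (f' := f') h _ _).1,
        (cf_bc12 (RingHom.id B) (revh h) _ _).1, (cf_bc12 (RingHom.id B) (revh h) _ _).1]
      simp only [RingHom.id_apply]
      ring
    rw [key, RingHom.id_apply]
    have c0 : c' 0 = c 2 := hc 0
    have c1 : c' 1 = c 1 := hc 1
    have c2 : c' 2 = c 0 := hc 2
    cases k
    · simp [cal, cbe, c0, c1]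
    · simp [cal, cbe, c1, c2]

end sw

end Pool.Agent.MG.H2


end
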