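import Mathlib
import Pool.Agent.KDM.C19
import Pool.Agent.KDM.C20

/-! Parts: MG.Two2.AlgDefsN, MG.Two2.Alg9, MG.Two2.Alg10, MG.Two2.Alg11, MG.Two2.Alg12, MG.Two2.Alg, MG.Two2.AlgN1, MG.Two2.AlgN2, MG.Two2.AlgN3, MG.Two2.AlgN, MG.H2.YHX -/

section

/-!
# Pure algebra part of the case `(g, n) = (2, n)`: data over normal domains only
-/

open Polynomial

namespace Pool.Agent.MG.Two2

/-- The data of `S f q` over all integrally closed domains over `k`. -/
structure DatN (k : Type) [Field k] where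
  /-- the value -/
  S : ∀ (B : Type) [CommRing B] [IsDomain B] [IsIntegrallyClosed B] [Algebra k B],
    B[X] → B[X] → B
  nat : ∀ (B B' : Type) [CommRing B] [IsDomain B] [IsIntegrallyClosed B] [Algebra k B]
    [CommRing B'] [IsDomain B'] [IsIntegrallyClosed B'] [Algebra k B'] (φ : B →ₐ[k] B')
    (f q : B[X]), Good f → q.natDegree ≤ 2 →
    S B' (f.map (φ : B →+* B')) (q.map (φ : B →+* B')) = φ (S B f q)
  scal : ∀ (B : Type) [CommRing B] [IsDomain B] [IsIntegrallyClosed B] [Algebra k B] (u : B)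
    (f q : B[X]), IsUnit u → Good f → q.natDegree ≤ 2 →
    S B (C (u ^ 2) * f) (C (u ^ 2) * q) = S B f q
  trans : ∀ (B : Type) [CommRing B] [IsDomain B] [IsIntegrallyClosed B] [Algebra k B] (t : B)
    (f q : B[X]), Good f → q.natDegree ≤ 2 → S B (f.comp (X + C t)) (q.comp (X + C t)) = S B f q
  inv : ∀ (B : Type) [CommRing B] [IsDomain B] [IsIntegrallyClosed B] [Algebra k B]
    (f q : B[X]), Good f → q.natDegree ≤ 2 → S B (f.reflect 6) (q.reflect 2) = S B f q
  reg : ∀ (B K : Type) [CommRing B] [IsDomain B] [IsIntegrallyClosed B] [Field K] [Algebra k B]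
    [Algebra k K] (φ : B →ₐ[k] K), Function.Injective φ → ∀ (s : B) (ρ r e : Fin 3 → B), s ≠ 0 →
    (∀ i j, i ≠ j → IsUnit (ρ i - ρ j)) → (∀ i j, i ≠ j → IsUnit (r i - r j)) →
    (∀ j, IsUnit (r j)) → (∀ i j, IsUnit (r j - s ^ 2 * ρ i)) →
    ∃ b : B, S K
      (((∏ i, (X - C (s ^ 2 * ρ i))) * ∏ j, (X - C (r j)) : B[X]).map (φ : B →+* K))
      ((C (s ^ 2 * e 0) + C (s * e 1) * X + C (e 2) * X ^ 2 : B[X]).map (φ : B →+* K)) = φ b

/-- `S` is constant. -/
def AlgN_Stmt : Prop :=
  ∀ (k : Type) [Field k] [CharZero k] [IsAlgClosed k] (D : DatN k), ∃ c : k,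
    ∀ (K : Type) [Field K] [IsAlgClosed K] [Algebra k K] (f q : K[X]), Good f →
      q.natDegree ≤ 2 → D.S K f q = algebraMap k K c

/-- The restriction of the data to integrally closed domains. -/
def Dat.toN {k : Type} [Field k] (D : Dat k) : DatN k where
  S B _ _ _ _ f q := D.S B f q
  nat B B' _ _ _ _ _ _ _ _ φ f q hf hq := D.nat B B' φ f q hf hq
  scal B _ _ _ _ u f q hu hf hq := D.scal B u f q hu hf hq
  trans B _ _ _ _ t f q hf hq := D.trans B t f q hf hq
  inv B _ _ _ _ f q hf hq := D.inv B f q hf hq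
  reg B K _ _ _ _ _ _ φ hφ s ρ r e hs h1 h2 h3 h4 := D.reg B K φ hφ s ρ r e hs h1 h2 h3 h4

end Pool.Agent.MG.Two2


end

section

/-!
# Pure algebra part of the case `(2, 0)`: one root moves, the other five are fixed
-/

open Polynomial

namespace Pool.Agent.MG.Two2

variable {K : Type} [Field K]

section ev

variable {B B' : Type} [CommRing B] [CommRing B'] [Algebra K B] [Algebra K B']

/-- The roots `x, r_i`. -/
def rf (r : Fin 5 → K) (x : B) : Fin 6 → B :=
  Fin.cons x fun i : Fin 5 => algebraMap K B (r i)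

/-- The product of the `x - r_i`. -/
def EE (r : Fin 5 → K) (x : B) : B := ∏ i, (x - algebraMap K B (r i))

theorem EE_map (φ : B →ₐ[K] B') (r : Fin 5 → K) (x : B) : φ (EE r x) = EE r (φ x) := by
  simp [EE, map_prod]

theorem rf_map (φ : B →ₐ[K] B') (r : Fin 5 → K) (x : B) :
    (fun i => φ (rf r x i)) = rf r (φ x) := by
  unfold rf
  rw [map_cons]
  simp

theorem dis_rf (r : Fin 5 → K) (hr : Function.Injective r) (x : B) (hE : IsUnit (EE r x)) :
    Dis (rf r x) := by
  have h1 : ∀ i, IsUnit (x - algebraMap K B (r i)) := fun i =>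
    isUnit_of_dvd_unit (Finset.dvd_prod_of_mem (fun i => (x - algebraMap K B (r i)))
      (Finset.mem_univ i)) hE
  refine dis_cons h1 fun i j hij => ?_
  rw [← map_sub]
  refine (IsUnit.mk0 _ ?_).map (algebraMap K B)
  rw [sub_ne_zero]
  exact fun e => hij (hr e)

/-- Evaluation at `x` and `q`. -/
noncomputable def evM (x : B) (q : Fin 3 → B) : MvPolynomial (Fin 3) K[X] →+* B :=
  MvPolynomial.eval₂Hom ((aeval x : K[X] →ₐ[K] B) : K[X] →+* B) q

theorem evM_map (φ : B →ₐ[K] B') (x : B) (q : Fin 3 → B) (N : MvPolynomial (Fin 3) K[X]) :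
    φ (evM x q N) = evM (φ x) (fun i => φ (q i)) N := by
  have : (φ : B →+* B').comp (evM x q) = evM (K := K) (φ x) (fun i => φ (q i)) := by
    refine MvPolynomial.ringHom_ext (fun p => ?_) fun i => ?_
    · simp [evM, aeval_algHom_apply]
    · simp [evM]
  exact DFunLike.congr_fun this N

theorem evM_C (x : B) (q : Fin 3 → B) (p : K[X]) : evM x q (MvPolynomial.C p) = aeval x p := by
  simp [evM]

end ev

/-- The polynomial `N` is `E ^ n * S`. -/
def KJ (D : Dat K) (r : Fin 5 → K) (n : ℕ) (N : MvPolynomial (Fin 3) K[X]) : Prop :=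
  ∀ (B : Type) [CommRing B] [Algebra K B] (x : B) (q : Fin 3 → B), IsUnit (EE r x) →
    D.T (rf r x) q * EE r x ^ n = evM x q N

attribute [local instance] MvPolynomial.algebraMvPolynomial in
theorem KJ_exists (D : Dat K) (r : Fin 5 → K) (hr : Function.Injective r) :
    ∃ (n : ℕ) (N : MvPolynomial (Fin 3) K[X]), KJ D r n N := by
  let h : K[X] := EE r X
  let L := Localization.Away h
  let M := MvPolynomial (Fin 3) L
  let ι : K[X] →ₐ[K] L := IsScalarTower.toAlgHom K K[X] L
  let jC : L →ₐ[K] M := IsScalarTower.toAlgHom K L M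
  have hu : IsUnit (ι h) := IsLocalization.Away.algebraMap_isUnit h
  let x₀ : M := jC (ι X)
  let T₀ : M := D.T (rf r x₀) MvPolynomial.X
  have hE : IsUnit (EE r x₀) := by
    have : EE r x₀ = jC (ι h) := by
      simp only [h, x₀, EE_map]
    rw [this]
    exact hu.map jC
  have hdis := dis_rf r hr x₀ hE
  obtain ⟨⟨N, s⟩, hs⟩ := IsLocalization.surj (M := (Submonoid.powers h).map
    (MvPolynomial.C (σ := Fin 3))) T₀
  obtain ⟨_, ⟨_, ⟨n, rfl⟩, rfl⟩⟩ := s
  refine ⟨n, N, ?_⟩
  intro B _ _ x q h1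
  have h3 : IsUnit (aeval (R := K) x h) := by
    have : aeval (R := K) x h = EE r x := by
      simp only [h, EE_map, aeval_X]
    rw [this]
    exact h1
  let ψ₀ : L →ₐ[K] B := IsLocalization.liftAlgHom (M := Submonoid.powers h) (f := aeval (R := K) x)
    (by
      rintro ⟨_, ⟨m, rfl⟩⟩
      rw [map_pow]
      exact h3.pow m)
  have hψ₀ : ∀ p, ψ₀ (ι p) = aeval x p := fun p => IsLocalization.lift_eq _ _
  let ψ : M →ₐ[K] B :=
    { MvPolynomial.eval₂Hom (ψ₀ : L →+* B) q with
      commutes' := fun c => by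
        change MvPolynomial.eval₂Hom (ψ₀ : L →+* B) q (MvPolynomial.C (algebraMap K L c)) = _
        simp }
  have hψC : ∀ y, ψ (jC y) = ψ₀ y := fun y => by
    change MvPolynomial.eval₂Hom (ψ₀ : L →+* B) q (MvPolynomial.C y) = _
    simp
  have hψX : ∀ i, ψ (MvPolynomial.X i) = q i := fun i => by
    change MvPolynomial.eval₂Hom (ψ₀ : L →+* B) q (MvPolynomial.X i) = _
    simp
  have e1 : ψ T₀ = D.T (rf r x) q := by
    rw [← T_nat D ψ _ hdis, rf_map]
    simp only [hψX, x₀, hψC, hψ₀, aeval_X]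
  have e2 : ψ (algebraMap (MvPolynomial (Fin 3) K[X]) M N) = evM x q N := by
    rw [MvPolynomial.algebraMap_def]
    change MvPolynomial.eval₂Hom (ψ₀ : L →+* B) q (MvPolynomial.map (algebraMap K[X] L) N) = _
    rw [MvPolynomial.coe_eval₂Hom, MvPolynomial.eval₂_map]
    have : ((ψ₀ : L →+* B).comp (algebraMap K[X] L)) = ((aeval x : K[X] →ₐ[K] B) :
        K[X] →+* B) := RingHom.ext hψ₀
    rw [this]
    rfl
  rw [← e1, ← e2, ← hs, map_mul]
  congr 1
  have e3 : algebraMap (MvPolynomial (Fin 3) K[X]) M (MvPolynomial.C (h ^ n)) = jC (ι (h ^ n)) := by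
    rw [MvPolynomial.algebraMap_def, MvPolynomial.map_C]
    rfl
  change _ = ψ (algebraMap (MvPolynomial (Fin 3) K[X]) M (MvPolynomial.C (h ^ n)))
  rw [e3, hψC, hψ₀, map_pow]
  simp only [h, EE_map, aeval_X]

end Pool.Agent.MG.Two2


end

section

/-!
# Pure algebra part of the case `(2, 0)`: one root moves, no pole
-/

open Polynomial

namespace Pool.Agent.MG.Two2

variable {K : Type} [Field K]

theorem evM_self (N : MvPolynomial (Fin 3) K[X]) :
    evM (MvPolynomial.C X) MvPolynomial.X N = N := by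
  have : (evM (MvPolynomial.C X) MvPolynomial.X : MvPolynomial (Fin 3) K[X] →+*
      MvPolynomial (Fin 3) K[X]) = RingHom.id _ := by
    refine MvPolynomial.ringHom_ext (fun p => ?_) fun i => ?_
    · rw [evM_C]
      have h2 : (aeval (MvPolynomial.C X : MvPolynomial (Fin 3) K[X]) : K[X] →ₐ[K] _) =
          IsScalarTower.toAlgHom K K[X] (MvPolynomial (Fin 3) K[X]) := by
        refine Polynomial.algHom_ext ?_
        rw [aeval_X]
        rfl
      rw [h2]
      rfl
    · simp [evM]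
  rw [this]
  rfl

theorem P6_rf {B : Type} [CommRing B] [Algebra K B] (r : Fin 5 → K) (x : B) (i : Fin 5) :
    P6 (Fin.cons (algebraMap K B (r i)) (Fin.cons x fun j : Fin 4 =>
      algebraMap K B (r (i.succAbove j))) : Fin 6 → B) = P6 (rf r x) := by
  rw [rf, P6_cons, P6_cons, P6_cons]
  have : P6 (fun i : Fin 5 => algebraMap K B (r i)) = (X - C (algebraMap K B (r i))) *
      P6 fun j : Fin 4 => algebraMap K B (r (i.succAbove j)) := by
    rw [P6, Fin.prod_univ_succAbove _ i]
    rfl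
  rw [this]
  ring

theorem KJ_dvd [Infinite K] (D : Dat K) (r : Fin 5 → K) (hr : Function.Injective r)
    (hr0 : ∀ i, r i ≠ 0) (n : ℕ) (N : MvPolynomial (Fin 3) K[X]) (hN : KJ D r n N) (i : Fin 5) :
    (MvPolynomial.C ((X - C (r i)) ^ n) : MvPolynomial (Fin 3) K[X]) ∣ N := by
  let r' : Fin 4 → K := fun j => r (i.succAbove j)
  have hr' : Function.Injective r' := hr.comp Fin.succAbove_right_injective
  obtain ⟨c, N4, hN4⟩ := KI_zero D r' hr' fun j => hr0 _
  let M := MvPolynomial (Fin 3) K[X]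
  let Q := FractionRing M
  let φ : M →ₐ[K] Q := IsScalarTower.toAlgHom K M Q
  have hφ : Function.Injective φ := IsFractionRing.injective M Q
  have hφ0 : ∀ x : M, x ≠ 0 → φ x ≠ 0 := fun x hx h => hx (hφ (by rw [h, map_zero]))
  let jC : K[X] →ₐ[K] M := IsScalarTower.toAlgHom K K[X] M
  have hjC : Function.Injective jC := MvPolynomial.C_injective _ _
  let x : M := jC X
  let t : M := algebraMap K M (r i)
  have htC : t = jC (C (r i)) := by
    change algebraMap K M (r i) = jC (algebraMap K K[X] (r i))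
    rw [AlgHom.commutes]
  have hE : EE r x = jC (EE r X) := by
    simp only [x, EE_map]
  have hE0 : (EE r X : K[X]) ≠ 0 := by
    unfold EE
    exact Finset.prod_ne_zero_iff.2 fun l _ => X_sub_C_ne_zero _
  have hxt : x - t = jC (X - C (r i)) := by
    rw [map_sub, htC]
  have hDD : DD r' t (x - t) = jC (DD r' (C (r i)) (X - C (r i))) := by
    rw [DD_map, hxt, htC]
  have hfac : ∀ j, algebraMap K K[X] (r' j) - C (r i) = C (r' j - r i) := fun j => by
    rw [C_sub]
    rfl
  have hne : ∀ j, r' j - r i ≠ 0 := fun j =>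
    sub_ne_zero.2 fun h => Fin.succAbove_ne i j (hr h)
  have hcop : IsCoprime (X - C (r i)) (DD r' (C (r i)) (X - C (r i))) := by
    unfold DD
    refine IsCoprime.prod_right fun j _ => ?_
    rw [hfac j]
    have h1 : IsUnit (C (r' j - r i) : K[X]) := (IsUnit.mk0 _ (hne j)).map C
    have h1' : IsCoprime (X - C (r i)) (C (r' j - r i) : K[X]) := by
      obtain ⟨v, hv⟩ := h1.exists_left_inv
      exact ⟨0, v, by rw [zero_mul, zero_add, hv]⟩
    refine IsCoprime.mul_right h1' ?_
    have h2 : (C (r' j - r i) - (X - C (r i)) : K[X]) = -(X - C (r' j)) := by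
      rw [C_sub]
      ring
    rw [h2]
    exact (isCoprime_X_sub_C_of_isUnit_sub (IsUnit.mk0 _ (by
      rw [← neg_sub]
      exact neg_ne_zero.2 (hne j)))).neg_right
  have hDD0 : (DD r' (C (r i)) (X - C (r i)) : K[X]) ≠ 0 := by
    unfold DD
    refine Finset.prod_ne_zero_iff.2 fun j _ => ?_
    rw [hfac j]
    refine mul_ne_zero (C_ne_zero.2 (hne j)) ?_
    have h2 : (C (r' j - r i) - (X - C (r i)) : K[X]) = -(X - C (r' j)) := by
      rw [C_sub]
      ring
    rw [h2]
    exact neg_ne_zero.2 (X_sub_C_ne_zero _)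
  have u1 : IsUnit (EE r (φ x)) := by
    rw [← EE_map, hE]
    exact IsUnit.mk0 _ (hφ0 _ fun h => hE0 (hjC (by rw [h, map_zero])))
  have u2 : IsUnit (φ (x - t)) := by
    rw [hxt]
    exact IsUnit.mk0 _ (hφ0 _ fun h => X_sub_C_ne_zero (r i) (hjC (by rw [h, map_zero])))
  have u3 : IsUnit (DD r' (φ t) (φ (x - t))) := by
    rw [← DD_map, hDD]
    exact IsUnit.mk0 _ (hφ0 _ fun h => hDD0 (hjC (by rw [h, map_zero])))
  have k1 := hN Q (φ x) (fun l => φ (MvPolynomial.X l)) u1
  have k2 := hN4 Q (φ t) (φ (x - t)) (shq (φ t) fun l => φ (MvPolynomial.X l)) u2 u3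
  -- comparison of the values
  let a : Fin 6 → Q := Fin.cons (φ t) (Fin.cons (φ x) fun j : Fin 4 => algebraMap K Q (r' j))
  have hφt : φ t = algebraMap K Q (r i) := AlgHom.commutes φ (r i)
  have ha : (fun l => a l - φ t) = rt r' (φ t) (φ (x - t)) := by
    refine (map_cons2 (fun y : Q => y - φ t) _ _ _).trans ?_
    unfold rt
    simp only [sub_self, map_sub]
  have hPa : P6 a = P6 (rf r (φ x)) := by
    have := P6_rf r (φ x) i
    rw [← hφt] at this
    exact this
  have hda : Dis a := by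
    have h1 := dis_rt r' hr' (φ t) (φ (x - t)) u2 u3
    rw [← ha] at h1
    have h2 := h1.sub (-φ t)
    simpa only [sub_neg_eq_add, sub_add_cancel] using h2
  have s1 := T_trans D a hda (φ t) fun l => φ (MvPolynomial.X l)
  rw [ha, T_congr D hPa] at s1
  rw [s1, pow_zero, one_mul] at k2
  have e1 : (shq (φ t) fun l => φ (MvPolynomial.X l)) = fun l => φ (shq t MvPolynomial.X l) := by
    have h2 : φ 2 = 2 := map_ofNat φ 2
    funext l
    fin_cases l <;> simp [shq, h2]
  rw [e1, ← evN_map, ← DD_map, ← map_pow] at k2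
  rw [← evM_map, ← EE_map, ← map_pow] at k1
  have k3 : φ (evM x MvPolynomial.X N * DD r' t (x - t) ^ c) =
      φ (evN t (x - t) (shq t MvPolynomial.X) N4 * EE r x ^ n) := by
    rw [map_mul, map_mul, ← k1, ← k2]
    ring
  have k4 := hφ k3
  have hself : evM x MvPolynomial.X N = N := evM_self N
  rw [hself, hDD, hE] at k4
  have h5 : jC (X - C (r i)) ^ n ∣ N * jC (DD r' (C (r i)) (X - C (r i))) ^ c := by
    rw [k4]
    refine Dvd.dvd.mul_left (pow_dvd_pow_of_dvd ?_ n) _
    refine map_dvd jC ?_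
    exact Finset.dvd_prod_of_mem (fun l => (X - algebraMap K K[X] (r l))) (Finset.mem_univ i)
  have h6 : IsCoprime (jC (X - C (r i)) ^ n) (jC (DD r' (C (r i)) (X - C (r i))) ^ c) :=
    (hcop.map (jC : K[X] →+* M)).pow
  have h7 := h6.dvd_of_dvd_mul_right h5
  rw [MvPolynomial.C_pow]
  exact h7

theorem KJ_zero [Infinite K] (D : Dat K) (r : Fin 5 → K) (hr : Function.Injective r)
    (hr0 : ∀ i, r i ≠ 0) : ∃ N : MvPolynomial (Fin 3) K[X], KJ D r 0 N := by
  obtain ⟨n, N, hN⟩ := KJ_exists D r hr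
  have h1 : (∏ i, MvPolynomial.C ((X - C (r i)) ^ n) : MvPolynomial (Fin 3) K[X]) ∣ N := by
    refine Finset.prod_dvd_of_coprime ?_ fun i _ => KJ_dvd D r hr hr0 n N hN i
    intro i _ j _ hij
    have : IsCoprime ((X - C (r i)) ^ n) ((X - C (r j)) ^ n) := by
      refine IsCoprime.pow (isCoprime_X_sub_C_of_isUnit_sub ?_)
      exact IsUnit.mk0 _ (sub_ne_zero.2 fun h => hij (hr h))
    exact this.map (MvPolynomial.C : K[X] →+* MvPolynomial (Fin 3) K[X])
  have h2 : (∏ i, MvPolynomial.C ((X - C (r i)) ^ n) : MvPolynomial (Fin 3) K[X]) =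
      MvPolynomial.C (EE r X ^ n) := by
    rw [← map_prod, Finset.prod_pow]
    rfl
  rw [h2] at h1
  obtain ⟨N0, rfl⟩ := h1
  refine ⟨N0, ?_⟩
  intro B _ _ x q hu
  have h3 := hN B x q hu
  rw [map_mul, evM_C, map_pow, EE_map, aeval_X] at h3
  obtain ⟨v, hv⟩ := hu.pow n
  rw [← hv] at h3
  rw [pow_zero, mul_one]
  refine (Units.mul_right_inj v).1 ?_
  rw [← h3, mul_comm]

end Pool.Agent.MG.Two2


end

section

/-!
# Pure algebra part of the case `(2, 0)`: constancy in one root, and in all roots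
-/

open Polynomial

namespace Pool.Agent.MG.Two2

variable {K : Type} [Field K]

/-- If `P(x) = G(1/x)` for infinitely many `x`, then `P` and `G` are constant. -/
theorem poly_inv_const [Infinite K] (P G : K[X]) (s : Set K) (hs : s.Finite)
    (h : ∀ x, x ∉ s → x ≠ 0 → P.eval x = G.eval x⁻¹) :
    P = C (G.eval 0) := by
  have hfin : (Set.insert (0 : K) s).Finite := hs.insert 0
  have e1 : P * X ^ G.natDegree = G.reverse := by
    refine eq_of_infinite_eval_eq _ _ ?_
    refine hfin.infinite_compl.mono fun t ht => ?_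
    have ht0 : t ≠ 0 := fun h => ht (Or.inl h)
    have hts : t ∉ s := fun h => ht (Or.inr h)
    change eval t _ = eval t _
    have h2 : eval t⁻¹ G = eval t G.reverse * t⁻¹ ^ G.natDegree := by
      let _ : Invertible t⁻¹ := invertibleOfNonzero (inv_ne_zero ht0)
      have h3 := eval₂_reverse_mul_pow (RingHom.id K) t⁻¹ G
      rw [invOf_eq_inv, inv_inv] at h3
      rw [eval, ← h3]
      rfl
    rw [eval_mul, eval_pow, eval_X, h t hts ht0, h2, mul_assoc, ← mul_pow,
      inv_mul_cancel₀ ht0, one_pow, mul_one]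
  have e2 : P = C (P.coeff 0) := by
    by_cases hP : P = 0
    · rw [hP, coeff_zero, C_0]
    · have e3 := congrArg natDegree e1
      rw [natDegree_mul hP (pow_ne_zero _ X_ne_zero), natDegree_X_pow] at e3
      have e4 := reverse_natDegree_le G
      exact eq_C_of_natDegree_eq_zero (by omega)
  have e5 : G = C (P.coeff 0) := by
    refine eq_of_infinite_eval_eq _ _ ?_
    have hfin2 : (Set.insert (0 : K) ((fun x => x⁻¹) '' s)).Finite := (hs.image _).insert 0
    refine hfin2.infinite_compl.mono fun t ht => ?_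
    have ht0 : t ≠ 0 := fun h => ht (Or.inl h)
    have hts : t⁻¹ ∉ s := fun h => ht (Or.inr ⟨t⁻¹, h, inv_inv t⟩)
    change eval t _ = eval t _
    have h1 := h t⁻¹ hts (inv_ne_zero ht0)
    rw [inv_inv] at h1
    rw [← h1, e2, eval_C, eval_C, coeff_C_zero]
  rw [e5, eval_C]
  exact e2

/-- The polynomial in one variable. -/
theorem evM_eval (x : K) (Y : K) (q : Fin 3 → K[X]) (N : MvPolynomial (Fin 3) K[X]) (P : K[X])
    (hP : P.eval Y = x) :
    (evM P q N).eval Y = evM x (fun i => (q i).eval Y) N := by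
  have h := evM_map (K := K) (aeval Y : K[X] →ₐ[K] K) P q N
  simp only [coe_aeval_eq_eval] at h
  rw [hP] at h
  exact h

theorem const5_aux [Infinite K] (D : Dat K) (r : Fin 5 → K) (hr : Function.Injective r)
    (hr0 : ∀ i, r i ≠ 0) : ∃ c : K, ∀ (x : K) (q : Fin 3 → K), (∀ i, x ≠ r i) →
      D.T (rf r x) q = c := by
  have hr' : Function.Injective fun i => (r i)⁻¹ := fun i j h => hr (inv_inj.1 h)
  have hr0' : ∀ i, (r i)⁻¹ ≠ 0 := fun i => inv_ne_zero (hr0 i)
  obtain ⟨N, hN⟩ := KJ_zero D r hr hr0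
  obtain ⟨N', hN'⟩ := KJ_zero D _ hr' hr0'
  have hE : ∀ (s : Fin 5 → K) (x : K), (∀ i, x ≠ s i) → IsUnit (EE s x) := fun s x hx =>
    IsUnit.mk0 _ (Finset.prod_ne_zero_iff.2 fun i _ => sub_ne_zero.2 (hx i))
  have hv : ∀ (x : K) (q : Fin 3 → K), (∀ i, x ≠ r i) → D.T (rf r x) q = evM x q N := by
    intro x q hx
    rw [← hN K x q (hE r x hx), pow_zero, mul_one]
  have hv' : ∀ (x : K) (q : Fin 3 → K), (∀ i, x ≠ (r i)⁻¹) →
      D.T (rf (fun i => (r i)⁻¹) x) q = evM x q N' := by
    intro x q hx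
    rw [← hN' K x q (hE _ x hx), pow_zero, mul_one]
  set R := ∏ i, r i with hR
  refine ⟨evM (0 : K) (fun _ => 0) N', fun x q hx => ?_⟩
  let P : K[X] := evM X (fun i => C (q i)) N
  let G : K[X] := evM X (fun i => C (R⁻¹ * ![q 2, q 1, q 0] i) * X) N'
  have hPe : ∀ y : K, P.eval y = evM y q N := by
    intro y
    rw [evM_eval y y _ N X (eval_X)]
    simp only [eval_C]
  have hGe : ∀ y : K, G.eval y = evM y (fun i => R⁻¹ * ![q 2, q 1, q 0] i * y) N' := by
    intro y
    rw [evM_eval y y _ N' X (eval_X)]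
    simp only [eval_C, eval_mul, eval_X]
  have key : P = C (G.eval 0) := by
    refine poly_inv_const P G (Set.range r) (Set.finite_range r) fun y hy hy0 => ?_
    have hyr : ∀ i, y ≠ r i := fun i h => hy ⟨i, h.symm⟩
    have hd : Dis (rf r y) := dis_rf r hr y (hE r y hyr)
    have ha0 : ∀ i, rf r y i ≠ 0 := fun i => by
      refine Fin.cases hy0 (fun j => ?_) i
      exact hr0 j
    have h1 := T_inv D (rf r y) hd ha0 q
    have h2 : (fun i => (rf r y i)⁻¹) = rf (fun i => (r i)⁻¹) y⁻¹ :=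
      map_cons (fun z : K => z⁻¹) y _
    have h3 : (∏ j, rf r y j) = y * R := by
      rw [Fin.prod_univ_succ]
      rfl
    rw [h2, h3] at h1
    rw [hPe, hGe, ← hv y q hyr, ← h1, hv' y⁻¹ _ fun i h => hyr i (inv_inj.1 h)]
    congr 2
    funext i
    rw [mul_inv]
    ring
  rw [hv x q hx, ← hPe, key, eval_C, hGe]
  simp only [mul_zero]

theorem const5 [Infinite K] (D : Dat K) (r : Fin 5 → K) (hr : Function.Injective r) :
    ∃ c : K, ∀ (x : K) (q : Fin 3 → K), (∀ i, x ≠ r i) → D.T (rf r x) q = c := by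
  obtain ⟨s, hs⟩ := (Set.finite_range r).infinite_compl.nonempty
  have hs' : ∀ i, r i - s ≠ 0 := fun i h => hs ⟨i, sub_eq_zero.1 h⟩
  obtain ⟨c, hc⟩ := const5_aux D (fun i => r i - s) (fun i j h => hr (sub_left_injective h)) hs'
  refine ⟨c, fun x q hx => ?_⟩
  have hd : Dis (rf r x) := dis_rf r hr x
    (IsUnit.mk0 _ (Finset.prod_ne_zero_iff.2 fun i _ => sub_ne_zero.2 (hx i)))
  rw [← T_trans D _ hd s q]
  have h2 : (fun i => rf r x i - s) = rf (fun i => r i - s) (x - s) :=
    map_cons (fun z : K => z - s) x _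
  rw [h2]
  exact hc _ _ fun i h => hx i (sub_left_injective h)

theorem P6_split {n : ℕ} (a : Fin (n + 1) → K) (i : Fin (n + 1)) :
    P6 a = (X - C (a i)) * P6 fun j => a (i.succAbove j) := by
  rw [P6, Fin.prod_univ_succAbove _ i]
  rfl

theorem const_step [Infinite K] (D : Dat K) (a b : Fin 6 → K) (ha : Function.Injective a)
    (hb : Function.Injective b) (i : Fin 6) (hab : ∀ j, j ≠ i → b j = a j) (q q' : Fin 3 → K) :
    D.T b q = D.T a q' := by
  let r : Fin 5 → K := fun j => a (i.succAbove j)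
  have hr : Function.Injective r := ha.comp Fin.succAbove_right_injective
  obtain ⟨c, hc⟩ := const5 D r hr
  have h1 : P6 a = P6 (rf r (a i)) := by
    rw [P6_split a i, rf, P6_cons]
    rfl
  have h2 : P6 b = P6 (rf r (b i)) := by
    rw [P6_split b i, rf, P6_cons]
    congr 2
    funext j
    exact hab _ (Fin.succAbove_ne i j)
  rw [T_congr D h1, T_congr D h2, hc, hc]
  · exact fun j h => Fin.succAbove_ne i j (ha h).symm
  · intro j h
    change b i = a (i.succAbove j) at h
    rw [← hab _ (Fin.succAbove_ne i j)] at h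
    exact Fin.succAbove_ne i j (hb h).symm

theorem const_disj [Infinite K] (D : Dat K) (a b : Fin 6 → K) (ha : Function.Injective a)
    (hb : Function.Injective b) (hab : ∀ i j, a i ≠ b j) (q q' : Fin 3 → K) :
    D.T b q = D.T a q' := by
  classical
  have hinj : ∀ s : Finset (Fin 6), Function.Injective fun i => if i ∈ s then b i else a i := by
    intro s i j h
    simp only at h
    by_cases hi : i ∈ s
    · by_cases hj : j ∈ s
      · rw [if_pos hi, if_pos hj] at h
        exact hb h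
      · rw [if_pos hi, if_neg hj] at h
        exact absurd h.symm (hab j i)
    · by_cases hj : j ∈ s
      · rw [if_neg hi, if_pos hj] at h
        exact absurd h (hab i j)
      · rw [if_neg hi, if_neg hj] at h
        exact ha h
  have H : ∀ (s : Finset (Fin 6)) (q : Fin 3 → K),
      D.T (fun i => if i ∈ s then b i else a i) q = D.T a q' := by
    intro s
    induction s using Finset.induction_on with
    | empty =>
      intro q
      simp only [Finset.notMem_empty, if_false]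
      exact const_step D a a ha ha 0 (fun _ _ => rfl) q q'
    | insert i s his ih =>
      intro q
      rw [← ih q]
      refine const_step D _ _ (hinj s) (hinj (insert i s)) i (fun j hj => ?_) q q
      by_cases hjs : j ∈ s
      · rw [if_pos hjs, if_pos (Finset.mem_insert_of_mem hjs)]
      · rw [if_neg hjs, if_neg]
        rw [Finset.mem_insert, not_or]
        exact ⟨hj, hjs⟩
  have := H Finset.univ q
  simpa using this

/-- `S` is constant on polynomials with six roots. -/
theorem const6 [Infinite K] (D : Dat K) (a b : Fin 6 → K) (ha : Function.Injective a)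
    (hb : Function.Injective b) (q q' : Fin 3 → K) : D.T b q = D.T a q' := by
  have hfin : (Set.range a ∪ Set.range b).Finite := (Set.finite_range a).union (Set.finite_range b)
  have hinf : (Set.range a ∪ Set.range b)ᶜ.Infinite := hfin.infinite_compl
  obtain ⟨t, ht, hcard⟩ := hinf.exists_subset_card_eq 6
  let e : Fin 6 ≃ t := (Finset.equivFinOfCardEq hcard).symm
  let d : Fin 6 → K := fun i => e i
  have hd : Function.Injective d := Subtype.val_injective.comp e.injective
  have hdn : ∀ i, d i ∉ Set.range a ∪ Set.range b := fun i => ht (e i).2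
  have h1 : ∀ i j, a i ≠ d j := fun i j h => hdn j (Or.inl ⟨i, h⟩)
  have h2 : ∀ i j, b i ≠ d j := fun i j h => hdn j (Or.inr ⟨i, h⟩)
  rw [← const_disj D b d hb hd h2 0 q, ← const_disj D a d ha hd h1 0 q']

end Pool.Agent.MG.Two2


end

section

/-!
# Pure algebra part of the case `(2, 0)`: all polynomials over algebraically closed fields
-/

open Polynomial

namespace Pool.Agent.MG.Two2

section up

variable {k : Type} [Field k]

/-- The data over a larger base field. -/
noncomputable def Dat.up (D : Dat k) (K : Type) [Field K] [Algebra k K] : Dat K where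
  S B _ _ f q := @Dat.S k _ D B _ (Algebra.compHom B (algebraMap k K)) f q
  nat B B' _ _ _ _ φ f q hf hq := by
    let _ : Algebra k B := Algebra.compHom B (algebraMap k K)
    let _ : Algebra k B' := Algebra.compHom B' (algebraMap k K)
    let ψ : B →ₐ[k] B' := { (φ : B →+* B') with
      commutes' := fun c => φ.commutes (algebraMap k K c) }
    exact D.nat B B' ψ f q hf hq
  scal B _ _ u f q hu hf hq := by
    let _ : Algebra k B := Algebra.compHom B (algebraMap k K)
    exact D.scal B u f q hu hf hq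
  trans B _ _ t f q hf hq := by
    let _ : Algebra k B := Algebra.compHom B (algebraMap k K)
    exact D.trans B t f q hf hq
  inv B _ _ f q hf hq := by
    let _ : Algebra k B := Algebra.compHom B (algebraMap k K)
    exact D.inv B f q hf hq
  reg B L _ _ _ _ _ φ hφ s ρ r e hs h1 h2 h3 h4 := by
    let _ : Algebra k B := Algebra.compHom B (algebraMap k K)
    let _ : Algebra k L := Algebra.compHom L (algebraMap k K)
    let ψ : B →ₐ[k] L := { (φ : B →+* L) with
      commutes' := fun c => φ.commutes (algebraMap k K c) }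
    exact D.reg B L ψ hφ s ρ r e hs h1 h2 h3 h4

theorem up_S (D : Dat k) (K : Type) [Field K] [A : Algebra k K] (f q : K[X]) :
    (D.up K).S K f q = D.S K f q := by
  change @Dat.S k _ D K _ (Algebra.compHom K (algebraMap k K)) f q = @Dat.S k _ D K _ A f q
  have hA : Algebra.compHom K (algebraMap k K) = A := by
    refine Algebra.algebra_ext _ _ fun c => ?_
    rfl
  rw [hA]

theorem up_T (D : Dat k) (K : Type) [Field K] [Algebra k K] (a : Fin 6 → K)
    (q : Fin 3 → K) : (D.up K).T a q = D.T a q :=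
  up_S D K _ _

theorem dis_of_inj {K : Type} [Field K] {n : ℕ} {a : Fin n → K} (ha : Function.Injective a) :
    Dis a := fun _ _ hij => IsUnit.mk0 _ (sub_ne_zero.2 fun h => hij (ha h))

theorem exists_inj (K : Type) [Infinite K] (n : ℕ) : ∃ a : Fin n → K, Function.Injective a := by
  obtain ⟨f⟩ : Nonempty (Fin n ↪ K) := ⟨(Fin.valEmbedding).trans (Infinite.natEmbedding K)⟩
  exact ⟨f, f.injective⟩

/-- The constant comes from the base field. -/
theorem exists_const [Infinite k] (D : Dat k) : ∃ c : k, ∀ (K : Type) [Field K] [Algebra k K]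
    (a : Fin 6 → K) (q : Fin 3 → K), Function.Injective a → D.T a q = algebraMap k K c := by
  obtain ⟨a₀, ha₀⟩ := exists_inj k 6
  refine ⟨D.T a₀ 0, fun K _ _ a q ha => ?_⟩
  have : Infinite K := Infinite.of_injective _ (algebraMap k K).injective
  have h1 : Function.Injective fun i => algebraMap k K (a₀ i) :=
    (algebraMap k K).injective.comp ha₀
  rw [← up_T D K a, const6 (D.up K) _ a h1 ha q (fun _ => 0), up_T D K _]
  have h2 := T_nat D (Algebra.ofId k K) a₀ (dis_of_inj ha₀) 0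
  have h3 : (fun i => Algebra.ofId k K ((0 : Fin 3 → k) i)) = fun _ => (0 : K) := by
    funext i
    exact map_zero _
  rw [h3] at h2
  exact h2

end up

section closed

variable {K : Type} [Field K]

/-- Multiples of a polynomial with simple roots. -/
theorem splits_P6 [IsAlgClosed K] (f : K[X]) (hf : f.Separable) (n : ℕ) (hn : f.natDegree = n) :
    ∃ (u : K) (a : Fin n → K), u ≠ 0 ∧ Function.Injective a ∧ f = C u * P6 a := by
  classical
  have hf0 : f ≠ 0 := hf.ne_zero
  have hs : f.Splits := IsAlgClosed.splits f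
  have hcard : f.roots.toFinset.card = n := by
    rw [Multiset.toFinset_card_of_nodup (nodup_roots hf), ← hn]
    exact hs.natDegree_eq_card_roots.symm
  let e : Fin n ≃ f.roots.toFinset := (Finset.equivFinOfCardEq hcard).symm
  refine ⟨f.leadingCoeff, fun i => e i, leadingCoeff_ne_zero.2 hf0,
    Subtype.val_injective.comp e.injective, ?_⟩
  have h1 : P6 (fun i => (e i : K)) = (f.roots.map fun a => X - C a).prod := by
    unfold P6
    rw [Equiv.prod_comp e (fun x : f.roots.toFinset => (X - C (x : K))),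
      Finset.prod_coe_sort f.roots.toFinset (fun x => X - C x), Finset.prod_multiset_map_count]
    refine Finset.prod_congr rfl fun x hx => ?_
    rw [Multiset.count_eq_one_of_mem (nodup_roots hf) (Multiset.mem_toFinset.1 hx), pow_one]
  rw [h1]
  exact hs.eq_prod_roots

end closed

end Pool.Agent.MG.Two2


end

section

/-!
# Pure algebra part of the case `(2, 0)`: the theorem
-/

open Polynomial

namespace Pool.Agent.MG.Two2

variable {k : Type} [Field k]

section field

variable {K : Type} [Field K]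

theorem Good.reflectK {f : K[X]} (hf : Good f) : Good (f.reflect 6) := by
  refine ⟨(natDegree_reflect_le).trans (max_le le_rfl hf.deg), hf.cop', ?_⟩
  rw [reflect_reflect]
  exact hf.cop

/-- The degree is at least five. -/
theorem Good.five_le {f : K[X]} (hf : Good f) : 5 ≤ f.natDegree := by
  by_contra h
  push Not at h
  obtain ⟨a, b, hab⟩ := hf.cop'
  have h1 : (f.reflect 6).coeff 0 = 0 := by
    rw [coeff_reflect]
    exact coeff_eq_zero_of_natDegree_lt (by simpa [revAt] using by omega)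
  have h2 : (derivative (f.reflect 6)).coeff 0 = 0 := by
    rw [coeff_derivative, coeff_reflect]
    have : f.coeff (revAt 6 (0 + 1)) = 0 :=
      coeff_eq_zero_of_natDegree_lt (by simpa [revAt] using by omega)
    rw [this, zero_mul]
  have h3 := congrArg (eval 0) hab
  rw [eval_add, eval_mul, eval_mul, ← coeff_zero_eq_eval_zero (f.reflect 6),
    ← coeff_zero_eq_eval_zero (derivative _), h1, h2, mul_zero, mul_zero, add_zero, eval_one] at h3
  exact zero_ne_one h3

theorem S_smul [Algebra k K] (D : Dat k) (u : K) (hu : u ≠ 0) (f q : K[X]) (hf : Good f)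
    (huf : Good (C u * f)) (hq : q.natDegree ≤ 2) :
    D.S K (C u * f) q = D.S K f (C u⁻¹ * q) := by
  rw [← scal_field D u hu f (C u⁻¹ * q) hf huf ((natDegree_C_mul_le _ _).trans hq), ← mul_assoc,
    ← C_mul, mul_inv_cancel₀ hu, C_1, one_mul]

/-- The case of degree six. -/
theorem S_six [Algebra k K] (D : Dat k) (c : k)
    (hc : ∀ (a : Fin 6 → K) (q : Fin 3 → K), Function.Injective a → D.T a q = algebraMap k K c)
    (u : K) (a : Fin 6 → K) (hu : u ≠ 0) (ha : Function.Injective a) (q : K[X])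
    (hf : Good (C u * P6 a)) (hq : q.natDegree ≤ 2) :
    D.S K (C u * P6 a) q = algebraMap k K c := by
  rw [S_smul D u hu _ q (good_P6 rfl a (dis_of_inj ha)) hf hq,
    ← Qp_coeff (C u⁻¹ * q) ((natDegree_C_mul_le _ _).trans hq)]
  exact hc a _ ha

theorem reflect_five (a : Fin 5 → K) (h0 : ∀ i, a i ≠ 0) :
    (P6 a).reflect 6 = C (-∏ i, a i) * P6 (Fin.cons 0 (fun i => (a i)⁻¹) : Fin 6 → K) := by
  have h1 : (P6 a).reflect 6 = X * ∏ i, (1 - C (a i) * X) := by
    have := reflect_mul (P6 a) (1 : K[X]) (natDegree_P6 a) (G := 1) (by simp)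
    rw [mul_one, P6_reflect, reflect_one, pow_one] at this
    rw [this, mul_comm]
  have h2 : ∀ i, (1 - C (a i) * X : K[X]) = (-1) * (C (a i) * (X - C (a i)⁻¹)) := by
    intro i
    have h2 : (C (a i) * C (a i)⁻¹ : K[X]) = 1 := by
      rw [← C_mul, mul_inv_cancel₀ (h0 i), C_1]
    linear_combination -h2
  rw [h1, P6_cons, C_0, sub_zero]
  simp_rw [h2]
  rw [Finset.prod_mul_distrib, Finset.prod_mul_distrib, Finset.prod_const, Finset.card_univ,
    Fintype.card_fin, C_neg, map_prod, P6]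
  ring

/-- The case of degree five. -/
theorem S_five [Infinite K] [Algebra k K] (D : Dat k) (c : k)
    (hc : ∀ (a : Fin 6 → K) (q : Fin 3 → K), Function.Injective a → D.T a q = algebraMap k K c)
    (u : K) (a : Fin 5 → K) (hu : u ≠ 0) (ha : Function.Injective a) (q : K[X])
    (hf : Good (C u * P6 a)) (hq : q.natDegree ≤ 2) :
    D.S K (C u * P6 a) q = algebraMap k K c := by
  rw [S_smul D u hu _ q (good_P5 a (dis_of_inj ha)) hf hq,
    ← Qp_coeff (C u⁻¹ * q) ((natDegree_C_mul_le _ _).trans hq)]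
  set q1 : Fin 3 → K := fun i => (C u⁻¹ * q).coeff i
  obtain ⟨s, hs⟩ := (Set.finite_range a).infinite_compl.nonempty
  have hs' : ∀ i, a i - s ≠ 0 := fun i h => hs ⟨i, sub_eq_zero.1 h⟩
  have ha' : Function.Injective fun i => a i - s := fun i j h => ha (sub_left_injective h)
  rw [← D.trans K s _ _ (good_P5 a (dis_of_inj ha)) (natDegree_Qp q1), P6_comp, Qp_comp,
    ← D.inv K _ _ (good_P5 _ (dis_of_inj ha')) (natDegree_Qp _)]
  have hg := (good_P5 _ (dis_of_inj ha')).reflectK
  rw [reflect_five _ hs'] at hg ⊢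
  refine S_six D c hc _ _ ?_ ?_ _ hg ?_
  · exact neg_ne_zero.2 (Finset.prod_ne_zero_iff.2 fun i _ => hs' i)
  · rw [Fin.cons_injective_iff]
    refine ⟨?_, fun i j h => ha' (inv_inj.1 h)⟩
    rintro ⟨i, hi⟩
    exact hs' i (inv_eq_zero.1 hi)
  · rw [Qp_reflect]
    exact natDegree_Qp _

end field

/-- `S` is constant. -/
theorem alg : Alg_Stmt := by
  intro k _ _ D
  obtain ⟨c, hc⟩ := exists_const D
  refine ⟨c, fun K _ _ _ f q hf hq => ?_⟩
  have hinf : Infinite K := Infinite.of_injective _ (algebraMap k K).injective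
  have h5 := hf.five_le
  have h6 := hf.deg
  rcases Nat.lt_or_ge f.natDegree 6 with h | h
  · obtain ⟨u, a, hu, ha, rfl⟩ := splits_P6 f hf.cop 5 (by omega)
    exact S_five D c (hc K) u a hu ha q hf hq
  · obtain ⟨u, a, hu, ha, rfl⟩ := splits_P6 f hf.cop 6 (by omega)
    exact S_six D c (hc K) u a hu ha q hf hq

end Pool.Agent.MG.Two2


end

section

/-!
# Pure algebra part of the case `(2, n)`: data over normal domains, products of linear factors
-/

open Polynomial

namespace Pool.Agent.MG.Two2.N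

variable {k : Type} [Field k] (D : DatN k)

/-- The value at the polynomial with roots `a`. -/
noncomputable def T {B : Type} [CommRing B] [IsDomain B] [IsIntegrallyClosed B] [Algebra k B]
    {n : ℕ} (a : Fin n → B) (q : Fin 3 → B) : B := D.S B (P6 a) (Qp q)

section

variable {B B' : Type} [CommRing B] [IsDomain B] [IsIntegrallyClosed B] [CommRing B']
  [IsDomain B'] [IsIntegrallyClosed B'] [Algebra k B] [Algebra k B']

theorem T_nat (φ : B →ₐ[k] B') (a : Fin 6 → B) (h : Dis a) (q : Fin 3 → B) :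
    T D (fun i => φ (a i)) (fun i => φ (q i)) = φ (T D a q) := by
  unfold T
  rw [← D.nat B B' φ _ _ (good_P6 rfl a h) (natDegree_Qp q), P6_map, Qp_map]
  rfl

theorem T_congr {a b : Fin 6 → B} (h : P6 a = P6 b) (q : Fin 3 → B) : T D a q = T D b q := by
  unfold T
  rw [h]

theorem T_trans (a : Fin 6 → B) (h : Dis a) (t : B) (q : Fin 3 → B) :
    T D (fun i => a i - t) (shq t q) = T D a q := by
  unfold T
  rw [← D.trans B t _ _ (good_P6 rfl a h) (natDegree_Qp q), P6_comp, Qp_comp]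

end

theorem scal_field {K : Type} [Field K] [Algebra k K] (c : K) (hc : c ≠ 0) (f q : K[X])
    (hf : Good f) (hf' : Good (C c * f)) (hq : q.natDegree ≤ 2) :
    D.S K (C c * f) (C c * q) = D.S K f q := by
  let L := AlgebraicClosure K
  let φ : K →ₐ[k] L := IsScalarTower.toAlgHom k K L
  have hφ : Function.Injective φ := (algebraMap K L).injective
  apply hφ
  obtain ⟨v, hv⟩ := IsAlgClosed.exists_pow_nat_eq (algebraMap K L c) (n := 2) (by norm_num)
  have hv0 : v ≠ 0 := by
    rintro rfl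
    rw [zero_pow two_ne_zero] at hv
    exact hc ((algebraMap K L).injective (by rw [← hv, map_zero]))
  have hq' : (C c * q).natDegree ≤ 2 := (natDegree_C_mul_le _ _).trans hq
  have hfL : Good (f.map (φ : K →+* L)) := by
    refine ⟨(natDegree_map_le).trans hf.deg, ?_, ?_⟩
    · have := hf.cop.map (mapRingHom (φ : K →+* L))
      rw [coe_mapRingHom, ← derivative_map] at this
      exact this
    · have := hf.cop'.map (mapRingHom (φ : K →+* L))
      rw [coe_mapRingHom, ← derivative_map, ← reflect_map] at this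
      exact this
  have hqL : (q.map (φ : K →+* L)).natDegree ≤ 2 := (natDegree_map_le).trans hq
  have e := D.scal L v _ _ (IsUnit.mk0 v hv0) hfL hqL
  rw [← D.nat K L φ _ _ hf' hq', ← D.nat K L φ _ _ hf hq, ← e]
  rw [Polynomial.map_mul, Polynomial.map_mul, map_C]
  have e2 : (φ : K →+* L) c = v ^ 2 := by rw [hv]; rfl
  rw [e2]

theorem T_inv {K : Type} [Field K] [Algebra k K] (a : Fin 6 → K) (h : Dis a)
    (h0 : ∀ i, a i ≠ 0) (q : Fin 3 → K) :
    T D (fun i => (a i)⁻¹) (fun i => (∏ j, a j)⁻¹ * ![q 2, q 1, q 0] i) = T D a q := by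
  have hR : (∏ j, a j) ≠ 0 := Finset.prod_ne_zero_iff.2 fun i _ => h0 i
  have hd : Dis (fun i => (a i)⁻¹) := by
    intro i j hij
    refine IsUnit.mk0 _ ?_
    rw [Ne, sub_eq_zero, inv_inj]
    exact fun e => (h i j hij).ne_zero (sub_eq_zero.2 e)
  have hg := good_P6 rfl a h
  have e1 : (P6 a).reflect 6 = C (∏ j, a j) * P6 (fun i => (a i)⁻¹) := by
    rw [P6_reflect, P6, map_prod, ← Finset.prod_mul_distrib]
    have : ∀ i, (1 - C (a i) * X : K[X]) = (-1) * (C (a i) * (X - C (a i)⁻¹)) := by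
      intro i
      have h2 : (C (a i) * C (a i)⁻¹ : K[X]) = 1 := by
        rw [← C_mul, mul_inv_cancel₀ (h0 i), C_1]
      linear_combination -h2
    simp_rw [this]
    rw [Finset.prod_mul_distrib, Finset.prod_const, Finset.card_univ, Fintype.card_fin]
    norm_num
  have hgr : Good ((P6 a).reflect 6) := hg.reflectK
  have e2 := D.inv K _ _ hg (natDegree_Qp q)
  unfold T
  rw [← e2, e1, Qp_reflect, ← Qp_smul]
  rw [e1] at hgr
  rw [← scal_field D _ hR _ _ (good_P6 rfl _ hd) hgr]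
  · congr 1
    rw [← mul_assoc, ← C_mul, mul_inv_cancel₀ hR, C_1, one_mul]
  · exact (natDegree_C_mul_le _ _).trans (natDegree_Qp _)

variable {K : Type} [Field K]

/-- `evN` as a homomorphism of algebras. -/
noncomputable def evNA {B : Type} [CommRing B] [Algebra K B] (t δ : B) (q : Fin 3 → B) :
    MvPolynomial (Fin 3) K[X][X] →ₐ[K] B :=
  { evN t δ q with
    commutes' := fun c => by
      change evN t δ q (MvPolynomial.C (algebraMap K K[X][X] c)) = _
      rw [evN_C, AlgHom.commutes] }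

/-- `evM` as a homomorphism of algebras. -/
noncomputable def evMA {B : Type} [CommRing B] [Algebra K B] (x : B) (q : Fin 3 → B) :
    MvPolynomial (Fin 3) K[X] →ₐ[K] B :=
  { evM x q with
    commutes' := fun c => by
      change evM x q (MvPolynomial.C (algebraMap K K[X] c)) = _
      rw [evM_C, AlgHom.commutes] }

/-- The polynomial `N` is `δ ^ w * D ^ c * S`. -/
def KI (D : DatN K) (r : Fin 4 → K) (w c : ℕ) (N : MvPolynomial (Fin 3) K[X][X]) : Prop :=
  ∀ (B : Type) [CommRing B] [IsDomain B] [IsIntegrallyClosed B] [Algebra K B] (t δ : B)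
    (q : Fin 3 → B), IsUnit δ →
    IsUnit (DD r t δ) → T D (rt r t δ) q * (δ ^ w * DD r t δ ^ c) = evN t δ q N

/-- The polynomial `N` is `E ^ n * S`. -/
def KJ (D : DatN K) (r : Fin 5 → K) (n : ℕ) (N : MvPolynomial (Fin 3) K[X]) : Prop :=
  ∀ (B : Type) [CommRing B] [IsDomain B] [IsIntegrallyClosed B] [Algebra K B] (x : B)
    (q : Fin 3 → B), IsUnit (EE r x) →
    T D (rf r x) q * EE r x ^ n = evM x q N

theorem DD_ne (r : Fin 4 → K) : (X * DD r (C X : K[X][X]) X) ≠ 0 := by
  refine mul_ne_zero X_ne_zero ?_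
  unfold DD
  refine Finset.prod_ne_zero_iff.2 fun i _ => ?_
  have e1 : (algebraMap K K[X][X] (r i) - C X : K[X][X]) = C (C (r i) - X) := by
    rw [C_sub]
    rfl
  have e2 : (C (r i) - X : K[X]) ≠ 0 := by
    intro h
    have : (X - C (r i) : K[X]) = 0 := by
      rw [← neg_sub, h, neg_zero]
    exact X_sub_C_ne_zero (r i) this
  rw [e1]
  refine mul_ne_zero (C_ne_zero.2 e2) ?_
  intro h
  have : (X - C (C (r i) - X) : K[X][X]) = 0 := by
    rw [← neg_sub, h, neg_zero]
  exact X_sub_C_ne_zero _ this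

theorem exists_loc (K M : Type) [Field K] [CommRing M] [IsDomain M] [IsIntegrallyClosed M]
    [Algebra K M] (h : M) (hh : h ≠ 0) : ∃ (L : Type) (_ : CommRing L) (_ : IsDomain L)
      (_ : IsIntegrallyClosed L) (_ : Algebra M L) (_ : Algebra K L) (_ : IsScalarTower K M L),
      IsLocalization.Away h L := by
  have hM : Submonoid.powers h ≤ nonZeroDivisors M :=
    powers_le_nonZeroDivisors_of_noZeroDivisors hh
  have h1 : IsDomain (Localization.Away h) := IsLocalization.isDomain_localization hM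
  have h2 : IsIntegrallyClosed (Localization.Away h) :=
    isIntegrallyClosed_of_isLocalization (Localization.Away h) (Submonoid.powers h) hM
  exact ⟨Localization.Away h, inferInstance, h1, h2, inferInstance, inferInstance, inferInstance,
    inferInstance⟩

theorem KI_exists (D : DatN K) (r : Fin 4 → K) (hr : Function.Injective r) :
    ∃ (n : ℕ) (N : MvPolynomial (Fin 3) K[X][X]), KI D r n n N := by
  let M := MvPolynomial (Fin 3) K[X][X]
  let jC : K[X][X] →ₐ[K] M := IsScalarTower.toAlgHom K K[X][X] M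
  obtain ⟨h, hh⟩ : ∃ h : M, h = jC (X * DD r (C X : K[X][X]) X) := ⟨_, rfl⟩
  have hh0 : h ≠ 0 := by
    intro h0
    refine DD_ne r (MvPolynomial.C_injective (Fin 3) K[X][X] ?_)
    rw [map_zero]
    rw [h0] at hh
    exact hh.symm
  obtain ⟨L, _, _, _, _, _, _, _⟩ := exists_loc K M h hh0
  let ι : M →ₐ[K] L := IsScalarTower.toAlgHom K M L
  have hu : IsUnit (ι h) := IsLocalization.Away.algebraMap_isUnit h
  let jL : K[X][X] →ₐ[K] L := ι.comp jC
  let t₀ : L := jL (C X)
  let δ₀ : L := jL X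
  let T₀ : L := T D (rt r t₀ δ₀) fun i => ι (MvPolynomial.X i)
  have hu2 : IsUnit (δ₀ * DD r t₀ δ₀) := by
    have : δ₀ * DD r t₀ δ₀ = ι h := by
      rw [hh]
      change _ = jL (X * DD r (C X : K[X][X]) X)
      simp only [t₀, δ₀, map_mul, DD_map]
    rw [this]
    exact hu
  have hδ : IsUnit δ₀ := isUnit_of_mul_isUnit_left hu2
  have hD : IsUnit (DD r t₀ δ₀) := isUnit_of_mul_isUnit_right hu2
  have hdis := dis_rt r hr t₀ δ₀ hδ hD
  obtain ⟨n, N, hs⟩ := IsLocalization.Away.surj h T₀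
  refine ⟨n, N, ?_⟩
  intro B _ _ _ _ t δ q h1 h2
  let θ : M →ₐ[K] B := evNA (K := K) t δ q
  have hC : ∀ p : K[X][X], θ (jC p) = ev t δ p := fun p => evN_C t δ q p
  have hh2 : θ h = δ * DD r t δ := by
    rw [hh, hC]
    simp only [map_mul, DD_map, ev_X, ev_C, aeval_X]
  have h3 : IsUnit (θ h) := by
    rw [hh2]
    exact h1.mul h2
  let ψ : L →ₐ[K] B := IsLocalization.liftAlgHom (M := Submonoid.powers h)
    (f := θ)
    (by
      rintro ⟨_, ⟨m, rfl⟩⟩
      rw [map_pow]
      exact h3.pow m)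
  have hψ : ∀ p, ψ (ι p) = θ p := fun p => IsLocalization.lift_eq _ _
  have hX : ∀ i, θ (MvPolynomial.X i) = q i := fun i => by
    change evN t δ q (MvPolynomial.X i) = q i
    simp [evN]
  have hL : ∀ p, ψ (jL p) = ev t δ p := fun p => (hψ (jC p)).trans (hC p)
  have e1 : ψ T₀ = T D (rt r t δ) q := by
    rw [← T_nat D ψ _ hdis, rt_map]
    simp only [t₀, δ₀, hL, hψ, hX, ev_X, ev_C, aeval_X]
  have e2 : ψ (ι N) = evN t δ q N := hψ N
  have e3 := congrArg ψ hs
  change ψ (T₀ * ι h ^ n) = ψ (ι N) at e3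
  rw [map_mul, map_pow, e1, e2, hψ, hh2, mul_pow] at e3
  exact e3

theorem EE_ne (r : Fin 5 → K) : (EE r X : K[X]) ≠ 0 := by
  unfold EE
  exact Finset.prod_ne_zero_iff.2 fun l _ => X_sub_C_ne_zero _

theorem KJ_exists (D : DatN K) (r : Fin 5 → K) (hr : Function.Injective r) :
    ∃ (n : ℕ) (N : MvPolynomial (Fin 3) K[X]), KJ D r n N := by
  let M := MvPolynomial (Fin 3) K[X]
  let jC : K[X] →ₐ[K] M := IsScalarTower.toAlgHom K K[X] M
  obtain ⟨h, hh⟩ : ∃ h : M, h = jC (EE r X : K[X]) := ⟨_, rfl⟩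
  have hh0 : h ≠ 0 := by
    intro h0
    refine EE_ne r (MvPolynomial.C_injective (Fin 3) K[X] ?_)
    rw [map_zero]
    rw [h0] at hh
    exact hh.symm
  obtain ⟨L, _, _, _, _, _, _, _⟩ := exists_loc K M h hh0
  let ι : M →ₐ[K] L := IsScalarTower.toAlgHom K M L
  have hu : IsUnit (ι h) := IsLocalization.Away.algebraMap_isUnit h
  let x₀ : L := ι (jC X)
  let T₀ : L := T D (rf r x₀) fun i => ι (MvPolynomial.X i)
  have hE : IsUnit (EE r x₀) := by
    have : EE r x₀ = ι h := by
      rw [hh]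
      simp only [x₀, EE_map]
    rw [this]
    exact hu
  have hdis := dis_rf r hr x₀ hE
  obtain ⟨n, N, hs⟩ := IsLocalization.Away.surj h T₀
  refine ⟨n, N, ?_⟩
  intro B _ _ _ _ x q h1
  let θ : M →ₐ[K] B := evMA (K := K) x q
  have hC : ∀ p : K[X], θ (jC p) = aeval x p := fun p => evM_C x q p
  have hh2 : θ h = EE r x := by
    rw [hh, hC]
    simp only [EE_map, aeval_X]
  have h3 : IsUnit (θ h) := by
    rw [hh2]
    exact h1
  let ψ : L →ₐ[K] B := IsLocalization.liftAlgHom (M := Submonoid.powers h)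
    (f := θ)
    (by
      rintro ⟨_, ⟨m, rfl⟩⟩
      rw [map_pow]
      exact h3.pow m)
  have hψ : ∀ p, ψ (ι p) = θ p := fun p => IsLocalization.lift_eq _ _
  have hX : ∀ i, θ (MvPolynomial.X i) = q i := fun i => by
    change evM x q (MvPolynomial.X i) = q i
    simp [evM]
  have e1 : ψ T₀ = T D (rf r x) q := by
    rw [← T_nat D ψ _ hdis, rf_map]
    simp only [x₀, hψ, hC, hX, aeval_X]
  have e2 : ψ (ι N) = evM x q N := hψ N
  have e3 := congrArg ψ hs
  change ψ (T₀ * ι h ^ n) = ψ (ι N) at e3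
  rw [map_mul, map_pow, e1, e2, hψ, hh2] at e3
  exact e3

end Pool.Agent.MG.Two2.N


end

section

/-!
# Pure algebra part of the case `(2, n)`: data over normal domains, the order of the pole
-/

open Polynomial

namespace Pool.Agent.MG.Two2.N

variable {K : Type} [Field K]

section fieldps

variable {F : Type} [Field F] [Algebra K F]

/-- The order of vanishing of `N` when three roots collide, over power series. -/
theorem reg_ps (D : DatN K) (r : Fin 4 → K) (hr : Function.Injective r) (w c : ℕ)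
    (N : MvPolynomial (Fin 3) K[X][X]) (hN : KI D r w c N) (i : Fin 4) (d : F) (hd : d ≠ 0)
    (hd1 : d + 1 ≠ 0) (e : Fin 3 → PowerSeries F) :
    (PowerSeries.X : PowerSeries F) ^ (2 * w + 4 * c) ∣
      evN (algebraMap K (PowerSeries F) (r i) + PowerSeries.X ^ 2)
        (PowerSeries.X ^ 2 * PowerSeries.C d)
        ![PowerSeries.X ^ 2 * e 0, PowerSeries.X * e 1, e 2] N := by
  let P := PowerSeries F
  let Q := FractionRing P
  let φ : P →ₐ[K] Q := IsScalarTower.toAlgHom K P Q
  have hφ : Function.Injective φ := IsFractionRing.injective P Q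
  let s : P := PowerSeries.X
  let t : P := algebraMap K P (r i) + s ^ 2
  let δ : P := s ^ 2 * PowerSeries.C d
  let q : Fin 3 → P := ![s ^ 2 * e 0, s * e 1, e 2]
  let ρ : Fin 3 → P := ![0, PowerSeries.C d, -1]
  let r' : Fin 3 → P := fun j => algebraMap K P (r (i.succAbove j)) - t
  have hs : s ≠ 0 := PowerSeries.X_ne_zero
  have hsc : PowerSeries.constantCoeff s = 0 := PowerSeries.constantCoeff_X
  have hC : ∀ x : F, x ≠ 0 → IsUnit (PowerSeries.C x : P) := fun x hx =>
    (IsUnit.mk0 x hx).map PowerSeries.C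
  have hK : ∀ x : K, x ≠ 0 → IsUnit (algebraMap K P x) := fun x hx =>
    (IsUnit.mk0 x hx).map (algebraMap K P)
  have hne : ∀ j, r (i.succAbove j) - r i ≠ 0 := fun j =>
    sub_ne_zero.2 fun h => Fin.succAbove_ne i j (hr h)
  have hcc : ∀ x : K, PowerSeries.constantCoeff (algebraMap K P x) = algebraMap K F x := fun x => by
    rw [alg_ps]
    simp
  have hunit : ∀ j (x : P), IsUnit (r' j - s ^ 2 * x) := by
    intro j x
    rw [PowerSeries.isUnit_iff_constantCoeff]
    have : PowerSeries.constantCoeff (r' j - s ^ 2 * x) =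
        algebraMap K F (r (i.succAbove j) - r i) := by
      simp only [r', t, map_sub, map_add, map_mul, map_pow, hsc, hcc]
      ring
    rw [this]
    exact (IsUnit.mk0 _ (hne j)).map (algebraMap K F)
  have hr'u : ∀ j, IsUnit (r' j) := fun j => by
    have := hunit j 0
    rwa [mul_zero, sub_zero] at this
  obtain ⟨b, hb⟩ := D.reg P Q φ hφ s ρ r' e hs
    (by
      have h1 : IsUnit (PowerSeries.C d : P) := hC d hd
      have h2 : IsUnit (PowerSeries.C d + 1 : P) := by
        have := hC _ hd1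
        rwa [map_add, map_one] at this
      intro a b hab
      fin_cases a <;> fin_cases b
      · exact absurd rfl hab
      · change IsUnit ((0 : P) - PowerSeries.C d)
        rw [zero_sub]
        exact h1.neg
      · change IsUnit ((0 : P) - (-1))
        rw [zero_sub, neg_neg]
        exact isUnit_one
      · change IsUnit ((PowerSeries.C d : P) - 0)
        rw [sub_zero]
        exact h1
      · exact absurd rfl hab
      · change IsUnit ((PowerSeries.C d : P) - (-1))
        rw [sub_neg_eq_add]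
        exact h2
      · change IsUnit ((-1 : P) - 0)
        rw [sub_zero]
        exact isUnit_one.neg
      · change IsUnit ((-1 : P) - PowerSeries.C d)
        have : (-1 : P) - PowerSeries.C d = -(PowerSeries.C d + 1) := by ring
        rw [this]
        exact h2.neg
      · exact absurd rfl hab)
    (by
      intro a b hab
      have : r' a - r' b = algebraMap K P (r (i.succAbove a) - r (i.succAbove b)) := by
        simp only [r', map_sub]
        ring
      rw [this]
      refine hK _ (sub_ne_zero.2 fun h => hab ?_)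
      exact Fin.succAbove_right_injective (hr h))
    hr'u (fun a j => hunit j _)
  have hroots : ((∏ i, (X - C (s ^ 2 * ρ i))) * ∏ j, (X - C (r' j)) : P[X]) = P6 (rt r t δ) := by
    rw [rt, P6_cons, P6_cons, P6, Fin.prod_univ_succAbove _ i, Fin.prod_univ_three]
    have h1 : algebraMap K P (r i) - t = s ^ 2 * ρ 2 := by
      change algebraMap K P (r i) - (algebraMap K P (r i) + s ^ 2) = s ^ 2 * (-1)
      ring
    have h0 : (0 : P) = s ^ 2 * ρ 0 := by
      change (0 : P) = s ^ 2 * 0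
      rw [mul_zero]
    have h2 : δ = s ^ 2 * ρ 1 := rfl
    rw [h1, ← h0, ← h2]
    simp only [r', mul_assoc]
  have hq : (C (s ^ 2 * e 0) + C (s * e 1) * X + C (e 2) * X ^ 2 : P[X]) = Qp q := rfl
  rw [hroots, hq, P6_map, Qp_map] at hb
  have hrt : (fun i => (φ : P →+* Q) (rt r t δ i)) = rt r (φ t) (φ δ) := rt_map φ r t δ
  rw [hrt] at hb
  have hδ0 : δ ≠ 0 := mul_ne_zero (pow_ne_zero _ hs) (hC d hd).ne_zero
  have hfac : (algebraMap K P (r i) - t) * (algebraMap K P (r i) - t - δ) =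
      s ^ 4 * (PowerSeries.C d + 1) := by
    simp only [t, δ]
    ring
  have hD0 : DD r t δ ≠ 0 := by
    unfold DD
    refine Finset.prod_ne_zero_iff.2 fun l _ => ?_
    by_cases hl : l = i
    · rw [hl, hfac]
      refine mul_ne_zero (pow_ne_zero _ hs) ?_
      have := (hC _ hd1).ne_zero
      rwa [map_add, map_one] at this
    · obtain ⟨j, rfl⟩ := Fin.exists_succAbove_eq hl
      refine mul_ne_zero (hr'u j).ne_zero ?_
      exact (hunit j (PowerSeries.C d)).ne_zero
  have hφ0 : ∀ x : P, x ≠ 0 → φ x ≠ 0 := fun x hx h => hx (hφ (by rw [h, map_zero]))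
  have key := hN Q (φ t) (φ δ) (fun i => φ (q i)) (IsUnit.mk0 _ (hφ0 _ hδ0))
    (by rw [← DD_map]; exact IsUnit.mk0 _ (hφ0 _ hD0))
  have hT : T D (rt r (φ t) (φ δ)) (fun i => φ (q i)) = φ b := hb
  rw [hT, ← DD_map, ← map_pow, ← map_pow, ← map_mul, ← map_mul, ← evN_map] at key
  have key2 := hφ key
  change s ^ (2 * w + 4 * c) ∣ evN t δ q N
  rw [← key2, pow_add, pow_mul, pow_mul]
  refine Dvd.dvd.mul_left (mul_dvd_mul (pow_dvd_pow_of_dvd ⟨_, rfl⟩ w)
    (pow_dvd_pow_of_dvd ?_ c)) b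
  refine Dvd.dvd.trans ⟨_, hfac⟩ ?_
  exact Finset.dvd_prod_of_mem (fun i => (algebraMap K P (r i) - t) *
      (algebraMap K P (r i) - t - δ)) (Finset.mem_univ i)

end fieldps

theorem reg_poly1 (D : DatN K) (r : Fin 4 → K) (hr : Function.Injective r) (w c : ℕ)
    (N : MvPolynomial (Fin 3) K[X][X]) (hN : KI D r w c N) (i : Fin 4) :
    (X : (RE K)[X][X]) ^ (2 * w + 4 * c) ∣
      evN (algebraMap K (RE K)[X][X] (r i) + X ^ 2) (X ^ 2 * C X)
        ![X ^ 2 * C (C (MvPolynomial.X 0)), X * C (C (MvPolynomial.X 1)),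
          C (C (MvPolynomial.X 2))] N := by
  let R1 := (RE K)[X]
  let F := FractionRing R1
  let θ : R1[X] →ₐ[K] PowerSeries F := toPS R1
  let d : F := algebraMap R1 F X
  have hinj : Function.Injective (algebraMap R1 F) := IsFractionRing.injective R1 F
  have hd : d ≠ 0 := fun h => X_ne_zero (hinj (by rw [map_zero]; exact h))
  have hd1 : d + 1 ≠ 0 := by
    intro h
    have h2 : (X + C 1 : R1) = 0 := hinj (by rw [map_add, C_1, map_one, map_zero]; exact h)
    exact X_add_C_ne_zero 1 h2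
  have h1 := reg_ps (F := F) D r hr w c N hN i d hd hd1
    ![PowerSeries.C (algebraMap R1 F (C (MvPolynomial.X 0))),
      PowerSeries.C (algebraMap R1 F (C (MvPolynomial.X 1))),
      PowerSeries.C (algebraMap R1 F (C (MvPolynomial.X 2)))]
  rw [Polynomial.X_pow_dvd_iff]
  intro n hn
  apply hinj
  rw [← coeff_toPS (K := K), map_zero]
  refine (PowerSeries.X_pow_dvd_iff.1 ?_) n hn
  rw [evN_map]
  have e1 : θ (algebraMap K R1[X] (r i) + X ^ 2) =
      algebraMap K (PowerSeries F) (r i) + PowerSeries.X ^ 2 := by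
    rw [map_add, AlgHom.commutes, map_pow]
    exact congrArg _ (congrArg (· ^ 2) toPS_X)
  have e2 : θ (X ^ 2 * C X) = PowerSeries.X ^ 2 * PowerSeries.C d := by
    rw [map_mul, map_pow]
    exact congr (congrArg _ (congrArg (· ^ 2) toPS_X)) (toPS_C X)
  have e3 : (fun j => θ ((![X ^ 2 * C (C (MvPolynomial.X 0)), X * C (C (MvPolynomial.X 1)),
      C (C (MvPolynomial.X 2))] : Fin 3 → R1[X]) j)) =
      ![PowerSeries.X ^ 2 * (![PowerSeries.C (algebraMap R1 F (C (MvPolynomial.X 0))),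
        PowerSeries.C (algebraMap R1 F (C (MvPolynomial.X 1))),
        PowerSeries.C (algebraMap R1 F (C (MvPolynomial.X 2)))] : Fin 3 → PowerSeries F) 0,
        PowerSeries.X * (![PowerSeries.C (algebraMap R1 F (C (MvPolynomial.X 0))),
        PowerSeries.C (algebraMap R1 F (C (MvPolynomial.X 1))),
        PowerSeries.C (algebraMap R1 F (C (MvPolynomial.X 2)))] : Fin 3 → PowerSeries F) 1,
        (![PowerSeries.C (algebraMap R1 F (C (MvPolynomial.X 0))),
        PowerSeries.C (algebraMap R1 F (C (MvPolynomial.X 1))),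
        PowerSeries.C (algebraMap R1 F (C (MvPolynomial.X 2)))] : Fin 3 → PowerSeries F) 2] := by
    funext j
    fin_cases j
    · change θ (X ^ 2 * C (C (MvPolynomial.X 0))) = PowerSeries.X ^ 2 *
        PowerSeries.C (algebraMap R1 F (C (MvPolynomial.X 0)))
      rw [map_mul, map_pow]
      exact congr (congrArg _ (congrArg (· ^ 2) toPS_X)) (toPS_C _)
    · change θ (X * C (C (MvPolynomial.X 1))) = PowerSeries.X *
        PowerSeries.C (algebraMap R1 F (C (MvPolynomial.X 1)))
      rw [map_mul]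
      exact congr (congrArg _ toPS_X) (toPS_C _)
    · exact toPS_C _
  change PowerSeries.X ^ (2 * w + 4 * c) ∣ evN (θ (algebraMap K R1[X] (r i) + X ^ 2))
    (θ (X ^ 2 * C X)) (fun j => θ ((![X ^ 2 * C (C (MvPolynomial.X 0)),
      X * C (C (MvPolynomial.X 1)), C (C (MvPolynomial.X 2))] : Fin 3 → R1[X]) j)) N
  rw [e1, e2, e3]
  exact h1

theorem reg_poly2 (D : DatN K) (r : Fin 4 → K) (hr : Function.Injective r) (w c : ℕ)
    (N : MvPolynomial (Fin 3) K[X][X]) (hN : KI D r w c N) (i : Fin 4) :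
    (X : (RE K)[X]) ^ (2 * w + 4 * c) ∣
      MvPolynomial.eval₂ ((aeval (algebraMap K (RE K)[X] (r i) + X ^ 2) : K[X] →ₐ[K] (RE K)[X]) :
        K[X] →+* (RE K)[X])
        ![X ^ 2 * C (MvPolynomial.X 0), X * C (MvPolynomial.X 1), C (MvPolynomial.X 2)]
        (lead N) := by
  let θ : (RE K)[X][X] →ₐ[K] (RE K)[X] :=
    mapAlgHom ((aeval (0 : RE K) : (RE K)[X] →ₐ[RE K] RE K).restrictScalars K)
  have hX : θ X = X := by simp [θ]
  have hC : ∀ p : (RE K)[X], θ (C p) = C (p.eval 0) := fun p => by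
    simp [θ]
  have h1 := (reg_poly1 D r hr w c N hN i)
  have h2 := map_dvd θ h1
  rw [map_pow, hX] at h2
  replace h2 := h2.trans (dvd_of_eq (evN_map (B := (RE K)[X][X]) (B' := (RE K)[X]) θ
    (algebraMap K (RE K)[X][X] (r i) + X ^ 2)
    (X ^ 2 * C X) ![X ^ 2 * C (C (MvPolynomial.X 0)), X * C (C (MvPolynomial.X 1)),
      C (C (MvPolynomial.X 2))] N))
  have e1 : θ (algebraMap K (RE K)[X][X] (r i) + X ^ 2) = algebraMap K (RE K)[X] (r i) + X ^ 2 := by
    rw [map_add, AlgHom.commutes, map_pow, hX]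
  have e2 : θ (X ^ 2 * C X) = 0 := by
    rw [map_mul, hC, eval_X, C_0, mul_zero]
  have e3 : (fun j => θ ((![X ^ 2 * C (C (MvPolynomial.X 0)), X * C (C (MvPolynomial.X 1)),
      C (C (MvPolynomial.X 2))] : Fin 3 → (RE K)[X][X]) j)) =
      ![X ^ 2 * C (MvPolynomial.X 0), X * C (MvPolynomial.X 1), C (MvPolynomial.X 2)] := by
    funext j
    fin_cases j
    · change θ (X ^ 2 * C (C (MvPolynomial.X 0))) = X ^ 2 * C (MvPolynomial.X 0)
      rw [map_mul, map_pow, hX, hC, eval_C]
    · change θ (X * C (C (MvPolynomial.X 1))) = X * C (MvPolynomial.X 1)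
      rw [map_mul, hX, hC, eval_C]
    · change θ (C (C (MvPolynomial.X 2))) = C (MvPolynomial.X 2)
      rw [hC, eval_C]
  rw [e1, e2, e3] at h2
  refine h2.trans (dvd_of_eq ?_)
  rw [lead, MvPolynomial.eval₂_map, evN, MvPolynomial.coe_eval₂Hom]
  congr 1
  refine RingHom.ext fun p => ?_
  have : (ev (K := K) (algebraMap K (RE K)[X] (r i) + X ^ 2) 0 : K[X][X] →ₐ[K] (RE K)[X]) =
      (aeval (algebraMap K (RE K)[X] (r i) + X ^ 2) : K[X] →ₐ[K] (RE K)[X]).comp
        ((aeval (0 : K[X]) : K[X][X] →ₐ[K[X]] K[X]).restrictScalars K) := by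
    refine Polynomial.algHom_ext' ?_ ?_
    · ext
      simp [ev]
    · simp [ev]
  change (ev (K := K) (algebraMap K (RE K)[X] (r i) + X ^ 2) 0) p =
    aeval (algebraMap K (RE K)[X] (r i) + X ^ 2) (eval 0 p)
  rw [this]
  rfl

/-- `2 ord_{r_i} + 2 l + j ≥ 2 w + 4 c`. -/
theorem reg_dvd (D : DatN K) (r : Fin 4 → K) (hr : Function.Injective r) (w c : ℕ)
    (N : MvPolynomial (Fin 3) K[X][X]) (hN : KI D r w c N) (i : Fin 4) (m : Fin 3 →₀ ℕ) :
    (X : K[X]) ^ (2 * w + 4 * c) ∣
      (MvPolynomial.coeff m (lead N)).comp (C (r i) + X ^ 2) * X ^ (2 * m 0 + m 1) := by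
  rw [Polynomial.X_pow_dvd_iff]
  intro n hn
  rw [← coeff_ev, Polynomial.X_pow_dvd_iff.1 (reg_poly2 D r hr w c N hN i) n hn,
    MvPolynomial.coeff_zero]

/-- The multiplicity of the root `r_i`. -/
theorem reg_mult (D : DatN K) (r : Fin 4 → K) (hr : Function.Injective r) (w c : ℕ)
    (N : MvPolynomial (Fin 3) K[X][X]) (hN : KI D r w c N) (i : Fin 4) (m : Fin 3 →₀ ℕ)
    (h0 : MvPolynomial.coeff m (lead N) ≠ 0) :
    2 * w + 4 * c ≤ 2 * (MvPolynomial.coeff m (lead N)).rootMultiplicity (r i) + (2 * m 0 + m 1) := by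
  set p := MvPolynomial.coeff m (lead N) with hp
  obtain ⟨p1, hp1, hnd⟩ := exists_eq_pow_rootMultiplicity_mul_and_not_dvd p h0 (r i)
  have h1 := reg_dvd D r hr w c N hN i m
  rw [← hp] at h1
  set μ := p.rootMultiplicity (r i)
  have h2 : p.comp (C (r i) + X ^ 2) = X ^ (2 * μ) * p1.comp (C (r i) + X ^ 2) := by
    conv_lhs => rw [hp1]
    rw [mul_comp, pow_comp, sub_comp, X_comp, C_comp, add_sub_cancel_left, ← pow_mul]
  rw [h2, mul_assoc, mul_comm (p1.comp _), ← mul_assoc, ← pow_add] at h1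
  by_contra hlt
  push Not at hlt
  have hX : (X : K[X]) ^ (2 * μ + (2 * m 0 + m 1)) ≠ 0 := pow_ne_zero _ X_ne_zero
  have h3 : (X : K[X]) ^ (2 * μ + (2 * m 0 + m 1)) * X ∣
      X ^ (2 * μ + (2 * m 0 + m 1)) * p1.comp (C (r i) + X ^ 2) := by
    rw [← pow_succ]
    exact (pow_dvd_pow X hlt).trans h1
  have h5 : (X : K[X]) ∣ p1.comp (C (r i) + X ^ 2) := (mul_dvd_mul_iff_left hX).1 h3
  have h4 : p1.eval (r i) = 0 := by
    rw [X_dvd_iff, coeff_zero_eq_eval_zero, eval_comp] at h5
    simpa using h5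
  exact hnd (dvd_iff_isRoot.2 h4)

section fieldQ

variable {Q : Type} [Field Q] [Algebra K Q]

theorem T_inv_rt (D : DatN K) (r : Fin 4 → K) (hr : Function.Injective r) (hr0 : ∀ i, r i ≠ 0)
    (t δ : Q) (ht : t ≠ 0) (htδ : t + δ ≠ 0) (hδ : δ ≠ 0) (hD : DD r t δ ≠ 0) (q : Fin 3 → Q) :
    T D (rt (fun i => (r i)⁻¹) t⁻¹ ((t + δ)⁻¹ - t⁻¹))
      (qh t t⁻¹ (t + δ)⁻¹ (∏ i, algebraMap K Q (r i))⁻¹ q) = T D (rt r t δ) q := by
  let a : Fin 6 → Q := Fin.cons t (Fin.cons (t + δ) fun i : Fin 4 => algebraMap K Q (r i))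
  have ha : (fun i => a i - t) = rt r t δ := by
    refine (map_cons2 (fun x : Q => x - t) _ _ _).trans ?_
    unfold rt
    simp only [sub_self, add_sub_cancel_left]
  have hdis : Dis a := by
    have h1 := dis_rt r hr t δ (IsUnit.mk0 _ hδ) (IsUnit.mk0 _ hD)
    rw [← ha] at h1
    have h2 := h1.sub (-t)
    simpa only [sub_neg_eq_add, sub_add_cancel] using h2
  have hrQ : ∀ i, algebraMap K Q (r i) ≠ 0 := fun i h =>
    hr0 i ((algebraMap K Q).injective (by rw [h, map_zero]))
  have ha0 : ∀ i, a i ≠ 0 := by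
    intro i
    refine Fin.cases ht (fun j => ?_) i
    exact Fin.cases htδ (fun l => hrQ l) j
  have hai : (fun i => (a i)⁻¹) = Fin.cons t⁻¹ (Fin.cons (t + δ)⁻¹ fun i : Fin 4 =>
      (algebraMap K Q (r i))⁻¹) := by
    exact map_cons2 (fun x : Q => x⁻¹) _ _ _
  have hdi : Dis (fun i => (a i)⁻¹) := by
    intro i j hij
    refine IsUnit.mk0 _ ?_
    rw [Ne, sub_eq_zero, inv_inj]
    exact fun e => (hdis i j hij).ne_zero (sub_eq_zero.2 e)
  have hai2 : (fun i => (a i)⁻¹ - t⁻¹) =
      rt (fun i => (r i)⁻¹) t⁻¹ ((t + δ)⁻¹ - t⁻¹) := by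
    have e1 : (fun i => (a i)⁻¹ - t⁻¹) = fun i => (fun x => x - t⁻¹) ((fun i => (a i)⁻¹) i) := rfl
    rw [e1, hai]
    refine (map_cons2 (fun x : Q => x - t⁻¹) _ _ _).trans ?_
    unfold rt
    simp only [alg_inv, sub_self]
  have hprod : (∏ j, a j)⁻¹ = t⁻¹ * (t + δ)⁻¹ * (∏ i, algebraMap K Q (r i))⁻¹ := by
    rw [Fin.prod_univ_succ, Fin.prod_univ_succ, mul_inv, mul_inv, mul_assoc]
    rfl
  have s1 := T_trans D a hdis t (shq (-t) q)
  rw [ha, shq_neg] at s1
  have s2 := T_inv D a hdis ha0 (shq (-t) q)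
  have s3 := T_trans D (fun i => (a i)⁻¹) hdi t⁻¹
    (fun i => (∏ j, a j)⁻¹ * ![shq (-t) q 2, shq (-t) q 1, shq (-t) q 0] i)
  rw [hai2, s2, hprod] at s3
  rw [s1, ← s3]
  rfl

theorem invQ (D : DatN K) (r : Fin 4 → K) (hr : Function.Injective r) (hr0 : ∀ i, r i ≠ 0)
    (w c : ℕ) (N N' : MvPolynomial (Fin 3) K[X][X]) (hN : KI D r w c N)
    (hN' : KI D (fun i => (r i)⁻¹) w c N')
    (t δ : Q) (ht : t ≠ 0) (htδ : t + δ ≠ 0) (hδ : δ ≠ 0) (hD : DD r t δ ≠ 0) (q : Fin 3 → Q) :
    evN t δ q N = (-1) ^ w * (∏ i, algebraMap K Q (r i)) ^ (2 * c) *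
      (t * (t + δ)) ^ (w + 4 * c) * evN t⁻¹ ((t + δ)⁻¹ - t⁻¹)
        (qh t t⁻¹ (t + δ)⁻¹ (∏ i, algebraMap K Q (r i))⁻¹ q) N' := by
  have hDD := DD_inv r hr0 t δ ht htδ
  have hδ' : (t * (t + δ)) * ((t + δ)⁻¹ - t⁻¹) = -δ := by
    field_simp
    ring
  have hδ0 : (t + δ)⁻¹ - t⁻¹ ≠ 0 := by
    intro h
    rw [h, mul_zero] at hδ'
    exact hδ (neg_eq_zero.1 hδ'.symm)
  have hD0 : DD (fun i => (r i)⁻¹) t⁻¹ ((t + δ)⁻¹ - t⁻¹) ≠ 0 := by
    intro h
    rw [h, mul_zero] at hDD
    exact hD hDD.symm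
  rw [← hN Q t δ q (IsUnit.mk0 _ hδ) (IsUnit.mk0 _ hD),
    ← hN' Q _ _ _ (IsUnit.mk0 _ hδ0) (IsUnit.mk0 _ hD0), T_inv_rt D r hr hr0 t δ ht htδ hδ hD q]
  have e1 : δ ^ w = (-1) ^ w * (t * (t + δ)) ^ w * ((t + δ)⁻¹ - t⁻¹) ^ w := by
    rw [mul_assoc, ← mul_pow, ← mul_pow, hδ', neg_one_mul, neg_neg]
  rw [e1, ← hDD, mul_pow _ _ c, mul_pow _ _ c, ← pow_mul, ← pow_mul, pow_add, pow_mul]
  ring

end fieldQ

/-- The inversion formula for the leading coefficient. -/
theorem inv_lead (D : DatN K) (r : Fin 4 → K) (hr : Function.Injective r) (hr0 : ∀ i, r i ≠ 0)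
    (w c : ℕ) (N N' : MvPolynomial (Fin 3) K[X][X]) (hN : KI D r w c N)
    (hN' : KI D (fun i => (r i)⁻¹) w c N') (t : K) (ht : t ≠ 0) (htr : ∀ i, t ≠ r i)
    (q : Fin 3 → K) :
    evL t q (lead N) = ((-1) ^ w * (∏ i, r i) ^ (2 * c) * t ^ (2 * w + 8 * c)) *
      evL t⁻¹ (qh t t⁻¹ t⁻¹ (∏ i, r i)⁻¹ q) (lead N') := by
  let P := PowerSeries K
  let Q := FractionRing P
  let φ : P →ₐ[K] Q := IsScalarTower.toAlgHom K P Q
  have hφ : Function.Injective φ := IsFractionRing.injective P Q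
  have hφ0 : ∀ x : P, x ≠ 0 → φ x ≠ 0 := fun x hx h => hx (hφ (by rw [h, map_zero]))
  let δ : P := PowerSeries.X
  let tP : P := algebraMap K P t
  have hcX : PowerSeries.constantCoeff δ = 0 := PowerSeries.constantCoeff_X
  have hcc : ∀ x : K, PowerSeries.constantCoeff (algebraMap K P x) = x := fun x => by
    rw [alg_ps]
    simp
  have hu : IsUnit (tP + δ) := by
    rw [PowerSeries.isUnit_iff_constantCoeff, map_add, hcX, hcc, add_zero]
    exact IsUnit.mk0 t ht
  obtain ⟨v, hv⟩ := hu.exists_right_inv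
  have hcv : PowerSeries.constantCoeff v = t⁻¹ := by
    have := congrArg PowerSeries.constantCoeff hv
    rw [map_mul, map_add, hcX, hcc, add_zero, map_one] at this
    exact eq_inv_of_mul_eq_one_right this
  have hφv : φ v = (φ tP + φ δ)⁻¹ := by
    have := congrArg φ hv
    rw [map_mul, map_add, map_one] at this
    exact eq_inv_of_mul_eq_one_right this
  have hφt : φ tP = algebraMap K Q t := AlgHom.commutes φ t
  have hti : φ (algebraMap K P t⁻¹) = (φ tP)⁻¹ := by
    rw [AlgHom.commutes, hφt, alg_inv]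
  have hRi : φ (algebraMap K P (∏ i, r i)⁻¹) = (∏ i, algebraMap K Q (r i))⁻¹ := by
    rw [AlgHom.commutes, alg_inv, map_prod]
  have ht0 : φ tP ≠ 0 := by
    rw [hφt]
    exact fun h => ht ((algebraMap K Q).injective (by rw [h, map_zero]))
  have hδ0 : φ δ ≠ 0 := hφ0 _ PowerSeries.X_ne_zero
  have htδ : φ tP + φ δ ≠ 0 := by
    rw [← map_add]
    exact hφ0 _ hu.ne_zero
  have hD0 : DD r (φ tP) (φ δ) ≠ 0 := by
    rw [← DD_map]
    refine hφ0 _ ?_
    unfold DD
    refine Finset.prod_ne_zero_iff.2 fun i _ => mul_ne_zero ?_ ?_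
    · intro h
      have := congrArg PowerSeries.constantCoeff h
      rw [map_sub, hcc, hcc, map_zero, sub_eq_zero] at this
      exact htr i this.symm
    · intro h
      have := congrArg PowerSeries.constantCoeff h
      rw [map_sub, map_sub, hcc, hcc, hcX, sub_zero, map_zero, sub_eq_zero] at this
      exact htr i this.symm
  have key := invQ D r hr hr0 w c N N' hN hN' (φ tP) (φ δ) ht0 htδ hδ0 hD0
    (fun i => φ (algebraMap K P (q i)))
  have e1 : qh (φ tP) (φ tP)⁻¹ (φ tP + φ δ)⁻¹ (∏ i, algebraMap K Q (r i))⁻¹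
      (fun i => φ (algebraMap K P (q i))) = fun i => φ (qh tP (algebraMap K P t⁻¹) v
        (algebraMap K P (∏ i, r i)⁻¹) (fun i => algebraMap K P (q i)) i) := by
    have := qh_map (φ : P →+* Q) tP (algebraMap K P t⁻¹) v
        (algebraMap K P (∏ i, r i)⁻¹) (fun i => algebraMap K P (q i))
    refine Eq.trans ?_ this.symm
    change _ = qh (φ tP) (φ (algebraMap K P t⁻¹)) (φ v) (φ (algebraMap K P (∏ i, r i)⁻¹)) _
    rw [hti, hφv, hRi]
    rfl
  have e2 : (φ tP + φ δ)⁻¹ - (φ tP)⁻¹ = φ (v - algebraMap K P t⁻¹) := by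
    rw [map_sub, hφv, hti]
  have e3 : (∏ i, algebraMap K Q (r i)) = φ (algebraMap K P (∏ i, r i)) := by
    rw [AlgHom.commutes, map_prod]
  rw [e1, e2, e3, ← hti, ← evN_map, ← evN_map, ← map_pow, ← map_add, ← map_mul φ tP,
    ← map_pow] at key
  have key1 : φ (evN tP δ (fun i => algebraMap K P (q i)) N) = φ ((-1) ^ w *
      (algebraMap K P (∏ i, r i)) ^ (2 * c) * (tP * (tP + δ)) ^ (w + 4 * c) *
      evN (algebraMap K P t⁻¹) (v - algebraMap K P t⁻¹) (qh tP (algebraMap K P t⁻¹) v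
        (algebraMap K P (∏ i, r i)⁻¹) (fun i => algebraMap K P (q i))) N') := by
    rw [key]
    simp only [map_mul, map_pow, map_neg, map_one]
  have key2 := hφ key1
  let cc : P →ₐ[K] K := { PowerSeries.constantCoeff with commutes' := hcc }
  have hccv : cc v = t⁻¹ := hcv
  have hccX : cc δ = 0 := hcX
  have hcca : ∀ x : K, cc (algebraMap K P x) = x := hcc
  have key3 := congrArg cc key2
  rw [map_mul, map_mul, map_mul, evN_map, evN_map, map_pow, map_pow, map_pow, map_neg, map_one,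
    map_mul, map_add, map_sub, hccX, hccv, hcca, hcca, hcca, sub_self, add_zero, evN_lead,
    evN_lead] at key3
  have e4 : (fun i => cc (qh tP (algebraMap K P t⁻¹) v (algebraMap K P (∏ i, r i)⁻¹)
      (fun i => algebraMap K P (q i)) i)) = qh t t⁻¹ t⁻¹ (∏ i, r i)⁻¹ q := by
    have := qh_map (cc : P →+* K) tP (algebraMap K P t⁻¹) v
        (algebraMap K P (∏ i, r i)⁻¹) (fun i => algebraMap K P (q i))
    refine Eq.trans this ?_
    change qh (cc tP) (cc (algebraMap K P t⁻¹)) (cc v) (cc (algebraMap K P (∏ i, r i)⁻¹))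
      (fun i => cc (algebraMap K P (q i))) = _
    rw [hcca, hcca, hccv, hcca]
    simp only [hcca]
  rw [e4] at key3
  simp only [hcca] at key3
  rw [key3]
  congr 2
  rw [← pow_two, ← pow_mul]
  congr 1
  ring

end Pool.Agent.MG.Two2.N


end

section

/-!
# Pure algebra part of the case `(2, n)`: data over normal domains, no pole
-/

open Polynomial

namespace Pool.Agent.MG.Two2.N

variable {K : Type} [Field K]

theorem lead_coeff_rel [Infinite K] (D : DatN K) (r : Fin 4 → K) (hr : Function.Injective r)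
    (hr0 : ∀ i, r i ≠ 0) (w c : ℕ) (N N' : MvPolynomial (Fin 3) K[X][X]) (hN : KI D r w c N)
    (hN' : KI D (fun i => (r i)⁻¹) w c N') (m : Fin 3 →₀ ℕ)
    (hm : ∀ u ∈ (lead N').support, m 0 ≤ u 0 ∧ (u 0 = m 0 → m 1 ≤ u 1)) (t : K) (ht : t ≠ 0)
    (htr : ∀ i, t ≠ r i) :
    ((MvPolynomial.coeff m (lead N)).eval t) =
      ((-1) ^ w * (∏ i, r i) ^ (2 * c) * t ^ (2 * w + 8 * c)) *
        ((MvPolynomial.coeff m (lead N')).eval t⁻¹ *
        ((t⁻¹ ^ 4 * (∏ i, r i)⁻¹) ^ m 0 * (-(t⁻¹ ^ 2 * (∏ i, r i)⁻¹)) ^ m 1 *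
          (∏ i, r i)⁻¹ ^ m 2)) := by
  have h1 : MvPolynomial.map (evalRingHom t) (lead N) =
      MvPolynomial.C ((-1) ^ w * (∏ i, r i) ^ (2 * c) * t ^ (2 * w + 8 * c)) *
        MvPolynomial.bind₁ (tri (t⁻¹ ^ 4 * (∏ i, r i)⁻¹) (-(t⁻¹ ^ 2 * (∏ i, r i)⁻¹))
        (2 * t⁻¹ ^ 3 * (∏ i, r i)⁻¹) (∏ i, r i)⁻¹ (-(t⁻¹ * (∏ i, r i)⁻¹))
        (t⁻¹ ^ 2 * (∏ i, r i)⁻¹)) (MvPolynomial.map (evalRingHom t⁻¹) (lead N')) := by
    refine MvPolynomial.funext fun q => ?_
    rw [map_mul, MvPolynomial.eval_C, ← qh_eval t _ ht]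
    exact inv_lead D r hr hr0 w c N N' hN hN' t ht htr q
  have h2 := congrArg (MvPolynomial.coeff m) h1
  rw [MvPolynomial.coeff_map, MvPolynomial.coeff_C_mul, coeff_tri, MvPolynomial.coeff_map] at h2
  · exact h2
  · intro u hu
    refine hm u ?_
    rw [MvPolynomial.mem_support_iff] at hu ⊢
    intro h
    rw [MvPolynomial.coeff_map, h, map_zero] at hu
    exact hu rfl

theorem lead_eq_zero [Infinite K] (D : DatN K) (r : Fin 4 → K) (hr : Function.Injective r)
    (hr0 : ∀ i, r i ≠ 0) (w c : ℕ) (N N' : MvPolynomial (Fin 3) K[X][X])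
    (hN : KI D r (w + 1) c N) (hN' : KI D (fun i => (r i)⁻¹) (w + 1) c N') : lead N' = 0 := by
  by_contra h0
  obtain ⟨m, hm, hmin⟩ := exists_min (lead N') h0
  have hp' : MvPolynomial.coeff m (lead N') ≠ 0 := MvPolynomial.mem_support_iff.1 hm
  set p := MvPolynomial.coeff m (lead N) with hp
  set p' := MvPolynomial.coeff m (lead N') with hpp
  set R := ∏ i, r i with hR
  have hR0 : R ≠ 0 := Finset.prod_ne_zero_iff.2 fun i _ => hr0 i
  set κ : K := (-1) ^ (w + 1) * R ^ (2 * c) * ((R⁻¹) ^ m 0 * (-R⁻¹) ^ m 1 * (R⁻¹) ^ m 2) with hκ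
  have hκ0 : κ ≠ 0 := by
    have : R⁻¹ ≠ 0 := inv_ne_zero hR0
    have h2 : (-1 : K) ≠ 0 := by
      rw [neg_ne_zero]
      exact one_ne_zero
    exact mul_ne_zero (mul_ne_zero (pow_ne_zero _ h2) (pow_ne_zero _ hR0))
      (mul_ne_zero (mul_ne_zero (pow_ne_zero _ this) (pow_ne_zero _ (neg_ne_zero.2 this)))
        (pow_ne_zero _ this))
  have e1 : p * X ^ (4 * m 0 + 2 * m 1 + p'.natDegree) =
      C κ * X ^ (2 * (w + 1) + 8 * c) * p'.reverse := by
    refine eq_of_infinite_eval_eq _ _ ?_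
    have hfin : (Set.insert (0 : K) (Set.range r)).Finite := (Set.finite_range r).insert 0
    refine hfin.infinite_compl.mono fun t ht => ?_
    have ht0 : t ≠ 0 := fun h => ht (Or.inl h)
    have htr : ∀ i, t ≠ r i := fun i h => ht (Or.inr ⟨i, h.symm⟩)
    change eval t _ = eval t _
    have h1 := lead_coeff_rel D r hr hr0 (w + 1) c N N' hN hN' m hmin t ht0 htr
    rw [← hp, ← hpp, ← hR] at h1
    have h2 : eval t⁻¹ p' = eval t p'.reverse * t⁻¹ ^ p'.natDegree := by
      let _ : Invertible t⁻¹ := invertibleOfNonzero (inv_ne_zero ht0)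
      have h3 := eval₂_reverse_mul_pow (RingHom.id K) t⁻¹ p'
      rw [invOf_eq_inv, inv_inv] at h3
      rw [eval, ← h3]
      rfl
    rw [eval_mul, eval_mul, eval_mul, eval_C, eval_pow, eval_pow, eval_X, h1, h2, hκ]
    have h4 : t⁻¹ ^ (4 * m 0 + 2 * m 1 + p'.natDegree) * t ^ (4 * m 0 + 2 * m 1 + p'.natDegree) =
        1 := by
      rw [← mul_pow, inv_mul_cancel₀ ht0, one_pow]
    have h5 : (t⁻¹ ^ 4 * R⁻¹) ^ m 0 * (-(t⁻¹ ^ 2 * R⁻¹)) ^ m 1 * t⁻¹ ^ p'.natDegree =
        (R⁻¹ ^ m 0 * (-R⁻¹) ^ m 1) * t⁻¹ ^ (4 * m 0 + 2 * m 1 + p'.natDegree) := by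
      rw [← mul_neg, mul_pow, mul_pow, ← pow_mul, ← pow_mul, pow_add, pow_add]
      ring
    linear_combination ((-1) ^ (w + 1) * R ^ (2 * c) * t ^ (2 * (w + 1) + 8 * c) *
      eval t p'.reverse * R⁻¹ ^ m 2) * (t ^ (4 * m 0 + 2 * m 1 + p'.natDegree) * h5 +
      (R⁻¹ ^ m 0 * (-R⁻¹) ^ m 1) * h4)
  have hrev : p'.reverse ≠ 0 := by
    rw [Ne, reverse_eq_zero]
    exact hp'
  have hp0 : p ≠ 0 := by
    intro h
    rw [h, zero_mul] at e1
    exact mul_ne_zero (mul_ne_zero (C_ne_zero.2 hκ0) (pow_ne_zero _ X_ne_zero)) hrev e1.symm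
  have e2 := congrArg natDegree e1
  rw [natDegree_mul hp0 (pow_ne_zero _ X_ne_zero), natDegree_X_pow,
    natDegree_mul (mul_ne_zero (C_ne_zero.2 hκ0) (pow_ne_zero _ X_ne_zero)) hrev,
    natDegree_C_mul hκ0, natDegree_X_pow] at e2
  have e3 := reverse_natDegree_le p'
  have e4 := sum_mult r hr p hp0
  rw [Fin.sum_univ_four] at e4
  have f0 := reg_mult D r hr (w + 1) c N hN 0 m hp0
  have f1 := reg_mult D r hr (w + 1) c N hN 1 m hp0
  have f2 := reg_mult D r hr (w + 1) c N hN 2 m hp0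
  have f3 := reg_mult D r hr (w + 1) c N hN 3 m hp0
  rw [← hp] at f0 f1 f2 f3
  omega

theorem KI_raise (D : DatN K) (r : Fin 4 → K) (w c a b : ℕ) (N : MvPolynomial (Fin 3) K[X][X])
    (hN : KI D r w c N) : ∃ N', KI D r (w + a) (c + b) N' := by
  refine ⟨N * MvPolynomial.C (X ^ a * DD r (C X : K[X][X]) X ^ b), ?_⟩
  intro B _ _ _ _ t δ q h1 h2
  rw [map_mul, ← hN B t δ q h1 h2, evN_C, map_mul, map_pow, map_pow, DD_map, ev_X, ev_C, aeval_X]
  ring

theorem KI_lower (D : DatN K) (r : Fin 4 → K) (w c : ℕ) (N : MvPolynomial (Fin 3) K[X][X])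
    (hN : KI D r (w + 1) c N) (h0 : lead N = 0) : ∃ N', KI D r w c N' := by
  have h1 : (MvPolynomial.C (X : K[X][X]) : MvPolynomial (Fin 3) K[X][X]) ∣ N := by
    rw [MvPolynomial.C_dvd_iff_dvd_coeff]
    intro m
    have := congrArg (MvPolynomial.coeff m) h0
    rw [lead, MvPolynomial.coeff_map, MvPolynomial.coeff_zero] at this
    rw [X_dvd_iff, coeff_zero_eq_eval_zero]
    exact this
  obtain ⟨N', rfl⟩ := h1
  refine ⟨N', ?_⟩
  intro B _ _ _ _ t δ q h1 h2
  have h3 := hN B t δ q h1 h2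
  rw [map_mul, evN_C, ev_X] at h3
  obtain ⟨u, rfl⟩ := h1
  have h4 : (u : B) * (T D (rt r t (u : B)) q * ((u : B) ^ w * DD r t (u : B) ^ c)) =
      u * evN t (u : B) q N' := by
    rw [← h3]
    ring
  exact (Units.mul_right_inj u).1 h4

/-- There is no pole when two roots collide. -/
theorem KI_zero [Infinite K] (D : DatN K) (r : Fin 4 → K) (hr : Function.Injective r)
    (hr0 : ∀ i, r i ≠ 0) : ∃ (c : ℕ) (N : MvPolynomial (Fin 3) K[X][X]), KI D r 0 c N := by
  have hr' : Function.Injective fun i => (r i)⁻¹ := fun i j h => hr (inv_inj.1 h)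
  have hr0' : ∀ i, (r i)⁻¹ ≠ 0 := fun i => inv_ne_zero (hr0 i)
  have hrr : (fun i => ((r i)⁻¹)⁻¹) = r := by simp
  obtain ⟨n, N, hN⟩ := KI_exists D r hr
  obtain ⟨n', N', hN'⟩ := KI_exists D _ hr'
  obtain ⟨M, hM⟩ := KI_raise D r n n n' n' N hN
  obtain ⟨M', hM'⟩ := KI_raise D _ n' n' n n N' hN'
  rw [add_comm n' n] at hM'
  suffices H : ∀ (w c : ℕ) (N N' : MvPolynomial (Fin 3) K[X][X]), KI D r w c N →
      KI D (fun i => (r i)⁻¹) w c N' → ∃ N₀, KI D r 0 c N₀ from
    ⟨n + n', H _ _ M M' hM hM'⟩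
  intro w
  induction w with
  | zero => exact fun c N _ hN _ => ⟨N, hN⟩
  | succ w ih =>
    intro c N N' hN hN'
    have h1 : lead N' = 0 := lead_eq_zero D r hr hr0 w c N N' hN hN'
    have h2 : lead N = 0 := by
      refine lead_eq_zero D (fun i => (r i)⁻¹) hr' hr0' w c N' N hN' ?_
      rw [hrr]
      exact hN
    obtain ⟨N₁, hN₁⟩ := KI_lower D r w c N hN h2
    obtain ⟨N₂, hN₂⟩ := KI_lower D _ w c N' hN' h1
    exact ih c N₁ N₂ hN₁ hN₂

theorem KJ_dvd [Infinite K] (D : DatN K) (r : Fin 5 → K) (hr : Function.Injective r)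
    (hr0 : ∀ i, r i ≠ 0) (n : ℕ) (N : MvPolynomial (Fin 3) K[X]) (hN : KJ D r n N) (i : Fin 5) :
    (MvPolynomial.C ((X - C (r i)) ^ n) : MvPolynomial (Fin 3) K[X]) ∣ N := by
  let r' : Fin 4 → K := fun j => r (i.succAbove j)
  have hr' : Function.Injective r' := hr.comp Fin.succAbove_right_injective
  obtain ⟨c, N4, hN4⟩ := KI_zero D r' hr' fun j => hr0 _
  let M := MvPolynomial (Fin 3) K[X]
  let Q := FractionRing M
  let φ : M →ₐ[K] Q := IsScalarTower.toAlgHom K M Q
  have hφ : Function.Injective φ := IsFractionRing.injective M Q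
  have hφ0 : ∀ x : M, x ≠ 0 → φ x ≠ 0 := fun x hx h => hx (hφ (by rw [h, map_zero]))
  let jC : K[X] →ₐ[K] M := IsScalarTower.toAlgHom K K[X] M
  have hjC : Function.Injective jC := MvPolynomial.C_injective _ _
  let x : M := jC X
  let t : M := algebraMap K M (r i)
  have htC : t = jC (C (r i)) := by
    change algebraMap K M (r i) = jC (algebraMap K K[X] (r i))
    rw [AlgHom.commutes]
  have hE : EE r x = jC (EE r X) := by
    simp only [x, EE_map]
  have hE0 : (EE r X : K[X]) ≠ 0 := by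
    unfold EE
    exact Finset.prod_ne_zero_iff.2 fun l _ => X_sub_C_ne_zero _
  have hxt : x - t = jC (X - C (r i)) := by
    rw [map_sub, htC]
  have hDD : DD r' t (x - t) = jC (DD r' (C (r i)) (X - C (r i))) := by
    rw [DD_map, hxt, htC]
  have hfac : ∀ j, algebraMap K K[X] (r' j) - C (r i) = C (r' j - r i) := fun j => by
    rw [C_sub]
    rfl
  have hne : ∀ j, r' j - r i ≠ 0 := fun j =>
    sub_ne_zero.2 fun h => Fin.succAbove_ne i j (hr h)
  have hcop : IsCoprime (X - C (r i)) (DD r' (C (r i)) (X - C (r i))) := by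
    unfold DD
    refine IsCoprime.prod_right fun j _ => ?_
    rw [hfac j]
    have h1 : IsUnit (C (r' j - r i) : K[X]) := (IsUnit.mk0 _ (hne j)).map C
    have h1' : IsCoprime (X - C (r i)) (C (r' j - r i) : K[X]) := by
      obtain ⟨v, hv⟩ := h1.exists_left_inv
      exact ⟨0, v, by rw [zero_mul, zero_add, hv]⟩
    refine IsCoprime.mul_right h1' ?_
    have h2 : (C (r' j - r i) - (X - C (r i)) : K[X]) = -(X - C (r' j)) := by
      rw [C_sub]
      ring
    rw [h2]
    exact (isCoprime_X_sub_C_of_isUnit_sub (IsUnit.mk0 _ (by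
      rw [← neg_sub]
      exact neg_ne_zero.2 (hne j)))).neg_right
  have hDD0 : (DD r' (C (r i)) (X - C (r i)) : K[X]) ≠ 0 := by
    unfold DD
    refine Finset.prod_ne_zero_iff.2 fun j _ => ?_
    rw [hfac j]
    refine mul_ne_zero (C_ne_zero.2 (hne j)) ?_
    have h2 : (C (r' j - r i) - (X - C (r i)) : K[X]) = -(X - C (r' j)) := by
      rw [C_sub]
      ring
    rw [h2]
    exact neg_ne_zero.2 (X_sub_C_ne_zero _)
  have u1 : IsUnit (EE r (φ x)) := by
    rw [← EE_map, hE]
    exact IsUnit.mk0 _ (hφ0 _ fun h => hE0 (hjC (by rw [h, map_zero])))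
  have u2 : IsUnit (φ (x - t)) := by
    rw [hxt]
    exact IsUnit.mk0 _ (hφ0 _ fun h => X_sub_C_ne_zero (r i) (hjC (by rw [h, map_zero])))
  have u3 : IsUnit (DD r' (φ t) (φ (x - t))) := by
    rw [← DD_map, hDD]
    exact IsUnit.mk0 _ (hφ0 _ fun h => hDD0 (hjC (by rw [h, map_zero])))
  have k1 := hN Q (φ x) (fun l => φ (MvPolynomial.X l)) u1
  have k2 := hN4 Q (φ t) (φ (x - t)) (shq (φ t) fun l => φ (MvPolynomial.X l)) u2 u3
  -- comparison of the values
  let a : Fin 6 → Q := Fin.cons (φ t) (Fin.cons (φ x) fun j : Fin 4 => algebraMap K Q (r' j))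
  have hφt : φ t = algebraMap K Q (r i) := AlgHom.commutes φ (r i)
  have ha : (fun l => a l - φ t) = rt r' (φ t) (φ (x - t)) := by
    refine (map_cons2 (fun y : Q => y - φ t) _ _ _).trans ?_
    unfold rt
    simp only [sub_self, map_sub]
  have hPa : P6 a = P6 (rf r (φ x)) := by
    have := P6_rf r (φ x) i
    rw [← hφt] at this
    exact this
  have hda : Dis a := by
    have h1 := dis_rt r' hr' (φ t) (φ (x - t)) u2 u3
    rw [← ha] at h1
    have h2 := h1.sub (-φ t)
    simpa only [sub_neg_eq_add, sub_add_cancel] using h2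
  have s1 := T_trans D a hda (φ t) fun l => φ (MvPolynomial.X l)
  rw [ha, T_congr D hPa] at s1
  rw [s1, pow_zero, one_mul] at k2
  have e1 : (shq (φ t) fun l => φ (MvPolynomial.X l)) = fun l => φ (shq t MvPolynomial.X l) := by
    have h2 : φ 2 = 2 := map_ofNat φ 2
    funext l
    fin_cases l <;> simp [shq, h2]
  rw [e1, ← evN_map, ← DD_map, ← map_pow] at k2
  rw [← evM_map, ← EE_map, ← map_pow] at k1
  have k3 : φ (evM x MvPolynomial.X N * DD r' t (x - t) ^ c) =
      φ (evN t (x - t) (shq t MvPolynomial.X) N4 * EE r x ^ n) := by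
    rw [map_mul, map_mul, ← k1, ← k2]
    ring
  have k4 := hφ k3
  have hself : evM x MvPolynomial.X N = N := evM_self N
  rw [hself, hDD, hE] at k4
  have h5 : jC (X - C (r i)) ^ n ∣ N * jC (DD r' (C (r i)) (X - C (r i))) ^ c := by
    rw [k4]
    refine Dvd.dvd.mul_left (pow_dvd_pow_of_dvd ?_ n) _
    refine map_dvd jC ?_
    exact Finset.dvd_prod_of_mem (fun l => (X - algebraMap K K[X] (r l))) (Finset.mem_univ i)
  have h6 : IsCoprime (jC (X - C (r i)) ^ n) (jC (DD r' (C (r i)) (X - C (r i))) ^ c) :=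
    (hcop.map (jC : K[X] →+* M)).pow
  have h7 := h6.dvd_of_dvd_mul_right h5
  rw [MvPolynomial.C_pow]
  exact h7

theorem KJ_zero [Infinite K] (D : DatN K) (r : Fin 5 → K) (hr : Function.Injective r)
    (hr0 : ∀ i, r i ≠ 0) : ∃ N : MvPolynomial (Fin 3) K[X], KJ D r 0 N := by
  obtain ⟨n, N, hN⟩ := KJ_exists D r hr
  have h1 : (∏ i, MvPolynomial.C ((X - C (r i)) ^ n) : MvPolynomial (Fin 3) K[X]) ∣ N := by
    refine Finset.prod_dvd_of_coprime ?_ fun i _ => KJ_dvd D r hr hr0 n N hN i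
    intro i _ j _ hij
    have : IsCoprime ((X - C (r i)) ^ n) ((X - C (r j)) ^ n) := by
      refine IsCoprime.pow (isCoprime_X_sub_C_of_isUnit_sub ?_)
      exact IsUnit.mk0 _ (sub_ne_zero.2 fun h => hij (hr h))
    exact this.map (MvPolynomial.C : K[X] →+* MvPolynomial (Fin 3) K[X])
  have h2 : (∏ i, MvPolynomial.C ((X - C (r i)) ^ n) : MvPolynomial (Fin 3) K[X]) =
      MvPolynomial.C (EE r X ^ n) := by
    rw [← map_prod, Finset.prod_pow]
    rfl
  rw [h2] at h1
  obtain ⟨N0, rfl⟩ := h1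
  refine ⟨N0, ?_⟩
  intro B _ _ _ _ x q hu
  have h3 := hN B x q hu
  rw [map_mul, evM_C, map_pow, EE_map, aeval_X] at h3
  obtain ⟨v, hv⟩ := hu.pow n
  rw [← hv] at h3
  rw [pow_zero, mul_one]
  refine (Units.mul_right_inj v).1 ?_
  rw [← h3, mul_comm]

theorem const5_aux [Infinite K] (D : DatN K) (r : Fin 5 → K) (hr : Function.Injective r)
    (hr0 : ∀ i, r i ≠ 0) : ∃ c : K, ∀ (x : K) (q : Fin 3 → K), (∀ i, x ≠ r i) →
      T D (rf r x) q = c := by
  have hr' : Function.Injective fun i => (r i)⁻¹ := fun i j h => hr (inv_inj.1 h)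
  have hr0' : ∀ i, (r i)⁻¹ ≠ 0 := fun i => inv_ne_zero (hr0 i)
  obtain ⟨N, hN⟩ := KJ_zero D r hr hr0
  obtain ⟨N', hN'⟩ := KJ_zero D _ hr' hr0'
  have hE : ∀ (s : Fin 5 → K) (x : K), (∀ i, x ≠ s i) → IsUnit (EE s x) := fun s x hx =>
    IsUnit.mk0 _ (Finset.prod_ne_zero_iff.2 fun i _ => sub_ne_zero.2 (hx i))
  have hv : ∀ (x : K) (q : Fin 3 → K), (∀ i, x ≠ r i) → T D (rf r x) q = evM x q N := by
    intro x q hx
    rw [← hN K x q (hE r x hx), pow_zero, mul_one]
  have hv' : ∀ (x : K) (q : Fin 3 → K), (∀ i, x ≠ (r i)⁻¹) →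
      T D (rf (fun i => (r i)⁻¹) x) q = evM x q N' := by
    intro x q hx
    rw [← hN' K x q (hE _ x hx), pow_zero, mul_one]
  set R := ∏ i, r i with hR
  refine ⟨evM (0 : K) (fun _ => 0) N', fun x q hx => ?_⟩
  let P : K[X] := evM X (fun i => C (q i)) N
  let G : K[X] := evM X (fun i => C (R⁻¹ * ![q 2, q 1, q 0] i) * X) N'
  have hPe : ∀ y : K, P.eval y = evM y q N := by
    intro y
    rw [evM_eval y y _ N X (eval_X)]
    simp only [eval_C]
  have hGe : ∀ y : K, G.eval y = evM y (fun i => R⁻¹ * ![q 2, q 1, q 0] i * y) N' := by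
    intro y
    rw [evM_eval y y _ N' X (eval_X)]
    simp only [eval_C, eval_mul, eval_X]
  have key : P = C (G.eval 0) := by
    refine poly_inv_const P G (Set.range r) (Set.finite_range r) fun y hy hy0 => ?_
    have hyr : ∀ i, y ≠ r i := fun i h => hy ⟨i, h.symm⟩
    have hd : Dis (rf r y) := dis_rf r hr y (hE r y hyr)
    have ha0 : ∀ i, rf r y i ≠ 0 := fun i => by
      refine Fin.cases hy0 (fun j => ?_) i
      exact hr0 j
    have h1 := T_inv D (rf r y) hd ha0 q
    have h2 : (fun i => (rf r y i)⁻¹) = rf (fun i => (r i)⁻¹) y⁻¹ :=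
      map_cons (fun z : K => z⁻¹) y _
    have h3 : (∏ j, rf r y j) = y * R := by
      rw [Fin.prod_univ_succ]
      rfl
    rw [h2, h3] at h1
    rw [hPe, hGe, ← hv y q hyr, ← h1, hv' y⁻¹ _ fun i h => hyr i (inv_inj.1 h)]
    congr 2
    funext i
    rw [mul_inv]
    ring
  rw [hv x q hx, ← hPe, key, eval_C, hGe]
  simp only [mul_zero]

theorem const5 [Infinite K] (D : DatN K) (r : Fin 5 → K) (hr : Function.Injective r) :
    ∃ c : K, ∀ (x : K) (q : Fin 3 → K), (∀ i, x ≠ r i) → T D (rf r x) q = c := by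
  obtain ⟨s, hs⟩ := (Set.finite_range r).infinite_compl.nonempty
  have hs' : ∀ i, r i - s ≠ 0 := fun i h => hs ⟨i, sub_eq_zero.1 h⟩
  obtain ⟨c, hc⟩ := const5_aux D (fun i => r i - s) (fun i j h => hr (sub_left_injective h)) hs'
  refine ⟨c, fun x q hx => ?_⟩
  have hd : Dis (rf r x) := dis_rf r hr x
    (IsUnit.mk0 _ (Finset.prod_ne_zero_iff.2 fun i _ => sub_ne_zero.2 (hx i)))
  rw [← T_trans D _ hd s q]
  have h2 : (fun i => rf r x i - s) = rf (fun i => r i - s) (x - s) :=
    map_cons (fun z : K => z - s) x _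
  rw [h2]
  exact hc _ _ fun i h => hx i (sub_left_injective h)

theorem const_step [Infinite K] (D : DatN K) (a b : Fin 6 → K) (ha : Function.Injective a)
    (hb : Function.Injective b) (i : Fin 6) (hab : ∀ j, j ≠ i → b j = a j) (q q' : Fin 3 → K) :
    T D b q = T D a q' := by
  let r : Fin 5 → K := fun j => a (i.succAbove j)
  have hr : Function.Injective r := ha.comp Fin.succAbove_right_injective
  obtain ⟨c, hc⟩ := const5 D r hr
  have h1 : P6 a = P6 (rf r (a i)) := by
    rw [P6_split a i, rf, P6_cons]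
    rfl
  have h2 : P6 b = P6 (rf r (b i)) := by
    rw [P6_split b i, rf, P6_cons]
    congr 2
    funext j
    exact hab _ (Fin.succAbove_ne i j)
  rw [T_congr D h1, T_congr D h2, hc, hc]
  · exact fun j h => Fin.succAbove_ne i j (ha h).symm
  · intro j h
    change b i = a (i.succAbove j) at h
    rw [← hab _ (Fin.succAbove_ne i j)] at h
    exact Fin.succAbove_ne i j (hb h).symm

theorem const_disj [Infinite K] (D : DatN K) (a b : Fin 6 → K) (ha : Function.Injective a)
    (hb : Function.Injective b) (hab : ∀ i j, a i ≠ b j) (q q' : Fin 3 → K) :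
    T D b q = T D a q' := by
  classical
  have hinj : ∀ s : Finset (Fin 6), Function.Injective fun i => if i ∈ s then b i else a i := by
    intro s i j h
    simp only at h
    by_cases hi : i ∈ s
    · by_cases hj : j ∈ s
      · rw [if_pos hi, if_pos hj] at h
        exact hb h
      · rw [if_pos hi, if_neg hj] at h
        exact absurd h.symm (hab j i)
    · by_cases hj : j ∈ s
      · rw [if_neg hi, if_pos hj] at h
        exact absurd h (hab i j)
      · rw [if_neg hi, if_neg hj] at h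
        exact ha h
  have H : ∀ (s : Finset (Fin 6)) (q : Fin 3 → K),
      T D (fun i => if i ∈ s then b i else a i) q = T D a q' := by
    intro s
    induction s using Finset.induction_on with
    | empty =>
      intro q
      simp only [Finset.notMem_empty, if_false]
      exact const_step D a a ha ha 0 (fun _ _ => rfl) q q'
    | insert i s his ih =>
      intro q
      rw [← ih q]
      refine const_step D _ _ (hinj s) (hinj (insert i s)) i (fun j hj => ?_) q q
      by_cases hjs : j ∈ s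
      · rw [if_pos hjs, if_pos (Finset.mem_insert_of_mem hjs)]
      · rw [if_neg hjs, if_neg]
        rw [Finset.mem_insert, not_or]
        exact ⟨hj, hjs⟩
  have := H Finset.univ q
  simpa using this

/-- `S` is constant on polynomials with six roots. -/
theorem const6 [Infinite K] (D : DatN K) (a b : Fin 6 → K) (ha : Function.Injective a)
    (hb : Function.Injective b) (q q' : Fin 3 → K) : T D b q = T D a q' := by
  have hfin : (Set.range a ∪ Set.range b).Finite := (Set.finite_range a).union (Set.finite_range b)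
  have hinf : (Set.range a ∪ Set.range b)ᶜ.Infinite := hfin.infinite_compl
  obtain ⟨t, ht, hcard⟩ := hinf.exists_subset_card_eq 6
  let e : Fin 6 ≃ t := (Finset.equivFinOfCardEq hcard).symm
  let d : Fin 6 → K := fun i => e i
  have hd : Function.Injective d := Subtype.val_injective.comp e.injective
  have hdn : ∀ i, d i ∉ Set.range a ∪ Set.range b := fun i => ht (e i).2
  have h1 : ∀ i j, a i ≠ d j := fun i j h => hdn j (Or.inl ⟨i, h⟩)
  have h2 : ∀ i j, b i ≠ d j := fun i j h => hdn j (Or.inr ⟨i, h⟩)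
  rw [← const_disj D b d hb hd h2 0 q, ← const_disj D a d ha hd h1 0 q']

end Pool.Agent.MG.Two2.N


end

section

/-!
# Pure algebra part of the case `(2, n)`: data over normal domains, the theorem
-/

open Polynomial

namespace Pool.Agent.MG.Two2.N

section up

variable {k : Type} [Field k]

/-- The data over a larger base field. -/
noncomputable def up (D : DatN k) (K : Type) [Field K] [Algebra k K] : DatN K where
  S B _ _ _ _ f q := @DatN.S k _ D B _ _ _ (Algebra.compHom B (algebraMap k K)) f q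
  nat B B' _ _ _ _ _ _ _ _ φ f q hf hq := by
    let _ : Algebra k B := Algebra.compHom B (algebraMap k K)
    let _ : Algebra k B' := Algebra.compHom B' (algebraMap k K)
    let ψ : B →ₐ[k] B' := { (φ : B →+* B') with
      commutes' := fun c => φ.commutes (algebraMap k K c) }
    exact D.nat B B' ψ f q hf hq
  scal B _ _ _ _ u f q hu hf hq := by
    let _ : Algebra k B := Algebra.compHom B (algebraMap k K)
    exact D.scal B u f q hu hf hq
  trans B _ _ _ _ t f q hf hq := by
    let _ : Algebra k B := Algebra.compHom B (algebraMap k K)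
    exact D.trans B t f q hf hq
  inv B _ _ _ _ f q hf hq := by
    let _ : Algebra k B := Algebra.compHom B (algebraMap k K)
    exact D.inv B f q hf hq
  reg B L _ _ _ _ _ _ φ hφ s ρ r e hs h1 h2 h3 h4 := by
    let _ : Algebra k B := Algebra.compHom B (algebraMap k K)
    let _ : Algebra k L := Algebra.compHom L (algebraMap k K)
    let ψ : B →ₐ[k] L := { (φ : B →+* L) with
      commutes' := fun c => φ.commutes (algebraMap k K c) }
    exact D.reg B L ψ hφ s ρ r e hs h1 h2 h3 h4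

theorem up_S (D : DatN k) (K : Type) [Field K] [A : Algebra k K] (f q : K[X]) :
    (up D K).S K f q = D.S K f q := by
  change @DatN.S k _ D K _ _ _ (Algebra.compHom K (algebraMap k K)) f q =
    @DatN.S k _ D K _ _ _ A f q
  have hA : Algebra.compHom K (algebraMap k K) = A := by
    refine Algebra.algebra_ext _ _ fun c => ?_
    rfl
  rw [hA]

theorem up_T (D : DatN k) (K : Type) [Field K] [Algebra k K] (a : Fin 6 → K)
    (q : Fin 3 → K) : T (up D K) a q = T D a q :=
  up_S D K _ _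

/-- The constant comes from the base field. -/
theorem exists_const [Infinite k] (D : DatN k) : ∃ c : k, ∀ (K : Type) [Field K] [Algebra k K]
    (a : Fin 6 → K) (q : Fin 3 → K), Function.Injective a → T D a q = algebraMap k K c := by
  obtain ⟨a₀, ha₀⟩ := exists_inj k 6
  refine ⟨T D a₀ 0, fun K _ _ a q ha => ?_⟩
  have : Infinite K := Infinite.of_injective _ (algebraMap k K).injective
  have h1 : Function.Injective fun i => algebraMap k K (a₀ i) :=
    (algebraMap k K).injective.comp ha₀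
  rw [← up_T D K a, const6 (up D K) _ a h1 ha q (fun _ => 0), up_T D K _]
  have h2 := T_nat D (Algebra.ofId k K) a₀ (dis_of_inj ha₀) 0
  have h3 : (fun i => Algebra.ofId k K ((0 : Fin 3 → k) i)) = fun _ => (0 : K) := by
    funext i
    exact map_zero _
  rw [h3] at h2
  exact h2

end up

section field

variable {k : Type} [Field k] {K : Type} [Field K]

theorem S_smul [Algebra k K] (D : DatN k) (u : K) (hu : u ≠ 0) (f q : K[X]) (hf : Good f)
    (huf : Good (C u * f)) (hq : q.natDegree ≤ 2) :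
    D.S K (C u * f) q = D.S K f (C u⁻¹ * q) := by
  rw [← scal_field D u hu f (C u⁻¹ * q) hf huf ((natDegree_C_mul_le _ _).trans hq), ← mul_assoc,
    ← C_mul, mul_inv_cancel₀ hu, C_1, one_mul]

/-- The case of degree six. -/
theorem S_six [Algebra k K] (D : DatN k) (c : k)
    (hc : ∀ (a : Fin 6 → K) (q : Fin 3 → K), Function.Injective a → T D a q = algebraMap k K c)
    (u : K) (a : Fin 6 → K) (hu : u ≠ 0) (ha : Function.Injective a) (q : K[X])
    (hf : Good (C u * P6 a)) (hq : q.natDegree ≤ 2) :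
    D.S K (C u * P6 a) q = algebraMap k K c := by
  rw [S_smul D u hu _ q (good_P6 rfl a (dis_of_inj ha)) hf hq,
    ← Qp_coeff (C u⁻¹ * q) ((natDegree_C_mul_le _ _).trans hq)]
  exact hc a _ ha

/-- The case of degree five. -/
theorem S_five [Infinite K] [Algebra k K] (D : DatN k) (c : k)
    (hc : ∀ (a : Fin 6 → K) (q : Fin 3 → K), Function.Injective a → T D a q = algebraMap k K c)
    (u : K) (a : Fin 5 → K) (hu : u ≠ 0) (ha : Function.Injective a) (q : K[X])
    (hf : Good (C u * P6 a)) (hq : q.natDegree ≤ 2) :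
    D.S K (C u * P6 a) q = algebraMap k K c := by
  rw [S_smul D u hu _ q (good_P5 a (dis_of_inj ha)) hf hq,
    ← Qp_coeff (C u⁻¹ * q) ((natDegree_C_mul_le _ _).trans hq)]
  set q1 : Fin 3 → K := fun i => (C u⁻¹ * q).coeff i
  obtain ⟨s, hs⟩ := (Set.finite_range a).infinite_compl.nonempty
  have hs' : ∀ i, a i - s ≠ 0 := fun i h => hs ⟨i, sub_eq_zero.1 h⟩
  have ha' : Function.Injective fun i => a i - s := fun i j h => ha (sub_left_injective h)
  rw [← D.trans K s _ _ (good_P5 a (dis_of_inj ha)) (natDegree_Qp q1), P6_comp, Qp_comp,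
    ← D.inv K _ _ (good_P5 _ (dis_of_inj ha')) (natDegree_Qp _)]
  have hg := (good_P5 _ (dis_of_inj ha')).reflectK
  rw [reflect_five _ hs'] at hg ⊢
  refine S_six D c hc _ _ ?_ ?_ _ hg ?_
  · exact neg_ne_zero.2 (Finset.prod_ne_zero_iff.2 fun i _ => hs' i)
  · rw [Fin.cons_injective_iff]
    refine ⟨?_, fun i j h => ha' (inv_inj.1 h)⟩
    rintro ⟨i, hi⟩
    exact hs' i (inv_eq_zero.1 hi)
  · rw [Qp_reflect]
    exact natDegree_Qp _

end field

/-- `S` is constant: every infinite base field. -/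
theorem algN_inf (k : Type) [Field k] [Infinite k] (D : DatN k) : ∃ c : k,
    ∀ (K : Type) [Field K] [IsAlgClosed K] [Algebra k K] (f q : K[X]), Good f →
      q.natDegree ≤ 2 → D.S K f q = algebraMap k K c := by
  obtain ⟨c, hc⟩ := exists_const D
  refine ⟨c, fun K _ _ _ f q hf hq => ?_⟩
  have hinf : Infinite K := Infinite.of_injective _ (algebraMap k K).injective
  have h5 := hf.five_le
  have h6 := hf.deg
  rcases Nat.lt_or_ge f.natDegree 6 with h | h
  · obtain ⟨u, a, hu, ha, rfl⟩ := splits_P6 f hf.cop 5 (by omega)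
    exact S_five D c (hc K) u a hu ha q hf hq
  · obtain ⟨u, a, hu, ha, rfl⟩ := splits_P6 f hf.cop 6 (by omega)
    exact S_six D c (hc K) u a hu ha q hf hq

end Pool.Agent.MG.Two2.N

namespace Pool.Agent.MG.Two2

/-- `S` is constant, for data over normal domains. -/
theorem algN : AlgN_Stmt := by
  intro k _ _ _ D
  have : Infinite k := IsAlgClosed.instInfinite
  exact N.algN_inf k D

end Pool.Agent.MG.Two2


end

section

/-!
# The curve `YX B p t` for `t` a unit (PAPER_Y.md, YHX)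
-/

open CategoryTheory CategoryTheory.Limits AlgebraicGeometry TensorProduct

namespace Pool.Agent.MG.H2

namespace YHX

section basic

variable {R : Type} [CommRing R]

/-- The relation for `g`. -/
theorem rel_g {p : Fin 7 → R} {t w : R} (htw : t * w = 1) {u v : R}
    (h : v ^ 2 = pol (rev (pT p t)) u) : (w ^ 3 * v) ^ 2 = pol (pT (rev p) t) (w ^ 2 * u) := by
  have e2 : t ^ 2 * w ^ 2 = 1 := by rw [← mul_pow, htw, one_pow]
  have e4 : t ^ 4 * w ^ 4 = 1 := by rw [← mul_pow, htw, one_pow]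
  have e6 : t ^ 6 * w ^ 6 = 1 := by rw [← mul_pow, htw, one_pow]
  have h1 : pol (rev (pT p t)) u = t ^ 6 * p 6 + t ^ 4 * p 5 * u + t ^ 2 * p 4 * u ^ 2 +
    p 3 * u ^ 3 + p 2 * u ^ 4 + p 1 * u ^ 5 + p 0 * u ^ 6 := rfl
  have h2 : pol (pT (rev p) t) (w ^ 2 * u) = p 6 + p 5 * (w ^ 2 * u) + p 4 * (w ^ 2 * u) ^ 2 +
    p 3 * (w ^ 2 * u) ^ 3 + t ^ 2 * p 2 * (w ^ 2 * u) ^ 4 + t ^ 4 * p 1 * (w ^ 2 * u) ^ 5 +
    t ^ 6 * p 0 * (w ^ 2 * u) ^ 6 := rfl
  rw [mul_pow, h, h1, h2]
  linear_combination (p 6) * e6 + p 5 * w ^ 2 * u * e4 + p 4 * w ^ 4 * u ^ 2 * e2 -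
    p 2 * w ^ 6 * u ^ 4 * e2 - p 1 * w ^ 6 * u ^ 5 * e4 - p 0 * w ^ 6 * u ^ 6 * e6

/-- The relation for the inverse of `g`. -/
theorem rel_gi {p : Fin 7 → R} {t : R} {u v : R}
    (h : v ^ 2 = pol (pT (rev p) t) u) : (t ^ 3 * v) ^ 2 = pol (rev (pT p t)) (t ^ 2 * u) := by
  have h1 : pol (rev (pT p t)) (t ^ 2 * u) = t ^ 6 * p 6 + t ^ 4 * p 5 * (t ^ 2 * u) +
    t ^ 2 * p 4 * (t ^ 2 * u) ^ 2 +
    p 3 * (t ^ 2 * u) ^ 3 + p 2 * (t ^ 2 * u) ^ 4 + p 1 * (t ^ 2 * u) ^ 5 +
      p 0 * (t ^ 2 * u) ^ 6 := rfl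
  have h2 : pol (pT (rev p) t) u = p 6 + p 5 * u + p 4 * u ^ 2 +
    p 3 * u ^ 3 + t ^ 2 * p 2 * u ^ 4 + t ^ 4 * p 1 * u ^ 5 + t ^ 6 * p 0 * u ^ 6 := rfl
  rw [mul_pow, h, h1, h2]
  ring

end basic

section rings

variable {B : Type} [CommRing B] (p : Fin 7 → B) (t w : B)

theorem map_rev_pT {R : Type} [CommRing R] (φ : B →+* R) :
    (fun i => φ (rev (pT p t) i)) = rev (pT (fun i => φ (p i)) (φ t)) := by
  funext i
  exact pT_map φ p t (Fin.rev i)

theorem map_pT_rev {R : Type} [CommRing R] (φ : B →+* R) :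
    (fun i => φ (pT (rev p) t i)) = pT (rev (fun i => φ (p i))) (φ t) := by
  funext i
  rw [pT_map]
  rfl

theorem map_pT {R : Type} [CommRing R] (φ : B →+* R) :
    (fun i => φ (pT p t i)) = pT (fun i => φ (p i)) (φ t) := by
  funext i
  exact pT_map φ p t i

theorem relg (htw : t * w = 1) : (algebraMap B (A2 B (pT p t)) w ^ 3 * y1 B (rev (pT p t))) ^ 2 =
    pol (fun i => algebraMap B (A2 B (pT p t)) (pT (rev p) t i))
      (algebraMap B (A2 B (pT p t)) w ^ 2 * x1 B (rev (pT p t))) := by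
  have h := rel1 B (rev (pT p t))
  rw [map_rev_pT] at h
  rw [map_pT_rev]
  exact rel_g (by rw [← map_mul, htw, map_one]) h

/-- `g` -/
noncomputable def gg (htw : t * w = 1) : QQ B p t →+* A2 B (pT p t) :=
  lift1 (algebraMap B (A2 B (pT p t))) (algebraMap B (A2 B (pT p t)) w ^ 2 * x1 B (rev (pT p t)))
    (algebraMap B (A2 B (pT p t)) w ^ 3 * y1 B (rev (pT p t))) (relg p t w htw)

@[simp]
theorem gg_b (htw : t * w = 1) (c : B) : gg p t w htw (algebraMap B _ c) = algebraMap B _ c :=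
  lift1_b _ _ _ _ _

@[simp]
theorem gg_x (htw : t * w = 1) : gg p t w htw (x1 B (pT (rev p) t)) =
    algebraMap B (A2 B (pT p t)) w ^ 2 * x1 B (rev (pT p t)) := lift1_x _ _ _ _

@[simp]
theorem gg_y (htw : t * w = 1) : gg p t w htw (y1 B (pT (rev p) t)) =
    algebraMap B (A2 B (pT p t)) w ^ 3 * y1 B (rev (pT p t)) := lift1_y _ _ _ _

theorem relgi : (algebraMap B (QQ B p t) t ^ 3 * y1 B (pT (rev p) t)) ^ 2 =
    pol (fun i => algebraMap B (QQ B p t) (rev (pT p t) i))
      (algebraMap B (QQ B p t) t ^ 2 * x1 B (pT (rev p) t)) := by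
  have h := rel1 B (pT (rev p) t)
  rw [map_pT_rev] at h
  rw [map_rev_pT]
  exact rel_gi h

/-- The inverse of `g`. -/
noncomputable def gi : A2 B (pT p t) →+* QQ B p t :=
  lift1 (algebraMap B (QQ B p t)) (algebraMap B (QQ B p t) t ^ 2 * x1 B (pT (rev p) t))
    (algebraMap B (QQ B p t) t ^ 3 * y1 B (pT (rev p) t)) (relgi p t)

@[simp]
theorem gi_b (c : B) : gi p t (algebraMap B _ c) = algebraMap B _ c :=
  lift1_b _ _ _ _ _

@[simp]
theorem gi_x : gi p t (x1 B (rev (pT p t))) =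
    algebraMap B (QQ B p t) t ^ 2 * x1 B (pT (rev p) t) := lift1_x _ _ _ _

@[simp]
theorem gi_y : gi p t (y1 B (rev (pT p t))) =
    algebraMap B (QQ B p t) t ^ 3 * y1 B (pT (rev p) t) := lift1_y _ _ _ _

theorem tw {R : Type} [CommRing R] (φ : B →+* R) {t w : B} (htw : t * w = 1) (n : ℕ) :
    φ t ^ n * φ w ^ n = 1 := by
  rw [← mul_pow, ← map_mul, htw, map_one, one_pow]

theorem gg_gi (htw : t * w = 1) : (gg p t w htw).comp (gi p t) = RingHom.id _ := by
  refine hom1_ext ?_ ?_ ?_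
  · intro c
    rw [RingHom.comp_apply, gi_b, gg_b, RingHom.id_apply]
  · rw [RingHom.comp_apply, gi_x, map_mul, map_pow, gg_b, gg_x, RingHom.id_apply, ← mul_assoc,
      tw _ htw, one_mul]
  · rw [RingHom.comp_apply, gi_y, map_mul, map_pow, gg_b, gg_y, RingHom.id_apply, ← mul_assoc,
      tw _ htw, one_mul]

theorem gi_gg (htw : t * w = 1) : (gi p t).comp (gg p t w htw) = RingHom.id _ := by
  have htw' : w * t = 1 := by rw [mul_comm, htw]
  refine hom1_ext ?_ ?_ ?_
  · intro c
    rw [RingHom.comp_apply, gg_b, gi_b, RingHom.id_apply]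
  · rw [RingHom.comp_apply, gg_x, map_mul, map_pow, gi_b, gi_x, RingHom.id_apply, ← mul_assoc,
      tw _ htw', one_mul]
  · rw [RingHom.comp_apply, gg_y, map_mul, map_pow, gi_b, gi_y, RingHom.id_apply, ← mul_assoc,
      tw _ htw', one_mul]

/-- The image of `w` as a unit. -/
noncomputable def wu {R : Type} [CommRing R] (φ : B →+* R) (htw : t * w = 1) : Rˣ where
  val := φ w
  inv := φ t
  val_inv := by rw [← map_mul, mul_comm, htw, map_one]
  inv_val := by rw [← map_mul, htw, map_one]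

theorem relth (htw : t * w = 1) :
    (algebraMap B (TN B p t) w ^ 3 * (yv B (pT p t) *
      ((xu B (pT p t))⁻¹ ^ 3 : (TN B p t)ˣ).val)) ^ 2 =
    pol (fun i => algebraMap B (TN B p t) (pT (rev p) t i))
      ((wu t w (algebraMap B (TN B p t)) htw ^ 2 * (xu B (pT p t))⁻¹ : (TN B p t)ˣ) :
        TN B p t) := by
  have h := congrArg (g2 B (pT p t)) (rel1 B (rev (pT p t)))
  rw [map_pow, g2_v, pol_map, g2_u] at h
  simp only [g2_b] at h
  rw [map_rev_pT] at h
  rw [map_pT_rev]
  have h2 := rel_g (t := algebraMap B (TN B p t) t) (w := algebraMap B (TN B p t) w)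
    (by rw [← map_mul, htw, map_one]) h
  rw [h2, Units.val_mul, Units.val_pow_eq_pow_val]
  rfl

/-- From `N ∩ Q` to `N ∩ T`. -/
noncomputable def th (htw : t * w = 1) : QN B p t →+* TN B p t :=
  lift12 (algebraMap B (TN B p t))
    (wu t w (algebraMap B (TN B p t)) htw ^ 2 * (xu B (pT p t))⁻¹)
    (algebraMap B (TN B p t) w ^ 3 * (yv B (pT p t) * ((xu B (pT p t))⁻¹ ^ 3 : (TN B p t)ˣ).val))
    (relth p t w htw)

@[simp]
theorem th_b (htw : t * w = 1) (c : B) : th p t w htw (algebraMap B _ c) = algebraMap B _ c :=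
  lift12_b _ _ _ _ _

@[simp]
theorem th_x (htw : t * w = 1) : th p t w htw (xu B (pT (rev p) t) : QN B p t) =
    algebraMap B (TN B p t) w ^ 2 * ((xu B (pT p t))⁻¹ : (TN B p t)ˣ).val := by
  rw [th, lift12_x, Units.val_mul, Units.val_pow_eq_pow_val]
  rfl

@[simp]
theorem th_xi (htw : t * w = 1) : th p t w htw ((xu B (pT (rev p) t))⁻¹ : (QN B p t)ˣ).val =
    algebraMap B (TN B p t) t ^ 2 * (xu B (pT p t) : TN B p t) := by
  rw [th, lift12_xi, mul_inv, inv_inv, Units.val_mul, ← inv_pow, Units.val_pow_eq_pow_val]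
  rfl

@[simp]
theorem th_y (htw : t * w = 1) : th p t w htw (yv B (pT (rev p) t)) =
    algebraMap B (TN B p t) w ^ 3 * (yv B (pT p t) *
      ((xu B (pT p t))⁻¹ : (TN B p t)ˣ).val ^ 3) := by
  rw [th, lift12_y, Units.val_pow_eq_pow_val]

theorem th_qQ (htw : t * w = 1) :
    (th p t w htw).comp (qQ B p t) = (g2 B (pT p t)).comp (gg p t w htw) := by
  refine hom1_ext ?_ ?_ ?_
  · intro c
    rw [RingHom.comp_apply, RingHom.comp_apply, gg_b, g2_b, qQ, g1_b, th_b]
  · rw [RingHom.comp_apply, RingHom.comp_apply, gg_x, map_mul, map_pow, g2_b, g2_u, qQ,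
      ← xu_val, th_x]
  · rw [RingHom.comp_apply, RingHom.comp_apply, gg_y, map_mul, map_pow, g2_b, g2_v, qQ,
      g1_y, th_y, Units.val_pow_eq_pow_val]

theorem th_nQ (htw : t * w = 1) : (th p t w htw).comp (nQ B p t) = nT B p t := by
  have e1 := tw (algebraMap B (TN B p t)) htw 1
  have e2 := tw (algebraMap B (TN B p t)) htw 2
  have e3 := tw (algebraMap B (TN B p t)) htw 3
  have hx : (xu B (pT p t) : TN B p t) * ((xu B (pT p t))⁻¹ : (TN B p t)ˣ).val = 1 :=
    Units.mul_inv _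
  refine homN_ext ?_ ?_ ?_ ?_ ?_
  · intro c
    rw [RingHom.comp_apply, nQ_c, th_b, nT_c]
  · rw [RingHom.comp_apply, nQ_z, th_xi, nT_z]
  · rw [RingHom.comp_apply, nQ_x, map_mul, map_pow, th_b, th_x, nT_x, ← mul_assoc, e2, one_mul]
  · rw [RingHom.comp_apply, nQ_a, map_mul, map_mul, th_b, th_y, th_xi, nT_a]
    linear_combination (yv B (pT p t) * ((xu B (pT p t))⁻¹ : (TN B p t)ˣ).val ^ 2 *
      ((xu B (pT p t) : TN B p t) * ((xu B (pT p t))⁻¹ : (TN B p t)ˣ).val)) * e3 +
      (yv B (pT p t) * ((xu B (pT p t))⁻¹ : (TN B p t)ˣ).val ^ 2) * hx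
  · rw [RingHom.comp_apply, nQ_b, map_mul, map_pow, th_y, th_xi, nT_b]
    linear_combination (algebraMap B (TN B p t) t * yv B (pT p t) *
      ((xu B (pT p t))⁻¹ : (TN B p t)ˣ).val ^ 3 * (xu B (pT p t) : TN B p t) ^ 2) * e3 +
      (algebraMap B (TN B p t) t * yv B (pT p t) * ((xu B (pT p t))⁻¹ : (TN B p t)ˣ).val *
        ((xu B (pT p t) : TN B p t) * ((xu B (pT p t))⁻¹ : (TN B p t)ˣ).val + 1)) * hx

/-- `w² z` is a unit of `N`. -/
noncomputable def zu (htw : t * w = 1) : (NN B p t)ˣ where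
  val := algebraMap B (NN B p t) w ^ 2 * zN B p t
  inv := xN B p t
  val_inv := by
    have e2 := tw (algebraMap B (NN B p t)) htw 2
    linear_combination algebraMap B (NN B p t) w ^ 2 * (relN B p t).zx + e2
  inv_val := by
    have e2 := tw (algebraMap B (NN B p t)) htw 2
    linear_combination algebraMap B (NN B p t) w ^ 2 * (relN B p t).zx + e2

theorem relnti (htw : t * w = 1) :
    (aN B p t * (algebraMap B (NN B p t) w ^ 2 * zN B p t) ^ 2) ^ 2 =
    pol (fun i => algebraMap B (NN B p t) (pT p t i)) (zu p t w htw : NN B p t) := by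
  rw [map_pT]
  exact (relN B p t).toT (zu p t w htw).val_inv

/-- The inverse of `nT`. -/
noncomputable def nTi' (htw : t * w = 1) : TN B p t →+* NN B p t :=
  lift12 (algebraMap B (NN B p t)) (zu p t w htw)
    (aN B p t * (algebraMap B (NN B p t) w ^ 2 * zN B p t) ^ 2) (relnti p t w htw)

theorem nTi'_b (htw : t * w = 1) (c : B) : nTi' p t w htw (algebraMap B _ c) = algebraMap B _ c :=
  lift12_b _ _ _ _ _

theorem nTi'_x (htw : t * w = 1) : nTi' p t w htw (xu B (pT p t) : TN B p t) =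
    algebraMap B (NN B p t) w ^ 2 * zN B p t := by
  rw [nTi', lift12_x]
  rfl

theorem nTi'_xi (htw : t * w = 1) : nTi' p t w htw ((xu B (pT p t))⁻¹ : (TN B p t)ˣ).val =
    xN B p t := by
  rw [nTi', lift12_xi]
  rfl

theorem nTi'_y (htw : t * w = 1) : nTi' p t w htw (yv B (pT p t)) =
    aN B p t * (algebraMap B (NN B p t) w ^ 2 * zN B p t) ^ 2 := by
  rw [nTi', lift12_y]

theorem zuv (htw : t * w = 1) : algebraMap B (NN B p t) w ^ 2 * zN B p t * xN B p t = 1 :=
  (zu p t w htw).val_inv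

theorem nTi'_nT (htw : t * w = 1) : (nTi' p t w htw).comp (nT B p t) = RingHom.id _ := by
  have e1 := tw (algebraMap B (NN B p t)) htw 1
  have e2 := tw (algebraMap B (NN B p t)) htw 2
  have hz := zuv p t w htw
  have hxb := (relN B p t).xb
  have hza := (relN B p t).za
  refine homN_ext ?_ ?_ ?_ ?_ ?_
  · intro c
    rw [RingHom.comp_apply, nT_c, nTi'_b, RingHom.id_apply]
  · rw [RingHom.comp_apply, nT_z, map_mul, map_pow, nTi'_b, nTi'_x, RingHom.id_apply,
      ← mul_assoc, e2, one_mul]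
  · rw [RingHom.comp_apply, nT_x, nTi'_xi, RingHom.id_apply]
  · rw [RingHom.comp_apply, nT_a, map_mul, map_pow, nTi'_y, nTi'_xi, RingHom.id_apply]
    linear_combination (aN B p t * (algebraMap B (NN B p t) w ^ 2 * zN B p t * xN B p t + 1)) * hz
  · rw [RingHom.comp_apply, nT_b, map_mul, map_mul, nTi'_b, nTi'_y, nTi'_xi, RingHom.id_apply]
    linear_combination (algebraMap B (NN B p t) t * aN B p t *
      (algebraMap B (NN B p t) w ^ 2 * zN B p t)) * hz +
      algebraMap B (NN B p t) t * algebraMap B (NN B p t) w ^ 2 * hza + bN B p t * e2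

theorem nQ_nTi'_g2 (htw : t * w = 1) :
    (nQ B p t).comp ((nTi' p t w htw).comp (g2 B (pT p t))) = (qQ B p t).comp (gi p t) := by
  have hz := zuv p t w htw
  have e3 := tw (algebraMap B (QN B p t)) htw 3
  have hx : (xu B (pT (rev p) t) : QN B p t) *
    ((xu B (pT (rev p) t))⁻¹ : (QN B p t)ˣ).val = 1 := Units.mul_inv _
  refine hom1_ext ?_ ?_ ?_
  · intro c
    rw [RingHom.comp_apply, RingHom.comp_apply, RingHom.comp_apply, g2_b, nTi'_b, nQ_c, gi_b, qQ,
      g1_b]
  · rw [RingHom.comp_apply, RingHom.comp_apply, RingHom.comp_apply, g2_u, nTi'_xi, nQ_x, gi_x, qQ,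
      map_mul, map_pow, g1_b, ← xu_val]
  · rw [RingHom.comp_apply, RingHom.comp_apply, RingHom.comp_apply, g2_v,
      map_mul (nTi' p t w htw), Units.val_pow_eq_pow_val, map_pow (nTi' p t w htw), nTi'_xi,
      nTi'_y, gi_y, qQ, map_mul (g1 B (pT (rev p) t)), map_pow (g1 B (pT (rev p) t)), g1_b, g1_y]
    have h1 : aN B p t * (algebraMap B (NN B p t) w ^ 2 * zN B p t) ^ 2 * xN B p t ^ 3 =
        aN B p t * xN B p t := by
      linear_combination (aN B p t * xN B p t *
        (algebraMap B (NN B p t) w ^ 2 * zN B p t * xN B p t + 1)) * hz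
    rw [h1, map_mul, nQ_a, nQ_x]
    linear_combination (algebraMap B (QN B p t) t ^ 3 * yv B (pT (rev p) t)) * hx

end rings

end YHX

open _root_.Pool.Agent.MG.H2.YHX in
theorem t_YHX : Stmt_YHX := by
  intro B _ p t w htw
  have hcond : spMap (g1 B (pT p t)) ≫ YX.inT B p t =
      spMap (g2 B (pT p t)) ≫ spMap (gg p t w htw) ≫ YX.inQ B p t := by
    rw [← Category.assoc (spMap (g2 B (pT p t))), spMap_comp', ← th_qQ, ← spMap_comp',
      Category.assoc, ← YX.condQ, ← Category.assoc, spMap_comp', th_nQ, YX.condT]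
  let m : HX B (pT p t) ⟶ YX B p t :=
    pushout.desc (YX.inT B p t) (spMap (gg p t w htw) ≫ YX.inQ B p t) hcond
  have hm1 : HX.in1 B (pT p t) ≫ m = YX.inT B p t := pushout.inl_desc _ _ _
  have hm2 : HX.in2 B (pT p t) ≫ m = spMap (gg p t w htw) ≫ YX.inQ B p t :=
    pushout.inr_desc _ _ _
  have hpo : spMap (g1 B (pT p t)) ≫ HX.in1 B (pT p t) =
      spMap (g2 B (pT p t)) ≫ HX.in2 B (pT p t) := pushout.condition
  have hnt : (nT B p t).comp ((nTi' p t w htw).comp (tT B p t)) = tT B p t := by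
    refine hom1_ext ?_ ?_ ?_
    · intro c
      rw [RingHom.comp_apply, RingHom.comp_apply, tT, g1_b, nTi'_b, nT_c]
    · have e2 := tw (algebraMap B (TN B p t)) htw 2
      rw [RingHom.comp_apply, RingHom.comp_apply, tT, ← xu_val, nTi'_x, map_mul, map_pow, nT_c,
        nT_z]
      linear_combination (xu B (pT p t) : TN B p t) * e2
    · have e2 := tw (algebraMap B (TN B p t)) htw 2
      have hx : (xu B (pT p t) : TN B p t) * ((xu B (pT p t))⁻¹ : (TN B p t)ˣ).val = 1 :=
        Units.mul_inv _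
      rw [RingHom.comp_apply, RingHom.comp_apply, tT, g1_y, nTi'_y, map_mul, map_pow, map_mul,
        map_pow, nT_c, nT_z, nT_a]
      have h1 : algebraMap B (TN B p t) w ^ 2 * (algebraMap B (TN B p t) t ^ 2 *
          (xu B (pT p t) : TN B p t)) = (xu B (pT p t) : TN B p t) := by
        linear_combination (xu B (pT p t) : TN B p t) * e2
      rw [h1, mul_assoc, ← mul_pow, mul_comm ((xu B (pT p t))⁻¹ : (TN B p t)ˣ).val, hx, one_pow,
        mul_one]
  let n : YX B p t ⟶ HX B (pT p t) :=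
    YX.desc (HX.in1 B (pT p t)) (spMap ((nTi' p t w htw).comp (tT B p t)) ≫ HX.in1 B (pT p t))
      (spMap (gi p t) ≫ HX.in2 B (pT p t))
      (by rw [← Category.assoc, spMap_comp', hnt])
      (by
        rw [← spMap_comp', Category.assoc, tT, hpo, ← Category.assoc, ← Category.assoc,
          ← Category.assoc, spMap_comp', spMap_comp', spMap_comp', RingHom.comp_assoc,
          nQ_nTi'_g2])
  have hn1 : YX.inT B p t ≫ n = HX.in1 B (pT p t) := YX.inT_desc _ _ _ _ _
  have hn2 : YX.inN B p t ≫ n =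
      spMap ((nTi' p t w htw).comp (tT B p t)) ≫ HX.in1 B (pT p t) := YX.inN_desc _ _ _ _ _
  have hn3 : YX.inQ B p t ≫ n = spMap (gi p t) ≫ HX.in2 B (pT p t) := YX.inQ_desc _ _ _ _ _
  have hid : ∀ (R : Type) [CommRing R], spMap (RingHom.id R) = 𝟙 _ := fun R _ => Spec.map_id _
  refine ⟨gg p t w htw, m, ⟨n, ?_, ?_⟩, gg_b p t w htw, gg_x p t w htw, gg_y p t w htw, hm1, hm2,
    ?_⟩
  · refine HX.ext' ?_ ?_
    · rw [← Category.assoc, hm1, hn1, Category.comp_id]
    · rw [← Category.assoc, hm2, Category.assoc, hn3, ← Category.assoc, spMap_comp', gg_gi, hid,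
        Category.id_comp, Category.comp_id]
  · refine YX.ext ?_ ?_ ?_
    · rw [← Category.assoc, hn1, hm1, Category.comp_id]
    · rw [← Category.assoc, hn2, Category.assoc, hm1, ← spMap_comp', Category.assoc, ← YX.condT,
        ← Category.assoc, spMap_comp', nTi'_nT, hid, Category.id_comp, Category.comp_id]
    · rw [← Category.assoc, hn3, Category.assoc, hm2, ← Category.assoc, spMap_comp', gi_gg, hid,
        Category.id_comp, Category.comp_id]
  · refine HX.ext' ?_ ?_
    · rw [← Category.assoc, hm1, YX.inT_pr, HX.in1_pr]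
    · rw [← Category.assoc, hm2, Category.assoc, YX.inQ_pr, HX.in2_pr, spMap_comp']
      exact congrArg (fun f => spMap f) (RingHom.ext fun c => gg_b p t w htw c)

end Pool.Agent.MG.H2


end
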