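import Mathlib
import Pool.Agent.KDM.C19
import Pool.Agent.KDM.C28
import Pool.Agent.KDM.C35
import Pool.Agent.KDM.C73

/-! Parts: MG.H2.EndN -/

section

/-!
# The values of a regular function at the curves `y² = f(x)` with marked points
-/

open Polynomial

namespace Pool.Agent.MG.H2

/-- `y² = f(x)` at the points `(a i, b i)` with distinct `a i`. -/
structure OnC {B : Type} [CommRing B] {n : ℕ} (f : B[X]) (a b : Fin n → B) : Prop where
  good : Two2.Good f
  dj : ∀ i j, i ≠ j → IsUnit (a i - a j)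
  on : ∀ i, b i ^ 2 = f.eval (a i)

/-- The values at the zero covector. -/
structure MdlN (n : ℕ) where
  /-- the value -/
  V : ∀ (B : Type) [CommRing B] [Algebra ℂ B], B[X] → (Fin n → B) → (Fin n → B) → B
  bc : ∀ {B B' : Type} [CommRing B] [Algebra ℂ B] [CommRing B'] [Algebra ℂ B'] (φ : B →ₐ[ℂ] B')
    (f : B[X]) (a b : Fin n → B), OnC f a b →
    V B' (f.map (φ : B →+* B')) (fun i => φ (a i)) (fun i => φ (b i)) = φ (V B f a b)
  sc : ∀ {B : Type} [CommRing B] [Algebra ℂ B] (α β : B) (f f' : B[X]) (a b a' b' : Fin n → B),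
    IsUnit α → IsUnit β → OnC f a b → OnC f' a' b' → C (β ^ 2) * f' = f.comp (C α * X) →
    (∀ i, a i = α * a' i) → (∀ i, b i = β * b' i) → V B f' a' b' = V B f a b
  tr : ∀ {B : Type} [CommRing B] [Algebra ℂ B] (e : B) (f : B[X]) (a b : Fin n → B),
    e * e = 0 → OnC f a b → V B (f.comp (X + C e)) (fun i => a i - e) b = V B f a b
  inv : ∀ {B : Type} [CommRing B] [Algebra ℂ B] (f : B[X]) (a b a' b' : Fin n → B),
    OnC f a b → OnC (f.reflect 6) a' b' → (∀ i, a i * a' i = 1) → (∀ i, b' i = b i * a' i ^ 3) →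
    V B (f.reflect 6) a' b' = V B f a b
  mv : ∀ {K : Type} [Field K] [IsAlgClosed K] [Algebra ℂ K] (f : K[X]) (a b a' b' : Fin n → K),
    OnC f a b → OnC f a' b' → V K f a b = V K f a' b'
  reg : ∀ {R : Type} [CommRing R] [IsDomain R] [Algebra ℂ R] (s : R) (ρ r : Fin 3 → R)
    (a b : Fin n → R), s ≠ 0 →
    (∀ i j, i ≠ j → IsUnit (ρ i - ρ j)) → (∀ i j, i ≠ j → IsUnit (r i - r j)) →
    (∀ j, IsUnit (r j)) → (∀ i j, IsUnit (r j - s ^ 2 * ρ i)) →
    (∀ i j, i ≠ j → IsUnit (a i - a j)) →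
    (∀ i, b i ^ 2 = ((∏ i, (X - C (ρ i))) * ∏ j, (C (s ^ 2) * X - C (r j)) : R[X]).eval (a i)) →
    ∃ v : R, ∀ (K : Type) [Field K] [Algebra ℂ K] (ψ : R →ₐ[ℂ] K), ψ s ≠ 0 →
      V K (((∏ i, (X - C (ρ i))) * ∏ j, (C (s ^ 2) * X - C (r j)) : R[X]).map (ψ : R →+* K))
        (fun i => ψ (a i)) (fun i => ψ (b i)) = ψ v

section

variable {B B' : Type} [CommRing B] [CommRing B'] {n : ℕ}

theorem OnC.map {f : B[X]} {a b : Fin n → B} (h : OnC f a b) (φ : B →+* B') :
    OnC (f.map φ) (fun i => φ (a i)) (fun i => φ (b i)) where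
  good := h.good.map φ
  dj i j hij := by
    rw [← map_sub]
    exact (h.dj i j hij).map φ
  on i := by
    rw [← map_pow, h.on, eval_map_apply]

end

namespace MdlN

/-- The abscissae. -/
def ab (n : ℕ) (K : Type) [Semiring K] (i : Fin n) : K := (i.1 : K) + 1

theorem ab_map {n : ℕ} {K K' : Type} [Semiring K] [Semiring K'] (φ : K →+* K') (i : Fin n) :
    φ (ab n K i) = ab n K' i := by
  simp [ab]

theorem ab_unit {n : ℕ} {K : Type} [CommRing K] [Algebra ℂ K] (i j : Fin n) (h : i ≠ j) :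
    IsUnit (ab n K i - ab n K j) := by
  have h1 : IsUnit (algebraMap ℂ K ((i.1 : ℂ) - (j.1 : ℂ))) := by
    refine (IsUnit.mk0 _ ?_).map _
    rw [sub_ne_zero]
    exact_mod_cast fun e => h (Fin.ext e)
  have h2 : ab n K i - ab n K j = algebraMap ℂ K ((i.1 : ℂ) - (j.1 : ℂ)) := by
    simp [ab]
  rw [h2]
  exact h1

theorem ab_unit0 {n : ℕ} {K : Type} [CommRing K] [Algebra ℂ K] (i : Fin n) :
    IsUnit (ab n K i) := by
  have h1 : IsUnit (algebraMap ℂ K ((i.1 : ℂ) + 1)) := by
    refine (IsUnit.mk0 _ ?_).map _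
    exact_mod_cast Nat.succ_ne_zero i.1
  have h2 : ab n K i = algebraMap ℂ K ((i.1 : ℂ) + 1) := by
    simp [ab]
  rw [h2]
  exact h1

/-- The ordinates. -/
noncomputable def od (n : ℕ) {K : Type} [Field K] [IsAlgClosed K] (f : K[X]) (i : Fin n) : K :=
  (IsAlgClosed.exists_pow_nat_eq (f.eval (ab n K i)) (n := 2) (by norm_num)).choose

theorem od_sq (n : ℕ) {K : Type} [Field K] [IsAlgClosed K] (f : K[X]) (i : Fin n) :
    od n f i ^ 2 = f.eval (ab n K i) :=
  (IsAlgClosed.exists_pow_nat_eq (f.eval (ab n K i)) (n := 2) (by norm_num)).choose_spec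

theorem onC {n : ℕ} {K : Type} [Field K] [IsAlgClosed K] [Algebra ℂ K] {f : K[X]}
    (h : Two2.Good f) : OnC f (ab n K) (od n f) :=
  ⟨h, ab_unit, od_sq n f⟩

variable {n : ℕ} (M : MdlN n)

/-- The value over an algebraically closed field. -/
noncomputable def sk {K : Type} [Field K] [IsAlgClosed K] [Algebra ℂ K] (f : K[X]) : K :=
  M.V K f (ab n K) (od n f)

theorem sk_eq {K : Type} [Field K] [IsAlgClosed K] [Algebra ℂ K] {f : K[X]} {a b : Fin n → K}
    (h : OnC f a b) : M.V K f a b = M.sk f :=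
  M.mv f a b _ _ h (onC h.good)

theorem sk_scal {K : Type} [Field K] [IsAlgClosed K] [Algebra ℂ K] {f : K[X]}
    (hf : Two2.Good f) (u : K) (hu : IsUnit u) : M.sk (C (u ^ 2) * f) = M.sk f := by
  obtain ⟨v, hv⟩ := hu.exists_right_inv
  have hvu : IsUnit v := IsUnit.of_mul_eq_one u (by rw [mul_comm]; exact hv)
  have hf' : Two2.Good (C (u ^ 2) * f) := hf.cmul (hu.pow 2)
  have h1 : OnC (C (u ^ 2) * f) (ab n K) (fun i => u * od n f i) := by
    refine ⟨hf', ab_unit, fun i => ?_⟩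
    rw [mul_pow, od_sq, eval_mul, eval_C]
  rw [← M.sk_eq h1]
  refine M.sc 1 v f _ _ _ _ _ isUnit_one hvu (onC hf) h1 ?_ (fun i => (one_mul _).symm)
    fun i => ?_
  · rw [← mul_assoc, ← C_mul, ← mul_pow, mul_comm v u, hv, one_pow, C_1, one_mul, one_mul, comp_X]
  · rw [← mul_assoc, mul_comm v u, hv, one_mul]

theorem sk_dil {K : Type} [Field K] [IsAlgClosed K] [Algebra ℂ K] {f f' : K[X]}
    (hf : Two2.Good f) (hf' : Two2.Good f') (α β : K) (hα : IsUnit α) (hβ : IsUnit β)
    (h : C (β ^ 2) * f' = f.comp (C α * X)) : M.sk f' = M.sk f := by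
  have h1 : OnC f (fun i => α * ab n K i) (fun i => β * od n f' i) := by
    refine ⟨hf, fun i j hij => ?_, fun i => ?_⟩
    · rw [← mul_sub]
      exact hα.mul (ab_unit i j hij)
    · have := congrArg (eval (ab n K i)) h
      rw [eval_mul, eval_C, eval_comp, eval_mul, eval_C, eval_X] at this
      rw [mul_pow, od_sq, this]
  rw [← M.sk_eq h1]
  exact M.sc α β f f' _ _ _ _ hα hβ h1 (onC hf') h (fun i => rfl) (fun i => rfl)

theorem sk_inv {K : Type} [Field K] [IsAlgClosed K] [Algebra ℂ K] {f : K[X]}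
    (hf : Two2.Good f) : M.sk (f.reflect 6) = M.sk f := by
  have hne : ∀ i, ab n K i ≠ 0 := fun i => (ab_unit0 i).ne_zero
  have h1 : OnC (f.reflect 6) (fun i => (ab n K i)⁻¹) (fun i => od n f i * (ab n K i)⁻¹ ^ 3) := by
    refine ⟨hf.reflect, fun i j hij => IsUnit.mk0 _ ?_, fun i => ?_⟩
    · intro h0
      exact (ab_unit (K := K) i j hij).ne_zero (sub_eq_zero.2 (inv_injective (sub_eq_zero.1 h0)))
    · letI : Invertible (ab n K i) := invertibleOfNonzero (hne i)
      have := eval₂_reflect_mul_pow (RingHom.id K) (ab n K i) 6 f hf.deg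
      rw [invOf_eq_inv] at this
      change (f.reflect 6).eval (ab n K i)⁻¹ * ab n K i ^ 6 = f.eval (ab n K i) at this
      rw [mul_pow, od_sq, ← this]
      have h2 : ab n K i * (ab n K i)⁻¹ = 1 := mul_inv_cancel₀ (hne i)
      have h6 : ab n K i ^ 6 * (ab n K i)⁻¹ ^ 6 = 1 := by rw [← mul_pow, h2, one_pow]
      linear_combination ((f.reflect 6).eval (ab n K i)⁻¹) * h6
  rw [← M.sk_eq h1]
  exact M.inv f _ _ _ _ (onC hf) h1 (fun i => mul_inv_cancel₀ (hne i)) (fun i => rfl)

theorem sk_trans {K : Type} [Field K] [IsAlgClosed K] [Algebra ℂ K] {f : K[X]}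
    (hf : Two2.Good f) (t : K) : M.sk (f.comp (X + C t)) = M.sk f := by
  set a : Fin n → K := ab n K with ha
  set b : Fin n → K := od n f with hb
  have hab : OnC f a b := onC hf
  set f1 : (K[X])[X] := f.map (C : K →+* K[X]) with hf1
  have hg1 : Two2.Good f1 := hf.map _
  -- points of the translated curve
  have hon : ∀ {R : Type} [CommRing R] (φ : K →+* R) (z : R),
      OnC ((f.map φ).comp (X + C z)) (fun i => φ (a i) - z) (fun i => φ (b i)) := by
    intro R _ φ z
    refine ⟨(hf.map φ).shift z, fun i j hij => ?_, fun i => ?_⟩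
    · have : φ (a i) - z - (φ (a j) - z) = φ (a i - a j) := by
        rw [map_sub]
        ring
      rw [this]
      exact (hab.dj i j hij).map φ
    · have : (X + C z : R[X]).eval (φ (a i) - z) = φ (a i) := by simp
      rw [eval_comp, this, eval_map_apply, ← map_pow, hab.on]
  set P : K[X] := M.V K[X] (f1.comp (X + C X)) (fun i => C (a i) - X) (fun i => C (b i)) with hP
  have hO : OnC (f1.comp (X + C X)) (fun i => C (a i) - X) (fun i => C (b i)) := hon C X
  -- evaluation
  have hev : ∀ {R : Type} [CommRing R] [Algebra ℂ R] (φ : K →ₐ[ℂ] R) (z : R),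
      P.eval₂ (φ : K →+* R) z = M.V R ((f.map (φ : K →+* R)).comp (X + C z))
        (fun i => φ (a i) - z) (fun i => φ (b i)) := by
    intro R _ _ φ z
    let ev : K[X] →ₐ[ℂ] R :=
      { (Polynomial.eval₂RingHom (φ : K →+* R) z) with
        commutes' := fun c => by
          change Polynomial.eval₂ (φ : K →+* R) z (algebraMap ℂ K[X] c) = _
          rw [IsScalarTower.algebraMap_apply ℂ K K[X]]
          change Polynomial.eval₂ (φ : K →+* R) z (C (algebraMap ℂ K c)) = _
          rw [eval₂_C]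
          exact φ.commutes c }
    have hC : ∀ c : K, ev (C c) = φ c := fun c => eval₂_C _ _
    have hX : ev X = z := eval₂_X _ _
    have h := M.bc ev _ _ _ hO
    have e1 : (f1.comp (X + C X)).map (ev : K[X] →+* R) =
        (f.map (φ : K →+* R)).comp (X + C z) := by
      rw [Mdl.comp_map, hf1, Polynomial.map_map]
      have h1 : (ev : K[X] →+* R).comp (C : K →+* K[X]) = (φ : K →+* R) := RingHom.ext hC
      have h2 : (ev : K[X] →+* R) X = z := hX
      rw [h1, h2]
    rw [e1] at h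
    simp only [map_sub, hC, hX] at h
    exact h.symm
  have hc : P = C (P.coeff 0) := by
    refine eq_C_of_eps ?_
    let φ : K →ₐ[ℂ] TrivSqZeroExt K[X] K[X] :=
      { ((TrivSqZeroExt.inlHom K[X] K[X]).comp C) with
        commutes' := fun c => by
          change (TrivSqZeroExt.inlHom K[X] K[X]) (C (algebraMap ℂ K c)) = _
          rfl }
    have hφ : (φ : K →+* TrivSqZeroExt K[X] K[X]) = (TrivSqZeroExt.inlHom K[X] K[X]).comp C := rfl
    rw [← hφ, hev φ, hev φ]
    have e2 : (f.map (φ : K →+* TrivSqZeroExt K[X] K[X])).comp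
        (X + C (TrivSqZeroExt.inl X + TrivSqZeroExt.inr 1)) =
        ((f.map (φ : K →+* TrivSqZeroExt K[X] K[X])).comp
          (X + C (TrivSqZeroExt.inl X))).comp (X + C (TrivSqZeroExt.inr 1)) := by
      have e3 : (X + C (TrivSqZeroExt.inl X + TrivSqZeroExt.inr 1) :
          (TrivSqZeroExt K[X] K[X])[X]) = (X + C (TrivSqZeroExt.inl X)).comp
            (X + C (TrivSqZeroExt.inr 1)) := by
        simp only [add_comp, X_comp, C_comp, C_add]
        ring
      rw [comp_assoc, ← e3]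
    have e4 : (fun i => φ (a i) - (TrivSqZeroExt.inl X + TrivSqZeroExt.inr 1)) =
        fun i => (φ (a i) - TrivSqZeroExt.inl X) - TrivSqZeroExt.inr (1 : K[X]) := by
      funext i
      ring
    rw [e2, e4]
    refine M.tr _ _ _ _ ?_ (hon (φ : K →+* TrivSqZeroExt K[X] K[X]) (TrivSqZeroExt.inl X))
    rw [TrivSqZeroExt.inr_mul_inr]
  have h1 : ∀ s : K, P.eval s = M.sk (f.comp (X + C s)) := by
    intro s
    have h2 := hev (AlgHom.id ℂ K) s
    have h3 := hon (RingHom.id K) s
    have e5 : ((AlgHom.id ℂ K : K →ₐ[ℂ] K) : K →+* K) = RingHom.id K := rfl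
    rw [e5, Polynomial.map_id] at h2
    rw [Polynomial.map_id] at h3
    rw [← M.sk_eq h3]
    exact h2
  have h4 := h1 0
  rw [C_0, add_zero, comp_X] at h4
  rw [← h1 t, ← h4, hc, eval_C, eval_C]

end MdlN

end Pool.Agent.MG.H2


end
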