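import Mathlib
import Pool.Agent.KDM.C18
import Pool.Agent.KDM.C19
import Pool.Agent.KDM.C20
import Pool.Agent.KDM.C21
import Pool.Agent.KDM.C28
import Pool.Agent.KDM.C35
import Pool.Agent.KDM.C36
import Pool.Agent.KDM.C45
import Pool.Agent.KDM.C72
import Pool.Agent.KDM.C74

/-! Parts: MG.H2.HSM, MG.H2.GeoN, MG.H2.HRG, MG.H2.CFF, MG.H2.GeoA, MG.H2.StmtsM, MG.H2.YOR, MG.H2.YVU -/

section

/-!
# HSM: smoothness of the curves `y² = f(x)`
-/

open CategoryTheory CategoryTheory.Limits AlgebraicGeometry TensorProduct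

namespace Pool.Agent.MG.H2

/-- The coefficients of a polynomial of degree at most six. -/
def cf7 {B : Type} [CommRing B] (f : Polynomial B) : Fin 7 → B := fun i => f.coeff i

section cf

variable {B : Type} [CommRing B]

theorem cf7_map {B' : Type} [CommRing B'] (φ : B →+* B') (f : Polynomial B) (i : Fin 7) :
    cf7 (f.map φ) i = φ (cf7 f i) := by
  simp [cf7]

theorem sum7 {f : Polynomial B} (hf : f.natDegree ≤ 6) : f =
    Polynomial.C (f.coeff 0) + Polynomial.C (f.coeff 1) * Polynomial.X +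
    Polynomial.C (f.coeff 2) * Polynomial.X ^ 2 + Polynomial.C (f.coeff 3) * Polynomial.X ^ 3 +
    Polynomial.C (f.coeff 4) * Polynomial.X ^ 4 + Polynomial.C (f.coeff 5) * Polynomial.X ^ 5 +
    Polynomial.C (f.coeff 6) * Polynomial.X ^ 6 := by
  conv_lhs => rw [Polynomial.as_sum_range_C_mul_X_pow' (n := 7) (p := f) (by omega)]
  simp only [Finset.sum_range_succ, Finset.sum_range_zero]
  simp

theorem pol_cf7 {R : Type} [CommRing R] (φ : B →+* R) {f : Polynomial B} (hf : f.natDegree ≤ 6)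
    (x : R) : pol (fun i => φ (cf7 f i)) x = f.eval₂ φ x := by
  conv_rhs => rw [sum7 hf]
  simp [pol, cf7]

theorem dpol_cf7 {R : Type} [CommRing R] (φ : B →+* R) {f : Polynomial B} (hf : f.natDegree ≤ 6)
    (x : R) : (Polynomial.derivative f).eval₂ φ x = φ (cf7 f 1) + 2 * φ (cf7 f 2) * x +
      3 * φ (cf7 f 3) * x ^ 2 + 4 * φ (cf7 f 4) * x ^ 3 + 5 * φ (cf7 f 5) * x ^ 4 +
      6 * φ (cf7 f 6) * x ^ 5 := by
  have e2 : φ 2 = 2 := map_ofNat φ 2
  have e3 : φ 3 = 3 := map_ofNat φ 3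
  have e4 : φ 4 = 4 := map_ofNat φ 4
  have e5 : φ 5 = 5 := map_ofNat φ 5
  conv_lhs => rw [sum7 hf]
  simp [cf7, e2, e3, e4, e5]
  ring

theorem cf7_reflect {f : Polynomial B} : cf7 (f.reflect 6) = rev (cf7 f) := by
  funext i
  simp only [cf7, rev, Polynomial.coeff_reflect]
  congr 1
  rw [Polynomial.revAt_le (by omega)]
  simp [Fin.rev]

end cf

namespace HSM

variable {B : Type} [CommRing B] {f : Polynomial B}

theorem d0 (hf : f.natDegree ≤ 6) :
    Ideal.Quotient.mk (Ideal.span {eq1 B (cf7 f)}) (MvPolynomial.pderiv 0 (eq1 B (cf7 f))) =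
    -((Polynomial.derivative f).eval₂ (algebraMap B (A1 B (cf7 f))) (x1 B (cf7 f))) := by
  have h : MvPolynomial.pderiv 0 (eq1 B (cf7 f)) =
      -(MvPolynomial.C (cf7 f 1) + 2 * MvPolynomial.C (cf7 f 2) * MvPolynomial.X 0 +
        3 * MvPolynomial.C (cf7 f 3) * MvPolynomial.X 0 ^ 2 +
        4 * MvPolynomial.C (cf7 f 4) * MvPolynomial.X 0 ^ 3 +
        5 * MvPolynomial.C (cf7 f 5) * MvPolynomial.X 0 ^ 4 +
        6 * MvPolynomial.C (cf7 f 6) * MvPolynomial.X 0 ^ 5) := by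
    simp [eq1, pol, MvPolynomial.pderiv_X]
    ring
  rw [h, dpol_cf7 _ hf]
  simp only [map_neg, map_add, map_mul, map_pow, map_ofNat]
  rfl

theorem d1 : Ideal.Quotient.mk (Ideal.span {eq1 B (cf7 f)})
    (MvPolynomial.pderiv 1 (eq1 B (cf7 f))) = 2 * y1 B (cf7 f) := by
  have h : MvPolynomial.pderiv 1 (eq1 B (cf7 f)) = 2 * MvPolynomial.X 1 := by
    simp [eq1, pol, MvPolynomial.pderiv_X]
  rw [h, map_mul]
  rfl

theorem span_top (h2 : IsUnit (2 : B)) (hf : f.natDegree ≤ 6)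
    (hc : IsCoprime f (Polynomial.derivative f)) :
    Ideal.span {Ideal.Quotient.mk (Ideal.span {eq1 B (cf7 f)})
        (MvPolynomial.pderiv 0 (eq1 B (cf7 f))),
      Ideal.Quotient.mk (Ideal.span {eq1 B (cf7 f)})
        (MvPolynomial.pderiv 1 (eq1 B (cf7 f)))} = ⊤ := by
  rw [Ideal.eq_top_iff_one, Ideal.mem_span_pair, d0 hf, d1]
  obtain ⟨u, v, huv⟩ := hc
  obtain ⟨w, hw⟩ := h2.exists_right_inv
  have h := rel1 B (cf7 f)
  rw [pol_cf7 (algebraMap B (A1 B (cf7 f))) hf] at h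
  have h3 := congrArg (Polynomial.eval₂ (algebraMap B (A1 B (cf7 f))) (x1 B (cf7 f))) huv
  rw [Polynomial.eval₂_add, Polynomial.eval₂_mul, Polynomial.eval₂_mul, Polynomial.eval₂_one,
    ← h] at h3
  have h4 : (2 : A1 B (cf7 f)) * algebraMap B (A1 B (cf7 f)) w = 1 := by
    have := congrArg (algebraMap B (A1 B (cf7 f))) hw
    rw [map_mul, map_one, map_ofNat] at this
    exact this
  refine ⟨-(v.eval₂ (algebraMap B (A1 B (cf7 f))) (x1 B (cf7 f))),
    algebraMap B (A1 B (cf7 f)) w * u.eval₂ (algebraMap B (A1 B (cf7 f))) (x1 B (cf7 f)) *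
      y1 B (cf7 f), ?_⟩
  linear_combination h3 + (u.eval₂ (algebraMap B (A1 B (cf7 f))) (x1 B (cf7 f)) *
      y1 B (cf7 f) ^ 2) * h4

theorem sm1 (h2 : IsUnit (2 : B)) (hf : f.natDegree ≤ 6)
    (hc : IsCoprime f (Polynomial.derivative f)) :
    SmoothOfRelativeDimension 1 (spMap (algebraMap B (A1 B (cf7 f)))) :=
  W.WSM.loc _ (span_top h2 hf hc)

end HSM

/-- The curves `y² = f(x)` are smooth. -/
theorem sm_hyp {B : Type} [CommRing B] (h2 : IsUnit (2 : B)) {f : Polynomial B}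
    (hf : Two2.Good f) : SmoothOfRelativeDimension 1 (HX.pr B (cf7 f)) := by
  refine two_source (@SmoothOfRelativeDimension 1) (HX.in1 B (cf7 f)) (HX.in2 B (cf7 f))
    (glue2_surj _ _) _ ?_ ?_
  · rw [HX.in1_pr]
    exact HSM.sm1 h2 hf.deg hf.cop
  · rw [HX.in2_pr]
    have h := HSM.sm1 h2 hf.reflect.deg hf.cop'
    rw [cf7_reflect] at h
    exact h

end Pool.Agent.MG.H2


end

section

/-!
# The values at marked curves of genus two: geometry
-/

open CategoryTheory CategoryTheory.Limits AlgebraicGeometry Polynomial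

namespace Pool.Agent.MG.H2

/-! ## Arrows between the curves `y² = f(x)` -/

/-- ASC: change of scale `x = α x'`, `y = β y'`. -/
def Stmt_ASC : Prop :=
  ∀ {B : Type} [CommRing B] (α β : B) (f f' : Fin 7 → B), IsUnit α → IsUnit β →
    (∀ i : Fin 7, β ^ 2 * f' i = α ^ (i : ℕ) * f i) →
    ∃ (a : Arrow (RingHom.id B) (Hyp f') (Hyp f)) (g : A1 B f →+* A1 B f'),
      (∀ c, g (algebraMap B _ c) = algebraMap B _ c) ∧
      g (x1 B f) = algebraMap B _ α * x1 B f' ∧ g (y1 B f) = algebraMap B _ β * y1 B f' ∧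
      HX.in1 B f' ≫ a.f = spMap g ≫ HX.in1 B f

/-- ATR: infinitesimal translation `x = x' + e`. -/
def Stmt_ATR : Prop :=
  ∀ {B : Type} [CommRing B] (e : B) (f f' : Fin 7 → B), e * e = 0 → IsTr e f f' →
    ∃ (a : Arrow (RingHom.id B) (Hyp f') (Hyp f)) (g : A1 B f →+* A1 B f'),
      (∀ c, g (algebraMap B _ c) = algebraMap B _ c) ∧
      g (x1 B f) = x1 B f' + algebraMap B _ e ∧ g (y1 B f) = y1 B f' ∧
      HX.in1 B f' ≫ a.f = spMap g ≫ HX.in1 B f

/-- ASW: the inversion. -/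
def Stmt_ASW : Prop :=
  ∀ {B : Type} [CommRing B] (f : Fin 7 → B),
    ∃ a : Arrow (RingHom.id B) (Hyp (rev f)) (Hyp f), HX.in1 B (rev f) ≫ a.f = HX.in2 B f

namespace GeoN

section pts

variable {B B' : Type} [CommRing B] [CommRing B']

theorem two_unit [Algebra ℂ B] : IsUnit (2 : B) := by
  have h : IsUnit (algebraMap ℂ B 2) := (IsUnit.mk0 _ two_ne_zero).map _
  rwa [map_ofNat] at h

theorem pp_cf7 {f : B[X]} (hf : f.natDegree ≤ 6) : pp B (cf7 f) = f := by
  have h := pol_cf7 (C : B →+* B[X]) hf X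
  rw [eval₂_C_X] at h
  exact h

theorem hsm [Algebra ℂ B] {f : B[X]} (hf : Two2.Good f) : HSm B (cf7 f) where
  two := two_unit
  s1 := by
    rw [pp_cf7 hf.deg]
    exact hf.cop
  s2 := by
    rw [← cf7_reflect, pp_cf7 hf.reflect.deg]
    exact hf.cop'

theorem onh {n : ℕ} {f : B[X]} {a b : Fin n → B} (h : OnC f a b) (i : Fin n) :
    b i ^ 2 = pol (cf7 f) (a i) :=
  (h.on i).trans (pol_cf7 (RingHom.id B) h.good.deg (a i)).symm

/-- Points and arrows. -/
theorem pnt_arrow (φ : B →+* B') {f : Fin 7 → B} {f' : Fin 7 → B'}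
    (a : Arrow φ (Hyp f') (Hyp f)) (g : A1 B f →+* A1 B' f')
    (hb : ∀ c, g (algebraMap B _ c) = algebraMap B' _ (φ c))
    (hin : HX.in1 B' f' ≫ a.f = spMap g ≫ HX.in1 B f) {x y : B} (h : y ^ 2 = pol f x) {x' y' : B'}
    (h' : y' ^ 2 = pol f' x')
    (hx : lift1 (RingHom.id B') x' y' (pnt_h f' h') (g (x1 B f)) = φ x)
    (hy : lift1 (RingHom.id B') x' y' (pnt_h f' h') (g (y1 B f)) = φ y) :
    pnt f' x' y' h' ≫ a.f = spMap φ ≫ pnt f x y h := by
  have e : (lift1 (RingHom.id B') x' y' (pnt_h f' h')).comp g =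
      φ.comp (lift1 (RingHom.id B) x y (pnt_h f h)) := by
    refine hom1_ext (fun c => ?_) ?_ ?_
    · rw [RingHom.comp_apply, hb, lift1_b, RingHom.comp_apply, lift1_b]
      rfl
    · rw [RingHom.comp_apply, hx, RingHom.comp_apply, lift1_x]
    · rw [RingHom.comp_apply, hy, RingHom.comp_apply, lift1_y]
  have e1 : spMap (lift1 (RingHom.id B') x' y' (pnt_h f' h')) ≫ spMap g =
      spMap φ ≫ spMap (lift1 (RingHom.id B) x y (pnt_h f h)) := by
    rw [spMap_comp', spMap_comp', e]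
  exact (Category.assoc _ _ _).trans ((congrArg (fun z => spMap (lift1 (RingHom.id B') x' y'
    (pnt_h f' h')) ≫ z) hin).trans ((Category.assoc _ _ _).symm.trans
      ((congrArg (fun z => z ≫ HX.in1 B f) e1).trans (Category.assoc _ _ _))))

theorem pnt_inj {K : Type} [Field K] (s : B →+* K) {f : Fin 7 → B} {x y x' y' : B}
    (h : y ^ 2 = pol f x) (h' : y' ^ 2 = pol f x')
    (e : spMap s ≫ pnt f x y h = spMap s ≫ pnt f x' y' h') : s x = s x' := by
  rw [pnt, pnt, ← Category.assoc, ← Category.assoc, cancel_mono, ← Spec.map_comp, ← Spec.map_comp,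
    ← CommRingCat.ofHom_comp, ← CommRingCat.ofHom_comp] at e
  have e2 := congrArg (fun g => g.hom (x1 B f)) (Spec.map_injective e)
  change s (lift1 (RingHom.id B) x y (pnt_h f h) (x1 B f)) =
    s (lift1 (RingHom.id B) x' y' (pnt_h f h') (x1 B f)) at e2
  rwa [lift1_x, lift1_x] at e2

end pts

section val

variable {n : ℕ} (F : Reg 2 n)

/-- Functoriality of the values at the zero covector. -/
theorem val0 {B B' : Type} [CommRing B] [Algebra ℂ B] [CommRing B'] [Algebra ℂ B']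
    (φ : B →ₐ[ℂ] B') {x : Fam n B} {y : Fam n B'} (hx : IsStable 2 x) (hy : IsStable 2 y)
    (a : Arrow (φ : B →+* B') y x) : F.F B' y hy 0 = φ (F.F B x hx 0) := by
  refine F.nat B B' φ x y hx hy a 0 0 fun d' d f hf => ?_
  exact (map_zero (φ : B →+* B')).symm

theorem val0' {B : Type} [CommRing B] [Algebra ℂ B]
    {x y : Fam n B} (hx : IsStable 2 x) (hy : IsStable 2 y)
    (a : Arrow (RingHom.id B) y x) : F.F B y hy 0 = F.F B x hx 0 :=
  val0 F (AlgHom.id ℂ B) hx hy a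

variable (hNPT : Stmt_NPT) (hYHT : Stmt_YHT)

include hNPT hYHT

theorem stab {B : Type} [CommRing B] [Algebra ℂ B] {f : B[X]} {a b : Fin n → B}
    (h : OnC f a b) : IsStable 2 (HypS (cf7 f) a b (onh h)) := by
  refine hNPT 2 (Hyp (cf7 f)) (hYHT (cf7 f) (hsm h.good)) _ _ (fun i => ⟨⊤, ?_, fun s => trivial⟩) ?_
  · have h1 : SmoothOfRelativeDimension 1 (HX.pr B (cf7 f)) := sm_hyp two_unit h.good
    have h2 : Smooth (HX.pr B (cf7 f)) := SmoothOfRelativeDimension.smooth 1 _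
    exact inferInstanceAs (Smooth ((⊤ : (HX B (cf7 f)).Opens).ι ≫ HX.pr B (cf7 f)))
  · intro K _ _ s i j hij e
    have h1 := pnt_inj s (onh h i) (onh h j) e
    exact ((h.dj i j hij).map s).ne_zero (by rw [map_sub, h1, sub_self])

open Classical in
/-- The value at a marked curve. -/
noncomputable def VN (B : Type) [CommRing B] [Algebra ℂ B] (f : B[X]) (a b : Fin n → B) : B :=
  if h : OnC f a b then F.F B (HypS (cf7 f) a b (onh h)) (stab hNPT hYHT h) 0 else 0

theorem VN_eq {B : Type} [CommRing B] [Algebra ℂ B] {f : B[X]} {a b : Fin n → B}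
    (h : OnC f a b) : VN F hNPT hYHT B f a b =
      F.F B (HypS (cf7 f) a b (onh h)) (stab hNPT hYHT h) 0 :=
  dif_pos h

end val

/-- An arrow of marked curves. -/
noncomputable def arrS {B B' : Type} [CommRing B] [CommRing B'] {n : ℕ} {φ : B →+* B'}
    {f : Fin 7 → B} {f' : Fin 7 → B'} (a : Arrow φ (Hyp f') (Hyp f)) {x y : Fin n → B}
    {x' y' : Fin n → B'} (h : ∀ i, y i ^ 2 = pol f (x i)) (h' : ∀ i, y' i ^ 2 = pol f' (x' i))
    (hs : ∀ i, pnt f' (x' i) (y' i) (h' i) ≫ a.f = spMap φ ≫ pnt f (x i) (y i) (h i)) :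
    Arrow φ (HypS f' x' y' h') (HypS f x y h) :=
  ⟨a.f, a.cart, hs⟩

section fields

variable {n : ℕ} (F : Reg 2 n) (hNPT : Stmt_NPT) (hYHT : Stmt_YHT)

theorem VN_bc (hHBC : Stmt_HBC) {B B' : Type} [CommRing B] [Algebra ℂ B] [CommRing B']
    [Algebra ℂ B'] (φ : B →ₐ[ℂ] B') (f : B[X]) (a b : Fin n → B) (h : OnC f a b) :
    VN F hNPT hYHT B' (f.map (φ : B →+* B')) (fun i => φ (a i)) (fun i => φ (b i)) =
      φ (VN F hNPT hYHT B f a b) := by
  have h' : OnC (f.map (φ : B →+* B')) (fun i => φ (a i)) (fun i => φ (b i)) :=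
    h.map (φ : B →+* B')
  rw [VN_eq F hNPT hYHT h, VN_eq F hNPT hYHT h']
  let hf : ∀ i, cf7 (f.map (φ : B →+* B')) i = (φ : B →+* B') (cf7 f i) := cf7_map _ f
  let e : Arrow (φ : B →+* B') (Hyp (cf7 (f.map (φ : B →+* B')))) (Hyp (cf7 f)) :=
    ⟨HX.map (φ : B →+* B') hf, hHBC (φ : B →+* B') hf, fun i => i.elim0⟩
  refine val0 F φ _ _ (arrS e (onh h) (onh h') fun i => ?_)
  refine pnt_arrow (φ : B →+* B') e (bc1 (φ : B →+* B') hf) (bc1_b _ hf)
    (HX.in1_map (φ : B →+* B') hf) _ _ ?_ ?_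
  · rw [bc1_x, lift1_x]
    rfl
  · rw [bc1_y, lift1_y]
    rfl

theorem VN_sc (hASC : Stmt_ASC) {B : Type} [CommRing B] [Algebra ℂ B] (α β : B) (f f' : B[X])
    (a b a' b' : Fin n → B) (hα : IsUnit α) (hβ : IsUnit β) (h : OnC f a b) (h' : OnC f' a' b')
    (hff : C (β ^ 2) * f' = f.comp (C α * X)) (ha : ∀ i, a i = α * a' i)
    (hb : ∀ i, b i = β * b' i) :
    VN F hNPT hYHT B f' a' b' = VN F hNPT hYHT B f a b := by
  rw [VN_eq F hNPT hYHT h, VN_eq F hNPT hYHT h']
  obtain ⟨e, g, g0, g1, g2, hin⟩ := hASC α β (cf7 f) (cf7 f') hα hβ fun i => by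
    have := congrArg (fun p => coeff p (i : ℕ)) hff
    simp only [coeff_C_mul, comp_C_mul_X_coeff] at this
    rw [cf7, cf7, this, mul_comm]
  refine val0' F _ _ (arrS e (onh h) (onh h') fun i => ?_)
  refine pnt_arrow (RingHom.id B) e g g0 hin _ _ ?_ ?_
  · rw [g1, map_mul, lift1_b, lift1_x, ha]
    rfl
  · rw [g2, map_mul, lift1_b, lift1_y, hb]
    rfl

theorem isTr_comp {B : Type} [CommRing B] (e : B) (he : e * e = 0) {f : B[X]}
    (hf : f.natDegree ≤ 6) : IsTr e (cf7 f) (cf7 (f.comp (X + C e))) := by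
  have h2 : e ^ 2 = 0 := by rw [sq, he]
  have h := Polynomial.eval_add_of_sq_eq_zero (f.map C) X (C e) (by rw [← C_pow, h2, C_0])
  rw [Polynomial.eval_map, Polynomial.eval_map, derivative_map, Polynomial.eval_map, eval₂_C_X,
    eval₂_C_X] at h
  have h' : f.comp (X + C e) = f + derivative f * C e := h
  have h7 : f.coeff 7 = 0 := coeff_eq_zero_of_natDegree_lt (by omega)
  intro i
  rw [cf7, h', coeff_add, coeff_mul_C, coeff_derivative]
  fin_cases i <;> simp [cf7, dtr, h7] <;> ring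

theorem VN_tr (hATR : Stmt_ATR) {B : Type} [CommRing B] [Algebra ℂ B] (e : B) (f : B[X])
    (a b : Fin n → B) (he : e * e = 0) (h : OnC f a b) :
    VN F hNPT hYHT B (f.comp (X + C e)) (fun i => a i - e) b = VN F hNPT hYHT B f a b := by
  have h' : OnC (f.comp (X + C e)) (fun i => a i - e) b := by
    refine ⟨h.good.shift e, fun i j hij => ?_, fun i => ?_⟩
    · rw [sub_sub_sub_cancel_right]
      exact h.dj i j hij
    · rw [h.on, eval_comp]
      simp
  rw [VN_eq F hNPT hYHT h, VN_eq F hNPT hYHT h']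
  obtain ⟨ar, g, g0, g1, g2, hin⟩ := hATR e (cf7 f) (cf7 (f.comp (X + C e))) he
    (isTr_comp e he h.good.deg)
  refine val0' F _ _ (arrS ar (onh h) (onh h') fun i => ?_)
  refine pnt_arrow (RingHom.id B) ar g g0 hin _ _ ?_ ?_
  · rw [g1, map_add, lift1_b, lift1_x]
    exact sub_add_cancel _ _
  · rw [g2, lift1_y]
    rfl

theorem pnt_inf {B : Type} [CommRing B] (f : Fin 7 → B) {a b a' b' : B}
    (h : b ^ 2 = pol f a) (h' : b' ^ 2 = pol (rev f) a') (ha : a * a' = 1)
    (hb : b' = b * a' ^ 3) :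
    spMap (lift1 (RingHom.id B) a' b' (pnt_h (rev f) h')) ≫ HX.in2 B f = pnt f a b h := by
  let u : Bˣ := ⟨a, a', ha, by rw [mul_comm, ha]⟩
  let L : A12 B f →+* B := lift12 (RingHom.id B) u b (pnt_h f h)
  have e1 : L.comp (g1 B f) = lift1 (RingHom.id B) a b (pnt_h f h) := by
    refine RingHom.ext fun v => ?_
    exact lift12_g1 (RingHom.id B) u b (pnt_h f h) v
  have hxi : L ((xu B f)⁻¹ : (A12 B f)ˣ).val = a' := lift12_xi (RingHom.id B) u b (pnt_h f h)
  have e2 : L.comp (g2 B f) = lift1 (RingHom.id B) a' b' (pnt_h (rev f) h') := by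
    refine hom1_ext (fun c => ?_) ?_ ?_
    · rw [RingHom.comp_apply, lift1_b]
      exact (congrArg L (g2_b B f c)).trans (lift12_b _ _ _ _ _)
    · rw [RingHom.comp_apply, lift1_x, g2_u, hxi]
    · rw [RingHom.comp_apply, lift1_y, g2_v, map_mul, Units.val_pow_eq_pow_val, map_pow, hxi, hb]
      congr 1
      exact lift12_y (RingHom.id B) u b (pnt_h f h)
  have hc : spMap (g1 B f) ≫ HX.in1 B f = spMap (g2 B f) ≫ HX.in2 B f := pushout.condition
  rw [← e2, ← spMap_comp', Category.assoc, ← hc, ← Category.assoc, spMap_comp', e1]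
  rfl

theorem inv_aux (hASW : Stmt_ASW) {B : Type} [CommRing B] (f f' : Fin 7 → B) (hf : f' = rev f)
    (a b a' b' : Fin n → B) (h : ∀ i, b i ^ 2 = pol f (a i)) (h' : ∀ i, b' i ^ 2 = pol f' (a' i))
    (haa : ∀ i, a i * a' i = 1) (hbb : ∀ i, b' i = b i * a' i ^ 3) :
    Nonempty (Arrow (RingHom.id B) (HypS f' a' b' h') (HypS f a b h)) := by
  subst hf
  obtain ⟨e, he⟩ := hASW f
  refine ⟨arrS e h h' fun i => ?_⟩
  have h1 : pnt (rev f) (a' i) (b' i) (h' i) ≫ e.f = pnt f (a i) (b i) (h i) :=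
    (Category.assoc _ _ _).trans ((congrArg (fun z => spMap (lift1 (RingHom.id B) (a' i) (b' i)
      (pnt_h (rev f) (h' i))) ≫ z) he).trans (pnt_inf f (h i) (h' i) (haa i) (hbb i)))
  rw [h1]
  have h3 : spMap (RingHom.id B) = 𝟙 (Sp B) := Spec.map_id _
  rw [h3]
  exact (Category.id_comp _).symm

theorem VN_inv (hASW : Stmt_ASW) {B : Type} [CommRing B] [Algebra ℂ B] (f : B[X])
    (a b a' b' : Fin n → B) (h : OnC f a b) (h' : OnC (f.reflect 6) a' b')
    (haa : ∀ i, a i * a' i = 1) (hbb : ∀ i, b' i = b i * a' i ^ 3) :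
    VN F hNPT hYHT B (f.reflect 6) a' b' = VN F hNPT hYHT B f a b := by
  rw [VN_eq F hNPT hYHT h, VN_eq F hNPT hYHT h']
  obtain ⟨e⟩ := inv_aux hASW (cf7 f) (cf7 (f.reflect 6)) cf7_reflect a b a' b' (onh h) (onh h')
    haa hbb
  exact val0' F _ _ e

theorem VN_mv (hNMA : Stmt_NMA) {K : Type} [Field K] [IsAlgClosed K] [Algebra ℂ K] (f : K[X])
    (a b a' b' : Fin n → K) (h : OnC f a b) (h' : OnC f a' b') :
    VN F hNPT hYHT K f a b = VN F hNPT hYHT K f a' b' := by
  rw [VN_eq F hNPT hYHT h, VN_eq F hNPT hYHT h']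
  have hpi : ∀ {x y x' y' : K} (e1 : y ^ 2 = pol (cf7 f) x) (e2 : y' ^ 2 = pol (cf7 f) x'),
      pnt (cf7 f) x y e1 = pnt (cf7 f) x' y' e2 → x = x' := by
    intro x y x' y' e1 e2 e
    exact pnt_inj (RingHom.id K) e1 e2 (by rw [e])
  have hst := hYHT (cf7 f) (hsm h.good)
  refine hNMA 2 le_rfl F (Hyp (cf7 f)) hst (sm_hyp two_unit h.good) ?_ _ _ _ _ ?_ ?_ _ _
  · let sq : ∀ x : K, ∃ y : K, y ^ 2 = pol (cf7 f) x :=
      fun x => IsAlgClosed.exists_pow_nat_eq _ (by norm_num)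
    have hinf : Infinite K := Infinite.of_injective _ (algebraMap ℂ K).injective
    refine Set.infinite_of_injective_forall_mem
      (f := fun x : K => pnt (cf7 f) x (sq x).choose (sq x).choose_spec) ?_ ?_
    · intro x x' e
      exact hpi _ _ e
    · intro x
      exact pnt_pr (cf7 f) x _ _
  · intro i j e
    by_contra hc
    exact (h.dj i j hc).ne_zero (by rw [hpi _ _ e, sub_self])
  · intro i j e
    by_contra hc
    exact (h'.dj i j hc).ne_zero (by rw [hpi _ _ e, sub_self])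

end fields

end GeoN

end Pool.Agent.MG.H2


end

section

/-!
# The rings of the charts of the curves `y² = f(x)` (module H2_HRG)
-/

open CategoryTheory CategoryTheory.Limits AlgebraicGeometry TensorProduct

namespace Pool.Agent.MG.H2

namespace HRG

section

variable {B : Type} [CommRing B] (f : Fin 7 → B)

/-- `p(x) + q(x) y` -/
noncomputable def vl (p q : Polynomial B) : A1 B f :=
  Polynomial.aeval (x1 B f) p + Polynomial.aeval (x1 B f) q * y1 B f

/-- The ring `R[ω]`, `ω² = F`. -/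
abbrev QA {R : Type} [CommRing R] (F : R) : Type := QuadraticAlgebra R F 0

/-- The embedding of `R`. -/
def al {R : Type} [CommRing R] (F : R) : R →+* QA F := algebraMap R (QuadraticAlgebra R F 0)

/-- The element `ω` of a quadratic algebra. -/
def om {R : Type} [CommRing R] (F : R) : QA F := ⟨0, 1⟩

theorem om_sq {R : Type} [CommRing R] (F : R) : om F ^ 2 = al F F := by
  rw [pow_two]
  ext
  · simp [om, al]
  · simp [om, al]

theorem mk_om {R : Type} [CommRing R] (F p q : R) : al F p + al F q * om F = ⟨p, q⟩ := by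
  ext
  · simp [om, al]
  · simp [om, al]

/-- The polynomial `f`. -/
noncomputable def F1 : Polynomial B := pol (fun i => Polynomial.C (f i)) Polynomial.X

/-- The map of `A₁` to the quadratic algebra over `B[x]`. -/
noncomputable def psi1 : A1 B f →+* QA (F1 f) :=
  lift1 ((al (F1 f)).comp Polynomial.C) (al (F1 f) Polynomial.X) (om (F1 f)) (by
      rw [om_sq]
      unfold F1
      rw [pol_map]
      rfl)

theorem psi1_aeval (p : Polynomial B) :
    psi1 f (Polynomial.aeval (x1 B f) p) = al (F1 f) p := by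
  have h : (psi1 f).comp (Polynomial.aeval (x1 B f) : Polynomial B →ₐ[B] A1 B f).toRingHom =
      al (F1 f) := by
    refine Polynomial.ringHom_ext (fun a => ?_) ?_
    · show psi1 f (Polynomial.aeval (x1 B f) (Polynomial.C a)) = _
      rw [Polynomial.aeval_C, psi1, lift1_b]
      rfl
    · show psi1 f (Polynomial.aeval (x1 B f) Polynomial.X) = _
      rw [Polynomial.aeval_X, psi1, lift1_x]
  exact RingHom.congr_fun h p

theorem psi1_vl (p q : Polynomial B) : psi1 f (vl f p q) = ⟨p, q⟩ := by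
  have hy : psi1 f (y1 B f) = om (F1 f) := lift1_y _ _ _ _
  rw [vl, map_add, map_mul, psi1_aeval, psi1_aeval, hy, mk_om]

theorem exists_vl (v : A1 B f) : ∃ p q : Polynomial B, v = vl f p q := by
  obtain ⟨v, rfl⟩ := Ideal.Quotient.mk_surjective v
  induction v using MvPolynomial.induction_on with
  | C c =>
    refine ⟨Polynomial.C c, 0, ?_⟩
    unfold vl
    rw [Polynomial.aeval_C, map_zero, zero_mul, add_zero]
    rfl
  | add v w hv hw =>
    obtain ⟨p, q, h⟩ := hv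
    obtain ⟨p', q', h'⟩ := hw
    refine ⟨p + p', q + q', ?_⟩
    rw [map_add, h, h']
    unfold vl
    rw [map_add, map_add]
    ring
  | mul_X v i hv =>
    obtain ⟨p, q, h⟩ := hv
    rw [map_mul, h]
    fin_cases i
    · refine ⟨p * Polynomial.X, q * Polynomial.X, ?_⟩
      show vl f p q * x1 B f = _
      unfold vl
      rw [map_mul, map_mul, Polynomial.aeval_X]
      ring
    · refine ⟨q * F1 f, p, ?_⟩
      show vl f p q * y1 B f = _
      unfold vl
      have h1 := rel1 B f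
      have h2 : Polynomial.aeval (x1 B f) (F1 f) = pol (fun i => algebraMap B _ (f i)) (x1 B f) := by
        unfold F1
        have h3 := pol_map (Polynomial.aeval (x1 B f) : Polynomial B →ₐ[B] A1 B f).toRingHom
          (fun i => Polynomial.C (f i)) Polynomial.X
        refine h3.trans ?_
        show pol (fun i => Polynomial.aeval (x1 B f) (Polynomial.C (f i)))
          (Polynomial.aeval (x1 B f) Polynomial.X) = _
        simp only [Polynomial.aeval_X, Polynomial.aeval_C]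
      rw [map_mul, h2, ← h1]
      ring

theorem vl_inj {p q p' q' : Polynomial B} (h : vl f p q = vl f p' q') : p = p' ∧ q = q' := by
  have h1 := congrArg (psi1 f) h
  rw [psi1_vl, psi1_vl] at h1
  exact ⟨congrArg QuadraticAlgebra.re h1, congrArg QuadraticAlgebra.im h1⟩

theorem x_reg (v : A1 B f) (h : x1 B f * v = 0) : v = 0 := by
  obtain ⟨p, q, rfl⟩ := exists_vl f v
  have h1 : x1 B f * vl f p q = vl f (Polynomial.X * p) (Polynomial.X * q) := by
    unfold vl
    rw [map_mul, map_mul, Polynomial.aeval_X]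
    ring
  have h2 : vl f (Polynomial.X * p) (Polynomial.X * q) = vl f 0 0 := by
    rw [← h1, h]
    unfold vl
    rw [map_zero, zero_mul, add_zero]
  obtain ⟨h3, h4⟩ := vl_inj f h2
  have h5 : p = 0 := by
    ext n
    have := congrArg (fun r => Polynomial.coeff r (n + 1)) h3
    simpa [Polynomial.coeff_X_mul] using this
  have h6 : q = 0 := by
    ext n
    have := congrArg (fun r => Polynomial.coeff r (n + 1)) h4
    simpa [Polynomial.coeff_X_mul] using this
  rw [h5, h6]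
  unfold vl
  rw [map_zero, zero_mul, add_zero]

theorem g1_inj : Function.Injective (g1 B f) := by
  refine IsLocalization.injective (A12 B f) (M := Submonoid.powers (x1 B f)) ?_
  rw [Submonoid.powers_le, mem_nonZeroDivisors_iff_right]
  intro v hv
  exact x_reg f v (by rw [mul_comm]; exact hv)

theorem g2_inj : Function.Injective (g2 B f) := by
  unfold g2
  have h : Function.Injective (inv12 (rev_h f)) := (invEquiv (rev_h f) (rev_h' f)).injective
  exact h.comp (g1_inj (rev f))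

/-! ### The intersection -/

/-- Evaluation of Laurent polynomials at `x`. -/
noncomputable def ev : LaurentPolynomial B →+* A12 B f :=
  LaurentPolynomial.eval₂ (algebraMap B (A12 B f)) (xu B f)

theorem ev_toLaurent (p : Polynomial B) :
    ev f (Polynomial.toLaurent p) = g1 B f (Polynomial.aeval (x1 B f) p) := by
  unfold ev
  rw [LaurentPolynomial.eval₂_toLaurent, Polynomial.aeval_def, Polynomial.hom_eval₂]
  rfl

/-- The unit `T`. -/
noncomputable def TU : (LaurentPolynomial B)ˣ := (LaurentPolynomial.isUnit_T 1).unit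

/-- The Laurent polynomial `f`. -/
noncomputable def F12 : LaurentPolynomial B :=
  pol (fun i => LaurentPolynomial.C (f i)) (LaurentPolynomial.T 1)

/-- The map of `A₁₂` to the quadratic algebra over `B[x, 1/x]`. -/
noncomputable def psi12 : A12 B f →+* QA (F12 f) :=
  lift12 ((al (F12 f)).comp LaurentPolynomial.C)
    (Units.map (al (F12 f)).toMonoidHom TU) (om (F12 f)) (by
      rw [om_sq]
      unfold F12
      rw [pol_map]
      rfl)

theorem psi12_ev (p : LaurentPolynomial B) : psi12 f (ev f p) = al (F12 f) p := by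
  have h : (psi12 f).comp (ev f) = al (F12 f) := by
    refine IsLocalization.ringHom_ext (Submonoid.powers (Polynomial.X : Polynomial B)) ?_
    refine Polynomial.ringHom_ext (fun a => ?_) ?_
    · show psi12 f (ev f (Polynomial.toLaurent (Polynomial.C a))) =
        al (F12 f) (Polynomial.toLaurent (Polynomial.C a))
      rw [ev_toLaurent, Polynomial.aeval_C, g1_b, psi12, lift12_b, Polynomial.toLaurent_C]
      rfl
    · show psi12 f (ev f (Polynomial.toLaurent (Polynomial.X : Polynomial B))) =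
        al (F12 f) (Polynomial.toLaurent (Polynomial.X : Polynomial B))
      rw [ev_toLaurent, Polynomial.aeval_X, ← xu_val, psi12, lift12_x, Polynomial.toLaurent_X]
      rfl
  exact RingHom.congr_fun h p

theorem psi12_pair (p q : LaurentPolynomial B) : psi12 f (ev f p + ev f q * yv B f) = ⟨p, q⟩ := by
  have hy : psi12 f (yv B f) = om (F12 f) := lift12_y _ _ _ _
  rw [map_add, map_mul, psi12_ev, psi12_ev, hy, mk_om]

theorem exists_pair (v : A12 B f) :
    ∃ p q : LaurentPolynomial B, v = ev f p + ev f q * yv B f := by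
  obtain ⟨n, w, hw⟩ := IsLocalization.Away.surj (x1 B f) v
  obtain ⟨p, q, rfl⟩ := exists_vl f w
  refine ⟨LaurentPolynomial.T (-n) * Polynomial.toLaurent p,
    LaurentPolynomial.T (-n) * Polynomial.toLaurent q, ?_⟩
  have h1 : v * (xu B f : A12 B f) ^ n = g1 B f (vl f p q) := hw
  have h2 : ev f (LaurentPolynomial.T (-n)) = ((xu B f)⁻¹ : (A12 B f)ˣ).val ^ n := by
    unfold ev
    rw [LaurentPolynomial.eval₂_T_neg_n]
  have h3 : ((xu B f)⁻¹ : (A12 B f)ˣ).val ^ n * (xu B f : A12 B f) ^ n = 1 := by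
    rw [← mul_pow, Units.inv_mul, one_pow]
  have h4 : v = ((xu B f)⁻¹ : (A12 B f)ˣ).val ^ n * g1 B f (vl f p q) := by
    rw [← h1]
    linear_combination (-v) * h3
  rw [h4, map_mul, map_mul, h2, ev_toLaurent, ev_toLaurent, vl, map_add, map_mul, g1_y]
  ring

end

end HRG

open _root_.Pool.Agent.MG.H2.HRG in
theorem t_HRG : Stmt_HRG := by
  intro B _ f
  refine ⟨?_, HRG.g1_inj f, HRG.g2_inj f, ?_⟩
  · intro v
    obtain ⟨p, q, rfl⟩ := exists_vl f v
    refine ⟨(p, q), rfl, ?_⟩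
    rintro ⟨p', q'⟩ h
    have h1 : vl f p q = vl f p' q' := h
    obtain ⟨h2, h3⟩ := vl_inj f h1
    rw [h2, h3]
  · intro v
    obtain ⟨p, q, rfl⟩ := exists_pair f v
    refine ⟨(p, q), rfl, ?_⟩
    rintro ⟨p', q'⟩ h
    have h1 : HRG.ev f p + HRG.ev f q * yv B f = HRG.ev f p' + HRG.ev f q' * yv B f := h
    have h2 := congrArg (psi12 f) h1
    rw [psi12_pair, psi12_pair] at h2
    have h3 : p = p' := congrArg QuadraticAlgebra.re h2
    have h4 : q = q' := congrArg QuadraticAlgebra.im h2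
    rw [h3, h4]

end Pool.Agent.MG.H2


end

section

/-!
# CFF: the rings of the charts are free and formally smooth
-/

open Polynomial

namespace Pool.Agent.MG.H2

namespace CFF62

variable {B : Type} [CommRing B] {f : Fin 7 → B}

theorem pp_val {R : Type} [CommRing R] [Algebra B R] (x : R) :
    aeval x (pp B f) = pol (fun i => algebraMap B R (f i)) x := by
  change (aeval x : B[X] →ₐ[B] R).toRingHom (pp B f) = _
  rw [pp, pol_map]
  simp

/-- `(p, q) ↦ p(x) + q(x) y` -/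
noncomputable def lin1 (f : Fin 7 → B) : (B[X] × B[X]) →ₗ[B] A1 B f where
  toFun pq := HRG.vl f pq.1 pq.2
  map_add' a b := by
    simp only [HRG.vl, Prod.fst_add, Prod.snd_add, map_add]
    ring
  map_smul' c a := by
    simp only [HRG.vl, Prod.smul_fst, Prod.smul_snd, map_smul, RingHom.id_apply, smul_add,
      smul_mul_assoc]

theorem lin1_bij : Function.Bijective (lin1 f) := by
  constructor
  · rintro ⟨p, q⟩ ⟨p', q'⟩ h
    obtain ⟨h1, h2⟩ := HRG.vl_inj f h
    exact Prod.ext h1 h2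
  · intro v
    obtain ⟨p, q, h⟩ := HRG.exists_vl f v
    exact ⟨(p, q), h.symm⟩

theorem free1 (f : Fin 7 → B) : Module.Free B (A1 B f) :=
  Module.Free.of_equiv (LinearEquiv.ofBijective (lin1 f) lin1_bij)

theorem ev_smul (c : B) (p : LaurentPolynomial B) :
    HRG.ev f (c • p) = c • HRG.ev f p := by
  rw [LaurentPolynomial.smul_eq_C_mul, map_mul, Algebra.smul_def]
  congr 1
  exact LaurentPolynomial.eval₂_C _ _ _

/-- `(p, q) ↦ p(x) + q(x) y` for Laurent polynomials -/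
noncomputable def lin12 (f : Fin 7 → B) :
    (LaurentPolynomial B × LaurentPolynomial B) →ₗ[B] A12 B f where
  toFun pq := HRG.ev f pq.1 + HRG.ev f pq.2 * yv B f
  map_add' a b := by
    simp only [Prod.fst_add, Prod.snd_add, map_add]
    ring
  map_smul' c a := by
    simp only [Prod.smul_fst, Prod.smul_snd, ev_smul, RingHom.id_apply, smul_add,
      smul_mul_assoc]

theorem lin12_bij : Function.Bijective (lin12 f) := by
  constructor
  · rintro ⟨p, q⟩ ⟨p', q'⟩ h
    have h1 : HRG.ev f p + HRG.ev f q * yv B f = HRG.ev f p' + HRG.ev f q' * yv B f := h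
    have h2 := congrArg (HRG.psi12 f) h1
    rw [HRG.psi12_pair, HRG.psi12_pair] at h2
    have h3 : p = p' := congrArg QuadraticAlgebra.re h2
    have h4 : q = q' := congrArg QuadraticAlgebra.im h2
    rw [h3, h4]
  · intro v
    obtain ⟨p, q, h⟩ := HRG.exists_pair f v
    exact ⟨(p, q), h.symm⟩

theorem free12 (f : Fin 7 → B) : Module.Free B (A12 B f) :=
  Module.Free.of_equiv (LinearEquiv.ofBijective (lin12 f) lin12_bij)

theorem solve {R : Type} [CommRing R] (h y e F F' A C : R) (h2 : 2 * h = 1)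
    (hB : A * F + C * F' = 1) (he : e * e = 0) (hy : y ^ 2 = F + e) :
    (y - h * A * y * e) ^ 2 = F + F' * (C * e) := by
  linear_combination (1 - 2 * h * A * e) * hy + (h ^ 2 * A ^ 2 * y ^ 2 - 2 * h * A) * he -
    e * hB - A * F * e * h2

theorem smooth1 (A C₁ : B[X]) (h : Bez f A C₁) (h2 : IsUnit (2 : B)) :
    Algebra.FormallySmooth B (A1 B f) := by
  refine Algebra.FormallySmooth.of_comp_surjective ?_
  intro R _ _ I hI g
  obtain ⟨x0, hx0⟩ := Ideal.Quotient.mk_surjective (g (x1 B f))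
  obtain ⟨y0, hy0⟩ := Ideal.Quotient.mk_surjective (g (y1 B f))
  obtain ⟨t, ht⟩ := h2.exists_left_inv
  have ht' : 2 * algebraMap B R t = 1 := by
    rw [← map_one (algebraMap B R), ← ht, map_mul, map_ofNat, mul_comm]
  have hBz : aeval x0 A * aeval x0 (pp B f) + aeval x0 C₁ * aeval x0 (derivative (pp B f)) =
      1 := by
    rw [← map_mul, ← map_mul, ← map_add, h, map_one]
  set e : R := y0 ^ 2 - aeval x0 (pp B f) with he
  have heI : e ∈ I := by
    rw [← Ideal.Quotient.eq_zero_iff_mem, he, map_sub, map_pow, hy0]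
    have h3 : Ideal.Quotient.mk I (aeval x0 (pp B f)) = aeval (g (x1 B f)) (pp B f) := by
      rw [← hx0]
      exact (aeval_algHom_apply (Ideal.Quotient.mkₐ B I) x0 (pp B f)).symm
    rw [h3, aeval_algHom_apply g, pp_val, ← rel1, map_pow, sub_self]
  have hee : e * e = 0 := by
    have h3 : e * e ∈ I ^ 2 := by
      rw [pow_two]
      exact Ideal.mul_mem_mul heI heI
    rw [hI] at h3
    exact h3
  have hre : (y0 - algebraMap B R t * aeval x0 A * y0 * e) ^ 2 =
      pol (fun i => algebraMap B R (f i)) (x0 + aeval x0 C₁ * e) := by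
    rw [← pp_val, aeval_add_of_sq_eq_zero _ _ _ (by rw [mul_pow, pow_two e, hee, mul_zero])]
    exact solve _ _ _ _ _ _ _ ht' hBz hee (by rw [he]; ring)
  let φ : A1 B f →ₐ[B] R :=
    { lift1 (algebraMap B R) (x0 + aeval x0 C₁ * e)
        (y0 - algebraMap B R t * aeval x0 A * y0 * e) hre with
      commutes' := fun c => lift1_b _ _ _ hre c }
  have hφx : φ (x1 B f) = x0 + aeval x0 C₁ * e := lift1_x _ _ _ hre
  have hφy : φ (y1 B f) = y0 - algebraMap B R t * aeval x0 A * y0 * e := lift1_y _ _ _ hre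
  have he0 : Ideal.Quotient.mk I e = 0 := Ideal.Quotient.eq_zero_iff_mem.2 heI
  refine ⟨φ, ?_⟩
  have h4 : ((Ideal.Quotient.mkₐ B I).comp φ).toRingHom = g.toRingHom := by
    refine hom1_ext (fun c => ?_) ?_ ?_
    · change Ideal.Quotient.mkₐ B I (φ (algebraMap B _ c)) = g (algebraMap B _ c)
      rw [AlgHom.commutes, AlgHom.commutes, AlgHom.commutes]
    · change Ideal.Quotient.mk I (φ (x1 B f)) = g (x1 B f)
      rw [hφx, map_add, map_mul, he0, mul_zero, add_zero, hx0]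
    · change Ideal.Quotient.mk I (φ (y1 B f)) = g (y1 B f)
      rw [hφy, map_sub, map_mul, he0, mul_zero, sub_zero, hy0]
  exact AlgHom.ext fun v => RingHom.congr_fun h4 v

theorem smooth12 (A C₁ : B[X]) (h : Bez f A C₁) (h2 : IsUnit (2 : B)) :
    Algebra.FormallySmooth B (A12 B f) := by
  have := smooth1 A C₁ h h2
  infer_instance

end CFF62

theorem t_CFF : Stmt_CFF := fun _ _ f =>
  ⟨CFF62.free1 f, CFF62.free12 f, fun A C₁ h h2 =>
    ⟨CFF62.smooth1 A C₁ h h2, CFF62.smooth12 A C₁ h h2⟩⟩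

end Pool.Agent.MG.H2


end

section

/-!
# The curves `y² = f(x)` with the covectors `q(x) (dx)²/f(x)`: arrows
-/

open CategoryTheory CategoryTheory.Limits AlgebraicGeometry Polynomial

namespace Pool.Agent.MG.H2

/-! ## The arrows of marked curves -/

theorem t_ASC : Stmt_ASC := by
  intro B _ α β f f' hα hβ h
  obtain ⟨lam, rfl⟩ := hα
  obtain ⟨nu, rfl⟩ := hβ
  have h' : IsSc (lam : B) (nu : B) f f' := h
  exact ⟨arrSC h', sc1 h', sc1_b h', sc1_x h', sc1_y h', arrSC_in1 h'⟩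

theorem t_ATR : Stmt_ATR := by
  intro B _ e f f' he h
  exact ⟨arrTR he h, tr1 he h, fun c => by simp, by simp, by simp, arrTR_in1 he h⟩

theorem t_ASW : Stmt_ASW := by
  intro B _ f
  refine ⟨arrSW (f := f) (f' := rev f) fun i => rfl, ?_⟩
  rw [arrSW_in1]
  have e : sw1 (f := f) (f' := rev f) (fun i => rfl) = RingHom.id (A1 B (rev f)) := by
    refine hom1_ext (fun c => ?_) ?_ ?_
    · exact bc1_b _ _ _
    · exact bc1_x _ _
    · exact bc1_y _ _
  rw [e, spMap_id, Category.id_comp]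

/-! ## The fields of `Mdl` -/

namespace GeoA

section hok

variable {B : Type} [CommRing B]

theorem dpol_pp (f : Fin 7 → B) : dpol (fun i => C (f i)) (X : B[X]) = derivative (pp B f) := by
  simp only [dpol, pp, pol, derivative_add, derivative_mul, derivative_C, derivative_X_pow,
    derivative_X, zero_mul, zero_add, mul_one]
  simp only [Nat.cast_ofNat, map_ofNat, Nat.add_one_sub_one, pow_one]
  ring

/-- The Bezout identity. -/
noncomputable def bz {f : Fin 7 → B} (h : IsCoprime (pp B f) (derivative (pp B f))) : Bz f where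
  a := h.choose
  b := h.choose_spec.choose
  h := by
    have := h.choose_spec.choose_spec
    rw [dpol_pp]
    exact this

theorem fsm (h2 : IsUnit (2 : B)) {f : Fin 7 → B}
    (h : IsCoprime (pp B f) (derivative (pp B f))) :
    (algebraMap B (A12 B f)).FormallySmooth := by
  obtain ⟨a, b, hab⟩ := h
  exact RingHom.formallySmooth_algebraMap.2 ((t_CFF B f).2.2 a b hab h2).2

/-- Smoothness. -/
noncomputable def hok' {f : Fin 7 → B} (h : HSm B f) : HOk f where
  z := bz h.s1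
  z' := bz h.s2
  sm := fsm h.two h.s1
  sm' := fsm h.two h.s2

end hok

section fields

variable {B : Type} [CommRing B] [Algebra ℂ B]

/-- Smoothness. -/
noncomputable def hok {f : B[X]} (hf : Two2.Good f) : HOk (cf7 f) := hok' (GeoN.hsm hf)

variable (B) in
/-- `1/2` -/
noncomputable def half : B := algebraMap ℂ B (1 / 2)

theorem two_half : 2 * half B = 1 := by
  rw [half, ← map_ofNat (algebraMap ℂ B), ← map_mul]
  norm_num

/-- The coefficients of the covector of `q`. -/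
def cq (q : B[X]) : Fin 3 → B := ![q.coeff 0, -q.coeff 1, q.coeff 2]

/-- The covector of `q`. -/
noncomputable def cv (f : B[X]) (hf : Two2.Good f) (q : B[X]) : Cov 2 (Hyp (cf7 f)) :=
  hcov (hok hf) (half B) (cq q) 2

theorem m_bc {B' : Type} [CommRing B'] [Algebra ℂ B'] (φ : B →ₐ[ℂ] B')
    (f q : B[X]) (hf : Two2.Good f) (hf' : Two2.Good (f.map (φ : B →+* B'))) :
    ∃ a : Arrow (φ : B →+* B') (Hyp (cf7 (f.map (φ : B →+* B')))) (Hyp (cf7 f)),
      Compat a (cv (f.map (φ : B →+* B')) hf' (q.map (φ : B →+* B'))) (cv f hf q) := by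
  refine ⟨arrBC (φ : B →+* B') (cf7_map _ f), ?_⟩
  refine arrBC_compat (φ : B →+* B') (cf7_map _ f) _ _ _ _ _ _ ?_ ?_ 2
  · exact (φ.commutes _).symm
  · intro j
    fin_cases j
    · exact coeff_map _ _
    · change -(q.map (φ : B →+* B')).coeff 1 = (φ : B →+* B') (-q.coeff 1)
      rw [coeff_map, map_neg]
    · exact coeff_map _ _

theorem m_sc (a b : B) (f q f' q' : B[X]) (hf : Two2.Good f)
    (hf' : Two2.Good f') (ha : IsUnit a) (hb : IsUnit b)
    (hff : C (b ^ 2) * f' = f.comp (C a * X))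
    (hqq : C (b ^ 2) * q' = C (a ^ 2) * q.comp (C a * X)) :
    ∃ r : Arrow (RingHom.id B) (Hyp (cf7 f')) (Hyp (cf7 f)),
      Compat r (cv f' hf' q') (cv f hf q) := by
  obtain ⟨lam, rfl⟩ := ha
  obtain ⟨nu, rfl⟩ := hb
  have h' : IsSc (lam : B) (nu : B) (cf7 f) (cf7 f') := by
    intro i
    have := congrArg (fun p => coeff p (i : ℕ)) hff
    simp only [coeff_C_mul, comp_C_mul_X_coeff] at this
    rw [cf7, cf7, this, mul_comm]
  have hq : ∀ j : ℕ, (nu : B) ^ 2 * q'.coeff j = (lam : B) ^ (2 + j) * q.coeff j := by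
    intro j
    have := congrArg (fun p => coeff p j) hqq
    simp only [coeff_C_mul, comp_C_mul_X_coeff] at this
    rw [this]
    ring
  refine ⟨arrSC h', arrSC_compat h' _ _ _ _ _ ?_ 2⟩
  intro j
  fin_cases j
  · exact hq 0
  · change (nu : B) ^ 2 * (-q'.coeff 1) = (lam : B) ^ (2 + 1) * (-q.coeff 1)
    rw [mul_neg, mul_neg, hq 1]
  · exact hq 2

theorem comp_coeffs {q : B[X]} (hq : q.natDegree ≤ 2) {e : B} (he : e * e = 0) :
    (q.comp (X + C e)).coeff 0 = q.coeff 0 + e * q.coeff 1 ∧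
    (q.comp (X + C e)).coeff 1 = q.coeff 1 + 2 * e * q.coeff 2 ∧
    (q.comp (X + C e)).coeff 2 = q.coeff 2 := by
  have h2 : e ^ 2 = 0 := by rw [sq, he]
  have h := Polynomial.eval_add_of_sq_eq_zero (q.map C) X (C e) (by rw [← C_pow, h2, C_0])
  rw [Polynomial.eval_map, Polynomial.eval_map, derivative_map, Polynomial.eval_map, eval₂_C_X,
    eval₂_C_X] at h
  have h' : q.comp (X + C e) = q + derivative q * C e := h
  have h3 : q.coeff 3 = 0 := coeff_eq_zero_of_natDegree_lt (by omega)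
  refine ⟨?_, ?_, ?_⟩
  · rw [h', coeff_add, coeff_mul_C, coeff_derivative]
    push_cast
    ring
  · rw [h', coeff_add, coeff_mul_C, coeff_derivative]
    push_cast
    ring
  · rw [h', coeff_add, coeff_mul_C, coeff_derivative, h3]
    ring

theorem m_tr (e : B) (f q : B[X]) (hf : Two2.Good f)
    (hf' : Two2.Good (f.comp (X + C e))) (he : e * e = 0) (hq : q.natDegree ≤ 2) :
    ∃ r : Arrow (RingHom.id B) (Hyp (cf7 (f.comp (X + C e)))) (Hyp (cf7 f)),
      Compat r (cv _ hf' (q.comp (X + C e))) (cv f hf q) := by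
  obtain ⟨h0, h1, h2⟩ := comp_coeffs hq he
  have h := GeoN.isTr_comp e he hf.deg
  refine ⟨arrTR he h, arrTR_compat he h _ _ _ two_half _ _ ?_ ?_ ?_ 2⟩
  · change q.coeff 0 = (q.comp (X + C e)).coeff 0 + e * (-(q.comp (X + C e)).coeff 1)
    rw [h0, h1]
    linear_combination (2 * q.coeff 2) * he
  · change -q.coeff 1 = -(q.comp (X + C e)).coeff 1 + 2 * e * (q.comp (X + C e)).coeff 2
    rw [h1, h2]
    ring
  · exact h2.symm

theorem m_inv (f q : B[X]) (hf : Two2.Good f) (hf' : Two2.Good (f.reflect 6)) :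
    ∃ r : Arrow (RingHom.id B) (Hyp (cf7 (f.reflect 6))) (Hyp (cf7 f)),
      Compat r (cv _ hf' (q.reflect 2)) (cv f hf q) := by
  have h : ∀ i, cf7 (f.reflect 6) i = cf7 f (Fin.rev i) := fun i => congrFun cf7_reflect i
  refine ⟨arrSW h, arrSW_compat h _ _ _ _ _ ?_ 2⟩
  have e0 : (q.reflect 2).coeff 0 = q.coeff 2 := by
    rw [coeff_reflect, revAt_le (by norm_num)]
  have e1 : (q.reflect 2).coeff 1 = q.coeff 1 := by
    rw [coeff_reflect, revAt_le (by norm_num)]
  have e2 : (q.reflect 2).coeff 2 = q.coeff 0 := by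
    rw [coeff_reflect, revAt_le (by norm_num)]
  intro j
  fin_cases j
  · exact e0
  · exact congrArg Neg.neg e1
  · exact e2

theorem m_link {K : Type} [Field K] (r : Fin 6 → K) :
    ∃ a : Arrow (RingHom.id K) (Hyp (rts r)) (Hyp (cf7 (∏ i, (X - C (r i))))), IsIso a.f :=
  ⟨isoArr (x := Hyp (rts r)) (y := Hyp (cf7 (∏ i, (X - C (r i))))) (𝟙 (Hyp (rts r)).X)
    (IsIso.id _) (Category.id_comp _), IsIso.id (Hyp (rts r)).X⟩

end fields

end GeoA

end Pool.Agent.MG.H2


end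

section

/-!
# The remaining inputs of `Mdl`
-/

open CategoryTheory CategoryTheory.Limits AlgebraicGeometry Polynomial

namespace Pool.Agent.MG.H2

/-- VAL: the values of the covectors at the deformations moving one root. -/
def Stmt_VAL : Prop :=
  ∀ {K : Type} [Field K] [Algebra ℂ K] (r : Fin 6 → K), Function.Injective r →
    ∀ (o : HOk (rts r)), ∃ u : K, u ≠ 0 ∧ ∀ (c : Fin 3 → K) (i : Fin 6) (hs) (hc),
      (hcov o (GeoA.half K) c 2).l (dfm (rts r) (mvr r i) hs hc) =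
        u * (c 0 - c 1 * r i + c 2 * r i ^ 2) / dr r i

/-- REG: the family in which the curves degenerate to two elliptic curves. -/
def Stmt_REG : Prop :=
  ∀ {B K : Type} [CommRing B] [IsDomain B] [Field K] [Algebra ℂ B] [Algebra ℂ K]
    (φ : B →ₐ[ℂ] K), Function.Injective φ → ∀ (s : B) (ρ r e : Fin 3 → B), s ≠ 0 →
    (∀ i j, i ≠ j → IsUnit (ρ i - ρ j)) → (∀ i j, i ≠ j → IsUnit (r i - r j)) →
    (∀ j, IsUnit (r j)) → (∀ i j, IsUnit (r j - s ^ 2 * ρ i)) →
    ∀ (hf : Two2.Good (((∏ i, (X - C (ρ i))) *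
      ∏ j, (C (s ^ 2) * X - C (r j)) : B[X]).map (φ : B →+* K))),
    ∃ (x : Fam 0 B) (_ : IsStable 2 x) (l : Cov 2 x) (a : Arrow (φ : B →+* K)
      (Hyp (cf7 (((∏ i, (X - C (ρ i))) *
      ∏ j, (C (s ^ 2) * X - C (r j)) : B[X]).map (φ : B →+* K)))) x),
      Compat a (GeoA.cv _ hf ((C (e 0) + C (s * e 1) * X +
        C (s ^ 2 * e 2) * X ^ 2 : B[X]).map (φ : B →+* K))) l

end Pool.Agent.MG.H2


end

section

/-!
# YOR: the condition of stability for `∏ (X - ρ i) ∏ (s² X - r j)`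
-/

open Polynomial

namespace Pool.Agent.MG.H2

namespace YOR

/-! ### Coprimality and points of fields -/

theorem isCoprime_of_pts {A : Type} [CommRing A] (a b : A)
    (h : ∀ (L : Type) [Field L] (χ : A →+* L), ¬ (χ a = 0 ∧ χ b = 0)) : IsCoprime a b := by
  by_contra hc
  have hne : Ideal.span {a, b} ≠ ⊤ := by
    intro ht
    have h1 : (1 : A) ∈ Ideal.span {a, b} := by rw [ht]; trivial
    obtain ⟨u, v, huv⟩ := Ideal.mem_span_pair.1 h1
    exact hc ⟨u, v, huv⟩
  obtain ⟨m, hm, hle⟩ := Ideal.exists_le_maximal _ hne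
  let _ : Field (A ⧸ m) := Ideal.Quotient.field m
  refine h (A ⧸ m) (Ideal.Quotient.mk m) ⟨?_, ?_⟩
  · rw [Ideal.Quotient.eq_zero_iff_mem]
    exact hle (Ideal.subset_span (by simp))
  · rw [Ideal.Quotient.eq_zero_iff_mem]
    exact hle (Ideal.subset_span (by simp))

/-- A product of linear factors has no double zero at `a`, if at most one of them vanishes at `a`,
and this one is not constant. -/
theorem no_double {K ι : Type} [Field K] [Fintype ι] [DecidableEq ι] (u v : ι → K) (a : K)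
    (h : ∀ k, u k * a = v k → u k ≠ 0 ∧ ∀ l, l ≠ k → u l * a ≠ v l) :
    ¬ (eval a (∏ k, (C (u k) * X - C (v k))) = 0 ∧
      eval a (derivative (∏ k, (C (u k) * X - C (v k)))) = 0) := by
  rintro ⟨h1, h2⟩
  rw [eval_prod] at h1
  obtain ⟨k, -, hk⟩ := Finset.prod_eq_zero_iff.1 h1
  have hk' : u k * a = v k := by
    rw [eval_sub, eval_mul, eval_C, eval_X, eval_C, sub_eq_zero] at hk
    exact hk
  obtain ⟨h3, h4⟩ := h k hk'
  rw [← Finset.mul_prod_erase Finset.univ _ (Finset.mem_univ k), derivative_mul, eval_add,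
    eval_mul, eval_mul, hk, zero_mul, add_zero, derivative_sub, derivative_C, sub_zero,
    derivative_mul, derivative_C, zero_mul, zero_add, derivative_X, mul_one, eval_C,
    eval_prod] at h2
  rcases mul_eq_zero.1 h2 with h5 | h5
  · exact h3 h5
  · obtain ⟨l, hl, hl'⟩ := Finset.prod_eq_zero_iff.1 h5
    rw [eval_sub, eval_mul, eval_C, eval_X, eval_C, sub_eq_zero] at hl'
    exact h4 l (Finset.ne_of_mem_erase hl) hl'

/-! ### The coefficients -/

section

variable {R R' : Type} [CommRing R] [CommRing R']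

/-- The coefficients. -/
def pf (s : R) (ρ r : Fin 3 → R) : Fin 7 → R :=
  let P1 := -(ρ 0 + ρ 1 + ρ 2)
  let P2 := ρ 0 * ρ 1 + ρ 0 * ρ 2 + ρ 1 * ρ 2
  let P3 := -(ρ 0 * ρ 1 * ρ 2)
  let R2 := -(r 0 + r 1 + r 2)
  let R1 := r 0 * r 1 + r 0 * r 2 + r 1 * r 2
  let R0 := -(r 0 * r 1 * r 2)
  ![P3 * R0, P2 * R0 + s ^ 2 * P3 * R1, P1 * R0 + s ^ 2 * P2 * R1 + s ^ 4 * P3 * R2,
    R0 + s ^ 2 * P1 * R1 + s ^ 4 * P2 * R2 + s ^ 6 * P3, R1 + s ^ 2 * P1 * R2 + s ^ 4 * P2,
    R2 + s ^ 2 * P1, 1]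

theorem pf_map (φ : R →+* R') (s : R) (ρ r : Fin 3 → R) (i : Fin 7) :
    φ (pf s ρ r i) = pf (φ s) (fun i => φ (ρ i)) (fun i => φ (r i)) i := by
  fin_cases i <;> simp [pf]

theorem KK_pf (s : R) (ρ r : Fin 3 → R) {z ξ : R} (h : z * ξ = s ^ 2) :
    KK (pf s ρ r) z ξ = ((1 - ρ 0 * ξ) * (1 - ρ 1 * ξ) * (1 - ρ 2 * ξ)) *
      ((z - r 0) * (z - r 1) * (z - r 2)) := by
  have h2 : (z * ξ) ^ 2 = s ^ 4 := by rw [h]; ring
  have h3 : (z * ξ) ^ 3 = s ^ 6 := by rw [h]; ring
  simp only [KK, pf, Matrix.cons_val]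
  linear_combination
    (-((-(ρ 0 + ρ 1 + ρ 2)) * (r 0 * r 1 + r 0 * r 2 + r 1 * r 2) +
      (-(ρ 0 + ρ 1 + ρ 2)) * (-(r 0 + r 1 + r 2)) * z + (-(ρ 0 + ρ 1 + ρ 2)) * z ^ 2 +
      (ρ 0 * ρ 1 + ρ 0 * ρ 2 + ρ 1 * ρ 2) * (r 0 * r 1 + r 0 * r 2 + r 1 * r 2) * ξ +
      (-(ρ 0 * ρ 1 * ρ 2)) * (r 0 * r 1 + r 0 * r 2 + r 1 * r 2) * ξ ^ 2)) * h +
    (-((ρ 0 * ρ 1 + ρ 0 * ρ 2 + ρ 1 * ρ 2) * (-(r 0 + r 1 + r 2)) +
      (ρ 0 * ρ 1 + ρ 0 * ρ 2 + ρ 1 * ρ 2) * z +
      (-(ρ 0 * ρ 1 * ρ 2)) * (-(r 0 + r 1 + r 2)) * ξ)) * h2 + (ρ 0 * ρ 1 * ρ 2) * h3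

theorem EE_pf (s : R) (ρ r : Fin 3 → R) {z ξ : R} (h : z * ξ = s ^ 2) :
    EE (pf s ρ r) z ξ =
      -((ρ 0 * ξ * ((1 - ρ 1 * ξ) * (1 - ρ 2 * ξ)) + ρ 1 * ξ * ((1 - ρ 0 * ξ) * (1 - ρ 2 * ξ)) +
        ρ 2 * ξ * ((1 - ρ 0 * ξ) * (1 - ρ 1 * ξ))) * ((z - r 0) * (z - r 1) * (z - r 2))) -
      ((1 - ρ 0 * ξ) * (1 - ρ 1 * ξ) * (1 - ρ 2 * ξ)) *
        (z * ((z - r 1) * (z - r 2) + (z - r 0) * (z - r 2) + (z - r 0) * (z - r 1))) := by
  have h2 : (z * ξ) ^ 2 = s ^ 4 := by rw [h]; ring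
  simp only [EE, pf, Matrix.cons_val]
  linear_combination
    (-(-((-(ρ 0 + ρ 1 + ρ 2)) * (-(r 0 + r 1 + r 2)) * z) - 2 * (-(ρ 0 + ρ 1 + ρ 2)) * z ^ 2 +
      (ρ 0 * ρ 1 + ρ 0 * ρ 2 + ρ 1 * ρ 2) * (r 0 * r 1 + r 0 * r 2 + r 1 * r 2) * ξ +
      2 * (-(ρ 0 * ρ 1 * ρ 2)) * (r 0 * r 1 + r 0 * r 2 + r 1 * r 2) * ξ ^ 2)) * h +
    (-(-((ρ 0 * ρ 1 + ρ 0 * ρ 2 + ρ 1 * ρ 2) * z) +
      (-(ρ 0 * ρ 1 * ρ 2)) * (-(r 0 + r 1 + r 2)) * ξ)) * h2

/-- The polynomial of the chart `T`. -/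
theorem pp_T (s : R) (ρ r : Fin 3 → R) : pp R (pT (pf s ρ r) s) =
    (∏ i, (X - C (ρ i))) * ∏ j, (C (s ^ 2) * X - C (r j)) := by
  simp only [Fin.prod_univ_three, pp, pol, pT, pf, Matrix.cons_val, map_add, map_mul, map_neg,
    map_pow, map_one]
  ring

/-- The polynomial of the chart `Q`. -/
theorem pp_Q (s : R) (ρ r : Fin 3 → R) : pp R (pT (rev (pf s ρ r)) s) =
    (∏ i, (C (-(s ^ 2 * ρ i)) * X - C (-1))) * ∏ j, (C (-(r j)) * X - C (-1)) := by
  have e0 : rev (pf s ρ r) 0 = pf s ρ r 6 := rfl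
  have e1 : rev (pf s ρ r) 1 = pf s ρ r 5 := rfl
  have e2 : rev (pf s ρ r) 2 = pf s ρ r 4 := rfl
  have e3 : rev (pf s ρ r) 3 = pf s ρ r 3 := rfl
  have e4 : rev (pf s ρ r) 4 = pf s ρ r 2 := rfl
  have e5 : rev (pf s ρ r) 5 = pf s ρ r 1 := rfl
  have e6 : rev (pf s ρ r) 6 = pf s ρ r 0 := rfl
  simp only [Fin.prod_univ_three, pp, pol, pT, Matrix.cons_val]
  simp only [e0, e1, e2, e3, e4, e5, e6]
  simp only [pf, Matrix.cons_val, map_add, map_mul, map_neg, map_pow, map_one]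
  ring

end

/-- The conditions for `ρ`, `r` in a field. -/
structure Cond {K : Type} [Field K] (s : K) (ρ r : Fin 3 → K) : Prop where
  hρ : ∀ i j, i ≠ j → ρ i - ρ j ≠ 0
  hr : ∀ i j, i ≠ j → r i - r j ≠ 0
  h0 : ∀ j, r j ≠ 0
  hc : ∀ i j, r j - s ^ 2 * ρ i ≠ 0

variable {K : Type} [Field K] {s : K} {ρ r : Fin 3 → K}

theorem Cond.no_T (D : Cond s ρ r) (a : K) :
    ¬ (eval a (∏ k : Fin 3 ⊕ Fin 3, (C (Sum.elim (fun _ => 1) (fun _ => s ^ 2) k) * X -
        C (Sum.elim ρ r k))) = 0 ∧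
      eval a (derivative (∏ k : Fin 3 ⊕ Fin 3, (C (Sum.elim (fun _ => 1) (fun _ => s ^ 2) k) * X -
        C (Sum.elim ρ r k)))) = 0) := by
  refine no_double _ _ a ?_
  rintro (i | j) h
  · rw [Sum.elim_inl, Sum.elim_inl, one_mul] at h
    refine ⟨one_ne_zero, ?_⟩
    rintro (i' | j') hne h'
    · rw [Sum.elim_inl, Sum.elim_inl, one_mul] at h'
      refine D.hρ i' i (fun e => hne (by rw [e])) ?_
      rw [← h, ← h', sub_self]
    · rw [Sum.elim_inr, Sum.elim_inr] at h'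
      refine D.hc i j' ?_
      rw [← h, ← h', sub_self]
  · rw [Sum.elim_inr, Sum.elim_inr] at h
    refine ⟨fun h1 => D.h0 j ?_, ?_⟩
    · rw [Sum.elim_inr] at h1
      rw [← h, h1, zero_mul]
    rintro (i' | j') hne h'
    · rw [Sum.elim_inl, Sum.elim_inl, one_mul] at h'
      refine D.hc i' j ?_
      rw [← h, ← h', sub_self]
    · rw [Sum.elim_inr, Sum.elim_inr] at h'
      refine D.hr j' j (fun e => hne (by rw [e])) ?_
      rw [← h, ← h', sub_self]

theorem Cond.no_Q (D : Cond s ρ r) (a : K) :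
    ¬ (eval a (∏ k : Fin 3 ⊕ Fin 3,
        (C (Sum.elim (fun i => -(s ^ 2 * ρ i)) (fun j => -(r j)) k) * X - C (-1))) = 0 ∧
      eval a (derivative (∏ k : Fin 3 ⊕ Fin 3,
        (C (Sum.elim (fun i => -(s ^ 2 * ρ i)) (fun j => -(r j)) k) * X - C (-1)))) = 0) := by
  refine no_double _ (fun _ => -1) a ?_
  have ha : ∀ k : Fin 3 ⊕ Fin 3, Sum.elim (fun i => -(s ^ 2 * ρ i)) (fun j => -(r j)) k * a = -1 →
      a ≠ 0 := by
    intro k h h0
    rw [h0, mul_zero] at h
    exact one_ne_zero (neg_eq_zero.1 h.symm)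
  intro k hk
  have h0 := ha k hk
  refine ⟨fun h1 => ?_, fun l hne hl => ?_⟩
  · rw [h1, zero_mul] at hk
    exact one_ne_zero (neg_eq_zero.1 hk.symm)
  have h1 : Sum.elim (fun i => -(s ^ 2 * ρ i)) (fun j => -(r j)) k =
      Sum.elim (fun i => -(s ^ 2 * ρ i)) (fun j => -(r j)) l :=
    mul_right_cancel₀ h0 (hk.trans hl.symm)
  rcases k with i | j <;> rcases l with i' | j'
  · rw [Sum.elim_inl, Sum.elim_inl, neg_inj] at h1
    have hs : s ^ 2 ≠ 0 := by
      intro h2
      rw [Sum.elim_inl, h2, zero_mul, neg_zero, zero_mul] at hk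
      exact one_ne_zero (neg_eq_zero.1 hk.symm)
    exact D.hρ i i' (fun e => hne (by rw [e])) (sub_eq_zero.2 (mul_left_cancel₀ hs h1))
  · rw [Sum.elim_inl, Sum.elim_inr, neg_inj] at h1
    exact D.hc i j' (sub_eq_zero.2 h1.symm)
  · rw [Sum.elim_inl, Sum.elim_inr, neg_inj] at h1
    exact D.hc i' j (sub_eq_zero.2 h1)
  · rw [Sum.elim_inr, Sum.elim_inr, neg_inj] at h1
    exact D.hr j j' (fun e => hne (by rw [e])) (sub_eq_zero.2 h1)

theorem Cond.no_N (D : Cond s ρ r) {z ξ : K} (h : z * ξ = s ^ 2) :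
    ¬ (KK (pf s ρ r) z ξ = 0 ∧ EE (pf s ρ r) z ξ = 0) := by
  have haa : ∀ i i', i ≠ i' → 1 - ρ i * ξ = 0 → 1 - ρ i' * ξ ≠ 0 := by
    intro i i' hne h1 h2
    have h3 : (ρ i - ρ i') * ξ = 0 := by linear_combination h2 - h1
    rcases mul_eq_zero.1 h3 with h4 | h4
    · exact D.hρ i i' hne h4
    · rw [h4, mul_zero, sub_zero] at h1
      exact one_ne_zero h1
  have hab : ∀ i j, z - r j = 0 → 1 - ρ i * ξ ≠ 0 := by
    intro i j h1 h2
    refine D.hc i j ?_
    linear_combination z * h2 - h1 + ρ i * h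
  have hbb : ∀ j j', j ≠ j' → z - r j = 0 → z - r j' ≠ 0 := by
    intro j j' hne h1 h2
    refine D.hr j j' hne ?_
    linear_combination h2 - h1
  have hba : ∀ i j, 1 - ρ i * ξ = 0 → z - r j ≠ 0 := fun i j h1 h2 => hab i j h2 h1
  have hz : ∀ j, z - r j = 0 → z ≠ 0 := by
    intro j h1 h2
    rw [h2, zero_sub, neg_eq_zero] at h1
    exact D.h0 j h1
  have hx : ∀ i, 1 - ρ i * ξ = 0 → ρ i * ξ ≠ 0 := by
    intro i h1 h2
    rw [h2, sub_zero] at h1
    exact one_ne_zero h1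
  rw [KK_pf s ρ r h, EE_pf s ρ r h]
  generalize ha0 : 1 - ρ 0 * ξ = a0
  generalize ha1 : 1 - ρ 1 * ξ = a1
  generalize ha2 : 1 - ρ 2 * ξ = a2
  generalize hb0 : z - r 0 = b0
  generalize hb1 : z - r 1 = b1
  generalize hb2 : z - r 2 = b2
  rintro ⟨h1, h2⟩
  rw [mul_eq_zero, mul_eq_zero, mul_eq_zero, mul_eq_zero, mul_eq_zero] at h1
  rcases h1 with ((h3 | h3) | h3) | ((h3 | h3) | h3)
  · have e : ρ 0 * ξ * ((a1 * a2) * (b0 * b1 * b2)) = 0 := by
      rw [h3] at h2
      linear_combination -h2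
    rw [h3] at ha0
    refine mul_ne_zero (hx 0 ha0) (mul_ne_zero (mul_ne_zero ?_ ?_)
      (mul_ne_zero (mul_ne_zero ?_ ?_) ?_)) e
    · rw [← ha1]; exact haa 0 1 (by decide) ha0
    · rw [← ha2]; exact haa 0 2 (by decide) ha0
    · rw [← hb0]; exact hba 0 0 ha0
    · rw [← hb1]; exact hba 0 1 ha0
    · rw [← hb2]; exact hba 0 2 ha0
  · have e : ρ 1 * ξ * ((a0 * a2) * (b0 * b1 * b2)) = 0 := by
      rw [h3] at h2
      linear_combination -h2
    rw [h3] at ha1
    refine mul_ne_zero (hx 1 ha1) (mul_ne_zero (mul_ne_zero ?_ ?_)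
      (mul_ne_zero (mul_ne_zero ?_ ?_) ?_)) e
    · rw [← ha0]; exact haa 1 0 (by decide) ha1
    · rw [← ha2]; exact haa 1 2 (by decide) ha1
    · rw [← hb0]; exact hba 1 0 ha1
    · rw [← hb1]; exact hba 1 1 ha1
    · rw [← hb2]; exact hba 1 2 ha1
  · have e : ρ 2 * ξ * ((a0 * a1) * (b0 * b1 * b2)) = 0 := by
      rw [h3] at h2
      linear_combination -h2
    rw [h3] at ha2
    refine mul_ne_zero (hx 2 ha2) (mul_ne_zero (mul_ne_zero ?_ ?_)
      (mul_ne_zero (mul_ne_zero ?_ ?_) ?_)) e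
    · rw [← ha0]; exact haa 2 0 (by decide) ha2
    · rw [← ha1]; exact haa 2 1 (by decide) ha2
    · rw [← hb0]; exact hba 2 0 ha2
    · rw [← hb1]; exact hba 2 1 ha2
    · rw [← hb2]; exact hba 2 2 ha2
  · have e : z * ((b1 * b2) * (a0 * a1 * a2)) = 0 := by
      rw [h3] at h2
      linear_combination -h2
    rw [h3] at hb0
    refine mul_ne_zero (hz 0 hb0) (mul_ne_zero (mul_ne_zero ?_ ?_)
      (mul_ne_zero (mul_ne_zero ?_ ?_) ?_)) e
    · rw [← hb1]; exact hbb 0 1 (by decide) hb0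
    · rw [← hb2]; exact hbb 0 2 (by decide) hb0
    · rw [← ha0]; exact hab 0 0 hb0
    · rw [← ha1]; exact hab 1 0 hb0
    · rw [← ha2]; exact hab 2 0 hb0
  · have e : z * ((b0 * b2) * (a0 * a1 * a2)) = 0 := by
      rw [h3] at h2
      linear_combination -h2
    rw [h3] at hb1
    refine mul_ne_zero (hz 1 hb1) (mul_ne_zero (mul_ne_zero ?_ ?_)
      (mul_ne_zero (mul_ne_zero ?_ ?_) ?_)) e
    · rw [← hb0]; exact hbb 1 0 (by decide) hb1
    · rw [← hb2]; exact hbb 1 2 (by decide) hb1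
    · rw [← ha0]; exact hab 0 1 hb1
    · rw [← ha1]; exact hab 1 1 hb1
    · rw [← ha2]; exact hab 2 1 hb1
  · have e : z * ((b0 * b1) * (a0 * a1 * a2)) = 0 := by
      rw [h3] at h2
      linear_combination -h2
    rw [h3] at hb2
    refine mul_ne_zero (hz 2 hb2) (mul_ne_zero (mul_ne_zero ?_ ?_)
      (mul_ne_zero (mul_ne_zero ?_ ?_) ?_)) e
    · rw [← hb0]; exact hbb 2 0 (by decide) hb2
    · rw [← hb1]; exact hbb 2 1 (by decide) hb2
    · rw [← ha0]; exact hab 0 2 hb2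
    · rw [← ha1]; exact hab 1 2 hb2
    · rw [← ha2]; exact hab 2 2 hb2

end YOR

open _root_.Pool.Agent.MG.H2.YOR in
/-- YOR -/
theorem t_YOR : Stmt_YOR := by
  intro B _ s ρ r h2 hρ hr h0 hc
  have cond : ∀ (L : Type) [Field L] (ψ : B →+* L),
      Cond (ψ s) (fun i => ψ (ρ i)) (fun j => ψ (r j)) := by
    intro L _ ψ
    refine ⟨fun i j hij => ?_, fun i j hij => ?_, fun j => ?_, fun i j => ?_⟩
    · rw [← map_sub]
      exact ((hρ i j hij).map ψ).ne_zero
    · rw [← map_sub]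
      exact ((hr i j hij).map ψ).ne_zero
    · exact ((h0 j).map ψ).ne_zero
    · rw [← map_pow, ← map_mul, ← map_sub]
      exact ((hc i j).map ψ).ne_zero
  refine ⟨pf s ρ r, ⟨h2, ?_, ?_, ?_⟩, fun i => ?_⟩
  · rw [Two2.isCoprime_iff_pts]
    intro L _ ψ a
    have h := (cond L ψ).no_T a
    have e : (pp B (pT (pf s ρ r) s)).map ψ =
        ∏ k : Fin 3 ⊕ Fin 3, (C (Sum.elim (fun _ => 1) (fun _ => ψ s ^ 2) k) * X -
          C (Sum.elim (fun i => ψ (ρ i)) (fun j => ψ (r j)) k)) := by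
      rw [pp_T, Fintype.prod_sum_type, Polynomial.map_mul, Polynomial.map_prod,
        Polynomial.map_prod]
      simp
    rw [← eval_map, ← eval_map, ← derivative_map, e]
    exact h
  · rw [Two2.isCoprime_iff_pts]
    intro L _ ψ a
    have h := (cond L ψ).no_Q a
    have e : (pp B (pT (rev (pf s ρ r)) s)).map ψ =
        ∏ k : Fin 3 ⊕ Fin 3,
          (C (Sum.elim (fun i => -(ψ s ^ 2 * ψ (ρ i))) (fun j => -(ψ (r j))) k) * X -
            C (-1)) := by
      rw [pp_Q, Fintype.prod_sum_type, Polynomial.map_mul, Polynomial.map_prod,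
        Polynomial.map_prod]
      simp
    rw [← eval_map, ← eval_map, ← derivative_map, e]
    exact h
  · refine isCoprime_of_pts _ _ fun L _ χ => ?_
    have hrel := (relN B (pf s ρ r) s).map χ
    have hp : (fun i => χ (algebraMap B (NN B (pf s ρ r) s) (pf s ρ r i))) =
        pf (χ (algebraMap B _ s)) (fun i => χ (algebraMap B _ (ρ i)))
          (fun j => χ (algebraMap B _ (r j))) := by
      funext i
      exact pf_map (χ.comp (algebraMap B (NN B (pf s ρ r) s))) s ρ r i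
    have h := (cond L (χ.comp (algebraMap B (NN B (pf s ρ r) s)))).no_N
      (z := χ (zN B (pf s ρ r) s)) (ξ := χ (xN B (pf s ρ r) s)) hrel.zx
    rw [KN, EN, KK_map, EE_map, hp]
    exact h
  · rw [← pp_T, pp_coeff]

end Pool.Agent.MG.H2


end

section

/-!
# YVU: uniqueness in the valuative criterion for the family `YX B p t`
-/

open CategoryTheory CategoryTheory.Limits AlgebraicGeometry TensorProduct IsLocalRing

namespace Pool.Agent.MG.H2

namespace YVU

/-! ## Points with values in local rings -/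

theorem mem_of_closed {X : Scheme.{0}} {R : Type} [CommRing R] [IsLocalRing R]
    (l : Sp R ⟶ X) (V : X.Opens) (h : l (closedPoint R) ∈ V) (y : Sp R) : l y ∈ V :=
  ((specializes_closedPoint (R := R) y).map l.continuous).mem_open V.isOpen h

theorem fac1 {X : Scheme.{0}} {R A : Type} [CommRing R] [IsLocalRing R] [CommRing A]
    (i : Sp A ⟶ X) [IsOpenImmersion i] (l : Sp R ⟶ X)
    (h : l (closedPoint R) ∈ Set.range i) : ∃ h : A →+* R, l = spMap h ≫ i := by
  have hr : Set.range l ⊆ Set.range i := by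
    rintro _ ⟨y, rfl⟩
    exact mem_of_closed l i.opensRange h y
  obtain ⟨φ, hφ⟩ := Spec.map_surjective (IsOpenImmersion.lift i l hr)
  refine ⟨φ.hom, ?_⟩
  have h2 : spMap φ.hom = IsOpenImmersion.lift i l hr := hφ
  rw [h2, IsOpenImmersion.lift_fac]

theorem fac {B : Type} [CommRing B] {p : Fin 7 → B} {t : B} {R : Type} [CommRing R]
    [IsLocalRing R] (l : Sp R ⟶ YX B p t) :
    (∃ h : TT B p t →+* R, l = spMap h ≫ YX.inT B p t) ∨
    (∃ h : NN B p t →+* R, l = spMap h ≫ YX.inN B p t) ∨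
    (∃ h : QQ B p t →+* R, l = spMap h ≫ YX.inQ B p t) := by
  rcases YX.surj3 (l (closedPoint R)) with h | h | h
  · exact Or.inl (fac1 _ l h)
  · exact Or.inr (Or.inl (fac1 _ l h))
  · exact Or.inr (Or.inr (fac1 _ l h))

theorem spMap_inj {A C : Type} [CommRing A] [CommRing C] {φ ψ : A →+* C}
    (h : spMap φ = spMap ψ) : φ = ψ := by
  have h2 := Spec.map_injective h
  exact congrArg CommRingCat.Hom.hom h2

theorem mapOf {A C : Type} [CommRing A] [CommRing C] (m : Sp C ⟶ Sp A) :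
    ∃ f : A →+* C, spMap f = m := by
  obtain ⟨φ, hφ⟩ := Spec.map_surjective m
  exact ⟨φ.hom, hφ⟩

section gen

variable {R K : Type} [CommRing R] [CommRing K] {ι : R →+* K}
  (hinj : Function.Injective ι)

include hinj in
theorem cancel_inj {A : Type} [CommRing A] {h h' : A →+* R}
    (H : spMap ι ≫ spMap h = spMap ι ≫ spMap h') : h = h' := by
  rw [spMap_comp', spMap_comp'] at H
  have h2 := spMap_inj H
  ext v
  exact hinj (RingHom.congr_fun h2 v)

include hinj in
theorem same {A : Type} [CommRing A] {X : Scheme.{0}} (i : Sp A ⟶ X) [Mono i] {h h' : A →+* R}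
    (H : spMap ι ≫ spMap h ≫ i = spMap ι ≫ spMap h' ≫ i) : h = h' := by
  refine cancel_inj hinj ?_
  rw [← cancel_mono i, Category.assoc, Category.assoc, H]

include hinj in
/-- Two points in two charts `N`, `T` with the intersection `W`. -/
theorem mixed {N T W : Type} [CommRing N] [CommRing T] [CommRing W] {X : Scheme.{0}}
    (n : N →+* W) (g : T →+* W) (i : Sp N ⟶ X) (j : Sp T ⟶ X) [Mono i]
    (cond : spMap n ≫ i = spMap g ≫ j)
    (hp : ∀ (a : N →+* K) (b : T →+* K), spMap a ≫ i = spMap b ≫ j →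
      ∃ m : W →+* K, m.comp n = a ∧ m.comp g = b) (x : N) (x' : T) (hx : n x * g x' = 1)
    (hl : ∀ (b : T →+* R), IsUnit (b x') → ∃ b' : W →+* R, b'.comp g = b)
    (h : N →+* R) (h' : T →+* R)
    (H : spMap ι ≫ spMap h ≫ i = spMap ι ≫ spMap h' ≫ j) : spMap h ≫ i = spMap h' ≫ j := by
  have H' : spMap (ι.comp h) ≫ i = spMap (ι.comp h') ≫ j := by
    rw [← spMap_comp', ← spMap_comp', Category.assoc, Category.assoc, H]
  obtain ⟨m, hm1, hm2⟩ := hp _ _ H'
  have h1 : ι (h x) * ι (h' x') = 1 := by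
    have e1 : m (n x) = ι (h x) := RingHom.congr_fun hm1 x
    have e2 : m (g x') = ι (h' x') := RingHom.congr_fun hm2 x'
    rw [← e1, ← e2, ← map_mul, hx, map_one]
  have h2 : h x * h' x' = 1 := hinj (by rw [map_mul, h1, map_one])
  obtain ⟨b', hb'⟩ := hl h' (IsUnit.of_mul_eq_one_right _ h2)
  have h3 : spMap h' ≫ j = spMap (b'.comp n) ≫ i := by
    rw [← hb', ← spMap_comp', ← spMap_comp', Category.assoc, Category.assoc, cond]
  rw [h3] at H ⊢
  rw [same hinj i H]

end gen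

/-! ## The charts -/

section charts

variable {B : Type} [CommRing B] {p : Fin 7 → B} {t : B}

theorem ext12 {f : Fin 7 → B} {R : Type} [CommRing R] (h : A1 B f →+* R)
    (hz : IsUnit (h (x1 B f))) : ∃ h12 : A12 B f →+* R, h12.comp (g1 B f) = h := by
  refine ⟨IsLocalization.Away.lift (x1 B f) hz, ?_⟩
  exact RingHom.ext fun v => IsLocalization.Away.lift_eq (x1 B f) hz v

theorem pullNT {K : Type} [CommRing K] (a : NN B p t →+* K) (b : TT B p t →+* K)
    (h : spMap a ≫ YX.inN B p t = spMap b ≫ YX.inT B p t) :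
    ∃ m : TN B p t →+* K, m.comp (nT B p t) = a ∧ m.comp (tT B p t) = b := by
  have h1 : spMap a ≫ YNT.inN B p t = spMap b ≫ YNT.inT B p t := by
    rw [← cancel_mono (YX.inNT B p t), Category.assoc, Category.assoc]
    exact h
  have hp := glue2_isPullback (spMap (nT B p t)) (spMap (tT B p t))
  obtain ⟨m, hm⟩ := mapOf (hp.lift (spMap a) (spMap b) h1)
  refine ⟨m, spMap_inj ?_, spMap_inj ?_⟩
  · rw [← spMap_comp', hm]
    exact hp.lift_fst _ _ h1
  · rw [← spMap_comp', hm]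
    exact hp.lift_snd _ _ h1

theorem pullQ {K : Type} [CommRing K] (a : Sp K ⟶ YNT B p t) (b : QQ B p t →+* K)
    (h : a ≫ YX.inNT B p t = spMap b ≫ YX.inQ B p t) :
    ∃ m : QN B p t →+* K, spMap (m.comp (nQ B p t)) ≫ YNT.inN B p t = a ∧
      m.comp (qQ B p t) = b := by
  have hp := glue2_isPullback (spMap (nQ B p t) ≫ YNT.inN B p t) (spMap (qQ B p t))
  obtain ⟨m, hm⟩ := mapOf (hp.lift a (spMap b) h)
  refine ⟨m, ?_, spMap_inj ?_⟩
  · rw [← spMap_comp', hm, Category.assoc]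
    exact hp.lift_fst _ _ h
  · rw [← spMap_comp', hm]
    exact hp.lift_snd _ _ h

theorem pullNQ {K : Type} [CommRing K] (a : NN B p t →+* K) (b : QQ B p t →+* K)
    (h : spMap a ≫ YX.inN B p t = spMap b ≫ YX.inQ B p t) :
    ∃ m : QN B p t →+* K, m.comp (nQ B p t) = a ∧ m.comp (qQ B p t) = b := by
  obtain ⟨m, h1, h2⟩ := pullQ (spMap a ≫ YNT.inN B p t) b (by
    rw [Category.assoc]
    exact h)
  refine ⟨m, spMap_inj ?_, h2⟩
  rw [← cancel_mono (YNT.inN B p t), h1]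

theorem xNT : nT B p t (xN B p t) * tT B p t (x1 B (pT p t)) = 1 := by
  rw [nT_x, tT, ← xu_val, Units.inv_mul]

theorem zNQ : nQ B p t (zN B p t) * qQ B p t (x1 B (pT (rev p) t)) = 1 := by
  rw [nQ_z, qQ, ← xu_val, Units.inv_mul]

variable {R K : Type} [CommRing R] [CommRing K] {ι : R →+* K} (hinj : Function.Injective ι)

include hinj in
theorem mNT (h : NN B p t →+* R) (h' : TT B p t →+* R)
    (H : spMap ι ≫ spMap h ≫ YX.inN B p t = spMap ι ≫ spMap h' ≫ YX.inT B p t) :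
    spMap h ≫ YX.inN B p t = spMap h' ≫ YX.inT B p t :=
  mixed hinj (nT B p t) (tT B p t) (YX.inN B p t) (YX.inT B p t) (YX.condT B p t)
    (fun a b h => pullNT a b h) _ _ xNT (fun b hb => ext12 b hb) h h' H

include hinj in
theorem mNQ (h : NN B p t →+* R) (h' : QQ B p t →+* R)
    (H : spMap ι ≫ spMap h ≫ YX.inN B p t = spMap ι ≫ spMap h' ≫ YX.inQ B p t) :
    spMap h ≫ YX.inN B p t = spMap h' ≫ YX.inQ B p t :=
  mixed hinj (nQ B p t) (qQ B p t) (YX.inN B p t) (YX.inQ B p t) (YX.condQ B p t)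
    (fun a b h => pullNQ a b h) _ _ zNQ (fun b hb => ext12 b hb) h h' H

include hinj in
theorem mTQ (h : TT B p t →+* R) (h' : QQ B p t →+* R)
    (H : spMap ι ≫ spMap h ≫ YX.inT B p t = spMap ι ≫ spMap h' ≫ YX.inQ B p t) :
    spMap h ≫ YX.inT B p t = spMap h' ≫ YX.inQ B p t := by
  have H' : (spMap (ι.comp h) ≫ YNT.inT B p t) ≫ YX.inNT B p t =
      spMap (ι.comp h') ≫ YX.inQ B p t := by
    rw [← spMap_comp', ← spMap_comp', Category.assoc, Category.assoc, Category.assoc, ← H]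
    rfl
  obtain ⟨m', h1, h2⟩ := pullQ _ _ H'
  have h3 : spMap (m'.comp (nQ B p t)) ≫ YX.inN B p t = spMap (ι.comp h) ≫ YX.inT B p t := by
    have e := congrArg (fun f => f ≫ YX.inNT B p t) h1
    simp only [Category.assoc] at e
    exact e
  obtain ⟨m, h4, h5⟩ := pullNT _ _ h3
  have e1 : m (nT B p t (zN B p t)) = m' (nQ B p t (zN B p t)) := RingHom.congr_fun h4 _
  have e2 : m (tT B p t (x1 B (pT p t))) = ι (h (x1 B (pT p t))) := RingHom.congr_fun h5 _
  have e3 : m' (qQ B p t (x1 B (pT (rev p) t))) = ι (h' (x1 B (pT (rev p) t))) :=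
    RingHom.congr_fun h2 _
  have e4 : m (algebraMap B _ t) = ι (h (algebraMap B _ t)) := by
    have e := RingHom.congr_fun h5 (algebraMap B _ t)
    exact e
  have e5 : m' (nQ B p t (zN B p t)) * m' (qQ B p t (x1 B (pT (rev p) t))) = 1 := by
    rw [← map_mul, zNQ, map_one]
  have e6 : m (nT B p t (zN B p t)) = ι (h (algebraMap B _ t)) ^ 2 * ι (h (x1 B (pT p t))) := by
    rw [nT_z, map_mul, map_pow, e4, xu_val]
    exact congrArg (fun w => ι (h (algebraMap B _ t)) ^ 2 * w) e2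
  rw [← e1, e3, e6] at e5
  have h6 : h (x1 B (pT p t)) * (h (algebraMap B _ t) ^ 2 * h' (x1 B (pT (rev p) t))) = 1 := by
    refine hinj ?_
    rw [map_mul, map_mul, map_pow, map_one]
    linear_combination e5
  obtain ⟨h12, hh⟩ := ext12 h (IsUnit.of_mul_eq_one _ h6)
  have h7 : spMap h ≫ YX.inT B p t = spMap (h12.comp (nT B p t)) ≫ YX.inN B p t := by
    rw [← hh, ← spMap_comp', ← spMap_comp', Category.assoc, Category.assoc, YX.condT]
  rw [h7] at H ⊢
  exact mNQ hinj _ _ H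

end charts

end YVU

/-- **YVU**: uniqueness in the valuative criterion. -/
theorem t_YVU : Stmt_YVU := by
  intro B _ p t R K _ _ _ _ _ _ l l' _ H
  have hinj : Function.Injective (algebraMap R K) := IsFractionRing.injective R K
  rcases YVU.fac l with ⟨h, rfl⟩ | ⟨h, rfl⟩ | ⟨h, rfl⟩ <;>
    rcases YVU.fac l' with ⟨h', rfl⟩ | ⟨h', rfl⟩ | ⟨h', rfl⟩
  · rw [YVU.same hinj _ H]
  · exact (YVU.mNT hinj h' h H.symm).symm
  · exact YVU.mTQ hinj h h' H
  · exact YVU.mNT hinj h h' H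
  · rw [YVU.same hinj _ H]
  · exact YVU.mNQ hinj h h' H
  · exact (YVU.mTQ hinj h' h H.symm).symm
  · exact (YVU.mNQ hinj h' h H.symm).symm
  · rw [YVU.same hinj _ H]

end Pool.Agent.MG.H2


end
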