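import Mathlib
import Pool.Agent.KDM.C02
import Pool.Agent.KDM.C15
import Pool.Agent.KDM.C18
import Pool.Agent.KDM.C28
import Pool.Agent.KDM.C34
import Pool.Agent.KDM.C53
import Pool.Agent.KDM.C54
import Pool.Agent.KDM.C75

/-! Parts: MG.WL.CL.NGEO, MG.WL.CL.DER, MG.WL.STL, MG.H2.HES, MG.H2.GeoM, MG.G0.SDF -/

section

/-!
# NGEO: the ideals of the components in an affine open set
-/

open CategoryTheory AlgebraicGeometry IsLocalRing TopologicalSpace

namespace Pool.Agent.MG.WL.CL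

namespace NGEO_

variable {E X : Scheme.{0}}

/-- The kernel cuts out the range. -/
theorem mem_range_iff (ι : E ⟶ X) [IsClosedImmersion ι] {W : X.Opens} (hW : IsAffineOpen W)
    (P : PrimeSpectrum Γ(X, W)) :
    RingHom.ker (ι.app W).hom ≤ P.asIdeal ↔ hW.fromSpec P ∈ Set.range ι := by
  have hx : hW.fromSpec P ∈ W := by
    have h := Set.mem_range_self (f := hW.fromSpec) P
    rw [hW.range_fromSpec] at h
    exact h
  have h1 : Set.range ι = (ι.ker.support : Set X) := by
    rw [Scheme.Hom.support_ker]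
    exact ι.isClosedEmbedding.isClosed_range.closure_eq.symm
  rw [h1]
  have h2 := Scheme.IdealSheafData.mem_support_iff_of_mem (I := ι.ker) (U := ⟨W, hW⟩) hx
  have h3 : hW.fromSpec P ∈ (ι.ker.support : Set X) ↔ hW.fromSpec P ∈ ι.ker.support := Iff.rfl
  rw [h3, h2, Scheme.Hom.ker_apply]
  have h4 : hW.fromSpec P ∈ X.zeroLocus (U := W) (RingHom.ker (ι.app W).hom : Set Γ(X, W)) ↔
      P ∈ hW.fromSpec ⁻¹' X.zeroLocus (U := W) (RingHom.ker (ι.app W).hom : Set Γ(X, W)) :=
    Iff.rfl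
  rw [IsAffineOpen.fromSpec_preimage_zeroLocus] at h4
  exact Iff.symm h4

/-- The minimal prime of a component in a local ring. -/
theorem exists_min {ι : E ⟶ X} (h : IsComp ι) {W : X.Opens} (x : X) (hx : x ∈ W)
    (hr : x ∈ Set.range ι) : ∃ Q ∈ minimalPrimes (X.presheaf.stalk x),
      ∀ r : Γ(X, W), X.presheaf.germ W x hx r ∈ Q ↔ r ∈ RingHom.ker (ι.app W).hom := by
  obtain ⟨y, rfl⟩ := hr
  refine ⟨RingHom.ker (ι.stalkMap y).hom, h.ker_min y, fun r => ?_⟩
  have := h.int
  have h1 : (ι.stalkMap y).hom (X.presheaf.germ W (ι y) hx r) =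
      E.presheaf.germ (ι ⁻¹ᵁ W) y hx (ι.app W r) :=
    Scheme.Hom.germ_stalkMap_apply ι W y hx r
  rw [RingHom.mem_ker, RingHom.mem_ker, h1]
  have h2 := germ_injective_of_isIntegral E (U := ι ⁻¹ᵁ W) y hx
  exact map_eq_zero_iff _ h2

/-- The point is a generic point of a component. -/
theorem gen_comp {y : X} (hy : Gen y) : closure {y} ∈ irreducibleComponents X := by
  refine ⟨isIrreducible_singleton.closure, ?_⟩
  intro Z hZ hle
  have hZ' : IsIrreducible (closure Z) := hZ.closure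
  have hg := hZ'.isGenericPoint_genericPoint isClosed_closure
  have h1 : y ∈ closure Z := subset_closure (hle (subset_closure rfl))
  have h2 : hZ'.genericPoint ⤳ y := by
    rw [specializes_iff_mem_closure, hg.def]
    exact h1
  have h3 := hy _ h2
  intro z hz
  have h4 : z ∈ closure Z := subset_closure hz
  rw [← hg.def, h3] at h4
  exact h4

/-- Elements of the minimal prime are fractions of elements of the kernel. -/
theorem frac {W : X.Opens} (hW : IsAffineOpen W) (P : PrimeSpectrum Γ(X, W))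
    (hx : hW.fromSpec P ∈ W) (K : Ideal Γ(X, W)) (Q : Ideal (X.presheaf.stalk (hW.fromSpec P)))
    (hQ : ∀ r : Γ(X, W), X.presheaf.germ W _ hx r ∈ Q ↔ r ∈ K)
    (u : X.presheaf.stalk (hW.fromSpec P)) (hu : u ∈ Q) :
    ∃ r ∈ K, ∃ s, s ∉ P.asIdeal ∧
      u * X.presheaf.germ W _ hx s = X.presheaf.germ W _ hx r := by
  let _ := TopCat.Presheaf.algebra_section_stalk X.presheaf ⟨hW.fromSpec P, hx⟩
  have loc : IsLocalization.AtPrime (X.presheaf.stalk (hW.fromSpec P)) P.asIdeal :=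
    hW.isLocalization_stalk' P hx
  obtain ⟨⟨r, s⟩, h⟩ := IsLocalization.surj P.asIdeal.primeCompl u
  have h' : u * X.presheaf.germ W _ hx s = X.presheaf.germ W _ hx r := h
  refine ⟨r, ?_, s, s.2, h'⟩
  rw [← hQ, ← h']
  exact Ideal.mul_mem_right _ _ hu

theorem mem_max {W : X.Opens} (hW : IsAffineOpen W) (P : PrimeSpectrum Γ(X, W))
    (hx : hW.fromSpec P ∈ W) (a : Γ(X, W)) (ha : a ∈ P.asIdeal) :
    X.presheaf.germ W _ hx a ∈ maximalIdeal (X.presheaf.stalk (hW.fromSpec P)) := by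
  let _ := TopCat.Presheaf.algebra_section_stalk X.presheaf ⟨hW.fromSpec P, hx⟩
  have loc : IsLocalization.AtPrime (X.presheaf.stalk (hW.fromSpec P)) P.asIdeal :=
    hW.isLocalization_stalk' P hx
  exact (IsLocalization.AtPrime.to_map_mem_maximal_iff _ P.asIdeal a).2 ha

theorem eq_loc {W : X.Opens} (hW : IsAffineOpen W) (P : PrimeSpectrum Γ(X, W))
    (hx : hW.fromSpec P ∈ W) (a b : Γ(X, W))
    (h : X.presheaf.germ W _ hx a = X.presheaf.germ W _ hx b) :
    ∃ t, t ∉ P.asIdeal ∧ t * a = t * b := by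
  let _ := TopCat.Presheaf.algebra_section_stalk X.presheaf ⟨hW.fromSpec P, hx⟩
  have loc : IsLocalization.AtPrime (X.presheaf.stalk (hW.fromSpec P)) P.asIdeal :=
    hW.isLocalization_stalk' P hx
  obtain ⟨c, hc⟩ := (IsLocalization.eq_iff_exists P.asIdeal.primeCompl
    (X.presheaf.stalk (hW.fromSpec P))).1 h
  exact ⟨c, c.2, hc⟩

/-- An irreducible closed set is determined by an open part. -/
theorem eq_of_inter {Z Z' : Set X} (hZ : Z ∈ irreducibleComponents X)
    (hZ' : Z' ∈ irreducibleComponents X) (W : X.Opens) (x : X) (hx : x ∈ W) (hxZ : x ∈ Z)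
    (h : ∀ y ∈ W, y ∈ Z → y ∈ Z') : Z = Z' := by
  have hcl' := isClosed_of_mem_irreducibleComponents Z' hZ'
  have h1 : Z ⊆ closure (Z ∩ (W : Set X)) :=
    subset_closure_inter_of_isPreirreducible_of_isOpen hZ.1.2 W.isOpen ⟨x, hxZ, hx⟩
  have h2 : Z ⊆ Z' := fun y hy => by
    have h3 : closure (Z ∩ (W : Set X)) ⊆ Z' :=
      closure_minimal (fun z hz => h z hz.2 hz.1) hcl'
    exact h3 (h1 hy)
  exact Set.Subset.antisymm h2 (hZ.2 hZ'.1 h2)

end NGEO_

open _root_.Pool.Agent.MG.WL.CL.NGEO_ in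
theorem t_NGEO (hU : Stmt_UNQ) (_hG : Stmt_GSP) (hM : Stmt_MPC) : Stmt_NGEO := by
  intro X hN W hW I E ι hc hinj
  have hst : ∀ x : X, _root_.IsReduced (X.presheaf.stalk x) := fun x => (hN x).red
  have hred : IsReduced X := isReduced_of_isReduced_stalk X
  have hr1 : ∀ (P : PrimeSpectrum Γ(X, W)) (i : I),
      RingHom.ker ((ι i).app W).hom ≤ P.asIdeal ↔ hW.fromSpec P ∈ Set.range (ι i) := by
    intro P i
    have := (hc i).cl
    exact mem_range_iff (ι i) hW P
  refine ⟨hr1, ?_, ?_, ?_⟩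
  · intro P i j hij hi hj a ha
    have hx : hW.fromSpec P ∈ W := by
      have h := Set.mem_range_self (f := hW.fromSpec) P
      rw [hW.range_fromSpec] at h
      exact h
    obtain ⟨Qi, hQi, hi2⟩ := exists_min (hc i) (W := W) _ hx hi
    obtain ⟨Qj, hQj, hj2⟩ := exists_min (hc j) (W := W) _ hx hj
    have hne : Qi ≠ Qj := by
      intro he
      subst he
      apply hij
      apply hinj
      refine eq_of_inter (hc i).range (hc j).range W _ hx hi fun y hy hyi => ?_
      obtain ⟨P', rfl⟩ : ∃ P' : PrimeSpectrum Γ(X, W), hW.fromSpec P' = y := by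
        have h := hW.range_fromSpec
        have h2 : y ∈ Set.range hW.fromSpec := by
          rw [h]
          exact hy
        exact h2
      rw [← hr1] at hyi ⊢
      intro r hr
      exact hyi ((hi2 r).1 ((hj2 r).2 hr))
    have hsum := (hN (hW.fromSpec P)).sum Qi hQi Qj hQj hne
    have h1 := mem_max hW P hx a ha
    rw [← hsum, Submodule.mem_sup] at h1
    obtain ⟨u, hu, v, hv, huv⟩ := h1
    obtain ⟨r, hr, s, hs, h3⟩ := frac hW P hx _ Qi hi2 u hu
    obtain ⟨r', hr', s', hs', h4⟩ := frac hW P hx _ Qj hj2 v hv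
    have h5 : X.presheaf.germ W _ hx (s * s' * a) = X.presheaf.germ W _ hx (s' * r + s * r') := by
      rw [map_mul, map_mul, map_add, map_mul, map_mul, ← huv, ← h3, ← h4]
      ring
    obtain ⟨t, ht, h6⟩ := eq_loc hW P hx _ _ h5
    refine ⟨t * (s * s'), ?_, ?_⟩
    · intro h7
      rcases P.isPrime.mem_or_mem h7 with h8 | h8
      · exact ht h8
      · rcases P.isPrime.mem_or_mem h8 with h9 | h9
        · exact hs h9
        · exact hs' h9
    · rw [mul_assoc, h6, mul_add]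
      refine Submodule.add_mem_sup ?_ ?_
      · exact Ideal.mul_mem_left _ _ (Ideal.mul_mem_left _ _ hr)
      · exact Ideal.mul_mem_left _ _ (Ideal.mul_mem_left _ _ hr')
  · intro hall
    rw [eq_bot_iff]
    intro r hr
    rw [Ideal.mem_iInf] at hr
    rw [Ideal.mem_bot]
    refine hU W r 0 fun y hy hgen => ?_
    obtain ⟨i, hi⟩ := hall _ (gen_comp hgen)
    have hyi : y ∈ Set.range (ι i) := by
      rw [hi]
      exact subset_closure rfl
    obtain ⟨Q, hQ, hQ2⟩ := exists_min (hc i) (W := W) y hy hyi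
    have h1 := (hM y).1 y (specializes_refl y) hgen
    have h2 : RingHom.ker (X.presheaf.stalkSpecializes (specializes_refl y)).hom = ⊥ := by
      rw [TopCat.Presheaf.stalkSpecializes_refl]
      ext z
      rfl
    rw [h2] at h1
    have h3 : Q = ⊥ := by
      rw [eq_bot_iff]
      exact hQ.2 ⟨h1.1.1, bot_le⟩ bot_le
    have h4 := (hQ2 r).2 (hr i)
    rw [h3, Ideal.mem_bot] at h4
    rw [h4, map_zero]
  · intro i
    have := (hc i).cl
    exact Scheme.Hom.app_surjective (ι i) W hW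

end Pool.Agent.MG.WL.CL


end

section

/-!
# The vector fields `q(f) d/df`
-/

open CategoryTheory AlgebraicGeometry IsLocalRing TopologicalSpace
open Pool.Agent.MG.Two Pool.Agent.MG.W Pool.Agent.MG.W.W0 Pool.Agent.MG.One

namespace Pool.Agent.MG.WL.CL

namespace DER_

/-! ### Algebra -/

section algebra

open Polynomial

variable {k K : Type} [Field k] [Field K] (i : k →+* K)

/-- A local ring in a field and its maximal ideal. -/
structure Loc (O : Subring K) (M : Set K) : Prop where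
  sub : ∀ a ∈ M, a ∈ O
  add : ∀ a ∈ M, ∀ b ∈ M, a + b ∈ M
  mul : ∀ a ∈ O, ∀ b ∈ M, a * b ∈ M
  one : (1 : K) ∉ M
  inv : ∀ a ∈ O, a ∉ M → a⁻¹ ∈ O

/-- A derivation over the constants. -/
structure Der (D : K → K) : Prop where
  add : ∀ a b, D (a + b) = D a + D b
  mul : ∀ a b, D (a * b) = a * D b + b * D a
  const : ∀ c, D (i c) = 0

theorem Loc.prime {O : Subring K} {M : Set K} (h : Loc O M) {a b : K} (ha : a ∈ O)
    (hab : a * b ∈ M) : a ∈ M ∨ b ∈ M := by
  by_cases hm : a ∈ M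
  · exact Or.inl hm
  · right
    have h0 : a ≠ 0 := by
      rintro rfl
      rw [zero_mul] at hab
      exact hm hab
    have h1 := h.mul _ (h.inv a ha hm) _ hab
    rwa [inv_mul_cancel_left₀ h0] at h1

theorem Loc.const {O : Subring K} {M : Set K} (h : Loc O M) (hi : ∀ c, i c ∈ O) {c : k}
    (hc : c ≠ 0) : i c ∉ M := by
  intro hm
  have h1 := h.mul _ (hi c⁻¹) _ hm
  rw [← map_mul, inv_mul_cancel₀ hc, map_one] at h1
  exact h.one h1

theorem eval_mem {O : Subring K} (hi : ∀ c, i c ∈ O) {w : K} (hw : w ∈ O) (P : k[X]) :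
    P.eval₂ i w ∈ O := by
  rw [Polynomial.eval₂_eq_sum_range]
  exact O.sum_mem fun n _ => O.mul_mem (hi _) (O.pow_mem hw n)

section der

variable {i} {D : K → K} (hD : Der i D)

include hD

theorem Der.pow (w : K) (n : ℕ) : D (w ^ n) = n * w ^ (n - 1) * D w := by
  induction n with
  | zero =>
    have h := hD.const 1
    rw [map_one] at h
    simp [h]
  | succ n ih =>
    rw [pow_succ, hD.mul, ih]
    cases n with
    | zero => simp
    | succ n =>
      simp only [Nat.add_sub_cancel]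
      push_cast
      ring

theorem Der.chain (w : K) (P : k[X]) :
    D (P.eval₂ i w) = P.derivative.eval₂ i w * D w := by
  induction P using Polynomial.induction_on' with
  | add P Q hP hQ => rw [eval₂_add, hD.add, hP, hQ, derivative_add, eval₂_add, add_mul]
  | monomial n a =>
    rw [eval₂_monomial, hD.mul, hD.const, hD.pow, derivative_monomial, eval₂_monomial, map_mul,
      map_natCast]
    ring

theorem Der.zero : D 0 = 0 := by
  have h := hD.const 0
  rwa [map_zero] at h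

theorem Der.quot {g A B : K} (hB : B ≠ 0) (h : g * B = A) : D g = (D A - g * D B) * B⁻¹ := by
  have h1 : D A = g * D B + B * D g := by rw [← h, hD.mul]
  rw [h1, eq_mul_inv_iff_mul_eq₀ hB]
  ring

theorem Der.inv {f : K} (hf : f ≠ 0) (h1 : D f = 1) : D f⁻¹ = - f⁻¹ ^ 2 := by
  have h2 : D 1 = 0 := by
    have h := hD.const 1
    rwa [map_one] at h
  rw [hD.quot hf (inv_mul_cancel₀ hf), h2, h1]
  ring

/-- At the points different from the pole. -/
theorem far {f : K} {O : Subring K} {M : Set K} (hL : Loc O M) (hi : ∀ c, i c ∈ O)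
    (hf : f ∈ O) (h1 : D f = 1) {q g : K} (hq : q ∈ O) (hg : g ∈ O) {A B : k[X]}
    (hB : B.eval₂ i f ≠ 0) (hB' : (B.eval₂ i f)⁻¹ ∈ O) (h : g * B.eval₂ i f = A.eval₂ i f) :
    q * D g ∈ O ∧ (q ∈ M → q * D g ∈ M) := by
  have h2 : D g ∈ O := by
    rw [hD.quot hB h, hD.chain, hD.chain, h1, mul_one, mul_one]
    exact O.mul_mem (O.sub_mem (eval_mem i hi hf _) (O.mul_mem hg (eval_mem i hi hf _))) hB'
  refine ⟨O.mul_mem hq h2, fun hm => ?_⟩
  rw [mul_comm]
  exact hL.mul _ h2 _ hm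

end der

theorem exists_der {f : K} (hinj : ∀ P : k[X], P.eval₂ i f = 0 → P = 0)
    (hfrac : ∀ g : K, ∃ P Q : k[X], Q ≠ 0 ∧ g * Q.eval₂ i f = P.eval₂ i f) :
    ∃ D : K → K, Der i D ∧ D f = 1 := by
  have hne : ∀ Q : k[X], Q ≠ 0 → Q.eval₂ i f ≠ 0 := fun Q hQ h => hQ (hinj Q h)
  choose P Q hQ hg using hfrac
  let D : K → K := fun g => (derivative (P g) * Q g - P g * derivative (Q g)).eval₂ i f /
    ((Q g).eval₂ i f) ^ 2
  have key : ∀ (g : K) (A B : k[X]), B ≠ 0 → g * B.eval₂ i f = A.eval₂ i f →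
      D g = (derivative A * B - A * derivative B).eval₂ i f / (B.eval₂ i f) ^ 2 := by
    intro g A B hB h
    have e1 : P g * B = A * Q g := by
      apply sub_eq_zero.mp
      apply hinj
      rw [eval₂_sub, eval₂_mul, eval₂_mul, ← h, ← hg g]
      ring
    have e2 := congrArg derivative e1
    rw [derivative_mul, derivative_mul] at e2
    have e3 : (derivative (P g) * Q g - P g * derivative (Q g)) * B ^ 2 =
        (derivative A * B - A * derivative B) * (Q g) ^ 2 := by
      linear_combination (Q g * B) * e2 - (derivative (Q g) * B + derivative B * Q g) * e1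
    have e4 := congrArg (Polynomial.eval₂ i f) e3
    rw [eval₂_mul, eval₂_mul, eval₂_pow, eval₂_pow] at e4
    change (derivative (P g) * Q g - P g * derivative (Q g)).eval₂ i f /
      ((Q g).eval₂ i f) ^ 2 = _
    rw [div_eq_div_iff (pow_ne_zero 2 (hne _ (hQ g))) (pow_ne_zero 2 (hne _ hB))]
    exact e4
  refine ⟨D, ⟨?_, ?_, ?_⟩, ?_⟩
  · intro a b
    have ha := hg a
    have hb := hg b
    have na := hne _ (hQ a)
    have nb := hne _ (hQ b)
    rw [key (a + b) (P a * Q b + P b * Q a) (Q a * Q b) (mul_ne_zero (hQ a) (hQ b)) (by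
        rw [eval₂_add, eval₂_mul, eval₂_mul, eval₂_mul, ← ha, ← hb]
        ring),
      key a (P a) (Q a) (hQ a) ha, key b (P b) (Q b) (hQ b) hb]
    simp only [derivative_add, derivative_mul, eval₂_add, eval₂_mul, eval₂_sub]
    field_simp
    ring
  · intro a b
    have ha := hg a
    have hb := hg b
    have na := hne _ (hQ a)
    have nb := hne _ (hQ b)
    rw [key (a * b) (P a * P b) (Q a * Q b) (mul_ne_zero (hQ a) (hQ b)) (by
        rw [eval₂_mul, eval₂_mul, ← ha, ← hb]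
        ring),
      key a (P a) (Q a) (hQ a) ha, key b (P b) (Q b) (hQ b) hb]
    have ea : a = (P a).eval₂ i f / (Q a).eval₂ i f := by
      rw [eq_div_iff na, ha]
    have eb : b = (P b).eval₂ i f / (Q b).eval₂ i f := by
      rw [eq_div_iff nb, hb]
    simp only [derivative_mul, eval₂_add, eval₂_mul, eval₂_sub]
    generalize hA : eval₂ i f (P a) = A at *
    generalize hB : eval₂ i f (P b) = B at *
    generalize hC : eval₂ i f (Q a) = C' at *
    generalize hE : eval₂ i f (Q b) = E' at *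
    rw [ea, eb]
    field_simp
    ring
  · intro c
    rw [key (i c) (C c) 1 one_ne_zero (by simp)]
    simp
  · rw [key f X 1 one_ne_zero (by simp)]
    simp

/-- A root in the maximal ideal. -/
theorem exists_root [IsAlgClosed k] {f : K} {O : Subring K} {M : Set K} (hL : Loc O M)
    (hi : ∀ c, i c ∈ O) (hf : f ∈ O) (n : ℕ) : ∀ P : k[X], P.natDegree = n → P ≠ 0 →
    P.eval₂ i f ∈ M → ∃ c, f - i c ∈ M := by
  induction n using Nat.strong_induction_on with
  | _ n ih =>
    intro P hn h0 hP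
    by_cases hd : P.degree = 0
    · exfalso
      rw [Polynomial.eq_C_of_degree_eq_zero hd, eval₂_C] at hP
      have hc : P.coeff 0 ≠ 0 := by
        intro h
        apply h0
        rw [Polynomial.eq_C_of_degree_eq_zero hd, h, C_0]
      exact hL.const i hi hc hP
    · obtain ⟨c, hc⟩ := IsAlgClosed.exists_root P hd
      obtain ⟨Q, hQ⟩ := Polynomial.dvd_iff_isRoot.mpr hc
      have hQ0 : Q ≠ 0 := by
        rintro rfl
        exact h0 (by rw [hQ, mul_zero])
      rw [hQ, eval₂_mul, eval₂_sub, eval₂_X, eval₂_C] at hP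
      rcases hL.prime (O.sub_mem hf (hi c)) hP with h | h
      · exact ⟨c, h⟩
      · refine ih Q.natDegree ?_ Q rfl hQ0 h
        rw [← hn, hQ, natDegree_mul (X_sub_C_ne_zero c) hQ0, natDegree_X_sub_C]
        omega

/-- Elements with nonzero constant term are units. -/
theorem unit_of {O : Subring K} {M : Set K} (hL : Loc O M) (hi : ∀ c, i c ∈ O) {w : K}
    (hw : w ∈ M) {B : k[X]} (hB : B.coeff 0 ≠ 0) : B.eval₂ i w ∉ M := by
  intro h
  have h1 : B.eval₂ i w = B.divX.eval₂ i w * w + i (B.coeff 0) := by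
    conv_lhs => rw [← Polynomial.divX_mul_X_add B]
    rw [eval₂_add, eval₂_mul, eval₂_X, eval₂_C]
  have h2 : i (B.coeff 0) = B.eval₂ i w + (- B.divX.eval₂ i w) * w := by
    rw [h1]
    ring
  have h3 : i (B.coeff 0) ∈ M := by
    rw [h2]
    exact hL.add _ h _ (hL.mul _ (O.neg_mem (eval_mem i hi (hL.sub w hw) _)) _ hw)
  exact hL.const i hi hB h3

theorem eval_rev {f : K} (hf : f ≠ 0) (P : k[X]) :
    P.eval₂ i f = P.reverse.eval₂ i f⁻¹ * f ^ P.natDegree := by
  let _ : Invertible f := invertibleOfNonzero hf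
  have h := Polynomial.eval₂_reverse_mul_pow i f P
  rw [invOf_eq_inv] at h
  exact h.symm

/-- At the pole. -/
theorem near {D : K → K} (hD : Der i D) {f : K} {O : Subring K} {M : Set K} (hL : Loc O M)
    (hi : ∀ c, i c ∈ O) (hf : f ≠ 0) (hw : f⁻¹ ∈ M) (h1 : D f = 1)
    (hfrac : ∀ g : K, ∃ P Q : k[X], Q ≠ 0 ∧ g * Q.eval₂ i f = P.eval₂ i f)
    {q : k[X]} (hq : q.natDegree ≤ 2) {g : K} (hg : g ∈ O) : q.eval₂ i f * D g ∈ O := by
  have hwO : f⁻¹ ∈ O := hL.sub _ hw
  have hq2 : q.eval₂ i f * f⁻¹ ^ 2 ∈ O := by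
    have e : q.eval₂ i f * f⁻¹ ^ 2 = q.reverse.eval₂ i f⁻¹ * f⁻¹ ^ (2 - q.natDegree) := by
      rw [eval_rev i hf q, mul_assoc]
      congr 1
      obtain ⟨m, hm⟩ := Nat.exists_eq_add_of_le hq
      rw [hm, pow_add, ← mul_assoc, ← mul_pow, mul_inv_cancel₀ hf, one_pow, one_mul,
        Nat.add_sub_cancel_left]
    rw [e]
    exact O.mul_mem (eval_mem i hi hwO _) (O.pow_mem hwO _)
  -- the representation
  have rep : ∃ A B : k[X], B.coeff 0 ≠ 0 ∧ g * B.eval₂ i f⁻¹ = A.eval₂ i f⁻¹ := by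
    obtain ⟨P, Q, hQ, h⟩ := hfrac g
    by_cases hP : P = 0
    · refine ⟨0, Q.reverse, ?_, ?_⟩
      · rw [coeff_zero_reverse]
        exact leadingCoeff_ne_zero.mpr hQ
      · rw [hP, eval₂_zero, eval_rev i hf Q, ← mul_assoc] at h
        rw [eval₂_zero]
        exact (mul_eq_zero.mp h).resolve_right (pow_ne_zero _ hf)
    rw [eval_rev i hf Q, eval_rev i hf P] at h
    have hQr : Q.reverse.coeff 0 ≠ 0 := by
      rw [coeff_zero_reverse]
      exact leadingCoeff_ne_zero.mpr hQ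
    have hPr : P.reverse.coeff 0 ≠ 0 := by
      rw [coeff_zero_reverse]
      exact leadingCoeff_ne_zero.mpr hP
    rcases le_or_gt P.natDegree Q.natDegree with hle | hlt
    · obtain ⟨m, hm⟩ := Nat.exists_eq_add_of_le hle
      refine ⟨P.reverse * X ^ m, Q.reverse, hQr, ?_⟩
      rw [hm, pow_add] at h
      rw [eval₂_mul, eval₂_pow, eval₂_X]
      have hf1 := pow_ne_zero P.natDegree hf
      have hf2 := pow_ne_zero m hf
      have h3 : g * Q.reverse.eval₂ i f⁻¹ * f ^ m = P.reverse.eval₂ i f⁻¹ := by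
        apply mul_right_cancel₀ hf1
        rw [← h]
        ring
      rw [← h3, mul_assoc, mul_assoc, ← mul_pow, mul_inv_cancel₀ hf, one_pow, mul_one]
    · exfalso
      obtain ⟨m, hm⟩ := Nat.exists_eq_add_of_le hlt
      rw [hm, Nat.succ_eq_add_one, add_assoc, pow_add] at h
      have hf1 := pow_ne_zero Q.natDegree hf
      have h3 : g * Q.reverse.eval₂ i f⁻¹ = P.reverse.eval₂ i f⁻¹ * f ^ (1 + m) := by
        apply mul_right_cancel₀ hf1
        rw [mul_assoc, mul_assoc, h]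
        ring
      have h4 : P.reverse.eval₂ i f⁻¹ = (g * Q.reverse.eval₂ i f⁻¹ * f⁻¹ ^ m) * f⁻¹ := by
        rw [h3, mul_assoc, mul_assoc, ← pow_succ, Nat.add_comm m 1, ← mul_pow, mul_inv_cancel₀ hf,
          one_pow, mul_one]
      refine unit_of i hL hi hw hPr ?_
      rw [h4]
      exact hL.mul _ (O.mul_mem (O.mul_mem hg (eval_mem i hi hwO _)) (O.pow_mem hwO _)) _ hw
  obtain ⟨A, B, hB, h⟩ := rep
  have hBu := unit_of i hL hi hw hB
  have hBi : (B.eval₂ i f⁻¹)⁻¹ ∈ O := hL.inv _ (eval_mem i hi hwO _) hBu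
  have hB0 : B.eval₂ i f⁻¹ ≠ 0 := by
    intro h0
    apply hBu
    rw [h0, ← zero_mul f⁻¹]
    exact hL.mul _ O.zero_mem _ hw
  rw [hD.quot hB0 h, hD.chain, hD.chain, hD.inv hf h1]
  have e : q.eval₂ i f * ((A.derivative.eval₂ i f⁻¹ * - f⁻¹ ^ 2 -
      g * (B.derivative.eval₂ i f⁻¹ * - f⁻¹ ^ 2)) * (B.eval₂ i f⁻¹)⁻¹) =
      (q.eval₂ i f * f⁻¹ ^ 2) * ((g * B.derivative.eval₂ i f⁻¹ - A.derivative.eval₂ i f⁻¹) *
        (B.eval₂ i f⁻¹)⁻¹) := by
    ring
  rw [e]
  exact O.mul_mem hq2 (O.mul_mem (O.sub_mem (O.mul_mem hg (eval_mem i hi hwO _))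
    (eval_mem i hi hwO _)) hBi)

end algebra

/-! ### Geometry -/

section geometry

variable {k : Type} [Field k] {E : Scheme.{0}} [IsIntegral E] (π : E ⟶ Sp k)

theorem loc (x : E) : Loc (O x) (Mx x) where
  sub := by
    rintro _ ⟨r, -, rfl⟩
    exact ⟨r, rfl⟩
  add := by
    rintro _ ⟨a, ha, rfl⟩ _ ⟨b, hb, rfl⟩
    exact ⟨a + b, add_mem ha hb, map_add _ _ _⟩
  mul := by
    rintro _ ⟨a, rfl⟩ _ ⟨b, hb, rfl⟩
    exact ⟨a * b, Ideal.mul_mem_left _ _ hb, map_mul _ _ _⟩
  one := by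
    rintro ⟨a, ha, h⟩
    have h1 : a = 1 := by
      apply IsFractionRing.injective (E.presheaf.stalk x) E.functionField
      rw [h, map_one]
    rw [h1, mem_maximalIdeal] at ha
    exact ha isUnit_one
  inv := by
    rintro _ ⟨a, rfl⟩ h
    have h1 : IsUnit a := by
      by_contra h2
      exact h ⟨a, (mem_maximalIdeal a).mpr h2, rfl⟩
    obtain ⟨b, hb⟩ := h1.exists_right_inv
    refine ⟨b, ?_⟩
    apply eq_inv_of_mul_eq_one_right
    rw [← map_mul, hb, map_one]

theorem kfun_mem (x : E) (c : k) : kfun π c ∈ O x := by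
  have hne : Nonempty (⊤ : E.Opens) := ⟨⟨x, trivial⟩⟩
  rw [← germ_kmap π ⊤ c]
  exact germ_mem_O (V := ⊤) x (Set.mem_univ x) _

variable {π} {p : E} {f : E.functionField} (hU : IsAffineOpen (dom f))
  (hdom : ∀ x, x ∈ dom f ↔ x ≠ p)
  (hall : ∀ h : E.functionField, (∀ x, x ≠ p → x ∈ dom h) →
    ∃ P : Polynomial k, h = P.eval₂ (kfun π) f)

include hdom hall

theorem poly (a : Γ(E, dom f)) :
    ∃ P : Polynomial k, E.germToFunctionField (dom f) a = P.eval₂ (kfun π) f :=
  hall _ fun y hy => germ_mem_O y ((hdom y).mpr hy) a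

include hU

theorem rep (x : E) (hx : x ∈ dom f) (g : E.functionField) (hg : g ∈ O x) :
    ∃ A B : Polynomial k, B.eval₂ (kfun π) f ≠ 0 ∧ (B.eval₂ (kfun π) f)⁻¹ ∈ O x ∧
      g * B.eval₂ (kfun π) f = A.eval₂ (kfun π) f := by
  obtain ⟨r, rfl⟩ := hg
  let _ := TopCat.Presheaf.algebra_section_stalk E.presheaf ⟨x, hx⟩
  have hloc := hU.isLocalization_stalk ⟨x, hx⟩
  obtain ⟨⟨a, b⟩, hab⟩ :=
    IsLocalization.surj (hU.primeIdealOf ⟨x, hx⟩).asIdeal.primeCompl r
  have hb : IsUnit (E.presheaf.germ (dom f) x hx b.1) :=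
    IsLocalization.map_units (E.presheaf.stalk x) b
  have hab' : r * E.presheaf.germ (dom f) x hx b.1 = E.presheaf.germ (dom f) x hx a := hab
  obtain ⟨A, hA⟩ := poly hdom hall a
  obtain ⟨B, hB⟩ := poly hdom hall b.1
  refine ⟨A, B, ?_, ?_, ?_⟩
  · rw [← hB, ← Scheme.algebraMap_germ_eq_germToFunctionField (X := E) hx]
    exact (hb.map (algebraMap (E.presheaf.stalk x) E.functionField)).ne_zero
  · rw [← hB]
    exact inv_mem_O x b.1 ((Scheme.mem_basicOpen E b.1 x hx).mpr hb)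
  · rw [← hA, ← hB, ← Scheme.algebraMap_germ_eq_germToFunctionField (X := E) hx,
      ← Scheme.algebraMap_germ_eq_germToFunctionField (X := E) hx, ← hab', map_mul]

theorem exists_c [IsAlgClosed k] (x : E) (hx : x ∈ dom f) (hgen : x ≠ genericPoint E) :
    ∃ c, f - kfun π c ∈ Mx x := by
  have h1 : genericPoint E ∉ closure {x} := by
    intro h
    have h2 : x ⤳ genericPoint E := specializes_iff_mem_closure.mpr h
    exact hgen (h2.antisymm (genericPoint_specializes x)).eq
  obtain ⟨r, hr, hr'⟩ := hU.exists_basicOpen_le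
    (V := (⟨(closure {x})ᶜ, isClosed_closure.isOpen_compl⟩ : E.Opens))
    ⟨genericPoint E, h1⟩ (genericPoint_mem_dom f)
  have hxr : x ∉ E.basicOpen r := fun h => hr h (subset_closure rfl)
  obtain ⟨P, hP⟩ := poly hdom hall r
  have hP0 : P ≠ 0 := by
    rintro rfl
    rw [Polynomial.eval₂_zero] at hP
    have h2 : r = 0 := E.germToFunctionField_injective (dom f) (by rw [hP, map_zero])
    rw [h2, Scheme.basicOpen_zero] at hr'
    exact hr'
  have hPM : P.eval₂ (kfun π) f ∈ Mx x := by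
    rw [← hP]
    refine ⟨E.presheaf.germ (dom f) x hx r, (mem_maximalIdeal _).mpr ?_,
      Scheme.algebraMap_germ_eq_germToFunctionField (X := E) hx r⟩
    intro h
    exact hxr ((Scheme.mem_basicOpen E r x hx).mpr h)
  exact exists_root (kfun π) (loc x) (kfun_mem π x) hx _ P rfl hP0 hPM

end geometry

end DER_

open Polynomial in
/-- The vector fields `q(f) d/df`. -/
theorem t_DER : Stmt_DER := by
  intro k _ _ E π _ _ p hp hpg f hT hU hdom hw hall S hS hcard hpS hSg
  have hf0 : f ≠ 0 := hT.ne_zero π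
  have hinj : ∀ P : k[X], P.eval₂ (kfun π) f = 0 → P = 0 := fun P h => hT (by
    rw [coe_eval₂RingHom, h, eval₂_zero])
  have hfrac : ∀ g : E.functionField, ∃ P Q : k[X], Q ≠ 0 ∧
      g * Q.eval₂ (kfun π) f = P.eval₂ (kfun π) f := by
    intro g
    obtain ⟨A, B, h1, -, h2⟩ := DER_.rep hU hdom hall (genericPoint E) (genericPoint_mem_dom f)
      g (genericPoint_mem_dom g)
    refine ⟨A, B, ?_, h2⟩
    rintro rfl
    exact h1 (eval₂_zero _ _)
  obtain ⟨D, hD, h1⟩ := DER_.exists_der (kfun π) hinj hfrac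
  have hSd : ∀ x : S, (x : E) ∈ dom f := fun x => (hdom _).mpr (by
    rintro h
    exact hpS (h ▸ x.2))
  have hc : ∀ x : S, ∃ c, f - kfun π c ∈ Mx (x : E) := fun x =>
    DER_.exists_c hU hdom hall x.1 (hSd x) (hSg _ x.2)
  choose c hc using hc
  have hfin : Fintype S := hS.fintype
  let q : k[X] := ∏ x : S, (X - C (c x))
  have hq : q.natDegree ≤ 2 := by
    rw [natDegree_finsetProd_X_sub_C_eq_card, Finset.card_univ, ← Nat.card_eq_fintype_card,
      Nat.card_coe_set_eq]
    exact hcard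
  have hq0 : q ≠ 0 := Finset.prod_ne_zero_iff.mpr fun x _ => X_sub_C_ne_zero _
  have hqe : q.eval₂ (kfun π) f ≠ 0 := fun h => hq0 (hinj q h)
  have hqO : ∀ x : E, x ≠ p → q.eval₂ (kfun π) f ∈ O x := fun x hx =>
    DER_.eval_mem (kfun π) (DER_.kfun_mem π x) ((hdom x).mpr hx) q
  have hqM : ∀ x ∈ S, q.eval₂ (kfun π) f ∈ Mx x := by
    classical
    intro x hx
    have e : q = (∏ y ∈ Finset.univ.erase (⟨x, hx⟩ : S), (X - C (c y))) *
        (X - C (c ⟨x, hx⟩)) := (Finset.prod_erase_mul _ _ (Finset.mem_univ _)).symm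
    rw [e, eval₂_mul, eval₂_sub, eval₂_X, eval₂_C]
    exact (DER_.loc x).mul _ (DER_.eval_mem (kfun π) (DER_.kfun_mem π x) (hSd ⟨x, hx⟩) _) _
      (hc ⟨x, hx⟩)
  have hfar : ∀ x : E, x ≠ p → ∀ g ∈ O x, q.eval₂ (kfun π) f * D g ∈ O x ∧
      (q.eval₂ (kfun π) f ∈ Mx x → q.eval₂ (kfun π) f * D g ∈ Mx x) := by
    intro x hx g hg
    obtain ⟨A, B, h2, h3, h4⟩ := DER_.rep hU hdom hall x ((hdom x).mpr hx) g hg
    exact DER_.far hD (DER_.loc x) (DER_.kfun_mem π x) ((hdom x).mpr hx) h1 (hqO x hx) hg h2 h3 h4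
  refine ⟨fun g => q.eval₂ (kfun π) f * D g, ⟨?_, ?_, ?_, ?_⟩, ⟨f, ?_⟩, ?_⟩
  · intro a b
    rw [hD.add, mul_add]
  · intro a b
    rw [hD.mul]
    ring
  · intro a
    rw [hD.const, mul_zero]
  · intro x g hg
    by_cases hx : x = p
    · subst hx
      exact DER_.near (kfun π) hD (DER_.loc x) (DER_.kfun_mem π x) hf0 hw h1 hfrac hq hg
    · exact (hfar x hx g hg).1
  · change q.eval₂ (kfun π) f * D f ≠ 0
    rw [h1, mul_one]
    exact hqe
  · intro x hx g hg
    exact (hfar x (fun h => hpS (h ▸ hx)) g hg).2 (hqM x hx)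

end Pool.Agent.MG.WL.CL


end

section

/-!
# Stability is local on the base
-/

open CategoryTheory CategoryTheory.Limits AlgebraicGeometry TensorProduct

namespace Pool.Agent.MG.WL

open Pool.Agent.MG.W Pool.Agent.MG.One

namespace STL

section

variable {E : Type} [CommRing E] {r : ℕ} (f : Fin r → E) (hf : Ideal.span (Set.range f) = ⊤)
  (B : Fin r → Type) [∀ i, CommRing (B i)] [∀ i, Algebra E (B i)]
  [∀ i, IsLocalization.Away (f i) (B i)]

theorem exists_not_mem (hf : Ideal.span (Set.range f) = ⊤) (P : Ideal E) (hP : P ≠ ⊤) :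
    ∃ i, f i ∉ P := by
  by_contra! h
  apply hP
  rwa [← top_le_iff, ← hf, Ideal.span_le, Set.range_subset_iff]

include hf in
/-- The covering of the spectrum. -/
theorem exists_cover : ∃ 𝒰 : Scheme.OpenCover.{0} (Sp E), ∀ j : 𝒰.I₀, ∃ (i : Fin r) (e : 𝒰.X j ≅ Sp (B i)),
    e.hom ≫ spMap (algebraMap E (B i)) = 𝒰.f j := by
  let 𝒱 : (Sp E).AffineOpenCover :=
    { I₀ := Fin r
      X := fun i => CommRingCat.of (B i)
      f := fun i => spMap (algebraMap E (B i))
      idx := fun x => (exists_not_mem f hf x.asIdeal x.2.ne_top).choose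
      covers := fun x => by
        have h1 := (exists_not_mem f hf x.asIdeal x.2.ne_top).choose_spec
        generalize (exists_not_mem f hf x.asIdeal x.2.ne_top).choose = i at h1
        have h2 := PrimeSpectrum.localization_away_comap_range (B i) (f i)
        exact (eq_iff_iff.mp congr(x ∈ $h2)).mpr h1
      map_prop := fun i => IsOpenImmersion.of_isLocalization (f i) }
  exact ⟨𝒱.openCover, fun j => ⟨j, Iso.refl _, Category.id_comp _⟩⟩

include hf in
/-- Properties which are local on the target. -/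
theorem local_prop (P : MorphismProperty Scheme.{0}) [IsZariskiLocalAtTarget P] {n : ℕ}
    (y : Fam n E) (Y : ∀ i, Fam n (B i))
    (k : ∀ i, Nonempty (Arrow (algebraMap E (B i)) (Y i) y)) (hP : ∀ i, P (Y i).π) : P y.π := by
  obtain ⟨𝒰, h𝒰⟩ := exists_cover f hf B
  rw [IsZariskiLocalAtTarget.iff_of_openCover (P := P) 𝒰]
  intro j
  obtain ⟨i, e, he⟩ := h𝒰 j
  obtain ⟨a⟩ := k i
  have h1 : IsPullback (pullback.fst y.π (𝒰.f j)) (pullback.snd y.π (𝒰.f j)) y.π (𝒰.f j) :=
    IsPullback.of_hasPullback _ _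
  -- the square with the other corner
  have h2 : IsPullback (pullback.fst y.π (𝒰.f j)) (pullback.snd y.π (𝒰.f j) ≫ e.hom) y.π
      (spMap (algebraMap E (B i))) := by
    refine IsPullback.of_iso h1 (Iso.refl _) (Iso.refl _) e (Iso.refl _) ?_ ?_ ?_ ?_
    · simp
    · simp
    · simp
    · simp [he]
  have h3 : P (pullback.snd y.π (𝒰.f j) ≫ e.hom) := by
    have h4 : (h2.isoIsPullback _ _ a.cart).hom ≫ (Y i).π = pullback.snd y.π (𝒰.f j) ≫ e.hom :=
      IsPullback.isoIsPullback_hom_snd _ _ _ _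
    rw [← h4, P.cancel_left_of_respectsIso]
    exact hP i
  rw [P.cancel_right_of_respectsIso] at h3
  exact h3

end

theorem flat_local : IsZariskiLocalAtTarget (@Flat : MorphismProperty Scheme.{0}) :=
  HasRingHomProperty.instIsZariskiLocalAtTarget (Q := RingHom.Flat) _

theorem fp_local :
    IsZariskiLocalAtTarget (@LocallyOfFinitePresentation : MorphismProperty Scheme.{0}) :=
  HasRingHomProperty.instIsZariskiLocalAtTarget (Q := RingHom.FinitePresentation) _

end STL

open _root_.Pool.Agent.MG.WL.STL in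
theorem t_STL : Stmt_STL := by
  intro n g E _ r f hf B _ _ _ y Y hk hY
  refine ⟨?_, ?_, ?_, ?_⟩
  · exact local_prop f hf B @IsProper y Y hk fun i => (hY i).proper
  · have := flat_local
    exact local_prop f hf B @Flat y Y hk fun i => (hY i).flat
  · have := fp_local
    exact local_prop f hf B @LocallyOfFinitePresentation y Y hk fun i => (hY i).fp
  · intro k _ _ s z hz
    obtain ⟨a⟩ := hz
    obtain ⟨i, hi⟩ := exists_not_mem f hf (RingHom.ker s) (RingHom.ker_ne_top s)
    have hu : IsUnit (s (f i)) := by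
      rw [isUnit_iff_ne_zero]
      exact fun h => hi h
    obtain ⟨b⟩ := hk i
    have h1 : (IsLocalization.Away.lift (S := B i) (f i) hu).comp (algebraMap E (B i)) = s := by
      ext x
      exact IsLocalization.Away.lift_eq (f i) hu x
    exact (hY i).fib k (IsLocalization.Away.lift (S := B i) (f i) hu) z
      ⟨arrowLift (castA h1.symm a) b⟩

end Pool.Agent.MG.WL


end

section

/-!
# HE: every thickening of a curve `y² = f(x)` is a curve `y² = f'(x)`
-/

open CategoryTheory CategoryTheory.Limits AlgebraicGeometry TensorProduct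

namespace Pool.Agent.MG.H2.HES

open Pool.Agent.MG.GLU Pool.Agent.MG.KSU

section

variable {B E J : Type} [CommRing B] [CommRing E] [Fintype J] {S : SqE B E J} (P : Fin 7 → B)

/-- the affine chart -/
noncomputable def w1 : Sp (A1 B P) ⟶ (Hyp P).X := HX.in1 B P

/-- the chart at infinity -/
noncomputable def w2 : Sp (A2 B P) ⟶ (Hyp P).X := HX.in2 B P

/-- the intersection -/
noncomputable def w12 : Sp (A12 B P) ⟶ (Hyp P).X := spMap (g1 B P) ≫ w1 P

instance o1 : IsOpenImmersion (w1 P) := inferInstanceAs (IsOpenImmersion (HX.in1 B P))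

instance o2 : IsOpenImmersion (w2 P) := inferInstanceAs (IsOpenImmersion (HX.in2 B P))

instance o12 : IsOpenImmersion (w12 P) := by
  unfold w12
  infer_instance

theorem w12_2 : w12 P = spMap (g2 B P) ≫ w2 P :=
  pushout.condition (f := spMap (g1 B P)) (g := spMap (g2 B P))

theorem w1_π : w1 P ≫ (Hyp P).π = spMap (algebraMap B _) := HX.in1_pr B P

theorem w2_π : w2 P ≫ (Hyp P).π = spMap (algebraMap B _) := HX.in2_pr B P

theorem w12_π : w12 P ≫ (Hyp P).π = spMap (algebraMap B _) := by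
  unfold w12
  rw [Category.assoc, w1_π, spMap_comp']
  exact congrArg (fun f => spMap f) (RingHom.ext fun c => g1_b B P c)

/-- the first open set -/
noncomputable def U1 : (Hyp P).X.Opens := (w1 P).opensRange

/-- the second open set -/
noncomputable def U2 : (Hyp P).X.Opens := (w2 P).opensRange

theorem U12 : (w12 P).opensRange = U1 P ⊓ U2 P :=
  (glue2_inter (spMap (g1 B P)) (spMap (g2 B P))).symm

theorem cov : U1 P ⊔ U2 P = ⊤ :=
  glue2_range (spMap (g1 B P)) (spMap (g2 B P))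

theorem aff1 : IsAffineOpen (U1 P) := isAffineOpen_opensRange _

theorem aff2 : IsAffineOpen (U2 P) := isAffineOpen_opensRange _

theorem aff12 : IsAffineOpen (U1 P ⊓ U2 P) := by
  rw [← U12]
  exact isAffineOpen_opensRange _

/-- functions on the first chart -/
noncomputable def m1 : Γ((Hyp P).X, U1 P) →+* A1 B P := gm (w1 P) (U1 P) (le_range _ rfl)

/-- functions on the second chart -/
noncomputable def m2 : Γ((Hyp P).X, U2 P) →+* A2 B P := gm (w2 P) (U2 P) (le_range _ rfl)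

/-- functions on the intersection -/
noncomputable def m12 : Γ((Hyp P).X, U1 P ⊓ U2 P) →+* A12 B P :=
  gm (w12 P) (U1 P ⊓ U2 P) (le_range _ (U12 P))

theorem b1 : Function.Bijective (m1 P) := gm_bij _ _ _ rfl

theorem b2 : Function.Bijective (m2 P) := gm_bij _ _ _ rfl

theorem b12 : Function.Bijective (m12 P) := gm_bij _ _ _ (U12 P)

theorem mr1 (v : Γ((Hyp P).X, U1 P)) :
    m12 P (rs (Hyp P).X inf_le_left v) = g1 B P (m1 P v) :=
  gm_rs (w1 P) (g1 B P) (w12 P) rfl inf_le_left _ _ v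

theorem mr2 (v : Γ((Hyp P).X, U2 P)) :
    m12 P (rs (Hyp P).X inf_le_right v) = g2 B P (m2 P v) :=
  gm_rs (w2 P) (g2 B P) (w12 P) (w12_2 P) inf_le_right _ _ v

theorem mc1 (c : B) : m1 P (coef (Hyp P).π (U1 P) c) = algebraMap B _ c :=
  gm_coef _ _ _ (w1_π P) _ _ c

theorem mc2 (c : B) : m2 P (coef (Hyp P).π (U2 P) c) = algebraMap B _ c :=
  gm_coef _ _ _ (w2_π P) _ _ c

theorem mc12 (c : B) : m12 P (coef (Hyp P).π (U1 P ⊓ U2 P) c) = algebraMap B _ c :=
  gm_coef _ _ _ (w12_π P) _ _ c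

variable (t : Thk S (Hyp P))

theorem good1 : Good t (U1 P) := goodAff t _ (t_AFF t _ (aff1 P))

theorem good2 : Good t (U2 P) := goodAff t _ (t_AFF t _ (aff2 P))

theorem good12 : Good t (U1 P ⊓ U2 P) := goodAff t _ (t_AFF t _ (aff12 P))

/-- the ring data of the thickening -/
noncomputable def D : HData S P where
  G1 := Γ(t.y.X, t.op (U1 P))
  G2 := Γ(t.y.X, t.op (U2 P))
  G12 := Γ(t.y.X, t.op (U1 P ⊓ U2 P))
  a1 := coef t.y.π (t.op (U1 P))
  a2 := coef t.y.π (t.op (U2 P))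
  a12 := coef t.y.π (t.op (U1 P ⊓ U2 P))
  f1 := rs t.y.X (t.op_mono inf_le_left)
  f2 := rs t.y.X (t.op_mono inf_le_right)
  fa1 z := coef_rs _ _ z
  fa2 z := coef_rs _ _ z
  q1 := (m1 P).comp (t.q (U1 P))
  q2 := (m2 P).comp (t.q (U2 P))
  q12 := (m12 P).comp (t.q (U1 P ⊓ U2 P))
  qa1 z := by
    change m1 P (t.q (U1 P) (coef t.y.π (t.op (U1 P)) z)) = _
    rw [t.q_coef, mc1]
  qa2 z := by
    change m2 P (t.q (U2 P) (coef t.y.π (t.op (U2 P)) z)) = _
    rw [t.q_coef, mc2]
  qa12 z := by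
    change m12 P (t.q _ (coef t.y.π (t.op _) z)) = _
    rw [t.q_coef, mc12]
  qf1 v := by
    change m12 P (t.q _ (rs t.y.X (t.op_mono inf_le_left) v)) = g1 B P (m1 P (t.q _ v))
    rw [t.q_rs inf_le_left, mr1]
  qf2 v := by
    change m12 P (t.q _ (rs t.y.X (t.op_mono inf_le_right) v)) = g2 B P (m2 P (t.q _ v))
    rw [t.q_rs inf_le_right, mr2]
  sur1 := (b1 P).2.comp (good1 P t).sur
  sur2 := (b2 P).2.comp (good2 P t).sur
  sur12 := (b12 P).2.comp (good12 P t).sur
  ker1 v hv := (good1 P t).ker v ((map_eq_zero_iff _ (b1 P).1).1 hv)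
  ker2 v hv := (good2 P t).ker v ((map_eq_zero_iff _ (b2 P).1).1 hv)
  ker12 v hv := (good12 P t).ker v ((map_eq_zero_iff _ (b12 P).1).1 hv)
  un1 w hw j := by
    change m1 P (t.q (U1 P) (w j)) = 0
    rw [(good1 P t).un w hw j, map_zero]
  un2 w hw j := by
    change m2 P (t.q (U2 P) (w j)) = 0
    rw [(good2 P t).un w hw j, map_zero]
  un12 w hw j := by
    change m12 P (t.q _ (w j)) = 0
    rw [(good12 P t).un w hw j, map_zero]

variable {P t}

theorem red_piece {R R' : Type} [CommRing R] [CommRing R'] {U : (Hyp P).X.Opens}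
    (w : Sp R ⟶ (Hyp P).X) (hw : ⊤ ≤ w ⁻¹ᵁ U) (hU' : IsAffineOpen (t.op U))
    (e : R' ≃+* Γ(t.y.X, t.op U)) (u : R' →+* R)
    (h : ∀ v, gm w U hw (t.q U (e v)) = u v) :
    w ≫ t.r.f = spMap u ≫ ww hU' e.symm := by
  have hle : ⊤ ≤ (w ≫ t.r.f) ⁻¹ᵁ (t.op U) := by
    intro a ha
    have h1 : w a ∈ t.r.f ⁻¹ᵁ (t.op U) := by
      rw [t.pre]
      exact hw ha
    change (w ≫ t.r.f) a ∈ t.op U
    rw [Scheme.Hom.comp_apply]
    exact h1
  refine ww_eq hU' e.symm _ hle _ fun v => ?_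
  have h1 := gm_nat t.r.f (w ≫ t.r.f) w (RingHom.id R)
    (spMap_id_comp _).symm (t.op U) U hle hw (t.pre U).ge v
  have h2 : gm (w ≫ t.r.f) (t.op U) hle v = gm w U hw (t.q U v) := h1.symm
  rw [h2]
  have h3 := h (e.symm v)
  rw [e.apply_symm_apply] at h3
  exact h3

theorem rs_piece {R R' : Type} [CommRing R] [CommRing R'] {U U' : (Hyp P).X.Opens} (hUU : U' ≤ U)
    (hU : IsAffineOpen (t.op U)) (hU' : IsAffineOpen (t.op U'))
    (e : R ≃+* Γ(t.y.X, t.op U)) (e' : R' ≃+* Γ(t.y.X, t.op U')) (g : R →+* R')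
    (h : ∀ v, rs t.y.X (t.op_mono hUU) (e v) = e' (g v)) :
    ww hU' e'.symm = spMap g ≫ ww hU e.symm := by
  have hl : ⊤ ≤ ww hU' e'.symm ⁻¹ᵁ (t.op U) :=
    (ww_le hU' e'.symm).trans fun _ hx => t.op_mono hUU hx
  refine ww_eq hU e.symm _ hl _ fun v => ?_
  have h1 := gm_rs (ww hU' e'.symm) (RingHom.id R') (ww hU' e'.symm) (spMap_id_comp _).symm
    (W := t.op U) (W' := t.op U') (t.op_mono hUU) hl (ww_le hU' e'.symm) v
  rw [ww_gm] at h1
  have h2 : gm (ww hU' e'.symm) (t.op U) hl v = e'.symm (rs t.y.X (t.op_mono hUU) v) := h1.symm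
  rw [h2, RingEquiv.symm_apply_eq]
  have h3 := h (e.symm v)
  rw [e.apply_symm_apply] at h3
  exact h3

end

end Pool.Agent.MG.H2.HES

namespace Pool.Agent.MG.H2

open Pool.Agent.MG.GLU Pool.Agent.MG.KSU HES

theorem t_HE (hHEA : Stmt_HEA) : Stmt_HE := by
  intro B E J _ _ _ S P h2 t
  obtain ⟨P', hf, e1, e2, e12, c1, c2, f1, f2, q1, q2⟩ := hHEA S P h2 (HES.D P t)
  let E1 : A1 E P' ≃+* Γ(t.y.X, t.op (U1 P)) := e1
  let E2 : A2 E P' ≃+* Γ(t.y.X, t.op (U2 P)) := e2
  let E12 : A12 E P' ≃+* Γ(t.y.X, t.op (U1 P ⊓ U2 P)) := e12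
  have F1 := t_AFF t _ (aff1 P)
  have F2 := t_AFF t _ (aff2 P)
  have F12 := t_AFF t _ (aff12 P)
  have k1 : ww F12 E12.symm = spMap (g1 E P') ≫ ww F1 E1.symm :=
    rs_piece inf_le_left F1 F12 E1 E12 (g1 E P') f1
  have k2 : ww F12 E12.symm = spMap (g2 E P') ≫ ww F2 E2.symm :=
    rs_piece inf_le_right F2 F12 E2 E12 (g2 E P') f2
  have r1 : (ww F1 E1.symm).opensRange = t.op (U1 P) := ww_range F1 E1.symm
  have r2 : (ww F2 E2.symm).opensRange = t.op (U2 P) := ww_range F2 E2.symm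
  have r12 : (ww F12 E12.symm).opensRange = t.op (U1 P ⊓ U2 P) := ww_range F12 E12.symm
  have comm : spMap (g1 E P') ≫ ww F1 E1.symm = spMap (g2 E P') ≫ ww F2 E2.symm := by
    rw [← k1, k2]
  -- the thickening is the push out of the charts
  have push : IsPushout (spMap (g1 E P')) (spMap (g2 E P')) (ww F1 E1.symm)
      (ww F2 E2.symm) := by
    refine glue_push comm ?_ ?_
    · intro z
      have hz : z ∈ t.op (U1 P) ⊔ t.op (U2 P) := by
        rw [← t.op_sup, cov, t.op_top]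
        trivial
      rcases hz with hz | hz
      · left
        have h1 : z ∈ (ww F1 E1.symm).opensRange := by
          rw [r1]
          exact hz
        exact h1
      · right
        have h1 : z ∈ (ww F2 E2.symm).opensRange := by
          rw [r2]
          exact hz
        exact h1
    · intro x y hxy
      have h1 : ww F1 E1.symm x ∈ t.op (U1 P) := le_range _ r1 (show x ∈ ⊤ by trivial)
      have h2 : ww F2 E2.symm y ∈ t.op (U2 P) := le_range _ r2 (show y ∈ ⊤ by trivial)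
      have h3 : ww F1 E1.symm x ∈ (ww F12 E12.symm).opensRange := by
        rw [r12, t.op_inf]
        exact ⟨h1, hxy ▸ h2⟩
      obtain ⟨w, hw⟩ := h3
      refine ⟨w, ?_, ?_⟩
      · apply (ww F1 E1.symm).isOpenEmbedding.injective
        rw [← Scheme.Hom.comp_apply, ← k1]
        exact hw
      · apply (ww F2 E2.symm).isOpenEmbedding.injective
        rw [← Scheme.Hom.comp_apply, ← k2, ← hxy]
        exact hw
  let f : t.y.X ⟶ HX E P' := push.isoPushout.hom
  have hf1 : ww F1 E1.symm ≫ f = HX.in1 E P' := push.inl_isoPushout_hom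
  have hf2 : ww F2 E2.symm ≫ f = HX.in2 E P' := push.inr_isoPushout_hom
  have hfi : IsIso f := inferInstanceAs (IsIso push.isoPushout.hom)
  have hπ : f ≫ HX.pr E P' = t.y.π := by
    apply push.hom_ext
    · rw [← Category.assoc, hf1, HX.in1_pr]
      refine (ww_π F1 E1.symm t.y.π _ fun c => ?_).symm
      rw [RingEquiv.symm_apply_eq]
      exact (c1 c).symm
    · rw [← Category.assoc, hf2, HX.in2_pr]
      refine (ww_π F2 E2.symm t.y.π _ fun c => ?_).symm
      rw [RingEquiv.symm_apply_eq]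
      exact (c2 c).symm
  have hid : spMap (RingHom.id E) = 𝟙 _ := Spec.map_id _
  refine ⟨P', hf, ⟨f, ?_, fun i => i.elim0⟩, ?_⟩
  · have : IsIso (spMap (RingHom.id E)) := by
      rw [hid]
      infer_instance
    refine IsPullback.of_horiz_isIso ⟨?_⟩
    rw [hid, Category.comp_id]
    exact hπ
  · refine HX.ext' ?_ ?_
    · change HX.in1 B P ≫ t.r.f ≫ f = HX.in1 B P ≫ HX.map S.p hf
      have h1 : w1 P ≫ t.r.f = spMap (bc1 S.p hf) ≫ ww F1 E1.symm :=
        red_piece (w1 P) (le_range _ rfl) F1 E1 _ q1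
      have h2 : HX.in1 B P ≫ t.r.f = spMap (bc1 S.p hf) ≫ ww F1 E1.symm := h1
      rw [HX.in1_map, ← Category.assoc, h2, Category.assoc, hf1]
    · change HX.in2 B P ≫ t.r.f ≫ f = HX.in2 B P ≫ HX.map S.p hf
      have h1 : w2 P ≫ t.r.f = spMap (bc2 S.p hf) ≫ ww F2 E2.symm :=
        red_piece (w2 P) (le_range _ rfl) F2 E2 _ q2
      have h2 : HX.in2 B P ≫ t.r.f = spMap (bc2 S.p hf) ≫ ww F2 E2.symm := h1
      rw [HX.in2_map, ← Category.assoc, h2, Category.assoc, hf2]

end Pool.Agent.MG.H2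


end

section

/-!
# The curves `y² = f(x)` with the covectors `q(x) (dx)²/f(x)`: all the data
-/

open CategoryTheory CategoryTheory.Limits AlgebraicGeometry Polynomial

namespace Pool.Agent.MG.H2

namespace GeoM

section lift

variable {A : Type} [CommRing A]

theorem cf7_pp (f : Fin 7 → A) : cf7 (pp A f) = f := by
  funext i
  simp only [cf7, pp, pol, coeff_add, coeff_C_mul, coeff_X_pow, coeff_C, coeff_X]
  fin_cases i <;> simp

theorem pp_deg (f : Fin 7 → A) : (pp A f).natDegree ≤ 6 := by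
  simp only [pp, pol]
  compute_degree

/-- Nilpotent extensions. -/
theorem good_lift {K : Type} [Field K] (p : A →+* K) (s : K →+* A)
    (hk : ∀ a, IsNilpotent (a - s (p a))) {F : A[X]} (hF : F.natDegree ≤ 6)
    (hg : Two2.Good (F.map p)) : Two2.Good F := by
  rw [Two2.good_iff] at hg ⊢
  refine ⟨hF, fun L _ ψ => ?_⟩
  have e : F.map ψ = (F.map p).map (ψ.comp s) := by
    rw [map_map]
    congr 1
    refine RingHom.ext fun a => ?_
    have h1 : IsNilpotent (ψ (a - s (p a))) := (hk a).map ψ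
    have h2 := h1.eq_zero
    rw [map_sub, sub_eq_zero] at h2
    exact h2
  rw [e]
  exact hg.2 L (ψ.comp s)

theorem stb_aux (hYHT : Stmt_YHT) {K : Type} [Field K] [Algebra ℂ K] (p : A →+* K) (s : K →+* A)
    (hk : ∀ a, IsNilpotent (a - s (p a))) (g : K[X]) (hg : Two2.Good g)
    (f : Fin 7 → A) (hf : ∀ i, cf7 g i = p (f i)) : IsStable 2 (Hyp f) := by
  let _ : Algebra ℂ A := (s.comp (algebraMap ℂ K)).toAlgebra
  have e : (pp A f).map p = g := by
    have h1 : cf7 ((pp A f).map p) = cf7 g := by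
      funext i
      rw [cf7_map, cf7_pp, hf]
    rw [← GeoN.pp_cf7 (B := K) (f := (pp A f).map p) (natDegree_map_le.trans (pp_deg f)), h1,
      GeoN.pp_cf7 hg.deg]
  have h := good_lift p s hk (pp_deg f) (e ▸ hg)
  have h2 := GeoN.hsm h
  rw [cf7_pp] at h2
  exact hYHT f h2

end lift

theorem stb (hYHT : Stmt_YHT) {K : Type} [Field K] [Algebra ℂ K] (r : Fin 6 → K)
    (hr : Function.Injective r) : HCU.Stb (rts r) := by
  have hg : Two2.Good (∏ i, (X - C (r i)) : K[X]) 
      := Two2.good_prod (Or.inr (by simp)) r hr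
  constructor
  · intro f hf
    refine stb_aux hYHT (eps0 K) (TrivSqZeroExt.inlHom K K) (fun a => ⟨2, ?_⟩) _ hg f hf
    rw [sq]
    exact HCU.sq_zero _ (sub_self _)
  · intro f hf
    refine stb_aux hYHT (eps20 K) (TrivSqZeroExt.inlHom K (K × K)) (fun a => ⟨2, ?_⟩) _ hg f hf
    rw [sq]
    exact HCU.sq_zero _ (sub_self _)

theorem m_surj (hHTR : Stmt_HTR) (hYHT : Stmt_YHT) (hVAL : Stmt_VAL) {K : Type} [Field K]
    [Algebra ℂ K] (r : Fin 6 → K)
    (hr : Function.Injective r) (hf : Two2.Good (∏ i, (X - C (r i)) : K[X]))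
    (l : Cov 2 (Hyp (cf7 (∏ i, (X - C (r i)))))) :
    ∃ q : K[X], q.natDegree ≤ 2 ∧ l = GeoA.cv (∏ i, (X - C (r i))) hf q := by
  have : CharZero K := charZero_of_injective_algebraMap (algebraMap ℂ K).injective
  obtain ⟨u, hu, h⟩ := hVAL r hr (GeoA.hok hf)
  refine surj_of (t_HE (t_HEA t_HRG)) hHTR t_HLI t_HBC r hr (stb hYHT r hr)
    (fun q => GeoA.cv _ hf q) u hu (fun q i hs hc hq => ?_) l
  have e := h (GeoA.cq q) i hs hc
  refine e.trans ?_
  have h1 : q.eval (r i) = q.coeff 0 + q.coeff 1 * r i + q.coeff 2 * r i ^ 2 := by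
    rw [eval_eq_sum_range' (n := 3) (by omega)]
    simp [Finset.sum_range_succ]
  have h2 : GeoA.cq q 0 - GeoA.cq q 1 * r i + GeoA.cq q 2 * r i ^ 2 = q.eval (r i) := by
    rw [h1]
    change q.coeff 0 - (-q.coeff 1) * r i + q.coeff 2 * r i ^ 2 = _
    ring
  rw [h2]

end GeoM

/-- The geometric data in genus two. -/
noncomputable def mdl (hHTR : Stmt_HTR) (hYHT : Stmt_YHT) (hVAL : Stmt_VAL) (hREG : Stmt_REG) :
    Mdl where
  crv := fun f => Hyp (cf7 f)
  st := fun f hf => hYHT (cf7 f) (GeoN.hsm hf)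
  cov := fun f hf q => GeoA.cv f hf q
  bc := fun φ f q hf hf' _ => GeoA.m_bc φ f q hf hf'
  sc := fun a b f q f' q' hf hf' ha hb _ _ h1 h2 => GeoA.m_sc a b f q f' q' hf hf' ha hb h1 h2
  tr := fun e f q hf hf' he hq => GeoA.m_tr e f q hf hf' he hq
  inv := fun f q hf hf' _ => GeoA.m_inv f q hf hf'
  reg := fun φ hφ s ρ r e h1 h2 h3 h4 h5 hf => hREG φ hφ s ρ r e h1 h2 h3 h4 h5 hf
  surj := fun r hr hf l => GeoM.m_surj hHTR hYHT hVAL r hr hf l
  link := fun r _ => GeoA.m_link r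

end Pool.Agent.MG.H2


end

section

/-!
# Module SDF (PAPER SM8): duality over algebraically closed fields
-/

namespace Pool.Agent.MG.G0

namespace SDF

section general

variable {I A : Type} [CommRing A]

theorem theta_om {P : Subalgebra A (KK I A)} {θ ω : KK I A} (hθ : θ ∈ TT P) (hω : ω ∈ Om P) :
    θ * ω ∈ P := by
  refine Submodule.span_induction (p := fun ω _ => θ * ω ∈ P) ?_ ?_ ?_ ?_ hω
  · rintro _ ⟨p, hp, f, hf, rfl⟩
    have h : θ * (p * dd f) = p * (θ * dd f) := by ring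
    rw [h]
    exact mul_mem hp (hθ f hf)
  · rw [mul_zero]
    exact zero_mem P
  · intro x y _ _ hx hy
    rw [mul_add]
    exact add_mem hx hy
  · intro a x _ hx
    rw [mul_smul_comm]
    exact P.smul_mem hx a

theorem mul_dd_mem_Om {P : Subalgebra A (KK I A)} {p f : KK I A} (hp : p ∈ P) (hf : f ∈ P) :
    p * dd f ∈ Om P := Submodule.subset_span ⟨p, hp, f, hf, rfl⟩

theorem psl_coeff_nat (f : PowerSeries A) (n : ℕ) :
    (psl A f).coeff (n : ℤ) = PowerSeries.coeff n f := by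
  rw [psl, HahnSeries.ofPowerSeries_apply_coeff]

theorem psl_coeff_neg (f : PowerSeries A) {m : ℤ} (hm : m < 0) : (psl A f).coeff m = 0 := by
  rw [psl, HahnSeries.ofPowerSeries_apply]
  refine HahnSeries.embDomain_of_notMem_range ?_
  rintro ⟨n, hn⟩
  have h2 : ((n : ℕ) : ℤ) = m := hn
  omega

theorem ld_psl (f : PowerSeries A) : ld (psl A f) = psl A (PowerSeries.derivative A f) := by
  ext m
  rw [ld_coeff]
  rcases lt_or_ge m 0 with hm | hm
  · rw [psl_coeff_neg _ hm]
    rcases eq_or_ne (m + 1) 0 with h | h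
    · rw [h]
      simp
    · rw [psl_coeff_neg f (by omega), mul_zero]
  · obtain ⟨n, rfl⟩ := Int.eq_ofNat_of_zero_le hm
    have e : ((n : ℤ) + 1) = ((n + 1 : ℕ) : ℤ) := by push_cast; ring
    rw [e, psl_coeff_nat, psl_coeff_nat, PowerSeries.coeff_derivative]
    push_cast
    ring

end general

section finite

variable {I κ : Type} [Fintype I] [Nonempty I] [Field κ] {g : ℕ} {P : Subalgebra κ (KK I κ)}

/-- The series in `Perp P` with bounded poles form a space of finite dimension. -/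
theorem perp_pol (hP : IsKr g P) (M : ℕ) :
    (Perp P ⊓ Pol I κ M : Submodule κ (KK I κ)).FG := by
  classical
  obtain ⟨L, hL, hker⟩ := hP.k2
  choose v hv using fun j : Fin g => hL (Pi.single j 1)
  rw [← Module.Finite.iff_fg]
  let F : ↥(Perp P ⊓ Pol I κ M : Submodule κ (KK I κ)) →ₗ[κ] (Fin g → κ) × (I × Fin M → κ) :=
    { toFun := fun x => (fun j => res ((x : KK I κ) * v j),
        fun q => ((x : KK I κ) q.1).coeff (-((q.2 : ℕ) : ℤ) - 1))
      map_add' := fun x y => by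
        refine Prod.ext (funext fun j => ?_) (funext fun q => ?_)
        · change res (((x : KK I κ) + (y : KK I κ)) * v j) =
            res ((x : KK I κ) * v j) + res ((y : KK I κ) * v j)
          rw [add_mul, map_add]
        · change ((x : KK I κ) q.1 + (y : KK I κ) q.1).coeff _ = _
          rw [HahnSeries.coeff_add]
          rfl
      map_smul' := fun a x => by
        refine Prod.ext (funext fun j => ?_) (funext fun q => ?_)
        · change res ((a • (x : KK I κ)) * v j) = a • res ((x : KK I κ) * v j)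
          rw [smul_mul_assoc, map_smul]
        · change (a • (x : KK I κ) q.1).coeff _ = _
          rw [HahnSeries.coeff_smul]
          rfl }
  refine Module.Finite.of_injective F ?_
  rw [injective_iff_map_eq_zero]
  intro x hx
  have h1 : ∀ j, res ((x : KK I κ) * v j) = 0 := fun j => congrFun (congrArg Prod.fst hx) j
  have h2 : ∀ q : I × Fin M, ((x : KK I κ) q.1).coeff (-((q.2 : ℕ) : ℤ) - 1) = 0 :=
    fun q => congrFun (congrArg Prod.snd hx) q
  have h3 : (x : KK I κ) ∈ Pol I κ 0 := by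
    intro i m hm
    by_cases h : m < -(M : ℤ)
    · exact x.2.2 i m h
    · have h4 := h2 (i, ⟨(-m - 1).toNat, by omega⟩)
      have e : (-(((-m - 1).toNat : ℕ) : ℤ) - 1) = m := by omega
      simpa only [e] using h4
  have h5 : ∀ f : KK I κ, res ((x : KK I κ) * f) = 0 := by
    intro f
    have h0 : L (f - ∑ j, L f j • v j) = 0 := by
      rw [map_sub, map_sum]
      have h1 : ∀ j : Fin g, L (L f j • v j) = Pi.single j (L f j) := fun j => by
        rw [map_smul, hv]
        funext k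
        by_cases hk : k = j
        · subst hk
          simp
        · simp [Pi.single_eq_of_ne hk]
      rw [Finset.sum_congr rfl fun j _ => h1 j, Finset.univ_sum_single, sub_self]
    obtain ⟨p, hp, hp'⟩ := (hker _).1 h0
    have e : (x : KK I κ) * f = (x : KK I κ) * (f - ∑ j, L f j • v j - p) + (x : KK I κ) * p +
        ∑ j, L f j • ((x : KK I κ) * v j) := by
      simp only [← mul_smul_comm, ← Finset.mul_sum]
      ring
    rw [e, map_add, map_add, res_Pol0 (mul_mem_Pol0 h3 hp'), x.2.1 p hp, map_sum]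
    simp only [map_smul, h1, smul_zero, Finset.sum_const_zero, add_zero]
  refine Subtype.ext ?_
  funext i
  ext m
  have h6 := h5 (mon i (-1 - m) 1)
  rw [res_mul_mon] at h6
  have e : -1 - (-1 - m) = m := by ring
  rw [e, mul_one] at h6
  rw [h6]
  simp

/-- `Perp P` is `Om P` up to a space of finite dimension. -/
theorem perp_le (hP : IsKr g P) (hom : Om P ≤ Perp P) : ∃ F : Submodule κ (KK I κ), F.FG ∧ Perp P ≤ Om P ⊔ F := by
  classical
  obtain ⟨L, hL, hker⟩ := hP.k2
  obtain ⟨N, hN⟩ := KNZ.exists_dense hP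
  obtain ⟨d, hd1, hd2⟩ : ∃ d : ℕ, (N : ℤ) < d ∧ ((d : ℕ) : κ) ≠ 0 := by
    by_cases h : ((N + 1 : ℕ) : κ) = 0
    · refine ⟨N + 2, by push_cast; omega, fun h2 => ?_⟩
      have h3 : ((N + 2 : ℕ) : κ) = ((N + 1 : ℕ) : κ) + 1 := by
        push_cast
        ring
      rw [h3, h, zero_add] at h2
      exact one_ne_zero h2
    · exact ⟨N + 1, by push_cast; omega, h⟩
  obtain ⟨z, hz, hz1, hz2⟩ := KNZ.exists_lead hN hd1 fun _ => (1 : κ)
  have hu : ∃ w : KK I κ, dd z * w = 1 := by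
    have h1 : ∀ i, ld (z i) ≠ 0 := by
      intro i hi
      have h2 : (ld (z i)).coeff (-(d : ℤ) - 1) = 0 := by rw [hi, HahnSeries.coeff_zero]
      rw [ld_coeff] at h2
      have e : -(d : ℤ) - 1 + 1 = -(d : ℤ) := by ring
      rw [e, hz2 i, mul_one] at h2
      have h3 : ((-(d : ℤ) : ℤ) : κ) = -((d : ℕ) : κ) := by push_cast; ring
      rw [h3, neg_eq_zero] at h2
      exact hd2 h2
    exact ⟨fun i => (ld (z i))⁻¹, funext fun i => mul_inv_cancel₀ (h1 i)⟩
  obtain ⟨w, hw⟩ := hu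
  let ℓ : KK I κ →ₗ[κ] (Fin g → κ) := L ∘ₗ LinearMap.mulRight κ w
  have hFG : ((Perp P).map ℓ).FG := IsNoetherian.noetherian _
  obtain ⟨S, hS⟩ := hFG
  have hS' : ∀ s ∈ S, ∃ x ∈ Perp P, ℓ x = s := fun s hs =>
    Submodule.mem_map.1 (hS ▸ Submodule.subset_span hs)
  choose! ξ hξ1 hξ2 using hS'
  refine ⟨Submodule.span κ (ξ '' S) ⊔ (Perp P ⊓ Pol I κ ((d + 1 : ℕ) : ℤ)),
    Submodule.FG.sup (Submodule.fg_span (S.finite_toSet.image ξ)) (perp_pol hP (d + 1)), ?_⟩
  intro x hx
  have h1 : ℓ x ∈ Submodule.span κ (ℓ '' (ξ '' S)) := by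
    have h2 : ℓ '' (ξ '' S) = S := by
      ext t
      constructor
      · rintro ⟨_, ⟨s, hs, rfl⟩, rfl⟩
        rw [hξ2 s hs]
        exact hs
      · intro ht
        exact ⟨ξ t, ⟨t, ht, rfl⟩, hξ2 t ht⟩
    rw [h2, hS]
    exact Submodule.mem_map_of_mem hx
  rw [← Submodule.map_span] at h1
  obtain ⟨x', hx', hx''⟩ := h1
  have hx'P : x' ∈ Perp P := by
    refine (Submodule.span_le.2 ?_) hx'
    rintro _ ⟨s, hs, rfl⟩
    exact hξ1 s hs
  have h3 : L ((x - x') * w) = 0 := by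
    have h4 : ℓ (x - x') = 0 := by rw [map_sub, hx'', sub_self]
    exact h4
  obtain ⟨p, hp, hp'⟩ := (hker _).1 h3
  have e : x - x' = p * dd z + ((x - x') * w - p) * dd z := by
    have : (x - x') * (dd z * w) = x - x' := by rw [hw, mul_one]
    linear_combination -this
  have h5 : ((x - x') * w - p) * dd z ∈ Perp P ⊓ Pol I κ ((d + 1 : ℕ) : ℤ) := by
    refine ⟨?_, ?_⟩
    · have h6 : ((x - x') * w - p) * dd z = (x - x') - p * dd z := by
        linear_combination -e
      rw [h6]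
      exact sub_mem (sub_mem hx hx'P) (hom (mul_dd_mem_Om hp hz))
    · have := mul_mem_Pol hp' (dd_mem_Pol hz1)
      rw [zero_add] at this
      exact_mod_cast this
  have e2 : x = p * dd z + (x' + ((x - x') * w - p) * dd z) := by
    linear_combination e
  rw [e2]
  refine Submodule.add_mem_sup (mul_dd_mem_Om hp hz) (Submodule.add_mem_sup hx' h5)

/-- The functions which send `η` to `Om P`. -/
noncomputable def JJ (hmul : ∀ p ∈ P, ∀ ω ∈ Om P, p * ω ∈ Om P) (η : KK I κ) : Ideal P where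
  carrier := {s | (s : KK I κ) * η ∈ Om P}
  add_mem' {a b} ha hb := by
    change ((a : KK I κ) + (b : KK I κ)) * η ∈ Om P
    rw [add_mul]
    exact add_mem ha hb
  zero_mem' := by
    change (0 : KK I κ) * η ∈ Om P
    rw [zero_mul]
    exact zero_mem _
  smul_mem' c x hx := by
    change ((c : KK I κ) * (x : KK I κ)) * η ∈ Om P
    rw [mul_assoc]
    exact hmul _ c.2 _ hx

theorem mem_JJ {hmul : ∀ p ∈ P, ∀ ω ∈ Om P, p * ω ∈ Om P} {η : KK I κ} {s : P} :
    s ∈ JJ hmul η ↔ (s : KK I κ) * η ∈ Om P := Iff.rfl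

theorem finite_JJ (hP : IsKr g P) (hom : Om P ≤ Perp P)
    (hmul : ∀ p ∈ P, ∀ ω ∈ Om P, p * ω ∈ Om P) {η : KK I κ} (hη : η ∈ Perp P) :
    Module.Finite κ (P ⧸ JJ hmul η) := by
  obtain ⟨F, hF, hle⟩ := perp_le hP hom
  let φ : P →ₗ[κ] (KK I κ ⧸ Om P) :=
    (Om P).mkQ ∘ₗ (LinearMap.mulRight κ η) ∘ₗ P.val.toLinearMap
  have hker : LinearMap.ker φ = (JJ hmul η).restrictScalars κ := by
    ext s
    rw [LinearMap.mem_ker]
    change (Om P).mkQ ((s : KK I κ) * η) = 0 ↔ (s : KK I κ) * η ∈ Om P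
    rw [Submodule.mkQ_apply, Submodule.Quotient.mk_eq_zero]
  have hrange : LinearMap.range φ ≤ F.map (Om P).mkQ := by
    rintro _ ⟨s, rfl⟩
    have h1 : (s : KK I κ) * η ∈ Perp P := mul_mem_Perp s.2 hη
    obtain ⟨a, ha, b, hb, hab⟩ := Submodule.mem_sup.1 (hle h1)
    refine ⟨b, hb, ?_⟩
    change (Om P).mkQ b = (Om P).mkQ ((s : KK I κ) * η)
    rw [← hab, map_add]
    have : (Om P).mkQ a = 0 := by
      rw [Submodule.mkQ_apply, Submodule.Quotient.mk_eq_zero]
      exact ha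
    rw [this, zero_add]
  have : Module.Finite κ (F.map (Om P).mkQ) := Module.Finite.iff_fg.2 (hF.map _)
  have : Module.Finite κ (LinearMap.range φ) := Submodule.finiteDimensional_of_le hrange
  have : Module.Finite κ (P ⧸ LinearMap.ker φ) :=
    Module.Finite.equiv (LinearMap.quotKerEquivRange φ).symm
  rw [hker] at this
  exact Module.Finite.equiv (Submodule.Quotient.restrictScalarsEquiv κ (JJ hmul η))

/-- An eigenvector in `Perp P / Om P`. -/
theorem eig [IsAlgClosed κ] (hfg : Algebra.FinitePresentation κ P) (hP : IsKr g P)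
    (hom : Om P ≤ Perp P) (hmul : ∀ p ∈ P, ∀ ω ∈ Om P, p * ω ∈ Om P) (h : ¬ Perp P ≤ Om P) :
    ∃ η ∈ Perp P, η ∉ Om P ∧ ∃ p : P →ₐ[κ] κ, ∀ s : P, p s = 0 → (s : KK I κ) * η ∈ Om P := by
  have : Algebra.FiniteType κ P := inferInstance
  have : IsNoetherianRing P := Algebra.FiniteType.isNoetherianRing κ P
  obtain ⟨η, hη, hη'⟩ := SetLike.not_le_iff_exists.1 h
  have h1 : (Ideal.Quotient.mk (JJ hmul η) 1 : P ⧸ JJ hmul η) ≠ 0 := by
    rw [Ne, Ideal.Quotient.eq_zero_iff_mem, mem_JJ]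
    intro hc
    refine hη' ?_
    have : ((1 : P) : KK I κ) * η = η := one_mul _
    rwa [this] at hc
  obtain ⟨𝔭, h𝔭, -⟩ := exists_le_isAssociatedPrime_of_isNoetherianRing P
    (Ideal.Quotient.mk (JJ hmul η) 1 : P ⧸ JJ hmul η) h1
  obtain ⟨hprime, x, hx⟩ := isAssociatedPrime_iff.1 h𝔭
  obtain ⟨f, rfl⟩ := Ideal.Quotient.mk_surjective x
  have h2 : 𝔭 = JJ hmul ((f : KK I κ) * η) := by
    ext s
    rw [hx, Submodule.mem_colon_singleton, Submodule.mem_bot, mem_JJ, ← mul_assoc]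
    change Ideal.Quotient.mk (JJ hmul η) (s * f) = 0 ↔ _
    rw [Ideal.Quotient.eq_zero_iff_mem, mem_JJ]
    exact Iff.rfl
  have hη2 : (f : KK I κ) * η ∈ Perp P := mul_mem_Perp f.2 hη
  have := finite_JJ hP hom hmul hη2
  rw [← h2] at this
  have : IsDomain (P ⧸ 𝔭) := Ideal.Quotient.isDomain 𝔭
  have : Algebra.IsIntegral κ (P ⧸ 𝔭) := Algebra.IsIntegral.of_finite κ (P ⧸ 𝔭)
  have hbij : Function.Bijective (algebraMap κ (P ⧸ 𝔭)) :=
    IsAlgClosed.algebraMap_bijective_of_isIntegral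
  let e : κ ≃ₐ[κ] (P ⧸ 𝔭) := AlgEquiv.ofBijective (Algebra.ofId κ (P ⧸ 𝔭)) hbij
  refine ⟨(f : KK I κ) * η, hη2, fun hc => hprime.ne_top ?_,
    (e.symm : (P ⧸ 𝔭) →ₐ[κ] κ).comp (Ideal.Quotient.mkₐ κ 𝔭), fun s hs => ?_⟩
  · rw [Ideal.eq_top_iff_one, h2, mem_JJ]
    have : ((1 : P) : KK I κ) * ((f : KK I κ) * η) = (f : KK I κ) * η := one_mul _
    rwa [this]
  · have h3 : Ideal.Quotient.mk 𝔭 s = 0 := by
      have h4 : e.symm (Ideal.Quotient.mk 𝔭 s) = 0 := hs
      exact (map_eq_zero_iff e.symm e.symm.injective).1 h4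
    rw [Ideal.Quotient.eq_zero_iff_mem, h2, mem_JJ] at h3
    exact h3

end finite

section main

variable {I κ : Type} [Field κ] {P : Subalgebra κ (KK I κ)}

/-- The relation between two derivations in `κ[[u]]`. -/
theorem cross (hSCO : Stmt_SCO) (hsm : SmC κ P) (pt : FPt P) (D : Derivation κ P P) (f y : P) :
    pt.h (D f) * PowerSeries.derivative κ (pt.h y) =
      pt.h (D y) * PowerSeries.derivative κ (pt.h f) := by
  letI : Algebra P (PowerSeries κ) := (pt.h : P →+* PowerSeries κ).toAlgebra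
  have : IsScalarTower κ P (PowerSeries κ) :=
    IsScalarTower.of_algebraMap_eq fun a => (pt.h.commutes a).symm
  have hs : ∀ (s : P) (x : PowerSeries κ), s • x = pt.h s * x := fun s x => Algebra.smul_def s x
  let E : Derivation κ P (PowerSeries κ) :=
    Derivation.mk' (pt.h.toLinearMap ∘ₗ (D : P →ₗ[κ] P)) fun a b => by
      change pt.h (D (a * b)) = a • pt.h (D b) + b • pt.h (D a)
      rw [hs, hs, D.leibniz, smul_eq_mul, smul_eq_mul, map_add, map_mul, map_mul]
  let E' : Derivation κ P (PowerSeries κ) :=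
    Derivation.mk' (((PowerSeries.derivative κ : Derivation κ (PowerSeries κ) (PowerSeries κ)) :
      PowerSeries κ →ₗ[κ] PowerSeries κ) ∘ₗ pt.h.toLinearMap) fun a b => by
      change PowerSeries.derivative κ (pt.h (a * b)) =
        a • PowerSeries.derivative κ (pt.h b) + b • PowerSeries.derivative κ (pt.h a)
      rw [hs, hs, map_mul, Derivation.leibniz, smul_eq_mul, smul_eq_mul]
  exact (hSCO.2 hsm).2.1 (PowerSeries κ) E E' f y

theorem low_of_mul {Y q : LaurentSeries κ} (hY : ∀ m < 1, Y.coeff m = 0) (hY1 : Y.coeff 1 ≠ 0)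
    (hq : ∀ m < 0, (Y * q).coeff m = 0) : ∀ m < -1, q.coeff m = 0 := by
  obtain ⟨n, hn⟩ := exists_low q
  have key : ∀ k : ℕ, ∀ m : ℤ, m < -(n : ℤ) + k → m < -1 → q.coeff m = 0 := by
    intro k
    induction k with
    | zero =>
      intro m hm _
      exact hn m (by simpa using hm)
    | succ k ih =>
      intro m hm hm'
      by_cases h : m < -(n : ℤ) + k
      · exact ih m h hm'
      · have hm2 : m = -(n : ℤ) + k := by
          push_cast at hm
          omega
        have h1 := mul_lead (f := Y) (g := q) (a := 1) (b := m) hY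
          (fun l hl => ih l (by omega) (by omega))
        rw [hq (1 + m) (by omega)] at h1
        exact (mul_eq_zero.1 h1.symm).resolve_left hY1
  intro m hm
  exact key (m + n + 1).toNat m (by omega) hm

theorem mem_id_of_mem {pts : Unit → FPt P} {s : P} (hs : s ∈ Ipt pts) : s ∈ (pts ()).id :=
  (iInf_le (fun j => (pts j).id) ()) hs

/-- The element of `WJ` with given components at `I`. -/
theorem lift_W (pts : Unit → FPt P) {y : P} (hy : y ∈ Ipt pts)
    (hy1 : IsUnit (PowerSeries.coeff 1 ((pts ()).h y))) (w : KK I κ)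
    (hw : ∀ s ∈ Ipt pts, (s : KK I κ) * w ∈ P) :
    ∃ W ∈ WJ pts, (∀ i, W (Sum.inl i) = w i) ∧ ∀ m < -1, (W (Sum.inr ())).coeff m = 0 := by
  have hY : ∀ m < 1, (psl κ ((pts ()).h y)).coeff m = 0 := by
    intro m hm
    rcases lt_or_ge m 0 with h | h
    · exact psl_coeff_neg _ h
    · obtain rfl : m = ((0 : ℕ) : ℤ) := by
        push_cast
        omega
      rw [psl_coeff_nat, PowerSeries.coeff_zero_eq_constantCoeff]
      exact mem_id_of_mem hy
  have hY1 : (psl κ ((pts ()).h y)).coeff 1 ≠ 0 := by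
    have h := psl_coeff_nat ((pts ()).h y) 1
    rw [Nat.cast_one] at h
    rw [h]
    exact hy1.ne_zero
  have hY0 : psl κ ((pts ()).h y) ≠ 0 := by
    intro h
    rw [h, HahnSeries.coeff_zero] at hY1
    exact hY1 rfl
  let ry : P := ⟨(y : KK I κ) * w, hw y hy⟩
  have hq : psl κ ((pts ()).h y) * ((psl κ ((pts ()).h y))⁻¹ * psl κ ((pts ()).h ry)) =
      psl κ ((pts ()).h ry) := by
    rw [← mul_assoc, mul_inv_cancel₀ hY0, one_mul]
  refine ⟨Sum.elim w fun _ => (psl κ ((pts ()).h y))⁻¹ * psl κ ((pts ()).h ry), ?_,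
    fun i => rfl, ?_⟩
  · rw [mem_WJ]
    refine ⟨1, fun s hs => ?_⟩
    rw [pow_one] at hs
    let r : P := ⟨(s : KK I κ) * w, hw s hs⟩
    refine ⟨r, ?_⟩
    funext k
    rcases k with i | j
    · rfl
    · change psl κ ((pts ()).h s) * ((psl κ ((pts ()).h y))⁻¹ * psl κ ((pts ()).h ry)) =
        psl κ ((pts ()).h r)
      have h1 : s * ry = y * r := by
        refine Subtype.ext ?_
        change (s : KK I κ) * ((y : KK I κ) * w) = (y : KK I κ) * ((s : KK I κ) * w)
        ring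
      have h2 : psl κ ((pts ()).h s) * psl κ ((pts ()).h ry) =
          psl κ ((pts ()).h y) * psl κ ((pts ()).h r) := by
        rw [← map_mul, ← map_mul, h1, map_mul, map_mul]
      have h3 : psl κ ((pts ()).h s) * ((psl κ ((pts ()).h y))⁻¹ * psl κ ((pts ()).h ry)) =
          (psl κ ((pts ()).h y))⁻¹ * (psl κ ((pts ()).h s) * psl κ ((pts ()).h ry)) := by ring
      rw [h3, h2, ← mul_assoc, inv_mul_cancel₀ hY0, one_mul]
  · refine low_of_mul hY hY1 ?_
    intro m hm
    change (psl κ ((pts ()).h y) * ((psl κ ((pts ()).h y))⁻¹ * psl κ ((pts ()).h ry))).coeff m = 0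
    rw [hq]
    exact psl_coeff_neg _ hm

end main

end SDF

theorem t_SDF (hKFG : Stmt_KFG) (hRES : Stmt_RES) (hSTO : Stmt_STO) (hSCO : Stmt_SCO)
    (hAPT : Stmt_APT) (hAYE : Stmt_AYE) (hAWK : Stmt_AWK) : Stmt_SDF := by
  intro I κ _ _ _ _ g P hP hfs hsm
  obtain ⟨hom, hmul, -, hD, hsto⟩ := hSTO hP
  obtain ⟨-, ⟨n, θ, g', hθ, hg', hone⟩, hdual⟩ := hsto hsm
  rw [hdual]
  by_contra hcon
  obtain ⟨η, hη, hηn, p, hp⟩ := SDF.eig (hKFG hP).1 hP hom hmul hcon
  obtain ⟨pt, hpt⟩ := hAPT hfs hsm p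
  let pts : Unit → FPt P := fun _ => pt
  have hdisj : Disj pts := fun j k hjk => (hjk (Subsingleton.elim _ _)).elim
  obtain ⟨-, -, -, y, e, d, hy, -, -, -, hyu, -⟩ := hAYE hP hsm pts hdisj
  obtain ⟨hWk, hWs, -, hW0, hW1, -, -⟩ := hAWK hP hsm pts hdisj
  obtain ⟨homW, -⟩ := hSTO hWk
  have hI : ∀ s : P, s ∈ Ipt pts → p s = 0 := fun s hs => by
    rw [← hpt]
    exact SDF.mem_id_of_mem hs
  have hw : ∀ i, ∀ s ∈ Ipt pts, (s : KK I κ) * (θ i * η) ∈ P := fun i s hs => by
    have h := SDF.theta_om (hθ i) (hp s (hI s hs))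
    rwa [mul_left_comm] at h
  choose Wi hWi hWi1 hWi2 using fun i => SDF.lift_W pts hy (hyu ()) (θ i * η) (hw i)
  let G : Fin n → P := fun i => ⟨g' i, hg' i⟩
  let ηh : KK (I ⊕ Unit) κ := ∑ i, Wi i * dd (hat pts (G i))
  have hηh : ηh ∈ Om (WJ pts) :=
    Submodule.sum_mem _ fun i _ => SDF.mul_dd_mem_Om (hWi i) (hat_mem pts (G i))
  have hηP := homW hηh
  have hsum : ∀ i : I, ∑ j, (θ j * η) i * (dd (g' j)) i = η i := by
    intro i
    have h1 : (∑ j, θ j * dd (g' j)) i = 1 := by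
      rw [hone]
      rfl
    rw [Finset.sum_apply] at h1
    calc ∑ j, (θ j * η) i * (dd (g' j)) i = η i * ∑ j, (θ j * dd (g' j)) i := by
          rw [Finset.mul_sum]
          refine Finset.sum_congr rfl fun j _ => ?_
          rw [Pi.mul_apply, Pi.mul_apply]
          ring
      _ = η i := by rw [h1, mul_one]
  have hinl : ∀ i, ηh (Sum.inl i) = η i := by
    intro i
    rw [← hsum i]
    change (∑ j, Wi j * dd (hat pts (G j))) (Sum.inl i) = _
    rw [Finset.sum_apply]
    refine Finset.sum_congr rfl fun j _ => ?_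
    rw [Pi.mul_apply, hWi1]
    rfl
  have hinr : ηh (Sum.inr ()) =
      ∑ j, Wi j (Sum.inr ()) * psl κ (PowerSeries.derivative κ (pt.h (G j))) := by
    change (∑ j, Wi j * dd (hat pts (G j))) (Sum.inr ()) = _
    rw [Finset.sum_apply]
    refine Finset.sum_congr rfl fun j _ => ?_
    rw [Pi.mul_apply]
    change Wi j (Sum.inr ()) * ld (psl κ (pt.h (G j))) = _
    rw [SDF.ld_psl]
  have hlow1 : ∀ m < -1, (ηh (Sum.inr ())).coeff m = 0 := by
    intro m hm
    rw [hinr, HahnSeries.coeff_sum]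
    refine Finset.sum_eq_zero fun j _ => ?_
    exact mul_low (a := -1) (b := 0) (hWi2 j) (fun l hl => SDF.psl_coeff_neg _ hl) m (by omega)
  have hlow : ∀ m < 0, (ηh (Sum.inr ())).coeff m = 0 := by
    intro m hm
    by_cases h : m < -1
    · exact hlow1 m h
    · obtain rfl : m = -1 := by omega
      have h1 := hηP 1 (one_mem _)
      rw [mul_one] at h1
      have h2 := hη 1 (one_mem _)
      rw [mul_one] at h2
      change ∑ k : I ⊕ Unit, (ηh k).coeff (-1) = 0 at h1
      change ∑ i : I, (η i).coeff (-1) = 0 at h2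
      rw [Fintype.sum_sum_type] at h1
      simp only [hinl, h2, zero_add] at h1
      simpa using h1
  choose D hD' using fun i => hD (θ i) (hθ i)
  have hyunit : IsUnit (PowerSeries.derivative κ (pt.h y)) := by
    rw [PowerSeries.isUnit_iff_constantCoeff, ← PowerSeries.coeff_zero_eq_constantCoeff_apply,
      PowerSeries.coeff_derivative]
    simpa using hyu ()
  obtain ⟨c, hc⟩ := hyunit.exists_right_inv
  have ht : ∀ i (f : P), pt.h (D i f) =
      pt.h (D i y) * c * PowerSeries.derivative κ (pt.h f) := by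
    intro i f
    have h := SDF.cross hSCO hsm pt (D i) f y
    calc pt.h (D i f) = pt.h (D i f) * (PowerSeries.derivative κ (pt.h y) * c) := by
          rw [hc, mul_one]
      _ = pt.h (D i f) * PowerSeries.derivative κ (pt.h y) * c := by ring
      _ = _ := by
          rw [h]
          ring
  have hWu : ∀ i, Wi i (Sum.inr ()) = psl κ (pt.h (D i y) * c) * ηh (Sum.inr ()) := by
    intro i
    have hV : (∑ j, Wi j * hat pts (D i (G j))) - Wi i ∈ WJ pts :=
      sub_mem (sum_mem fun j _ => mul_mem (hWi j) (hat_mem pts _)) (hWi i)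
    have hV0 : (∑ j, Wi j * hat pts (D i (G j))) - Wi i = 0 := by
      refine hW0 _ hV fun i' => ?_
      rw [Pi.sub_apply, Finset.sum_apply, hWi1, sub_eq_zero]
      have h1 : ∀ j, (Wi j * hat pts (D i (G j))) (Sum.inl i') =
          θ i i' * ((θ j * η) i' * (dd (g' j)) i') := by
        intro j
        rw [Pi.mul_apply, hWi1, hat_inl, hD']
        change (θ j * η) i' * (θ i i' * (dd (g' j)) i') = _
        ring
      rw [Finset.sum_congr rfl fun j _ => h1 j, ← Finset.mul_sum, hsum]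
      rfl
    have h2 : (∑ j, Wi j * hat pts (D i (G j))) (Sum.inr ()) = Wi i (Sum.inr ()) := by
      rw [sub_eq_zero.1 hV0]
    rw [← h2, Finset.sum_apply, hinr, Finset.mul_sum]
    refine Finset.sum_congr rfl fun j _ => ?_
    rw [Pi.mul_apply, hat_inr]
    change Wi j (Sum.inr ()) * psl κ (pt.h (D i (G j))) = _
    rw [ht i (G j), map_mul]
    ring
  have hmem : ∀ i, θ i * η ∈ P := by
    intro i
    obtain ⟨r, hr⟩ := hW1 (Wi i) (hWi i) fun j m hm => by
      rw [hWu i]
      exact mul_low (a := 0) (b := 0) (fun l hl => SDF.psl_coeff_neg _ hl) hlow m (by omega)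
    have h1 : θ i * η = (r : KK I κ) := by
      funext i'
      rw [← hWi1 i i', hr, hat_inl]
    rw [h1]
    exact r.2
  refine hηn ?_
  have h1 : η = ∑ j, (θ j * η) * dd (g' j) := by
    funext i
    rw [Finset.sum_apply, ← hsum i]
    rfl
  rw [h1]
  exact Submodule.sum_mem _ fun j _ => SDF.mul_dd_mem_Om (hmem j) (hg' j)

end Pool.Agent.MG.G0


end
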