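import Mathlib
import Pool.Agent.KDM.C08
import Pool.Agent.KDM.C14
import Pool.Agent.KDM.C15
import Pool.Agent.KDM.C20
import Pool.Agent.KDM.C21
import Pool.Agent.KDM.C25
import Pool.Agent.KDM.C26
import Pool.Agent.KDM.C28
import Pool.Agent.KDM.C30
import Pool.Agent.KDM.C56

/-! Parts: MG.H2.YGA, MG.KX.GKS, MG.KX.KFP, MG.KX.KRN, MG.KX.PDR, MG.G0.ZRK -/

section

/-!
# The cohomology of the curve `YX K p 0` in terms of its rings (PAPER_Y, YGA)
-/

open Polynomial

namespace Pool.Agent.MG.H2

namespace YGA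

theorem hom_aeval {B R S : Type} [CommRing B] [CommRing R] [CommRing S] [Algebra B R] [Algebra B S]
    (g : R →+* S) (h : ∀ c, g (algebraMap B R c) = algebraMap B S c) (x : R) (p : B[X]) :
    g (aeval x p) = aeval (g x) p := by
  rw [aeval_def, aeval_def, hom_eval₂]
  congr 1
  exact RingHom.ext h

section

variable {B : Type} [CommRing B] {f : Fin 7 → B}

theorem g2_eq (p q : B[X]) : g2 B f (aeval (x1 B (rev f)) p + aeval (x1 B (rev f)) q *
    y1 B (rev f)) = aeval (xi f) p + aeval (xi f) q * (yv B f * xi f ^ 3) := by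
  rw [map_add, map_mul, hom_aeval (g2 B f) (g2_b B f), hom_aeval (g2 B f) (g2_b B f), g2_u, g2_v,
    Units.val_pow_eq_pow_val]

theorem xx_xi : xx f * xi f = 1 := Units.mul_inv _

/-- The coefficient of `Y/X` of a function on `N`. -/
theorem cf_low (c e : B[X]) : cf (-1) (aeval (xi f) c + aeval (xi f) e * (yv B f * xi f ^ 2)) = 0 := by
  have h1 : aeval (xi f) e * (yv B f * xi f ^ 2) =
      xx f * g2 B f (aeval (x1 B (rev f)) (0 : B[X]) + aeval (x1 B (rev f)) e * y1 B (rev f)) := by
    rw [g2_eq, map_zero, zero_add]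
    linear_combination -(aeval (xi f) e * yv B f * xi f ^ 2) * xx_xi (f := f)
  have h2 : aeval (xi f) c =
      g2 B f (aeval (x1 B (rev f)) c + aeval (x1 B (rev f)) (0 : B[X]) * y1 B (rev f)) := by
    rw [g2_eq, map_zero, zero_mul, add_zero]
  rw [h1, map_add, cf_x, cf_g2 (by norm_num), add_zero, h2, cf_g2 (by norm_num)]

/-- The decomposition of a function without the coefficient of `Y/X`. -/
theorem decomp0 (a : A12 B f) (ha : cf (-1) a = 0) : ∃ (P Q : B[X]) (r : A1 B f),
    a = xi f * aeval (xi f) P + aeval (xi f) Q * (yv B f * xi f ^ 2) + g1 B f r := by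
  obtain ⟨r, b, h⟩ := decomp a
  obtain ⟨p, q, rfl⟩ := span1 b
  rw [ha, map_zero, zero_mul, add_zero, g2_eq] at h
  refine ⟨divX p, q * X + C (cf (-2) a), r + algebraMap B _ (p.coeff 0), ?_⟩
  have hp : aeval (xi f) p = xi f * aeval (xi f) (divX p) + algebraMap B _ (p.coeff 0) := by
    conv_lhs => rw [← divX_mul_X_add p]
    rw [map_add, map_mul, aeval_X, aeval_C, mul_comm]
  conv_lhs => rw [h]
  rw [hp, map_add, map_mul, aeval_X, aeval_C, map_add, g1_b]
  ring

end

section

variable {K : Type} [Field K] (p : Fin 7 → K)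

theorem nT_aeval (c : K[X]) : nT K p 0 (aeval (xN K p 0) c) = aeval (xi (pT p 0)) c := by
  rw [hom_aeval (nT K p 0) (nT_c K p 0), nT_x]

/-- Functions on `N` have no coefficient of `Y/X`. -/
theorem cf_nT (hNB : Stmt_YNB) (n : NN K p 0) : cf (-1) (nT K p 0 n) = 0 := by
  obtain ⟨c, d, e, f, rfl⟩ := (hNB K p 0).1 n
  have h : nT K p 0 (aeval (xN K p 0) c + zN K p 0 * aeval (zN K p 0) d +
      aeval (xN K p 0) e * aN K p 0 + aeval (zN K p 0) f * bN K p 0) =
      aeval (xi (pT p 0)) c + aeval (xi (pT p 0)) e * (yv K (pT p 0) * xi (pT p 0) ^ 2) := by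
    simp only [map_add, map_mul, nT_aeval, nT_z, nT_a, nT_b, map_zero, zero_mul, mul_zero,
      ne_eq, OfNat.ofNat_ne_zero, not_false_eq_true, zero_pow, add_zero]
  rw [h]
  exact cf_low c e

/-- The restriction to `N ∩ T` of a function in the ideal of `Q`. -/
theorem nT_el (P Q : K[X]) : nT K p 0 (xN K p 0 * aeval (xN K p 0) P + aeval (xN K p 0) Q *
    aN K p 0) = xi (pT p 0) * aeval (xi (pT p 0)) P +
      aeval (xi (pT p 0)) Q * (yv K (pT p 0) * xi (pT p 0) ^ 2) := by
  rw [map_add, map_mul, map_mul, nT_aeval, nT_aeval, nT_x, nT_a]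

theorem nQ_el (P Q : K[X]) : nQ K p 0 (xN K p 0 * aeval (xN K p 0) P + aeval (xN K p 0) Q *
    aN K p 0) = 0 := by
  simp only [map_add, map_mul, nQ_x, nQ_a, map_zero, zero_mul, mul_zero, ne_eq,
      OfNat.ofNat_ne_zero, not_false_eq_true, zero_pow, add_zero]

theorem sw_sw (v : NN K (rev p) 0) : swN (rev_h p) 0 (swN (rev_h' p) 0 v) = v := by
  have h := RingHom.congr_fun (swN_swN (t := 0) (p := rev p) (p' := p) (rev_h p) (rev_h' p)) v
  rw [RingHom.comp_apply, RingHom.id_apply] at h
  exact h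

/-- The same function on the other side. -/
noncomputable def el (P Q : K[X]) : NN K p 0 :=
  swN (rev_h' p) 0 (xN K (rev p) 0 * aeval (xN K (rev p) 0) P + aeval (xN K (rev p) 0) Q *
    aN K (rev p) 0)

theorem nQ_el' (P Q : K[X]) : nQ K p 0 (el p P Q) = xi (pT (rev p) 0) *
    aeval (xi (pT (rev p) 0)) P +
      aeval (xi (pT (rev p) 0)) Q * (yv K (pT (rev p) 0) * xi (pT (rev p) 0) ^ 2) := by
  rw [← nT_el, nQ, el, RingHom.comp_apply, sw_sw]

theorem nT_el' (P Q : K[X]) : nT K p 0 (el p P Q) = 0 := by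
  rw [el]
  simp only [map_add, map_mul, swN_x, swN_a, nT_z, nT_b, map_zero, zero_mul, mul_zero, ne_eq,
      OfNat.ofNat_ne_zero, not_false_eq_true, zero_pow, add_zero]

end

end YGA

theorem t_YGA (hNB : Stmt_YNB) : Stmt_YGA := by
  intro K _ p a b
  constructor
  · rintro ⟨ha, hb⟩
    obtain ⟨P, Q, r, h⟩ := YGA.decomp0 a ha
    obtain ⟨P', Q', s, h'⟩ := YGA.decomp0 b hb
    refine ⟨(xN K p 0 * aeval (xN K p 0) P + aeval (xN K p 0) Q * aN K p 0) + YGA.el p P' Q',
      r, s, ?_, ?_⟩
    · rw [map_add, YGA.nT_el, YGA.nT_el', add_zero]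
      exact h
    · rw [map_add, YGA.nQ_el, YGA.nQ_el', zero_add]
      exact h'
  · rintro ⟨n, r, s, rfl, rfl⟩
    constructor
    · rw [map_add, YGA.cf_nT p hNB, zero_add]
      exact cf_g1 (by norm_num) r
    · rw [map_add, cf_g1 (by norm_num) s, add_zero, nQ, RingHom.comp_apply]
      exact YGA.cf_nT (rev p) hNB _

end Pool.Agent.MG.H2


end

section

/-!
# GKS: good Krichever rings are rings of stable curves
-/

open CategoryTheory CategoryTheory.Limits AlgebraicGeometry
open scoped TensorProduct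

namespace Pool.Agent.MG.KX

open Pool.Agent.MG.G0 Pool.Agent.MG.GLU

/-- GKS: good Krichever rings are rings of stable curves. -/
theorem t_GKS (hKDM : Stmt_KDM) (hKRS : Stmt_KRS) (hKRN : Stmt_KRN) (hKNS : Stmt_KNS)
    (hKNN : Stmt_KNN) : Stmt_GKS := by
  have hKBC : Stmt_KBC := t_KBC (t_KFO t_KDU) t_KNZ (t_KSP t_KNZ)
  intro I A _ _ _ _ g n P p hg hP hM
  refine ⟨hP.1, hM, ?_⟩
  intro K _ _ φ
  have hchar : CharZero K := charZero_of_injective_ringHom (φ.comp (algebraMap ℂ A)).injective
  have hK : IsKr g (bc φ P) := (hKBC.2.2.2 hP.1 φ).1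
  rcases hP.2 K φ with h | h
  · exact ⟨(hKDM hK h).1, hKNS hK h, hKRS hK h (by omega)⟩
  · refine ⟨?_, hKNN hK h, hKRN hK h hg⟩
    obtain ⟨h', R, a, b, _, hR, hS, _, hP'⟩ := h
    have hd : IsDomain R := (hKDM hR hS).1
    have hle : bc φ P ≤ R := fun f hf => ((hP' f).1 hf).1
    exact Function.Injective.isDomain (Subalgebra.inclusion hle : bc φ P →+* R)
      (Subalgebra.inclusion_injective hle)

end Pool.Agent.MG.KX


end

section

/-!
# Finiteness of the first chart
-/

open CategoryTheory CategoryTheory.Limits AlgebraicGeometry TensorProduct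

namespace Pool.Agent.MG.KX

open Pool.Agent.MG.G0 Pool.Agent.MG.GLU

namespace KFPx

/-- The statement for `P` itself. -/
theorem core {I A : Type} [Fintype I] [Nonempty I] [CommRing A] {g : ℕ}
    {P : Subalgebra A (KK I A)} (hP : IsKr g P) (z : Pole P) :
    Algebra.FinitePresentation A P ∧ Module.Flat A P ∧
      ∀ r : P, ((Polynomial.aeval z.z : Polynomial A →ₐ[A] P) :
        Polynomial A →+* P).IsIntegralElem r := by
  have hKNZ : Stmt_KNZ := t_KNZ
  have hKSP : Stmt_KSP := t_KSP hKNZ
  have hKFG : Stmt_KFG := t_KFG hKNZ hKSP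
  obtain ⟨N, hN⟩ := (hKNZ hP).1
  obtain ⟨h1, h2⟩ := hKFG hP
  obtain ⟨-, -, h3, -, -⟩ := h2 N z.d z.z hN (by exact_mod_cast z.pos) z.mon
  have h4 := (hKSP hP).1
  exact ⟨h1, inferInstance, fun r => h3.to_isIntegral r⟩

end KFPx

theorem t_KFP : Stmt_KFP := by
  intro I A _ _ _ g P hP z
  exact KFPx.core hP z

end Pool.Agent.MG.KX


end

section

/-!
# No vector fields on a curve with one node (KRN)

`P = {p = q}` in the ring `R` of a smooth curve. A derivation `D = θ d/dτ` of `P` maps the conductor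
`ker p ∩ ker q` to itself, so it maps `R` to `R`.
-/

namespace Pool.Agent.MG.KX

open Pool.Agent.MG.G0

namespace KRN

section param

variable {K R : Type} [Field K] [CommRing R] [Algebra K R]

theorem mem_sq_ev (p : R →ₐ[K] K) (E : Derivation K R R) (t : R)
    (ht : t ∈ (RingHom.ker p) ^ 2) : p (E t) = 0 := by
  rw [pow_two] at ht
  refine Submodule.mul_induction_on ht (fun a ha b hb => ?_) (fun a b ha hb => ?_)
  · rw [RingHom.mem_ker] at ha hb
    rw [E.leibniz, map_add, smul_eq_mul, smul_eq_mul, map_mul, map_mul, ha, hb, zero_mul, zero_mul,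
      add_zero]
  · rw [map_add, map_add, ha, hb, add_zero]

/-- The derivation `f ↦ f - f(p)` modulo the square of the ideal of `p`. -/
noncomputable def dq (p : R →ₐ[K] K) : Derivation K R (R ⧸ (RingHom.ker p) ^ 2) :=
  Derivation.mk'
    ({ toFun := fun f => Ideal.Quotient.mk _ (f - algebraMap K R (p f))
       map_add' := fun f g => by
        rw [← map_add]
        congr 1
        rw [map_add, map_add]
        ring
       map_smul' := fun a f => by
        rw [RingHom.id_apply, map_smul, smul_eq_mul, map_mul, Algebra.smul_def, ← mul_sub]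
        rw [Algebra.smul_def, map_mul]
        rfl } : R →ₗ[K] (R ⧸ (RingHom.ker p) ^ 2))
    (fun f g => by
      change Ideal.Quotient.mk _ (f * g - algebraMap K R (p (f * g))) =
        Ideal.Quotient.mk _ (f * (g - algebraMap K R (p g))) +
          Ideal.Quotient.mk _ (g * (f - algebraMap K R (p f)))
      rw [← map_add, Ideal.Quotient.eq]
      have h : f * g - algebraMap K R (p (f * g)) - (f * (g - algebraMap K R (p g)) +
          g * (f - algebraMap K R (p f))) =
          -((f - algebraMap K R (p f)) * (g - algebraMap K R (p g))) := by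
        rw [map_mul, map_mul]
        ring
      rw [h, pow_two]
      refine neg_mem (Ideal.mul_mem_mul ?_ ?_)
      · rw [RingHom.mem_ker, map_sub, AlgHom.commutes]
        simp
      · rw [RingHom.mem_ker, map_sub, AlgHom.commutes]
        simp)

theorem dq_apply (p : R →ₐ[K] K) (f : R) :
    dq p f = Ideal.Quotient.mk _ (f - algebraMap K R (p f)) := rfl

/-- A parameter at a point of a smooth curve. -/
theorem exists_param (hs : SmC K R) (p : R →ₐ[K] K) :
    ∃ (t : R), p t = 0 ∧ t ∉ (RingHom.ker p) ^ 2 ∧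
      ∀ r : R, p r = 0 → ∃ c : K, r - algebraMap K R c * t ∈ (RingHom.ker p) ^ 2 := by
  obtain ⟨n, D, g, h1, h2⟩ := hs
  have h3 : ∃ i, p (D i (g i)) ≠ 0 := by
    by_contra hc
    push Not at hc
    have h4 := congrArg p h1
    rw [map_sum, map_one, Finset.sum_eq_zero fun i _ => hc i] at h4
    exact zero_ne_one h4
  obtain ⟨i, hi⟩ := h3
  have hE : D i (g i - algebraMap K R (p (g i))) = D i (g i) := by
    rw [map_sub, Derivation.map_algebraMap, sub_zero]
  refine ⟨g i - algebraMap K R (p (g i)), ?_, ?_, ?_⟩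
  · rw [map_sub, AlgHom.commutes]
    simp
  · intro hc
    have h5 := mem_sq_ev p (D i) _ hc
    rw [hE] at h5
    exact hi h5
  · intro r hr
    have h6 := h2 (D i) (g i) r
    have h7 := congrArg (dq p).liftKaehlerDifferential h6
    rw [map_smul, map_smul, Derivation.liftKaehlerDifferential_comp_D,
      Derivation.liftKaehlerDifferential_comp_D, dq_apply, dq_apply, hr, map_zero, sub_zero] at h7
    have h8 : Ideal.Quotient.mk ((RingHom.ker p) ^ 2) (D i (g i) * r) =
        Ideal.Quotient.mk ((RingHom.ker p) ^ 2) (D i r * (g i - algebraMap K R (p (g i)))) := h7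
    rw [Ideal.Quotient.eq] at h8
    have h9 : (D i (g i) - algebraMap K R (p (D i (g i)))) * r ∈ (RingHom.ker p) ^ 2 := by
      rw [pow_two]
      refine Ideal.mul_mem_mul ?_ hr
      rw [RingHom.mem_ker, map_sub, AlgHom.commutes]
      simp
    have h10 : (D i r - algebraMap K R (p (D i r))) * (g i - algebraMap K R (p (g i))) ∈
        (RingHom.ker p) ^ 2 := by
      rw [pow_two]
      refine Ideal.mul_mem_mul ?_ ?_
      · rw [RingHom.mem_ker, map_sub, AlgHom.commutes]
        simp
      · rw [RingHom.mem_ker, map_sub, AlgHom.commutes]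
        simp
    refine ⟨(p (D i (g i)))⁻¹ * p (D i r), ?_⟩
    have h11 : algebraMap K R (p (D i (g i)))⁻¹ * algebraMap K R (p (D i (g i))) = 1 := by
      rw [← map_mul, inv_mul_cancel₀ hi, map_one]
    have h12 : r - algebraMap K R ((p (D i (g i)))⁻¹ * p (D i r)) *
        (g i - algebraMap K R (p (g i))) = algebraMap K R (p (D i (g i)))⁻¹ *
        ((D i (g i) * r - D i r * (g i - algebraMap K R (p (g i)))) -
          (D i (g i) - algebraMap K R (p (D i (g i)))) * r +
          (D i r - algebraMap K R (p (D i r))) * (g i - algebraMap K R (p (g i)))) := by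
      rw [map_mul]
      linear_combination (-r) * h11
    rw [h12]
    exact Ideal.mul_mem_left _ _ (add_mem (sub_mem h8 h9) h10)

/-- Two different points are coprime. -/
theorem coprime {p q : R →ₐ[K] K} (h : p ≠ q) :
    IsCoprime (RingHom.ker p) (RingHom.ker q) := by
  have h1 : ∃ r, p r ≠ q r := by
    by_contra hc
    push Not at hc
    exact h (AlgHom.ext hc)
  obtain ⟨r, hr⟩ := h1
  rw [Ideal.isCoprime_iff_exists]
  have hr' : q r - p r ≠ 0 := sub_ne_zero.mpr (Ne.symm hr)
  refine ⟨algebraMap K R (q r - p r)⁻¹ * (r - algebraMap K R (p r)), ?_,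
    -(algebraMap K R (q r - p r)⁻¹ * (r - algebraMap K R (q r))), ?_, ?_⟩
  · rw [RingHom.mem_ker, map_mul, map_sub, AlgHom.commutes, AlgHom.commutes]
    simp
  · rw [RingHom.mem_ker, map_neg, map_mul, map_sub, AlgHom.commutes, AlgHom.commutes]
    simp
  · have h2 : algebraMap K R (q r - p r)⁻¹ * algebraMap K R (q r - p r) = 1 := by
      rw [← map_mul, inv_mul_cancel₀ hr', map_one]
    rw [map_sub] at h2
    linear_combination h2

/-- A parameter at `p` of order at least two at `q`. -/
theorem exists_param2 (hs : SmC K R) {p q : R →ₐ[K] K} (h : p ≠ q) :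
    ∃ (x : R), x ∈ RingHom.ker p ∧ x ∈ (RingHom.ker q) ^ 2 ∧ x ∉ (RingHom.ker p) ^ 2 ∧
      ∀ r : R, p r = 0 → ∃ c : K, r - algebraMap K R c * x ∈ (RingHom.ker p) ^ 2 := by
  obtain ⟨t, ht1, ht2, ht3⟩ := exists_param hs p
  have hc : IsCoprime ((RingHom.ker p) ^ 2) ((RingHom.ker q) ^ 2) := (coprime h).pow
  rw [Ideal.isCoprime_iff_exists] at hc
  obtain ⟨a, ha, b, hb, hab⟩ := hc
  have e : t - b * t = a * t := by linear_combination (-t) * hab
  have hm : t - b * t ∈ (RingHom.ker p) ^ 2 := by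
    rw [e]
    exact Ideal.mul_mem_right _ _ ha
  refine ⟨b * t, ?_, Ideal.mul_mem_right _ _ hb, ?_, ?_⟩
  · rw [RingHom.mem_ker, map_mul, ht1, mul_zero]
  · intro hx
    apply ht2
    have := add_mem hm hx
    rwa [sub_add_cancel] at this
  · intro r hr
    obtain ⟨c, hc⟩ := ht3 r hr
    refine ⟨c, ?_⟩
    have e2 : r - algebraMap K R c * (b * t) = (r - algebraMap K R c * t) +
        algebraMap K R c * (t - b * t) := by ring
    rw [e2]
    exact add_mem hc (Ideal.mul_mem_left _ _ hm)

/-- The ideal of a point is generated by a parameter after inverting one element. -/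
theorem exists_away [IsNoetherianRing R] (p : R →ₐ[K] K) (x : R)
    (hx2 : ∀ r : R, p r = 0 → ∃ c : K, r - algebraMap K R c * x ∈ (RingHom.ker p) ^ 2) :
    ∃ a : R, p a = 1 ∧ ∀ r : R, p r = 0 → ∃ v : R, a * r = x * v := by
  let N : Submodule R (R ⧸ Ideal.span {x}) := Submodule.map (Submodule.mkQ _) (RingHom.ker p)
  have hN : N.FG := Submodule.FG.map _ (IsNoetherian.noetherian _)
  have hle : N ≤ (RingHom.ker p : Ideal R) • N := by
    rintro _ ⟨r, hr, rfl⟩
    obtain ⟨c, hc⟩ := hx2 r hr
    have e : (Submodule.mkQ (Ideal.span {x})) r =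
        (Submodule.mkQ (Ideal.span {x})) (r - algebraMap K R c * x) := by
      rw [map_sub]
      have h0 : (Submodule.mkQ (Ideal.span {x})) (algebraMap K R c * x) = 0 := by
        rw [Submodule.mkQ_apply, Submodule.Quotient.mk_eq_zero]
        exact Ideal.mul_mem_left _ _ (Ideal.mem_span_singleton_self x)
      rw [h0, sub_zero]
    rw [e]
    rw [pow_two] at hc
    refine Submodule.mul_induction_on hc (fun a ha b hb => ?_) (fun a b ha hb => ?_)
    · have e2 : (Submodule.mkQ (Ideal.span {x})) (a * b) =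
          a • (Submodule.mkQ (Ideal.span {x})) b := by
        rw [← map_smul, smul_eq_mul]
      rw [e2]
      exact Submodule.smul_mem_smul ha (Submodule.mem_map_of_mem hb)
    · rw [map_add]
      exact add_mem ha hb
  obtain ⟨a, ha1, ha2⟩ :=
    Submodule.exists_sub_one_mem_and_smul_eq_zero_of_fg_of_le_smul _ N hN hle
  refine ⟨a, ?_, fun r hr => ?_⟩
  · rw [RingHom.mem_ker, map_sub, map_one, sub_eq_zero] at ha1
    exact ha1
  · have h := ha2 _ (Submodule.mem_map_of_mem (f := Submodule.mkQ (Ideal.span {x})) hr)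
    rw [← map_smul, Submodule.mkQ_apply, Submodule.Quotient.mk_eq_zero, smul_eq_mul,
      Ideal.mem_span_singleton] at h
    exact h

end param

section deriv

variable {K R L : Type} [Field K] [CommRing R] [Algebra K R] [CommRing L] [Algebra K L]
  [Algebra R L]

theorem mul_ind (D : Derivation K R L) (I J A B C : Ideal R)
    (hI : ∀ s ∈ I, ∃ d ∈ A, D s = algebraMap R L d) (hJ : ∀ s ∈ J, ∃ d ∈ B, D s = algebraMap R L d)
    (h1 : I * B ≤ C) (h2 : J * A ≤ C) : ∀ z ∈ I * J, ∃ d ∈ C, D z = algebraMap R L d := by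
  intro z hz
  refine Submodule.mul_induction_on hz (fun a ha b hb => ?_) (fun a b ha hb => ?_)
  · obtain ⟨d, hd, hd'⟩ := hI a ha
    obtain ⟨e, he, he'⟩ := hJ b hb
    refine ⟨a * e + b * d, add_mem (h1 (Ideal.mul_mem_mul ha he)) (h2 (Ideal.mul_mem_mul hb hd)), ?_⟩
    rw [D.leibniz, hd', he', Algebra.smul_def, Algebra.smul_def, map_add, map_mul, map_mul]
  · obtain ⟨d, hd, hd'⟩ := ha
    obtain ⟨e, he, he'⟩ := hb
    exact ⟨d + e, add_mem hd he, by rw [map_add, map_add, hd', he']⟩

theorem key [IsScalarTower K R L] [IsNoetherianRing R]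
    (hinj : Function.Injective (algebraMap R L))
    (hreg : ∀ t : R, t ≠ 0 → ∀ x : L, t • x = 0 → x = 0) (hs : SmC K R) {p q : R →ₐ[K] K}
    (hpq : p ≠ q) (D : Derivation K R L)
    (hD : ∀ f : R, p f = q f → ∃ d : R, D f = algebraMap R L d ∧ p d = q d) (r : R) :
    ∃ d : R, D r = algebraMap R L d := by
  have hcop := coprime hpq
  obtain ⟨c, hc⟩ : ∃ c : Ideal R, c = RingHom.ker p ⊓ RingHom.ker q := ⟨_, rfl⟩
  have hcm : c = RingHom.ker p * RingHom.ker q := by
    rw [hc, Ideal.mul_eq_inf_of_isCoprime hcop]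
  have hcp : ∀ s ∈ c, p s = 0 := fun s hs' => by
    rw [hc] at hs'
    exact hs'.1
  have hcq : ∀ s ∈ c, q s = 0 := fun s hs' => by
    rw [hc] at hs'
    exact hs'.2
  have hA : ∀ s ∈ c, ∃ d ∈ (⊤ : Ideal R), D s = algebraMap R L d := fun s hs' => by
    obtain ⟨d, hd, _⟩ := hD s (by rw [hcp s hs', hcq s hs'])
    exact ⟨d, Submodule.mem_top, hd⟩
  have hB : ∀ z ∈ c * c, ∃ d ∈ c, D z = algebraMap R L d :=
    mul_ind D c c ⊤ ⊤ c hA hA Ideal.mul_le_left Ideal.mul_le_left
  have hC : ∀ z ∈ c * c * c, ∃ d ∈ c * c, D z = algebraMap R L d :=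
    mul_ind D (c * c) c c ⊤ (c * c) hB hA Ideal.mul_le_left le_rfl
  obtain ⟨x, hxp, hxq, hxn, hx⟩ := exists_param2 hs hpq
  obtain ⟨y, hyq, hyp, hyn, hy⟩ := exists_param2 hs hpq.symm
  have hle : ∀ (I : Ideal R), I ^ 2 ≤ I := fun I => by
    rw [pow_two]
    exact Ideal.mul_le_right
  have hxc : x ∈ c := by
    rw [hc]
    exact ⟨hxp, hle _ hxq⟩
  have hyc : y ∈ c := by
    rw [hc]
    exact ⟨hle _ hyp, hyq⟩
  have hcc : c * c = (RingHom.ker p) ^ 2 ⊓ (RingHom.ker q) ^ 2 := by
    rw [← Ideal.mul_eq_inf_of_isCoprime hcop.pow, hcm]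
    ring
  have hccc : c * c * c = (RingHom.ker p) ^ 3 ⊓ (RingHom.ker q) ^ 3 := by
    rw [← Ideal.mul_eq_inf_of_isCoprime hcop.pow, hcm]
    ring
  have hxy : x * y ∈ c * c * c := by
    rw [hccc]
    constructor
    · have e : (RingHom.ker p : Ideal R) ^ 3 = RingHom.ker p * (RingHom.ker p) ^ 2 := by ring
      rw [SetLike.mem_coe, e]
      exact Ideal.mul_mem_mul hxp hyp
    · have e : (RingHom.ker q : Ideal R) ^ 3 = (RingHom.ker q) ^ 2 * RingHom.ker q := by ring
      rw [SetLike.mem_coe, e]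
      exact Ideal.mul_mem_mul hxq hyq
  obtain ⟨w, hw, hw'⟩ := hC _ hxy
  obtain ⟨dx, hdx, hdx'⟩ := hD x (by rw [hcp x hxc, hcq x hxc])
  obtain ⟨dy, hdy, hdy'⟩ := hD y (by rw [hcp y hyc, hcq y hyc])
  have hw2 : x * dy + y * dx ∈ c * c := by
    have e : x * dy + y * dx = w := by
      apply hinj
      rw [← hw', D.leibniz, hdx, hdy, Algebra.smul_def, Algebra.smul_def, map_add, map_mul,
        map_mul]
    rw [e]
    exact hw
  have hsub : ∀ d : R, p d = q d → d - algebraMap K R (p d) ∈ c := fun d hd => by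
    rw [hc]
    constructor
    · change p _ = 0
      rw [map_sub, AlgHom.commutes]
      simp
    · change q _ = 0
      rw [map_sub, AlgHom.commutes, hd]
      simp
  have hw3 : algebraMap K R (p dy) * x + algebraMap K R (p dx) * y ∈ c * c := by
    have e : algebraMap K R (p dy) * x + algebraMap K R (p dx) * y = (x * dy + y * dx) -
        x * (dy - algebraMap K R (p dy)) - y * (dx - algebraMap K R (p dx)) := by ring
    rw [e]
    exact sub_mem (sub_mem hw2 (Ideal.mul_mem_mul hxc (hsub dy hdy')))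
      (Ideal.mul_mem_mul hyc (hsub dx hdx'))
  rw [hcc] at hw3
  have hmulc : ∀ (I : Ideal R) (a : K) (z : R), a ≠ 0 → algebraMap K R a * z ∈ I → z ∈ I := by
    intro I a z ha hz
    have e : z = algebraMap K R a⁻¹ * (algebraMap K R a * z) := by
      rw [← mul_assoc, ← map_mul, inv_mul_cancel₀ ha, map_one, one_mul]
    rw [e]
    exact Ideal.mul_mem_left _ _ hz
  have hdy0 : p dy = 0 := by
    by_contra hne
    apply hxn
    refine hmulc _ _ _ hne ?_
    have h := sub_mem hw3.1 (Ideal.mul_mem_left _ (algebraMap K R (p dx)) hyp)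
    rwa [add_sub_cancel_right] at h
  have hdx0 : p dx = 0 := by
    by_contra hne
    apply hyn
    refine hmulc _ _ _ hne ?_
    have h := sub_mem hw3.2 (Ideal.mul_mem_left _ (algebraMap K R (p dy)) hxq)
    rwa [add_sub_cancel_left] at h
  have hdxc : dx ∈ c := by
    rw [hc]
    exact ⟨hdx0, hdx'.symm.trans hdx0⟩
  have hdyc : dy ∈ c := by
    rw [hc]
    exact ⟨hdy0, hdy'.symm.trans hdy0⟩
  -- `D` maps the conductor to itself
  have hDc : ∀ s ∈ c, ∃ d ∈ c, D s = algebraMap R L d := by
    intro s hs'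
    obtain ⟨α, hα⟩ := hx s (hcp s hs')
    obtain ⟨β, hβ⟩ := hy s (hcq s hs')
    have hz : s - algebraMap K R α * x - algebraMap K R β * y ∈ c * c := by
      rw [hcc]
      constructor
      · exact sub_mem hα (Ideal.mul_mem_left _ _ hyp)
      · have e : s - algebraMap K R α * x - algebraMap K R β * y =
            (s - algebraMap K R β * y) - algebraMap K R α * x := by ring
        rw [SetLike.mem_coe, e]
        exact sub_mem hβ (Ideal.mul_mem_left _ _ hxq)
    obtain ⟨d, hd, hd'⟩ := hB _ hz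
    refine ⟨d + algebraMap K R α * dx + algebraMap K R β * dy,
      add_mem (add_mem hd (Ideal.mul_mem_left _ _ hdxc)) (Ideal.mul_mem_left _ _ hdyc), ?_⟩
    have e : s = (s - algebraMap K R α * x - algebraMap K R β * y) + α • x + β • y := by
      rw [Algebra.smul_def, Algebra.smul_def]
      ring
    rw [e, map_add, map_add, hd', D.map_smul, D.map_smul, hdx, hdy, map_add, map_add, map_mul, map_mul,
      ← IsScalarTower.algebraMap_apply, ← IsScalarTower.algebraMap_apply, Algebra.smul_def,
      Algebra.smul_def]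
  have hu : ∀ s ∈ c, ∃ d ∈ c, s • D r = algebraMap R L d := by
    intro s hs'
    obtain ⟨d, hd, hd'⟩ := hDc s hs'
    obtain ⟨e, he, he'⟩ := hDc (s * r) (Ideal.mul_mem_right _ _ hs')
    refine ⟨e - r * d, sub_mem he (Ideal.mul_mem_left _ _ hd), ?_⟩
    rw [D.leibniz, hd'] at he'
    rw [map_sub, ← he', map_mul, Algebra.smul_def r]
    ring
  -- the denominators of `D r`
  let J : Ideal R :=
    { carrier := {s | ∃ d, s • D r = algebraMap R L d}
      add_mem' := fun {a b} ha hb => by
        obtain ⟨d, hd⟩ := ha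
        obtain ⟨e, he⟩ := hb
        exact ⟨d + e, by rw [add_smul, hd, he, map_add]⟩
      zero_mem' := ⟨0, by rw [zero_smul, map_zero]⟩
      smul_mem' := fun a b hb => by
        obtain ⟨e, he⟩ := hb
        exact ⟨a * e, by rw [smul_eq_mul, mul_smul, he, map_mul, Algebra.smul_def]⟩ }
  have hJc : c ≤ J := fun s hs' => by
    obtain ⟨d, _, hd⟩ := hu s hs'
    exact ⟨d, hd⟩
  have hJp : ∀ (p' : R →ₐ[K] K) (x' : R), x' ∈ c → x' ∉ (RingHom.ker p') ^ 2 →
      (∀ r : R, p' r = 0 → ∃ c : K, r - algebraMap K R c * x' ∈ (RingHom.ker p') ^ 2) →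
      (∀ s ∈ c, p' s = 0) → ∃ a ∈ J, p' a = 1 := by
    intro p' x' hx'c hx'n hx'2 hcp'
    obtain ⟨a, ha1, ha2⟩ := exists_away p' x' hx'2
    obtain ⟨d, hd, hd'⟩ := hu x' hx'c
    obtain ⟨v, hv⟩ := ha2 d (hcp' d hd)
    refine ⟨a, ⟨v, ?_⟩, ha1⟩
    have hx'0 : x' ≠ 0 := fun h0 => hx'n (by rw [h0]; exact zero_mem _)
    have h1 : x' • (a • D r - algebraMap R L v) = 0 := by
      rw [smul_sub, smul_comm, hd', Algebra.smul_def, Algebra.smul_def, ← map_mul, ← map_mul, hv,
        sub_self]
    exact sub_eq_zero.mp (hreg x' hx'0 _ h1)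
  obtain ⟨a, haJ, ha1⟩ := hJp p x hxc hxn hx hcp
  obtain ⟨b, hbJ, hb1⟩ := hJp q y hyc hyn hy hcq
  rw [Ideal.isCoprime_iff_exists] at hcop
  obtain ⟨e, he, f, hf, hef⟩ := hcop
  rw [RingHom.mem_ker] at he hf
  have hpf : p f = 1 := by
    have h := congrArg p hef
    rw [map_add, he, zero_add, map_one] at h
    exact h
  have hqe : q e = 1 := by
    have h := congrArg q hef
    rw [map_add, hf, add_zero, map_one] at h
    exact h
  have hone : (1 : R) ∈ J := by
    have h1 : f * a + e * b ∈ J := add_mem (Ideal.mul_mem_left _ _ haJ) (Ideal.mul_mem_left _ _ hbJ)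
    have h2 : 1 - (f * a + e * b) ∈ c := by
      rw [hc]
      constructor
      · change p _ = 0
        rw [map_sub, map_add, map_mul, map_mul, map_one, hpf, ha1, he]
        ring
      · change q _ = 0
        rw [map_sub, map_add, map_mul, map_mul, map_one, hf, hb1, hqe]
        ring
    have h3 := add_mem (hJc h2) h1
    rwa [sub_add_cancel] at h3
  obtain ⟨d, hd⟩ := hone
  exact ⟨d, by rw [← hd, one_smul]⟩

end deriv

end KRN

theorem t_KRN (hKDM : Stmt_KDM) (hKRS : Stmt_KRS) : Stmt_KRN := by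
  intro I K _ _ _ _ _ g P hP hN hg
  obtain ⟨h, R, p, q, hgh, hR, hS, hpq, hPR⟩ := hN
  intro θ hθ hθ0
  refine hKRS hR hS (by omega) θ ?_ hθ0
  have hfp : Algebra.FinitePresentation K R := (t_KFG t_KNZ (t_KSP t_KNZ) hR).1
  have hft : Algebra.FiniteType K R := inferInstance
  have hno : IsNoetherianRing R := Algebra.FiniteType.isNoetherianRing K R
  let D : Derivation K R (KK I K) := ((θ • ddD I K : Derivation K (KK I K) (KK I K)).compAlgebraMap R)
  have hDa : ∀ f : R, D f = θ * dd (f : KK I K) := fun f => rfl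
  rw [mem_TT]
  intro f hf
  obtain ⟨d, hd⟩ := KRN.key (L := KK I K) Subtype.val_injective (fun t ht x hx => by
    funext i
    have h1 : (t : KK I K) i * x i = 0 := congrFun hx i
    rcases mul_eq_zero.mp h1 with h2 | h2
    · exact absurd ((hKDM hR hS).2 i t h2) ht
    · exact h2) hS.2 hpq D (fun f hpf => by
    have h1 : (f : KK I K) ∈ P := (hPR f).mpr ⟨f.2, hpf⟩
    obtain ⟨h2, h3⟩ := (hPR _).mp (hθ f h1)
    exact ⟨⟨_, h2⟩, rfl, h3⟩) ⟨f, hf⟩
  have h1 : θ * dd f = (d : KK I K) := hd
  rw [h1]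
  exact d.2

end Pool.Agent.MG.KX


end

section

/-!
# PDR: change of the index set in first order deformations
-/

namespace Pool.Agent.MG.KX

open Pool.Agent.MG.G0

namespace PDR

section

variable {I I' A : Type} [CommRing A] (e : I' ≃ I) (P : Subalgebra A (KK I A))

/-- The function on the other index set. -/
def bk {R : Type} (f : I' → R) : I → R := fun i => f (e.symm i)

theorem mem_reix' {f : KK I' A} : f ∈ reix e P ↔ bk e f ∈ P := Iff.rfl

theorem bk_idx (h : KK I A) : bk e (idx e h) = h := by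
  funext i
  change h (e (e.symm i)) = h i
  rw [Equiv.apply_symm_apply]

theorem idx_bk (f : KK I' A) : idx e (bk e f) = f := by
  funext i
  change f (e.symm (e i)) = f i
  rw [Equiv.symm_apply_apply]

/-- The ring isomorphism. -/
noncomputable def bkP (f : reix e P) : P := ⟨bk e (f : KK I' A), f.2⟩

/-- The map between the quotients. -/
noncomputable def T (m : MM P) : MM (reix e P) :=
  mk (reix e P) (idx e (Function.surjInv (mk_surj P) m))

theorem T_mk (h : KK I A) : T e P (mk P h) = mk (reix e P) (idx e h) := by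
  rw [T, mk_eq, ← map_sub]
  refine idx_mem_reix e ?_
  rw [← mk_eq]
  exact Function.surjInv_eq (mk_surj P) _

theorem T_eq (m : MM P) (k : KK I' A) : T e P m = mk (reix e P) k ↔ m = mk P (bk e k) := by
  obtain ⟨h, rfl⟩ := mk_surj P m
  rw [T_mk, mk_eq, mk_eq, mem_reix']
  have h1 : bk e (idx e h - k) = h - bk e k := by
    have h2 : bk e (idx e h - k) = bk e (idx e h) - bk e k := rfl
    rw [h2, bk_idx]
  rw [h1]

theorem T_add (m n : MM P) : T e P (m + n) = T e P m + T e P n := by
  obtain ⟨h, rfl⟩ := mk_surj P m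
  obtain ⟨k, rfl⟩ := mk_surj P n
  rw [← map_add, T_mk, T_mk, T_mk, map_add, map_add]

theorem T_smul (a : A) (m : MM P) : T e P (a • m) = a • T e P m := by
  obtain ⟨h, rfl⟩ := mk_surj P m
  rw [← mk_smulA, T_mk, T_mk, ← mk_smulA]
  rfl

theorem T_smulP (f : reix e P) (m : MM P) : T e P (bkP e P f • m) = f • T e P m := by
  obtain ⟨h, rfl⟩ := mk_surj P m
  rw [← map_smul, T_mk, T_mk, ← map_smul]
  congr 1
  change idx e (bk e (f : KK I' A) * h) = (f : KK I' A) * idx e h
  rw [map_mul, idx_bk]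

/-- The deformation. -/
noncomputable def dl (δ : DD P) : DD (reix e P) where
  toFun f := T e P (δ (bkP e P f))
  map_add' f g := by
    have h : bkP e P (f + g) = bkP e P f + bkP e P g := rfl
    rw [h, map_add, T_add]
  map_smul' a f := by
    have h : bkP e P (a • f) = a • bkP e P f := rfl
    change T e P (δ (bkP e P (a • f))) = a • T e P (δ (bkP e P f))
    have h2 : δ (a • bkP e P f) = a • δ (bkP e P f) :=
      (δ : P →ₗ[A] MM P).map_smul a (bkP e P f)
    rw [h, h2, T_smul]
  map_one_eq_zero' := by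
    have h : bkP e P 1 = 1 := rfl
    change T e P (δ (bkP e P 1)) = 0
    rw [h, Derivation.map_one_eq_zero]
    have h0 := T_smul e P 0 0
    rw [zero_smul, zero_smul] at h0
    exact h0
  leibniz' f g := by
    have h : bkP e P (f * g) = bkP e P f * bkP e P g := rfl
    change T e P (δ (bkP e P (f * g))) = f • T e P (δ (bkP e P g)) + g • T e P (δ (bkP e P f))
    rw [h, Derivation.leibniz, T_add, T_smulP, T_smulP]

end

end PDR

theorem t_PDR : Stmt_PDR := by
  intro I I' A _ e P δ
  refine ⟨PDR.dl e P δ, ?_, ?_⟩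
  · intro f h hf
    change PDR.T e P (δ (PDR.bkP e P ⟨idx e (f : KK I A), idx_mem_reix e f.2⟩)) = _
    have h1 : PDR.bkP e P ⟨idx e (f : KK I A), idx_mem_reix e f.2⟩ = f :=
      Subtype.ext (PDR.bk_idx e _)
    rw [h1, hf, PDR.T_mk]
  · ext F
    constructor
    · rintro ⟨h, hF⟩
      exact ⟨h, (PDR.T_eq e P _ _).1 hF⟩
    · rintro ⟨h, hF⟩
      exact ⟨h, (PDR.T_eq e P _ _).2 hF⟩

end Pool.Agent.MG.KX


end

section

/-!
# ZRK: the residue field of a discrete valuation ring of a function field of one variable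
-/

open Polynomial Cardinal

namespace Pool.Agent.MG.G0

namespace ZRK

/-- A field generated by one element has transcendence degree at most one. -/
theorem trdeg_le {k F : Type} [Field k] [Field F] [Algebra k F] (t : F)
    (ht : IntermediateField.adjoin k {t} = ⊤) : Algebra.trdeg k F ≤ 1 := by
  have h1 : Algebra.IsAlgebraic (Algebra.adjoin k {t}) F := by
    refine ⟨fun y => ?_⟩
    have hy : y ∈ IntermediateField.adjoin k {t} := by
      rw [ht]
      exact IntermediateField.mem_top
    obtain ⟨r, s, rfl⟩ := (IntermediateField.mem_adjoin_simple_iff k y).1 hy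
    have hr : aeval t r ∈ Algebra.adjoin k {t} :=
      Polynomial.aeval_mem_adjoin_singleton k t
    have hs : aeval t s ∈ Algebra.adjoin k {t} :=
      Polynomial.aeval_mem_adjoin_singleton k t
    rw [div_eq_mul_inv]
    have e1 : IsAlgebraic (Algebra.adjoin k {t}) (aeval t r) :=
      isAlgebraic_algebraMap (⟨aeval t r, hr⟩ : Algebra.adjoin k {t})
    have e2 : IsAlgebraic (Algebra.adjoin k {t}) (aeval t s) :=
      isAlgebraic_algebraMap (⟨aeval t s, hs⟩ : Algebra.adjoin k {t})
    exact e1.mul e2.inv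
  have h2 := Algebra.IsAlgebraic.trdeg_le_cardinalMk k ({t} : Set F)
  rwa [Cardinal.mk_singleton] at h2

/-- An element whose residue class is transcendental over `k` does not exist. -/
theorem alg_res {k F L : Type} [Field k] [Field F] [Field L] [Algebra k F] [Algebra F L]
    [Algebra k L] [IsScalarTower k F L] (t : F) (ht : IntermediateField.adjoin k {t} = ⊤)
    [FiniteDimensional F L] (O : Type) [CommRing O] [IsDomain O] [IsDiscreteValuationRing O]
    [Algebra k O] [Algebra O L] [IsScalarTower k O L] [IsFractionRing O L] (x : O) :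
    IsAlgebraic k (IsLocalRing.residue O x) := by
  by_contra hx
  -- nonzero polynomials in `x` are units
  have hu : ∀ r : k[X], r ≠ 0 → aeval x r ∉ IsLocalRing.maximalIdeal O := by
    intro r hr hm
    have h1 : IsLocalRing.residue O (aeval x r) = 0 := (IsLocalRing.residue_eq_zero_iff _).2 hm
    refine hx ⟨r, hr, ?_⟩
    rw [← h1]
    exact (Polynomial.aeval_algHom_apply (IsScalarTower.toAlgHom k O _) x r)
  have hinj : Function.Injective (algebraMap O L) := IsFractionRing.injective O L
  have htr : Transcendental k (algebraMap O L x) := by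
    rintro ⟨r, hr, h0⟩
    have h1 : algebraMap O L (aeval x r) = 0 := by
      rw [← h0]
      exact (Polynomial.aeval_algebraMap_apply L x r).symm
    have h2 : aeval x r = 0 := (map_eq_zero_iff _ hinj).1 h1
    exact hu r hr (by rw [h2]; exact Ideal.zero_mem _)
  have hdeg : Algebra.trdeg k L ≤ 1 := by
    rw [← trdeg_add_eq k F (A := L), trdeg_eq_zero (R := F) (A := L), add_zero]
    exact trdeg_le t ht
  have hind : AlgebraicIndependent k (fun _ : Unit => algebraMap O L x) :=
    (algebraicIndependent_unique_type_iff).2 htr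
  have hbas : IsTranscendenceBasis k (fun _ : Unit => algebraMap O L x) :=
    hind.isTranscendenceBasis_of_trdeg_le_of_finite (by simpa using hdeg)
  have halg := hbas.isAlgebraic
  obtain ⟨π, hπ⟩ := IsDiscreteValuationRing.exists_irreducible O
  have hπm : IsLocalRing.maximalIdeal O = Ideal.span {π} := hπ.maximalIdeal_eq
  have hπ0 : algebraMap O L π ≠ 0 := fun h => hπ.ne_zero ((map_eq_zero_iff _ hinj).1 h)
  obtain ⟨q, hq0, hq⟩ := (halg.isAlgebraic (algebraMap O L π)).exists_nonzero_coeff_and_aeval_eq_zero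
    (mem_nonZeroDivisors_of_ne_zero hπ0)
  -- the coefficients are in `O`
  have hco : ∀ b : Algebra.adjoin k (Set.range fun _ : Unit => algebraMap O L x),
      ∃ r : k[X], (b : L) = algebraMap O L (aeval x r) := by
    rintro ⟨b, hb⟩
    rw [Set.range_const, Algebra.adjoin_singleton_eq_range_aeval] at hb
    obtain ⟨r, rfl⟩ := hb
    exact ⟨r, (Polynomial.aeval_algebraMap_apply L x r)⟩
  have hmem : aeval (algebraMap O L π) q.divX ∈ (algebraMap O L).range := by
    rw [Polynomial.aeval_eq_sum_range]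
    refine Subring.sum_mem _ fun i _ => ?_
    rw [Algebra.smul_def]
    refine mul_mem ?_ (pow_mem (RingHom.mem_range_self (algebraMap O L) π) _)
    obtain ⟨r, hr⟩ := hco (q.divX.coeff i)
    exact ⟨_, hr.symm⟩
  obtain ⟨o, ho⟩ := hmem
  obtain ⟨r, hr⟩ := hco (q.coeff 0)
  have hr0 : r ≠ 0 := by
    rintro rfl
    rw [map_zero, map_zero] at hr
    exact hq0 (Subtype.ext hr)
  have e1 : aeval (algebraMap O L π) q = aeval (algebraMap O L π) q.divX * algebraMap O L π +
      (q.coeff 0 : L) := by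
    conv_lhs => rw [← Polynomial.divX_mul_X_add q]
    rw [map_add, map_mul, aeval_X, aeval_C]
    rfl
  have e2 : algebraMap O L (o * π + aeval x r) = 0 := by
    rw [map_add, map_mul, ho, ← hr, ← e1, hq]
  have e3 : o * π + aeval x r = 0 := (map_eq_zero_iff _ hinj).1 e2
  refine hu r hr0 ?_
  have e4 : aeval x r = -(o * π) := by
    rw [eq_neg_iff_add_eq_zero, add_comm]
    exact e3
  rw [e4, hπm]
  exact Ideal.neg_mem_iff _ |>.2 (Ideal.mul_mem_left _ _ (Ideal.mem_span_singleton_self _))

end ZRK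

open _root_.Pool.Agent.MG.G0.ZRK in
/-- ZRK: the residue field of a discrete valuation ring of a function field of one variable. -/
theorem t_ZRK : Stmt_ZRK := by
  intro k F L _ _ _ _ _ _ _ _ t ht hfin O _ _ _ _ _ _ _
  have h1 : Algebra.IsIntegral k (IsLocalRing.ResidueField O) := by
    refine ⟨fun y => ?_⟩
    obtain ⟨x, rfl⟩ := IsLocalRing.residue_surjective y
    exact (alg_res (L := L) t ht O x).isIntegral
  let e : k ≃ₐ[k] IsLocalRing.ResidueField O :=
    AlgEquiv.ofBijective (Algebra.ofId k _) IsAlgClosed.algebraMap_bijective_of_isIntegral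
  refine ⟨(e.symm : IsLocalRing.ResidueField O →ₐ[k] k).comp
    (IsScalarTower.toAlgHom k O (IsLocalRing.ResidueField O)), fun x => ?_⟩
  rw [← IsLocalRing.residue_eq_zero_iff]
  change e.symm (IsLocalRing.residue O x) = 0 ↔ _
  exact map_eq_zero_iff _ e.symm.injective

end Pool.Agent.MG.G0


end
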