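import Mathlib
import Pool.Agent.KDM.C08
import Pool.Agent.KDM.C11
import Pool.Agent.KDM.C15
import Pool.Agent.KDM.C24
import Pool.Agent.KDM.C30
import Pool.Agent.KDM.C49
import Pool.Agent.KDM.C54
import Pool.Agent.KDM.C57

/-! Parts: MG.WL.CL.VF, MG.WL.EXT, MG.WL.VAL, MG.KX.PLE, MG.KX.KNS, MG.KX.GNM, MG.KX.KSX, MG.G0.GLF, MG.G0.POF -/

section

/-!
# VF: a vector field from a map of the local ring at one generic point
-/

open CategoryTheory AlgebraicGeometry IsLocalRing TopologicalSpace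
open Pool.Agent.MG.Two Pool.Agent.MG.W Pool.Agent.MG.W.W0 Pool.Agent.MG.One

namespace Pool.Agent.MG.WL.CL

namespace VF_

/-- A generic point generates an irreducible component. -/
lemma closure_gen {X : Scheme.{0}} {y : X} (hy : Gen y) :
    closure ({y} : Set X) ∈ irreducibleComponents X := by
  obtain ⟨Z, hZ, hyZ⟩ := exists_mem_irreducibleComponents_subset_of_isIrreducible
    (closure ({y} : Set X)) isIrreducible_singleton.closure
  have hZc : IsClosed Z := isClosed_of_mem_irreducibleComponents Z hZ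
  obtain ⟨z, hz⟩ := QuasiSober.sober hZ.1 hZc
  have h1 : z ⤳ y := by
    rw [specializes_iff_mem_closure, hz.def]
    exact hyZ (subset_closure rfl)
  have h2 := hy z h1
  rw [← h2, hz.def]
  exact hZ

/-- A small neighbourhood: all its generic points specialise to `x`. -/
lemma nbhd {X : Scheme.{0}} [NoetherianSpace X] (x : X) :
    ∃ N : X.Opens, x ∈ N ∧ ∀ y ∈ N, Gen y → y ⤳ x := by
  have hfin : ({Z ∈ irreducibleComponents X | x ∉ Z} : Set (Set X)).Finite :=
    (NoetherianSpace.finite_irreducibleComponents (α := X)).subset (fun Z h => h.1)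
  refine ⟨⟨(⋃ Z ∈ ({Z ∈ irreducibleComponents X | x ∉ Z} : Set (Set X)), Z)ᶜ, ?_⟩, ?_, ?_⟩
  · rw [isOpen_compl_iff]
    exact hfin.isClosed_biUnion fun Z h => isClosed_of_mem_irreducibleComponents Z h.1
  · change x ∉ ⋃ Z ∈ ({Z ∈ irreducibleComponents X | x ∉ Z} : Set (Set X)), Z
    intro h
    simp only [Set.mem_iUnion] at h
    obtain ⟨Z, hZ, hx⟩ := h
    exact hZ.2 hx
  · intro y hyN hy
    rw [specializes_iff_mem_closure]
    by_contra hx
    apply hyN
    simp only [Set.mem_iUnion]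
    exact ⟨closure {y}, ⟨closure_gen hy, hx⟩, subset_closure rfl⟩

/-- Good sections. -/
structure Gd {X : Scheme.{0}} (η : X) (D : X.presheaf.stalk η → X.presheaf.stalk η)
    (U : X.Opens) (a : Γ(X, U)) (N : X.Opens) (s : Γ(X, N)) : Prop where
  le : N ≤ U
  e : ∀ h : η ∈ N, X.presheaf.germ N η h s = D (X.presheaf.germ U η (le h) a)
  o : ∀ (y : X) (h : y ∈ N), Gen y → y ≠ η → X.presheaf.germ N y h s = 0

lemma Gd.unique (hU : Stmt_UNQ) {X : Scheme.{0}} [IsReduced X] {η : X}
    {D : X.presheaf.stalk η → X.presheaf.stalk η} {U : X.Opens} {a : Γ(X, U)} {N : X.Opens}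
    {s s' : Γ(X, N)} (h : Gd η D U a N s) (h' : Gd η D U a N s') : s = s' := by
  refine hU N s s' fun y hy hg => ?_
  by_cases hy' : y = η
  · subst hy'
    rw [h.e hy, h'.e hy]
  · rw [h.o y hy hg hy', h'.o y hy hg hy']

lemma Gd.res {X : Scheme.{0}} {η : X}
    {D : X.presheaf.stalk η → X.presheaf.stalk η} {U : X.Opens} {a : Γ(X, U)} {N : X.Opens}
    {s : Γ(X, N)} (h : Gd η D U a N s) {N' : X.Opens} (i : N' ≤ N) :
    Gd η D U a N' (X.presheaf.map (homOfLE i).op s) where
  le := i.trans h.le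
  e hη := (X.presheaf.germ_res_apply (homOfLE i) η hη s).trans (h.e (i hη))
  o y hy hg hne := (X.presheaf.germ_res_apply (homOfLE i) y hy s).trans (h.o y (i hy) hg hne)

/-- Lifting a germ. -/
lemma lift {X : Scheme.{0}} [NoetherianSpace X] {η : X} (hη : Gen η)
    (D : X.presheaf.stalk η → X.presheaf.stalk η) (U : X.Opens) (a : Γ(X, U)) (x : X)
    (hx : x ∈ U) (g' : X.presheaf.stalk x)
    (h1 : ∀ h : η ⤳ x, X.presheaf.stalkSpecializes h g' =
      D (X.presheaf.stalkSpecializes h (X.presheaf.germ U x hx a)))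
    (h2 : ∀ (y : X) (hy : y ⤳ x), Gen y → y ≠ η → X.presheaf.stalkSpecializes hy g' = 0) :
    ∃ (N : X.Opens) (hN : x ∈ N) (s : Γ(X, N)), X.presheaf.germ N x hN s = g' ∧
      Gd η D U a N s := by
  obtain ⟨N₀, hx0, hN0⟩ := nbhd x
  obtain ⟨N₁, hx1, s₁, hs₁⟩ := X.presheaf.exists_germ_eq g'
  have hxN : x ∈ (N₁ ⊓ (N₀ ⊓ U) : X.Opens) := ⟨hx1, hx0, hx⟩
  have hs : X.presheaf.germ (N₁ ⊓ (N₀ ⊓ U)) x hxN
      (X.presheaf.map (homOfLE (inf_le_left : N₁ ⊓ (N₀ ⊓ U) ≤ N₁)).op s₁) = g' :=
    (X.presheaf.germ_res_apply _ x hxN s₁).trans hs₁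
  refine ⟨N₁ ⊓ (N₀ ⊓ U), hxN,
    X.presheaf.map (homOfLE (inf_le_left : N₁ ⊓ (N₀ ⊓ U) ≤ N₁)).op s₁, hs,
    ⟨inf_le_right.trans inf_le_right, fun h => ?_, fun y hy hg hne => ?_⟩⟩
  · have hsp : η ⤳ x := hN0 η h.2.1 hη
    have e1 := h1 hsp
    rw [← hs, TopCat.Presheaf.germ_stalkSpecializes_apply,
      TopCat.Presheaf.germ_stalkSpecializes_apply] at e1
    exact e1
  · have hsp : y ⤳ x := hN0 y hy.2.1 hg
    have e1 := h2 y hsp hg hne
    rw [← hs, TopCat.Presheaf.germ_stalkSpecializes_apply] at e1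
    exact e1

/-- The global good section. -/
lemma exists_good (hU : Stmt_UNQ) {X : Scheme.{0}} [IsReduced X] [NoetherianSpace X] (η : X)
    (hη : Gen η) (D : X.presheaf.stalk η → X.presheaf.stalk η)
    (hD : ∀ (x : X) (h : η ⤳ x) (g : X.presheaf.stalk x), ∃ g' : X.presheaf.stalk x,
      X.presheaf.stalkSpecializes h g' = D (X.presheaf.stalkSpecializes h g) ∧
      ∀ (y : X) (hy : y ⤳ x), Gen y → y ≠ η → X.presheaf.stalkSpecializes hy g' = 0)
    (U : X.Opens) (a : Γ(X, U)) : ∃ t : Γ(X, U), Gd η D U a U t := by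
  have hloc : ∀ x : U, ∃ (N : X.Opens) (_ : x.1 ∈ N) (s : Γ(X, N)), Gd η D U a N s := by
    intro x
    by_cases hsp : η ⤳ x.1
    · obtain ⟨g', h1, h2⟩ := hD x.1 hsp (X.presheaf.germ U x.1 x.2 a)
      obtain ⟨N, hN, s, -, hs⟩ := lift hη D U a x.1 x.2 g' (fun _ => h1) h2
      exact ⟨N, hN, s, hs⟩
    · obtain ⟨N, hN, s, -, hs⟩ := lift hη D U a x.1 x.2 0 (fun h => absurd h hsp)
        (fun y hy _ _ => map_zero _)
      exact ⟨N, hN, s, hs⟩
  choose N hxN s hs using hloc
  obtain ⟨t, ht, -⟩ := X.sheaf.existsUnique_gluing' N U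
    (fun x => homOfLE (hs x).le)
    (fun y hy => by
      simp only [Opens.mem_iSup]
      exact ⟨⟨y, hy⟩, hxN ⟨y, hy⟩⟩) s
    (fun x y => Gd.unique hU ((hs x).res inf_le_left) ((hs y).res inf_le_right))
  refine ⟨t, le_rfl, fun h => ?_, fun y hy hg hne => ?_⟩
  · have h1 := ht ⟨η, h⟩
    have h2 : X.presheaf.germ (N ⟨η, h⟩) η (hxN ⟨η, h⟩)
        (X.presheaf.map (homOfLE (hs ⟨η, h⟩).le).op t) = X.presheaf.germ U η h t :=
      X.presheaf.germ_res_apply _ η _ t
    rw [← h2]
    exact (congrArg (X.presheaf.germ (N ⟨η, h⟩) η (hxN ⟨η, h⟩)) h1).trans ((hs ⟨η, h⟩).e _)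
  · have h1 := ht ⟨y, hy⟩
    have h2 : X.presheaf.germ (N ⟨y, hy⟩) y (hxN ⟨y, hy⟩)
        (X.presheaf.map (homOfLE (hs ⟨y, hy⟩).le).op t) = X.presheaf.germ U y hy t :=
      X.presheaf.germ_res_apply _ y _ t
    rw [← h2]
    exact (congrArg (X.presheaf.germ (N ⟨y, hy⟩) y (hxN ⟨y, hy⟩)) h1).trans
      ((hs ⟨y, hy⟩).o _ _ hg hne)

end VF_

open _root_.Pool.Agent.MG.WL.CL.VF_ in
theorem t_VF (hU : Stmt_UNQ) : Stmt_VF := by
  intro X _ _ η hη D hD
  choose F hF using fun U a => exists_good hU η hη D hD U a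
  have key : ∀ (U : X.Opens) (x : X) (hx : x ∈ U) (a : Γ(X, U)) (g' : X.presheaf.stalk x),
      (∀ h : η ⤳ x, X.presheaf.stalkSpecializes h g' =
        D (X.presheaf.stalkSpecializes h (X.presheaf.germ U x hx a))) →
      (∀ (y : X) (hy : y ⤳ x), Gen y → y ≠ η → X.presheaf.stalkSpecializes hy g' = 0) →
      X.presheaf.germ U x hx (F U a) = g' := by
    intro U x hx a g' h1 h2
    obtain ⟨N, hN, s, hs, hG⟩ := lift hη D U a x hx g' h1 h2
    have e1 := Gd.unique hU ((hF U a).res hG.le) hG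
    have e2 : X.presheaf.germ N x hN (X.presheaf.map (homOfLE hG.le).op (F U a)) =
        X.presheaf.germ U x hx (F U a) := X.presheaf.germ_res_apply _ x hN _
    rw [← e2, e1, hs]
  refine ⟨F, fun U hηU a => (hF U a).e hηU, fun U y hy hg hne a => (hF U a).o y hy hg hne,
    fun U x hx a hsp => key U x hx a 0 (fun h => absurd h hsp) (fun y hy _ _ => map_zero _),
    fun U x hx a h g' h1 h2 => key U x hx a g' (fun _ => h1) h2⟩

end Pool.Agent.MG.WL.CL


end

section

/-!
# Extension of compatible classes after multiplication by a power (module EXT)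
-/

open CategoryTheory CategoryTheory.Limits AlgebraicGeometry TensorProduct

namespace Pool.Agent.MG.WL

open Pool.Agent.MG.W Pool.Agent.MG.One

namespace EXT

section alg

variable {A : Type} [CommRing A]

theorem away_ext {x : A} {D : Type} [CommRing D] {ψ ψ' : Localization.Away x →+* D}
    (h : ψ.comp (algebraMap A _) = ψ'.comp (algebraMap A _)) : ψ = ψ' :=
  IsLocalization.ringHom_ext (Submonoid.powers x) h

theorem unit_of {x : A} {D : Type} [CommRing D] (ψ : Localization.Away x →+* D) :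
    IsUnit (ψ (algebraMap A _ x)) :=
  (IsLocalization.Away.algebraMap_isUnit x).map ψ

theorem six_map {D : Type} [CommRing D] (θ : A →+* D) (h6 : IsUnit (6 : A)) : IsUnit (6 : D) := by
  have h := h6.map θ
  rwa [map_ofNat] at h

theorem away_eq {x : A} {a b : A}
    (h : algebraMap A (Localization.Away x) a = algebraMap A (Localization.Away x) b) :
    ∃ n : ℕ, x ^ n * a = x ^ n * b := by
  obtain ⟨⟨_, ⟨n, rfl⟩⟩, h1⟩ := (IsLocalization.eq_iff_exists (Submonoid.powers x) _).1 h
  exact ⟨n, h1⟩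

end alg

section rel

variable {A : Type} [CommRing A] {r : ℕ} {f : Fin r → A} {C : Fam 1 A}
  (c : ∀ i, Ch (algebraMap A (Localization.Away (f i))) C) (i₀ : Fin r)

theorem rel_one (hREL : Stmt_REL) (i : Fin r) {D : Type} [CommRing D]
    (ψ : Localization.Away (f i) →+* D) (u : D) (hu : Rel (c i) (c i) ψ ψ u) : u = 1 := by
  obtain ⟨R1, R2, R3, R4⟩ := hREL
  have h1 := R3 (c i) (c i) (c i) ψ ψ ψ u u hu hu
  have h2 := R2 (c i) (c i) ψ ψ _ _ rfl h1 hu
  obtain ⟨v, huv, -⟩ := hu
  calc u = (u * u) * v := by rw [mul_assoc, huv, mul_one]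
    _ = u * v := by rw [h2]
    _ = 1 := huv

/-- Compatibility where `f i₀` is invertible. -/
def Cpg (δ : ∀ i, Localization.Away (f i)) : Prop :=
  ∀ (i j : Fin r) (D : Type) [CommRing D] (ψ : Localization.Away (f i) →+* D)
    (ψ' : Localization.Away (f j) →+* D) (u : D),
    ψ.comp (algebraMap A (Localization.Away (f i))) =
      ψ'.comp (algebraMap A (Localization.Away (f j))) →
    IsUnit (ψ (algebraMap A _ (f i₀))) →
    Rel (c i) (c j) ψ ψ' u → ψ' (δ j) = u ^ 10 * ψ (δ i)

/-- The second step. -/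
theorem step2 (hREL : Stmt_REL) (h6 : IsUnit (6 : A)) (δ : ∀ i, Localization.Away (f i))
    (hδ : Cpg c i₀ δ) : ∃ M : ℕ, Cpt c fun i => algebraMap A _ (f i₀) ^ M * δ i := by
  obtain ⟨R1, R2, -, R4⟩ := hREL
  have key : ∀ p : Fin r × Fin r, ∃ M : ℕ, ∀ (D : Type) [CommRing D]
      (ψ : Localization.Away (f p.1) →+* D) (ψ' : Localization.Away (f p.2) →+* D) (u : D),
      ψ.comp (algebraMap A (Localization.Away (f p.1))) =
        ψ'.comp (algebraMap A (Localization.Away (f p.2))) →
      Rel (c p.1) (c p.2) ψ ψ' u →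
      ψ (algebraMap A _ (f i₀)) ^ M * ψ' (δ p.2) =
        ψ (algebraMap A _ (f i₀)) ^ M * (u ^ 10 * ψ (δ p.1)) := by
    rintro ⟨i, j⟩
    let D₀ := Localization.Away (f i * f j)
    have hu : IsUnit (algebraMap A D₀ (f i * f j)) := IsLocalization.Away.algebraMap_isUnit _
    rw [map_mul] at hu
    let ψ₀ : Localization.Away (f i) →+* D₀ :=
      IsLocalization.Away.lift (f i) (isUnit_of_mul_isUnit_left hu)
    let ψ₀' : Localization.Away (f j) →+* D₀ :=
      IsLocalization.Away.lift (f j) (isUnit_of_mul_isUnit_right hu)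
    have hψ₀ : ψ₀.comp (algebraMap A _) = algebraMap A D₀ := IsLocalization.Away.lift_comp _ _
    have hψ₀' : ψ₀'.comp (algebraMap A _) = algebraMap A D₀ := IsLocalization.Away.lift_comp _ _
    have hc : ψ₀.comp (algebraMap A _) = ψ₀'.comp (algebraMap A _) := hψ₀.trans hψ₀'.symm
    obtain ⟨u₀, hu₀⟩ := R1 (c i) (c j) ψ₀ ψ₀' (six_map (algebraMap A D₀) h6) hc
    let E := Localization.Away (algebraMap A D₀ (f i₀))
    let χ : D₀ →+* E := algebraMap D₀ E
    have h1 := hδ i j E (χ.comp ψ₀) (χ.comp ψ₀') (χ u₀)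
      (by rw [RingHom.comp_assoc, RingHom.comp_assoc, hc])
      (by
        have : (χ.comp ψ₀) (algebraMap A _ (f i₀)) = χ (algebraMap A D₀ (f i₀)) :=
          congrArg χ (RingHom.congr_fun hψ₀ (f i₀))
        rw [this]
        exact IsLocalization.Away.algebraMap_isUnit _)
      (R4 (c i) (c j) ψ₀ ψ₀' χ u₀ hu₀)
    have h2 : χ (ψ₀' (δ j)) = χ (u₀ ^ 10 * ψ₀ (δ i)) := by
      rw [map_mul, map_pow]
      exact h1
    obtain ⟨M, hM⟩ := away_eq h2
    refine ⟨M, ?_⟩
    intro D _ ψ ψ' u hψ hu'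
    have e1 : IsUnit (ψ (algebraMap A _ (f i))) := unit_of ψ
    have e2 : IsUnit (ψ (algebraMap A _ (f j))) := by
      have h := unit_of ψ'
      have h3 : ψ' (algebraMap A _ (f j)) = ψ (algebraMap A _ (f j)) :=
        (RingHom.congr_fun hψ (f j)).symm
      rwa [h3] at h
    let μ : D₀ →+* D := IsLocalization.Away.lift (f i * f j)
      (g := ψ.comp (algebraMap A (Localization.Away (f i)))) (by
        rw [map_mul]
        exact e1.mul e2)
    have hμ : μ.comp (algebraMap A D₀) = ψ.comp (algebraMap A _) :=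
      IsLocalization.Away.lift_comp _ _
    have e3 : μ.comp ψ₀ = ψ := by
      refine away_ext ?_
      rw [RingHom.comp_assoc, hψ₀, hμ]
    have e4 : μ.comp ψ₀' = ψ' := by
      refine away_ext ?_
      rw [RingHom.comp_assoc, hψ₀', hμ, hψ]
    have e5 : μ u₀ = u := by
      refine R2 (c i) (c j) ψ ψ' _ _ hψ ?_ hu'
      have := R4 (c i) (c j) ψ₀ ψ₀' μ u₀ hu₀
      rwa [e3, e4] at this
    have h3 := congrArg μ hM
    rw [map_mul, map_mul, map_pow, map_mul, map_pow, e5] at h3
    have e6 : μ (algebraMap A D₀ (f i₀)) = ψ (algebraMap A _ (f i₀)) :=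
      RingHom.congr_fun hμ (f i₀)
    have e7 : μ (ψ₀' (δ j)) = ψ' (δ j) := RingHom.congr_fun e4 _
    have e8 : μ (ψ₀ (δ i)) = ψ (δ i) := RingHom.congr_fun e3 _
    rw [e6, e7, e8] at h3
    exact h3
  choose M hM using key
  refine ⟨∑ p, M p, ?_⟩
  intro i j D _ ψ ψ' u hψ hu
  have h1 := hM (i, j) D ψ ψ' u hψ hu
  obtain ⟨m, hm⟩ : ∃ m, ∑ p, M p = m + M (i, j) := by
    refine ⟨∑ p, M p - M (i, j), (Nat.sub_add_cancel ?_).symm⟩
    exact Finset.single_le_sum (fun _ _ => Nat.zero_le _) (Finset.mem_univ (i, j))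
  have h2 : ψ' (algebraMap A _ (f i₀)) = ψ (algebraMap A _ (f i₀)) :=
    (RingHom.congr_fun hψ (f i₀)).symm
  rw [map_mul, map_mul, map_pow, map_pow, h2, hm, pow_add, mul_assoc, h1]
  ring

/-- The first step. -/
theorem step1 (hREL : Stmt_REL) (h6 : IsUnit (6 : A)) (s : Localization.Away (f i₀)) :
    ∃ (N : ℕ) (δ : ∀ i, Localization.Away (f i)),
      δ i₀ = algebraMap A _ (f i₀) ^ N * s ∧ Cpg c i₀ δ := by
  have hREL' := hREL
  obtain ⟨R1, R2, R3, R4⟩ := hREL'
  let q' : ∀ i, Localization.Away (f i) →+*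
      Localization.Away (algebraMap A (Localization.Away (f i)) (f i₀)) := fun i =>
    algebraMap _ _
  have hq' : ∀ i, IsUnit (((q' i).comp (algebraMap A (Localization.Away (f i)))) (f i₀)) :=
    fun i => IsLocalization.Away.algebraMap_isUnit
      (algebraMap A (Localization.Away (f i)) (f i₀))
  let q : ∀ i, Localization.Away (f i₀) →+*
      Localization.Away (algebraMap A (Localization.Away (f i)) (f i₀)) := fun i =>
    IsLocalization.Away.lift (f i₀) (hq' i)
  have hq : ∀ i, (q i).comp (algebraMap A _) = (q' i).comp (algebraMap A _) := fun i =>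
    IsLocalization.Away.lift_comp _ _
  have h1 : ∀ i, ∃ u, Rel (c i₀) (c i) (q i) (q' i) u := fun i =>
    R1 (c i₀) (c i) (q i) (q' i) (six_map ((q' i).comp (algebraMap A _)) h6) (hq i)
  choose u hu using h1
  have h2 : ∀ i, ∃ (n : ℕ) (x : Localization.Away (f i)),
      q' i (algebraMap A _ (f i₀)) ^ n * (u i ^ 10 * q i s) = q' i x := by
    intro i
    obtain ⟨n, x, hx⟩ := IsLocalization.Away.surj (algebraMap A (Localization.Away (f i)) (f i₀))
      (u i ^ 10 * q i s)
    refine ⟨n, x, ?_⟩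
    rw [mul_comm]
    exact hx
  choose n x hx using h2
  let N := ∑ i, n i
  let δ : ∀ i, Localization.Away (f i) := fun i =>
    algebraMap A _ (f i₀) ^ (N - n i) * x i
  have hδ : ∀ i, q' i (δ i) = q' i (algebraMap A _ (f i₀)) ^ N * (u i ^ 10 * q i s) := by
    intro i
    have h3 : n i ≤ N := Finset.single_le_sum (fun _ _ => Nat.zero_le _) (Finset.mem_univ i)
    change q' i (algebraMap A _ (f i₀) ^ (N - n i) * x i) = _
    rw [map_mul, map_pow, ← hx i, ← mul_assoc, ← pow_add, Nat.sub_add_cancel h3]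
  clear_value δ
  refine ⟨N, δ, ?_, ?_⟩
  · have e1 : q i₀ = q' i₀ := away_ext (hq i₀)
    have e2 : u i₀ = 1 := rel_one c hREL i₀ (q' i₀) (u i₀) (by
      have := hu i₀
      rwa [e1] at this)
    have e3 := hδ i₀
    rw [e1, e2, one_pow, one_mul, ← map_pow, ← map_mul] at e3
    obtain ⟨m, hm⟩ := away_eq e3
    have e4 : IsUnit (algebraMap A (Localization.Away (f i₀)) (f i₀) ^ m) :=
      (IsLocalization.Away.algebraMap_isUnit _).pow m
    exact e4.mul_left_cancel hm
  · intro i j D _ ψ ψ' v hψ hg hv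
    have hg' : IsUnit (ψ' (algebraMap A _ (f i₀))) := by
      have h3 : ψ (algebraMap A _ (f i₀)) = ψ' (algebraMap A _ (f i₀)) :=
        RingHom.congr_fun hψ (f i₀)
      rwa [h3] at hg
    let μ : Localization.Away (algebraMap A (Localization.Away (f i)) (f i₀)) →+* D :=
      IsLocalization.Away.lift (algebraMap A (Localization.Away (f i)) (f i₀)) hg
    let μ' : Localization.Away (algebraMap A (Localization.Away (f j)) (f i₀)) →+* D :=
      IsLocalization.Away.lift (algebraMap A (Localization.Away (f j)) (f i₀)) hg'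
    have hμ : μ.comp (q' i) = ψ := IsLocalization.Away.lift_comp _ _
    have hμ' : μ'.comp (q' j) = ψ' := IsLocalization.Away.lift_comp _ _
    have e1 : μ.comp (q i) = μ'.comp (q j) := by
      refine away_ext ?_
      rw [RingHom.comp_assoc, RingHom.comp_assoc, hq, hq, ← RingHom.comp_assoc,
        ← RingHom.comp_assoc, hμ, hμ', hψ]
    have e2 : Rel (c i₀) (c i) (μ.comp (q i)) ψ (μ (u i)) := by
      have := R4 (c i₀) (c i) (q i) (q' i) μ (u i) (hu i)
      rwa [hμ] at this
    have e3 : Rel (c i₀) (c j) (μ.comp (q i)) ψ' (μ' (u j)) := by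
      have := R4 (c i₀) (c j) (q j) (q' j) μ' (u j) (hu j)
      rwa [hμ', ← e1] at this
    have e4 : (μ.comp (q i)).comp (algebraMap A _) = ψ'.comp (algebraMap A _) := by
      rw [RingHom.comp_assoc, hq, ← RingHom.comp_assoc, hμ, hψ]
    have e5 : v * μ (u i) = μ' (u j) :=
      R2 (c i₀) (c j) _ _ _ _ e4 (R3 (c i₀) (c i) (c j) _ ψ ψ' _ _ e2 hv) e3
    have e6 : ψ (δ i) = ψ (algebraMap A _ (f i₀)) ^ N * (μ (u i) ^ 10 * μ (q i s)) := by
      have := congrArg μ (hδ i)
      rw [map_mul, map_mul, map_pow, map_pow] at this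
      rw [← hμ]
      exact this
    have e7 : ψ' (δ j) = ψ' (algebraMap A _ (f i₀)) ^ N * (μ' (u j) ^ 10 * μ' (q j s)) := by
      have := congrArg μ' (hδ j)
      rw [map_mul, map_mul, map_pow, map_pow] at this
      rw [← hμ']
      exact this
    have e8 : μ (q i s) = μ' (q j s) := RingHom.congr_fun e1 s
    have e9 : ψ (algebraMap A _ (f i₀)) = ψ' (algebraMap A _ (f i₀)) :=
      RingHom.congr_fun hψ (f i₀)
    rw [e6, e7, ← e5, e8, e9]
    ring

theorem part2 (hREL : Stmt_REL) (h6 : IsUnit (6 : A)) (δ δ' : ∀ i, Localization.Away (f i))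
    (h : Cpt c δ) (h' : Cpt c δ') (he : δ i₀ = δ' i₀) :
    ∃ K : ℕ, ∀ i, algebraMap A _ (f i₀) ^ K * δ i = algebraMap A _ (f i₀) ^ K * δ' i := by
  obtain ⟨R1, -, -, -⟩ := hREL
  have key : ∀ i, ∃ K : ℕ,
      algebraMap A _ (f i₀) ^ K * δ i = algebraMap A _ (f i₀) ^ K * δ' i := by
    intro i
    let D := Localization.Away (algebraMap A (Localization.Away (f i)) (f i₀))
    let q' : Localization.Away (f i) →+* D := algebraMap _ _
    have hq' : IsUnit ((q'.comp (algebraMap A (Localization.Away (f i)))) (f i₀)) :=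
      IsLocalization.Away.algebraMap_isUnit (algebraMap A (Localization.Away (f i)) (f i₀))
    let q : Localization.Away (f i₀) →+* D := IsLocalization.Away.lift (f i₀) hq'
    have hq : q.comp (algebraMap A _) = q'.comp (algebraMap A _) :=
      IsLocalization.Away.lift_comp _ _
    obtain ⟨u, hu⟩ := R1 (c i₀) (c i) q q' (six_map (q'.comp (algebraMap A _)) h6) hq
    have e1 := h i₀ i D q q' u hq hu
    have e2 := h' i₀ i D q q' u hq hu
    rw [he, ← e2] at e1
    exact away_eq e1
  choose K hK using key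
  refine ⟨∑ i, K i, fun i => ?_⟩
  obtain ⟨m, hm⟩ : ∃ m, ∑ p, K p = m + K i := by
    refine ⟨∑ p, K p - K i, (Nat.sub_add_cancel ?_).symm⟩
    exact Finset.single_le_sum (fun _ _ => Nat.zero_le _) (Finset.mem_univ i)
  rw [hm, pow_add, mul_assoc, mul_assoc, hK]

end rel

end EXT

/-- Section EXT. -/
theorem t_EXT (hREL : Stmt_REL) : Stmt_EXT := by
  refine ⟨?_, ?_⟩
  · intro A _ h6 r f C c i₀ s
    obtain ⟨N, δ, h1, h2⟩ := EXT.step1 c i₀ hREL h6 s
    obtain ⟨M, hM⟩ := EXT.step2 c i₀ hREL h6 δ h2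
    refine ⟨M + N, _, ?_, hM⟩
    rw [h1, pow_add, mul_assoc]
  · intro A _ h6 r f C c i₀ δ δ' h h' he
    exact EXT.part2 c i₀ hREL h6 δ δ' h h' he

end Pool.Agent.MG.WL


end

section

/-!
# VAL: existence and uniqueness of the value
-/

open CategoryTheory CategoryTheory.Limits AlgebraicGeometry TensorProduct

namespace Pool.Agent.MG.WL

open Pool.Agent.MG.W Pool.Agent.MG.One

namespace VALX

/-- Image of the value of a polynomial under a homomorphism. -/
theorem aeval_map {A A' : Type} [CommRing A] [Algebra ℂ A] [CommRing A'] [Algebra ℂ A']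
    (ω : A →+* A') (hω : ω.comp (algebraMap ℂ A) = algebraMap ℂ A') (a b τ : A)
    (P : MvPolynomial (Fin 3) ℂ) :
    ω (MvPolynomial.aeval ![a, b, τ] P) = MvPolynomial.aeval ![ω a, ω b, ω τ] P := by
  let ωA : A →ₐ[ℂ] A' := { ω with commutes' := fun z => RingHom.congr_fun hω z }
  have h1 : ωA (MvPolynomial.aeval ![a, b, τ] P) =
      MvPolynomial.aeval (fun i => ωA (![a, b, τ] i)) P := MvPolynomial.comp_aeval_apply _ _ _
  have h2 : (fun i => ωA (![a, b, τ] i)) = ![ω a, ω b, ω τ] := by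
    funext i
    fin_cases i <;> rfl
  rw [h2] at h1
  exact h1

theorem algebraMap_comp {A : Type} [CommRing A] [Algebra ℂ A] (f : A) :
    (algebraMap A (Localization.Away f)).comp (algebraMap ℂ A) =
      algebraMap ℂ (Localization.Away f) :=
  (IsScalarTower.algebraMap_eq ℂ A (Localization.Away f)).symm

/-- The elements with a chart span the unit ideal. -/
theorem span_chI {A : Type} [CommRing A] {C : Fam 1 A} (h : LW C) :
    Ideal.span (chI C) = ⊤ := by
  by_contra hne
  obtain ⟨m, hm, hle⟩ := Ideal.exists_le_maximal _ hne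
  obtain ⟨f, hf, hc⟩ := h ⟨m, hm.isPrime⟩
  exact hf (hle (Ideal.subset_span hc))

/-- The invariance of `P` as an identity of polynomials. -/
theorem inv_poly (P : MvPolynomial (Fin 3) ℂ) (hP : P ∈ One.Inv) :
    (MvPolynomial.aeval ![MvPolynomial.X 0 ^ 4 * MvPolynomial.X 1,
        MvPolynomial.X 0 ^ 6 * MvPolynomial.X 2, MvPolynomial.X 3] P :
          MvPolynomial (Fin 4) ℂ) =
      MvPolynomial.aeval ![MvPolynomial.X 1, MvPolynomial.X 2,
        MvPolynomial.X 0 ^ 10 * MvPolynomial.X 3] P := by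
  have hX : (MvPolynomial.X 0 : MvPolynomial (Fin 4) ℂ) ≠ 0 := MvPolynomial.X_ne_zero 0
  refine mul_left_cancel₀ hX (MvPolynomial.funext fun w => ?_)
  rw [map_mul, map_mul, MvPolynomial.eval_X]
  have e1 : ∀ (p : Fin 3 → MvPolynomial (Fin 4) ℂ),
      MvPolynomial.eval w (MvPolynomial.aeval p P) =
        MvPolynomial.eval (fun i => MvPolynomial.eval w (p i)) P := by
    intro p
    have h1 : (MvPolynomial.aeval w : MvPolynomial (Fin 4) ℂ →ₐ[ℂ] ℂ)
        (MvPolynomial.aeval p P) = MvPolynomial.aeval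
          (fun i => (MvPolynomial.aeval w : MvPolynomial (Fin 4) ℂ →ₐ[ℂ] ℂ) (p i)) P :=
      MvPolynomial.comp_aeval_apply _ _ _
    simpa [MvPolynomial.coe_aeval_eq_eval] using h1
  rw [e1, e1]
  have e2 : (fun i => MvPolynomial.eval w ((![MvPolynomial.X 0 ^ 4 * MvPolynomial.X 1,
        MvPolynomial.X 0 ^ 6 * MvPolynomial.X 2, MvPolynomial.X 3] :
          Fin 3 → MvPolynomial (Fin 4) ℂ) i)) = ![w 0 ^ 4 * w 1, w 0 ^ 6 * w 2, w 3] := by
    funext i
    fin_cases i <;> simp
  have e3 : (fun i => MvPolynomial.eval w ((![MvPolynomial.X 1, MvPolynomial.X 2,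
        MvPolynomial.X 0 ^ 10 * MvPolynomial.X 3] :
          Fin 3 → MvPolynomial (Fin 4) ℂ) i)) = ![w 1, w 2, w 0 ^ 10 * w 3] := by
    funext i
    fin_cases i <;> simp
  rw [e2, e3]
  by_cases h0 : w 0 = 0
  · rw [h0, zero_mul, zero_mul]
  · rw [hP (w 0) (w 1) (w 2) (w 3) h0]

/-- The invariance of `P` over an arbitrary algebra. -/
theorem inv_alg {D : Type} [CommRing D] [Algebra ℂ D] (P : MvPolynomial (Fin 3) ℂ)
    (hP : P ∈ One.Inv) (u a b t : D) :
    MvPolynomial.aeval ![u ^ 4 * a, u ^ 6 * b, t] P =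
      MvPolynomial.aeval ![a, b, u ^ 10 * t] P := by
  have h := congrArg (MvPolynomial.aeval ![u, a, b, t] : MvPolynomial (Fin 4) ℂ →ₐ[ℂ] D)
    (inv_poly P hP)
  rw [MvPolynomial.comp_aeval_apply, MvPolynomial.comp_aeval_apply] at h
  have e2 : (fun i => (MvPolynomial.aeval ![u, a, b, t] : MvPolynomial (Fin 4) ℂ →ₐ[ℂ] D)
      ((![MvPolynomial.X 0 ^ 4 * MvPolynomial.X 1,
        MvPolynomial.X 0 ^ 6 * MvPolynomial.X 2, MvPolynomial.X 3] :
          Fin 3 → MvPolynomial (Fin 4) ℂ) i)) = ![u ^ 4 * a, u ^ 6 * b, t] := by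
    funext i
    fin_cases i <;> simp
  have e3 : (fun i => (MvPolynomial.aeval ![u, a, b, t] : MvPolynomial (Fin 4) ℂ →ₐ[ℂ] D)
      ((![MvPolynomial.X 1, MvPolynomial.X 2,
        MvPolynomial.X 0 ^ 10 * MvPolynomial.X 3] :
          Fin 3 → MvPolynomial (Fin 4) ℂ) i)) = ![a, b, u ^ 10 * t] := by
    funext i
    fin_cases i <;> simp
  rw [e2, e3] at h
  exact h

/-- The values in two charts agree over a common ring. -/
theorem agree (hREL : Stmt_REL) (hTRL : Stmt_TRL) {A : Type} [CommRing A] [Algebra ℂ A]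
    {C : Fam 1 A} (hC : IsStable 1 C) (lC : LW C) (P : MvPolynomial (Fin 3) ℂ)
    (hP : P ∈ One.Inv) (l : Cov 1 C) (f f' : A)
    (c : Ch (algebraMap A (Localization.Away f)) C)
    (c' : Ch (algebraMap A (Localization.Away f')) C) (τ : Localization.Away f)
    (τ' : Localization.Away f') (hτ : IsTau c l τ) (hτ' : IsTau c' l τ') {D : Type} [CommRing D]
    [Algebra ℂ D] (ψ : Localization.Away f →+* D) (ψ' : Localization.Away f' →+* D)
    (hψ : ψ.comp (algebraMap ℂ _) = algebraMap ℂ D)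
    (h : ψ.comp (algebraMap A _) = ψ'.comp (algebraMap A _)) :
    ψ (MvPolynomial.aeval ![c.a, c.b, τ] P) = ψ' (MvPolynomial.aeval ![c'.a, c'.b, τ'] P) := by
  have hψ' : ψ'.comp (algebraMap ℂ _) = algebraMap ℂ D := by
    rw [← algebraMap_comp, ← RingHom.comp_assoc, ← h, RingHom.comp_assoc, algebraMap_comp]
    exact hψ
  obtain ⟨u, hu⟩ := hREL.1 c c' ψ ψ' six h
  have h1 := hTRL.1 six hC lC f f' c c' l τ τ' hτ hτ' D ψ ψ' u h hu
  obtain ⟨v, huv, ha, hb, -⟩ := hu
  rw [aeval_map ψ hψ, aeval_map ψ' hψ', ha, hb, inv_alg P hP, h1]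

end VALX

open _root_.Pool.Agent.MG.WL.VALX in
/-- Existence and uniqueness of the value. -/
theorem t_VAL (hREL : Stmt_REL) (hTAU : Stmt_TAU) (hTRL : Stmt_TRL) : Stmt_VAL := by
  intro A _ _ C hC lC P hP l
  have h6 : IsUnit (6 : A) := six
  have hex : ∀ g : chI C, ∃ v : Localization.Away (g : A),
      ∀ (c : Ch (algebraMap A (Localization.Away (g : A))) C) (τ : Localization.Away (g : A)),
        IsTau c l τ → v = MvPolynomial.aeval ![c.a, c.b, τ] P := by
    rintro ⟨f, ⟨c⟩⟩
    obtain ⟨τ, hτ, -⟩ := (hTAU h6 hC lC f c).2 l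
    refine ⟨MvPolynomial.aeval ![c.a, c.b, τ] P, fun c' τ' hτ' => ?_⟩
    exact agree hREL hTRL hC lC P hP l f f c c' τ τ' hτ hτ' (RingHom.id _) (RingHom.id _)
      rfl rfl
  choose v hv using hex
  have hex2 : ∀ g : chI C, ∃ (c : Ch (algebraMap A (Localization.Away (g : A))) C)
      (τ : Localization.Away (g : A)), IsTau c l τ := by
    rintro ⟨f, ⟨c⟩⟩
    obtain ⟨τ, hτ, -⟩ := (hTAU h6 hC lC f c).2 l
    exact ⟨c, τ, hτ⟩
  have key := Localization.existsUnique_algebraMap_eq_of_span_eq_top (chI C) (span_chI lC) v (by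
    intro g g'
    obtain ⟨c, τ, hτ⟩ := hex2 g
    obtain ⟨c', τ', hτ'⟩ := hex2 g'
    rw [hv g c τ hτ, hv g' c' τ' hτ']
    have e1 : (IsLocalization.Away.awayToAwayRight (P := Localization.Away ((g : A) * (g' : A)))
        (g : A) (g' : A) : Localization.Away (g : A) →+* _).comp (algebraMap A _) =
        algebraMap A (Localization.Away ((g : A) * (g' : A))) :=
      RingHom.ext fun z => IsLocalization.Away.awayToAwayRight_eq (g : A) (g' : A) z
    have e2 : (IsLocalization.Away.awayToAwayLeft (P := Localization.Away ((g : A) * (g' : A)))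
        (g' : A) (g : A) : Localization.Away (g' : A) →+* _).comp (algebraMap A _) =
        algebraMap A (Localization.Away ((g : A) * (g' : A))) :=
      RingHom.ext fun z => IsLocalization.Away.awayToAwayLeft_eq (g' : A) (g : A) z
    refine agree hREL hTRL hC lC P hP l g g' c c' τ τ' hτ hτ' _ _ ?_ ?_
    · rw [← algebraMap_comp, ← RingHom.comp_assoc, e1, algebraMap_comp]
    · rw [e1, e2])
  obtain ⟨r, hr, hu⟩ := key
  refine ⟨r, fun f c τ hτ => ?_, fun r' hr' => ?_⟩
  · rw [hr ⟨f, ⟨c⟩⟩]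
    exact hv ⟨f, ⟨c⟩⟩ c τ hτ
  · refine hu r' fun g => ?_
    obtain ⟨c, τ, hτ⟩ := hex2 g
    rw [hv g c τ hτ]
    exact hr' g c τ hτ

end Pool.Agent.MG.WL


end

section

/-!
# PLE: poles exist
-/

open CategoryTheory CategoryTheory.Limits AlgebraicGeometry TensorProduct

namespace Pool.Agent.MG.KX

open Pool.Agent.MG.G0 Pool.Agent.MG.GLU

namespace PLE

variable {A : Type} [CommRing A]

theorem single_low (d : ℕ) (m : ℤ) (hm : m < d) :
    (HahnSeries.single (d : ℤ) (1 : A)).coeff m = 0 :=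
  HahnSeries.coeff_single_of_ne hm.ne

/-- The inverse of a Laurent series `τ^(-d) + ...`. -/
theorem exists_inv (d : ℕ) (f : LaurentSeries A) (hf : ∀ m : ℤ, m < -(d : ℤ) → f.coeff m = 0)
    (h1 : f.coeff (-(d : ℤ)) = 1) :
    ∃ w : LaurentSeries A, f * w = 1 ∧ ∀ m : ℤ, m < d → w.coeff m = 0 := by
  have hlow : ∀ m < 0, (HahnSeries.single (d : ℤ) (1 : A) * f).coeff m = 0 := fun m hm =>
    mul_low (single_low d) hf m (by omega)
  have hlead : (HahnSeries.single (d : ℤ) (1 : A) * f).coeff 0 = 1 := by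
    have h := mul_lead (single_low (A := A) d) hf
    rw [h1, HahnSeries.coeff_single_same, mul_one, add_neg_cancel] at h
    exact h
  have hc : PowerSeries.constantCoeff (tops A (HahnSeries.single (d : ℤ) (1 : A) * f)) =
      ((1 : Aˣ) : A) := by
    rw [← PowerSeries.coeff_zero_eq_constantCoeff_apply, tops, PowerSeries.coeff_mk]
    exact hlead
  have hinv := PowerSeries.mul_invOfUnit _ 1 hc
  refine ⟨HahnSeries.single (d : ℤ) (1 : A) * psl A
    (PowerSeries.invOfUnit (tops A (HahnSeries.single (d : ℤ) (1 : A) * f)) 1), ?_, fun m hm => ?_⟩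
  · have e := congrArg (psl A) hinv
    rw [map_mul, psl_tops hlow, map_one (psl A)] at e
    rw [← e]
    ring
  · exact mul_low (single_low d) (psl_coeff_neg _) m (by omega)

end PLE

/-- PLE: poles exist. -/
theorem t_PLE : Stmt_PLE := by
  intro I A _ _ g P hP
  have key : ∀ (d : ℕ) (z : P), 1 ≤ d → Mon d (z : KK I A) → ∃ y : Pole P, y.z = z := by
    intro d z hd hz
    choose w hw1 hw2 using fun i => PLE.exists_inv d ((z : KK I A) i) (hz.1 i) (hz.2 i)
    exact ⟨⟨z, d, hd, hz, w, funext hw1, fun i m hm => hw2 i m (by omega)⟩, rfl⟩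
  refine ⟨?_, key⟩
  obtain ⟨⟨N, hN⟩, h2⟩ := t_KNZ hP
  obtain ⟨z, hz, hm⟩ := (h2 N hN).2.2 ((N + 1 : ℕ) : ℤ) (by push_cast; omega)
  obtain ⟨y, -⟩ := key (N + 1) ⟨z, hz⟩ (by omega) hm
  exact ⟨y⟩

end Pool.Agent.MG.KX


end

section

/-!
# KNS: smooth Krichever rings are nodal

At a point of a smooth Krichever ring over an algebraically closed field the cotangent space is
generated by one element, so KMK gives an étale coordinate near every closed point.
-/

open CategoryTheory CategoryTheory.Limits AlgebraicGeometry TensorProduct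

namespace Pool.Agent.MG.KX

open Pool.Agent.MG.G0 Pool.Agent.MG.GLU

namespace KNSx

section cot

variable {K P : Type} [Field K] [CommRing P] [Algebra K P] (x : P →ₐ[K] K)

theorem sub_mem (f : P) : f - algebraMap K P (x f) ∈ RingHom.ker x := by
  rw [RingHom.mem_ker, map_sub, AlgHom.commutes, Algebra.algebraMap_self, RingHom.id_apply,
    sub_self]

/-- The derivation of `P` with values in the cotangent space at `x`. -/
noncomputable def cder : Derivation K P (RingHom.ker x).Cotangent :=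
  Derivation.mk'
    { toFun := fun f => (RingHom.ker x).toCotangent ⟨f - algebraMap K P (x f), sub_mem x f⟩
      map_add' := fun f g => by
        rw [← map_add]
        congr 1
        apply Subtype.ext
        change f + g - algebraMap K P (x (f + g)) =
          f - algebraMap K P (x f) + (g - algebraMap K P (x g))
        rw [map_add, map_add]
        ring
      map_smul' := fun c f => by
        rw [RingHom.id_apply, ← algebraMap_smul P c
          ((RingHom.ker x).toCotangent ⟨f - algebraMap K P (x f), sub_mem x f⟩), ← map_smul]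
        congr 1
        apply Subtype.ext
        change c • f - algebraMap K P (x (c • f)) =
          algebraMap K P c * (f - algebraMap K P (x f))
        rw [map_smul, smul_eq_mul, map_mul, Algebra.smul_def]
        ring }
    (by
      intro f g
      change (RingHom.ker x).toCotangent ⟨f * g - algebraMap K P (x (f * g)), _⟩ =
        f • (RingHom.ker x).toCotangent ⟨g - algebraMap K P (x g), _⟩ +
          g • (RingHom.ker x).toCotangent ⟨f - algebraMap K P (x f), _⟩
      rw [← map_smul, ← map_smul, ← map_add, Ideal.toCotangent_eq]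
      change f * g - algebraMap K P (x (f * g)) -
        (f * (g - algebraMap K P (x g)) + g * (f - algebraMap K P (x f))) ∈ _
      have h : f * g - algebraMap K P (x (f * g)) -
          (f * (g - algebraMap K P (x g)) + g * (f - algebraMap K P (x f))) =
          -((f - algebraMap K P (x f)) * (g - algebraMap K P (x g))) := by
        rw [map_mul, map_mul]
        ring
      rw [h, pow_two]
      exact neg_mem (Ideal.mul_mem_mul (sub_mem x f) (sub_mem x g)))

theorem cder_apply (f : P) : cder x f =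
    (RingHom.ker x).toCotangent ⟨f - algebraMap K P (x f), sub_mem x f⟩ := rfl

/-- The cotangent space is a `K`-vector space through `x`. -/
theorem smul_cot (f : P) (v : (RingHom.ker x).Cotangent) : f • v = (x f) • v := by
  obtain ⟨m, rfl⟩ := (RingHom.ker x).toCotangent_surjective v
  rw [← algebraMap_smul P (x f), ← map_smul, ← map_smul, Ideal.toCotangent_eq]
  change f * (m : P) - algebraMap K P (x f) * (m : P) ∈ _
  rw [← sub_mul, pow_two]
  exact Ideal.mul_mem_mul (sub_mem x f) m.2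

/-- The cotangent space of a smooth curve is generated by one element. -/
theorem cot (hs : SmC K P) : ∃ t ∈ RingHom.ker x, ∀ f ∈ RingHom.ker x, ∃ c : K,
    f - c • t ∈ RingHom.ker x ^ 2 := by
  obtain ⟨n, D, g, h1, h2⟩ := hs
  obtain ⟨i, hi⟩ : ∃ i, x (D i (g i)) ≠ 0 := by
    by_contra hn
    push Not at hn
    have h3 : x (∑ i, D i (g i)) = 0 := by
      rw [map_sum]
      exact Finset.sum_eq_zero fun i _ => hn i
    rw [h1, map_one] at h3
    exact one_ne_zero h3
  refine ⟨g i - algebraMap K P (x (g i)), sub_mem x _, fun f hf => ?_⟩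
  refine ⟨(x (D i (g i)))⁻¹ * x (D i f), ?_⟩
  have h3 := congrArg (cder x).liftKaehlerDifferential (h2 (D i) (g i) f)
  rw [map_smul, map_smul, Derivation.liftKaehlerDifferential_comp_D,
    Derivation.liftKaehlerDifferential_comp_D, smul_cot, smul_cot] at h3
  have h4 : cder x f = ((x (D i (g i)))⁻¹ * x (D i f)) • cder x (g i) := by
    rw [mul_smul, ← h3, smul_smul, inv_mul_cancel₀ hi, one_smul]
  have hf0 : x f = 0 := hf
  rw [cder_apply, cder_apply, ← algebraMap_smul P, ← map_smul, Ideal.toCotangent_eq] at h4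
  change f - algebraMap K P (x f) - algebraMap K P ((x (D i (g i)))⁻¹ * x (D i f)) *
    (g i - algebraMap K P (x (g i))) ∈ RingHom.ker x ^ 2 at h4
  rw [hf0, map_zero, sub_zero, ← Algebra.smul_def] at h4
  exact h4

end cot

/-- Maximal ideals of an algebra of finite type are kernels of points. -/
theorem exists_pt {K P : Type} [Field K] [IsAlgClosed K] [CommRing P] [Algebra K P]
    (hft : Algebra.FiniteType K P) (m : Ideal P) (hm : m.IsMaximal) :
    ∃ x : P →ₐ[K] K, RingHom.ker x = m := by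
  let _ : Field (P ⧸ m) := Ideal.Quotient.field m
  have h1 : Algebra.FiniteType K (P ⧸ m) := inferInstance
  have h2 : Module.Finite K (P ⧸ m) := finite_of_finite_type_of_isJacobsonRing K (P ⧸ m)
  have h3 : Function.Bijective (algebraMap K (P ⧸ m)) :=
    IsAlgClosed.algebraMap_bijective_of_isIntegral
  let e : K ≃ₐ[K] (P ⧸ m) := AlgEquiv.ofBijective (Algebra.ofId K (P ⧸ m)) h3
  refine ⟨(e.symm : (P ⧸ m) →ₐ[K] K).comp (Ideal.Quotient.mkₐ K m), ?_⟩
  ext f
  rw [RingHom.mem_ker]
  change e.symm (Ideal.Quotient.mk m f) = 0 ↔ f ∈ m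
  rw [map_eq_zero_iff e.symm e.symm.injective, Ideal.Quotient.eq_zero_iff_mem]

end KNSx

open _root_.Pool.Agent.MG.KX.KNSx in
/-- KNS: smooth Krichever rings are nodal. -/
theorem t_KNS (hKDM : Stmt_KDM) (hKMK : Stmt_KMK) : Stmt_KNS := by
  intro I K _ _ _ _ g P hP hS
  have hdom : IsDomain P := (hKDM hP hS).1
  obtain ⟨⟨z⟩, -⟩ := t_PLE hP
  have hfp : Algebra.FinitePresentation K P := (t_KFP hP z).1
  have hft : Algebra.FiniteType K P := inferInstance
  intro y
  obtain ⟨m, hm, hle⟩ := Ideal.exists_le_maximal y.asIdeal y.isPrime.ne_top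
  obtain ⟨x, hx⟩ := exists_pt hft m hm
  have hmk : Marks P (fun _ : Fin 1 => x) :=
    ⟨fun i j hij => absurd (Subsingleton.elim i j) hij, fun _ => cot x hS.2⟩
  obtain ⟨h, t, h1, h2⟩ := hKMK hP hdom (fun _ : Fin 1 => x) hmk 0
  have hy : h ∉ y.asIdeal := by
    intro hh
    have h3 : h ∈ RingHom.ker x := by
      rw [hx]
      exact hle hh
    exact h1 h3
  exact W.WND.loc_pt (spMap (algebraMap K P)) (𝟙 (Sp P)) (algebraMap K P) (Category.id_comp _) h _
    h2 (fun c => by simp) y hy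

end Pool.Agent.MG.KX


end

section

/-!
# GNM: marked points exist
-/

open CategoryTheory CategoryTheory.Limits AlgebraicGeometry TensorProduct

namespace Pool.Agent.MG.KX

open Pool.Agent.MG.G0 Pool.Agent.MG.GLU

namespace GNMx

/-- The function `z` takes every value. -/
theorem exists_val {K P : Type} [Field K] [IsAlgClosed K] [CommRing P] [Algebra K P]
    (hft : Algebra.FiniteType K P) (z : P)
    (hint : ∀ r : P, ((Polynomial.aeval z : Polynomial K →ₐ[K] P) :
      Polynomial K →+* P).IsIntegralElem r)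
    (hinj : Function.Injective (Polynomial.aeval (R := K) z)) (a : K) :
    ∃ x : P →ₐ[K] K, x z = a := by
  let _ : Algebra (Polynomial K) P :=
    ((Polynomial.aeval z : Polynomial K →ₐ[K] P) : Polynomial K →+* P).toAlgebra
  have hI : Algebra.IsIntegral (Polynomial K) P := ⟨hint⟩
  have hmax : (Ideal.span {Polynomial.X - Polynomial.C a} : Ideal (Polynomial K)).IsMaximal :=
    PrincipalIdealRing.isMaximal_of_irreducible (Polynomial.irreducible_X_sub_C a)
  have hker : RingHom.ker (algebraMap (Polynomial K) P) ≤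
      Ideal.span {Polynomial.X - Polynomial.C a} := by
    intro f hf
    have h1 : Polynomial.aeval z f = 0 := hf
    rw [map_eq_zero_iff _ hinj] at h1
    rw [h1]
    exact Submodule.zero_mem _
  obtain ⟨m, hm, hcm⟩ := Ideal.exists_ideal_over_maximal_of_isIntegral
    (S := P) (Ideal.span {Polynomial.X - Polynomial.C a}) hker
  obtain ⟨x, hx⟩ := KNSx.exists_pt hft m hm
  refine ⟨x, ?_⟩
  have h1 : (Polynomial.X - Polynomial.C a : Polynomial K) ∈ m.comap
      (algebraMap (Polynomial K) P) := by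
    rw [hcm]
    exact Ideal.subset_span rfl
  rw [Ideal.mem_comap, ← hx, RingHom.mem_ker] at h1
  change x (Polynomial.aeval z (Polynomial.X - Polynomial.C a)) = 0 at h1
  rw [map_sub, Polynomial.aeval_X, Polynomial.aeval_C, map_sub, AlgHom.commutes,
    Algebra.algebraMap_self, RingHom.id_apply, sub_eq_zero] at h1
  exact h1

/-- The kernels of different points are comaximal. -/
theorem comax {K P : Type} [Field K] [CommRing P] [Algebra K P] (x y : P →ₐ[K] K) (z : P)
    (h : x z ≠ y z) : RingHom.ker x ⊔ RingHom.ker y = ⊤ := by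
  have h0 : y z - x z ≠ 0 := sub_ne_zero.2 (Ne.symm h)
  rw [Ideal.eq_top_iff_one, Submodule.mem_sup]
  refine ⟨algebraMap K P (y z - x z)⁻¹ * (z - algebraMap K P (x z)), ?_,
    -(algebraMap K P (y z - x z)⁻¹ * (z - algebraMap K P (y z))), ?_, ?_⟩
  · exact Ideal.mul_mem_left _ _ (KNSx.sub_mem x z)
  · exact neg_mem (Ideal.mul_mem_left _ _ (KNSx.sub_mem y z))
  · have h1 : algebraMap K P (y z - x z)⁻¹ * (z - algebraMap K P (x z)) +
        -(algebraMap K P (y z - x z)⁻¹ * (z - algebraMap K P (y z))) =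
        algebraMap K P (y z - x z)⁻¹ * algebraMap K P (y z - x z) := by
      rw [map_sub (algebraMap K P) (y z) (x z)]
      ring
    rw [h1, ← map_mul, inv_mul_cancel₀ h0, map_one]

end GNMx

open _root_.Pool.Agent.MG.KX.GNMx in
/-- Marked points exist. -/
theorem t_GNM (hKDM : Stmt_KDM) : Stmt_GNM := by
  intro I K _ _ _ _ g P hP hS n
  have hKNZ : Stmt_KNZ := t_KNZ
  have hKSP : Stmt_KSP := t_KSP hKNZ
  have hKFG : Stmt_KFG := t_KFG hKNZ hKSP
  obtain ⟨⟨z⟩, -⟩ := t_PLE hP
  obtain ⟨N, hN⟩ := (hKNZ hP).1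
  obtain ⟨hfp, h2⟩ := hKFG hP
  obtain ⟨-, -, h3, -, h4⟩ := h2 N z.d z.z hN (by exact_mod_cast z.pos) z.mon
  have hft : Algebra.FiniteType K P := inferInstance
  have hex := exists_val hft z.z (fun r => h3.to_isIntegral r) h4
  choose x hx using hex
  have : Infinite K := inferInstance
  let e : ℕ ↪ K := Infinite.natEmbedding K
  refine ⟨fun i => x (e i), fun i j hij => ?_, fun i => KNSx.cot _ hS.2⟩
  refine comax _ _ z.z ?_
  rw [hx, hx]
  intro h5
  exact hij (Fin.ext (e.injective h5))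

end Pool.Agent.MG.KX


end

section

/-!
# The curve of a smooth Krichever ring is smooth
-/

open CategoryTheory CategoryTheory.Limits AlgebraicGeometry TensorProduct

namespace Pool.Agent.MG.KX

open Pool.Agent.MG.G0 Pool.Agent.MG.GLU

/-- KSX: smoothness. -/
theorem t_KSX (hDSS : Stmt_DSS) (hKFP : Stmt_KFP) (hKPT : Stmt_KPT) : Stmt_KSX := by
  intro I K _ _ _ _ g n P p hP hsm z
  exact hDSS (kDuo z) (hKFP hP z).1 hsm (hKPT hP z)

end Pool.Agent.MG.KX


end

section

/-!
# GLF: homomorphisms from the ring of the special curve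
-/

namespace Pool.Agent.MG.G0

theorem t_GLF (hGST : Stmt_GST) : Stmt_GLF := by
  intro A _ S B _ _ x y w hy2 hyw hw2
  obtain ⟨h1, h2, h3, h4, -, -, -, -, hR, hU, -⟩ := hGST S
  choose P Q T hf using fun f : S.R => (hR f).mp f.2
  have key : ∀ (f : S.R) (p q s : Polynomial A),
      (f : LaurentSeries A) = zpol A 3 p + zpol A 3 q * S.Y + zpol A 3 s * S.W →
      P f = p ∧ Q f = q ∧ T f = s := by
    intro f p q s h
    have e : zpol A 3 (P f - p) + zpol A 3 (Q f - q) * S.Y + zpol A 3 (T f - s) * S.W = 0 := by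
      rw [map_sub, map_sub, map_sub]
      have e1 := (hf f).symm.trans h
      linear_combination e1
    obtain ⟨e1, e2, e3⟩ := hU _ _ _ e
    exact ⟨sub_eq_zero.mp e1, sub_eq_zero.mp e2, sub_eq_zero.mp e3⟩
  let F : S.R → B := fun f =>
    Polynomial.aeval x (P f) + Polynomial.aeval x (Q f) * y + Polynomial.aeval x (T f) * w
  have hF : ∀ (f : S.R) (p q s : Polynomial A),
      (f : LaurentSeries A) = zpol A 3 p + zpol A 3 q * S.Y + zpol A 3 s * S.W →
      F f = Polynomial.aeval x p + Polynomial.aeval x q * y + Polynomial.aeval x s * w := by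
    intro f p q s h
    obtain ⟨e1, e2, e3⟩ := key f p q s h
    simp only [F]
    rw [e1, e2, e3]
  have hAx : Polynomial.aeval x S.pA = x ^ S.a := by
    simp [SCD.pA]
  have hBx : Polynomial.aeval x S.pB = x ^ (S.g + 1 - S.a) - x ^ (1 - S.a) := by
    simp [SCD.pB]
  have hDx : Polynomial.aeval x S.pD = x ^ (S.g + 1) - x := by
    simp [SCD.pD]
  have hc : ∀ a : A, F (algebraMap A S.R a) = algebraMap A B a := by
    intro a
    rw [hF (algebraMap A S.R a) (Polynomial.C a) 0 0 (by
      rw [map_zero, zero_mul, zero_mul, add_zero, add_zero, zpol, Polynomial.aeval_C]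
      rfl)]
    simp
  have hmul : ∀ f f' : S.R, F (f * f') = F f * F f' := by
    intro f f'
    rw [hF (f * f') (P f * P f' + (Q f * T f' + T f * Q f') * S.pD)
      (P f * Q f' + Q f * P f' + T f * T f' * S.pB)
      (P f * T f' + T f * P f' + Q f * Q f' * S.pA) (by
        rw [MulMemClass.coe_mul, hf f, hf f']
        simp only [map_add, map_mul]
        linear_combination (zpol A 3 (Q f) * zpol A 3 (Q f')) * h1 +
          (zpol A 3 (Q f) * zpol A 3 (T f') + zpol A 3 (T f) * zpol A 3 (Q f')) * h2 +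
          (zpol A 3 (T f) * zpol A 3 (T f')) * h3)]
    simp only [F, map_add, map_mul, hAx, hBx, hDx]
    linear_combination -(Polynomial.aeval x (Q f) * Polynomial.aeval x (Q f')) * hy2 -
          (Polynomial.aeval x (Q f) * Polynomial.aeval x (T f') +
            Polynomial.aeval x (T f) * Polynomial.aeval x (Q f')) * hyw -
          (Polynomial.aeval x (T f) * Polynomial.aeval x (T f')) * hw2
  have hadd : ∀ f f' : S.R, F (f + f') = F f + F f' := by
    intro f f'
    rw [hF (f + f') (P f + P f') (Q f + Q f') (T f + T f') (by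
      rw [AddMemClass.coe_add, hf f, hf f']
      simp only [map_add]
      ring)]
    simp only [F, map_add]
    ring
  let h : S.R →ₐ[A] B :=
    { toFun := F
      map_one' := by
        have := hc 1
        rwa [map_one, map_one] at this
      map_mul' := hmul
      map_zero' := by
        have := hc 0
        rwa [map_zero, map_zero] at this
      map_add' := hadd
      commutes' := hc }
  refine ⟨h, ⟨?_, ?_, ?_⟩, ?_⟩
  · change F S.x = x
    rw [hF S.x Polynomial.X 0 0 (by
      rw [map_zero, zero_mul, zero_mul, add_zero, add_zero, zpol, Polynomial.aeval_X]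
      rfl)]
    simp
  · change F S.y = y
    rw [hF S.y 0 1 0 (by
      rw [map_zero, map_one, zero_mul, one_mul, add_zero, zero_add]
      rfl)]
    simp
  · change F S.w = w
    rw [hF S.w 0 0 1 (by
      rw [map_zero, map_one, zero_mul, one_mul, zero_add, zero_add]
      rfl)]
    simp
  · rintro h' ⟨hx', hy', hw'⟩
    ext f
    change h' f = F f
    have e : f = Polynomial.aeval S.x (P f) + Polynomial.aeval S.x (Q f) * S.y +
        Polynomial.aeval S.x (T f) * S.w := by
      apply Subtype.ext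
      rw [AddMemClass.coe_add, AddMemClass.coe_add, MulMemClass.coe_mul, MulMemClass.coe_mul]
      have hz : ∀ p : Polynomial A, ((Polynomial.aeval S.x p : S.R) : LaurentSeries A) =
          zpol A 3 p := fun p => by
        change S.R.val (Polynomial.aeval S.x p) = _
        rw [← Polynomial.aeval_algHom_apply]
        rfl
      rw [hz, hz, hz]
      exact hf f
    rw [e, map_add, map_add, map_mul, map_mul, ← Polynomial.aeval_algHom_apply,
      ← Polynomial.aeval_algHom_apply, ← Polynomial.aeval_algHom_apply, hx', hy', hw', ← e]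

end Pool.Agent.MG.G0


end

section

/-!
# Module POF: polarisation and forgetting punctures
-/

open TensorProduct

namespace Pool.Agent.MG.G0

namespace POFm

section

variable {I J : Type} [Fintype I] [Fintype J] {A B : Type} [CommRing A] [CommRing B]

theorem res_sum (f : KK (I ⊕ J) A) : res f = res (atI f) + res (atJ f) :=
  Fintype.sum_sum_type fun i => (f i).coeff (-1)

/-- The functionals of related quadratic differentials agree on related deformations. -/
theorem Lq_eq {P : Subalgebra A (KK I A)} {W : Subalgebra A (KK (I ⊕ J) A)} {D : DD P}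
    {E : DD W} (hDE : RelF D E) {z : QD P × QD W} (hz : z ∈ QF P W) :
    Lq W z.2 E = Lq P z.1 D := by
  refine Submodule.span_induction (p := fun z _ => Lq W z.2 E = Lq P z.1 D) ?_ ?_ ?_ ?_ hz
  · rintro _ ⟨x, g, x', g', hx, hxJ, hg, hgJ, rfl⟩
    change Lq W (x' ⊗ₜ[A] g') E = Lq P (x ⊗ₜ[A] g) D
    obtain ⟨h, hE, hJ, hD⟩ := hDE g g' (fun i => congrFun hg i) (fun j m hm => hgJ j m (by omega))
    rw [Lq_tmul, Lq_tmul, hE, hD, rq_mk, rq_mk, res_sum]
    have h1 : res (atJ ((x' : KK (I ⊕ J) A) * h)) = 0 := by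
      apply res_Pol0
      exact mul_mem_Pol0 (f := atJ (x' : KK (I ⊕ J) A)) (g := atJ h) hxJ
        (fun j m hm => hJ j m (by omega))
    rw [h1, add_zero, ← hx]
    rfl
  · change Lq W 0 E = Lq P 0 D
    rw [map_zero, map_zero]
    rfl
  · intro a b _ _ ha hb
    change Lq W (a.2 + b.2) E = Lq P (a.1 + b.1) D
    rw [map_add, map_add, LinearMap.add_apply, LinearMap.add_apply, ha, hb]
  · intro c a _ ha
    change Lq W (c • a.2) E = Lq P (c • a.1) D
    rw [map_smul, map_smul, LinearMap.smul_apply, LinearMap.smul_apply, ha]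

omit [Fintype I] [Fintype J] in
theorem atI_kmap (φ : A →+* B) (f : KK (I ⊕ J) A) : atI (kmap φ f) = kmap φ (atI f) := rfl

omit [Fintype I] [Fintype J] in
theorem atJ_kmap (φ : A →+* B) (f : KK (I ⊕ J) A) : atJ (kmap φ f) = kmap φ (atJ f) := rfl

/-- Base change of related quadratic differentials. -/
theorem bcQ_mem (φ : A →+* B) {P : Subalgebra A (KK I A)} {W : Subalgebra A (KK (I ⊕ J) A)}
    {z : QD P × QD W} (hz : z ∈ QF P W) :
    (bcQ φ P z.1, bcQ φ W z.2) ∈ QF (bc φ P) (bc φ W) := by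
  refine Submodule.span_induction
    (p := fun z _ => (bcQ φ P z.1, bcQ φ W z.2) ∈ QF (bc φ P) (bc φ W)) ?_ ?_ ?_ ?_ hz
  · rintro _ ⟨x, g, x', g', hx, hxJ, hg, hgJ, rfl⟩
    change (bcQ φ P (x ⊗ₜ[A] g), bcQ φ W (x' ⊗ₜ[A] g')) ∈ _
    rw [bcQ_tmul, bcQ_tmul]
    refine Submodule.subset_span ⟨_, _, _, _, ?_, ?_, ?_, ?_, rfl⟩
    · change atI (kmap φ (x' : KK (I ⊕ J) A)) = kmap φ (x : KK I A)
      rw [atI_kmap, hx]
    · change atJ (kmap φ (x' : KK (I ⊕ J) A)) ∈ _
      rw [atJ_kmap]
      exact kmap_mem_Pol φ hxJ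
    · change atI (kmap φ (g' : KK (I ⊕ J) A)) = kmap φ (g : KK I A)
      rw [atI_kmap, hg]
    · change atJ (kmap φ (g' : KK (I ⊕ J) A)) ∈ _
      rw [atJ_kmap]
      exact kmap_mem_Pol φ hgJ
  · change (bcQ φ P 0, bcQ φ W 0) ∈ _
    rw [map_zero, map_zero]
    exact zero_mem _
  · intro a b _ _ ha hb
    change (bcQ φ P (a.1 + b.1), bcQ φ W (a.2 + b.2)) ∈ _
    rw [map_add, map_add]
    exact add_mem ha hb
  · intro c a _ ha
    change (bcQ φ P (c • a.1), bcQ φ W (c • a.2)) ∈ _
    rw [map_smulₛₗ, map_smulₛₗ]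
    exact Submodule.smul_mem _ (φ c) ha

end

end POFm

open _root_.Pool.Agent.MG.G0.POFm in
theorem t_POF (hPFB : Stmt_PFB) (hGBC : Stmt_GBC) : Stmt_POF := by
  intro g E I J A _ _ _ _ _ P W hW hP hF k q q' hq
  have hPe := hF.eq
  subst hPe
  obtain ⟨-, -, h3⟩ := hPFB hW.1 hF.dns
  obtain ⟨hdn, hbc, -⟩ := h3 (MvPolynomial.C (R := A) (σ := Fin k))
  have hW' := hGBC (MvPolynomial.C (R := A) (σ := Fin k)) g W hW
  have hP' := hGBC (MvPolynomial.C (R := A) (σ := Fin k)) g (Rem W) hP
  change MvPolynomial.coeff (ones k) _ = MvPolynomial.coeff (ones k) _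
  congr 1
  refine E.forget _ _ hW' hP' hbc hdn _ _ ?_
  intro D F hDF
  rw [cov_apply, cov_apply]
  have hmem : (((∑ i, (MvPolynomial.X i : MvPolynomial (Fin k) A) •
        bcR (MvPolynomial.C : A →+* MvPolynomial (Fin k) A) (Rem W) (q i) :
          QR (bc (MvPolynomial.C : A →+* MvPolynomial (Fin k) A) (Rem W))) : QD _),
      ((∑ i, (MvPolynomial.X i : MvPolynomial (Fin k) A) •
        bcR (MvPolynomial.C : A →+* MvPolynomial (Fin k) A) W (q' i) :
          QR (bc (MvPolynomial.C : A →+* MvPolynomial (Fin k) A) W)) : QD _)) ∈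
      QF (bc (MvPolynomial.C (R := A) (σ := Fin k)) (Rem W))
        (bc (MvPolynomial.C (R := A) (σ := Fin k)) W) := by
    rw [AddSubmonoidClass.coe_finsetSum, AddSubmonoidClass.coe_finsetSum, prod_mk_sum]
    refine Submodule.sum_mem _ fun i _ => ?_
    exact Submodule.smul_mem _ (MvPolynomial.X i : MvPolynomial (Fin k) A)
      (bcQ_mem (MvPolynomial.C (R := A) (σ := Fin k)) (hq i))
  exact Lq_eq hDF hmem

end Pool.Agent.MG.G0


end
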