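import Mathlib
import Pool.Agent.KDM.C08
import Pool.Agent.KDM.C12
import Pool.Agent.KDM.C15
import Pool.Agent.KDM.C20
import Pool.Agent.KDM.C22
import Pool.Agent.KDM.C24
import Pool.Agent.KDM.C25
import Pool.Agent.KDM.C26
import Pool.Agent.KDM.C28
import Pool.Agent.KDM.C54
import Pool.Agent.KDM.C65

/-! Parts: MG.WL.DSP, MG.H2.YCN, MG.KX.KSB, MG.G0.NSG, MG.G0.PL5 -/

section

/-!
# DSP: deformations with the same classes in a covering of charts are isomorphic
-/

open CategoryTheory CategoryTheory.Limits AlgebraicGeometry TensorProduct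

namespace Pool.Agent.MG.WL

open Pool.Agent.MG.W Pool.Agent.MG.One

namespace DSPa

/-- Two morphisms from `C.X` which agree on the charts agree. -/
theorem hom_cov {n : ℕ} {A : Type} [CommRing A] {C : Fam n A} {r : ℕ} (f : Fin r → A)
    (hf : Ideal.span (Set.range f) = ⊤) (C' : ∀ i, Fam n (Localization.Away (f i)))
    (k : ∀ i, Arrow (algebraMap A (Localization.Away (f i))) (C' i) C) {T : Scheme.{0}}
    (a b : C.X ⟶ T) (h : ∀ i, (k i).f ≫ a = (k i).f ≫ b) : a = b := by
  let U : (Sp A).OpenCover :=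
    (Scheme.affineOpenCoverOfSpanRangeEqTop (R := CommRingCat.of A) f hf).openCover
  have key : ∀ i : Fin r, pullback.fst C.π
      (spMap (algebraMap A (Localization.Away (f i)))) ≫ a = pullback.fst C.π
      (spMap (algebraMap A (Localization.Away (f i)))) ≫ b := by
    intro i
    rw [← (k i).cart.isoPullback_inv_fst, Category.assoc, Category.assoc, h i]
  exact Scheme.Cover.hom_ext (U.pullback₁ C.π) a b fun i => key i

section

variable {A B B' D : Type} [CommRing A] [CommRing B] [CommRing B'] [CommRing D]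

/-- The curve of a chart is locally a Weierstrass curve. -/
theorem lw_wei {a b : D} (h : Ideal.span {a, b} = ⊤) : LW (Wei (WZ a b)) := by
  intro p
  refine ⟨1, fun h1 => p.2.ne_top ((Ideal.eq_top_iff_one _).2 h1), ⟨algebraMap D _ a, algebraMap D _ b, ?_,
    warr _ rfl rfl⟩⟩
  rw [Ideal.eq_top_iff_one, Ideal.mem_span_pair] at h ⊢
  obtain ⟨r, s, hrs⟩ := h
  exact ⟨algebraMap D _ r, algebraMap D _ s, by rw [← map_mul, ← map_mul, ← map_add, hrs, map_one]⟩

/-- Agreement on the overlap of two charts: the two arrows. -/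
theorem agree (hRGD : Stmt_RGD) (φ : A →+* B) (φ' : A →+* B') (ψ : B →+* D) (ψ' : B' →+* D)
    (hc : ψ.comp φ = ψ'.comp φ') (h6 : IsUnit (6 : D)) {C : Fam 1 A} (c : Ch φ C) (c' : Ch φ' C)
    (d d' : Defo 1 C) {z : Fam 1 (Eps B)} (hz : IsStable 1 z)
    (ρ : Arrow (eps0 B) (Wei (WZ c.a c.b)) z) (f : Arrow (epsMap φ) z d.y)
    (g : Arrow (epsMap φ) z d'.y)
    (hf : ρ.f ≫ f.f = c.e.f ≫ d.r.f) (hg : ρ.f ≫ g.f = c.e.f ≫ d'.r.f)
    {z' : Fam 1 (Eps B')}
    (ρ' : Arrow (eps0 B') (Wei (WZ c'.a c'.b)) z')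
    (f' : Arrow (epsMap φ') z' d.y) (g' : Arrow (epsMap φ') z' d'.y)
    (hf' : ρ'.f ≫ f'.f = c'.e.f ≫ d.r.f) (hg' : ρ'.f ≫ g'.f = c'.e.f ≫ d'.r.f)
    {w : Fam 1 (Eps D)} (F : Arrow (epsMap ψ) w z) (G : Arrow (epsMap ψ') w z')
    (hFG : F.f ≫ f.f = G.f ≫ f'.f) : F.f ≫ g.f = G.f ≫ g'.f := by
  have hw : IsStable 1 w := arrow_stable F hz
  have e1 : (epsMap ψ).comp (epsMap φ) = (RingHom.id (Eps D)).comp (epsMap (ψ.comp φ)) := by
    rw [epsMap_comp]; rfl
  have e2 : (epsMap ψ').comp (epsMap φ') = (RingHom.id (Eps D)).comp (epsMap (ψ.comp φ)) := by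
    rw [epsMap_comp, hc]; rfl
  let K := PBS.bcArrow (epsMap (ψ.comp φ)) d'.y
  let h : Arrow (RingHom.id (Eps D)) w (PBS.bc (epsMap (ψ.comp φ)) d'.y) :=
    arrowLift (castA e1 (PBS.comp F g)) K
  let h' : Arrow (RingHom.id (Eps D)) w (PBS.bc (epsMap (ψ.comp φ)) d'.y) :=
    arrowLift (castA e2 (PBS.comp G g')) K
  have hh : h.f ≫ K.f = F.f ≫ g.f := arrowLift_f _ _
  have hh' : h'.f ≫ K.f = G.f ≫ g'.f := arrowLift_f _ _
  -- the special fibre
  let x : Fam 1 D := Wei (WZ (ψ c.a) (ψ c.b))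
  let v : Arrow ψ x (Wei (WZ c.a c.b)) := warr ψ rfl rfl
  let r : Arrow (eps0 D) x w := arrowLift (castA (eps0_epsMap ψ).symm (PBS.comp v ρ)) F
  have hr : r.f ≫ F.f = v.f ≫ ρ.f := arrowLift_f _ _
  let m : Arrow ψ' x (Wei (WZ c'.a c'.b)) := arrowLift (castA hc (PBS.comp v c.e)) c'.e
  have hm : m.f ≫ c'.e.f = v.f ≫ c.e.f := arrowLift_f _ _
  have hmr : r.f ≫ G.f = m.f ≫ ρ'.f := by
    refine arrow_ext (ψ := (eps0 D).comp (epsMap ψ')) (PBS.comp r G)
      (castA (eps0_epsMap ψ').symm (PBS.comp m ρ')) f' ?_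
    change (r.f ≫ G.f) ≫ f'.f = (m.f ≫ ρ'.f) ≫ f'.f
    rw [Category.assoc, ← hFG, reassoc_of% hr, hf, Category.assoc, hf', reassoc_of% hm]
  have key : r.f ≫ h.f = r.f ≫ h'.f := by
    refine arrow_ext (ψ := (eps0 D).comp (RingHom.id (Eps D))) (PBS.comp r h) (PBS.comp r h') K ?_
    change (r.f ≫ h.f) ≫ K.f = (r.f ≫ h'.f) ≫ K.f
    rw [Category.assoc, Category.assoc, hh, hh', reassoc_of% hr, hg, reassoc_of% hmr, hg',
      reassoc_of% hm]
  have hfin : h.f = h'.f :=
    hRGD h6 (lw_wei (c.push ψ).h) w _ hw (PBS.bc_stable _ _ d'.stable) r h h' key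
  rw [← hh, ← hh', hfin]

/-- Agreement on the overlap of two charts. -/
theorem agree2 (hRGD : Stmt_RGD) (φ : A →+* B) (φ' : A →+* B') (ψ : B →+* D) (ψ' : B' →+* D)
    (hc : ψ.comp φ = ψ'.comp φ') (h6 : IsUnit (6 : D)) {C : Fam 1 A} (c : Ch φ C) (c' : Ch φ' C)
    (d d' : Defo 1 C) {z : Fam 1 (Eps B)} (hz : IsStable 1 z)
    (ρ : Arrow (eps0 B) (Wei (WZ c.a c.b)) z) (f : Arrow (epsMap φ) z d.y)
    (g : Arrow (epsMap φ) z d'.y)
    (hf : ρ.f ≫ f.f = c.e.f ≫ d.r.f) (hg : ρ.f ≫ g.f = c.e.f ≫ d'.r.f)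
    {z' : Fam 1 (Eps B')}
    (ρ' : Arrow (eps0 B') (Wei (WZ c'.a c'.b)) z')
    (f' : Arrow (epsMap φ') z' d.y) (g' : Arrow (epsMap φ') z' d'.y)
    (hf' : ρ'.f ≫ f'.f = c'.e.f ≫ d.r.f) (hg' : ρ'.f ≫ g'.f = c'.e.f ≫ d'.r.f)
    (hmo : Mono (spMap (epsMap φ))) (hmo' : Mono (spMap (epsMap φ')))
    {Z : Scheme.{0}} (p : Z ⟶ z.X) (q : Z ⟶ z'.X) (hpq : p ≫ f.f = q ≫ f'.f)
    (s : Z ⟶ Sp (Eps D)) (hs : s ≫ spMap (epsMap (ψ.comp φ)) = p ≫ f.f ≫ d.y.π) :
    p ≫ g.f = q ≫ g'.f := by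
  let F := PBS.bcArrow (epsMap ψ) z
  have e2 : (epsMap ψ).comp (epsMap φ) = (epsMap ψ').comp (epsMap φ') := by
    rw [epsMap_comp, epsMap_comp, hc]
  let G : Arrow (epsMap ψ') (PBS.bc (epsMap ψ) z) z' := arrowLift (castA e2 (PBS.comp F f)) f'
  have hG : G.f ≫ f'.f = F.f ≫ f.f := arrowLift_f _ _
  have h1 := agree hRGD φ φ' ψ ψ' hc h6 c c' d d' hz ρ f g hf hg ρ' f' g' hf' hg' F G hG.symm
  have h2 : p ≫ z.π = s ≫ spMap (epsMap ψ) := by
    rw [← cancel_mono (spMap (epsMap φ)), Category.assoc, Category.assoc, ← PBS.spMap_comp,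
      epsMap_comp, hs, f.cart.w]
  let p' := F.cart.lift p s h2
  have hp' : p' ≫ F.f = p := F.cart.lift_fst _ _ _
  have hmf' : Mono f'.f := f'.cart.mono_fst_of_mono
  have hq' : p' ≫ G.f = q := by
    rw [← cancel_mono f'.f, Category.assoc, hG, reassoc_of% hp', hpq]
  rw [← hp', ← hq', Category.assoc, Category.assoc, h1]

end

end DSPa

theorem t_DSP (hDEI : Stmt_DEI) (hGAR : Stmt_GAR) (hRGD : Stmt_RGD) (hLOE : Stmt_LOE) :
    Stmt_DSP := by
  intro A _ h6 r f hf C c d d' δ hd hd'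
  have h6' : ∀ i, IsUnit (6 : Localization.Away (f i)) := fun i =>
    isUnit6_map (algebraMap A (Localization.Away (f i))) h6
  choose z hz ρ k k' hk hk' using fun i => hDEI (c i) (h6' i) d d' (δ i) (hd i) (hd' i)
  let alg : ∀ i, Algebra (Eps A) (Eps (Localization.Away (f i))) := fun i =>
    (epsMap (algebraMap A (Localization.Away (f i)))).toAlgebra
  have loc : ∀ i, IsLocalization.Away (TrivSqZeroExt.inl (f i) : Eps A)
      (Eps (Localization.Away (f i))) := fun i => hLOE (f i)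
  have hmo : ∀ i, Mono (spMap (epsMap (algebraMap A (Localization.Away (f i))))) := by
    intro i
    have := IsOpenImmersion.of_isLocalization (R := Eps A) (S := Eps (Localization.Away (f i)))
      (TrivSqZeroExt.inl (f i) : Eps A)
    exact inferInstance
  have hspan : Ideal.span (Set.range fun i => (TrivSqZeroExt.inl (f i) : Eps A)) = ⊤ := by
    have h1 := congrArg (Ideal.map (algebraMap A (Eps A))) hf
    rw [Ideal.map_span, Ideal.map_top, ← Set.range_comp] at h1
    exact h1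
  obtain ⟨e, he⟩ := hGAR (RingHom.id (Eps A)) (Y := d'.y) (C := d.y)
    (fun i => (TrivSqZeroExt.inl (f i) : Eps A)) hspan
    (fun i => Eps (Localization.Away (f i))) z k
    (fun i => castA (RingHom.comp_id _).symm (k' i)) (by
      intro i j Z p q hpq
      have hu : IsUnit (algebraMap A (Localization.Away (f i * f j)) (f i * f j)) :=
        IsLocalization.Away.algebraMap_isUnit _
      rw [map_mul] at hu
      obtain ⟨ψ, hψ⟩ : ∃ ψ : Localization.Away (f i) →+* Localization.Away (f i * f j),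
          ψ.comp (algebraMap A (Localization.Away (f i))) =
            algebraMap A (Localization.Away (f i * f j)) :=
        ⟨IsLocalization.Away.lift (f i) (isUnit_of_mul_isUnit_left hu),
          IsLocalization.Away.lift_comp (f i) _⟩
      obtain ⟨ψ', hψ'⟩ : ∃ ψ : Localization.Away (f j) →+* Localization.Away (f i * f j),
          ψ.comp (algebraMap A (Localization.Away (f j))) =
            algebraMap A (Localization.Away (f i * f j)) :=
        ⟨IsLocalization.Away.lift (f j) (isUnit_of_mul_isUnit_right hu),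
          IsLocalization.Away.lift_comp (f j) _⟩
      -- the morphism to the spectrum of the overlap
      have hs : ∃ s : Z ⟶ Sp (Eps (Localization.Away (f i * f j))),
          s ≫ spMap (epsMap (algebraMap A (Localization.Away (f i * f j)))) =
            p ≫ (k i).f ≫ d.y.π := by
        let _ : Algebra (Eps A) (Eps (Localization.Away (f i * f j))) :=
          (epsMap (algebraMap A (Localization.Away (f i * f j)))).toAlgebra
        have : IsLocalization.Away (TrivSqZeroExt.inl (f i * f j) : Eps A)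
          (Eps (Localization.Away (f i * f j))) := hLOE (f i * f j)
        have hoi : IsOpenImmersion (spMap (epsMap (algebraMap A
            (Localization.Away (f i * f j))))) :=
          IsOpenImmersion.of_isLocalization (R := Eps A)
            (S := Eps (Localization.Away (f i * f j))) (TrivSqZeroExt.inl (f i * f j) : Eps A)
        have ho : Set.range (spMap (epsMap (algebraMap A (Localization.Away (f i * f j))))) =
            (PrimeSpectrum.basicOpen (TrivSqZeroExt.inl (f i * f j) : Eps A) :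
              Set (PrimeSpectrum (Eps A))) :=
          PrimeSpectrum.localization_away_comap_range (Eps (Localization.Away (f i * f j))) _
        have ho' : ∀ i, Set.range (spMap (epsMap (algebraMap A (Localization.Away (f i))))) =
            (PrimeSpectrum.basicOpen (TrivSqZeroExt.inl (f i) : Eps A) :
              Set (PrimeSpectrum (Eps A))) := fun i =>
          PrimeSpectrum.localization_away_comap_range (Eps (Localization.Away (f i))) _
        refine ⟨IsOpenImmersion.lift (spMap (epsMap (algebraMap A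
          (Localization.Away (f i * f j))))) (p ≫ (k i).f ≫ d.y.π) ?_,
          IsOpenImmersion.lift_fac _ _ _⟩
        rintro _ ⟨x, rfl⟩
        have h1 : (p ≫ (k i).f ≫ d.y.π) x ∈
            Set.range (spMap (epsMap (algebraMap A (Localization.Away (f i))))) := by
          rw [(k i).cart.w]
          exact ⟨z i |>.π (p x), by simp⟩
        have h2 : (p ≫ (k i).f ≫ d.y.π) x ∈
            Set.range (spMap (epsMap (algebraMap A (Localization.Away (f j))))) := by
          have h3 : p ≫ (k i).f ≫ d.y.π = q ≫ (k j).f ≫ d.y.π := by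
            rw [reassoc_of% hpq]
          rw [h3, (k j).cart.w]
          exact ⟨z j |>.π (q x), by simp⟩
        rw [ho'] at h1 h2
        rw [ho, TrivSqZeroExt.inl_mul, PrimeSpectrum.basicOpen_mul]
        exact ⟨h1, h2⟩
      obtain ⟨s, hs⟩ := hs
      exact DSPa.agree2 hRGD _ _ ψ ψ' (hψ.trans hψ'.symm)
        (isUnit6_map (algebraMap A (Localization.Away (f i * f j))) h6) (c i) (c j) d d' (hz i)
        (ρ i) (k i) (k' i) (hk i) (hk' i) (ρ j) (k j) (k' j) (hk j) (hk' j) (hmo i) (hmo j)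
        p q hpq s (by rw [hψ]; exact hs))
  refine ⟨e, ?_⟩
  refine DSPa.hom_cov f hf (fun i => Wei (WZ (c i).a (c i).b)) (fun i => (c i).e) _ _ fun i => ?_
  have he' : (k i).f ≫ e.f = (k' i).f := he i
  rw [← Category.assoc, ← hk i, Category.assoc, he', hk' i]

end Pool.Agent.MG.WL


end

section

/-!
# The curve `YX K p 0` is connected (module YCN)
-/

open CategoryTheory CategoryTheory.Limits AlgebraicGeometry TensorProduct

namespace Pool.Agent.MG.H2.YCN

section

variable (K : Type) [Field K] (p : Fin 7 → K)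

theorem rel0 : NRel (fun i => (RingHom.id K) (p i)) ((RingHom.id K) 0) 0 0 0 0 where
  zx := by simp
  aa := by simp
  bb := by simp
  ab := by simp
  xb := by simp
  za := by simp

/-- The value at the node. -/
noncomputable def ev : NN K p 0 →+* K :=
  liftN (RingHom.id K) 0 0 0 0 (rel0 K p)

@[simp] theorem ev_z : ev K p (zN K p 0) = 0 := liftN_z _ _ _ _ _ _
@[simp] theorem ev_x : ev K p (xN K p 0) = 0 := liftN_x _ _ _ _ _ _
@[simp] theorem ev_a : ev K p (aN K p 0) = 0 := liftN_a _ _ _ _ _ _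
@[simp] theorem ev_b : ev K p (bN K p 0) = 0 := liftN_b _ _ _ _ _ _
@[simp] theorem ev_c (c : K) : ev K p (algebraMap K _ c) = c := liftN_c _ _ _ _ _ _ _

theorem ev_aeval_x (c : Polynomial K) :
    ev K p (Polynomial.aeval (xN K p 0) c) = c.coeff 0 := by
  rw [Polynomial.aeval_def, Polynomial.hom_eval₂, ev_x]
  have : (ev K p).comp (algebraMap K (NN K p 0)) = RingHom.id K :=
    RingHom.ext fun c => ev_c K p c
  rw [this, Polynomial.eval₂_id, Polynomial.coeff_zero_eq_eval_zero]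

theorem ev_surj : Function.Surjective (ev K p) := fun c => ⟨algebraMap K _ c, ev_c K p c⟩

theorem zx0 : zN K p 0 * xN K p 0 = 0 := by
  rw [(relN K p 0).zx, map_zero]
  simp

theorem xb0 : xN K p 0 * bN K p 0 = 0 := by
  rw [(relN K p 0).xb, map_zero, zero_mul]

theorem za0 : zN K p 0 * aN K p 0 = 0 := by
  rw [(relN K p 0).za, map_zero, zero_mul]

/-- The kernel of the restriction to `T`. -/
theorem kerT (hNB : Stmt_YNB) (v : NN K p 0) (hv : nT K p 0 v = 0) : ev K p v = 0 := by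
  obtain ⟨h1, h2⟩ := hNB K p 0
  obtain ⟨c, d, e, f, rfl⟩ := h1 v
  have h3 : xN K p 0 * (Polynomial.aeval (xN K p 0) c + zN K p 0 * Polynomial.aeval (zN K p 0) d +
      Polynomial.aeval (xN K p 0) e * aN K p 0 + Polynomial.aeval (zN K p 0) f * bN K p 0) =
      Polynomial.aeval (xN K p 0) (Polynomial.X * c) +
        zN K p 0 * Polynomial.aeval (zN K p 0) (0 : Polynomial K) +
      Polynomial.aeval (xN K p 0) (Polynomial.X * e) * aN K p 0 +
        Polynomial.aeval (zN K p 0) (0 : Polynomial K) * bN K p 0 := by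
    simp only [map_mul, Polynomial.aeval_X, map_zero, mul_zero, zero_mul, add_zero]
    linear_combination Polynomial.aeval (zN K p 0) d * zx0 K p +
      Polynomial.aeval (zN K p 0) f * xb0 K p
  have h4 := h2 (Polynomial.X * c) 0 (Polynomial.X * e) 0 (by
    rw [← h3, map_mul, hv, mul_zero]) (by
    rw [← h3, map_mul, nQ_x, map_zero]
    simp)
  have h5 : c = 0 := by
    have := h4.1
    rwa [mul_eq_zero, or_iff_right Polynomial.X_ne_zero] at this
  rw [h5]
  simp

/-- The kernel of the restriction to `Q`. -/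
theorem kerQ (hNB : Stmt_YNB) (v : NN K p 0) (hv : nQ K p 0 v = 0) : ev K p v = 0 := by
  obtain ⟨h1, h2⟩ := hNB K p 0
  obtain ⟨c, d, e, f, rfl⟩ := h1 v
  obtain ⟨c', hc⟩ : ∃ c' : Polynomial K, c = Polynomial.C (c.coeff 0) + Polynomial.X * c' := by
    refine ⟨c.divX, ?_⟩
    rw [mul_comm, add_comm]
    exact (Polynomial.divX_mul_X_add c).symm
  have hcx : Polynomial.aeval (xN K p 0) c = algebraMap K _ (c.coeff 0) +
      xN K p 0 * Polynomial.aeval (xN K p 0) c' := by
    conv_lhs => rw [hc]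
    rw [map_add, map_mul, Polynomial.aeval_C, Polynomial.aeval_X]
  have h3 : zN K p 0 * (Polynomial.aeval (xN K p 0) c + zN K p 0 * Polynomial.aeval (zN K p 0) d +
      Polynomial.aeval (xN K p 0) e * aN K p 0 + Polynomial.aeval (zN K p 0) f * bN K p 0) =
      Polynomial.aeval (xN K p 0) (0 : Polynomial K) +
        zN K p 0 * Polynomial.aeval (zN K p 0) (Polynomial.C (c.coeff 0) + Polynomial.X * d) +
      Polynomial.aeval (xN K p 0) (0 : Polynomial K) * aN K p 0 +
        Polynomial.aeval (zN K p 0) (Polynomial.X * f) * bN K p 0 := by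
    rw [hcx]
    simp only [map_mul, map_add, Polynomial.aeval_X, Polynomial.aeval_C, map_zero, zero_mul,
      add_zero, zero_add]
    linear_combination Polynomial.aeval (xN K p 0) c' * zx0 K p +
      Polynomial.aeval (xN K p 0) e * za0 K p
  have h4 := h2 0 (Polynomial.C (c.coeff 0) + Polynomial.X * d) 0 (Polynomial.X * f) (by
    rw [← h3, map_mul, nT_z, map_zero]
    simp) (by
    rw [← h3, map_mul, hv, mul_zero])
  have h5 : c.coeff 0 = 0 := by
    have := congrArg (fun q => Polynomial.coeff q 0) h4.2.1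
    simpa using this
  rw [map_add, map_add, map_add, map_mul, map_mul, map_mul, ev_aeval_x, ev_z, ev_a, ev_b, h5]
  simp

/-- The node. -/
noncomputable def ndp : PrimeSpectrum (NN K p 0) :=
  ⟨RingHom.ker (ev K p), RingHom.ker_isPrime (ev K p)⟩

/-- The node. -/
noncomputable def nd : Sp (NN K p 0) := ndp K p

theorem cl_gen {A : Type} [CommRing A] (g : NN K p 0 →+* A)
    (hg : ∀ v, g v = 0 → ev K p v = 0) :
    ndp K p ∈ closure (Set.range (PrimeSpectrum.comap g)) := by
  rw [PrimeSpectrum.closure_range_comap, PrimeSpectrum.mem_zeroLocus]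
  intro v hv
  exact hg v hv

theorem nd_ideal : (nd K p).asIdeal = RingHom.ker (ev K p) := rfl

theorem nd_T (hNB : Stmt_YNB) : nd K p ∈ closure (Set.range (spMap (nT K p 0))) :=
  cl_gen K p (nT K p 0) fun v hv => kerT K p hNB v hv

theorem nd_Q (hNB : Stmt_YNB) : nd K p ∈ closure (Set.range (spMap (nQ K p 0))) :=
  cl_gen K p (nQ K p 0) fun v hv => kerQ K p hNB v hv

/-- A point at which `z` and `ξ` vanish is the node. -/
theorem eq_nd (hNB : Stmt_YNB) (y : Sp (NN K p 0)) (hz : zN K p 0 ∈ y.asIdeal)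
    (hx : xN K p 0 ∈ y.asIdeal) : y = nd K p := by
  have hp : y.asIdeal.IsPrime := y.isPrime
  have ha : aN K p 0 ∈ y.asIdeal := by
    refine hp.mem_of_pow_mem 2 ?_
    rw [(relN K p 0).aa]
    exact Ideal.mul_mem_right _ _ hx
  have hb : bN K p 0 ∈ y.asIdeal := by
    refine hp.mem_of_pow_mem 2 ?_
    rw [(relN K p 0).bb]
    exact Ideal.mul_mem_right _ _ hz
  have hle : RingHom.ker (ev K p) ≤ y.asIdeal := by
    intro v hv
    rw [RingHom.mem_ker] at hv
    obtain ⟨c, d, e, f, rfl⟩ := (hNB K p 0).1 v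
    rw [map_add, map_add, map_add, map_mul, map_mul, map_mul, ev_aeval_x, ev_z, ev_a, ev_b,
      zero_mul, mul_zero, mul_zero, add_zero, add_zero, add_zero] at hv
    obtain ⟨c', hc⟩ := Polynomial.X_dvd_iff.2 hv
    have hc2 : Polynomial.aeval (xN K p 0) c ∈ y.asIdeal := by
      rw [hc, map_mul, Polynomial.aeval_X]
      exact Ideal.mul_mem_right _ _ hx
    exact add_mem (add_mem (add_mem hc2 (Ideal.mul_mem_right _ _ hz)) (Ideal.mul_mem_left _ _ ha))
      (Ideal.mul_mem_left _ _ hb)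
  have hmax : (RingHom.ker (ev K p)).IsMaximal := RingHom.ker_isMaximal_of_surjective _
    (ev_surj K p)
  have heq : RingHom.ker (ev K p) = y.asIdeal := hmax.eq_of_le hp.ne_top hle
  exact PrimeSpectrum.ext heq.symm

theorem p3_ne (h : YOk K p 0) : p 3 ≠ 0 := by
  obtain ⟨a, b, hab⟩ := h.sN
  have h1 := congrArg (ev K p) hab
  have h2 : ev K p (KN K p 0) = p 3 := by
    rw [KN, KK_map]
    simp [KK]
  have h3 : ev K p (EN K p 0) = 0 := by
    rw [EN, EE_map]
    simp [EE]
  rw [map_add, map_mul, map_mul, h2, h3, mul_zero, add_zero, map_one] at h1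
  intro h4
  rw [h4, mul_zero] at h1
  exact zero_ne_one h1

theorem pre {A : Type} [CommRing A] [IsDomain A] {X : Scheme.{0}} (f : Sp A ⟶ X) :
    _root_.IsPreconnected (Set.range f) := by
  have h1 : _root_.IsPreconnected (Set.univ : Set (Sp A)) := by
    have : IrreducibleSpace (PrimeSpectrum A) := inferInstance
    have h2 : PreconnectedSpace (PrimeSpectrum A) := inferInstance
    exact h2.isPreconnected_univ
  rw [← Set.image_univ]
  exact h1.image _ f.continuous.continuousOn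

theorem mem_cl {A A' C : Type} [CommRing A] [CommRing A'] [CommRing C] {X : Scheme.{0}}
    (i : Sp A ⟶ X) (j : Sp A' ⟶ X) (g : A →+* C) (g' : A' →+* C)
    (hc : spMap g ≫ i = spMap g' ≫ j) (y : Sp A) (hy : y ∈ closure (Set.range (spMap g))) :
    i y ∈ closure (Set.range j) := by
  have h1 : i y ∈ closure (i '' Set.range (spMap g)) :=
    image_closure_subset_closure_image i.continuous ⟨y, hy, rfl⟩
  refine closure_mono ?_ h1
  rintro _ ⟨_, ⟨w, rfl⟩, rfl⟩
  refine ⟨spMap g' w, ?_⟩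
  rw [← Scheme.Hom.comp_apply, ← Scheme.Hom.comp_apply, hc]

theorem conn (hDM : Stmt_YDM) (hNB : Stmt_YNB) (h : YOk K p 0) : ConnectedSpace (YX K p 0) := by
  have h3 := p3_ne K p h
  have hT : IsDomain (TT K p 0) := hDM K (pT p 0) h.sT ⟨3, by decide, by simpa [pT] using h3⟩
  have hQ : IsDomain (QQ K p 0) := hDM K (pT (rev p) 0) h.sQ ⟨3, by decide, by
    have : rev p 3 = p 3 := rfl
    simpa [pT, this] using h3⟩
  set n : YX K p 0 := YX.inN K p 0 (nd K p) with hn
  have cT : n ∈ closure (Set.range (YX.inT K p 0)) :=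
    mem_cl _ _ _ _ (YX.condT K p 0) _ (nd_T K p hNB)
  have cQ : n ∈ closure (Set.range (YX.inQ K p 0)) :=
    mem_cl _ _ _ _ (YX.condQ K p 0) _ (nd_Q K p hNB)
  have pTn : _root_.IsPreconnected (insert n (Set.range (YX.inT K p 0))) :=
    (pre (YX.inT K p 0)).subset_closure (Set.subset_insert _ _)
      (Set.insert_subset cT subset_closure)
  have pQn : _root_.IsPreconnected (insert n (Set.range (YX.inQ K p 0))) :=
    (pre (YX.inQ K p 0)).subset_closure (Set.subset_insert _ _)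
      (Set.insert_subset cQ subset_closure)
  have hU : insert n (Set.range (YX.inT K p 0)) ∪ insert n (Set.range (YX.inQ K p 0)) =
      Set.univ := by
    rw [Set.eq_univ_iff_forall]
    intro x
    rcases YX.surj3 x with hx | ⟨y, rfl⟩ | hx
    · exact Or.inl (Or.inr hx)
    · by_cases hxy : xN K p 0 ∈ y.asIdeal
      · by_cases hzy : zN K p 0 ∈ y.asIdeal
        · rw [eq_nd K p hNB y hzy hxy]
          exact Or.inl (Or.inl rfl)
        · obtain ⟨w, rfl⟩ := (range_nQ K p 0 y).2 hzy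
          refine Or.inr (Or.inr ⟨spMap (qQ K p 0) w, ?_⟩)
          rw [← Scheme.Hom.comp_apply, ← Scheme.Hom.comp_apply, YX.condQ]
      · obtain ⟨w, rfl⟩ := (range_nT K p 0 y).2 hxy
        refine Or.inl (Or.inr ⟨spMap (tT K p 0) w, ?_⟩)
        rw [← Scheme.Hom.comp_apply, ← Scheme.Hom.comp_apply, YX.condT]
    · exact Or.inr (Or.inr hx)
  have hp : _root_.IsPreconnected (Set.univ : Set (YX K p 0)) := by
    rw [← hU]
    exact _root_.IsPreconnected.union n (Set.mem_insert _ _) (Set.mem_insert _ _) pTn pQn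
  have : PreconnectedSpace (YX K p 0) := ⟨hp⟩
  exact ⟨⟨n⟩⟩

end

end Pool.Agent.MG.H2.YCN

namespace Pool.Agent.MG.H2

theorem t_YCN (hDM : Stmt_YDM) (hNB : Stmt_YNB) : Stmt_YCN :=
  fun K _ p h => YCN.conn K p hDM hNB h

end Pool.Agent.MG.H2


end

section

/-!
# KSB: base change of the Krichever ring of a stable curve
-/

open CategoryTheory CategoryTheory.Limits AlgebraicGeometry TensorProduct

namespace Pool.Agent.MG.KX

open Pool.Agent.MG.G0 Pool.Agent.MG.GLU

/-- KSB: base change. -/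
theorem t_KSB (hKBP : Stmt_KBP) : Stmt_KSB := by
  have hKBC : Stmt_KBC := t_KBC (t_KFO t_KDU) t_KNZ (t_KSP t_KNZ)
  intro I A B _ _ _ _ g n P p h φ p' hp
  refine ⟨(hKBC.2.2.2 h.kr φ).1, hKBP.2 h.kr φ p p' hp h.mks, ?_⟩
  intro K _ _ ψ
  rw [← hKBC.2.1 φ ψ P]
  exact h.fib K (ψ.comp φ)

end Pool.Agent.MG.KX


end

section

/-!
# NSG: the substitution `s ↦ u + t/u`
-/

namespace Pool.Agent.MG.G0

namespace NSG

variable {A B : Type} [CommRing A] [CommRing B] {t : A}

/-- The image of `u`. -/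
noncomputable def U (t : A) : LaurentSeries A :=
  HahnSeries.single 1 1 + HahnSeries.single (-1) t

theorem exists_c (ht : IsNilpotent t) : ∃ c : LaurentSeries A, (zz A 1 + t • c) * U t = 1 := by
  obtain ⟨N, hN⟩ := ht
  obtain ⟨x, hx⟩ : ∃ x : LaurentSeries A, x = HahnSeries.single (-2) t := ⟨_, rfl⟩
  have hxN : x ^ N = 0 := by
    rw [hx, HahnSeries.single_pow, hN, HahnSeries.single_eq_zero]
  obtain ⟨w, hw⟩ : ∃ w : LaurentSeries A, (1 + x) * w = 1 := by
    refine ⟨∑ i ∈ Finset.range N, (-x) ^ i, ?_⟩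
    have h := mul_neg_geom_sum (-x) N
    rw [sub_neg_eq_add, neg_pow, hxN, mul_zero, sub_zero] at h
    exact h
  have h1 : (zz A 1 : LaurentSeries A) * HahnSeries.single 1 1 = 1 := by
    rw [zz, HahnSeries.single_mul_single, mul_one]
    rfl
  have h2 : (zz A 1 : LaurentSeries A) * HahnSeries.single (-1) t = x := by
    rw [zz, HahnSeries.single_mul_single, one_mul, hx]
    rfl
  have h3 : t • (HahnSeries.single (-3) 1 : LaurentSeries A) = zz A 1 * x := by
    rw [zz, hx, HahnSeries.single_mul_single, one_mul]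
    ext m
    rw [HahnSeries.coeff_smul, smul_eq_mul, HahnSeries.coeff_single, HahnSeries.coeff_single]
    split_ifs with h4 h5 h5
    · rw [mul_one]
    · exact absurd h4 h5
    · exact absurd h5 h4
    · rw [mul_zero]
  refine ⟨-(HahnSeries.single (-3) 1 * w), ?_⟩
  have h4 : t • -(HahnSeries.single (-3) 1 * w) = -(zz A 1 * x * w) := by
    rw [smul_neg, ← smul_mul_assoc, h3]
  rw [h4]
  have h5 : zz A 1 + -(zz A 1 * x * w) = zz A 1 * w := by
    linear_combination (-zz A 1) * hw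
  rw [h5, U]
  linear_combination w * h1 + w * h2 + hw

theorem psl_coeff_neg (b : PowerSeries A) (m : ℤ) (hm : m < 0) : (psl A b).coeff m = 0 := by
  have h := PowerSeries.coeff_coe b m
  rw [if_pos hm] at h
  exact h

theorem pow_low {a : LaurentSeries A} {L : ℕ} (ha : ∀ m < -(L : ℤ), a.coeff m = 0) (n : ℕ) :
    ∀ m < -((n * L : ℕ) : ℤ), (a ^ n).coeff m = 0 := by
  induction n with
  | zero =>
    intro m hm
    rw [pow_zero, HahnSeries.coeff_one, if_neg]
    rw [zero_mul, Nat.cast_zero, neg_zero] at hm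
    omega
  | succ n ih =>
    intro m hm
    rw [pow_succ]
    refine mul_low ih ha m ?_
    push_cast at hm ⊢
    linarith

theorem psi_low {a f : LaurentSeries A} {L : ℕ} (ha : ∀ m < -(L : ℤ), a.coeff m = 0) {M : ℤ}
    (hf : ∀ m < M, f.coeff m = 0) :
    ∀ m < M - ((nilpotencyClass a * L : ℕ) : ℤ), (psi 1 a f).coeff m = 0 := by
  intro m hm
  rw [psi_apply, HahnSeries.coeff_sum]
  refine Finset.sum_eq_zero fun n hn => ?_
  refine mul_low (pow_low ha n) (b := M) (fun k hk => ?_) m ?_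
  · rw [dz_coeff, hf _ (by omega), mul_zero]
  · have h1 : n * L ≤ nilpotencyClass a * L :=
      Nat.mul_le_mul_right _ (Finset.mem_range.1 hn).le
    have h2 : ((n * L : ℕ) : ℤ) ≤ ((nilpotencyClass a * L : ℕ) : ℤ) := by exact_mod_cast h1
    omega

end NSG

open _root_.Pool.Agent.MG.G0.NSG in
theorem t_NSG (hPSI : Stmt_PSI) : Stmt_NSG := by
  intro A _ t ht
  obtain ⟨c, hc⟩ := exists_c ht
  have h1u : IsUnit ((1 : ℕ) : A) := by
    rw [Nat.cast_one]
    exact isUnit_one
  obtain ⟨-, -, -, -, hP⟩ := hPSI 1 one_pos h1u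
  have hnil : IsNilpotent (t • c) := by
    obtain ⟨N, hN⟩ := ht
    refine ⟨N, ?_⟩
    rw [smul_pow, hN, zero_smul]
  obtain ⟨hmul, hone, hzz, hbij, hJ, -, -, -⟩ := hP (t • c) hnil
  let σ₀ : LaurentSeries A →ₐ[A] LaurentSeries A := AlgHom.ofLinearMap (psi 1 (t • c)) hone hmul
  let σ : LaurentSeries A ≃ₐ[A] LaurentSeries A := AlgEquiv.ofBijective σ₀ hbij
  have hσ : ∀ x, σ x = psi 1 (t • c) x := fun x => rfl
  have hU : σ (HahnSeries.single 1 1) = U t := by
    have h1 : (zz A 1 : LaurentSeries A) * HahnSeries.single 1 1 = 1 := by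
      rw [zz, HahnSeries.single_mul_single, mul_one]
      rfl
    have h2 := congrArg σ h1
    rw [map_mul, map_one σ, hσ (zz A 1), hzz] at h2
    linear_combination (U t) * h2 - (σ (HahnSeries.single 1 1)) * hc
  refine ⟨σ, hU, ?_, ?_⟩
  · -- polynomials
    have hX : (fun _ : Bool => U t) ∈ Nt t := by
      have h := add_mem (PL0.uv_mem t true) (PL0.uv_mem t false)
      have e : uv t true + uv t false = fun _ : Bool => U t := by
        funext b
        cases b
        · change uv t true false + uv t false false = U t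
          rw [PL0.uv_self, show false = !true from rfl, PL0.uv_not, add_comm]
          rfl
        · change uv t true true + uv t false true = U t
          rw [PL0.uv_self, show true = !false from rfl, PL0.uv_not]
          rfl
      rwa [e] at h
    have hdec : ∀ (M : ℕ) (a : PowerSeries A), ∃ P b : PowerSeries A,
        a = P + PowerSeries.X ^ M * b ∧ (fun _ : Bool => σ (psl A P)) ∈ Nt t := by
      intro M
      induction M with
      | zero =>
        intro a
        refine ⟨0, a, by rw [pow_zero, one_mul, zero_add], ?_⟩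
        have e : (fun _ : Bool => σ (psl A 0)) = 0 := by
          funext b
          rw [map_zero, map_zero]
          rfl
        rw [e]
        exact zero_mem _
      | succ M ih =>
        intro a
        obtain ⟨P, b, h1, h2⟩ := ih (PowerSeries.mk fun p => PowerSeries.coeff (p + 1) a)
        refine ⟨PowerSeries.C (PowerSeries.constantCoeff a) + PowerSeries.X * P, b, ?_, ?_⟩
        · have h3 := PowerSeries.eq_X_mul_shift_add_const a
          rw [h1] at h3
          refine h3.trans ?_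
          ring
        · have e : (fun _ : Bool => σ (psl A (PowerSeries.C (PowerSeries.constantCoeff a) +
              PowerSeries.X * P))) = algebraMap A (KK Bool A) (PowerSeries.constantCoeff a) +
              (fun _ : Bool => U t) * (fun _ : Bool => σ (psl A P)) := by
            funext b
            have e1 : psl A (PowerSeries.C (PowerSeries.constantCoeff a)) =
                algebraMap A (LaurentSeries A) (PowerSeries.constantCoeff a) := by
              rw [psl, HahnSeries.ofPowerSeries_C]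
              rfl
            have e2 : psl A (PowerSeries.X : PowerSeries A) = HahnSeries.single 1 1 :=
              HahnSeries.ofPowerSeries_X
            rw [map_add, map_mul, map_add, map_mul, e1, e2, hU, AlgEquiv.commutes]
            rfl
          rw [e]
          exact add_mem (Subalgebra.algebraMap_mem _ _) (mul_mem hX h2)
    intro a
    rw [mem_Nt]
    intro _ j
    obtain ⟨L, hL⟩ := exists_low (t • c)
    obtain ⟨P, b, h1, h2⟩ := hdec (nilpotencyClass (t • c) * L + j + 1) a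
    have hlow : ∀ m ≤ (j : ℤ), (σ (psl A (PowerSeries.X ^
        (nilpotencyClass (t • c) * L + j + 1) * b))).coeff m = 0 := by
      intro m hm
      rw [hσ]
      refine psi_low hL (M := ((nilpotencyClass (t • c) * L + j + 1 : ℕ) : ℤ)) ?_ m ?_
      · intro k hk
        have e2 : psl A (PowerSeries.X : PowerSeries A) = HahnSeries.single 1 1 :=
          HahnSeries.ofPowerSeries_X
        rw [map_mul, map_pow, e2, HahnSeries.single_pow, one_pow]
        refine mul_low (a := ((nilpotencyClass (t • c) * L + j + 1 : ℕ) : ℤ)) (b := 0)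
          (fun l hl => ?_) (psl_coeff_neg b) k (by omega)
        rw [HahnSeries.coeff_single_of_ne]
        rw [nsmul_eq_mul, mul_one]
        omega
      · push_cast
        omega
    have h3 := (mem_Nt.1 h2) true j
    change (σ (psl A a)).coeff (-(j : ℤ)) = t ^ j * (σ (psl A a)).coeff j
    rw [h1, map_add, map_add, HahnSeries.coeff_add, HahnSeries.coeff_add, hlow _ (by omega),
      hlow _ le_rfl, add_zero, add_zero]
    exact h3
  · intro B _ φ hφ x
    ext m
    have h := hJ (RingHom.ker φ) (fun k => ?_) x m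
    · rw [RingHom.mem_ker, HahnSeries.coeff_sub, map_sub, sub_eq_zero] at h
      rw [lmap_coeff, lmap_coeff]
      exact h
    · rw [RingHom.mem_ker, HahnSeries.coeff_smul, smul_eq_mul, map_mul, hφ, zero_mul]

end Pool.Agent.MG.G0


end

section

/-!
# PL5: the structure of derivations of the plumbed ring (PAPER.md, LOG, L5)
-/

namespace Pool.Agent.MG.G0

namespace PL5

section

variable {I A : Type} [CommRing A] {R : Subalgebra A (KK I A)}

/-- The components at the new punctures as a homomorphism. -/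
noncomputable def jHom (I A : Type) [CommRing A] : KK (I ⊕ Bool) A →ₐ[A] KK Bool A where
  toFun := atJ
  map_one' := rfl
  map_mul' _ _ := rfl
  map_zero' := rfl
  map_add' _ _ := rfl
  commutes' _ := rfl

/-- The components at the old punctures as a homomorphism. -/
noncomputable def iHom (I A : Type) [CommRing A] : KK (I ⊕ Bool) A →ₐ[A] KK I A where
  toFun := atI
  map_one' := rfl
  map_mul' _ _ := rfl
  map_zero' := rfl
  map_add' _ _ := rfl
  commutes' _ := rfl

theorem atI_add (f g : KK (I ⊕ Bool) A) : atI (f + g) = atI f + atI g := rfl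

theorem atI_sub (f g : KK (I ⊕ Bool) A) : atI (f - g) = atI f - atI g := rfl

theorem atI_mul (f g : KK (I ⊕ Bool) A) : atI (f * g) = atI f * atI g := rfl

theorem atJ_add (f g : KK (I ⊕ Bool) A) : atJ (f + g) = atJ f + atJ g := rfl

theorem atJ_sub (f g : KK (I ⊕ Bool) A) : atJ (f - g) = atJ f - atJ g := rfl

theorem atJ_mul (f g : KK (I ⊕ Bool) A) : atJ (f * g) = atJ f * atJ g := rfl

theorem atI_smul (a : A) (f : KK (I ⊕ Bool) A) : atI (a • f) = a • atI f := rfl

theorem atJ_smul (a : A) (f : KK (I ⊕ Bool) A) : atJ (a • f) = a • atJ f := rfl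

/-- The functions in `W` which are functions on the annulus. -/
noncomputable def Wt (pt : Bool → FPt R) (t : A) : Subalgebra A (KK (I ⊕ Bool) A) :=
  WJ pt ⊓ (Nt t).comap (jHom I A)

theorem mem_Wt {pt : Bool → FPt R} {t : A} {w : KK (I ⊕ Bool) A} :
    w ∈ Wt pt t ↔ w ∈ WJ pt ∧ atJ w ∈ Nt t := Iff.rfl

/-- The element of `P_t` given by an element of `Wt`. -/
noncomputable def pr {pt : Bool → FPt R} {t : A} (w : Wt pt t) : PT pt t :=
  ⟨atI (w : KK (I ⊕ Bool) A), w, (mem_Wt.1 w.2).1, rfl, (mem_Wt.1 w.2).2⟩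

/-- The series whose components at the old punctures are those of an element of `W`. -/
noncomputable def SW (pt : Bool → FPt R) : Submodule (WJ pt) (KK (I ⊕ Bool) A) where
  carrier := {F | ∃ w ∈ WJ pt, atI F = atI w}
  add_mem' := by
    rintro F G ⟨w, hw, h⟩ ⟨v, hv, h'⟩
    exact ⟨w + v, add_mem hw hv, by rw [atI_add, atI_add, h, h']⟩
  zero_mem' := ⟨0, zero_mem _, rfl⟩
  smul_mem' := by
    rintro ⟨c, hc⟩ F ⟨w, hw, h⟩
    refine ⟨c * w, mul_mem hc hw, ?_⟩
    change atI (c * F) = _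
    rw [atI_mul, atI_mul, h]

theorem mem_SW {pt : Bool → FPt R} {F : KK (I ⊕ Bool) A} :
    F ∈ SW pt ↔ ∃ w ∈ WJ pt, atI F = atI w := Iff.rfl

/-- Extension by zero. -/
noncomputable def ext0 (f : KK I A) : KK (I ⊕ Bool) A := Sum.elim f fun _ => 0

theorem atI_ext0 (f : KK I A) : atI (ext0 f) = f := rfl

/-- Elements of `P_t` are restrictions of elements of `W`. -/
theorem mem_of_mem_PT {pt : Bool → FPt R} {t : A} {f : KK I A} (hf : f ∈ PT pt t) :
    ∃ w ∈ WJ pt, f = atI w := by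
  obtain ⟨w, hw, h, -⟩ := mem_PT.1 hf
  exact ⟨w, hw, h.symm⟩

theorem exists_theta [Fintype I] (hLOC : Stmt_LOC) (hSCO : Stmt_SCO) (hSKK : Stmt_SKK) {h : ℕ}
    {pt : Bool → FPt R} {t : A} (hK : IsKr h (WJ pt)) (hS : SmC A (WJ pt))
    (hloc : ∀ w ∈ WJ pt, ∀ m : ℤ, ∃ (n : ℕ) (s a : Fin n → KK (I ⊕ Bool) A),
      (∀ k, s k ∈ WJ pt) ∧ (∀ k, a k ∈ WJ pt) ∧ (∀ k, atJ (s k) ∈ Pol Bool A (-m)) ∧
      (∀ k, atJ (s k * w) ∈ Pol Bool A (-m)) ∧ ∑ k, a k * s k = 1)
    {N : ℤ} (hN : ∀ F ∈ Pol Bool A (-N), F ∈ Nt t) {D : PT pt t → KK I A}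
    (hD : RDer (PT pt t) D) :
    ∃ θ : KK I A, ∀ f : PT pt t, ∃ x ∈ WJ pt, D f - θ * dd (f : KK I A) = atI x := by
  have hle : Wt pt t ≤ WJ pt := fun w hw => (mem_Wt.1 hw).1
  let alg : Algebra (Wt pt t) (WJ pt) := (Subalgebra.inclusion hle).toRingHom.toAlgebra
  have t1 : IsScalarTower A (Wt pt t) (WJ pt) := IsScalarTower.of_algebraMap_eq (fun a => rfl)
  have t2 : IsScalarTower (Wt pt t) (WJ pt) (KK (I ⊕ Bool) A) :=
    ⟨fun a b c => mul_assoc (a : KK (I ⊕ Bool) A) (b : KK (I ⊕ Bool) A) c⟩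
  have hEp : Ep (Wt pt t) (WJ pt) := by
    refine ⟨fun x y hxy => ?_, fun w => ?_⟩
    · have e : ((algebraMap (Wt pt t) (WJ pt) x : WJ pt) : KK (I ⊕ Bool) A) =
          ((algebraMap (Wt pt t) (WJ pt) y : WJ pt) : KK (I ⊕ Bool) A) := by rw [hxy]
      exact Subtype.ext e
    · obtain ⟨n, s, a, h1, h2, h3, h4, h5⟩ := hloc w w.2 N
      refine ⟨n, fun k => ⟨s k, mem_Wt.2 ⟨h1 k, hN _ (h3 k)⟩⟩, fun k => ⟨a k, h2 k⟩, ?_, ?_⟩
      · apply Subtype.ext
        rw [AddSubmonoidClass.coe_finsetSum]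
        exact h5
      · intro k
        exact ⟨⟨s k * w, mem_Wt.2 ⟨mul_mem (h1 k) w.2, hN _ (h4 k)⟩⟩, rfl⟩
  let δ : Derivation A (Wt pt t) (KK (I ⊕ Bool) A ⧸ SW pt) := Derivation.mk'
    { toFun := fun w => (SW pt).mkQ (ext0 (D (pr w)))
      map_add' := fun f g => by
        rw [← map_add, ← sub_eq_zero, ← map_sub, Submodule.mkQ_apply,
          Submodule.Quotient.mk_eq_zero, mem_SW]
        obtain ⟨w, hw, h'⟩ := mem_of_mem_PT (hD.add (pr f) (pr g))
        refine ⟨w, hw, ?_⟩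
        rw [← h', atI_sub, atI_add, atI_ext0, atI_ext0, atI_ext0, sub_sub]
        rfl
      map_smul' := fun a f => by
        have e : (RingHom.id A a) • (SW pt).mkQ (ext0 (D (pr f))) =
            (SW pt).mkQ (a • ext0 (D (pr f))) := rfl
        rw [e, ← sub_eq_zero, ← map_sub, Submodule.mkQ_apply,
          Submodule.Quotient.mk_eq_zero, mem_SW]
        obtain ⟨w, hw, h'⟩ := mem_of_mem_PT (hD.smul a (pr f))
        refine ⟨w, hw, ?_⟩
        rw [← h', atI_sub, atI_smul, atI_ext0, atI_ext0]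
        rfl }
    (fun f g => by
      have e : f • (SW pt).mkQ (ext0 (D (pr g))) + g • (SW pt).mkQ (ext0 (D (pr f))) =
          (SW pt).mkQ ((f : KK (I ⊕ Bool) A) * ext0 (D (pr g)) +
            (g : KK (I ⊕ Bool) A) * ext0 (D (pr f))) := rfl
      refine Eq.trans ?_ e.symm
      change (SW pt).mkQ (ext0 (D (pr (f * g)))) = _
      rw [← sub_eq_zero, ← map_sub, Submodule.mkQ_apply, Submodule.Quotient.mk_eq_zero, mem_SW]
      obtain ⟨w, hw, h'⟩ := mem_of_mem_PT (hD.mul (pr f) (pr g))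
      refine ⟨w, hw, ?_⟩
      rw [← h', atI_sub, atI_add, atI_mul, atI_mul, atI_ext0, atI_ext0, atI_ext0, sub_sub]
      rfl)
  obtain ⟨E, hE, -⟩ := hLOC hEp (KK (I ⊕ Bool) A ⧸ SW pt) δ
  obtain ⟨E', hE'⟩ := (hSCO.2 hS).2.2 (KK (I ⊕ Bool) A) (KK (I ⊕ Bool) A ⧸ SW pt) (SW pt).mkQ
    (SW pt).mkQ_surjective E
  obtain ⟨Θ, hΘ, -⟩ := (hSKK hK).2 hS E'
  refine ⟨atI Θ, fun f => ?_⟩
  obtain ⟨w, hw, h1, h2⟩ := mem_PT.1 f.2
  have hf : f = pr (⟨w, mem_Wt.2 ⟨hw, h2⟩⟩ : Wt pt t) := Subtype.ext h1.symm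
  have h3 := hE ⟨w, mem_Wt.2 ⟨hw, h2⟩⟩
  have h4 : (SW pt).mkQ (E' ⟨w, hw⟩) = (SW pt).mkQ (ext0 (D f)) := by
    rw [hE', hf]
    exact h3
  rw [hΘ ⟨w, hw⟩] at h4
  rw [← sub_eq_zero, ← map_sub, Submodule.mkQ_apply, Submodule.Quotient.mk_eq_zero, mem_SW] at h4
  obtain ⟨x, hx, hx'⟩ := h4
  refine ⟨-x, neg_mem hx, ?_⟩
  have h5 : atI (-x) = -atI x := rfl
  have h6 : atI Θ * dd (f : KK I A) = atI (Θ * dd w) := by
    rw [← h1]
    rfl
  rw [h5, ← hx', atI_sub, atI_ext0, neg_sub, h6]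

/-- Functions on the annulus have bounded poles. -/
theorem Nt_le_Pol {t : A} {N : ℕ} (ht : t ^ N = 0) {F : KK Bool A} (hF : F ∈ Nt t) :
    F ∈ Pol Bool A N := fun b m hm => by
  obtain ⟨j, hj⟩ := Int.eq_ofNat_of_zero_le (show 0 ≤ -m by omega)
  have h1 := mem_Nt.1 hF b j
  have e : -(j : ℤ) = m := by omega
  rw [e] at h1
  rw [h1, show j = N + (j - N) by omega, pow_add, ht, zero_mul, zero_mul]

/-- The situation after the subtraction of `θ d/dτ`. -/
structure Sit (pt : Bool → FPt R) (t : A) (x L : PT pt t → KK (I ⊕ Bool) A) : Prop where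
  inj : ∀ w ∈ WJ pt, atI w = 0 → w = 0
  xW : ∀ f, x f ∈ WJ pt
  LW : ∀ f, L f ∈ WJ pt
  LI : ∀ f, atI (L f) = f
  LJ : ∀ f, atJ (L f) ∈ Nt t
  add : ∀ f g, atI (x (f + g)) - atI (x f) - atI (x g) ∈ PT pt t
  smul : ∀ (a : A) f, atI (x (a • f)) - a • atI (x f) ∈ PT pt t
  mul : ∀ f g, atI (x (f * g)) - (f : KK I A) * atI (x g) - (g : KK I A) * atI (x f) ∈ PT pt t

namespace Sit

variable {pt : Bool → FPt R} {t : A} {x L : PT pt t → KK (I ⊕ Bool) A}

theorem eqW (S : Sit pt t x L) {v w : KK (I ⊕ Bool) A} (hv : v ∈ WJ pt) (hw : w ∈ WJ pt)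
    (h : atI v = atI w) : v = w := by
  have h1 := S.inj (v - w) (sub_mem hv hw) (by rw [atI_sub, h, sub_self])
  exact sub_eq_zero.1 h1

theorem memJ (S : Sit pt t x L) {w : KK (I ⊕ Bool) A} (hw : w ∈ WJ pt)
    (h : atI w ∈ PT pt t) : atJ w ∈ Nt t := by
  obtain ⟨v, hv, h1, h2⟩ := mem_PT.1 h
  rwa [S.eqW hv hw h1] at h2

theorem L_eq (S : Sit pt t x L) {w : KK (I ⊕ Bool) A} (hw : w ∈ WJ pt) {f : PT pt t}
    (h : (f : KK I A) = atI w) : L f = w :=
  S.eqW (S.LW f) hw ((S.LI f).trans h)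

theorem L_add (S : Sit pt t x L) (f g : PT pt t) : L (f + g) = L f + L g :=
  S.L_eq (add_mem (S.LW f) (S.LW g)) (by rw [atI_add, S.LI, S.LI]; rfl)

theorem L_sub (S : Sit pt t x L) (f g : PT pt t) : L (f - g) = L f - L g :=
  S.L_eq (sub_mem (S.LW f) (S.LW g)) (by rw [atI_sub, S.LI, S.LI]; rfl)

theorem L_mul (S : Sit pt t x L) (f g : PT pt t) : L (f * g) = L f * L g :=
  S.L_eq (mul_mem (S.LW f) (S.LW g)) (by rw [atI_mul, S.LI, S.LI]; rfl)

theorem L_smul (S : Sit pt t x L) (a : A) (f : PT pt t) : L (a • f) = a • L f :=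
  S.L_eq ((WJ pt).smul_mem (S.LW f) a) (by rw [atI_smul, S.LI]; rfl)

theorem L_one (S : Sit pt t x L) : L 1 = 1 := S.L_eq (one_mem _) rfl

theorem dadd (S : Sit pt t x L) (f g : PT pt t) :
    atJ (x (f + g)) - atJ (x f) - atJ (x g) ∈ Nt t :=
  S.memJ (w := x (f + g) - x f - x g) (sub_mem (sub_mem (S.xW _) (S.xW _)) (S.xW _)) (S.add f g)

theorem dsmul (S : Sit pt t x L) (a : A) (f : PT pt t) :
    atJ (x (a • f)) - a • atJ (x f) ∈ Nt t :=
  S.memJ (w := x (a • f) - a • x f) (sub_mem (S.xW _) ((WJ pt).smul_mem (S.xW _) a)) (S.smul a f)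

theorem dmul (S : Sit pt t x L) (f g : PT pt t) :
    atJ (x (f * g)) - atJ (L f) * atJ (x g) - atJ (L g) * atJ (x f) ∈ Nt t := by
  refine S.memJ (w := x (f * g) - L f * x g - L g * x f)
    (sub_mem (sub_mem (S.xW _) (mul_mem (S.LW _) (S.xW _))) (mul_mem (S.LW _) (S.xW _))) ?_
  rw [atI_sub, atI_sub, atI_mul, atI_mul, S.LI, S.LI]
  exact S.mul f g

theorem done (S : Sit pt t x L) : atJ (x 1) ∈ Nt t := by
  have h := S.dmul 1 1
  have e : atJ (1 : KK (I ⊕ Bool) A) = 1 := rfl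
  rw [S.L_one, e, one_mul, one_mul] at h
  have h2 := neg_mem h
  rwa [sub_self, zero_sub, neg_neg] at h2

/-- There is a uniform bound for the poles of the derivatives. -/
theorem exists_bound (S : Sit pt t x L) (hfg : (⊤ : Subalgebra A (PT pt t)).FG) {N : ℕ}
    (hN : ∀ m : ℕ, N ≤ m → ∀ F ∈ Pol Bool A (-(m : ℤ)), F ∈ Nt t) :
    ∃ m : ℕ, N ≤ m ∧ ∀ f : PT pt t, ∀ F ∈ Pol Bool A (-(m : ℤ)), F * atJ (x f) ∈ Nt t := by
  obtain ⟨s, hs⟩ := hfg
  choose n hn using fun f : PT pt t => exists_Pol (atJ (x f))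
  refine ⟨N + s.sup n, Nat.le_add_right _ _, fun f => ?_⟩
  have hf : f ∈ Algebra.adjoin A (s : Set (PT pt t)) := by
    rw [hs]
    exact Algebra.mem_top
  have hN' : ∀ F ∈ Pol Bool A (-((N + s.sup n : ℕ) : ℤ)), F ∈ Nt t :=
    hN _ (Nat.le_add_right _ _)
  refine Algebra.adjoin_induction (p := fun f _ => ∀ F ∈ Pol Bool A (-((N + s.sup n : ℕ) : ℤ)),
    F * atJ (x f) ∈ Nt t) ?_ ?_ ?_ ?_ hf
  · intro g hg F hF
    refine hN N le_rfl _ (Pol_mono ?_ (mul_mem_Pol hF (hn g)))
    have : n g ≤ s.sup n := Finset.le_sup hg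
    omega
  · intro a F hF
    have h1 : atJ (x (algebraMap A (PT pt t) a)) ∈ Nt t := by
      have h2 := S.dsmul a 1
      have h3 := (Nt t).smul_mem S.done a
      have h4 := add_mem h2 h3
      rwa [sub_add_cancel, ← Algebra.algebraMap_eq_smul_one] at h4
    exact mul_mem (hN' F hF) h1
  · intro f g _ _ hf hg F hF
    have h1 := mul_mem (hN' F hF) (S.dadd f g)
    have e : F * atJ (x (f + g)) = F * (atJ (x (f + g)) - atJ (x f) - atJ (x g)) +
        F * atJ (x f) + F * atJ (x g) := by ring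
    rw [e]
    exact add_mem (add_mem h1 (hf F hF)) (hg F hF)
  · intro f g _ _ hf hg F hF
    have h1 := mul_mem (hN' F hF) (S.dmul f g)
    have e : F * atJ (x (f * g)) = F * (atJ (x (f * g)) - atJ (L f) * atJ (x g) -
        atJ (L g) * atJ (x f)) + atJ (L f) * (F * atJ (x g)) + atJ (L g) * (F * atJ (x f)) := by
      ring
    rw [e]
    exact add_mem (add_mem h1 (mul_mem (S.LJ f) (hg F hF))) (mul_mem (S.LJ g) (hf F hF))

/-- The derivation kills the functions which vanish to a high order at the annulus. -/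
theorem kill (S : Sit pt t x L) {m : ℕ} (hm : ∀ F ∈ Pol Bool A (-(m : ℤ)), F ∈ Nt t)
    (hb : ∀ f : PT pt t, ∀ F ∈ Pol Bool A (-(m : ℤ)), F * atJ (x f) ∈ Nt t)
    (hsp : ∀ w ∈ WJ pt, atJ w ∈ Pol Bool A (-((m + m : ℕ) : ℤ)) →
      w ∈ Submodule.span A {z : KK (I ⊕ Bool) A | ∃ x ∈ WJ pt, ∃ y ∈ WJ pt,
        atJ x ∈ Pol Bool A (-(m : ℤ)) ∧ atJ y ∈ Pol Bool A (-(m : ℤ)) ∧ z = x * y})
    {f : PT pt t} (hf : atJ (L f) ∈ Pol Bool A (-((m + m : ℕ) : ℤ))) : atJ (x f) ∈ Nt t := by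
  have key : ∀ z ∈ Submodule.span A {z : KK (I ⊕ Bool) A | ∃ x ∈ WJ pt, ∃ y ∈ WJ pt,
      atJ x ∈ Pol Bool A (-(m : ℤ)) ∧ atJ y ∈ Pol Bool A (-(m : ℤ)) ∧ z = x * y},
      ∃ f : PT pt t, (f : KK I A) = atI z ∧ atJ (x f) ∈ Nt t := by
    intro z hz
    refine Submodule.span_induction (p := fun z _ => ∃ f : PT pt t, (f : KK I A) = atI z ∧
      atJ (x f) ∈ Nt t) ?_ ?_ ?_ ?_ hz
    · rintro z ⟨u, hu, v, hv, h1, h2, rfl⟩
      set f : PT pt t := ⟨atI u, u, hu, rfl, hm _ h1⟩ with hf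
      set g : PT pt t := ⟨atI v, v, hv, rfl, hm _ h2⟩ with hg
      refine ⟨f * g, rfl, ?_⟩
      have e1 : L f = u := S.L_eq hu rfl
      have e2 : L g = v := S.L_eq hv rfl
      have h3 := S.dmul f g
      rw [e1, e2] at h3
      have h4 := hb g _ h1
      have h5 := hb f _ h2
      have h6 := add_mem (add_mem h3 h4) h5
      have e : atJ (x (f * g)) - atJ u * atJ (x g) - atJ v * atJ (x f) + atJ u * atJ (x g) +
          atJ v * atJ (x f) = atJ (x (f * g)) := by ring
      rwa [e] at h6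
    · refine ⟨0, rfl, ?_⟩
      have h1 := S.dsmul 0 1
      have h2 := (Nt t).smul_mem S.done (0 : A)
      have h3 := add_mem h1 h2
      rwa [sub_add_cancel, zero_smul] at h3
    · rintro z z' _ _ ⟨f, hf, h1⟩ ⟨g, hg, h2⟩
      refine ⟨f + g, by rw [atI_add, ← hf, ← hg]; rfl, ?_⟩
      have h3 := add_mem (add_mem (S.dadd f g) h1) h2
      have e : atJ (x (f + g)) - atJ (x f) - atJ (x g) + atJ (x f) + atJ (x g) =
        atJ (x (f + g)) := by ring
      rwa [e] at h3
    · rintro a z _ ⟨f, hf, h1⟩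
      refine ⟨a • f, by rw [atI_smul, ← hf]; rfl, ?_⟩
      have h3 := add_mem (S.dsmul a f) ((Nt t).smul_mem h1 a)
      rwa [sub_add_cancel] at h3
  obtain ⟨g, hg, h1⟩ := key (L f) (hsp _ (S.LW f) hf)
  have e : g = f := Subtype.ext (hg.trans (S.LI f))
  rwa [e] at h1

theorem wd (S : Sit pt t x L) {K : ℤ}
    (hk : ∀ f : PT pt t, atJ (L f) ∈ Pol Bool A (-K) → atJ (x f) ∈ Nt t) {f g : PT pt t}
    (h : atJ (L f) - atJ (L g) ∈ Pol Bool A (-K)) : atJ (x f) - atJ (x g) ∈ Nt t := by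
  have h1 := hk (f - g) (by rw [S.L_sub]; exact h)
  have h2 := S.dadd (f - g) g
  rw [sub_add_cancel] at h2
  have h3 := add_mem h2 h1
  have e : atJ (x f) - atJ (x (f - g)) - atJ (x g) + atJ (x (f - g)) =
    atJ (x f) - atJ (x g) := by ring
  rwa [e] at h3

/-- The derivation of the ring of functions on the annulus. -/
theorem exists_der (S : Sit pt t x L) {K N : ℕ} (ht : t ^ N = 0)
    (hm : ∀ F ∈ Pol Bool A (-((K + N : ℕ) : ℤ)), F ∈ Nt t)
    (hb : ∀ f : PT pt t, ∀ F ∈ Pol Bool A (-(K : ℤ)), F * atJ (x f) ∈ Nt t)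
    (hk : ∀ f : PT pt t, atJ (L f) ∈ Pol Bool A (-(K : ℤ)) → atJ (x f) ∈ Nt t)
    (happ : ∀ (F : KK Bool A) (m : ℤ), ∃ w ∈ WJ pt, atJ w - F ∈ Pol Bool A (-m)) :
    ∃ δ : Derivation A (Nt t) (KK Bool A ⧸ LinearMap.range (Algebra.linearMap (Nt t) (KK Bool A))),
      ∀ (F : Nt t) (f : PT pt t), atJ (L f) - (F : KK Bool A) ∈ Pol Bool A (-(K : ℤ)) →
        δ F = Submodule.Quotient.mk (atJ (x f)) := by
  have hKN : Pol Bool A (-((K + N : ℕ) : ℤ)) ≤ Pol Bool A (-(K : ℤ)) := Pol_mono (by omega)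
  have hc : ∀ F : Nt t, ∃ f : PT pt t,
      atJ (L f) - (F : KK Bool A) ∈ Pol Bool A (-((K + N : ℕ) : ℤ)) := by
    intro F
    obtain ⟨w, hw, h1⟩ := happ F ((K + N : ℕ) : ℤ)
    have h2 : atJ w ∈ Nt t := by
      have h3 := add_mem (hm _ h1) F.2
      rwa [sub_add_cancel] at h3
    refine ⟨⟨atI w, w, hw, rfl, h2⟩, ?_⟩
    rw [S.L_eq hw rfl]
    exact h1
  choose c hc using hc
  have hmk : ∀ a b : KK Bool A, a - b ∈ Nt t →
      (Submodule.Quotient.mk a : KK Bool A ⧸ LinearMap.range (Algebra.linearMap (Nt t)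
        (KK Bool A))) = Submodule.Quotient.mk b := by
    intro a b hab
    rw [Submodule.Quotient.eq]
    exact ⟨⟨a - b, hab⟩, rfl⟩
  have hwd : ∀ (F : Nt t) (f : PT pt t), atJ (L f) - (F : KK Bool A) ∈ Pol Bool A (-(K : ℤ)) →
      atJ (x (c F)) - atJ (x f) ∈ Nt t := by
    intro F f hf
    refine S.wd hk ?_
    have e : atJ (L (c F)) - atJ (L f) = (atJ (L (c F)) - (F : KK Bool A)) -
      (atJ (L f) - (F : KK Bool A)) := by ring
    rw [e]
    exact sub_mem (hKN (hc F)) hf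
  refine ⟨Derivation.mk'
    { toFun := fun F => Submodule.Quotient.mk (atJ (x (c F)))
      map_add' := fun F G => ?_
      map_smul' := fun a F => ?_ } fun F G => ?_, fun F f hf => hmk _ _ (hwd F f hf)⟩
  · rw [← Submodule.Quotient.mk_add]
    refine hmk _ _ ?_
    have h1 := hwd (F + G) (c F + c G) (by
      rw [S.L_add, atJ_add]
      have e : atJ (L (c F)) + atJ (L (c G)) - ((F + G : Nt t) : KK Bool A) =
        (atJ (L (c F)) - (F : KK Bool A)) + (atJ (L (c G)) - (G : KK Bool A)) := by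
        change atJ (L (c F)) + atJ (L (c G)) - ((F : KK Bool A) + (G : KK Bool A)) = _
        ring
      rw [e]
      exact add_mem (hKN (hc F)) (hKN (hc G)))
    have h2 := add_mem h1 (S.dadd (c F) (c G))
    have e : atJ (x (c (F + G))) - atJ (x (c F + c G)) +
        (atJ (x (c F + c G)) - atJ (x (c F)) - atJ (x (c G))) =
        atJ (x (c (F + G))) - (atJ (x (c F)) + atJ (x (c G))) := by ring
    rwa [e] at h2
  · change Submodule.Quotient.mk (atJ (x (c (a • F)))) = Submodule.Quotient.mk (a • atJ (x (c F)))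
    refine hmk _ _ ?_
    have h1 := hwd (a • F) (a • c F) (by
      rw [S.L_smul, atJ_smul]
      have e : a • atJ (L (c F)) - ((a • F : Nt t) : KK Bool A) =
        a • (atJ (L (c F)) - (F : KK Bool A)) := by
        change a • atJ (L (c F)) - a • (F : KK Bool A) = _
        rw [smul_sub]
      rw [e]
      exact (Pol Bool A _).smul_mem a (hKN (hc F)))
    have h2 := add_mem h1 (S.dsmul a (c F))
    have e : atJ (x (c (a • F))) - atJ (x (a • c F)) + (atJ (x (a • c F)) - a • atJ (x (c F))) =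
        atJ (x (c (a • F))) - a • atJ (x (c F)) := by ring
    rwa [e] at h2
  · change Submodule.Quotient.mk (atJ (x (c (F * G)))) =
      Submodule.Quotient.mk ((F : KK Bool A) * atJ (x (c G)) + (G : KK Bool A) * atJ (x (c F)))
    refine hmk _ _ ?_
    have h1 := hwd (F * G) (c F * c G) (by
      rw [S.L_mul, atJ_mul]
      have e : atJ (L (c F)) * atJ (L (c G)) - ((F * G : Nt t) : KK Bool A) =
        (atJ (L (c F)) - (F : KK Bool A)) * atJ (L (c G)) +
          (F : KK Bool A) * (atJ (L (c G)) - (G : KK Bool A)) := by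
        change atJ (L (c F)) * atJ (L (c G)) - (F : KK Bool A) * (G : KK Bool A) = _
        ring
      rw [e]
      refine add_mem (Pol_mono ?_ (mul_mem_Pol (hc F) (Nt_le_Pol ht (S.LJ (c G)))))
        (Pol_mono ?_ (mul_mem_Pol (Nt_le_Pol ht F.2) (hc G)))
      · omega
      · omega)
    have h2 := add_mem (add_mem (add_mem h1 (S.dmul (c F) (c G)))
      (hb (c G) _ (hKN (hc F)))) (hb (c F) _ (hKN (hc G)))
    have e : atJ (x (c (F * G))) - atJ (x (c F * c G)) +
        (atJ (x (c F * c G)) - atJ (L (c F)) * atJ (x (c G)) - atJ (L (c G)) * atJ (x (c F))) +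
        (atJ (L (c F)) - (F : KK Bool A)) * atJ (x (c G)) +
        (atJ (L (c G)) - (G : KK Bool A)) * atJ (x (c F)) =
        atJ (x (c (F * G))) - ((F : KK Bool A) * atJ (x (c G)) +
          (G : KK Bool A) * atJ (x (c F))) := by ring
    rwa [e] at h2

end Sit

end

end PL5

theorem t_PL5 (hKFG : Stmt_KFG) (hSCO : Stmt_SCO) (hLOC : Stmt_LOC) (hSKK : Stmt_SKK)
    (hAWK : Stmt_AWK) (hPL0 : Stmt_PL0) (hPL1 : Stmt_PL1) (hPL3 : Stmt_PL3) : Stmt_PL5 := by
  intro I A _ _ _ h R hR hS pt hpt t ht D hD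
  obtain ⟨N, hN⟩ := ht
  obtain ⟨hWK, hWS, -, hinj, -, -, -⟩ := hAWK hR hS pt hpt
  obtain ⟨h3a, h3b, h3c, -⟩ := hPL3 hR hS pt hpt
  obtain ⟨h0a, -, h0c, h0d, -, -, h0g, -⟩ := hPL0 t N hN
  have hinj' : ∀ w ∈ WJ pt, atI w = 0 → w = 0 := fun w hw h1 => hinj w hw fun i => congrFun h1 i
  obtain ⟨θ, hθ⟩ := PL5.exists_theta hLOC hSCO hSKK hWK hWS h3b (N := N) (h0a N le_rfl) hD
  choose x hxW hx using hθ
  have hL : ∀ f : PT pt t, ∃ w ∈ WJ pt, atI w = f ∧ atJ w ∈ Nt t := fun f => mem_PT.1 f.2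
  choose L hLW hLI hLJ using hL
  have S : PL5.Sit pt t x L := by
    refine ⟨hinj', hxW, hLW, hLI, hLJ, fun f g => ?_, fun a f => ?_, fun f g => ?_⟩
    · rw [← hx, ← hx, ← hx]
      have e : D (f + g) - θ * dd ((f + g : PT pt t) : KK I A) - (D f - θ * dd (f : KK I A)) -
          (D g - θ * dd (g : KK I A)) = D (f + g) - D f - D g := by
        change D (f + g) - θ * dd ((f : KK I A) + (g : KK I A)) - _ - _ = _
        rw [dd_add]
        ring
      rw [e]
      exact hD.add f g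
    · rw [← hx, ← hx]
      have e : D (a • f) - θ * dd ((a • f : PT pt t) : KK I A) -
          a • (D f - θ * dd (f : KK I A)) = D (a • f) - a • D f := by
        change D (a • f) - θ * dd (a • (f : KK I A)) - _ = _
        rw [dd_smul, smul_sub, mul_smul_comm]
        ring
      rw [e]
      exact hD.smul a f
    · rw [← hx, ← hx, ← hx]
      have e : D (f * g) - θ * dd ((f * g : PT pt t) : KK I A) -
          (f : KK I A) * (D g - θ * dd (g : KK I A)) -
          (g : KK I A) * (D f - θ * dd (f : KK I A)) =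
          D (f * g) - (f : KK I A) * D g - (g : KK I A) * D f := by
        change D (f * g) - θ * dd ((f : KK I A) * (g : KK I A)) - _ - _ = _
        rw [dd_mul]
        ring
      rw [e]
      exact hD.mul f g
  have : Algebra.FinitePresentation A (PT pt t) := (hKFG (hPL1 hR hS pt hpt t ⟨N, hN⟩)).1
  have hfg : (⊤ : Subalgebra A (PT pt t)).FG :=
    (Algebra.FiniteType.of_finitePresentation (R := A) (A := PT pt t)).out
  obtain ⟨m, hNm, hb⟩ := S.exists_bound hfg h0a
  have hk : ∀ f : PT pt t, atJ (L f) ∈ Pol Bool A (-((m + m : ℕ) : ℤ)) → atJ (x f) ∈ Nt t :=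
    fun f hf => S.kill (h0a m hNm) hb (fun w hw h1 => h3c w hw m m h1) hf
  have hb' : ∀ f : PT pt t, ∀ F ∈ Pol Bool A (-((m + m : ℕ) : ℤ)), F * atJ (x f) ∈ Nt t :=
    fun f F hF => hb f F (Pol_mono (by omega) hF)
  obtain ⟨δ, hδ⟩ := S.exists_der (K := m + m) hN (h0a _ (by omega)) hb' hk h3a
  have happ : ∀ F : Nt t, ∃ f : PT pt t,
      atJ (L f) - (F : KK Bool A) ∈ Pol Bool A (-((m + m : ℕ) : ℤ)) := by
    intro F
    obtain ⟨w, hw, h1⟩ := h3a F ((m + m : ℕ) : ℤ)
    have h2 : atJ w ∈ Nt t := by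
      have h3 := add_mem (h0a (m + m) (by omega) _ h1) F.2
      rwa [sub_add_cancel] at h3
    refine ⟨⟨atI w, w, hw, rfl, h2⟩, ?_⟩
    rw [S.L_eq hw rfl]
    exact h1
  obtain ⟨fu, hfu⟩ := happ ⟨uv t true, h0c true⟩
  obtain ⟨fv, hfv⟩ := happ ⟨uv t false, h0c false⟩
  have hδu := hδ _ _ hfu
  have hδv := hδ _ _ hfv
  have hmk : ∀ a : KK Bool A, (Submodule.Quotient.mk a :
      KK Bool A ⧸ LinearMap.range (Algebra.linearMap (Nt t) (KK Bool A))) = 0 → a ∈ Nt t := by
    intro a ha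
    rw [Submodule.Quotient.mk_eq_zero] at ha
    obtain ⟨y, rfl⟩ := ha
    exact y.2
  refine ⟨θ, atJ (x fu), atJ (x fv), ?_, ?_⟩
  · apply hmk
    have h1 : δ (⟨uv t true, h0c true⟩ * ⟨uv t false, h0c false⟩) = 0 := by
      have e : (⟨uv t true, h0c true⟩ * ⟨uv t false, h0c false⟩ : Nt t) =
        algebraMap A (Nt t) t := Subtype.ext h0d
      rw [e, Derivation.map_algebraMap]
    rw [Derivation.leibniz, hδu, hδv] at h1
    exact h1
  · intro w hw hwJ G G' hG hG' f hf
    refine ⟨x f, hxW f, ?_, ?_⟩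
    · rw [hx f, sub_self]
      exact zero_mem _
    · apply hmk
      have h1 := h0g _ δ (m + m) (fun y hy => ?_) ⟨atJ w, hwJ⟩ ⟨G, hG.mem⟩ ⟨G', hG'.mem⟩
        ⟨uv t true, h0c true⟩ ⟨uv t false, h0c false⟩ hG hG' rfl rfl
      · have e : L f = w := S.L_eq hw hf
        rw [hδu, hδv, hδ ⟨atJ w, hwJ⟩ f (by rw [e]; simp)] at h1
        rw [Submodule.Quotient.mk_sub, sub_eq_zero]
        exact h1
      · obtain ⟨g, hg⟩ := happ y
        rw [hδ y g hg]
        have h4 : atJ (L g) ∈ Pol Bool A (-((m + m : ℕ) : ℤ)) := by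
          have h5 := add_mem hg hy
          rwa [sub_add_cancel] at h5
        rw [Submodule.Quotient.mk_eq_zero]
        exact ⟨⟨_, hk g h4⟩, rfl⟩

end Pool.Agent.MG.G0


end
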