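import Mathlib
import Pool.Agent.KDM.C08
import Pool.Agent.KDM.C20
import Pool.Agent.KDM.C21
import Pool.Agent.KDM.C33
import Pool.Agent.KDM.C54

/-! Parts: MG.WL.GNC, MG.H2.CFV -/

section

/-!
# GNC: from preliminary nice covers to nice covers
-/

set_option autoImplicit false

open CategoryTheory CategoryTheory.Limits AlgebraicGeometry TensorProduct

namespace Pool.Agent.MG.WL

open Pool.Agent.MG.W Pool.Agent.MG.One Pool.Agent.MG.GLU

namespace GNC

section closedpt

variable {B : Type} [CommRing B] [IsLocalRing B] {X Z : Scheme.{0}} (π : X ⟶ Sp B)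

theorem closed_range (j : Z ⟶ X) (hj : IsProper (j ≫ π)) (hπ : IsProper π) :
    IsClosed (Set.range j) := by
  have : IsProper j := IsProper.of_comp j π
  exact j.isClosedMap.isClosed_range

theorem mem_of_closed (j : Z ⟶ X) (hj : IsProper (j ≫ π)) (O : X.Opens)
    (h : ∀ z : Z, π (j z) = IsLocalRing.closedPoint B → j z ∈ O) (z : Z) : j z ∈ O := by
  by_contra hz
  have h1 : IsClosed ((j ≫ π) '' (j ⁻¹' (O : Set X)ᶜ)) :=
    (j ≫ π).isClosedMap _ (O.isOpen.isClosed_compl.preimage j.continuous)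
  have h2 : (j ≫ π) z ∈ (j ≫ π) '' (j ⁻¹' (O : Set X)ᶜ) := ⟨z, hz, rfl⟩
  have h3 := (IsLocalRing.specializes_closedPoint ((j ≫ π) z : PrimeSpectrum B)).mem_closed h1 h2
  obtain ⟨w, hw, hwc⟩ := h3
  exact hw (h w hwc)

end closedpt

section piece

variable {B : Type} [CommRing B] {X : Scheme.{0}} {V : X.Opens} (hV : IsAffineOpen V) (β : Γ(X, V))

/-- The closed subscheme of `V` defined by `β`. -/
noncomputable def jj : Sp (Γ(X, V) ⧸ Ideal.span {β}) ⟶ X :=
  spMap (Ideal.Quotient.mk (Ideal.span {β})) ≫ hV.fromSpec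

theorem mem_jj (x : X) : (∃ s, jj hV β s = x) ↔ x ∈ V ∧ x ∉ X.basicOpen β := by
  constructor
  · rintro ⟨s, rfl⟩
    have h1 : jj hV β s ∈ Set.range hV.fromSpec :=
      ⟨spMap (Ideal.Quotient.mk (Ideal.span {β})) s, rfl⟩
    rw [hV.range_fromSpec] at h1
    refine ⟨h1, fun h2 => ?_⟩
    have h3 : spMap (Ideal.Quotient.mk (Ideal.span {β})) s ∈ hV.fromSpec ⁻¹ᵁ X.basicOpen β := h2
    rw [hV.fromSpec_preimage_basicOpen] at h3
    apply h3
    change Ideal.Quotient.mk (Ideal.span {β}) β ∈ s.asIdeal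
    rw [Ideal.Quotient.eq_zero_iff_mem.2 (Ideal.mem_span_singleton_self β)]
    exact zero_mem _
  · rintro ⟨hx, hxb⟩
    have h1 : x ∈ Set.range hV.fromSpec := by rw [hV.range_fromSpec]; exact hx
    obtain ⟨p, rfl⟩ := h1
    have h2 : p ∉ hV.fromSpec ⁻¹ᵁ X.basicOpen β := hxb
    rw [hV.fromSpec_preimage_basicOpen] at h2
    have h3 : β ∈ p.asIdeal := by
      by_contra h
      exact h2 h
    have h4 : p ∈ Set.range (PrimeSpectrum.comap (Ideal.Quotient.mk (Ideal.span {β}))) := by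
      rw [range_comap_of_surjective _ _ Ideal.Quotient.mk_surjective,
        Ideal.mk_ker]
      change ((Ideal.span {β} : Ideal Γ(X, V)) : Set Γ(X, V)) ⊆ (p.asIdeal : Set Γ(X, V))
      intro y hy
      obtain ⟨c, rfl⟩ := Ideal.mem_span_singleton'.1 hy
      exact p.asIdeal.mul_mem_left _ h3
    obtain ⟨s, hs⟩ := h4
    refine ⟨s, ?_⟩
    change hV.fromSpec (spMap (Ideal.Quotient.mk (Ideal.span {β})) s) = _
    congr 1

end piece

section aff

variable {X : Scheme.{0}} {W U : X.Opens}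

/-- Locality of affineness on an affine base. -/
theorem affine_of_local (hW : IsAffineOpen W) (hU : U ≤ W)
    (h : ∀ x ∈ W, ∃ f : Γ(X, W), x ∈ X.basicOpen f ∧ IsAffineOpen (U ⊓ X.basicOpen f)) :
    IsAffineOpen U := by
  let s : Set Γ(X, W) := {f | IsAffineOpen (U ⊓ X.basicOpen f)}
  have hs : Ideal.span s = ⊤ := by
    rw [← hW.self_le_iSup_basicOpen_iff]
    intro x hx
    obtain ⟨f, hf, hfa⟩ := h x hx
    exact TopologicalSpace.Opens.mem_iSup.2 ⟨⟨f, hfa⟩, hf⟩
  refine isAffineOpen_of_isAffineOpen_basicOpen U (rs X hU '' s) ?_ ?_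
  · rw [← Ideal.map_span, hs, Ideal.map_top]
  · rintro _ ⟨f, hf, rfl⟩
    have h1 := Scheme.basicOpen_res X f (homOfLE hU).op
    have h2 : X.basicOpen (rs X hU f) = U ⊓ X.basicOpen f := h1
    rw [h2]
    exact hf

/-- The complement in an affine open `W` of a closed subset of `X` which is defined by one equation
in an affine open `V`. -/
theorem affine_sub (hW : IsAffineOpen W) {V : X.Opens} (β : Γ(X, V))
    (hU : ∀ x, x ∈ U ↔ x ∈ W ∧ (x ∈ V → x ∈ X.basicOpen β)) :
    IsAffineOpen U := by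
  refine affine_of_local hW (fun x hx => ((hU x).1 hx).1) fun x hx => ?_
  by_cases hxU : x ∈ U
  · obtain ⟨f, hf, hxf⟩ := hW.exists_basicOpen_le ⟨x, hxU⟩ hx
    refine ⟨f, hxf, ?_⟩
    rw [inf_eq_right.2 hf]
    exact hW.basicOpen f
  · have hxV : x ∈ V := by
      by_contra h
      exact hxU ((hU x).2 ⟨hx, fun h' => absurd h' h⟩)
    obtain ⟨f, hf, hxf⟩ := hW.exists_basicOpen_le (V := W ⊓ V) ⟨x, ⟨hx, hxV⟩⟩ hx
    refine ⟨f, hxf, ?_⟩
    have hfV : X.basicOpen f ≤ V := hf.trans inf_le_right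
    have h1 : U ⊓ X.basicOpen f = X.basicOpen (rs X hfV β) := by
      have h2 : X.basicOpen (rs X hfV β) = X.basicOpen f ⊓ X.basicOpen β :=
        Scheme.basicOpen_res X β (homOfLE hfV).op
      rw [h2]
      ext z
      constructor
      · rintro ⟨hz, hzf⟩
        exact ⟨hzf, ((hU z).1 hz).2 (hfV hzf)⟩
      · rintro ⟨hzf, hz⟩
        exact ⟨(hU z).2 ⟨(hf hzf).1, fun _ => hz⟩, hzf⟩
    rw [h1]
    exact (hW.basicOpen f).basicOpen _

end aff

section fin

variable {B : Type} [CommRing B] {X : Scheme.{0}} {V V' : X.Opens}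

theorem finite_restrict (hV : IsAffineOpen V) (β g : Γ(X, V)) (hV' : V' = X.basicOpen g)
    (h : V' ≤ V) (hc : ∀ x ∈ V, x ∈ X.basicOpen β ∨ x ∈ X.basicOpen g) (c : B →+* Γ(X, V))
    (hf : ((Ideal.Quotient.mk (Ideal.span {β})).comp c).Finite) :
    ((Ideal.Quotient.mk (Ideal.span {rs X h β})).comp ((rs X h).comp c)).Finite := by
  subst hV'
  have hs : Ideal.span {β, g} = ⊤ := by
    rw [← hV.self_le_iSup_basicOpen_iff]
    intro x hx
    rcases hc x hx with h | h
    · exact TopologicalSpace.Opens.mem_iSup.2 ⟨⟨β, by simp⟩, h⟩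
    · exact TopologicalSpace.Opens.mem_iSup.2 ⟨⟨g, by simp⟩, h⟩
  obtain ⟨u, w, huw⟩ := Ideal.mem_span_pair.1 ((Ideal.eq_top_iff_one _).1 hs)
  have hle : Ideal.span {β} ≤ Ideal.comap (rs X h) (Ideal.span {rs X h β}) := by
    rw [Ideal.span_singleton_le_iff_mem, Ideal.mem_comap]
    exact Ideal.mem_span_singleton_self _
  let ρ : Γ(X, V) ⧸ Ideal.span {β} →+* Γ(X, X.basicOpen g) ⧸ Ideal.span {rs X h β} :=
    Ideal.quotientMap _ (rs X h) hle
  have hρ : (Ideal.Quotient.mk (Ideal.span {rs X h β})).comp ((rs X h).comp c) =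
      ρ.comp ((Ideal.Quotient.mk (Ideal.span {β})).comp c) := by
    ext b
    simp only [ρ, RingHom.comp_apply, Ideal.quotientMap_mk]
  rw [hρ]
  refine RingHom.Finite.comp (RingHom.Finite.of_surjective _ ?_) hf
  intro y
  obtain ⟨y, rfl⟩ := Ideal.Quotient.mk_surjective y
  have hl := hV.isLocalization_basicOpen g
  obtain ⟨⟨a, ⟨_, n, rfl⟩⟩, ha⟩ := IsLocalization.surj (Submonoid.powers g) y
  refine ⟨Ideal.Quotient.mk _ (a * w ^ n), ?_⟩
  rw [Ideal.quotientMap_mk, Ideal.Quotient.mk_eq_mk_iff_sub_mem]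
  have h1 : rs X h g ^ n * rs X h w ^ n - 1 ∈ Ideal.span {rs X h β} := by
    rw [← mul_pow]
    have h2 : rs X h g * rs X h w - 1 ∈ Ideal.span {rs X h β} := by
      rw [Ideal.mem_span_singleton']
      refine ⟨- rs X h u, ?_⟩
      have h0 := congrArg (rs X h) huw
      rw [map_add, map_mul, map_mul, map_one] at h0
      linear_combination -h0
    have h3 : (1 : Γ(X, X.basicOpen g)) ^ n = 1 := one_pow n
    rw [← h3]
    exact Ideal.mem_of_dvd _ (sub_dvd_pow_sub_pow _ _ n) h2
  have h4 : y * rs X h g ^ n = rs X h a := by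
    rw [← map_pow]
    exact ha
  have h5 : rs X h (a * w ^ n) - y = y * (rs X h g ^ n * rs X h w ^ n - 1) := by
    rw [map_mul, ← h4, map_pow]
    ring
  rw [h5]
  exact Ideal.mul_mem_left _ _ h1

end fin



section main

variable {B : Type} [CommRing B] {y : Fam 1 B}

theorem jj_comp {V : y.X.Opens} (hV : IsAffineOpen V) (β : Γ(y.X, V)) :
    jj hV β ≫ y.π = spMap ((Ideal.Quotient.mk (Ideal.span {β})).comp (coef y.π V)) := by
  rw [jj, Category.assoc, NOD.fromSpec_coef, spMap_comp']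

end main

end GNC

theorem t_GNC : Stmt_GNC := by
  intro B _ _ y hy L P hG
  have hπ : IsProper y.π := hy.proper
  let Y : P.ι → Set y.X := fun i => {x | x ∈ P.V i ∧ x ∉ y.X.basicOpen (P.β i)}
  have hYr : ∀ i, Y i = Set.range (GNC.jj (P.aV i) (P.β i)) := by
    intro i
    ext x
    exact (GNC.mem_jj (P.aV i) (P.β i) x).symm
  have hjp : ∀ i, IsProper (GNC.jj (P.aV i) (P.β i) ≫ y.π) := by
    intro i
    rw [GNC.jj_comp]
    have : IsFinite (spMap ((Ideal.Quotient.mk (Ideal.span {P.β i})).comp (coef y.π (P.V i)))) :=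
      (IsFinite.SpecMap_iff _).2 (hG i)
    infer_instance
  have hYc : ∀ i, IsClosed (Y i) := fun i => by
    rw [hYr]
    exact GNC.closed_range y.π _ (hjp i) hπ
  have hYO : ∀ i (O : y.X.Opens), P.z i ∈ O → ∀ x ∈ Y i, x ∈ O := by
    intro i O hz x hx
    obtain ⟨s, rfl⟩ := (GNC.mem_jj (P.aV i) (P.β i) x).2 hx
    refine GNC.mem_of_closed y.π _ (hjp i) O (fun w hw => ?_) s
    have h1 := (GNC.mem_jj (P.aV i) (P.β i) _).1 ⟨w, rfl⟩
    rw [P.uniq i _ h1.1 hw h1.2]
    exact hz
  have hzY : ∀ i, P.z i ∈ Y i := fun i => ⟨P.mem i, fun h => P.nW i (P.bas i h)⟩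
  have hzn : ∀ i j, j ≠ i → P.z i ∉ Y j := fun i j hij h =>
    hij (P.inj (P.uniq j _ h.1 (P.zc i) h.2)).symm
  have hσp : IsProper (y.σ 0 ≫ y.π) := by
    rw [y.sec]
    infer_instance
  have hσc : IsClosed (Set.range (y.σ 0)) := GNC.closed_range y.π _ hσp hπ
  have hσπ : ∀ s, y.π (y.σ 0 s) = s := by
    intro s
    have h1 : (y.σ 0 ≫ y.π) s = s := by
      rw [y.sec]
      rfl
    exact h1
  have hσO : ∀ O : y.X.Opens, P.z P.i₀ ∈ O → ∀ s, y.σ 0 s ∈ O := by
    intro O hz s
    refine GNC.mem_of_closed y.π _ hσp O (fun w hw => ?_) s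
    rw [hσπ] at hw
    rw [hw, P.sec]
    exact hz
  have hσz : ∀ i, i ≠ P.i₀ → P.z i ∉ Set.range (y.σ 0) := by
    rintro i hi ⟨s, hs⟩
    have h1 := P.zc i
    rw [← hs, hσπ] at h1
    rw [h1, P.sec] at hs
    exact hi (P.inj hs).symm
  have hcov : ∀ x, x ∈ P.W ∨ ∃ i, x ∈ P.V i := by
    have h := GNC.mem_of_closed y.π (𝟙 y.X) (by rw [Category.id_comp]; exact hπ)
      (P.W ⊔ ⨆ i, P.V i) (fun z hz => by
        have hz' : y.π z = IsLocalRing.closedPoint B := hz
        change z ∈ P.W ⊔ ⨆ i, P.V i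
        rcases P.cov z hz' with h | ⟨i, rfl⟩
        · exact Or.inl h
        · exact Or.inr (TopologicalSpace.Opens.mem_iSup.2 ⟨i, P.mem i⟩))
    intro x
    rcases h x with h | h
    · exact Or.inl h
    · exact Or.inr (TopologicalSpace.Opens.mem_iSup.1 h)
  have hg : ∀ i, ∃ g : Γ(y.X, P.V i), P.z i ∈ y.X.basicOpen g ∧
      (∀ j, j ≠ i → ∀ x ∈ Y j, x ∉ y.X.basicOpen g) ∧
      (i ≠ P.i₀ → ∀ s, y.σ 0 s ∉ y.X.basicOpen g) := by
    intro i
    have hc : IsClosed ((⋃ j : {j // j ≠ i}, Y j) ∪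
        {x | x ∈ Set.range (y.σ 0) ∧ i ≠ P.i₀}) := by
      refine (isClosed_iUnion_of_finite (s := fun j : {j // j ≠ i} => Y j)
        fun j => hYc j).union ?_
      by_cases h : i = P.i₀
      · have : {x | x ∈ Set.range (y.σ 0) ∧ i ≠ P.i₀} = ∅ := by
          ext x
          simp [h]
        rw [this]
        exact isClosed_empty
      · have : {x | x ∈ Set.range (y.σ 0) ∧ i ≠ P.i₀} = Set.range (y.σ 0) := by
          ext x
          simp [h]
        rw [this]
        exact hσc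
    let O : y.X.Opens := ⟨_, hc.isOpen_compl⟩
    have hzO : P.z i ∈ O := by
      intro h
      rcases h with h | h
      · obtain ⟨j, hj⟩ := Set.mem_iUnion.1 h
        exact hzn i j j.2 hj
      · exact hσz i h.2 h.1
    obtain ⟨g, hg, hgz⟩ := (P.aV i).exists_basicOpen_le (V := O) ⟨P.z i, hzO⟩ (P.mem i)
    refine ⟨g, hgz, fun j hj x hx hxg => ?_, fun hi s hs => ?_⟩
    · exact hg hxg (Or.inl (Set.mem_iUnion.2 ⟨⟨j, hj⟩, hx⟩))
    · exact hg hs (Or.inr ⟨⟨s, rfl⟩, hi⟩)
  choose g hgz hgY hgσ using hg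
  let WO : Finset P.ι → y.X.Opens := fun s =>
    ⟨(P.W : Set y.X) \ ⋃ i : s, Y i, P.W.isOpen.sdiff (isClosed_iUnion_of_finite fun i => hYc i)⟩
  have hWO : ∀ s x, x ∈ WO s ↔ x ∈ P.W ∧ ∀ i ∈ s, x ∉ Y i := by
    intro s x
    change x ∈ (P.W : Set y.X) \ ⋃ i : s, Y i ↔ _
    rw [Set.mem_diff, Set.mem_iUnion]
    refine and_congr Iff.rfl ⟨fun h i hi hx => h ⟨⟨i, hi⟩, hx⟩, fun h => ?_⟩
    rintro ⟨⟨i, hi⟩, hx⟩
    exact h i hi hx
  have hWa : ∀ s, IsAffineOpen (WO s) := by
    intro s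
    induction s using Finset.induction_on with
    | empty =>
      have : WO ∅ = P.W := by
        ext x
        exact (hWO ∅ x).trans (by simp)
      rw [this]
      exact P.aW
    | insert a s ha ih =>
      have h1 : IsAffineOpen (WO {a}) := by
        refine GNC.affine_sub P.aW (P.β a) fun x => ?_
        rw [hWO]
        refine and_congr Iff.rfl ⟨fun h hx => ?_, fun h i hi hx => ?_⟩
        · by_contra hb
          exact h a (Finset.mem_singleton_self a) ⟨hx, hb⟩
        · rw [Finset.mem_singleton] at hi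
          subst hi
          exact hx.2 (h hx.1)
      have h2 : WO (insert a s) = WO {a} ⊓ WO s := by
        ext x
        refine (hWO _ x).trans (Iff.trans ?_ (and_congr (hWO _ x) (hWO _ x)).symm)
        simp only [Finset.mem_insert, Finset.mem_singleton, forall_eq_or_imp, forall_eq]
        tauto
      rw [h2]
      exact inf_affine hπ h1 ih
  have hDW : ∀ i x, x ∈ y.X.basicOpen (P.β i) → x ∈ y.X.basicOpen (g i) →
      x ∈ WO Finset.univ := by
    intro i x hx hxg
    rw [hWO]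
    refine ⟨P.bas i hx, fun j _ hj => ?_⟩
    by_cases hji : j = i
    · subst hji
      exact hj.2 hx
    · exact hgY i j hji x hj hxg
  refine ⟨{ W := WO Finset.univ
            aW := hWa _
            leW := fun x hx => P.leW ((hWO _ x).1 hx).1
            ι := P.ι
            V := fun i => y.X.basicOpen (g i)
            aV := fun i => (P.aV i).basicOpen _
            β := fun i => rs y.X (y.X.basicOpen_le (g i)) (P.β i)
            bas := fun i => ?_
            dis := fun i j hij x hx => ?_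
            cov := fun x => ?_
            finite := fun i => ?_
            i₀ := P.i₀
            le₀ := (y.X.basicOpen_le _).trans P.le₀
            sec := fun s _ => hσO _ (hgz _) s
            ne := fun i hi x hx => ?_ }⟩
  · have h1 : y.X.basicOpen (rs y.X (y.X.basicOpen_le (g i)) (P.β i)) =
        y.X.basicOpen (g i) ⊓ y.X.basicOpen (P.β i) :=
      Scheme.basicOpen_res y.X (P.β i) (homOfLE (y.X.basicOpen_le (g i))).op
    rw [h1]
    ext x
    constructor
    · rintro ⟨hxg, hx⟩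
      exact ⟨hDW i x hx hxg, hxg⟩
    · rintro ⟨hxW, hxg⟩
      refine ⟨hxg, ?_⟩
      by_contra hx
      exact ((hWO _ x).1 hxW).2 i (Finset.mem_univ i) ⟨y.X.basicOpen_le _ hxg, hx⟩
  · have hxi : x ∈ y.X.basicOpen (g i) := hx.1
    have hxj : x ∈ y.X.basicOpen (g j) := hx.2
    refine hDW i x ?_ hxi
    by_contra hxb
    exact hgY j i hij x ⟨y.X.basicOpen_le _ hxi, hxb⟩ hxj
  · by_cases h : ∃ i, x ∈ Y i
    · obtain ⟨i, hi⟩ := h
      exact Or.inr ⟨i, hYO i _ (hgz i) x hi⟩
    · left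
      rw [hWO]
      refine ⟨?_, fun i _ hi => h ⟨i, hi⟩⟩
      rcases hcov x with hx | ⟨i, hx⟩
      · exact hx
      · by_contra hxW
        exact h ⟨i, hx, fun hb => hxW (P.bas i hb)⟩
  · have h1 : coef y.π (y.X.basicOpen (g i)) =
        (rs y.X (y.X.basicOpen_le (g i))).comp (coef y.π (P.V i)) := by
      ext b
      exact (coef_rs y.π _ b).symm
    rw [h1]
    refine GNC.finite_restrict (P.aV i) (P.β i) (g i) rfl _ (fun x hx => ?_) _ (hG i)
    by_cases hb : x ∈ y.X.basicOpen (P.β i)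
    · exact Or.inl hb
    · exact Or.inr (hYO i _ (hgz i) x ⟨hx, hb⟩)
  · rw [L.mU]
    rintro ⟨s, rfl⟩
    exact hgσ i hi s hx

end Pool.Agent.MG.WL


end

section

/-!
# The difference of the values of `dx/y` on the two charts
-/

open Polynomial

namespace Pool.Agent.MG.H2

namespace CFV

/-! ### Pure algebra -/

section alg

variable {R : Type} [CommRing R]

/-- The difference of the two values as a function of `a = D x`, `b = D y`. -/
def W (y u Ax Cx Au Cu a b : R) : R :=
  (Ax * y * a + 2 * Cx * b) + u * (Au * (y * u ^ 3) * (-(u ^ 2) * a) +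
    2 * Cu * (u ^ 3 * b - 3 * y * u ^ 4 * a))

theorem W_zero (y u Ax Cx Au Cu a b F F' : R) (hy : y ^ 2 = F) (h1 : Ax * F + Cx * F' = 1)
    (h2 : Au * (u ^ 6 * F) + Cu * (6 * u ^ 5 * F - u ^ 4 * F') = 1)
    (hab : 2 * y * b = F' * a) : W y u Ax Cx Au Cu a b = 0 := by
  have e1 : y * W y u Ax Cx Au Cu a b = 0 := by
    simp only [W]
    linear_combination (Ax * a - u ^ 6 * Au * a - 6 * Cu * u ^ 5 * a) * hy + (Cx + Cu * u ^ 4) * hab +
      a * h1 - a * h2
  have e2 : F' * W y u Ax Cx Au Cu a b = 0 := by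
    simp only [W]
    linear_combination (2 * Ax * b - 2 * Au * u ^ 6 * b - 12 * Cu * u ^ 5 * b) * hy +
      (-(Ax * y) + Au * u ^ 6 * y + 6 * Cu * u ^ 5 * y) * hab + 2 * b * h1 - 2 * b * h2
  have e3 : W y u Ax Cx Au Cu a b = Ax * y * (y * W y u Ax Cx Au Cu a b) +
      Cx * (F' * W y u Ax Cx Au Cu a b) := by
    linear_combination (-(Ax * W y u Ax Cx Au Cu a b)) * hy - W y u Ax Cx Au Cu a b * h1
  rw [e3, e1, e2]
  ring

/-- The derivative. -/
def dp (f : Fin 7 → R) (x : R) : R :=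
  f 1 + 2 * f 2 * x + 3 * f 3 * x ^ 2 + 4 * f 4 * x ^ 3 + 5 * f 5 * x ^ 4 + 6 * f 6 * x ^ 5

theorem dp_rev (f : Fin 7 → R) (x u : R) (h : x * u = 1) :
    dp (rev f) u = 6 * u ^ 5 * pol f x - u ^ 4 * dp f x := by
  have h2 : x ^ 2 * u ^ 2 = 1 := by rw [← mul_pow, h, one_pow]
  have h3 : x ^ 3 * u ^ 3 = 1 := by rw [← mul_pow, h, one_pow]
  have h4 : x ^ 4 * u ^ 4 = 1 := by rw [← mul_pow, h, one_pow]
  have h5 : x ^ 5 * u ^ 5 = 1 := by rw [← mul_pow, h, one_pow]
  have e1 : rev f 1 = f 5 := rfl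
  have e2 : rev f 2 = f 4 := rfl
  have e3 : rev f 3 = f 3 := rfl
  have e4 : rev f 4 = f 2 := rfl
  have e5 : rev f 5 = f 1 := rfl
  have e6 : rev f 6 = f 0 := rfl
  simp only [pol, dp, e1, e2, e3, e4, e5, e6]
  linear_combination (-6 * f 1 * u ^ 4) * h + (-6 * f 2 * u ^ 3) * h2 + 2 * f 2 * u ^ 3 * h +
    (-6 * f 3 * u ^ 2) * h3 + 3 * f 3 * u ^ 2 * h2 + (-6 * f 4 * u) * h4 + 4 * f 4 * u * h3 +
    (-6 * f 5) * h5 + 5 * f 5 * h4 - 6 * f 6 * x * h5 + 6 * f 6 * x * h4

theorem pol_rev' (f : Fin 7 → R) (x u : R) (h : x * u = 1) : pol (rev f) u = u ^ 6 * pol f x := by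
  have := pol_rev (rev f) x u h
  rw [rev_rev] at this
  rw [← this]
  ring

end alg

section

variable {B : Type} [CommRing B]

theorem aeval_pp (p : Fin 7 → B) {R : Type} [CommRing R] [Algebra B R] (x : R) :
    aeval x (pp B p) = pol (fun i => algebraMap B R (p i)) x := by
  simp [pp, pol]

theorem aeval_dpp (p : Fin 7 → B) {R : Type} [CommRing R] [Algebra B R] (x : R) :
    aeval x (derivative (pp B p)) = dp (fun i => algebraMap B R (p i)) x := by
  have h : ∀ n : ℕ, algebraMap B R (n : B) = (n : R) := fun n => map_natCast _ n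
  have h2 := h 2
  have h3 := h 3
  have h4 := h 4
  have h5 := h 5
  push_cast at h2 h3 h4 h5
  simp [pp, pol, dp]
  simp only [h2, h3, h4, h5]
  ring

variable {f : Fin 7 → B}

theorem xx_xi : xx f * xi f = 1 := Units.mul_inv _

/-- The Bezout identities in `A₁₂`. -/
theorem bez1 {A C₁ : B[X]} (h : Bez f A C₁) :
    aeval (xx f) A * pol (fun i => algebraMap B (A12 B f) (f i)) (xx f) +
      aeval (xx f) C₁ * dp (fun i => algebraMap B (A12 B f) (f i)) (xx f) = 1 := by
  have := congrArg (aeval (xx f)) h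
  rwa [map_add, map_mul, map_mul, aeval_pp, aeval_dpp, map_one] at this

theorem bez2 {A' C₁' : B[X]} (h : Bez (rev f) A' C₁') :
    aeval (xi f) A' * (xi f ^ 6 * pol (fun i => algebraMap B (A12 B f) (f i)) (xx f)) +
      aeval (xi f) C₁' * (6 * xi f ^ 5 * pol (fun i => algebraMap B (A12 B f) (f i)) (xx f) -
        xi f ^ 4 * dp (fun i => algebraMap B (A12 B f) (f i)) (xx f)) = 1 := by
  have h1 := congrArg (aeval (xi f)) h
  rw [map_add, map_mul, map_mul, aeval_pp, aeval_dpp, map_one] at h1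
  have e1 : (fun i => algebraMap B (A12 B f) (rev f i)) =
      rev (fun i => algebraMap B (A12 B f) (f i)) := rfl
  rw [e1, pol_rev' _ _ _ xx_xi, dp_rev _ _ _ xx_xi] at h1
  exact h1

end

/-! ### Derivations -/

section der

variable {B R R' : Type} [CommRing B] [CommRing R] [CommRing R'] {c : B →+* R}
  {r : R →+* R'} {δ : R → R'}

theorem pow (h : DerA c r δ) (v : R) (n : ℕ) : δ (v ^ (n + 1)) = (n + 1) * r v ^ n * δ v := by
  induction n with
  | zero => simp
  | succ n ih =>
    rw [pow_succ, h.mul, ih, map_pow]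
    push_cast
    ring

theorem der_pol (h : DerA c r δ) (g : Fin 7 → R) (x : R) :
    δ (pol g x) = dp (fun i => r (g i)) (r x) * δ x + pol (fun i => δ (g i)) (r x) := by
  have h2 := pow h x 1
  have h3 := pow h x 2
  have h4 := pow h x 3
  have h5 := pow h x 4
  have h6 := pow h x 5
  norm_num at h2 h3 h4 h5 h6
  simp only [pol, h.add, h.mul, h2, h3, h4, h5, h6, dp, map_pow]
  ring

/-- The derivative of `1/x`. -/
theorem der_inv (h : DerA c r δ) {x u : R} (hxu : x * u = 1) : δ u = -(r u ^ 2) * δ x := by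
  have h1 : r x * δ u + r u * δ x = 0 := by
    rw [← h.mul, hxu, h.one]
  have h2 : r x * r u = 1 := by rw [← map_mul, hxu, map_one]
  linear_combination r u * h1 - δ u * h2

theorem der_v (h : DerA c r δ) {x u : R} (hxu : x * u = 1) (y : R) :
    δ (y * u ^ 3) = r u ^ 3 * δ y - 3 * r y * r u ^ 4 * δ x := by
  have h3 := pow h u 2
  norm_num at h3
  rw [h.mul, h3, der_inv h hxu, map_pow]
  ring

end der

section omd

variable {B B' : Type} [CommRing B] [CommRing B'] {f : Fin 7 → B} {f' : Fin 7 → B'}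

/-- The difference in terms of `D x` and `D y`. -/
theorem omd_eq (A C₁ A' C₁' : B[X]) {B₀ : Type} [CommRing B₀] {c : B₀ →+* A12 B' f'} (φ : B' →+* B)
    (hf : ∀ i, f i = φ (f' i)) (D : A12 B' f' → A12 B f) (hD : DerA c (bc12 φ hf) D) :
    omd f f' A C₁ A' C₁' D = W (yv B f) (xi f) (aeval (xx f) A) (aeval (xx f) C₁)
      (aeval (xi f) A') (aeval (xi f) C₁') (D (xx f')) (D (yv B' f')) := by
  have e1 : D (xi f') = -(xi f ^ 2) * D (xx f') := by
    rw [der_inv hD (xx_xi (f := f')), bc12_xi]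
  have e2 : D (yv B' f' * xi f' ^ 3) = xi f ^ 3 * D (yv B' f') - 3 * yv B f * xi f ^ 4 *
      D (xx f') := by
    rw [der_v hD (xx_xi (f := f')), bc12_xi, bc12_y]
  rw [omd, W, e1, e2]

end omd

end CFV

open _root_.Pool.Agent.MG.H2.CFV

theorem t_CFI : Stmt_CFI := by
  intro B _ f A C₁ A' C₁' h1 h2 B' _ φ f' hf D hD
  rw [omd_eq A C₁ A' C₁' φ hf D hD]
  refine W_zero _ _ _ _ _ _ _ _ _ _ (rel12 B f) (bez1 h1) (bez2 h2) ?_
  have h3 := congrArg D (rel12 B' f')
  have h4 := pow hD (yv B' f') 1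
  norm_num at h4
  rw [h4, der_pol hD] at h3
  have e1 : (fun i => D (algebraMap B' (A12 B' f') (f' i))) = fun _ => 0 :=
    funext fun i => hD.const _
  have e2 : (fun i => bc12 φ hf (algebraMap B' (A12 B' f') (f' i))) =
      fun i => algebraMap B (A12 B f) (f i) := funext fun i => by
    rw [bc12_b, ← hf i]
  rw [e1, e2] at h3
  have e3 : pol (fun _ => (0 : A12 B f)) (bc12 φ hf (xu B' f' : A12 B' f')) = 0 := by
    simp [pol]
  rw [e3, add_zero, bc12_x] at h3
  exact h3

namespace CFV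

section

variable {B : Type} [CommRing B] {f : Fin 7 → B}

theorem cf_y {k : ℤ} (hk : 0 < k) : cf k (yv B f) = 0 := by
  have := cf_aeval_y (f := f) 1 k
  rw [map_one, one_mul, if_pos hk.le, coeff_one, if_neg (by omega)] at this
  exact this

theorem cf_aeval_xi_y (p : B[X]) {j : ℤ} (hj : 0 < j) : cf j (aeval (xi f) p * yv B f) = 0 := by
  induction p using Polynomial.induction_on' with
  | add p q hp hq => rw [map_add, add_mul, map_add, hp, hq, add_zero]
  | monomial n a =>
    rw [aeval_monomial, mul_assoc, cf_b, cf_xipow, cf_y (by omega), mul_zero]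

end

end CFV

theorem t_CFV : Stmt_CFV := by
  intro B _ f r G hG f' hf' hf A C₁ A' C₁' h1 h2 hu2 D hD hD1 j hj
  obtain ⟨h, hh⟩ := hu2.exists_right_inv
  rw [omd_eq A C₁ A' C₁' (eps0 B) hf D hD]
  set y := yv B f with hy
  set x := xx f with hx
  set u := xi f with hu
  set Ax := aeval x A with hAx
  set Cx := aeval x C₁ with hCx
  set Au := aeval u A' with hAu
  set Cu := aeval u C₁' with hCu
  set F := pol (fun i => algebraMap B (A12 B f) (f i)) x with hF
  set F' := dp (fun i => algebraMap B (A12 B f) (f i)) x with hF'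
  set g := aeval x G with hg
  set a := D (xx f') with ha
  set b := D (yv (Eps B) f') with hb
  have hyF : y ^ 2 = F := rel12 B f
  have hb1 : Ax * F + Cx * F' = 1 := bez1 h1
  have hb2 : Au * (u ^ 6 * F) + Cu * (6 * u ^ 5 * F - u ^ 4 * F') = 1 := bez2 h2
  -- the degree of `G`
  have hdeg : G.natDegree < 7 := by
    by_contra hcon
    push Not at hcon
    have h3 : (pp B f).natDegree ≤ 6 := by
      rw [pp, pol]
      compute_degree
    rw [hG] at h3
    have hG0 : G ≠ 0 := by
      rintro rfl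
      simp at hcon
    have hnt : Nontrivial B := by
      have : Nontrivial B[X] := ⟨⟨G, 0, hG0⟩⟩
      exact Polynomial.nontrivial_iff.1 this
    rw [(monic_X_sub_C r).natDegree_mul' hG0, natDegree_X_sub_C] at h3
    omega
  have hgpol : pol (fun i : Fin 7 => algebraMap B (A12 B f) (G.coeff i)) x = g := by
    rw [hg, aeval_eq_sum_range' hdeg]
    simp only [pol, Finset.sum_range_succ, Finset.sum_range_zero, Algebra.smul_def]
    simp
  -- the relation between `a` and `b`
  have hab : 2 * y * b = F' * a - g := by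
    have h3 := congrArg D (rel12 (Eps B) f')
    have h4 := pow hD (yv (Eps B) f') 1
    norm_num at h4
    rw [h4, der_pol hD] at h3
    have e1 : (fun i => D (algebraMap (Eps B) (A12 (Eps B) f') (f' i))) =
        fun i : Fin 7 => -(algebraMap B (A12 B f) (G.coeff i)) := by
      funext i
      have e3 : (TrivSqZeroExt.inr (G.coeff i) : Eps B) =
          TrivSqZeroExt.inl (G.coeff i) * TrivSqZeroExt.inr 1 := by
        rw [TrivSqZeroExt.inl_mul_inr, smul_eq_mul, mul_one]
      have e4 : D (algebraMap (Eps B) (A12 (Eps B) f') (TrivSqZeroExt.inl (G.coeff i))) = 0 :=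
        hD.const _
      have e5 : D (algebraMap (Eps B) (A12 (Eps B) f') (TrivSqZeroExt.inl (f i))) = 0 :=
        hD.const _
      rw [hf' i, map_sub, hD.sub, e5, e3, map_mul, hD.mul, hD1, e4, mul_zero, add_zero, mul_one,
        bc12_b, zero_sub]
      rfl
    have e2 : (fun i => bc12 (eps0 B) hf (algebraMap (Eps B) (A12 (Eps B) f') (f' i))) =
        fun i => algebraMap B (A12 B f) (f i) := funext fun i => by
      rw [bc12_b, ← hf i]
    rw [e1, e2, bc12_x] at h3
    have e6 : pol (fun i : Fin 7 => -(algebraMap B (A12 B f) (G.coeff i))) (xu B f : A12 B f) =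
        -g := by
      rw [← hgpol]
      simp only [pol]
      ring
    rw [e6] at h3
    rw [sub_eq_add_neg]
    exact h3
  have hFg : F = (x - algebraMap B (A12 B f) r) * g := by
    have h3 := congrArg (aeval x) hG
    rw [CFV.aeval_pp, map_mul, map_sub, aeval_X, aeval_C] at h3
    exact h3
  have hh' : (2 : A12 B f) * algebraMap B (A12 B f) h = 1 := by
    have := congrArg (algebraMap B (A12 B f)) hh
    rwa [map_mul, map_ofNat, map_one] at this
  set L := g * (Au * Cx * u ^ 6 + Cu * Ax * u ^ 4 + 6 * Cu * Cx * u ^ 5) with hL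
  have key : W y u Ax Cx Au Cu a b = -(L * y) := by
    have h3 := W_zero y u Ax Cx Au Cu (a - Cx * g) (b + algebraMap B (A12 B f) h * (Ax * g * y)) F F'
      hyF hb1 hb2 (by
        linear_combination hab + (Ax * g) * hyF + y * (Ax * g * y) * hh' + g * hb1)
    simp only [W] at h3 ⊢
    rw [hL]
    linear_combination h3 - (Cx + Cu * u ^ 4) * (Ax * g * y) * hh'
  have hLrel : (x - algebraMap B (A12 B f) r) * (L * y) = Cx * y + u ^ 4 * (Cu * y) := by
    rw [hL]
    linear_combination (-(y * (Au * Cx * u ^ 6 + Cu * Ax * u ^ 4 + 6 * Cu * Cx * u ^ 5))) * hFg +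
      (Cx * y) * hb2 + (Cu * u ^ 4 * y) * hb1
  rw [key, map_neg]
  congr 1
  -- the recursion
  have hrec : ∀ i : ℤ, -3 ≤ i → cf (i - 1) (L * y) - r * cf i (L * y) =
      if 0 ≤ i then C₁.coeff i.toNat else 0 := by
    intro i hi
    have h3 := congrArg (cf i) hLrel
    rw [sub_mul, map_sub, map_add, cf_x, cf_b, cf_xipow, cf_aeval_y,
      cf_aeval_xi_y _ (by push_cast; omega), add_zero] at h3
    exact h3
  have hsum : ∀ N : ℕ, cf (-1) (L * y) = ∑ i ∈ Finset.range N, r ^ i * C₁.coeff i +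
      r ^ N * cf ((N : ℤ) - 1) (L * y) := by
    intro N
    induction N with
    | zero => simp
    | succ N ih =>
      have h3 := hrec (N : ℤ) (by omega)
      rw [if_pos (by omega), Int.toNat_natCast] at h3
      rw [Finset.sum_range_succ, ih]
      have h4 : (((N + 1 : ℕ) : ℤ) - 1) = (N : ℤ) := by push_cast; ring
      rw [h4]
      linear_combination r ^ N * h3
  have h0 : cf (-1) (L * y) = C₁.eval r := by
    obtain ⟨M, hM, hfin⟩ := cf_fin (L * y)
    set N := M.toNat + C₁.natDegree + 2 with hN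
    have h3 := (hfin ((N : ℤ) - 1) (by
      rw [abs_of_nonneg (by omega)]
      omega)).1
    rw [hsum N, h3, mul_zero, add_zero, eval_eq_sum_range' (show C₁.natDegree < N by omega)]
    exact Finset.sum_congr rfl fun i _ => mul_comm _ _
  have h1' : cf (-2) (L * y) = r * cf (-1) (L * y) := by
    have h3 := hrec (-1) (by norm_num)
    norm_num at h3
    linear_combination h3
  have h2' : cf (-3) (L * y) = r * cf (-2) (L * y) := by
    have h3 := hrec (-2) (by norm_num)
    norm_num at h3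
    linear_combination h3
  have h3' : cf (-4) (L * y) = r * cf (-3) (L * y) := by
    have h3 := hrec (-3) (by norm_num)
    norm_num at h3
    linear_combination h3
  interval_cases j
  · norm_num
    exact h0
  · norm_num
    rw [h1', h0]
  · norm_num
    rw [h2', h1', h0]
    ring
  · norm_num
    rw [h3', h2', h1', h0]
    ring

end Pool.Agent.MG.H2


end
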