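import Mathlib.AlgebraicGeometry.RelativeGluing
import Pool.Agent.KDM.C08
import Pool.Agent.KDM.C100
import Pool.Agent.KDM.C101
import Pool.Agent.KDM.C102
import Pool.Agent.KDM.C45
import Pool.Agent.KDM.C54
import Pool.Agent.KDM.C55
import Pool.Agent.KDM.C58
import Pool.Agent.KDM.C59
import Pool.Agent.KDM.C60
import Pool.Agent.KDM.C62
import Pool.Agent.KDM.C63
import Pool.Agent.KDM.C64
import Pool.Agent.KDM.C65
import Pool.Agent.KDM.C66
import Pool.Agent.KDM.C71
import Pool.Agent.KDM.C77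
import Pool.Agent.KDM.C78
import Pool.Agent.KDM.C80
import Pool.Agent.KDM.C81
import Pool.Agent.KDM.C82
import Pool.Agent.KDM.C96
import Pool.Agent.KDM.C99

/-! Parts: MG.WL.CL.GSP, MG.WL.CL.CNT0, MG.WL.CL.AFC, MG.WL.CL.CHT, MG.WL.CL.TRS, MG.WL.CL.T, MG.WL.DEI, MG.WL.EX, MG.WL.LCB, MG.WL.FIN.FGF, MG.WL.GLD, MG.WL.LFB, MG.WL.LOE, MG.WL.REL, MG.WL.TRL, MG.Fin1b -/

section

/-!
# GSP: primes of local rings and generisations
-/

open CategoryTheory AlgebraicGeometry IsLocalRing TopologicalSpace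
open Pool.Agent.MG.Two Pool.Agent.MG.W Pool.Agent.MG.W.W0 Pool.Agent.MG.One

namespace Pool.Agent.MG.WL.CL

namespace GSP_

/-- The prime of the local ring at `x` of a generisation `y` of `x`. -/
theorem map_pt {X : Scheme.{0}} {x y : X} (h : y ⤳ x) :
    X.fromSpecStalk x
      ((Spec.map (X.presheaf.stalkSpecializes h)) (closedPoint (X.presheaf.stalk y))) = y := by
  have h1 := Scheme.fromSpecStalk_closedPoint (x := y)
  rw [← Scheme.SpecMap_stalkSpecializes_fromSpecStalk h] at h1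
  exact h1

theorem pt_ideal {X : Scheme.{0}} {x y : X} (h : y ⤳ x) :
    PrimeSpectrum.asIdeal
      ((Spec.map (X.presheaf.stalkSpecializes h)) (closedPoint (X.presheaf.stalk y))) =
    (maximalIdeal (X.presheaf.stalk y)).comap (X.presheaf.stalkSpecializes h).hom := rfl

end GSP_

open _root_.Pool.Agent.MG.WL.CL.GSP_

theorem t_GSP : Stmt_GSP := by
  intro X x
  refine ⟨?_, ?_, ?_⟩
  · intro P hP
    let p : Spec (X.presheaf.stalk x) := (⟨P, hP⟩ : PrimeSpectrum (X.presheaf.stalk x))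
    have hy : X.fromSpecStalk x p ∈ Set.range (X.fromSpecStalk x) := ⟨p, rfl⟩
    rw [Scheme.range_fromSpecStalk] at hy
    refine ⟨X.fromSpecStalk x p, hy, ?_⟩
    have h1 := map_pt (X := X) (x := x) hy
    have h2 := (X.fromSpecStalk x).isEmbedding.injective h1
    rw [← pt_ideal, h2]
  · intro y y' h h'
    rw [← pt_ideal, ← pt_ideal]
    have h1 := map_pt (X := X) h
    have h2 := map_pt (X := X) h'
    have h3 := (X.fromSpecStalk x).isEmbedding.isInducing.specializes_iff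
      (x := (Spec.map (X.presheaf.stalkSpecializes h)) (closedPoint (X.presheaf.stalk y)))
      (y := (Spec.map (X.presheaf.stalkSpecializes h')) (closedPoint (X.presheaf.stalk y')))
    rw [h1, h2] at h3
    rw [h3]
    exact PrimeSpectrum.le_iff_specializes _ _
  · intro h
    rw [TopCat.Presheaf.stalkSpecializes_refl]
    rfl

end Pool.Agent.MG.WL.CL


end

section

/-!
# CNT0: the linear algebra of the Čech complexes
-/

namespace Pool.Agent.MG.WL.CL

namespace CNT0_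

/-- The rank of a map which kills the vector `(1, ..., 1)`. -/
theorem rank_le {k : Type} [Field k] {I D : Type} [Fintype I] [Fintype D] [Nonempty I]
    (φ : (I → k) →ₗ[k] (D → k)) (h : φ (fun _ => 1) = 0) :
    Module.finrank k (LinearMap.range φ) + 1 ≤ Fintype.card I := by
  have h1 := LinearMap.finrank_range_add_finrank_ker φ
  rw [Module.finrank_fintype_fun_eq_card] at h1
  have h2 : 1 ≤ Module.finrank k (LinearMap.ker φ) := by
    rw [Nat.one_le_iff_ne_zero]
    intro h3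
    have h4 : LinearMap.ker φ = ⊥ := Submodule.finrank_eq_zero.1 h3
    have h5 : (fun _ : I => (1 : k)) ∈ LinearMap.ker φ := h
    rw [h4, Submodule.mem_bot] at h5
    obtain ⟨i⟩ := ‹Nonempty I›
    exact one_ne_zero (congrFun h5 i)
  omega

theorem card_le {k : Type} [Field k] {I D : Type} [Fintype I] [Fintype D] [Nonempty I]
    (φ : (I → k) →ₗ[k] (D → k)) (h : φ (fun _ => 1) = 0) (W : Submodule k (D → k))
    (hW : ∀ v, v ∈ LinearMap.range φ ⊔ W) :
    Fintype.card D + 1 ≤ Fintype.card I + Module.finrank k W := by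
  have h1 := rank_le φ h
  have h2 : LinearMap.range φ ⊔ W = ⊤ := eq_top_iff.2 fun v _ => hW v
  have h3 := Submodule.finrank_add_le_finrank_add_finrank (LinearMap.range φ) W
  rw [h2, finrank_top, Module.finrank_fintype_fun_eq_card] at h3
  omega

end CNT0_

theorem t_CNT0 : Stmt_CNT0 := by
  classical
  intro k _ I D _ _ _ RU RV RW _ _ _ _ _ _ MU MV MW _ _ _ _ _ _ ρU ρV rU rV iU iV iW L PU PV
    δU δV δW oneU oneV h1 h2 hLs hLk hcov hδU hδV hδW surjU surjV compU compV exW injW h0 hone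
  -- `I` is not empty
  have hI : Nonempty I := by
    by_contra hI
    rw [not_nonempty_iff] at hI
    obtain ⟨s, hs⟩ := hLs 1
    rw [injW s fun i => (hI.false i).elim, map_zero] at hs
    exact zero_ne_one hs
  -- the values
  let δ : ((∀ i, MU i) × (∀ i, MV i)) →ₗ[k] (D → k) := LinearMap.pi fun d =>
    if PU d then (δU d).comp (LinearMap.fst k _ _) else (δV d).comp (LinearMap.snd k _ _)
  have hδ1 : ∀ m n d, PU d → δ (m, n) d = δU d m := by
    intro m n d hd
    simp only [δ, LinearMap.pi_apply, if_pos hd]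
    rfl
  have hδ2 : ∀ m n d, ¬ PU d → δ (m, n) d = δV d n := by
    intro m n d hd
    simp only [δ, LinearMap.pi_apply, if_neg hd]
    rfl
  let E : (I → k) →ₗ[k] ((∀ i, MU i) × (∀ i, MV i)) :=
    LinearMap.prod (LinearMap.pi fun i => (LinearMap.proj i).smulRight (iU i oneU))
      (LinearMap.pi fun i => (LinearMap.proj i).smulRight (iV i oneV))
  have hE : ∀ c, E c = (fun i => c i • iU i oneU, fun i => c i • iV i oneV) := fun c => rfl
  -- the constants
  have hone' : (δ.comp E) (fun _ => 1) = 0 := by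
    rw [LinearMap.comp_apply, hE]
    funext d
    by_cases hd : PU d
    · rw [hδ1 _ _ _ hd]
      simp only [one_smul]
      exact hδU oneU d hd
    · rw [hδ2 _ _ _ hd]
      simp only [one_smul]
      exact hδV oneV d ((hcov d).resolve_left hd)
  -- every vector is the vector of values of an element of `T`
  have hsurj : ∀ c : D → k, ∃ (m : ∀ i, MU i) (n : ∀ i, MV i) (s : RW),
      (∀ i, rU i (m i) - rV i (n i) = iW i s) ∧ δ (m, n) = c := by
    intro c
    obtain ⟨m, hm⟩ := surjU c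
    obtain ⟨n, hn⟩ := surjV c
    obtain ⟨s, hs⟩ := exW (fun i => rU i (m i) - rV i (n i)) (by
      intro d hd hd'
      have e : (fun i => rU i (m i) - rV i (n i)) =
          (fun i => rU i (m i)) - fun i => rV i (n i) := rfl
      rw [e, map_sub, compU d m hd hd', compV d n hd hd', hm d hd, hn d hd', sub_self])
    refine ⟨m, n, s, fun i => (hs i).symm, ?_⟩
    funext d
    by_cases hd : PU d
    · rw [hδ1 _ _ _ hd, hm d hd]
    · rw [hδ2 _ _ _ hd, hn d ((hcov d).resolve_left hd)]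
  -- the kernel of `L`
  have hker : ∀ (m : ∀ i, MU i) (n : ∀ i, MV i) (s : RW),
      (∀ i, rU i (m i) - rV i (n i) = iW i s) → L s = 0 →
      δ (m, n) ∈ LinearMap.range (δ.comp E) := by
    intro m n s hs hL
    obtain ⟨a, b, hab⟩ := (hLk s).1 hL
    have h3 : ∀ i, ∃ c : k, m i - iU i a = c • iU i oneU ∧ n i + iV i b = c • iV i oneV := by
      intro i
      apply h0
      rw [map_sub, map_add, h1, h2]
      have e := hs i
      rw [hab, map_add] at e
      have e2 : rU i (m i) = iW i (ρU a) + iW i (ρV b) + rV i (n i) := by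
        rw [← e]
        abel
      rw [e2]
      abel
    choose c hc1 hc2 using h3
    refine ⟨c, ?_⟩
    rw [LinearMap.comp_apply, hE]
    have e1 : (fun i => c i • iU i oneU) = m - fun i => iU i a := by
      funext i
      rw [← hc1]
      rfl
    have e2 : (fun i => c i • iV i oneV) = n + fun i => iV i b := by
      funext i
      rw [← hc2]
      rfl
    rw [e1, e2]
    funext d
    by_cases hd : PU d
    · rw [hδ1 _ _ _ hd, hδ1 _ _ _ hd, map_sub, hδU a d hd, sub_zero]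
    · rw [hδ2 _ _ _ hd, hδ2 _ _ _ hd, map_add, hδV b d ((hcov d).resolve_left hd), add_zero]
  -- decomposition of the elements of `∏ MW`
  have hdec : ∀ m : ∀ i, MW i, ∃ (a : RW) (u : ∀ i, MU i), ∀ i, m i = iW i a + rU i (u i) := by
    intro m
    obtain ⟨u, hu⟩ := surjU fun d => δW d m
    obtain ⟨a, ha⟩ := exW (fun i => m i - rU i (u i)) (by
      intro d hd hd'
      have e : (fun i => m i - rU i (u i)) = m - fun i => rU i (u i) := rfl
      rw [e, map_sub, compU d u hd hd', hu d hd, sub_self])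
    exact ⟨a, u, fun i => by rw [ha i]; abel⟩
  by_cases hB : {i : I | ¬ ∀ s : MW i, ∃ a b, s = rU i a + rV i b} = ∅
  · rw [hB, Set.ncard_empty, add_zero]
    -- the case without bad components
    by_cases hΛ : ∀ (m : ∀ i, MU i) (n : ∀ i, MV i) (s : RW),
        (∀ i, rU i (m i) - rV i (n i) = iW i s) → L s = 0
    · have h3 := CNT0_.card_le (δ.comp E) hone' ⊥ (by
        intro v
        obtain ⟨m, n, s, hs, rfl⟩ := hsurj v
        exact Submodule.mem_sup_left (hker m n s hs (hΛ m n s hs)))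
      rw [finrank_bot] at h3
      omega
    · push Not at hΛ
      obtain ⟨m₀, n₀, s₀, hs₀, hL₀⟩ := hΛ
      have h3 := CNT0_.card_le (δ.comp E) hone' (Submodule.span k {δ (m₀, n₀)}) (by
        intro v
        obtain ⟨m, n, s, hs, rfl⟩ := hsurj v
        have h4 := hker (m - (L s / L s₀) • m₀) (n - (L s / L s₀) • n₀)
          (s - (L s / L s₀) • s₀) (by
            intro i
            have e1 : (m - (L s / L s₀) • m₀) i = m i - (L s / L s₀) • m₀ i := rfl
            have e2 : (n - (L s / L s₀) • n₀) i = n i - (L s / L s₀) • n₀ i := rfl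
            rw [e1, e2, map_sub, map_sub, map_sub, map_smul, map_smul, map_smul, ← hs i, ← hs₀ i,
              smul_sub]
            abel) (by
            rw [map_sub, map_smul, smul_eq_mul, div_mul_cancel₀ _ hL₀, sub_self])
        have e : δ (m, n) = δ (m - (L s / L s₀) • m₀, n - (L s / L s₀) • n₀) +
            (L s / L s₀) • δ (m₀, n₀) := by
          rw [← map_smul, ← map_add]
          congr 1
          ext1
          · simp
          · simp
        rw [e]
        exact Submodule.add_mem _ (Submodule.mem_sup_left h4) (Submodule.mem_sup_right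
          (Submodule.smul_mem _ _ (Submodule.mem_span_singleton_self _))))
      have h5 : Module.finrank k (Submodule.span k {δ (m₀, n₀)}) ≤ 1 :=
        (finrank_span_le_card _).trans (by simp)
      omega
  · -- bad components
    obtain ⟨i₀, hi₀⟩ := Set.nonempty_iff_ne_empty.2 hB
    have hi₀' : ¬ ∀ s : MW i₀, ∃ a b, s = rU i₀ a + rV i₀ b := hi₀
    push Not at hi₀'
    obtain ⟨s₀, hs₀⟩ := hi₀'
    obtain ⟨a₀, u₀, hau⟩ := hdec (Pi.single i₀ s₀)
    have hsum : ∀ (i : I) (a : RW), L a = 0 → ∃ x y, iW i a = rU i x + rV i y := by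
      intro i a ha
      obtain ⟨x, y, rfl⟩ := (hLk a).1 ha
      exact ⟨iU i x, iV i y, by rw [map_add, h1, h2]⟩
    have he₀ : s₀ = iW i₀ a₀ + rU i₀ (u₀ i₀) := by
      rw [← hau i₀, Pi.single_eq_same]
    have hL₀ : L a₀ ≠ 0 := by
      intro hL
      obtain ⟨x, y, hxy⟩ := hsum i₀ a₀ hL
      refine hs₀ (x + u₀ i₀) y ?_
      rw [he₀, hxy, map_add]
      abel
    -- there is only one
    have hone1 : {i : I | ¬ ∀ s : MW i, ∃ a b, s = rU i a + rV i b} ⊆ {i₀} := by
      intro i₁ hi₁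
      by_contra hne
      rw [Set.mem_singleton_iff] at hne
      have hi₁' : ¬ ∀ s : MW i₁, ∃ a b, s = rU i₁ a + rV i₁ b := hi₁
      push Not at hi₁'
      obtain ⟨s₁, hs₁⟩ := hi₁'
      obtain ⟨a₁, u₁, hau₁⟩ := hdec (Pi.single i₁ s₁)
      have he₁ : s₁ = iW i₁ a₁ + rU i₁ (u₁ i₁) := by
        rw [← hau₁ i₁, Pi.single_eq_same]
      have he₂ : 0 = iW i₁ a₀ + rU i₁ (u₀ i₁) := by
        rw [← hau i₁, Pi.single_eq_of_ne hne]
      obtain ⟨x, y, hxy⟩ := hsum i₁ (a₁ - (L a₁ / L a₀) • a₀) (by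
        rw [map_sub, map_smul, smul_eq_mul, div_mul_cancel₀ _ hL₀, sub_self])
      refine hs₁ (x - (L a₁ / L a₀) • u₀ i₁ + u₁ i₁) y ?_
      have he₃ : iW i₁ a₀ = - rU i₁ (u₀ i₁) := eq_neg_of_add_eq_zero_left he₂.symm
      have he₄ : iW i₁ a₁ = rU i₁ x + rV i₁ y + (L a₁ / L a₀) • iW i₁ a₀ := by
        rw [← hxy, map_sub, map_smul]
        abel
      rw [he₁, he₄, he₃, map_add, map_sub, map_smul, smul_neg]
      abel
    have hcard : {i : I | ¬ ∀ s : MW i, ∃ a b, s = rU i a + rV i b}.ncard ≤ 1 := by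
      have := Set.ncard_le_ncard hone1
      rwa [Set.ncard_singleton] at this
    have h3 := CNT0_.card_le (δ.comp E) hone' ⊥ (by
      intro v
      obtain ⟨m, n, s, hs, rfl⟩ := hsurj v
      refine Submodule.mem_sup_left (hker m n s hs ?_)
      by_contra hLs'
      obtain ⟨x, y, hxy⟩ := hsum i₀ (a₀ - (L a₀ / L s) • s) (by
        rw [map_sub, map_smul, smul_eq_mul, div_mul_cancel₀ _ hLs', sub_self])
      refine hs₀ (x + (L a₀ / L s) • m i₀ + u₀ i₀) (y - (L a₀ / L s) • n i₀) ?_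
      have he₄ : iW i₀ a₀ = rU i₀ x + rV i₀ y + (L a₀ / L s) • iW i₀ s := by
        rw [← hxy, map_sub, map_smul]
        abel
      rw [he₀, he₄, ← hs i₀, map_add, map_add, map_sub, map_smul, map_smul, smul_sub]
      abel)
    rw [finrank_bot] at h3
    omega

end Pool.Agent.MG.WL.CL


end

section

/-!
# AFC: the complement of a principal point in an affine open set is affine
-/

open CategoryTheory AlgebraicGeometry TopologicalSpace

namespace Pool.Agent.MG.WL.CL

namespace AFC_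

/-- Locally the complement of the point is affine. -/
theorem loc {X : Scheme.{0}} {p : X} (c : Cht p) {V V' : X.Opens} (hV : IsAffineOpen V)
    (h : ∀ x, x ∈ V' ↔ x ∈ V ∧ x ≠ p) (x : X) (hx : x ∈ V) :
    ∃ f : Γ(X, V), x ∈ X.basicOpen f ∧ IsAffineOpen (V' ⊓ X.basicOpen f) := by
  by_cases hp : x = p
  · subst hp
    have hx' : x ∈ (V ⊓ c.N : X.Opens) := ⟨hx, c.mem⟩
    obtain ⟨f, hf, hxf⟩ := hV.exists_basicOpen_le (V := V ⊓ c.N) ⟨x, hx'⟩ hx
    refine ⟨f, hxf, ?_⟩
    have hfN : X.basicOpen f ≤ c.N := hf.trans inf_le_right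
    have e : V' ⊓ X.basicOpen f =
        X.basicOpen (X.presheaf.map (homOfLE hfN).op c.z) := by
      rw [Scheme.basicOpen_res]
      ext y
      constructor
      · rintro ⟨h1, h2⟩
        exact ⟨h2, (c.bas y (hfN h2)).mpr ((h y).mp h1).2⟩
      · rintro ⟨h1, h2⟩
        exact ⟨(h y).mpr ⟨X.basicOpen_le f h1, (c.bas y (hfN h1)).mp h2⟩, h1⟩
    rw [e]
    exact (hV.basicOpen f).basicOpen _
  · have hx' : x ∈ V' := (h x).mpr ⟨hx, hp⟩
    obtain ⟨f, hf, hxf⟩ := hV.exists_basicOpen_le (V := V') ⟨x, hx'⟩ hx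
    refine ⟨f, hxf, ?_⟩
    rw [inf_eq_right.mpr hf]
    exact hV.basicOpen f

end AFC_

theorem t_AFC : Stmt_AFC := by
  intro X p c V V' hV h
  have hle : V' ≤ V := fun x hx => ((h x).mp hx).1
  let s : Set Γ(X, V) := {f | IsAffineOpen (V' ⊓ X.basicOpen f)}
  have hs : Ideal.span s = ⊤ := by
    rw [← hV.self_le_iSup_basicOpen_iff]
    intro x hx
    obtain ⟨f, hxf, hf⟩ := AFC_.loc c hV h x hx
    exact Opens.mem_iSup.mpr ⟨⟨f, hf⟩, hxf⟩
  let r := (X.presheaf.map (homOfLE hle).op).hom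
  refine isAffineOpen_of_isAffineOpen_basicOpen V' (r '' s) ?_ ?_
  · rw [← Ideal.map_span r, hs, Ideal.map_top]
  · rintro _ ⟨f, hf, rfl⟩
    have e : X.basicOpen (r f) = V' ⊓ X.basicOpen f := Scheme.basicOpen_res X f (homOfLE hle).op
    rw [e]
    exact hf

end Pool.Agent.MG.WL.CL


end

section

/-!
# `M̄_{1,1}`, block `CL`: a coordinate at a regular closed point
-/

open CategoryTheory AlgebraicGeometry IsLocalRing TopologicalSpace
open Pool.Agent.MG.Two Pool.Agent.MG.W Pool.Agent.MG.W.W0 Pool.Agent.MG.One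

namespace Pool.Agent.MG.WL.CL

namespace CHT_

/-- If a finitely generated prime ideal is locally principal then it is so in a neighbourhood. -/
lemma exists_gen {A S : Type} [CommRing A] [CommRing S] [Algebra A S] (P : Ideal A)
    [hP : P.IsPrime] [IsLocalization.AtPrime S P] (hfg : P.FG)
    (hpr : (P.map (algebraMap A S)).IsPrincipal) :
    ∃ a ∈ P, ∃ s, s ∉ P ∧ ∀ r ∈ P, ∃ c, s * r = a * c := by
  classical
  obtain ⟨t, ht⟩ := hpr.principal
  have ht1 : t ∈ P.map (algebraMap A S) := by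
    rw [ht]
    exact Submodule.mem_span_singleton_self t
  obtain ⟨⟨⟨a, ha⟩, ⟨u, hu⟩⟩, hau⟩ :=
    (IsLocalization.mem_map_algebraMap_iff P.primeCompl S).1 ht1
  have hau' : t * algebraMap A S u = algebraMap A S a := hau
  have key : ∀ r ∈ P, ∃ s, s ∉ P ∧ ∃ c, s * r = a * c := by
    intro r hr
    have h1 : algebraMap A S r ∈ P.map (algebraMap A S) := Ideal.mem_map_of_mem _ hr
    rw [ht] at h1
    obtain ⟨w, hw⟩ := Submodule.mem_span_singleton.1 h1
    obtain ⟨⟨b, ⟨v, hv⟩⟩, hbv⟩ := IsLocalization.surj P.primeCompl w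
    have hbv' : w * algebraMap A S v = algebraMap A S b := hbv
    have h2 : algebraMap A S (r * u * v) = algebraMap A S (a * b) := by
      rw [map_mul, map_mul, map_mul, ← hau', ← hbv', ← hw, smul_eq_mul]
      ring
    obtain ⟨⟨m, hm⟩, hm'⟩ := (IsLocalization.eq_iff_exists P.primeCompl S).1 h2
    have hm'' : m * (r * u * v) = m * (a * b) := hm'
    refine ⟨m * u * v, ?_, m * b, ?_⟩
    · intro h3
      rcases hP.mem_or_mem h3 with h4 | h4
      · rcases hP.mem_or_mem h4 with h5 | h5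
        · exact hm h5
        · exact hu h5
      · exact hv h4
    · calc m * u * v * r = m * (r * u * v) := by ring
        _ = m * (a * b) := hm''
        _ = a * (m * b) := by ring
  choose! f hf1 hf2 using key
  obtain ⟨T, hT⟩ := hfg
  refine ⟨a, ha, ∏ r ∈ T, f r, ?_, ?_⟩
  · intro h1
    obtain ⟨r, hr, hr'⟩ := hP.prod_mem_iff.1 h1
    refine hf1 r ?_ hr'
    rw [← hT]
    exact Submodule.subset_span hr
  · intro r hr
    rw [← hT] at hr
    induction hr using Submodule.span_induction with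
    | mem r hr =>
      have hrP : r ∈ P := by
        rw [← hT]
        exact Submodule.subset_span hr
      obtain ⟨c, hc⟩ := hf2 r hrP
      refine ⟨(∏ x ∈ T.erase r, f x) * c, ?_⟩
      rw [← Finset.mul_prod_erase T f hr]
      calc f r * (∏ x ∈ T.erase r, f x) * r = (∏ x ∈ T.erase r, f x) * (f r * r) := by ring
        _ = (∏ x ∈ T.erase r, f x) * (a * c) := by rw [hc]
        _ = a * ((∏ x ∈ T.erase r, f x) * c) := by ring
    | zero => exact ⟨0, by simp⟩
    | add x y _ _ h1 h2 =>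
      obtain ⟨c, hc⟩ := h1
      obtain ⟨d, hd⟩ := h2
      exact ⟨c + d, by rw [mul_add, hc, hd, mul_add]⟩
    | smul b x _ h1 =>
      obtain ⟨c, hc⟩ := h1
      refine ⟨b * c, ?_⟩
      rw [smul_eq_mul]
      calc (∏ r ∈ T, f r) * (b * x) = b * ((∏ r ∈ T, f r) * x) := by ring
        _ = b * (a * c) := by rw [hc]
        _ = a * (b * c) := by ring

/-- Prime ideals of an integral domain whose local ring has dimension at most one. -/
lemma eq_of_le_of_dim {A S : Type} [CommRing A] [IsDomain A] [CommRing S] [IsLocalRing S]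
    [Algebra A S] (P Q : Ideal A) [hP : P.IsPrime] [hQ : Q.IsPrime] [IsLocalization.AtPrime S Q]
    (hd : ∀ I : Ideal S, I.IsPrime → I = ⊥ ∨ I = maximalIdeal S) (h0 : P ≠ ⊥) (hPQ : P ≤ Q) :
    P = Q := by
  have hdis : Disjoint (Q.primeCompl : Set A) (P : Set A) := by
    rw [Set.disjoint_left]
    intro x hx hx'
    exact hx (hPQ hx')
  have h1 : (P.map (algebraMap A S)).IsPrime :=
    IsLocalization.isPrime_of_isPrime_disjoint Q.primeCompl S P hP hdis
  have h2 : (P.map (algebraMap A S)).comap (algebraMap A S) = P :=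
    IsLocalization.under_map_of_isPrime_disjoint Q.primeCompl S hP hdis
  rcases hd _ h1 with h3 | h3
  · exfalso
    apply h0
    rw [← h2, h3]
    have hinj : Function.Injective (algebraMap A S) :=
      IsLocalization.injective S Q.primeCompl_le_nonZeroDivisors
    exact (RingHom.injective_iff_ker_eq_bot _).1 hinj
  · rw [← h2, h3]
    exact IsLocalization.AtPrime.under_maximalIdeal S Q

variable {X : Scheme.{0}}

lemma eq_of_le [IsIntegral X] (hd : Dim1 X) {V : X.Opens} (hV : IsAffineOpen V) {p q : X}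
    (hp : p ∈ V) (hq : q ∈ V) (hgen : p ≠ genericPoint X)
    (hle : (hV.primeIdealOf ⟨p, hp⟩).asIdeal ≤ (hV.primeIdealOf ⟨q, hq⟩).asIdeal) : p = q := by
  have hne : Nonempty V := ⟨⟨p, hp⟩⟩
  let _ := TopCat.Presheaf.algebra_section_stalk X.presheaf ⟨q, hq⟩
  have hloc := hV.isLocalization_stalk ⟨q, hq⟩
  have h1 := eq_of_le_of_dim (S := X.presheaf.stalk q) (hV.primeIdealOf ⟨p, hp⟩).asIdeal
    (hV.primeIdealOf ⟨q, hq⟩).asIdeal (hd q) (primeIdealOf_ne_bot hV p hp hgen) hle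
  have h2 := primeIdealOf_injective hV (PrimeSpectrum.ext h1)
  exact congrArg Subtype.val h2

end CHT_

open _root_.Pool.Agent.MG.WL.CL.CHT_ in
theorem t_CHT : Stmt_CHT := by
  intro k _ X π _ _ hd p hgen hpir W hpW
  obtain ⟨V, hV, hpV, hVW⟩ := exists_isAffineOpen_mem_and_subset hpW
  let _ := TopCat.Presheaf.algebra_section_stalk X.presheaf ⟨p, hpV⟩
  have hloc := hV.isLocalization_stalk ⟨p, hpV⟩
  have hnoe := noetherian_sections π hV
  set P := (hV.primeIdealOf ⟨p, hpV⟩).asIdeal with hPdef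
  obtain ⟨a, ha, s, hs, hgens⟩ := exists_gen (S := X.presheaf.stalk p) P
    ((isNoetherianRing_iff_ideal_fg _).1 hnoe P) (hpir.principal _)
  rw [hPdef, mem_primeIdealOf_iff] at ha hs
  rw [not_not] at hs
  have hNle : X.basicOpen s ≤ V := X.basicOpen_le s
  have hN : IsAffineOpen (X.basicOpen s) := hV.basicOpen s
  have hlocN := hV.isLocalization_basicOpen s
  set ρ := (X.presheaf.map (homOfLE hNle).op).hom with hρ
  have hρb : ∀ r : Γ(X, V), X.basicOpen (ρ r) = X.basicOpen s ⊓ X.basicOpen r := by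
    intro r
    exact X.basicOpen_res r (homOfLE hNle).op
  have hpa : p ∉ X.basicOpen (ρ a) := by
    rw [hρb]
    exact fun h => ha h.2
  have hgz : ∀ r : Γ(X, X.basicOpen s), p ∉ X.basicOpen r ↔ ∃ c, r = ρ a * c := by
    intro r
    constructor
    · intro hr
      obtain ⟨⟨r', ⟨_, ⟨n, rfl⟩⟩⟩, hr'⟩ := IsLocalization.surj (Submonoid.powers s) r
      have hr'' : r * ρ (s ^ n) = ρ r' := hr'
      have h1 : p ∉ X.basicOpen r' := by
        intro h2
        apply hr
        have h3 : p ∈ X.basicOpen (ρ r') := by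
          rw [hρb]
          exact ⟨hs, h2⟩
        rw [← hr'', X.basicOpen_mul] at h3
        exact h3.1
      have h2 : r' ∈ P := by
        rw [hPdef, mem_primeIdealOf_iff]
        exact h1
      obtain ⟨c, hc⟩ := hgens r' h2
      have hu : IsUnit (ρ s) := X.toRingedSpace.isUnit_res_basicOpen s
      obtain ⟨v, hv⟩ := hu.exists_right_inv
      refine ⟨ρ c * v ^ (n + 1), ?_⟩
      have h3 : r * ρ s ^ (n + 1) = ρ a * ρ c := by
        rw [← map_mul, ← hc, map_mul, ← hr'', map_pow]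
        ring
      have h4 : ρ s ^ (n + 1) * v ^ (n + 1) = 1 := by
        rw [← mul_pow, hv, one_pow]
      calc r = r * (ρ s ^ (n + 1) * v ^ (n + 1)) := by rw [h4, mul_one]
        _ = (r * ρ s ^ (n + 1)) * v ^ (n + 1) := by ring
        _ = ρ a * ρ c * v ^ (n + 1) := by rw [h3]
        _ = ρ a * (ρ c * v ^ (n + 1)) := by ring
    · rintro ⟨c, rfl⟩
      rw [X.basicOpen_mul]
      exact fun h => hpa h.1
  refine ⟨⟨X.basicOpen s, ρ a, hN, hs, hgz, ?_⟩, fun x hx => hVW (hNle hx)⟩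
  intro x hx
  constructor
  · rintro h1 rfl
    exact hpa h1
  · intro hne
    by_contra hcon
    apply hne
    symm
    refine eq_of_le hd hN hs hx hgen ?_
    intro r hr
    rw [mem_primeIdealOf_iff] at hr
    obtain ⟨c, rfl⟩ := (hgz r).1 hr
    rw [mem_primeIdealOf_iff, X.basicOpen_mul]
    exact fun h => hcon h.1

end Pool.Agent.MG.WL.CL


end

section

/-!
# TRS: curves of genus one have non constant functions
-/

open CategoryTheory AlgebraicGeometry IsLocalRing TopologicalSpace Opposite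
open Pool.Agent.MG.Two Pool.Agent.MG.W Pool.Agent.MG.W.W0 Pool.Agent.MG.One

namespace Pool.Agent.MG.WL.CL

namespace TRS_

variable {k : Type} [Field k] {X : Scheme.{0}} (π : X ⟶ Sp k)

theorem map_coef {U V : X.Opens} (h : U ≤ V) (c : k) :
    X.presheaf.map (homOfLE h).op (coef π V c) = coef π U c := by
  have h1 : (Scheme.ΓSpecIso (CommRingCat.of k)).inv ≫ π.appTop ≫
      X.presheaf.map (homOfLE (le_top : V ≤ ⊤)).op ≫ X.presheaf.map (homOfLE h).op =
      (Scheme.ΓSpecIso (CommRingCat.of k)).inv ≫ π.appTop ≫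
      X.presheaf.map (homOfLE (le_top : U ≤ ⊤)).op := by
    rw [← X.presheaf.map_comp]
    rfl
  exact ConcreteCategory.congr_hom h1 c

end TRS_

open _root_.Pool.Agent.MG.WL.CL.TRS_ in
/-- TRS -/
theorem t_TRS : Stmt_TRS := by
  intro k _ _ X π _ hg
  by_contra hne
  push Not at hne
  have hc : ∀ f : X.functionField, ∃ c, f = kfun π c := by
    intro f
    by_contra h
    push Not at h
    exact hne f (transc_of π f h)
  obtain ⟨U, V, -, -, -, L, hL, -, hker⟩ := hg
  obtain ⟨s, hs⟩ := hL fun _ => 1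
  have h0 : L s = 0 := by
    by_cases hUV : Nonempty (U ⊓ V : X.Opens)
    · obtain ⟨c, hcs⟩ := hc (X.germToFunctionField (U ⊓ V) s)
      have hs2 : s = coef π (U ⊓ V) c := by
        apply X.germToFunctionField_injective (U ⊓ V)
        rw [hcs, germ_coef]
      refine (hker s).2 ⟨coef π U c, 0, ?_⟩
      rw [hs2, map_zero, add_zero, map_coef]
    · have hbot : U ⊓ V = ⊥ := by
        ext x
        constructor
        · intro hx
          exact hUV ⟨⟨x, hx⟩⟩
        · intro hx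
          exact hx.elim
      have hsub : Subsingleton Γ(X, U ⊓ V) := by
        rw [hbot]
        infer_instance
      rw [Subsingleton.elim s 0, map_zero]
  rw [h0] at hs
  exact zero_ne_one (congrFun hs 0)

end Pool.Agent.MG.WL.CL


end

section

/-!
# Stable one-pointed curves of genus one are Weierstrass curves
-/

namespace Pool.Agent.MG.WL.CL

/-- CL. -/
theorem t_CL : Stmt_CL := by
  have hM : Stmt_MPC := t_MPC t_GSP
  have hD : Stmt_DFIN := t_DFIN t_GSP hM
  have hV : Stmt_VF := t_VF t_UNQ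
  have hE : Stmt_CE := t_CE t_LS t_GSP hM
  have hN : Stmt_NGEO := t_NGEO t_UNQ t_GSP hM
  have hP : Stmt_POLE := t_POLE t_AFC
  have hC : Stmt_CNT := t_CNT t_CNT0 t_NAFF hD t_VAL hN hE
  have hG : Stmt_GEN0 := t_GEN0 t_VAL
  have h1 : Stmt_P1 := t_P1 t_CHT hP t_FIN hG t_DER
  have h2 : Stmt_EXT := t_EXT t_UNQ t_GSP hM hV
  have h3 : Stmt_INT := t_INT t_CHT hP t_FIN t_TRS
  have h4 : Stmt_CUSP := t_CUSP t_UNQ hV
  exact @cl_of @t_L @hC @hD @t_ARITH @h1 @h2 @h3 @h4 @t_SMP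

end Pool.Agent.MG.WL.CL


end

section

/-!
# DEI: deformations with the same class in a chart become isomorphic
-/

open CategoryTheory CategoryTheory.Limits AlgebraicGeometry TensorProduct

namespace Pool.Agent.MG.WL

open Pool.Agent.MG.W Pool.Agent.MG.One

namespace DEI70

variable {B : Type} [CommRing B]

theorem pow_ep' (w : B) (k : ℕ) : (ep (1 : B) w) ^ k = ep 1 ((k : B) * w) := by
  induction k with
  | zero =>
    refine TrivSqZeroExt.ext ?_ ?_
    · rw [pow_zero, fst_ep, TrivSqZeroExt.fst_one]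
    · rw [pow_zero, snd_ep, TrivSqZeroExt.snd_one, Nat.cast_zero, zero_mul]
  | succ k ih =>
    rw [pow_succ, ih]
    refine TrivSqZeroExt.ext ?_ ?_
    · rw [fst_mul', fst_ep, fst_ep, fst_ep, one_mul]
    · rw [snd_mul', fst_ep, fst_ep, snd_ep, snd_ep, snd_ep, Nat.cast_succ]
      ring

theorem mul_ep (w x y : B) : ep (1 : B) w * ep x y = ep x (y + w * x) := by
  refine TrivSqZeroExt.ext ?_ ?_
  · rw [fst_mul', fst_ep, fst_ep, fst_ep, one_mul]
  · rw [snd_mul', fst_ep, fst_ep, snd_ep, snd_ep, snd_ep]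
    ring

theorem huv (w : B) : ep (1 : B) w * ep 1 (-w) = 1 := by
  rw [mul_ep]
  refine TrivSqZeroExt.ext ?_ ?_
  · rw [fst_ep, TrivSqZeroExt.fst_one]
  · rw [snd_ep, TrivSqZeroExt.snd_one]
    ring

/-- the scaling factor -/
theorem exists_w (h6 : IsUnit (6 : B)) {a b : B} (h : Ideal.span {a, b} = ⊤) {α β α' β' : B}
    (hk : 2 * a * β - 3 * b * α = 2 * a * β' - 3 * b * α') :
    ∃ w : B, α = α' + 4 * w * a ∧ β = β' + 6 * w * b := by
  obtain ⟨i6, hi⟩ := h6.exists_right_inv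
  rw [Ideal.eq_top_iff_one, Ideal.mem_span_pair] at h
  obtain ⟨r, s, hrs⟩ := h
  refine ⟨9 * i6 ^ 2 * r * (α - α') + i6 * s * (β - β'), ?_, ?_⟩
  · linear_combination (-(α - α')) * hrs - (r * a * (α - α') * (6 * i6 + 1)) * hi -
      (2 * i6 * s) * hk - (s * b * (α - α')) * hi
  · linear_combination (-(β - β')) * hrs - (r * a * (β - β') * (6 * i6 + 1)) * hi +
      (18 * i6 ^ 2 * r) * hk - (s * b * (β - β')) * hi

end DEI70

open _root_.Pool.Agent.MG.WL.DEI70 in
theorem t_DEI : Stmt_DEI := by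
  intro A B _ _ φ C c h6 d d' δ hd hd'
  obtain ⟨α, β, f, hf, hδ⟩ := hd
  obtain ⟨α', β', f', hf', hδ'⟩ := hd'
  obtain ⟨w, h1, h2⟩ := exists_w h6 c.h (hδ.symm.trans hδ')
  have ha : ep c.a α = ep (1 : B) w ^ 4 * ep c.a α' := by
    rw [pow_ep', mul_ep, h1]
    congr 1
  have hb : ep c.b β = ep (1 : B) w ^ 6 * ep c.b β' := by
    rw [pow_ep', mul_ep, h2]
    congr 1
  have h3 := t_WSC.2.2 (eps0 B) (huv w) ha hb (c := c.a) (d := c.b) (c' := c.a) (d' := c.b)
      (w := 1) (s := 1) (mul_one 1) (by ring) (by ring) (fst_ep c.a α').symm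
      (fst_ep c.b β').symm (fst_ep c.a α).symm (fst_ep c.b β).symm (fst_ep 1 w).symm
  rw [sc_one, Category.id_comp] at h3
  refine ⟨Wei (WZ (ep c.a α) (ep c.b β)),
    wst.1 _ (WZ_ok (isUnit6_map (algebraMap B (Eps B)) h6) (span_ep c.h α β)),
    warr (eps0 B) (fst_ep c.a α).symm (fst_ep c.b β).symm, f,
    castA (RingHom.id_comp _) (PBS.comp (scarr (huv w) ha hb) f'), hf, ?_⟩
  rw [castA_f]
  change (warr (eps0 B) (fst_ep c.a α).symm (fst_ep c.b β).symm).f ≫
    (WX.sc (huv w) ha hb ≫ f'.f) = _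
  rw [← hf', warr_f, warr_f, h3]
  exact (Category.assoc _ _ _).symm

end Pool.Agent.MG.WL


end

section

/-!
# EX: every invariant polynomial is a regular function on `T^*M̄_{1,1}`
-/

open CategoryTheory CategoryTheory.Limits AlgebraicGeometry TensorProduct

namespace Pool.Agent.MG.WL

open Pool.Agent.MG.W Pool.Agent.MG.One Pool.Agent.MG.W.WCV

namespace EXX

/-- Weierstrass charts exist Zariski locally. -/
theorem lw_of (hWLF : Stmt_WLF) {A : Type} [CommRing A] [Algebra ℂ A] {C : Fam 1 A}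
    (hC : IsStable 1 C) : LW C := by
  intro p
  obtain ⟨f, hf, a, b, h, ⟨e⟩⟩ := hWLF A C hC p
  exact ⟨f, hf, ⟨⟨a, b, h, e⟩⟩⟩

/-- The elements with a chart span the unit ideal. -/
theorem span_chI {A : Type} [CommRing A] {C : Fam 1 A} (h : LW C) :
    Ideal.span (chI C) = ⊤ := by
  by_contra hne
  obtain ⟨m, hm, hle⟩ := Ideal.exists_le_maximal _ hne
  obtain ⟨f, hf, hc⟩ := h ⟨m, hm.isPrime⟩
  exact hf (hle (Ideal.subset_span hc))

/-- An element which vanishes in the localisations at elements which span the unit ideal. -/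
theorem eq_zero_of_local {B : Type} [CommRing B] (s : Set B) (hs : Ideal.span s = ⊤) (w : B)
    (h : ∀ g ∈ s, algebraMap B (Localization.Away g) w = 0) : w = 0 := by
  have h1 : s ⊆ (Ideal.radical (LinearMap.ker (LinearMap.toSpanSingleton B B w)) : Set B) := by
    intro g hg
    have h2 := h g hg
    rw [IsLocalization.map_eq_zero_iff (Submonoid.powers g)] at h2
    obtain ⟨⟨_, n, rfl⟩, hn⟩ := h2
    refine ⟨n, ?_⟩
    rw [LinearMap.mem_ker, LinearMap.toSpanSingleton_apply, smul_eq_mul]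
    exact hn
  have h2 : (1 : B) ∈ Ideal.radical (LinearMap.ker (LinearMap.toSpanSingleton B B w)) := by
    have h3 := Ideal.span_le.2 h1
    rw [hs] at h3
    exact h3 Submodule.mem_top
  obtain ⟨n, hn⟩ := h2
  rw [one_pow, LinearMap.mem_ker, LinearMap.toSpanSingleton_apply, one_smul] at hn
  exact hn

theorem aeval_map {A A' : Type} [CommRing A] [Algebra ℂ A] [CommRing A'] [Algebra ℂ A']
    (ω : A →+* A') (hω : ω.comp (algebraMap ℂ A) = algebraMap ℂ A') (a b τ : A)
    (P : MvPolynomial (Fin 3) ℂ) :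
    ω (MvPolynomial.aeval ![a, b, τ] P) = MvPolynomial.aeval ![ω a, ω b, ω τ] P := by
  let ωA : A →ₐ[ℂ] A' := { ω with commutes' := fun z => RingHom.congr_fun hω z }
  have h1 : ωA (MvPolynomial.aeval ![a, b, τ] P) =
      MvPolynomial.aeval (fun i => ωA (![a, b, τ] i)) P := MvPolynomial.comp_aeval_apply _ _ _
  have h2 : (fun i => ωA (![a, b, τ] i)) = ![ω a, ω b, ω τ] := by
    funext i
    fin_cases i <;> rfl
  rw [h2] at h1
  exact h1

theorem algebraMap_comp {A : Type} [CommRing A] [Algebra ℂ A] (f : A) :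
    (algebraMap A (Localization.Away f)).comp (algebraMap ℂ A) =
      algebraMap ℂ (Localization.Away f) :=
  (IsScalarTower.algebraMap_eq ℂ A (Localization.Away f)).symm

/-- Naturality of the value. -/
theorem value_nat (hTRL : Stmt_TRL) (hTAU : Stmt_TAU) {A B : Type} [CommRing A] [Algebra ℂ A]
    [CommRing B] [Algebra ℂ B] (φ : A →ₐ[ℂ] B) {x : Fam 1 A} {y : Fam 1 B} (hx : IsStable 1 x)
    (lx : LW x) (a : Arrow (φ : A →+* B) y x) (l : Cov 1 x)
    (l' : Cov 1 y) (hl : Compat a l' l) (P : MvPolynomial (Fin 3) ℂ) (v : A) (v' : B)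
    (hv : IsVal P l v) (hv' : IsVal P l' v') : v' = φ v := by
  have h6 : IsUnit (6 : A) := six
  have hspan : Ideal.span ((φ : A →+* B) '' chI x) = ⊤ := by
    rw [← Ideal.map_span, span_chI lx, Ideal.map_top]
  rw [← sub_eq_zero]
  refine eq_zero_of_local _ hspan _ ?_
  rintro _ ⟨f, ⟨c⟩, rfl⟩
  obtain ⟨τ, hτ, -⟩ := (hTAU h6 hx lx f c).2 l
  have hu : IsUnit (((algebraMap B (Localization.Away ((φ : A →+* B) f))).comp (φ : A →+* B)) f) :=
    IsLocalization.Away.algebraMap_isUnit ((φ : A →+* B) f)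
  obtain ⟨ω, hω⟩ : ∃ ω : Localization.Away f →+* Localization.Away ((φ : A →+* B) f),
      ω.comp (algebraMap A (Localization.Away f)) =
        (algebraMap B (Localization.Away ((φ : A →+* B) f))).comp (φ : A →+* B) :=
    ⟨IsLocalization.Away.lift f hu, IsLocalization.Away.lift_comp f hu⟩
  have h1 := hTRL.2 h6 (φ : A →+* B) hx lx a l l' hl f c τ hτ ω hω
  have h2 := hv' _ (c.pull a ω hω) (ω τ) h1
  have h3 := hv f c τ hτ
  have h4 : ω.comp (algebraMap ℂ (Localization.Away f)) =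
      algebraMap ℂ (Localization.Away ((φ : A →+* B) f)) := by
    rw [← algebraMap_comp, ← RingHom.comp_assoc, hω, RingHom.comp_assoc, ← algebraMap_comp]
    congr 1
    exact φ.comp_algebraMap
  have h5 := aeval_map ω h4 c.a c.b τ P
  rw [← h3] at h5
  have h6 : ω (algebraMap A (Localization.Away f) v) =
      algebraMap B (Localization.Away ((φ : A →+* B) f)) (φ v) := RingHom.congr_fun hω v
  rw [map_sub, h2, ← h6, h5]
  exact sub_self _

/-- The chart of a Weierstrass curve over a localisation. -/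
noncomputable def wch {B : Type} [CommRing B] {a b : B} (h : Ideal.span {a, b} = ⊤) (f : B) :
    Ch (algebraMap B (Localization.Away f)) (Wei (WZ a b)) where
  a := algebraMap B _ a
  b := algebraMap B _ b
  h := by
    rw [Ideal.eq_top_iff_one, Ideal.mem_span_pair] at h ⊢
    obtain ⟨r, s, hrs⟩ := h
    exact ⟨algebraMap B _ r, algebraMap B _ s, by
      rw [← map_mul, ← map_mul, ← map_add, hrs, map_one]⟩
  e := warr (algebraMap B _) rfl rfl

/-- The coefficient of `cov six a b τ` in the chart of the Weierstrass curve is `τ`. -/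
theorem wch_tau (hDEA : Stmt_DEA) (hDEC : Stmt_DEC) {B : Type} [CommRing B] [Algebra ℂ B]
    {a b : B} (h : Ideal.span {a, b} = ⊤) (τ f : B) :
    IsTau (wch h f) (cov six a b τ) (algebraMap B _ τ) := by
  intro d δ hδ
  obtain ⟨α, β, g, hg⟩ := exists_dW six h d
  have h1 := hDEC.2.1 (wch h f) d (dW six h α β) g hg δ hδ
  let ww : Arrow (epsMap (algebraMap B (Localization.Away f)))
      (Wei (WZ (ep (algebraMap B (Localization.Away f) a) (algebraMap B (Localization.Away f) α))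
        (ep (algebraMap B (Localization.Away f) b) (algebraMap B (Localization.Away f) β))))
      (Wei (WZ (ep a α) (ep b β))) :=
    warr (epsMap (algebraMap B (Localization.Away f))) (a := ep a α) (b := ep b β)
      (epsMap_ep (algebraMap B (Localization.Away f)) a α).symm
      (epsMap_ep (algebraMap B (Localization.Away f)) b β).symm
  have h2 : IsDelta (wch h f) (dW six h α β) (algebraMap B _ (2 * a * β - 3 * b * α)) := by
    refine ⟨algebraMap B _ α, algebraMap B _ β, ww, ?_, ?_⟩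
    · have e1 := warr_comp (epsMap (algebraMap B (Localization.Away f))) (eps0 _)
        (eps0_epsMap (algebraMap B (Localization.Away f))) (a := ep a α) (b := ep b β)
        (epsMap_ep (algebraMap B (Localization.Away f)) a α).symm
        (epsMap_ep (algebraMap B (Localization.Away f)) b β).symm
        (a'' := algebraMap B _ a) (b'' := algebraMap B _ b)
        (fst_ep _ _).symm (fst_ep _ _).symm
        (by rw [RingHom.comp_apply]; exact congrArg _ (fst_ep a α).symm)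
        (by rw [RingHom.comp_apply]; exact congrArg _ (fst_ep b β).symm)
      have e2 := warr_comp (eps0 B) (algebraMap B (Localization.Away f)) rfl
        (a := ep a α) (b := ep b β) (a' := a) (b' := b) (fst_ep _ _).symm (fst_ep _ _).symm
        (a'' := algebraMap B _ a) (b'' := algebraMap B _ b) rfl rfl
        (by rw [RingHom.comp_apply]; exact congrArg _ (fst_ep a α).symm)
        (by rw [RingHom.comp_apply]; exact congrArg _ (fst_ep b β).symm)
      exact e1.trans e2.symm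
    · change _ = 2 * algebraMap B (Localization.Away f) a * _ -
        3 * algebraMap B (Localization.Away f) b * _
      simp only [map_sub, map_mul, map_ofNat]
  have h6 : IsUnit (6 : Localization.Away f) := six
  have h3 : δ = algebraMap B _ (2 * a * β - 3 * b * α) :=
    (hDEA (wch h f) h6 (dW six h α β)).unique h1 h2
  rw [h3, (cov six a b τ).iso _ _ g hg,
    cov_is six a b τ (dW six h α β) α β Fin.elim0 Fin.elim0 (wcls_dW six h α β), ← map_mul]
  congr 1
  simp only [WT, Finset.univ_eq_empty, Finset.sum_empty, add_zero]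
  ring

end EXX

open _root_.Pool.Agent.MG.WL.EXX in
/-- Existence of regular functions. -/
theorem t_EX (hWLF : Stmt_WLF) (hDEA : Stmt_DEA) (hDEC : Stmt_DEC) (hTAU : Stmt_TAU)
    (hTRL : Stmt_TRL) (hVAL : Stmt_VAL) : Stmt_EX := by
  intro P hP
  have hval : ∀ (A : Type) [CommRing A] [Algebra ℂ A] (x : Fam 1 A) (_ : IsStable 1 x)
      (l : Cov 1 x), ∃! v : A, IsVal P l v := fun A _ _ x hx l =>
    hVAL hx (lw_of hWLF hx) P hP l
  refine ⟨{ F := fun A _ _ x hx l => (hval A x hx l).choose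
            nat := fun A B _ _ _ _ φ x y hx hy a l l' hl =>
              value_nat hTRL hTAU φ hx (lw_of hWLF hx) a l l' hl P _ _
                (hval A x hx l).choose_spec.1 (hval B y hy l').choose_spec.1 }, ?_⟩
  intro B _ _ a b τ hs h
  have hv := (hval B (Wei (WZ a b)) hs (cov six a b τ)).choose_spec.1
  change (hval B (Wei (WZ a b)) hs (cov six a b τ)).choose = _
  generalize (hval B (Wei (WZ a b)) hs (cov six a b τ)).choose = v at hv
  have h1 := hv 1 (wch h 1) _ (wch_tau hDEA hDEC h τ 1)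
  have h2 := aeval_map (algebraMap B (Localization.Away (1 : B))) (algebraMap_comp 1) a b τ P
  have h3 : algebraMap B (Localization.Away (1 : B)) v =
      algebraMap B (Localization.Away (1 : B)) (MvPolynomial.aeval ![a, b, τ] P) :=
    h1.trans h2.symm
  rw [← sub_eq_zero]
  refine eq_zero_of_local {(1 : B)} (Ideal.span_singleton_one) _ ?_
  intro g hg
  rw [Set.mem_singleton_iff] at hg
  subst hg
  rw [map_sub, h3, sub_self]

end Pool.Agent.MG.WL


end

section

/-!
# Base change of local coordinates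
-/

open CategoryTheory CategoryTheory.Limits AlgebraicGeometry TensorProduct

namespace Pool.Agent.MG.WL

open Pool.Agent.MG.W Pool.Agent.MG.One Pool.Agent.MG.GLU

namespace LCB

variable {A B : Type} [CommRing A] [CommRing B] {φ : A →+* B} {C : Fam 1 A} {y : Fam 1 B}

/-- The square of the sections is cartesian. -/
theorem sec_cart (a : Arrow φ y C) : IsPullback (spMap φ) (y.σ 0) (C.σ 0) a.f := by
  refine IsPullback.of_bot ?_ (a.sec 0).symm a.cart
  rw [y.sec, C.sec]
  exact IsPullback.of_vert_isIso ⟨by simp⟩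

/-- The section of the base change is the preimage of the section. -/
theorem mem_range (a : Arrow φ y C) (z : y.X) :
    z ∈ Set.range (y.σ 0) ↔ a.f z ∈ Set.range (C.σ 0) := by
  constructor
  · rintro ⟨p, rfl⟩
    refine ⟨spMap φ p, ?_⟩
    rw [← Scheme.Hom.comp_apply, ← Scheme.Hom.comp_apply, a.sec]
  · rintro ⟨p, hp⟩
    obtain ⟨q, -, hq⟩ := Scheme.exists_preimage_of_isPullback (sec_cart a) p z hp
    exact ⟨q, hq⟩

/-- The section of the base change lies in the preimage. -/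
theorem le_pre (a : Arrow φ y C) {V : C.X.Opens} (h : ⊤ ≤ (C.σ 0) ⁻¹ᵁ V) :
    ⊤ ≤ (y.σ 0) ⁻¹ᵁ (a.f ⁻¹ᵁ V) := by
  intro p _
  have h1 : (C.σ 0) (spMap φ p) ∈ V := h (Set.mem_univ (spMap φ p))
  have h2 : a.f (y.σ 0 p) = (C.σ 0) (spMap φ p) := by
    rw [← Scheme.Hom.comp_apply, ← Scheme.Hom.comp_apply, a.sec]
  change a.f (y.σ 0 p) ∈ V
  rw [h2]
  exact h1

/-- The pull back of functions. -/
noncomputable abbrev pb (a : Arrow φ y C) (V : C.X.Opens) : Γ(C.X, V) →+* Γ(y.X, a.f ⁻¹ᵁ V) :=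
  (a.f.appLE V (a.f ⁻¹ᵁ V) le_rfl).hom

theorem coef_pb (a : Arrow φ y C) (V : C.X.Opens) (c : A) :
    pb a V (coef C.π V c) = coef y.π (a.f ⁻¹ᵁ V) (φ c) :=
  coef_arrow a.cart.w V (a.f ⁻¹ᵁ V) le_rfl c

theorem basic (a : Arrow φ y C) (V : C.X.Opens) (t : Γ(C.X, V)) :
    y.X.basicOpen (pb a V t) = a.f ⁻¹ᵁ C.X.basicOpen t := by
  rw [Scheme.preimage_basicOpen]
  have : a.f.appLE V (a.f ⁻¹ᵁ V) le_rfl = a.f.app V := Scheme.Hom.appLE_eq_app _
  change y.X.basicOpen ((a.f.appLE V (a.f ⁻¹ᵁ V) le_rfl).hom t) = _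
  rw [this]

/-- Every function is the sum of a constant and of a multiple of the coordinate. -/
theorem split (L : LC C) (r : Γ(C.X, L.V)) :
    ∃ s, r = coef C.π L.V (gm (C.σ 0) L.V L.le r) + L.t * s := by
  have h := gm_coef (C.σ 0) C.π (RingHom.id A)
    (by rw [C.sec]; exact (Spec.map_id _).symm) L.V L.le
    (gm (C.σ 0) L.V L.le r)
  obtain ⟨s, hs⟩ := (L.ker (r - coef C.π L.V (gm (C.σ 0) L.V L.le r))).1 (by
    rw [map_sub, h, RingHom.id_apply, sub_self])
  exact ⟨s, by rw [← hs]; ring⟩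

/-- The same for the base change. -/
theorem split' (a : Arrow φ y C) (L : LC C) (r : Γ(y.X, a.f ⁻¹ᵁ L.V)) :
    ∃ b s, r = coef y.π (a.f ⁻¹ᵁ L.V) b + pb a L.V L.t * s := by
  obtain ⟨e, he⟩ := tp_affine a L.aff
  let _ := φ.toAlgebra
  let _ := (coef C.π L.V).toAlgebra
  obtain ⟨x, rfl⟩ := e.surjective r
  induction x using TensorProduct.induction_on with
  | zero => exact ⟨0, 0, by rw [map_zero, map_zero, mul_zero, add_zero]⟩
  | tmul b r =>
    obtain ⟨s, hs⟩ := split L r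
    refine ⟨b * φ (gm (C.σ 0) L.V L.le r), coef y.π (a.f ⁻¹ᵁ L.V) b * pb a L.V s, ?_⟩
    rw [he]
    change coef y.π (a.f ⁻¹ᵁ L.V) b * pb a L.V r = _
    conv_lhs => rw [hs]
    rw [map_add, map_mul, coef_pb, map_mul]
    ring
  | add x x' h h' =>
    obtain ⟨b, s, hs⟩ := h
    obtain ⟨b', s', hs'⟩ := h'
    exact ⟨b + b', s + s', by rw [map_add, hs, hs', map_add]; ring⟩

theorem kernel (a : Arrow φ y C) (L : LC C) (r : Γ(y.X, a.f ⁻¹ᵁ L.V)) :
    gm (y.σ 0) (a.f ⁻¹ᵁ L.V) (le_pre a L.le) r = 0 ↔ ∃ s, r = pb a L.V L.t * s := by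
  have ht : gm (y.σ 0) (a.f ⁻¹ᵁ L.V) (le_pre a L.le) (pb a L.V L.t) = 0 := by
    have h1 := gm_nat a.f (C.σ 0) (y.σ 0) φ (a.sec 0) L.V (a.f ⁻¹ᵁ L.V) L.le (le_pre a L.le)
      le_rfl L.t
    rw [h1, (L.ker L.t).2 ⟨1, (mul_one _).symm⟩, map_zero]
  constructor
  · intro h
    obtain ⟨b, s, rfl⟩ := split' a L r
    have hb := gm_coef (y.σ 0) y.π (RingHom.id B)
      (by rw [y.sec]; exact (Spec.map_id _).symm) (a.f ⁻¹ᵁ L.V) (le_pre a L.le) b
    rw [map_add, map_mul, ht, zero_mul, add_zero, hb, RingHom.id_apply] at h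
    exact ⟨s, by rw [h, map_zero, zero_add]⟩
  · rintro ⟨s, rfl⟩
    rw [map_mul, ht, zero_mul]

theorem flat (a : Arrow φ y C) {V : C.X.Opens} (hV : IsAffineOpen V) (t : Γ(C.X, V))
    (h : (Polynomial.eval₂RingHom (coef C.π V) t).Flat) :
    (Polynomial.eval₂RingHom (coef y.π (a.f ⁻¹ᵁ V)) (pb a V t)).Flat := by
  have h1 := arrow_push a V (isIso_pushoutSection_of_isAffineOpen _ _ _ _ (isAffineOpen_top _)
    (isAffineOpen_top _) hV)
  have h2 : IsPushout (CommRingCat.ofHom (Polynomial.C : A →+* Polynomial A))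
      (CommRingCat.ofHom φ) (CommRingCat.ofHom (Polynomial.mapRingHom φ))
      (CommRingCat.ofHom (Polynomial.C : B →+* Polynomial B)) := by
    let _ := φ.toAlgebra
    let _ : Algebra (Polynomial A) (Polynomial B) := Polynomial.algebra A B
    exact (CommRingCat.isPushout_of_isPushout A B (Polynomial A) (Polynomial B)).flip
  have e1 : CommRingCat.ofHom (Polynomial.C : A →+* Polynomial A) ≫
      CommRingCat.ofHom (Polynomial.eval₂RingHom (coef C.π V) t) =
        CommRingCat.ofHom (coef C.π V) := by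
    ext c
    exact Polynomial.eval₂_C _ _
  have e2 : CommRingCat.ofHom (Polynomial.C : B →+* Polynomial B) ≫
      CommRingCat.ofHom (Polynomial.eval₂RingHom (coef y.π (a.f ⁻¹ᵁ V)) (pb a V t)) =
        CommRingCat.ofHom (coef y.π (a.f ⁻¹ᵁ V)) := by
    ext c
    exact Polynomial.eval₂_C _ _
  rw [← e1, ← e2] at h1
  have h3 := IsPushout.of_left h1 (by
    apply CommRingCat.hom_ext
    refine Polynomial.ringHom_ext (fun c => ?_) ?_
    · change pb a V (Polynomial.eval₂RingHom (coef C.π V) t (Polynomial.C c)) =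
        Polynomial.eval₂RingHom (coef y.π (a.f ⁻¹ᵁ V)) (pb a V t)
          (Polynomial.mapRingHom φ (Polynomial.C c))
      simp only [Polynomial.coe_eval₂RingHom, Polynomial.eval₂_C, Polynomial.coe_mapRingHom,
        Polynomial.map_C]
      exact coef_pb a V c
    · change pb a V (Polynomial.eval₂RingHom (coef C.π V) t Polynomial.X) =
        Polynomial.eval₂RingHom (coef y.π (a.f ⁻¹ᵁ V)) (pb a V t)
          (Polynomial.mapRingHom φ Polynomial.X)
      simp only [Polynomial.coe_eval₂RingHom, Polynomial.eval₂_X, Polynomial.coe_mapRingHom,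
        Polynomial.map_X]) h2
  exact MorphismProperty.of_isPushout (P := CommRingCat.flat) h3.flip
    ((CommRingCat.flat_ofHom_iff _).2 h)

end LCB

open _root_.Pool.Agent.MG.WL.LCB in
theorem t_LCB : Stmt_LCB := by
  intro A B _ _ φ C y a L
  refine ⟨⟨a.f ⁻¹ᵁ L.U, ?_, a.f ⁻¹ᵁ L.V, pre_affine a L.aff, le_pre a L.le, pb a L.V L.t, ?_,
    kernel a L, flat a L.aff L.t L.flat⟩, ⟨rfl, rfl, rfl⟩⟩
  · intro z
    rw [mem_range a z, ← L.mU]
    rfl
  · rw [basic, L.bas]
    rfl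

end Pool.Agent.MG.WL


end

section

/-!
# The geometric fibres of a curve with functions with poles of order two and three
-/

open CategoryTheory CategoryTheory.Limits AlgebraicGeometry TensorProduct

namespace Pool.Agent.MG.WL

open Pool.Agent.MG.W Pool.Agent.MG.One Pool.Agent.MG.GLU

namespace FGF

/-- The inverse of an arrow over the identity. -/
noncomputable def invArrow {n : ℕ} {k : Type} [CommRing k] {C y : Fam n k}
    (f : Arrow (RingHom.id k) C y) [IsIso f.f] : Arrow (RingHom.id k) y C where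
  f := inv f.f
  cart := by
    have hid : spMap (RingHom.id k) = 𝟙 _ := Spec.map_id _
    have hw := f.cart.w
    rw [hid, Category.comp_id] at hw
    rw [hid]
    exact IsPullback.of_horiz_isIso ⟨by rw [← hw, IsIso.inv_hom_id_assoc, Category.comp_id]⟩
  sec i := by
    have hid : spMap (RingHom.id k) = 𝟙 _ := Spec.map_id _
    have h := f.sec i
    rw [hid, Category.id_comp] at h
    rw [hid, Category.id_comp, ← h, Category.assoc, IsIso.hom_inv_id, Category.comp_id]

/-- An arrow over a composition with the identity. -/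
noncomputable def castArrow {n : ℕ} {A k : Type} [CommRing A] [CommRing k] {s s' : A →+* k}
    (h : s' = s) {y : Fam n k} {C : Fam n A} (f : Arrow s' y C) : Arrow s y C where
  f := f.f
  cart := by rw [← h]; exact f.cart
  sec i := by rw [← h]; exact f.sec i

theorem rs_appLE {X X' : Scheme.{0}} (f : X' ⟶ X) {U W : X.Opens} {U' W' : X'.Opens}
    (hW : U ≤ W) (hW' : U' ≤ W') (h1 : W' ≤ f ⁻¹ᵁ W)
    (h2 : U' ≤ f ⁻¹ᵁ U) (v : Γ(X, W)) :
    (f.appLE U U' h2).hom (rs X hW v) = rs X' hW' ((f.appLE W W' h1).hom v) := by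
  change (X.presheaf.map (homOfLE hW).op ≫ f.appLE U U' h2) v =
    (f.appLE W W' h1 ≫ X'.presheaf.map (homOfLE hW').op) v
  rw [Scheme.Hom.map_appLE, Scheme.Hom.appLE_map]

/-- Poles of pull backs. -/
theorem pole_pb {A B : Type} [CommRing A] [CommRing B] {φ : A →+* B} {C : Fam 1 A} {y : Fam 1 B}
    (a : Arrow φ y C) (L : LC C) (L' : LC y) (h : L.Bc a L') (n : ℕ) (c : A) (X : Γ(C.X, L.U))
    (hX : L.Pole n c X) :
    L'.Pole n (φ c) ((a.f.appLE L.U L'.U h.U.le).hom X) := by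
  obtain ⟨r, hr⟩ := hX
  have hUV : L'.U ⊓ L'.V ≤ a.f ⁻¹ᵁ (L.U ⊓ L.V) := by
    rw [h.U, h.V]
    exact le_of_eq rfl
  have h1 := congrArg (a.f.appLE (L.U ⊓ L.V) (L'.U ⊓ L'.V) hUV).hom hr
  rw [map_mul, map_pow, rs_appLE a.f _ inf_le_right h.V.le hUV,
    rs_appLE a.f _ inf_le_left h.U.le hUV, rs_appLE a.f _ inf_le_right h.V.le hUV, map_add,
    map_mul, coef_arrow a.cart.w, ← h.t] at h1
  exact ⟨_, h1⟩

theorem inf2_z (k : Type) [CommRing k] (a b : k) : inf2 k a b (z2 k a b) = 0 := lift2_z _ _ _ _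

theorem inf2_b (k : Type) [CommRing k] (a b c : k) : inf2 k a b (algebraMap k _ c) = c :=
  lift2_b _ _ _ _ _

theorem zz1 (k : Type) [CommRing k] (a b : k) :
    (zu k a b).val ^ 2 * ((zu k a b)⁻¹ ^ 2 * (tu k a b)⁻¹ : (A12 k a b)ˣ).val =
      ((tu k a b)⁻¹ : (A12 k a b)ˣ).val := by
  have : (zu k a b) ^ 2 * ((zu k a b)⁻¹ ^ 2 * (tu k a b)⁻¹) = (tu k a b)⁻¹ := by group
  exact congrArg Units.val this

/-- Leading coefficient of functions with a pole of order two. -/
theorem lead2 (k : Type) [Field k] (a b : k) (v : A1 k a b) (v2 : A2 k a b)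
    (h : (zu k a b).val ^ 2 * g1 k a b v = g2 k a b v2) (h2 : inf2 k a b v2 ≠ 0) :
    ∃ d c : k, d ≠ 0 ∧ v = algebraMap k _ d * x1 k a b + algebraMap k _ c := by
  obtain ⟨-, -, hinj, -, -, -, h7, -⟩ := t_WRG k a b
  obtain ⟨c, d, hv⟩ := h7 v v2 h
  refine ⟨d, c, ?_, by rw [hv, add_comm]⟩
  rintro rfl
  apply h2
  rw [hv, map_zero, zero_mul, add_zero, g1_b] at h
  have h3 : g2 k a b v2 = g2 k a b (z2 k a b ^ 2 * algebraMap k _ c) := by
    rw [← h, map_mul, map_pow, zu_val, g2_b]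
  rw [hinj h3, map_mul, map_pow, inf2_z]
  ring

/-- Leading coefficient of functions with a pole of order three. -/
theorem lead3 (k : Type) [Field k] (a b : k) (v : A1 k a b) (v2 : A2 k a b)
    (h : (zu k a b).val ^ 3 * g1 k a b v = g2 k a b v2) (h2 : inf2 k a b v2 ≠ 0) :
    ∃ e d c : k, e ≠ 0 ∧ v = algebraMap k _ e * y1 k a b + algebraMap k _ d * x1 k a b +
      algebraMap k _ c := by
  obtain ⟨-, -, hinj, -, -, -, -, h8⟩ := t_WRG k a b
  obtain ⟨c, d, e, hv⟩ := h8 v v2 h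
  refine ⟨e, d, c, ?_, by rw [hv]; ring⟩
  rintro rfl
  apply h2
  obtain ⟨w, hw⟩ := (t2_unit k a b).exists_right_inv
  have hw' : ((tu k a b)⁻¹ : (A12 k a b)ˣ).val = g2 k a b w := by
    have h3 : (tu k a b : A12 k a b) * g2 k a b w = 1 := by
      rw [tu_val, ← map_mul, hw, map_one]
    exact Units.inv_eq_of_mul_eq_one_right h3
  have h3 : g2 k a b v2 = g2 k a b (z2 k a b * (z2 k a b ^ 2 * algebraMap k _ c +
      algebraMap k _ d * w)) := by
    rw [← h, hv, map_zero, zero_mul, add_zero, map_add, map_mul, g1_b, g1_b, g1_x, map_mul,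
      map_add, map_mul, map_pow, map_mul, g2_b, g2_b, ← hw', ← zz1, zu_val]
    ring
  rw [hinj h3, map_mul, inf2_z, zero_mul]

end FGF

open _root_.Pool.Agent.MG.WL.FGF in
theorem t_FGF (hCL : Stmt_CL) (hLCB : Stmt_LCB) (hFCP : Stmt_FCP) (hFLW : Stmt_FLW) :
    Stmt_FGF := by
  intro A _ _ C hC L x y hx hy k _ _ s
  have hchar : CharZero k := by
    have : Function.Injective (s.comp (algebraMap ℂ A)) := RingHom.injective _
    exact charZero_of_injective_ringHom this
  obtain ⟨a, b, hab, f, hf⟩ := hCL (PBS.bc s C) (PBS.bc_stable s C hC)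
  let e : Arrow s (Wei (WZ a b)) C :=
    castArrow (RingHom.id_comp s) (PBS.comp (invArrow f) (PBS.bcArrow s C))
  obtain ⟨L', hB⟩ := hLCB e L
  obtain ⟨L'', h, hU, hpole⟩ := hFLW a b
  have hUU : L''.U = L'.U := by
    ext z
    change z ∈ L''.U ↔ z ∈ L'.U
    rw [L''.mU, L'.mU]
  obtain ⟨u, hu, hcp⟩ := hFCP L' L'' hUU.le
  have hu0 : u ≠ 0 := hu.ne_zero
  have hle : ⊤ ≤ (WX.in1 k a b ≫ e.f) ⁻¹ᵁ L.U := by
    intro p hp
    have h1 : (WX.in1 k a b) p ∈ L''.U := h hp
    rw [hUU, hB.U] at h1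
    exact h1
  have hgm : ∀ v : Γ(C.X, L.U), gm (WX.in1 k a b ≫ e.f) L.U hle v =
      gm (WX.in1 k a b) L''.U h
        (rs (Wei (WZ a b)).X hUU.le ((e.f.appLE L.U L'.U hB.U.le).hom v)) := by
    intro v
    have h1 : rs (Wei (WZ a b)).X hUU.le ((e.f.appLE L.U L'.U hB.U.le).hom v) =
        (e.f.appLE L.U L''.U (hUU.le.trans hB.U.le)).hom v := by
      change (e.f.appLE L.U L'.U hB.U.le ≫ (Wei (WZ a b)).X.presheaf.map (homOfLE hUU.le).op) v =
        _
      rw [Scheme.Hom.appLE_map]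
    have hc : WX.in1 k a b ≫ e.f = spMap (RingHom.id (A1 k a b)) ≫ (WX.in1 k a b ≫ e.f) := by
      rw [show spMap (RingHom.id (A1 k a b)) = 𝟙 _ from Spec.map_id _, Category.id_comp]
    have h2 := gm_nat (X := C.X) (X' := (Wei (WZ a b)).X) e.f (WX.in1 k a b ≫ e.f)
      (WX.in1 k a b) (RingHom.id (A1 k a b)) hc L.U L''.U hle h (hUU.le.trans hB.U.le) v
    rw [h1]
    exact h2.symm
  -- the function x
  have hx' := hcp 2 _ _ (pole_pb e L L' hB 2 1 x hx)
  obtain ⟨v2, hv2, hv2'⟩ := hpole _ _ _ hx'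
  rw [map_one, mul_one] at hv2'
  obtain ⟨α, β, hα, hxe⟩ := lead2 k a b _ _ hv2 (by rw [hv2']; exact pow_ne_zero _ hu0)
  -- the function y
  have hy' := hcp 3 _ _ (pole_pb e L L' hB 3 1 y hy)
  obtain ⟨w2, hw2, hw2'⟩ := hpole _ _ _ hy'
  rw [map_one, mul_one] at hw2'
  obtain ⟨γ, δ, ε, hγ, hye⟩ := lead3 k a b _ _ hw2 (by rw [hw2']; exact pow_ne_zero _ hu0)
  exact ⟨{
    a := a
    b := b
    ab := hab
    e := e
    rng := by rw [← hB.U, ← hUU, hU]
    le := hle
    α := α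
    β := β
    γ := γ
    δ := δ
    ε := ε
    hα := hα
    hγ := hγ
    hx := by rw [hgm, hxe]
    hy := by rw [hgm, hye] }⟩

end Pool.Agent.MG.WL


end

section

/-!
# GLD: families can be glued along a Zariski covering of the base
-/

open CategoryTheory CategoryTheory.Limits AlgebraicGeometry TensorProduct

namespace Pool.Agent.MG.WL

open Pool.Agent.MG.W Pool.Agent.MG.One

namespace GLD

/-- Nonempty finite sets of indices. -/
abbrev NF (r : ℕ) : Type := {S : Finset (Fin r) // S.Nonempty}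

/-- The index category: the opposite order. -/
abbrev Idx (r : ℕ) : Type := (NF r)ᵒᵈ

section

variable {E : Type} [CommRing E] {r : ℕ} (f : Fin r → E)
  (E' : NF r → Type) [∀ S, CommRing (E' S)]
  [∀ S, Algebra E (E' S)] [∀ S, IsLocalization.Away (∏ i ∈ S.1, f i) (E' S)]

include f in
theorem open_sp (S : NF r) : IsOpenImmersion (spMap (algebraMap E (E' S))) :=
  IsOpenImmersion.of_isLocalization (S := E' S) (∏ i ∈ S.1, f i)

include f in
theorem range_sp (S : NF r) (p : (Sp E : Scheme.{0})) :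
    p ∈ Set.range (spMap (algebraMap E (E' S))) ↔ ∀ i ∈ S.1, f i ∉ p.asIdeal := by
  have h : p ∈ Set.range (spMap (algebraMap E (E' S))) ↔
      p ∈ PrimeSpectrum.basicOpen (∏ i ∈ S.1, f i) := by
    have h1 := PrimeSpectrum.localization_away_comap_range (E' S) (∏ i ∈ S.1, f i)
    change p ∈ Set.range (PrimeSpectrum.comap (algebraMap E (E' S))) ↔ _
    rw [h1]
    rfl
  rw [h]
  change ¬ (∏ i ∈ S.1, f i ∈ p.asIdeal) ↔ _
  have h0 : p.asIdeal.IsPrime := p.2
  have h2 : (∏ i ∈ S.1, f i ∈ p.asIdeal) ↔ ∃ i ∈ S.1, f i ∈ p.asIdeal :=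
    h0.prod_mem_iff
  rw [h2]
  constructor
  · intro h3 i hi h4
    exact h3 ⟨i, hi, h4⟩
  · rintro h3 ⟨i, hi, h4⟩
    exact h3 i hi h4

theorem covers (hf : Ideal.span (Set.range f) = ⊤) (p : (Sp E : Scheme.{0})) :
    ∃ (S : Idx r) (y : Sp (E' (OrderDual.ofDual S))),
      spMap (algebraMap E (E' (OrderDual.ofDual S))) y = p := by
  have h : ∃ i, f i ∉ p.asIdeal := by
    by_contra hc
    have hc : ∀ i, f i ∈ p.asIdeal := fun i => by
      by_contra h
      exact hc ⟨i, h⟩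
    refine p.2.ne_top (top_le_iff.mp ?_)
    rw [← hf, Ideal.span_le]
    rintro _ ⟨i, rfl⟩
    exact hc i
  obtain ⟨i, hi⟩ := h
  refine ⟨OrderDual.toDual ⟨{i}, Finset.singleton_nonempty i⟩, ?_⟩
  exact (range_sp f E' ⟨{i}, Finset.singleton_nonempty i⟩ p).mpr (by
    intro j hj
    rw [Finset.mem_singleton] at hj
    rw [hj]
    exact hi)

/-- The covering. -/
noncomputable def cov (hf : Ideal.span (Set.range f) = ⊤) : (Sp E).OpenCover :=
  Scheme.Cover.mkOfCovers (P := @IsOpenImmersion) (Idx r)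
    (fun S => Sp (E' (OrderDual.ofDual S)))
    (fun S => spMap (algebraMap E (E' (OrderDual.ofDual S))))
    (covers f E' hf)
    (fun S => open_sp f E' (OrderDual.ofDual S))

noncomputable instance (hf : Ideal.span (Set.range f) = ⊤) : Category (cov f E' hf).I₀ :=
  inferInstanceAs (Category (Idx r))

instance (hf : Ideal.span (Set.range f) = ⊤) : Quiver.IsThin (cov f E' hf).I₀ :=
  inferInstanceAs (Quiver.IsThin (Idx r))

instance (hf : Ideal.span (Set.range f) = ⊤) : Small.{0} (cov f E' hf).I₀ :=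
  inferInstanceAs (Small.{0} (Idx r))

variable (ρ : ∀ S T, S ≤ T → (E' S →ₐ[E] E' T))

include f in
theorem alg_sub (S T : NF r) (a b : E' S →ₐ[E] E' T) : a = b := by
  apply AlgHom.coe_ringHom_injective
  exact IsLocalization.ringHom_ext (Submonoid.powers (∏ i ∈ S.1, f i))
    (by rw [AlgHom.comp_algebraMap, AlgHom.comp_algebraMap])

include f in
theorem tr_id (S : NF r) : spMap (ρ S S le_rfl : E' S →+* E' S) = 𝟙 _ := by
  rw [alg_sub f E' S S (ρ S S le_rfl) (AlgHom.id E (E' S))]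
  exact Spec.map_id _

include f in
theorem tr_comp (S T U : NF r) (h : S ≤ T) (h' : T ≤ U) :
    spMap (ρ T U h' : E' T →+* E' U) ≫ spMap (ρ S T h : E' S →+* E' T) =
      spMap (ρ S U (h.trans h') : E' S →+* E' U) := by
  rw [alg_sub f E' S U (ρ S U (h.trans h')) ((ρ T U h').comp (ρ S T h))]
  exact (Spec.map_comp (CommRingCat.ofHom (ρ S T h : E' S →+* E' T))
    (CommRingCat.ofHom (ρ T U h' : E' T →+* E' U))).symm

theorem tr_w (S T : NF r) (h : S ≤ T) :
    spMap (ρ S T h : E' S →+* E' T) ≫ spMap (algebraMap E (E' S)) =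
      spMap (algebraMap E (E' T)) := by
  have h1 : (ρ S T h : E' S →+* E' T).comp (algebraMap E (E' S)) = algebraMap E (E' T) :=
    (ρ S T h).comp_algebraMap
  rw [← h1]
  exact (Spec.map_comp (CommRingCat.ofHom (algebraMap E (E' S)))
    (CommRingCat.ofHom (ρ S T h : E' S →+* E' T))).symm

include f in
theorem tr_open (S T : NF r) (h : S ≤ T) : IsOpenImmersion (spMap (ρ S T h : E' S →+* E' T)) := by
  have h1 := open_sp f E' S
  have h2 := open_sp f E' T
  rw [← tr_w E' ρ S T h] at h2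
  exact IsOpenImmersion.of_comp _ (spMap (algebraMap E (E' S)))

include f in
theorem dirl (S T : NF r)
    (x : (pullback (spMap (algebraMap E (E' S))) (spMap (algebraMap E (E' T))) : Scheme.{0})) :
    ∃ (U : NF r) (h : S ≤ U) (h' : T ≤ U) (y : Sp (E' U)),
      pullback.lift (spMap (ρ S U h : E' S →+* E' U)) (spMap (ρ T U h' : E' T →+* E' U))
        (by rw [tr_w, tr_w]) y = x := by
  have h1 := open_sp f E' S
  have h2 := open_sp f E' T
  let U : NF r := ⟨S.1 ∪ T.1, S.2.mono Finset.subset_union_left⟩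
  have hS : S ≤ U := Finset.subset_union_left (s₁ := S.1) (s₂ := T.1)
  have hT : T ≤ U := Finset.subset_union_right (s₁ := S.1) (s₂ := T.1)
  let q := pullback.fst (spMap (algebraMap E (E' S))) (spMap (algebraMap E (E' T))) ≫
    spMap (algebraMap E (E' S))
  have hq1 : q x ∈ Set.range (spMap (algebraMap E (E' S))) := by
    refine ⟨pullback.fst (spMap (algebraMap E (E' S))) (spMap (algebraMap E (E' T))) x, ?_⟩
    rw [← Scheme.Hom.comp_apply]
  have hq2 : q x ∈ Set.range (spMap (algebraMap E (E' T))) := by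
    refine ⟨pullback.snd (spMap (algebraMap E (E' S))) (spMap (algebraMap E (E' T))) x, ?_⟩
    rw [← Scheme.Hom.comp_apply, ← pullback.condition]
  rw [range_sp f E'] at hq1 hq2
  have hq3 : q x ∈ Set.range (spMap (algebraMap E (E' U))) := by
    rw [range_sp f E']
    intro i hi
    rcases Finset.mem_union.mp hi with h | h
    · exact hq1 i h
    · exact hq2 i h
  obtain ⟨y, hy⟩ := hq3
  refine ⟨U, hS, hT, y, ?_⟩
  have hi : IsOpenImmersion q := inferInstance
  apply q.isOpenEmbedding.injective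
  rw [← Scheme.Hom.comp_apply, ← hy]
  congr 2
  rw [pullback.lift_fst_assoc, tr_w]

/-- The covering is locally directed. -/
@[reducible] noncomputable def ldir (hf : Ideal.span (Set.range f) = ⊤) :
    Scheme.Cover.LocallyDirected (cov f E' hf) where
  trans {i j} hij := spMap (ρ (OrderDual.ofDual j) (OrderDual.ofDual i)
    (OrderDual.ofDual_le_ofDual.mpr (leOfHom hij)) : _ →+* _)
  trans_id i := tr_id f E' ρ (OrderDual.ofDual i)
  trans_comp {i j k} hij hjk := (tr_comp f E' ρ (OrderDual.ofDual k) (OrderDual.ofDual j)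
    (OrderDual.ofDual i) (OrderDual.ofDual_le_ofDual.mpr (leOfHom hjk))
    (OrderDual.ofDual_le_ofDual.mpr (leOfHom hij))).symm
  w {i j} hij := tr_w E' ρ (OrderDual.ofDual j) (OrderDual.ofDual i)
    (OrderDual.ofDual_le_ofDual.mpr (leOfHom hij))
  directed {i j} x := by
    obtain ⟨U, h, h', y, hy⟩ := dirl f E' ρ (OrderDual.ofDual i) (OrderDual.ofDual j) x
    exact ⟨(OrderDual.toDual U : Idx r), homOfLE (X := Idx r) (OrderDual.ofDual_le_ofDual.mp h),
      homOfLE (X := Idx r) (OrderDual.ofDual_le_ofDual.mp h'), y, hy⟩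
  property_trans {i j} hij := tr_open f E' ρ (OrderDual.ofDual j) (OrderDual.ofDual i)
    (OrderDual.ofDual_le_ofDual.mpr (leOfHom hij))

end

section

variable {n : ℕ} {E : Type} [CommRing E] {r : ℕ} (f : Fin r → E)
  (hf : Ideal.span (Set.range f) = ⊤)
  (E' : NF r → Type) [∀ S, CommRing (E' S)]
  [∀ S, Algebra E (E' S)] [∀ S, IsLocalization.Away (∏ i ∈ S.1, f i) (E' S)]
  (ρ : ∀ S T, S ≤ T → (E' S →ₐ[E] E' T)) (Y : ∀ S, Fam n (E' S))
  (g : ∀ S T (h : S ≤ T), Arrow (ρ S T h : E' S →+* E' T) (Y T) (Y S))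
  (hg1 : ∀ S, (g S S le_rfl).f = 𝟙 _)
  (hg2 : ∀ S T U (h : S ≤ T) (h' : T ≤ U),
    (g T U h').f ≫ (g S T h).f = (g S U (h.trans h')).f)

/-- The gluing datum. -/
noncomputable def gd :
    letI := ldir f E' ρ hf
    Scheme.Cover.RelativeGluingData (cov f E' hf) :=
  letI := ldir f E' ρ hf
  { functor :=
      { obj := fun i => (Y (OrderDual.ofDual i)).X
        map := fun {i j} hij => (g (OrderDual.ofDual j) (OrderDual.ofDual i)
          (OrderDual.ofDual_le_ofDual.mpr (leOfHom hij))).f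
        map_id := fun _ => hg1 _
        map_comp := fun _ _ => (hg2 _ _ _ _ _).symm }
    natTrans :=
      { app := fun i => (Y (OrderDual.ofDual i)).π
        naturality := fun i j hij => (g (OrderDual.ofDual j) (OrderDual.ofDual i)
          (OrderDual.ofDual_le_ofDual.mpr (leOfHom hij))).cart.w }
    equifibered := fun i j hij => (g (OrderDual.ofDual j) (OrderDual.ofDual i)
          (OrderDual.ofDual_le_ofDual.mpr (leOfHom hij))).cart }

/-- The glued scheme. -/
noncomputable def glX : Scheme.{0} :=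
  letI := ldir f E' ρ hf
  (gd f hf E' ρ Y g hg1 hg2).glued

/-- The projection. -/
noncomputable def glπ : glX f hf E' ρ Y g hg1 hg2 ⟶ Sp E :=
  letI := ldir f E' ρ hf
  (gd f hf E' ρ Y g hg1 hg2).toBase

/-- The inclusions. -/
noncomputable def glι (S : NF r) : (Y S).X ⟶ glX f hf E' ρ Y g hg1 hg2 :=
  letI := ldir f E' ρ hf
  colimit.ι (gd f hf E' ρ Y g hg1 hg2).functor (OrderDual.toDual S)

theorem glw (S T : NF r) (h : S ≤ T) :
    (g S T h).f ≫ glι f hf E' ρ Y g hg1 hg2 S = glι f hf E' ρ Y g hg1 hg2 T :=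
  letI := ldir f E' ρ hf
  colimit.w (gd f hf E' ρ Y g hg1 hg2).functor
    (homOfLE (X := Idx r) (OrderDual.toDual_le_toDual.mpr h))

theorem glp (S : NF r) : IsPullback (glι f hf E' ρ Y g hg1 hg2 S) (Y S).π
    (glπ f hf E' ρ Y g hg1 hg2) (spMap (algebraMap E (E' S))) :=
  letI := ldir f E' ρ hf
  ((gd f hf E' ρ Y g hg1 hg2).isPullback_natTrans_ι_toBase (OrderDual.toDual S)).flip

include f hf in
/-- Morphisms can be glued. -/
theorem glm {Z : Scheme.{0}} (m : ∀ S : NF r, Sp (E' S) ⟶ Z)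
    (hm : ∀ S T (h : S ≤ T), spMap (ρ S T h : E' S →+* E' T) ≫ m S = m T) :
    ∃ a : Sp E ⟶ Z, ∀ S, spMap (algebraMap E (E' S)) ≫ a = m S :=
  letI := ldir f E' ρ hf
  ⟨(cov f E' hf).glueMorphismsOfLocallyDirected (fun S => m (OrderDual.ofDual S))
      (fun {S T} hST => hm (OrderDual.ofDual T) (OrderDual.ofDual S)
        (OrderDual.ofDual_le_ofDual.mpr (leOfHom hST))), fun S =>
    Scheme.OpenCover.map_glueMorphismsOfLocallyDirected (cov f E' hf)
      (fun S => m (OrderDual.ofDual S))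
      (fun {S T} hST => hm (OrderDual.ofDual T) (OrderDual.ofDual S)
        (OrderDual.ofDual_le_ofDual.mpr (leOfHom hST))) (OrderDual.toDual S)⟩

include f hf in
theorem hom_ext {Z : Scheme.{0}} (a b : Sp E ⟶ Z)
    (h : ∀ S, spMap (algebraMap E (E' S)) ≫ a = spMap (algebraMap E (E' S)) ≫ b) : a = b :=
  (cov f E' hf).hom_ext _ _ (fun S => h (OrderDual.ofDual S))

end

end GLD

theorem t_GLD : Stmt_GLD := by
  intro n E _ r f hf E' _ _ _ ρ Y g hg1 hg2
  have hσ : ∀ i, ∃ a : Sp E ⟶ GLD.glX f hf E' ρ Y g hg1 hg2,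
      ∀ S, spMap (algebraMap E (E' S)) ≫ a = (Y S).σ i ≫ GLD.glι f hf E' ρ Y g hg1 hg2 S := by
    intro i
    apply GLD.glm f hf E' ρ
    intro S T h
    rw [← GLD.glw f hf E' ρ Y g hg1 hg2 S T h, ← Category.assoc, ← Category.assoc,
      (g S T h).sec i]
  choose σ hσ using hσ
  let y : Fam n E := ⟨GLD.glX f hf E' ρ Y g hg1 hg2, GLD.glπ f hf E' ρ Y g hg1 hg2, σ, by
    intro i
    apply GLD.hom_ext f hf E'
    intro S
    rw [← Category.assoc, hσ, Category.assoc, (GLD.glp f hf E' ρ Y g hg1 hg2 S).w,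
      ← Category.assoc, (Y S).sec, Category.id_comp, Category.comp_id]⟩
  exact ⟨y, fun S => ⟨GLD.glι f hf E' ρ Y g hg1 hg2 S, GLD.glp f hf E' ρ Y g hg1 hg2 S,
    fun i => (hσ i S).symm⟩, GLD.glw f hf E' ρ Y g hg1 hg2⟩

end Pool.Agent.MG.WL


end

section

/-!
# LFB: functions with prescribed poles over local rings with nice covers
-/

open CategoryTheory CategoryTheory.Limits AlgebraicGeometry TensorProduct TopologicalSpace

namespace Pool.Agent.MG.WL

open Pool.Agent.MG.W Pool.Agent.MG.One Pool.Agent.MG.GLU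

namespace LFB

/-- Nakayama's lemma for a quotient. -/
theorem nak {B M : Type} [CommRing B] [IsLocalRing B] [AddCommGroup M] [Module B M]
    (T : Submodule B M) {m : ℕ} (e : Fin m → M)
    (h1 : ∀ s : M, ∃ c : Fin m → B, s - ∑ j, c j • e j ∈ T)
    (h2 : ∀ s : M, ∃ (m' : ℕ) (c : Fin m' → B) (_ : ∀ j, c j ∈ IsLocalRing.maximalIdeal B)
      (e' : Fin m' → M), s - ∑ j, c j • e' j ∈ T) (s : M) : s ∈ T := by
  have hfg : (⊤ : Submodule B (M ⧸ T)).FG := by
    have h3 : Submodule.span B (Set.range fun j => T.mkQ (e j)) = ⊤ := by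
      rw [eq_top_iff]
      intro x _
      obtain ⟨x, rfl⟩ := T.mkQ_surjective x
      obtain ⟨c, hc⟩ := h1 x
      have h4 : T.mkQ x = ∑ j, c j • T.mkQ (e j) := by
        have h5 : T.mkQ (x - ∑ j, c j • e j) = 0 := (Submodule.Quotient.mk_eq_zero T).2 hc
        rw [map_sub, sub_eq_zero] at h5
        rw [h5, map_sum]
        exact Finset.sum_congr rfl fun j _ => map_smul _ _ _
      rw [h4]
      exact Submodule.sum_mem _ fun j _ =>
        Submodule.smul_mem _ _ (Submodule.subset_span ⟨j, rfl⟩)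
    rw [← h3]
    exact Submodule.fg_span (Set.finite_range _)
  have hle : (⊤ : Submodule B (M ⧸ T)) ≤ IsLocalRing.maximalIdeal B • ⊤ := by
    intro x _
    obtain ⟨x, rfl⟩ := T.mkQ_surjective x
    obtain ⟨m', c, hc, e', h5⟩ := h2 x
    have h4 : T.mkQ x = ∑ j, c j • T.mkQ (e' j) := by
      have h6 : T.mkQ (x - ∑ j, c j • e' j) = 0 := (Submodule.Quotient.mk_eq_zero T).2 h5
      rw [map_sub, sub_eq_zero] at h6
      rw [h6, map_sum]
      exact Finset.sum_congr rfl fun j _ => map_smul _ _ _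
    rw [h4]
    exact Submodule.sum_mem _ fun j _ =>
      Submodule.smul_mem_smul (hc j) Submodule.mem_top
  have hbot := Submodule.eq_bot_of_le_smul_of_le_jacobson_bot (IsLocalRing.maximalIdeal B) ⊤ hfg
    hle (IsLocalRing.maximalIdeal_le_jacobson ⊥)
  have h6 : T.mkQ s ∈ (⊤ : Submodule B (M ⧸ T)) := Submodule.mem_top
  rw [hbot, Submodule.mem_bot] at h6
  exact (Submodule.Quotient.mk_eq_zero T).1 h6

section

variable {X : Scheme.{0}}

theorem rr {U V W : X.Opens} (h : U ≤ V) (k : V ≤ W) (a : Γ(X, W)) :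
    rs X h (rs X k a) = rs X (h.trans k) a := by
  change ((X.presheaf.map (homOfLE k).op ≫ X.presheaf.map (homOfLE h).op).hom) a = _
  rw [← X.presheaf.map_comp]
  rfl

theorem unit_res {U O : X.Opens} (f : Γ(X, U)) (h : O ≤ U) (hO : O ≤ X.basicOpen f) :
    IsUnit (rs X h f) := by
  have h1 : IsUnit (rs X (X.basicOpen_le f) f) := RingedSpace.isUnit_res_basicOpen _ f
  have h2 := h1.map (rs X hO)
  rwa [rr] at h2

/-- Gluing of functions on a star shaped cover. -/
theorem glue_star {ι : Type} {T W : X.Opens} (E : ι → X.Opens) (hW : W ≤ T) (hE : ∀ i, E i ≤ T)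
    (cov : ∀ x ∈ T, x ∈ W ∨ ∃ i, x ∈ E i) (dis : ∀ i j, i ≠ j → E i ⊓ E j ≤ W)
    (r : Γ(X, W)) (q : ∀ i, Γ(X, E i))
    (h : ∀ i, rs X (inf_le_left : W ⊓ E i ≤ W) r = rs X inf_le_right (q i)) :
    ∃ c : Γ(X, T), rs X hW c = r ∧ ∀ i, rs X (hE i) c = q i := by
  let F : Option ι → X.Opens := fun o => match o with
    | none => W
    | some i => E i
  let sf : ∀ o, Γ(X, F o) := fun o => match o with
    | none => r
    | some i => q i
  have hF : ∀ o, F o ≤ T := fun o => match o with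
    | none => hW
    | some i => hE i
  have k1 : ∀ (i : ι) (Z : X.Opens) (z1 : Z ≤ W) (z2 : Z ≤ E i), rs X z1 r = rs X z2 (q i) := by
    intro i Z z1 z2
    have h1 := congrArg (rs X (le_inf z1 z2)) (h i)
    rwa [rr, rr] at h1
  have key : ∀ (a b : Option ι) (Z : X.Opens) (z1 : Z ≤ F a) (z2 : Z ≤ F b),
      rs X z1 (sf a) = rs X z2 (sf b) := by
    intro a b Z z1 z2
    rcases a with _ | i <;> rcases b with _ | j
    · rfl
    · exact k1 j Z z1 z2
    · exact (k1 i Z z2 z1).symm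
    · by_cases hij : i = j
      · subst hij
        rfl
      · have z3 : Z ≤ W := (le_inf z1 z2).trans (dis i j hij)
        exact (k1 i Z z3 z1).symm.trans (k1 j Z z3 z2)
  obtain ⟨c, hc, -⟩ := X.sheaf.existsUnique_gluing' F T (fun o => homOfLE (hF o))
    (by
      intro x hx
      rw [Opens.mem_iSup]
      rcases cov x hx with h1 | ⟨i, h1⟩
      · exact ⟨none, h1⟩
      · exact ⟨some i, h1⟩)
    sf (fun a b => key a b _ _ _)
  exact ⟨c, hc none, fun i => hc (some i)⟩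

end

section

variable {B : Type} [CommRing B] {y : Fam 1 B} {L : LC y} (N : NC L)

theorem tr_add {s s' : ∀ i, Γ(y.X, N.W ⊓ N.V i)} (h : N.Tr s) (h' : N.Tr s') : N.Tr (s + s') := by
  obtain ⟨r, q, h1, h2⟩ := h
  obtain ⟨r', q', h1', h2'⟩ := h'
  refine ⟨r + r', fun i => q i + q' i, fun i hi => ?_, ?_⟩
  · rw [Pi.add_apply, h1 i hi, h1' i hi, map_add, map_add]
    ring
  · rw [Pi.add_apply, map_add, map_add, ← h2, ← h2']
    ring

theorem tr_zero : N.Tr (0 : ∀ i, Γ(y.X, N.W ⊓ N.V i)) :=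
  ⟨0, fun _ => 0, fun i _ => by simp, by simp⟩

theorem tr_smul (b : B) {s : ∀ i, Γ(y.X, N.W ⊓ N.V i)} (h : N.Tr s) :
    N.Tr (fun i => coef y.π _ b * s i) := by
  obtain ⟨r, q, h1, h2⟩ := h
  refine ⟨coef y.π _ b * r, fun i => coef y.π _ b * q i, fun i hi => ?_, ?_⟩
  · beta_reduce
    rw [h1 i hi, map_mul, map_mul, coef_rs, coef_rs]
    ring
  · beta_reduce
    rw [map_mul, map_mul, coef_rs, coef_rs, ← h2]
    ring

theorem tr_rq (r : Γ(y.X, N.W)) (q : ∀ i, Γ(y.X, N.V i)) :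
    N.Tr (fun i => rs y.X inf_le_left r + rs y.X inf_le_right (q i)) := by
  refine ⟨r, Function.update q N.i₀ (rs y.X N.le₀ L.t * q N.i₀), fun i hi => ?_, ?_⟩
  · rw [Function.update_of_ne hi]
  · rw [Function.update_self, map_mul, rr]
    ring

/-- All families are trivial up to a simple pole. -/
theorem tr_all [IsLocalRing B] [Algebra ℂ B] (hFG : Stmt_FG) (hVAN : Stmt_VAN)
    (hy : IsStable 1 y) (s : ∀ i, Γ(y.X, N.W ⊓ N.V i)) : N.Tr s := by
  let _ : ∀ i, Module B Γ(y.X, N.W ⊓ N.V i) := fun i =>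
    Module.compHom Γ(y.X, N.W ⊓ N.V i) (coef y.π (N.W ⊓ N.V i))
  have hsm : ∀ (b : B) (e : ∀ i, Γ(y.X, N.W ⊓ N.V i)) (i : N.ι),
      (b • e) i = coef y.π _ b * e i := fun b e i => rfl
  let T : Submodule B (∀ i, Γ(y.X, N.W ⊓ N.V i)) :=
    { carrier := {s | N.Tr s}
      add_mem' := fun h h' => tr_add N h h'
      zero_mem' := tr_zero N
      smul_mem' := fun b s h => tr_smul N b h }
  obtain ⟨m, e, he⟩ := hFG B y hy L N
  refine nak T e (fun s => ?_) (fun s => ?_) s
  · obtain ⟨c, r, q, h⟩ := he s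
    refine ⟨c, ?_⟩
    have h1 : s - ∑ j, c j • e j = fun i => rs y.X inf_le_left r + rs y.X inf_le_right (q i) := by
      funext i
      rw [Pi.sub_apply, Finset.sum_apply, h i]
      simp only [hsm]
      ring
    rw [h1]
    exact tr_rq N r q
  · obtain ⟨m', c, hc, e', h⟩ := hVAN B y hy L N s
    refine ⟨m', c, hc, e', ?_⟩
    have h1 : s - ∑ j, c j • e' j = fun i => s i - ∑ j, coef y.π _ (c j) * e' j i := by
      funext i
      rw [Pi.sub_apply, Finset.sum_apply]
      simp only [hsm]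
    rw [h1]
    exact h

theorem unit_t (L : LC y) {O : y.X.Opens} (h1 : O ≤ L.U) (h2 : O ≤ L.V) :
    IsUnit (rs y.X h2 L.t) :=
  unit_res L.t h2 (by rw [L.bas]; exact le_inf h1 h2)

/-- The complement of the section and `V i₀` cover `L.V`. -/
theorem cov_V (x : y.X) : x ∈ L.U ∨ x ∈ N.V N.i₀ := by
  by_cases hx : x ∈ L.U
  · exact Or.inl hx
  · right
    have h1 : x ∈ Set.range (y.σ 0) := by
      by_contra h2
      exact hx ((L.mU x).2 h2)
    obtain ⟨z, rfl⟩ := h1
    exact N.sec (Opens.mem_top z)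

include N in
theorem main [IsLocalRing B] [Algebra ℂ B] (hFG : Stmt_FG) (hVAN : Stmt_VAN)
    (hy : IsStable 1 y) (k : ℕ) : ∃ X : Γ(y.X, L.U), L.Pole (k + 2) 1 X := by
  -- the inverse of the coordinate on `V i₀ ∩ U`
  have hOV : N.V N.i₀ ⊓ L.U ≤ L.V := inf_le_left.trans N.le₀
  obtain ⟨τ, hτ⟩ := (unit_t L (inf_le_right : N.V N.i₀ ⊓ L.U ≤ L.U) hOV).exists_right_inv
  have hWV : N.W ⊓ N.V N.i₀ ≤ N.V N.i₀ ⊓ L.U := le_inf inf_le_right (inf_le_left.trans N.leW)
  obtain ⟨r, q, h1, h2⟩ := tr_all N hFG hVAN hy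
    (Function.update (0 : ∀ i, Γ(y.X, N.W ⊓ N.V i)) N.i₀ (rs y.X hWV (τ ^ (k + 2))))
  rw [Function.update_self] at h2
  -- the functions on the pieces
  let E : N.ι → y.X.Opens := fun i => N.V i ⊓ L.U
  let Q : ∀ i, Γ(y.X, E i) := Function.update (fun i => - rs y.X inf_le_left (q i)) N.i₀
    (τ ^ (k + 2) - τ * rs y.X inf_le_left (q N.i₀))
  obtain ⟨X, hXW, hXE⟩ := glue_star (T := L.U) (W := N.W) E N.leW (fun i => inf_le_right)
    (fun x hx => by
      rcases N.cov x with h | ⟨i, h⟩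
      · exact Or.inl h
      · exact Or.inr ⟨i, h, hx⟩)
    (fun i j hij x hx => N.dis i j hij ⟨hx.1.1, hx.2.1⟩) r Q (fun i => by
      by_cases hi : i = N.i₀
      · subst hi
        have hZ : N.W ⊓ E N.i₀ ≤ N.W ⊓ N.V N.i₀ := inf_le_inf_left _ inf_le_left
        have hZ' : N.W ⊓ E N.i₀ ≤ N.V N.i₀ ⊓ L.U := inf_le_right
        have h3 := congrArg (rs y.X hZ) h2
        have h4 := congrArg (rs y.X hZ') hτ
        rw [map_mul, map_sub, rr, rr, rr, rr, map_pow] at h3
        rw [map_mul, map_one, rr] at h4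
        change _ = rs y.X inf_le_right (Q N.i₀)
        rw [show Q N.i₀ = τ ^ (k + 2) - τ * rs y.X inf_le_left (q N.i₀) from
          Function.update_self _ _ _]
        rw [map_sub, map_mul, map_pow, rr]
        have h5 : rs y.X (inf_le_right : N.W ⊓ E N.i₀ ≤ E N.i₀) τ = rs y.X hZ' τ := rfl
        rw [h5, ← h3]
        linear_combination (rs y.X hZ' τ ^ (k + 2) -
          rs y.X (inf_le_left : N.W ⊓ E N.i₀ ≤ N.W) r) * h4
      · have hZ : N.W ⊓ E i ≤ N.W ⊓ N.V i := inf_le_inf_left _ inf_le_left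
        have h3 := congrArg (rs y.X hZ) (h1 i hi)
        rw [Function.update_of_ne hi, Pi.zero_apply, map_zero, map_add, rr, rr] at h3
        change _ = rs y.X inf_le_right (Q i)
        rw [show Q i = - rs y.X inf_le_left (q i) from Function.update_of_ne hi _ _,
          map_neg, rr]
        exact eq_neg_of_add_eq_zero_left h3.symm)
  have hX0 : rs y.X (inf_le_right : N.V N.i₀ ⊓ L.U ≤ L.U) X =
      τ ^ (k + 2) - τ * rs y.X inf_le_left (q N.i₀) := by
    have h3 := hXE N.i₀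
    rw [show Q N.i₀ = τ ^ (k + 2) - τ * rs y.X inf_le_left (q N.i₀) from
      Function.update_self _ _ _] at h3
    exact h3
  -- the inverse of the coordinate on `U ∩ V`
  obtain ⟨σ, hσ⟩ := (unit_t L (inf_le_left : L.U ⊓ L.V ≤ L.U)
    (inf_le_right : L.U ⊓ L.V ≤ L.V)).exists_right_inv
  obtain ⟨R, hR1, -⟩ := glue_star (T := L.V) (W := L.U ⊓ L.V) (fun _ : Unit => N.V N.i₀)
    inf_le_right (fun _ => N.le₀)
    (fun x hx => by
      rcases cov_V N x with h | h
      · exact Or.inl ⟨h, hx⟩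
      · exact Or.inr ⟨(), h⟩)
    (fun i j hij => absurd (Subsingleton.elim i j) hij)
    (σ * (rs y.X inf_le_right L.t ^ (k + 2) * rs y.X inf_le_left X - 1))
    (fun _ => - (rs y.X N.le₀ L.t ^ k * q N.i₀)) (fun _ => by
      have hZ : (L.U ⊓ L.V) ⊓ N.V N.i₀ ≤ N.V N.i₀ ⊓ L.U :=
        le_inf inf_le_right (inf_le_left.trans inf_le_left)
      have h3 := congrArg (rs y.X hZ) hτ
      have h4 := congrArg (rs y.X (inf_le_left : (L.U ⊓ L.V) ⊓ N.V N.i₀ ≤ L.U ⊓ L.V)) hσ
      have h5 := congrArg (rs y.X hZ) hX0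
      rw [map_mul, map_one, rr] at h3 h4
      rw [map_sub, map_mul, map_pow, rr, rr] at h5
      rw [map_mul, map_sub, map_mul, map_pow, map_one, rr, rr, map_neg, map_mul, map_pow, rr, h5]
      generalize rs y.X _ L.t = t at h3 h4 ⊢
      generalize rs y.X _ τ = a at h3 h4 ⊢
      generalize rs y.X _ σ = b at h3 h4 ⊢
      generalize rs y.X _ (q N.i₀) = c at h3 h4 ⊢
      have h6 : b = a := by
        linear_combination a * h4 - b * h3
      rw [h6]
      have h7 : t ^ (k + 2) * a ^ (k + 2) = 1 := by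
        rw [← mul_pow, h3, one_pow]
      linear_combination a * h7 - t ^ k * c * (t * a + 1) * h3)
  refine ⟨X, R, ?_⟩
  rw [map_add, map_one, map_one, map_mul, hR1]
  linear_combination - (rs y.X inf_le_right L.t ^ (k + 2) * rs y.X inf_le_left X - 1) * hσ

end

end LFB

theorem t_LFB (hFG : Stmt_FG) (hVAN : Stmt_VAN) : Stmt_LFB := by
  intro B _ _ _ y hy L ⟨N⟩ n hn
  obtain ⟨k, rfl⟩ := Nat.exists_eq_add_of_le' hn
  exact LFB.main N hFG hVAN hy k

end Pool.Agent.MG.WL


end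

section

/-!
# LOE: localisations of the dual numbers
-/

open CategoryTheory CategoryTheory.Limits AlgebraicGeometry TensorProduct

namespace Pool.Agent.MG.WL

namespace LOEx

variable {A B : Type} [CommRing A] [CommRing B]

theorem fst_map (φ : A →+* B) (z : Eps A) : (epsMap φ z).fst = φ z.fst := by
  simp [epsMap]

theorem snd_map (φ : A →+* B) (z : Eps A) : (epsMap φ z).snd = φ z.snd := by
  simp [epsMap]

theorem inl_pow (f : A) (n : ℕ) :
    (TrivSqZeroExt.inl f : Eps A) ^ n = TrivSqZeroExt.inl (f ^ n) :=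
  TrivSqZeroExt.inl_pow f n

theorem fst_mul_inl (z : Eps A) (f : A) : (z * TrivSqZeroExt.inl f).fst = z.fst * f := by
  simp

theorem snd_mul_inl (z : Eps A) (f : A) : (z * TrivSqZeroExt.inl f).snd = z.snd * f := by
  simp [mul_comm]

theorem map_inl (φ : A →+* B) (f : A) :
    epsMap φ (TrivSqZeroExt.inl f) = TrivSqZeroExt.inl (φ f) := by
  refine TrivSqZeroExt.ext ?_ ?_
  · rw [fst_map, TrivSqZeroExt.fst_inl, TrivSqZeroExt.fst_inl]
  · rw [snd_map, TrivSqZeroExt.snd_inl, TrivSqZeroExt.snd_inl, map_zero]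

theorem main [Algebra A B] (f : A) [IsLocalization.Away f B] :
    (∀ n : ℕ, IsUnit (epsMap (algebraMap A B) ((TrivSqZeroExt.inl f : Eps A) ^ n))) ∧
    (∀ z : Eps B, ∃ (x : Eps A) (n : ℕ),
      z * epsMap (algebraMap A B) ((TrivSqZeroExt.inl f : Eps A) ^ n) =
        epsMap (algebraMap A B) x) ∧
    ∀ x y : Eps A, epsMap (algebraMap A B) x = epsMap (algebraMap A B) y →
      ∃ n : ℕ, (TrivSqZeroExt.inl f : Eps A) ^ n * x = (TrivSqZeroExt.inl f : Eps A) ^ n * y := by
  have hu : IsUnit (algebraMap A B f) := IsLocalization.Away.algebraMap_isUnit f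
  refine ⟨fun n => ?_, fun z => ?_, fun x y h => ?_⟩
  · rw [map_pow, map_inl]
    exact (hu.map (TrivSqZeroExt.inlHom B B)).pow n
  · obtain ⟨n, a, ha⟩ := IsLocalization.Away.surj f z.fst
    obtain ⟨m, b, hb⟩ := IsLocalization.Away.surj f z.snd
    refine ⟨TrivSqZeroExt.inl (a * f ^ m) + TrivSqZeroExt.inr (b * f ^ n), n + m, ?_⟩
    rw [inl_pow, map_inl]
    refine TrivSqZeroExt.ext ?_ ?_
    · rw [fst_mul_inl, fst_map, TrivSqZeroExt.fst_add, TrivSqZeroExt.fst_inl,
        TrivSqZeroExt.fst_inr, add_zero, map_mul, ← ha, map_pow, map_pow, pow_add]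
      ring
    · rw [snd_mul_inl, snd_map, TrivSqZeroExt.snd_add, TrivSqZeroExt.snd_inl,
        TrivSqZeroExt.snd_inr, zero_add, map_mul, ← hb, map_pow, map_pow, pow_add]
      ring
  · have h1 : algebraMap A B x.fst = algebraMap A B y.fst := by
      rw [← fst_map, ← fst_map, h]
    have h2 : algebraMap A B x.snd = algebraMap A B y.snd := by
      rw [← snd_map, ← snd_map, h]
    obtain ⟨⟨_, n, rfl⟩, hn⟩ := IsLocalization.exists_of_eq (M := Submonoid.powers f) h1
    obtain ⟨⟨_, m, rfl⟩, hm⟩ := IsLocalization.exists_of_eq (M := Submonoid.powers f) h2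
    simp only at hn hm
    refine ⟨n + m, ?_⟩
    rw [inl_pow, mul_comm _ x, mul_comm _ y]
    refine TrivSqZeroExt.ext ?_ ?_
    · rw [fst_mul_inl, fst_mul_inl, pow_add]
      linear_combination f ^ m * hn
    · rw [snd_mul_inl, snd_mul_inl, pow_add]
      linear_combination f ^ n * hm

end LOEx

/-- LOE -/
theorem t_LOE : Stmt_LOE := by
  intro A B _ _ _ f _
  let _ := (epsMap (algebraMap A B)).toAlgebra
  obtain ⟨h1, h2, h3⟩ := LOEx.main (B := B) f
  change IsLocalization (Submonoid.powers (TrivSqZeroExt.inl f : Eps A)) (Eps B)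
  rw [isLocalization_iff]
  refine ⟨?_, ?_, ?_⟩
  · rintro ⟨_, n, rfl⟩
    exact h1 n
  · intro z
    obtain ⟨x, n, h⟩ := h2 z
    exact ⟨⟨x, ⟨_, n, rfl⟩⟩, h⟩
  · intro x y h
    obtain ⟨n, hn⟩ := h3 x y h
    exact ⟨⟨_, n, rfl⟩, hn⟩

end Pool.Agent.MG.WL


end

section

/-!
# REL: two charts differ by a scaling
-/

open CategoryTheory CategoryTheory.Limits AlgebraicGeometry TensorProduct

namespace Pool.Agent.MG.WL

open Pool.Agent.MG.W Pool.Agent.MG.One

namespace REL

section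

variable {A B D : Type} [CommRing A] [CommRing B] [CommRing D] {φ : A →+* B} {C : Fam 1 A}

theorem aux {X1 X2 X3 X4 X5 Y3 Y4 : Scheme.{0}} (s1 : X1 ⟶ X2) (m : X2 ⟶ X3) (w : X3 ⟶ X4)
    (k : X4 ⟶ X5) (m' : X1 ⟶ Y3) (s : Y3 ⟶ X3) (w' : Y3 ⟶ Y4) (k' : Y4 ⟶ X5)
    (e3 : s1 ≫ m = m' ≫ s) (h : s ≫ w ≫ k = w' ≫ k') :
    s1 ≫ (m ≫ w) ≫ k = (m' ≫ w') ≫ k' := by
  rw [Category.assoc, ← Category.assoc, e3, Category.assoc, h, Category.assoc]

theorem aux2 {X1 X2 X3 X4 : Scheme.{0}} (s' : X1 ⟶ X2) (s : X2 ⟶ X3) (t : X1 ⟶ X3)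
    (w : X3 ⟶ X4) (w' : X2 ⟶ X4) (w'' : X1 ⟶ X4) (e : s' ≫ s = t)
    (h : s ≫ w = w') (h' : s' ≫ w' = w'') : t ≫ w = w'' := by
  rw [← e, Category.assoc, h, h']

theorem push_f (c : Ch φ C) (ψ : B →+* D) :
    (c.push ψ).e.f = (warr ψ (a := c.a) (b := c.b) rfl rfl).f ≫ c.e.f := rfl

theorem ex (hEXA : Stmt_EXA) {B' : Type} [CommRing B'] {φ' : A →+* B'} (c : Ch φ C)
    (c' : Ch φ' C) (ψ : B →+* D) (ψ' : B' →+* D) (h6 : IsUnit (6 : D))
    (h : ψ.comp φ = ψ'.comp φ') : ∃ u : D, Rel c c' ψ ψ' u := by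
  have h1 : ψ'.comp φ' = (RingHom.id D).comp (ψ.comp φ) := by
    rw [RingHom.id_comp, h]
  obtain ⟨u, v, huv, ha, hb, hf⟩ :=
    hEXA.1 h6 (arrowLift (castA h1 (c'.push ψ').e) (c.push ψ).e)
  refine ⟨u, v, huv, ha, hb, ?_⟩
  have h2 := arrowLift_f (castA h1 (c'.push ψ').e) (c.push ψ).e
  rw [hf] at h2
  exact h2

theorem uniq (hEXA : Stmt_EXA) {B' : Type} [CommRing B'] {φ' : A →+* B'} (c : Ch φ C)
    (c' : Ch φ' C) (ψ : B →+* D) (ψ' : B' →+* D) (u u' : D) (hu : Rel c c' ψ ψ' u)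
    (hu' : Rel c c' ψ ψ' u') : u = u' := by
  obtain ⟨v, huv, ha, hb, h⟩ := hu
  obtain ⟨v', huv', ha', hb', h'⟩ := hu'
  have h2 : (scarr huv ha hb).f = (scarr huv' ha' hb').f :=
    arrow_ext (scarr huv ha hb) (scarr huv' ha' hb') (c.push ψ).e (h.trans h'.symm)
  exact hEXA.2 huv ha hb huv' ha' hb' h2

theorem cmp (hSCC : Stmt_SCC) {B' B'' : Type} [CommRing B'] [CommRing B''] {φ' : A →+* B'}
    {φ'' : A →+* B''} (c : Ch φ C) (c' : Ch φ' C) (c'' : Ch φ'' C) (ψ : B →+* D)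
    (ψ' : B' →+* D) (ψ'' : B'' →+* D) (u u' : D) (hu : Rel c c' ψ ψ' u)
    (hu' : Rel c' c'' ψ' ψ'' u') : Rel c c'' ψ ψ'' (u' * u) := by
  obtain ⟨v, huv, ha, hb, h⟩ := hu
  obtain ⟨v', huv', ha', hb', h'⟩ := hu'
  have hws : (u' * u) * (v * v') = 1 := by
    calc (u' * u) * (v * v') = (u' * v') * (u * v) := by ring
      _ = 1 := by rw [huv, huv', one_mul]
  have hc : ψ'' c''.a = (u' * u) ^ 4 * ψ c.a := by
    rw [ha', ha]; ring
  have hd : ψ'' c''.b = (u' * u) ^ 6 * ψ c.b := by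
    rw [hb', hb]; ring
  refine ⟨v * v', hws, hc, hd, ?_⟩
  exact aux2 _ _ _ _ _ _ (hSCC huv ha hb huv' ha' hb' hws hc hd rfl) h h'

theorem psh {B' D' : Type} [CommRing B'] [CommRing D'] {φ' : A →+* B'} (c : Ch φ C)
    (c' : Ch φ' C) (ψ : B →+* D) (ψ' : B' →+* D) (χ : D →+* D') (u : D)
    (hu : Rel c c' ψ ψ' u) : Rel c c' (χ.comp ψ) (χ.comp ψ') (χ u) := by
  obtain ⟨v, huv, ha, hb, h⟩ := hu
  have hws : χ u * χ v = 1 := by rw [← map_mul, huv, map_one]
  have hc : (χ.comp ψ') c'.a = (χ u) ^ 4 * (χ.comp ψ) c.a := by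
    rw [RingHom.comp_apply, RingHom.comp_apply, ha, map_mul, map_pow]
  have hd : (χ.comp ψ') c'.b = (χ u) ^ 6 * (χ.comp ψ) c.b := by
    rw [RingHom.comp_apply, RingHom.comp_apply, hb, map_mul, map_pow]
  refine ⟨χ v, hws, hc, hd, ?_⟩
  have e1 : (warr (χ.comp ψ) (a := c.a) (b := c.b) rfl rfl).f =
      WX.map χ (a := ψ c.a) (b := ψ c.b) rfl rfl ≫ (warr ψ (a := c.a) (b := c.b) rfl rfl).f :=
    (warr_comp ψ χ rfl rfl rfl rfl rfl rfl rfl).symm
  have e2 : (warr (χ.comp ψ') (a := c'.a) (b := c'.b) rfl rfl).f =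
      WX.map χ (a := ψ' c'.a) (b := ψ' c'.b) rfl rfl ≫
        (warr ψ' (a := c'.a) (b := c'.b) rfl rfl).f :=
    (warr_comp ψ' χ rfl rfl rfl rfl rfl rfl rfl).symm
  have e3 := t_WSC.2.2 χ huv ha hb hws hc hd rfl rfl rfl rfl rfl
  rw [e1, e2]
  exact aux _ _ _ _ _ _ _ _ e3 h

end

end REL

theorem t_REL (hEXA : Stmt_EXA) (hSCC : Stmt_SCC) : Stmt_REL :=
  ⟨fun c c' ψ ψ' h6 h => REL.ex hEXA c c' ψ ψ' h6 h,
    fun c c' ψ ψ' u u' _ hu hu' => REL.uniq hEXA c c' ψ ψ' u u' hu hu',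
    fun c c' c'' ψ ψ' ψ'' u u' hu hu' => REL.cmp hSCC c c' c'' ψ ψ' ψ'' u u' hu hu',
    fun c c' ψ ψ' χ u hu => REL.psh c c' ψ ψ' χ u hu⟩

end Pool.Agent.MG.WL


end

section

/-!
# TRL: the coefficients of a covector in two charts, base change of the coefficient
-/

open CategoryTheory CategoryTheory.Limits AlgebraicGeometry TensorProduct

namespace Pool.Agent.MG.WL

open Pool.Agent.MG.W Pool.Agent.MG.One

namespace TRL

/-- Families with Weierstrass charts are stable under base change. -/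
theorem lw_pull {A A' : Type} [CommRing A] [CommRing A'] {φ : A →+* A'} {C : Fam 1 A}
    {C' : Fam 1 A'} (g : Arrow φ C' C) (h : LW C) : LW C' := by
  intro p
  obtain ⟨f, hf, ⟨c⟩⟩ := h (p.comap φ)
  refine ⟨φ f, fun h1 => hf h1, ⟨c.pull g (Localization.awayMap φ f) ?_⟩⟩
  ext x
  simp [Localization.awayMap, IsLocalization.Away.map]

theorem isUnit_six_loc {A B : Type} [CommRing A] [CommRing B] (φ : A →+* B)
    (h : IsUnit (6 : A)) : IsUnit (6 : B) := by
  have := h.map φ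
  rwa [map_ofNat] at this

end TRL

theorem t_TRL (hDEA : Stmt_DEA) (hDEC : Stmt_DEC) (hTAU : Stmt_TAU) : Stmt_TRL := by
  obtain ⟨-, -, -, hDEC4, hDEC5⟩ := hDEC
  refine ⟨?_, ?_⟩
  · intro A _ h6 C hs hlw f f' c c' l τ τ' hτ hτ' D _ ψ ψ' u hψ hrel
    obtain ⟨N, d0, hd0⟩ := (hTAU h6 hs hlw f c).1
    obtain ⟨δ', hδ', -⟩ := hDEA c' (TRL.isUnit_six_loc (algebraMap A _) h6) d0
    have h1 := hτ d0 _ hd0
    have h2 := hτ' d0 _ hδ'
    have h3 := hDEC4 c c' ψ ψ' u
      (TRL.isUnit_six_loc (ψ.comp (algebraMap A (Localization.Away f))) h6) hψ hrel d0 _ δ'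
      hd0 hδ'
    have h4 : ψ (algebraMap A _ (l.l d0)) = ψ' (algebraMap A _ (l.l d0)) :=
      RingHom.congr_fun hψ (l.l d0)
    rw [h1, h2, map_mul, map_mul, h3] at h4
    have hu : IsUnit (ψ (algebraMap A (Localization.Away f) f ^ N)) := by
      have : IsUnit (algebraMap A (Localization.Away f) f) :=
        IsLocalization.Away.algebraMap_isUnit f
      exact (this.pow N).map ψ
    refine hu.mul_right_cancel ?_
    rw [h4]
    ring
  · intro A A' _ _ h6 φ C C' hs hlw g l l' hcomp f c τ hτ ω h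
    have h6' : IsUnit (6 : A') := TRL.isUnit_six_loc φ h6
    obtain ⟨N, d0, hd0⟩ := (hTAU h6 hs hlw f c).1
    obtain ⟨τ', hτ', -⟩ := (hTAU h6' (arrow_stable g hs) (TRL.lw_pull g hlw) (φ f)
      (c.pull g ω h)).2 l'
    have h1 := hτ d0 _ hd0
    have h2 := hDEC5 g c ω h d0 _ hd0
    have h3 := hτ' _ _ h2
    have h4 : l'.l (bcD g d0) = φ (l.l d0) :=
      hcomp (bcD g d0) d0 (PBS.bcArrow (epsMap φ) d0.y) (bcD_r g d0)
    have h5 : algebraMap A' (Localization.Away (φ f)) (φ (l.l d0)) =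
        ω (algebraMap A _ (l.l d0)) := (RingHom.congr_fun h (l.l d0)).symm
    rw [h4, h5, h1, map_mul] at h3
    have hu : IsUnit (ω (algebraMap A (Localization.Away f) f ^ N)) := by
      have : IsUnit (algebraMap A (Localization.Away f) f) :=
        IsLocalization.Away.algebraMap_isUnit f
      exact (this.pow N).map ω
    have h6 : ω τ = τ' := hu.mul_right_cancel h3
    rw [h6]
    exact hτ'

end Pool.Agent.MG.WL


end

section

/-!
# Assembly
-/

namespace Pool.Agent.MG.WL.Asm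

theorem k_LCB : Pool.Agent.MG.WL.Stmt_LCB := Pool.Agent.MG.WL.t_LCB

theorem k_LCE : Pool.Agent.MG.WL.Stmt_LCE := Pool.Agent.MG.WL.t_LCE k_LCB

theorem k_CL : Pool.Agent.MG.WL.Stmt_CL := Pool.Agent.MG.WL.CL.t_CL

theorem k_PNE : Pool.Agent.MG.WL.Stmt_PNE := Pool.Agent.MG.WL.t_PNE k_CL

theorem k_SPL : Pool.Agent.MG.WL.Stmt_SPL := Pool.Agent.MG.WL.t_SPL k_LCB

theorem k_GNC : Pool.Agent.MG.WL.Stmt_GNC := Pool.Agent.MG.WL.t_GNC

theorem k_NCE : Pool.Agent.MG.WL.Stmt_NCE := Pool.Agent.MG.WL.t_NCE k_LCB k_PNE k_SPL k_GNC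

theorem k_LPI : Pool.Agent.MG.WL.Stmt_LPI := Pool.Agent.MG.WL.t_LPI

theorem k_GEO : Pool.Agent.MG.WL.Stmt_GEO := Pool.Agent.MG.WL.t_GEO k_LPI

theorem k_ALGF : Pool.Agent.MG.WL.Stmt_ALGF := Pool.Agent.MG.WL.t_ALGF

theorem k_QFV : Pool.Agent.MG.WL.Stmt_QFV := Pool.Agent.MG.WL.t_QFV

theorem k_TRN : Pool.Agent.MG.WL.Stmt_TRN := Pool.Agent.MG.WL.t_TRN k_CL

theorem k_FG : Pool.Agent.MG.WL.Stmt_FG := Pool.Agent.MG.WL.t_FG k_CL k_GEO k_ALGF k_QFV k_TRN

theorem k_NCB : Pool.Agent.MG.WL.Stmt_NCB := Pool.Agent.MG.WL.t_NCB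

theorem k_CEC : Pool.Agent.MG.WL.Stmt_CEC := Pool.Agent.MG.WL.t_CEC

theorem k_VNF : Pool.Agent.MG.WL.Stmt_VNF := Pool.Agent.MG.WL.t_VNF k_CEC

theorem k_VAN : Pool.Agent.MG.WL.Stmt_VAN := Pool.Agent.MG.WL.t_VAN k_CL k_LCB k_NCB k_VNF

theorem k_LFB : Pool.Agent.MG.WL.Stmt_LFB := Pool.Agent.MG.WL.t_LFB k_FG k_VAN

theorem k_DSC : Pool.Agent.MG.WL.Stmt_DSC := Pool.Agent.MG.WL.t_DSC

theorem k_LIFT : Pool.Agent.MG.WL.Stmt_LIFT := Pool.Agent.MG.WL.t_LIFT k_NCE k_LFB k_DSC

theorem k_FLK : Pool.Agent.MG.WL.Stmt_FLK := Pool.Agent.MG.WL.t_FLK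

theorem k_FCP : Pool.Agent.MG.WL.Stmt_FCP := Pool.Agent.MG.WL.t_FCP k_FLK

theorem k_FLW : Pool.Agent.MG.WL.Stmt_FLW := Pool.Agent.MG.WL.t_FLW

theorem k_FGF : Pool.Agent.MG.WL.Stmt_FGF := Pool.Agent.MG.WL.t_FGF k_CL k_LCB k_FCP k_FLW

theorem k_FPR : Pool.Agent.MG.WL.Stmt_FPR := Pool.Agent.MG.WL.t_FPR

theorem k_FQF : Pool.Agent.MG.WL.Stmt_FQF := Pool.Agent.MG.WL.t_FQF

theorem k_FSP : Pool.Agent.MG.WL.Stmt_FSP := Pool.Agent.MG.WL.t_FSP

theorem k_FAL : Pool.Agent.MG.WL.Stmt_FAL := Pool.Agent.MG.WL.t_FAL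

theorem k_FCH : Pool.Agent.MG.WL.Stmt_FCH := Pool.Agent.MG.WL.t_FCH k_FLK

theorem k_FIN : Pool.Agent.MG.WL.Stmt_FIN := Pool.Agent.MG.WL.t_FIN k_FLK k_FGF k_FPR k_FQF k_FSP k_FAL k_FCH

theorem k_WLF : Pool.Agent.MG.WL.Stmt_WLF := Pool.Agent.MG.WL.t_WLF k_LCE k_LCB k_LIFT k_FIN

theorem k_DEA : Pool.Agent.MG.WL.Stmt_DEA := Pool.Agent.MG.WL.t_DEA

theorem k_DEC : Pool.Agent.MG.WL.Stmt_DEC := Pool.Agent.MG.WL.t_DEC k_DEA

theorem k_DEI : Pool.Agent.MG.WL.Stmt_DEI := Pool.Agent.MG.WL.t_DEI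

theorem k_GAR : Pool.Agent.MG.WL.Stmt_GAR := Pool.Agent.MG.WL.t_GAR

theorem k_EXA : Pool.Agent.MG.WL.Stmt_EXA := Pool.Agent.MG.WL.t_EXA

theorem k_LOE : Pool.Agent.MG.WL.Stmt_LOE := Pool.Agent.MG.WL.t_LOE

theorem k_RGD : Pool.Agent.MG.WL.Stmt_RGD := Pool.Agent.MG.WL.t_RGD k_EXA k_LOE

theorem k_DSP : Pool.Agent.MG.WL.Stmt_DSP := Pool.Agent.MG.WL.t_DSP k_DEI k_GAR k_RGD k_LOE

theorem k_SCC : Pool.Agent.MG.WL.Stmt_SCC := Pool.Agent.MG.WL.t_SCC

theorem k_REL : Pool.Agent.MG.WL.Stmt_REL := Pool.Agent.MG.WL.t_REL k_EXA k_SCC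

theorem k_GLD : Pool.Agent.MG.WL.Stmt_GLD := Pool.Agent.MG.WL.t_GLD

theorem k_STL : Pool.Agent.MG.WL.Stmt_STL := Pool.Agent.MG.WL.t_STL

theorem k_DGL : Pool.Agent.MG.WL.Stmt_DGL := Pool.Agent.MG.WL.t_DGL k_REL k_DEI k_GLD k_GAR k_STL k_RGD k_LOE

theorem k_EXT : Pool.Agent.MG.WL.Stmt_EXT := Pool.Agent.MG.WL.t_EXT k_REL

theorem k_TAU : Pool.Agent.MG.WL.Stmt_TAU := Pool.Agent.MG.WL.t_TAU k_DEA k_DEC k_DSP k_DGL k_EXT

theorem k_TRL : Pool.Agent.MG.WL.Stmt_TRL := Pool.Agent.MG.WL.t_TRL k_DEA k_DEC k_TAU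

theorem k_VAL : Pool.Agent.MG.WL.Stmt_VAL := Pool.Agent.MG.WL.t_VAL k_REL k_TAU k_TRL

theorem k_EX : Pool.Agent.MG.WL.Stmt_EX := Pool.Agent.MG.WL.t_EX k_WLF k_DEA k_DEC k_TAU k_TRL k_VAL

end Pool.Agent.MG.WL.Asm

namespace Pool.Agent.MG.Std

/-- `(g, n) = (1, 1)`. -/
theorem answer_one_one : Answer 1 1 2 := answer_11 WL.Asm.k_EX

end Pool.Agent.MG.Std


end
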