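import Mathlib
import Pool.Agent.KDM.C11
import Pool.Agent.KDM.C13
import Pool.Agent.KDM.C25

/-! Parts: MG.G0.GSM, MG.G0.UMD -/

section

/-!
# GSM: the smoothness certificate of the special curve
-/

open Polynomial

namespace Pool.Agent.MG.G0

namespace GSM

/-! ## Linear algebra in the module of differentials -/

section lin

variable {R M : Type} [CommRing R] [AddCommGroup M] [Module R M]

theorem rels (a b a' b' y w h : R) (dX dY dW : M) (h2 : h * 2 = 1)
    (e1 : y ^ 2 = a * w) (e2 : y * w = a * b) (e3 : w ^ 2 = b * y)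
    (r1 : (2 * y) • dY = a • dW + (a' * w) • dX)
    (r2 : y • dW + w • dY = (a' * b + a * b') • dX)
    (r3 : (2 * w) • dW = b • dY + (b' * y) • dX) :
    (3 * a * w) • dY = (a * (2 * a' * b + a * b')) • dX ∧
    (3 * a * w) • dW = ((a' * b + 2 * a * b') * y) • dX ∧
    (a * (2 * a' * b + a * b')) • dW = ((a' * b + 2 * a * b') * y) • dY ∧
    (3 * a * b) • dY = ((2 * a' * b + a * b') * y) • dX ∧
    (3 * a * b) • dW = ((a' * b + 2 * a * b') * w) • dX ∧
    ((2 * a' * b + a * b') * y) • dW = ((a' * b + 2 * a * b') * w) • dY ∧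
    (3 * b * y) • dY = ((2 * a' * b + a * b') * w) • dX ∧
    (3 * b * y) • dW = (b * (a' * b + 2 * a * b')) • dX ∧
    ((2 * a' * b + a * b') * w) • dW = (b * (a' * b + 2 * a * b')) • dY := by
  have q1 : (3 * a * w) • dY = (a * (2 * a' * b + a * b')) • dX := by
    linear_combination (norm := module) a • r2 + y • r1 - (2 : R) • (e1 • dY) + a' • (e2 • dX)
  have q8 : (3 * b * y) • dW = (b * (a' * b + 2 * a * b')) • dX := by
    linear_combination (norm := module) b • r2 + w • r3 - (2 : R) • (e3 • dW) + b' • (e2 • dX)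
  have q4 : (3 * a * b) • dY = ((2 * a' * b + a * b') * y) • dX := by
    linear_combination (norm := module) w • r1 + y • r2 - (3 : R) • (e2 • dY) - e1 • dW +
      a' • (e3 • dX)
  have q5 : (3 * a * b) • dW = ((a' * b + 2 * a * b') * w) • dX := by
    linear_combination (norm := module) y • r3 + w • r2 - (3 : R) • (e2 • dW) - e3 • dY +
      b' • (e1 • dX)
  have q2 : (3 * a * w) • dW = ((a' * b + 2 * a * b') * y) • dX := by
    linear_combination (norm := module) a • r3 + y • r2 - e1 • dW - e2 • dY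
  have q7 : (3 * b * y) • dY = ((2 * a' * b + a * b') * w) • dX := by
    linear_combination (norm := module) b • r1 + w • r2 - e3 • dY - e2 • dW
  have c2 : ∀ u v : M, (2 : R) • u = (2 : R) • v → u = v := by
    intro u v huv
    have := congrArg (fun z => h • z) huv
    simpa only [smul_smul, h2, one_smul] using this
  have q3 : (a * (2 * a' * b + a * b')) • dW = ((a' * b + 2 * a * b') * y) • dY := by
    apply c2
    linear_combination (norm := module) a' • q5 - (a' * b + 2 * a * b') • r1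
  have q9 : ((2 * a' * b + a * b') * w) • dW = (b * (a' * b + 2 * a * b')) • dY := by
    apply c2
    linear_combination (norm := module) (2 * a' * b + a * b') • r3 - b' • q4
  have z1 : (a * 3 * w) • dY = (a * (2 * a' * b + a * b')) • dX := by
    linear_combination (norm := module) q1
  have z2 : (b * 3 * w) • dY = (b * (2 * a' * b + a * b')) • dX := by
    linear_combination (norm := module) (3 * b) • r2 - q8
  have q6 : ((2 * a' * b + a * b') * y) • dW = ((a' * b + 2 * a * b') * w) • dY := by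
    linear_combination (norm := module) (2 * a' * b + a * b') • r2 - b' • z1 - a' • z2
  exact ⟨q1, q2, q3, q4, q5, q6, q7, q8, q9⟩

/-- The cross relation for one derivation is enough on generators. -/
theorem cross {A : Type} [CommRing A] [Algebra A R] {s : Set R} (hs : Algebra.adjoin A s = ⊤)
    (E : Derivation A R R)
    (h : ∀ f ∈ s, ∀ k ∈ s, E f • KaehlerDifferential.D A R k = E k • KaehlerDifferential.D A R f)
    (f k : R) : E f • KaehlerDifferential.D A R k = E k • KaehlerDifferential.D A R f := by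
  have h1 : ∀ k ∈ s, ∀ f : R,
      E f • KaehlerDifferential.D A R k = E k • KaehlerDifferential.D A R f := by
    intro k hk f
    have e : (LinearMap.toSpanSingleton R _ (KaehlerDifferential.D A R k)).compDer E =
        E k • KaehlerDifferential.D A R :=
      Derivation.ext_of_adjoin_eq_top s hs fun f hf => h f hf k hk
    exact congrArg (fun D => D f) e
  have e : (LinearMap.toSpanSingleton R _ (KaehlerDifferential.D A R f)).compDer E =
      E f • KaehlerDifferential.D A R :=
    Derivation.ext_of_adjoin_eq_top s hs fun k hk => (h1 k hk f).symm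
  exact (congrArg (fun D => D k) e).symm

theorem smul_cross {A : Type} [CommRing A] [Algebra A R] (c : R) (D : Derivation A R R)
    (h : ∀ f k : R, D f • KaehlerDifferential.D A R k = D k • KaehlerDifferential.D A R f)
    (f k : R) : (c • D) f • KaehlerDifferential.D A R k =
      (c • D) k • KaehlerDifferential.D A R f := by
  rw [Derivation.smul_apply, Derivation.smul_apply, smul_assoc, smul_assoc, h f k]

/-- A smoothness certificate from derivations with cross relations. -/
theorem smC_of {A : Type} [CommRing A] [Algebra A R] {n : ℕ} (D : Fin n → Derivation A R R)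
    (g : Fin n → R) (h1 : ∑ i, D i (g i) = 1)
    (h2 : ∀ i, ∀ f k : R,
      D i f • KaehlerDifferential.D A R k = D i k • KaehlerDifferential.D A R f) : SmC A R := by
  refine ⟨n, D, g, h1, fun E f k => ?_⟩
  have h3 : ∀ i, ∀ f k : R, D i f * E k = D i k * E f := by
    intro i f k
    have e := congrArg E.liftKaehlerDifferential (h2 i f k)
    rw [map_smul, map_smul, Derivation.liftKaehlerDifferential_comp_D,
      Derivation.liftKaehlerDifferential_comp_D, smul_eq_mul, smul_eq_mul] at e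
    exact e
  have h4 : ∀ f : R, E f = ∑ i, E (g i) * D i f := by
    intro f
    calc E f = (∑ i, D i (g i)) * E f := by rw [h1, one_mul]
      _ = ∑ i, D i (g i) * E f := Finset.sum_mul _ _ _
      _ = ∑ i, E (g i) * D i f := Finset.sum_congr rfl fun i _ => by
        rw [h3 i (g i) f, mul_comm]
  rw [h4 f, h4 k, Finset.sum_smul, Finset.sum_smul]
  refine Finset.sum_congr rfl fun i _ => ?_
  rw [mul_smul, mul_smul, h2 i f k]

end lin

/-! ## Polynomial identities -/

section pol

variable {A : Type} [CommRing A] (S : SCD A)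

theorem cases_a : S.a = 0 ∨ S.a = 1 := by
  have := S.ha
  omega

theorem isUnit_nat {m : ℕ} (h1 : 1 ≤ m) (h2 : m ≤ 6 * S.g + 9) : IsUnit (m : A) := by
  have h : m ∣ (6 * S.g + 9).factorial := Nat.dvd_factorial h1 h2
  obtain ⟨k, hk⟩ := h
  have e := S.hd
  rw [hk, Nat.cast_mul] at e
  exact isUnit_of_mul_isUnit_left e

theorem cY_eq : S.cY = 2 * derivative S.pA * S.pB + S.pA * derivative S.pB := by
  have hg := S.hg
  obtain ⟨n, hn⟩ : ∃ n, S.g = n + 1 := ⟨S.g - 1, by omega⟩
  rcases cases_a S with h | h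
  · rw [SCD.cY, SCD.pA, SCD.pB, h, hn]
    simp only [pow_zero, Nat.sub_zero, derivative_sub, derivative_X_pow, derivative_one,
      Nat.cast_zero, add_zero, Nat.cast_add, Nat.cast_one, map_add, map_one, map_natCast,
      add_tsub_cancel_right, Nat.sub_self, mul_one]
    ring
  · rw [SCD.cY, SCD.pA, SCD.pB, h, hn]
    simp only [pow_one, Nat.sub_self, derivative_sub, derivative_X_pow, derivative_X, pow_zero,
      Nat.cast_add, Nat.cast_one, map_add, map_one, map_natCast, derivative_one,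
      add_tsub_cancel_right, mul_one]
    ring

theorem cW_eq : S.cW = derivative S.pA * S.pB + 2 * S.pA * derivative S.pB := by
  have hg := S.hg
  obtain ⟨n, hn⟩ : ∃ n, S.g = n + 1 := ⟨S.g - 1, by omega⟩
  rcases cases_a S with h | h
  · rw [SCD.cW, SCD.pA, SCD.pB, h, hn]
    simp only [pow_zero, Nat.sub_zero, derivative_X_pow, derivative_one,
      Nat.cast_zero, Nat.cast_add, Nat.cast_one, map_add, map_one, map_natCast,
      add_tsub_cancel_right, Nat.sub_self, mul_one, map_sub, map_mul, map_ofNat, sub_zero]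
    ring
  · rw [SCD.cW, SCD.pA, SCD.pB, h, hn]
    simp only [pow_one, Nat.sub_self, derivative_X_pow, derivative_X, pow_zero,
      Nat.cast_add, Nat.cast_one, map_add, map_one, map_natCast, derivative_one,
      add_tsub_cancel_right, map_sub, map_mul, map_ofNat]
    ring

theorem bezout : ∃ u v s : A[X],
    u * S.pD + v * (S.pA * S.cY) + s * (S.pB * S.cW) = 1 := by
  obtain ⟨k, hk⟩ := (isUnit_nat S (m := S.g) (by have := S.hg; omega) (by omega)).exists_left_inv
  have hg := S.hg
  obtain ⟨n, hn⟩ : ∃ n, S.g = n + 1 := ⟨S.g - 1, by omega⟩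
  have hk' : C k * (n + 1 : A[X]) = 1 := by
    rw [hn] at hk
    push_cast at hk
    have := congrArg (C : A → A[X]) hk
    simpa only [map_mul, map_add, map_natCast, map_one] using this
  rcases cases_a S with h | h
  · refine ⟨-C k * ((n : A[X]) + 2) ^ 2 * X ^ n, C k * ((n : A[X]) + 2) * X ^ (n + 1) - 1, 0, ?_⟩
    rw [SCD.cY, SCD.pA, SCD.pD, h, hn]
    simp only [pow_zero, Nat.cast_zero, add_zero, Nat.cast_add, Nat.cast_one, map_add, map_one,
      map_natCast]
    linear_combination (((n : A[X]) + 2) * X ^ (n + 1)) * hk'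
  · refine ⟨C k * ((n : A[X]) + 3) *
        ((2 * (n : A[X]) + 3) * X ^ (2 * n + 1) - (2 * (n : A[X]) + 4) * X ^ n),
      -C k * ((2 * (n : A[X]) + 3) * X ^ (2 * n + 1) - (2 * (n : A[X]) + 4) * X ^ n), 1, ?_⟩
    rw [SCD.cY, SCD.pA, SCD.pD, SCD.pB, SCD.cW, h, hn]
    simp only [pow_one, Nat.sub_self, pow_zero, Nat.cast_add, Nat.cast_one, map_add, map_one,
      map_natCast, add_tsub_cancel_right, map_sub, map_mul, map_ofNat]
    linear_combination (-((2 * (n : A[X]) + 3) * X ^ (2 * n + 2) -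
      (2 * (n : A[X]) + 4) * X ^ (n + 1))) * hk'

end pol

/-! ## The derivations -/

section der

variable {A : Type} [CommRing A] (S : SCD A)

theorem adjoin_top : Algebra.adjoin A ({S.x, S.y, S.w} : Set S.R) = ⊤ := by
  have h : (Subtype.val ⁻¹' ({zz A 3, S.Y, S.W} : Set (LaurentSeries A)) : Set S.R) =
      {S.x, S.y, S.w} := by
    ext f
    simp [Subtype.ext_iff, SCD.x, SCD.y, SCD.w]
  rw [← h]
  exact Algebra.adjoin_adjoin_coe_preimage

theorem ld_algebraMap (a : A) : ld (algebraMap A (LaurentSeries A) a) = 0 := by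
  ext n
  rw [ld_coeff, coeff_algebraMap, HahnSeries.coeff_zero]
  split_ifs with h
  · rw [h]
    simp
  · rw [mul_zero]

theorem exD (θ : LaurentSeries A) (p q r : S.R) (hx : θ * ld (zz A 3) = p)
    (hy : θ * ld S.Y = q) (hw : θ * ld S.W = r) :
    ∃ D : Derivation A S.R S.R, D S.x = p ∧ D S.y = q ∧ D S.w = r := by
  have h : ∀ f ∈ S.R, θ * ld f ∈ S.R := by
    intro f hf
    induction hf using Algebra.adjoin_induction with
    | mem f hf =>
      rcases hf with rfl | rfl | rfl
      · rw [hx]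
        exact p.2
      · rw [hy]
        exact q.2
      · rw [hw]
        exact r.2
    | algebraMap a =>
      rw [ld_algebraMap, mul_zero]
      exact zero_mem _
    | add f g _ _ h1 h2 =>
      rw [ld_add, mul_add]
      exact add_mem h1 h2
    | mul f g hf hg h1 h2 =>
      have e : θ * ld (f * g) = f * (θ * ld g) + g * (θ * ld f) := by
        rw [ld_mul]
        ring
      rw [e]
      exact add_mem (mul_mem hf h2) (mul_mem hg h1)
  refine ⟨Derivation.mk'
    { toFun := fun f => (⟨θ * ld (f : LaurentSeries A), h f f.2⟩ : S.R)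
      map_add' := fun f g => Subtype.ext (by
        change θ * ld ((f : LaurentSeries A) + (g : LaurentSeries A)) =
          θ * ld (f : LaurentSeries A) + θ * ld (g : LaurentSeries A)
        rw [ld_add, mul_add])
      map_smul' := fun a f => Subtype.ext (by
        change θ * ld (a • (f : LaurentSeries A)) = a • (θ * ld (f : LaurentSeries A))
        rw [ld_smul, mul_smul_comm]) } (fun f g => Subtype.ext (by
        change θ * ld ((f : LaurentSeries A) * (g : LaurentSeries A)) =
          (f : LaurentSeries A) * (θ * ld (g : LaurentSeries A)) +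
            (g : LaurentSeries A) * (θ * ld (f : LaurentSeries A))
        rw [ld_mul]
        ring)), Subtype.ext hx, Subtype.ext hy, Subtype.ext hw⟩

include S in
theorem ld_zz_inv : ∃ ι : LaurentSeries A, ι * ld (zz A 3) = 1 := by
  obtain ⟨k, hk⟩ := (isUnit_nat S (m := 3) (by omega) (by omega)).exists_left_inv
  have e : ld (zz A 3) = HahnSeries.single (-4 : ℤ) (-3 : A) := by
    ext n
    rw [ld_coeff, zz, HahnSeries.coeff_single, HahnSeries.coeff_single]
    by_cases h : n = -4
    · subst h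
      rw [if_pos (by norm_num), if_pos rfl]
      norm_num
    · rw [if_neg (by push_cast; omega), if_neg h, mul_zero]
  refine ⟨HahnSeries.single 4 (-k), ?_⟩
  rw [e, HahnSeries.single_mul_single]
  have e1 : (4 : ℤ) + -4 = 0 := by norm_num
  have e2 : -k * -3 = 1 := by
    push_cast at hk
    linear_combination hk
  rw [e1, e2]
  rfl

theorem cross3 (E : Derivation A S.R S.R)
    (h1 : E S.x • KaehlerDifferential.D A S.R S.y = E S.y • KaehlerDifferential.D A S.R S.x)
    (h2 : E S.x • KaehlerDifferential.D A S.R S.w = E S.w • KaehlerDifferential.D A S.R S.x)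
    (h3 : E S.y • KaehlerDifferential.D A S.R S.w = E S.w • KaehlerDifferential.D A S.R S.y)
    (f k : S.R) : E f • KaehlerDifferential.D A S.R k = E k • KaehlerDifferential.D A S.R f := by
  refine cross (adjoin_top S) E ?_ f k
  rintro f (rfl | rfl | rfl) k (rfl | rfl | rfl)
  · rfl
  · exact h1
  · exact h2
  · exact h1.symm
  · rfl
  · exact h3
  · exact h2.symm
  · exact h3.symm
  · rfl

end der

end GSM

/-- GSM: the special curve has a smoothness certificate. -/
theorem t_GSM (h1 : Stmt_GST) : Stmt_GSM := by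
  intro A _ S
  obtain ⟨g1, g2, g3, g4, g5, g6, g7, g8, -, -, -, -, -⟩ := h1 S
  obtain ⟨v3, hv3⟩ := (GSM.isUnit_nat S (m := 3) (by omega) (by omega)).exists_left_inv
  obtain ⟨v2, hv2⟩ := (GSM.isUnit_nat S (m := 2) (by omega) (by omega)).exists_left_inv
  obtain ⟨ι, hι⟩ := GSM.ld_zz_inv S
  -- coercions
  have hc : ∀ p : A[X], ((aeval S.x p : S.R) : LaurentSeries A) = zpol A 3 p := fun p => by
    rw [Polynomial.aeval_subalgebra_coe]
    rfl
  set a : S.R := aeval S.x S.pA with ha
  set b : S.R := aeval S.x S.pB with hb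
  set a' : S.R := aeval S.x (derivative S.pA) with ha'
  set b' : S.R := aeval S.x (derivative S.pB) with hb'
  have hd : (aeval S.x S.pD : S.R) = a * b := by rw [← g4, map_mul]
  have hY : (aeval S.x S.cY : S.R) = 2 * a' * b + a * b' := by
    rw [GSM.cY_eq, map_add, map_mul, map_mul, map_mul, map_ofNat]
  have hW : (aeval S.x S.cW : S.R) = a' * b + 2 * a * b' := by
    rw [GSM.cW_eq, map_add, map_mul, map_mul, map_mul, map_ofNat]
  have e1 : S.y ^ 2 = a * S.w := Subtype.ext (by
    change S.Y ^ 2 = (a : LaurentSeries A) * S.W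
    rw [ha, hc, g1])
  have e2 : S.y * S.w = a * b := Subtype.ext (by
    rw [← hd, hc]
    exact g2)
  have e3 : S.w ^ 2 = b * S.y := Subtype.ext (by
    change S.W ^ 2 = (b : LaurentSeries A) * S.Y
    rw [hb, hc, g3])
  -- the relations in the module of differentials
  have r1 : (2 * S.y) • KaehlerDifferential.D A S.R S.y =
      a • KaehlerDifferential.D A S.R S.w + (a' * S.w) • KaehlerDifferential.D A S.R S.x := by
    have h := congrArg (KaehlerDifferential.D A S.R) e1
    rw [pow_two, Derivation.leibniz, Derivation.leibniz, ha, Derivation.map_aeval] at h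
    linear_combination (norm := module) h
  have r2 : S.y • KaehlerDifferential.D A S.R S.w + S.w • KaehlerDifferential.D A S.R S.y =
      (a' * b + a * b') • KaehlerDifferential.D A S.R S.x := by
    have h := congrArg (KaehlerDifferential.D A S.R) e2
    rw [Derivation.leibniz, Derivation.leibniz, ha, hb, Derivation.map_aeval,
      Derivation.map_aeval] at h
    linear_combination (norm := module) h
  have r3 : (2 * S.w) • KaehlerDifferential.D A S.R S.w =
      b • KaehlerDifferential.D A S.R S.y + (b' * S.y) • KaehlerDifferential.D A S.R S.x := by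
    have h := congrArg (KaehlerDifferential.D A S.R) e3
    rw [pow_two, Derivation.leibniz, Derivation.leibniz, hb, Derivation.map_aeval] at h
    linear_combination (norm := module) h
  have hv2' : algebraMap A S.R v2 * 2 = 1 := by
    have h := congrArg (algebraMap A S.R) hv2
    simpa only [map_mul, map_ofNat, map_one, Nat.cast_ofNat] using h
  have hv3' : algebraMap A S.R v3 * 3 = 1 := by
    have h := congrArg (algebraMap A S.R) hv3
    simpa only [map_mul, map_ofNat, map_one, Nat.cast_ofNat] using h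
  have hv3'' : algebraMap A (LaurentSeries A) v3 * 3 = 1 := by
    have h := congrArg (algebraMap A (LaurentSeries A)) hv3
    simpa only [map_mul, map_ofNat, map_one, Nat.cast_ofNat] using h
  obtain ⟨q1, q2, q3, q4, q5, q6, q7, q8, q9⟩ := GSM.rels a b a' b' S.y S.w _ _ _ _ hv2'
    e1 e2 e3 r1 r2 r3
  rw [← hY] at q1 q3 q4 q6 q7 q9
  rw [← hW] at q2 q3 q5 q6 q8 q9
  -- the derivations
  set cy : S.R := aeval S.x S.cY with hcy
  set cw : S.R := aeval S.x S.cW with hcw
  set v : S.R := algebraMap A S.R v3 with hv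
  have h3s : ∀ f : LaurentSeries A, (3 : A) • f = 3 * f := fun f => by
    rw [Algebra.smul_def, map_ofNat]
  rw [h3s, ← g2] at g7 g8
  have k1 : ι * S.W * ld S.Y = algebraMap A (LaurentSeries A) v3 * zpol A 3 S.cY := by
    linear_combination (-(ι * S.W * ld S.Y)) * hv3'' +
      (algebraMap A (LaurentSeries A) v3 * ι * S.Yi) * g7 +
      (algebraMap A (LaurentSeries A) v3 * ι * (zpol A 3 S.cY * ld (zz A 3) -
        3 * S.W * ld S.Y)) * g5 + algebraMap A (LaurentSeries A) v3 * zpol A 3 S.cY * hι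
  have k2 : ι * S.Y * ld S.W = algebraMap A (LaurentSeries A) v3 * zpol A 3 S.cW := by
    linear_combination (-(ι * S.Y * ld S.W)) * hv3'' +
      (algebraMap A (LaurentSeries A) v3 * ι * S.Wi) * g8 +
      (algebraMap A (LaurentSeries A) v3 * ι * (zpol A 3 S.cW * ld (zz A 3) -
        3 * S.Y * ld S.W)) * g6 + algebraMap A (LaurentSeries A) v3 * zpol A 3 S.cW * hι
  obtain ⟨D1, x1, y1, w1⟩ := GSM.exD S (ι * S.Y ^ 2) (a * S.w) (v * (a * cy)) (v * (S.y * cw))
    (by
      change ι * S.Y ^ 2 * ld (zz A 3) = (a : LaurentSeries A) * S.W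
      rw [ha, hc, ← g1]
      linear_combination S.Y ^ 2 * hι)
    (by
      change ι * S.Y ^ 2 * ld S.Y =
        algebraMap A (LaurentSeries A) v3 * ((a : LaurentSeries A) * (cy : LaurentSeries A))
      rw [ha, hcy, hc, hc, g1]
      linear_combination zpol A 3 S.pA * k1)
    (by
      change ι * S.Y ^ 2 * ld S.W =
        algebraMap A (LaurentSeries A) v3 * (S.Y * (cw : LaurentSeries A))
      rw [hcw, hc]
      linear_combination S.Y * k2)
  obtain ⟨D2, x2, y2, w2⟩ := GSM.exD S (ι * (S.Y * S.W)) (a * b) (v * (S.y * cy)) (v * (S.w * cw))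
    (by
      change ι * (S.Y * S.W) * ld (zz A 3) = ((a * b : S.R) : LaurentSeries A)
      rw [← hd, hc, ← g2]
      linear_combination (S.Y * S.W) * hι)
    (by
      change ι * (S.Y * S.W) * ld S.Y =
        algebraMap A (LaurentSeries A) v3 * (S.Y * (cy : LaurentSeries A))
      rw [hcy, hc]
      linear_combination S.Y * k1)
    (by
      change ι * (S.Y * S.W) * ld S.W =
        algebraMap A (LaurentSeries A) v3 * (S.W * (cw : LaurentSeries A))
      rw [hcw, hc]
      linear_combination S.W * k2)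
  obtain ⟨D3, x3, y3, w3⟩ := GSM.exD S (ι * S.W ^ 2) (b * S.y) (v * (S.w * cy)) (v * (b * cw))
    (by
      change ι * S.W ^ 2 * ld (zz A 3) = (b : LaurentSeries A) * S.Y
      rw [hb, hc, ← g3]
      linear_combination S.W ^ 2 * hι)
    (by
      change ι * S.W ^ 2 * ld S.Y =
        algebraMap A (LaurentSeries A) v3 * (S.W * (cy : LaurentSeries A))
      rw [hcy, hc]
      linear_combination S.W * k1)
    (by
      change ι * S.W ^ 2 * ld S.W =
        algebraMap A (LaurentSeries A) v3 * ((b : LaurentSeries A) * (cw : LaurentSeries A))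
      rw [hb, hcw, hc, hc, g3]
      linear_combination zpol A 3 S.pB * k2)
  -- the cross relations
  have c1 := GSM.cross3 S D1
    (by
      rw [x1, y1]
      linear_combination (norm := module) v • q1 -
        (hv3' * (a * S.w)) • KaehlerDifferential.D A S.R S.y)
    (by
      rw [x1, w1]
      linear_combination (norm := module) v • q2 -
        (hv3' * (a * S.w)) • KaehlerDifferential.D A S.R S.w)
    (by rw [y1, w1]; linear_combination (norm := module) v • q3)
  have c2 := GSM.cross3 S D2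
    (by
      rw [x2, y2]
      linear_combination (norm := module) v • q4 -
        (hv3' * (a * b)) • KaehlerDifferential.D A S.R S.y)
    (by
      rw [x2, w2]
      linear_combination (norm := module) v • q5 -
        (hv3' * (a * b)) • KaehlerDifferential.D A S.R S.w)
    (by rw [y2, w2]; linear_combination (norm := module) v • q6)
  have c3 := GSM.cross3 S D3
    (by
      rw [x3, y3]
      linear_combination (norm := module) v • q7 -
        (hv3' * (b * S.y)) • KaehlerDifferential.D A S.R S.y)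
    (by
      rw [x3, w3]
      linear_combination (norm := module) v • q8 -
        (hv3' * (b * S.y)) • KaehlerDifferential.D A S.R S.w)
    (by rw [y3, w3]; linear_combination (norm := module) v • q9)
  -- the certificate
  obtain ⟨p, q, s, hpqs⟩ := GSM.bezout S
  have hB := congrArg (aeval S.x : A[X] → S.R) hpqs
  rw [map_add, map_add, map_mul, map_mul, map_mul, map_mul, map_mul, map_one, hd, ← ha, ← hb,
    ← hcy, ← hcw] at hB
  refine GSM.smC_of ![(aeval S.x p : S.R) • D2, (3 * aeval S.x q : S.R) • D1,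
    (3 * aeval S.x s : S.R) • D3] ![S.x, S.y, S.w] ?_ ?_
  · rw [Fin.sum_univ_three]
    simp only [Matrix.cons_val_zero, Matrix.cons_val_one, Matrix.cons_val]
    rw [Derivation.smul_apply, Derivation.smul_apply, Derivation.smul_apply, x2, y1, w3,
      smul_eq_mul, smul_eq_mul, smul_eq_mul]
    linear_combination hB + (aeval S.x q * (a * cy) + aeval S.x s * (b * cw)) * hv3'
  · intro i f k
    fin_cases i
    · exact GSM.smul_cross _ D2 c2 f k
    · exact GSM.smul_cross _ D1 c1 f k
    · exact GSM.smul_cross _ D3 c3 f k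


end Pool.Agent.MG.G0


end

section

/-!
# The ultraproduct of models is a model (PAPER.md, sections ULT, U1)
-/

open Polynomial

namespace Pool.Agent.MG.G0

namespace UMD

/-! ### Series and polynomials over the product ring -/

section asm

variable {R : ℕ → Type} [∀ n, CommRing (R n)]

/-- The component `n` of an element of the product. -/
def en (R : ℕ → Type) [∀ n, CommRing (R n)] (n : ℕ) : (∀ n, R n) →+* R n := Pi.evalRingHom R n

theorem en_apply (n : ℕ) (x : ∀ n, R n) : en R n x = x n := rfl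

theorem asm_ls {f : ∀ n, LaurentSeries (R n)} {N : ℤ} (h : ∀ n, f n ∈ Po (R n) N) :
    ∃ F : LaurentSeries (∀ n, R n), ∀ n, lmap (en R n) F = f n := by
  refine ⟨⟨fun m n => (f n).coeff m, ?_⟩, fun n => ?_⟩
  · refine (Set.IsPWO.mono (t := Set.Ici (-N)) ?_ fun m hm => ?_)
    · exact (BddBelow.isWF ⟨_, fun _ h => h⟩).isPWO
    · by_contra h'
      rw [Set.mem_Ici, not_le] at h'
      exact hm (funext fun n => h n m h')
  · ext m
    rfl

theorem asm_pol {f : ∀ n, (R n)[X]} {N : ℕ} (h : ∀ n, (f n).natDegree ≤ N) :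
    ∃ F : (∀ n, R n)[X], ∀ n, F.map (en R n) = f n := by
  refine ⟨∑ i ∈ Finset.range (N + 1), monomial i fun n => (f n).coeff i, fun n => ?_⟩
  rw [Polynomial.map_sum]
  simp only [map_monomial]
  exact ((f n).as_sum_range' (N + 1) (Nat.lt_succ_of_le (h n))).symm

theorem ls_all {F G : LaurentSeries (∀ n, R n)}
    (h : ∀ n, lmap (en R n) F = lmap (en R n) G) : F = G := by
  ext m n
  exact congrArg (fun f => f.coeff m) (h n)

variable (𝒰 : Ultrafilter ℕ)

theorem ls_eq {F G : LaurentSeries (∀ n, R n)}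
    (h : ∀ᶠ n in (𝒰 : Filter ℕ), lmap (en R n) F = lmap (en R n) G) :
    lmap (umk 𝒰) F = lmap (umk 𝒰) G := by
  ext m
  rw [lmap_coeff, lmap_coeff, umk_eq]
  filter_upwards [h] with n hn
  exact congrArg (fun f => f.coeff m) hn

theorem pol_eq {F G : (∀ n, R n)[X]}
    (h : ∀ᶠ n in (𝒰 : Filter ℕ), F.map (en R n) = G.map (en R n)) :
    F.map (umk 𝒰) = G.map (umk 𝒰) := by
  ext m
  rw [coeff_map, coeff_map, umk_eq]
  filter_upwards [h] with n hn
  have h1 := congrArg (fun f => f.coeff m) hn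
  simp only [coeff_map] at h1
  exact h1

theorem user_of (F : LaurentSeries (∀ n, R n)) :
    USer 𝒰 (lmap (umk 𝒰) F) fun n => lmap (en R n) F := by
  obtain ⟨N, hN⟩ := exists_low F
  refine ⟨⟨N, fun n m hm => ?_⟩, fun m => rfl⟩
  rw [lmap_coeff, hN m hm, map_zero]

theorem of_user {F : LaurentSeries (Ul 𝒰 R)} {f : ∀ n, LaurentSeries (R n)}
    (h : USer 𝒰 F f) : ∃ G : LaurentSeries (∀ n, R n), lmap (umk 𝒰) G = F ∧
      ∀ n, lmap (en R n) G = f n := by
  obtain ⟨⟨N, hN⟩, h1⟩ := h
  obtain ⟨G, hG⟩ := asm_ls hN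
  refine ⟨G, ?_, hG⟩
  ext m
  rw [lmap_coeff, h1 m]
  congr 1
  funext n
  rw [← hG n]
  rfl

theorem mem_UP' {P : ∀ n, Subalgebra (R n) (LaurentSeries (R n))}
    {F : LaurentSeries (Ul 𝒰 R)} : F ∈ UP 𝒰 P ↔
      ∃ G : LaurentSeries (∀ n, R n), lmap (umk 𝒰) G = F ∧ ∀ n, lmap (en R n) G ∈ P n := by
  rw [mem_UP]
  constructor
  · rintro ⟨f, hf, hf'⟩
    obtain ⟨G, h1, h2⟩ := of_user 𝒰 hf
    exact ⟨G, h1, fun n => by rw [h2]; exact hf' n⟩
  · rintro ⟨G, rfl, h⟩
    exact ⟨_, user_of 𝒰 G, h⟩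

theorem upol_of (F : (∀ n, R n)[X]) : UPol 𝒰 (F.map (umk 𝒰)) fun n => F.map (en R n) :=
  ⟨⟨F.natDegree, fun n => natDegree_map_le⟩, fun m => by
    rw [coeff_map]
    simp only [coeff_map]
    rfl⟩

theorem of_upol {F : (Ul 𝒰 R)[X]} {f : ∀ n, (R n)[X]} (h : UPol 𝒰 F f) :
    ∃ G : (∀ n, R n)[X], G.map (umk 𝒰) = F ∧ ∀ n, G.map (en R n) = f n := by
  obtain ⟨⟨N, hN⟩, h1⟩ := h
  obtain ⟨G, hG⟩ := asm_pol hN
  refine ⟨G, ?_, hG⟩
  ext m
  rw [coeff_map, h1 m]
  congr 1
  funext n
  rw [← hG n, coeff_map]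
  rfl

theorem exists_upol {f : ∀ n, (R n)[X]} {N : ℕ} (h : ∀ n, (f n).natDegree ≤ N) :
    ∃ F : (Ul 𝒰 R)[X], UPol 𝒰 F f := by
  obtain ⟨G, hG⟩ := asm_pol h
  refine ⟨G.map (umk 𝒰), ?_⟩
  have h1 := upol_of 𝒰 G
  simpa only [hG] using h1

theorem upol_map {S : ℕ → Type} [∀ n, CommRing (S n)] (φ : ∀ n, R n →+* S n)
    {F : (Ul 𝒰 R)[X]} {f : ∀ n, (R n)[X]} (h : UPol 𝒰 F f) :
    UPol 𝒰 (F.map (umap 𝒰 φ)) fun n => (f n).map (φ n) := by
  obtain ⟨⟨N, hN⟩, h1⟩ := h
  refine ⟨⟨N, fun n => natDegree_map_le.trans (hN n)⟩, fun m => ?_⟩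
  rw [coeff_map, h1 m, umap_umk]
  simp only [coeff_map]

theorem upol_monic {F : (Ul 𝒰 R)[X]} {f : ∀ n, (R n)[X]} (h : UPol 𝒰 F f) {D : ℕ}
    (hm : ∀ n, (f n).Monic) (hD : ∀ n, (f n).natDegree = D) :
    F.Monic ∧ F.natDegree ≤ D ∧ F.coeff D = 1 := by
  have h1 : F.natDegree ≤ D := by
    rw [natDegree_le_iff_coeff_eq_zero]
    intro m hm'
    rw [h.2 m, umk_eq_zero]
    refine Filter.Eventually.of_forall fun n => ?_
    exact coeff_eq_zero_of_natDegree_lt (by rw [hD]; exact hm')
  have h2 : F.coeff D = 1 := by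
    rw [h.2 D, ← map_one (umk 𝒰)]
    congr 1
    funext n
    have h3 := (hm n).coeff_natDegree
    rw [hD] at h3
    exact h3
  exact ⟨monic_of_natDegree_le_of_coeff_eq_one D h1 h2, h1, h2⟩

theorem eval_upol {F : (Ul 𝒰 R)[X]} {f : ∀ n, (R n)[X]} (h : UPol 𝒰 F f) (c : ∀ n, R n) :
    F.eval (umk 𝒰 c) = umk 𝒰 fun n => (f n).eval (c n) := by
  obtain ⟨G, rfl, h2⟩ := of_upol 𝒰 h
  rw [eval_map, eval₂_at_apply]
  congr 1
  funext n
  rw [← h2 n]
  have h3 := eval₂_at_apply (p := G) (en R n) c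
  rw [← eval_map] at h3
  exact h3.symm

end asm

/-! ### Bases with bounded poles -/

section bases

open ZL

theorem gram_change {A : Type} [CommRing A] {d : ℕ} {e e' : Fin d → LaurentSeries A}
    {a G : Matrix (Fin d) (Fin d) A[X]} (h : ∀ i, e i = ∑ j, zpol A d (a i j) * e' j)
    (hG : ZGram d e' G) : ZGram d e (a * G * a.transpose) := by
  intro i j
  have h1 : e i * e j = ∑ k, ∑ l, zpol A d (a i k * a j l) * (e' k * e' l) := by
    rw [h i, h j, Finset.sum_mul_sum]
    refine Finset.sum_congr rfl fun k _ => Finset.sum_congr rfl fun l _ => ?_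
    rw [map_mul]
    ring
  have h2 : pr0 A d (e i * e j) = ∑ k, ∑ l, zpol A d (a i k * a j l * G k l) := by
    rw [h1, map_sum]
    refine Finset.sum_congr rfl fun k _ => ?_
    rw [map_sum]
    refine Finset.sum_congr rfl fun l _ => ?_
    rw [pr0_zpol_mul, ← hG k l, ← map_mul]
  rw [h2, Finset.sum_comm, Matrix.mul_apply, map_sum]
  refine Finset.sum_congr rfl fun l _ => ?_
  rw [Matrix.mul_apply, Finset.sum_mul, map_sum]
  refine Finset.sum_congr rfl fun k _ => ?_
  rw [Matrix.transpose_apply]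
  congr 1
  ring

theorem zchange {A : Type} [CommRing A] {g d : ℕ} {R : Subalgebra A (LaurentSeries A)}
    (hd : 0 < d) (hR : Kr g R) {e e' : Fin d → LaurentSeries A} (he : ZBas d R e)
    (he' : ZBas d R e') : ∃ a : Matrix (Fin d) (Fin d) A[X], IsUnit a.det ∧
      ∀ i, e i = ∑ j, zpol A d (a i j) * e' j := by
  have : NeZero d := ⟨hd.ne'⟩
  obtain ⟨a, ha, h⟩ := exists_change hR (spn_of_zbas he) (spn_of_zbas he')
  refine ⟨a.submatrix (sg d) (sg d), ?_, fun i => ?_⟩
  · rwa [Matrix.det_submatrix_equiv_self]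
  · have h1 := h (sg d i)
    rw [Equiv.symm_apply_apply, ← Equiv.sum_comp (sg d)] at h1
    simp only [Equiv.symm_apply_apply] at h1
    exact h1

section

variable {κ : Type} [Field κ] {g d : ℕ} {R : Subalgebra κ (LaurentSeries κ)}

theorem zpol_deg (hd : 0 < d) {p : κ[X]} {m : ℕ} (h : zpol κ d p ∈ Po κ m) :
    p.natDegree ≤ m := by
  rw [natDegree_le_iff_coeff_eq_zero]
  intro k hk
  have h1 := ev_coeff d hd.ne' p k
  rw [← h1]
  refine h _ ?_
  have h2 : k ≤ d * k := Nat.le_mul_of_pos_left _ hd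
  omega

/-- The basis `e` has poles of order at most `N`, and the coefficients of elements are bounded by
their poles. -/
structure BB (d N : ℕ) (R : Subalgebra κ (LaurentSeries κ)) (e : Fin d → LaurentSeries κ) :
    Prop where
  bas : ZBas d R e
  low : ∀ i, e i ∈ Po κ N
  gen : ∀ m : ℕ, ∀ x ∈ R, x ∈ Po κ m → ∃ q : Fin d → κ[X], (∀ i, (q i).natDegree ≤ m) ∧
    x = ∑ i, zpol κ d (q i) * e i

theorem exists_BB (hd : 0 < d) (hR : Kr g R) (hz : zz κ d ∈ R) :
    ∃ e, BB d (2 * g + d) R e := by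
  classical
  have : NeZero d := ⟨hd.ne'⟩
  obtain ⟨N, e, hN, hN', hs, he1, he2⟩ := exists_echelon hR hz
  have hNb : ∀ i, N i ≤ 2 * g + d := by
    intro i
    have h1 : Ord R (2 * g + ((i - (2 * g : ℕ) : ZMod d)).val) :=
      ord_of_two_mul_le hR hz (Nat.le_add_right _ _)
    rw [hN'] at h1
    have h2 : ((2 * g + ((i - (2 * g : ℕ) : ZMod d)).val : ℕ) : ZMod d) = i := by
      rw [Nat.cast_add, ZMod.natCast_zmod_val]
      ring
    rw [h2] at h1
    have h3 : ((i - (2 * g : ℕ) : ZMod d)).val < d := ZMod.val_lt _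
    omega
  have hss : ∀ c : ZMod d → κ[X], ∑ i, zpol κ d (c (sg d i)) * e (sg d i) =
      ∑ i, zpol κ d (c i) * e i := fun c => Equiv.sum_comp (sg d) fun i => zpol κ d (c i) * e i
  have hbas : ZBas d R fun i => e (sg d i) := by
    apply zbas_of_spn hR
    simp only [Equiv.apply_symm_apply]
    exact hs
  refine ⟨fun i => e (sg d i), hbas, fun i => Pl_mono (by have := hNb (sg d i); omega) (he1 _),
    ?_⟩
  have key : ∀ n : ℕ, ∀ x ∈ R, x ∈ Pl κ ((n : ℤ) - 1) →
      ∃ q : ZMod d → κ[X], (∀ i, (q i).natDegree ≤ n - 1) ∧ x = ∑ i, ev d (q i) * e i := by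
    intro n
    induction n with
    | zero =>
      intro x hx hx'
      refine ⟨0, fun i => by simp, ?_⟩
      rw [eq_zero_of_neg hR hx (by simpa using hx')]
      simp
    | succ n ih =>
      intro x hx hx'
      have hx'' : x ∈ Pl κ n := by
        have h1 : ((n + 1 : ℕ) : ℤ) - 1 = n := by push_cast; ring
        rwa [h1] at hx'
      by_cases ha : x.coeff (-(n : ℤ)) = 0
      · obtain ⟨q, hq, hq'⟩ := ih x hx (mem_Pl_pred hx'' ha)
        exact ⟨q, fun i => (hq i).trans (by omega), hq'⟩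
      · have h1 : N n ≤ n := (hN' n).1 (ord_of_coeff hx hx'' ha)
        have h2 : d ∣ n - N n := by
          rw [← ZMod.natCast_eq_zero_iff, Nat.cast_sub h1, hN, sub_self]
        obtain ⟨k, hk⟩ := h2
        have h3 : (n : ℤ) = (d * k : ℕ) + (N n : ℤ) := by omega
        have hkn : k ≤ n := by
          have : k ≤ d * k := Nat.le_mul_of_pos_left _ hd
          omega
        let y : LaurentSeries κ := ev d (C (x.coeff (-(n : ℤ))) * X ^ k) * e n
        have hy : y ∈ R := by
          refine mul_mem ?_ (hs.1 _)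
          rw [map_mul, ev_C, map_pow, ev_X]
          exact mul_mem (R.algebraMap_mem _) (pow_mem hz k)
        have hy1 : y = x.coeff (-(n : ℤ)) • (ev d (X ^ k) * e n) := by
          show ev d (C (x.coeff (-(n : ℤ))) * X ^ k) * e n = _
          rw [map_mul, ev_C, mul_assoc, ← Algebra.smul_def]
        have hy2 : y ∈ Pl κ n := by
          rw [hy1, h3]
          exact Submodule.smul_mem _ _ (zzpow_mul_mem_Pl k (he1 _))
        have hy3 : y.coeff (-(n : ℤ)) = x.coeff (-(n : ℤ)) := by
          have h4 := zzpow_mul_coeff (d := d) k (he1 (n : ZMod d))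
          rw [← h3, he2] at h4
          rw [hy1, HahnSeries.coeff_smul, h4, smul_eq_mul, mul_one]
        obtain ⟨q, hqd, hq⟩ := ih (x - y) (sub_mem hx hy)
          (mem_Pl_pred (Submodule.sub_mem _ hx'' hy2) (by
            rw [HahnSeries.coeff_sub, hy3, sub_self]))
        refine ⟨q + Pi.single (n : ZMod d) (C (x.coeff (-(n : ℤ))) * X ^ k), fun i => ?_, ?_⟩
        · rw [Pi.add_apply]
          refine (natDegree_add_le _ _).trans (max_le ((hqd i).trans (by omega)) ?_)
          by_cases hi : i = (n : ZMod d)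
          · rw [hi, Pi.single_eq_same]
            exact (natDegree_C_mul_X_pow_le _ _).trans (by omega)
          · rw [Pi.single_eq_of_ne hi, natDegree_zero]
            exact Nat.zero_le _
        · have h5 : x = (x - y) + y := by abel
          conv_lhs => rw [h5, hq]
          have h6 : ∀ i, ev d ((q + Pi.single (n : ZMod d)
              (C (x.coeff (-(n : ℤ))) * X ^ k) : ZMod d → κ[X]) i) * e i =
                ev d (q i) * e i + if i = (n : ZMod d) then y else 0 := by
            intro i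
            rw [Pi.add_apply, map_add, add_mul]
            congr 1
            by_cases hi : i = (n : ZMod d)
            · rw [if_pos hi, hi, Pi.single_eq_same]
            · rw [if_neg hi, Pi.single_eq_of_ne hi, map_zero, zero_mul]
          rw [Finset.sum_congr rfl fun i _ => h6 i, Finset.sum_add_distrib, Finset.sum_ite_eq',
            if_pos (Finset.mem_univ _)]
  intro m x hx hx'
  obtain ⟨q, hq, hq'⟩ := key (m + 1) x hx (by
    have h1 : ((m + 1 : ℕ) : ℤ) - 1 = m := by push_cast; ring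
    rw [h1]
    exact hx')
  refine ⟨fun i => q (sg d i), fun i => hq _, ?_⟩
  rw [hss]
  exact hq'

end

end bases

/-! ### Ranks -/

section rank

theorem rank_fac {K : Type} [Field K] {m n r : ℕ} (M : Matrix (Fin m) (Fin n) K) :
    M.rank = r ↔ ∃ (A : Matrix (Fin m) (Fin r) K) (B : Matrix (Fin r) (Fin n) K)
      (C : Matrix (Fin r) (Fin m) K) (D : Matrix (Fin n) (Fin r) K),
      M = A * B ∧ C * A = 1 ∧ B * D = 1 := by
  constructor
  · intro h
    let T : (Fin n → K) →ₗ[K] (Fin m → K) := M.mulVecLin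
    have hr : Module.finrank K (LinearMap.range T) = Module.finrank K (Fin r → K) := by
      rw [Module.finrank_fin_fun]
      exact h
    let E : LinearMap.range T ≃ₗ[K] (Fin r → K) := LinearEquiv.ofFinrankEq _ _ hr
    let a : (Fin r → K) →ₗ[K] (Fin m → K) := (LinearMap.range T).subtype ∘ₗ E.symm.toLinearMap
    let b : (Fin n → K) →ₗ[K] (Fin r → K) := E.toLinearMap ∘ₗ T.rangeRestrict
    have hab : a ∘ₗ b = T := by
      ext1 i
      apply LinearMap.ext
      intro x
      simp [a, b]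
    obtain ⟨c, hc⟩ := a.exists_leftInverse_of_injective (by
      rw [LinearMap.ker_eq_bot]
      exact (LinearMap.range T).injective_subtype.comp E.symm.injective)
    obtain ⟨e, he⟩ := b.exists_rightInverse_of_surjective (by
      rw [LinearMap.range_eq_top]
      exact E.surjective.comp T.surjective_rangeRestrict)
    refine ⟨LinearMap.toMatrix' a, LinearMap.toMatrix' b, LinearMap.toMatrix' c,
      LinearMap.toMatrix' e, ?_, ?_, ?_⟩
    · have hT : T = Matrix.toLin' M := (Matrix.toLin'_apply' M).symm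
      rw [← LinearMap.toMatrix'_comp, hab, hT, LinearMap.toMatrix'_toLin']
    · rw [← LinearMap.toMatrix'_comp, hc, LinearMap.toMatrix'_id]
    · rw [← LinearMap.toMatrix'_comp, he, LinearMap.toMatrix'_id]
  · rintro ⟨A, B, C, D, rfl, h1, h2⟩
    apply le_antisymm
    · exact (Matrix.rank_mul_le_left A B).trans (Matrix.rank_le_width A)
    · have h3 : C * (A * B) * D = 1 := by
        rw [← Matrix.mul_assoc, h1, Matrix.one_mul, h2]
      have h4 := Matrix.rank_mul_le_left (C * (A * B)) D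
      rw [h3, Matrix.rank_one, Fintype.card_fin] at h4
      exact h4.trans (Matrix.rank_mul_le_right _ _)

variable (𝒰 : Ultrafilter ℕ)

theorem mat_eq {R : ℕ → Type} [∀ n, CommRing (R n)] {l m : Type}
    {M N : Matrix l m (∀ n, R n)} [Finite l] [Finite m]
    (h : ∀ᶠ n in (𝒰 : Filter ℕ), M.map (en R n) = N.map (en R n)) :
    M.map (umk 𝒰) = N.map (umk 𝒰) := by
  ext1 i j
  rw [Matrix.map_apply, Matrix.map_apply, umk_eq]
  filter_upwards [h] with n hn
  exact congrFun (congrFun hn i) j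

theorem rank_ultra {K : ℕ → Type} [∀ n, Field (K n)] {m r : ℕ}
    (M : Matrix (Fin m) (Fin m) (∀ n, K n))
    (h : ∀ᶠ n in (𝒰 : Filter ℕ), (M.map (en K n)).rank = r) : (M.map (umk 𝒰)).rank = r := by
  have h1 : ∀ n, ∃ (A : Matrix (Fin m) (Fin r) (K n)) (B : Matrix (Fin r) (Fin m) (K n))
      (C : Matrix (Fin r) (Fin m) (K n)) (D : Matrix (Fin m) (Fin r) (K n)),
      (M.map (en K n)).rank = r → M.map (en K n) = A * B ∧ C * A = 1 ∧ B * D = 1 := by
    intro n
    by_cases hn : (M.map (en K n)).rank = r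
    · obtain ⟨A, B, C, D, h2⟩ := (rank_fac _).1 hn
      exact ⟨A, B, C, D, fun _ => h2⟩
    · exact ⟨0, 0, 0, 0, fun h => absurd h hn⟩
  choose A B C D h2 using h1
  let A' : Matrix (Fin m) (Fin r) (∀ n, K n) := Matrix.of fun i j n => A n i j
  let B' : Matrix (Fin r) (Fin m) (∀ n, K n) := Matrix.of fun i j n => B n i j
  let C' : Matrix (Fin r) (Fin m) (∀ n, K n) := Matrix.of fun i j n => C n i j
  let D' : Matrix (Fin m) (Fin r) (∀ n, K n) := Matrix.of fun i j n => D n i j
  refine (rank_fac _).2 ⟨A'.map (umk 𝒰), B'.map (umk 𝒰), C'.map (umk 𝒰), D'.map (umk 𝒰),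
    ?_, ?_, ?_⟩
  · rw [← Matrix.map_mul]
    apply mat_eq
    filter_upwards [h] with n hn
    rw [Matrix.map_mul]
    exact (h2 n hn).1
  · rw [← Matrix.map_mul, ← Matrix.map_one (umk 𝒰) (map_zero _) (map_one _)]
    apply mat_eq
    filter_upwards [h] with n hn
    rw [Matrix.map_mul, Matrix.map_one _ (map_zero _) (map_one _)]
    exact (h2 n hn).2.1
  · rw [← Matrix.map_mul, ← Matrix.map_one (umk 𝒰) (map_zero _) (map_one _)]
    apply mat_eq
    filter_upwards [h] with n hn
    rw [Matrix.map_mul, Matrix.map_one _ (map_zero _) (map_one _)]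
    exact (h2 n hn).2.2

end rank

/-! ### Discriminants and Gram matrices of ultraproducts -/

section ultra

open ZL

variable (𝒰 : Ultrafilter ℕ) {K : ℕ → Type} [∀ n, Field (K n)] {g d : ℕ}
  {R : ∀ n, Subalgebra (K n) (LaurentSeries (K n))}

theorem zbas_ultra {N : ℕ} (hd : 0 < d) (hU : Kr g (UP 𝒰 R))
    {e : ∀ n, Fin d → LaurentSeries (K n)} (he : ∀ n, BB d N (R n) (e n))
    {E : Fin d → LaurentSeries (∀ n, K n)} (hE : ∀ i n, lmap (en K n) (E i) = e n i) :
    ZBas d (UP 𝒰 R) fun i => lmap (umk 𝒰) (E i) := by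
  have : NeZero d := ⟨hd.ne'⟩
  apply zbas_of_spn hU
  refine ⟨fun i => (mem_UP' 𝒰).2 ⟨E _, rfl, fun n => by rw [hE]; exact (he n).bas.mem _⟩,
    fun x hx => ?_⟩
  obtain ⟨Y, rfl, hY⟩ := (mem_UP' 𝒰).1 hx
  obtain ⟨m, hm⟩ := exists_low Y
  have h1 : ∀ n, lmap (en K n) Y ∈ Po (K n) m := fun n k hk => by
    rw [lmap_coeff, hm k hk, map_zero]
  choose q hq hq' using fun n => (he n).gen m _ (hY n) (h1 n)
  choose Q hQ using fun i => asm_pol (f := fun n => q n i) (N := m) (fun n => hq n i)
  refine ⟨fun i => (Q ((sg d).symm i)).map (umk 𝒰), ?_⟩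
  have h2 : Y = ∑ i, zpol _ d (Q i) * E i := by
    apply ls_all
    intro n
    rw [map_sum, hq' n]
    refine Finset.sum_congr rfl fun i _ => ?_
    rw [map_mul, lmap_zpol, hQ, hE]
  rw [h2, map_sum, ← Equiv.sum_comp (sg d).symm]
  refine Finset.sum_congr rfl fun i _ => ?_
  rw [map_mul, lmap_zpol]

theorem gram_ultra (hd : 0 < d) (hR : ∀ n, Kr g (R n)) (hz : ∀ n, zz (K n) d ∈ R n)
    (hU : Kr g (UP 𝒰 R)) (p : ∀ n, Matrix (Fin d) (Fin d) (K n)[X] → Prop)
    (hp : ∀ n (a G : Matrix (Fin d) (Fin d) (K n)[X]), IsUnit a.det → p n G →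
      p n (a * G * a.transpose))
    (h : ∀ᶠ n in (𝒰 : Filter ℕ), ∃ (e : Fin d → LaurentSeries (K n))
      (G : Matrix (Fin d) (Fin d) (K n)[X]), ZBas d (R n) e ∧ ZGram d e G ∧ p n G) :
    ∃ (E : Fin d → LaurentSeries (Ul 𝒰 K)) (G : Matrix (Fin d) (Fin d) (∀ n, K n)[X]),
      ZBas d (UP 𝒰 R) E ∧ ZGram d E (G.map (Polynomial.map (umk 𝒰))) ∧
      ∀ᶠ n in (𝒰 : Filter ℕ), p n (G.map (Polynomial.map (en K n))) := by
  choose e he using fun n => exists_BB hd (hR n) (hz n)
  choose E hE using fun i => asm_ls (f := fun n => e n i) (fun n => (he n).low i)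
  have hB := zbas_ultra 𝒰 hd hU he hE
  have h1 : ∀ n, ∃ G : Matrix (Fin d) (Fin d) (K n)[X],
      (∀ i j, (G i j).natDegree ≤ 2 * (2 * g + d)) ∧
      ((∃ (e : Fin d → LaurentSeries (K n)) (G : Matrix (Fin d) (Fin d) (K n)[X]),
        ZBas d (R n) e ∧ ZGram d e G ∧ p n G) → ZGram d (e n) G ∧ p n G) := by
    intro n
    by_cases hn : ∃ (e : Fin d → LaurentSeries (K n)) (G : Matrix (Fin d) (Fin d) (K n)[X]),
        ZBas d (R n) e ∧ ZGram d e G ∧ p n G
    · obtain ⟨e', G, h2, h3, h4⟩ := hn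
      obtain ⟨a, ha, ha'⟩ := zchange hd (hR n) (he n).bas h2
      have h5 := gram_change ha' h3
      refine ⟨_, fun i j => zpol_deg hd ?_, fun _ => ⟨h5, hp n a G ha h4⟩⟩
      rw [h5 i j]
      have h6 : e n i * e n j ∈ Po (K n) ((2 * (2 * g + d) : ℕ) : ℤ) :=
        fun m hm => mul_low ((he n).low i) ((he n).low j) m (by push_cast at hm ⊢; omega)
      intro m hm
      rw [pr0_coeff, h6 m hm, ite_self]
    · exact ⟨0, fun i j => by simp, fun h => absurd h hn⟩
  choose G hG hG' using h1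
  choose H hH using fun i j => asm_pol (f := fun n => G n i j) (fun n => hG n i j)
  refine ⟨_, Matrix.of H, hB, fun i j => ?_, ?_⟩
  · rw [Matrix.map_apply, Matrix.of_apply, ← lmap_zpol, ← map_mul, ← lmap_pr0]
    apply ls_eq
    filter_upwards [h] with n hn
    rw [lmap_zpol, hH, lmap_pr0, map_mul, hE, hE]
    exact (hG' n hn).1 i j
  · filter_upwards [h] with n hn
    have h2 : (Matrix.of H).map (Polynomial.map (en K n)) = G n := by
      ext1 i j
      exact hH i j n
    rw [h2]
    exact (hG' n hn).2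

theorem umk_unit {c : ∀ n, K n} (h : ∀ n, c n ≠ 0) : IsUnit (umk 𝒰 c) := by
  refine IsUnit.of_mul_eq_one (umk 𝒰 fun n => (c n)⁻¹) ?_
  rw [← map_mul, ← map_one (umk 𝒰)]
  congr 1
  funext n
  exact mul_inv_cancel₀ (h n)

theorem disc_ultra (hd : 0 < d) (hR : ∀ n, Kr g (R n)) (hz : ∀ n, zz (K n) d ∈ R n)
    (hU : Kr g (UP 𝒰 R)) {F : (Ul 𝒰 K)[X]} {f : ∀ n, (K n)[X]} (hF : UPol 𝒰 F f)
    (h : ∀ n, Disc d (R n) (f n)) : Disc d (UP 𝒰 R) F := by
  obtain ⟨E, G, hE, hG, hp⟩ := gram_ultra 𝒰 hd hR hz hU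
    (fun n G => ∃ u : (K n)[X], IsUnit u ∧ G.det = u * f n) (by
      rintro n a G ha ⟨u, hu, hdet⟩
      refine ⟨a.det * u * a.det, (ha.mul hu).mul ha, ?_⟩
      rw [Matrix.det_mul, Matrix.det_mul, Matrix.det_transpose, hdet]
      ring) (Filter.Eventually.of_forall fun n => h n)
  obtain ⟨F', rfl, hF'⟩ := of_upol 𝒰 hF
  have h1 : ∀ n, ∃ c : K n, c ≠ 0 ∧ ((∃ u : (K n)[X], IsUnit u ∧
      (G.map (Polynomial.map (en K n))).det = u * f n) →
      (G.map (Polynomial.map (en K n))).det = C c * f n) := by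
    intro n
    by_cases hn : ∃ u : (K n)[X], IsUnit u ∧
      (G.map (Polynomial.map (en K n))).det = u * f n
    · obtain ⟨u, hu, hu'⟩ := hn
      obtain ⟨c, hc, rfl⟩ := Polynomial.isUnit_iff.1 hu
      exact ⟨c, hc.ne_zero, fun _ => hu'⟩
    · exact ⟨1, one_ne_zero, fun h => absurd h hn⟩
  choose c hc hc' using h1
  refine ⟨E, _, hE, hG, C (umk 𝒰 c), isUnit_C.2 (umk_unit 𝒰 hc), ?_⟩
  have h2 : (G.map (Polynomial.map (umk 𝒰))).det = G.det.map (umk 𝒰) := by
    have h3 := RingHom.map_det (mapRingHom (umk 𝒰 : (∀ n, K n) →+* Ul 𝒰 K)) G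
    exact h3.symm
  rw [h2, ← map_C, ← Polynomial.map_mul]
  apply pol_eq
  filter_upwards [hp] with n hn
  rw [Polynomial.map_mul, map_C, hF' n]
  exact (RingHom.map_det (mapRingHom (en K n)) G).trans (hc' n hn)

theorem grk_ultra (hd : 0 < d) (hR : ∀ n, Kr g (R n)) (hz : ∀ n, zz (K n) d ∈ R n)
    (hU : Kr g (UP 𝒰 R)) {c : ∀ n, K n} {r : ℕ}
    (h : ∀ᶠ n in (𝒰 : Filter ℕ), GRk d (R n) (c n) r) : GRk d (UP 𝒰 R) (umk 𝒰 c) r := by
  obtain ⟨E, G, hE, hG, hp⟩ := gram_ultra 𝒰 hd hR hz hU
    (fun n G => (G.map (Polynomial.eval (c n))).rank = r) (by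
      intro n a G ha hG
      have h1 : (a * G * a.transpose).map (Polynomial.eval (c n)) =
          a.map (Polynomial.eval (c n)) * G.map (Polynomial.eval (c n)) *
            (a.map (Polynomial.eval (c n))).transpose := by
        have h2 := Matrix.map_mul (L := a * G) (M := a.transpose) (f := evalRingHom (c n))
        have h3 := Matrix.map_mul (L := a) (M := G) (f := evalRingHom (c n))
        rw [h3] at h2
        exact h2
      have h4 : IsUnit (a.map (Polynomial.eval (c n))).det := by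
        have h5 := ha.map (evalRingHom (c n))
        rw [RingHom.map_det] at h5
        exact h5
      rw [h1, Matrix.rank_mul_eq_left_of_isUnit_det _ _ (by rwa [Matrix.det_transpose]),
        Matrix.rank_mul_eq_right_of_isUnit_det _ _ h4]
      exact hG) h
  refine ⟨E, _, hE, hG, ?_⟩
  have h1 : (G.map (Polynomial.map (umk 𝒰))).map (Polynomial.eval (umk 𝒰 c)) =
      (G.map (Polynomial.eval c)).map (umk 𝒰) := by
    ext1 i j
    simp only [Matrix.map_apply]
    rw [eval_map, eval₂_at_apply]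
  rw [h1]
  apply rank_ultra
  filter_upwards [hp] with n hn
  have h2 : (G.map (Polynomial.map (en K n))).map (Polynomial.eval (c n)) =
      (G.map (Polynomial.eval c)).map (en K n) := by
    ext1 i j
    simp only [Matrix.map_apply]
    have h3 := eval₂_at_apply (p := G i j) (en K n) c
    rw [← eval_map] at h3
    exact h3
  rw [← h2]
  exact hn

/-- Bezout coefficients of bounded degree. -/
theorem bezout {A : Type} [CommRing A] {f : A[X]} {D : ℕ} (hm : f.Monic) (hD : f.natDegree ≤ D)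
    (h : f.Separable) : ∃ a b : A[X], a.natDegree ≤ 2 * D ∧ b.natDegree ≤ 2 * D ∧
      a * f + b * derivative f = 1 := by
  obtain ⟨a, b, hab⟩ := h
  have h1 := modByMonic_add_div b f
  have h2 : (a + (b /ₘ f) * derivative f) * f + (b %ₘ f) * derivative f = 1 := by
    rw [← hab]
    conv_rhs => rw [← h1]
    ring
  have h3 : (b %ₘ f).natDegree ≤ D := (natDegree_modByMonic_le b hm).trans hD
  refine ⟨_, _, ?_, h3.trans (by omega), h2⟩
  by_cases h0 : a + (b /ₘ f) * derivative f = 0
  · rw [h0, natDegree_zero]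
    exact Nat.zero_le _
  · have h4 := hm.natDegree_mul' h0
    have h5 : f * (a + (b /ₘ f) * derivative f) = 1 - (b %ₘ f) * derivative f := by
      rw [← h2]
      ring
    have h6 : (1 - (b %ₘ f) * derivative f).natDegree ≤ 2 * D := by
      refine (natDegree_sub_le _ _).trans (max_le (by simp) ?_)
      refine natDegree_mul_le.trans ?_
      have := natDegree_derivative_le f
      omega
    rw [← h5, h4] at h6
    omega

theorem sep_ultra {F : (Ul 𝒰 K)[X]} {f : ∀ n, (K n)[X]} (hF : UPol 𝒰 F f)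
    (hm : ∀ᶠ n in (𝒰 : Filter ℕ), (f n).Monic)
    (h : ∀ᶠ n in (𝒰 : Filter ℕ), (f n).Separable) : F.Separable := by
  obtain ⟨D, hD⟩ := hF.1
  obtain ⟨F', rfl, hF'⟩ := of_upol 𝒰 hF
  have h1 : ∀ n, ∃ a b : (K n)[X], a.natDegree ≤ 2 * D ∧ b.natDegree ≤ 2 * D ∧
      ((f n).Monic ∧ (f n).Separable → a * f n + b * derivative (f n) = 1) := by
    intro n
    by_cases hn : (f n).Monic ∧ (f n).Separable
    · obtain ⟨a, b, h1, h2, h3⟩ := bezout hn.1 (hD n) hn.2
      exact ⟨a, b, h1, h2, fun _ => h3⟩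
    · exact ⟨0, 0, by simp, by simp, fun h => absurd h hn⟩
  choose a b ha hb hab using h1
  obtain ⟨A, hA⟩ := asm_pol ha
  obtain ⟨B, hB⟩ := asm_pol hb
  refine ⟨A.map (umk 𝒰), B.map (umk 𝒰), ?_⟩
  rw [derivative_map, ← Polynomial.map_mul, ← Polynomial.map_mul, ← Polynomial.map_add,
    ← Polynomial.map_one (umk 𝒰)]
  apply pol_eq
  filter_upwards [hm, h] with n hn hn'
  rw [Polynomial.map_one, Polynomial.map_add, Polynomial.map_mul, Polynomial.map_mul,
    ← derivative_map, hA, hB, hF']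
  exact hab n ⟨hn, hn'⟩

theorem dbl_ultra {F : (Ul 𝒰 K)[X]} {f : ∀ n, (K n)[X]} (hF : UPol 𝒰 F f)
    (hm : ∀ n, (f n).Monic) {c : ∀ n, K n}
    (h : ∀ᶠ n in (𝒰 : Filter ℕ), Dbl (f n) (c n)) : Dbl F (umk 𝒰 c) := by
  obtain ⟨D, hD⟩ := hF.1
  obtain ⟨F', rfl, hF'⟩ := of_upol 𝒰 hF
  have h1 : ∀ n, ∃ h : (K n)[X], h.natDegree ≤ D ∧ (Dbl (f n) (c n) →
      f n = (X - C (c n)) ^ 2 * h ∧ h.eval (c n) ≠ 0 ∧ h.Separable ∧ h.Monic) := by
    intro n
    by_cases hn : Dbl (f n) (c n)
    · obtain ⟨h, h2, h3, h4⟩ := hn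
      have h5 : ((X - C (c n)) ^ 2 : (K n)[X]).Monic := (monic_X_sub_C _).pow 2
      have h6 : h.Monic := h5.of_mul_monic_left (h2 ▸ hm n)
      refine ⟨h, ?_, fun _ => ⟨h2, h3, h4, h6⟩⟩
      have h7 := hD n
      rw [h2, h5.natDegree_mul h6] at h7
      omega
    · exact ⟨0, by simp, fun h => absurd h hn⟩
  choose k hk hk' using h1
  obtain ⟨H, hH⟩ := asm_pol hk
  refine ⟨H.map (umk 𝒰), ?_, ?_, ?_⟩
  · have h2 : (X - C (umk 𝒰 c)) ^ 2 * H.map (umk 𝒰) = ((X - C c) ^ 2 * H).map (umk 𝒰) := by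
      rw [Polynomial.map_mul, Polynomial.map_pow, Polynomial.map_sub, map_X, map_C]
    rw [h2]
    apply pol_eq
    filter_upwards [h] with n hn
    rw [Polynomial.map_mul, Polynomial.map_pow, Polynomial.map_sub, map_X, map_C, hF', hH]
    exact (hk' n hn).1
  · rw [eval_upol 𝒰 (upol_of 𝒰 H), ne_eq, umk_eq_zero]
    intro h2
    obtain ⟨n, h3, h4⟩ := (h2.and h).exists
    rw [hH] at h3
    exact (hk' n h4).2.1 h3
  · refine sep_ultra 𝒰 (upol_of 𝒰 H) ?_ ?_
    · filter_upwards [h] with n hn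
      rw [hH]
      exact (hk' n hn).2.2.2
    · filter_upwards [h] with n hn
      rw [hH]
      exact (hk' n hn).2.2.1

end ultra

end UMD

open _root_.Pool.Agent.MG.G0.UMD ZL

/-- UMD (PAPER U1): the ultraproduct of models is a model, of the same type. -/
theorem t_UMD (hKBC : Stmt_KBC) (hULR : Stmt_ULR) (hUKR : Stmt_UKR) : Stmt_UMD := by
  intro 𝒰 k O L _ _ _ _ _ _ g d R M hg hd
  have hd0 : 0 < d := hd
  have : NeZero d := ⟨hd0.ne'⟩
  obtain ⟨u1, u2, u3, -, -, -, u7⟩ := hULR 𝒰
  have hdom : IsDomain (Ul 𝒰 O) := u1 O fun n => inferInstance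
  have hval : ValuationRing (Ul 𝒰 O) := u3 O (fun n => (M n).val) hdom
  have hfrac := u7 O L fun n => (M n).frac
  have hKrL : ∀ n, Kr g (R n) := fun n => (M n).bc ▸ kr_bc hKBC (M n).kr _
  have hzL : ∀ n, zz (L n) d ∈ R n := fun n => (M n).bc ▸ zz_mem_bc (M n).z _
  have hKrk : ∀ n, Kr g (M n).Pb := fun n => kr_bc hKBC (M n).kr _
  have hzk : ∀ n, zz (k n) d ∈ (M n).Pb := fun n => zz_mem_bc (M n).z _
  obtain ⟨hUP, -, -, hUbc, -, hUz⟩ := hUKR 𝒰 (fun n => (M n).P) hg fun n => (M n).kr
  have hUR := (hUKR 𝒰 R hg hKrL).1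
  have hUk := (hUKR 𝒰 (fun n => (M n).Pb) hg hKrk).1
  have hdeg : ∀ n, (M n).f.natDegree = 2 * g + d - 1 := fun n => by
    have := (M n).deg
    omega
  obtain ⟨F, hF⟩ := exists_upol 𝒰 (f := fun n => (M n).f) (N := 2 * g + d - 1)
    fun n => (hdeg n).le
  obtain ⟨hF1, hF2, hF3⟩ := upol_monic 𝒰 hF (fun n => (M n).monic) hdeg
  have hFL := upol_map 𝒰 (fun n => algebraMap (O n) (L n)) hF
  have hFk := upol_map 𝒰 (fun n => ((M n).rs : O n →+* k n)) hF
  have hmL : ∀ n, ((M n).f.map (algebraMap (O n) (L n))).Monic := fun n => (M n).monic.map _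
  have hmk : ∀ n, (M n).fb.Monic := fun n => (M n).monic.map _
  let _ : Algebra (Ul 𝒰 k) (Ul 𝒰 O) := (umap 𝒰 fun n => algebraMap (k n) (O n)).toAlgebra
  let _ : Algebra (Ul 𝒰 O) (Ul 𝒰 L) := (umap 𝒰 fun n => algebraMap (O n) (L n)).toAlgebra
  let rs : Ul 𝒰 O →ₐ[Ul 𝒰 k] Ul 𝒰 k :=
    { umap 𝒰 fun n => ((M n).rs : O n →+* k n) with
      commutes' := fun x => by
        obtain ⟨x, rfl⟩ := umk_surj 𝒰 x
        change umk 𝒰 (fun n => (M n).rs (algebraMap (k n) (O n) (x n))) = umk 𝒰 x
        congr 1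
        funext n
        exact (M n).rs.commutes (x n) }
  have hrs : ∀ x : ∀ n, O n, rs (umk 𝒰 x) = umk 𝒰 fun n => (M n).rs (x n) := fun x => rfl
  let M' : Mdl (Ul 𝒰 k) (Ul 𝒰 O) (Ul 𝒰 L) g d (UP 𝒰 R) :=
    { rs := rs
      π := umk 𝒰 fun n => (M n).π
      ne := fun h => by
        rw [umk_eq_zero] at h
        obtain ⟨n, hn⟩ := h.exists
        exact (M n).ne hn
      ker := fun x hx => by
        obtain ⟨x, rfl⟩ := umk_surj 𝒰 x
        rw [hrs, umk_eq_zero] at hx
        have h1 : ∀ n, ∃ y, (M n).rs (x n) = 0 → x n = (M n).π * y := fun n => by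
          by_cases h : (M n).rs (x n) = 0
          · obtain ⟨y, hy⟩ := (M n).ker _ h
            exact ⟨y, fun _ => hy⟩
          · exact ⟨0, fun h' => absurd h' h⟩
        choose y hy using h1
        refine ⟨umk 𝒰 y, ?_⟩
        rw [← map_mul, umk_eq]
        filter_upwards [hx] with n hn
        exact hy n hn
      rsπ := by
        rw [hrs, umk_eq_zero]
        exact Filter.Eventually.of_forall fun n => (M n).rsπ
      unit := fun x hx => by
        obtain ⟨x, rfl⟩ := umk_surj 𝒰 x
        rw [hrs, ne_eq, umk_eq_zero, ← Ultrafilter.eventually_not] at hx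
        rw [u2]
        filter_upwards [hx] with n hn
        exact (M n).unit _ hn
      P := UP 𝒰 fun n => (M n).P
      f := F
      val := hval
      frac := hfrac
      kr := hUP
      z := hUz d fun n => (M n).z
      bc := (hUbc fun n => algebraMap (O n) (L n)).symm.trans
        (congrArg (UP 𝒰) (funext fun n => (M n).bc))
      monic := hF1
      deg := by
        have h1 : F.natDegree = 2 * g + d - 1 :=
          natDegree_eq_of_le_of_coeff_ne_zero hF2 (by rw [hF3]; exact one_ne_zero)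
        omega
      disc := disc_ultra 𝒰 hd0 hKrL hzL hUR hFL fun n => (M n).disc
      sep := sep_ultra 𝒰 hFL (Filter.Eventually.of_forall hmL)
        (Filter.Eventually.of_forall fun n => (M n).sep) }
  have hPb : M'.Pb = UP 𝒰 fun n => (M n).Pb := (hUbc fun n => ((M n).rs : O n →+* k n)).symm
  have hfb : UPol 𝒰 M'.fb fun n => (M n).fb := hFk
  refine ⟨hdom, M', hrs, rfl, rfl, hF, fun h => ?_, fun h => ?_⟩
  · rcases (Ultrafilter.eventually_or).1 h with h | h
    · exact Or.inl (sep_ultra 𝒰 hfb (Filter.Eventually.of_forall hmk) h)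
    · have h1 : ∀ n, ∃ c : k n, (∃ c : k n, Dbl (M n).fb c ∧ GRk d (M n).Pb c (d - 2)) →
          Dbl (M n).fb c ∧ GRk d (M n).Pb c (d - 2) := fun n => by
        by_cases hn : ∃ c : k n, Dbl (M n).fb c ∧ GRk d (M n).Pb c (d - 2)
        · obtain ⟨c, hc⟩ := hn
          exact ⟨c, fun _ => hc⟩
        · exact ⟨0, fun h => absurd h hn⟩
      choose c hc using h1
      refine Or.inr ⟨umk 𝒰 c, dbl_ultra 𝒰 hfb hmk ?_, ?_⟩
      · filter_upwards [h] with n hn
        exact (hc n hn).1
      · rw [hPb]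
        refine grk_ultra 𝒰 hd0 hKrk hzk hUk ?_
        filter_upwards [h] with n hn
        exact (hc n hn).2
  · have h1 : ∀ n, ∃ (c : k n) (s₀ u : O n) (h : (O n)[X]), h.natDegree ≤ 2 * g + d ∧
        ((M n).Nod → Dbl (M n).fb c ∧ GRk d (M n).Pb c (d - 1) ∧ (M n).rs s₀ = c ∧ IsUnit u ∧
          (M n).f = ((X - C s₀) ^ 2 - C ((M n).π ^ 2 * u)) * h ∧
          (h.map ((M n).rs : O n →+* k n)).eval c ≠ 0) := fun n => by
      by_cases hn : (M n).Nod
      · obtain ⟨c, s₀, u, h, h1, h2, h3, h4, h5, h6⟩ := hn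
        refine ⟨c, s₀, u, h, ?_, fun _ => ⟨h1, h2, h3, h4, h5, h6⟩⟩
        have h7 : ((X - C s₀) ^ 2 - C ((M n).π ^ 2 * u)).Monic := by
          refine ((monic_X_sub_C s₀).pow 2).sub_of_left ?_
          refine lt_of_le_of_lt degree_C_le ?_
          rw [degree_pow, degree_X_sub_C]
          decide
        have h8 : h.Monic := h7.of_mul_monic_left (h5 ▸ (M n).monic)
        have h9 := hdeg n
        rw [h5, h7.natDegree_mul h8] at h9
        omega
      · exact ⟨0, 0, 0, 0, by simp, fun h => absurd h hn⟩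
    choose c s₀ u h2 h3 h4 using h1
    obtain ⟨H, hH⟩ := asm_pol h3
    have hH' : UPol 𝒰 (H.map (umk 𝒰)) h2 := by
      have h5 := upol_of 𝒰 H
      simpa only [hH] using h5
    obtain ⟨F', hF', hF''⟩ := of_upol 𝒰 hF
    refine ⟨umk 𝒰 c, umk 𝒰 s₀, umk 𝒰 u, H.map (umk 𝒰), dbl_ultra 𝒰 hfb hmk ?_, ?_, ?_, ?_, ?_,
      ?_⟩
    · filter_upwards [h] with n hn
      exact (h4 n hn).1
    · rw [hPb]
      refine grk_ultra 𝒰 hd0 hKrk hzk hUk ?_
      filter_upwards [h] with n hn
      exact (h4 n hn).2.1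
    · rw [hrs, umk_eq]
      filter_upwards [h] with n hn
      exact (h4 n hn).2.2.1
    · rw [u2]
      filter_upwards [h] with n hn
      exact (h4 n hn).2.2.2.1
    · have h5 : ((X - C (umk 𝒰 s₀)) ^ 2 - C (M'.π ^ 2 * umk 𝒰 u)) * H.map (umk 𝒰) =
          (((X - C s₀) ^ 2 - C ((fun n => (M n).π) ^ 2 * u)) * H).map (umk 𝒰) := by
        have h6 : umk 𝒰 ((fun n => (M n).π) ^ 2 * u) = M'.π ^ 2 * umk 𝒰 u := by
          rw [map_mul, map_pow]
        rw [Polynomial.map_mul, Polynomial.map_sub, Polynomial.map_pow, Polynomial.map_sub, map_X,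
          map_C, map_C, h6]
      rw [h5]
      refine hF'.symm.trans ?_
      apply pol_eq
      filter_upwards [h] with n hn
      rw [hF'', Polynomial.map_mul, Polynomial.map_sub, Polynomial.map_pow, Polynomial.map_sub,
        map_X, map_C, map_C, hH]
      exact (h4 n hn).2.2.2.2.1
    · have h5 := upol_map 𝒰 (fun n => ((M n).rs : O n →+* k n)) hH'
      have h6 := eval_upol 𝒰 h5 c
      intro h7
      have h8 : umk 𝒰 (fun n => ((h2 n).map ((M n).rs : O n →+* k n)).eval (c n)) = 0 :=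
        h6.symm.trans h7
      rw [umk_eq_zero] at h8
      obtain ⟨n, h9, h10⟩ := (h8.and h).exists
      exact (h4 n h10).2.2.2.2.2 h9

end Pool.Agent.MG.G0


end
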