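import Mathlib
import Pool.Agent.KDM.C02
import Pool.Agent.KDM.C08
import Pool.Agent.KDM.C15
import Pool.Agent.KDM.C16
import Pool.Agent.KDM.C18
import Pool.Agent.KDM.C22
import Pool.Agent.KDM.C25
import Pool.Agent.KDM.C26
import Pool.Agent.KDM.C28
import Pool.Agent.KDM.C30
import Pool.Agent.KDM.C35
import Pool.Agent.KDM.C37
import Pool.Agent.KDM.C39
import Pool.Agent.KDM.C40
import Pool.Agent.KDM.C41
import Pool.Agent.KDM.C43
import Pool.Agent.KDM.C45
import Pool.Agent.KDM.C46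
import Pool.Agent.KDM.C69

/-! Parts: MG.H2.EA, MG.H2.EPDB, MG.H2.EPD, MG.H2.EGD, MG.H2.ESQ, MG.H2.EIN, MG.H2.EMB, MG.H2.ECN, MG.H2.EF, MG.H2.EndC, MG.G0.RES, MG.KX.PDB, MG.G0.NDB, MG.G0.SPR, MG.G0.UM1 -/

section

/-!
# Smooth curves of genus two are curves `y² = f(x)`: assembly
-/

open CategoryTheory CategoryTheory.Limits AlgebraicGeometry TensorProduct

namespace Pool.Agent.MG.H2

open Pool.Agent.MG.Two

/-- EF: smooth curves of genus two are curves `y² = ∏ (x - r i)`. -/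
def Stmt_EF : Prop :=
  ∀ {k : Type} [Field k] [IsAlgClosed k] [CharZero k] (C : Fam 0 k), IsStable 2 C →
    SmoothOfRelativeDimension 1 C.π →
    ∃ r : Fin 6 → k, Function.Injective r ∧
      ∃ f : Arrow (RingHom.id k) C (Hyp (rts r)), IsIso f.f

/-- EFG: proper smooth connected curves of genus two are curves `y² = ∏ (x - r i)`. -/
def Stmt_EFG : Prop :=
  ∀ {k : Type} [Field k] [IsAlgClosed k] [CharZero k] (C : Fam 0 k), IsProper C.π →
    ConnectedSpace C.X → HasGenus C.π 2 → SmoothOfRelativeDimension 1 C.π →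
    ∃ r : Fin 6 → k, Function.Injective r ∧
      ∃ f : Arrow (RingHom.id k) C (Hyp (rts r)), IsIso f.f

namespace EA

/-- EQD from EPD and EGD. -/
theorem eqd (hEPD : Stmt_EPD) (hEGD : Stmt_EGD) : Stmt_EQD := by
  intro X k _ π _ _ _ _ _ hg
  obtain ⟨V, U, hne, hV, D, hD⟩ := hEGD π hg
  have hfrac : IsFractionRing Γ(X, V) X.functionField :=
    functionField_isFractionRing_of_isAffineOpen X V hV
  obtain ⟨x, y, f, h⟩ := hEPD D X.functionField
  refine ⟨x, y, f, ?_⟩
  have e : (algebraMap Γ(X, V) X.functionField).comp D.c1 = kfun π := by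
    refine RingHom.ext fun c => ?_
    rw [hD]
    exact germ_kmap π V c
  rw [e] at h
  exact h

theorem coeff_pol {k K : Type} [Field k] [Field K] (c : k →+* K) (x : K) (p : Polynomial k)
    (hp : p.natDegree ≤ 6) : p.eval₂ c x = pol (fun i : Fin 7 => c (p.coeff i)) x := by
  rw [Polynomial.eval₂_eq_sum_range' c (n := 7) (by omega)]
  simp only [Finset.sum_range_succ, Finset.sum_range_zero, pol]
  simp

section

variable {X : Scheme.{0}} [IsIntegral X]

theorem germ_inj {U : X.Opens} [Nonempty U] {s t : Γ(X, U)}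
    (h : X.germToFunctionField U s = X.germToFunctionField U t) : s = t :=
  X.germToFunctionField_injective U h

end

open Classical in
/-- The functional on the function field. -/
noncomputable def Lf {X : Scheme.{0}} [IsIntegral X] {k : Type} [Field k] {U : X.Opens}
    [Nonempty U] (L : Γ(X, U) →+ (Fin 2 → k)) (z : X.functionField) : Fin 2 → k :=
  if h : ∃ s : Γ(X, U), X.germToFunctionField U s = z then L h.choose else 0

theorem Lf_germ {X : Scheme.{0}} [IsIntegral X] {k : Type} [Field k] {U : X.Opens}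
    [Nonempty U] (L : Γ(X, U) →+ (Fin 2 → k)) (s : Γ(X, U)) :
    Lf L (X.germToFunctionField U s) = L s := by
  have h : ∃ t : Γ(X, U), X.germToFunctionField U t = X.germToFunctionField U s := ⟨s, rfl⟩
  unfold Lf
  rw [dif_pos h]
  exact congrArg L (germ_inj h.choose_spec)

end EA

open _root_.Pool.Agent.MG.H2.EA

/-- Smooth curves of genus two are curves `y² = ∏ (x - r i)`. -/
theorem t_EFG (hEPD : Stmt_EPD) (hEGD : Stmt_EGD) (hESQ : Stmt_ESQ) (hEMB : Stmt_EMB)
    (hEIC : Stmt_EIC) (hEIN : Stmt_EIN) (hEUN : Stmt_EUN) (hEDM : Stmt_EDM) (hECN : Stmt_ECN)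
    (hEIS : Stmt_EIS) : Stmt_EFG := by
  intro k _ _ _ C hprop hcon hgen hs
  have hint : AlgebraicGeometry.IsIntegral C.X := isIntegral_of_smooth C.π
  obtain ⟨x0, y0, f0, h0⟩ := eqd hEPD hEGD C.π hgen
  obtain ⟨m, a0, b0, y1, hab, h1⟩ := hESQ _ x0 y0 f0 h0
  obtain ⟨x, y, r, hr, h2⟩ := hEMB _ x0 y1 m a0 b0 hab h1
  have hF : ∏ i, (Polynomial.C ((fun _ => 1 : Fin (2 * m) → k) i) * Polynomial.X +
      Polynomial.C ((fun i => - r i : Fin (2 * m) → k) i)) =
      ∏ i, (Polynomial.X - Polynomial.C (r i)) := by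
    refine Finset.prod_congr rfl fun i _ => ?_
    simp [sub_eq_add_neg]
  have hbr : ∀ i j, i ≠ j → (fun _ => 1 : Fin (2 * m) → k) i * (fun i => - r i : Fin (2 * m) → k) j -
      (fun _ => 1 : Fin (2 * m) → k) j * (fun i => - r i : Fin (2 * m) → k) i ≠ 0 := by
    intro i j hij h
    apply hij
    apply hr
    simp only [one_mul] at h
    linear_combination h
  have h2' := h2
  rw [← hF] at h2'
  obtain ⟨sq1, sq2, h3⟩ := hEIN _ x y m _ _ hbr h2'
  have htr : Transc C.π x := h2.tr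
  have htr' : Transc C.π x⁻¹ := h3.tr
  have hx0 : x ≠ 0 := htr.ne_zero C.π
  obtain ⟨aff1, aff2, hcov, hint1, hloc⟩ := hEDM C.π x htr
  obtain ⟨-, -, -, hint2, -⟩ := hEDM C.π x⁻¹ htr'
  have ch1 : ∀ z : C.X.functionField,
      (∃ s : Γ(C.X, dom x), C.X.germToFunctionField (dom x) s = z) ↔
      ∃ p q : Polynomial k, z = p.eval₂ (kfun C.π) x + q.eval₂ (kfun C.π) x * y := fun z =>
    (hint1 z).symm.trans (hEIC _ x y _ h2' sq1 z)
  have ch2 : ∀ z : C.X.functionField,
      (∃ s : Γ(C.X, dom x⁻¹), C.X.germToFunctionField (dom x⁻¹) s = z) ↔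
      ∃ p q : Polynomial k, z = p.eval₂ (kfun C.π) x⁻¹ +
        q.eval₂ (kfun C.π) x⁻¹ * (y * x⁻¹ ^ m) := fun z =>
    (hint2 z).symm.trans (hEIC _ x⁻¹ _ _ h3 sq2 z)
  have hne : Nonempty (dom x ⊓ dom x⁻¹ : C.X.Opens) := nonempty_inf inferInstance inferInstance
  obtain ⟨L, hLs, hLc, hL0⟩ := t_COVI C.π 2 hgen (dom x) (dom x⁻¹) aff1 aff2 hcov
  have hIn : ∀ z : C.X.functionField, (∃ (N : ℕ) (p q : Polynomial k),
      x ^ N * z = p.eval₂ (kfun C.π) x + q.eval₂ (kfun C.π) x * y) →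
      ∃ s : Γ(C.X, dom x ⊓ dom x⁻¹), C.X.germToFunctionField (dom x ⊓ dom x⁻¹) s = z := by
    rintro z ⟨N, p, q, h⟩
    obtain ⟨t, ht⟩ := (ch1 (x ^ N * z)).2 ⟨p, q, h⟩
    refine ⟨rs C.X inf_le_left t * rs C.X inf_le_right (sec x⁻¹) ^ N, ?_⟩
    have e1 : C.X.germToFunctionField (dom x ⊓ dom x⁻¹) (rs C.X inf_le_left t) =
        C.X.germToFunctionField (dom x) t := germToFunctionField_res _ t
    have e2 : C.X.germToFunctionField (dom x ⊓ dom x⁻¹) (rs C.X inf_le_right (sec x⁻¹)) =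
        C.X.germToFunctionField (dom x⁻¹) (sec x⁻¹) := germToFunctionField_res _ (sec x⁻¹)
    rw [map_mul, map_pow, e1, e2, ht, germ_sec]
    have e3 : x ^ N * x⁻¹ ^ N = 1 := by rw [← mul_pow, mul_inv_cancel₀ hx0, one_pow]
    linear_combination z * e3
  have hm : m = 3 := by
    refine hECN (kfun C.π) x y m hx0 ?_ ?_ (Lf L) ?_ ?_ ?_ ?_
    · rintro rfl
      have h4 := h2.eq
      have : IsEmpty (Fin (2 * 0)) := inferInstanceAs (IsEmpty (Fin 0))
      rw [Finset.prod_of_isEmpty, Polynomial.eval₂_one] at h4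
      exact h4
    · intro hm1
      exact hEUN _ x y m _ _ hm1 hbr h2'
    · intro z w hz hw
      obtain ⟨s, rfl⟩ := hIn z hz
      obtain ⟨t, rfl⟩ := hIn w hw
      rw [← map_add, Lf_germ, Lf_germ, Lf_germ, map_add]
    · intro a z hz
      obtain ⟨s, rfl⟩ := hIn z hz
      have e1 : kfun C.π a * C.X.germToFunctionField (dom x ⊓ dom x⁻¹) s =
          C.X.germToFunctionField (dom x ⊓ dom x⁻¹) (coef C.π _ a * s) := by
        rw [map_mul]
        congr 1
        exact (germ_kmap C.π (dom x ⊓ dom x⁻¹) a).symm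
      rw [e1, Lf_germ, Lf_germ, hLc]
    · intro z hz
      obtain ⟨s, rfl⟩ := hIn z hz
      rw [Lf_germ, hL0]
      constructor
      · rintro ⟨a, b, hab⟩
        obtain ⟨p, q, hp⟩ := (ch1 _).1 ⟨a, rfl⟩
        obtain ⟨p', q', hp'⟩ := (ch2 _).1 ⟨b, rfl⟩
        refine ⟨p, q, p', q', ?_⟩
        rw [← hp, ← hp', hab, map_add]
        congr 1
        · exact germToFunctionField_res _ a
        · exact germToFunctionField_res _ b
      · rintro ⟨p, q, p', q', h⟩
        obtain ⟨a, ha⟩ := (ch1 _).2 ⟨p, q, rfl⟩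
        obtain ⟨b, hb⟩ := (ch2 _).2 ⟨p', q', rfl⟩
        refine ⟨a, b, germ_inj ?_⟩
        rw [h, ← ha, ← hb, map_add]
        congr 1
        · exact (germToFunctionField_res _ a).symm
        · exact (germToFunctionField_res _ b).symm
    · intro v
      obtain ⟨s, hs⟩ := hLs v
      obtain ⟨N, t, ht⟩ := hloc s
      obtain ⟨p, q, hp⟩ := (ch1 _).1 ⟨t, rfl⟩
      exact ⟨_, ⟨N, p, q, ht.trans hp⟩, by rw [Lf_germ, hs]⟩
  subst hm
  have hdeg : (∏ i, (Polynomial.X - Polynomial.C (r i))).natDegree ≤ 6 := by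
    rw [Polynomial.natDegree_finsetProd_X_sub_C_eq_card]
    simp
  have heq : y ^ 2 = pol (fun i => kfun C.π (rts (r : Fin 6 → k) i)) x := by
    rw [h2.eq]
    exact coeff_pol _ _ _ hdeg
  exact ⟨r, hr, hEIS C x y (rts r) hx0 aff1 aff2 hcov heq htr (hEUN _ x y 3 _ _ (by norm_num) hbr h2')
    ch1 ch2⟩

/-- Smooth stable curves of genus two are curves `y² = ∏ (x - r i)`. -/
theorem EFG_EF (h : Stmt_EFG) : Stmt_EF := by
  intro k _ _ _ C hC hs
  have hid : spMap (RingHom.id k) = 𝟙 (Sp k) := by simp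
  have hst : StableCurve 2 C := hC.fib k (RingHom.id k) C ⟨{
    f := 𝟙 C.X
    cart := by
      rw [hid]
      exact IsPullback.of_id_fst
    sec := fun i => by rw [hid, Category.comp_id, Category.id_comp] }⟩
  exact h C hC.proper hst.connected hst.genus hs

/-- Smooth curves of genus two are curves `y² = ∏ (x - r i)`. -/
theorem t_EF (hEPD : Stmt_EPD) (hEGD : Stmt_EGD) (hESQ : Stmt_ESQ) (hEMB : Stmt_EMB)
    (hEIC : Stmt_EIC) (hEIN : Stmt_EIN) (hEUN : Stmt_EUN) (hEDM : Stmt_EDM) (hECN : Stmt_ECN)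
    (hEIS : Stmt_EIS) : Stmt_EF :=
  EFG_EF (t_EFG hEPD hEGD hESQ hEMB hEIC hEIN hEUN hEDM hECN hEIS)

end Pool.Agent.MG.H2


end

section

/-!
# Point data of genus two: two is a gap
-/

open Polynomial

namespace Pool.Agent.MG.H2

namespace PD

variable {k R1 R2 R12 : Type} [Field k] [CommRing R1] [CommRing R2] [CommRing R12]
  {D : PD k R1 R2 R12}

lemma Ord.add_lt {n m : ℕ} {r r' : R1} {c c' : k} (h : D.Ord n r c) (h' : D.Ord m r' c')
    (hmn : m < n) : D.Ord n (r + r') c := by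
  have := h.add (h'.mono hmn)
  rwa [add_zero] at this

lemma Ord.sub_lt {n m : ℕ} {r r' : R1} {c c' : k} (h : D.Ord n r c) (h' : D.Ord m r' c')
    (hmn : m < n) : D.Ord n (r - r') c := by
  have := h.sub (h'.mono hmn)
  rwa [sub_zero] at this

section B

variable (hgap : ∀ (r : R1) (c : k), D.Ord 2 r c → c = 0) {s θ ψ : R1} (hs : D.Ord 3 s 1)
  (hθ : D.Ord 4 θ 1) (hψ : D.Ord 5 ψ 1)

include hgap

lemma lin2 {r : R1} {c : k} (h : D.Ord 2 r c) : ∃ c0, r = D.c1 c0 := by
  have hc := hgap r c h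
  subst hc
  obtain ⟨c', h'⟩ := h.pred
  have hc := no_one h'
  subst hc
  obtain ⟨c0, h0⟩ := h'.pred
  exact ⟨c0, h0.eq_const⟩

include hs

lemma lin3 {r : R1} {c : k} (h : D.Ord 3 r c) : ∃ c0, r = D.c1 c * s + D.c1 c0 := by
  obtain ⟨c', h'⟩ := Ord.red (n := 2) h hs
  obtain ⟨c0, h0⟩ := lin2 hgap h'
  exact ⟨c0, by linear_combination h0⟩

include hθ

lemma lin4 {r : R1} {c : k} (h : D.Ord 4 r c) :
    ∃ c3 c0, r = D.c1 c * θ + D.c1 c3 * s + D.c1 c0 := by
  obtain ⟨c', h'⟩ := Ord.red (n := 3) h hθ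
  obtain ⟨c0, h0⟩ := lin3 hgap hs h'
  exact ⟨_, c0, by linear_combination h0⟩

include hψ

lemma lin5 {r : R1} {c : k} (h : D.Ord 5 r c) :
    ∃ c4 c3 c0, r = D.c1 c * ψ + D.c1 c4 * θ + D.c1 c3 * s + D.c1 c0 := by
  obtain ⟨c', h'⟩ := Ord.red (n := 4) h hψ
  obtain ⟨c3, c0, h0⟩ := lin4 hgap hs hθ h'
  exact ⟨_, c3, c0, by linear_combination h0⟩

lemma lin6 {r : R1} {c : k} (h : D.Ord 6 r c) :
    ∃ c5 c4 c3 c0, r = D.c1 c * s ^ 2 + D.c1 c5 * ψ + D.c1 c4 * θ + D.c1 c3 * s + D.c1 c0 := by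
  have hm : D.Ord (5 + 1) (s ^ 2) 1 := by
    have := (hs.pow 2).cast (m := 5 + 1) (by norm_num)
    rwa [one_pow] at this
  obtain ⟨c', h'⟩ := Ord.red (n := 5) h hm
  obtain ⟨c4, c3, c0, h0⟩ := lin5 hgap hs hθ hψ h'
  exact ⟨_, c4, c3, c0, by linear_combination h0⟩

lemma lin7 {r : R1} {c : k} (h : D.Ord 7 r c) :
    ∃ c6 c5 c4 c3 c0, r = D.c1 c * (s * θ) + D.c1 c6 * s ^ 2 + D.c1 c5 * ψ + D.c1 c4 * θ +
      D.c1 c3 * s + D.c1 c0 := by
  have hm : D.Ord (6 + 1) (s * θ) 1 := by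
    have := (hs.mul hθ).cast (m := 6 + 1) (by norm_num)
    rwa [one_mul] at this
  obtain ⟨c', h'⟩ := Ord.red (n := 6) h hm
  obtain ⟨c5, c4, c3, c0, h0⟩ := lin6 hgap hs hθ hψ h'
  exact ⟨_, c5, c4, c3, c0, by linear_combination h0⟩

lemma lin8 {r : R1} {c : k} (h : D.Ord 8 r c) :
    ∃ c7 c6 c5 c4 c3 c0, r = D.c1 c * (s * ψ) + D.c1 c7 * (s * θ) + D.c1 c6 * s ^ 2 +
      D.c1 c5 * ψ + D.c1 c4 * θ + D.c1 c3 * s + D.c1 c0 := by
  have hm : D.Ord (7 + 1) (s * ψ) 1 := by
    have := (hs.mul hψ).cast (m := 7 + 1) (by norm_num)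
    rwa [one_mul] at this
  obtain ⟨c', h'⟩ := Ord.red (n := 7) h hm
  obtain ⟨c6, c5, c4, c3, c0, h0⟩ := lin7 hgap hs hθ hψ h'
  exact ⟨_, c6, c5, c4, c3, c0, by linear_combination h0⟩

lemma lin9 {r : R1} {c : k} (h : D.Ord 9 r c) :
    ∃ c8 c7 c6 c5 c4 c3 c0, r = D.c1 c * s ^ 3 + D.c1 c8 * (s * ψ) + D.c1 c7 * (s * θ) +
      D.c1 c6 * s ^ 2 + D.c1 c5 * ψ + D.c1 c4 * θ + D.c1 c3 * s + D.c1 c0 := by
  have hm : D.Ord (8 + 1) (s ^ 3) 1 := by
    have := (hs.pow 3).cast (m := 8 + 1) (by norm_num)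
    rwa [one_pow] at this
  obtain ⟨c', h'⟩ := Ord.red (n := 8) h hm
  obtain ⟨c7, c6, c5, c4, c3, c0, h0⟩ := lin8 hgap hs hθ hψ h'
  exact ⟨_, c7, c6, c5, c4, c3, c0, by linear_combination h0⟩

lemma lin10 {r : R1} {c : k} (h : D.Ord 10 r c) :
    ∃ c9 c8 c7 c6 c5 c4 c3 c0, r = D.c1 c * (s ^ 2 * θ) + D.c1 c9 * s ^ 3 +
      D.c1 c8 * (s * ψ) + D.c1 c7 * (s * θ) + D.c1 c6 * s ^ 2 + D.c1 c5 * ψ + D.c1 c4 * θ +
      D.c1 c3 * s + D.c1 c0 := by
  have hm : D.Ord (9 + 1) (s ^ 2 * θ) 1 := by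
    have := ((hs.pow 2).mul hθ).cast (m := 9 + 1) (by norm_num)
    rwa [one_pow, one_mul] at this
  obtain ⟨c', h'⟩ := Ord.red (n := 9) h hm
  obtain ⟨c8, c7, c6, c5, c4, c3, c0, h0⟩ := lin9 hgap hs hθ hψ h'
  exact ⟨_, c8, c7, c6, c5, c4, c3, c0, by linear_combination h0⟩

theorem spanB (n : ℕ) :
    ∀ (r : R1) (c : k), D.Ord n r c → ∃ p q t : k[X],
      r = p.eval₂ D.c1 s + q.eval₂ D.c1 s * θ + t.eval₂ D.c1 s * ψ := by
  induction n using Nat.strong_induction_on with
  | _ n ih =>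
    intro r c h
    by_cases h0 : n ≤ 2
    · obtain ⟨c', h'⟩ : ∃ c', D.Ord 2 r c' := by
        rcases h0.lt_or_eq with h1 | h1
        · exact ⟨0, h.mono h1⟩
        · exact ⟨c, h1 ▸ h⟩
      obtain ⟨c0, h0⟩ := lin2 hgap h'
      refine ⟨C c0, 0, 0, ?_⟩
      rw [h0]
      simp
    obtain ⟨n, rfl⟩ : ∃ m, n = m + 1 := ⟨n - 1, by omega⟩
    have h3 : (n + 1) % 3 = 0 ∨ (n + 1) % 3 = 1 ∨ (n + 1) % 3 = 2 := by omega
    rcases h3 with h3 | h3 | h3
    · have hm : D.Ord (n + 1) (s ^ ((n + 1) / 3)) 1 := by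
        have := (hs.pow ((n + 1) / 3)).cast (m := n + 1) (by omega)
        rwa [one_pow] at this
      obtain ⟨c', h'⟩ := Ord.red (n := n) h hm
      obtain ⟨p, q, t, hpq⟩ := ih n (by omega) _ c' h'
      refine ⟨p + C c * X ^ ((n + 1) / 3), q, t, ?_⟩
      simp only [eval₂_add, eval₂_mul, eval₂_C, eval₂_X_pow]
      linear_combination hpq
    · have hm : D.Ord (n + 1) (s ^ ((n - 3) / 3) * θ) 1 := by
        have := ((hs.pow ((n - 3) / 3)).mul hθ).cast (m := n + 1) (by omega)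
        rwa [one_pow, one_mul] at this
      obtain ⟨c', h'⟩ := Ord.red (n := n) h hm
      obtain ⟨p, q, t, hpq⟩ := ih n (by omega) _ c' h'
      refine ⟨p, q + C c * X ^ ((n - 3) / 3), t, ?_⟩
      simp only [eval₂_add, eval₂_mul, eval₂_C, eval₂_X_pow]
      linear_combination hpq
    · have hm : D.Ord (n + 1) (s ^ ((n - 4) / 3) * ψ) 1 := by
        have := ((hs.pow ((n - 4) / 3)).mul hψ).cast (m := n + 1) (by omega)
        rwa [one_pow, one_mul] at this
      obtain ⟨c', h'⟩ := Ord.red (n := n) h hm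
      obtain ⟨p, q, t, hpq⟩ := ih n (by omega) _ c' h'
      refine ⟨p, q, t + C c * X ^ ((n - 4) / 3), ?_⟩
      simp only [eval₂_add, eval₂_mul, eval₂_C, eval₂_X_pow]
      linear_combination hpq

/-- Change of `θ` and `ψ` so that `θ ψ` is a polynomial in `s`. -/
theorem normal : ∃ (θ' ψ' : R1) (n2 n1 n0 : k), D.Ord 4 θ' 1 ∧ D.Ord 5 ψ' 1 ∧
    θ' * ψ' = s ^ 3 + D.c1 n2 * s ^ 2 + D.c1 n1 * s + D.c1 n0 := by
  have h9 : D.Ord 9 (θ * ψ) 1 := by
    have := (hθ.mul hψ).cast (m := 9) (by norm_num)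
    rwa [one_mul] at this
  obtain ⟨c8, c7, c6, c5, c4, c3, c0, h⟩ := lin9 hgap hs hθ hψ h9
  rw [map_one] at h
  refine ⟨θ - (D.c1 c8 * s + D.c1 c5), ψ - (D.c1 c7 * s + D.c1 c4), c6 + c8 * c7,
    c3 + c8 * c4 + c5 * c7, c0 + c5 * c4, ?_, ?_, ?_⟩
  · exact hθ.sub_lt ((hs.smul c8).add_lt (ord_const c5) (by norm_num)) (by norm_num)
  · exact hψ.sub_lt ((hs.smul c7).add_lt (ord_const c4) (by norm_num)) (by norm_num)
  · simp only [map_add, map_mul]
    linear_combination h

end B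

lemma lead2 {s θ : R1} (hs : D.Ord 3 s 1) (hθ : D.Ord 4 θ 1) (p q : k[X])
    (h : p ≠ 0 ∨ q ≠ 0) : ∃ n c, c ≠ 0 ∧ n % 3 ≠ 2 ∧
      D.Ord n (p.eval₂ D.c1 s + q.eval₂ D.c1 s * θ) c := by
  have h1 := ord_poly (by norm_num) hs p
  have h2 := (ord_poly (by norm_num) hs q).mul hθ
  rw [mul_one] at h2
  have hlp : p ≠ 0 → p.leadingCoeff ≠ 0 := fun h => Polynomial.leadingCoeff_ne_zero.2 h
  have hlq : q ≠ 0 → q.leadingCoeff ≠ 0 := fun h => Polynomial.leadingCoeff_ne_zero.2 h
  by_cases hp : p = 0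
  · subst hp
    have hq : q ≠ 0 := h.resolve_left (fun h => h rfl)
    refine ⟨3 * q.natDegree + 4, q.leadingCoeff, hlq hq, by omega, ?_⟩
    rw [eval₂_zero, zero_add]
    exact h2
  by_cases hq : q = 0
  · subst hq
    refine ⟨3 * p.natDegree, p.leadingCoeff, hlp hp, by omega, ?_⟩
    rw [eval₂_zero, zero_mul, add_zero]
    exact h1
  rcases lt_or_ge (3 * p.natDegree) (3 * q.natDegree + 4) with h3 | h3
  · refine ⟨3 * q.natDegree + 4, q.leadingCoeff, hlq hq, by omega, ?_⟩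
    rw [add_comm (p.eval₂ D.c1 s)]
    exact h2.add_lt h1 h3
  · exact ⟨3 * p.natDegree, p.leadingCoeff, hlp hp, by omega, h1.add_lt h2 (by omega)⟩

theorem indepB {s θ ψ : R1} (hs : D.Ord 3 s 1) (hθ : D.Ord 4 θ 1) (hψ : D.Ord 5 ψ 1)
    (p q t : k[X]) (h : p.eval₂ D.c1 s + q.eval₂ D.c1 s * θ + t.eval₂ D.c1 s * ψ = 0) :
    p = 0 ∧ q = 0 ∧ t = 0 := by
  have h3 := (ord_poly (by norm_num) hs t).mul hψ
  rw [mul_one] at h3
  by_contra hcon
  by_cases hpq : p ≠ 0 ∨ q ≠ 0
  · obtain ⟨n, c, hc, hn, h4⟩ := lead2 hs hθ p q hpq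
    have e : p.eval₂ D.c1 s + q.eval₂ D.c1 s * θ = -(t.eval₂ D.c1 s * ψ) := by
      linear_combination h
    rw [e] at h4
    by_cases ht : t = 0
    · subst ht
      rw [eval₂_zero, zero_mul, neg_zero] at h4
      exact hc (h4.uniq (ord_zero _))
    · have := h4.eq h3.neg hc (neg_ne_zero.2 (Polynomial.leadingCoeff_ne_zero.2 ht))
      omega
  · push Not at hpq
    obtain ⟨rfl, rfl⟩ := hpq
    rw [eval₂_zero, zero_mul, zero_add, zero_add] at h
    apply hcon
    refine ⟨rfl, rfl, ?_⟩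
    by_contra ht
    rw [h] at h3
    exact Polynomial.leadingCoeff_ne_zero.2 ht (h3.uniq (ord_zero _))

end PD

end Pool.Agent.MG.H2


end

section

/-!
# Point data of genus two: the field of fractions is quadratic
-/

open Polynomial

namespace Pool.Agent.MG.H2

namespace EPD

section field

variable {k K : Type} [Field k] [Field K] {c : k →+* K} {x y : K} {f : k[X]}

lemma GG.eval (he : y ^ 2 = f.eval₂ c x) {z : K} (hz : GG c x y z) (p : k[X]) :
    GG c x y (p.eval₂ c z) := by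
  induction p using Polynomial.induction_on' with
  | add p q hp hq =>
    rw [eval₂_add]
    exact hp.add hq
  | monomial n a =>
    rw [eval₂_monomial]
    exact GG.mul he (GG.gc a) (hz.pow he n)

lemma GG.neg {z : K} (hz : GG c x y z) : GG c x y (-z) := by
  obtain ⟨p, q, d, hd, h⟩ := hz
  refine ⟨-p, -q, d, hd, ?_⟩
  simp only [eval₂_neg]
  linear_combination -h

lemma GG.sub {z w : K} (hz : GG c x y z) (hw : GG c x y w) : GG c x y (z - w) := by
  rw [sub_eq_add_neg]
  exact hz.add hw.neg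

/-- If `s` is transcendental and belongs to `k[x, y]`, `y² = f(x)`, then `x` is transcendental. -/
theorem tr_of {s : K} (he : y ^ 2 = f.eval₂ c x) (U : k[X]) (hs : s = y - U.eval₂ c x)
    (h : ∀ p : k[X], p.eval₂ c s = 0 → p = 0) : Function.Injective (eval₂RingHom c x) := by
  let _ : Algebra k K := c.toAlgebra
  rw [injective_iff_map_eq_zero]
  intro p hp
  by_contra hne
  rw [coe_eval₂RingHom] at hp
  have hx : IsIntegral k x := by
    rw [← isAlgebraic_iff_isIntegral]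
    exact ⟨p, hne, hp⟩
  have hpol : ∀ q : k[X], IsIntegral k (q.eval₂ c x) := by
    intro q
    induction q using Polynomial.induction_on' with
    | add p q hp hq =>
      rw [eval₂_add]
      exact hp.add hq
    | monomial n a =>
      rw [eval₂_monomial]
      exact (isIntegral_algebraMap (R := k) (A := K) (x := a)).mul (hx.pow n)
  have hy : IsIntegral k y := IsIntegral.of_pow (n := 2) (by norm_num) (he ▸ hpol f)
  have hs' : IsIntegral k s := hs ▸ hy.sub (hpol U)
  obtain ⟨q, hq1, hq2⟩ := hs'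
  exact hq1.ne_zero (h q hq2)

end field

end EPD

namespace PD

variable {k R1 R2 R12 : Type} [Field k] [CommRing R1] [CommRing R2] [CommRing R12]
  {D : PD k R1 R2 R12}

/-- Case B: there is no function with a double pole. -/
theorem caseB [CharZero k] [IsDomain R1] (hgap : ∀ (r : R1) (c : k), D.Ord 2 r c → c = 0)
    (K : Type) [Field K] [Algebra R1 K] [IsFractionRing R1 K] :
    ∃ (x y : K) (f : k[X]), Quad ((algebraMap R1 K).comp D.c1) x y f := by
  obtain ⟨s, hs⟩ := exists_of_gap (D := D) (g := 2) le_rfl hgap (n := 3) (by norm_num)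
  obtain ⟨θ₀, hθ₀⟩ := exists_of_gap (D := D) (g := 2) le_rfl hgap (n := 4) (by norm_num)
  obtain ⟨ψ₀, hψ₀⟩ := exists_of_gap (D := D) (g := 2) le_rfl hgap (n := 5) (by norm_num)
  obtain ⟨θ, ψ, n2, n1, n0, hθ, hψ, hN⟩ := normal hgap hs hθ₀ hψ₀
  have h8 : D.Ord 8 (θ ^ 2) 1 := by
    have := (hθ.pow 2).cast (m := 8) (by norm_num)
    rwa [one_pow] at this
  have h10 : D.Ord 10 (ψ ^ 2) 1 := by
    have := (hψ.pow 2).cast (m := 10) (by norm_num)
    rwa [one_pow] at this
  obtain ⟨a7, a6, a5, a4, a3, a0, ha⟩ := lin8 hgap hs hθ hψ h8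
  obtain ⟨b9, b8, b7, b6, b5, b4, b3, b0, hb⟩ := lin10 hgap hs hθ hψ h10
  rw [map_one, one_mul] at ha hb
  let P2 : k[X] := X + C a5
  let P1 : k[X] := C a7 * X + C a4
  let P0 : k[X] := C a6 * X ^ 2 + C a3 * X + C a0
  let Q1 : k[X] := X ^ 2 + C b7 * X + C b4
  let Q2 : k[X] := C b8 * X + C b5
  let Q0 : k[X] := C b9 * X ^ 3 + C b6 * X ^ 2 + C b3 * X + C b0
  let N : k[X] := X ^ 3 + C n2 * X ^ 2 + C n1 * X + C n0
  have hind := indepB hs hθ hψ (P2 * Q0 + P1 * N) (P2 * Q1 - N) (P2 * Q2 + P0) (by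
    simp only [P2, P1, P0, Q1, Q2, Q0, N, eval₂_add, eval₂_sub, eval₂_mul, eval₂_pow, eval₂_C,
      eval₂_X]
    have e1 : θ ^ 2 * ψ = θ * (s ^ 3 + D.c1 n2 * s ^ 2 + D.c1 n1 * s + D.c1 n0) := by
      rw [← hN]; ring
    linear_combination e1 - ψ * ha - (s + D.c1 a5) * hb - (D.c1 a7 * s + D.c1 a4) * hN)
  obtain ⟨-, hQ1, hQ2⟩ := hind
  set i := algebraMap R1 K with hi
  set c := i.comp D.c1 with hc
  have hev : ∀ p : k[X], p.eval₂ c (i s) = i (p.eval₂ D.c1 s) := fun p => by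
    rw [hc, hom_eval₂]
  have hinj : Function.Injective i := IsFractionRing.injective R1 K
  have hs0 : ∀ p : k[X], p.eval₂ c (i s) = 0 → p = 0 := by
    intro p hp
    rw [hev, map_eq_zero_iff i hinj] at hp
    exact poly_inj (by norm_num) hs p hp
  have hP2 : i s + c a5 ≠ 0 := by
    have h : P2.eval₂ c (i s) ≠ 0 := fun h => (monic_X_add_C a5).ne_zero (hs0 P2 h)
    simpa [P2] using h
  have hca : ∀ a, i (D.c1 a) = c a := fun a => rfl
  have ha' := congrArg i ha
  have hN' := congrArg i hN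
  simp only [map_add, map_mul, map_pow, hca] at ha' hN'
  have q1 := congrArg (eval₂ c (i s)) hQ1
  have q2 := congrArg (eval₂ c (i s)) hQ2
  simp only [P2, P0, Q1, Q2, N, eval₂_add, eval₂_sub, eval₂_mul, eval₂_pow, eval₂_C,
    eval₂_X, eval₂_zero] at q1 q2
  obtain ⟨x, hx⟩ : ∃ x : K, (i s + c a5) * x = i θ := ⟨i θ / (i s + c a5), mul_div_cancel₀ _ hP2⟩
  have F2 : (i s + c a5) * x ^ 2 = i ψ + (c a7 * i s + c a4) * x - (c b8 * i s + c b5) := by
    apply mul_left_cancel₀ hP2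
    linear_combination ((i s + c a5) * x + i θ) * hx + ha' - (c a7 * i s + c a4) * hx + q2
  have F3 : x * i ψ = i s ^ 2 + c b7 * i s + c b4 := by
    apply mul_left_cancel₀ hP2
    linear_combination i ψ * hx + hN' - q1
  have e2 : c 2⁻¹ * 2 = 1 := by
    have : (2 : K) = c 2 := (map_ofNat c 2).symm
    rw [this, ← map_mul, inv_mul_cancel₀ two_ne_zero, map_one]
  let U : k[X] := C b7 - C b8 * X + C a7 * X ^ 2 - X ^ 3
  let W : k[X] := C b4 - C b5 * X + C a4 * X ^ 2 - C a5 * X ^ 3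
  let V : k[X] := C 2⁻¹ * U
  have hV : V.eval₂ c x = c 2⁻¹ * U.eval₂ c x := by simp only [V, eval₂_mul, eval₂_C]
  have F4 : i s ^ 2 + U.eval₂ c x * i s + W.eval₂ c x = 0 := by
    simp only [U, W, eval₂_add, eval₂_sub, eval₂_mul, eval₂_pow, eval₂_C, eval₂_X]
    linear_combination -(x * F2) - F3
  have hye : (i s + V.eval₂ c x) ^ 2 = (V ^ 2 - W).eval₂ c x := by
    simp only [eval₂_sub, eval₂_pow]
    linear_combination F4 + 2 * i s * hV + i s * U.eval₂ c x * e2
  have tr := EPD.tr_of hye V (s := i s) (by ring) hs0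
  have gs : EPD.GG c x (i s + V.eval₂ c x) (i s) := by
    have := (EPD.GG.gy (c := c) (x := x) (y := i s + V.eval₂ c x)).sub (EPD.GG.poly V)
    rwa [add_sub_cancel_right] at this
  have gP2 : EPD.GG c x (i s + V.eval₂ c x) (i s + c a5) := gs.add (EPD.GG.gc a5)
  have gT : EPD.GG c x (i s + V.eval₂ c x) (i θ) := by
    rw [← hx]
    exact gP2.mul hye EPD.GG.gx
  have gY : EPD.GG c x (i s + V.eval₂ c x) (i ψ) := by
    have : i ψ = (i s + c a5) * x ^ 2 - (c a7 * i s + c a4) * x + (c b8 * i s + c b5) := by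
      linear_combination -F2
    rw [this]
    exact ((gP2.mul hye (EPD.GG.gx.pow hye 2)).sub
      ((((EPD.GG.gc a7).mul hye gs).add (EPD.GG.gc a4)).mul hye EPD.GG.gx)).add
      (((EPD.GG.gc b8).mul hye gs).add (EPD.GG.gc b5))
  refine ⟨x, i s + V.eval₂ c x, V ^ 2 - W, EPD.quad_of (R := R1) hye tr fun r => ?_⟩
  obtain ⟨n, cr, hr⟩ := ord_exists (D := D) r
  obtain ⟨p, q, t, hpqt⟩ := spanB hgap hs hθ hψ n r cr hr
  rw [← hi, hpqt, map_add, map_add, map_mul, map_mul, ← hev, ← hev, ← hev]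
  exact ((gs.eval hye p).add ((gs.eval hye q).mul hye gT)).add ((gs.eval hye t).mul hye gY)

end PD

theorem t_EPD : Stmt_EPD := by
  intro k R1 R2 R12 _ _ _ _ _ _ D K _ _ _
  by_cases h : ∃ r c, D.Ord 2 r c ∧ c ≠ 0
  · obtain ⟨r, c, hr, hc⟩ := h
    have hx : D.Ord 2 (D.c1 c⁻¹ * r) 1 := by
      have := hr.smul c⁻¹
      rwa [inv_mul_cancel₀ hc] at this
    obtain ⟨y, f, h1, h2, h3⟩ := PD.caseA hx
    have hinj : Function.Injective (algebraMap R1 K) := IsFractionRing.injective R1 K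
    have hev : ∀ p : k[X], p.eval₂ ((algebraMap R1 K).comp D.c1)
        (algebraMap R1 K (D.c1 c⁻¹ * r)) = algebraMap R1 K (p.eval₂ D.c1 (D.c1 c⁻¹ * r)) :=
      fun p => by rw [hom_eval₂]
    refine ⟨algebraMap R1 K (D.c1 c⁻¹ * r), algebraMap R1 K y, f,
      EPD.quad_of (R := R1) ?_ ?_ fun r' => ?_⟩
    · rw [← map_pow, h1, hev]
    · rw [injective_iff_map_eq_zero]
      intro p hp
      rw [coe_eval₂RingHom, hev, map_eq_zero_iff _ hinj] at hp
      exact h2 p hp
    · obtain ⟨p, q, hpq⟩ := h3 r'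
      rw [hpq, (algebraMap R1 K).map_add, (algebraMap R1 K).map_mul (q.eval₂ D.c1 _), ← hev, ← hev]
      exact ⟨p, q, 1, one_ne_zero, by rw [eval₂_one, one_mul]⟩
  · push Not at h
    exact PD.caseB h K

end Pool.Agent.MG.H2


end

section

/-!
# EGD: point data of a curve of genus two
-/

open CategoryTheory CategoryTheory.Limits AlgebraicGeometry TensorProduct TopologicalSpace

namespace Pool.Agent.MG.H2

open Pool.Agent.MG.Two

namespace EGD

open Pool.Agent.MG.W.W0

/-- Three vectors of the plane are linearly dependent. -/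
lemma rel3 {k : Type} [Field k] (u v w : Fin 2 → k) :
    ∃ α β γ : k, (α ≠ 0 ∨ β ≠ 0 ∨ γ ≠ 0) ∧ α • u + β • v + γ • w = 0 := by
  by_cases hd : u 0 * v 1 - u 1 * v 0 = 0
  · by_cases h0 : u 0 = 0 ∧ u 1 = 0
    · refine ⟨1, 0, 0, Or.inl one_ne_zero, ?_⟩
      ext i
      fin_cases i
      · simp [h0.1]
      · simp [h0.2]
    · by_cases h1 : u 0 = 0
      · have h2 : u 1 ≠ 0 := fun h => h0 ⟨h1, h⟩
        have h3 : v 0 = 0 := by
          rw [h1] at hd
          have : u 1 * v 0 = 0 := by linear_combination -hd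
          exact (mul_eq_zero.1 this).resolve_left h2
        refine ⟨-v 1, u 1, 0, Or.inr (Or.inl h2), ?_⟩
        ext i
        fin_cases i
        · simp [h1, h3]
        · simp only [Pi.add_apply, Pi.smul_apply, smul_eq_mul, Pi.zero_apply, Fin.mk_one]
          ring
      · refine ⟨-v 0, u 0, 0, Or.inr (Or.inl h1), ?_⟩
        ext i
        fin_cases i
        · simp only [Pi.add_apply, Pi.smul_apply, smul_eq_mul, Pi.zero_apply, Fin.zero_eta]
          ring
        · simp only [Pi.add_apply, Pi.smul_apply, smul_eq_mul, Pi.zero_apply, Fin.mk_one]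
          linear_combination hd
  · refine ⟨v 0 * w 1 - v 1 * w 0, w 0 * u 1 - w 1 * u 0, u 0 * v 1 - u 1 * v 0,
      Or.inr (Or.inr hd), ?_⟩
    ext i
    fin_cases i
    · simp only [Pi.add_apply, Pi.smul_apply, smul_eq_mul, Pi.zero_apply, Fin.zero_eta]
      ring
    · simp only [Pi.add_apply, Pi.smul_apply, smul_eq_mul, Pi.zero_apply, Fin.mk_one]
      ring

variable {X : Scheme.{0}} {k : Type} [Field k] (π : X ⟶ Sp k) [IsIntegral X]

theorem exists_GD2 [IsAlgClosed k] [IsProper π] [SmoothOfRelativeDimension 1 π]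
    (hg : HasGenus π 2) (σ : Sp k ⟶ X) (hσ : σ ≫ π = 𝟙 _) (q : Sp k) :
    Nonempty (GD (π := π) σ q) := by
  have hpir := pir_stalk π
  obtain ⟨f0, hf0⟩ := exists_transc π
  have hgen : σ q ≠ genericPoint X := section_ne_genericPoint π hf0 σ hσ q
  obtain ⟨U, V', x, y, c, hU, hV', hcov, hpU, hpV', -, -, -, hz, hV'ne⟩ :=
    exists_two_charts π (fun _ : Unit => σ q) (fun _ _ _ => rfl) (fun _ => hgen)
  set z : Γ(X, U) := x - kmap π U (c ()) with hzdef
  have hz' : ∀ r : Γ(X, U), σ q ∉ X.basicOpen r ↔ ∃ s, r = z * s := hz ()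
  have hpU' : σ q ∈ U := hpU ()
  have hpV'' : σ q ∉ V' := hpV' ()
  have hUne : Nonempty U := ⟨⟨σ q, hpU'⟩⟩
  have hW : IsAffineOpen (U ⊓ V') := isAffineOpen_inf π hU hV'
  have hWne : Nonempty (U ⊓ V' : X.Opens) := nonempty_inf hUne hV'ne
  obtain ⟨L, hLs, hLc, hL0⟩ := t_COVI π 2 hg U V' hU hV' hcov
  have hu : IsUnit (rs X (inf_le_left : U ⊓ V' ≤ U) z) :=
    isUnit_sub hpir hU z (σ q) hpU' hgen hz' (U ⊓ V') inf_le_left (fun h => hpV'' h.2)
  obtain ⟨zi, hzi⟩ := hu.exists_right_inv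
  have hZ : X.germToFunctionField (U ⊓ V') zi = (X.germToFunctionField U z)⁻¹ := by
    rw [germ_inv hzi, germ_rs]
  set Z := X.germToFunctionField U z with hZdef
  have hZ0 : Z ≠ 0 := by
    intro h
    rw [h, inv_zero] at hZ
    have h1 := congrArg (X.germToFunctionField (U ⊓ V')) hzi
    rw [map_mul, hZ, mul_zero, map_one] at h1
    exact zero_ne_one h1
  obtain ⟨α, β, γ, hne, hαβ⟩ : ∃ α β γ : k, (α ≠ 0 ∨ β ≠ 0 ∨ γ ≠ 0) ∧
      L (coef π (U ⊓ V') α * zi + coef π (U ⊓ V') β * zi ^ 2 +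
        coef π (U ⊓ V') γ * zi ^ 3) = 0 := by
    obtain ⟨α, β, γ, h1, h2⟩ := rel3 (L zi) (L (zi ^ 2)) (L (zi ^ 3))
    refine ⟨α, β, γ, h1, ?_⟩
    rw [map_add, map_add, hLc, hLc, hLc]
    exact h2
  obtain ⟨a, b, hab⟩ := (hL0 _).1 hαβ
  set f : X.functionField := X.germToFunctionField V' b with hf
  set A := X.germToFunctionField U a with hA
  have hfe : f = kfun π α * Z⁻¹ + kfun π β * (Z⁻¹) ^ 2 + kfun π γ * (Z⁻¹) ^ 3 - A := by
    have h1 := congrArg (X.germToFunctionField (U ⊓ V')) hab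
    rw [map_add, map_add, map_mul, map_mul, map_mul, map_pow, map_pow, hZ, germ_coef, germ_coef,
      germ_coef, map_add, germ_rs, germ_rs] at h1
    rw [hf, h1]
    ring
  have hdom1 : ∀ p, p ≠ σ q → p ∈ dom f := by
    intro p hp
    have hpt : p ∈ U ⊔ V' := by rw [hcov]; trivial
    rcases hpt with hpU1 | hpV1
    · have hpb := mem_basicOpen_of_ne hpir hU z (σ q) hpU' hgen hz' p hpU1 hp
      have hBne : Nonempty (X.basicOpen z) := ⟨⟨p, hpb⟩⟩
      have hub : IsUnit (rs X (X.basicOpen_le z) z) := X.toRingedSpace.isUnit_res_basicOpen z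
      obtain ⟨ζ, hζ⟩ := hub.exists_right_inv
      have hζ' : X.germToFunctionField (X.basicOpen z) ζ = Z⁻¹ := by
        rw [germ_inv hζ, germ_rs]
      refine (mem_dom_iff' f p).mpr ⟨X.basicOpen z, hpb, hBne, coef π _ α * ζ + coef π _ β * ζ ^ 2 +
        coef π _ γ * ζ ^ 3 - rs X (X.basicOpen_le z) a, ?_⟩
      rw [map_sub, map_add, map_add, map_mul, map_mul, map_mul, map_pow, map_pow, hζ', germ_coef,
        germ_coef, germ_coef, germ_rs, hfe]
    · exact (mem_dom_iff' f p).mpr ⟨V', hpV1, hV'ne, b, rfl⟩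
  have hdom2 : σ q ∉ dom f := by
    intro h
    obtain ⟨N, hN, hNne, s, hs⟩ := (mem_dom_iff' f (σ q)).mp h
    have hNU : Nonempty (N ⊓ U : X.Opens) := nonempty_inf hNne hUne
    have hle : ⊤ ≤ σ ⁻¹ᵁ (N ⊓ U) := top_le_of_mem σ _ q ⟨hN, hpU'⟩
    have hleU : ⊤ ≤ σ ⁻¹ᵁ U := top_le_of_mem σ _ q hpU'
    set z' := rs X (inf_le_right : N ⊓ U ≤ U) z with hz'def
    set s' := rs X (inf_le_left : N ⊓ U ≤ N) s with hs'def
    set a' := rs X (inf_le_right : N ⊓ U ≤ U) a with ha'def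
    have hez : evs σ _ hle z' = 0 := by
      rw [evs_rs σ inf_le_right hle hleU, evs_eq_zero_iff _ _ _ _ q]
      exact (hz' z).2 ⟨1, (mul_one _).symm⟩
    have gz : X.germToFunctionField (N ⊓ U) z' = Z := germ_rs _ _
    have gs : X.germToFunctionField (N ⊓ U) s' = f := by rw [hs'def, germ_rs, hs]
    have ga : X.germToFunctionField (N ⊓ U) a' = A := germ_rs _ _
    have e0 : z' ^ 3 * s' = coef π _ α * z' ^ 2 + coef π _ β * z' + coef π _ γ - z' ^ 3 * a' := by
      apply X.germToFunctionField_injective (N ⊓ U)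
      rw [map_sub, map_add, map_add, map_mul, map_mul, map_mul, map_mul, map_pow, map_pow, gz, gs,
        ga, germ_coef, germ_coef, germ_coef, hfe]
      field_simp
    have hγ : γ = 0 := by
      have h1 := congrArg (evs σ _ hle) e0
      rw [map_sub, map_add, map_add, map_mul, map_mul, map_mul, map_mul, map_pow, map_pow, hez,
        evs_coef π σ hσ, evs_coef π σ hσ, evs_coef π σ hσ] at h1
      simpa using h1.symm
    have e1 : z' ^ 2 * s' = coef π _ α * z' + coef π _ β - z' ^ 2 * a' := by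
      apply X.germToFunctionField_injective (N ⊓ U)
      rw [map_sub, map_add, map_mul, map_mul, map_mul, map_pow, gz, gs, ga, germ_coef, germ_coef,
        hfe, hγ, map_zero]
      field_simp
      ring
    have hβ : β = 0 := by
      have h1 := congrArg (evs σ _ hle) e1
      rw [map_sub, map_add, map_mul, map_mul, map_mul, map_pow, hez, evs_coef π σ hσ,
        evs_coef π σ hσ] at h1
      simpa using h1.symm
    have e2 : z' * s' = coef π _ α - z' * a' := by
      apply X.germToFunctionField_injective (N ⊓ U)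
      rw [map_sub, map_mul, map_mul, gz, gs, ga, germ_coef, hfe, hβ, hγ, map_zero]
      field_simp
      ring
    have hα : α = 0 := by
      have h1 := congrArg (evs σ _ hle) e2
      rw [map_sub, map_mul, map_mul, hez, evs_coef π σ hσ] at h1
      simpa using h1.symm
    rcases hne with h | h | h
    · exact h hα
    · exact h hβ
    · exact h hγ
  have htr : Transc π f := by
    apply transc_of
    intro c hc
    apply hdom2
    have : Nonempty (⊤ : X.Opens) := ⟨⟨σ q, trivial⟩⟩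
    exact (mem_dom_iff' f (σ q)).mpr ⟨⊤, trivial, this, coef π ⊤ c, by rw [germ_coef, hc]⟩
  exact ⟨{
    V := dom f
    U := U
    aV := isAffineOpen_dom π hpir htr
    aU := hU
    mV := fun x => ⟨fun h hx => hdom2 (hx ▸ h), hdom1 x⟩
    mU := hpU'
    z := z
    gz := hz' }⟩

end EGD

open _root_.Pool.Agent.MG.H2.EGD Pool.Agent.MG.W.W0 in
theorem t_EGD : Stmt_EGD := by
  intro X k _ π _ _ _ _ _ hg
  have hj : JacobsonSpace X := LocallyOfFiniteType.jacobsonSpace π
  obtain ⟨x, -, hx⟩ := nonempty_inter_closedPoints (Z := (Set.univ : Set X))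
    ⟨genericPoint X, trivial⟩ isOpen_univ.isLocallyClosed
  let σ : Sp k ⟶ X := pointOfClosedPoint π x hx
  have hσ : σ ≫ π = 𝟙 _ := pointOfClosedPoint_comp π x hx
  obtain ⟨q⟩ : Nonempty (Sp k) := ⟨(IsLocalRing.closedPoint k : PrimeSpectrum k)⟩
  obtain ⟨G⟩ := exists_GD2 π hg σ hσ q
  have hpir := pir_stalk π
  obtain ⟨f0, hf0⟩ := exists_transc π
  have hgen : σ q ≠ genericPoint X := section_ne_genericPoint π hf0 σ hσ q
  have hV : Nonempty G.V := ⟨⟨genericPoint X, (G.mV _).2 (Ne.symm hgen)⟩⟩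
  have hU : Nonempty G.U := ⟨⟨σ q, G.mU⟩⟩
  have hW : Nonempty (G.V ⊓ G.U : X.Opens) := nonempty_inf hV hU
  have hpV : σ q ∉ G.V := fun h => (G.mV _).1 h rfl
  have hu : IsUnit (rs X (inf_le_right : G.V ⊓ G.U ≤ G.U) G.z) :=
    isUnit_sub hpir G.aU G.z (σ q) G.mU hgen G.gz (G.V ⊓ G.U) inf_le_right (fun h => hpV h.1)
  obtain ⟨zi, hzi⟩ := hu.exists_right_inv
  obtain ⟨L, hLs, hLc, hL0⟩ := t_COVI π 2 hg G.V G.U G.aV G.aU G.cover
  have hWb : G.V ⊓ G.U = X.basicOpen G.z := by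
    apply le_antisymm
    · intro x hx
      exact mem_basicOpen_of_ne hpir G.aU G.z (σ q) G.mU hgen G.gz x hx.2 ((G.mV x).1 hx.1)
    · intro x hx
      refine ⟨(G.mV x).2 ?_, X.basicOpen_le _ hx⟩
      rintro rfl
      exact (G.gz G.z).2 ⟨1, (mul_one _).symm⟩ hx
  exact ⟨G.V, G.U, hV, G.aV, {
    c1 := coef π G.V
    c2 := coef π G.U
    c12 := coef π (G.V ⊓ G.U)
    j1 := rs X inf_le_left
    j2 := rs X inf_le_right
    jc1 := coef_rs π _
    jc2 := coef_rs π _
    inj1 := map_injective_of_isIntegral X (homOfLE (inf_le_left : G.V ⊓ G.U ≤ G.V))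
    inj2 := map_injective_of_isIntegral X (homOfLE (inf_le_right : G.V ⊓ G.U ≤ G.U))
    z := G.z
    zi := zi
    hz := hzi
    ev := evs σ G.U G.leU
    evc := evs_coef π σ hσ G.U G.leU
    evz := by
      rw [evs_eq_zero_iff _ _ _ _ q]
      exact (G.gz G.z).2 ⟨1, (mul_one _).symm⟩
    evk := fun r hr => by
      rw [evs_eq_zero_iff _ _ _ _ q] at hr
      exact (G.gz r).1 hr
    loc := loc_aux G.aU G.z inf_le_right hWb
    h0 := fun a b hab => const_of_agree π G.cover a b hab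
    L := fun r => L r
    Ladd := fun r s => map_add L r s
    Lc := fun c r => hLc c r
    L0 := fun r => hL0 r
    Ls := hLs }, rfl⟩

end Pool.Agent.MG.H2


end

section

/-!
# ESQ: the polynomial `f` can be made squarefree
-/

open Polynomial

namespace Pool.Agent.MG.H2

namespace ESQ

/-- A product of linear factors is a square times a product over a finite set. -/
theorem split_multiset {k : Type} [Field k] [DecidableEq k] (s : Multiset k) :
    ∃ (g : Polynomial k) (T : Finset k), g ≠ 0 ∧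
      (s.map fun r => X - C r).prod = g ^ 2 * ∏ r ∈ T, (X - C r) := by
  induction s using Multiset.induction_on with
  | empty => exact ⟨1, ∅, one_ne_zero, by simp⟩
  | cons a s ih =>
    obtain ⟨g, T, hg, h⟩ := ih
    by_cases ha : a ∈ T
    · refine ⟨g * (X - C a), T.erase a, mul_ne_zero hg (X_sub_C_ne_zero a), ?_⟩
      rw [Multiset.map_cons, Multiset.prod_cons, h, ← Finset.mul_prod_erase T _ ha]
      ring
    · refine ⟨g, insert a T, hg, ?_⟩
      rw [Multiset.map_cons, Multiset.prod_cons, h, Finset.prod_insert ha]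
      ring

/-- A nonzero polynomial is a square times a product over a finite set. -/
theorem split_poly {k : Type} [Field k] [IsAlgClosed k] [DecidableEq k] (f : Polynomial k)
    (hf : f ≠ 0) :
    ∃ (g : Polynomial k) (T : Finset k), g ≠ 0 ∧ f = g ^ 2 * ∏ r ∈ T, (X - C r) := by
  obtain ⟨g, T, hg, h⟩ := split_multiset f.roots
  obtain ⟨δ, hδ⟩ := IsAlgClosed.exists_pow_nat_eq f.leadingCoeff (n := 2) (by norm_num)
  have hδ0 : δ ≠ 0 := by
    rintro rfl
    apply hf
    rw [← leadingCoeff_eq_zero, ← hδ]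
    norm_num
  refine ⟨C δ * g, T, mul_ne_zero (C_ne_zero.2 hδ0) hg, ?_⟩
  have h1 := (IsAlgClosed.splits f).eq_prod_roots
  rw [h, ← hδ] at h1
  calc f = C (δ ^ 2) * (g ^ 2 * ∏ r ∈ T, (X - C r)) := h1
    _ = (C δ * g) ^ 2 * ∏ r ∈ T, (X - C r) := by
      rw [C_pow]
      ring

/-- Transport of the index type. -/
theorem of_fintype {k K : Type} [Field k] [Field K] (c : k →+* K) (x : K) (y' : K)
    {ι : Type} [Fintype ι] (m : ℕ) (hm : Fintype.card ι = 2 * m) (a b : ι → k)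
    (hab : ∀ i j, i ≠ j → a i * b j - a j * b i ≠ 0)
    (hq : Quad c x y' (∏ i, (C (a i) * X + C (b i)))) :
    ∃ (m : ℕ) (a b : Fin (2 * m) → k) (y' : K), (∀ i j, i ≠ j → a i * b j - a j * b i ≠ 0) ∧
      Quad c x y' (∏ i, (C (a i) * X + C (b i))) := by
  have e : Fin (2 * m) ≃ ι := (Fintype.equivFinOfCardEq hm).symm
  refine ⟨m, fun i => a (e i), fun i => b (e i), y', ?_, ?_⟩
  · intro i j hij
    exact hab _ _ fun h => hij (e.injective h)
  · rw [Equiv.prod_comp e fun i => (C (a i) * X + C (b i))]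
    exact hq

end ESQ

theorem t_ESQ : Stmt_ESQ := by
  classical
  intro k K _ _ _ _ c x y f hq
  by_cases hf : f = 0
  · subst hf
    have hy : y = 0 := by
      have := hq.eq
      rw [eval₂_zero] at this
      exact pow_eq_zero_iff (two_ne_zero) |>.1 this
    refine ⟨0, fun i => i.elim0, fun i => i.elim0, 1, fun i => i.elim0, ?_⟩
    refine ⟨?_, hq.tr, ?_⟩
    · simp
    · intro z
      obtain ⟨p, q, d, hd, h⟩ := hq.gen z
      refine ⟨p, 0, d, hd, ?_⟩
      rw [h, hy]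
      simp
  · obtain ⟨g, T, hg, hfg⟩ := ESQ.split_poly f hf
    have hgx : g.eval₂ c x ≠ 0 := by
      intro h
      apply hg
      apply hq.tr
      show g.eval₂ c x = (0 : Polynomial k).eval₂ c x
      rw [h, eval₂_zero]
    have hgen : ∀ z : K, ∃ p q d : Polynomial k, d ≠ 0 ∧
        d.eval₂ c x * z = p.eval₂ c x + q.eval₂ c x * (y / g.eval₂ c x) := by
      intro z
      obtain ⟨p, q, d, hd, h⟩ := hq.gen z
      refine ⟨p, q * g, d, hd, ?_⟩
      rw [h, eval₂_mul, mul_assoc, mul_div_cancel₀ _ hgx]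
    have hsq : (y / g.eval₂ c x) ^ 2 = (∏ r ∈ T, (X - C r)).eval₂ c x := by
      rw [div_pow, hq.eq]
      conv_lhs => rw [hfg]
      rw [eval₂_mul, eval₂_pow, mul_div_cancel_left₀ _ (pow_ne_zero 2 hgx)]
    rcases Nat.even_or_odd' T.card with ⟨m, hm | hm⟩
    · refine ESQ.of_fintype c x (y / g.eval₂ c x) (ι := T) m (by simpa using hm)
        (fun _ => 1) (fun r => -(r : k)) ?_ ⟨?_, hq.tr, hgen⟩
      · intro i j hij h
        apply hij
        ext
        linear_combination h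
      · rw [hsq]
        congr 1
        rw [← Finset.prod_coe_sort T]
        refine Finset.prod_congr rfl fun r _ => ?_
        simp [sub_eq_add_neg]
    · refine ESQ.of_fintype c x (y / g.eval₂ c x) (ι := Option T) (m + 1) ?_
        (fun o => o.elim 0 fun _ => 1) (fun o => o.elim 1 fun r => -(r : k)) ?_
        ⟨?_, hq.tr, hgen⟩
      · rw [Fintype.card_option, Fintype.card_coe, hm]
        ring
      · intro i j hij
        cases i with
        | none =>
          cases j with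
          | none => exact absurd rfl hij
          | some j => simp
        | some i =>
          cases j with
          | none => simp
          | some j =>
            intro h
            apply hij
            congr 1
            ext
            simp only [Option.elim] at h
            linear_combination h
      · rw [hsq]
        congr 1
        rw [Fintype.prod_option, ← Finset.prod_coe_sort T]
        simp [sub_eq_add_neg]

end Pool.Agent.MG.H2


end

section

/-!
# EIN, EUN: the chart at infinity and the uniqueness of the representation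
-/

open Polynomial

namespace Pool.Agent.MG.H2

namespace EIN70

variable {k K : Type} [Field k] [Field K]

/-- the linear forms are pairwise coprime -/
theorem coprime (a b a' b' : k) (h : a * b' - a' * b ≠ 0) :
    IsCoprime (C a * X + C b) (C a' * X + C b') := by
  refine ⟨C (-a' * (a * b' - a' * b)⁻¹), C (a * (a * b' - a' * b)⁻¹), ?_⟩
  have e : (C (-a' * (a * b' - a' * b)⁻¹) * (C a * X + C b) +
      C (a * (a * b' - a' * b)⁻¹) * (C a' * X + C b') : k[X]) =
      C ((a * b' - a' * b) * (a * b' - a' * b)⁻¹) := by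
    simp only [map_mul, map_neg, map_sub]
    ring
  rw [e, mul_inv_cancel₀ h, map_one]

theorem form_sqf (a b : k) (h : a ≠ 0 ∨ b ≠ 0) : Squarefree (C a * X + C b) := by
  by_cases ha : a = 0
  · have hb : b ≠ 0 := by
      rcases h with h | h
      · exact absurd ha h
      · exact h
    rw [ha, map_zero, zero_mul, zero_add]
    exact (isUnit_C.2 (isUnit_iff_ne_zero.2 hb)).squarefree
  · have hd : (C a * X + C b).degree = 1 := degree_linear ha
    exact (irreducible_of_degree_eq_one hd).squarefree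

theorem nz (m : ℕ) (a b : Fin (2 * m) → k) (h : ∀ i j, i ≠ j → a i * b j - a j * b i ≠ 0)
    (i : Fin (2 * m)) : a i ≠ 0 ∨ b i ≠ 0 := by
  by_contra hc
  push Not at hc
  obtain ⟨ha, hb⟩ := hc
  have hi := i.isLt
  have : ∃ j : Fin (2 * m), i ≠ j := by
    by_cases h0 : i.val = 0
    · exact ⟨⟨1, by omega⟩, fun e => by
        have := congrArg Fin.val e
        simp at this
        omega⟩
    · exact ⟨⟨0, by omega⟩, fun e => h0 (by
        have := congrArg Fin.val e
        simpa using this)⟩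
  obtain ⟨j, hj⟩ := this
  apply h i j hj
  rw [ha, hb]
  ring

theorem prod_sqf (m : ℕ) (a b : Fin (2 * m) → k)
    (h : ∀ i j, i ≠ j → a i * b j - a j * b i ≠ 0) :
    Squarefree (∏ i, (C (a i) * X + C (b i))) := by
  refine Finset.squarefree_prod_of_pairwise_isCoprime ?_ ?_
  · intro i _ j _ hij
    refine (coprime (a i) (b i) (a j) (b j) ?_).isRelPrime
    intro e
    apply h i j hij
    linear_combination e
  · intro i _
    exact form_sqf (a i) (b i) (nz m a b h i)

/-- the value at the inverse of the reflected polynomial -/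
theorem reflect_val (c : k →+* K) (x : K) (hx : x ≠ 0) (N : ℕ) (p : k[X])
    (hp : p.natDegree ≤ N) :
    (reflect N p).eval₂ c x⁻¹ = x⁻¹ ^ N * p.eval₂ c x := by
  let _ : Invertible x := invertibleOfNonzero hx
  have h := eval₂_reflect_mul_pow c x N p hp
  rw [invOf_eq_inv] at h
  rw [← h]
  have : x⁻¹ ^ N * x ^ N = 1 := by
    rw [← mul_pow, inv_mul_cancel₀ hx, one_pow]
  linear_combination (-(eval₂ c x⁻¹ (reflect N p))) * this

theorem x_ne {c : k →+* K} {x y : K} {f : k[X]} (h : Quad c x y f) : x ≠ 0 := by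
  intro hx
  have h1 : eval₂RingHom c x X = eval₂RingHom c x 0 := by
    rw [map_zero, coe_eval₂RingHom, eval₂_X, hx]
  exact X_ne_zero (h.tr h1)

theorem reflect_ne (N : ℕ) (p : k[X]) (hp : p ≠ 0) : reflect N p ≠ 0 := by
  intro h
  apply hp
  have := congrArg (reflect N) h
  rwa [reflect_reflect, reflect_zero] at this

theorem prod_val (c : k →+* K) (x : K) (m : ℕ) (a b : Fin (2 * m) → k) :
    (∏ i, (C (a i) * X + C (b i))).eval₂ c x = ∏ i, (c (a i) * x + c (b i)) := by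
  rw [eval₂_finsetProd]
  refine Finset.prod_congr rfl fun i _ => ?_
  simp [eval₂_add, eval₂_mul, eval₂_C, eval₂_X]

theorem quad_inv {c : k →+* K} {x y : K} {m : ℕ} {a b : Fin (2 * m) → k}
    (h : Quad c x y (∏ i, (C (a i) * X + C (b i)))) :
    Quad c x⁻¹ (y * x⁻¹ ^ m) (∏ i, (C (b i) * X + C (a i))) := by
  have hx := x_ne h
  refine ⟨?_, ?_, ?_⟩
  · have h1 := h.eq
    rw [prod_val] at h1 ⊢
    have h2 : (y * x⁻¹ ^ m) ^ 2 = y ^ 2 * ∏ _i : Fin (2 * m), x⁻¹ := by
      rw [Finset.prod_const, Finset.card_univ, Fintype.card_fin]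
      ring
    rw [h2, h1, ← Finset.prod_mul_distrib]
    refine Finset.prod_congr rfl fun i _ => ?_
    have : x * x⁻¹ = 1 := mul_inv_cancel₀ hx
    linear_combination (c (a i)) * this
  · rw [injective_iff_map_eq_zero]
    intro p hp
    rw [coe_eval₂RingHom] at hp
    by_contra hne
    have h1 := reflect_val c x⁻¹ (inv_ne_zero hx) p.natDegree p le_rfl
    rw [hp, mul_zero, inv_inv] at h1
    have h2 : eval₂RingHom c x (reflect p.natDegree p) = 0 := h1
    exact reflect_ne _ _ hne ((injective_iff_map_eq_zero _).1 h.tr _ h2)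
  · intro z
    obtain ⟨p, q, d, hd, e⟩ := h.gen z
    let N := p.natDegree + q.natDegree + d.natDegree
    refine ⟨reflect (N + m) p, reflect N q, reflect (N + m) d, reflect_ne _ _ hd, ?_⟩
    rw [reflect_val c x hx (N + m) p (by omega), reflect_val c x hx N q (by omega),
      reflect_val c x hx (N + m) d (by omega)]
    linear_combination (x⁻¹ ^ (N + m)) * e

theorem prod_not_unit (m : ℕ) (hm : 1 ≤ m) (a b : Fin (2 * m) → k)
    (h : ∀ i j, i ≠ j → a i * b j - a j * b i ≠ 0) :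
    ¬ IsUnit (∏ i, (C (a i) * X + C (b i))) := by
  intro hu
  have h1 : ∀ i, IsUnit (C (a i) * X + C (b i)) := fun i =>
    isUnit_of_dvd_unit
      (Finset.dvd_prod_of_mem (fun i => C (a i) * X + C (b i)) (Finset.mem_univ i)) hu
  have h2 : ∀ i, a i = 0 := by
    intro i
    by_contra ha
    have hd : (C (a i) * X + C (b i)).degree = 1 := degree_linear ha
    exact (irreducible_of_degree_eq_one hd).not_isUnit (h1 i)
  apply h ⟨0, by omega⟩ ⟨1, by omega⟩ (by
    intro e
    have := congrArg Fin.val e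
    simp at this)
  rw [h2, h2]
  ring

theorem uniq {c : k →+* K} {x y : K} {m : ℕ} {a b : Fin (2 * m) → k} (hm : 1 ≤ m)
    (hab : ∀ i j, i ≠ j → a i * b j - a j * b i ≠ 0)
    (h : Quad c x y (∏ i, (C (a i) * X + C (b i)))) (p q : k[X])
    (e : p.eval₂ c x + q.eval₂ c x * y = 0) : p = 0 ∧ q = 0 := by
  have h1 : p ^ 2 = q ^ 2 * ∏ i, (C (a i) * X + C (b i)) := by
    apply h.tr
    rw [map_pow, map_mul, map_pow]
    change (p.eval₂ c x) ^ 2 = (q.eval₂ c x) ^ 2 * (eval₂ c x (∏ i, (C (a i) * X + C (b i))))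
    rw [← h.eq]
    linear_combination (p.eval₂ c x - q.eval₂ c x * y) * e
  have hq : q = 0 := by
    by_contra hq
    have h2 : q ∣ p := (IsIntegrallyClosed.pow_dvd_pow_iff (n := 2) (by norm_num)).1 ⟨_, h1⟩
    obtain ⟨r, rfl⟩ := h2
    have h3 : r * r = ∏ i, (C (a i) * X + C (b i)) := by
      have : q ^ 2 ≠ 0 := pow_ne_zero _ hq
      apply mul_left_cancel₀ this
      linear_combination h1
    have h4 : IsUnit r := prod_sqf m a b hab r ⟨1, by rw [mul_one, h3]⟩
    exact prod_not_unit m hm a b hab (h3 ▸ h4.mul h4)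
  refine ⟨?_, hq⟩
  rw [hq] at h1
  have h2 : p ^ 2 = 0 := by
    rw [h1]
    ring
  exact pow_eq_zero_iff (by norm_num) |>.1 h2

end EIN70

theorem t_EIN : Stmt_EIN := by
  intro k K _ _ c x y m a b hab h
  refine ⟨EIN70.prod_sqf m a b hab, EIN70.prod_sqf m b a ?_, EIN70.quad_inv h⟩
  intro i j hij e
  apply hab i j hij
  linear_combination -e

theorem t_EUN : Stmt_EUN := by
  intro k K _ _ _ c x y m a b hm hab h p q e
  exact EIN70.uniq hm hab h p q e

end Pool.Agent.MG.H2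


end

section

/-!
# EMB: a change of the coordinate moves the roots away from infinity
-/

open Polynomial

namespace Pool.Agent.MG.H2

namespace EMB46

variable {k K : Type} [Field k] [Field K]

theorem comp_val (c : k →+* K) (x : K) (t : k) (p : k[X]) :
    (p.comp (X + C t)).eval₂ c (x - c t) = p.eval₂ c x := by
  rw [eval₂_comp, eval₂_add, eval₂_X, eval₂_C, sub_add_cancel]

theorem comp_ne (t : k) (p : k[X]) (hp : p ≠ 0) : p.comp (X + C t) ≠ 0 := by
  intro h
  apply hp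
  have h1 : (p.comp (X + C t)).comp (X - C t) = p := by
    rw [comp_assoc, add_comp, X_comp, C_comp, sub_add_cancel, comp_X]
  rw [← h1, h, zero_comp]

/-- the change of the coordinate by a constant -/
theorem quad_sub {c : k →+* K} {x y : K} {m : ℕ} {a b : Fin (2 * m) → k} (t : k)
    (h : Quad c x y (∏ i, (C (a i) * X + C (b i)))) :
    Quad c (x - c t) y (∏ i, (C (a i) * X + C (a i * t + b i))) := by
  refine ⟨?_, ?_, ?_⟩
  · have h1 := h.eq
    rw [EIN70.prod_val] at h1 ⊢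
    rw [h1]
    refine Finset.prod_congr rfl fun i _ => ?_
    rw [map_add, map_mul]
    ring
  · rw [injective_iff_map_eq_zero]
    intro p hp
    rw [coe_eval₂RingHom] at hp
    by_contra hne
    have h1 := comp_val c (x - c t) (-t) p
    rw [hp, map_neg, sub_neg_eq_add, sub_add_cancel] at h1
    have h2 : eval₂RingHom c x (p.comp (X + C (-t))) = 0 := h1
    exact comp_ne _ _ hne ((injective_iff_map_eq_zero _).1 h.tr _ h2)
  · intro z
    obtain ⟨p, q, d, hd, e⟩ := h.gen z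
    refine ⟨p.comp (X + C t), q.comp (X + C t), d.comp (X + C t), comp_ne _ _ hd, ?_⟩
    rw [comp_val, comp_val, comp_val]
    exact e

/-- the linear forms become monic -/
theorem quad_scale {c : k →+* K} {x y : K} {m : ℕ} {a b : Fin (2 * m) → k} (s : k)
    (hs : s ^ 2 = ∏ i, a i) (ha : ∀ i, a i ≠ 0)
    (h : Quad c x y (∏ i, (C (a i) * X + C (b i)))) :
    Quad c x (y * (c s)⁻¹) (∏ i, (X - C (-(b i) * (a i)⁻¹))) := by
  have hp : ∏ i, a i ≠ 0 := Finset.prod_ne_zero_iff.2 fun i _ => ha i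
  have hs0 : s ≠ 0 := by
    intro e
    apply hp
    rw [← hs, e]
    norm_num
  have hcs : c s ≠ 0 := by
    intro e
    exact hs0 (c.injective (e.trans (map_zero c).symm))
  refine ⟨?_, h.tr, ?_⟩
  · have h1 := h.eq
    rw [EIN70.prod_val] at h1
    have h2 : (∏ i, (c (a i) * x + c (b i))) =
        (c s) ^ 2 * ∏ i, (x - c (-(b i) * (a i)⁻¹)) := by
      rw [← map_pow, hs, map_prod, ← Finset.prod_mul_distrib]
      refine Finset.prod_congr rfl fun i _ => ?_
      rw [mul_sub, ← map_mul]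
      have : a i * (-(b i) * (a i)⁻¹) = - b i := by
        field_simp [ha i]
      rw [this, map_neg, sub_neg_eq_add]
    rw [mul_pow, h1, h2, eval₂_finsetProd]
    have h3 : (∏ i : Fin (2 * m), eval₂ c x (X - C (-(b i) * (a i)⁻¹))) =
        ∏ i, (x - c (-(b i) * (a i)⁻¹)) := by
      refine Finset.prod_congr rfl fun i _ => ?_
      rw [eval₂_sub, eval₂_X, eval₂_C]
    rw [h3, inv_pow]
    field_simp
  · intro z
    obtain ⟨p, q, d, hd, e⟩ := h.gen z
    refine ⟨p, q * C s, d, hd, ?_⟩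
    rw [e, eval₂_mul, eval₂_C]
    have : c s * (c s)⁻¹ = 1 := mul_inv_cancel₀ hcs
    linear_combination (-(q.eval₂ c x * y)) * this

theorem exists_good [Infinite k] (m : ℕ) (a b : Fin (2 * m) → k)
    (h : ∀ i, a i ≠ 0 ∨ b i ≠ 0) : ∃ t : k, ∀ i, a i * t + b i ≠ 0 := by
  classical
  obtain ⟨t, ht⟩ := Infinite.exists_notMem_finset
    (Finset.univ.image fun i : Fin (2 * m) => -(b i) * (a i)⁻¹)
  refine ⟨t, fun i e => ?_⟩
  by_cases ha : a i = 0
  · rw [ha, zero_mul, zero_add] at e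
    rcases h i with h | h
    · exact h ha
    · exact h e
  · apply ht
    rw [Finset.mem_image]
    refine ⟨i, Finset.mem_univ _, ?_⟩
    have h1 : a i * (a i)⁻¹ = 1 := mul_inv_cancel₀ ha
    linear_combination (-(a i)⁻¹) * e + t * h1

end EMB46

theorem t_EMB : Stmt_EMB := by
  intro k K _ _ _ _ c x y m a b hab h
  have : Infinite k := IsAlgClosed.instInfinite
  obtain ⟨t, ht⟩ := EMB46.exists_good m a b (EIN70.nz m a b hab)
  obtain ⟨s, hs⟩ := IsAlgClosed.exists_pow_nat_eq (∏ i, (a i * t + b i)) (n := 2) (by norm_num)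
  have h1 := EIN70.quad_inv (EMB46.quad_sub t h)
  have h2 := EMB46.quad_scale s hs ht h1
  refine ⟨_, _, _, ?_, h2⟩
  intro i j hij
  by_contra hne
  apply hab i j hne
  have hi := ht i
  have hj := ht j
  have h3 : -(a i) * (a i * t + b i)⁻¹ = -(a j) * (a j * t + b j)⁻¹ := hij
  have h4 : a i * (a j * t + b j) = a j * (a i * t + b i) := by
    have e1 : (a i * t + b i) * (a i * t + b i)⁻¹ = 1 := mul_inv_cancel₀ hi
    have e2 : (a j * t + b j) * (a j * t + b j)⁻¹ = 1 := mul_inv_cancel₀ hj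
    linear_combination (-(a i * t + b i) * (a j * t + b j)) * h3 -
      (a i * (a j * t + b j)) * e1 + (a j * (a i * t + b i)) * e2
  linear_combination h4

end Pool.Agent.MG.H2


end

section

/-!
# ECN: the number of the linear forms is six

Modulo the functions of the two charts every function of the intersection is a combination of
`y x⁻¹, …, y x^{-(m-1)}`, and these are independent.
-/

open Polynomial

namespace Pool.Agent.MG.H2

namespace ECNh

variable {k K : Type} [Field k] [Field K]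

/-- functions of the intersection of the charts -/
def PS (c : k →+* K) (x y z : K) : Prop :=
  ∃ (N : ℕ) (p q : Polynomial k), x ^ N * z = p.eval₂ c x + q.eval₂ c x * y

theorem PS.add {c : k →+* K} {x y z w : K} (hz : PS c x y z) (hw : PS c x y w) :
    PS c x y (z + w) := by
  obtain ⟨N, p, q, h⟩ := hz
  obtain ⟨M, p', q', h'⟩ := hw
  refine ⟨N + M, X ^ M * p + X ^ N * p', X ^ M * q + X ^ N * q', ?_⟩
  simp only [eval₂_add, eval₂_mul, eval₂_pow, eval₂_X]
  rw [pow_add]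
  linear_combination x ^ M * h + x ^ N * h'

theorem PS.smul {c : k →+* K} {x y z : K} (a : k) (hz : PS c x y z) :
    PS c x y (c a * z) := by
  obtain ⟨N, p, q, h⟩ := hz
  refine ⟨N, C a * p, C a * q, ?_⟩
  simp only [eval₂_mul, eval₂_C]
  linear_combination c a * h

theorem PS.zero (c : k →+* K) (x y : K) : PS c x y 0 :=
  ⟨0, 0, 0, by simp⟩

theorem PS.sum {c : k →+* K} {x y : K} {ι : Type} (s : Finset ι) (z : ι → K) (a : ι → k)
    (h : ∀ i, PS c x y (z i)) : PS c x y (∑ i ∈ s, c (a i) * z i) := by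
  classical
  induction s using Finset.induction_on with
  | empty => simpa using PS.zero c x y
  | insert i s hi ih =>
    rw [Finset.sum_insert hi]
    exact ((h i).smul (a i)).add ih

/-- `y x^{-(i+1)}` -/
theorem PS.base {c : k →+* K} {x y : K} (hx : x ≠ 0) (i : ℕ) : PS c x y (y * x⁻¹ ^ i) := by
  refine ⟨i, 0, 1, ?_⟩
  simp only [eval₂_zero, eval₂_one, zero_add, one_mul]
  rw [inv_pow]
  field_simp

/-- sums of functions of the charts -/
def QS (c : k →+* K) (x y : K) (m : ℕ) (z : K) : Prop :=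
  ∃ p q p' q' : Polynomial k, z = (p.eval₂ c x + q.eval₂ c x * y) +
        (p'.eval₂ c x⁻¹ + q'.eval₂ c x⁻¹ * (y * x⁻¹ ^ m))

theorem QS.add {c : k →+* K} {x y z w : K} {m : ℕ} (hz : QS c x y m z) (hw : QS c x y m w) :
    QS c x y m (z + w) := by
  obtain ⟨p, q, p', q', h⟩ := hz
  obtain ⟨r, s, r', s', h'⟩ := hw
  refine ⟨p + r, q + s, p' + r', q' + s', ?_⟩
  simp only [eval₂_add]
  linear_combination h + h'

theorem QS.zero (c : k →+* K) (x y : K) (m : ℕ) : QS c x y m 0 :=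
  ⟨0, 0, 0, 0, by simp⟩

/-- combination of the base elements plus functions of the charts -/
def TS (c : k →+* K) (x y : K) (m : ℕ) (z : K) : Prop :=
  ∃ (a : Fin (m - 1) → k) (w : K), QS c x y m w ∧
    z = ∑ i, c (a i) * (y * x⁻¹ ^ ((i : ℕ) + 1)) + w

theorem TS.add {c : k →+* K} {x y z w : K} {m : ℕ} (hz : TS c x y m z) (hw : TS c x y m w) :
    TS c x y m (z + w) := by
  obtain ⟨a, u, hu, h⟩ := hz
  obtain ⟨b, v, hv, h'⟩ := hw
  refine ⟨a + b, u + v, hu.add hv, ?_⟩
  simp only [Pi.add_apply, map_add, add_mul, Finset.sum_add_distrib]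
  linear_combination h + h'

theorem TS.of_QS {c : k →+* K} {x y z : K} {m : ℕ} (hz : QS c x y m z) : TS c x y m z :=
  ⟨0, z, hz, by simp⟩

theorem mono1 {c : k →+* K} {x y : K} (hx : x ≠ 0) (m N j : ℕ) (a : k) :
    TS c x y m (x⁻¹ ^ N * (c a * x ^ j)) := by
  rcases le_total N j with h | h
  · obtain ⟨d, rfl⟩ := Nat.exists_eq_add_of_le h
    refine TS.of_QS ⟨C a * X ^ d, 0, 0, 0, ?_⟩
    simp only [eval₂_mul, eval₂_C, eval₂_pow, eval₂_X, eval₂_zero]
    rw [inv_pow, pow_add]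
    field_simp
    ring
  · obtain ⟨d, rfl⟩ := Nat.exists_eq_add_of_le h
    refine TS.of_QS ⟨0, 0, C a * X ^ d, 0, ?_⟩
    simp only [eval₂_mul, eval₂_C, eval₂_pow, eval₂_X, eval₂_zero]
    rw [inv_pow, inv_pow, pow_add]
    field_simp
    ring

theorem mono2 {c : k →+* K} {x y : K} (hx : x ≠ 0) (m N j : ℕ) (a : k) :
    TS c x y m (x⁻¹ ^ N * (c a * x ^ j * y)) := by
  classical
  rcases le_or_gt N j with h | h
  · obtain ⟨d, rfl⟩ := Nat.exists_eq_add_of_le h
    refine TS.of_QS ⟨0, C a * X ^ d, 0, 0, ?_⟩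
    simp only [eval₂_mul, eval₂_C, eval₂_pow, eval₂_X, eval₂_zero]
    rw [inv_pow, pow_add]
    field_simp
    ring
  · obtain ⟨d, rfl⟩ := Nat.exists_eq_add_of_lt h
    rcases le_or_gt m (d + 1) with h' | h'
    · obtain ⟨e, he⟩ := Nat.exists_eq_add_of_le h'
      refine TS.of_QS ⟨0, 0, 0, C a * X ^ e, ?_⟩
      simp only [eval₂_mul, eval₂_C, eval₂_pow, eval₂_X, eval₂_zero]
      have h1 : j + d + 1 = j + (m + e) := by omega
      rw [h1, inv_pow, inv_pow, inv_pow, pow_add, pow_add]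
      field_simp
      ring
    · refine ⟨fun i => if (i : ℕ) = d then a else 0, 0, QS.zero c x y m, ?_⟩
      have hd : d < m - 1 := by omega
      rw [Finset.sum_eq_single (⟨d, hd⟩ : Fin (m - 1))]
      · simp only [if_true, add_zero]
        rw [inv_pow, inv_pow]
        have h1 : j + d + 1 = j + (d + 1) := by omega
        rw [h1, pow_add]
        field_simp
      · intro b _ hb
        have : (b : ℕ) ≠ d := fun h => hb (Fin.ext h)
        simp [this]
      · intro h
        exact absurd (Finset.mem_univ _) h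

theorem poly1 {c : k →+* K} {x y : K} (hx : x ≠ 0) (m N : ℕ) (p : Polynomial k) :
    TS c x y m (x⁻¹ ^ N * p.eval₂ c x) := by
  induction p using Polynomial.induction_on' with
  | add p q hp hq =>
    rw [eval₂_add, mul_add]
    exact hp.add hq
  | monomial n a =>
    rw [eval₂_monomial]
    exact mono1 hx m N n a

theorem poly2 {c : k →+* K} {x y : K} (hx : x ≠ 0) (m N : ℕ) (p : Polynomial k) :
    TS c x y m (x⁻¹ ^ N * (p.eval₂ c x * y)) := by
  induction p using Polynomial.induction_on' with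
  | add p q hp hq =>
    rw [eval₂_add, add_mul, mul_add]
    exact hp.add hq
  | monomial n a =>
    rw [eval₂_monomial]
    exact mono2 hx m N n a

/-- every function of the intersection -/
theorem decomp {c : k →+* K} {x y z : K} (hx : x ≠ 0) (m : ℕ) (hz : PS c x y z) :
    TS c x y m z := by
  obtain ⟨N, p, q, h⟩ := hz
  have h1 : z = x⁻¹ ^ N * p.eval₂ c x + x⁻¹ ^ N * (q.eval₂ c x * y) := by
    rw [← mul_add, ← h, ← mul_assoc, ← mul_pow, inv_mul_cancel₀ hx, one_pow, one_mul]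
  rw [h1]
  exact (poly1 hx m N p).add (poly2 hx m N q)

theorem inv_eval {c : k →+* K} {x : K} (hx : x ≠ 0) (N : ℕ) (f : Polynomial k)
    (hf : f.natDegree ≤ N) : x ^ N * f.eval₂ c x⁻¹ = (reflect N f).eval₂ c x := by
  let _ : Invertible x⁻¹ := invertibleOfNonzero (inv_ne_zero hx)
  have h := eval₂_reflect_mul_pow c x⁻¹ N f hf
  have h1 : (⅟ (x⁻¹) : K) = x := by
    rw [invOf_eq_inv, inv_inv]
  rw [h1] at h
  rw [← h, mul_comm, mul_assoc, ← mul_pow, inv_mul_cancel₀ hx, one_pow, mul_one]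

/-- the base elements are independent modulo the functions of the charts -/
theorem indep {c : k →+* K} {x y : K} (hx : x ≠ 0) (m : ℕ) (hm : 1 ≤ m)
    (hi : ∀ p q : Polynomial k, p.eval₂ c x + q.eval₂ c x * y = 0 → p = 0 ∧ q = 0)
    (a : Fin (m - 1) → k) (h : QS c x y m (∑ i, c (a i) * (y * x⁻¹ ^ ((i : ℕ) + 1)))) :
    a = 0 := by
  classical
  obtain ⟨p, q, p', q', h⟩ := h
  set M : ℕ := m + p'.natDegree + q'.natDegree with hM
  have e1 := inv_eval (c := c) hx M p' (by omega)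
  have e2 := inv_eval (c := c) hx (M - m) q' (by omega)
  have hMm : x ^ M = x ^ (M - m) * x ^ m := by
    rw [← pow_add]
    congr 1
    omega
  have hpow : ∀ i : Fin (m - 1), x ^ M * x⁻¹ ^ ((i : ℕ) + 1) = x ^ (M - 1 - i) := by
    intro i
    have hi2 := i.2
    have h3 : M = (M - 1 - i) + ((i : ℕ) + 1) := by omega
    conv_lhs => rw [h3]
    rw [pow_add, mul_assoc, ← mul_pow, mul_inv_cancel₀ hx, one_pow, mul_one]
  have hkey := hi (-(X ^ M * p + reflect M p'))
    ((∑ i : Fin (m - 1), C (a i) * X ^ (M - 1 - (i : ℕ))) - X ^ M * q - reflect (M - m) q') (by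
    simp only [eval₂_neg, eval₂_add, eval₂_sub, eval₂_mul, eval₂_pow, eval₂_X,
      eval₂_finsetSum, eval₂_C]
    rw [← e1, ← e2]
    have h4 : ∑ i : Fin (m - 1), c (a i) * x ^ (M - 1 - (i : ℕ)) * y =
        x ^ M * ∑ i : Fin (m - 1), c (a i) * (y * x⁻¹ ^ ((i : ℕ) + 1)) := by
      rw [Finset.mul_sum]
      refine Finset.sum_congr rfl fun i _ => ?_
      rw [← hpow i]
      ring
    have h5 : x ^ M * x⁻¹ ^ m = x ^ (M - m) := by
      rw [hMm, mul_assoc, ← mul_pow, mul_inv_cancel₀ hx, one_pow, mul_one]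
    have h6 : (∑ i : Fin (m - 1), c (a i) * x ^ (M - 1 - (i : ℕ))) * y =
        x ^ M * (p.eval₂ c x + q.eval₂ c x * y +
        (p'.eval₂ c x⁻¹ + q'.eval₂ c x⁻¹ * (y * x⁻¹ ^ m))) := by
      rw [← h, ← h4, Finset.sum_mul]
    have h7 : x ^ M * (q'.eval₂ c x⁻¹ * (y * x⁻¹ ^ m)) =
        x ^ (M - m) * q'.eval₂ c x⁻¹ * y := by
      rw [← h5]
      ring
    linear_combination h6 + h7)
  funext i
  have hi2 := i.2
  have h8 := congrArg (fun f : Polynomial k => f.coeff (M - 1 - (i : ℕ))) hkey.2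
  simp only [coeff_sub, coeff_zero, finsetSum_coeff, coeff_C_mul, coeff_X_pow] at h8
  have h9 : (X ^ M * q).coeff (M - 1 - (i : ℕ)) = 0 := by
    rw [coeff_X_pow_mul']
    rw [if_neg]
    omega
  have h10 : (reflect (M - m) q').coeff (M - 1 - (i : ℕ)) = 0 := by
    rw [coeff_reflect]
    apply coeff_eq_zero_of_natDegree_lt
    rw [revAt_eq_self_of_lt (by omega)]
    omega
  rw [h9, h10, Finset.sum_eq_single i] at h8
  · simpa using h8
  · intro b _ hb
    have hb2 := b.2
    have : ¬ (M - 1 - (i : ℕ) = M - 1 - (b : ℕ)) := by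
      intro h
      apply hb
      apply Fin.ext
      omega
    simp [this]
  · intro h
    exact absurd (Finset.mem_univ _) h

end ECNh

open _root_.Pool.Agent.MG.H2.ECNh in
theorem t_ECN : Stmt_ECN := by
  intro k K _ _ _ c x y m hx _ hi L hadd hsm hker hsur
  have hL0 : L 0 = 0 := by
    have := hsm 0 0 (PS.zero c x y)
    simpa using this
  have hLsum : ∀ a : Fin (m - 1) → k,
      L (∑ i, c (a i) * (y * x⁻¹ ^ ((i : ℕ) + 1))) =
        ∑ i, a i • L (y * x⁻¹ ^ ((i : ℕ) + 1)) := by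
    intro a
    have : ∀ s : Finset (Fin (m - 1)), L (∑ i ∈ s, c (a i) * (y * x⁻¹ ^ ((i : ℕ) + 1))) =
        ∑ i ∈ s, a i • L (y * x⁻¹ ^ ((i : ℕ) + 1)) := by
      classical
      intro s
      induction s using Finset.induction_on with
      | empty => simpa using hL0
      | insert i s hi' ih =>
        rw [Finset.sum_insert hi', Finset.sum_insert hi', hadd _ _ ((PS.base hx _).smul (a i))
          (PS.sum s _ a fun i => PS.base hx _), ih, hsm _ _ (PS.base hx _)]
    exact this Finset.univ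
  let Φ : (Fin (m - 1) → k) →ₗ[k] (Fin 2 → k) :=
    Fintype.linearCombination k (fun i : Fin (m - 1) => L (y * x⁻¹ ^ ((i : ℕ) + 1)))
  have hΦ : ∀ a, Φ a = L (∑ i, c (a i) * (y * x⁻¹ ^ ((i : ℕ) + 1))) := by
    intro a
    rw [hLsum a]
    rfl
  have hPsum : ∀ a : Fin (m - 1) → k,
      PS c x y (∑ i, c (a i) * (y * x⁻¹ ^ ((i : ℕ) + 1))) := fun a =>
    PS.sum Finset.univ _ a fun i => PS.base hx _
  have hΦs : Function.Surjective Φ := by
    intro v
    obtain ⟨z, hz, rfl⟩ := hsur v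
    obtain ⟨a, w, hw, h⟩ := decomp hx m hz
    refine ⟨a, ?_⟩
    have hPw : PS c x y w := by
      have h1 : w = z + c (-1) * ∑ i, c (a i) * (y * x⁻¹ ^ ((i : ℕ) + 1)) := by
        rw [h]
        simp
      rw [h1]
      exact PS.add hz ((hPsum a).smul (-1))
    have hLw : L w = 0 := (hker w hPw).2 hw
    rw [hΦ, h, hadd _ _ (hPsum a) hPw, hLw, add_zero]
  have hdim : 2 ≤ m - 1 := by
    have := LinearMap.finrank_le_finrank_of_surjective (f := Φ) hΦs
    simpa using this
  have hm : 1 ≤ m := by omega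
  have hΦi : Function.Injective Φ := by
    rw [← LinearMap.ker_eq_bot, LinearMap.ker_eq_bot']
    intro a ha
    rw [hΦ] at ha
    exact ECNh.indep hx m hm (hi hm) a ((hker _ (hPsum a)).1 ha)
  have hdim2 : m - 1 ≤ 2 := by
    have := LinearMap.finrank_le_finrank_of_injective (f := Φ) hΦi
    simpa using this
  omega

end Pool.Agent.MG.H2


end

section

/-!
# Smooth curves of genus two are curves `y² = f(x)`
-/

namespace Pool.Agent.MG.H2

theorem efg : Stmt_EFG :=
  t_EFG t_EPD t_EGD t_ESQ t_EMB t_EIC t_EIN t_EUN t_EDM t_ECN t_EIS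

theorem ef : Stmt_EF := EFG_EF efg

end Pool.Agent.MG.H2


end

section

/-!
# The case `(g, n) = (2, 0)`: every regular function is constant
-/

open CategoryTheory CategoryTheory.Limits AlgebraicGeometry Polynomial

namespace Pool.Agent.MG.H2

open Pool.Agent.MG.Two2

/-- HSM: the curves `y² = ∏ (x - r i)` are smooth. -/
def Stmt_HSM : Prop :=
  ∀ {K : Type} [Field K] [CharZero K] (r : Fin 6 → K), Function.Injective r →
    Smooth (HX.pr K (rts r))

theorem good_rts {K : Type} [Field K] (r : Fin 6 → K) (hr : Function.Injective r) :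
    Two2.Good (∏ i, (X - C (r i))) :=
  good_prod (Or.inr (by simp)) r hr

/-- `F` is constant on the curves `y² = ∏ (x - r i)`. -/
theorem Mdl.const (M : Mdl) (hA : Two2.Alg_Stmt) (F : Reg 2 0) : ∃ c : ℂ,
    ∀ (K : Type) [Field K] [IsAlgClosed K] [Algebra ℂ K] (r : Fin 6 → K)
      (hr : Function.Injective r) (l : Cov 2 (M.crv (∏ i, (X - C (r i))))),
      F.F K _ (M.st _ (good_rts r hr)) l = algebraMap ℂ K c := by
  obtain ⟨c, hc⟩ := hA ℂ (M.dat F)
  refine ⟨c, fun K _ _ _ r hr l => ?_⟩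
  obtain ⟨q, hq, rfl⟩ := M.surj r hr (good_rts r hr) l
  rw [← hc K _ q (good_rts r hr) hq]
  exact (M.S_good F (good_rts r hr) q).symm

/-- Every regular function is constant. -/
theorem Mdl.end20 (M : Mdl) (hA : Two2.Alg_Stmt) (hE : Stmt_EF) (F : Reg 2 0) : ∃ c : ℂ,
    ∀ (K : Type) [Field K] [IsAlgClosed K] [Algebra ℂ K] (C : Fam 0 K) (hC : IsStable 2 C)
      (_ : SmoothOfRelativeDimension 1 C.π) (l : Cov 2 C), F.F K C hC l = algebraMap ℂ K c := by
  obtain ⟨c, hc⟩ := M.const hA F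
  refine ⟨c, fun K _ _ _ C hC hs l => ?_⟩
  have : CharZero K := charZero_of_injective_algebraMap (algebraMap ℂ K).injective
  obtain ⟨r, hr, a, -⟩ := hE C hC hs
  obtain ⟨b, -⟩ := M.link r hr
  rw [val_transport F (precomp a b) (M.st _ (good_rts r hr)) hC l]
  exact hc K r hr _

/-- The generic curve. -/
theorem Mdl.rigid20 (M : Mdl) (hA : Two2.Alg_Stmt) (hDR : Stmt_HDR) (hGE : Stmt_HGE)
    (hSM : Stmt_HSM) : Std.Rigid 2 0 := by
  obtain ⟨K, i1, i2, i3, r, hr, hI⟩ := hDR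
  have : CharZero K := charZero_of_injective_algebraMap (algebraMap ℂ K).injective
  obtain ⟨a, ha⟩ := M.link r hr
  refine ⟨K, i1, i2, i3, M.crv (∏ i, (X - C (r i))), (Std.stable_iff 2 _).2
    (M.st _ (good_rts r hr)), ?_, ?_, ?_⟩
  · have h1 : Smooth (HX.pr K (rts r)) := hSM r hr
    have h2 : a.f ≫ (M.crv (∏ i, (X - C (r i)))).π = HX.pr K (rts r) := by
      have := a.cart.w
      have h3 : spMap (RingHom.id K) = 𝟙 (Sp K) := Spec.map_id _
      rw [h3] at this
      rw [this]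
      exact Category.comp_id _
    rw [← h2] at h1
    exact (MorphismProperty.cancel_left_of_respectsIso @Smooth a.f _).1 h1
  · intro d
    obtain ⟨D, f, hf⟩ := hGE r hr hI (Defo.pre a (Std.Defo.to d))
    refine ⟨D, ?_⟩
    have h3 : spMap (RingHom.id K) = 𝟙 (Sp K) := Spec.map_id _
    refine ⟨{ f := f.f ≫ a.f, cart := ?_, sec := fun i => i.elim0 }, ?_⟩
    · have h := IsPullback.paste_vert f.cart.flip a.cart.flip
      rw [h3, Category.comp_id] at h
      exact h.flip
    · have h4 : (a.f ≫ d.r.f) ≫ f.f = 𝟙 _ := hf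
      have h5 : a.f ≫ d.r.f ≫ f.f ≫ a.f = a.f := by
        rw [← Category.assoc, ← Category.assoc, h4, Category.id_comp]
      rw [← cancel_epi a.f, h5, Category.comp_id]
  · intro F
    obtain ⟨c, hc⟩ := M.const hA (Std.Reg.to F)
    exact ⟨c, fun l => (Std.Reg.to_F F K _ _ l).trans (hc K r hr (Std.Cov.to l))⟩

end Pool.Agent.MG.H2


end

section

/-!
# The residue theorem (PAPER RES2)

For `f`, `h` in a Krichever ring `P`, `res (f dh) = 0`.  The operators `x ↦ π (f * s x)` on the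
polar parts, where `s` is the section of the polar part on `P`, differ from `x ↦ π (f * x)` by
operators of finite rank and their commutators have trace zero.
-/

namespace Pool.Agent.MG.G0

namespace RES

section general

variable {A M : Type} [CommRing A] [AddCommGroup M] [Module A M]

theorem fr_of_fintype {ι : Type} [Fintype ι] (F : M →ₗ[A] M) (l : ι → (M →ₗ[A] A)) (x : ι → M)
    (h : ∀ m, F m = ∑ k, l k m • x k) : FR F := by
  classical
  refine ⟨Fintype.card ι, fun k => l ((Fintype.equivFin ι).symm k),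
    fun k => x ((Fintype.equivFin ι).symm k), fun m => ?_⟩
  rw [h m]
  exact (Equiv.sum_comp (Fintype.equivFin ι).symm fun k => l k m • x k).symm

theorem comm_zero (hRTR : Stmt_RTR) {S : Type} (b : Module.Basis S A M) (F T : M →ₗ[A] M)
    (hF : FR F) : FR (F ∘ₗ T - T ∘ₗ F) ∧ ftr b (F ∘ₗ T - T ∘ₗ F) = 0 := by
  obtain ⟨-, h2, h3, h4⟩ := hRTR b
  obtain ⟨hFT, hTF, he⟩ := h4 F T hF
  obtain ⟨hn, hne⟩ := h3 _ hTF
  obtain ⟨ha, hae⟩ := h2 _ _ hFT hn
  rw [sub_eq_add_neg]
  refine ⟨ha, ?_⟩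
  rw [hae, hne, he, add_neg_cancel]

theorem trace_comm (hRTR : Stmt_RTR) {S : Type} (b : Module.Basis S A M)
    (F H D E : M →ₗ[A] M) (hD : FR D) (hE : FR E) (hFH : FR (F ∘ₗ H - H ∘ₗ F)) :
    ftr b ((F + D) ∘ₗ (H + E) - (H + E) ∘ₗ (F + D)) = ftr b (F ∘ₗ H - H ∘ₗ F) := by
  obtain ⟨-, h2, h3, h4⟩ := hRTR b
  obtain ⟨h5, h5'⟩ := comm_zero hRTR b E F hE
  obtain ⟨h6, h6'⟩ := comm_zero hRTR b D (H + E) hD
  obtain ⟨h7, h7'⟩ := h3 _ h5
  obtain ⟨h8, h8'⟩ := h2 _ _ hFH h7
  obtain ⟨h9, h9'⟩ := h2 _ _ h8 h6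
  have e : (F + D) ∘ₗ (H + E) - (H + E) ∘ₗ (F + D) =
      ((F ∘ₗ H - H ∘ₗ F) + -(E ∘ₗ F - F ∘ₗ E)) + (D ∘ₗ (H + E) - (H + E) ∘ₗ D) := by
    simp only [LinearMap.add_comp, LinearMap.comp_add]
    abel
  rw [e, h9', h8', h7', h6', h5', neg_zero, add_zero, add_zero]

end general

variable {I A : Type} [CommRing A]

theorem exists_dense [Fintype I] {g : ℕ} {P : Subalgebra A (KK I A)} (h : IsKr g P) :
    ∃ N : ℕ, Dense P N := by
  classical
  obtain ⟨L, hL, hk⟩ := h.k2
  choose v hv using fun j : Fin g => hL (Pi.single j 1)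
  choose n hn using fun j : Fin g => exists_Pol (v j)
  refine ⟨Finset.univ.sup n, fun f => ?_⟩
  have h1 : L (f - ∑ j, L f j • v j) = 0 := by
    rw [map_sub, map_sum]
    simp only [map_smul, hv]
    ext k
    simp [Finset.sum_apply, Pi.single_apply]
  obtain ⟨p, hp, hp0⟩ := (hk _).1 h1
  refine ⟨p, hp, ?_⟩
  have e : f - p = (f - ∑ j, L f j • v j - p) + ∑ j, L f j • v j := by abel
  rw [e]
  refine add_mem (Pol_mono (Int.natCast_nonneg _) hp0)
    (sum_mem fun j _ => Submodule.smul_mem _ _ (Pol_mono ?_ (hn j)))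
  exact Int.ofNat_le.2 (Finset.le_sup (f := n) (Finset.mem_univ j))

/-- A coefficient as a linear functional. -/
noncomputable def cf (i : I) (m : ℤ) : KK I A →ₗ[A] A where
  toFun f := (f i).coeff m
  map_add' f g := by rw [Pi.add_apply, HahnSeries.coeff_add]
  map_smul' a f := by rw [Pi.smul_apply, HahnSeries.coeff_smul, RingHom.id_apply]

@[simp] theorem cf_apply (i : I) (m : ℤ) (f : KK I A) : cf i m f = (f i).coeff m := rfl

section pi

variable (π : KK I A →ₗ[A] Neg I A) (s : KK I A →ₗ[A] KK I A)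

/-- `x ↦ π (f * x)` -/
noncomputable def mpi (f : KK I A) : Neg I A →ₗ[A] Neg I A :=
  π ∘ₗ LinearMap.mulLeft A f ∘ₗ (Neg I A).subtype

@[simp] theorem mpi_apply (f : KK I A) (x : Neg I A) : mpi π f x = π (f * x) := rfl

/-- `x ↦ π (f * s x)` -/
noncomputable def til (f : KK I A) : Neg I A →ₗ[A] Neg I A :=
  π ∘ₗ LinearMap.mulLeft A f ∘ₗ s ∘ₗ (Neg I A).subtype

@[simp] theorem til_apply (f : KK I A) (x : Neg I A) : til π s f x = π (f * s x) := rfl

variable {π s}

/-- Multiplication by `f` of regular series, followed by the polar part, is of finite rank. -/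
theorem pi_mul_reg [Fintype I] (h0 : ∀ f ∈ Pol I A 0, π f = 0) {n : ℕ} {f : KK I A}
    (hf : f ∈ Pol I A n) {o : KK I A} (ho : o ∈ Pol I A 0) :
    π (f * o) = ∑ k : I × Fin n, cf k.1 ((k.2 : ℕ) : ℤ) o • π (f * mon k.1 ((k.2 : ℕ) : ℤ) 1) := by
  classical
  have h1 : o - ∑ i, ∑ m ∈ Finset.Ico (-((0 : ℕ) : ℤ)) (n : ℤ), mon i m ((o i).coeff m) ∈
      Pol I A (-(n : ℤ)) := sub_mon_mem_Pol (by simpa using ho) (n : ℤ)
  have h2 := h0 _ (by simpa using mul_mem_Pol hf h1)
  rw [mul_sub, map_sub, sub_eq_zero] at h2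
  rw [h2, Finset.mul_sum, map_sum, Fintype.sum_prod_type]
  refine Finset.sum_congr rfl fun i _ => ?_
  rw [Finset.mul_sum, map_sum]
  have e : Finset.Ico (0 : ℤ) (n : ℤ) = (Finset.range n).map Nat.castEmbedding := by
    ext k
    simp only [Finset.mem_Ico, Finset.mem_map, Finset.mem_range, Nat.castEmbedding_apply]
    constructor
    · intro hk
      exact ⟨k.toNat, by omega, by omega⟩
    · rintro ⟨a, ha, rfl⟩
      omega
  rw [e, Finset.sum_map, Finset.sum_range]
  refine Finset.sum_congr rfl fun k _ => ?_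
  rw [← map_smul]
  congr 1
  rw [← mul_smul_comm, smul_mon, mul_one]
  rfl

end pi

/-- The operators `x ↦ π (f * s x)` and `x ↦ π (f * x)` differ by an operator of finite rank. -/
theorem fr_til [Fintype I] (hRTR : Stmt_RTR) {g : ℕ} {P : Subalgebra A (KK I A)} (hP : IsKr g P)
    {S : Type} (b : Module.Basis S A (Neg I A))
    {π : KK I A →ₗ[A] Neg I A} (h1 : ∀ f : KK I A, f - π f ∈ Pol I A 0)
    (h0 : ∀ f ∈ Pol I A 0, π f = 0)
    {s : KK I A →ₗ[A] KK I A} (hs : IsSec P s) (f : KK I A) :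
    FR (til π s f - mpi π f) := by
  classical
  obtain ⟨L, hL, hk⟩ := hP.k2
  choose v hv using fun j : Fin g => hL (Pi.single j 1)
  obtain ⟨n, hn⟩ := exists_Pol f
  -- `δ u = π (u - s u)`
  let δ : KK I A →ₗ[A] Neg I A := π ∘ₗ (LinearMap.id - s)
  have hδ : ∀ u, δ u = π (u - s u) := fun u => rfl
  have hδP : ∀ p ∈ P, δ p = 0 := fun p hp => by
    obtain ⟨a, ha⟩ := hs.eq p hp
    rw [hδ, ha]
    refine h0 _ ?_
    have e : p - (p + algebraMap A (KK I A) a) = - algebraMap A (KK I A) a := by abel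
    rw [e]
    exact neg_mem (algebraMap_mem_Pol0 a)
  have hδ0 : ∀ o ∈ Pol I A 0, δ o = 0 := fun o ho => by
    rw [hδ, hs.zero o ho, sub_zero]
    exact h0 o ho
  have hδu : ∀ u, δ u = ∑ j, L u j • δ (v j) := by
    intro u
    have h3 : L (u - ∑ j, L u j • v j) = 0 := by
      rw [map_sub, map_sum]
      simp only [map_smul, hv]
      ext k
      simp [Finset.sum_apply, Pi.single_apply]
    obtain ⟨p, hp, hp0⟩ := (hk _).1 h3
    have h4 := hδ0 _ hp0
    rw [map_sub, hδP p hp, sub_zero, map_sub, sub_eq_zero, map_sum] at h4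
    rw [h4]
    exact Finset.sum_congr rfl fun j _ => map_smul _ _ _
  -- `o m = s m - m + δ m`
  let o : Neg I A →ₗ[A] KK I A := s ∘ₗ (Neg I A).subtype - (Neg I A).subtype +
    (Neg I A).subtype ∘ₗ δ ∘ₗ (Neg I A).subtype
  have ho : ∀ m : Neg I A, o m = s m - m + (δ m : KK I A) := fun m => rfl
  have ho0 : ∀ m : Neg I A, o m ∈ Pol I A 0 := by
    intro m
    have h5 := h1 ((m : KK I A) - s m)
    rw [← hδ] at h5
    have e : o m = -((m : KK I A) - s m - (δ m : KK I A)) := by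
      rw [ho]
      abel
    rw [e]
    exact neg_mem h5
  -- the two parts
  let D1 : Neg I A →ₗ[A] Neg I A := -(π ∘ₗ LinearMap.mulLeft A f ∘ₗ (Neg I A).subtype ∘ₗ δ ∘ₗ
    (Neg I A).subtype)
  let D2 : Neg I A →ₗ[A] Neg I A := π ∘ₗ LinearMap.mulLeft A f ∘ₗ o
  have hD : til π s f - mpi π f = D1 + D2 := by
    refine LinearMap.ext fun m => ?_
    have e1 : D1 m = -π (f * (δ m : KK I A)) := rfl
    have e2 : D2 m = π (f * o m) := rfl
    rw [LinearMap.sub_apply, LinearMap.add_apply, e1, e2, til_apply, mpi_apply, ho, mul_add,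
      mul_sub, map_add, map_sub]
    abel
  have hf1 : FR D1 := by
    refine ⟨g, fun j => (LinearMap.proj j) ∘ₗ L ∘ₗ (Neg I A).subtype,
      fun j => -π (f * (δ (v j) : KK I A)), fun m => ?_⟩
    have e1 : D1 m = -π (f * (δ m : KK I A)) := rfl
    rw [e1, hδu, Submodule.coe_sum, Finset.mul_sum, map_sum, ← Finset.sum_neg_distrib]
    refine Finset.sum_congr rfl fun j _ => ?_
    rw [Submodule.coe_smul, mul_smul_comm, map_smul, smul_neg]
    rfl
  have hf2 : FR D2 := by
    refine fr_of_fintype D2 (fun k : I × Fin n => cf k.1 ((k.2 : ℕ) : ℤ) ∘ₗ o)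
      (fun k => π (f * mon k.1 ((k.2 : ℕ) : ℤ) 1)) fun m => ?_
    exact pi_mul_reg h0 hn (ho0 m)
  rw [hD]
  exact ((hRTR b).2.1 D1 D2 hf1 hf2).1

/-- The commutator of the operators `x ↦ π (f * s x)` has trace zero. -/
theorem ftr_til [Fintype I] [Nonempty I] (hRTR : Stmt_RTR) {P : Subalgebra A (KK I A)}
    {S : Type} (b : Module.Basis S A (Neg I A))
    {π : KK I A →ₗ[A] Neg I A} (h1 : ∀ f : KK I A, f - π f ∈ Pol I A 0)
    {s : KK I A →ₗ[A] KK I A} (hs : IsSec P s) {f h : KK I A} (hf : f ∈ P) (hh : h ∈ P) :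
    ftr b (til π s f ∘ₗ til π s h - til π s h ∘ₗ til π s f) = 0 := by
  classical
  obtain ⟨i₀⟩ := ‹Nonempty I›
  let c : KK I A →ₗ[A] A := cf i₀ 0 ∘ₗ (s - LinearMap.id)
  have hc : ∀ p ∈ P, s p = p + algebraMap A (KK I A) (c p) := by
    intro p hp
    obtain ⟨a, ha⟩ := hs.eq p hp
    have e : c p = a := by
      change ((s p - p) i₀).coeff 0 = a
      rw [ha, add_sub_cancel_left, Pi.algebraMap_apply, coeff_algebraMap, if_pos rfl]
    rw [e, ha]
  have hsπ : ∀ u, s (π u : KK I A) = s u := by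
    intro u
    have h3 := hs.zero _ (h1 u)
    rw [map_sub, sub_eq_zero] at h3
    exact h3.symm
  have key : ∀ f ∈ P, ∀ h ∈ P, ∀ m : Neg I A, til π s f (til π s h m) =
      π (f * (h * s m)) + c (h * s m) • π f := by
    intro f _ h hh m
    rw [til_apply, til_apply, hsπ, hc _ (mul_mem hh (hs.mem _)), mul_add, map_add]
    congr 1
    rw [mul_comm f (algebraMap A (KK I A) _), ← Algebra.smul_def, map_smul]
  have hC : ∀ m : Neg I A, (til π s f ∘ₗ til π s h - til π s h ∘ₗ til π s f) m =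
      ∑ k : Fin 2, (![c ∘ₗ LinearMap.mulLeft A h ∘ₗ s ∘ₗ (Neg I A).subtype,
        c ∘ₗ LinearMap.mulLeft A f ∘ₗ s ∘ₗ (Neg I A).subtype] k) m • (![π f, -π h] k) := by
    intro m
    rw [LinearMap.sub_apply, LinearMap.comp_apply, LinearMap.comp_apply, key f hf h hh,
      key h hh f hf, Fin.sum_univ_two]
    change π (f * (h * s m)) + c (h * s m) • π f - (π (h * (f * s m)) + c (f * s m) • π h) =
      c (h * s m) • π f + c (f * s m) • -π h
    rw [smul_neg, mul_left_comm]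
    abel
  rw [((hRTR b).1 _ _ _ _ hC).2, Fin.sum_univ_two]
  change c (h * s (π f : KK I A)) + c (f * s ((-π h : Neg I A) : KK I A)) = 0
  have hcc : ∀ f ∈ P, ∀ h ∈ P, c (h * s f) = c (h * f) + c f * c h := by
    intro f hf h _
    rw [hc f hf, mul_add, map_add, mul_comm h (algebraMap A (KK I A) _), ← Algebra.smul_def,
      map_smul, smul_eq_mul]
  rw [Submodule.coe_neg, map_neg, mul_neg, map_neg, hsπ, hsπ, hcc f hf h hh, hcc h hh f hf,
    mul_comm h f]
  ring

end RES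

theorem t_RES (hRTR : Stmt_RTR) (hRTA : Stmt_RTA) (hKSP : Stmt_KSP) : Stmt_RES := by
  intro I A _ _ _ g P hP f hf h hh
  obtain ⟨π, b, h1, h0, -, -, hT⟩ := hRTA (I := I) (A := A)
  obtain ⟨N, hN⟩ := RES.exists_dense hP
  obtain ⟨s, hs, -⟩ := ((hKSP hP).2 N hN).1
  obtain ⟨hFR, htr⟩ := hT h f (RES.mpi π h) (RES.mpi π f) (fun _ => rfl) (fun _ => rfl)
  have h3 := RES.trace_comm hRTR b (RES.mpi π h) (RES.mpi π f)
    (RES.til π s h - RES.mpi π h) (RES.til π s f - RES.mpi π f)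
    (RES.fr_til hRTR hP b h1 h0 hs h) (RES.fr_til hRTR hP b h1 h0 hs f) hFR
  have e : ∀ F G : Neg I A →ₗ[A] Neg I A, F + (G - F) = G := fun F G =>
    LinearMap.ext fun m => by rw [LinearMap.add_apply, LinearMap.sub_apply, add_sub_cancel]
  rw [e, e, RES.ftr_til hRTR b h1 hs hh hf] at h3
  rw [← htr, ← h3]

end Pool.Agent.MG.G0


end

section

/-!
# PDB: base change of the deformations of Krichever rings
-/

open TensorProduct

namespace Pool.Agent.MG.KX

open Pool.Agent.MG.G0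

namespace PDB

section

variable {I A B : Type} [CommRing A] [CommRing B] {P : Subalgebra A (KK I A)}

/-- The map `KK / P → KK / P_B` induced by the coefficientwise map. -/
noncomputable def kap (φ : A →+* B) (P : Subalgebra A (KK I A)) (m : MM P) : MM (bc φ P) :=
  mk (bc φ P) (kmap φ (Function.surjInv (mk_surj P) m))

theorem kap_mk (φ : A →+* B) (h : KK I A) :
    kap φ P (mk P h) = mk (bc φ P) (kmap φ h) := by
  rw [kap, mk_eq, ← map_sub]
  exact kmap_mem_bc φ (mk_eq.1 (Function.surjInv_eq (mk_surj P) (mk P h)))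

theorem kap_add (φ : A →+* B) (x y : MM P) : kap φ P (x + y) = kap φ P x + kap φ P y := by
  obtain ⟨a, rfl⟩ := mk_surj P x
  obtain ⟨b, rfl⟩ := mk_surj P y
  rw [← map_add, kap_mk, kap_mk, kap_mk, map_add, map_add]

theorem kap_smul (φ : A →+* B) (p : P) (x : MM P) :
    kap φ P (p • x) = bcMap φ P p • kap φ P x := by
  obtain ⟨a, rfl⟩ := mk_surj P x
  rw [← map_smul, kap_mk, kap_mk, ← map_smul]
  congr 1
  exact map_mul (kmap φ) (p : KK I A) a

theorem kap_smulA (φ : A →+* B) (c : A) (x : MM P) :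
    kap φ P (c • x) = φ c • kap φ P x := by
  obtain ⟨a, rfl⟩ := mk_surj P x
  rw [← mk_smulA, kap_mk, kap_mk, ← mk_smulA, kmap_smul]

/-- The base change of a deformation, as a linear map on the tensor product. -/
theorem exists_lin [Algebra A B] (δ : DD P) :
    ∃ L : (B ⊗[A] P) →ₗ[B] MM (bc (algebraMap A B) P),
      ∀ (b : B) (p : P), L (b ⊗ₜ p) = b • kap (algebraMap A B) P (δ p) := by
  letI : Module A (MM (bc (algebraMap A B) P)) :=
    Module.compHom (MM (bc (algebraMap A B) P)) (algebraMap A B)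
  haveI : IsScalarTower A B (MM (bc (algebraMap A B) P)) := ⟨fun a b m => by
    rw [Algebra.smul_def, mul_smul]
    rfl⟩
  let l : P →ₗ[A] MM (bc (algebraMap A B) P) :=
    { toFun := fun p => kap (algebraMap A B) P (δ p)
      map_add' := fun p q => by rw [map_add, kap_add]
      map_smul' := fun a p => by
        rw [Derivation.map_smul, kap_smulA]
        rfl }
  exact ⟨l.liftBaseChange B, fun b p => LinearMap.liftBaseChange_tmul B l b p⟩

/-- The base change of a deformation. -/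
theorem exists_der0 [Fintype I] [Nonempty I] [Algebra A B] (hKBT : Stmt_KBT) {g : ℕ}
    (hP : IsKr g P) (δ : DD P) :
    ∃ δ' : DD (bc (algebraMap A B) P), Rel (algebraMap A B) δ δ' := by
  obtain ⟨-, e, he⟩ := hKBT (B := B) hP
  obtain ⟨L, hL⟩ := exists_lin (B := B) δ
  have h1 : ∀ (b : B) (p : P), e (b ⊗ₜ p) = b • bcMap (algebraMap A B) P p := fun b p =>
    Subtype.ext (he b p)
  have key : ∀ x y : B ⊗[A] P, L (x * y) = e x • L y + e y • L x := by
    intro x y
    induction x using TensorProduct.induction_on with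
    | zero => rw [zero_mul, map_zero, map_zero, zero_smul, smul_zero, add_zero]
    | add x x' hx hx' =>
      rw [add_mul, map_add, hx, hx', map_add, map_add, add_smul, smul_add]
      abel
    | tmul b p =>
      induction y using TensorProduct.induction_on with
      | zero => rw [mul_zero, map_zero, map_zero, zero_smul, smul_zero, add_zero]
      | add y y' hy hy' =>
        rw [mul_add, map_add, hy, hy', map_add, map_add, add_smul, smul_add]
        abel
      | tmul c q =>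
        rw [Algebra.TensorProduct.tmul_mul_tmul, hL, hL, hL, h1, h1, Derivation.leibniz, kap_add,
          kap_smul, kap_smul, smul_add, smul_assoc, smul_assoc,
          smul_comm (bcMap (algebraMap A B) P p) c, smul_comm (bcMap (algebraMap A B) P q) b,
          smul_smul, smul_smul, mul_comm c b]
  refine ⟨Derivation.mk' (L.comp (e.symm : bc (algebraMap A B) P →ₐ[B] B ⊗[A] P).toLinearMap)
    fun x y => ?_, fun f h hf => ?_⟩
  · change L (e.symm (x * y)) = x • L (e.symm y) + y • L (e.symm x)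
    rw [map_mul, key, AlgEquiv.apply_symm_apply, AlgEquiv.apply_symm_apply]
  · change L (e.symm (bcMap (algebraMap A B) P f)) = _
    have h2 : e (1 ⊗ₜ f) = bcMap (algebraMap A B) P f := by rw [h1, one_smul]
    rw [← h2, AlgEquiv.symm_apply_apply, hL, one_smul, hf, kap_mk]

theorem exists_der [Fintype I] [Nonempty I] (hKBT : Stmt_KBT) {g : ℕ} (hP : IsKr g P)
    (φ : A →+* B) (δ : DD P) : ∃ δ' : DD (bc φ P), Rel φ δ δ' := by
  letI : Algebra A B := φ.toAlgebra
  exact exists_der0 hKBT hP δ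

theorem kmap_eps (φ : A →+* B) (f : KK I (Eps A)) :
    kmap (eps0 B) (kmap (epsMap φ) f) = kmap φ (kmap (eps0 A) f) := by
  funext i
  ext n
  simp [epsMap]

theorem ksnd_kmap (φ : A →+* B) (f : KK I (Eps A)) :
    ksnd (kmap (epsMap φ) f) = kmap φ (ksnd f) := by
  funext i
  ext n
  simp [epsMap]

theorem le (φ : A →+* B) (δ : DD P) (δ' : DD (bc φ P)) (h : Rel φ δ δ') :
    bc (epsMap φ) (Pdel P δ) ≤ Pdel (bc φ P) δ' := by
  refine Algebra.adjoin_le ?_
  rintro _ ⟨F, ⟨h1, h2⟩, rfl⟩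
  have h3 : kmap (eps0 B) (kmap (epsMap φ) F) ∈ bc φ P := by
    rw [kmap_eps]
    exact kmap_mem_bc φ h1
  refine ⟨h3, ?_⟩
  have h4 : (⟨kmap (eps0 B) (kmap (epsMap φ) F), h3⟩ : bc φ P) =
      bcMap φ P ⟨kmap (eps0 A) F, h1⟩ := Subtype.ext (kmap_eps φ F)
  rw [h4, h _ _ h2, ksnd_kmap]

end

end PDB

theorem t_PDB (hPDK : Stmt_PDK) : Stmt_PDB := by
  intro I A B _ _ _ _ g P hP φ δ
  have hKSP : Stmt_KSP := t_KSP t_KNZ
  have hKBC : Stmt_KBC := t_KBC (t_KFO t_KDU) t_KNZ hKSP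
  have hKBT : Stmt_KBT := t_KBT hKSP hKBC
  obtain ⟨δ', hδ'⟩ := PDB.exists_der hKBT hP φ δ
  refine ⟨δ', hδ', ?_⟩
  have h1 : IsKr g (bc (epsMap φ) (Pdel P δ)) := (hKBC.2.2.2 (hPDK hP δ).1 (epsMap φ)).1
  have h2 : IsKr g (Pdel (bc φ P) δ') := (hPDK (hKBC.2.2.2 hP φ).1 δ').1
  exact t_KEQ h1 h2 (PDB.le φ δ δ' hδ')

end Pool.Agent.MG.KX


end

section

/-!
# NDB: the dual basis over a ring
-/

namespace Pool.Agent.MG.G0

namespace NDB

open Polynomial ZL

variable {A : Type} [CommRing A] {g d : ℕ} {P : Subalgebra A (LaurentSeries A)}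
  {e : Fin d → LaurentSeries A} {G : Matrix (Fin d) (Fin d) A[X]}

theorem nondeg_fin [NeZero d] (hP : Kr g P) (he : ZBas d P e) {w : LaurentSeries A}
    (hw : ∀ j, pr0 A d (e j * w) = 0) : w = 0 := by
  have hC := cmat_isUnit hP (spn_of_zbas he)
  refine KIL.nondeg hC fun i => ?_
  rw [pr_zero_eq]
  exact hw _

theorem eq_of_pr [NeZero d] (hP : Kr g P) (he : ZBas d P e) {x y : LaurentSeries A}
    (h : ∀ j, pr0 A d (e j * x) = pr0 A d (e j * y)) : x = y := by
  refine sub_eq_zero.1 (nondeg_fin hP he fun j => ?_)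
  rw [mul_sub, map_sub, h j, sub_self]

/-- The dual basis, up to the factor `det G`. -/
noncomputable def cc (e : Fin d → LaurentSeries A) (G : Matrix (Fin d) (Fin d) A[X])
    (j : Fin d) : LaurentSeries A :=
  ∑ i, zpol A d (G.adjugate j i) * e i

theorem cc_mem (hz : zz A d ∈ P) (he : ZBas d P e) (j : Fin d) : cc e G j ∈ P := by
  refine sum_mem fun i _ => mul_mem ?_ (he.mem i)
  exact (Algebra.adjoin_le (S := P) (Set.singleton_subset_iff.2 hz))
    (Polynomial.aeval_mem_adjoin_singleton A (zz A d))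

theorem pr_cc (hG : ZGram d e G) (j k : Fin d) :
    pr0 A d (e k * cc e G j) = if j = k then zpol A d G.det else 0 := by
  have h1 : e k * cc e G j = ∑ i, zpol A d (G.adjugate j i) * (e i * e k) := by
    rw [cc, Finset.mul_sum]
    refine Finset.sum_congr rfl fun i _ => ?_
    ring
  have h2 : pr0 A d (e k * cc e G j) = zpol A d ((G.adjugate * G) j k) := by
    rw [h1, map_sum, Matrix.mul_apply, map_sum]
    refine Finset.sum_congr rfl fun i _ => ?_
    rw [pr0_zpol_mul, ← hG i k, map_mul]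
  rw [h2, Matrix.adjugate_mul, Matrix.smul_apply, Matrix.one_apply]
  split_ifs with h
  · rw [smul_eq_mul, mul_one]
  · rw [smul_zero, map_zero]

theorem pr_sum_cc (hG : ZGram d e G) (a : Fin d → A[X]) (m : Fin d) :
    pr0 A d (e m * ∑ k, zpol A d (a k) * cc e G k) = zpol A d (a m) * zpol A d G.det := by
  have h1 : e m * ∑ k, zpol A d (a k) * cc e G k =
      ∑ k, zpol A d (a k) * (e m * cc e G k) := by
    rw [Finset.mul_sum]
    refine Finset.sum_congr rfl fun i _ => ?_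
    ring
  rw [h1, map_sum, Finset.sum_eq_single m]
  · rw [pr0_zpol_mul, pr_cc hG, if_pos rfl]
  · intro k _ hk
    rw [pr0_zpol_mul, pr_cc hG, if_neg hk, mul_zero]
  · intro h
    exact absurd (Finset.mem_univ m) h

theorem pr_sum_e (hG : ZGram d e G) (a : Fin d → A[X]) (l : Fin d) :
    pr0 A d ((∑ k, zpol A d (a k) * e k) * cc e G l) = zpol A d (a l) * zpol A d G.det := by
  have h1 : (∑ k, zpol A d (a k) * e k) * cc e G l =
      ∑ k, zpol A d (a k) * (e k * cc e G l) := by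
    rw [Finset.sum_mul]
    refine Finset.sum_congr rfl fun i _ => ?_
    ring
  rw [h1, map_sum, Finset.sum_eq_single l]
  · rw [pr0_zpol_mul, pr_cc hG, if_pos rfl]
  · intro k _ hk
    rw [pr0_zpol_mul, pr_cc hG, if_neg (Ne.symm hk), mul_zero]
  · intro h
    exact absurd (Finset.mem_univ l) h

theorem mul_cc [NeZero d] (hP : Kr g P) (he : ZBas d P e) (hG : ZGram d e G)
    (x : LaurentSeries A) (H : Fin d → Fin d → A[X])
    (hx : ∀ k, x * e k = ∑ l, zpol A d (H l k) * e l) (l : Fin d) :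
    x * cc e G l = ∑ k, zpol A d (H l k) * cc e G k := by
  refine eq_of_pr hP he fun m => ?_
  rw [pr_sum_cc hG (fun k => H l k) m]
  have h1 : e m * (x * cc e G l) = (∑ l, zpol A d (H l m) * e l) * cc e G l := by
    rw [← hx m]
    ring
  rw [h1, pr_sum_e hG (fun k => H k m) l]

theorem sum_cc [NeZero d] (hd : 0 < d) (hP : Kr g P) (he : ZBas d P e) (hG : ZGram d e G) :
    ∑ k, e k * cc e G k = (d : LaurentSeries A) * zpol A d G.det := by
  refine eq_of_pr hP he fun l => ?_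
  have hH : ∀ j, ∃ c : Fin d → A[X], e l * e j = ∑ i, zpol A d (c i) * e i := by
    intro j
    obtain ⟨c, hc, -⟩ := he.uni (e l * e j) (mul_mem (he.mem l) (he.mem j))
    exact ⟨c, hc⟩
  choose m hm using hH
  have h1 := (t_ZD1 A g d P hd hP e he (e l) (he.mem l)).1 (Matrix.of m) hm
  have h2 : e l * ∑ k, e k * cc e G k = ∑ k, (∑ i, zpol A d (m k i) * e i) * cc e G k := by
    rw [Finset.mul_sum]
    refine Finset.sum_congr rfl fun k _ => ?_
    rw [← hm k]
    ring
  have h3 : pr0 A d (e l * ∑ k, e k * cc e G k) =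
      zpol A d (Matrix.of m).trace * zpol A d G.det := by
    rw [h2, map_sum, Matrix.trace, map_sum, Finset.sum_mul]
    refine Finset.sum_congr rfl fun k _ => ?_
    rw [pr_sum_e hG (m k) k]
    rfl
  have h4 : e l * ((d : LaurentSeries A) * zpol A d G.det) =
      zpol A d ((d : A[X]) * G.det) * e l := by
    rw [map_mul, map_natCast]
    ring
  rw [h3, ← h1, h4, pr0_zpol_mul, map_mul, map_natCast]
  ring

end NDB

open _root_.Pool.Agent.MG.G0.NDB in
/-- NDB: the dual basis over a ring. -/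
theorem t_NDB : Stmt_NDB := by
  intro A _ g d hd P hP hz e G he hG
  have : NeZero d := ⟨hd.ne'⟩
  exact ⟨cc e G, cc_mem hz he, sum_cc hd hP he hG, fun x _ H hx l => mul_cc hP he hG x H hx l⟩

end Pool.Agent.MG.G0


end

section

/-!
# SPR (PAPER_V): `t Perp R ⊂ Om R` lifts from a quotient of a local domain
-/

open Polynomial

namespace Pool.Agent.MG.G0

namespace SPR

section one

variable {A : Type} [CommRing A]

theorem zz_pow (d n : ℕ) : zz A d ^ n = HahnSeries.single (-((d : ℤ) * n)) 1 := by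
  have h : n • (-(d : ℤ)) = -((d : ℤ) * n) := by
    rw [nsmul_eq_mul]
    ring
  rw [zz, HahnSeries.single_pow, one_pow, h]

theorem zpol_coeff (d : ℕ) (p : A[X]) {n : ℕ} (hn : p.natDegree ≤ n) (m : ℤ) :
    (zpol A d p).coeff m = ∑ i ∈ Finset.range (n + 1), if m = -((d : ℤ) * i) then p.coeff i
      else 0 := by
  rw [zpol, Polynomial.aeval_eq_sum_range' (Nat.lt_succ_of_le hn), HahnSeries.coeff_sum]
  refine Finset.sum_congr rfl fun i _ => ?_
  rw [HahnSeries.coeff_smul, zz_pow, HahnSeries.coeff_single, smul_eq_mul]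
  split_ifs <;> simp

theorem zpol_low (d : ℕ) (p : A[X]) {n : ℕ} (hn : p.natDegree ≤ n) :
    ∀ m < -((d : ℤ) * n), (zpol A d p).coeff m = 0 := by
  intro m hm
  rw [zpol_coeff d p hn]
  refine Finset.sum_eq_zero fun i hi => if_neg ?_
  have h1 : i ≤ n := Nat.lt_succ_iff.1 (Finset.mem_range.1 hi)
  have h2 : (d : ℤ) * i ≤ d * n := by
    apply mul_le_mul_of_nonneg_left
    · exact_mod_cast h1
    · positivity
  omega

theorem zpol_lead {d : ℕ} (hd : 1 ≤ d) (p : A[X]) {n : ℕ} (hn : p.natDegree ≤ n) :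
    (zpol A d p).coeff (-((d : ℤ) * n)) = p.coeff n := by
  rw [zpol_coeff d p hn, Finset.sum_eq_single n]
  · rw [if_pos rfl]
  · intro i _ hi
    refine if_neg fun h => hi ?_
    have h1 : (d : ℤ) * n = d * i := neg_injective h
    have h2 : (n : ℤ) = i := mul_left_cancel₀ (by omega) h1
    exact_mod_cast h2.symm
  · intro h
    exact absurd (Finset.mem_range.2 (Nat.lt_succ_self n)) h

theorem zpol_mem {d : ℕ} {R : Subalgebra A (LaurentSeries A)} (hz : zz A d ∈ R) (p : A[X]) :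
    zpol A d p ∈ R := by
  rw [zpol]
  exact Polynomial.aeval_mem_adjoin_singleton A (zz A d) |> fun h =>
    (Algebra.adjoin_le (Set.singleton_subset_iff.2 hz)) h

/-- The residue theorem. -/
theorem res_thm : Stmt_RES := t_RES t_RTR t_RTA (t_KSP t_KNZ)

theorem Om_le_Perp {g : ℕ} {P : Subalgebra A (KK Unit A)} (hP : IsKr g P) : Om P ≤ Perp P := by
  unfold Om
  rw [Submodule.span_le]
  rintro _ ⟨p, hp, f, hf, rfl⟩
  intro q hq
  have h := res_thm hP (p * q) (mul_mem hp hq) f hf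
  have h2 : p * dd f * q = p * q * dd f := by ring
  rw [h2]
  exact h

/-- `P^⊥` is finitely generated modulo `Ω`. -/
theorem exists_V (hPPR : Stmt_PPR) {g d : ℕ} {R : Subalgebra A (LaurentSeries A)} {f : A[X]}
    (hd : 1 ≤ d) (hR : Kr g R) (hz : zz A d ∈ R) (hf : f.Monic) (hK : Kil d R f) :
    ∃ V : Submodule A (KK Unit A), V.FG ∧ V ≤ Perp (uno R) ∧ Perp (uno R) ≤ Om (uno R) ⊔ V := by
  classical
  obtain ⟨q, hq1, hq2, hq3, hq4⟩ := hPPR hR ()
  set N : ℕ := f.natDegree with hN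
  set D : ℕ := d * N with hD
  -- `f(z)`
  set F : KK Unit A := fun _ => zpol A d f with hF
  have hF1 : F ∈ uno R := zpol_mem hz f
  have hF2 : F ∈ Pol Unit A (D : ℤ) := by
    intro _ m hm
    refine zpol_low d f (le_refl _) m ?_
    rw [← hN]
    push_cast [hD] at hm
    exact hm
  have hF3 : (F ()).coeff (-(D : ℤ)) = 1 := by
    have h := zpol_lead hd f (le_refl f.natDegree)
    rw [hf.coeff_natDegree, ← hN] at h
    push_cast [hD]
    exact h
  have hF4 : ∀ x ∈ Perp (uno R), F * x ∈ Om (uno R) := by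
    intro x hx
    obtain ⟨y, hy, hy2⟩ := hK (x ()) (fun p hp => (res_unit _).symm.trans (hx (fun _ => p) hp))
    refine Submodule.subset_span ⟨fun _ => y, hy, fun _ => zz A d, hz, ?_⟩
    funext u
    exact hy2
  -- the leading coefficient of `q (a τ^(-n))`
  have hlead : ∀ (n : ℕ) (a : A), 2 ≤ n → q (mon () (-(n : ℤ)) a) ∈ Pol Unit A (n : ℤ) ∧
      (q (mon () (-(n : ℤ)) a) ()).coeff (-(n : ℤ)) = a := by
    intro n a hn
    have h1 : mon () (-(n : ℤ)) a ∈ Pol Unit A (n : ℤ) := mon_mem_Pol () (le_refl _) a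
    refine ⟨hq4 n (by omega) _ h1, ?_⟩
    have h2 := hq3 (mon () (-(n : ℤ)) a) () (-(n : ℤ)) (by omega)
    rw [Pi.sub_apply, Pi.sub_apply, HahnSeries.coeff_sub, HahnSeries.coeff_sub, mon_coeff_self,
      if_pos rfl, mon_coeff_self, if_neg (by omega), sub_zero, sub_eq_zero] at h2
    exact h2.symm
  -- reduction of the pole order
  have hred : ∀ n : ℕ, ∀ x ∈ Perp (uno R), x ∈ Pol Unit A ((D : ℤ) + 1 + n) →
      x ∈ Om (uno R) ⊔ (Perp (uno R) ⊓ Pol Unit A ((D : ℤ) + 1)) := by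
    intro n
    induction n with
    | zero =>
      intro x hx hx2
      rw [Nat.cast_zero, add_zero] at hx2
      exact Submodule.mem_sup_right ⟨hx, hx2⟩
    | succ n ih =>
      intro x hx hx2
      set a : A := (x ()).coeff (-((D : ℤ) + 1 + (n + 1 : ℕ))) with ha
      set e := q (mon () (-((n + 2 : ℕ) : ℤ)) a) with he
      obtain ⟨h1, h2⟩ := hlead (n + 2) a (by omega)
      rw [← he] at h1 h2
      have h3 : F * e ∈ Pol Unit A ((D : ℤ) + ((n + 2 : ℕ) : ℤ)) := mul_mem_Pol hF2 h1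
      have h4 := mul_Pol_lead hF2 h1 ()
      rw [hF3, h2, one_mul] at h4
      have h5 : x - F * e ∈ Perp (uno R) :=
        Submodule.sub_mem _ hx (mul_mem_Perp hF1 (hq1 _))
      have h6 : x - F * e ∈ Pol Unit A ((D : ℤ) + 1 + n) := by
        rintro ⟨⟩ m hm
        rw [Pi.sub_apply, HahnSeries.coeff_sub]
        by_cases hm2 : m = -((D : ℤ) + ((n + 2 : ℕ) : ℤ))
        · rw [hm2, h4, ha]
          have h7 : -((D : ℤ) + ((n + 2 : ℕ) : ℤ)) = -((D : ℤ) + 1 + (n + 1 : ℕ)) := by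
            push_cast
            ring
          rw [h7, sub_self]
        · have h8 : m < -((D : ℤ) + ((n + 2 : ℕ) : ℤ)) := by
            push_cast at hm2 ⊢
            omega
          rw [h3 () m h8, hx2 () m (by push_cast at h8 ⊢; omega), sub_zero]
      have h7 := ih _ h5 h6
      have h8 : x = (x - F * e) + F * e := by ring
      rw [h8]
      exact Submodule.add_mem _ h7 (Submodule.mem_sup_left (hF4 _ (hq1 _)))
  -- generators of `P^⊥ ∩ Pol (D + 1)`
  obtain ⟨⟨ω, hω⟩, hfo⟩ := (t_KFO t_KDU) hR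
  obtain ⟨hω1, hω2⟩ := hfo ω hω
  let s : Finset ℤ := Finset.Ico (-((D + 1 : ℕ) : ℤ)) 0
  let V : Submodule A (KK Unit A) := Submodule.span A
    ((fun m : ℤ => q (mon () m (1 : A))) '' (s : Set ℤ) ∪ Set.range ω)
  have hV1 : V.FG := Submodule.fg_span
    (((Finset.finite_toSet s).image _).union (Set.finite_range ω))
  have hV2 : V ≤ Perp (uno R) := by
    refine Submodule.span_le.2 ?_
    rintro _ (⟨m, -, rfl⟩ | ⟨j, rfl⟩)
    · exact hq1 _
    · exact (hω1 j).1
  have hV3 : Perp (uno R) ⊓ Pol Unit A ((D : ℤ) + 1) ≤ V := by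
    rintro x ⟨hx1, hx2⟩
    have hx2' : x ∈ Pol Unit A ((D + 1 : ℕ) : ℤ) := by
      push_cast
      exact hx2
    have h1 := sub_mon_mem_Pol hx2' 0
    rw [Fintype.sum_unique, neg_zero] at h1
    set o : KK Unit A := x - ∑ m ∈ Finset.Ico (-((D + 1 : ℕ) : ℤ)) 0,
      mon default m ((x default).coeff m) with ho
    have h2 : q o ∈ EE (uno R) := by
      refine ⟨hq1 _, ?_⟩
      have h3 := hq3 o
      rw [res_Pol0 h1] at h3
      have h4 : mon () (-1) (0 : A) = 0 := by
        funext u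
        ext m
        rw [mon_coeff, Pi.zero_apply, HahnSeries.coeff_zero]
        split_ifs <;> rfl
      rw [h4, sub_zero] at h3
      have h5 : q o = o - (o - q o) := by ring
      rw [h5]
      exact Submodule.sub_mem _ h1 h3
    have h3 : q o ∈ V := by
      obtain ⟨c, hc, -⟩ := hω2 _ h2
      rw [hc]
      exact Submodule.sum_mem _ fun j _ => Submodule.smul_mem _ _
        (Submodule.subset_span (Or.inr ⟨j, rfl⟩))
    have h4 : x = q o + ∑ m ∈ s, (x default).coeff m • q (mon () m (1 : A)) := by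
      have h5 : q o = q x - ∑ m ∈ s, (x default).coeff m • q (mon () m (1 : A)) := by
        rw [ho, map_sub, map_sum]
        congr 1
        refine Finset.sum_congr rfl fun m _ => ?_
        rw [← map_smul, smul_mon, mul_one]
      rw [h5, hq2 x hx1]
      ring
    rw [h4]
    refine Submodule.add_mem _ h3 (Submodule.sum_mem _ fun m hm => Submodule.smul_mem _ _
      (Submodule.subset_span (Or.inl ⟨m, hm, rfl⟩)))
  refine ⟨V, hV1, hV2, fun x hx => ?_⟩
  obtain ⟨n, hn⟩ := exists_Pol x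
  have h1 : x ∈ Pol Unit A ((D : ℤ) + 1 + n) := Pol_mono (by omega) hn
  exact (sup_le_sup_left hV3 _) (hred n x hx h1)

end one

section quot

variable {A B : Type} [CommRing A] [CommRing B]

/-- For surjective base change all elements of the base change are images. -/
theorem exists_lift (hKBC : Stmt_KBC) {I : Type} (φ : A →+* B) (hφ : Function.Surjective φ)
    (P : Subalgebra A (KK I A)) {x : KK I B} (hx : x ∈ bc φ P) : ∃ y ∈ P, kmap φ y = x := by
  have h1 : x ∈ Subalgebra.toSubmodule (bc φ P) := hx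
  rw [hKBC.1 φ P] at h1
  refine Submodule.span_induction ?_ ?_ ?_ ?_ h1
  · rintro _ ⟨y, hy, rfl⟩
    exact ⟨y, hy, rfl⟩
  · exact ⟨0, zero_mem P, map_zero _⟩
  · rintro _ _ _ _ ⟨y, hy, rfl⟩ ⟨y', hy', rfl⟩
    exact ⟨y + y', add_mem hy hy', map_add _ _ _⟩
  · rintro b _ _ ⟨y, hy, rfl⟩
    obtain ⟨a, rfl⟩ := hφ b
    exact ⟨a • y, P.smul_mem hy a, kmap_smul _ _ _⟩

theorem exists_Om_lift (hKBC : Stmt_KBC) {I : Type} (φ : A →+* B) (hφ : Function.Surjective φ)
    (P : Subalgebra A (KK I A)) {x : KK I B} (hx : x ∈ Om (bc φ P)) : ∃ y ∈ Om P, kmap φ y = x := by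
  refine Submodule.span_induction ?_ ?_ ?_ ?_ hx
  · rintro _ ⟨p, hp, f, hf, rfl⟩
    obtain ⟨p', hp', rfl⟩ := exists_lift hKBC φ hφ P hp
    obtain ⟨f', hf', rfl⟩ := exists_lift hKBC φ hφ P hf
    exact ⟨p' * dd f', Submodule.subset_span ⟨p', hp', f', hf', rfl⟩, by
      rw [map_mul, kmap_dd]⟩
  · exact ⟨0, Submodule.zero_mem _, map_zero _⟩
  · rintro _ _ _ _ ⟨y, hy, rfl⟩ ⟨y', hy', rfl⟩
    exact ⟨y + y', Submodule.add_mem _ hy hy', map_add _ _ _⟩
  · rintro b _ _ ⟨y, hy, rfl⟩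
    obtain ⟨a, rfl⟩ := hφ b
    exact ⟨a • y, Submodule.smul_mem _ _ hy, kmap_smul _ _ _⟩

/-- Division of a series by a scalar. -/
theorem exists_div {I : Type} (c : A) (F : KK I A) (h : ∀ i m, c ∣ (F i).coeff m) :
    ∃ w : KK I A, F = c • w := by
  classical
  choose G hG using h
  refine ⟨fun i =>
    { coeff := fun m => if (F i).coeff m = 0 then 0 else G i m
      isPWO_support' := (F i).isPWO_support.mono fun m hm h0 => hm (by
        change (if (F i).coeff m = 0 then 0 else G i m) = 0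
        rw [if_pos h0]) }, ?_⟩
  funext i
  ext m
  rw [Pi.smul_apply, HahnSeries.coeff_smul, smul_eq_mul]
  change _ = c * (if (F i).coeff m = 0 then 0 else G i m)
  split_ifs with h0
  · rw [h0, mul_zero]
  · exact hG i m

end quot

end SPR

theorem t_SPR (hPPR : Stmt_PPR) (hPBC : Stmt_PBC) (hKBC : Stmt_KBC) : Stmt_SPR := by
  intro O A _ _ _ _ ρ g d R f π u m M hρ hπ hπu hu hmM hker hd hdu hR hz hf hK hH
  obtain ⟨V, hV1, hV2, hV3⟩ := SPR.exists_V hPPR hd hR hz hf hK
  have hOm : Om (uno R) ≤ Perp (uno R) := SPR.Om_le_Perp hR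
  have hπM : π ^ M ≠ 0 := pow_ne_zero M hπ
  -- division
  have hdiv : ∀ x ∈ Perp (uno R), ∃ y ∈ Om (uno R), ∃ w ∈ Perp (uno R),
      (u * π ^ m) • x = y + π ^ M • w := by
    intro x hx
    have h1 : kmap ρ x ∈ Perp (uno (bc1 ρ R)) := by
      rw [← bc_uno, hPBC hR ρ]
      exact Submodule.subset_span ⟨x, hx, rfl⟩
    have h2 := hH _ h1
    rw [← bc_uno, ← kmap_smul] at h2
    obtain ⟨y, hy, hxy⟩ := SPR.exists_Om_lift hKBC ρ hρ (uno R) h2
    obtain ⟨w, hw⟩ := SPR.exists_div (π ^ M) ((u * π ^ m) • x - y) (by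
      intro i n
      rw [← hker]
      have h3 : kmap ρ ((u * π ^ m) • x - y) = 0 := by
        rw [map_sub, hxy, sub_self]
      have h4 := congrArg (fun F : KK Unit A => (F i).coeff n) h3
      exact h4)
    refine ⟨y, hy, w, fun p hp => ?_, by rw [← hw]; ring⟩
    have h3 : π ^ M * res (w * p) = 0 := by
      rw [← smul_eq_mul, ← map_smul, ← smul_mul_assoc, ← hw, sub_mul, map_sub, smul_mul_assoc,
        map_smul, hx p hp, smul_zero, hOm hy p hp, sub_zero]
    exact (mul_eq_zero.1 h3).resolve_left hπM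
  -- Nakayama
  obtain ⟨u', rfl⟩ := hu
  set N' : Submodule O (KK Unit O) := V.map (LinearMap.lsmul O (KK Unit O) ((u' : O) * π ^ m))
    with hN'
  have hNle : N' ≤ Om (uno R) := by
    refine Submodule.le_of_le_smul_of_le_jacobson_bot (I := IsLocalRing.maximalIdeal O)
      (hV1.map _) (IsLocalRing.maximalIdeal_le_jacobson _) ?_
    rintro _ ⟨x, hx, rfl⟩
    obtain ⟨y, hy, w, hw, hxyw⟩ := hdiv x (hV2 hx)
    obtain ⟨y', hy', v', hv', rfl⟩ := Submodule.mem_sup.1 (hV3 hw)
    have h1 : (LinearMap.lsmul O (KK Unit O) ((u' : O) * π ^ m)) x =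
        (y + π ^ M • y') + (((u'⁻¹ : Oˣ) : O) * π ^ (M - m)) •
          (LinearMap.lsmul O (KK Unit O) ((u' : O) * π ^ m)) v' := by
      rw [LinearMap.lsmul_apply, LinearMap.lsmul_apply, hxyw, smul_add, smul_smul, add_assoc]
      congr 3
      have h2 : π ^ M = π ^ (M - m) * π ^ m := by
        rw [← pow_add]
        congr 1
        omega
      calc π ^ M = (((u'⁻¹ : Oˣ) : O) * u') * (π ^ (M - m) * π ^ m) := by
            rw [Units.inv_mul, one_mul, h2]
        _ = _ := by ring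
    rw [h1]
    refine Submodule.add_mem_sup (Submodule.add_mem _ hy (Submodule.smul_mem _ _ hy')) ?_
    refine Submodule.smul_mem_smul ?_ ⟨v', hv', rfl⟩
    refine Ideal.mul_mem_left _ _ ?_
    have h3 : M - m = (M - m - 1) + 1 := by omega
    rw [h3, pow_succ]
    exact Ideal.mul_mem_left _ _ ((IsLocalRing.mem_maximalIdeal _).2 hπu)
  intro x hx
  obtain ⟨y, hy, v, hv, rfl⟩ := Submodule.mem_sup.1 (hV3 hx)
  rw [smul_add]
  exact Submodule.add_mem _ (Submodule.smul_mem _ _ hy) (hNle ⟨v, hv, rfl⟩)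

end Pool.Agent.MG.G0


end

section

/-!
# UM1: the value at a curve with marked points is defined over the base field
-/

open Polynomial

namespace Pool.Agent.MG.G0

namespace UM1

/-- Independence of the marked points. -/
theorem pos_eq {K : Type} [Field K] [IsAlgClosed K] [Algebra ℂ K] {g n : ℕ} (E : Ev0 g n)
    {P Q : Subalgebra K (KK Unit K)} (hQ : IsKr g Q) (hS : TypeS Q) (e : P = Q)
    (p : Fin n → (P →ₐ[K] K)) (q : Fin n → (Q →ₐ[K] K)) (hp : Marks P p) (hq : Marks Q q) :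
    E.Φ K Unit P p = E.Φ K Unit Q q := by
  subst e
  exact E.pos p q hQ hS hp hq

/-- Goodness of the base change. -/
theorem good_bc (hKBC : Stmt_KBC) {L : Type} [Field L] {g : ℕ} {P : Subalgebra L (KK Unit L)}
    (hP : IsKr g P) (hT : ∀ {K : Type} [Field K] [IsAlgClosed K] (φ : L →+* K), TypeS (bc φ P))
    {K : Type} [Field K] (φ : L →+* K) : Good g (bc φ P) := by
  refine ⟨(hKBC.2.2.2 hP φ).1, fun κ _ _ ψ => Or.inl ?_⟩
  rw [← hKBC.2.1 φ ψ P]
  exact hT (ψ.comp φ)

/-- The value is fixed by the Galois group. -/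
theorem fixed (hKBC : Stmt_KBC) (hKBT : Stmt_KBT) {L K : Type} [Field L] [Field K]
    [IsAlgClosed K] [Algebra ℂ L] [Algebra ℂ K] [Algebra L K] [IsScalarTower ℂ L K] {g n : ℕ}
    (E : Ev0 g n) {P : Subalgebra L (KK Unit L)} (hP : IsKr g P)
    (hT : ∀ {K : Type} [Field K] [IsAlgClosed K] (φ : L →+* K), TypeS (bc φ P))
    (p : Fin n → (bc (algebraMap L K) P →ₐ[K] K)) (hp : Marks (bc (algebraMap L K) P) p)
    (σ : K ≃ₐ[L] K) :
    σ (E.Φ K Unit (bc (algebraMap L K) P) p) = E.Φ K Unit (bc (algebraMap L K) P) p := by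
  have hK : IsKr g (bc (algebraMap L K) P) := (hKBC.2.2.2 hP _).1
  let s : K →ₐ[ℂ] K := (σ : K →ₐ[L] K).restrictScalars ℂ
  obtain ⟨p', hp'⟩ := (KX.t_KBP hKBT hKBC).1 hK (s : K →+* K) p
  have hm : Marks (bc (s : K →+* K) (bc (algebraMap L K) P)) p' :=
    (KX.t_KBP hKBT hKBC).2 hK (s : K →+* K) p p' hp' hp
  have h1 := E.nat s p p' (good_bc hKBC hP hT (algebraMap L K)) hp
    fun i f => hp' i f (bcMap (s : K →+* K) _ f) rfl
  have e : bc (s : K →+* K) (bc (algebraMap L K) P) = bc (algebraMap L K) P := by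
    rw [← hKBC.2.1]
    congr 1
    ext x
    exact σ.commutes x
  rw [pos_eq E hK (hT _) e p' p hm hp] at h1
  exact h1.symm

end UM1

theorem t_UM1 (hUGL : Stmt_UGL) : Stmt_UM1 := by
  intro L K _ _ _ _ _ _ _ _ g d n R f E hd hR hz hf hs
  have hKSP : Stmt_KSP := t_KSP t_KNZ
  have hKBC : Stmt_KBC := t_KBC (t_KFO t_KDU) t_KNZ hKSP
  have hKBT : Stmt_KBT := t_KBT hKSP hKBC
  have hc0 : CharZero L := charZero_of_injective_algebraMap (algebraMap ℂ L).injective
  obtain ⟨hG, -, -, -, hT⟩ := hUGL hd hR hz hf hs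
  have hT' : ∀ {K : Type} [Field K] [IsAlgClosed K] (φ : L →+* K), TypeS (bc φ (uno R)) :=
    fun φ => (hT φ).1
  by_cases hex : ∃ p : Fin n → (bc (algebraMap L K) (uno R) →ₐ[K] K),
      Marks (bc (algebraMap L K) (uno R)) p
  · obtain ⟨p₀, hp₀⟩ := hex
    have hc1 : IsAlgClosure L K := ⟨inferInstance, inferInstance⟩
    have hc2 : Normal L K := IsAlgClosure.normal L K
    have hc3 : IsGalois L K := ⟨⟩
    obtain ⟨s, hs⟩ := (InfiniteGalois.mem_range_algebraMap_iff_fixed
      (E.Φ K Unit (bc (algebraMap L K) (uno R)) p₀)).2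
        fun σ => UM1.fixed hKBC hKBT E hG.1 hT' p₀ hp₀ σ
    refine ⟨s, fun p hp => ?_⟩
    rw [hs]
    exact UM1.pos_eq E (hKBC.2.2.2 hG.1 _).1 (hT' _) rfl p p₀ hp hp₀
  · exact ⟨0, fun p hp => absurd ⟨p, hp⟩ hex⟩

end Pool.Agent.MG.G0


end
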