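import Mathlib
import Pool.Agent.KDM.C12
import Pool.Agent.KDM.C22
import Pool.Agent.KDM.C29
import Pool.Agent.KDM.C74
import Pool.Agent.KDM.C75

/-! Parts: MG.H2.EndO, MG.H2.GeoR, MG.G0.GRF, MG.G0.POL, MG.G0.TG.TGB, MG.G0.TG.TGT -/

section

/-!
# The values at the curves `y² = f(x)` over integrally closed domains
-/

open Polynomial

namespace Pool.Agent.MG.H2

/-- The algebraic closure of the field of fractions. -/
abbrev Kbar (B : Type) [CommRing B] [IsDomain B] : Type := AlgebraicClosure (FractionRing B)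

section roots

variable {K : Type} [Field K]

/-- Change of scale. -/
theorem dilf (σ : K) (ρ r : Fin 3 → K) :
    C ((σ ^ 3) ^ 2) * ((∏ i, (X - C (ρ i))) * ∏ j, (C (σ ^ 2) * X - C (r j))) =
      ((∏ i, (X - C (σ ^ 2 * ρ i))) * ∏ j, (X - C (r j))).comp (C (σ ^ 2) * X) := by
  rw [mul_comp, Polynomial.prod_comp, Polynomial.prod_comp]
  simp only [sub_comp, X_comp, C_comp]
  have e1 : ∀ i, (C (σ ^ 2) * X - C (σ ^ 2 * ρ i) : K[X]) = C (σ ^ 2) * (X - C (ρ i)) := by
    intro i
    rw [C_mul]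
    ring
  have e2 : (σ ^ 3) ^ 2 = (σ ^ 2) ^ 3 := by ring
  simp only [e1, Finset.prod_mul_distrib]
  rw [Finset.prod_const, Finset.card_univ, Fintype.card_fin, ← C_pow, e2, mul_assoc]

theorem good_f {σ : K} {ρ r : Fin 3 → K} (hσ : σ ≠ 0) (h1 : ∀ i j, i ≠ j → ρ i ≠ ρ j)
    (h2 : ∀ i j, i ≠ j → r i ≠ r j) (h4 : ∀ i j, r j ≠ σ ^ 2 * ρ i) :
    Two2.Good ((∏ i, (X - C (σ ^ 2 * ρ i))) * ∏ j, (X - C (r j))) := by
  have hinj : Function.Injective (Sum.elim (fun i => σ ^ 2 * ρ i) r) := by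
    rintro (i | i) (j | j) hij
    · by_contra hc
      exact h1 i j (fun h => hc (by rw [h])) (mul_left_cancel₀ (pow_ne_zero 2 hσ) hij)
    · exact absurd hij.symm (h4 i j)
    · exact absurd hij (h4 j i)
    · by_contra hc
      exact h2 i j (fun h => hc (by rw [h])) hij
  have := Two2.good_prod (K := K) (ι := Fin 3 ⊕ Fin 3) (Or.inr (by simp)) _ hinj
  rw [Fintype.prod_sum_type] at this
  exact this

theorem good_f' {σ : K} {ρ r : Fin 3 → K} (hσ : σ ≠ 0) (h1 : ∀ i j, i ≠ j → ρ i ≠ ρ j)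
    (h2 : ∀ i j, i ≠ j → r i ≠ r j) (h4 : ∀ i j, r j ≠ σ ^ 2 * ρ i) :
    Two2.Good ((∏ i, (X - C (ρ i))) * ∏ j, (C (σ ^ 2) * X - C (r j))) := by
  obtain ⟨v, hv⟩ := ((IsUnit.mk0 _ hσ).pow 6 : IsUnit (σ ^ 6)).exists_right_inv
  have hvu : IsUnit v := IsUnit.of_mul_eq_one (σ ^ 6) (by rw [mul_comm]; exact hv)
  have h5 := ((good_f hσ h1 h2 h4).dil ((IsUnit.mk0 _ hσ).pow 2)).cmul hvu
  rw [← dilf, ← mul_assoc, ← C_mul] at h5
  have : v * (σ ^ 3) ^ 2 = 1 := by
    rw [← hv]
    ring
  rw [this, C_1, one_mul] at h5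
  exact h5

end roots

section

variable {B : Type} [CommRing B] [IsDomain B] [Algebra ℂ B]

/-- `B → K`. -/
noncomputable def toK (B : Type) [CommRing B] [IsDomain B] [Algebra ℂ B] : B →ₐ[ℂ] Kbar B :=
  IsScalarTower.toAlgHom ℂ B (Kbar B)

theorem toK_apply (b : B) : toK B b = algebraMap B (Kbar B) b := rfl

theorem toK_inj : Function.Injective (toK B) := by
  change Function.Injective (algebraMap B (Kbar B))
  rw [IsScalarTower.algebraMap_eq B (FractionRing B) (Kbar B)]
  exact (algebraMap (FractionRing B) (Kbar B)).injective.comp (IsFractionRing.injective B _)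

end

namespace MdlN

variable {n : ℕ} (M : MdlN n)

section desc

variable {B : Type} [CommRing B] [IsDomain B] [Algebra ℂ B]

/-- The integral closure of `B`. -/
abbrev RR (B : Type) [CommRing B] [IsDomain B] : Type := integralClosure B (Kbar B)

/-- Points over the integral closure. -/
theorem exists_pts (f : B[X]) (hf : Two2.Good f) : ∃ (b : Fin n → RR B),
    OnC (f.map (algebraMap B (RR B))) (ab n (RR B)) b ∧
      ∀ i, (b i : Kbar B) = od n (f.map (algebraMap B (Kbar B))) i := by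
  have hint : ∀ i, IsIntegral B (od n (f.map (algebraMap B (Kbar B))) i) := by
    intro i
    refine IsIntegral.of_pow (n := 2) (by norm_num) ?_
    rw [od_sq, ← ab_map (algebraMap B (Kbar B)) i, eval_map_apply]
    exact isIntegral_algebraMap
  refine ⟨fun i => ⟨_, hint i⟩, ⟨hf.map _, ab_unit, fun i => ?_⟩, fun i => rfl⟩
  apply Subtype.ext
  rw [← ab_map (algebraMap B (RR B)) i, eval_map_apply]
  change od n (f.map (algebraMap B (Kbar B))) i ^ 2 = algebraMap B (Kbar B) _
  rw [od_sq, ← ab_map (algebraMap B (Kbar B)) i, eval_map_apply]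

/-- `R → K`. -/
noncomputable def rk (B : Type) [CommRing B] [IsDomain B] [Algebra ℂ B] : RR B →ₐ[ℂ] Kbar B :=
  (integralClosure B (Kbar B)).val.restrictScalars ℂ

theorem rk_apply (v : RR B) : rk B v = (v : Kbar B) := rfl

/-- The value is the image of an element of the integral closure. -/
theorem exists_v (f : B[X]) (hf : Two2.Good f) : ∃ (b : Fin n → RR B) (_ : OnC
    (f.map (algebraMap B (RR B))) (ab n (RR B)) b),
    rk B (M.V (RR B) (f.map (algebraMap B (RR B))) (ab n (RR B)) b) =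
      M.sk (f.map (algebraMap B (Kbar B))) := by
  obtain ⟨b, hb, -⟩ := exists_pts (n := n) f hf
  refine ⟨b, hb, ?_⟩
  rw [← M.bc (rk B) _ _ _ hb]
  have e : (f.map (algebraMap B (RR B))).map (rk B : RR B →+* Kbar B) =
      f.map (algebraMap B (Kbar B)) := by
    rw [Polynomial.map_map]
    rfl
  have h1 := hb.map (rk B : RR B →+* Kbar B)
  rw [e] at h1 ⊢
  exact M.sk_eq h1

theorem sk_inv_gal (f : B[X]) (hf : Two2.Good f) (σ : Kbar B ≃ₐ[FractionRing B] Kbar B) :
    σ (M.sk (f.map (algebraMap B (Kbar B)))) = M.sk (f.map (algebraMap B (Kbar B))) := by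
  let σ' : Kbar B →ₐ[ℂ] Kbar B := (σ : Kbar B →ₐ[FractionRing B] Kbar B).restrictScalars ℂ
  have hf' : Two2.Good (f.map (algebraMap B (Kbar B))) := hf.map _
  have h1 : OnC (f.map (algebraMap B (Kbar B))) (ab n (Kbar B))
    (od n (f.map (algebraMap B (Kbar B)))) := onC hf'
  have e : (f.map (algebraMap B (Kbar B))).map (σ' : Kbar B →+* Kbar B) =
      f.map (algebraMap B (Kbar B)) := by
    rw [Polynomial.map_map]
    congr 1
    ext b
    change σ (algebraMap B (Kbar B) b) = algebraMap B (Kbar B) b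
    rw [IsScalarTower.algebraMap_apply B (FractionRing B) (Kbar B)]
    exact σ.commutes _
  have h2 := M.bc σ' _ _ _ h1
  have h3 := h1.map (σ' : Kbar B →+* Kbar B)
  rw [e] at h2 h3
  rw [show σ (M.sk (f.map (algebraMap B (Kbar B)))) = σ' (M.V (Kbar B)
    (f.map (algebraMap B (Kbar B))) (ab n (Kbar B)) (od n (f.map (algebraMap B (Kbar B))))) from rfl,
    ← h2]
  exact M.sk_eq h3

theorem exists_S [IsIntegrallyClosed B] (hNAL : Stmt_NAL) (f : B[X]) (hf : Two2.Good f) :
    ∃ s : B, toK B s = M.sk (f.map (algebraMap B (Kbar B))) := by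
  have : CharZero B := charZero_of_injective_algebraMap (algebraMap ℂ B).injective
  refine hNAL B _ ?_ (M.sk_inv_gal f hf)
  obtain ⟨b, -, h⟩ := M.exists_v f hf
  rw [← h]
  exact (M.V (RR B) (f.map (algebraMap B (RR B))) (ab n (RR B)) b).2

open Classical in
/-- The value over an integrally closed domain. -/
noncomputable def sn (B : Type) [CommRing B] [IsDomain B] [IsIntegrallyClosed B] [Algebra ℂ B]
    (f : B[X]) : B :=
  if h : ∃ s : B, toK B s = M.sk (f.map (algebraMap B (Kbar B))) then h.choose else 0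

variable [IsIntegrallyClosed B] (hNAL : Stmt_NAL) (hNLY : Stmt_NLY)

include hNAL in
theorem sn_spec {f : B[X]} (hf : Two2.Good f) :
    toK B (M.sn B f) = M.sk (f.map (algebraMap B (Kbar B))) := by
  have h := M.exists_S hNAL f hf
  unfold sn
  rw [dif_pos h]
  exact h.choose_spec

include hNAL hNLY in
theorem sn_ev {f : B[X]} (hf : Two2.Good f) {L : Type} [Field L] [IsAlgClosed L] [Algebra ℂ L]
    (ψ : B →ₐ[ℂ] L) : M.sk (f.map (ψ : B →+* L)) = ψ (M.sn B f) := by
  obtain ⟨b, hb, hv⟩ := M.exists_v f hf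
  have hinj : Function.Injective (algebraMap B (RR B)) := by
    intro x y h
    exact toK_inj (congrArg (fun z : RR B => (z : Kbar B)) h)
  have : FaithfulSMul B (RR B) := (faithfulSMul_iff_algebraMap_injective B (RR B)).2 hinj
  obtain ⟨ψ1, hψ1⟩ := hNLY B (RR B) L (ψ : B →+* L)
  let ψ' : RR B →ₐ[ℂ] L :=
    { ψ1 with
      commutes' := fun c => by
        change ψ1 (algebraMap ℂ (RR B) c) = _
        rw [IsScalarTower.algebraMap_apply ℂ B (RR B), hψ1]
        exact ψ.commutes c }
  have hψ' : ∀ x, ψ' (algebraMap B (RR B) x) = ψ x := hψ1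
  have e0 : M.V (RR B) (f.map (algebraMap B (RR B))) (ab n (RR B)) b =
      algebraMap B (RR B) (M.sn B f) := by
    apply Subtype.ext
    rw [← rk_apply, hv, ← M.sn_spec hNAL hf]
    rfl
  have h2 := M.bc ψ' _ _ _ hb
  have h3 := hb.map (ψ' : RR B →+* L)
  have e : (f.map (algebraMap B (RR B))).map (ψ' : RR B →+* L) = f.map (ψ : B →+* L) := by
    rw [Polynomial.map_map]
    congr 1
    ext x
    exact hψ1 x
  rw [e, e0, hψ'] at h2
  rw [e] at h3
  rw [← h2]
  exact (M.sk_eq h3).symm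

end desc

section dat

variable (hNAL : Stmt_NAL) (hNLY : Stmt_NLY)

include hNAL hNLY

theorem sn_nat (B B' : Type) [CommRing B] [IsDomain B] [IsIntegrallyClosed B] [Algebra ℂ B]
    [CommRing B'] [IsDomain B'] [IsIntegrallyClosed B'] [Algebra ℂ B'] (φ : B →ₐ[ℂ] B')
    (f : B[X]) (hf : Two2.Good f) : M.sn B' (f.map (φ : B →+* B')) = φ (M.sn B f) := by
  apply toK_inj (B := B')
  rw [M.sn_spec hNAL (hf.map _), Polynomial.map_map]
  exact M.sn_ev hNAL hNLY hf ((toK B').comp φ)

theorem sn_reg (B K : Type) [CommRing B] [IsDomain B] [IsIntegrallyClosed B] [Field K]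
    [Algebra ℂ B] [Algebra ℂ K] (φ : B →ₐ[ℂ] K) (hφ : Function.Injective φ) (s : B)
    (ρ r : Fin 3 → B) (hs : s ≠ 0)
    (h1 : ∀ i j, i ≠ j → IsUnit (ρ i - ρ j)) (h2 : ∀ i j, i ≠ j → IsUnit (r i - r j))
    (h3 : ∀ j, IsUnit (r j)) (h4 : ∀ i j, IsUnit (r j - s ^ 2 * ρ i)) :
    ∃ b : B, M.sn K
      (((∏ i, (X - C (s ^ 2 * ρ i))) * ∏ j, (X - C (r j)) : B[X]).map (φ : B →+* K)) =
        φ b := by
  -- polynomials
  have ef : ∀ {R : Type} [CommRing R] (g : B →+* R),
      ((∏ i, (X - C (s ^ 2 * ρ i))) * ∏ j, (X - C (r j)) : B[X]).map g =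
      (∏ i, (X - C (g s ^ 2 * g (ρ i)))) * ∏ j, (X - C (g (r j))) := by
    intro R _ g
    rw [Polynomial.map_mul, Polynomial.map_prod, Polynomial.map_prod]
    simp
  have ef' : ∀ {R R' : Type} [CommRing R] [CommRing R'] (g : R →+* R') (s : R) (ρ r : Fin 3 → R),
      ((∏ i, (X - C (ρ i))) * ∏ j, (C (s ^ 2) * X - C (r j)) : R[X]).map g =
      (∏ i, (X - C (g (ρ i)))) * ∏ j, (C (g s ^ 2) * X - C (g (r j))) := by
    intro R R' _ _ g s ρ r
    rw [Polynomial.map_mul, Polynomial.map_prod, Polynomial.map_prod]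
    simp
  have hne : ∀ {L : Type} [Field L] (g : B →+* L) {a b : B}, IsUnit (a - b) → g a ≠ g b := by
    intro L _ g a b h h'
    exact (h.map g).ne_zero (by rw [map_sub, h', sub_self])
  have h4' : ∀ {L : Type} [Field L] (g : B →+* L) (i j : Fin 3), g (r j) ≠ g s ^ 2 * g (ρ i) := by
    intro L _ g i j h
    refine hne g (h4 i j) ?_
    rw [h, map_mul, map_pow]
  -- the algebraic closure
  let j : B →+* Kbar B := algebraMap B (Kbar B)
  have hj : Function.Injective j := toK_inj (B := B)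
  have hs' : j s ≠ 0 := fun h0 => hs (hj (by rw [h0, map_zero]))
  have hgf := good_f hs' (fun i k hik => hne j (h1 i k hik)) (fun i k hik => hne j (h2 i k hik))
    (h4' j)
  have hgf' := good_f' hs' (fun i k hik => hne j (h1 i k hik))
    (fun i k hik => hne j (h2 i k hik)) (h4' j)
  have hdil := M.sk_dil hgf hgf' (j s ^ 2) (j s ^ 3) ((IsUnit.mk0 _ hs').pow 2)
    ((IsUnit.mk0 _ hs').pow 3) (dilf _ _ _)
  -- the value
  have hval : ∃ v : RR B, rk B v = M.sk ((∏ i, (X - C (j s ^ 2 * j (ρ i)))) *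
      ∏ k, (X - C (j (r k)))) := by
    let c : B →+* RR B := algebraMap B (RR B)
    have hc : ∀ x, rk B (c x) = j x := fun x => rfl
    set g : B[X] := (∏ i, (X - C (ρ i))) * ∏ j, (C (s ^ 2) * X - C (r j)) with hg
    have hint : ∀ i, IsIntegral B (od n (g.map j) i) := by
      intro i
      refine IsIntegral.of_pow (n := 2) (by norm_num) ?_
      rw [od_sq, ← ab_map j i, eval_map_apply]
      exact isIntegral_algebraMap
    obtain ⟨v, hv⟩ := M.reg (R := RR B) (c s) (fun i => c (ρ i)) (fun i => c (r i)) (ab n (RR B))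
      (fun i => ⟨_, hint i⟩) (fun h0 => hs' (by rw [← hc, h0, map_zero]))
      (fun i k hik => by rw [← map_sub]; exact (h1 i k hik).map c)
      (fun i k hik => by rw [← map_sub]; exact (h2 i k hik).map c)
      (fun k => (h3 k).map c)
      (fun i k => by rw [← map_pow, ← map_mul, ← map_sub]; exact (h4 i k).map c) ab_unit (by
        intro i
        rw [← ef' c s ρ r, ← hg, ← ab_map c i, eval_map_apply]
        apply Subtype.ext
        change od n (g.map j) i ^ 2 = j _
        rw [od_sq, ← ab_map j i, eval_map_apply])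
    refine ⟨v, ?_⟩
    have h5 := hv (Kbar B) (rk B) hs'
    rw [ef'] at h5
    rw [← h5, ← hdil]
    refine M.sk_eq ⟨hgf', fun i k hik => ?_, fun i => ?_⟩
    · rw [← map_sub]
      exact (ab_unit i k hik).map (rk B)
    · have e : (∏ i, (X - C (j (ρ i)))) * ∏ k, (C (j s ^ 2) * X - C (j (r k))) = g.map j :=
        (ef' j s ρ r).symm
      have e2 : (∏ i, (X - C ((rk B : RR B →+* Kbar B) (c (ρ i))))) *
          ∏ k, (C ((rk B : RR B →+* Kbar B) (c s) ^ 2) * X -
            C ((rk B : RR B →+* Kbar B) (c (r k)))) = g.map j := e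
      rw [e2]
      change od n (g.map j) i ^ 2 = _
      have e3 : rk B (ab n (RR B) i) = ab n (Kbar B) i := ab_map (rk B : RR B →+* Kbar B) i
      rw [od_sq, e3]
  obtain ⟨v, hv⟩ := hval
  -- the field of fractions
  let q : B →+* FractionRing B := algebraMap B (FractionRing B)
  have hq : Function.Injective q := IsFractionRing.injective B _
  have hsq : q s ≠ 0 := fun h0 => hs (hq (by rw [h0, map_zero]))
  have hgq := good_f hsq (fun i k hik => hne q (h1 i k hik)) (fun i k hik => hne q (h2 i k hik))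
    (h4' q)
  let ψ : FractionRing B →ₐ[ℂ] Kbar B := IsScalarTower.toAlgHom ℂ (FractionRing B) (Kbar B)
  have hev := M.sn_ev hNAL hNLY hgq ψ
  have eq1 : ((∏ i, (X - C (q s ^ 2 * q (ρ i)))) * ∏ k, (X - C (q (r k))) :
      (FractionRing B)[X]).map (ψ : FractionRing B →+* Kbar B) =
      (∏ i, (X - C (j s ^ 2 * j (ρ i)))) * ∏ k, (X - C (j (r k))) := by
    rw [← ef q, Polynomial.map_map, ← ef j]
    rfl
  rw [eq1, ← hv] at hev
  have hint : IsIntegral B (M.sn (FractionRing B)
      ((∏ i, (X - C (q s ^ 2 * q (ρ i)))) * ∏ k, (X - C (q (r k))))) := by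
    refine (isIntegral_algebraMap_iff (B := Kbar B)
      (algebraMap (FractionRing B) (Kbar B)).injective).1 ?_
    have h6 : IsIntegral B (v : Kbar B) := v.2
    rw [← rk_apply, hev] at h6
    exact h6
  obtain ⟨b, hb⟩ := IsIntegrallyClosed.isIntegral_iff.1 hint
  refine ⟨b, ?_⟩
  let φ' : FractionRing B →ₐ[ℂ] K := IsLocalization.liftAlgHom (M := nonZeroDivisors B) (f := φ)
    (fun y => IsUnit.mk0 _ (fun h0 => nonZeroDivisors.ne_zero y.2 (hφ (by rw [h0, map_zero]))))
  have hφ' : ∀ x, φ' (q x) = φ x := fun x => IsLocalization.lift_eq _ _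
  have h7 := M.sn_nat hNAL hNLY (FractionRing B) K φ' _ hgq
  rw [← ef q, Polynomial.map_map] at h7
  have e8 : (φ' : FractionRing B →+* K).comp q = (φ : B →+* K) := RingHom.ext hφ'
  rw [e8] at h7
  rw [h7, ef q, ← hb]
  exact hφ' b

/-- The data over integrally closed domains. -/
noncomputable def datN : Two2.DatN ℂ where
  S B _ _ _ _ f _ := M.sn B f
  nat B B' _ _ _ _ _ _ _ _ φ f _ hf _ := M.sn_nat hNAL hNLY B B' φ f hf
  scal B _ _ _ _ u f _ hu hf _ := by
    apply toK_inj (B := B)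
    rw [M.sn_spec hNAL hf, M.sn_spec hNAL (hf.cmul (hu.pow 2)), Polynomial.map_mul, map_C, map_pow,
      M.sk_scal (hf.map _) _ (hu.map _)]
  trans B _ _ _ _ t f _ hf _ := by
    apply toK_inj (B := B)
    rw [M.sn_spec hNAL hf, M.sn_spec hNAL (hf.shift t), Mdl.comp_map, M.sk_trans (hf.map _)]
  inv B _ _ _ _ f _ hf _ := by
    apply toK_inj (B := B)
    rw [M.sn_spec hNAL hf, M.sn_spec hNAL hf.reflect, ← reflect_map, M.sk_inv (hf.map _)]
  reg B K _ _ _ _ _ _ φ hφ s ρ r _ hs h1 h2 h3 h4 :=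
    M.sn_reg hNAL hNLY B K φ hφ s ρ r hs h1 h2 h3 h4

/-- The values are constant. -/
theorem const (hA : Two2.AlgN_Stmt) : ∃ c : ℂ, ∀ (K : Type) [Field K] [IsAlgClosed K]
    [Algebra ℂ K] (f : K[X]) (a b : Fin n → K), OnC f a b → M.V K f a b = algebraMap ℂ K c := by
  obtain ⟨c, hc⟩ := hA ℂ (M.datN hNAL hNLY)
  refine ⟨c, fun K _ _ _ f a b h => ?_⟩
  have h1 := M.sn_ev hNAL hNLY h.good (AlgHom.id ℂ K)
  have e5 : ((AlgHom.id ℂ K : K →ₐ[ℂ] K) : K →+* K) = RingHom.id K := rfl
  rw [e5, Polynomial.map_id] at h1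
  rw [M.sk_eq h, h1]
  exact hc K f 0 h.good (by simp)

end dat

end MdlN

end Pool.Agent.MG.H2


end

section

/-!
# The values at marked curves of genus two: the degeneration
-/

open CategoryTheory CategoryTheory.Limits AlgebraicGeometry Polynomial

namespace Pool.Agent.MG.H2

namespace GeoN

section

variable {R : Type} [CommRing R]

theorem deg_g (s : R) (ρ r : Fin 3 → R) :
    ((∏ i, (X - C (ρ i))) * ∏ j, (C (s ^ 2) * X - C (r j)) : R[X]).natDegree ≤ 6 := by
  refine natDegree_mul_le.trans ?_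
  have h1 : (∏ i, (X - C (ρ i)) : R[X]).natDegree ≤ 3 := by
    refine (natDegree_prod_le _ _).trans ?_
    refine (Finset.sum_le_card_nsmul _ _ 1 fun i _ => ?_).trans (by simp)
    exact natDegree_X_sub_C_le _
  have h2 : (∏ j, (C (s ^ 2) * X - C (r j)) : R[X]).natDegree ≤ 3 := by
    refine (natDegree_prod_le _ _).trans ?_
    refine (Finset.sum_le_card_nsmul _ _ 1 fun i _ => ?_).trans (by simp)
    refine (natDegree_sub_le _ _).trans (max_le ((natDegree_C_mul_le _ _).trans natDegree_X_le) ?_)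
    rw [natDegree_C]
    exact Nat.zero_le 1
  omega

/-- The section in the chart `T`. -/
noncomputable def pntT (p : Fin 7 → R) (t : R) (a b : R) (h : b ^ 2 = pol (pT p t) a) :
    Sp R ⟶ YX R p t :=
  spMap (lift1 (RingHom.id R) a b (pnt_h (pT p t) h)) ≫ YX.inT R p t

theorem pntT_pr (p : Fin 7 → R) (t : R) (a b : R) (h : b ^ 2 = pol (pT p t) a) :
    pntT p t a b h ≫ YX.pr R p t = 𝟙 (Sp R) := by
  have e : (lift1 (RingHom.id R) a b (pnt_h (pT p t) h)).comp (algebraMap R _) =
      RingHom.id R := by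
    ext c
    exact lift1_b (f := pT p t) _ _ _ (pnt_h (pT p t) h) c
  rw [pntT, Category.assoc, YX.inT_pr, ← Spec.map_comp, ← CommRingCat.ofHom_comp, e]
  exact Spec.map_id _

theorem pntT_inj {K : Type} [Field K] (s : R →+* K) {p : Fin 7 → R} {t : R} {x y x' y' : R}
    (h : y ^ 2 = pol (pT p t) x) (h' : y' ^ 2 = pol (pT p t) x')
    (e : spMap s ≫ pntT p t x y h = spMap s ≫ pntT p t x' y' h') : s x = s x' := by
  rw [pntT, pntT, ← Category.assoc, ← Category.assoc, cancel_mono, ← Spec.map_comp,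
    ← Spec.map_comp, ← CommRingCat.ofHom_comp, ← CommRingCat.ofHom_comp] at e
  have e2 := congrArg (fun g => g.hom (x1 R (pT p t))) (Spec.map_injective e)
  change s (lift1 (RingHom.id R) x y (pnt_h (pT p t) h) (x1 R (pT p t))) =
    s (lift1 (RingHom.id R) x' y' (pnt_h (pT p t) h') (x1 R (pT p t))) at e2
  rwa [lift1_x, lift1_x] at e2

theorem opens_smooth {U X Y : Scheme.{0}} (i : U ⟶ X) [IsOpenImmersion i] (π : X ⟶ Y)
    (h : Smooth (i ≫ π)) : Smooth (i.opensRange.ι ≫ π) := by
  rw [← IsOpenImmersion.isoOfRangeEq_inv_fac i (Scheme.Opens.ι _)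
    (congr_arg TopologicalSpace.Opens.carrier i.opensRange.opensRange_ι.symm), Category.assoc,
    MorphismProperty.cancel_left_of_respectsIso @Smooth]
  exact h

/-- The family with sections in the chart `T` is stable. -/
theorem stabT (hNPT : Stmt_NPT) (hYST : Stmt_YST) (hYSM : Stmt_YSM) {n : ℕ} {p : Fin 7 → R}
    {t : R} (ok : YOk R p t) (a b : Fin n → R) (h : ∀ i, b i ^ 2 = pol (pT p t) (a i))
    (hd : ∀ i j, i ≠ j → IsUnit (a i - a j)) :
    IsStable 2 (wpt (Yam p t) (fun i => pntT p t (a i) (b i) (h i))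
      (fun i => pntT_pr p t (a i) (b i) (h i))) := by
  refine hNPT 2 (Yam p t) (hYST p t ok) _ _ (fun i => ⟨(YX.inT R p t).opensRange, ?_,
    fun s => ⟨spMap (lift1 (RingHom.id R) (a i) (b i) (pnt_h (pT p t) (h i))) s, rfl⟩⟩) ?_
  · refine opens_smooth (YX.inT R p t) (YX.pr R p t) ?_
    rw [YX.inT_pr]
    have h1 := hYSM R (pT p t) ok.two ok.sT
    exact SmoothOfRelativeDimension.smooth 1 _
  · intro K _ _ s i j hij e
    have h1 := pntT_inj s (h i) (h j) e
    exact ((hd i j hij).map s).ne_zero (by rw [map_sub, h1, sub_self])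

end

/-- Points and arrows. -/
theorem pntT_arrow {R B : Type} [CommRing R] [CommRing B] (φ : R →+* B) {p : Fin 7 → R} {t : R}
    {f : Fin 7 → B} (hf : ∀ i, f i = φ (pT p t i)) (a : Arrow φ (Hyp f) (Yam p t))
    (hin : HX.in1 B f ≫ a.f = spMap (bc1 φ hf) ≫ YX.inT R p t) {x y : R}
    (h : y ^ 2 = pol (pT p t) x) (h' : φ y ^ 2 = pol f (φ x)) :
    pnt f (φ x) (φ y) h' ≫ a.f = spMap φ ≫ pntT p t x y h := by
  have e : (lift1 (RingHom.id B) (φ x) (φ y) (pnt_h f h')).comp (bc1 φ hf) =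
      φ.comp (lift1 (RingHom.id R) x y (pnt_h (pT p t) h)) := by
    refine hom1_ext (fun c => ?_) ?_ ?_
    · rw [RingHom.comp_apply, bc1_b, lift1_b, RingHom.comp_apply, lift1_b]
      rfl
    · rw [RingHom.comp_apply, bc1_x, lift1_x, RingHom.comp_apply, lift1_x]
    · rw [RingHom.comp_apply, bc1_y, lift1_y, RingHom.comp_apply, lift1_y]
  have e1 : spMap (lift1 (RingHom.id B) (φ x) (φ y) (pnt_h f h')) ≫ spMap (bc1 φ hf) =
      spMap φ ≫ spMap (lift1 (RingHom.id R) x y (pnt_h (pT p t) h)) := by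
    rw [spMap_comp', spMap_comp', e]
  exact (Category.assoc _ _ _).trans ((congrArg (fun z => spMap (lift1 (RingHom.id B) (φ x) (φ y)
    (pnt_h f h')) ≫ z) hin).trans ((Category.assoc _ _ _).symm.trans
      ((congrArg (fun z => z ≫ YX.inT R p t) e1).trans (Category.assoc _ _ _))))

variable {n : ℕ} (F : Reg 2 n) (hNPT : Stmt_NPT) (hYHT : Stmt_YHT)

theorem VN_reg (hYST : Stmt_YST) (hYSM : Stmt_YSM) (hYOR : Stmt_YOR) (hYAR : Stmt_YAR)
    {R : Type} [CommRing R] [IsDomain R] [Algebra ℂ R] (s : R) (ρ r : Fin 3 → R)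
    (a b : Fin n → R) (_ : s ≠ 0)
    (h1 : ∀ i j, i ≠ j → IsUnit (ρ i - ρ j)) (h2 : ∀ i j, i ≠ j → IsUnit (r i - r j))
    (h3 : ∀ j, IsUnit (r j)) (h4 : ∀ i j, IsUnit (r j - s ^ 2 * ρ i))
    (hd : ∀ i j, i ≠ j → IsUnit (a i - a j))
    (hon : ∀ i, b i ^ 2 =
      ((∏ i, (X - C (ρ i))) * ∏ j, (C (s ^ 2) * X - C (r j)) : R[X]).eval (a i)) :
    ∃ v : R, ∀ (K : Type) [Field K] [Algebra ℂ K] (ψ : R →ₐ[ℂ] K), ψ s ≠ 0 →
      VN F hNPT hYHT K
        (((∏ i, (X - C (ρ i))) * ∏ j, (C (s ^ 2) * X - C (r j)) : R[X]).map (ψ : R →+* K))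
        (fun i => ψ (a i)) (fun i => ψ (b i)) = ψ v := by
  set g : R[X] := (∏ i, (X - C (ρ i))) * ∏ j, (C (s ^ 2) * X - C (r j)) with hg
  have hdg : g.natDegree ≤ 6 := deg_g s ρ r
  obtain ⟨p, ok, hp⟩ := hYOR s ρ r two_unit h1 h2 h3 h4
  have hp' : pT p s = cf7 g := funext hp
  have hT : ∀ i, b i ^ 2 = pol (pT p s) (a i) := by
    intro i
    rw [hon, hp']
    exact (pol_cf7 (RingHom.id R) hdg (a i)).symm
  have hst := stabT hNPT hYST hYSM ok a b hT hd
  refine ⟨F.F R _ hst 0, fun K _ _ ψ hψ => ?_⟩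
  have hne : ∀ {x y : R}, IsUnit (x - y) → ψ x ≠ ψ y := by
    intro x y h h'
    exact (h.map ψ).ne_zero (by rw [map_sub, h', sub_self])
  have hgood : Two2.Good (g.map (ψ : R →+* K)) := by
    have e : g.map (ψ : R →+* K) = (∏ i, (X - C (ψ (ρ i)))) *
        ∏ j, (C (ψ s ^ 2) * X - C (ψ (r j))) := by
      rw [hg, Polynomial.map_mul, Polynomial.map_prod, Polynomial.map_prod]
      simp
    rw [e]
    refine good_f' hψ (fun i j hij => hne (h1 i j hij)) (fun i j hij => hne (h2 i j hij))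
      fun i j h => hne (h4 i j) ?_
    rw [h, map_mul, map_pow]
  have hO : OnC (g.map (ψ : R →+* K)) (fun i => ψ (a i)) (fun i => ψ (b i)) := by
    refine ⟨hgood, fun i j hij => ?_, fun i => ?_⟩
    · rw [← map_sub]
      exact (hd i j hij).map ψ
    · have h6 := congrArg (ψ : R →+* K) (hon i)
      rw [map_pow, ← eval_map_apply] at h6
      exact h6
  have hf : ∀ i, cf7 (g.map (ψ : R →+* K)) i = (ψ : R →+* K) (pT p s i) := by
    intro i
    rw [cf7_map, hp']
  obtain ⟨-, ar, -, -, -, hin, -⟩ := hYAR (ψ : R →+* K) p s (ψ s)⁻¹ (mul_inv_cancel₀ hψ)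
    (cf7 (g.map (ψ : R →+* K))) hf
  rw [VN_eq F hNPT hYHT hO]
  refine val0 F ψ hst (stab hNPT hYHT hO) ⟨ar.f, ar.cart, fun i => ?_⟩
  exact pntT_arrow (ψ : R →+* K) hf ar hin (hT i) (onh hO i)

/-- The values at marked curves. -/
noncomputable def mdlN (hHBC : Stmt_HBC) (hASC : Stmt_ASC) (hATR : Stmt_ATR) (hASW : Stmt_ASW)
    (hNMA : Stmt_NMA) (hYST : Stmt_YST) (hYSM : Stmt_YSM) (hYOR : Stmt_YOR)
    (hYAR : Stmt_YAR) : MdlN n where
  V := VN F hNPT hYHT
  bc := VN_bc F hNPT hYHT hHBC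
  sc α β f f' a b a' b' hα hβ h h' := VN_sc F hNPT hYHT hASC α β f f' a b a' b' hα hβ h h'
  tr := VN_tr F hNPT hYHT hATR
  inv f a b a' b' h h' := VN_inv F hNPT hYHT hASW f a b a' b' h h'
  mv := VN_mv F hNPT hYHT hNMA
  reg s ρ r a b hs h1 h2 h3 h4 hd hon :=
    VN_reg F hNPT hYHT hYST hYSM hYOR hYAR s ρ r a b hs h1 h2 h3 h4 hd hon

end GeoN

end Pool.Agent.MG.H2


end

section

/-!
# The special curve over algebraically closed fields (PAPER_G.md, GRF)
-/

namespace Pool.Agent.MG.G0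

namespace GRF

/-- The homomorphism to dual numbers given by a critical point. -/
theorem exists_hom (hGLF : Stmt_GLF) {K : Type} [Field K] (g : ℕ) (ζ : K) (S : SCD K)
    (hS : S.g = g) (u : PowerSeries K) (Φ : LaurentSeries K ≃ₐ[K] LaurentSeries K)
    (hΦ : IsSub u (Φ : LaurentSeries K →ₐ[K] LaurentSeries K))
    (hu : psl K u ^ (6 * g + 9) * GRA.zf g ζ S = 1) (R : Subalgebra K (LaurentSeries K))
    (hR : R = S.R.comap (Φ : LaurentSeries K →ₐ[K] LaurentSeries K)) (z : R)
    (hz : (z : LaurentSeries K) = zz K (6 * g + 9)) (β : K) (x y w : DualNumber K)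
    (h1 : y ^ 2 = x ^ S.a * w) (h2 : y * w = x ^ (g + 1) - x)
    (h3 : w ^ 2 = (x ^ (g + 1 - S.a) - x ^ (1 - S.a)) * y)
    (h4 : x.snd ≠ 0 ∨ y.snd ≠ 0 ∨ w.snd ≠ 0)
    (h5 : x ^ (2 * g + 3) + TrivSqZeroExt.inl ζ * y = TrivSqZeroExt.inl β) :
    ∃ h : R →ₐ[K] DualNumber K, h z = TrivSqZeroExt.inl β ∧ ∃ f : R, (h f).snd ≠ 0 := by
  subst hS hR
  obtain ⟨h, ⟨hx, hy, hw⟩, -⟩ := hGLF S (DualNumber K) x y w h1 h2 h3
  let ψ : (S.R.comap (Φ : LaurentSeries K →ₐ[K] LaurentSeries K)) →ₐ[K] S.R :=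
    { toFun := fun f => ⟨Φ f, f.2⟩
      map_one' := Subtype.ext (map_one Φ)
      map_zero' := Subtype.ext (map_zero Φ)
      map_add' := fun f h => Subtype.ext (map_add Φ _ _)
      map_mul' := fun f h => Subtype.ext (map_mul Φ _ _)
      commutes' := fun a => Subtype.ext (Φ.commutes a) }
  have hψ : ∀ f : S.R, ∃ f' : S.R.comap (Φ : LaurentSeries K →ₐ[K] LaurentSeries K),
      ψ f' = f := by
    intro f
    refine ⟨⟨Φ.symm f, ?_⟩, Subtype.ext (Φ.apply_symm_apply _)⟩
    change Φ (Φ.symm f) ∈ S.R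
    rw [Φ.apply_symm_apply]
    exact f.2
  refine ⟨h.comp ψ, ?_, ?_⟩
  · have e : ψ z = S.x ^ (2 * S.g + 3) + ζ • S.y := by
      apply Subtype.ext
      change Φ (z : LaurentSeries K) = zz K 3 ^ (2 * S.g + 3) + ζ • S.Y
      rw [hz]
      exact GRA.Phi_zz u _ hΦ S.g ζ S hu
    rw [AlgHom.comp_apply, e, map_add, map_pow, map_smul, hx, hy, ← h5,
      TrivSqZeroExt.inl_mul_eq_smul]
  · obtain h4 | h4 | h4 := h4
    · obtain ⟨f, hf⟩ := hψ S.x
      exact ⟨f, by rw [AlgHom.comp_apply, hf, hx]; exact h4⟩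
    · obtain ⟨f, hf⟩ := hψ S.y
      exact ⟨f, by rw [AlgHom.comp_apply, hf, hy]; exact h4⟩
    · obtain ⟨f, hf⟩ := hψ S.w
      exact ⟨f, by rw [AlgHom.comp_apply, hf, hw]; exact h4⟩

open Polynomial in
theorem prod_eq {K : Type} [Field K] {n : ℕ} (β : Fin n → K) (hβ : Function.Injective β)
    (f : K[X]) (hf : f.Monic) (hn : f.natDegree = n) (h : ∀ l, f.eval (β l) = 0) :
    f = ∏ l, (X - C (β l)) := by
  have h1 : (∏ l, (X - C (β l))) ∣ f :=
    Finset.prod_dvd_of_coprime (fun i _ j _ hij => pairwise_coprime_X_sub_C hβ hij)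
      (fun l _ => dvd_iff_isRoot.2 (h l))
  have h2 : (∏ l, (X - C (β l))).Monic := monic_prod_of_monic _ _ fun l _ => monic_X_sub_C _
  refine eq_of_monic_of_dvd_of_natDegree_le h2 hf h1 ?_
  rw [natDegree_prod_of_monic _ _ fun l _ => monic_X_sub_C _, hn]
  simp

end GRF

open _root_.Pool.Agent.MG.G0.GRF in
theorem t_GRF (hSDF : Stmt_SDF) (hZD2 : Stmt_ZD2) (hZDB : Stmt_ZDB) (hGLF : Stmt_GLF)
    (hGCV : Stmt_GCV) (hGDG : Stmt_GDG) (hGRA : Stmt_GRA) : Stmt_GRF := by
  intro g hg K _ _ ζ R hRG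
  obtain ⟨-, hKr, hzm, hFS, hSm, -, -, -⟩ := (hGRA g hg).2.1 ζ R hRG
  refine ⟨hSDF hKr hFS hSm, ?_⟩
  intro F _ _ hζ
  obtain ⟨S, u, Φ, hS1, hS2, hu0, hu1, hΦ, hu, hR⟩ := hRG
  have hd : (((6 * g + 9).factorial : ℕ) : K) ≠ 0 := by
    have := S.hd.ne_zero
    rwa [hS1] at this
  have h3 : ¬ 3 ∣ g + 1 + S.a := by
    have := S.h3
    rwa [hS1] at this
  obtain ⟨β, hβ, hpt⟩ := hGCV (F := F) g S.a hg S.ha h3 hd ζ hζ
  have hd1 : ((6 * g + 9 : ℕ) : K) ≠ 0 := by
    have hu9 : IsUnit ((6 * g + 9 : ℕ) : K) :=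
      GRA.unit_of (g := g) (isUnit_iff_ne_zero.2 hd) (by omega) le_rfl
    exact hu9.ne_zero
  obtain ⟨⟨f, hf1, hf2⟩, hdeg, -⟩ := hZD2 K g (6 * g + 9) R (by omega) hd1 hKr hzm
  have hroot : ∀ l, f.eval (β l) = 0 := by
    intro l
    obtain ⟨x, y, w, h1, h2, h3', h4, h5⟩ := hpt l
    obtain ⟨h, hh1, hh2⟩ := exists_hom hGLF g ζ S hS1 u Φ hΦ hu R hR ⟨zz K (6 * g + 9), hzm⟩ rfl
      (β l) x y w h1 h2 h3' h4 h5
    obtain ⟨e, G, he, hG, v, hv, hdet⟩ := hf2
    have h0 := hGDG g (6 * g + 9) (by omega) hd1 R hKr ⟨zz K (6 * g + 9), hzm⟩ rfl e G he hG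
      (β l) h hh1 hh2
    rw [hdet, Polynomial.eval_mul] at h0
    have hv' : v.eval (β l) ≠ 0 := (hv.map (Polynomial.evalRingHom (β l))).ne_zero
    exact (mul_eq_zero.1 h0).resolve_left hv'
  have hfe := prod_eq β hβ f hf1 (by rw [(hdeg f hf2).2]; omega) hroot
  rw [hfe] at hf2
  refine ⟨β, hβ, hf2, ?_⟩
  intro k _ φ
  have h := (hZDB K k φ g (6 * g + 9) R (by omega) hKr hzm).2.2 _ hf2
  rw [Polynomial.map_prod] at h
  simpa only [Polynomial.map_sub, Polynomial.map_X, Polynomial.map_C] using h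

end Pool.Agent.MG.G0


end

section

/-!
# POL: polarisation (PAPER_Q.md)
-/

open TensorProduct MvPolynomial

namespace Pool.Agent.MG.G0

namespace POL

theorem ones_apply {k : ℕ} (j : Fin k) : ones k j = 1 := rfl

section

variable {A : Type} [CommRing A] [Algebra ℂ A]

/-- A substitution. -/
noncomputable def sub {ι κ : Type} (f : ι → MvPolynomial κ A) :
    MvPolynomial ι A →ₐ[ℂ] MvPolynomial κ A :=
  (aeval f : MvPolynomial ι A →ₐ[A] MvPolynomial κ A).restrictScalars ℂ

theorem sub_C {ι κ : Type} (f : ι → MvPolynomial κ A) (a : A) : sub f (C a) = C a := by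
  change aeval f (C a) = C a
  rw [aeval_C]
  rfl

theorem sub_X {ι κ : Type} (f : ι → MvPolynomial κ A) (i : ι) : sub f (X i) = f i := by
  change aeval f (X i) = f i
  rw [aeval_X]

theorem sub_monomial {ι κ : Type} [Fintype ι] (f : ι → MvPolynomial κ A) (d : ι →₀ ℕ) (c : A) :
    sub f (monomial d c) = C c * ∏ i, f i ^ d i := by
  change aeval f (monomial d c) = _
  rw [aeval_monomial, Finsupp.prod_fintype _ _ fun i => pow_zero _]
  rfl

theorem prod_X {ι : Type} [Fintype ι] (d : ι → ℕ) (c : A) :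
    (C c * ∏ i, (X i : MvPolynomial ι A) ^ d i) =
      monomial (Finsupp.equivFunOnFinite.symm d) c := by
  rw [monomial_eq, Finsupp.prod_fintype _ _ fun i => pow_zero _]
  rfl

/-- Scaling of the variables. -/
theorem coeff_scale {ι : Type} [Fintype ι] (a : ι → A) (F : MvPolynomial ι A) (d : ι →₀ ℕ) :
    coeff d (sub (fun i => C (a i) * X i) F) = (∏ i, a i ^ d i) * coeff d F := by
  classical
  induction F using MvPolynomial.induction_on' with
  | monomial e c =>
    rw [sub_monomial]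
    simp only [mul_pow, Finset.prod_mul_distrib]
    have h1 : ∏ i, (C (a i) : MvPolynomial ι A) ^ e i = C (∏ i, a i ^ e i) := by
      rw [map_prod]
      simp only [map_pow]
    rw [h1, mul_left_comm, prod_X]
    have h2 : Finsupp.equivFunOnFinite.symm (e : ι → ℕ) = e := by
      ext i
      rfl
    rw [h2, coeff_C_mul, coeff_monomial]
    split_ifs with h
    · rw [h]
    · rw [mul_zero, mul_zero]
  | add p q hp hq => rw [map_add, coeff_add, coeff_add, hp, hq, mul_add]

/-- The three substitutions for additivity. -/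
theorem coeff_add3 {k : ℕ} (i : Fin k) (F : MvPolynomial (Fin k ⊕ Unit) A) :
    coeff (ones k) (sub (Sum.elim (fun j => (X j : MvPolynomial (Fin k) A)) fun _ => X i) F) =
      coeff (ones k) (sub (Sum.elim (fun j => (X j : MvPolynomial (Fin k) A)) fun _ => 0) F) +
      coeff (ones k) (sub (Sum.elim (fun j => if j = i then 0 else
        (X j : MvPolynomial (Fin k) A)) fun _ => X i) F) := by
  classical
  induction F using MvPolynomial.induction_on' with
  | monomial d c =>
    rw [sub_monomial, sub_monomial, sub_monomial, Fintype.prod_sum_type, Fintype.prod_sum_type,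
      Fintype.prod_sum_type]
    simp only [Sum.elim_inl, Sum.elim_inr, Finset.univ_unique, Finset.prod_singleton]
    change coeff (ones k) (C c * ((∏ j : Fin k, X j ^ d (Sum.inl j)) * X i ^ d (Sum.inr ()))) =
      coeff (ones k) (C c * ((∏ j : Fin k, X j ^ d (Sum.inl j)) * 0 ^ d (Sum.inr ()))) +
      coeff (ones k) (C c * ((∏ j : Fin k, (if j = i then 0 else X j) ^ d (Sum.inl j)) *
        X i ^ d (Sum.inr ())))
    have hX : (X i : MvPolynomial (Fin k) A) ^ d (Sum.inr ()) =
        ∏ j, X j ^ (if j = i then d (Sum.inr ()) else 0) := by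
      rw [Finset.prod_eq_single i, if_pos rfl]
      · intro j _ hj
        rw [if_neg hj, pow_zero]
      · intro h
        exact absurd (Finset.mem_univ i) h
    have h1 : C c * ((∏ j : Fin k, (X j : MvPolynomial (Fin k) A) ^ d (Sum.inl j)) *
        X i ^ d (Sum.inr ())) = monomial (Finsupp.equivFunOnFinite.symm fun j =>
          d (Sum.inl j) + if j = i then d (Sum.inr ()) else 0) c := by
      rw [hX, ← Finset.prod_mul_distrib, ← prod_X]
      simp only [pow_add]
    by_cases hb : d (Sum.inr ()) = 0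
    · have h3 : coeff (ones k) (C c * ((∏ j : Fin k, (if j = i then 0 else
          (X j : MvPolynomial (Fin k) A)) ^ d (Sum.inl j)) * X i ^ d (Sum.inr ()))) = 0 := by
        by_cases ha : d (Sum.inl i) = 0
        · have h4 : (∏ j : Fin k, (if j = i then 0 else
              (X j : MvPolynomial (Fin k) A)) ^ d (Sum.inl j)) =
              ∏ j : Fin k, (X j : MvPolynomial (Fin k) A) ^ d (Sum.inl j) := by
            refine Finset.prod_congr rfl fun j _ => ?_
            split_ifs with h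
            · rw [h, ha, pow_zero, pow_zero]
            · rfl
          rw [h4, h1, coeff_monomial, if_neg]
          intro h5
          have h6 := DFunLike.congr_fun h5 i
          rw [ones_apply] at h6
          change d (Sum.inl i) + (if i = i then d (Sum.inr ()) else 0) = 1 at h6
          rw [if_pos rfl, ha, hb] at h6
          exact absurd h6 (by norm_num)
        · rw [Finset.prod_eq_zero (Finset.mem_univ i) (by rw [if_pos rfl, zero_pow ha]), zero_mul,
            mul_zero, coeff_zero]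
      rw [h3, add_zero, hb, pow_zero, pow_zero]
    · rw [zero_pow hb, mul_zero, mul_zero, coeff_zero, zero_add]
      by_cases ha : d (Sum.inl i) = 0
      · have h4 : (∏ j : Fin k, (if j = i then 0 else
            (X j : MvPolynomial (Fin k) A)) ^ d (Sum.inl j)) =
            ∏ j : Fin k, (X j : MvPolynomial (Fin k) A) ^ d (Sum.inl j) := by
          refine Finset.prod_congr rfl fun j _ => ?_
          split_ifs with h
          · rw [h, ha, pow_zero, pow_zero]
          · rfl
        rw [h4]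
      · rw [Finset.prod_eq_zero (f := fun j => (if j = i then 0 else
            (X j : MvPolynomial (Fin k) A)) ^ d (Sum.inl j)) (Finset.mem_univ i)
            (by rw [if_pos rfl, zero_pow ha]), zero_mul,
            mul_zero, coeff_zero, h1, coeff_monomial, if_neg]
        intro h5
        have h6 := DFunLike.congr_fun h5 i
        rw [ones_apply] at h6
        change d (Sum.inl i) + (if i = i then d (Sum.inr ()) else 0) = 1 at h6
        rw [if_pos rfl] at h6
        omega
  | add p q hp hq =>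
    rw [map_add, map_add, map_add, coeff_add, coeff_add, coeff_add, hp, hq]
    ring

/-- The substitution `y ↦ y_1 + ... + y_m`. -/
theorem coeff_sumX (m : ℕ) : ∃ N : ℕ, 0 < N ∧ ∀ G : MvPolynomial Unit A,
    coeff (ones m) (sub (fun _ : Unit => ∑ j : Fin m, (X j : MvPolynomial (Fin m) A)) G) =
      N * coeff (Finsupp.single () m) G := by
  classical
  set S : Finset (Fin m → Fin m) := Finset.univ.filter fun f =>
    ∑ l, (Finsupp.single (f l) 1 : Fin m →₀ ℕ) = ones m with hS
  refine ⟨S.card, Finset.card_pos.2 ⟨id, ?_⟩, fun G => ?_⟩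
  · rw [hS, Finset.mem_filter]
    refine ⟨Finset.mem_univ _, ?_⟩
    ext j
    rw [ones_apply, Finsupp.finsetSum_apply, Finset.sum_eq_single j]
    · exact Finsupp.single_eq_same
    · intro l _ hl
      exact Finsupp.single_eq_of_ne (Ne.symm hl)
    · intro h
      exact absurd (Finset.mem_univ j) h
  induction G using MvPolynomial.induction_on' with
  | monomial d c =>
    rw [sub_monomial]
    simp only [Finset.univ_unique, Finset.prod_singleton]
    change coeff (ones m) (C c * (∑ j : Fin m, X j) ^ d ()) = _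
    rw [coeff_C_mul, Fintype.sum_pow, MvPolynomial.coeff_sum]
    have h1 : ∀ (n : ℕ) (p : Fin n → Fin m), (∏ l, (X (p l) : MvPolynomial (Fin m) A)) =
        monomial (∑ l, Finsupp.single (p l) 1) 1 := by
      intro n p
      rw [monomial_sum_one]
      rfl
    have h2 : coeff (Finsupp.single () m) (monomial d c) = if d () = m then c else 0 := by
      rw [coeff_monomial]
      refine if_congr ?_ rfl rfl
      constructor
      · intro h
        rw [h]
        exact Finsupp.single_eq_same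
      · intro h
        ext
        rw [← h]
        exact Finsupp.single_eq_same.symm
    rw [h2]
    simp only [h1, coeff_monomial]
    split_ifs with h
    · rw [h, Finset.sum_boole, hS, mul_comm]
    · rw [mul_zero, Finset.sum_eq_zero, mul_zero]
      intro p _
      rw [if_neg]
      intro h3
      apply h
      have h4 := congrArg Finsupp.degree h3
      rw [map_sum] at h4
      simp only [Finsupp.degree_single, Finset.sum_const, Finset.card_univ, Fintype.card_fin,
        smul_eq_mul, mul_one] at h4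
      rw [h4, Finsupp.degree_eq_sum]
      simp [ones_apply]
  | add p q hp hq =>
    rw [map_add, coeff_add, coeff_add, hp, hq, mul_add]

end

section

variable {g : ℕ} (E : Ev g) {I A : Type} [Fintype I] [Nonempty I] [CommRing A] [Algebra ℂ A]

/-- Substitutions in polynomials over the same ring. -/
theorem Fx_sub (hPSU : Stmt_PSU) (P : Subalgebra A (KK I A)) (hP : Good g P) {ι κ : Type}
    [Fintype ι] [Fintype κ] (q : ι → QR P) (f : ι → MvPolynomial κ A) :
    E.Φ (MvPolynomial κ A) I (bc C P) (cov (bc C P) (∑ i, f i • bcR C P (q i))) =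
      sub f (Fx E P q) := by
  have h := hPSU E P hP q (C : A →+* MvPolynomial κ A) (sub f) (sub_C f)
  rw [← h]
  congr 2
  refine Finset.sum_congr rfl fun i _ => ?_
  rw [sub_X]

theorem Fk_smul (hPSU : Stmt_PSU) (P : Subalgebra A (KK I A)) (hP : Good g P) {k : ℕ}
    (q q' : Fin k → QR P) (a : Fin k → A) (h : ∀ i, q' i = a i • q i) :
    Fk E P q' = (∏ i, a i) * Fk E P q := by
  rw [Fk_eq, Fk_eq]
  have h1 := Fx_sub E hPSU P hP q fun i => C (a i) * X i
  have h2 : Fx E P q' = sub (fun i => C (a i) * X i) (Fx E P q) := by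
    rw [← h1, Fx]
    congr 2
    refine Finset.sum_congr rfl fun i _ => ?_
    rw [h i, map_smulₛₗ, smul_smul, mul_comm]
  rw [h2, coeff_scale]
  congr 1
  refine Finset.prod_congr rfl fun i _ => ?_
  rw [ones_apply, pow_one]

theorem Fk_add (hPSU : Stmt_PSU) (P : Subalgebra A (KK I A)) (hP : Good g P) {k : ℕ}
    (q q' q'' : Fin k → QR P) (i : Fin k) (h1 : ∀ j, j ≠ i → q j = q' j)
    (h2 : ∀ j, j ≠ i → q j = q'' j) (h3 : q i = q' i + q'' i) :
    Fk E P q = Fk E P q' + Fk E P q'' := by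
  classical
  set r : Fin k ⊕ Unit → QR P := Sum.elim q' fun _ => q'' i with hr
  have e1 : Fx E P q =
      sub (Sum.elim (fun j => (X j : MvPolynomial (Fin k) A)) fun _ => X i) (Fx E P r) := by
    rw [← Fx_sub E hPSU P hP r, Fx, Fintype.sum_sum_type]
    congr 2
    simp only [Sum.elim_inl, Sum.elim_inr, Finset.univ_unique, Finset.sum_singleton, hr]
    rw [← Finset.add_sum_erase _ _ (Finset.mem_univ i),
      ← Finset.add_sum_erase _ _ (Finset.mem_univ i), h3, map_add, smul_add]
    have h4 : ∑ x ∈ Finset.univ.erase i, (X x : MvPolynomial (Fin k) A) •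
          (bcR (C : A →+* MvPolynomial (Fin k) A) P) (q x) =
        ∑ x ∈ Finset.univ.erase i, (X x : MvPolynomial (Fin k) A) •
          (bcR (C : A →+* MvPolynomial (Fin k) A) P) (q' x) :=
      Finset.sum_congr rfl fun j hj => by rw [h1 j (Finset.ne_of_mem_erase hj)]
    rw [h4]
    abel
  have e2 : Fx E P q' =
      sub (Sum.elim (fun j => (X j : MvPolynomial (Fin k) A)) fun _ => 0) (Fx E P r) := by
    rw [← Fx_sub E hPSU P hP r, Fx, Fintype.sum_sum_type]
    congr 2
    simp only [Sum.elim_inl, Sum.elim_inr, Finset.univ_unique, Finset.sum_singleton, hr,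
      zero_smul, add_zero]
  have e3 : Fx E P q'' =
      sub (Sum.elim (fun j => if j = i then 0 else (X j : MvPolynomial (Fin k) A))
        fun _ => X i) (Fx E P r) := by
    rw [← Fx_sub E hPSU P hP r, Fx, Fintype.sum_sum_type]
    congr 2
    simp only [Sum.elim_inl, Sum.elim_inr, Finset.univ_unique, Finset.sum_singleton, hr]
    rw [← Finset.add_sum_erase _ _ (Finset.mem_univ i),
      ← Finset.add_sum_erase _ _ (Finset.mem_univ i), if_pos rfl, zero_smul, zero_add]
    have h4 : ∑ x ∈ Finset.univ.erase i, (X x : MvPolynomial (Fin k) A) •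
          (bcR (C : A →+* MvPolynomial (Fin k) A) P) (q'' x) =
        ∑ x ∈ Finset.univ.erase i, (if x = i then 0 else (X x : MvPolynomial (Fin k) A)) •
          (bcR (C : A →+* MvPolynomial (Fin k) A) P) (q' x) :=
      Finset.sum_congr rfl fun j hj => by
        rw [if_neg (Finset.ne_of_mem_erase hj), ← h1 j (Finset.ne_of_mem_erase hj),
          ← h2 j (Finset.ne_of_mem_erase hj)]
    rw [h4]
    abel
  rw [Fk_eq, Fk_eq, Fk_eq, e1, e2, e3]
  exact coeff_add3 i _

end

end POL

theorem t_POL (hPSU : Stmt_PSU) (hKBC : Stmt_KBC) : Stmt_POL := by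
  classical
  intro g E I A _ _ _ _ P hP
  refine ⟨?_, ?_, ?_, ?_⟩
  · intro B _ _ φ k q
    set σ : MvPolynomial (Fin k) A →ₐ[ℂ] MvPolynomial (Fin k) B := mapAlgHom φ with hσ
    set φ' : A →+* MvPolynomial (Fin k) B := (C : B →+* MvPolynomial (Fin k) B).comp
      (φ : A →+* B) with hφ'
    have hc : ∀ a, σ (C a) = φ' a := fun a => by
      rw [hσ, mapAlgHom_apply, map_C]
      rfl
    have h1 := hPSU E P hP q φ' σ hc
    have hbc : bc (C : B →+* MvPolynomial (Fin k) B) (bc (φ : A →+* B) P) = bc φ' P :=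
      (hKBC.2.1 (φ : A →+* B) C P).symm
    have h2 := PSU.Phi_incR E hbc (∑ i, (X i : MvPolynomial (Fin k) B) •
      bcR C (bc (φ : A →+* B) P) (bcR (φ : A →+* B) P (q i)))
    have h3 : PSU.incR hbc (∑ i, (X i : MvPolynomial (Fin k) B) •
        bcR C (bc (φ : A →+* B) P) (bcR (φ : A →+* B) P (q i))) =
        ∑ i, σ (X i) • bcR φ' P (q i) := by
      rw [map_sum]
      refine Finset.sum_congr rfl fun i _ => ?_
      rw [map_smul, PSU.incR_bcR (φ : A →+* B) C φ' P hbc fun _ => rfl]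
      congr 1
      rw [hσ, mapAlgHom_apply, map_X]
    rw [h3, h1] at h2
    rw [Fk_eq, Fk_eq]
    change coeff (ones k) (E.Φ (MvPolynomial (Fin k) B) I _ (cov _ (∑ i,
      (X i : MvPolynomial (Fin k) B) • bcR C (bc (φ : A →+* B) P)
        (bcR (φ : A →+* B) P (q i))))) = _
    rw [← h2, hσ]
    exact coeff_map (φ : A →+* B) (Fx E P q) (ones k)
  · intro k
    refine ⟨{ toFun := fun q => Fk E P q
              map_update_add' := ?_
              map_update_smul' := ?_ }, fun q => rfl⟩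
    · intro _ q i x y
      refine POL.Fk_add E hPSU P hP _ _ _ i ?_ ?_ ?_
      · intro j hj
        rw [Function.update_of_ne hj, Function.update_of_ne hj]
      · intro j hj
        rw [Function.update_of_ne hj, Function.update_of_ne hj]
      · rw [Function.update_self, Function.update_self, Function.update_self]
    · intro _ q i c x
      rw [POL.Fk_smul E hPSU P hP (Function.update q i x) (Function.update q i (c • x))
        (Function.update 1 i c)]
      · rw [Finset.prod_update_of_mem (Finset.mem_univ i)]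
        simp
      · intro j
        rcases eq_or_ne j i with rfl | hj
        · rw [Function.update_self, Function.update_self, Function.update_self]
        · rw [Function.update_of_ne hj, Function.update_of_ne hj, Function.update_of_ne hj,
            Pi.one_apply, one_smul]
  · intro k q i hi
    have h1 := POL.Fx_sub E hPSU P hP q fun j => C ((Function.update 1 i 0 : Fin k → A) j) * X j
    have h2 : cov (bc C P) (∑ j, (C ((Function.update 1 i 0 : Fin k → A) j) * X j :
        MvPolynomial (Fin k) A) • bcR (C : A →+* MvPolynomial (Fin k) A) P (q j)) =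
        cov (bc C P) (∑ j, (X j : MvPolynomial (Fin k) A) •
          bcR (C : A →+* MvPolynomial (Fin k) A) P (q j)) := by
      rw [map_sum, map_sum]
      refine Finset.sum_congr rfl fun j _ => ?_
      rw [map_smul, map_smul]
      rcases eq_or_ne j i with rfl | hj
      · rw [hi, smul_zero, smul_zero]
      · rw [Function.update_of_ne hj, Pi.one_apply, map_one, one_mul]
    rw [h2] at h1
    rw [Fk_eq]
    change Fx E P q = _ at h1
    rw [h1, POL.coeff_scale]
    rw [Finset.prod_eq_zero (Finset.mem_univ i), zero_mul]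
    rw [Function.update_self, POL.ones_apply, pow_one]
  · intro q hq
    set G := Fx E P fun _ : Unit => q with hG
    have h1 : ∀ m : ℕ, 1 ≤ m → coeff (Finsupp.single () m) G = 0 := by
      intro m hm
      obtain ⟨N, hN, h2⟩ := POL.coeff_sumX (A := A) m
      have h3 := POL.Fx_sub E hPSU P hP (fun _ : Unit => q) fun _ : Unit =>
        ∑ j : Fin m, (X j : MvPolynomial (Fin m) A)
      have h4 : ∑ i : Unit, (∑ j : Fin m, (X j : MvPolynomial (Fin m) A)) •
            bcR (C : A →+* MvPolynomial (Fin m) A) P q =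
          ∑ j : Fin m, (X j : MvPolynomial (Fin m) A) •
            bcR (C : A →+* MvPolynomial (Fin m) A) P q := by
        rw [Finset.univ_unique, Finset.sum_singleton, Finset.sum_smul]
      rw [h4] at h3
      have h5 := h2 G
      rw [← h3] at h5
      have h6 := hq m hm
      rw [Fk_eq] at h6
      change coeff (ones m) (Fx E P fun _ : Fin m => q) = _ at h5
      rw [h6] at h5
      have h7 : IsUnit (N : A) := by
        have h8 : IsUnit (N : ℂ) := (Nat.cast_ne_zero.2 hN.ne').isUnit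
        have h9 := h8.map (algebraMap ℂ A)
        rwa [map_natCast] at h9
      exact (h7.mul_right_eq_zero).1 h5.symm
    have h2 : G = C (coeff 0 G) := by
      ext d
      rw [coeff_C]
      split_ifs with h
      · rw [← h]
      · have h3 : d = Finsupp.single () (d ()) := by
          ext
          exact Finsupp.single_eq_same.symm
        rw [h3]
        refine h1 _ (Nat.one_le_iff_ne_zero.2 fun h4 => h ?_)
        rw [h3, h4, Finsupp.single_zero]
    have h3 : bc (RingHom.id A) P = P := hKBC.2.2.1 P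
    have h4 : ∀ c : A, E.Φ A I P (cov P (c • q)) = coeff 0 G := by
      intro c
      have h5 := hPSU E P hP (fun _ : Unit => q) (RingHom.id A)
        ((aeval fun _ : Unit => c : MvPolynomial Unit A →ₐ[A] A).restrictScalars ℂ) fun a => by
          change aeval _ (C a) = a
          rw [aeval_C]
          rfl
      have h6 : ((aeval fun _ : Unit => c : MvPolynomial Unit A →ₐ[A] A).restrictScalars ℂ)
          (Fx E P fun _ : Unit => q) = coeff 0 G := by
        change aeval _ G = _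
        conv_lhs => rw [h2]
        rw [aeval_C]
        rfl
      have h7 : ∑ i : Unit, ((aeval fun _ : Unit => c : MvPolynomial Unit A →ₐ[A]
          A).restrictScalars ℂ) (X i) • bcR (RingHom.id A) P q =
          c • bcR (RingHom.id A) P q := by
        rw [Finset.univ_unique, Finset.sum_singleton]
        change aeval _ (X _) • _ = _
        rw [aeval_X]
      rw [h6] at h5
      rw [h7] at h5
      rw [← h5, ← PSU.Phi_incR E h3, map_smul (PSU.incR h3), PSU.incR_id]
    have h5 := h4 1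
    have h6 := h4 0
    rw [one_smul] at h5
    rw [zero_smul, map_zero] at h6
    rw [h5, h6]

end Pool.Agent.MG.G0


end

section

/-!
# TGB: vanishing if one of the points is in the intersection of the charts
-/

open TensorProduct

namespace Pool.Agent.MG.G0

namespace TGB

/-! ## Localisations -/

/-- A localisation of `R` at `ρ`, as a `B`-algebra. -/
structure LocA (B R : Type) [CommRing B] [CommRing R] [Algebra B R] (ρ : R) where
  /-- the ring -/
  U : Type
  [cr : CommRing U]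
  [al : Algebra B U]
  /-- the map -/
  u : R →ₐ[B] U
  un : IsUnit (u ρ)
  den : ∀ z : U, ∃ (n : ℕ) (r : R), z * u ρ ^ n = u r
  ker : ∀ r : R, u r = 0 → ∃ n : ℕ, ρ ^ n * r = 0
  lift : ∀ {U' : Type} [CommRing U'] [Algebra B U'] (u' : R →ₐ[B] U'), IsUnit (u' ρ) →
    ∃ φ : U →ₐ[B] U', φ.comp u = u'

attribute [instance] LocA.cr LocA.al

/-- The localisation exists. -/
noncomputable def locA (B : Type) {R : Type} [CommRing B] [CommRing R] [Algebra B R] (ρ : R) :
    LocA B R ρ where
  U := Localization.Away ρ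
  u := IsScalarTower.toAlgHom B R (Localization.Away ρ)
  un := IsLocalization.Away.algebraMap_isUnit ρ
  den z := by
    obtain ⟨⟨r, ⟨_, n, rfl⟩⟩, h⟩ := IsLocalization.surj (Submonoid.powers ρ) z
    refine ⟨n, r, ?_⟩
    rw [← map_pow]
    exact h
  ker r h := by
    obtain ⟨⟨_, n, rfl⟩, h⟩ := (IsLocalization.map_eq_zero_iff (Submonoid.powers ρ)
      (Localization.Away ρ) r).1 h
    exact ⟨n, h⟩
  lift u' hu' := by
    have h : ∀ y : Submonoid.powers ρ, IsUnit (u' y) := by
      rintro ⟨_, n, rfl⟩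
      change IsUnit (u' (ρ ^ n))
      rw [map_pow]
      exact hu'.pow n
    refine ⟨IsLocalization.liftAlgHom (M := Submonoid.powers ρ) (S := Localization.Away ρ)
      (f := u') h, AlgHom.ext fun r => ?_⟩
    exact IsLocalization.lift_eq h r

section

variable {B : Type} [CommRing B] {S : Bool → Type} [∀ j, CommRing (S j)]
  [∀ j, Algebra B (S j)] {T : Type} [CommRing T] [Algebra B T] {G : TGD B S T} {a b : ℕ}
  (F : PFun G a b) {A : Type} [CommRing A] [Algebra B A]

/-- The first of the two points of an algebra over `A ⊗ S`. -/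
noncomputable def pu {j : Bool} {U : Type} [CommRing U] [Algebra B U] (u : A ⊗[B] S j →ₐ[B] U) :
    S j →ₐ[B] U := u.comp Algebra.TensorProduct.includeRight

/-- The second point. -/
noncomputable def qu {j : Bool} (q : S j →ₐ[B] A) {U : Type} [CommRing U] [Algebra B U]
    (u : A ⊗[B] S j →ₐ[B] U) : S j →ₐ[B] U :=
  (u.comp (Algebra.TensorProduct.includeLeft : A →ₐ[B] A ⊗[B] S j)).comp q

theorem pu_apply {j : Bool} {U : Type} [CommRing U] [Algebra B U] (u : A ⊗[B] S j →ₐ[B] U)
    (f : S j) : pu u f = u (1 ⊗ₜ f) := rfl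

theorem qu_apply {j : Bool} (q : S j →ₐ[B] A) {U : Type} [CommRing U] [Algebra B U]
    (u : A ⊗[B] S j →ₐ[B] U) (f : S j) : qu q u f = u (q f ⊗ₜ 1) := rfl

theorem exq_tmul {j : Bool} (q : S j →ₐ[B] A) (c : A) (f : S j) : exq q (c ⊗ₜ f) = c * q f := by
  rw [exq, Algebra.TensorProduct.lift_tmul]
  rfl

theorem mem_span {j : Bool} (q : S j →ₐ[B] A) {U : Type} [CommRing U] [Algebra B U]
    (u : A ⊗[B] S j →ₐ[B] U) (r : A ⊗[B] S j) : u r - u (exq q r ⊗ₜ 1) ∈
      Ideal.span (Set.range fun f : S j => pu u f - qu q u f) := by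
  induction r using TensorProduct.induction_on with
  | zero =>
    rw [map_zero, map_zero, TensorProduct.zero_tmul, map_zero, sub_zero]
    exact zero_mem _
  | tmul c f =>
    have h : u (c ⊗ₜ f) - u (exq q (c ⊗ₜ f) ⊗ₜ 1) = u (c ⊗ₜ 1) * (pu u f - qu q u f) := by
      rw [exq_tmul, pu_apply, qu_apply, mul_sub, ← map_mul, ← map_mul,
        Algebra.TensorProduct.tmul_mul_tmul, Algebra.TensorProduct.tmul_mul_tmul, one_mul, mul_one,
        mul_one]
    rw [h]
    exact Ideal.mul_mem_left _ _ (Ideal.subset_span ⟨f, rfl⟩)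
  | add r r' h h' =>
    have e : u (r + r') - u (exq q (r + r') ⊗ₜ 1) = (u r - u (exq q r ⊗ₜ 1)) +
        (u r' - u (exq q r' ⊗ₜ 1)) := by
      rw [map_add, map_add, TensorProduct.add_tmul, map_add]
      ring
    rw [e]
    exact add_mem h h'

theorem disj {j : Bool} {q : S j →ₐ[B] A} {U : Type} [CommRing U] [Algebra B U]
    {u : A ⊗[B] S j →ₐ[B] U} {ρ : A ⊗[B] S j} (hρ : exq q ρ = 0) (hu : IsUnit (u ρ)) :
    DisjP (pu u) (qu q u) := by
  refine Ideal.eq_top_of_isUnit_mem _ ?_ hu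
  have h := mem_span q u ρ
  rwa [hρ, TensorProduct.zero_tmul, map_zero, sub_zero] at h

/-- The value of `F` at the pair of points given by `u`. -/
noncomputable def ev {j : Bool} (q : S j →ₐ[B] A) {U : Type} [CommRing U] [Algebra B U]
    (u : A ⊗[B] S j →ₐ[B] U) : U := F.e j U (pu u) (qu q u)

theorem ev_nat {j : Bool} {q : S j →ₐ[B] A} {U U' : Type} [CommRing U] [Algebra B U]
    [CommRing U'] [Algebra B U'] {u : A ⊗[B] S j →ₐ[B] U} {ρ : A ⊗[B] S j} (hρ : exq q ρ = 0)
    (hu : IsUnit (u ρ)) (φ : U →ₐ[B] U') : ev F q (φ.comp u) = φ (ev F q u) :=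
  F.nat j φ (pu u) (qu q u) (disj hρ hu)

/-- Power series as Laurent series. -/
noncomputable def pslB (B S : Type) [CommRing B] [CommRing S] [Algebra B S] :
    PowerSeries S →ₐ[B] LaurentSeries S :=
  { toRingHom := psl S
    commutes' := fun c => by
      change psl S (algebraMap B (PowerSeries S) c) = _
      rw [lsB_algebraMap, PowerSeries.algebraMap_apply]
      exact HahnSeries.ofPowerSeries_C _ }

theorem pslB_apply (B S : Type) [CommRing B] [CommRing S] [Algebra B S] (f : PowerSeries S) :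
    pslB B S f = psl S f := rfl

theorem psl_X (A : Type) [CommRing A] : psl A PowerSeries.X = HahnSeries.single 1 1 :=
  HahnSeries.ofPowerSeries_X

theorem psl_X_unit (A : Type) [CommRing A] : IsUnit (psl A PowerSeries.X) := by
  refine IsUnit.of_mul_eq_one (HahnSeries.single (-1) 1) ?_
  rw [psl_X, HahnSeries.single_mul_single]
  simp

theorem psl_C (A : Type) [CommRing A] (c : A) : psl A (PowerSeries.C c) = HahnSeries.C c :=
  HahnSeries.ofPowerSeries_C _

theorem psl_coeff {A : Type} [CommRing A] (f : PowerSeries A) (n : ℕ) :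
    (psl A f).coeff (n : ℤ) = PowerSeries.coeff n f := by
  rw [psl, HahnSeries.ofPowerSeries_apply_coeff]

theorem psl_map {A A' : Type} [CommRing A] [CommRing A'] (φ : A →+* A') (f : PowerSeries A) :
    psl A' (PowerSeries.map φ f) = lmap φ (psl A f) := by
  ext n
  rw [lmap_coeff]
  have h1 := PowerSeries.coeff_coe (PowerSeries.map φ f) n
  have h2 := PowerSeries.coeff_coe f n
  unfold psl
  rw [h1, h2]
  split_ifs
  · rw [map_zero]
  · rw [PowerSeries.coeff_map]

theorem mul_X_pow_coeff {A : Type} [CommRing A] (f : LaurentSeries A) (N : ℕ) (m : ℤ) :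
    (f * psl A PowerSeries.X ^ N).coeff m = f.coeff (m - N) := by
  have h : psl A PowerSeries.X ^ N = HahnSeries.single (N : ℤ) (1 : A) := by
    rw [psl_X, HahnSeries.single_pow]
    simp
  have e : m = (m - N) + N := by ring
  rw [h]
  nth_rewrite 1 [e]
  rw [HahnSeries.coeff_mul_single_add, mul_one]

/-- The function at the formal neighbourhood of the diagonal has zeros of order `a + b`. -/
theorem diag (hTFP : Stmt_TFP) (hTGA : Stmt_TGA) (ha : 1 ≤ a) (hb : 1 ≤ b) (j : Bool)
    (q : S j →ₐ[B] A) (h0 : S j →ₐ[B] PowerSeries A)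
    (hc : ∀ f, PowerSeries.constantCoeff (h0 f) = q f)
    (hx : h0 (G.x j) = PowerSeries.C (q (G.x j)) + PowerSeries.X)
    (P Q : S j →ₐ[B] LaurentSeries A) (hP : ∀ f, P f = psl A (h0 f))
    (hQ : ∀ f, Q f = HahnSeries.C (q f)) (n : ℤ) (hn : n < a + b) :
    (F.e j (LaurentSeries A) P Q).coeff n = 0 := by
  obtain ⟨h1, h1c, h1x, -⟩ := (hTFP G.inv (G.ch j) (A := S j)).2.1 (AlgHom.id B (S j))
    PowerSeries.X PowerSeries.constantCoeff_X
  have h2 := hTGA G F ha hb j ((pslB B (S j)).comp h1)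
    { (HahnSeries.C : S j →+* LaurentSeries (S j)) with
      commutes' := fun c => (lsB_algebraMap c).symm } h1 h1c h1x (fun f => rfl) (fun f => rfl) n hn
  set P1 := (pslB B (S j)).comp h1 with hP1
  set Q1 : S j →ₐ[B] LaurentSeries (S j) := { (HahnSeries.C : S j →+* LaurentSeries (S j)) with
      commutes' := fun c => (lsB_algebraMap c).symm } with hQ1
  have hd : DisjP P1 Q1 := by
    refine Ideal.eq_top_of_isUnit_mem _ (Ideal.subset_span ⟨G.x j, rfl⟩) ?_
    have e : P1 (G.x j) - Q1 (G.x j) = psl (S j) PowerSeries.X := by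
      change psl (S j) (h1 (G.x j)) - HahnSeries.C (G.x j) = _
      rw [h1x, map_add, psl_C]
      change HahnSeries.C (G.x j) + _ - HahnSeries.C (G.x j) = _
      ring
    change IsUnit (P1 (G.x j) - Q1 (G.x j))
    rw [e]
    exact psl_X_unit _
  have h3 := F.nat j (lmapB q) P1 Q1 hd
  have e1 : h0 = (PowerSeries.mapAlgHom q).comp h1 := by
    refine (hTFP G.inv (G.ch j) (A := A)).1 _ _ (fun f => ?_) ?_
    · rw [hc]
      change q f = PowerSeries.constantCoeff (PowerSeries.map (q : S j →+* A) (h1 f))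
      rw [← PowerSeries.coeff_zero_eq_constantCoeff_apply, PowerSeries.coeff_map,
        PowerSeries.coeff_zero_eq_constantCoeff_apply, h1c]
      rfl
    · rw [hx]
      change _ = PowerSeries.map (q : S j →+* A) (h1 (G.x j))
      rw [h1x, map_add, PowerSeries.map_C, PowerSeries.map_X]
      rfl
  have e2 : (lmapB q).comp P1 = P := by
    refine AlgHom.ext fun f => ?_
    rw [hP, e1]
    exact (psl_map (q : S j →+* A) (h1 f)).symm
  have e3 : (lmapB q).comp Q1 = Q := by
    refine AlgHom.ext fun f => ?_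
    rw [hQ]
    change lmap (q : S j →+* A) (HahnSeries.C f) = _
    rw [← psl_C, ← psl_map, PowerSeries.map_C, psl_C]
    rfl
  rw [e2, e3] at h3
  rw [h3, lmapB_coeff, h2, map_zero]

/-- The value at all pairs with second point `q` is given by an element of `A ⊗ S`. -/
theorem exists_F (hTFP : Stmt_TFP) (hTGA : Stmt_TGA) (hTGR : Stmt_TGR) (ha : 1 ≤ a) (hb : 1 ≤ b)
    (j : Bool) (q : S j →ₐ[B] A)
    (hy : ((1 : A) ⊗ₜ[B] G.x j - q (G.x j) ⊗ₜ[B] (1 : S j)) ∈ nonZeroDivisors (A ⊗[B] S j)) :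
    ∃ Fj : A ⊗[B] S j, ∀ {U : Type} [CommRing U] [Algebra B U] (u : A ⊗[B] S j →ₐ[B] U)
      (ρ : A ⊗[B] S j), exq q ρ = 0 → IsUnit (u ρ) → ev F q u = u Fj := by
  set y : A ⊗[B] S j := (1 : A) ⊗ₜ[B] G.x j - q (G.x j) ⊗ₜ[B] (1 : S j) with hyd
  have hyI : exq q y = 0 := by
    rw [hyd, map_sub, exq_tmul, exq_tmul, map_one, one_mul, mul_one, sub_self]
  have hyn : ∀ (n : ℕ) (z : A ⊗[B] S j), y ^ n * z = 0 → z = 0 := fun n z hz => by
    have h1 := pow_mem hy n
    exact (mem_nonZeroDivisors_iff.1 h1).1 z hz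
  let Ly := locA B y
  obtain ⟨N, r, hr⟩ := Ly.den (ev F q Ly.u)
  -- comparison with the other localisations
  have cmp : ∀ ρ, exq q ρ = 0 → ∀ (k : ℕ) (r1 : A ⊗[B] S j),
      ev F q (locA B ρ).u * (locA B ρ).u ρ ^ k = (locA B ρ).u r1 →
      ∃ m : ℕ, ρ ^ m * (ρ ^ k * r - y ^ N * r1) = 0 := by
    intro ρ hρ k r1 h1
    let Lr := locA B (ρ * y)
    have hun := Lr.un
    rw [map_mul] at hun
    have u1 : IsUnit (Lr.u ρ) := isUnit_of_mul_isUnit_left hun
    have u2 : IsUnit (Lr.u y) := isUnit_of_mul_isUnit_right hun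
    obtain ⟨φ1, hφ1⟩ := Ly.lift Lr.u u2
    obtain ⟨φ2, hφ2⟩ := (locA B ρ).lift Lr.u u1
    have a1 : ev F q Lr.u = φ1 (ev F q Ly.u) := by
      rw [← ev_nat F hyI Ly.un φ1, hφ1]
    have a2 : ev F q Lr.u = φ2 (ev F q (locA B ρ).u) := by
      rw [← ev_nat F hρ (locA B ρ).un φ2, hφ2]
    have a3 : ev F q Lr.u * Lr.u y ^ N = Lr.u r := by
      have := congrArg φ1 hr
      rw [map_mul, map_pow, ← a1] at this
      have e1 : φ1 (Ly.u y) = Lr.u y := by rw [← hφ1]; rfl
      have e2 : φ1 (Ly.u r) = Lr.u r := by rw [← hφ1]; rfl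
      rwa [e1, e2] at this
    have a4 : ev F q Lr.u * Lr.u ρ ^ k = Lr.u r1 := by
      have := congrArg φ2 h1
      rw [map_mul, map_pow, ← a2] at this
      have e1 : φ2 ((locA B ρ).u ρ) = Lr.u ρ := by rw [← hφ2]; rfl
      have e2 : φ2 ((locA B ρ).u r1) = Lr.u r1 := by rw [← hφ2]; rfl
      rwa [e1, e2] at this
    have a5 : Lr.u (ρ ^ k * r - y ^ N * r1) = 0 := by
      rw [map_sub, map_mul, map_mul, map_pow, map_pow, ← a3, ← a4]
      ring
    obtain ⟨m, hm⟩ := Lr.ker _ a5
    refine ⟨m, hyn m _ ?_⟩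
    rw [← hm]
    ring
  -- the formal point
  obtain ⟨h0, h0c, h0x, -⟩ := (hTFP G.inv (G.ch j) (A := A)).2.1 q
    PowerSeries.X PowerSeries.constantCoeff_X
  let h : A ⊗[B] S j →ₐ[A] PowerSeries A :=
    Algebra.TensorProduct.lift (Algebra.ofId A (PowerSeries A)) h0 fun _ _ => Commute.all _ _
  have ht : ∀ (c : A) (f : S j), h (c ⊗ₜ f) = PowerSeries.C c * h0 f := fun c f => by
    change (Algebra.TensorProduct.lift _ _ _) (c ⊗ₜ f) = _
    rw [Algebra.TensorProduct.lift_tmul]
    rfl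
  have hhc : ∀ z, PowerSeries.constantCoeff (h z) = exq q z := by
    intro z
    induction z using TensorProduct.induction_on with
    | zero => simp
    | tmul c f => rw [ht, map_mul, PowerSeries.constantCoeff_C, h0c, exq_tmul]
    | add z z' h1 h2 => rw [map_add, map_add, map_add, h1, h2]
  have hhx : h (1 ⊗ₜ[B] G.x j) = PowerSeries.C (q (G.x j)) + PowerSeries.X := by
    rw [ht, map_one, one_mul, h0x]
  have hhy : h y = PowerSeries.X := by
    rw [hyd, map_sub, hhx, ht, map_one, mul_one]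
    ring
  obtain ⟨-, -, reg⟩ := hTGR G.inv (G.ch j) (G.ft j) q h hhc hhx
  obtain ⟨r', hr'⟩ := reg N r (fun ρ hρ => by
      obtain ⟨k, r1, h1⟩ := (locA B ρ).den (ev F q (locA B ρ).u)
      obtain ⟨m, hm⟩ := cmp ρ hρ k r1 h1
      refine ⟨m + k, ρ ^ m * r1, ?_⟩
      have : ρ ^ (m + k) * r - y ^ N * (ρ ^ m * r1) = 0 := by
        rw [← hm]
        ring
      exact sub_eq_zero.1 this) (fun m hm => by
      let hB : A ⊗[B] S j →ₐ[B] PowerSeries A := h.restrictScalars B
      let w : A ⊗[B] S j →ₐ[B] LaurentSeries A := (pslB B A).comp hB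
      have hw : ∀ z, w z = psl A (h z) := fun z => rfl
      have hwy : IsUnit (w y) := by
        rw [hw, hhy]
        exact psl_X_unit A
      obtain ⟨Θ, hΘ⟩ := Ly.lift w hwy
      have b1 := ev_nat F hyI Ly.un Θ
      rw [hΘ] at b1
      have b2 : ∀ n : ℤ, n < a + b → (Θ (ev F q Ly.u)).coeff n = 0 := by
        intro n hn
        rw [← b1]
        refine diag F hTFP hTGA ha hb j q h0 h0c h0x (pu w) (qu q w) (fun f => ?_) (fun f => ?_)
          n hn
        · rw [pu_apply, hw, ht, map_one, one_mul]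
        · rw [qu_apply, hw, ht, map_one, mul_one, psl_C]
      have b3 := congrArg Θ hr
      rw [map_mul, map_pow] at b3
      have e1 : Θ (Ly.u y) = psl A PowerSeries.X := by
        have : Θ (Ly.u y) = w y := by rw [← hΘ]; rfl
        rw [this, hw, hhy]
      have e2 : Θ (Ly.u r) = psl A (h r) := by
        have : Θ (Ly.u r) = w r := by rw [← hΘ]; rfl
        rw [this, hw]
      rw [e1, e2] at b3
      rw [← psl_coeff, ← b3, mul_X_pow_coeff]
      exact b2 _ (by omega))
  change r = y ^ N * r' at hr'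
  refine ⟨r', fun {U} _ _ u ρ hρ hu => ?_⟩
  obtain ⟨k, r1, h1⟩ := (locA B ρ).den (ev F q (locA B ρ).u)
  obtain ⟨m, hm⟩ := cmp ρ hρ k r1 h1
  have c1 : ρ ^ m * (ρ ^ k * r' - r1) = 0 := by
    refine hyn N _ ?_
    rw [← hm, hr']
    ring
  have c2 : (locA B ρ).u (ρ ^ k * r' - r1) = 0 := by
    have := congrArg (locA B ρ).u c1
    rw [map_mul, map_pow, map_zero] at this
    exact ((locA B ρ).un.pow m).mul_left_cancel (by rw [this, mul_zero])
  have c3 : ev F q (locA B ρ).u = (locA B ρ).u r' := by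
    rw [map_sub, map_mul, map_pow] at c2
    refine ((locA B ρ).un.pow k).mul_right_cancel ?_
    rw [h1]
    linear_combination -c2
  obtain ⟨φ, hφ⟩ := (locA B ρ).lift u hu
  have c4 := ev_nat F hρ (locA B ρ).un φ
  rw [hφ, c3] at c4
  rw [c4, ← hφ]
  rfl

theorem tmp_tmul {j : Bool} (i : S j →ₐ[B] T) (c : A) (f : S j) :
    tmp A i (c ⊗ₜ f) = c ⊗ₜ i f := rfl

end

end TGB

theorem t_TGB (hTFP : Stmt_TFP) (hTGA : Stmt_TGA) (hTGR : Stmt_TGR) : Stmt_TGB := by
  intro B _ S _ _ T _ _ G a b F ha hb j A _ _ p q hd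
  let qj : ∀ j, S j →ₐ[B] A := fun j => q.comp (G.i j)
  let y : ∀ j, A ⊗[B] S j := fun j => (1 : A) ⊗ₜ[B] G.x j - qj j (G.x j) ⊗ₜ[B] (1 : S j)
  have hyT : ∀ j, tmp A (G.i j) (y j) = (1 : A) ⊗ₜ[B] G.i j (G.x j) -
      qj j (G.x j) ⊗ₜ[B] (1 : T) := fun j => by
    rw [map_sub, TGB.tmp_tmul, TGB.tmp_tmul, map_one]
  have hynT : ∀ j, tmp A (G.i j) (y j) ∈ nonZeroDivisors (A ⊗[B] T) := fun j => by
    rw [hyT]
    exact G.nz j A _
  have hyn : ∀ j, y j ∈ nonZeroDivisors (A ⊗[B] S j) := fun j => by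
    refine mem_nonZeroDivisors_iff.2 ⟨fun z hz => ?_, fun z hz => ?_⟩
    · refine G.inj j A ?_
      rw [map_zero]
      refine (mem_nonZeroDivisors_iff.1 (hynT j)).1 _ ?_
      rw [← map_mul, hz, map_zero]
    · refine G.inj j A ?_
      rw [map_zero]
      refine (mem_nonZeroDivisors_iff.1 (hynT j)).2 _ ?_
      rw [← map_mul, hz, map_zero]
  have hyI : ∀ j, exq (qj j) (y j) = 0 := fun j => by
    change exq (qj j) ((1 : A) ⊗ₜ[B] G.x j - qj j (G.x j) ⊗ₜ[B] (1 : S j)) = 0
    rw [map_sub, TGB.exq_tmul, TGB.exq_tmul, map_one, one_mul, mul_one, sub_self]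
  choose Fj hF using fun j => TGB.exists_F F hTFP hTGA hTGR ha hb j (qj j) (hyn j)
  -- comparison of the two charts
  obtain ⟨dd, hdd⟩ : ∃ dd, dd = tmp A (G.i true) (y true) * tmp A (G.i false) (y false) :=
    ⟨_, rfl⟩
  let L := TGB.locA B dd
  let P : T →ₐ[B] L.U := L.u.comp Algebra.TensorProduct.includeRight
  let Q : T →ₐ[B] L.U :=
    (L.u.comp (Algebra.TensorProduct.includeLeft : A →ₐ[B] A ⊗[B] T)).comp q
  have hPt : ∀ t, P t = L.u (1 ⊗ₜ t) := fun _ => rfl
  have hQt : ∀ t, Q t = L.u (q t ⊗ₜ 1) := fun _ => rfl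
  have hun : ∀ j, IsUnit (L.u (tmp A (G.i j) (y j))) := by
    have h : IsUnit (L.u (tmp A (G.i true) (y true) * tmp A (G.i false) (y false))) := by
      rw [← hdd]
      exact L.un
    rw [map_mul] at h
    rintro (_ | _)
    · exact isUnit_of_mul_isUnit_right h
    · exact isUnit_of_mul_isUnit_left h
  have hPQ : ∀ j, IsUnit (P (G.i j (G.x j)) - Q (G.i j (G.x j))) := fun j => by
    have h := hun j
    rwa [hyT, map_sub] at h
  have htr := F.trans P Q hPQ
  have hev : ∀ j, F.e j L.U (P.comp (G.i j)) (Q.comp (G.i j)) =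
      L.u (tmp A (G.i j) (Fj j)) := fun j => by
    have h := hF j (L.u.comp ((tmp A (G.i j)).restrictScalars B)) (y j) (hyI j) (hun j)
    have e1 : TGB.pu (L.u.comp ((tmp A (G.i j)).restrictScalars B)) = P.comp (G.i j) :=
      AlgHom.ext fun f => rfl
    have e2 : TGB.qu (qj j) (L.u.comp ((tmp A (G.i j)).restrictScalars B)) =
        Q.comp (G.i j) := by
      refine AlgHom.ext fun f => ?_
      change L.u (tmp A (G.i j) (qj j f ⊗ₜ 1)) = L.u (q (G.i j f) ⊗ₜ 1)
      rw [TGB.tmp_tmul, map_one]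
      rfl
    rw [TGB.ev, e1, e2] at h
    exact h
  rw [hev, hev] at htr
  have hinj : ∀ z, L.u z = 0 → z = 0 := fun z hz => by
    obtain ⟨n, hn⟩ := L.ker z hz
    have h1 := pow_mem (mul_mem (hynT true) (hynT false)) n
    rw [← hdd] at h1
    exact (mem_nonZeroDivisors_iff.1 h1).1 z hn
  have hgT : tmp A (G.i false) (Fj false) =
      ((q G.g ^ b) ⊗ₜ[B] (G.ΔT (G.i false (G.x false)) ^ a)) * tmp A (G.i true) (Fj true) := by
    refine sub_eq_zero.1 (hinj _ ?_)
    rw [map_sub, htr, map_mul, sub_eq_zero]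
    congr 1
    rw [hPt, hQt, ← map_pow, ← map_pow, ← map_mul]
    congr 1
    rw [Algebra.TensorProduct.tmul_pow, Algebra.TensorProduct.tmul_pow,
      Algebra.TensorProduct.tmul_mul_tmul, one_pow, one_pow, one_mul, mul_one]
    rfl
  have h1 : Fj true = 0 := G.ns A a (q G.g ^ b) (Fj true) (Fj false) ha
    ((G.gu.map q).pow b) hgT
  have h2 : Fj false = 0 := by
    refine G.inj false A ?_
    rw [hgT, h1, map_zero, map_zero, mul_zero]
  have h3 : ∀ j, Fj j = 0 := by
    rintro (_ | _)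
    · exact h2
    · exact h1
  -- a general pair
  let u : A ⊗[B] S j →ₐ[B] A := (exq p).restrictScalars B
  have hut : ∀ (c : A) (f : S j), u (c ⊗ₜ f) = c * p f := fun c f => TGB.exq_tmul p c f
  set E := F.e j A p (q.comp (G.i j)) with hE
  have hrad : ∀ f : S j, p f - qj j f ∈ (Ideal.span {E}).annihilator.radical := by
    intro f
    let ρ : A ⊗[B] S j := (1 : A) ⊗ₜ[B] f - qj j f ⊗ₜ[B] (1 : S j)
    have hρ : exq (qj j) ρ = 0 := by
      change exq (qj j) ((1 : A) ⊗ₜ[B] f - qj j f ⊗ₜ[B] (1 : S j)) = 0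
      rw [map_sub, TGB.exq_tmul, TGB.exq_tmul, map_one, one_mul, mul_one, sub_self]
    have huρ : u ρ = p f - qj j f := by
      change u ((1 : A) ⊗ₜ[B] f - qj j f ⊗ₜ[B] (1 : S j)) = _
      rw [map_sub, hut, hut, one_mul, map_one, mul_one]
    let M := TGB.locA B (u ρ)
    have k1 := hF j (M.u.comp u) ρ hρ M.un
    rw [h3, map_zero] at k1
    have k2 := F.nat j M.u p (q.comp (G.i j)) hd
    have k3 : TGB.pu (M.u.comp u) = M.u.comp p := by
      refine AlgHom.ext fun f => ?_
      rw [TGB.pu_apply]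
      change M.u (u (1 ⊗ₜ f)) = M.u (p f)
      rw [hut, one_mul]
    have k4 : TGB.qu (qj j) (M.u.comp u) = M.u.comp (q.comp (G.i j)) := by
      refine AlgHom.ext fun f => ?_
      rw [TGB.qu_apply]
      change M.u (u (qj j f ⊗ₜ 1)) = M.u (qj j f)
      rw [hut, map_one, mul_one]
    have k5 : M.u E = 0 := by
      rw [← k2, ← k3, ← k4]
      exact k1
    obtain ⟨n, hn⟩ := M.ker E k5
    refine ⟨n, ?_⟩
    rw [Submodule.mem_annihilator_span_singleton, smul_eq_mul, ← huρ]
    exact hn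
  have htop : (Ideal.span {E}).annihilator.radical = ⊤ := by
    rw [eq_top_iff, ← hd]
    refine Ideal.span_le.2 ?_
    rintro _ ⟨f, rfl⟩
    exact hrad f
  rw [Ideal.radical_eq_top] at htop
  have h4 : (1 : A) ∈ (Ideal.span {E}).annihilator := by
    rw [htop]
    trivial
  rw [Submodule.mem_annihilator_span_singleton, one_smul] at h4
  exact h4

end Pool.Agent.MG.G0


end

section

/-!
# TGT: the transformation of the coefficients of largest weight (PAPER_TG.md)
-/

open TensorProduct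

namespace Pool.Agent.MG.G0

namespace TGT

theorem gs_coeff_zero (A : Type) [CommRing A] (b : Bool) :
    PowerSeries.coeff 0 (gs A b) = 0 := by
  rw [gs, PowerSeries.coeff_mk, if_pos rfl]

theorem gs_const (A : Type) [CommRing A] (b : Bool) :
    PowerSeries.constantCoeff (gs A b) = 0 := by
  rw [← PowerSeries.coeff_zero_eq_constantCoeff_apply, gs_coeff_zero]

theorem gs_coeff_one (A : Type) [CommRing A] (b : Bool) :
    PowerSeries.coeff 1 (gs A b) = 1 := by
  rw [gs, PowerSeries.coeff_mk, if_neg one_ne_zero, if_pos rfl]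

theorem gs_coeff_add (A : Type) [CommRing A] (b : Bool) (n : ℕ) :
    PowerSeries.coeff (n + 2) (gs A b) = MvPolynomial.X (b, n) := by
  rw [gs, PowerSeries.coeff_mk, if_neg (by omega), if_neg (by omega)]
  rfl

theorem inverse_C {A σ : Type} [CommRing A] {a : A} (ha : IsUnit a) :
    Ring.inverse (MvPolynomial.C (σ := σ) a) = MvPolynomial.C (Ring.inverse a) := by
  obtain ⟨u, rfl⟩ := ha
  have h : (MvPolynomial.C (u : A) : MvPolynomial σ A) =
      ((Units.map (MvPolynomial.C (R := A) (σ := σ) : A →* MvPolynomial σ A) u :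
        (MvPolynomial σ A)ˣ) : MvPolynomial σ A) := rfl
  rw [h, Ring.inverse_unit, Ring.inverse_unit, ← map_inv]
  rfl

/-- The rescaling of a formal point. -/
noncomputable def rs {B S A : Type} [CommRing B] [CommRing S] [CommRing A] [Algebra B S]
    [Algebra B A] (l : A) (h : S →ₐ[B] PowerSeries A) : S →ₐ[B] PowerSeries A :=
  { toRingHom := (PowerSeries.rescale l).comp (h : S →+* PowerSeries A)
    commutes' := fun b => by
      change PowerSeries.rescale l (h (algebraMap B S b)) = _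
      rw [AlgHom.commutes]
      ext n
      rw [PowerSeries.coeff_rescale, PowerSeries.algebraMap_apply, PowerSeries.coeff_C]
      split_ifs with h
      · rw [h, pow_zero, one_mul]
      · rw [mul_zero] }

theorem rs_apply {B S A : Type} [CommRing B] [CommRing S] [CommRing A] [Algebra B S]
    [Algebra B A] (l : A) (h : S →ₐ[B] PowerSeries A) (f : S) :
    rs l h f = PowerSeries.rescale l (h f) := rfl

section

variable {B : Type} [CommRing B] {S : Bool → Type} [∀ j, CommRing (S j)]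
  [∀ j, Algebra B (S j)] {T : Type} [CommRing T] [Algebra B T]

/-- The universal formal point of the intersection. -/
structure IsH (G : TGD B S T) {A : Type} [CommRing A] [Algebra B A] (b : Bool) (p : T →ₐ[B] A)
    (H : T →ₐ[B] PowerSeries (MvPolynomial (Bool × ℕ) A)) : Prop where
  const : ∀ f, PowerSeries.constantCoeff (H f) = MvPolynomial.C (p f)
  val : H (G.i true (G.x true)) = PowerSeries.C (MvPolynomial.C (p (G.i true (G.x true)))) +
    gs A b
  fml : ∀ (f : T) (n : ℕ), PowerSeries.coeff n (H f) = ∑ k ∈ Finset.range (n + 1),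
    Ring.inverse ((k.factorial : ℕ) : MvPolynomial (Bool × ℕ) A) *
      MvPolynomial.C (p ((⇑G.ΔT)^[k] f)) * PowerSeries.coeff n (gs A b ^ k)
  lin : ∀ f, PowerSeries.coeff 1 (H f) = MvPolynomial.C (p (G.ΔT f))

variable {A : Type} [CommRing A] [Algebra B A]

theorem exH (hTFP : Stmt_TFP) (G : TGD B S T) (b : Bool) (p : T →ₐ[B] A) :
    ∃ H : T →ₐ[B] PowerSeries (MvPolynomial (Bool × ℕ) A), IsH G b p H := by
  have hT := hTFP G.inv G.chT (A := MvPolynomial (Bool × ℕ) A)
  obtain ⟨H, h1, h2, h3⟩ := hT.2.1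
    ((IsScalarTower.toAlgHom B A (MvPolynomial (Bool × ℕ) A)).comp p) (gs A b) (gs_const A b)
  refine ⟨H, h1, h2, h3, fun f => ?_⟩
  rw [hT.2.2 H f, h1, h2, map_add, PowerSeries.coeff_C, if_neg one_ne_zero, zero_add,
    gs_coeff_one, mul_one]
  rfl

/-- On the first chart the universal formal point is the given one. -/
theorem comp_true (hTFP : Stmt_TFP) (G : TGD B S T) {b : Bool} {p : T →ₐ[B] A}
    {H : T →ₐ[B] PowerSeries (MvPolynomial (Bool × ℕ) A)} (hH : IsH G b p H)
    {h : S true →ₐ[B] PowerSeries (MvPolynomial (Bool × ℕ) A)}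
    (hh : IsUP (G.x true) b (p.comp (G.i true)) h) : H.comp (G.i true) = h := by
  refine (hTFP G.inv (G.ch true) (A := MvPolynomial (Bool × ℕ) A)).1 _ _ (fun f => ?_) ?_
  · rw [hh.1]
    exact hH.const (G.i true f)
  · rw [hh.2]
    exact hH.val

/-- The coefficients of the transformed point. -/
noncomputable def co2 (G : TGD B S T) (H : T →ₐ[B] PowerSeries (MvPolynomial (Bool × ℕ) A))
    (l : A) (n : ℕ) : MvPolynomial (Bool × ℕ) A :=
  PowerSeries.coeff (n + 2) (rs (MvPolynomial.C l) (H.comp (G.i false)) (G.x false))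

theorem co2_eq (hTWT : Stmt_TWT) (G : TGD B S T) {b : Bool} {p : T →ₐ[B] A}
    {H : T →ₐ[B] PowerSeries (MvPolynomial (Bool × ℕ) A)} (hH : IsH G b p H) {l : A}
    (hl : l * p G.g = 1) (n : ℕ) (m : (Bool × ℕ) →₀ ℕ) (hm : n + 1 ≤ wt m) :
    MvPolynomial.coeff m (co2 G H l n - MvPolynomial.C (l ^ (n + 1)) * MvPolynomial.X (b, n)) =
      0 := by
  have e1 : co2 G H l n = MvPolynomial.C (l ^ (n + 2)) *
      PowerSeries.coeff (n + 2) (H (G.i false (G.x false))) := by
    rw [co2, rs_apply, PowerSeries.coeff_rescale, ← map_pow]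
    rfl
  have e2 : PowerSeries.coeff (n + 2) (H (G.i false (G.x false))) =
      MvPolynomial.C (p G.g) * MvPolynomial.X (b, n) +
      ∑ k ∈ Finset.range (n + 1), MvPolynomial.C (Ring.inverse (((k + 2).factorial : ℕ) : A) *
        p ((⇑G.ΔT)^[k + 2] (G.i false (G.x false)))) *
          PowerSeries.coeff (n + 2) (gs A b ^ (k + 2)) := by
    rw [hH.fml, Finset.sum_range_succ', Finset.sum_range_succ']
    have t0 : Ring.inverse ((Nat.factorial 0 : ℕ) : MvPolynomial (Bool × ℕ) A) *
        MvPolynomial.C (p ((⇑G.ΔT)^[0] (G.i false (G.x false)))) *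
        PowerSeries.coeff (n + 2) (gs A b ^ 0) = 0 := by
      rw [pow_zero, PowerSeries.coeff_one, if_neg (by omega), mul_zero]
    have t1 : Ring.inverse ((Nat.factorial (0 + 1) : ℕ) : MvPolynomial (Bool × ℕ) A) *
        MvPolynomial.C (p ((⇑G.ΔT)^[0 + 1] (G.i false (G.x false)))) *
        PowerSeries.coeff (n + 2) (gs A b ^ (0 + 1)) =
        MvPolynomial.C (p G.g) * MvPolynomial.X (b, n) := by
      rw [zero_add, Nat.factorial_one, Nat.cast_one, Ring.inverse_one, one_mul, pow_one,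
        gs_coeff_add]
      rfl
    rw [t0, t1, add_zero, add_comm]
    congr 1
    refine Finset.sum_congr rfl fun k _ => ?_
    rw [map_mul, ← inverse_C, map_natCast]
    have hu : IsUnit (((k + 2).factorial : ℕ) : B) := G.inv _ (Nat.factorial_ne_zero _)
    have := hu.map (algebraMap B A)
    rwa [map_natCast] at this
  have e3 : co2 G H l n - MvPolynomial.C (l ^ (n + 1)) * MvPolynomial.X (b, n) =
      ∑ k ∈ Finset.range (n + 1), MvPolynomial.C (l ^ (n + 2) *
        (Ring.inverse (((k + 2).factorial : ℕ) : A) *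
          p ((⇑G.ΔT)^[k + 2] (G.i false (G.x false))))) *
          PowerSeries.coeff (n + 2) (gs A b ^ (k + 2)) := by
    have e4 : l ^ (n + 1) = l ^ (n + 2) * p G.g := by
      rw [pow_succ l (n + 1), mul_assoc, hl, mul_one]
    rw [e1, e2, e4, mul_add, map_mul MvPolynomial.C (l ^ (n + 2)) (p G.g), mul_assoc,
      add_sub_cancel_left, Finset.mul_sum]
    refine Finset.sum_congr rfl fun k _ => ?_
    rw [map_mul MvPolynomial.C (l ^ (n + 2)), mul_assoc]
  rw [e3, MvPolynomial.coeff_sum]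
  refine Finset.sum_eq_zero fun k _ => ?_
  rw [MvPolynomial.coeff_C_mul, hTWT.2 b (k + 2) (n + 2) m (by omega), mul_zero]

/-- On the second chart the rescaled universal point is the image of the given one. -/
theorem comp_false (hTFP : Stmt_TFP) (G : TGD B S T) {b : Bool} {p : T →ₐ[B] A}
    {H : T →ₐ[B] PowerSeries (MvPolynomial (Bool × ℕ) A)} (hH : IsH G b p H)
    {h : S false →ₐ[B] PowerSeries (MvPolynomial (Bool × ℕ) A)}
    (hh : IsUP (G.x false) b (p.comp (G.i false)) h) {l : A} (hl : l * p G.g = 1)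
    (Ψ : MvPolynomial (Bool × ℕ) A →ₐ[A] MvPolynomial (Bool × ℕ) A)
    (hΨ : ∀ n, Ψ (MvPolynomial.X (b, n)) = co2 G H l n) (f : S false) :
    rs (MvPolynomial.C l) (H.comp (G.i false)) f =
      PowerSeries.map ((Ψ.restrictScalars B : MvPolynomial (Bool × ℕ) A →ₐ[B]
        MvPolynomial (Bool × ℕ) A) : MvPolynomial (Bool × ℕ) A →+* MvPolynomial (Bool × ℕ) A)
        (h f) := by
  have hC : ∀ a : A, Ψ (MvPolynomial.C a) = MvPolynomial.C a := fun a => Ψ.commutes a
  have key : rs (MvPolynomial.C l) (H.comp (G.i false)) =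
      (PowerSeries.mapAlgHom (Ψ.restrictScalars B)).comp h := by
    refine (hTFP G.inv (G.ch false) (A := MvPolynomial (Bool × ℕ) A)).1 _ _ (fun f => ?_) ?_
    · rw [AlgHom.comp_apply, PowerSeries.mapAlgHom_apply, rs_apply,
        ← PowerSeries.coeff_zero_eq_constantCoeff_apply,
        ← PowerSeries.coeff_zero_eq_constantCoeff_apply, PowerSeries.coeff_rescale,
        PowerSeries.coeff_map, pow_zero, one_mul, PowerSeries.coeff_zero_eq_constantCoeff_apply,
        PowerSeries.coeff_zero_eq_constantCoeff_apply, hh.1]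
      change PowerSeries.constantCoeff (H (G.i false f)) = Ψ (MvPolynomial.C _)
      rw [hH.const, hC]
      rfl
    · rw [AlgHom.comp_apply, PowerSeries.mapAlgHom_apply]
      ext1 n
      rw [PowerSeries.coeff_map, hh.2]
      rcases n with _ | _ | n
      · rw [rs_apply, PowerSeries.coeff_rescale, pow_zero, one_mul, map_add, gs_coeff_zero,
          add_zero, PowerSeries.coeff_zero_eq_constantCoeff_apply,
          PowerSeries.coeff_zero_eq_constantCoeff_apply]
        change PowerSeries.constantCoeff (H (G.i false (G.x false))) = Ψ _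
        rw [hH.const, PowerSeries.constantCoeff_C, hC]
        rfl
      · rw [zero_add, rs_apply, PowerSeries.coeff_rescale, pow_one, map_add, gs_coeff_one,
          PowerSeries.coeff_C, if_neg one_ne_zero, zero_add]
        change MvPolynomial.C l * PowerSeries.coeff 1 (H (G.i false (G.x false))) = Ψ 1
        rw [hH.lin, ← map_mul, map_one]
        change MvPolynomial.C (l * p G.g) = 1
        rw [hl, map_one]
      · rw [map_add, gs_coeff_add, PowerSeries.coeff_C, if_neg (by omega), zero_add]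
        change co2 G H l n = Ψ (MvPolynomial.X (b, n))
        rw [hΨ]
  rw [key, AlgHom.comp_apply, PowerSeries.mapAlgHom_apply]

end

end TGT

theorem t_TGT (hTFP : Stmt_TFP) (hTWT : Stmt_TWT) : Stmt_TGT := by
  intro B _ S _ _ T _ _ G w F A _ _ p q hu h k hh hk J hJ m hm
  obtain ⟨H, hH⟩ := TGT.exH hTFP G true p
  obtain ⟨K, hK⟩ := TGT.exH hTFP G false q
  -- the units
  obtain ⟨u₁, hu₁⟩ : IsUnit (p G.g) := G.gu.map p
  obtain ⟨u₂, hu₂⟩ : IsUnit (q G.g) := G.gu.map q
  set l₁ : A := ((u₁⁻¹ : Aˣ) : A) with hl₁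
  set l₂ : A := ((u₂⁻¹ : Aˣ) : A) with hl₂
  have h1 : l₁ * p G.g = 1 := by rw [← hu₁, hl₁, Units.inv_mul]
  have h2 : l₂ * q G.g = 1 := by rw [← hu₂, hl₂, Units.inv_mul]
  let Ψ : MvPolynomial (Bool × ℕ) A →ₐ[A] MvPolynomial (Bool × ℕ) A :=
    MvPolynomial.aeval fun v : Bool × ℕ =>
      if v.1 = true then TGT.co2 G H l₁ v.2 else TGT.co2 G K l₂ v.2
  have hΨ1 : ∀ n, Ψ (MvPolynomial.X (true, n)) = TGT.co2 G H l₁ n := fun n => by
    change MvPolynomial.aeval _ (MvPolynomial.X (true, n)) = _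
    rw [MvPolynomial.aeval_X, if_pos rfl]
  have hΨ2 : ∀ n, Ψ (MvPolynomial.X (false, n)) = TGT.co2 G K l₂ n := fun n => by
    change MvPolynomial.aeval _ (MvPolynomial.X (false, n)) = _
    rw [MvPolynomial.aeval_X, if_neg Bool.false_ne_true]
  -- disjointness
  have hd : ∀ j, IsUnit (PowerSeries.constantCoeff (H (G.i j (G.x j))) -
      PowerSeries.constantCoeff (K (G.i j (G.x j)))) := fun j => by
    rw [hH.const, hK.const, ← map_sub]
    exact (hu j).map (MvPolynomial.C (R := A) (σ := Bool × ℕ))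
  have hv : ∀ j, VPair (G.x j) (H.comp (G.i j)) (K.comp (G.i j)) := by
    intro j
    have hlin : IsUnit (G.ΔT (G.i j (G.x j))) := by
      rcases j
      · exact G.gu
      · rw [G.chT.one]
        exact isUnit_one
    refine ⟨?_, ?_, ?_⟩
    · change IsUnit (PowerSeries.coeff 1 (H (G.i j (G.x j))))
      rw [hH.lin]
      exact (hlin.map p).map (MvPolynomial.C (R := A) (σ := Bool × ℕ))
    · change IsUnit (PowerSeries.coeff 1 (K (G.i j (G.x j))))
      rw [hK.lin]
      exact (hlin.map q).map (MvPolynomial.C (R := A) (σ := Bool × ℕ))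
    · exact Ideal.eq_top_of_isUnit_mem _ (Ideal.subset_span ⟨G.x j, rfl⟩) (hd j)
  have hv' : VPair (G.x false) (h false) (k false) := by
    refine ⟨?_, ?_, ?_⟩
    · rw [(hh false).2, map_add, TGT.gs_coeff_one, PowerSeries.coeff_C, if_neg one_ne_zero,
        zero_add]
      exact isUnit_one
    · rw [(hk false).2, map_add, TGT.gs_coeff_one, PowerSeries.coeff_C, if_neg one_ne_zero,
        zero_add]
      exact isUnit_one
    · refine Ideal.eq_top_of_isUnit_mem _ (Ideal.subset_span ⟨G.x false, rfl⟩) ?_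
      change IsUnit (PowerSeries.constantCoeff (h false (G.x false)) -
        PowerSeries.constantCoeff (k false (G.x false)))
      rw [(hh false).1, (hk false).1, ← map_sub]
      exact (hu false).map (MvPolynomial.C (R := A) (σ := Bool × ℕ))
  -- agreement, homogeneity, naturality
  have a1 := F.agr H K hv hd
  rw [TGT.comp_true hTFP G hH (hh true), TGT.comp_true hTFP G hK (hk true)] at a1
  let U : Aˣ →* (MvPolynomial (Bool × ℕ) A)ˣ :=
    Units.map (MvPolynomial.C (R := A) (σ := Bool × ℕ) : A →* MvPolynomial (Bool × ℕ) A)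
  have a2 := F.hom false (H.comp (G.i false)) (K.comp (G.i false))
    (TGT.rs (MvPolynomial.C l₁) (H.comp (G.i false)))
    (TGT.rs (MvPolynomial.C l₂) (K.comp (G.i false))) (U u₁⁻¹) (U u₂⁻¹) (hv false)
    (fun f => rfl) (fun f => rfl)
  have a3 := F.nat false (Ψ.restrictScalars B) (h false) (k false)
    (TGT.rs (MvPolynomial.C l₁) (H.comp (G.i false)))
    (TGT.rs (MvPolynomial.C l₂) (K.comp (G.i false))) hv'
    (TGT.comp_false hTFP G hH (hh false) h1 Ψ hΨ1)
    (TGT.comp_false hTFP G hK (hk false) h2 Ψ hΨ2)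
  have e1 : ((U u₁⁻¹ : (MvPolynomial (Bool × ℕ) A)ˣ) : MvPolynomial (Bool × ℕ) A) =
      MvPolynomial.C l₁ := rfl
  have e2 : ((U u₂⁻¹ : (MvPolynomial (Bool × ℕ) A)ˣ) : MvPolynomial (Bool × ℕ) A) =
      MvPolynomial.C l₂ := rfl
  rw [e1, e2, a3] at a2
  set Fc := F.c false (MvPolynomial (Bool × ℕ) A) (h false) (k false) with hFc
  have a4 : F.c true (MvPolynomial (Bool × ℕ) A) (h true) (k true) =
      MvPolynomial.C ((l₁ * l₂) ^ w) * Ψ Fc := by
    rw [a1, ← a2, map_pow, map_mul]
    rfl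
  -- weights
  have a5 : MvPolynomial.coeff m (Ψ Fc) =
      l₁ ^ wtb true m * l₂ ^ wtb false m * MvPolynomial.coeff m Fc :=
    hTWT.1 Ψ (fun b => cond b l₁ l₂) (by
    rintro ⟨b, n⟩ m' hm'
    rcases b with _ | _
    · rw [hΨ2]
      exact TGT.co2_eq hTWT G hK h2 n m' hm'
    · rw [hΨ1]
      exact TGT.co2_eq hTWT G hH h1 n m' hm') Fc J (fun m' hm' => hJ false m' hm') m hm
  rw [a4, MvPolynomial.coeff_C_mul, a5]
  have e5 : p G.g ^ (w + wtb true m) * q G.g ^ (w + wtb false m) *
      ((l₁ * l₂) ^ w * (l₁ ^ wtb true m * l₂ ^ wtb false m * MvPolynomial.coeff m Fc)) =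
      (l₁ * p G.g) ^ (w + wtb true m) * (l₂ * q G.g) ^ (w + wtb false m) *
        MvPolynomial.coeff m Fc := by
    rw [mul_pow, mul_pow, mul_pow, pow_add, pow_add, pow_add, pow_add]
    ring
  rw [e5, h1, h2, one_pow, one_pow, one_mul, one_mul]

end Pool.Agent.MG.G0


end
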