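import Mathlib
import Pool.Agent.KDM.C08
import Pool.Agent.KDM.C15
import Pool.Agent.KDM.C24
import Pool.Agent.KDM.C28
import Pool.Agent.KDM.C39
import Pool.Agent.KDM.C45
import Pool.Agent.KDM.C54

/-! Parts: MG.WL.CEC, MG.WL.CL.FIN, MG.WL.DEA, MG.WL.TRNA, MG.WL.WTop, MG.WL.TRN, MG.WL.FGM, MG.WL.FGP, MG.WL.FG, MG.WL.LPI, MG.WL.GEO, MG.H2.NPT, MG.KX.DEN, MG.G0.TG.TCX -/

section

/-!
# CEC: the first Čech cohomology of an affine scheme vanishes, for star shaped covers
-/

open CategoryTheory CategoryTheory.Limits AlgebraicGeometry TopologicalSpace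

namespace Pool.Agent.MG.WL

namespace CEC

theorem rr_rr {X : Scheme.{0}} {U V W : X.Opens} (h : U ≤ V) (k : V ≤ W) (a : Γ(X, W)) :
    rs X h (rs X k a) = rs X (h.trans k) a := by
  change ((X.presheaf.map (homOfLE k).op ≫ X.presheaf.map (homOfLE h).op).hom) a = _
  rw [← X.presheaf.map_comp]
  rfl

variable {X : Scheme.{0}}

theorem basicOpen_rr {U V : X.Opens} (h : U ≤ V) (f : Γ(X, V)) :
    X.basicOpen (rs X h f) = U ⊓ X.basicOpen f :=
  X.basicOpen_res f (homOfLE h).op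

/-- A section of `O` on `V ⊆ U` extends to `U` after multiplication with a high power of `f`, if
`U ∩ D(f) ⊆ V`. -/
theorem extend_pow {T U V : X.Opens} (hU : IsAffineOpen U) (hV : IsAffineOpen V) (hVU : V ≤ U)
    (hUT : U ≤ T) (f : Γ(X, T)) (hf : U ⊓ X.basicOpen f ≤ V) (t : Γ(X, V)) :
    ∀ᶠ n : ℕ in Filter.atTop, ∃ y : Γ(X, U), rs X hVU y = rs X (hVU.trans hUT) f ^ n * t := by
  have h1 : X.basicOpen (rs X hUT f) ≤ V := by
    rw [basicOpen_rr]
    exact hf
  obtain ⟨n, y, hy⟩ := exists_eq_pow_mul_of_isAffineOpen X U hU (rs X hUT f) (rs X h1 t)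
  have hy' : rs X (X.basicOpen_le (rs X hUT f)) y =
      rs X (h1.trans (hVU.trans hUT)) f ^ n * rs X h1 t := by
    have h2 : rs X (X.basicOpen_le (rs X hUT f)) (rs X hUT f) =
        rs X (h1.trans (hVU.trans hUT)) f := rr_rr _ _ f
    rw [← h2]
    exact hy
  have h2 : X.basicOpen (rs X (hVU.trans hUT) f) ≤ X.basicOpen (rs X hUT f) := by
    rw [basicOpen_rr, basicOpen_rr]
    exact inf_le_inf_right _ hVU
  obtain ⟨m, hm⟩ := exists_pow_mul_eq_zero_of_res_basicOpen_eq_zero_of_isAffineOpen X hV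
    (rs X hVU y - rs X (hVU.trans hUT) f ^ n * t) (rs X (hVU.trans hUT) f) (by
      change rs X (X.basicOpen_le _) (rs X hVU y - rs X (hVU.trans hUT) f ^ n * t) = 0
      have h3 := congrArg (rs X h2) hy'
      rw [rr_rr, map_mul, map_pow, rr_rr, rr_rr] at h3
      rw [map_sub, rr_rr, map_mul, map_pow, rr_rr, sub_eq_zero]
      exact h3)
  refine Filter.eventually_atTop.2 ⟨n + m, fun N hN => ?_⟩
  obtain ⟨j, rfl⟩ := Nat.exists_eq_add_of_le hN
  refine ⟨rs X hUT f ^ (j + m) * y, ?_⟩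
  rw [map_mul, map_pow, rr_rr]
  rw [mul_sub, sub_eq_zero] at hm
  have h3 := congrArg (fun u => rs X (hVU.trans hUT) f ^ j * u) hm
  rw [← mul_assoc, ← pow_add] at h3
  rw [h3]
  ring

/-- The intersection of affine opens inside an affine open. -/
theorem aff_inf {T U V : X.Opens} (hT : IsAffineOpen T) (hU : IsAffineOpen U)
    (hV : IsAffineOpen V) (hUT : U ≤ T) (hVT : V ≤ T) : IsAffineOpen (U ⊓ V) := by
  have : IsAffine T := hT
  have h1 : IsAffineOpen (T.ι ⁻¹ᵁ U) :=
    hU.preimage_of_isOpenImmersion T.ι (by rwa [Scheme.Opens.opensRange_ι])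
  have h2 : IsAffineOpen (T.ι ⁻¹ᵁ V) :=
    hV.preimage_of_isOpenImmersion T.ι (by rwa [Scheme.Opens.opensRange_ι])
  have h3 := (h1.inf h2).image_of_isOpenImmersion T.ι
  rw [← Scheme.Hom.preimage_inf, Scheme.Hom.image_preimage_eq_opensRange_inf,
    Scheme.Opens.opensRange_ι, inf_eq_right.2 (inf_le_left.trans hUT)] at h3
  exact h3

/-- The first Čech cohomology of an affine scheme vanishes, for coverings by affine open subsets
`W` and `V i` such that the intersections of the `V i` are in `W`. -/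
theorem cech {T : X.Opens} (hT : IsAffineOpen T) {ι : Type} [Finite ι] {W : X.Opens}
    {E : ι → X.Opens} (hWT : W ≤ T) (hW : IsAffineOpen W) (hET : ∀ i, E i ≤ T)
    (hE : ∀ i, IsAffineOpen (E i)) (cov : ∀ x ∈ T, x ∈ W ∨ ∃ i, x ∈ E i)
    (dis : ∀ i j, i ≠ j → E i ⊓ E j ≤ W) (s : ∀ i, Γ(X, W ⊓ E i)) :
    ∃ (w : Γ(X, W)) (p : ∀ i, Γ(X, E i)), ∀ i, s i = rs X inf_le_left w + rs X inf_le_right (p i) :=
  by
  classical
  have hWE : ∀ i, IsAffineOpen (W ⊓ E i) := fun i => aff_inf hT hW (hE i) hWT (hET i)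
  have hWET : ∀ i, W ⊓ E i ≤ T := fun i => inf_le_left.trans hWT
  -- the ideal of the functions which make `s` trivial
  let I : Ideal Γ(X, T) :=
    { carrier := {f | ∃ (w : Γ(X, W)) (p : ∀ i, Γ(X, E i)), ∀ i,
        rs X (hWET i) f * s i = rs X inf_le_left w + rs X inf_le_right (p i)}
      add_mem' := by
        rintro f g ⟨w, p, h⟩ ⟨w', p', h'⟩
        refine ⟨w + w', fun i => p i + p' i, fun i => ?_⟩
        rw [map_add, add_mul, h, h', map_add, map_add]
        ring
      zero_mem' := ⟨0, fun _ => 0, fun i => by simp⟩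
      smul_mem' := by
        rintro c f ⟨w, p, h⟩
        refine ⟨rs X hWT c * w, fun i => rs X (hET i) c * p i, fun i => ?_⟩
        rw [smul_eq_mul, map_mul, mul_assoc, h, map_mul, map_mul, rr_rr, rr_rr, mul_add] }
  have key : ∀ f : Γ(X, T), (X.basicOpen f ≤ W ∨ ∃ i, X.basicOpen f ≤ E i) → ∃ n, f ^ n ∈ I := by
    rintro f (hf | ⟨j, hf⟩)
    · have h1 : ∀ i, ∀ᶠ n : ℕ in Filter.atTop, ∃ y : Γ(X, E i),
          rs X inf_le_right y = rs X (hWET i) f ^ n * s i := fun i =>
        extend_pow (hE i) (hWE i) inf_le_right (hET i) f (fun x hx => ⟨hf hx.2, hx.1⟩) (s i)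
      obtain ⟨n, hn⟩ := (Filter.eventually_all.2 h1).exists
      choose y hy using hn
      refine ⟨n, 0, fun i => y i, fun i => ?_⟩
      rw [map_pow, hy, map_zero, zero_add]
    · obtain ⟨n, w, hw⟩ := (extend_pow hW (hWE j) inf_le_left hWT f
        (fun x hx => ⟨hx.1, hf hx.2⟩) (s j)).exists
      have h1 : ∀ i, ∀ᶠ m : ℕ in Filter.atTop, ∃ y : Γ(X, E i), rs X inf_le_right y =
          rs X (hWET i) f ^ m * (rs X (hWET i) f ^ n * s i - rs X inf_le_left w) := by
        intro i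
        by_cases hij : i = j
        · subst hij
          refine Filter.Eventually.of_forall fun m => ⟨0, ?_⟩
          rw [hw, sub_self, mul_zero, map_zero]
        · exact extend_pow (hE i) (hWE i) inf_le_right (hET i) f
            (fun x hx => ⟨dis i j hij ⟨hx.1, hf hx.2⟩, hx.1⟩) _
      obtain ⟨m, hm⟩ := (Filter.eventually_all.2 h1).exists
      choose y hy using hm
      refine ⟨m + n, rs X hWT f ^ m * w, fun i => y i, fun i => ?_⟩
      rw [map_pow, hy, map_mul, map_pow, rr_rr]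
      ring
  have top : I = ⊤ := by
    rw [← Ideal.radical_eq_top, eq_top_iff, ← hT.self_le_iSup_basicOpen_iff
      (s := {f | X.basicOpen f ≤ W ∨ ∃ i, X.basicOpen f ≤ E i}) |>.1, Ideal.span_le]
    · intro f hf
      exact key f hf
    · intro x hxT
      rw [Opens.mem_iSup]
      rcases cov x hxT with hx | ⟨i, hx⟩
      · obtain ⟨f, hf, hxf⟩ := hT.exists_basicOpen_le ⟨x, hx⟩ hxT
        exact ⟨⟨f, Or.inl hf⟩, hxf⟩
      · obtain ⟨f, hf, hxf⟩ := hT.exists_basicOpen_le ⟨x, hx⟩ hxT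
        exact ⟨⟨f, Or.inr ⟨i, hf⟩⟩, hxf⟩
  obtain ⟨w, p, h⟩ := (Ideal.eq_top_iff_one I).1 top
  exact ⟨w, p, fun i => by rw [← h i, map_one, one_mul]⟩

end CEC

theorem t_CEC : Stmt_CEC := fun T hT _ _ _ _ hWT hW hET hE cov dis s =>
  CEC.cech hT hWT hW hET hE cov dis s

end Pool.Agent.MG.WL


end

section

/-!
# `FIN`: domains of rational functions on curves are affine

`Two.phi_existence`, `Two.locallyQuasiFinite_of_injective` and `Two.isFinite_phi` with weaker
hypotheses: dimension at most one and `x ∈ dom f ∨ x ∈ dom f⁻¹` for all points `x`.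
-/

open CategoryTheory AlgebraicGeometry IsLocalRing TopologicalSpace
open Pool.Agent.MG.Two Pool.Agent.MG.W Pool.Agent.MG.W.W0 Pool.Agent.MG.One

namespace Pool.Agent.MG.WL.CL

namespace FIN_

open Polynomial

variable {X : Scheme.{0}} [IsIntegral X] {k : Type} [Field k] (π : X ⟶ Sp k)

lemma forall_mem_dom (f : X.functionField) (hv : ∀ x, x ∈ dom f ∨ x ∈ dom f⁻¹)
    (hf : f ≠ 0) {R : Type} [CommRing R] [IsLocalRing R] {K : Type} [Field K] [Algebra R K]
    (hinj : Function.Injective (algebraMap R K))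
    (l : Spec (.of R) ⟶ X) (i₁ : Spec (.of K) ⟶ (dom f).toScheme)
    (i₂ : Spec (.of R) ⟶ Spec (.of (Polynomial k)))
    (h1 : Spec.map (CommRingCat.ofHom (algebraMap R K)) ≫ l = i₁ ≫ (dom f).ι)
    (h2 : i₁ ≫ phi π f = Spec.map (CommRingCat.ofHom (algebraMap R K)) ≫ i₂)
    (y : Spec (.of R)) : l y ∈ dom f := by
  apply forall_mem_of_closedPoint_mem
  rcases hv (l (closedPoint R)) with hx | hx
  · exact hx
  set j : Spec (.of K) ⟶ Spec (.of R) := Spec.map (CommRingCat.ofHom (algebraMap R K)) with hj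
  have hV2 : (⊤ : (Spec (.of R)).Opens) ≤ l ⁻¹ᵁ (dom f⁻¹) := fun y _ =>
    forall_mem_of_closedPoint_mem l _ hx y
  have hjV2 : (⊤ : (Spec (.of K)).Opens) ≤ (j ≫ l) ⁻¹ᵁ (dom f⁻¹) := fun y _ => by
    rw [Scheme.Hom.comp_preimage]
    exact hV2 trivial
  have hjV2' : (⊤ : (Spec (.of K)).Opens) ≤ (i₁ ≫ (dom f).ι) ⁻¹ᵁ (dom f⁻¹) := h1 ▸ hjV2
  have hV1' : (⊤ : (Spec (.of K)).Opens) ≤ (i₁ ≫ (dom f).ι) ⁻¹ᵁ (dom f) := by
    rw [Scheme.Hom.comp_preimage, Scheme.Opens.ι_preimage_self]; exact le_pre_top i₁ ⊤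
  set b := pb l f⁻¹ ⊤ hV2 with hb
  set a := i₂.appTop ((Scheme.ΓSpecIso (.of (Polynomial k))).inv Polynomial.X) with ha
  have hja : j.appTop a = pb (i₁ ≫ (dom f).ι) f ⊤ hV1' := by
    rw [← comp_phi_X π f i₁, h2, ha, Scheme.Hom.comp_appTop]
    rfl
  have hjb : j.appTop b = pb (i₁ ≫ (dom f).ι) f⁻¹ ⊤ hjV2' := by
    rw [hb, pb_comp j l f⁻¹ hV2 hjV2]
    exact pb_congr h1 _ _ _ _
  have hab : a * b = 1 := by
    have hinj' : Function.Injective j.appTop := by
      have e1 := Scheme.ΓSpecIso_inv_naturality (CommRingCat.ofHom (algebraMap R K))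
      have e2 : j.appTop = (Scheme.ΓSpecIso (.of R)).hom ≫ CommRingCat.ofHom (algebraMap R K) ≫
          (Scheme.ΓSpecIso (.of K)).inv := by
        rw [e1, Iso.hom_inv_id_assoc]
      rw [e2]
      intro x y hxy
      have h3 : (Scheme.ΓSpecIso (.of K)).inv (algebraMap R K ((Scheme.ΓSpecIso (.of R)).hom x)) =
        (Scheme.ΓSpecIso (.of K)).inv (algebraMap R K ((Scheme.ΓSpecIso (.of R)).hom y)) := hxy
      have h4 := (ConcreteCategory.bijective_of_isIso (Scheme.ΓSpecIso (.of K)).inv).1 h3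
      exact (ConcreteCategory.bijective_of_isIso (Scheme.ΓSpecIso (.of R)).hom).1 (hinj h4)
    apply hinj'
    rw [map_mul, hja, hjb, map_one]
    exact pb_mul_inv _ f hf _ _ _
  have hu : IsUnit b := IsUnit.of_mul_eq_one_right a hab
  have hbo := Scheme.basicOpen_appLE l ⊤ (dom f⁻¹) hV2 (sec f⁻¹)
  have hbo' : (Spec (.of R)).basicOpen b = ⊤ := by
    simpa using Scheme.basicOpen_of_isUnit _ hu
  have hmem : closedPoint R ∈ (Spec (.of R)).basicOpen b := by
    rw [hbo']; trivial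
  rw [hb, pb, hbo] at hmem
  have hmem2 : l (closedPoint R) ∈ X.basicOpen (sec f⁻¹) := hmem.2
  have hmem3 := (Scheme.mem_basicOpen X (sec f⁻¹) _ hx).mp hmem2
  exact mem_dom_of_isUnit f _ hx hmem3

theorem phi_existence (f : X.functionField) (hv : ∀ x, x ∈ dom f ∨ x ∈ dom f⁻¹)
    (hf : f ≠ 0) [UniversallyClosed π] : ValuativeCriterion.Existence (phi π f) := by
  have hπ : ValuativeCriterion.Existence π := by
    have : (@UniversallyClosed) π := inferInstance
    rw [UniversallyClosed.eq_valuativeCriterion] at this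
    exact this.1
  intro S
  have hsq : CommSq (S.i₁ ≫ (dom f).ι) (Spec.map (CommRingCat.ofHom (algebraMap S.R S.K))) π
      (S.i₂ ≫ Spec.map (CommRingCat.ofHom (Polynomial.C : k →+* Polynomial k))) := ⟨by
    rw [Category.assoc, ← phi_comp, ← Category.assoc, S.commSq.w, Category.assoc]⟩
  obtain ⟨⟨l, hl1, hl2⟩⟩ := hπ { R := S.R, K := S.K, commSq := hsq, .. }
  have hmem := forall_mem_dom π f hv hf (IsFractionRing.injective S.R S.K) l S.i₁ S.i₂ hl1
    S.commSq.w
  have hr : Set.range l ⊆ Set.range (dom f).ι := by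
    rintro _ ⟨y, rfl⟩
    rw [Scheme.Opens.range_ι]
    exact hmem y
  have hfst : Spec.map (CommRingCat.ofHom (algebraMap S.R S.K)) ≫
      IsOpenImmersion.lift (dom f).ι l hr = S.i₁ := by
    rw [← cancel_mono (dom f).ι, Category.assoc, IsOpenImmersion.lift_fac, hl1]
  refine ⟨⟨IsOpenImmersion.lift (dom f).ι l hr, hfst, ?_⟩⟩
  apply cancel_Spec_map (IsFractionRing.injective S.R S.K)
  rw [← Category.assoc, hfst]
  exact S.commSq.w

/-- A domain all of whose local rings have dimension at most one has dimension at most one. -/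
lemma dimensionLEOne_of_stalks {Y : Scheme.{0}} [IsIntegral Y] (hd : Dim1 Y) {V : Y.Opens}
    (hV : IsAffineOpen V) [Nonempty V] : Ring.DimensionLEOne Γ(Y, V) := by
  refine ⟨fun {P} hP hPp => ?_⟩
  obtain ⟨M, hM, hPM⟩ := P.exists_le_maximal hPp.ne_top
  have hMp : M.IsPrime := hM.isPrime
  have hx : hV.fromSpec ⟨M, hMp⟩ ∈ V := (hV.isoSpec.inv _).2
  let := TopCat.Presheaf.algebra_section_stalk Y.presheaf ⟨hV.fromSpec ⟨M, hMp⟩, hx⟩
  have hloc : IsLocalization.AtPrime (Y.presheaf.stalk (hV.fromSpec ⟨M, hMp⟩)) M :=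
    hV.isLocalization_stalk' ⟨M, hMp⟩ hx
  have hdisj : Disjoint (M.primeCompl : Set Γ(Y, V)) (P : Set Γ(Y, V)) := by
    rw [Set.disjoint_left]
    intro x hx hx'
    exact hx (hPM hx')
  have hPp' : (P.map (algebraMap Γ(Y, V) (Y.presheaf.stalk (hV.fromSpec ⟨M, hMp⟩)))).IsPrime :=
    IsLocalization.isPrime_of_isPrime_disjoint M.primeCompl _ P hPp hdisj
  have hcomap : (P.map (algebraMap Γ(Y, V) (Y.presheaf.stalk (hV.fromSpec ⟨M, hMp⟩)))).comap
      (algebraMap Γ(Y, V) (Y.presheaf.stalk (hV.fromSpec ⟨M, hMp⟩))) = P :=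
    IsLocalization.under_map_of_isPrime_disjoint M.primeCompl _ hPp hdisj
  rcases hd _ _ hPp' with h0 | h0
  · exfalso
    rw [h0] at hcomap
    have hinj : Function.Injective
        (algebraMap Γ(Y, V) (Y.presheaf.stalk (hV.fromSpec ⟨M, hMp⟩))) :=
      IsLocalization.injective _ M.primeCompl_le_nonZeroDivisors
    apply hP
    rw [← hcomap]
    exact (RingHom.injective_iff_ker_eq_bot _).mp hinj
  · have h5 : (IsLocalRing.maximalIdeal (Y.presheaf.stalk (hV.fromSpec ⟨M, hMp⟩))).comap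
        (algebraMap Γ(Y, V) (Y.presheaf.stalk (hV.fromSpec ⟨M, hMp⟩))) = M :=
      IsLocalization.AtPrime.under_maximalIdeal (Y.presheaf.stalk (hV.fromSpec ⟨M, hMp⟩)) M
    rw [h0, h5] at hcomap
    rwa [← hcomap]

/-- The condition `Dim1` passes to open subschemes. -/
lemma dim1_opens (hd : Dim1 X) (U : X.Opens) : Dim1 U.toScheme := by
  intro x P hP
  set e := (U.stalkIso x).commRingCatIsoToRingEquiv with he
  have hP' : (P.comap e.symm.toRingHom).IsPrime := Ideal.comap_isPrime _ _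
  rcases hd x.1 _ hP' with h | h
  · left
    rw [eq_bot_iff]
    intro a ha
    have h1 : e a ∈ P.comap e.symm.toRingHom := by
      rw [Ideal.mem_comap]
      have : e.symm.toRingHom (e a) = a := e.symm_apply_apply a
      rw [this]; exact ha
    rw [h] at h1
    have h2 : e a = 0 := by simpa using h1
    have h3 : a = 0 := by simpa using h2
    rw [h3]; exact Ideal.zero_mem _
  · right
    apply le_antisymm (IsLocalRing.le_maximalIdeal hP.ne_top)
    intro a ha
    have h1 : e a ∈ maximalIdeal (X.presheaf.stalk x.1) := by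
      rw [mem_maximalIdeal, mem_nonunits_iff] at ha ⊢
      intro hu
      apply ha
      exact (MulEquiv.isUnit_map e).mp hu
    rw [← h, Ideal.mem_comap] at h1
    have : e.symm.toRingHom (e a) = a := e.symm_apply_apply a
    rwa [this] at h1

theorem locallyQuasiFinite_of_injective {Y : Scheme.{0}} [IsIntegral Y] (p : Y ⟶ Spec (.of k))
    [LocallyOfFiniteType p] (hdim : Dim1 Y)
    (g : Y ⟶ Spec (.of k[X])) (hg : g ≫ Spec.map (CommRingCat.ofHom (C : k →+* k[X])) = p)
    (hinj : Function.Injective g.appTop) : LocallyQuasiFinite g := by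
  rw [HasRingHomProperty.iff_of_iSup_eq_top (P := @LocallyQuasiFinite)
    (fun V : Y.affineOpens => V) (iSup_affineOpens_eq_top Y)]
  intro V
  by_cases hne : Nonempty V.1
  swap
  · have hbot : V.1 = ⊥ := by
      ext x
      simp only [Opens.coe_bot, Set.mem_empty_iff_false, iff_false]
      intro hx
      exact hne ⟨⟨x, hx⟩⟩
    have hs : Subsingleton Γ(Y, V.1) := by
      rw [hbot]; infer_instance
    apply RingHom.QuasiFinite.of_finite
    exact RingHom.Finite.of_surjective _ (fun y => ⟨0, Subsingleton.elim _ _⟩)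
  · have hV := V.2
    have hd : Ring.DimensionLEOne Γ(Y, V.1) := dimensionLEOne_of_stalks hdim hV
    have hψinj : Function.Injective (g.appLE ⊤ V.1 (le_pre_top g V.1)) := by
      have h1 : g.appLE ⊤ V.1 (le_pre_top g V.1) =
          g.appTop ≫ Y.presheaf.map (homOfLE le_top).op := rfl
      rw [h1]
      intro a b hab
      apply hinj
      apply map_injective_of_isIntegral Y (homOfLE le_top : V.1 ⟶ ⊤)
      exact hab
    let ψ : k[X] →+* Γ(Y, V.1) :=
      (g.appLE ⊤ V.1 (le_pre_top g V.1)).hom.comp (Scheme.ΓSpecIso (.of k[X])).inv.hom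
    have hψ : ψ.QuasiFinite := by
      have hft := p.finiteType_appLE (isAffineOpen_top _) hV (le_pre_top p V.1)
      have hft2 : (ψ.comp C).FiniteType := by
        have h2 : ψ.comp C = (p.appLE ⊤ V.1 (le_pre_top p V.1)).hom.comp
            (Scheme.ΓSpecIso (.of k)).inv.hom := by
          have h3 : CommRingCat.ofHom (C : k →+* k[X]) ≫ (Scheme.ΓSpecIso (.of k[X])).inv ≫
              g.appLE ⊤ V.1 (le_pre_top g V.1) =
              (Scheme.ΓSpecIso (.of k)).inv ≫ p.appLE ⊤ V.1 (le_pre_top p V.1) := by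
            subst hg
            rw [← Category.assoc, Scheme.ΓSpecIso_inv_naturality, Category.assoc,
              ← Scheme.Hom.appLE_comp_appLE (U := ⊤) (V := ⊤) (W := V.1) (f := g)
                (g := Spec.map (CommRingCat.ofHom (C : k →+* k[X])))
                (e₁ := le_pre_top _ _) (e₂ := le_pre_top g V.1)]
            rfl
          exact congrArg CommRingCat.Hom.hom h3
        rw [h2]
        exact hft.comp (RingHom.FiniteType.of_surjective _
          (ConcreteCategory.bijective_of_isIso (Scheme.ΓSpecIso (.of k)).inv).2)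
      algebraize [ψ, ψ.comp C]
      have hinj' : Function.Injective (algebraMap k[X] Γ(Y, V.1)) := by
        intro a b hab
        exact (ConcreteCategory.bijective_of_isIso (Scheme.ΓSpecIso (.of k[X])).inv).1
          (hψinj hab)
      exact quasiFinite_of_dimensionLEOne (k := k) hinj'
    exact RingHom.QuasiFinite.of_comp hψ

theorem isFinite_phi [IsProper π] (hdim : Dim1 X) {f : X.functionField}
    (hf : Transc π f) (hv : ∀ x, x ∈ dom f ∨ x ∈ dom f⁻¹) : IsFinite (phi π f) := by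
  have hln : IsLocallyNoetherian X := LocallyOfFiniteType.isLocallyNoetherian π
  have hcomp := phi_comp π f
  have h1 : LocallyOfFiniteType (phi π f ≫ Spec.map (CommRingCat.ofHom (C : k →+* k[X]))) := by
    rw [hcomp]; infer_instance
  have h2 : QuasiCompact (phi π f ≫ Spec.map (CommRingCat.ofHom (C : k →+* k[X]))) := by
    rw [hcomp]; infer_instance
  have h3 : IsSeparated (phi π f ≫ Spec.map (CommRingCat.ofHom (C : k →+* k[X]))) := by
    rw [hcomp]; infer_instance
  have h4 : LocallyOfFiniteType (phi π f) := locallyOfFiniteType_of_comp _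
    (Spec.map (CommRingCat.ofHom (C : k →+* k[X])))
  have h5 : QuasiCompact (phi π f) := QuasiCompact.of_comp _
    (Spec.map (CommRingCat.ofHom (C : k →+* k[X])))
  have h6 : IsSeparated (phi π f) := IsSeparated.of_comp _
    (Spec.map (CommRingCat.ofHom (C : k →+* k[X])))
  have h7 : UniversallyClosed (phi π f) := UniversallyClosed.of_valuativeCriterion _
    (phi_existence π f hv (hf.ne_zero π))
  have h8 : IsProper (phi π f) := { }
  have h9 : LocallyQuasiFinite (phi π f) := by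
    refine locallyQuasiFinite_of_injective ((dom f).ι ≫ π) (dim1_opens hdim _) (phi π f)
      hcomp ?_
    rw [phi_appTop]
    intro a b hab
    have e1 := (ConcreteCategory.bijective_of_isIso (dom f).topIso.inv).1 hab
    have e2 := polyMap_injective π hf e1
    exact (ConcreteCategory.bijective_of_isIso (Scheme.ΓSpecIso (.of k[X])).hom).1 e2
  exact IsFinite.of_isProper_of_locallyQuasiFinite _

end FIN_

theorem t_FIN : Stmt_FIN := by
  intro k _ X π _ _ hdim f hf hv
  have := FIN_.isFinite_phi π hdim hf hv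
  exact isAffine_of_isAffineHom (phi π f)

end Pool.Agent.MG.WL.CL


end

section

/-!
# DEA: existence and uniqueness of the class of a deformation in a chart
-/

open CategoryTheory CategoryTheory.Limits AlgebraicGeometry TensorProduct

namespace Pool.Agent.MG.WL

open Pool.Agent.MG.W Pool.Agent.MG.One

namespace DEA

/-- The inverse of an arrow over the identity. -/
noncomputable def arrowInv {n : ℕ} {A : Type} [CommRing A] {C y : Fam n A}
    (a : Arrow (RingHom.id A) y C) : Arrow (RingHom.id A) C y :=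
  letI := arrow_id_iso a
  { f := inv a.f
    cart := by
      have h0 : spMap (RingHom.id A) = 𝟙 _ := Spec.map_id _
      rw [h0]
      refine IsPullback.of_horiz_isIso ⟨?_⟩
      have hw := a.cart.w
      rw [h0, Category.comp_id] at hw
      rw [Category.comp_id, IsIso.inv_comp_eq]
      exact hw.symm
    sec := fun i => by
      have h0 : spMap (RingHom.id A) = 𝟙 _ := Spec.map_id _
      have hs := a.sec i
      rw [h0, Category.id_comp] at hs ⊢
      rw [← hs, Category.assoc, IsIso.hom_inv_id, Category.comp_id] }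

theorem comp_arrowInv {n : ℕ} {A : Type} [CommRing A] {C y : Fam n A}
    (a : Arrow (RingHom.id A) y C) : a.f ≫ (arrowInv a).f = 𝟙 _ := by
  have := arrow_id_iso a
  exact IsIso.hom_inv_id a.f

theorem arrowInv_comp {n : ℕ} {A : Type} [CommRing A] {C y : Fam n A}
    (a : Arrow (RingHom.id A) y C) : (arrowInv a).f ≫ a.f = 𝟙 _ := by
  have := arrow_id_iso a
  exact IsIso.inv_hom_id a.f

theorem snd_pow' {B : Type} [CommRing B] {u : Eps B} (hu : u.fst = 1) (k : ℕ) :
    (u ^ k).fst = 1 ∧ (u ^ k).snd = k * u.snd := by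
  induction k with
  | zero =>
    refine ⟨?_, ?_⟩
    · rw [pow_zero, TrivSqZeroExt.fst_one]
    · rw [pow_zero, TrivSqZeroExt.snd_one, Nat.cast_zero, zero_mul]
  | succ k ih =>
    refine ⟨?_, ?_⟩
    · rw [pow_succ, fst_mul', ih.1, hu, one_mul]
    · rw [pow_succ, snd_mul', ih.1, ih.2, hu, Nat.cast_succ]
      ring

theorem sc_snd {B : Type} [CommRing B] {u : Eps B} (hu : u.fst = 1) {a α α' : B} (k : ℕ)
    (h : ep a α' = u ^ k * ep a α) : α' = α + k * u.snd * a := by
  have h1 := congrArg TrivSqZeroExt.snd h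
  rw [snd_mul', snd_ep, snd_ep, fst_ep, (snd_pow' hu k).1, (snd_pow' hu k).2] at h1
  linear_combination h1

end DEA

open _root_.Pool.Agent.MG.WL.DEA

theorem t_DEA : Stmt_DEA := by
  intro A B _ _ φ C c h6 d
  have hex : ∃ δ, IsDelta c d δ := by
    obtain ⟨α, β, f, hf⟩ := exists_dW h6 c.h (bcD c.e d)
    refine ⟨_, α, β, castA (RingHom.id_comp _)
      (PBS.comp (arrowInv f) (PBS.bcArrow (epsMap φ) d.y)), ?_, rfl⟩
    rw [← bcD_r c.e d]
    change (dW h6 c.h α β).r.f ≫ (arrowInv f).f ≫ (PBS.bcArrow (epsMap φ) d.y).f = _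
    rw [← hf, Category.assoc, ← Category.assoc f.f, comp_arrowInv, Category.id_comp]
  obtain ⟨δ, hδ⟩ := hex
  refine ⟨δ, hδ, fun δ' hδ' => ?_⟩
  obtain ⟨α, β, f, hf, rfl⟩ := hδ
  obtain ⟨α', β', f', hf', rfl⟩ := hδ'
  let L : Arrow (RingHom.id (Eps B)) (Wei (WZ (ep c.a α') (ep c.b β')))
      (Wei (WZ (ep c.a α) (ep c.b β))) := arrowLift (castA (RingHom.id_comp _).symm f') f
  have hL : L.f ≫ f.f = f'.f := arrowLift_f (castA (RingHom.id_comp _).symm f') f
  have hr : (warr (eps0 B) (fst_ep c.a α').symm (fst_ep c.b β').symm).f ≫ L.f =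
      (warr (eps0 B) (fst_ep c.a α).symm (fst_ep c.b β).symm).f := by
    refine arrow_ext (castA (RingHom.comp_id _)
      (PBS.comp (warr (eps0 B) (fst_ep c.a α').symm (fst_ep c.b β').symm) L))
      (warr (eps0 B) (fst_ep c.a α).symm (fst_ep c.b β).symm) f ?_
    change ((warr (eps0 B) (fst_ep c.a α').symm (fst_ep c.b β').symm).f ≫ L.f) ≫ f.f = _
    rw [Category.assoc, hL, hf', hf]
  obtain ⟨u, hu, hsc⟩ := wu (sqEps B) (WZ c.a c.b) h6 (WZ (ep c.a α) (ep c.b β))
    (WZ (ep c.a α') (ep c.b β'))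
    ⟨(fst_ep _ _).symm, (fst_ep _ _).symm, fun i => i.elim0, fun i => i.elim0⟩
    ⟨(fst_ep _ _).symm, (fst_ep _ _).symm, fun i => i.elim0, fun i => i.elim0⟩ L hr
  have hu' : u.fst = 1 := hu
  have ha : α' = α + (4 : ℕ) * u.snd * c.a := sc_snd hu' 4 hsc.a
  have hb : β' = β + (6 : ℕ) * u.snd * c.b := sc_snd hu' 6 hsc.b
  rw [ha, hb]
  push_cast
  ring

end Pool.Agent.MG.WL


end

section

/-!
# TRN, algebra: non-constant functions over a local ring, quasi-finiteness from geometric fibres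
-/

open TensorProduct

namespace Pool.Agent.MG.WL.TRN

section

variable {B R : Type} [CommRing B] [CommRing R] [Algebra B R] (h : R)

theorem li_ext {F F' : Type} [Field F] [Field F'] [Algebra B F] [Algebra B F'] [Algebra F F']
    [IsScalarTower B F F']
    (hF : LinearIndependent F ![(1 ⊗ₜ h : F ⊗[B] R), 1 ⊗ₜ 1]) :
    LinearIndependent F' ![(1 ⊗ₜ h : F' ⊗[B] R), 1 ⊗ₜ 1] := by
  have h1 := Module.Flat.linearIndependent_one_tmul (S := F') hF
  let e := Algebra.TensorProduct.cancelBaseChange B F F' F' R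
  have h2 := h1.map' e.toLinearMap (by
    rw [LinearMap.ker_eq_bot]
    exact e.injective)
  have h3 : (e.toLinearMap ∘ fun x => (1 : F') ⊗ₜ[F] ![(1 ⊗ₜ h : F ⊗[B] R), 1 ⊗ₜ 1] x) =
      ![(1 ⊗ₜ h : F' ⊗[B] R), 1 ⊗ₜ 1] := by
    funext i
    fin_cases i
    · simp [e]
    · simp [e]
  rw [h3] at h2
  exact h2

variable [IsLocalRing B]

open IsLocalRing in
theorem li_res {K₀ : Type} [Field K₀] [Algebra B K₀] [IsLocalHom (algebraMap B K₀)]
    (h0 : ∀ ξ : K₀, (1 ⊗ₜ h : K₀ ⊗[B] R) ≠ ξ ⊗ₜ 1) :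
    LinearIndependent (ResidueField B) ![(1 ⊗ₜ h : ResidueField B ⊗[B] R), 1 ⊗ₜ 1] := by
  rw [LinearIndependent.pair_iff]
  intro s t hst
  let l : ResidueField B →ₐ[B] K₀ :=
    { ResidueField.lift (algebraMap B K₀) with
      commutes' := fun r => ResidueField.lift_residue_apply (algebraMap B K₀) r }
  let m : ResidueField B ⊗[B] R →ₐ[B] K₀ ⊗[B] R := Algebra.TensorProduct.map l (AlgHom.id B R)
  have h1 := congrArg m hst
  rw [smul_tmul', smul_tmul', smul_eq_mul, smul_eq_mul, mul_one, mul_one, map_add, map_zero,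
    Algebra.TensorProduct.map_tmul, Algebra.TensorProduct.map_tmul, AlgHom.id_apply,
    AlgHom.id_apply] at h1
  have hl : ∀ s, l s = 0 → s = 0 := fun s hs => (map_eq_zero_iff l (l : ResidueField B →+*
    K₀).injective).1 hs
  have hs : l s = 0 := by
    by_contra hs
    apply h0 (-((l s)⁻¹ * l t))
    have h2 := congrArg (fun u => ((l s)⁻¹ ⊗ₜ (1 : R) : K₀ ⊗[B] R) * u) h1
    simp only [mul_add, Algebra.TensorProduct.tmul_mul_tmul, one_mul, mul_zero,
      inv_mul_cancel₀ hs] at h2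
    rw [neg_tmul, ← sub_eq_zero, sub_neg_eq_add]
    exact h2
  refine ⟨hl s hs, hl t ?_⟩
  by_contra ht
  rw [hs, zero_tmul, zero_add] at h1
  have h2 := congrArg (fun u => ((l t)⁻¹ ⊗ₜ h : K₀ ⊗[B] R) * u) h1
  simp only [Algebra.TensorProduct.tmul_mul_tmul, mul_one, mul_zero, inv_mul_cancel₀ ht] at h2
  apply h0 0
  rw [h2, zero_tmul]

open IsLocalRing in
/-- If `h` is not constant on the closed fibre then it is not constant on all fibres. -/
theorem nonconst [Module.Flat B R] {K₀ : Type} [Field K₀] [Algebra B K₀]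
    [IsLocalHom (algebraMap B K₀)] (h0 : ∀ ξ : K₀, (1 ⊗ₜ h : K₀ ⊗[B] R) ≠ ξ ⊗ₜ 1)
    {K : Type} [Field K] [Algebra B K] (ξ : K) : (1 ⊗ₜ h : K ⊗[B] R) ≠ ξ ⊗ₜ 1 := by
  obtain ⟨O, hO, hloc⟩ := exists_factor_valuationRing (algebraMap B K)
  let g : B →+* O := (algebraMap B K).codRestrict O.toSubring hO
  let _ : Algebra B O := g.toAlgebra
  have hT : IsScalarTower B O K := IsScalarTower.of_algebraMap_eq' rfl
  have hl : IsLocalHom (algebraMap B O) := hloc
  have h1 := li_ext h (F := ResidueField B) (F' := ResidueField O) (li_res h h0)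
  rw [LinearIndependent.pair_iff] at h1
  -- reduction and embedding
  let ρ : O ⊗[B] R →ₐ[B] ResidueField O ⊗[B] R :=
    Algebra.TensorProduct.map (IsScalarTower.toAlgHom B O (ResidueField O)) (AlgHom.id B R)
  let ι : O ⊗[B] R →ₐ[B] K ⊗[B] R :=
    Algebra.TensorProduct.map (IsScalarTower.toAlgHom B O K) (AlgHom.id B R)
  have hι : Function.Injective ι := by
    have h2 : Function.Injective ((IsScalarTower.toAlgHom B O K).toLinearMap.rTensor R) :=
      Module.Flat.rTensor_preserves_injective_linearMap _ (fun x y hxy => Subtype.ext hxy)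
    exact h2
  intro hξ
  rcases O.mem_or_inv_mem ξ with hx | hx
  · have h3 : (1 ⊗ₜ h : O ⊗[B] R) = (⟨ξ, hx⟩ : O) ⊗ₜ 1 := by
      apply hι
      rw [Algebra.TensorProduct.map_tmul, Algebra.TensorProduct.map_tmul, map_one]
      exact hξ
    have h4 := congrArg ρ h3
    rw [Algebra.TensorProduct.map_tmul, Algebra.TensorProduct.map_tmul, map_one,
      AlgHom.id_apply, AlgHom.id_apply] at h4
    have h5 := h1 1 (-(IsScalarTower.toAlgHom B O (ResidueField O) ⟨ξ, hx⟩)) (by
      rw [one_smul, smul_tmul', smul_eq_mul, mul_one, neg_tmul, h4, add_neg_cancel])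
    exact one_ne_zero h5.1
  · by_cases hx' : ξ ∈ O
    · -- same as above
      have h3 : (1 ⊗ₜ h : O ⊗[B] R) = (⟨ξ, hx'⟩ : O) ⊗ₜ 1 := by
        apply hι
        rw [Algebra.TensorProduct.map_tmul, Algebra.TensorProduct.map_tmul, map_one]
        exact hξ
      have h4 := congrArg ρ h3
      rw [Algebra.TensorProduct.map_tmul, Algebra.TensorProduct.map_tmul, map_one,
        AlgHom.id_apply, AlgHom.id_apply] at h4
      have h5 := h1 1 (-(IsScalarTower.toAlgHom B O (ResidueField O) ⟨ξ, hx'⟩)) (by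
        rw [one_smul, smul_tmul', smul_eq_mul, mul_one, neg_tmul, h4, add_neg_cancel])
      exact one_ne_zero h5.1
    · have hξ0 : ξ ≠ 0 := by
        rintro rfl
        exact hx' O.zero_mem
      have h3 : ((⟨ξ⁻¹, hx⟩ : O) ⊗ₜ h : O ⊗[B] R) = 1 ⊗ₜ 1 := by
        apply hι
        rw [Algebra.TensorProduct.map_tmul, Algebra.TensorProduct.map_tmul, map_one]
        have h6 := congrArg (fun u => (ξ⁻¹ ⊗ₜ (1 : R) : K ⊗[B] R) * u) hξ
        simp only [Algebra.TensorProduct.tmul_mul_tmul, mul_one, one_mul,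
          inv_mul_cancel₀ hξ0] at h6
        exact h6
      have hm : residue O ⟨ξ⁻¹, hx⟩ = 0 := by
        rw [residue_eq_zero_iff, mem_maximalIdeal, mem_nonunits_iff]
        intro hu
        apply hx'
        obtain ⟨u, hu⟩ := hu
        have h7 : (u : O) * (u⁻¹ : Oˣ) = 1 := Units.mul_inv u
        have h8 := congrArg (Subtype.val) h7
        rw [hu] at h8
        change ξ⁻¹ * ((u⁻¹ : Oˣ) : O).1 = 1 at h8
        have h9 : ((u⁻¹ : Oˣ) : O).1 = ξ := by
          field_simp at h8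
          exact h8
        rw [← h9]
        exact ((u⁻¹ : Oˣ) : O).2
      have h4 := congrArg ρ h3
      rw [Algebra.TensorProduct.map_tmul, Algebra.TensorProduct.map_tmul, map_one,
        AlgHom.id_apply, AlgHom.id_apply] at h4
      have h10 : IsScalarTower.toAlgHom B O (ResidueField O) ⟨ξ⁻¹, hx⟩ = 0 := hm
      rw [h10, zero_tmul] at h4
      have h5 := h1 0 1 (by rw [zero_smul, one_smul, zero_add, ← h4])
      exact one_ne_zero h5.2

end

open Polynomial

theorem fin_surj {B R K T : Type} [CommRing B] [CommRing R] [Algebra B R] [Field K]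
    [Algebra B K] [CommRing T] [Algebra K T] (g : R →+* T)
    (hgB : ∀ b, g (algebraMap B R b) = algebraMap K T (algebraMap B K b)) (h : R) (ξ : K)
    (hgh : g h = algebraMap K T ξ) (hspan : ∀ x : T, x ∈ Submodule.span K (Set.range g))
    (H : Module.Finite K ((K ⊗[B] R) ⧸ Ideal.span {(1 ⊗ₜ h - ξ ⊗ₜ 1 : K ⊗[B] R)})) :
    Module.Finite K T := by
  let _ : Algebra B T := ((algebraMap K T).comp (algebraMap B K)).toAlgebra
  have : IsScalarTower B K T := IsScalarTower.of_algebraMap_eq' rfl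
  let g' : R →ₐ[B] T := { g with commutes' := hgB }
  have hg' : ∀ r, g' r = g r := fun r => rfl
  let m : K ⊗[B] R →ₐ[K] T := Algebra.TensorProduct.lift (Algebra.ofId K T) g'
    (fun x y => mul_comm _ _)
  have hm : Function.Surjective m := by
    intro x
    induction hspan x using Submodule.span_induction with
    | mem x hx =>
      obtain ⟨r, rfl⟩ := hx
      refine ⟨1 ⊗ₜ r, ?_⟩
      rw [Algebra.TensorProduct.lift_tmul, map_one, one_mul, hg']
    | zero => exact ⟨0, by rw [map_zero]⟩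
    | add x y _ _ hx hy =>
      obtain ⟨u, hu⟩ := hx
      obtain ⟨v, hv⟩ := hy
      exact ⟨u + v, by rw [map_add, hu, hv]⟩
    | smul c x _ hx =>
      obtain ⟨u, hu⟩ := hx
      exact ⟨c • u, by rw [map_smul, hu]⟩
  have hker : ∀ a ∈ Ideal.span {(1 ⊗ₜ h - ξ ⊗ₜ 1 : K ⊗[B] R)}, m a = 0 := by
    intro a ha
    rw [Ideal.mem_span_singleton'] at ha
    obtain ⟨b, rfl⟩ := ha
    rw [map_mul, map_sub, Algebra.TensorProduct.lift_tmul, Algebra.TensorProduct.lift_tmul,
      map_one, map_one, one_mul, mul_one, hg', hgh]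
    have h4 : Algebra.ofId K T ξ = algebraMap K T ξ := rfl
    rw [h4, sub_self, mul_zero]
  let q := Ideal.Quotient.liftₐ (Ideal.span {(1 ⊗ₜ h - ξ ⊗ₜ 1 : K ⊗[B] R)}) m hker
  refine Module.Finite.of_surjective q.toLinearMap (fun x => ?_)
  obtain ⟨u, rfl⟩ := hm x
  exact ⟨Ideal.Quotient.mk _ u, rfl⟩

theorem fin_fiber {B R κ K F : Type} [CommRing B] [CommRing R] [Algebra B R] [Field κ] [Field K]
    [CommRing F] [Algebra κ K] [Algebra κ F] [Algebra B K] (t : B →+* κ)
    (ht : algebraMap B K = (algebraMap κ K).comp t) (g : R →+* F)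
    (hgB : ∀ b, g (algebraMap B R b) = algebraMap κ F (t b)) (h : R) (η : κ)
    (hgh : g h = algebraMap κ F η) (hspan : ∀ x : F, x ∈ Submodule.span κ (Set.range g))
    (H : Module.Finite K ((K ⊗[B] R) ⧸
      Ideal.span {(1 ⊗ₜ h - algebraMap κ K η ⊗ₜ 1 : K ⊗[B] R)})) :
    Module.Finite κ F := by
  suffices h1 : Module.Finite K (K ⊗[κ] F) from
    Module.Finite.of_finite_tensorProduct_of_faithfullyFlat K
  have key : ∀ c : κ, ((1 : K) ⊗ₜ algebraMap κ F c : K ⊗[κ] F) =
      algebraMap K (K ⊗[κ] F) (algebraMap κ K c) := by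
    intro c
    rw [Algebra.algebraMap_eq_smul_one (A := F), ← smul_tmul, Algebra.smul_def, mul_one]
    rfl
  let i : F →+* K ⊗[κ] F := (Algebra.TensorProduct.includeRight : F →ₐ[κ] K ⊗[κ] F).toRingHom
  have hi : ∀ x, i x = (1 : K) ⊗ₜ x := fun x => rfl
  refine fin_surj (B := B) (R := R) (K := K) (T := K ⊗[κ] F) (i.comp g) ?_ h
    (algebraMap κ K η) ?_ ?_ H
  · intro b
    rw [RingHom.comp_apply, hgB, hi, key, ht]
    rfl
  · rw [RingHom.comp_apply, hgh, hi, key]
  · intro x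
    induction x using TensorProduct.induction_on with
    | zero => exact zero_mem _
    | add x y hx hy => exact add_mem hx hy
    | tmul a x =>
      induction hspan x using Submodule.span_induction with
      | mem x hx =>
        obtain ⟨r, rfl⟩ := hx
        have h1 : (a ⊗ₜ g r : K ⊗[κ] F) = a • (i.comp g) r := by
          rw [RingHom.comp_apply, hi, smul_tmul', smul_eq_mul, mul_one]
        rw [h1]
        exact Submodule.smul_mem _ _ (Submodule.subset_span ⟨r, rfl⟩)
      | zero => rw [tmul_zero]; exact zero_mem _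
      | add x y _ _ hx hy => rw [tmul_add]; exact add_mem hx hy
      | smul c x _ hx =>
        rw [tmul_smul, ← algebraMap_smul K c]
        exact Submodule.smul_mem _ _ hx

theorem qf_of_geom {B R : Type} [CommRing B] [CommRing R] [Algebra B R]
    (h : R)
    (H : ∀ (K : Type) [Field K] [IsAlgClosed K] (s : B →+* K) (ξ : K), letI := s.toAlgebra
      Module.Finite K ((K ⊗[B] R) ⧸ Ideal.span {(1 ⊗ₜ h - ξ ⊗ₜ 1 : K ⊗[B] R)})) :
    (Polynomial.eval₂RingHom (algebraMap B R) h).QuasiFinite := by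
  let A : Algebra B[X] R := (Polynomial.eval₂RingHom (algebraMap B R) h).toAlgebra
  have hA : ∀ p, algebraMap B[X] R p = eval₂ (algebraMap B R) h p := fun p => rfl
  change Algebra.QuasiFinite B[X] R
  refine ⟨fun P hP => ?_⟩
  let t : B →+* P.ResidueField := (algebraMap B[X] P.ResidueField).comp C
  let s : B →+* AlgebraicClosure P.ResidueField := (algebraMap P.ResidueField _).comp t
  let _ : Algebra B (AlgebraicClosure P.ResidueField) := s.toAlgebra
  let g : R →+* P.Fiber R := Algebra.TensorProduct.includeRight.toRingHom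
  have key : ∀ p, g (algebraMap B[X] R p) =
      algebraMap P.ResidueField (P.Fiber R) (algebraMap B[X] P.ResidueField p) := by
    intro p
    change ((1 : P.ResidueField) ⊗ₜ[B[X]] algebraMap B[X] R p : P.Fiber R) = _
    rw [Algebra.algebraMap_eq_smul_one (A := R), ← TensorProduct.smul_tmul,
      Algebra.smul_def, mul_one]
    rfl
  refine fin_fiber (B := B) (R := R) (κ := P.ResidueField)
    (K := AlgebraicClosure P.ResidueField) (F := P.Fiber R) t rfl g ?_ h
    (algebraMap B[X] P.ResidueField X) ?_ ?_ (H _ s _)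
  · intro b
    have h1 := key (C b)
    rw [hA, eval₂_C] at h1
    exact h1
  · have h1 := key X
    rw [hA, eval₂_X] at h1
    exact h1
  · intro x
    induction x using TensorProduct.induction_on with
    | zero => exact zero_mem _
    | add x y hx hy => exact add_mem hx hy
    | tmul a r =>
      have h1 : (a ⊗ₜ r : P.Fiber R) = a • g r := by
        change _ = a • ((1 : P.ResidueField) ⊗ₜ[B[X]] r)
        rw [smul_tmul', smul_eq_mul, mul_one]
      rw [h1]
      exact Submodule.smul_mem _ _ (Submodule.subset_span ⟨r, rfl⟩)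

end Pool.Agent.MG.WL.TRN


end

section

/-!
# Weierstrass curves as schemes: integral, proper closed subsets are finite, infinite
-/

open CategoryTheory CategoryTheory.Limits AlgebraicGeometry TensorProduct TopologicalSpace

namespace Pool.Agent.MG.WL

open Pool.Agent.MG.W Pool.Agent.MG.One

/-- Integral schemes with the topology of a curve. -/
structure Crv (X : Scheme.{0}) : Prop where
  int : IsIntegral X
  fin : ∀ U : X.Opens, Nonempty U → ((U : Set X)ᶜ).Finite
  inf : Infinite X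

namespace WTop

section

variable (K : Type) [Field K] (a b : K)

/-- The generic point. -/
noncomputable def gen : WX K a b :=
  have := WDM.dom1 K a b
  WX.in1 K a b (⊥ : PrimeSpectrum (A1 K a b))

theorem comap_bot {A B : Type} [CommRing A] [CommRing B] [IsDomain A] [IsDomain B] (f : A →+* B)
    (hf : Function.Injective f) :
    spMap f (⊥ : PrimeSpectrum B) = (⊥ : PrimeSpectrum A) := by
  apply PrimeSpectrum.ext
  change Ideal.comap f ⊥ = ⊥
  exact (RingHom.injective_iff_ker_eq_bot f).1 hf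

theorem surj (x : WX K a b) : x ∈ Set.range (WX.in1 K a b) ∨ x ∈ Set.range (WX.in2 K a b) :=
  glue2_surj (spMap (g1 K a b)) (spMap (g2 K a b)) x

theorem g1_inj : Function.Injective (g1 K a b) := (t_WRG K a b).2.2.2.1

theorem gen_eq : gen K a b = (have := WDM.dom2 K a b
    WX.in2 K a b (⊥ : PrimeSpectrum (A2 K a b))) := by
  have := WDM.dom1 K a b
  have := WDM.dom2 K a b
  have := WDM.dom12 K a b
  have hcond : spMap (g1 K a b) ≫ WX.in1 K a b = spMap (g2 K a b) ≫ WX.in2 K a b :=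
    pushout.condition
  have h1 := comap_bot (g1 K a b) (g1_inj K a b)
  have h2 := comap_bot (g2 K a b) (WDM.g2_inj K a b)
  change WX.in1 K a b (⊥ : PrimeSpectrum (A1 K a b)) = WX.in2 K a b (⊥ : PrimeSpectrum (A2 K a b))
  rw [← h1, ← h2, ← Scheme.Hom.comp_apply, ← Scheme.Hom.comp_apply, hcond]

theorem range_sub {A : Type} [CommRing A] [IsDomain A] {X : Scheme.{0}} (f : Sp A ⟶ X) (x : X)
    (hx : x = f (⊥ : PrimeSpectrum A)) : Set.range f ⊆ closure {x} := by
  rintro _ ⟨q, rfl⟩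
  let o : Sp A := (⊥ : PrimeSpectrum A)
  have h1 : q ∈ closure {o} := by
    have h2 : (⊥ : PrimeSpectrum A) ≤ q := bot_le
    exact (PrimeSpectrum.le_iff_mem_closure _ _).1 h2
  have h3 : f q ∈ f '' closure {o} := ⟨q, h1, rfl⟩
  have h4 := image_closure_subset_closure_image f.continuous h3
  rw [Set.image_singleton] at h4
  rw [hx]
  exact h4

theorem closure_gen : closure {gen K a b} = (Set.univ : Set (WX K a b)) := by
  have := WDM.dom1 K a b
  have := WDM.dom2 K a b
  rw [Set.eq_univ_iff_forall]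
  intro x
  rcases surj K a b x with hx | hx
  · exact range_sub (WX.in1 K a b) _ rfl hx
  · exact range_sub (WX.in2 K a b) _ (gen_eq K a b) hx

theorem irr : IrreducibleSpace (WX K a b) := by
  have h : IsIrreducible (closure {gen K a b}) := isIrreducible_singleton.closure
  rw [closure_gen] at h
  have : PreirreducibleSpace (WX K a b) := ⟨h.2⟩
  exact ⟨⟨gen K a b⟩⟩

theorem red_of {A : Type} [CommRing A] [IsDomain A] {X : Scheme.{0}} (f : Sp A ⟶ X)
    [IsOpenImmersion f] (x : X) (hx : x ∈ Set.range f) : _root_.IsReduced (X.presheaf.stalk x) := by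
  obtain ⟨q, rfl⟩ := hx
  have h1 : Function.Injective (f.stalkMap q).hom :=
    (ConcreteCategory.bijective_of_isIso (f.stalkMap q)).1
  exact isReduced_of_injective (f.stalkMap q).hom h1

theorem red : IsReduced (WX K a b) := by
  have := WDM.dom1 K a b
  have := WDM.dom2 K a b
  have : ∀ x : WX K a b, _root_.IsReduced ((WX K a b).presheaf.stalk x) := by
    intro x
    rcases surj K a b x with hx | hx
    · exact red_of (WX.in1 K a b) x hx
    · exact red_of (WX.in2 K a b) x hx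
  exact isReduced_of_isReduced_stalk _

theorem integral : IsIntegral (WX K a b) := by
  have := irr K a b
  have := red K a b
  exact isIntegral_of_irreducibleSpace_of_isReduced _

theorem finiteA1 : (Polynomial.aeval (x1 K a b) : Polynomial K →ₐ[K] A1 K a b).toRingHom.Finite := by
  classical
  let f : Polynomial K →+* A1 K a b :=
    (Polynomial.aeval (x1 K a b) : Polynomial K →ₐ[K] A1 K a b).toRingHom
  change f.Finite
  let A : Algebra (Polynomial K) (A1 K a b) := f.toAlgebra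
  have h : Module.Finite (Polynomial K) (A1 K a b) := by
    refine ⟨⟨{1, y1 K a b}, ?_⟩⟩
    rw [eq_top_iff]
    intro v _
    obtain ⟨pq, hpq, -⟩ := (t_WRG K a b).1 v
    rw [Finset.coe_insert, Finset.coe_singleton, Submodule.mem_span_pair]
    refine ⟨pq.1, pq.2, ?_⟩
    rw [Algebra.smul_def, Algebra.smul_def, mul_one]
    exact hpq.symm
  exact h

theorem dim1 : Ring.DimensionLEOne (A1 K a b) := by
  have := WDM.dom1 K a b
  let f : Polynomial K →+* A1 K a b :=
    (Polynomial.aeval (x1 K a b) : Polynomial K →ₐ[K] A1 K a b).toRingHom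
  let A : Algebra (Polynomial K) (A1 K a b) := f.toAlgebra
  have h : Module.Finite (Polynomial K) (A1 K a b) := finiteA1 K a b
  refine ⟨fun {p} hp hpr => ?_⟩
  have h1 : p.comap (algebraMap (Polynomial K) (A1 K a b)) ≠ ⊥ := by
    obtain ⟨v, hv, hv0⟩ := Submodule.exists_mem_ne_zero_of_ne_bot hp
    exact Ideal.comap_ne_bot_of_integral_mem hv0 hv (Algebra.IsIntegral.isIntegral v)
  exact Ideal.isMaximal_of_isIntegral_of_isMaximal_comap (R := Polynomial K) p
    (Ring.DimensionLEOne.maximalOfPrime h1 inferInstance)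

theorem fin1 (I : Ideal (A1 K a b)) (hI : I ≠ ⊥) :
    (PrimeSpectrum.zeroLocus (I : Set (A1 K a b))).Finite := by
  have := WDM.dom1 K a b
  have := dim1 K a b
  obtain ⟨v, hv, hv0⟩ := Submodule.exists_mem_ne_zero_of_ne_bot hI
  exact (Two.finite_primes_containing v hv0).subset fun Q hQ => hQ hv

theorem fin2 : {Q : PrimeSpectrum (A2 K a b) | z2 K a b ∈ Q.asIdeal}.Finite := by
  refine Set.Subsingleton.finite ?_
  have key : ∀ Q : PrimeSpectrum (A2 K a b), z2 K a b ∈ Q.asIdeal → ∀ v,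
      v ∈ Q.asIdeal ↔ inf2 K a b v = 0 := by
    intro Q hQ v
    have h1 : v - algebraMap K _ (inf2 K a b v) ∈ Q.asIdeal :=
      (Ideal.span_singleton_le_iff_mem _).2 hQ ((t_WRG K a b).2.1 v)
    constructor
    · intro hv
      by_contra h0
      have h2 : algebraMap K (A2 K a b) (inf2 K a b v) ∈ Q.asIdeal := by
        have := Q.asIdeal.sub_mem hv h1
        rwa [sub_sub_cancel] at this
      exact Q.isPrime.ne_top (Ideal.eq_top_of_isUnit_mem _ h2 ((isUnit_iff_ne_zero.2 h0).map _))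
    · intro hv
      rw [hv, map_zero, sub_zero] at h1
      exact h1
  intro Q hQ Q' hQ'
  ext v
  rw [key Q hQ, key Q' hQ']

theorem gen_mem (U : (WX K a b).Opens) (hU : Nonempty U) : gen K a b ∈ U := by
  obtain ⟨⟨x, hx⟩⟩ := hU
  have h1 : x ∈ closure {gen K a b} := by rw [closure_gen]; trivial
  rw [mem_closure_iff] at h1
  obtain ⟨y, hy, hy'⟩ := h1 U U.isOpen hx
  rw [Set.mem_singleton_iff] at hy'
  rw [← hy']
  exact hy

theorem fin (U : (WX K a b).Opens) (hU : Nonempty U) : ((U : Set (WX K a b))ᶜ).Finite := by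
  have := WDM.dom1 K a b
  let Z : Set (PrimeSpectrum (A1 K a b)) := {q | WX.in1 K a b q ∉ U}
  have hZc : IsClosed Z := (U.isOpen.preimage (WX.in1 K a b).continuous).isClosed_compl
  obtain ⟨I, hI⟩ := (PrimeSpectrum.isClosed_iff_zeroLocus_ideal Z).mp hZc
  have hIne : I ≠ ⊥ := by
    rintro rfl
    have h1 : (⊥ : PrimeSpectrum (A1 K a b)) ∈ Z := by
      rw [hI]
      intro v hv
      exact hv
    exact h1 (gen_mem K a b U hU)
  have hZ : Z.Finite := by
    rw [hI]
    exact fin1 K a b I hIne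
  refine ((hZ.image (WX.in1 K a b)).union ((fin2 K a b).image (WX.in2 K a b))).subset ?_
  intro x hx
  rcases surj K a b x with ⟨q, rfl⟩ | ⟨Q, rfl⟩
  · exact Or.inl ⟨q, hx, rfl⟩
  · by_cases hz : z2 K a b ∈ (show PrimeSpectrum (A2 K a b) from Q).asIdeal
    · exact Or.inr ⟨Q, hz, rfl⟩
    · have h1 : (show PrimeSpectrum (A2 K a b) from Q) ∈
          Set.range (PrimeSpectrum.comap (algebraMap (A2 K a b) (A12 K a b))) := by
        rw [PrimeSpectrum.localization_away_comap_range (A12 K a b) (z2 K a b)]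
        exact hz
      obtain ⟨w, hw⟩ := h1
      have hcond : spMap (g1 K a b) ≫ WX.in1 K a b = spMap (g2 K a b) ≫ WX.in2 K a b :=
        pushout.condition
      have h2 : WX.in2 K a b Q = WX.in1 K a b (spMap (g1 K a b) w) := by
        rw [← Scheme.Hom.comp_apply, hcond, Scheme.Hom.comp_apply]
        congr 1
        exact hw.symm
      rw [h2] at hx ⊢
      exact Or.inl ⟨_, hx, rfl⟩

theorem inf [IsAlgClosed K] : Infinite (WX K a b) := by
  have hd : ∀ c : K, ∃ d : K, d ^ 2 = c ^ 3 + a * c + b := fun c =>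
    IsAlgClosed.exists_pow_nat_eq _ (by norm_num)
  choose d hd using hd
  let ev : ∀ c : K, A1 K a b →+* K := fun c => lift1 (RingHom.id K) c (d c) (hd c)
  have hx : ∀ c, ev c (x1 K a b) = c := fun c => lift1_x (RingHom.id K) c (d c) (hd c)
  have hb : ∀ c e, ev c (algebraMap K _ e) = e := fun c e =>
    lift1_b (RingHom.id K) c (d c) (hd c) e
  let P : K → PrimeSpectrum (A1 K a b) := fun c => PrimeSpectrum.comap (ev c) ⊥
  have hP : Function.Injective P := by
    intro c c' h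
    have h1 : x1 K a b - algebraMap K _ c ∈ (P c).asIdeal := by
      change ev c (x1 K a b - algebraMap K _ c) ∈ (⊥ : Ideal K)
      rw [map_sub, hx, hb, sub_self]
      exact zero_mem _
    rw [h] at h1
    change ev c' (x1 K a b - algebraMap K _ c) ∈ (⊥ : Ideal K) at h1
    rw [map_sub, hx, hb, Ideal.mem_bot, sub_eq_zero] at h1
    exact h1.symm
  have : Infinite K := IsAlgClosed.instInfinite
  exact Infinite.of_injective (fun c => WX.in1 K a b (P c))
    ((WX.in1 K a b).isOpenEmbedding.injective.comp hP)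

theorem crv [IsAlgClosed K] : Crv (WX K a b) := ⟨integral K a b, fin K a b, inf K a b⟩

end

theorem crv_iso {X Y : Scheme.{0}} (f : X ⟶ Y) [IsIso f] (h : Crv Y) : Crv X where
  int := by
    have := h.int
    exact IsIntegral.of_isIso (inv f)
  fin U hU := by
    have hi : Function.Injective (inv f) := (inv f).isOpenEmbedding.injective
    have hii : ∀ x, (inv f) (f x) = x := fun x => by
      rw [← Scheme.Hom.comp_apply, IsIso.hom_inv_id]
      rfl
    have h1 := h.fin ((inv f) ⁻¹ᵁ U) (by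
      obtain ⟨⟨x, hx⟩⟩ := hU
      refine ⟨⟨f x, ?_⟩⟩
      change (inv f) (f x) ∈ U
      rwa [hii])
    refine (h1.image (inv f)).subset fun x hx => ⟨f x, ?_, hii x⟩
    intro h2
    apply hx
    change (inv f) (f x) ∈ U at h2
    rwa [hii] at h2
  inf := by
    have := h.inf
    exact Infinite.of_injective (inv f) (inv f).isOpenEmbedding.injective

end WTop

theorem crv_of_stable (hCL : Stmt_CL) {K : Type} [Field K] [IsAlgClosed K] [CharZero K]
    (z : Fam 1 K) (hz : IsStable 1 z) : Crv z.X := by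
  obtain ⟨a, b, -, f, hf⟩ := hCL z hz
  exact WTop.crv_iso f.f (WTop.crv K a b)

end Pool.Agent.MG.WL


end

section

/-!
# TRN: a function on `W` which is quasi-finite over the affine line over the base
-/

open CategoryTheory CategoryTheory.Limits AlgebraicGeometry TensorProduct TopologicalSpace

namespace Pool.Agent.MG.WL

open Pool.Agent.MG.W Pool.Agent.MG.One

namespace TRN

section

variable {X : Scheme.{0}} {K : Type} [Field K] (π : X ⟶ Sp K)

theorem primes_sub (h : Crv X) {U : X.Opens} (hU : IsAffineOpen U) (g : Γ(X, U)) (hg : g ≠ 0) :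
    {Q : PrimeSpectrum Γ(X, U) | g ∈ Q.asIdeal}.Finite := by
  have := h.int
  have h1 : X.basicOpen g ≠ ⊥ := fun h2 => hg ((basicOpen_eq_bot_iff g).1 h2)
  have h3 : Nonempty (X.basicOpen g) := by
    by_contra h4
    apply h1
    rw [eq_bot_iff]
    intro x hx
    exact (h4 ⟨⟨x, hx⟩⟩).elim
  have h5 := h.fin (X.basicOpen g) h3
  refine Set.Finite.of_finite_image (f := fun Q : PrimeSpectrum Γ(X, U) => hU.fromSpec Q)
    (h5.subset ?_) ?_
  · rintro _ ⟨Q, hQ, rfl⟩ h6
    have h7 : Q ∈ hU.fromSpec ⁻¹ᵁ X.basicOpen g := h6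
    rw [hU.fromSpec_preimage_basicOpen] at h7
    exact h7 hQ
  · exact hU.fromSpec.isOpenEmbedding.injective.injOn

theorem ft_coef [LocallyOfFiniteType π] {U : X.Opens} (hU : IsAffineOpen U) :
    (coef π U).FiniteType := by
  have h1 := HasRingHomProperty.appLE (P := @LocallyOfFiniteType) π inferInstance
    ⟨⊤, isAffineOpen_top _⟩ ⟨U, hU⟩ le_top
  rw [coef_eq]
  exact h1.comp (RingHom.FiniteType.of_surjective _
    (ConcreteCategory.bijective_of_isIso (Scheme.ΓSpecIso (CommRingCat.of K)).inv).2)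

/-- The quotient of the functions on an affine open set by a nonzero function. -/
theorem quot_fin [LocallyOfFiniteType π] (h : Crv X) {U : X.Opens} (hU : IsAffineOpen U)
    (g : Γ(X, U)) (hg : g ≠ 0) :
    ((Ideal.Quotient.mk (Ideal.span {g})).comp (coef π U)).Finite := by
  have h1 : ((Ideal.Quotient.mk (Ideal.span {g})).comp (coef π U)).FiniteType :=
    (RingHom.FiniteType.of_surjective _ Ideal.Quotient.mk_surjective).comp (ft_coef π hU)
  have h2 : Finite (PrimeSpectrum (Γ(X, U) ⧸ Ideal.span {g})) := by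
    have h3 := primes_sub h hU g hg
    rw [← Set.finite_univ_iff]
    refine Set.Finite.of_finite_image
      (f := PrimeSpectrum.comap (Ideal.Quotient.mk (Ideal.span {g}))) (h3.subset ?_) ?_
    · rintro _ ⟨Q, -, rfl⟩
      change Ideal.Quotient.mk (Ideal.span {g}) g ∈ Q.asIdeal
      rw [Ideal.Quotient.eq_zero_iff_mem.2 (Ideal.mem_span_singleton_self g)]
      exact zero_mem _
    · exact (PrimeSpectrum.comap_injective_of_surjective _ Ideal.Quotient.mk_surjective).injOn
  algebraize [(Ideal.Quotient.mk (Ideal.span {g})).comp (coef π U)]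
  have h4 : Algebra.QuasiFinite K (Γ(X, U) ⧸ Ideal.span {g}) :=
    Algebra.QuasiFinite.iff_finite_comap_preimage_singleton.2 fun x => Set.toFinite _
  exact Algebra.QuasiFinite.iff_of_isArtinianRing.1 h4

/-- Nonempty affine open sets have non-constant functions. -/
theorem not_surj (h : Crv X) {U : X.Opens} (hU : IsAffineOpen U) (hne : Nonempty U) :
    ¬ Function.Surjective (coef π U) := by
  intro hs
  have h1 : Set.Subsingleton (U : Set X) := by
    intro x hx y hy
    have h2 : hU.primeIdealOf ⟨x, hx⟩ = hU.primeIdealOf ⟨y, hy⟩ := by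
      apply PrimeSpectrum.comap_injective_of_surjective _ hs
      exact Subsingleton.elim _ _
    exact congrArg Subtype.val (Two.primeIdealOf_injective hU h2)
  have h3 : (Set.univ : Set X).Finite := by
    rw [← Set.union_compl_self (U : Set X)]
    exact h1.finite.union (h.fin U hne)
  have := h.inf
  exact Set.infinite_univ h3

end

theorem charZero {B K : Type} [CommRing B] [Algebra ℂ B] [Field K] (s : B →+* K) : CharZero K :=
  charZero_of_injective_ringHom (s.comp (algebraMap ℂ B)).injective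

/-- Finiteness of a quotient of a tensor product from the isomorphism with the functions on the
base change. -/
theorem fin_transfer {B K R G : Type} [CommRing B] [Field K] [CommRing R] [CommRing G]
    [Algebra B R] [Algebra B K] (c : K →+* G) (e : K ⊗[B] R ≃+* G)
    (he : ∀ k : K, e (k ⊗ₜ 1) = c k) (t : K ⊗[B] R)
    (h : ((Ideal.Quotient.mk (Ideal.span {e t})).comp c).Finite) :
    Module.Finite K ((K ⊗[B] R) ⧸ Ideal.span {t}) := by
  let θ : G ⧸ Ideal.span {e t} →+* (K ⊗[B] R) ⧸ Ideal.span {t} :=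
    Ideal.Quotient.lift (Ideal.span {e t})
      ((Ideal.Quotient.mk (Ideal.span {t})).comp (e.symm : G →+* K ⊗[B] R)) (by
        intro a ha
        rw [Ideal.mem_span_singleton'] at ha
        obtain ⟨b, rfl⟩ := ha
        rw [RingHom.comp_apply, Ideal.Quotient.eq_zero_iff_mem, map_mul]
        refine Ideal.mul_mem_left _ _ ?_
        have h1 : (e.symm : G →+* K ⊗[B] R) (e t) = t := e.symm_apply_apply t
        rw [h1]
        exact Ideal.mem_span_singleton_self t)
  have hθ : Function.Surjective θ := by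
    intro x
    obtain ⟨y, rfl⟩ := Ideal.Quotient.mk_surjective x
    refine ⟨Ideal.Quotient.mk _ (e y), ?_⟩
    change Ideal.Quotient.mk (Ideal.span {t}) (e.symm (e y)) = _
    rw [e.symm_apply_apply]
  have h1 : (θ.comp ((Ideal.Quotient.mk (Ideal.span {e t})).comp c)).Finite :=
    (RingHom.Finite.of_surjective _ hθ).comp h
  have h2 : θ.comp ((Ideal.Quotient.mk (Ideal.span {e t})).comp c) =
      algebraMap K ((K ⊗[B] R) ⧸ Ideal.span {t}) := by
    ext k
    change Ideal.Quotient.mk (Ideal.span {t}) (e.symm (c k)) = _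
    rw [← he, e.symm_apply_apply]
    rfl
  rw [h2] at h1
  exact RingHom.finite_algebraMap.1 h1

end TRN

open IsLocalRing in
theorem t_TRN (hCL : Stmt_CL) : Stmt_TRN := by
  intro B _ _ _ y hy W hW ⟨x, hxW, hx⟩
  let _ : Algebra B Γ(y.X, W) := (coef y.π W).toAlgebra
  have hfl : Module.Flat B Γ(y.X, W) := by
    have := hy.flat
    have h1 := HasRingHomProperty.appLE (P := @Flat) y.π inferInstance
      ⟨⊤, isAffineOpen_top _⟩ ⟨W, hW⟩ le_top
    have h2 : (coef y.π W).Flat := by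
      rw [coef_eq]
      exact RingHom.Flat.comp (RingHom.Flat.of_bijective
        (ConcreteCategory.bijective_of_isIso (Scheme.ΓSpecIso (CommRingCat.of B)).inv)) h1
    exact h2
  -- the geometric closed fibre
  let K₀ := AlgebraicClosure (ResidueField B)
  let s₀ : B →+* K₀ := (algebraMap (ResidueField B) K₀).comp (residue B)
  have hs₀ : IsLocalHom s₀ := RingHom.isLocalHom_comp _ _
  have hCrv : ∀ (K : Type) [Field K] [IsAlgClosed K] (s : B →+* K), Crv (PBS.bc s y).X := by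
    intro K _ _ s
    have := TRN.charZero s
    exact crv_of_stable hCL _ (PBS.bc_stable s y hy)
  have hne : Nonempty ((PBS.bcArrow s₀ y).f ⁻¹ᵁ W : (PBS.bc s₀ y).X.Opens) := by
    let pt : Sp K₀ := (⊥ : PrimeSpectrum K₀)
    have h1 : y.π x = spMap s₀ pt := by
      rw [hx]
      have h2 := IsLocalRing.comap_closedPoint s₀
      rw [← h2]
      change PrimeSpectrum.comap s₀ _ = PrimeSpectrum.comap s₀ _
      congr 1
      exact Subsingleton.elim _ _
    obtain ⟨z, hz, -⟩ := Scheme.Pullback.exists_preimage_pullback (f := y.π) (g := spMap s₀)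
      x pt h1
    refine ⟨⟨z, ?_⟩⟩
    change pullback.fst y.π (spMap s₀) z ∈ W
    rw [hz]
    exact hxW
  let A₀ : Algebra B K₀ := s₀.toAlgebra
  have hl₀ : IsLocalHom (algebraMap B K₀) := hs₀
  obtain ⟨h, hh⟩ : ∃ h : Γ(y.X, W), ∀ ξ : K₀, (1 ⊗ₜ h : K₀ ⊗[B] Γ(y.X, W)) ≠ ξ ⊗ₜ 1 := by
    by_contra hcon
    push Not at hcon
    obtain ⟨e, he⟩ := tp_affine (PBS.bcArrow s₀ y) hW
    apply TRN.not_surj (PBS.bc s₀ y).π (hCrv K₀ s₀) (pre_affine (PBS.bcArrow s₀ y) hW) hne
    intro v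
    obtain ⟨u, rfl⟩ := e.surjective v
    induction u using TensorProduct.induction_on with
    | zero => exact ⟨0, by rw [map_zero, map_zero]⟩
    | add u v hu hv =>
      obtain ⟨c, hc⟩ := hu
      obtain ⟨d, hd⟩ := hv
      exact ⟨c + d, by rw [map_add, hc, hd, map_add]⟩
    | tmul k r =>
      obtain ⟨ξ, hξ⟩ := hcon r
      refine ⟨k * ξ, ?_⟩
      have h1 : (k ⊗ₜ r : K₀ ⊗[B] Γ(y.X, W)) = (k * ξ) ⊗ₜ 1 := by
        have h2 : (k ⊗ₜ r : K₀ ⊗[B] Γ(y.X, W)) = (k ⊗ₜ 1) * (1 ⊗ₜ r) := by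
          rw [Algebra.TensorProduct.tmul_mul_tmul, mul_one, one_mul]
        rw [h2, hξ, Algebra.TensorProduct.tmul_mul_tmul, mul_one]
      rw [h1, he, map_one, mul_one]
  refine ⟨h, TRN.qf_of_geom h (fun K _ _ s ξ => ?_)⟩
  let A : Algebra B K := s.toAlgebra
  obtain ⟨e, he⟩ := tp_affine (PBS.bcArrow s y) hW
  have hne' : (1 ⊗ₜ h - ξ ⊗ₜ 1 : K ⊗[B] Γ(y.X, W)) ≠ 0 :=
    sub_ne_zero.2 (TRN.nonconst h hh ξ)
  have hlft : LocallyOfFiniteType (PBS.bc s y).π := by
    have := (PBS.bc_stable s y hy).fp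
    infer_instance
  refine TRN.fin_transfer (coef (PBS.bc s y).π ((PBS.bcArrow s y).f ⁻¹ᵁ W)) e (fun k => ?_) _
    (TRN.quot_fin (PBS.bc s y).π (hCrv K s) (pre_affine (PBS.bcArrow s y) hW) _ ?_)
  · rw [he, map_one, mul_one]
  · intro h0
    exact hne' ((map_eq_zero_iff e e.injective).1 h0)

end Pool.Agent.MG.WL


end

section

/-!
# FG: the big chart of a nice cover meets the closed fibre
-/

open CategoryTheory CategoryTheory.Limits AlgebraicGeometry TensorProduct TopologicalSpace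

namespace Pool.Agent.MG.WL

open Pool.Agent.MG.W Pool.Agent.MG.One

namespace FG

/-- A chart whose equation vanishes on the fibre is finite on the fibre. -/
theorem fin_of_zero {B K : Type} [CommRing B] [Field K] {s : B →+* K} {y : Fam 1 B} {z : Fam 1 K}
    (a : Arrow s z y) {V : y.X.Opens} (hV : IsAffineOpen V) (b : Γ(y.X, V))
    (hb : ((Ideal.Quotient.mk (Ideal.span {b})).comp (coef y.π V)).Finite)
    (h0 : (a.f.appLE V (a.f ⁻¹ᵁ V) le_rfl).hom b = 0) :
    ((a.f ⁻¹ᵁ V : z.X.Opens) : Set z.X).Finite := by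
  let _ : Algebra B Γ(y.X, V) := (coef y.π V).toAlgebra
  let _ : Algebra B K := s.toAlgebra
  obtain ⟨e, he⟩ := tp_affine a hV
  let G := Γ(z.X, a.f ⁻¹ᵁ V)
  let _ : Algebra K G := (coef z.π (a.f ⁻¹ᵁ V)).toAlgebra
  have hfin : Module.Finite K G := by
    let Qt := Γ(y.X, V) ⧸ Ideal.span {b}
    have h1 : Module.Finite B Qt := RingHom.finite_algebraMap.1 hb
    let _ : Algebra B G := ((coef z.π (a.f ⁻¹ᵁ V)).comp s).toAlgebra
    have : IsScalarTower B K G := IsScalarTower.of_algebraMap_eq' rfl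
    let f : Γ(y.X, V) →ₐ[B] G :=
      { (a.f.appLE V (a.f ⁻¹ᵁ V) le_rfl).hom with
        commutes' := fun c => coef_arrow a.cart.w V _ le_rfl c }
    let ψ : Qt →ₐ[B] G := Ideal.Quotient.liftₐ _ f (by
      intro x hx
      rw [Ideal.mem_span_singleton'] at hx
      obtain ⟨c, rfl⟩ := hx
      rw [map_mul]
      change _ * (a.f.appLE V (a.f ⁻¹ᵁ V) le_rfl).hom b = 0
      rw [h0, mul_zero])
    let Θ : K ⊗[B] Qt →ₐ[K] G :=
      Algebra.TensorProduct.lift (Algebra.ofId K G) ψ (fun _ _ => mul_comm _ _)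
    have hΘ : Function.Surjective Θ := by
      intro v
      obtain ⟨u, rfl⟩ := e.surjective v
      induction u using TensorProduct.induction_on with
      | zero => exact ⟨0, by rw [map_zero, map_zero]⟩
      | add u v hu hv =>
        obtain ⟨c, hc⟩ := hu
        obtain ⟨d, hd⟩ := hv
        exact ⟨c + d, by rw [map_add, hc, hd, map_add]⟩
      | tmul k r =>
        refine ⟨k ⊗ₜ Ideal.Quotient.mk _ r, ?_⟩
        rw [he]
        rfl
    exact Module.Finite.of_surjective Θ.toLinearMap hΘ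
  have : IsArtinianRing G := IsArtinianRing.of_finite K G
  have hF : Finite (PrimeSpectrum G) := inferInstance
  exact Finite.of_injective _ (Two.primeIdealOf_injective (pre_affine a hV))

open IsLocalRing in
theorem meets (hCL : Stmt_CL) {B : Type} [CommRing B] [IsLocalRing B] [Algebra ℂ B] (y : Fam 1 B)
    (hy : IsStable 1 y) {L : LC y} (N : NC L) :
    ∃ x ∈ N.W, y.π x = IsLocalRing.closedPoint B := by
  by_contra hno
  push Not at hno
  let K₀ := AlgebraicClosure (ResidueField B)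
  let s₀ : B →+* K₀ := (algebraMap (ResidueField B) K₀).comp (residue B)
  have := TRN.charZero s₀
  have hC : Crv (PBS.bc s₀ y).X := crv_of_stable hCL _ (PBS.bc_stable s₀ y hy)
  have hs₀ : IsLocalHom s₀ := RingHom.isLocalHom_comp _ _
  let a := PBS.bcArrow s₀ y
  have hW : a.f ⁻¹ᵁ N.W = ⊥ := by
    rw [eq_bot_iff]
    intro z hz
    refine (hno (a.f z) hz ?_).elim
    have h1 : y.π (a.f z) = spMap s₀ ((PBS.bc s₀ y).π z) := by
      rw [← Scheme.Hom.comp_apply, ← Scheme.Hom.comp_apply, a.cart.w]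
    rw [h1, ← IsLocalRing.comap_closedPoint s₀]
    change PrimeSpectrum.comap s₀ _ = PrimeSpectrum.comap s₀ _
    congr 1
    exact Subsingleton.elim _ _
  have hb : ∀ i, (a.f.appLE (N.V i) (a.f ⁻¹ᵁ N.V i) le_rfl).hom (N.β i) = 0 := by
    intro i
    have := hC.int
    rw [← basicOpen_eq_bot_iff, eq_bot_iff, ← hW]
    have h1 := Scheme.basicOpen_appLE a.f (a.f ⁻¹ᵁ N.V i) (N.V i) le_rfl (N.β i)
    refine h1.le.trans (inf_le_right.trans ?_)
    rw [N.bas i]
    exact fun x hx => hx.1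
  have hfin : (Set.univ : Set (PBS.bc s₀ y).X).Finite := by
    refine (Set.finite_iUnion fun i =>
      fin_of_zero a (N.aV i) (N.β i) (N.finite i) (hb i)).subset fun z _ => ?_
    rcases N.cov (a.f z) with h | ⟨i, h⟩
    · have h1 : z ∈ a.f ⁻¹ᵁ N.W := h
      rw [hW] at h1
      exact h1.elim
    · exact Set.mem_iUnion.2 ⟨i, h⟩
  have := hC.inf
  exact Set.infinite_univ hfin

theorem ftc {B : Type} [CommRing B] {X : Scheme.{0}} (π : X ⟶ Sp B) [LocallyOfFiniteType π]
    {U : X.Opens} (hU : IsAffineOpen U) : (coef π U).FiniteType := by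
  have h1 := HasRingHomProperty.appLE (P := @LocallyOfFiniteType) π inferInstance
    ⟨⊤, isAffineOpen_top _⟩ ⟨U, hU⟩ le_top
  rw [coef_eq]
  exact h1.comp (RingHom.FiniteType.of_surjective _
    (ConcreteCategory.bijective_of_isIso (Scheme.ΓSpecIso (CommRingCat.of B)).inv).2)

theorem qf_rs {X : Scheme.{0}} {U V : X.Opens} (hU : IsAffineOpen U) (hV : IsAffineOpen V)
    (h : U ≤ V) : (rs X h).QuasiFinite := by
  have h0 : U ≤ (𝟙 X : X ⟶ X) ⁻¹ᵁ V := h
  have h1 := LocallyQuasiFinite.quasiFinite_appLE (f := 𝟙 X) hV hU h0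
  have h2 : (𝟙 X : X ⟶ X).appLE V U h0 = X.presheaf.map (homOfLE h).op := by
    rw [Scheme.Hom.appLE, Scheme.Hom.id_app]
    exact Category.id_comp (X.presheaf.map (homOfLE h).op)
  rw [h2] at h1
  exact h1

open Polynomial in
theorem qf_sub {B : Type} [CommRing B] {X : Scheme.{0}} (π : X ⟶ Sp B) {U V : X.Opens}
    (hU : IsAffineOpen U) (hV : IsAffineOpen V) (h : U ≤ V) (f : Γ(X, V))
    (hf : (eval₂RingHom (coef π V) f).QuasiFinite) :
    (eval₂RingHom (coef π U) (rs X h f)).QuasiFinite := by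
  have h1 : eval₂RingHom (coef π U) (rs X h f) = (rs X h).comp (eval₂RingHom (coef π V) f) := by
    refine ringHom_ext (fun b => ?_) ?_
    · rw [RingHom.comp_apply, coe_eval₂RingHom, coe_eval₂RingHom, eval₂_C, eval₂_C, coef_rs]
    · rw [RingHom.comp_apply, coe_eval₂RingHom, coe_eval₂RingHom, eval₂_X, eval₂_X]
  rw [h1]
  exact (qf_rs hU hV h).comp hf

open Polynomial in
/-- The charts of the graph over the big chart. -/
theorem qf_one (hQFV : Stmt_QFV) {B R : Type} [CommRing B] [CommRing R] (c : B →+* R) (h : R)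
    (hc : c.FiniteType) (hqf : (eval₂RingHom c h).QuasiFinite) :
    ((Ideal.Quotient.mk (Ideal.span {(X - C h : R[X])})).comp (mapRingHom c)).QuasiFinite ∧
    ((Ideal.Quotient.mk (Ideal.span {(C h * X - 1 : R[X])})).comp (mapRingHom c)).QuasiFinite := by
  have hs : Subsingleton (R ⧸ Ideal.span {(1 : R)}) :=
    Ideal.Quotient.subsingleton_iff.2 Ideal.span_singleton_one
  have h1 := hQFV c (RingHom.id R) 1 h h 0 hc
    (RingHom.Finite.of_surjective _ fun x => ⟨0, Subsingleton.elim _ _⟩)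
    (IsLocalization.away_of_isUnit_of_bijective R isUnit_one Function.bijective_id)
    (by rw [pow_zero, one_mul, RingHom.id_apply]) (by rw [RingHom.id_comp]; exact hqf)
  have e1 : (C (1 ^ 0) * X - C h : R[X]) = X - C h := by rw [pow_zero, C_1, one_mul]
  have e2 : (C h * X - C (1 ^ 0) : R[X]) = C h * X - 1 := by rw [pow_zero, C_1]
  exact ⟨e1 ▸ h1.1, e2 ▸ h1.2⟩

end FG

end Pool.Agent.MG.WL


end

section

/-!
# FG, translation: the product with the affine line
-/

open CategoryTheory CategoryTheory.Limits AlgebraicGeometry TensorProduct TopologicalSpace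

namespace Pool.Agent.MG.WL

open Pool.Agent.MG.W Pool.Agent.MG.One Pool.Agent.MG.GLU

open Polynomial

namespace FG

section

variable {B : Type} [CommRing B] {y : Fam 1 B} {z : Fam 1 B[X]}
  (a : Arrow (C : B →+* B[X]) z y)

/-- Polynomials as functions on the product with the affine line. -/
noncomputable def th (U : y.X.Opens) : Γ(y.X, U)[X] →+* Γ(z.X, a.f ⁻¹ᵁ U) :=
  eval₂RingHom (a.f.appLE U (a.f ⁻¹ᵁ U) le_rfl).hom (coef z.π (a.f ⁻¹ᵁ U) X)

theorem th_C {U : y.X.Opens} (r : Γ(y.X, U)) :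
    th a U (C r) = (a.f.appLE U (a.f ⁻¹ᵁ U) le_rfl).hom r := by
  rw [th, coe_eval₂RingHom, eval₂_C]

theorem th_X {U : y.X.Opens} : th a U X = coef z.π (a.f ⁻¹ᵁ U) X := by
  rw [th, coe_eval₂RingHom, eval₂_X]

theorem th_coef {U : y.X.Opens} (p : B[X]) :
    th a U (p.map (coef y.π U)) = coef z.π (a.f ⁻¹ᵁ U) p := by
  have h1 : (th a U).comp (mapRingHom (coef y.π U)) = coef z.π (a.f ⁻¹ᵁ U) := by
    refine ringHom_ext (fun b => ?_) ?_
    · rw [RingHom.comp_apply, coe_mapRingHom, map_C, th_C]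
      exact coef_arrow a.cart.w U _ le_rfl b
    · rw [RingHom.comp_apply, coe_mapRingHom, map_X, th_X]
  exact congrArg (fun f => f p) h1

theorem th_rs {U V : y.X.Opens} (h : U ≤ V) (h' : a.f ⁻¹ᵁ U ≤ a.f ⁻¹ᵁ V)
    (p : Γ(y.X, V)[X]) : rs z.X h' (th a V p) = th a U (p.map (rs y.X h)) := by
  have h1 : (rs z.X h').comp (th a V) = (th a U).comp (mapRingHom (rs y.X h)) := by
    refine ringHom_ext (fun r => ?_) ?_
    · rw [RingHom.comp_apply, RingHom.comp_apply, coe_mapRingHom, map_C, th_C, th_C]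
      change (a.f.appLE V (a.f ⁻¹ᵁ V) le_rfl ≫ z.X.presheaf.map (homOfLE h').op) r =
        (y.X.presheaf.map (homOfLE h).op ≫ a.f.appLE U (a.f ⁻¹ᵁ U) le_rfl) r
      rw [Scheme.Hom.appLE_map, Scheme.Hom.map_appLE]
    · rw [RingHom.comp_apply, RingHom.comp_apply, coe_mapRingHom, map_X, th_X, th_X, coef_rs]
  exact congrArg (fun f => f p) h1

theorem th_bij {U : y.X.Opens} (hU : IsAffineOpen U) : Function.Bijective (th a U) := by
  have hp := arrow_push a U (isIso_pushoutSection_of_isAffineOpen _ _ _ _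
    (isAffineOpen_top _) (isAffineOpen_top _) hU)
  let d1 : Γ(y.X, U) ⟶ CommRingCat.of Γ(y.X, U)[X] := CommRingCat.ofHom C
  let d2 : CommRingCat.of B[X] ⟶ CommRingCat.of Γ(y.X, U)[X] :=
    CommRingCat.ofHom (mapRingHom (coef y.π U))
  have hd : CommRingCat.ofHom (coef y.π U) ≫ d1 = CommRingCat.ofHom (C : B →+* B[X]) ≫ d2 := by
    refine CommRingCat.hom_ext (RingHom.ext fun b => ?_)
    change C (coef y.π U b) = (C b).map (coef y.π U)
    rw [map_C]
  let ψ := hp.desc d1 d2 hd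
  have h1 : ∀ p, ψ.hom (th a U p) = p := by
    have h2 : ψ.hom.comp (th a U) = RingHom.id _ := by
      refine ringHom_ext (fun r => ?_) ?_
      · rw [RingHom.comp_apply, th_C]
        exact ConcreteCategory.congr_hom (hp.inl_desc d1 d2 hd) r
      · rw [RingHom.comp_apply, th_X]
        refine (ConcreteCategory.congr_hom (hp.inr_desc d1 d2 hd) X).trans ?_
        change (X : B[X]).map (coef y.π U) = X
        rw [map_X]
    exact fun p => congrArg (fun f => f p) h2
  have h3 : ψ ≫ CommRingCat.ofHom (th a U) = 𝟙 _ := by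
    apply hp.hom_ext
    · rw [← Category.assoc, hp.inl_desc, Category.comp_id]
      exact CommRingCat.hom_ext (RingHom.ext fun r => th_C a r)
    · rw [← Category.assoc, hp.inr_desc, Category.comp_id]
      exact CommRingCat.hom_ext (RingHom.ext fun p => th_coef a p)
  constructor
  · intro p q hpq
    rw [← h1 p, hpq, h1]
  · intro v
    exact ⟨ψ.hom v, ConcreteCategory.congr_hom h3 v⟩

theorem mem_span {R G : Type} [CommRing R] [CommRing G] (t : R →+* G)
    (ht : Function.Bijective t) (x a : R) :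
    x ∈ Ideal.span {a} ↔ t x ∈ Ideal.span {t a} := by
  rw [Ideal.mem_span_singleton', Ideal.mem_span_singleton']
  constructor
  · rintro ⟨b, rfl⟩
    exact ⟨t b, by rw [map_mul]⟩
  · rintro ⟨b, hb⟩
    obtain ⟨b, rfl⟩ := ht.2 b
    exact ⟨b, ht.1 (by rw [map_mul, hb])⟩

theorem qf_tr {P R G : Type} [CommRing P] [CommRing R] [CommRing G] (t : R →+* G)
    (ht : Function.Bijective t) (c : P →+* R) (c' : P →+* G) (hc : ∀ p, t (c p) = c' p) (f : R)
    (h : ((Ideal.Quotient.mk (Ideal.span {f})).comp c).QuasiFinite) :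
    ((Ideal.Quotient.mk (Ideal.span {t f})).comp c').QuasiFinite := by
  obtain rfl : t.comp c = c' := RingHom.ext hc
  let θ : R ⧸ Ideal.span {f} →+* G ⧸ Ideal.span {t f} :=
    Ideal.Quotient.lift (Ideal.span {f}) ((Ideal.Quotient.mk (Ideal.span {t f})).comp t) (by
      intro a ha
      rw [RingHom.comp_apply, Ideal.Quotient.eq_zero_iff_mem]
      exact (mem_span _ ht _ _).1 ha)
  have hθ : Function.Surjective θ := by
    intro x
    obtain ⟨v, rfl⟩ := Ideal.Quotient.mk_surjective x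
    obtain ⟨p, rfl⟩ := ht.2 v
    exact ⟨Ideal.Quotient.mk _ p, rfl⟩
  exact (RingHom.QuasiFinite.of_finite (RingHom.Finite.of_surjective _ hθ)).comp h

/-- Transport of the conclusion of `GEO`. -/
theorem transport {B : Type} [CommRing B] {ι : Type} (D : SRings B ι)
    {R' : Type} {Q' S' : ι → Type} [CommRing R'] [∀ i, CommRing (Q' i)] [∀ i, CommRing (S' i)]
    (cr' : B[X] →+* R') (cq' : ∀ i, B[X] →+* Q' i) (jr' : ∀ i, R' →+* S' i)
    (jq' : ∀ i, Q' i →+* S' i) (tR : D.R[X] →+* R') (tQ : ∀ i, (D.Q i)[X] →+* Q' i)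
    (tS : ∀ i, (D.S i)[X] →+* S' i) (bR : Function.Bijective tR)
    (bQ : ∀ i, Function.Bijective (tQ i)) (bS : ∀ i, Function.Bijective (tS i))
    (hr : ∀ i r, jr' i (tR r) = tS i (r.map (D.jr i)))
    (hq : ∀ i r, jq' i (tQ i r) = tS i (r.map (D.jq i)))
    (hcr : ∀ p, tR (p.map D.cr) = cr' p) (hcq : ∀ i p, tQ i (p.map (D.cq i)) = cq' i p)
    (f : D.R[X]) (g : ∀ i, (D.Q i)[X])
    (H : (∃ (m : ℕ) (e : Fin m → R') (e' : Fin m → ∀ i, Q' i),
        (∀ j i, jr' i (e j) - jq' i (e' j i) ∈ Ideal.span {jr' i (tR f)}) ∧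
        ∀ (r : R') (q : ∀ i, Q' i), (∀ i, jr' i r - jq' i (q i) ∈ Ideal.span {jr' i (tR f)}) →
          ∃ c : Fin m → B[X], r - ∑ j, cr' (c j) * e j ∈ Ideal.span {tR f} ∧
            ∀ i, q i - ∑ j, cq' i (c j) * e' j i ∈ Ideal.span {tQ i (g i)}) ∧
      ∀ s : ∀ i, S' i, ∃ (r : R') (q : ∀ i, Q' i),
        ∀ i, s i - jr' i r - jq' i (q i) ∈ Ideal.span {jr' i (tR f)}) : D.Geo f g := by
  obtain ⟨⟨m, e, e', he, hG⟩, hs⟩ := H
  choose e1 he1 using fun j => bR.2 (e j)
  choose e2 he2 using fun j i => (bQ i).2 (e' j i)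
  refine ⟨⟨m, e1, e2, ?_, ?_⟩, ?_⟩
  · intro j i
    have h4 := he j i
    rw [← he1 j, ← he2 j i, hr, hq, hr, ← map_sub, ← mem_span _ (bS i)] at h4
    exact h4
  · intro r q hrq
    obtain ⟨c, hc1, hc2⟩ := hG (tR r) (fun i => tQ i (q i)) (fun i => by
      rw [hr, hq, hr, ← map_sub, ← mem_span _ (bS i)]
      exact hrq i)
    refine ⟨c, ?_, fun i => ?_⟩
    · rw [mem_span tR bR, map_sub, map_sum]
      simp only [map_mul, hcr, he1]
      exact hc1
    · rw [mem_span (tQ i) (bQ i), map_sub, map_sum]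
      simp only [map_mul, hcq, he2]
      exact hc2 i
  · intro s
    obtain ⟨r, q, hrq⟩ := hs (fun i => tS i (s i))
    obtain ⟨r1, hr1⟩ := bR.2 r
    choose q1 hq1 using fun i => (bQ i).2 (q i)
    refine ⟨r1, q1, fun i => ?_⟩
    have h4 := hrq i
    rw [← hr1, ← hq1 i, hr, hq, hr, ← map_sub, ← map_sub, ← mem_span _ (bS i)] at h4
    exact h4

variable {L : LC y} (N : NC L)

/-- The rings of a nice cover. -/
noncomputable def D : SRings B N.ι where
  R := Γ(y.X, N.W)
  Q i := Γ(y.X, N.V i)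
  S i := Γ(y.X, N.W ⊓ N.V i)
  cr := coef y.π N.W
  cq i := coef y.π (N.V i)
  cs i := coef y.π (N.W ⊓ N.V i)
  jr i := rs y.X (inf_le_left : N.W ⊓ N.V i ≤ N.W)
  jq i := rs y.X (inf_le_right : N.W ⊓ N.V i ≤ N.V i)
  hr _ _ := coef_rs _ _ _
  hq _ _ := coef_rs _ _ _

include a in
theorem geo (hGEO : Stmt_GEO) (hy : IsProper y.π) (hz : IsProper z.π) (f : Γ(y.X, N.W)[X])
    (g : ∀ i, Γ(y.X, N.V i)[X])
    (h1 : ∀ i, Ideal.span {f.map (rs y.X (inf_le_left : N.W ⊓ N.V i ≤ N.W))} =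
      Ideal.span {(g i).map (rs y.X (inf_le_right : N.W ⊓ N.V i ≤ N.V i))})
    (h2 : ((Ideal.Quotient.mk (Ideal.span {f})).comp (mapRingHom (coef y.π N.W))).QuasiFinite)
    (h3 : ∀ i, ((Ideal.Quotient.mk (Ideal.span {g i})).comp
      (mapRingHom (coef y.π (N.V i)))).QuasiFinite) :
    (D N).Geo f g := by
  have hWV : ∀ i, IsAffineOpen (N.W ⊓ N.V i) := fun i => inf_affine hy N.aW (N.aV i)
  have l1 : ∀ i, a.f ⁻¹ᵁ N.W ⊓ a.f ⁻¹ᵁ N.V i ≤ a.f ⁻¹ᵁ N.W := fun i => inf_le_left
  have l2 : ∀ i, a.f ⁻¹ᵁ N.W ⊓ a.f ⁻¹ᵁ N.V i ≤ a.f ⁻¹ᵁ N.V i := fun i => inf_le_right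
  have r1 : ∀ i (p : Γ(y.X, N.W)[X]), rs z.X (l1 i) (th a N.W p) =
      th a (N.W ⊓ N.V i) (p.map (rs y.X inf_le_left)) := fun i p => th_rs a inf_le_left (l1 i) p
  have r2 : ∀ i (p : Γ(y.X, N.V i)[X]), rs z.X (l2 i) (th a (N.V i) p) =
      th a (N.W ⊓ N.V i) (p.map (rs y.X inf_le_right)) := fun i p => th_rs a inf_le_right (l2 i) p
  have H := hGEO z.π hz (a.f ⁻¹ᵁ N.W)
    (fun i => a.f ⁻¹ᵁ N.V i) (pre_affine a N.aW) (fun i => pre_affine a (N.aV i))
    (fun z => N.cov (a.f z)) (fun i j hij x hx => N.dis i j hij hx) (th a N.W f)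
    (fun i => th a (N.V i) (g i)) (fun i => by
      have h4 := congrArg (Ideal.map (th a (N.W ⊓ N.V i))) (h1 i)
      rw [Ideal.map_span, Ideal.map_span, Set.image_singleton, Set.image_singleton,
        ← r1 i f, ← r2 i (g i)] at h4
      exact h4)
    (qf_tr _ (th_bij a N.aW) _ _ (fun p => th_coef a p) f h2)
    (fun i => qf_tr _ (th_bij a (N.aV i)) _ _ (fun p => th_coef a p) (g i) (h3 i))
  exact transport (D N) (coef z.π (a.f ⁻¹ᵁ N.W))
    (fun i => coef z.π (a.f ⁻¹ᵁ N.V i)) (fun i => rs z.X (l1 i))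
    (fun i => rs z.X (l2 i)) (th a N.W) (fun i => th a (N.V i))
    (fun i => th a (N.W ⊓ N.V i)) (th_bij a N.aW) (fun i => th_bij a (N.aV i))
    (fun i => th_bij a (hWV i)) r1 r2 (fun p => th_coef a p) (fun i p => th_coef a p) f g H

end

end FG

end Pool.Agent.MG.WL


end

section

/-!
# FG: the first cohomology is finitely generated
-/

open CategoryTheory CategoryTheory.Limits AlgebraicGeometry TensorProduct TopologicalSpace

namespace Pool.Agent.MG.WL

open Pool.Agent.MG.W Pool.Agent.MG.One Pool.Agent.MG.GLU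

open Polynomial

namespace FG

theorem spans {R Q S : Type} [CommRing R] [CommRing Q] [CommRing S] (jr : R →+* S) (jq : Q →+* S)
    (h : R) (α β : Q) (hβ : IsUnit (jq β)) (h1 : jq β * jr h = jq α) :
    Ideal.span {(X - C h : R[X]).map jr} = Ideal.span {(C β * X - C α : Q[X]).map jq} ∧
    Ideal.span {(C h * X - 1 : R[X]).map jr} = Ideal.span {(C α * X - C β : Q[X]).map jq} := by
  have e1 : (C β * X - C α : Q[X]).map jq = C (jq β) * (X - C h : R[X]).map jr := by
    rw [Polynomial.map_sub, Polynomial.map_sub, Polynomial.map_mul, map_C, map_C, map_C, map_X,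
      map_X, ← h1, C_mul]
    ring
  have e2 : (C α * X - C β : Q[X]).map jq = C (jq β) * (C h * X - 1 : R[X]).map jr := by
    rw [Polynomial.map_sub, Polynomial.map_sub, Polynomial.map_mul, Polynomial.map_mul, map_C,
      map_C, map_C, map_X, map_X, Polynomial.map_one, ← h1, C_mul]
    ring
  rw [e1, e2]
  exact ⟨(Ideal.span_singleton_mul_left_unit (hβ.map C) _).symm,
    (Ideal.span_singleton_mul_left_unit (hβ.map C) _).symm⟩

end FG

theorem t_FG (hCL : Stmt_CL) (hGEO : Stmt_GEO) (hALGF : Stmt_ALGF) (hQFV : Stmt_QFV)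
    (hTRN : Stmt_TRN) : Stmt_FG := by
  intro B _ _ _ y hy L N
  have hpr := hy.proper
  have hlft : LocallyOfFiniteType y.π := by
    have := hy.fp
    infer_instance
  obtain ⟨h, hh⟩ := hTRN B y hy N.W N.aW (FG.meets hCL y hy N)
  have hWV : ∀ i, IsAffineOpen (N.W ⊓ N.V i) := fun i => inf_affine hpr N.aW (N.aV i)
  have hloc : ∀ i, (letI := (rs y.X (inf_le_right : N.W ⊓ N.V i ≤ N.V i)).toAlgebra
      IsLocalization.Away (N.β i) Γ(y.X, N.W ⊓ N.V i)) := fun i =>
    (N.aV i).isLocalization_of_eq_basicOpen (N.β i) (homOfLE inf_le_right) (N.bas i).symm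
  have hex : ∀ i, ∃ (n : ℕ) (α : Γ(y.X, N.V i)),
      rs y.X (inf_le_right : N.W ⊓ N.V i ≤ N.V i) (N.β i) ^ n *
        rs y.X (inf_le_left : N.W ⊓ N.V i ≤ N.W) h =
      rs y.X (inf_le_right : N.W ⊓ N.V i ≤ N.V i) α := by
    intro i
    let _ := (rs y.X (inf_le_right : N.W ⊓ N.V i ≤ N.V i)).toAlgebra
    have := hloc i
    obtain ⟨n, α, hα⟩ := IsLocalization.Away.surj (N.β i)
      (rs y.X (inf_le_left : N.W ⊓ N.V i ≤ N.W) h)
    exact ⟨n, α, (mul_comm _ _).trans hα⟩
  choose n α hα using hex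
  have hunit : ∀ i, IsUnit (rs y.X (inf_le_right : N.W ⊓ N.V i ≤ N.V i) (N.β i ^ n i)) := by
    intro i
    let _ := (rs y.X (inf_le_right : N.W ⊓ N.V i ≤ N.V i)).toAlgebra
    have := hloc i
    rw [map_pow]
    exact (IsLocalization.Away.algebraMap_isUnit (S := Γ(y.X, N.W ⊓ N.V i)) (N.β i)).pow _
  have hα' : ∀ i, rs y.X (inf_le_right : N.W ⊓ N.V i ≤ N.V i) (N.β i ^ n i) *
        rs y.X (inf_le_left : N.W ⊓ N.V i ≤ N.W) h =
      rs y.X (inf_le_right : N.W ⊓ N.V i ≤ N.V i) (α i) := by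
    intro i
    rw [map_pow]
    exact hα i
  have hV := fun i => hQFV (coef y.π (N.V i)) (rs y.X (inf_le_right : N.W ⊓ N.V i ≤ N.V i))
    (N.β i) (rs y.X (inf_le_left : N.W ⊓ N.V i ≤ N.W) h) (α i) (n i) (FG.ftc y.π (N.aV i))
    (N.finite i) (hloc i) (hα i) (by
      have h1 : (rs y.X (inf_le_right : N.W ⊓ N.V i ≤ N.V i)).comp (coef y.π (N.V i)) =
          coef y.π (N.W ⊓ N.V i) := RingHom.ext fun b => coef_rs _ _ _
      rw [h1]
      exact FG.qf_sub y.π (hWV i) N.aW inf_le_left h hh)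
  have hW := FG.qf_one hQFV (coef y.π N.W) h (FG.ftc y.π N.aW) hh
  have hsp := fun i => FG.spans (rs y.X (inf_le_left : N.W ⊓ N.V i ≤ N.W))
    (rs y.X (inf_le_right : N.W ⊓ N.V i ≤ N.V i)) h (α i) (N.β i ^ n i) (hunit i) (hα' i)
  let a := PBS.bcArrow (C : B →+* B[X]) y
  have hz : IsProper (PBS.bc (C : B →+* B[X]) y).π := (PBS.bc_stable C y hy).proper
  let f1 : Γ(y.X, N.W)[X] := X - C h
  let g1 : ∀ i, Γ(y.X, N.V i)[X] := fun i => C (N.β i ^ n i) * X - C (α i)
  let f2 : Γ(y.X, N.W)[X] := C h * X - 1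
  let g2 : ∀ i, Γ(y.X, N.V i)[X] := fun i => C (α i) * X - C (N.β i ^ n i)
  have G1 := FG.geo a N hGEO hpr hz f1 g1 (fun i => (hsp i).1) hW.1 (fun i => (hV i).1)
  have G2 := FG.geo a N hGEO hpr hz f2 g2 (fun i => (hsp i).2) hW.2 (fun i => (hV i).2)
  exact hALGF (FG.D N) h α (fun i => N.β i ^ n i) hunit hα' G1 G2

end Pool.Agent.MG.WL


end

section

/-!
# LPI: closed subschemes with one equation on every chart of a star shaped cover
-/

open CategoryTheory CategoryTheory.Limits AlgebraicGeometry TopologicalSpace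

namespace Pool.Agent.MG.WL

namespace LPI

variable {X : Scheme.{0}}

/-- The closed subscheme of the affine open `V` defined by the ideal `a`. -/
noncomputable abbrev ZZ {V : X.Opens} (a : Ideal Γ(X, V)) : Scheme.{0} :=
  Spec (CommRingCat.of (Γ(X, V) ⧸ a))

/-- The closed subscheme of the affine open `V` defined by the ideal `a`, as a scheme over `X`. -/
noncomputable def kk {V : X.Opens} (hV : IsAffineOpen V) (a : Ideal Γ(X, V)) : ZZ a ⟶ X :=
  Spec.map (CommRingCat.ofHom (Ideal.Quotient.mk a)) ≫ hV.fromSpec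

section

variable {V : X.Opens} (hV : IsAffineOpen V) (a : Ideal Γ(X, V))

theorem kk_pre : (kk hV a) ⁻¹ᵁ V = ⊤ := by
  rw [kk, Scheme.Hom.comp_preimage, hV.fromSpec_preimage_self]
  rfl

theorem kk_appLE : (kk hV a).appLE V ⊤ (kk_pre hV a).ge =
    CommRingCat.ofHom (Ideal.Quotient.mk a) ≫ (Scheme.ΓSpecIso _).inv := by
  have h1 : (kk hV a).appLE V ⊤ (kk_pre hV a).ge =
      hV.fromSpec.appLE V ⊤ hV.fromSpec_preimage_self.ge ≫
      (Spec.map (CommRingCat.ofHom (Ideal.Quotient.mk a))).appLE ⊤ ⊤ le_top := by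
    rw [Scheme.Hom.appLE_comp_appLE]
    rfl
  have h2 : hV.fromSpec.appLE V ⊤ hV.fromSpec_preimage_self.ge = (Scheme.ΓSpecIso Γ(X, V)).inv := by
    rw [Scheme.Hom.appLE, hV.fromSpec_app_self, Category.assoc, ← Functor.map_comp]
    have : (eqToHom hV.fromSpec_preimage_self).op ≫
        (homOfLE hV.fromSpec_preimage_self.ge).op = 𝟙 _ := rfl
    rw [this, CategoryTheory.Functor.map_id, Category.comp_id]
  have h3 : (Spec.map (CommRingCat.ofHom (Ideal.Quotient.mk a))).appLE ⊤ ⊤ le_top =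
      (Spec.map (CommRingCat.ofHom (Ideal.Quotient.mk a))).appTop := Scheme.Hom.appLE_eq_app _
  rw [h1, h2, h3]
  exact (Scheme.ΓSpecIso_inv_naturality (CommRingCat.ofHom (Ideal.Quotient.mk a))).symm

theorem ker_kk : RingHom.ker ((kk hV a).app V).hom = a := by
  ext s
  have h1 : ((kk hV a).app V).hom s = 0 ↔ ((kk hV a).appLE V ⊤ (kk_pre hV a).ge).hom s = 0 := by
    constructor
    · intro h
      change (ZZ a).presheaf.map _ (((kk hV a).app V).hom s) = 0
      rw [h, map_zero]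
    · intro h
      have h2 : (kk hV a).app V = (kk hV a).appLE V ⊤ (kk_pre hV a).ge ≫
          (ZZ a).presheaf.map (homOfLE le_top).op := by
        rw [Scheme.Hom.appLE_map, Scheme.Hom.appLE_eq_app]
      rw [h2]
      change (ZZ a).presheaf.map _ (((kk hV a).appLE V ⊤ (kk_pre hV a).ge).hom s) = 0
      rw [h, map_zero]
  rw [RingHom.mem_ker, h1, kk_appLE]
  change (Scheme.ΓSpecIso (CommRingCat.of (Γ(X, V) ⧸ a))).inv (Ideal.Quotient.mk a s) = 0 ↔ _
  rw [← Ideal.Quotient.eq_zero_iff_mem]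
  constructor
  · intro h
    have h3 := congrArg (Scheme.ΓSpecIso (CommRingCat.of (Γ(X, V) ⧸ a))).hom h
    rw [map_zero] at h3
    rw [← h3]
    exact (ConcreteCategory.congr_hom
      (Scheme.ΓSpecIso (CommRingCat.of (Γ(X, V) ⧸ a))).inv_hom_id (Ideal.Quotient.mk a s)).symm
  · intro h
    rw [h, map_zero]

theorem qc (hc : ∀ x : X, ∃ U : X.Opens, x ∈ U ∧ IsAffineOpen U ∧ IsAffineOpen (V ⊓ U)) :
    QuasiCompact (kk hV a) := by
  have h1 : QuasiCompact hV.fromSpec := by
    choose U hxU hU hVU using hc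
    rw [HasAffineProperty.iff_of_iSup_eq_top (P := @QuasiCompact) (fun x => ⟨U x, hU x⟩)
      (by
        rw [eq_top_iff]
        intro x _
        exact Opens.mem_iSup.2 ⟨x, hxU x⟩)]
    intro x
    have h2 : hV.fromSpec ⁻¹ᵁ (U x) = hV.fromSpec ⁻¹ᵁ (V ⊓ U x) := by
      rw [Scheme.Hom.preimage_inf, hV.fromSpec_preimage_self, top_inf_eq]
    have h3 : IsAffineOpen (hV.fromSpec ⁻¹ᵁ (U x)) := by
      rw [h2]
      exact (hVU x).preimage_of_isOpenImmersion _ (by
        rw [hV.opensRange_fromSpec]; exact inf_le_left)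
    exact isCompact_iff_compactSpace.1 h3.isCompact
  have : QuasiCompact hV.fromSpec := h1
  unfold kk
  infer_instance

/-- Functions on `U` which are in the ideal generated by `a` on `V ∩ U` vanish on `kk`. -/
theorem kk_zero (U : X.Opens) (s : Γ(X, U))
    (hs : rs X (inf_le_right : V ⊓ U ≤ U) s ∈ Ideal.map (rs X (inf_le_left : V ⊓ U ≤ V)) a) :
    ((kk hV a).app U).hom s = 0 := by
  have e1 : (kk hV a) ⁻¹ᵁ U = (kk hV a) ⁻¹ᵁ (V ⊓ U) := by
    rw [Scheme.Hom.preimage_inf, kk_pre, top_inf_eq]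
  have h1 : (kk hV a).app U = X.presheaf.map (homOfLE (inf_le_right : V ⊓ U ≤ U)).op ≫
      (kk hV a).appLE (V ⊓ U) ((kk hV a) ⁻¹ᵁ U) e1.le := by
    rw [Scheme.Hom.map_appLE, Scheme.Hom.appLE_eq_app]
  rw [h1]
  change ((kk hV a).appLE (V ⊓ U) ((kk hV a) ⁻¹ᵁ U) e1.le).hom (rs X inf_le_right s) = 0
  have h2 : Ideal.map (rs X (inf_le_left : V ⊓ U ≤ V)) a ≤
      RingHom.ker ((kk hV a).appLE (V ⊓ U) ((kk hV a) ⁻¹ᵁ U) e1.le).hom := by
    rw [Ideal.map_le_iff_le_comap]
    intro t ht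
    rw [Ideal.mem_comap, RingHom.mem_ker]
    have h3 : X.presheaf.map (homOfLE (inf_le_left : V ⊓ U ≤ V)).op ≫
        (kk hV a).appLE (V ⊓ U) ((kk hV a) ⁻¹ᵁ U) e1.le = (kk hV a).app V ≫
        (ZZ a).presheaf.map (homOfLE (by rw [kk_pre]; exact le_top)).op := by
      rw [Scheme.Hom.map_appLE]
      rfl
    have h4 := congrArg (fun φ => (φ.hom t)) h3
    refine Eq.trans h4 ?_
    have h5 : ((kk hV a).app V).hom t = 0 := by
      rw [← RingHom.mem_ker, ker_kk]
      exact ht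
    change (ZZ a).presheaf.map _ (((kk hV a).app V).hom t) = 0
    rw [h5, map_zero]
  exact h2 hs

end

theorem glue {κ : Type} [Finite κ] (O : κ → X.affineOpens) (cov : ∀ x : X, ∃ o, x ∈ (O o).1)
    (aff : ∀ o o', IsAffineOpen ((O o).1 ⊓ (O o').1)) (a : ∀ o, Ideal Γ(X, (O o).1))
    (ha : ∀ o o', Ideal.map (rs X (inf_le_right : (O o').1 ⊓ (O o).1 ≤ (O o).1)) (a o) ≤
      Ideal.map (rs X (inf_le_left : (O o').1 ⊓ (O o).1 ≤ (O o').1)) (a o')) :
    ∃ I : X.IdealSheafData, ∀ o, I.ideal (O o) = a o := by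
  have hq : ∀ o, QuasiCompact (kk (O o).2 (a o)) := fun o => qc _ _ fun x => by
    obtain ⟨o', ho'⟩ := cov x
    exact ⟨_, ho', (O o').2, aff _ _⟩
  refine ⟨⨅ o, (kk (O o).2 (a o)).ker, fun o => ?_⟩
  rw [Scheme.IdealSheafData.ideal_iInf, iInf_apply]
  apply le_antisymm
  · refine (iInf_le _ o).trans ?_
    rw [Scheme.Hom.ker_apply, ker_kk]
  · refine le_iInf fun o' => ?_
    rw [Scheme.Hom.ker_apply]
    intro s hs
    rw [RingHom.mem_ker]
    exact kk_zero _ _ _ _ (ha o o' (Ideal.mem_map_of_mem _ hs))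

variable {ι : Type} (W : X.Opens) (V : ι → X.Opens)

/-- The charts. -/
def O (hW : IsAffineOpen W) (hV : ∀ i, IsAffineOpen (V i)) : Option ι → X.affineOpens
  | none => ⟨W, hW⟩
  | some i => ⟨V i, hV i⟩

/-- The equations. -/
def eqs (hW : IsAffineOpen W) (hV : ∀ i, IsAffineOpen (V i)) (f : Γ(X, W))
    (g : ∀ i, Γ(X, V i)) : ∀ o : Option ι, Γ(X, (O W V hW hV o).1)
  | none => f
  | some i => g i

theorem span_res {W V : X.Opens} {f : Γ(X, W)} {g : Γ(X, V)}
    (h : Ideal.span {rs X (inf_le_left : W ⊓ V ≤ W) f} =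
      Ideal.span {rs X (inf_le_right : W ⊓ V ≤ V) g}) (U : X.Opens) (h1 : U ≤ W) (h2 : U ≤ V) :
    Ideal.span {rs X h1 f} = Ideal.span {rs X h2 g} := by
  have h3 := congrArg (Ideal.map (rs X (le_inf h1 h2))) h
  rw [Ideal.map_span, Ideal.map_span, Set.image_singleton, Set.image_singleton, CEC.rr_rr,
    CEC.rr_rr] at h3
  exact h3

variable {W V}

theorem main [Finite ι] (hW : IsAffineOpen W) (hV : ∀ i, IsAffineOpen (V i))
    (hWV : ∀ i, IsAffineOpen (W ⊓ V i)) (cov : ∀ z : X, z ∈ W ∨ ∃ i, z ∈ V i)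
    (dis : ∀ i j, i ≠ j → V i ⊓ V j ≤ W) (f : Γ(X, W)) (g : ∀ i, Γ(X, V i))
    (h : ∀ i, Ideal.span {rs X (inf_le_left : W ⊓ V i ≤ W) f} =
      Ideal.span {rs X (inf_le_right : W ⊓ V i ≤ V i) (g i)}) :
    ∃ I : X.IdealSheafData, I.ideal ⟨W, hW⟩ = Ideal.span {f} ∧
      ∀ i, I.ideal ⟨V i, hV i⟩ = Ideal.span {g i} := by
  classical
  have key : ∀ (o o' : Option ι) (U : X.Opens) (h1 : U ≤ (O W V hW hV o).1)
      (h2 : U ≤ (O W V hW hV o').1), Ideal.span {rs X h1 (eqs W V hW hV f g o)} =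
        Ideal.span {rs X h2 (eqs W V hW hV f g o')} := by
    rintro (_ | i) (_ | j) U h1 h2
    · rfl
    · exact span_res (h j) U h1 h2
    · exact (span_res (h i) U h2 h1).symm
    · rcases eq_or_ne i j with rfl | hij
      · rfl
      · have hU : U ≤ W := (le_inf h1 h2).trans (dis i j hij)
        exact (span_res (h i) U hU h1).symm.trans (span_res (h j) U hU h2)
  obtain ⟨I, hI⟩ := glue (O W V hW hV) (fun x => by
      rcases cov x with hx | ⟨i, hx⟩
      · exact ⟨none, hx⟩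
      · exact ⟨some i, hx⟩)
    (by
      rintro (_ | i) (_ | j)
      · change IsAffineOpen (W ⊓ W)
        rwa [inf_idem]
      · exact hWV j
      · change IsAffineOpen (V i ⊓ W)
        rw [inf_comm]
        exact hWV i
      · change IsAffineOpen (V i ⊓ V j)
        rcases eq_or_ne i j with rfl | hij
        · rw [inf_idem]
          exact hV i
        · have h1 : V i ⊓ V j = (W ⊓ V i) ⊓ (W ⊓ V j) := by
            rw [inf_inf_inf_comm, inf_idem]
            exact (inf_eq_right.2 (dis i j hij)).symm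
          rw [h1]
          exact CEC.aff_inf hW (hWV i) (hWV j) inf_le_left inf_le_left)
    (fun o => Ideal.span {eqs W V hW hV f g o}) (fun o o' => by
      rw [Ideal.map_span, Ideal.map_span, Set.image_singleton, Set.image_singleton]
      exact (key o o' _ _ _).le)
  exact ⟨I, hI none, fun i => hI (some i)⟩

end LPI

theorem t_LPI : Stmt_LPI := by
  intro X ι _ W V hW hV hWV cov dis f g h
  obtain ⟨I, h1, h2⟩ := LPI.main hW hV hWV cov dis f g h
  refine ⟨I.subscheme, I.subschemeι, inferInstance, ?_, fun i => ?_⟩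
  · rw [← h1]
    exact I.ker_subschemeι_app ⟨W, hW⟩
  · rw [← h2]
    exact I.ker_subschemeι_app ⟨V i, hV i⟩

end Pool.Agent.MG.WL


end

section

/-!
# GEO: quasi-finite closed subschemes of a proper scheme over an affine base
-/

open CategoryTheory CategoryTheory.Limits AlgebraicGeometry TopologicalSpace

namespace Pool.Agent.MG.WL

namespace GEO

/-- Gluing of functions over a star shaped cover. -/
theorem glue {Z : Scheme.{0}} {ι : Type} (W : Z.Opens) (V : ι → Z.Opens)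
    (cov : ∀ z : Z, z ∈ W ∨ ∃ i, z ∈ V i) (dis : ∀ i j, i ≠ j → V i ⊓ V j ≤ W)
    (r : Γ(Z, W)) (q : ∀ i, Γ(Z, V i))
    (h : ∀ i, rs Z (inf_le_left : W ⊓ V i ≤ W) r = rs Z (inf_le_right : W ⊓ V i ≤ V i) (q i)) :
    ∃ z : Γ(Z, ⊤), rs Z le_top z = r ∧ ∀ i, rs Z le_top z = q i := by
  classical
  have key : ∀ (i : ι) (U : Z.Opens) (h1 : U ≤ W) (h2 : U ≤ V i), rs Z h1 r = rs Z h2 (q i) := by
    intro i U h1 h2
    have := congrArg (rs Z (le_inf h1 h2)) (h i)
    rwa [CEC.rr_rr, CEC.rr_rr] at this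
  let U : Option ι → Z.Opens := fun o => o.elim W V
  let sf : ∀ o : Option ι, Γ(Z, U o) := fun o => match o with
    | none => r
    | some i => q i
  have hc : TopCat.Presheaf.IsCompatible Z.presheaf U sf := by
    rintro (_ | i) (_ | j)
    · rfl
    · exact key j _ inf_le_left inf_le_right
    · exact (key i _ inf_le_right inf_le_left).symm
    · rcases eq_or_ne i j with rfl | hij
      · rfl
      · exact (key i (V i ⊓ V j) (dis i j hij) inf_le_left).symm.trans
          (key j (V i ⊓ V j) (dis i j hij) inf_le_right)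
  obtain ⟨z, hz, -⟩ := Z.sheaf.existsUnique_gluing' U ⊤ (fun o => homOfLE le_top) (by
    intro x _
    rcases cov x with hx | ⟨i, hx⟩
    · exact Opens.mem_iSup.2 ⟨none, hx⟩
    · exact Opens.mem_iSup.2 ⟨some i, hx⟩) sf hc
  exact ⟨z, hz none, fun i => hz (some i)⟩

theorem qf_of {P R T : Type} [CommRing P] [CommRing R] [CommRing T] (φ : R →+* T)
    (hφ : Function.Surjective φ) (I : Ideal R) (hI : RingHom.ker φ = I) (c : P →+* R)
    (h : ((Ideal.Quotient.mk I).comp c).QuasiFinite) : (φ.comp c).QuasiFinite := by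
  subst hI
  let e := RingHom.quotientKerEquivOfSurjective hφ
  have h1 : φ.comp c = (e : _ →+* T).comp ((Ideal.Quotient.mk (RingHom.ker φ)).comp c) := by
    ext x
    rfl
  rw [h1]
  exact (RingHom.QuasiFinite.of_finite e.finite).comp h

variable {P : Type} [CommRing P] {X Z : Scheme.{0}} (π : X ⟶ Sp P) (j : Z ⟶ X)

theorem qf_appLE [IsClosedImmersion j] (U : X.Opens) (hU : IsAffineOpen U) (I : Ideal Γ(X, U))
    (hI : RingHom.ker (j.app U).hom = I)
    (h : ((Ideal.Quotient.mk I).comp (coef π U)).QuasiFinite) :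
    ((j ≫ π).appLE ⊤ (j ⁻¹ᵁ U) le_top).hom.QuasiFinite := by
  have h1 : (((j ≫ π).appLE ⊤ (j ⁻¹ᵁ U) le_top).hom.comp
      (Scheme.ΓSpecIso (CommRingCat.of P)).inv.hom).QuasiFinite := by
    have h2 : ((j ≫ π).appLE ⊤ (j ⁻¹ᵁ U) le_top).hom.comp
        (Scheme.ΓSpecIso (CommRingCat.of P)).inv.hom = (j.app U).hom.comp (coef π U) := by
      ext a
      have h3 := coef_comp π j U (j ⁻¹ᵁ U) le_rfl a
      rw [coef_eq (j ≫ π)] at h3
      exact h3.symm.trans (by rw [Scheme.Hom.appLE_eq_app]; rfl)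
    rw [h2]
    exact qf_of _ (j.app_surjective U hU) I hI _ h
  exact h1.of_comp

theorem locQF [IsClosedImmersion j] {ι : Type} (W : X.Opens) (V : ι → X.Opens)
    (hW : IsAffineOpen W) (hV : ∀ i, IsAffineOpen (V i)) (cov : ∀ z : X, z ∈ W ∨ ∃ i, z ∈ V i)
    (f : Γ(X, W)) (g : ∀ i, Γ(X, V i)) (hf : RingHom.ker (j.app W).hom = Ideal.span {f})
    (hg : ∀ i, RingHom.ker (j.app (V i)).hom = Ideal.span {g i})
    (h1 : ((Ideal.Quotient.mk (Ideal.span {f})).comp (coef π W)).QuasiFinite)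
    (h2 : ∀ i, ((Ideal.Quotient.mk (Ideal.span {g i})).comp (coef π (V i))).QuasiFinite) :
    LocallyQuasiFinite (j ≫ π) := by
  refine HasRingHomProperty.of_iSup_eq_top (P := @LocallyQuasiFinite)
    (fun o : Option ι => match o with
      | none => ⟨j ⁻¹ᵁ W, hW.preimage j⟩
      | some i => ⟨j ⁻¹ᵁ V i, (hV i).preimage j⟩) ?_ ?_
  · rw [eq_top_iff]
    intro x _
    rcases cov (j x) with hx | ⟨i, hx⟩
    · exact Opens.mem_iSup.2 ⟨none, hx⟩
    · exact Opens.mem_iSup.2 ⟨some i, hx⟩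
  · rintro (_ | i)
    · exact qf_appLE π j W hW _ hf h1
    · exact qf_appLE π j (V i) (hV i) _ (hg i) (h2 i)

/-- Generators of the global functions. -/
theorem gens [IsFinite (j ≫ π)] : ∃ (m : ℕ) (ε : Fin m → Γ(Z, ⊤)), ∀ z, ∃ c : Fin m → P,
    z = ∑ l, coef (j ≫ π) ⊤ (c l) * ε l := by
  have h1 : (coef (j ≫ π) ⊤).Finite := by
    have h2 : (coef (j ≫ π) ⊤) = ((j ≫ π).appTop).hom.comp
        (Scheme.ΓSpecIso (CommRingCat.of P)).inv.hom := by
      have h3 : (j ≫ π).appLE ⊤ ⊤ le_top = (j ≫ π).appTop := Scheme.Hom.appLE_eq_app _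
      rw [coef_eq, h3]
      rfl
    rw [h2]
    refine ((j ≫ π).finite_appTop).comp (RingHom.Finite.of_surjective _ ?_)
    exact (ConcreteCategory.bijective_of_isIso _).2
  let A : Algebra P Γ(Z, ⊤) := (coef (j ≫ π) ⊤).toAlgebra
  have : Module.Finite P Γ(Z, ⊤) := h1
  obtain ⟨m, ε, hε⟩ := Module.Finite.exists_fin (R := P) (M := Γ(Z, ⊤))
  refine ⟨m, ε, fun z => ?_⟩
  have hz : z ∈ Submodule.span P (Set.range ε) := by rw [hε]; trivial
  rw [Submodule.mem_span_range_iff_exists_fun] at hz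
  obtain ⟨c, hc⟩ := hz
  exact ⟨c, hc.symm⟩

/-- The pull back of functions, as a function. -/
noncomputable def pl (U : X.Opens) : Γ(X, U) →+* Γ(Z, j ⁻¹ᵁ U) := (j.app U).hom

theorem pl_rs {U V : X.Opens} (h : U ≤ V) (h' : j ⁻¹ᵁ U ≤ j ⁻¹ᵁ V) (a : Γ(X, V)) :
    pl j U (rs X h a) = rs Z h' (pl j V a) := by
  change (X.presheaf.map (homOfLE h).op ≫ j.app U) a = _
  rw [Scheme.Hom.naturality]
  rfl

theorem pl_coef (U : X.Opens) (a : P) : pl j U (coef π U a) = coef (j ≫ π) (j ⁻¹ᵁ U) a := by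
  have h3 := coef_comp π j U (j ⁻¹ᵁ U) le_rfl a
  rw [← h3, Scheme.Hom.appLE_eq_app]
  rfl

theorem ker_res [IsClosedImmersion j] {U V : X.Opens} (hU : IsAffineOpen U)
    (hV : IsAffineOpen V) (h : U ≤ V) (f : Γ(X, V)) (hf : RingHom.ker (j.app V).hom = Ideal.span {f}) :
    RingHom.ker (j.app U).hom = Ideal.span {rs X h f} := by
  have h1 := (j.ker).map_ideal (U := ⟨U, hU⟩) (V := ⟨V, hV⟩) h
  rw [Scheme.Hom.ker_apply, Scheme.Hom.ker_apply] at h1
  rw [← h1, hf, Ideal.map_span, Set.image_singleton]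
  rfl

end GEO

theorem t_GEO (hLPI : Stmt_LPI) : Stmt_GEO := by
  intro P _ X π _ ι _ W V hW hV cov dis f g h qf qg
  have hWV : ∀ i, IsAffineOpen (W ⊓ V i) := fun i =>
    isAffineHom_diagonal_iff (f := π).1 inferInstance ⊤ (isAffineOpen_top _) W le_top (V i) le_top
      hW (hV i)
  obtain ⟨Z, j, hj, kW, kV⟩ := hLPI W V hW hV hWV cov dis f g h
  have hqf : LocallyQuasiFinite (j ≫ π) := GEO.locQF π j W V hW hV cov f g kW kV qf qg
  have hfin : IsFinite (j ≫ π) := IsFinite.of_isProper_of_locallyQuasiFinite _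
  have hZ : IsAffine Z := isAffine_of_isAffineHom (j ≫ π)
  have kWV : ∀ i, RingHom.ker (j.app (W ⊓ V i)).hom = Ideal.span {rs X inf_le_left f} :=
    fun i => GEO.ker_res j (hWV i) hW inf_le_left f kW
  have covZ : ∀ z : Z, z ∈ j ⁻¹ᵁ W ∨ ∃ i, z ∈ j ⁻¹ᵁ V i := fun z => cov (j z)
  have disZ : ∀ i i', i ≠ i' → j ⁻¹ᵁ V i ⊓ j ⁻¹ᵁ V i' ≤ j ⁻¹ᵁ W := fun i i' hii' x hx =>
    dis i i' hii' hx
  refine ⟨?_, fun s => ?_⟩
  · obtain ⟨m, ε, hε⟩ := GEO.gens π j
    have h1 : ∀ l, ∃ e : Γ(X, W), GEO.pl j W e = rs Z le_top (ε l) := fun l =>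
      j.app_surjective W hW _
    have h2 : ∀ l i, ∃ e : Γ(X, V i), GEO.pl j (V i) e = rs Z le_top (ε l) := fun l i =>
      j.app_surjective (V i) (hV i) _
    choose e he using h1
    choose e' he' using h2
    refine ⟨m, e, e', fun l i => ?_, fun r q hrq => ?_⟩
    · rw [← kWV, RingHom.mem_ker, map_sub, sub_eq_zero]
      change GEO.pl j _ (rs X _ (e l)) = GEO.pl j _ (rs X _ (e' l i))
      rw [GEO.pl_rs j inf_le_left (fun x hx => hx.1), GEO.pl_rs j inf_le_right (fun x hx => hx.2),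
        he, he', CEC.rr_rr, CEC.rr_rr]
    · obtain ⟨z, hz1, hz2⟩ := GEO.glue (j ⁻¹ᵁ W) (fun i => j ⁻¹ᵁ V i) covZ disZ
        (GEO.pl j W r) (fun i => GEO.pl j (V i) (q i)) (fun i => by
          have h3 := hrq i
          rw [← kWV, RingHom.mem_ker, map_sub, sub_eq_zero] at h3
          change GEO.pl j _ (rs X _ r) = GEO.pl j _ (rs X _ (q i)) at h3
          rw [GEO.pl_rs j inf_le_left (fun x hx => hx.1),
            GEO.pl_rs j inf_le_right (fun x hx => hx.2)] at h3
          exact h3)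
      obtain ⟨c, hc⟩ := hε z
      refine ⟨c, ?_, fun i => ?_⟩
      · rw [← kW, RingHom.mem_ker, map_sub, sub_eq_zero, map_sum]
        change GEO.pl j W r = ∑ l, GEO.pl j W (coef π W (c l) * e l)
        rw [← hz1, hc, map_sum]
        refine Finset.sum_congr rfl fun l _ => ?_
        rw [map_mul, map_mul, he, GEO.pl_coef, coef_rs]
      · rw [← kV, RingHom.mem_ker, map_sub, sub_eq_zero, map_sum]
        change GEO.pl j (V i) (q i) = ∑ l, GEO.pl j (V i) (coef π (V i) (c l) * e' l i)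
        rw [← hz2, hc, map_sum]
        refine Finset.sum_congr rfl fun l _ => ?_
        rw [map_mul, map_mul, he', GEO.pl_coef, coef_rs]
  · obtain ⟨r, q, hrq⟩ := CEC.cech (isAffineOpen_top Z) (ι := ι) (W := j ⁻¹ᵁ W)
      (E := fun i => j ⁻¹ᵁ V i) le_top (hW.preimage j) (fun _ => le_top)
      (fun i => (hV i).preimage j) (fun x _ => covZ x) disZ (fun i => GEO.pl j (W ⊓ V i) (s i))
    obtain ⟨r', hr'⟩ := j.app_surjective W hW r
    have h2 : ∀ i, ∃ q' : Γ(X, V i), GEO.pl j (V i) q' = q i := fun i =>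
      j.app_surjective (V i) (hV i) _
    choose q' hq' using h2
    have hr'' : GEO.pl j W r' = r := hr'
    refine ⟨r', q', fun i => ?_⟩
    rw [← kWV, RingHom.mem_ker, map_sub, map_sub, sub_sub, sub_eq_zero]
    change GEO.pl j _ (s i) = GEO.pl j _ (rs X _ r') + GEO.pl j _ (rs X _ (q' i))
    rw [GEO.pl_rs j inf_le_left (fun x hx => hx.1), GEO.pl_rs j inf_le_right (fun x hx => hx.2),
      hr'', hq']
    exact hrq i

end Pool.Agent.MG.WL


end

section

/-!
# Disjoint sections in the smooth locus of a stable curve (NPT)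
-/

set_option autoImplicit false

open CategoryTheory CategoryTheory.Limits AlgebraicGeometry TensorProduct

namespace Pool.Agent.MG.H2

namespace NPT

/-- The family without the sections. -/
def forget {m : ℕ} {K : Type} [CommRing K] (z : Fam m K) : Fam 0 K where
  X := z.X
  π := z.π
  σ := fun i => i.elim0
  sec := fun i => i.elim0

/-- The arrow without the sections. -/
def arrow {m : ℕ} {A K : Type} [CommRing A] [CommRing K] {s : A →+* K} {z : Fam m K}
    {y : Fam m A} (a : Arrow s z y) (x : Fam 0 A) (hX : y.X = x.X) (hπ : HEq y.π x.π) :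
    Arrow s (forget z) x := by
  obtain ⟨X, π, τ, hτ⟩ := x
  obtain ⟨Y, ρ, σ, hσ⟩ := y
  dsimp only at hX
  subst hX
  obtain rfl := eq_of_heq hπ
  exact ⟨a.f, a.cart, fun i => i.elim0⟩

theorem smooth_aux {Z X S T : Scheme.{0}} {f : Z ⟶ X} {p : Z ⟶ T} {q : X ⟶ S} {r : T ⟶ S}
    (h : IsPullback f p q r) (U : X.Opens) (hU : Smooth (U.ι ≫ q)) :
    Smooth ((f ⁻¹ᵁ U).ι ≫ p) := by
  have h1 : IsPullback (f ∣_ U) (f ⁻¹ᵁ U).ι U.ι f := isPullback_morphismRestrict f U
  exact MorphismProperty.of_isPullback (P := @Smooth) (h1.paste_vert h) hU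

theorem mem_aux {Z X S T : Scheme.{0}} {f : Z ⟶ X} {p : T ⟶ Z} {q : S ⟶ X} {r : T ⟶ S}
    (h : p ≫ f = r ≫ q) (U : X.Opens) (hU : ∀ s, q s ∈ U) (t : T) : p t ∈ f ⁻¹ᵁ U := by
  show f (p t) ∈ U
  rw [← Scheme.Hom.comp_apply, h, Scheme.Hom.comp_apply]
  exact hU _

end NPT

theorem t_NPT : Stmt_NPT := by
  intro m A _ g x hx σ hσ hsm hdis
  refine ⟨hx.proper, hx.flat, hx.fp, fun K _ _ s z hz => ?_⟩
  obtain ⟨a⟩ := hz
  have h0 : StableCurve g (NPT.forget z) :=
    hx.fib K s (NPT.forget z) ⟨NPT.arrow a x rfl HEq.rfl⟩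
  have hsec : ∀ i, z.σ i ≫ a.f = spMap s ≫ σ i := a.sec
  refine ⟨h0.connected, h0.nodal, h0.genus, ?_, ?_, ?_⟩
  · intro i j hij he
    exact hdis K s i j hij (by rw [← hsec i, ← hsec j, he])
  · intro i t
    obtain ⟨U, hU, hmem⟩ := hsm i
    refine ⟨a.f ⁻¹ᵁ U, ?_, NPT.smooth_aux a.cart U hU⟩
    exact NPT.mem_aux (hsec i) U hmem t
  · intro v U
    exact h0.rigid ⟨v.D, v.mul, v.const, v.res, fun _ i => i.elim0⟩ U

end Pool.Agent.MG.H2


end

section

/-!
# DEN: density of `P[1/z]` in the Laurent series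
-/

open CategoryTheory CategoryTheory.Limits AlgebraicGeometry TensorProduct

namespace Pool.Agent.MG.KX

open Pool.Agent.MG.G0 Pool.Agent.MG.GLU

namespace DEN

variable {I A : Type} [Fintype I] [CommRing A] {g : ℕ} {P : Subalgebra A (KK I A)}

theorem dense (hP : IsKr g P) (z : Pole P) (f : KK I A) (M : ℤ) :
    ∃ r ∈ Rz P z.z, f - r ∈ Pol I A (-M) := by
  obtain ⟨N, hN⟩ := (t_KNZ hP).1
  set k : ℕ := N + M.toNat with hk
  obtain ⟨p, hp, hq⟩ := hN ((z.z : KK I A) ^ k * f)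
  have h1 : (z.z : KK I A) ^ k * z.w ^ k = 1 := by rw [← mul_pow, z.zw, one_pow]
  refine ⟨z.w ^ k * p, ⟨k, ?_⟩, ?_⟩
  · rw [← mul_assoc, h1, one_mul]
    exact hp
  · have h2 : f - z.w ^ k * p = z.w ^ k * ((z.z : KK I A) ^ k * f - p) := by
      rw [mul_sub, ← mul_assoc, mul_comm (z.w ^ k) ((z.z : KK I A) ^ k), h1, one_mul]
    rw [h2]
    exact Pol_mono (by push_cast [hk]; omega) (mul_mem_Pol (z.pow_mem k) hq)

theorem dense0 (hP : IsKr g P) (z : Pole P) (f : KK I A) (hf : f ∈ Pol I A 0) (M : ℤ) :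
    ∃ r ∈ Rw P z.z, f - r ∈ Pol I A (-M) := by
  obtain ⟨r, hr, h⟩ := dense hP z f (max M 0)
  refine ⟨r, ⟨hr, ?_⟩, Pol_mono (by omega) h⟩
  have h1 : r = f - (f - r) := by abel
  have h2 : f - (f - r) ∈ Pol I A 0 := Submodule.sub_mem _ hf (Pol_mono (by omega) h)
  rw [← h1] at h2
  exact h2

end DEN

/-- DEN -/
theorem t_DEN : Stmt_DEN := by
  intro I A _ _ g P hP z
  refine ⟨DEN.dense hP z, DEN.dense0 hP z, fun f M => ?_⟩
  have hf : (fun i => psl A (f i)) ∈ Pol I A 0 := fun i m hm =>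
    psl_coeff_neg (f i) m (by omega)
  obtain ⟨r, hr, h⟩ := DEN.dense0 hP z (fun i => psl A (f i)) hf M
  refine ⟨⟨r, hr⟩, fun i m hm => ?_⟩
  have h1 : ((fun i => psl A (f i)) i - r i).coeff (m : ℤ) = 0 := h i m (by omega)
  rw [HahnSeries.coeff_sub, psl_coeff, sub_eq_zero] at h1
  rw [h1]
  change PowerSeries.coeff m (tops A (r i)) = (r i).coeff (m : ℤ)
  rw [tops, PowerSeries.coeff_mk]

end Pool.Agent.MG.KX


end

section

/-!
# TCX: Theorem G for Krichever rings
-/

open TensorProduct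

namespace Pool.Agent.MG.G0

namespace TCX

section

variable {B R S A : Type} [CommRing B] [CommRing R] [CommRing S] [CommRing A] [Algebra B R]
  [Algebra B S] [Algebra B A]

/-- The constant part of a formal point. -/
noncomputable def cp (h : S →ₐ[B] PowerSeries A) : S →ₐ[B] A where
  toRingHom := (PowerSeries.constantCoeff (R := A)).comp (h : S →+* PowerSeries A)
  commutes' b := by
    change PowerSeries.constantCoeff (h (algebraMap B S b)) = _
    rw [h.commutes, PowerSeries.algebraMap_apply, PowerSeries.constantCoeff_C]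

theorem cp_apply (h : S →ₐ[B] PowerSeries A) (f : S) :
    cp h f = PowerSeries.constantCoeff (h f) := rfl

/-- The universal property of `R[1/b]`. -/
def Uq (l : R →ₐ[B] S) (b : R) : Prop :=
  ∀ {D : Type} [CommRing D] [Algebra B D] (p : R →ₐ[B] D), IsUnit (p b) →
    ∃! p' : S →ₐ[B] D, p'.comp l = p

theorem fp {l : R →ₐ[B] S} {g : R} {x : S} (hx : l g = x) (h : S →ₐ[B] PowerSeries A)
    (hu : IsUnit (PowerSeries.coeff 1 (h x))) : FPm (h.comp l) := by
  refine Ideal.eq_top_of_isUnit_mem _ (Ideal.subset_span ⟨g, rfl⟩) ?_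
  change IsUnit (PowerSeries.coeff 1 (h (l g)))
  rw [hx]
  exact hu

theorem un {l : R →ₐ[B] S} {b : R} (hb : IsUnit (l b)) (h k : S →ₐ[B] PowerSeries A) :
    UnP b (h.comp l) (k.comp l) :=
  ⟨(hb.map h).map (PowerSeries.constantCoeff (R := A)),
    (hb.map k).map (PowerSeries.constantCoeff (R := A))⟩

theorem dj {l : R →ₐ[B] S} {b : R} (hb : IsUnit (l b)) (hU : Uq l b)
    (h k : S →ₐ[B] PowerSeries A) (hd : Ideal.span (Set.range fun f : S =>
      PowerSeries.constantCoeff (h f) - PowerSeries.constantCoeff (k f)) = ⊤) :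
    DJm (h.comp l) (k.comp l) := by
  obtain ⟨J, hJ⟩ : ∃ J : Ideal A, J = Ideal.span (Set.range fun r : R =>
      PowerSeries.constantCoeff ((h.comp l) r) - PowerSeries.constantCoeff ((k.comp l) r)) :=
    ⟨_, rfl⟩
  change Ideal.span (Set.range fun r : R =>
      PowerSeries.constantCoeff ((h.comp l) r) - PowerSeries.constantCoeff ((k.comp l) r)) = ⊤
  rw [← hJ]
  have e1 : ((Ideal.Quotient.mkₐ B J).comp (cp h)).comp l =
      ((Ideal.Quotient.mkₐ B J).comp (cp k)).comp l := by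
    refine AlgHom.ext fun r => ?_
    change Ideal.Quotient.mk J (PowerSeries.constantCoeff (h (l r))) =
      Ideal.Quotient.mk J (PowerSeries.constantCoeff (k (l r)))
    rw [Ideal.Quotient.eq, hJ]
    exact Ideal.subset_span ⟨r, rfl⟩
  have e2 : (Ideal.Quotient.mkₐ B J).comp (cp h) = (Ideal.Quotient.mkₐ B J).comp (cp k) :=
    (hU (((Ideal.Quotient.mkₐ B J).comp (cp h)).comp l)
      (hb.map ((Ideal.Quotient.mkₐ B J).comp (cp h)))).unique rfl e1.symm
  rw [eq_top_iff, ← hd, Ideal.span_le]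
  rintro _ ⟨f, rfl⟩
  have e3 := DFunLike.congr_fun e2 f
  change Ideal.Quotient.mk J (PowerSeries.constantCoeff (h f)) =
    Ideal.Quotient.mk J (PowerSeries.constantCoeff (k f)) at e3
  rwa [Ideal.Quotient.eq] at e3

theorem fu (hTFP : Stmt_TFP) {l : R →ₐ[B] S} {x : S} {Δ : Derivation B S S}
    (hinv : ∀ n : ℕ, n ≠ 0 → IsUnit (n : B)) (hch : IsChart B S x Δ)
    (h : S →ₐ[B] PowerSeries A) (hp : FPm (h.comp l)) :
    IsUnit (PowerSeries.coeff 1 (h x)) := by
  rw [← Ideal.span_singleton_eq_top, eq_top_iff]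
  have hp' : Ideal.span (Set.range fun r : R => PowerSeries.coeff 1 ((h.comp l) r)) = ⊤ := hp
  rw [← hp', Ideal.span_le]
  rintro _ ⟨r, rfl⟩
  have := (hTFP hinv hch (A := A)).2.2 h (l r)
  change PowerSeries.coeff 1 (h (l r)) ∈ Ideal.span {PowerSeries.coeff 1 (h x)}
  rw [this]
  exact Ideal.mul_mem_left _ _ (Ideal.mem_span_singleton_self _)

theorem dv {l : R →ₐ[B] S} (h k : S →ₐ[B] PowerSeries A) (hd : DJm (h.comp l) (k.comp l)) :
    Ideal.span (Set.range fun f : S =>
      PowerSeries.constantCoeff (h f) - PowerSeries.constantCoeff (k f)) = ⊤ := by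
  rw [eq_top_iff]
  have hd' : Ideal.span (Set.range fun r : R =>
      PowerSeries.constantCoeff ((h.comp l) r) - PowerSeries.constantCoeff ((k.comp l) r)) = ⊤ :=
    hd
  rw [← hd', Ideal.span_le]
  rintro _ ⟨r, rfl⟩
  exact Ideal.subset_span ⟨l r, rfl⟩

theorem ups {b : R} {p : R →ₐ[B] PowerSeries A} (hp : IsUnit (PowerSeries.constantCoeff (p b))) :
    IsUnit (p b) :=
  PowerSeries.isUnit_iff_constantCoeff.mpr hp

theorem fpm_of {R' : Type} [CommRing R'] [Algebra B R'] {ι : R →ₐ[B] R'}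
    {p : R' →ₐ[B] PowerSeries A} (hp : FPm (p.comp ι)) : FPm p := by
  change Ideal.span _ = _
  rw [eq_top_iff]
  have hp' : Ideal.span (Set.range fun r : R => PowerSeries.coeff 1 ((p.comp ι) r)) = ⊤ := hp
  rw [← hp', Ideal.span_le]
  rintro _ ⟨r, rfl⟩
  exact Ideal.subset_span ⟨ι r, rfl⟩

theorem djm_of {R' : Type} [CommRing R'] [Algebra B R'] {ι : R →ₐ[B] R'}
    {p q : R' →ₐ[B] PowerSeries A} (hp : DJm (p.comp ι) (q.comp ι)) : DJm p q := by
  change Ideal.span _ = _
  rw [eq_top_iff]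
  have hp' : Ideal.span (Set.range fun r : R =>
      PowerSeries.constantCoeff ((p.comp ι) r) - PowerSeries.constantCoeff ((q.comp ι) r)) = ⊤ :=
    hp
  rw [← hp', Ideal.span_le]
  rintro _ ⟨r, rfl⟩
  exact Ideal.subset_span ⟨ι r, rfl⟩

end

section

variable {B : Type} [CommRing B] {S : Bool → Type} [∀ j, CommRing (S j)]
  [∀ j, Algebra B (S j)] {R₁ R₂ : Type} [CommRing R₁] [CommRing R₂] [Algebra B R₁]
  [Algebra B R₂]

/-- The value of the pair of functions `c₁`, `c₂`. -/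
noncomputable def val (l₁ : R₁ →ₐ[B] S true) (l₂ : R₂ →ₐ[B] S false) (c₁ : CF B R₁)
    (c₂ : CF B R₂) (j : Bool) (A : Type) [CommRing A] [Algebra B A]
    (h k : S j →ₐ[B] PowerSeries A) : A :=
  match j, h, k with
  | true, h, k => c₁ A (h.comp l₁) (k.comp l₁)
  | false, h, k => c₂ A (h.comp l₂) (k.comp l₂)

variable {T : Type} [CommRing T] [Algebra B T] (G : TGD B S T) {P : Type} [CommRing P]
  [Algebra B P]

/-- The function of pairs of formal points given by `c₁`, `c₂`. -/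
noncomputable def fn {w : ℕ} (l₁ : R₁ →ₐ[B] S true) (l₂ : R₂ →ₐ[B] S false) (l : P →ₐ[B] T)
    (ι₁ : R₁ →ₐ[B] P) (ι₂ : R₂ →ₐ[B] P) (b₁ g₁ : R₁) (b₂ g₂ : R₂) (hg₁ : l₁ g₁ = G.x true)
    (hg₂ : l₂ g₂ = G.x false) (hi₁ : ∀ f, G.i true (l₁ f) = l (ι₁ f))
    (hi₂ : ∀ f, G.i false (l₂ f) = l (ι₂ f)) (hb₁ : IsUnit (l₁ b₁)) (hb₂ : IsUnit (l₂ b₂))
    (hU₁ : Uq l₁ b₁) (hU₂ : Uq l₂ b₂) (c₁ : CF B R₁) (c₂ : CF B R₂) (hn₁ : c₁.Nat b₁)
    (hn₂ : c₂.Nat b₂) (hw₁ : c₁.Wt b₁ w) (hw₂ : c₂.Wt b₂ w) (ha : CF.Agr b₁ b₂ ι₁ ι₂ c₁ c₂) :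
    GFn G w where
  c := fun j A _ _ h k => val l₁ l₂ c₁ c₂ j A h k
  nat := by
    intro j A A' _ _ _ _ φ h k h' k' hv hh hk
    cases j
    · exact hn₂ φ (h.comp l₂) (k.comp l₂) (h'.comp l₂) (k'.comp l₂) (fp hg₂ h hv.1)
        (fp hg₂ k hv.2.1) (dj hb₂ hU₂ h k hv.2.2) (un hb₂ h k) (fun r => hh (l₂ r))
        (fun r => hk (l₂ r))
    · exact hn₁ φ (h.comp l₁) (k.comp l₁) (h'.comp l₁) (k'.comp l₁) (fp hg₁ h hv.1)
        (fp hg₁ k hv.2.1) (dj hb₁ hU₁ h k hv.2.2) (un hb₁ h k) (fun r => hh (l₁ r))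
        (fun r => hk (l₁ r))
  hom := by
    intro j A _ _ h k h' k' s t hv hh hk
    cases j
    · exact hw₂ s t (h.comp l₂) (k.comp l₂) (h'.comp l₂) (k'.comp l₂) (fp hg₂ h hv.1)
        (fp hg₂ k hv.2.1) (dj hb₂ hU₂ h k hv.2.2) (un hb₂ h k) (fun r => hh (l₂ r))
        (fun r => hk (l₂ r))
    · exact hw₁ s t (h.comp l₁) (k.comp l₁) (h'.comp l₁) (k'.comp l₁) (fp hg₁ h hv.1)
        (fp hg₁ k hv.2.1) (dj hb₁ hU₁ h k hv.2.2) (un hb₁ h k) (fun r => hh (l₁ r))
        (fun r => hk (l₁ r))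
  agr := by
    intro A _ _ h k hv _
    have h1 : ∀ q : T →ₐ[B] PowerSeries A, (q.comp (G.i true)).comp l₁ = (q.comp l).comp ι₁ :=
      fun q => AlgHom.ext fun f => congrArg q (hi₁ f)
    have h2 : ∀ q : T →ₐ[B] PowerSeries A, (q.comp (G.i false)).comp l₂ = (q.comp l).comp ι₂ :=
      fun q => AlgHom.ext fun f => congrArg q (hi₂ f)
    have a1 := fp hg₁ (h.comp (G.i true)) (hv true).1
    have a2 := fp hg₁ (k.comp (G.i true)) (hv true).2.1
    have a3 := dj hb₁ hU₁ (h.comp (G.i true)) (k.comp (G.i true)) (hv true).2.2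
    have a4 := un hb₁ (h.comp (G.i true)) (k.comp (G.i true))
    have d1 := fp hg₂ (h.comp (G.i false)) (hv false).1
    have d2 := fp hg₂ (k.comp (G.i false)) (hv false).2.1
    have d3 := dj hb₂ hU₂ (h.comp (G.i false)) (k.comp (G.i false)) (hv false).2.2
    have d4 := un hb₂ (h.comp (G.i false)) (k.comp (G.i false))
    rw [h1] at a1 a2
    rw [h1, h1] at a3 a4
    rw [h2] at d1 d2
    rw [h2, h2] at d3 d4
    change c₁ A ((h.comp (G.i true)).comp l₁) ((k.comp (G.i true)).comp l₁) =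
      c₂ A ((h.comp (G.i false)).comp l₂) ((k.comp (G.i false)).comp l₂)
    rw [h1, h1, h2, h2]
    exact ha (h.comp l) (k.comp l) (fpm_of a1) (fpm_of a2) (djm_of a3) a1 a2 a3 d1 d2 d3 a4 d4

end

end TCX

open _root_.Pool.Agent.MG.G0.TCX in
/-- TCX: Theorem G for Krichever rings. -/
theorem t_TCX (hTFP : Stmt_TFP) (hTGG : Stmt_TGG) (hTCG : Stmt_TCG) : Stmt_TCX := by
  intro A _ h R₁ R₂ P ι₁ ι₂ D₁ g₁ D₂ g₂ hT
  obtain ⟨S, _, _, T, _, _, G, l₁, l₂, l, e1, e2, i1, i2, u1, u2, U1, U2⟩ := hTCG hT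
  intro w hw c₁ c₂ n1 n2 w1 w2 ag
  obtain ⟨F, hF⟩ : ∃ F : GFn G w, F = fn G l₁ l₂ l ι₁ ι₂ (D₁ g₁) g₁ (D₂ g₂) g₂ e1 e2 i1 i2 u1
    u2 U1 U2 c₁ c₂ n1 n2 w1 w2 ag := ⟨_, rfl⟩
  constructor
  · intro A' _ _ p q hp hq hd hu
    obtain ⟨p', hp', -⟩ := U1 p (ups hu.1)
    obtain ⟨q', hq', -⟩ := U1 q (ups hu.2)
    subst hp'
    subst hq'
    have := hTGG G F hw true p' q' ⟨fu hTFP G.inv (G.ch true) p' hp,
      fu hTFP G.inv (G.ch true) q' hq, dv p' q' hd⟩
    rw [hF] at this
    exact this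
  · intro A' _ _ p q hp hq hd hu
    obtain ⟨p', hp', -⟩ := U2 p (ups hu.1)
    obtain ⟨q', hq', -⟩ := U2 q (ups hu.2)
    subst hp'
    subst hq'
    have := hTGG G F hw false p' q' ⟨fu hTFP G.inv (G.ch false) p' hp,
      fu hTFP G.inv (G.ch false) q' hq, dv p' q' hd⟩
    rw [hF] at this
    exact this

end Pool.Agent.MG.G0


end
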