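import Mathlib
import Pool.Agent.KDM.C24
import Pool.Agent.KDM.C36
import Pool.Agent.KDM.C56

/-! Parts: MG.G0.TG.TCG -/

section

/-!
# TCG: the data of Theorem G (PAPER_TG.md)
-/

open TensorProduct

namespace Pool.Agent.MG.G0

namespace TCG

/-! ## Families of two rings -/

/-- Two rings as a family. -/
def SS (S₁ S₂ : Type) : Bool → Type
  | true => S₁
  | false => S₂

noncomputable instance ssR (S₁ S₂ : Type) [CommRing S₁] [CommRing S₂] : ∀ j, CommRing (SS S₁ S₂ j)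
  | true => inferInstanceAs (CommRing S₁)
  | false => inferInstanceAs (CommRing S₂)

noncomputable instance ssA (A S₁ S₂ : Type) [CommRing A] [CommRing S₁] [CommRing S₂]
    [Algebra A S₁] [Algebra A S₂] : ∀ j, Algebra A (SS S₁ S₂ j)
  | true => inferInstanceAs (Algebra A S₁)
  | false => inferInstanceAs (Algebra A S₂)

section mk

variable {A S₁ S₂ T : Type} [CommRing A] [CommRing S₁] [CommRing S₂] [CommRing T]
  [Algebra A S₁] [Algebra A S₂] [Algebra A T]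

/-- Assembly of the data. -/
noncomputable def mkG (x₁ : S₁) (x₂ : S₂) (Δ₁ : Derivation A S₁ S₁) (Δ₂ : Derivation A S₂ S₂)
    (i₁ : S₁ →ₐ[A] T) (i₂ : S₂ →ₐ[A] T) (ΔT : Derivation A T T)
    (inv : ∀ n : ℕ, n ≠ 0 → IsUnit (n : A)) (ch₁ : IsChart A S₁ x₁ Δ₁)
    (ch₂ : IsChart A S₂ x₂ Δ₂) (chT : IsChart A T (i₁ x₁) ΔT) (gu : IsUnit (ΔT (i₂ x₂)))
    (ft₁ : Algebra.FiniteType A S₁) (ft₂ : Algebra.FiniteType A S₂)
    (inj₁ : ∀ (B : Type) [CommRing B] [Algebra A B], Function.Injective (tmp B i₁))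
    (inj₂ : ∀ (B : Type) [CommRing B] [Algebra A B], Function.Injective (tmp B i₂))
    (nz₁ : ∀ (B : Type) [CommRing B] [Algebra A B] (a : B),
      ((1 : B) ⊗ₜ[A] i₁ x₁ - a ⊗ₜ[A] (1 : T) : B ⊗[A] T) ∈ nonZeroDivisors (B ⊗[A] T))
    (nz₂ : ∀ (B : Type) [CommRing B] [Algebra A B] (a : B),
      ((1 : B) ⊗ₜ[A] i₂ x₂ - a ⊗ₜ[A] (1 : T) : B ⊗[A] T) ∈ nonZeroDivisors (B ⊗[A] T))
    (ns : ∀ (B : Type) [CommRing B] [Algebra A B] (n : ℕ) (c : B) (e₁ : B ⊗[A] S₁)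
      (e₂ : B ⊗[A] S₂), 1 ≤ n → IsUnit c →
      tmp B i₂ e₂ = (c ⊗ₜ[A] (ΔT (i₂ x₂) ^ n)) * tmp B i₁ e₁ → e₁ = 0) :
    TGD A (SS S₁ S₂) T where
  x := fun j => match j with
    | true => x₁
    | false => x₂
  Δ := fun j => match j with
    | true => Δ₁
    | false => Δ₂
  i := fun j => match j with
    | true => i₁
    | false => i₂
  ΔT := ΔT
  inv := inv
  ch := fun j => match j with
    | true => ch₁
    | false => ch₂
  chT := chT
  gu := gu
  ft := fun j => match j with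
    | true => ft₁
    | false => ft₂
  inj := fun j => match j with
    | true => fun B _ _ => inj₁ B
    | false => fun B _ _ => inj₂ B
  nz := fun j => match j with
    | true => fun B _ _ => nz₁ B
    | false => fun B _ _ => nz₂ B
  ns := fun B _ _ => ns B

end mk

/-! ## Localizations -/

theorem tens_ext {A B R S K : Type} [CommRing A] [CommRing B] [CommRing R] [CommRing S]
    [CommRing K] [Algebra A B] [Algebra A R] [Algebra A S] [Algebra R S] (M : Submonoid R)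
    [IsLocalization M S] [Algebra B K] (f g : B ⊗[A] S →ₐ[B] K)
    (h : ∀ r : R, f ((1 : B) ⊗ₜ[A] algebraMap R S r) = g ((1 : B) ⊗ₜ[A] algebraMap R S r)) :
    f = g := by
  have h1 : ((f : B ⊗[A] S →+* K).comp
      ((Algebra.TensorProduct.includeRight : S →ₐ[A] B ⊗[A] S) : S →+* B ⊗[A] S)) =
      ((g : B ⊗[A] S →+* K).comp
      ((Algebra.TensorProduct.includeRight : S →ₐ[A] B ⊗[A] S) : S →+* B ⊗[A] S)) :=
    IsLocalization.ringHom_ext M (RingHom.ext fun r => h r)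
  refine AlgHom.ext fun y => ?_
  induction y using TensorProduct.induction_on with
  | zero => rw [map_zero, map_zero]
  | tmul b s =>
    have h2 : b ⊗ₜ[A] s = b • ((1 : B) ⊗ₜ[A] s) := by
      rw [TensorProduct.smul_tmul', smul_eq_mul, mul_one]
    rw [h2, map_smul, map_smul]
    exact congrArg (fun z => b • z) (RingHom.congr_fun h1 s)
  | add a b ha hb => rw [map_add, map_add, ha, hb]

section lift

variable {A R P : Type} [CommRing A] [CommRing R] [CommRing P] [Algebra A R] [Algebra A P]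

theorem unit_of_dvd {c b : P} (h : c ∣ b) : IsUnit (algebraMap P (Localization.Away b) c) :=
  isUnit_of_dvd_unit (map_dvd _ h) (IsLocalization.Away.algebraMap_isUnit b)

/-- The map of the localizations. -/
noncomputable def lft (ι : R →ₐ[A] P) (d : R) (b : P) (h : ι d ∣ b) :
    Localization.Away d →ₐ[A] Localization.Away b :=
  IsLocalization.liftAlgHom (M := Submonoid.powers d)
    (f := (Algebra.algHom A P (Localization.Away b)).comp ι) (by
      rintro ⟨_, n, rfl⟩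
      change IsUnit (algebraMap P (Localization.Away b) (ι (d ^ n)))
      rw [map_pow, map_pow]
      exact (unit_of_dvd h).pow n)

theorem lft_apply (ι : R →ₐ[A] P) (d : R) (b : P) (h : ι d ∣ b) (f : R) :
    lft ι d b h (algebraMap R (Localization.Away d) f) =
      algebraMap P (Localization.Away b) (ι f) := by
  rw [lft, IsLocalization.liftAlgHom_apply, IsLocalization.lift_eq]
  rfl

theorem univ (d : R) {B : Type} [CommRing B] [Algebra A B] (p : R →ₐ[A] B) (hp : IsUnit (p d)) :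
    ∃! p' : Localization.Away d →ₐ[A] B, p'.comp (Algebra.algHom A R (Localization.Away d)) = p := by
  have hp' : ∀ y : Submonoid.powers d, IsUnit (p y) := by
    rintro ⟨_, n, rfl⟩
    change IsUnit (p (d ^ n))
    rw [map_pow]
    exact hp.pow n
  refine ⟨IsLocalization.liftAlgHom (M := Submonoid.powers d) (f := p) hp', ?_, ?_⟩
  · refine AlgHom.ext fun f => ?_
    exact IsLocalization.lift_eq hp' f
  · intro q hq
    refine IsLocalization.algHom_ext (Submonoid.powers d) (f := q) ?_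
    refine AlgHom.ext fun f => ?_
    have h1 := DFunLike.congr_fun hq f
    exact h1.trans (IsLocalization.lift_eq hp' f).symm

end lift

/-! ## The charts in Laurent series -/

/-- The expansion at the puncture `k`. -/
noncomputable def rk {I : Type} (B : Type) [CommRing B] (k : I) : KK I B →ₐ[B] KK Unit B where
  toFun f := fun _ => f k
  map_one' := rfl
  map_zero' := rfl
  map_add' _ _ := rfl
  map_mul' _ _ := rfl
  commutes' _ := rfl

section chart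

variable {A : Type} [CommRing A] {R : Subalgebra A (KK Unit A)}
  {P : Subalgebra A (KK (Unit ⊕ Unit) A)} {ι : R →ₐ[A] P} {k : Unit ⊕ Unit}
  {d : R} {b : P} {h : ι d ∣ b} {B : Type} [CommRing B] [Algebra A B]

/-- The embedding of `B ⊗ R[1/d]`. -/
def IsE {I : Type} {R : Subalgebra A (KK I A)} (d : R)
    (E : (B ⊗[A] Localization.Away d) →ₐ[B] KK I B) : Prop :=
  Function.Injective E ∧
    (∀ (a : B) (f : R), E (a ⊗ₜ[A] algebraMap R (Localization.Away d) f) =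
      a • kmap (algebraMap A B) (f : KK I A)) ∧
    ∀ y : B ⊗[A] Localization.Away d, ∃ (n m : ℕ) (a : Fin m → B) (f : Fin m → R),
      ((1 : B) ⊗ₜ[A] algebraMap R (Localization.Away d) (d ^ n)) * y =
        ∑ k, a k ⊗ₜ[A] algebraMap R (Localization.Away d) (f k)

theorem comp_eq (hk : ∀ f : R, (ι f : KK (Unit ⊕ Unit) A) k = (f : KK Unit A) ())
    {E : (B ⊗[A] Localization.Away d) →ₐ[B] KK Unit B}
    {E' : (B ⊗[A] Localization.Away b) →ₐ[B] KK (Unit ⊕ Unit) B} (hE : IsE d E) (hE' : IsE b E') :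
    (rk B k).comp (E'.comp (tmp B (lft ι d b h))) = E := by
  refine tens_ext (Submonoid.powers d) _ _ fun r => ?_
  change rk B k (E' (tmp B (lft ι d b h) ((1 : B) ⊗ₜ[A] algebraMap R _ r))) = _
  have h1 : tmp B (lft ι d b h) ((1 : B) ⊗ₜ[A] algebraMap R (Localization.Away d) r) =
      (1 : B) ⊗ₜ[A] algebraMap P (Localization.Away b) (ι r) := by
    rw [tmp, Algebra.TensorProduct.map_tmul, lft_apply]
    rfl
  rw [h1, hE'.2.1, hE.2.1, one_smul, one_smul]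
  funext u
  change kmap (algebraMap A B) (ι r : KK (Unit ⊕ Unit) A) k = _
  rw [kmap_apply, hk, kmap_apply]

theorem inj_gen (hk : ∀ f : R, (ι f : KK (Unit ⊕ Unit) A) k = (f : KK Unit A) ())
    {E : (B ⊗[A] Localization.Away d) →ₐ[B] KK Unit B}
    {E' : (B ⊗[A] Localization.Away b) →ₐ[B] KK (Unit ⊕ Unit) B} (hE : IsE d E) (hE' : IsE b E') :
    Function.Injective (tmp B (lft ι d b h)) := by
  intro y y' hy
  refine hE.1 ?_
  rw [← comp_eq (h := h) hk hE hE']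
  change rk B k (E' (tmp B (lft ι d b h) y)) = rk B k (E' (tmp B (lft ι d b h) y'))
  rw [hy]

theorem mem_gen {E : (B ⊗[A] Localization.Away d) →ₐ[B] KK Unit B}
    {E' : (B ⊗[A] Localization.Away b) →ₐ[B] KK (Unit ⊕ Unit) B} (hE : IsE d E) (hE' : IsE b E')
    (y : B ⊗[A] Localization.Away d) : ∃ (n m : ℕ) (a : Fin m → B) (f : Fin m → R),
      kmap (algebraMap A B) (ι d : KK (Unit ⊕ Unit) A) ^ n * E' (tmp B (lft ι d b h) y) =
        ∑ k, a k • kmap (algebraMap A B) (ι (f k) : KK (Unit ⊕ Unit) A) := by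
  obtain ⟨n, m, a, f, hf⟩ := hE.2.2 y
  refine ⟨n, m, a, f, ?_⟩
  have h2 : ∀ (a : B) (r : R),
      E' (tmp B (lft ι d b h) (a ⊗ₜ[A] algebraMap R (Localization.Away d) r)) =
      a • kmap (algebraMap A B) (ι r : KK (Unit ⊕ Unit) A) := by
    intro a r
    rw [tmp, Algebra.TensorProduct.map_tmul, lft_apply]
    exact hE'.2.1 a (ι r)
  have h3 := congrArg (fun z => E' (tmp B (lft ι d b h) z)) hf
  simp only [map_mul, map_sum, h2] at h3
  rw [← h3, one_smul, map_pow]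
  congr 1
  change _ = kmap (algebraMap A B) (((ι d) ^ n : P) : KK (Unit ⊕ Unit) A)
  rw [SubmonoidClass.coe_pow, map_pow]

theorem unit_mon {g : R} {e : ℤ} (he : 1 ≤ e) (hg : Mon e (g : KK Unit A)) (a : B) :
    IsUnit (kmap (algebraMap A B) (g : KK Unit A) () - a • (1 : LaurentSeries B)) := by
  refine KFG.isUnit_of_lead (-e) (fun m hm => ?_) ?_
  · rw [HahnSeries.coeff_sub, HahnSeries.coeff_smul, kmap_apply, lmap_coeff, hg.1 () m hm,
      map_zero, HahnSeries.coeff_one, if_neg (by omega), smul_zero, sub_zero]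
  · rw [HahnSeries.coeff_sub, HahnSeries.coeff_smul, kmap_apply, lmap_coeff, hg.2 (),
      map_one, HahnSeries.coeff_one, if_neg (by omega), smul_zero, sub_zero]

theorem nz_gen (hinj : ∀ w ∈ bc (algebraMap A B) P, w k = 0 → w = 0)
    {E' : (B ⊗[A] Localization.Away b) →ₐ[B] KK (Unit ⊕ Unit) B} (hE' : IsE b E')
    (z : B ⊗[A] Localization.Away b) (hz : IsUnit (E' z k)) :
    z ∈ nonZeroDivisors (B ⊗[A] Localization.Away b) := by
  rw [mem_nonZeroDivisors_iff_right]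
  intro y hy
  obtain ⟨n, m, a, f, hf⟩ := hE'.2.2 y
  have h1 : E' y k = 0 := by
    have h2 := congrArg (fun v => E' v k) hy
    simp only [map_mul, map_zero, Pi.mul_apply, Pi.zero_apply] at h2
    exact (hz.mul_left_eq_zero).1 h2
  have h3 : E' (((1 : B) ⊗ₜ[A] algebraMap P (Localization.Away b) (b ^ n)) * y) = 0 := by
    refine hinj _ ?_ ?_
    · rw [hf, map_sum]
      refine sum_mem fun l _ => ?_
      rw [hE'.2.1]
      exact Subalgebra.smul_mem _ (kmap_mem_bc _ (f l).2) _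
    · rw [map_mul, Pi.mul_apply, h1, mul_zero]
  have h4 : ((1 : B) ⊗ₜ[A] algebraMap P (Localization.Away b) (b ^ n)) * y = 0 :=
    hE'.1 (by rw [h3, map_zero])
  have h5 : IsUnit ((1 : B) ⊗ₜ[A] algebraMap P (Localization.Away b) (b ^ n)) := by
    have h6 : IsUnit (algebraMap P (Localization.Away b) (b ^ n)) := by
      rw [map_pow]
      exact (IsLocalization.Away.algebraMap_isUnit b).pow n
    exact h6.map (Algebra.TensorProduct.includeRight :
      Localization.Away b →ₐ[A] B ⊗[A] Localization.Away b)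
  exact (h5.mul_right_eq_zero).1 h4

end chart

theorem inj_inl (hKBC : Stmt_KBC) {A : Type} [CommRing A] {h : ℕ}
    {P : Subalgebra A (KK (Unit ⊕ Unit) A)} (hP : IsKr h P) (hD : Dn P) {B : Type} [CommRing B]
    (φ : A →+* B) : ∀ w ∈ bc φ P, w (Sum.inl ()) = 0 → w = 0 := fun w hw h0 =>
  PFB.inj (hKBC.2.2.2 hP φ).1 (PFB.Dn_bc hD φ) w hw fun _ => h0

theorem inj_inr (hKBC : Stmt_KBC) (hTRX : Stmt_TRX) {A : Type} [CommRing A] {h : ℕ}
    {P : Subalgebra A (KK (Unit ⊕ Unit) A)} (hP : SKr h P)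
    (hD : Dn (reix (Equiv.sumComm Unit Unit) P)) {B : Type} [CommRing B]
    (φ : A →+* B) : ∀ w ∈ bc φ P, w (Sum.inr ()) = 0 → w = 0 := by
  intro w hw h0
  have h1 : (fun i => w (Equiv.sumComm Unit Unit i) : KK (Unit ⊕ Unit) B) ∈
      bc φ (reix (Equiv.sumComm Unit Unit) P) := by
    rw [GRX.bc_reix]
    exact (GRX.reE (Equiv.sumComm Unit Unit) (bc φ P) ⟨w, hw⟩).2
  have h2 := PFB.inj (hKBC.2.2.2 (hTRX.2 (Equiv.sumComm Unit Unit) hP).kr φ).1
    (PFB.Dn_bc hD φ) _ h1 fun _ => h0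
  funext i
  have h3 := congrFun h2 ((Equiv.sumComm Unit Unit).symm i)
  rw [Pi.zero_apply, Equiv.apply_symm_apply] at h3
  exact h3

end TCG

theorem t_TCG (hTLC : Stmt_TLC) (hTCH : Stmt_TCH) (hTCI : Stmt_TCI) (hTCM : Stmt_TCM)
    (hTRX : Stmt_TRX) (hKBC : Stmt_KBC) (hKFG : Stmt_KFG) (hSTO : Stmt_STO) : Stmt_TCG := by
  intro A _ h R₁ R₂ P ι₁ ι₂ D₁ g₁ D₂ g₂ H
  have hP := H.chp.s12
  have hP' : SKr h (reix (Equiv.sumComm Unit Unit) P) := hTRX.2 (Equiv.sumComm Unit Unit) hP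
  -- the vector fields
  obtain ⟨θ₁, hθ₁T, -, hθ₁⟩ := hTCH hP.kr hP.smc H.chp.d1 H.chp.f1 ι₁ H.inc.e1
    (fun f => H.inc.r1 f ()) D₁
  obtain ⟨ι₂', hι₂'⟩ : ∃ j : R₂ →ₐ[A] reix (Equiv.sumComm Unit Unit) P,
      ∀ f : R₂, (j f : KK (Unit ⊕ Unit) A) =
        fun i => (ι₂ f : KK (Unit ⊕ Unit) A) (Equiv.sumComm Unit Unit i) :=
    ⟨((GRX.reE (Equiv.sumComm Unit Unit) P : P ≃ₐ[A] reix (Equiv.sumComm Unit Unit) P) :
      P →ₐ[A] reix (Equiv.sumComm Unit Unit) P).comp ι₂, fun f => rfl⟩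
  obtain ⟨θ', hθ'T, -, hθ'⟩ := hTCH hP'.kr hP'.smc H.chp.d2 H.chp.f2 ι₂'
    (fun f i => by rw [hι₂']; exact H.inc.e2 f i)
    (fun f => by rw [hι₂']; exact H.inc.r2 f ()) D₂
  set θ₂ : KK (Unit ⊕ Unit) A := fun k => θ' ((Equiv.sumComm Unit Unit).symm k) with hθ₂def
  have hθ₂ : ∀ f : R₂, θ₂ * dd (ι₂ f : KK (Unit ⊕ Unit) A) =
      (ι₂ (D₂ f) : KK (Unit ⊕ Unit) A) := by
    intro f
    funext k
    have h1 := congrFun (hθ' f) ((Equiv.sumComm Unit Unit).symm k)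
    rw [hι₂', hι₂'] at h1
    simp only [Pi.mul_apply, dd, Equiv.apply_symm_apply] at h1
    exact h1
  have hθ₂T : θ₂ ∈ TT P := by
    intro f hf
    have h1 := hθ'T _ (GRX.reE (Equiv.sumComm Unit Unit) P ⟨f, hf⟩).2
    have h2 : (fun i => (θ' * dd ((GRX.reE (Equiv.sumComm Unit Unit) P ⟨f, hf⟩ :
        reix (Equiv.sumComm Unit Unit) P) : KK (Unit ⊕ Unit) A))
        ((Equiv.sumComm Unit Unit).symm i)) = θ₂ * dd f := by
      funext k
      have h3 : ((GRX.reE (Equiv.sumComm Unit Unit) P ⟨f, hf⟩ :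
          reix (Equiv.sumComm Unit Unit) P) : KK (Unit ⊕ Unit) A) =
          fun i => f (Equiv.sumComm Unit Unit i) := rfl
      rw [h3]
      simp only [Pi.mul_apply, dd, Equiv.apply_symm_apply, hθ₂def]
    rw [← h2]
    exact h1
  -- the derivation of P
  obtain ⟨E₁, hE₁⟩ := (hSTO hP.kr).2.2.2.1 θ₁ hθ₁T
  set b₁ : P := ι₁ (D₁ g₁) with hb₁
  set b₂ : P := ι₂ (D₂ g₂) with hb₂
  set b : P := b₁ * b₂ with hb
  have hE₁g : E₁ (ι₁ g₁) = b₁ := Subtype.ext (by rw [hE₁, hθ₁])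
  have hd₁ : ι₁ (D₁ g₁) ∣ b := ⟨b₂, rfl⟩
  have hd₂ : ι₂ (D₂ g₂) ∣ b := ⟨b₁, by rw [hb, mul_comm]⟩
  have hbu : IsUnit (b : KK (Unit ⊕ Unit) A) := by
    rw [hb]
    exact H.u1.mul H.u2
  have hu₁ : IsUnit ((D₁ g₁ : R₁) : KK Unit A) := by
    have h1 : ((D₁ g₁ : R₁) : KK Unit A) =
        TCG.rk A (Sum.inl ()) (ι₁ (D₁ g₁) : KK (Unit ⊕ Unit) A) := by
      funext u
      exact (H.inc.e1 (D₁ g₁) ()).symm
    rw [h1]
    exact H.u1.map _
  have hu₂ : IsUnit ((D₂ g₂ : R₂) : KK Unit A) := by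
    have h1 : ((D₂ g₂ : R₂) : KK Unit A) =
        TCG.rk A (Sum.inr ()) (ι₂ (D₂ g₂) : KK (Unit ⊕ Unit) A) := by
      funext u
      exact (H.inc.e2 (D₂ g₂) ()).symm
    rw [h1]
    exact H.u2.map _
  -- the charts
  obtain ⟨_, _, _, _, hc₁⟩ := H.chp.s1.smc
  obtain ⟨_, _, _, _, hc₂⟩ := H.chp.s2.smc
  obtain ⟨_, _, _, _, hcP⟩ := hP.smc
  obtain ⟨Δ₁, -, ch₁⟩ := hTLC (S := Localization.Away (D₁ g₁)) (Submonoid.powers (D₁ g₁)) D₁ g₁
    (hc₁ D₁) (IsLocalization.Away.algebraMap_isUnit _)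
  obtain ⟨Δ₂, -, ch₂⟩ := hTLC (S := Localization.Away (D₂ g₂)) (Submonoid.powers (D₂ g₂)) D₂ g₂
    (hc₂ D₂) (IsLocalization.Away.algebraMap_isUnit _)
  have hub₁ : IsUnit (algebraMap P (Localization.Away b) b₁) := TCG.unit_of_dvd hd₁
  obtain ⟨ΔT, hΔT, chT⟩ := hTLC (S := Localization.Away b) (Submonoid.powers b) E₁ (ι₁ g₁)
    (hcP E₁) (by rw [hE₁g]; exact hub₁)
  rw [hE₁g] at hΔT
  have gu : IsUnit (ΔT (algebraMap P (Localization.Away b) (ι₂ g₂))) := by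
    have h1 : E₁ (ι₂ g₂) * ⟨θ₂ * dd (ι₁ g₁ : KK (Unit ⊕ Unit) A), hθ₂T _ (ι₁ g₁).2⟩ = b := by
      refine Subtype.ext ?_
      rw [hb, hb₁, hb₂]
      change (E₁ (ι₂ g₂) : KK (Unit ⊕ Unit) A) * (θ₂ * dd (ι₁ g₁ : KK (Unit ⊕ Unit) A)) =
        (ι₁ (D₁ g₁) : KK (Unit ⊕ Unit) A) * (ι₂ (D₂ g₂) : KK (Unit ⊕ Unit) A)
      rw [hE₁, ← hθ₁, ← hθ₂]
      ring
    have h2 : IsUnit (algebraMap P (Localization.Away b) (E₁ (ι₂ g₂))) :=
      TCG.unit_of_dvd ⟨_, h1.symm⟩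
    rw [← hΔT (ι₂ g₂)] at h2
    exact (hub₁.mul_left_iff).1 h2
  have ft : ∀ (R : Subalgebra A (KK Unit A)) (d : R), IsKr h R →
      Algebra.FiniteType A (Localization.Away d) := by
    intro R d hR
    have := (hKFG hR).1
    infer_instance
  have EX₁ : ∀ (B : Type) [CommRing B] [Algebra A B],
      ∃ E : (B ⊗[A] Localization.Away (D₁ g₁)) →ₐ[B] KK Unit B, TCG.IsE (D₁ g₁) E := fun B _ _ =>
    hTCI H.chp.s1.kr _ hu₁
  have EX₂ : ∀ (B : Type) [CommRing B] [Algebra A B],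
      ∃ E : (B ⊗[A] Localization.Away (D₂ g₂)) →ₐ[B] KK Unit B, TCG.IsE (D₂ g₂) E := fun B _ _ =>
    hTCI H.chp.s2.kr _ hu₂
  have EXT : ∀ (B : Type) [CommRing B] [Algebra A B],
      ∃ E : (B ⊗[A] Localization.Away b) →ₐ[B] KK (Unit ⊕ Unit) B, TCG.IsE b E := fun B _ _ =>
    hTCI hP.kr _ hbu
  have hk₁ : ∀ f : R₁, (ι₁ f : KK (Unit ⊕ Unit) A) (Sum.inl ()) = (f : KK Unit A) () :=
    fun f => H.inc.e1 f ()
  have hk₂ : ∀ f : R₂, (ι₂ f : KK (Unit ⊕ Unit) A) (Sum.inr ()) = (f : KK Unit A) () :=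
    fun f => H.inc.e2 f ()
  -- the element `g`
  have hθu : IsUnit θ₁ := by
    have h1 := H.u1
    rw [← hθ₁] at h1
    exact isUnit_of_mul_isUnit_left h1
  have hg : ∀ {B : Type} [CommRing B] [Algebra A B]
      {E : (B ⊗[A] Localization.Away b) →ₐ[B] KK (Unit ⊕ Unit) B}, TCG.IsE b E →
      kmap (algebraMap A B) (dd (ι₁ g₁ : KK (Unit ⊕ Unit) A)) *
        E ((1 : B) ⊗ₜ[A] ΔT (algebraMap P (Localization.Away b) (ι₂ g₂))) =
      kmap (algebraMap A B) (dd (ι₂ g₂ : KK (Unit ⊕ Unit) A)) := by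
    intro B _ _ E hE
    have h1 := congrArg (fun z => E ((1 : B) ⊗ₜ[A] z)) (hΔT (ι₂ g₂))
    have h2 : (1 : B) ⊗ₜ[A] (algebraMap P (Localization.Away b) b₁ *
        ΔT (algebraMap P (Localization.Away b) (ι₂ g₂))) =
        ((1 : B) ⊗ₜ[A] algebraMap P (Localization.Away b) b₁) *
        ((1 : B) ⊗ₜ[A] ΔT (algebraMap P (Localization.Away b) (ι₂ g₂))) := by
      rw [Algebra.TensorProduct.tmul_mul_tmul, one_mul]
    simp only [h2, map_mul, hE.2.1, one_smul] at h1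
    rw [hE₁, hb₁, ← hθ₁, map_mul, map_mul, mul_assoc] at h1
    exact (hθu.map (kmap (algebraMap A B))).mul_left_cancel h1
  set i₁ := TCG.lft ι₁ (D₁ g₁) b hd₁ with hi₁
  set i₂ := TCG.lft ι₂ (D₂ g₂) b hd₂ with hi₂
  have hx₁ : i₁ (algebraMap R₁ (Localization.Away (D₁ g₁)) g₁) =
      algebraMap P (Localization.Away b) (ι₁ g₁) := TCG.lft_apply ..
  have hx₂ : i₂ (algebraMap R₂ (Localization.Away (D₂ g₂)) g₂) =
      algebraMap P (Localization.Away b) (ι₂ g₂) := TCG.lft_apply ..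
  have ns : ∀ (B : Type) [CommRing B] [Algebra A B] (n : ℕ) (c : B)
      (e₁ : B ⊗[A] Localization.Away (D₁ g₁)) (e₂ : B ⊗[A] Localization.Away (D₂ g₂)), 1 ≤ n →
      IsUnit c → tmp B i₂ e₂ = (c ⊗ₜ[A]
        (ΔT (i₂ (algebraMap R₂ (Localization.Away (D₂ g₂)) g₂)) ^ n)) * tmp B i₁ e₁ →
      e₁ = 0 := by
    intro B _ _ n c e₁ e₂ hn hc he
    obtain ⟨E, hE⟩ := EXT B
    obtain ⟨E₁', hE₁'⟩ := EX₁ B
    obtain ⟨E₂', hE₂'⟩ := EX₂ B
    have h0 : E (tmp B i₁ e₁) = 0 := by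
      refine hTCM H (algebraMap A B) (E (tmp B i₁ e₁)) (E (tmp B i₂ e₂)) c n hn hc ?_ ?_ ?_
      · obtain ⟨N, m, a, f, hf⟩ := TCG.mem_gen (h := hd₁) hE₁' hE e₁
        refine ⟨N, ?_⟩
        rw [hf]
        refine ⟨sum_mem fun l _ => Subalgebra.smul_mem _ (kmap_mem_bc _ (ι₁ (f l)).2) _,
          fun m hm => ?_⟩
        rw [Finset.sum_apply, HahnSeries.coeff_sum]
        refine Finset.sum_eq_zero fun l _ => ?_
        rw [Pi.smul_apply, HahnSeries.coeff_smul, kmap_apply, lmap_coeff,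
          H.inc.r1 (f l) () m hm, map_zero, smul_zero]
      · obtain ⟨N, m, a, f, hf⟩ := TCG.mem_gen (h := hd₂) hE₂' hE e₂
        refine ⟨N, ?_⟩
        rw [hf]
        refine ⟨sum_mem fun l _ => Subalgebra.smul_mem _ (kmap_mem_bc _ (ι₂ (f l)).2) _,
          fun m hm => ?_⟩
        rw [Finset.sum_apply, HahnSeries.coeff_sum]
        refine Finset.sum_eq_zero fun l _ => ?_
        rw [Pi.smul_apply, HahnSeries.coeff_smul, kmap_apply, lmap_coeff,
          H.inc.r2 (f l) () m hm, map_zero, smul_zero]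
      · have h1 : (c ⊗ₜ[A] (ΔT (i₂ (algebraMap R₂ (Localization.Away (D₂ g₂)) g₂)) ^ n) :
            B ⊗[A] Localization.Away b) =
            c • ((1 : B) ⊗ₜ[A] ΔT (algebraMap P (Localization.Away b) (ι₂ g₂))) ^ n := by
          rw [hx₂, Algebra.TensorProduct.tmul_pow, one_pow, TensorProduct.smul_tmul',
            smul_eq_mul, mul_one]
        rw [he, h1, map_mul, map_smul, map_pow, ← hg hE, mul_pow, smul_mul_assoc,
          mul_smul_comm, mul_assoc]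
    refine TCG.inj_gen (h := hd₁) hk₁ hE₁' hE (hE.1 ?_)
    change E (tmp B i₁ e₁) = E (tmp B i₁ 0)
    rw [h0, map_zero, map_zero]
  refine ⟨TCG.SS (Localization.Away (D₁ g₁)) (Localization.Away (D₂ g₂)), inferInstance,
    inferInstance, Localization.Away b, inferInstance, inferInstance,
    TCG.mkG (algebraMap R₁ _ g₁) (algebraMap R₂ _ g₂) Δ₁ Δ₂ i₁ i₂ ΔT H.inv ch₁ ch₂ ?_ ?_
      (ft _ _ H.chp.s1.kr) (ft _ _ H.chp.s2.kr) ?_ ?_ ?_ ?_ ns,
    (Algebra.algHom A R₁ (Localization.Away (D₁ g₁)) : R₁ →ₐ[A] Localization.Away (D₁ g₁)),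
    (Algebra.algHom A R₂ (Localization.Away (D₂ g₂)) : R₂ →ₐ[A] Localization.Away (D₂ g₂)),
    Algebra.algHom A P (Localization.Away b), rfl, rfl, ?_, ?_, ?_, ?_, ?_, ?_⟩
  · rw [hx₁]
    exact chT
  · rw [hx₂]
    exact gu
  · intro B _ _
    obtain ⟨E, hE⟩ := EXT B
    obtain ⟨E₁', hE₁'⟩ := EX₁ B
    exact TCG.inj_gen (h := hd₁) hk₁ hE₁' hE
  · intro B _ _
    obtain ⟨E, hE⟩ := EXT B
    obtain ⟨E₂', hE₂'⟩ := EX₂ B
    exact TCG.inj_gen (h := hd₂) hk₂ hE₂' hE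
  · intro B _ _ a
    obtain ⟨E, hE⟩ := EXT B
    obtain ⟨d, hd, hm⟩ := H.m1
    refine TCG.nz_gen (k := Sum.inl ()) (TCG.inj_inl hKBC hP.kr H.chp.d1 _) hE _ ?_
    have h1 : ((1 : B) ⊗ₜ[A] i₁ (algebraMap R₁ (Localization.Away (D₁ g₁)) g₁) -
        a ⊗ₜ[A] (1 : Localization.Away b)) =
        (1 : B) ⊗ₜ[A] algebraMap P (Localization.Away b) (ι₁ g₁) -
        a ⊗ₜ[A] algebraMap P (Localization.Away b) 1 := by
      rw [hx₁, map_one]
    rw [h1, map_sub, hE.2.1, hE.2.1, one_smul, Pi.sub_apply, Pi.smul_apply, kmap_apply,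
      H.inc.e1 g₁ ()]
    have h2 := TCG.unit_mon (B := B) hd hm a
    have h3 : kmap (algebraMap A B) ((1 : P) : KK (Unit ⊕ Unit) A) (Sum.inl ()) =
        (1 : LaurentSeries B) := by
      rw [OneMemClass.coe_one, map_one]
      rfl
    rw [h3]
    exact h2
  · intro B _ _ a
    obtain ⟨E, hE⟩ := EXT B
    obtain ⟨d, hd, hm⟩ := H.m2
    refine TCG.nz_gen (k := Sum.inr ()) (TCG.inj_inr hKBC hTRX hP H.chp.d2 _) hE _ ?_
    have h1 : ((1 : B) ⊗ₜ[A] i₂ (algebraMap R₂ (Localization.Away (D₂ g₂)) g₂) -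
        a ⊗ₜ[A] (1 : Localization.Away b)) =
        (1 : B) ⊗ₜ[A] algebraMap P (Localization.Away b) (ι₂ g₂) -
        a ⊗ₜ[A] algebraMap P (Localization.Away b) 1 := by
      rw [hx₂, map_one]
    rw [h1, map_sub, hE.2.1, hE.2.1, one_smul, Pi.sub_apply, Pi.smul_apply, kmap_apply,
      H.inc.e2 g₂ ()]
    have h2 := TCG.unit_mon (B := B) hd hm a
    have h3 : kmap (algebraMap A B) ((1 : P) : KK (Unit ⊕ Unit) A) (Sum.inr ()) =
        (1 : LaurentSeries B) := by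
      rw [OneMemClass.coe_one, map_one]
      rfl
    rw [h3]
    exact h2
  · intro f
    exact TCG.lft_apply ι₁ (D₁ g₁) b hd₁ f
  · intro f
    exact TCG.lft_apply ι₂ (D₂ g₂) b hd₂ f
  · exact IsLocalization.Away.algebraMap_isUnit (S := Localization.Away (D₁ g₁)) (D₁ g₁)
  · exact IsLocalization.Away.algebraMap_isUnit (S := Localization.Away (D₂ g₂)) (D₂ g₂)
  · intro B _ _ p hp
    exact TCG.univ (D₁ g₁) p hp
  · intro B _ _ p hp
    exact TCG.univ (D₂ g₂) p hp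

end Pool.Agent.MG.G0


end
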