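import Mathlib
import Pool.Agent.KDM.C11
import Pool.Agent.KDM.C20
import Pool.Agent.KDM.C23
import Pool.Agent.KDM.C72
import Pool.Agent.KDM.C75

/-! Parts: MG.H2.HHok, MG.H2.YCov, MG.G0.GCV -/

section

/-!
# Bezout data of smooth curves `y² = f(x)`
-/

open Polynomial

namespace Pool.Agent.MG.H2

section

variable {B : Type} [CommRing B] {f : Fin 7 → B}

theorem deriv_pp (f : Fin 7 → B) : derivative (pp B f) = dpol (fun i => C (f i)) X := by
  simp only [pp, pol, dpol, derivative_add, derivative_mul, derivative_C, derivative_X,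
    derivative_pow, zero_mul, zero_add, mul_one, Nat.cast_ofNat, Nat.add_one_sub_one, pow_one]
  simp only [map_ofNat]
  ring

/-- Bezout data. -/
noncomputable def bzOf (h : IsCoprime (pp B f) (derivative (pp B f))) : Bz f where
  a := h.choose
  b := h.choose_spec.choose
  h := (congrArg (fun d => h.choose * pp B f + h.choose_spec.choose * d)
    (deriv_pp f).symm).trans h.choose_spec.choose_spec

theorem Bz.bez (z : Bz f) : Bez f z.a z.b := by
  have := z.h
  rw [Bez, deriv_pp]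
  exact this

/-- The data of a smooth curve. -/
noncomputable def HSm.hok (h : HSm B f) : HOk f where
  z := bzOf h.s1
  z' := bzOf h.s2
  sm := RingHom.formallySmooth_algebraMap.2 ((t_CFF B f).2.2 _ _ (bzOf h.s1).bez h.two).2
  sm' := RingHom.formallySmooth_algebraMap.2
    ((t_CFF B (rev f)).2.2 _ _ (bzOf h.s2).bez h.two).2

end

end Pool.Agent.MG.H2


end

section

/-!
# The forms on the family `YX B p t`
-/

open CategoryTheory CategoryTheory.Limits AlgebraicGeometry TensorProduct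

namespace Pool.Agent.MG.H2

section alg

variable {R : Type} [CommRing R]

/-- `p_T(x) = x³ K`. -/
theorem pT_KK (p : Fin 7 → R) (t x xi : R) (hx : x * xi = 1) :
    pol (pT p t) x = x ^ 3 * KK p (t ^ 2 * x) xi := by
  have h2 : x ^ 2 * xi ^ 2 = 1 := by rw [← mul_pow, hx, one_pow]
  have h3 : x ^ 3 * xi ^ 3 = 1 := by rw [← mul_pow, hx, one_pow]
  rw [pol_pT]
  simp only [KK]
  linear_combination (-(p 2 * x ^ 2)) * hx - (p 1 * x) * h2 - (p 0) * h3

/-- `p_T'(x) = x² (3 K - E)`. -/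
theorem dpT_KK (p : Fin 7 → R) (t x xi : R) (hx : x * xi = 1) :
    dpol (pT p t) x = x ^ 2 * (3 * KK p (t ^ 2 * x) xi - EE p (t ^ 2 * x) xi) := by
  have h2 : x ^ 2 * xi ^ 2 = 1 := by rw [← mul_pow, hx, one_pow]
  have e : dpol (pT p t) x = p 1 + 2 * p 2 * x + 3 * p 3 * x ^ 2 + 4 * (t ^ 2 * p 4) * x ^ 3 +
    5 * (t ^ 4 * p 5) * x ^ 4 + 6 * (t ^ 6 * p 6) * x ^ 5 := rfl
  rw [e]
  simp only [KK, EE]
  linear_combination (-(2 * p 2 * x)) * hx - (p 1) * h2

variable {K E U V θ : R}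

/-- The form `θ₁` on `N`. -/
theorem nf1 (h : U * K + V * E = 1) {dα αdK : R} (h1 : 2 * dα = -(K + E) * θ)
    (h2 : αdK = -(E * K) * θ) :
    -(2 * (V + (U - V) * U * K)) * dα + (U - V) ^ 2 * αdK = θ := by
  linear_combination (-(V + (U - V) * U * K)) * h1 + (U - V) ^ 2 * h2 +
    (θ * (1 + U * K - V * K)) * h

/-- The form `θ₂` on `N`. -/
theorem nf2 (h : U * K + V * E = 1) {s dβ βdK : R} (h1 : 2 * dβ = s * (K - E) * θ)
    (h2 : βdK = -(s * (E * K)) * θ) :
    2 * (V - (U + V) * U * K) * dβ + (U + V) ^ 2 * βdK = -(s * θ) := by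
  linear_combination (V - (U + V) * U * K) * h1 + (U + V) ^ 2 * h2 +
    (-(s * θ) * (1 + U * K + V * K)) * h

end alg

section edge

variable {B R R' : Type} [CommRing B] [CommRing R] [CommRing R'] {c : B →+* R} {r : R →+* R'}
  {δ : R → R'}

/-- The differentials on the edge of the charts `T` and `N` in terms of `θ₁`. -/
theorem edge_d (hδ : DerA c r δ) (p : Fin 7 → B) (t : B) {x xi y : R} (hx : x * xi = 1)
    (rel : y ^ 2 = pol (fun i => c (pT p t i)) x) {θ : R'} (h1 : r y * θ = δ x)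
    (h2 : dpol (fun i => r (c (pT p t i))) (r x) * θ = 2 * δ y) {K E : R}
    (hK : K = KK (fun i => c (p i)) (c t ^ 2 * x) xi)
    (hE : E = EE (fun i => c (p i)) (c t ^ 2 * x) xi) :
    2 * δ (y * xi ^ 2) = -(r K + r E) * θ ∧ r (y * xi ^ 2) * δ K = -(r E * r K) * θ ∧
      2 * δ (c t * (y * xi)) = (r (c t) * r x) * (r K - r E) * θ ∧
      r (c t * (y * xi)) * δ K = -((r (c t) * r x) * (r E * r K)) * θ := by
  have hrx : r x * r xi = 1 := by rw [← map_mul, hx, map_one]
  have dxi : δ xi = - r xi ^ 2 * δ x := by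
    have := hδ.mul x xi
    rw [hx, hδ.one] at this
    linear_combination (-r xi) * this - (δ xi) * hrx
  have hpT : ∀ i, c (pT p t i) = pT (fun i => c (p i)) (c t) i := fun i => pT_map c p t i
  have hY : y ^ 2 = x ^ 3 * K := by
    rw [rel, hK]
    simp only [hpT]
    exact pT_KK _ _ _ _ hx
  have hYr : r y ^ 2 = r x ^ 3 * r K := by rw [← map_pow, hY, map_mul, map_pow]
  have hd : dpol (fun i => r (c (pT p t i))) (r x) = r x ^ 2 * (3 * r K - r E) := by
    have e1 : ∀ i, r (c (pT p t i)) = pT (fun i => r (c (p i))) (r (c t)) i := fun i =>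
      pT_map (r.comp c) p t i
    have e2 : r K = KK (fun i => r (c (p i))) (r (c t) ^ 2 * r x) (r xi) := by
      rw [hK, KK_map, map_mul, map_pow]
    have e3 : r E = EE (fun i => r (c (p i))) (r (c t) ^ 2 * r x) (r xi) := by
      rw [hE, EE_map, map_mul, map_pow]
    simp only [e1]
    rw [e2, e3]
    exact dpT_KK _ _ _ _ hrx
  have h2' : r x ^ 2 * (3 * r K - r E) * θ = 2 * δ y := by rw [← hd]; exact h2
  have hx3 := hδ.pow x 2
  norm_num at hx3
  -- `x δK = - E δx`
  have hdK : r x * δ K = - r E * δ x := by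
    have e1 : δ (y ^ 2) = δ (x ^ 3 * K) := by rw [hY]
    rw [hδ.sq, hδ.mul, hx3, map_pow] at e1
    have e2 : 2 * r y * δ y = r x ^ 2 * (3 * r K - r E) * δ x := by
      linear_combination (-r y) * h2' + (r x ^ 2 * (3 * r K - r E)) * h1
    have e3 : r x ^ 2 * (r x * δ K) = r x ^ 2 * (- r E * δ x) := by
      linear_combination e2 - e1
    linear_combination (r xi ^ 2) * e3 + (-(r x * r xi + 1) * (r x * δ K + r E * δ x)) * hrx
  have hdy2 : δ (xi ^ 2) = - 2 * r xi ^ 3 * δ x := by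
    rw [hδ.sq, dxi]
    ring
  have f1 : 2 * δ (y * xi ^ 2) = -(r K + r E) * θ := by
    rw [hδ.mul, map_pow, hdy2, ← h1]
    have : r x ^ 2 * r xi ^ 2 = 1 := by rw [← mul_pow, hrx, one_pow]
    have h3 : r x ^ 3 * r xi ^ 3 = 1 := by rw [← mul_pow, hrx, one_pow]
    linear_combination (-(r xi ^ 2)) * h2' + ((3 * r K - r E) * θ) * this -
      (4 * r xi ^ 3 * θ) * hYr - (4 * r K * θ) * h3
  have f2 : r (y * xi ^ 2) * δ K = -(r E * r K) * θ := by
    have h3 : r x ^ 3 * r xi ^ 3 = 1 := by rw [← mul_pow, hrx, one_pow]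
    rw [map_mul, map_pow]
    linear_combination (r y * r xi ^ 3) * hdK - (r y * r xi ^ 2 * δ K) * hrx +
      (r y * r xi ^ 3 * r E) * h1 - (r E * r xi ^ 3 * θ) * hYr - (r E * r K * θ) * h3
  have f3 : 2 * δ (c t * (y * xi)) = (r (c t) * r x) * (r K - r E) * θ := by
    rw [hδ.cmul, hδ.mul, dxi, ← h1]
    have : r x ^ 2 * r xi ^ 2 = 1 := by rw [← mul_pow, hrx, one_pow]
    linear_combination (-(r (c t) * r xi)) * h2' +
      (r (c t) * r x * (3 * r K - r E) * θ) * hrx - (2 * r (c t) * r xi ^ 2 * θ) * hYr -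
      (2 * r (c t) * r x * r K * θ) * this
  refine ⟨f1, f2, f3, ?_⟩
  have e4 : r (c t * (y * xi)) = (r (c t) * r x) * r (y * xi ^ 2) := by
    rw [← map_mul, ← map_mul]
    congr 1
    linear_combination (-(c t * y * xi)) * hx
  rw [e4]
  linear_combination (r (c t) * r x) * f2

end edge

/-- Bezout data on the family. -/
structure YBz {B : Type} [CommRing B] (p : Fin 7 → B) (t : B) where
  /-- on the chart `T` -/
  zT : Bz (pT p t)
  /-- on the chart `Q` -/
  zQ : Bz (pT (rev p) t)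
  /-- coefficient of `K` -/
  U : NN B p t
  /-- coefficient of `E` -/
  V : NN B p t
  h : U * KN B p t + V * EN B p t = 1
  sT : (algebraMap B (TN B p t)).FormallySmooth
  sQ : (algebraMap B (QN B p t)).FormallySmooth

section rings

variable {B : Type} [CommRing B] (p : Fin 7 → B) (t : B)

/-- The rings. -/
abbrev yR : Ct → Type
  | .T => TT B p t
  | .N => NN B p t
  | .Q => QQ B p t

/-- The rings of the edges. -/
abbrev yRE : Bool → Type
  | true => TN B p t
  | false => QN B p t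

noncomputable instance yRc : ∀ i, CommRing (yR p t i)
  | .T => inferInstanceAs (CommRing (TT B p t))
  | .N => inferInstanceAs (CommRing (NN B p t))
  | .Q => inferInstanceAs (CommRing (QQ B p t))

noncomputable instance yREc : ∀ e, CommRing (yRE p t e)
  | true => inferInstanceAs (CommRing (TN B p t))
  | false => inferInstanceAs (CommRing (QN B p t))

/-- structure maps -/
noncomputable abbrev yc : ∀ i, B →+* yR p t i
  | .T => algebraMap B (TT B p t)
  | .N => algebraMap B (NN B p t)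
  | .Q => algebraMap B (QQ B p t)

/-- structure maps -/
noncomputable abbrev ycE : ∀ e, B →+* yRE p t e
  | true => algebraMap B (TN B p t)
  | false => algebraMap B (QN B p t)

/-- restriction -/
noncomputable abbrev yjs : ∀ e, yR p t (hs e) →+* yRE p t e
  | true => tT B p t
  | false => qQ B p t

/-- restriction -/
noncomputable abbrev yjt : ∀ e, yR p t Ct.N →+* yRE p t e
  | true => nT B p t
  | false => nQ B p t

variable {p t}

/-- The coefficients of the forms `θ₁` (`true`) and `θ₂` (`false`). -/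
noncomputable abbrev yp (o : YBz p t) : Bool → ∀ i, Fin 2 → yR p t i
  | true, .T => ![o.zT.a.eval₂ (algebraMap B _) (x1 B (pT p t)) * y1 B (pT p t),
      2 * o.zT.b.eval₂ (algebraMap B _) (x1 B (pT p t))]
  | false, .T => ![-(algebraMap B (TT B p t) t * x1 B (pT p t)) *
        (o.zT.a.eval₂ (algebraMap B _) (x1 B (pT p t)) * y1 B (pT p t)),
      -(algebraMap B (TT B p t) t * x1 B (pT p t)) *
        (2 * o.zT.b.eval₂ (algebraMap B _) (x1 B (pT p t)))]
  | true, .N => ![-(2 * (o.V + (o.U - o.V) * o.U * KN B p t)), (o.U - o.V) ^ 2 * aN B p t]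
  | false, .N => ![2 * (o.V - (o.U + o.V) * o.U * KN B p t), (o.U + o.V) ^ 2 * bN B p t]
  | true, .Q => ![-(algebraMap B (QQ B p t) t * x1 B (pT (rev p) t)) *
        (o.zQ.a.eval₂ (algebraMap B _) (x1 B (pT (rev p) t)) * y1 B (pT (rev p) t)),
      -(algebraMap B (QQ B p t) t * x1 B (pT (rev p) t)) *
        (2 * o.zQ.b.eval₂ (algebraMap B _) (x1 B (pT (rev p) t)))]
  | false, .Q => ![o.zQ.a.eval₂ (algebraMap B _) (x1 B (pT (rev p) t)) * y1 B (pT (rev p) t),
      2 * o.zQ.b.eval₂ (algebraMap B _) (x1 B (pT (rev p) t))]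

variable (p t) in
/-- The functions. -/
noncomputable abbrev yq : Bool → ∀ i, Fin 2 → yR p t i
  | _, .T => ![x1 B (pT p t), y1 B (pT p t)]
  | true, .N => ![aN B p t, KN B p t]
  | false, .N => ![bN B p t, KN B p t]
  | _, .Q => ![x1 B (pT (rev p) t), y1 B (pT (rev p) t)]

variable (p t) in
/-- The factors on `T`. -/
noncomputable def tfac : Bool → TN B p t
  | true => 1
  | false => -(algebraMap B (TN B p t) t * (xu B (pT p t) : TN B p t))

variable (p t) in
/-- The factors on `Q`. -/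
noncomputable def qfac : Bool → QN B p t
  | true => -(algebraMap B (QN B p t) t * (xu B (pT (rev p) t) : QN B p t))
  | false => 1

theorem tside (o : YBz p t) (k : Bool) {R' : Type} [CommRing R'] (r : TN B p t →+* R')
    (δ : TN B p t → R') : ∑ a, r (tT B p t (yp o k .T a)) * δ (tT B p t (yq p t k .T a)) =
      r (tfac p t k) * om o.zT (algebraMap B (TN B p t)) (xu B (pT p t) : TN B p t)
        (yv B (pT p t)) r δ := by
  cases k <;>
    simp only [yp, yq, tfac, om, Fin.sum_univ_two, Matrix.cons_val_zero, Matrix.cons_val_one,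
      map_mul, map_neg, map_one, map_ofNat, g1_ev2, g1_y, ← xu_val, g1_b] <;> ring

theorem qside (o : YBz p t) (k : Bool) {R' : Type} [CommRing R'] (r : QN B p t →+* R')
    (δ : QN B p t → R') : ∑ a, r (qQ B p t (yp o k .Q a)) * δ (qQ B p t (yq p t k .Q a)) =
      r (qfac p t k) * om o.zQ (algebraMap B (QN B p t)) (xu B (pT (rev p) t) : QN B p t)
        (yv B (pT (rev p) t)) r δ := by
  cases k <;>
    simp only [yp, yq, qfac, om, Fin.sum_univ_two, Matrix.cons_val_zero, Matrix.cons_val_one,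
      map_mul, map_neg, map_one, map_ofNat, g1_ev2, g1_y, ← xu_val, g1_b] <;> ring

theorem nT_KN : nT B p t (KN B p t) = KK (fun i => algebraMap B (TN B p t) (p i))
    (algebraMap B (TN B p t) t ^ 2 * (xu B (pT p t) : TN B p t))
    ((xu B (pT p t))⁻¹ : (TN B p t)ˣ).val := by
  rw [KN, KK_map, nT_z, nT_x]
  simp only [nT_c]

theorem nT_EN : nT B p t (EN B p t) = EE (fun i => algebraMap B (TN B p t) (p i))
    (algebraMap B (TN B p t) t ^ 2 * (xu B (pT p t) : TN B p t))
    ((xu B (pT p t))⁻¹ : (TN B p t)ˣ).val := by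
  rw [EN, EE_map, nT_z, nT_x]
  simp only [nT_c]

theorem nT_side (o : YBz p t) (k : Bool) {R' : Type} [CommRing R'] (r : TN B p t →+* R')
    (δ : TN B p t → R') (hδ : DerA (algebraMap B (TN B p t)) r δ) :
    ∑ a, r (nT B p t (yp o k .N a)) * δ (nT B p t (yq p t k .N a)) =
      r (tfac p t k) * om o.zT (algebraMap B (TN B p t)) (xu B (pT p t) : TN B p t)
        (yv B (pT p t)) r δ := by
  obtain ⟨h1, h2⟩ := om_spec (rel12 B (pT p t)) o.zT hδ
  obtain ⟨d1, d2, d3, d4⟩ := edge_d hδ p t (Units.mul_inv (xu B (pT p t))) (rel12 B (pT p t)) h1 h2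
    nT_KN nT_EN
  set θ := om o.zT (algebraMap B (TN B p t)) (xu B (pT p t) : TN B p t) (yv B (pT p t)) r δ
  have hb := congrArg (fun v => r (nT B p t v)) o.h
  simp only [map_add, map_mul, map_one] at hb
  cases k
  · have := nf2 hb d3 d4
    simp only [yp, yq, tfac, Fin.sum_univ_two, Matrix.cons_val_zero, Matrix.cons_val_one]
    rw [nT_b]
    simp only [map_mul, map_sub, map_add, map_neg, map_ofNat, map_pow, nT_b] at this ⊢
    linear_combination this
  · have := nf1 hb d1 d2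
    simp only [yp, yq, tfac, Fin.sum_univ_two, Matrix.cons_val_zero, Matrix.cons_val_one]
    rw [nT_a]
    simp only [map_mul, map_sub, map_add, map_neg, map_ofNat, map_pow, map_one, nT_a] at this ⊢
    linear_combination this

theorem nQ_KN : nQ B p t (KN B p t) = KK (fun i => algebraMap B (QN B p t) (rev p i))
    (algebraMap B (QN B p t) t ^ 2 * (xu B (pT (rev p) t) : QN B p t))
    ((xu B (pT (rev p) t))⁻¹ : (QN B p t)ˣ).val := by
  rw [KN, KK_map, nQ_z, nQ_x, KK_swap (p := fun i => algebraMap B (QN B p t) (p i))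
    (p' := fun i => algebraMap B (QN B p t) (rev p i)) (fun i => rfl)]
  simp only [nQ_c]

theorem nQ_EN : -nQ B p t (EN B p t) = EE (fun i => algebraMap B (QN B p t) (rev p i))
    (algebraMap B (QN B p t) t ^ 2 * (xu B (pT (rev p) t) : QN B p t))
    ((xu B (pT (rev p) t))⁻¹ : (QN B p t)ˣ).val := by
  rw [EN, EE_map, nQ_z, nQ_x, EE_swap (p := fun i => algebraMap B (QN B p t) (p i))
    (p' := fun i => algebraMap B (QN B p t) (rev p i)) (fun i => rfl)]
  simp only [nQ_c]

theorem nQ_side (o : YBz p t) (k : Bool) {R' : Type} [CommRing R'] (r : QN B p t →+* R')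
    (δ : QN B p t → R') (hδ : DerA (algebraMap B (QN B p t)) r δ) :
    ∑ a, r (nQ B p t (yp o k .N a)) * δ (nQ B p t (yq p t k .N a)) =
      r (qfac p t k) * om o.zQ (algebraMap B (QN B p t)) (xu B (pT (rev p) t) : QN B p t)
        (yv B (pT (rev p) t)) r δ := by
  obtain ⟨h1, h2⟩ := om_spec (rel12 B (pT (rev p) t)) o.zQ hδ
  obtain ⟨d1, d2, d3, d4⟩ := edge_d hδ (rev p) t (Units.mul_inv (xu B (pT (rev p) t)))
    (rel12 B (pT (rev p) t)) h1 h2 nQ_KN nQ_EN
  set θ := om o.zQ (algebraMap B (QN B p t)) (xu B (pT (rev p) t) : QN B p t)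
    (yv B (pT (rev p) t)) r δ
  have hb := congrArg (fun v => r (nQ B p t v)) o.h
  simp only [map_add, map_mul, map_one] at hb
  rw [map_neg] at d1 d2 d3 d4
  cases k
  · have := nf2 (s := -1) (θ := θ) hb (dβ := δ (yv B (pT (rev p) t) *
      ((xu B (pT (rev p) t))⁻¹ : (QN B p t)ˣ).val ^ 2)) (by linear_combination d1)
      (βdK := r (yv B (pT (rev p) t) * ((xu B (pT (rev p) t))⁻¹ : (QN B p t)ˣ).val ^ 2) *
        δ (nQ B p t (KN B p t))) (by linear_combination d2)
    simp only [yp, yq, qfac, Fin.sum_univ_two, Matrix.cons_val_zero, Matrix.cons_val_one]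
    rw [nQ_b]
    simp only [map_mul, map_sub, map_add, map_ofNat, map_pow, map_one, nQ_b] at this ⊢
    linear_combination this
  · have := nf1 (θ := -((r (algebraMap B (QN B p t) t) * r (xu B (pT (rev p) t) : QN B p t)) * θ))
      hb (dα := δ (algebraMap B (QN B p t) t * (yv B (pT (rev p) t) *
      ((xu B (pT (rev p) t))⁻¹ : (QN B p t)ˣ).val))) (by linear_combination d3)
      (αdK := r (algebraMap B (QN B p t) t * (yv B (pT (rev p) t) *
        ((xu B (pT (rev p) t))⁻¹ : (QN B p t)ˣ).val)) * δ (nQ B p t (KN B p t)))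
      (by linear_combination d4)
    simp only [yp, yq, qfac, Fin.sum_univ_two, Matrix.cons_val_zero, Matrix.cons_val_one]
    rw [nQ_a]
    simp only [map_mul, map_sub, map_add, map_neg, map_ofNat, map_pow, nQ_a] at this ⊢
    linear_combination this

/-- Ring-level form data on the family. -/
noncomputable def yRF (o : YBz p t) : RF B where
  I := Ct
  E := Bool
  K := Bool
  s := hs
  t := fun _ => .N
  R := yR p t
  RE := yRE p t
  c := yc p t
  cc := ycE p t
  js := yjs p t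
  jt := yjt p t
  jsc := fun e => match e with
    | true => rfl
    | false => rfl
  jtc := fun e => match e with
    | true => RingHom.ext fun b => nT_c B p t b
    | false => RingHom.ext fun b => nQ_c B p t b
  sm := fun e => match e with
    | true => o.sT
    | false => o.sQ
  m := 2
  p := yp o
  q := yq p t
  eq := by
    intro k e R' _ r δ hδ
    cases e with
    | true => exact (tside o k r δ).trans (nT_side o k r δ hδ).symm
    | false => exact (qside o k r δ).trans (nQ_side o k r δ hδ).symm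

/-- The charts of the family. -/
noncomputable def yCh (o : YBz p t) : (yRF o).Ch (Yam p t) where
  ι := fun i => match i with
    | .T => YX.inT B p t
    | .N => YX.inN B p t
    | .Q => YX.inQ B p t
  η := fun e => match e with
    | true => spMap (tT B p t) ≫ YX.inT B p t
    | false => spMap (qQ B p t) ≫ YX.inQ B p t
  oi := fun i => match i with
    | .T => inferInstanceAs (IsOpenImmersion (YX.inT B p t))
    | .N => inferInstanceAs (IsOpenImmersion (YX.inN B p t))
    | .Q => inferInstanceAs (IsOpenImmersion (YX.inQ B p t))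
  oe := fun e => match e with
    | true => inferInstanceAs (IsOpenImmersion (spMap (tT B p t) ≫ YX.inT B p t))
    | false => inferInstanceAs (IsOpenImmersion (spMap (qQ B p t) ≫ YX.inQ B p t))
  π := fun i => match i with
    | .T => YX.inT_pr B p t
    | .N => YX.inN_pr B p t
    | .Q => YX.inQ_pr B p t
  hs := fun e => match e with
    | true => rfl
    | false => rfl
  ht := fun e => match e with
    | true => (YX.condT B p t).symm
    | false => (YX.condQ B p t).symm

/-- The functionals on `H¹(O)`. -/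
noncomputable def yab (p : Fin 7 → B) (t al be : B) : ∀ e : Bool, yRE p t e → B
  | true => fun v => al * cf (f := pT p t) (-1) v - t * be * cf (f := pT p t) (-2) v
  | false => fun v => - (t * al) * cf (f := pT (rev p) t) (-2) v +
      be * cf (f := pT (rev p) t) (-1) v

theorem yab_add (al be : B) (e : Bool) (v v' : yRE p t e) :
    yab p t al be e (v + v') = yab p t al be e v + yab p t al be e v' := by
  cases e
  · change - (t * al) * cf (f := pT (rev p) t) (-2) (v + v') +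
      be * cf (f := pT (rev p) t) (-1) (v + v') =
      (- (t * al) * cf (f := pT (rev p) t) (-2) v + be * cf (f := pT (rev p) t) (-1) v) +
      (- (t * al) * cf (f := pT (rev p) t) (-2) v' + be * cf (f := pT (rev p) t) (-1) v')
    rw [map_add, map_add]
    ring
  · change al * cf (f := pT p t) (-1) (v + v') - t * be * cf (f := pT p t) (-2) (v + v') =
      (al * cf (f := pT p t) (-1) v - t * be * cf (f := pT p t) (-2) v) +
      (al * cf (f := pT p t) (-1) v' - t * be * cf (f := pT p t) (-2) v')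
    rw [map_add, map_add]
    ring

theorem yab_smul (al be : B) (e : Bool) (b : B) (v : yRE p t e) :
    yab p t al be e (ycE p t e b * v) = b * yab p t al be e v := by
  cases e
  · change - (t * al) * cf (f := pT (rev p) t) (-2) (algebraMap B _ b * v) +
      be * cf (f := pT (rev p) t) (-1) (algebraMap B _ b * v) =
      b * (- (t * al) * cf (f := pT (rev p) t) (-2) v + be * cf (f := pT (rev p) t) (-1) v)
    rw [cf_b, cf_b]
    ring
  · change al * cf (f := pT p t) (-1) (algebraMap B _ b * v) -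
      t * be * cf (f := pT p t) (-2) (algebraMap B _ b * v) =
      b * (al * cf (f := pT p t) (-1) v - t * be * cf (f := pT p t) (-2) v)
    rw [cf_b, cf_b]
    ring

theorem cf_tx_y1 {f : Fin 7 → B} (s t : B) (q : Polynomial B) :
    cf (-1) (Polynomial.aeval (algebraMap B (A12 B f) s * xx f) q * (algebraMap B (A12 B f) t *
      (yv B f * xi f))) = t * q.coeff 0 := by
  have e : Polynomial.aeval (algebraMap B (A12 B f) s * xx f) q * (algebraMap B (A12 B f) t *
      (yv B f * xi f)) = algebraMap B (A12 B f) t * (xi f *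
        (Polynomial.aeval (xx f) (q.comp (Polynomial.C s * Polynomial.X)) * yv B f)) := by
    rw [YNB.aeval_tx]
    ring
  rw [e, cf_b, cf_xi, cf_aeval_y, if_pos (by norm_num)]
  congr 1
  norm_num

/-- The coefficients of the functions of the chart `N`. -/
theorem cf_nT (v : NN B p t) : t * cf (f := pT (rev p) t) (-2) (nQ B p t v) =
      cf (f := pT p t) (-1) (nT B p t v) ∧
    t * cf (f := pT p t) (-2) (nT B p t v) = cf (f := pT (rev p) t) (-1) (nQ B p t v) := by
  obtain ⟨c, d, e, f, rfl⟩ := (t_YNB B p t).1 v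
  have hT : nT B p t (Polynomial.aeval (xN B p t) c + zN B p t * Polynomial.aeval (zN B p t) d +
      Polynomial.aeval (xN B p t) e * aN B p t + Polynomial.aeval (zN B p t) f * bN B p t) =
      Polynomial.aeval (xi (pT p t)) c + algebraMap B (TN B p t) (t ^ 2) * xx (pT p t) *
        Polynomial.aeval (algebraMap B (TN B p t) (t ^ 2) * xx (pT p t)) d +
      Polynomial.aeval (xi (pT p t)) e * (yv B (pT p t) * xi (pT p t) ^ 2) +
      Polynomial.aeval (algebraMap B (TN B p t) (t ^ 2) * xx (pT p t)) f *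
        (algebraMap B (TN B p t) t * (yv B (pT p t) * xi (pT p t))) := by
    rw [map_add, map_add, map_add, map_mul, map_mul, map_mul,
      YNB.hom_aeval (nT B p t) (nT_c B p t), YNB.hom_aeval (nT B p t) (nT_c B p t),
      YNB.hom_aeval (nT B p t) (nT_c B p t), YNB.hom_aeval (nT B p t) (nT_c B p t),
      nT_z, nT_x, nT_a, nT_b, ← map_pow]
  have hQ : nQ B p t (Polynomial.aeval (xN B p t) c + zN B p t * Polynomial.aeval (zN B p t) d +
      Polynomial.aeval (xN B p t) e * aN B p t + Polynomial.aeval (zN B p t) f * bN B p t) =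
      Polynomial.aeval (algebraMap B (QN B p t) (t ^ 2) * xx (pT (rev p) t)) c +
        xi (pT (rev p) t) * Polynomial.aeval (xi (pT (rev p) t)) d +
      Polynomial.aeval (algebraMap B (QN B p t) (t ^ 2) * xx (pT (rev p) t)) e *
        (algebraMap B (QN B p t) t * (yv B (pT (rev p) t) * xi (pT (rev p) t))) +
      Polynomial.aeval (xi (pT (rev p) t)) f *
        (yv B (pT (rev p) t) * xi (pT (rev p) t) ^ 2) := by
    rw [map_add, map_add, map_add, map_mul, map_mul, map_mul,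
      YNB.hom_aeval (nQ B p t) (nQ_c B p t), YNB.hom_aeval (nQ B p t) (nQ_c B p t),
      YNB.hom_aeval (nQ B p t) (nQ_c B p t), YNB.hom_aeval (nQ B p t) (nQ_c B p t),
      nQ_z, nQ_x, nQ_a, nQ_b, ← map_pow]
  rw [hT, hQ]
  simp only [map_add]
  rw [YNB.cf_tx, YNB.cf_tx_y _ _ _ _ (by norm_num), YNB.cf_xi_y, cf_xi, (YNB.cc_xi d _).1,
    (YNB.cc_xi c _).1, YNB.cf_tx_mul, YNB.cf_xi_y, cf_tx_y1, (YNB.cc_xi c _).1, YNB.cf_tx_mul,
    YNB.cf_xi_y, YNB.cf_tx_y _ _ _ _ (by norm_num), YNB.cf_tx, cf_xi, (YNB.cc_xi d _).1,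
    cf_tx_y1, YNB.cf_xi_y]
  norm_num

theorem yab_ker (al be : B) (a : ∀ i, yR p t i) :
    yab p t al be true (yjs p t true (a .T) - yjt p t true (a .N)) +
      yab p t al be false (yjs p t false (a .Q) - yjt p t false (a .N)) = 0 := by
  obtain ⟨h1, h2⟩ := cf_nT (p := p) (t := t) (a .N)
  change (al * cf (f := pT p t) (-1) (g1 B (pT p t) (a .T) - nT B p t (a .N)) -
      t * be * cf (f := pT p t) (-2) (g1 B (pT p t) (a .T) - nT B p t (a .N))) +
    (- (t * al) * cf (f := pT (rev p) t) (-2) (g1 B (pT (rev p) t) (a .Q) - nQ B p t (a .N)) +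
      be * cf (f := pT (rev p) t) (-1) (g1 B (pT (rev p) t) (a .Q) - nQ B p t (a .N))) = 0
  rw [map_sub, map_sub, map_sub, map_sub, cf_g1 (by norm_num), cf_g1 (by norm_num),
    cf_g1 (by norm_num), cf_g1 (by norm_num)]
  linear_combination al * h1 + be * h2

/-- The functionals of the covector with coefficients `c`. -/
noncomputable def yRM (o : YBz p t) (w : B) (c : Fin 3 → B) : RM (yRF o) where
  μ := fun k e v => yab p t (cal w c k) (cbe w c k) e v
  add := fun _ e a b => yab_add _ _ e a b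
  smul := fun _ e b a => yab_smul _ _ e b a
  ker := fun _ a => (Fintype.sum_bool _).trans (yab_ker _ _ a)

/-- The covector on the family with coefficients `c`. -/
noncomputable def ycov (o : YBz p t) (w : B) (c : Fin 3 → B) (g : ℕ) : Cov g (Yam p t) :=
  (yRM o w c).cov (yCh o) g

end rings

end Pool.Agent.MG.H2


end

section

/-!
# GCV: the critical points of `X^(2g+3) + ζ Y` and their values
-/

namespace Pool.Agent.MG.G0

namespace GCV

open Polynomial

/-- `c(x) = (g+1+a) x^g - (1+a)`. -/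
def cc {E : Type} [Field E] (g a : ℕ) (x : E) : E := ((g + 1 + a : ℕ) : E) * x ^ g - ((1 + a : ℕ) : E)

/-- The conditions for a critical point. -/
structure Pt {E : Type} [Field E] (g a : ℕ) (ζ x : E) : Prop where
  h3 : (3 : E) ≠ 0
  hN : ((2 * g + 3 : ℕ) : E) ≠ 0
  hζ : ζ ≠ 0
  hx : x ≠ 0
  hg : x ^ g ≠ 1
  hc : cc g a x ≠ 0
  hQ : 27 * ((2 * g + 3 : ℕ) : E) ^ 3 * x ^ (6 * g + 8 - a) * (x ^ g - 1) ^ 2 +
    ζ ^ 3 * cc g a x ^ 3 = 0

/-- The coordinate `Y`. -/
noncomputable def yy {E : Type} [Field E] (g a : ℕ) (ζ x : E) : E :=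
  -(3 * ((2 * g + 3 : ℕ) : E) * x ^ (2 * g + 3) * (x ^ g - 1)) / (ζ * cc g a x)

/-- The critical value. -/
noncomputable def bb {E : Type} [Field E] (g a : ℕ) (ζ x : E) : E :=
  x ^ (2 * g + 3) + ζ * yy g a ζ x

section field

variable {E : Type} [Field E] {g a : ℕ} {ζ x : E}

theorem Pt.of_map {E' : Type} [Field E'] (f : E →+* E') (h : Pt g a (f ζ) (f x)) :
    Pt g a ζ x := by
  have hf := f.injective
  have e : f (cc g a x) = cc g a (f x) := by simp [cc]
  refine ⟨fun h0 => h.h3 ?_, fun h0 => h.hN ?_, fun h0 => h.hζ ?_, fun h0 => h.hx ?_,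
    fun h0 => h.hg ?_, fun h0 => h.hc ?_, hf ?_⟩
  · rw [← map_ofNat f 3, h0, map_zero]
  · rw [← map_natCast f, h0, map_zero]
  · rw [h0, map_zero]
  · rw [h0, map_zero]
  · rw [← map_pow, h0, map_one]
  · rw [← e, h0, map_zero]
  · have e27 : f 27 = 27 := map_ofNat f 27
    have eN : f ((2 * g + 3 : ℕ) : E) = ((2 * g + 3 : ℕ) : E') := map_natCast f _
    rw [map_zero, ← h.hQ, ← e]
    simp only [map_add, map_mul, map_pow, map_sub, map_one, e27, eN]

theorem yy_map {E' : Type} [Field E'] (f : E →+* E') : f (yy g a ζ x) = yy g a (f ζ) (f x) := by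
  have e3 : f 3 = 3 := map_ofNat f 3
  simp only [yy, cc, map_div₀, map_neg, map_mul, map_pow, map_sub, map_one, e3, map_natCast]

theorem bb_map {E' : Type} [Field E'] (f : E →+* E') : f (bb g a ζ x) = bb g a (f ζ) (f x) := by
  simp [bb, yy_map]

theorem yy_mul (h : Pt g a ζ x) : yy g a ζ x * (ζ * cc g a x) =
    -(3 * ((2 * g + 3 : ℕ) : E) * x ^ (2 * g + 3) * (x ^ g - 1)) := by
  rw [yy, div_mul_cancel₀]
  exact mul_ne_zero h.hζ h.hc

theorem yy_ne (h : Pt g a ζ x) : yy g a ζ x ≠ 0 := by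
  rw [yy]
  refine div_ne_zero (neg_ne_zero.2 ?_) (mul_ne_zero h.hζ h.hc)
  exact mul_ne_zero (mul_ne_zero (mul_ne_zero h.h3 h.hN) (pow_ne_zero _ h.hx))
    (sub_ne_zero.2 h.hg)

theorem yy_cube (ha : a ≤ 1) (h : Pt g a ζ x) :
    yy g a ζ x ^ 3 = x ^ (1 + a) * (x ^ g - 1) := by
  have h1 := yy_mul h
  have h2 : (ζ * cc g a x) ^ 3 ≠ 0 := pow_ne_zero _ (mul_ne_zero h.hζ h.hc)
  refine mul_right_cancel₀ h2 ?_
  rw [← mul_pow, h1]
  have h3 : x ^ (2 * g + 3) * x ^ (2 * g + 3) * x ^ (2 * g + 3) =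
      x ^ (6 * g + 8 - a) * x ^ (1 + a) := by
    rw [← pow_add, ← pow_add, ← pow_add]
    congr 1
    omega
  linear_combination (-27 * ((2 * g + 3 : ℕ) : E) ^ 3 * (x ^ g - 1) ^ 3) * h3 +
    (- x ^ (1 + a) * (x ^ g - 1)) * h.hQ

/-- `3 N x^(N-1) y^2 + ζ x^a c = 0`. -/
theorem yy_rel (ha : a ≤ 1) (h : Pt g a ζ x) :
    3 * ((2 * g + 3 : ℕ) : E) * x ^ (2 * g + 2) * yy g a ζ x ^ 2 + ζ * x ^ a * cc g a x = 0 := by
  have h1 := yy_mul h
  have h2 := yy_cube ha h
  refine mul_right_cancel₀ (yy_ne h) ?_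
  have h3 : x ^ (2 * g + 2) * x ^ (1 + a) = x ^ a * x ^ (2 * g + 3) := by
    rw [← pow_add, ← pow_add]
    congr 1
    omega
  rw [zero_mul]
  linear_combination (3 * ((2 * g + 3 : ℕ) : E) * x ^ (2 * g + 2)) * h2 + x ^ a * h1 +
    (3 * ((2 * g + 3 : ℕ) : E) * (x ^ g - 1)) * h3

/-- The derivative of the critical value. -/
theorem bb_der {F : Type} [Field F] [Algebra F E] (ha : a ≤ 1) (h : Pt g a ζ x)
    (δ : Derivation F E E) (hδ : δ ζ = 1) : δ (bb g a ζ x) = yy g a ζ x := by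
  have h1 := yy_rel ha h
  have h2 := yy_cube ha h
  set y := yy g a ζ x with hy
  have h3 : δ (y ^ 3) = δ (x ^ (1 + a) * (x ^ g - 1)) := by rw [h2]
  have h4 : 3 * y ^ 2 * δ y = x ^ a * cc g a x * δ x := by
    have e1 : x ^ (1 + a) * (x ^ g - 1) = x ^ (g + 1 + a) - x ^ (1 + a) := by ring
    rw [e1, map_sub, Derivation.leibniz_pow, Derivation.leibniz_pow, Derivation.leibniz_pow] at h3
    simp only [smul_eq_mul, nsmul_eq_mul] at h3
    have e2 : g + 1 + a - 1 = g + a := by omega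
    have e3 : 1 + a - 1 = a := by omega
    rw [e2, e3] at h3
    rw [cc]
    push_cast at h3 ⊢
    linear_combination h3
  have hy3 : 3 * y ^ 2 ≠ 0 := mul_ne_zero h.h3 (pow_ne_zero _ (yy_ne h))
  have h5 : ((2 * g + 3 : ℕ) : E) * x ^ (2 * g + 2) * δ x + ζ * δ y = 0 := by
    refine mul_right_cancel₀ hy3 ?_
    rw [zero_mul]
    linear_combination ζ * h4 + δ x * h1
  rw [bb, map_add, Derivation.leibniz_pow, Derivation.leibniz, hδ, ← hy]
  simp only [smul_eq_mul, nsmul_eq_mul, mul_one]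
  have e4 : 2 * g + 3 - 1 = 2 * g + 2 := by omega
  rw [e4]
  linear_combination h5

theorem dual_eqs (ha : a ≤ 1) (hga : 2 ≤ g) (h : Pt g a ζ x) : ∃ X Y W : DualNumber E,
    Y ^ 2 = X ^ a * W ∧ Y * W = X ^ (g + 1) - X ∧
      W ^ 2 = (X ^ (g + 1 - a) - X ^ (1 - a)) * Y ∧
      (X.snd ≠ 0 ∨ Y.snd ≠ 0 ∨ W.snd ≠ 0) ∧
      X ^ (2 * g + 3) + TrivSqZeroExt.inl ζ * Y = TrivSqZeroExt.inl (bb g a ζ x) := by
  have h1 := yy_rel ha h
  have h2 := yy_cube ha h
  have h0 := yy_mul h
  have hx := h.hx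
  have h3 := h.h3
  have hbb : bb g a ζ x = x ^ (2 * g + 3) + ζ * yy g a ζ x := rfl
  set y := yy g a ζ x with hy
  obtain ⟨w, hw⟩ : ∃ w, w = y ^ 2 / x ^ a := ⟨_, rfl⟩
  have hw1 : y ^ 2 = x ^ a * w := by
    rw [hw]
    field_simp
  have hw2 : y * w = x ^ (g + 1) - x := by
    have e : x ^ a * (y * w) = x ^ a * (x ^ (g + 1) - x) := by
      linear_combination h2 - y * hw1
    exact mul_left_cancel₀ (pow_ne_zero _ hx) e
  have hw3 : w ^ 2 = (x ^ (g + 1 - a) - x ^ (1 - a)) * y := by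
    have e : x ^ a * w ^ 2 = x ^ a * ((x ^ (g + 1 - a) - x ^ (1 - a)) * y) := by
      have e1 : x ^ a * x ^ (g + 1 - a) = x ^ (g + 1) := by
        rw [← pow_add]
        congr 1
        omega
      have e2 : x ^ a * x ^ (1 - a) = x := by
        rw [← pow_add]
        have : a + (1 - a) = 1 := by omega
        rw [this, pow_one]
      linear_combination w * (-hw1) + y * hw2 - y * e1 + y * e2
    exact mul_left_cancel₀ (pow_ne_zero _ hx) e
  obtain ⟨k, hk⟩ : ∃ k, cc g a x = 3 * k := ⟨cc g a x / 3, by field_simp⟩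
  obtain ⟨l, hl⟩ : ∃ l, (2 * (g : E) + 2 - a) * x ^ g - (2 - a) = 3 * l :=
    ⟨((2 * (g : E) + 2 - a) * x ^ g - (2 - a)) / 3, by field_simp⟩
  have hk' : ((g : E) + 1 + a) * x ^ g - (1 + a) = 3 * k := by
    rw [← hk, cc]
    push_cast
    ring
  have i1 : 2 * k = l + a * (x ^ g - 1) := mul_left_cancel₀ h3 (by
    linear_combination (-2 : E) * hk' + hl)
  have i2 : k + l = ((g : E) + 1) * x ^ g - 1 := mul_left_cancel₀ h3 (by
    linear_combination -hk' - hl)
  have i3 : 2 * l = k + (((g : E) + 1 - a) * x ^ g - (1 - a)) := mul_left_cancel₀ h3 (by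
    linear_combination hk' - 2 * hl)
  have i4 : ζ * k * y = -(((2 * g + 3 : ℕ) : E) * x ^ (2 * g + 3) * (x ^ g - 1)) :=
    mul_left_cancel₀ h3 (by
      rw [hk] at h0
      linear_combination h0)
  have hxg : x ^ (g + 1) - x = x * (x ^ g - 1) := by ring
  refine ⟨TrivSqZeroExt.inl x + TrivSqZeroExt.inr (x ^ (g + 1) - x),
    TrivSqZeroExt.inl y + TrivSqZeroExt.inr (k * y),
    TrivSqZeroExt.inl w + TrivSqZeroExt.inr (l * w), ?_, ?_, ?_, ?_, ?_⟩
  · refine TrivSqZeroExt.ext ?_ ?_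
    · simpa using hw1
    · simp only [TrivSqZeroExt.snd_pow, TrivSqZeroExt.snd_mul, TrivSqZeroExt.fst_add,
        TrivSqZeroExt.snd_add, TrivSqZeroExt.fst_inl, TrivSqZeroExt.fst_inr, TrivSqZeroExt.snd_inl,
        TrivSqZeroExt.snd_inr, TrivSqZeroExt.fst_pow, smul_eq_mul, nsmul_eq_mul, add_zero,
        zero_add, MulOpposite.smul_eq_mul_unop, MulOpposite.unop_op]
      have e : (a : E) * (x ^ a.pred * (x ^ (g + 1) - x)) = a * x ^ a * (x ^ g - 1) := by
        rcases (by omega : a = 0 ∨ a = 1) with rfl | rfl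
        · simp
        · simp only [Nat.pred_eq_sub_one, Nat.sub_self, pow_zero, Nat.cast_one]
          ring
      rw [e]
      simp only [Nat.pred_eq_sub_one]
      push_cast
      linear_combination 2 * k * hw1 + x ^ a * w * i1
  · refine TrivSqZeroExt.ext ?_ ?_
    · simpa using hw2
    · simp only [TrivSqZeroExt.snd_pow, TrivSqZeroExt.snd_mul, TrivSqZeroExt.fst_add,
        TrivSqZeroExt.snd_add, TrivSqZeroExt.fst_inl, TrivSqZeroExt.fst_inr, TrivSqZeroExt.snd_inl,
        TrivSqZeroExt.snd_inr, smul_eq_mul, nsmul_eq_mul, add_zero,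
        zero_add, MulOpposite.smul_eq_mul_unop, MulOpposite.unop_op, TrivSqZeroExt.snd_sub,
        Nat.pred_eq_sub_one, Nat.add_sub_cancel]
      push_cast
      linear_combination (k + l) * hw2 + (x ^ (g + 1) - x) * i2
  · refine TrivSqZeroExt.ext ?_ ?_
    · simpa using hw3
    · simp only [TrivSqZeroExt.snd_pow, TrivSqZeroExt.snd_mul, TrivSqZeroExt.fst_add,
        TrivSqZeroExt.snd_add, TrivSqZeroExt.fst_inl, TrivSqZeroExt.fst_inr, TrivSqZeroExt.snd_inl,
        TrivSqZeroExt.snd_inr, smul_eq_mul, nsmul_eq_mul, add_zero, TrivSqZeroExt.fst_sub,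
        TrivSqZeroExt.fst_pow,
        zero_add, MulOpposite.smul_eq_mul_unop, MulOpposite.unop_op, TrivSqZeroExt.snd_sub]
      have e : ((g + 1 - a : ℕ) : E) * (x ^ (g + 1 - a).pred * (x ^ (g + 1) - x)) -
          ((1 - a : ℕ) : E) * (x ^ (1 - a).pred * (x ^ (g + 1) - x)) =
          (x ^ (g + 1 - a) - x ^ (1 - a)) * (((g : E) + 1 - a) * x ^ g - (1 - a)) := by
        rcases (by omega : a = 0 ∨ a = 1) with rfl | rfl
        · simp only [Nat.pred_eq_sub_one, Nat.sub_zero, Nat.add_sub_cancel, Nat.sub_self, pow_zero]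
          push_cast
          ring
        · obtain ⟨g', rfl⟩ : ∃ g', g = g' + 1 := ⟨g - 1, by omega⟩
          simp only [Nat.pred_eq_sub_one, Nat.sub_self, Nat.add_sub_cancel, pow_zero]
          push_cast
          ring
      rw [e]
      simp only [Nat.pred_eq_sub_one]
      push_cast
      linear_combination 2 * l * hw3 + (x ^ (g + 1 - a) - x ^ (1 - a)) * y * i3
  · left
    simp only [TrivSqZeroExt.snd_add, TrivSqZeroExt.snd_inl, TrivSqZeroExt.snd_inr, zero_add]
    intro h5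
    have h6 : x * (x ^ g - 1) = 0 := by linear_combination h5
    rcases mul_eq_zero.1 h6 with h7 | h7
    · exact hx h7
    · exact h.hg (sub_eq_zero.1 h7)
  · refine TrivSqZeroExt.ext ?_ ?_
    · simp [hbb]
    · simp only [TrivSqZeroExt.snd_pow, TrivSqZeroExt.snd_mul, TrivSqZeroExt.fst_add,
        TrivSqZeroExt.snd_add, TrivSqZeroExt.fst_inl, TrivSqZeroExt.fst_inr, TrivSqZeroExt.snd_inl,
        TrivSqZeroExt.snd_inr, smul_eq_mul, nsmul_eq_mul, add_zero,
        zero_add, MulOpposite.smul_eq_mul_unop, MulOpposite.unop_op,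
        Nat.pred_eq_sub_one]
      have e4 : 2 * g + 3 - 1 = 2 * g + 2 := by omega
      rw [e4]
      linear_combination i4

end field

/-- The polynomial `c`. -/
noncomputable def cP (E : Type) [Field E] (g a : ℕ) : E[X] :=
  C ((g + 1 + a : ℕ) : E) * X ^ g - C ((1 + a : ℕ) : E)

/-- The polynomial `u`. -/
noncomputable def uP (E : Type) [Field E] (g a : ℕ) : E[X] :=
  C (27 * ((2 * g + 3 : ℕ) : E) ^ 3) * X ^ (6 * g + 8 - a) * (X ^ g - 1) ^ 2

/-- The polynomial `Q`. -/
noncomputable def QP {E : Type} [Field E] (g a : ℕ) (ζ : E) : E[X] :=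
  uP E g a + C (ζ ^ 3) * cP E g a ^ 3

section poly

variable {E E' : Type} [Field E] [Field E'] {g a : ℕ} {ζ x : E}

theorem cP_map (f : E →+* E') : (cP E g a).map f = cP E' g a := by
  simp only [cP, Polynomial.map_sub, Polynomial.map_mul, Polynomial.map_pow, map_X,
    map_natCast, Polynomial.map_natCast]

theorem uP_map (f : E →+* E') : (uP E g a).map f = uP E' g a := by
  have e27 : f 27 = 27 := map_ofNat f 27
  simp only [uP, Polynomial.map_sub, Polynomial.map_mul, Polynomial.map_pow, map_X, map_C,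
    map_natCast, map_mul, map_pow, e27, Polynomial.map_one, Polynomial.map_natCast]

theorem QP_map (f : E →+* E') : (QP g a ζ).map f = QP g a (f ζ) := by
  simp only [QP, Polynomial.map_add, uP_map, Polynomial.map_mul, Polynomial.map_pow, cP_map,
    map_C, map_pow]

theorem cP_eval : (cP E g a).eval x = cc g a x := by
  simp [cP, cc]

theorem uP_eval : (uP E g a).eval x =
    27 * ((2 * g + 3 : ℕ) : E) ^ 3 * x ^ (6 * g + 8 - a) * (x ^ g - 1) ^ 2 := by
  simp [uP]

theorem QP_eval : (QP g a ζ).eval x =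
    27 * ((2 * g + 3 : ℕ) : E) ^ 3 * x ^ (6 * g + 8 - a) * (x ^ g - 1) ^ 2 +
      ζ ^ 3 * cc g a x ^ 3 := by
  rw [QP, eval_add, uP_eval, eval_mul, eval_C, eval_pow, cP_eval]

theorem QP_natDegree (hg : 2 ≤ g) (ha : a ≤ 1) (h3 : (3 : E) ≠ 0)
    (hN : ((2 * g + 3 : ℕ) : E) ≠ 0) : (QP g a ζ).natDegree = 8 * g + 8 - a := by
  have h27 : (27 * ((2 * g + 3 : ℕ) : E) ^ 3) ≠ 0 := by
    refine mul_ne_zero ?_ (pow_ne_zero _ hN)
    have : (27 : E) = 3 ^ 3 := by norm_num
    rw [this]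
    exact pow_ne_zero _ h3
  have hm : (X ^ g - 1 : E[X]).Monic := by
    rw [← C_1]
    exact monic_X_pow_sub_C _ (by omega)
  have h1 : (uP E g a).natDegree = 8 * g + 8 - a := by
    rw [uP, mul_assoc, natDegree_C_mul h27, Monic.natDegree_mul (monic_X_pow _) (hm.pow 2),
      natDegree_X_pow, hm.natDegree_pow, ← C_1, natDegree_X_pow_sub_C]
    omega
  have h2 : (C (ζ ^ 3) * cP E g a ^ 3).natDegree ≤ 3 * g := by
    refine (natDegree_C_mul_le _ _).trans (natDegree_pow_le.trans ?_)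
    have h4 : (cP E g a).natDegree ≤ g := by
      rw [cP]
      refine (natDegree_sub_le _ _).trans (max_le (natDegree_C_mul_X_pow_le _ _) ?_)
      rw [natDegree_C]
      omega
    omega
  rw [QP, natDegree_add_eq_left_of_natDegree_lt, h1]
  rw [h1]
  omega

theorem cc_ne (hg : 2 ≤ g) (h3 : (3 : E) ≠ 0) (hN : ((2 * g + 3 : ℕ) : E) ≠ 0)
    (hgE : (g : E) ≠ 0) (h1a : ((1 + a : ℕ) : E) ≠ 0)
    (ha : a ≤ 1) (h : (QP g a ζ).eval x = 0) : cc g a x ≠ 0 := by
  intro hc
  have h27 : (27 * ((2 * g + 3 : ℕ) : E) ^ 3) ≠ 0 := by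
    refine mul_ne_zero ?_ (pow_ne_zero _ hN)
    have : (27 : E) = 3 ^ 3 := by norm_num
    rw [this]
    exact pow_ne_zero _ h3
  rw [QP_eval, hc] at h
  have h4 : (x ^ (6 * g + 8 - a)) * (x ^ g - 1) ^ 2 = 0 := by
    refine mul_left_cancel₀ h27 ?_
    rw [mul_zero]
    linear_combination h
  rcases mul_eq_zero.1 h4 with h5 | h5
  · have h6 : x = 0 := (pow_eq_zero_iff (by omega)).1 h5
    rw [h6, cc, zero_pow (by omega), mul_zero, zero_sub, neg_eq_zero] at hc
    exact h1a hc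
  · have h6 : x ^ g = 1 := sub_eq_zero.1 ((pow_eq_zero_iff (by omega)).1 h5)
    rw [cc, h6] at hc
    apply hgE
    push_cast at hc
    linear_combination hc

theorem W_ne (hg : 2 ≤ g) (h3 : (3 : E) ≠ 0) (hN : ((2 * g + 3 : ℕ) : E) ≠ 0)
    (h1a : ((1 + a : ℕ) : E) ≠ 0) (hm : ((6 * g + 8 - a : ℕ) : E) ≠ 0) (ha : a ≤ 1) :
    uP E g a * derivative (cP E g a ^ 3) - derivative (uP E g a) * cP E g a ^ 3 ≠ 0 := by
  have h27 : (27 * ((2 * g + 3 : ℕ) : E) ^ 3) ≠ 0 := by
    refine mul_ne_zero ?_ (pow_ne_zero _ hN)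
    have : (27 : E) = 3 ^ 3 := by norm_num
    rw [this]
    exact pow_ne_zero _ h3
  obtain ⟨n, hn⟩ : ∃ n, 6 * g + 8 - a = n + 1 := ⟨6 * g + 7 - a, by omega⟩
  rw [hn] at hm
  intro h0
  have hu : uP E g a = C (27 * ((2 * g + 3 : ℕ) : E) ^ 3) * X ^ (n + 1) * (X ^ g - 1) ^ 2 := by
    rw [uP, hn]
  set v := cP E g a ^ 3 with hv
  set c := 27 * ((2 * g + 3 : ℕ) : E) ^ 3 with hc
  have h1 : uP E g a * derivative v - derivative (uP E g a) * v =
      X ^ n * (X * (C c * (X ^ g - 1) ^ 2 * derivative v) -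
        (C c * (C ((n + 1 : ℕ) : E) * (X ^ g - 1) ^ 2) +
          X * (C c * derivative ((X ^ g - 1 : E[X]) ^ 2))) * v) := by
    rw [hu, derivative_mul, derivative_C_mul, derivative_X_pow, Nat.add_sub_cancel]
    ring
  rw [h1] at h0
  have h2 := (mul_eq_zero.1 h0).resolve_left (pow_ne_zero _ X_ne_zero)
  have h4 := congrArg (eval 0) h2
  simp only [eval_sub, eval_mul, eval_X, zero_mul, zero_sub, eval_add, eval_C, eval_pow,
    add_zero, eval_one, eval_zero, neg_eq_zero] at h4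
  rw [hv, eval_pow, cP_eval, cc, zero_pow (by omega)] at h4
  apply mul_ne_zero (mul_ne_zero h27 (mul_ne_zero hm (pow_ne_zero 2 (neg_ne_zero.2
    (one_ne_zero (α := E)))))) (pow_ne_zero 3 (neg_ne_zero.2 h1a))
  rw [← h4]
  ring

end poly

section tr

variable {F K : Type} [Field F] [Field K] [Algebra F K] {g a : ℕ} {ζ x : K}

theorem root_tr (hg : 2 ≤ g) (h3 : (3 : K) ≠ 0) (hN : ((2 * g + 3 : ℕ) : K) ≠ 0)
    (hgE : (g : K) ≠ 0) (h1a : ((1 + a : ℕ) : K) ≠ 0) (ha : a ≤ 1) (hζ : Transcendental F ζ)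
    (h : (QP g a ζ).eval x = 0) : Transcendental F x := by
  intro halg
  have hc := cc_ne hg h3 hN hgE h1a ha h
  have hxA : x ∈ algebraicClosure F K := mem_algebraicClosure_iff.2 halg
  have hcA : cc g a x ∈ algebraicClosure F K := by
    rw [cc]
    exact sub_mem (mul_mem (natCast_mem _ _) (pow_mem hxA _)) (natCast_mem _ _)
  have huA : 27 * ((2 * g + 3 : ℕ) : K) ^ 3 * x ^ (6 * g + 8 - a) * (x ^ g - 1) ^ 2 ∈
      algebraicClosure F K := by
    refine mul_mem (mul_mem (mul_mem ?_ (pow_mem (natCast_mem _ _) _)) (pow_mem hxA _))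
      (pow_mem (sub_mem (pow_mem hxA _) (one_mem _)) _)
    exact_mod_cast natCast_mem (algebraicClosure F K) 27
  rw [QP_eval] at h
  have h4 : ζ ^ 3 = -(27 * ((2 * g + 3 : ℕ) : K) ^ 3 * x ^ (6 * g + 8 - a) *
      (x ^ g - 1) ^ 2) / cc g a x ^ 3 := by
    rw [eq_div_iff (pow_ne_zero _ hc)]
    linear_combination h
  have h5 : ζ ^ 3 ∈ algebraicClosure F K := by
    rw [h4]
    exact div_mem (neg_mem huA) (pow_mem hcA _)
  exact hζ (IsAlgebraic.of_pow (n := 3) (by norm_num) (mem_algebraicClosure_iff.1 h5))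

theorem pt_of_root (hg : 2 ≤ g) (h3 : (3 : K) ≠ 0) (hN : ((2 * g + 3 : ℕ) : K) ≠ 0)
    (hgE : (g : K) ≠ 0) (h1a : ((1 + a : ℕ) : K) ≠ 0) (ha : a ≤ 1) (hζ : Transcendental F ζ)
    (h : (QP g a ζ).eval x = 0) : Pt g a ζ x := by
  have hx := root_tr hg h3 hN hgE h1a ha hζ h
  refine ⟨h3, hN, ?_, ?_, ?_, cc_ne hg h3 hN hgE h1a ha h, ?_⟩
  · rintro rfl
    exact hζ isAlgebraic_zero
  · rintro rfl
    exact hx isAlgebraic_zero
  · intro h4
    exact hx (IsAlgebraic.of_pow (n := g) (by omega) (h4 ▸ isAlgebraic_one))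
  · rw [← QP_eval, h]

theorem QP_sep [IsAlgClosed K] (hg : 2 ≤ g) (h3 : (3 : K) ≠ 0) (hN : ((2 * g + 3 : ℕ) : K) ≠ 0)
    (hgE : (g : K) ≠ 0) (h1a : ((1 + a : ℕ) : K) ≠ 0) (hm : ((6 * g + 8 - a : ℕ) : K) ≠ 0)
    (ha : a ≤ 1) (hζ : Transcendental F ζ) : (QP g a ζ).Separable := by
  rw [separable_def, isCoprime_iff_aeval_ne_zero_of_isAlgClosed K K]
  intro x
  by_contra hcon
  push Not at hcon
  obtain ⟨h1, h2⟩ := hcon
  simp only [coe_aeval_eq_eval] at h1 h2
  have hx := root_tr hg h3 hN hgE h1a ha hζ h1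
  apply hx
  refine ⟨uP F g a * derivative (cP F g a ^ 3) - derivative (uP F g a) * cP F g a ^ 3, ?_, ?_⟩
  · intro h0
    apply W_ne (E := K) hg h3 hN h1a hm ha
    have h4 := congrArg (Polynomial.map (algebraMap F K)) h0
    rwa [Polynomial.map_sub, Polynomial.map_mul, Polynomial.map_mul, ← derivative_map,
      ← derivative_map, Polynomial.map_pow, uP_map, cP_map, Polynomial.map_zero] at h4
  · rw [← eval_map_algebraMap, Polynomial.map_sub, Polynomial.map_mul, Polynomial.map_mul,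
      ← derivative_map, ← derivative_map, Polynomial.map_pow, uP_map, cP_map, eval_sub,
      eval_mul, eval_mul]
    rw [QP, eval_add, eval_mul, eval_C] at h1
    rw [QP, derivative_add, derivative_C_mul, eval_add, eval_mul, eval_C] at h2
    linear_combination (eval x (derivative (cP K g a ^ 3))) * h1 - (eval x (cP K g a ^ 3)) * h2

theorem eq_of {x₁ x₂ : K} (ha : a ≤ 1) (hg : 2 ≤ g) (hx₁ : Transcendental F x₁)
    (h₁ : Pt g a ζ x₁) (h₂ : Pt g a ζ x₂) (hy : yy g a ζ x₁ = yy g a ζ x₂)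
    (hb : bb g a ζ x₁ = bb g a ζ x₂) : x₁ = x₂ := by
  have hN : x₁ ^ (2 * g + 3) = x₂ ^ (2 * g + 3) := by
    rw [bb, bb, hy] at hb
    exact add_right_cancel hb
  have hc : x₁ ^ (1 + a) * (x₁ ^ g - 1) = x₂ ^ (1 + a) * (x₂ ^ g - 1) := by
    rw [← yy_cube ha h₁, ← yy_cube ha h₂, hy]
  obtain ⟨μ, hμ⟩ : ∃ μ, x₂ = μ * x₁ := ⟨x₂ / x₁, by rw [div_mul_cancel₀ _ h₁.hx]⟩
  have hμN : μ ^ (2 * g + 3) = 1 := by
    rw [hμ, mul_pow] at hN
    exact mul_right_cancel₀ (pow_ne_zero _ h₁.hx) (by rw [one_mul, ← hN])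
  have hμA : μ ∈ algebraicClosure F K := by
    have : IsAlgebraic F μ := IsAlgebraic.of_pow (n := 2 * g + 3) (by omega)
      (hμN ▸ isAlgebraic_one)
    exact mem_algebraicClosure_iff.2 this
  have h5 : (μ ^ (1 + a + g) - 1) * x₁ ^ g = μ ^ (1 + a) - 1 := by
    refine mul_left_cancel₀ (pow_ne_zero (1 + a) h₁.hx) ?_
    rw [hμ, mul_pow, mul_pow] at hc
    linear_combination -hc
  have h6 : μ ^ (1 + a + g) = 1 := by
    by_contra hne
    have hne' : μ ^ (1 + a + g) - 1 ≠ 0 := sub_ne_zero.2 hne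
    have h7 : x₁ ^ g = (μ ^ (1 + a) - 1) / (μ ^ (1 + a + g) - 1) := by
      rw [eq_div_iff hne', mul_comm]
      exact h5
    have h8 : x₁ ^ g ∈ algebraicClosure F K := by
      rw [h7]
      exact div_mem (sub_mem (pow_mem hμA _) (one_mem _)) (sub_mem (pow_mem hμA _) (one_mem _))
    exact hx₁ (IsAlgebraic.of_pow (n := g) (by omega) (mem_algebraicClosure_iff.1 h8))
  have h7 : μ ^ (1 + a) = 1 := by
    rw [h6, sub_self, zero_mul] at h5
    exact (sub_eq_zero.1 h5.symm)
  have h8 : μ = 1 := by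
    rcases (by omega : a = 0 ∨ a = 1) with rfl | rfl
    · simpa using h7
    · have h9 : μ ^ (2 * g + 3) = (μ ^ (1 + 1)) ^ (g + 1) * μ := by ring
      rw [h7, one_pow, one_mul] at h9
      rw [← h9, hμN]
  rw [hμ, h8, one_mul]

end tr

end GCV

theorem t_GCV (hGDV : Stmt_GDV) : Stmt_GCV := by
  classical
  intro F K _ _ _ _ g a hg ha _ hfac ζ hζ
  have hch : ∀ m : ℕ, 0 < m → m ≤ 6 * g + 9 → (m : K) ≠ 0 := by
    intro m hm hle h0
    apply hfac
    obtain ⟨c, hc⟩ := Nat.dvd_factorial hm hle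
    rw [hc, Nat.cast_mul, h0, zero_mul]
  have h3 : (3 : K) ≠ 0 := by exact_mod_cast hch 3 (by omega) (by omega)
  have hN := hch (2 * g + 3) (by omega) (by omega)
  have hgE := hch g (by omega) (by omega)
  have h1a := hch (1 + a) (by omega) (by omega)
  have hm := hch (6 * g + 8 - a) (by omega) (by omega)
  have hsep := GCV.QP_sep (F := F) hg h3 hN hgE h1a hm ha hζ
  obtain ⟨L, hζL, δ, hδ, hL⟩ := hGDV (F := F) ζ hζ
  let S : Finset K := (GCV.QP g a ζ).roots.toFinset
  have hS : ∀ x ∈ S, (GCV.QP g a ζ).eval x = 0 := by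
    intro x hx
    rw [Multiset.mem_toFinset] at hx
    exact (Polynomial.mem_roots'.1 hx).2
  have hcard : S.card = 8 * g + 8 - a := by
    rw [Multiset.toFinset_card_of_nodup (Polynomial.nodup_roots hsep),
      ← GCV.QP_natDegree (ζ := ζ) hg ha h3 hN]
    exact (Polynomial.splits_iff_card_roots.1 (IsAlgClosed.splits _))
  have hPt : ∀ x ∈ S, GCV.Pt g a ζ x := fun x hx =>
    GCV.pt_of_root (F := F) hg h3 hN hgE h1a ha hζ (hS x hx)
  have hTr : ∀ x ∈ S, Transcendental F x := fun x hx =>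
    GCV.root_tr (F := F) hg h3 hN hgE h1a ha hζ (hS x hx)
  have hSL : ∀ x ∈ S, x ∈ L := by
    intro x hx
    have h1 : (GCV.QP g a (⟨ζ, hζL⟩ : L)).map (algebraMap L K) = GCV.QP g a ζ :=
      GCV.QP_map _
    refine hL (GCV.QP g a ⟨ζ, hζL⟩) x ?_ ?_
    · rw [← Polynomial.separable_map (algebraMap L K), h1]
      exact hsep
    · rw [← Polynomial.eval_map_algebraMap, h1, hS x hx]
  have hPtL : ∀ x (hx : x ∈ S), GCV.Pt g a (⟨ζ, hζL⟩ : L) ⟨x, hSL x hx⟩ := fun x hx =>
    GCV.Pt.of_map (algebraMap L K) (hPt x hx)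
  have hder : ∀ x (hx : x ∈ S), δ (GCV.bb g a ⟨ζ, hζL⟩ ⟨x, hSL x hx⟩) =
      GCV.yy g a ⟨ζ, hζL⟩ ⟨x, hSL x hx⟩ := fun x hx => GCV.bb_der ha (hPtL x hx) δ hδ
  have hbb : ∀ x (hx : x ∈ S), algebraMap L K (GCV.bb g a ⟨ζ, hζL⟩ ⟨x, hSL x hx⟩) =
      GCV.bb g a ζ x := fun x hx => GCV.bb_map _
  have hyy : ∀ x (hx : x ∈ S), algebraMap L K (GCV.yy g a ⟨ζ, hζL⟩ ⟨x, hSL x hx⟩) =
      GCV.yy g a ζ x := fun x hx => GCV.yy_map _
  have hinj : Set.InjOn (GCV.bb g a ζ) S := by
    intro x₁ hx₁ x₂ hx₂ h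
    have hx₁ : x₁ ∈ S := hx₁
    have hx₂ : x₂ ∈ S := hx₂
    have h1 : GCV.bb g a (⟨ζ, hζL⟩ : L) ⟨x₁, hSL x₁ hx₁⟩ = GCV.bb g a ⟨ζ, hζL⟩ ⟨x₂, hSL x₂ hx₂⟩ :=
      (algebraMap L K).injective (by rw [hbb x₁ hx₁, hbb x₂ hx₂, h])
    have h2 : GCV.yy g a (⟨ζ, hζL⟩ : L) ⟨x₁, hSL x₁ hx₁⟩ =
        GCV.yy g a ⟨ζ, hζL⟩ ⟨x₂, hSL x₂ hx₂⟩ := by
      rw [← hder x₁ hx₁, ← hder x₂ hx₂, h1]
    have h4 : GCV.yy g a ζ x₁ = GCV.yy g a ζ x₂ := by rw [← hyy x₁ hx₁, ← hyy x₂ hx₂, h2]
    exact GCV.eq_of ha hg (hTr x₁ hx₁) (hPt x₁ hx₁) (hPt x₂ hx₂) h4 h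
  have hne : ∀ x ∈ S, GCV.bb g a ζ x ≠ 0 := by
    intro x hx h0
    have h1 : GCV.bb g a (⟨ζ, hζL⟩ : L) ⟨x, hSL x hx⟩ = 0 :=
      (algebraMap L K).injective (by rw [hbb x hx, h0, map_zero])
    have h2 := hder x hx
    rw [h1, map_zero] at h2
    exact GCV.yy_ne (hPtL x hx) h2.symm
  obtain ⟨B, hB, hBd⟩ : ∃ B : Finset K, B.card = 8 * g + 8 ∧ ∀ b ∈ B, ∃ x y w : DualNumber K,
      y ^ 2 = x ^ a * w ∧ y * w = x ^ (g + 1) - x ∧
      w ^ 2 = (x ^ (g + 1 - a) - x ^ (1 - a)) * y ∧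
      (x.snd ≠ 0 ∨ y.snd ≠ 0 ∨ w.snd ≠ 0) ∧
      x ^ (2 * g + 3) + TrivSqZeroExt.inl ζ * y = TrivSqZeroExt.inl b := by
    have h1 : (S.image (GCV.bb g a ζ)).card = 8 * g + 8 - a := by
      rw [Finset.card_image_of_injOn hinj, hcard]
    have h2 : ∀ b ∈ S.image (GCV.bb g a ζ), ∃ x y w : DualNumber K,
        y ^ 2 = x ^ a * w ∧ y * w = x ^ (g + 1) - x ∧
        w ^ 2 = (x ^ (g + 1 - a) - x ^ (1 - a)) * y ∧
        (x.snd ≠ 0 ∨ y.snd ≠ 0 ∨ w.snd ≠ 0) ∧
        x ^ (2 * g + 3) + TrivSqZeroExt.inl ζ * y = TrivSqZeroExt.inl b := by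
      intro b hb
      obtain ⟨x, hx, rfl⟩ := Finset.mem_image.1 hb
      exact GCV.dual_eqs ha hg (hPt x hx)
    rcases (by omega : a = 0 ∨ a = 1) with ha0 | ha1
    · exact ⟨_, by rw [h1]; omega, h2⟩
    · refine ⟨insert 0 (S.image (GCV.bb g a ζ)), ?_, ?_⟩
      · rw [Finset.card_insert_of_notMem, h1]
        · omega
        · intro h0
          obtain ⟨x, hx, h0⟩ := Finset.mem_image.1 h0
          exact hne x hx h0
      · intro b hb
        rcases Finset.mem_insert.1 hb with rfl | hb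
        · refine ⟨0, 0, TrivSqZeroExt.inr 1, ?_, ?_, ?_, ?_, ?_⟩
          · rw [ha1]
            simp
          · simp
          · rw [ha1]
            simp [pow_two]
          · simp
          · simp
        · exact h2 b hb
  let e := B.equivFinOfCardEq hB
  refine ⟨fun l => (e.symm l : K), ?_, fun l => hBd _ (e.symm l).2⟩
  exact Subtype.val_injective.comp e.symm.injective

end Pool.Agent.MG.G0


end
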