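import Mathlib
import Pool.Agent.KDM.C02
import Pool.Agent.KDM.C08
import Pool.Agent.KDM.C11
import Pool.Agent.KDM.C12
import Pool.Agent.KDM.C13
import Pool.Agent.KDM.C14
import Pool.Agent.KDM.C15
import Pool.Agent.KDM.C21
import Pool.Agent.KDM.C22
import Pool.Agent.KDM.C23
import Pool.Agent.KDM.C24
import Pool.Agent.KDM.C25
import Pool.Agent.KDM.C26
import Pool.Agent.KDM.C28
import Pool.Agent.KDM.C29
import Pool.Agent.KDM.C31
import Pool.Agent.KDM.C33
import Pool.Agent.KDM.C34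
import Pool.Agent.KDM.C35
import Pool.Agent.KDM.C36
import Pool.Agent.KDM.C37
import Pool.Agent.KDM.C40
import Pool.Agent.KDM.C41
import Pool.Agent.KDM.C42
import Pool.Agent.KDM.C43
import Pool.Agent.KDM.C45
import Pool.Agent.KDM.C46
import Pool.Agent.KDM.C47
import Pool.Agent.KDM.C48
import Pool.Agent.KDM.C55
import Pool.Agent.KDM.C56
import Pool.Agent.KDM.C57
import Pool.Agent.KDM.C58
import Pool.Agent.KDM.C59
import Pool.Agent.KDM.C60
import Pool.Agent.KDM.C61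
import Pool.Agent.KDM.C62
import Pool.Agent.KDM.C63
import Pool.Agent.KDM.C64
import Pool.Agent.KDM.C65
import Pool.Agent.KDM.C66
import Pool.Agent.KDM.C67
import Pool.Agent.KDM.C68
import Pool.Agent.KDM.C69
import Pool.Agent.KDM.C70
import Pool.Agent.KDM.C71
import Pool.Agent.KDM.C76
import Pool.Agent.KDM.C77
import Pool.Agent.KDM.C78
import Pool.Agent.KDM.C79
import Pool.Agent.KDM.C80
import Pool.Agent.KDM.C81
import Pool.Agent.KDM.C82
import Pool.Agent.KDM.C83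
import Pool.Agent.KDM.C84

/-! Parts: MG.G0.GDG, MG.G0.HV4, MG.G0.HV9, MG.G0.MPG, MG.G0.PL3, MG.G0.PNI, MG.G0.TG.TCH, MG.G0.TG.TCQ, MG.G0.TG.TFP, MG.G0.TG.TGR, MG.G0.UPL, MG.G0.ZPB, MG.G0.ZSD, MG.G0.Asm -/

section

/-!
# GDG: the Gram determinant vanishes at critical values
-/

open Polynomial

namespace Pool.Agent.MG.G0

namespace GDG

/-- A polynomial of the form `X ^ k * Q` with `Q(0) ≠ 0`. -/
theorem split {K : Type} [Field K] (P : K[X]) (hP : P ≠ 0) :
    ∃ (k : ℕ) (Q : K[X]), P = X ^ k * Q ∧ Q.eval 0 ≠ 0 := by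
  obtain ⟨Q, h1, h2⟩ := P.exists_eq_pow_rootMultiplicity_mul_and_not_dvd hP 0
  refine ⟨P.rootMultiplicity 0, Q, ?_, ?_⟩
  · simpa using h1
  · intro h
    exact h2 (dvd_iff_isRoot.2 h)

/-- An element of the dual numbers. -/
theorem dual {K : Type} [Field K] (x : DualNumber K) (Q : K[X]) (hx : x.fst = 0)
    (hQ : Q.eval 0 ≠ 0) (h : x * aeval x Q = 0) : x.snd = 0 := by
  have h1 : (aeval x Q).fst = Q.eval 0 := by
    have := (aeval_algHom_apply (TrivSqZeroExt.fstHom K K K) x Q)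
    have h2 : (TrivSqZeroExt.fstHom K K K) x = 0 := hx
    rw [h2] at this
    have h3 : (TrivSqZeroExt.fstHom K K K) (aeval x Q) = (aeval x Q).fst := rfl
    rw [← h3, ← this, Polynomial.coe_aeval_eq_eval]
  have h2 : (x * aeval x Q).snd = 0 := by rw [h]; rfl
  rw [TrivSqZeroExt.snd_mul, hx, zero_smul, zero_add, h1] at h2
  simpa [hQ] using h2

/-- Linear algebra: an algebra over `K[X]` with a finite basis. -/
theorem main {K : Type} [Field K] {R : Type} [CommRing R] [Algebra K R] [Algebra K[X] R]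
    [IsScalarTower K K[X] R] {d : ℕ} (hd : (d : K) ≠ 0) (b : Module.Basis (Fin d) K[X] R)
    (G : Matrix (Fin d) (Fin d) K[X])
    (hG : ∀ i j, (d : K[X]) * G i j = (Algebra.leftMulMatrix b (b i * b j)).trace)
    (β : K) (h : R →ₐ[K] DualNumber K) (hz : h (algebraMap K[X] R (X - C β)) = 0)
    (hf : ∃ f : R, (h f).snd ≠ 0) : G.det.eval β = 0 := by
  by_contra hdet
  obtain ⟨f0, hf0⟩ := hf
  set f : R := f0 - algebraMap K R (h f0).fst with hfdef
  have hf1 : (h f).fst = 0 := by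
    rw [hfdef, map_sub, AlgHom.commutes]
    simp [TrivSqZeroExt.algebraMap_eq_inl]
  have hf2 : (h f).snd = (h f0).snd := by
    rw [hfdef, map_sub, AlgHom.commutes]
    simp [TrivSqZeroExt.algebraMap_eq_inl]
  set ρ : R →ₐ[K] Matrix (Fin d) (Fin d) K :=
    ((Polynomial.aeval β : K[X] →ₐ[K] K).mapMatrix).comp
      ((Algebra.leftMulMatrix b).restrictScalars K) with hρ
  have hρtr : ∀ x : R, (ρ x).trace = ((Algebra.leftMulMatrix b x).trace).eval β := by
    intro x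
    rw [hρ, Matrix.trace, Matrix.trace, eval_finsetSum]
    refine Finset.sum_congr rfl fun i _ => ?_
    simp [Polynomial.coe_aeval_eq_eval]
  obtain ⟨k, Q, hPQ, hQ⟩ := split (ρ f).charpoly (Matrix.charpoly_monic _).ne_zero
  set u : R := f * aeval f Q with hu
  have hnil : (ρ u) ^ (k + 1) = 0 := by
    have h1 : aeval (ρ f) (ρ f).charpoly = 0 := Matrix.aeval_self_charpoly _
    rw [hPQ, map_mul, map_pow, aeval_X] at h1
    have h0 : u ^ (k + 1) = f * (f ^ k * aeval f Q) * (aeval f Q) ^ k := by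
      rw [hu]
      ring_nf
    have h2 : ρ u ^ (k + 1) = ρ (f * (f ^ k * aeval f Q) * (aeval f Q) ^ k) := by
      rw [← map_pow, h0]
    rw [h2, map_mul, map_mul, map_mul, map_pow, ← aeval_algHom_apply, h1]
    simp
  have htr : ∀ y : R, (ρ (u * y)).trace = 0 := by
    intro y
    have h1 : IsNilpotent (ρ (u * y)) := by
      refine ⟨k + 1, ?_⟩
      rw [← map_pow, mul_pow, map_mul, map_pow, hnil, zero_mul]
    exact (Matrix.isNilpotent_trace_of_isNilpotent h1).eq_zero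
  set c : Fin d → K[X] := fun i => b.repr u i with hc
  have huc : u = ∑ i, c i • b i := (b.sum_repr u).symm
  have hlin : ∀ j, (Algebra.leftMulMatrix b (u * b j)).trace =
      ∑ i, c i * ((d : K[X]) * G i j) := by
    intro j
    have h1 : u * b j = ∑ i, c i • (b i * b j) := by
      conv_lhs => rw [huc]
      rw [Finset.sum_mul]
      exact Finset.sum_congr rfl fun i _ => smul_mul_assoc _ _ _
    rw [h1, map_sum, Matrix.trace_sum]
    refine Finset.sum_congr rfl fun i _ => ?_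
    rw [map_smul, Matrix.trace_smul, hG, smul_eq_mul]
  have hvec : Matrix.vecMul (fun i => (c i).eval β) (G.map (eval β)) = 0 := by
    ext j
    have h1 := htr (b j)
    rw [hρtr, hlin, eval_finsetSum] at h1
    have h2 : ∑ i, eval β (c i * ((d : K[X]) * G i j)) =
        (d : K) * ∑ i, (c i).eval β * (G i j).eval β := by
      rw [Finset.mul_sum]
      refine Finset.sum_congr rfl fun i _ => ?_
      rw [eval_mul, eval_mul, eval_natCast]
      ring_nf
    rw [h2] at h1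
    have h3 := (mul_eq_zero.1 h1).resolve_left hd
    simpa [Matrix.vecMul, dotProduct] using h3
  have hdet' : (G.map (eval β)).det ≠ 0 := by
    have h1 : (G.map (eval β)).det = G.det.eval β := by
      have := RingHom.map_det (evalRingHom β) G
      simpa using this.symm
    rw [h1]
    exact hdet
  have hc0 : ∀ i, (c i).eval β = 0 := fun i =>
    congrFun (Matrix.eq_zero_of_vecMul_eq_zero hdet' hvec) i
  have hhu : h u = 0 := by
    rw [huc, map_sum]
    refine Finset.sum_eq_zero fun i _ => ?_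
    obtain ⟨q, hq⟩ := dvd_iff_isRoot.2 (hc0 i)
    rw [hq, Algebra.smul_def, map_mul (algebraMap K[X] R), map_mul, map_mul, hz, zero_mul,
      zero_mul]
  have hfin : h f * aeval (h f) Q = 0 := by
    rw [aeval_algHom_apply, ← map_mul, ← hu, hhu]
  exact hf0 (hf2 ▸ dual (h f) Q hf1 hQ hfin)

end GDG

theorem t_GDG (h1 : Stmt_ZD1) : Stmt_GDG := by
  intro K _ g d hd hdK R hR z hz e G he hG β h hhz hf
  let alg : Algebra K[X] R := (aeval z : K[X] →ₐ[K] R).toRingHom.toAlgebra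
  have hmap : ∀ p : K[X], algebraMap K[X] R p = aeval z p := fun p => rfl
  have : IsScalarTower K K[X] R := IsScalarTower.of_algebraMap_eq fun a => by
    rw [hmap, Polynomial.algebraMap_eq, aeval_C]
  have hcoe : ∀ p : K[X], ((aeval z p : R) : LaurentSeries K) = zpol K d p := by
    intro p
    have := (aeval_algHom_apply R.val z p)
    have h2 : R.val z = zz K d := hz
    rw [h2] at this
    exact this.symm
  have hsmul : ∀ (p : K[X]) (x : R), ((p • x : R) : LaurentSeries K) =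
      zpol K d p * (x : LaurentSeries K) := by
    intro p x
    rw [Algebra.smul_def, hmap, MulMemClass.coe_mul, hcoe]
  set v : Fin d → R := fun i => ⟨e i, he.mem i⟩ with hv
  have hsum : ∀ c : Fin d → K[X], ((∑ i, c i • v i : R) : LaurentSeries K) =
      ∑ i, zpol K d (c i) * e i := by
    intro c
    rw [AddSubmonoidClass.coe_finsetSum]
    exact Finset.sum_congr rfl fun i _ => hsmul _ _
  have hli : LinearIndependent K[X] v := by
    rw [Fintype.linearIndependent_iff]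
    intro c hc i
    have h2 := hsum c
    rw [hc] at h2
    obtain ⟨c0, hc0, hu⟩ := he.uni 0 R.zero_mem
    have h3 := hu c (by simpa using h2)
    have h4 := hu 0 (by simp)
    rw [h3, ← h4]
    rfl
  have hsp : ⊤ ≤ Submodule.span K[X] (Set.range v) := by
    intro x _
    obtain ⟨c, hc, -⟩ := he.uni x x.2
    have h2 : x = ∑ i, c i • v i := Subtype.ext (by rw [hsum]; exact hc)
    rw [h2]
    exact Submodule.sum_mem _ fun i _ => Submodule.smul_mem _ _ (Submodule.subset_span ⟨i, rfl⟩)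
  set b : Module.Basis (Fin d) K[X] R := Module.Basis.mk hli hsp with hb
  have hbv : ∀ i, b i = v i := fun i => by rw [hb, Module.Basis.mk_apply]
  refine GDG.main hdK b G ?_ β h ?_ hf
  · intro i j
    have h2 := (h1 K g d R hd hR e he (e i * e j) (R.mul_mem (he.mem i) (he.mem j))).1
      (Algebra.leftMulMatrix b (b i * b j)).transpose ?_
    · rw [← hG, Matrix.trace_transpose] at h2
      apply ZL.ev_injective d hd.ne'
      refine Eq.trans ?_ h2
      simp [ZL.ev]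
    · intro l
      have h3 : (b i * b j) * b l = ∑ m, (Algebra.leftMulMatrix b (b i * b j)) m l • b m := by
        conv_lhs => rw [← b.sum_repr ((b i * b j) * b l)]
        refine Finset.sum_congr rfl fun m _ => ?_
        rw [Algebra.leftMulMatrix_eq_repr_mul]
      simp only [Matrix.transpose_apply]
      generalize (Algebra.leftMulMatrix b) (b i * b j) = M at h3 ⊢
      simp only [hbv] at h3
      have h4 := congrArg (fun x : R => (x : LaurentSeries K)) h3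
      rw [hsum] at h4
      exact h4
  · rw [hmap, map_sub, aeval_X, aeval_C, map_sub, hhz, AlgHom.commutes]
    rw [TrivSqZeroExt.algebraMap_eq_inl]
    exact sub_self _

end Pool.Agent.MG.G0


end

section

/-!
# HV4: base change of the values
-/

open TensorProduct

namespace Pool.Agent.MG.G0

theorem t_HV4 (hPOL : Stmt_POL) (hCNT : Stmt_CNT) : Stmt_HV4 := by
  intro A B I _ _ _ _ _ _ g E P t hP φ k u u' x ⟨hu, η, hη, hx⟩
  refine ⟨fun i => (bcE (φ : A →+* B) P ⟨u' i, hu i⟩).2,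
    fun i => bcDR (φ : A →+* B) P (η i), fun i => ?_, ?_⟩
  · change dk (bc (φ : A →+* B) P) (bcT (φ : A →+* B) P (η i)) = _
    rw [dk_bcT, hη, kmap_smul]
    rfl
  · rw [hx, ← (hPOL E P hP).1 φ]
    congr 1
    funext i
    rw [(hCNT (φ : A →+* B) P).2]
    rfl

end Pool.Agent.MG.G0


end

section

/-!
# HV9: the values over smooth curves and the function on sums of products of differentials
(PAPER_Q.md, HV9)
-/

open TensorProduct

namespace Pool.Agent.MG.G0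

namespace HV9

theorem exists_dk {I A : Type} [CommRing A] {P : Subalgebra A (KK I A)} {x : KK I A}
    (hx : x ∈ Om P) : ∃ η : P ⊗[A] P, dk P η = x := by
  have h : Om P ≤ LinearMap.range (dk P) := by
    refine Submodule.span_le.2 ?_
    rintro _ ⟨p, hp, f, hf, rfl⟩
    exact ⟨(⟨p, hp⟩ : P) ⊗ₜ (⟨f, hf⟩ : P), rfl⟩
  exact h hx

theorem qk_twR {I A : Type} [Fintype I] [CommRing A] {P : Subalgebra A (KK I A)} (ω : EE P)
    (η : DR P) : qk P (twR P ω η : QD P) = (ω : KK I A) * dk P (η : P ⊗[A] P) :=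
  qk_tw P ω η

end HV9

theorem t_HV9 (hPOL : Stmt_POL) (hCSM : Stmt_CSM) : Stmt_HV9 := by
  intro A I _ _ _ _ g E P hG hS h0 L n ω ω' hω hL
  obtain ⟨hP1, hP2, hP3, hP4⟩ := hPOL E P hG
  choose η hη using fun i => HV9.exists_dk (hω i)
  have hηR : ∀ i, η i ∈ DR P := fun i => by
    change dk P (η i) ∈ Pol I A 0
    rw [hη i]
    exact (ω i).2.2
  set η' : Fin n → DR P := fun i => ⟨η i, hηR i⟩ with hη'
  set q : QR P := ∑ i, twR P (ω' i) (η' i) with hq
  have hqk : qk P (q : QD P) = ∑ i, (ω i : KK I A) * (ω' i : KK I A) := by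
    rw [hq, AddSubmonoidClass.coe_finsetSum, map_sum]
    refine Finset.sum_congr rfl fun i _ => ?_
    rw [HV9.qk_twR, hη']
    change (ω' i : KK I A) * dk P (η i) = _
    rw [hη i, mul_comm]
  have hLq : L = cov P q := by
    refine Subtype.ext (LinearMap.ext fun D => ?_)
    obtain ⟨θ, rfl⟩ := (hCSM hG.1 hS).1 D
    rw [cov_apply, Lq_tder, hL θ, hqk, Finset.mul_sum, map_sum]
  rw [hLq]
  refine hP4 q fun m hm => ?_
  obtain ⟨M, hM⟩ := hP2 m
  rw [← hM, hq]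
  rw [show (fun _ : Fin m => ∑ i, twR P (ω' i) (η' i)) =
    fun j : Fin m => ∑ i ∈ (Finset.univ : Finset (Fin n)), (fun (_ : Fin m) (i : Fin n) =>
      twR P (ω' i) (η' i)) j i from rfl]
  rw [MultilinearMap.map_sum_finset]
  refine Finset.sum_eq_zero fun f _ => ?_
  rw [hM]
  refine h0 m (fun j => (ω (f j) : KK I A)) (fun j => (ω' (f j) : KK I A)) _ hm
    (fun j => (ω (f j)).2) ⟨fun j => (ω' (f j)).2, fun j => η' (f j), fun j => ?_, rfl⟩
  rw [one_smul]
  exact hη (f j)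

end Pool.Agent.MG.G0


end

section

/-!
# MPG: plumbed curves are good; the hypotheses of the polarised values (PAPER_M.md)
-/

open TensorProduct

namespace Pool.Agent.MG.G0

namespace MPG

section

variable {I A B : Type} [CommRing A] [CommRing B]

/-- The base change of a smooth Krichever ring. -/
theorem skr_bc (hKBC : Stmt_KBC) (hKBT : Stmt_KBT) (hSDB : Stmt_SDB) [Fintype I] [Nonempty I]
    {h : ℕ} {R : Subalgebra A (KK I A)} (hR : SKr h R) (φ : A →+* B) : SKr h (bc φ R) := by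
  refine ⟨(hKBC.2.2.2 hR.kr φ).1, ?_, (hSDB hR.kr hR.smc φ).1, (hSDB hR.kr hR.smc φ).2.1 hR.dual⟩
  let _ : Algebra A B := φ.toAlgebra
  obtain ⟨e, -⟩ := (hKBT (B := B) hR.kr).2
  have := hR.fs
  exact Algebra.FormallySmooth.of_equiv (A := B ⊗[A] R) (B := bc (algebraMap A B) R) e

/-- The value at a formal point as a homomorphism. -/
noncomputable def evh {R : Subalgebra A (KK I A)} (p : FPt R) : R →ₐ[A] A where
  toRingHom := (PowerSeries.constantCoeff (R := A)).comp (p.h : R →+* PowerSeries A)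
  commutes' a := by
    change PowerSeries.constantCoeff (p.h (algebraMap A R a)) = a
    rw [AlgHom.commutes]
    exact PowerSeries.constantCoeff_C a

theorem evh_apply {R : Subalgebra A (KK I A)} (p : FPt R) (f : R) : evh p f = p.ev f := rfl

/-- The values at disjoint formal points are different. -/
theorem evh_ne {κ : Type} [Field κ] {R : Subalgebra κ (KK I κ)} {pt : Bool → FPt R}
    (hpt : Disj pt) : evh (pt true) ≠ evh (pt false) := by
  intro h
  have h1 : (pt true).id = (pt false).id := by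
    ext f
    rw [FPt.mem_id, FPt.mem_id, ← evh_apply, ← evh_apply, h]
  have h2 := hpt true false (by decide)
  rw [h1, sup_idem] at h2
  have h3 : (1 : R) ∈ (pt false).id := by
    rw [h2]
    exact Submodule.mem_top
  rw [FPt.mem_id, ← evh_apply, map_one] at h3
  exact one_ne_zero h3

/-- `t D` is given by a vector field. -/
theorem t_smul (hPL6 : Stmt_PL6) [Fintype I] [Nonempty I] {h : ℕ} {R : Subalgebra A (KK I A)}
    (hR : IsKr h R) (hs : SmC A R) (pt : Bool → FPt R) (hpt : Disj pt) (t : A)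
    (ht : IsNilpotent t) (P : Subalgebra A (KK I A)) (hP : P = PT pt t) (D : DD P) :
    ∃ θ : KK I A, t • D = tder P θ := by
  subst hP
  choose D0 hD0 using fun f : PT pt t => mk_surj (PT pt t) (D f)
  have hder : RDer (PT pt t) D0 := by
    refine ⟨fun f g => ?_, fun a f => ?_, fun f g => ?_⟩
    · have h1 : mk (PT pt t) (D0 (f + g)) = mk (PT pt t) (D0 f + D0 g) := by
        rw [map_add, hD0, hD0, hD0, map_add]
      rw [mk_eq] at h1
      have h2 : D0 (f + g) - D0 f - D0 g = D0 (f + g) - (D0 f + D0 g) := by abel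
      rw [h2]
      exact h1
    · rw [← mk_eq, hD0, mk_smulA, hD0, Derivation.map_smul]
    · have h1 : mk (PT pt t) (D0 (f * g)) = mk (PT pt t) (f • D0 g + g • D0 f) := by
        rw [map_add, map_smul, map_smul, hD0, hD0, hD0, Derivation.leibniz]
      rw [mk_eq] at h1
      have h2 : D0 (f * g) - (f : KK I A) * D0 g - (g : KK I A) * D0 f =
          D0 (f * g) - (f • D0 g + g • D0 f) := by
        change _ = D0 (f * g) - ((f : KK I A) * D0 g + (g : KK I A) * D0 f)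
        abel
      rw [h2]
      exact h1
  obtain ⟨θ, hθ⟩ := hPL6 hR hs pt hpt t ht D0 hder
  refine ⟨θ, Derivation.ext fun f => ?_⟩
  have h1 := mk_eq.2 (hθ f)
  rw [mk_smulA, hD0] at h1
  rw [Derivation.smul_apply, tder_apply, h1]

end

end MPG

open _root_.Pool.Agent.MG.G0.MPG in
theorem t_MPG (hKBC : Stmt_KBC) (hKBT : Stmt_KBT) (hSCO : Stmt_SCO) (hSDB : Stmt_SDB)
    (hAWB : Stmt_AWB) (hAYE : Stmt_AYE) (hAWK : Stmt_AWK) (hPL1 : Stmt_PL1) (hPL2 : Stmt_PL2)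
    (hPL6 : Stmt_PL6) (hPL7 : Stmt_PL7) : Stmt_MPG := by
  intro I A _ _ _ h R hR pt hpt t ht
  have key : ∀ {B : Type} [CommRing B] (φ : A →+* B), ∃ pt' : Bool → FPt (bc φ R), Disj pt' ∧
      bc φ (PT pt t) = PT pt' (φ t) := by
    intro B _ φ
    obtain ⟨h1, h2⟩ := hAWB hR.kr φ
    choose pt' hpt' _ using fun b => h1 (pt b)
    exact ⟨pt', (h2 hR.smc pt pt' hpt' hpt).1,
      (hPL2.1 hR.kr hR.smc pt hpt t ht φ pt' hpt').symm⟩
  refine ⟨⟨hPL1 hR.kr hR.smc pt hpt t ht, ?_⟩, ?_, ?_, ?_⟩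
  · intro κ _ _ φ
    right
    obtain ⟨pt', h1, h2⟩ := key φ
    have h3 : φ t = 0 := (ht.map φ).eq_zero
    have h4 := skr_bc hKBC hKBT hSDB hR φ
    rw [h2, h3]
    refine ⟨h, bc φ R, evh (pt' true), evh (pt' false), rfl, h4.kr, ⟨h4.fs, h4.smc⟩,
      evh_ne h1, fun f => ?_⟩
    rw [hPL2.2.2 h4.kr h4.smc pt' h1 f]
    constructor
    · rintro ⟨r, rfl, hr⟩
      exact ⟨r.2, hr⟩
    · rintro ⟨hf, hr⟩
      exact ⟨⟨f, hf⟩, rfl, hr⟩
  · intro ω hω
    exact hPL7 hR.kr hR.smc hR.dual pt hpt t ht ω hω.1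
  · intro B _ φ D
    obtain ⟨pt', h1, h2⟩ := key φ
    have h4 := skr_bc hKBC hKBT hSDB hR φ
    exact t_smul hPL6 h4.kr h4.smc pt' h1 (φ t) (ht.map φ) _ h2 D
  · intro B _ φ
    exact skr_bc hKBC hKBT hSDB hR φ

end Pool.Agent.MG.G0


end

section

/-!
# PL3 (L3): approximation at the annulus
-/

namespace Pool.Agent.MG.G0

namespace PL3

variable {I J A : Type} [CommRing A]

theorem atJ_mul (w v : KK (I ⊕ J) A) : atJ (w * v) = atJ w * atJ v := rfl

theorem atJ_add (w v : KK (I ⊕ J) A) : atJ (w + v) = atJ w + atJ v := rfl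

theorem atJ_zero : atJ (0 : KK (I ⊕ J) A) = 0 := rfl

theorem atJ_one : atJ (1 : KK (I ⊕ J) A) = 1 := rfl

theorem atJ_dd (w : KK (I ⊕ J) A) : atJ (dd w) = dd (atJ w) := rfl

theorem atJ_sum {n : ℕ} (w : Fin n → KK (I ⊕ J) A) : atJ (∑ k, w k) = ∑ k, atJ (w k) := by
  funext j
  rw [atJ, Finset.sum_apply, Finset.sum_apply]
  rfl

/-- The power series of a formal point, in nonnegative and negative degrees. -/
theorem psl_coeff (f : PowerSeries A) (n : ℕ) : (psl A f).coeff n = PowerSeries.coeff n f :=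
  HahnSeries.ofPowerSeries_apply_coeff f n

theorem psl_neg (f : PowerSeries A) {m : ℤ} (h : m < 0) : (psl A f).coeff m = 0 := by
  refine HahnSeries.embDomain_of_notMem_range ?_
  rintro ⟨x, hx⟩
  have h1 : ((x : ℕ) : ℤ) = m := hx
  omega

/-- Vanishing to order `n` at the formal points. -/
theorem hat_mem_Pol {P : Subalgebra A (KK I A)} {pt : J → FPt P} {n : ℕ} {r : P}
    (h : ∀ j, ∀ m < n, PowerSeries.coeff m ((pt j).h r) = 0) :
    atJ (hat pt r) ∈ Pol J A (-(n : ℤ)) := by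
  intro j m hm
  change (psl A ((pt j).h r)).coeff m = 0
  rcases lt_or_ge m 0 with h0 | h0
  · exact psl_neg _ h0
  · obtain ⟨k, rfl⟩ := Int.eq_ofNat_of_zero_le h0
    rw [psl_coeff]
    exact h j k (by omega)

theorem coeff_of_hat_mem {P : Subalgebra A (KK I A)} {pt : J → FPt P} {n : ℕ} {r : P}
    (h : atJ (hat pt r) ∈ Pol J A (-(n : ℤ))) (j : J) (m : ℕ) (hm : m < n) :
    PowerSeries.coeff m ((pt j).h r) = 0 := by
  rw [← psl_coeff]
  exact h j m (by omega)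

end PL3

theorem t_PL3 (hAID : Stmt_AID) (hAYE : Stmt_AYE) (hAWK : Stmt_AWK) (hSTO : Stmt_STO)
    (hSCO : Stmt_SCO) : Stmt_PL3 := by
  intro I A _ _ _ h R hR hS pt hd
  obtain ⟨hW, hWS, -, -, hreg, happ, hloc⟩ := hAWK hR hS pt hd
  obtain ⟨-, hpow, -, -⟩ := hAYE hR hS pt hd
  have hvan : ∀ (n : ℕ) (r : R), r ∈ Ipt pt ^ n ↔
      ∀ j, ∀ m < n, PowerSeries.coeff m ((pt j).h r) = 0 := by
    intro n r
    rw [hpow n r]
    refine forall_congr' fun j => ?_
    exact (hAID hR hS (pt j)).2.2.1 n r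
  have h1 : ∀ (F : KK Bool A) (m : ℤ), ∃ w ∈ WJ pt, atJ w - F ∈ Pol Bool A (-m) := by
    intro F m
    obtain ⟨w, hw, hwF⟩ := happ F m
    refine ⟨w, hw, fun j k hk => ?_⟩
    rw [Pi.sub_apply, HahnSeries.coeff_sub, ← hwF j k (by omega)]
    exact sub_self _
  refine ⟨h1, ?_, ?_, ?_⟩
  · intro w hw m
    obtain ⟨K, hK⟩ := exists_Pol (atJ w)
    obtain ⟨n, s, a, hs, ha, hsum⟩ := hloc (m.toNat + K)
    have h2 : ∀ k, atJ (hat pt (s k)) ∈ Pol Bool A (-((m.toNat + K : ℕ) : ℤ)) := fun k =>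
      PL3.hat_mem_Pol ((hvan _ _).1 (hs k))
    refine ⟨n, fun k => hat pt (s k), a, fun k => hat_mem pt (s k), ha, fun k => ?_, fun k => ?_,
      hsum⟩
    · refine Pol_mono ?_ (h2 k)
      push_cast
      omega
    · have h3 := mul_mem_Pol (h2 k) hK
      rw [← PL3.atJ_mul] at h3
      refine Pol_mono ?_ h3
      push_cast
      omega
  · intro w hw a b hab
    obtain ⟨r, rfl⟩ := hreg w hw (fun j m hm => hab j m (by omega))
    have hr : r ∈ Ipt pt ^ a * Ipt pt ^ b := by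
      rw [← pow_add, hvan]
      exact fun j m hm => PL3.coeff_of_hat_mem hab j m hm
    refine Submodule.mul_induction_on hr ?_ ?_
    · intro x hx y hy
      refine Submodule.subset_span ⟨hat pt x, hat_mem pt x, hat pt y, hat_mem pt y, ?_, ?_, ?_⟩
      · exact PL3.hat_mem_Pol ((hvan _ _).1 hx)
      · exact PL3.hat_mem_Pol ((hvan _ _).1 hy)
      · rw [map_mul]
    · intro x y hx hy
      rw [map_add]
      exact add_mem hx hy
  · intro ξ m
    obtain ⟨-, -, hTT, -, hST⟩ := hSTO hW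
    obtain ⟨-, ⟨n, θ, g', hθ, hg', hsum⟩, -⟩ := hST hWS
    choose K hK using fun i => exists_Pol (atJ (θ i))
    set K₀ : ℕ := Finset.univ.sup K with hK₀
    have hKle : ∀ i, K i ≤ K₀ := fun i => Finset.le_sup (f := K) (Finset.mem_univ i)
    choose w hw hwc using fun i => h1 (ξ * dd (atJ (g' i))) (m + K₀)
    refine ⟨∑ i, w i * θ i, sum_mem fun i _ => hTT _ (hw i) _ (hθ i), ?_⟩
    have e1 : ξ = ∑ i, (ξ * dd (atJ (g' i))) * atJ (θ i) := by
      have e2 : (1 : KK Bool A) = ∑ i, atJ (θ i) * dd (atJ (g' i)) := by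
        rw [← PL3.atJ_one (I := I), ← hsum, PL3.atJ_sum]
        rfl
      calc ξ = ξ * 1 := (mul_one ξ).symm
        _ = ∑ i, (ξ * dd (atJ (g' i))) * atJ (θ i) := by
          rw [e2, Finset.mul_sum]
          refine Finset.sum_congr rfl fun i _ => ?_
          ring
    have e3 : atJ (∑ i, w i * θ i) - ξ =
        ∑ i, (atJ (w i) - ξ * dd (atJ (g' i))) * atJ (θ i) := by
      rw [PL3.atJ_sum]
      conv_lhs => rw [e1]
      rw [← Finset.sum_sub_distrib]
      refine Finset.sum_congr rfl fun i _ => ?_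
      rw [PL3.atJ_mul, sub_mul]
    rw [e3]
    refine sum_mem fun i _ => ?_
    have h4 := mul_mem_Pol (hwc i) (hK i)
    refine Pol_mono ?_ h4
    have := hKle i
    omega

end Pool.Agent.MG.G0


end

section

/-!
# Elements of `Perp P` with coefficients in an ideal
-/

namespace Pool.Agent.MG.G0

theorem t_PNI (hPPR : Stmt_PPR) : Stmt_PNI := by
  intro I A _ _ _ g P hP J hJ x hx hxJ
  obtain ⟨n, hn⟩ := exists_Pol x
  obtain ⟨s, j, hj⟩ := Submodule.fg_iff_exists_fin_generating_family.1 hJ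
  have hc : ∀ i m, ∃ c : Fin s → A, ∑ k, c k * j k = (x i).coeff m := by
    intro i m
    have h1 : (x i).coeff m ∈ Ideal.span (Set.range j) := by
      have h2 : Ideal.span (Set.range j) = J := hj
      rw [h2]
      exact hxJ i m
    exact Ideal.mem_span_range_iff_exists_fun.1 h1
  choose c hc using hc
  have hb : ∀ k i, BddBelow (Function.support fun m : ℤ => if m < -(n : ℤ) then 0 else c i m k) := by
    intro k i
    refine ⟨-(n : ℤ), fun m hm => ?_⟩
    by_contra h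
    exact hm (if_pos (not_le.1 h))
  obtain ⟨y, hy⟩ : ∃ y : Fin s → KK I A, ∀ k i m,
      (y k i).coeff m = if m < -(n : ℤ) then 0 else c i m k :=
    ⟨fun k i => HahnSeries.ofSuppBddBelow _ (hb k i), fun k i m => rfl⟩
  have hxy : x = ∑ k, j k • y k := by
    funext i
    ext m
    rw [Finset.sum_apply, HahnSeries.coeff_sum]
    have h1 : ∀ k, ((j k • y k) i).coeff m = j k * (if m < -(n : ℤ) then 0 else c i m k) := by
      intro k
      rw [Pi.smul_apply, HahnSeries.coeff_smul, hy, smul_eq_mul]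
    simp only [h1]
    by_cases hm : m < -(n : ℤ)
    · simp only [if_pos hm, mul_zero, Finset.sum_const_zero]
      exact hn i m hm
    · simp only [if_neg hm]
      rw [← hc i m]
      exact Finset.sum_congr rfl fun k _ => mul_comm _ _
  obtain ⟨q, hq1, hq2, -, -⟩ := hPPR hP (Classical.arbitrary I)
  have hx2 : x = ∑ k, j k • q (y k) := by
    have h1 : q x = ∑ k, j k • q (y k) := by
      conv_lhs => rw [hxy]
      rw [map_sum]
      exact Finset.sum_congr rfl fun k _ => map_smul _ _ _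
    rw [← h1, hq2 x hx]
  rw [hx2]
  refine Submodule.sum_mem _ fun k _ => Submodule.smul_mem_smul ?_ (hq1 _)
  have h2 : Ideal.span (Set.range j) = J := hj
  rw [← h2]
  exact Ideal.subset_span ⟨k, rfl⟩

end Pool.Agent.MG.G0


end

section

/-!
# TCH: vector fields of `Rem W` as vector fields of `W` (PAPER_TG.md, TCH)
-/

namespace Pool.Agent.MG.G0

namespace TCH

theorem low_of_mul {A : Type} [CommRing A] {t U : LaurentSeries A} (hU : ∀ m < 0, U.coeff m = 0)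
    (hU0 : U.coeff 0 = 1) (h : ∀ m < 0, (t * U).coeff m = 0) : ∀ m < 0, t.coeff m = 0 := by
  obtain ⟨N, hN⟩ := exists_low t
  have key : ∀ k : ℕ, k ≤ N → ∀ m < -(N : ℤ) + k, t.coeff m = 0 := by
    intro k
    induction k with
    | zero =>
      intro _ m hm
      exact hN m (by push_cast at hm; omega)
    | succ k ih =>
      intro hk m hm
      rcases lt_or_ge m (-(N : ℤ) + k) with h1 | h1
      · exact ih (by omega) m h1
      · have hm' : m = -(N : ℤ) + k := by push_cast at hm; omega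
        have h2 := mul_lead (ih (by omega)) hU
        rw [hU0, mul_one, h _ (by omega)] at h2
        rw [hm', ← h2]
  intro m hm
  exact key N le_rfl m (by omega)

end TCH

theorem t_TCH (hTEP : Stmt_TEP) (hLOC : Stmt_LOC) (hSTO : Stmt_STO) : Stmt_TCH := by
  intro I A _ _ _ h W R hW hS hD hR ι hι1 hι2 D
  obtain ⟨ι', -, h1, h2, h3, h4⟩ := hTEP hW hD hR
  -- the given homomorphism is the one of TEP
  have hιe : ∀ f, ι f = ι' f := by
    intro f
    obtain ⟨f', hf'⟩ := h3 (ι f) (hι2 f)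
    have e : f' = f := by
      refine Subtype.ext (funext fun i => ?_)
      rw [← h1 f' i, hf', hι1 f i]
    rw [← hf', e]
  letI alg : Algebra R W := ι.toRingHom.toAlgebra
  have hmap : ∀ f : R, algebraMap R W f = ι f := fun f => rfl
  haveI : IsScalarTower A R W := IsScalarTower.of_algebraMap_eq fun a => (ι.commutes a).symm
  have hinj : Function.Injective (algebraMap R W) := by
    intro f g hfg
    rw [hmap, hmap] at hfg
    refine Subtype.ext (funext fun i => ?_)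
    rw [← hι1 f i, hfg, hι1 g i]
  have hEp : Ep R W := by
    refine ⟨hinj, fun w => ?_⟩
    obtain ⟨M, hM⟩ := exists_low ((w : KK (I ⊕ Unit) A) (Sum.inr ()))
    obtain ⟨n, s, a, hs1, hs2⟩ := h4 M
    refine ⟨n, s, a, ?_, fun k => ?_⟩
    · rw [← hs1]
      exact Finset.sum_congr rfl fun k _ => by rw [hmap, hιe]
    · obtain ⟨r, hr⟩ := h3 (ι' (s k) * w) (by
        intro m hm
        exact mul_low (hs2 k) hM m (by omega))
      refine ⟨r, ?_⟩
      rw [hmap, hmap, hιe, hιe, hr]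
  obtain ⟨E, hE, -⟩ := hLOC hEp W ((Algebra.linearMap R W).compDer D)
  obtain ⟨θ, hθ, hθ2⟩ := ((hSTO hW).2.2.2.2 hS).1 E
  have hmain : ∀ f : R, θ * dd (ι f : KK (I ⊕ Unit) A) = (ι (D f) : KK (I ⊕ Unit) A) := by
    intro f
    have e1 : E (ι f) = ι (D f) := hE f
    rw [← hθ2 (ι f), e1]
  refine ⟨θ, hθ, ?_, hmain⟩
  -- regularity
  obtain ⟨w, hw, hw2⟩ := hD (fun _ => HahnSeries.single 1 1) 3
  have hw3 : ∀ m < 3, (w (Sum.inr ())).coeff m = (HahnSeries.single (1 : ℤ) (1 : A)).coeff m :=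
    fun m hm => hw2 () m hm
  have hreg : ∀ m < 0, (w (Sum.inr ())).coeff m = 0 := by
    intro m hm
    rw [hw3 m (by omega), HahnSeries.coeff_single_of_ne (by omega)]
  obtain ⟨x, hx⟩ := h3 ⟨w, hw⟩ hreg
  have hx' : (ι x : KK (I ⊕ Unit) A) = w := by rw [hιe, hx]
  have hm := congrFun (hmain x) (Sum.inr ())
  rw [hx', Pi.mul_apply] at hm
  refine TCH.low_of_mul (U := dd w (Sum.inr ())) ?_ ?_ ?_
  · intro m hm
    change (ld (w (Sum.inr ()))).coeff m = 0
    rw [ld_coeff]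
    rcases lt_or_ge (m + 1) 0 with h5 | h5
    · rw [hreg _ h5, mul_zero]
    · have : m + 1 = 0 := by omega
      rw [this, Int.cast_zero, zero_mul]
  · change (ld (w (Sum.inr ()))).coeff 0 = 1
    rw [ld_coeff, hw3 (0 + 1) (by norm_num), zero_add, HahnSeries.coeff_single_same]
    simp
  · intro m hm0
    rw [hm]
    exact hι2 (D x) m hm0

end Pool.Agent.MG.G0


end

section

/-!
# TCQ: a derivation and a function whose derivative does not vanish at given points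
-/

namespace Pool.Agent.MG.G0

namespace TCQ

theorem sum_apply {A R ι : Type} [CommRing A] [CommRing R] [Algebra A R] (s : Finset ι)
    (F : ι → Derivation A R R) (x : R) : (∑ i ∈ s, F i) x = ∑ i ∈ s, F i x := by
  classical
  induction s using Finset.induction_on with
  | empty => rw [Finset.sum_empty, Finset.sum_empty, Derivation.zero_apply]
  | insert i s hi ih => rw [Finset.sum_insert hi, Finset.sum_insert hi, Derivation.add_apply, ih]

/-- General position: finitely many affine forms which are not constant. -/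
theorem avoid {κ : Type} [Field κ] [Infinite κ] {m n : ℕ} (b : Fin n → κ) (c : Fin n → Fin m → κ)
    (h : ∀ l, ∃ k, c l k ≠ 0) : ∃ μ : Fin m → κ, ∀ l, b l + ∑ k, μ k * c l k ≠ 0 := by
  classical
  let p : Fin n → MvPolynomial (Fin m) κ := fun l =>
    MvPolynomial.C (b l) + ∑ k, MvPolynomial.C (c l k) * MvPolynomial.X k
  have hp : ∀ l x, MvPolynomial.eval x (p l) = b l + ∑ k, x k * c l k := by
    intro l x
    simp only [p, map_add, map_sum, map_mul, MvPolynomial.eval_C, MvPolynomial.eval_X]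
    congr 1
    exact Finset.sum_congr rfl fun k _ => mul_comm _ _
  have hne : ∀ l, p l ≠ 0 := by
    intro l h0
    obtain ⟨k, hk⟩ := h l
    have h1 := hp l 0
    rw [h0, map_zero] at h1
    simp only [Pi.zero_apply, zero_mul, Finset.sum_const_zero, add_zero] at h1
    have h2 := hp l (Pi.single k 1)
    rw [h0, map_zero, ← h1, zero_add, Finset.sum_eq_single k] at h2
    · rw [Pi.single_eq_same, one_mul] at h2
      exact hk h2.symm
    · intro j _ hj
      rw [Pi.single_eq_of_ne hj, zero_mul]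
    · intro hk'
      exact absurd (Finset.mem_univ k) hk'
  have hprod : ∏ l, p l ≠ 0 := Finset.prod_ne_zero_iff.2 fun l _ => hne l
  by_contra hcon
  push Not at hcon
  apply hprod
  apply MvPolynomial.funext
  intro x
  obtain ⟨l, hl⟩ := hcon x
  rw [map_prod, map_zero]
  refine Finset.prod_eq_zero (Finset.mem_univ l) ?_
  rw [hp, hl]

end TCQ

open _root_.Pool.Agent.MG.G0.TCQ in
/-- TCQ. -/
theorem t_TCQ : Stmt_TCQ := by
  intro κ A R _ _ _ _ _ _ r hsm
  obtain ⟨m, D, g, h1, -⟩ := hsm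
  refine ⟨m, g, fun n e he z => ?_⟩
  have hs : ∀ l (c : κ) (x : R), e l (algebraMap κ A c • x) = c * e l x := by
    intro l c x
    rw [Algebra.smul_def, map_mul, he]
    congr 1
    exact r.commutes c
  have hk : ∀ l, ∃ k, e l (D k (g k)) ≠ 0 := by
    intro l
    by_contra hcon
    push Not at hcon
    have h2 := congrArg (e l) h1
    rw [map_sum, map_one, Finset.sum_eq_zero fun k _ => hcon k] at h2
    exact zero_ne_one h2
  choose k hk using hk
  obtain ⟨lam, hlam⟩ := avoid (fun _ => 0) (fun l i => e l (D i (g (k l)))) fun l => ⟨k l, hk l⟩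
  let D' : Derivation A R R := ∑ i, algebraMap κ A (lam i) • D i
  have hD' : ∀ l x, e l (D' x) = ∑ i, lam i * e l (D i x) := by
    intro l x
    have h2 : D' x = ∑ i, algebraMap κ A (lam i) • D i x :=
      sum_apply Finset.univ (fun i => algebraMap κ A (lam i) • D i) x
    rw [h2, map_sum]
    exact Finset.sum_congr rfl fun i _ => hs l _ _
  obtain ⟨μ, hμ⟩ := avoid (fun l => e l (D' z)) (fun l j => e l (D' (g j))) fun l => ⟨k l, by
    rw [hD']
    have h2 := hlam l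
    rwa [zero_add] at h2⟩
  refine ⟨D', μ, fun l => ?_⟩
  rw [map_add, map_sum, map_add, map_sum]
  have h2 : ∀ j, e l (D' (algebraMap κ A (μ j) • g j)) = μ j * e l (D' (g j)) := by
    intro j
    rw [Derivation.map_smul, hs]
  rw [Finset.sum_congr rfl fun j _ => h2 j]
  exact hμ l

end Pool.Agent.MG.G0


end

section

/-!
# TFP: formal points in a chart
-/

open TensorProduct

namespace Pool.Agent.MG.G0

namespace TFP

variable {B S A : Type} [CommRing B] [CommRing S] [CommRing A] [Algebra B S] [Algebra B A]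
  {x : S} {Δ : Derivation B S S}

/-- A derivation over `p` is determined by its value at the coordinate. -/
theorem con (hc : IsChart B S x Δ) (p : S →ₐ[B] A) (E : S →ₗ[B] A)
    (hE : ∀ f g, E (f * g) = p f * E g + p g * E f) (f : S) : E f = p (Δ f) * E x := by
  let _ : Algebra S A := p.toRingHom.toAlgebra
  have _ : IsScalarTower B S A := IsScalarTower.of_algebraMap_eq fun b => (p.commutes b).symm
  let D : Derivation B S A := Derivation.mk' E fun a b => hE a b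
  have h1 : ∀ f : S, D f = D.liftKaehlerDifferential (KaehlerDifferential.D B S f) := fun f =>
    (D.liftKaehlerDifferential_comp_D f).symm
  have h2 : D f = Δ f • D x := by
    rw [h1 f, h1 x, hc.gen f, map_smul]
  exact h2

/-- The coefficient of `u^n` as a linear map. -/
noncomputable def cf (h : S →ₐ[B] PowerSeries A) (n : ℕ) : S →ₗ[B] A where
  toFun f := PowerSeries.coeff n (h f)
  map_add' f g := by rw [map_add, map_add]
  map_smul' b f := by
    rw [Algebra.smul_def, map_mul, AlgHom.commutes, PowerSeries.algebraMap_apply,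
      PowerSeries.coeff_C_mul, RingHom.id_apply, Algebra.smul_def]

theorem cf_apply (h : S →ₐ[B] PowerSeries A) (n : ℕ) (f : S) :
    cf h n f = PowerSeries.coeff n (h f) := rfl

/-- The constant part. -/
noncomputable def cp (h : S →ₐ[B] PowerSeries A) : S →ₐ[B] A where
  toFun f := PowerSeries.constantCoeff (h f)
  map_one' := by rw [map_one, map_one]
  map_mul' f g := by rw [map_mul, map_mul]
  map_zero' := by rw [map_zero, map_zero]
  map_add' f g := by rw [map_add, map_add]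
  commutes' b := by
    rw [AlgHom.commutes, PowerSeries.algebraMap_apply, PowerSeries.constantCoeff_C]

theorem coeff_mul_low {u v : PowerSeries A} {n : ℕ} (hu : ∀ m < n, PowerSeries.coeff m u = 0) :
    PowerSeries.coeff n (u * v) = PowerSeries.coeff n u * PowerSeries.constantCoeff v := by
  rw [PowerSeries.coeff_mul, Finset.sum_eq_single (n, 0)]
  · rw [PowerSeries.coeff_zero_eq_constantCoeff_apply]
  · rintro ⟨i, j⟩ hij hne
    have h1 : i + j = n := Finset.HasAntidiagonal.mem_antidiagonal.1 hij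
    have h2 : i < n := by
      rcases Nat.lt_or_ge i n with h | h
      · exact h
      · exfalso
        apply hne
        rw [Prod.mk.injEq]
        omega
    change PowerSeries.coeff i u * _ = 0
    rw [hu i h2, zero_mul]
  · intro h
    exact absurd (Finset.HasAntidiagonal.mem_antidiagonal.2 (add_zero n)) h

/-- Uniqueness. -/
theorem uniq (hc : IsChart B S x Δ) (h h' : S →ₐ[B] PowerSeries A)
    (h0 : ∀ f, PowerSeries.constantCoeff (h f) = PowerSeries.constantCoeff (h' f))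
    (hx : h x = h' x) : h = h' := by
  have key : ∀ n : ℕ, ∀ f : S, PowerSeries.coeff n (h f) = PowerSeries.coeff n (h' f) := by
    intro n
    induction n using Nat.strong_induction_on with
    | _ n ih =>
      intro f
      have hlow : ∀ f : S, ∀ m < n, PowerSeries.coeff m (h f - h' f) = 0 := by
        intro f m hm
        rw [map_sub, ih m hm f, sub_self]
      have e := con hc (cp h') (cf h n - cf h' n) (by
        intro f g
        rw [LinearMap.sub_apply, LinearMap.sub_apply, LinearMap.sub_apply, cf_apply, cf_apply,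
          cf_apply, cf_apply, cf_apply, cf_apply, ← map_sub, ← map_sub, ← map_sub, map_mul,
          map_mul]
        have e1 : h f * h g - h' f * h' g = (h f - h' f) * h g + (h g - h' g) * h' f := by ring
        rw [e1, map_add, coeff_mul_low (hlow f), coeff_mul_low (hlow g), h0 g]
        change _ = PowerSeries.constantCoeff (h' f) * _ + PowerSeries.constantCoeff (h' g) * _
        ring) f
      rw [LinearMap.sub_apply, LinearMap.sub_apply, cf_apply, cf_apply, cf_apply, cf_apply, hx,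
        sub_self, mul_zero] at e
      exact sub_eq_zero.1 e
  apply AlgHom.ext
  intro f
  apply PowerSeries.ext
  intro n
  exact key n f

/-- The linear coefficient. -/
theorem lin (hc : IsChart B S x Δ) (h : S →ₐ[B] PowerSeries A) (f : S) :
    PowerSeries.coeff 1 (h f) =
      PowerSeries.constantCoeff (h (Δ f)) * PowerSeries.coeff 1 (h x) := by
  refine con hc (cp h) (cf h 1) ?_ f
  intro f g
  rw [cf_apply, map_mul, PowerSeries.coeff_one_mul]
  change _ = PowerSeries.constantCoeff (h f) * PowerSeries.coeff 1 (h g) +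
    PowerSeries.constantCoeff (h g) * PowerSeries.coeff 1 (h f)
  ring

/-- The Taylor series. -/
noncomputable def tay (Δ : Derivation B S S) (p : S →ₐ[B] A) (f : S) : PowerSeries A :=
  PowerSeries.mk fun k => Ring.inverse ((k.factorial : ℕ) : A) * p ((⇑Δ)^[k] f)

theorem coeff_tay (Δ : Derivation B S S) (p : S →ₐ[B] A) (f : S) (k : ℕ) :
    PowerSeries.coeff k (tay Δ p f) =
      Ring.inverse ((k.factorial : ℕ) : A) * p ((⇑Δ)^[k] f) :=
  PowerSeries.coeff_mk _ _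

theorem isu (hn : ∀ n : ℕ, n ≠ 0 → IsUnit (n : B)) (n : ℕ) (h : n ≠ 0) : IsUnit (n : A) := by
  have h1 := (hn n h).map (algebraMap B A)
  rwa [map_natCast] at h1

theorem iter_add (Δ : Derivation B S S) (k : ℕ) (f g : S) :
    (⇑Δ)^[k] (f + g) = (⇑Δ)^[k] f + (⇑Δ)^[k] g := by
  induction k generalizing f g with
  | zero => rfl
  | succ k ih => rw [Function.iterate_succ_apply, Function.iterate_succ_apply,
      Function.iterate_succ_apply, map_add, ih]

theorem iter_zero (Δ : Derivation B S S) (k : ℕ) : (⇑Δ)^[k] (0 : S) = 0 := by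
  induction k with
  | zero => rfl
  | succ k ih => rw [Function.iterate_succ_apply, map_zero, ih]

theorem tay_add (Δ : Derivation B S S) (p : S →ₐ[B] A) (f g : S) :
    tay Δ p (f + g) = tay Δ p f + tay Δ p g := by
  apply PowerSeries.ext
  intro k
  rw [map_add, coeff_tay, coeff_tay, coeff_tay, iter_add, map_add, mul_add]

theorem tay_der (hn : ∀ n : ℕ, n ≠ 0 → IsUnit (n : B)) (Δ : Derivation B S S) (p : S →ₐ[B] A)
    (f : S) : PowerSeries.derivative A (tay Δ p f) = tay Δ p (Δ f) := by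
  apply PowerSeries.ext
  intro k
  rw [PowerSeries.coeff_derivative, coeff_tay, coeff_tay, Function.iterate_succ_apply]
  have u1 : IsUnit ((k.factorial : ℕ) : A) := isu hn _ (Nat.factorial_ne_zero k)
  have u2 : IsUnit (((k + 1).factorial : ℕ) : A) := isu hn _ (Nat.factorial_ne_zero (k + 1))
  have e : Ring.inverse (((k + 1).factorial : ℕ) : A) * ((k : A) + 1) =
      Ring.inverse ((k.factorial : ℕ) : A) := by
    have e1 : (((k + 1).factorial : ℕ) : A) = ((k : A) + 1) * ((k.factorial : ℕ) : A) := by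
      rw [Nat.factorial_succ, Nat.cast_mul, Nat.cast_succ]
    apply u1.mul_right_cancel
    rw [Ring.inverse_mul_cancel _ u1, mul_assoc, ← e1, Ring.inverse_mul_cancel _ u2]
  rw [← e]
  ring

theorem tay_mul (hn : ∀ n : ℕ, n ≠ 0 → IsUnit (n : B)) (Δ : Derivation B S S) (p : S →ₐ[B] A)
    (f g : S) : tay Δ p (f * g) = tay Δ p f * tay Δ p g := by
  have key : ∀ n : ℕ, ∀ f g : S, PowerSeries.coeff n (tay Δ p (f * g)) =
      PowerSeries.coeff n (tay Δ p f * tay Δ p g) := by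
    intro n
    induction n with
    | zero =>
      intro f g
      rw [PowerSeries.coeff_zero_eq_constantCoeff_apply, PowerSeries.coeff_zero_eq_constantCoeff_apply,
        map_mul, ← PowerSeries.coeff_zero_eq_constantCoeff_apply,
        ← PowerSeries.coeff_zero_eq_constantCoeff_apply,
        ← PowerSeries.coeff_zero_eq_constantCoeff_apply, coeff_tay, coeff_tay, coeff_tay]
      simp
    | succ n ih =>
      intro f g
      have u1 : IsUnit (((n + 1 : ℕ)) : A) := isu hn _ (Nat.succ_ne_zero n)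
      apply u1.mul_right_cancel
      rw [Nat.cast_succ, ← PowerSeries.coeff_derivative, ← PowerSeries.coeff_derivative,
        tay_der hn, Derivation.leibniz, smul_eq_mul, smul_eq_mul, tay_add, map_add, ih, ih,
        Derivation.leibniz, smul_eq_mul, smul_eq_mul, map_add, tay_der hn, tay_der hn]
  apply PowerSeries.ext
  intro n
  exact key n f g

theorem tay_alg (Δ : Derivation B S S) (p : S →ₐ[B] A) (b : B) :
    tay Δ p (algebraMap B S b) = algebraMap B (PowerSeries A) b := by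
  apply PowerSeries.ext
  intro k
  rw [coeff_tay, PowerSeries.algebraMap_apply, PowerSeries.coeff_C]
  cases k with
  | zero => simp
  | succ k =>
    rw [Function.iterate_succ_apply, Derivation.map_algebraMap, iter_zero, map_zero, mul_zero,
      if_neg (Nat.succ_ne_zero k)]

/-- The Taylor series as a homomorphism. -/
noncomputable def tayH (hn : ∀ n : ℕ, n ≠ 0 → IsUnit (n : B)) (Δ : Derivation B S S)
    (p : S →ₐ[B] A) : S →ₐ[B] PowerSeries A where
  toFun := tay Δ p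
  map_one' := by
    have h := tay_alg Δ p (1 : B)
    rwa [map_one, map_one] at h
  map_mul' := tay_mul hn Δ p
  map_zero' := by
    have h := tay_alg Δ p (0 : B)
    rwa [map_zero, map_zero] at h
  map_add' := tay_add Δ p
  commutes' := tay_alg Δ p

theorem coeff_pow_low {s : PowerSeries A} (hs : PowerSeries.constantCoeff s = 0) {n k : ℕ}
    (h : n < k) : PowerSeries.coeff n (s ^ k) = 0 := by
  have h1 : (PowerSeries.X : PowerSeries A) ∣ s := PowerSeries.X_dvd_iff.2 hs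
  exact PowerSeries.X_pow_dvd_iff.1 (pow_dvd_pow_of_dvd h1 k) n h

/-- Substitution in the Taylor series. -/
noncomputable def sub (hn : ∀ n : ℕ, n ≠ 0 → IsUnit (n : B)) (Δ : Derivation B S S)
    (p : S →ₐ[B] A) {s : PowerSeries A} (hs : PowerSeries.constantCoeff s = 0) :
    S →ₐ[B] PowerSeries A :=
  ((PowerSeries.substAlgHom (R := A)
    (PowerSeries.HasSubst.of_constantCoeff_zero' hs)).restrictScalars B).comp (tayH hn Δ p)

theorem coeff_sub (hn : ∀ n : ℕ, n ≠ 0 → IsUnit (n : B)) (Δ : Derivation B S S)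
    (p : S →ₐ[B] A) {s : PowerSeries A} (hs : PowerSeries.constantCoeff s = 0) (f : S) (n : ℕ) :
    PowerSeries.coeff n (sub hn Δ p hs f) = ∑ k ∈ Finset.range (n + 1),
      Ring.inverse ((k.factorial : ℕ) : A) * p ((⇑Δ)^[k] f) * PowerSeries.coeff n (s ^ k) := by
  have h1 : sub hn Δ p hs f = PowerSeries.subst s (tay Δ p f) :=
    congrFun (PowerSeries.coe_substAlgHom (R := A)
      (PowerSeries.HasSubst.of_constantCoeff_zero' hs)) (tay Δ p f)
  rw [h1, PowerSeries.coeff_subst' (PowerSeries.HasSubst.of_constantCoeff_zero' hs),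
    finsum_eq_sum_of_support_subset (s := Finset.range (n + 1))]
  · refine Finset.sum_congr rfl fun k _ => ?_
    rw [coeff_tay, smul_eq_mul]
  · intro k hk
    rw [Finset.coe_range, Set.mem_Iio]
    by_contra hlt
    apply hk
    change _ • _ = _
    rw [coeff_pow_low hs (by omega), smul_zero]

theorem exi (hn : ∀ n : ℕ, n ≠ 0 → IsUnit (n : B)) (hc : IsChart B S x Δ) (p : S →ₐ[B] A)
    (s : PowerSeries A) (hs : PowerSeries.constantCoeff s = 0) :
    ∃ h : S →ₐ[B] PowerSeries A, (∀ f, PowerSeries.constantCoeff (h f) = p f) ∧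
      h x = PowerSeries.C (p x) + s ∧
      ∀ (f : S) (n : ℕ), PowerSeries.coeff n (h f) = ∑ k ∈ Finset.range (n + 1),
        Ring.inverse ((k.factorial : ℕ) : A) * p ((⇑Δ)^[k] f) * PowerSeries.coeff n (s ^ k) := by
  refine ⟨sub hn Δ p hs, ?_, ?_, coeff_sub hn Δ p hs⟩
  · intro f
    rw [← PowerSeries.coeff_zero_eq_constantCoeff_apply, coeff_sub]
    simp
  · apply PowerSeries.ext
    intro n
    have hz : ∀ k, 2 ≤ k → (⇑Δ)^[k] x = 0 := by
      intro k hk
      obtain ⟨m, rfl⟩ : ∃ m, k = m + 2 := ⟨k - 2, by omega⟩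
      rw [Function.iterate_add_apply]
      have e : (⇑Δ)^[2] x = 0 := by
        change Δ (Δ x) = 0
        rw [hc.one, Derivation.map_one_eq_zero]
      rw [e, iter_zero]
    rw [coeff_sub, map_add, PowerSeries.coeff_C]
    cases n with
    | zero =>
      rw [PowerSeries.coeff_zero_eq_constantCoeff_apply, hs]
      simp
    | succ n =>
      rw [Finset.sum_eq_single 1]
      · have e : (⇑Δ)^[1] x = 1 := hc.one
        rw [e, map_one, pow_one, if_neg (Nat.succ_ne_zero n)]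
        simp
      · intro k _ hk
        rcases Nat.lt_or_ge k 2 with h | h
        · have hk0 : k = 0 := by omega
          subst hk0
          rw [pow_zero, PowerSeries.coeff_one, if_neg (Nat.succ_ne_zero n), mul_zero]
        · rw [hz k h, map_zero, mul_zero, zero_mul]
      · intro h
        exfalso
        apply h
        rw [Finset.mem_range]
        omega

end TFP

/-- TFP: formal points in a chart. -/
theorem t_TFP : Stmt_TFP := by
  intro B S _ _ _ x Δ hn hc A _ _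
  exact ⟨fun h h' h0 hx => TFP.uniq hc h h' h0 hx, fun p s hs => TFP.exi hn hc p s hs,
    fun h f => TFP.lin hc h f⟩

end Pool.Agent.MG.G0


end

section

/-!
# TGR: a section which is regular outside a point and at the formal point is regular
-/

open TensorProduct

namespace Pool.Agent.MG.G0

namespace TGR

/-- Derivations of a chart. -/
theorem der_eq {B S M : Type} [CommRing B] [CommRing S] [Algebra B S] {x : S}
    {Δ : Derivation B S S} (h : IsChart B S x Δ) [AddCommGroup M] [Module B M] [Module S M]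
    [IsScalarTower B S M] (E : Derivation B S M) (f : S) : E f = Δ f • E x := by
  have h1 := congrArg E.liftKaehlerDifferential (h.gen f)
  rwa [map_smul, Derivation.liftKaehlerDifferential_comp_D,
    Derivation.liftKaehlerDifferential_comp_D] at h1

/-- Two homomorphisms which differ by a derivation. -/
theorem hom_sub {B S W : Type} [CommRing B] [CommRing S] [Algebra B S] {x : S}
    {Δ : Derivation B S S} (h : IsChart B S x Δ) [CommRing W] [Algebra B W] (σ τ : S →ₐ[B] W)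
    (hst : ∀ f g, (σ f - τ f) * (σ g - τ g) = 0) (f : S) :
    σ f - τ f = σ (Δ f) * (σ x - τ x) := by
  let _ : Algebra S W := σ.toRingHom.toAlgebra
  have : IsScalarTower B S W := IsScalarTower.of_algebraMap_eq fun b => (σ.commutes b).symm
  have hs : ∀ (f : S) (w : W), f • w = σ f * w := fun f w => rfl
  let E : Derivation B S W :=
    { toFun := fun f => σ f - τ f
      map_add' := fun f g => by rw [map_add, map_add]; ring
      map_smul' := fun b f => by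
        rw [map_smul, map_smul, RingHom.id_apply, smul_sub]
      map_one_eq_zero' := by
        change σ 1 - τ 1 = 0
        rw [map_one, map_one, sub_self]
      leibniz' := fun f g => by
        change σ (f * g) - τ (f * g) = f • (σ g - τ g) + g • (σ f - τ f)
        rw [hs, hs, map_mul, map_mul]
        linear_combination (-1 : W) * hst f g }
  exact der_eq h E f

section

variable {B S A : Type} [CommRing B] [CommRing S] [CommRing A] [Algebra B S] [Algebra B A]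

theorem exq_tmul (q : S →ₐ[B] A) (a : A) (f : S) : exq q (a ⊗ₜ[B] f) = a * q f := by
  rw [exq, Algebra.TensorProduct.lift_tmul]
  rfl

theorem exq_surj (q : S →ₐ[B] A) : Function.Surjective (exq q) := fun a =>
  ⟨a ⊗ₜ[B] 1, by rw [exq_tmul, map_one, mul_one]⟩

/-- The ideal of a point is finitely generated. -/
theorem fg [Algebra.FiniteType B S] (q : S →ₐ[B] A) : (RingHom.ker (exq q)).FG := by
  obtain ⟨n, f, hf⟩ := Algebra.FiniteType.iff_quotient_mvPolynomial''.1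
    (Algebra.FiniteType.baseChange (R := B) (A := S) A)
  have h1 := Algebra.FinitePresentation.ker_fG_of_surjective ((exq q).comp f)
    ((exq_surj q).comp hf)
  have h2 := h1.map (f : MvPolynomial (Fin n) A →+* A ⊗[B] S)
  have h3 : (RingHom.ker ((exq q).comp f).toRingHom).map
      (f : MvPolynomial (Fin n) A →+* A ⊗[B] S) = RingHom.ker (exq q) := by
    have h4 : RingHom.ker ((exq q).comp f).toRingHom =
        (RingHom.ker (exq q)).comap (f : MvPolynomial (Fin n) A →+* A ⊗[B] S) := by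
      ext z
      rfl
    rw [h4]
    exact Ideal.map_comap_of_surjective (f : MvPolynomial (Fin n) A →+* A ⊗[B] S) hf _
  rwa [h3] at h2

/-- The coordinate at the point. -/
noncomputable def yy (x : S) (q : S →ₐ[B] A) : A ⊗[B] S := 1 ⊗ₜ[B] x - q x ⊗ₜ[B] 1

theorem sub_mem_ker (q : S →ₐ[B] A) (f : S) :
    (1 ⊗ₜ[B] f - q f ⊗ₜ[B] 1 : A ⊗[B] S) ∈ RingHom.ker (exq q) := by
  change exq q _ = 0
  rw [map_sub, exq_tmul, exq_tmul, one_mul, map_one, mul_one, sub_self]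

theorem yy_mem (x : S) (q : S →ₐ[B] A) : yy x q ∈ RingHom.ker (exq q) := sub_mem_ker q x

theorem sub_mem_sq {x : S} {Δ : Derivation B S S} (h : IsChart B S x Δ) (q : S →ₐ[B] A) (f : S) :
    (1 ⊗ₜ[B] f - q f ⊗ₜ[B] 1 : A ⊗[B] S) - (q (Δ f) ⊗ₜ[B] 1) * yy x q ∈
      RingHom.ker (exq q) ^ 2 := by
  let I := RingHom.ker (exq q)
  let π : A ⊗[B] S →ₐ[B] (A ⊗[B] S) ⧸ I ^ 2 := Ideal.Quotient.mkₐ B (I ^ 2)
  let σ : S →ₐ[B] (A ⊗[B] S) ⧸ I ^ 2 := π.comp Algebra.TensorProduct.includeRight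
  let τ : S →ₐ[B] (A ⊗[B] S) ⧸ I ^ 2 :=
    π.comp ((Algebra.TensorProduct.includeLeft : A →ₐ[B] A ⊗[B] S).comp q)
  have hπ : ∀ r, π r = 0 ↔ r ∈ I ^ 2 := fun r => Ideal.Quotient.eq_zero_iff_mem
  have hst : ∀ f : S, σ f - τ f = π (1 ⊗ₜ[B] f - q f ⊗ₜ[B] 1) := fun f => (map_sub π _ _).symm
  have h1 := hom_sub h σ τ (fun f g => by
    rw [hst, hst, ← map_mul, hπ, pow_two]
    exact Ideal.mul_mem_mul (sub_mem_ker q f) (sub_mem_ker q g)) f
  rw [hst, hst, ← sub_eq_zero] at h1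
  have h2 : σ (Δ f) = π (1 ⊗ₜ[B] Δ f) := rfl
  rw [h2, ← map_mul, ← map_sub, hπ] at h1
  have h3 : (1 ⊗ₜ[B] Δ f - q (Δ f) ⊗ₜ[B] 1 : A ⊗[B] S) * (1 ⊗ₜ[B] x - q x ⊗ₜ[B] 1) ∈ I ^ 2 := by
    rw [pow_two]
    exact Ideal.mul_mem_mul (sub_mem_ker q _) (sub_mem_ker q _)
  have h4 := (I ^ 2).add_mem h1 h3
  have e : (1 ⊗ₜ[B] f - q f ⊗ₜ[B] 1 : A ⊗[B] S) - (q (Δ f) ⊗ₜ[B] 1) * yy x q =
      (1 ⊗ₜ[B] f - q f ⊗ₜ[B] 1 : A ⊗[B] S) - (1 ⊗ₜ[B] Δ f) * (1 ⊗ₜ[B] x - q x ⊗ₜ[B] 1) +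
      (1 ⊗ₜ[B] Δ f - q (Δ f) ⊗ₜ[B] 1 : A ⊗[B] S) * (1 ⊗ₜ[B] x - q x ⊗ₜ[B] 1) := by
    rw [yy]
    ring
  rw [e]
  exact h4

theorem exists_lin {x : S} {Δ : Derivation B S S} (h : IsChart B S x Δ) (q : S →ₐ[B] A)
    (r : A ⊗[B] S) : ∃ a : A, r - (exq q r) ⊗ₜ[B] 1 - (a ⊗ₜ[B] 1) * yy x q ∈
      RingHom.ker (exq q) ^ 2 := by
  induction r using TensorProduct.induction_on with
  | zero =>
    refine ⟨0, ?_⟩
    rw [map_zero, TensorProduct.zero_tmul, zero_mul, sub_zero, sub_zero]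
    exact zero_mem _
  | tmul a f =>
    refine ⟨a * q (Δ f), ?_⟩
    have e : (a ⊗ₜ[B] f : A ⊗[B] S) - (exq q (a ⊗ₜ[B] f)) ⊗ₜ[B] 1 -
        ((a * q (Δ f)) ⊗ₜ[B] 1) * yy x q = (a ⊗ₜ[B] 1) *
          ((1 ⊗ₜ[B] f - q f ⊗ₜ[B] 1 : A ⊗[B] S) - (q (Δ f) ⊗ₜ[B] 1) * yy x q) := by
      rw [exq_tmul, mul_sub, mul_sub, ← mul_assoc, Algebra.TensorProduct.tmul_mul_tmul,
        Algebra.TensorProduct.tmul_mul_tmul, Algebra.TensorProduct.tmul_mul_tmul, mul_one, one_mul,
        mul_one]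
    rw [e]
    exact Ideal.mul_mem_left _ _ (sub_mem_sq h q f)
  | add r s hr hs =>
    obtain ⟨a, ha⟩ := hr
    obtain ⟨b, hb⟩ := hs
    refine ⟨a + b, ?_⟩
    have e : r + s - (exq q (r + s)) ⊗ₜ[B] 1 - ((a + b) ⊗ₜ[B] 1) * yy x q =
        (r - (exq q r) ⊗ₜ[B] 1 - (a ⊗ₜ[B] 1) * yy x q) +
        (s - (exq q s) ⊗ₜ[B] 1 - (b ⊗ₜ[B] 1) * yy x q) := by
      rw [map_add, TensorProduct.add_tmul, TensorProduct.add_tmul]
      ring
    rw [e]
    exact add_mem ha hb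

theorem exists_pow {x : S} {Δ : Derivation B S S} (h : IsChart B S x Δ) (q : S →ₐ[B] A) (n : ℕ) :
    ∀ r ∈ RingHom.ker (exq q) ^ n, ∃ a : A, r - (a ⊗ₜ[B] 1) * yy x q ^ n ∈
      RingHom.ker (exq q) ^ (n + 1) := by
  induction n with
  | zero =>
    intro r _
    refine ⟨exq q r, ?_⟩
    rw [pow_zero, mul_one, zero_add, pow_one]
    change exq q _ = 0
    rw [map_sub, exq_tmul, map_one, mul_one, sub_self]
  | succ n ih =>
    intro r hr
    rw [pow_succ] at hr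
    refine Submodule.mul_induction_on hr ?_ ?_
    · intro u hu v hv
      obtain ⟨a, ha⟩ := ih u hu
      obtain ⟨b, hb⟩ := exists_lin h q v
      have hv' : exq q v = 0 := hv
      rw [hv', TensorProduct.zero_tmul, sub_zero] at hb
      refine ⟨a * b, ?_⟩
      have e : u * v - ((a * b) ⊗ₜ[B] 1) * yy x q ^ (n + 1) =
          (u - (a ⊗ₜ[B] 1) * yy x q ^ n) * v +
          ((a ⊗ₜ[B] 1) * yy x q ^ n) * (v - (b ⊗ₜ[B] 1) * yy x q) := by
        have e1 : ((a * b) ⊗ₜ[B] 1 : A ⊗[B] S) = (a ⊗ₜ[B] 1) * (b ⊗ₜ[B] 1) := by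
          rw [Algebra.TensorProduct.tmul_mul_tmul, mul_one]
        rw [e1]
        ring
      rw [e]
      refine add_mem ?_ ?_
      · rw [pow_succ (RingHom.ker (exq q)) (n + 1)]
        exact Ideal.mul_mem_mul ha hv
      · rw [show n + 1 + 1 = n + 2 from rfl, pow_add]
        exact Ideal.mul_mem_mul (Ideal.mul_mem_left _ _ (Ideal.pow_mem_pow (yy_mem x q) n)) hb
    · rintro r s ⟨a, ha⟩ ⟨b, hb⟩
      refine ⟨a + b, ?_⟩
      have e : r + s - ((a + b) ⊗ₜ[B] 1) * yy x q ^ (n + 1) =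
          (r - (a ⊗ₜ[B] 1) * yy x q ^ (n + 1)) + (s - (b ⊗ₜ[B] 1) * yy x q ^ (n + 1)) := by
        rw [TensorProduct.add_tmul]
        ring
      rw [e]
      exact add_mem ha hb

variable {x : S} {q : S →ₐ[B] A} {h : A ⊗[B] S →ₐ[A] PowerSeries A}

theorem h_tmul (a : A) : h (a ⊗ₜ[B] 1) = PowerSeries.C a := h.commutes a

theorem h_yy (hx : h (1 ⊗ₜ[B] x) = PowerSeries.C (q x) + PowerSeries.X) :
    h (yy x q) = PowerSeries.X := by
  rw [yy, map_sub, hx, h_tmul, add_sub_cancel_left]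

theorem coeff_of_mem (h0 : ∀ r, PowerSeries.constantCoeff (h r) = exq q r) {n : ℕ}
    {r : A ⊗[B] S} (hr : r ∈ RingHom.ker (exq q) ^ n) {m : ℕ} (hm : m < n) :
    PowerSeries.coeff m (h r) = 0 := by
  have h1 : RingHom.ker (exq q) ≤ (Ideal.span {(PowerSeries.X : PowerSeries A)}).comap h := by
    intro s hs
    rw [Ideal.mem_comap, Ideal.mem_span_singleton, PowerSeries.X_dvd_iff, h0]
    exact hs
  have h2 : r ∈ (Ideal.span {(PowerSeries.X : PowerSeries A)} ^ n).comap h :=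
    Ideal.le_comap_pow h n (Ideal.pow_right_mono h1 n hr)
  rw [Ideal.mem_comap, Ideal.span_singleton_pow, Ideal.mem_span_singleton,
    PowerSeries.X_pow_dvd_iff] at h2
  exact h2 m hm

theorem mem_pow {Δ : Derivation B S S} (hc : IsChart B S x Δ)
    (h0 : ∀ r, PowerSeries.constantCoeff (h r) = exq q r)
    (hx : h (1 ⊗ₜ[B] x) = PowerSeries.C (q x) + PowerSeries.X) (n : ℕ) (r : A ⊗[B] S)
    (hr : ∀ m < n, PowerSeries.coeff m (h r) = 0) : r ∈ RingHom.ker (exq q) ^ n := by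
  induction n with
  | zero =>
    rw [pow_zero, Ideal.one_eq_top]
    exact Submodule.mem_top
  | succ n ih =>
    have h1 := ih fun m hm => hr m (by omega)
    obtain ⟨a, ha⟩ := exists_pow hc q n r h1
    have h2 := coeff_of_mem h0 ha (Nat.lt_succ_self n)
    rw [map_sub, map_mul, map_pow, h_tmul, h_yy hx, map_sub, hr n (Nat.lt_succ_self n),
      PowerSeries.coeff_C_mul, PowerSeries.coeff_X_pow_self, mul_one, zero_sub, neg_eq_zero] at h2
    rwa [h2, TensorProduct.zero_tmul, zero_mul, sub_zero] at ha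

end

end TGR

theorem t_TGR : Stmt_TGR := by
  intro B S _ _ _ x Δ _ hc hft A _ _ q h h0 hx
  refine ⟨TGR.fg q, fun n r hr => TGR.mem_pow hc h0 hx n r hr, fun N r hr hN => ?_⟩
  have hI := TGR.fg q
  change ∃ r', r = TGR.yy x q ^ N * r'
  have hr' : ∀ ρ ∈ RingHom.ker (exq q), ∃ (n : ℕ) (r' : A ⊗[B] S),
      ρ ^ n * r = TGR.yy x q ^ N * r' := hr
  clear hr
  generalize hy : TGR.yy x q = y at hr' ⊢
  -- Nakayama
  have h1 : RingHom.ker (exq q) ≤ Ideal.span {y} ⊔ RingHom.ker (exq q) • RingHom.ker (exq q) := by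
    intro s hs
    obtain ⟨a, ha⟩ := TGR.exists_lin hc q s
    have hs' : exq q s = 0 := hs
    rw [hs', TensorProduct.zero_tmul, sub_zero, hy] at ha
    rw [← sub_add_cancel s ((a ⊗ₜ[B] 1) * y), add_comm]
    refine Submodule.add_mem_sup (Ideal.mul_mem_left _ _ (Ideal.mem_span_singleton_self y)) ?_
    rwa [smul_eq_mul, ← pow_two]
  obtain ⟨e, he, he'⟩ := Submodule.exists_sub_one_mem_and_smul_le_of_fg_of_le_sup hI le_rfl h1
  have h2 : ∀ s ∈ RingHom.ker (exq q), e * s ∈ Ideal.span {y} := fun s hs =>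
    he' (Submodule.smul_mem_pointwise_smul s e _ hs)
  have h3 : ∀ (n : ℕ), ∀ s ∈ RingHom.ker (exq q) ^ n, e ^ n * s ∈ Ideal.span {y ^ n} := by
    intro n
    induction n with
    | zero =>
      intro s _
      rw [pow_zero, pow_zero, Ideal.span_singleton_one]
      exact Submodule.mem_top
    | succ n ih =>
      intro s hs
      rw [pow_succ] at hs
      refine Submodule.mul_induction_on hs ?_ ?_
      · intro u hu v hv
        have e1 : e ^ (n + 1) * (u * v) = (e ^ n * u) * (e * v) := by ring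
        rw [e1, pow_succ, ← Ideal.span_singleton_mul_span_singleton]
        exact Ideal.mul_mem_mul (ih u hu) (h2 v hv)
      · intro u v hu hv
        rw [mul_add]
        exact add_mem hu hv
  -- powers of the ideal
  let J : Ideal (A ⊗[B] S) := Submodule.comap
    (LinearMap.toSpanSingleton (A ⊗[B] S) (A ⊗[B] S) r) (Ideal.span {y ^ N})
  have hJ : ∀ s, s ∈ J ↔ s * r ∈ Ideal.span {y ^ N} := fun s => Iff.rfl
  have h4 : RingHom.ker (exq q) ≤ J.radical := by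
    intro s hs
    obtain ⟨n, r', hr''⟩ := hr' s hs
    refine ⟨n, (hJ _).2 ?_⟩
    rw [hr'', Ideal.mem_span_singleton]
    exact dvd_mul_right _ _
  obtain ⟨M, hM⟩ := Ideal.exists_pow_le_of_le_radical_of_fg h4 hI
  have h5 : (1 - e) ^ M * r ∈ Ideal.span {y ^ N} := by
    refine (hJ _).1 (hM (Ideal.pow_mem_pow ?_ M))
    rw [← neg_sub]
    exact neg_mem he
  have h6 : e ^ N * r ∈ Ideal.span {y ^ N} := h3 N r (TGR.mem_pow hc h0 hx N r hN)
  have h7 : IsCoprime (e ^ N) ((1 - e) ^ M) := IsCoprime.pow ⟨1, 1, by ring⟩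
  obtain ⟨a, b, hab⟩ := h7
  have h8 : r ∈ Ideal.span {y ^ N} := by
    have e1 : r = a * (e ^ N * r) + b * ((1 - e) ^ M * r) := by
      linear_combination (-r) * hab
    rw [e1]
    exact add_mem (Ideal.mul_mem_left _ _ h6) (Ideal.mul_mem_left _ _ h5)
  exact Ideal.mem_span_singleton.1 h8

end Pool.Agent.MG.G0


end

section

/-!
# UPL: ultraproducts of places (PAPER_V.md)

The ultraproduct of the models over `Rₙ.map (sc cₙ)` (UMD) is a model over
`UP (Rₙ.map (sc cₙ)) = (UP R).map (sc c)` (UKR). For almost all `n` the model is of type `Smo`, or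
for almost all `n` it is of type `Nod`.
-/

open Polynomial

namespace Pool.Agent.MG.G0

namespace UPL

/-- Transport of a model along an equality of Krichever rings. -/
theorem cast {k O L : Type} [Field k] [CommRing O] [IsDomain O] [Field L] [Algebra k O]
    [Algebra O L] {g d : ℕ} {R R' : Subalgebra L (LaurentSeries L)} (e : R' = R)
    (M : Mdl k O L g d R') : ∃ M' : Mdl k O L g d R, M'.P = M.P ∧ M'.Pb = M.Pb ∧
      (M.Smo → M'.Smo) ∧ (M.Nod → M'.Nod) := by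
  subst e
  exact ⟨M, rfl, rfl, id, id⟩

/-- Transport of differentials along an equality of Krichever rings. -/
theorem cast_EE {O : Type} [CommRing O] {P P' : Subalgebra O (LaurentSeries O)} (e : P = P')
    {r : ℕ} (η : Fin r → EE1 P') :
    ∃ η' : Fin r → EE1 P, ∀ i, (η' i : LaurentSeries O) = (η i : LaurentSeries O) := by
  subst e
  exact ⟨η, fun _ => rfl⟩

variable (𝒰 : Ultrafilter ℕ)

/-- The tower of ultraproducts. -/
theorem tower {k O L : ℕ → Type} [∀ n, CommRing (k n)] [∀ n, CommRing (O n)]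
    [∀ n, CommRing (L n)] [∀ n, Algebra (k n) (O n)] [∀ n, Algebra (O n) (L n)]
    [∀ n, Algebra (k n) (L n)] [∀ n, IsScalarTower (k n) (O n) (L n)] (x : Ul 𝒰 k) :
    umap 𝒰 (fun n => algebraMap (k n) (L n)) x =
      umap 𝒰 (fun n => algebraMap (O n) (L n)) (umap 𝒰 (fun n => algebraMap (k n) (O n)) x) := by
  obtain ⟨a, rfl⟩ := umk_surj 𝒰 x
  rw [umap_umk, umap_umk, umap_umk]
  congr 1
  funext n
  exact IsScalarTower.algebraMap_apply (k n) (O n) (L n) (a n)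

/-- The reduction of the ultraproduct of models. -/
theorem Pb_eq (hUKR : Stmt_UKR) {k O L : ℕ → Type} [∀ n, Field (k n)] [∀ n, CommRing (O n)]
    [∀ n, IsDomain (O n)] [∀ n, Field (L n)] [∀ n, Algebra (k n) (O n)]
    [∀ n, Algebra (O n) (L n)] {g d : ℕ} {R : ∀ n, Subalgebra (L n) (LaurentSeries (L n))}
    (M : ∀ n, Mdl (k n) (O n) (L n) g d (R n)) (hg : 1 ≤ g) (rs : Ul 𝒰 O →+* Ul 𝒰 k)
    (hrs : ∀ x : ∀ n, O n, rs (umk 𝒰 x) = umk 𝒰 fun n => (M n).rs (x n)) :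
    bc1 rs (UP 𝒰 fun n => (M n).P) = UP 𝒰 fun n => (M n).Pb := by
  have h := (hUKR 𝒰 (fun n => (M n).P) hg (fun n => (M n).kr)).2.2.2.1
    (fun n => ((M n).rs : O n →+* k n))
  have h2 : rs = umap 𝒰 (fun n => ((M n).rs : O n →+* k n)) := RingHom.ext fun x => by
    obtain ⟨a, rfl⟩ := umk_surj 𝒰 x
    exact hrs a
  rw [h2, ← h]
  rfl

end UPL

/-- UPL: ultraproducts of places. -/
theorem t_UPL (hUKR : Stmt_UKR) (hUMD : Stmt_UMD) : Stmt_UPL := by
  intro 𝒰 k L _ _ _ g d R v hg hd hR hT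
  let a1 : Algebra (Ul 𝒰 k) (Ul 𝒰 L) := (umap 𝒰 fun n => algebraMap (k n) (L n)).toAlgebra
  let a2 : Algebra (Ul 𝒰 k) (UO 𝒰 v) := (umap 𝒰 fun n => algebraMap (k n) (v n).O).toAlgebra
  let a3 : Algebra (UO 𝒰 v) (Ul 𝒰 L) := (umap 𝒰 fun n => algebraMap (v n).O (L n)).toAlgebra
  have a4 : IsScalarTower (Ul 𝒰 k) (UO 𝒰 v) (Ul 𝒰 L) :=
    IsScalarTower.of_algebraMap_eq fun x => UPL.tower (O := fun n => (v n).O) 𝒰 x
  obtain ⟨a5, M, hrs, -, hP, -, hS, hN⟩ := hUMD 𝒰 (fun n => (v n).M) hg hd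
  have e : UP 𝒰 (fun n => (R n).map (sc (v n).c)) = (UP 𝒰 R).map (sc (uc 𝒰 v)) :=
    (hUKR 𝒰 R hg hR).2.2.2.2.1 (fun n => (v n).c) (uc 𝒰 v) rfl
  have hPb : M.Pb = UP 𝒰 (fun n => (v n).M.Pb) := by
    rw [← UPL.Pb_eq 𝒰 hUKR (fun n => (v n).M) hg (M.rs : Ul 𝒰 (fun n => (v n).O) →+* Ul 𝒰 k) hrs,
      ← hP]
    rfl
  obtain ⟨M', h1, h2, h3, h4⟩ := UPL.cast e M
  refine ⟨⟨UO 𝒰 v, uc 𝒰 v, M'⟩, ?_, ?_, h2.trans hPb, ?_, ?_⟩
  · have h5 : ∀ᶠ n in (𝒰 : Filter ℕ), (v n).M.Smo ∨ (v n).M.Nod :=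
      Filter.Eventually.of_forall hT
    rw [Ultrafilter.eventually_or] at h5
    exact h5.imp (fun h => h3 (hS h)) fun h => h4 (hN h)
  · intro h
    refine Units.ext ?_
    change umk 𝒰 (fun n => ((v n).c : L n)) = 1
    rw [← map_one (umk 𝒰)]
    congr 1
    funext n
    rw [h n]
    rfl
  · intro s h
    exact h
  · intro r S h ω η hη
    have h6 : M'.P = uOP 𝒰 v := h1.trans hP
    obtain ⟨η', h7⟩ := UPL.cast_EE h6 η
    exact h ω η' fun i => (congrArg (lmap (uOL 𝒰 v)) (h7 i)).trans (hη i)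

end Pool.Agent.MG.G0


end

section

/-!
# ZPB: the reduction at the base point
-/

namespace Pool.Agent.MG.G0

namespace ZPB

theorem lmap_comp' {A B C : Type} [CommRing A] [CommRing B] [CommRing C] (φ : A →+* B)
    (ψ : B →+* C) (f : LaurentSeries A) : lmap ψ (lmap φ f) = lmap (ψ.comp φ) f := by
  ext n
  rfl

theorem kr_bc1 (hKBC : Stmt_KBC) {A B : Type} [CommRing A] [CommRing B] {g : ℕ}
    {R : Subalgebra A (LaurentSeries A)} (h : Kr g R) (φ : A →+* B) : Kr g (bc1 φ R) := by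
  have h1 := (hKBC.2.2.2 (P := uno R) h φ).1
  rw [bc_uno] at h1
  exact h1

theorem int1 (hINT : Stmt_INT) {A B : Type} [CommRing A] [CommRing B] {g : ℕ}
    {R : Subalgebra A (LaurentSeries A)} (h : Kr g R) (φ : A →+* B)
    (hφ : Function.Injective φ) (x : LaurentSeries A) (hx : lmap φ x ∈ bc1 φ R) : x ∈ R := by
  have h4 : kmap φ (fun _ : Unit => x) ∈ bc φ (uno R) := by
    rw [bc_uno]
    exact mem_uno.2 hx
  exact mem_uno.1 (hINT h φ hφ (fun _ : Unit => x) h4)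

theorem eq1 (hKEQ : Stmt_KEQ) {A : Type} [CommRing A] {g : ℕ}
    {R R' : Subalgebra A (LaurentSeries A)} (h : Kr g R) (h' : Kr g R') (hle : R ≤ R') :
    R = R' := by
  have h2 : uno R = uno R' := hKEQ h h' fun x hx => hle hx
  rw [← duo_uno R, h2, duo_uno]

end ZPB

theorem t_ZPB (hKBC : Stmt_KBC) (hKEQ : Stmt_KEQ) (hINT : Stmt_INT) : Stmt_ZPB := by
  intro k L O _ _ _ _ g ψ j R RI hRI hcut hbc hj
  refine ZPB.eq1 hKEQ (ZPB.kr_bc1 hKBC hcut _) (ZPB.kr_bc1 hKBC hRI _) ?_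
  refine Algebra.adjoin_le ?_
  rintro _ ⟨x, hx, rfl⟩
  have hx1 : lmap (algebraMap O L) x ∈ R := hx
  have h1 : lmap ψ (lmap (algebraMap O L) x) ∈ bc1 ψ R := Algebra.subset_adjoin ⟨_, hx1, rfl⟩
  have h2 : lmap (psl k) (lmap j x) = lmap ψ (lmap (algebraMap O L) x) := by
    refine HahnSeries.ext (funext fun n => ?_)
    exact hj (x.coeff n)
  rw [← h2, hbc] at h1
  have h3 : lmap j x ∈ RI :=
    ZPB.int1 hINT hRI (psl k) HahnSeries.ofPowerSeries_injective (lmap j x) h1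
  have h4 : lmap ((PowerSeries.constantCoeff (R := k)).comp j) x =
      lmap (PowerSeries.constantCoeff (R := k)) (lmap j x) := (ZPB.lmap_comp' _ _ _).symm
  rw [h4]
  exact Algebra.subset_adjoin ⟨_, h3, rfl⟩

end Pool.Agent.MG.G0


end

section

/-!
# Scaling of Krichever rings and discriminants (PAPER_Z.md, ZSD)
-/

open Polynomial

namespace Pool.Agent.MG.G0

namespace ZSD

section

variable {A : Type} [CommRing A]

theorem inv_sc (c : Aˣ) (f : LaurentSeries A) : sc c⁻¹ (sc c f) = f := by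
  rw [sc_sc, inv_mul_cancel, sc_one]

theorem sc_inv (c : Aˣ) (f : LaurentSeries A) : sc c (sc c⁻¹ f) = f := by
  rw [sc_sc, mul_inv_cancel, sc_one]

theorem kr {g : ℕ} {R : Subalgebra A (LaurentSeries A)} (c : Aˣ) (h : Kr g R) :
    Kr g (R.map (sc c)) := by
  obtain ⟨h1, L, h2, h3⟩ := Kr_iff.1 h
  refine Kr_iff.2 ⟨?_, L ∘ₗ (sc c⁻¹).toLinearMap, ?_, ?_⟩
  · rintro _ ⟨f, hf, rfl⟩ h0
    have h4 : f ∈ Po A 0 := by
      have h5 := sc_mem_Po c⁻¹ h0
      exact (inv_sc c f) ▸ h5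
    obtain ⟨a, ha⟩ := h1 f hf h4
    exact ⟨a, by rw [ha]; exact (sc c).commutes a⟩
  · intro v
    obtain ⟨f, hf⟩ := h2 v
    exact ⟨sc c f, by
      change L (sc c⁻¹ (sc c f)) = v
      rw [inv_sc, hf]⟩
  · intro f
    change L (sc c⁻¹ f) = 0 ↔ _
    rw [h3]
    constructor
    · rintro ⟨p, hp, hp'⟩
      refine ⟨sc c p, ⟨p, hp, rfl⟩, ?_⟩
      have h5 := sc_mem_Po c hp'
      rwa [map_sub, sc_inv] at h5
    · rintro ⟨_, ⟨p, hp, rfl⟩, hp'⟩
      refine ⟨p, hp, ?_⟩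
      have h5 := sc_mem_Po c⁻¹ hp'
      rw [map_sub] at h5
      exact (inv_sc c p) ▸ h5

theorem zz_mem {d : ℕ} {R : Subalgebra A (LaurentSeries A)} (c : Aˣ) (h : zz A d ∈ R) :
    zz A d ∈ R.map (sc c) := by
  refine ⟨(((c ^ (d : ℤ))⁻¹ : Aˣ) : A) • zz A d, R.smul_mem h _, ?_⟩
  change sc c ((((c ^ (d : ℤ))⁻¹ : Aˣ) : A) • zz A d) = zz A d
  rw [map_smul, sc_zz, smul_smul, Units.inv_mul, one_smul]

/-- The substitution `X ↦ a X`. -/
noncomputable def sub (a : A) : A[X] →ₐ[A] A[X] := aeval (C a * X)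

theorem sub_C (a b : A) : sub a (C b) = C b := by
  rw [sub, aeval_C]
  rfl

theorem sub_X (a : A) : sub a X = C a * X := by
  rw [sub, aeval_X]

theorem sub_sub {a b : A} (h : a * b = 1) (q : A[X]) : sub a (sub b q) = q := by
  have h1 : (sub a).comp (sub b) = AlgHom.id A A[X] := by
    refine Polynomial.algHom_ext ?_
    rw [AlgHom.comp_apply, sub_X, map_mul, sub_X, sub_C, AlgHom.id_apply, ← mul_assoc, ← C_mul,
      mul_comm b, h, C_1, one_mul]
  exact congrArg (fun F => F q) h1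

theorem sc_zpol (c : Aˣ) (d : ℕ) (q : A[X]) :
    sc c (zpol A d q) = zpol A d (sub (((c ^ (d : ℤ) : Aˣ)) : A) q) := by
  have h1 : (sc c).comp (zpol A d) = (zpol A d).comp (sub (((c ^ (d : ℤ) : Aˣ)) : A)) := by
    refine Polynomial.algHom_ext ?_
    rw [AlgHom.comp_apply, AlgHom.comp_apply, sub_X, map_mul, zpol, aeval_X, aeval_C, sc_zz,
      Algebra.smul_def]
  exact congrArg (fun F => F q) h1

theorem sc_pr0 (c : Aˣ) (d : ℕ) (f : LaurentSeries A) : sc c (pr0 A d f) = pr0 A d (sc c f) := by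
  ext m
  rw [sc_coeff, pr0_coeff, pr0_coeff, sc_coeff]
  split_ifs
  · rfl
  · rw [mul_zero]

theorem disc {d : ℕ} {R : Subalgebra A (LaurentSeries A)} (c : Aˣ) {b : ℕ} (r : Fin b → A)
    (h : Disc d R (∏ l, (X - C (r l)))) :
    Disc d (R.map (sc c)) (∏ l, (X - C (((c⁻¹ : Aˣ) : A) ^ d * r l))) := by
  obtain ⟨e, G, he, hG, u, hu, hdet⟩ := h
  set k : Aˣ := c ^ (d : ℤ) with hk
  have hk1 : (k : A) * ((k⁻¹ : Aˣ) : A) = 1 := k.mul_inv
  have hk2 : ((k⁻¹ : Aˣ) : A) * (k : A) = 1 := k.inv_mul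
  have hkd : ((c⁻¹ : Aˣ) : A) ^ d = ((k⁻¹ : Aˣ) : A) := by
    rw [hk, zpow_natCast, ← inv_pow, Units.val_pow_eq_pow_val]
  refine ⟨fun i => sc c (e i), G.map (sub (k : A)), ⟨fun i => ⟨e i, he.mem i, rfl⟩, ?_⟩, ?_,
    sub (k : A) u * C (k : A) ^ b, ?_, ?_⟩
  · rintro _ ⟨x, hx, rfl⟩
    obtain ⟨q, hq, hq'⟩ := he.uni x hx
    refine ⟨fun i => sub (k : A) (q i), ?_, ?_⟩
    · change sc c x = ∑ i, zpol A d (sub (k : A) (q i)) * sc c (e i)
      conv_lhs => rw [hq]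
      rw [map_sum]
      refine Finset.sum_congr rfl fun i _ => ?_
      rw [map_mul, sc_zpol]
    · intro q1 hq1
      change sc c x = ∑ i, zpol A d (q1 i) * sc c (e i) at hq1
      have h1 : x = ∑ i, zpol A d (sub ((k⁻¹ : Aˣ) : A) (q1 i)) * e i := by
        have h2 : sc c x = sc c (∑ i, zpol A d (sub ((k⁻¹ : Aˣ) : A) (q1 i)) * e i) := by
          rw [hq1, map_sum]
          refine Finset.sum_congr rfl fun i _ => ?_
          rw [map_mul, sc_zpol, sub_sub hk1]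
        rw [← inv_sc c x, h2, inv_sc]
      have h3 := hq' _ h1
      funext i
      have h4 := congrFun h3 i
      change sub ((k⁻¹ : Aˣ) : A) (q1 i) = q i at h4
      rw [← h4, sub_sub hk1]
  · intro i j
    change zpol A d (sub (k : A) (G i j)) = pr0 A d (sc c (e i) * sc c (e j))
    rw [← sc_zpol, hG i j, sc_pr0, map_mul]
  · refine IsUnit.mul (hu.map (sub (k : A))) ?_
    exact ((k.isUnit).map (C : A →+* A[X])).pow b
  · have h1 : (G.map (sub (k : A))).det = sub (k : A) G.det :=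
      (AlgHom.map_det (sub (k : A)) G).symm
    have h2 : ∀ l, sub (k : A) (X - C (r l)) = C (k : A) * (X - C (((c⁻¹ : Aˣ) : A) ^ d * r l)) := by
      intro l
      rw [map_sub, sub_X, sub_C, mul_sub, ← C_mul, hkd, ← mul_assoc, hk1, one_mul]
    rw [h1, hdet, map_mul, map_prod, Finset.prod_congr rfl fun l _ => h2 l, Finset.prod_mul_distrib,
      Finset.prod_const, Finset.card_univ, Fintype.card_fin, mul_assoc]

end

end ZSD

theorem t_ZSD : Stmt_ZSD := by
  intro A _ g d R c h hz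
  exact ⟨ZSD.kr c h, ZSD.zz_mem c hz, fun r hr => ZSD.disc c r hr⟩

end Pool.Agent.MG.G0


end

section

/-!
# Assembly of the statements: `Stmt_UFI` without hypotheses
-/

namespace Pool.Agent.MG.G0.Asm

open Pool.Agent.MG.G0

theorem a_KDU : Stmt_KDU :=
  t_KDU 

theorem a_KFO : Stmt_KFO :=
  t_KFO a_KDU

theorem a_KNZ : Stmt_KNZ :=
  t_KNZ 

theorem a_KSP : Stmt_KSP :=
  t_KSP a_KNZ

theorem a_KBC : Stmt_KBC :=
  t_KBC a_KFO a_KNZ a_KSP

theorem a_ROO : Stmt_ROO :=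
  t_ROO 

theorem a_RTR : Stmt_RTR :=
  t_RTR 

theorem a_RTA : Stmt_RTA :=
  t_RTA 

theorem a_RIN : Stmt_RIN :=
  t_RIN a_RTR a_RTA

theorem a_KAU : Stmt_KAU :=
  t_KAU 

theorem a_SUB : Stmt_SUB :=
  t_SUB a_RIN a_KAU

theorem a_GST : Stmt_GST :=
  t_GST 

theorem a_GLF : Stmt_GLF :=
  t_GLF a_GST

theorem a_GFS : Stmt_GFS :=
  t_GFS a_GST a_GLF

theorem a_GSM : Stmt_GSM :=
  t_GSM a_GST

theorem a_GTT : Stmt_GTT :=
  t_GTT a_GST

theorem a_GNO : Stmt_GNO :=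
  t_GNO a_GST a_GTT

theorem a_GFR : Stmt_GFR :=
  t_GFR a_GST

theorem a_SCO : Stmt_SCO :=
  t_SCO 

theorem a_LOC : Stmt_LOC :=
  t_LOC 

theorem a_SBC : Stmt_SBC :=
  t_SBC a_SCO a_LOC

theorem a_GTR : Stmt_GTR :=
  t_GTR a_SUB a_SBC

theorem a_GRA : Stmt_GRA :=
  t_GRA a_ROO a_SUB a_GST a_GFS a_GSM a_GTT a_GNO a_GFR a_GTR

theorem a_KBT : Stmt_KBT :=
  t_KBT a_KSP a_KBC

theorem a_KFG : Stmt_KFG :=
  t_KFG a_KNZ a_KSP

theorem a_PPR : Stmt_PPR :=
  t_PPR a_KDU a_KSP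

theorem a_PBC : Stmt_PBC :=
  t_PBC a_KFO a_KBC a_PPR

theorem a_RES : Stmt_RES :=
  t_RES a_RTR a_RTA a_KSP

theorem a_SKK : Stmt_SKK :=
  t_SKK a_KNZ a_SCO

theorem a_STO : Stmt_STO :=
  t_STO a_RES a_SKK

theorem a_SDB : Stmt_SDB :=
  t_SDB a_KBC a_KBT a_STO a_SBC a_PBC

theorem a_APT : Stmt_APT :=
  t_APT a_SCO

theorem a_AID : Stmt_AID :=
  t_AID a_SCO a_KFG

theorem a_AYE : Stmt_AYE :=
  t_AYE a_KNZ a_AID

theorem a_AWK : Stmt_AWK :=
  t_AWK a_KNZ a_SBC a_AYE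

theorem a_SDF : Stmt_SDF :=
  t_SDF a_KFG a_RES a_STO a_SCO a_APT a_AYE a_AWK

theorem a_INT : Stmt_INT :=
  t_INT a_KFO a_KBC

theorem a_KIL : Stmt_KIL :=
  t_KIL a_PBC a_INT

theorem a_PDP : Stmt_PDP :=
  t_PDP a_KFO a_PPR

theorem a_KIS : Stmt_KIS :=
  t_KIS a_KFG a_SKK a_SCO a_PDP

theorem a_UGL : Stmt_UGL :=
  t_UGL a_KBC a_KBT a_KFG a_PBC a_STO a_SDB a_SDF a_KIL a_KIS

theorem a_UZT : Stmt_UZT :=
  t_UZT a_STO a_SDF a_PPR a_KIL a_KIS

theorem a_DIT : Stmt_DIT :=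
  t_DIT a_KFO a_STO a_SDF a_KIL a_KIS a_UZT

theorem a_UNO : Stmt_UNO :=
  t_UNO a_KFO a_KBC a_DIT a_KIL a_KIS a_SDF

theorem a_KGP : Stmt_KGP :=
  t_KGP a_KFO a_KNZ a_KBC

theorem a_BCO : Stmt_BCO :=
  t_BCO 

theorem a_ZDU : Stmt_ZDU :=
  t_ZDU 

theorem a_BPD : Stmt_BPD :=
  t_BPD a_BCO a_ZDU

theorem a_PSI : Stmt_PSI :=
  t_PSI 

theorem a_ZD1 : Stmt_ZD1 :=
  t_ZD1 

theorem a_BPB : Stmt_BPB :=
  t_BPB a_BPD a_PSI a_ZD1

theorem a_CYC : Stmt_CYC :=
  t_CYC a_ZDU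

theorem a_UGN : Stmt_UGN :=
  t_UGN a_SCO a_SKK a_KIL a_KIS a_KGP a_BPB a_CYC a_UZT

theorem a_DSC : Stmt_DSC :=
  t_DSC a_KBC a_KBT

theorem a_KRK : Stmt_KRK :=
  t_KRK 

theorem a_MSM : Stmt_MSM :=
  t_MSM a_KBC a_KIL a_KIS a_DSC a_KRK

theorem a_KEQ : Stmt_KEQ :=
  t_KEQ 

theorem a_AWB : Stmt_AWB :=
  t_AWB a_KBC a_KBT a_KEQ a_AWK

theorem a_KFL : Stmt_KFL :=
  t_KFL a_KSP

theorem a_PL1 : Stmt_PL1 :=
  t_PL1 a_KFO a_KBC a_KFL a_AYE a_AWK a_AWB

theorem a_PL2 : Stmt_PL2 :=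
  t_PL2 a_KBC a_KEQ a_AYE a_AWK a_AWB a_PL1

theorem a_NPG : Stmt_NPG :=
  t_NPG a_ZDU

theorem a_NPA : Stmt_NPA :=
  t_NPA a_APT a_SUB a_KIL a_KIS a_PL2 a_ZDU a_NPG

theorem a_NEL : Stmt_NEL :=
  t_NEL 

theorem a_NDB : Stmt_NDB :=
  t_NDB 

theorem a_NLI : Stmt_NLI :=
  t_NLI a_NEL a_NDB

theorem a_NSG : Stmt_NSG :=
  t_NSG a_PSI

theorem a_NQY : Stmt_NQY :=
  t_NQY a_AYE

theorem a_NKE : Stmt_NKE :=
  t_NKE a_KBC a_KBT

theorem a_NNK : Stmt_NNK :=
  t_NNK 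

theorem a_NCO : Stmt_NCO :=
  t_NCO 

theorem a_NPB : Stmt_NPB :=
  t_NPB a_PL2 a_NLI a_NDB a_NSG a_NQY a_NKE a_NNK a_NCO

theorem a_PNI : Stmt_PNI :=
  t_PNI a_PPR

theorem a_SDN : Stmt_SDN :=
  t_SDN a_KBC a_STO a_PNI

theorem a_TCA : Stmt_TCA :=
  t_TCA a_KSP a_KBT a_SBC a_SDF a_SDN

theorem a_PL0 : Stmt_PL0 :=
  t_PL0 

theorem a_NPY : Stmt_NPY :=
  t_NPY a_KSP a_KBT a_AYE a_PL0 a_PL2

theorem a_NPC : Stmt_NPC :=
  t_NPC a_KSP a_KFL a_KBT a_KEQ a_AYE a_AWK a_PL0 a_PL1 a_TCA a_NPY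

theorem a_NPL : Stmt_NPL :=
  t_NPL a_KBC a_NPA a_NPB a_TCA a_NPC

theorem a_AWD : Stmt_AWD :=
  t_AWD a_RES a_STO a_AYE a_AWK

theorem a_PL3 : Stmt_PL3 :=
  t_PL3 a_AID a_AYE a_AWK a_STO a_SCO

theorem a_PL4 : Stmt_PL4 :=
  t_PL4 a_KDU a_AWK a_PL0

theorem a_PL7 : Stmt_PL7 :=
  t_PL7 a_STO a_SCO a_AWK a_AWD a_PL0 a_PL3 a_PL4

theorem a_SPR : Stmt_SPR :=
  t_SPR a_PPR a_PBC a_KBC

theorem a_UPO : Stmt_UPO :=
  t_UPO a_KBC a_SDF a_STO a_MSM a_PL7 a_NPL a_SPR

theorem a_SCR : Stmt_SCR :=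
  t_SCR a_KFG a_SKK

theorem a_SMO : Stmt_SMO :=
  t_SMO a_KFG a_PDP a_RES a_STO a_SCR

theorem a_UGD : Stmt_UGD :=
  t_UGD a_KBC a_PBC a_SBC a_KIL a_KIS a_MSM a_PL2 a_NPL a_UPO a_SMO

theorem a_UH1 : Stmt_UH1 :=
  t_UH1 a_UGL a_UGD

theorem a_USC : Stmt_USC :=
  t_USC a_GRA

theorem a_UM0 : Stmt_UM0 :=
  t_UM0 a_KFG a_APT a_AID

theorem a_USN : Stmt_USN :=
  t_USN a_GRA a_UM0

theorem a_UM1 : Stmt_UM1 :=
  t_UM1 a_UGL

theorem a_UM2 : Stmt_UM2 :=
  t_UM2 a_KFG a_UGL a_UGD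

theorem a_HV1 : Stmt_HV1 :=
  t_HV1 

theorem a_CNT : Stmt_CNT :=
  t_CNT 

theorem a_GBC : Stmt_GBC :=
  t_GBC a_KBC

theorem a_PSU : Stmt_PSU :=
  t_PSU a_KBC a_CNT a_GBC

theorem a_POL : Stmt_POL :=
  t_POL a_PSU a_KBC

theorem a_PTO : Stmt_PTO :=
  t_PTO a_POL

theorem a_HV2 : Stmt_HV2 :=
  t_HV2 a_POL a_PTO

theorem a_USX : Stmt_USX :=
  t_USX a_SCO a_SKK a_SDB a_HV1 a_HV2 a_UGL

theorem a_HV4 : Stmt_HV4 :=
  t_HV4 a_POL a_CNT

theorem a_HV5 : Stmt_HV5 :=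
  t_HV5 a_POL

theorem a_POA : Stmt_POA :=
  t_POA a_GBC

theorem a_GRX : Stmt_GRX :=
  t_GRX a_KAU a_KBC a_SBC

theorem a_HV8 : Stmt_HV8 :=
  t_HV8 a_POA a_GRX

theorem a_MTR : Stmt_MTR :=
  t_MTR 

theorem a_MEE : Stmt_MEE :=
  t_MEE a_KFO a_KBC

theorem a_MPB : Stmt_MPB :=
  t_MPB a_KBC a_AWB a_AYE a_AWK a_PL2

theorem a_PL5 : Stmt_PL5 :=
  t_PL5 a_KFG a_SCO a_LOC a_SKK a_AWK a_PL0 a_PL1 a_PL3

theorem a_PL6 : Stmt_PL6 :=
  t_PL6 a_AWK a_PL0 a_PL3 a_PL5

theorem a_MPG : Stmt_MPG :=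
  t_MPG a_KBC a_KBT a_SCO a_SDB a_AWB a_AYE a_AWK a_PL1 a_PL2 a_PL6 a_PL7

theorem a_MFE : Stmt_MFE :=
  t_MFE a_KDU a_KFO

theorem a_MVX : Stmt_MVX :=
  t_MVX a_KBC a_AWB a_PL1 a_PL2 a_MPB a_MPG a_MTR a_MFE a_HV1 a_HV2

theorem a_MVN : Stmt_MVN :=
  t_MVN a_KBC a_AWB a_MEE a_MPB a_MPG a_MTR a_HV4

theorem a_PLR : Stmt_PLR :=
  t_PLR a_KDU a_KFO a_AYE a_AWK a_PL1 a_PL2

theorem a_PLF : Stmt_PLF :=
  t_PLF a_AID a_AYE a_AWK a_PL0

theorem a_MCB : Stmt_MCB :=
  t_MCB a_KEQ a_KBC a_KNZ a_KAU a_KBT a_SDB a_MPG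

theorem a_MVS : Stmt_MVS :=
  t_MVS a_KBC a_AWB a_PL2 a_MEE a_MPB a_MPG a_MTR a_HV4 a_HV5

theorem a_PFB : Stmt_PFB :=
  t_PFB a_KBC a_KEQ

theorem a_POF : Stmt_POF :=
  t_POF a_PFB a_GBC

theorem a_EEF : Stmt_EEF :=
  t_EEF a_KDU

theorem a_HV6 : Stmt_HV6 :=
  t_HV6 a_POF a_EEF a_STO

theorem a_MVF : Stmt_MVF :=
  t_MVF a_KBC a_AWB a_PLF a_MEE a_MFE a_MPB a_MPG a_MCB a_MTR a_MVX a_HV6

theorem a_POX : Stmt_POX :=
  t_POX a_GBC

theorem a_HV7 : Stmt_HV7 :=
  t_HV7 a_POX a_GRX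

theorem a_MVR : Stmt_MVR :=
  t_MVR a_KAU a_KBC a_AWB a_MPB a_MPG a_MCB a_HV7

theorem a_MCM : Stmt_MCM :=
  t_MCM a_KBC a_MEE a_MPB a_MPG a_MTR a_MVX a_HV2

theorem a_MAL : Stmt_MAL :=
  t_MAL 

theorem a_MEX : Stmt_MEX :=
  t_MEX a_KBC a_KBT

theorem a_MLG : Stmt_MLG :=
  t_MLG a_KBC a_AWB a_PL2 a_PLR a_PLF a_MTR a_MEE a_MFE a_MPB a_MPG a_MCB a_MVX a_MVN a_MVS a_MVF a_MVR a_MCM a_MAL a_MEX

theorem a_TRX : Stmt_TRX :=
  t_TRX a_KBC a_KBT a_SDB a_KAU

theorem a_TEP : Stmt_TEP :=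
  t_TEP a_MCB a_KBC

theorem a_TNS : Stmt_TNS :=
  t_TNS a_TEP a_KFG

theorem a_TCN : Stmt_TCN :=
  t_TCN a_TRX a_APT a_AWK a_AWD a_TCA a_TNS a_MCB a_SDB a_KFG a_KBC

theorem a_REM : Stmt_REM :=
  t_REM a_KEQ a_KBC a_KNZ

theorem a_TDN : Stmt_TDN :=
  t_TDN a_MCB a_REM a_KAU a_KNZ a_KBC

theorem a_TCO : Stmt_TCO :=
  t_TCO a_TEP a_KDU a_STO

theorem a_TCY : Stmt_TCY :=
  t_TCY a_SMO a_ROO a_SUB a_GTR a_SBC a_KNZ

theorem a_TCR : Stmt_TCR :=
  t_TCR a_TDN a_MCB a_TRX a_TCA a_TCO a_TCY a_KAU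

theorem a_TCQ : Stmt_TCQ :=
  t_TCQ 

theorem a_TCF : Stmt_TCF :=
  t_TCF a_KNZ a_KFG

theorem a_TZU : Stmt_TZU :=
  t_TZU 

theorem a_TZF : Stmt_TZF :=
  t_TZF a_KFO a_KBC a_MCB a_STO a_TZU

theorem a_TCZ : Stmt_TCZ :=
  t_TCZ a_TCN a_TCR a_TEP a_TCQ a_TCF a_TZU a_TZF a_KNZ a_KBC a_KAU

theorem a_TFP : Stmt_TFP :=
  t_TFP 

theorem a_TGN : Stmt_TGN :=
  t_TGN a_TFP

theorem a_TWT : Stmt_TWT :=
  t_TWT 

theorem a_TGT : Stmt_TGT :=
  t_TGT a_TFP a_TWT

theorem a_TGA : Stmt_TGA :=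
  t_TGA a_TFP a_SUB

theorem a_TGR : Stmt_TGR :=
  t_TGR 

theorem a_TGB : Stmt_TGB :=
  t_TGB a_TFP a_TGA a_TGR

theorem a_TGC : Stmt_TGC :=
  t_TGC a_TGB

theorem a_TGG : Stmt_TGG :=
  t_TGG a_TFP a_TGN a_TGT a_TGC

theorem a_TLC : Stmt_TLC :=
  t_TLC 

theorem a_TCH : Stmt_TCH :=
  t_TCH a_TEP a_LOC a_STO

theorem a_TCI : Stmt_TCI :=
  t_TCI a_KBT

theorem a_TCM : Stmt_TCM :=
  t_TCM a_TCH a_KBC a_TRX

theorem a_TCG : Stmt_TCG :=
  t_TCG a_TLC a_TCH a_TCI a_TCM a_TRX a_KBC a_KFG a_STO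

theorem a_TCX : Stmt_TCX :=
  t_TCX a_TFP a_TGG a_TCG

theorem a_TCx : Stmt_TCx :=
  t_TCx a_TCZ a_TCX

theorem a_LOGF : Stmt_LOGF :=
  t_LOGF a_KBC a_AWB a_MTR a_MEE a_MPB a_MPG a_MVX a_MVN a_MLG a_HV2 a_HV4 a_TCx

theorem a_CSM : Stmt_CSM :=
  t_CSM a_SCO a_SKK

theorem a_UIN : Stmt_UIN :=
  t_UIN a_NPL a_UGL a_UPO a_UGD a_HV1 a_HV2 a_HV4 a_HV5 a_HV8 a_LOGF a_KBC a_SDB a_CSM a_MSM

theorem a_HV9 : Stmt_HV9 :=
  t_HV9 a_POL a_CSM

theorem a_UVL : Stmt_UVL :=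
  t_UVL a_KFO

theorem a_UVK : Stmt_UVK :=
  t_UVK a_KBC a_STO a_SCO a_SKK a_SDB a_HV2 a_HV4 a_HV9 a_UGL a_UVL

theorem a_ULR : Stmt_ULR :=
  t_ULR 

theorem a_UEM : Stmt_UEM :=
  t_UEM 

theorem a_UKR : Stmt_UKR :=
  t_UKR a_KFO a_KNZ a_KBC a_KEQ a_KGP

theorem a_TRA : Stmt_TRA :=
  t_TRA a_KFO a_UKR

theorem a_TRZ : Stmt_TRZ :=
  t_TRZ 

theorem a_UMD : Stmt_UMD :=
  t_UMD a_KBC a_ULR a_UKR

theorem a_ZD2 : Stmt_ZD2 :=
  t_ZD2 

theorem a_ZDB : Stmt_ZDB :=
  t_ZDB a_KBC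

theorem a_GDV : Stmt_GDV :=
  t_GDV 

theorem a_GCV : Stmt_GCV :=
  t_GCV a_GDV

theorem a_GDG : Stmt_GDG :=
  t_GDG a_ZD1

theorem a_GRF : Stmt_GRF :=
  t_GRF a_SDF a_ZD2 a_ZDB a_GLF a_GCV a_GDG a_GRA

theorem a_ZPC : Stmt_ZPC :=
  t_ZPC 

theorem a_BGA : Stmt_BGA :=
  t_BGA 

theorem a_BGL : Stmt_BGL :=
  t_BGL a_BGA a_KFO a_KBC

theorem a_PSK : Stmt_PSK :=
  t_PSK a_PSI

theorem a_ZBA : Stmt_ZBA :=
  t_ZBA a_ZDB a_BGA a_PSK

theorem a_ZBL : Stmt_ZBL :=
  t_ZBL 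

theorem a_ZBT : Stmt_ZBT :=
  t_ZBT a_BGA a_BGL a_PSK a_ZBA a_ZBL

theorem a_ZBO : Stmt_ZBO :=
  t_ZBO a_KBC

theorem a_ZBE : Stmt_ZBE :=
  t_ZBE a_BGA a_BGL a_KBC a_CYC a_BPB

theorem a_ZFM : Stmt_ZFM :=
  t_ZFM a_KBC a_BGA a_BGL a_PSI a_ZBT a_ZBO a_ZBE

theorem a_ZCE : Stmt_ZCE :=
  t_ZCE 

theorem a_ZCA : Stmt_ZCA :=
  t_ZCA a_ZCE

theorem a_ZCI : Stmt_ZCI :=
  t_ZCI a_KFO a_RES a_STO a_ZCE a_ZCA

theorem a_ZLA : Stmt_ZLA :=
  t_ZLA 

theorem a_ZRF : Stmt_ZRF :=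
  t_ZRF 

theorem a_ZQA : Stmt_ZQA :=
  t_ZQA a_KIL a_PDP a_ZD1 a_ZLA a_ZRF

theorem a_ZQL : Stmt_ZQL :=
  t_ZQL 

theorem a_ZQN : Stmt_ZQN :=
  t_ZQN a_KFO a_KBC a_ZQA a_ZQL

theorem a_ZOR : Stmt_ZOR :=
  t_ZOR a_KFO a_KBC a_RES a_ZCI a_ZQN

theorem a_ZOI : Stmt_ZOI :=
  t_ZOI a_KFO a_KBC

theorem a_ZOD : Stmt_ZOD :=
  t_ZOD a_KFO a_KBC

theorem a_ZL : Stmt_ZL :=
  t_ZL a_KBC

theorem a_BPX : Stmt_BPX :=
  t_BPX a_BPD a_KBC a_KBT

theorem a_BPA : Stmt_BPA :=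
  t_BPA a_BPX a_KBC a_ZDB

theorem a_ZRT : Stmt_ZRT :=
  t_ZRT 

theorem a_ZRV : Stmt_ZRV :=
  t_ZRV 

theorem a_ZBR : Stmt_ZBR :=
  t_ZBR a_BPA a_ZRT a_ZRV a_BGL a_KBC a_ZDB

theorem a_ZSD : Stmt_ZSD :=
  t_ZSD 

theorem a_ZRK : Stmt_ZRK :=
  t_ZRK 

theorem a_ZPM : Stmt_ZPM :=
  t_ZPM a_KBC a_ZL

theorem a_ZGR : Stmt_ZGR :=
  t_ZGR a_ZLA

theorem a_ZPL : Stmt_ZPL :=
  t_ZPL a_KBC a_ZL a_CYC a_ZBR a_ZPC a_ZSD a_ZRK a_ZPM a_ZGR

theorem a_ZOB : Stmt_ZOB :=
  t_ZOB 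

theorem a_ZPB : Stmt_ZPB :=
  t_ZPB a_KBC a_KEQ a_INT

theorem a_ZFE : Stmt_ZFE :=
  t_ZFE a_KFO a_KBC a_KGP

theorem a_ZIC : Stmt_ZIC :=
  t_ZIC 

theorem a_ZRW : Stmt_ZRW :=
  t_ZRW 

theorem a_ZRR : Stmt_ZRR :=
  t_ZRR a_ZIC a_ZRW

theorem a_ZFD : Stmt_ZFD :=
  t_ZFD a_KFO a_ZFE a_ZRR

theorem a_ZFF : Stmt_ZFF :=
  t_ZFF a_KFO

theorem a_ZFC : Stmt_ZFC :=
  t_ZFC a_KBC a_ZFE

theorem a_ZSL : Stmt_ZSL :=
  t_ZSL 

theorem a_ZFV : Stmt_ZFV :=
  t_ZFV a_ZFF a_ZFC a_ZSL a_ZFD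

theorem a_ZZZ : Stmt_ZZZ :=
  t_ZZZ a_KBC a_ZDB a_ZPC a_ZFM a_ZOR a_ZOI a_ZOD a_ZPL a_ZOB a_ZPM a_ZPB a_ZFD a_ZFV

theorem a_URG : Stmt_URG :=
  t_URG a_KEQ a_UKR a_GRA

theorem a_UPL : Stmt_UPL :=
  t_UPL a_UKR a_UMD

theorem a_UAI : Stmt_UAI :=
  t_UAI 

theorem a_UPR : Stmt_UPR :=
  t_UPR 

theorem a_UZU : Stmt_UZU :=
  t_UZU a_KBC a_ULR a_UEM a_UKR a_TRA a_TRZ a_UMD a_GRA a_GRF a_ZZZ a_URG a_UPL a_UAI a_UPR

theorem a_UFI : Stmt_UFI :=
  t_UFI a_KBC a_GRA a_UGL a_UNO a_UGN a_UH1 a_USC a_USN a_UM1 a_UM2 a_USX a_UIN a_UVK a_UZU a_UM0 a_MSM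

end Pool.Agent.MG.G0.Asm


end
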