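import Mathlib
import Pool.Agent.KDM.C06
import Pool.Agent.KDM.C08
import Pool.Agent.KDM.C20
import Pool.Agent.KDM.C25
import Pool.Agent.KDM.C28
import Pool.Agent.KDM.C30
import Pool.Agent.KDM.C31
import Pool.Agent.KDM.C33
import Pool.Agent.KDM.C50
import Pool.Agent.KDM.C60

/-! Parts: MG.H2.NMV, MG.H2.YHS, MG.H2.YDM, MG.KX.KCR, MG.KX.Rig -/

section

/-!
# At the zero covector a regular function does not depend on one marked point
-/

open CategoryTheory CategoryTheory.Limits AlgebraicGeometry TensorProduct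

namespace Pool.Agent.MG.H2

namespace NMV

section charts

variable {n m : ℕ} {k : Type} [Field k] {T : TC k} {C : Fam 0 k}
  {ρ : Fin m → (Sp k ⟶ C.X)} {hρ : ∀ i, ρ i ≫ C.π = 𝟙 (Sp k)}
  {σ : Fin n → (Sp k ⟶ C.X)} {hσ : ∀ i, σ i ≫ C.π = 𝟙 (Sp k)}

/-- The charts do not depend on the sections. -/
noncomputable def rch (ct : Charted T (wpt C ρ hρ)) : Charted T (wpt C σ hσ) where
  U1 := ct.U1
  U2 := ct.U2
  cover := ct.cover
  ac1 := ct.ac1
  ac2 := ct.ac2
  ac12 := ct.ac12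
  t1 := ct.t1
  t2 := ct.t2
  t12 := ct.t12
  b1 := ct.b1
  b2 := ct.b2
  b12 := ct.b12
  c1 := ct.c1
  c2 := ct.c2
  c12 := ct.c12
  r1 := ct.r1
  r2 := ct.r2

theorem rch_aff {ct : Charted T (wpt C ρ hρ)} (ha : ct.Aff) :
    (rch ct : Charted T (wpt C σ hσ)).Aff := ⟨ha.aff1, ha.aff2, ha.aff12⟩

/-- The two-chart structure for some of the points. -/
noncomputable def sub (ch : Cht (wpt C ρ hρ) T) (e : Fin n → Fin m) (he : Function.Injective e)
    (h : ∀ i, ρ (e i) = σ i) : Cht (wpt C σ hσ) T where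
  ct := rch ch.ct
  aff := rch_aff ch.aff
  pt i := ch.pt (e i)
  is i := by
    have h1 : ch.ct.Is1 (ρ (e i)) (ch.pt (e i)) := ch.is (e i)
    rw [h i] at h1
    exact h1
  off i p := by
    have h1 : ρ (e i) p ∉ ch.ct.U2 := ch.off (e i) p
    rw [h i] at h1
    exact h1
  gen i := ch.gen (e i)
  ne i j hij := ch.ne (e i) (e j) (fun h' => hij (he h'))
  dom := ch.dom
  inj1 := ch.inj1
  inj2 := ch.inj2
  h0 := ch.h0
  unit i := ch.unit (e i)

end charts

section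

variable {g n : ℕ} {k : Type} [Field k] {T : TC k}

/-- Evaluation at a point. -/
noncomputable def evk {V : Type} (φ : T.R1 →ₐ[k] k) (v : V → k) :
    MvPolynomial V T.R1 →ₐ[k] k :=
  (MvPolynomial.aeval v : MvPolynomial V k →ₐ[k] k).comp (MvPolynomial.mapAlgHom φ)

theorem evk_C {V : Type} (φ : T.R1 →ₐ[k] k) (v : V → k) (r : T.R1) :
    evk φ v (MvPolynomial.C r) = φ r := by
  simp [evk]

theorem evk_X {V : Type} (φ : T.R1 →ₐ[k] k) (v : V → k) (j : V) :
    evk (T := T) φ v (MvPolynomial.X j) = v j := by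
  simp [evk]

theorem evk_p {ι : Type} {i₀ : Fin n} (p : MvPolynomial {i : Fin n // i ≠ i₀} k)
    (φ : T.R1 →ₐ[k] k) (v : Fin n ⊕ ι → k) :
    evk φ v (MvPolynomial.rename (fun i => Sum.inl i.1)
      (MvPolynomial.map (algebraMap k T.R1) p)) =
      MvPolynomial.aeval (fun i : {i : Fin n // i ≠ i₀} => v (.inl i.1)) p := by
  induction p using MvPolynomial.induction_on with
  | C a =>
    rw [MvPolynomial.map_C, MvPolynomial.rename_C, evk_C]
    simp
  | add p q hp hq => rw [map_add, map_add, map_add, map_add, hp, hq]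
  | mul_X p i hp =>
    rw [map_mul, map_mul, map_mul, map_mul, hp, MvPolynomial.map_X, MvPolynomial.rename_X, evk_X,
      MvPolynomial.aeval_X]

variable {C : Fam 0 k} {σ τ : Fin n → (Sp k ⟶ C.X)} {hσ : ∀ i, σ i ≫ C.π = 𝟙 (Sp k)}
  {hτ : ∀ i, τ i ≫ C.π = 𝟙 (Sp k)} (ch : Cht (wpt C σ hσ) T)

theorem evk_unit {V : Type} {i₀ : Fin n} (φ : T.R1 →ₐ[k] k) (v : V → k)
    (hφ : ∀ i, i ≠ i₀ → φ (zE ch i) ≠ 0) :
    IsUnit (evk φ v (MvPolynomial.C (PP ch (Finset.univ.erase i₀)))) := by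
  rw [evk_C]
  unfold PP
  rw [map_prod]
  exact (IsUnit.prod_iff).2 fun i hi => IsUnit.mk0 _ (hφ i (Finset.ne_of_mem_erase hi))

variable [IsAlgClosed k] [Algebra ℂ k] (Q : Cur (T := T) (C := wpt C σ hσ) g) (F : Reg g n)
  {ι : Type} {D : ι → T.R12} (U : Uni D)

/-- The points with the point `i₀` given by `φ`. -/
def kp (i₀ : Fin n) (φ : T.R1 →ₐ[k] k) (i : Fin n) : Pt T k :=
  if i = i₀ then .one φ else .one (ch.pt i)

omit [Algebra ℂ k] in
theorem kp_map {i₀ : Fin n} (φ : T.R1 →ₐ[k] k) (v : Fin n ⊕ ι → k)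
    (hφ : ∀ i, i ≠ i₀ → φ (zE ch i) ≠ 0) (i : Fin n) :
    kp ch i₀ φ i = (mv ch i₀ (.one (ph ch ι (Finset.univ.erase i₀))) i).map
      (SSlift ch ι (Finset.univ.erase i₀) (evk φ v) (evk_unit ch φ v hφ)) := by
  rw [map_mv]
  unfold mv kp
  by_cases h : i = i₀
  · rw [if_pos h, if_pos h]
    simp only [Pt.map, Pt.one.injEq]
    refine AlgHom.ext fun r => ?_
    symm
    refine (SSlift_ph ch ι _ _ (evk_unit ch φ v hφ) r).trans ?_
    rw [evk_C]
  · rw [if_neg h, if_neg h]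
    simp only [Pt.one.injEq]
    refine AlgHom.ext fun r => ?_
    simp

omit [IsAlgClosed k] [Algebra ℂ k] in
theorem kp_is {i₀ : Fin n} (hτσ : ∀ i, i ≠ i₀ → σ i = τ i) (φ : T.R1 →ₐ[k] k)
    (his : ch.ct.Is1 (τ i₀) φ) (i : Fin n) :
    (rch ch.ct : Charted T (wpt C τ hτ)).Is ((wpt C τ hτ).σ i) (kp ch i₀ φ i) := by
  unfold kp
  by_cases h : i = i₀
  · rw [if_pos h, h]
    exact his
  · rw [if_neg h]
    have h1 : ch.ct.Is1 (σ i) (ch.pt i) := ch.is i
    rw [hτσ i h] at h1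
    exact h1

/-- The zero covector data. -/
def zcd {B : Type} [CommRing B] [Algebra k B] (s : Fin n → Pt T B) : CovData s :=
  ⟨0, 0, fun a => by simp, fun a => by simp⟩

/-- The value at the zero covector of the curve with the moving point given by `φ`. -/
theorem val0 {i₀ : Fin n} (hτσ : ∀ i, i ≠ i₀ → σ i = τ i) (h2 : IsStable g (wpt C τ hτ))
    (φ : T.R1 →ₐ[k] k) (hφ : ∀ i, i ≠ i₀ → φ (zE ch i) ≠ 0) (his : ch.ct.Is1 (τ i₀) φ) :
    F.F k (wpt C τ hτ) h2 0 = SSlift ch ι (Finset.univ.erase i₀)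
      (evk φ (0 : Fin n ⊕ ι → k)) (evk_unit ch φ 0 hφ) (f1 ch Q hyp F U i₀) := by
  set ψ := SSlift ch ι (Finset.univ.erase i₀) (evk φ (0 : Fin n ⊕ ι → k))
    (evk_unit ch φ 0 hφ) with hψ
  have hs := kp_map ch φ (0 : Fin n ⊕ ι → k) hφ
  rw [← hψ] at hs
  set ct' : Charted T (wpt C τ hτ) := rch ch.ct with hct'
  have haff : ct'.Aff := rch_aff ch.aff
  have hs' : ∀ i, ct'.Is ((wpt C τ hτ).σ i) (kp ch i₀ φ i) := kp_is ch hτσ φ his
  have hbc := cobj_bc ch Q hyp (mv ch i₀ (.one (ph ch ι (Finset.univ.erase i₀))))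
    (dis_one ch hyp i₀ _ fun i hi => ph_unit ch ι _ i
      (Finset.mem_erase.2 ⟨hi, Finset.mem_univ i⟩))
  obtain ⟨a, ha⟩ := hyp.chk (C := wpt C τ hτ) ct' haff (SS ch ι (Finset.univ.erase i₀)) ψ
    (fun i => tau ch.aff (mv ch i₀ (.one (ph ch ι (Finset.univ.erase i₀))) i))
    (fun i => (hyp.tau ch.ct ch.aff).1 _ (mv ch i₀ (.one (ph ch ι (Finset.univ.erase i₀))) i))
    (o1 ch Q hyp ι i₀).ct ⟨hbc.h1, hbc.h2, hbc.f1, hbc.f2, hbc.f12⟩ (fun i => by
      have h1 := (hyp.tau ct' haff).2.2.2 ((wpt C τ hτ).σ i) (kp ch i₀ φ i)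
        ((wpt C τ hτ).sec i) (hs' i)
      rw [h1, hs i]
      exact (hyp.tau ch.ct ch.aff).2.1 _ _ ψ _)
  have hE : (U.cd (mv ch i₀ (.one (ph ch ι (Finset.univ.erase i₀)))) fun j =>
      algebraMap (MvPolynomial (Fin n ⊕ ι) T.R1) (SS ch ι (Finset.univ.erase i₀))
        (MvPolynomial.X j)).Map ψ (zcd (kp ch i₀ φ)) := by
    have h2 := U.map ψ hs (fun j => algebraMap (MvPolynomial (Fin n ⊕ ι) T.R1)
      (SS ch ι (Finset.univ.erase i₀)) (MvPolynomial.X j)) (0 : Fin n ⊕ ι → k) (fun j => by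
        rw [hψ, SSlift_apply, evk_X])
    have h3 : U.cd (kp ch i₀ φ) (0 : Fin n ⊕ ι → k) = zcd (kp ch i₀ φ) := by
      apply U.un
      · funext i
        rw [U.cd_ν]
        rfl
      · intro a
        rw [U.cd_μ]
        rfl
    rw [h3] at h2
    exact h2
  have h0 : IsCov ct' (kp ch i₀ φ) hs' (zcd (kp ch i₀ φ)) (0 : Cov g (wpt C τ hτ)) := by
    intro d h δ _
    change (0 : k) = ext (0 : T.R12 →ₗ[k] k) h + ∑ i, (0 : Fin n → k) i * δ i
    simp [ext]
  exact val_nat' F ψ (o1 ch Q hyp ι i₀).hx h2 a ((o1 ch Q hyp ι i₀).cov hyp.cov _) 0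
    (hyp.nat a ha _ (o1 ch Q hyp ι i₀).hs _ hs' _ (zcd (kp ch i₀ φ)) hE g _ 0
      ((o1 ch Q hyp ι i₀).isCov hyp.cov _) h0)

end

theorem epi_field {k K : Type} [Field k] [Field K] (s : k →+* K) : Epi (spMap s) := by
  have h : (CommRingCat.ofHom s).hom.FaithfullyFlat := by
    algebraize [s]
    exact (inferInstance : Module.FaithfullyFlat k K)
  obtain ⟨h1, h2⟩ := (flat_and_surjective_SpecMap_iff (CommRingCat.ofHom s)).2 h
  exact Flat.epi_of_flat_of_surjective _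

end NMV

open _root_.Pool.Agent.MG.H2.NMV in
/-- **NMV** -/
theorem t_NMV (hNPT : Stmt_NPT) : Stmt_NMV := by
  intro n k _ _ _ g hg F C hC hs σ τ hσ hτ i₀ hστ iσ iτ h1 h2
  have : CharZero k := charZero_of_injective_algebraMap (algebraMap ℂ k).injective
  by_cases he : σ i₀ = τ i₀
  · have : σ = τ := by
      funext i
      by_cases h : i = i₀
      · rw [h, he]
      · exact hστ i h
    subst this
    rfl
  -- all the points
  let ρ : Fin (n + 1) → (Sp k ⟶ C.X) := Fin.cons (τ i₀) σ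
  have hρ : ∀ i, ρ i ≫ C.π = 𝟙 (Sp k) := by
    intro i
    refine Fin.cases ?_ (fun j => ?_) i
    · exact hτ i₀
    · exact hσ j
  have iρ : Function.Injective ρ := by
    rw [Fin.cons_injective_iff]
    refine ⟨?_, iσ⟩
    rintro ⟨i, hi⟩
    by_cases h : i = i₀
    · subst h
      exact he hi
    · rw [hστ i h] at hi
      exact h (iτ hi)
  have hsm : Smooth C.π := SmoothOfRelativeDimension.smooth 1 C.π
  have hst : IsStable g (wpt C ρ hρ) := by
    refine hNPT g C hC ρ hρ (fun i => ⟨⊤, inferInstance, fun _ => trivial⟩) ?_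
    intro K _ _ s i j hij h
    have := epi_field s
    exact hij (iρ ((cancel_epi (spMap s)).1 h))
  obtain ⟨T, ⟨chp⟩⟩ := two g (wpt C ρ hρ) hst hs (Nat.succ_pos n)
  let ch : Cht (wpt C σ hσ) T := sub chp Fin.succ (Fin.succ_injective n) (fun i => rfl)
  have Q : Cur (T := T) (C := wpt C σ hσ) g :=
    ⟨h1, hs, fun j hj a b h => stmt_NOT g (wpt C σ hσ) h1 hs hg T ch j hj a b h⟩
  obtain ⟨ι, D, hc, hu⟩ := hyp.uni T ch.inj1 ch.inj2 Q.not1
  have U : Uni D := ⟨fun n B _ _ s => (hu B s).1, fun n B _ _ s => (hu B s).2⟩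
  obtain ⟨p, hp⟩ := f1_poly ch Q hyp F U hc i₀
  have e1 := val0 (τ := σ) (hτ := hσ) ch Q F U (i₀ := i₀) (fun _ _ => rfl) h1 (ch.pt i₀)
    (fun i hi => by
      have h : ch.pt i₀ (zE ch i) = ch.pt i₀ T.x - ch.pt i T.x := by
        simp [zE]
      rw [h]
      exact sub_ne_zero.2 (ch.ne _ _ hi.symm)) (ch.is i₀)
  have e2 := val0 (τ := τ) (hτ := hτ) ch Q F U (i₀ := i₀) hστ h2 (chp.pt 0)
    (fun i hi => by
      have h : chp.pt 0 (zE ch i) = chp.pt 0 T.x - ch.pt i T.x := by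
        simp [zE]
      rw [h]
      exact sub_ne_zero.2 (chp.ne 0 i.succ (Fin.succ_ne_zero i).symm)) (chp.is 0)
  rw [e1, e2, hp, SSlift_apply, SSlift_apply, NMV.evk_p, NMV.evk_p]

end Pool.Agent.MG.H2


end

section

/-!
# YHS: the curves `y² = f(x)` are smooth of relative dimension one, and nodal
-/

open CategoryTheory CategoryTheory.Limits AlgebraicGeometry TensorProduct
open scoped Polynomial

namespace Pool.Agent.MG.H2

namespace YHS

/-- Curves which are smooth of relative dimension one over a field are nodal. -/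
theorem nodal_of_smooth {K : Type} [Field K] {X : Scheme.{0}} (π : X ⟶ Sp K)
    (h : SmoothOfRelativeDimension 1 π) : Nodal π := by
  intro x
  obtain ⟨U, hU, V, hV, hx, e, hsm⟩ := h.exists_isStandardSmoothOfRelativeDimension x
  have hUtop : U = ⊤ := by
    ext y
    simp only [SetLike.mem_coe, TopologicalSpace.Opens.coe_top, Set.mem_univ, iff_true]
    have h1 : y = π x := Subsingleton.elim _ _
    rw [h1]
    exact e hx
  subst hUtop
  have hkm : coef π V = (π.appLE ⊤ V e).hom.comp (Scheme.ΓSpecIso (.of K)).inv.hom := rfl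
  have h1 : (coef π V).IsStandardSmoothOfRelativeDimension 1 := by
    rw [hkm]
    exact (RingHom.isStandardSmoothOfRelativeDimension_respectsIso (n := 1)).2
      (π.appLE ⊤ V e).hom (Scheme.ΓSpecIso (.of K)).symm.commRingCatIsoToRingEquiv hsm
  obtain ⟨g, hg, hget⟩ := h1.exists_etale_mvPolynomial
  let E : K[X] ≃+* MvPolynomial (Fin 1) K :=
    (MvPolynomial.uniqueAlgEquiv K (Fin 1)).symm.toRingEquiv
  have hE : ∀ c : K, E (Polynomial.C c) = MvPolynomial.C c := fun c =>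
    (MvPolynomial.uniqueAlgEquiv K (Fin 1)).symm.commutes c
  refine NOD.nodal_chart π hV (g.comp (E : K[X] →+* MvPolynomial (Fin 1) K)) ?_ ?_ hx
  · exact RingHom.Etale.stableUnderComposition _ _ (RingHom.Etale.of_bijective E.bijective) hget
  · intro c
    show g (E (Polynomial.C c)) = _
    rw [hE, ← hg]
    rfl

end YHS

open _root_.Pool.Agent.MG.H2.YHS in
theorem t_YHS (hSM : Stmt_YSM) : Stmt_YHS := by
  have h1 : ∀ (B : Type) [CommRing B] (f : Fin 7 → B), HSm B f →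
      SmoothOfRelativeDimension 1 (HX.pr B f) := by
    intro B _ f h
    have h0' : IsZariskiLocalAtSource (@SmoothOfRelativeDimension.{0} 1) :=
      HasRingHomProperty.instIsZariskiLocalAtSource
    refine two_source (@SmoothOfRelativeDimension 1) (HX.in1 B f) (HX.in2 B f)
      (glue2_surj _ _) _ ?_ ?_
    · rw [HX.in1_pr]
      exact hSM B f h.two h.s1
    · rw [HX.in2_pr]
      exact hSM B (rev f) h.two h.s2
  exact ⟨h1, fun K _ _ f h => nodal_of_smooth _ (h1 K f h)⟩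

end Pool.Agent.MG.H2


end

section

/-!
# YDM: the ring of the curve `y² = f(x)` is a domain
-/

open CategoryTheory CategoryTheory.Limits AlgebraicGeometry TensorProduct

namespace Pool.Agent.MG.H2

namespace YDM

open Polynomial

variable (K : Type) [Field K] (f : Fin 7 → K)

/-- The equation over `K[x]`. -/
noncomputable def eqY : (Polynomial K)[X] := X ^ 2 - C (pp K f)

theorem eqY_monic : (eqY K f).Monic := monic_X_pow_sub_C _ two_ne_zero

theorem eqY_deg : (eqY K f).natDegree = 2 := natDegree_X_pow_sub_C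

theorem pp_coeff (j : Fin 7) : (pp K f).coeff j = f j := by
  unfold pp pol
  fin_cases j <;> simp [coeff_X, coeff_C_mul, coeff_X_pow, coeff_C]

/-- `K[x, y]/(y² - f(x))` as an extension of `K[x]`. -/
abbrev CR : Type := AdjoinRoot (eqY K f)

theorem crel : (AdjoinRoot.root (eqY K f)) ^ 2 =
    pol (fun i => ((AdjoinRoot.of (eqY K f)).comp C) (f i)) (AdjoinRoot.of (eqY K f) X) := by
  have h : eval₂ (AdjoinRoot.of (eqY K f)) (AdjoinRoot.root (eqY K f)) (eqY K f) = 0 :=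
    AdjoinRoot.eval₂_root _
  have h2 : eval₂ (AdjoinRoot.of (eqY K f)) (AdjoinRoot.root (eqY K f))
      (X ^ 2 - C (pp K f)) = 0 := h
  rw [eval₂_sub, eval₂_pow, eval₂_X, eval₂_C, sub_eq_zero] at h2
  rw [h2, pp, pol_map]
  rfl

/-- to the extension -/
noncomputable def toC : A1 K f →+* CR K f :=
  lift1 ((AdjoinRoot.of (eqY K f)).comp C) (AdjoinRoot.of (eqY K f) X)
    (AdjoinRoot.root (eqY K f)) (crel K f)

theorem back_rel : eval₂ (eval₂RingHom (algebraMap K (A1 K f)) (x1 K f)) (y1 K f) (eqY K f) = 0 := by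
  unfold eqY pp
  rw [eval₂_sub, eval₂_pow, eval₂_X, eval₂_C, pol_map, rel1, sub_eq_zero]
  congr 1
  · funext i
    exact (eval₂_C _ _).symm
  · exact (eval₂_X _ _).symm

/-- from the extension -/
noncomputable def back : CR K f →+* A1 K f :=
  AdjoinRoot.lift (eval₂RingHom (algebraMap K (A1 K f)) (x1 K f)) (y1 K f) (back_rel K f)

theorem back_to : (back K f).comp (toC K f) = RingHom.id _ := by
  refine hom1_ext ?_ ?_ ?_
  · intro c
    change back K f (toC K f (algebraMap K _ c)) = _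
    rw [toC, lift1_b]
    change back K f (AdjoinRoot.of _ (C c)) = _
    rw [back, AdjoinRoot.lift_of]
    simp
  · change back K f (toC K f (x1 K f)) = _
    rw [toC, lift1_x, back, AdjoinRoot.lift_of]
    simp
  · change back K f (toC K f (y1 K f)) = _
    rw [toC, lift1_y, back, AdjoinRoot.lift_root]
    simp

theorem to_inj : Function.Injective (toC K f) := by
  intro u v h
  have h1 := congrArg (back K f) h
  have h2 : ∀ w, back K f (toC K f w) = w := fun w => RingHom.congr_fun (back_to K f) w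
  rwa [h2, h2] at h1

variable {K f}

theorem not_sq (h1 : IsCoprime (pp K f) (derivative (pp K f))) (h2 : ∃ i, i ≠ 0 ∧ f i ≠ 0)
    (g : K[X]) : pp K f ≠ g ^ 2 := by
  intro hg
  obtain ⟨i, hi, hfi⟩ := h2
  have hu : IsUnit g := by
    refine h1.isUnit_of_dvd' ?_ ?_
    · exact ⟨g, by rw [hg, pow_two]⟩
    · rw [hg, derivative_sq]
      exact ⟨C 2 * derivative g, by ring⟩
  have hd : (pp K f).natDegree = 0 := by
    rw [hg, natDegree_pow, natDegree_eq_zero_of_isUnit hu, mul_zero]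
  have hc := pp_coeff K f i
  have hi' : 0 < (i : ℕ) := by
    rcases Nat.eq_zero_or_pos (i : ℕ) with h | h
    · exact absurd (Fin.ext h) hi
    · exact h
  rw [coeff_eq_zero_of_natDegree_lt (by omega)] at hc
  exact hfi hc.symm

theorem prime_eqY (h1 : IsCoprime (pp K f) (derivative (pp K f))) (h2 : ∃ i, i ≠ 0 ∧ f i ≠ 0) :
    Prime (eqY K f) := by
  rw [← irreducible_iff_prime, (eqY_monic K f).irreducible_iff_roots_eq_zero_of_degree_le_three
    (by rw [eqY_deg]) (by rw [eqY_deg]; norm_num)]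
  refine Multiset.eq_zero_of_forall_notMem fun g hg => ?_
  rw [mem_roots (eqY_monic K f).ne_zero, IsRoot, eqY, eval_sub, eval_pow, eval_X, eval_C,
    sub_eq_zero] at hg
  exact not_sq h1 h2 g hg.symm

end YDM

theorem t_YDM : Stmt_YDM := by
  intro K _ f h1 h2
  have h3 : IsDomain (YDM.CR K f) := AdjoinRoot.isDomain_of_prime (YDM.prime_eqY h1 h2)
  exact (YDM.to_inj K f).isDomain (YDM.toC K f)

end Pool.Agent.MG.H2


end

section

/-!
# KCR: covectors and changes of the index set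
-/

open CategoryTheory CategoryTheory.Limits AlgebraicGeometry
open scoped TensorProduct

namespace Pool.Agent.MG.KX

open Pool.Agent.MG.G0 Pool.Agent.MG.GLU

namespace KCRx

theorem epsMap_id (A : Type) [CommRing A] : epsMap (RingHom.id A) = RingHom.id (Eps A) :=
  RingHom.ext fun z => TrivSqZeroExt.ext (by simp [epsMap]) (by simp [epsMap])

end KCRx

theorem t_KCR (hMCA : Stmt_MCA) (hMBC : Stmt_MBC) (hMOC : Stmt_MOC) (hMRX : Stmt_MRX)
    (hXRX : Stmt_XRX) (hDMD : Stmt_DMD) (hPDR : Stmt_PDR) (hPDK : Stmt_PDK) : Stmt_KCR := by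
  intro I I' A _ _ _ _ _ g P e hKS z z'
  have hP : IsKr g P := hKS.kr
  have hPe : IsKr g (reix e P) := G0.t_KAU.2 P e hP
  obtain ⟨a, ha⟩ := hXRX (p := nop P) e (p' := nop (reix e P)) hP (fun i => i.elim0) z z'
  refine ⟨a, ?_⟩
  intro L L' hL l l' hl hl' d' d f hf
  obtain ⟨M, hM⟩ := hMCA hP z (nop P)
  obtain ⟨N, hN⟩ := hMRX.1 e M (nop (reix e P)) (fun i => i.elim0)
  obtain ⟨M', hM'⟩ := hMCA hPe z' (nop (reix e P))
  have haM : N.Over a M' := ha M N M' hM hN hM'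
  obtain ⟨δ, Md, hMd⟩ := hDMD hP M d
  obtain ⟨δ', hδ, hQ⟩ := hPDR e P δ
  obtain ⟨Nd, hNd⟩ := hMRX.1 e Md (nop (reix e (Pdel P δ))) (fun i => i.elim0)
  have hNdN : Nd.Over d.r N := hMRX.2 d.r e Md M _ _ Nd N hNd hN hMd
  have hK : IsKr g (reix e (Pdel P δ)) := G0.t_KAU.2 (Pdel P δ) e (hPDK hP δ).1
  have hb : bc (epsMap (RingHom.id A)) (reix e (Pdel P δ)) = Pdel (reix e P) δ' := by
    rw [KCRx.epsMap_id, hQ]
    exact G0.KBC.bc_id _
  obtain ⟨M'', hM''⟩ := mbc' hMBC f hK Nd hb (nop (Pdel (reix e P) δ'))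
    (bcP_nop (epsMap (RingHom.id A)))
  have h1 : M''.Over d'.r M' :=
    KCN.ovr hMOC a d.r d'.r f hf N M' Nd M'' haM hNdN hM'' fun F hF => (mem_Pdel.1 hF).1
  rw [hl' M' hM' d' δ' M'' h1, hl M hM d δ Md hMd]
  refine hL δ δ' fun f f' h hff hfh => ?_
  have e1 : f' = ⟨idx e (f : KK I A), idx_mem_reix e f.2⟩ := Subtype.ext (funext hff)
  rw [e1]
  exact hδ f h hfh

end Pool.Agent.MG.KX


end

section

/-!
# The rigidity of `(g, n)`, `g ≥ 3`
-/

open CategoryTheory CategoryTheory.Limits AlgebraicGeometry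
open scoped TensorProduct

namespace Pool.Agent.MG.KX

open Pool.Agent.MG.G0 Pool.Agent.MG.GLU

/-- Genericity with respect to the two definitions of deformations. -/
theorem generic_of {K : Type} [Field K] [Algebra ℂ K] {g n : ℕ} (x : Fam n K)
    (hx : ∀ d : Defo g x, ∃ (D : Derivation ℂ K K) (f : Arrow (Std.epsDer D) d.y x),
      d.r.f ≫ f.f = 𝟙 _) : Std.Generic g x := fun d => hx (Std.Defo.to d)

theorem gnrM_nop {I K : Type} [Field K] [Algebra ℂ K] {P : Subalgebra K (KK I K)}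
    (hP : Gnr P) : GnrM P (nop P) := by
  intro δ q _
  obtain ⟨D, θ, hθ, hδ⟩ := hP δ
  exact ⟨D, θ, hθ, hδ, fun i => i.elim0⟩

variable (h : XIn) {g : ℕ} (hg : 3 ≤ g)

include h hg

/-- `n = 0`. -/
theorem rigid_zero {K I : Type} [Field K] [IsAlgClosed K] [Algebra ℂ K] [Fintype I] [Nonempty I]
    {P : Subalgebra K (KK I K)} (hP : IsKr g P) (hS : TypeS P) (hG : Gnr P)
    (hE : ∀ E : Ev g, ∃ c : ℂ, ∀ l : CovL P, E.Φ K I P l = algebraMap ℂ K c) :
    Std.Rigid g 0 := by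
  have hGd := good_S h hP hS
  have hK : KS g P (nop P) := h.gks (nop P) hg hGd (marks_nop P)
  obtain ⟨z⟩ := (h.ple hP).1
  have hst := h.kst hK z
  refine ⟨K, inferInstance, inferInstance, inferInstance, xfam z (nop P),
    (Std.stable_iff g _).2 hst, h.ksx (nop P) hP hS.1 z, generic_of _
      (h.gnx hP (gnrM_nop hG) z), fun F => ?_⟩
  obtain ⟨c, hc⟩ := hE (evx h hg (Std.Reg.to F))
  refine ⟨c, fun l => ?_⟩
  rw [Std.Reg.to_F]
  obtain ⟨L, hL⟩ := h.kcf hK z (Std.Cov.to l)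
  rw [← hc L]
  exact (evx_spec h hg (Std.Reg.to F) hGd L z hst (Std.Cov.to l) hL).symm

/-- `n ≥ 1`. -/
theorem rigid_pos {n : ℕ} (hn : 1 ≤ n) {K I : Type} [Field K] [IsAlgClosed K] [Algebra ℂ K]
    [Fintype I] [Nonempty I] {P : Subalgebra K (KK I K)} (hP : IsKr g P) (hS : TypeS P)
    (hG : Gnr P)
    (hE : ∀ E : Ev0 g n, ∃ c : ℂ, ∀ p, Marks P p → E.Φ K I P p = algebraMap ℂ K c) :
    Std.Rigid g n := by
  obtain ⟨L, i1, i2, i3, φ, p, hS', hp, hGp⟩ := h.gnp hP hS hG n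
  have hGd := good_S h hP hS
  have hGd' := good_bc h hGd (φ : K →+* L)
  obtain ⟨z⟩ := (h.ple hP).1
  obtain ⟨z'⟩ := (h.ple hGd'.1).1
  have hK : KS g (bc (φ : K →+* L) P) p := h.gks p hg hGd' hp
  have hst := h.kst hK z'
  refine ⟨L, inferInstance, inferInstance, inferInstance, xfam z' p,
    (Std.stable_iff g _).2 hst, h.ksx p hGd'.1 hS'.1 z', generic_of _
      (h.gnx hGd'.1 hGp z'), fun F => ?_⟩
  obtain ⟨c, hc⟩ := hE (ev0 h hg (Std.Reg.to F))
  refine ⟨c, fun l => ?_⟩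
  rw [Std.Reg.to_F]
  have e1 := pointed_smooth g n (by omega) hn L (Std.Reg.to F) (xfam z' p) hst
    (h.ksx p hGd'.1 hS'.1 z') (Std.Cov.to l)
  have e2 : (ev0 h hg (Std.Reg.to F)).Φ L I (bc (φ : K →+* L) P) p =
      (Std.Reg.to F).F L (xfam z' p) hst 0 := ev0V_spec h hg (Std.Reg.to F) p hGd' hp z' hst
  obtain ⟨p₀, hp₀⟩ := h.gnm hP hS n
  obtain ⟨p₁, hp₁⟩ := h.kbp.1 hP (φ : K →+* L) p₀
  have hm₁ := h.kbp.2 hP (φ : K →+* L) p₀ p₁ hp₁ hp₀
  have e3 := (ev0 h hg (Std.Reg.to F)).pos p p₁ hGd'.1 hS' hp hm₁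
  have e4 := (ev0 h hg (Std.Reg.to F)).nat φ p₀ p₁ hGd hp₀ (fun i f => hp₁ i f _ rfl)
  rw [e1, ← e2, e3, e4, hc p₀ hp₀, AlgHom.commutes]

theorem rigid (hU : Stmt_UFI) (n : ℕ) : Std.Rigid g n := by
  obtain ⟨K, i1, i2, i3, P, hP, hS, hG, h1, h2⟩ := hU g hg
  rcases Nat.eq_zero_or_pos n with rfl | hn
  · exact rigid_zero h hg hP hS hG h1
  · exact rigid_pos h hg hn hP hS hG (h2 n)

end Pool.Agent.MG.KX


end
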