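import Mathlib.RingTheory.Etale.Field
import Mathlib.RingTheory.Etale.Kaehler
import Pool.Agent.KDM.C06
import Pool.Agent.KDM.C08
import Pool.Agent.KDM.C15
import Pool.Agent.KDM.C16
import Pool.Agent.KDM.C25
import Pool.Agent.KDM.C26
import Pool.Agent.KDM.C28
import Pool.Agent.KDM.C30
import Pool.Agent.KDM.C31
import Pool.Agent.KDM.C33
import Pool.Agent.KDM.C37
import Pool.Agent.KDM.C41
import Pool.Agent.KDM.C56
import Pool.Agent.KDM.C81

/-! Parts: MG.KX.DVF, MG.KX.PDD, MG.KX.GNP -/

section

/-!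
# DVF: vector fields on a duo with sections in the first chart

The vector field gives derivations of the rings of the two charts and of the intersection, which
are compatible with the restrictions and vanish at the sections.
-/

open CategoryTheory CategoryTheory.Limits AlgebraicGeometry TensorProduct

namespace Pool.Agent.MG.KX

namespace DVF

section geo

variable {A : Type} [CommRing A] {n : ℕ} {K : Type} [Field K] {F : Fam n K} (v : VField F)
  (i : Sp A ⟶ F.X) [IsOpenImmersion i]

/-- Functions on the range of an affine chart. -/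
noncomputable def ev : Γ(F.X, i.opensRange) ≃+* A :=
  RingEquiv.ofBijective (evO i i.opensRange (range_pre i))
    (evO_bij i (range_pre i) (fun _ hx => hx))

theorem ev_apply (f : Γ(F.X, i.opensRange)) :
    ev i f = evO i i.opensRange (range_pre i) f := rfl

/-- The derivation of an affine chart. -/
noncomputable def der : A →+ A :=
  (ev i).toAddEquiv.toAddMonoidHom.comp
    ((v.D i.opensRange).comp (ev i).symm.toAddEquiv.toAddMonoidHom)

theorem der_apply (f : A) : der v i f = ev i (v.D i.opensRange ((ev i).symm f)) := rfl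

theorem der_mul (f g : A) : der v i (f * g) = f * der v i g + g * der v i f := by
  rw [der_apply, der_apply, der_apply, map_mul, v.mul, map_add, map_mul, map_mul,
    RingEquiv.apply_symm_apply, RingEquiv.apply_symm_apply]

theorem der_const (ψ : K →+* A) (hψ : i ≫ F.π = spMap ψ) (c : K) : der v i (ψ c) = 0 := by
  have h : (ev i).symm (ψ c) = coef F.π i.opensRange c := by
    rw [RingEquiv.symm_apply_eq, ev_apply]
    exact (evO_coef i F.π ψ hψ (range_pre i) c).symm
  rw [der_apply, h, v.const, map_zero]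

/-- Compatibility with restriction. -/
theorem der_res {A' : Type} [CommRing A'] (g : A →+* A') (j : Sp A' ⟶ F.X)
    [IsOpenImmersion j] (hj : j = spMap g ≫ i) (f : A) : der v j (g f) = g (der v i f) := by
  subst hj
  have hle : (spMap g ≫ i).opensRange ≤ i.opensRange := by
    rintro _ ⟨p, rfl⟩
    exact ⟨spMap g p, by simp⟩
  have hr : ∀ u : Γ(F.X, i.opensRange), ev (spMap g ≫ i) (rs F.X hle u) = g (ev i u) := by
    intro u
    have h' : ⊤ ≤ (spMap g ≫ i) ⁻¹ᵁ i.opensRange := by
      intro p _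
      exact ⟨spMap g p, by simp⟩
    rw [ev_apply, ev_apply, evO_rs (spMap g ≫ i) hle (range_pre _) h' u]
    exact evO_spMap i g (range_pre i) h' u
  have h1 : (ev (spMap g ≫ i)).symm (g f) = rs F.X hle ((ev i).symm f) := by
    rw [RingEquiv.symm_apply_eq, hr, RingEquiv.apply_symm_apply]
  rw [der_apply, h1, RIG.dres, hr, ← der_apply]

/-- Values at a section. -/
theorem der_sec (l : Fin n) (g : A →+* K) (hl : F.σ l = spMap g ≫ i) (f : A) :
    g (der v i f) = 0 := by
  have h' : ⊤ ≤ (spMap g ≫ i) ⁻¹ᵁ i.opensRange := by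
    intro p _
    exact ⟨spMap g p, by simp⟩
  have h := v.sec i.opensRange l ((ev i).symm f)
  rw [hl] at h
  have h2 : evO (spMap g ≫ i) i.opensRange h' (v.D i.opensRange ((ev i).symm f)) = 0 := by
    have h3 : ((spMap g ≫ i).appLE i.opensRange ⊤ h').hom
        (v.D i.opensRange ((ev i).symm f)) = 0 :=
      (congrArg ((Sp K).presheaf.map (homOfLE h').op).hom h).trans (map_zero _)
    unfold evO
    rw [RingHom.comp_apply, h3, map_zero]
  rw [der_apply, ev_apply, ← evO_spMap i g (range_pre i) h', h2]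

theorem der_zero_iff (h : ∀ f, der v i f = 0) : v.D i.opensRange = 0 := by
  ext s
  have h1 := h (ev i s)
  rw [der_apply, RingEquiv.symm_apply_apply] at h1
  exact (map_eq_zero_iff _ (ev i).injective).1 h1

end geo

/-- The derivation over the base field. -/
noncomputable def mkDer {K R : Type} [Field K] [CommRing R] [Algebra K R] (D : R →+ R)
    (h1 : ∀ f g, D (f * g) = f * D g + g * D f) (h2 : ∀ c : K, D (algebraMap K R c) = 0) :
    Derivation K R R :=
  Derivation.mk'
    { toFun := D
      map_add' := D.map_add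
      map_smul' := fun c f => by
        rw [Algebra.smul_def, h1, h2, mul_zero, add_zero, RingHom.id_apply, Algebra.smul_def] }
    h1

theorem mkDer_apply {K R : Type} [Field K] [CommRing R] [Algebra K R] (D : R →+ R)
    (h1 : ∀ f g, D (f * g) = f * D g + g * D f) (h2 : ∀ c : K, D (algebraMap K R c) = 0) (f : R) :
    mkDer D h1 h2 f = D f := rfl

end DVF

open _root_.Pool.Agent.MG.KX.DVF in
theorem t_DVF : Stmt_DVF := by
  intro K _ D n s H v U
  let i1 : Sp D.R1 ⟶ (D.fam s).X := D.in1
  let i2 : Sp D.R2 ⟶ (D.fam s).X := D.in2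
  have o1 : IsOpenImmersion i1 := inferInstanceAs (IsOpenImmersion D.in1)
  have o2 : IsOpenImmersion i2 := inferInstanceAs (IsOpenImmersion D.in2)
  have hcond : spMap (D.j1 : D.R1 →+* D.R12) ≫ i1 = spMap (D.j2 : D.R2 →+* D.R12) ≫ i2 := D.cond
  have o12 : IsOpenImmersion (spMap (D.j1 : D.R1 →+* D.R12) ≫ i1) := inferInstance
  have hπ1 : i1 ≫ (D.fam s).π = spMap (algebraMap K D.R1) := D.in1_pr
  have hπ2 : i2 ≫ (D.fam s).π = spMap (algebraMap K D.R2) := D.in2_pr
  have hπ12 : (spMap (D.j1 : D.R1 →+* D.R12) ≫ i1) ≫ (D.fam s).π =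
      spMap (algebraMap K D.R12) := by
    rw [Category.assoc, hπ1, spMap_comp'', AlgHom.comp_algebraMap]
  obtain ⟨z1, z2⟩ := H
    (mkDer (der v i1) (der_mul v i1) (der_const v i1 _ hπ1))
    (mkDer (der v i2) (der_mul v i2) (der_const v i2 _ hπ2))
    (mkDer (der v (spMap (D.j1 : D.R1 →+* D.R12) ≫ i1)) (der_mul v _)
      (der_const v _ _ hπ12))
    (fun r => der_res v i1 (D.j1 : D.R1 →+* D.R12) _ rfl r)
    (fun r => der_res v i2 (D.j2 : D.R2 →+* D.R12) _ hcond r)
    (fun i r => der_sec v i1 i (s i : D.R1 →+* K) rfl r)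
  refine RIG.all0 v (glue2_range (spMap (D.j1 : D.R1 →+* D.R12))
    (spMap (D.j2 : D.R2 →+* D.R12))) (isAffineOpen_opensRange i1) (isAffineOpen_opensRange i2)
    (der_zero_iff v i1 fun f => ?_) (der_zero_iff v i2 fun f => ?_) U
  · exact DFunLike.congr_fun z1 f
  · exact DFunLike.congr_fun z2 f

end Pool.Agent.MG.KX


end

section

/-!
# PDD: deformations given by derivations of the base field
-/

open CategoryTheory CategoryTheory.Limits AlgebraicGeometry
open scoped TensorProduct

namespace Pool.Agent.MG.KX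

open Pool.Agent.MG.G0 Pool.Agent.MG.GLU

namespace PDD

variable {I K : Type} [Field K] [Algebra ℂ K] (D : Derivation ℂ K K)

theorem eps0_eps (f : KK I K) : kmap (eps0 K) (kmap (Std.epsDer D) f) = f := by
  funext i
  ext n
  change eps0 K (Std.epsDer D ((f i).coeff n)) = (f i).coeff n
  simp [Std.epsDer]

theorem ksnd_eps (f : KK I K) :
    ksnd (kmap (Std.epsDer D) f) = kadd (D : K →+ K) f := by
  funext i
  ext n
  change (Std.epsDer D ((f i).coeff n)).snd = D ((f i).coeff n)
  simp [Std.epsDer]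

theorem kadd_add (f h : KK I K) :
    kadd (D : K →+ K) (f + h) = kadd (D : K →+ K) f + kadd (D : K →+ K) h := by
  rw [← ksnd_eps, map_add, ksnd_add, ksnd_eps, ksnd_eps]

theorem kadd_mul (f h : KK I K) :
    kadd (D : K →+ K) (f * h) = f * kadd (D : K →+ K) h + h * kadd (D : K →+ K) f := by
  rw [← ksnd_eps, map_mul, ksnd_mul, ksnd_eps, ksnd_eps, eps0_eps, eps0_eps]

theorem kadd_algebraMap (c : K) :
    kadd (D : K →+ K) (algebraMap K (KK I K) c) = algebraMap K (KK I K) (D c) := by
  rw [← ksnd_eps, kmap_algebraMap, ksnd_algebraMap]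
  simp [Std.epsDer]

theorem kadd_smul (c : K) (f : KK I K) :
    kadd (D : K →+ K) (c • f) = c • kadd (D : K →+ K) f + D c • f := by
  rw [Algebra.smul_def, kadd_mul, kadd_algebraMap, Algebra.smul_def, Algebra.smul_def]
  ring

/-- The derivation. -/
noncomputable def der (P : Subalgebra K (KK I K)) : DD P where
  toFun f := mk P (kadd (D : K →+ K) (f : KK I K))
  map_add' f g := by
    change mk P (kadd (D : K →+ K) ((f : KK I K) + (g : KK I K))) = _
    rw [kadd_add, map_add]
  map_smul' c f := by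
    change mk P (kadd (D : K →+ K) (c • (f : KK I K))) = c • mk P (kadd (D : K →+ K) (f : KK I K))
    rw [kadd_smul, map_add, mk_smulA, mk_zero.2 (P.smul_mem f.2 (D c)), add_zero]
  map_one_eq_zero' := by
    change mk P (kadd (D : K →+ K) ((1 : P) : KK I K)) = 0
    rw [mk_zero]
    have h := kadd_algebraMap (I := I) D (1 : K)
    rw [map_one] at h
    rw [OneMemClass.coe_one, h]
    exact P.algebraMap_mem _
  leibniz' f g := by
    change mk P (kadd (D : K →+ K) ((f : KK I K) * (g : KK I K))) =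
      f • mk P (kadd (D : K →+ K) (g : KK I K)) + g • mk P (kadd (D : K →+ K) (f : KK I K))
    rw [kadd_mul, map_add, ← map_smul, ← map_smul]
    rfl

theorem der_apply (P : Subalgebra K (KK I K)) (f : P) :
    der D P f = mk P (kadd (D : K →+ K) (f : KK I K)) := rfl

theorem bc_le (P : Subalgebra K (KK I K)) : bc (Std.epsDer D) P ≤ Pdel P (der D P) := by
  refine Algebra.adjoin_le ?_
  rintro _ ⟨f, hf, rfl⟩
  have h1 : kmap (eps0 K) (kmap (Std.epsDer D) f) ∈ P := by
    rw [eps0_eps]
    exact hf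
  refine ⟨h1, ?_⟩
  rw [der_apply, ksnd_eps]
  exact congrArg (fun x => mk P (kadd (D : K →+ K) x)) (eps0_eps D f)

end PDD

/-- PDD: derivations of the base field. -/
theorem t_PDD (hPDK : Stmt_PDK) : Stmt_PDD := by
  have hKBC : Stmt_KBC := t_KBC (t_KFO t_KDU) t_KNZ (t_KSP t_KNZ)
  intro I K _ _ _ _ g P hP D
  refine ⟨PDD.der D P, fun f => rfl, ?_⟩
  exact t_KEQ (hKBC.2.2.2 hP (Std.epsDer D)).1 (hPDK hP (PDD.der D P)).1 (PDD.bc_le D P)

end Pool.Agent.MG.KX


end

section

/-!
# GNP: generic points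

The marked points are added one after the other: over the algebraic closure `M` of the fraction
field of `Q` there is the tautological point of the base change of `Q`. Genericity is proved in the
form `GnrV` (a vector field `θ₀` and tangent vectors at the marked points): the pairs `(θ₀, v)` for
the old points form a vector space which is spanned by pairs over `L`, and the derivation of `M` is
found by extending a derivation `Q → M`, which takes care of the new point.
-/

open CategoryTheory CategoryTheory.Limits AlgebraicGeometry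
open scoped TensorProduct

namespace Pool.Agent.MG.KX

open Pool.Agent.MG.G0 Pool.Agent.MG.GLU

namespace GNP

/-- Extension of a derivation along a formally etale algebra. -/
theorem ext_der {S T : Type} [CommRing S] [Algebra ℂ S] [Field T] [Algebra ℂ T] [Algebra S T]
    [IsScalarTower ℂ S T] [Algebra.FormallyEtale S T] (d : Derivation ℂ S T) :
    ∃ D : Derivation ℂ T T, ∀ s, D (algebraMap S T s) = d s := by
  let e := KaehlerDifferential.tensorKaehlerEquivOfFormallyEtale ℂ S T
  let l : T ⊗[S] Ω[S⁄ℂ] →ₗ[T] T := LinearMap.liftBaseChange T d.liftKaehlerDifferential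
  refine ⟨(l.comp e.symm.toLinearMap).compDer (KaehlerDifferential.D ℂ T), fun s => ?_⟩
  change l (e.symm (KaehlerDifferential.D ℂ T (algebraMap S T s))) = d s
  rw [KaehlerDifferential.tensorKaehlerEquivOfFormallyEtale_symm_D_algebraMap]
  change LinearMap.liftBaseChange T d.liftKaehlerDifferential (1 ⊗ₜ KaehlerDifferential.D ℂ S s) = d s
  rw [LinearMap.liftBaseChange_tmul, one_smul, Derivation.liftKaehlerDifferential_comp_D]

/-- An algebraically closed field containing the domain `S`, with extensions of derivations. -/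
theorem exists_ext {L S : Type} [Field L] [Algebra ℂ L] [CommRing S] [IsDomain S] [Algebra L S] :
    ∃ (M : Type) (_ : Field M) (_ : IsAlgClosed M) (_ : Algebra ℂ M) (ψ : L →ₐ[ℂ] M) (ι : S →+* M),
      Function.Injective ι ∧ (∀ c, ι (algebraMap L S c) = ψ c) ∧
      ∀ d : S → M, (∀ f g, d (f + g) = d f + d g) → (∀ f g, d (f * g) = ι f * d g + ι g * d f) →
        (∀ c : ℂ, d (algebraMap L S (algebraMap ℂ L c)) = 0) →
        ∃ D : Derivation ℂ M M, ∀ s, D (ι s) = d s := by
  let _ : Algebra ℂ S := ((algebraMap L S).comp (algebraMap ℂ L)).toAlgebra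
  let F := FractionRing S
  let M := AlgebraicClosure F
  have : CharZero F := charZero_of_injective_algebraMap (algebraMap ℂ F).injective
  have h1 : Algebra.FormallyEtale S F := Algebra.FormallyEtale.of_isLocalization (nonZeroDivisors S)
  have h2 : Algebra.FormallyEtale F M := Algebra.FormallyEtale.of_isSeparable F M
  have h3 : Algebra.FormallyEtale S M := Algebra.FormallyEtale.comp S F M
  have h4 : Function.Injective (algebraMap S M) := by
    rw [IsScalarTower.algebraMap_eq S F M]
    exact (algebraMap F M).injective.comp (IsFractionRing.injective S F)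
  let ψ : L →ₐ[ℂ] M :=
    { (algebraMap S M).comp (algebraMap L S) with
      commutes' := fun c => by
        change algebraMap S M (algebraMap ℂ S c) = algebraMap ℂ M c
        rw [← IsScalarTower.algebraMap_apply] }
  refine ⟨M, inferInstance, inferInstance, inferInstance, ψ, algebraMap S M, h4, fun c => rfl, ?_⟩
  intro d ha hm hc
  let d' : Derivation ℂ S M := Derivation.mk'
    { toFun := d
      map_add' := ha
      map_smul' := fun c f => by
        rw [Algebra.smul_def, hm]
        change _ + _ * d (algebraMap L S (algebraMap ℂ L c)) = _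
        rw [hc, mul_zero, add_zero, ← IsScalarTower.algebraMap_apply, RingHom.id_apply,
          Algebra.smul_def] }
    (fun f g => by
      change d (f * g) = f • d g + g • d f
      rw [hm, Algebra.smul_def, Algebra.smul_def])
  exact ext_der d'


/-- Derivations over a homomorphism. -/
structure IsDr {K P B : Type} [CommRing K] [CommRing P] [CommRing B] [Algebra K P] (p : P →+* B)
    (v : P → B) : Prop where
  add : ∀ f g, v (f + g) = v f + v g
  mul : ∀ f g, v (f * g) = p f * v g + p g * v f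
  cst : ∀ c : K, v (algebraMap K P c) = 0

section dr

variable {K P B : Type} [CommRing K] [CommRing P] [CommRing B] [Algebra K P] {p : P →+* B}

theorem IsDr.zero : IsDr (K := K) p (fun _ => 0) :=
  ⟨fun _ _ => (add_zero 0).symm, fun _ _ => by rw [mul_zero, mul_zero, add_zero], fun _ => rfl⟩

theorem IsDr.sub {v : P → B} (h : IsDr (K := K) p v) (f g : P) : v (f - g) = v f - v g := by
  have h1 := h.add (f - g) g
  rw [sub_add_cancel] at h1
  rw [h1, add_sub_cancel_right]

/-- A derivation vanishes on the square of the ideal. -/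
theorem IsDr.sq {v : P → B} (h : IsDr (K := K) p v) {m : Ideal P} (hm : ∀ f ∈ m, p f = 0)
    {f : P} (hf : f ∈ m ^ 2) : v f = 0 := by
  have hz : v 0 = 0 := by
    have h1 := h.add 0 0
    rw [add_zero] at h1
    exact left_eq_add.1 h1
  rw [pow_two] at hf
  refine Submodule.mul_induction_on hf ?_ ?_
  · intro a ha b hb
    rw [h.mul, hm a ha, hm b hb, zero_mul, zero_mul, add_zero]
  · intro a b ha hb
    rw [h.add, ha, hb, add_zero]

end dr

/-- Tangent vectors at a point of a curve, with values in an extension, are multiples of tangent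
vectors over the field. -/
theorem one_dim {L M P : Type} [Field L] [Field M] [CommRing P] [Algebra L P] [Algebra L M]
    (p : P →ₐ[L] L)
    (hsm : ∃ t ∈ RingHom.ker p, ∀ f ∈ RingHom.ker p, ∃ c : L, f - c • t ∈ RingHom.ker p ^ 2)
    {v : P → M} (hv : IsDr (K := L) ((algebraMap L M).comp (p : P →+* L)) v) :
    ∃ (c : M) (w : P → L), IsDr (K := L) (p : P →+* L) w ∧ ∀ f, v f = c * algebraMap L M (w f) := by
  obtain ⟨t, ht, h⟩ := hsm
  have hk : ∀ f ∈ RingHom.ker p, ((algebraMap L M).comp (p : P →+* L)) f = 0 := by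
    intro f hf
    change algebraMap L M (p f) = 0
    rw [RingHom.mem_ker.1 hf, map_zero]
  have hsub : ∀ f, f - algebraMap L P (p f) ∈ RingHom.ker p := fun f => KNSx.sub_mem p f
  choose c hc using fun f => h _ (hsub f)
  have key : ∀ f, v f = v t * algebraMap L M (c f) := by
    intro f
    have h1 := hv.sq hk (hc f)
    rw [hv.sub, hv.sub, hv.cst, sub_zero, Algebra.smul_def, hv.mul, hv.cst, mul_zero, add_zero,
      sub_eq_zero] at h1
    rw [h1]
    change algebraMap L M (p (algebraMap L P (c f))) * v t = _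
    rw [AlgHom.commutes, mul_comm]
    rfl
  by_cases h0 : v t = 0
  · refine ⟨0, fun _ => 0, IsDr.zero, fun f => ?_⟩
    rw [key, h0, zero_mul, zero_mul]
  · refine ⟨v t, c, ⟨fun f g => ?_, fun f g => ?_, fun a => ?_⟩, key⟩
    · apply (algebraMap L M).injective
      apply mul_left_cancel₀ h0
      rw [← key, hv.add, map_add, mul_add, ← key, ← key]
    · apply (algebraMap L M).injective
      apply mul_left_cancel₀ h0
      rw [← key, hv.mul, map_add, map_mul, map_mul, key f, key g]
      change algebraMap L M (p f) * _ + algebraMap L M (p g) * _ =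
        v t * (algebraMap L M (p f) * _ + algebraMap L M (p g) * _)
      ring
    · apply (algebraMap L M).injective
      apply mul_left_cancel₀ h0
      rw [← key, hv.cst, map_zero, mul_zero]


section kad

variable {I L M : Type} [Field L] [Field M] [Algebra ℂ L] [Algebra ℂ M] [Algebra L M]
  (D : Derivation ℂ L M)

/-- The homomorphism to the dual numbers given by a derivation. -/
noncomputable def rho : L →+* Eps M where
  toFun c := TrivSqZeroExt.inl (algebraMap L M c) + TrivSqZeroExt.inr (D c)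
  map_one' := by
    rw [map_one, Derivation.map_one_eq_zero, TrivSqZeroExt.inr_zero, add_zero]
    rfl
  map_zero' := by
    rw [map_zero, map_zero, TrivSqZeroExt.inr_zero, add_zero]
    rfl
  map_add' a b := by
    rw [map_add, map_add, TrivSqZeroExt.inl_add, TrivSqZeroExt.inr_add]
    ring
  map_mul' a b := by
    refine TrivSqZeroExt.ext ?_ ?_
    · change algebraMap L M (a * b) + 0 = (algebraMap L M a + 0) * (algebraMap L M b + 0)
      rw [map_mul, add_zero, add_zero, add_zero]
    · change (0 : M) + D (a * b) = (algebraMap L M a + 0) * (0 + D b) +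
        (0 + D a) * (algebraMap L M b + 0)
      rw [Derivation.leibniz, Algebra.smul_def, Algebra.smul_def]
      ring

/-- The coefficientwise application of a derivation. -/
noncomputable def kd (f : KK I L) : KK I M := fun i => HahnSeries.map (f i) (D : L →+ M)

theorem eps0_rho (f : KK I L) : kmap (eps0 M) (kmap (rho D) f) = kmap (algebraMap L M) f := by
  funext i
  ext n
  change eps0 M (rho D ((f i).coeff n)) = algebraMap L M ((f i).coeff n)
  simp [rho]

theorem ksnd_rho (f : KK I L) : ksnd (kmap (rho D) f) = kd D f := by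
  funext i
  ext n
  change (rho D ((f i).coeff n)).snd = D ((f i).coeff n)
  simp [rho]

theorem kd_add (f h : KK I L) : kd D (f + h) = kd D f + kd D h := by
  rw [← ksnd_rho, map_add, ksnd_add, ksnd_rho, ksnd_rho]

theorem kd_mul (f h : KK I L) : kd D (f * h) =
    kmap (algebraMap L M) f * kd D h + kmap (algebraMap L M) h * kd D f := by
  rw [← ksnd_rho, map_mul, ksnd_mul, ksnd_rho, ksnd_rho, eps0_rho, eps0_rho]

theorem kd_algebraMap (c : L) :
    kd D (algebraMap L (KK I L) c) = algebraMap M (KK I M) (D c) := by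
  rw [← ksnd_rho, kmap_algebraMap, ksnd_algebraMap]
  simp [rho]

/-- A derivation of `M` which extends `D`. -/
theorem kadd_kmap (E : Derivation ℂ M M) (h : ∀ c, E (algebraMap L M c) = D c) (f : KK I L) :
    kadd (E : M →+ M) (kmap (algebraMap L M) f) = kd D f := by
  funext i
  ext n
  exact h _

end kad

/-- Genericity in terms of vector fields and tangent vectors. -/
def GnrV {I K : Type} [Field K] [Algebra ℂ K] {n : ℕ} (P : Subalgebra K (KK I K))
    (p : Fin n → (P →ₐ[K] K)) : Prop :=
  ∀ (θ₀ : KK I K) (v : Fin n → P → K), (∀ i, IsDr (K := K) (p i : P →+* K) (v i)) →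
    ∃ (D : Derivation ℂ K K) (θ : KK I K), θ ∈ Pol I K 0 ∧ ∀ f : P, ∃ h : P,
      (h : KK I K) = θ₀ * dd (f : KK I K) - kadd (D : K →+ K) (f : KK I K) -
        θ * dd (f : KK I K) ∧ ∀ i, v i f = D (p i f) + p i h

/-- The pair `(θ₀ - θ, v)` at `f` is given by the derivation `E`. -/
def Pr {I K : Type} [Field K] [Algebra ℂ K] {n : ℕ} {P : Subalgebra K (KK I K)}
    (y : Fin n → (P →ₐ[K] K)) (θ₀ θ : KK I K) (v : Fin n → P → K) (E : Derivation ℂ K K)
    (f : P) : Prop :=
  ∃ h : P, (h : KK I K) = θ₀ * dd (f : KK I K) - kadd (E : K →+ K) (f : KK I K) -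
    θ * dd (f : KK I K) ∧ ∀ i, v i f = E (y i f) + y i h

section pr

variable {I K : Type} [Field K] [Algebra ℂ K] {n : ℕ} {P : Subalgebra K (KK I K)}
  {y : Fin n → (P →ₐ[K] K)} {θ₀ θ : KK I K} {v : Fin n → P → K} {E : Derivation ℂ K K}

theorem Pr.add (hv : ∀ i, IsDr (K := K) (y i : P →+* K) (v i)) {f g : P}
    (hf : Pr y θ₀ θ v E f) (hg : Pr y θ₀ θ v E g) : Pr y θ₀ θ v E (f + g) := by
  obtain ⟨a, ha, ha'⟩ := hf
  obtain ⟨b, hb, hb'⟩ := hg
  refine ⟨a + b, ?_, fun i => ?_⟩
  · change (a : KK I K) + (b : KK I K) = θ₀ * dd ((f : KK I K) + (g : KK I K)) -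
      kadd (E : K →+ K) ((f : KK I K) + (g : KK I K)) - θ * dd ((f : KK I K) + (g : KK I K))
    rw [ha, hb, dd_add, PDD.kadd_add]
    ring
  · rw [(hv i).add, ha', hb', map_add, map_add, map_add]
    ring

theorem Pr.smul (hv : ∀ i, IsDr (K := K) (y i : P →+* K) (v i)) (c : K) {f : P}
    (hf : Pr y θ₀ θ v E f) : Pr y θ₀ θ v E (c • f) := by
  obtain ⟨a, ha, ha'⟩ := hf
  refine ⟨c • a - E c • f, ?_, fun i => ?_⟩
  · change c • (a : KK I K) - E c • (f : KK I K) = θ₀ * dd (c • (f : KK I K)) -
      kadd (E : K →+ K) (c • (f : KK I K)) - θ * dd (c • (f : KK I K))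
    rw [ha, dd_smul, PDD.kadd_smul, mul_smul_comm, mul_smul_comm, smul_sub, smul_sub]
    abel
  · have h1 : v i (c • f) = c * v i f := by
      rw [Algebra.smul_def, (hv i).mul, (hv i).cst, mul_zero, add_zero]
      change y i (algebraMap K P c) * _ = _
      rw [AlgHom.commutes]
      rfl
    rw [h1, ha', map_sub, map_smul (y i) c f, map_smul (y i) c a, map_smul (y i) (E c) f,
      smul_eq_mul, smul_eq_mul, smul_eq_mul, Derivation.leibniz, smul_eq_mul, smul_eq_mul]
    ring

end pr

section step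

variable {I L M : Type} [Fintype I] [Field L] [Field M] [Algebra ℂ L] [Algebra ℂ M]
  [Algebra L M] [IsScalarTower ℂ L M] {Q : Subalgebra L (KK I L)} {n : ℕ}
  (p : Fin n → (Q →ₐ[L] L)) (p' : Fin n → (bc (algebraMap L M) Q →ₐ[M] M))

/-- The pairs which come from derivations of `L` with values in `M`. -/
def TL (θ₀ : KK I M) (v : Fin n → Q → M) : Prop :=
  ∃ (D : Derivation ℂ L M) (θ : KK I M), θ ∈ Pol I M 0 ∧ ∀ f : Q,
    ∃ h : bc (algebraMap L M) Q, (h : KK I M) =
      θ₀ * dd (kmap (algebraMap L M) (f : KK I L)) - kd D (f : KK I L) -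
        θ * dd (kmap (algebraMap L M) (f : KK I L)) ∧
      ∀ i, v i f = D (p i f) + p' i h

variable {p p'}

omit [Fintype I] [IsScalarTower ℂ L M] in
theorem TL.add {θ₁ θ₂ : KK I M} {v₁ v₂ : Fin n → Q → M} (h₁ : TL p p' θ₁ v₁)
    (h₂ : TL p p' θ₂ v₂) : TL p p' (θ₁ + θ₂) (fun i f => v₁ i f + v₂ i f) := by
  obtain ⟨D₁, η₁, hη₁, h₁⟩ := h₁
  obtain ⟨D₂, η₂, hη₂, h₂⟩ := h₂
  refine ⟨D₁ + D₂, η₁ + η₂, add_mem hη₁ hη₂, fun f => ?_⟩
  obtain ⟨a, ha, ha'⟩ := h₁ f
  obtain ⟨b, hb, hb'⟩ := h₂ f
  refine ⟨a + b, ?_, fun i => ?_⟩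
  · have e : kd (D₁ + D₂) (f : KK I L) = kd D₁ (f : KK I L) + kd D₂ (f : KK I L) := by
      funext i
      ext m
      rfl
    rw [e]
    change (a : KK I M) + (b : KK I M) = _
    rw [ha, hb]
    ring
  · change v₁ i f + v₂ i f = _
    rw [ha', hb', map_add, Derivation.add_apply]
    ring

omit [Fintype I] [IsScalarTower ℂ L M] in
theorem TL.smul {θ₁ : KK I M} {v₁ : Fin n → Q → M} (c : M) (h₁ : TL p p' θ₁ v₁) :
    TL p p' (c • θ₁) (fun i f => c * v₁ i f) := by
  obtain ⟨D₁, η₁, hη₁, h₁⟩ := h₁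
  refine ⟨c • D₁, c • η₁, (Pol I M 0).smul_mem c hη₁, fun f => ?_⟩
  obtain ⟨a, ha, ha'⟩ := h₁ f
  refine ⟨c • a, ?_, fun i => ?_⟩
  · have e : kd (c • D₁) (f : KK I L) = c • kd D₁ (f : KK I L) := by
      funext i
      ext m
      rfl
    rw [e]
    change c • (a : KK I M) = _
    rw [ha, smul_mul_assoc, smul_mul_assoc, smul_sub, smul_sub]
  · change c * v₁ i f = _
    rw [ha', map_smul, Derivation.smul_apply, smul_eq_mul, smul_eq_mul]
    ring

omit [Fintype I] in
theorem TL.base (hG : GnrV Q p) (hp : BcP (algebraMap L M) p p') (θ₀ : KK I L)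
    (v : Fin n → Q → L) (hv : ∀ i, IsDr (K := L) (p i : Q →+* L) (v i)) :
    TL p p' (kmap (algebraMap L M) θ₀) (fun i f => algebraMap L M (v i f)) := by
  obtain ⟨D, θ, hθ, h⟩ := hG θ₀ v hv
  refine ⟨(Algebra.linearMap L M).compDer D, kmap (algebraMap L M) θ, kmap_mem_Pol _ hθ,
    fun f => ?_⟩
  obtain ⟨a, ha, ha'⟩ := h f
  refine ⟨bcMap _ Q a, ?_, fun i => ?_⟩
  · have e : kd ((Algebra.linearMap L M).compDer D) (f : KK I L) =
        kmap (algebraMap L M) (kadd (D : L →+ L) (f : KK I L)) := by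
      funext i
      ext m
      rfl
    rw [bcMap_val, ha, e, map_sub, map_sub, map_mul, map_mul, kmap_dd]
  · change algebraMap L M (v i f) = _
    rw [ha', map_add, hp i a (bcMap _ Q a) rfl]
    rfl

omit [Fintype I] [IsScalarTower ℂ L M] in
theorem TL.pol {θ₀ : KK I M} (hθ₀ : θ₀ ∈ Pol I M 0) : TL p p' θ₀ (fun _ _ => 0) := by
  refine ⟨0, θ₀, hθ₀, fun f => ⟨0, ?_, fun i => ?_⟩⟩
  · have e : kd (0 : Derivation ℂ L M) (f : KK I L) = 0 := by
      funext i
      ext m
      rfl
    rw [e, sub_zero, sub_self]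
    rfl
  · rw [map_zero, Derivation.zero_apply, add_zero]

omit [Fintype I] [IsScalarTower ℂ L M] in
theorem TL.sum {ι : Type} (s : Finset ι) (θ : ι → KK I M) (v : ι → Fin n → Q → M)
    (h : ∀ k ∈ s, TL p p' (θ k) (v k)) :
    TL p p' (∑ k ∈ s, θ k) (fun i f => ∑ k ∈ s, v k i f) := by
  classical
  induction s using Finset.induction_on with
  | empty =>
    have h0 := TL.pol (p := p) (p' := p') (zero_mem (Pol I M 0))
    simpa using h0
  | insert a s ha ih =>
    have h1 := (h a (Finset.mem_insert_self a s)).add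
      (ih fun k hk => h k (Finset.mem_insert_of_mem hk))
    rw [Finset.sum_insert ha]
    have e : (fun (i : Fin n) (f : Q) => ∑ k ∈ insert a s, v k i f) =
        fun i f => v a i f + ∑ k ∈ s, v k i f := by
      funext i f
      rw [Finset.sum_insert ha]
    rw [e]
    exact h1

/-- All pairs come from derivations. -/
theorem TL.all (hG : GnrV Q p) (hp : BcP (algebraMap L M) p p')
    (hsm : ∀ i, ∃ t ∈ RingHom.ker (p i), ∀ f ∈ RingHom.ker (p i), ∃ c : L,
      f - c • t ∈ RingHom.ker (p i) ^ 2) (θ₀ : KK I M) (v : Fin n → Q → M)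
    (hv : ∀ i, IsDr (K := L) ((algebraMap L M).comp (p i : Q →+* L)) (v i)) :
    TL p p' θ₀ v := by
  classical
  have hmon : ∀ (i : I) (m : ℤ) (a : M), TL p p' (mon i m a) (fun _ _ => 0) := by
    intro i m a
    have h1 := (TL.base hG hp (mon i m 1) (fun _ _ => 0) (fun _ => IsDr.zero)).smul a
    have e : a • kmap (algebraMap L M) (mon i m 1) = mon i m a := by
      rw [kmap_mon, map_one, smul_mon, mul_one]
    rw [e] at h1
    simpa using h1
  have h1 : TL p p' θ₀ (fun _ _ => 0) := by
    obtain ⟨N, hN⟩ := exists_Pol θ₀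
    have h2 := TL.pol (p := p) (p' := p') (by simpa using sub_mon_mem_Pol hN 0)
    have h3 := TL.sum (p := p) (p' := p') (Finset.univ : Finset I) _ _ (fun i _ =>
      TL.sum (Finset.Ico (-(N : ℤ)) 0) (fun m => mon i m ((θ₀ i).coeff m)) (fun _ _ _ => 0)
        (fun m _ => hmon i m _))
    have h4 := h2.add h3
    rw [sub_add_cancel] at h4
    simpa using h4
  have h2 : TL p p' 0 v := by
    have h3 : ∀ j : Fin n, TL p p' 0 (fun i f => if i = j then v i f else 0) := by
      intro j
      obtain ⟨c, w, hw, hc⟩ := one_dim (p j) (hsm j) (hv j)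
      have h4 := (TL.base hG hp 0 (fun i => if i = j then w else fun _ => 0) (fun i => by
        by_cases hij : i = j
        · subst hij
          rw [if_pos rfl]
          exact hw
        · rw [if_neg hij]
          exact IsDr.zero)).smul c
      have e : (fun (i : Fin n) (f : Q) => c * algebraMap L M
          ((if i = j then w else fun _ => 0) f)) = fun i f => if i = j then v i f else 0 := by
        funext i f
        by_cases hij : i = j
        · subst hij
          rw [if_pos rfl, if_pos rfl, hc]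
        · rw [if_neg hij, if_neg hij, map_zero, mul_zero]
      rw [e, map_zero, smul_zero] at h4
      exact h4
    have h4 := TL.sum (p := p) (p' := p') (Finset.univ : Finset (Fin n)) (fun _ => 0) _
      (fun j _ => h3 j)
    simpa using h4
  have h3 := h1.add h2
  simpa using h3

/-- The step: one more marked point, the generic one. -/
theorem main (hKBC : Stmt_KBC) (hG : GnrV Q p) (hp : BcP (algebraMap L M) p p')
    (hsm : ∀ i, ∃ t ∈ RingHom.ker (p i), ∀ f ∈ RingHom.ker (p i), ∃ c : L,
      f - c • t ∈ RingHom.ker (p i) ^ 2) (x : bc (algebraMap L M) Q →ₐ[M] M) (ι : Q →+* M)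
    (hι : ∀ c, ι (algebraMap L Q c) = algebraMap L M c)
    (hx : ∀ f : Q, x (bcMap (algebraMap L M) Q f) = ι f)
    (hext : ∀ d : Q → M, (∀ f g, d (f + g) = d f + d g) →
      (∀ f g, d (f * g) = ι f * d g + ι g * d f) →
      (∀ c : ℂ, d (algebraMap L Q (algebraMap ℂ L c)) = 0) →
      ∃ D : Derivation ℂ M M, ∀ s, D (ι s) = d s)
    (y : Fin (n + 1) → (bc (algebraMap L M) Q →ₐ[M] M)) (hy0 : y 0 = x)
    (hys : ∀ i : Fin n, y i.succ = p' i) : GnrV (bc (algebraMap L M) Q) y := by
  intro θ₀ v hv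
  have hcst : ∀ c : L, bcMap (algebraMap L M) Q (algebraMap L Q c) =
      algebraMap M (bc (algebraMap L M) Q) (algebraMap L M c) := fun c =>
    Subtype.ext (kmap_algebraMap _ c)
  have hdr : ∀ (i : Fin n), IsDr (K := L) ((algebraMap L M).comp (p i : Q →+* L))
      (fun f => v i.succ (bcMap (algebraMap L M) Q f)) := by
    intro i
    have h1 := hv i.succ
    rw [hys] at h1
    refine ⟨fun f g => ?_, fun f g => ?_, fun c => ?_⟩
    · change v i.succ (bcMap (algebraMap L M) Q (f + g)) = _
      rw [map_add, h1.add]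
    · change v i.succ (bcMap (algebraMap L M) Q (f * g)) = _
      rw [map_mul, h1.mul]
      change p' i _ * _ + p' i _ * _ = _
      rw [KBP.app hp, KBP.app hp]
      rfl
    · change v i.succ (bcMap (algebraMap L M) Q (algebraMap L Q c)) = _
      rw [hcst, h1.cst]
  obtain ⟨D, θ, hθ, h⟩ := TL.all hG hp hsm θ₀ _ hdr
  choose h hh hh' using h
  have hv0 := hv 0
  rw [hy0] at hv0
  have hadd : ∀ f g, h (f + g) = h f + h g := by
    intro f g
    apply Subtype.ext
    change (h (f + g) : KK I M) = (h f : KK I M) + (h g : KK I M)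
    rw [hh, hh, hh]
    change θ₀ * dd (kmap _ ((f : KK I L) + (g : KK I L))) - kd D ((f : KK I L) + (g : KK I L)) -
      θ * dd (kmap _ ((f : KK I L) + (g : KK I L))) = _
    rw [map_add, dd_add, kd_add]
    ring
  have hmul : ∀ f g, h (f * g) = bcMap (algebraMap L M) Q f * h g +
      bcMap (algebraMap L M) Q g * h f := by
    intro f g
    apply Subtype.ext
    change (h (f * g) : KK I M) = kmap (algebraMap L M) (f : KK I L) * (h g : KK I M) +
      kmap (algebraMap L M) (g : KK I L) * (h f : KK I M)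
    rw [hh, hh, hh]
    change θ₀ * dd (kmap _ ((f : KK I L) * (g : KK I L))) - kd D ((f : KK I L) * (g : KK I L)) -
      θ * dd (kmap _ ((f : KK I L) * (g : KK I L))) = _
    rw [map_mul, dd_mul, kd_mul]
    ring
  have hcs : ∀ c : L, h (algebraMap L Q c) = - algebraMap M (bc (algebraMap L M) Q) (D c) := by
    intro c
    apply Subtype.ext
    change (h (algebraMap L Q c) : KK I M) = - algebraMap M (KK I M) (D c)
    rw [hh]
    change θ₀ * dd (kmap _ (algebraMap L (KK I L) c)) - kd D (algebraMap L (KK I L) c) -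
      θ * dd (kmap _ (algebraMap L (KK I L) c)) = _
    rw [kmap_algebraMap, dd_algebraMap, kd_algebraMap]
    ring
  have hdc : ∀ c : L, v 0 (bcMap (algebraMap L M) Q (algebraMap L Q c)) -
      x (h (algebraMap L Q c)) = D c := by
    intro c
    rw [hcst, hv0.cst, hcs, map_neg, AlgHom.commutes, zero_sub, neg_neg]
    rfl
  obtain ⟨E, hE⟩ := hext (fun f => v 0 (bcMap (algebraMap L M) Q f) - x (h f))
    (fun f g => by
      rw [hadd, map_add, map_add, hv0.add]
      ring)
    (fun f g => by
      rw [hmul, map_mul, map_add, map_mul, map_mul, hv0.mul]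
      change x _ * _ + x _ * _ - _ = _
      rw [hx, hx]
      ring)
    (fun c => by
      rw [hdc, Derivation.map_algebraMap])
  have hED : ∀ c : L, E (algebraMap L M c) = D c := by
    intro c
    rw [← hι, hE]
    exact hdc c
  refine ⟨E, θ, hθ, fun F => ?_⟩
  change Pr y θ₀ θ v E F
  refine AWB.bc_ind (algebraMap L M) hKBC (C := Pr y θ₀ θ v E) ?_
    (fun _ _ h₁ h₂ => h₁.add hv h₂) (fun c _ h₁ => h₁.smul hv c) F
  intro f
  refine ⟨h f, ?_, fun i => ?_⟩
  · rw [hh, bcMap_val, kadd_kmap D E hED]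
  · refine Fin.cases ?_ (fun i => ?_) i
    · rw [hy0, hx, hE]
      ring
    · rw [hys, KBP.app hp, hED]
      exact hh' f i

end step

section eps

variable {I K : Type} [Field K]

/-- The series `a + ε b`. -/
noncomputable def mkF (a b : KK I K) : KK I (Eps K) := fun i =>
  lmap (epsInl K) (a i) + epsL K * lmap (epsInl K) (b i)

theorem eps0_mkF (a b : KK I K) : kmap (eps0 K) (mkF a b) = a := by
  funext i
  ext m
  change eps0 K ((lmap (epsInl K) (a i) + epsL K * lmap (epsInl K) (b i)).coeff m) = _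
  rw [HahnSeries.coeff_add, coeff_epsL_mul]
  simp [epsInl, epsE]

theorem ksnd_mkF (a b : KK I K) : ksnd (mkF a b) = b := funext fun i => lsnd_inl (a i) (b i)

theorem ext_eps {F G : KK I (Eps K)} (h0 : kmap (eps0 K) F = kmap (eps0 K) G)
    (h1 : ksnd F = ksnd G) : F = G := by
  funext i
  have h2 : lmap (eps0 K) (F i) = lmap (eps0 K) (G i) := congrFun h0 i
  have h3 : lsnd (F i) = lsnd (G i) := congrFun h1 i
  rw [ls_eq (F i), ls_eq (G i), h2, h3]

end eps

/-- Genericity in terms of deformations. -/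
theorem toM {I K : Type} [Fintype I] [Field K] [Algebra ℂ K] {g n : ℕ}
    {P : Subalgebra K (KK I K)} {p : Fin n → (P →ₐ[K] K)} (hP : IsKr g P) (hS : SmC K P)
    (hV : GnrV P p) : GnrM P p := by
  intro δ q hq
  obtain ⟨E', hE'⟩ := (t_SCO.2 hS).2.2 (KK I K) (MM P) (mk P) (mk_surj P) δ
  obtain ⟨θ₀, hθ₀, -⟩ := (t_SKK t_KNZ t_SCO hP).2 hS E'
  have hδ : ∀ f : P, δ f = mk P (θ₀ * dd (f : KK I K)) := by
    intro f
    rw [← hE' f, hθ₀]
  have hmem : ∀ f : P, mkF (f : KK I K) (θ₀ * dd (f : KK I K)) ∈ Pdel P δ := by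
    intro f
    have h1 : kmap (eps0 K) (mkF (f : KK I K) (θ₀ * dd (f : KK I K))) ∈ P := by
      rw [eps0_mkF]
      exact f.2
    refine ⟨h1, ?_⟩
    have h2 : (⟨kmap (eps0 K) (mkF (f : KK I K) (θ₀ * dd (f : KK I K))), h1⟩ : P) = f :=
      Subtype.ext (eps0_mkF _ _)
    rw [h2, ksnd_mkF]
    exact hδ f
  let s : P → Pdel P δ := fun f => ⟨_, hmem f⟩
  have hs0 : ∀ f : P, kmap (eps0 K) (s f : KK I (Eps K)) = (f : KK I K) := fun f => eps0_mkF _ _
  have hs1 : ∀ f : P, ksnd (s f : KK I (Eps K)) = θ₀ * dd (f : KK I K) := fun f => ksnd_mkF _ _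
  have hfst : ∀ i (f : P), (q i (s f)).fst = p i f := fun i f => hq i (s f) f (hs0 f).symm
  have hsa : ∀ f g : P, s (f + g) = s f + s g := by
    intro f g
    apply Subtype.ext
    change (s (f + g) : KK I (Eps K)) = (s f : KK I (Eps K)) + (s g : KK I (Eps K))
    apply ext_eps
    · rw [map_add, hs0, hs0, hs0]
      rfl
    · rw [ksnd_add, hs1, hs1, hs1]
      change θ₀ * dd ((f : KK I K) + (g : KK I K)) = _
      rw [dd_add, mul_add]
  have hsm : ∀ f g : P, s (f * g) = s f * s g := by
    intro f g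
    apply Subtype.ext
    change (s (f * g) : KK I (Eps K)) = (s f : KK I (Eps K)) * (s g : KK I (Eps K))
    apply ext_eps
    · rw [map_mul, hs0, hs0, hs0]
      rfl
    · rw [ksnd_mul, hs1, hs1, hs1, hs0, hs0]
      change θ₀ * dd ((f : KK I K) * (g : KK I K)) = _
      rw [dd_mul]
      ring
  have hsc : ∀ c : K, s (algebraMap K P c) = algebraMap (Eps K) (Pdel P δ) (epsInl K c) := by
    intro c
    apply Subtype.ext
    change (s (algebraMap K P c) : KK I (Eps K)) =
      algebraMap (Eps K) (KK I (Eps K)) (epsInl K c)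
    apply ext_eps
    · rw [hs0, kmap_algebraMap]
      rfl
    · rw [hs1, ksnd_algebraMap]
      change θ₀ * dd (algebraMap K (KK I K) c) = algebraMap K (KK I K) 0
      rw [dd_algebraMap, mul_zero, map_zero]
  have hv : ∀ i, IsDr (K := K) (p i : P →+* K) (fun f => (q i (s f)).snd) := by
    intro i
    refine ⟨fun f g => ?_, fun f g => ?_, fun c => ?_⟩
    · change (q i (s (f + g))).snd = _
      rw [hsa, map_add, TrivSqZeroExt.snd_add]
    · change (q i (s (f * g))).snd = p i f * (q i (s g)).snd + p i g * (q i (s f)).snd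
      rw [hsm, map_mul, ← hfst, ← hfst]
      change (q i (s f)).fst * (q i (s g)).snd + (q i (s f)).snd * (q i (s g)).fst = _
      ring
    · change (q i (s (algebraMap K P c))).snd = 0
      rw [hsc, AlgHom.commutes]
      rfl
  obtain ⟨D, θ, hθ, h⟩ := hV θ₀ _ hv
  refine ⟨D, θ, hθ, fun f => ?_, fun i F f hF hFs => ?_⟩
  · obtain ⟨a, ha, -⟩ := h f
    rw [hδ, ← map_add, mk_eq]
    have h1 : θ₀ * dd (f : KK I K) - (kadd (D : K →+ K) (f : KK I K) + θ * dd (f : KK I K)) =
        (a : KK I K) := by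
      rw [ha]
      ring
    rw [h1]
    exact a.2
  · obtain ⟨a, ha, ha'⟩ := h f
    have h1 : F + algebraMap (Eps K) (Pdel P δ) (epsE K) * s a = s f := by
      apply Subtype.ext
      change (F : KK I (Eps K)) + algebraMap (Eps K) (KK I (Eps K)) (epsE K) *
        (s a : KK I (Eps K)) = (s f : KK I (Eps K))
      apply ext_eps
      · rw [map_add, map_mul, kmap_algebraMap, hs0, hs0, ← hF]
        have h2 : eps0 K (epsE K) = 0 := rfl
        rw [h2, map_zero, zero_mul, add_zero]
      · rw [ksnd_add, ksnd_mul, kmap_algebraMap, ksnd_algebraMap, hs0, hs1 a, hs1 f, hFs]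
        have h2 : eps0 K (epsE K) = 0 := rfl
        have h3 : (epsE K).snd = 1 := rfl
        rw [h2, h3, map_zero, map_one, zero_mul, zero_add, mul_one, ha]
        ring
    have h2 : (q i F).snd + p i a = (q i (s f)).snd := by
      rw [← h1, map_add, map_mul, AlgHom.commutes, TrivSqZeroExt.snd_add, ← hfst]
      congr 1
      change _ = (0 : K) * (q i (s a)).snd + 1 * (q i (s a)).fst
      rw [zero_mul, zero_add, one_mul]
    have h3 := ha' i
    change (q i (s f)).snd = _ at h3
    rw [← h2] at h3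
    exact add_right_cancel h3

theorem hKBC : Stmt_KBC := t_KBC (t_KFO t_KDU) t_KNZ (t_KSP t_KNZ)

theorem hKBT : Stmt_KBT := t_KBT (t_KSP t_KNZ) hKBC

section points

variable {I L M : Type} [Fintype I] [Nonempty I] [Field L] [Field M] [Algebra L M]
  {Q : Subalgebra L (KK I L)}

/-- A homomorphism from `Q` gives a point of the base change. -/
theorem exists_x {g : ℕ} (hQ : IsKr g Q) (ι : Q →+* M)
    (hι : ∀ c, ι (algebraMap L Q c) = algebraMap L M c) :
    ∃ x : bc (algebraMap L M) Q →ₐ[M] M, ∀ f : Q, x (bcMap (algebraMap L M) Q f) = ι f := by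
  obtain ⟨-, e, he⟩ := hKBT (B := M) hQ
  let ι' : Q →ₐ[L] M := { ι with commutes' := hι }
  refine ⟨(Algebra.TensorProduct.lift (AlgHom.id M M) ι' (fun _ _ => Commute.all _ _)).comp
    (e.symm : bc (algebraMap L M) Q →ₐ[M] M ⊗[L] Q), fun f => ?_⟩
  have h1 : e (1 ⊗ₜ f) = bcMap (algebraMap L M) Q f := by
    apply Subtype.ext
    rw [he, one_smul]
    rfl
  rw [AlgHom.comp_apply, ← h1]
  change (Algebra.TensorProduct.lift (AlgHom.id M M) ι' (fun _ _ => Commute.all _ _))
    (e.symm (e (1 ⊗ₜ f))) = _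
  rw [AlgEquiv.symm_apply_apply, Algebra.TensorProduct.lift_tmul, map_one, one_mul]
  rfl

/-- Base change of the type. -/
theorem typeS_bc {g : ℕ} (hQ : IsKr g Q) (hS : TypeS Q) : TypeS (bc (algebraMap L M) Q) := by
  refine ⟨?_, SDB.SmC_bc hKBT (t_SBC t_SCO t_LOC) hQ hS.2 _⟩
  obtain ⟨-, e, -⟩ := hKBT (B := M) hQ
  have h1 : Algebra.FormallySmooth L Q := hS.1
  exact Algebra.FormallySmooth.of_equiv e

end points

/-- Different points have comaximal ideals. -/
theorem sup_top {M R : Type} [Field M] [CommRing R] [Algebra M R] {a b : R →ₐ[M] M}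
    (h : a ≠ b) : RingHom.ker a ⊔ RingHom.ker b = ⊤ := by
  have hmax : ∀ c : R →ₐ[M] M, (RingHom.ker c).IsMaximal := fun c =>
    RingHom.ker_isMaximal_of_surjective c fun y => ⟨algebraMap M R y, by
      rw [AlgHom.commutes]
      rfl⟩
  have := hmax a
  have := hmax b
  refine Ideal.IsMaximal.coprime_of_ne (hmax a) (hmax b) fun hab => h ?_
  ext f
  have h1 : f - algebraMap M R (a f) ∈ RingHom.ker b := by
    rw [← hab]
    exact KNSx.sub_mem a f
  rw [RingHom.mem_ker, map_sub, AlgHom.commutes, sub_eq_zero] at h1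
  exact h1.symm

/-- The step of the induction. -/
theorem step {I L M : Type} [Fintype I] [Nonempty I] [Field L] [Field M] [Algebra ℂ L]
    [Algebra ℂ M] [Algebra L M] [IsScalarTower ℂ L M] {g : ℕ} {Q : Subalgebra L (KK I L)}
    (hQ : IsKr g Q) (hS : TypeS Q) {n : ℕ} {p : Fin n → (Q →ₐ[L] L)} (hm : Marks Q p)
    (hG : GnrV Q p) (ι : Q →+* M) (hinj : Function.Injective ι)
    (hι : ∀ c, ι (algebraMap L Q c) = algebraMap L M c)
    (hext : ∀ d : Q → M, (∀ f g, d (f + g) = d f + d g) →
      (∀ f g, d (f * g) = ι f * d g + ι g * d f) →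
      (∀ c : ℂ, d (algebraMap L Q (algebraMap ℂ L c)) = 0) →
      ∃ D : Derivation ℂ M M, ∀ s, D (ι s) = d s) :
    ∃ y : Fin (n + 1) → (bc (algebraMap L M) Q →ₐ[M] M), TypeS (bc (algebraMap L M) Q) ∧
      Marks (bc (algebraMap L M) Q) y ∧ GnrV (bc (algebraMap L M) Q) y := by
  obtain ⟨p', hp⟩ := (t_KBP hKBT hKBC).1 hQ (algebraMap L M) p
  obtain ⟨x, hx⟩ := exists_x hQ ι hι
  have hS' := typeS_bc (M := M) hQ hS
  have hne : ∀ j, x ≠ p' j := by
    intro j hj
    obtain ⟨⟨z⟩, -⟩ := t_PLE hQ
    have h1 : z.z = algebraMap L Q (p j z.z) := by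
      apply hinj
      rw [hι, ← KBP.app hp, ← hx, hj]
    let i : I := Classical.arbitrary I
    have h2 := z.mon.2 i
    have h3 : (z.z : KK I L) = algebraMap L (KK I L) (p j z.z) := congrArg Subtype.val h1
    have hd := z.pos
    rw [h3, Pi.algebraMap_apply, coeff_algebraMap, if_neg (by omega)] at h2
    exact zero_ne_one h2
  let y : Fin (n + 1) → (bc (algebraMap L M) Q →ₐ[M] M) := Fin.cons x p'
  have hy0 : y 0 = x := rfl
  have hys : ∀ i : Fin n, y i.succ = p' i := fun i => rfl
  refine ⟨y, hS', ⟨fun i j hij => ?_, fun i => KNSx.cot (y i) hS'.2⟩,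
    main hKBC hG hp hm.sm x ι hι hx hext y hy0 hys⟩
  refine sup_top ?_
  induction i using Fin.cases with
  | zero =>
    induction j using Fin.cases with
    | zero => exact absurd rfl hij
    | succ j =>
      rw [hy0, hys]
      exact hne j
  | succ i =>
    induction j using Fin.cases with
    | zero =>
      rw [hy0, hys]
      exact (hne i).symm
    | succ j =>
      rw [hys, hys]
      intro h1
      have h2 := KBP.dis hp hm i j (fun h => hij (congrArg Fin.succ h))
      rw [h1, sup_idem] at h2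
      exact RingHom.ker_ne_top _ h2

end GNP

open _root_.Pool.Agent.MG.KX.GNP in
/-- GNP: generic points. -/
theorem t_GNP (hKDM : Stmt_KDM) (_hGNB : Stmt_GNB) : Stmt_GNP := by
  intro I K _ _ _ _ _ g P hP hS hG n
  have key : ∀ n : ℕ, ∃ (L : Type) (_ : Field L) (_ : IsAlgClosed L) (_ : Algebra ℂ L)
      (φ : K →ₐ[ℂ] L) (p : Fin n → (bc (φ : K →+* L) P →ₐ[L] L)),
      TypeS (bc (φ : K →+* L) P) ∧ Marks (bc (φ : K →+* L) P) p ∧
        GnrV (bc (φ : K →+* L) P) p := by
    intro n
    induction n with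
    | zero =>
      refine ⟨K, inferInstance, inferInstance, inferInstance, AlgHom.id ℂ K, ?_⟩
      have e : bc ((AlgHom.id ℂ K : K →ₐ[ℂ] K) : K →+* K) P = P := hKBC.2.2.1 P
      rw [e]
      refine ⟨nop P, hS, ⟨fun i => i.elim0, fun i => i.elim0⟩, fun θ₀ v _ => ?_⟩
      obtain ⟨D, θ, hθ, h⟩ := hG (tder P θ₀)
      refine ⟨D, θ, hθ, fun f => ?_⟩
      have h1 := h f
      rw [tder_apply, ← map_add, mk_eq] at h1
      refine ⟨⟨_, h1⟩, ?_, fun i => i.elim0⟩
      change θ₀ * dd (f : KK I K) - (kadd (D : K →+ K) (f : KK I K) + θ * dd (f : KK I K)) = _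
      ring
    | succ n ih =>
      obtain ⟨L, _, _, _, φ, p, h1, h2, h3⟩ := ih
      have hQ : IsKr g (bc (φ : K →+* L) P) := (hKBC.2.2.2 hP _).1
      have hd : IsDomain (bc (φ : K →+* L) P) := (hKDM hQ h1).1
      obtain ⟨M, _, _, _, ψ, ι, hinj, hι, hext⟩ :=
        exists_ext (L := L) (S := bc (φ : K →+* L) P)
      let _ : Algebra L M := (ψ : L →+* M).toAlgebra
      have hst : IsScalarTower ℂ L M :=
        IsScalarTower.of_algebraMap_eq fun c => (ψ.commutes c).symm
      refine ⟨M, inferInstance, inferInstance, inferInstance, ψ.comp φ, ?_⟩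
      have e : bc ((ψ.comp φ : K →ₐ[ℂ] M) : K →+* M) P =
          bc (algebraMap L M) (bc (φ : K →+* L) P) := hKBC.2.1 _ _ P
      rw [e]
      exact step hQ h1 h2 h3 ι hinj hι hext
  obtain ⟨L, i1, i2, i3, φ, p, h1, h2, h3⟩ := key n
  exact ⟨L, i1, i2, i3, φ, p, h1, h2, toM (hKBC.2.2.2 hP _).1 h1.2 h3⟩

end Pool.Agent.MG.KX


end
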