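import Mathlib
import Pool.Agent.KDM.C08
import Pool.Agent.KDM.C15
import Pool.Agent.KDM.C25
import Pool.Agent.KDM.C26
import Pool.Agent.KDM.C28
import Pool.Agent.KDM.C30
import Pool.Agent.KDM.C35
import Pool.Agent.KDM.C37

/-! Parts: MG.KX.PDA -/

section

/-!
# PDA: addition of first order deformations of Krichever rings
-/

namespace Pool.Agent.MG.KX

open Pool.Agent.MG.G0

namespace PDA

section

variable {I A B C : Type} [CommRing A] [CommRing B] [CommRing C]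

theorem kbc : Stmt_KBC := t_KBC (t_KFO t_KDU) t_KNZ (t_KSP t_KNZ)

theorem kfl : Stmt_KFL := t_KFL (t_KSP t_KNZ)

/-- Base change along a surjection: the image. -/
theorem bc_surj {φ : A →+* B} (hφ : Function.Surjective φ) {P : Subalgebra A (KK I A)} {f : KK I B}
    (hf : f ∈ bc φ P) : ∃ F ∈ P, kmap φ F = f := by
  induction hf using Algebra.adjoin_induction with
  | mem x hx =>
    obtain ⟨F, hF, rfl⟩ := hx
    exact ⟨F, hF, rfl⟩
  | algebraMap b =>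
    obtain ⟨a, rfl⟩ := hφ b
    exact ⟨algebraMap A (KK I A) a, P.algebraMap_mem a, kmap_algebraMap φ a⟩
  | add x y _ _ hx hy =>
    obtain ⟨F, hF, rfl⟩ := hx
    obtain ⟨G, hG, rfl⟩ := hy
    exact ⟨F + G, add_mem hF hG, map_add _ _ _⟩
  | mul x y _ _ hx hy =>
    obtain ⟨F, hF, rfl⟩ := hx
    obtain ⟨G, hG, rfl⟩ := hy
    exact ⟨F * G, mul_mem hF hG, map_mul _ _ _⟩

theorem bc_le {φ : A →+* B} {P : Subalgebra A (KK I A)} {Q : Subalgebra B (KK I B)}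
    (h : ∀ F ∈ P, kmap φ F ∈ Q) : bc φ P ≤ Q := by
  refine Algebra.adjoin_le ?_
  rintro _ ⟨F, hF, rfl⟩
  exact h F hF

theorem eps20_surj : Function.Surjective (eps20 A) := fun a => ⟨TrivSqZeroExt.inl a, rfl⟩

/-- The reduction of the specialisations. -/
theorem red (a b : A) (F : KK I (Eps2 A)) :
    kmap (eps0 A) (kmap (epsPair a b) F) = kmap (eps20 A) F := by
  funext i
  ext n
  simp

theorem snd11 (F : KK I (Eps2 A)) : ksnd (kmap (epsPair (1 : A) 1) F) =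
    ksnd (kmap (epsPair (1 : A) 0) F) + ksnd (kmap (epsPair (0 : A) 1) F) := by
  funext i
  ext n
  simp

/-- `f + ε₁ h₁ + ε₂ h₂`. -/
noncomputable def ser (f h₁ h₂ : LaurentSeries A) : LaurentSeries (Eps2 A) :=
  lmap (TrivSqZeroExt.inlHom A (A × A)) f +
    (TrivSqZeroExt.inr ((1 : A), (0 : A)) : Eps2 A) • lmap (TrivSqZeroExt.inlHom A (A × A)) h₁ +
    (TrivSqZeroExt.inr ((0 : A), (1 : A)) : Eps2 A) • lmap (TrivSqZeroExt.inlHom A (A × A)) h₂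

theorem ser_coeff (f h₁ h₂ : LaurentSeries A) (n : ℤ) : (ser f h₁ h₂).coeff n =
    TrivSqZeroExt.inl (f.coeff n) + TrivSqZeroExt.inr (h₁.coeff n, h₂.coeff n) := by
  rw [ser, HahnSeries.coeff_add, HahnSeries.coeff_add, HahnSeries.coeff_smul,
    HahnSeries.coeff_smul, lmap_coeff, lmap_coeff, lmap_coeff]
  ext <;> simp

/-- `f + ε₁ h₁ + ε₂ h₂`. -/
noncomputable def kser (f h₁ h₂ : KK I A) : KK I (Eps2 A) := fun i => ser (f i) (h₁ i) (h₂ i)

theorem kser_red (f h₁ h₂ : KK I A) : kmap (eps20 A) (kser f h₁ h₂) = f := by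
  funext i
  ext n
  simp [kser, ser_coeff]

theorem kser_snd (a b : A) (f h₁ h₂ : KK I A) :
    ksnd (kmap (epsPair a b) (kser f h₁ h₂)) = a • h₁ + b • h₂ := by
  funext i
  ext n
  simp [kser, ser_coeff]

/-- The deformation with classes `δ₁`, `δ₂`. -/
noncomputable def QQ (P : Subalgebra A (KK I A)) (δ₁ δ₂ : DD P) :
    Subalgebra (Eps2 A) (KK I (Eps2 A)) where
  carrier := {F | kmap (epsPair (1 : A) 0) F ∈ Pdel P δ₁ ∧ kmap (epsPair (0 : A) 1) F ∈ Pdel P δ₂}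
  mul_mem' := by
    rintro F G ⟨h1, h2⟩ ⟨h3, h4⟩
    refine ⟨?_, ?_⟩
    · rw [map_mul]
      exact mul_mem h1 h3
    · rw [map_mul]
      exact mul_mem h2 h4
  add_mem' := by
    rintro F G ⟨h1, h2⟩ ⟨h3, h4⟩
    refine ⟨?_, ?_⟩
    · rw [map_add]
      exact add_mem h1 h3
    · rw [map_add]
      exact add_mem h2 h4
  algebraMap_mem' c := by
    refine ⟨?_, ?_⟩
    · rw [kmap_algebraMap]
      exact (Pdel P δ₁).algebraMap_mem _
    · rw [kmap_algebraMap]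
      exact (Pdel P δ₂).algebraMap_mem _

theorem mem_QQ {P : Subalgebra A (KK I A)} {δ₁ δ₂ : DD P} {F : KK I (Eps2 A)} : F ∈ QQ P δ₁ δ₂ ↔
    kmap (epsPair (1 : A) 0) F ∈ Pdel P δ₁ ∧ kmap (epsPair (0 : A) 1) F ∈ Pdel P δ₂ := Iff.rfl

/-- The classes of the specialisations of `F`. -/
theorem cls {P : Subalgebra A (KK I A)} {δ : DD P} {a b : A} {F : KK I (Eps2 A)}
    (h : kmap (epsPair a b) F ∈ Pdel P δ) : ∃ h' : kmap (eps20 A) F ∈ P,
      δ ⟨kmap (eps20 A) F, h'⟩ = mk P (ksnd (kmap (epsPair a b) F)) := by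
  obtain ⟨h1, h2⟩ := mem_Pdel.1 h
  have e : kmap (eps0 A) (kmap (epsPair a b) F) = kmap (eps20 A) F := red a b F
  refine ⟨e ▸ h1, ?_⟩
  rw [← h2]
  exact congrArg δ (Subtype.ext e.symm)

theorem cls' {P : Subalgebra A (KK I A)} {δ : DD P} {a b : A} {F : KK I (Eps2 A)}
    (h' : kmap (eps20 A) F ∈ P)
    (h : δ ⟨kmap (eps20 A) F, h'⟩ = mk P (ksnd (kmap (epsPair a b) F))) :
    kmap (epsPair a b) F ∈ Pdel P δ := by
  have e : kmap (eps0 A) (kmap (epsPair a b) F) = kmap (eps20 A) F := red a b F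
  refine mem_Pdel.2 ⟨e ▸ h', ?_⟩
  rw [← h]
  exact congrArg δ (Subtype.ext e)

/-- Lifting to `QQ`. -/
theorem lift_QQ {P : Subalgebra A (KK I A)} (δ₁ δ₂ : DD P) {f : KK I A} (hf : f ∈ P) :
    ∃ F ∈ QQ P δ₁ δ₂, kmap (eps20 A) F = f := by
  obtain ⟨h₁, e1⟩ := mk_surj P (δ₁ ⟨f, hf⟩)
  obtain ⟨h₂, e2⟩ := mk_surj P (δ₂ ⟨f, hf⟩)
  have hr : kmap (eps20 A) (kser f h₁ h₂) = f := kser_red f h₁ h₂
  have hm : kmap (eps20 A) (kser f h₁ h₂) ∈ P := by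
    rw [hr]
    exact hf
  refine ⟨kser f h₁ h₂, ⟨cls' hm ?_, cls' hm ?_⟩, hr⟩
  · rw [kser_snd, one_smul, zero_smul, add_zero, e1]
    exact congrArg δ₁ (Subtype.ext hr)
  · rw [kser_snd, one_smul, zero_smul, zero_add, e2]
    exact congrArg δ₂ (Subtype.ext hr)

theorem bc_QQ (P : Subalgebra A (KK I A)) (δ₁ δ₂ : DD P) : bc (eps20 A) (QQ P δ₁ δ₂) = P := by
  refine le_antisymm (bc_le fun F hF => (cls hF.1).1) fun f hf => ?_
  obtain ⟨F, hF, rfl⟩ := lift_QQ δ₁ δ₂ hf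
  exact kmap_mem_bc _ hF

theorem ker_sq : RingHom.ker (eps20 A) ^ 2 = ⊥ := by
  rw [eq_bot_iff, pow_two, Ideal.mul_le]
  intro x hx y hy
  have hx' : x.fst = 0 := hx
  have hy' : y.fst = 0 := hy
  rw [Ideal.mem_bot]
  ext <;> simp [hx', hy']

/-- The kernel of the reduction. -/
theorem ker_QQ {P : Subalgebra A (KK I A)} {δ₁ δ₂ : DD P} {p : KK I (Eps2 A)}
    (hp : p ∈ QQ P δ₁ δ₂) (h0 : kmap (eps20 A) p = 0) :
    p ∈ RingHom.ker (eps20 A) • Subalgebra.toSubmodule (QQ P δ₁ δ₂) := by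
  obtain ⟨a1, b1⟩ := cls hp.1
  obtain ⟨a2, b2⟩ := cls hp.2
  have z : (⟨kmap (eps20 A) p, a1⟩ : P) = 0 := Subtype.ext h0
  rw [z, map_zero] at b1 b2
  have m1 : ksnd (kmap (epsPair (1 : A) 0) p) ∈ P := mk_zero.1 b1.symm
  have m2 : ksnd (kmap (epsPair (0 : A) 1) p) ∈ P := mk_zero.1 b2.symm
  obtain ⟨H1, hH1, r1⟩ := lift_QQ δ₁ δ₂ m1
  obtain ⟨H2, hH2, r2⟩ := lift_QQ δ₁ δ₂ m2
  have e : p = (TrivSqZeroExt.inr ((1 : A), (0 : A)) : Eps2 A) • H1 +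
      (TrivSqZeroExt.inr ((0 : A), (1 : A)) : Eps2 A) • H2 := by
    funext i
    have s0 : ∀ n, ((p i).coeff n).fst = 0 := fun n => by
      have := congrArg (fun f : KK I A => (f i).coeff n) h0
      exact this
    have s1 : ∀ n, ((H1 i).coeff n).fst = ((p i).coeff n).snd.1 := fun n => by
      have := congrArg (fun f : KK I A => (f i).coeff n) r1
      simpa using this
    have s2 : ∀ n, ((H2 i).coeff n).fst = ((p i).coeff n).snd.2 := fun n => by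
      have := congrArg (fun f : KK I A => (f i).coeff n) r2
      simpa using this
    refine HahnSeries.ext (funext fun n => ?_)
    rw [Pi.add_apply, HahnSeries.coeff_add, Pi.smul_apply, Pi.smul_apply, HahnSeries.coeff_smul,
      HahnSeries.coeff_smul]
    ext <;> simp [s0, s1, s2]
  rw [e]
  refine add_mem (Submodule.smul_mem_smul ?_ hH1) (Submodule.smul_mem_smul ?_ hH2)
  · rfl
  · rfl

theorem kr_QQ [Fintype I] [Nonempty I] {g : ℕ} {P : Subalgebra A (KK I A)} (hP : IsKr g P)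
    (δ₁ δ₂ : DD P) : IsKr g (QQ P δ₁ δ₂) := by
  refine kfl (eps20 A) eps20_surj ⟨2, ker_sq⟩ (QQ P δ₁ δ₂) ?_ fun p hp h0 => ker_QQ hp h0
  rw [bc_QQ]
  exact hP

theorem add11 {P : Subalgebra A (KK I A)} {δ₁ δ₂ : DD P} {F : KK I (Eps2 A)}
    (h1 : kmap (epsPair (1 : A) 0) F ∈ Pdel P δ₁) (h2 : kmap (epsPair (0 : A) 1) F ∈ Pdel P δ₂) :
    kmap (epsPair (1 : A) 1) F ∈ Pdel P (δ₁ + δ₂) := by
  obtain ⟨a1, b1⟩ := cls h1
  obtain ⟨a2, b2⟩ := cls h2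
  refine cls' a1 ?_
  rw [Derivation.add_apply, b1, b2, snd11, map_add]

end

end PDA

open _root_.Pool.Agent.MG.KX.PDA in
theorem t_PDA (hPDK : Stmt_PDK) : Stmt_PDA := by
  constructor
  · intro I A _ _ _ g P Q _ _ hQ δ₁ δ₂ δ h1 h2 h
    refine Derivation.ext fun f => ?_
    have hf : (f : KK I A) ∈ bc (eps20 A) Q := by
      rw [hQ]
      exact f.2
    obtain ⟨F, hF, hFf⟩ := bc_surj eps20_surj hf
    have m1 : kmap (epsPair (1 : A) 0) F ∈ Pdel P δ₁ := by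
      rw [← h1]
      exact kmap_mem_bc _ hF
    have m2 : kmap (epsPair (0 : A) 1) F ∈ Pdel P δ₂ := by
      rw [← h2]
      exact kmap_mem_bc _ hF
    have m : kmap (epsPair (1 : A) 1) F ∈ Pdel P δ := by
      rw [← h]
      exact kmap_mem_bc _ hF
    obtain ⟨a, b⟩ := cls m
    obtain ⟨a', b'⟩ := cls (add11 m1 m2)
    have e : (⟨kmap (eps20 A) F, a⟩ : P) = f := Subtype.ext hFf
    rw [e] at b b'
    rw [b, b']
  · intro I A _ _ _ g P hP δ₁ δ₂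
    have hQ := kr_QQ hP δ₁ δ₂
    refine ⟨QQ P δ₁ δ₂, hQ, bc_QQ P δ₁ δ₂, ?_, ?_, ?_⟩
    · exact t_KEQ (kbc.2.2.2 hQ _).1 (hPDK hP δ₁).1 (bc_le fun F hF => hF.1)
    · exact t_KEQ (kbc.2.2.2 hQ _).1 (hPDK hP δ₂).1 (bc_le fun F hF => hF.2)
    · exact t_KEQ (kbc.2.2.2 hQ _).1 (hPDK hP (δ₁ + δ₂)).1 (bc_le fun F hF => add11 hF.1 hF.2)

end Pool.Agent.MG.KX


end
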