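import Mathlib
import Pool.Agent.KDM.C13
import Pool.Agent.KDM.C15
import Pool.Agent.KDM.C28
import Pool.Agent.KDM.C30
import Pool.Agent.KDM.C56

/-! Parts: MG.KX.MAI, MG.KX.MFA -/

section

/-!
# MAI: automorphisms which become trivial after base change
-/

open CategoryTheory CategoryTheory.Limits AlgebraicGeometry
open scoped TensorProduct

namespace Pool.Agent.MG.KX

open Pool.Agent.MG.G0 Pool.Agent.MG.GLU

namespace MAI

variable {I A B : Type} [CommRing A] [CommRing B]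

theorem psI_inj : Function.Injective (psI I A) := fun f h e =>
  funext fun i => psl_inj (congrFun e i)

theorem psI_psm (φ : A →+* B) (f : I → PowerSeries A) :
    psI I B (psm I φ f) = kmap φ (psI I A f) := by
  funext i
  ext m
  change (psl B (PowerSeries.map φ (f i))).coeff m = φ ((psl A (f i)).coeff m)
  rcases lt_or_ge m 0 with h | h
  · rw [psl_coeff_neg _ _ h, psl_coeff_neg _ _ h, map_zero]
  · obtain ⟨k, rfl⟩ := Int.eq_ofNat_of_zero_le h
    rw [psl_coeff, psl_coeff, PowerSeries.coeff_map]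

end MAI

open _root_.Pool.Agent.MG.KX.MAI in
/-- MAI: automorphisms which become trivial. -/
theorem t_MAI : Stmt_MAI := by
  intro I A B _ _ n P p P' p' x y φ a α h M M' q N hN hM
  have mem : ∀ f ∈ P.map (α : KK I A →ₐ[A] KK I A), kmap φ f ∈ P' := by
    rintro _ ⟨f, hf, rfl⟩
    change kmap φ (α f) ∈ P'
    rw [h]
    exact hM.mem f hf
  refine ⟨mem, ?_, ?_⟩
  · rw [hN.j, ← Category.assoc, spMap_comp'', hM.j]
    have e : (rres (kmap φ) mem).comp (rres (α : KK I A →+* KK I A)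
        (P' := P.map (α : KK I A →ₐ[A] KK I A)) fun f hf => ⟨f, hf, rfl⟩) =
        rres (kmap φ) hM.mem :=
      RingHom.ext fun f => Subtype.ext (h f)
    rw [e]
  · obtain ⟨ρ, hρ, hs⟩ := hN.sh
    rw [hs, ← Category.assoc, spMap_comp'', hM.sh]
    have e : (psm I φ).comp ρ = psm I φ := RingHom.ext fun f => psI_inj (by
      rw [RingHom.comp_apply, psI_psm, psI_psm, hρ, h])
    rw [e]

end Pool.Agent.MG.KX


end

section

/-!
# The complement of some of the punctures is affine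
-/

open CategoryTheory CategoryTheory.Limits AlgebraicGeometry
open scoped TensorProduct

namespace Pool.Agent.MG.KX

open Pool.Agent.MG.G0 Pool.Agent.MG.GLU

namespace MFA

/-! ## Schemes -/

/-- A union of two affine opens which are separated by a function is affine. -/
theorem two_affine {X : Scheme.{0}} {U U1 U2 : X.Opens} (h1 : IsAffineOpen U1)
    (h2 : IsAffineOpen U2) (le1 : U1 ≤ U) (le2 : U2 ≤ U) (f : Γ(X, U))
    (d1 : X.basicOpen f ≤ U1) (d2 : X.basicOpen (1 - f) ≤ U2) : IsAffineOpen U := by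
  refine isAffineOpen_of_isAffineOpen_basicOpen U {f, 1 - f} ?_ ?_
  · rw [Ideal.eq_top_iff_one, Ideal.mem_span_pair]
    exact ⟨1, 1, by ring⟩
  · rintro g (rfl | rfl)
    · have e : X.basicOpen (rs X le1 g) = X.basicOpen g :=
        (Scheme.basicOpen_res X g (homOfLE le1).op).trans (inf_eq_right.2 d1)
      rw [← e]
      exact h1.basicOpen _
    · have e : X.basicOpen (rs X le2 (1 - f)) = X.basicOpen (1 - f) :=
        (Scheme.basicOpen_res X (1 - f) (homOfLE le2).op).trans (inf_eq_right.2 d2)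
      rw [← e]
      exact h2.basicOpen _

theorem basicOpen_rs {X : Scheme.{0}} {U V : X.Opens} (h : U ≤ V) (f : Γ(X, V)) :
    X.basicOpen (rs X h f) = U ⊓ X.basicOpen f :=
  Scheme.basicOpen_res X f (homOfLE h).op

theorem mem_basicOpen_gm {R : Type} [CommRing R] {X : Scheme.{0}} (i : Sp R ⟶ X) (U : X.Opens)
    (h : ⊤ ≤ i ⁻¹ᵁ U) (v : Γ(X, U)) (x : Sp R) :
    i x ∈ X.basicOpen v ↔ gm i U h v ∉ x.asIdeal := by
  have h1 : x ∈ i ⁻¹ᵁ (X.basicOpen v) ↔ x ∈ (Sp R).basicOpen (i.appLE U ⊤ h v) := by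
    rw [Scheme.basicOpen_appLE, top_inf_eq]
  rw [basicOpen_eq_of_affine'] at h1
  exact h1

theorem isUnit_rs {X : Scheme.{0}} {U V : X.Opens} (f : Γ(X, V)) (h : U ≤ V)
    (hf : U ≤ X.basicOpen f) : IsUnit (rs X h f) := by
  have h1 : IsUnit (rs X (X.basicOpen_le f) f) := X.toRingedSpace.isUnit_res_basicOpen f
  have h2 := h1.map (rs X hf)
  rwa [AFF.rs_rs] at h2

/-- A closed subset of a proper scheme in an affine open subset is integral over the base. -/
theorem integral_of_closed {A W : Type} [CommRing A] [CommRing W] [Algebra A W] {X : Scheme.{0}}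
    (π : X ⟶ Sp A) [IsProper π] (j : Sp W ⟶ X) [IsOpenImmersion j]
    (hj : j ≫ π = spMap (algebraMap A W)) (V : X.Opens) (hV : ∀ x : X, x ∈ Set.range j ∨ x ∈ V)
    (z : W) : ∃ F : Polynomial A, F.Monic ∧ ∀ p : Sp W, j p ∉ V →
      Polynomial.aeval z F ∈ p.asIdeal := by
  let C : Set (PrimeSpectrum W) := {p | j (show Sp W from p) ∉ V}
  have hC : IsClosed C := by
    have h1 : IsClosed (Vᶜ : Set X) := V.isOpen.isClosed_compl
    exact h1.preimage j.continuous
  let 𝔞 : Ideal W := PrimeSpectrum.vanishingIdeal C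
  have h𝔞 : PrimeSpectrum.zeroLocus (𝔞 : Set W) = C := by
    rw [PrimeSpectrum.zeroLocus_vanishingIdeal_eq_closure, hC.closure_eq]
  let ι : Sp (W ⧸ 𝔞) ⟶ Sp W := spMap (Ideal.Quotient.mk 𝔞)
  have hι : IsClosedImmersion ι :=
    IsClosedImmersion.spec_of_surjective _ Ideal.Quotient.mk_surjective
  have hr : Set.range ι = C := by
    have h1 : Set.range (PrimeSpectrum.comap (Ideal.Quotient.mk 𝔞)) = C := by
      rw [range_comap_of_surjective _ _ Ideal.Quotient.mk_surjective,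
        Ideal.mk_ker, h𝔞]
    exact h1
  have hcl : IsClosed (Set.range (ι ≫ j)) := by
    have h1 : Set.range (ι ≫ j) = (Vᶜ : Set X) := by
      ext x
      constructor
      · rintro ⟨p, rfl⟩
        have : ι p ∈ C := by
          rw [← hr]
          exact ⟨p, rfl⟩
        rw [Scheme.Hom.comp_apply]
        exact this
      · intro hx
        obtain ⟨q, rfl⟩ := (hV x).resolve_right hx
        have h2 : q ∈ Set.range ι := by
          rw [hr]
          exact hx
        obtain ⟨p, rfl⟩ := h2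
        exact ⟨p, Scheme.Hom.comp_apply _ _ _⟩
    rw [h1]
    exact V.isOpen.isClosed_compl
  have hci : IsClosedImmersion (ι ≫ j) := IsClosedImmersion.of_isPreimmersion _ hcl
  have hcomp : (ι ≫ j) ≫ π = spMap (algebraMap A (W ⧸ 𝔞)) := by
    rw [Category.assoc, hj, spMap_comp'']
  have huc : UniversallyClosed ((ι ≫ j) ≫ π) := inferInstance
  rw [hcomp] at huc
  have hint : IsIntegralHom (spMap (algebraMap A (W ⧸ 𝔞))) :=
    IsIntegralHom.iff_universallyClosed_and_isAffineHom.2 ⟨huc, inferInstance⟩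
  have hint' : (algebraMap A (W ⧸ 𝔞)).IsIntegral := IsIntegralHom.SpecMap_iff.1 hint
  obtain ⟨F, hF, hF0⟩ := hint' (Ideal.Quotient.mk 𝔞 z)
  refine ⟨F, hF, fun p hp => ?_⟩
  have h3 : Polynomial.aeval z F ∈ 𝔞 := by
    rw [← Ideal.Quotient.eq_zero_iff_mem, Polynomial.aeval_def, Polynomial.hom_eval₂]
    exact hF0
  exact (PrimeSpectrum.mem_vanishingIdeal _ _).1 h3 p hp

/-! ## The punctures -/

section

variable {I J A : Type} [CommRing A]

theorem range_inl : Set.range (spMap (idx (R := A) (Sum.inl : I → I ⊕ J))) =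
    {p : Sp (I ⊕ J → A) | (fun k => Sum.elim (fun _ => 0) (fun _ => 1) k : I ⊕ J → A) ∈ p.asIdeal} := by
  have hs : Function.Surjective (idx (R := A) (Sum.inl : I → I ⊕ J)) := fun f =>
    ⟨Sum.elim f 0, funext fun i => rfl⟩
  have h1 : Set.range (PrimeSpectrum.comap (idx (R := A) (Sum.inl : I → I ⊕ J))) = _ :=
    range_comap_of_surjective _ _ hs
  refine h1.trans ?_
  ext p
  rw [PrimeSpectrum.mem_zeroLocus]
  constructor
  · intro h
    exact h (RingHom.mem_ker.2 (funext fun i => rfl))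
  · intro h f hf
    have e : f = f * (fun k => Sum.elim (fun _ => 0) (fun _ => 1) k : I ⊕ J → A) := by
      funext k
      rcases k with i | j
      · have : f (Sum.inl i) = 0 := congrFun (RingHom.mem_ker.1 hf) i
        rw [this, Pi.mul_apply, this, zero_mul]
      · rw [Pi.mul_apply]
        exact (mul_one _).symm
    rw [e]
    exact Ideal.mul_mem_left _ _ h

theorem range_inr : Set.range (spMap (idx (R := A) (Sum.inr : J → I ⊕ J))) =
    {p : Sp (I ⊕ J → A) | (fun k => Sum.elim (fun _ => 1) (fun _ => 0) k : I ⊕ J → A) ∈ p.asIdeal} := by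
  have hs : Function.Surjective (idx (R := A) (Sum.inr : J → I ⊕ J)) := fun f =>
    ⟨Sum.elim 0 f, funext fun i => rfl⟩
  have h1 : Set.range (PrimeSpectrum.comap (idx (R := A) (Sum.inr : J → I ⊕ J))) = _ :=
    range_comap_of_surjective _ _ hs
  refine h1.trans ?_
  ext p
  rw [PrimeSpectrum.mem_zeroLocus]
  constructor
  · intro h
    exact h (RingHom.mem_ker.2 (funext fun i => rfl))
  · intro h f hf
    have e : f = f * (fun k => Sum.elim (fun _ => 1) (fun _ => 0) k : I ⊕ J → A) := by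
      funext k
      rcases k with i | j
      · rw [Pi.mul_apply]
        exact (mul_one _).symm
      · have : f (Sum.inr j) = 0 := congrFun (RingHom.mem_ker.1 hf) j
        rw [this, Pi.mul_apply, this, zero_mul]
    rw [e]
    exact Ideal.mul_mem_left _ _ h

/-- A point of the punctures is in `I` or in `J`. -/
theorem split (p : Sp (I ⊕ J → A)) :
    (∃ p' : Sp (I → A), spMap (idx (R := A) (Sum.inl : I → I ⊕ J)) p' = p) ∨
      ∃ p' : Sp (J → A), spMap (idx (R := A) (Sum.inr : J → I ⊕ J)) p' = p := by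
  have h0 : (fun k => Sum.elim (fun _ => 0) (fun _ => 1) k : I ⊕ J → A) *
      (fun k => Sum.elim (fun _ => 1) (fun _ => 0) k : I ⊕ J → A) ∈ p.asIdeal := by
    have e : (fun k => Sum.elim (fun _ => 0) (fun _ => 1) k : I ⊕ J → A) *
        (fun k => Sum.elim (fun _ => 1) (fun _ => 0) k : I ⊕ J → A) = 0 := by
      funext k
      rcases k with i | j
      · exact zero_mul _
      · exact mul_zero _
    rw [e]
    exact zero_mem _
  rcases p.isPrime.mem_or_mem h0 with h | h
  · left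
    have : p ∈ Set.range (spMap (idx (R := A) (Sum.inl : I → I ⊕ J))) := by
      rw [range_inl]
      exact h
    exact this
  · right
    have : p ∈ Set.range (spMap (idx (R := A) (Sum.inr : J → I ⊕ J))) := by
      rw [range_inr]
      exact h
    exact this

theorem cc_idx {K L : Type} (e : K → L) : spMap (idx (R := A) e) ≫ spMap (ccI L A) =
    spMap (ccI K A) ≫ spMap (idx (R := PowerSeries A) e) := by
  rw [spMap_comp'', spMap_comp'']
  rfl

/-- `X` times a unit is not a zero divisor. -/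
theorem X_mul_cancel {K : Type} {u a b : K → PowerSeries A} (hu : IsUnit u) (N : ℕ)
    (h : ((fun _ => PowerSeries.X) * u) ^ N * a = ((fun _ => PowerSeries.X) * u) ^ N * b) :
    a = b := by
  obtain ⟨v, hv⟩ := hu.exists_right_inv
  funext k
  have h1 := congrFun h k
  have hv1 : u k * v k = 1 := congrFun hv k
  simp only [Pi.mul_apply, Pi.pow_apply, mul_pow] at h1
  have h2 : (PowerSeries.X : PowerSeries A) ^ N * (u k ^ N * a k) = PowerSeries.X ^ N * (u k ^ N * b k) := by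
    rw [← mul_assoc, ← mul_assoc]
    exact h1
  have h3 : u k ^ N * a k = u k ^ N * b k := PowerSeries.X_pow_mul_cancel h2
  have h4 : v k ^ N * (u k ^ N * a k) = v k ^ N * (u k ^ N * b k) := by rw [h3]
  have h5 : v k ^ N * u k ^ N = 1 := by rw [← mul_pow, mul_comm, hv1, one_pow]
  rw [← mul_assoc, ← mul_assoc, h5, one_mul, one_mul] at h4
  exact h4

theorem dvd_pow {K R : Type} [CommRing R] (G : R →+* (K → PowerSeries A)) (t : R)
    {u : K → PowerSeries A} (hu : IsUnit u) (htu : G t = (fun _ => PowerSeries.X) * u)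
    (hker : ∀ v, ccI K A (G v) = 0 → ∃ r, v = t * r) (N : ℕ) :
    ∀ (v : R) (w : K → PowerSeries A), G v = (fun _ => PowerSeries.X) ^ N * w →
      ∃ r, v = t ^ N * r := by
  obtain ⟨u', hu'⟩ := hu.exists_right_inv
  induction N with
  | zero => exact fun v w _ => ⟨v, by rw [pow_zero, one_mul]⟩
  | succ N ih =>
    intro v w hv
    have h0 : ccI K A (G v) = 0 := by
      rw [hv, pow_succ', mul_assoc, map_mul]
      have : ccI K A (fun _ => PowerSeries.X) = 0 := funext fun k => by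
        rw [ccI_apply, PowerSeries.constantCoeff_X]
        rfl
      rw [this, zero_mul]
    obtain ⟨r, rfl⟩ := hker v h0
    rw [map_mul, htu] at hv
    have h1 : u * G r = (fun _ => PowerSeries.X) ^ N * w := by
      have h2 : ((fun _ => PowerSeries.X) * (1 : K → PowerSeries A)) ^ 1 * (u * G r) =
          ((fun _ => PowerSeries.X) * (1 : K → PowerSeries A)) ^ 1 *
            ((fun _ => PowerSeries.X) ^ N * w) := by
        rw [mul_one, pow_one, ← mul_assoc, hv, pow_succ', mul_assoc]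
      exact X_mul_cancel isUnit_one 1 h2
    obtain ⟨r', hr'⟩ := ih r (w * u') (by
      rw [← mul_assoc, ← h1, mul_right_comm, hu', one_mul])
    exact ⟨r', by rw [hr', pow_succ', mul_assoc]⟩

/-- The local computation at the punctures. -/
theorem key {R : Type} [CommRing R] (G : R →+* (I ⊕ J → PowerSeries A)) (t : R)
    {u : I ⊕ J → PowerSeries A} (hu : IsUnit u) (htu : G t = (fun _ => PowerSeries.X) * u)
    (hker : ∀ v, ccI (I ⊕ J) A (G v) = 0 → ∃ r, v = t * r) (hJ v : R)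
    (hI0 : ∀ i, PowerSeries.constantCoeff (G hJ (Sum.inl i)) = 0)
    (hJ1 : ∀ j, PowerSeries.constantCoeff (G hJ (Sum.inr j)) = 1) (N : ℕ) (H : KK (I ⊕ J) A)
    (hv : psI (I ⊕ J) A (G v) = psI (I ⊕ J) A (G t) ^ N * H)
    (h0 : ∀ j, ∀ m < 0, (H (Sum.inr j)).coeff m = 0) (h1 : ∀ j, (H (Sum.inr j)).coeff 0 = 1) :
    ∃ r, hJ ^ N * v = t ^ N * r ∧ ∀ j, PowerSeries.constantCoeff (G r (Sum.inr j)) = 1 := by
  have e1 : ∀ j, G v (Sum.inr j) = G t (Sum.inr j) ^ N * tops A (H (Sum.inr j)) := by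
    intro j
    apply psl_inj
    have h := congrFun hv (Sum.inr j)
    rw [Pi.mul_apply, Pi.pow_apply, psI_apply, psI_apply] at h
    rw [map_mul, map_pow, psl_tops (h0 j)]
    exact h
  choose a ha using fun i => PowerSeries.X_dvd_iff.2 (hI0 i)
  have hJv : G (hJ ^ N * v) = (fun _ => PowerSeries.X) ^ N *
      (fun k => Sum.elim (fun i => a i ^ N * G v (Sum.inl i))
        (fun j => G hJ (Sum.inr j) ^ N * (u (Sum.inr j) ^ N * tops A (H (Sum.inr j)))) k) := by
    funext k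
    rw [map_mul, map_pow, Pi.mul_apply, Pi.pow_apply, Pi.mul_apply, Pi.pow_apply]
    rcases k with i | j
    · rw [ha i, mul_pow, mul_assoc]
      rfl
    · rw [e1, htu, Pi.mul_apply, mul_pow]
      change _ = PowerSeries.X ^ N * (G hJ (Sum.inr j) ^ N *
        (u (Sum.inr j) ^ N * tops A (H (Sum.inr j))))
      ring
  obtain ⟨r, hr⟩ := dvd_pow G t hu htu hker N _ _ hJv
  refine ⟨r, hr, fun j => ?_⟩
  have e2 : G hJ (Sum.inr j) ^ N * tops A (H (Sum.inr j)) = G r (Sum.inr j) := by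
    have e3 : (fun _ : Unit => G hJ (Sum.inr j) ^ N * tops A (H (Sum.inr j))) =
        (fun _ : Unit => G r (Sum.inr j)) := by
      refine X_mul_cancel (u := fun _ : Unit => u (Sum.inr j)) ?_ N ?_
      · obtain ⟨u', hu'⟩ := hu.exists_right_inv
        exact IsUnit.of_mul_eq_one (fun _ => u' (Sum.inr j)) (funext fun _ => congrFun hu' _)
      · funext _
        have h := congrFun (congrArg G hr) (Sum.inr j)
        rw [map_mul, map_mul, map_pow, map_pow, htu, Pi.mul_apply, Pi.mul_apply, Pi.pow_apply,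
          Pi.pow_apply, Pi.mul_apply, e1, htu, Pi.mul_apply] at h
        change (PowerSeries.X * u (Sum.inr j)) ^ N * (G hJ (Sum.inr j) ^ N *
          tops A (H (Sum.inr j))) = (PowerSeries.X * u (Sum.inr j)) ^ N * G r (Sum.inr j)
        rw [← h]
        ring
    exact congrFun e3 ()
  rw [← e2, map_mul, map_pow, hJ1, one_pow, one_mul, tops, ← PowerSeries.coeff_zero_eq_constantCoeff_apply,
    PowerSeries.coeff_mk]
  exact h1 j

end

/-- A function which vanishes where `F(z)` does and is `1` at the punctures `J`. -/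
theorem exists_H {I J A : Type} [Fintype I] [Nonempty I] [Fintype J] [CommRing A] {g : ℕ}
    {W : Subalgebra A (KK (I ⊕ J) A)} (hW : IsKr g W) (z : Pole W)
    (hd : ∀ (f : J → LaurentSeries A) (m : ℤ), ∃ w ∈ W, ∀ j, ∀ k < m,
      (w (Sum.inr j)).coeff k = (f j).coeff k) {F : Polynomial A} (hF : F.Monic) :
    ∃ w : W, (∀ j, ∀ m < 0,
      (((w * Polynomial.aeval z.z F : W) : KK (I ⊕ J) A) (Sum.inr j)).coeff m = 0) ∧
      ∀ j, (((w * Polynomial.aeval z.z F : W) : KK (I ⊕ J) A) (Sum.inr j)).coeff 0 = 1 := by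
  obtain ⟨N, hN⟩ := (t_KNZ hW).1
  have hu := ((t_KFG t_KNZ (t_KSP t_KNZ) hW).2 N z.d z.z hN (by exact_mod_cast z.pos) z.mon).2.2.2.1
    F hF
  obtain ⟨G, hG⟩ := hu.exists_right_inv
  have hFz : ((Polynomial.aeval z.z F : W) : KK (I ⊕ J) A) =
      Polynomial.aeval (z.z : KK (I ⊕ J) A) F := by
    have := Polynomial.aeval_algHom_apply W.val z.z F
    exact this.symm
  obtain ⟨N', hN'⟩ := exists_Pol (Polynomial.aeval (z.z : KK (I ⊕ J) A) F)
  obtain ⟨w, hw, hwj⟩ := hd (fun j => G (Sum.inr j)) (N' + 1)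
  have key : ∀ j, ∀ m < 1, (((((⟨w, hw⟩ : W) * Polynomial.aeval z.z F : W) : KK (I ⊕ J) A)
      (Sum.inr j)) - 1).coeff m = 0 := by
    intro j m hm
    have e1 : (((((⟨w, hw⟩ : W) * Polynomial.aeval z.z F : W) : KK (I ⊕ J) A) (Sum.inr j)) - 1) =
        (w (Sum.inr j) - G (Sum.inr j)) *
          (Polynomial.aeval (z.z : KK (I ⊕ J) A) F) (Sum.inr j) := by
      have e2 := congrFun hG (Sum.inr j)
      rw [Pi.mul_apply, Pi.one_apply] at e2
      change (w * ((Polynomial.aeval z.z F : W) : KK (I ⊕ J) A)) (Sum.inr j) - 1 = _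
      rw [hFz, Pi.mul_apply, ← e2]
      ring
    rw [e1]
    refine mul_low (a := N' + 1) (b := -N') (fun k hk => ?_) (fun k hk => hN' _ _ hk) m (by omega)
    rw [HahnSeries.coeff_sub, hwj j k hk, sub_self]
  refine ⟨⟨w, hw⟩, fun j m hm => ?_, fun j => ?_⟩
  · have h1 := key j m (by omega)
    rw [HahnSeries.coeff_sub, HahnSeries.coeff_one, if_neg (by omega), sub_zero] at h1
    exact h1
  · have h1 := key j 0 (by omega)
    rw [HahnSeries.coeff_sub, HahnSeries.coeff_one, if_pos rfl, sub_eq_zero] at h1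
    exact h1

end MFA

open _root_.Pool.Agent.MG.KX.MFA in
/-- MFA: the complement of the punctures `I` is affine. -/
theorem t_MFA (hPLE : Stmt_PLE) : Stmt_MFA := by
  intro I J A _ _ _ _ g n W q x hW hx M hd
  obtain ⟨V, t, le, hV, hD, -, ⟨u, hu, htu⟩, hker, hsur⟩ := M.loc
  have := M.jo
  obtain ⟨z⟩ := (hPLE hW).1
  -- the sections
  have hsec : ∀ {K : Type} (e : K → I ⊕ J), spMap (idx (R := A) e) ≫ spMap (ccI (I ⊕ J) A) ≫ M.sh =
      spMap (ccI K A) ≫ spMap (idx e) ≫ M.sh := by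
    intro K e
    rw [← Category.assoc, cc_idx, Category.assoc]
  have hleK : ∀ {K : Type} (e : K → I ⊕ J),
      ⊤ ≤ (spMap (ccI K A) ≫ spMap (idx e) ≫ M.sh) ⁻¹ᵁ V := by
    intro K e p _
    change (spMap (ccI K A) ≫ spMap (idx e) ≫ M.sh) p ∈ V
    rw [Scheme.Hom.comp_apply, Scheme.Hom.comp_apply]
    exact le trivial
  have hgm : ∀ {K : Type} (e : K → I ⊕ J) (v : Γ(x.X, V)),
      gm (spMap (ccI K A) ≫ spMap (idx e) ≫ M.sh) V (hleK e) v =
        ccI K A (idx e (gm M.sh V le v)) := by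
    intro K e v
    rw [gm_comp M.sh ((ccI K A).comp (idx e)) (spMap (ccI K A) ≫ spMap (idx e) ≫ M.sh)
      (by rw [← spMap_comp'', Category.assoc]) V le (hleK e) v]
    rfl
  have hptI : ∀ s : x.X, s ∉ Set.range M.j →
      (s ∈ Set.range (spMap (ccI I A) ≫ spMap (idx Sum.inl) ≫ M.sh)) ∨
        s ∈ Set.range (spMap (ccI J A) ≫ spMap (idx Sum.inr) ≫ M.sh) := by
    intro s hs
    obtain ⟨p, rfl⟩ := (M.cov s).resolve_left hs
    rcases split p with ⟨p', rfl⟩ | ⟨p', rfl⟩
    · left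
      refine ⟨p', ?_⟩
      rw [← hsec, Scheme.Hom.comp_apply]
    · right
      refine ⟨p', ?_⟩
      rw [← hsec, Scheme.Hom.comp_apply]
  have hexI : ∀ s : x.X, s ∈ Set.range M.j →
      s ∉ Set.range (spMap (ccI I A) ≫ spMap (idx Sum.inl) ≫ M.sh) := by
    rintro s hs ⟨p, rfl⟩
    refine M.exc _ hs ⟨spMap (idx (R := A) Sum.inl) p, ?_⟩
    rw [← Scheme.Hom.comp_apply, hsec]
  -- the function `H`
  have hcovV : ∀ s : x.X, s ∈ Set.range M.j ∨ s ∈ V := by
    intro s
    rcases M.cov s with h | ⟨p, rfl⟩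
    · exact Or.inl h
    · right
      rw [Scheme.Hom.comp_apply]
      exact le trivial
  obtain ⟨F, hF, hFV⟩ := integral_of_closed x.π M.j M.jp V hcovV z.z
  obtain ⟨w, hw0, hw1⟩ := exists_H hW z hd hF
  set H : W := w * Polynomial.aeval z.z F with hH
  have hHV : ∀ p : Sp W, M.j p ∉ V → H ∈ p.asIdeal := fun p hp =>
    Ideal.mul_mem_left _ _ (hFV p hp)
  let Uj : x.X.Opens := M.j.opensRange
  have hUj : ∀ s, s ∈ Uj ↔ s ∈ Set.range M.j := fun s => Iff.rfl
  have lej : ⊤ ≤ M.j ⁻¹ᵁ Uj := fun p _ => ⟨p, rfl⟩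
  obtain ⟨Hj, hHj⟩ := (gm_bij M.j Uj lej rfl).2 H
  -- the expansion
  have hDV : x.X.basicOpen t ≤ V := x.X.basicOpen_le t
  have hDj : x.X.basicOpen t ≤ Uj := fun s hs => by
    have h : s ∈ (x.X.basicOpen t : Set x.X) := hs
    rw [hD] at h
    exact h.1
  have hloc : IsLocalization.Away t Γ(x.X, x.X.basicOpen t) := hV.isLocalization_basicOpen t
  obtain ⟨N, v, hv⟩ := IsLocalization.Away.surj t (rs x.X hDj Hj)
  have hv' : rs x.X hDj Hj * rs x.X hDV t ^ N = rs x.X hDV v := hv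
  let f : Sp (KK (I ⊕ J) A) ⟶ x.X := spMap (psI (I ⊕ J) A) ≫ M.sh
  have hfj : f = spMap (W.val : W →+* KK (I ⊕ J) A) ≫ M.j := M.cmp
  have lefV : ⊤ ≤ f ⁻¹ᵁ V := fun p _ => by
    change f p ∈ V
    rw [Scheme.Hom.comp_apply]
    exact le trivial
  have lefj : ⊤ ≤ f ⁻¹ᵁ Uj := fun p _ => by
    change f p ∈ Uj
    rw [hfj, Scheme.Hom.comp_apply]
    exact ⟨_, rfl⟩
  have lefD : ⊤ ≤ f ⁻¹ᵁ (x.X.basicOpen t) := fun p _ => by
    have h : f p ∈ (x.X.basicOpen t : Set x.X) := by
      rw [hD]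
      exact ⟨lefj trivial, lefV trivial⟩
    exact h
  have hrsV : ∀ a, gm f (x.X.basicOpen t) lefD (rs x.X hDV a) = psI (I ⊕ J) A (gm M.sh V le a) :=
    fun a => gm_rs M.sh (psI (I ⊕ J) A) f rfl hDV le lefD a
  have hrsj : gm f (x.X.basicOpen t) lefD (rs x.X hDj Hj) = (H : KK (I ⊕ J) A) := by
    rw [gm_rs M.j (W.val : W →+* KK (I ⊕ J) A) f hfj hDj lej lefD Hj, hHj]
    rfl
  have hexp : psI (I ⊕ J) A (gm M.sh V le v) = psI (I ⊕ J) A (gm M.sh V le t) ^ N *
      (H : KK (I ⊕ J) A) := by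
    have h := congrArg (gm f (x.X.basicOpen t) lefD) hv'
    rw [map_mul, map_pow, hrsV, hrsV, hrsj] at h
    rw [← h, mul_comm]
  obtain ⟨hJ, hhJ⟩ := hsur (fun k => Sum.elim (fun _ => 0) (fun _ => 1) k)
  have hI0 : ∀ i, PowerSeries.constantCoeff (gm M.sh V le hJ (Sum.inl i)) = 0 :=
    fun i => congrFun hhJ (Sum.inl i)
  have hJ1 : ∀ j, PowerSeries.constantCoeff (gm M.sh V le hJ (Sum.inr j)) = 1 :=
    fun j => congrFun hhJ (Sum.inr j)
  obtain ⟨r, hr, hr1⟩ := key (gm M.sh V le) t hu htu hker hJ v hI0 hJ1 N _ hexp hw0 hw1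
  -- the neighbourhood of the punctures `J`
  let VJ : x.X.Opens := x.X.basicOpen hJ
  have hVJV : VJ ≤ V := x.X.basicOpen_le hJ
  have hVJ : IsAffineOpen VJ := hV.basicOpen hJ
  have hVJI : ∀ s ∈ VJ, s ∉ Set.range (spMap (ccI I A) ≫ spMap (idx Sum.inl) ≫ M.sh) := by
    rintro s hs ⟨p, rfl⟩
    rw [mem_basicOpen_gm _ V (hleK Sum.inl) hJ p, hgm] at hs
    refine hs ?_
    have : ccI I A (idx Sum.inl (gm M.sh V le hJ)) = 0 := funext fun i => hI0 i
    rw [this]
    exact zero_mem _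
  have hJone : gm (spMap (ccI J A) ≫ spMap (idx Sum.inr) ≫ M.sh) V (hleK Sum.inr) hJ = 1 := by
    rw [hgm]
    exact funext fun j => hJ1 j
  have hrone : gm (spMap (ccI J A) ≫ spMap (idx Sum.inr) ≫ M.sh) V (hleK Sum.inr) r = 1 := by
    rw [hgm]
    exact funext fun j => hr1 j
  have hVJJ : ∀ s ∈ Set.range (spMap (ccI J A) ≫ spMap (idx Sum.inr) ≫ M.sh), s ∈ VJ := by
    rintro s ⟨p, rfl⟩
    rw [mem_basicOpen_gm _ V (hleK Sum.inr) hJ p, hJone]
    exact fun h => p.isPrime.ne_top ((Ideal.eq_top_iff_one _).2 h)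
  have hVJD : ∀ s ∈ V, s ∈ Uj → s ∈ x.X.basicOpen t := fun s h1 h2 => by
    have h : s ∈ (x.X.basicOpen t : Set x.X) := by
      rw [hD]
      exact ⟨h2, h1⟩
    exact h
  -- gluing
  obtain ⟨i, hi⟩ := (isUnit_rs hJ hVJV le_rfl).exists_right_inv
  let H2 : Γ(x.X, VJ) := rs x.X hVJV r * i ^ N
  have hKD : Uj ⊓ VJ ≤ x.X.basicOpen t := fun s hs => hVJD s (hVJV hs.2) hs.1
  have hKV : Uj ⊓ VJ ≤ V := inf_le_right.trans hVJV
  have hagree : rs x.X (inf_le_left : Uj ⊓ VJ ≤ Uj) Hj = rs x.X (inf_le_right : Uj ⊓ VJ ≤ VJ) H2 := by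
    have e1 := congrArg (rs x.X hKD) hv'
    rw [map_mul, map_pow, AFF.rs_rs, AFF.rs_rs, AFF.rs_rs] at e1
    have e2 := congrArg (rs x.X hKV) hr
    rw [map_mul, map_mul, map_pow, map_pow] at e2
    have e3 := congrArg (rs x.X (inf_le_right : Uj ⊓ VJ ≤ VJ)) hi
    rw [map_mul, AFF.rs_rs, map_one] at e3
    have hut : IsUnit (rs x.X hKV t) := isUnit_rs t hKV hKD
    change _ = rs x.X inf_le_right (rs x.X hVJV r * i ^ N)
    rw [map_mul, map_pow, AFF.rs_rs]
    have e4 : rs x.X hKV t ^ N * (rs x.X hKV hJ ^ N * rs x.X (inf_le_left : Uj ⊓ VJ ≤ Uj) Hj) =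
        rs x.X hKV t ^ N * rs x.X hKV r := by
      rw [← e2, ← e1]
      ring
    have e5 := (hut.pow N).mul_left_cancel e4
    rw [← e5]
    have e6 : rs x.X (inf_le_right : Uj ⊓ VJ ≤ VJ) i ^ N * rs x.X hKV hJ ^ N = 1 := by
      rw [← mul_pow, mul_comm, e3, one_pow]
    linear_combination (-(rs x.X (inf_le_left : Uj ⊓ VJ ≤ Uj) Hj)) * e6
  let U : x.X.Opens := Uj ⊔ VJ
  obtain ⟨HU, hHU1, hHU2⟩ := AFF.glue (X := x.X) (U := Uj) (V := VJ) (W := U) (I := Uj ⊓ VJ)
    le_sup_left le_sup_right le_rfl inf_le_left inf_le_right le_rfl Hj H2 hagree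
  have hmem : ∀ s, s ∈ U ↔ s ∉ Set.range (spMap (ccI I A) ≫ spMap (idx Sum.inl) ≫ M.sh) := by
    intro s
    constructor
    · rintro (h | h)
      · exact hexI s h
      · exact hVJI s h
    · intro h
      by_cases hs : s ∈ Set.range M.j
      · exact Or.inl hs
      · exact Or.inr (hVJJ s ((hptI s hs).resolve_left h))
  refine ⟨U, ?_, hmem⟩
  -- the second piece
  let VI : x.X.Opens := x.X.basicOpen t ⊔ VJ
  have hVIV : VI ≤ V := sup_le hDV hVJV
  have hVI : IsAffineOpen VI := by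
    refine two_affine (U := VI) (U1 := VJ) (U2 := x.X.basicOpen t) hVJ (hV.basicOpen t)
      le_sup_right le_sup_left (rs x.X hVIV hJ) ?_ ?_
    · rw [basicOpen_rs]
      exact inf_le_right
    · intro s hs
      have hsVI : s ∈ VI := x.X.basicOpen_le _ hs
      by_cases h : s ∈ Set.range M.j
      · exact hVJD s (hVIV hsVI) h
      · exfalso
        have hsI : s ∉ Set.range (spMap (ccI I A) ≫ spMap (idx Sum.inl) ≫ M.sh) := by
          rcases hsVI with h1 | h1
          · exact absurd (hDj h1) h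
          · exact hVJI s h1
        obtain ⟨p, rfl⟩ := (hptI s h).resolve_left hsI
        have e : (1 : Γ(x.X, VI)) - rs x.X hVIV hJ = rs x.X hVIV (1 - hJ) := by
          rw [map_sub, map_one]
        rw [e, basicOpen_rs] at hs
        have h2 := (mem_basicOpen_gm _ V (hleK Sum.inr) (1 - hJ) p).1 hs.2
        rw [map_sub, map_one, hJone, sub_self] at h2
        exact h2 (zero_mem _)
  refine two_affine (U := U) (U1 := VI) (U2 := Uj) hVI (isAffineOpen_opensRange M.j)
    (sup_le (hDj.trans le_sup_left) le_sup_right) le_sup_left HU ?_ ?_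
  · intro s hs
    have hsU : s ∈ U := x.X.basicOpen_le _ hs
    by_cases h : s ∈ VJ
    · exact Or.inr h
    · have hsj : s ∈ Uj := hsU.resolve_right h
      by_cases hsV : s ∈ V
      · exact Or.inl (hVJD s hsV hsj)
      · exfalso
        have h1 : s ∈ x.X.basicOpen (rs x.X (le_sup_left : Uj ≤ U) HU) := by
          rw [basicOpen_rs]
          exact ⟨hsj, hs⟩
        rw [hHU1] at h1
        obtain ⟨p, rfl⟩ := hsj
        have h2 := (mem_basicOpen_gm M.j Uj lej Hj p).1 h1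
        rw [hHj] at h2
        exact h2 (hHV p hsV)
  · intro s hs
    have hsU : s ∈ U := x.X.basicOpen_le _ hs
    by_cases h : s ∈ Set.range M.j
    · exact h
    · exfalso
      obtain ⟨p, rfl⟩ := (hptI s h).resolve_left ((hmem s).1 hsU)
      have hleVJ : ⊤ ≤ (spMap (ccI J A) ≫ spMap (idx Sum.inr) ≫ M.sh) ⁻¹ᵁ VJ :=
        fun p _ => hVJJ _ ⟨p, rfl⟩
      have hgVJ : ∀ a, gm (spMap (ccI J A) ≫ spMap (idx Sum.inr) ≫ M.sh) VJ hleVJ
          (rs x.X hVJV a) = gm (spMap (ccI J A) ≫ spMap (idx Sum.inr) ≫ M.sh) V (hleK Sum.inr) a := by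
        intro a
        have hid : spMap (RingHom.id (J → A)) = 𝟙 (Sp (J → A)) := Spec.map_id _
        exact gm_rs (spMap (ccI J A) ≫ spMap (idx Sum.inr) ≫ M.sh) (RingHom.id _) _
          (by rw [hid, Category.id_comp]) hVJV (hleK Sum.inr) hleVJ a
      have hH2 : gm (spMap (ccI J A) ≫ spMap (idx Sum.inr) ≫ M.sh) VJ hleVJ H2 = 1 := by
        have h1 := congrArg (gm (spMap (ccI J A) ≫ spMap (idx Sum.inr) ≫ M.sh) VJ hleVJ) hi
        rw [map_mul, hgVJ, hJone, one_mul, map_one] at h1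
        change gm (spMap (ccI J A) ≫ spMap (idx Sum.inr) ≫ M.sh) VJ hleVJ
          (rs x.X hVJV r * i ^ N) = 1
        rw [map_mul, map_pow, hgVJ, hrone, h1, one_pow, one_mul]
      have h1 : (spMap (ccI J A) ≫ spMap (idx Sum.inr) ≫ M.sh) p ∈
          x.X.basicOpen (rs x.X (le_sup_right : VJ ≤ U) (1 - HU)) := by
        rw [basicOpen_rs]
        exact ⟨hVJJ _ ⟨p, rfl⟩, hs⟩
      rw [map_sub, map_one, hHU2] at h1
      have h2 := (mem_basicOpen_gm _ VJ hleVJ (1 - H2) p).1 h1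
      rw [map_sub, map_one, hH2, sub_self] at h2
      exact h2 (zero_mem _)

end Pool.Agent.MG.KX


end
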