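import Mathlib
import Pool.Agent.KDM.C30

/-! Parts: MG.KX.MBC -/

section

/-!
# MBC: base change of Krichever models

The morphisms of the new model are the lifts to the fibre product. The functions on the preimage of
the affine open set are a tensor product; the sequence `0 → Γ(V) → Γ(V) → ∏ A → 0` is split, so it
stays exact.
-/

open CategoryTheory CategoryTheory.Limits AlgebraicGeometry
open scoped TensorProduct

namespace Pool.Agent.MG.KX

open Pool.Agent.MG.G0 Pool.Agent.MG.GLU

namespace MBC

section alg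

variable {I A B G G' : Type} [Fintype I] [CommRing A] [CommRing B] [CommRing G] [CommRing G']

/-- Base change of the sequence `0 → G → G → ∏ A → 0`. -/
theorem split_alg (φ : A →+* B) (cG : A →+* G) (cG' : B →+* G') (m : G →+* G')
    (H : letI := φ.toAlgebra
      letI := cG.toAlgebra
      ∃ e : B ⊗[A] G ≃+* G', ∀ b r, e (b ⊗ₜ r) = cG' b * m r)
    (t : G) (ev : G →+* (I → A)) (ev' : G' →+* (I → B)) (hev : ∀ a i, ev (cG a) i = a)
    (hev' : ∀ b i, ev' (cG' b) i = b) (hm : ∀ v i, ev' (m v) i = φ (ev v i)) (ht : ev t = 0)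
    (inj : ∀ v, t * v = 0 → v = 0) (ker : ∀ v, ev v = 0 → ∃ r, v = t * r)
    (sur : ∀ c, ∃ v, ev v = c) :
    (∀ w, m t * w = 0 → w = 0) ∧ (∀ w, ev' w = 0 → ∃ r, w = m t * r) ∧
      ∀ c, ∃ w, ev' w = c := by
  classical
  let _ := φ.toAlgebra
  let _ := cG.toAlgebra
  obtain ⟨e, he⟩ := H
  have hmc : ∀ a : A, m (cG a) = cG' (φ a) := by
    intro a
    have h1 := he 1 (cG a)
    have h2 := he (φ a) 1
    have h3 : (1 : B) ⊗ₜ[A] (cG a) = (φ a) ⊗ₜ[A] (1 : G) := by
      have e1 : cG a = a • (1 : G) := by
        rw [Algebra.smul_def, mul_one]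
        rfl
      have e2 : φ a = a • (1 : B) := by
        rw [Algebra.smul_def, mul_one]
        rfl
      rw [e1, e2, TensorProduct.tmul_smul, TensorProduct.smul_tmul']
    rw [h3, h2, map_one, map_one, mul_one, one_mul] at h1
    exact h1.symm
  choose g hg using fun i : I => sur (Pi.single i 1)
  let s : (I → A) → G := fun c => ∑ i, cG (c i) * g i
  have hs : ∀ c, ev (s c) = c := by
    intro c
    funext k
    change ev (∑ i, cG (c i) * g i) k = c k
    rw [map_sum, Finset.sum_apply, Finset.sum_eq_single k]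
    · rw [map_mul, Pi.mul_apply, hev, hg, Pi.single_eq_same, mul_one]
    · intro i _ hik
      rw [map_mul, Pi.mul_apply, hev, hg, Pi.single_eq_of_ne (Ne.symm hik), mul_zero]
    · intro h
      exact absurd (Finset.mem_univ k) h
  have hs_add : ∀ c d, s (c + d) = s c + s d := by
    intro c d
    change ∑ i, cG ((c + d) i) * g i = ∑ i, cG (c i) * g i + ∑ i, cG (d i) * g i
    rw [← Finset.sum_add_distrib]
    exact Finset.sum_congr rfl fun i _ => by rw [Pi.add_apply, map_add, add_mul]
  have hs_smul : ∀ (a : A) c, s (fun i => a * c i) = cG a * s c := by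
    intro a c
    change ∑ i, cG (a * c i) * g i = cG a * ∑ i, cG (c i) * g i
    rw [Finset.mul_sum]
    exact Finset.sum_congr rfl fun i _ => by rw [map_mul, mul_assoc]
  have hr0 : ∀ v, ∃ r, v - s (ev v) = t * r := fun v => ker _ (by rw [map_sub, hs, sub_self])
  choose r hr using hr0
  have hinj : ∀ u v, t * u = t * v → u = v := fun u v h =>
    sub_eq_zero.1 (inj _ (by rw [mul_sub, h, sub_self]))
  have r_add : ∀ v w, r (v + w) = r v + r w := by
    intro v w
    apply hinj
    rw [← hr, mul_add, ← hr, ← hr, map_add, hs_add]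
    ring
  have r_smul : ∀ (a : A) v, r (a • v) = a • r v := by
    intro a v
    apply hinj
    have e1 : a • v = cG a * v := Algebra.smul_def a v
    have e2 : a • r v = cG a * r v := Algebra.smul_def a (r v)
    rw [← hr, e1, e2]
    have e3 : ev (cG a * v) = fun i => a * ev v i := by
      funext i
      rw [map_mul, Pi.mul_apply, hev]
    rw [e3, hs_smul]
    have e4 := hr v
    linear_combination cG a * e4
  have r_t : ∀ v, r (t * v) = v := by
    intro v
    apply hinj
    rw [← hr, map_mul, ht, zero_mul]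
    have e1 : s 0 = 0 := by
      change ∑ i, cG ((0 : I → A) i) * g i = 0
      exact Finset.sum_eq_zero fun i _ => by rw [Pi.zero_apply, map_zero, zero_mul]
    rw [e1, sub_zero]
  let R : G →ₗ[A] G := { toFun := r, map_add' := r_add, map_smul' := r_smul }
  let Rm : G' →+ G' := (e : B ⊗[A] G →+ G').comp
    ((R.lTensor B : B ⊗[A] G →+ B ⊗[A] G).comp (e.symm : G' →+ B ⊗[A] G))
  have hRm : ∀ b v, Rm (cG' b * m v) = cG' b * m (r v) := by
    intro b v
    change e (R.lTensor B (e.symm (cG' b * m v))) = _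
    rw [← he, RingEquiv.symm_apply_apply, LinearMap.lTensor_tmul, he]
    rfl
  have key1 : ∀ w, Rm (m t * w) = w := by
    intro w
    obtain ⟨x, rfl⟩ := e.surjective w
    induction x using TensorProduct.induction_on with
    | zero => rw [map_zero, mul_zero, map_zero]
    | tmul b v =>
      rw [he]
      have e1 : m t * (cG' b * m v) = cG' b * m (t * v) := by
        rw [map_mul]
        ring
      rw [e1, hRm, r_t]
    | add x y hx hy => rw [map_add, mul_add, map_add, hx, hy]
  have key2 : ∀ w, w = m t * Rm w + ∑ i, cG' (ev' w i) * m (g i) := by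
    intro w
    obtain ⟨x, rfl⟩ := e.surjective w
    induction x using TensorProduct.induction_on with
    | zero => simp
    | tmul b v =>
      rw [he, hRm]
      have e1 : v = t * r v + ∑ i, cG (ev v i) * g i := by
        have e4 : v - ∑ i, cG (ev v i) * g i = t * r v := hr v
        rw [← e4, sub_add_cancel]
      have e2 : m v = m t * m (r v) + ∑ i, cG' (φ (ev v i)) * m (g i) := by
        conv_lhs => rw [e1]
        rw [map_add, map_mul, map_sum]
        congr 1
        exact Finset.sum_congr rfl fun i _ => by rw [map_mul, hmc]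
      have e3 : ∑ i, cG' (ev' (cG' b * m v) i) * m (g i) =
          cG' b * ∑ i, cG' (φ (ev v i)) * m (g i) := by
        rw [Finset.mul_sum]
        exact Finset.sum_congr rfl fun i _ => by
          rw [map_mul ev', Pi.mul_apply, hev', hm, map_mul, mul_assoc]
      rw [e3]
      linear_combination cG' b * e2
    | add x y hx hy =>
      have e1 : ∑ i, cG' (ev' (e (x + y)) i) * m (g i) =
          ∑ i, cG' (ev' (e x) i) * m (g i) + ∑ i, cG' (ev' (e y) i) * m (g i) := by
        rw [← Finset.sum_add_distrib]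
        exact Finset.sum_congr rfl fun i _ => by
          rw [map_add, map_add, Pi.add_apply, map_add, add_mul]
      rw [e1, map_add, map_add]
      linear_combination hx + hy
  refine ⟨fun w hw => ?_, fun w hw => ⟨Rm w, ?_⟩, fun c => ⟨∑ i, cG' (c i) * m (g i), ?_⟩⟩
  · rw [← key1 w, hw, map_zero]
  · conv_lhs => rw [key2 w]
    rw [hw]
    have e1 : ∑ i, cG' ((0 : I → B) i) * m (g i) = 0 :=
      Finset.sum_eq_zero fun i _ => by rw [Pi.zero_apply, map_zero, zero_mul]
    rw [e1, add_zero]
  · funext k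
    rw [map_sum, Finset.sum_apply, Finset.sum_eq_single k]
    · rw [map_mul, Pi.mul_apply, hev', hm, hg, Pi.single_eq_same, map_one, mul_one]
    · intro i _ hik
      rw [map_mul, Pi.mul_apply, hev', hm, hg, Pi.single_eq_of_ne (Ne.symm hik), map_zero,
        mul_zero]
    · intro h
      exact absurd (Finset.mem_univ k) h

end alg

section cart

variable {A B R R' : Type} [CommRing A] [CommRing B] [CommRing R] [CommRing R'] [Algebra A R]
  [Algebra B R']

/-- The cartesian square of a tensor product. -/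
theorem cart_of (φ : A →+* B) (ρ : R →+* R')
    (H : letI := φ.toAlgebra
      ∃ e : B ⊗[A] R ≃+* R', ∀ b r, e (b ⊗ₜ r) = algebraMap B R' b * ρ r) :
    IsPullback (spMap ρ) (spMap (algebraMap B R')) (spMap (algebraMap A R)) (spMap φ) := by
  let _ := φ.toAlgebra
  obtain ⟨e, he⟩ := H
  have h := CommRingCat.isPushout_tensorProduct A B R
  have h2 : IsPushout (CommRingCat.ofHom φ) (CommRingCat.ofHom (algebraMap A R))
      (CommRingCat.ofHom (algebraMap B R')) (CommRingCat.ofHom ρ) := by
    refine h.of_iso (Iso.refl _) (Iso.refl _) (Iso.refl _) e.toCommRingCatIso ?_ ?_ ?_ ?_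
    · rfl
    · rfl
    · ext b
      change e (b ⊗ₜ (1 : R)) = algebraMap B R' b
      rw [he, map_one, mul_one]
    · ext r
      change e ((1 : B) ⊗ₜ r) = ρ r
      rw [he, map_one, one_mul]
  exact isPullback_SpecMap_of_isPushout _ _ _ _ h2.flip

variable {n : ℕ} {φ : A →+* B} {x : Fam n A} {y : Fam n B} (a : Arrow φ y x)

/-- Lifts of cartesian squares. -/
theorem lift_cart (ρ : R →+* R')
    (hc : IsPullback (spMap ρ) (spMap (algebraMap B R')) (spMap (algebraMap A R)) (spMap φ))
    (i : Sp R ⟶ x.X) (hi : i ≫ x.π = spMap (algebraMap A R)) (i' : Sp R' ⟶ y.X)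
    (h1 : i' ≫ a.f = spMap ρ ≫ i) (h2 : i' ≫ y.π = spMap (algebraMap B R')) :
    IsPullback i' (spMap ρ) a.f i := by
  have s : IsPullback (i' ≫ y.π) (spMap ρ) (spMap φ) (i ≫ x.π) := by
    rw [h2, hi]
    exact hc.flip
  exact IsPullback.of_right s h1 a.cart.flip

theorem range_iff {X Y Z W : Scheme.{0}} {i' : W ⟶ Y} {r : W ⟶ Z} {f : Y ⟶ X} {i : Z ⟶ X}
    (h : IsPullback i' r f i) (q : Y) : q ∈ Set.range i' ↔ f q ∈ Set.range i := by
  constructor
  · rintro ⟨p, rfl⟩
    refine ⟨r p, ?_⟩
    rw [← Scheme.Hom.comp_apply, ← h.w, Scheme.Hom.comp_apply]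
  · rintro ⟨p, hp⟩
    obtain ⟨w, hw, -⟩ := Scheme.exists_preimage_of_isPullback h q p hp.symm
    exact ⟨w, hw⟩

end cart

/-- The coefficientwise map on constants. -/
noncomputable def cm (I : Type) {A B : Type} [CommRing A] [CommRing B] (φ : A →+* B) :
    (I → A) →+* (I → B) := RingHom.pi fun i => φ.comp (Pi.evalRingHom _ i)

theorem cart_cm {I A B : Type} [Fintype I] [CommRing A] [CommRing B] (φ : A →+* B) :
    IsPullback (spMap (cm I φ)) (spMap (algebraMap B (I → B))) (spMap (algebraMap A (I → A)))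
      (spMap φ) := by
  classical
  apply cart_of
  let _ := φ.toAlgebra
  refine ⟨(Algebra.TensorProduct.piScalarRight A B B I).toRingEquiv, fun b r => ?_⟩
  funext i
  change (Algebra.TensorProduct.piScalarRight A B B I) (b ⊗ₜ r) i = b * φ (r i)
  rw [Algebra.TensorProduct.piScalarRight_tmul_apply, Algebra.smul_def, mul_comm]
  rfl

end MBC

open _root_.Pool.Agent.MG.KX.MBC in
theorem t_MBC (hKBT : Stmt_KBT) : Stmt_MBC := by
  intro I A B _ _ _ _ g n P p x y φ a hP M p' hp
  have mem : ∀ f ∈ P, kmap φ f ∈ bc φ P := fun f hf => kmap_mem_bc φ hf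
  let ρ : P →+* bc φ P := rres (kmap φ) mem
  have hρ : ∀ c : A, ρ (algebraMap A P c) = algebraMap B (bc φ P) (φ c) := fun c =>
    Subtype.ext (kmap_algebraMap φ c)
  have cP : IsPullback (spMap ρ) (spMap (algebraMap B (bc φ P))) (spMap (algebraMap A P))
      (spMap φ) := by
    apply cart_of
    let _ := φ.toAlgebra
    obtain ⟨-, e, he⟩ := hKBT (B := B) hP
    refine ⟨e.toRingEquiv, fun b r => Subtype.ext ?_⟩
    change ((e (b ⊗ₜ r) : bc φ P) : KK I B) = _
    rw [he, Algebra.smul_def]
    rfl
  have w1 : (spMap ρ ≫ M.j) ≫ x.π = spMap (algebraMap B (bc φ P)) ≫ spMap φ := by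
    rw [Category.assoc, M.jp, cP.w]
  let j' : Sp (bc φ P) ⟶ y.X := a.cart.lift (spMap ρ ≫ M.j) (spMap (algebraMap B (bc φ P))) w1
  have j1 : j' ≫ a.f = spMap ρ ≫ M.j := a.cart.lift_fst _ _ _
  have j2 : j' ≫ y.π = spMap (algebraMap B (bc φ P)) := a.cart.lift_snd _ _ _
  have cj : IsPullback j' (spMap ρ) a.f M.j := lift_cart a ρ cP M.j M.jp j' j1 j2
  have hpsm : (psm I φ).comp (algebraMap A (I → PowerSeries A)) =
      (algebraMap B (I → PowerSeries B)).comp φ := by
    ext c i m
    change PowerSeries.coeff m (PowerSeries.map φ (algebraMap A (PowerSeries A) c)) =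
      PowerSeries.coeff m (algebraMap B (PowerSeries B) (φ c))
    rw [PowerSeries.coeff_map, PowerSeries.algebraMap_apply, PowerSeries.algebraMap_apply,
      PowerSeries.coeff_C, PowerSeries.coeff_C]
    split_ifs
    · rfl
    · exact map_zero φ
  have w2 : (spMap (psm I φ) ≫ M.sh) ≫ x.π =
      spMap (algebraMap B (I → PowerSeries B)) ≫ spMap φ := by
    rw [Category.assoc, M.shp, spMap_comp'', spMap_comp'', hpsm]
  let sh' : Sp (I → PowerSeries B) ⟶ y.X :=
    a.cart.lift (spMap (psm I φ) ≫ M.sh) (spMap (algebraMap B (I → PowerSeries B))) w2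
  have s1 : sh' ≫ a.f = spMap (psm I φ) ≫ M.sh := a.cart.lift_fst _ _ _
  have s2 : sh' ≫ y.π = spMap (algebraMap B (I → PowerSeries B)) := a.cart.lift_snd _ _ _
  -- the punctures
  have hcc : (ccI I B).comp (psm I φ) = (cm I φ).comp (ccI I A) := by
    ext f i
    change PowerSeries.constantCoeff (PowerSeries.map φ (f i)) =
      φ (PowerSeries.constantCoeff (f i))
    rw [← PowerSeries.coeff_zero_eq_constantCoeff_apply,
      ← PowerSeries.coeff_zero_eq_constantCoeff_apply, PowerSeries.coeff_map]
  have hca : ∀ (R : Type) [CommRing R], (ccI I R).comp (algebraMap R (I → PowerSeries R)) =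
      algebraMap R (I → R) := by
    intro R _
    ext c i
    change PowerSeries.constantCoeff (algebraMap R (PowerSeries R) c) = c
    rw [PowerSeries.algebraMap_apply, PowerSeries.constantCoeff_C]
    rfl
  have q1 : (spMap (ccI I B) ≫ sh') ≫ a.f = spMap (cm I φ) ≫ (spMap (ccI I A) ≫ M.sh) := by
    rw [Category.assoc, s1, ← Category.assoc, ← Category.assoc, spMap_comp'', spMap_comp'', hcc]
  have q2 : (spMap (ccI I B) ≫ sh') ≫ y.π = spMap (algebraMap B (I → B)) := by
    rw [Category.assoc, s2, spMap_comp'', hca]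
  have q3 : (spMap (ccI I A) ≫ M.sh) ≫ x.π = spMap (algebraMap A (I → A)) := by
    rw [Category.assoc, M.shp, spMap_comp'', hca]
  have cq : IsPullback (spMap (ccI I B) ≫ sh') (spMap (cm I φ)) a.f (spMap (ccI I A) ≫ M.sh) :=
    lift_cart a (cm I φ) (cart_cm φ) _ q3 _ q1 q2
  obtain ⟨V, t, le, hV, hb, hinj, ⟨u, hu, htu⟩, hker, hsur⟩ := M.loc
  have le' : ⊤ ≤ sh' ⁻¹ᵁ (a.f ⁻¹ᵁ V) := by
    have e1 : sh' ⁻¹ᵁ (a.f ⁻¹ᵁ V) = (spMap (psm I φ)) ⁻¹ᵁ (M.sh ⁻¹ᵁ V) := by
      rw [← Scheme.Hom.comp_preimage, ← Scheme.Hom.comp_preimage, s1]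
    rw [e1]
    exact fun z _ => le trivial
  let m : Γ(x.X, V) →+* Γ(y.X, a.f ⁻¹ᵁ V) := (a.f.appLE V (a.f ⁻¹ᵁ V) le_rfl).hom
  have hgm : ∀ v, gm sh' (a.f ⁻¹ᵁ V) le' (m v) = psm I φ (gm M.sh V le v) := fun v =>
    gm_nat a.f M.sh sh' (psm I φ) s1 V (a.f ⁻¹ᵁ V) le le' le_rfl v
  have hsplit := split_alg φ (coef x.π V) (coef y.π (a.f ⁻¹ᵁ V)) m (WL.tp_affine a hV) t
    ((ccI I A).comp (gm M.sh V le)) ((ccI I B).comp (gm sh' (a.f ⁻¹ᵁ V) le'))
    (fun c i => by
      rw [RingHom.comp_apply, gm_coef M.sh x.π _ M.shp]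
      exact congrFun (congrArg (fun f : A →+* (I → A) => f c) (hca A)) i)
    (fun c i => by
      rw [RingHom.comp_apply, gm_coef sh' y.π _ s2]
      exact congrFun (congrArg (fun f : B →+* (I → B) => f c) (hca B)) i)
    (fun v i => by
      rw [RingHom.comp_apply, hgm, RingHom.comp_apply]
      exact congrFun (congrArg (fun f : (I → PowerSeries A) →+* (I → B) => f (gm M.sh V le v))
        hcc) i)
    (by
      rw [RingHom.comp_apply, htu]
      funext i
      rw [ccI_apply, Pi.mul_apply, map_mul, PowerSeries.constantCoeff_X, zero_mul]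
      rfl)
    hinj (fun v hv => hker v hv) hsur
  obtain ⟨k1, k2, k3⟩ := hsplit
  let M' : Mod y (bc φ P) p' :=
    { j := j'
      jo := by
        have := M.jo
        exact MorphismProperty.of_isPullback (P := @IsOpenImmersion) cj.flip inferInstance
      jp := j2
      sh := sh'
      shp := s2
      cmp := by
        refine a.cart.hom_ext ?_ ?_
        · rw [Category.assoc, Category.assoc, s1, j1, ← Category.assoc, ← Category.assoc,
            spMap_comp'', spMap_comp'']
          have e1 : (psI I B).comp (psm I φ) = (kmap φ).comp (psI I A) := by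
            ext f i k
            change (psl B (PowerSeries.map φ (f i))).coeff k =
              φ ((psl A (f i)).coeff k)
            rcases lt_or_ge k 0 with h | h
            · rw [psl_coeff_neg _ _ h, psl_coeff_neg _ _ h, map_zero]
            · obtain ⟨l, rfl⟩ := Int.eq_ofNat_of_zero_le h
              rw [psl_coeff, psl_coeff, PowerSeries.coeff_map]
          have e2 : ((bc φ P).val : bc φ P →+* KK I B).comp ρ =
              (kmap φ).comp (P.val : P →+* KK I A) := RingHom.ext fun f => rfl
          rw [e1, e2, ← spMap_comp'', ← spMap_comp'', Category.assoc, Category.assoc, M.cmp]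
        · rw [Category.assoc, Category.assoc, s2, j2, spMap_comp'', spMap_comp'']
          congr 1
          ext c i k
          change (psl B (algebraMap B (PowerSeries B) c)).coeff k =
            (algebraMap B (LaurentSeries B) c).coeff k
          rcases lt_or_ge k 0 with h | h
          · rw [psl_coeff_neg _ _ h, coeff_algebraMap, if_neg (by omega)]
          · obtain ⟨l, rfl⟩ := Int.eq_ofNat_of_zero_le h
            rw [psl_coeff, coeff_algebraMap, PowerSeries.algebraMap_apply, PowerSeries.coeff_C]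
            rcases Nat.eq_zero_or_pos l with h0 | h0
            · subst h0
              simp
            · rw [if_neg (by omega), if_neg (by omega)]
      cov := fun q => by
        rcases M.cov (a.f q) with h | h
        · exact Or.inl ((range_iff cj q).2 h)
        · exact Or.inr ((range_iff cq q).2 h)
      exc := fun q h1 h2 => M.exc (a.f q) ((range_iff cj q).1 h1) ((range_iff cq q).1 h2)
      mrk := fun i => by
        refine a.cart.hom_ext ?_ ?_
        · rw [a.sec, M.mrk, Category.assoc, j1, ← Category.assoc, ← Category.assoc, spMap_comp'',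
            spMap_comp'']
          congr 2
          ext f
          exact (hp i f (ρ f) rfl).symm
        · rw [y.sec, Category.assoc, j2, spMap_comp'']
          have e1 : (p' i : bc φ P →+* B).comp (algebraMap B (bc φ P)) = RingHom.id B :=
            AlgHom.comp_algebraMap (p' i)
          rw [e1]
          exact (Spec.map_id _).symm
      loc := by
        refine ⟨a.f ⁻¹ᵁ V, m t, le', WL.pre_affine a hV, ?_, k1, ⟨psm I φ u, hu.map _, ?_⟩, k2, k3⟩
        · have e1 : y.X.basicOpen (m t) = (a.f ⁻¹ᵁ V) ⊓ a.f ⁻¹ᵁ (x.X.basicOpen t) :=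
            Scheme.basicOpen_appLE a.f (a.f ⁻¹ᵁ V) V le_rfl t
          rw [e1]
          ext q
          have e2 : a.f q ∈ x.X.basicOpen t ↔ a.f q ∈ Set.range M.j ∩ V := by
            rw [← hb]
            rfl
          constructor
          · rintro ⟨h1, h2⟩
            exact ⟨(range_iff cj q).2 (e2.1 h2).1, h1⟩
          · rintro ⟨h1, h2⟩
            exact ⟨h2, e2.2 ⟨(range_iff cj q).1 h1, h2⟩⟩
        · rw [hgm, htu, map_mul]
          congr 1
          funext i
          exact PowerSeries.map_X φ }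
  exact ⟨M', ⟨mem, j1, s1⟩⟩

end Pool.Agent.MG.KX


end
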