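import Mathlib
import Pool.Agent.KDM.C06
import Pool.Agent.KDM.C08
import Pool.Agent.KDM.C11
import Pool.Agent.KDM.C12
import Pool.Agent.KDM.C15
import Pool.Agent.KDM.C21
import Pool.Agent.KDM.C25
import Pool.Agent.KDM.C26
import Pool.Agent.KDM.C28
import Pool.Agent.KDM.C30
import Pool.Agent.KDM.C31
import Pool.Agent.KDM.C33
import Pool.Agent.KDM.C35
import Pool.Agent.KDM.C36
import Pool.Agent.KDM.C37
import Pool.Agent.KDM.C40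
import Pool.Agent.KDM.C41
import Pool.Agent.KDM.C43
import Pool.Agent.KDM.C46
import Pool.Agent.KDM.C49
import Pool.Agent.KDM.C56
import Pool.Agent.KDM.C57
import Pool.Agent.KDM.C58
import Pool.Agent.KDM.C59
import Pool.Agent.KDM.C61
import Pool.Agent.KDM.C62
import Pool.Agent.KDM.C63
import Pool.Agent.KDM.C64
import Pool.Agent.KDM.C65
import Pool.Agent.KDM.C66
import Pool.Agent.KDM.C69
import Pool.Agent.KDM.C70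
import Pool.Agent.KDM.C71
import Pool.Agent.KDM.C77
import Pool.Agent.KDM.C78
import Pool.Agent.KDM.C80
import Pool.Agent.KDM.C81
import Pool.Agent.KDM.C82
import Pool.Agent.KDM.C86
import Pool.Agent.KDM.C87
import Pool.Agent.KDM.C88
import Pool.Agent.KDM.C89
import Pool.Agent.KDM.C90
import Pool.Agent.KDM.C91
import Pool.Agent.KDM.C92

/-! Parts: MG.KX.DGE, MG.KX.All -/

section

/-!
# DGE: the genus of a duo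
-/

open CategoryTheory CategoryTheory.Limits AlgebraicGeometry TensorProduct

namespace Pool.Agent.MG.KX

/-- DGE: the genus of a duo over a field. -/
theorem t_DGE : Stmt_DGE := by
  intro K _ D g L hs hk
  refine W.WGN.genus_two D.pr D.in1 D.in2 (D.j1 : D.R1 →+* D.R12) (D.j2 : D.R2 →+* D.R12)
    D.cond inferInstance ?_ ?_ (algebraMap K D.R12) ?_ g L.toAddMonoidHom hs ?_ hk
  · intro x y h
    obtain ⟨p, hp, -⟩ := D.meet x y h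
    refine ⟨p, ?_⟩
    rw [Scheme.Hom.comp_apply, hp]
  · exact D.cov
  · rw [Category.assoc, D.in1_pr, spMap_comp'', AlgHom.comp_algebraMap]
  · intro c t
    change L (algebraMap K D.R12 c * t) = c • L t
    rw [← Algebra.smul_def, map_smul]

end Pool.Agent.MG.KX


end

section

/-!
# Assembly
-/

namespace Pool.Agent.MG.KX.All

theorem k_KDU : Pool.Agent.MG.G0.Stmt_KDU := Pool.Agent.MG.G0.t_KDU

theorem k_KFO : Pool.Agent.MG.G0.Stmt_KFO := Pool.Agent.MG.G0.t_KFO k_KDU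

theorem k_KNZ : Pool.Agent.MG.G0.Stmt_KNZ := Pool.Agent.MG.G0.t_KNZ

theorem k_KSP : Pool.Agent.MG.G0.Stmt_KSP := Pool.Agent.MG.G0.t_KSP k_KNZ

theorem k_KBC : Pool.Agent.MG.G0.Stmt_KBC := Pool.Agent.MG.G0.t_KBC k_KFO k_KNZ k_KSP

theorem k_KBT : Pool.Agent.MG.G0.Stmt_KBT := Pool.Agent.MG.G0.t_KBT k_KSP k_KBC

theorem k_RTR : Pool.Agent.MG.G0.Stmt_RTR := Pool.Agent.MG.G0.t_RTR

theorem k_RTA : Pool.Agent.MG.G0.Stmt_RTA := Pool.Agent.MG.G0.t_RTA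

theorem k_RES : Pool.Agent.MG.G0.Stmt_RES := Pool.Agent.MG.G0.t_RES k_RTR k_RTA k_KSP

theorem k_SCO : Pool.Agent.MG.G0.Stmt_SCO := Pool.Agent.MG.G0.t_SCO

theorem k_SKK : Pool.Agent.MG.G0.Stmt_SKK := Pool.Agent.MG.G0.t_SKK k_KNZ k_SCO

theorem k_STO : Pool.Agent.MG.G0.Stmt_STO := Pool.Agent.MG.G0.t_STO k_RES k_SKK

theorem k_LOC : Pool.Agent.MG.G0.Stmt_LOC := Pool.Agent.MG.G0.t_LOC

theorem k_SBC : Pool.Agent.MG.G0.Stmt_SBC := Pool.Agent.MG.G0.t_SBC k_SCO k_LOC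

theorem k_PPR : Pool.Agent.MG.G0.Stmt_PPR := Pool.Agent.MG.G0.t_PPR k_KDU k_KSP

theorem k_PBC : Pool.Agent.MG.G0.Stmt_PBC := Pool.Agent.MG.G0.t_PBC k_KFO k_KBC k_PPR

theorem k_SDB : Pool.Agent.MG.G0.Stmt_SDB := Pool.Agent.MG.G0.t_SDB k_KBC k_KBT k_STO k_SBC k_PBC

theorem k_KAU : Pool.Agent.MG.G0.Stmt_KAU := Pool.Agent.MG.G0.t_KAU

theorem k_PLE : Pool.Agent.MG.KX.Stmt_PLE := Pool.Agent.MG.KX.t_PLE

theorem k_KBP : Pool.Agent.MG.KX.Stmt_KBP := Pool.Agent.MG.KX.t_KBP k_KBT k_KBC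

theorem k_KFG : Pool.Agent.MG.G0.Stmt_KFG := Pool.Agent.MG.G0.t_KFG k_KNZ k_KSP

theorem k_KDM : Pool.Agent.MG.KX.Stmt_KDM := Pool.Agent.MG.KX.t_KDM k_KNZ k_KFG

theorem k_APT : Pool.Agent.MG.G0.Stmt_APT := Pool.Agent.MG.G0.t_APT k_SCO

theorem k_AID : Pool.Agent.MG.G0.Stmt_AID := Pool.Agent.MG.G0.t_AID k_SCO k_KFG

theorem k_AYE : Pool.Agent.MG.G0.Stmt_AYE := Pool.Agent.MG.G0.t_AYE k_KNZ k_AID

theorem k_AWK : Pool.Agent.MG.G0.Stmt_AWK := Pool.Agent.MG.G0.t_AWK k_KNZ k_SBC k_AYE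

theorem k_SDF : Pool.Agent.MG.G0.Stmt_SDF := Pool.Agent.MG.G0.t_SDF k_KFG k_RES k_STO k_SCO k_APT k_AYE k_AWK

theorem k_KRS : Pool.Agent.MG.KX.Stmt_KRS := Pool.Agent.MG.KX.t_KRS k_KDM k_SDF

theorem k_KRN : Pool.Agent.MG.KX.Stmt_KRN := Pool.Agent.MG.KX.t_KRN k_KDM k_KRS

theorem k_KFP : Pool.Agent.MG.KX.Stmt_KFP := Pool.Agent.MG.KX.t_KFP

theorem k_KMK : Pool.Agent.MG.KX.Stmt_KMK := Pool.Agent.MG.KX.t_KMK k_PLE k_KFP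

theorem k_KNS : Pool.Agent.MG.KX.Stmt_KNS := Pool.Agent.MG.KX.t_KNS k_KDM k_KMK

theorem k_KNN : Pool.Agent.MG.KX.Stmt_KNN := Pool.Agent.MG.KX.t_KNN k_KDM k_KNS k_PLE k_KFP

theorem k_GKS : Pool.Agent.MG.KX.Stmt_GKS := Pool.Agent.MG.KX.t_GKS k_KDM k_KRS k_KRN k_KNS k_KNN

theorem k_DST : Pool.Agent.MG.KX.Stmt_DST := Pool.Agent.MG.KX.t_DST

theorem k_DPR : Pool.Agent.MG.KX.Stmt_DPR := Pool.Agent.MG.KX.t_DPR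

theorem k_DFL : Pool.Agent.MG.KX.Stmt_DFL := Pool.Agent.MG.KX.t_DFL

theorem k_KFW : Pool.Agent.MG.KX.Stmt_KFW := Pool.Agent.MG.KX.t_KFW

theorem k_KPX : Pool.Agent.MG.KX.Stmt_KPX := Pool.Agent.MG.KX.t_KPX k_DPR k_DFL k_KFP k_KFW

theorem k_DBC : Pool.Agent.MG.KX.Stmt_DBC := Pool.Agent.MG.KX.t_DBC

theorem k_DEN : Pool.Agent.MG.KX.Stmt_DEN := Pool.Agent.MG.KX.t_DEN

theorem k_KBW : Pool.Agent.MG.KX.Stmt_KBW := Pool.Agent.MG.KX.t_KBW k_DEN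

theorem k_KAR : Pool.Agent.MG.KX.Stmt_KAR := Pool.Agent.MG.KX.t_KAR k_DBC k_KBW

theorem k_DCO : Pool.Agent.MG.KX.Stmt_DCO := Pool.Agent.MG.KX.t_DCO

theorem k_DNO : Pool.Agent.MG.KX.Stmt_DNO := Pool.Agent.MG.KX.t_DNO

theorem k_DGE : Pool.Agent.MG.KX.Stmt_DGE := Pool.Agent.MG.KX.t_DGE

theorem k_DSM : Pool.Agent.MG.KX.Stmt_DSM := Pool.Agent.MG.KX.t_DSM

theorem k_DVF : Pool.Agent.MG.KX.Stmt_DVF := Pool.Agent.MG.KX.t_DVF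

theorem k_KCO : Pool.Agent.MG.KX.Stmt_KCO := Pool.Agent.MG.KX.t_KCO k_DEN

theorem k_KPT : Pool.Agent.MG.KX.Stmt_KPT := Pool.Agent.MG.KX.t_KPT k_DEN k_KFW

theorem k_KRV : Pool.Agent.MG.KX.Stmt_KRV := Pool.Agent.MG.KX.t_KRV k_DEN

theorem k_KGC : Pool.Agent.MG.KX.Stmt_KGC := Pool.Agent.MG.KX.t_KGC k_DCO k_DNO k_DGE k_DSM k_DVF k_KCO k_KPT k_KMK k_KRV

theorem k_KSB : Pool.Agent.MG.KX.Stmt_KSB := Pool.Agent.MG.KX.t_KSB k_KBP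

theorem k_KST : Pool.Agent.MG.KX.Stmt_KST := Pool.Agent.MG.KX.t_KST k_DST k_KPX k_KBP k_KAR k_KGC k_KSB

theorem k_DSS : Pool.Agent.MG.KX.Stmt_DSS := Pool.Agent.MG.KX.t_DSS

theorem k_KSX : Pool.Agent.MG.KX.Stmt_KSX := Pool.Agent.MG.KX.t_KSX k_DSS k_KFP k_KPT

theorem k_MCA : Pool.Agent.MG.KX.Stmt_MCA := Pool.Agent.MG.KX.t_MCA k_DEN

theorem k_MIS : Pool.Agent.MG.KX.Stmt_MIS := Pool.Agent.MG.KX.t_MIS

theorem k_MOC : Pool.Agent.MG.KX.Stmt_MOC := Pool.Agent.MG.KX.t_MOC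

theorem k_XAR : Pool.Agent.MG.KX.Stmt_XAR := Pool.Agent.MG.KX.t_XAR k_KAR k_KPX k_MCA k_MIS k_MOC

theorem k_MAU : Pool.Agent.MG.KX.Stmt_MAU := Pool.Agent.MG.KX.t_MAU

theorem k_XAU : Pool.Agent.MG.KX.Stmt_XAU := Pool.Agent.MG.KX.t_XAU k_KPX k_MCA k_MIS k_MAU k_MOC

theorem k_MFA : Pool.Agent.MG.KX.Stmt_MFA := Pool.Agent.MG.KX.t_MFA k_PLE

theorem k_MFG : Pool.Agent.MG.KX.Stmt_MFG := Pool.Agent.MG.KX.t_MFG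

theorem k_MFO : Pool.Agent.MG.KX.Stmt_MFO := Pool.Agent.MG.KX.t_MFO

theorem k_XFG : Pool.Agent.MG.KX.Stmt_XFG := Pool.Agent.MG.KX.t_XFG k_KPX k_MCA k_MIS k_MFA k_MFG k_MFO

theorem k_WIN : Pool.Agent.MG.KX.Stmt_WIN := Pool.Agent.MG.KX.t_WIN0

theorem k_MBC : Pool.Agent.MG.KX.Stmt_MBC := Pool.Agent.MG.KX.t_MBC k_KBT

theorem k_MTR : Pool.Agent.MG.KX.Stmt_MTR := Pool.Agent.MG.KX.t_MTR

theorem k_MUN : Pool.Agent.MG.KX.Stmt_MUN := Pool.Agent.MG.KX.t_MUN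

theorem k_MTH : Pool.Agent.MG.KX.Stmt_MTH := Pool.Agent.MG.KX.t_MTH

theorem k_PDC : Pool.Agent.MG.KX.Stmt_PDC := Pool.Agent.MG.KX.t_PDC

theorem k_DMD : Pool.Agent.MG.KX.Stmt_DMD := Pool.Agent.MG.KX.t_DMD k_MTH k_PDC

theorem k_DMT : Pool.Agent.MG.KX.Stmt_DMT := Pool.Agent.MG.KX.t_DMT k_MTH

theorem k_PDK : Pool.Agent.MG.KX.Stmt_PDK := Pool.Agent.MG.KX.t_PDK

theorem k_PDS : Pool.Agent.MG.KX.Stmt_PDS := Pool.Agent.MG.KX.t_PDS k_PDK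

theorem k_PDA : Pool.Agent.MG.KX.Stmt_PDA := Pool.Agent.MG.KX.t_PDA k_PDK

theorem k_KCE : Pool.Agent.MG.KX.Stmt_KCE := Pool.Agent.MG.KX.t_KCE k_MCA k_MBC k_MTR k_MOC k_MUN k_KST k_DMD k_DMT k_PDK k_PDC k_PDS k_PDA k_KBC

theorem k_MXT : Pool.Agent.MG.KX.Stmt_MXT := Pool.Agent.MG.KX.t_MXT

theorem k_MAI : Pool.Agent.MG.KX.Stmt_MAI := Pool.Agent.MG.KX.t_MAI

theorem k_KSN : Pool.Agent.MG.KX.Stmt_KSN := Pool.Agent.MG.KX.t_KSN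

theorem k_PDI : Pool.Agent.MG.KX.Stmt_PDI := Pool.Agent.MG.KX.t_PDI

theorem k_KCF : Pool.Agent.MG.KX.Stmt_KCF := Pool.Agent.MG.KX.t_KCF k_MCA k_MIS k_MOC k_MXT k_MAU k_MAI k_XAR k_KSN k_KST k_KPX k_PLE k_PDK k_PDS k_PDA k_PDI

theorem k_PDB : Pool.Agent.MG.KX.Stmt_PDB := Pool.Agent.MG.KX.t_PDB k_PDK

theorem k_KCN : Pool.Agent.MG.KX.Stmt_KCN := Pool.Agent.MG.KX.t_KCN k_MCA k_MBC k_MOC k_XAR k_DMD k_PDB k_PDK k_KBC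

theorem k_KCZ : Pool.Agent.MG.KX.Stmt_KCZ := Pool.Agent.MG.KX.t_KCZ k_MCA k_MIS k_MBC k_MOC k_KPX k_DMD k_PDB k_PDK

theorem k_PDT : Pool.Agent.MG.KX.Stmt_PDT := Pool.Agent.MG.KX.t_PDT

theorem k_KCA : Pool.Agent.MG.KX.Stmt_KCA := Pool.Agent.MG.KX.t_KCA k_MCA k_MBC k_MOC k_MAU k_XAU k_DMD k_PDT k_PDK

theorem k_MRX : Pool.Agent.MG.KX.Stmt_MRX := Pool.Agent.MG.KX.t_MRX

theorem k_XRX : Pool.Agent.MG.KX.Stmt_XRX := Pool.Agent.MG.KX.t_XRX k_KPX k_MCA k_MIS k_MRX k_MOC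

theorem k_PDR : Pool.Agent.MG.KX.Stmt_PDR := Pool.Agent.MG.KX.t_PDR

theorem k_KCR : Pool.Agent.MG.KX.Stmt_KCR := Pool.Agent.MG.KX.t_KCR k_MCA k_MBC k_MOC k_MRX k_XRX k_DMD k_PDR k_PDK

theorem k_PDF : Pool.Agent.MG.KX.Stmt_PDF := Pool.Agent.MG.KX.t_PDF

theorem k_KCG : Pool.Agent.MG.KX.Stmt_KCG := Pool.Agent.MG.KX.t_KCG k_MCA k_MBC k_MOC k_MFA k_MFG k_MFO k_XFG k_DMD k_PDF k_PDK k_KPX

theorem k_PDD : Pool.Agent.MG.KX.Stmt_PDD := Pool.Agent.MG.KX.t_PDD k_PDK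

theorem k_GNX : Pool.Agent.MG.KX.Stmt_GNX := Pool.Agent.MG.KX.t_GNX k_MCA k_MIS k_MTR k_MOC k_MXT k_MAU k_MAI k_MTH k_XAR k_KPX k_PLE k_PDK k_PDC k_PDI k_PDD

theorem k_GNB : Pool.Agent.MG.KX.Stmt_GNB := Pool.Agent.MG.KX.t_GNB k_KBC k_SCO k_SKK k_SDB

theorem k_GNP : Pool.Agent.MG.KX.Stmt_GNP := Pool.Agent.MG.KX.t_GNP k_KDM k_GNB

theorem k_GNM : Pool.Agent.MG.KX.Stmt_GNM := Pool.Agent.MG.KX.t_GNM k_KDM

theorem k_NPT : Pool.Agent.MG.H2.Stmt_NPT := Pool.Agent.MG.H2.t_NPT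

theorem k_NMV : Pool.Agent.MG.H2.Stmt_NMV := Pool.Agent.MG.H2.t_NMV k_NPT

theorem k_NMA : Pool.Agent.MG.H2.Stmt_NMA := Pool.Agent.MG.H2.t_NMA k_NPT k_NMV

/-- All inputs of `Asm.lean`. -/
theorem xin : XIn where
  kbc := k_KBC
  kbt := k_KBT
  sdb := k_SDB
  kau := k_KAU
  ple := k_PLE
  kbp := k_KBP
  gks := k_GKS
  kst := k_KST
  ksx := k_KSX
  xar := k_XAR
  xau := k_XAU
  xfg := k_XFG
  win := k_WIN
  kce := k_KCE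
  kcf := k_KCF
  kcn := k_KCN
  kcz := k_KCZ
  kca := k_KCA
  kcr := k_KCR
  kcg := k_KCG
  gnx := k_GNX
  gnp := k_GNP
  gnm := k_GNM
  nma := k_NMA

end Pool.Agent.MG.KX.All

namespace Pool.Agent.MG.KX

/-- `(g, n)`, `g ≥ 3`, from the final statement on Krichever rings. -/
theorem rigid_of (hU : G0.Stmt_UFI) {g : ℕ} (hg : 3 ≤ g) (n : ℕ) : Std.Rigid g n :=
  rigid All.xin hg hU n

end Pool.Agent.MG.KX


end
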