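import Mathlib
import Pool.Agent.KDM.C08
import Pool.Agent.KDM.C16
import Pool.Agent.KDM.C20
import Pool.Agent.KDM.C21
import Pool.Agent.KDM.C28
import Pool.Agent.KDM.C50
import Pool.Agent.KDM.C70
import Pool.Agent.KDM.C75
import Pool.Agent.KDM.C76
import Pool.Agent.KDM.C77
import Pool.Agent.KDM.C84

/-! Parts: MG.H2.NAL, MG.H2.NLY, MG.H2.EndQ, MG.H2.YReg, MG.H2.YRegT, MG.H2.YGN -/

section

/-!
# Integral and invariant elements of an algebraic closure (PAPER_N, NAL)
-/

namespace Pool.Agent.MG.H2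

theorem t_NAL : Stmt_NAL := by
  intro B _ _ _ _ x hx hσ
  obtain ⟨q, rfl⟩ := (InfiniteGalois.mem_range_algebraMap_iff_fixed
    (k := FractionRing B) (K := AlgebraicClosure (FractionRing B)) x).2 hσ
  have hq : IsIntegral B q := by
    refine (isIntegral_algHom_iff (IsScalarTower.toAlgHom B (FractionRing B)
      (AlgebraicClosure (FractionRing B))) ?_).1 hx
    exact (algebraMap (FractionRing B) (AlgebraicClosure (FractionRing B))).injective
  obtain ⟨b, rfl⟩ := IsIntegrallyClosed.isIntegral_iff.1 hq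
  exact ⟨b, IsScalarTower.algebraMap_apply B (FractionRing B) _ b⟩

end Pool.Agent.MG.H2


end

section

/-!
# Homomorphisms to algebraically closed fields extend to integral extensions
-/

open CategoryTheory CategoryTheory.Limits AlgebraicGeometry TensorProduct

namespace Pool.Agent.MG.H2

theorem NLY.main (B R : Type) [CommRing B] [CommRing R] [Algebra B R] [FaithfulSMul B R]
    [Algebra.IsIntegral B R] (L : Type) [Field L] [IsAlgClosed L] (φ : B →+* L) :
    ∃ ψ : R →+* L, ∀ b, ψ (algebraMap B R b) = φ b := by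
  have hp : (RingHom.ker φ).IsPrime := RingHom.ker_isPrime φ
  have h0 : RingHom.ker (algebraMap B R) ≤ RingHom.ker φ := by
    rw [(RingHom.injective_iff_ker_eq_bot _).1 (FaithfulSMul.algebraMap_injective B R)]
    exact bot_le
  obtain ⟨P, -, hP, hPc⟩ := Ideal.exists_ideal_over_prime_of_isIntegral (RingHom.ker φ)
    (⊥ : Ideal R) (by simpa only [RingHom.ker_eq_comap_bot] using h0)
  let _ : Algebra (B ⧸ P.comap (algebraMap B R)) L :=
    (Ideal.Quotient.lift (P.comap (algebraMap B R)) φ (by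
      intro a ha
      rw [hPc] at ha
      exact ha)).toAlgebra
  have hinj : Function.Injective (algebraMap (B ⧸ P.comap (algebraMap B R)) L) := by
    rw [injective_iff_map_eq_zero]
    intro a ha
    obtain ⟨b, rfl⟩ := Ideal.Quotient.mk_surjective a
    have h1 : φ b = 0 := ha
    rw [Ideal.Quotient.eq_zero_iff_mem, hPc]
    exact h1
  have hinj2 : Function.Injective (algebraMap (B ⧸ P.comap (algebraMap B R)) (R ⧸ P)) :=
    FaithfulSMul.algebraMap_injective _ _
  have : IsDomain (B ⧸ P.comap (algebraMap B R)) := inferInstance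
  have : IsDomain (R ⧸ P) := inferInstance
  have : Module.IsTorsionFree (B ⧸ P.comap (algebraMap B R)) L :=
    Module.isTorsionFree_iff_algebraMap_injective.2 hinj
  have : Module.IsTorsionFree (B ⧸ P.comap (algebraMap B R)) (R ⧸ P) :=
    Module.isTorsionFree_iff_algebraMap_injective.2 hinj2
  have : Algebra.IsIntegral (B ⧸ P.comap (algebraMap B R)) (R ⧸ P) := inferInstance
  have : Algebra.IsAlgebraic (B ⧸ P.comap (algebraMap B R)) (R ⧸ P) := inferInstance
  let f : (R ⧸ P) →ₐ[B ⧸ P.comap (algebraMap B R)] L := IsAlgClosed.lift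
  refine ⟨(f : (R ⧸ P) →+* L).comp (Ideal.Quotient.mk P), fun b => ?_⟩
  have h1 : f (algebraMap (B ⧸ P.comap (algebraMap B R)) (R ⧸ P)
      (Ideal.Quotient.mk (P.comap (algebraMap B R)) b)) = _ := f.commutes _
  exact h1

theorem t_NLY : Stmt_NLY := NLY.main

end Pool.Agent.MG.H2


end

section

/-!
# The case `(g, n) = (2, n)`, `n ≥ 1`: every regular function is constant
-/

open CategoryTheory CategoryTheory.Limits AlgebraicGeometry Polynomial

namespace Pool.Agent.MG.H2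

open GeoN

/-- What is used about the curves `y² = f(x)` and their degenerations. -/
structure InpN : Prop where
  hNMA : Stmt_NMA
  hHBC : Stmt_HBC
  hASC : Stmt_ASC
  hATR : Stmt_ATR
  hASW : Stmt_ASW
  hYHT : Stmt_YHT
  hYST : Stmt_YST
  hYSM : Stmt_YSM
  hYOR : Stmt_YOR
  hYAR : Stmt_YAR
  hA : Two2.AlgN_Stmt

/-- The values at the zero covector. -/
noncomputable def InpN.mdl (H : InpN) {n : ℕ} (F : Reg 2 n) : MdlN n :=
  mdlN F t_NPT H.hYHT H.hHBC H.hASC H.hATR H.hASW H.hNMA H.hYST H.hYSM H.hYOR H.hYAR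

/-- The value at the zero covector of a marked curve `y² = ∏ (x - r i)` is constant. -/
theorem InpN.const (H : InpN) {n : ℕ} (F : Reg 2 n) : ∃ c : ℂ,
    ∀ (K : Type) [Field K] [IsAlgClosed K] [Algebra ℂ K] (f : K[X]) (a b : Fin n → K)
      (h : OnC f a b), F.F K (HypS (cf7 f) a b (onh h)) (stab t_NPT H.hYHT h) 0 =
        algebraMap ℂ K c := by
  obtain ⟨c, hc⟩ := (H.mdl F).const t_NAL t_NLY H.hA
  refine ⟨c, fun K _ _ _ f a b h => ?_⟩
  rw [← hc K f a b h]
  exact (VN_eq F t_NPT H.hYHT h).symm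

/-- Every regular function is constant at the zero covectors. -/
theorem InpN.zero (H : InpN) {n : ℕ} (F : Reg 2 n) : ∃ c : ℂ,
    ∀ (K : Type) [Field K] [IsAlgClosed K] [Algebra ℂ K] (C : Fam n K) (hC : IsStable 2 C)
      (_ : Smooth C.π), F.F K C hC 0 = algebraMap ℂ K c := by
  obtain ⟨c, hc⟩ := H.const F
  refine ⟨c, fun K _ _ _ C hC hs => ?_⟩
  have : CharZero K := charZero_of_injective_algebraMap (algebraMap ℂ K).injective
  have hSC := CST.stableCurve hC
  have hs1 : SmoothOfRelativeDimension 1 C.π :=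
    SmNod.smoothOfRelativeDimension_one C.π hSC.nodal
  let C₀ : Fam 0 K := ⟨C.X, C.π, fun i => i.elim0, fun i => i.elim0⟩
  obtain ⟨r, hr, a, ha⟩ := efg C₀ hC.proper hSC.connected hSC.genus hs1
  set f : K[X] := ∏ i, (X - Polynomial.C (r i)) with hf
  have hgood : Two2.Good f := good_rts r hr
  have hst0 : IsStable 2 C₀ := WL.arrow_stable a (H.hYHT (rts r) (hsm hgood))
  have hO : OnC f (MdlN.ab n K) (MdlN.od n f) := MdlN.onC hgood
  have hid : spMap (RingHom.id K) = 𝟙 (Sp K) := Spec.map_id _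
  have hπ : inv a.f ≫ C₀.π = HX.pr K (cf7 f) := by
    rw [IsIso.inv_comp_eq]
    have := a.cart.w
    rw [hid] at this
    exact (this.trans (Category.comp_id _)).symm
  let tr : ∀ x y : K, y ^ 2 = pol (cf7 f) x → (Sp K ⟶ C₀.X) := fun x y h =>
    (show Sp K ⟶ (Hyp (rts r)).X from pnt (cf7 f) x y h) ≫ inv a.f
  have htr : ∀ x y h, tr x y h ≫ C₀.π = 𝟙 (Sp K) := by
    intro x y h
    exact (Category.assoc _ _ _).trans ((congrArg (fun z => (show Sp K ⟶ (Hyp (rts r)).X from
      pnt (cf7 f) x y h) ≫ z) hπ).trans (pnt_pr (cf7 f) x y h))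
  have htf : ∀ x y h, tr x y h ≫ a.f = pnt (cf7 f) x y h := by
    intro x y h
    exact (Category.assoc _ _ _).trans ((congrArg (fun z => (show Sp K ⟶ (Hyp (rts r)).X from
      pnt (cf7 f) x y h) ≫ z) (IsIso.inv_hom_id a.f)).trans (Category.comp_id _))
  have hinj : ∀ {x y x' y' : K} (h : y ^ 2 = pol (cf7 f) x) (h' : y' ^ 2 = pol (cf7 f) x'),
      tr x y h = tr x' y' h' → x = x' := by
    intro x y x' y' h h' e
    have e2 : pnt (cf7 f) x y h = pnt (cf7 f) x' y' h' := by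
      rw [← htf x y h, ← htf x' y' h', e]
    exact pnt_inj (RingHom.id K) h h' (by rw [e2])
  have hinf : {s : Sp K ⟶ C₀.X | s ≫ C₀.π = 𝟙 (Sp K)}.Infinite := by
    let sq : ∀ x : K, ∃ y : K, y ^ 2 = pol (cf7 f) x :=
      fun x => IsAlgClosed.exists_pow_nat_eq _ (by norm_num)
    have hinf : Infinite K := Infinite.of_injective _ (algebraMap ℂ K).injective
    refine Set.infinite_of_injective_forall_mem
      (f := fun x : K => tr x (sq x).choose (sq x).choose_spec) ?_ ?_
    · intro x x' e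
      exact hinj _ _ e
    · intro x
      exact htr _ _ _
  let τ : Fin n → (Sp K ⟶ C₀.X) := fun i => tr (MdlN.ab n K i) (MdlN.od n f i) (onh hO i)
  have hτ : ∀ i, τ i ≫ C₀.π = 𝟙 (Sp K) := fun i => htr _ _ _
  let b : Arrow (RingHom.id K) (wpt C₀ τ hτ)
      (HypS (cf7 f) (MdlN.ab n K) (MdlN.od n f) (onh hO)) := ⟨a.f, a.cart, fun i => by
        rw [hid]
        exact (htf _ _ _).trans (Category.id_comp _).symm⟩
  have h2 : IsStable 2 (wpt C₀ τ hτ) := WL.arrow_stable b (stab t_NPT H.hYHT hO)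
  have iσ : Function.Injective C.σ := by
    intro i j e
    by_contra hc
    exact hSC.distinct i j hc e
  have iτ : Function.Injective τ := by
    intro i j e
    by_contra hc
    exact (hO.dj i j hc).ne_zero (by rw [hinj _ _ e, sub_self])
  have key := H.hNMA 2 le_rfl F C₀ hst0 hs1 hinf C.σ τ C.sec hτ iσ iτ hC h2
  have e1 : F.F K C hC 0 = F.F K (wpt C₀ τ hτ) h2 0 := key
  rw [e1, val0' F (stab t_NPT H.hYHT hO) h2 b]
  exact hc K f _ _ hO

/-- Every regular function is constant. -/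
theorem InpN.all (H : InpN) {n : ℕ} (hn : 1 ≤ n) (F : Reg 2 n) : ∃ c : ℂ,
    ∀ (K : Type) [Field K] [IsAlgClosed K] [Algebra ℂ K] (C : Fam n K) (hC : IsStable 2 C)
      (_ : Smooth C.π) (l : Cov 2 C), F.F K C hC l = algebraMap ℂ K c := by
  obtain ⟨c, hc⟩ := H.zero F
  refine ⟨c, fun K _ _ _ C hC hs l => ?_⟩
  rw [pointed_smooth 2 n le_rfl hn K F C hC hs l]
  exact hc K C hC hs

/-- The generic curve. -/
theorem InpN.rigid (H : InpN) {n : ℕ} (hn : 1 ≤ n) (hNDR : Stmt_NDR) (hNGE : Stmt_NGE) :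
    Std.Rigid 2 n := by
  obtain ⟨K, i1, i2, i3, r, a, hr, ha, hne, hI⟩ := hNDR n
  set f : K[X] := ∏ i, (X - Polynomial.C (r i)) with hf
  have hgood : Two2.Good f := good_rts r hr
  choose b hb using fun i : Fin n =>
    IsAlgClosed.exists_pow_nat_eq (f.eval (a i)) (n := 2) (by norm_num)
  have hO : OnC f a b := by
    refine ⟨hgood, fun i j hij => IsUnit.mk0 _ ?_, hb⟩
    rw [sub_ne_zero]
    exact fun e => hij (ha e)
  have hst : IsStable 2 (HypS (cf7 f) a b (onh hO)) := stab t_NPT H.hYHT hO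
  have hsm : Smooth (HX.pr K (cf7 f)) := by
    have h1 : SmoothOfRelativeDimension 1 (HX.pr K (cf7 f)) := sm_hyp two_unit hgood
    exact SmoothOfRelativeDimension.smooth 1 _
  refine ⟨K, i1, i2, i3, HypS (cf7 f) a b (onh hO), (Std.stable_iff 2 _).2 hst, hsm, ?_, ?_⟩
  · intro d
    exact hNGE r a b (onh hO) hr hne hI (H.hYHT (rts r) (GeoN.hsm hgood)) (Std.Defo.to d)
  · intro F
    obtain ⟨c, hc⟩ := H.all hn (Std.Reg.to F)
    exact ⟨c, fun l => (Std.Reg.to_F F K _ _ l).trans (hc K _ hst hsm (Std.Cov.to l))⟩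

end Pool.Agent.MG.H2


end

section

/-!
# The covector on the family `YX B p t` and the covector on `y² = f(x)`
-/

open CategoryTheory CategoryTheory.Limits AlgebraicGeometry TensorProduct

namespace Pool.Agent.MG.H2

section

variable {B B' : Type} [CommRing B] [CommRing B'] (φ : B →+* B') {p : Fin 7 → B} {t : B}
  {w : B'} {f : Fin 7 → B'}

/-- The scaling at infinity. -/
theorem ySc (htw : φ t * w = 1) (hf : ∀ i, f i = φ (pT p t i)) {lam : B'ˣ}
    (hl : (lam : B') = w ^ 2) :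
    IsSc (lam : B') (w ^ 3) (fun i => φ (pT (rev p) t i)) (rev f) := by
  have h2 : φ t ^ 2 * w ^ 2 = 1 := by rw [← mul_pow, htw, one_pow]
  have h4 : φ t ^ 4 * w ^ 4 = 1 := by rw [← mul_pow, htw, one_pow]
  have h6 : φ t ^ 6 * w ^ 6 = 1 := by rw [← mul_pow, htw, one_pow]
  intro i
  change (w ^ 3) ^ 2 * f (Fin.rev i) = _
  rw [hf, hl]
  fin_cases i
  · change (w ^ 3) ^ 2 * φ (t ^ 6 * p 6) = (w ^ 2) ^ 0 * φ (p 6)
    rw [map_mul, map_pow]
    linear_combination φ (p 6) * h6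
  · change (w ^ 3) ^ 2 * φ (t ^ 4 * p 5) = (w ^ 2) ^ 1 * φ (p 5)
    rw [map_mul, map_pow]
    linear_combination w ^ 2 * φ (p 5) * h4
  · change (w ^ 3) ^ 2 * φ (t ^ 2 * p 4) = (w ^ 2) ^ 2 * φ (p 4)
    rw [map_mul, map_pow]
    linear_combination w ^ 4 * φ (p 4) * h2
  · change (w ^ 3) ^ 2 * φ (p 3) = (w ^ 2) ^ 3 * φ (p 3)
    ring
  · change (w ^ 3) ^ 2 * φ (p 2) = (w ^ 2) ^ 4 * φ (t ^ 2 * p 2)
    rw [map_mul, map_pow]
    linear_combination (-(w ^ 6 * φ (p 2))) * h2
  · change (w ^ 3) ^ 2 * φ (p 1) = (w ^ 2) ^ 5 * φ (t ^ 4 * p 1)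
    rw [map_mul, map_pow]
    linear_combination (-(w ^ 6 * φ (p 1))) * h4
  · change (w ^ 3) ^ 2 * φ (p 0) = (w ^ 2) ^ 6 * φ (t ^ 6 * p 0)
    rw [map_mul, map_pow]
    linear_combination (-(w ^ 6 * φ (p 0))) * h6

variable (htw : φ t * w = 1) (hf : ∀ i, f i = φ (pT p t i))

/-- `w²` as a unit. -/
def ylam (htw : φ t * w = 1) : B'ˣ where
  val := w ^ 2
  inv := φ t ^ 2
  val_inv := by rw [mul_comm, ← mul_pow, htw, one_pow]
  inv_val := by rw [← mul_pow, htw, one_pow]

/-- The map on the chart `Q`. -/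
noncomputable def yQm : QQ B p t →+* A2 B' f :=
  (sc1 (ySc φ htw hf (lam := ylam φ htw) rfl)).comp
    (bc1 φ (f := pT (rev p) t) (f' := fun i => φ (pT (rev p) t i)) (fun _ => rfl))

/-- The map on the edge at infinity. -/
noncomputable def yEm : QN B p t →+* A12 B' (rev f) :=
  (sc12 (ySc φ htw hf (lam := ylam φ htw) rfl)).comp
    (bc12 φ (f := pT (rev p) t) (f' := fun i => φ (pT (rev p) t i)) (fun _ => rfl))

theorem yQm_b (c : B) : yQm φ htw hf (algebraMap B _ c) = algebraMap B' _ (φ c) := by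
  rw [yQm, RingHom.comp_apply, bc1_b, sc1_b]

theorem yQm_x : yQm φ htw hf (x1 B (pT (rev p) t)) =
    algebraMap B' _ (w ^ 2) * x1 B' (rev f) := by
  rw [yQm, RingHom.comp_apply, bc1_x, sc1_x]
  rfl

theorem yQm_y : yQm φ htw hf (y1 B (pT (rev p) t)) =
    algebraMap B' _ (w ^ 3) * y1 B' (rev f) := by
  rw [yQm, RingHom.comp_apply, bc1_y, sc1_y]

theorem yEm_g1 (v : QQ B p t) : yEm φ htw hf (qQ B p t v) = g1 B' (rev f) (yQm φ htw hf v) := by
  rw [yEm, RingHom.comp_apply, yQm, RingHom.comp_apply, bc12_g1, sc12_g1]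

theorem cf_yEm (v : QN B p t) : cf (-2) (yEm φ htw hf v) = φ t * φ (cf (-2) v) ∧
    cf (-1) (yEm φ htw hf v) = w * φ (cf (-1) v) := by
  have e2 : (((ylam φ htw) ^ (-2 : ℤ) : B'ˣ) : B') * w ^ 3 = φ t := by
    have : (ylam φ htw) ^ (-2 : ℤ) = (ylam φ htw)⁻¹ ^ 2 := by
      rw [← zpow_natCast, inv_zpow', Nat.cast_ofNat]
    rw [this, Units.val_pow_eq_pow_val]
    change (φ t ^ 2) ^ 2 * w ^ 3 = φ t
    linear_combination (φ t * (φ t ^ 2 * w ^ 2 + φ t * w + 1)) * htw
  have e1 : (((ylam φ htw) ^ (-1 : ℤ) : B'ˣ) : B') * w ^ 3 = w := by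
    rw [zpow_neg_one]
    change (φ t ^ 2) * w ^ 3 = w
    linear_combination (w * (φ t * w + 1)) * htw
  rw [yEm, RingHom.comp_apply, (cf_sc12 _ _ _).1, (cf_sc12 _ _ _).1, (cf_bc12 φ _ _ _).1,
    (cf_bc12 φ _ _ _).1, e1, e2]
  exact ⟨rfl, rfl⟩

/-- The maps of the charts. -/
noncomputable def yg : ∀ i, yR p t i →+* hR f i
  | .T => bc1 φ hf
  | .N => (bc12 φ hf).comp (nT B p t)
  | .Q => yQm φ htw hf

/-- The maps of the edges. -/
noncomputable def ygE : ∀ e, yRE p t e →+* hRE f e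
  | true => bc12 φ hf
  | false => yEm φ htw hf

/-- The factors of the forms. -/
def cy (w : B') : Bool → Bool → B' := fun k' k => if k = k' then (if k then 1 else w) else 0

/-- Scaling and base change. -/
theorem om_sc' {f : Fin 7 → B} {f' : Fin 7 → B'} {R R₁ R' : Type} [CommRing R] [CommRing R₁]
    [CommRing R'] {c : B →+* R} {c' : B' →+* R₁} {x y : R} {x' y' : R₁} {r : R₁ →+* R'}
    {δ : R₁ → R'} (rel : y ^ 2 = pol (fun i => c (f i)) x) (z : Bz f)
    (rel' : y' ^ 2 = pol (fun i => c' (f' i)) x') (z' : Bz f') (h : DerA c' r δ)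
    (G : R →+* R₁) (hc : ∀ b, G (c b) = c' (φ b)) {lam lami nu nui : B'} (hl : lam * lami = 1)
    (hn : nu * nui = 1) (hf : ∀ i : Fin 7, nu ^ 2 * f' i = lam ^ (i : ℕ) * φ (f i))
    (hx : G x = c' lam * x') (hy : G y = c' nu * y') :
    om z' c' x' y' r δ = r (c' (nu * lami)) * om z c x y (r.comp G) (fun v => δ (G v)) := by
  obtain ⟨h1, h2⟩ := om_pull (φ := φ) rel z h G hc
  set w := om z c x y (r.comp G) (fun v => δ (G v)) with hw
  have hl' : r (c' lam) * r (c' lami) = 1 := by rw [← map_mul, ← map_mul, hl, map_one, map_one]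
  have hn' : r (c' nu) * r (c' nui) = 1 := by rw [← map_mul, ← map_mul, hn, map_one, map_one]
  rw [hx, hy] at h1 h2
  rw [h.cmul, map_mul] at h1
  rw [h.cmul, map_mul] at h2
  have h3 := dpol_sc (lam := r (c' lam)) (nu := r (c' nu)) (f := fun i => r (c' (φ (f i))))
    (f' := fun i => r (c' (f' i))) (fun i => by
      rw [← map_pow, ← map_pow, ← map_pow, ← map_pow, ← map_mul, ← map_mul, ← map_mul, ← map_mul,
        hf i]) (r x')
  refine (om_eq rel' z' ?_ ?_).symm
  · rw [map_mul, map_mul]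
    linear_combination (r (c' lami)) * h1 + δ x' * hl'
  · rw [map_mul, map_mul]
    have e1 : r (c' nu) * dpol (fun i => r (c' (f' i))) (r x') =
        r (c' nui) * r (c' lam) * dpol (fun i => r (c' (φ (f i)))) (r (c' lam) * r x') := by
      linear_combination (r (c' nui)) * h3 - (r (c' nu) * dpol (fun i => r (c' (f' i))) (r x')) * hn'
    linear_combination (r (c' lami) * w) * e1 +
      (r (c' nui) * dpol (fun i => r (c' (φ (f i)))) (r (c' lam) * r x') * w) * hl' +
      (r (c' nui)) * h2 + (2 * δ y') * hn'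

/-- The factors on `T`. -/
noncomputable def tfac1 (p : Fin 7 → B) (t : B) : Bool → TT B p t
  | true => 1
  | false => -(algebraMap B (TT B p t) t * x1 B (pT p t))

/-- The factors on `Q`. -/
noncomputable def qfac1 (p : Fin 7 → B) (t : B) : Bool → QQ B p t
  | true => -(algebraMap B (QQ B p t) t * x1 B (pT (rev p) t))
  | false => 1

theorem tside1 (o : YBz p t) (k : Bool) {R' : Type} [CommRing R'] (r : TT B p t →+* R')
    (δ : TT B p t → R') : ∑ a, r (yp o k .T a) * δ (yq p t k .T a) =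
      r (tfac1 p t k) * om o.zT (algebraMap B (TT B p t)) (x1 B (pT p t))
        (y1 B (pT p t)) r δ := by
  cases k <;>
    simp only [yp, yq, tfac1, om, Fin.sum_univ_two, Matrix.cons_val_zero, Matrix.cons_val_one,
      map_mul, map_neg, map_one, map_ofNat] <;> ring

theorem qside1 (o : YBz p t) (k : Bool) {R' : Type} [CommRing R'] (r : QQ B p t →+* R')
    (δ : QQ B p t → R') : ∑ a, r (yp o k .Q a) * δ (yq p t k .Q a) =
      r (qfac1 p t k) * om o.zQ (algebraMap B (QQ B p t)) (x1 B (pT (rev p) t))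
        (y1 B (pT (rev p) t)) r δ := by
  cases k <;>
    simp only [yp, yq, qfac1, om, Fin.sum_univ_two, Matrix.cons_val_zero, Matrix.cons_val_one,
      map_mul, map_neg, map_one, map_ofNat] <;> ring

/-- The comparison for the form with the number `k'`. -/
theorem y_form1 (o : YBz p t) (o' : HOk f) (k' : Bool) (i : Ct) {R' : Type} [CommRing R']
    (r : hR f i →+* R') (δ : hR f i → R') (hδ : DerA (hc f i) r δ) :
    r (fc f k' i) * omc o' i r δ = r (hc f i (if k' then 1 else w)) *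
        ∑ j, r (yg φ htw hf i (yp o k' i j)) * δ (yg φ htw hf i (yq p t k' i j)) := by
  cases i
  · -- T
    have h1 := tside1 o k' (r.comp (bc1 φ hf)) (fun v => δ (bc1 φ hf v))
    have h2 := om_bc (rel1 B (pT p t)) o.zT (rel1 B' f) o'.z hδ (bc1 φ hf) (bc1_b φ hf) hf
      (bc1_x φ hf) (bc1_y φ hf)
    have e : r (fc f k' .T) = r (algebraMap B' (A1 B' f) (if k' then 1 else w)) *
        r (bc1 φ hf (tfac1 p t k')) := by
      cases k'
      · change r (-x1 B' f) = r (algebraMap B' (A1 B' f) w) *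
          r (bc1 φ hf (-(algebraMap B (TT B p t) t * x1 B (pT p t))))
        rw [← map_mul]
        congr 1
        rw [map_neg, map_mul, bc1_b, bc1_x]
        have : algebraMap B' (A1 B' f) (φ t) * algebraMap B' (A1 B' f) w = 1 := by
          rw [← map_mul, htw, map_one]
        linear_combination (x1 B' f) * this
      · change r 1 = r (algebraMap B' (A1 B' f) 1) * r (bc1 φ hf 1)
        simp
    change r (fc f k' .T) * om o'.z (algebraMap B' (A1 B' f)) (x1 B' f) (y1 B' f) r δ = _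
    rw [h2, e, mul_assoc]
    exact congrArg _ h1.symm
  · -- N
    have h1 := nT_side o k' (r.comp (bc12 φ hf)) (fun v => δ (bc12 φ hf v))
      (hδ.pre (φ := φ) (algebraMap B (TN B p t)) (bc12 φ hf) (bc12_b φ hf))
    have h2 := om_bc (rel12 B (pT p t)) o.zT (rel12 B' f) o'.z hδ (bc12 φ hf) (bc12_b φ hf) hf
      (bc12_x φ hf) (bc12_y φ hf)
    have e : r (fc f k' .N) = r (algebraMap B' (A12 B' f) (if k' then 1 else w)) *
        r (bc12 φ hf (tfac p t k')) := by
      cases k'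
      · change r (-(xu B' f : A12 B' f)) = r (algebraMap B' (A12 B' f) w) *
          r (bc12 φ hf (-(algebraMap B (TN B p t) t * (xu B (pT p t) : TN B p t))))
        rw [← map_mul]
        congr 1
        rw [map_neg, map_mul, bc12_b, bc12_x]
        have : algebraMap B' (A12 B' f) (φ t) * algebraMap B' (A12 B' f) w = 1 := by
          rw [← map_mul, htw, map_one]
        linear_combination (xu B' f : A12 B' f) * this
      · change r 1 = r (algebraMap B' (A12 B' f) 1) * r (bc12 φ hf 1)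
        simp
    change r (fc f k' .N) * om o'.z (algebraMap B' (A12 B' f)) (xu B' f : A12 B' f)
      (yv B' f) r δ = _
    rw [h2, e, mul_assoc]
    exact congrArg _ h1.symm
  · -- Q
    have h1 := qside1 o k' (r.comp (yQm φ htw hf)) (fun v => δ (yQm φ htw hf v))
    have h2 := om_sc' φ (rel1 B (pT (rev p) t)) o.zQ (rel1 B' (rev f)) o'.z' hδ (yQm φ htw hf)
      (yQm_b φ htw hf) (lam := w ^ 2) (lami := φ t ^ 2) (nu := w ^ 3) (nui := φ t ^ 3)
      (by rw [mul_comm, ← mul_pow, htw, one_pow]) (by rw [mul_comm, ← mul_pow, htw, one_pow])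
      (ySc φ htw hf (lam := ylam φ htw) rfl) (yQm_x φ htw hf) (yQm_y φ htw hf)
    have hw : w ^ 3 * φ t ^ 2 = w := by linear_combination (w * (φ t * w + 1)) * htw
    rw [hw] at h2
    have e : r (fc f k' .Q) * r (algebraMap B' (A1 B' (rev f)) w) =
        r (algebraMap B' (A1 B' (rev f)) (if k' then 1 else w)) *
        r (yQm φ htw hf (qfac1 p t k')) := by
      cases k'
      · change r 1 * r (algebraMap B' (A1 B' (rev f)) w) =
          r (algebraMap B' (A1 B' (rev f)) w) * r (yQm φ htw hf 1)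
        simp
      · change r (-x1 B' (rev f)) * r (algebraMap B' (A1 B' (rev f)) w) =
          r (algebraMap B' (A1 B' (rev f)) 1) *
          r (yQm φ htw hf (-(algebraMap B (QQ B p t) t * x1 B (pT (rev p) t))))
        rw [← map_mul, ← map_mul]
        congr 1
        rw [map_neg, map_mul, yQm_b, yQm_x, map_one, map_pow]
        have : algebraMap B' (A1 B' (rev f)) (φ t) * algebraMap B' (A1 B' (rev f)) w = 1 := by
          rw [← map_mul, htw, map_one]
        linear_combination (algebraMap B' (A1 B' (rev f)) w * x1 B' (rev f)) * this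
    change r (fc f k' .Q) * om o'.z' (algebraMap B' (A1 B' (rev f))) (x1 B' (rev f))
      (y1 B' (rev f)) r δ = _
    rw [h2, ← mul_assoc, e, mul_assoc]
    exact congrArg _ h1.symm

theorem y_form (o : YBz p t) (o' : HOk f) (k' : Bool) (i : Ct) {R' : Type} [CommRing R']
    (r : hR f i →+* R') (δ : hR f i → R') (hδ : DerA (hc f i) r δ) :
    ∑ j, r (hp o' k' i j) * δ (hq f i j) =
      ∑ k : Bool, r (hc f i (cy w k' k)) *
        ∑ j, r (yg φ htw hf i (yp o k i j)) * δ (yg φ htw hf i (yq p t k i j)) := by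
  rw [hsum, y_form1 φ htw hf o o' k' i r δ hδ, Fintype.sum_bool]
  cases k'
  · have e1 : cy w false true = 0 := rfl
    have e2 : cy w false false = w := rfl
    rw [e1, e2, map_zero, map_zero, zero_mul, zero_add]
    rfl
  · have e1 : cy w true true = 1 := rfl
    have e2 : cy w true false = 0 := rfl
    rw [e1, e2, map_zero, map_zero, zero_mul, add_zero]
    rfl

/-- The comparison of the forms. -/
noncomputable def yRMap (o : YBz p t) (o' : HOk f) : RMap φ (hRF o') (yRF o) (cy w) where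
  κ := fun i => i
  lam := fun e => e
  hs _ := rfl
  ht _ := rfl
  g := yg φ htw hf
  gE := ygE φ htw hf
  form k' i _ _ r δ hδ := y_form φ htw hf o o' k' i r δ hδ

theorem y_sum (h : B) (c : Fin 3 → B) (h' : B') (c' : Fin 3 → B') (hh : h' = φ h)
    (hc0 : c' 0 = φ (c 0)) (hc1 : c' 1 = φ (t * c 1)) (hc2 : c' 2 = φ (t ^ 2 * c 2))
    (v : Bool → ∀ e, yRE p t e) :
    ∑ k' : Bool, ∑ e' : Bool, mab f (cal h' c' k') (cbe h' c' k') e'
      (∑ k : Bool, hcE f e' (cy w k' k) * ygE φ htw hf e' (v k e')) =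
        φ (∑ k : Bool, ∑ e : Bool, yab p t (cal h c k) (cbe h c k) e (v k e)) := by
  have key : ∀ (k : Bool) (al be : B) (al' be' : B'),
      (if k then 1 else w) * al' = φ al → (if k then 1 else w) * be' = φ t * φ be →
      mab f al' be' true (hcE f true (if k then 1 else w) * ygE φ htw hf true (v k true)) +
        mab f al' be' false (hcE f false (if k then 1 else w) *
          ygE φ htw hf false (v k false)) =
      φ (yab p t al be true (v k true) + yab p t al be false (v k false)) := by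
    intro k al be al' be' h1 h2
    rw [mab_smul, mab_smul]
    obtain ⟨q2, q1⟩ := cf_yEm φ htw hf (v k false)
    have e1 : mab f al' be' true (ygE φ htw hf true (v k true)) =
        al' * φ (cf (f := pT p t) (-1) (v k true)) - be' * φ (cf (f := pT p t) (-2) (v k true)) := by
      change al' * cf (f := f) (-1) (bc12 φ hf (v k true)) -
        be' * cf (f := f) (-2) (bc12 φ hf (v k true)) = _
      rw [(cf_bc12 φ hf _ _).1, (cf_bc12 φ hf _ _).1]
    have e2 : mab f al' be' false (ygE φ htw hf false (v k false)) =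
        - al' * (φ t * φ (cf (f := pT (rev p) t) (-2) (v k false))) +
          be' * (w * φ (cf (f := pT (rev p) t) (-1) (v k false))) := by
      change - al' * cf (f := rev f) (-2) (yEm φ htw hf (v k false)) +
        be' * cf (f := rev f) (-1) (yEm φ htw hf (v k false)) = _
      rw [q1, q2]
    have e3 : yab p t al be true (v k true) + yab p t al be false (v k false) =
        (al * cf (f := pT p t) (-1) (v k true) - t * be * cf (f := pT p t) (-2) (v k true)) +
        (- (t * al) * cf (f := pT (rev p) t) (-2) (v k false) +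
          be * cf (f := pT (rev p) t) (-1) (v k false)) := rfl
    rw [e1, e2, e3]
    simp only [map_add, map_sub, map_mul, map_neg]
    set x1 := φ (cf (f := pT p t) (-1) (v k true))
    set x2 := φ (cf (f := pT p t) (-2) (v k true))
    set x3 := φ (cf (f := pT (rev p) t) (-2) (v k false))
    set x4 := φ (cf (f := pT (rev p) t) (-1) (v k false))
    linear_combination (x1 - φ t * x3) * h1 + (w * x4 - x2) * h2 + (φ be * x4) * htw
  have hs : ∀ (k' : Bool) (e' : Bool), ∑ k : Bool, hcE f e' (cy w k' k) *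
      ygE φ htw hf e' (v k e') = hcE f e' (if k' then 1 else w) * ygE φ htw hf e' (v k' e') := by
    intro k' e'
    rw [Fintype.sum_bool]
    cases k'
    · have a1 : cy w false true = 0 := rfl
      have a2 : cy w false false = w := rfl
      rw [a1, a2, map_zero, zero_mul, zero_add]
      rfl
    · have a1 : cy w true true = 1 := rfl
      have a2 : cy w true false = 0 := rfl
      rw [a1, a2, map_zero, zero_mul, add_zero]
      rfl
  have K1 := key true (cal h c true) (cbe h c true) (cal h' c' true) (cbe h' c' true)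
    (by simp only [cal, if_true, hc0, one_mul])
    (by
      simp only [cbe, if_true, hh, hc1, map_mul, one_mul]
      ring)
  have K0 := key false (cal h c false) (cbe h c false) (cal h' c' false) (cbe h' c' false)
    (by
      simp only [cal, Bool.false_eq_true, if_false, hh, hc1, map_mul]
      linear_combination (φ h * φ (c 1)) * htw)
    (by
      simp only [cbe, Bool.false_eq_true, if_false, hc2, map_mul, map_pow]
      linear_combination (φ t * φ (c 2)) * htw)
  have e : ∀ k' : Bool, ∑ e' : Bool, mab f (cal h' c' k') (cbe h' c' k') e'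
      (∑ k : Bool, hcE f e' (cy w k' k) * ygE φ htw hf e' (v k e')) =
      mab f (cal h' c' k') (cbe h' c' k') true (hcE f true (if k' then 1 else w) *
        ygE φ htw hf true (v k' true)) +
      mab f (cal h' c' k') (cbe h' c' k') false (hcE f false (if k' then 1 else w) *
        ygE φ htw hf false (v k' false)) := by
    intro k'
    rw [Fintype.sum_bool, hs, hs]
  have e' : ∀ k : Bool, ∑ e : Bool, yab p t (cal h c k) (cbe h c k) e (v k e) =
      yab p t (cal h c k) (cbe h c k) true (v k true) +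
        yab p t (cal h c k) (cbe h c k) false (v k false) := fun k => Fintype.sum_bool _
  rw [Fintype.sum_bool, e, e, Fintype.sum_bool, e', e', map_add, K1, K0]

include htw in
/-- The covectors are compatible along the arrow. -/
theorem y_compat (o : YBz p t) (o' : HOk f) (g : QQ B p t →+* A2 B' f)
    (hg : ∀ c, g (algebraMap B _ c) = algebraMap B' _ (φ c))
    (hgx : g (x1 B (pT (rev p) t)) = algebraMap B' _ w ^ 2 * x1 B' (rev f))
    (hgy : g (y1 B (pT (rev p) t)) = algebraMap B' _ w ^ 3 * y1 B' (rev f))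
    (a : Arrow φ (Hyp f) (Yam p t)) (a1 : HX.in1 B' f ≫ a.f = spMap (bc1 φ hf) ≫ YX.inT B p t)
    (a2 : HX.in2 B' f ≫ a.f = spMap g ≫ YX.inQ B p t)
    (h : B) (c : Fin 3 → B) (h' : B') (c' : Fin 3 → B') (hh : h' = φ h)
    (hc0 : c' 0 = φ (c 0)) (hc1 : c' 1 = φ (t * c 1)) (hc2 : c' 2 = φ (t ^ 2 * c 2)) (G : ℕ) :
    Compat a (hcov o' h' c' G) (ycov o h c G) := by
  have eg : g = yQm φ htw hf := by
    refine hom1_ext (fun b => ?_) ?_ ?_
    · rw [hg, yQm_b]
    · rw [hgx, yQm_x, map_pow]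
    · rw [hgy, yQm_y, map_pow]
  rw [eg] at a2
  have eT : spMap (g1 B' f) ≫ HX.in1 B' f ≫ a.f =
      spMap (bc12 φ hf) ≫ spMap (tT B p t) ≫ YX.inT B p t := by
    refine (congrArg (spMap (g1 B' f) ≫ ·) a1).trans ?_
    refine (spMap_comp_assoc' _ _ _).trans (Eq.trans ?_ (spMap_comp_assoc' _ _ _).symm)
    congr 2
    exact RingHom.ext fun v => (bc12_g1 φ hf v).symm
  refine (yRMap φ htw hf o o').compat a (hCh o') (yCh o) ?_ ?_ (hRM o' h' c') (yRM o h c) ?_ G
  · intro i
    cases i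
    · exact a1
    · change (spMap (g1 B' f) ≫ HX.in1 B' f) ≫ a.f =
        spMap ((bc12 φ hf).comp (nT B p t)) ≫ YX.inN B p t
      refine (Category.assoc _ _ _).trans (eT.trans ?_)
      refine (congrArg (spMap (bc12 φ hf) ≫ ·) (YX.condT B p t).symm).trans ?_
      exact spMap_comp_assoc' _ _ _
    · exact a2
  · intro e
    cases e
    · change (spMap (g1 B' (rev f)) ≫ HX.in2 B' f) ≫ a.f =
        spMap (yEm φ htw hf) ≫ spMap (qQ B p t) ≫ YX.inQ B p t
      refine (Category.assoc _ _ _).trans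
        ((congrArg (spMap (g1 B' (rev f)) ≫ ·) a2).trans ?_)
      refine (spMap_comp_assoc' _ _ _).trans (Eq.trans ?_ (spMap_comp_assoc' _ _ _).symm)
      congr 2
      exact RingHom.ext fun v => (yEm_g1 φ htw hf v).symm
    · change (spMap (g1 B' f) ≫ HX.in1 B' f) ≫ a.f =
        spMap (bc12 φ hf) ≫ spMap (tT B p t) ≫ YX.inT B p t
      exact (Category.assoc _ _ _).trans eT
  · intro v
    exact y_sum φ htw hf h c h' c' hh hc0 hc1 hc2 v

end

end Pool.Agent.MG.H2


end

section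

/-!
# REG: the family in which the curves degenerate to two elliptic curves
-/

open CategoryTheory CategoryTheory.Limits AlgebraicGeometry Polynomial

namespace Pool.Agent.MG.H2

/-- Bezout data and smoothness of the charts. -/
noncomputable def YOk.ybz {B : Type} [CommRing B] {p : Fin 7 → B} {t : B} (h : YOk B p t) :
    YBz p t where
  zT := GeoA.bz h.sT
  zQ := GeoA.bz h.sQ
  U := h.sN.choose
  V := h.sN.choose_spec.choose
  h := h.sN.choose_spec.choose_spec
  sT := GeoA.fsm h.two h.sT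
  sQ := GeoA.fsm h.two h.sQ

theorem qc {B : Type} [CommRing B] (a b c : B) :
    (C a + C b * X + C c * X ^ 2 : B[X]).coeff 0 = a ∧
    (C a + C b * X + C c * X ^ 2 : B[X]).coeff 1 = b ∧
    (C a + C b * X + C c * X ^ 2 : B[X]).coeff 2 = c := by
  simp only [coeff_add, coeff_C_mul, coeff_X_pow, coeff_X, coeff_C]
  norm_num

theorem t_REG (hYST : Stmt_YST) (hYOR : Stmt_YOR) (hYAR : Stmt_YAR) : Stmt_REG := by
  intro B K _ _ _ _ _ φ hφ s ρ r e hs hρ hr hr0 hrρ hf
  have h2 : IsUnit (2 : B) := by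
    have := (IsUnit.mk0 (2 : ℂ) two_ne_zero).map (algebraMap ℂ B)
    rwa [map_ofNat] at this
  obtain ⟨p, hok, hp⟩ := hYOR s ρ r h2 hρ hr hr0 hrρ
  have hs' : (φ : B →+* K) s ≠ 0 := by
    intro h
    apply hs
    apply hφ
    rw [map_zero]
    exact h
  have htw : (φ : B →+* K) s * ((φ : B →+* K) s)⁻¹ = 1 := mul_inv_cancel₀ hs'
  have hfi : ∀ i : Fin 7, cf7 (((∏ i, (X - C (ρ i))) *
      ∏ j, (C (s ^ 2) * X - C (r j)) : B[X]).map (φ : B →+* K)) i =
      (φ : B →+* K) (pT p s i) := by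
    intro i
    rw [hp, cf7, coeff_map]
  obtain ⟨g, a, g1, g2, g3, a1, a2⟩ := hYAR (φ : B →+* K) p s _ htw _ hfi
  refine ⟨Yam p s, hYST p s hok, ycov hok.ybz (GeoA.half B) ![e 0, -e 1, e 2] 2, a, ?_⟩
  refine y_compat (φ : B →+* K) htw hfi hok.ybz (GeoA.hok hf) g g1 g2 g3 a a1 a2
    (GeoA.half B) ![e 0, -e 1, e 2] (GeoA.half K) _ ?_ ?_ ?_ ?_ 2
  · exact (φ.commutes _).symm
  · change (((C (e 0) + C (s * e 1) * X + C (s ^ 2 * e 2) * X ^ 2 : B[X]).map
      (φ : B →+* K)).coeff 0) = (φ : B →+* K) (e 0)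
    rw [coeff_map, (qc _ _ _).1]
  · change -(((C (e 0) + C (s * e 1) * X + C (s ^ 2 * e 2) * X ^ 2 : B[X]).map
      (φ : B →+* K)).coeff 1) = (φ : B →+* K) (s * -e 1)
    rw [coeff_map, ← map_neg, (qc _ _ _).2.1, mul_neg]
  · change (((C (e 0) + C (s * e 1) * X + C (s ^ 2 * e 2) * X ^ 2 : B[X]).map
      (φ : B →+* K)).coeff 2) = (φ : B →+* K) (s ^ 2 * e 2)
    rw [coeff_map, (qc _ _ _).2.2]

end Pool.Agent.MG.H2


end

section

/-!
# YGN: the genus of the curves `YX K p 0`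
-/

set_option linter.unusedSectionVars false

open CategoryTheory CategoryTheory.Limits AlgebraicGeometry TensorProduct

namespace Pool.Agent.MG.H2

namespace YGN

theorem evO_eq {A : Type} [CommRing A] {X : Scheme.{0}} {i i' : Sp A ⟶ X} (e : i = i')
    {U : X.Opens} (h : ⊤ ≤ i ⁻¹ᵁ U) (h' : ⊤ ≤ i' ⁻¹ᵁ U) (a : Γ(X, U)) :
    evO i U h a = evO i' U h' a := by
  subst e
  rfl

section Three

variable {K N T Q MT MQ : Type} [Field K] [CommRing N] [CommRing T] [CommRing Q] [CommRing MT]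
  [CommRing MQ] {X : Scheme.{0}} (π : X ⟶ Sp K) (iN : Sp N ⟶ X) (iT : Sp T ⟶ X) (iQ : Sp Q ⟶ X)
  [IsOpenImmersion iN] [IsOpenImmersion iT] [IsOpenImmersion iQ]
  (nT : N →+* MT) (tT : T →+* MT) (nQ : N →+* MQ) (qQ : Q →+* MQ)

/-- The genus of a curve with three affine charts `N`, `T`, `Q` such that `T` and `Q` are
disjoint. -/
theorem genus_three (hT : spMap nT ≫ iN = spMap tT ≫ iT) (hQ : spMap nQ ≫ iN = spMap qQ ≫ iQ)
    (oT : IsOpenImmersion (spMap nT ≫ iN)) (oQ : IsOpenImmersion (spMap nQ ≫ iN))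
    (mT : ∀ x y, iN x = iT y → iN x ∈ Set.range (spMap nT ≫ iN))
    (mQ : ∀ x y, iN x = iQ y → iN x ∈ Set.range (spMap nQ ≫ iN))
    (hTQ : ∀ x y, iT x ≠ iQ y) (haff : IsAffineOpen (iT.opensRange ⊔ iQ.opensRange))
    (cov : ∀ x : X, x ∈ Set.range iT ∨ x ∈ Set.range iN ∨ x ∈ Set.range iQ)
    (κT : K →+* MT) (hκT : (spMap nT ≫ iN) ≫ π = spMap κT)
    (κQ : K →+* MQ) (hκQ : (spMap nQ ≫ iN) ≫ π = spMap κQ)
    (LT : MT →+ K) (LQ : MQ →+ K) (lT : ∀ c s, LT (κT c * s) = c * LT s)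
    (lQ : ∀ c s, LQ (κQ c * s) = c * LQ s) (sT : ∀ c, ∃ s, LT s = c) (sQ : ∀ c, ∃ s, LQ s = c)
    (ker : ∀ a b, (LT a = 0 ∧ LQ b = 0) ↔ ∃ n r s, a = nT n + tT r ∧ b = nQ n + qQ s) :
    HasGenus π 2 := by
  obtain ⟨U, hU⟩ : ∃ U, U = iN.opensRange := ⟨_, rfl⟩
  obtain ⟨V, hV⟩ : ∃ V, V = iT.opensRange ⊔ iQ.opensRange := ⟨_, rfl⟩
  have mU : ∀ x, x ∈ U ↔ x ∈ Set.range iN := by
    intro x
    rw [hU]
    exact Iff.rfl
  have mV : ∀ x, x ∈ V ↔ x ∈ Set.range iT ∨ x ∈ Set.range iQ := by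
    intro x
    rw [hV]
    exact Iff.rfl
  have aU : IsAffineOpen U := by
    rw [hU]
    exact isAffineOpen_opensRange iN
  have aV : IsAffineOpen V := by
    rw [hV]
    exact haff
  have eT : ∀ p, (spMap nT ≫ iN) p = iT (spMap tT p) := by
    intro p
    rw [hT, Scheme.Hom.comp_apply]
  have eQ : ∀ p, (spMap nQ ≫ iN) p = iQ (spMap qQ p) := by
    intro p
    rw [hQ, Scheme.Hom.comp_apply]
  have hTU : ⊤ ≤ (spMap nT ≫ iN) ⁻¹ᵁ U := le_of_range _ fun p => (mU _).2
    ⟨spMap nT p, (Scheme.Hom.comp_apply _ _ _).symm⟩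
  have hQU : ⊤ ≤ (spMap nQ ≫ iN) ⁻¹ᵁ U := le_of_range _ fun p => (mU _).2
    ⟨spMap nQ p, (Scheme.Hom.comp_apply _ _ _).symm⟩
  have hTV : ⊤ ≤ (spMap nT ≫ iN) ⁻¹ᵁ V := le_of_range _ fun p => (mV _).2
    (Or.inl ⟨_, (eT p).symm⟩)
  have hQV : ⊤ ≤ (spMap nQ ≫ iN) ⁻¹ᵁ V := le_of_range _ fun p => (mV _).2
    (Or.inr ⟨_, (eQ p).symm⟩)
  have hTUV : ⊤ ≤ (spMap nT ≫ iN) ⁻¹ᵁ (U ⊓ V) := fun p hp => ⟨hTU hp, hTV hp⟩
  have hQUV : ⊤ ≤ (spMap nQ ≫ iN) ⁻¹ᵁ (U ⊓ V) := fun p hp => ⟨hQU hp, hQV hp⟩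
  have hNU : ⊤ ≤ iN ⁻¹ᵁ U := le_of_range _ fun p => (mU _).2 ⟨p, rfl⟩
  have hTV' : ⊤ ≤ iT ⁻¹ᵁ V := le_of_range _ fun p => (mV _).2 (Or.inl ⟨p, rfl⟩)
  have hQV' : ⊤ ≤ iQ ⁻¹ᵁ V := le_of_range _ fun p => (mV _).2 (Or.inr ⟨p, rfl⟩)
  have hUV : ∀ x ∈ U ⊓ V, x ∈ Set.range (spMap nT ≫ iN) ∨ x ∈ Set.range (spMap nQ ≫ iN) := by
    rintro x ⟨hx1, hx2⟩
    obtain ⟨p, rfl⟩ := (mU x).1 hx1
    rcases (mV _).1 hx2 with ⟨q, hq⟩ | ⟨q, hq⟩
    · exact Or.inl (mT p q hq.symm)
    · exact Or.inr (mQ p q hq.symm)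
  have dis : ∀ x y, (spMap nT ≫ iN) x ≠ (spMap nQ ≫ iN) y := by
    intro x y h
    rw [eT, eQ] at h
    exact hTQ _ _ h
  -- evaluation of restrictions
  have r1 : ∀ b : Γ(X, U), evO (spMap nT ≫ iN) (U ⊓ V) hTUV (rs X inf_le_left b) =
      nT (evO iN U hNU b) := by
    intro b
    rw [evO_rs _ inf_le_left hTUV hTU, evO_spMap iN nT hNU hTU]
  have r2 : ∀ b : Γ(X, U), evO (spMap nQ ≫ iN) (U ⊓ V) hQUV (rs X inf_le_left b) =
      nQ (evO iN U hNU b) := by
    intro b
    rw [evO_rs _ inf_le_left hQUV hQU, evO_spMap iN nQ hNU hQU]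
  have r3 : ∀ b : Γ(X, V), evO (spMap nT ≫ iN) (U ⊓ V) hTUV (rs X inf_le_right b) =
      tT (evO iT V hTV' b) := by
    intro b
    have h' : ⊤ ≤ (spMap tT ≫ iT) ⁻¹ᵁ V := hT ▸ hTV
    rw [evO_rs _ inf_le_right hTUV hTV, evO_eq hT hTV h', evO_spMap iT tT hTV' h']
  have r4 : ∀ b : Γ(X, V), evO (spMap nQ ≫ iN) (U ⊓ V) hQUV (rs X inf_le_right b) =
      qQ (evO iQ V hQV' b) := by
    intro b
    have h' : ⊤ ≤ (spMap qQ ≫ iQ) ⁻¹ᵁ V := hQ ▸ hQV
    rw [evO_rs _ inf_le_right hQUV hQV, evO_eq hQ hQV h', evO_spMap iQ qQ hQV' h']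
  let L : Γ(X, U ⊓ V) →+ (Fin 2 → K) :=
    { toFun := fun s => ![LT (evO (spMap nT ≫ iN) (U ⊓ V) hTUV s),
        LQ (evO (spMap nQ ≫ iN) (U ⊓ V) hQUV s)]
      map_zero' := by
        funext i
        fin_cases i
        · change LT _ = 0
          rw [map_zero, map_zero]
        · change LQ _ = 0
          rw [map_zero, map_zero]
      map_add' := by
        intro s t
        funext i
        fin_cases i
        · change LT _ = LT _ + LT _
          rw [map_add, map_add]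
        · change LQ _ = LQ _ + LQ _
          rw [map_add, map_add] }
  have L0 : ∀ s, L s 0 = LT (evO (spMap nT ≫ iN) (U ⊓ V) hTUV s) := fun s => rfl
  have L1 : ∀ s, L s 1 = LQ (evO (spMap nQ ≫ iN) (U ⊓ V) hQUV s) := fun s => rfl
  refine ⟨U, V, aU, aV, ?_, L, ?_, ?_, ?_⟩
  · ext x
    simp only [TopologicalSpace.Opens.coe_sup, Set.mem_union, TopologicalSpace.Opens.coe_top,
      Set.mem_univ, iff_true, SetLike.mem_coe]
    rw [mU, mV]
    rcases cov x with h | h | h
    · exact Or.inr (Or.inl h)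
    · exact Or.inl h
    · exact Or.inr (Or.inr h)
  · intro v
    obtain ⟨a, ha⟩ := sT (v 0)
    obtain ⟨b, hb⟩ := sQ (v 1)
    obtain ⟨s, hs1, hs2⟩ := evO_ex (spMap nT ≫ iN) (spMap nQ ≫ iN) hTUV hQUV hUV dis a b
    refine ⟨s, ?_⟩
    funext i
    fin_cases i
    · change L s 0 = v 0
      rw [L0, hs1, ha]
    · change L s 1 = v 1
      rw [L1, hs2, hb]
  · intro c s
    funext i
    fin_cases i
    · change L (coef π (U ⊓ V) c * s) 0 = c * L s 0
      rw [L0, L0, map_mul, evO_coef _ π κT hκT, lT]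
    · change L (coef π (U ⊓ V) c * s) 1 = c * L s 1
      rw [L1, L1, map_mul, evO_coef _ π κQ hκQ, lQ]
  · intro s
    have hL : L s = 0 ↔ (LT (evO (spMap nT ≫ iN) (U ⊓ V) hTUV s) = 0 ∧
        LQ (evO (spMap nQ ≫ iN) (U ⊓ V) hQUV s) = 0) := by
      constructor
      · intro h
        refine ⟨?_, ?_⟩
        · rw [← L0, h]
          rfl
        · rw [← L1, h]
          rfl
      · rintro ⟨h1, h2⟩
        funext i
        fin_cases i
        · change L s 0 = 0
          rw [L0, h1]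
        · change L s 1 = 0
          rw [L1, h2]
    rw [hL, ker]
    constructor
    · rintro ⟨n, r, q, h1, h2⟩
      obtain ⟨a, ha⟩ := (evO_bij iN hNU (fun x hx => (mU x).1 hx)).2 n
      obtain ⟨b, hb1, hb2⟩ := evO_ex iT iQ hTV' hQV' (fun x hx => (mV x).1 hx) hTQ r q
      refine ⟨a, b, ?_⟩
      rw [← sub_eq_zero]
      refine evO_un (spMap nT ≫ iN) (spMap nQ ≫ iN) hTUV hQUV hUV _ ?_ ?_
      · change evO (spMap nT ≫ iN) (U ⊓ V) hTUV
          (s - (rs X inf_le_left a + rs X inf_le_right b)) = 0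
        rw [map_sub, map_add, r1, r3, ha, hb1, h1, sub_self]
      · change evO (spMap nQ ≫ iN) (U ⊓ V) hQUV
          (s - (rs X inf_le_left a + rs X inf_le_right b)) = 0
        rw [map_sub, map_add, r2, r4, ha, hb2, h2, sub_self]
    · rintro ⟨a, b, h⟩
      refine ⟨evO iN U hNU a, evO iT V hTV' b, evO iQ V hQV' b, ?_, ?_⟩
      · rw [← r1, ← r3, ← map_add]
        exact congrArg _ h
      · rw [← r2, ← r4, ← map_add]
        exact congrArg _ h

end Three

theorem cf_surj {B : Type} [CommRing B] {f : Fin 7 → B} (c : B) : ∃ v : A12 B f, cf (-1) v = c :=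
  ⟨algebraMap B (A12 B f) c * ((xu B f) ^ (-1 : ℤ) : (A12 B f)ˣ).val * yv B f, by
    rw [cf_mono_y, if_pos rfl]⟩

end YGN

/-- YGN: the genus. -/
theorem t_YGN (hUA : Stmt_YUA) (hGA : Stmt_YGA) : Stmt_YGN := by
  intro K _ p
  obtain ⟨hdis, haff⟩ := hUA K p
  refine YGN.genus_three (YX.pr K p 0) (YX.inN K p 0) (YX.inT K p 0) (YX.inQ K p 0) (nT K p 0)
    (tT K p 0) (nQ K p 0) (qQ K p 0) (YX.condT K p 0) (YX.condQ K p 0) inferInstance inferInstance
    ?_ ?_ ?_ haff (fun x => YX.surj3 x) (algebraMap K (TN K p 0)) ?_ (algebraMap K (QN K p 0)) ?_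
    (cf (-1) : TN K p 0 →ₗ[K] K).toAddMonoidHom (cf (-1) : QN K p 0 →ₗ[K] K).toAddMonoidHom
    (fun c s => cf_b c (-1) s) (fun c s => cf_b c (-1) s) (fun c => YGN.cf_surj c)
    (fun c => YGN.cf_surj c) (fun a b => hGA K p a b)
  · intro x y h
    obtain ⟨w, hw, -⟩ := YX.meetNT x y h
    refine ⟨w, ?_⟩
    rw [Scheme.Hom.comp_apply, hw]
  · intro x y h
    obtain ⟨w, hw, -⟩ := YX.meetNQ x y h
    refine ⟨w, ?_⟩
    rw [Scheme.Hom.comp_apply, hw]
  · intro x y h
    have h1 : YX.inT K p 0 x ∈ (YX.inT K p 0).opensRange ⊓ (YX.inQ K p 0).opensRange :=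
      ⟨⟨x, rfl⟩, ⟨y, h.symm⟩⟩
    rw [hdis] at h1
    exact h1
  · rw [Category.assoc, YX.inN_pr, spMap_comp']
    exact congrArg (fun f => spMap f) (RingHom.ext fun c => nT_c K p 0 c)
  · rw [Category.assoc, YX.inN_pr, spMap_comp']
    exact congrArg (fun f => spMap f) (RingHom.ext fun c => nQ_c K p 0 c)

end Pool.Agent.MG.H2


end
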