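import Mathlib
import Pool.Agent.KDM.C12
import Pool.Agent.KDM.C20
import Pool.Agent.KDM.C21
import Pool.Agent.KDM.C23
import Pool.Agent.KDM.C28
import Pool.Agent.KDM.C33
import Pool.Agent.KDM.C37
import Pool.Agent.KDM.C43
import Pool.Agent.KDM.C47
import Pool.Agent.KDM.C55
import Pool.Agent.KDM.C57
import Pool.Agent.KDM.C59
import Pool.Agent.KDM.C65
import Pool.Agent.KDM.C69
import Pool.Agent.KDM.C73
import Pool.Agent.KDM.C75
import Pool.Agent.KDM.C80
import Pool.Agent.KDM.C82
import Pool.Agent.KDM.C86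
import Pool.Agent.KDM.C94
import Pool.Agent.KDM.C95
import Pool.Agent.KDM.C97

/-! Parts: MG.H2.FinH, MG.H2.YFI, MG.H2.YND, MG.H2.YNN, MG.H2.YSQ, MG.H2.FinI -/

section

/-!
# Genus two: every regular function is constant
-/

open CategoryTheory CategoryTheory.Limits AlgebraicGeometry Polynomial

namespace Pool.Agent.MG.H2

/-- The remaining inputs. -/
structure Inp : Prop where
  hHTR : Stmt_HTR
  hYHT : Stmt_YHT
  hYST : Stmt_YST
  hYSM : Stmt_YSM
  hYOR : Stmt_YOR
  hYAR : Stmt_YAR
  hVAL : Stmt_VAL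
  hREG : Stmt_REG

theorem Inp.inpN (H : Inp) : InpN where
  hNMA := t_NMA t_NPT (t_NMV t_NPT)
  hHBC := t_HBC
  hASC := t_ASC
  hATR := t_ATR
  hASW := t_ASW
  hYHT := H.hYHT
  hYST := H.hYST
  hYSM := H.hYSM
  hYOR := H.hYOR
  hYAR := H.hYAR
  hA := Two2.algN

/-- The data in genus two. -/
noncomputable def Inp.mdl (H : Inp) : Mdl := H2.mdl H.hHTR H.hYHT H.hVAL H.hREG

/-- Every regular function is constant. -/
theorem Inp.all (H : Inp) (n : ℕ) (F : Reg 2 n) : ∃ c : ℂ,
    ∀ (K : Type) [Field K] [IsAlgClosed K] [Algebra ℂ K] (C : Fam n K) (hC : IsStable 2 C)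
      (_ : Smooth C.π) (l : Cov 2 C), F.F K C hC l = algebraMap ℂ K c := by
  rcases Nat.eq_zero_or_pos n with rfl | hn
  · obtain ⟨c, hc⟩ := H.mdl.end20 Two2.alg ef F
    refine ⟨c, fun K _ _ _ C hC hs l => hc K C hC ?_ l⟩
    exact SmNod.smoothOfRelativeDimension_one C.π (CST.stableCurve hC).nodal
  · exact H.inpN.all hn F

theorem hsm_rts {K : Type} [Field K] [CharZero K] (r : Fin 6 → K) (hr : Function.Injective r) :
    Smooth (HX.pr K (rts r)) := by
  have h2 : IsUnit (2 : K) := isUnit_iff_ne_zero.2 two_ne_zero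
  have h1 : SmoothOfRelativeDimension 1 (HX.pr K (rts r)) := sm_hyp h2 (good_rts r hr)
  exact SmoothOfRelativeDimension.smooth 1 _

/-- The generic curve. -/
theorem Inp.rigid (H : Inp) (n : ℕ) : Std.Rigid 2 n := by
  rcases Nat.eq_zero_or_pos n with rfl | hn
  · exact H.mdl.rigid20 Two2.alg t_HDR
      (t_HGE (t_HE (t_HEA t_HRG)) H.hHTR t_HLI t_HBC) hsm_rts
  · exact H.inpN.rigid hn t_NDR (t_NGE (t_HE (t_HEA t_HRG)) H.hHTR t_HLI t_HBC)

/-- Every regular function is constant, for the definitions of the hand-in. -/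
theorem Inp.std (H : Inp) (n : ℕ) (F : Std.Reg 2 n) : ∃ c : ℂ,
    ∀ (K : Type) [Field K] [IsAlgClosed K] [Algebra ℂ K] (C : Fam n K) (hC : Std.IsStable 2 C)
      (_ : Smooth C.π) (l : Std.Cov 2 C), F.F K C hC l = algebraMap ℂ K c := by
  obtain ⟨c, hc⟩ := H.all n (Std.Reg.to F)
  refine ⟨c, fun K _ _ _ C hC hs l => ?_⟩
  exact (Std.Reg.to_F F K _ _ l).trans (hc K C ((Std.stable_iff 2 C).1 hC) hs (Std.Cov.to l))

end Pool.Agent.MG.H2


end

section

/-!
# The fibres of the families `Yam p t`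
-/

open CategoryTheory CategoryTheory.Limits AlgebraicGeometry TensorProduct

namespace Pool.Agent.MG.H2

theorem t_YFI (hCN : Stmt_YCN) (hND : Stmt_YND) (hGN : Stmt_YGN) (hRI : Stmt_YRI)
    (hHX : Stmt_YHX) (hOU : Stmt_YOU) (hHC : Stmt_YHC) (hHS : Stmt_YHS) (hHG : Stmt_YHG)
    (hHR : Stmt_YHR) : Stmt_YFI := by
  intro K _ _ p t h
  by_cases ht : t = 0
  · subst ht
    exact
      { connected := hCN K p h
        nodal := hND K p h
        genus := hGN K p
        distinct := fun i => i.elim0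
        smooth := fun i => i.elim0
        rigid := hRI p h }
  · have hu : IsUnit t := isUnit_iff_ne_zero.2 ht
    obtain ⟨s1, s2⟩ := (hOU p t hu h.two).2 h
    have hs : HSm K (pT p t) := ⟨h.two, s1, s2⟩
    have hH : StableCurve 2 (Hyp (pT p t)) :=
      { connected := hHC K _ hs
        nodal := hHS.2 K _ hs
        genus := hHG K _
        distinct := fun i => i.elim0
        smooth := fun i => i.elim0
        rigid := hHR _ hs }
    obtain ⟨g, m, hm, -, -, -, -, -, m3⟩ := hHX p t t⁻¹ (mul_inv_cancel₀ ht)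
    have hid : IsIso (spMap (RingHom.id K)) := by
      rw [FIS.spMap_id]
      infer_instance
    obtain ⟨mi, hmi, hm1⟩ : ∃ mi : YX K p t ⟶ HX K (pT p t), IsIso mi ∧ mi ≫ m = 𝟙 _ :=
      ⟨inv m, inferInstance, IsIso.inv_hom_id m⟩
    have hc : IsPullback mi (YX.pr K p t) (HX.pr K (pT p t)) (spMap (RingHom.id K)) := by
      refine IsPullback.of_horiz_isIso ⟨?_⟩
      rw [FIS.spMap_id, Category.comp_id, ← m3, ← Category.assoc, hm1, Category.id_comp]
    exact t_FIS.2 2 (Yam p t) (Hyp (pT p t)) ⟨mi, hc, fun i => i.elim0⟩ hmi hH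

end Pool.Agent.MG.H2


end

section

/-!
# YND: the curves `YX K p 0` are nodal
-/

open CategoryTheory CategoryTheory.Limits AlgebraicGeometry TensorProduct

namespace Pool.Agent.MG.H2

namespace YND

variable {K : Type} [Field K]

/-- The point `x` has a neighbourhood as in the definition of nodal curves. -/
def At {X : Scheme.{0}} (π : X ⟶ Sp K) (x : X) : Prop :=
  ∃ (U : Scheme.{0}) (f : U ⟶ X) (h : U ⟶ Sp (NodeRing K)),
    Etale f ∧ Etale h ∧ f ≫ π = h ≫ spMap (algebraMap K (NodeRing K)) ∧ x ∈ Set.range f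

/-- Push forward along an open immersion. -/
theorem push {X Y : Scheme.{0}} (j : Y ⟶ X) [IsOpenImmersion j] (π : X ⟶ Sp K) (π' : Y ⟶ Sp K)
    (hj : j ≫ π = π') {z : Y} (hz : At π' z) : At π (j z) := by
  obtain ⟨U, f, h, hf, hh, e, w, hw⟩ := hz
  have := hf
  refine ⟨U, f ≫ j, h, inferInstance, hh, ?_, w, ?_⟩
  · rw [Category.assoc, hj, e]
  · rw [Scheme.Hom.comp_apply, hw]

theorem EE_mem {R : Type} [CommRing R] (p : Fin 7 → R) (z ξ : R) (I : Ideal R) (hz : z ∈ I)
    (hξ : ξ ∈ I) : EE p z ξ ∈ I := by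
  have h : EE p z ξ = (p 2 + 2 * p 1 * ξ + 3 * p 0 * ξ ^ 2) * ξ +
      (- p 4 - 2 * p 5 * z - 3 * p 6 * z ^ 2) * z := by
    unfold EE
    ring
  rw [h]
  exact I.add_mem (I.mul_mem_left _ hξ) (I.mul_mem_left _ hz)

theorem atT {p : Fin 7 → K} (hSM : Stmt_YSM) (hp : YOk K p 0) (z : Sp (TT K p 0)) :
    At (YX.pr K p 0) (YX.inT K p 0 z) := by
  have h1 := YHS.nodal_of_smooth _ (hSM K (pT p 0) hp.two hp.sT)
  exact push (YX.inT K p 0) (YX.pr K p 0) _ (YX.inT_pr K p 0) (h1 z)

theorem atQ {p : Fin 7 → K} (hSM : Stmt_YSM) (hp : YOk K p 0) (z : Sp (QQ K p 0)) :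
    At (YX.pr K p 0) (YX.inQ K p 0 z) := by
  have h1 := YHS.nodal_of_smooth _ (hSM K (pT (rev p) 0) hp.two hp.sQ)
  exact push (YX.inQ K p 0) (YX.pr K p 0) _ (YX.inQ_pr K p 0) (h1 z)

theorem atN {p : Fin 7 → K} (hNN : Stmt_YNN) (hSM : Stmt_YSM) (hp : YOk K p 0)
    (z : Sp (NN K p 0)) : At (YX.pr K p 0) (YX.inN K p 0 z) := by
  by_cases hK : KN K p 0 ∈ z.asIdeal
  · have hE : EN K p 0 ∉ z.asIdeal := by
      intro hE
      obtain ⟨a, b, hab⟩ := hp.sN
      apply z.isPrime.ne_top
      rw [Ideal.eq_top_iff_one, ← hab]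
      exact z.asIdeal.add_mem (z.asIdeal.mul_mem_left _ hK) (z.asIdeal.mul_mem_left _ hE)
    have hzx : ¬ (zN K p 0 ∈ z.asIdeal ∧ xN K p 0 ∈ z.asIdeal) :=
      fun h => hE (EE_mem _ _ _ _ h.1 h.2)
    by_cases hx : xN K p 0 ∈ z.asIdeal
    · have hz : zN K p 0 ∉ z.asIdeal := fun h => hzx ⟨h, hx⟩
      obtain ⟨w, hw⟩ := (range_nQ K p 0 z).2 hz
      have e : YX.inN K p 0 z = YX.inQ K p 0 (spMap (qQ K p 0) w) := by
        rw [← hw, ← Scheme.Hom.comp_apply, ← Scheme.Hom.comp_apply, YX.condQ]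
      rw [e]
      exact atQ hSM hp _
    · obtain ⟨w, hw⟩ := (range_nT K p 0 z).2 hx
      have e : YX.inN K p 0 z = YX.inT K p 0 (spMap (tT K p 0) w) := by
        rw [← hw, ← Scheme.Hom.comp_apply, ← Scheme.Hom.comp_apply, YX.condT]
      rw [e]
      exact atT hSM hp _
  · exact push (YX.inN K p 0) (YX.pr K p 0) _ (YX.inN_pr K p 0)
      (hNN K p hp.two.ne_zero z hK)

end YND

open _root_.Pool.Agent.MG.H2.YND in
theorem t_YND (hNN : Stmt_YNN) (hSM : Stmt_YSM) : Stmt_YND := by
  intro K _ _ p hp x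
  rcases YX.surj3 x with ⟨z, rfl⟩ | ⟨z, rfl⟩ | ⟨z, rfl⟩
  · exact atT hSM hp z
  · exact atN hNN hSM hp z
  · exact atQ hSM hp z

end Pool.Agent.MG.H2


end

section

/-!
# YNN: the node of the curves `YX K p 0`
-/

open CategoryTheory CategoryTheory.Limits AlgebraicGeometry TensorProduct

namespace Pool.Agent.MG.H2

namespace YNN

/-! ### The node ring -/

section node

variable (K : Type) [Field K]

/-- The first coordinate. -/
noncomputable def a0 : NodeRing K := Ideal.Quotient.mk _ (MvPolynomial.X 0)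

/-- The second coordinate. -/
noncomputable def b0 : NodeRing K := Ideal.Quotient.mk _ (MvPolynomial.X 1)

theorem ab0 : a0 K * b0 K = 0 := by
  unfold a0 b0
  rw [← map_mul, Ideal.Quotient.eq_zero_iff_mem]
  exact Ideal.subset_span rfl

variable {K}
variable {R : Type} [CommRing R] (φ : K →+* R) (a b : R) (h : a * b = 0)

/-- Homomorphisms from the node ring. -/
noncomputable def lND : NodeRing K →+* R :=
  Ideal.Quotient.lift _ (MvPolynomial.eval₂Hom φ ![a, b]) (by
    intro q hq
    have h1 : Ideal.span {(MvPolynomial.X 0 * MvPolynomial.X 1 : MvPolynomial (Fin 2) K)} ≤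
        RingHom.ker (MvPolynomial.eval₂Hom φ ![a, b]) := by
      rw [Ideal.span_le, Set.singleton_subset_iff]
      change MvPolynomial.eval₂Hom φ ![a, b] (MvPolynomial.X 0 * MvPolynomial.X 1) = 0
      rw [map_mul]
      simp [h]
    exact h1 hq)

theorem lND_a : lND φ a b h (a0 K) = a := (Ideal.Quotient.lift_mk _ _ _).trans (by simp)

theorem lND_b : lND φ a b h (b0 K) = b := (Ideal.Quotient.lift_mk _ _ _).trans (by simp)

theorem lND_c (c : K) : lND φ a b h (algebraMap K _ c) = φ c :=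
  (Ideal.Quotient.lift_mk _ (MvPolynomial.eval₂Hom φ ![a, b]) _
    (a := MvPolynomial.C c)).trans (by simp)

theorem homND_ext {g g' : NodeRing K →+* R}
    (h : ∀ c, g (algebraMap K _ c) = g' (algebraMap K _ c)) (ha : g (a0 K) = g' (a0 K))
    (hb : g (b0 K) = g' (b0 K)) : g = g' := by
  refine Ideal.Quotient.ringHom_ext ?_
  refine MvPolynomial.ringHom_ext (fun c => h c) fun i => ?_
  fin_cases i
  · exact ha
  · exact hb

end node

/-! ### The square root of `k` over `N[1/k]` -/

section sq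

variable (N : Type) [CommRing N] (k : N)

/-- `N[1/k][s]/(s² - k)` -/
abbrev E : Type := AdjoinRoot (Polynomial.X ^ 2 - Polynomial.C
  (algebraMap N (Localization.Away k) k) : Polynomial (Localization.Away k))

/-- The map from `N`. -/
noncomputable def io : N →+* E N k :=
  (algebraMap (Localization.Away k) (E N k)).comp (algebraMap N (Localization.Away k))

/-- The square root. -/
noncomputable def sr : E N k := AdjoinRoot.root _

theorem sr_sq : sr N k ^ 2 = io N k k := by
  have h := AdjoinRoot.eval₂_root (Polynomial.X ^ 2 - Polynomial.C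
    (algebraMap N (Localization.Away k) k) : Polynomial (Localization.Away k))
  rw [Polynomial.eval₂_sub, Polynomial.eval₂_pow, Polynomial.eval₂_X, Polynomial.eval₂_C,
    sub_eq_zero] at h
  exact h

theorem io_unit : IsUnit (io N k k) := by
  have h := (IsLocalization.Away.algebraMap_isUnit (S := Localization.Away k) k).map
    (algebraMap (Localization.Away k) (E N k))
  exact h

theorem sr_unit : IsUnit (sr N k) := by
  have h := io_unit N k
  rw [← sr_sq] at h
  exact (isUnit_pow_iff two_ne_zero).1 h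

/-- The inverse of the square root. -/
noncomputable def sri : E N k := ((sr_unit N k).unit⁻¹ : (E N k)ˣ)

theorem sr_sri : sr N k * sri N k = 1 := (sr_unit N k).mul_val_inv

variable {N k}
variable {R : Type} [CommRing R] (φ : N →+* R) (s : R) (h : s ^ 2 = φ k) (hs : IsUnit s)

include h hs in
theorem unit_k : IsUnit (φ k) := by
  rw [← h]
  exact hs.pow 2

/-- Homomorphisms from `N[1/k][s]/(s² - k)`. -/
noncomputable def lE : E N k →+* R :=
  AdjoinRoot.lift (IsLocalization.Away.lift k (g := φ) (unit_k φ s h hs)) s (by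
    rw [Polynomial.eval₂_sub, Polynomial.eval₂_pow, Polynomial.eval₂_X, Polynomial.eval₂_C,
      IsLocalization.Away.lift_eq, h, sub_self])

theorem lE_io (n : N) : lE φ s h hs (io N k n) = φ n := by
  have h1 : lE φ s h hs (io N k n) =
      IsLocalization.Away.lift k (g := φ) (unit_k φ s h hs)
        (algebraMap N (Localization.Away k) n) := AdjoinRoot.lift_of _
  rw [h1, IsLocalization.Away.lift_eq]

theorem lE_sr : lE φ s h hs (sr N k) = s := AdjoinRoot.lift_root _

theorem homE_ext {g g' : E N k →+* R} (h : ∀ n, g (io N k n) = g' (io N k n))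
    (hs : g (sr N k) = g' (sr N k)) : g = g' := by
  refine AdjoinRoot.ringHom_ext ?_ hs
  refine IsLocalization.ringHom_ext (Submonoid.powers k) ?_
  exact RingHom.ext fun n => h n

theorem map_sri (g : E N k →+* R) {x : R} (hx : g (sr N k) * x = 1) : g (sri N k) = x := by
  have h1 : g (sr N k) * g (sri N k) = 1 := by rw [← map_mul, sr_sri, map_one]
  calc g (sri N k) = (g (sr N k) * x) * g (sri N k) := by rw [hx, one_mul]
    _ = (g (sr N k) * g (sri N k)) * x := by ring
    _ = x := by rw [h1, one_mul]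

theorem etale_io (hSQ : Stmt_YSQ) (h2 : IsUnit (2 : N)) : Etale (spMap (io N k)) := by
  have h3 : IsUnit (2 : Localization.Away k) := by
    have h := h2.map (algebraMap N (Localization.Away k))
    rwa [map_ofNat] at h
  obtain ⟨h4, -⟩ := hSQ (Localization.Away k) (algebraMap N (Localization.Away k) k) h3
    (IsLocalization.Away.algebraMap_isUnit (S := Localization.Away k) k)
  have h5 : spMap (io N k) = spMap (algebraMap (Localization.Away k) (E N k)) ≫
      spMap (algebraMap N (Localization.Away k)) := (spMap_comp' _ _).symm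
  have h6 : Etale (spMap (algebraMap N (Localization.Away k))) := inferInstance
  rw [h5]
  infer_instance

theorem range_io (hSQ : Stmt_YSQ) (h2 : IsUnit (2 : N)) (x : Sp N) (hx : k ∉ x.asIdeal) :
    x ∈ Set.range (spMap (io N k)) := by
  have h3 : IsUnit (2 : Localization.Away k) := by
    have h := h2.map (algebraMap N (Localization.Away k))
    rwa [map_ofNat] at h
  obtain ⟨-, h4⟩ := hSQ (Localization.Away k) (algebraMap N (Localization.Away k) k) h3
    (IsLocalization.Away.algebraMap_isUnit (S := Localization.Away k) k)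
  have h5 : Set.range (PrimeSpectrum.comap (algebraMap N (Localization.Away k))) =
      (PrimeSpectrum.basicOpen k : Set _) :=
    PrimeSpectrum.localization_away_comap_range (Localization.Away k) k
  have h6 : x ∈ Set.range (PrimeSpectrum.comap (algebraMap N (Localization.Away k))) := by
    rw [h5]
    exact hx
  obtain ⟨y, hy⟩ := h6
  obtain ⟨w, hw⟩ := h4 y
  refine ⟨w, ?_⟩
  have h7 : spMap (io N k) = spMap (algebraMap (Localization.Away k) (E N k)) ≫
      spMap (algebraMap N (Localization.Away k)) := (spMap_comp' _ _).symm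
  rw [h7, Scheme.Hom.comp_apply, hw]
  exact hy

end sq

/-! ### The two neighbourhoods agree -/

section iso

variable (K : Type) [Field K] (p : Fin 7 → K)

/-- The function `K` on the node. -/
noncomputable def k0 : NodeRing K :=
  KK (fun i => algebraMap K (NodeRing K) (p i)) (b0 K ^ 2) (a0 K ^ 2)

theorem ab_zero : aN K p 0 * bN K p 0 = 0 := by
  rw [(relN K p 0).ab, map_zero, zero_mul]

/-- The map from the node. -/
noncomputable def chi : NodeRing K →+* E (NN K p 0) (KN K p 0) :=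
  lND ((io (NN K p 0) (KN K p 0)).comp (algebraMap K (NN K p 0)))
    (io (NN K p 0) (KN K p 0) (aN K p 0) * sri (NN K p 0) (KN K p 0))
    (io (NN K p 0) (KN K p 0) (bN K p 0) * sri (NN K p 0) (KN K p 0)) (by
      have h : io (NN K p 0) (KN K p 0) (aN K p 0) * io (NN K p 0) (KN K p 0) (bN K p 0) = 0 := by
        rw [← map_mul, ab_zero, map_zero]
      linear_combination (sri (NN K p 0) (KN K p 0)) ^ 2 * h)

theorem chi_a : chi K p (a0 K) =
    io (NN K p 0) (KN K p 0) (aN K p 0) * sri (NN K p 0) (KN K p 0) := lND_a _ _ _ _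

theorem chi_b : chi K p (b0 K) =
    io (NN K p 0) (KN K p 0) (bN K p 0) * sri (NN K p 0) (KN K p 0) := lND_b _ _ _ _

theorem chi_c (c : K) : chi K p (algebraMap K _ c) =
    io (NN K p 0) (KN K p 0) (algebraMap K _ c) := lND_c _ _ _ _ _

theorem chi_a2 : chi K p (a0 K ^ 2) = io (NN K p 0) (KN K p 0) (xN K p 0) := by
  have h1 := congrArg (io (NN K p 0) (KN K p 0)) (relN K p 0).aa
  have h2 := sr_sq (NN K p 0) (KN K p 0)
  have h3 := sr_sri (NN K p 0) (KN K p 0)
  rw [map_pow, map_mul] at h1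
  change io (NN K p 0) (KN K p 0) (aN K p 0) ^ 2 =
    io (NN K p 0) (KN K p 0) (xN K p 0) * io (NN K p 0) (KN K p 0) (KN K p 0) at h1
  rw [map_pow, chi_a, mul_pow, h1, ← h2]
  linear_combination io (NN K p 0) (KN K p 0) (xN K p 0) *
    (sr (NN K p 0) (KN K p 0) * sri (NN K p 0) (KN K p 0) + 1) * h3

theorem chi_b2 : chi K p (b0 K ^ 2) = io (NN K p 0) (KN K p 0) (zN K p 0) := by
  have h1 := congrArg (io (NN K p 0) (KN K p 0)) (relN K p 0).bb
  have h2 := sr_sq (NN K p 0) (KN K p 0)
  have h3 := sr_sri (NN K p 0) (KN K p 0)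
  rw [map_pow, map_mul] at h1
  change io (NN K p 0) (KN K p 0) (bN K p 0) ^ 2 =
    io (NN K p 0) (KN K p 0) (zN K p 0) * io (NN K p 0) (KN K p 0) (KN K p 0) at h1
  rw [map_pow, chi_b, mul_pow, h1, ← h2]
  linear_combination io (NN K p 0) (KN K p 0) (zN K p 0) *
    (sr (NN K p 0) (KN K p 0) * sri (NN K p 0) (KN K p 0) + 1) * h3

theorem chi_k : chi K p (k0 K p) = io (NN K p 0) (KN K p 0) (KN K p 0) := by
  have h1 : chi K p (k0 K p) = KK (fun i => chi K p (algebraMap K (NodeRing K) (p i)))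
      (chi K p (b0 K ^ 2)) (chi K p (a0 K ^ 2)) := KK_map _ _ _ _
  have h2 : io (NN K p 0) (KN K p 0) (KN K p 0) =
      KK (fun i => io (NN K p 0) (KN K p 0) (algebraMap K (NN K p 0) (p i)))
      (io (NN K p 0) (KN K p 0) (zN K p 0)) (io (NN K p 0) (KN K p 0) (xN K p 0)) :=
    KK_map _ _ _ _
  rw [h1, h2, chi_a2, chi_b2]
  congr 1
  funext i
  exact chi_c K p _

/-- The map of neighbourhoods. -/
noncomputable def e1 : E (NodeRing K) (k0 K p) →+* E (NN K p 0) (KN K p 0) :=
  lE (chi K p) (sr (NN K p 0) (KN K p 0)) (by rw [chi_k, sr_sq]) (sr_unit _ _)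

theorem relPsi : NRel (fun i => ((io (NodeRing K) (k0 K p)).comp (algebraMap K (NodeRing K)))
      (p i)) (((io (NodeRing K) (k0 K p)).comp (algebraMap K (NodeRing K))) 0)
    (io (NodeRing K) (k0 K p) (b0 K ^ 2)) (io (NodeRing K) (k0 K p) (a0 K ^ 2))
    (sr (NodeRing K) (k0 K p) * io (NodeRing K) (k0 K p) (a0 K))
    (sr (NodeRing K) (k0 K p) * io (NodeRing K) (k0 K p) (b0 K)) := by
  have h0 : io (NodeRing K) (k0 K p) (a0 K) * io (NodeRing K) (k0 K p) (b0 K) = 0 := by
    rw [← map_mul, ab0, map_zero]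
  have hK : sr (NodeRing K) (k0 K p) ^ 2 =
      KK (fun i => ((io (NodeRing K) (k0 K p)).comp (algebraMap K (NodeRing K))) (p i))
        (io (NodeRing K) (k0 K p) (b0 K ^ 2)) (io (NodeRing K) (k0 K p) (a0 K ^ 2)) := by
    rw [sr_sq]
    exact KK_map _ _ _ _
  rw [map_zero]
  refine ⟨?_, ?_, ?_, ?_, ?_, ?_⟩
  · rw [map_pow, map_pow]
    linear_combination io (NodeRing K) (k0 K p) (a0 K) * io (NodeRing K) (k0 K p) (b0 K) * h0
  · rw [← hK, map_pow]
    ring
  · rw [← hK, map_pow]
    ring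
  · rw [zero_mul]
    linear_combination sr (NodeRing K) (k0 K p) ^ 2 * h0
  · rw [zero_mul, map_pow]
    linear_combination sr (NodeRing K) (k0 K p) * io (NodeRing K) (k0 K p) (a0 K) * h0
  · rw [zero_mul, map_pow]
    linear_combination sr (NodeRing K) (k0 K p) * io (NodeRing K) (k0 K p) (b0 K) * h0

/-- The map from `N`. -/
noncomputable def psi : NN K p 0 →+* E (NodeRing K) (k0 K p) := liftN _ _ _ _ _ (relPsi K p)

theorem psi_z : psi K p (zN K p 0) = io (NodeRing K) (k0 K p) (b0 K ^ 2) := liftN_z _ _ _ _ _ _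

theorem psi_x : psi K p (xN K p 0) = io (NodeRing K) (k0 K p) (a0 K ^ 2) := liftN_x _ _ _ _ _ _

theorem psi_a : psi K p (aN K p 0) =
    sr (NodeRing K) (k0 K p) * io (NodeRing K) (k0 K p) (a0 K) := liftN_a _ _ _ _ _ _

theorem psi_b : psi K p (bN K p 0) =
    sr (NodeRing K) (k0 K p) * io (NodeRing K) (k0 K p) (b0 K) := liftN_b _ _ _ _ _ _

theorem psi_c (c : K) : psi K p (algebraMap K _ c) =
    io (NodeRing K) (k0 K p) (algebraMap K _ c) := liftN_c _ _ _ _ _ _ _

theorem psi_k : psi K p (KN K p 0) = io (NodeRing K) (k0 K p) (k0 K p) := by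
  have h1 : psi K p (KN K p 0) = KK (fun i => psi K p (algebraMap K (NN K p 0) (p i)))
      (psi K p (zN K p 0)) (psi K p (xN K p 0)) := KK_map _ _ _ _
  have h2 : io (NodeRing K) (k0 K p) (k0 K p) =
      KK (fun i => io (NodeRing K) (k0 K p) (algebraMap K (NodeRing K) (p i)))
      (io (NodeRing K) (k0 K p) (b0 K ^ 2)) (io (NodeRing K) (k0 K p) (a0 K ^ 2)) :=
    KK_map _ _ _ _
  rw [h1, h2, psi_x, psi_z]
  congr 1
  funext i
  exact psi_c K p _

/-- The map of neighbourhoods in the other direction. -/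
noncomputable def e2 : E (NN K p 0) (KN K p 0) →+* E (NodeRing K) (k0 K p) :=
  lE (psi K p) (sr (NodeRing K) (k0 K p)) (by rw [psi_k, sr_sq]) (sr_unit _ _)

theorem e1_io (n : NodeRing K) : e1 K p (io _ _ n) = chi K p n := lE_io _ _ _ _ _

theorem e1_sr : e1 K p (sr _ _) = sr _ _ := lE_sr _ _ _ _

theorem e2_io (n : NN K p 0) : e2 K p (io _ _ n) = psi K p n := lE_io _ _ _ _ _

theorem e2_sr : e2 K p (sr _ _) = sr _ _ := lE_sr _ _ _ _

theorem e2_sri : e2 K p (sri _ _) = sri _ _ := map_sri _ (by rw [e2_sr, sr_sri])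

theorem e12 : (e1 K p).comp (e2 K p) = RingHom.id _ := by
  refine homE_ext (fun n => ?_) ?_
  · have h : ((e1 K p).comp (psi K p)) = io (NN K p 0) (KN K p 0) := by
      have h2 := sr_sri (NN K p 0) (KN K p 0)
      refine homN_ext ?_ ?_ ?_ ?_ ?_
      · intro c
        rw [RingHom.comp_apply, psi_c, e1_io, chi_c]
      · rw [RingHom.comp_apply, psi_z, e1_io, chi_b2]
      · rw [RingHom.comp_apply, psi_x, e1_io, chi_a2]
      · rw [RingHom.comp_apply, psi_a, map_mul, e1_sr, e1_io, chi_a]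
        linear_combination io (NN K p 0) (KN K p 0) (aN K p 0) * h2
      · rw [RingHom.comp_apply, psi_b, map_mul, e1_sr, e1_io, chi_b]
        linear_combination io (NN K p 0) (KN K p 0) (bN K p 0) * h2
    rw [RingHom.comp_apply, e2_io, RingHom.id_apply]
    exact congrArg (fun g => g n) h
  · rw [RingHom.comp_apply, e2_sr, e1_sr, RingHom.id_apply]

theorem e21 : (e2 K p).comp (e1 K p) = RingHom.id _ := by
  refine homE_ext (fun n => ?_) ?_
  · have h : ((e2 K p).comp (chi K p)) = io (NodeRing K) (k0 K p) := by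
      have h2 := sr_sri (NodeRing K) (k0 K p)
      refine homND_ext ?_ ?_ ?_
      · intro c
        rw [RingHom.comp_apply, chi_c, e2_io, psi_c]
      · rw [RingHom.comp_apply, chi_a, map_mul, e2_io, psi_a, e2_sri]
        linear_combination io (NodeRing K) (k0 K p) (a0 K) * h2
      · rw [RingHom.comp_apply, chi_b, map_mul, e2_io, psi_b, e2_sri]
        linear_combination io (NodeRing K) (k0 K p) (b0 K) * h2
    rw [RingHom.comp_apply, e1_io, RingHom.id_apply]
    exact congrArg (fun g => g n) h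
  · rw [RingHom.comp_apply, e1_sr, e2_sr, RingHom.id_apply]

/-- The isomorphism of neighbourhoods. -/
noncomputable def ee : E (NodeRing K) (k0 K p) ≃+* E (NN K p 0) (KN K p 0) :=
  RingEquiv.ofRingHom (e1 K p) (e2 K p) (e12 K p) (e21 K p)

theorem etale_chi (hSQ : Stmt_YSQ) (h2 : IsUnit (2 : NodeRing K)) :
    Etale (spMap (chi K p)) := by
  have h1 : spMap (chi K p) = spMap (ee K p : E (NodeRing K) (k0 K p) →+* _) ≫
      spMap (io (NodeRing K) (k0 K p)) := by
    rw [spMap_comp']
    refine congrArg (fun f => spMap f) (RingHom.ext fun n => ?_)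
    exact (e1_io K p n).symm
  have h3 : IsIso (spMap (ee K p : E (NodeRing K) (k0 K p) →+* E (NN K p 0) (KN K p 0))) := by
    have : IsIso (CommRingCat.ofHom
        (ee K p : E (NodeRing K) (k0 K p) →+* E (NN K p 0) (KN K p 0))) :=
      (RingEquiv.toCommRingCatIso (ee K p)).isIso_hom
    infer_instance
  have h4 := etale_io (N := NodeRing K) (k := k0 K p) hSQ h2
  rw [h1]
  infer_instance

end iso

end YNN

theorem t_YNN (hSQ : Stmt_YSQ) : Stmt_YNN := by
  intro K _ p h2 x hx
  have h3 : IsUnit (2 : K) := h2.isUnit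
  have h4 : IsUnit (2 : NN K p 0) := by
    have h := h3.map (algebraMap K (NN K p 0))
    rwa [map_ofNat] at h
  have h5 : IsUnit (2 : NodeRing K) := by
    have h := h3.map (algebraMap K (NodeRing K))
    rwa [map_ofNat] at h
  refine ⟨Sp (YNN.E (NN K p 0) (KN K p 0)), spMap (YNN.io (NN K p 0) (KN K p 0)),
    spMap (YNN.chi K p), YNN.etale_io hSQ h4, YNN.etale_chi K p hSQ h5, ?_,
    YNN.range_io hSQ h4 x hx⟩
  rw [spMap_comp', spMap_comp']
  refine congrArg (fun f => spMap f) (RingHom.ext fun c => ?_)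
  exact (YNN.chi_c K p c).symm

end Pool.Agent.MG.H2


end

section

/-!
# YSQ: adjoining the square root of a unit is etale
-/

open CategoryTheory CategoryTheory.Limits AlgebraicGeometry TensorProduct

namespace Pool.Agent.MG.H2

namespace YSQ

open Polynomial

variable {A : Type} [CommRing A]

theorem monic (u : A) : (X ^ 2 - C u : A[X]).Monic := monic_X_pow_sub_C u two_ne_zero

/-- The standard etale pair `X² - u`, `1`. -/
noncomputable def pair (u v i2 : A) (hv : u * v = 1) (hi : 2 * i2 = 1) : StandardEtalePair A where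
  f := X ^ 2 - C u
  monic_f := monic u
  g := 1
  cond := ⟨C (v * i2) * X, -C v, 0, by
    have h1 : C (v * i2) * (2 : A[X]) = C v := by
      have h2 : (2 : A[X]) = C 2 := (C_ofNat 2).symm
      rw [h2, ← C_mul, mul_assoc, mul_comm i2, hi, mul_one]
    have h3 : C u * C v = (1 : A[X]) := by rw [← C_mul, hv, C_1]
    simp only [derivative_sub, derivative_X_pow, derivative_C, Nat.cast_ofNat, C_ofNat]
    linear_combination X ^ 2 * h1 + h3⟩

theorem etale (u : A) (h2 : IsUnit (2 : A)) (hu : IsUnit u) :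
    Algebra.Etale A (AdjoinRoot (X ^ 2 - C u)) := by
  obtain ⟨v, hv⟩ := hu.exists_right_inv
  obtain ⟨i2, hi⟩ := h2.exists_right_inv
  set P := pair u v i2 hv hi with hP
  have h1 : IsUnit (AdjoinRoot.mk P.f P.g) := by
    rw [show P.g = 1 from rfl, map_one]
    exact isUnit_one
  exact Algebra.Etale.of_equiv (P.equivAwayAdjoinRoot.trans
    ((IsLocalization.atUnit (AdjoinRoot P.f) (Localization.Away (AdjoinRoot.mk P.f P.g))
      (AdjoinRoot.mk P.f P.g) h1).restrictScalars A).symm)

theorem nontriv [Nontrivial A] (u : A) : Nontrivial (AdjoinRoot (X ^ 2 - C u)) := by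
  have h0 : 0 < (AdjoinRoot.powerBasis' (monic u)).dim := by
    rw [AdjoinRoot.powerBasis'_dim, natDegree_X_pow_sub_C]
    norm_num
  exact ⟨⟨(AdjoinRoot.powerBasis' (monic u)).basis ⟨0, h0⟩, 0,
    (AdjoinRoot.powerBasis' (monic u)).basis.ne_zero _⟩⟩

end YSQ

theorem t_YSQ : Stmt_YSQ := by
  intro A _ u h2 hu
  have h1 := YSQ.etale u h2 hu
  refine ⟨NOD.etale_spMap (RingHom.etale_algebraMap.2 h1), ?_⟩
  change Function.Surjective (PrimeSpectrum.comap (algebraMap A
    (AdjoinRoot (Polynomial.X ^ 2 - Polynomial.C u))))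
  rcases subsingleton_or_nontrivial A with hA | hA
  · intro p
    exact absurd (Subsingleton.elim (1 : A) 0 ▸ p.asIdeal.zero_mem)
      ((Ideal.ne_top_iff_one _).1 p.isPrime.ne_top)
  · have h3 := YSQ.nontriv u
    have h4 := (YSQ.monic u).free_adjoinRoot
    exact PrimeSpectrum.comap_surjective_of_faithfullyFlat

end Pool.Agent.MG.H2


end

section

/-!
# Genus two: every regular function is constant
-/

open CategoryTheory CategoryTheory.Limits AlgebraicGeometry Polynomial

namespace Pool.Agent.MG.H2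

theorem yfi : Stmt_YFI :=
  t_YFI (t_YCN t_YDM t_YNB) (t_YND (t_YNN t_YSQ) t_YSM) (t_YGN t_YUA (t_YGA t_YNB))
    (t_YRI (t_YRA t_YDA t_YNB) t_YNB) t_YHX t_YOU (t_YHC t_YDM) (t_YHS t_YSM) t_YHG (t_YHR t_YDA)

theorem yst : Stmt_YST :=
  t_YST (t_YPR t_YVE t_YVU (t_YFP t_YNB)) t_YBC t_YOB yfi

theorem yar : Stmt_YAR := t_YAR t_YBC t_YHX

theorem inp : Inp where
  hHTR := t_HTR
  hYHT := t_YHT yst yar t_YOU
  hYST := yst
  hYSM := t_YSM
  hYOR := t_YOR
  hYAR := yar
  hVAL := t_VAL
  hREG := t_REG yst t_YOR yar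

/-- There is a generic smooth curve of genus two at which every regular function is constant. -/
theorem rigid (n : ℕ) : Std.Rigid 2 n := inp.rigid n

/-- Every regular function is constant. -/
theorem all_std (n : ℕ) (F : Std.Reg 2 n) : ∃ c : ℂ,
    ∀ (K : Type) [Field K] [IsAlgClosed K] [Algebra ℂ K] (C : Fam n K) (hC : Std.IsStable 2 C)
      (_ : Smooth C.π) (l : Std.Cov 2 C), F.F K C hC l = algebraMap ℂ K c := inp.std n F

end Pool.Agent.MG.H2


end
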